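import Pool.Agent.FPX.SQZ

/-
SQU (helper88): a list of classes with rational data, one Boolean, gives `SQZ.Num` and the area bound.
-/

set_option autoImplicit false

open MeasureTheory Set Filter Measure Topology Manifold
open scoped ENNReal NNReal ContDiff

noncomputable section

namespace Pool.Agent.FPX.SQU

open Pool.Agent.FPX.SQX Pool.Agent.FPX.SQZ

/-- a class `s`, its constant `om`, the end `kp` of the latitudes where it is used -/
structure Cl where
  s : ℚ
  om : ℚ
  kp : ℚ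
deriving Inhabited

/-- the class `j` -/
def cl (l : List Cl) (j : ℕ) : Cl := l.getD j default

/-- the check of the numbers -/
def chk (l : List Cl) (δ oz c₁ : ℚ) : Bool :=
  decide (0 < δ) && decide (c₁ < 1) && decide (0 < l.length) && decide ((cl l 0).s = 1) && decide ((cl l 0).om ≤ oz) &&
    (List.range (l.length - 1)).all fun j =>
      decide ((cl l (j + 1)).s ≤ (cl l j).s) && decide (0 ≤ (cl l (j + 1)).s) && decide ((cl l (j + 1)).om ≤ (cl l j).om) &&
        decide (0 ≤ (cl l j).kp) && decide ((cl l j).kp + δ ≤ c₁) && decide (1 - (cl l (j + 1)).s ^ 2 ≤ (cl l j).kp ^ 2)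

/-- the constant -/
def valQ (l : List Cl) (δ : ℚ) : ℚ :=
  1 - (cl l (l.length - 1)).om
    - ∑ j ∈ Finset.range (l.length - 1), ((cl l j).om - (cl l (j + 1)).om) * ((cl l j).kp + δ / 2)

theorem num {l : List Cl} {δ oz c₁ : ℚ} (h : chk l δ oz c₁ = true) :
    Num (l.length - 1) (fun j => ((cl l j).s : ℝ)) (fun j => ((cl l j).om : ℝ)) (fun j => ((cl l j).kp : ℝ)) δ oz c₁ := by
  simp only [chk, Bool.and_eq_true, decide_eq_true_eq] at h
  obtain ⟨⟨⟨⟨⟨h1, h2⟩, h3⟩, h4⟩, h5⟩, h6⟩ := h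
  have ha : ∀ j < l.length - 1, ((cl l (j + 1)).s ≤ (cl l j).s ∧ 0 ≤ (cl l (j + 1)).s ∧ (cl l (j + 1)).om ≤ (cl l j).om ∧
      0 ≤ (cl l j).kp ∧ (cl l j).kp + δ ≤ c₁ ∧ 1 - (cl l (j + 1)).s ^ 2 ≤ (cl l j).kp ^ 2) := fun j hj => by
    have := List.all_eq_true.1 h6 j (List.mem_range.2 hj)
    simp only [Bool.and_eq_true, decide_eq_true_eq] at this
    obtain ⟨⟨⟨⟨⟨k1, k2⟩, k3⟩, k4⟩, k5⟩, k6⟩ := this
    exact ⟨k1, k2, k3, k4, k5, k6⟩
  refine
    { δ0 := by exact_mod_cast h1
      s0 := by exact_mod_cast h4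
      spos := ?_
      santi := fun j hj => by exact_mod_cast (ha j hj).1
      omanti := fun j hj => by exact_mod_cast (ha j hj).2.2.1
      om0 := by exact_mod_cast h5
      kp0 := fun j hj => by exact_mod_cast (ha j hj).2.2.2.1
      kp1 := fun j hj => by exact_mod_cast (ha j hj).2.2.2.2.1
      kps := fun j hj => by
        have := (ha j hj).2.2.2.2.2
        exact_mod_cast this
      c1 := by exact_mod_cast h2 }
  rcases Nat.eq_zero_or_pos (l.length - 1) with e | e
  · rw [e, h4]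
    norm_num
  · have := (ha (l.length - 1 - 1) (by omega)).2.1
    rw [show l.length - 1 - 1 + 1 = l.length - 1 by omega] at this
    exact_mod_cast this

theorem val_eq (l : List Cl) (δ : ℚ) : val (l.length - 1) (fun j => ((cl l j).om : ℝ)) (fun j => ((cl l j).kp : ℝ)) δ
    = ((valQ l δ : ℚ) : ℝ) := by
  unfold val valQ
  push_cast
  rfl

open Pool.Agent.H74.Surf in
/-- **surfaces** -/
theorem surf {l : List Cl} {δ oz c₁ v : ℚ} (h : chk l δ oz c₁ = true) (hv : v ≤ valQ l δ)
    (hc : ∀ j < l.length, CertW ((cl l j).s : ℝ) ((cl l j).om : ℝ) (oz : ℝ))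
    (M : Type) [MetricSpace M] [CompactSpace M] [ChartedSpace (EuclideanHalfSpace 2) M]
    [RiemannianSpace (𝓡∂ 2) M] (horient : H74.Surf.Orientable (𝓡∂ 2) M)
    (φ : H74.Surf.S1 → M) (hφ : H74.Surf.IsometricFilling (𝓡∂ 2) φ) :
    ENNReal.ofReal (2 * Real.pi * (v : ℝ)) ≤ H74.Surf.area M := by
  have hl : 0 < l.length := by
    simp only [chk, Bool.and_eq_true, decide_eq_true_eq] at h
    exact h.1.1.1.2
  have k := (num h).surf (fun j hj => hc j (by omega)) M horient φ hφ
  rw [val_eq] at k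
  refine le_trans (ENNReal.ofReal_le_ofReal ?_) k
  have : (v : ℝ) ≤ ((valQ l δ : ℚ) : ℝ) := by exact_mod_cast hv
  have hp := Real.pi_pos
  gcongr

end Pool.Agent.FPX.SQU
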