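import Mathlib
import Pool.Agent.EWD.Defs
import Pool.Agent.EWD.LPA

/-
FPX, shared definitions (helper81): the fixed point inequality (EX**) for odd maps into the two
sphere. Everything is on the surface `M` with boundary curve `γ` (no double); `Calc` is the
Dirichlet calculus of `EWD/Defs.lean`. `PP` is the uniform probability measure on the unit sphere.
-/

open MeasureTheory Set Filter Topology
open scoped ENNReal NNReal

noncomputable section

namespace Pool.Agent.FPX

open Pool.Agent.EWD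

/-- the uniform probability measure on the unit sphere of `ℝ³` -/
def PP : Measure E3 :=
  ENNReal.ofReal (1 / (4 * Real.pi)) •
    ((volume : Measure E3).toSphere).map (Subtype.val : Metric.sphere (0 : E3) 1 → E3)

/-- cross product -/
def crs (a b : E3) : E3 := !₂[a 1 * b 2 - a 2 * b 1, a 2 * b 0 - a 0 * b 2, a 0 * b 1 - a 1 * b 0]

/-- `1 - ⟨v, p⟩²`, for unit vectors the square of the sine of their angle -/
def sq2 (v p : E3) : ℝ := 1 - inner ℝ v p ^ 2

variable {M : Type} [MetricSpace M] {γ : ℝ → M}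

/-- admissible potentials: odd 1-Lipschitz functions, bounded by `π/2` -/
structure Adm (γ : ℝ → M) (θ : M → ℝ) : Prop where
  lip : LipschitzWith 1 θ
  odd : OddB γ θ
  bd : ∀ x, |θ x| ≤ Real.pi / 2

/-- the derivative of the map `v` in the first direction -/
def dx (C : Calc M γ) (v : Fin 3 → M → ℝ) (o : Om) : E3 :=
  !₂[C.gx (v 0) o, C.gx (v 1) o, C.gx (v 2) o]

/-- the derivative of the map `v` in the second direction -/
def dy (C : Calc M γ) (v : Fin 3 → M → ℝ) (o : Om) : E3 :=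
  !₂[C.gy (v 0) o, C.gy (v 1) o, C.gy (v 2) o]

/-- the value of `v` at the point with parameter `o` -/
def at' (C : Calc M γ) (v : Fin 3 → M → ℝ) (o : Om) : E3 := !₂[v 0 (C.pt o), v 1 (C.pt o), v 2 (C.pt o)]

/-- `dθ ∧ dφ`, where `φ` is the azimuth of `v` around the unit vector `p` -/
def flx (C : Calc M γ) (θ : M → ℝ) (v : Fin 3 → M → ℝ) (p : E3) (o : Om) : ℝ :=
  (C.gx θ o * inner ℝ p (crs (at' C v o) (dy C v o))
    - C.gy θ o * inner ℝ p (crs (at' C v o) (dx C v o))) / sq2 (at' C v o) p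

/-- the flux of the azimuth around `p` through `θ` -/
def Flux (C : Calc M γ) (θ : M → ℝ) (v : Fin 3 → M → ℝ) (p : E3) : ℝ := ∫ o, flx C θ v p o ∂C.μ

/-- the zeros of the part of `v` orthogonal to `p` are nondegenerate -/
def Reg (C : Calc M γ) (v : Fin 3 → M → ℝ) (p : E3) : Prop :=
  ∃ (a b : E3) (Z : Finset M) (s : M → ℝ), inner ℝ a a = (1 : ℝ) ∧ inner ℝ b b = (1 : ℝ) ∧
    inner ℝ a b = (0 : ℝ) ∧ crs a b = p ∧
    C.Vort (fun x => inner ℝ a (vv (n := 0) v x)) (fun x => inner ℝ b (vv (n := 0) v x)) Z s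

/-- the general hypothesis on the surface: every odd Lipschitz map into the sphere is regular in
almost every direction. Proved for smooth surfaces in `FPX/REG.lean`. -/
def RegAE (C : Calc M γ) : Prop :=
  ∀ v : Fin 3 → M → ℝ, Sph γ v → ∀ᵐ p ∂PP, Reg C v p

/-- a measurable family of admissible potentials, with values in the convex hull of finitely many -/
structure Fam (γ : ℝ → M) where
  n : ℕ
  th : Fin n → M → ℝ
  adm : ∀ i, Adm γ (th i)
  lam : E3 → Fin n → ℝ
  meas : ∀ i, Measurable fun p => lam p i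
  nonneg : ∀ p i, 0 ≤ lam p i
  sum : ∀ p, ∑ i, lam p i = 1

namespace Fam

variable (F : Fam γ)

/-- the potential with label `p` -/
def f (p : E3) (x : M) : ℝ := ∑ i, F.lam p i * F.th i x

/-- `Θ = (8/π) E[θ_p p]` -/
def Th (k : Fin 3) (x : M) : ℝ := (8 / Real.pi) * ∫ p, F.f p x * p k ∂PP

end Fam

/-- the maps `(T₀, T₁, T₂)` among which the fixed point is searched -/
structure Pre (γ : ℝ → M) (T : Fin 3 → M → ℝ) : Prop where
  lip : ∀ k, LipschitzWith 3 (T k)
  odd : ∀ k, OddB γ (T k)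
  bd : ∀ k x, |T k x| ≤ 4

/-- `∑ aᵢ θᵢ` -/
def comb {n : ℕ} (a : Fin n → Fin 3 → ℝ) (th : Fin n → M → ℝ) (k : Fin 3) (x : M) : ℝ :=
  ∑ i, a i k * th i x

/-- an operator that produces odd maps into the sphere, continuous on finite dimensional families -/
structure Op (C : Calc M γ) where
  V : (Fin 3 → M → ℝ) → (Fin 3 → M → ℝ)
  L : ℝ≥0
  sph : ∀ T, Pre γ T → Sph γ (V T)
  lip : ∀ T, Pre γ T → ∀ k, LipschitzWith L (V T k)
  cont : ∀ (n : ℕ) (th : Fin n → M → ℝ), (∀ i, Adm γ (th i)) →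
    ∀ (a : ℕ → Fin n → Fin 3 → ℝ) (a₀ : Fin n → Fin 3 → ℝ), Tendsto a atTop (𝓝 a₀) →
    (∀ j, Pre γ (comb (a j) th)) → Pre γ (comb a₀ th) →
    ∀ᵐ o ∂C.μ, ∀ k,
      Tendsto (fun j => V (comb (a j) th) k (C.pt o)) atTop (𝓝 (V (comb a₀ th) k (C.pt o))) ∧
      Tendsto (fun j => C.gx (V (comb (a j) th) k) o) atTop (𝓝 (C.gx (V (comb a₀ th) k) o)) ∧
      Tendsto (fun j => C.gy (V (comb (a j) th) k) o) atTop (𝓝 (C.gy (V (comb a₀ th) k) o))

end Pool.Agent.FPX
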