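import Mathlib
import Pool.Agent.EWD.Defs

/-
FPX, definitions for the scalar step S7 (helper82): the isoperimetric inequality for the superlevel
sets of even Lipschitz functions, on one copy `M` of the surface.
-/

open MeasureTheory Set Filter Topology
open scoped ENNReal NNReal

noncomputable section

namespace Pool.Agent.FPX

open Pool.Agent.EWD

/-- `u` takes equal values at opposite points of the curve `γ` -/
def EvenB {M : Type} (γ : ℝ → M) (u : M → ℝ) : Prop := ∀ t, u (γ (t + Real.pi)) = u (γ t)

variable {M : Type} [MetricSpace M] {γ : ℝ → M} (C : Calc M γ)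

/-- the norm of the gradient -/
def gn (g : M → ℝ) (o : Om) : ℝ := √(C.gx g o ^ 2 + C.gy g o ^ 2)

/-- `∫_{g < t} |∇g|`; its derivative is the length of the level line `g = t` -/
def lev (g : M → ℝ) (t : ℝ) : ℝ := ∫ o in {o | g (C.pt o) < t}, gn C g o ∂C.μ

/-- the area of `{t ≤ g}` -/
def sup' (g : M → ℝ) (t : ℝ) : ℝ := (C.μ {o | t ≤ g (C.pt o)}).toReal

/-- isoperimetric inequality with constant `κ` and error `ε` for the superlevel sets of even
functions: `κ (min (a, |M| - a) - ε) ≤ l²`, with `a`, `l` on one copy `M`. On the double this is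
`2 κ (min (a, |D| - a) - 2 ε) ≤ l²`. -/
def Isop (κ ε : ℝ) : Prop :=
  ∀ g : M → ℝ, Lip g → EvenB γ g → ∀ᵐ t : ℝ, DifferentiableAt ℝ (lev C g) t ∧
    κ * (min (sup' C g t) (C.vol - sup' C g t) - ε) ≤ deriv (lev C g) t ^ 2

end Pool.Agent.FPX
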