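import Mathlib
import Pool.Agent.EWD.Defs
import Pool.Agent.FPX.S7Defs

/-
FPX, S7B (helper82): from the isoperimetric inequality for superlevel sets of even functions to the
hypothesis of the level set lemma S7A, for the positive part of an even Lipschitz function.
-/

open MeasureTheory Set Filter Topology
open scoped ENNReal NNReal

noncomputable section

namespace Pool.Agent.FPX

open Pool.Agent.EWD

variable {M : Type} [MetricSpace M] {γ : ℝ → M} (C : Calc M γ)

/-- the positive part of `g` -/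
def upp (g : M → ℝ) (o : Om) : ℝ := max (g (C.pt o)) 0

/-- the norm of the gradient of the positive part of `g` -/
def gpp (g : M → ℝ) (o : Om) : ℝ := if 0 < g (C.pt o) then gn C g o else 0

theorem gn_nonneg (g : M → ℝ) (o : Om) : 0 ≤ gn C g o := Real.sqrt_nonneg _

theorem gpp_nonneg (g : M → ℝ) (o : Om) : 0 ≤ gpp C g o := by
  unfold gpp; split_ifs
  · exact gn_nonneg C g o
  · exact le_rfl

theorem gpp_le (g : M → ℝ) (o : Om) : gpp C g o ≤ gn C g o := by
  unfold gpp; split_ifs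
  · exact le_rfl
  · exact gn_nonneg C g o

theorem upp_nonneg (g : M → ℝ) (o : Om) : 0 ≤ upp C g o := le_max_right _ _

theorem gn_sq (g : M → ℝ) (o : Om) : gn C g o ^ 2 = C.gx g o ^ 2 + C.gy g o ^ 2 :=
  Real.sq_sqrt (by positivity)

theorem aem_gn {g : M → ℝ} (hg : Lip g) : AEMeasurable (gn C g) C.μ := by
  have h1 : AEMeasurable (C.gx g) C.μ := C.mgx g hg
  have h2 : AEMeasurable (C.gy g) C.μ := C.mgy g hg
  exact ((h1.pow_const 2).add (h2.pow_const 2)).sqrt

theorem aem_pt {g : M → ℝ} (hg : Lip g) : AEMeasurable (fun o => g (C.pt o)) C.μ := C.mpt g hg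

theorem aem_upp {g : M → ℝ} (hg : Lip g) : AEMeasurable (upp C g) C.μ :=
  (aem_pt C hg).max aemeasurable_const

theorem aem_gpp {g : M → ℝ} (hg : Lip g) : AEMeasurable (gpp C g) C.μ := by
  have h : gpp C g = {o | 0 < g (C.pt o)}.indicator (gn C g) := by
    funext o; simp [gpp, indicator]
  rw [h]
  exact (aem_gn C hg).indicator₀ (nullMeasurableSet_lt aemeasurable_const (aem_pt C hg))

theorem gn_bd {g : M → ℝ} {L : ℝ≥0} (hg : LipschitzWith L g) : ∀ᵐ o ∂C.μ, gn C g o ≤ L := by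
  filter_upwards [C.bound g L hg] with o ho
  rw [gn]
  exact Real.sqrt_le_iff.2 ⟨L.2, ho⟩

theorem int_gn {g : M → ℝ} (hg : Lip g) : Integrable (gn C g) C.μ := by
  obtain ⟨L, hL⟩ := hg
  have := C.fin
  refine (integrable_const (L : ℝ)).mono' (aem_gn C ⟨L, hL⟩).aestronglyMeasurable ?_
  filter_upwards [gn_bd C hL] with o ho
  rwa [Real.norm_of_nonneg (gn_nonneg C g o)]

theorem int_gpp {g : M → ℝ} (hg : Lip g) : Integrable (gpp C g) C.μ := by
  refine (int_gn C hg).mono' (aem_gpp C hg).aestronglyMeasurable (Eventually.of_forall fun o => ?_)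
  rw [Real.norm_of_nonneg (gpp_nonneg C g o)]
  exact gpp_le C g o

theorem int_gn_sq {g : M → ℝ} (hg : Lip g) : Integrable (fun o => gn C g o ^ 2) C.μ := by
  obtain ⟨L, hL⟩ := hg
  have := C.fin
  refine (integrable_const ((L : ℝ) ^ 2)).mono' ((aem_gn C ⟨L, hL⟩).pow_const 2).aestronglyMeasurable ?_
  filter_upwards [gn_bd C hL] with o ho
  rw [Real.norm_of_nonneg (sq_nonneg _)]
  exact pow_le_pow_left₀ (gn_nonneg C g o) ho 2

theorem int_gpp_sq {g : M → ℝ} (hg : Lip g) : Integrable (fun o => gpp C g o ^ 2) C.μ := by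
  refine (int_gn_sq C hg).mono' ((aem_gpp C hg).pow_const 2).aestronglyMeasurable
    (Eventually.of_forall fun o => ?_)
  rw [Real.norm_of_nonneg (sq_nonneg _)]
  exact pow_le_pow_left₀ (gpp_nonneg C g o) (gpp_le C g o) 2

/-- `a(t)` -/
theorem upp_set {g : M → ℝ} {t : ℝ} (ht : 0 < t) : {o | t ≤ upp C g o} = {o | t ≤ g (C.pt o)} := by
  ext o
  simp only [mem_ofPred_eq, upp, le_max_iff]
  constructor
  · rintro (h | h)
    · exact h
    · linarith
  · exact Or.inl

theorem upp_area {g : M → ℝ} {t : ℝ} (ht : 0 < t) :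
    (C.μ {o | t ≤ upp C g o}).toReal = sup' C g t := by rw [upp_set C ht, sup']

/-- the level function of the positive part -/
theorem lev_upp {g : M → ℝ} (hg : Lip g) {t : ℝ} (ht : 0 < t) :
    ∫ o in {o | upp C g o < t}, gpp C g o ∂C.μ =
      lev C g t - ∫ o in {o | g (C.pt o) ≤ 0}, gn C g o ∂C.μ := by
  have hm : AEMeasurable (fun o => g (C.pt o)) C.μ := aem_pt C hg
  have e : {o | upp C g o < t} = {o | g (C.pt o) < t} := by
    ext o
    simp only [mem_ofPred_eq, upp, max_lt_iff]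
    exact ⟨fun h => h.1, fun h => ⟨h, ht⟩⟩
  have h1 : NullMeasurableSet {o | g (C.pt o) < t} C.μ := nullMeasurableSet_lt hm aemeasurable_const
  have h0 : NullMeasurableSet {o | g (C.pt o) ≤ 0} C.μ := nullMeasurableSet_le hm aemeasurable_const
  have hp : NullMeasurableSet {o | 0 < g (C.pt o)} C.μ := nullMeasurableSet_lt aemeasurable_const hm
  rw [e]
  have hs : {o | g (C.pt o) < t} = {o | g (C.pt o) ≤ 0} ∪ {o | 0 < g (C.pt o) ∧ g (C.pt o) < t} := by
    ext o
    simp only [mem_ofPred_eq, mem_union]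
    constructor
    · intro h
      rcases le_or_gt (g (C.pt o)) 0 with h' | h'
      · exact Or.inl h'
      · exact Or.inr ⟨h', h⟩
    · rintro (h | h)
      · linarith
      · exact h.2
  have hd : Disjoint {o | g (C.pt o) ≤ 0} {o | 0 < g (C.pt o) ∧ g (C.pt o) < t} := by
    rw [Set.disjoint_left]
    intro o h h'
    simp only [mem_ofPred_eq] at h h'
    linarith [h'.1]
  have h2 : NullMeasurableSet {o | 0 < g (C.pt o) ∧ g (C.pt o) < t} C.μ := hp.inter h1
  have i1 := int_gpp C hg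
  have i2 := int_gn C hg
  rw [lev, hs, setIntegral_union₀ hd.aedisjoint h2 i1.integrableOn i1.integrableOn,
    setIntegral_union₀ hd.aedisjoint h2 i2.integrableOn i2.integrableOn]
  have e1 : ∫ o in {o | g (C.pt o) ≤ 0}, gpp C g o ∂C.μ = 0 := by
    rw [setIntegral_congr_fun₀ h0 (g := fun _ => (0 : ℝ))]
    · simp
    · intro o ho
      simp only [mem_ofPred_eq] at ho
      simp [gpp, not_lt.2 ho]
  have e2 : ∫ o in {o | 0 < g (C.pt o) ∧ g (C.pt o) < t}, gpp C g o ∂C.μ =
      ∫ o in {o | 0 < g (C.pt o) ∧ g (C.pt o) < t}, gn C g o ∂C.μ := by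
    refine setIntegral_congr_fun₀ h2 ?_
    intro o ho
    simp only [mem_ofPred_eq] at ho
    simp [gpp, ho.1]
  rw [e1, e2]
  ring

theorem deriv_lev_upp {g : M → ℝ} (hg : Lip g) {t : ℝ} (ht : 0 < t) :
    deriv (fun s => ∫ o in {o | upp C g o < s}, gpp C g o ∂C.μ) t = deriv (lev C g) t := by
  have h : (fun s => ∫ o in {o | upp C g o < s}, gpp C g o ∂C.μ) =ᶠ[𝓝 t]
      fun s => lev C g s - ∫ o in {o | g (C.pt o) ≤ 0}, gn C g o ∂C.μ := by
    filter_upwards [lt_mem_nhds ht] with s hs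
    exact lev_upp C hg hs
  rw [h.deriv_eq, deriv_sub_const]

/-- the hypothesis (iso) of the level set lemma -/
theorem iso_upp {κ ε c : ℝ} (hI : Isop C κ ε) {g : M → ℝ} (hg : Lip g) (he : EvenB γ g)
    (hc : 0 ≤ c) {p q : ℝ → ℝ} (hq : ∀ a, 0 ≤ a → a ≤ C.vol → 0 ≤ q a)
    (hpq : ∀ a, 0 ≤ a → a ≤ C.vol →
      p a = 0 ∨ p a ^ 2 ≤ c * (κ * (min a (C.vol - a) - ε)) * q a) :
    ∀ᵐ t : ℝ, 0 < t → p (C.μ {o | t ≤ upp C g o}).toReal ^ 2 ≤
      c * deriv (fun s => ∫ o in {o | upp C g o < s}, gpp C g o ∂C.μ) t ^ 2 *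
        q (C.μ {o | t ≤ upp C g o}).toReal := by
  have := C.fin
  filter_upwards [hI g hg he] with t ht h0
  rw [upp_area C h0, deriv_lev_upp C hg h0]
  have ha : 0 ≤ sup' C g t := ENNReal.toReal_nonneg
  have hb : sup' C g t ≤ C.vol := by
    rw [sup', Calc.vol]
    exact ENNReal.toReal_mono (measure_ne_top _ _) (measure_mono (subset_univ _))
  rcases hpq _ ha hb with h | h
  · rw [h]
    have h1 := hq _ ha hb
    simp only [ne_eq, OfNat.ofNat_ne_zero, not_false_eq_true, zero_pow]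
    positivity
  · refine h.trans ?_
    have := hq _ ha hb
    gcongr
    exact ht.2

theorem gn_neg (g : M → ℝ) (o : Om) : gn C (fun x => -g x) o = gn C g o := by
  simp only [gn, Calc.gx, Calc.gy]
  rw [deriv.fun_neg, deriv.fun_neg, neg_sq, neg_sq]

theorem lip_neg {g : M → ℝ} (hg : Lip g) : Lip fun x => -g x := by
  obtain ⟨L, hL⟩ := hg
  exact ⟨L, hL.neg⟩

omit [MetricSpace M] in
theorem even_neg {g : M → ℝ} (he : EvenB γ g) : EvenB γ fun x => -g x := fun t => by
  simp only [he t]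

/-- `|∇g_+|² + |∇g_-|² ≤ |∇g|²` -/
theorem gpp_add (g : M → ℝ) (o : Om) :
    gpp C g o ^ 2 + gpp C (fun x => -g x) o ^ 2 ≤ gn C g o ^ 2 := by
  simp only [gpp, gn_neg]
  have h := sq_nonneg (gn C g o)
  split_ifs with h1 h2 h2
  · linarith
  · linarith
  · linarith
  · linarith

/-- `g_+² + g_-² = g²` -/
theorem upp_add (g : M → ℝ) (o : Om) :
    upp C g o ^ 2 + upp C (fun x => -g x) o ^ 2 = g (C.pt o) ^ 2 := by
  simp only [upp]
  rcases le_total (g (C.pt o)) 0 with h | h
  · rw [max_eq_right h, max_eq_left (by linarith)]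
    ring
  · rw [max_eq_left h, max_eq_right (by linarith)]
    ring

end Pool.Agent.FPX
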