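import Mathlib
import Pool.Agent.FPX.Defs
import Pool.Agent.EWD.RTB

/-
FPX, averages over the unit sphere with the measure PP (helper30). Radial Gaussian weights turn them
into integrals over the whole space, which factorise.
-/

open MeasureTheory Set Filter Topology
open scoped ENNReal NNReal

noncomputable section

namespace Pool.Agent.FPX

open Pool.Agent.EWD

/-! ### radial integrals -/

private theorem sph_J (k : ℕ) :
    IntegrableOn (fun r : ℝ => r ^ k * Real.exp (-r ^ 2)) (Ioi 0) ∧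
    ∫ r in Ioi (0 : ℝ), r ^ k * Real.exp (-r ^ 2) = Real.Gamma (((k : ℝ) + 1) / 2) / 2 := by
  have hk : (-1 : ℝ) < (k : ℝ) := by
    have : (0 : ℝ) ≤ (k : ℝ) := Nat.cast_nonneg k
    linarith
  constructor
  · have h := integrableOn_rpow_mul_exp_neg_rpow (p := 2) (s := (k : ℝ)) hk two_pos
    refine h.congr_fun (fun x _ => ?_) measurableSet_Ioi
    simp
  · have h := integral_rpow_mul_exp_neg_rpow (p := 2) (q := (k : ℝ)) two_pos hk
    have h2 : ∫ r in Ioi (0 : ℝ), r ^ k * Real.exp (-r ^ 2) =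
        ∫ x in Ioi (0 : ℝ), x ^ (k : ℝ) * Real.exp (-x ^ (2 : ℝ)) :=
      setIntegral_congr_fun measurableSet_Ioi (fun x _ => by simp)
    rw [h2, h]
    ring

private theorem sph_Jl (k : ℕ) :
    ∫⁻ r in Ioi (0 : ℝ), ENNReal.ofReal (r ^ k * Real.exp (-r ^ 2)) =
      ENNReal.ofReal (Real.Gamma (((k : ℝ) + 1) / 2) / 2) := by
  rw [← (sph_J k).2, ofReal_integral_eq_lintegral_ofReal (sph_J k).1]
  filter_upwards [ae_restrict_mem measurableSet_Ioi] with r hr
  have : (0 : ℝ) < r := hr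
  simp only [Pi.zero_apply]
  positivity

/-! ### polar coordinates -/

private theorem sph_fin : Module.finrank ℝ E3 = 3 := by simp

private theorem lint_toSphere (F : E3 → ℝ≥0∞) (hF : Measurable F) :
    ∫⁻ s : Metric.sphere (0 : E3) 1, F s ∂(volume : Measure E3).toSphere =
      ENNReal.ofReal (4 * Real.pi) * ∫⁻ p, F p ∂PP := by
  unfold PP
  rw [lintegral_smul_measure, lintegral_map hF measurable_subtype_coe, smul_eq_mul, ← mul_assoc,
    ← ENNReal.ofReal_mul (by positivity)]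
  have : 4 * Real.pi * (1 / (4 * Real.pi)) = 1 := by
    field_simp
  rw [this, ENNReal.ofReal_one, one_mul]

/-- integration in polar coordinates -/
theorem lint_polar (F : E3 → ℝ≥0∞) (hF : Measurable F) (g : ℝ → ℝ≥0∞) (hg : Measurable g) :
    ∫⁻ y : E3, F ((‖y‖⁻¹ : ℝ) • y) * g ‖y‖ =
      ENNReal.ofReal (4 * Real.pi) * (∫⁻ p, F p ∂PP) *
        ∫⁻ r in Ioi (0 : ℝ), ENNReal.ofReal (r ^ 2) * g r := by
  have hmp := (volume : Measure E3).measurePreserving_homeomorphUnitSphereProd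
  rw [← restrict_compl_singleton (μ := (volume : Measure E3)) 0,
    ← lintegral_subtype_comap (measurableSet_singleton _).compl
      (fun y : E3 => F ((‖y‖⁻¹ : ℝ) • y) * g ‖y‖)]
  have h1 : ∀ x : ({(0 : E3)}ᶜ : Set E3), F ((‖(x : E3)‖⁻¹ : ℝ) • (x : E3)) * g ‖(x : E3)‖ =
      (fun z : Metric.sphere (0 : E3) 1 × Ioi (0 : ℝ) => F z.1 * g z.2)
        (homeomorphUnitSphereProd E3 x) := by
    intro x
    simp [homeomorphUnitSphereProd]
  rw [lintegral_congr h1, hmp.lintegral_comp (f := fun z : Metric.sphere (0 : E3) 1 × Ioi (0 : ℝ) =>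
    F z.1 * g z.2) (by fun_prop)]
  rw [lintegral_prod_mul (f := fun z : Metric.sphere (0 : E3) 1 => F z)
    (g := fun z : Ioi (0 : ℝ) => g z) (by fun_prop) (by fun_prop), lint_toSphere F hF]
  congr 1
  rw [Measure.volumeIoiPow, lintegral_withDensity_eq_lintegral_mul _ (by fun_prop) (by fun_prop)]
  have h2 := lintegral_subtype_comap (μ := (volume : Measure ℝ)) measurableSet_Ioi
    (fun r : ℝ => ENNReal.ofReal (r ^ (Module.finrank ℝ E3 - 1)) * g r) (s := Ioi (0 : ℝ))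
  rw [sph_fin] at h2 ⊢
  exact h2


instance : IsProbabilityMeasure PP := by
  constructor
  have h := lint_toSphere (fun _ => 1) measurable_const
  rw [lintegral_one, lintegral_one, Measure.toSphere_apply_univ, sph_fin,
    EuclideanSpace.volume_ball_fin_three, ENNReal.ofReal_one, one_pow, one_mul] at h
  have h3 : ((3 : ℕ) : ℝ≥0∞) * ENNReal.ofReal (Real.pi * 4 / 3) = ENNReal.ofReal (4 * Real.pi) := by
    rw [← ENNReal.ofReal_natCast, ← ENNReal.ofReal_mul (by positivity)]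
    congr 1
    push_cast
    ring
  rw [h3] at h
  have hpos : ENNReal.ofReal (4 * Real.pi) ≠ 0 := by
    simp [Real.pi_pos]
  have hfin : ENNReal.ofReal (4 * Real.pi) ≠ ⊤ := ENNReal.ofReal_ne_top
  have h4 : ENNReal.ofReal (4 * Real.pi) * PP univ = ENNReal.ofReal (4 * Real.pi) * 1 := by
    rw [← h, mul_one]
  exact (ENNReal.mul_right_inj hpos hfin).1 h4

theorem ae_norm : ∀ᵐ p ∂PP, ‖p‖ = 1 := by
  unfold PP
  refine Measure.ae_smul_measure ?_ _
  refine (ae_map_iff measurable_subtype_coe.aemeasurable ?_).2 ?_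
  · exact measurableSet_eq_fun measurable_norm measurable_const
  · exact Eventually.of_forall fun s => by simp

/-- transfer from Lebesgue measure -/
theorem ae_PP {P : E3 → Prop} (h : ∀ᵐ y : E3, P ((‖y‖⁻¹ : ℝ) • y)) : ∀ᵐ p ∂PP, P p := by
  have hmp := (volume : Measure E3).measurePreserving_homeomorphUnitSphereProd
  set N : Set (Metric.sphere (0 : E3) 1) := {s | ¬ P s} with hN
  have h0 : (volume : Measure E3).toSphere N = 0 := by
    have h1 := hmp.measure_preimage_emb (homeomorphUnitSphereProd E3).measurableEmbedding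
      (N ×ˢ (univ : Set (Ioi (0 : ℝ))))
    rw [comap_subtype_coe_apply (measurableSet_singleton _).compl, Measure.prod_prod] at h1
    have h2 : (volume : Measure E3) (Subtype.val '' ((homeomorphUnitSphereProd E3) ⁻¹'
        (N ×ˢ (univ : Set (Ioi (0 : ℝ)))))) = 0 := by
      refine measure_mono_null ?_ (ae_iff.1 h)
      rintro _ ⟨x, hx, rfl⟩
      have := hx.1
      simpa [hN, homeomorphUnitSphereProd] using this
    rw [h2] at h1
    rcases mul_eq_zero.1 h1.symm with h3 | h3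
    · exact h3
    · exfalso
      have h4 := Measure.volumeIoiPow_apply_Iio (Module.finrank ℝ E3 - 1) ⟨1, mem_Ioi.2 one_pos⟩
      have h5 := measure_mono_null (subset_univ (Iio (⟨1, mem_Ioi.2 one_pos⟩ : Ioi (0 : ℝ)))) h3
      rw [h5, sph_fin] at h4
      norm_num at h4
  unfold PP
  refine Measure.ae_smul_measure ?_ _
  rw [ae_iff, (MeasurableEmbedding.subtype_coe Metric.isClosed_sphere.measurableSet).map_apply]
  exact h0

/-- rotation invariance -/
theorem mp_rot (R : E3 ≃ₗᵢ[ℝ] E3) : MeasurePreserving R PP PP := by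
  have hR : Measurable R := R.continuous.measurable
  refine ⟨hR, ?_⟩
  ext A hA
  rw [Measure.map_apply hR hA]
  have key : ∀ B : Set E3, MeasurableSet B → ∫⁻ y : E3, B.indicator 1 ((‖y‖⁻¹ : ℝ) • y) *
      ENNReal.ofReal (Real.exp (-‖y‖ ^ 2)) = ENNReal.ofReal (4 * Real.pi) * PP B *
        ENNReal.ofReal (Real.Gamma (((2 : ℕ) + 1) / 2) / 2) := by
    intro B hB
    rw [lint_polar (B.indicator 1) (measurable_one.indicator hB)
      (fun r => ENNReal.ofReal (Real.exp (-r ^ 2))) (by fun_prop), lintegral_indicator_one hB]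
    congr 1
    rw [← sph_Jl 2]
    refine setLIntegral_congr_fun measurableSet_Ioi fun r hr => ?_
    rw [← ENNReal.ofReal_mul (by positivity)]
  have h1 := key A hA
  have h2 := key (R ⁻¹' A) (hR hA)
  have h3 : ∫⁻ y : E3, (R ⁻¹' A).indicator 1 ((‖y‖⁻¹ : ℝ) • y) *
      ENNReal.ofReal (Real.exp (-‖y‖ ^ 2)) = ∫⁻ y : E3, A.indicator 1 ((‖y‖⁻¹ : ℝ) • y) *
      ENNReal.ofReal (Real.exp (-‖y‖ ^ 2)) := by
    rw [← R.measurePreserving.lintegral_comp_emb R.toHomeomorph.measurableEmbedding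
      (fun y => A.indicator 1 ((‖y‖⁻¹ : ℝ) • y) * ENNReal.ofReal (Real.exp (-‖y‖ ^ 2)))]
    refine lintegral_congr fun y => ?_
    have e : (R ⁻¹' A).indicator (1 : E3 → ℝ≥0∞) ((‖y‖⁻¹ : ℝ) • y) =
        A.indicator (1 : E3 → ℝ≥0∞) ((‖R y‖⁻¹ : ℝ) • R y) := by
      rw [R.norm_map, ← R.map_smul]
      rfl
    rw [e, R.norm_map]
  rw [h1, h2] at h3
  have g0 : 0 < Real.Gamma (((2 : ℕ) + 1 : ℝ) / 2) / 2 := by
    have := Real.Gamma_pos_of_pos (show (0 : ℝ) < ((2 : ℕ) + 1) / 2 by norm_num)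
    positivity
  have h4 := (ENNReal.mul_left_inj (by simpa using g0) ENNReal.ofReal_ne_top).1 h3
  exact (ENNReal.mul_right_inj (by simp [Real.pi_pos]) ENNReal.ofReal_ne_top).1 h4


/-! ### moments of the distance to the third axis -/

/-- the value of the radial integral -/
private def Jv (k : ℕ) : ℝ := Real.Gamma (((k : ℝ) + 1) / 2) / 2

private theorem Jv_pos (k : ℕ) : 0 < Jv k := by
  unfold Jv
  have := Real.Gamma_pos_of_pos (show (0 : ℝ) < ((k : ℝ) + 1) / 2 by positivity)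
  positivity

private theorem sph_gauss : ∫⁻ t : ℝ, ENNReal.ofReal (Real.exp (-t ^ 2)) =
    ENNReal.ofReal (√Real.pi) := by
  have h1 : ∀ t : ℝ, Real.exp (-t ^ 2) = Real.exp (-1 * t ^ 2) := by
    intro t
    rw [neg_one_mul]
  simp_rw [h1]
  rw [← ofReal_integral_eq_lintegral_ofReal (integrable_exp_neg_mul_sq one_pos)
    (Eventually.of_forall fun t => (Real.exp_pos _).le), integral_gaussian, div_one]

private theorem sph_plane (m : ℕ) : ∫⁻ p : ℝ × ℝ, ENNReal.ofReal (√(p.1 ^ 2 + p.2 ^ 2) ^ m /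
    √(p.1 ^ 2 + p.2 ^ 2) * Real.exp (-(p.1 ^ 2 + p.2 ^ 2))) =
    ENNReal.ofReal (2 * Real.pi * Jv m) := by
  rw [← lintegral_comp_polarCoord_symm]
  have h1 : ∀ p ∈ polarCoord.target, ENNReal.ofReal p.1 • ENNReal.ofReal
      (√((polarCoord.symm p).1 ^ 2 + (polarCoord.symm p).2 ^ 2) ^ m /
        √((polarCoord.symm p).1 ^ 2 + (polarCoord.symm p).2 ^ 2) *
        Real.exp (-((polarCoord.symm p).1 ^ 2 + (polarCoord.symm p).2 ^ 2))) =
      ENNReal.ofReal (p.1 ^ m * Real.exp (-p.1 ^ 2)) * 1 := by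
    intro p hp
    rw [polarCoord_target] at hp
    have hr : 0 < p.1 := hp.1
    have e1 : (polarCoord.symm p).1 ^ 2 + (polarCoord.symm p).2 ^ 2 = p.1 ^ 2 := by
      rw [polarCoord_symm_apply]
      simp only
      rw [mul_pow, mul_pow, ← mul_add, Real.cos_sq_add_sin_sq, mul_one]
    rw [e1, Real.sqrt_sq hr.le, smul_eq_mul, ← ENNReal.ofReal_mul hr.le, mul_one]
    congr 1
    field_simp
  rw [setLIntegral_congr_fun polarCoord.open_target.measurableSet h1, polarCoord_target]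
  rw [Measure.volume_eq_prod, ← Measure.prod_restrict]
  rw [lintegral_prod_mul (f := fun r : ℝ => ENNReal.ofReal (r ^ m * Real.exp (-r ^ 2)))
    (g := fun _ : ℝ => (1 : ℝ≥0∞)) (by fun_prop) (by fun_prop)]
  have h2 : ∫⁻ r in Ioi (0 : ℝ), ENNReal.ofReal (r ^ m * Real.exp (-r ^ 2)) =
      ENNReal.ofReal (Jv m) := sph_Jl m
  rw [h2, lintegral_one, Measure.restrict_apply_univ, Real.volume_Ioo,
    ← ENNReal.ofReal_mul (Jv_pos m).le]
  congr 1
  ring

private theorem sph_mp : MeasurePreserving (fun y : E3 => (y 2, ((y 0 : ℝ), (y 1 : ℝ))))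
    (volume : Measure E3) (volume : Measure (ℝ × (ℝ × ℝ))) := by
  have h1 : MeasurePreserving (fun y : E3 => y.ofLp) volume volume :=
    PiLp.volume_preserving_ofLp (Fin 3)
  have h2 := volume_preserving_piFinSuccAbove (fun _ : Fin 3 => ℝ) 2
  have h3 := (MeasurePreserving.id (volume : Measure ℝ)).prod
    (volume_preserving_finTwoArrow ℝ)
  have h4 := h3.comp (h2.comp h1)
  exact h4

/-- `(s^m / s)` for the distance `s` to the third axis -/
private def fm (m : ℕ) (p : E3) : ℝ := √(1 - p 2 ^ 2) ^ m / √(1 - p 2 ^ 2)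

private theorem fm_nonneg (m : ℕ) (p : E3) : 0 ≤ fm m p := by
  unfold fm
  positivity

private theorem fm_meas (m : ℕ) : Measurable (fm m) := by
  unfold fm
  fun_prop

private theorem sph_mom (m : ℕ) : ∫⁻ p, ENNReal.ofReal (fm m p) ∂PP =
    ENNReal.ofReal (√Real.pi * Jv m / (2 * Jv (m + 1))) := by
  have h := lint_polar (fun p => ENNReal.ofReal (fm m p)) (by
    exact (fm_meas m).ennreal_ofReal) (fun r => ENNReal.ofReal (r ^ m / r * Real.exp (-r ^ 2)))
    (by fun_prop)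
  have h1 : ∀ y : E3, ENNReal.ofReal (fm m ((‖y‖⁻¹ : ℝ) • y)) *
      ENNReal.ofReal (‖y‖ ^ m / ‖y‖ * Real.exp (-‖y‖ ^ 2)) =
      (fun z : ℝ × (ℝ × ℝ) => ENNReal.ofReal (Real.exp (-z.1 ^ 2)) *
        ENNReal.ofReal (√(z.2.1 ^ 2 + z.2.2 ^ 2) ^ m / √(z.2.1 ^ 2 + z.2.2 ^ 2) *
          Real.exp (-(z.2.1 ^ 2 + z.2.2 ^ 2)))) (y 2, (y 0, y 1)) := by
    intro y
    simp only
    have hn : ‖y‖ ^ 2 = y 2 ^ 2 + (y 0 ^ 2 + y 1 ^ 2) := by
      rw [EuclideanSpace.real_norm_sq_eq, Fin.sum_univ_three]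
      ring
    rw [← ENNReal.ofReal_mul (fm_nonneg _ _), ← ENNReal.ofReal_mul (Real.exp_pos _).le]
    congr 1
    rcases eq_or_ne y 0 with hy | hy
    · subst hy
      simp
    · have hpos : 0 < ‖y‖ := norm_pos_iff.2 hy
      have e1 : 1 - ((‖y‖⁻¹ : ℝ) • y) 2 ^ 2 = (y 0 ^ 2 + y 1 ^ 2) / ‖y‖ ^ 2 := by
        have : ((‖y‖⁻¹ : ℝ) • y) 2 = ‖y‖⁻¹ * y 2 := rfl
        rw [this, mul_pow, eq_div_iff (by positivity), sub_mul, inv_pow]
        have h3 : (‖y‖ ^ 2)⁻¹ * y 2 ^ 2 * ‖y‖ ^ 2 = y 2 ^ 2 := by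
          field_simp
        rw [h3]
        linarith
      unfold fm
      rw [e1, Real.sqrt_div (by positivity), Real.sqrt_sq hpos.le, div_pow, hn, neg_add,
        Real.exp_add]
      have h5 : ‖y‖ ≠ 0 := hpos.ne'
      rcases eq_or_ne (√(y 0 ^ 2 + y 1 ^ 2)) 0 with h6 | h6
      · rw [h6]
        simp
      · field_simp
  have h2 := sph_mp.lintegral_comp (f := fun z : ℝ × (ℝ × ℝ) =>
    ENNReal.ofReal (Real.exp (-z.1 ^ 2)) *
      ENNReal.ofReal (√(z.2.1 ^ 2 + z.2.2 ^ 2) ^ m / √(z.2.1 ^ 2 + z.2.2 ^ 2) *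
          Real.exp (-(z.2.1 ^ 2 + z.2.2 ^ 2)))) (by fun_prop)
  rw [lintegral_congr h1, h2, Measure.volume_eq_prod,
    lintegral_prod_mul (f := fun z : ℝ => ENNReal.ofReal (Real.exp (-z ^ 2)))
      (g := fun z : ℝ × ℝ => ENNReal.ofReal (√(z.1 ^ 2 + z.2 ^ 2) ^ m / √(z.1 ^ 2 + z.2 ^ 2) *
          Real.exp (-(z.1 ^ 2 + z.2 ^ 2)))) (by fun_prop) (by fun_prop), sph_gauss, sph_plane] at h
  have h3 : ∫⁻ r in Ioi (0 : ℝ), ENNReal.ofReal (r ^ 2) *
      ENNReal.ofReal (r ^ m / r * Real.exp (-r ^ 2)) = ENNReal.ofReal (Jv (m + 1)) := by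
    rw [show Jv (m + 1) = Real.Gamma ((((m + 1 : ℕ) : ℝ) + 1) / 2) / 2 from rfl, ← sph_Jl (m + 1)]
    refine setLIntegral_congr_fun measurableSet_Ioi fun r hr => ?_
    have hr0 : (0 : ℝ) < r := hr
    rw [← ENNReal.ofReal_mul (by positivity)]
    congr 1
    field_simp
    ring
  rw [h3, ← ENNReal.ofReal_mul (by positivity)] at h
  have hJ := Jv_pos (m + 1)
  have hm := Jv_pos m
  have hp := Real.pi_pos
  set I := ∫⁻ p, ENNReal.ofReal (fm m p) ∂PP with hI
  have h4 : ENNReal.ofReal (4 * Real.pi * Jv (m + 1)) * I =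
      ENNReal.ofReal (4 * Real.pi * Jv (m + 1)) *
        ENNReal.ofReal (√Real.pi * Jv m / (2 * Jv (m + 1))) := by
    rw [← ENNReal.ofReal_mul (by positivity), ENNReal.ofReal_mul (by positivity)]
    rw [mul_assoc, mul_comm (ENNReal.ofReal (Jv (m + 1))) I, ← mul_assoc, ← h]
    congr 1
    field_simp
    ring
  exact (ENNReal.mul_right_inj (by
    rw [Ne, ENNReal.ofReal_eq_zero, not_le]; positivity) ENNReal.ofReal_ne_top).1 h4


private theorem fm_int (m : ℕ) : Integrable (fm m) PP ∧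
    ∫ p, fm m p ∂PP = √Real.pi * Jv m / (2 * Jv (m + 1)) := by
  have hJ := Jv_pos (m + 1)
  have hm := Jv_pos m
  have h0 : 0 ≤ √Real.pi * Jv m / (2 * Jv (m + 1)) := by positivity
  have h1 : Integrable (fm m) PP := by
    refine ⟨(fm_meas m).aestronglyMeasurable, ?_⟩
    rw [hasFiniteIntegral_iff_ofReal (Eventually.of_forall fun p => fm_nonneg m p), sph_mom]
    exact ENNReal.ofReal_lt_top
  refine ⟨h1, ?_⟩
  rw [integral_eq_lintegral_of_nonneg_ae (Eventually.of_forall fun p => fm_nonneg m p)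
    h1.aestronglyMeasurable, sph_mom, ENNReal.toReal_ofReal h0]

private theorem g12 : Real.Gamma (1 / 2) = √Real.pi := Real.Gamma_one_half_eq

private theorem g32 : Real.Gamma (3 / 2) = √Real.pi / 2 := by
  rw [show (3 / 2 : ℝ) = 1 / 2 + 1 by norm_num, Real.Gamma_add_one (by norm_num), g12]
  ring

private theorem g52 : Real.Gamma (5 / 2) = 3 * √Real.pi / 4 := by
  rw [show (5 / 2 : ℝ) = 3 / 2 + 1 by norm_num, Real.Gamma_add_one (by norm_num), g32]
  ring

private theorem m0 : ∫ p, fm 0 p ∂PP = Real.pi / 2 := by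
  rw [(fm_int 0).2]
  unfold Jv
  have h1 : (((0 : ℕ) : ℝ) + 1) / 2 = 1 / 2 := by norm_num
  have h2 : (((0 + 1 : ℕ) : ℝ) + 1) / 2 = 1 := by norm_num
  rw [h1, h2, g12, Real.Gamma_one]
  have := Real.mul_self_sqrt Real.pi_pos.le
  linear_combination this / 2

private theorem m2 : ∫ p, fm 2 p ∂PP = Real.pi / 4 := by
  rw [(fm_int 2).2]
  unfold Jv
  have h1 : (((2 : ℕ) : ℝ) + 1) / 2 = 3 / 2 := by norm_num
  have h2 : (((2 + 1 : ℕ) : ℝ) + 1) / 2 = 1 + 1 := by norm_num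
  rw [h1, h2, g32, Real.Gamma_add_one one_ne_zero, Real.Gamma_one]
  have := Real.mul_self_sqrt Real.pi_pos.le
  linear_combination this / 4

private theorem m4 : ∫ p, fm 4 p ∂PP = 3 * Real.pi / 16 := by
  rw [(fm_int 4).2]
  unfold Jv
  have h1 : (((4 : ℕ) : ℝ) + 1) / 2 = 5 / 2 := by norm_num
  have h2 : (((4 + 1 : ℕ) : ℝ) + 1) / 2 = 1 + 1 + 1 := by norm_num
  rw [h1, h2, g52, Real.Gamma_add_one (by norm_num), Real.Gamma_add_one one_ne_zero,
    Real.Gamma_one]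
  have := Real.mul_self_sqrt Real.pi_pos.le
  linear_combination 3 * this / 16

private theorem ae_ax : ∀ᵐ p : E3 ∂PP, 0 < 1 - p 2 ^ 2 := by
  refine ae_PP ?_
  filter_upwards [ae_axis] with y hy
  have : ((‖y‖⁻¹ : ℝ) • y) 2 = y 2 / ‖y‖ := by
    change ‖y‖⁻¹ * y 2 = y 2 / ‖y‖
    rw [div_eq_inv_mul]
  rw [this]
  exact hy

/-! ### symmetries that fix the third axis -/

/-- change of sign of one coordinate -/
private def flip (i : Fin 3) : E3 ≃ₗᵢ[ℝ] E3 :=
  LinearIsometryEquiv.piLpCongrRight 2 (fun j =>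
    if j = i then LinearIsometryEquiv.neg ℝ else LinearIsometryEquiv.refl ℝ ℝ)

private theorem flip_self (i : Fin 3) (p : E3) : flip i p i = - p i := by
  simp [flip]

private theorem flip_ne {i j : Fin 3} (h : j ≠ i) (p : E3) : flip i p j = p j := by
  simp [flip, h]

/-- exchange of the first two coordinates -/
private def swp : E3 ≃ₗᵢ[ℝ] E3 :=
  LinearIsometryEquiv.piLpCongrLeft 2 ℝ ℝ (Equiv.swap (0 : Fin 3) 1)

private theorem swp0 (p : E3) : swp p 0 = p 1 := by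
  simp [swp, LinearIsometryEquiv.piLpCongrLeft_apply]

private theorem swp1 (p : E3) : swp p 1 = p 0 := by
  simp [swp, LinearIsometryEquiv.piLpCongrLeft_apply]

private theorem swp2 (p : E3) : swp p 2 = p 2 := by
  have : (Equiv.swap (0 : Fin 3) 1) 2 = 2 := by decide
  simp [swp, LinearIsometryEquiv.piLpCongrLeft_apply, this]

private theorem int_rot (R : E3 ≃ₗᵢ[ℝ] E3) (f : E3 → ℝ) : ∫ p, f (R p) ∂PP = ∫ p, f p ∂PP :=
  (mp_rot R).integral_comp R.toHomeomorph.measurableEmbedding f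

private theorem int_odd (R : E3 ≃ₗᵢ[ℝ] E3) {f : E3 → ℝ} (h : ∀ p, f (R p) = - f p) :
    ∫ p, f p ∂PP = 0 := by
  have h1 := int_rot R f
  simp_rw [h] at h1
  rw [integral_neg] at h1
  linarith

private theorem sum_sq {p : E3} (hp : ‖p‖ = 1) : p 0 ^ 2 + p 1 ^ 2 + p 2 ^ 2 = 1 := by
  have h := EuclideanSpace.real_norm_sq_eq p
  rw [hp, Fin.sum_univ_three] at h
  linarith

variable {H : ℝ → ℝ}

private theorem q_int (hH : Measurable H)
    (h1 : Integrable (fun p : E3 => H (1 - p 2 ^ 2) * (1 - p 2 ^ 2)) PP) {i j : Fin 3}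
    (hi : i ≠ 2) (hj : j ≠ 2) :
    Integrable (fun p : E3 => H (1 - p 2 ^ 2) * (p i * p j)) PP := by
  refine h1.mono (by fun_prop) ?_
  filter_upwards [ae_norm] with p hp
  have h2 := sum_sq hp
  have h3 : |p i * p j| ≤ 1 - p 2 ^ 2 := by
    rw [abs_le]
    fin_cases i <;> fin_cases j <;> simp at hi hj ⊢ <;> constructor <;>
      nlinarith [sq_nonneg (p 0 + p 1), sq_nonneg (p 0 - p 1), sq_nonneg (p 0), sq_nonneg (p 1)]
  rw [Real.norm_eq_abs, Real.norm_eq_abs, abs_mul, abs_mul (H (1 - p 2 ^ 2)) (1 - p 2 ^ 2)]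
  exact mul_le_mul_of_nonneg_left (h3.trans (le_abs_self (1 - p 2 ^ 2))) (abs_nonneg _)

private theorem q_int' (hH : Measurable H)
    (h1 : Integrable (fun p : E3 => H (1 - p 2 ^ 2)) PP) (i j : Fin 3) :
    Integrable (fun p : E3 => H (1 - p 2 ^ 2) * (p i * p j)) PP := by
  refine h1.mono (by fun_prop) ?_
  filter_upwards [ae_norm] with p hp
  have h2 := sum_sq hp
  have h3 : |p i * p j| ≤ 1 := by
    rw [abs_le]
    fin_cases i <;> fin_cases j <;> simp <;> constructor <;>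
      nlinarith [sq_nonneg (p 0 + p 1), sq_nonneg (p 0 - p 1), sq_nonneg (p 0), sq_nonneg (p 1),
        sq_nonneg (p 0 + p 2), sq_nonneg (p 0 - p 2), sq_nonneg (p 1 + p 2),
        sq_nonneg (p 1 - p 2), sq_nonneg (p 2)]
  rw [norm_mul, Real.norm_eq_abs, Real.norm_eq_abs]
  exact mul_le_of_le_one_right (abs_nonneg _) h3

private theorem q01 : ∫ p : E3, H (1 - p 2 ^ 2) * (p 0 * p 1) ∂PP = 0 := by
  refine int_odd (flip 0) fun p => ?_
  rw [flip_self, flip_ne (by decide), flip_ne (by decide)]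
  ring

private theorem q02 : ∫ p : E3, H (1 - p 2 ^ 2) * (p 0 * p 2) ∂PP = 0 := by
  refine int_odd (flip 0) fun p => ?_
  rw [flip_self, flip_ne (by decide)]
  ring

private theorem q12 : ∫ p : E3, H (1 - p 2 ^ 2) * (p 1 * p 2) ∂PP = 0 := by
  refine int_odd (flip 1) fun p => ?_
  rw [flip_self, flip_ne (by decide)]
  ring

private theorem q0011 (hH : Measurable H)
    (h1 : Integrable (fun p : E3 => H (1 - p 2 ^ 2) * (1 - p 2 ^ 2)) PP) :
    ∫ p : E3, H (1 - p 2 ^ 2) * (p 0 * p 0) ∂PP =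
      (1 / 2) * ∫ p : E3, H (1 - p 2 ^ 2) * (1 - p 2 ^ 2) ∂PP ∧
    ∫ p : E3, H (1 - p 2 ^ 2) * (p 1 * p 1) ∂PP =
      (1 / 2) * ∫ p : E3, H (1 - p 2 ^ 2) * (1 - p 2 ^ 2) ∂PP := by
  have e := int_rot swp (fun p : E3 => H (1 - p 2 ^ 2) * (p 0 * p 0))
  simp only [swp0, swp2] at e
  have s : ∫ p : E3, H (1 - p 2 ^ 2) * (p 0 * p 0) ∂PP +
      ∫ p : E3, H (1 - p 2 ^ 2) * (p 1 * p 1) ∂PP =
      ∫ p : E3, H (1 - p 2 ^ 2) * (1 - p 2 ^ 2) ∂PP := by
    rw [← integral_add (q_int hH h1 (by decide) (by decide)) (q_int hH h1 (by decide) (by decide))]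
    refine integral_congr_ae ?_
    filter_upwards [ae_norm] with p hp
    have h2 := sum_sq hp
    rw [← h2]
    ring
  constructor <;> linarith

private theorem q22
    (h0 : Integrable (fun p : E3 => H (1 - p 2 ^ 2)) PP)
    (h1 : Integrable (fun p : E3 => H (1 - p 2 ^ 2) * (1 - p 2 ^ 2)) PP) :
    ∫ p : E3, H (1 - p 2 ^ 2) * (p 2 * p 2) ∂PP =
      ∫ p : E3, H (1 - p 2 ^ 2) ∂PP - ∫ p : E3, H (1 - p 2 ^ 2) * (1 - p 2 ^ 2) ∂PP := by
  rw [← integral_sub h0 h1]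
  refine integral_congr_ae (Eventually.of_forall fun p => ?_)
  simp only
  ring


/-- a rotation that moves the unit vector `v` to the third axis -/
private theorem rot_ax {v : E3} (hv : ‖v‖ = 1) :
    ∃ R : E3 ≃ₗᵢ[ℝ] E3, ∀ p, inner ℝ v p = (R p) 2 := by
  set w : E3 := EuclideanSpace.single 2 1 with hw
  have hnw : ‖v‖ = ‖w‖ := by
    simp [hw, hv]
  have hR : (ℝ ∙ (v - w))ᗮ.reflection v = w := Submodule.reflection_sub hnw
  refine ⟨(ℝ ∙ (v - w))ᗮ.reflection, fun p => ?_⟩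
  rw [← ((ℝ ∙ (v - w))ᗮ.reflection).inner_map_map v p, hR, hw]
  simp [EuclideanSpace.inner_single_left]

private theorem inner3 (a b : E3) : inner ℝ a b = (a 0 * b 0 + a 1 * b 1 + a 2 * b 2 : ℝ) := by
  simp [PiLp.inner_apply, Fin.sum_univ_three]
  ring

private theorem int_comp (R : E3 ≃ₗᵢ[ℝ] E3) {f : E3 → ℝ} (hf : Integrable f PP) :
    Integrable (fun p => f (R p)) PP :=
  ((mp_rot R).integrable_comp_emb R.toHomeomorph.measurableEmbedding).2 hf

private theorem fin_step (R : E3 ≃ₗᵢ[ℝ] E3) {f G : E3 → ℝ} {b c : ℝ}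
    (h : Integrable G PP ∧ ∫ p, G p ∂PP = b) (e : ∀ p, f p = G (R p)) (hb : b = c) :
    Integrable f PP ∧ ∫ p, f p ∂PP = c := by
  have e' : f = fun p => G (R p) := funext e
  rw [e', ← hb]
  exact ⟨int_comp R h.1, (int_rot R G).trans h.2⟩

private theorem lbase (c : ℝ) {g : E3 → ℝ} {B : ℝ} (hg : Integrable g PP)
    (hB : ∫ p, g p ∂PP = B) :
    Integrable (fun p => c * g p) PP ∧ ∫ p, c * g p ∂PP = c * B := by
  rw [← hB, integral_const_mul]
  exact ⟨hg.const_mul c, rfl⟩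

private theorem ladd (c : ℝ) {F g : E3 → ℝ} {A B : ℝ}
    (h : Integrable F PP ∧ ∫ p, F p ∂PP = A) (hg : Integrable g PP) (hB : ∫ p, g p ∂PP = B) :
    Integrable (fun p => F p + c * g p) PP ∧ ∫ p, (F p + c * g p) ∂PP = A + c * B := by
  rw [← hB, ← h.2, ← integral_const_mul, ← integral_add h.1 (hg.const_mul c)]
  exact ⟨h.1.add (hg.const_mul c), rfl⟩

theorem ae_sq2 (v : E3) (hv : ‖v‖ = 1) : ∀ᵐ p ∂PP, 0 < sq2 v p := by
  obtain ⟨R, hR⟩ := rot_ax hv
  have h := (mp_rot R).quasiMeasurePreserving.ae ae_ax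
  filter_upwards [h] with p hp
  unfold sq2
  rw [hR p]
  exact hp

theorem int_inv {v : E3} (hv : ‖v‖ = 1) : Integrable (fun p => 1 / √(sq2 v p)) PP ∧
    ∫ p, 1 / √(sq2 v p) ∂PP = Real.pi / 2 := by
  obtain ⟨R, hR⟩ := rot_ax hv
  have e : (fun p => 1 / √(sq2 v p)) = fun p => fm 0 (R p) := by
    funext p
    unfold sq2 fm
    rw [hR p, pow_zero]
  rw [e]
  refine ⟨int_comp R (fm_int 0).1, ?_⟩
  rw [int_rot R (fm 0), m0]

private theorem H1 (q : ℝ) : 1 / (q * √q) * q = 1 / √q := by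
  rcases eq_or_ne q 0 with h | h
  · rw [h]; simp
  · rcases eq_or_ne (√q) 0 with h1 | h1
    · rw [h1]; simp
    · field_simp

private theorem H2 (q : ℝ) : 1 / √q * q = √q ^ 2 / √q := by
  rcases le_or_gt 0 q with h | h
  · rw [Real.sq_sqrt h]
    ring
  · rw [Real.sqrt_eq_zero_of_nonpos h.le]
    simp

private theorem H3 (q : ℝ) : √q = √q ^ 2 / √q := by
  rcases eq_or_ne (√q) 0 with h1 | h1
  · rw [h1]; simp
  · field_simp

private theorem H4 (q : ℝ) : √q * q = √q ^ 4 / √q := by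
  rcases le_or_gt q 0 with h | h
  · rw [Real.sqrt_eq_zero_of_nonpos h]
    simp
  · have h1 : √q ≠ 0 := (Real.sqrt_pos.2 h).ne'
    have h2 := Real.sq_sqrt h.le
    field_simp
    exact h2.symm

/-- `E[⟨p,N⟩²/s³] = (π/4)|N|²` for `N ⟂ v` -/
theorem int_NN {v N : E3} (hv : ‖v‖ = 1) (hN : inner ℝ v N = (0 : ℝ)) :
    Integrable (fun p => inner ℝ p N ^ 2 / (sq2 v p * √(sq2 v p))) PP ∧
    ∫ p, inner ℝ p N ^ 2 / (sq2 v p * √(sq2 v p)) ∂PP = Real.pi / 4 * ‖N‖ ^ 2 := by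
  obtain ⟨R, hR⟩ := rot_ax hv
  rw [hR] at hN
  set n := R N with hn
  have hq : ∀ p : E3, (fun q : ℝ => 1 / (q * √q)) (1 - p 2 ^ 2) * (1 - p 2 ^ 2) = fm 0 p := by
    intro p
    simp only
    rw [H1]
    unfold fm
    rw [pow_zero]
  have hH : Measurable (fun q : ℝ => 1 / (q * √q)) := by fun_prop
  have h1 : Integrable (fun p : E3 => (fun q : ℝ => 1 / (q * √q)) (1 - p 2 ^ 2) * (1 - p 2 ^ 2))
      PP := by
    simp_rw [hq]
    exact (fm_int 0).1
  have i00 := q_int hH h1 (i := 0) (j := 0) (by decide) (by decide)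
  have i01 := q_int hH h1 (i := 0) (j := 1) (by decide) (by decide)
  have i11 := q_int hH h1 (i := 1) (j := 1) (by decide) (by decide)
  have v01 := q01 (H := fun q : ℝ => 1 / (q * √q))
  obtain ⟨v00, v11⟩ := q0011 hH h1
  simp_rw [hq] at v00 v11
  rw [m0] at v00 v11
  refine fin_step R (ladd (n 1 ^ 2) (ladd (2 * n 0 * n 1) (lbase (n 0 ^ 2) i00 v00) i01 v01)
    i11 v11) ?_ ?_
  · intro p
    simp only
    unfold sq2
    rw [hR p, ← R.inner_map_map p N, inner3, ← hn, hN]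
    ring
  · have h3 : ‖N‖ ^ 2 = n 0 ^ 2 + n 1 ^ 2 := by
      rw [← R.norm_map N, ← hn, EuclideanSpace.real_norm_sq_eq, Fin.sum_univ_three, hN]
      ring
    rw [h3]
    ring

/-- `E[⟨p,N⟩⟨p,K⟩/s] = (π/8)⟨N,K⟩` for `N ⟂ v` -/
theorem int_NK {v N K : E3} (hv : ‖v‖ = 1) (hN : inner ℝ v N = (0 : ℝ)) :
    Integrable (fun p => inner ℝ p N * inner ℝ p K / √(sq2 v p)) PP ∧
    ∫ p, inner ℝ p N * inner ℝ p K / √(sq2 v p) ∂PP = Real.pi / 8 * inner ℝ N K := by
  obtain ⟨R, hR⟩ := rot_ax hv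
  rw [hR] at hN
  set n := R N with hn
  set k := R K with hk
  have hq0 : ∀ p : E3, (fun q : ℝ => 1 / √q) (1 - p 2 ^ 2) = fm 0 p := by
    intro p
    unfold fm
    rw [pow_zero]
  have hq : ∀ p : E3, (fun q : ℝ => 1 / √q) (1 - p 2 ^ 2) * (1 - p 2 ^ 2) = fm 2 p := by
    intro p
    simp only
    rw [H2]
    rfl
  have hH : Measurable (fun q : ℝ => 1 / √q) := by fun_prop
  have h0 : Integrable (fun p : E3 => (fun q : ℝ => 1 / √q) (1 - p 2 ^ 2)) PP := by
    simp_rw [hq0]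
    exact (fm_int 0).1
  have h1 : Integrable (fun p : E3 => (fun q : ℝ => 1 / √q) (1 - p 2 ^ 2) * (1 - p 2 ^ 2))
      PP := by
    simp_rw [hq]
    exact (fm_int 2).1
  have i00 := q_int' hH h0 0 0
  have i01 := q_int' hH h0 0 1
  have i11 := q_int' hH h0 1 1
  have i02 := q_int' hH h0 0 2
  have i12 := q_int' hH h0 1 2
  have v01 := q01 (H := fun q : ℝ => 1 / √q)
  have v02 := q02 (H := fun q : ℝ => 1 / √q)
  have v12 := q12 (H := fun q : ℝ => 1 / √q)
  obtain ⟨v00, v11⟩ := q0011 hH h1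
  simp_rw [hq] at v00 v11
  rw [m2] at v00 v11
  refine fin_step R (ladd (n 1 * k 2) (ladd (n 0 * k 2) (ladd (n 1 * k 1)
    (ladd (n 0 * k 1 + n 1 * k 0) (lbase (n 0 * k 0) i00 v00) i01 v01) i11 v11) i02 v02)
    i12 v12) ?_ ?_
  · intro p
    simp only
    unfold sq2
    rw [hR p, ← R.inner_map_map p N, ← R.inner_map_map p K, inner3, inner3, ← hn, ← hk, hN]
    ring
  · have h3 : inner ℝ N K = n 0 * k 0 + n 1 * k 1 := by
      rw [← R.inner_map_map N K, ← hn, ← hk, inner3, hN]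
      ring
    rw [h3]
    ring

/-- `E[s⟨p,K⟩²] = (3π/32)(|K|² - ⟨v,K⟩²) + (π/16)⟨v,K⟩²` -/
theorem int_KK {v K : E3} (hv : ‖v‖ = 1) :
    Integrable (fun p => √(sq2 v p) * inner ℝ p K ^ 2) PP ∧
    ∫ p, √(sq2 v p) * inner ℝ p K ^ 2 ∂PP =
      3 * Real.pi / 32 * (‖K‖ ^ 2 - inner ℝ v K ^ 2) + Real.pi / 16 * inner ℝ v K ^ 2 := by
  obtain ⟨R, hR⟩ := rot_ax hv
  set k := R K with hk
  have hq0 : ∀ p : E3, (fun q : ℝ => √q) (1 - p 2 ^ 2) = fm 2 p := by
    intro p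
    unfold fm
    exact H3 _
  have hq : ∀ p : E3, (fun q : ℝ => √q) (1 - p 2 ^ 2) * (1 - p 2 ^ 2) = fm 4 p := by
    intro p
    unfold fm
    exact H4 _
  have hH : Measurable (fun q : ℝ => √q) := by fun_prop
  have h0 : Integrable (fun p : E3 => (fun q : ℝ => √q) (1 - p 2 ^ 2)) PP := by
    simp_rw [hq0]
    exact (fm_int 2).1
  have h1 : Integrable (fun p : E3 => (fun q : ℝ => √q) (1 - p 2 ^ 2) * (1 - p 2 ^ 2))
      PP := by
    simp_rw [hq]
    exact (fm_int 4).1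
  have i00 := q_int' hH h0 0 0
  have i01 := q_int' hH h0 0 1
  have i11 := q_int' hH h0 1 1
  have i02 := q_int' hH h0 0 2
  have i12 := q_int' hH h0 1 2
  have i22 := q_int' hH h0 2 2
  have v01 := q01 (H := fun q : ℝ => √q)
  have v02 := q02 (H := fun q : ℝ => √q)
  have v12 := q12 (H := fun q : ℝ => √q)
  obtain ⟨v00, v11⟩ := q0011 hH h1
  have v22 := q22 h0 h1
  have E0 : ∫ p : E3, (fun q : ℝ => √q) (1 - p 2 ^ 2) ∂PP = Real.pi / 4 := by
    simp_rw [hq0]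
    exact m2
  have E1 : ∫ p : E3, (fun q : ℝ => √q) (1 - p 2 ^ 2) * (1 - p 2 ^ 2) ∂PP =
      3 * Real.pi / 16 := by
    simp_rw [hq]
    exact m4
  rw [E1] at v00 v11 v22
  rw [E0] at v22
  refine fin_step R (ladd (k 2 ^ 2) (ladd (2 * k 1 * k 2) (ladd (2 * k 0 * k 2) (ladd (k 1 ^ 2)
    (ladd (2 * k 0 * k 1) (lbase (k 0 ^ 2) i00 v00) i01 v01) i11 v11) i02 v02)
    i12 v12) i22 v22) ?_ ?_
  · intro p
    simp only
    unfold sq2
    rw [hR p, ← R.inner_map_map p K, inner3, ← hk]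
    ring
  · have h3 : ‖K‖ ^ 2 = k 0 ^ 2 + k 1 ^ 2 + k 2 ^ 2 := by
      rw [← R.norm_map K, ← hk, EuclideanSpace.real_norm_sq_eq, Fin.sum_univ_three]
    have h4 : inner ℝ v K = k 2 := by
      rw [hR, hk]
    rw [h3, h4]
    ring

end Pool.Agent.FPX
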