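import Mathlib
import Pool.Agent.FPX.Defs
import Pool.Agent.EWD.RUL

/-
VEC: vector algebra in ℝ³ and the identification of `flx` with `cr`.
-/

open MeasureTheory Set Filter Topology
open scoped ENNReal NNReal

noncomputable section

namespace Pool.Agent.FPX

open Pool.Agent.EWD

theorem inner3 (a b : E3) : inner ℝ a b = a 0 * b 0 + a 1 * b 1 + a 2 * b 2 := by
  rw [PiLp.inner_apply, Fin.sum_univ_three]
  simp only [RCLike.inner_apply, conj_trivial]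
  ring

theorem normsq3 (a : E3) : ‖a‖ ^ 2 = a 0 ^ 2 + a 1 ^ 2 + a 2 ^ 2 := by
  rw [EuclideanSpace.real_norm_sq_eq, Fin.sum_univ_three]

theorem crs0 (a b : E3) : crs a b 0 = a 1 * b 2 - a 2 * b 1 := rfl
theorem crs1 (a b : E3) : crs a b 1 = a 2 * b 0 - a 0 * b 2 := rfl
theorem crs2 (a b : E3) : crs a b 2 = a 0 * b 1 - a 1 * b 0 := rfl

/-- Binet-Cauchy -/
theorem binet (a b v w : E3) : inner ℝ a v * inner ℝ b w - inner ℝ b v * inner ℝ a w
    = inner ℝ (crs a b) (crs v w) := by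
  simp only [inner3, crs0, crs1, crs2]
  ring

theorem crs_self (a : E3) : crs a a = 0 := by
  ext i
  fin_cases i
  · change a 1 * a 2 - a 2 * a 1 = 0
    ring
  · change a 2 * a 0 - a 0 * a 2 = 0
    ring
  · change a 0 * a 1 - a 1 * a 0 = 0
    ring

theorem inner_crs_left (a b : E3) : inner ℝ a (crs a b) = (0 : ℝ) := by
  simp only [inner3, crs0, crs1, crs2]
  ring

theorem inner_crs_right (a b : E3) : inner ℝ b (crs a b) = (0 : ℝ) := by
  simp only [inner3, crs0, crs1, crs2]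
  ring

theorem norm_crs_sq (a b : E3) : ‖crs a b‖ ^ 2 = ‖a‖ ^ 2 * ‖b‖ ^ 2 - inner ℝ a b ^ 2 := by
  simp only [normsq3, inner3, crs0, crs1, crs2]
  ring

/-- `⟨p, v × w⟩ = ⟨p × v, w⟩` -/
theorem inner_crs_cyc (p v w : E3) : inner ℝ p (crs v w) = inner ℝ (crs p v) w := by
  simp only [inner3, crs0, crs1, crs2]
  ring

theorem inner_crs_swap (p v w : E3) : inner ℝ p (crs v w) = - inner ℝ p (crs w v) := by
  simp only [inner3, crs0, crs1, crs2]
  ring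

theorem sq2_nonneg {v p : E3} (hv : ‖v‖ = 1) (hp : ‖p‖ = 1) : 0 ≤ sq2 v p := by
  unfold sq2
  have h := abs_real_inner_le_norm v p
  rw [hv, hp, one_mul] at h
  have h2 : inner ℝ v p ^ 2 ≤ (1 : ℝ) := by
    rw [← sq_abs]
    exact pow_le_one₀ (abs_nonneg _) h
  linarith

theorem sq2_le (v p : E3) : sq2 v p ≤ 1 := by
  unfold sq2
  have := sq_nonneg (inner ℝ v p : ℝ)
  linarith

theorem norm_crs_eq {v p : E3} (hv : ‖v‖ = 1) (hp : ‖p‖ = 1) : ‖crs p v‖ ^ 2 = sq2 v p := by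
  rw [norm_crs_sq, hv, hp, real_inner_comm]
  unfold sq2
  ring

/-- `⟨p, v × ξ⟩² ≤ s² |ξ|²` -/
theorem inner_crs_le {v p : E3} (hv : ‖v‖ = 1) (hp : ‖p‖ = 1) (ξ : E3) :
    inner ℝ p (crs v ξ) ^ 2 ≤ sq2 v p * ‖ξ‖ ^ 2 := by
  rw [inner_crs_cyc, ← norm_crs_eq hv hp, ← mul_pow, ← sq_abs]
  exact pow_le_pow_left₀ (abs_nonneg _) (abs_real_inner_le_norm _ _) 2

/-- the orthogonal decomposition along `a`, `b`, `a × b` -/
theorem decomp {a b : E3} (ha : inner ℝ a a = (1 : ℝ)) (hb : inner ℝ b b = (1 : ℝ))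
    (hab : inner ℝ a b = (0 : ℝ)) (v : E3) :
    ‖v‖ ^ 2 = inner ℝ a v ^ 2 + inner ℝ b v ^ 2 + inner ℝ v (crs a b) ^ 2 := by
  have h1 : ‖crs a b‖ ^ 2 = 1 := by
    rw [norm_crs_sq, ← real_inner_self_eq_norm_sq, ← real_inner_self_eq_norm_sq, ha, hb, hab]
    ring
  have h2 : ‖crs (crs a b) v‖ ^ 2 = inner ℝ a v ^ 2 * inner ℝ b b + inner ℝ b v ^ 2 * inner ℝ a a
      - 2 * (inner ℝ a v * inner ℝ b v * inner ℝ a b) := by
    simp only [normsq3, inner3, crs0, crs1, crs2]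
    ring
  rw [ha, hb, hab, norm_crs_sq, h1, real_inner_comm] at h2
  linarith

theorem norm_crs_one {a b : E3} (ha : inner ℝ a a = (1 : ℝ)) (hb : inner ℝ b b = (1 : ℝ))
    (hab : inner ℝ a b = (0 : ℝ)) : ‖crs a b‖ = 1 := by
  have h1 : ‖crs a b‖ ^ 2 = 1 := by
    rw [norm_crs_sq, ← real_inner_self_eq_norm_sq, ← real_inner_self_eq_norm_sq, ha, hb, hab]
    ring
  nlinarith [norm_nonneg (crs a b)]

variable {M : Type} [MetricSpace M] {γ : ℝ → M}

theorem norm_vv {v : Fin 3 → M → ℝ} (hv : Sph γ v) (x : M) : ‖vv (n := 0) v x‖ = 1 := by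
  have h := hv.unit x
  rw [Fin.sum_univ_three] at h
  have h1 : ‖vv (n := 0) v x‖ ^ 2 = 1 := by
    rw [normsq3]
    exact h
  nlinarith [norm_nonneg (vv (n := 0) v x)]

theorem norm_at {C : Calc M γ} {v : Fin 3 → M → ℝ} (hv : Sph γ v) (o : Om) : ‖at' C v o‖ = 1 :=
  norm_vv hv _

theorem inner_vv (a : E3) (v : Fin 3 → M → ℝ) (x : M) :
    inner ℝ a (vv (n := 0) v x) = a 0 * v 0 x + a 1 * v 1 x + a 2 * v 2 x := by
  rw [inner3]
  rfl

theorem inner_at (a : E3) (C : Calc M γ) (v : Fin 3 → M → ℝ) (o : Om) :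
    inner ℝ a (at' C v o) = inner ℝ a (vv (n := 0) v (C.pt o)) := rfl

/-- the functions `⟨a, v⟩` -/
theorem ae_inner (C : Calc M γ) {v : Fin 3 → M → ℝ} (hv : ∀ k, Lip (v k)) : ∀ᵐ o ∂C.μ, ∀ a : E3,
    C.gx (fun x => inner ℝ a (vv (n := 0) v x)) o = inner ℝ a (dx C v o) ∧
    C.gy (fun x => inner ℝ a (vv (n := 0) v x)) o = inner ℝ a (dy C v o) := by
  have h : ∀ᵐ o ∂C.μ, ∀ i, HasDerivAt (fun s => v i (C.px o s)) (C.gx (v i) o) 0 ∧
      HasDerivAt (fun s => v i (C.py o s)) (C.gy (v i) o) 0 := ae_all_iff.mpr fun i => C.ae_has (hv i)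
  filter_upwards [h] with o ho a
  have e : (fun x => inner ℝ a (vv (n := 0) v x)) = fun x => a 0 * v 0 x + a 1 * v 1 x + a 2 * v 2 x :=
    funext fun x => inner_vv a v x
  rw [e]
  refine ⟨?_, ?_⟩
  · refine ((((ho 0).1.const_mul (a 0)).add ((ho 1).1.const_mul (a 1))).add
      ((ho 2).1.const_mul (a 2))).deriv.trans ?_
    rw [inner3]
    rfl
  · refine ((((ho 0).2.const_mul (a 0)).add ((ho 1).2.const_mul (a 1))).add
      ((ho 2).2.const_mul (a 2))).deriv.trans ?_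
    rw [inner3]
    rfl

/-- the derivative of a map into the sphere is orthogonal to it -/
theorem ae_perp (C : Calc M γ) {v : Fin 3 → M → ℝ} (hv : Sph γ v) : ∀ᵐ o ∂C.μ,
    inner ℝ (at' C v o) (dx C v o) = (0 : ℝ) ∧ inner ℝ (at' C v o) (dy C v o) = (0 : ℝ) := by
  filter_upwards [C.ae_sph hv] with o ho
  rw [Fin.sum_univ_three, Fin.sum_univ_three] at ho
  rw [inner3, inner3]
  exact ho

theorem ae_flx_eq (C : Calc M γ) {v : Fin 3 → M → ℝ} (hv : Sph γ v) {a b : E3}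
    (ha : inner ℝ a a = (1 : ℝ)) (hb : inner ℝ b b = (1 : ℝ)) (hab : inner ℝ a b = (0 : ℝ)) :
    ∀ᵐ o ∂C.μ, (∀ ψ : M → ℝ, flx C ψ v (crs a b) o = C.cr ψ (fun x => inner ℝ a (vv (n := 0) v x))
      (fun x => inner ℝ b (vv (n := 0) v x)) o) ∧
      C.wed (fun x => inner ℝ a (vv (n := 0) v x)) (fun x => inner ℝ b (vv (n := 0) v x)) o
        = inner ℝ (crs a b) (crs (dx C v o) (dy C v o)) := by
  filter_upwards [ae_inner C hv.lip] with o ho
  have h2 : inner ℝ a (vv (n := 0) v (C.pt o)) ^ 2 + inner ℝ b (vv (n := 0) v (C.pt o)) ^ 2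
      = sq2 (at' C v o) (crs a b) := by
    have h3 := decomp ha hb hab (vv (n := 0) v (C.pt o))
    rw [norm_vv hv] at h3
    unfold sq2
    change _ = 1 - inner ℝ (vv (n := 0) v (C.pt o)) (crs a b) ^ 2
    linarith
  refine ⟨fun ψ => ?_, ?_⟩
  · unfold flx Calc.cr Calc.Ty Calc.Tx
    rw [(ho a).1, (ho b).1, (ho a).2, (ho b).2, h2, ← binet, ← binet]
    rfl
  · unfold Calc.wed
    rw [(ho a).1, (ho b).1, (ho a).2, (ho b).2, ← binet]
    ring

end Pool.Agent.FPX
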