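import Mathlib
import Pool.Agent.FPX.VEC
import Pool.Agent.FPX.SPH
import Pool.Agent.EWD.MFL

/-
REG: on a smooth surface every odd Lipschitz map into the sphere is regular in almost every
direction.
-/

open MeasureTheory Set Filter Topology Manifold Bundle
open scoped ENNReal NNReal ContDiff

noncomputable section

namespace Pool.Agent.FPX

open Pool.Agent.EWD Pool.Agent.H74.FAC

/-- the cross product of an orthonormal basis of the plane orthogonal to `y` -/
theorem REG_crs {a b y : E3} (ha : inner ℝ a a = (1 : ℝ)) (hb : inner ℝ b b = (1 : ℝ))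
    (hab : inner ℝ a b = (0 : ℝ)) (hy : y ≠ 0)
    (hr : ∀ v : E3, inner ℝ a v = (0 : ℝ) → inner ℝ b v = (0 : ℝ) → ∃ r : ℝ, v = r • y) :
    crs a b = (‖y‖⁻¹ : ℝ) • y ∨ crs a b = -((‖y‖⁻¹ : ℝ) • y) := by
  obtain ⟨r, h⟩ := hr (crs a b) (inner_crs_left a b) (inner_crs_right a b)
  have hy0 : 0 < ‖y‖ := norm_pos_iff.2 hy
  have h1 : |r| * ‖y‖ = 1 := by
    rw [← norm_crs_one ha hb hab, h, norm_smul, Real.norm_eq_abs]
  have h2 : |r| = ‖y‖⁻¹ := eq_inv_of_mul_eq_one_left h1
  rcases abs_choice r with h3 | h3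
  · left
    rw [h, ← h2, h3]
  · right
    rw [h, ← h2, h3, neg_smul, neg_neg]

variable {M : Type} [MetricSpace M] [ChartedSpace HP M] [IsManifold (𝓡∂ 2) ∞ M] [CompactSpace M]
  [RiemannianBundle (fun x : M => TangentSpace (𝓡∂ 2) x)]
  [IsContMDiffRiemannianBundle (𝓡∂ 2) ∞ E2 (fun x : M => TangentSpace (𝓡∂ 2) x)]
  [IsRiemannianManifold (𝓡∂ 2) M]

/-- for almost every direction -/
theorem reg_leb [Nonempty M] (A : Cov M) {φ : S1 → M} (hφ : IsometricFilling φ)
    {v : Fin 3 → M → ℝ} (hv : Sph (gam φ) v) :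
    ∀ᵐ y : E3, Reg (cal A hφ) v ((‖y‖⁻¹ : ℝ) • y) := by
  have hL : ∃ L : ℝ≥0, LipschitzWith L (vv (n := 0) v) := by
    refine mfl_lip_of fun i => ?_
    fin_cases i
    · exact hv.lip 0
    · exact hv.lip 1
    · exact hv.lip 2
  have hv0 : ∀ x, vv (n := 0) v x ≠ 0 := by
    intro x h
    have h1 := norm_vv hv x
    rw [h, norm_zero] at h1
    exact zero_ne_one h1
  have oX : ∀ c : E3, OddB (gam φ) (fun x => (inner ℝ c (vv (n := 0) v x) : ℝ)) := by
    intro c t
    simp only [inner_vv]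
    rw [hv.odd 0 t, hv.odd 1 t, hv.odd 2 t]
    ring
  have lX : ∀ c : E3, Lip (fun x => (inner ℝ c (vv (n := 0) v x) : ℝ)) := by
    intro c
    have e : (fun x => (inner ℝ c (vv (n := 0) v x) : ℝ))
        = lin (emb (n := 0) c) v := by
      funext x
      rw [lin_emb]
    rw [e]
    exact lip_lin _ hv.lip
  filter_upwards [sard_zeros_lip A hL hv0] with y hy
  obtain ⟨hy0, hy1⟩ := hy
  obtain ⟨a, b, ha, hb, hab, -, hr⟩ := exists_ab hy0
  have key : ∀ b' : E3, (∀ w : E3, inner ℝ a w = (0 : ℝ) → inner ℝ b' w = (0 : ℝ) → ∃ r : ℝ, w = r • y) →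
      ∃ (Z : Finset M) (s : M → ℝ), (cal A hφ).Vort (fun x => inner ℝ a (vv (n := 0) v x))
        (fun x => inner ℝ b' (vv (n := 0) v x)) Z s := by
    intro b' hr'
    refine vort_of_nondeg_lip A hφ (lX a) (lX b') (oX a) (oX b') ?_
    intro x h1 h2 k hk
    exact hy1 a b' hr' x h1 h2 k hk
  rcases REG_crs ha hb hab hy0 hr with h | h
  · obtain ⟨Z, s, hV⟩ := key b hr
    exact ⟨a, b, Z, s, ha, hb, hab, h, hV⟩
  · obtain ⟨Z, s, hV⟩ := key (-b) (by
      intro w h1 h2
      rw [inner_neg_left, neg_eq_zero] at h2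
      exact hr w h1 h2)
    refine ⟨a, -b, Z, s, ha, ?_, ?_, ?_, hV⟩
    · rw [inner_neg_neg, hb]
    · rw [inner_neg_right, hab, neg_zero]
    · have h3 : crs a (-b) = - crs a b := by
        ext i
        fin_cases i
        · change a 1 * (-b) 2 - a 2 * (-b) 1 = -(a 1 * b 2 - a 2 * b 1)
          simp only [PiLp.neg_apply]
          ring
        · change a 2 * (-b) 0 - a 0 * (-b) 2 = -(a 2 * b 0 - a 0 * b 2)
          simp only [PiLp.neg_apply]
          ring
        · change a 0 * (-b) 1 - a 1 * (-b) 0 = -(a 0 * b 1 - a 1 * b 0)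
          simp only [PiLp.neg_apply]
          ring
      rw [h3, h, neg_neg]

/-- smooth surfaces: every odd Lipschitz map into the sphere is regular in almost every direction -/
theorem reg_ae [Nonempty M] (A : Cov M) {φ : S1 → M} (hφ : IsometricFilling φ) :
    RegAE (cal A hφ) := fun _ hv => ae_PP (reg_leb A hφ hv)

end Pool.Agent.FPX
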