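import Mathlib
import Pool.Agent.EWD.Defs
import Pool.Agent.FPX.S7Defs
import Pool.Agent.FPX.S7B

/-
FPX, S7G (helper82): quadratic growth of the area of the sublevel sets of an even Lipschitz function.
The error `ε` of the isoperimetric inequality does not matter once the area is above `ε`.
-/

open MeasureTheory Set Filter Topology
open scoped ENNReal NNReal

noncomputable section

namespace Pool.Agent.FPX

open Pool.Agent.EWD

variable {M : Type} [MetricSpace M] {γ : ℝ → M} (C : Calc M γ)

/-- the area of `{g < t}` -/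
def inf' (g : M → ℝ) (t : ℝ) : ℝ := (C.μ {o | g (C.pt o) < t}).toReal

theorem inf_mono (g : M → ℝ) : Monotone (inf' C g) := by
  have := C.fin
  intro s t h
  exact ENNReal.toReal_mono (measure_ne_top _ _)
    (measure_mono fun o ho => lt_of_lt_of_le (by simpa using ho) h)

theorem sup_inf {g : M → ℝ} (hg : Lip g) (t : ℝ) : sup' C g t = C.vol - inf' C g t := by
  have := C.fin
  have hm : NullMeasurableSet {o | g (C.pt o) < t} C.μ :=
    nullMeasurableSet_lt (aem_pt C hg) aemeasurable_const
  have e : {o | t ≤ g (C.pt o)} = {o | g (C.pt o) < t}ᶜ := by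
    ext o; simp
  rw [sup', e, measure_compl₀ hm (measure_ne_top _ _), inf', Calc.vol,
    ENNReal.toReal_sub_of_le (measure_mono (subset_univ _)) (measure_ne_top _ _)]

/-- `L μ{g < t} - ∫_{g < t} |∇g|` increases -/
theorem mono_diff {g : M → ℝ} {L : ℝ≥0} (hg : LipschitzWith L g) :
    Monotone fun t => L * inf' C g t - lev C g t := by
  have := C.fin
  intro s t h
  have hl : Lip g := ⟨L, hg⟩
  have hm : ∀ t : ℝ, NullMeasurableSet {o | g (C.pt o) < t} C.μ := fun t =>
    nullMeasurableSet_lt (aem_pt C hl) aemeasurable_const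
  have e : ∀ t : ℝ, L * inf' C g t - lev C g t =
      ∫ o in {o | g (C.pt o) < t}, ((L : ℝ) - gn C g o) ∂C.μ := by
    intro t
    rw [integral_sub (integrable_const _) (int_gn C hl).integrableOn, lev]
    simp [inf', Measure.real, mul_comm]
  simp only [e]
  refine setIntegral_mono_set (((integrable_const _).sub (int_gn C hl)).integrableOn) ?_ ?_
  · refine ae_restrict_of_ae ?_
    filter_upwards [gn_bd C hg] with o ho
    simpa using ho
  · refine Eventually.of_forall fun o ho => ?_
    exact lt_of_lt_of_le (show g (C.pt o) < s from ho) h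

/-- quadratic growth -/
theorem growth {κ ε : ℝ} (hI : Isop C κ ε) (hκ : 0 ≤ κ) {g : M → ℝ} {L : ℝ≥0}
    (hg : LipschitzWith L g) (hL : 0 < L) (he : EvenB γ g) {t₀ t₁ : ℝ} (h01 : t₀ ≤ t₁)
    (h0 : ε < inf' C g t₀) (hV : inf' C g t₁ ≤ C.vol / 2) :
    κ / (4 * L ^ 2) * (t₁ - t₀) ^ 2 ≤ inf' C g t₁ - ε := by
  have hl : Lip g := ⟨L, hg⟩
  have hL' : (0 : ℝ) < L := hL
  have hmono := inf_mono C g
  have hf : MonotoneOn (fun t => √(inf' C g t - ε)) (uIcc t₀ t₁) := fun s _ t _ h =>
    Real.sqrt_le_sqrt (sub_le_sub_right (hmono h) ε)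
  have hi := MonotoneOn.intervalIntegral_deriv_mem_uIcc hf
  have hint := MonotoneOn.intervalIntegrable_deriv hf
  have hle : √(inf' C g t₀ - ε) ≤ √(inf' C g t₁ - ε) := hf (by simp) (by simp) h01
  rw [uIcc_of_le (by linarith), mem_Icc] at hi
  have hpt : ∀ᵐ t : ℝ, t ∈ Ioc t₀ t₁ → √κ / (2 * L) ≤ deriv (fun t => √(inf' C g t - ε)) t := by
    filter_upwards [hI g hl he, hmono.ae_differentiableAt] with t ht hd hm
    have hb : ε < inf' C g t := h0.trans_le (hmono hm.1.le)
    have hb2 : inf' C g t ≤ C.vol / 2 := (hmono hm.2).trans hV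
    have hpos : 0 < inf' C g t - ε := by linarith
    have hdd : HasDerivAt (fun t => √(inf' C g t - ε))
        (deriv (inf' C g) t / (2 * √(inf' C g t - ε))) t :=
      (hd.hasDerivAt.sub_const ε).sqrt hpos.ne'
    have h1 : deriv (lev C g) t ≤ L * deriv (inf' C g) t := by
      have h2 := (mono_diff C hg).deriv_nonneg (x := t)
      have h3 : deriv (fun t => L * inf' C g t - lev C g t) t =
          L * deriv (inf' C g) t - deriv (lev C g) t := by
        rw [deriv_fun_sub (hd.const_mul _) ht.1, deriv_const_mul _ hd]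
      linarith
    have h4 := ht.2
    have h5 : min (sup' C g t) (C.vol - sup' C g t) = inf' C g t := by
      rw [sup_inf C hl, min_eq_right (by linarith)]
      ring
    rw [h5] at h4
    have h6 : 0 ≤ deriv (inf' C g) t := Monotone.deriv_nonneg hmono
    have h7 : 0 ≤ deriv (lev C g) t := by
      have h8 : Monotone (lev C g) := by
        intro s t h
        refine setIntegral_mono_set (int_gn C hl).integrableOn ?_ ?_
        · exact Eventually.of_forall fun o => gn_nonneg C g o
        · refine Eventually.of_forall fun o ho => ?_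
          exact lt_of_lt_of_le (show g (C.pt o) < s from ho) h
      exact h8.deriv_nonneg
    have h9 : √κ * √(inf' C g t - ε) ≤ L * deriv (inf' C g) t := by
      rw [← Real.sqrt_mul hκ]
      refine (Real.sqrt_le_sqrt h4).trans ?_
      rw [Real.sqrt_sq h7]
      exact h1
    rw [hdd.deriv, div_le_div_iff₀ (by positivity) (by positivity)]
    nlinarith [h9]
  have hge : (t₁ - t₀) * (√κ / (2 * L)) ≤ √(inf' C g t₁ - ε) := by
    calc (t₁ - t₀) * (√κ / (2 * L)) = ∫ _ in t₀..t₁, √κ / (2 * (L : ℝ)) := by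
          rw [intervalIntegral.integral_const, smul_eq_mul]
      _ ≤ ∫ t in t₀..t₁, deriv (fun t => √(inf' C g t - ε)) t := by
          refine intervalIntegral.integral_mono_ae_restrict h01 (by simp) hint ?_
          rw [Filter.EventuallyLE, ← Measure.restrict_congr_set Ioc_ae_eq_Icc,
            ae_restrict_iff' measurableSet_Ioc]
          exact hpt
      _ ≤ √(inf' C g t₁ - ε) - √(inf' C g t₀ - ε) := hi.2
      _ ≤ √(inf' C g t₁ - ε) := by
          have := Real.sqrt_nonneg (inf' C g t₀ - ε)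
          linarith
  have h10 : 0 ≤ (t₁ - t₀) * (√κ / (2 * L)) := mul_nonneg (by linarith) (by positivity)
  have h11 := pow_le_pow_left₀ h10 hge 2
  have h12 : 0 ≤ inf' C g t₁ - ε := by
    have := hmono h01
    linarith
  rw [Real.sq_sqrt h12, mul_pow, div_pow, Real.sq_sqrt hκ] at h11
  calc κ / (4 * L ^ 2) * (t₁ - t₀) ^ 2 = (t₁ - t₀) ^ 2 * (κ / (2 * L) ^ 2) := by ring
    _ ≤ _ := h11

/-- quadratic growth, superlevel sets -/
theorem growth_sup {κ ε : ℝ} (hI : Isop C κ ε) (hκ : 0 ≤ κ) {u : M → ℝ} {L : ℝ≥0}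
    (hu : LipschitzWith L u) (hL : 0 < L) (he : EvenB γ u) {t B : ℝ} (h01 : t ≤ B)
    (h0 : ε < (C.μ {o | B < u (C.pt o)}).toReal)
    (hV : (C.μ {o | t < u (C.pt o)}).toReal ≤ C.vol / 2) :
    κ / (4 * L ^ 2) * (B - t) ^ 2 ≤ (C.μ {o | t < u (C.pt o)}).toReal - ε := by
  have e : ∀ s : ℝ, inf' C (-u) (-s) = (C.μ {o | s < u (C.pt o)}).toReal := fun s => by
    rw [inf']
    congr 2
    ext o
    simp
  have h := growth C hI hκ hu.neg hL (even_neg he) (t₀ := -B) (t₁ := -t) (by linarith)
    (by rw [e]; exact h0) (by rw [e]; exact hV)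
  rw [e] at h
  calc κ / (4 * L ^ 2) * (B - t) ^ 2 = κ / (4 * L ^ 2) * (-t - -B) ^ 2 := by ring
    _ ≤ _ := h

end Pool.Agent.FPX
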