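import Pool.Agent.FPX.S7A

/-!
S7N. The nonlinear level set lemma (Hamilton-Jacobi form).

`b t = μ {g < t}`, `l t = d/dt ∫_{g<t} G`. If `S(a,t)` satisfies `S_a ≤ m(t)` and
`S_t² ≤ 4 c l(t)² (m(t) - S_a)` (or `S_t ≤ 0`) along `a = b t`, then
`∫_{r0 ≤ g < r1} (W + c G²) ≥ S(b r1, r1) - S(b r0, r0)` for every `W ≥ m(g)`.
-/

open MeasureTheory Set Filter Topology

noncomputable section

namespace Pool.Agent.FPX

variable {Ω : Type*} [MeasurableSpace Ω]

/-- the measure of the sublevel set -/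
def s7b (μ : Measure Ω) (g : Ω → ℝ) (t : ℝ) : ℝ := μ.real {o | g o < t}

section main

variable (μ : Measure Ω) [IsFiniteMeasure μ] {g G : Ω → ℝ}

omit [IsFiniteMeasure μ] in
theorem s7b_eq (t : ℝ) : s7b μ g t = s7F μ g (fun _ => 1) t := by
  unfold s7F s7b
  simp [Measure.real]

theorem s7b_mono : Monotone (s7b μ g) := fun s t h =>
  measureReal_mono (fun _ ho => lt_of_lt_of_le ho h)

theorem s7b_le (t : ℝ) : s7b μ g t ≤ μ.real univ := measureReal_mono (subset_univ _)

omit [IsFiniteMeasure μ] in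
theorem s7b_nonneg (t : ℝ) : 0 ≤ s7b μ g t := measureReal_nonneg

/-- lower bound of the increment of `∫_{g<t} W` -/
theorem s7N_W (hg : Measurable g) {W : Ω → ℝ} (hW : Integrable W μ) {r0 r1 L : ℝ} (hL : 0 ≤ L)
    {m : ℝ → ℝ} (hm : ∀ o, r0 ≤ g o → g o < r1 → m (g o) ≤ W o)
    (mL : ∀ s t, r0 ≤ s → s ≤ t → t ≤ r1 → m s - L * (t - s) ≤ m t)
    {s t : ℝ} (h0 : r0 ≤ s) (hst : s ≤ t) (h1 : t ≤ r1) :
    (m s - L * (t - s)) * (s7b μ g t - s7b μ g s) ≤ s7F μ g W t - s7F μ g W s := by
  rw [s7b_eq, s7b_eq, s7F_sub μ hg hW hst, s7F_sub μ hg (integrable_const _) hst,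
    ← integral_const_mul]
  have hms : MeasurableSet {o | s ≤ g o ∧ g o < t} :=
    (measurableSet_le measurable_const hg).inter (measurableSet_lt hg measurable_const)
  refine setIntegral_mono_on (integrable_const _).integrableOn hW.integrableOn hms ?_
  intro o ho
  obtain ⟨ho1, ho2⟩ := ho
  have h2 := hm o (h0.trans ho1) (lt_of_lt_of_le ho2 h1)
  have h3 := mL s (g o) h0 ho1 (ho2.le.trans h1)
  have h4 : L * (g o - s) ≤ L * (t - s) := mul_le_mul_of_nonneg_left (by linarith) hL
  linarith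

/-- **Nonlinear level set lemma.** -/
theorem s7_hj (hg : Measurable g) (hG : Integrable G μ) (G0 : ∀ o, 0 ≤ G o)
    (hG2 : Integrable (fun o => G o ^ 2) μ) {W : Ω → ℝ} (hW : Integrable W μ)
    {r0 r1 c L : ℝ} (hr : r0 ≤ r1) (hc : 0 ≤ c) (hL : 0 ≤ L)
    {m : ℝ → ℝ} (hm : ∀ o, r0 ≤ g o → g o < r1 → m (g o) ≤ W o)
    (mL : ∀ s t, r0 ≤ s → s ≤ t → t ≤ r1 → m s - L * (t - s) ≤ m t)
    {S Sa St : ℝ → ℝ → ℝ}
    (hS : ∀ t a, r0 ≤ t → t ≤ r1 → s7b μ g t ≤ a → a ≤ μ.real univ →
      HasFDerivAt (fun z : ℝ × ℝ => S z.1 z.2)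
        (Sa a t • ContinuousLinearMap.fst ℝ ℝ ℝ + St a t • ContinuousLinearMap.snd ℝ ℝ ℝ) (a, t))
    (hSt : ∀ t a, r0 ≤ t → t ≤ r1 → s7b μ g t ≤ a → a ≤ μ.real univ → |St a t| ≤ L)
    (hSa : ∀ t a, r0 ≤ t → t ≤ r1 → s7b μ g t ≤ a → a ≤ μ.real univ → Sa a t ≤ m t)
    (hj : ∀ᵐ t : ℝ, r0 < t → t < r1 → St (s7b μ g t) t ≤ 0 ∨
      St (s7b μ g t) t ^ 2 ≤ 4 * (c * deriv (s7F μ g G) t ^ 2 * (m t - Sa (s7b μ g t) t))) :
    S (s7b μ g r1) r1 - S (s7b μ g r0) r0 ≤
      ∫ o in {o | r0 ≤ g o ∧ g o < r1}, (W o + c * G o ^ 2) ∂μ := by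
  set b := s7b μ g with hb
  set V := μ.real univ with hV
  have bmono : Monotone b := s7b_mono μ
  have bV : ∀ t, b t ≤ V := fun t => s7b_le μ t
  have V0 : 0 ≤ V := measureReal_nonneg
  have b0 : ∀ t, 0 ≤ b t := fun t => s7b_nonneg μ t
  have beq : b = s7F μ g (fun _ => 1) := funext fun t => s7b_eq μ t
  have m0 := s7F_mono μ hg (integrable_const (1 : ℝ)) (fun _ => zero_le_one)
  have m1 := s7F_mono μ hg hG G0
  have m2 := s7F_mono μ hg hG2 (fun o => sq_nonneg (G o))
  -- partial derivatives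
  have dSa : ∀ t a, r0 ≤ t → t ≤ r1 → b t ≤ a → a ≤ V →
      HasDerivAt (fun x => S x t) (Sa a t) a := by
    intro t a h1 h2 h3 h4
    have h5 := (hS t a h1 h2 h3 h4).comp_hasDerivAt a
      ((hasDerivAt_id a).prodMk (hasDerivAt_const a t))
    exact h5.congr_deriv (by simp)
  have dSt : ∀ t a, r0 ≤ t → t ≤ r1 → b t ≤ a → a ≤ V →
      HasDerivAt (fun x => S a x) (St a t) t := by
    intro t a h1 h2 h3 h4
    have h5 := (hS t a h1 h2 h3 h4).comp_hasDerivAt t
      ((hasDerivAt_const t a).prodMk (hasDerivAt_id t))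
    exact h5.congr_deriv (by simp)
  -- increments of S
  have incA : ∀ s t, r0 ≤ s → s ≤ t → t ≤ r1 → S (b t) s - S (b s) s ≤ m s * (b t - b s) := by
    intro s t h0 hst h1
    have hconv : Convex ℝ (Icc (b s) (b t)) := convex_Icc _ _
    refine hconv.image_sub_le_mul_sub_of_deriv_le (f := fun x => S x s) ?_ ?_ ?_ (b s)
      (left_mem_Icc.2 (bmono hst)) (b t) (right_mem_Icc.2 (bmono hst)) (bmono hst)
    · intro a ha
      exact (dSa s a h0 (hst.trans h1) ha.1 (ha.2.trans (bV t))).continuousAt.continuousWithinAt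
    · intro a ha
      rw [interior_Icc] at ha
      exact (dSa s a h0 (hst.trans h1) ha.1.le
        (ha.2.le.trans (bV t))).differentiableAt.differentiableWithinAt
    · intro a ha
      rw [interior_Icc] at ha
      rw [(dSa s a h0 (hst.trans h1) ha.1.le (ha.2.le.trans (bV t))).deriv]
      exact hSa s a h0 (hst.trans h1) ha.1.le (ha.2.le.trans (bV t))
  have incT : ∀ s t, r0 ≤ s → s ≤ t → t ≤ r1 → S (b t) t - S (b t) s ≤ L * (t - s) := by
    intro s t h0 hst h1
    have hconv : Convex ℝ (Icc s t) := convex_Icc _ _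
    refine hconv.image_sub_le_mul_sub_of_deriv_le (f := fun x => S (b t) x) ?_ ?_ ?_ s
      (left_mem_Icc.2 hst) t (right_mem_Icc.2 hst) hst
    · intro a ha
      exact (dSt a (b t) (h0.trans ha.1) (ha.2.trans h1) (bmono ha.2)
        (bV t)).continuousAt.continuousWithinAt
    · intro a ha
      rw [interior_Icc] at ha
      exact (dSt a (b t) (h0.trans ha.1.le) (ha.2.le.trans h1) (bmono ha.2.le)
        (bV t)).differentiableAt.differentiableWithinAt
    · intro a ha
      rw [interior_Icc] at ha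
      rw [(dSt a (b t) (h0.trans ha.1.le) (ha.2.le.trans h1) (bmono ha.2.le) (bV t)).deriv]
      exact (le_abs_self _).trans
        (hSt a (b t) (h0.trans ha.1.le) (ha.2.le.trans h1) (bmono ha.2.le) (bV t))
  -- the function H
  set F2 := s7F μ g fun o => G o ^ 2 with hF2
  set FW := s7F μ g W with hFW
  set H : ℝ → ℝ := fun t => FW t + c * F2 t - S (b t) t with hH
  set K : ℝ := L * (1 + V) with hK
  have Hinc : ∀ s t, r0 ≤ s → s ≤ t → t ≤ r1 → -(K * (t - s)) ≤ H t - H s := by
    intro s t h0 hst h1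
    have e1 := s7N_W μ hg hW hL hm mL h0 hst h1
    have e2 := incA s t h0 hst h1
    have e3 := incT s t h0 hst h1
    have e4 : F2 s ≤ F2 t := m2 hst
    have e5 : 0 ≤ c * (F2 t - F2 s) := mul_nonneg hc (by linarith)
    have e6 : L * (t - s) * (b t - b s) ≤ L * (t - s) * V := by
      refine mul_le_mul_of_nonneg_left ?_ (mul_nonneg hL (by linarith))
      linarith [bV t, b0 s]
    have e7 : H t - H s = (FW t - FW s) + c * (F2 t - F2 s) - (S (b t) t - S (b t) s) -
        (S (b t) s - S (b s) s) := by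
      rw [hH]
      ring
    rw [e7, hK]
    have e8 : (m s - L * (t - s)) * (b t - b s) = m s * (b t - b s) -
        L * (t - s) * (b t - b s) := by ring
    rw [← hb, ← hFW] at e1
    nlinarith
  have K0 : 0 ≤ K := mul_nonneg hL (by linarith)
  set Φ : ℝ → ℝ := fun t => H t + K * t with hΦ
  have Φmono : MonotoneOn Φ (uIcc r0 r1) := by
    rw [uIcc_of_le hr]
    intro s hs t ht hst
    have := Hinc s t hs.1 hst ht.2
    simp only [hΦ]
    linarith
  have hint := Φmono.intervalIntegral_deriv_mem_uIcc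
  have hΦle : Φ r0 ≤ Φ r1 := Φmono (by simp) (by simp) hr
  rw [uIcc_of_le (sub_nonneg.2 hΦle)] at hint
  have hdint : IntervalIntegrable (deriv Φ) volume r0 r1 := Φmono.intervalIntegrable_deriv
  -- a.e. derivative
  have hWp : Monotone (s7F μ g fun o => W o + |W o|) :=
    s7F_mono μ hg (hW.add hW.abs) (fun o => by
      have := neg_abs_le (W o)
      linarith)
  have hWn : Monotone (s7F μ g fun o => |W o|) := s7F_mono μ hg hW.abs (fun o => abs_nonneg _)
  have hFWe : FW = fun t => (s7F μ g fun o => W o + |W o|) t - (s7F μ g fun o => |W o|) t := by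
    funext t
    have : (s7F μ g fun o => W o + |W o|) t = FW t + (s7F μ g fun o => |W o|) t := by
      simp only [hFW, s7F]
      exact integral_add hW.integrableOn hW.abs.integrableOn
    linarith
  have key : ∀ᵐ t : ℝ, t ∈ Ioo r0 r1 → K ≤ deriv Φ t := by
    filter_upwards [hj, m0.ae_differentiableAt, m1.ae_differentiableAt,
      m2.ae_differentiableAt, hWp.ae_differentiableAt, hWn.ae_differentiableAt] with
      t hjt d0 d1 d2 dp dn ht
    have h4 := s7_deriv_cs μ hg hG hG2 d0 d1 d2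
    have n2 : 0 ≤ deriv F2 t := m2.deriv_nonneg
    rw [← beq] at d0 h4
    have n0 : 0 ≤ deriv b t := bmono.deriv_nonneg
    have dW : DifferentiableAt ℝ FW t := by
      rw [hFWe]
      exact dp.sub dn
    have hcomp : HasDerivAt (fun x => S (b x) x)
        (Sa (b t) t * deriv b t + St (b t) t) t := by
      have h5 := HasFDerivAt.comp_hasDerivAt (f := fun x => (b x, x)) t
        (hS t (b t) ht.1.le ht.2.le le_rfl (bV t)) (d0.hasDerivAt.prodMk (hasDerivAt_id t))
      exact h5.congr_deriv (by simp)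
    have hΦd : HasDerivAt Φ (deriv FW t + c * deriv F2 t -
        (Sa (b t) t * deriv b t + St (b t) t) + K) t := by
      have h6 := ((dW.hasDerivAt.add (d2.hasDerivAt.const_mul c)).sub hcomp).add
        ((hasDerivAt_id t).const_mul K)
      rw [mul_one] at h6
      exact h6
    rw [hΦd.deriv]
    -- deriv FW ≥ m b'
    have hWd : m t * deriv b t ≤ deriv FW t := by
      have e0 := (hasDerivAt_iff_tendsto_slope.1 d0.hasDerivAt).mono_left
        (nhdsWithin_mono t (fun x (hx : x ∈ Ioi t) => (ne_of_gt hx : x ≠ t)))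
      have e1 := (hasDerivAt_iff_tendsto_slope.1 dW.hasDerivAt).mono_left
        (nhdsWithin_mono t (fun x (hx : x ∈ Ioi t) => (ne_of_gt hx : x ≠ t)))
      have e2 : Tendsto (fun x => m t - L * (x - t)) (𝓝[>] t) (𝓝 (m t)) := by
        have : Tendsto (fun x => m t - L * (x - t)) (𝓝 t) (𝓝 (m t - L * (t - t))) := by
          apply Continuous.tendsto
          fun_prop
        rw [sub_self, mul_zero, sub_zero] at this
        exact this.mono_left nhdsWithin_le_nhds
      refine le_of_tendsto_of_tendsto (e2.mul e0) e1 ?_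
      have hnear : ∀ᶠ x in 𝓝[>] t, x ∈ Ioo t r1 := Ioo_mem_nhdsGT ht.2
      filter_upwards [hnear] with x hx
      have e3 := s7N_W μ hg hW hL hm mL ht.1.le hx.1.le hx.2.le
      rw [← hb, ← hFW] at e3
      have e4 : 0 < x - t := sub_pos.2 hx.1
      simp only [slope, vsub_eq_sub, smul_eq_mul]
      rw [← mul_assoc, mul_comm _ ((x - t)⁻¹), mul_assoc]
      exact mul_le_mul_of_nonneg_left e3 (inv_nonneg.2 e4.le)
    have hx0 : 0 ≤ (m t - Sa (b t) t) * deriv b t :=
      mul_nonneg (sub_nonneg.2 (hSa t (b t) ht.1.le ht.2.le le_rfl (bV t))) n0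
    have hy0 : 0 ≤ c * deriv F2 t := mul_nonneg hc n2
    have hfin : St (b t) t ≤ (m t - Sa (b t) t) * deriv b t + c * deriv F2 t := by
      rcases hjt ht.1 ht.2 with h | h
      · linarith
      · have h7 : c * deriv (s7F μ g G) t ^ 2 * (m t - Sa (b t) t) ≤
            (m t - Sa (b t) t) * deriv b t * (c * deriv F2 t) := by
          have h8 : c * deriv (s7F μ g G) t ^ 2 * (m t - Sa (b t) t) ≤
              c * (deriv F2 t * deriv b t) * (m t - Sa (b t) t) :=
            mul_le_mul_of_nonneg_right (mul_le_mul_of_nonneg_left h4 hc)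
              (sub_nonneg.2 (hSa t (b t) ht.1.le ht.2.le le_rfl (bV t)))
          calc _ ≤ _ := h8
            _ = _ := by ring
        have h9 : St (b t) t ^ 2 ≤ ((m t - Sa (b t) t) * deriv b t + c * deriv F2 t) ^ 2 := by
          nlinarith [sq_nonneg ((m t - Sa (b t) t) * deriv b t - c * deriv F2 t)]
        exact (le_abs_self _).trans (abs_le_of_sq_le_sq h9 (by linarith))
    have h10 : (m t - Sa (b t) t) * deriv b t = m t * deriv b t - Sa (b t) t * deriv b t := by
      ring
    linarith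
  have hlow : K * (r1 - r0) ≤ ∫ t in r0..r1, deriv Φ t := by
    have h1 : ∫ _t in r0..r1, K = K * (r1 - r0) := by
      rw [intervalIntegral.integral_const, smul_eq_mul, mul_comm]
    rw [← h1, intervalIntegral.integral_of_le hr, intervalIntegral.integral_of_le hr,
      ← integral_Ioc_eq_integral_Ioo.symm, ← integral_Ioc_eq_integral_Ioo.symm]
    refine setIntegral_mono_on_ae (by simp) ?_ measurableSet_Ioo key
    exact ((intervalIntegrable_iff_integrableOn_Ioc_of_le hr).1 hdint).mono_set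
      Ioo_subset_Ioc_self
  have hfin : H r0 ≤ H r1 := by
    have := hint.2
    simp only [hΦ] at this
    linarith
  have hsplit : (∫ o in {o | r0 ≤ g o ∧ g o < r1}, (W o + c * G o ^ 2) ∂μ) =
      (FW r1 - FW r0) + c * (F2 r1 - F2 r0) := by
    rw [hFW, hF2, s7F_sub μ hg hW hr, s7F_sub μ hg hG2 hr, ← integral_const_mul,
      ← integral_add hW.integrableOn (hG2.const_mul c).integrableOn]
  rw [hsplit]
  simp only [hH] at hfin
  linarith

end main

end Pool.Agent.FPX
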