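import Mathlib
import Pool.Agent.EWD.Defs
import Pool.Agent.FPX.S7Defs
import Pool.Agent.FPX.S7B
import Pool.Agent.FPX.S7G
import Pool.Agent.FPX.S7N

/-
FPX, S7H (helper82): the nonlinear level set lemma on the surface.
-/

open MeasureTheory Set Filter Topology
open scoped ENNReal NNReal

noncomputable section

namespace Pool.Agent.FPX

open Pool.Agent.EWD

variable {M : Type} [MetricSpace M] {γ : ℝ → M} (C : Calc M γ)

/-- measurable representatives: outside a measurable null set everything is true pointwise -/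
theorem s7_rep {g : M → ℝ} (hg : Lip g) {P : Om → Prop} (hP : ∀ᵐ o ∂C.μ, P o) (r : ℝ) :
    ∃ (N : Set Om) (g' G' : Om → ℝ), C.μ N = 0 ∧ Measurable g' ∧ Measurable G' ∧
      (∀ o, 0 ≤ G' o) ∧ (∀ o ∈ N, g' o = r) ∧
      (∀ o ∉ N, P o ∧ g' o = g (C.pt o) ∧ G' o = gn C g o) := by
  have h1 := (aem_pt C hg).ae_eq_mk
  have h2 := (aem_gn C hg).ae_eq_mk
  set g1 := (aem_pt C hg).mk _ with hg1
  set G1 := (aem_gn C hg).mk _ with hG1
  have m1 : Measurable g1 := (aem_pt C hg).measurable_mk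
  have m2 : Measurable G1 := (aem_gn C hg).measurable_mk
  have hall : ∀ᵐ o ∂C.μ, P o ∧ g (C.pt o) = g1 o ∧ gn C g o = G1 o := by
    filter_upwards [hP, h1, h2] with o a b c using ⟨a, b, c⟩
  set N0 := {o | ¬ (P o ∧ g (C.pt o) = g1 o ∧ gn C g o = G1 o)} with hN0
  have hN : C.μ N0 = 0 := hall
  set N := toMeasurable C.μ N0 with hNdef
  have hNm : MeasurableSet N := measurableSet_toMeasurable _ _
  have hN' : C.μ N = 0 := by rw [measure_toMeasurable, hN]
  classical
  refine ⟨N, fun o => if o ∈ N then r else g1 o, fun o => if o ∈ N then 0 else |G1 o|, hN',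
    Measurable.ite hNm measurable_const m1, Measurable.ite hNm measurable_const m2.abs, ?_, ?_, ?_⟩
  · intro o
    dsimp only
    split_ifs
    · exact le_rfl
    · exact abs_nonneg _
  · intro o ho
    simp [ho]
  · intro o ho
    have h3 : o ∉ N0 := fun h => ho (subset_toMeasurable _ _ h)
    have h4 : P o ∧ g (C.pt o) = g1 o ∧ gn C g o = G1 o := by
      by_contra h
      exact h3 h
    refine ⟨h4.1, ?_, ?_⟩
    · simp [ho, h4.2.1]
    · simp only [ho, if_false]
      rw [← h4.2.2, abs_of_nonneg (gn_nonneg C g o)]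

/-- **Nonlinear level set lemma on the surface.** -/
theorem s7_hj_calc {κ ε : ℝ} (hI : Isop C κ ε) {g : M → ℝ} (hg : Lip g) (he : EvenB γ g)
    {W : Om → ℝ} (hW : Integrable W C.μ) {r0 r1 c L : ℝ} (hr : r0 ≤ r1) (hc : 0 ≤ c) (hL : 0 ≤ L)
    {m : ℝ → ℝ} (hm : ∀ᵐ o ∂C.μ, r0 ≤ g (C.pt o) → g (C.pt o) < r1 → m (g (C.pt o)) ≤ W o)
    (mL : ∀ s t, r0 ≤ s → s ≤ t → t ≤ r1 → m s - L * (t - s) ≤ m t)
    {S Sa St : ℝ → ℝ → ℝ}
    (hS : ∀ t a, r0 ≤ t → t ≤ r1 → inf' C g t ≤ a → a ≤ C.vol →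
      HasFDerivAt (fun z : ℝ × ℝ => S z.1 z.2)
        (Sa a t • ContinuousLinearMap.fst ℝ ℝ ℝ + St a t • ContinuousLinearMap.snd ℝ ℝ ℝ) (a, t))
    (hSt : ∀ t a, r0 ≤ t → t ≤ r1 → inf' C g t ≤ a → a ≤ C.vol → |St a t| ≤ L)
    (hSa : ∀ t a, r0 ≤ t → t ≤ r1 → inf' C g t ≤ a → a ≤ C.vol → Sa a t ≤ m t)
    (hj : ∀ t, r0 < t → t < r1 → St (inf' C g t) t ≤ 0 ∨
      St (inf' C g t) t ^ 2 ≤ 4 * (c * (κ * (min (inf' C g t) (C.vol - inf' C g t) - ε)) *
        (m t - Sa (inf' C g t) t))) :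
    S (inf' C g r1) r1 - S (inf' C g r0) r0 ≤
      ∫ o in {o | r0 ≤ g (C.pt o) ∧ g (C.pt o) < r1}, (W o + c * gn C g o ^ 2) ∂C.μ := by
  have := C.fin
  obtain ⟨N, g', G', hN, mg, mG, G0, hgN, hall⟩ := s7_rep C hg hm r1
  have hae : ∀ᵐ o ∂C.μ, o ∉ N := measure_eq_zero_iff_ae_notMem.1 hN
  have hGe : G' =ᵐ[C.μ] gn C g := by
    filter_upwards [hae] with o ho using (hall o ho).2.2
  have hge : g' =ᵐ[C.μ] fun o => g (C.pt o) := by
    filter_upwards [hae] with o ho using (hall o ho).2.1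
  have hset : ∀ t : ℝ, {o | g' o < t} =ᵐ[C.μ] {o | g (C.pt o) < t} := fun t => by
    filter_upwards [hge] with o ho
    exact propext (by change g' o < t ↔ g (C.pt o) < t; rw [ho])
  have hb : s7b C.μ g' = inf' C g := by
    funext t
    rw [s7b, Measure.real, measure_congr (hset t), inf']
  have hF : s7F C.μ g' G' = lev C g := by
    funext t
    rw [s7F, lev, setIntegral_congr_set (hset t)]
    exact integral_congr_ae (ae_restrict_of_ae hGe)
  have key := s7_hj (μ := C.μ) (g := g') (G := G') mg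
    ((int_gn C hg).congr hGe.symm) G0
    ((int_gn_sq C hg).congr (by filter_upwards [hGe] with o ho; rw [ho])) hW hr hc hL
    (m := m) (fun o h0 h1 => by
      by_cases ho : o ∈ N
      · rw [hgN o ho] at h1
        exact absurd h1 (lt_irrefl _)
      · have h2 := hall o ho
        rw [h2.2.1] at h0 h1 ⊢
        exact h2.1 h0 h1) mL (S := S) (Sa := Sa) (St := St)
    (by rw [hb]; exact hS) (by rw [hb]; exact hSt) (by rw [hb]; exact hSa)
    (by
      rw [hb, hF]
      filter_upwards [hI g hg he] with t ht h0 h1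
      rcases hj t h0 h1 with h2 | h2
      · exact Or.inl h2
      · refine Or.inr (h2.trans ?_)
        have h3 : κ * (min (inf' C g t) (C.vol - inf' C g t) - ε) ≤ deriv (lev C g) t ^ 2 := by
          have h4 := ht.2
          rwa [sup_inf C hg, min_comm, sub_sub_cancel] at h4
        have h5 : 0 ≤ m t - Sa (inf' C g t) t := by
          have := hSa t (inf' C g t) h0.le h1.le le_rfl (by
            rw [← hb]
            exact s7b_le C.μ t)
          linarith
        gcongr)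
  rw [hb] at key
  refine key.trans_eq ?_
  have hset2 : {o | r0 ≤ g' o ∧ g' o < r1} =ᵐ[C.μ] {o | r0 ≤ g (C.pt o) ∧ g (C.pt o) < r1} := by
    filter_upwards [hge] with o ho
    exact propext (by change (r0 ≤ g' o ∧ g' o < r1) ↔ _; rw [ho]; rfl)
  rw [setIntegral_congr_set hset2]
  refine integral_congr_ae (ae_restrict_of_ae ?_)
  filter_upwards [hGe] with o ho
  rw [ho]

/-- the lower bound of the area of `{g < t}` -/
theorem growth_min {κ ε : ℝ} (hI : Isop C κ ε) (hκ : 0 ≤ κ) {g : M → ℝ} {L : ℝ≥0}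
    (hg : LipschitzWith L g) (hL : 0 < L) (he : EvenB γ g) {t₀ t : ℝ} (h01 : t₀ ≤ t)
    (h0 : ε < inf' C g t₀) :
    min (C.vol / 2) (κ / (4 * L ^ 2) * (t - t₀) ^ 2 + ε) ≤ inf' C g t := by
  rcases le_total (inf' C g t) (C.vol / 2) with h | h
  · have := growth C hI hκ hg hL he h01 h0 h
    exact (min_le_right _ _).trans (by linarith)
  · exact (min_le_left _ _).trans h

end Pool.Agent.FPX
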