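import Mathlib

/-
UMPDefs (helper8): helper92's universal map, definitions (pure real analysis, no surface).
`f` is an odd 1-Lipschitz function of the circle with `|f| < π/2`,
`V = (∫ cos t R(f), ∫ sin t R(f); (1/2) ∫ sec² f)` with `R' = sec³`, `F = (X, Y, √(1 - X² - Y²))` with
`(X, Y) = (V₁, V₂)/V₀`.
-/

open MeasureTheory Set Filter Topology
open scoped ENNReal NNReal

noncomputable section

namespace Pool.Agent.FPX.UMP

/-- odd 1-Lipschitz functions of the circle with values in `(-π/2, π/2)` -/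
structure Ef (f : ℝ → ℝ) : Prop where
  lip : LipschitzWith 1 f
  odd : ∀ t, f (t + Real.pi) = -f t
  lt : ∀ t, |f t| < Real.pi / 2

/-- `∫₀ˢ sec³` -/
def RR (s : ℝ) : ℝ := (Real.tan s / Real.cos s + Real.arsinh (Real.tan s)) / 2

/-- `(1/2) ∫ sec² f` -/
def V0 (f : ℝ → ℝ) : ℝ := (1 / 2) * ∫ t in (0 : ℝ)..(2 * Real.pi), 1 / Real.cos (f t) ^ 2

/-- `∫ cos t R(f t)` -/
def V1 (f : ℝ → ℝ) : ℝ := ∫ t in (0 : ℝ)..(2 * Real.pi), Real.cos t * RR (f t)

/-- `∫ sin t R(f t)` -/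
def V2 (f : ℝ → ℝ) : ℝ := ∫ t in (0 : ℝ)..(2 * Real.pi), Real.sin t * RR (f t)

/-- first coordinate of the universal map -/
def F1 (f : ℝ → ℝ) : ℝ := V1 f / V0 f

/-- second coordinate of the universal map -/
def F2 (f : ℝ → ℝ) : ℝ := V2 f / V0 f

/-- square of the third coordinate of the universal map -/
def zz (f : ℝ → ℝ) : ℝ := 1 - F1 f ^ 2 - F2 f ^ 2

/-- the energy bound of the universal map: `∫ sec² f τ² ≤ c ∫ sec² f`, where
`τ = (sin f - ⟨X, u⟩) / (z cos f)` -/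
def UStar (c : ℝ) : Prop := ∀ f, Ef f →
  ∫ t in (0 : ℝ)..(2 * Real.pi),
    (Real.sin (f t) - F1 f * Real.cos t - F2 f * Real.sin t) ^ 2 / Real.cos (f t) ^ 4
  ≤ c * zz f * ∫ t in (0 : ℝ)..(2 * Real.pi), 1 / Real.cos (f t) ^ 2

/-- the same bound in the frame in which the area vector is vertical, for functions with finitely
many zeros -/
def SStar (c : ℝ) : Prop := ∀ g, Ef g → ContDiff ℝ 1 g → (Icc 0 (2 * Real.pi) ∩ {t | g t = 0}).Finite →
  V1 g = 0 → V2 g = 0 → ∀ a b : ℝ, a ^ 2 + b ^ 2 ≤ 1 →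
  (∫ t in (0 : ℝ)..(2 * Real.pi), (Real.tan (g t) ^ 2 - c) / Real.cos (g t) ^ 2)
    + (∫ t in (0 : ℝ)..(2 * Real.pi),
        Real.tan (g t) / Real.cos (g t) ^ 3 * (a * Real.cos t + b * Real.sin t)) ≤ 0

end Pool.Agent.FPX.UMP
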