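import Mathlib
import Pool.Agent.FPX.UMPDefs

/-
UMP1 (helper8): the area vector of an odd 1-Lipschitz function is timelike; calculus of `RR`.
-/

open MeasureTheory Set Filter Topology
open scoped ENNReal NNReal

noncomputable section

namespace Pool.Agent.FPX.UMP

open Real

/-! ### the functions `RR` and `arsinh ∘ tan` -/

theorem hasDerivAt_at {s : ℝ} (hs : 0 < cos s) :
    HasDerivAt (fun s => arsinh (tan s)) (1 / cos s) s := by
  have h1 := Real.hasDerivAt_tan hs.ne'
  have h2 := (Real.hasDerivAt_arsinh (tan s)).comp s h1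
  refine h2.congr_deriv ?_
  have h3 : 1 + tan s ^ 2 = (1 / cos s) ^ 2 := by
    rw [tan_eq_sin_div_cos]
    field_simp
    nlinarith [sin_sq_add_cos_sq s]
  rw [h3, sqrt_sq (by positivity)]
  field_simp

theorem hasDerivAt_RR {s : ℝ} (hs : 0 < cos s) : HasDerivAt RR (1 / cos s ^ 3) s := by
  have h1 := Real.hasDerivAt_tan hs.ne'
  have h2 := h1.div (hasDerivAt_cos s) hs.ne'
  have h3 := (h2.add (hasDerivAt_at hs)).div_const 2
  unfold RR
  refine h3.congr_deriv ?_
  rw [tan_eq_sin_div_cos]
  field_simp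
  nlinarith [sin_sq_add_cos_sq s]

theorem hasDerivAt_sec2 {s : ℝ} (hs : 0 < cos s) :
    HasDerivAt (fun s => 1 / cos s ^ 2) (2 * sin s / cos s ^ 3) s := by
  have h1 := ((hasDerivAt_cos s).pow 2)
  have h2 := (hasDerivAt_const s (1 : ℝ)).div h1 (pow_ne_zero 2 hs.ne')
  refine h2.congr_deriv ?_
  simp only [Pi.pow_apply]
  field_simp
  ring

namespace Ef

variable {f : ℝ → ℝ}

theorem cont (h : Ef f) : Continuous f := h.lip.continuous

theorem abs_sub (h : Ef f) (s t : ℝ) : |f s - f t| ≤ |s - t| := by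
  have := h.lip.dist_le_mul s t
  simpa [Real.dist_eq] using this

theorem per (h : Ef f) (t : ℝ) : f (t + 2 * π) = f t := by
  have h1 := h.odd (t + π)
  rw [h.odd t, neg_neg] at h1
  rw [← h1]
  congr 1
  ring

theorem cos_pos (h : Ef f) (t : ℝ) : 0 < cos (f t) := by
  have := abs_lt.1 (h.lt t)
  exact cos_pos_of_mem_Ioo ⟨this.1, this.2⟩

theorem exists_bd (h : Ef f) : ∃ m, 0 ≤ m ∧ m < π / 2 ∧ ∀ t, |f t| ≤ m := by
  obtain ⟨t₀, -, ht₀⟩ := (isCompact_Icc (a := (0 : ℝ)) (b := 2 * π)).exists_isMaxOn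
    ⟨0, by constructor <;> [exact le_rfl; positivity]⟩ h.cont.abs.continuousOn
  refine ⟨|f t₀|, abs_nonneg _, h.lt t₀, fun t => ?_⟩
  have hp : Function.Periodic f (2 * π) := h.per
  obtain ⟨s, hs, hst⟩ := hp.exists_mem_Ico₀ (by positivity) t
  rw [hst]
  exact ht₀ ⟨hs.1, hs.2.le⟩

theorem cosm {m : ℝ} (hm0 : 0 ≤ m) (hm : m < π / 2) {y : ℝ} (hy : |y| ≤ m) : cos m ≤ cos y := by
  rw [← cos_abs y]
  exact cos_le_cos_of_nonneg_of_le_pi (abs_nonneg _) (by linarith [pi_pos]) hy

/-- `1/cos² f` is continuous -/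
theorem cont_sec2 (h : Ef f) : Continuous fun t => 1 / cos (f t) ^ 2 :=
  continuous_const.div ((continuous_cos.comp h.cont).pow 2) fun t => pow_ne_zero 2 (h.cos_pos t).ne'

theorem cont_tan (h : Ef f) : Continuous fun t => tan (f t) := by
  have : (fun t => tan (f t)) = fun t => sin (f t) / cos (f t) := by
    ext t
    rw [tan_eq_sin_div_cos]
  rw [this]
  exact (continuous_sin.comp h.cont).div (continuous_cos.comp h.cont) fun t => (h.cos_pos t).ne'

theorem cont_at (h : Ef f) : Continuous fun t => arsinh (tan (f t)) :=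
  continuous_arsinh.comp h.cont_tan

theorem cont_RR (h : Ef f) : Continuous fun t => RR (f t) := by
  unfold RR
  exact ((h.cont_tan.div (continuous_cos.comp h.cont) fun t => (h.cos_pos t).ne').add
    h.cont_at).div_const 2

theorem V0_ge (h : Ef f) : π ≤ V0 f := by
  unfold V0
  have h1 : ∫ t in (0 : ℝ)..(2 * π), (1 : ℝ) ≤ ∫ t in (0 : ℝ)..(2 * π), 1 / cos (f t) ^ 2 := by
    refine intervalIntegral.integral_mono (by positivity) intervalIntegrable_const
      (h.cont_sec2.intervalIntegrable _ _) fun t => ?_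
    simp only
    rw [le_div_iff₀ (pow_pos (h.cos_pos t) 2)]
    nlinarith [h.cos_pos t, cos_le_one (f t)]
  rw [intervalIntegral.integral_const] at h1
  simp only [sub_zero, smul_eq_mul, mul_one] at h1
  linarith

theorem V0_pos (h : Ef f) : 0 < V0 f := lt_of_lt_of_le pi_pos h.V0_ge

/-- `arsinh ∘ tan ∘ f` is Lipschitz -/
theorem lip_at (h : Ef f) : ∃ K : ℝ≥0, LipschitzWith K fun t => arsinh (tan (f t)) := by
  obtain ⟨m, hm0, hm, hf⟩ := h.exists_bd
  have hc : 0 < cos m := cos_pos_of_mem_Ioo ⟨by linarith, hm⟩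
  refine ⟨⟨1 / cos m, by positivity⟩, LipschitzWith.of_dist_le_mul fun s t => ?_⟩
  rw [Real.dist_eq, Real.dist_eq]
  have h1 : ‖arsinh (tan (f s)) - arsinh (tan (f t))‖ ≤ 1 / cos m * ‖f s - f t‖ := by
    refine (convex_Icc (-m) m).norm_image_sub_le_of_norm_hasDerivWithin_le
      (f := fun s => arsinh (tan s)) (f' := fun s => 1 / cos s) (fun x hx => ?_) (fun x hx => ?_)
      (abs_le.1 (hf t)) (abs_le.1 (hf s))
    · exact (hasDerivAt_at (lt_of_lt_of_le hc (cosm hm0 hm (abs_le.2 hx)))).hasDerivWithinAt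
    · have := cosm hm0 hm (abs_le.2 hx)
      rw [Real.norm_eq_abs, abs_of_pos (by have := lt_of_lt_of_le hc this; positivity)]
      exact one_div_le_one_div_of_le hc this
  rw [Real.norm_eq_abs, Real.norm_eq_abs] at h1
  refine h1.trans ?_
  exact mul_le_mul_of_nonneg_left (h.abs_sub s t) (by positivity)

/-- integration by parts -/
theorem int_at (h : Ef f) (a b : ℝ) :
    ∫ t in (0 : ℝ)..(2 * π), arsinh (tan (f t)) * (a * cos t + b * sin t)
      ≤ ∫ t in (0 : ℝ)..(2 * π), 1 / cos (f t) * |a * sin t - b * cos t| := by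
  obtain ⟨K, hK⟩ := h.lip_at
  have hA : AbsolutelyContinuousOnInterval (fun t => arsinh (tan (f t))) 0 (2 * π) :=
    hK.lipschitzOnWith.absolutelyContinuousOnInterval
  have hw : ∀ t, HasDerivAt (fun t => a * sin t - b * cos t) (a * cos t + b * sin t) t := by
    intro t
    refine (((hasDerivAt_sin t).const_mul a).sub ((hasDerivAt_cos t).const_mul b)).congr_deriv ?_
    ring
  have hW : AbsolutelyContinuousOnInterval (fun t => a * sin t - b * cos t) 0 (2 * π) := by
    refine ContDiffOn.absolutelyContinuousOnInterval ?_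
    exact ContDiff.contDiffOn (by fun_prop)
  have key := hA.integral_mul_deriv_eq_deriv_mul hW
  have e1 : ∀ t, deriv (fun t => a * sin t - b * cos t) t = a * cos t + b * sin t :=
    fun t => (hw t).deriv
  simp only [e1] at key
  rw [key]
  have e2 : arsinh (tan (f (2 * π))) = arsinh (tan (f 0)) := by
    have := h.per 0
    rw [zero_add] at this
    rw [this]
  rw [e2, sin_two_pi, cos_two_pi, sin_zero, cos_zero, sub_self, zero_sub, ← intervalIntegral.integral_neg]
  have hi : IntervalIntegrable (fun t => -(deriv (fun t => arsinh (tan (f t))) t * (a * sin t - b * cos t)))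
      volume 0 (2 * π) :=
    (hA.intervalIntegrable_deriv.mul_continuousOn hW.continuousOn).neg
  refine intervalIntegral.integral_mono_ae (by positivity) hi ?_ ?_
  · refine Continuous.intervalIntegrable ?_ _ _
    exact (continuous_const.div (continuous_cos.comp h.cont) fun t => (h.cos_pos t).ne').mul
      (by fun_prop)
  · filter_upwards [h.lip.ae_differentiableAt_real] with t ht
    have h1 : HasDerivAt (fun t => arsinh (tan (f t))) (1 / cos (f t) * deriv f t) t :=
      (hasDerivAt_at (h.cos_pos t)).comp t ht.hasDerivAt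
    have h2 : |deriv f t| ≤ 1 := by
      have := norm_deriv_le_of_lipschitz (x₀ := t) h.lip
      simpa using this
    rw [h1.deriv]
    have hp := h.cos_pos t
    calc -(1 / cos (f t) * deriv f t * (a * sin t - b * cos t))
        ≤ |-(1 / cos (f t) * deriv f t * (a * sin t - b * cos t))| := le_abs_self _
      _ = 1 / cos (f t) * |deriv f t| * |a * sin t - b * cos t| := by
          rw [abs_neg, abs_mul, abs_mul, abs_of_pos (by positivity : 0 < 1 / cos (f t))]
      _ ≤ 1 / cos (f t) * 1 * |a * sin t - b * cos t| := by gcongr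
      _ = 1 / cos (f t) * |a * sin t - b * cos t| := by rw [mul_one]

theorem cont_sec (h : Ef f) : Continuous fun t => 1 / cos (f t) :=
  continuous_const.div (continuous_cos.comp h.cont) fun t => (h.cos_pos t).ne'

theorem tl (h : Ef f) (a b : ℝ) :
    (1 / 2) * ∫ t in (0 : ℝ)..(2 * π),
      (1 - sin (f t) * (a * cos t + b * sin t) - cos (f t) * |a * sin t - b * cos t|) / cos (f t) ^ 2
      ≤ V0 f - a * V1 f - b * V2 f := by
  have hi := h.int_at a b
  have c1 : Continuous fun t => arsinh (tan (f t)) * (a * cos t + b * sin t) :=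
    h.cont_at.mul (by fun_prop)
  have c2 : Continuous fun t => 1 / cos (f t) * |a * sin t - b * cos t| :=
    h.cont_sec.mul (by fun_prop)
  have c3 : Continuous fun t => tan (f t) / cos (f t) * (a * cos t + b * sin t) :=
    (h.cont_tan.div (continuous_cos.comp h.cont) fun t => (h.cos_pos t).ne').mul (by fun_prop)
  have e1 : a * V1 f + b * V2 f = (1 / 2) * (∫ t in (0 : ℝ)..(2 * π),
      arsinh (tan (f t)) * (a * cos t + b * sin t))
      + (1 / 2) * ∫ t in (0 : ℝ)..(2 * π), tan (f t) / cos (f t) * (a * cos t + b * sin t) := by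
    unfold V1 V2
    rw [← intervalIntegral.integral_const_mul, ← intervalIntegral.integral_const_mul,
      ← intervalIntegral.integral_const_mul, ← intervalIntegral.integral_const_mul,
      ← intervalIntegral.integral_add, ← intervalIntegral.integral_add]
    · refine intervalIntegral.integral_congr fun t _ => ?_
      simp only [RR]
      ring
    · exact (continuous_const.mul c1).intervalIntegrable _ _
    · exact (continuous_const.mul c3).intervalIntegrable _ _
    · exact (continuous_const.mul (continuous_cos.mul h.cont_RR)).intervalIntegrable _ _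
    · exact (continuous_const.mul (continuous_sin.mul h.cont_RR)).intervalIntegrable _ _
  have e2 : ∫ t in (0 : ℝ)..(2 * π),
      (1 - sin (f t) * (a * cos t + b * sin t) - cos (f t) * |a * sin t - b * cos t|) / cos (f t) ^ 2
      = (∫ t in (0 : ℝ)..(2 * π), 1 / cos (f t) ^ 2)
        - (∫ t in (0 : ℝ)..(2 * π), tan (f t) / cos (f t) * (a * cos t + b * sin t))
        - ∫ t in (0 : ℝ)..(2 * π), 1 / cos (f t) * |a * sin t - b * cos t| := by
    rw [← intervalIntegral.integral_sub, ← intervalIntegral.integral_sub]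
    · refine intervalIntegral.integral_congr fun t _ => ?_
      have := h.cos_pos t
      simp only [tan_eq_sin_div_cos]
      field_simp
    · exact (h.cont_sec2.sub c3).intervalIntegrable _ _
    · exact c2.intervalIntegrable _ _
    · exact h.cont_sec2.intervalIntegrable _ _
    · exact c3.intervalIntegrable _ _
  rw [e2]
  unfold V0
  linarith

theorem tl_pos (h : Ef f) {a b : ℝ} (hab : a ^ 2 + b ^ 2 = 1) : 0 < V0 f - a * V1 f - b * V2 f := by
  refine lt_of_lt_of_le ?_ (h.tl a b)
  refine mul_pos (by norm_num) ?_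
  have hn : ∀ t, 0 ≤ (1 - sin (f t) * (a * cos t + b * sin t)
      - cos (f t) * |a * sin t - b * cos t|) / cos (f t) ^ 2 := by
    intro t
    refine div_nonneg ?_ (by positivity)
    have h1 : (a * cos t + b * sin t) ^ 2 + |a * sin t - b * cos t| ^ 2 = 1 := by
      rw [sq_abs]
      nlinarith [sin_sq_add_cos_sq t]
    nlinarith [sq_nonneg (sin (f t) - (a * cos t + b * sin t)),
      sq_nonneg (cos (f t) - |a * sin t - b * cos t|), sin_sq_add_cos_sq (f t)]
  obtain ⟨t₀, ht₀, hc, hs⟩ : ∃ t₀ ∈ Icc 0 (2 * π), cos t₀ = a ∧ sin t₀ = b := by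
    have h1 : ‖(⟨a, b⟩ : ℂ)‖ = 1 := by
      rw [Complex.norm_def, Complex.normSq_mk]
      have : a * a + b * b = 1 := by nlinarith
      rw [this, sqrt_one]
    have h2 := Complex.norm_mul_cos_arg (⟨a, b⟩ : ℂ)
    have h3 := Complex.norm_mul_sin_arg (⟨a, b⟩ : ℂ)
    rw [h1, one_mul] at h2 h3
    simp only at h2 h3
    rcases le_or_gt 0 (Complex.arg ⟨a, b⟩) with h0 | h0
    · exact ⟨_, ⟨h0, by linarith [Complex.arg_le_pi ⟨a, b⟩, pi_pos]⟩, h2, h3⟩
    · refine ⟨Complex.arg ⟨a, b⟩ + 2 * π, ⟨by linarith [Complex.neg_pi_lt_arg ⟨a, b⟩, pi_pos],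
        by linarith⟩, ?_, ?_⟩
      · rw [cos_add_two_pi, h2]
      · rw [sin_add_two_pi, h3]
  refine intervalIntegral.integral_pos (by positivity) ?_ (fun t _ => hn t) ⟨t₀, ht₀, ?_⟩
  · refine Continuous.continuousOn ?_
    refine Continuous.div ?_ ((continuous_cos.comp h.cont).pow 2)
      fun t => pow_ne_zero 2 (h.cos_pos t).ne'
    exact (continuous_const.sub ((continuous_sin.comp h.cont).mul (by fun_prop))).sub
      ((continuous_cos.comp h.cont).mul (by fun_prop))
  · have e1 : a * cos t₀ + b * sin t₀ = 1 := by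
      rw [hc, hs]
      nlinarith
    have e2 : a * sin t₀ - b * cos t₀ = 0 := by
      rw [hc, hs]
      ring
    rw [e1, e2, abs_zero, mul_zero, sub_zero, mul_one]
    have hp := h.cos_pos t₀
    refine div_pos ?_ (by positivity)
    have : sin (f t₀) < 1 := by
      have h4 := sin_sq_add_cos_sq (f t₀)
      nlinarith [pow_pos hp 2, sin_le_one (f t₀)]
    linarith

theorem timelike (h : Ef f) : V1 f ^ 2 + V2 f ^ 2 < V0 f ^ 2 := by
  rcases eq_or_lt_of_le (by positivity : 0 ≤ V1 f ^ 2 + V2 f ^ 2) with h0 | h0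
  · rw [← h0]
    exact pow_pos h.V0_pos 2
  · set r := √(V1 f ^ 2 + V2 f ^ 2) with hr
    have hr0 : 0 < r := sqrt_pos.2 h0
    have hr2 : r ^ 2 = V1 f ^ 2 + V2 f ^ 2 := sq_sqrt h0.le
    have h1 := h.tl_pos (a := V1 f / r) (b := V2 f / r) (by field_simp; linarith)
    have h2 : V1 f / r * V1 f + V2 f / r * V2 f = r := by
      field_simp
      linarith
    have h3 : r < V0 f := by linarith
    rw [← hr2]
    exact pow_lt_pow_left₀ h3 hr0.le two_ne_zero

theorem zz_pos (h : Ef f) : 0 < zz f := by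
  have h1 := h.timelike
  have h2 := h.V0_pos
  have e : zz f = (V0 f ^ 2 - V1 f ^ 2 - V2 f ^ 2) / V0 f ^ 2 := by
    unfold zz F1 F2
    field_simp
  rw [e]
  exact div_pos (by linarith) (by positivity)

end Ef

end Pool.Agent.FPX.UMP
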