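import Mathlib
import Pool.Agent.FPX.UMP1

/-
UMP3 (helper8): change of frame (Lorentz boost) for the area vector: the bound `UStar c` follows from
the bound in the frame where the area vector is vertical.
-/

open MeasureTheory Set Filter Topology
open scoped ENNReal NNReal

noncomputable section

namespace Pool.Agent.FPX.UMP

open Real

/-- the bound in the frame of the area vector: `∫ sec² g (c - tan² g) (1 - ⟨b, z⟩) ≥ 0` with
`z = sin g u + cos g g' u^⊥` -/
def NStar (c : ℝ) : Prop := ∀ g g' : ℝ → ℝ, Ef g → (∀ t, HasDerivAt g (g' t) t) → Continuous g' →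
  V1 g = 0 → V2 g = 0 → ∀ a b : ℝ, a ^ 2 + b ^ 2 ≤ 1 →
  0 ≤ ∫ t in (0 : ℝ)..(2 * π), (c - tan (g t) ^ 2) / cos (g t) ^ 2 *
    (1 - a * (sin (g t) * cos t - cos (g t) * g' t * sin t)
      - b * (sin (g t) * sin t + cos (g t) * g' t * cos t))

section
variable {f f' : ℝ → ℝ}

theorem parts1 (h : Ef f) (hd : ∀ t, HasDerivAt f (f' t) t) (hc : Continuous f') :
    ∫ t in (0 : ℝ)..(2 * π), (sin (f t) * cos t - cos (f t) * f' t * sin t) / cos (f t) ^ 2 = 2 * V1 f := by
  have c1 : Continuous fun t => 1 / cos (f t) * f' t := h.cont_sec.mul hc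
  have k := intervalIntegral.integral_mul_deriv_eq_deriv_mul (a := 0) (b := 2 * π)
    (u := fun t => arsinh (tan (f t))) (v := fun t => sin t) (u' := fun t => 1 / cos (f t) * f' t)
    (v' := fun t => cos t) (fun t _ => (hasDerivAt_at (h.cos_pos t)).comp t (hd t))
    (fun t _ => hasDerivAt_sin t) (c1.intervalIntegrable _ _) (continuous_cos.intervalIntegrable _ _)
  rw [sin_two_pi, sin_zero, mul_zero, mul_zero, sub_zero, zero_sub] at k
  have c2 : Continuous fun t => arsinh (tan (f t)) * cos t := h.cont_at.mul continuous_cos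
  have c3 : Continuous fun t => tan (f t) / cos (f t) * cos t :=
    (h.cont_tan.div (continuous_cos.comp h.cont) fun t => (h.cos_pos t).ne').mul continuous_cos
  have c4 : Continuous fun t => 1 / cos (f t) * f' t * sin t := c1.mul continuous_sin
  have e1 : 2 * V1 f = (∫ t in (0 : ℝ)..(2 * π), tan (f t) / cos (f t) * cos t)
      + ∫ t in (0 : ℝ)..(2 * π), arsinh (tan (f t)) * cos t := by
    unfold V1
    rw [← intervalIntegral.integral_const_mul, ← intervalIntegral.integral_add
      (c3.intervalIntegrable _ _) (c2.intervalIntegrable _ _)]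
    refine intervalIntegral.integral_congr fun t _ => ?_
    simp only [RR]
    ring
  rw [e1, k, ← sub_eq_add_neg, ← intervalIntegral.integral_sub (c3.intervalIntegrable _ _)
    (c4.intervalIntegrable _ _)]
  refine intervalIntegral.integral_congr fun t _ => ?_
  have := h.cos_pos t
  simp only [tan_eq_sin_div_cos]
  field_simp

theorem parts2 (h : Ef f) (hd : ∀ t, HasDerivAt f (f' t) t) (hc : Continuous f') :
    ∫ t in (0 : ℝ)..(2 * π), (sin (f t) * sin t + cos (f t) * f' t * cos t) / cos (f t) ^ 2 = 2 * V2 f := by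
  have c1 : Continuous fun t => 1 / cos (f t) * f' t := h.cont_sec.mul hc
  have k := intervalIntegral.integral_mul_deriv_eq_deriv_mul (a := 0) (b := 2 * π)
    (u := fun t => arsinh (tan (f t))) (v := fun t => -cos t) (u' := fun t => 1 / cos (f t) * f' t)
    (v' := fun t => sin t) (fun t _ => (hasDerivAt_at (h.cos_pos t)).comp t (hd t))
    (fun t _ => by
      have := (hasDerivAt_cos t).neg
      rw [neg_neg] at this
      exact this) (c1.intervalIntegrable _ _)
    (continuous_sin.intervalIntegrable _ _)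
  have e0 : f (2 * π) = f 0 := by
    have := h.per 0
    rwa [zero_add] at this
  rw [cos_two_pi, cos_zero, e0, sub_self, zero_sub] at k
  have c2 : Continuous fun t => arsinh (tan (f t)) * sin t := h.cont_at.mul continuous_sin
  have c3 : Continuous fun t => tan (f t) / cos (f t) * sin t :=
    (h.cont_tan.div (continuous_cos.comp h.cont) fun t => (h.cos_pos t).ne').mul continuous_sin
  have c4 : Continuous fun t => 1 / cos (f t) * f' t * -cos t := c1.mul continuous_cos.neg
  have e1 : 2 * V2 f = (∫ t in (0 : ℝ)..(2 * π), tan (f t) / cos (f t) * sin t)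
      + ∫ t in (0 : ℝ)..(2 * π), arsinh (tan (f t)) * sin t := by
    unfold V2
    rw [← intervalIntegral.integral_const_mul, ← intervalIntegral.integral_add
      (c3.intervalIntegrable _ _) (c2.intervalIntegrable _ _)]
    refine intervalIntegral.integral_congr fun t _ => ?_
    simp only [RR]
    ring
  rw [e1, k, ← sub_eq_add_neg, ← intervalIntegral.integral_sub (c3.intervalIntegrable _ _)
    (c4.intervalIntegrable _ _)]
  refine intervalIntegral.integral_congr fun t _ => ?_
  have := h.cos_pos t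
  simp only [tan_eq_sin_div_cos]
  field_simp
  ring

end

/-! ### the boost -/

/-- data of the boost -/
structure Bst (f f' : ℝ → ℝ) (ρ z : ℝ) : Prop where
  ef : Ef f
  hd : ∀ t, HasDerivAt f (f' t) t
  hc : Continuous f'
  rho0 : 0 ≤ ρ
  z0 : 0 < z
  rz : ρ ^ 2 + z ^ 2 = 1
  v2 : V2 f = 0
  v1 : V1 f = ρ * V0 f

variable {f f' : ℝ → ℝ} {ρ z : ℝ}

/-- new time coordinate -/
def bT (f : ℝ → ℝ) (ρ z t : ℝ) : ℝ := (sin (f t) - ρ * cos t) / (z * cos (f t))

/-- new first coordinate -/
def bP (f : ℝ → ℝ) (ρ z t : ℝ) : ℝ := (cos t - ρ * sin (f t)) / (z * cos (f t))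

/-- new second coordinate -/
def bQ (f : ℝ → ℝ) (t : ℝ) : ℝ := sin t / cos (f t)

/-- time component of `ξ × ξ'` in the new frame -/
def bC (f f' : ℝ → ℝ) (ρ z t : ℝ) : ℝ :=
  (1 - ρ * (sin (f t) * cos t - cos (f t) * f' t * sin t)) / (z * cos (f t) ^ 2)

/-- derivative of `bT` -/
def bT' (f f' : ℝ → ℝ) (ρ z t : ℝ) : ℝ :=
  (f' t * (1 - ρ * cos t * sin (f t)) + ρ * sin t * cos (f t)) / (z * cos (f t) ^ 2)

/-- derivative of `bP` -/
def bP' (f f' : ℝ → ℝ) (ρ z t : ℝ) : ℝ :=
  (-sin t * cos (f t) + (cos t * sin (f t) - ρ) * f' t) / (z * cos (f t) ^ 2)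

/-- derivative of `bQ` -/
def bQ' (f f' : ℝ → ℝ) (t : ℝ) : ℝ := (cos t * cos (f t) + sin t * sin (f t) * f' t) / cos (f t) ^ 2

namespace Bst

theorem one_add (h : Bst f f' ρ z) (t : ℝ) : 1 + bT f ρ z t ^ 2 = bP f ρ z t ^ 2 + bQ f t ^ 2 := by
  have hp := h.ef.cos_pos t
  have hz := h.z0
  unfold bT bP bQ
  have hs := sin_sq_add_cos_sq (f t)
  have ht := sin_sq_add_cos_sq t
  have hrz := h.rz
  field_simp
  have h1 : z ^ 2 = 1 - ρ ^ 2 := by linarith
  rw [h1]
  have h2 : cos (f t) ^ 2 = 1 - sin (f t) ^ 2 := by linarith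
  have h3 : cos t ^ 2 = 1 - sin t ^ 2 := by linarith
  nlinarith [h2, h3]

theorem dT (h : Bst f f' ρ z) (t : ℝ) : HasDerivAt (bT f ρ z) (bT' f f' ρ z t) t := by
  have hp := h.ef.cos_pos t
  have hz := h.z0
  have h1 := ((h.hd t).sin.sub ((hasDerivAt_cos t).const_mul ρ)).div ((h.hd t).cos.const_mul z)
    (mul_pos hz hp).ne'
  refine h1.congr_deriv ?_
  unfold bT'
  have hs := sin_sq_add_cos_sq (f t)
  simp only [Pi.sub_apply]
  field_simp
  linear_combination (f' t) * hs

theorem dP (h : Bst f f' ρ z) (t : ℝ) : HasDerivAt (bP f ρ z) (bP' f f' ρ z t) t := by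
  have hp := h.ef.cos_pos t
  have hz := h.z0
  have h1 := ((hasDerivAt_cos t).sub ((h.hd t).sin.const_mul ρ)).div ((h.hd t).cos.const_mul z)
    (mul_pos hz hp).ne'
  refine h1.congr_deriv ?_
  unfold bP'
  have hs := sin_sq_add_cos_sq (f t)
  simp only [Pi.sub_apply]
  field_simp
  linear_combination (-ρ * f' t) * hs

theorem dQ (h : Bst f f' ρ z) (t : ℝ) : HasDerivAt (bQ f) (bQ' f f' t) t := by
  have hp := h.ef.cos_pos t
  have h1 := (hasDerivAt_sin t).div (h.hd t).cos hp.ne'
  refine h1.congr_deriv ?_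
  unfold bQ'
  field_simp
  ring

theorem cross1 (h : Bst f f' ρ z) (t : ℝ) :
    bP f ρ z t * bQ' f f' t - bQ f t * bP' f f' ρ z t = bC f f' ρ z t := by
  have hp := h.ef.cos_pos t
  have hz := h.z0
  have hs := sin_sq_add_cos_sq (f t)
  have ht := sin_sq_add_cos_sq t
  unfold bP bQ bP' bQ' bC
  field_simp
  linear_combination cos (f t) * ht - (ρ * sin t * f' t) * hs

/-- first component of `ξ × ξ'` in the new frame -/
theorem cross2 (h : Bst f f' ρ z) (t : ℝ) :
    bT f ρ z t * bQ' f f' t - bT' f f' ρ z t * bQ f t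
      = ((sin (f t) * cos t - cos (f t) * f' t * sin t) / cos (f t) ^ 2 - ρ * (1 / cos (f t) ^ 2)) / z := by
  have hp := h.ef.cos_pos t
  have hz := h.z0
  have hs := sin_sq_add_cos_sq (f t)
  have ht := sin_sq_add_cos_sq t
  unfold bT bQ bT' bQ'
  field_simp
  linear_combination (-ρ * cos (f t)) * ht + (sin t * f' t) * hs

/-- second component of `ξ × ξ'` in the new frame -/
theorem cross3 (h : Bst f f' ρ z) (t : ℝ) :
    bT' f f' ρ z t * bP f ρ z t - bT f ρ z t * bP' f f' ρ z t
      = (sin (f t) * sin t + cos (f t) * f' t * cos t) / cos (f t) ^ 2 := by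
  have hp := h.ef.cos_pos t
  have hz := h.z0
  have hs := sin_sq_add_cos_sq (f t)
  have ht := sin_sq_add_cos_sq t
  have hrz := h.rz
  unfold bT bP bT' bP'
  have h1 : z ^ 2 = 1 - ρ ^ 2 := by linarith
  field_simp
  rw [h1]
  have h2 : cos (f t) ^ 2 = 1 - sin (f t) ^ 2 := by linarith
  linear_combination (-(f' t * cos t * (1 - ρ ^ 2))) * h2

theorem abs_f' (h : Bst f f' ρ z) (t : ℝ) : |f' t| ≤ 1 := by
  have := norm_deriv_le_of_lipschitz (x₀ := t) h.ef.lip
  rw [(h.hd t).deriv] at this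
  simpa using this

theorem rho1 (h : Bst f f' ρ z) : ρ < 1 := by
  have := pow_pos h.z0 2
  nlinarith [h.rz, h.rho0]

theorem pq (h : Bst f f' ρ z) (t : ℝ) :
    |ρ * sin t * cos (f t)| < 1 - ρ * cos t * sin (f t) := by
  have h1 : |sin t * cos (f t)| + cos t * sin (f t) ≤ 1 := by
    have e1 := sin_le_one (f t + t)
    have e2 := sin_le_one (f t - t)
    rw [sin_add] at e1
    rw [sin_sub] at e2
    rcases abs_cases (sin t * cos (f t)) with h2 | h2 <;> rw [h2.1] <;> linarith
  have h2 : |ρ * sin t * cos (f t)| = ρ * |sin t * cos (f t)| := by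
    rw [mul_assoc, abs_mul, abs_of_nonneg h.rho0]
  rw [h2]
  have := h.rho1
  nlinarith [h.rho0]

theorem bT'_le (h : Bst f f' ρ z) (t : ℝ) : |bT' f f' ρ z t| ≤ bC f f' ρ z t := by
  have hp := h.ef.cos_pos t
  have hz := h.z0
  have h1 := abs_le.1 (h.abs_f' t)
  have h2 := abs_lt.1 (h.pq t)
  unfold bT' bC
  rw [abs_div, abs_of_pos (by positivity : 0 < z * cos (f t) ^ 2)]
  refine div_le_div_of_nonneg_right ?_ (by positivity)
  rw [abs_le]
  constructor <;> nlinarith

theorem bC_pos (h : Bst f f' ρ z) (t : ℝ) : 0 < bC f f' ρ z t := by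
  have hp := h.ef.cos_pos t
  have hz := h.z0
  have h1 := abs_le.1 (h.abs_f' t)
  have h2 := abs_lt.1 (h.pq t)
  unfold bC
  refine div_pos ?_ (by positivity)
  have h3 : |ρ * sin t * cos (f t) * f' t| ≤ |ρ * sin t * cos (f t)| := by
    rw [abs_mul]
    exact mul_le_of_le_one_right (abs_nonneg _) (h.abs_f' t)
  have h4 := (abs_le.1 h3).1
  have h5 := h.pq t
  nlinarith

theorem cont_T (h : Bst f f' ρ z) : Continuous (bT f ρ z) :=
  continuous_iff_continuousAt.2 fun t => (h.dT t).continuousAt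

theorem cont_C (h : Bst f f' ρ z) : Continuous (bC f f' ρ z) := by
  refine Continuous.div ?_ (continuous_const.mul ((continuous_cos.comp h.ef.cont).pow 2))
    fun t => (mul_pos h.z0 (pow_pos (h.ef.cos_pos t) 2)).ne'
  exact continuous_const.sub (continuous_const.mul (((continuous_sin.comp h.ef.cont).mul
    continuous_cos).sub (((continuous_cos.comp h.ef.cont).mul h.hc).mul continuous_sin)))

theorem cont_T' (h : Bst f f' ρ z) : Continuous (bT' f f' ρ z) := by
  refine Continuous.div ?_ (continuous_const.mul ((continuous_cos.comp h.ef.cont).pow 2))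
    fun t => (mul_pos h.z0 (pow_pos (h.ef.cos_pos t) 2)).ne'
  exact (h.hc.mul (continuous_const.sub ((continuous_const.mul continuous_cos).mul
    (continuous_sin.comp h.ef.cont)))).add ((continuous_const.mul continuous_sin).mul
    (continuous_cos.comp h.ef.cont))

/-- `T T' = P P' + Q Q'` -/
theorem TT' (h : Bst f f' ρ z) (t : ℝ) : bT f ρ z t * bT' f f' ρ z t
    = bP f ρ z t * bP' f f' ρ z t + bQ f t * bQ' f f' t := by
  have h1 : HasDerivAt (fun t => 1 + bT f ρ z t ^ 2) (2 * bT f ρ z t * bT' f f' ρ z t) t := by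
    refine (((h.dT t).pow 2).const_add 1).congr_deriv ?_
    norm_num
  have h2 : HasDerivAt (fun t => bP f ρ z t ^ 2 + bQ f t ^ 2)
      (2 * bP f ρ z t * bP' f f' ρ z t + 2 * bQ f t * bQ' f f' t) t := by
    refine (((h.dP t).pow 2).add ((h.dQ t).pow 2)).congr_deriv ?_
    norm_num
  have h3 := h1.unique (h2.congr_of_eventuallyEq (Eventually.of_forall fun t => h.one_add t))
  linarith

end Bst

/-- derivative of the angle -/
def bA (f f' : ℝ → ℝ) (ρ z t : ℝ) : ℝ := bC f f' ρ z t / (1 + bT f ρ z t ^ 2)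

/-- the angle in the new frame -/
def bal (f f' : ℝ → ℝ) (ρ z t : ℝ) : ℝ := ∫ s in (0 : ℝ)..t, bA f f' ρ z s

namespace Bst

theorem cont_A (h : Bst f f' ρ z) : Continuous (bA f f' ρ z) :=
  h.cont_C.div (continuous_const.add (h.cont_T.pow 2)) fun t => by positivity

theorem A_pos (h : Bst f f' ρ z) (t : ℝ) : 0 < bA f f' ρ z t := by
  have := h.bC_pos t
  unfold bA
  positivity

theorem dal (h : Bst f f' ρ z) (t : ℝ) : HasDerivAt (bal f f' ρ z) (bA f f' ρ z t) t :=
  intervalIntegral.integral_hasDerivAt_right (h.cont_A.intervalIntegrable _ _)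
    h.cont_A.stronglyMeasurable.stronglyMeasurableAtFilter h.cont_A.continuousAt

theorem al0 : bal f f' ρ z 0 = 0 := by
  unfold bal
  exact intervalIntegral.integral_same

/-- the angle is the argument of `P + i Q` -/
theorem cs (h : Bst f f' ρ z) (t : ℝ) :
    bP f ρ z t = √(1 + bT f ρ z t ^ 2) * cos (bal f f' ρ z t) ∧
    bQ f t = √(1 + bT f ρ z t ^ 2) * sin (bal f f' ρ z t) := by
  set r : ℝ → ℝ := fun t => √(1 + bT f ρ z t ^ 2) with hr
  have hr0 : ∀ t, 0 < r t := fun t => sqrt_pos.2 (by positivity)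
  have hr2 : ∀ t, r t ^ 2 = 1 + bT f ρ z t ^ 2 := fun t => sq_sqrt (by positivity)
  have dr : ∀ t, HasDerivAt r (bT f ρ z t * bT' f f' ρ z t / r t) t := by
    intro t
    have h1 : HasDerivAt (fun t => 1 + bT f ρ z t ^ 2) (2 * bT f ρ z t * bT' f f' ρ z t) t := by
      refine (((h.dT t).pow 2).const_add 1).congr_deriv ?_
      norm_num
    refine (h1.sqrt (by positivity)).congr_deriv ?_
    change 2 * bT f ρ z t * bT' f f' ρ z t / (2 * r t) = _
    have := (hr0 t).ne'
    field_simp
  have dc : ∀ t, HasDerivAt (fun t => bP f ρ z t / r t) (-(bA f f' ρ z t * (bQ f t / r t))) t := by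
    intro t
    refine ((h.dP t).div (dr t) (hr0 t).ne').congr_deriv ?_
    have e1 := h.cross1 t
    have e2 := h.TT' t
    have e3 := hr2 t
    have e4 := h.one_add t
    have h0 := (hr0 t).ne'
    unfold bA
    rw [← hr2 t, ← e1]
    have e5 : r t ^ 2 = bP f ρ z t ^ 2 + bQ f t ^ 2 := by rw [e3, e4]
    field_simp
    linear_combination bP' f f' ρ z t * e5 - bP f ρ z t * e2
  have ds : ∀ t, HasDerivAt (fun t => bQ f t / r t) (bA f f' ρ z t * (bP f ρ z t / r t)) t := by
    intro t
    refine ((h.dQ t).div (dr t) (hr0 t).ne').congr_deriv ?_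
    have e1 := h.cross1 t
    have e2 := h.TT' t
    have e3 := hr2 t
    have e4 := h.one_add t
    have h0 := (hr0 t).ne'
    unfold bA
    rw [← hr2 t, ← e1]
    have e5 : r t ^ 2 = bP f ρ z t ^ 2 + bQ f t ^ 2 := by rw [e3, e4]
    field_simp
    linear_combination bQ' f f' t * e5 - bQ f t * e2
  have key : ∀ t, bP f ρ z t / r t * cos (bal f f' ρ z t) + bQ f t / r t * sin (bal f f' ρ z t) = 1 := by
    have hder : ∀ t, HasDerivAt (fun t => bP f ρ z t / r t * cos (bal f f' ρ z t)
        + bQ f t / r t * sin (bal f f' ρ z t)) 0 t := by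
      intro t
      refine (((dc t).mul (h.dal t).cos).add ((ds t).mul (h.dal t).sin)).congr_deriv ?_
      ring
    have hconst := is_const_of_deriv_eq_zero (fun t => (hder t).differentiableAt)
      (fun t => (hder t).deriv)
    intro t
    have h1 := hconst t 0
    rw [h1, al0, cos_zero, sin_zero]
    have hq : bQ f 0 = 0 := by
      unfold bQ
      rw [sin_zero, zero_div]
    have hp : bP f ρ z 0 = r 0 := by
      have h2 := h.one_add 0
      rw [hq] at h2
      have h3 : 0 < bP f ρ z 0 := by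
        unfold bP
        have := h.ef.cos_pos 0
        have := h.z0
        refine div_pos ?_ (by positivity)
        rw [cos_zero]
        nlinarith [h.rho1, h.rho0, sin_le_one (f 0)]
      rw [hr]
      simp only
      rw [h2]
      simp [sqrt_sq h3.le]
    rw [hp, hq]
    have := (hr0 0).ne'
    field_simp
    ring
  have hk := key t
  have e4 := h.one_add t
  have h0 := hr0 t
  have e5 : r t ^ 2 = bP f ρ z t ^ 2 + bQ f t ^ 2 := by rw [hr2 t, e4]
  have hu : (bP f ρ z t / r t) ^ 2 + (bQ f t / r t) ^ 2 = 1 := by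
    field_simp
    linarith
  have hs := sin_sq_add_cos_sq (bal f f' ρ z t)
  have hz : (bP f ρ z t / r t - cos (bal f f' ρ z t)) ^ 2
      + (bQ f t / r t - sin (bal f f' ρ z t)) ^ 2 = 0 := by nlinarith
  have h1 : bP f ρ z t / r t - cos (bal f f' ρ z t) = 0 := by nlinarith [sq_nonneg (bP f ρ z t / r t - cos (bal f f' ρ z t)), sq_nonneg (bQ f t / r t - sin (bal f f' ρ z t))]
  have h2 : bQ f t / r t - sin (bal f f' ρ z t) = 0 := by nlinarith [sq_nonneg (bP f ρ z t / r t - cos (bal f f' ρ z t)), sq_nonneg (bQ f t / r t - sin (bal f f' ρ z t))]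
  constructor
  · rw [sub_eq_zero, div_eq_iff h0.ne'] at h1
    rw [h1, mul_comm]
  · rw [sub_eq_zero, div_eq_iff h0.ne'] at h2
    rw [h2, mul_comm]

theorem smono (h : Bst f f' ρ z) : StrictMono (bal f f' ρ z) :=
  strictMono_of_hasDerivAt_pos (fun t => h.dal t) (fun t => h.A_pos t)

theorem al_cont (h : Bst f f' ρ z) : Continuous (bal f f' ρ z) :=
  continuous_iff_continuousAt.2 fun t => (h.dal t).continuousAt

theorem f'_odd (h : Bst f f' ρ z) (t : ℝ) : f' (t + π) = -f' t := by
  have h1 : HasDerivAt (fun s => f (s + π)) (f' (t + π)) t := (h.hd (t + π)).comp_add_const t π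
  have h2 : HasDerivAt (fun s => f (s + π)) (-f' t) t :=
    ((h.hd t).neg).congr_of_eventuallyEq (Eventually.of_forall fun s => h.ef.odd s)
  exact h1.unique h2

theorem T_odd (h : Bst f f' ρ z) (t : ℝ) : bT f ρ z (t + π) = -bT f ρ z t := by
  unfold bT
  rw [h.ef.odd, sin_neg, cos_neg, cos_add_pi]
  ring

theorem A_per (h : Bst f f' ρ z) (t : ℝ) : bA f f' ρ z (t + π) = bA f f' ρ z t := by
  unfold bA bC
  rw [h.T_odd, h.f'_odd, h.ef.odd, sin_neg, cos_neg, cos_add_pi, sin_add_pi]
  congr 1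
  · congr 1
    ring
  · ring

theorem al_pi (h : Bst f f' ρ z) : bal f f' ρ z π = π := by
  have hsin : ∀ t ∈ Ioo 0 π, 0 < sin (bal f f' ρ z t) := by
    intro t ht
    have h1 := (h.cs t).2
    have h2 : 0 < bQ f t := div_pos (sin_pos_of_mem_Ioo ht) (h.ef.cos_pos t)
    rw [h1] at h2
    exact (mul_pos_iff_of_pos_left (sqrt_pos.2 (by positivity))).1 h2
  have hlt : ∀ t ∈ Ioo 0 π, bal f f' ρ z t < π := by
    intro t ht
    by_contra hc
    rw [not_lt] at hc
    have h0 : bal f f' ρ z 0 ≤ π := by rw [al0]; exact pi_pos.le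
    obtain ⟨s, hs, hse⟩ := intermediate_value_Icc ht.1.le h.al_cont.continuousOn ⟨h0, hc⟩
    have hs0 : s ≠ 0 := by
      rintro rfl
      rw [al0] at hse
      exact pi_pos.ne hse
    have := hsin s ⟨lt_of_le_of_ne hs.1 (Ne.symm hs0), lt_of_le_of_lt hs.2 ht.2⟩
    rw [hse, sin_pi] at this
    exact lt_irrefl _ this
  have hle : bal f f' ρ z π ≤ π := by
    refine le_of_tendsto (x := 𝓝[<] π) (h.al_cont.continuousAt.tendsto.mono_left nhdsWithin_le_nhds) ?_
    filter_upwards [Ioo_mem_nhdsLT pi_pos] with t ht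
    exact (hlt t ht).le
  have h0 : 0 < bal f f' ρ z π := by
    have := h.smono pi_pos
    rwa [al0] at this
  have hs : sin (bal f f' ρ z π) = 0 := by
    have h1 := (h.cs π).2
    have h2 : bQ f π = 0 := by
      unfold bQ
      rw [sin_pi, zero_div]
    rw [h2] at h1
    have h3 : 0 < √(1 + bT f ρ z π ^ 2) := sqrt_pos.2 (by positivity)
    exact (mul_eq_zero.1 h1.symm).resolve_left h3.ne'
  by_contra hne
  exact absurd (sin_pos_of_pos_of_lt_pi h0 (lt_of_le_of_ne hle hne)) (by rw [hs]; exact lt_irrefl _)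

theorem al_add (h : Bst f f' ρ z) (t : ℝ) : bal f f' ρ z (t + π) = bal f f' ρ z t + π := by
  have hd : ∀ t, HasDerivAt (fun t => bal f f' ρ z (t + π) - bal f f' ρ z t) 0 t := by
    intro t
    refine (((h.dal (t + π)).comp_add_const t π).sub (h.dal t)).congr_deriv ?_
    rw [h.A_per]
    ring
  have h1 := is_const_of_deriv_eq_zero (fun t => (hd t).differentiableAt) (fun t => (hd t).deriv) t 0
  simp only [zero_add] at h1
  rw [h.al_pi, al0] at h1
  linarith

theorem al_surj (h : Bst f f' ρ z) : Function.Surjective (bal f f' ρ z) := by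
  have hn : ∀ n : ℕ, bal f f' ρ z (n * π) = n * π := by
    intro n
    induction n with
    | zero => simp [al0]
    | succ n ih =>
      have := h.al_add (n * π)
      rw [ih] at this
      push_cast
      rw [add_mul, one_mul]
      exact this
  have hm : ∀ n : ℕ, bal f f' ρ z (-(n * π)) = -(n * π) := by
    intro n
    induction n with
    | zero => simp [al0]
    | succ n ih =>
      have := h.al_add (-((n + 1 : ℕ) * π))
      push_cast at this ⊢
      have e : -((n + 1 : ℝ) * π) + π = -(n * π) := by ring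
      rw [e, ih] at this
      linarith
  refine h.al_cont.surjective ?_ ?_
  · refine tendsto_atTop.2 fun b => ?_
    obtain ⟨n, hb⟩ := exists_nat_ge (b / π)
    filter_upwards [eventually_ge_atTop ((n : ℝ) * π)] with t ht
    have h1 := h.smono.monotone ht
    rw [hn] at h1
    have : b ≤ n * π := by rwa [div_le_iff₀ pi_pos] at hb
    linarith
  · refine tendsto_atBot.2 fun b => ?_
    obtain ⟨n, hb⟩ := exists_nat_ge (-b / π)
    filter_upwards [eventually_le_atBot (-((n : ℝ) * π))] with t ht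
    have h1 := h.smono.monotone ht
    rw [hm] at h1
    have : -b ≤ n * π := by rwa [div_le_iff₀ pi_pos] at hb
    linarith

/-- the boosted function -/
theorem exists_boost (h : Bst f f' ρ z) : ∃ g g' : ℝ → ℝ, Ef g ∧ (∀ t, HasDerivAt g (g' t) t) ∧
    Continuous g' ∧ (∀ t, g (bal f f' ρ z t) = arctan (bT f ρ z t)) ∧
    (∀ t, g' (bal f f' ρ z t) = bT' f f' ρ z t / bC f f' ρ z t) := by
  set e : ℝ ≃o ℝ := h.smono.orderIsoOfSurjective _ h.al_surj with he
  have hee : ∀ t, e t = bal f f' ρ z t := fun t => rfl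
  have hes : ∀ θ, bal f f' ρ z (e.symm θ) = θ := fun θ => e.apply_symm_apply θ
  have hse : ∀ t, e.symm (bal f f' ρ z t) = t := fun t => e.symm_apply_apply t
  have hec : Continuous e.symm := e.symm.continuous
  have hde : ∀ θ, HasDerivAt e.symm (bA f f' ρ z (e.symm θ))⁻¹ θ := by
    intro θ
    refine HasDerivAt.of_local_left_inverse hec.continuousAt (h.dal _) (h.A_pos _).ne' ?_
    exact Eventually.of_forall hes
  have hadd : ∀ θ, e.symm (θ + π) = e.symm θ + π := by
    intro θ
    have h1 := h.al_add (e.symm θ)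
    rw [hes] at h1
    rw [← h1, hse]
  have hg : ∀ θ, HasDerivAt (fun θ => arctan (bT f ρ z (e.symm θ)))
      (bT' f f' ρ z (e.symm θ) / bC f f' ρ z (e.symm θ)) θ := by
    intro θ
    have h1 := (h.dT (e.symm θ)).comp θ (hde θ)
    have h2 := h1.arctan
    refine h2.congr_deriv ?_
    have h3 := h.bC_pos (e.symm θ)
    unfold bA
    simp only [Function.comp_apply]
    have h4 : 0 < 1 + bT f ρ z (e.symm θ) ^ 2 := by positivity
    field_simp
  have hg'c : Continuous fun θ => bT' f f' ρ z (e.symm θ) / bC f f' ρ z (e.symm θ) :=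
    (h.cont_T'.comp hec).div (h.cont_C.comp hec) fun θ => (h.bC_pos _).ne'
  refine ⟨fun θ => arctan (bT f ρ z (e.symm θ)), fun θ => bT' f f' ρ z (e.symm θ) / bC f f' ρ z (e.symm θ),
    ⟨?_, ?_, ?_⟩, hg, hg'c, ?_, ?_⟩
  · refine lipschitzWith_of_nnnorm_deriv_le (fun θ => (hg θ).differentiableAt) fun θ => ?_
    rw [(hg θ).deriv, ← NNReal.coe_le_coe, coe_nnnorm, Real.norm_eq_abs, abs_div,
      abs_of_pos (h.bC_pos _)]
    exact (div_le_one (h.bC_pos _)).2 (h.bT'_le _)
  · intro θ
    rw [hadd, h.T_odd, arctan_neg]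
  · intro θ
    exact abs_lt.2 ⟨neg_pi_div_two_lt_arctan _, arctan_lt_pi_div_two _⟩
  · intro t
    change arctan (bT f ρ z (e.symm (bal f f' ρ z t))) = _
    rw [hse]
  · intro t
    change bT' f f' ρ z (e.symm (bal f f' ρ z t)) / bC f f' ρ z (e.symm (bal f f' ρ z t)) = _
    rw [hse]

theorem al_two_pi (h : Bst f f' ρ z) : bal f f' ρ z (2 * π) = 2 * π := by
  have h1 := h.al_add π
  rw [h.al_pi] at h1
  have e : (2 : ℝ) * π = π + π := by ring
  rw [e, h1]

theorem cov (h : Bst f f' ρ z) {G : ℝ → ℝ} (hG : Continuous G) :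
    ∫ θ in (0 : ℝ)..(2 * π), G θ = ∫ t in (0 : ℝ)..(2 * π), G (bal f f' ρ z t) * bA f f' ρ z t := by
  have := intervalIntegral.integral_comp_mul_deriv (a := 0) (b := 2 * π) (f := bal f f' ρ z)
    (f' := bA f f' ρ z) (g := G) (fun t _ => h.dal t) h.cont_A.continuousOn hG
  rw [al0, h.al_two_pi] at this
  exact this.symm

/-- first component in the new frame -/
theorem E1 (h : Bst f f' ρ z) (t : ℝ) :
    (sin (arctan (bT f ρ z t)) * cos (bal f f' ρ z t)
      - cos (arctan (bT f ρ z t)) * (bT' f f' ρ z t / bC f f' ρ z t) * sin (bal f f' ρ z t))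
      / cos (arctan (bT f ρ z t)) ^ 2 * bA f f' ρ z t
    = bT f ρ z t * bQ' f f' t - bT' f f' ρ z t * bQ f t := by
  have hr0 : 0 < √(1 + bT f ρ z t ^ 2) := sqrt_pos.2 (by positivity)
  have hr2 : √(1 + bT f ρ z t ^ 2) ^ 2 = 1 + bT f ρ z t ^ 2 := sq_sqrt (by positivity)
  obtain ⟨h1, h2⟩ := h.cs t
  have e1 := h.cross1 t
  have e2 := h.TT' t
  have e4 := h.one_add t
  have hC := h.bC_pos t
  rw [sin_arctan, cos_arctan]
  unfold bA
  set r := √(1 + bT f ρ z t ^ 2) with hr
  have e5 : cos (bal f f' ρ z t) = bP f ρ z t / r := by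
    rw [h1]
    field_simp
  have e6 : sin (bal f f' ρ z t) = bQ f t / r := by
    rw [h2]
    field_simp
  rw [e5, e6, ← hr2]
  have key : bT f ρ z t * bP f ρ z t * bC f f' ρ z t - bT' f f' ρ z t * bQ f t
      = r ^ 2 * (bT f ρ z t * bQ' f f' t - bT' f f' ρ z t * bQ f t) := by
    rw [hr2, e4]
    linear_combination (-bT f ρ z t * bP f ρ z t) * e1 - bT' f f' ρ z t * bQ f t * e4
      + bT f ρ z t * bQ f t * e2
  field_simp
  linear_combination key

/-- second component in the new frame -/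
theorem E2 (h : Bst f f' ρ z) (t : ℝ) :
    (sin (arctan (bT f ρ z t)) * sin (bal f f' ρ z t)
      + cos (arctan (bT f ρ z t)) * (bT' f f' ρ z t / bC f f' ρ z t) * cos (bal f f' ρ z t))
      / cos (arctan (bT f ρ z t)) ^ 2 * bA f f' ρ z t
    = bT' f f' ρ z t * bP f ρ z t - bT f ρ z t * bP' f f' ρ z t := by
  have hr0 : 0 < √(1 + bT f ρ z t ^ 2) := sqrt_pos.2 (by positivity)
  have hr2 : √(1 + bT f ρ z t ^ 2) ^ 2 = 1 + bT f ρ z t ^ 2 := sq_sqrt (by positivity)
  obtain ⟨h1, h2⟩ := h.cs t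
  have e1 := h.cross1 t
  have e2 := h.TT' t
  have e4 := h.one_add t
  have hC := h.bC_pos t
  rw [sin_arctan, cos_arctan]
  unfold bA
  set r := √(1 + bT f ρ z t ^ 2) with hr
  have e5 : cos (bal f f' ρ z t) = bP f ρ z t / r := by
    rw [h1]
    field_simp
  have e6 : sin (bal f f' ρ z t) = bQ f t / r := by
    rw [h2]
    field_simp
  rw [e5, e6, ← hr2]
  have key : bT f ρ z t * bQ f t * bC f f' ρ z t + bT' f f' ρ z t * bP f ρ z t
      = r ^ 2 * (bT' f f' ρ z t * bP f ρ z t - bT f ρ z t * bP' f f' ρ z t) := by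
    rw [hr2, e4]
    linear_combination (-bT f ρ z t * bQ f t) * e1 + bT' f f' ρ z t * bP f ρ z t * e4
      - bT f ρ z t * bP f ρ z t * e2
  field_simp
  linear_combination key

theorem E0 (_h : Bst f f' ρ z) (t : ℝ) :
    1 / cos (arctan (bT f ρ z t)) ^ 2 * bA f f' ρ z t = bC f f' ρ z t := by
  have hr0 : 0 < √(1 + bT f ρ z t ^ 2) := sqrt_pos.2 (by positivity)
  have hr2 : √(1 + bT f ρ z t ^ 2) ^ 2 = 1 + bT f ρ z t ^ 2 := sq_sqrt (by positivity)
  rw [cos_arctan]
  unfold bA
  set r := √(1 + bT f ρ z t ^ 2) with hr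
  rw [← hr2]
  field_simp

theorem cont_z1 {g g' : ℝ → ℝ} (hg : Ef g) (hc : Continuous g') :
    Continuous fun t => sin (g t) * cos t - cos (g t) * g' t * sin t :=
  ((continuous_sin.comp hg.cont).mul continuous_cos).sub
    (((continuous_cos.comp hg.cont).mul hc).mul continuous_sin)

theorem cont_z2 {g g' : ℝ → ℝ} (hg : Ef g) (hc : Continuous g') :
    Continuous fun t => sin (g t) * sin t + cos (g t) * g' t * cos t :=
  ((continuous_sin.comp hg.cont).mul continuous_sin).add
    (((continuous_cos.comp hg.cont).mul hc).mul continuous_cos)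

theorem cont_cos2 {g : ℝ → ℝ} (hg : Ef g) : Continuous fun t => cos (g t) ^ 2 :=
  (continuous_cos.comp hg.cont).pow 2

/-- the bound in the original frame -/
theorem bound (h : Bst f f' ρ z) {c : ℝ} (hN : NStar c) :
    ∫ t in (0 : ℝ)..(2 * π), (sin (f t) - ρ * cos t) ^ 2 / cos (f t) ^ 4
      ≤ c * z ^ 2 * ∫ t in (0 : ℝ)..(2 * π), 1 / cos (f t) ^ 2 := by
  obtain ⟨g, g', hg, hgd, hgc, hga, hga'⟩ := h.exists_boost
  have hz := h.z0
  have hne : ∀ t, cos (g t) ^ 2 ≠ 0 := fun t => pow_ne_zero 2 (hg.cos_pos t).ne'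
  have hV1 : V1 g = 0 := by
    have h1 := parts1 hg hgd hgc
    rw [h.cov (G := fun t => (sin (g t) * cos t - cos (g t) * g' t * sin t) / cos (g t) ^ 2)
      ((cont_z1 hg hgc).div (cont_cos2 hg) hne)] at h1
    have h2 : ∫ t in (0 : ℝ)..(2 * π), (fun t => (sin (g t) * cos t - cos (g t) * g' t * sin t)
        / cos (g t) ^ 2) (bal f f' ρ z t) * bA f f' ρ z t
        = ∫ t in (0 : ℝ)..(2 * π), ((sin (f t) * cos t - cos (f t) * f' t * sin t) / cos (f t) ^ 2
          - ρ * (1 / cos (f t) ^ 2)) / z := by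
      refine intervalIntegral.integral_congr fun t _ => ?_
      simp only
      rw [hga, hga', h.E1, h.cross2]
    have c1 : IntervalIntegrable (fun t => (sin (f t) * cos t - cos (f t) * f' t * sin t) / cos (f t) ^ 2)
        volume 0 (2 * π) :=
      ((cont_z1 h.ef h.hc).div (cont_cos2 h.ef)
        fun t => pow_ne_zero 2 (h.ef.cos_pos t).ne').intervalIntegrable _ _
    have c2 : IntervalIntegrable (fun t => ρ * (1 / cos (f t) ^ 2)) volume 0 (2 * π) :=
      (h.ef.cont_sec2.intervalIntegrable _ _).const_mul _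
    rw [intervalIntegral.integral_div, intervalIntegral.integral_sub c1 c2, parts1 h.ef h.hd h.hc,
      intervalIntegral.integral_const_mul, h.v1] at h2
    have h3 : ∫ t in (0 : ℝ)..(2 * π), 1 / cos (f t) ^ 2 = 2 * V0 f := by
      unfold V0
      ring
    rw [h3] at h2
    have h4 : (2 * (ρ * V0 f) - ρ * (2 * V0 f)) / z = 0 := by ring
    rw [h4] at h2
    linarith [h1.symm.trans h2]
  have hV2 : V2 g = 0 := by
    have h1 := parts2 hg hgd hgc
    rw [h.cov (G := fun t => (sin (g t) * sin t + cos (g t) * g' t * cos t) / cos (g t) ^ 2)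
      ((cont_z2 hg hgc).div (cont_cos2 hg) hne)] at h1
    have h2 : ∫ t in (0 : ℝ)..(2 * π), (fun t => (sin (g t) * sin t + cos (g t) * g' t * cos t)
        / cos (g t) ^ 2) (bal f f' ρ z t) * bA f f' ρ z t
        = ∫ t in (0 : ℝ)..(2 * π), (sin (f t) * sin t + cos (f t) * f' t * cos t) / cos (f t) ^ 2 := by
      refine intervalIntegral.integral_congr fun t _ => ?_
      simp only
      rw [hga, hga', h.E2, h.cross3]
    rw [parts2 h.ef h.hd h.hc, h.v2] at h2
    linarith [h1.symm.trans h2]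
  have key := hN g g' hg hgd hgc hV1 hV2 (-ρ) 0 (by
    have := h.rz
    nlinarith [sq_nonneg z])
  have ct : Continuous fun t => tan (g t) ^ 2 := hg.cont_tan.pow 2
  rw [h.cov (G := fun t => (c - tan (g t) ^ 2) / cos (g t) ^ 2 *
    (1 - -ρ * (sin (g t) * cos t - cos (g t) * g' t * sin t)
      - 0 * (sin (g t) * sin t + cos (g t) * g' t * cos t))) ?_] at key
  · have e : ∫ t in (0 : ℝ)..(2 * π), (fun t => (c - tan (g t) ^ 2) / cos (g t) ^ 2 *
        (1 - -ρ * (sin (g t) * cos t - cos (g t) * g' t * sin t)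
        - 0 * (sin (g t) * sin t + cos (g t) * g' t * cos t))) (bal f f' ρ z t) * bA f f' ρ z t
        = ∫ t in (0 : ℝ)..(2 * π), (c * z * (1 / cos (f t) ^ 2)
          - 1 / z * ((sin (f t) - ρ * cos t) ^ 2 / cos (f t) ^ 4)) := by
      refine intervalIntegral.integral_congr fun t _ => ?_
      simp only
      rw [hga, hga', tan_arctan]
      have e1 := h.E1 t
      have e0 := h.E0 t
      have e3 : (c - bT f ρ z t ^ 2) / cos (arctan (bT f ρ z t)) ^ 2 *
          (1 - -ρ * (sin (arctan (bT f ρ z t)) * cos (bal f f' ρ z t)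
            - cos (arctan (bT f ρ z t)) * (bT' f f' ρ z t / bC f f' ρ z t) * sin (bal f f' ρ z t))
          - 0 * (sin (arctan (bT f ρ z t)) * sin (bal f f' ρ z t)
            + cos (arctan (bT f ρ z t)) * (bT' f f' ρ z t / bC f f' ρ z t) * cos (bal f f' ρ z t)))
          * bA f f' ρ z t
          = (c - bT f ρ z t ^ 2) * (1 / cos (arctan (bT f ρ z t)) ^ 2 * bA f f' ρ z t
            + ρ * ((sin (arctan (bT f ρ z t)) * cos (bal f f' ρ z t)
      - cos (arctan (bT f ρ z t)) * (bT' f f' ρ z t / bC f f' ρ z t) * sin (bal f f' ρ z t))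
      / cos (arctan (bT f ρ z t)) ^ 2 * bA f f' ρ z t)) := by ring
      rw [e3, e1, e0, h.cross2]
      have hp := h.ef.cos_pos t
      have hrz := h.rz
      have e4 : bC f f' ρ z t + ρ * (((sin (f t) * cos t - cos (f t) * f' t * sin t) / cos (f t) ^ 2
          - ρ * (1 / cos (f t) ^ 2)) / z) = z / cos (f t) ^ 2 := by
        unfold bC
        field_simp
        linear_combination (-1 : ℝ) * hrz
      rw [e4]
      unfold bT
      field_simp
    rw [e] at key
    have cA : Continuous fun t => (sin (f t) - ρ * cos t) ^ 2 / cos (f t) ^ 4 :=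
      (((continuous_sin.comp h.ef.cont).sub (continuous_const.mul continuous_cos)).pow 2).div
        ((continuous_cos.comp h.ef.cont).pow 4) fun t => pow_ne_zero 4 (h.ef.cos_pos t).ne'
    rw [intervalIntegral.integral_sub ((h.ef.cont_sec2.intervalIntegrable _ _).const_mul _)
      ((cA.intervalIntegrable _ _).const_mul _), intervalIntegral.integral_const_mul,
      intervalIntegral.integral_const_mul] at key
    have k2 := mul_nonneg hz.le key
    have e5 : z * (c * z * (∫ t in (0 : ℝ)..(2 * π), 1 / cos (f t) ^ 2)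
        - 1 / z * ∫ t in (0 : ℝ)..(2 * π), (sin (f t) - ρ * cos t) ^ 2 / cos (f t) ^ 4)
        = c * z ^ 2 * (∫ t in (0 : ℝ)..(2 * π), 1 / cos (f t) ^ 2)
          - ∫ t in (0 : ℝ)..(2 * π), (sin (f t) - ρ * cos t) ^ 2 / cos (f t) ^ 4 := by
      field_simp
    rw [e5] at k2
    linarith
  · exact ((continuous_const.sub ct).div (cont_cos2 hg) hne).mul ((continuous_const.sub
      (continuous_const.mul (cont_z1 hg hgc))).sub (continuous_const.mul (cont_z2 hg hgc)))

end Bst

end Pool.Agent.FPX.UMP
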