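import Mathlib
import Pool.Agent.FPX.UMP3

/-
UMP4 (helper8): rotation and smooth approximation: `NStar c` implies `UStar c`.
-/

open MeasureTheory Set Filter Topology
open scoped ENNReal NNReal

noncomputable section

namespace Pool.Agent.FPX.UMP

open Real

/-- integrals over a period are invariant under shifts -/
theorem int_shift {H : ℝ → ℝ} (hH : Function.Periodic H (2 * π)) (β : ℝ) :
    ∫ t in (0 : ℝ)..(2 * π), H (t + β) = ∫ t in (0 : ℝ)..(2 * π), H t := by
  rw [intervalIntegral.integral_comp_add_right]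
  have := hH.intervalIntegral_add_eq (0 + β) 0
  rw [zero_add (2 * π)] at this
  rw [← this]
  congr 1
  ring

theorem Ef.shift {f : ℝ → ℝ} (h : Ef f) (β : ℝ) : Ef fun t => f (t + β) where
  lip := LipschitzWith.of_dist_le_mul fun s t => by
    have := h.lip.dist_le_mul (s + β) (t + β)
    simpa [Real.dist_eq] using this
  odd t := by
    have := h.odd (t + β)
    rw [← this]
    congr 1
    ring
  lt t := h.lt _

theorem ustar_c1 {c : ℝ} (hN : NStar c) {f f' : ℝ → ℝ} (h : Ef f) (hd : ∀ t, HasDerivAt f (f' t) t)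
    (hc : Continuous f') :
    ∫ t in (0 : ℝ)..(2 * π),
      (sin (f t) - F1 f * cos t - F2 f * sin t) ^ 2 / cos (f t) ^ 4
    ≤ c * zz f * ∫ t in (0 : ℝ)..(2 * π), 1 / cos (f t) ^ 2 := by
  set ρ := ‖(⟨F1 f, F2 f⟩ : ℂ)‖ with hρ
  set β := Complex.arg ⟨F1 f, F2 f⟩ with hβ
  have e1 : ρ * cos β = F1 f := Complex.norm_mul_cos_arg (⟨F1 f, F2 f⟩ : ℂ)
  have e2 : ρ * sin β = F2 f := Complex.norm_mul_sin_arg (⟨F1 f, F2 f⟩ : ℂ)
  have hz := h.zz_pos
  have hρ2 : ρ ^ 2 = F1 f ^ 2 + F2 f ^ 2 := by
    rw [← e1, ← e2]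
    nlinarith [sin_sq_add_cos_sq β]
  have hV := h.V0_pos
  have hv1 : V1 f = F1 f * V0 f := by
    unfold F1
    field_simp
  have hv2 : V2 f = F2 f * V0 f := by
    unfold F2
    field_simp
  have hfp : Function.Periodic f (2 * π) := h.per
  set g : ℝ → ℝ := fun t => f (t + β) with hg
  have hgE : Ef g := h.shift β
  have cr : Continuous fun t => RR (f t) := h.cont_RR
  have hg1 : V1 g = cos β * V1 f + sin β * V2 f := by
    have h1 : V1 g = ∫ t in (0 : ℝ)..(2 * π), (fun t => cos (t - β) * RR (f t)) (t + β) := by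
      unfold V1
      refine intervalIntegral.integral_congr fun t _ => ?_
      simp only [add_sub_cancel_right, hg]
    rw [h1, int_shift (H := fun t => cos (t - β) * RR (f t))]
    · unfold V1 V2
      rw [← intervalIntegral.integral_const_mul, ← intervalIntegral.integral_const_mul,
        ← intervalIntegral.integral_add]
      · refine intervalIntegral.integral_congr fun t _ => ?_
        simp only [cos_sub]
        ring
      · exact (continuous_const.mul (continuous_cos.mul cr)).intervalIntegrable _ _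
      · exact (continuous_const.mul (continuous_sin.mul cr)).intervalIntegrable _ _
    · intro t
      simp only
      rw [hfp t]
      congr 1
      rw [← cos_add_two_pi (t - β)]
      congr 1
      ring
  have hg2 : V2 g = cos β * V2 f - sin β * V1 f := by
    have h1 : V2 g = ∫ t in (0 : ℝ)..(2 * π), (fun t => sin (t - β) * RR (f t)) (t + β) := by
      unfold V2
      refine intervalIntegral.integral_congr fun t _ => ?_
      simp only [add_sub_cancel_right, hg]
    rw [h1, int_shift (H := fun t => sin (t - β) * RR (f t))]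
    · unfold V1 V2
      rw [← intervalIntegral.integral_const_mul, ← intervalIntegral.integral_const_mul,
        ← intervalIntegral.integral_sub]
      · refine intervalIntegral.integral_congr fun t _ => ?_
        simp only [sin_sub]
        ring
      · exact (continuous_const.mul (continuous_sin.mul cr)).intervalIntegrable _ _
      · exact (continuous_const.mul (continuous_cos.mul cr)).intervalIntegrable _ _
    · intro t
      simp only
      rw [hfp t]
      congr 1
      rw [← sin_add_two_pi (t - β)]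
      congr 1
      ring
  have hg0 : V0 g = V0 f := by
    unfold V0
    congr 1
    refine int_shift (H := fun t => 1 / cos (f t) ^ 2) ?_ β
    intro t
    simp only
    rw [hfp t]
  have hB : Bst g (fun t => f' (t + β)) ρ (√(zz f)) := by
    refine ⟨hgE, fun t => (hd (t + β)).comp_add_const t β, hc.comp (continuous_add_const β),
      norm_nonneg _, sqrt_pos.2 hz, ?_, ?_, ?_⟩
    · rw [sq_sqrt hz.le, hρ2]
      unfold zz
      ring
    · rw [hg2, hv1, hv2, ← e1, ← e2]
      ring
    · rw [hg1, hg0, hv1, hv2, ← e1, ← e2]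
      have := sin_sq_add_cos_sq β
      linear_combination (ρ * V0 f) * this
  have key := hB.bound hN
  rw [sq_sqrt hz.le] at key
  have k1 : ∫ t in (0 : ℝ)..(2 * π), 1 / cos (g t) ^ 2 = ∫ t in (0 : ℝ)..(2 * π), 1 / cos (f t) ^ 2 := by
    refine int_shift (H := fun t => 1 / cos (f t) ^ 2) ?_ β
    intro t
    simp only
    rw [hfp t]
  have k2 : ∫ t in (0 : ℝ)..(2 * π), (sin (g t) - ρ * cos t) ^ 2 / cos (g t) ^ 4
      = ∫ t in (0 : ℝ)..(2 * π), (sin (f t) - F1 f * cos t - F2 f * sin t) ^ 2 / cos (f t) ^ 4 := by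
    have h1 : ∫ t in (0 : ℝ)..(2 * π), (sin (g t) - ρ * cos t) ^ 2 / cos (g t) ^ 4
        = ∫ t in (0 : ℝ)..(2 * π),
          (fun t => (sin (f t) - F1 f * cos t - F2 f * sin t) ^ 2 / cos (f t) ^ 4) (t + β) := by
      refine intervalIntegral.integral_congr fun t _ => ?_
      simp only [hg]
      have e3 : F1 f * cos (t + β) + F2 f * sin (t + β) = ρ * cos t := by
        rw [← e1, ← e2, cos_add, sin_add]
        have := sin_sq_add_cos_sq β
        linear_combination (ρ * cos t) * this
      have e4 : sin (f (t + β)) - F1 f * cos (t + β) - F2 f * sin (t + β)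
          = sin (f (t + β)) - ρ * cos t := by
        rw [← e3]
        ring
      rw [e4]
    rw [h1]
    refine int_shift (H := fun t => (sin (f t) - F1 f * cos t - F2 f * sin t) ^ 2 / cos (f t) ^ 4) ?_ β
    intro t
    simp only
    rw [hfp t, cos_add_two_pi, sin_add_two_pi]
  rw [k1, k2] at key
  exact key

/-! ### approximation -/

/-- the Steklov mean -/
def stk (f : ℝ → ℝ) (e t : ℝ) : ℝ := (1 / (2 * e)) * ∫ s in (t - e)..(t + e), f s

theorem stk_deriv {f : ℝ → ℝ} (hf : Continuous f) (e t : ℝ) :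
    HasDerivAt (stk f e) ((1 / (2 * e)) * (f (t + e) - f (t - e))) t := by
  unfold stk
  have h1 : HasDerivAt (fun u => ∫ s in (0 : ℝ)..u, f s) (f (t + e)) (t + e) :=
    intervalIntegral.integral_hasDerivAt_right (hf.intervalIntegrable _ _)
      hf.stronglyMeasurable.stronglyMeasurableAtFilter hf.continuousAt
  have h2 : HasDerivAt (fun u => ∫ s in (0 : ℝ)..u, f s) (f (t - e)) (t - e) :=
    intervalIntegral.integral_hasDerivAt_right (hf.intervalIntegrable _ _)
      hf.stronglyMeasurable.stronglyMeasurableAtFilter hf.continuousAt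
  have h3 := (h1.comp_add_const t e).sub (h2.comp_sub_const t e)
  refine (h3.const_mul _).congr_of_eventuallyEq (Eventually.of_forall fun u => ?_)
  simp only [Pi.sub_apply]
  rw [intervalIntegral.integral_interval_sub_left (hf.intervalIntegrable _ _)
    (hf.intervalIntegrable _ _)]

theorem stk_bd {f : ℝ → ℝ} {m e : ℝ} (he : 0 < e) (hm : ∀ t, |f t| ≤ m) (t : ℝ) :
    |stk f e t| ≤ m := by
  unfold stk
  have h1 := intervalIntegral.norm_integral_le_of_norm_le_const (a := t - e) (b := t + e)
    (f := f) (C := m) (fun s _ => hm s)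
  have h2 : |t + e - (t - e)| = 2 * e := by
    rw [show t + e - (t - e) = 2 * e by ring, abs_of_pos (by linarith)]
  rw [h2, Real.norm_eq_abs] at h1
  rw [abs_mul, abs_of_pos (by positivity : 0 < 1 / (2 * e))]
  calc 1 / (2 * e) * |∫ s in (t - e)..(t + e), f s| ≤ 1 / (2 * e) * (m * (2 * e)) := by gcongr
    _ = m := by field_simp

theorem stk_sub {f : ℝ → ℝ} (hf : Ef f) {e : ℝ} (he : 0 < e) (t : ℝ) : |stk f e t - f t| ≤ e := by
  have h0 : stk f e t - f t = (1 / (2 * e)) * ∫ s in (t - e)..(t + e), (f s - f t) := by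
    rw [intervalIntegral.integral_sub (hf.cont.intervalIntegrable _ _) intervalIntegrable_const,
      intervalIntegral.integral_const]
    unfold stk
    simp only [smul_eq_mul]
    have : t + e - (t - e) = 2 * e := by ring
    rw [this]
    field_simp
  rw [h0]
  have h1 := intervalIntegral.norm_integral_le_of_norm_le_const (a := t - e) (b := t + e)
    (f := fun s => f s - f t) (C := e) (fun s hs => ?_)
  · have h2 : |t + e - (t - e)| = 2 * e := by
      rw [show t + e - (t - e) = 2 * e by ring, abs_of_pos (by linarith)]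
    rw [h2, Real.norm_eq_abs] at h1
    rw [abs_mul, abs_of_pos (by positivity : 0 < 1 / (2 * e))]
    calc 1 / (2 * e) * |∫ s in (t - e)..(t + e), (f s - f t)| ≤ 1 / (2 * e) * (e * (2 * e)) := by gcongr
      _ = e := by field_simp
  · rw [uIoc_of_le (by linarith)] at hs
    refine (hf.abs_sub s t).trans ?_
    rw [abs_le]
    constructor <;> linarith [hs.1, hs.2]

theorem stk_Ef {f : ℝ → ℝ} (hf : Ef f) {e : ℝ} (he : 0 < e) : Ef (stk f e) := by
  obtain ⟨m, hm0, hm, hb⟩ := hf.exists_bd
  refine ⟨?_, ?_, fun t => lt_of_le_of_lt (stk_bd he hb t) hm⟩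
  · refine lipschitzWith_of_nnnorm_deriv_le (fun t => (stk_deriv hf.cont e t).differentiableAt)
      fun t => ?_
    rw [(stk_deriv hf.cont e t).deriv, ← NNReal.coe_le_coe, coe_nnnorm, Real.norm_eq_abs, abs_mul,
      abs_of_pos (by positivity : 0 < 1 / (2 * e))]
    have h1 := hf.abs_sub (t + e) (t - e)
    have h2 : |t + e - (t - e)| = 2 * e := by
      rw [show t + e - (t - e) = 2 * e by ring, abs_of_pos (by linarith)]
    rw [h2] at h1
    calc 1 / (2 * e) * |f (t + e) - f (t - e)| ≤ 1 / (2 * e) * (2 * e) := by gcongr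
      _ = ((1 : ℝ≥0) : ℝ) := by
        push_cast
        field_simp
  · intro t
    unfold stk
    have h1 : ∫ s in (t + π - e)..(t + π + e), f s = ∫ s in (t - e)..(t + e), f (s + π) := by
      rw [intervalIntegral.integral_comp_add_right]
      congr 1 <;> ring
    rw [h1]
    simp_rw [hf.odd]
    rw [intervalIntegral.integral_neg]
    ring

/-- convergence of integrals -/
theorem tend_int {f : ℝ → ℝ} {fn : ℕ → ℝ → ℝ} {m : ℝ} (hfn : ∀ n, Continuous (fn n))
    (hm : ∀ t, |f t| ≤ m) (hmn : ∀ n t, |fn n t| ≤ m)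
    (hlim : ∀ t, Tendsto (fun n => fn n t) atTop (𝓝 (f t)))
    {G : ℝ → ℝ} (hG : ∀ x, |x| ≤ m → ContinuousAt G x) {w : ℕ → ℝ → ℝ} {w₀ : ℝ → ℝ}
    (hw : ∀ n, Continuous (w n)) (hw0 : ∀ t, Tendsto (fun n => w n t) atTop (𝓝 (w₀ t)))
    {B : ℝ} (hB : ∀ n t, |w n t| ≤ B) :
    Tendsto (fun n => ∫ t in (0 : ℝ)..(2 * π), w n t * G (fn n t)) atTop
      (𝓝 (∫ t in (0 : ℝ)..(2 * π), w₀ t * G (f t))) := by
  have hGc : ContinuousOn G {x | |x| ≤ m} := fun x hx => (hG x hx).continuousWithinAt
  have hcp : IsCompact {x : ℝ | |x| ≤ m} := by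
    have : {x : ℝ | |x| ≤ m} = Icc (-m) m := by
      ext x
      simp [abs_le]
    rw [this]
    exact isCompact_Icc
  obtain ⟨C, hC⟩ := hcp.exists_bound_of_continuousOn hGc
  refine intervalIntegral.tendsto_integral_filter_of_dominated_convergence (fun _ => B * C) ?_ ?_
    intervalIntegrable_const ?_
  · refine Eventually.of_forall fun n => ?_
    exact ((hw n).mul (hGc.comp_continuous (hfn n) (hmn n))).aestronglyMeasurable
  · refine Eventually.of_forall fun n => Eventually.of_forall fun t _ => ?_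
    rw [norm_mul]
    exact mul_le_mul (hB n t) (hC _ (hmn n t)) (norm_nonneg _) ((abs_nonneg _).trans (hB n t))
  · refine Eventually.of_forall fun t _ => ?_
    exact (hw0 t).mul ((hG _ (hm t)).tendsto.comp (hlim t))

theorem ustar_of_nstar {c : ℝ} (hN : NStar c) : UStar c := by
  intro f hf
  obtain ⟨m, hm0, hm, hb⟩ := hf.exists_bd
  set e : ℕ → ℝ := fun n => 1 / ((n : ℝ) + 1) with he
  have he0 : ∀ n, 0 < e n := fun n => by positivity
  have hel : Tendsto e atTop (𝓝 0) := tendsto_one_div_add_atTop_nhds_zero_nat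
  set fn : ℕ → ℝ → ℝ := fun n => stk f (e n) with hfn
  have hE : ∀ n, Ef (fn n) := fun n => stk_Ef hf (he0 n)
  have hbn : ∀ n t, |fn n t| ≤ m := fun n t => stk_bd (he0 n) hb t
  have hlim : ∀ t, Tendsto (fun n => fn n t) atTop (𝓝 (f t)) := by
    intro t
    rw [tendsto_iff_dist_tendsto_zero]
    refine squeeze_zero (fun _ => dist_nonneg) (fun n => ?_) hel
    rw [Real.dist_eq]
    exact stk_sub hf (he0 n) t
  have hcos : ∀ x, |x| ≤ m → 0 < cos x := fun x hx =>
    cos_pos_of_mem_Ioo (abs_lt.1 (lt_of_le_of_lt hx hm))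
  have t0 : Tendsto (fun n => ∫ t in (0 : ℝ)..(2 * π), 1 / cos (fn n t) ^ 2) atTop
      (𝓝 (∫ t in (0 : ℝ)..(2 * π), 1 / cos (f t) ^ 2)) := by
    have := tend_int (fun n => (hE n).cont) hb hbn hlim (G := fun x => 1 / cos x ^ 2)
      (fun x hx => (hasDerivAt_sec2 (hcos x hx)).continuousAt) (w := fun _ _ => 1) (w₀ := fun _ => 1)
      (fun _ => continuous_const) (fun _ => tendsto_const_nhds) (B := 1) (fun _ _ => by simp)
    simpa using this
  have tR : ∀ w : ℝ → ℝ, Continuous w → (∀ t, |w t| ≤ 1) →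
      Tendsto (fun n => ∫ t in (0 : ℝ)..(2 * π), w t * RR (fn n t)) atTop
      (𝓝 (∫ t in (0 : ℝ)..(2 * π), w t * RR (f t))) := fun w hw hw1 =>
    tend_int (fun n => (hE n).cont) hb hbn hlim (G := RR)
      (fun x hx => (hasDerivAt_RR (hcos x hx)).continuousAt) (w := fun _ => w)
      (fun _ => hw) (fun _ => tendsto_const_nhds) (fun _ => hw1)
  have tV0 : Tendsto (fun n => V0 (fn n)) atTop (𝓝 (V0 f)) := t0.const_mul _
  have tF1 : Tendsto (fun n => F1 (fn n)) atTop (𝓝 (F1 f)) :=
    (tR cos continuous_cos abs_cos_le_one).div tV0 hf.V0_pos.ne'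
  have tF2 : Tendsto (fun n => F2 (fn n)) atTop (𝓝 (F2 f)) :=
    (tR sin continuous_sin abs_sin_le_one).div tV0 hf.V0_pos.ne'
  have tz : Tendsto (fun n => zz (fn n)) atTop (𝓝 (zz f)) :=
    (tendsto_const_nhds.sub (tF1.pow 2)).sub (tF2.pow 2)
  have hF : ∀ n, |F1 (fn n)| ≤ 1 ∧ |F2 (fn n)| ≤ 1 := by
    intro n
    have := (hE n).zz_pos
    unfold zz at this
    constructor <;> rw [← sq_le_one_iff_abs_le_one] <;> nlinarith [sq_nonneg (F1 (fn n)), sq_nonneg (F2 (fn n))]
  have tA : Tendsto (fun n => ∫ t in (0 : ℝ)..(2 * π),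
      (sin (fn n t) - F1 (fn n) * cos t - F2 (fn n) * sin t) ^ 2 / cos (fn n t) ^ 4) atTop
      (𝓝 (∫ t in (0 : ℝ)..(2 * π), (sin (f t) - F1 f * cos t - F2 f * sin t) ^ 2 / cos (f t) ^ 4)) := by
    have := tend_int (fun n => (hE n).cont) hb hbn hlim (G := fun x => 1 / cos x ^ 4)
      (fun x hx => ?_) (w := fun n t => (sin (fn n t) - F1 (fn n) * cos t - F2 (fn n) * sin t) ^ 2)
      (w₀ := fun t => (sin (f t) - F1 f * cos t - F2 f * sin t) ^ 2)
      (fun n => ?_) (fun t => ?_) (B := 9) (fun n t => ?_)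
    · refine (this.congr fun n => ?_).trans (le_of_eq ?_)
      · refine intervalIntegral.integral_congr fun t _ => ?_
        ring
      · congr 1
        refine intervalIntegral.integral_congr fun t _ => ?_
        ring
    · exact continuousAt_const.div ((continuous_cos.continuousAt).pow 4) (pow_ne_zero 4 (hcos x hx).ne')
    · exact (((continuous_sin.comp (hE n).cont).sub (continuous_const.mul continuous_cos)).sub
        (continuous_const.mul continuous_sin)).pow 2
    · exact ((((continuous_sin.tendsto _).comp (hlim t)).sub (tF1.mul_const _)).sub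
        (tF2.mul_const _)).pow 2
    · rw [abs_of_nonneg (sq_nonneg _)]
      have h1 := abs_sin_le_one (fn n t)
      have h2 : |F1 (fn n) * cos t| ≤ 1 := by
        rw [abs_mul]
        exact mul_le_one₀ (hF n).1 (abs_nonneg _) (abs_cos_le_one t)
      have h3 : |F2 (fn n) * sin t| ≤ 1 := by
        rw [abs_mul]
        exact mul_le_one₀ (hF n).2 (abs_nonneg _) (abs_sin_le_one t)
      have h4 : |sin (fn n t) - F1 (fn n) * cos t - F2 (fn n) * sin t| ≤ 3 := by
        rw [abs_le] at h1 h2 h3 ⊢
        constructor <;> linarith [h1.1, h1.2, h2.1, h2.2, h3.1, h3.2]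
      have h5 := (sq_le_sq' (abs_le.1 h4).1 (abs_le.1 h4).2)
      linarith
  refine le_of_tendsto_of_tendsto tA ((tz.const_mul c).mul t0) (Eventually.of_forall fun n => ?_)
  refine ustar_c1 hN (hE n) (stk_deriv hf.cont (e n)) ?_
  exact continuous_const.mul ((hf.cont.comp (continuous_add_const _)).sub
    (hf.cont.comp (continuous_sub_right _)))

end Pool.Agent.FPX.UMP
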