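import Mathlib

/-
UMA (helper76): piecewise linear interpolation at the nodes `k d`, `k` an integer.
-/

open MeasureTheory Set Filter Topology
open scoped ENNReal NNReal

noncomputable section

namespace Pool.Agent.FPX

/-- piecewise linear interpolation of `f` at the nodes `k d` -/
def pli (d : ℝ) (f : ℝ → ℝ) (t : ℝ) : ℝ :=
  (1 - Int.fract (t / d)) * f (⌊t / d⌋ * d) + Int.fract (t / d) * f ((⌊t / d⌋ + 1) * d)

theorem pli_node_le {d : ℝ} (hd : 0 < d) (t : ℝ) : (⌊t / d⌋ : ℝ) * d ≤ t := by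
  rw [← le_div_iff₀ hd]
  exact Int.floor_le _

theorem pli_lt_node {d : ℝ} (hd : 0 < d) (t : ℝ) : t < ((⌊t / d⌋ : ℝ) + 1) * d := by
  rw [← div_lt_iff₀ hd]
  exact Int.lt_floor_add_one _

theorem pli_frac {d : ℝ} (hd : 0 < d) (t : ℝ) : Int.fract (t / d) * d = t - ⌊t / d⌋ * d := by
  have h := Int.self_sub_floor (t / d)
  rw [← h, sub_mul, div_mul_cancel₀ _ hd.ne']

/-- the interpolation is a convex combination -/
theorem pli_mem {d : ℝ} (f : ℝ → ℝ) (t : ℝ) {a b : ℝ} (h : ∀ k : ℤ, a ≤ f (k * d) ∧ f (k * d) ≤ b) :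
    a ≤ pli d f t ∧ pli d f t ≤ b := by
  have h0 := Int.fract_nonneg (t / d)
  have h1 := (Int.fract_lt_one (t / d)).le
  have e1 := h ⌊t / d⌋
  have e2 := h (⌊t / d⌋ + 1)
  push_cast at e2
  unfold pli
  constructor
  · nlinarith [mul_nonneg (sub_nonneg.2 h1) (sub_nonneg.2 e1.1), mul_nonneg h0 (sub_nonneg.2 e2.1)]
  · nlinarith [mul_nonneg (sub_nonneg.2 h1) (sub_nonneg.2 e1.2), mul_nonneg h0 (sub_nonneg.2 e2.2)]

theorem pli_abs {d : ℝ} (f : ℝ → ℝ) (t : ℝ) {b : ℝ} (h : ∀ k : ℤ, |f (k * d)| ≤ b) :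
    |pli d f t| ≤ b :=
  abs_le.2 (pli_mem f t fun k => abs_le.1 (h k))

theorem pli_sq {d : ℝ} (f g : ℝ → ℝ) (t : ℝ) (h : ∀ k : ℤ, f (k * d) ^ 2 + g (k * d) ^ 2 ≤ 1) :
    pli d f t ^ 2 + pli d g t ^ 2 ≤ 1 := by
  have h0 := Int.fract_nonneg (t / d)
  have h1 := sub_nonneg.2 (Int.fract_lt_one (t / d)).le
  have e1 := h ⌊t / d⌋
  have e2 := h (⌊t / d⌋ + 1)
  push_cast at e2
  unfold pli
  set l := Int.fract (t / d)
  set a := f (⌊t / d⌋ * d)
  set b := f ((⌊t / d⌋ + 1) * d)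
  set a' := g (⌊t / d⌋ * d)
  set b' := g ((⌊t / d⌋ + 1) * d)
  nlinarith [mul_nonneg (mul_nonneg h0 h1) (sq_nonneg (a - b)),
    mul_nonneg (mul_nonneg h0 h1) (sq_nonneg (a' - b')), mul_nonneg h1 (sub_nonneg.2 e1),
    mul_nonneg h0 (sub_nonneg.2 e2)]

/-- odd functions have odd interpolations -/
theorem pli_odd {n : ℕ} (hn : n ≠ 0) {f : ℝ → ℝ} (hf : ∀ t, f (t + Real.pi) = -f t) (t : ℝ) :
    pli (Real.pi / n) f (t + Real.pi) = -pli (Real.pi / n) f t := by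
  have hn' : (n : ℝ) ≠ 0 := Nat.cast_ne_zero.2 hn
  have e : (t + Real.pi) / (Real.pi / n) = t / (Real.pi / n) + (n : ℤ) := by
    push_cast
    field_simp
  unfold pli
  rw [e, Int.fract_add_intCast, Int.floor_add_intCast]
  have e1 : (((⌊t / (Real.pi / n)⌋ + (n : ℤ) : ℤ)) : ℝ) * (Real.pi / n) =
      ⌊t / (Real.pi / n)⌋ * (Real.pi / n) + Real.pi := by
    push_cast
    field_simp
  have e2 : ((((⌊t / (Real.pi / n)⌋ + (n : ℤ) : ℤ)) : ℝ) + 1) * (Real.pi / n) =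
      (⌊t / (Real.pi / n)⌋ + 1) * (Real.pi / n) + Real.pi := by
    push_cast
    field_simp
    ring
  rw [e1, e2, hf, hf]
  ring

private theorem pli_left {d : ℝ} (hd : 0 < d) {f : ℝ → ℝ} (hf : LipschitzWith 1 f) (t : ℝ) :
    |pli d f t - f (⌊t / d⌋ * d)| ≤ t - ⌊t / d⌋ * d := by
  have h0 := Int.fract_nonneg (t / d)
  have h1 := hf.dist_le_mul ((⌊t / d⌋ + 1) * d) (⌊t / d⌋ * d)
  rw [Real.dist_eq, Real.dist_eq] at h1
  have e2 : ((⌊t / d⌋ : ℝ) + 1) * d - ⌊t / d⌋ * d = d := by ring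
  rw [e2, abs_of_pos hd, NNReal.coe_one, one_mul] at h1
  have e : pli d f t - f (⌊t / d⌋ * d) =
      Int.fract (t / d) * (f ((⌊t / d⌋ + 1) * d) - f (⌊t / d⌋ * d)) := by
    unfold pli
    ring
  rw [e, abs_mul, abs_of_nonneg h0, ← pli_frac hd t]
  exact mul_le_mul_of_nonneg_left h1 h0

private theorem pli_right {d : ℝ} (hd : 0 < d) {f : ℝ → ℝ} (hf : LipschitzWith 1 f) (t : ℝ) :
    |pli d f t - f ((⌊t / d⌋ + 1) * d)| ≤ (⌊t / d⌋ + 1) * d - t := by
  have h0 := sub_nonneg.2 (Int.fract_lt_one (t / d)).le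
  have h1 := hf.dist_le_mul (⌊t / d⌋ * d) ((⌊t / d⌋ + 1) * d)
  rw [Real.dist_eq, Real.dist_eq] at h1
  have e2 : (⌊t / d⌋ : ℝ) * d - (⌊t / d⌋ + 1) * d = -d := by ring
  rw [e2, abs_neg, abs_of_pos hd, NNReal.coe_one, one_mul] at h1
  have e : pli d f t - f ((⌊t / d⌋ + 1) * d) =
      (1 - Int.fract (t / d)) * (f (⌊t / d⌋ * d) - f ((⌊t / d⌋ + 1) * d)) := by
    unfold pli
    ring
  have e3 : ((⌊t / d⌋ : ℝ) + 1) * d - t = (1 - Int.fract (t / d)) * d := by
    rw [sub_mul, pli_frac hd t]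
    ring
  rw [e, abs_mul, abs_of_nonneg h0, e3]
  exact mul_le_mul_of_nonneg_left h1 h0

private theorem pli_le {d : ℝ} (hd : 0 < d) {f : ℝ → ℝ} (hf : LipschitzWith 1 f) {s t : ℝ}
    (hst : s ≤ t) : |pli d f t - pli d f s| ≤ t - s := by
  have hfl : ⌊s / d⌋ ≤ ⌊t / d⌋ := Int.floor_le_floor (by gcongr)
  rcases hfl.eq_or_lt with h | h
  · -- the same cell
    have h1 := hf.dist_le_mul ((⌊t / d⌋ + 1) * d) (⌊t / d⌋ * d)
    rw [Real.dist_eq, Real.dist_eq] at h1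
    have e2 : ((⌊t / d⌋ : ℝ) + 1) * d - ⌊t / d⌋ * d = d := by ring
    rw [e2, abs_of_pos hd, NNReal.coe_one, one_mul] at h1
    have f1 := pli_frac hd t
    have f2 := pli_frac hd s
    rw [h] at f2
    have e : pli d f t - pli d f s =
        (Int.fract (t / d) - Int.fract (s / d)) * (f ((⌊t / d⌋ + 1) * d) - f (⌊t / d⌋ * d)) := by
      unfold pli
      rw [h]
      ring
    have h3 : 0 ≤ Int.fract (t / d) - Int.fract (s / d) := by
      have h4 : (Int.fract (t / d) - Int.fract (s / d)) * d = t - s := by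
        rw [sub_mul, f1, f2]
        ring
      have h5 : 0 ≤ (Int.fract (t / d) - Int.fract (s / d)) * d := by linarith
      exact nonneg_of_mul_nonneg_left h5 hd
    rw [e, abs_mul, abs_of_nonneg h3]
    calc _ ≤ (Int.fract (t / d) - Int.fract (s / d)) * d := mul_le_mul_of_nonneg_left h1 h3
      _ = t - s := by
        rw [sub_mul, f1, f2]
        ring
  · have a1 := pli_left hd hf t
    have a2 := pli_right hd hf s
    have a3 := hf.dist_le_mul (⌊t / d⌋ * d) ((⌊s / d⌋ + 1) * d)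
    rw [Real.dist_eq, Real.dist_eq, NNReal.coe_one, one_mul] at a3
    have h4 : ((⌊s / d⌋ : ℝ) + 1) * d ≤ ⌊t / d⌋ * d := by
      have : ((⌊s / d⌋ : ℝ) + 1) ≤ ⌊t / d⌋ := by exact_mod_cast h
      exact mul_le_mul_of_nonneg_right this hd.le
    rw [abs_of_nonneg (sub_nonneg.2 h4)] at a3
    have e : pli d f t - pli d f s = (pli d f t - f (⌊t / d⌋ * d)) +
        (f (⌊t / d⌋ * d) - f ((⌊s / d⌋ + 1) * d)) + -(pli d f s - f ((⌊s / d⌋ + 1) * d)) := by ring
    rw [e]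
    refine (abs_add_three _ _ _).trans ?_
    rw [abs_neg]
    linarith

theorem pli_lip {d : ℝ} (hd : 0 < d) {f : ℝ → ℝ} (hf : LipschitzWith 1 f) :
    LipschitzWith 1 (pli d f) := by
  refine LipschitzWith.of_dist_le_mul fun s t => ?_
  rw [Real.dist_eq, Real.dist_eq, NNReal.coe_one, one_mul]
  rcases le_total s t with h | h
  · rw [abs_sub_comm, abs_sub_comm s t, abs_of_nonneg (sub_nonneg.2 h)]
    exact pli_le hd hf h
  · rw [abs_of_nonneg (sub_nonneg.2 h)]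
    exact pli_le hd hf h

/-- the interpolation is close to the function -/
theorem pli_close {d : ℝ} (hd : 0 < d) {f : ℝ → ℝ} (hf : LipschitzWith 1 f) (t : ℝ) :
    |pli d f t - f t| ≤ 2 * d := by
  have a1 := pli_left hd hf t
  have a3 := hf.dist_le_mul (⌊t / d⌋ * d) t
  rw [Real.dist_eq, Real.dist_eq, NNReal.coe_one, one_mul] at a3
  have h1 := pli_node_le hd t
  have h2 := pli_lt_node hd t
  have h3 : |(⌊t / d⌋ : ℝ) * d - t| ≤ d := by
    rw [abs_sub_comm, abs_of_nonneg (by linarith)]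
    linarith
  have e : pli d f t - f t = (pli d f t - f (⌊t / d⌋ * d)) + (f (⌊t / d⌋ * d) - f t) := by ring
  rw [e]
  refine (abs_add_le _ _).trans ?_
  linarith

/-- scaling -/
theorem pli_smul (d c : ℝ) (f : ℝ → ℝ) (t : ℝ) : pli d (fun s => c * f s) t = c * pli d f t := by
  unfold pli
  ring

theorem pli_neg (d : ℝ) (f : ℝ → ℝ) (t : ℝ) : pli d (fun s => -f s) t = -pli d f t := by
  unfold pli
  ring

theorem pli_add (d : ℝ) (f g : ℝ → ℝ) (t : ℝ) :
    pli d (fun s => f s + g s) t = pli d f t + pli d g t := by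
  unfold pli
  ring

theorem pli_sub (d : ℝ) (f g : ℝ → ℝ) (t : ℝ) :
    pli d (fun s => f s - g s) t = pli d f t - pli d g t := by
  unfold pli
  ring

/-- derivative with respect to a parameter -/
theorem pli_deriv {d : ℝ} {f : ℝ → ℝ → ℝ} {h : ℝ → ℝ} {x : ℝ}
    (hf : ∀ k : ℤ, HasDerivAt (fun s => f s (k * d)) (h (k * d)) x) (t : ℝ) :
    HasDerivAt (fun s => pli d (f s) t) (pli d h t) x := by
  unfold pli
  have h1 := hf ⌊t / d⌋
  have h2 := hf (⌊t / d⌋ + 1)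
  push_cast at h2
  exact (h1.const_mul _).add (h2.const_mul _)

/-- the interpolation is measurable -/
theorem pli_meas (d : ℝ) (f : ℝ → ℝ) : Measurable (pli d f) := by
  have hfl : Measurable fun t : ℝ => ⌊t / d⌋ := Int.measurable_floor.comp (measurable_id.div_const d)
  have h1 : Measurable fun t : ℝ => f ((⌊t / d⌋ : ℝ) * d) :=
    (measurable_from_top (f := fun k : ℤ => f ((k : ℝ) * d))).comp hfl
  have h2 : Measurable fun t : ℝ => f (((⌊t / d⌋ : ℝ) + 1) * d) :=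
    (measurable_from_top (f := fun k : ℤ => f (((k : ℝ) + 1) * d))).comp hfl
  have h3 : Measurable fun t : ℝ => Int.fract (t / d) :=
    measurable_fract.comp (measurable_id.div_const d)
  exact ((measurable_const.sub h3).mul h1).add (h3.mul h2)

/-- on a bounded interval only finitely many nodes are used -/
theorem pli_local {d : ℝ} (hd : 0 < d) {f : ℝ → ℝ → ℝ} {h : ℝ → ℝ} {x : ℝ}
    (hf : ∀ k : ℤ, HasDerivAt (fun s => f s (k * d)) (h (k * d)) x) (a b : ℝ) :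
    ∃ C : ℝ, 0 ≤ C ∧ ∀ᶠ s in 𝓝 x, ∀ t ∈ Icc a b, |pli d (f s) t - pli d (f x) t| ≤ C * |s - x| := by
  set S : Finset ℤ := Finset.Icc ⌊a / d⌋ (⌊b / d⌋ + 1) with hS
  have h1 : ∀ k : ℤ, ∀ᶠ s in 𝓝 x, |f s (k * d) - f x (k * d)| ≤ (|h (k * d)| + 1) * |s - x| := by
    intro k
    have h2 := (hasDerivAt_iff_isLittleO.1 (hf k)).def one_pos
    filter_upwards [h2] with s hs
    rw [Real.norm_eq_abs, Real.norm_eq_abs, smul_eq_mul, one_mul] at hs
    have e : f s (k * d) - f x (k * d) = (f s (k * d) - f x (k * d) - (s - x) * h (k * d)) +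
        (s - x) * h (k * d) := by ring
    rw [e]
    refine (abs_add_le _ _).trans ?_
    rw [abs_mul]
    nlinarith
  have h3 : ∀ᶠ s in 𝓝 x, ∀ k ∈ S, |f s (k * d) - f x (k * d)| ≤ (|h (k * d)| + 1) * |s - x| := by
    rw [Filter.eventually_all_finset]
    exact fun k _ => h1 k
  refine ⟨∑ k ∈ S, (|h (k * d)| + 1), Finset.sum_nonneg fun k _ => by positivity, ?_⟩
  filter_upwards [h3] with s hs t ht
  have hk : ∀ k ∈ S, |f s (k * d) - f x (k * d)| ≤ (∑ k ∈ S, (|h (k * d)| + 1)) * |s - x| := by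
    intro k hk
    refine (hs k hk).trans (mul_le_mul_of_nonneg_right ?_ (abs_nonneg _))
    exact Finset.single_le_sum (f := fun k : ℤ => |h (k * d)| + 1) (fun i _ => by positivity) hk
  have m1 : ⌊t / d⌋ ∈ S := by
    rw [hS, Finset.mem_Icc]
    refine ⟨Int.floor_le_floor (div_le_div_of_nonneg_right ht.1 hd.le), ?_⟩
    exact (Int.floor_le_floor (div_le_div_of_nonneg_right ht.2 hd.le)).trans (by omega)
  have m2 : ⌊t / d⌋ + 1 ∈ S := by
    rw [hS, Finset.mem_Icc]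
    have a1 := Int.floor_le_floor (div_le_div_of_nonneg_right ht.1 hd.le)
    have a2 := Int.floor_le_floor (div_le_div_of_nonneg_right ht.2 hd.le)
    constructor
    · omega
    · omega
  have b1 := hk _ m1
  have b2 := hk _ m2
  push_cast at b2
  have h0 := Int.fract_nonneg (t / d)
  have h1 := sub_nonneg.2 (Int.fract_lt_one (t / d)).le
  have e : pli d (f s) t - pli d (f x) t =
      (1 - Int.fract (t / d)) * (f s (⌊t / d⌋ * d) - f x (⌊t / d⌋ * d)) +
      Int.fract (t / d) * (f s ((⌊t / d⌋ + 1) * d) - f x ((⌊t / d⌋ + 1) * d)) := by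
    unfold pli
    ring
  rw [e]
  refine (abs_add_le _ _).trans ?_
  rw [abs_mul, abs_mul, abs_of_nonneg h0, abs_of_nonneg h1]
  nlinarith [mul_nonneg h1 (sub_nonneg.2 b1), mul_nonneg h0 (sub_nonneg.2 b2)]

end Pool.Agent.FPX
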