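import Mathlib
import Pool.Agent.FPX.UMP1
import Pool.Agent.FPX.UMA

/-
UMB (helper76): derivatives of the coordinates of the universal map along curves of functions.
-/

open MeasureTheory Set Filter Topology
open scoped ENNReal NNReal

noncomputable section

namespace Pool.Agent.FPX.UMQ

open Pool.Agent.FPX.UMP

open Real

/-- derivative of an integral with respect to a parameter, at one point -/
theorem hasDerivAt_int {F : ℝ → ℝ → ℝ} {F' : ℝ → ℝ} {x a b C : ℝ} (hab : a ≤ b)
    (hm : ∀ s, Measurable (F s)) (hi : IntervalIntegrable (F x) volume a b) (hm' : Measurable F')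
    (hl : ∀ᶠ s in 𝓝 x, ∀ t ∈ Icc a b, |F s t - F x t| ≤ C * |s - x|)
    (hd : ∀ t ∈ Icc a b, HasDerivAt (fun s => F s t) (F' t) x) :
    HasDerivAt (fun s => ∫ t in a..b, F s t) (∫ t in a..b, F' t) x := by
  simp only [intervalIntegral.integral_of_le hab]
  set L : ℝ → (ℝ →L[ℝ] ℝ) := fun t => ContinuousLinearMap.toSpanSingleton ℝ (F' t) with hL
  have hLm : AEStronglyMeasurable L (volume.restrict (Ioc a b)) := by
    have e : L = fun t => F' t • ContinuousLinearMap.toSpanSingleton ℝ (1 : ℝ) := by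
      funext t
      ext
      simp [hL]
    rw [e]
    exact (hm'.smul_const _).aestronglyMeasurable
  have key := hasFDerivAt_integral_of_dominated_loc_of_lip' (𝕜 := ℝ) (μ := volume.restrict (Ioc a b))
    (F := F) (F' := L) (x₀ := x) (bound := fun _ => C)
    (s := {s | ∀ t ∈ Icc a b, |F s t - F x t| ≤ C * |s - x|}) hl
    (fun s _ => (hm s).aestronglyMeasurable) hi.1 hLm ?_ (integrable_const C) ?_
  · have h2 := key.2.hasDerivAt
    refine h2.congr_deriv ?_
    rw [ContinuousLinearMap.integral_apply key.1]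
    refine integral_congr_ae (Eventually.of_forall fun t => ?_)
    simp [hL]
  · rw [ae_restrict_iff' measurableSet_Ioc]
    refine Eventually.of_forall fun t ht s hs => ?_
    exact hs t (Ioc_subset_Icc_self ht)
  · rw [ae_restrict_iff' measurableSet_Ioc]
    refine Eventually.of_forall fun t ht => ?_
    exact (hd t (Ioc_subset_Icc_self ht)).hasFDerivAt

/-- a curve of functions with a derivative at the parameter `x` -/
structure Crv (φ : ℝ → ℝ → ℝ) (h : ℝ → ℝ) (x : ℝ) : Prop where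
  meas : ∀ s, Measurable (φ s)
  measd : Measurable h
  der : ∀ t, HasDerivAt (fun s => φ s t) (h t) x
  loc : ∃ C : ℝ, 0 ≤ C ∧ ∀ᶠ s in 𝓝 x, ∀ t ∈ Icc (0 : ℝ) (2 * π), |φ s t - φ x t| ≤ C * |s - x|
  bd : ∃ m : ℝ, 0 ≤ m ∧ m < π / 2 ∧ ∀ᶠ s in 𝓝 x, ∀ t, |φ s t| ≤ m
  ef : Ef (φ x)

namespace Crv

variable {φ : ℝ → ℝ → ℝ} {h : ℝ → ℝ} {x : ℝ}

/-- derivative of an integral of a function of `φ` -/
theorem int (H : Crv φ h x) {g g' : ℝ → ℝ} (hg : Measurable g) (hg' : Measurable g')
    (hd : ∀ y, 0 < cos y → HasDerivAt g (g' y) y)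
    (hb : ∀ m, 0 ≤ m → m < π / 2 → ∃ B, ∀ y, |y| ≤ m → |g' y| ≤ B)
    (hc : Continuous fun t => g (φ x t)) {w : ℝ → ℝ}
    (hw : Continuous w) (hw1 : ∀ t, |w t| ≤ 1) :
    HasDerivAt (fun s => ∫ t in (0 : ℝ)..(2 * π), w t * g (φ s t))
      (∫ t in (0 : ℝ)..(2 * π), w t * (g' (φ x t) * h t)) x := by
  obtain ⟨C, hC0, hC⟩ := H.loc
  obtain ⟨m, hm0, hm, hbd⟩ := H.bd
  obtain ⟨B, hB⟩ := hb m hm0 hm
  have hcm : 0 < cos m := cos_pos_of_mem_Ioo ⟨by linarith, hm⟩
  have hB0 : 0 ≤ B := (abs_nonneg _).trans (hB 0 (by simpa using hm0))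
  refine hasDerivAt_int (C := B * C) (by positivity) (fun s => hw.measurable.mul (hg.comp (H.meas s)))
    ((hw.mul hc).intervalIntegrable _ _)
    (hw.measurable.mul ((hg'.comp (H.meas x)).mul H.measd)) ?_ ?_
  · filter_upwards [hC, hbd] with s hs hbs t ht
    have h1 : |g (φ s t) - g (φ x t)| ≤ B * |φ s t - φ x t| := by
      have := (convex_Icc (-m) m).norm_image_sub_le_of_norm_hasDerivWithin_le
        (f := g) (f' := g') (C := B)
        (fun y hy => (hd y (lt_of_lt_of_le hcm (Ef.cosm hm0 hm (abs_le.2 hy)))).hasDerivWithinAt)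
        (fun y hy => by rw [Real.norm_eq_abs]; exact hB y (abs_le.2 hy))
        (abs_le.1 (hbd.self_of_nhds t)) (abs_le.1 (hbs t))
      simpa using this
    have e : w t * g (φ s t) - w t * g (φ x t) = w t * (g (φ s t) - g (φ x t)) := by ring
    rw [e, abs_mul]
    calc |w t| * |g (φ s t) - g (φ x t)| ≤ 1 * (B * |φ s t - φ x t|) :=
          mul_le_mul (hw1 t) h1 (abs_nonneg _) zero_le_one
      _ ≤ 1 * (B * (C * |s - x|)) := by
          have := hs t ht
          gcongr
      _ = B * C * |s - x| := by ring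
  · intro t _
    exact ((hd _ (H.ef.cos_pos t)).comp x (H.der t)).const_mul (w t)

theorem bound_pow {k : ℕ} (m : ℝ) (hm0 : 0 ≤ m) (hm : m < π / 2) :
    ∃ B, ∀ y, |y| ≤ m → |1 / cos y ^ k| ≤ B := by
  have hcm : 0 < cos m := cos_pos_of_mem_Ioo ⟨by linarith, hm⟩
  refine ⟨1 / cos m ^ k, fun y hy => ?_⟩
  have h1 := Ef.cosm hm0 hm hy
  have h2 : 0 < cos y := hcm.trans_le h1
  rw [abs_of_pos (by positivity)]
  exact one_div_le_one_div_of_le (by positivity) (pow_le_pow_left₀ hcm.le h1 k)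

theorem V0 (H : Crv φ h x) : HasDerivAt (fun s => UMP.V0 (φ s))
    (∫ t in (0 : ℝ)..(2 * π), sin (φ x t) / cos (φ x t) ^ 3 * h t) x := by
  have h1 := H.int (g := fun y => 1 / cos y ^ 2) (g' := fun y => 2 * sin y / cos y ^ 3) (w := fun _ => 1)
    (by fun_prop) (by fun_prop) (fun y hy => hasDerivAt_sec2 hy) (fun m hm0 hm => by
      obtain ⟨B, hB⟩ := bound_pow (k := 3) m hm0 hm
      refine ⟨2 * B, fun y hy => ?_⟩
      have e : 2 * sin y / cos y ^ 3 = 2 * sin y * (1 / cos y ^ 3) := by ring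
      rw [e, abs_mul, abs_mul, abs_two]
      have := hB y hy
      have h3 := abs_sin_le_one y
      have hB0 : 0 ≤ B := (abs_nonneg _).trans this
      calc 2 * |sin y| * |1 / cos y ^ 3| ≤ 2 * 1 * B := by gcongr
        _ = 2 * B := by ring) H.ef.cont_sec2 continuous_const (fun t => by simp)
  simp only [one_mul] at h1
  have h2 := h1.const_mul (1 / 2)
  unfold UMP.V0
  refine h2.congr_deriv ?_
  rw [← intervalIntegral.integral_const_mul]
  refine intervalIntegral.integral_congr fun t _ => ?_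
  ring

theorem meas_RR : Measurable RR := by
  unfold RR
  have h1 : Measurable tan := by
    have : tan = fun y => sin y / cos y := funext tan_eq_sin_div_cos
    rw [this]
    exact measurable_sin.div measurable_cos
  exact ((h1.div measurable_cos).add (continuous_arsinh.measurable.comp h1)).div_const 2

theorem VV (H : Crv φ h x) {w : ℝ → ℝ} (hw : Continuous w) (hw1 : ∀ t, |w t| ≤ 1) :
    HasDerivAt (fun s => ∫ t in (0 : ℝ)..(2 * π), w t * RR (φ s t))
      (∫ t in (0 : ℝ)..(2 * π), w t / cos (φ x t) ^ 3 * h t) x := by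
  have h1 := H.int (g := RR) (g' := fun y => 1 / cos y ^ 3) (w := w) meas_RR (by fun_prop)
    (fun y hy => hasDerivAt_RR hy) (fun m hm0 hm => bound_pow m hm0 hm) H.ef.cont_RR hw hw1
  refine h1.congr_deriv ?_
  refine intervalIntegral.integral_congr fun t _ => ?_
  ring

theorem V1 (H : Crv φ h x) : HasDerivAt (fun s => UMP.V1 (φ s))
    (∫ t in (0 : ℝ)..(2 * π), cos t / cos (φ x t) ^ 3 * h t) x :=
  H.VV continuous_cos abs_cos_le_one

theorem V2 (H : Crv φ h x) : HasDerivAt (fun s => UMP.V2 (φ s))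
    (∫ t in (0 : ℝ)..(2 * π), sin t / cos (φ x t) ^ 3 * h t) x :=
  H.VV continuous_sin abs_sin_le_one

end Crv

/-- the weight `sec²` times `2 / ∫ sec²` -/
def ww (f : ℝ → ℝ) (t : ℝ) : ℝ := 1 / (V0 f * cos (f t) ^ 2)

/-- first coordinate of the vector that multiplies the variation -/
def q1 (f : ℝ → ℝ) (t : ℝ) : ℝ := (cos t - F1 f * sin (f t)) / cos (f t)

/-- second coordinate -/
def q2 (f : ℝ → ℝ) (t : ℝ) : ℝ := (sin t - F2 f * sin (f t)) / cos (f t)

/-- third coordinate -/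
def q3 (f : ℝ → ℝ) (t : ℝ) : ℝ := -(F1 f * q1 f t + F2 f * q2 f t) / √(zz f)

theorem cont_ww {f : ℝ → ℝ} (hf : Ef f) : Continuous (ww f) := by
  unfold ww
  refine continuous_const.div (continuous_const.mul ((continuous_cos.comp hf.cont).pow 2)) fun t => ?_
  have := hf.cos_pos t
  have := hf.V0_pos
  positivity

theorem cont_q1 {f : ℝ → ℝ} (hf : Ef f) : Continuous (q1 f) := by
  unfold q1
  exact (continuous_cos.sub (continuous_const.mul (continuous_sin.comp hf.cont))).div
    (continuous_cos.comp hf.cont) fun t => (hf.cos_pos t).ne'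

theorem cont_q2 {f : ℝ → ℝ} (hf : Ef f) : Continuous (q2 f) := by
  unfold q2
  exact (continuous_sin.sub (continuous_const.mul (continuous_sin.comp hf.cont))).div
    (continuous_cos.comp hf.cont) fun t => (hf.cos_pos t).ne'

theorem cont_q3 {f : ℝ → ℝ} (hf : Ef f) : Continuous (q3 f) := by
  unfold q3
  exact ((continuous_const.mul (cont_q1 hf)).add (continuous_const.mul (cont_q2 hf))).neg.div_const _

theorem ww_pos {f : ℝ → ℝ} (hf : Ef f) (t : ℝ) : 0 < ww f t := by
  unfold ww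
  have := hf.cos_pos t
  have := hf.V0_pos
  positivity

theorem int_ww {f : ℝ → ℝ} (hf : Ef f) : ∫ t in (0 : ℝ)..(2 * π), ww f t = 2 := by
  have h0 := hf.V0_pos
  have e : ∀ t, ww f t = (1 / V0 f) * (1 / cos (f t) ^ 2) := by
    intro t
    unfold ww
    have := hf.cos_pos t
    field_simp
  simp only [e]
  rw [intervalIntegral.integral_const_mul]
  have h1 : ∫ t in (0 : ℝ)..(2 * π), 1 / cos (f t) ^ 2 = 2 * V0 f := by
    unfold V0
    ring
  rw [h1]
  field_simp

/-- bounded measurable functions against continuous ones -/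
theorem int_mul {f h : ℝ → ℝ} (hf : Continuous f) (hm : Measurable h) {b : ℝ} (hb : ∀ t, |h t| ≤ b)
    (x y : ℝ) : IntervalIntegrable (fun t => f t * h t) volume x y := by
  have h1 : IntervalIntegrable h volume x y := by
    refine (intervalIntegrable_const (c := b)).mono_fun hm.aestronglyMeasurable ?_
    exact Eventually.of_forall fun t => (hb t).trans (le_abs_self b)
  exact h1.continuousOn_mul hf.continuousOn

namespace Crv

variable {φ : ℝ → ℝ → ℝ} {h : ℝ → ℝ} {x : ℝ}

theorem F1 (H : Crv φ h x) {b : ℝ} (hb : ∀ t, |h t| ≤ b) : HasDerivAt (fun s => UMP.F1 (φ s))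
    (∫ t in (0 : ℝ)..(2 * π), ww (φ x) t * q1 (φ x) t * h t) x := by
  have h0 := H.ef.V0_pos
  have h1 := H.V1.div H.V0 h0.ne'
  unfold UMP.F1
  refine h1.congr_deriv ?_
  have i1 : IntervalIntegrable (fun t => cos t / cos (φ x t) ^ 3 * h t) volume 0 (2 * π) :=
    int_mul (continuous_cos.div ((continuous_cos.comp H.ef.cont).pow 3)
      fun t => pow_ne_zero 3 (H.ef.cos_pos t).ne') H.measd hb _ _
  have i0 : IntervalIntegrable (fun t => sin (φ x t) / cos (φ x t) ^ 3 * h t) volume 0 (2 * π) :=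
    int_mul ((continuous_sin.comp H.ef.cont).div ((continuous_cos.comp H.ef.cont).pow 3)
      fun t => pow_ne_zero 3 (H.ef.cos_pos t).ne') H.measd hb _ _
  have e : ∫ t in (0 : ℝ)..(2 * π), ww (φ x) t * q1 (φ x) t * h t =
      (1 / UMP.V0 (φ x)) * (∫ t in (0 : ℝ)..(2 * π), cos t / cos (φ x t) ^ 3 * h t)
      - (UMP.V1 (φ x) / UMP.V0 (φ x) ^ 2) *
        (∫ t in (0 : ℝ)..(2 * π), sin (φ x t) / cos (φ x t) ^ 3 * h t) := by
    rw [← intervalIntegral.integral_const_mul, ← intervalIntegral.integral_const_mul,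
      ← intervalIntegral.integral_sub (i1.const_mul _) (i0.const_mul _)]
    refine intervalIntegral.integral_congr fun t _ => ?_
    have hc := H.ef.cos_pos t
    simp only [ww, q1, UMP.F1]
    field_simp
  rw [e]
  field_simp

theorem F2 (H : Crv φ h x) {b : ℝ} (hb : ∀ t, |h t| ≤ b) : HasDerivAt (fun s => UMP.F2 (φ s))
    (∫ t in (0 : ℝ)..(2 * π), ww (φ x) t * q2 (φ x) t * h t) x := by
  have h0 := H.ef.V0_pos
  have h1 := H.V2.div H.V0 h0.ne'
  unfold UMP.F2
  refine h1.congr_deriv ?_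
  have i1 : IntervalIntegrable (fun t => sin t / cos (φ x t) ^ 3 * h t) volume 0 (2 * π) :=
    int_mul (continuous_sin.div ((continuous_cos.comp H.ef.cont).pow 3)
      fun t => pow_ne_zero 3 (H.ef.cos_pos t).ne') H.measd hb _ _
  have i0 : IntervalIntegrable (fun t => sin (φ x t) / cos (φ x t) ^ 3 * h t) volume 0 (2 * π) :=
    int_mul ((continuous_sin.comp H.ef.cont).div ((continuous_cos.comp H.ef.cont).pow 3)
      fun t => pow_ne_zero 3 (H.ef.cos_pos t).ne') H.measd hb _ _
  have e : ∫ t in (0 : ℝ)..(2 * π), ww (φ x) t * q2 (φ x) t * h t =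
      (1 / UMP.V0 (φ x)) * (∫ t in (0 : ℝ)..(2 * π), sin t / cos (φ x t) ^ 3 * h t)
      - (UMP.V2 (φ x) / UMP.V0 (φ x) ^ 2) *
        (∫ t in (0 : ℝ)..(2 * π), sin (φ x t) / cos (φ x t) ^ 3 * h t) := by
    rw [← intervalIntegral.integral_const_mul, ← intervalIntegral.integral_const_mul,
      ← intervalIntegral.integral_sub (i1.const_mul _) (i0.const_mul _)]
    refine intervalIntegral.integral_congr fun t _ => ?_
    have hc := H.ef.cos_pos t
    simp only [ww, q2, UMP.F2]
    field_simp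
  rw [e]
  field_simp

theorem F3 (H : Crv φ h x) {b : ℝ} (hb : ∀ t, |h t| ≤ b) : HasDerivAt (fun s => √(zz (φ s)))
    (∫ t in (0 : ℝ)..(2 * π), ww (φ x) t * q3 (φ x) t * h t) x := by
  have hz := H.ef.zz_pos
  have h1 := H.F1 hb
  have h2 := H.F2 hb
  have h3 : HasDerivAt (fun s => zz (φ s))
      (-(2 * UMP.F1 (φ x) * ∫ t in (0 : ℝ)..(2 * π), ww (φ x) t * q1 (φ x) t * h t)
        - 2 * UMP.F2 (φ x) * ∫ t in (0 : ℝ)..(2 * π), ww (φ x) t * q2 (φ x) t * h t) x := by
    unfold zz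
    refine (((h1.pow 2).const_sub 1).sub (h2.pow 2)).congr_deriv ?_
    push_cast
    ring
  have h4 := h3.sqrt hz.ne'
  refine h4.congr_deriv ?_
  have i1 : IntervalIntegrable (fun t => ww (φ x) t * q1 (φ x) t * h t) volume 0 (2 * π) :=
    int_mul ((cont_ww H.ef).mul (cont_q1 H.ef)) H.measd hb _ _
  have i2 : IntervalIntegrable (fun t => ww (φ x) t * q2 (φ x) t * h t) volume 0 (2 * π) :=
    int_mul ((cont_ww H.ef).mul (cont_q2 H.ef)) H.measd hb _ _
  have hs : 0 < √(zz (φ x)) := sqrt_pos.2 hz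
  have e : ∫ t in (0 : ℝ)..(2 * π), ww (φ x) t * q3 (φ x) t * h t =
      -(UMP.F1 (φ x) / √(zz (φ x))) * (∫ t in (0 : ℝ)..(2 * π), ww (φ x) t * q1 (φ x) t * h t)
      - (UMP.F2 (φ x) / √(zz (φ x))) * (∫ t in (0 : ℝ)..(2 * π), ww (φ x) t * q2 (φ x) t * h t) := by
    rw [← intervalIntegral.integral_const_mul, ← intervalIntegral.integral_const_mul,
      ← intervalIntegral.integral_sub (i1.const_mul _) (i2.const_mul _)]
    refine intervalIntegral.integral_congr fun t _ => ?_
    simp only [q3]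
    field_simp
    ring
  rw [e]
  field_simp

end Crv

end Pool.Agent.FPX.UMQ
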