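import Mathlib
import Pool.Agent.FPX.UMB

/-
UMC (helper76): the energy bound of the universal map. For a variation `(h, k)` with `h² + k² ≤ 1` the
derivatives `a`, `b` of the map satisfy `(|a|² + |b|²)/2 + |⟨Y, b × a⟩| ≤ 2 (1 + c)`.
-/

open MeasureTheory Set Filter Topology
open scoped ENNReal NNReal

noncomputable section

namespace Pool.Agent.FPX.UMQ

open Pool.Agent.FPX.UMP

open Real

/-- the inequality of `UStar` for one function -/
def UAt (c : ℝ) (f : ℝ → ℝ) : Prop :=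
  ∫ t in (0 : ℝ)..(2 * Real.pi),
    (Real.sin (f t) - F1 f * Real.cos t - F2 f * Real.sin t) ^ 2 / Real.cos (f t) ^ 4
  ≤ c * zz f * ∫ t in (0 : ℝ)..(2 * Real.pi), 1 / Real.cos (f t) ^ 2

theorem q_sq {f : ℝ → ℝ} (hf : Ef f) (t : ℝ) : q1 f t ^ 2 + q2 f t ^ 2 + q3 f t ^ 2 =
    1 + (sin (f t) - F1 f * cos t - F2 f * sin t) ^ 2 / (zz f * cos (f t) ^ 2) := by
  have hz := hf.zz_pos
  have hc := hf.cos_pos t
  have h3 : q3 f t ^ 2 = (F1 f * q1 f t + F2 f * q2 f t) ^ 2 / zz f := by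
    unfold q3
    rw [div_pow, neg_sq, sq_sqrt hz.le]
  have e1 := sin_sq_add_cos_sq t
  have e2 := sin_sq_add_cos_sq (f t)
  have ez : zz f = 1 - F1 f ^ 2 - F2 f ^ 2 := rfl
  rw [h3]
  unfold q1 q2
  field_simp
  rw [ez]
  generalize F1 f = X
  generalize F2 f = Y
  generalize sin t = S at *
  generalize cos t = C at *
  generalize sin (f t) = s at *
  generalize cos (f t) = c at *
  linear_combination (1 - X ^ 2 - Y ^ 2) * e1 - (1 - X ^ 2 - Y ^ 2) * e2

theorem q_perp {f : ℝ → ℝ} (hf : Ef f) (t : ℝ) :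
    F1 f * q1 f t + F2 f * q2 f t + √(zz f) * q3 f t = 0 := by
  have hs : 0 < √(zz f) := sqrt_pos.2 hf.zz_pos
  unfold q3
  field_simp
  ring

theorem int_q {f : ℝ → ℝ} (hf : Ef f) {c : ℝ} (hU : UAt c f) :
    ∫ t in (0 : ℝ)..(2 * π), ww f t * (q1 f t ^ 2 + q2 f t ^ 2 + q3 f t ^ 2) ≤ 2 * (1 + c) := by
  have hz := hf.zz_pos
  have hV := hf.V0_pos
  have c1 : Continuous fun t => (sin (f t) - F1 f * cos t - F2 f * sin t) ^ 2 / cos (f t) ^ 4 := by
    refine Continuous.div ?_ ((continuous_cos.comp hf.cont).pow 4)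
      fun t => pow_ne_zero 4 (hf.cos_pos t).ne'
    have := hf.cont
    fun_prop
  have e : ∀ t, ww f t * (q1 f t ^ 2 + q2 f t ^ 2 + q3 f t ^ 2) = ww f t + 1 / (V0 f * zz f) *
      ((sin (f t) - F1 f * cos t - F2 f * sin t) ^ 2 / cos (f t) ^ 4) := by
    intro t
    have hc := hf.cos_pos t
    rw [q_sq hf t]
    unfold ww
    field_simp
  simp only [e]
  rw [intervalIntegral.integral_add ((cont_ww hf).intervalIntegrable _ _)
    ((c1.intervalIntegrable _ _).const_mul _), int_ww hf,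
    intervalIntegral.integral_const_mul]
  have h1 : ∫ t in (0 : ℝ)..(2 * π), 1 / cos (f t) ^ 2 = 2 * V0 f := by
    unfold V0
    ring
  have hU' := hU
  unfold UAt at hU'
  rw [h1] at hU'
  have h2 : 1 / (V0 f * zz f) * (∫ t in (0 : ℝ)..(2 * π),
      (sin (f t) - F1 f * cos t - F2 f * sin t) ^ 2 / cos (f t) ^ 4) ≤
      1 / (V0 f * zz f) * (c * zz f * (2 * V0 f)) :=
    mul_le_mul_of_nonneg_left hU' (by positivity)
  have h3 : 1 / (V0 f * zz f) * (c * zz f * (2 * V0 f)) = 2 * c := by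
    field_simp
  linarith

/-- weighted Cauchy-Schwarz inequality -/
theorem cs {f g : ℝ → ℝ} (hf : Ef f) (i1 : IntervalIntegrable (fun t => ww f t * g t) volume 0 (2 * π))
    (i2 : IntervalIntegrable (fun t => ww f t * g t ^ 2) volume 0 (2 * π)) :
    (∫ t in (0 : ℝ)..(2 * π), ww f t * g t) ^ 2 ≤ 2 * ∫ t in (0 : ℝ)..(2 * π), ww f t * g t ^ 2 := by
  set I := ∫ t in (0 : ℝ)..(2 * π), ww f t * g t with hI
  have i0 : IntervalIntegrable (ww f) volume 0 (2 * π) := (cont_ww hf).intervalIntegrable _ _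
  have h1 : 0 ≤ ∫ t in (0 : ℝ)..(2 * π), ww f t * (g t - I / 2) ^ 2 :=
    intervalIntegral.integral_nonneg (by positivity) fun t _ =>
      mul_nonneg (ww_pos hf t).le (sq_nonneg _)
  have e : ∀ t, ww f t * (g t - I / 2) ^ 2 =
      (ww f t * g t ^ 2 - I * (ww f t * g t)) + I ^ 2 / 4 * ww f t := by
    intro t
    ring
  simp only [e] at h1
  rw [intervalIntegral.integral_add (i2.sub (i1.const_mul _)) (i0.const_mul _),
    intervalIntegral.integral_sub i2 (i1.const_mul _), intervalIntegral.integral_const_mul,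
    intervalIntegral.integral_const_mul, int_ww hf, ← hI] at h1
  nlinarith

variable {f h k : ℝ → ℝ}

/-- the derivative of the map for the variation `h` -/
def dd (q : (ℝ → ℝ) → ℝ → ℝ) (f h : ℝ → ℝ) : ℝ := ∫ t in (0 : ℝ)..(2 * π), ww f t * q f t * h t

private theorem ii (hf : Ef f) (hm : Measurable h) (hb : ∀ t, |h t| ≤ 1) {q : ℝ → ℝ}
    (hq : Continuous q) : IntervalIntegrable (fun t => ww f t * q t * h t) volume 0 (2 * π) :=
  int_mul ((cont_ww hf).mul hq) hm hb _ _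

private theorem comp_bound (hf : Ef f) (hm : Measurable h) (km : Measurable k)
    (hb : ∀ t, |h t| ≤ 1) (kb : ∀ t, |k t| ≤ 1) {p r : ℝ → ℝ} (hp : Continuous p) (hr : Continuous r) :
    ((∫ t in (0 : ℝ)..(2 * π), ww f t * p t * h t) + ∫ t in (0 : ℝ)..(2 * π), ww f t * r t * k t) ^ 2 ≤
      2 * (∫ t in (0 : ℝ)..(2 * π), ww f t * (p t * h t + r t * k t) ^ 2) ∧
    IntervalIntegrable (fun t => ww f t * (p t * h t + r t * k t) ^ 2) volume 0 (2 * π) := by
  have i1 := ii hf hm hb hp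
  have i2 := ii hf km kb hr
  have b1 : ∀ t, |h t ^ 2| ≤ 1 := fun t => by
    rw [abs_pow]
    exact pow_le_one₀ (abs_nonneg _) (hb t)
  have b2 : ∀ t, |k t ^ 2| ≤ 1 := fun t => by
    rw [abs_pow]
    exact pow_le_one₀ (abs_nonneg _) (kb t)
  have b3 : ∀ t, |h t * k t| ≤ 1 := fun t => by
    rw [abs_mul]
    exact mul_le_one₀ (hb t) (abs_nonneg _) (kb t)
  have j : IntervalIntegrable (fun t => ww f t * (p t * h t + r t * k t) ^ 2) volume 0 (2 * π) := by
    have j1 := ii hf (hm.pow_const 2) b1 (hp.pow 2)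
    have j2 := ii hf (km.pow_const 2) b2 (hr.pow 2)
    have j3 := (ii hf (hm.mul km) b3 (hp.mul hr)).const_mul 2
    refine ((j1.add j2).add j3).congr fun t _ => ?_
    simp only [Pi.mul_apply, Pi.pow_apply]
    ring
  refine ⟨?_, j⟩
  rw [← intervalIntegral.integral_add i1 i2]
  have e : ∀ t, ww f t * p t * h t + ww f t * r t * k t = ww f t * (p t * h t + r t * k t) := by
    intro t
    ring
  simp only [e]
  refine cs hf ?_ j
  refine (i1.add i2).congr fun t _ => ?_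
  exact e t

/-- the energy bound -/
theorem conf_bound (hf : Ef f) {c : ℝ} (hU : UAt c f) (hm : Measurable h) (km : Measurable k)
    (hk : ∀ t, h t ^ 2 + k t ^ 2 ≤ 1) {σ : ℝ} (hσ : σ ^ 2 = 1) :
    (dd q1 f h ^ 2 + dd q2 f h ^ 2 + dd q3 f h ^ 2 + dd q1 f k ^ 2 + dd q2 f k ^ 2 + dd q3 f k ^ 2) / 2
      + σ * (F1 f * (dd q2 f k * dd q3 f h - dd q3 f k * dd q2 f h)
        + F2 f * (dd q3 f k * dd q1 f h - dd q1 f k * dd q3 f h)
        + √(zz f) * (dd q1 f k * dd q2 f h - dd q2 f k * dd q1 f h)) ≤ 2 * (1 + c) := by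
  have hb : ∀ t, |h t| ≤ 1 := fun t => abs_le_one_iff_mul_self_le_one.2 (by nlinarith [hk t, sq_nonneg (k t)])
  have kb : ∀ t, |k t| ≤ 1 := fun t => abs_le_one_iff_mul_self_le_one.2 (by nlinarith [hk t, sq_nonneg (h t)])
  have c1 := cont_q1 hf
  have c2 := cont_q2 hf
  have c3 := cont_q3 hf
  set X := F1 f with hX
  set Y := F2 f with hY
  set Z := √(zz f) with hZ
  have hunit : X ^ 2 + Y ^ 2 + Z ^ 2 = 1 := by
    rw [hZ, sq_sqrt hf.zz_pos.le, hX, hY]
    unfold zz
    ring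
  -- the three components of `a + σ Y × b`
  obtain ⟨B1, J1⟩ := comp_bound hf hm km hb kb c1
    (r := fun t => σ * (Y * q3 f t - Z * q2 f t)) (by fun_prop)
  obtain ⟨B2, J2⟩ := comp_bound hf hm km hb kb c2
    (r := fun t => σ * (Z * q1 f t - X * q3 f t)) (by fun_prop)
  obtain ⟨B3, J3⟩ := comp_bound hf hm km hb kb c3
    (r := fun t => σ * (X * q2 f t - Y * q1 f t)) (by fun_prop)
  have lin : ∀ (p r : ℝ → ℝ) (α β : ℝ), Continuous p → Continuous r →
      ∫ t in (0 : ℝ)..(2 * π), ww f t * (σ * (α * p t - β * r t)) * k t =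
      σ * (α * (∫ t in (0 : ℝ)..(2 * π), ww f t * p t * k t) -
        β * ∫ t in (0 : ℝ)..(2 * π), ww f t * r t * k t) := by
    intro p r α β hp hr
    have i1 := ii hf km kb hp
    have i2 := ii hf km kb hr
    rw [← intervalIntegral.integral_const_mul, ← intervalIntegral.integral_const_mul,
      ← intervalIntegral.integral_sub (i1.const_mul _) (i2.const_mul _),
      ← intervalIntegral.integral_const_mul]
    refine intervalIntegral.integral_congr fun t _ => ?_
    ring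
  rw [lin _ _ _ _ c3 c2] at B1
  rw [lin _ _ _ _ c1 c3] at B2
  rw [lin _ _ _ _ c2 c1] at B3
  -- the sum of the integrals
  have hsum : (∫ t in (0 : ℝ)..(2 * π), ww f t * (q1 f t * h t + σ * (Y * q3 f t - Z * q2 f t) * k t) ^ 2)
      + (∫ t in (0 : ℝ)..(2 * π), ww f t * (q2 f t * h t + σ * (Z * q1 f t - X * q3 f t) * k t) ^ 2)
      + (∫ t in (0 : ℝ)..(2 * π), ww f t * (q3 f t * h t + σ * (X * q2 f t - Y * q1 f t) * k t) ^ 2)
      ≤ ∫ t in (0 : ℝ)..(2 * π), ww f t * (q1 f t ^ 2 + q2 f t ^ 2 + q3 f t ^ 2) := by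
    rw [← intervalIntegral.integral_add J1 J2, ← intervalIntegral.integral_add (J1.add J2) J3]
    refine intervalIntegral.integral_mono (by positivity) ((J1.add J2).add J3) ?_ fun t => ?_
    · refine ((cont_ww hf).mul ((c1.pow 2).add (c2.pow 2) |>.add (c3.pow 2))).intervalIntegrable _ _
    · simp only
      have hp := q_perp hf t
      rw [← hX, ← hY, ← hZ] at hp
      have hw := (ww_pos hf t).le
      have key : (q1 f t * h t + σ * (Y * q3 f t - Z * q2 f t) * k t) ^ 2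
          + (q2 f t * h t + σ * (Z * q1 f t - X * q3 f t) * k t) ^ 2
          + (q3 f t * h t + σ * (X * q2 f t - Y * q1 f t) * k t) ^ 2
          = (q1 f t ^ 2 + q2 f t ^ 2 + q3 f t ^ 2) * (h t ^ 2 + k t ^ 2) := by
        generalize q1 f t = a at *
        generalize q2 f t = b at *
        generalize q3 f t = d at *
        generalize h t = u at *
        generalize k t = v at *
        have e1 : (Y * d - Z * b) ^ 2 + (Z * a - X * d) ^ 2 + (X * b - Y * a) ^ 2 =
            a ^ 2 + b ^ 2 + d ^ 2 := by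
          linear_combination (a ^ 2 + b ^ 2 + d ^ 2) * hunit - (X * a + Y * b + Z * d) * hp
        linear_combination v ^ 2 * σ ^ 2 * e1 + v ^ 2 * (a ^ 2 + b ^ 2 + d ^ 2) * hσ
      have key2 : (q1 f t ^ 2 + q2 f t ^ 2 + q3 f t ^ 2) * (h t ^ 2 + k t ^ 2) ≤
          q1 f t ^ 2 + q2 f t ^ 2 + q3 f t ^ 2 := by
        have := hk t
        nlinarith [sq_nonneg (q1 f t), sq_nonneg (q2 f t), sq_nonneg (q3 f t)]
      calc _ = ww f t * ((q1 f t * h t + σ * (Y * q3 f t - Z * q2 f t) * k t) ^ 2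
          + (q2 f t * h t + σ * (Z * q1 f t - X * q3 f t) * k t) ^ 2
          + (q3 f t * h t + σ * (X * q2 f t - Y * q1 f t) * k t) ^ 2) := by ring
        _ ≤ _ := by
          rw [key]
          exact mul_le_mul_of_nonneg_left key2 hw
  have hq := int_q hf hU
  -- orthogonality of `b`
  have hperp : X * dd q1 f k + Y * dd q2 f k + Z * dd q3 f k = 0 := by
    have i1 := ii hf km kb c1
    have i2 := ii hf km kb c2
    have i3 := ii hf km kb c3
    unfold dd
    rw [← intervalIntegral.integral_const_mul, ← intervalIntegral.integral_const_mul,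
      ← intervalIntegral.integral_const_mul,
      ← intervalIntegral.integral_add (i1.const_mul _) (i2.const_mul _),
      ← intervalIntegral.integral_add ((i1.const_mul _).add (i2.const_mul _)) (i3.const_mul _)]
    have e : ∀ t, X * (ww f t * q1 f t * k t) + Y * (ww f t * q2 f t * k t)
        + Z * (ww f t * q3 f t * k t) = 0 := by
      intro t
      have hp := q_perp hf t
      rw [← hX, ← hY, ← hZ] at hp
      linear_combination (ww f t * k t) * hp
    simp only [e]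
    simp
  have hB : (dd q1 f h + σ * (Y * dd q3 f k - Z * dd q2 f k)) ^ 2
      + (dd q2 f h + σ * (Z * dd q1 f k - X * dd q3 f k)) ^ 2
      + (dd q3 f h + σ * (X * dd q2 f k - Y * dd q1 f k)) ^ 2 ≤ 4 * (1 + c) := by
    unfold dd
    linarith
  generalize dd q1 f h = a1 at *
  generalize dd q2 f h = a2 at *
  generalize dd q3 f h = a3 at *
  generalize dd q1 f k = b1 at *
  generalize dd q2 f k = b2 at *
  generalize dd q3 f k = b3 at *
  have e1 : (Y * b3 - Z * b2) ^ 2 + (Z * b1 - X * b3) ^ 2 + (X * b2 - Y * b1) ^ 2 =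
      b1 ^ 2 + b2 ^ 2 + b3 ^ 2 := by
    linear_combination (b1 ^ 2 + b2 ^ 2 + b3 ^ 2) * hunit - (X * b1 + Y * b2 + Z * b3) * hperp
  have e2 : (a1 + σ * (Y * b3 - Z * b2)) ^ 2 + (a2 + σ * (Z * b1 - X * b3)) ^ 2
      + (a3 + σ * (X * b2 - Y * b1)) ^ 2 =
      (a1 ^ 2 + a2 ^ 2 + a3 ^ 2 + b1 ^ 2 + b2 ^ 2 + b3 ^ 2)
      + 2 * σ * (X * (b2 * a3 - b3 * a2) + Y * (b3 * a1 - b1 * a3) + Z * (b1 * a2 - b2 * a1)) := by
    linear_combination σ ^ 2 * e1 + (b1 ^ 2 + b2 ^ 2 + b3 ^ 2) * hσ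
  linarith

end Pool.Agent.FPX.UMQ
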