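import Mathlib
import Pool.Agent.FPX.Defs
import Pool.Agent.EWD.THP
import Pool.Agent.FAC.KANT

/-
KAN: the lemma of Kantorovich on the surface: for an odd number of points with signs there is one
admissible potential with signed sum at least `π/2`.
-/

open MeasureTheory Set Filter Topology
open scoped ENNReal NNReal BoundedContinuousFunction

noncomputable section

namespace Pool.Agent.FPX

open Pool.Agent.EWD

variable {M : Type} [MetricSpace M] {γ : ℝ → M}

/-- the two copies of the surface -/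
structure Two (M : Type) (γ : ℝ → M) where
  x : M
  b : Bool

/-- the admissible potentials -/
def AdmT (M : Type) [MetricSpace M] (γ : ℝ → M) : Type := {θ : M → ℝ // Adm γ θ}

instance : TopologicalSpace (AdmT M γ) := ⊥
instance : DiscreteTopology (AdmT M γ) := ⟨rfl⟩

def evT (a : Two M γ) (θ : AdmT M γ) : ℝ := if a.b then θ.1 a.x else - θ.1 a.x

theorem abs_evT (a : Two M γ) (θ : AdmT M γ) : |evT a θ| ≤ Real.pi / 2 := by
  unfold evT
  split_ifs
  · exact θ.2.bd _
  · rw [abs_neg]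
    exact θ.2.bd _

def phiT (a : Two M γ) : AdmT M γ →ᵇ ℝ :=
  BoundedContinuousFunction.ofNormedAddCommGroup (evT a) continuous_of_discreteTopology
    (Real.pi / 2) (fun θ => by rw [Real.norm_eq_abs]; exact abs_evT a θ)

theorem phiT_apply (a : Two M γ) (θ : AdmT M γ) : phiT a θ = evT a θ := rfl

instance : PseudoMetricSpace (Two M γ) := PseudoMetricSpace.induced phiT inferInstance

theorem dist_two (a b : Two M γ) : dist a b = dist (phiT a) (phiT b) := rfl

theorem le_dist_two (a b : Two M γ) (θ : AdmT M γ) : |evT a θ - evT b θ| ≤ dist a b := by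
  rw [dist_two, ← phiT_apply, ← phiT_apply, ← Real.dist_eq]
  exact BoundedContinuousFunction.dist_coe_le_dist θ

theorem dist_two_le {a b : Two M γ} {r : ℝ} (hr : 0 ≤ r) (h : ∀ θ, |evT a θ - evT b θ| ≤ r) :
    dist a b ≤ r := by
  rw [dist_two]
  refine (BoundedContinuousFunction.dist_le hr).2 fun θ => ?_
  rw [Real.dist_eq]
  exact h θ

/-- exchange of the two copies -/
def tauT (a : Two M γ) : Two M γ := ⟨a.x, !a.b⟩

omit [MetricSpace M] in
theorem tauT_tauT (a : Two M γ) : tauT (tauT a) = a := by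
  unfold tauT
  simp

theorem evT_tauT (a : Two M γ) (θ : AdmT M γ) : evT (tauT a) θ = - evT a θ := by
  unfold evT tauT
  cases a.b <;> simp

theorem tauT_isometry : Isometry (tauT : Two M γ → Two M γ) := by
  refine Isometry.of_dist_eq fun a b => ?_
  refine le_antisymm (dist_two_le dist_nonneg fun θ => ?_) (dist_two_le dist_nonneg fun θ => ?_)
  · rw [evT_tauT, evT_tauT]
    have h := le_dist_two a b θ
    rwa [← abs_neg, neg_sub_neg, neg_sub] 
  · have h := le_dist_two (tauT a) (tauT b) θ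
    rw [evT_tauT, evT_tauT] at h
    rwa [← abs_neg, neg_sub_neg, neg_sub] at h

theorem kan (hγ : Bd γ) {Z : Finset M} (hZ : Odd Z.card) {s : M → ℝ}
    (hs : ∀ z ∈ Z, s z = 1 ∨ s z = -1) :
    ∃ θ : M → ℝ, Adm γ θ ∧ Real.pi / 2 ≤ ∑ z ∈ Z, s z * θ z := by
  classical
  have hL : ∀ a : Two M γ, Real.pi ≤ dist a (tauT a) := by
    intro a
    obtain ⟨θ, h1, h2, h3, h4⟩ := exists_theta hγ a.x
    have h5 := le_dist_two a (tauT a) ⟨θ, ⟨h1, h2, h3⟩⟩
    rw [evT_tauT] at h5
    have h6 : |evT a ⟨θ, ⟨h1, h2, h3⟩⟩| = Real.pi / 2 := by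
      unfold evT
      have hp : (0 : ℝ) ≤ Real.pi / 2 := by positivity
      split_ifs
      · change |θ a.x| = _
        rw [h4, abs_of_nonneg hp]
      · change |-θ a.x| = _
        rw [abs_neg, h4, abs_of_nonneg hp]
    rw [sub_neg_eq_add, ← two_mul, abs_mul, h6, abs_two] at h5
    linarith
  obtain ⟨θ, h1, h2, h3⟩ := FAC.Kant.kantorovich_odd (τ := (tauT : Two M γ → Two M γ))
    tauT_isometry tauT_tauT hL (ι := Z)
    (fun z => (⟨z.1, decide (s z.1 = 1)⟩ : Two M γ)) (by rw [Fintype.card_coe]; exact hZ)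
  have hd : ∀ a b : Two M γ, |θ a - θ b| ≤ dist a b := by
    intro a b
    have := h1.dist_le_mul a b
    rwa [Real.dist_eq, NNReal.coe_one, one_mul] at this
  refine ⟨fun x => θ ⟨x, true⟩, ⟨?_, ?_, ?_⟩, ?_⟩
  · refine LipschitzWith.of_dist_le_mul fun x y => ?_
    rw [Real.dist_eq, NNReal.coe_one, one_mul]
    refine (hd _ _).trans (dist_two_le dist_nonneg fun ϑ => ?_)
    have h := ϑ.2.lip.dist_le_mul x y
    rwa [Real.dist_eq, NNReal.coe_one, one_mul] at h
  · intro t
    have h4 : dist (⟨γ (t + Real.pi), true⟩ : Two M γ) ⟨γ t, false⟩ ≤ 0 := by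
      refine dist_two_le le_rfl fun ϑ => ?_
      change |ϑ.1 (γ (t + Real.pi)) - - ϑ.1 (γ t)| ≤ 0
      rw [ϑ.2.odd t]
      simp
    have h5 := (hd ⟨γ (t + Real.pi), true⟩ ⟨γ t, false⟩).trans h4
    have h6 : θ ⟨γ (t + Real.pi), true⟩ - θ ⟨γ t, false⟩ = 0 := by
      rw [← abs_eq_zero]
      exact le_antisymm h5 (abs_nonneg _)
    have h7 := h2 (⟨γ t, true⟩ : Two M γ)
    have h8 : tauT (⟨γ t, true⟩ : Two M γ) = ⟨γ t, false⟩ := rfl
    rw [h8] at h7
    change θ ⟨γ (t + Real.pi), true⟩ = - θ ⟨γ t, true⟩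
    linarith
  · intro x
    have h4 : dist (⟨x, true⟩ : Two M γ) (tauT ⟨x, true⟩) ≤ Real.pi := by
      refine dist_two_le Real.pi_pos.le fun ϑ => ?_
      rw [evT_tauT, sub_neg_eq_add, ← two_mul, abs_mul, abs_two]
      have := abs_evT (⟨x, true⟩ : Two M γ) ϑ
      linarith
    have h5 := (hd ⟨x, true⟩ (tauT ⟨x, true⟩)).trans h4
    rw [h2, sub_neg_eq_add, ← two_mul, abs_mul, abs_two] at h5
    change |θ ⟨x, true⟩| ≤ Real.pi / 2
    linarith
  · refine h3.trans (le_of_eq ?_)
    rw [← Finset.sum_coe_sort Z]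
    refine Finset.sum_congr rfl fun z _ => ?_
    rcases hs z.1 z.2 with h | h
    · simp only [h, decide_true, one_mul]
    · have h4 : decide ((-1 : ℝ) = 1) = false := by
        rw [decide_eq_false_iff_not]
        norm_num
      simp only [h, h4]
      have h7 := h2 (⟨z.1, true⟩ : Two M γ)
      have h8 : tauT (⟨z.1, true⟩ : Two M γ) = ⟨z.1, false⟩ := rfl
      rw [h8] at h7
      rw [h7]
      ring

end Pool.Agent.FPX
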