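import Mathlib
import Pool.Agent.FPX.VEC
import Pool.Agent.FPX.KAN
import Pool.Agent.EWD.CRB
import Pool.Agent.EWD.SVB
import Pool.Agent.EWD.WIN
import Pool.Agent.EWD.PAR

/-
FLU: the flux of the azimuth form through an odd function is a signed sum of its values at the
points where `v = ± p`; their number is odd, and some admissible potential has flux at least `π²`.
-/

open MeasureTheory Set Filter Topology
open scoped ENNReal NNReal

noncomputable section

namespace Pool.Agent.FPX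

open Pool.Agent.EWD

variable {M : Type} [MetricSpace M] {γ : ℝ → M}

/-- the boundary integral of an odd function against an even one vanishes -/
private theorem FLU_bdry {X Y ψ : M → ℝ} (oX : OddB γ X) (oY : OddB γ Y)
    (oψ : OddB γ ψ) : ∫ t in (0 : ℝ)..(2 * Real.pi), ψ (γ t) * kap γ X Y t = 0 := by
  have hk : ∀ t, kap γ X Y (t + Real.pi) = kap γ X Y t := kap_periodic oX oY
  set h : ℝ → ℝ := fun t => ψ (γ t) * kap γ X Y t with hh
  have h1 : ∀ t, h (t + Real.pi) = - h t := by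
    intro t
    simp only [hh]
    rw [oψ, hk]
    ring
  have hper : Function.Periodic h (2 * Real.pi) := by
    intro t
    have e : t + 2 * Real.pi = t + Real.pi + Real.pi := by ring
    rw [e, h1, h1, neg_neg]
  have h2 := hper.intervalIntegral_add_eq Real.pi 0
  rw [zero_add] at h2
  have h3 : ∫ t in (0 : ℝ)..(2 * Real.pi), h (t + Real.pi) = ∫ t in Real.pi..(Real.pi + 2 * Real.pi), h t := by
    rw [intervalIntegral.integral_comp_add_right h Real.pi, zero_add, add_comm (2 * Real.pi) Real.pi]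
  have h4 : ∫ t in (0 : ℝ)..(2 * Real.pi), h (t + Real.pi) = - ∫ t in (0 : ℝ)..(2 * Real.pi), h t := by
    rw [← intervalIntegral.integral_neg]
    exact intervalIntegral.integral_congr fun t _ => h1 t
  linarith

/-- a Lipschitz function with given values on a finite set -/
private theorem FLU_ext (Z : Finset M) {s : M → ℝ} (hs : ∀ z ∈ Z, s z = 1 ∨ s z = -1) :
    ∃ ψ : M → ℝ, Lip ψ ∧ (∀ x, |ψ x| ≤ 1) ∧ ∀ z ∈ Z, ψ z = s z := by
  classical
  set K : ℝ := ∑ z ∈ Z, ∑ z' ∈ Z, |s z - s z'| / dist z z' with hK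
  have hnn : ∀ z z' : M, 0 ≤ |s z - s z'| / dist z z' := fun z z' => div_nonneg (abs_nonneg _) dist_nonneg
  have hK0 : 0 ≤ K := Finset.sum_nonneg fun z _ => Finset.sum_nonneg fun z' _ => hnn z z'
  have h1 : ∀ z ∈ Z, ∀ z' ∈ Z, |s z - s z'| ≤ K * dist z z' := by
    intro z hz z' hz'
    rcases eq_or_ne z z' with h | h
    · rw [h]; simp
    · have hd : 0 < dist z z' := dist_pos.2 h
      rw [← div_le_iff₀ hd]
      calc |s z - s z'| / dist z z' ≤ ∑ z' ∈ Z, |s z - s z'| / dist z z' :=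
            Finset.single_le_sum (f := fun z' => |s z - s z'| / dist z z') (fun i _ => hnn z i) hz'
        _ ≤ K := Finset.single_le_sum (f := fun z => ∑ z' ∈ Z, |s z - s z'| / dist z z')
            (fun i _ => Finset.sum_nonneg fun j _ => hnn i j) hz
  have h2 : LipschitzOnWith ⟨K, hK0⟩ s (Z : Set M) := by
    refine LipschitzOnWith.of_dist_le_mul fun x hx y hy => ?_
    rw [Real.dist_eq]
    exact h1 x hx y hy
  obtain ⟨g, hg, hgs⟩ := h2.extend_real
  refine ⟨fun x => max (-1) (min 1 (g x)), ?_, ?_, ?_⟩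
  · exact ⟨_, (hg.const_min 1).const_max (-1)⟩
  · intro x
    rw [abs_le]
    exact ⟨le_max_left _ _, max_le (by norm_num) (min_le_left _ _)⟩
  · intro z hz
    have h3 : g z = s z := (hgs hz).symm
    simp only [h3]
    rcases hs z hz with h | h <;> rw [h] <;> norm_num

private theorem FLU_eps : Tendsto (fun k : ℕ => (1 / (k + 1) : ℝ)) atTop (𝓝[>] 0) := by
  rw [tendsto_nhdsWithin_iff]
  refine ⟨tendsto_one_div_add_atTop_nhds_zero_nat, Eventually.of_forall fun k => ?_⟩
  simp only [mem_Ioi]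
  positivity

variable [CompactSpace M]

theorem flux_eq (C : Calc M γ) (hγ : Bd γ) {v : Fin 3 → M → ℝ} (hv : Sph γ v) {p : E3}
    (hp : ‖p‖ = 1) (hi : Integrable (fun o => (‖dx C v o‖ + ‖dy C v o‖) / √(sq2 (at' C v o) p)) C.μ)
    (hr : Reg C v p) : ∃ (Z : Finset M) (s : M → ℝ), Odd Z.card ∧ (∀ z ∈ Z, s z = 1 ∨ s z = -1) ∧
      (∀ ψ : M → ℝ, Lip ψ → OddB γ ψ → Flux C ψ v p = - 2 * Real.pi * ∑ z ∈ Z, s z * ψ z) ∧
      ENNReal.ofReal (2 * Real.pi * Z.card) ≤ liminf (fun k : ℕ => ∫⁻ o, ENNReal.ofReal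
        ((2 * (1 / (k + 1) : ℝ) ^ 2 / (sq2 (at' C v o) p + (1 / (k + 1) : ℝ) ^ 2) ^ 2) *
        |inner ℝ p (crs (dx C v o) (dy C v o))|) ∂C.μ) atTop := by
  obtain ⟨a, b, Z, s, ha, hb, hab, hpab, hV⟩ := hr
  have hae := ae_flx_eq C hv ha hb hab
  rw [hpab] at hae
  have hsq : ∀ x, inner ℝ a (vv (n := 0) v x) ^ 2 + inner ℝ b (vv (n := 0) v x) ^ 2
      = sq2 (vv (n := 0) v x) p := by
    intro x
    have h3 := decomp ha hb hab (vv (n := 0) v x)
    rw [norm_vv hv, hpab] at h3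
    unfold sq2
    linarith
  -- integrability of the rotation
  have hrot : Integrable (C.rot (fun x => inner ℝ a (vv (n := 0) v x))
      (fun x => inner ℝ b (vv (n := 0) v x))) C.μ := by
    refine hi.mono' (C.meas_rot hV.lipX hV.lipY).aestronglyMeasurable ?_
    filter_upwards [ae_inner C hv.lip] with o ho
    rw [Real.norm_eq_abs, abs_of_nonneg (C.rot_nonneg _ _ o)]
    have e1 : C.Tx (fun x => inner ℝ a (vv (n := 0) v x)) (fun x => inner ℝ b (vv (n := 0) v x)) o
        = inner ℝ p (crs (at' C v o) (dx C v o)) := by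
      unfold Calc.Tx
      rw [(ho a).1, (ho b).1, ← hpab, ← binet]
      rfl
    have e2 : C.Ty (fun x => inner ℝ a (vv (n := 0) v x)) (fun x => inner ℝ b (vv (n := 0) v x)) o
        = inner ℝ p (crs (at' C v o) (dy C v o)) := by
      unfold Calc.Ty
      rw [(ho a).2, (ho b).2, ← hpab, ← binet]
      rfl
    unfold Calc.rot
    rw [e1, e2, hsq]
    have hn := norm_at (C := C) hv o
    have hs0 : 0 ≤ sq2 (at' C v o) p := sq2_nonneg hn hp
    change √_ / sq2 (at' C v o) p ≤ _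
    have h1 : √(inner ℝ p (crs (at' C v o) (dx C v o)) ^ 2 + inner ℝ p (crs (at' C v o) (dy C v o)) ^ 2)
        ≤ √(sq2 (at' C v o) p) * (‖dx C v o‖ + ‖dy C v o‖) := by
      refine Real.sqrt_le_iff.2 ⟨by positivity, ?_⟩
      rw [mul_pow, Real.sq_sqrt hs0]
      have h2 := inner_crs_le hn hp (dx C v o)
      have h3 := inner_crs_le hn hp (dy C v o)
      have h4 : 0 ≤ sq2 (at' C v o) p * (2 * (‖dx C v o‖ * ‖dy C v o‖)) := by positivity
      nlinarith
    rcases hs0.eq_or_lt with h0 | h0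
    · rw [← h0]
      simp
    · rw [div_le_div_iff₀ h0 (Real.sqrt_pos.2 h0)]
      calc _ ≤ √(sq2 (at' C v o) p) * (‖dx C v o‖ + ‖dy C v o‖) * √(sq2 (at' C v o) p) :=
            mul_le_mul_of_nonneg_right h1 (Real.sqrt_nonneg _)
        _ = (‖dx C v o‖ + ‖dy C v o‖) * (√(sq2 (at' C v o) p) * √(sq2 (at' C v o) p)) := by ring
        _ = _ := by rw [Real.mul_self_sqrt h0.le]
  refine ⟨Z, s, card_odd C hγ hV hrot, hV.pm, ?_, ?_⟩
  · intro ψ hψ oψ
    have h1 := stokes_vort C hγ hV hrot hψ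
    rw [FLU_bdry hV.oddX hV.oddY oψ] at h1
    unfold Flux
    have h2 : ∫ o, flx C ψ v p o ∂C.μ = ∫ o, C.cr ψ (fun x => inner ℝ a (vv (n := 0) v x))
        (fun x => inner ℝ b (vv (n := 0) v x)) o ∂C.μ := by
      refine integral_congr_ae ?_
      filter_upwards [hae] with o ho
      exact ho.1 ψ
    rw [h2, h1]
    ring
  · obtain ⟨ψ, hψ, hψ1, hψs⟩ := FLU_ext Z hV.pm
    have h1 := (hV.lim ψ hψ).comp FLU_eps
    have h2 : (∑ z ∈ Z, s z * ψ z) = Z.card := by
      have : ∀ z ∈ Z, s z * ψ z = 1 := by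
        intro z hz
        rw [hψs z hz]
        rcases hV.pm z hz with h | h <;> rw [h] <;> norm_num
      rw [Finset.sum_congr rfl this]
      simp
    rw [h2] at h1
    have h3 := ENNReal.tendsto_ofReal h1
    rw [← h3.liminf_eq]
    refine liminf_le_liminf (Eventually.of_forall fun k => ?_)
    simp only [Function.comp_apply]
    set ε : ℝ := (1 / (k + 1) : ℝ) with hε
    refine (ENNReal.ofReal_le_ofReal (le_abs_self _)).trans ?_
    rw [← Real.norm_eq_abs, ofReal_norm]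
    refine (enorm_integral_le_lintegral_enorm _).trans ?_
    refine lintegral_mono_ae ?_
    filter_upwards [hae] with o ho
    rw [← ofReal_norm, Real.norm_eq_abs, abs_mul, abs_mul, ho.2, hsq]
    refine ENNReal.ofReal_le_ofReal ?_
    have h5 : 0 ≤ 2 * ε ^ 2 / (sq2 (vv (n := 0) v (C.pt o)) p + ε ^ 2) ^ 2 := by positivity
    rw [abs_of_nonneg h5]
    have h6 := mul_le_mul_of_nonneg_right (hψ1 (C.pt o)) h5
    rw [one_mul] at h6
    exact mul_le_mul_of_nonneg_right h6 (abs_nonneg _)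

theorem flux_ge (C : Calc M γ) (hγ : Bd γ) {v : Fin 3 → M → ℝ} (hv : Sph γ v) {p : E3}
    (hp : ‖p‖ = 1) (hi : Integrable (fun o => (‖dx C v o‖ + ‖dy C v o‖) / √(sq2 (at' C v o) p)) C.μ)
    (hr : Reg C v p) : ∃ θ, Adm γ θ ∧ Real.pi ^ 2 ≤ Flux C θ v p := by
  obtain ⟨Z, s, h1, h2, h3, -⟩ := flux_eq C hγ hv hp hi hr
  obtain ⟨θ, h4, h5⟩ := kan hγ h1 (s := fun z => - s z) (by
    intro z hz
    rcases h2 z hz with h | h
    · right; rw [h]
    · left; rw [h]; norm_num)
  refine ⟨θ, h4, ?_⟩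
  rw [h3 θ ⟨1, h4.lip⟩ h4.odd]
  have h6 : ∑ z ∈ Z, -s z * θ z = - ∑ z ∈ Z, s z * θ z := by
    rw [← Finset.sum_neg_distrib]
    exact Finset.sum_congr rfl fun z _ => by ring
  rw [h6] at h5
  have hpi := Real.pi_pos
  nlinarith

end Pool.Agent.FPX
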