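import Mathlib
import Pool.Agent.FPX.Defs
import Pool.Agent.FPX.SPH
import Pool.Agent.FPX.VEC

/-
FPX, FME: measurability and integrability of the flux density on the product of the surface and the
sphere (helper30).
-/

open MeasureTheory Set Filter Topology
open scoped ENNReal NNReal

noncomputable section

namespace Pool.Agent.FPX

open Pool.Agent.EWD

variable {M : Type} [MetricSpace M] {γ : ℝ → M}

theorem crs_cont : Continuous (fun q : E3 × E3 => crs q.1 q.2) := by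
  unfold crs
  refine (PiLp.continuous_toLp 2 _).comp (continuous_pi fun i => ?_)
  fin_cases i <;> simp <;> fun_prop

theorem meas_vec3 {Ω : Type} [MeasurableSpace Ω] {f0 f1 f2 : Ω → ℝ} {μ : Measure Ω}
    (h0 : AEMeasurable f0 μ) (h1 : AEMeasurable f1 μ) (h2 : AEMeasurable f2 μ) :
    AEMeasurable (fun o => (!₂[f0 o, f1 o, f2 o] : E3)) μ := by
  have h : AEMeasurable (fun o => (![f0 o, f1 o, f2 o] : Fin 3 → ℝ)) μ := by
    refine aemeasurable_pi_lambda _ fun i => ?_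
    fin_cases i
    · exact h0
    · exact h1
    · exact h2
  exact (MeasurableEquiv.toLp 2 (Fin 3 → ℝ)).measurable.comp_aemeasurable h

theorem meas_dx (C : Calc M γ) {v : Fin 3 → M → ℝ} (hv : ∀ k, Lip (v k)) :
    AEMeasurable (dx C v) C.μ ∧ AEMeasurable (dy C v) C.μ ∧ AEMeasurable (at' C v) C.μ :=
  ⟨meas_vec3 (C.meas_gx (hv 0)) (C.meas_gx (hv 1)) (C.meas_gx (hv 2)),
    meas_vec3 (C.meas_gy (hv 0)) (C.meas_gy (hv 1)) (C.meas_gy (hv 2)),
    meas_vec3 (C.meas_pt (hv 0)) (C.meas_pt (hv 1)) (C.meas_pt (hv 2))⟩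

private theorem norm_le_of3 {f : Fin 3 → Om → ℝ} {μ : Measure Om}
    (h : ∀ k, ∃ B : ℝ, ∀ᵐ o ∂μ, |f k o| ≤ B) :
    ∃ B : ℝ, ∀ᵐ o ∂μ, ‖(!₂[f 0 o, f 1 o, f 2 o] : E3)‖ ≤ B := by
  choose B hB using h
  refine ⟨√(B 0 ^ 2 + B 1 ^ 2 + B 2 ^ 2), ?_⟩
  filter_upwards [hB 0, hB 1, hB 2] with o h0 h1 h2
  refine Real.le_sqrt_of_sq_le ?_
  rw [normsq3]
  have e0 : (!₂[f 0 o, f 1 o, f 2 o] : E3) 0 = f 0 o := rfl
  have e1 : (!₂[f 0 o, f 1 o, f 2 o] : E3) 1 = f 1 o := rfl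
  have e2 : (!₂[f 0 o, f 1 o, f 2 o] : E3) 2 = f 2 o := rfl
  rw [e0, e1, e2]
  have k0 := pow_le_pow_left₀ (abs_nonneg _) h0 2
  have k1 := pow_le_pow_left₀ (abs_nonneg _) h1 2
  have k2 := pow_le_pow_left₀ (abs_nonneg _) h2 2
  rw [sq_abs] at k0 k1 k2
  linarith

theorem bdd_grad (C : Calc M γ) {u : M → ℝ} (hu : Lip u) :
    (∃ B : ℝ, ∀ᵐ o ∂C.μ, |C.gx u o| ≤ B) ∧ (∃ B : ℝ, ∀ᵐ o ∂C.μ, |C.gy u o| ≤ B) := by
  obtain ⟨L, hL⟩ := hu
  constructor
  · refine ⟨L, ?_⟩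
    filter_upwards [C.ae_grad_le hL] with o ho
    exact abs_le_of_sq_le_sq (by nlinarith [sq_nonneg (C.gy u o)]) L.coe_nonneg
  · refine ⟨L, ?_⟩
    filter_upwards [C.ae_grad_le hL] with o ho
    exact abs_le_of_sq_le_sq (by nlinarith [sq_nonneg (C.gx u o)]) L.coe_nonneg

theorem bdd_dx (C : Calc M γ) {v : Fin 3 → M → ℝ} (hv : ∀ k, Lip (v k)) :
    (∃ B : ℝ, ∀ᵐ o ∂C.μ, ‖dx C v o‖ ≤ B) ∧ (∃ B : ℝ, ∀ᵐ o ∂C.μ, ‖dy C v o‖ ≤ B) :=
  ⟨norm_le_of3 (f := fun k o => C.gx (v k) o) fun k => (bdd_grad C (hv k)).1,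
    norm_le_of3 (f := fun k o => C.gy (v k) o) fun k => (bdd_grad C (hv k)).2⟩

/-- the density as a function of the data at a point -/
private def PsiF (q : (ℝ × ℝ × E3 × E3 × E3) × E3) : ℝ :=
  (q.1.1 * inner ℝ q.2 (crs q.1.2.2.1 q.1.2.2.2.2)
    - q.1.2.1 * inner ℝ q.2 (crs q.1.2.2.1 q.1.2.2.2.1)) / sq2 q.1.2.2.1 q.2

private theorem PsiF_meas : Measurable PsiF := by
  have c1 : Continuous (fun q : (ℝ × ℝ × E3 × E3 × E3) × E3 => crs q.1.2.2.1 q.1.2.2.2.2) :=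
    crs_cont.comp (f := fun q : (ℝ × ℝ × E3 × E3 × E3) × E3 => (q.1.2.2.1, q.1.2.2.2.2))
      (by fun_prop)
  have c2 : Continuous (fun q : (ℝ × ℝ × E3 × E3 × E3) × E3 => crs q.1.2.2.1 q.1.2.2.2.1) :=
    crs_cont.comp (f := fun q : (ℝ × ℝ × E3 × E3 × E3) × E3 => (q.1.2.2.1, q.1.2.2.2.1))
      (by fun_prop)
  have c3 : Continuous (fun q : (ℝ × ℝ × E3 × E3 × E3) × E3 => sq2 q.1.2.2.1 q.2) := by
    unfold sq2
    fun_prop
  have c4 : Continuous (fun q : (ℝ × ℝ × E3 × E3 × E3) × E3 =>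
      (q.1.1 * inner ℝ q.2 (crs q.1.2.2.1 q.1.2.2.2.2)
    - q.1.2.1 * inner ℝ q.2 (crs q.1.2.2.1 q.1.2.2.2.1))) := by
    fun_prop
  exact c4.measurable.div c3.measurable

/-- `|flx| ≤ (|∂₁θ| |∂₂v| + |∂₂θ| |∂₁v|) / s` -/
theorem abs_flx_le (C : Calc M γ) {v : Fin 3 → M → ℝ} (hv : Sph γ v) (θ : M → ℝ) {p : E3}
    (hp : ‖p‖ = 1) (o : Om) (hq : 0 < sq2 (at' C v o) p) :
    |flx C θ v p o| ≤ (|C.gx θ o| * ‖dy C v o‖ + |C.gy θ o| * ‖dx C v o‖) *
      (1 / √(sq2 (at' C v o) p)) := by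
  have hs : 0 < √(sq2 (at' C v o) p) := Real.sqrt_pos.2 hq
  have key : ∀ ξ : E3, |inner ℝ p (crs (at' C v o) ξ)| ≤ √(sq2 (at' C v o) p) * ‖ξ‖ := by
    intro ξ
    have h := inner_crs_le (norm_at (C := C) hv o) hp ξ
    refine abs_le_of_sq_le_sq ?_ (by positivity)
    rw [mul_pow, Real.sq_sqrt hq.le]
    exact h
  have h1 := key (dy C v o)
  have h2 := key (dx C v o)
  unfold flx
  rw [abs_div, abs_of_pos hq, div_le_iff₀ hq]
  have e : (|C.gx θ o| * ‖dy C v o‖ + |C.gy θ o| * ‖dx C v o‖) *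
      (1 / √(sq2 (at' C v o) p)) * sq2 (at' C v o) p =
      |C.gx θ o| * (√(sq2 (at' C v o) p) * ‖dy C v o‖) +
      |C.gy θ o| * (√(sq2 (at' C v o) p) * ‖dx C v o‖) := by
    have h3 : 1 / √(sq2 (at' C v o) p) * sq2 (at' C v o) p = √(sq2 (at' C v o) p) := by
      rw [one_div, inv_mul_eq_div, div_eq_iff hs.ne', Real.mul_self_sqrt hq.le]
    rw [mul_assoc, h3]
    ring
  rw [e]
  refine (abs_sub _ _).trans ?_
  rw [abs_mul, abs_mul]
  exact add_le_add (mul_le_mul_of_nonneg_left h1 (abs_nonneg _))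
    (mul_le_mul_of_nonneg_left h2 (abs_nonneg _))

theorem flux_meas [CompactSpace M] (C : Calc M γ) {v : Fin 3 → M → ℝ} (hv : Sph γ v) {θ : M → ℝ}
    (hθ : Lip θ) :
    AEStronglyMeasurable (fun q : Om × E3 => flx C θ v q.2 q.1) (C.μ.prod PP) ∧
    Integrable (fun q : Om × E3 => flx C θ v q.2 q.1) (C.μ.prod PP) ∧
    Integrable (fun p => Flux C θ v p) PP := by
  have := C.fin
  obtain ⟨m1, m2, m0⟩ := meas_dx C hv.lip
  have ht : AEMeasurable (fun o => (C.gx θ o, C.gy θ o, at' C v o, dx C v o, dy C v o)) C.μ :=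
    (C.meas_gx hθ).prodMk ((C.meas_gy hθ).prodMk (m0.prodMk (m1.prodMk m2)))
  have ht2 : AEMeasurable (fun q : Om × E3 =>
      ((C.gx θ q.1, C.gy θ q.1, at' C v q.1, dx C v q.1, dy C v q.1), q.2)) (C.μ.prod PP) :=
    (ht.comp_fst).prodMk measurable_snd.aemeasurable
  have hm : AEStronglyMeasurable (fun q : Om × E3 => flx C θ v q.2 q.1) (C.μ.prod PP) :=
    (PsiF_meas.comp_aemeasurable ht2).aestronglyMeasurable
  obtain ⟨⟨B1, b1⟩, ⟨B2, b2⟩⟩ := bdd_dx C hv.lip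
  obtain ⟨⟨B3, b3⟩, ⟨B4, b4⟩⟩ := bdd_grad C hθ
  have hi : Integrable (fun q : Om × E3 => flx C θ v q.2 q.1) (C.μ.prod PP) := by
    rw [integrable_prod_iff hm]
    have hmo : ∀ᵐ o ∂C.μ, AEStronglyMeasurable (fun p => flx C θ v p o) PP := by
      refine Eventually.of_forall fun o => ?_
      have : Measurable (fun p => PsiF ((C.gx θ o, C.gy θ o, at' C v o, dx C v o, dy C v o), p)) :=
        PsiF_meas.comp (by fun_prop)
      exact this.aestronglyMeasurable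
    have hb : ∀ o, ∀ᵐ p ∂PP, |flx C θ v p o| ≤
        (|C.gx θ o| * ‖dy C v o‖ + |C.gy θ o| * ‖dx C v o‖) * (1 / √(sq2 (at' C v o) p)) := by
      intro o
      filter_upwards [ae_norm, ae_sq2 (at' C v o) (norm_at hv o)] with p h1 h2
      exact abs_flx_le C hv θ h1 o h2
    have hio : ∀ o, Integrable (fun p => (|C.gx θ o| * ‖dy C v o‖ + |C.gy θ o| * ‖dx C v o‖) *
        (1 / √(sq2 (at' C v o) p))) PP := fun o => (int_inv (norm_at hv o)).1.const_mul _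
    constructor
    · filter_upwards [hmo] with o ho
      refine (hio o).mono' ho ?_
      filter_upwards [hb o] with p hp
      rwa [Real.norm_eq_abs]
    · refine (integrable_const (((|B3| * |B2|) + (|B4| * |B1|)) * (Real.pi / 2))).mono'
        hm.norm.integral_prod_right' ?_
      filter_upwards [hmo, b1, b2, b3, b4] with o ho h1 h2 h3 h4
      have h5 : ∫ p, ‖flx C θ v p o‖ ∂PP ≤
          (|C.gx θ o| * ‖dy C v o‖ + |C.gy θ o| * ‖dx C v o‖) * (Real.pi / 2) := by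
        rw [← (int_inv (norm_at hv o)).2, ← integral_const_mul]
        refine integral_mono_ae ?_ (hio o) ?_
        · refine ((hio o).mono' ho ?_).norm
          filter_upwards [hb o] with p hp
          rwa [Real.norm_eq_abs]
        · filter_upwards [hb o] with p hp
          rwa [Real.norm_eq_abs]
      rw [Real.norm_eq_abs, abs_of_nonneg (integral_nonneg fun p => norm_nonneg _)]
      refine h5.trans (mul_le_mul_of_nonneg_right (add_le_add ?_ ?_) (by positivity))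
      · exact mul_le_mul (h3.trans (le_abs_self _)) (h2.trans (le_abs_self _)) (norm_nonneg _)
          (abs_nonneg _)
      · exact mul_le_mul (h4.trans (le_abs_self _)) (h1.trans (le_abs_self _)) (norm_nonneg _)
          (abs_nonneg _)
  exact ⟨hm, hi, hi.integral_prod_right⟩

end Pool.Agent.FPX
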