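import Mathlib
import Pool.Agent.FPX.FLU
import Pool.Agent.FPX.FME

/-
DEG (helper81): the area of the image of an odd map into the two sphere, with multiplicity, is an
odd multiple of `2π`.
-/

open MeasureTheory Set Filter Topology
open scoped ENNReal NNReal

noncomputable section

namespace Pool.Agent.FPX

open Pool.Agent.EWD

variable {M : Type} [MetricSpace M] {γ : ℝ → M}

/-- the Jacobian of a map into the sphere -/
def jac (C : Calc M γ) (v : Fin 3 → M → ℝ) (o : Om) : ℝ :=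
  inner ℝ (at' C v o) (crs (dy C v o) (dx C v o))

theorem jac_alg {v p a b : E3} (hv : ‖v‖ = 1) (ha : inner ℝ v a = (0 : ℝ)) (hb : inner ℝ v b = (0 : ℝ)) :
    inner ℝ p a * inner ℝ p (crs v b) - inner ℝ p b * inner ℝ p (crs v a)
      = inner ℝ v (crs b a) * (‖p‖ ^ 2 - inner ℝ v p ^ 2) := by
  have h1 : v 0 ^ 2 + v 1 ^ 2 + v 2 ^ 2 = 1 := by rw [← normsq3, hv, one_pow]
  rw [inner3] at ha hb
  rw [normsq3]
  simp only [inner3, crs0, crs1, crs2]
  linear_combination (-(v 0 * p 0 + v 1 * p 1 + v 2 * p 2)) *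
    ((p 0 * (b 1 * a 2 - b 2 * a 1) + p 1 * (b 2 * a 0 - b 0 * a 2) + p 2 * (b 0 * a 1 - b 1 * a 0)) * (-1) * h1
      + (p 0 * (v 1 * a 2 - v 2 * a 1) + p 1 * (v 2 * a 0 - v 0 * a 2) + p 2 * (v 0 * a 1 - v 1 * a 0)) * hb
      - (p 0 * (v 1 * b 2 - v 2 * b 1) + p 1 * (v 2 * b 0 - v 0 * b 2) + p 2 * (v 0 * b 1 - v 1 * b 0)) * ha)

/-- for almost every `p` the points where `v = ± p` are negligible -/
theorem ae_ae_sq2 (C : Calc M γ) {v : Fin 3 → M → ℝ} (hv : Sph γ v) :
    ∀ᵐ p ∂PP, ∀ᵐ o ∂C.μ, 0 < sq2 (at' C v o) p := by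
  have := C.fin
  obtain ⟨-, -, m0⟩ := meas_dx C hv.lip
  obtain ⟨g, hg, hag⟩ := m0
  have h1 : Measurable (fun q : Om × E3 => sq2 (g q.1) q.2) := by
    unfold sq2
    exact measurable_const.sub (((hg.comp measurable_fst).inner measurable_snd).pow_const 2)
  have hs : MeasurableSet {q : Om × E3 | 0 < sq2 (g q.1) q.2} := measurableSet_lt measurable_const h1
  have h3 : ∀ᵐ o ∂C.μ, ∀ᵐ p ∂PP, 0 < sq2 (g o) p := by
    filter_upwards [hag] with o ho
    rw [← ho]
    exact ae_sq2 _ (norm_at hv o)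
  have h4 := (Measure.ae_ae_comm (μ := C.μ) (ν := PP) (p := fun o p => 0 < sq2 (g o) p) hs).1 h3
  filter_upwards [h4] with p hp
  filter_upwards [hp, hag] with o ho h5
  rw [h5]
  exact ho

/-- for almost every `p` the rotation around `p` is integrable -/
theorem ae_int_rot (C : Calc M γ) {v : Fin 3 → M → ℝ} (hv : Sph γ v) : ∀ᵐ p ∂PP,
    Integrable (fun o => (‖dx C v o‖ + ‖dy C v o‖) / √(sq2 (at' C v o) p)) C.μ := by
  have := C.fin
  obtain ⟨m1, m2, m0⟩ := meas_dx C hv.lip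
  obtain ⟨⟨B1, b1⟩, ⟨B2, b2⟩⟩ := bdd_dx C hv.lip
  set G : Om × E3 → ℝ := fun q => (‖dx C v q.1‖ + ‖dy C v q.1‖) / √(sq2 (at' C v q.1) q.2) with hG
  have hc : Continuous (fun q : E3 × E3 => sq2 q.1 q.2) := by
    unfold sq2
    fun_prop
  have hm : AEMeasurable G (C.μ.prod PP) := by
    have h1 : AEMeasurable (fun q : Om × E3 => (at' C v q.1, q.2)) (C.μ.prod PP) :=
      m0.comp_fst.prodMk measurable_snd.aemeasurable
    exact (m1.comp_fst.norm.add m2.comp_fst.norm).div (hc.measurable.comp_aemeasurable h1).sqrt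
  have hi : Integrable G (C.μ.prod PP) := by
    rw [integrable_prod_iff hm.aestronglyMeasurable]
    have e : ∀ o, (fun p => G (o, p)) = fun p => (‖dx C v o‖ + ‖dy C v o‖) * (1 / √(sq2 (at' C v o) p)) := by
      intro o
      funext p
      simp only [hG]
      rw [mul_one_div]
    refine ⟨Eventually.of_forall fun o => ?_, ?_⟩
    · rw [e]
      exact (int_inv (norm_at hv o)).1.const_mul _
    · have e2 : (fun o => ∫ p, ‖G (o, p)‖ ∂PP) = fun o => (‖dx C v o‖ + ‖dy C v o‖) * (Real.pi / 2) := by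
        funext o
        rw [← (int_inv (norm_at hv o)).2, ← integral_const_mul]
        refine integral_congr_ae (Eventually.of_forall fun p => ?_)
        simp only
        rw [Real.norm_eq_abs, abs_of_nonneg (by simp only [hG]; positivity)]
        simp only [hG]
        rw [mul_one_div]
      rw [e2]
      refine Integrable.mul_const ?_ _
      refine Integrable.of_bound (m1.norm.add m2.norm).aestronglyMeasurable (B1 + B2) ?_
      filter_upwards [b1, b2] with o h1 h2
      rw [Real.norm_eq_abs]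
      change |‖dx C v o‖ + ‖dy C v o‖| ≤ _
      rw [abs_of_nonneg (by positivity)]
      exact add_le_add h1 h2
  exact hi.prod_left_ae

/-- the integral of an odd function against an even one vanishes -/
private theorem DEG_bdry {X Y ψ : M → ℝ} (oX : OddB γ X) (oY : OddB γ Y)
    (oψ : OddB γ ψ) : ∫ t in (0 : ℝ)..(2 * Real.pi), ψ (γ t) * kap γ X Y t = 0 := by
  have hk : ∀ t, kap γ X Y (t + Real.pi) = kap γ X Y t := kap_periodic oX oY
  set h : ℝ → ℝ := fun t => ψ (γ t) * kap γ X Y t with hh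
  have h1 : ∀ t, h (t + Real.pi) = - h t := by
    intro t
    simp only [hh]
    rw [oψ, hk]
    ring
  have hper : Function.Periodic h (2 * Real.pi) := by
    intro t
    have e : t + 2 * Real.pi = t + Real.pi + Real.pi := by ring
    rw [e, h1, h1, neg_neg]
  have h2 := hper.intervalIntegral_add_eq Real.pi 0
  rw [zero_add] at h2
  have h3 : ∫ t in (0 : ℝ)..(2 * Real.pi), h (t + Real.pi) = ∫ t in Real.pi..(Real.pi + 2 * Real.pi), h t := by
    rw [intervalIntegral.integral_comp_add_right h Real.pi, zero_add, add_comm (2 * Real.pi) Real.pi]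
  have h4 : ∫ t in (0 : ℝ)..(2 * Real.pi), h (t + Real.pi) = - ∫ t in (0 : ℝ)..(2 * Real.pi), h t := by
    rw [← intervalIntegral.integral_neg]
    exact intervalIntegral.integral_congr fun t _ => h1 t
  linarith

/-- an odd number of signs has an odd sum -/
private theorem DEG_sum {Z : Finset M} {s : M → ℝ} (hs : ∀ z ∈ Z, s z = 1 ∨ s z = -1) :
    ∃ k : ℤ, ∑ z ∈ Z, s z = Z.card + 2 * k := by
  classical
  induction Z using Finset.induction_on with
  | empty => exact ⟨0, by simp⟩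
  | insert a Z ha ih =>
    obtain ⟨k, hk⟩ := ih fun z hz => hs z (Finset.mem_insert_of_mem hz)
    rw [Finset.sum_insert ha, Finset.card_insert_of_notMem ha, hk]
    rcases hs a (Finset.mem_insert_self _ _) with h | h
    · exact ⟨k, by rw [h]; push_cast; ring⟩
    · exact ⟨k - 1, by rw [h]; push_cast; ring⟩

variable [CompactSpace M]

/-- the degree is odd -/
theorem deg_odd (C : Calc M γ) (hγ : Bd γ) (hR : RegAE C) {v : Fin 3 → M → ℝ} (hv : Sph γ v) :
    ∃ d : ℤ, Odd d ∧ ∫ o, jac C v o ∂C.μ = 2 * Real.pi * d := by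
  have hne : (ae PP).NeBot := inferInstance
  obtain ⟨p, hp, hsq, hi, hr⟩ := (ae_norm.and ((ae_ae_sq2 C hv).and
    ((ae_int_rot C hv).and (hR v hv)))).exists
  obtain ⟨a, b, Z, s, ha, hb, hab, hpab, hV⟩ := hr
  have hae := ae_flx_eq C hv ha hb hab
  rw [hpab] at hae
  have hsq2 : ∀ x, inner ℝ a (vv (n := 0) v x) ^ 2 + inner ℝ b (vv (n := 0) v x) ^ 2
      = sq2 (vv (n := 0) v x) p := by
    intro x
    have h3 := decomp ha hb hab (vv (n := 0) v x)
    rw [norm_vv hv, hpab] at h3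
    unfold sq2
    linarith
  have hrot : Integrable (C.rot (fun x => inner ℝ a (vv (n := 0) v x))
      (fun x => inner ℝ b (vv (n := 0) v x))) C.μ := by
    refine hi.mono' (C.meas_rot hV.lipX hV.lipY).aestronglyMeasurable ?_
    filter_upwards [ae_inner C hv.lip] with o ho
    rw [Real.norm_eq_abs, abs_of_nonneg (C.rot_nonneg _ _ o)]
    have e1 : C.Tx (fun x => inner ℝ a (vv (n := 0) v x)) (fun x => inner ℝ b (vv (n := 0) v x)) o
        = inner ℝ p (crs (at' C v o) (dx C v o)) := by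
      unfold Calc.Tx
      rw [(ho a).1, (ho b).1, ← hpab, ← binet]
      rfl
    have e2 : C.Ty (fun x => inner ℝ a (vv (n := 0) v x)) (fun x => inner ℝ b (vv (n := 0) v x)) o
        = inner ℝ p (crs (at' C v o) (dy C v o)) := by
      unfold Calc.Ty
      rw [(ho a).2, (ho b).2, ← hpab, ← binet]
      rfl
    unfold Calc.rot
    rw [e1, e2, hsq2]
    have hn := norm_at (C := C) hv o
    have hs0 : 0 ≤ sq2 (at' C v o) p := sq2_nonneg hn hp
    change √_ / sq2 (at' C v o) p ≤ _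
    have h1 : √(inner ℝ p (crs (at' C v o) (dx C v o)) ^ 2 + inner ℝ p (crs (at' C v o) (dy C v o)) ^ 2)
        ≤ √(sq2 (at' C v o) p) * (‖dx C v o‖ + ‖dy C v o‖) := by
      refine Real.sqrt_le_iff.2 ⟨by positivity, ?_⟩
      rw [mul_pow, Real.sq_sqrt hs0]
      have h2 := inner_crs_le hn hp (dx C v o)
      have h3 := inner_crs_le hn hp (dy C v o)
      have h4 : 0 ≤ sq2 (at' C v o) p * (2 * (‖dx C v o‖ * ‖dy C v o‖)) := by positivity
      nlinarith
    rcases hs0.eq_or_lt with h0 | h0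
    · rw [← h0]
      simp
    · rw [div_le_div_iff₀ h0 (Real.sqrt_pos.2 h0)]
      calc _ ≤ √(sq2 (at' C v o) p) * (‖dx C v o‖ + ‖dy C v o‖) * √(sq2 (at' C v o) p) :=
            mul_le_mul_of_nonneg_right h1 (Real.sqrt_nonneg _)
        _ = (‖dx C v o‖ + ‖dy C v o‖) * (√(sq2 (at' C v o) p) * √(sq2 (at' C v o) p)) := by ring
        _ = _ := by rw [Real.mul_self_sqrt h0.le]
  -- the height over `p`
  set ψ : M → ℝ := fun x => inner ℝ p (vv (n := 0) v x) with hψ
  have lψ : Lip ψ := by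
    obtain ⟨L0, h0⟩ := hv.lip 0
    obtain ⟨L1, h1⟩ := hv.lip 1
    obtain ⟨L2, h2⟩ := hv.lip 2
    refine ⟨⟨|p 0| * L0 + |p 1| * L1 + |p 2| * L2, by positivity⟩, LipschitzWith.of_dist_le_mul fun x y => ?_⟩
    simp only [hψ]
    rw [inner_vv, inner_vv, Real.dist_eq]
    have k0 := h0.dist_le_mul x y
    have k1 := h1.dist_le_mul x y
    have k2 := h2.dist_le_mul x y
    rw [Real.dist_eq] at k0 k1 k2
    have e : p 0 * v 0 x + p 1 * v 1 x + p 2 * v 2 x - (p 0 * v 0 y + p 1 * v 1 y + p 2 * v 2 y)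
        = p 0 * (v 0 x - v 0 y) + p 1 * (v 1 x - v 1 y) + p 2 * (v 2 x - v 2 y) := by ring
    rw [e]
    calc _ ≤ |p 0 * (v 0 x - v 0 y)| + |p 1 * (v 1 x - v 1 y)| + |p 2 * (v 2 x - v 2 y)| :=
          abs_add_three _ _ _
      _ = |p 0| * |v 0 x - v 0 y| + |p 1| * |v 1 x - v 1 y| + |p 2| * |v 2 x - v 2 y| := by
          rw [abs_mul, abs_mul, abs_mul]
      _ ≤ |p 0| * (L0 * dist x y) + |p 1| * (L1 * dist x y) + |p 2| * (L2 * dist x y) := by
          gcongr
      _ = (|p 0| * L0 + |p 1| * L1 + |p 2| * L2) * dist x y := by ring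
      _ = _ := rfl
  have oψ : OddB γ ψ := by
    intro t
    simp only [hψ]
    rw [inner_vv, inner_vv, hv.odd 0 t, hv.odd 1 t, hv.odd 2 t]
    ring
  have h1 := stokes_vort C hγ hV hrot lψ
  rw [DEG_bdry hV.oddX hV.oddY oψ, mul_zero, zero_sub] at h1
  -- the flux density is the Jacobian
  have h2 : ∫ o, C.cr ψ (fun x => inner ℝ a (vv (n := 0) v x))
      (fun x => inner ℝ b (vv (n := 0) v x)) o ∂C.μ = ∫ o, jac C v o ∂C.μ := by
    refine integral_congr_ae ?_
    filter_upwards [hae, ae_inner C hv.lip, ae_perp C hv, hsq] with o h3 h4 h5 h6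
    rw [← h3.1 ψ]
    unfold flx
    have e1 : C.gx ψ o = inner ℝ p (dx C v o) := (h4 p).1
    have e2 : C.gy ψ o = inner ℝ p (dy C v o) := (h4 p).2
    rw [e1, e2, jac_alg (norm_at hv o) h5.1 h5.2, hp, one_pow]
    unfold jac
    rw [div_eq_iff h6.ne']
    rfl
  rw [h2] at h1
  -- the signs
  have h3 : ∀ z ∈ Z, s z * ψ z = 1 ∨ s z * ψ z = -1 := by
    intro z hz
    have h4 := (hV.zero z).1 hz
    have h5 := hsq2 z
    rw [h4.1, h4.2] at h5
    have h6 : ψ z ^ 2 = 1 := by
      simp only [hψ]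
      unfold sq2 at h5
      rw [real_inner_comm]
      linarith
    have h9 : ψ z = 1 ∨ ψ z = -1 := by
      have h10 : (ψ z - 1) * (ψ z + 1) = 0 := by linear_combination h6
      rcases mul_eq_zero.1 h10 with h | h
      · left; linarith
      · right; linarith
    rcases hV.pm z hz with h7 | h7 <;> rcases h9 with h8 | h8 <;>
      rw [h7, h8] <;> norm_num
  obtain ⟨k, hk⟩ := DEG_sum (s := fun z => s z * ψ z) h3
  obtain ⟨m, hm⟩ := card_odd C hγ hV hrot
  refine ⟨-(Z.card + 2 * k), ?_, ?_⟩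
  · refine Odd.neg ⟨m + k, ?_⟩
    rw [hm]
    push_cast
    ring
  · rw [h1, hk]
    push_cast
    ring

end Pool.Agent.FPX
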