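import Mathlib
import Pool.Agent.FPX.UMC

/-
UMD (helper76): the cut-off function of the third coordinate and the algebra of the normalisation.
-/

open MeasureTheory Set Filter Topology
open scoped ENNReal NNReal

noncomputable section

namespace Pool.Agent.FPX.UMQ

open Pool.Agent.FPX.UMP

open Real

/-- derivative of the cut-off function -/
def phid (η s : ℝ) : ℝ := max 0 (min (s / η - 1) 1)

/-- cut-off function: zero up to `η`, slope one after `2η` -/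
def phi (η z : ℝ) : ℝ := ∫ s in (0 : ℝ)..z, phid η s

theorem phid_cont (η : ℝ) : Continuous (phid η) := by
  unfold phid
  fun_prop

theorem phid_nonneg (η s : ℝ) : 0 ≤ phid η s := le_max_left _ _

theorem phid_le (η s : ℝ) : phid η s ≤ 1 := max_le zero_le_one (min_le_right _ _)

theorem phid_zero {η s : ℝ} (hη : 0 < η) (h : s ≤ η) : phid η s = 0 := by
  unfold phid
  apply max_eq_left
  refine (min_le_left _ _).trans ?_
  have := (div_le_one hη).2 h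
  linarith

theorem phid_one {η s : ℝ} (hη : 0 < η) (h : 2 * η ≤ s) : phid η s = 1 := by
  unfold phid
  have h1 : 2 ≤ s / η := (le_div_iff₀ hη).2 h
  rw [min_eq_right (by linarith)]
  exact max_eq_right zero_le_one

theorem phi_deriv (η z : ℝ) : HasDerivAt (phi η) (phid η z) z :=
  intervalIntegral.integral_hasDerivAt_right ((phid_cont η).intervalIntegrable _ _)
    (phid_cont η).stronglyMeasurable.stronglyMeasurableAtFilter (phid_cont η).continuousAt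

theorem phi_zero {η z : ℝ} (hη : 0 < η) (h : z ≤ η) : phi η z = 0 := by
  unfold phi
  have : ∫ s in (0 : ℝ)..z, phid η s = ∫ s in (0 : ℝ)..z, (0 : ℝ) := by
    refine intervalIntegral.integral_congr fun s hs => ?_
    refine phid_zero hη ?_
    rcases le_total 0 z with h0 | h0
    · rw [uIcc_of_le h0] at hs
      exact hs.2.trans h
    · rw [uIcc_of_ge h0] at hs
      exact hs.2.trans hη.le
  rw [this]
  simp

theorem phi_nonneg {η z : ℝ} (hz : 0 ≤ z) : 0 ≤ phi η z :=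
  intervalIntegral.integral_nonneg hz fun s _ => phid_nonneg η s

theorem phi_ge {η z : ℝ} (hη : 0 < η) (hz : 0 ≤ z) : z - 2 * η ≤ phi η z := by
  rcases le_total z (2 * η) with h | h
  · exact (by linarith : z - 2 * η ≤ 0).trans (phi_nonneg hz)
  · have h1 : phi η z = (∫ s in (0 : ℝ)..(2 * η), phid η s) + ∫ s in (2 * η)..z, phid η s :=
      (intervalIntegral.integral_add_adjacent_intervals ((phid_cont η).intervalIntegrable _ _)
        ((phid_cont η).intervalIntegrable _ _)).symm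
    have h2 : ∫ s in (2 * η)..z, phid η s = ∫ s in (2 * η)..z, (1 : ℝ) := by
      refine intervalIntegral.integral_congr fun s hs => ?_
      rw [uIcc_of_le h] at hs
      exact phid_one hη hs.1
    have h3 : 0 ≤ ∫ s in (0 : ℝ)..(2 * η), phid η s :=
      intervalIntegral.integral_nonneg (by positivity) fun s _ => phid_nonneg η s
    rw [h1, h2]
    simp only [intervalIntegral.integral_const, smul_eq_mul, mul_one]
    linarith

/-- the norm of the vector before normalisation -/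
theorem norm_ge {η X Y Z : ℝ} (hη : 0 < η) (hη1 : η ≤ 1) (hZ : 0 ≤ Z) (hu : X ^ 2 + Y ^ 2 + Z ^ 2 = 1) :
    1 - 4 * η ≤ X ^ 2 + Y ^ 2 + phi η Z ^ 2 := by
  have hZ1 : Z ≤ 1 := by nlinarith [sq_nonneg X, sq_nonneg Y]
  rcases le_total Z (2 * η) with h | h
  · have h1 : Z ^ 2 ≤ (2 * η) ^ 2 := pow_le_pow_left₀ hZ h 2
    nlinarith [sq_nonneg (phi η Z)]
  · have h1 := phi_ge hη hZ
    have h2 : (Z - 2 * η) ^ 2 ≤ phi η Z ^ 2 := pow_le_pow_left₀ (by linarith) h1 2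
    nlinarith [mul_nonneg hη.le (sub_nonneg.2 hZ1)]

/-- algebra of the normalisation: `W = (X, Y, W3)`, `F = W/N`; the derivatives of `W` in two
directions are `(a1, a2, p a3)` and `(b1, b2, p b3)` with `p² ≤ 1` -/
theorem norm_alg {X Y Z W3 N p a1 a2 a3 b1 b2 b3 : ℝ} (hN : 0 < N) (hN2 : N ^ 2 = X ^ 2 + Y ^ 2 + W3 ^ 2)
    (hu : X ^ 2 + Y ^ 2 + Z ^ 2 = 1) (hp : p ^ 2 ≤ 1)
    (ha : X * a1 + Y * a2 + Z * a3 = 0) (hb : X * b1 + Y * b2 + Z * b3 = 0) {K : ℝ}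
    (hK : ∀ σ : ℝ, σ ^ 2 = 1 → (a1 ^ 2 + a2 ^ 2 + a3 ^ 2 + b1 ^ 2 + b2 ^ 2 + b3 ^ 2) / 2
      + σ * (X * (b2 * a3 - b3 * a2) + Y * (b3 * a1 - b1 * a3) + Z * (b1 * a2 - b2 * a1)) ≤ K)
    {d1 d2 d3 e1 e2 e3 : ℝ}
    (hd1 : d1 = a1 / N - X * (X * a1 + Y * a2 + W3 * (p * a3)) / N ^ 3)
    (hd2 : d2 = a2 / N - Y * (X * a1 + Y * a2 + W3 * (p * a3)) / N ^ 3)
    (hd3 : d3 = p * a3 / N - W3 * (X * a1 + Y * a2 + W3 * (p * a3)) / N ^ 3)
    (he1 : e1 = b1 / N - X * (X * b1 + Y * b2 + W3 * (p * b3)) / N ^ 3)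
    (he2 : e2 = b2 / N - Y * (X * b1 + Y * b2 + W3 * (p * b3)) / N ^ 3)
    (he3 : e3 = p * b3 / N - W3 * (X * b1 + Y * b2 + W3 * (p * b3)) / N ^ 3) :
    (d1 ^ 2 + d2 ^ 2 + d3 ^ 2 + e1 ^ 2 + e2 ^ 2 + e3 ^ 2) / 2
      + |X / N * (e2 * d3 - e3 * d2) + Y / N * (e3 * d1 - e1 * d3) + W3 / N * (e1 * d2 - e2 * d1)|
      ≤ K / N ^ 2 := by
  have hN0 : N ≠ 0 := hN.ne'
  -- the norm of the derivative
  have nrm : ∀ u1 u2 u3 : ℝ,
      (u1 / N - X * (X * u1 + Y * u2 + W3 * (p * u3)) / N ^ 3) ^ 2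
      + (u2 / N - Y * (X * u1 + Y * u2 + W3 * (p * u3)) / N ^ 3) ^ 2
      + (p * u3 / N - W3 * (X * u1 + Y * u2 + W3 * (p * u3)) / N ^ 3) ^ 2
      ≤ (u1 ^ 2 + u2 ^ 2 + u3 ^ 2) / N ^ 2 := by
    intro u1 u2 u3
    generalize hA : (X * u1 + Y * u2 + W3 * (p * u3)) = A
    have t1 : ∀ u v : ℝ, (u / N - v * A / N ^ 3) ^ 2 = (N ^ 2 * u - v * A) ^ 2 / N ^ 6 := fun u v => by
      have : u / N - v * A / N ^ 3 = (N ^ 2 * u - v * A) / N ^ 3 := by field_simp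
      rw [this, div_pow, ← pow_mul]
    have e : (u1 / N - X * A / N ^ 3) ^ 2 + (u2 / N - Y * A / N ^ 3) ^ 2
        + (p * u3 / N - W3 * A / N ^ 3) ^ 2
        = (u1 ^ 2 + u2 ^ 2 + (p * u3) ^ 2) / N ^ 2 - A ^ 2 / N ^ 4 := by
      rw [t1, t1, t1, ← add_div, ← add_div]
      have key : (N ^ 2 * u1 - X * A) ^ 2 + (N ^ 2 * u2 - Y * A) ^ 2 + (N ^ 2 * (p * u3) - W3 * A) ^ 2
          = N ^ 4 * (u1 ^ 2 + u2 ^ 2 + (p * u3) ^ 2) - N ^ 2 * A ^ 2 := by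
        linear_combination (-(A ^ 2)) * hN2 - 2 * N ^ 2 * A * hA
      rw [key]
      generalize u1 ^ 2 + u2 ^ 2 + (p * u3) ^ 2 = D
      field_simp
    rw [e]
    have h1 : (p * u3) ^ 2 ≤ u3 ^ 2 := by
      rw [mul_pow]
      nlinarith [sq_nonneg u3]
    have h2 : (u1 ^ 2 + u2 ^ 2 + (p * u3) ^ 2) / N ^ 2 ≤ (u1 ^ 2 + u2 ^ 2 + u3 ^ 2) / N ^ 2 := by
      gcongr
    have h3 : 0 ≤ A ^ 2 / N ^ 4 := by positivity
    linarith
  have n1 := nrm a1 a2 a3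
  have n2 := nrm b1 b2 b3
  rw [← hd1, ← hd2, ← hd3] at n1
  rw [← he1, ← he2, ← he3] at n2
  -- the Jacobian
  set J : ℝ := X * (b2 * a3 - b3 * a2) + Y * (b3 * a1 - b1 * a3) + Z * (b1 * a2 - b2 * a1) with hJ
  have jac : X / N * (e2 * d3 - e3 * d2) + Y / N * (e3 * d1 - e1 * d3) + W3 / N * (e1 * d2 - e2 * d1)
      = (X * (p * (b2 * a3 - b3 * a2)) + Y * (p * (b3 * a1 - b1 * a3)) + W3 * (b1 * a2 - b2 * a1))
        / N ^ 3 := by
    rw [hd1, hd2, hd3, he1, he2, he3]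
    generalize hA : (X * a1 + Y * a2 + W3 * (p * a3)) = A
    generalize hB : (X * b1 + Y * b2 + W3 * (p * b3)) = B
    rw [eq_div_iff (pow_ne_zero 3 hN0)]
    have t1 : ∀ u v : ℝ, u / N - v * A / N ^ 3 = (N ^ 2 * u - v * A) / N ^ 3 := fun u v => by
      field_simp
    have t2 : ∀ u v : ℝ, u / N - v * B / N ^ 3 = (N ^ 2 * u - v * B) / N ^ 3 := fun u v => by
      field_simp
    rw [t1, t1, t1, t2, t2, t2]
    have t3 : ∀ u v w z w' z' : ℝ, u / N * (v / N ^ 3 * (w / N ^ 3) - z / N ^ 3 * (w' / N ^ 3)) =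
        u * (v * w - z * w') / N ^ 7 := fun u v w z w' z' => by
      field_simp
    rw [t3 _ _ _ _ _ 0, t3 _ _ _ _ _ 0, t3 _ _ _ _ _ 0, ← add_div, ← add_div]
    have key : X * ((N ^ 2 * b2 - Y * B) * (N ^ 2 * (p * a3) - W3 * A)
          - (N ^ 2 * (p * b3) - W3 * B) * (N ^ 2 * a2 - Y * A))
        + Y * ((N ^ 2 * (p * b3) - W3 * B) * (N ^ 2 * a1 - X * A)
          - (N ^ 2 * b1 - X * B) * (N ^ 2 * (p * a3) - W3 * A))
        + W3 * ((N ^ 2 * b1 - X * B) * (N ^ 2 * a2 - Y * A)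
          - (N ^ 2 * b2 - Y * B) * (N ^ 2 * a1 - X * A))
        = N ^ 4 * (X * (p * (b2 * a3 - b3 * a2)) + Y * (p * (b3 * a1 - b1 * a3))
          + W3 * (b1 * a2 - b2 * a1)) := by ring
    rw [key]
    generalize X * (p * (b2 * a3 - b3 * a2)) + Y * (p * (b3 * a1 - b1 * a3))
      + W3 * (b1 * a2 - b2 * a1) = D
    field_simp
  have c1 : b2 * a3 - b3 * a2 = J * X := by
    rw [hJ]
    linear_combination (-(b2 * a3 - b3 * a2)) * hu + (b2 * Z - b3 * Y) * ha - (a2 * Z - a3 * Y) * hb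
  have c2 : b3 * a1 - b1 * a3 = J * Y := by
    rw [hJ]
    linear_combination (-(b3 * a1 - b1 * a3)) * hu + (b3 * X - b1 * Z) * ha - (a3 * X - a1 * Z) * hb
  have c3 : b1 * a2 - b2 * a1 = J * Z := by
    rw [hJ]
    linear_combination (-(b1 * a2 - b2 * a1)) * hu + (b1 * Y - b2 * X) * ha - (a1 * Y - a2 * X) * hb
  have jb : |X / N * (e2 * d3 - e3 * d2) + Y / N * (e3 * d1 - e1 * d3) + W3 / N * (e1 * d2 - e2 * d1)|
      ≤ |J| / N ^ 2 := by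
    rw [jac, c1, c2, c3]
    have h1 : (X * (p * (J * X)) + Y * (p * (J * Y)) + W3 * (J * Z)) ^ 2 ≤ (|J| * N) ^ 2 := by
      rw [mul_pow, sq_abs, hN2]
      have h2 : (p * X ^ 2 + p * Y ^ 2 + W3 * Z) ^ 2 ≤ X ^ 2 + Y ^ 2 + W3 ^ 2 := by
        have h3 : (p * X ^ 2 + p * Y ^ 2 + W3 * Z) ^ 2 ≤
            ((p * X) ^ 2 + (p * Y) ^ 2 + W3 ^ 2) * (X ^ 2 + Y ^ 2 + Z ^ 2) := by
          have e : ((p * X) ^ 2 + (p * Y) ^ 2 + W3 ^ 2) * (X ^ 2 + Y ^ 2 + Z ^ 2)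
              - (p * X ^ 2 + p * Y ^ 2 + W3 * Z) ^ 2
              = (p * X * Z - W3 * X) ^ 2 + (p * Y * Z - W3 * Y) ^ 2 := by ring
          linarith [sq_nonneg (p * X * Z - W3 * X), sq_nonneg (p * Y * Z - W3 * Y)]
        rw [hu, mul_one] at h3
        refine h3.trans ?_
        rw [mul_pow, mul_pow]
        have g1 : p ^ 2 * X ^ 2 ≤ 1 * X ^ 2 := mul_le_mul_of_nonneg_right hp (sq_nonneg X)
        have g2 : p ^ 2 * Y ^ 2 ≤ 1 * Y ^ 2 := mul_le_mul_of_nonneg_right hp (sq_nonneg Y)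
        linarith
      have e : (X * (p * (J * X)) + Y * (p * (J * Y)) + W3 * (J * Z)) ^ 2 =
          J ^ 2 * (p * X ^ 2 + p * Y ^ 2 + W3 * Z) ^ 2 := by ring
      rw [e]
      exact mul_le_mul_of_nonneg_left h2 (sq_nonneg J)
    have h4 := abs_le_of_sq_le_sq h1 (by positivity)
    rw [abs_div, abs_of_pos (pow_pos hN 3), div_le_div_iff₀ (pow_pos hN 3) (pow_pos hN 2)]
    calc _ ≤ (|J| * N) * N ^ 2 := by gcongr
      _ = |J| * N ^ 3 := by ring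
  have hJK : (a1 ^ 2 + a2 ^ 2 + a3 ^ 2 + b1 ^ 2 + b2 ^ 2 + b3 ^ 2) / 2 + |J| ≤ K := by
    rcases le_total 0 J with h | h
    · have := hK 1 (by norm_num)
      rw [abs_of_nonneg h]
      linarith
    · have := hK (-1) (by norm_num)
      rw [abs_of_nonpos h]
      linarith
  have h5 : (a1 ^ 2 + a2 ^ 2 + a3 ^ 2) / N ^ 2 / 2 + (b1 ^ 2 + b2 ^ 2 + b3 ^ 2) / N ^ 2 / 2
      + |J| / N ^ 2 = ((a1 ^ 2 + a2 ^ 2 + a3 ^ 2 + b1 ^ 2 + b2 ^ 2 + b3 ^ 2) / 2 + |J|) / N ^ 2 := by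
    ring
  have h6 : ((a1 ^ 2 + a2 ^ 2 + a3 ^ 2 + b1 ^ 2 + b2 ^ 2 + b3 ^ 2) / 2 + |J|) / N ^ 2 ≤ K / N ^ 2 := by
    gcongr
  linarith

end Pool.Agent.FPX.UMQ
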