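import Mathlib
import Pool.Agent.FPX.UMD

/-
UME (helper76): the normalised universal map on functions, its derivative, energy bound and
Lipschitz constant.
-/

open MeasureTheory Set Filter Topology
open scoped ENNReal NNReal

noncomputable section

namespace Pool.Agent.FPX.UMQ

open Pool.Agent.FPX.UMP

open Real

/-- the norm of `(F1, F2, φ(√zz))` -/
def gN (η : ℝ) (f : ℝ → ℝ) : ℝ := √(F1 f ^ 2 + F2 f ^ 2 + phi η (√(zz f)) ^ 2)

/-- the normalised map -/
def GG (τ η : ℝ) (f : ℝ → ℝ) : Fin 3 → ℝ :=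
  ![F1 f / gN η f, F2 f / gN η f, τ * phi η (√(zz f)) / gN η f]

/-- the derivative of the vector before normalisation times the vector -/
def gA (τ η : ℝ) (f h : ℝ → ℝ) : ℝ := F1 f * dd q1 f h + F2 f * dd q2 f h
  + τ * phi η (√(zz f)) * (τ * phid η (√(zz f)) * dd q3 f h)

/-- the derivative of the map -/
def dG (τ η : ℝ) (f h : ℝ → ℝ) : Fin 3 → ℝ :=
  ![dd q1 f h / gN η f - F1 f * gA τ η f h / gN η f ^ 3,
    dd q2 f h / gN η f - F2 f * gA τ η f h / gN η f ^ 3,
    τ * phid η (√(zz f)) * dd q3 f h / gN η f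
      - τ * phi η (√(zz f)) * gA τ η f h / gN η f ^ 3]

theorem unit3 {f : ℝ → ℝ} (hf : Ef f) : F1 f ^ 2 + F2 f ^ 2 + √(zz f) ^ 2 = 1 := by
  rw [sq_sqrt hf.zz_pos.le]
  unfold zz
  ring

theorem gN_sq_ge {f : ℝ → ℝ} (hf : Ef f) {η : ℝ} (hη : 0 < η) (hη1 : η < 1 / 4) :
    1 - 4 * η ≤ F1 f ^ 2 + F2 f ^ 2 + phi η (√(zz f)) ^ 2 :=
  norm_ge hη (by linarith) (sqrt_nonneg _) (unit3 hf)

theorem gN_pos {f : ℝ → ℝ} (hf : Ef f) {η : ℝ} (hη : 0 < η) (hη1 : η < 1 / 4) : 0 < gN η f :=
  sqrt_pos.2 (lt_of_lt_of_le (by linarith) (gN_sq_ge hf hη hη1))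

theorem gN_sq {f : ℝ → ℝ} (hf : Ef f) {η : ℝ} (hη : 0 < η) (hη1 : η < 1 / 4) :
    gN η f ^ 2 = F1 f ^ 2 + F2 f ^ 2 + phi η (√(zz f)) ^ 2 :=
  sq_sqrt ((by linarith : (0 : ℝ) ≤ 1 - 4 * η).trans (gN_sq_ge hf hη hη1))

theorem GG_unit {f : ℝ → ℝ} (hf : Ef f) {τ η : ℝ} (hτ : τ ^ 2 = 1) (hη : 0 < η) (hη1 : η < 1 / 4) :
    ∑ i, GG τ η f i ^ 2 = 1 := by
  have h1 := gN_pos hf hη hη1
  have h2 := gN_sq hf hη hη1
  rw [Fin.sum_univ_three]
  simp only [GG, Matrix.cons_val_zero, Matrix.cons_val_one, Matrix.cons_val_two, Matrix.head_cons,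
    Matrix.tail_cons]
  rw [div_pow, div_pow, div_pow, mul_pow, hτ, one_mul, ← add_div, ← add_div, ← h2]
  exact div_self (by positivity)

/-- the derivative along a curve -/
theorem GG_deriv {φ : ℝ → ℝ → ℝ} {h : ℝ → ℝ} {x : ℝ} (H : Crv φ h x) {b : ℝ} (hb : ∀ t, |h t| ≤ b)
    {τ η : ℝ} (hτ : τ ^ 2 = 1) (hη : 0 < η) (hη1 : η < 1 / 4) (i : Fin 3) :
    HasDerivAt (fun s => GG τ η (φ s) i) (dG τ η (φ x) h i) x := by
  have d1 := H.F1 hb
  have d2 := H.F2 hb
  have d3 := H.F3 hb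
  have hp : HasDerivAt (fun s => phi η (√(zz (φ s))))
      (phid η (√(zz (φ x))) * dd q3 (φ x) h) x := (phi_deriv η _).comp x d3
  have hN := gN_pos H.ef hη hη1
  have hN2 := gN_sq H.ef hη hη1
  have hq0 : F1 (φ x) ^ 2 + F2 (φ x) ^ 2 + phi η (√(zz (φ x))) ^ 2 ≠ 0 := by
    rw [← hN2]
    positivity
  have hq : HasDerivAt (fun s => gN η (φ s)) (gA τ η (φ x) h / gN η (φ x)) x := by
    have h1 := ((d1.pow 2).add (d2.pow 2)).add (hp.pow 2)
    have h2 := h1.sqrt hq0
    refine h2.congr_deriv ?_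
    have e : √((F1 (φ x)) ^ 2 + (F2 (φ x)) ^ 2 + (phi η (√(zz (φ x)))) ^ 2) = gN η (φ x) := rfl
    simp only [Pi.add_apply, Pi.pow_apply]
    rw [e]
    have e2 : gA τ η (φ x) h = F1 (φ x) * dd q1 (φ x) h + F2 (φ x) * dd q2 (φ x) h
        + phi η (√(zz (φ x))) * (phid η (√(zz (φ x))) * dd q3 (φ x) h) := by
      unfold gA
      linear_combination phi η (√(zz (φ x))) * (phid η (√(zz (φ x))) * dd q3 (φ x) h) * hτ
    rw [e2]
    unfold dd
    field_simp
    push_cast
    ring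
  fin_cases i
  · refine (d1.div hq hN.ne').congr_deriv ?_
    change _ = dd q1 (φ x) h / gN η (φ x) - F1 (φ x) * gA τ η (φ x) h / gN η (φ x) ^ 3
    unfold dd
    field_simp
  · refine (d2.div hq hN.ne').congr_deriv ?_
    change _ = dd q2 (φ x) h / gN η (φ x) - F2 (φ x) * gA τ η (φ x) h / gN η (φ x) ^ 3
    unfold dd
    field_simp
  · refine ((hp.const_mul τ).div hq hN.ne').congr_deriv ?_
    change _ = τ * phid η (√(zz (φ x))) * dd q3 (φ x) h / gN η (φ x)
      - τ * phi η (√(zz (φ x))) * gA τ η (φ x) h / gN η (φ x) ^ 3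
    field_simp

theorem q_perp_int {f h : ℝ → ℝ} (hf : Ef f) (hm : Measurable h) {b : ℝ} (hb : ∀ t, |h t| ≤ b) :
    F1 f * dd q1 f h + F2 f * dd q2 f h + √(zz f) * dd q3 f h = 0 := by
  have i1 : IntervalIntegrable (fun t => ww f t * q1 f t * h t) volume 0 (2 * π) :=
    int_mul ((cont_ww hf).mul (cont_q1 hf)) hm hb _ _
  have i2 : IntervalIntegrable (fun t => ww f t * q2 f t * h t) volume 0 (2 * π) :=
    int_mul ((cont_ww hf).mul (cont_q2 hf)) hm hb _ _
  have i3 : IntervalIntegrable (fun t => ww f t * q3 f t * h t) volume 0 (2 * π) :=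
    int_mul ((cont_ww hf).mul (cont_q3 hf)) hm hb _ _
  unfold dd
  rw [← intervalIntegral.integral_const_mul, ← intervalIntegral.integral_const_mul,
    ← intervalIntegral.integral_const_mul,
    ← intervalIntegral.integral_add (i1.const_mul _) (i2.const_mul _),
    ← intervalIntegral.integral_add ((i1.const_mul _).add (i2.const_mul _)) (i3.const_mul _)]
  have e : ∀ t, F1 f * (ww f t * q1 f t * h t) + F2 f * (ww f t * q2 f t * h t)
      + √(zz f) * (ww f t * q3 f t * h t) = 0 := by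
    intro t
    have hp := q_perp hf t
    linear_combination (ww f t * h t) * hp
  simp only [e]
  simp

/-- the energy bound of the normalised map -/
theorem dG_bound {f h k : ℝ → ℝ} (hf : Ef f) {c : ℝ} (hc : 0 ≤ 1 + c) (hU : UAt c f)
    (hm : Measurable h) (km : Measurable k) (hk : ∀ t, h t ^ 2 + k t ^ 2 ≤ 1)
    {τ η : ℝ} (hτ : τ ^ 2 = 1) (hη : 0 < η) (hη1 : η < 1 / 4) :
    (dG τ η f h 0 ^ 2 + dG τ η f h 1 ^ 2 + dG τ η f h 2 ^ 2
      + dG τ η f k 0 ^ 2 + dG τ η f k 1 ^ 2 + dG τ η f k 2 ^ 2) / 2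
      + |GG τ η f 0 * (dG τ η f k 1 * dG τ η f h 2 - dG τ η f k 2 * dG τ η f h 1)
        + GG τ η f 1 * (dG τ η f k 2 * dG τ η f h 0 - dG τ η f k 0 * dG τ η f h 2)
        + GG τ η f 2 * (dG τ η f k 0 * dG τ η f h 1 - dG τ η f k 1 * dG τ η f h 0)|
      ≤ 2 * (1 + c) / (1 - 4 * η) := by
  have hb : ∀ t, |h t| ≤ 1 := fun t => abs_le_one_iff_mul_self_le_one.2 (by nlinarith [hk t, sq_nonneg (k t)])
  have kb : ∀ t, |k t| ≤ 1 := fun t => abs_le_one_iff_mul_self_le_one.2 (by nlinarith [hk t, sq_nonneg (h t)])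
  have hN := gN_pos hf hη hη1
  have hN2 := gN_sq hf hη hη1
  have hge := gN_sq_ge hf hη hη1
  have hp : (τ * phid η (√(zz f))) ^ 2 ≤ 1 := by
    rw [mul_pow, hτ, one_mul]
    exact pow_le_one₀ (phid_nonneg _ _) (phid_le _ _)
  have key := norm_alg (X := F1 f) (Y := F2 f) (Z := √(zz f)) (W3 := τ * phi η (√(zz f)))
    (N := gN η f) (p := τ * phid η (√(zz f))) (K := 2 * (1 + c))
    (a1 := dd q1 f h) (a2 := dd q2 f h) (a3 := dd q3 f h)
    (b1 := dd q1 f k) (b2 := dd q2 f k) (b3 := dd q3 f k)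
    (d1 := dG τ η f h 0) (d2 := dG τ η f h 1) (d3 := dG τ η f h 2)
    (e1 := dG τ η f k 0) (e2 := dG τ η f k 1) (e3 := dG τ η f k 2)
    hN (by rw [hN2, mul_pow, hτ, one_mul]) (unit3 hf) hp (q_perp_int hf hm hb) (q_perp_int hf km kb)
    (fun σ hσ => conf_bound hf hU hm km hk hσ) rfl rfl rfl rfl rfl rfl
  refine key.trans ?_
  rw [← hN2] at hge
  have h4 : 0 < 1 - 4 * η := by linarith
  exact div_le_div_of_nonneg_left (by positivity) h4 hge

/-- the norm of the derivative for a variation bounded by `D` -/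
theorem dG_norm {f h : ℝ → ℝ} (hf : Ef f) {c : ℝ} (hc : 0 ≤ 1 + c) (hU : UAt c f)
    (hm : Measurable h) {D : ℝ} (hD : 0 < D) (hh : ∀ t, |h t| ≤ D)
    {τ η : ℝ} (hτ : τ ^ 2 = 1) (hη : 0 < η) (hη1 : η < 1 / 4) (i : Fin 3) :
    |dG τ η f h i| ≤ 2 * √((1 + c) / (1 - 4 * η)) * D := by
  have h1 := dG_bound (h := fun t => h t / D) (k := fun _ => 0) hf hc hU (hm.div_const D)
    measurable_const (fun t => by
      have := hh t
      have h2 : (h t / D) ^ 2 ≤ 1 := by
        rw [div_pow, div_le_one (by positivity), ← sq_abs (h t)]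
        exact pow_le_pow_left₀ (abs_nonneg _) this 2
      simpa using h2) hτ hη hη1
  have lin : ∀ q : (ℝ → ℝ) → ℝ → ℝ, dd q f (fun t => h t / D) = dd q f h / D := by
    intro q
    unfold dd
    rw [← intervalIntegral.integral_div]
    refine intervalIntegral.integral_congr fun t _ => ?_
    ring
  have z : ∀ q : (ℝ → ℝ) → ℝ → ℝ, dd q f (fun _ => 0) = 0 := by
    intro q
    unfold dd
    simp
  have hlin : ∀ j, dG τ η f (fun t => h t / D) j = dG τ η f h j / D := by
    intro j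
    fin_cases j
    · change dd q1 f (fun t => h t / D) / gN η f - F1 f * gA τ η f (fun t => h t / D) / gN η f ^ 3 =
        (dd q1 f h / gN η f - F1 f * gA τ η f h / gN η f ^ 3) / D
      unfold gA
      rw [lin, lin, lin]
      ring
    · change dd q2 f (fun t => h t / D) / gN η f - F2 f * gA τ η f (fun t => h t / D) / gN η f ^ 3 =
        (dd q2 f h / gN η f - F2 f * gA τ η f h / gN η f ^ 3) / D
      unfold gA
      rw [lin, lin, lin]
      ring
    · change τ * phid η (√(zz f)) * dd q3 f (fun t => h t / D) / gN η f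
          - τ * phi η (√(zz f)) * gA τ η f (fun t => h t / D) / gN η f ^ 3 =
        (τ * phid η (√(zz f)) * dd q3 f h / gN η f - τ * phi η (√(zz f)) * gA τ η f h / gN η f ^ 3) / D
      unfold gA
      rw [lin, lin, lin]
      ring
  have hz : ∀ j, dG τ η f (fun _ => (0 : ℝ)) j = 0 := by
    intro j
    fin_cases j
    · change dd q1 f (fun _ => 0) / gN η f - F1 f * gA τ η f (fun _ => 0) / gN η f ^ 3 = 0
      unfold gA
      rw [z, z, z]
      ring
    · change dd q2 f (fun _ => 0) / gN η f - F2 f * gA τ η f (fun _ => 0) / gN η f ^ 3 = 0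
      unfold gA
      rw [z, z, z]
      ring
    · change τ * phid η (√(zz f)) * dd q3 f (fun _ => 0) / gN η f
          - τ * phi η (√(zz f)) * gA τ η f (fun _ => 0) / gN η f ^ 3 = 0
      unfold gA
      rw [z, z, z]
      ring
  rw [hlin, hlin, hlin, hz, hz, hz] at h1
  simp only [zero_mul, sub_zero, mul_zero, add_zero, abs_zero, ne_eq, OfNat.ofNat_ne_zero,
    not_false_eq_true, zero_pow] at h1
  have h4 : 0 < 1 - 4 * η := by linarith
  have h5 : (dG τ η f h i / D) ^ 2 ≤ 4 * ((1 + c) / (1 - 4 * η)) := by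
    have h6 : dG τ η f h 0 ^ 2 / D ^ 2 + dG τ η f h 1 ^ 2 / D ^ 2 + dG τ η f h 2 ^ 2 / D ^ 2
        ≤ 4 * ((1 + c) / (1 - 4 * η)) := by
      have e : 2 * (1 + c) / (1 - 4 * η) = 2 * ((1 + c) / (1 - 4 * η)) := by ring
      rw [e] at h1
      rw [div_pow, div_pow, div_pow] at h1
      linarith
    rw [div_pow]
    have g0 : 0 ≤ dG τ η f h 0 ^ 2 / D ^ 2 := by positivity
    have g1 : 0 ≤ dG τ η f h 1 ^ 2 / D ^ 2 := by positivity
    have g2 : 0 ≤ dG τ η f h 2 ^ 2 / D ^ 2 := by positivity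
    fin_cases i
    · change dG τ η f h 0 ^ 2 / D ^ 2 ≤ _
      linarith
    · change dG τ η f h 1 ^ 2 / D ^ 2 ≤ _
      linarith
    · change dG τ η f h 2 ^ 2 / D ^ 2 ≤ _
      linarith
  have h7 : |dG τ η f h i / D| ≤ 2 * √((1 + c) / (1 - 4 * η)) := by
    refine abs_le_of_sq_le_sq ?_ (by positivity)
    rw [mul_pow, sq_sqrt (by positivity)]
    linarith
  rw [abs_div, abs_of_pos hD, div_le_iff₀ hD] at h7
  exact h7

/-- the Lipschitz bound in the space of functions -/
theorem GG_lip {c : ℝ} (hc : 0 ≤ 1 + c) (hU : UStar c) {f g : ℝ → ℝ} (hf : Ef f) (hg : Ef g)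
    {m : ℝ} (hm0 : 0 ≤ m) (hm : m < π / 2) (hfm : ∀ t, |f t| ≤ m) (hgm : ∀ t, |g t| ≤ m)
    {D : ℝ} (hD : 0 ≤ D) (h : ∀ t, |f t - g t| ≤ D)
    {τ η : ℝ} (hτ : τ ^ 2 = 1) (hη : 0 < η) (hη1 : η < 1 / 4) (i : Fin 3) :
    |GG τ η f i - GG τ η g i| ≤ 2 * √((1 + c) / (1 - 4 * η)) * D := by
  rcases hD.eq_or_lt with h0 | h0
  · have : f = g := by
      funext t
      have := h t
      rw [← h0] at this
      have := abs_nonpos_iff.1 this
      linarith
    rw [this, sub_self, abs_zero, ← h0, mul_zero]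
  · set φ : ℝ → ℝ → ℝ := fun s t => g t + s * (f t - g t) with hφ
    have hcrv : ∀ x ∈ Icc (0 : ℝ) 1, Crv φ (fun t => f t - g t) x := by
      intro x hx
      refine ⟨fun s => ?_, ?_, fun t => ?_, ?_, ?_, ?_⟩
      · exact (hg.cont.add (continuous_const.mul (hf.cont.sub hg.cont))).measurable
      · exact (hf.cont.sub hg.cont).measurable
      · have := ((hasDerivAt_id x).mul_const (f t - g t)).const_add (g t)
        simpa [hφ] using this
      · refine ⟨D, hD, Eventually.of_forall fun s t _ => ?_⟩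
        have e : φ s t - φ x t = (f t - g t) * (s - x) := by
          simp only [hφ]
          ring
        rw [e, abs_mul]
        exact mul_le_mul_of_nonneg_right (h t) (abs_nonneg _)
      · refine ⟨(m + π / 2) / 2, by positivity, by linarith, ?_⟩
        have h1 : ∀ᶠ s in 𝓝 x, |s - x| * D < (π / 2 - m) / 2 := by
          have hc : Continuous fun s : ℝ => |s - x| * D := by fun_prop
          refine hc.continuousAt.eventually_lt_const ?_
          simp only [sub_self, abs_zero, zero_mul]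
          linarith
        filter_upwards [h1] with s hs t
        have e : φ s t = ((1 - x) * g t + x * f t) + (f t - g t) * (s - x) := by
          simp only [hφ]
          ring
        rw [e]
        refine (abs_add_le _ _).trans ?_
        have a1 : |(1 - x) * g t + x * f t| ≤ m := by
          refine (abs_add_le _ _).trans ?_
          rw [abs_mul, abs_mul, abs_of_nonneg hx.1, abs_of_nonneg (sub_nonneg.2 hx.2)]
          nlinarith [mul_nonneg hx.1 (sub_nonneg.2 (hfm t)), mul_nonneg (sub_nonneg.2 hx.2) (sub_nonneg.2 (hgm t))]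
        have a2 : |(f t - g t) * (s - x)| ≤ |s - x| * D := by
          rw [abs_mul, mul_comm]
          exact mul_le_mul_of_nonneg_left (h t) (abs_nonneg _)
        linarith
      · refine ⟨LipschitzWith.of_dist_le_mul fun s t => ?_, fun t => ?_, fun t => ?_⟩
        · rw [Real.dist_eq, Real.dist_eq, NNReal.coe_one, one_mul]
          have e : φ x s - φ x t = (1 - x) * (g s - g t) + x * (f s - f t) := by
            simp only [hφ]
            ring
          rw [e]
          refine (abs_add_le _ _).trans ?_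
          rw [abs_mul, abs_mul, abs_of_nonneg hx.1, abs_of_nonneg (sub_nonneg.2 hx.2)]
          have := hg.abs_sub s t
          have := hf.abs_sub s t
          nlinarith [mul_nonneg hx.1 (sub_nonneg.2 (hf.abs_sub s t)),
            mul_nonneg (sub_nonneg.2 hx.2) (sub_nonneg.2 (hg.abs_sub s t))]
        · simp only [hφ]
          rw [hf.odd, hg.odd]
          ring
        · have e : φ x t = (1 - x) * g t + x * f t := by
            simp only [hφ]
            ring
          rw [e]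
          refine lt_of_le_of_lt ?_ hm
          refine (abs_add_le _ _).trans ?_
          rw [abs_mul, abs_mul, abs_of_nonneg hx.1, abs_of_nonneg (sub_nonneg.2 hx.2)]
          nlinarith [mul_nonneg hx.1 (sub_nonneg.2 (hfm t)), mul_nonneg (sub_nonneg.2 hx.2) (sub_nonneg.2 (hgm t))]
    have key := (convex_Icc (0 : ℝ) 1).norm_image_sub_le_of_norm_hasDerivWithin_le
      (f := fun s => GG τ η (φ s) i) (f' := fun s => dG τ η (φ s) (fun t => f t - g t) i)
      (C := 2 * √((1 + c) / (1 - 4 * η)) * D)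
      (fun x hx => (GG_deriv (hcrv x hx) h hτ hη hη1 i).hasDerivWithinAt)
      (fun x hx => by
        rw [Real.norm_eq_abs]
        exact dG_norm (hcrv x hx).ef hc (hU _ (hcrv x hx).ef) (hcrv x hx).measd h0 h hτ hη hη1 i)
      (left_mem_Icc.2 zero_le_one) (right_mem_Icc.2 zero_le_one)
    have e0 : φ 0 = g := by
      funext t
      simp [hφ]
    have e1 : φ 1 = f := by
      funext t
      simp [hφ]
    simp only [e0, e1, sub_zero, norm_one, mul_one] at key
    exact key

end Pool.Agent.FPX.UMQ
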