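import Mathlib
import Pool.Agent.FPX.UME
import Pool.Agent.EWD.LPA

/-
UMF (helper76): the function `f_x(t) = (d(x, γ(t+π)) - d(x, γ t))/2` of a point of the surface, its
interpolation, and the boundary values.
-/

open MeasureTheory Set Filter Topology
open scoped ENNReal NNReal

noncomputable section

namespace Pool.Agent.FPX.UMQ

open Pool.Agent.FPX.UMP Pool.Agent.EWD

open Real

variable {M : Type} [MetricSpace M] {γ : ℝ → M}

/-- the function of a point -/
def fx (γ : ℝ → M) (x : M) (t : ℝ) : ℝ := (dist x (γ (t + π)) - dist x (γ t)) / 2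

theorem gam_le (hγ : Bd γ) (s t : ℝ) : dist (γ s) (γ t) ≤ |s - t| := by
  have := hγ.lip.dist_le_mul s t
  simpa [Real.dist_eq] using this

theorem fx_lip (hγ : Bd γ) (x : M) : LipschitzWith 1 (fx γ x) := by
  refine LipschitzWith.of_dist_le_mul fun s t => ?_
  rw [Real.dist_eq, Real.dist_eq, NNReal.coe_one, one_mul]
  have h1 := gam_le hγ s t
  have h2 := gam_le hγ (s + π) (t + π)
  rw [add_sub_add_right_eq_sub] at h2
  have h3 := abs_dist_sub_le (γ (s + π)) (γ (t + π)) x
  have h4 := abs_dist_sub_le (γ s) (γ t) x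
  rw [dist_comm _ x, dist_comm _ x] at h3 h4
  have e : fx γ x s - fx γ x t = ((dist x (γ (s + π)) - dist x (γ (t + π)))
      - (dist x (γ s) - dist x (γ t))) / 2 := by
    unfold fx
    ring
  rw [e, abs_div, abs_two, div_le_iff₀ two_pos]
  refine (abs_sub _ _).trans ?_
  linarith

theorem fx_odd (hγ : Bd γ) (x : M) (t : ℝ) : fx γ x (t + π) = -fx γ x t := by
  unfold fx
  have : t + π + π = t + 2 * π := by ring
  rw [this, hγ.per]
  ring

theorem fx_bd (hγ : Bd γ) (x : M) (t : ℝ) : |fx γ x t| ≤ π / 2 := by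
  have h1 := gam_le hγ (t + π) t
  rw [add_sub_cancel_left, abs_of_pos pi_pos] at h1
  have h2 := abs_dist_sub_le (γ (t + π)) (γ t) x
  rw [dist_comm _ x, dist_comm _ x] at h2
  unfold fx
  rw [abs_div, abs_two]
  linarith

theorem fx_lipx (γ : ℝ → M) (t : ℝ) : LipschitzWith 1 (fun x => fx γ x t) := by
  refine LipschitzWith.of_dist_le_mul fun x y => ?_
  rw [Real.dist_eq, NNReal.coe_one, one_mul]
  have h1 := abs_dist_sub_le x y (γ (t + π))
  have h2 := abs_dist_sub_le x y (γ t)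
  have e : fx γ x t - fx γ y t = ((dist x (γ (t + π)) - dist y (γ (t + π)))
      - (dist x (γ t) - dist y (γ t))) / 2 := by
    unfold fx
    ring
  rw [e, abs_div, abs_two, div_le_iff₀ two_pos]
  refine (abs_sub _ _).trans ?_
  linarith

/-- antipodal points: the sum of the distances is `π` -/
theorem dist_sum (hγ : Bd γ) (a b : ℝ) : dist (γ a) (γ b) + dist (γ b) (γ (a + π)) = π := by
  refine le_antisymm ?_ ?_
  · -- move `b` by a multiple of `2π`
    have hper : ∀ (k : ℤ) (t : ℝ), γ (t + k * (2 * π)) = γ t := by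
      intro k
      have hp : Function.Periodic γ (2 * π) := hγ.per
      intro t
      exact hp.int_mul k t
    obtain ⟨k, hk⟩ : ∃ k : ℤ, |a - (b + k * (2 * π))| ≤ π := by
      refine ⟨round ((a - b) / (2 * π)), ?_⟩
      have h1 := abs_sub_round ((a - b) / (2 * π))
      have e : a - (b + (round ((a - b) / (2 * π)) : ℤ) * (2 * π)) =
          ((a - b) / (2 * π) - (round ((a - b) / (2 * π)) : ℤ)) * (2 * π) := by
        field_simp
        ring
      rw [e, abs_mul, abs_of_pos two_pi_pos]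
      nlinarith [two_pi_pos]
    rw [← hper k b]
    set b' := b + k * (2 * π)
    have h1 := gam_le hγ a b'
    rcases le_total b' a with h | h
    · rw [abs_of_nonneg (sub_nonneg.2 h)] at hk h1
      have h2 := gam_le hγ b' (a - π)
      have e : γ (a - π) = γ (a + π) := by
        rw [← hγ.per (a - π)]
        congr 1
        ring
      rw [e] at h2
      have e2 : |b' - (a - π)| = b' - (a - π) := abs_of_nonneg (by linarith)
      rw [e2] at h2
      linarith
    · rw [abs_sub_comm, abs_of_nonneg (sub_nonneg.2 h)] at hk h1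
      have h2 := gam_le hγ b' (a + π)
      have e2 : |b' - (a + π)| = a + π - b' := by
        rw [abs_sub_comm]
        exact abs_of_nonneg (by linarith)
      rw [e2] at h2
      linarith
  · exact (hγ.anti a).trans (dist_triangle _ _ _)

theorem dist_shift (hγ : Bd γ) (a b : ℝ) : dist (γ (a + π)) (γ (b + π)) = dist (γ a) (γ b) := by
  have h1 := dist_sum hγ a b
  have h2 := dist_sum hγ b (a + π)
  linarith

/-- the function of a boundary point -/
theorem fx_gam (hγ : Bd γ) (s t : ℝ) : fx γ (γ s) t = π / 2 - dist (γ s) (γ t) := by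
  have h1 := dist_sum hγ t s
  unfold fx
  rw [dist_comm (γ t) (γ s)] at h1
  linarith

theorem fx_anti (hγ : Bd γ) (s t : ℝ) : fx γ (γ (s + π)) t = -fx γ (γ s) t := by
  rw [fx_gam hγ, fx_gam hγ]
  have h1 := dist_sum hγ s t
  rw [dist_comm (γ t)] at h1
  linarith

theorem dist_small (hγ : Bd γ) {s t : ℝ} (h : |t - s| ≤ π) : dist (γ s) (γ t) = |t - s| := by
  refine le_antisymm ((gam_le hγ s t).trans (abs_sub_comm s t).le) ?_
  have h1 := dist_sum hγ s t
  rcases le_total s t with h0 | h0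
  · have h2 := gam_le hγ t (s + π)
    rw [abs_of_nonneg (sub_nonneg.2 h0)] at h ⊢
    have e2 : |t - (s + π)| = s + π - t := by
      rw [abs_sub_comm]
      exact abs_of_nonneg (by linarith)
    rw [e2] at h2
    linarith
  · have h2 := gam_le hγ t (s - π)
    have e : γ (s - π) = γ (s + π) := by
      rw [← hγ.per (s - π)]
      congr 1
      ring
    rw [e] at h2
    rw [abs_sub_comm, abs_of_nonneg (sub_nonneg.2 h0)] at h ⊢
    have e2 : |t - (s - π)| = t - (s - π) := abs_of_nonneg (by linarith)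
    rw [e2] at h2
    linarith

/-- the interpolated function -/
def pf (γ : ℝ → M) (ρ : ℝ) (n : ℕ) (x : M) (t : ℝ) : ℝ := pli (π / n) (fun t => ρ * fx γ x t) t

section
variable {ρ : ℝ} {n : ℕ}

theorem pf_ef (hγ : Bd γ) (hρ : 0 ≤ ρ) (hρ1 : ρ < 1) (hn : n ≠ 0) (x : M) : Ef (pf γ ρ n x) := by
  have hd : 0 < π / (n : ℝ) := div_pos pi_pos (Nat.cast_pos.2 (Nat.pos_of_ne_zero hn))
  have hl : LipschitzWith 1 (fun t => ρ * fx γ x t) := by
    refine LipschitzWith.of_dist_le_mul fun s t => ?_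
    rw [Real.dist_eq, Real.dist_eq, NNReal.coe_one, one_mul, ← mul_sub, abs_mul, abs_of_nonneg hρ]
    have := (fx_lip hγ x).dist_le_mul s t
    rw [Real.dist_eq, Real.dist_eq, NNReal.coe_one, one_mul] at this
    nlinarith [abs_nonneg (s - t), abs_nonneg (fx γ x s - fx γ x t)]
  refine ⟨pli_lip hd hl, fun t => ?_, fun t => ?_⟩
  · exact pli_odd hn (f := fun t => ρ * fx γ x t) (fun t => by
      rw [fx_odd hγ]
      ring) t
  · refine lt_of_le_of_lt (pli_abs (b := ρ * (π / 2)) _ _ fun k => ?_) ?_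
    · rw [abs_mul, abs_of_nonneg hρ]
      exact mul_le_mul_of_nonneg_left (fx_bd hγ x _) hρ
    · nlinarith [pi_pos]

theorem pf_bd (hγ : Bd γ) (hρ : 0 ≤ ρ) (x : M) (t : ℝ) : |pf γ ρ n x t| ≤ ρ * (π / 2) := by
  refine pli_abs _ _ fun k => ?_
  rw [abs_mul, abs_of_nonneg hρ]
  exact mul_le_mul_of_nonneg_left (fx_bd hγ x _) hρ

theorem pf_sub (hρ : 0 ≤ ρ) (hρ1 : ρ ≤ 1) (x y : M) (t : ℝ) :
    |pf γ ρ n x t - pf γ ρ n y t| ≤ dist x y := by
  unfold pf
  rw [← pli_sub]
  refine pli_abs _ _ fun k => ?_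
  rw [← mul_sub, abs_mul, abs_of_nonneg hρ]
  have := (fx_lipx γ ((k : ℝ) * (π / n))).dist_le_mul x y
  rw [Real.dist_eq, NNReal.coe_one, one_mul] at this
  nlinarith [abs_nonneg (fx γ x ((k : ℝ) * (π / n)) - fx γ y ((k : ℝ) * (π / n))),
    dist_nonneg (x := x) (y := y)]

theorem pf_anti (hγ : Bd γ) (s : ℝ) : pf γ ρ n (γ (s + π)) = fun t => -pf γ ρ n (γ s) t := by
  funext t
  unfold pf
  rw [← pli_neg]
  congr 1
  funext r
  rw [fx_anti hγ]
  ring

/-- upper bound at boundary points -/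
theorem pf_upper (hγ : Bd γ) (hρ : 0 ≤ ρ) (hρ1 : ρ ≤ 1) (hn : 2 ≤ n) {s t : ℝ} (h : |t - s| ≤ π / 2) :
    pf γ ρ n (γ s) t ≤ π / 2 - |t - s| := by
  have hn0 : (0 : ℝ) < n := by positivity
  set d := π / (n : ℝ) with hd
  have hd0 : 0 < d := div_pos pi_pos hn0
  have hd2 : d ≤ π / 2 := by
    rw [hd]
    exact div_le_div_of_nonneg_left pi_pos.le two_pos (by exact_mod_cast hn)
  have a1 := pli_node_le hd0 t
  have a2 := pli_lt_node hd0 t
  have hfr := pli_frac hd0 t
  have h0 := Int.fract_nonneg (t / d)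
  have h1 := sub_nonneg.2 (Int.fract_lt_one (t / d)).le
  set p := (⌊t / d⌋ : ℝ) * d with hp
  set q := ((⌊t / d⌋ : ℝ) + 1) * d with hq
  have hqp : q = p + d := by rw [hp, hq]; ring
  have hsp : |p - s| ≤ π := by
    have : |p - s| ≤ |p - t| + |t - s| := abs_sub_le _ _ _
    have h3 : |p - t| ≤ d := by
      rw [abs_sub_comm, abs_of_nonneg (by linarith)]
      linarith
    linarith
  have hsq : |q - s| ≤ π := by
    have : |q - s| ≤ |q - t| + |t - s| := abs_sub_le _ _ _
    have h3 : |q - t| ≤ d := by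
      rw [abs_of_nonneg (by linarith)]
      linarith
    linarith
  have e : pf γ ρ n (γ s) t = ρ * (π / 2 - ((1 - Int.fract (t / d)) * |p - s|
      + Int.fract (t / d) * |q - s|)) := by
    unfold pf pli
    rw [← hd, ← hp, ← hq]
    simp only
    rw [fx_gam hγ, fx_gam hγ, dist_small hγ hsp, dist_small hγ hsq]
    ring
  have h2 : |t - s| ≤ (1 - Int.fract (t / d)) * |p - s| + Int.fract (t / d) * |q - s| := by
    have e2 : t - s = (1 - Int.fract (t / d)) * (p - s) + Int.fract (t / d) * (q - s) := by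
      rw [hqp]
      linear_combination -hfr
    calc |t - s| = |(1 - Int.fract (t / d)) * (p - s) + Int.fract (t / d) * (q - s)| := by
          rw [← e2]
      _ ≤ _ := by
        refine (abs_add_le _ _).trans ?_
        rw [abs_mul, abs_mul, abs_of_nonneg h0, abs_of_nonneg h1]
  rw [e]
  have h3 : π / 2 - ((1 - Int.fract (t / d)) * |p - s| + Int.fract (t / d) * |q - s|) ≤
      π / 2 - |t - s| := by linarith
  have h4 : 0 ≤ π / 2 - |t - s| := by linarith
  calc _ ≤ ρ * (π / 2 - |t - s|) := mul_le_mul_of_nonneg_left h3 hρ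
    _ ≤ 1 * (π / 2 - |t - s|) := mul_le_mul_of_nonneg_right hρ1 h4
    _ = _ := one_mul _

/-- lower bound at boundary points -/
theorem pf_lower (hγ : Bd γ) (hρ : 0 ≤ ρ) (hρ1 : ρ ≤ 1) (hn : n ≠ 0) {s t : ℝ} (h : |t - s| ≤ π / 2) :
    π / 2 - |t - s| - ((1 - ρ) * (π / 2) + 2 * (π / n)) ≤ pf γ ρ n (γ s) t := by
  have hd : 0 < π / (n : ℝ) := div_pos pi_pos (Nat.cast_pos.2 (Nat.pos_of_ne_zero hn))
  have h1 := pli_close hd (fx_lip hγ (γ s)) t
  have h2 : fx γ (γ s) t = π / 2 - |t - s| := by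
    rw [fx_gam hγ, dist_small hγ (by linarith [pi_pos])]
  rw [h2] at h1
  have h3 := (abs_le.1 h1).1
  have e : pf γ ρ n (γ s) t = ρ * pli (π / n) (fx γ (γ s)) t := pli_smul _ _ _ _
  rw [e]
  have h4 : 0 ≤ π / 2 - |t - s| := by linarith
  have h5 : π / 2 - |t - s| ≤ π / 2 := by linarith [abs_nonneg (t - s)]
  nlinarith [mul_nonneg hρ hd.le, mul_nonneg (sub_nonneg.2 hρ1) hd.le,
    mul_nonneg (sub_nonneg.2 hρ1) (sub_nonneg.2 h5), mul_le_mul_of_nonneg_left h3 hρ]

end

end Pool.Agent.FPX.UMQ
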