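import Mathlib
import Pool.Agent.FPX.UMF

/-
UMG (helper76): the universal map near the boundary.
-/

open MeasureTheory Set Filter Topology
open scoped ENNReal NNReal

noncomputable section

namespace Pool.Agent.FPX.UMQ

open Pool.Agent.FPX.UMP Pool.Agent.EWD

open Real

theorem RR_neg (y : ℝ) : RR (-y) = -RR y := by
  unfold RR
  rw [tan_neg, cos_neg, arsinh_neg]
  ring

/-- the pointwise estimate -/
theorem pt_est {u y : ℝ} (hu : |u| ≤ π / 2) (h1 : -(π / 4) ≤ y) (h2 : y ≤ π / 2 - |u|) (h3 : y < π / 2) :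
    1 / 2 * (1 / cos y ^ 2) - cos u * RR y ≤ 3 := by
  have hcu0 : 0 ≤ cos u := by
    rw [← cos_abs]
    exact cos_nonneg_of_neg_pi_div_two_le_of_le (by linarith [abs_nonneg u, pi_pos]) hu
  have hcu1 := cos_le_one u
  have hpi := pi_pos
  have hcy : 0 < cos y := cos_pos_of_mem_Ioo ⟨by linarith, h3⟩
  rcases le_total 0 y with h0 | h0
  · have ht : 0 ≤ tan y := tan_nonneg_of_nonneg_of_le_pi_div_two h0 h3.le
    have ha : 0 ≤ arsinh (tan y) := arsinh_nonneg_iff.2 ht
    have hR : sin y / (2 * cos y ^ 2) ≤ RR y := by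
      unfold RR
      have e : sin y / (2 * cos y ^ 2) = tan y / cos y / 2 := by
        rw [tan_eq_sin_div_cos]
        field_simp
      rw [e]
      linarith
    have h4 : 1 / 2 * (1 / cos y ^ 2) - cos u * RR y ≤ (1 - cos u * sin y) / (2 * cos y ^ 2) := by
      have := mul_le_mul_of_nonneg_left hR hcu0
      have e : (1 - cos u * sin y) / (2 * cos y ^ 2) =
          1 / 2 * (1 / cos y ^ 2) - cos u * (sin y / (2 * cos y ^ 2)) := by
        field_simp
      rw [e]
      linarith
    refine h4.trans ?_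
    set β := π / 2 - y with hβ
    have hβ0 : 0 < β := by linarith
    have hβ1 : β ≤ π / 2 := by linarith
    have hub : |u| ≤ β := by linarith
    have s1 : sin y = cos β := by rw [hβ, cos_pi_div_two_sub]
    have s2 : cos y = sin β := by rw [hβ, sin_pi_div_two_sub]
    have s3 : 2 / π * β ≤ sin β := mul_le_sin hβ0.le hβ1
    have s4 := one_sub_sq_div_two_le_cos (x := u)
    have s5 := one_sub_sq_div_two_le_cos (x := β)
    have s6 : u ^ 2 ≤ β ^ 2 := by
      rw [← sq_abs u]
      exact pow_le_pow_left₀ (abs_nonneg u) hub 2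
    have hcb := cos_le_one β
    have hcb0 : 0 ≤ cos β := cos_nonneg_of_neg_pi_div_two_le_of_le (by linarith) hβ1
    have s7 : 1 - cos u * cos β ≤ β ^ 2 := by
      nlinarith [mul_nonneg (sub_nonneg.2 hcb) (sub_nonneg.2 hcu1)]
    rw [s1, s2]
    have s8 : (2 / π * β) ^ 2 ≤ sin β ^ 2 := pow_le_pow_left₀ (by positivity) s3 2
    have s9 : 0 < sin β := lt_of_lt_of_le (by positivity) s3
    rw [div_le_iff₀ (by positivity)]
    have s10 : (2 / π * β) ^ 2 = 4 / π ^ 2 * β ^ 2 := by
      field_simp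
      ring
    have s11 : 1 / 6 ≤ 4 / π ^ 2 := by
      rw [div_le_div_iff₀ (by norm_num) (by positivity)]
      nlinarith [pi_lt_d2, pi_pos]
    have s12 : 1 / 6 * β ^ 2 ≤ sin β ^ 2 := by
      refine le_trans ?_ s8
      rw [s10]
      exact mul_le_mul_of_nonneg_right s11 (sq_nonneg β)
    linarith
  · -- `y ∈ [-π/4, 0]`
    have hc2 : 1 / 2 ≤ cos y ^ 2 := by
      have h5 : cos (π / 4) ≤ cos y := by
        rw [← cos_neg y]
        exact cos_le_cos_of_nonneg_of_le_pi (by linarith) (by linarith) (by linarith)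
      rw [cos_pi_div_four] at h5
      have h6 : (√2 / 2) ^ 2 ≤ cos y ^ 2 := pow_le_pow_left₀ (by positivity) h5 2
      have h7 : (√2 / 2) ^ 2 = 1 / 2 := by
        rw [div_pow, sq_sqrt (by norm_num)]
        norm_num
      linarith
    have hcy2 : 7 / 10 ≤ cos y := by
      by_contra hcon
      push Not at hcon
      nlinarith
    have ht : -tan y ≤ 1 := by
      rw [← tan_neg]
      have h8 : sin (-y) ^ 2 ≤ cos (-y) ^ 2 := by
        rw [cos_neg]
        nlinarith [sin_sq_add_cos_sq (-y), cos_neg y]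
      rw [tan_eq_sin_div_cos, div_le_one (by rw [cos_neg]; exact hcy)]
      exact (abs_le_of_sq_le_sq' h8 (by rw [cos_neg]; exact hcy.le)).2
    have hR : -RR y ≤ 5 / 4 := by
      unfold RR
      have h9 : -tan y / cos y ≤ 3 / 2 := by
        rw [div_le_iff₀ hcy]
        linarith
      have h10 : -arsinh (tan y) ≤ 1 := by
        rw [← arsinh_neg]
        have h14 : arsinh (-tan y) ≤ arsinh (sinh 1) :=
          arsinh_le_arsinh.2 (ht.trans (self_le_sinh_iff.2 zero_le_one))
        rwa [arsinh_sinh] at h14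
      have e : -((tan y / cos y + arsinh (tan y)) / 2) = (-tan y / cos y + -arsinh (tan y)) / 2 := by
        ring
      rw [e]
      linarith
    have h11 : 1 / cos y ^ 2 ≤ 2 := by
      rw [div_le_iff₀ (by positivity)]
      linarith
    have h12 : -(cos u * RR y) ≤ 5 / 4 := by
      have h13 : cos u * -RR y ≤ 5 / 4 := by
        rcases le_total 0 (-RR y) with h | h
        · calc cos u * -RR y ≤ 1 * (5 / 4) := mul_le_mul hcu1 hR h zero_le_one
            _ = 5 / 4 := one_mul _
        · nlinarith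
      linarith
    linarith

section
variable {f : ℝ → ℝ} {s δ : ℝ}

theorem int_est (hf : Ef f) (hδ : 0 ≤ δ) (hδ1 : δ ≤ π / 4)
    (hup : ∀ t, |t - s| ≤ π / 2 → f t ≤ π / 2 - |t - s|)
    (hlo : ∀ t, |t - s| ≤ π / 2 → π / 2 - |t - s| - δ ≤ f t) :
    V0 f - (cos s * V1 f + sin s * V2 f) ≤ 6 * π := by
  set I : ℝ → ℝ := fun t => 1 / 2 * (1 / cos (f t) ^ 2) - cos (t - s) * RR (f t) with hI
  have hper : Function.Periodic I π := by
    intro t
    simp only [hI]
    rw [hf.odd, cos_neg, RR_neg]
    have e : cos (t + π - s) = -cos (t - s) := by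
      rw [← cos_add_pi]
      congr 1
      ring
    rw [e]
    ring
  have hwin : ∀ t, |t - s| ≤ π / 2 → I t ≤ 3 := by
    intro t ht
    have h1 := hup t ht
    have h2 := hlo t ht
    have h3 := (abs_lt.1 (hf.lt t)).2
    exact pt_est ht (by linarith) h1 h3
  have hall : ∀ t, I t ≤ 3 := by
    intro t
    have h1 := abs_sub_round ((t - s) / π)
    have h2 : I t = I (t - round ((t - s) / π) * π) := by
      have := hper.int_mul (-(round ((t - s) / π))) t
      rw [← this]
      congr 1
      push_cast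
      ring
    rw [h2]
    apply hwin
    have e : t - round ((t - s) / π) * π - s = ((t - s) / π - round ((t - s) / π)) * π := by
      field_simp
      ring
    rw [e, abs_mul, abs_of_pos pi_pos]
    nlinarith [pi_pos]
  have c1 : Continuous fun t => 1 / 2 * (1 / cos (f t) ^ 2) := continuous_const.mul hf.cont_sec2
  have c2 : Continuous fun t => cos t * RR (f t) := continuous_cos.mul hf.cont_RR
  have c3 : Continuous fun t => sin t * RR (f t) := continuous_sin.mul hf.cont_RR
  have e : V0 f - (cos s * V1 f + sin s * V2 f) = ∫ t in (0 : ℝ)..(2 * π), I t := by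
    unfold V0 V1 V2
    rw [← intervalIntegral.integral_const_mul, ← intervalIntegral.integral_const_mul,
      ← intervalIntegral.integral_const_mul, ← intervalIntegral.integral_add,
      ← intervalIntegral.integral_sub]
    · refine intervalIntegral.integral_congr fun t _ => ?_
      simp only [hI]
      rw [cos_sub]
      ring
    · exact c1.intervalIntegrable _ _
    · exact (((continuous_const.mul c2).add (continuous_const.mul c3))).intervalIntegrable _ _
    · exact (continuous_const.mul c2).intervalIntegrable _ _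
    · exact (continuous_const.mul c3).intervalIntegrable _ _
  have cI : Continuous I := by
    simp only [hI]
    exact c1.sub ((by fun_prop : Continuous fun t => cos (t - s)).mul hf.cont_RR)
  rw [e]
  calc ∫ t in (0 : ℝ)..(2 * π), I t ≤ ∫ t in (0 : ℝ)..(2 * π), (3 : ℝ) :=
        intervalIntegral.integral_mono (by positivity) (cI.intervalIntegrable _ _)
          intervalIntegrable_const hall
    _ = 6 * π := by
      rw [intervalIntegral.integral_const, smul_eq_mul]
      ring

theorem V0_est (hf : Ef f) (hδ : 0 < δ) (hδ1 : δ ≤ π / 4)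
    (hlo : ∀ t, |t - s| ≤ π / 2 → π / 2 - |t - s| - δ ≤ f t) : 1 / (4 * δ) ≤ V0 f := by
  have hpi := pi_pos
  set P : ℝ → ℝ := fun t => 1 / cos (f t) ^ 2 with hP
  have hper : Function.Periodic P (2 * π) := by
    intro t
    simp only [hP]
    rw [hf.per]
  have h0 : ∀ t, 0 ≤ P t := fun t => by
    simp only [hP]
    positivity
  have hi : ∀ a b, IntervalIntegrable P volume a b := fun a b => hf.cont_sec2.intervalIntegrable _ _
  have e : ∫ t in (0 : ℝ)..(2 * π), P t = ∫ t in (s - π)..(s + π), P t := by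
    have := hper.intervalIntegral_add_eq 0 (s - π)
    rw [zero_add] at this
    rw [this]
    congr 1
    ring
  have h1 : ∫ t in (s - δ)..(s + δ), P t ≤ ∫ t in (s - π)..(s + π), P t :=
    intervalIntegral.integral_mono_interval (by linarith) (by linarith) (by linarith)
      (Eventually.of_forall h0) (hi _ _)
  have h2 : ∫ t in (s - δ)..(s + δ), (1 / (4 * δ ^ 2)) ≤ ∫ t in (s - δ)..(s + δ), P t := by
    refine intervalIntegral.integral_mono_on (by linarith) intervalIntegrable_const (hi _ _) ?_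
    intro t ht
    have ht1 : |t - s| ≤ δ := abs_le.2 ⟨by linarith [ht.1], by linarith [ht.2]⟩
    have h3 := hlo t (ht1.trans (by linarith))
    have h4 := (abs_lt.1 (hf.lt t)).2
    have h5 : cos (f t) ≤ 2 * δ := by
      rw [← sin_pi_div_two_sub]
      refine (sin_le (by linarith)).trans ?_
      linarith
    have h6 := hf.cos_pos t
    simp only [hP]
    refine one_div_le_one_div_of_le (by positivity) ?_
    calc cos (f t) ^ 2 ≤ (2 * δ) ^ 2 := pow_le_pow_left₀ h6.le h5 2
      _ = 4 * δ ^ 2 := by ring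
  rw [intervalIntegral.integral_const, smul_eq_mul] at h2
  have h7 : (s + δ - (s - δ)) * (1 / (4 * δ ^ 2)) = 1 / (2 * δ) := by
    field_simp
    ring
  rw [h7] at h2
  have h8 : V0 f = 1 / 2 * ∫ t in (0 : ℝ)..(2 * π), P t := rfl
  rw [h8, e]
  have h9 : 1 / (4 * δ) = 1 / 2 * (1 / (2 * δ)) := by
    field_simp
    ring
  rw [h9]
  linarith

/-- the horizontal part at the boundary is almost the boundary point -/
theorem hor_ge (hf : Ef f) (hδ : 0 < δ) (hδ1 : δ ≤ π / 4)
    (hup : ∀ t, |t - s| ≤ π / 2 → f t ≤ π / 2 - |t - s|)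
    (hlo : ∀ t, |t - s| ≤ π / 2 → π / 2 - |t - s| - δ ≤ f t) :
    1 - 24 * π * δ ≤ F1 f * cos s + F2 f * sin s := by
  have h1 := int_est hf hδ.le hδ1 hup hlo
  have h2 := V0_est hf hδ hδ1 hlo
  have h3 := hf.V0_pos
  have e : F1 f * cos s + F2 f * sin s = (cos s * V1 f + sin s * V2 f) / V0 f := by
    unfold F1 F2
    field_simp
  rw [e, le_div_iff₀ h3]
  have h4 : 1 ≤ 4 * δ * V0 f := by
    rw [div_le_iff₀ (by positivity)] at h2
    linarith
  nlinarith [pi_pos]

theorem zz_le (hf : Ef f) (hδ : 0 < δ) (hδ1 : δ ≤ π / 4)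
    (hup : ∀ t, |t - s| ≤ π / 2 → f t ≤ π / 2 - |t - s|)
    (hlo : ∀ t, |t - s| ≤ π / 2 → π / 2 - |t - s| - δ ≤ f t) : zz f ≤ 48 * π * δ := by
  have h1 := hor_ge hf hδ hδ1 hup hlo
  have h2 := hf.zz_pos
  have h3 := sin_sq_add_cos_sq s
  unfold zz at h2 ⊢
  set c := F1 f * cos s + F2 f * sin s with hc
  have h4 : c ^ 2 + (F1 f * sin s - F2 f * cos s) ^ 2 = F1 f ^ 2 + F2 f ^ 2 := by
    rw [hc]
    linear_combination (F1 f ^ 2 + F2 f ^ 2) * h3
  have h5 : c ^ 2 < 1 := by nlinarith [sq_nonneg (F1 f * sin s - F2 f * cos s)]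
  have h6 : c < 1 := by nlinarith
  have h7 : (F1 f * sin s - F2 f * cos s) ^ 2 ≥ 0 := sq_nonneg _
  nlinarith

end

theorem V0_neg (f : ℝ → ℝ) : V0 (fun t => -f t) = V0 f := by
  unfold V0
  simp only [cos_neg]

theorem V1_neg (f : ℝ → ℝ) : V1 (fun t => -f t) = -V1 f := by
  unfold V1
  rw [← intervalIntegral.integral_neg]
  simp only [RR_neg, mul_neg]

theorem V2_neg (f : ℝ → ℝ) : V2 (fun t => -f t) = -V2 f := by
  unfold V2
  rw [← intervalIntegral.integral_neg]
  simp only [RR_neg, mul_neg]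

theorem F1_neg (f : ℝ → ℝ) : F1 (fun t => -f t) = -F1 f := by
  unfold F1
  rw [V0_neg, V1_neg, neg_div]

theorem F2_neg (f : ℝ → ℝ) : F2 (fun t => -f t) = -F2 f := by
  unfold F2
  rw [V0_neg, V2_neg, neg_div]

theorem zz_neg (f : ℝ → ℝ) : zz (fun t => -f t) = zz f := by
  unfold zz
  rw [F1_neg, F2_neg]
  ring

/-- the map is odd where the third coordinate is cut off -/
theorem GG_neg {τ η : ℝ} {f : ℝ → ℝ} (h : phi η (√(zz f)) = 0) (i : Fin 3) :
    GG τ η (fun t => -f t) i = -GG τ η f i := by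
  have hN : gN η (fun t => -f t) = gN η f := by
    unfold gN
    rw [F1_neg, F2_neg, zz_neg]
    congr 1
    ring
  fin_cases i
  · change F1 (fun t => -f t) / gN η (fun t => -f t) = -(F1 f / gN η f)
    rw [hN, F1_neg, neg_div]
  · change F2 (fun t => -f t) / gN η (fun t => -f t) = -(F2 f / gN η f)
    rw [hN, F2_neg, neg_div]
  · change τ * phi η (√(zz (fun t => -f t))) / gN η (fun t => -f t) = -(τ * phi η (√(zz f)) / gN η f)
    rw [hN, zz_neg, h]
    ring

end Pool.Agent.FPX.UMQ
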