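import Mathlib
import Pool.Agent.FPX.UMG
import Pool.Agent.FPX.DEG
import Pool.Agent.EWD.RUL
import Pool.Agent.EWD.WIN

/-
UMH (helper76): the area of the image of a map into a closed half sphere; the winding number of a
boundary curve that is close to the identity.
-/

open MeasureTheory Set Filter Topology
open scoped ENNReal NNReal

noncomputable section

namespace Pool.Agent.FPX.UMQ

open Pool.Agent.FPX Pool.Agent.EWD

open Real

variable {M : Type} [MetricSpace M] {γ : ℝ → M}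

private theorem jalg {X Y Z τ a1 a2 a3 b1 b2 b3 : ℝ} (hτ : τ ^ 2 = 1) (hD : 0 < 1 + τ * Z)
    (hu : X ^ 2 + Y ^ 2 + Z ^ 2 = 1) (ha : X * a1 + Y * a2 + Z * a3 = 0)
    (hb : X * b1 + Y * b2 + Z * b3 = 0) :
    ((a1 / (1 + τ * Z) - X * (τ * a3) / (1 + τ * Z) ^ 2) * b2
      - (b1 / (1 + τ * Z) - X * (τ * b3) / (1 + τ * Z) ^ 2) * a2)
    - ((a2 / (1 + τ * Z) - Y * (τ * a3) / (1 + τ * Z) ^ 2) * b1
      - (b2 / (1 + τ * Z) - Y * (τ * b3) / (1 + τ * Z) ^ 2) * a1)
    = -τ * (X * (b2 * a3 - b3 * a2) + Y * (b3 * a1 - b1 * a3) + Z * (b1 * a2 - b2 * a1)) := by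
  set J : ℝ := X * (b2 * a3 - b3 * a2) + Y * (b3 * a1 - b1 * a3) + Z * (b1 * a2 - b2 * a1) with hJ
  have c1 : b2 * a3 - b3 * a2 = J * X := by
    rw [hJ]
    linear_combination (-(b2 * a3 - b3 * a2)) * hu + (b2 * Z - b3 * Y) * ha - (a2 * Z - a3 * Y) * hb
  have c2 : b3 * a1 - b1 * a3 = J * Y := by
    rw [hJ]
    linear_combination (-(b3 * a1 - b1 * a3)) * hu + (b3 * X - b1 * Z) * ha - (a3 * X - a1 * Z) * hb
  have c3 : b1 * a2 - b2 * a1 = J * Z := by
    rw [hJ]
    linear_combination (-(b1 * a2 - b2 * a1)) * hu + (b1 * Y - b2 * X) * ha - (a1 * Y - a2 * X) * hb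
  have e : ((a1 / (1 + τ * Z) - X * (τ * a3) / (1 + τ * Z) ^ 2) * b2
      - (b1 / (1 + τ * Z) - X * (τ * b3) / (1 + τ * Z) ^ 2) * a2)
    - ((a2 / (1 + τ * Z) - Y * (τ * a3) / (1 + τ * Z) ^ 2) * b1
      - (b2 / (1 + τ * Z) - Y * (τ * b3) / (1 + τ * Z) ^ 2) * a1)
    = -(2 * (b1 * a2 - b2 * a1)) / (1 + τ * Z)
      - τ * (X * (b2 * a3 - b3 * a2) + Y * (b3 * a1 - b1 * a3)) / (1 + τ * Z) ^ 2 := by
    ring
  rw [e, c1, c2, c3]
  have h1 : X ^ 2 + Y ^ 2 = (1 - τ * Z) * (1 + τ * Z) := by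
    linear_combination hu + Z ^ 2 * hτ
  have e2 : τ * (X * (J * X) + Y * (J * Y)) = τ * J * ((1 - τ * Z) * (1 + τ * Z)) := by
    linear_combination τ * J * h1
  rw [e2]
  clear_value J
  clear c1 c2 c3 e e2 h1 ha hb hu
  have h0 := hD.ne'
  rw [div_sub_div _ _ h0 (pow_ne_zero 2 h0), div_eq_iff (mul_ne_zero h0 (pow_ne_zero 2 h0))]
  linear_combination (2 * J * Z * (1 + τ * Z) ^ 2) * hτ

private theorem wed_int [CompactSpace M] (C : Calc M γ) {u w : M → ℝ} (hu : Lip u) (hw : Lip w) :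
    Integrable (fun o => C.gx u o * C.gy w o - C.gy u o * C.gx w o) C.μ := by
  obtain ⟨L, hL⟩ := hu
  obtain ⟨K, hK⟩ := hw
  have hu : Lip u := ⟨L, hL⟩
  have hw : Lip w := ⟨K, hK⟩
  refine Calc.integrable_of_bdd C (B := 2 * ((L : ℝ) * K)) ?_ ?_
  · exact ((Calc.meas_gx C hu).mul (Calc.meas_gy C hw)).sub
      ((Calc.meas_gy C hu).mul (Calc.meas_gx C hw))
  · filter_upwards [Calc.ae_grad_le C hL, Calc.ae_grad_le C hK] with o h1 h2
    have e1 : |C.gx u o| ≤ L := abs_le_of_sq_le_sq (by nlinarith [sq_nonneg (C.gy u o)]) L.2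
    have e2 : |C.gy u o| ≤ L := abs_le_of_sq_le_sq (by nlinarith [sq_nonneg (C.gx u o)]) L.2
    have e3 : |C.gx w o| ≤ K := abs_le_of_sq_le_sq (by nlinarith [sq_nonneg (C.gy w o)]) K.2
    have e4 : |C.gy w o| ≤ K := abs_le_of_sq_le_sq (by nlinarith [sq_nonneg (C.gx w o)]) K.2
    have f1 : |C.gx u o * C.gy w o| ≤ (L : ℝ) * K := by
      rw [abs_mul]
      exact mul_le_mul e1 e4 (abs_nonneg _) L.2
    have f2 : |C.gy u o * C.gx w o| ≤ (L : ℝ) * K := by
      rw [abs_mul]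
      exact mul_le_mul e2 e3 (abs_nonneg _) L.2
    calc |C.gx u o * C.gy w o - C.gy u o * C.gx w o|
        ≤ |C.gx u o * C.gy w o| + |C.gy u o * C.gx w o| := abs_sub _ _
      _ ≤ 2 * ((L : ℝ) * K) := by linarith

private theorem lipg (hγ : Bd γ) {u : M → ℝ} {K : ℝ≥0} (hu : LipschitzWith K u) :
    LipschitzWith K (fun t => u (γ t)) := by
  have := hu.comp hγ.lip
  rwa [mul_one] at this

private theorem bd_int (hγ : Bd γ) {u w : M → ℝ} (hu : Lip u) (hw : Lip w) (a b : ℝ) :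
    IntervalIntegrable (fun t => u (γ t) * deriv (fun s => w (γ s)) t) volume a b := by
  obtain ⟨K, hK⟩ := hw
  have h1 : IntervalIntegrable (deriv (fun s => w (γ s))) volume a b :=
    ((lipg hγ hK).lipschitzOnWith.absolutelyContinuousOnInterval).intervalIntegrable_deriv
  exact h1.continuousOn_mul (hu.cont.comp hγ.lip.continuous).continuousOn

/-- the area of the image of a map into a closed half sphere -/
theorem jac_half [CompactSpace M] (C : Calc M γ) (hγ : Bd γ) {F : Fin 3 → M → ℝ} (hF : Sph γ F) {τ : ℝ}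
    (hτ : τ ^ 2 = 1) (hpos : ∀ x, 0 ≤ τ * F 2 x) (hb : ∀ t, F 2 (γ t) = 0) :
    ∫ o, jac C F o ∂C.μ = -τ * C.sg * ∫ t in (0 : ℝ)..(2 * π), kap γ (F 0) (F 1) t := by
  have hD : Lip fun x => 1 + τ * F 2 x := (lip_const 1).add ((hF.lip 2).const_mul τ)
  have hD1 : ∀ x, (1 : ℝ) ≤ 1 + τ * F 2 x := fun x => by linarith [hpos x]
  have hA : Lip fun x => F 0 x / (1 + τ * F 2 x) := (hF.lip 0).div hD one_pos hD1
  have hB : Lip fun x => F 1 x / (1 + τ * F 2 x) := (hF.lip 1).div hD one_pos hD1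
  have s1 : ∫ o, (C.gx (fun x => F 0 x / (1 + τ * F 2 x)) o * C.gy (F 1) o
        - C.gy (fun x => F 0 x / (1 + τ * F 2 x)) o * C.gx (F 1) o) ∂C.μ =
      C.sg * ∫ t in (0 : ℝ)..(2 * π),
        F 0 (γ t) / (1 + τ * F 2 (γ t)) * deriv (fun s => F 1 (γ s)) t :=
    C.stokes _ _ hA (hF.lip 1)
  have s2 : ∫ o, (C.gx (fun x => F 1 x / (1 + τ * F 2 x)) o * C.gy (F 0) o
        - C.gy (fun x => F 1 x / (1 + τ * F 2 x)) o * C.gx (F 0) o) ∂C.μ =
      C.sg * ∫ t in (0 : ℝ)..(2 * π),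
        F 1 (γ t) / (1 + τ * F 2 (γ t)) * deriv (fun s => F 0 (γ s)) t :=
    C.stokes _ _ hB (hF.lip 0)
  have i1 := wed_int C hA (hF.lip 1)
  have i2 := wed_int C hB (hF.lip 0)
  have hpt : ∀ᵐ o ∂C.μ,
      (C.gx (fun x => F 0 x / (1 + τ * F 2 x)) o * C.gy (F 1) o
        - C.gy (fun x => F 0 x / (1 + τ * F 2 x)) o * C.gx (F 1) o)
      - (C.gx (fun x => F 1 x / (1 + τ * F 2 x)) o * C.gy (F 0) o
        - C.gy (fun x => F 1 x / (1 + τ * F 2 x)) o * C.gx (F 0) o) = -τ * jac C F o := by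
    filter_upwards [C.ae_has (hF.lip 0), C.ae_has (hF.lip 1), C.ae_has (hF.lip 2), ae_perp C hF]
      with o h0 h1 h2 hp
    have hu : F 0 (C.pt o) ^ 2 + F 1 (C.pt o) ^ 2 + F 2 (C.pt o) ^ 2 = 1 := by
      have := hF.unit (C.pt o)
      rwa [Fin.sum_univ_three] at this
    have ha : F 0 (C.pt o) * C.gx (F 0) o + F 1 (C.pt o) * C.gx (F 1) o
        + F 2 (C.pt o) * C.gx (F 2) o = 0 := by
      have := hp.1
      rwa [inner3] at this
    have hb : F 0 (C.pt o) * C.gy (F 0) o + F 1 (C.pt o) * C.gy (F 1) o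
        + F 2 (C.pt o) * C.gy (F 2) o = 0 := by
      have := hp.2
      rwa [inner3] at this
    have hDp : 0 < 1 + τ * F 2 (C.pt o) := lt_of_lt_of_le one_pos (hD1 _)
    have gA : ∀ (i : Fin 3), (HasDerivAt (fun s => F i (C.px o s)) (C.gx (F i) o) 0 ∧
        HasDerivAt (fun s => F i (C.py o s)) (C.gy (F i) o) 0) →
        C.gx (fun x => F i x / (1 + τ * F 2 x)) o = C.gx (F i) o / (1 + τ * F 2 (C.pt o))
          - F i (C.pt o) * (τ * C.gx (F 2) o) / (1 + τ * F 2 (C.pt o)) ^ 2 ∧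
        C.gy (fun x => F i x / (1 + τ * F 2 x)) o = C.gy (F i) o / (1 + τ * F 2 (C.pt o))
          - F i (C.pt o) * (τ * C.gy (F 2) o) / (1 + τ * F 2 (C.pt o)) ^ 2 := by
      intro i hi
      constructor
      · have h3 : HasDerivAt (fun s => F i (C.px o s) / (1 + τ * F 2 (C.px o s)))
            ((C.gx (F i) o * (1 + τ * F 2 (C.px o 0)) - F i (C.px o 0) * (τ * C.gx (F 2) o)) /
              (1 + τ * F 2 (C.px o 0)) ^ 2) 0 :=
          hi.1.div ((h2.1.const_mul τ).const_add 1) hDp.ne'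
        have h4 : C.gx (fun x => F i x / (1 + τ * F 2 x)) o = _ := h3.deriv
        rw [h4]
        change (C.gx (F i) o * (1 + τ * F 2 (C.pt o)) - F i (C.pt o) * (τ * C.gx (F 2) o)) /
              (1 + τ * F 2 (C.pt o)) ^ 2 = _
        field_simp
      · have h3 : HasDerivAt (fun s => F i (C.py o s) / (1 + τ * F 2 (C.py o s)))
            ((C.gy (F i) o * (1 + τ * F 2 (C.py o 0)) - F i (C.py o 0) * (τ * C.gy (F 2) o)) /
              (1 + τ * F 2 (C.py o 0)) ^ 2) 0 :=
          hi.2.div ((h2.2.const_mul τ).const_add 1) (by rw [C.py_zero]; exact hDp.ne')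
        have h4 : C.gy (fun x => F i x / (1 + τ * F 2 x)) o = _ := h3.deriv
        rw [h4, C.py_zero]
        field_simp
    rw [(gA 0 h0).1, (gA 0 h0).2, (gA 1 h1).1, (gA 1 h1).2]
    have key := jalg hτ hDp hu ha hb
    rw [key]
    unfold jac
    rw [inner3]
    simp only [crs0, crs1, crs2]
    rfl
  have hsub := integral_sub i1 i2
  rw [integral_congr_ae hpt, s1, s2, integral_const_mul] at hsub
  have hbd : (∫ t in (0 : ℝ)..(2 * π), kap γ (F 0) (F 1) t) =
      (∫ t in (0 : ℝ)..(2 * π), F 0 (γ t) / (1 + τ * F 2 (γ t)) * deriv (fun s => F 1 (γ s)) t)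
      - ∫ t in (0 : ℝ)..(2 * π), F 1 (γ t) / (1 + τ * F 2 (γ t)) * deriv (fun s => F 0 (γ s)) t := by
    rw [← intervalIntegral.integral_sub (bd_int hγ hA (hF.lip 1) _ _) (bd_int hγ hB (hF.lip 0) _ _)]
    refine intervalIntegral.integral_congr fun t _ => ?_
    have h1 : F 0 (γ t) ^ 2 + F 1 (γ t) ^ 2 = 1 := by
      have := hF.unit (γ t)
      rw [Fin.sum_univ_three, hb t] at this
      linarith
    simp only [kap]
    rw [h1, hb t]
    ring
  have h5 : -τ * ∫ o, jac C F o ∂C.μ = C.sg * ∫ t in (0 : ℝ)..(2 * π), kap γ (F 0) (F 1) t := by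
    rw [hsub, hbd]
    ring
  have h6 : ∫ o, jac C F o ∂C.μ = -τ * (-τ * ∫ o, jac C F o ∂C.μ) := by
    linear_combination (-(∫ o, jac C F o ∂C.μ)) * hτ
  rw [h6, h5]
  ring

/-- the winding number of a boundary curve that is close to the identity -/
theorem wind_one (hγ : Bd γ) {X Y : M → ℝ} {L : ℝ≥0} (hX : LipschitzWith L X) (hY : LipschitzWith L Y)
    (oX : OddB γ X) (oY : OddB γ Y) (hu : ∀ t, X (γ t) ^ 2 + Y (γ t) ^ 2 = 1) {κ : ℝ}
    (hc : ∀ t, 1 - κ ≤ X (γ t) * cos t + Y (γ t) * sin t) (hκ : κ * (2 * L + 2) < 1) :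
    ∫ t in (0 : ℝ)..(2 * π), kap γ X Y t = 2 * π := by
  obtain ⟨k, hk⟩ := wind hγ ⟨L, hX⟩ ⟨L, hY⟩ oX oY (fun t => by rw [hu t]; exact one_pos)
  have lX := lipg hγ hX
  have lY := lipg hγ hY
  set P : ℝ → ℝ := fun t => X (γ t) with hP
  set Q : ℝ → ℝ := fun t => Y (γ t) with hQ
  have bP : ∀ t, |P t| ≤ 1 := fun t => abs_le_one_iff_mul_self_le_one.2 (by
    have := hu t
    nlinarith [sq_nonneg (Q t)])
  have bQ : ∀ t, |Q t| ≤ 1 := fun t => abs_le_one_iff_mul_self_le_one.2 (by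
    have := hu t
    nlinarith [sq_nonneg (P t)])
  have acP : AbsolutelyContinuousOnInterval P 0 (2 * π) := lX.lipschitzOnWith.absolutelyContinuousOnInterval
  have acQ : AbsolutelyContinuousOnInterval Q 0 (2 * π) := lY.lipschitzOnWith.absolutelyContinuousOnInterval
  have accos : AbsolutelyContinuousOnInterval cos 0 (2 * π) :=
    lipschitzWith_cos.lipschitzOnWith.absolutelyContinuousOnInterval
  have acsin : AbsolutelyContinuousOnInterval sin 0 (2 * π) :=
    lipschitzWith_sin.lipschitzOnWith.absolutelyContinuousOnInterval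
  set c : ℝ → ℝ := fun t => P t * cos t + Q t * sin t with hcdef
  set d : ℝ → ℝ := fun t => Q t * cos t - P t * sin t with hddef
  have acc : AbsolutelyContinuousOnInterval c 0 (2 * π) := (acP.mul accos).add (acQ.mul acsin)
  have acd : AbsolutelyContinuousOnInterval d 0 (2 * π) := (acQ.mul accos).sub (acP.mul acsin)
  have hper : ∀ {Z : M → ℝ}, Z (γ (2 * π)) = Z (γ 0) := by
    intro Z
    have := hγ.per 0
    rw [zero_add] at this
    rw [this]
  have pc : c (2 * π) = c 0 := by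
    simp only [hcdef, hP, hQ]
    rw [hper (Z := X), hper (Z := Y), cos_two_pi, sin_two_pi, cos_zero, sin_zero]
  have pd : d (2 * π) = d 0 := by
    simp only [hddef, hP, hQ]
    rw [hper (Z := X), hper (Z := Y), cos_two_pi, sin_two_pi, cos_zero, sin_zero]
  -- the integrand
  have hae : ∀ᵐ t : ℝ, kap γ X Y t = 1 + (c t * deriv d t - deriv c t * d t) := by
    filter_upwards [lX.ae_differentiableAt_real, lY.ae_differentiableAt_real] with t h1 h2
    have e1 := h1.hasDerivAt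
    have e2 := h2.hasDerivAt
    have f1 : HasDerivAt c (deriv P t * cos t + P t * (-sin t) + (deriv Q t * sin t + Q t * cos t)) t :=
      (e1.mul (hasDerivAt_cos t)).add (e2.mul (hasDerivAt_sin t))
    have f2 : HasDerivAt d (deriv Q t * cos t + Q t * (-sin t) - (deriv P t * sin t + P t * cos t)) t :=
      (e2.mul (hasDerivAt_cos t)).sub (e1.mul (hasDerivAt_sin t))
    rw [f1.deriv, f2.deriv]
    have h3 : P t ^ 2 + Q t ^ 2 = 1 := hu t
    have h4 := sin_sq_add_cos_sq t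
    have e : kap γ X Y t = P t * deriv Q t - Q t * deriv P t := by
      change (P t * deriv Q t - Q t * deriv P t) / (P t ^ 2 + Q t ^ 2) = _
      rw [h3, div_one]
    rw [e]
    simp only [hcdef, hddef]
    linear_combination (-(1 : ℝ) * (P t * deriv Q t - Q t * deriv P t) + (P t ^ 2 + Q t ^ 2)) * h4 + h3
  have id : IntervalIntegrable (deriv d) volume 0 (2 * π) := acd.intervalIntegrable_deriv
  have ic : IntervalIntegrable (deriv c) volume 0 (2 * π) := acc.intervalIntegrable_deriv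
  have icd : IntervalIntegrable (fun t => c t * deriv d t) volume 0 (2 * π) :=
    id.continuousOn_mul acc.continuousOn
  have idc : IntervalIntegrable (fun t => deriv c t * d t) volume 0 (2 * π) :=
    ic.mul_continuousOn acd.continuousOn
  have key := acc.integral_mul_deriv_eq_deriv_mul acd
  rw [pc, pd, sub_self, zero_sub] at key
  have hd0 : ∫ t in (0 : ℝ)..(2 * π), deriv d t = 0 := by
    rw [acd.integral_deriv_eq_sub, pd, sub_self]
  have h1 : ∫ t in (0 : ℝ)..(2 * π), kap γ X Y t = 2 * π + 2 * ∫ t in (0 : ℝ)..(2 * π), (c t - 1) * deriv d t := by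
    have e1 : ∫ t in (0 : ℝ)..(2 * π), kap γ X Y t =
        ∫ t in (0 : ℝ)..(2 * π), (1 + (c t * deriv d t - deriv c t * d t)) :=
      intervalIntegral.integral_congr_ae (hae.mono fun t ht _ => ht)
    have e2 : ∫ t in (0 : ℝ)..(2 * π), (c t - 1) * deriv d t =
        (∫ t in (0 : ℝ)..(2 * π), c t * deriv d t) - ∫ t in (0 : ℝ)..(2 * π), deriv d t := by
      rw [← intervalIntegral.integral_sub icd id]
      refine intervalIntegral.integral_congr fun t _ => ?_
      ring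
    rw [e1, intervalIntegral.integral_add intervalIntegrable_const (icd.sub idc),
      intervalIntegral.integral_sub icd idc, e2, hd0, intervalIntegral.integral_const]
    simp only [sub_zero, smul_eq_mul, mul_one]
    rw [key]
    ring
  -- the bound
  have hc1 : ∀ t, c t ≤ 1 := by
    intro t
    have h3 : P t ^ 2 + Q t ^ 2 = 1 := hu t
    simp only [hcdef]
    nlinarith [sq_nonneg (P t - cos t), sq_nonneg (Q t - sin t), sin_sq_add_cos_sq t]
  have hκ0 : 0 ≤ κ := by
    have h2 := hc 0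
    have h3 := hc1 0
    simp only [hcdef, hP, hQ] at h3
    linarith
  have ld : LipschitzWith (2 * L + 2) d := by
    refine LipschitzWith.of_dist_le_mul fun s t => ?_
    rw [Real.dist_eq, Real.dist_eq]
    have a1 := lX.dist_le_mul s t
    have a2 := lY.dist_le_mul s t
    have a3 := lipschitzWith_cos.dist_le_mul s t
    have a4 := lipschitzWith_sin.dist_le_mul s t
    rw [Real.dist_eq, Real.dist_eq] at a1 a2 a3 a4
    rw [NNReal.coe_one, one_mul] at a3 a4
    have e : d s - d t = (Q s - Q t) * cos s + Q t * (cos s - cos t) - (P s - P t) * sin s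
        - P t * (sin s - sin t) := by
      simp only [hddef]
      ring
    have b1 : |(Q s - Q t) * cos s| ≤ L * |s - t| := by
      rw [abs_mul]
      calc _ ≤ |Q s - Q t| * 1 := mul_le_mul_of_nonneg_left (abs_cos_le_one s) (abs_nonneg _)
        _ ≤ _ := by rw [mul_one]; exact a2
    have b2 : |(P s - P t) * sin s| ≤ L * |s - t| := by
      rw [abs_mul]
      calc _ ≤ |P s - P t| * 1 := mul_le_mul_of_nonneg_left (abs_sin_le_one s) (abs_nonneg _)
        _ ≤ _ := by rw [mul_one]; exact a1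
    have b3 : |Q t * (cos s - cos t)| ≤ |s - t| := by
      rw [abs_mul]
      calc _ ≤ 1 * |cos s - cos t| := mul_le_mul_of_nonneg_right (bQ t) (abs_nonneg _)
        _ ≤ _ := by rw [one_mul]; exact a3
    have b4 : |P t * (sin s - sin t)| ≤ |s - t| := by
      rw [abs_mul]
      calc _ ≤ 1 * |sin s - sin t| := mul_le_mul_of_nonneg_right (bP t) (abs_nonneg _)
        _ ≤ _ := by rw [one_mul]; exact a4
    rw [e]
    push_cast
    have t1 := abs_sub ((Q s - Q t) * cos s + Q t * (cos s - cos t) - (P s - P t) * sin s)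
      (P t * (sin s - sin t))
    have t2 := abs_sub ((Q s - Q t) * cos s + Q t * (cos s - cos t)) ((P s - P t) * sin s)
    have t3 := abs_add_le ((Q s - Q t) * cos s) (Q t * (cos s - cos t))
    linarith
  have hbound : |∫ t in (0 : ℝ)..(2 * π), (c t - 1) * deriv d t| ≤ κ * (2 * L + 2) * (2 * π) := by
    have := intervalIntegral.norm_integral_le_of_norm_le_const (a := 0) (b := 2 * π)
      (f := fun t => (c t - 1) * deriv d t) (C := κ * (2 * L + 2)) (fun t _ => by
        rw [norm_mul]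
        have n1 : ‖deriv d t‖ ≤ ((2 * L + 2 : ℝ≥0) : ℝ) := norm_deriv_le_of_lipschitz ld
        push_cast at n1
        refine mul_le_mul ?_ n1 (norm_nonneg _) hκ0
        rw [Real.norm_eq_abs, abs_sub_comm, abs_of_nonneg (sub_nonneg.2 (hc1 t))]
        have := hc t
        change 1 - κ ≤ c t at this
        linarith)
    rw [sub_zero, abs_of_pos two_pi_pos, Real.norm_eq_abs] at this
    exact this
  have hlt : |∫ t in (0 : ℝ)..(2 * π), (c t - 1) * deriv d t| < 2 * π := by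
    refine lt_of_le_of_lt hbound ?_
    nlinarith [two_pi_pos]
  rw [hk] at h1
  have h2 : 2 * π * (k : ℝ) = ∫ t in (0 : ℝ)..(2 * π), (c t - 1) * deriv d t := by linarith
  rw [← h2, abs_mul, abs_of_pos two_pi_pos] at hlt
  have h3 : |(k : ℝ)| < 1 := by
    by_contra hcon
    push Not at hcon
    nlinarith [two_pi_pos]
  have h4 : k = 0 := by
    have : |k| < 1 := by exact_mod_cast h3
    exact Int.abs_lt_one_iff.1 this
  rw [hk, h4]
  simp

end Pool.Agent.FPX.UMQ
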