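import Mathlib
import Pool.Agent.FPX.UMH

/-
UMP2 (helper76): the universal map of the surface. From the inequality `UStar c` one gets an odd
Lipschitz map `F` of the surface into the sphere with `(|F_x|² + |F_y|²)/2 + |J_F| ≤ 2 (1 + c) + ε`
almost everywhere and `∫ J_F = 2π`.
-/

open MeasureTheory Set Filter Topology
open scoped ENNReal NNReal

noncomputable section

namespace Pool.Agent.FPX.UMQ

open Pool.Agent.FPX Pool.Agent.FPX.UMP Pool.Agent.EWD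

open Real

variable {M : Type} [MetricSpace M] {γ : ℝ → M}

/-- the map -/
def FM (γ : ℝ → M) (τ η ρ : ℝ) (n : ℕ) (k : Fin 3) (x : M) : ℝ := GG τ η (pf γ ρ n x) k

/-- the conditions on the parameters -/
structure Par (L τ η ρ : ℝ) (n : ℕ) (δ : ℝ) : Prop where
  tau : τ ^ 2 = 1
  eta : 0 < η
  eta1 : η < 1 / 4
  rho : 0 ≤ ρ
  rho1 : ρ < 1
  nn : 2 ≤ n
  del : 0 < δ
  del1 : δ ≤ π / 4
  del2 : (1 - ρ) * (π / 2) + 2 * (π / n) ≤ δ
  del3 : 48 * π * δ ≤ η ^ 2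
  del4 : 24 * π * δ * (2 * L + 2) < 1

section
variable {L τ η ρ δ c : ℝ} {n : ℕ}

theorem Par.ef (P : Par L τ η ρ n δ) (hγ : Bd γ) (x : M) : Ef (pf γ ρ n x) :=
  pf_ef hγ P.rho P.rho1 (by have := P.nn; omega) x

theorem Par.m0 (P : Par L τ η ρ n δ) : 0 ≤ ρ * (π / 2) :=
  mul_nonneg P.rho (by positivity)

theorem Par.m1 (P : Par L τ η ρ n δ) : ρ * (π / 2) < π / 2 := by
  have := P.rho1
  nlinarith [pi_pos]

theorem FM_lip (P : Par L τ η ρ n δ) (hγ : Bd γ) (hc : 0 ≤ 1 + c) (hU : UStar c) (k : Fin 3) :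
    LipschitzWith (toNNReal (2 * √((1 + c) / (1 - 4 * η)))) (FM γ τ η ρ n k) := by
  refine LipschitzWith.of_dist_le_mul fun x y => ?_
  rw [Real.dist_eq, Real.coe_toNNReal _ (by positivity)]
  exact GG_lip hc hU (P.ef hγ x) (P.ef hγ y) P.m0 P.m1 (pf_bd hγ P.rho x) (pf_bd hγ P.rho y)
    dist_nonneg (pf_sub P.rho P.rho1.le x y) P.tau P.eta P.eta1 k

theorem FM_unit (P : Par L τ η ρ n δ) (hγ : Bd γ) (x : M) : ∑ i, FM γ τ η ρ n i x ^ 2 = 1 :=
  GG_unit (P.ef hγ x) P.tau P.eta P.eta1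

theorem FM_up (P : Par L τ η ρ n δ) (hγ : Bd γ) (s t : ℝ) (h : |t - s| ≤ π / 2) :
    pf γ ρ n (γ s) t ≤ π / 2 - |t - s| := pf_upper hγ P.rho P.rho1.le P.nn h

theorem FM_lo (P : Par L τ η ρ n δ) (hγ : Bd γ) (s t : ℝ) (h : |t - s| ≤ π / 2) :
    π / 2 - |t - s| - δ ≤ pf γ ρ n (γ s) t := by
  have h1 := pf_lower hγ P.rho P.rho1.le (n := n) (by have := P.nn; omega) h
  have := P.del2
  linarith

theorem FM_phi (P : Par L τ η ρ n δ) (hγ : Bd γ) (s : ℝ) :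
    phi η (√(zz (pf γ ρ n (γ s)))) = 0 := by
  refine phi_zero P.eta ?_
  have h1 := zz_le (P.ef hγ (γ s)) P.del P.del1 (FM_up P hγ s) (FM_lo P hγ s)
  rw [← sqrt_sq P.eta.le]
  exact sqrt_le_sqrt (h1.trans P.del3)

theorem FM_odd (P : Par L τ η ρ n δ) (hγ : Bd γ) (i : Fin 3) : OddB γ (FM γ τ η ρ n i) := by
  intro s
  unfold FM
  rw [pf_anti hγ]
  exact GG_neg (FM_phi P hγ s) i

theorem FM_sph (P : Par L τ η ρ n δ) (hγ : Bd γ) (hc : 0 ≤ 1 + c) (hU : UStar c) :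
    Sph γ (FM γ τ η ρ n) :=
  ⟨fun k => ⟨_, FM_lip P hγ hc hU k⟩, FM_unit P hγ, FM_odd P hγ⟩

/-- the third coordinate vanishes on the boundary -/
theorem FM_two (P : Par L τ η ρ n δ) (hγ : Bd γ) (s : ℝ) : FM γ τ η ρ n 2 (γ s) = 0 := by
  change τ * phi η (√(zz (pf γ ρ n (γ s)))) / gN η (pf γ ρ n (γ s)) = 0
  rw [FM_phi P hγ s, mul_zero, zero_div]

theorem FM_pos (P : Par L τ η ρ n δ) (hγ : Bd γ) (x : M) : 0 ≤ τ * FM γ τ η ρ n 2 x := by
  change 0 ≤ τ * (τ * phi η (√(zz (pf γ ρ n x))) / gN η (pf γ ρ n x))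
  have h1 := gN_pos (P.ef hγ x) P.eta P.eta1
  have h2 := phi_nonneg (η := η) (sqrt_nonneg (zz (pf γ ρ n x)))
  have e : τ * (τ * phi η (√(zz (pf γ ρ n x))) / gN η (pf γ ρ n x)) =
      τ ^ 2 * (phi η (√(zz (pf γ ρ n x))) / gN η (pf γ ρ n x)) := by ring
  rw [e, P.tau, one_mul]
  positivity

/-- the boundary values are close to the identity -/
theorem FM_hor (P : Par L τ η ρ n δ) (hγ : Bd γ) (s : ℝ) :
    1 - 24 * π * δ ≤ FM γ τ η ρ n 0 (γ s) * cos s + FM γ τ η ρ n 1 (γ s) * sin s := by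
  have hf := P.ef hγ (γ s)
  have h1 := hor_ge hf P.del P.del1 (FM_up P hγ s) (FM_lo P hγ s)
  have hN := gN_pos hf P.eta P.eta1
  have hN1 : gN η (pf γ ρ n (γ s)) ≤ 1 := by
    unfold gN
    rw [FM_phi P hγ s, sqrt_le_one]
    have h2 := hf.zz_pos
    unfold zz at h2
    linarith
  have h3 : 0 ≤ 1 - 24 * π * δ := by
    have h4 := P.del3
    have h5 := P.eta1
    have h6 := P.eta
    nlinarith
  have e : FM γ τ η ρ n 0 (γ s) * cos s + FM γ τ η ρ n 1 (γ s) * sin s =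
      (F1 (pf γ ρ n (γ s)) * cos s + F2 (pf γ ρ n (γ s)) * sin s) / gN η (pf γ ρ n (γ s)) := by
    change F1 (pf γ ρ n (γ s)) / gN η (pf γ ρ n (γ s)) * cos s
      + F2 (pf γ ρ n (γ s)) / gN η (pf γ ρ n (γ s)) * sin s = _
    ring
  rw [e, le_div_iff₀ hN]
  calc (1 - 24 * π * δ) * gN η (pf γ ρ n (γ s)) ≤ (1 - 24 * π * δ) * 1 :=
        mul_le_mul_of_nonneg_left hN1 h3
    _ ≤ _ := by linarith

/-- the curve of functions along a curve of points -/
theorem FM_crv (P : Par L τ η ρ n δ) (hγ : Bd γ) {p : ℝ → M} {g : ℝ → ℝ}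
    (hd : ∀ k : ℤ, HasDerivAt (fun s => fx γ (p s) (k * (π / n))) (g (k * (π / n))) 0) :
    Crv (fun s => pf γ ρ n (p s)) (pli (π / n) (fun t => ρ * g t)) 0 := by
  have hn : (0 : ℝ) < n := by
    have := P.nn
    positivity
  have hdn : 0 < π / (n : ℝ) := div_pos pi_pos hn
  have hd' : ∀ k : ℤ, HasDerivAt (fun s => (fun s t => ρ * fx γ (p s) t) s (k * (π / n)))
      ((fun t => ρ * g t) (k * (π / n))) 0 := fun k => (hd k).const_mul ρ
  refine ⟨fun s => (P.ef hγ (p s)).cont.measurable, pli_meas _ _, fun t => ?_, ?_, ?_, P.ef hγ _⟩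
  · exact pli_deriv (f := fun s t => ρ * fx γ (p s) t) (h := fun t => ρ * g t) hd' t
  · exact pli_local hdn (f := fun s t => ρ * fx γ (p s) t) (h := fun t => ρ * g t) hd' _ _
  · exact ⟨ρ * (π / 2), P.m0, P.m1, Eventually.of_forall fun s => pf_bd hγ P.rho (p s)⟩

/-- the derivative of the map is the derivative of the universal map along two variations `h`, `k`
with `h² + k² ≤ 1` -/
theorem FM_ae (C : Calc M γ) (P : Par L τ η ρ n δ) (hγ : Bd γ) : ∀ᵐ o ∂C.μ,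
    ∃ h k : ℝ → ℝ, Measurable h ∧ Measurable k ∧ (∀ t, h t ^ 2 + k t ^ 2 ≤ 1) ∧
      (∀ i, C.gx (FM γ τ η ρ n i) o = dG τ η (pf γ ρ n (C.pt o)) h i) ∧
      (∀ i, C.gy (FM γ τ η ρ n i) o = dG τ η (pf γ ρ n (C.pt o)) k i) := by
  have h1 : ∀ᵐ o ∂C.μ, ∀ k : ℤ,
      HasDerivAt (fun s => fx γ (C.px o s) (k * (π / n))) (C.gx (fun x => fx γ x (k * (π / n))) o) 0 ∧
      HasDerivAt (fun s => fx γ (C.py o s) (k * (π / n))) (C.gy (fun x => fx γ x (k * (π / n))) o) 0 :=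
    ae_all_iff.2 fun k => C.ae_has ⟨1, fx_lipx γ _⟩
  have h2 : ∀ᵐ o ∂C.μ, ∀ k : ℤ, C.gx (fun x => fx γ x (k * (π / n))) o ^ 2
      + C.gy (fun x => fx γ x (k * (π / n))) o ^ 2 ≤ 1 :=
    ae_all_iff.2 fun k => by
      have := C.ae_grad_le (fx_lipx γ (k * (π / n)))
      simpa using this
  filter_upwards [h1, h2] with o h1 h2
  have c1 := FM_crv P hγ (p := C.px o) (g := fun t => C.gx (fun x => fx γ x t) o) fun k => (h1 k).1
  have c2 := FM_crv P hγ (p := C.py o) (g := fun t => C.gy (fun x => fx γ x t) o) fun k => (h1 k).2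
  set h := pli (π / n) (fun t => ρ * C.gx (fun x => fx γ x t) o) with hh
  set k := pli (π / n) (fun t => ρ * C.gy (fun x => fx γ x t) o) with hk
  have hρ2 : ρ ^ 2 ≤ 1 := pow_le_one₀ P.rho P.rho1.le
  have hq : ∀ t, h t ^ 2 + k t ^ 2 ≤ 1 := by
    intro t
    refine pli_sq _ _ t fun j => ?_
    have h3 := h2 j
    have e : (ρ * C.gx (fun x => fx γ x (j * (π / n))) o) ^ 2
        + (ρ * C.gy (fun x => fx γ x (j * (π / n))) o) ^ 2 =
        ρ ^ 2 * (C.gx (fun x => fx γ x (j * (π / n))) o ^ 2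
          + C.gy (fun x => fx γ x (j * (π / n))) o ^ 2) := by ring
    rw [e]
    have h4 : 0 ≤ C.gx (fun x => fx γ x (j * (π / n))) o ^ 2
        + C.gy (fun x => fx γ x (j * (π / n))) o ^ 2 := by positivity
    nlinarith [sq_nonneg ρ]
  have hb : ∀ t, |h t| ≤ 1 := fun t =>
    abs_le_one_iff_mul_self_le_one.2 (by nlinarith [hq t, sq_nonneg (k t)])
  have kb : ∀ t, |k t| ≤ 1 := fun t =>
    abs_le_one_iff_mul_self_le_one.2 (by nlinarith [hq t, sq_nonneg (h t)])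
  refine ⟨h, k, pli_meas _ _, pli_meas _ _, hq, fun i => ?_, fun i => ?_⟩
  · exact (GG_deriv c1 hb P.tau P.eta P.eta1 i).deriv
  · have h5 := (GG_deriv c2 kb P.tau P.eta P.eta1 i).deriv
    rw [C.py_zero] at h5
    exact h5

/-- the area of the image -/
theorem FM_jac [CompactSpace M] (C : Calc M γ) (P : Par L τ η ρ n δ) (hγ : Bd γ) (hc : 0 ≤ 1 + c)
    (hU : UStar c) (hL : 2 * √((1 + c) / (1 - 4 * η)) ≤ L) (hτ : τ = -C.sg) :
    ∫ o, jac C (FM γ τ η ρ n) o ∂C.μ = 2 * π := by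
  have hS := FM_sph P hγ hc hU
  have hL0 : 0 ≤ L := (by positivity : (0 : ℝ) ≤ 2 * √((1 + c) / (1 - 4 * η))).trans hL
  have hsg : C.sg ^ 2 = 1 := by
    have := P.tau
    rw [hτ, neg_sq] at this
    exact this
  rw [jac_half C hγ hS P.tau (FM_pos P hγ) (FM_two P hγ)]
  have hlip : ∀ k, LipschitzWith (toNNReal L) (FM γ τ η ρ n k) := fun k =>
    (FM_lip P hγ hc hU k).weaken (toNNReal_le_toNNReal hL)
  rw [wind_one hγ (hlip 0) (hlip 1) (hS.odd 0) (hS.odd 1) (fun t => by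
      have h1 := hS.unit (γ t)
      rw [Fin.sum_univ_three, FM_two P hγ t] at h1
      linarith) (FM_hor P hγ) (by
      rw [Real.coe_toNNReal _ hL0]
      exact P.del4)]
  rw [hτ]
  linear_combination (2 * π) * hsg

/-- the energy bound -/
theorem FM_energy (C : Calc M γ) (P : Par L τ η ρ n δ) (hγ : Bd γ) (hc : 0 ≤ 1 + c)
    (hU : UStar c) : ∀ᵐ o ∂C.μ, (‖dx C (FM γ τ η ρ n) o‖ ^ 2 + ‖dy C (FM γ τ η ρ n) o‖ ^ 2) / 2
      + |jac C (FM γ τ η ρ n) o| ≤ 2 * (1 + c) / (1 - 4 * η) := by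
  filter_upwards [FM_ae C P hγ] with o ho
  obtain ⟨h, k, hm, km, hq, hx, hy⟩ := ho
  have hf := P.ef hγ (C.pt o)
  have key := dG_bound hf hc (hU _ hf) hm km hq P.tau P.eta P.eta1
  rw [normsq3, normsq3]
  unfold jac
  rw [inner3]
  simp only [crs0, crs1, crs2]
  have e0 : ∀ i, (dx C (FM γ τ η ρ n) o) i = dG τ η (pf γ ρ n (C.pt o)) h i := by
    intro i
    rw [← hx i]
    fin_cases i <;> rfl
  have e1 : ∀ i, (dy C (FM γ τ η ρ n) o) i = dG τ η (pf γ ρ n (C.pt o)) k i := by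
    intro i
    rw [← hy i]
    fin_cases i <;> rfl
  have e2 : ∀ i, (at' C (FM γ τ η ρ n) o) i = GG τ η (pf γ ρ n (C.pt o)) i := by
    intro i
    fin_cases i <;> rfl
  simp only [e0, e1, e2]
  linarith

end

/-- there are parameters -/
theorem exists_par {L η : ℝ} (hL : 0 ≤ L) (hη : 0 < η) (hη1 : η < 1 / 4) :
    ∃ (ρ : ℝ) (n : ℕ) (δ : ℝ), ∀ τ : ℝ, τ ^ 2 = 1 → Par L τ η ρ n δ := by
  have hpi := pi_pos
  have hpi4 := pi_lt_d2
  set δ : ℝ := min (min (π / 4) (η ^ 2 / (48 * π))) (1 / (24 * π * (2 * L + 2) + 1)) with hδ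
  have h0 : 0 < 24 * π * (2 * L + 2) + 1 := by positivity
  have d0 : 0 < δ := by
    rw [hδ]
    exact lt_min (lt_min (by positivity) (by positivity)) (by positivity)
  have d1 : δ ≤ π / 4 := (min_le_left _ _).trans (min_le_left _ _)
  have d2 : δ ≤ η ^ 2 / (48 * π) := (min_le_left _ _).trans (min_le_right _ _)
  have d3 : δ ≤ 1 / (24 * π * (2 * L + 2) + 1) := min_le_right _ _
  obtain ⟨n, hn⟩ := exists_nat_gt (4 * π / δ)
  have hn0 : (0 : ℝ) < n := lt_trans (by positivity) hn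
  have hn1 : 2 * (π / n) ≤ δ / 2 := by
    rw [div_lt_iff₀ d0] at hn
    rw [mul_div_assoc', div_le_iff₀ hn0]
    linarith
  refine ⟨1 - δ / π, n, δ, fun τ hτ => ⟨hτ, hη, hη1, ?_, ?_, ?_, d0, d1, ?_, ?_, ?_⟩⟩
  · rw [sub_nonneg, div_le_one hpi]
    linarith
  · have : 0 < δ / π := by positivity
    linarith
  · have h1 : (2 : ℝ) < n := by
      refine lt_of_le_of_lt ?_ hn
      rw [le_div_iff₀ d0]
      linarith
    have h2 : 2 < n := by exact_mod_cast h1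
    omega
  · have e : (1 - (1 - δ / π)) * (π / 2) = δ / 2 := by
      field_simp
      ring
    rw [e]
    linarith
  · rw [le_div_iff₀ (by positivity)] at d2
    linarith
  · rw [le_div_iff₀ h0] at d3
    nlinarith

/-- **the universal map**: there is an odd Lipschitz map of the surface into the sphere of degree one
(`∫ J = 2π` on one half of the double) whose energy density and area density satisfy
`e + |J| ≤ 2 (1 + c) + ε` -/
theorem umap [CompactSpace M] (C : Calc M γ) (hγ : Bd γ) {c : ℝ} (hc : 0 ≤ c) (hU : UStar c)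
    {ε : ℝ} (hε : 0 < ε) : ∃ F : Fin 3 → M → ℝ, Sph γ F ∧
      (∀ k, LipschitzWith (toNNReal (2 * √(1 + c) + ε)) (F k)) ∧
      (∀ᵐ o ∂C.μ, (‖dx C F o‖ ^ 2 + ‖dy C F o‖ ^ 2) / 2 + |jac C F o| ≤ 2 * (1 + c) + ε) ∧
      ∫ o, jac C F o ∂C.μ = 2 * π := by
  have hc1 : 0 ≤ 1 + c := by linarith
  have t1 : ∀ᶠ η in 𝓝[>] (0 : ℝ), 2 * (1 + c) / (1 - 4 * η) < 2 * (1 + c) + ε := by
    have hc2 : ContinuousAt (fun η : ℝ => 2 * (1 + c) / (1 - 4 * η)) 0 := by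
      refine ContinuousAt.div (by fun_prop) (by fun_prop) (by norm_num)
    refine (hc2.eventually_lt_const ?_).filter_mono nhdsWithin_le_nhds
    simp only [mul_zero, sub_zero, div_one]
    linarith
  have t2 : ∀ᶠ η in 𝓝[>] (0 : ℝ), 2 * √((1 + c) / (1 - 4 * η)) < 2 * √(1 + c) + ε := by
    have hc2 : ContinuousAt (fun η : ℝ => 2 * √((1 + c) / (1 - 4 * η))) 0 := by
      refine ContinuousAt.mul continuousAt_const (ContinuousAt.sqrt ?_)
      refine ContinuousAt.div (by fun_prop) (by fun_prop) (by norm_num)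
    refine (hc2.eventually_lt_const ?_).filter_mono nhdsWithin_le_nhds
    simp only [mul_zero, sub_zero, div_one]
    linarith
  have t3 : ∀ᶠ η in 𝓝[>] (0 : ℝ), η < 1 / 4 :=
    (eventually_lt_nhds (by norm_num : (0 : ℝ) < 1 / 4)).filter_mono nhdsWithin_le_nhds
  obtain ⟨η, h1, h2, h3, h4⟩ := (t1.and (t2.and (t3.and self_mem_nhdsWithin))).exists
  have hη : 0 < η := h4
  have hL0 : 0 ≤ 2 * √(1 + c) + ε := by positivity
  obtain ⟨ρ, n, δ, hP⟩ := exists_par hL0 hη h3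
  have hsg : (-C.sg) ^ 2 = 1 := by
    rcases C.pm with h | h <;> rw [h] <;> norm_num
  have P := hP (-C.sg) hsg
  refine ⟨FM γ (-C.sg) η ρ n, FM_sph P hγ hc1 hU, fun k => ?_, ?_, ?_⟩
  · exact (FM_lip P hγ hc1 hU k).weaken (toNNReal_le_toNNReal h2.le)
  · filter_upwards [FM_energy C P hγ hc1 hU] with o ho
    exact ho.trans h1.le
  · exact FM_jac C P hγ hc1 hU h2.le rfl

end Pool.Agent.FPX.UMQ
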