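import Pool.Agent.FPX.ALX

/-
ALI (helper44): increments of the states in the visual angle.
-/

open MeasureTheory Set Filter Topology Real
open scoped NNReal

noncomputable section

namespace Pool.Agent.FPX.ALX

variable {s : ℝ} {X : ℝ → ℝ}

/-- increments are integrals of the derivative -/
theorem St.ftc (h : St s X) (a b : ℝ) : ∫ t in a..b, deriv X t = X b - X a := by
  obtain ⟨K, hK⟩ := h.lip
  exact (hK.lipschitzOnWith (s := uIcc a b)).absolutelyContinuousOnInterval.integral_deriv_eq_sub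

theorem St.intd (h : St s X) (a b : ℝ) : IntervalIntegrable (deriv X) volume a b := by
  have := h.int1 (φ := fun _ => (1 : ℝ)) continuous_const a b
  simpa using this

/-- comparison with a function of larger derivative -/
theorem St.inc_le (h : St s X) {a b : ℝ} (hab : a ≤ b) {U u : ℝ → ℝ} (hU : ∀ x ∈ Icc a b, HasDerivAt U (u x) x)
    (hu : ContinuousOn u (Icc a b)) (hle : ∀ᵐ x, x ∈ Icc a b → deriv X x ≤ u x) : X b - X a ≤ U b - U a := by
  have e1 : ∫ x in a..b, u x = U b - U a := by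
    refine intervalIntegral.integral_eq_sub_of_hasDerivAt (fun x hx => hU x ?_) ?_
    · rwa [uIcc_of_le hab] at hx
    · rw [← uIcc_of_le hab] at hu
      exact hu.intervalIntegrable
  rw [← h.ftc a b, ← e1]
  refine intervalIntegral.integral_mono_ae_restrict hab (h.intd a b) ?_ ?_
  · rw [← uIcc_of_le hab] at hu
    exact hu.intervalIntegrable
  · have h2 : ∀ᵐ x ∂(volume.restrict (Icc a b)), deriv X x ≤ u x := by
      filter_upwards [ae_restrict_of_ae hle, ae_restrict_mem measurableSet_Icc] with x h1 h2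
      exact h1 h2
    exact h2

theorem St.inc_ge (h : St s X) {a b : ℝ} (hab : a ≤ b) {U u : ℝ → ℝ} (hU : ∀ x ∈ Icc a b, HasDerivAt U (u x) x)
    (hu : ContinuousOn u (Icc a b)) (hle : ∀ᵐ x, x ∈ Icc a b → -u x ≤ deriv X x) : -(U b - U a) ≤ X b - X a := by
  have e1 : ∫ x in a..b, u x = U b - U a := by
    refine intervalIntegral.integral_eq_sub_of_hasDerivAt (fun x hx => hU x ?_) ?_
    · rwa [uIcc_of_le hab] at hx
    · rw [← uIcc_of_le hab] at hu
      exact hu.intervalIntegrable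
  rw [← h.ftc a b, ← e1, ← intervalIntegral.integral_neg]
  refine intervalIntegral.integral_mono_ae_restrict hab ?_ (h.intd a b) ?_
  · rw [← uIcc_of_le hab] at hu
    exact hu.intervalIntegrable.neg
  · have h2 : ∀ᵐ x ∂(volume.restrict (Icc a b)), -u x ≤ deriv X x := by
      filter_upwards [ae_restrict_of_ae hle, ae_restrict_mem measurableSet_Icc] with x h1 h2
      exact h1 h2
    exact h2

/-! ### `s < 1` -/

/-- `∫ s / (1 - s sin)` and `∫ s / (1 + s sin)` in closed form -/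
def Up (s a : ℝ) : ℝ := s / cs s * (tA s a - FA s a)

def Lo (s a : ℝ) : ℝ := s / cs s * (tA s a + FA s a)

theorem pos_m (h0 : 0 ≤ s) (h1 : s < 1) (a : ℝ) : 0 < 1 - s * sin a := by
  nlinarith [(abs_le.1 (abs_sin_le_one a)).2]

theorem pos_p (h0 : 0 ≤ s) (h1 : s < 1) (a : ℝ) : 0 < 1 + s * sin a := by
  nlinarith [(abs_le.1 (abs_sin_le_one a)).1]

theorem der_Up (h0 : 0 ≤ s) (h1 : s < 1) (a : ℝ) : HasDerivAt (Up s) (s / (1 - s * sin a)) a := by
  have hc := cs_pos h0 h1
  have hD := D2_pos h0 h1 a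
  have hp := pos_p h0 h1 a
  have hm := pos_m h0 h1 a
  refine (((der_tA h0 h1 a).sub (der_FA h0 h1 a)).const_mul (s / cs s)).congr_deriv ?_
  have e : D2 s a = (1 - s * sin a) * (1 + s * sin a) := by
    unfold D2
    ring
  rw [e]
  field_simp
  ring

theorem der_Lo (h0 : 0 ≤ s) (h1 : s < 1) (a : ℝ) : HasDerivAt (Lo s) (s / (1 + s * sin a)) a := by
  have hc := cs_pos h0 h1
  have hD := D2_pos h0 h1 a
  have hp := pos_p h0 h1 a
  have hm := pos_m h0 h1 a
  refine (((der_tA h0 h1 a).add (der_FA h0 h1 a)).const_mul (s / cs s)).congr_deriv ?_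
  have e : D2 s a = (1 - s * sin a) * (1 + s * sin a) := by
    unfold D2
    ring
  rw [e]
  field_simp
  ring

/-- pointwise slopes with the body of `s'` -/
theorem St.deriv_le (h : St s X) (h0 : 0 ≤ s) {s' : ℝ} (hs : s ≤ s') (h1 : s' ≤ 1) :
    ∀ᵐ a, 0 < 1 - s' * sin a → deriv X a ≤ s' / (1 - s' * sin a) := by
  filter_upwards [(h.mono h0 hs h1).up] with a ha hp
  rw [le_div_iff₀ hp]
  linarith

theorem St.le_deriv (h : St s X) (h0 : 0 ≤ s) {s' : ℝ} (hs : s ≤ s') (h1 : s' ≤ 1) :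
    ∀ᵐ a, 0 < 1 + s' * sin a → -(s' / (1 + s' * sin a)) ≤ deriv X a := by
  filter_upwards [(h.mono h0 hs h1).lo] with a ha hp
  rw [← neg_div, div_le_iff₀ hp]
  linarith

/-- **increments, body of `s' < 1`** -/
theorem St.up_inc (h : St s X) (h0 : 0 ≤ s) {s' : ℝ} (hs : s ≤ s') (h1 : s' < 1) {a b : ℝ} (hab : a ≤ b) :
    X b - X a ≤ Up s' b - Up s' a := by
  refine h.inc_le hab (fun x _ => der_Up (h0.trans hs) h1 x) ?_ ?_
  · refine ContinuousOn.div (by fun_prop) (by fun_prop) fun x _ => (pos_m (h0.trans hs) h1 x).ne'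
  · filter_upwards [h.deriv_le h0 hs h1.le] with x hx _
    exact hx (pos_m (h0.trans hs) h1 x)

theorem St.lo_inc (h : St s X) (h0 : 0 ≤ s) {s' : ℝ} (hs : s ≤ s') (h1 : s' < 1) {a b : ℝ} (hab : a ≤ b) :
    -(Lo s' b - Lo s' a) ≤ X b - X a := by
  refine h.inc_ge hab (fun x _ => der_Lo (h0.trans hs) h1 x) ?_ ?_
  · refine ContinuousOn.div (by fun_prop) (by fun_prop) fun x _ => (pos_p (h0.trans hs) h1 x).ne'
  · filter_upwards [h.le_deriv h0 hs h1.le] with x hx _
    exact hx (pos_p (h0.trans hs) h1 x)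

/-- the same in integral form -/
theorem St.up_int (h : St s X) (h0 : 0 ≤ s) {s' : ℝ} (hs : s ≤ s') (h1 : s' < 1) {a b : ℝ} (hab : a ≤ b) :
    X b - X a ≤ ∫ x in a..b, s' / (1 - s' * sin x) := by
  have : ∫ x in a..b, s' / (1 - s' * sin x) = Up s' b - Up s' a :=
    intervalIntegral.integral_eq_sub_of_hasDerivAt (fun x _ => der_Up (h0.trans hs) h1 x)
      (ContinuousOn.intervalIntegrable (ContinuousOn.div (by fun_prop) (by fun_prop)
        fun x _ => (pos_m (h0.trans hs) h1 x).ne'))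
  rw [this]
  exact h.up_inc h0 hs h1 hab

theorem St.lo_int (h : St s X) (h0 : 0 ≤ s) {s' : ℝ} (hs : s ≤ s') (h1 : s' < 1) {a b : ℝ} (hab : a ≤ b) :
    -(∫ x in a..b, s' / (1 + s' * sin x)) ≤ X b - X a := by
  have : ∫ x in a..b, s' / (1 + s' * sin x) = Lo s' b - Lo s' a :=
    intervalIntegral.integral_eq_sub_of_hasDerivAt (fun x _ => der_Lo (h0.trans hs) h1 x)
      (ContinuousOn.intervalIntegrable (ContinuousOn.div (by fun_prop) (by fun_prop)
        fun x _ => (pos_p (h0.trans hs) h1 x).ne'))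
  rw [this]
  exact h.lo_inc h0 hs h1 hab

/-! ### body of `s' = 1` -/

/-- `∫ 1 / (1 - sin)` and `∫ 1 / (1 + sin)` -/
def U1 (a : ℝ) : ℝ := cos a / (1 - sin a)

def L1 (a : ℝ) : ℝ := -(cos a / (1 + sin a))

theorem der_U1 {a : ℝ} (h : sin a < 1) : HasDerivAt U1 (1 / (1 - sin a)) a := by
  have hp : 0 < 1 - sin a := by linarith
  have d := (hasDerivAt_cos a).div ((hasDerivAt_sin a).const_sub 1) hp.ne'
  refine d.congr_deriv ?_
  have := sin_sq_add_cos_sq a
  field_simp
  linear_combination this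

theorem der_L1 {a : ℝ} (h : -1 < sin a) : HasDerivAt L1 (1 / (1 + sin a)) a := by
  have hp : 0 < 1 + sin a := by linarith
  have d := ((hasDerivAt_cos a).div ((hasDerivAt_sin a).const_add 1) hp.ne').neg
  refine d.congr_deriv ?_
  have := sin_sq_add_cos_sq a
  field_simp
  linear_combination this

theorem St.up_one (h : St s X) (h0 : 0 ≤ s) (h1 : s ≤ 1) {a b : ℝ} (hab : a ≤ b)
    (hs : ∀ x ∈ Icc a b, sin x < 1) : X b - X a ≤ U1 b - U1 a := by
  refine h.inc_le hab (fun x hx => der_U1 (hs x hx)) ?_ ?_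
  · refine ContinuousOn.div (by fun_prop) (by fun_prop) fun x hx => ?_
    have := hs x hx
    linarith
  · filter_upwards [h.deriv_le h0 h1 le_rfl] with x hx hm
    have := hs x hm
    simpa using hx (by linarith)

theorem St.lo_one (h : St s X) (h0 : 0 ≤ s) (h1 : s ≤ 1) {a b : ℝ} (hab : a ≤ b)
    (hs : ∀ x ∈ Icc a b, -1 < sin x) : -(L1 b - L1 a) ≤ X b - X a := by
  refine h.inc_ge hab (fun x hx => der_L1 (hs x hx)) ?_ ?_
  · refine ContinuousOn.div (by fun_prop) (by fun_prop) fun x hx => ?_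
    have := hs x hx
    linarith
  · filter_upwards [h.le_deriv h0 h1 le_rfl] with x hx hm
    have := hs x hm
    simpa using hx (by linarith)

end Pool.Agent.FPX.ALX
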