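import Mathlib
import Pool.Agent.FPU.EUF

/-
QST (helper66): a lower bound of `mean ((h + η) g'² - p g²)` for functions `g` with `g (t + π) = -g t`, `h ≥ 0`
and `p` trigonometric polynomials of period `π`, by two explicit finite quadratic forms in the first `N` cosine
and sine coefficients of `g`. For odd `1`-Lipschitz `g` this gives
`mean (p g²) + Blk (+1; a) + Blk (-1; b) ≤ mean h + η`.
-/

set_option autoImplicit false

open MeasureTheory Set Filter Topology

noncomputable section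

namespace Pool.Agent.FPX.QST

open Pool.Agent.FPX.UMP.EU Complex

/-! ### Parseval -/

/-- the mean over the circle -/
def mn (F : ℝ → ℝ) : ℝ := (2 * Real.pi)⁻¹ * ∫ t in (0 : ℝ)..(2 * Real.pi), F t

/-- the coefficients -/
def vk (F : ℝ → ℝ) (k : ℤ) : ℂ := fc (fun t => (F t : ℂ)) k

/-- the coefficients of the odd modes -/
def uk (F : ℝ → ℝ) (s : ℤ) : ℂ := vk F (2 * s + 1)

theorem hs_congr {ι : Type*} {f : ι → ℝ} {a b : ℝ} (h : HasSum f a) (e : a = b) :
    HasSum f b := e ▸ h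

theorem parseval_cos {F : ℝ → ℝ} (hF : Continuous F) (n : ℤ) :
    HasSum (fun k : ℤ => (vk F k * (starRingEnd ℂ) (vk F (k - n))).re)
      (mn fun t => F t ^ 2 * Real.cos (n * t)) := by
  have hFc : Continuous fun t => (F t : ℂ) := Complex.continuous_ofReal.comp hF
  have he : Continuous fun t : ℝ => cexp (I * n * t) := by fun_prop
  have cG : Continuous fun t => (F t : ℂ) + (F t : ℂ) * cexp (I * n * t) := hFc.add (hFc.mul he)
  have pG := parseval cG
  have p0 := parseval hFc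
  have e1 : ∀ k, fc (fun t => (F t : ℂ) + (F t : ℂ) * cexp (I * n * t)) k = vk F k + vk F (k - n) := by
    intro k
    refine (fc_add hFc (hFc.mul he) k).trans ?_
    refine congrArg₂ (· + ·) rfl ?_
    exact fc_shift _ n k
  simp only [e1] at pG
  have p1 : HasSum (fun k : ℤ => ‖vk F (k - n)‖ ^ 2)
      ((2 * Real.pi)⁻¹ * ∫ t in (0 : ℝ)..(2 * Real.pi), ‖(F t : ℂ)‖ ^ 2) := by
    have := (Equiv.subRight n).hasSum_iff (f := fun k : ℤ => ‖vk F k‖ ^ 2)
      (a := (2 * Real.pi)⁻¹ * ∫ t in (0 : ℝ)..(2 * Real.pi), ‖(F t : ℂ)‖ ^ 2)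
    exact this.2 p0
  have key := ((pG.sub p0).sub p1).mul_left (1 / 2 : ℝ)
  have e2 : ∀ k, (1 / 2 : ℝ) * (‖vk F k + vk F (k - n)‖ ^ 2 - ‖fc (fun t => (F t : ℂ)) k‖ ^ 2
      - ‖vk F (k - n)‖ ^ 2) = (vk F k * (starRingEnd ℂ) (vk F (k - n))).re := by
    intro k
    change (1 / 2 : ℝ) * (‖vk F k + vk F (k - n)‖ ^ 2 - ‖vk F k‖ ^ 2 - ‖vk F (k - n)‖ ^ 2) = _
    rw [nsq, nsq, nsq]
    simp only [Complex.add_re, Complex.add_im, Complex.mul_re, Complex.conj_re, Complex.conj_im]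
    ring
  simp only [e2] at key
  refine hs_congr key ?_
  unfold mn
  have hn : ∀ t : ℝ, ‖(F t : ℂ) + (F t : ℂ) * cexp (I * n * t)‖ ^ 2
      = 2 * F t ^ 2 + 2 * (F t ^ 2 * Real.cos (n * t)) := by
    intro t
    have e : cexp (I * n * t) = ⟨Real.cos (n * t), Real.sin (n * t)⟩ := by
      have h1 : I * n * t = ((n * t : ℝ) : ℂ) * I := by
        push_cast
        ring
      rw [h1]
      apply Complex.ext
      · rw [Complex.exp_ofReal_mul_I_re]
      · rw [Complex.exp_ofReal_mul_I_im]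
    rw [e, nsq]
    simp only [Complex.add_re, Complex.add_im, Complex.mul_re, Complex.mul_im, Complex.ofReal_re,
      Complex.ofReal_im]
    have h2 := Real.sin_sq_add_cos_sq (n * t)
    linear_combination (F t ^ 2) * h2
  have hn0 : ∀ t : ℝ, ‖(F t : ℂ)‖ ^ 2 = F t ^ 2 := by
    intro t
    rw [nsq]
    simp
  simp only [hn, hn0]
  have i1 : IntervalIntegrable (fun t => F t ^ 2) volume 0 (2 * Real.pi) :=
    (hF.pow 2).intervalIntegrable _ _
  have i2 : IntervalIntegrable (fun t => F t ^ 2 * Real.cos (n * t)) volume 0 (2 * Real.pi) :=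
    ((hF.pow 2).mul (by fun_prop)).intervalIntegrable _ _
  rw [intervalIntegral.integral_add (i1.const_mul 2) (i2.const_mul 2),
    intervalIntegral.integral_const_mul, intervalIntegral.integral_const_mul]
  ring

/-- the odd integers -/
theorem inj_odd : Function.Injective fun s : ℤ => 2 * s + 1 := fun a b h => by
  simp only at h
  omega

/-- the same sum over the odd modes -/
theorem odd_cos {F : ℝ → ℝ} (hF : Continuous F) (ho : ∀ t, F (t + Real.pi) = -F t) (m : ℤ) :
    HasSum (fun s : ℤ => (uk F s * (starRingEnd ℂ) (uk F (s - m))).re)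
      (mn fun t => F t ^ 2 * Real.cos (2 * m * t)) := by
  have h := parseval_cos hF (2 * m)
  have h0 : ∀ k, k ∉ Set.range (fun s : ℤ => 2 * s + 1) →
      (vk F k * (starRingEnd ℂ) (vk F (k - 2 * m))).re = 0 := by
    intro k hk
    obtain ⟨j, rfl⟩ : ∃ j, k = 2 * j := by
      rcases Int.even_or_odd k with ⟨j, hj⟩ | ⟨j, hj⟩
      · exact ⟨j, by omega⟩
      · exact absurd ⟨j, hj.symm⟩ hk
    have : vk F (2 * j) = 0 := fc_even (Complex.continuous_ofReal.comp hF) (fun t => by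
      simp only [Function.comp, ho t, Complex.ofReal_neg]) j
    rw [this]
    simp
  have h1 := (inj_odd.hasSum_iff h0).2 h
  convert h1 using 1
  · funext s
    simp only [Function.comp, uk]
    congr 4
    ring
  · congr 1
    funext t
    push_cast
    ring

theorem odd_sq {F : ℝ → ℝ} (hF : Continuous F) (ho : ∀ t, F (t + Real.pi) = -F t) :
    HasSum (fun s : ℤ => ‖uk F s‖ ^ 2) (mn fun t => F t ^ 2) := by
  have h := odd_cos hF ho 0
  convert h using 1
  · funext s
    rw [sub_zero, nsq]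
    simp only [Complex.mul_re, Complex.conj_re, Complex.conj_im]
    ring
  · congr 1
    funext t
    simp

/-! ### the data of a function -/

/-- the window of modes -/
def Wn (N : ℕ) : Finset ℤ := Finset.Ico (-(N : ℤ)) N

theorem mem_Wn {N : ℕ} {s : ℤ} : s ∈ Wn N ↔ -(N : ℤ) ≤ s ∧ s < N := Finset.mem_Ico

/-- the index of a mode -/
def ix (s : ℤ) : ℕ := if 0 ≤ s then s.toNat else (-s - 1).toNat

/-- the signed coefficient -/
def cf (e : ℝ) (x : ℕ → ℝ) (s : ℤ) : ℝ := (if 0 ≤ s then 1 else e) * x (ix s)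

/-- the coefficient of the derivative -/
def wf (e : ℝ) (x : ℕ → ℝ) (s : ℤ) : ℝ := (2 * s + 1) * cf e x s / 2

/-- the function `p` -/
def pf (L : ℕ) (p : ℕ → ℝ) (t : ℝ) : ℝ :=
  p 0 + ∑ m ∈ Finset.range L, p (m + 1) * Real.cos (2 * ((m + 1 : ℕ) : ℤ) * t)

/-- the function `h` -/
def hf (K : ℕ) (H : ℕ → ℕ → ℝ) (t : ℝ) : ℝ :=
  ∑ k ∈ Finset.range (K + 1), ∑ l ∈ Finset.range (K + 1), H k l * Real.cos (2 * ((k : ℤ) - l : ℤ) * t)

/-- the part of the form that comes from `h` -/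
def BlkH (N K : ℕ) (H : ℕ → ℕ → ℝ) (e : ℝ) (x : ℕ → ℝ) : ℝ :=
  ∑ r ∈ Finset.Ico ((K : ℤ) - N) N, ∑ k ∈ Finset.range (K + 1), ∑ l ∈ Finset.range (K + 1),
    H k l * (wf e x (r - k) * wf e x (r - l))

/-- the part of the form that comes from `η` and `p` -/
def BlkP (N L : ℕ) (eta : ℝ) (p P : ℕ → ℝ) (e : ℝ) (x : ℕ → ℝ) : ℝ :=
  1 / 4 * ∑ s ∈ Wn N, (eta * (2 * s + 1) ^ 2 - p 0 - 1 / 2 * ∑ m ∈ Finset.range L, P (m + 1)
      * ((if s - (m + 1 : ℕ) ∈ Wn N then 0 else 1) + (if s + (m + 1 : ℕ) ∈ Wn N then 0 else 1)))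
        * cf e x s ^ 2
    - 1 / 4 * ∑ m ∈ Finset.range L, p (m + 1) *
      ∑ s ∈ Wn N, if s - (m + 1 : ℕ) ∈ Wn N then cf e x s * cf e x (s - (m + 1 : ℕ)) else 0

/-- the finite quadratic form -/
def Blk (N K L : ℕ) (H : ℕ → ℕ → ℝ) (eta : ℝ) (p P : ℕ → ℝ) (e : ℝ) (x : ℕ → ℝ) : ℝ :=
  BlkH N K H e x + BlkP N L eta p P e x

/-- cosine coefficients -/
def ca (g : ℝ → ℝ) (i : ℕ) : ℝ := Real.pi⁻¹ * ∫ t in (0 : ℝ)..(2 * Real.pi), g t * Real.cos ((2 * i + 1) * t)

/-- sine coefficients -/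
def sa (g : ℝ → ℝ) (i : ℕ) : ℝ := Real.pi⁻¹ * ∫ t in (0 : ℝ)..(2 * Real.pi), g t * Real.sin ((2 * i + 1) * t)

theorem uk_nat {g : ℝ → ℝ} (hg : Continuous g) (i : ℕ) : uk g i = ⟨ca g i / 2, -(sa g i) / 2⟩ := by
  unfold uk vk fc ca sa
  have e1 : ∀ t : ℝ, cexp (-(I * ((2 * (i : ℤ) + 1 : ℤ) : ℂ) * t)) * (g t : ℂ)
      = ((g t * Real.cos ((2 * i + 1) * t) : ℝ) : ℂ) - ((g t * Real.sin ((2 * i + 1) * t) : ℝ) : ℂ) * I := by
    intro t
    have h1 : -(I * ((2 * (i : ℤ) + 1 : ℤ) : ℂ) * t) = ((-((2 * i + 1) * t) : ℝ) : ℂ) * I := by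
      push_cast
      ring
    have e : cexp (((-((2 * i + 1) * t) : ℝ) : ℂ) * I) = ⟨Real.cos ((2 * i + 1) * t), -Real.sin ((2 * i + 1) * t)⟩ := by
      apply Complex.ext
      · rw [Complex.exp_ofReal_mul_I_re, Real.cos_neg]
      · rw [Complex.exp_ofReal_mul_I_im, Real.sin_neg]
    rw [h1, e]
    generalize Real.cos ((2 * i + 1) * t) = cw
    generalize Real.sin ((2 * i + 1) * t) = sw
    apply Complex.ext
    · simp only [Complex.mul_re, Complex.sub_re, Complex.ofReal_re, Complex.ofReal_im, Complex.I_re, Complex.I_im]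
      ring
    · simp only [Complex.mul_im, Complex.sub_im, Complex.ofReal_re, Complex.ofReal_im, Complex.I_re, Complex.I_im]
      ring
  rw [intervalIntegral.integral_congr (g := fun t : ℝ => ((g t * Real.cos ((2 * i + 1) * t) : ℝ) : ℂ)
    - ((g t * Real.sin ((2 * i + 1) * t) : ℝ) : ℂ) * I) fun t _ => e1 t]
  have i1 : IntervalIntegrable (fun t : ℝ => ((g t * Real.cos ((2 * i + 1) * t) : ℝ) : ℂ)) volume 0 (2 * Real.pi) :=
    (Complex.continuous_ofReal.comp (hg.mul (by fun_prop))).intervalIntegrable _ _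
  have i2 : IntervalIntegrable (fun t : ℝ => ((g t * Real.sin ((2 * i + 1) * t) : ℝ) : ℂ) * I) volume 0 (2 * Real.pi) :=
    ((Complex.continuous_ofReal.comp (hg.mul (by fun_prop))).mul continuous_const).intervalIntegrable _ _
  rw [intervalIntegral.integral_sub i1 i2, intervalIntegral.integral_mul_const,
    intervalIntegral.integral_ofReal, intervalIntegral.integral_ofReal]
  have hp : (Real.pi : ℂ) ≠ 0 := by exact_mod_cast Real.pi_ne_zero
  apply Complex.ext
  · have : (1 / (2 * (Real.pi : ℂ))) = (((2 * Real.pi)⁻¹ : ℝ) : ℂ) := by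
      push_cast
      rw [one_div]
    rw [this]
    simp
    ring
  · have : (1 / (2 * (Real.pi : ℂ))) = (((2 * Real.pi)⁻¹ : ℝ) : ℂ) := by
      push_cast
      rw [one_div]
    rw [this]
    simp
    ring

theorem uk_neg {g : ℝ → ℝ} (s : ℤ) : uk g (-s - 1) = (starRingEnd ℂ) (uk g s) := by
  have h := fc_conj (f := g) (2 * s + 1)
  unfold uk vk
  rw [← h]
  congr 1
  ring

/-- the coefficients in terms of the real ones -/
theorem uk_eq {g : ℝ → ℝ} (hg : Continuous g) (s : ℤ) :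
    uk g s = ⟨cf 1 (ca g) s / 2, -(cf (-1) (sa g) s) / 2⟩ := by
  unfold cf ix
  rcases lt_or_ge s 0 with h | h
  · have h1 : ¬ (0 ≤ s) := not_le.2 h
    obtain ⟨i, hi⟩ : ∃ i : ℕ, s = -(i : ℤ) - 1 := ⟨(-s - 1).toNat, by
      rw [Int.toNat_of_nonneg (by omega)]
      ring⟩
    have h2 : (-s - 1).toNat = i := by omega
    simp only [if_neg h1]
    rw [h2, hi, uk_neg, uk_nat hg]
    apply Complex.ext
    · simp
    · simp only [Complex.conj_im]
      ring
  · obtain ⟨i, rfl⟩ : ∃ i : ℕ, s = (i : ℤ) := ⟨s.toNat, (Int.toNat_of_nonneg h).symm⟩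
    simp only [if_pos h]
    rw [Int.toNat_natCast, uk_nat hg]
    apply Complex.ext
    · simp
    · simp only
      ring

/-- products of the coefficients -/
theorem uk_mul {g : ℝ → ℝ} (hg : Continuous g) (s r : ℤ) :
    (uk g s * (starRingEnd ℂ) (uk g r)).re
      = (cf 1 (ca g) s * cf 1 (ca g) r + cf (-1) (sa g) s * cf (-1) (sa g) r) / 4 := by
  rw [uk_eq hg s, uk_eq hg r]
  simp only [Complex.mul_re, Complex.conj_re, Complex.conj_im]
  ring

theorem uk_sq {g : ℝ → ℝ} (hg : Continuous g) (s : ℤ) :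
    ‖uk g s‖ ^ 2 = (cf 1 (ca g) s ^ 2 + cf (-1) (sa g) s ^ 2) / 4 := by
  rw [uk_eq hg s, nsq]
  ring

theorem uk_deriv {g g' : ℝ → ℝ} (hd : ∀ t, HasDerivAt g (g' t) t) (hc : Continuous g')
    (ho : ∀ t, g (t + Real.pi) = -g t) (s : ℤ) : uk g' s = I * ((2 * s + 1 : ℝ) : ℂ) * uk g s := by
  have hper : g (2 * Real.pi) = g 0 := by
    have a1 := ho 0
    have a2 := ho Real.pi
    rw [zero_add] at a1
    rw [show Real.pi + Real.pi = 2 * Real.pi by ring, a1, neg_neg] at a2
    exact a2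
  have h := fc_deriv (f := fun t => (g t : ℂ)) (f' := fun t => (g' t : ℂ)) (fun t => (hd t).ofReal_comp)
    (Complex.continuous_ofReal.comp hc) (by simp [hper]) (2 * s + 1)
  unfold uk vk
  rw [h]
  push_cast
  ring

theorem deriv_odd {g g' : ℝ → ℝ} (hd : ∀ t, HasDerivAt g (g' t) t)
    (ho : ∀ t, g (t + Real.pi) = -g t) (t : ℝ) : g' (t + Real.pi) = -g' t := by
  have h1 : HasDerivAt (fun t => g (t + Real.pi)) (g' (t + Real.pi)) t := (hd (t + Real.pi)).comp_add_const t Real.pi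
  have h2 : HasDerivAt (fun t => g (t + Real.pi)) (-g' t) t := by
    have e : (fun t => g (t + Real.pi)) = fun t => -g t := funext ho
    rw [e]
    exact (hd t).neg
  exact h1.unique h2

/-! ### the part of `h` -/

theorem part_h {g g' : ℝ → ℝ} (hd : ∀ t, HasDerivAt g (g' t) t) (hc : Continuous g')
    (ho : ∀ t, g (t + Real.pi) = -g t) {K : ℕ} {H : ℕ → ℕ → ℝ}
    (hH : ∀ v : ℕ → ℝ, 0 ≤ ∑ k ∈ Finset.range (K + 1), ∑ l ∈ Finset.range (K + 1), H k l * (v k * v l))
    (N : ℕ) : BlkH N K H 1 (ca g) + BlkH N K H (-1) (sa g) ≤ mn fun t => g' t ^ 2 * hf K H t := by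
  have hg : Continuous g := continuous_iff_continuousAt.2 fun t => (hd t).continuousAt
  have key : HasSum (fun r : ℤ => ∑ k ∈ Finset.range (K + 1), ∑ l ∈ Finset.range (K + 1),
      H k l * (uk g' (r - k) * (starRingEnd ℂ) (uk g' (r - l))).re) (mn fun t => g' t ^ 2 * hf K H t) := by
    have h1 : ∀ k l : ℕ, HasSum (fun r : ℤ => (uk g' (r - k) * (starRingEnd ℂ) (uk g' (r - l))).re)
        (mn fun t => g' t ^ 2 * Real.cos (2 * ((k : ℤ) - l : ℤ) * t)) := by
      intro k l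
      have h2 := odd_cos hc (deriv_odd hd ho) ((l : ℤ) - k)
      have h3 := (Equiv.subRight (k : ℤ)).hasSum_iff
        (f := fun s : ℤ => (uk g' s * (starRingEnd ℂ) (uk g' (s - ((l : ℤ) - k)))).re)
        (a := mn fun t => g' t ^ 2 * Real.cos (2 * ((l : ℤ) - k : ℤ) * t))
      have h4 := h3.2 h2
      have h5 : (fun r : ℤ => (uk g' (r - k) * (starRingEnd ℂ) (uk g' (r - l))).re)
          = (fun s : ℤ => (uk g' s * (starRingEnd ℂ) (uk g' (s - ((l : ℤ) - k)))).re)
            ∘ (Equiv.subRight (k : ℤ)) := by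
        funext r
        simp only [Function.comp, Equiv.subRight_apply]
        congr 4
        ring
      rw [h5]
      refine hs_congr h4 ?_
      congr 1
      funext t
      congr 1
      rw [← Real.cos_neg]
      congr 1
      push_cast
      ring
    have h5 := hasSum_sum (s := Finset.range (K + 1)) fun k _ => hasSum_sum (s := Finset.range (K + 1))
      fun l _ => (h1 k l).mul_left (H k l)
    refine hs_congr h5 ?_
    unfold mn hf
    have i0 : ∀ k l : ℕ, IntervalIntegrable (fun t => g' t ^ 2 * Real.cos (2 * ((k : ℤ) - l : ℤ) * t)) volume 0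
        (2 * Real.pi) := fun k l => ((hc.pow 2).mul (by fun_prop)).intervalIntegrable _ _
    have e1 : ∀ t, g' t ^ 2 * (∑ k ∈ Finset.range (K + 1), ∑ l ∈ Finset.range (K + 1),
        H k l * Real.cos (2 * ((k : ℤ) - l : ℤ) * t)) = ∑ k ∈ Finset.range (K + 1), ∑ l ∈ Finset.range (K + 1),
        H k l * (g' t ^ 2 * Real.cos (2 * ((k : ℤ) - l : ℤ) * t)) := by
      intro t
      rw [Finset.mul_sum]
      refine Finset.sum_congr rfl fun k _ => ?_
      rw [Finset.mul_sum]
      exact Finset.sum_congr rfl fun l _ => by ring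
    simp only [e1]
    rw [intervalIntegral.integral_finsetSum fun k _ => ?_, Finset.mul_sum]
    · refine Finset.sum_congr rfl fun k _ => ?_
      rw [intervalIntegral.integral_finsetSum fun l _ => (i0 k l).const_mul _, Finset.mul_sum]
      refine Finset.sum_congr rfl fun l _ => ?_
      rw [intervalIntegral.integral_const_mul]
      ring
    · exact (continuous_finsetSum _ fun l _ =>
        continuous_const.mul ((hc.pow 2).mul (by fun_prop))).intervalIntegrable _ _
  have hval : ∀ r : ℤ, (∑ k ∈ Finset.range (K + 1), ∑ l ∈ Finset.range (K + 1),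
      H k l * (uk g' (r - k) * (starRingEnd ℂ) (uk g' (r - l))).re)
      = (∑ k ∈ Finset.range (K + 1), ∑ l ∈ Finset.range (K + 1), H k l * (wf 1 (ca g) (r - k) * wf 1 (ca g) (r - l)))
        + ∑ k ∈ Finset.range (K + 1), ∑ l ∈ Finset.range (K + 1),
          H k l * (wf (-1) (sa g) (r - k) * wf (-1) (sa g) (r - l)) := by
    intro r
    rw [← Finset.sum_add_distrib]
    refine Finset.sum_congr rfl fun k _ => ?_
    rw [← Finset.sum_add_distrib]
    refine Finset.sum_congr rfl fun l _ => ?_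
    rw [uk_deriv hd hc ho, uk_deriv hd hc ho, uk_eq hg (r - k), uk_eq hg (r - l)]
    unfold wf
    push_cast
    simp only [Complex.mul_re, Complex.mul_im, Complex.conj_re, Complex.conj_im, Complex.I_re, Complex.I_im,
      Complex.add_re, Complex.add_im, Complex.sub_re, Complex.sub_im, Complex.intCast_re, Complex.intCast_im,
      Complex.natCast_re, Complex.natCast_im, Complex.one_re, Complex.one_im, Complex.re_ofNat, Complex.im_ofNat]
    ring
  simp only [hval] at key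
  have hnn : ∀ r, r ∉ Finset.Ico ((K : ℤ) - N) N → 0 ≤
      (∑ k ∈ Finset.range (K + 1), ∑ l ∈ Finset.range (K + 1), H k l * (wf 1 (ca g) (r - k) * wf 1 (ca g) (r - l)))
        + ∑ k ∈ Finset.range (K + 1), ∑ l ∈ Finset.range (K + 1),
          H k l * (wf (-1) (sa g) (r - k) * wf (-1) (sa g) (r - l)) := fun r _ =>
    add_nonneg (hH fun k => wf 1 (ca g) (r - k)) (hH fun k => wf (-1) (sa g) (r - k))
  have h6 := sum_le_hasSum (Finset.Ico ((K : ℤ) - N) N) hnn key
  rw [Finset.sum_add_distrib] at h6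
  exact h6

/-! ### the part of `η` and `p` -/

theorem tail_sq {N : ℕ} {s : ℤ} (h : s ∉ Wn N) : (2 * (N : ℝ) + 1) ^ 2 ≤ (2 * (s : ℝ) + 1) ^ 2 := by
  rw [mem_Wn, not_and_or, not_le, not_lt] at h
  rcases h with h | h
  · have h1 : (s : ℝ) ≤ -N - 1 := by
      have : s ≤ -(N : ℤ) - 1 := by omega
      exact_mod_cast this
    have h2 : (0 : ℝ) ≤ N := Nat.cast_nonneg N
    nlinarith
  · have h1 : (N : ℝ) ≤ s := by exact_mod_cast h
    have h2 : (0 : ℝ) ≤ N := Nat.cast_nonneg N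
    nlinarith

theorem part_p {g g' : ℝ → ℝ} (hd : ∀ t, HasDerivAt g (g' t) t) (hc : Continuous g')
    (ho : ∀ t, g (t + Real.pi) = -g t) {N L : ℕ} {eta : ℝ} (he : 0 ≤ eta) {p P : ℕ → ℝ}
    (hp : ∀ m, |p (m + 1)| ≤ P (m + 1))
    (hT : p 0 + ∑ m ∈ Finset.range L, P (m + 1) ≤ eta * (2 * N + 1) ^ 2) :
    BlkP N L eta p P 1 (ca g) + BlkP N L eta p P (-1) (sa g)
      ≤ eta * (mn fun t => g' t ^ 2) - mn fun t => g t ^ 2 * pf L p t := by
  have hg : Continuous g := continuous_iff_continuousAt.2 fun t => (hd t).continuousAt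
  set U : ℤ → ℂ := uk g with hU
  have hA := odd_sq hg ho
  have hB : HasSum (fun s : ℤ => (2 * (s : ℝ) + 1) ^ 2 * ‖U s‖ ^ 2) (mn fun t => g' t ^ 2) := by
    have h := odd_sq hc (deriv_odd hd ho)
    convert h using 1
    funext s
    rw [uk_deriv hd hc ho s, norm_mul, norm_mul, Complex.norm_I, one_mul, mul_pow, Complex.norm_real,
      Real.norm_eq_abs, sq_abs]
  have hC : ∀ m : ℕ, HasSum (fun s : ℤ => (U s * (starRingEnd ℂ) (U (s - m))).re)
      (mn fun t => g t ^ 2 * Real.cos (2 * (m : ℤ) * t)) := fun m => by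
    have := odd_cos hg ho (m : ℤ)
    exact this
  -- the indicator
  set nd : ℕ → ℤ → ℝ := fun m s => if s ∈ Wn N ∧ s - m ∈ Wn N then 0 else 1 with hnd
  have nd0 : ∀ m s, 0 ≤ nd m s := fun m s => by
    simp only [hnd]
    split_ifs <;> norm_num
  have nd1 : ∀ m s, nd m s ≤ 1 := fun m s => by
    simp only [hnd]
    split_ifs <;> norm_num
  have hX : ∀ m : ℕ, Summable fun s : ℤ => nd m s * ‖U s‖ ^ 2 := fun m =>
    Summable.of_nonneg_of_le (fun s => mul_nonneg (nd0 m s) (sq_nonneg _))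
      (fun s => mul_le_of_le_one_left (sq_nonneg _) (nd1 m s)) hA.summable
  have hY : ∀ m : ℕ, Summable fun s : ℤ => nd m (s + m) * ‖U s‖ ^ 2 := fun m =>
    Summable.of_nonneg_of_le (fun s => mul_nonneg (nd0 m _) (sq_nonneg _))
      (fun s => mul_le_of_le_one_left (sq_nonneg _) (nd1 m _)) hA.summable
  have hY' : ∀ m : ℕ, HasSum (fun s : ℤ => nd m s * ‖U (s - m)‖ ^ 2)
      (∑' s : ℤ, nd m (s + m) * ‖U s‖ ^ 2) := by
    intro m
    have h := (hY m).hasSum
    have h1 := (Equiv.subRight (m : ℤ)).hasSum_iff (f := fun s : ℤ => nd m (s + m) * ‖U s‖ ^ 2)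
      (a := ∑' s : ℤ, nd m (s + m) * ‖U s‖ ^ 2)
    have h2 := h1.2 h
    convert h2 using 1
    funext s
    simp only [Function.comp, Equiv.subRight_apply, sub_add_cancel]
  -- one harmonic
  have step : ∀ m : ℕ, p (m + 1) * (mn fun t => g t ^ 2 * Real.cos (2 * ((m + 1 : ℕ) : ℤ) * t))
      ≤ p (m + 1) * (∑ s ∈ Wn N, if s - (m + 1 : ℕ) ∈ Wn N then
          (U s * (starRingEnd ℂ) (U (s - (m + 1 : ℕ)))).re else 0)
        + 1 / 2 * P (m + 1) * ((∑' s : ℤ, nd (m + 1) s * ‖U s‖ ^ 2)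
          + ∑' s : ℤ, nd (m + 1) (s + (m + 1 : ℕ)) * ‖U s‖ ^ 2) := by
    intro m
    have h1 := (hC (m + 1)).mul_left (p (m + 1))
    have h2 := (((hX (m + 1)).hasSum.add (hY' (m + 1))).mul_left (1 / 2 * P (m + 1)))
    have h3 : HasSum (fun s : ℤ => p (m + 1) * (if s ∈ Wn N then (if s - (m + 1 : ℕ) ∈ Wn N then
          (U s * (starRingEnd ℂ) (U (s - (m + 1 : ℕ)))).re else 0) else 0))
        (p (m + 1) * ∑ s ∈ Wn N, if s - (m + 1 : ℕ) ∈ Wn N then
          (U s * (starRingEnd ℂ) (U (s - (m + 1 : ℕ)))).re else 0) := by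
      refine HasSum.mul_left _ ?_
      have h4 : HasSum (fun s : ℤ => if s ∈ Wn N then
          (if s - (m + 1 : ℕ) ∈ Wn N then (U s * (starRingEnd ℂ) (U (s - (m + 1 : ℕ)))).re else 0) else 0)
          (∑ s ∈ Wn N, if s ∈ Wn N then (if s - (m + 1 : ℕ) ∈ Wn N then
            (U s * (starRingEnd ℂ) (U (s - (m + 1 : ℕ)))).re else 0) else 0) :=
        hasSum_sum_of_ne_finset_zero fun s hs => if_neg hs
      refine hs_congr h4 ?_
      exact Finset.sum_congr rfl fun s hs => if_pos hs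
    refine hasSum_le (fun s => ?_) h1 (h3.add h2)
    have k1 : |p (m + 1) * (U s * (starRingEnd ℂ) (U (s - (m + 1 : ℕ)))).re|
        ≤ P (m + 1) * (1 / 2 * (‖U s‖ ^ 2 + ‖U (s - (m + 1 : ℕ))‖ ^ 2)) := by
      rw [abs_mul]
      have hP0 : 0 ≤ P (m + 1) := (abs_nonneg _).trans (hp m)
      refine mul_le_mul (hp m) ?_ (abs_nonneg _) hP0
      refine (Complex.abs_re_le_norm _).trans ?_
      rw [norm_mul, RCLike.norm_conj]
      nlinarith [sq_nonneg (‖U s‖ - ‖U (s - (m + 1 : ℕ))‖)]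
    have k2 := (abs_le.1 k1).2
    by_cases h5 : s ∈ Wn N
    · by_cases h6 : s - (m + 1 : ℕ) ∈ Wn N
      · have e : nd (m + 1) s = 0 := by
          simp only [hnd]
          exact if_pos ⟨h5, h6⟩
        rw [e, if_pos h5, if_pos h6]
        simp
      · have e : nd (m + 1) s = 1 := by
          simp only [hnd]
          exact if_neg fun h => h6 h.2
        rw [e, if_pos h5, if_neg h6]
        push_cast at k2 ⊢
        linarith
    · have e : nd (m + 1) s = 1 := by
        simp only [hnd]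
        exact if_neg fun h => h5 h.1
      rw [e, if_neg h5]
      push_cast at k2 ⊢
      linarith
  -- all together
  set E : ℤ → ℝ := fun s => eta * (2 * (s : ℝ) + 1) ^ 2 - p 0 - 1 / 2 * ∑ m ∈ Finset.range L, P (m + 1)
      * (nd (m + 1) s + nd (m + 1) (s + (m + 1 : ℕ))) with hE
  have hsum : HasSum (fun s : ℤ => E s * ‖U s‖ ^ 2) (eta * (mn fun t => g' t ^ 2) - p 0 * (mn fun t => g t ^ 2)
      - ∑ m ∈ Finset.range L, 1 / 2 * P (m + 1) * ((∑' s : ℤ, nd (m + 1) s * ‖U s‖ ^ 2)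
          + ∑' s : ℤ, nd (m + 1) (s + (m + 1 : ℕ)) * ‖U s‖ ^ 2)) := by
    have h1 := ((hB.mul_left eta).sub (hA.mul_left (p 0))).sub
      (hasSum_sum (s := Finset.range L) fun m _ =>
        (((hX (m + 1)).hasSum.add (hY (m + 1)).hasSum).mul_left (1 / 2 * P (m + 1))))
    have e0 : (fun s : ℤ => E s * ‖U s‖ ^ 2) = fun s : ℤ => eta * ((2 * (s : ℝ) + 1) ^ 2 * ‖U s‖ ^ 2)
        - p 0 * ‖uk g s‖ ^ 2 - ∑ m ∈ Finset.range L, 1 / 2 * P (m + 1) * (nd (m + 1) s * ‖U s‖ ^ 2
          + nd (m + 1) (s + (m + 1 : ℕ)) * ‖U s‖ ^ 2) := by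
      funext s
      simp only [hE]
      have e1 : ∑ m ∈ Finset.range L, 1 / 2 * P (m + 1) * (nd (m + 1) s * ‖U s‖ ^ 2
          + nd (m + 1) (s + (m + 1 : ℕ)) * ‖U s‖ ^ 2) = (1 / 2 * ∑ m ∈ Finset.range L, P (m + 1)
        * (nd (m + 1) s + nd (m + 1) (s + (m + 1 : ℕ)))) * ‖U s‖ ^ 2 := by
        rw [Finset.mul_sum, Finset.sum_mul]
        exact Finset.sum_congr rfl fun m _ => by ring
      rw [e1]
      ring
    rw [e0]
    exact h1
  have hEn : ∀ s, s ∉ Wn N → 0 ≤ E s * ‖U s‖ ^ 2 := by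
    intro s hs
    refine mul_nonneg ?_ (sq_nonneg _)
    simp only [hE]
    have e1 : ∀ m : ℕ, nd (m + 1) s = 1 := fun m => by
      simp only [hnd]
      exact if_neg fun h => hs h.1
    have e2 : ∀ m : ℕ, nd (m + 1) (s + (m + 1 : ℕ)) = 1 := fun m => by
      simp only [hnd]
      refine if_neg fun h => hs ?_
      have := h.2
      rwa [add_sub_cancel_right] at this
    have e3 : ∑ m ∈ Finset.range L, P (m + 1) * (nd (m + 1) s + nd (m + 1) (s + (m + 1 : ℕ)))
        = 2 * ∑ m ∈ Finset.range L, P (m + 1) := by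
      rw [Finset.mul_sum]
      exact Finset.sum_congr rfl fun m _ => by
        rw [e1, e2]
        ring
    rw [e3]
    have h3 := mul_le_mul_of_nonneg_left (tail_sq hs) he
    linarith
  have h1 := sum_le_hasSum (Wn N) hEn hsum
  have h2 := Finset.sum_le_sum fun m (_ : m ∈ Finset.range L) => step m
  rw [Finset.sum_add_distrib] at h2
  have e3 : (mn fun t => g t ^ 2 * pf L p t) = p 0 * (mn fun t => g t ^ 2)
      + ∑ m ∈ Finset.range L, p (m + 1) * (mn fun t => g t ^ 2 * Real.cos (2 * ((m + 1 : ℕ) : ℤ) * t)) := by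
    unfold mn pf
    have i0 : ∀ m : ℕ, IntervalIntegrable (fun t => g t ^ 2 * Real.cos (2 * ((m + 1 : ℕ) : ℤ) * t)) volume 0
        (2 * Real.pi) := fun m => ((hg.pow 2).mul (by fun_prop)).intervalIntegrable _ _
    have e1 : ∀ t, g t ^ 2 * (p 0 + ∑ m ∈ Finset.range L, p (m + 1) * Real.cos (2 * ((m + 1 : ℕ) : ℤ) * t))
        = p 0 * g t ^ 2 + ∑ m ∈ Finset.range L, p (m + 1) * (g t ^ 2 * Real.cos (2 * ((m + 1 : ℕ) : ℤ) * t)) := by
      intro t
      rw [mul_add, Finset.mul_sum, mul_comm (g t ^ 2) (p 0)]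
      refine congrArg₂ (· + ·) rfl ?_
      exact Finset.sum_congr rfl fun m _ => by ring
    simp only [e1]
    rw [intervalIntegral.integral_add, intervalIntegral.integral_const_mul,
      intervalIntegral.integral_finsetSum fun m _ => (i0 m).const_mul _, mul_add, Finset.mul_sum]
    · refine congrArg₂ (· + ·) (by ring) ?_
      refine Finset.sum_congr rfl fun m _ => ?_
      rw [intervalIntegral.integral_const_mul]
      ring
    · exact (continuous_const.mul (hg.pow 2)).intervalIntegrable _ _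
    · exact (continuous_finsetSum _ fun m _ =>
        continuous_const.mul ((hg.pow 2).mul (by fun_prop))).intervalIntegrable _ _
  have e4 : BlkP N L eta p P 1 (ca g) + BlkP N L eta p P (-1) (sa g)
      = (∑ s ∈ Wn N, E s * ‖U s‖ ^ 2) - ∑ m ∈ Finset.range L, p (m + 1) * (∑ s ∈ Wn N,
        if s - (m + 1 : ℕ) ∈ Wn N then (U s * (starRingEnd ℂ) (U (s - (m + 1 : ℕ)))).re else 0) := by
    unfold BlkP
    have a1 : ∑ s ∈ Wn N, E s * ‖U s‖ ^ 2 = 1 / 4 * (∑ s ∈ Wn N, (eta * (2 * (s : ℝ) + 1) ^ 2 - p 0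
        - 1 / 2 * ∑ m ∈ Finset.range L, P (m + 1) * ((if s - (m + 1 : ℕ) ∈ Wn N then 0 else 1)
          + (if s + (m + 1 : ℕ) ∈ Wn N then 0 else 1))) * cf 1 (ca g) s ^ 2)
        + 1 / 4 * (∑ s ∈ Wn N, (eta * (2 * (s : ℝ) + 1) ^ 2 - p 0
        - 1 / 2 * ∑ m ∈ Finset.range L, P (m + 1) * ((if s - (m + 1 : ℕ) ∈ Wn N then 0 else 1)
          + (if s + (m + 1 : ℕ) ∈ Wn N then 0 else 1))) * cf (-1) (sa g) s ^ 2) := by
      rw [Finset.mul_sum, Finset.mul_sum, ← Finset.sum_add_distrib]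
      refine Finset.sum_congr rfl fun s hs => ?_
      have b1 : ∀ m : ℕ, nd (m + 1) s = if s - (m + 1 : ℕ) ∈ Wn N then 0 else 1 := by
        intro m
        simp only [hnd]
        by_cases h : s - ((m + 1 : ℕ) : ℤ) ∈ Wn N
        · rw [if_pos h, if_pos ⟨hs, h⟩]
        · rw [if_neg h, if_neg fun h' => h h'.2]
      have b2 : ∀ m : ℕ, nd (m + 1) (s + (m + 1 : ℕ)) = if s + (m + 1 : ℕ) ∈ Wn N then 0 else 1 := by
        intro m
        simp only [hnd]
        by_cases h : s + ((m + 1 : ℕ) : ℤ) ∈ Wn N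
        · rw [if_pos h, if_pos ⟨h, by rwa [add_sub_cancel_right]⟩]
        · rw [if_neg h, if_neg fun h' => h h'.1]
      simp only [hE, b1, b2]
      rw [hU, uk_sq hg s]
      ring
    have a2 : ∑ m ∈ Finset.range L, p (m + 1) * (∑ s ∈ Wn N,
        if s - (m + 1 : ℕ) ∈ Wn N then (U s * (starRingEnd ℂ) (U (s - (m + 1 : ℕ)))).re else 0)
        = 1 / 4 * (∑ m ∈ Finset.range L, p (m + 1) * ∑ s ∈ Wn N, if s - (m + 1 : ℕ) ∈ Wn N then
            cf 1 (ca g) s * cf 1 (ca g) (s - (m + 1 : ℕ)) else 0)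
          + 1 / 4 * (∑ m ∈ Finset.range L, p (m + 1) * ∑ s ∈ Wn N, if s - (m + 1 : ℕ) ∈ Wn N then
            cf (-1) (sa g) s * cf (-1) (sa g) (s - (m + 1 : ℕ)) else 0) := by
      have a3 : ∀ m : ℕ, (∑ s ∈ Wn N,
          if s - (m + 1 : ℕ) ∈ Wn N then (U s * (starRingEnd ℂ) (U (s - (m + 1 : ℕ)))).re else 0)
          = 1 / 4 * (∑ s ∈ Wn N, if s - (m + 1 : ℕ) ∈ Wn N then
              cf 1 (ca g) s * cf 1 (ca g) (s - (m + 1 : ℕ)) else 0)
            + 1 / 4 * (∑ s ∈ Wn N, if s - (m + 1 : ℕ) ∈ Wn N then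
              cf (-1) (sa g) s * cf (-1) (sa g) (s - (m + 1 : ℕ)) else 0) := by
        intro m
        rw [Finset.mul_sum, Finset.mul_sum, ← Finset.sum_add_distrib]
        refine Finset.sum_congr rfl fun s _ => ?_
        by_cases h : s - ((m + 1 : ℕ) : ℤ) ∈ Wn N
        · rw [if_pos h, if_pos h, if_pos h, hU, uk_mul hg]
          ring
        · rw [if_neg h, if_neg h, if_neg h]
          ring
      simp only [a3]
      rw [Finset.mul_sum, Finset.mul_sum, ← Finset.sum_add_distrib]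
      refine Finset.sum_congr rfl fun m _ => ?_
      ring
    rw [a1, a2]
    ring
  rw [e4, e3]
  linarith

/-- **the inequality for functions of class `C¹`** -/
theorem main_C1 {g g' : ℝ → ℝ} (hd : ∀ t, HasDerivAt g (g' t) t) (hc : Continuous g')
    (ho : ∀ t, g (t + Real.pi) = -g t) {N K L : ℕ} {H : ℕ → ℕ → ℝ}
    (hH : ∀ v : ℕ → ℝ, 0 ≤ ∑ k ∈ Finset.range (K + 1), ∑ l ∈ Finset.range (K + 1), H k l * (v k * v l))
    {eta : ℝ} (he : 0 ≤ eta) {p P : ℕ → ℝ} (hp : ∀ m, |p (m + 1)| ≤ P (m + 1))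
    (hT : p 0 + ∑ m ∈ Finset.range L, P (m + 1) ≤ eta * (2 * N + 1) ^ 2) :
    Blk N K L H eta p P 1 (ca g) + Blk N K L H eta p P (-1) (sa g) + (mn fun t => g t ^ 2 * pf L p t)
      ≤ (mn fun t => g' t ^ 2 * hf K H t) + eta * (mn fun t => g' t ^ 2) := by
  have h1 := part_h hd hc ho hH N
  have h2 := part_p hd hc ho he hp hT
  unfold Blk
  linarith

/-! ### Lipschitz functions -/

/-- the moving average -/
def gs (g : ℝ → ℝ) (d t : ℝ) : ℝ :=
  (2 * d)⁻¹ * ((∫ u in (0 : ℝ)..(t + d), g u) - ∫ u in (0 : ℝ)..(t - d), g u)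

/-- its derivative -/
def gs' (g : ℝ → ℝ) (d t : ℝ) : ℝ := (2 * d)⁻¹ * (g (t + d) - g (t - d))

section

variable {g : ℝ → ℝ} (hL : LipschitzWith 1 g)
include hL

theorem lip_abs (a b : ℝ) : |g a - g b| ≤ |a - b| := by
  have := hL.dist_le_mul a b
  rwa [NNReal.coe_one, one_mul, Real.dist_eq, Real.dist_eq] at this

theorem gs_deriv (d t : ℝ) : HasDerivAt (gs g d) (gs' g d t) t := by
  have hc := hL.continuous
  have hG : ∀ s, HasDerivAt (fun s => ∫ u in (0 : ℝ)..s, g u) (g s) s := fun s =>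
    intervalIntegral.integral_hasDerivAt_right (hc.intervalIntegrable _ _)
      (hc.stronglyMeasurableAtFilter _ _) hc.continuousAt
  have h1 : HasDerivAt (fun t => ∫ u in (0 : ℝ)..(t + d), g u) (g (t + d)) t := (hG (t + d)).comp_add_const t d
  have h2 : HasDerivAt (fun t => ∫ u in (0 : ℝ)..(t - d), g u) (g (t - d)) t := (hG (t - d)).comp_sub_const t d
  exact (h1.sub h2).const_mul _

theorem gs'_cont (d : ℝ) : Continuous (gs' g d) := by
  have hc := hL.continuous
  unfold gs'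
  fun_prop

theorem gs'_abs {d : ℝ} (hd : 0 < d) (t : ℝ) : |gs' g d t| ≤ 1 := by
  unfold gs'
  rw [abs_mul, abs_of_pos (by positivity : 0 < (2 * d)⁻¹)]
  have h := lip_abs hL (t + d) (t - d)
  have e : |t + d - (t - d)| = 2 * d := by
    rw [show t + d - (t - d) = 2 * d by ring, abs_of_pos (by positivity)]
  rw [e] at h
  calc (2 * d)⁻¹ * |g (t + d) - g (t - d)| ≤ (2 * d)⁻¹ * (2 * d) := mul_le_mul_of_nonneg_left h (by positivity)
    _ = 1 := inv_mul_cancel₀ (by positivity)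

theorem gs_eq (d t : ℝ) : gs g d t = (2 * d)⁻¹ * ∫ u in (t - d)..(t + d), g u := by
  have hc := hL.continuous
  unfold gs
  rw [intervalIntegral.integral_interval_sub_left (hc.intervalIntegrable _ _) (hc.intervalIntegrable _ _)]

theorem gs_near {d : ℝ} (hd : 0 < d) (t : ℝ) : |gs g d t - g t| ≤ d := by
  have hc := hL.continuous
  have e : gs g d t - g t = (2 * d)⁻¹ * ∫ u in (t - d)..(t + d), (g u - g t) := by
    rw [gs_eq hL, intervalIntegral.integral_sub (hc.intervalIntegrable _ _) intervalIntegrable_const,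
      intervalIntegral.integral_const, smul_eq_mul]
    field_simp
    ring
  rw [e, abs_mul, abs_of_pos (by positivity : 0 < (2 * d)⁻¹)]
  have h := intervalIntegral.norm_integral_le_of_norm_le_const (a := t - d) (b := t + d) (C := d)
    (f := fun u => g u - g t) fun u hu => by
      rw [Real.norm_eq_abs]
      refine (lip_abs hL u t).trans ?_
      rw [Set.uIoc_of_le (by linarith)] at hu
      rw [abs_le]
      constructor <;> linarith [hu.1, hu.2]
  rw [Real.norm_eq_abs, show t + d - (t - d) = 2 * d by ring, abs_of_pos (by positivity : 0 < 2 * d)] at h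
  calc (2 * d)⁻¹ * |∫ u in (t - d)..(t + d), (g u - g t)| ≤ (2 * d)⁻¹ * (d * (2 * d)) :=
      mul_le_mul_of_nonneg_left h (by positivity)
    _ = d := by field_simp

theorem gs_odd (ho : ∀ t, g (t + Real.pi) = -g t) (d t : ℝ) : gs g d (t + Real.pi) = -gs g d t := by
  rw [gs_eq hL, gs_eq hL]
  have h := intervalIntegral.integral_comp_add_right (a := t - d) (b := t + d) g Real.pi
  rw [show t - d + Real.pi = t + Real.pi - d by ring, show t + d + Real.pi = t + Real.pi + d by ring] at h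
  rw [← h]
  simp only [ho]
  rw [intervalIntegral.integral_neg]
  ring

end

theorem hf_nonneg {K : ℕ} {H : ℕ → ℕ → ℝ}
    (hH : ∀ v : ℕ → ℝ, 0 ≤ ∑ k ∈ Finset.range (K + 1), ∑ l ∈ Finset.range (K + 1), H k l * (v k * v l))
    (t : ℝ) : 0 ≤ hf K H t := by
  have h1 := hH fun k => Real.cos (2 * k * t)
  have h2 := hH fun k => Real.sin (2 * k * t)
  have e : hf K H t = (∑ k ∈ Finset.range (K + 1), ∑ l ∈ Finset.range (K + 1),
      H k l * (Real.cos (2 * k * t) * Real.cos (2 * l * t)))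
      + ∑ k ∈ Finset.range (K + 1), ∑ l ∈ Finset.range (K + 1),
      H k l * (Real.sin (2 * k * t) * Real.sin (2 * l * t)) := by
    unfold hf
    rw [← Finset.sum_add_distrib]
    refine Finset.sum_congr rfl fun k _ => ?_
    rw [← Finset.sum_add_distrib]
    refine Finset.sum_congr rfl fun l _ => ?_
    rw [← mul_add]
    congr 1
    rw [← Real.cos_sub]
    congr 1
    push_cast
    ring
  rw [e]
  exact add_nonneg h1 h2

theorem hf_cont (K : ℕ) (H : ℕ → ℕ → ℝ) : Continuous (hf K H) := by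
  unfold hf
  fun_prop

theorem pf_cont (L : ℕ) (p : ℕ → ℝ) : Continuous (pf L p) := by
  unfold pf
  fun_prop

/-- the mean of `h` -/
theorem mn_hf (K : ℕ) (H : ℕ → ℕ → ℝ) : mn (hf K H) = ∑ k ∈ Finset.range (K + 1), H k k := by
  have h0 : ∀ j : ℤ, (∫ t in (0 : ℝ)..(2 * Real.pi), Real.cos (2 * (j : ℝ) * t)) = if j = 0 then 2 * Real.pi else 0 := by
    intro j
    by_cases hj : j = 0
    · rw [if_pos hj, hj]
      simp
    · rw [if_neg hj]
      have hj' : (2 * (j : ℝ)) ≠ 0 := mul_ne_zero two_ne_zero (by exact_mod_cast hj)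
      rw [intervalIntegral.integral_comp_mul_left (fun t => Real.cos t) hj', integral_cos]
      have e : Real.sin (2 * (j : ℝ) * (2 * Real.pi)) = 0 := by
        have := Real.sin_int_mul_pi (4 * j)
        rw [← this]
        congr 1
        push_cast
        ring
      rw [e]
      simp
  have c0 : ∀ k l : ℕ, Continuous fun t : ℝ => H k l * Real.cos (2 * ((k : ℤ) - l : ℤ) * t) := fun k l => by
    fun_prop
  have i0 : ∀ k l : ℕ, IntervalIntegrable (fun t : ℝ => H k l * Real.cos (2 * ((k : ℤ) - l : ℤ) * t)) volume 0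
      (2 * Real.pi) := fun k l => (c0 k l).intervalIntegrable _ _
  have i1 : ∀ k : ℕ, IntervalIntegrable (fun t : ℝ => ∑ l ∈ Finset.range (K + 1),
      H k l * Real.cos (2 * ((k : ℤ) - l : ℤ) * t)) volume 0 (2 * Real.pi) := fun k =>
    (continuous_finsetSum _ fun l _ => c0 k l).intervalIntegrable _ _
  unfold mn hf
  rw [intervalIntegral.integral_finsetSum fun k _ => i1 k, Finset.mul_sum]
  refine Finset.sum_congr rfl fun k hk => ?_
  rw [intervalIntegral.integral_finsetSum fun l _ => i0 k l, Finset.mul_sum]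
  have hpi := Real.pi_ne_zero
  rw [Finset.sum_eq_single k]
  · rw [intervalIntegral.integral_const_mul, h0, if_pos (sub_self _)]
    field_simp
  · intro l _ hl
    rw [intervalIntegral.integral_const_mul, h0, if_neg fun h => hl (by
      have : (k : ℤ) = l := sub_eq_zero.1 h
      exact_mod_cast this.symm)]
    ring
  · exact fun h => absurd hk h

theorem mn_mono {F G : ℝ → ℝ} (hF : Continuous F) (hG : Continuous G) (h : ∀ t, F t ≤ G t) : mn F ≤ mn G := by
  unfold mn
  refine mul_le_mul_of_nonneg_left ?_ (by positivity)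
  exact intervalIntegral.integral_mono_on (by positivity) (hF.intervalIntegrable _ _) (hG.intervalIntegrable _ _)
    fun t _ => h t

theorem mn_one : mn (fun _ => 1) = 1 := by
  unfold mn
  rw [intervalIntegral.integral_const, smul_eq_mul]
  have := Real.pi_ne_zero
  field_simp
  ring

/-- limits under the integral -/
theorem int_lim {F : ℝ → ℝ → ℝ} {F0 : ℝ → ℝ} {C : ℝ} (hF : ∀ d, Continuous (F d))
    (hb : ∀ᶠ d in 𝓝[>] (0 : ℝ), ∀ t ∈ Set.uIoc (0 : ℝ) (2 * Real.pi), |F d t| ≤ C)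
    (hl : ∀ t, Tendsto (fun d => F d t) (𝓝[>] 0) (𝓝 (F0 t))) :
    Tendsto (fun d => ∫ t in (0 : ℝ)..(2 * Real.pi), F d t) (𝓝[>] 0) (𝓝 (∫ t in (0 : ℝ)..(2 * Real.pi), F0 t)) := by
  refine intervalIntegral.tendsto_integral_filter_of_dominated_convergence (fun _ => C)
    (Eventually.of_forall fun d => (hF d).aestronglyMeasurable) ?_ intervalIntegrable_const
    (Eventually.of_forall fun t _ => hl t)
  filter_upwards [hb] with d hd
  exact Eventually.of_forall fun t ht => by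
    rw [Real.norm_eq_abs]
    exact hd t ht

theorem Blk_cont (N K L : ℕ) (H : ℕ → ℕ → ℝ) (eta : ℝ) (p P : ℕ → ℝ) (e : ℝ) :
    Continuous (Blk N K L H eta p P e) := by
  have hcf : ∀ s, Continuous fun x : ℕ → ℝ => cf e x s := fun s => by
    unfold cf
    exact continuous_const.mul (continuous_apply _)
  have hwf : ∀ s, Continuous fun x : ℕ → ℝ => wf e x s := fun s => by
    unfold wf
    exact (continuous_const.mul (hcf s)).div_const _
  unfold Blk BlkH BlkP
  refine Continuous.add ?_ (Continuous.sub ?_ ?_)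
  · exact continuous_finsetSum _ fun r _ => continuous_finsetSum _ fun k _ => continuous_finsetSum _ fun l _ =>
      continuous_const.mul ((hwf _).mul (hwf _))
  · exact continuous_const.mul (continuous_finsetSum _ fun s _ => continuous_const.mul ((hcf s).pow 2))
  · refine continuous_const.mul (continuous_finsetSum _ fun m _ => continuous_const.mul
      (continuous_finsetSum _ fun s _ => ?_))
    split_ifs
    · exact (hcf _).mul (hcf _)
    · exact continuous_const

/-- **the inequality for odd `1`-Lipschitz functions** -/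
theorem main_lip {g : ℝ → ℝ} (hL : LipschitzWith 1 g) (ho : ∀ t, g (t + Real.pi) = -g t) {N K L : ℕ}
    {H : ℕ → ℕ → ℝ}
    (hH : ∀ v : ℕ → ℝ, 0 ≤ ∑ k ∈ Finset.range (K + 1), ∑ l ∈ Finset.range (K + 1), H k l * (v k * v l))
    {eta : ℝ} (he : 0 ≤ eta) {p P : ℕ → ℝ} (hp : ∀ m, |p (m + 1)| ≤ P (m + 1))
    (hT : p 0 + ∑ m ∈ Finset.range L, P (m + 1) ≤ eta * (2 * N + 1) ^ 2) :
    Blk N K L H eta p P 1 (ca g) + Blk N K L H eta p P (-1) (sa g) + (mn fun t => g t ^ 2 * pf L p t)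
      ≤ (∑ k ∈ Finset.range (K + 1), H k k) + eta := by
  have hg := hL.continuous
  have hgs : ∀ d, Continuous (gs g d) := fun d =>
    continuous_iff_continuousAt.2 fun t => (gs_deriv hL d t).continuousAt
  have hlim : ∀ t, Tendsto (fun d => gs g d t) (𝓝[>] 0) (𝓝 (g t)) := by
    intro t
    rw [tendsto_iff_norm_sub_tendsto_zero]
    have h1 : Tendsto (fun d : ℝ => d) (𝓝[>] 0) (𝓝 0) := tendsto_id.mono_left nhdsWithin_le_nhds
    refine squeeze_zero' (Eventually.of_forall fun d => norm_nonneg _) ?_ h1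
    filter_upwards [self_mem_nhdsWithin] with d hd
    rw [Real.norm_eq_abs]
    exact gs_near hL hd t
  obtain ⟨C0, hC0⟩ := isCompact_Icc.exists_bound_of_continuousOn
    (s := Icc (0 : ℝ) (2 * Real.pi)) (f := g) hg.continuousOn
  have hbd : ∀ᶠ d in 𝓝[>] (0 : ℝ), ∀ t ∈ Set.uIoc (0 : ℝ) (2 * Real.pi), |gs g d t| ≤ C0 + 1 := by
    have h1 : ∀ᶠ d in 𝓝[>] (0 : ℝ), d < 1 :=
      (tendsto_id.mono_left nhdsWithin_le_nhds).eventually (gt_mem_nhds one_pos)
    filter_upwards [self_mem_nhdsWithin, h1] with d hd hd1 t ht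
    have h2 := gs_near hL (show 0 < d from hd) t
    rw [Set.uIoc_of_le (by positivity)] at ht
    have h3 := hC0 t ⟨ht.1.le, ht.2⟩
    rw [Real.norm_eq_abs] at h3
    have h4 : |gs g d t| ≤ |gs g d t - g t| + |g t| := by
      have := abs_add_le (gs g d t - g t) (g t)
      rwa [sub_add_cancel] at this
    linarith
  have hC00 : 0 ≤ C0 := (norm_nonneg _).trans (hC0 0 ⟨le_rfl, by positivity⟩)
  have lca : ∀ i, Tendsto (fun d => ca (gs g d) i) (𝓝[>] 0) (𝓝 (ca g i)) := by
    intro i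
    unfold ca
    refine (int_lim (F := fun d t => gs g d t * Real.cos ((2 * i + 1) * t)) (C := C0 + 1)
      (fun d => (hgs d).mul (by fun_prop)) ?_ fun t => (hlim t).mul_const _).const_mul _
    filter_upwards [hbd] with d hd t ht
    rw [abs_mul]
    calc |gs g d t| * |Real.cos ((2 * i + 1) * t)| ≤ (C0 + 1) * 1 :=
        mul_le_mul (hd t ht) (Real.abs_cos_le_one _) (abs_nonneg _) (by linarith)
      _ = C0 + 1 := mul_one _
  have lsa : ∀ i, Tendsto (fun d => sa (gs g d) i) (𝓝[>] 0) (𝓝 (sa g i)) := by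
    intro i
    unfold sa
    refine (int_lim (F := fun d t => gs g d t * Real.sin ((2 * i + 1) * t)) (C := C0 + 1)
      (fun d => (hgs d).mul (by fun_prop)) ?_ fun t => (hlim t).mul_const _).const_mul _
    filter_upwards [hbd] with d hd t ht
    rw [abs_mul]
    calc |gs g d t| * |Real.sin ((2 * i + 1) * t)| ≤ (C0 + 1) * 1 :=
        mul_le_mul (hd t ht) (Real.abs_sin_le_one _) (abs_nonneg _) (by linarith)
      _ = C0 + 1 := mul_one _
  obtain ⟨C1, hC1⟩ := isCompact_Icc.exists_bound_of_continuousOn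
    (s := Icc (0 : ℝ) (2 * Real.pi)) (f := pf L p) (pf_cont L p).continuousOn
  have lp : Tendsto (fun d => mn fun t => gs g d t ^ 2 * pf L p t) (𝓝[>] 0) (𝓝 (mn fun t => g t ^ 2 * pf L p t)) := by
    unfold mn
    refine (int_lim (F := fun d t => gs g d t ^ 2 * pf L p t) (C := (C0 + 1) ^ 2 * C1)
      (fun d => ((hgs d).pow 2).mul (pf_cont L p)) ?_ fun t => ((hlim t).pow 2).mul_const _).const_mul _
    filter_upwards [hbd] with d hd t ht
    rw [abs_mul, abs_pow]
    have ht' := ht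
    rw [Set.uIoc_of_le (by positivity)] at ht'
    have h3 := hC1 t ⟨ht'.1.le, ht'.2⟩
    rw [Real.norm_eq_abs] at h3
    exact mul_le_mul (pow_le_pow_left₀ (abs_nonneg _) (hd t ht) 2) h3 (abs_nonneg _) (by positivity)
  have lB1 : Tendsto (fun d => Blk N K L H eta p P 1 (ca (gs g d))) (𝓝[>] 0) (𝓝 (Blk N K L H eta p P 1 (ca g))) :=
    ((Blk_cont N K L H eta p P 1).tendsto _).comp (tendsto_pi_nhds.2 lca)
  have lB2 : Tendsto (fun d => Blk N K L H eta p P (-1) (sa (gs g d))) (𝓝[>] 0)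
      (𝓝 (Blk N K L H eta p P (-1) (sa g))) :=
    ((Blk_cont N K L H eta p P (-1)).tendsto _).comp (tendsto_pi_nhds.2 lsa)
  refine le_of_tendsto ((lB1.add lB2).add lp) ?_
  filter_upwards [self_mem_nhdsWithin] with d hd
  have hd0 : 0 < d := hd
  have h1 := main_C1 (gs_deriv hL d) (gs'_cont hL d) (gs_odd hL ho d) (N := N) hH he hp hT
  refine h1.trans ?_
  have hsq : ∀ t, gs' g d t ^ 2 ≤ 1 := fun t => by
    rw [← sq_abs]
    exact pow_le_one₀ (abs_nonneg _) (gs'_abs hL hd0 t)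
  have c1 := gs'_cont hL d
  have h2 : (mn fun t => gs' g d t ^ 2 * hf K H t) ≤ mn (hf K H) :=
    mn_mono ((c1.pow 2).mul (hf_cont K H)) (hf_cont K H) fun t =>
      mul_le_of_le_one_left (hf_nonneg hH t) (hsq t)
  have h3 : (mn fun t => gs' g d t ^ 2) ≤ 1 := by
    rw [← mn_one]
    exact mn_mono (c1.pow 2) continuous_const hsq
  rw [mn_hf] at h2
  have h4 := mul_le_mul_of_nonneg_left h3 he
  linarith

end Pool.Agent.FPX.QST
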