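import Mathlib
import Pool.Agent.FPX.QST

/-
QSA (helper66): the inequality of QST for an arbitrary Lipschitz function `g` with `g (t + π) = -g t`, with the mean
of `(h + η) (g')²` on the right, and the mean of the product with an odd trigonometric polynomial.
-/

set_option autoImplicit false

open MeasureTheory Set Filter Topology
open scoped NNReal

noncomputable section

namespace Pool.Agent.FPX.QST

section

variable {g : ℝ → ℝ} {C : ℝ≥0} (hL : LipschitzWith C g)
include hL

theorem ac_abs (a b : ℝ) : |g a - g b| ≤ C * |a - b| := by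
  have := hL.dist_le_mul a b
  rwa [Real.dist_eq, Real.dist_eq] at this

theorem ac_deriv (d t : ℝ) : HasDerivAt (gs g d) (gs' g d t) t := by
  have hc := hL.continuous
  have hG : ∀ s, HasDerivAt (fun s => ∫ u in (0 : ℝ)..s, g u) (g s) s := fun s =>
    intervalIntegral.integral_hasDerivAt_right (hc.intervalIntegrable _ _)
      (hc.stronglyMeasurableAtFilter _ _) hc.continuousAt
  have h1 : HasDerivAt (fun t => ∫ u in (0 : ℝ)..(t + d), g u) (g (t + d)) t := (hG (t + d)).comp_add_const t d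
  have h2 : HasDerivAt (fun t => ∫ u in (0 : ℝ)..(t - d), g u) (g (t - d)) t := (hG (t - d)).comp_sub_const t d
  exact (h1.sub h2).const_mul _

theorem ac_cont (d : ℝ) : Continuous (gs' g d) := by
  have hc := hL.continuous
  unfold gs'
  fun_prop

theorem ac_bd {d : ℝ} (hd : 0 < d) (t : ℝ) : |gs' g d t| ≤ C := by
  unfold gs'
  rw [abs_mul, abs_of_pos (by positivity : 0 < (2 * d)⁻¹)]
  have h := ac_abs hL (t + d) (t - d)
  have e : |t + d - (t - d)| = 2 * d := by
    rw [show t + d - (t - d) = 2 * d by ring, abs_of_pos (by positivity)]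
  rw [e] at h
  calc (2 * d)⁻¹ * |g (t + d) - g (t - d)| ≤ (2 * d)⁻¹ * (C * (2 * d)) :=
      mul_le_mul_of_nonneg_left h (by positivity)
    _ = C := by field_simp

theorem ac_eq (d t : ℝ) : gs g d t = (2 * d)⁻¹ * ∫ u in (t - d)..(t + d), g u := by
  have hc := hL.continuous
  unfold gs
  rw [intervalIntegral.integral_interval_sub_left (hc.intervalIntegrable _ _) (hc.intervalIntegrable _ _)]

theorem ac_near {d : ℝ} (hd : 0 < d) (t : ℝ) : |gs g d t - g t| ≤ C * d := by
  have hc := hL.continuous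
  have e : gs g d t - g t = (2 * d)⁻¹ * ∫ u in (t - d)..(t + d), (g u - g t) := by
    rw [ac_eq hL, intervalIntegral.integral_sub (hc.intervalIntegrable _ _) intervalIntegrable_const,
      intervalIntegral.integral_const, smul_eq_mul]
    field_simp
    ring
  rw [e, abs_mul, abs_of_pos (by positivity : 0 < (2 * d)⁻¹)]
  have h := intervalIntegral.norm_integral_le_of_norm_le_const (a := t - d) (b := t + d) (C := C * d)
    (f := fun u => g u - g t) fun u hu => by
      rw [Real.norm_eq_abs]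
      refine (ac_abs hL u t).trans (mul_le_mul_of_nonneg_left ?_ C.coe_nonneg)
      rw [Set.uIoc_of_le (by linarith)] at hu
      rw [abs_le]
      constructor <;> linarith [hu.1, hu.2]
  rw [Real.norm_eq_abs, show t + d - (t - d) = 2 * d by ring, abs_of_pos (by positivity : 0 < 2 * d)] at h
  calc (2 * d)⁻¹ * |∫ u in (t - d)..(t + d), (g u - g t)| ≤ (2 * d)⁻¹ * (C * d * (2 * d)) :=
      mul_le_mul_of_nonneg_left h (by positivity)
    _ = C * d := by field_simp

theorem ac_odd (ho : ∀ t, g (t + Real.pi) = -g t) (d t : ℝ) : gs g d (t + Real.pi) = -gs g d t := by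
  rw [ac_eq hL, ac_eq hL]
  have h := intervalIntegral.integral_comp_add_right (a := t - d) (b := t + d) g Real.pi
  rw [show t - d + Real.pi = t + Real.pi - d by ring, show t + d + Real.pi = t + Real.pi + d by ring] at h
  rw [← h]
  simp only [ho]
  rw [intervalIntegral.integral_neg]
  ring

omit hL in
/-- convergence of the derivative of the moving average -/
theorem ac_lim {t : ℝ} (ht : DifferentiableAt ℝ g t) :
    Tendsto (fun d => gs' g d t) (𝓝[>] 0) (𝓝 (deriv g t)) := by
  have h := ht.hasDerivAt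
  have h1 : Tendsto (fun d : ℝ => d⁻¹ * (g (t + d) - g t)) (𝓝[>] 0) (𝓝 (deriv g t)) := by
    have := (hasDerivAt_iff_tendsto_slope_zero.1 h)
    refine (this.mono_left (nhdsWithin_mono _ fun x hx => ?_)).congr fun d => ?_
    · exact (ne_of_gt hx)
    · rw [smul_eq_mul]
  have h2 : Tendsto (fun d : ℝ => d⁻¹ * (g t - g (t - d))) (𝓝[>] 0) (𝓝 (deriv g t)) := by
    have h3 := (hasDerivAt_iff_tendsto_slope_zero.1 h)
    have h4 : Tendsto (fun d : ℝ => -d) (𝓝[>] 0) (𝓝[≠] 0) := by
      refine tendsto_nhdsWithin_iff.2 ⟨?_, ?_⟩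
      · have : Tendsto (fun d : ℝ => -d) (𝓝 0) (𝓝 (-0)) := tendsto_id.neg
        rw [neg_zero] at this
        exact this.mono_left nhdsWithin_le_nhds
      · filter_upwards [self_mem_nhdsWithin] with d hd
        exact neg_ne_zero.2 (ne_of_gt hd)
    refine (h3.comp h4).congr fun d => ?_
    simp only [Function.comp, smul_eq_mul]
    rw [← sub_eq_add_neg, inv_neg]
    ring
  have h5 := ((h1.add h2).mul_const (1 / 2 : ℝ))
  have e : (deriv g t + deriv g t) * (1 / 2) = deriv g t := by ring
  rw [e] at h5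
  refine h5.congr fun d => ?_
  unfold gs'
  rw [mul_inv]
  ring

end

/-- **the inequality for Lipschitz functions, with the derivative on the right** -/
theorem main_ac {g : ℝ → ℝ} {C : ℝ≥0} (hL : LipschitzWith C g) (ho : ∀ t, g (t + Real.pi) = -g t) {N K L : ℕ}
    {H : ℕ → ℕ → ℝ}
    (hH : ∀ v : ℕ → ℝ, 0 ≤ ∑ k ∈ Finset.range (K + 1), ∑ l ∈ Finset.range (K + 1), H k l * (v k * v l))
    {eta : ℝ} (he : 0 ≤ eta) {p P : ℕ → ℝ} (hp : ∀ m, |p (m + 1)| ≤ P (m + 1))
    (hT : p 0 + ∑ m ∈ Finset.range L, P (m + 1) ≤ eta * (2 * N + 1) ^ 2) :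
    Blk N K L H eta p P 1 (ca g) + Blk N K L H eta p P (-1) (sa g) + (mn fun t => g t ^ 2 * pf L p t)
      ≤ (mn fun t => deriv g t ^ 2 * hf K H t) + eta * (mn fun t => deriv g t ^ 2) := by
  have hg := hL.continuous
  have hgs : ∀ d, Continuous (gs g d) := fun d =>
    continuous_iff_continuousAt.2 fun t => (ac_deriv hL d t).continuousAt
  have hlim : ∀ t, Tendsto (fun d => gs g d t) (𝓝[>] 0) (𝓝 (g t)) := by
    intro t
    rw [tendsto_iff_norm_sub_tendsto_zero]
    have h1 : Tendsto (fun d : ℝ => (C : ℝ) * d) (𝓝[>] 0) (𝓝 (C * 0)) :=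
      (tendsto_id.mono_left nhdsWithin_le_nhds).const_mul _
    rw [mul_zero] at h1
    refine squeeze_zero' (Eventually.of_forall fun d => norm_nonneg _) ?_ h1
    filter_upwards [self_mem_nhdsWithin] with d hd
    rw [Real.norm_eq_abs]
    exact ac_near hL hd t
  obtain ⟨C0, hC0⟩ := isCompact_Icc.exists_bound_of_continuousOn
    (s := Icc (0 : ℝ) (2 * Real.pi)) (f := g) hg.continuousOn
  have hbd : ∀ᶠ d in 𝓝[>] (0 : ℝ), ∀ t ∈ Set.uIoc (0 : ℝ) (2 * Real.pi), |gs g d t| ≤ C0 + C := by
    have h1 : ∀ᶠ d in 𝓝[>] (0 : ℝ), d < 1 :=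
      (tendsto_id.mono_left nhdsWithin_le_nhds).eventually (gt_mem_nhds one_pos)
    filter_upwards [self_mem_nhdsWithin, h1] with d hd hd1 t ht
    have hd0 : 0 < d := hd
    have h2 := ac_near hL hd0 t
    rw [Set.uIoc_of_le (by positivity)] at ht
    have h3 := hC0 t ⟨ht.1.le, ht.2⟩
    rw [Real.norm_eq_abs] at h3
    have h4 : |gs g d t| ≤ |gs g d t - g t| + |g t| := by
      have := abs_add_le (gs g d t - g t) (g t)
      rwa [sub_add_cancel] at this
    have h5 : (C : ℝ) * d ≤ C * 1 := mul_le_mul_of_nonneg_left hd1.le C.coe_nonneg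
    linarith
  have hC00 : 0 ≤ C0 := (norm_nonneg _).trans (hC0 0 ⟨le_rfl, by positivity⟩)
  have hCC : (0 : ℝ) ≤ C0 + C := add_nonneg hC00 C.coe_nonneg
  have lca : ∀ i, Tendsto (fun d => ca (gs g d) i) (𝓝[>] 0) (𝓝 (ca g i)) := by
    intro i
    unfold ca
    refine (int_lim (F := fun d t => gs g d t * Real.cos ((2 * i + 1) * t)) (C := C0 + C)
      (fun d => (hgs d).mul (by fun_prop)) ?_ fun t => (hlim t).mul_const _).const_mul _
    filter_upwards [hbd] with d hd t ht
    rw [abs_mul]
    calc |gs g d t| * |Real.cos ((2 * i + 1) * t)| ≤ (C0 + C) * 1 :=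
        mul_le_mul (hd t ht) (Real.abs_cos_le_one _) (abs_nonneg _) hCC
      _ = C0 + C := mul_one _
  have lsa : ∀ i, Tendsto (fun d => sa (gs g d) i) (𝓝[>] 0) (𝓝 (sa g i)) := by
    intro i
    unfold sa
    refine (int_lim (F := fun d t => gs g d t * Real.sin ((2 * i + 1) * t)) (C := C0 + C)
      (fun d => (hgs d).mul (by fun_prop)) ?_ fun t => (hlim t).mul_const _).const_mul _
    filter_upwards [hbd] with d hd t ht
    rw [abs_mul]
    calc |gs g d t| * |Real.sin ((2 * i + 1) * t)| ≤ (C0 + C) * 1 :=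
        mul_le_mul (hd t ht) (Real.abs_sin_le_one _) (abs_nonneg _) hCC
      _ = C0 + C := mul_one _
  obtain ⟨C1, hC1⟩ := isCompact_Icc.exists_bound_of_continuousOn
    (s := Icc (0 : ℝ) (2 * Real.pi)) (f := pf L p) (pf_cont L p).continuousOn
  have lp : Tendsto (fun d => mn fun t => gs g d t ^ 2 * pf L p t) (𝓝[>] 0) (𝓝 (mn fun t => g t ^ 2 * pf L p t)) := by
    unfold mn
    refine (int_lim (F := fun d t => gs g d t ^ 2 * pf L p t) (C := (C0 + C) ^ 2 * C1)
      (fun d => ((hgs d).pow 2).mul (pf_cont L p)) ?_ fun t => ((hlim t).pow 2).mul_const _).const_mul _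
    filter_upwards [hbd] with d hd t ht
    rw [abs_mul, abs_pow]
    have ht' := ht
    rw [Set.uIoc_of_le (by positivity)] at ht'
    have h3 := hC1 t ⟨ht'.1.le, ht'.2⟩
    rw [Real.norm_eq_abs] at h3
    exact mul_le_mul (pow_le_pow_left₀ (abs_nonneg _) (hd t ht) 2) h3 (abs_nonneg _) (by positivity)
  have lB1 : Tendsto (fun d => Blk N K L H eta p P 1 (ca (gs g d))) (𝓝[>] 0) (𝓝 (Blk N K L H eta p P 1 (ca g))) :=
    ((Blk_cont N K L H eta p P 1).tendsto _).comp (tendsto_pi_nhds.2 lca)
  have lB2 : Tendsto (fun d => Blk N K L H eta p P (-1) (sa (gs g d))) (𝓝[>] 0)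
      (𝓝 (Blk N K L H eta p P (-1) (sa g))) :=
    ((Blk_cont N K L H eta p P (-1)).tendsto _).comp (tendsto_pi_nhds.2 lsa)
  -- the right side
  have rlim : ∀ {q : ℝ → ℝ}, Continuous q → Tendsto (fun d => mn fun t => gs' g d t ^ 2 * q t) (𝓝[>] 0)
      (𝓝 (mn fun t => deriv g t ^ 2 * q t)) := by
    intro q hq
    obtain ⟨C2, hC2⟩ := isCompact_Icc.exists_bound_of_continuousOn
      (s := Icc (0 : ℝ) (2 * Real.pi)) (f := q) hq.continuousOn
    unfold mn
    refine Tendsto.const_mul _ ?_
    refine intervalIntegral.tendsto_integral_filter_of_dominated_convergence (fun _ => (C : ℝ) ^ 2 * C2)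
      (Eventually.of_forall fun d => (((ac_cont hL d).pow 2).mul hq).aestronglyMeasurable) ?_
      intervalIntegrable_const ?_
    · filter_upwards [self_mem_nhdsWithin] with d hd
      have hd0 : 0 < d := hd
      refine Eventually.of_forall fun t ht => ?_
      rw [Set.uIoc_of_le (by positivity)] at ht
      have h3 := hC2 t ⟨ht.1.le, ht.2⟩
      rw [Real.norm_eq_abs] at h3 ⊢
      rw [abs_mul, abs_pow]
      exact mul_le_mul (pow_le_pow_left₀ (abs_nonneg _) (ac_bd hL hd0 t) 2) h3 (abs_nonneg _) (by positivity)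
    · filter_upwards [hL.ae_differentiableAt_real] with t ht _
      exact ((ac_lim ht).pow 2).mul_const _
  have r1 := rlim (hf_cont K H)
  have r2 := rlim (continuous_const (y := (1 : ℝ)))
  simp only [mul_one] at r2
  refine le_of_tendsto_of_tendsto ((lB1.add lB2).add lp) (r1.add (r2.const_mul eta)) ?_
  exact Eventually.of_forall fun d => main_C1 (ac_deriv hL d) (ac_cont hL d) (ac_odd hL ho d) (N := N) hH he hp hT

/-- an odd trigonometric polynomial -/
def of (n : ℕ) (u w : ℕ → ℝ) (t : ℝ) : ℝ :=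
  ∑ i ∈ Finset.range n, (u i * Real.cos ((2 * i + 1) * t) + w i * Real.sin ((2 * i + 1) * t))

/-- the mean of the product with an odd trigonometric polynomial -/
theorem mn_lin {g : ℝ → ℝ} (hg : Continuous g) (n : ℕ) (u w : ℕ → ℝ) :
    (mn fun t => g t * of n u w t) = ∑ i ∈ Finset.range n, (u i * ca g i + w i * sa g i) / 2 := by
  have c1 : ∀ i : ℕ, Continuous fun t : ℝ => g t * Real.cos ((2 * i + 1) * t) := fun i => hg.mul (by fun_prop)
  have c2 : ∀ i : ℕ, Continuous fun t : ℝ => g t * Real.sin ((2 * i + 1) * t) := fun i => hg.mul (by fun_prop)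
  have e1 : ∀ t, g t * of n u w t = ∑ i ∈ Finset.range n, (u i * (g t * Real.cos ((2 * i + 1) * t))
      + w i * (g t * Real.sin ((2 * i + 1) * t))) := by
    intro t
    unfold of
    rw [Finset.mul_sum]
    exact Finset.sum_congr rfl fun i _ => by ring
  have i1 : ∀ i : ℕ, IntervalIntegrable (fun t : ℝ => u i * (g t * Real.cos ((2 * i + 1) * t))) volume 0
      (2 * Real.pi) := fun i => ((c1 i).const_mul (u i)).intervalIntegrable _ _
  have i2 : ∀ i : ℕ, IntervalIntegrable (fun t : ℝ => w i * (g t * Real.sin ((2 * i + 1) * t))) volume 0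
      (2 * Real.pi) := fun i => ((c2 i).const_mul (w i)).intervalIntegrable _ _
  have i3 : ∀ i : ℕ, IntervalIntegrable (fun t : ℝ => u i * (g t * Real.cos ((2 * i + 1) * t))
      + w i * (g t * Real.sin ((2 * i + 1) * t))) volume 0 (2 * Real.pi) := fun i => (i1 i).add (i2 i)
  unfold mn
  simp only [e1]
  rw [intervalIntegral.integral_finsetSum fun i _ => i3 i, Finset.mul_sum]
  refine Finset.sum_congr rfl fun i _ => ?_
  rw [intervalIntegral.integral_add (i1 i) (i2 i), intervalIntegral.integral_const_mul,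
    intervalIntegral.integral_const_mul]
  unfold ca sa
  rw [mul_inv]
  ring

end Pool.Agent.FPX.QST
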