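import Pool.Agent.FPX.ALX0
import Pool.Agent.FPX.QSA

/-
ALX (helper44): states in the visual angle. `St s X` : `X` is Lipschitz, `X (a + π) = -X a`,
`-s ≤ (1 + s sin a) X'`, `(1 - s sin a) X' ≤ s` a.e. and the first harmonic of `X` vanishes.
Shor multipliers, products of the slopes at two points, and the weighted Wirtinger inequality of QST.
-/

open MeasureTheory Set Filter Topology Real
open scoped NNReal
open Pool.Agent.FPX.QST (mn ca sa hf pf Blk of)

noncomputable section

namespace Pool.Agent.FPX.ALX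

/-- the state class in the visual angle -/
structure St (s : ℝ) (X : ℝ → ℝ) : Prop where
  lip : ∃ K : ℝ≥0, LipschitzWith K X
  anti : ∀ a, X (a + π) = -X a
  up : ∀ᵐ a, (1 - s * sin a) * deriv X a ≤ s
  lo : ∀ᵐ a, -s ≤ (1 + s * sin a) * deriv X a
  mc : ∫ a in (0 : ℝ)..(2 * π), X a * cos a = 0
  ms : ∫ a in (0 : ℝ)..(2 * π), X a * sin a = 0

/-- the two nonnegative slopes -/
def Np (s : ℝ) (X : ℝ → ℝ) (a : ℝ) : ℝ := s - (1 - s * sin a) * deriv X a

def Nm (s : ℝ) (X : ℝ → ℝ) (a : ℝ) : ℝ := s + (1 + s * sin a) * deriv X a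

variable {s : ℝ} {X : ℝ → ℝ}

theorem St.cont (h : St s X) : Continuous X := h.lip.choose_spec.continuous

theorem St.per (h : St s X) (a : ℝ) : X (a + 2 * π) = X a := by
  rw [show a + 2 * π = a + π + π by ring, h.anti, h.anti, neg_neg]

theorem St.ca0 (h : St s X) : ca X 0 = 0 := by
  unfold ca
  have := h.mc
  simp only [CharP.cast_eq_zero, mul_zero, zero_add, one_mul]
  rw [this, mul_zero]

theorem St.sa0 (h : St s X) : sa X 0 = 0 := by
  unfold sa
  have := h.ms
  simp only [CharP.cast_eq_zero, mul_zero, zero_add, one_mul]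
  rw [this, mul_zero]

theorem St.np (h : St s X) : ∀ᵐ a, 0 ≤ Np s X a := by
  filter_upwards [h.up] with a ha
  unfold Np
  linarith

theorem St.nm (h : St s X) : ∀ᵐ a, 0 ≤ Nm s X a := by
  filter_upwards [h.lo] with a ha
  unfold Nm
  linarith

/-- the class grows with `s` -/
theorem St.mono {s' : ℝ} (h : St s X) (h0 : 0 ≤ s) (hs : s ≤ s') (h1 : s' ≤ 1) : St s' X := by
  refine ⟨h.lip, h.anti, ?_, ?_, h.mc, h.ms⟩
  · rcases eq_or_lt_of_le (hs.trans h1) with e | e
    · have : s' = s := by linarith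
      rw [this]
      exact h.up
    filter_upwards [h.up] with a ha
    have hb := abs_le.1 (abs_sin_le_one a)
    have p : 0 < 1 - s * sin a := by nlinarith
    have p' : 0 ≤ 1 - s' * sin a := by nlinarith
    have k : deriv X a ≤ s / (1 - s * sin a) := by
      rw [le_div_iff₀ p]
      linarith
    calc (1 - s' * sin a) * deriv X a ≤ (1 - s' * sin a) * (s / (1 - s * sin a)) :=
          mul_le_mul_of_nonneg_left k p'
      _ ≤ s' := by
        rw [mul_div_assoc', div_le_iff₀ p]
        nlinarith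
  · rcases eq_or_lt_of_le (hs.trans h1) with e | e
    · have : s' = s := by linarith
      rw [this]
      exact h.lo
    filter_upwards [h.lo] with a ha
    have hb := abs_le.1 (abs_sin_le_one a)
    have p : 0 < 1 + s * sin a := by nlinarith
    have p' : 0 ≤ 1 + s' * sin a := by nlinarith
    have k : -(s / (1 + s * sin a)) ≤ deriv X a := by
      rw [← neg_div, div_le_iff₀ p]
      linarith
    calc -s' ≤ (1 + s' * sin a) * (-(s / (1 + s * sin a))) := by
          rw [mul_neg, neg_le_neg_iff, mul_div_assoc', div_le_iff₀ p]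
          nlinarith
      _ ≤ (1 + s' * sin a) * deriv X a := mul_le_mul_of_nonneg_left k p'

/-- the pointwise quadratic inequality (`|f'| ≤ 1`) -/
theorem St.shor_ae (h : St s X) :
    ∀ᵐ a, D2 s a * deriv X a ^ 2 ≤ s ^ 2 + 2 * s ^ 2 * sin a * deriv X a := by
  filter_upwards [h.np, h.nm] with a h1 h2
  have h3 := mul_nonneg h1 h2
  unfold Np Nm at h3
  unfold D2
  nlinarith

theorem St.abs_deriv (h : St s X) : ∃ K : ℝ, 0 ≤ K ∧ ∀ a, |deriv X a| ≤ K := by
  obtain ⟨K, hK⟩ := h.lip
  exact ⟨K, K.coe_nonneg, fun a => by simpa using norm_deriv_le_of_lipschitz (x₀ := a) hK⟩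

theorem meas_deriv : Measurable (deriv X) := measurable_deriv X

/-- products of `X'` with continuous functions are integrable -/
theorem St.int1 (h : St s X) {φ : ℝ → ℝ} (hφ : Continuous φ) (a b : ℝ) :
    IntervalIntegrable (fun t => φ t * deriv X t) volume a b := by
  obtain ⟨K, hK⟩ := h.lip
  have : AbsolutelyContinuousOnInterval X a b :=
    (hK.lipschitzOnWith (s := uIcc a b)).absolutelyContinuousOnInterval
  exact this.intervalIntegrable_deriv.continuousOn_mul hφ.continuousOn

theorem St.int2 (h : St s X) {φ : ℝ → ℝ} (hφ : Continuous φ) (a b : ℝ) :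
    IntervalIntegrable (fun t => deriv X t ^ 2 * φ t) volume a b := by
  obtain ⟨K, hK0, hK⟩ := h.abs_deriv
  have h1 := h.int1 hφ a b
  have hb : ∀ t, ‖deriv X t‖ ≤ K := fun t => by simpa using hK t
  have h2 : IntervalIntegrable (fun t => deriv X t * (φ t * deriv X t)) volume a b :=
    ⟨h1.1.bdd_mul meas_deriv.aestronglyMeasurable (Eventually.of_forall hb),
      h1.2.bdd_mul meas_deriv.aestronglyMeasurable (Eventually.of_forall hb)⟩
  refine h2.congr (fun t _ => ?_)
  ring

/-- **the Shor multiplier** -/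
theorem St.shor (h : St s X) {w : ℝ → ℝ} (hw : Continuous w) (h0 : ∀ a, 0 ≤ w a) :
    (mn fun a => deriv X a ^ 2 * (w a * D2 s a))
      ≤ s ^ 2 * mn w + 2 * s ^ 2 * (mn fun a => w a * sin a * deriv X a) := by
  unfold mn
  have hD : Continuous (D2 s) := cont_D2
  have i1 : IntervalIntegrable (fun t => deriv X t ^ 2 * (w t * D2 s t)) volume 0 (2 * π) :=
    h.int2 (hw.mul hD) 0 (2 * π)
  have i0 : IntervalIntegrable (fun t => s ^ 2 * w t) volume 0 (2 * π) := (hw.const_mul (s ^ 2)).intervalIntegrable _ _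
  have i3 : IntervalIntegrable (fun t => 2 * s ^ 2 * (w t * sin t * deriv X t)) volume 0 (2 * π) :=
    (h.int1 (hw.mul continuous_sin) 0 (2 * π)).const_mul (2 * s ^ 2)
  have i2 : IntervalIntegrable (fun t => s ^ 2 * w t + 2 * s ^ 2 * (w t * sin t * deriv X t)) volume 0 (2 * π) :=
    i0.add i3
  have hle : ∫ t in (0 : ℝ)..(2 * π), deriv X t ^ 2 * (w t * D2 s t) ≤
      ∫ t in (0 : ℝ)..(2 * π), (s ^ 2 * w t + 2 * s ^ 2 * (w t * sin t * deriv X t)) := by
    refine intervalIntegral.integral_mono_ae (by positivity) i1 i2 ?_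
    filter_upwards [h.shor_ae] with a ha
    have := mul_le_mul_of_nonneg_left ha (h0 a)
    nlinarith
  rw [intervalIntegral.integral_add i0 i3,
    intervalIntegral.integral_const_mul, intervalIntegral.integral_const_mul] at hle
  have hpi : 0 ≤ (2 * π)⁻¹ := by positivity
  have := mul_le_mul_of_nonneg_left hle hpi
  linarith

/-- integration by parts -/
theorem St.ibp (h : St s X) {φ φ' : ℝ → ℝ} (hφ : ∀ t, HasDerivAt φ (φ' t) t) (hc : Continuous φ')
    (hp : φ (2 * π) = φ 0) : (mn fun a => φ a * deriv X a) = -(mn fun a => X a * φ' a) := by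
  obtain ⟨K, hK⟩ := h.lip
  have a1 : AbsolutelyContinuousOnInterval X 0 (2 * π) :=
    (hK.lipschitzOnWith (s := uIcc 0 (2 * π))).absolutelyContinuousOnInterval
  have h1 : deriv φ = φ' := by
    funext t
    exact (hφ t).deriv
  have h2 : ContDiff ℝ 1 φ := by
    rw [contDiff_one_iff_deriv]
    exact ⟨fun t => (hφ t).differentiableAt, by rw [h1]; exact hc⟩
  have a2 : AbsolutelyContinuousOnInterval φ 0 (2 * π) := h2.contDiffOn.absolutelyContinuousOnInterval
  have h3 := a2.integral_mul_deriv_eq_deriv_mul a1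
  have hX : X (2 * π) = X 0 := by
    have := h.per 0
    rwa [zero_add] at this
  rw [h1, hp, hX, sub_self, zero_sub] at h3
  unfold mn
  rw [h3, mul_neg]
  congr 2
  refine intervalIntegral.integral_congr fun t _ => ?_
  ring

/-- **products of slopes at two points**: a nonnegative kernel of finite rank -/
theorem pair {ι : Type*} (I : Finset ι) {φ ψ : ι → ℝ → ℝ} {P Q : ℝ → ℝ} {a b : ℝ} (hab : a ≤ b)
    (hφ : ∀ i ∈ I, IntervalIntegrable (fun t => φ i t * P t) volume a b)
    (hψ : ∀ i ∈ I, IntervalIntegrable (fun t => ψ i t * Q t) volume a b)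
    (hP : ∀ᵐ t, 0 ≤ P t) (hQ : ∀ᵐ t, 0 ≤ Q t)
    (hK : ∀ x ∈ Icc a b, ∀ y ∈ Icc a b, 0 ≤ ∑ i ∈ I, φ i x * ψ i y) :
    0 ≤ ∑ i ∈ I, (∫ t in a..b, φ i t * P t) * ∫ t in a..b, ψ i t * Q t := by
  have e1 : ∀ x ∈ Icc a b, 0 ≤ ∑ i ∈ I, φ i x * ∫ t in a..b, ψ i t * Q t := by
    intro x hx
    have e2 : ∑ i ∈ I, φ i x * ∫ t in a..b, ψ i t * Q t = ∫ t in a..b, ∑ i ∈ I, φ i x * (ψ i t * Q t) := by
      rw [intervalIntegral.integral_finsetSum fun i hi => (hψ i hi).const_mul _]
      exact Finset.sum_congr rfl fun i _ => (intervalIntegral.integral_const_mul _ _).symm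
    rw [e2, intervalIntegral.integral_of_le hab]
    refine setIntegral_nonneg_of_ae_restrict ?_
    filter_upwards [ae_restrict_mem measurableSet_Ioc, ae_restrict_of_ae hQ] with t ht hq
    have := hK x hx t (Ioc_subset_Icc_self ht)
    have e3 : ∑ i ∈ I, φ i x * (ψ i t * Q t) = (∑ i ∈ I, φ i x * ψ i t) * Q t := by
      rw [Finset.sum_mul]
      exact Finset.sum_congr rfl fun i _ => by ring
    rw [e3]
    exact mul_nonneg this hq
  have e4 : ∑ i ∈ I, (∫ t in a..b, φ i t * P t) * ∫ t in a..b, ψ i t * Q t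
      = ∫ t in a..b, ∑ i ∈ I, (∫ u in a..b, ψ i u * Q u) * (φ i t * P t) := by
    rw [intervalIntegral.integral_finsetSum fun i hi => (hφ i hi).const_mul _]
    refine Finset.sum_congr rfl fun i _ => ?_
    rw [intervalIntegral.integral_const_mul, mul_comm]
  rw [e4, intervalIntegral.integral_of_le hab]
  refine setIntegral_nonneg_of_ae_restrict ?_
  filter_upwards [ae_restrict_mem measurableSet_Ioc, ae_restrict_of_ae hP] with t ht hp
  have := e1 t (Ioc_subset_Icc_self ht)
  have e5 : ∑ i ∈ I, (∫ u in a..b, ψ i u * Q u) * (φ i t * P t)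
      = (∑ i ∈ I, φ i t * ∫ u in a..b, ψ i u * Q u) * P t := by
    rw [Finset.sum_mul]
    exact Finset.sum_congr rfl fun i _ => by ring
  rw [e5]
  exact mul_nonneg this hp

/-! ### the weighted Wirtinger inequality in the visual angle -/

theorem mn_add {F G : ℝ → ℝ} (hF : IntervalIntegrable F volume 0 (2 * π))
    (hG : IntervalIntegrable G volume 0 (2 * π)) : (mn fun a => F a + G a) = mn F + mn G := by
  unfold mn
  rw [intervalIntegral.integral_add hF hG, mul_add]

theorem mn_sub {F G : ℝ → ℝ} (hF : IntervalIntegrable F volume 0 (2 * π))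
    (hG : IntervalIntegrable G volume 0 (2 * π)) : (mn fun a => F a - G a) = mn F - mn G := by
  unfold mn
  rw [intervalIntegral.integral_sub hF hG, mul_sub]

theorem mn_mul (c : ℝ) (F : ℝ → ℝ) : (mn fun a => c * F a) = c * mn F := by
  unfold mn
  rw [intervalIntegral.integral_const_mul]
  ring

/-- **QST's inequality for the class `St`**: the weight of `X'²` is `D2 w`, `w ≥ 0` -/
theorem St.wirt (h : St s X) {N K L : ℕ} {H : ℕ → ℕ → ℝ}
    (hH : ∀ v : ℕ → ℝ, 0 ≤ ∑ k ∈ Finset.range (K + 1), ∑ l ∈ Finset.range (K + 1), H k l * (v k * v l))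
    {eta : ℝ} (he : 0 ≤ eta) {p P : ℕ → ℝ} (hp : ∀ m, |p (m + 1)| ≤ P (m + 1))
    (hT : p 0 + ∑ m ∈ Finset.range L, P (m + 1) ≤ eta * (2 * N + 1) ^ 2)
    {w w' : ℝ → ℝ} (hw : ∀ a, HasDerivAt w (w' a) a) (hc : Continuous w') (hper : w (2 * π) = w 0)
    (h0 : ∀ a, 0 ≤ w a) (hwD : ∀ a, hf K H a + eta = w a * D2 s a) :
    Blk N K L H eta p P 1 (ca X) + Blk N K L H eta p P (-1) (sa X) + (mn fun t => X t ^ 2 * pf L p t)
      ≤ s ^ 2 * mn w - 2 * s ^ 2 * mn fun a => X a * (w' a * sin a + w a * cos a) := by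
  obtain ⟨C, hC⟩ := h.lip
  have h1 := QST.main_ac hC h.anti (N := N) hH he hp hT
  have cw : Continuous w := continuous_iff_continuousAt.2 fun a => (hw a).continuousAt
  have h2 := h.shor cw h0
  have h3 : (mn fun a => w a * sin a * deriv X a) = -(mn fun a => X a * (w' a * sin a + w a * cos a)) :=
    h.ibp (φ := fun a => w a * sin a) (fun a => (hw a).mul (hasDerivAt_sin a))
      ((hc.mul continuous_sin).add (cw.mul continuous_cos)) (by simp [hper])
  have h4 : (mn fun t => deriv X t ^ 2 * hf K H t) + eta * (mn fun t => deriv X t ^ 2)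
      = mn fun a => deriv X a ^ 2 * (w a * D2 s a) := by
    have i1 : IntervalIntegrable (fun t => deriv X t ^ 2 * hf K H t) volume 0 (2 * π) :=
      h.int2 (QST.hf_cont K H) _ _
    have i2 : IntervalIntegrable (fun t => eta * deriv X t ^ 2) volume 0 (2 * π) := by
      have := (h.int2 (φ := fun _ => (1 : ℝ)) continuous_const 0 (2 * π)).const_mul eta
      simpa using this
    rw [← mn_mul, ← mn_add i1 i2]
    congr 1
    funext a
    rw [← hwD]
    ring
  rw [h4] at h1
  rw [h3] at h2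
  linarith

/-! ### moments of the slopes -/

/-- `mean (X cos (m a))`, `mean (X sin (m a))` -/
def Xc (X : ℝ → ℝ) (m : ℝ) : ℝ := mn fun a => X a * cos (m * a)

def Xs (X : ℝ → ℝ) (m : ℝ) : ℝ := mn fun a => X a * sin (m * a)

theorem Xc_odd (X : ℝ → ℝ) (i : ℕ) : Xc X (2 * i + 1) = ca X i / 2 := by
  unfold Xc mn ca
  rw [mul_inv]
  ring

theorem Xs_odd (X : ℝ → ℝ) (i : ℕ) : Xs X (2 * i + 1) = sa X i / 2 := by
  unfold Xs mn sa
  rw [mul_inv]
  ring

theorem mn_anti {F : ℝ → ℝ} (hF : Continuous F) (h : ∀ a, F (a + π) = -F a) : mn F = 0 := by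
  unfold mn
  have e1 : ∫ a in (0 : ℝ)..(2 * π), F a = (∫ a in (0 : ℝ)..π, F a) + ∫ a in π..(2 * π), F a :=
    (intervalIntegral.integral_add_adjacent_intervals (hF.intervalIntegrable _ _)
      (hF.intervalIntegrable _ _)).symm
  have e2 : ∫ a in π..(2 * π), F a = ∫ a in (0 : ℝ)..π, F (a + π) := by
    rw [intervalIntegral.integral_comp_add_right]
    congr 1 <;> ring
  rw [e1, e2]
  simp only [h, intervalIntegral.integral_neg]
  ring

theorem Xc_even (h : St s X) (i : ℕ) : Xc X (2 * i) = 0 := by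
  refine mn_anti (h.cont.mul (by fun_prop)) fun a => ?_
  have e : cos (2 * (i : ℝ) * (a + π)) = cos (2 * (i : ℝ) * a) := by
    rw [show 2 * (i : ℝ) * (a + π) = 2 * (i : ℝ) * a + i * (2 * π) by ring, cos_add_nat_mul_two_pi]
  rw [h.anti, e]
  ring

theorem Xs_even (h : St s X) (i : ℕ) : Xs X (2 * i) = 0 := by
  refine mn_anti (h.cont.mul (by fun_prop)) fun a => ?_
  have e : sin (2 * (i : ℝ) * (a + π)) = sin (2 * (i : ℝ) * a) := by
    rw [show 2 * (i : ℝ) * (a + π) = 2 * (i : ℝ) * a + i * (2 * π) by ring, sin_add_nat_mul_two_pi]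
  rw [h.anti, e]
  ring

theorem St.int_np (h : St s X) {φ : ℝ → ℝ} (hφ : Continuous φ) (a b : ℝ) :
    IntervalIntegrable (fun t => φ t * Np s X t) volume a b := by
  have i1 : IntervalIntegrable (fun t => s * φ t) volume a b := (hφ.const_mul s).intervalIntegrable _ _
  have i2 : IntervalIntegrable (fun t => (φ t * (1 - s * sin t)) * deriv X t) volume a b :=
    h.int1 (hφ.mul (by fun_prop)) _ _
  refine (i1.sub i2).congr fun t _ => ?_
  simp only [Np]
  ring

theorem St.int_nm (h : St s X) {φ : ℝ → ℝ} (hφ : Continuous φ) (a b : ℝ) :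
    IntervalIntegrable (fun t => φ t * Nm s X t) volume a b := by
  have i1 : IntervalIntegrable (fun t => s * φ t) volume a b := (hφ.const_mul s).intervalIntegrable _ _
  have i2 : IntervalIntegrable (fun t => (φ t * (1 + s * sin t)) * deriv X t) volume a b :=
    h.int1 (hφ.mul (by fun_prop)) _ _
  refine (i1.add i2).congr fun t _ => ?_
  simp only [Nm]
  ring

/-- mean of `φ N₊` -/
theorem St.mn_np (h : St s X) {φ φ' : ℝ → ℝ} (hφ : ∀ t, HasDerivAt φ (φ' t) t) (hc : Continuous φ')
    (hp : φ (2 * π) = φ 0) : (mn fun a => φ a * Np s X a)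
      = s * mn φ + mn fun a => X a * (φ' a * (1 - s * sin a) - φ a * (s * cos a)) := by
  have cφ : Continuous φ := continuous_iff_continuousAt.2 fun a => (hφ a).continuousAt
  have i1 : IntervalIntegrable (fun t => s * φ t) volume 0 (2 * π) := (cφ.const_mul s).intervalIntegrable _ _
  have i2 : IntervalIntegrable (fun t => (φ t * (1 - s * sin t)) * deriv X t) volume 0 (2 * π) :=
    h.int1 (cφ.mul (by fun_prop)) _ _
  have e1 : (fun a => φ a * Np s X a) = fun a => s * φ a - (φ a * (1 - s * sin a)) * deriv X a := by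
    funext a
    simp only [Np]
    ring
  have e2 : (mn fun a => (φ a * (1 - s * sin a)) * deriv X a)
      = -(mn fun a => X a * (φ' a * (1 - s * sin a) + φ a * (-(s * cos a)))) := by
    refine h.ibp (φ := fun a => φ a * (1 - s * sin a)) (fun a => (hφ a).mul ?_) ?_ (by simp [hp])
    · have := ((hasDerivAt_sin a).const_mul s).const_sub 1
      simpa using this
    · exact (hc.mul (by fun_prop)).add (cφ.mul (by fun_prop))
  rw [e1, mn_sub i1 i2, mn_mul, e2, sub_neg_eq_add]
  congr 2
  funext a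
  ring

/-- mean of `φ N₋` -/
theorem St.mn_nm (h : St s X) {φ φ' : ℝ → ℝ} (hφ : ∀ t, HasDerivAt φ (φ' t) t) (hc : Continuous φ')
    (hp : φ (2 * π) = φ 0) : (mn fun a => φ a * Nm s X a)
      = s * mn φ - mn fun a => X a * (φ' a * (1 + s * sin a) + φ a * (s * cos a)) := by
  have cφ : Continuous φ := continuous_iff_continuousAt.2 fun a => (hφ a).continuousAt
  have i1 : IntervalIntegrable (fun t => s * φ t) volume 0 (2 * π) := (cφ.const_mul s).intervalIntegrable _ _
  have i2 : IntervalIntegrable (fun t => (φ t * (1 + s * sin t)) * deriv X t) volume 0 (2 * π) :=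
    h.int1 (cφ.mul (by fun_prop)) _ _
  have e1 : (fun a => φ a * Nm s X a) = fun a => s * φ a + (φ a * (1 + s * sin a)) * deriv X a := by
    funext a
    simp only [Nm]
    ring
  have e2 : (mn fun a => (φ a * (1 + s * sin a)) * deriv X a)
      = -(mn fun a => X a * (φ' a * (1 + s * sin a) + φ a * (s * cos a))) := by
    refine h.ibp (φ := fun a => φ a * (1 + s * sin a)) (fun a => (hφ a).mul ?_) ?_ (by simp [hp])
    · have := ((hasDerivAt_sin a).const_mul s).const_add 1
      simpa using this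
    · exact (hc.mul (by fun_prop)).add (cφ.mul (by fun_prop))
  rw [e1, mn_add i1 i2, mn_mul, e2, ← sub_eq_add_neg]

theorem mn_cos (j : ℕ) : (mn fun a => cos (j * a)) = if j = 0 then 1 else 0 := by
  unfold mn
  split_ifs with h
  · subst h
    simp only [CharP.cast_eq_zero, zero_mul, cos_zero, intervalIntegral.integral_const, sub_zero, smul_eq_mul,
      mul_one]
    exact inv_mul_cancel₀ (by positivity)
  · have hj : (j : ℝ) ≠ 0 := by exact_mod_cast h
    rw [intervalIntegral.integral_comp_mul_left (fun x => cos x) hj, integral_cos, mul_zero, sin_zero,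
      show (j : ℝ) * (2 * π) = ((2 * j : ℕ) : ℝ) * π by push_cast; ring, sin_nat_mul_pi]
    simp

theorem mn_sin (j : ℕ) : (mn fun a => sin (j * a)) = 0 := by
  unfold mn
  rcases eq_or_ne j 0 with h | h
  · subst h
    simp
  · have hj : (j : ℝ) ≠ 0 := by exact_mod_cast h
    rw [intervalIntegral.integral_comp_mul_left (fun x => sin x) hj, integral_sin, mul_zero, cos_zero,
      show (j : ℝ) * (2 * π) = (j : ℝ) * (2 * π) by rfl, cos_nat_mul_two_pi]
    simp

theorem cos_m (j a : ℝ) : cos ((j - 1) * a) = cos (j * a) * cos a + sin (j * a) * sin a := by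
  rw [sub_mul, one_mul, cos_sub]

theorem cos_p (j a : ℝ) : cos ((j + 1) * a) = cos (j * a) * cos a - sin (j * a) * sin a := by
  rw [add_mul, one_mul, cos_add]

theorem sin_m (j a : ℝ) : sin ((j - 1) * a) = sin (j * a) * cos a - cos (j * a) * sin a := by
  rw [sub_mul, one_mul, sin_sub]

theorem sin_p (j a : ℝ) : sin ((j + 1) * a) = sin (j * a) * cos a + cos (j * a) * sin a := by
  rw [add_mul, one_mul, sin_add]

theorem der_cos (j a : ℝ) : HasDerivAt (fun a => cos (j * a)) (-(j * sin (j * a))) a := by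
  have := ((hasDerivAt_id a).const_mul j).cos
  refine this.congr_deriv ?_
  simp only [id]
  ring

theorem der_sin (j a : ℝ) : HasDerivAt (fun a => sin (j * a)) (j * cos (j * a)) a := by
  have := ((hasDerivAt_id a).const_mul j).sin
  refine this.congr_deriv ?_
  simp only [id]
  ring

theorem per_cos (j : ℕ) : cos ((j : ℝ) * (2 * π)) = cos ((j : ℝ) * 0) := by
  rw [cos_nat_mul_two_pi, mul_zero, cos_zero]

theorem per_sin (j : ℕ) : sin ((j : ℝ) * (2 * π)) = sin ((j : ℝ) * 0) := by
  rw [show (j : ℝ) * (2 * π) = ((2 * j : ℕ) : ℝ) * π by push_cast; ring, sin_nat_mul_pi, mul_zero, sin_zero]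

theorem St.icos (h : St s X) (m c : ℝ) : IntervalIntegrable (fun a => c * (X a * cos (m * a))) volume 0 (2 * π) :=
  ((h.cont.mul (by fun_prop)).const_mul c).intervalIntegrable _ _

theorem St.isin (h : St s X) (m c : ℝ) : IntervalIntegrable (fun a => c * (X a * sin (m * a))) volume 0 (2 * π) :=
  ((h.cont.mul (by fun_prop)).const_mul c).intervalIntegrable _ _

theorem St.np_cos (h : St s X) (j : ℕ) : (mn fun a => cos (j * a) * Np s X a)
    = s * (if j = 0 then 1 else 0) - j * Xs X j + s / 2 * ((j - 1) * Xc X (j - 1) - (j + 1) * Xc X (j + 1)) := by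
  rw [h.mn_np (der_cos j) (by fun_prop) (per_cos j), mn_cos]
  have e : (fun a => X a * (-((j : ℝ) * sin (j * a)) * (1 - s * sin a) - cos (j * a) * (s * cos a)))
      = fun a => (-j * (X a * sin (j * a)) + s / 2 * (j - 1) * (X a * cos ((j - 1) * a)))
        - s / 2 * (j + 1) * (X a * cos ((j + 1) * a)) := by
    funext a
    rw [cos_m, cos_p]
    ring
  rw [e, mn_sub ((h.isin _ _).add (h.icos _ _)) (h.icos _ _), mn_add (h.isin _ _) (h.icos _ _), mn_mul, mn_mul,
    mn_mul]
  unfold Xc Xs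
  ring

theorem St.np_sin (h : St s X) (j : ℕ) : (mn fun a => sin (j * a) * Np s X a)
    = j * Xc X j + s / 2 * ((j - 1) * Xs X (j - 1) - (j + 1) * Xs X (j + 1)) := by
  rw [h.mn_np (der_sin j) (by fun_prop) (per_sin j), mn_sin]
  have e : (fun a => X a * ((j : ℝ) * cos (j * a) * (1 - s * sin a) - sin (j * a) * (s * cos a)))
      = fun a => (j * (X a * cos (j * a)) + s / 2 * (j - 1) * (X a * sin ((j - 1) * a)))
        - s / 2 * (j + 1) * (X a * sin ((j + 1) * a)) := by
    funext a
    rw [sin_m, sin_p]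
    ring
  rw [e, mn_sub ((h.icos _ _).add (h.isin _ _)) (h.isin _ _), mn_add (h.icos _ _) (h.isin _ _), mn_mul, mn_mul,
    mn_mul]
  unfold Xc Xs
  ring

theorem St.nm_cos (h : St s X) (j : ℕ) : (mn fun a => cos (j * a) * Nm s X a)
    = s * (if j = 0 then 1 else 0) + j * Xs X j + s / 2 * ((j - 1) * Xc X (j - 1) - (j + 1) * Xc X (j + 1)) := by
  rw [h.mn_nm (der_cos j) (by fun_prop) (per_cos j), mn_cos]
  have e : (fun a => X a * (-((j : ℝ) * sin (j * a)) * (1 + s * sin a) + cos (j * a) * (s * cos a)))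
      = fun a => (-j * (X a * sin (j * a)) + -(s / 2 * (j - 1)) * (X a * cos ((j - 1) * a)))
        - -(s / 2 * (j + 1)) * (X a * cos ((j + 1) * a)) := by
    funext a
    rw [cos_m, cos_p]
    ring
  rw [e, mn_sub ((h.isin _ _).add (h.icos _ _)) (h.icos _ _), mn_add (h.isin _ _) (h.icos _ _), mn_mul, mn_mul,
    mn_mul]
  unfold Xc Xs
  ring

theorem St.nm_sin (h : St s X) (j : ℕ) : (mn fun a => sin (j * a) * Nm s X a)
    = -(j * Xc X j) + s / 2 * ((j - 1) * Xs X (j - 1) - (j + 1) * Xs X (j + 1)) := by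
  rw [h.mn_nm (der_sin j) (by fun_prop) (per_sin j), mn_sin]
  have e : (fun a => X a * ((j : ℝ) * cos (j * a) * (1 + s * sin a) + sin (j * a) * (s * cos a)))
      = fun a => (j * (X a * cos (j * a)) + -(s / 2 * (j - 1)) * (X a * sin ((j - 1) * a)))
        - -(s / 2 * (j + 1)) * (X a * sin ((j + 1) * a)) := by
    funext a
    rw [sin_m, sin_p]
    ring
  rw [e, mn_sub ((h.icos _ _).add (h.isin _ _)) (h.isin _ _), mn_add (h.icos _ _) (h.isin _ _), mn_mul, mn_mul,
    mn_mul]
  unfold Xc Xs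
  ring

/-- the zeroth moment -/
theorem St.np_zero (h : St s X) : mn (Np s X) = s := by
  have := h.np_cos 0
  have e1 : Xc X ((0 : ℕ) - 1) = 0 := by
    have : Xc X ((0 : ℕ) - 1) = Xc X 1 := by
      unfold Xc
      congr 1
      funext a
      rw [show (((0 : ℕ) : ℝ) - 1) * a = -(1 * a) by push_cast; ring, cos_neg]
    rw [this]
    have h2 := Xc_odd X 0
    rw [h.ca0] at h2
    simpa using h2
  have e2 : Xc X ((0 : ℕ) + 1) = 0 := by
    have h2 := Xc_odd X 0
    rw [h.ca0] at h2
    simpa using h2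
  rw [e1, e2] at this
  simpa using this

end Pool.Agent.FPX.ALX
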