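import Mathlib

/-
ALX0 (helper44): the visual angle as variable. For a point at distance `s ∈ [0, 1)` from the centre of
the Klein disc the boundary parameter is `t = tA s a`, `a` the visual angle:
`cos t = cos a / √D`, `sin t = c sin a / √D`, `D = 1 - s² sin² a`, `dt = c da / D`, `c = √(1 - s²)`.
-/

open MeasureTheory Set Filter Topology Real
open scoped NNReal

noncomputable section

namespace Pool.Agent.FPX.ALX

/-- the height of the point -/
def cs (s : ℝ) : ℝ := √(1 - s ^ 2)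

/-- `D = 1 - s² sin² a` -/
def D2 (s a : ℝ) : ℝ := 1 - s ^ 2 * sin a ^ 2

/-- the auxiliary denominator -/
def qA (s a : ℝ) : ℝ := cos a ^ 2 + cs s * sin a ^ 2

/-- the boundary parameter of the visual angle `a` -/
def tA (s a : ℝ) : ℝ := a + arctan ((cs s - 1) * (sin a * cos a) / qA s a)

variable {s : ℝ}

theorem cs_sq (h0 : 0 ≤ s) (h1 : s < 1) : cs s ^ 2 = 1 - s ^ 2 := sq_sqrt (by nlinarith)

theorem cs_pos (h0 : 0 ≤ s) (h1 : s < 1) : 0 < cs s := sqrt_pos.2 (by nlinarith)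

theorem cs_le : cs s ≤ 1 := by
  unfold cs
  calc √(1 - s ^ 2) ≤ √1 := sqrt_le_sqrt (by nlinarith [sq_nonneg s])
    _ = 1 := sqrt_one

theorem D2_ge (h0 : 0 ≤ s) (h1 : s < 1) (a : ℝ) : cs s ^ 2 ≤ D2 s a := by
  rw [cs_sq h0 h1]
  unfold D2
  nlinarith [sin_sq_le_one a, sq_nonneg s, sin_sq_add_cos_sq a, mul_nonneg (sq_nonneg s) (sq_nonneg (cos a))]

theorem D2_pos (h0 : 0 ≤ s) (h1 : s < 1) (a : ℝ) : 0 < D2 s a :=
  (pow_pos (cs_pos h0 h1) 2).trans_le (D2_ge h0 h1 a)

theorem D2_eq (h0 : 0 ≤ s) (h1 : s < 1) (a : ℝ) : D2 s a = cos a ^ 2 + cs s ^ 2 * sin a ^ 2 := by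
  rw [cs_sq h0 h1, cos_sq']
  unfold D2
  ring

theorem qA_pos (h0 : 0 ≤ s) (h1 : s < 1) (a : ℝ) : 0 < qA s a := by
  have hc := cs_pos h0 h1
  unfold qA
  rcases eq_or_ne (cos a) 0 with h | h
  · have h2 : sin a ^ 2 = 1 := by
      have := sin_sq_add_cos_sq a
      rw [h] at this
      nlinarith
    rw [h, h2]
    nlinarith
  · have := sq_pos_of_ne_zero h
    have := mul_nonneg hc.le (sq_nonneg (sin a))
    linarith

theorem one_add_sq (h0 : 0 ≤ s) (h1 : s < 1) (a : ℝ) :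
    1 + ((cs s - 1) * (sin a * cos a) / qA s a) ^ 2 = D2 s a / qA s a ^ 2 := by
  have hq := qA_pos h0 h1 a
  have e : D2 s a = qA s a ^ 2 + ((cs s - 1) * (sin a * cos a)) ^ 2 := by
    rw [D2_eq h0 h1]
    unfold qA
    have h := sin_sq_add_cos_sq a
    linear_combination (-(cos a ^ 2 + cs s ^ 2 * sin a ^ 2)) * h
  rw [e]
  field_simp

theorem sqrt_one_add (h0 : 0 ≤ s) (h1 : s < 1) (a : ℝ) :
    √(1 + ((cs s - 1) * (sin a * cos a) / qA s a) ^ 2) = √(D2 s a) / qA s a := by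
  rw [one_add_sq h0 h1, sqrt_div (D2_pos h0 h1 a).le, sqrt_sq (qA_pos h0 h1 a).le]

theorem cos_tA (h0 : 0 ≤ s) (h1 : s < 1) (a : ℝ) : cos (tA s a) = cos a / √(D2 s a) := by
  have hq := qA_pos h0 h1 a
  have hD := sqrt_pos.2 (D2_pos h0 h1 a)
  unfold tA
  rw [cos_add, cos_arctan, sin_arctan, sqrt_one_add h0 h1]
  have h := sin_sq_add_cos_sq a
  field_simp
  unfold qA
  linear_combination (cos a) * h

theorem sin_tA (h0 : 0 ≤ s) (h1 : s < 1) (a : ℝ) : sin (tA s a) = cs s * sin a / √(D2 s a) := by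
  have hq := qA_pos h0 h1 a
  have hD := sqrt_pos.2 (D2_pos h0 h1 a)
  unfold tA
  rw [sin_add, cos_arctan, sin_arctan, sqrt_one_add h0 h1]
  have h := sin_sq_add_cos_sq a
  field_simp
  unfold qA
  linear_combination (cs s * sin a) * h

theorem der_tA (h0 : 0 ≤ s) (h1 : s < 1) (a : ℝ) : HasDerivAt (tA s) (cs s / D2 s a) a := by
  have hq := qA_pos h0 h1 a
  have hD := D2_pos h0 h1 a
  have d1 : HasDerivAt (fun a => (cs s - 1) * (sin a * cos a))
      ((cs s - 1) * (cos a * cos a + sin a * (-sin a))) a :=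
    ((hasDerivAt_sin a).mul (hasDerivAt_cos a)).const_mul _
  have d2 : HasDerivAt (qA s) (2 * cos a ^ (2 - 1) * (-sin a) + cs s * (2 * sin a ^ (2 - 1) * cos a)) a := by
    have e1 := (hasDerivAt_cos a).pow 2
    have e2 := ((hasDerivAt_sin a).pow 2).const_mul (cs s)
    exact e1.add e2
  have d3 := (d1.div d2 hq.ne').arctan
  have d4 := (hasDerivAt_id a).add d3
  refine d4.congr_deriv ?_
  have h2 := one_add_sq h0 h1 a
  have h := sin_sq_add_cos_sq a
  have key : ((cs s - 1) * (cos a * cos a + sin a * (-sin a))) * qA s a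
      - (cs s - 1) * (sin a * cos a) * (2 * cos a ^ (2 - 1) * (-sin a) + cs s * (2 * sin a ^ (2 - 1) * cos a))
      = (cs s - 1) * (cos a ^ 2 - cs s * sin a ^ 2) := by
    unfold qA
    linear_combination ((cs s - 1) * (cos a ^ 2 - cs s * sin a ^ 2)) * h
  simp only [Pi.div_apply]
  rw [h2, key]
  have e := D2_eq h0 h1 a
  have e5 : (cs s - 1) * (cos a ^ 2 - cs s * sin a ^ 2) = cs s - D2 s a := by
    rw [e]
    linear_combination (cs s) * h
  rw [e5]
  field_simp
  ring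

theorem tA_pi (a : ℝ) : tA s (a + π) = tA s a + π := by
  unfold tA qA
  rw [sin_add_pi, cos_add_pi]
  simp only [neg_mul_neg, even_two, Even.neg_pow]
  ring

theorem tA_zero : tA s 0 = 0 := by
  unfold tA
  simp

theorem tA_two_pi (a : ℝ) : tA s (a + 2 * π) = tA s a + 2 * π := by
  rw [show a + 2 * π = a + π + π by ring, tA_pi, tA_pi]
  ring

theorem D2_pi (a : ℝ) : D2 s (a + π) = D2 s a := by
  unfold D2
  rw [sin_add_pi]
  ring

theorem cont_D2 : Continuous (D2 s) := by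
  unfold D2
  fun_prop

theorem cont_tA (h0 : 0 ≤ s) (h1 : s < 1) : Continuous (tA s) :=
  continuous_iff_continuousAt.2 fun a => (der_tA h0 h1 a).continuousAt

theorem cont_dt (h0 : 0 ≤ s) (h1 : s < 1) : Continuous fun a => cs s / D2 s a :=
  continuous_const.div cont_D2 fun a => (D2_pos h0 h1 a).ne'

/-- **change of variables** -/
theorem int_tA {E : Type*} [NormedAddCommGroup E] [NormedSpace ℝ E] (h0 : 0 ≤ s) (h1 : s < 1) {G : ℝ → E}
    (hG : Continuous G) :
    ∫ a in (0 : ℝ)..(2 * π), (cs s / D2 s a) • G (tA s a) = ∫ t in (0 : ℝ)..(2 * π), G t := by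
  have h := intervalIntegral.integral_deriv_smul_comp (a := 0) (b := 2 * π) (f := tA s)
    (f' := fun a => cs s / D2 s a) (g := G) (fun a _ => der_tA h0 h1 a) (cont_dt h0 h1).continuousOn hG
  simp only [Function.comp_apply] at h
  rw [h, tA_zero]
  have := tA_two_pi (s := s) 0
  rw [zero_add, tA_zero, zero_add] at this
  rw [this]

/-! ### the state -/

/-- `p = s cos t` as a function of the visual angle -/
theorem one_sub_p (h0 : 0 ≤ s) (h1 : s < 1) (a : ℝ) : 1 - (s * cos (tA s a)) ^ 2 = cs s ^ 2 / D2 s a := by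
  have hD := D2_pos h0 h1 a
  rw [cos_tA h0 h1, mul_div_assoc', div_pow, sq_sqrt hD.le, eq_div_iff hD.ne', sub_mul, one_mul,
    div_mul_cancel₀ _ hD.ne', cs_sq h0 h1]
  unfold D2
  linear_combination (-s ^ 2) * sin_sq_add_cos_sq a

theorem sqrt_p (h0 : 0 ≤ s) (h1 : s < 1) (a : ℝ) :
    √(1 - (s * cos (tA s a)) ^ 2) = cs s / √(D2 s a) := by
  rw [one_sub_p h0 h1, sqrt_div' _ (D2_pos h0 h1 a).le, sqrt_sq (cs_pos h0 h1).le]

/-- `arcsin (s cos t)` as a function of the visual angle -/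
def FA (s a : ℝ) : ℝ := arcsin (s * cos (tA s a))

theorem der_FA (h0 : 0 ≤ s) (h1 : s < 1) (a : ℝ) : HasDerivAt (FA s) (-(s * cs s * sin a / D2 s a)) a := by
  have hD := D2_pos h0 h1 a
  have hD' := sqrt_pos.2 hD
  have hc := cs_pos h0 h1
  have hp : 0 < 1 - (s * cos (tA s a)) ^ 2 := by
    rw [one_sub_p h0 h1]
    positivity
  have n1 : s * cos (tA s a) ≠ -1 := by
    intro h
    rw [h] at hp
    norm_num at hp
  have n2 : s * cos (tA s a) ≠ 1 := by
    intro h
    rw [h] at hp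
    norm_num at hp
  have d1 := ((der_tA h0 h1 a).cos).const_mul s
  have d2 := (hasDerivAt_arcsin n1 n2).comp a d1
  refine d2.congr_deriv ?_
  rw [sqrt_p h0 h1, sin_tA h0 h1]
  have e : √(D2 s a) * √(D2 s a) = D2 s a := mul_self_sqrt hD.le
  field_simp

/-- the state in the visual angle: `x = T (f - f^Y)` -/
def Xa (s : ℝ) (f : ℝ → ℝ) (a : ℝ) : ℝ := s / cs s * (f (tA s a) - FA s a)

variable {f : ℝ → ℝ}

theorem tA_abs (h0 : 0 ≤ s) (h1 : s < 1) (a b : ℝ) : |tA s a - tA s b| ≤ 1 / cs s * |a - b| := by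
  have hc := cs_pos h0 h1
  have := Convex.norm_image_sub_le_of_norm_hasDerivWithin_le (f := tA s) (f' := fun a => cs s / D2 s a)
    (C := 1 / cs s) (s := univ) (x := b) (y := a) (fun x _ => (der_tA h0 h1 x).hasDerivWithinAt)
    (fun x _ => ?_) convex_univ (mem_univ _) (mem_univ _)
  · simpa [Real.norm_eq_abs] using this
  · have hD := D2_pos h0 h1 x
    rw [Real.norm_eq_abs, abs_of_pos (div_pos hc hD), div_le_div_iff₀ hD hc]
    have := D2_ge h0 h1 x
    nlinarith

theorem FA_abs (h0 : 0 ≤ s) (h1 : s < 1) (a b : ℝ) : |FA s a - FA s b| ≤ 1 / cs s * |a - b| := by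
  have hc := cs_pos h0 h1
  have := Convex.norm_image_sub_le_of_norm_hasDerivWithin_le (f := FA s)
    (f' := fun a => -(s * cs s * sin a / D2 s a))
    (C := 1 / cs s) (s := univ) (x := b) (y := a) (fun x _ => (der_FA h0 h1 x).hasDerivWithinAt)
    (fun x _ => ?_) convex_univ (mem_univ _) (mem_univ _)
  · simpa [Real.norm_eq_abs] using this
  · have hD := D2_pos h0 h1 x
    rw [Real.norm_eq_abs, abs_neg, abs_div, abs_of_pos hD, div_le_div_iff₀ hD hc, abs_mul, abs_mul,
      abs_of_nonneg h0, abs_of_pos hc]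
    have h3 := D2_ge h0 h1 x
    have h4 := abs_sin_le_one x
    have h5 : s * cs s * |sin x| ≤ 1 * cs s * 1 := by gcongr
    nlinarith

theorem lip_Xa (h0 : 0 ≤ s) (h1 : s < 1) (hf : LipschitzWith 1 f) : ∃ K : ℝ≥0, LipschitzWith K (Xa s f) := by
  have hc := cs_pos h0 h1
  have hk : 0 ≤ s / cs s * (1 / cs s + 1 / cs s) := by positivity
  refine ⟨Real.toNNReal (s / cs s * (1 / cs s + 1 / cs s)), LipschitzWith.of_dist_le_mul fun a b => ?_⟩
  rw [Real.dist_eq, Real.dist_eq, Real.coe_toNNReal _ hk]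
  unfold Xa
  have e : s / cs s * (f (tA s a) - FA s a) - s / cs s * (f (tA s b) - FA s b)
      = s / cs s * ((f (tA s a) - f (tA s b)) - (FA s a - FA s b)) := by ring
  rw [e, abs_mul, abs_of_nonneg (by positivity : 0 ≤ s / cs s), mul_assoc]
  refine mul_le_mul_of_nonneg_left ?_ (by positivity)
  have h2 := FA_abs h0 h1 a b
  have h3 : |f (tA s a) - f (tA s b)| ≤ |tA s a - tA s b| := by
    have := hf.dist_le_mul (tA s a) (tA s b)
    simpa [Real.dist_eq] using this
  have h4 := tA_abs h0 h1 a b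
  have h5 := abs_sub (f (tA s a) - f (tA s b)) (FA s a - FA s b)
  rw [add_mul]
  linarith

theorem FA_pi (a : ℝ) : FA s (a + π) = -FA s a := by
  unfold FA
  rw [tA_pi, cos_add_pi, mul_neg, arcsin_neg]

theorem Xa_pi (ho : ∀ t, f (t + π) = -f t) (a : ℝ) : Xa s f (a + π) = -Xa s f a := by
  unfold Xa
  rw [tA_pi, ho, FA_pi]
  ring

theorem der_bd (h0 : 0 ≤ s) (h1 : s < 1) (hf : LipschitzWith 1 f) {a d : ℝ}
    (hd : HasDerivAt (fun a => f (tA s a)) d a) : |d| ≤ cs s / D2 s a := by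
  have e1 := (hasDerivAt_iff_tendsto_slope.1 hd).abs
  have e2 := (hasDerivAt_iff_tendsto_slope.1 (der_tA h0 h1 a)).abs
  have h := le_of_tendsto_of_tendsto e1 e2 (Eventually.of_forall fun b => ?_)
  · rwa [abs_of_pos (div_pos (cs_pos h0 h1) (D2_pos h0 h1 a))] at h
  · simp only [slope_def_field, abs_div]
    refine div_le_div_of_nonneg_right ?_ (abs_nonneg _)
    have := hf.dist_le_mul (tA s b) (tA s a)
    simpa [Real.dist_eq] using this

theorem ae_Xa (h0 : 0 ≤ s) (h1 : s < 1) (hf : LipschitzWith 1 f) :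
    ∀ᵐ a, (1 - s * sin a) * deriv (Xa s f) a ≤ s ∧ -s ≤ (1 + s * sin a) * deriv (Xa s f) a := by
  have hc := cs_pos h0 h1
  have hl : ∃ K : ℝ≥0, LipschitzWith K fun a => f (tA s a) := by
    have hk : 0 ≤ 1 / cs s := by positivity
    refine ⟨Real.toNNReal (1 / cs s), LipschitzWith.of_dist_le_mul fun a b => ?_⟩
    rw [Real.dist_eq, Real.dist_eq, Real.coe_toNNReal _ hk]
    refine le_trans ?_ (tA_abs h0 h1 a b)
    have := hf.dist_le_mul (tA s a) (tA s b)
    simpa [Real.dist_eq] using this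
  obtain ⟨K, hK⟩ := hl
  filter_upwards [hK.ae_differentiableAt_real] with a ha
  have hD := D2_pos h0 h1 a
  have hd := ha.hasDerivAt
  set d := deriv (fun a => f (tA s a)) a with hdd
  have hb := abs_le.1 (der_bd h0 h1 hf hd)
  have hX : HasDerivAt (Xa s f) (s / cs s * (d - -(s * cs s * sin a / D2 s a))) a :=
    (hd.sub (der_FA h0 h1 a)).const_mul _
  rw [hX.deriv]
  have hs := abs_le.1 (abs_sin_le_one a)
  have p1 : 0 ≤ 1 - s * sin a := by nlinarith
  have p2 : 0 ≤ 1 + s * sin a := by nlinarith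
  have eD : D2 s a = (1 - s * sin a) * (1 + s * sin a) := by
    unfold D2
    ring
  have i1 : d - -(s * cs s * sin a / D2 s a) ≤ cs s / D2 s a * (1 + s * sin a) := by
    have : cs s / D2 s a * (1 + s * sin a) = cs s / D2 s a + s * cs s * sin a / D2 s a := by ring
    rw [this]
    linarith [hb.2]
  have i2 : -(cs s / D2 s a * (1 - s * sin a)) ≤ d - -(s * cs s * sin a / D2 s a) := by
    have : cs s / D2 s a * (1 - s * sin a) = cs s / D2 s a - s * cs s * sin a / D2 s a := by ring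
    rw [this]
    linarith [hb.1]
  constructor
  · calc (1 - s * sin a) * (s / cs s * (d - -(s * cs s * sin a / D2 s a)))
        ≤ (1 - s * sin a) * (s / cs s * (cs s / D2 s a * (1 + s * sin a))) := by gcongr
      _ = s * (((1 - s * sin a) * (1 + s * sin a)) / D2 s a) * (cs s / cs s) := by ring
      _ = s := by rw [← eD, div_self hD.ne', div_self hc.ne', mul_one, mul_one]
  · calc -s = -(s * (((1 - s * sin a) * (1 + s * sin a)) / D2 s a) * (cs s / cs s)) := by
          rw [← eD, div_self hD.ne', div_self hc.ne', mul_one, mul_one]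
      _ = (1 + s * sin a) * (s / cs s * (-(cs s / D2 s a * (1 - s * sin a)))) := by ring
      _ ≤ (1 + s * sin a) * (s / cs s * (d - -(s * cs s * sin a / D2 s a))) := by gcongr

end Pool.Agent.FPX.ALX
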