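import Mathlib

/-
CQA (helper75): a certificate for Hermitian forms in finitely many moments of a function `k` with
`|k| ≤ 1`. Two moments: `two_moments`. The polarised form `Re (conj (∫ E k̄) ∫ Φ k̄) - Re (conj (∫ E k)
∫ Φ k)` is at most `S * lam`, `S = ∫ |Sg|`, `Sg = (E + Φ) / 2`, `De = (E - Φ) / 2`, with `lam` an upper
bound of the 2x2 form `S, g, G`, `g = ∫ Sg De / |Sg|`, `G = ∫ |De|² / |Sg|` (`form_le`). `omega_le` is
the same for `|A|² - |B|² + 2 q Re (conj A U - conj B W)`, `A = (a - s conj b) / (1 - |s|²)`,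
`B = (b - s conj a) / (1 - |s|²)`, `U = ∫ X E² k̄`, `W = ∫ X E² k`.
-/

open MeasureTheory Set Filter Topology
open scoped ComplexConjugate

noncomputable section

namespace Pool.Agent.FPX.CQA

variable {α : Type*} [MeasurableSpace α] {μ : Measure α}

/-- if `n ≤ t A / 2 + B / (2 t)` for all `t > 0` then `n² ≤ A B` -/
theorem sq_le_of_young {n A B : ℝ} (hn : 0 ≤ n) (hA : 0 ≤ A) (hB : 0 ≤ B)
    (h : ∀ t : ℝ, 0 < t → n ≤ t * A / 2 + B / (2 * t)) : n ^ 2 ≤ A * B := by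
  rcases hn.eq_or_lt with h0 | h0
  · rw [← h0]
    have := mul_nonneg hA hB
    nlinarith
  by_contra hlt
  rw [not_le] at hlt
  rcases hA.eq_or_lt with hA0 | hA0
  · have hB' : 0 < B + n := by linarith
    have h1 := h ((B + n) / n) (div_pos hB' h0)
    rw [← hA0] at h1
    have h2 : B / (2 * ((B + n) / n)) < n := by
      rw [div_lt_iff₀ (by positivity)]
      have : n * (2 * ((B + n) / n)) = 2 * (B + n) := by
        field_simp
      rw [this]
      linarith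
    linarith
  · have h1 := h (n / A) (div_pos h0 hA0)
    have e1 : n / A * A / 2 = n / 2 := by
      field_simp
    have e2 : B / (2 * (n / A)) = A * B / (2 * n) := by
      field_simp
    rw [e1, e2] at h1
    have h2 : A * B / (2 * n) < n / 2 := by
      rw [div_lt_div_iff₀ (by positivity) (by norm_num)]
      nlinarith
    linarith

/-- weighted Cauchy-Schwarz for one moment -/
theorem one_moment {f k : α → ℂ} {w : α → ℝ} (hk : ∀ᵐ x ∂μ, ‖k x‖ ≤ 1) (hf : Integrable f μ)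
    (hw : Integrable w μ) (hw0 : ∀ᵐ x ∂μ, 0 < w x) (hfw : Integrable (fun x => ‖f x‖ ^ 2 / w x) μ) :
    ‖∫ x, f x * conj (k x) ∂μ‖ ^ 2 ≤ (∫ x, ‖f x‖ ^ 2 / w x ∂μ) * ∫ x, w x ∂μ := by
  have hA : 0 ≤ ∫ x, ‖f x‖ ^ 2 / w x ∂μ := by
    refine integral_nonneg_of_ae ?_
    filter_upwards [hw0] with x hx
    show 0 ≤ ‖f x‖ ^ 2 / w x
    positivity
  have hB : 0 ≤ ∫ x, w x ∂μ := by
    refine integral_nonneg_of_ae ?_
    filter_upwards [hw0] with x hx
    exact hx.le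
  have h1 : ‖∫ x, f x * conj (k x) ∂μ‖ ≤ ∫ x, ‖f x‖ ∂μ := by
    refine norm_integral_le_of_norm_le hf.norm ?_
    filter_upwards [hk] with x hx
    rw [norm_mul, RCLike.norm_conj]
    exact mul_le_of_le_one_right (norm_nonneg _) hx
  have h2 : 0 ≤ ∫ x, ‖f x‖ ∂μ := integral_nonneg fun x => norm_nonneg _
  have h3 : (∫ x, ‖f x‖ ∂μ) ^ 2 ≤ (∫ x, ‖f x‖ ^ 2 / w x ∂μ) * ∫ x, w x ∂μ := by
    refine sq_le_of_young h2 hA hB fun t ht => ?_
    have i1 : Integrable (fun x => t / 2 * (‖f x‖ ^ 2 / w x) + 1 / (2 * t) * w x) μ :=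
      (hfw.const_mul _).add (hw.const_mul _)
    have i2 : ∫ x, ‖f x‖ ∂μ ≤ ∫ x, (t / 2 * (‖f x‖ ^ 2 / w x) + 1 / (2 * t) * w x) ∂μ := by
      refine integral_mono_ae hf.norm i1 ?_
      filter_upwards [hw0] with x hx
      show ‖f x‖ ≤ t / 2 * (‖f x‖ ^ 2 / w x) + 1 / (2 * t) * w x
      have e : t / 2 * (‖f x‖ ^ 2 / w x) + 1 / (2 * t) * w x - ‖f x‖
          = (t * ‖f x‖ - w x) ^ 2 / (2 * t * w x) := by
        field_simp
        ring
      have : 0 ≤ (t * ‖f x‖ - w x) ^ 2 / (2 * t * w x) := by positivity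
      linarith
    rw [integral_add (hfw.const_mul _) (hw.const_mul _), integral_const_mul, integral_const_mul] at i2
    refine i2.trans (le_of_eq ?_)
    field_simp
  exact (pow_le_pow_left₀ (norm_nonneg _) h1 2).trans h3

/-- the pointwise expansion of the square of a combination -/
theorem norm_comb (ξ η z w : ℂ) : ‖ξ * z + η * w‖ ^ 2
    = ‖ξ‖ ^ 2 * ‖z‖ ^ 2 + ‖η‖ ^ 2 * ‖w‖ ^ 2 + 2 * (ξ * conj η * (z * conj w)).re := by
  have e : ∀ u : ℂ, ‖u‖ ^ 2 = u.re ^ 2 + u.im ^ 2 := fun u => by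
    rw [← Complex.normSq_eq_norm_sq, Complex.normSq_apply]
    ring
  rw [e, e, e, e, e]
  simp only [Complex.add_re, Complex.mul_re, Complex.add_im, Complex.mul_im, Complex.conj_re,
    Complex.conj_im]
  ring

/-- two moments of a function with `|k| ≤ 1`, weight `|f|` -/
theorem two_moments {f g k : α → ℂ} (hk : ∀ᵐ x ∂μ, ‖k x‖ ≤ 1) (hkm : AEStronglyMeasurable k μ)
    (hf : Integrable f μ) (hg : Integrable g μ) (hf0 : ∀ᵐ x ∂μ, f x ≠ 0)
    (hgf : Integrable (fun x => ‖g x‖ ^ 2 / ‖f x‖) μ)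
    {lam : ℝ} (hlam : ∀ ξ η : ℂ, (∫ x, ‖f x‖ ∂μ) * ‖ξ‖ ^ 2 + (∫ x, ‖g x‖ ^ 2 / ‖f x‖ ∂μ) * ‖η‖ ^ 2
      + 2 * (ξ * conj η * ∫ x, f x * conj (g x) / ‖f x‖ ∂μ).re ≤ lam * (‖ξ‖ ^ 2 + ‖η‖ ^ 2)) :
    ‖∫ x, f x * conj (k x) ∂μ‖ ^ 2 + ‖∫ x, g x * conj (k x) ∂μ‖ ^ 2 ≤ (∫ x, ‖f x‖ ∂μ) * lam := by
  set u := ∫ x, f x * conj (k x) ∂μ with hu
  set v := ∫ x, g x * conj (k x) ∂μ with hv
  set S := ∫ x, ‖f x‖ ∂μ with hS
  have hS0 : 0 ≤ S := integral_nonneg fun x => norm_nonneg _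
  have hkc : AEStronglyMeasurable (fun x => conj (k x)) μ :=
    Complex.continuous_conj.comp_aestronglyMeasurable hkm
  have bnd : ∀ᵐ x ∂μ, ‖(starRingEnd ℂ) (k x)‖ ≤ 1 := by
    filter_upwards [hk] with x hx
    rwa [RCLike.norm_conj]
  have ifk : Integrable (fun x => f x * conj (k x)) μ := by
    have := hf.bdd_mul (c := 1) hkc bnd
    refine this.congr (Eventually.of_forall fun x => ?_)
    exact mul_comm _ _
  have igk : Integrable (fun x => g x * conj (k x)) μ := by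
    have := hg.bdd_mul (c := 1) hkc bnd
    refine this.congr (Eventually.of_forall fun x => ?_)
    exact mul_comm _ _
  have hf0' : ∀ᵐ x ∂μ, 0 < ‖f x‖ := by
    filter_upwards [hf0] with x hx
    exact norm_pos_iff.2 hx
  have icr : Integrable (fun x => f x * conj (g x) / (‖f x‖ : ℂ)) μ := by
    refine hg.norm.mono' ?_ ?_
    · have h1 : AEStronglyMeasurable (fun x => (‖f x‖ : ℂ)) μ :=
        Complex.continuous_ofReal.comp_aestronglyMeasurable hf.1.norm
      exact (hf.1.mul (Complex.continuous_conj.comp_aestronglyMeasurable hg.1)).div₀ h1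
    · filter_upwards [hf0'] with x hx
      rw [norm_div, norm_mul, RCLike.norm_conj, Complex.norm_real, norm_norm, mul_comm, mul_div_assoc,
        div_self hx.ne', mul_one]
  have key : ∀ ξ η : ℂ, ‖ξ * u + η * v‖ ^ 2 ≤ S * (lam * (‖ξ‖ ^ 2 + ‖η‖ ^ 2)) := by
    intro ξ η
    have e1 : ξ * u + η * v = ∫ x, (ξ * f x + η * g x) * conj (k x) ∂μ := by
      rw [hu, hv, ← integral_const_mul, ← integral_const_mul,
        ← integral_add (ifk.const_mul ξ) (igk.const_mul η)]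
      refine integral_congr_ae (Eventually.of_forall fun x => ?_)
      show ξ * (f x * conj (k x)) + η * (g x * conj (k x)) = (ξ * f x + η * g x) * conj (k x)
      ring
    have icomb : Integrable (fun x => ξ * f x + η * g x) μ := (hf.const_mul ξ).add (hg.const_mul η)
    have ef : ∀ x, 0 < ‖f x‖ → ‖ξ * f x + η * g x‖ ^ 2 / ‖f x‖
        = ‖ξ‖ ^ 2 * ‖f x‖ + ‖η‖ ^ 2 * (‖g x‖ ^ 2 / ‖f x‖)
          + 2 * (ξ * conj η * (f x * conj (g x) / (‖f x‖ : ℂ))).re := by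
      intro x hx
      rw [norm_comb]
      have e2 : ξ * conj η * (f x * conj (g x) / (‖f x‖ : ℂ))
          = ((‖f x‖⁻¹ : ℝ) : ℂ) * (ξ * conj η * (f x * conj (g x))) := by
        push_cast
        rw [div_eq_mul_inv]
        ring
      rw [e2, Complex.re_ofReal_mul]
      field_simp
    have ire : Integrable (fun x => 2 * (ξ * conj η * (f x * conj (g x) / (‖f x‖ : ℂ))).re) μ :=
      ((icr.const_mul (ξ * conj η)).re).const_mul 2
    have isum : Integrable (fun x => ‖ξ‖ ^ 2 * ‖f x‖ + ‖η‖ ^ 2 * (‖g x‖ ^ 2 / ‖f x‖)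
          + 2 * (ξ * conj η * (f x * conj (g x) / (‖f x‖ : ℂ))).re) μ :=
      ((hf.norm.const_mul _).add (hgf.const_mul _)).add ire
    have hcong : (fun x => ‖ξ * f x + η * g x‖ ^ 2 / ‖f x‖) =ᵐ[μ]
        (fun x => ‖ξ‖ ^ 2 * ‖f x‖ + ‖η‖ ^ 2 * (‖g x‖ ^ 2 / ‖f x‖)
          + 2 * (ξ * conj η * (f x * conj (g x) / (‖f x‖ : ℂ))).re) := by
      filter_upwards [hf0'] with x hx
      exact ef x hx
    have h1 := one_moment (f := fun x => ξ * f x + η * g x) (k := k) (w := fun x => ‖f x‖) hk icomb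
      hf.norm hf0' (isum.congr hcong.symm)
    rw [← e1] at h1
    have e3 : ∫ x, ‖ξ * f x + η * g x‖ ^ 2 / ‖f x‖ ∂μ = S * ‖ξ‖ ^ 2
        + (∫ x, ‖g x‖ ^ 2 / ‖f x‖ ∂μ) * ‖η‖ ^ 2
        + 2 * (ξ * conj η * ∫ x, f x * conj (g x) / ‖f x‖ ∂μ).re := by
      have j1 : Integrable (fun x => ‖ξ‖ ^ 2 * ‖f x‖ + ‖η‖ ^ 2 * (‖g x‖ ^ 2 / ‖f x‖)) μ :=
        (hf.norm.const_mul _).add (hgf.const_mul _)
      have j2 : ∫ x, (ξ * conj η * (f x * conj (g x) / (‖f x‖ : ℂ))).re ∂μ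
          = (ξ * conj η * ∫ x, f x * conj (g x) / ‖f x‖ ∂μ).re := by
        rw [← integral_const_mul]
        exact integral_re (icr.const_mul (ξ * conj η))
      rw [integral_congr_ae hcong, integral_add j1 ire,
        integral_add (hf.norm.const_mul _) (hgf.const_mul _), integral_const_mul, integral_const_mul,
        integral_const_mul, j2]
      ring
    rw [e3] at h1
    have h2 := hlam ξ η
    have h3 := mul_le_mul_of_nonneg_right h2 hS0
    linarith
  have h4 := key (conj u) (conj v)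
  have e4 : conj u * u + conj v * v = ((‖u‖ ^ 2 + ‖v‖ ^ 2 : ℝ) : ℂ) := by
    rw [mul_comm (conj u), mul_comm (conj v), Complex.mul_conj, Complex.mul_conj,
      Complex.normSq_eq_norm_sq, Complex.normSq_eq_norm_sq]
    push_cast
    rfl
  rw [e4, RCLike.norm_conj, RCLike.norm_conj, Complex.norm_real, Real.norm_eq_abs, sq_abs] at h4
  set N := ‖u‖ ^ 2 + ‖v‖ ^ 2 with hN
  have hN0 : 0 ≤ N := by positivity
  rcases hN0.eq_or_lt with h5 | h5
  · rw [← h5]
    have h6 := hlam 1 0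
    simp only [norm_one, one_pow, mul_one, norm_zero, ne_eq, OfNat.ofNat_ne_zero, not_false_eq_true,
      zero_pow, mul_zero, map_zero, zero_mul, Complex.zero_re, add_zero] at h6
    exact mul_nonneg hS0 (hS0.trans h6)
  · have : N * N ≤ (S * lam) * N := by nlinarith
    exact le_of_mul_le_mul_right this h5

/-- a bound of the 2x2 form -/
theorem form_two {S G g lam : ℝ} {c : ℂ} (hc : ‖c‖ ≤ g) (hS : S ≤ lam) (hG : G ≤ lam)
    (h : g ^ 2 ≤ (lam - S) * (lam - G)) (ξ η : ℂ) :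
    S * ‖ξ‖ ^ 2 + G * ‖η‖ ^ 2 + 2 * (ξ * conj η * c).re ≤ lam * (‖ξ‖ ^ 2 + ‖η‖ ^ 2) := by
  have h1 : (ξ * conj η * c).re ≤ ‖ξ‖ * ‖η‖ * g := by
    refine (Complex.re_le_norm _).trans ?_
    rw [norm_mul, norm_mul, RCLike.norm_conj]
    exact mul_le_mul_of_nonneg_left hc (by positivity)
  set a := ‖ξ‖
  set b := ‖η‖
  have ha : 0 ≤ a := norm_nonneg _
  have hb : 0 ≤ b := norm_nonneg _
  have hg : 0 ≤ g := (norm_nonneg c).trans hc
  set p := lam - S
  set q := lam - G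
  have hp : 0 ≤ p := by linarith
  have hq : 0 ≤ q := by linarith
  have h2 : 2 * (a * b * g) ≤ p * a ^ 2 + q * b ^ 2 := by
    have h3 : g ≤ √p * √q := by
      rw [← Real.sqrt_mul hp]
      exact Real.le_sqrt_of_sq_le h
    have h4 : a * b * g ≤ a * b * (√p * √q) := mul_le_mul_of_nonneg_left h3 (by positivity)
    have h5 := sq_nonneg (a * √p - b * √q)
    have h6 := Real.sq_sqrt hp
    have h7 := Real.sq_sqrt hq
    nlinarith
  nlinarith

/-- **the polarised form**: `Re (conj a P) - Re (conj b R)` with `a = ∫ E k̄`, `b = ∫ E k`, `P = ∫ Φ k̄`,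
`R = ∫ Φ k` -/
theorem form_le {E Ph k : α → ℂ} (hk : ∀ᵐ x ∂μ, ‖k x‖ ≤ 1) (hkm : AEStronglyMeasurable k μ)
    (hE : Integrable E μ) (hP : Integrable Ph μ) (h0 : ∀ᵐ x ∂μ, (1 / 2 : ℂ) * (E x + Ph x) ≠ 0)
    (hG : Integrable (fun x => ‖(1 / 2 : ℂ) * (E x - Ph x)‖ ^ 2 / ‖(1 / 2 : ℂ) * (E x + Ph x)‖) μ)
    {lam : ℝ} (hlam : ∀ ξ η : ℂ, (∫ x, ‖(1 / 2 : ℂ) * (E x + Ph x)‖ ∂μ) * ‖ξ‖ ^ 2
      + (∫ x, ‖(1 / 2 : ℂ) * (E x - Ph x)‖ ^ 2 / ‖(1 / 2 : ℂ) * (E x + Ph x)‖ ∂μ) * ‖η‖ ^ 2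
      + 2 * (ξ * conj η * ∫ x, (1 / 2 : ℂ) * (E x + Ph x) * ((1 / 2 : ℂ) * (E x - Ph x))
        / ‖(1 / 2 : ℂ) * (E x + Ph x)‖ ∂μ).re ≤ lam * (‖ξ‖ ^ 2 + ‖η‖ ^ 2)) :
    (conj (∫ x, E x * conj (k x) ∂μ) * ∫ x, Ph x * conj (k x) ∂μ).re
      - (conj (∫ x, E x * k x ∂μ) * ∫ x, Ph x * k x ∂μ).re
      ≤ (∫ x, ‖(1 / 2 : ℂ) * (E x + Ph x)‖ ∂μ) * lam := by
  set Sg : α → ℂ := fun x => (1 / 2 : ℂ) * (E x + Ph x) with hSg
  set De : α → ℂ := fun x => (1 / 2 : ℂ) * (E x - Ph x) with hDe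
  have iS : Integrable Sg μ := (hE.add hP).const_mul _
  have iD : Integrable De μ := (hE.sub hP).const_mul _
  have hkc : AEStronglyMeasurable (fun x => conj (k x)) μ :=
    Complex.continuous_conj.comp_aestronglyMeasurable hkm
  have bnd : ∀ᵐ x ∂μ, ‖(starRingEnd ℂ) (k x)‖ ≤ 1 := by
    filter_upwards [hk] with x hx
    rwa [RCLike.norm_conj]
  have mc : ∀ {f : α → ℂ}, Integrable f μ → Integrable (fun x => f x * conj (k x)) μ := by
    intro f hf
    refine (hf.bdd_mul (c := 1) hkc bnd).congr (Eventually.of_forall fun x => ?_)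
    exact mul_comm _ _
  have mk : ∀ {f : α → ℂ}, Integrable f μ → Integrable (fun x => f x * k x) μ := by
    intro f hf
    refine (hf.bdd_mul (c := 1) hkm hk).congr (Eventually.of_forall fun x => ?_)
    exact mul_comm _ _
  have eE : ∀ x, E x = Sg x + De x := fun x => by
    simp only [hSg, hDe]
    ring
  have eP : ∀ x, Ph x = Sg x - De x := fun x => by
    simp only [hSg, hDe]
    ring
  set A := ∫ x, Sg x * conj (k x) ∂μ with hA
  set B := ∫ x, De x * conj (k x) ∂μ with hB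
  set A' := ∫ x, Sg x * k x ∂μ with hA'
  set B' := ∫ x, De x * k x ∂μ with hB'
  have e1 : ∫ x, E x * conj (k x) ∂μ = A + B := by
    rw [hA, hB, ← integral_add (mc iS) (mc iD)]
    refine integral_congr_ae (Eventually.of_forall fun x => ?_)
    show E x * conj (k x) = Sg x * conj (k x) + De x * conj (k x)
    rw [eE x]
    ring
  have e2 : ∫ x, Ph x * conj (k x) ∂μ = A - B := by
    rw [hA, hB, ← integral_sub (mc iS) (mc iD)]
    refine integral_congr_ae (Eventually.of_forall fun x => ?_)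
    show Ph x * conj (k x) = Sg x * conj (k x) - De x * conj (k x)
    rw [eP x]
    ring
  have e3 : ∫ x, E x * k x ∂μ = A' + B' := by
    rw [hA', hB', ← integral_add (mk iS) (mk iD)]
    refine integral_congr_ae (Eventually.of_forall fun x => ?_)
    show E x * k x = Sg x * k x + De x * k x
    rw [eE x]
    ring
  have e4 : ∫ x, Ph x * k x ∂μ = A' - B' := by
    rw [hA', hB', ← integral_sub (mk iS) (mk iD)]
    refine integral_congr_ae (Eventually.of_forall fun x => ?_)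
    show Ph x * k x = Sg x * k x - De x * k x
    rw [eP x]
    ring
  have pol : ∀ z w : ℂ, (conj (z + w) * (z - w)).re = ‖z‖ ^ 2 - ‖w‖ ^ 2 := by
    intro z w
    have e : ∀ u : ℂ, ‖u‖ ^ 2 = u.re ^ 2 + u.im ^ 2 := fun u => by
      rw [← Complex.normSq_eq_norm_sq, Complex.normSq_apply]
      ring
    rw [e, e]
    simp only [map_add, Complex.mul_re, Complex.add_re, Complex.sub_re, Complex.add_im, Complex.sub_im,
      Complex.conj_re, Complex.conj_im]
    ring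
  rw [e1, e2, e3, e4, pol, pol]
  have e5 : ‖B'‖ = ‖∫ x, conj (De x) * conj (k x) ∂μ‖ := by
    have : ∫ x, conj (De x) * conj (k x) ∂μ = conj B' := by
      rw [hB', ← integral_conj]
      refine integral_congr_ae (Eventually.of_forall fun x => ?_)
      exact (map_mul conj (De x) (k x)).symm
    rw [this, RCLike.norm_conj]
  have iDc : Integrable (fun x => conj (De x)) μ := by
    refine iD.norm.mono' (Complex.continuous_conj.comp_aestronglyMeasurable iD.1) ?_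
    exact Eventually.of_forall fun x => by
      rw [RCLike.norm_conj]
  have h1 := two_moments (f := Sg) (g := fun x => conj (De x)) (k := k) (lam := lam) hk hkm iS iDc h0
    (by
      refine hG.congr (Eventually.of_forall fun x => ?_)
      show ‖De x‖ ^ 2 / ‖Sg x‖ = ‖conj (De x)‖ ^ 2 / ‖Sg x‖
      rw [RCLike.norm_conj])
    (by
      intro ξ η
      have := hlam ξ η
      simp only [RCLike.norm_conj, Complex.conj_conj]
      exact this)
  rw [← e5] at h1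
  have h2 : 0 ≤ ‖B‖ ^ 2 := by positivity
  have h3 : 0 ≤ ‖A'‖ ^ 2 := by positivity
  linarith

/-- elimination of `A`, `B` -/
theorem omega_alg {a b s p r A B : ℂ} {D : ℝ} (hA : A = (a - s * conj b) / D)
    (hB : B = (b - s * conj a) / D) : (conj A * p - conj B * r).re
    = (conj a * ((p + s * conj r) / D)).re - (conj b * ((r + s * conj p) / D)).re := by
  have e1 : ∀ z : ℂ, z / (D : ℂ) = ((D⁻¹ : ℝ) : ℂ) * z := fun z => by
    push_cast
    rw [div_eq_mul_inv, mul_comm]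
  rw [hA, hB, e1, e1, e1, e1]
  simp only [map_mul, map_sub, Complex.conj_ofReal, Complex.conj_conj, Complex.mul_re, Complex.mul_im,
    Complex.sub_re, Complex.sub_im, Complex.add_re, Complex.add_im, Complex.conj_re, Complex.conj_im,
    Complex.ofReal_re, Complex.ofReal_im]
  ring

theorem jac_alg {a b s A B : ℂ} {D : ℝ} (hD : D = 1 - ‖s‖ ^ 2) (hD0 : D ≠ 0)
    (hA : A = (a - s * conj b) / D) (hB : B = (b - s * conj a) / D) :
    ‖A‖ ^ 2 - ‖B‖ ^ 2 = (conj A * a - conj B * b).re := by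
  have e : ∀ u : ℂ, ‖u‖ ^ 2 = u.re ^ 2 + u.im ^ 2 := fun u => by
    rw [← Complex.normSq_eq_norm_sq, Complex.normSq_apply]
    ring
  have hDc : (D : ℂ) ≠ 0 := by exact_mod_cast hD0
  have h1 : a = A + s * conj B := by
    have h2 : ((1 - ‖s‖ ^ 2 : ℝ) : ℂ) = 1 - s * conj s := by
      rw [Complex.mul_conj, Complex.normSq_eq_norm_sq]
      push_cast
      rfl
    rw [hA, hB, map_div₀, map_sub, map_mul, Complex.conj_ofReal, Complex.conj_conj]
    field_simp
    rw [hD, h2]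
    ring
  have h1' : b = B + s * conj A := by
    have h2 : ((1 - ‖s‖ ^ 2 : ℝ) : ℂ) = 1 - s * conj s := by
      rw [Complex.mul_conj, Complex.normSq_eq_norm_sq]
      push_cast
      rfl
    rw [hA, hB, map_div₀, map_sub, map_mul, Complex.conj_ofReal, Complex.conj_conj]
    field_simp
    rw [hD, h2]
    ring
  rw [e, e]
  conv_rhs => rw [h1, h1']
  simp only [Complex.mul_re, Complex.mul_im, Complex.sub_re, Complex.add_re, Complex.add_im,
    Complex.conj_re, Complex.conj_im]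
  ring

/-- the function `(Φ + s conj Φ) / (1 - |s|²)`, `Φ = E + 2 q X E²` -/
def pht (E : α → ℂ) (X : α → ℝ) (q : ℝ) (s : ℂ) (x : α) : ℂ :=
  ((E x + 2 * q * (X x * E x ^ 2)) + s * conj (E x + 2 * q * (X x * E x ^ 2))) / ((1 - ‖s‖ ^ 2 : ℝ) : ℂ)

/-- **the bound of `|A|² - |B|² + 2 q Re (conj A U - conj B W)`** -/
theorem omega_le {E k : α → ℂ} {X : α → ℝ} {q : ℝ} {s : ℂ} (hs : ‖s‖ < 1)
    (hk : ∀ᵐ x ∂μ, ‖k x‖ ≤ 1) (hkm : AEStronglyMeasurable k μ)
    (hE : Integrable E μ) (hX : Integrable (fun x => (X x : ℂ) * E x ^ 2) μ)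
    (h0 : ∀ᵐ x ∂μ, (1 / 2 : ℂ) * (E x + pht E X q s x) ≠ 0)
    (hG : Integrable (fun x => ‖(1 / 2 : ℂ) * (E x - pht E X q s x)‖ ^ 2
      / ‖(1 / 2 : ℂ) * (E x + pht E X q s x)‖) μ)
    {lam : ℝ} (hlam : ∀ ξ η : ℂ, (∫ x, ‖(1 / 2 : ℂ) * (E x + pht E X q s x)‖ ∂μ) * ‖ξ‖ ^ 2
      + (∫ x, ‖(1 / 2 : ℂ) * (E x - pht E X q s x)‖ ^ 2 / ‖(1 / 2 : ℂ) * (E x + pht E X q s x)‖ ∂μ)
        * ‖η‖ ^ 2
      + 2 * (ξ * conj η * ∫ x, (1 / 2 : ℂ) * (E x + pht E X q s x) * ((1 / 2 : ℂ) * (E x - pht E X q s x))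
        / ‖(1 / 2 : ℂ) * (E x + pht E X q s x)‖ ∂μ).re ≤ lam * (‖ξ‖ ^ 2 + ‖η‖ ^ 2))
    {A B : ℂ} (hA : A = ((∫ x, E x * conj (k x) ∂μ) - s * conj (∫ x, E x * k x ∂μ))
      / ((1 - ‖s‖ ^ 2 : ℝ) : ℂ))
    (hB : B = ((∫ x, E x * k x ∂μ) - s * conj (∫ x, E x * conj (k x) ∂μ)) / ((1 - ‖s‖ ^ 2 : ℝ) : ℂ)) :
    ‖A‖ ^ 2 - ‖B‖ ^ 2 + 2 * q * (conj A * (∫ x, X x * E x ^ 2 * conj (k x) ∂μ)
      - conj B * ∫ x, X x * E x ^ 2 * k x ∂μ).re
      ≤ (∫ x, ‖(1 / 2 : ℂ) * (E x + pht E X q s x)‖ ∂μ) * lam := by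
  have hD : (1 - ‖s‖ ^ 2 : ℝ) ≠ 0 := by
    have : ‖s‖ ^ 2 < 1 := by
      have := norm_nonneg s
      nlinarith
    linarith
  have hkc : AEStronglyMeasurable (fun x => conj (k x)) μ :=
    Complex.continuous_conj.comp_aestronglyMeasurable hkm
  have bnd : ∀ᵐ x ∂μ, ‖(starRingEnd ℂ) (k x)‖ ≤ 1 := by
    filter_upwards [hk] with x hx
    rwa [RCLike.norm_conj]
  have mc : ∀ {f : α → ℂ}, Integrable f μ → Integrable (fun x => f x * conj (k x)) μ := by
    intro f hf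
    refine (hf.bdd_mul (c := 1) hkc bnd).congr (Eventually.of_forall fun x => ?_)
    exact mul_comm _ _
  have mk : ∀ {f : α → ℂ}, Integrable f μ → Integrable (fun x => f x * k x) μ := by
    intro f hf
    refine (hf.bdd_mul (c := 1) hkm hk).congr (Eventually.of_forall fun x => ?_)
    exact mul_comm _ _
  have cj : ∀ {f : α → ℂ}, Integrable f μ → Integrable (fun x => conj (f x)) μ := by
    intro f hf
    refine hf.norm.mono' (Complex.continuous_conj.comp_aestronglyMeasurable hf.1) ?_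
    exact Eventually.of_forall fun x => by
      rw [RCLike.norm_conj]
  set Φ : α → ℂ := fun x => E x + 2 * q * (X x * E x ^ 2) with hΦ
  have iΦ : Integrable Φ μ := hE.add (hX.const_mul _)
  have iP : Integrable (pht E X q s) μ := by
    have := (iΦ.add ((cj iΦ).const_mul s)).div_const (((1 - ‖s‖ ^ 2 : ℝ)) : ℂ)
    exact this
  set a := ∫ x, E x * conj (k x) ∂μ with ha
  set b := ∫ x, E x * k x ∂μ with hb
  set U := ∫ x, X x * E x ^ 2 * conj (k x) ∂μ with hU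
  set W := ∫ x, X x * E x ^ 2 * k x ∂μ with hW
  have p1 : ∫ x, Φ x * conj (k x) ∂μ = a + 2 * q * U := by
    rw [ha, hU, ← integral_const_mul, ← integral_add (mc hE) ((mc hX).const_mul _)]
    refine integral_congr_ae (Eventually.of_forall fun x => ?_)
    show (E x + 2 * q * (X x * E x ^ 2)) * conj (k x)
      = E x * conj (k x) + 2 * q * (X x * E x ^ 2 * conj (k x))
    ring
  have p2 : ∫ x, Φ x * k x ∂μ = b + 2 * q * W := by
    rw [hb, hW, ← integral_const_mul, ← integral_add (mk hE) ((mk hX).const_mul _)]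
    refine integral_congr_ae (Eventually.of_forall fun x => ?_)
    show (E x + 2 * q * (X x * E x ^ 2)) * k x = E x * k x + 2 * q * (X x * E x ^ 2 * k x)
    ring
  have c1 : ∫ x, conj (Φ x) * conj (k x) ∂μ = conj (b + 2 * q * W) := by
    rw [← p2, ← integral_conj]
    refine integral_congr_ae (Eventually.of_forall fun x => ?_)
    exact (map_mul conj (Φ x) (k x)).symm
  have c2 : ∫ x, conj (Φ x) * k x ∂μ = conj (a + 2 * q * U) := by
    rw [← p1, ← integral_conj]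
    refine integral_congr_ae (Eventually.of_forall fun x => ?_)
    show conj (Φ x) * k x = conj (Φ x * conj (k x))
    rw [map_mul, Complex.conj_conj]
  have q1 : ∫ x, pht E X q s x * conj (k x) ∂μ
      = ((a + 2 * q * U) + s * conj (b + 2 * q * W)) / ((1 - ‖s‖ ^ 2 : ℝ) : ℂ) := by
    rw [← c1, ← p1, ← integral_const_mul, ← integral_add (mc iΦ) ((mc (cj iΦ)).const_mul _),
      ← integral_div]
    refine integral_congr_ae (Eventually.of_forall fun x => ?_)
    show (Φ x + s * conj (Φ x)) / ((1 - ‖s‖ ^ 2 : ℝ) : ℂ) * conj (k x)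
      = (Φ x * conj (k x) + s * (conj (Φ x) * conj (k x))) / ((1 - ‖s‖ ^ 2 : ℝ) : ℂ)
    ring
  have q2 : ∫ x, pht E X q s x * k x ∂μ
      = ((b + 2 * q * W) + s * conj (a + 2 * q * U)) / ((1 - ‖s‖ ^ 2 : ℝ) : ℂ) := by
    rw [← c2, ← p2, ← integral_const_mul, ← integral_add (mk iΦ) ((mk (cj iΦ)).const_mul _),
      ← integral_div]
    refine integral_congr_ae (Eventually.of_forall fun x => ?_)
    show (Φ x + s * conj (Φ x)) / ((1 - ‖s‖ ^ 2 : ℝ) : ℂ) * k x
      = (Φ x * k x + s * (conj (Φ x) * k x)) / ((1 - ‖s‖ ^ 2 : ℝ) : ℂ)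
    ring
  have h1 := form_le (μ := μ) hk hkm hE iP h0 hG hlam
  rw [q1, q2] at h1
  refine le_trans (le_of_eq ?_) h1
  rw [jac_alg rfl hD hA hB, ← omega_alg hA hB]
  have e1 : (conj A * (a + 2 * q * U) - conj B * (b + 2 * q * W)).re
      = (conj A * a - conj B * b).re + 2 * q * (conj A * U - conj B * W).re := by
    have : conj A * (a + 2 * q * U) - conj B * (b + 2 * q * W)
        = (conj A * a - conj B * b) + ((2 * q : ℝ) : ℂ) * (conj A * U - conj B * W) := by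
      push_cast
      ring
    rw [this, Complex.add_re, Complex.re_ofReal_mul]
  rw [e1]

end Pool.Agent.FPX.CQA
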