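import Pool.Agent.FPX.F54Defs

/-
F54B (helper22): boundary estimate for the implicit map F54.  If `f` is within `d` of the tent of the
boundary point `s` and the F54 functional vanishes at `(x, y)`, then `1 - 3 d ≤ x cos s + y sin s`.
Test vector `u_s - Y`; `arcsin` expands distances.
-/

open MeasureTheory Set Filter Topology Real intervalIntegral
open Pool.Agent.FPX.UMP (Ef)
open Pool.Agent.FPX.F54

noncomputable section

namespace Pool.Agent.FPX.F54B

/-- the kernel `(1 - p ^ 2) ^ (-3/2)` -/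
def ker (p : ℝ) : ℝ := 1 / √(1 - p ^ 2) ^ 3

theorem D_pos {r : ℝ} (h0 : 0 ≤ r) (h1 : r < 1) (t : ℝ) : 0 < 1 - (r * cos t) ^ 2 := by
  have h2 : cos t ^ 2 ≤ 1 := cos_sq_le_one t
  have h3 : r ^ 2 < 1 := by nlinarith
  have h4 : 0 ≤ r ^ 2 := sq_nonneg r
  have h5 : (r * cos t) ^ 2 = r ^ 2 * cos t ^ 2 := by ring
  nlinarith [sq_nonneg (cos t)]

theorem cont_ker {r : ℝ} (h0 : 0 ≤ r) (h1 : r < 1) : Continuous fun t => ker (r * cos t) := by
  unfold ker
  refine continuous_const.div ?_ ?_
  · exact ((continuous_const.sub ((continuous_const.mul continuous_cos).pow 2)).sqrt).pow 3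
  · intro t
    have := sqrt_pos.2 (D_pos h0 h1 t)
    positivity

theorem ker_pos {p : ℝ} (h : p ^ 2 < 1) : 0 < ker p := by
  unfold ker
  have : 0 < √(1 - p ^ 2) := sqrt_pos.2 (by linarith)
  positivity

theorem one_le_ker {p : ℝ} (h : p ^ 2 < 1) : 1 ≤ ker p := by
  unfold ker
  have h1 : 0 < √(1 - p ^ 2) := sqrt_pos.2 (by linarith)
  have h2 : √(1 - p ^ 2) ≤ 1 := by
    rw [sqrt_le_one]
    nlinarith [sq_nonneg p]
  rw [le_div_iff₀ (by positivity)]
  rw [one_mul]
  exact pow_le_one₀ h1.le h2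

private theorem der_D {r : ℝ} (h0 : 0 ≤ r) (h1 : r < 1) (t : ℝ) :
    HasDerivAt (fun t => √(1 - (r * cos t) ^ 2)) (r ^ 2 * cos t * sin t / √(1 - (r * cos t) ^ 2)) t := by
  have a : HasDerivAt (fun t => 1 - (r * cos t) ^ 2) (2 * r ^ 2 * cos t * sin t) t := by
    have b := (((hasDerivAt_cos t).const_mul r).pow 2).const_sub 1
    refine b.congr_deriv ?_
    simp
    ring
  have c := a.sqrt (D_pos h0 h1 t).ne'
  refine c.congr_deriv ?_
  have d : √(1 - (r * cos t) ^ 2) ≠ 0 := (sqrt_pos.2 (D_pos h0 h1 t)).ne'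
  field_simp

private theorem der_sin {r : ℝ} (h0 : 0 ≤ r) (h1 : r < 1) (t : ℝ) :
    HasDerivAt (fun t => sin t / √(1 - (r * cos t) ^ 2) / (1 - r ^ 2)) (cos t * ker (r * cos t)) t := by
  have a := (((hasDerivAt_sin t).div (der_D h0 h1 t) (sqrt_pos.2 (D_pos h0 h1 t)).ne')).div_const (1 - r ^ 2)
  refine a.congr_deriv ?_
  unfold ker
  have d : √(1 - (r * cos t) ^ 2) ≠ 0 := (sqrt_pos.2 (D_pos h0 h1 t)).ne'
  have e : √(1 - (r * cos t) ^ 2) ^ 2 = 1 - (r * cos t) ^ 2 := sq_sqrt (D_pos h0 h1 t).le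
  have g : sin t ^ 2 = 1 - cos t ^ 2 := by nlinarith [sin_sq_add_cos_sq t]
  have k : 1 - r ^ 2 ≠ 0 := by nlinarith
  generalize √(1 - (r * cos t) ^ 2) = D at *
  field_simp
  rw [e]
  have : r ^ 2 * sin t ^ 2 = r ^ 2 * (1 - cos t ^ 2) := by rw [g]
  linear_combination (-cos t) * this

private theorem der_cos {r : ℝ} (h0 : 0 ≤ r) (h1 : r < 1) (t : ℝ) :
    HasDerivAt (fun t => -cos t / √(1 - (r * cos t) ^ 2)) (sin t * ker (r * cos t)) t := by
  have a := ((hasDerivAt_cos t).neg.div (der_D h0 h1 t) (sqrt_pos.2 (D_pos h0 h1 t)).ne')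
  refine a.congr_deriv ?_
  unfold ker
  have d : √(1 - (r * cos t) ^ 2) ≠ 0 := (sqrt_pos.2 (D_pos h0 h1 t)).ne'
  have e : √(1 - (r * cos t) ^ 2) ^ 2 = 1 - (r * cos t) ^ 2 := sq_sqrt (D_pos h0 h1 t).le
  simp only [Pi.neg_apply]
  generalize √(1 - (r * cos t) ^ 2) = D at *
  field_simp
  rw [e]
  ring

private theorem ii {r : ℝ} (h0 : 0 ≤ r) (h1 : r < 1) {g : ℝ → ℝ} (hg : Continuous g) (a b : ℝ) :
    IntervalIntegrable (fun t => g t * ker (r * cos t)) volume a b :=
  (hg.mul (cont_ker h0 h1)).intervalIntegrable a b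

theorem int_abs_cos {r : ℝ} (h0 : 0 ≤ r) (h1 : r < 1) :
    ∫ t in (0 : ℝ)..(2 * π), |cos t| * ker (r * cos t) = 4 / (1 - r ^ 2) := by
  have hp : Function.Periodic (fun t => |cos t| * ker (r * cos t)) (2 * π) := by
    intro t
    simp only [cos_add_two_pi]
  have a := hp.intervalIntegral_add_eq 0 (-(π / 2))
  rw [zero_add] at a
  rw [a]
  have b : -(π / 2) + 2 * π = 3 * π / 2 := by ring
  rw [b, ← integral_add_adjacent_intervals (b := π / 2) (ii h0 h1 continuous_cos.abs _ _)
    (ii h0 h1 continuous_cos.abs _ _)]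
  have c1 : ∫ t in (-(π / 2))..(π / 2), |cos t| * ker (r * cos t) = 2 / (1 - r ^ 2) := by
    have e : ∫ t in (-(π / 2))..(π / 2), |cos t| * ker (r * cos t)
        = ∫ t in (-(π / 2))..(π / 2), cos t * ker (r * cos t) := by
      refine integral_congr ?_
      intro t ht
      rw [uIcc_of_le (by linarith [pi_pos])] at ht
      simp only
      rw [abs_of_nonneg (cos_nonneg_of_mem_Icc ht)]
    rw [e, integral_eq_sub_of_hasDerivAt (fun t _ => der_sin h0 h1 t) (ii h0 h1 continuous_cos _ _)]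
    simp only [cos_neg, sin_neg, cos_pi_div_two, sin_pi_div_two]
    norm_num
    ring
  have c2 : ∫ t in (π / 2)..(3 * π / 2), |cos t| * ker (r * cos t) = 2 / (1 - r ^ 2) := by
    have e : ∫ t in (π / 2)..(3 * π / 2), |cos t| * ker (r * cos t)
        = ∫ t in (π / 2)..(3 * π / 2), -(cos t * ker (r * cos t)) := by
      refine integral_congr ?_
      intro t ht
      rw [uIcc_of_le (by linarith [pi_pos])] at ht
      simp only
      rw [abs_of_nonpos (cos_nonpos_of_pi_div_two_le_of_le ht.1 (by linarith [ht.2]))]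
      ring
    rw [e, intervalIntegral.integral_neg,
      integral_eq_sub_of_hasDerivAt (fun t _ => der_sin h0 h1 t) (ii h0 h1 continuous_cos _ _)]
    have c3 : cos (3 * π / 2) = 0 := by
      have : 3 * π / 2 = π / 2 + π := by ring
      rw [this, cos_add_pi, cos_pi_div_two, neg_zero]
    have c4 : sin (3 * π / 2) = -1 := by
      have : 3 * π / 2 = π / 2 + π := by ring
      rw [this, sin_add_pi, sin_pi_div_two]
    rw [c3, c4, cos_pi_div_two, sin_pi_div_two]
    norm_num
    ring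
  rw [c1, c2]
  ring

theorem int_abs_sin {r : ℝ} (h0 : 0 ≤ r) (h1 : r < 1) :
    ∫ t in (0 : ℝ)..(2 * π), |sin t| * ker (r * cos t) = 4 / √(1 - r ^ 2) := by
  rw [← integral_add_adjacent_intervals (b := π) (ii h0 h1 continuous_sin.abs _ _)
    (ii h0 h1 continuous_sin.abs _ _)]
  have c1 : ∫ t in (0 : ℝ)..π, |sin t| * ker (r * cos t) = 2 / √(1 - r ^ 2) := by
    have e : ∫ t in (0 : ℝ)..π, |sin t| * ker (r * cos t)
        = ∫ t in (0 : ℝ)..π, sin t * ker (r * cos t) := by
      refine integral_congr ?_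
      intro t ht
      rw [uIcc_of_le pi_pos.le] at ht
      simp only
      rw [abs_of_nonneg (sin_nonneg_of_mem_Icc ht)]
    rw [e, integral_eq_sub_of_hasDerivAt (fun t _ => der_cos h0 h1 t) (ii h0 h1 continuous_sin _ _)]
    simp only [cos_pi, cos_zero]
    have : (r * -1) ^ 2 = r ^ 2 := by ring
    rw [this, mul_one]
    ring
  have c2 : ∫ t in π..(2 * π), |sin t| * ker (r * cos t) = 2 / √(1 - r ^ 2) := by
    have e : ∫ t in π..(2 * π), |sin t| * ker (r * cos t)
        = ∫ t in π..(2 * π), -(sin t * ker (r * cos t)) := by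
      refine integral_congr ?_
      intro t ht
      rw [uIcc_of_le (by linarith [pi_pos])] at ht
      have hs : sin t ≤ 0 := by
        have := sin_nonneg_of_mem_Icc (x := t - π) ⟨by linarith [ht.1], by linarith [ht.2]⟩
        rw [sin_sub_pi] at this
        linarith
      simp only
      rw [abs_of_nonpos hs]
      ring
    rw [e, intervalIntegral.integral_neg,
      integral_eq_sub_of_hasDerivAt (fun t _ => der_cos h0 h1 t) (ii h0 h1 continuous_sin _ _)]
    rw [cos_two_pi, cos_pi]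
    have : (r * -1) ^ 2 = r ^ 2 := by ring
    rw [this, mul_one]
    ring
  rw [c1, c2]
  ring

/-- the cross term vanishes -/
theorem int_cross {r : ℝ} :
    ∫ t in (0 : ℝ)..(2 * π), (cos t * sin t) * ker (r * cos t) = 0 := by
  have a := integral_comp_sub_left (a := 0) (b := 2 * π) (fun t => (cos t * sin t) * ker (r * cos t)) (2 * π)
  simp only [cos_two_pi_sub, sin_two_pi_sub, sub_self, sub_zero] at a
  have b : ∫ t in (0 : ℝ)..(2 * π), (cos t * -sin t) * ker (r * cos t)
      = -∫ t in (0 : ℝ)..(2 * π), (cos t * sin t) * ker (r * cos t) := by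
    rw [← intervalIntegral.integral_neg]
    refine integral_congr ?_
    intro t _
    simp only
    ring
  rw [b] at a
  linarith

theorem int_sin_sq_ge {r : ℝ} (h0 : 0 ≤ r) (h1 : r < 1) :
    π ≤ ∫ t in (0 : ℝ)..(2 * π), sin t ^ 2 * ker (r * cos t) := by
  have a : ∫ t in (0 : ℝ)..(2 * π), sin t ^ 2 = π := by
    rw [integral_sin_sq]
    simp
  have b : ∫ t in (0 : ℝ)..(2 * π), sin t ^ 2 ≤ ∫ t in (0 : ℝ)..(2 * π), sin t ^ 2 * ker (r * cos t) := by
    refine integral_mono_on (by linarith [pi_pos]) ((continuous_sin.pow 2).intervalIntegrable _ _)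
      (ii h0 h1 (continuous_sin.pow 2) _ _) ?_
    intro t _
    have h2 := one_le_ker (p := r * cos t) (by linarith [D_pos h0 h1 t])
    nlinarith [sq_nonneg (sin t)]
  rw [a] at b
  exact b

theorem int_cos_sq_ge {r : ℝ} (h0 : 0 ≤ r) (h1 : r < 1) :
    12 / 5 / (1 - r ^ 2) ≤ ∫ t in (0 : ℝ)..(2 * π), cos t ^ 2 * ker (r * cos t) := by
  have hc : 0 < 1 - r ^ 2 := by nlinarith
  have a1 : ∫ t in (0 : ℝ)..(2 * π), sin t ^ 2 * ker (r * cos t) ≤ 4 / (1 - r ^ 2) := by
    have b1 : ∫ t in (0 : ℝ)..(2 * π), sin t ^ 2 * ker (r * cos t)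
        ≤ ∫ t in (0 : ℝ)..(2 * π), |sin t| * ker (r * cos t) := by
      refine integral_mono_on (by linarith [pi_pos]) (ii h0 h1 (continuous_sin.pow 2) _ _)
        (ii h0 h1 continuous_sin.abs _ _) ?_
      intro t _
      have h2 := ker_pos (p := r * cos t) (by linarith [D_pos h0 h1 t])
      have h3 := abs_sin_le_one t
      have h4 : sin t ^ 2 = |sin t| ^ 2 := (sq_abs _).symm
      rw [h4]
      have h5 := abs_nonneg (sin t)
      have : |sin t| ^ 2 ≤ |sin t| := by nlinarith
      exact mul_le_mul_of_nonneg_right this h2.le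
    rw [int_abs_sin h0 h1] at b1
    refine b1.trans ?_
    have h6 : 1 - r ^ 2 ≤ √(1 - r ^ 2) := by
      have h7 := sqrt_nonneg (1 - r ^ 2)
      have h8 := sq_sqrt hc.le
      have h9 : √(1 - r ^ 2) ≤ 1 := by
        rw [sqrt_le_one]
        nlinarith [sq_nonneg r]
      nlinarith
    exact div_le_div_of_nonneg_left (by norm_num) hc h6
  have a2 : ∫ t in (0 : ℝ)..(2 * π), (|cos t| * ker (r * cos t) - (1 / 4) * (cos t ^ 2 * ker (r * cos t))
      - (1 / 4) * (sin t ^ 2 * ker (r * cos t)))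
      ≤ ∫ t in (0 : ℝ)..(2 * π), cos t ^ 2 * ker (r * cos t) := by
    refine integral_mono_on (by linarith [pi_pos]) ?_
      (ii h0 h1 (continuous_cos.pow 2) _ _) ?_
    · exact ((ii h0 h1 continuous_cos.abs _ _).sub ((ii h0 h1 (continuous_cos.pow 2) _ _).const_mul _)).sub
        ((ii h0 h1 (continuous_sin.pow 2) _ _).const_mul _)
    intro t _
    have h2 := ker_pos (p := r * cos t) (by linarith [D_pos h0 h1 t])
    have h4 : cos t ^ 2 = |cos t| ^ 2 := (sq_abs _).symm
    have h5 := sin_sq_add_cos_sq t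
    have h6 : |cos t| - 1 / 4 ≤ cos t ^ 2 := by
      rw [h4]
      nlinarith [sq_nonneg (|cos t| - 1 / 2)]
    have h7 : |cos t| * ker (r * cos t) - (1 / 4) * (cos t ^ 2 * ker (r * cos t))
      - (1 / 4) * (sin t ^ 2 * ker (r * cos t)) = (|cos t| - 1 / 4) * ker (r * cos t) := by
      have : sin t ^ 2 = 1 - cos t ^ 2 := by linarith
      rw [this]
      ring
    rw [h7]
    exact mul_le_mul_of_nonneg_right h6 h2.le
  rw [intervalIntegral.integral_sub, intervalIntegral.integral_sub,
    intervalIntegral.integral_const_mul, intervalIntegral.integral_const_mul, int_abs_cos h0 h1] at a2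
  · have h8 : 12 / 5 / (1 - r ^ 2) = (3 / 5) * (4 / (1 - r ^ 2)) := by ring
    rw [h8]
    linarith
  · exact ii h0 h1 continuous_cos.abs _ _
  · exact (ii h0 h1 (continuous_cos.pow 2) _ _).const_mul _
  · exact (ii h0 h1 continuous_cos.abs _ _).sub ((ii h0 h1 (continuous_cos.pow 2) _ _).const_mul _)
  · exact (ii h0 h1 (continuous_sin.pow 2) _ _).const_mul _

/-- lower bound for the quadratic form -/
theorem low {r : ℝ} (h0 : 0 ≤ r) (h1 : r < 1) (A B : ℝ) :
    12 / 5 / (1 - r ^ 2) * (A ^ 2 + (1 - r ^ 2) * B ^ 2) ≤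
      ∫ t in (0 : ℝ)..(2 * π), (A * cos t - B * sin t) ^ 2 * ker (r * cos t) := by
  have hc : 0 < 1 - r ^ 2 := by nlinarith
  have e : ∫ t in (0 : ℝ)..(2 * π), (A * cos t - B * sin t) ^ 2 * ker (r * cos t)
      = A ^ 2 * (∫ t in (0 : ℝ)..(2 * π), cos t ^ 2 * ker (r * cos t))
        - 2 * A * B * (∫ t in (0 : ℝ)..(2 * π), (cos t * sin t) * ker (r * cos t))
        + B ^ 2 * (∫ t in (0 : ℝ)..(2 * π), sin t ^ 2 * ker (r * cos t)) := by
    rw [← intervalIntegral.integral_const_mul, ← intervalIntegral.integral_const_mul,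
      ← intervalIntegral.integral_const_mul, ← intervalIntegral.integral_sub,
      ← intervalIntegral.integral_add]
    · refine integral_congr ?_
      intro t _
      simp only
      ring
    · exact ((ii h0 h1 (continuous_cos.pow 2) _ _).const_mul _).sub
        ((ii h0 h1 (continuous_cos.mul continuous_sin) _ _).const_mul _)
    · exact (ii h0 h1 (continuous_sin.pow 2) _ _).const_mul _
    · exact (ii h0 h1 (continuous_cos.pow 2) _ _).const_mul _
    · exact (ii h0 h1 (continuous_cos.mul continuous_sin) _ _).const_mul _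
  rw [e, int_cross]
  have a := int_cos_sq_ge h0 h1
  have b := int_sin_sq_ge h0 h1
  have p3 := pi_gt_three
  have a' := mul_le_mul_of_nonneg_left a (sq_nonneg A)
  have b' := mul_le_mul_of_nonneg_left b (sq_nonneg B)
  have h2 : 12 / 5 / (1 - r ^ 2) * (A ^ 2 + (1 - r ^ 2) * B ^ 2)
      = A ^ 2 * (12 / 5 / (1 - r ^ 2)) + 12 / 5 * B ^ 2 := by
    field_simp
  rw [h2]
  nlinarith [sq_nonneg B]

/-- upper bound for the first moment -/
theorem upp {r : ℝ} (h0 : 0 ≤ r) (h1 : r < 1) (A B : ℝ) :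
    ∫ t in (0 : ℝ)..(2 * π), |A * cos t - B * sin t| * ker (r * cos t) ≤
      |A| * (4 / (1 - r ^ 2)) + |B| * (4 / √(1 - r ^ 2)) := by
  rw [← int_abs_cos h0 h1, ← int_abs_sin h0 h1, ← intervalIntegral.integral_const_mul,
    ← intervalIntegral.integral_const_mul, ← intervalIntegral.integral_add]
  · refine integral_mono_on (by linarith [pi_pos])
      (ii h0 h1 (((continuous_const.mul continuous_cos).sub (continuous_const.mul continuous_sin)).abs) _ _)
      (((ii h0 h1 continuous_cos.abs _ _).const_mul _).add ((ii h0 h1 continuous_sin.abs _ _).const_mul _)) ?_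
    intro t _
    have h2 := ker_pos (p := r * cos t) (by linarith [D_pos h0 h1 t])
    have h3 : |A * cos t - B * sin t| ≤ |A| * |cos t| + |B| * |sin t| := by
      rw [← abs_mul, ← abs_mul]
      exact abs_sub _ _
    calc |A * cos t - B * sin t| * ker (r * cos t)
        ≤ (|A| * |cos t| + |B| * |sin t|) * ker (r * cos t) := mul_le_mul_of_nonneg_right h3 h2.le
      _ = |A| * (|cos t| * ker (r * cos t)) + |B| * (|sin t| * ker (r * cos t)) := by ring
  · exact (ii h0 h1 continuous_cos.abs _ _).const_mul _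
  · exact (ii h0 h1 continuous_sin.abs _ _).const_mul _

/-- `arcsin` expands distances -/
theorem arcsin_exp {a b : ℝ} (ha : a ∈ Icc (-1 : ℝ) 1) (hb : b ∈ Icc (-1 : ℝ) 1) :
    (a - b) ^ 2 ≤ (arcsin a - arcsin b) * (a - b) := by
  have key : ∀ a b : ℝ, a ∈ Icc (-1 : ℝ) 1 → b ∈ Icc (-1 : ℝ) 1 → b ≤ a →
      (a - b) ^ 2 ≤ (arcsin a - arcsin b) * (a - b) := by
    intro a b ha hb hab
    have h1 : arcsin b ≤ arcsin a := monotone_arcsin hab
    have h2 : |sin (arcsin a) - sin (arcsin b)| ≤ |arcsin a - arcsin b| := by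
      have := Real.abs_sin_sub_sin_le (arcsin a) (arcsin b)
      exact this
    rw [sin_arcsin ha.1 ha.2, sin_arcsin hb.1 hb.2, abs_of_nonneg (by linarith),
      abs_of_nonneg (by linarith)] at h2
    nlinarith
  rcases le_total b a with h | h
  · exact key a b ha hb h
  · have := key b a hb ha h
    nlinarith

/-- the tent is `arcsin (cos (t - s))` -/
theorem tent_eq {t : ℝ} (h : |t| ≤ π / 2) : arcsin (cos t) = π / 2 - |t| := by
  rw [arcsin_eq_pi_div_two_sub_arccos, ← cos_abs t, arccos_cos (abs_nonneg t) (by linarith [pi_pos])]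

theorem near_tent {f : ℝ → ℝ} (hf : Ef f) {s d : ℝ}
    (hup : ∀ t, |t - s| ≤ π / 2 → f t ≤ π / 2 - |t - s|)
    (hlo : ∀ t, |t - s| ≤ π / 2 → π / 2 - |t - s| - d ≤ f t) (t : ℝ) :
    |f t - arcsin (cos (t - s))| ≤ d := by
  have hp : Function.Periodic (fun t => |f t - arcsin (cos (t - s))|) π := by
    intro t
    have h1 : t + π - s = (t - s) + π := by ring
    simp only
    rw [hf.odd, h1, cos_add_pi, arcsin_neg]
    have h2 : -f t - -arcsin (cos (t - s)) = -(f t - arcsin (cos (t - s))) := by ring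
    rw [h2, abs_neg]
  obtain ⟨y, hy, h1⟩ := hp.exists_mem_Ico pi_pos t (s - π / 2)
  rw [h1]
  have h2 : |y - s| ≤ π / 2 := by
    rw [abs_le]
    constructor
    · linarith [hy.1]
    · linarith [hy.2]
  rw [tent_eq h2]
  have h3 := hup y h2
  have h4 := hlo y h2
  rw [abs_le]
  constructor <;> linarith

theorem pr_sq_lt {x y : ℝ} (h : x ^ 2 + y ^ 2 < 1) (t : ℝ) : pr x y t ^ 2 < 1 := by
  unfold pr
  have h1 := sin_sq_add_cos_sq t
  nlinarith [sq_nonneg (x * sin t - y * cos t)]

theorem cont_pr {x y : ℝ} : Continuous fun t => pr x y t := by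
  unfold pr
  fun_prop

theorem cont_ker_pr {x y : ℝ} (h : x ^ 2 + y ^ 2 < 1) : Continuous fun t => ker (pr x y t) := by
  unfold ker
  refine continuous_const.div ?_ ?_
  · exact ((continuous_const.sub (cont_pr.pow 2)).sqrt).pow 3
  · intro t
    have : 0 < √(1 - pr x y t ^ 2) := sqrt_pos.2 (by linarith [pr_sq_lt h t])
    positivity

theorem kk_eq (p a : ℝ) : kk p a = (a - arcsin p) * ker p := by
  unfold kk ker
  ring

/-- the equation tested with a vector -/
theorem test {f : ℝ → ℝ} (hf : Continuous f) {x y : ℝ} (hX : x ^ 2 + y ^ 2 < 1)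
    (hG1 : G1 x y f = 0) (hG2 : G2 x y f = 0) (α β : ℝ) :
    ∫ t in (0 : ℝ)..(2 * π), (f t - arcsin (pr x y t)) * (α * cos t + β * sin t) * ker (pr x y t) = 0 := by
  have hk : Continuous fun t => kk (pr x y t) (f t) := by
    have : (fun t => kk (pr x y t) (f t)) = fun t => (f t - arcsin (pr x y t)) * ker (pr x y t) := by
      funext t
      exact kk_eq _ _
    rw [this]
    exact (hf.sub (continuous_arcsin.comp cont_pr)).mul (cont_ker_pr hX)
  have e : ∫ t in (0 : ℝ)..(2 * π), (f t - arcsin (pr x y t)) * (α * cos t + β * sin t) * ker (pr x y t)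
      = α * G1 x y f + β * G2 x y f := by
    unfold G1 G2
    rw [← intervalIntegral.integral_const_mul, ← intervalIntegral.integral_const_mul,
      ← intervalIntegral.integral_add]
    · refine integral_congr ?_
      intro t _
      simp only
      rw [kk_eq]
      ring
    · exact (continuous_const.mul (continuous_cos.mul hk)).intervalIntegrable _ _
    · exact (continuous_const.mul (continuous_sin.mul hk)).intervalIntegrable _ _
  rw [e, hG1, hG2]
  ring

theorem exists_polar (x y : ℝ) : ∃ φ : ℝ, x = √(x ^ 2 + y ^ 2) * cos φ ∧ y = √(x ^ 2 + y ^ 2) * sin φ := by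
  refine ⟨Complex.arg ⟨x, y⟩, ?_, ?_⟩
  · have := Complex.norm_mul_cos_arg ⟨x, y⟩
    rw [Complex.norm_def, Complex.normSq_mk] at this
    have e : x * x + y * y = x ^ 2 + y ^ 2 := by ring
    rw [e] at this
    exact this.symm
  · have := Complex.norm_mul_sin_arg ⟨x, y⟩
    rw [Complex.norm_def, Complex.normSq_mk] at this
    have e : x * x + y * y = x ^ 2 + y ^ 2 := by ring
    rw [e] at this
    exact this.symm

theorem shift {F : ℝ → ℝ} (hp : Function.Periodic F (2 * π)) (φ : ℝ) :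
    ∫ t in (0 : ℝ)..(2 * π), F t = ∫ t in (0 : ℝ)..(2 * π), F (t + φ) := by
  rw [integral_comp_add_right]
  have h := hp.intervalIntegral_add_eq 0 φ
  rw [zero_add] at h
  rw [h, zero_add, add_comm φ]

/-- the final algebra -/
theorem alg {r A B η d : ℝ} (hc : 0 < 1 - r ^ 2) (hη0 : 0 < η) (hη2 : A ^ 2 + (1 - r ^ 2) * B ^ 2 = η ^ 2)
    (hd : 0 ≤ d)
    (n : 12 / 5 / (1 - r ^ 2) * (A ^ 2 + (1 - r ^ 2) * B ^ 2) ≤
      d * (|A| * (4 / (1 - r ^ 2)) + |B| * (4 / √(1 - r ^ 2)))) : η ≤ 3 * d := by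
  obtain ⟨c, hc'⟩ : ∃ c, c = √(1 - r ^ 2) := ⟨_, rfl⟩
  have c0 : 0 < c := by
    rw [hc']
    exact sqrt_pos.2 hc
  have cc : c ^ 2 = 1 - r ^ 2 := by
    rw [hc']
    exact sq_sqrt hc.le
  rw [hη2, ← hc', ← cc] at n
  rw [← cc] at hη2
  have n2 : 12 / 5 * η ^ 2 ≤ 4 * d * (|A| + c * |B|) := by
    have h1 : 12 / 5 / c ^ 2 * η ^ 2 = (12 / 5 * η ^ 2) / c ^ 2 := by ring
    have h2 : d * (|A| * (4 / c ^ 2) + |B| * (4 / c)) = (4 * d * (|A| + c * |B|)) / c ^ 2 := by
      field_simp
    rw [h1, h2] at n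
    exact (div_le_div_iff_of_pos_right (by positivity)).1 n
  have n3 : (|A| + c * |B|) ^ 2 ≤ 2 * η ^ 2 := by
    rw [← hη2, ← sq_abs A, ← sq_abs B]
    nlinarith [sq_nonneg (|A| - c * |B|)]
  have n4 : |A| + c * |B| ≤ 3 / 2 * η := by
    refine (abs_le_of_sq_le_sq' ?_ (by positivity)).2
    nlinarith [sq_nonneg η]
  have n5 : 12 / 5 * η ^ 2 ≤ 4 * d * (3 / 2 * η) := n2.trans (mul_le_mul_of_nonneg_left n4 (by positivity))
  by_contra hcon
  have hcon2 : 3 * d < η := lt_of_not_ge hcon
  have h1 : 3 * d * η < η * η := mul_lt_mul_of_pos_right hcon2 hη0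
  have h2 : 0 < η ^ 2 := by positivity
  nlinarith

/-- **Boundary estimate for F54**: if `f` is within `d` of the tent of `s`, then the zero of the F54
equation is within `3 d` of the boundary point `s`, measured by `1 - ⟨Y, u_s⟩`. -/
theorem bdry {f : ℝ → ℝ} (hf : Ef f) {s d : ℝ}
    (hup : ∀ t, |t - s| ≤ π / 2 → f t ≤ π / 2 - |t - s|)
    (hlo : ∀ t, |t - s| ≤ π / 2 → π / 2 - |t - s| - d ≤ f t) {x y : ℝ}
    (hX : x ^ 2 + y ^ 2 < 1) (hG1 : G1 x y f = 0) (hG2 : G2 x y f = 0) :
    1 - 3 * d ≤ x * cos s + y * sin s := by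
  obtain ⟨φ, hx, hy⟩ := exists_polar x y
  set r := √(x ^ 2 + y ^ 2) with hr
  have r0 : 0 ≤ r := sqrt_nonneg _
  have rr : r ^ 2 = x ^ 2 + y ^ 2 := sq_sqrt (by positivity)
  have r1 : r < 1 := by
    rw [hr, sqrt_lt' one_pos]
    linarith
  have hc : 0 < 1 - r ^ 2 := by linarith
  set ψ := φ - s with hψ
  have hft := near_tent hf hup hlo
  have hfc : Continuous f := hf.lip.continuous
  have hd : 0 ≤ d := (abs_nonneg _).trans (hft 0)
  have hkc := cont_ker_pr hX
  -- rotated integrals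
  have hq : ∀ t, (cos s - x) * cos (t + φ) + (sin s - y) * sin (t + φ)
      = (cos ψ - r) * cos t - sin ψ * sin t := by
    intro t
    have h1 : cos (t + φ - s) = cos t * cos ψ - sin t * sin ψ := by
      rw [← cos_add, hψ]
      congr 1
      ring
    have h2 : cos (t + φ - s) = cos (t + φ) * cos s + sin (t + φ) * sin s := cos_sub _ _
    have h3 : x * cos (t + φ) + y * sin (t + φ) = r * cos t := by
      have h4 : cos (t + φ - φ) = cos (t + φ) * cos φ + sin (t + φ) * sin φ := cos_sub _ _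
      rw [add_sub_cancel_right] at h4
      rw [h4]
      linear_combination cos (t + φ) * hx + sin (t + φ) * hy
    linear_combination (-1) * h3 + (-1) * h2 + h1
  have hpp : ∀ t, pr x y (t + φ) = r * cos t := by
    intro t
    unfold pr
    have h4 : cos (t + φ - φ) = cos (t + φ) * cos φ + sin (t + φ) * sin φ := cos_sub _ _
    rw [add_sub_cancel_right] at h4
    rw [h4]
    linear_combination cos (t + φ) * hx + sin (t + φ) * hy
  have e1 : ∫ t in (0 : ℝ)..(2 * π), ((cos s - x) * cos t + (sin s - y) * sin t) ^ 2 * ker (pr x y t)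
      = ∫ t in (0 : ℝ)..(2 * π), ((cos ψ - r) * cos t - sin ψ * sin t) ^ 2 * ker (r * cos t) := by
    rw [shift (F := fun t => ((cos s - x) * cos t + (sin s - y) * sin t) ^ 2 * ker (pr x y t)) _ φ]
    · refine integral_congr ?_
      intro t _
      simp only
      rw [hq, hpp]
    · intro t
      simp only [pr, cos_add_two_pi, sin_add_two_pi]
  have e2 : ∫ t in (0 : ℝ)..(2 * π), |(cos s - x) * cos t + (sin s - y) * sin t| * ker (pr x y t)
      = ∫ t in (0 : ℝ)..(2 * π), |(cos ψ - r) * cos t - sin ψ * sin t| * ker (r * cos t) := by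
    rw [shift (F := fun t => |(cos s - x) * cos t + (sin s - y) * sin t| * ker (pr x y t)) _ φ]
    · refine integral_congr ?_
      intro t _
      simp only
      rw [hq, hpp]
    · intro t
      simp only [pr, cos_add_two_pi, sin_add_two_pi]
  have l := low r0 r1 (cos ψ - r) (sin ψ)
  have u := upp r0 r1 (cos ψ - r) (sin ψ)
  rw [← e1] at l
  rw [← e2] at u
  -- comparison
  have m : ∫ t in (0 : ℝ)..(2 * π), ((cos s - x) * cos t + (sin s - y) * sin t) ^ 2 * ker (pr x y t)
      ≤ ∫ t in (0 : ℝ)..(2 * π), ((f t - arcsin (pr x y t)) * ((cos s - x) * cos t + (sin s - y) * sin t)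
          * ker (pr x y t)
        + d * (|(cos s - x) * cos t + (sin s - y) * sin t| * ker (pr x y t))) := by
    have cq : Continuous fun t => (cos s - x) * cos t + (sin s - y) * sin t := by fun_prop
    refine integral_mono_on (by linarith [pi_pos]) ?_ ?_ ?_
    · exact ((cq.pow 2).mul hkc).intervalIntegrable _ _
    · exact ((((hfc.sub (continuous_arcsin.comp cont_pr)).mul cq).mul hkc).add
        (continuous_const.mul (cq.abs.mul hkc))).intervalIntegrable _ _
    intro t _
    have k0 := (ker_pos (pr_sq_lt hX t)).le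
    have a1 : cos (t - s) ∈ Icc (-1 : ℝ) 1 := ⟨neg_one_le_cos _, cos_le_one _⟩
    have a2 : pr x y t ∈ Icc (-1 : ℝ) 1 := by
      have := pr_sq_lt hX t
      exact abs_le.1 (abs_le_of_sq_le_sq (by linarith) zero_le_one)
    have a3 := arcsin_exp a1 a2
    have a4 : (cos s - x) * cos t + (sin s - y) * sin t = cos (t - s) - pr x y t := by
      rw [cos_sub]
      unfold pr
      ring
    have a5 := hft t
    rw [a4]
    have a6 : -(d * |cos (t - s) - pr x y t|) ≤ (f t - arcsin (cos (t - s))) * (cos (t - s) - pr x y t) := by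
      have b1 : |(f t - arcsin (cos (t - s))) * (cos (t - s) - pr x y t)| ≤ d * |cos (t - s) - pr x y t| := by
        rw [abs_mul]
        exact mul_le_mul_of_nonneg_right a5 (abs_nonneg _)
      exact (neg_le_neg b1).trans (neg_abs_le _)
    have a7 : (cos (t - s) - pr x y t) ^ 2 ≤
        (f t - arcsin (pr x y t)) * (cos (t - s) - pr x y t) + d * |cos (t - s) - pr x y t| := by
      nlinarith
    calc (cos (t - s) - pr x y t) ^ 2 * ker (pr x y t)
        ≤ ((f t - arcsin (pr x y t)) * (cos (t - s) - pr x y t) + d * |cos (t - s) - pr x y t|)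
          * ker (pr x y t) := mul_le_mul_of_nonneg_right a7 k0
      _ = _ := by ring
  have m2 : ∫ t in (0 : ℝ)..(2 * π), ((f t - arcsin (pr x y t)) * ((cos s - x) * cos t + (sin s - y) * sin t)
          * ker (pr x y t)
        + d * (|(cos s - x) * cos t + (sin s - y) * sin t| * ker (pr x y t)))
      = d * ∫ t in (0 : ℝ)..(2 * π), |(cos s - x) * cos t + (sin s - y) * sin t| * ker (pr x y t) := by
    have cq : Continuous fun t => (cos s - x) * cos t + (sin s - y) * sin t := by fun_prop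
    rw [intervalIntegral.integral_add, test hfc hX hG1 hG2, intervalIntegral.integral_const_mul, zero_add]
    · exact (((hfc.sub (continuous_arcsin.comp cont_pr)).mul cq).mul hkc).intervalIntegrable _ _
    · exact (continuous_const.mul (cq.abs.mul hkc)).intervalIntegrable _ _
  rw [m2] at m
  have n := (l.trans m).trans (mul_le_mul_of_nonneg_left u hd)
  -- algebra
  have hη : 1 - r * cos ψ = 1 - (x * cos s + y * sin s) := by
    have h1 : cos ψ = cos φ * cos s + sin φ * sin s := by rw [hψ, cos_sub]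
    rw [h1]
    linear_combination cos s * hx + sin s * hy
  have hη2 : (cos ψ - r) ^ 2 + (1 - r ^ 2) * sin ψ ^ 2 = (1 - r * cos ψ) ^ 2 := by
    have := sin_sq_add_cos_sq ψ
    linear_combination (1 - r ^ 2) * this
  have hη0 : 0 < 1 - r * cos ψ := by
    have := cos_le_one ψ
    have := neg_one_le_cos ψ
    nlinarith
  have n6 := alg hc hη0 hη2 hd n
  linarith

end Pool.Agent.FPX.F54B
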