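import Mathlib
import Pool.Agent.FPX.UMPDefs

/-
F54Defs (helper76): helper54's universal map in the Klein disc. `f` is an odd 1-Lipschitz function of
the circle with `|f| < π/2`; `F54 f = (x, y)` is the zero of
`G (x, y) = ∫ (f - arcsin p) (1 - p²)^(-3/2) u dt`, `u = (cos t, sin t)`, `p = x cos t + y sin t`.
The point of the hemisphere is `(x, y, √(1 - x² - y²))`.
-/

open MeasureTheory Set Filter Topology

noncomputable section

namespace Pool.Agent.FPX.F54

open Real

/-- `⟨(x, y), u_t⟩` -/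
def pr (x y t : ℝ) : ℝ := x * cos t + y * sin t

/-- the kernel `(a - arcsin p) (1 - p²)^(-3/2)` -/
def kk (p a : ℝ) : ℝ := (a - arcsin p) / √(1 - p ^ 2) ^ 3

/-- minus the derivative of the kernel in `p`: `(1 - p²)^(-2) (1 - 3 (a - arcsin p) p (1 - p²)^(-1/2))` -/
def kp (p a : ℝ) : ℝ := (1 - 3 * (a - arcsin p) * p / √(1 - p ^ 2)) / √(1 - p ^ 2) ^ 4

/-- first component of the equation -/
def G1 (x y : ℝ) (f : ℝ → ℝ) : ℝ := ∫ t in (0 : ℝ)..(2 * π), cos t * kk (pr x y t) (f t)

/-- second component of the equation -/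
def G2 (x y : ℝ) (f : ℝ → ℝ) : ℝ := ∫ t in (0 : ℝ)..(2 * π), sin t * kk (pr x y t) (f t)

/-- minus the derivative of the equation: first entry -/
def H11 (x y : ℝ) (f : ℝ → ℝ) : ℝ := ∫ t in (0 : ℝ)..(2 * π), cos t * cos t * kp (pr x y t) (f t)

/-- minus the derivative of the equation: off diagonal entry -/
def H12 (x y : ℝ) (f : ℝ → ℝ) : ℝ := ∫ t in (0 : ℝ)..(2 * π), cos t * sin t * kp (pr x y t) (f t)

/-- minus the derivative of the equation: last entry -/
def H22 (x y : ℝ) (f : ℝ → ℝ) : ℝ := ∫ t in (0 : ℝ)..(2 * π), sin t * sin t * kp (pr x y t) (f t)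

end Pool.Agent.FPX.F54
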