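import Mathlib

/-
CME (helper8): the continuity method. A family `G p` of maps with invertible derivative at every zero,
all zeros in a compact set, and exactly one zero for one parameter has exactly one zero for every
parameter of a preconnected parameter space, and the zero is continuous.
-/

open Set Filter Topology Metric
open scoped NNReal

noncomputable section

namespace Pool.Agent.FPX.CME

variable {P V : Type*} [TopologicalSpace P] [NormedAddCommGroup V] [NormedSpace ℝ V]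

/-- the hypotheses of the continuity method -/
structure Dat (G : P → V → V) (G' : P → V → V →L[ℝ] V) (U K : Set V) : Prop where
  op : IsOpen U
  cpt : IsCompact K
  sub : K ⊆ U
  cont : ∀ p, ∀ x ∈ U, ContinuousAt (Function.uncurry G) (p, x)
  der : ∀ p, ∀ x ∈ U, HasFDerivAt (G p) (G' p x) x
  cont' : ∀ p, ∀ x ∈ U, ContinuousAt (Function.uncurry G') (p, x)
  zer : ∀ p, ∀ x ∈ U, G p x = 0 → x ∈ K
  inv : ∀ p, ∀ x ∈ U, G p x = 0 → ∃ e : V ≃L[ℝ] V, (e : V →L[ℝ] V) = G' p x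

variable {G : P → V → V} {G' : P → V → V →L[ℝ] V} {U K : Set V}

namespace Dat

/-- existence and uniqueness near a nondegenerate zero -/
theorem loc [CompleteSpace V] (H : Dat G G' U K) {p₀ : P} {x₀ : V} (hx : x₀ ∈ U)
    (h0 : G p₀ x₀ = 0) : ∃ r₀ : ℝ, 0 < r₀ ∧ closedBall x₀ r₀ ⊆ U ∧
      (∀ᶠ p in 𝓝 p₀, InjOn (G p) (closedBall x₀ r₀)) ∧
      ∀ r : ℝ, 0 < r → r ≤ r₀ → ∀ᶠ p in 𝓝 p₀, ∃ x ∈ closedBall x₀ r, G p x = 0 := by
  obtain ⟨e, he⟩ := H.inv p₀ x₀ hx h0
  by_cases hV : Subsingleton V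
  · obtain ⟨r, hr, hrU⟩ := Metric.nhds_basis_closedBall.mem_iff.1 (H.op.mem_nhds hx)
    refine ⟨r, hr, hrU, Eventually.of_forall fun p x _ y _ _ => Subsingleton.elim x y, ?_⟩
    intro r' hr' _
    exact Eventually.of_forall fun p => ⟨x₀, mem_closedBall_self hr'.le, Subsingleton.elim _ _⟩
  have hN : 0 < ‖(e.symm : V →L[ℝ] V)‖₊ := by
    rw [pos_iff_ne_zero]
    intro h
    rw [nnnorm_eq_zero] at h
    apply hV
    refine ⟨fun x y => ?_⟩
    have h1 : ∀ z : V, z = 0 := fun z => by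
      have : e.symm (e z) = 0 := by
        change (e.symm : V →L[ℝ] V) (e z) = 0
        rw [h]
        simp
      simpa using this
    rw [h1 x, h1 y]
  set N : ℝ≥0 := ‖(e.symm : V →L[ℝ] V)‖₊ with hNdef
  set c : ℝ≥0 := N⁻¹ / 2 with hc
  have hc0 : 0 < c := by positivity
  have hcN : c < N⁻¹ := by
    rw [hc]
    exact NNReal.half_lt_self (inv_ne_zero hN.ne')
  -- the derivative is close to `e`
  have h1 : ∀ᶠ q in 𝓝 (p₀, x₀), ‖G' q.1 q.2 - (e : V →L[ℝ] V)‖ < c := by
    have h2 := H.cont' p₀ x₀ hx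
    rw [Metric.continuousAt_iff'] at h2
    have h3 := h2 c (by exact_mod_cast hc0)
    filter_upwards [h3] with q hq
    have h4 : dist (Function.uncurry G' q) (Function.uncurry G' (p₀, x₀)) = ‖G' q.1 q.2 - G' p₀ x₀‖ := by
      rw [dist_eq_norm]
      rfl
    rw [he, ← h4]
    exact hq
  rw [nhds_prod_eq, Filter.eventually_prod_iff] at h1
  obtain ⟨pa, hpa, pb, hpb, h1⟩ := h1
  obtain ⟨r₁, hr₁, hb₁⟩ := Metric.nhds_basis_closedBall.mem_iff.1 (inter_mem (H.op.mem_nhds hx) hpb)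
  have happ : ∀ p, pa p → ApproximatesLinearOn (G p) (e : V →L[ℝ] V) (closedBall x₀ r₁) c := by
    intro p hp
    have hder : ∀ x ∈ closedBall x₀ r₁, HasFDerivWithinAt (fun z => G p z - (e : V →L[ℝ] V) z)
        (G' p x - (e : V →L[ℝ] V)) (closedBall x₀ r₁) x := by
      intro x hx'
      exact ((H.der p x (hb₁ hx').1).sub ((e : V →L[ℝ] V).hasFDerivAt)).hasFDerivWithinAt
    have hlip := (convex_closedBall x₀ r₁).lipschitzOnWith_of_nnnorm_hasFDerivWithin_le (C := c) hder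
      (fun x hx' => by
        have := h1 hp (hb₁ hx').2
        exact_mod_cast this.le)
    intro x hx' y hy'
    have h5 := hlip.dist_le_mul x hx' y hy'
    rw [dist_eq_norm, dist_eq_norm] at h5
    have h6 : G p x - G p y - (e : V →L[ℝ] V) (x - y)
        = (G p x - (e : V →L[ℝ] V) x) - (G p y - (e : V →L[ℝ] V) y) := by
      rw [map_sub]
      abel
    rw [h6]
    exact h5
  refine ⟨r₁, hr₁, fun x hx' => (hb₁ hx').1, ?_, ?_⟩
  · filter_upwards [hpa] with p hp
    exact (happ p hp).injOn (Or.inr hcN)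
  · intro r hr hrr
    have hsub : closedBall x₀ r ⊆ closedBall x₀ r₁ := closedBall_subset_closedBall hrr
    have hcont : ∀ᶠ p in 𝓝 p₀, ‖G p x₀‖ < ((N : ℝ)⁻¹ - c) * r := by
      have h7 : ContinuousAt (fun p => G p x₀) p₀ := by
        have h8 := H.cont p₀ x₀ hx
        exact ContinuousAt.comp (g := Function.uncurry G) (f := fun p => (p, x₀)) h8
          (by fun_prop)
      have h9 : 0 < ((N : ℝ)⁻¹ - c) * r := by
        have : (c : ℝ) < (N : ℝ)⁻¹ := by exact_mod_cast hcN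
        have : 0 < (N : ℝ)⁻¹ - c := by linarith
        positivity
      have h10 := h7.norm
      rw [ContinuousAt, h0, norm_zero] at h10
      exact h10.eventually (gt_mem_nhds h9)
    filter_upwards [hpa, hcont] with p hp hp2
    have hs := (happ p hp).surjOn_closedBall_of_nonlinearRightInverse
      (e.toNonlinearRightInverse) hr.le hsub
    have hmem : (0 : V) ∈ closedBall (G p x₀) (((e.toNonlinearRightInverse.nnnorm : ℝ)⁻¹ - c) * r) := by
      rw [mem_closedBall, dist_comm, dist_zero_right]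
      exact hp2.le
    obtain ⟨x, hx', hx''⟩ := hs hmem
    exact ⟨x, hx', hx''⟩

/-- no zeros on a compact set: stable in the parameter -/
theorem none (H : Dat G G' U K) {p₀ : P} {A : Set V} (hA : IsCompact A) (hAU : A ⊆ U)
    (h : ∀ x ∈ A, G p₀ x ≠ 0) : ∀ᶠ p in 𝓝 p₀, ∀ x ∈ A, G p x ≠ 0 := by
  refine hA.eventually_forall_of_forall_eventually fun x hx => ?_
  have h1 := H.cont p₀ x (hAU hx)
  have h2 : Function.uncurry G (p₀, x) ≠ 0 := h x hx
  exact h1.eventually_ne h2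

/-- zeros stay near the unique zero -/
theorem near (H : Dat G G' U K) {p₀ : P} {x₀ : V} (h1 : ∀ x ∈ U, G p₀ x = 0 → x = x₀)
    {r : ℝ} (hr : 0 < r) : ∀ᶠ p in 𝓝 p₀, ∀ x ∈ U, G p x = 0 → x ∈ ball x₀ r := by
  have h2 := H.none (p₀ := p₀) (A := K \ ball x₀ r) (H.cpt.diff isOpen_ball)
    (fun x hx => H.sub hx.1) (fun x hx h0 => hx.2 (by
      rw [h1 x (H.sub hx.1) h0]
      exact mem_ball_self hr))
  filter_upwards [h2] with p hp x hx h0
  by_contra h
  exact hp x ⟨H.zer p x hx h0, h⟩ h0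

/-- the set of parameters with exactly one zero is open -/
theorem isOpen_one [CompleteSpace V] (H : Dat G G' U K) :
    IsOpen {p | ∃! x, x ∈ U ∧ G p x = 0} := by
  rw [isOpen_iff_mem_nhds]
  rintro p₀ ⟨x₀, ⟨hx, h0⟩, hu⟩
  obtain ⟨r₀, hr₀, hbU, hinj, hex⟩ := H.loc hx h0
  filter_upwards [hinj, hex r₀ hr₀ le_rfl,
    H.near (p₀ := p₀) (x₀ := x₀) (fun x hx' h => hu x ⟨hx', h⟩) hr₀] with p h1 h2 h3
  obtain ⟨x, hx', hx0⟩ := h2
  refine ⟨x, ⟨hbU hx', hx0⟩, ?_⟩
  rintro y ⟨hy, hy0⟩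
  exact h1 (ball_subset_closedBall (h3 y hy hy0)) hx' (by rw [hy0, hx0])

/-- the set of parameters with exactly one zero is closed -/
theorem isClosed_one [CompleteSpace V] (H : Dat G G' U K) :
    IsClosed {p | ∃! x, x ∈ U ∧ G p x = 0} := by
  rw [isClosed_iff_frequently]
  intro p₀ hf
  have hex : ∃ x ∈ K, G p₀ x = 0 := by
    by_contra hno
    push Not at hno
    have h1 := H.none (p₀ := p₀) H.cpt H.sub hno
    obtain ⟨p, ⟨x, ⟨hx, h0⟩, -⟩, hp⟩ := (hf.and_eventually h1).exists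
    exact hp x (H.zer p x hx h0) h0
  obtain ⟨x₀, hx, h0⟩ := hex
  refine ⟨x₀, ⟨H.sub hx, h0⟩, ?_⟩
  rintro y ⟨hy, hy0⟩
  by_contra hne
  obtain ⟨r₁, hr₁, hb₁, -, he₁⟩ := H.loc (H.sub hx) h0
  obtain ⟨r₂, hr₂, hb₂, -, he₂⟩ := H.loc hy hy0
  have hd : 0 < dist y x₀ := dist_pos.2 hne
  set r := min (min r₁ r₂) (dist y x₀ / 3) with hr
  have hr0 : 0 < r := by positivity
  have hf2 := hf.and_eventually ((he₁ r hr0 ((min_le_left _ _).trans (min_le_left _ _))).and
    (he₂ r hr0 ((min_le_left _ _).trans (min_le_right _ _))))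
  obtain ⟨p, ⟨z, ⟨-, -⟩, hz⟩, ⟨a, ha, ha0⟩, b, hb, hb0⟩ := hf2.exists
  have haU : a ∈ U := hb₁ (closedBall_subset_closedBall ((min_le_left _ _).trans (min_le_left _ _)) ha)
  have hbU : b ∈ U := hb₂ (closedBall_subset_closedBall ((min_le_left _ _).trans (min_le_right _ _)) hb)
  have hab : a = b := (hz a ⟨haU, ha0⟩).trans (hz b ⟨hbU, hb0⟩).symm
  rw [mem_closedBall] at ha hb
  have h1 : dist y x₀ ≤ dist b y + dist a x₀ := by
    rw [hab, dist_comm b y]
    exact dist_triangle _ _ _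
  have h2 : r ≤ dist y x₀ / 3 := min_le_right _ _
  linarith

/-- **the continuity method** -/
theorem unique [CompleteSpace V] [PreconnectedSpace P] (H : Dat G G' U K) {p₀ : P}
    (h0 : ∃! x, x ∈ U ∧ G p₀ x = 0) (p : P) : ∃! x, x ∈ U ∧ G p x = 0 := by
  have h1 : IsClopen {p | ∃! x, x ∈ U ∧ G p x = 0} := ⟨H.isClosed_one, H.isOpen_one⟩
  have h2 := h1.eq_univ ⟨p₀, h0⟩
  have h3 : p ∈ {p | ∃! x, x ∈ U ∧ G p x = 0} := by
    rw [h2]
    exact mem_univ p
  exact h3

/-- the zero is continuous -/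
theorem continuous (H : Dat G G' U K) {s : P → V} (hs : ∀ p, s p ∈ U ∧ G p (s p) = 0)
    (hu : ∀ p, ∀ x ∈ U, G p x = 0 → x = s p) : Continuous s := by
  rw [continuous_iff_continuousAt]
  intro p₀
  rw [Metric.continuousAt_iff']
  intro ε hε
  filter_upwards [H.near (p₀ := p₀) (x₀ := s p₀) (hu p₀) hε] with p hp
  exact hp (s p) (hs p).1 (hs p).2

end Dat

/-- a zero that is continuous in the parameter is differentiable along a curve of parameters: if
`g s y` is differentiable at `(s₀, y₀)` jointly with partial derivatives `a` and `L`, `L`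
invertible, then the zero has the derivative `-L⁻¹ a` -/
theorem deriv_zero {g : ℝ → V → V} {y : ℝ → V} {s₀ : ℝ} {a : V} (e : V ≃L[ℝ] V)
    (hg : HasFDerivAt (Function.uncurry g) (((ContinuousLinearMap.toSpanSingleton ℝ a).comp
      (ContinuousLinearMap.fst ℝ ℝ V)) + (e : V →L[ℝ] V).comp (ContinuousLinearMap.snd ℝ ℝ V))
      (s₀, y s₀))
    (hy : ContinuousAt y s₀) (h0 : ∀ᶠ s in 𝓝 s₀, g s (y s) = 0) :
    HasDerivAt y (-(e.symm a)) s₀ := by
  have h00 : g s₀ (y s₀) = 0 := h0.self_of_nhds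
  rw [hasDerivAt_iff_isLittleO]
  set N : ℝ := ‖(e.symm : V →L[ℝ] V)‖ with hN
  have hN0 : 0 ≤ N := norm_nonneg _
  -- the remainder
  have h1 := hg.isLittleO
  have h2 : Tendsto (fun s => (s, y s)) (𝓝 s₀) (𝓝 (s₀, y s₀)) := by
    have : ContinuousAt (fun s => (s, y s)) s₀ := continuousAt_id.prodMk hy
    exact this
  have h3 := h1.comp_tendsto h2
  -- `y s - y s₀ + (s - s₀) e⁻¹ a = - e⁻¹ (remainder)`
  rw [Asymptotics.isLittleO_iff] at h3 ⊢
  intro ε hε
  set A : ℝ := ‖e.symm a‖ with hA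
  have hA0 : 0 ≤ A := norm_nonneg _
  -- choose the constant
  set c : ℝ := min (1 / (2 * (N + 1))) (ε / (2 * (N + 1) * (2 * (A + 1)))) with hc
  have hc0 : 0 < c := by
    rw [hc]
    positivity
  have h4 := h3 hc0
  filter_upwards [h4, h0] with s hs hs0
  simp only [Function.comp_apply, Function.uncurry_apply_pair, Prod.mk_sub_mk] at hs
  rw [hs0, h00] at hs
  have h5 : (((ContinuousLinearMap.toSpanSingleton ℝ a).comp
      (ContinuousLinearMap.fst ℝ ℝ V)) + (e : V →L[ℝ] V).comp (ContinuousLinearMap.snd ℝ ℝ V))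
      (s - s₀, y s - y s₀) = (s - s₀) • a + e (y s - y s₀) := by
    simp
  rw [h5, sub_zero, zero_sub, norm_neg] at hs
  have h6 : y s - y s₀ - (s - s₀) • (-(e.symm a)) = e.symm ((s - s₀) • a + e (y s - y s₀)) := by
    rw [map_add, map_smul]
    simp only [ContinuousLinearEquiv.symm_apply_apply, smul_neg, sub_neg_eq_add]
    abel
  have h7 : ‖y s - y s₀ - (s - s₀) • (-(e.symm a))‖ ≤ N * (c * ‖(s - s₀, y s - y s₀)‖) := by
    rw [h6]
    refine ((e.symm : V →L[ℝ] V).le_opNorm _).trans ?_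
    exact mul_le_mul_of_nonneg_left hs hN0
  have h8 : ‖(s - s₀, y s - y s₀)‖ ≤ ‖s - s₀‖ + ‖y s - y s₀‖ := by
    rw [Prod.norm_def]
    exact max_le (by linarith [norm_nonneg (y s - y s₀)]) (by linarith [norm_nonneg (s - s₀)])
  have h9 : ‖y s - y s₀‖ ≤ ‖y s - y s₀ - (s - s₀) • (-(e.symm a))‖ + ‖s - s₀‖ * A := by
    have : y s - y s₀ = (y s - y s₀ - (s - s₀) • (-(e.symm a))) + (s - s₀) • (-(e.symm a)) := by abel
    calc ‖y s - y s₀‖ = ‖(y s - y s₀ - (s - s₀) • (-(e.symm a))) + (s - s₀) • (-(e.symm a))‖ := by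
          rw [← this]
      _ ≤ _ := by
          refine (norm_add_le _ _).trans ?_
          rw [norm_smul (s - s₀), norm_neg]
  have hc1 : N * c ≤ 1 / 2 := by
    have : c ≤ 1 / (2 * (N + 1)) := min_le_left _ _
    calc N * c ≤ (N + 1) * (1 / (2 * (N + 1))) := by
          apply mul_le_mul (by linarith) this hc0.le (by linarith)
      _ = 1 / 2 := by field_simp
  have hc2 : N * c * (2 * (A + 1)) ≤ ε := by
    have h : c ≤ ε / (2 * (N + 1) * (2 * (A + 1))) := min_le_right _ _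
    calc N * c * (2 * (A + 1)) ≤ (2 * (N + 1)) * (ε / (2 * (N + 1) * (2 * (A + 1)))) * (2 * (A + 1)) := by
          apply mul_le_mul_of_nonneg_right _ (by positivity)
          apply mul_le_mul (by linarith) h hc0.le (by linarith)
      _ = ε := by field_simp
  set R := ‖y s - y s₀ - (s - s₀) • (-(e.symm a))‖ with hR
  set σ := ‖s - s₀‖ with hσ
  have hσ0 : 0 ≤ σ := norm_nonneg _
  have hR0 : 0 ≤ R := norm_nonneg _
  have h10 : R ≤ N * c * (σ + (R + σ * A)) := by
    calc R ≤ N * (c * ‖(s - s₀, y s - y s₀)‖) := h7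
      _ ≤ N * (c * (σ + (R + σ * A))) := by
          apply mul_le_mul_of_nonneg_left _ hN0
          apply mul_le_mul_of_nonneg_left _ hc0.le
          linarith
      _ = _ := by ring
  have h11 : N * c * R ≤ R / 2 := by nlinarith
  have h12 : R ≤ N * c * (2 * (A + 1)) * σ := by nlinarith
  calc R ≤ N * c * (2 * (A + 1)) * σ := h12
    _ ≤ ε * σ := mul_le_mul_of_nonneg_right hc2 hσ0

end Pool.Agent.FPX.CME
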