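import Mathlib
import Pool.Agent.FPX.UMB

/-
KNT (helper8): integrals `∫ K(X, t, f t) dt` of a kernel that is `C¹` in `(X, a)`, `X ∈ ℝ²`: continuity
in `(X, f)` and differentiability along curves of functions.
-/

open MeasureTheory Set Filter Topology
open scoped ENNReal NNReal

noncomputable section

namespace Pool.Agent.FPX.KNT

open Pool.Agent.FPX.UMP Pool.Agent.FPX.UMQ

open Real

/-- a kernel `K(X, t, a)`, `X ∈ U ⊆ ℝ²`, `|a| < π/2`, with its partial derivatives in `X` and `a` -/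
structure Ker (K Kx Ky Ka : ℝ × ℝ → ℝ → ℝ → ℝ) (U : Set (ℝ × ℝ)) : Prop where
  op : IsOpen U
  der : ∀ X ∈ U, ∀ t a, |a| < π / 2 → HasFDerivAt (fun q : (ℝ × ℝ) × ℝ => K q.1 t q.2)
    (Kx X t a • (ContinuousLinearMap.fst ℝ ℝ ℝ).comp (ContinuousLinearMap.fst ℝ (ℝ × ℝ) ℝ)
      + Ky X t a • (ContinuousLinearMap.snd ℝ ℝ ℝ).comp (ContinuousLinearMap.fst ℝ (ℝ × ℝ) ℝ)
      + Ka X t a • ContinuousLinearMap.snd ℝ (ℝ × ℝ) ℝ) (X, a)
  cK : ∀ X ∈ U, ∀ t a, |a| < π / 2 →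
    ContinuousAt (fun q : (ℝ × ℝ) × ℝ × ℝ => K q.1 q.2.1 q.2.2) (X, t, a)
  cx : ∀ X ∈ U, ∀ t a, |a| < π / 2 →
    ContinuousAt (fun q : (ℝ × ℝ) × ℝ × ℝ => Kx q.1 q.2.1 q.2.2) (X, t, a)
  cy : ∀ X ∈ U, ∀ t a, |a| < π / 2 →
    ContinuousAt (fun q : (ℝ × ℝ) × ℝ × ℝ => Ky q.1 q.2.1 q.2.2) (X, t, a)
  ca : ∀ X ∈ U, ∀ t a, |a| < π / 2 →
    ContinuousAt (fun q : (ℝ × ℝ) × ℝ × ℝ => Ka q.1 q.2.1 q.2.2) (X, t, a)

/-- a function of `(X, t, a)` that is continuous at every point `(X₀, t, a)`, `|a| ≤ m`, is bounded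
near `X₀` -/
theorem loc_bd {K : ℝ × ℝ → ℝ → ℝ → ℝ} {X₀ : ℝ × ℝ}
    (h : ∀ t a, |a| < π / 2 → ContinuousAt (fun q : (ℝ × ℝ) × ℝ × ℝ => K q.1 q.2.1 q.2.2) (X₀, t, a))
    {m : ℝ} (hm : m < π / 2) :
    ∃ C : ℝ, 0 ≤ C ∧ ∀ᶠ X in 𝓝 X₀, ∀ t ∈ Icc (0 : ℝ) (2 * π), ∀ a, |a| ≤ m → |K X t a| ≤ C := by
  have hcpt : IsCompact (Icc (0 : ℝ) (2 * π) ×ˢ Icc (-m) m) := isCompact_Icc.prod isCompact_Icc
  have hco : ContinuousOn (fun z : ℝ × ℝ => K X₀ z.1 z.2) (Icc (0 : ℝ) (2 * π) ×ˢ Icc (-m) m) := by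
    intro z hz
    have h1 := h z.1 z.2 (lt_of_le_of_lt (abs_le.2 ⟨hz.2.1, hz.2.2⟩) hm)
    have h2 : ContinuousAt (fun z : ℝ × ℝ => (X₀, z.1, z.2)) z := by fun_prop
    exact (ContinuousAt.comp (f := fun z : ℝ × ℝ => (X₀, z.1, z.2))
      (g := fun q : (ℝ × ℝ) × ℝ × ℝ => K q.1 q.2.1 q.2.2) h1 h2).continuousWithinAt
  obtain ⟨B, hB⟩ := hcpt.exists_bound_of_continuousOn hco
  refine ⟨|B| + 1, by positivity, ?_⟩
  have key := hcpt.eventually_forall_of_forall_eventually (x₀ := X₀)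
    (P := fun X z => |K X z.1 z.2| ≤ |B| + 1) ?_
  · filter_upwards [key] with X hX t ht a ha
    exact hX (t, a) ⟨ht, (abs_le.1 ha)⟩
  · intro z hz
    have h1 := h z.1 z.2 (lt_of_le_of_lt (abs_le.2 ⟨hz.2.1, hz.2.2⟩) hm)
    have h2 : |K X₀ z.1 z.2| < |B| + 1 := by
      have := hB z hz
      rw [Real.norm_eq_abs] at this
      linarith [le_abs_self B]
    have h3 := h1.abs.eventually (gt_mem_nhds h2)
    filter_upwards [h3] with q hq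
    exact hq.le

namespace Ker

variable {K Kx Ky Ka : ℝ × ℝ → ℝ → ℝ → ℝ} {U : Set (ℝ × ℝ)}

/-- local Lipschitz bound, uniform in `t` -/
theorem lip (H : Ker K Kx Ky Ka U) {X₀ : ℝ × ℝ} (hX : X₀ ∈ U) {m : ℝ} (hm : m < π / 2) :
    ∃ C : ℝ, 0 ≤ C ∧ ∃ δ : ℝ, 0 < δ ∧ Metric.ball X₀ δ ⊆ U ∧ ∀ t ∈ Icc (0 : ℝ) (2 * π),
      ∀ X ∈ Metric.ball X₀ δ, ∀ Y ∈ Metric.ball X₀ δ, ∀ a b, |a| ≤ m → |b| ≤ m →
        |K X t a - K Y t b| ≤ C * (‖X - Y‖ + |a - b|) := by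
  obtain ⟨C1, hC1, h1⟩ := loc_bd (H.cx X₀ hX) hm
  obtain ⟨C2, hC2, h2⟩ := loc_bd (H.cy X₀ hX) hm
  obtain ⟨C3, hC3, h3⟩ := loc_bd (H.ca X₀ hX) hm
  obtain ⟨δ, hδ, hall⟩ := Metric.eventually_nhds_iff_ball.1
    (h1.and (h2.and (h3.and (H.op.mem_nhds hX))))
  refine ⟨C1 + C2 + C3, by positivity, δ, hδ, fun X hXb => (hall X hXb).2.2.2, ?_⟩
  intro t ht X hXb Y hYb a b ha hb
  have hconv : Convex ℝ (Metric.ball X₀ δ ×ˢ Icc (-m) m) := (convex_ball _ _).prod (convex_Icc _ _)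
  have key := hconv.norm_image_sub_le_of_norm_hasFDerivWithin_le
    (f := fun q : (ℝ × ℝ) × ℝ => K q.1 t q.2)
    (f' := fun q => Kx q.1 t q.2 •
        (ContinuousLinearMap.fst ℝ ℝ ℝ).comp (ContinuousLinearMap.fst ℝ (ℝ × ℝ) ℝ)
      + Ky q.1 t q.2 • (ContinuousLinearMap.snd ℝ ℝ ℝ).comp (ContinuousLinearMap.fst ℝ (ℝ × ℝ) ℝ)
      + Ka q.1 t q.2 • ContinuousLinearMap.snd ℝ (ℝ × ℝ) ℝ)
    (C := C1 + C2 + C3) (x := (Y, b)) (y := (X, a)) ?_ ?_ ⟨hYb, abs_le.1 hb⟩ ⟨hXb, abs_le.1 ha⟩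
  · rw [Real.norm_eq_abs] at key
    refine key.trans ?_
    apply mul_le_mul_of_nonneg_left _ (by positivity)
    rw [Prod.norm_def]
    simp only [Prod.fst_sub, Prod.snd_sub, Real.norm_eq_abs]
    exact max_le (by linarith [abs_nonneg (a - b)]) (by linarith [norm_nonneg (X - Y)])
  · intro q hq
    exact (H.der q.1 (hall q.1 hq.1).2.2.2 t q.2
      (lt_of_le_of_lt (abs_le.2 ⟨hq.2.1, hq.2.2⟩) hm)).hasFDerivWithinAt
  · intro q hq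
    have hq2 : |q.2| ≤ m := abs_le.2 ⟨hq.2.1, hq.2.2⟩
    have n1 : ‖(ContinuousLinearMap.fst ℝ ℝ ℝ).comp (ContinuousLinearMap.fst ℝ (ℝ × ℝ) ℝ)‖ ≤ 1 := by
      refine (ContinuousLinearMap.opNorm_comp_le _ _).trans ?_
      have := ContinuousLinearMap.norm_fst_le ℝ ℝ ℝ
      have := ContinuousLinearMap.norm_fst_le ℝ (ℝ × ℝ) ℝ
      nlinarith [norm_nonneg (ContinuousLinearMap.fst ℝ ℝ ℝ),
        norm_nonneg (ContinuousLinearMap.fst ℝ (ℝ × ℝ) ℝ)]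
    have n2 : ‖(ContinuousLinearMap.snd ℝ ℝ ℝ).comp (ContinuousLinearMap.fst ℝ (ℝ × ℝ) ℝ)‖ ≤ 1 := by
      refine (ContinuousLinearMap.opNorm_comp_le _ _).trans ?_
      have := ContinuousLinearMap.norm_snd_le ℝ ℝ ℝ
      have := ContinuousLinearMap.norm_fst_le ℝ (ℝ × ℝ) ℝ
      nlinarith [norm_nonneg (ContinuousLinearMap.snd ℝ ℝ ℝ),
        norm_nonneg (ContinuousLinearMap.fst ℝ (ℝ × ℝ) ℝ)]
    have n3 : ‖ContinuousLinearMap.snd ℝ (ℝ × ℝ) ℝ‖ ≤ 1 := ContinuousLinearMap.norm_snd_le ℝ (ℝ × ℝ) ℝ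
    have b1 := (hall q.1 hq.1).1 t ht q.2 hq2
    have b2 := (hall q.1 hq.1).2.1 t ht q.2 hq2
    have b3 := (hall q.1 hq.1).2.2.1 t ht q.2 hq2
    refine (norm_add_le _ _).trans ?_
    refine add_le_add ((norm_add_le _ _).trans (add_le_add ?_ ?_)) ?_
    · rw [norm_smul, Real.norm_eq_abs]
      calc _ ≤ C1 * 1 := mul_le_mul b1 n1 (norm_nonneg _) hC1
        _ = C1 := mul_one _
    · rw [norm_smul, Real.norm_eq_abs]
      calc _ ≤ C2 * 1 := mul_le_mul b2 n2 (norm_nonneg _) hC2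
        _ = C2 := mul_one _
    · rw [norm_smul, Real.norm_eq_abs]
      calc _ ≤ C3 * 1 := mul_le_mul b3 n3 (norm_nonneg _) hC3
        _ = C3 := mul_one _

/-- measurability of `t ↦ K X t (g t)` -/
theorem _root_.Pool.Agent.FPX.KNT.meas_of {K : ℝ × ℝ → ℝ → ℝ → ℝ} {X : ℝ × ℝ}
    (h : ∀ t a, |a| < π / 2 → ContinuousAt (fun q : (ℝ × ℝ) × ℝ × ℝ => K q.1 q.2.1 q.2.2) (X, t, a))
    {g : ℝ → ℝ} (hg : Measurable g) (hb : ∀ t, |g t| < π / 2) : Measurable fun t => K X t (g t) := by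
  classical
  set S : Set (ℝ × ℝ) := univ ×ˢ Ioo (-(π / 2)) (π / 2) with hS
  have hSm : MeasurableSet S := MeasurableSet.univ.prod measurableSet_Ioo
  have hco : ContinuousOn (fun z : ℝ × ℝ => K X z.1 z.2) S := by
    intro z hz
    have h1 := h z.1 z.2 (abs_lt.2 ⟨hz.2.1, hz.2.2⟩)
    have h2 : ContinuousAt (fun z : ℝ × ℝ => (X, z.1, z.2)) z := by fun_prop
    exact (ContinuousAt.comp (f := fun z : ℝ × ℝ => (X, z.1, z.2))
      (g := fun q : (ℝ × ℝ) × ℝ × ℝ => K q.1 q.2.1 q.2.2) h1 h2).continuousWithinAt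
  have h3 : Measurable (S.piecewise (fun z : ℝ × ℝ => K X z.1 z.2) 0) :=
    hco.measurable_piecewise continuousOn_const hSm
  have h4 : Measurable fun t : ℝ => (t, g t) := measurable_id.prodMk hg
  have h5 := h3.comp h4
  have h6 : (fun t => K X t (g t))
      = (S.piecewise (fun z : ℝ × ℝ => K X z.1 z.2) 0) ∘ fun t : ℝ => (t, g t) := by
    funext t
    have : (t, g t) ∈ S := ⟨mem_univ _, abs_lt.1 (hb t)⟩
    simp [this]
  rw [h6]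
  exact h5

/-- differentiability of the integral along a curve of functions, jointly with `X` -/
theorem hasFDerivAt (H : Ker K Kx Ky Ka U) {φ : ℝ → ℝ → ℝ} {h : ℝ → ℝ} {x : ℝ} (hc : Crv φ h x)
    {X₀ : ℝ × ℝ} (hX : X₀ ∈ U) :
    HasFDerivAt (fun q : ℝ × (ℝ × ℝ) => ∫ t in (0 : ℝ)..(2 * π), K q.2 t (φ q.1 t))
      ((∫ t in (0 : ℝ)..(2 * π), Ka X₀ t (φ x t) * h t) • ContinuousLinearMap.fst ℝ ℝ (ℝ × ℝ)
        + (∫ t in (0 : ℝ)..(2 * π), Kx X₀ t (φ x t)) •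
          (ContinuousLinearMap.fst ℝ ℝ ℝ).comp (ContinuousLinearMap.snd ℝ ℝ (ℝ × ℝ))
        + (∫ t in (0 : ℝ)..(2 * π), Ky X₀ t (φ x t)) •
          (ContinuousLinearMap.snd ℝ ℝ ℝ).comp (ContinuousLinearMap.snd ℝ ℝ (ℝ × ℝ)))
      (x, X₀) := by
  obtain ⟨m, hm0, hm, hbd⟩ := hc.bd
  obtain ⟨Cl, hCl0, hCl⟩ := hc.loc
  obtain ⟨C, hC0, δ, hδ, hbU, hlip⟩ := H.lip hX hm
  have hbx : ∀ t, |φ x t| ≤ m := hbd.self_of_nhds
  have hlt : ∀ t, |φ x t| < π / 2 := fun t => lt_of_le_of_lt (hbx t) hm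
  simp only [intervalIntegral.integral_of_le (show (0 : ℝ) ≤ 2 * π by positivity)]
  set L1 := (ContinuousLinearMap.fst ℝ ℝ (ℝ × ℝ)) with hL1
  set L2 := (ContinuousLinearMap.fst ℝ ℝ ℝ).comp (ContinuousLinearMap.snd ℝ ℝ (ℝ × ℝ)) with hL2
  set L3 := (ContinuousLinearMap.snd ℝ ℝ ℝ).comp (ContinuousLinearMap.snd ℝ ℝ (ℝ × ℝ)) with hL3
  set F' : ℝ → (ℝ × (ℝ × ℝ) →L[ℝ] ℝ) := fun t => (Ka X₀ t (φ x t) * h t) • L1
    + Kx X₀ t (φ x t) • L2 + Ky X₀ t (φ x t) • L3 with hF'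
  have ma : Measurable fun t => Ka X₀ t (φ x t) := meas_of (H.ca X₀ hX) (hc.meas x) hlt
  have mx : Measurable fun t => Kx X₀ t (φ x t) := meas_of (H.cx X₀ hX) (hc.meas x) hlt
  have my : Measurable fun t => Ky X₀ t (φ x t) := meas_of (H.cy X₀ hX) (hc.meas x) hlt
  have mK : Measurable fun t => K X₀ t (φ x t) := meas_of (H.cK X₀ hX) (hc.meas x) hlt
  have hF'm : AEStronglyMeasurable F' (volume.restrict (Ioc 0 (2 * π))) :=
    (((ma.mul hc.measd).smul_const _).add (mx.smul_const _) |>.add (my.smul_const _)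
      ).aestronglyMeasurable
  have key := hasFDerivAt_integral_of_dominated_loc_of_lip' (𝕜 := ℝ)
    (μ := volume.restrict (Ioc 0 (2 * π)))
    (F := fun (q : ℝ × (ℝ × ℝ)) t => K q.2 t (φ q.1 t)) (F' := F') (x₀ := (x, X₀))
    (bound := fun _ => C * (1 + Cl))
    (s := {q | q.2 ∈ Metric.ball X₀ δ ∧ (∀ t, |φ q.1 t| ≤ m) ∧
      ∀ t ∈ Icc (0 : ℝ) (2 * π), |φ q.1 t - φ x t| ≤ Cl * |q.1 - x|}) ?_ ?_ ?_ hF'm ?_
      (integrable_const _) ?_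
  · refine key.2.congr_fderiv ?_
    have hFi := key.1
    have e : ∀ v, (∫ t in Ioc 0 (2 * π), F' t) v = ∫ t in Ioc 0 (2 * π), F' t v :=
      fun v => ContinuousLinearMap.integral_apply hFi v
    ext
    · simp only [ContinuousLinearMap.comp_apply, ContinuousLinearMap.inl_apply, e]
      simp [hF', hL1, hL2, hL3]
    · simp only [ContinuousLinearMap.comp_apply, ContinuousLinearMap.inr_apply,
        ContinuousLinearMap.inl_apply, e]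
      simp [hF', hL1, hL2, hL3]
    · simp only [ContinuousLinearMap.comp_apply, ContinuousLinearMap.inr_apply, e]
      simp [hF', hL1, hL2, hL3]
  · have e1 : ∀ᶠ q : ℝ × (ℝ × ℝ) in 𝓝 (x, X₀), q.2 ∈ Metric.ball X₀ δ :=
      (continuous_snd.tendsto (x, X₀)).eventually (Metric.ball_mem_nhds X₀ hδ)
    have e2 : ∀ᶠ q : ℝ × (ℝ × ℝ) in 𝓝 (x, X₀), ∀ t, |φ q.1 t| ≤ m :=
      (continuous_fst.tendsto (x, X₀)).eventually hbd
    have e3 : ∀ᶠ q : ℝ × (ℝ × ℝ) in 𝓝 (x, X₀),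
        ∀ t ∈ Icc (0 : ℝ) (2 * π), |φ q.1 t - φ x t| ≤ Cl * |q.1 - x| :=
      (continuous_fst.tendsto (x, X₀)).eventually hCl
    filter_upwards [e1, e2, e3] with q h1 h2 h3
    exact ⟨h1, h2, h3⟩
  · rintro q ⟨h1, h2, -⟩
    exact (meas_of (H.cK q.2 (hbU h1)) (hc.meas q.1)
      fun t => lt_of_le_of_lt (h2 t) hm).aestronglyMeasurable
  · -- integrability at the base point
    obtain ⟨CK, hCK, hK⟩ := loc_bd (H.cK X₀ hX) hm
    have hK0 := hK.self_of_nhds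
    refine Integrable.of_bound (C := CK) mK.aestronglyMeasurable ?_
    rw [ae_restrict_iff' measurableSet_Ioc]
    exact Eventually.of_forall fun t ht => hK0 t (Ioc_subset_Icc_self ht) _ (hbx t)
  · rw [ae_restrict_iff' measurableSet_Ioc]
    refine Eventually.of_forall fun t ht q hq => ?_
    obtain ⟨h1, h2, h3⟩ := hq
    have ht' := Ioc_subset_Icc_self ht
    have h4 := hlip t ht' q.2 h1 X₀ (Metric.mem_ball_self hδ) _ _ (h2 t) (hbx t)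
    rw [Real.norm_eq_abs]
    refine h4.trans ?_
    have h5 : ‖q.2 - X₀‖ ≤ ‖q - (x, X₀)‖ := by
      rw [Prod.norm_def]
      exact le_max_right _ _
    have h6 : |q.1 - x| ≤ ‖q - (x, X₀)‖ := by
      rw [Prod.norm_def]
      exact le_max_left _ _
    have h7 := h3 t ht'
    have h8 : ‖q.2 - X₀‖ + |φ q.1 t - φ x t| ≤ (1 + Cl) * ‖q - (x, X₀)‖ := by
      nlinarith
    calc C * (‖q.2 - X₀‖ + |φ q.1 t - φ x t|) ≤ C * ((1 + Cl) * ‖q - (x, X₀)‖) :=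
          mul_le_mul_of_nonneg_left h8 hC0
      _ = _ := by ring
  · rw [ae_restrict_iff' measurableSet_Ioc]
    refine Eventually.of_forall fun t _ => ?_
    have h1 := H.der X₀ hX t (φ x t) (hlt t)
    have h2 : HasFDerivAt (fun q : ℝ × (ℝ × ℝ) => (q.2, φ q.1 t))
        ((ContinuousLinearMap.snd ℝ ℝ (ℝ × ℝ)).prod
          ((ContinuousLinearMap.toSpanSingleton ℝ (h t)).comp (ContinuousLinearMap.fst ℝ ℝ (ℝ × ℝ))))
        (x, X₀) := by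
      refine (hasFDerivAt_snd).prodMk ?_
      have h5 : HasFDerivAt (Prod.fst : ℝ × (ℝ × ℝ) → ℝ) (ContinuousLinearMap.fst ℝ ℝ (ℝ × ℝ))
          (x, X₀) := hasFDerivAt_fst
      exact HasFDerivAt.comp (x, X₀) (g := fun s => φ s t) (hc.der t).hasFDerivAt h5
    have h3 := HasFDerivAt.comp (x, X₀) h1 h2
    refine h3.congr_fderiv ?_
    ext
    · simp [hF', hL1, hL2, hL3]
    · simp [hF', hL1, hL2, hL3]
    · simp [hF', hL1, hL2, hL3]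

end Ker

end Pool.Agent.FPX.KNT
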