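import Mathlib
import Pool.Agent.FPX.KNT
import Pool.Agent.FPX.UMP1
import Pool.Agent.FPX.CME

/-
KZR (helper8): the zero `Z f ∈ U ⊆ ℝ²` of `X ↦ ∫ K_i(X, t, f t) dt`, `i = 0, 1`: if zeros are
nondegenerate, stay in a compact part of `U` for `|f| ≤ m < π/2`, and `f = 0` has exactly one zero, then
every odd 1-Lipschitz `f` has exactly one zero; it is continuous in the sup norm and differentiable
along curves.
-/

open MeasureTheory Set Filter Topology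
open scoped ENNReal NNReal BoundedContinuousFunction

noncomputable section

namespace Pool.Agent.FPX.KNT

open Pool.Agent.FPX.UMP Pool.Agent.FPX.UMQ

open Real

/-- joint continuity in the parameter and in `X` -/
theorem cont_int {K : ℝ × ℝ → ℝ → ℝ → ℝ} {U : Set (ℝ × ℝ)} (hU : IsOpen U)
    (h : ∀ X ∈ U, ∀ t a, |a| < π / 2 →
      ContinuousAt (fun q : (ℝ × ℝ) × ℝ × ℝ => K q.1 q.2.1 q.2.2) (X, t, a))
    {P : Type*} [TopologicalSpace P] [FirstCountableTopology P] {F : P → ℝ → ℝ}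
    (hF : Continuous (Function.uncurry F)) {m : ℝ} (hm : m < π / 2) (hb : ∀ p t, |F p t| ≤ m)
    (p₀ : P) {X₀ : ℝ × ℝ} (hX : X₀ ∈ U) :
    ContinuousAt (fun q : P × (ℝ × ℝ) => ∫ t in (0 : ℝ)..(2 * π), K q.2 t (F q.1 t)) (p₀, X₀) := by
  obtain ⟨C, hC0, hC⟩ := loc_bd (h X₀ hX) hm
  have hFt : ∀ p, Continuous (F p) := fun p => hF.comp (by fun_prop : Continuous fun t => (p, t))
  have e1 : ∀ᶠ q : P × (ℝ × ℝ) in 𝓝 (p₀, X₀), q.2 ∈ U :=
    (continuous_snd.tendsto (p₀, X₀)).eventually (hU.mem_nhds hX)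
  have e2 : ∀ᶠ q : P × (ℝ × ℝ) in 𝓝 (p₀, X₀),
      ∀ t ∈ Icc (0 : ℝ) (2 * π), ∀ a, |a| ≤ m → |K q.2 t a| ≤ C :=
    (continuous_snd.tendsto (p₀, X₀)).eventually hC
  refine intervalIntegral.continuousAt_of_dominated_interval (bound := fun _ => C) ?_ ?_
    intervalIntegrable_const ?_
  · filter_upwards [e1] with q hq
    exact (meas_of (h q.2 hq) (hFt q.1).measurable
      fun t => lt_of_le_of_lt (hb q.1 t) hm).aestronglyMeasurable
  · filter_upwards [e2] with q hq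
    refine Eventually.of_forall fun t ht => ?_
    rw [uIoc_of_le (by positivity)] at ht
    exact hq t (Ioc_subset_Icc_self ht) _ (hb q.1 t)
  · refine Eventually.of_forall fun t _ => ?_
    have h1 := h X₀ hX t (F p₀ t) (lt_of_le_of_lt (hb p₀ t) hm)
    have h2 : ContinuousAt (fun q : P × (ℝ × ℝ) => (q.2, t, F q.1 t)) (p₀, X₀) := by
      have : Continuous (fun q : P × (ℝ × ℝ) => (q.2, t, F q.1 t)) := by
        refine continuous_snd.prodMk (continuous_const.prodMk ?_)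
        exact hF.comp (by fun_prop : Continuous fun q : P × (ℝ × ℝ) => (q.1, t))
      exact this.continuousAt
    exact ContinuousAt.comp (f := fun q : P × (ℝ × ℝ) => (q.2, t, F q.1 t))
      (g := fun q : (ℝ × ℝ) × ℝ × ℝ => K q.1 q.2.1 q.2.2) h1 h2

/-- the linear map with a given matrix -/
def mat (a b c d : ℝ) : ℝ × ℝ →L[ℝ] ℝ × ℝ :=
  a • ((ContinuousLinearMap.inl ℝ ℝ ℝ).comp (ContinuousLinearMap.fst ℝ ℝ ℝ))
    + b • ((ContinuousLinearMap.inl ℝ ℝ ℝ).comp (ContinuousLinearMap.snd ℝ ℝ ℝ))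
    + c • ((ContinuousLinearMap.inr ℝ ℝ ℝ).comp (ContinuousLinearMap.fst ℝ ℝ ℝ))
    + d • ((ContinuousLinearMap.inr ℝ ℝ ℝ).comp (ContinuousLinearMap.snd ℝ ℝ ℝ))

@[simp] theorem mat_apply (a b c d : ℝ) (v : ℝ × ℝ) :
    mat a b c d v = (a * v.1 + b * v.2, c * v.1 + d * v.2) := by
  simp [mat]

/-- the inverse matrix -/
theorem mat_inv {a b c d : ℝ} (h : a * d - b * c ≠ 0) :
    ∃ e : (ℝ × ℝ) ≃L[ℝ] (ℝ × ℝ), (e : ℝ × ℝ →L[ℝ] ℝ × ℝ) = mat a b c d ∧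
      ∀ v : ℝ × ℝ, e.symm v = ((d * v.1 - b * v.2) / (a * d - b * c),
        (a * v.2 - c * v.1) / (a * d - b * c)) := by
  set D := a * d - b * c with hD
  have h1 : Function.LeftInverse (mat (d / D) (-b / D) (-c / D) (a / D)) (mat a b c d) := by
    intro v
    ext
    · simp only [mat_apply]
      field_simp
      rw [hD]
      ring
    · simp only [mat_apply]
      field_simp
      rw [hD]
      ring
  have h2 : Function.RightInverse (mat (d / D) (-b / D) (-c / D) (a / D)) (mat a b c d) := by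
    intro v
    ext
    · simp only [mat_apply]
      field_simp
      rw [hD]
      ring
    · simp only [mat_apply]
      field_simp
      rw [hD]
      ring
  refine ⟨ContinuousLinearEquiv.equivOfInverse (mat a b c d)
    (mat (d / D) (-b / D) (-c / D) (a / D)) h1 h2, ?_, ?_⟩
  · ext <;> simp
  · intro v
    have : (ContinuousLinearEquiv.equivOfInverse (mat a b c d)
      (mat (d / D) (-b / D) (-c / D) (a / D)) h1 h2).symm v
        = mat (d / D) (-b / D) (-c / D) (a / D) v := rfl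
    rw [this, mat_apply]
    ext
    · simp only
      ring
    · simp only
      ring

/-- the value of the equations -/
def Gk (K : Fin 2 → ℝ × ℝ → ℝ → ℝ → ℝ) (i : Fin 2) (X : ℝ × ℝ) (f : ℝ → ℝ) : ℝ :=
  ∫ t in (0 : ℝ)..(2 * π), K i X t (f t)

/-- the hypotheses on a map given by two kernels -/
structure KMap (K Kx Ky Ka : Fin 2 → ℝ × ℝ → ℝ → ℝ → ℝ) (U : Set (ℝ × ℝ)) : Prop where
  ker : ∀ i, Ker (K i) (Kx i) (Ky i) (Ka i) U
  apr : ∀ m, 0 ≤ m → m < π / 2 → ∃ A, IsCompact A ∧ A ⊆ U ∧ ∀ f, Ef f → (∀ t, |f t| ≤ m) →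
    ∀ X ∈ U, (∀ i, Gk K i X f = 0) → X ∈ A
  det : ∀ f, Ef f → ∀ X ∈ U, (∀ i, Gk K i X f = 0) →
    Gk Kx 0 X f * Gk Ky 1 X f - Gk Ky 0 X f * Gk Kx 1 X f ≠ 0
  one : ∃! X, X ∈ U ∧ ∀ i, Gk K i X (fun _ => 0) = 0

/-- the parameter space -/
def Pm (m : ℝ) : Set (ℝ →ᵇ ℝ) := {f | Ef f ∧ ∀ t, |f t| ≤ m}

theorem convex_Pm (m : ℝ) : Convex ℝ (Pm m) := by
  intro f hf g hg a b ha hb hab
  have hbd : ∀ t, |(a • f + b • g) t| ≤ a * |f t| + b * |g t| := by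
    intro t
    simp only [BoundedContinuousFunction.coe_add, BoundedContinuousFunction.coe_smul, Pi.add_apply,
      smul_eq_mul]
    refine (abs_add_le _ _).trans ?_
    rw [abs_mul, abs_mul, abs_of_nonneg ha, abs_of_nonneg hb]
  refine ⟨⟨?_, ?_, ?_⟩, ?_⟩
  · refine LipschitzWith.of_dist_le_mul fun s t => ?_
    simp only [BoundedContinuousFunction.coe_add, BoundedContinuousFunction.coe_smul, Pi.add_apply,
      smul_eq_mul, NNReal.coe_one, one_mul, Real.dist_eq]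
    have h1 := hf.1.abs_sub s t
    have h2 := hg.1.abs_sub s t
    have h3 : a * f s + b * g s - (a * f t + b * g t) = a * (f s - f t) + b * (g s - g t) := by ring
    rw [h3]
    refine (abs_add_le _ _).trans ?_
    rw [abs_mul, abs_mul, abs_of_nonneg ha, abs_of_nonneg hb]
    nlinarith [abs_nonneg (s - t)]
  · intro t
    simp only [BoundedContinuousFunction.coe_add, BoundedContinuousFunction.coe_smul, Pi.add_apply,
      smul_eq_mul, hf.1.odd t, hg.1.odd t]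
    ring
  · intro t
    refine lt_of_le_of_lt (hbd t) ?_
    have h1 := hf.1.lt t
    have h2 := hg.1.lt t
    obtain rfl : b = 1 - a := by linarith
    rcases eq_or_lt_of_le ha with h | h
    · rw [← h]
      simpa using h2
    · nlinarith
  · intro t
    refine (hbd t).trans ?_
    have h1 := hf.2 t
    have h2 := hg.2 t
    obtain rfl : b = 1 - a := by linarith
    nlinarith

/-- bounded continuous version of a function in `Ef` -/
def bcf {f : ℝ → ℝ} (h : Ef f) : ℝ →ᵇ ℝ :=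
  BoundedContinuousFunction.ofNormedAddCommGroup f h.cont (π / 2) fun t => (h.lt t).le

@[simp] theorem bcf_apply {f : ℝ → ℝ} (h : Ef f) (t : ℝ) : bcf h t = f t := rfl

@[simp] theorem coe_bcf {f : ℝ → ℝ} (h : Ef f) : ⇑(bcf h) = f := rfl

theorem Ef_zero : Ef fun _ => (0 : ℝ) where
  lip := (LipschitzWith.const 0).weaken zero_le_one
  odd := fun t => by simp
  lt := fun t => by
    rw [abs_zero]
    positivity

/-- the constant curve -/
theorem crv_const {f : ℝ → ℝ} (hf : Ef f) (x : ℝ) : Crv (fun _ => f) (fun _ => 0) x where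
  meas := fun _ => hf.cont.measurable
  measd := measurable_const
  der := fun t => hasDerivAt_const _ _
  loc := ⟨0, le_rfl, Eventually.of_forall fun s t _ => by simp⟩
  bd := by
    obtain ⟨m, h0, h1, h2⟩ := hf.exists_bd
    exact ⟨m, h0, h1, Eventually.of_forall fun s t => h2 t⟩
  ef := hf

/-- the equations as a map -/
def GG (K : Fin 2 → ℝ × ℝ → ℝ → ℝ → ℝ) (f : ℝ → ℝ) (X : ℝ × ℝ) : ℝ × ℝ := (Gk K 0 X f, Gk K 1 X f)

/-- the derivative of the equations -/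
def GD (Kx Ky : Fin 2 → ℝ × ℝ → ℝ → ℝ → ℝ) (f : ℝ → ℝ) (X : ℝ × ℝ) : ℝ × ℝ →L[ℝ] ℝ × ℝ :=
  mat (Gk Kx 0 X f) (Gk Ky 0 X f) (Gk Kx 1 X f) (Gk Ky 1 X f)

theorem GG_eq_zero {K : Fin 2 → ℝ × ℝ → ℝ → ℝ → ℝ} {f : ℝ → ℝ} {X : ℝ × ℝ} :
    GG K f X = 0 ↔ ∀ i, Gk K i X f = 0 := by
  constructor
  · intro h i
    have h1 := congrArg Prod.fst h
    have h2 := congrArg Prod.snd h
    fin_cases i
    · exact h1
    · exact h2
  · intro h
    exact Prod.ext (h 0) (h 1)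

namespace KMap

variable {K Kx Ky Ka : Fin 2 → ℝ × ℝ → ℝ → ℝ → ℝ} {U : Set (ℝ × ℝ)}

/-- joint derivative along a curve of functions -/
theorem joint (H : KMap K Kx Ky Ka U) {φ : ℝ → ℝ → ℝ} {h : ℝ → ℝ} {x : ℝ} (hc : Crv φ h x)
    {X₀ : ℝ × ℝ} (hX : X₀ ∈ U) :
    HasFDerivAt (Function.uncurry fun (s : ℝ) (X : ℝ × ℝ) => GG K (φ s) X)
      (((ContinuousLinearMap.toSpanSingleton ℝ
        ((∫ t in (0 : ℝ)..(2 * π), Ka 0 X₀ t (φ x t) * h t,
          ∫ t in (0 : ℝ)..(2 * π), Ka 1 X₀ t (φ x t) * h t) : ℝ × ℝ)).comp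
        (ContinuousLinearMap.fst ℝ ℝ (ℝ × ℝ)))
        + (GD Kx Ky (φ x) X₀).comp (ContinuousLinearMap.snd ℝ ℝ (ℝ × ℝ))) (x, X₀) := by
  have h0 := (H.ker 0).hasFDerivAt hc hX
  have h1 := (H.ker 1).hasFDerivAt hc hX
  have h2 := h0.prodMk h1
  have e : (Function.uncurry fun (s : ℝ) (X : ℝ × ℝ) => GG K (φ s) X)
      = fun q : ℝ × (ℝ × ℝ) => ((∫ t in (0 : ℝ)..(2 * π), K 0 q.2 t (φ q.1 t)),
        ∫ t in (0 : ℝ)..(2 * π), K 1 q.2 t (φ q.1 t)) := by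
    funext q
    rfl
  rw [e]
  refine h2.congr_fderiv ?_
  ext <;> simp [GD, Gk]

theorem dat (H : KMap K Kx Ky Ka U) {m : ℝ} (hm : m < π / 2) {A : Set (ℝ × ℝ)}
    (hA : IsCompact A) (hAU : A ⊆ U) (hz : ∀ f, Ef f → (∀ t, |f t| ≤ m) →
      ∀ X ∈ U, (∀ i, Gk K i X f = 0) → X ∈ A) :
    CME.Dat (P := Pm m) (fun p X => GG K p.1 X) (fun p X => GD Kx Ky p.1 X) U A where
  op := (H.ker 0).op
  cpt := hA
  sub := hAU
  cont := fun p X hX => by
    have hF : Continuous (Function.uncurry fun (p : Pm m) (t : ℝ) => p.1 t) := by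
      have : (Function.uncurry fun (p : Pm m) (t : ℝ) => p.1 t) = fun q : Pm m × ℝ => q.1.1 q.2 := by
        funext q
        rfl
      rw [this]
      have h1 : Continuous fun q : Pm m × ℝ => (q.1 : ℝ →ᵇ ℝ) := continuous_subtype_val.comp continuous_fst
      exact h1.eval continuous_snd
    have hb : ∀ (p : Pm m) t, |p.1 t| ≤ m := fun p t => p.2.2 t
    have h0 := cont_int (H.ker 0).op (H.ker 0).cK hF hm hb p hX
    have h1 := cont_int (H.ker 1).op (H.ker 1).cK hF hm hb p hX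
    exact h0.prodMk h1
  der := fun p X hX => by
    have h := H.joint (crv_const p.2.1 0) hX
    have h2 : HasFDerivAt (fun X : ℝ × ℝ => ((0 : ℝ), X)) (ContinuousLinearMap.inr ℝ ℝ (ℝ × ℝ)) X :=
      hasFDerivAt_prodMk_right _ _
    have h3 := HasFDerivAt.comp X (g := Function.uncurry fun (_ : ℝ) (X : ℝ × ℝ) => GG K p.1 X) h h2
    refine h3.congr_fderiv ?_
    ext <;> simp
  cont' := fun p X hX => by
    have hF : Continuous (Function.uncurry fun (p : Pm m) (t : ℝ) => p.1 t) := by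
      have : (Function.uncurry fun (p : Pm m) (t : ℝ) => p.1 t) = fun q : Pm m × ℝ => q.1.1 q.2 := by
        funext q
        rfl
      rw [this]
      have h1 : Continuous fun q : Pm m × ℝ => (q.1 : ℝ →ᵇ ℝ) := continuous_subtype_val.comp continuous_fst
      exact h1.eval continuous_snd
    have hb : ∀ (p : Pm m) t, |p.1 t| ≤ m := fun p t => p.2.2 t
    have a0 := cont_int (H.ker 0).op (H.ker 0).cx hF hm hb p hX
    have a1 := cont_int (H.ker 0).op (H.ker 0).cy hF hm hb p hX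
    have a2 := cont_int (H.ker 1).op (H.ker 1).cx hF hm hb p hX
    have a3 := cont_int (H.ker 1).op (H.ker 1).cy hF hm hb p hX
    have e : (Function.uncurry fun (p : Pm m) (X : ℝ × ℝ) => GD Kx Ky p.1 X)
        = fun q : Pm m × (ℝ × ℝ) => mat (∫ t in (0 : ℝ)..(2 * π), Kx 0 q.2 t (q.1.1 t))
          (∫ t in (0 : ℝ)..(2 * π), Ky 0 q.2 t (q.1.1 t))
          (∫ t in (0 : ℝ)..(2 * π), Kx 1 q.2 t (q.1.1 t))
          (∫ t in (0 : ℝ)..(2 * π), Ky 1 q.2 t (q.1.1 t)) := by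
      funext q
      rfl
    rw [e]
    unfold mat
    exact (((a0.smul continuousAt_const).add (a1.smul continuousAt_const)).add
      (a2.smul continuousAt_const)).add (a3.smul continuousAt_const)
  zer := fun p X hX h0 => hz p.1 p.2.1 p.2.2 X hX (GG_eq_zero.1 h0)
  inv := fun p X hX h0 => by
    obtain ⟨e, he, -⟩ := mat_inv (H.det p.1 p.2.1 X hX (GG_eq_zero.1 h0))
    exact ⟨e, he⟩

/-- every odd 1-Lipschitz function has exactly one zero -/
theorem exu (H : KMap K Kx Ky Ka U) {f : ℝ → ℝ} (hf : Ef f) :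
    ∃! X, X ∈ U ∧ ∀ i, Gk K i X f = 0 := by
  obtain ⟨m, hm0, hm, hb⟩ := hf.exists_bd
  obtain ⟨A, hA, hAU, hz⟩ := H.apr m hm0 hm
  have D := H.dat hm hA hAU hz
  have : PreconnectedSpace (Pm m) := isPreconnected_iff_preconnectedSpace.1 (convex_Pm m).isPreconnected
  have h0 : ∃! X, X ∈ U ∧ GG K ((⟨bcf Ef_zero, Ef_zero, fun t => by simpa using hm0⟩ : Pm m) : ℝ →ᵇ ℝ) X = 0 := by
    obtain ⟨X, hX, hu⟩ := H.one
    refine ⟨X, ⟨hX.1, GG_eq_zero.2 hX.2⟩, fun Y hY => hu Y ⟨hY.1, GG_eq_zero.1 hY.2⟩⟩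
  obtain ⟨X, hX, hu⟩ := D.unique h0 ⟨bcf hf, hf, hb⟩
  exact ⟨X, ⟨hX.1, GG_eq_zero.1 hX.2⟩, fun Y hY => hu Y ⟨hY.1, GG_eq_zero.2 hY.2⟩⟩

end KMap

/-- the zero -/
def ZZ (K : Fin 2 → ℝ × ℝ → ℝ → ℝ → ℝ) (U : Set (ℝ × ℝ)) (f : ℝ → ℝ) : ℝ × ℝ :=
  open Classical in if h : ∃ X, X ∈ U ∧ ∀ i, Gk K i X f = 0 then h.choose else 0

namespace KMap

variable {K Kx Ky Ka : Fin 2 → ℝ × ℝ → ℝ → ℝ → ℝ} {U : Set (ℝ × ℝ)}

theorem spec (H : KMap K Kx Ky Ka U) {f : ℝ → ℝ} (hf : Ef f) :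
    ZZ K U f ∈ U ∧ ∀ i, Gk K i (ZZ K U f) f = 0 := by
  have h : ∃ X, X ∈ U ∧ ∀ i, Gk K i X f = 0 := (H.exu hf).exists
  unfold ZZ
  rw [dif_pos h]
  exact h.choose_spec

theorem mem (H : KMap K Kx Ky Ka U) {f : ℝ → ℝ} (hf : Ef f) : ZZ K U f ∈ U := (H.spec hf).1

theorem zero (H : KMap K Kx Ky Ka U) {f : ℝ → ℝ} (hf : Ef f) (i : Fin 2) :
    Gk K i (ZZ K U f) f = 0 := (H.spec hf).2 i

theorem eq (H : KMap K Kx Ky Ka U) {f : ℝ → ℝ} (hf : Ef f) {X : ℝ × ℝ} (hX : X ∈ U)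
    (h0 : ∀ i, Gk K i X f = 0) : ZZ K U f = X := by
  obtain ⟨Y, hY, hu⟩ := H.exu hf
  rw [hu _ (H.spec hf), hu X ⟨hX, h0⟩]

/-- continuity in the sup norm -/
theorem tendsto (H : KMap K Kx Ky Ka U) {ι : Type*} {l : Filter ι} {φ : ι → ℝ → ℝ} {f : ℝ → ℝ}
    (hφ : ∀ᶠ i in l, Ef (φ i)) (hf : Ef f)
    (h : ∀ ε : ℝ, 0 < ε → ∀ᶠ i in l, ∀ t, |φ i t - f t| ≤ ε) :
    Tendsto (fun i => ZZ K U (φ i)) l (𝓝 (ZZ K U f)) := by
  obtain ⟨m, hm0, hm, hb⟩ := hf.exists_bd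
  set m' : ℝ := (m + π / 2) / 2 with hm'
  have hm'1 : m' < π / 2 := by rw [hm']; linarith
  have hm'2 : m < m' := by rw [hm']; linarith
  obtain ⟨A, hA, hAU, hz⟩ := H.apr m' (by linarith) hm'1
  have D := H.dat hm'1 hA hAU hz
  rw [Metric.tendsto_nhds]
  intro ε hε
  have hb' : ∀ t, |f t| ≤ m' := fun t => (hb t).trans hm'2.le
  have h1 := D.near (p₀ := ⟨bcf hf, hf, hb'⟩) (x₀ := ZZ K U f)
    (fun x hx h0 => (H.eq hf hx (GG_eq_zero.1 h0)).symm) hε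
  obtain ⟨δ, hδ, h2⟩ := Metric.eventually_nhds_iff_ball.1 h1
  filter_upwards [hφ, h (min (δ / 2) (m' - m)) (lt_min (by linarith) (by linarith))] with i hi hi2
  have hb2 : ∀ t, |φ i t| ≤ m' := fun t => by
    have h3 := (hi2 t).trans (min_le_right _ _)
    have h4 := abs_sub_abs_le_abs_sub (φ i t) (f t)
    linarith [hb t]
  have h5 : (⟨bcf hi, hi, hb2⟩ : Pm m') ∈ Metric.ball (⟨bcf hf, hf, hb'⟩ : Pm m') δ := by
    rw [Metric.mem_ball, Subtype.dist_eq]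
    refine lt_of_le_of_lt ((BoundedContinuousFunction.dist_le (by positivity)).2 fun t => ?_)
      (half_lt_self hδ)
    simp only [bcf_apply, Real.dist_eq]
    exact (hi2 t).trans (min_le_left _ _)
  exact h2 _ h5 _ (H.mem hi) (GG_eq_zero.2 (H.zero hi))

/-- the derivative along curves -/
theorem der (H : KMap K Kx Ky Ka U) {φ : ℝ → ℝ → ℝ} {h : ℝ → ℝ} {x : ℝ} (hc : Crv φ h x)
    (he : ∀ᶠ s in 𝓝 x, Ef (φ s)) :
    HasDerivAt (fun s => ZZ K U (φ s))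
      (-((Gk Ky 1 (ZZ K U (φ x)) (φ x) * (∫ t in (0 : ℝ)..(2 * π), Ka 0 (ZZ K U (φ x)) t (φ x t) * h t)
          - Gk Ky 0 (ZZ K U (φ x)) (φ x) * ∫ t in (0 : ℝ)..(2 * π), Ka 1 (ZZ K U (φ x)) t (φ x t) * h t)
        / (Gk Kx 0 (ZZ K U (φ x)) (φ x) * Gk Ky 1 (ZZ K U (φ x)) (φ x)
          - Gk Ky 0 (ZZ K U (φ x)) (φ x) * Gk Kx 1 (ZZ K U (φ x)) (φ x)),
        (Gk Kx 0 (ZZ K U (φ x)) (φ x) * (∫ t in (0 : ℝ)..(2 * π), Ka 1 (ZZ K U (φ x)) t (φ x t) * h t)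
          - Gk Kx 1 (ZZ K U (φ x)) (φ x) * ∫ t in (0 : ℝ)..(2 * π), Ka 0 (ZZ K U (φ x)) t (φ x t) * h t)
        / (Gk Kx 0 (ZZ K U (φ x)) (φ x) * Gk Ky 1 (ZZ K U (φ x)) (φ x)
          - Gk Ky 0 (ZZ K U (φ x)) (φ x) * Gk Kx 1 (ZZ K U (φ x)) (φ x)))) x := by
  have hf := hc.ef
  have hX := H.mem hf
  obtain ⟨e, he1, he2⟩ := mat_inv (H.det (φ x) hf _ hX (H.zero hf))
  have hj := H.joint hc hX
  have hcont : ContinuousAt (fun s => ZZ K U (φ s)) x := by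
    refine H.tendsto he hf fun ε hε => ?_
    obtain ⟨C, hC0, hC⟩ := hc.loc
    have h1 : ∀ᶠ s in 𝓝 x, |s - x| < ε / (C + 1) := by
      have : Tendsto (fun s => |s - x|) (𝓝 x) (𝓝 |x - x|) :=
        (continuous_abs.comp (continuous_id.sub continuous_const)).tendsto x
      rw [sub_self, abs_zero] at this
      exact this.eventually (gt_mem_nhds (by positivity))
    filter_upwards [he, hC, h1] with s hs h2 h3 t
    have hp : Function.Periodic (fun t => φ s t - φ x t) (2 * π) := fun t => by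
      change φ s (t + 2 * π) - φ x (t + 2 * π) = φ s t - φ x t
      rw [hs.per t, hf.per t]
    obtain ⟨t', ht', h4⟩ := hp.exists_mem_Ico₀ (by positivity) t
    have h4' : φ s t - φ x t = φ s t' - φ x t' := h4
    rw [h4']
    refine (h2 t' (Ico_subset_Icc_self ht')).trans ?_
    rw [lt_div_iff₀ (by positivity)] at h3
    nlinarith [abs_nonneg (s - x)]
  have hd := CME.deriv_zero (g := fun (s : ℝ) (X : ℝ × ℝ) => GG K (φ s) X)
    (y := fun s => ZZ K U (φ s)) (s₀ := x) e (by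
      rw [he1]
      exact hj) hcont (by
      filter_upwards [he] with s hs
      exact GG_eq_zero.2 (H.zero hs))
  rw [he2] at hd
  exact hd

/-- derivative along curves of a functional `∫ L(Z f, t, f t) dt` -/
theorem der_fun {L Lx Ly La : ℝ × ℝ → ℝ → ℝ → ℝ} (hL : Ker L Lx Ly La U)
    {Z : (ℝ → ℝ) → ℝ × ℝ} {φ : ℝ → ℝ → ℝ} {h : ℝ → ℝ} {x : ℝ} (hc : Crv φ h x)
    (hX : Z (φ x) ∈ U) {z : ℝ × ℝ} (hz : HasDerivAt (fun s => Z (φ s)) z x) :
    HasDerivAt (fun s => ∫ t in (0 : ℝ)..(2 * π), L (Z (φ s)) t (φ s t))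
      ((∫ t in (0 : ℝ)..(2 * π), La (Z (φ x)) t (φ x t) * h t)
        + (∫ t in (0 : ℝ)..(2 * π), Lx (Z (φ x)) t (φ x t)) * z.1
        + (∫ t in (0 : ℝ)..(2 * π), Ly (Z (φ x)) t (φ x t)) * z.2) x := by
  have h1 := hL.hasFDerivAt hc hX
  have h2 : HasDerivAt (fun s => (s, Z (φ s))) ((1 : ℝ), z) x := (hasDerivAt_id x).prodMk hz
  have h3 := HasFDerivAt.comp_hasDerivAt_of_eq x h1 h2 rfl
  refine h3.congr_deriv ?_
  simp

/-- continuity of a functional `∫ L(Z f, t, f t) dt` in the sup norm -/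
theorem tendsto_fun (hU : IsOpen U) {L : ℝ × ℝ → ℝ → ℝ → ℝ}
    (hL : ∀ X ∈ U, ∀ t a, |a| < π / 2 →
      ContinuousAt (fun q : (ℝ × ℝ) × ℝ × ℝ => L q.1 q.2.1 q.2.2) (X, t, a))
    {Z : (ℝ → ℝ) → ℝ × ℝ} {ι : Type*} {l : Filter ι} {φ : ι → ℝ → ℝ} {f : ℝ → ℝ}
    (hφ : ∀ᶠ i in l, Ef (φ i)) (hf : Ef f)
    (h : ∀ ε : ℝ, 0 < ε → ∀ᶠ i in l, ∀ t, |φ i t - f t| ≤ ε) (hX : Z f ∈ U)
    (hZ : Tendsto (fun i => Z (φ i)) l (𝓝 (Z f))) :
    Tendsto (fun i => ∫ t in (0 : ℝ)..(2 * π), L (Z (φ i)) t (φ i t)) l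
      (𝓝 (∫ t in (0 : ℝ)..(2 * π), L (Z f) t (f t))) := by
  obtain ⟨m, hm0, hm, hb⟩ := hf.exists_bd
  set m' : ℝ := (m + π / 2) / 2 with hm'
  have hm'1 : m' < π / 2 := by rw [hm']; linarith
  have hm'2 : m < m' := by rw [hm']; linarith
  have hF : Continuous (Function.uncurry fun (p : Pm m') (t : ℝ) => p.1 t) := by
    have : (Function.uncurry fun (p : Pm m') (t : ℝ) => p.1 t) = fun q : Pm m' × ℝ => q.1.1 q.2 := by
      funext q
      rfl
    rw [this]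
    have h1 : Continuous fun q : Pm m' × ℝ => (q.1 : ℝ →ᵇ ℝ) :=
      continuous_subtype_val.comp continuous_fst
    exact h1.eval continuous_snd
  have hb' : ∀ t, |f t| ≤ m' := fun t => (hb t).trans hm'2.le
  have hct := cont_int hU hL hF hm'1 (fun p t => p.2.2 t) (⟨bcf hf, hf, hb'⟩ : Pm m') hX
  have hb2 : ∀ᶠ i in l, ∀ t, |φ i t| ≤ m' := by
    filter_upwards [h (m' - m) (by linarith)] with i hi t
    have h4 := abs_sub_abs_le_abs_sub (φ i t) (f t)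
    linarith [hb t, hi t]
  set ψ : ι → Pm m' := fun i =>
    open Classical in if hi : Ef (φ i) ∧ ∀ t, |φ i t| ≤ m' then ⟨bcf hi.1, hi.1, hi.2⟩
      else ⟨bcf hf, hf, hb'⟩ with hψ
  have hψe : ∀ᶠ i in l, ⇑(ψ i).1 = φ i := by
    filter_upwards [hφ, hb2] with i h1 h2
    have : Ef (φ i) ∧ ∀ t, |φ i t| ≤ m' := ⟨h1, h2⟩
    simp [hψ, this]
  have hψt : Tendsto ψ l (𝓝 (⟨bcf hf, hf, hb'⟩ : Pm m')) := by
    rw [Metric.tendsto_nhds]
    intro ε hε
    filter_upwards [hψe, h (ε / 2) (by linarith)] with i h1 h2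
    rw [Subtype.dist_eq]
    refine lt_of_le_of_lt ((BoundedContinuousFunction.dist_le (by positivity)).2 fun t => ?_)
      (half_lt_self hε)
    rw [h1, Real.dist_eq]
    exact h2 t
  have h5 := hct.tendsto.comp (hψt.prodMk_nhds hZ)
  refine h5.congr' ?_
  filter_upwards [hψe] with i hi
  simp only [Function.comp_apply, hi]

end KMap

end Pool.Agent.FPX.KNT
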