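import Mathlib
import Pool.Agent.FPX.F54Defs
import Pool.Agent.FPX.KZR

/-
F54K (helper8): the kernel of helper54's map is a kernel in the sense of `KNT.Ker`.
-/

open MeasureTheory Set Filter Topology
open scoped ENNReal NNReal

noncomputable section

namespace Pool.Agent.FPX.F54

open Real Pool.Agent.FPX.UMP Pool.Agent.FPX.UMQ Pool.Agent.FPX.KNT

/-- the open unit disc -/
def DD : Set (ℝ × ℝ) := {X | X.1 ^ 2 + X.2 ^ 2 < 1}

theorem isOpen_DD : IsOpen DD := isOpen_lt (by fun_prop) continuous_const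

theorem pr_sq_le (x y t : ℝ) : pr x y t ^ 2 ≤ x ^ 2 + y ^ 2 := by
  unfold pr
  nlinarith [sq_nonneg (x * sin t - y * cos t), sin_sq_add_cos_sq t]

theorem pr_sq_lt {X : ℝ × ℝ} (hX : X ∈ DD) (t : ℝ) : pr X.1 X.2 t ^ 2 < 1 :=
  lt_of_le_of_lt (pr_sq_le _ _ _) hX

theorem pr_mem {X : ℝ × ℝ} (hX : X ∈ DD) (t : ℝ) : pr X.1 X.2 t ∈ Ioo (-1 : ℝ) 1 := by
  have := pr_sq_lt hX t
  constructor <;> nlinarith

/-- `√(1 - p²)` -/
def wd (p : ℝ) : ℝ := √(1 - p ^ 2)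

theorem wd_pos {p : ℝ} (hp : p ^ 2 < 1) : 0 < wd p := sqrt_pos.2 (by linarith)

theorem wd_sq {p : ℝ} (hp : p ^ 2 < 1) : wd p ^ 2 = 1 - p ^ 2 := sq_sqrt (by linarith)

theorem continuous_wd : Continuous wd := by
  unfold wd
  fun_prop

theorem hasDerivAt_wd {p : ℝ} (hp : p ^ 2 < 1) : HasDerivAt wd (-p / wd p) p := by
  have h1 : HasDerivAt (fun p : ℝ => 1 - p ^ 2) (-(2 * p)) p := by
    have := ((hasDerivAt_pow 2 p).const_sub 1)
    refine this.congr_deriv ?_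
    norm_num
  have h2 := h1.sqrt (by linarith : 1 - p ^ 2 ≠ 0)
  refine h2.congr_deriv ?_
  unfold wd
  have : √(1 - p ^ 2) ≠ 0 := (sqrt_pos.2 (by linarith)).ne'
  field_simp

theorem hasDerivAt_as {p : ℝ} (hp : p ^ 2 < 1) : HasDerivAt arcsin (1 / wd p) p := by
  have h1 : p ≠ -1 := by
    rintro rfl
    norm_num at hp
  have h2 : p ≠ 1 := by
    rintro rfl
    norm_num at hp
  exact Real.hasDerivAt_arcsin h1 h2

theorem kk_def (p a : ℝ) : kk p a = (a - arcsin p) / wd p ^ 3 := rfl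

theorem kp_def (p a : ℝ) : kp p a = (1 - 3 * (a - arcsin p) * p / wd p) / wd p ^ 4 := rfl

theorem hasFDerivAt_kk {p a : ℝ} (hp : p ^ 2 < 1) :
    HasFDerivAt (fun z : ℝ × ℝ => kk z.1 z.2)
      ((-kp p a) • ContinuousLinearMap.fst ℝ ℝ ℝ + (1 / wd p ^ 3) • ContinuousLinearMap.snd ℝ ℝ ℝ)
      (p, a) := by
  have hw := wd_pos hp
  have f1 : HasFDerivAt (Prod.fst : ℝ × ℝ → ℝ) (ContinuousLinearMap.fst ℝ ℝ ℝ) (p, a) := hasFDerivAt_fst
  have f2 : HasFDerivAt (Prod.snd : ℝ × ℝ → ℝ) (ContinuousLinearMap.snd ℝ ℝ ℝ) (p, a) := hasFDerivAt_snd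
  have h1 : HasFDerivAt (fun z : ℝ × ℝ => z.2 - arcsin z.1)
      (ContinuousLinearMap.snd ℝ ℝ ℝ - (1 / wd p) • ContinuousLinearMap.fst ℝ ℝ ℝ) (p, a) := by
    refine f2.sub ?_
    exact HasDerivAt.comp_hasFDerivAt (p, a) (h₂ := arcsin) (hasDerivAt_as hp) f1
  have h2 : HasFDerivAt (fun z : ℝ × ℝ => (wd z.1 ^ 3)⁻¹)
      ((3 * p / wd p ^ 5) • ContinuousLinearMap.fst ℝ ℝ ℝ) (p, a) := by
    have h3 : HasDerivAt (fun p : ℝ => (wd p ^ 3)⁻¹) (3 * p / wd p ^ 5) p := by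
      have h4 := ((hasDerivAt_wd hp).pow 3).inv (pow_ne_zero 3 hw.ne')
      refine h4.congr_deriv ?_
      simp only [Pi.pow_apply]
      field_simp
      ring
    exact HasDerivAt.comp_hasFDerivAt (p, a) (h₂ := fun p : ℝ => (wd p ^ 3)⁻¹) h3 f1
  have h3 := h1.mul h2
  have e : (fun z : ℝ × ℝ => kk z.1 z.2) = fun z : ℝ × ℝ => (z.2 - arcsin z.1) * (wd z.1 ^ 3)⁻¹ := by
    funext z
    rw [kk_def, div_eq_mul_inv]
  rw [e]
  refine h3.congr_fderiv ?_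
  ext
  · simp only [kp_def, add_apply, ContinuousLinearMap.comp_apply,
      ContinuousLinearMap.inl_apply, smul_apply, sub_apply,
      ContinuousLinearMap.coe_fst', ContinuousLinearMap.coe_snd', smul_eq_mul]
    field_simp
    ring
  · simp

theorem continuousAt_kk {p a : ℝ} (hp : p ^ 2 < 1) :
    ContinuousAt (fun z : ℝ × ℝ => kk z.1 z.2) (p, a) := (hasFDerivAt_kk hp).continuousAt

theorem continuousAt_kp {p a : ℝ} (hp : p ^ 2 < 1) :
    ContinuousAt (fun z : ℝ × ℝ => kp z.1 z.2) (p, a) := by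
  have hw := wd_pos hp
  have c1 : ContinuousAt (fun z : ℝ × ℝ => wd z.1) (p, a) :=
    (continuous_wd.comp continuous_fst).continuousAt
  have c2 : ContinuousAt (fun z : ℝ × ℝ => arcsin z.1) (p, a) :=
    (Real.continuous_arcsin.comp continuous_fst).continuousAt
  have c3 : ContinuousAt (fun z : ℝ × ℝ => z.1) (p, a) := continuous_fst.continuousAt
  have c4 : ContinuousAt (fun z : ℝ × ℝ => z.2) (p, a) := continuous_snd.continuousAt
  have e : (fun z : ℝ × ℝ => kp z.1 z.2)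
      = fun z : ℝ × ℝ => (1 - 3 * (z.2 - arcsin z.1) * z.1 / wd z.1) / wd z.1 ^ 4 := by
    funext z
    rw [kp_def]
  rw [e]
  exact (continuousAt_const.sub (((continuousAt_const.mul (c4.sub c2)).mul c3).div c1 hw.ne')).div
    (c1.pow 4) (by positivity)

/-- `cos t, sin t` -/
def tr (i : Fin 2) (t : ℝ) : ℝ := if i = 0 then cos t else sin t

@[simp] theorem tr_zero (t : ℝ) : tr 0 t = cos t := by simp [tr]

@[simp] theorem tr_one (t : ℝ) : tr 1 t = sin t := by simp [tr]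

theorem continuous_tr (i : Fin 2) : Continuous (tr i) := by
  unfold tr
  split_ifs <;> fun_prop

/-- a kernel that is a function of `p = ⟨X, u_t⟩` and `a` times a function of `t` -/
theorem ker_of {g gp ga : ℝ → ℝ → ℝ}
    (hd : ∀ p a, p ^ 2 < 1 → |a| < π / 2 → HasFDerivAt (fun z : ℝ × ℝ => g z.1 z.2)
      (gp p a • ContinuousLinearMap.fst ℝ ℝ ℝ + ga p a • ContinuousLinearMap.snd ℝ ℝ ℝ) (p, a))
    (hp : ∀ p a, p ^ 2 < 1 → |a| < π / 2 → ContinuousAt (fun z : ℝ × ℝ => gp z.1 z.2) (p, a))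
    (ha : ∀ p a, p ^ 2 < 1 → |a| < π / 2 → ContinuousAt (fun z : ℝ × ℝ => ga z.1 z.2) (p, a))
    {w : ℝ → ℝ} (hw : Continuous w) :
    Ker (fun X t a => w t * g (pr X.1 X.2 t) a) (fun X t a => w t * (cos t * gp (pr X.1 X.2 t) a))
      (fun X t a => w t * (sin t * gp (pr X.1 X.2 t) a)) (fun X t a => w t * ga (pr X.1 X.2 t) a)
      DD := by
  have cpr : Continuous fun q : (ℝ × ℝ) × ℝ × ℝ => (pr q.1.1 q.1.2 q.2.1, q.2.2) := by
    unfold pr
    fun_prop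
  have cc : ∀ {u : ℝ → ℝ → ℝ}, (∀ p a, p ^ 2 < 1 → |a| < π / 2 →
      ContinuousAt (fun z : ℝ × ℝ => u z.1 z.2) (p, a)) → ∀ X ∈ DD, ∀ t a, |a| < π / 2 →
      ContinuousAt (fun q : (ℝ × ℝ) × ℝ × ℝ => u (pr q.1.1 q.1.2 q.2.1) q.2.2) (X, t, a) := by
    intro u hu X hX t a ha'
    exact ContinuousAt.comp (f := fun q : (ℝ × ℝ) × ℝ × ℝ => (pr q.1.1 q.1.2 q.2.1, q.2.2))
      (g := fun z : ℝ × ℝ => u z.1 z.2) (hu _ a (pr_sq_lt hX t) ha') cpr.continuousAt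
  have cg : ∀ p a, p ^ 2 < 1 → |a| < π / 2 → ContinuousAt (fun z : ℝ × ℝ => g z.1 z.2) (p, a) :=
    fun p a h1 h2 => (hd p a h1 h2).continuousAt
  have cw : ∀ q : (ℝ × ℝ) × ℝ × ℝ, ContinuousAt (fun q : (ℝ × ℝ) × ℝ × ℝ => w q.2.1) q :=
    fun q => (hw.comp (by fun_prop : Continuous fun q : (ℝ × ℝ) × ℝ × ℝ => q.2.1)).continuousAt
  refine ⟨isOpen_DD, ?_, ?_, ?_, ?_, ?_⟩
  · intro X hX t a ha'
    have h1 := hd _ a (pr_sq_lt hX t) ha'
    have h2 : HasFDerivAt (fun q : (ℝ × ℝ) × ℝ => (pr q.1.1 q.1.2 t, q.2))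
        ((cos t • (ContinuousLinearMap.fst ℝ ℝ ℝ).comp (ContinuousLinearMap.fst ℝ (ℝ × ℝ) ℝ)
          + sin t • (ContinuousLinearMap.snd ℝ ℝ ℝ).comp (ContinuousLinearMap.fst ℝ (ℝ × ℝ) ℝ)).prod
          (ContinuousLinearMap.snd ℝ (ℝ × ℝ) ℝ)) (X, a) := by
      refine HasFDerivAt.prodMk ?_ hasFDerivAt_snd
      have e : (fun q : (ℝ × ℝ) × ℝ => pr q.1.1 q.1.2 t)
          = ⇑(cos t • (ContinuousLinearMap.fst ℝ ℝ ℝ).comp (ContinuousLinearMap.fst ℝ (ℝ × ℝ) ℝ)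
          + sin t • (ContinuousLinearMap.snd ℝ ℝ ℝ).comp (ContinuousLinearMap.fst ℝ (ℝ × ℝ) ℝ)) := by
        funext q
        simp [pr]
        ring
      rw [e]
      exact ContinuousLinearMap.hasFDerivAt _
    have h3 := (HasFDerivAt.comp (X, a) (g := fun z : ℝ × ℝ => g z.1 z.2) h1 h2).const_mul (w t)
    refine h3.congr_fderiv ?_
    ext
    · simp [-mul_eq_mul_left_iff]
      ring
    · simp [-mul_eq_mul_left_iff]
      ring
    · simp [-mul_eq_mul_left_iff]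
  · intro X hX t a ha'
    exact (cw _).mul (cc cg X hX t a ha')
  · intro X hX t a ha'
    exact (cw _).mul ((by fun_prop : Continuous fun q : (ℝ × ℝ) × ℝ × ℝ => cos q.2.1).continuousAt.mul
      (cc hp X hX t a ha'))
  · intro X hX t a ha'
    exact (cw _).mul ((by fun_prop : Continuous fun q : (ℝ × ℝ) × ℝ × ℝ => sin q.2.1).continuousAt.mul
      (cc hp X hX t a ha'))
  · intro X hX t a ha'
    exact (cw _).mul (cc ha X hX t a ha')

/-- the kernel of the map -/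
def FK (i : Fin 2) (X : ℝ × ℝ) (t a : ℝ) : ℝ := tr i t * kk (pr X.1 X.2 t) a

/-- its derivative in the first coordinate -/
def FKx (i : Fin 2) (X : ℝ × ℝ) (t a : ℝ) : ℝ := tr i t * (cos t * -kp (pr X.1 X.2 t) a)

/-- its derivative in the second coordinate -/
def FKy (i : Fin 2) (X : ℝ × ℝ) (t a : ℝ) : ℝ := tr i t * (sin t * -kp (pr X.1 X.2 t) a)

/-- its derivative in the value of the function -/
def FKa (i : Fin 2) (X : ℝ × ℝ) (t _a : ℝ) : ℝ := tr i t * (1 / wd (pr X.1 X.2 t) ^ 3)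

theorem ker_FK (i : Fin 2) : Ker (FK i) (FKx i) (FKy i) (FKa i) DD := by
  refine ker_of (g := kk) (gp := fun p a => -kp p a) (ga := fun p _ => 1 / wd p ^ 3)
    (fun p a hp _ => hasFDerivAt_kk hp) (fun p a hp _ => (continuousAt_kp hp).neg) ?_
    (continuous_tr i)
  intro p a hp _
  have c1 : ContinuousAt (fun z : ℝ × ℝ => wd z.1) (p, a) :=
    (continuous_wd.comp continuous_fst).continuousAt
  exact continuousAt_const.div (c1.pow 3) (pow_pos (wd_pos hp) 3).ne'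

theorem Gk_FK_zero (X : ℝ × ℝ) (f : ℝ → ℝ) : Gk FK 0 X f = G1 X.1 X.2 f := by
  simp [Gk, FK, G1]

theorem Gk_FK_one (X : ℝ × ℝ) (f : ℝ → ℝ) : Gk FK 1 X f = G2 X.1 X.2 f := by
  simp [Gk, FK, G2]

theorem Gk_FKx_zero (X : ℝ × ℝ) (f : ℝ → ℝ) : Gk FKx 0 X f = -H11 X.1 X.2 f := by
  simp only [Gk, FKx, H11, tr_zero]
  rw [← intervalIntegral.integral_neg]
  congr 1
  funext t
  ring

theorem Gk_FKy_zero (X : ℝ × ℝ) (f : ℝ → ℝ) : Gk FKy 0 X f = -H12 X.1 X.2 f := by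
  simp only [Gk, FKy, H12, tr_zero]
  rw [← intervalIntegral.integral_neg]
  congr 1
  funext t
  ring

theorem Gk_FKx_one (X : ℝ × ℝ) (f : ℝ → ℝ) : Gk FKx 1 X f = -H12 X.1 X.2 f := by
  simp only [Gk, FKx, H12, tr_one]
  rw [← intervalIntegral.integral_neg]
  congr 1
  funext t
  ring

theorem Gk_FKy_one (X : ℝ × ℝ) (f : ℝ → ℝ) : Gk FKy 1 X f = -H22 X.1 X.2 f := by
  simp only [Gk, FKy, H22, tr_one]
  rw [← intervalIntegral.integral_neg]
  congr 1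
  funext t
  ring

end Pool.Agent.FPX.F54
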