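import Mathlib
import Pool.Agent.FPX.F54Defs

/-
F54S (helper16): the quadratic form of helper54's map at a zero is bounded below (helper76's bound
`|S| ≤ π tan (r/2) / √2`), for all odd 1-Lipschitz functions.
-/

open MeasureTheory Set Filter Topology intervalIntegral

noncomputable section

namespace Pool.Agent.FPX.F54

open Real

/-! ### integration by parts against a Lipschitz function -/

theorem lip_ac {f : ℝ → ℝ} (hf : LipschitzWith 1 f) (a b : ℝ) :
    AbsolutelyContinuousOnInterval f a b :=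
  (hf.lipschitzOnWith (s := uIcc a b)).absolutelyContinuousOnInterval

theorem c1_ac {a a' : ℝ → ℝ} (ha : ∀ t, HasDerivAt a (a' t) t) (hc : Continuous a') (x y : ℝ) :
    AbsolutelyContinuousOnInterval a x y := by
  have h1 : deriv a = a' := by
    funext t
    exact (ha t).deriv
  have h2 : ContDiff ℝ 1 a := by
    rw [contDiff_one_iff_deriv]
    exact ⟨fun t => (ha t).differentiableAt, by rw [h1]; exact hc⟩
  exact h2.contDiffOn.absolutelyContinuousOnInterval

theorem int_deriv {f : ℝ → ℝ} (hf : LipschitzWith 1 f) {a : ℝ → ℝ} (ha : Continuous a)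
    (x y : ℝ) : IntervalIntegrable (fun t => a t * deriv f t) volume x y :=
  (lip_ac hf x y).intervalIntegrable_deriv.continuousOn_mul ha.continuousOn

theorem abs_deriv {f : ℝ → ℝ} (hf : LipschitzWith 1 f) (t : ℝ) : |deriv f t| ≤ 1 := by
  have := norm_deriv_le_of_lipschitz (x₀ := t) hf
  simpa using this

theorem ibp {f : ℝ → ℝ} (hf : LipschitzWith 1 f) (hp : f (2 * π) = f 0) {a a' : ℝ → ℝ}
    (ha : ∀ t, HasDerivAt a (a' t) t) (hc : Continuous a') (hap : a (2 * π) = a 0) :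
    ∫ t in (0 : ℝ)..(2 * π), a' t * f t = - ∫ t in (0 : ℝ)..(2 * π), a t * deriv f t := by
  have h1 := (c1_ac ha hc 0 (2 * π)).integral_mul_deriv_eq_deriv_mul (lip_ac hf 0 (2 * π))
  have h2 : deriv a = a' := by
    funext t
    exact (ha t).deriv
  rw [h2, hap, hp] at h1
  linarith

/-! ### the functions of the model frame -/

/-- height of the point -/
def cc (s : ℝ) : ℝ := √(1 - s ^ 2)

/-- `cos` of the value of the round state -/
def W (s t : ℝ) : ℝ := √(1 - (s * cos t) ^ 2)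

/-- `cos α` -/
def CA (s t : ℝ) : ℝ := cc s * cos t / W s t

/-- `sin α` -/
def SA (s t : ℝ) : ℝ := sin t / W s t

/-- `α'` -/
def AP (s t : ℝ) : ℝ := cc s / W s t ^ 2

section basic

variable {s : ℝ} (h0 : 0 ≤ s) (h1 : s < 1)

include h0 h1

theorem cc_sq : cc s ^ 2 = 1 - s ^ 2 := by
  unfold cc
  rw [sq_sqrt]
  nlinarith

theorem cc_pos : 0 < cc s := by
  unfold cc
  apply sqrt_pos.2
  nlinarith

theorem in_pos (t : ℝ) : 0 < 1 - (s * cos t) ^ 2 := by
  have := cos_sq_le_one t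
  nlinarith [mul_nonneg h0 h0, sq_nonneg (cos t), mul_le_mul_of_nonneg_left this (sq_nonneg s)]

theorem W_sq (t : ℝ) : W s t ^ 2 = 1 - (s * cos t) ^ 2 := by
  unfold W
  rw [sq_sqrt (in_pos h0 h1 t).le]

theorem W_pos (t : ℝ) : 0 < W s t := sqrt_pos.2 (in_pos h0 h1 t)

theorem W_sq' (t : ℝ) : W s t ^ 2 = cc s ^ 2 * cos t ^ 2 + sin t ^ 2 := by
  rw [W_sq h0 h1, cc_sq h0 h1, sin_sq]
  ring

theorem CS (t : ℝ) : CA s t ^ 2 + SA s t ^ 2 = 1 := by
  have hW := W_pos h0 h1 t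
  have h2 := W_sq' h0 h1 t
  unfold CA SA
  field_simp
  linarith

theorem dW (t : ℝ) : HasDerivAt (W s) (s ^ 2 * cos t * sin t / W s t) t := by
  have hin := in_pos h0 h1 t
  have h2 : HasDerivAt (fun t => 1 - (s * cos t) ^ 2) (-(2 * (s * cos t) * (s * (-sin t)))) t := by
    have := (((hasDerivAt_cos t).const_mul s).pow 2).const_sub 1
    convert! this using 1
    simp
  have h3 := h2.sqrt hin.ne'
  have h4 : (fun t => √(1 - (s * cos t) ^ 2)) = W s := rfl
  rw [h4] at h3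
  convert! h3 using 1
  have hW := W_pos h0 h1 t
  have h5 : √(1 - (s * cos t) ^ 2) = W s t := rfl
  rw [h5]
  field_simp

theorem dCA (t : ℝ) : HasDerivAt (CA s) (-(SA s t * AP s t)) t := by
  have hW := W_pos h0 h1 t
  have h2 := ((hasDerivAt_cos t).const_mul (cc s)).div (dW h0 h1 t) hW.ne'
  have h4 : (fun t => cc s * cos t / W s t) = CA s := rfl
  convert! h2 using 1
  unfold SA AP
  have h5 := W_sq h0 h1 t
  have h6 := W_sq' h0 h1 t
  field_simp
  have h7 : cos t ^ 2 * s ^ 2 = 1 - W s t ^ 2 := by rw [h5]; ring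
  linear_combination (cc s * sin t) * h7

theorem dSA (t : ℝ) : HasDerivAt (SA s) (CA s t * AP s t) t := by
  have hW := W_pos h0 h1 t
  have h2 := (hasDerivAt_sin t).div (dW h0 h1 t) hW.ne'
  convert! h2 using 1
  unfold CA AP
  have h5 := W_sq h0 h1 t
  have hc := cc_sq h0 h1
  field_simp
  have h8 := sin_sq t
  have h7 : W s t ^ 2 = 1 - s ^ 2 * cos t ^ 2 := by rw [h5]; ring
  rw [hc, h7, h8]
  ring

theorem dg (t : ℝ) : HasDerivAt (fun t => arcsin (s * cos t)) (-(s * SA s t)) t := by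
  have hin := in_pos h0 h1 t
  have ha : s * cos t ≠ -1 := by
    intro h
    rw [h] at hin
    norm_num at hin
  have hb : s * cos t ≠ 1 := by
    intro h
    rw [h] at hin
    norm_num at hin
  have h2 := (hasDerivAt_arcsin ha hb).comp t ((hasDerivAt_cos t).const_mul s)
  have h3 : (arcsin ∘ fun t => s * cos t) = fun t => arcsin (s * cos t) := rfl
  rw [h3] at h2
  convert! h2 using 1
  have hW := W_pos h0 h1 t
  have h5 : √(1 - (s * cos t) ^ 2) = W s t := rfl
  rw [h5]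
  unfold SA
  field_simp

theorem contW : Continuous (W s) := by
  rw [continuous_iff_continuousAt]
  exact fun t => (dW h0 h1 t).continuousAt

theorem contCA : Continuous (CA s) := by
  rw [continuous_iff_continuousAt]
  exact fun t => (dCA h0 h1 t).continuousAt

theorem contSA : Continuous (SA s) := by
  rw [continuous_iff_continuousAt]
  exact fun t => (dSA h0 h1 t).continuousAt

theorem contAP : Continuous (AP s) := by
  unfold AP
  exact continuous_const.div ((contW h0 h1).pow 2) fun t => (pow_pos (W_pos h0 h1 t) 2).ne'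

/-! ### integrals -/

omit h0 h1 in
theorem W_two_pi : W s (2 * π) = W s 0 := by simp [W]

theorem int_AP : ∫ t in (0 : ℝ)..(2 * π), AP s t = 2 * π := by
  have hc := cc_pos h0 h1
  have hden : ∀ t : ℝ, 0 < cc s * cos t ^ 2 + sin t ^ 2 := by
    intro t
    have := sin_sq_add_cos_sq t
    rcases le_or_gt (1 / 2) (cos t ^ 2) with h | h
    · nlinarith [sq_nonneg (sin t)]
    · nlinarith [sq_nonneg (cos t)]
  have hd : ∀ t, HasDerivAt (fun t => t + arctan ((1 - cc s) * sin t * cos t /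
      (cc s * cos t ^ 2 + sin t ^ 2))) (AP s t) t := by
    intro t
    have e1 : HasDerivAt (fun t => (1 - cc s) * sin t * cos t)
        ((1 - cc s) * (cos t * cos t - sin t * sin t)) t := by
      have := (((hasDerivAt_sin t).const_mul (1 - cc s)).mul (hasDerivAt_cos t))
      convert! this using 1
      ring
    have e2 : HasDerivAt (fun t => cc s * cos t ^ 2 + sin t ^ 2)
        (2 * (1 - cc s) * sin t * cos t) t := by
      have := ((((hasDerivAt_cos t).pow 2).const_mul (cc s)).add ((hasDerivAt_sin t).pow 2))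
      convert! this using 1
      simp
      ring
    have e3 := e1.div e2 (hden t).ne'
    have e4 := (hasDerivAt_id t).add e3.arctan
    convert! e4 using 1
    have hW := W_pos h0 h1 t
    have h6 := W_sq' h0 h1 t
    have hd := hden t
    unfold AP
    have e5 : (cc s * cos t ^ 2 + sin t ^ 2) ^ 2 + ((1 - cc s) * sin t * cos t) ^ 2
        = W s t ^ 2 := by
      rw [h6]
      have := sin_sq_add_cos_sq t
      have h9 : sin t ^ 2 = 1 - cos t ^ 2 := by linarith
      calc _ = cc s ^ 2 * cos t ^ 4 + sin t ^ 2 * sin t ^ 2 + (1 + cc s ^ 2) * sin t ^ 2 * cos t ^ 2 := by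
            ring
        _ = _ := by rw [h9]; ring
    have e6 : 1 + ((1 - cc s) * sin t * cos t / (cc s * cos t ^ 2 + sin t ^ 2)) ^ 2
        = W s t ^ 2 / (cc s * cos t ^ 2 + sin t ^ 2) ^ 2 := by
      rw [← e5]
      field_simp
    simp only [Pi.div_apply]
    rw [e6]
    field_simp
    rw [h6]
    have h9 : sin t ^ 2 = 1 - cos t ^ 2 := by
      have := sin_sq_add_cos_sq t
      linarith
    ring_nf
    have h10 : sin t ^ 4 = (1 - cos t ^ 2) ^ 2 := by
      rw [← h9]; ring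
    simp only [h10, h9]
    ring
  rw [integral_eq_sub_of_hasDerivAt (fun t _ => hd t)
    ((contAP h0 h1).intervalIntegrable _ _)]
  simp

/-- `∫ w⁻²` -/
theorem L1 : ∫ t in (0 : ℝ)..(2 * π), 1 / W s t ^ 2 = 2 * π / cc s := by
  have hc := cc_pos h0 h1
  have h2 := int_AP h0 h1
  have h3 : (fun t => AP s t) = fun t => cc s * (1 / W s t ^ 2) := by
    funext t
    unfold AP
    ring
  rw [h3, intervalIntegral.integral_const_mul] at h2
  rw [eq_div_iff hc.ne']
  linarith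

theorem contI (n : ℕ) : Continuous fun t => 1 / W s t ^ n :=
  continuous_const.div ((contW h0 h1).pow n) fun t => (pow_pos (W_pos h0 h1 t) n).ne'

theorem dprim (n : ℕ) (t : ℝ) : HasDerivAt (fun t => sin t * cos t / W s t ^ n)
    ((cos t ^ 2 - sin t ^ 2) / W s t ^ n
      - n * (s ^ 2 * cos t ^ 2 * sin t ^ 2) / W s t ^ (n + 2)) t := by
  have hW := W_pos h0 h1 t
  have e1 := ((hasDerivAt_sin t).mul (hasDerivAt_cos t)).div ((dW h0 h1 t).pow n)
    (pow_pos hW n).ne'
  have e2 : ((sin * cos) / (W s) ^ n) = fun t => sin t * cos t / W s t ^ n := rfl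
  rw [e2] at e1
  convert! e1 using 1
  simp only [Pi.mul_apply, Pi.pow_apply]
  rcases n with _ | n
  · simp
    ring
  · field_simp
    simp only [Nat.add_sub_cancel]
    push_cast
    ring

/-- `∫ w⁻⁴` -/
theorem L2 : ∫ t in (0 : ℝ)..(2 * π), 1 / W s t ^ 4 = π * (1 + cc s ^ 2) / cc s ^ 3 := by
  have hc := cc_pos h0 h1
  have hc2 := cc_sq h0 h1
  have h2 : ∫ t in (0 : ℝ)..(2 * π), s ^ 2 * ((cos t ^ 2 - sin t ^ 2) / W s t ^ 2
      - (2 : ℕ) * (s ^ 2 * cos t ^ 2 * sin t ^ 2) / W s t ^ (2 + 2)) = 0 := by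
    rw [intervalIntegral.integral_const_mul,
      integral_eq_sub_of_hasDerivAt (fun t _ => dprim h0 h1 2 t)]
    · simp
    · apply Continuous.intervalIntegrable
      have := contW h0 h1
      have hW := fun t => (W_pos h0 h1 t).ne'
      fun_prop (disch := intros; exact pow_ne_zero _ (hW _))
  have h3 : (fun t => s ^ 2 * ((cos t ^ 2 - sin t ^ 2) / W s t ^ 2
      - (2 : ℕ) * (s ^ 2 * cos t ^ 2 * sin t ^ 2) / W s t ^ (2 + 2)))
      = fun t => (-(1 + cc s ^ 2)) * (1 / W s t ^ 2) + (2 * cc s ^ 2) * (1 / W s t ^ 4) := by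
    funext t
    have hW := W_pos h0 h1 t
    have e1 : s ^ 2 * cos t ^ 2 = 1 - W s t ^ 2 := by rw [W_sq h0 h1]; ring
    have e2 : s ^ 2 * sin t ^ 2 = W s t ^ 2 - cc s ^ 2 := by
      rw [sin_sq, hc2]
      linarith
    have e3 : s ^ 2 * ((cos t ^ 2 - sin t ^ 2) / W s t ^ 2
      - (2 : ℕ) * (s ^ 2 * cos t ^ 2 * sin t ^ 2) / W s t ^ (2 + 2))
      = (s ^ 2 * cos t ^ 2 - s ^ 2 * sin t ^ 2) / W s t ^ 2
        - 2 * ((s ^ 2 * cos t ^ 2) * (s ^ 2 * sin t ^ 2)) / W s t ^ 4 := by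
      push_cast
      ring
    rw [e3, e1, e2]
    field_simp
    ring
  rw [h3, intervalIntegral.integral_add, intervalIntegral.integral_const_mul,
    intervalIntegral.integral_const_mul, L1 h0 h1] at h2
  · rw [eq_div_iff (by positivity)]
    have h4 : 2 * cc s ^ 2 * ∫ t in (0 : ℝ)..(2 * π), 1 / W s t ^ 4
        = (1 + cc s ^ 2) * (2 * π / cc s) := by linarith
    have h5 : (1 + cc s ^ 2) * (2 * π / cc s) * cc s = (1 + cc s ^ 2) * (2 * π) := by
      field_simp
    nlinarith [h4, h5]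
  · exact ((contI h0 h1 2).const_mul _).intervalIntegrable _ _
  · exact ((contI h0 h1 4).const_mul _).intervalIntegrable _ _

/-- `∫ w⁻⁶` -/
theorem L3 : ∫ t in (0 : ℝ)..(2 * π), 1 / W s t ^ 6
    = π * (3 + 2 * cc s ^ 2 + 3 * cc s ^ 4) / (4 * cc s ^ 5) := by
  have hc := cc_pos h0 h1
  have hc2 := cc_sq h0 h1
  have h2 : ∫ t in (0 : ℝ)..(2 * π), s ^ 2 * ((cos t ^ 2 - sin t ^ 2) / W s t ^ 4
      - (4 : ℕ) * (s ^ 2 * cos t ^ 2 * sin t ^ 2) / W s t ^ (4 + 2)) = 0 := by
    rw [intervalIntegral.integral_const_mul,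
      integral_eq_sub_of_hasDerivAt (fun t _ => dprim h0 h1 4 t)]
    · simp
    · apply Continuous.intervalIntegrable
      have := contW h0 h1
      have hW := fun t => (W_pos h0 h1 t).ne'
      fun_prop (disch := intros; exact pow_ne_zero _ (hW _))
  have h3 : (fun t => s ^ 2 * ((cos t ^ 2 - sin t ^ 2) / W s t ^ 4
      - (4 : ℕ) * (s ^ 2 * cos t ^ 2 * sin t ^ 2) / W s t ^ (4 + 2)))
      = fun t => (-(3 * (1 + cc s ^ 2))) * (1 / W s t ^ 4) + (2 * (1 / W s t ^ 2)
        + (4 * cc s ^ 2) * (1 / W s t ^ 6)) := by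
    funext t
    have hW := W_pos h0 h1 t
    have e1 : s ^ 2 * cos t ^ 2 = 1 - W s t ^ 2 := by rw [W_sq h0 h1]; ring
    have e2 : s ^ 2 * sin t ^ 2 = W s t ^ 2 - cc s ^ 2 := by
      rw [sin_sq, hc2]
      linarith
    have e3 : s ^ 2 * ((cos t ^ 2 - sin t ^ 2) / W s t ^ 4
      - (4 : ℕ) * (s ^ 2 * cos t ^ 2 * sin t ^ 2) / W s t ^ (4 + 2))
      = (s ^ 2 * cos t ^ 2 - s ^ 2 * sin t ^ 2) / W s t ^ 4
        - 4 * ((s ^ 2 * cos t ^ 2) * (s ^ 2 * sin t ^ 2)) / W s t ^ 6 := by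
      push_cast
      ring
    rw [e3, e1, e2]
    field_simp
    ring
  rw [h3, intervalIntegral.integral_add, intervalIntegral.integral_add,
    intervalIntegral.integral_const_mul, intervalIntegral.integral_const_mul,
    intervalIntegral.integral_const_mul, L1 h0 h1, L2 h0 h1] at h2
  · have h4 : (4 * cc s ^ 2) * ∫ t in (0 : ℝ)..(2 * π), 1 / W s t ^ 6
        = 3 * (1 + cc s ^ 2) * (π * (1 + cc s ^ 2) / cc s ^ 3) - 2 * (2 * π / cc s) := by
      linarith
    have h5 : ∫ t in (0 : ℝ)..(2 * π), 1 / W s t ^ 6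
        = (3 * (1 + cc s ^ 2) * (π * (1 + cc s ^ 2) / cc s ^ 3) - 2 * (2 * π / cc s))
          / (4 * cc s ^ 2) := by
      rw [eq_div_iff (by positivity), ← h4]
      ring
    rw [h5]
    field_simp
    ring
  · exact ((contI h0 h1 2).const_mul _).intervalIntegrable _ _
  · exact ((contI h0 h1 6).const_mul _).intervalIntegrable _ _
  · exact ((contI h0 h1 4).const_mul _).intervalIntegrable _ _
  · exact (((contI h0 h1 2).const_mul _).add ((contI h0 h1 6).const_mul _)).intervalIntegrable _ _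

omit h0 h1 in
theorem int_odd {F : ℝ → ℝ} (hF : ∀ t, F (2 * π - t) = -F t) :
    ∫ t in (0 : ℝ)..(2 * π), F t = 0 := by
  have h2 := intervalIntegral.integral_comp_sub_left F (2 * π) (a := 0) (b := 2 * π)
  simp only [hF, sub_self, sub_zero, intervalIntegral.integral_neg] at h2
  linarith

omit h0 h1 in
theorem W_refl (t : ℝ) : W s (2 * π - t) = W s t := by
  unfold W
  rw [cos_two_pi_sub]

/-- the auxiliary harmonic `Re (i ν̄² (e^(3iα) + q e^(iα)))` -/
def hh (s P R t : ℝ) : ℝ :=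
  R * (CA s t * (4 * CA s t ^ 2 - 3 + (1 - cc s) / (1 + cc s)))
    - P * (SA s t * (3 - 4 * SA s t ^ 2 + (1 - cc s) / (1 + cc s)))

/-- its derivative -/
def hh' (s P R t : ℝ) : ℝ :=
  -(AP s t * (R * (SA s t * (12 * CA s t ^ 2 - 3 + (1 - cc s) / (1 + cc s)))
    + P * (CA s t * (3 - 12 * SA s t ^ 2 + (1 - cc s) / (1 + cc s)))))

theorem dhh (P R t : ℝ) : HasDerivAt (hh s P R) (hh' s P R t) t := by
  have e1 := dCA h0 h1 t
  have e2 := dSA h0 h1 t
  have e3 := ((e1.mul ((((e1.pow 2).const_mul 4).sub_const 3).add_const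
    ((1 - cc s) / (1 + cc s)))).const_mul R).sub
      ((e2.mul ((((e2.pow 2).const_mul 4).const_sub 3).add_const
    ((1 - cc s) / (1 + cc s)))).const_mul P)
  convert! e3 using 1
  unfold hh'
  simp only [Pi.pow_apply]
  push_cast
  ring

theorem conthh (P R : ℝ) : Continuous (hh s P R) := by
  rw [continuous_iff_continuousAt]
  exact fun t => (dhh h0 h1 P R t).continuousAt

theorem conthh' (P R : ℝ) : Continuous (hh' s P R) := by
  have e1 := contCA h0 h1
  have e2 := contSA h0 h1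
  have e3 := contAP h0 h1
  unfold hh'
  fun_prop

theorem hh_eq (P R t : ℝ) : hh s P R t = 2 * cc s / (1 + cc s) *
    (R * (cos t * ((1 + cc s) ^ 2 * cos t ^ 2 - (1 + 2 * cc s)))
      - P * (sin t * ((1 + cc s) ^ 2 * cos t ^ 2 - 1))) / W s t ^ 3 := by
  have hc := cc_pos h0 h1
  have hW := W_pos h0 h1 t
  have hc2 := cc_sq h0 h1
  have e1 : W s t ^ 2 = 1 - (1 - cc s ^ 2) * cos t ^ 2 := by
    rw [W_sq h0 h1, hc2]
    ring
  have e2 : CA s t * (4 * CA s t ^ 2 - 3 + (1 - cc s) / (1 + cc s))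
      = 2 * cc s / (1 + cc s) * (cos t * ((1 + cc s) ^ 2 * cos t ^ 2 - (1 + 2 * cc s)))
        / W s t ^ 3 := by
    unfold CA
    have e4 : 4 * (cc s * cos t / W s t) ^ 2 - 3 + (1 - cc s) / (1 + cc s)
        = (4 * (cc s * cos t) ^ 2 * (1 + cc s) + (-3 * (1 + cc s) + (1 - cc s)) * W s t ^ 2)
          / ((1 + cc s) * W s t ^ 2) := by
      field_simp
      ring
    rw [e4, e1, ← e1]
    have e5 : 4 * (cc s * cos t) ^ 2 * (1 + cc s) + (-3 * (1 + cc s) + (1 - cc s)) * W s t ^ 2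
        = 2 * ((1 + cc s) ^ 2 * cos t ^ 2 - (1 + 2 * cc s)) := by
      rw [e1]
      ring
    rw [e5]
    field_simp
  have e3 : SA s t * (3 - 4 * SA s t ^ 2 + (1 - cc s) / (1 + cc s))
      = 2 * cc s / (1 + cc s) * (sin t * ((1 + cc s) ^ 2 * cos t ^ 2 - 1)) / W s t ^ 3 := by
    unfold SA
    have e4 : 3 - 4 * (sin t / W s t) ^ 2 + (1 - cc s) / (1 + cc s)
        = ((3 * (1 + cc s) + (1 - cc s)) * W s t ^ 2 - 4 * sin t ^ 2 * (1 + cc s))
          / ((1 + cc s) * W s t ^ 2) := by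
      field_simp
      ring
    have e5 : (3 * (1 + cc s) + (1 - cc s)) * W s t ^ 2 - 4 * sin t ^ 2 * (1 + cc s)
        = 2 * cc s * ((1 + cc s) ^ 2 * cos t ^ 2 - 1) := by
      rw [e1, sin_sq]
      ring
    rw [e4, e5]
    field_simp
  unfold hh
  rw [e2, e3]
  ring

theorem int_SA2 : s ^ 2 * ∫ t in (0 : ℝ)..(2 * π), SA s t ^ 2 = 2 * π * (1 - cc s) := by
  have hc := cc_pos h0 h1
  have e1 : (fun t => s ^ 2 * SA s t ^ 2) = fun t => 1 - cc s ^ 2 * (1 / W s t ^ 2) := by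
    funext t
    have hW := W_pos h0 h1 t
    have e2 : s ^ 2 * sin t ^ 2 = W s t ^ 2 - cc s ^ 2 := by
      rw [sin_sq, cc_sq h0 h1, W_sq h0 h1]
      ring
    unfold SA
    rw [div_pow, ← mul_div_assoc, e2]
    field_simp
  rw [← intervalIntegral.integral_const_mul, e1, intervalIntegral.integral_sub,
    intervalIntegral.integral_const_mul, L1 h0 h1]
  · simp
    field_simp
  · exact continuous_const.intervalIntegrable _ _
  · exact ((contI h0 h1 2).const_mul _).intervalIntegrable _ _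

theorem combo (a0 a1 a2 a3 : ℝ) : ∫ t in (0 : ℝ)..(2 * π),
    (a0 + a1 * (1 / W s t ^ 2) + a2 * (1 / W s t ^ 4) + a3 * (1 / W s t ^ 6))
    = a0 * (2 * π) + a1 * (2 * π / cc s) + a2 * (π * (1 + cc s ^ 2) / cc s ^ 3)
      + a3 * (π * (3 + 2 * cc s ^ 2 + 3 * cc s ^ 4) / (4 * cc s ^ 5)) := by
  have c2 := (contI h0 h1 2).const_mul a1
  have c4 := (contI h0 h1 4).const_mul a2
  have c6 := (contI h0 h1 6).const_mul a3
  rw [intervalIntegral.integral_add, intervalIntegral.integral_add, intervalIntegral.integral_add,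
    intervalIntegral.integral_const_mul, intervalIntegral.integral_const_mul,
    intervalIntegral.integral_const_mul, L1 h0 h1, L2 h0 h1, L3 h0 h1]
  · simp
    ring
  · exact continuous_const.intervalIntegrable _ _
  · exact c2.intervalIntegrable _ _
  · exact (continuous_const.add c2).intervalIntegrable _ _
  · exact c4.intervalIntegrable _ _
  · exact ((continuous_const.add c2).add c4).intervalIntegrable _ _
  · exact c6.intervalIntegrable _ _

theorem int_Re (hs : 0 < s) : ∫ t in (0 : ℝ)..(2 * π),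
    (cos t * ((1 + cc s) ^ 2 * cos t ^ 2 - (1 + 2 * cc s))) ^ 2 / W s t ^ 6 = π / cc s := by
  have hc := cc_pos h0 h1
  have hc2 := cc_sq h0 h1
  have hS : 1 - cc s ^ 2 = s ^ 2 := by linarith
  have hSp : 0 < 1 - cc s ^ 2 := by rw [hS]; positivity
  have e1 : (fun t => (cos t * ((1 + cc s) ^ 2 * cos t ^ 2 - (1 + 2 * cc s))) ^ 2 / W s t ^ 6)
      = fun t => (-(1 + cc s) ^ 4 / (1 - cc s ^ 2) ^ 3)
        + (((1 + cc s) ^ 4 + 2 * (2 * cc s ^ 2 * (1 + cc s)) * (1 + cc s) ^ 2) / (1 - cc s ^ 2) ^ 3)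
            * (1 / W s t ^ 2)
        + (-(2 * (2 * cc s ^ 2 * (1 + cc s)) * (1 + cc s) ^ 2 + (2 * cc s ^ 2 * (1 + cc s)) ^ 2)
            / (1 - cc s ^ 2) ^ 3) * (1 / W s t ^ 4)
        + ((2 * cc s ^ 2 * (1 + cc s)) ^ 2 / (1 - cc s ^ 2) ^ 3) * (1 / W s t ^ 6) := by
    funext t
    have hW := W_pos h0 h1 t
    have hy : cos t ^ 2 = (1 - W s t ^ 2) / (1 - cc s ^ 2) := by
      rw [W_sq h0 h1, hS]
      field_simp
      ring
    have e2 : (cos t * ((1 + cc s) ^ 2 * cos t ^ 2 - (1 + 2 * cc s))) ^ 2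
        = cos t ^ 2 * ((1 + cc s) ^ 2 * cos t ^ 2 - (1 + 2 * cc s)) ^ 2 := by ring
    rw [e2, hy]
    field_simp
    ring
  rw [e1, combo h0 h1]
  field_simp
  ring

theorem int_Im (hs : 0 < s) : ∫ t in (0 : ℝ)..(2 * π),
    (sin t * ((1 + cc s) ^ 2 * cos t ^ 2 - 1)) ^ 2 / W s t ^ 6 = π / cc s := by
  have hc := cc_pos h0 h1
  have hc2 := cc_sq h0 h1
  have hS : 1 - cc s ^ 2 = s ^ 2 := by linarith
  have hSp : 0 < 1 - cc s ^ 2 := by rw [hS]; positivity
  have e1 : (fun t => (sin t * ((1 + cc s) ^ 2 * cos t ^ 2 - 1)) ^ 2 / W s t ^ 6)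
      = fun t => ((1 + cc s) ^ 4 / (1 - cc s ^ 2) ^ 3)
        + (-(2 * (2 * cc s * (1 + cc s)) * (1 + cc s) ^ 2 + cc s ^ 2 * (1 + cc s) ^ 4)
            / (1 - cc s ^ 2) ^ 3) * (1 / W s t ^ 2)
        + (((2 * cc s * (1 + cc s)) ^ 2 + 2 * cc s ^ 2 * (2 * cc s * (1 + cc s)) * (1 + cc s) ^ 2)
            / (1 - cc s ^ 2) ^ 3) * (1 / W s t ^ 4)
        + (-(cc s ^ 2 * (2 * cc s * (1 + cc s)) ^ 2) / (1 - cc s ^ 2) ^ 3) * (1 / W s t ^ 6) := by
    funext t
    have hW := W_pos h0 h1 t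
    have hy : cos t ^ 2 = (1 - W s t ^ 2) / (1 - cc s ^ 2) := by
      rw [W_sq h0 h1, hS]
      field_simp
      ring
    have e2 : (sin t * ((1 + cc s) ^ 2 * cos t ^ 2 - 1)) ^ 2
        = (1 - cos t ^ 2) * ((1 + cc s) ^ 2 * cos t ^ 2 - 1) ^ 2 := by
      rw [mul_pow, sin_sq]
    rw [e2, hy]
    field_simp
    ring
  rw [e1, combo h0 h1]
  field_simp
  ring

theorem int_ImSA (hs : 0 < s) : ∫ t in (0 : ℝ)..(2 * π),
    sin t ^ 2 * ((1 + cc s) ^ 2 * cos t ^ 2 - 1) / W s t ^ 4 = 0 := by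
  have hc := cc_pos h0 h1
  have hc2 := cc_sq h0 h1
  have hS : 1 - cc s ^ 2 = s ^ 2 := by linarith
  have hSp : 0 < 1 - cc s ^ 2 := by rw [hS]; positivity
  have e1 : (fun t => sin t ^ 2 * ((1 + cc s) ^ 2 * cos t ^ 2 - 1) / W s t ^ 4)
      = fun t => (-(1 + cc s) ^ 2 / (1 - cc s ^ 2) ^ 2)
        + ((2 * cc s * (1 + cc s) + cc s ^ 2 * (1 + cc s) ^ 2) / (1 - cc s ^ 2) ^ 2)
            * (1 / W s t ^ 2)
        + (-(cc s ^ 2 * (2 * cc s * (1 + cc s))) / (1 - cc s ^ 2) ^ 2) * (1 / W s t ^ 4)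
        + 0 * (1 / W s t ^ 6) := by
    funext t
    have hW := W_pos h0 h1 t
    have hy : cos t ^ 2 = (1 - W s t ^ 2) / (1 - cc s ^ 2) := by
      rw [W_sq h0 h1, hS]
      field_simp
      ring
    rw [sin_sq, hy]
    field_simp
    ring
  rw [e1, combo h0 h1]
  field_simp
  ring

theorem int_hh2 (hs : 0 < s) (P R : ℝ) : ∫ t in (0 : ℝ)..(2 * π), hh s P R t ^ 2
    = (P ^ 2 + R ^ 2) * (4 * π * cc s / (1 + cc s) ^ 2) := by
  have hc := cc_pos h0 h1
  have hWc := contW h0 h1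
  have hWn := fun t => (W_pos h0 h1 t).ne'
  have e1 : (fun t => hh s P R t ^ 2) = fun t =>
      (2 * cc s / (1 + cc s)) ^ 2 * R ^ 2 *
        ((cos t * ((1 + cc s) ^ 2 * cos t ^ 2 - (1 + 2 * cc s))) ^ 2 / W s t ^ 6)
      + (2 * cc s / (1 + cc s)) ^ 2 * P ^ 2 *
        ((sin t * ((1 + cc s) ^ 2 * cos t ^ 2 - 1)) ^ 2 / W s t ^ 6)
      - 2 * (2 * cc s / (1 + cc s)) ^ 2 * P * R *
        ((cos t * ((1 + cc s) ^ 2 * cos t ^ 2 - (1 + 2 * cc s))) *
          (sin t * ((1 + cc s) ^ 2 * cos t ^ 2 - 1)) / W s t ^ 6) := by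
    funext t
    rw [hh_eq h0 h1]
    have hW := W_pos h0 h1 t
    field_simp
    ring
  have c1 : Continuous fun t => (cos t * ((1 + cc s) ^ 2 * cos t ^ 2 - (1 + 2 * cc s))) ^ 2
      / W s t ^ 6 := by fun_prop (disch := intros; exact pow_ne_zero _ (hWn _))
  have c2 : Continuous fun t => (sin t * ((1 + cc s) ^ 2 * cos t ^ 2 - 1)) ^ 2 / W s t ^ 6 := by
    fun_prop (disch := intros; exact pow_ne_zero _ (hWn _))
  have c3 : Continuous fun t => (cos t * ((1 + cc s) ^ 2 * cos t ^ 2 - (1 + 2 * cc s))) *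
          (sin t * ((1 + cc s) ^ 2 * cos t ^ 2 - 1)) / W s t ^ 6 := by
    fun_prop (disch := intros; exact pow_ne_zero _ (hWn _))
  have e3 : ∫ t in (0 : ℝ)..(2 * π), (cos t * ((1 + cc s) ^ 2 * cos t ^ 2 - (1 + 2 * cc s))) *
          (sin t * ((1 + cc s) ^ 2 * cos t ^ 2 - 1)) / W s t ^ 6 = 0 := by
    apply int_odd
    intro t
    rw [W_refl, cos_two_pi_sub, sin_two_pi_sub]
    ring
  rw [e1, intervalIntegral.integral_sub, intervalIntegral.integral_add,
    intervalIntegral.integral_const_mul, intervalIntegral.integral_const_mul,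
    intervalIntegral.integral_const_mul, int_Re h0 h1 hs, int_Im h0 h1 hs, e3]
  · field_simp
    ring
  · exact (c1.const_mul _).intervalIntegrable _ _
  · exact (c2.const_mul _).intervalIntegrable _ _
  · exact ((c1.const_mul _).add (c2.const_mul _)).intervalIntegrable _ _
  · exact (c3.const_mul _).intervalIntegrable _ _

theorem int_hhSA (hs : 0 < s) (P R : ℝ) :
    ∫ t in (0 : ℝ)..(2 * π), hh s P R t * SA s t = 0 := by
  have hc := cc_pos h0 h1
  have hWc := contW h0 h1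
  have hWn := fun t => (W_pos h0 h1 t).ne'
  have e1 : (fun t => hh s P R t * SA s t) = fun t =>
      (2 * cc s / (1 + cc s)) * R *
        ((cos t * ((1 + cc s) ^ 2 * cos t ^ 2 - (1 + 2 * cc s))) * sin t / W s t ^ 4)
      - (2 * cc s / (1 + cc s)) * P *
        (sin t ^ 2 * ((1 + cc s) ^ 2 * cos t ^ 2 - 1) / W s t ^ 4) := by
    funext t
    rw [hh_eq h0 h1]
    unfold SA
    have hW := W_pos h0 h1 t
    field_simp
  have c1 : Continuous fun t => (cos t * ((1 + cc s) ^ 2 * cos t ^ 2 - (1 + 2 * cc s))) * sin t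
      / W s t ^ 4 := by fun_prop (disch := intros; exact pow_ne_zero _ (hWn _))
  have c2 : Continuous fun t => sin t ^ 2 * ((1 + cc s) ^ 2 * cos t ^ 2 - 1) / W s t ^ 4 := by
    fun_prop (disch := intros; exact pow_ne_zero _ (hWn _))
  have e3 : ∫ t in (0 : ℝ)..(2 * π), (cos t * ((1 + cc s) ^ 2 * cos t ^ 2 - (1 + 2 * cc s)))
      * sin t / W s t ^ 4 = 0 := by
    apply int_odd
    intro t
    rw [W_refl, cos_two_pi_sub, sin_two_pi_sub]
    ring
  rw [e1, intervalIntegral.integral_sub, intervalIntegral.integral_const_mul,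
    intervalIntegral.integral_const_mul, e3, int_ImSA h0 h1 hs]
  · ring
  · exact (c1.const_mul _).intervalIntegrable _ _
  · exact (c2.const_mul _).intervalIntegrable _ _

omit h0 h1 in
theorem CA_two_pi : CA s (2 * π) = CA s 0 := by simp [CA, W]

omit h0 h1 in
theorem SA_two_pi : SA s (2 * π) = SA s 0 := by simp [SA]

omit h0 h1 in
theorem hh_two_pi (P R : ℝ) : hh s P R (2 * π) = hh s P R 0 := by
  unfold hh
  rw [CA_two_pi, SA_two_pi]

theorem int_APC : ∫ t in (0 : ℝ)..(2 * π), AP s t * (CA s t ^ 2 - SA s t ^ 2) = 0 := by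
  have e1 : ∀ t, HasDerivAt (fun t => CA s t * SA s t) (AP s t * (CA s t ^ 2 - SA s t ^ 2)) t := by
    intro t
    have := (dCA h0 h1 t).mul (dSA h0 h1 t)
    convert! this using 1
    ring
  rw [integral_eq_sub_of_hasDerivAt (fun t _ => e1 t)]
  · rw [CA_two_pi, SA_two_pi]
    ring
  · exact ((contAP h0 h1).mul (((contCA h0 h1).pow 2).sub ((contSA h0 h1).pow 2))).intervalIntegrable
      _ _

theorem int_APCS : ∫ t in (0 : ℝ)..(2 * π), AP s t * (CA s t * SA s t) = 0 := by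
  have e1 : ∀ t, HasDerivAt (fun t => SA s t ^ 2 / 2) (AP s t * (CA s t * SA s t)) t := by
    intro t
    have := ((dSA h0 h1 t).pow 2).div_const 2
    convert! this using 1
    simp
    ring
  rw [integral_eq_sub_of_hasDerivAt (fun t _ => e1 t)]
  · rw [SA_two_pi]
    ring
  · exact ((contAP h0 h1).mul ((contCA h0 h1).mul (contSA h0 h1))).intervalIntegrable _ _

theorem int_A0 (p₁ p₂ : ℝ) : ∫ t in (0 : ℝ)..(2 * π),
    (p₁ * CA s t + p₂ * SA s t) ^ 2 * AP s t = π * (p₁ ^ 2 + p₂ ^ 2) := by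
  have e1 : (fun t => (p₁ * CA s t + p₂ * SA s t) ^ 2 * AP s t) = fun t =>
      (p₁ ^ 2 + p₂ ^ 2) / 2 * AP s t + (p₁ ^ 2 - p₂ ^ 2) / 2 *
        (AP s t * (CA s t ^ 2 - SA s t ^ 2)) + 2 * p₁ * p₂ * (AP s t * (CA s t * SA s t)) := by
    funext t
    have := CS h0 h1 t
    linear_combination ((p₁ ^ 2 + p₂ ^ 2) / 2 * AP s t) * this
  have c0 := contAP h0 h1
  have c1 := contCA h0 h1
  have c2 := contSA h0 h1
  rw [e1, intervalIntegral.integral_add, intervalIntegral.integral_add,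
    intervalIntegral.integral_const_mul, intervalIntegral.integral_const_mul,
    intervalIntegral.integral_const_mul, int_AP h0 h1, int_APC h0 h1, int_APCS h0 h1]
  · ring
  all_goals apply Continuous.intervalIntegrable; fun_prop

/-! ### the zero -/

variable {f : ℝ → ℝ} (hf : UMP.Ef f)

include hf

omit h0 h1 in
theorem f_per : f (2 * π) = f 0 := by
  have e1 := hf.odd 0
  have e2 := hf.odd π
  rw [zero_add] at e1
  rw [show (2 : ℝ) * π = π + π by ring, e2, e1]
  ring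

theorem ibpd {a a' : ℝ → ℝ} (ha : ∀ t, HasDerivAt a (a' t) t) (hc : Continuous a')
    (hap : a (2 * π) = a 0) :
    ∫ t in (0 : ℝ)..(2 * π), a' t * (f t - arcsin (s * cos t))
      = - ∫ t in (0 : ℝ)..(2 * π), a t * (deriv f t + s * SA s t) := by
  have ca : Continuous a := by
    rw [continuous_iff_continuousAt]
    exact fun t => (ha t).continuousAt
  have cg : Continuous fun t => arcsin (s * cos t) := by fun_prop
  have cf : Continuous f := hf.lip.continuous
  have e1 := ibp hf.lip (f_per hf) ha hc hap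
  have e2 : ∫ t in (0 : ℝ)..(2 * π), a' t * arcsin (s * cos t)
      = ∫ t in (0 : ℝ)..(2 * π), a t * (s * SA s t) := by
    have := intervalIntegral.integral_mul_deriv_eq_deriv_mul (a := 0) (b := 2 * π)
      (fun t _ => dg h0 h1 t) (fun t _ => ha t)
      (((contSA h0 h1).const_mul s).neg.intervalIntegrable _ _) (hc.intervalIntegrable _ _)
    simp only [hap, cos_two_pi, cos_zero, sub_self, zero_sub] at this
    rw [← intervalIntegral.integral_neg] at this
    rw [show (fun t => a' t * arcsin (s * cos t)) = fun t => arcsin (s * cos t) * a' t from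
      funext fun t => mul_comm _ _, this]
    congr 1
    funext t
    ring
  have e3 : (fun t => a' t * (f t - arcsin (s * cos t)))
      = fun t => a' t * f t - a' t * arcsin (s * cos t) := by
    funext t
    ring
  have e4 : (fun t => a t * (deriv f t + s * SA s t))
      = fun t => a t * deriv f t + a t * (s * SA s t) := by
    funext t
    ring
  rw [e3, e4, intervalIntegral.integral_sub, intervalIntegral.integral_add, e1, e2]
  · ring
  · exact int_deriv hf.lip ca _ _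
  · exact (ca.mul ((contSA h0 h1).const_mul s)).intervalIntegrable _ _
  · exact (hc.mul cf).intervalIntegrable _ _
  · exact (hc.mul cg).intervalIntegrable _ _

omit h0 h1 hf in
theorem pr0 (t : ℝ) : pr s 0 t = s * cos t := by
  unfold pr
  ring

omit hf in
theorem zeroC (hG1 : G1 s 0 f = 0) :
    ∫ t in (0 : ℝ)..(2 * π), (CA s t * AP s t) * (f t - arcsin (s * cos t)) = 0 := by
  have e1 : (fun t => (CA s t * AP s t) * (f t - arcsin (s * cos t)))
      = fun t => cc s ^ 2 * (cos t * kk (pr s 0 t) (f t)) := by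
    funext t
    have hW := W_pos h0 h1 t
    rw [pr0]
    unfold kk CA AP
    have h5 : √(1 - (s * cos t) ^ 2) = W s t := rfl
    rw [h5]
    field_simp
  rw [e1, intervalIntegral.integral_const_mul]
  unfold G1 at hG1
  rw [hG1, mul_zero]

omit hf in
theorem zeroS (hG2 : G2 s 0 f = 0) :
    ∫ t in (0 : ℝ)..(2 * π), (SA s t * AP s t) * (f t - arcsin (s * cos t)) = 0 := by
  have e1 : (fun t => (SA s t * AP s t) * (f t - arcsin (s * cos t)))
      = fun t => cc s * (sin t * kk (pr s 0 t) (f t)) := by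
    funext t
    have hW := W_pos h0 h1 t
    rw [pr0]
    unfold kk SA AP
    have h5 : √(1 - (s * cos t) ^ 2) = W s t := rfl
    rw [h5]
    field_simp
  rw [e1, intervalIntegral.integral_const_mul]
  unfold G2 at hG2
  rw [hG2, mul_zero]

/-- the exact formula of the quadratic form at a zero -/
theorem form (hG1 : G1 s 0 f = 0) (hG2 : G2 s 0 f = 0) (p₁ p₂ : ℝ) :
    cc s * ∫ t in (0 : ℝ)..(2 * π), (p₁ * cc s * cos t + p₂ * sin t) ^ 2 * kp (pr s 0 t) (f t)
      = π * (p₁ ^ 2 + p₂ ^ 2) - s / (4 * cc s) *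
        ∫ t in (0 : ℝ)..(2 * π), hh s (p₁ ^ 2 - p₂ ^ 2) (2 * p₁ * p₂) t *
          (deriv f t + s * SA s t) := by
  have hc := cc_pos h0 h1
  have c0 := contAP h0 h1
  have c1 := contCA h0 h1
  have c2 := contSA h0 h1
  have cf : Continuous f := hf.lip.continuous
  have c3 := conthh' h0 h1 (p₁ ^ 2 - p₂ ^ 2) (2 * p₁ * p₂)
  set A : ℝ := -(s / cc s) * (3 / 2 * (p₁ ^ 2 + p₂ ^ 2) + 3 / 4 * (p₁ ^ 2 - p₂ ^ 2)
    - (1 - cc s) / (1 + cc s) / 4 * (p₁ ^ 2 - p₂ ^ 2)) with hA
  set B : ℝ := -(s / cc s) * (3 / 4 * (2 * p₁ * p₂) - (1 - cc s) / (1 + cc s) / 4 * (2 * p₁ * p₂))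
    with hB
  have e1 : (fun t => cc s * ((p₁ * cc s * cos t + p₂ * sin t) ^ 2 * kp (pr s 0 t) (f t)))
      = fun t => (p₁ * CA s t + p₂ * SA s t) ^ 2 * AP s t
        + s / (4 * cc s) * (hh' s (p₁ ^ 2 - p₂ ^ 2) (2 * p₁ * p₂) t * (f t - arcsin (s * cos t)))
        + A * ((CA s t * AP s t) * (f t - arcsin (s * cos t)))
        + B * ((SA s t * AP s t) * (f t - arcsin (s * cos t))) := by
    funext t
    have hW := W_pos h0 h1 t
    have e2 : cc s * ((p₁ * cc s * cos t + p₂ * sin t) ^ 2 * kp (pr s 0 t) (f t))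
        = (p₁ * CA s t + p₂ * SA s t) ^ 2 * AP s t
          - 3 * (s / cc s) * ((p₁ * CA s t + p₂ * SA s t) ^ 2 * CA s t) * AP s t
            * (f t - arcsin (s * cos t)) := by
      rw [pr0]
      unfold kp CA SA AP
      have h5 : √(1 - (s * cos t) ^ 2) = W s t := rfl
      rw [h5]
      field_simp
    have e3 : 3 * ((p₁ * CA s t + p₂ * SA s t) ^ 2 * CA s t)
        = 3 / 2 * (p₁ ^ 2 + p₂ ^ 2) * CA s t + 3 * (2 * p₁ * p₂) * CA s t ^ 2 * SA s t
          + 3 / 2 * (p₁ ^ 2 - p₂ ^ 2) * CA s t * (CA s t ^ 2 - SA s t ^ 2) := by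
      have := CS h0 h1 t
      linear_combination (3 / 2 * (p₁ ^ 2 + p₂ ^ 2) * CA s t) * this
    have e4 : 3 * ((p₁ * CA s t + p₂ * SA s t) ^ 2 * CA s t)
        = 3 / 2 * (p₁ ^ 2 + p₂ ^ 2) * CA s t
          + 1 / 4 * ((2 * p₁ * p₂) * (SA s t * (12 * CA s t ^ 2 - 3 + (1 - cc s) / (1 + cc s)))
            + (p₁ ^ 2 - p₂ ^ 2) * (CA s t * (3 - 12 * SA s t ^ 2 + (1 - cc s) / (1 + cc s))))
          + (3 / 4 - (1 - cc s) / (1 + cc s) / 4) * ((p₁ ^ 2 - p₂ ^ 2) * CA s t
            + (2 * p₁ * p₂) * SA s t) := by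
      rw [e3]
      have := CS h0 h1 t
      linear_combination (3 / 2 * (p₁ ^ 2 - p₂ ^ 2) * CA s t) * this
    rw [e2]
    have e5 : 3 * (s / cc s) * ((p₁ * CA s t + p₂ * SA s t) ^ 2 * CA s t) * AP s t
            * (f t - arcsin (s * cos t))
        = (s / cc s) * (3 * ((p₁ * CA s t + p₂ * SA s t) ^ 2 * CA s t)) * AP s t
            * (f t - arcsin (s * cos t)) := by ring
    rw [e5, e4, hA, hB]
    unfold hh'
    field_simp
    ring
  rw [← intervalIntegral.integral_const_mul, e1, intervalIntegral.integral_add,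
    intervalIntegral.integral_add, intervalIntegral.integral_add,
    intervalIntegral.integral_const_mul, intervalIntegral.integral_const_mul,
    intervalIntegral.integral_const_mul, zeroC h0 h1 hG1, zeroS h0 h1 hG2, int_A0 h0 h1,
    ibpd h0 h1 hf (dhh h0 h1 _ _) c3 (hh_two_pi _ _)]
  · ring
  all_goals apply Continuous.intervalIntegrable; fun_prop

theorem int_fSA (hG1 : G1 s 0 f = 0) :
    ∫ t in (0 : ℝ)..(2 * π), SA s t * deriv f t = -(s * ∫ t in (0 : ℝ)..(2 * π), SA s t ^ 2) := by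
  have e1 := ibpd h0 h1 hf (dSA h0 h1) ((contCA h0 h1).mul (contAP h0 h1)) SA_two_pi
  rw [zeroC h0 h1 hG1] at e1
  have e4 : (fun t => SA s t * (deriv f t + s * SA s t))
      = fun t => SA s t * deriv f t + s * SA s t ^ 2 := by
    funext t
    ring
  rw [e4, intervalIntegral.integral_add, intervalIntegral.integral_const_mul] at e1
  · linarith
  · exact int_deriv hf.lip (contSA h0 h1) _ _
  · exact (((contSA h0 h1).pow 2).const_mul s).intervalIntegrable _ _

theorem hf_le (hs : 0 < s) (hG1 : G1 s 0 f = 0) (P R N : ℝ) (hN : 0 < N)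
    (hPR : P ^ 2 + R ^ 2 = N ^ 2) :
    ∫ t in (0 : ℝ)..(2 * π), hh s P R t * deriv f t ≤ 2 * √2 * π * cc s * N / (1 + cc s) := by
  have hc := cc_pos h0 h1
  have h2 : 0 < √2 := by positivity
  have h22 : √2 ^ 2 = 2 := by rw [sq_sqrt]; norm_num
  set μ := √2 * N / (1 + cc s) with hμ
  have hμ0 : 0 < μ := by positivity
  have ch := conthh h0 h1 P R
  have cS := contSA h0 h1
  have ca : Continuous fun t => hh s P R t - μ * (s * SA s t) := by fun_prop
  have e1 : ∫ t in (0 : ℝ)..(2 * π), (hh s P R t - μ * (s * SA s t)) * deriv f t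
      ≤ ∫ t in (0 : ℝ)..(2 * π), (μ / 2 + (hh s P R t - μ * (s * SA s t)) ^ 2 / (2 * μ)) := by
    apply intervalIntegral.integral_mono_on (by positivity) (int_deriv hf.lip ca _ _)
    · apply Continuous.intervalIntegrable
      fun_prop
    · intro t _
      have e2 := abs_deriv hf.lip t
      have e3 : (deriv f t) ^ 2 ≤ 1 := by
        rw [← sq_abs]
        have := abs_nonneg (deriv f t)
        nlinarith
      have e4 : 0 ≤ (hh s P R t - μ * (s * SA s t) - μ * deriv f t) ^ 2 / (2 * μ) := by positivity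
      have e5 : (hh s P R t - μ * (s * SA s t) - μ * deriv f t) ^ 2 / (2 * μ)
          = (hh s P R t - μ * (s * SA s t)) ^ 2 / (2 * μ)
            - (hh s P R t - μ * (s * SA s t)) * deriv f t + μ / 2 * (deriv f t) ^ 2 := by
        field_simp
        ring
      nlinarith
  have e2 : (fun t => (hh s P R t - μ * (s * SA s t)) * deriv f t)
      = fun t => hh s P R t * deriv f t - (μ * s) * (SA s t * deriv f t) := by
    funext t
    ring
  have e3 : (fun t => μ / 2 + (hh s P R t - μ * (s * SA s t)) ^ 2 / (2 * μ))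
      = fun t => μ / 2 + 1 / (2 * μ) * hh s P R t ^ 2 - s * (hh s P R t * SA s t)
        + (μ * s ^ 2 / 2) * SA s t ^ 2 := by
    funext t
    field_simp
    ring
  rw [e2, e3, intervalIntegral.integral_sub, intervalIntegral.integral_add,
    intervalIntegral.integral_sub, intervalIntegral.integral_add,
    intervalIntegral.integral_const_mul, intervalIntegral.integral_const_mul,
    intervalIntegral.integral_const_mul, intervalIntegral.integral_const_mul,
    int_fSA h0 h1 hf hG1, int_hh2 h0 h1 hs, int_hhSA h0 h1 hs, hPR] at e1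
  · have e5 := int_SA2 h0 h1
    simp only [intervalIntegral.integral_const, smul_eq_mul, sub_zero, mul_zero] at e1
    have e6 : 1 / (2 * μ) * (N ^ 2 * (4 * π * cc s / (1 + cc s) ^ 2))
        = √2 * π * cc s * N / (1 + cc s) := by
      rw [hμ]
      field_simp
      rw [h22]
      ring
    have e7 : 2 * √2 * π * cc s * N / (1 + cc s)
        = √2 * π * cc s * N / (1 + cc s) + π * μ * cc s := by
      rw [hμ]
      field_simp
      ring
    rw [e6] at e1
    rw [e7]
    have e8 : μ * s * -(s * ∫ t in (0 : ℝ)..(2 * π), SA s t ^ 2)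
        = -(μ * (s ^ 2 * ∫ t in (0 : ℝ)..(2 * π), SA s t ^ 2)) := by ring
    have e9 : μ * s ^ 2 / 2 * ∫ t in (0 : ℝ)..(2 * π), SA s t ^ 2
        = μ / 2 * (s ^ 2 * ∫ t in (0 : ℝ)..(2 * π), SA s t ^ 2) := by ring
    rw [e8, e9, e5] at e1
    linarith
  · exact continuous_const.intervalIntegrable _ _
  · exact ((ch.pow 2).const_mul _).intervalIntegrable _ _
  · exact (continuous_const.add ((ch.pow 2).const_mul _)).intervalIntegrable _ _
  · exact ((ch.mul cS).const_mul _).intervalIntegrable _ _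
  · apply Continuous.intervalIntegrable
    fun_prop
  · exact ((cS.pow 2).const_mul _).intervalIntegrable _ _
  · exact int_deriv hf.lip ch _ _
  · have := (int_deriv hf.lip cS 0 (2 * π)).const_mul (μ * s)
    exact this

omit h0 h1 hf in
theorem hh_neg (P R t : ℝ) : hh s (-P) (-R) t = -hh s P R t := by
  unfold hh
  ring

theorem hf_abs (hs : 0 < s) (hG1 : G1 s 0 f = 0) (P R N : ℝ) (hN : 0 ≤ N)
    (hPR : P ^ 2 + R ^ 2 = N ^ 2) :
    |∫ t in (0 : ℝ)..(2 * π), hh s P R t * (deriv f t + s * SA s t)|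
      ≤ 2 * √2 * π * cc s * N / (1 + cc s) := by
  have ch := conthh h0 h1 P R
  have cS := contSA h0 h1
  have e1 : ∫ t in (0 : ℝ)..(2 * π), hh s P R t * (deriv f t + s * SA s t)
      = ∫ t in (0 : ℝ)..(2 * π), hh s P R t * deriv f t := by
    have e2 : (fun t => hh s P R t * (deriv f t + s * SA s t))
        = fun t => hh s P R t * deriv f t + s * (hh s P R t * SA s t) := by
      funext t
      ring
    rw [e2, intervalIntegral.integral_add, intervalIntegral.integral_const_mul,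
      int_hhSA h0 h1 hs, mul_zero, add_zero]
    · exact int_deriv hf.lip ch _ _
    · exact ((ch.mul cS).const_mul _).intervalIntegrable _ _
  rw [e1]
  rcases hN.eq_or_lt with h | h
  · have hP : P = 0 := by nlinarith [sq_nonneg P, sq_nonneg R]
    have hR : R = 0 := by nlinarith [sq_nonneg P, sq_nonneg R]
    subst hP hR
    simp [hh, ← h]
  · rw [abs_le]
    constructor
    · have e3 := hf_le h0 h1 hf hs hG1 (-P) (-R) N h (by rw [← hPR]; ring)
      simp only [hh_neg, neg_mul, intervalIntegral.integral_neg] at e3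
      linarith
    · exact hf_le h0 h1 hf hs hG1 P R N h hPR

/-- the quadratic form at a zero, frame of the point -/
theorem form_abs (hG1 : G1 s 0 f = 0) (hG2 : G2 s 0 f = 0) (p₁ p₂ : ℝ) :
    |cc s * (∫ t in (0 : ℝ)..(2 * π), (p₁ * cc s * cos t + p₂ * sin t) ^ 2 * kp (pr s 0 t) (f t))
      - π * (p₁ ^ 2 + p₂ ^ 2)| ≤ π * (p₁ ^ 2 + p₂ ^ 2) * (√2 / 2 * (s / (1 + cc s))) := by
  have hc := cc_pos h0 h1
  rw [form h0 h1 hf hG1 hG2, show ∀ a b : ℝ, a - b - a = -b by intros; ring, abs_neg, abs_mul,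
    abs_of_nonneg (show 0 ≤ s / (4 * cc s) by positivity)]
  rcases h0.eq_or_lt with h | h
  · rw [← h]
    simp
  · have e1 := hf_abs h0 h1 hf h hG1 (p₁ ^ 2 - p₂ ^ 2) (2 * p₁ * p₂) (p₁ ^ 2 + p₂ ^ 2)
      (by positivity) (by ring)
    calc _ ≤ s / (4 * cc s) * (2 * √2 * π * cc s * (p₁ ^ 2 + p₂ ^ 2) / (1 + cc s)) :=
          mul_le_mul_of_nonneg_left e1 (by positivity)
      _ = _ := by
        field_simp
        ring

end basic

/-! ### rotation -/

section rot

variable {f : ℝ → ℝ} (hf : UMP.Ef f) {s φ : ℝ}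

theorem per_two (hf : UMP.Ef f) (t : ℝ) : f (t + 2 * π) = f t := by
  rw [show t + 2 * π = (t + π) + π by ring, hf.odd, hf.odd, neg_neg]

theorem ef_shift (hf : UMP.Ef f) (φ : ℝ) : UMP.Ef fun t => f (t + φ) where
  lip := by
    have h1 : LipschitzWith 1 fun t : ℝ => t + φ := by
      apply LipschitzWith.of_dist_le_mul
      intro a b
      simp
    have := hf.lip.comp h1
    rw [mul_one] at this
    exact this
  odd := by
    intro t
    rw [show t + π + φ = (t + φ) + π by ring, hf.odd]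
  lt := fun t => hf.lt _

theorem pr_shift (s φ t : ℝ) : pr (s * cos φ) (s * sin φ) (t + φ) = pr s 0 t := by
  unfold pr
  rw [cos_add, sin_add]
  have := sin_sq_add_cos_sq φ
  linear_combination (s * cos t) * this

/-- shift of a periodic integral -/
theorem int_shift {F : ℝ → ℝ} (hF : ∀ t, F (t + 2 * π) = F t) (φ : ℝ) :
    ∫ t in (0 : ℝ)..(2 * π), F (t + φ) = ∫ t in (0 : ℝ)..(2 * π), F t := by
  rw [intervalIntegral.integral_comp_add_right]
  have hp : Function.Periodic F (2 * π) := hF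
  have := hp.intervalIntegral_add_eq φ 0
  rw [zero_add] at this ⊢
  rw [show 2 * π + φ = φ + 2 * π by ring]
  exact this

theorem pr_per (x y t : ℝ) : pr x y (t + 2 * π) = pr x y t := by
  unfold pr
  rw [cos_add_two_pi, sin_add_two_pi]

theorem pr_lt {x y : ℝ} (h : x ^ 2 + y ^ 2 < 1) (t : ℝ) : 0 < 1 - pr x y t ^ 2 := by
  unfold pr
  nlinarith [sq_nonneg (x * sin t - y * cos t), sin_sq_add_cos_sq t]

theorem cont_kk {x y : ℝ} (h : x ^ 2 + y ^ 2 < 1) (hf : UMP.Ef f) :
    Continuous fun t => kk (pr x y t) (f t) := by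
  have cf := hf.lip.continuous
  have cp : Continuous fun t => pr x y t := by
    unfold pr
    fun_prop
  unfold kk
  apply Continuous.div
  · exact cf.sub (continuous_arcsin.comp cp)
  · exact (continuous_sqrt.comp (continuous_const.sub (cp.pow 2))).pow 3
  · intro t
    exact pow_ne_zero _ (sqrt_pos.2 (pr_lt h t)).ne'

theorem cont_kp {x y : ℝ} (h : x ^ 2 + y ^ 2 < 1) (hf : UMP.Ef f) :
    Continuous fun t => kp (pr x y t) (f t) := by
  have cf := hf.lip.continuous
  have cp : Continuous fun t => pr x y t := by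
    unfold pr
    fun_prop
  have cs : Continuous fun t => √(1 - pr x y t ^ 2) :=
    continuous_sqrt.comp (continuous_const.sub (cp.pow 2))
  unfold kp
  apply Continuous.div
  · apply continuous_const.sub
    apply Continuous.div
    · exact (continuous_const.mul (cf.sub (continuous_arcsin.comp cp))).mul cp
    · exact cs
    · intro t
      exact (sqrt_pos.2 (pr_lt h t)).ne'
  · exact cs.pow 4
  · intro t
    exact pow_ne_zero _ (sqrt_pos.2 (pr_lt h t)).ne'

theorem G1_rot (h : s ^ 2 < 1) (hf : UMP.Ef f) : G1 s 0 (fun t => f (t + φ))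
    = cos φ * G1 (s * cos φ) (s * sin φ) f + sin φ * G2 (s * cos φ) (s * sin φ) f := by
  have hxy : (s * cos φ) ^ 2 + (s * sin φ) ^ 2 < 1 := by
    have := sin_sq_add_cos_sq φ
    nlinarith
  have ck := cont_kk hxy hf
  unfold G1 G2
  have h1 := int_shift (F := fun t => cos (t - φ) * kk (pr (s * cos φ) (s * sin φ) t) (f t))
    (by
      intro t
      rw [show t + 2 * π - φ = (t - φ) + 2 * π by ring, cos_add_two_pi, pr_per, per_two hf]) φ
  simp only [add_sub_cancel_right, pr_shift] at h1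
  rw [h1, ← intervalIntegral.integral_const_mul, ← intervalIntegral.integral_const_mul,
    ← intervalIntegral.integral_add]
  · congr 1
    funext t
    rw [cos_sub]
    ring
  · apply Continuous.intervalIntegrable
    fun_prop
  · apply Continuous.intervalIntegrable
    fun_prop

theorem G2_rot (h : s ^ 2 < 1) (hf : UMP.Ef f) : G2 s 0 (fun t => f (t + φ))
    = -sin φ * G1 (s * cos φ) (s * sin φ) f + cos φ * G2 (s * cos φ) (s * sin φ) f := by
  have hxy : (s * cos φ) ^ 2 + (s * sin φ) ^ 2 < 1 := by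
    have := sin_sq_add_cos_sq φ
    nlinarith
  have ck := cont_kk hxy hf
  unfold G1 G2
  have h1 := int_shift (F := fun t => sin (t - φ) * kk (pr (s * cos φ) (s * sin φ) t) (f t))
    (by
      intro t
      rw [show t + 2 * π - φ = (t - φ) + 2 * π by ring, sin_add_two_pi, pr_per, per_two hf]) φ
  simp only [add_sub_cancel_right, pr_shift] at h1
  rw [h1, ← intervalIntegral.integral_const_mul, ← intervalIntegral.integral_const_mul,
    ← intervalIntegral.integral_add]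
  · congr 1
    funext t
    rw [sin_sub]
    ring
  · apply Continuous.intervalIntegrable
    fun_prop
  · apply Continuous.intervalIntegrable
    fun_prop

/-- the quadratic form of `H` -/
theorem H_quad {x y : ℝ} (h : x ^ 2 + y ^ 2 < 1) (hf : UMP.Ef f) (v₁ v₂ : ℝ) :
    H11 x y f * v₁ ^ 2 + 2 * H12 x y f * v₁ * v₂ + H22 x y f * v₂ ^ 2
      = ∫ t in (0 : ℝ)..(2 * π), (v₁ * cos t + v₂ * sin t) ^ 2 * kp (pr x y t) (f t) := by
  have ck := cont_kp h hf
  have e1 : (fun t => (v₁ * cos t + v₂ * sin t) ^ 2 * kp (pr x y t) (f t))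
      = fun t => v₁ ^ 2 * (cos t * cos t * kp (pr x y t) (f t))
        + (2 * v₁ * v₂) * (cos t * sin t * kp (pr x y t) (f t))
        + v₂ ^ 2 * (sin t * sin t * kp (pr x y t) (f t)) := by
    funext t
    ring
  rw [e1, intervalIntegral.integral_add, intervalIntegral.integral_add,
    intervalIntegral.integral_const_mul, intervalIntegral.integral_const_mul,
    intervalIntegral.integral_const_mul]
  · unfold H11 H12 H22
    ring
  all_goals apply Continuous.intervalIntegrable; fun_prop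

theorem quad_rot (hf : UMP.Ef f) (a b : ℝ) :
    ∫ t in (0 : ℝ)..(2 * π), (a * cos t + b * sin t) ^ 2 * kp (pr s 0 t) (f (t + φ))
      = ∫ t in (0 : ℝ)..(2 * π), ((a * cos φ - b * sin φ) * cos t
          + (a * sin φ + b * cos φ) * sin t) ^ 2 * kp (pr (s * cos φ) (s * sin φ) t) (f t) := by
  have h1 := int_shift (F := fun t => (a * cos (t - φ) + b * sin (t - φ)) ^ 2
      * kp (pr (s * cos φ) (s * sin φ) t) (f t))
    (by
      intro t
      rw [show t + 2 * π - φ = (t - φ) + 2 * π by ring, cos_add_two_pi, sin_add_two_pi, pr_per,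
        per_two hf]) φ
  simp only [add_sub_cancel_right, pr_shift] at h1
  rw [h1]
  congr 1
  funext t
  rw [sin_sub, cos_sub]
  ring

/-- THE BOUND: at a zero, the quadratic form of `H` is close to the metric of the sphere -/
theorem quad_abs {x y : ℝ} (h : x ^ 2 + y ^ 2 < 1) (hf : UMP.Ef f) (hG1 : G1 x y f = 0)
    (hG2 : G2 x y f = 0) (v₁ v₂ : ℝ) :
    |√(1 - x ^ 2 - y ^ 2) * (H11 x y f * v₁ ^ 2 + 2 * H12 x y f * v₁ * v₂ + H22 x y f * v₂ ^ 2)
      - π * (v₁ ^ 2 + v₂ ^ 2 + (x * v₁ + y * v₂) ^ 2 / (1 - x ^ 2 - y ^ 2))|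
      ≤ π * (v₁ ^ 2 + v₂ ^ 2 + (x * v₁ + y * v₂) ^ 2 / (1 - x ^ 2 - y ^ 2))
        * (√2 / 2 * (√(x ^ 2 + y ^ 2) / (1 + √(1 - x ^ 2 - y ^ 2)))) := by
  obtain ⟨s, φ, h0, rfl, rfl⟩ : ∃ s φ : ℝ, 0 ≤ s ∧ x = s * cos φ ∧ y = s * sin φ := by
    refine ⟨‖(⟨x, y⟩ : ℂ)‖, (⟨x, y⟩ : ℂ).arg, norm_nonneg _, ?_, ?_⟩
    · rw [Complex.norm_mul_cos_arg]
    · rw [Complex.norm_mul_sin_arg]
  have e0 := sin_sq_add_cos_sq φ
  have e1 : (s * cos φ) ^ 2 + (s * sin φ) ^ 2 = s ^ 2 := by linear_combination s ^ 2 * e0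
  have e2 : 1 - (s * cos φ) ^ 2 - (s * sin φ) ^ 2 = 1 - s ^ 2 := by linarith
  rw [e1] at h
  have h1 : s < 1 := by nlinarith
  have e3 : √(1 - (s * cos φ) ^ 2 - (s * sin φ) ^ 2) = cc s := by
    rw [e2]
    rfl
  have hc := cc_pos h0 h1
  have hc2 := cc_sq h0 h1
  have hF := ef_shift hf φ
  have z1 : G1 s 0 (fun t => f (t + φ)) = 0 := by
    rw [G1_rot h hf, hG1, hG2]
    ring
  have z2 : G2 s 0 (fun t => f (t + φ)) = 0 := by
    rw [G2_rot h hf, hG1, hG2]
    ring
  have e4 := form_abs h0 h1 hF z1 z2 ((v₁ * cos φ + v₂ * sin φ) / cc s)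
    (-v₁ * sin φ + v₂ * cos φ)
  have e5 : (v₁ * cos φ + v₂ * sin φ) / cc s * cc s = v₁ * cos φ + v₂ * sin φ := by
    field_simp
  rw [e5, quad_rot hf] at e4
  have e6 : (v₁ * cos φ + v₂ * sin φ) * cos φ - (-v₁ * sin φ + v₂ * cos φ) * sin φ = v₁ := by
    linear_combination v₁ * e0
  have e7 : (v₁ * cos φ + v₂ * sin φ) * sin φ + (-v₁ * sin φ + v₂ * cos φ) * cos φ = v₂ := by
    linear_combination v₂ * e0
  have e8 : ((v₁ * cos φ + v₂ * sin φ) / cc s) ^ 2 + (-v₁ * sin φ + v₂ * cos φ) ^ 2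
      = v₁ ^ 2 + v₂ ^ 2 + (s * cos φ * v₁ + s * sin φ * v₂) ^ 2 / (1 - s ^ 2) := by
    rw [← hc2, div_pow]
    have h9 : s ^ 2 = 1 - cc s ^ 2 := by linarith
    have h10 : (s * cos φ * v₁ + s * sin φ * v₂) ^ 2
        = (1 - cc s ^ 2) * (v₁ * cos φ + v₂ * sin φ) ^ 2 := by
      rw [← h9]
      ring
    rw [h10]
    field_simp
    linear_combination (v₁ ^ 2 + v₂ ^ 2) * cc s ^ 2 * e0
  rw [e6, e7, e8, ← H_quad (by rw [e1]; exact h) hf] at e4
  rw [e3, e2, e1, sqrt_sq h0]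
  exact e4

theorem kappa_le {x y : ℝ} (h : x ^ 2 + y ^ 2 < 1) :
    √2 / 2 * (√(x ^ 2 + y ^ 2) / (1 + √(1 - x ^ 2 - y ^ 2))) ≤ 71 / 100 := by
  have h1 : √(x ^ 2 + y ^ 2) ≤ 1 := by
    rw [show (1 : ℝ) = √1 by simp]
    exact sqrt_le_sqrt (by simpa using h.le)
  have h2 : 0 ≤ √(1 - x ^ 2 - y ^ 2) := sqrt_nonneg _
  have h3 : √(x ^ 2 + y ^ 2) / (1 + √(1 - x ^ 2 - y ^ 2)) ≤ 1 := by
    rw [div_le_one (by positivity)]
    linarith
  have h4 : √2 ≤ 71 / 50 := by
    rw [sqrt_le_left (by norm_num)]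
    norm_num
  have h5 : 0 ≤ √(x ^ 2 + y ^ 2) / (1 + √(1 - x ^ 2 - y ^ 2)) := by positivity
  nlinarith

/-- coercivity of `H` at a zero -/
theorem quad_ge {x y : ℝ} (h : x ^ 2 + y ^ 2 < 1) (hf : UMP.Ef f) (hG1 : G1 x y f = 0)
    (hG2 : G2 x y f = 0) (v₁ v₂ : ℝ) :
    29 / 100 * π * (v₁ ^ 2 + v₂ ^ 2 + (x * v₁ + y * v₂) ^ 2 / (1 - x ^ 2 - y ^ 2))
      ≤ √(1 - x ^ 2 - y ^ 2)
        * (H11 x y f * v₁ ^ 2 + 2 * H12 x y f * v₁ * v₂ + H22 x y f * v₂ ^ 2) := by
  have h1 := quad_abs h hf hG1 hG2 v₁ v₂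
  have h2 := kappa_le h
  have h3 : 0 ≤ π * (v₁ ^ 2 + v₂ ^ 2 + (x * v₁ + y * v₂) ^ 2 / (1 - x ^ 2 - y ^ 2)) := by
    have : 0 < 1 - x ^ 2 - y ^ 2 := by linarith
    positivity
  have h4 := (abs_le.1 h1).1
  nlinarith [mul_le_mul_of_nonneg_left h2 h3]

theorem hh_lin (s P R t : ℝ) : hh s P R t = P * hh s 1 0 t + R * hh s 0 1 t := by
  unfold hh
  ring

/-- the determinant of `H` at a zero -/
theorem det_ge {x y : ℝ} (h : x ^ 2 + y ^ 2 < 1) (hf : UMP.Ef f) (hG1 : G1 x y f = 0)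
    (hG2 : G2 x y f = 0) :
    π ^ 2 * (1 - (x ^ 2 + y ^ 2) / (2 * (1 + √(1 - x ^ 2 - y ^ 2)) ^ 2))
      ≤ (1 - x ^ 2 - y ^ 2) ^ 2 * (H11 x y f * H22 x y f - H12 x y f ^ 2) := by
  obtain ⟨s, φ, h0, rfl, rfl⟩ : ∃ s φ : ℝ, 0 ≤ s ∧ x = s * cos φ ∧ y = s * sin φ := by
    refine ⟨‖(⟨x, y⟩ : ℂ)‖, (⟨x, y⟩ : ℂ).arg, norm_nonneg _, ?_, ?_⟩
    · rw [Complex.norm_mul_cos_arg]
    · rw [Complex.norm_mul_sin_arg]
  have e0 := sin_sq_add_cos_sq φ
  have e1 : (s * cos φ) ^ 2 + (s * sin φ) ^ 2 = s ^ 2 := by linear_combination s ^ 2 * e0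
  have e2 : 1 - (s * cos φ) ^ 2 - (s * sin φ) ^ 2 = 1 - s ^ 2 := by linarith
  rw [e1] at h
  have h1 : s < 1 := by nlinarith
  have h' : s ^ 2 + (0 : ℝ) ^ 2 < 1 := by linarith
  have hc := cc_pos h0 h1
  have hc2 := cc_sq h0 h1
  have hF := ef_shift hf φ
  have z1 : G1 s 0 (fun t => f (t + φ)) = 0 := by
    rw [G1_rot h hf, hG1, hG2]
    ring
  have z2 : G2 s 0 (fun t => f (t + φ)) = 0 := by
    rw [G2_rot h hf, hG1, hG2]
    ring
  have key : ∀ a b : ℝ, H11 s 0 (fun t => f (t + φ)) * a ^ 2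
      + 2 * H12 s 0 (fun t => f (t + φ)) * a * b + H22 s 0 (fun t => f (t + φ)) * b ^ 2
      = H11 (s * cos φ) (s * sin φ) f * (a * cos φ - b * sin φ) ^ 2
        + 2 * H12 (s * cos φ) (s * sin φ) f * (a * cos φ - b * sin φ)
          * (a * sin φ + b * cos φ)
        + H22 (s * cos φ) (s * sin φ) f * (a * sin φ + b * cos φ) ^ 2 := by
    intro a b
    rw [H_quad h' hF, H_quad (by rw [e1]; exact h) hf, quad_rot hf]
  set u := H11 (s * cos φ) (s * sin φ) f
  set v := H12 (s * cos φ) (s * sin φ) f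
  set w := H22 (s * cos φ) (s * sin φ) f
  have k1 := key 1 0
  have k2 := key 0 1
  have k3 := key 1 1
  have hdet : H11 s 0 (fun t => f (t + φ)) * H22 s 0 (fun t => f (t + φ))
      - H12 s 0 (fun t => f (t + φ)) ^ 2 = u * w - v ^ 2 := by
    have j1 : H11 s 0 (fun t => f (t + φ))
        = u * cos φ ^ 2 + 2 * v * cos φ * sin φ + w * sin φ ^ 2 := by linarith
    have j2 : H22 s 0 (fun t => f (t + φ))
        = u * sin φ ^ 2 - 2 * v * cos φ * sin φ + w * cos φ ^ 2 := by linarith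
    have j3 : H12 s 0 (fun t => f (t + φ))
        = -u * cos φ * sin φ + v * (cos φ ^ 2 - sin φ ^ 2) + w * cos φ * sin φ := by
      rw [j1, j2] at k3
      linarith
    rw [j1, j2, j3]
    have e9 : (sin φ ^ 2 + cos φ ^ 2) ^ 2 = 1 := by rw [e0]; norm_num
    linear_combination (u * w - v ^ 2) * e9
  -- the two harmonics
  have fm := form h0 h1 hF z1 z2
  have cS := contSA h0 h1
  set S1 := ∫ t in (0 : ℝ)..(2 * π), hh s 1 0 t * (deriv (fun t => f (t + φ)) t + s * SA s t)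
    with hS1
  set S2 := ∫ t in (0 : ℝ)..(2 * π), hh s 0 1 t * (deriv (fun t => f (t + φ)) t + s * SA s t)
    with hS2
  have ii : ∀ P R : ℝ, IntervalIntegrable
      (fun t => hh s P R t * (deriv (fun t => f (t + φ)) t + s * SA s t)) volume 0 (2 * π) := by
    intro P R
    have i1 := int_deriv hF.lip (conthh h0 h1 P R) 0 (2 * π)
    have i2 : IntervalIntegrable (fun t => hh s P R t * (s * SA s t)) volume 0 (2 * π) :=
      ((conthh h0 h1 P R).mul (cS.const_mul s)).intervalIntegrable _ _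
    have i3 := i1.add i2
    refine i3.congr_ae ?_
    refine Filter.Eventually.of_forall fun t => ?_
    change hh s P R t * deriv (fun t => f (t + φ)) t + hh s P R t * (s * SA s t) = _
    ring
  have lin : ∀ P R : ℝ, ∫ t in (0 : ℝ)..(2 * π),
      hh s P R t * (deriv (fun t => f (t + φ)) t + s * SA s t) = P * S1 + R * S2 := by
    intro P R
    have i0 : (fun t => hh s P R t * (deriv (fun t => f (t + φ)) t + s * SA s t))
        = fun t => P * (hh s 1 0 t * (deriv (fun t => f (t + φ)) t + s * SA s t))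
          + R * (hh s 0 1 t * (deriv (fun t => f (t + φ)) t + s * SA s t)) := by
      funext t
      rw [hh_lin s P R]
      ring
    rw [i0, intervalIntegral.integral_add ((ii 1 0).const_mul P) ((ii 0 1).const_mul R),
      intervalIntegral.integral_const_mul, intervalIntegral.integral_const_mul]
  have hq : ∀ p₁ p₂ : ℝ, cc s * (H11 s 0 (fun t => f (t + φ)) * (p₁ * cc s) ^ 2
      + 2 * H12 s 0 (fun t => f (t + φ)) * (p₁ * cc s) * p₂
      + H22 s 0 (fun t => f (t + φ)) * p₂ ^ 2)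
      = π * (p₁ ^ 2 + p₂ ^ 2) - s / (4 * cc s) *
        ((p₁ ^ 2 - p₂ ^ 2) * S1 + 2 * p₁ * p₂ * S2) := by
    intro p₁ p₂
    rw [H_quad h' hF, fm p₁ p₂, lin]
  have m1 := hq 1 0
  have m2 := hq 0 1
  have m3 := hq 1 1
  set τ := s / (4 * cc s) with hτ
  have n1 : cc s ^ 3 * H11 s 0 (fun t => f (t + φ)) = π - τ * S1 := by linarith
  have n2 : cc s * H22 s 0 (fun t => f (t + φ)) = π + τ * S1 := by linarith
  have n3 : cc s ^ 2 * H12 s 0 (fun t => f (t + φ)) = -(τ * S2) := by linarith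
  have hd : cc s ^ 4 * (u * w - v ^ 2) = π ^ 2 - τ ^ 2 * (S1 ^ 2 + S2 ^ 2) := by
    rw [← hdet]
    calc _ = (cc s ^ 3 * H11 s 0 (fun t => f (t + φ))) * (cc s * H22 s 0 (fun t => f (t + φ)))
          - (cc s ^ 2 * H12 s 0 (fun t => f (t + φ))) ^ 2 := by ring
      _ = _ := by
        rw [n1, n2, n3]
        ring
  have hb : τ ^ 2 * (S1 ^ 2 + S2 ^ 2) ≤ π ^ 2 * (s ^ 2 / (2 * (1 + cc s) ^ 2)) := by
    rcases h0.eq_or_lt with hz | hz
    · rw [hτ, ← hz]
      simp
    · have b1 := hf_abs h0 h1 hF hz z1 S1 S2 √(S1 ^ 2 + S2 ^ 2) (sqrt_nonneg _)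
        (by rw [sq_sqrt (by positivity)])
      rw [lin] at b1
      have b2 := le_trans (le_abs_self _) b1
      set r := √(S1 ^ 2 + S2 ^ 2) with hr
      have b3 : r ^ 2 = S1 ^ 2 + S2 ^ 2 := sq_sqrt (by positivity)
      have b4 : 0 ≤ r := sqrt_nonneg _
      have b5 : r ^ 2 ≤ 2 * √2 * π * cc s * r / (1 + cc s) := by
        rw [b3]
        linarith
      have b6 : r ≤ 2 * √2 * π * cc s / (1 + cc s) := by
        rcases b4.eq_or_lt with hr0 | hr0
        · rw [← hr0]
          positivity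
        · have b7 : r * r ≤ (2 * √2 * π * cc s / (1 + cc s)) * r := by
            calc r * r = r ^ 2 := by ring
              _ ≤ _ := b5
              _ = _ := by ring
          exact le_of_mul_le_mul_right b7 hr0
      have b8 : r ^ 2 ≤ (2 * √2 * π * cc s / (1 + cc s)) ^ 2 := pow_le_pow_left₀ b4 b6 2
      have b9 : τ ^ 2 * (2 * √2 * π * cc s / (1 + cc s)) ^ 2
          = π ^ 2 * (s ^ 2 / (2 * (1 + cc s) ^ 2)) := by
        have h22 : √2 ^ 2 = 2 := by rw [sq_sqrt]; norm_num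
        rw [hτ]
        field_simp
        rw [h22]
        ring
      rw [← b3, ← b9]
      exact mul_le_mul_of_nonneg_left b8 (by positivity)
  have e3 : √(1 - s ^ 2) = cc s := rfl
  rw [e2, e1, e3]
  have e4 : (1 - s ^ 2) ^ 2 = cc s ^ 4 := by
    rw [← hc2]
    ring
  rw [e4, hd]
  linarith

end rot

end Pool.Agent.FPX.F54
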