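import Mathlib
import Pool.Agent.FPX.F54K
import Pool.Agent.FPX.F54B
import Pool.Agent.FPX.F54S

/-
F54X (helper8): existence, uniqueness, continuity and derivative of helper54's map.
-/

open MeasureTheory Set Filter Topology
open scoped ENNReal NNReal

noncomputable section

namespace Pool.Agent.FPX.F54

open Real Pool.Agent.FPX.UMP Pool.Agent.FPX.UMQ Pool.Agent.FPX.KNT
open Pool.Agent.FPX.F54B (ker ker_pos one_le_ker cont_ker_pr cont_pr)

/-- the Hessian is nondegenerate at every zero -/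
def HDet : Prop := ∀ f, Ef f → ∀ x y : ℝ, x ^ 2 + y ^ 2 < 1 → G1 x y f = 0 → G2 x y f = 0 →
  0 < H11 x y f * H22 x y f - H12 x y f ^ 2

/-- the Hessian is nondegenerate at every zero (helper16) -/
theorem hdet : HDet := by
  intro f hf x y h h1 h2
  have h3 := det_ge h hf h1 h2
  set c := √(1 - x ^ 2 - y ^ 2) with hc
  have hc2 : c ^ 2 = 1 - x ^ 2 - y ^ 2 := sq_sqrt (by linarith)
  have hc0 : 0 < c := sqrt_pos.2 (by linarith)
  have h4 : 0 < π ^ 2 * (1 - (x ^ 2 + y ^ 2) / (2 * (1 + c) ^ 2)) := by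
    have h5 : (x ^ 2 + y ^ 2) / (2 * (1 + c) ^ 2) ≤ 1 / 2 := by
      rw [div_le_iff₀ (by positivity)]
      nlinarith
    have h6 : 0 < 1 - (x ^ 2 + y ^ 2) / (2 * (1 + c) ^ 2) := by linarith
    positivity
  have h5 : 0 < (1 - x ^ 2 - y ^ 2) ^ 2 := by
    have : 0 < 1 - x ^ 2 - y ^ 2 := by linarith
    positivity
  by_contra hcon
  push Not at hcon
  nlinarith

theorem int_abs_pr {x y : ℝ} (h : x ^ 2 + y ^ 2 < 1) :
    ∫ t in (0 : ℝ)..(2 * π), |pr x y t| * ker (pr x y t)
      = √(x ^ 2 + y ^ 2) * (4 / (1 - (x ^ 2 + y ^ 2))) := by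
  obtain ⟨φ, hx, hy⟩ := F54B.exists_polar x y
  set r := √(x ^ 2 + y ^ 2) with hr
  have hr0 : 0 ≤ r := sqrt_nonneg _
  have hr2 : r ^ 2 = x ^ 2 + y ^ 2 := sq_sqrt (by positivity)
  have hr1 : r < 1 := by nlinarith
  have e : ∀ t, pr x y (t + φ) = r * cos t := by
    intro t
    unfold pr
    rw [hx, hy, cos_add, sin_add]
    linear_combination r * cos t * (sin_sq_add_cos_sq φ)
  have hp : Function.Periodic (fun t => |pr x y t| * ker (pr x y t)) (2 * π) := by
    intro t
    simp only [pr, cos_add_two_pi, sin_add_two_pi]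
  rw [F54B.shift hp φ]
  simp only [e, abs_mul, abs_of_nonneg hr0, mul_assoc]
  rw [intervalIntegral.integral_const_mul, F54B.int_abs_cos hr0 hr1, hr2]

/-- pointwise lower bound -/
theorem low_pt {m m' a p : ℝ} (hm0 : 0 ≤ m) (hmm : m ≤ m') (hm' : m' < π / 2) (ha : |a| ≤ m)
    (hp : p ^ 2 < 1) :
    (m' - m) * (|p| * ker p) - m' / cos m' ^ 3 ≤ -((a - arcsin p) * p * ker p) := by
  have hk := ker_pos hp
  have hcm : 0 < cos m' := cos_pos_of_mem_Ioo ⟨by linarith, hm'⟩
  have hp1 : |p| < 1 := by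
    rw [← sq_lt_one_iff_abs_lt_one]
    exact hp
  have hap : a * p ≤ m * |p| := by
    calc a * p ≤ |a * p| := le_abs_self _
      _ = |a| * |p| := abs_mul _ _
      _ ≤ m * |p| := mul_le_mul_of_nonneg_right ha (abs_nonneg _)
  have hsp : arcsin p * p = arcsin |p| * |p| := by
    rcases le_total 0 p with h | h
    · rw [abs_of_nonneg h]
    · rw [abs_of_nonpos h, arcsin_neg]
      ring
  have hs0 : 0 ≤ arcsin |p| := arcsin_nonneg.2 (abs_nonneg _)
  have hq : 0 ≤ m' / cos m' ^ 3 := by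
    have : 0 ≤ m' := hm0.trans hmm
    positivity
  have e : -((a - arcsin p) * p * ker p) = (arcsin |p| * |p| - a * p) * ker p := by
    rw [← hsp]
    ring
  rw [e]
  rcases le_total (sin m') |p| with h | h
  · have h1 : m' ≤ arcsin |p| := by
      have := monotone_arcsin h
      rwa [arcsin_sin (by linarith) hm'.le] at this
    have h2 : (m' - m) * |p| ≤ arcsin |p| * |p| - a * p := by
      nlinarith [abs_nonneg p]
    nlinarith
  · have h3 : ker p ≤ 1 / cos m' ^ 3 := by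
      unfold F54B.ker
      have h4 : cos m' ≤ √(1 - p ^ 2) := by
        apply le_sqrt_of_sq_le
        have : p ^ 2 ≤ sin m' ^ 2 := by
          rw [← sq_abs p]
          exact pow_le_pow_left₀ (abs_nonneg _) h 2
        nlinarith [sin_sq_add_cos_sq m']
      exact one_div_le_one_div_of_le (by positivity) (pow_le_pow_left₀ hcm.le h4 3)
    have h5 : m' * (|p| * ker p) ≤ m' / cos m' ^ 3 := by
      have h6 : |p| * ker p ≤ 1 * (1 / cos m' ^ 3) :=
        mul_le_mul hp1.le h3 hk.le (by norm_num)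
      calc m' * (|p| * ker p) ≤ m' * (1 * (1 / cos m' ^ 3)) :=
            mul_le_mul_of_nonneg_left h6 (hm0.trans hmm)
        _ = _ := by ring
    have h7 : 0 ≤ arcsin |p| * |p| * ker p := by positivity
    nlinarith [mul_le_mul_of_nonneg_right hap hk.le]

/-- a zero is not close to the boundary -/
theorem apr {f : ℝ → ℝ} (hf : Ef f) {m m' : ℝ} (hm0 : 0 ≤ m) (hmm : m < m') (hm' : m' < π / 2)
    (hb : ∀ t, |f t| ≤ m) {x y : ℝ} (hX : x ^ 2 + y ^ 2 < 1) (h1 : G1 x y f = 0)
    (h2 : G2 x y f = 0) :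
    (m' - m) * (√(x ^ 2 + y ^ 2) * (4 / (1 - (x ^ 2 + y ^ 2)))) ≤ 2 * π * (m' / cos m' ^ 3) := by
  have h3 := F54B.test hf.cont hX h1 h2 x y
  have h4 : ∀ t, pr x y t ^ 2 < 1 := fun t => F54B.pr_sq_lt hX t
  have c1 : Continuous fun t => |pr x y t| * ker (pr x y t) := cont_pr.abs.mul (cont_ker_pr hX)
  have h5 : ∫ t in (0 : ℝ)..(2 * π), ((m' - m) * (|pr x y t| * ker (pr x y t)) - m' / cos m' ^ 3)
      ≤ ∫ t in (0 : ℝ)..(2 * π), -((f t - arcsin (pr x y t)) * pr x y t * ker (pr x y t)) := by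
    refine intervalIntegral.integral_mono (by positivity)
      (((continuous_const.mul c1).sub continuous_const).intervalIntegrable _ _) ?_ fun t => ?_
    · exact ((((hf.cont.sub (Real.continuous_arcsin.comp cont_pr)).mul cont_pr).mul
        (cont_ker_pr hX)).neg).intervalIntegrable _ _
    · exact low_pt hm0 hmm.le hm' (hb t) (h4 t)
  have i1 : IntervalIntegrable (fun t => (m' - m) * (|pr x y t| * ker (pr x y t))) volume 0 (2 * π) :=
    (continuous_const.mul c1).intervalIntegrable _ _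
  rw [intervalIntegral.integral_neg, intervalIntegral.integral_sub i1 intervalIntegrable_const,
    intervalIntegral.integral_const_mul, int_abs_pr hX] at h5
  have h6 : (∫ t in (0 : ℝ)..(2 * π), (f t - arcsin (pr x y t)) * pr x y t * ker (pr x y t)) = 0 := h3
  rw [h6] at h5
  simp only [intervalIntegral.integral_const, smul_eq_mul, sub_zero, neg_zero] at h5
  linarith

theorem kmap : KMap FK FKx FKy FKa DD where
  ker := ker_FK
  apr := by
    intro m hm0 hm
    set m' := (m + π / 2) / 2 with hm'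
    have h1 : m < m' := by rw [hm']; linarith
    have h2 : m' < π / 2 := by rw [hm']; linarith
    have hm'0 : 0 < m' := by linarith
    have hcm : 0 < cos m' := cos_pos_of_mem_Ioo ⟨by linarith, h2⟩
    set B := 2 * π * (m' / cos m' ^ 3) with hB
    have hB0 : 0 < B := by positivity
    set ε := min (1 / 2) ((m' - m) * 2 / B) with hε
    have hε0 : 0 < ε := lt_min (by norm_num) (by
      have : 0 < m' - m := by linarith
      positivity)
    refine ⟨{X | X.1 ^ 2 + X.2 ^ 2 ≤ 1 - ε}, ?_, ?_, ?_⟩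
    · refine Metric.isCompact_of_isClosed_isBounded (isClosed_le (by fun_prop) continuous_const) ?_
      refine (Metric.isBounded_iff_subset_closedBall 0).2 ⟨1, fun X hX => ?_⟩
      rw [mem_closedBall_zero_iff, Prod.norm_def]
      simp only [mem_ofPred_eq] at hX
      refine max_le ?_ ?_
      · rw [Real.norm_eq_abs, abs_le]
        constructor <;> nlinarith [sq_nonneg X.2, sq_nonneg (X.1 - 1), sq_nonneg (X.1 + 1)]
      · rw [Real.norm_eq_abs, abs_le]
        constructor <;> nlinarith [sq_nonneg X.1, sq_nonneg (X.2 - 1), sq_nonneg (X.2 + 1)]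
    · intro X hX
      simp only [mem_ofPred_eq] at hX
      change X.1 ^ 2 + X.2 ^ 2 < 1
      linarith
    · intro f hf hb X hX h0
      have hX' : X.1 ^ 2 + X.2 ^ 2 < 1 := hX
      have e1 : G1 X.1 X.2 f = 0 := by rw [← Gk_FK_zero]; exact h0 0
      have e2 : G2 X.1 X.2 f = 0 := by rw [← Gk_FK_one]; exact h0 1
      have h3 := F54.apr hf hm0 h1 h2 hb hX' e1 e2
      simp only [mem_ofPred_eq]
      by_contra hcon
      push Not at hcon
      set q := X.1 ^ 2 + X.2 ^ 2 with hq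
      have hq1 : 1 / 2 < q := by
        have := min_le_left (1 / 2 : ℝ) ((m' - m) * 2 / B)
        rw [← hε] at this
        linarith
      have hs : 1 / 2 < √q := by
        apply lt_sqrt_of_sq_lt
        norm_num
        linarith
      have hd : 0 < 1 - q := by linarith
      have hlt : 1 - q < (m' - m) * 2 / B := by
        have := min_le_right (1 / 2 : ℝ) ((m' - m) * 2 / B)
        rw [← hε] at this
        linarith
      rw [lt_div_iff₀ hB0] at hlt
      have h4 : (m' - m) * (√q * (4 / (1 - q))) * (1 - q) = (m' - m) * √q * 4 := by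
        field_simp
      have h5 : (m' - m) * √q * 4 ≤ B * (1 - q) := by
        rw [← h4]
        exact mul_le_mul_of_nonneg_right h3 hd.le
      nlinarith
  det := by
    intro f hf X hX h0
    have e1 : G1 X.1 X.2 f = 0 := by rw [← Gk_FK_zero]; exact h0 0
    have e2 : G2 X.1 X.2 f = 0 := by rw [← Gk_FK_one]; exact h0 1
    have := hdet f hf X.1 X.2 hX e1 e2
    rw [Gk_FKx_zero, Gk_FKy_one, Gk_FKy_zero, Gk_FKx_one]
    nlinarith
  one := by
    refine ⟨(0, 0), ⟨?_, ?_⟩, ?_⟩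
    · change (0 : ℝ) ^ 2 + (0 : ℝ) ^ 2 < 1
      norm_num
    · intro i
      simp [Gk, FK, pr, kk]
    · rintro X ⟨hX, h0⟩
      have hX' : X.1 ^ 2 + X.2 ^ 2 < 1 := hX
      have e1 : G1 X.1 X.2 (fun _ => 0) = 0 := by rw [← Gk_FK_zero]; exact h0 0
      have e2 : G2 X.1 X.2 (fun _ => 0) = 0 := by rw [← Gk_FK_one]; exact h0 1
      have h4 := F54B.test continuous_const hX' e1 e2 X.1 X.2
      have hp2 : ∫ t in (0 : ℝ)..(2 * π), pr X.1 X.2 t ^ 2 = π * (X.1 ^ 2 + X.2 ^ 2) := by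
        have e : (fun t => pr X.1 X.2 t ^ 2) = fun t => X.1 ^ 2 * cos t ^ 2
            + (2 * X.1 * X.2) * (sin t * cos t) + X.2 ^ 2 * sin t ^ 2 := by
          funext t
          unfold pr
          ring
        have i1 : IntervalIntegrable (fun t : ℝ => X.1 ^ 2 * cos t ^ 2) volume 0 (2 * π) :=
          (by fun_prop : Continuous fun t : ℝ => X.1 ^ 2 * cos t ^ 2).intervalIntegrable _ _
        have i2 : IntervalIntegrable (fun t : ℝ => (2 * X.1 * X.2) * (sin t * cos t)) volume 0 (2 * π) :=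
          (by fun_prop : Continuous fun t : ℝ =>
            (2 * X.1 * X.2) * (sin t * cos t)).intervalIntegrable _ _
        have i3 : IntervalIntegrable (fun t : ℝ => X.2 ^ 2 * sin t ^ 2) volume 0 (2 * π) :=
          (by fun_prop : Continuous fun t : ℝ => X.2 ^ 2 * sin t ^ 2).intervalIntegrable _ _
        rw [e, intervalIntegral.integral_add (i1.add i2) i3, intervalIntegral.integral_add i1 i2,
          intervalIntegral.integral_const_mul, intervalIntegral.integral_const_mul,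
          intervalIntegral.integral_const_mul, integral_cos_sq, integral_sin_mul_cos₁, integral_sin_sq]
        simp
        ring
      have hp4 : ∀ t, pr X.1 X.2 t ^ 2 ≤
          -((0 - arcsin (pr X.1 X.2 t)) * (X.1 * cos t + X.2 * sin t) * ker (pr X.1 X.2 t)) := by
        intro t
        have hp := F54B.pr_sq_lt hX' t
        have h5 := one_le_ker hp
        have h6 : pr X.1 X.2 t ∈ Icc (-1 : ℝ) 1 := by constructor <;> nlinarith
        have h7 := F54B.arcsin_exp (a := pr X.1 X.2 t) (b := 0) h6 (by norm_num)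
        rw [arcsin_zero, sub_zero, sub_zero] at h7
        have h8 : X.1 * cos t + X.2 * sin t = pr X.1 X.2 t := rfl
        rw [h8]
        nlinarith [sq_nonneg (pr X.1 X.2 t)]
      have h5 : ∫ t in (0 : ℝ)..(2 * π), pr X.1 X.2 t ^ 2 ≤ ∫ t in (0 : ℝ)..(2 * π),
          -((0 - arcsin (pr X.1 X.2 t)) * (X.1 * cos t + X.2 * sin t) * ker (pr X.1 X.2 t)) := by
        refine intervalIntegral.integral_mono (by positivity)
          ((cont_pr.pow 2).intervalIntegrable _ _) ?_ hp4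
        exact ((((continuous_const.sub (Real.continuous_arcsin.comp cont_pr)).mul
          (by fun_prop : Continuous fun t : ℝ => X.1 * cos t + X.2 * sin t)).mul
          (cont_ker_pr hX')).neg).intervalIntegrable _ _
      rw [intervalIntegral.integral_neg, h4, hp2, neg_zero] at h5
      have h6 : X.1 ^ 2 + X.2 ^ 2 ≤ 0 := by
        by_contra hcon
        push Not at hcon
        nlinarith [pi_pos]
      have h7 : X.1 = 0 := by nlinarith [sq_nonneg X.1, sq_nonneg X.2]
      have h8 : X.2 = 0 := by nlinarith [sq_nonneg X.1, sq_nonneg X.2]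
      exact Prod.ext h7 h8

/-- first coordinate of the map -/
def X1 (f : ℝ → ℝ) : ℝ := (ZZ FK DD f).1

/-- second coordinate of the map -/
def X2 (f : ℝ → ℝ) : ℝ := (ZZ FK DD f).2

section

variable {f : ℝ → ℝ}

theorem X_lt (hf : Ef f) : X1 f ^ 2 + X2 f ^ 2 < 1 := kmap.mem hf

theorem X_G1 (hf : Ef f) : G1 (X1 f) (X2 f) f = 0 := by
  have := kmap.zero hf 0
  rw [Gk_FK_zero] at this
  exact this

theorem X_G2 (hf : Ef f) : G2 (X1 f) (X2 f) f = 0 := by
  have := kmap.zero hf 1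
  rw [Gk_FK_one] at this
  exact this

theorem X_eq (hf : Ef f) {x y : ℝ} (h : x ^ 2 + y ^ 2 < 1) (h1 : G1 x y f = 0)
    (h2 : G2 x y f = 0) : X1 f = x ∧ X2 f = y := by
  have h3 : ZZ FK DD f = (x, y) := by
    refine kmap.eq hf h fun i => ?_
    fin_cases i
    · exact (Gk_FK_zero (x, y) f).trans h1
    · exact (Gk_FK_one (x, y) f).trans h2
  unfold X1 X2
  rw [h3]
  exact ⟨rfl, rfl⟩

theorem Ef_neg (hf : Ef f) : Ef fun t => -f t where
  lip := hf.lip.neg
  odd := fun t => by rw [hf.odd t]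
  lt := fun t => by rw [abs_neg]; exact hf.lt t

theorem kk_neg (p a : ℝ) : kk (-p) (-a) = -kk p a := by
  unfold kk
  rw [arcsin_neg, neg_sq]
  ring

theorem pr_neg (x y t : ℝ) : pr (-x) (-y) t = -pr x y t := by
  unfold pr
  ring

theorem G1_neg (x y : ℝ) (f : ℝ → ℝ) : G1 (-x) (-y) (fun t => -f t) = -G1 x y f := by
  unfold G1
  simp only [pr_neg, kk_neg, mul_neg]
  rw [intervalIntegral.integral_neg]

theorem G2_neg (x y : ℝ) (f : ℝ → ℝ) : G2 (-x) (-y) (fun t => -f t) = -G2 x y f := by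
  unfold G2
  simp only [pr_neg, kk_neg, mul_neg]
  rw [intervalIntegral.integral_neg]

theorem X_neg (hf : Ef f) :
    X1 (fun t => -f t) = -X1 f ∧ X2 (fun t => -f t) = -X2 f := by
  refine X_eq (Ef_neg hf) ?_ ?_ ?_
  · have := X_lt hf
    rw [neg_sq, neg_sq]
    exact this
  · rw [G1_neg, X_G1 hf, neg_zero]
  · rw [G2_neg, X_G2 hf, neg_zero]

/-- continuity in the sup norm -/
theorem X_tendsto {ι : Type*} {l : Filter ι} {φ : ι → ℝ → ℝ} {f : ℝ → ℝ}
    (hφ : ∀ᶠ i in l, Ef (φ i)) (hf : Ef f)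
    (h : ∀ ε : ℝ, 0 < ε → ∀ᶠ i in l, ∀ t, |φ i t - f t| ≤ ε) :
    Tendsto (fun i => X1 (φ i)) l (𝓝 (X1 f)) ∧ Tendsto (fun i => X2 (φ i)) l (𝓝 (X2 f)) := by
  have h1 := kmap.tendsto hφ hf h
  exact ⟨(continuous_fst.tendsto _).comp h1, (continuous_snd.tendsto _).comp h1⟩

/-- `∫ cos t (1 - p²)^(-3/2) h dt` -/
def E1 (x y : ℝ) (h : ℝ → ℝ) : ℝ := ∫ t in (0 : ℝ)..(2 * π), cos t * ker (pr x y t) * h t

/-- `∫ sin t (1 - p²)^(-3/2) h dt` -/
def E2 (x y : ℝ) (h : ℝ → ℝ) : ℝ := ∫ t in (0 : ℝ)..(2 * π), sin t * ker (pr x y t) * h t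

/-- the derivative of the first coordinate in the direction `h` -/
def dX1 (f h : ℝ → ℝ) : ℝ :=
  (H22 (X1 f) (X2 f) f * E1 (X1 f) (X2 f) h - H12 (X1 f) (X2 f) f * E2 (X1 f) (X2 f) h) /
    (H11 (X1 f) (X2 f) f * H22 (X1 f) (X2 f) f - H12 (X1 f) (X2 f) f ^ 2)

/-- the derivative of the second coordinate in the direction `h` -/
def dX2 (f h : ℝ → ℝ) : ℝ :=
  (H11 (X1 f) (X2 f) f * E2 (X1 f) (X2 f) h - H12 (X1 f) (X2 f) f * E1 (X1 f) (X2 f) h) /
    (H11 (X1 f) (X2 f) f * H22 (X1 f) (X2 f) f - H12 (X1 f) (X2 f) f ^ 2)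

theorem X_der {φ : ℝ → ℝ → ℝ} {h : ℝ → ℝ} {x : ℝ} (hc : Crv φ h x)
    (he : ∀ᶠ s in 𝓝 x, Ef (φ s)) :
    HasDerivAt (fun s => X1 (φ s)) (dX1 (φ x) h) x ∧ HasDerivAt (fun s => X2 (φ s)) (dX2 (φ x) h) x := by
  have h1 := kmap.der hc he
  have e0 : (∫ t in (0 : ℝ)..(2 * π), FKa 0 (ZZ FK DD (φ x)) t (φ x t) * h t)
      = E1 (X1 (φ x)) (X2 (φ x)) h := by
    simp only [FKa, tr_zero]
    rfl
  have e1 : (∫ t in (0 : ℝ)..(2 * π), FKa 1 (ZZ FK DD (φ x)) t (φ x t) * h t)
      = E2 (X1 (φ x)) (X2 (φ x)) h := by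
    simp only [FKa, tr_one]
    rfl
  rw [e0, e1, Gk_FKx_zero, Gk_FKy_zero, Gk_FKx_one, Gk_FKy_one] at h1
  constructor
  · have h2 := (ContinuousLinearMap.fst ℝ ℝ ℝ).hasFDerivAt.comp_hasDerivAt x h1
    refine h2.congr_deriv ?_
    simp only [ContinuousLinearMap.coe_fst', Prod.neg_mk, dX1]
    unfold X1 X2
    rw [← neg_div]
    congr 1 <;> ring
  · have h2 := (ContinuousLinearMap.snd ℝ ℝ ℝ).hasFDerivAt.comp_hasDerivAt x h1
    refine h2.congr_deriv ?_
    simp only [ContinuousLinearMap.coe_snd', Prod.neg_mk, dX2]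
    unfold X1 X2
    rw [← neg_div]
    congr 1 <;> ring

/-- the derivative solves the linearised equation -/
theorem dX_spec (hf : Ef f) (h : ℝ → ℝ) :
    H11 (X1 f) (X2 f) f * dX1 f h + H12 (X1 f) (X2 f) f * dX2 f h = E1 (X1 f) (X2 f) h ∧
    H12 (X1 f) (X2 f) f * dX1 f h + H22 (X1 f) (X2 f) f * dX2 f h = E2 (X1 f) (X2 f) h := by
  have hd := hdet f hf _ _ (X_lt hf) (X_G1 hf) (X_G2 hf)
  unfold dX1 dX2
  constructor
  · rw [mul_div_assoc', mul_div_assoc', ← add_div, div_eq_iff hd.ne']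
    ring
  · rw [mul_div_assoc', mul_div_assoc', ← add_div, div_eq_iff hd.ne']
    ring

end

end Pool.Agent.FPX.F54
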