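import Mathlib
import Pool.Agent.FPX.F54X

/-
F54R (helper8): helper54's map commutes with rotations and with the reflection of the circle.
-/

open MeasureTheory Set Filter Topology
open scoped ENNReal NNReal

noncomputable section

namespace Pool.Agent.FPX.F54

open Real Pool.Agent.FPX.UMP Pool.Agent.FPX.UMQ Pool.Agent.FPX.KNT

variable {f : ℝ → ℝ}

theorem pr_rot (x y φ t : ℝ) :
    pr (cos φ * x + sin φ * y) (-sin φ * x + cos φ * y) t = pr x y (t + φ) := by
  unfold pr
  rw [cos_add, sin_add]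
  ring

/-- an integral over the circle with rotated arguments -/
theorem rot_int {W : ℝ → ℝ → ℝ → ℝ} (hW : ∀ p a t, W p a (t + 2 * π) = W p a t) (hf : Ef f)
    (x y φ : ℝ) :
    ∫ t in (0 : ℝ)..(2 * π), W (pr (cos φ * x + sin φ * y) (-sin φ * x + cos φ * y) t) (f (t + φ)) t
      = ∫ t in (0 : ℝ)..(2 * π), W (pr x y t) (f t) (t - φ) := by
  have h1 := int_shift (F := fun t => W (pr x y t) (f t) (t - φ)) (by
    intro t
    rw [show t + 2 * π - φ = (t - φ) + 2 * π by ring, hW, pr_per, hf.per]) φ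
  rw [← h1]
  refine intervalIntegral.integral_congr fun t _ => ?_
  simp only [pr_rot, add_sub_cancel_right]

theorem kk_int {x y : ℝ} (h : x ^ 2 + y ^ 2 < 1) (hf : Ef f) :
    Continuous fun t => kk (pr x y t) (f t) := cont_kk h hf

theorem G1_rot' {x y : ℝ} (h : x ^ 2 + y ^ 2 < 1) (hf : Ef f) (φ : ℝ) :
    G1 (cos φ * x + sin φ * y) (-sin φ * x + cos φ * y) (fun t => f (t + φ))
      = cos φ * G1 x y f + sin φ * G2 x y f := by
  have ck := kk_int h hf
  unfold G1 G2
  rw [rot_int (W := fun p a t => cos t * kk p a) (fun p a t => by rw [cos_add_two_pi]) hf x y φ,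
    ← intervalIntegral.integral_const_mul, ← intervalIntegral.integral_const_mul,
    ← intervalIntegral.integral_add]
  · refine intervalIntegral.integral_congr fun t _ => ?_
    simp only [cos_sub]
    ring
  · exact (continuous_const.mul (continuous_cos.mul ck)).intervalIntegrable _ _
  · exact (continuous_const.mul (continuous_sin.mul ck)).intervalIntegrable _ _

theorem G2_rot' {x y : ℝ} (h : x ^ 2 + y ^ 2 < 1) (hf : Ef f) (φ : ℝ) :
    G2 (cos φ * x + sin φ * y) (-sin φ * x + cos φ * y) (fun t => f (t + φ))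
      = -sin φ * G1 x y f + cos φ * G2 x y f := by
  have ck := kk_int h hf
  unfold G1 G2
  rw [rot_int (W := fun p a t => sin t * kk p a) (fun p a t => by rw [sin_add_two_pi]) hf x y φ,
    ← intervalIntegral.integral_const_mul, ← intervalIntegral.integral_const_mul,
    ← intervalIntegral.integral_add]
  · refine intervalIntegral.integral_congr fun t _ => ?_
    simp only [sin_sub]
    ring
  · exact (continuous_const.mul (continuous_cos.mul ck)).intervalIntegrable _ _
  · exact (continuous_const.mul (continuous_sin.mul ck)).intervalIntegrable _ _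

theorem rot_sq (x y φ : ℝ) :
    (cos φ * x + sin φ * y) ^ 2 + (-sin φ * x + cos φ * y) ^ 2 = x ^ 2 + y ^ 2 := by
  linear_combination (x ^ 2 + y ^ 2) * sin_sq_add_cos_sq φ

/-- rotation equivariance -/
theorem X_rot (hf : Ef f) (φ : ℝ) :
    X1 (fun t => f (t + φ)) = cos φ * X1 f + sin φ * X2 f ∧
    X2 (fun t => f (t + φ)) = -sin φ * X1 f + cos φ * X2 f := by
  refine X_eq (ef_shift hf φ) ?_ ?_ ?_
  · rw [rot_sq]
    exact X_lt hf
  · rw [G1_rot' (X_lt hf) hf, X_G1 hf, X_G2 hf]
    ring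
  · rw [G2_rot' (X_lt hf) hf, X_G1 hf, X_G2 hf]
    ring

/-- every state can be rotated to the model position -/
theorem exists_rot (hf : Ef f) : ∃ φ s : ℝ, 0 ≤ s ∧ s < 1 ∧ s ^ 2 = X1 f ^ 2 + X2 f ^ 2 ∧
    Ef (fun t => f (t + φ)) ∧ X1 (fun t => f (t + φ)) = s ∧ X2 (fun t => f (t + φ)) = 0 ∧
    X1 f = s * cos φ ∧ X2 f = s * sin φ := by
  obtain ⟨φ, h1, h2⟩ := F54B.exists_polar (X1 f) (X2 f)
  set s := √(X1 f ^ 2 + X2 f ^ 2) with hs
  have hs2 : s ^ 2 = X1 f ^ 2 + X2 f ^ 2 := sq_sqrt (by positivity)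
  have hs0 : 0 ≤ s := sqrt_nonneg _
  have hs1 : s < 1 := by
    have := X_lt hf
    nlinarith
  refine ⟨φ, s, hs0, hs1, hs2, ef_shift hf φ, ?_, ?_, h1, h2⟩
  · rw [(X_rot hf φ).1, h1, h2]
    linear_combination s * (sin_sq_add_cos_sq φ)
  · rw [(X_rot hf φ).2, h1, h2]
    ring

end Pool.Agent.FPX.F54
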