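import Mathlib
import Pool.Agent.EWD.RUL
import Pool.Agent.EWD.LPA
import Pool.Agent.FPX.UMH

/-
CST (helper18): closed forms on the surface. For Lipschitz functions `U 0, …, U (n-1)` on the surface and a
1-form `λ = ∑ aᵢ duᵢ` of class `C¹` near their values, the integral of the pull-back of `dλ` is the
boundary integral of the pull-back of `λ`.
-/

open MeasureTheory Set Filter Topology
open scoped ENNReal NNReal ContDiff

noncomputable section

namespace Pool.Agent.FPX.CST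

open Pool.Agent.EWD

variable {M : Type} [MetricSpace M] {γ : ℝ → M} {n : ℕ}

/-- the values of the coordinates -/
def vc (U : Fin n → M → ℝ) (x : M) : Fin n → ℝ := fun i => U i x

/-- the derivatives of the coordinates in the first direction -/
def vx (C : Calc M γ) (U : Fin n → M → ℝ) (o : Om) : Fin n → ℝ := fun i => C.gx (U i) o

/-- the derivatives of the coordinates in the second direction -/
def vy (C : Calc M γ) (U : Fin n → M → ℝ) (o : Om) : Fin n → ℝ := fun i => C.gy (U i) o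

/-- the value of `dλ`, `λ = ∑ aᵢ duᵢ`, on the vectors `p`, `q`; `a' i` is the derivative of `a i` -/
def dl (a' : Fin n → (Fin n → ℝ) → (Fin n → ℝ) →L[ℝ] ℝ) (u p q : Fin n → ℝ) : ℝ :=
  ∑ i, (a' i u p * q i - a' i u q * p i)

theorem lip_vc {U : Fin n → M → ℝ} (hU : ∀ i, Lip (U i)) : ∃ L : ℝ≥0, LipschitzWith L (vc U) := by
  choose L hL using hU
  refine ⟨Finset.univ.sup L, LipschitzWith.of_dist_le_mul fun x y => ?_⟩
  rw [dist_pi_le_iff (by positivity)]
  intro i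
  refine ((hL i).dist_le_mul x y).trans ?_
  have : L i ≤ Finset.univ.sup L := Finset.le_sup (Finset.mem_univ i)
  exact mul_le_mul_of_nonneg_right (by exact_mod_cast this) dist_nonneg

/-- a function of class `C¹` of Lipschitz functions is Lipschitz -/
theorem lip_comp [CompactSpace M] {U : Fin n → M → ℝ} (hU : ∀ i, Lip (U i)) {O : Set (Fin n → ℝ)}
    (hO : IsOpen O) (hm : ∀ x, vc U x ∈ O) {a : (Fin n → ℝ) → ℝ} (ha : ContDiffOn ℝ 1 a O) :
    Lip (fun x => a (vc U x)) := by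
  obtain ⟨L, hL⟩ := lip_vc hU
  have hK : IsCompact (range (vc U)) := isCompact_range hL.continuous
  have hl : LocallyLipschitzOn (range (vc U)) a := by
    rintro u ⟨x, rfl⟩
    obtain ⟨K, t, ht, h⟩ := (ha.contDiffAt (hO.mem_nhds (hm x))).exists_lipschitzOnWith
    exact ⟨K, t, mem_nhdsWithin_of_mem_nhds ht, h⟩
  obtain ⟨K, h⟩ := hl.exists_lipschitzOnWith_of_compact hK
  exact ⟨K * L, fun x y => (h (mem_range_self x) (mem_range_self y)).trans
    ((mul_le_mul_right (hL x y) _).trans (by rw [ENNReal.coe_mul, mul_assoc]))⟩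

/-- chain rule -/
theorem ae_chain (C : Calc M γ) {U : Fin n → M → ℝ} (hU : ∀ i, Lip (U i)) {a : (Fin n → ℝ) → ℝ}
    {a' : (Fin n → ℝ) → (Fin n → ℝ) →L[ℝ] ℝ} (ha : ∀ x, HasFDerivAt a (a' (vc U x)) (vc U x)) :
    ∀ᵐ o ∂C.μ, C.gx (fun x => a (vc U x)) o = a' (vc U (C.pt o)) (vx C U o) ∧
      C.gy (fun x => a (vc U x)) o = a' (vc U (C.pt o)) (vy C U o) := by
  have h : ∀ᵐ o ∂C.μ, ∀ i, HasDerivAt (fun s => U i (C.px o s)) (C.gx (U i) o) 0 ∧
      HasDerivAt (fun s => U i (C.py o s)) (C.gy (U i) o) 0 :=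
    ae_all_iff.2 fun i => C.ae_has (hU i)
  filter_upwards [h] with o ho
  constructor
  · have h1 : HasDerivAt (fun s => vc U (C.px o s)) (vx C U o) 0 := hasDerivAt_pi.2 fun i => (ho i).1
    exact ((ha (C.px o 0)).comp_hasDerivAt (0 : ℝ) h1).deriv
  · have h1 : HasDerivAt (fun s => vc U (C.py o s)) (vy C U o) 0 := hasDerivAt_pi.2 fun i => (ho i).2
    have h2 := ((ha (C.py o 0)).comp_hasDerivAt (0 : ℝ) h1).deriv
    rw [C.py_zero] at h2
    exact h2

theorem wed_int [CompactSpace M] (C : Calc M γ) {u w : M → ℝ} (hu : Lip u) (hw : Lip w) :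
    Integrable (fun o => C.gx u o * C.gy w o - C.gy u o * C.gx w o) C.μ := by
  obtain ⟨L, hL⟩ := hu
  obtain ⟨K, hK⟩ := hw
  have hu : Lip u := ⟨L, hL⟩
  have hw : Lip w := ⟨K, hK⟩
  refine Calc.integrable_of_bdd C (B := 2 * ((L : ℝ) * K)) ?_ ?_
  · exact ((Calc.meas_gx C hu).mul (Calc.meas_gy C hw)).sub
      ((Calc.meas_gy C hu).mul (Calc.meas_gx C hw))
  · filter_upwards [Calc.ae_grad_le C hL, Calc.ae_grad_le C hK] with o h1 h2
    have e1 : |C.gx u o| ≤ L := abs_le_of_sq_le_sq (by nlinarith [sq_nonneg (C.gy u o)]) L.2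
    have e2 : |C.gy u o| ≤ L := abs_le_of_sq_le_sq (by nlinarith [sq_nonneg (C.gx u o)]) L.2
    have e3 : |C.gx w o| ≤ K := abs_le_of_sq_le_sq (by nlinarith [sq_nonneg (C.gy w o)]) K.2
    have e4 : |C.gy w o| ≤ K := abs_le_of_sq_le_sq (by nlinarith [sq_nonneg (C.gx w o)]) K.2
    have f1 : |C.gx u o * C.gy w o| ≤ (L : ℝ) * K := by
      rw [abs_mul]
      exact mul_le_mul e1 e4 (abs_nonneg _) L.2
    have f2 : |C.gy u o * C.gx w o| ≤ (L : ℝ) * K := by
      rw [abs_mul]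
      exact mul_le_mul e2 e3 (abs_nonneg _) L.2
    calc |C.gx u o * C.gy w o - C.gy u o * C.gx w o|
        ≤ |C.gx u o * C.gy w o| + |C.gy u o * C.gx w o| := abs_sub _ _
      _ ≤ 2 * ((L : ℝ) * K) := by linarith

theorem bd_int (hγ : Bd γ) {u w : M → ℝ} (hu : Lip u) (hw : Lip w) (a b : ℝ) :
    IntervalIntegrable (fun t => u (γ t) * deriv (fun s => w (γ s)) t) volume a b := by
  obtain ⟨K, hK⟩ := hw
  have hl : LipschitzWith K (fun t => w (γ t)) := by
    have := hK.comp hγ.lip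
    rwa [mul_one] at this
  have h1 : IntervalIntegrable (deriv (fun s => w (γ s))) volume a b :=
    (hl.lipschitzOnWith.absolutelyContinuousOnInterval).intervalIntegrable_deriv
  exact h1.continuousOn_mul (hu.cont.comp hγ.lip.continuous).continuousOn

/-- Stokes for a sum of products -/
theorem stokes_sum [CompactSpace M] (C : Calc M γ) (hγ : Bd γ) {A U : Fin n → M → ℝ}
    (hA : ∀ i, Lip (A i)) (hU : ∀ i, Lip (U i)) :
    Integrable (fun o => ∑ i, (C.gx (A i) o * C.gy (U i) o - C.gy (A i) o * C.gx (U i) o)) C.μ ∧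
    ∫ o, ∑ i, (C.gx (A i) o * C.gy (U i) o - C.gy (A i) o * C.gx (U i) o) ∂C.μ =
      C.sg * ∫ t in (0 : ℝ)..(2 * Real.pi), ∑ i, A i (γ t) * deriv (fun s => U i (γ s)) t := by
  refine ⟨integrable_finsetSum _ fun i _ => wed_int C (hA i) (hU i), ?_⟩
  rw [integral_finsetSum _ fun i _ => wed_int C (hA i) (hU i),
    intervalIntegral.integral_finsetSum fun i _ => bd_int hγ (hA i) (hU i) _ _, Finset.mul_sum]
  exact Finset.sum_congr rfl fun i _ => C.stokes _ _ (hA i) (hU i)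

/-- **Stokes for the pull-back of a 1-form** -/
theorem stokes_form [CompactSpace M] (C : Calc M γ) (hγ : Bd γ) {U : Fin n → M → ℝ} (hU : ∀ i, Lip (U i))
    {O : Set (Fin n → ℝ)} (hO : IsOpen O) (hm : ∀ x, vc U x ∈ O) {a : Fin n → (Fin n → ℝ) → ℝ}
    (ha : ∀ i, ContDiffOn ℝ 1 (a i) O) {a' : Fin n → (Fin n → ℝ) → (Fin n → ℝ) →L[ℝ] ℝ}
    (ha' : ∀ i, ∀ u ∈ O, HasFDerivAt (a i) (a' i u) u) :
    Integrable (fun o => dl a' (vc U (C.pt o)) (vx C U o) (vy C U o)) C.μ ∧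
    ∫ o, dl a' (vc U (C.pt o)) (vx C U o) (vy C U o) ∂C.μ =
      C.sg * ∫ t in (0 : ℝ)..(2 * Real.pi), ∑ i, a i (vc U (γ t)) * deriv (fun s => U i (γ s)) t := by
  have hA : ∀ i, Lip (fun x => a i (vc U x)) := fun i => lip_comp hU hO hm (ha i)
  obtain ⟨h1, h2⟩ := stokes_sum C hγ hA hU
  have he : ∀ᵐ o ∂C.μ, ∑ i, (C.gx (fun x => a i (vc U x)) o * C.gy (U i) o
      - C.gy (fun x => a i (vc U x)) o * C.gx (U i) o) =
      dl a' (vc U (C.pt o)) (vx C U o) (vy C U o) := by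
    have h : ∀ᵐ o ∂C.μ, ∀ i, C.gx (fun x => a i (vc U x)) o = a' i (vc U (C.pt o)) (vx C U o) ∧
        C.gy (fun x => a i (vc U x)) o = a' i (vc U (C.pt o)) (vy C U o) :=
      ae_all_iff.2 fun i => ae_chain C hU fun x => ha' i _ (hm x)
    filter_upwards [h] with o ho
    refine Finset.sum_congr rfl fun i _ => ?_
    rw [(ho i).1, (ho i).2]
    rfl
  refine ⟨h1.congr he, ?_⟩
  rw [← integral_congr_ae he, h2]

/-- the normalised functions -/
private theorem nrm_lip {X Y : M → ℝ} {L : ℝ≥0} (hX : LipschitzWith L X) (hY : LipschitzWith L Y) :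
    LipschitzWith (6 * L) (fun x => X x / √(max (X x ^ 2 + Y x ^ 2) (1 / 4))) := by
  have hr : ∀ x, 1 / 2 ≤ √(max (X x ^ 2 + Y x ^ 2) (1 / 4)) := fun x => by
    rw [show (1 / 2 : ℝ) = √(1 / 4) by
      rw [show (1 / 4 : ℝ) = (1 / 2) ^ 2 by norm_num, Real.sqrt_sq (by norm_num)]]
    exact Real.sqrt_le_sqrt (le_max_right _ _)
  have hXr : ∀ x, |X x| ≤ √(max (X x ^ 2 + Y x ^ 2) (1 / 4)) := fun x => by
    rw [← Real.sqrt_sq_eq_abs]
    exact Real.sqrt_le_sqrt ((by nlinarith [sq_nonneg (Y x)] : X x ^ 2 ≤ X x ^ 2 + Y x ^ 2).trans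
      (le_max_left _ _))
  have hYr : ∀ x, |Y x| ≤ √(max (X x ^ 2 + Y x ^ 2) (1 / 4)) := fun x => by
    rw [← Real.sqrt_sq_eq_abs]
    exact Real.sqrt_le_sqrt ((by nlinarith [sq_nonneg (X x)] : Y x ^ 2 ≤ X x ^ 2 + Y x ^ 2).trans
      (le_max_left _ _))
  have hr2 : ∀ x, √(max (X x ^ 2 + Y x ^ 2) (1 / 4)) ^ 2 = max (X x ^ 2 + Y x ^ 2) (1 / 4) := fun x =>
    Real.sq_sqrt (le_trans (by norm_num) (le_max_right _ _))
  refine LipschitzWith.of_dist_le_mul fun x y => ?_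
  have a1 := hX.dist_le_mul x y
  have a2 := hY.dist_le_mul x y
  rw [Real.dist_eq] at a1 a2 ⊢
  push_cast
  set r : M → ℝ := fun x => √(max (X x ^ 2 + Y x ^ 2) (1 / 4)) with hrdef
  change |X x / r x - X y / r y| ≤ 6 * L * dist x y
  have hx : 1 / 2 ≤ r x := hr x
  have hy : 1 / 2 ≤ r y := hr y
  have D0 : 0 ≤ (L : ℝ) * dist x y := by positivity
  set D : ℝ := (L : ℝ) * dist x y with hD
  have hpx : 0 < r x := by linarith
  have hpy : 0 < r y := by linarith
  have b1 : |X x| ≤ r x := hXr x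
  have b2 : |Y x| ≤ r x := hYr x
  have b3 : |X y| ≤ r y := hXr y
  have b4 : |Y y| ≤ r y := hYr y
  -- r is Lipschitz
  have hmax : |max (X x ^ 2 + Y x ^ 2) (1 / 4) - max (X y ^ 2 + Y y ^ 2) (1 / 4)|
      ≤ |(X x ^ 2 + Y x ^ 2) - (X y ^ 2 + Y y ^ 2)| := by
    have := abs_max_sub_max_le_abs (X x ^ 2 + Y x ^ 2) (X y ^ 2 + Y y ^ 2) (1 / 4)
    exact this
  have hsq : |r x ^ 2 - r y ^ 2| ≤ 2 * D * (r x + r y) := by
    rw [hrdef]
    simp only
    rw [hr2 x, hr2 y]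
    refine hmax.trans ?_
    have e : (X x ^ 2 + Y x ^ 2) - (X y ^ 2 + Y y ^ 2) =
        (X x - X y) * (X x + X y) + (Y x - Y y) * (Y x + Y y) := by ring
    rw [e]
    have c1 : |(X x - X y) * (X x + X y)| ≤ D * (r x + r y) := by
      rw [abs_mul]
      exact mul_le_mul a1 ((abs_add_le _ _).trans (add_le_add b1 b3)) (abs_nonneg _) D0
    have c2 : |(Y x - Y y) * (Y x + Y y)| ≤ D * (r x + r y) := by
      rw [abs_mul]
      exact mul_le_mul a2 ((abs_add_le _ _).trans (add_le_add b2 b4)) (abs_nonneg _) D0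
    have := abs_add_le ((X x - X y) * (X x + X y)) ((Y x - Y y) * (Y x + Y y))
    linarith
  have hrr : |r x - r y| ≤ 2 * D := by
    have e : |r x ^ 2 - r y ^ 2| = |r x - r y| * (r x + r y) := by
      rw [show r x ^ 2 - r y ^ 2 = (r x - r y) * (r x + r y) by ring, abs_mul,
        abs_of_pos (by linarith : 0 < r x + r y)]
    rw [e] at hsq
    exact le_of_mul_le_mul_right hsq (by linarith)
  have e : X x / r x - X y / r y = (X x - X y) / r x + X y / r y * ((r y - r x) / r x) := by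
    field_simp
    ring
  have d1 : |(X x - X y) / r x| ≤ 2 * D := by
    rw [abs_div, abs_of_pos hpx, div_le_iff₀ hpx]
    nlinarith
  have d2 : |X y / r y| ≤ 1 := by
    rw [abs_div, abs_of_pos hpy, div_le_one hpy]
    exact b3
  have d3 : |(r y - r x) / r x| ≤ 4 * D := by
    rw [abs_div, abs_of_pos hpx, div_le_iff₀ hpx, abs_sub_comm]
    nlinarith
  have d4 : |X y / r y * ((r y - r x) / r x)| ≤ 4 * D := by
    rw [abs_mul]
    nlinarith [abs_nonneg (X y / r y), abs_nonneg ((r y - r x) / r x)]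
  rw [e]
  have := abs_add_le ((X x - X y) / r x) (X y / r y * ((r y - r x) / r x))
  have e2 : 6 * (L : ℝ) * dist x y = 6 * D := by rw [hD]; ring
  rw [e2]
  linarith

/-- the winding number of a boundary curve that is close to the identity -/
theorem wind_near (hγ : Bd γ) {X Y : M → ℝ} {L : ℝ≥0} (hX : LipschitzWith L X) (hY : LipschitzWith L Y)
    (oX : OddB γ X) (oY : OddB γ Y) (hu : ∀ t, X (γ t) ^ 2 + Y (γ t) ^ 2 ≤ 1) {κ : ℝ}
    (hc : ∀ t, 1 - κ ≤ X (γ t) * Real.cos t + Y (γ t) * Real.sin t) (hκ : κ * (12 * L + 2) < 1) :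
    ∫ t in (0 : ℝ)..(2 * Real.pi), kap γ X Y t = 2 * Real.pi := by
  have hκ2 : κ < 1 / 2 := by
    rcases le_or_gt κ 0 with h | h
    · linarith
    · nlinarith [mul_nonneg h.le L.2]
  have hge : ∀ t, (1 - κ) ^ 2 ≤ X (γ t) ^ 2 + Y (γ t) ^ 2 := by
    intro t
    have h1 := hc t
    have h2 := Real.sin_sq_add_cos_sq t
    have h3 : (X (γ t) * Real.cos t + Y (γ t) * Real.sin t) ^ 2 ≤ X (γ t) ^ 2 + Y (γ t) ^ 2 := by
      nlinarith [sq_nonneg (X (γ t) * Real.sin t - Y (γ t) * Real.cos t)]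
    nlinarith
  have h14 : ∀ t, (1 / 4 : ℝ) ≤ X (γ t) ^ 2 + Y (γ t) ^ 2 := fun t => by
    have := hge t
    nlinarith
  set X' : M → ℝ := fun x => X x / √(max (X x ^ 2 + Y x ^ 2) (1 / 4)) with hX'
  set Y' : M → ℝ := fun x => Y x / √(max (X x ^ 2 + Y x ^ 2) (1 / 4)) with hY'
  have lX' : LipschitzWith (6 * L) X' := nrm_lip hX hY
  have lY' : LipschitzWith (6 * L) Y' := by
    have := nrm_lip hY hX
    simpa only [hY', add_comm] using this
  have hev : ∀ t, X (γ (t + Real.pi)) ^ 2 + Y (γ (t + Real.pi)) ^ 2 = X (γ t) ^ 2 + Y (γ t) ^ 2 := by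
    intro t
    rw [oX t, oY t]
    ring
  have oX' : OddB γ X' := fun t => by
    simp only [hX']
    rw [hev, oX t, neg_div]
  have oY' : OddB γ Y' := fun t => by
    simp only [hY']
    rw [hev, oY t, neg_div]
  have hmax : ∀ t, max (X (γ t) ^ 2 + Y (γ t) ^ 2) (1 / 4) = X (γ t) ^ 2 + Y (γ t) ^ 2 := fun t =>
    max_eq_left (h14 t)
  have hpos : ∀ t, 0 < √(X (γ t) ^ 2 + Y (γ t) ^ 2) := fun t => Real.sqrt_pos.2 (by have := h14 t; linarith)
  have hsq : ∀ t, √(X (γ t) ^ 2 + Y (γ t) ^ 2) ^ 2 = X (γ t) ^ 2 + Y (γ t) ^ 2 := fun t =>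
    Real.sq_sqrt (by have := h14 t; linarith)
  have eX : ∀ t, X' (γ t) = X (γ t) / √(X (γ t) ^ 2 + Y (γ t) ^ 2) := fun t => by
    simp only [hX']
    rw [hmax]
  have eY : ∀ t, Y' (γ t) = Y (γ t) / √(X (γ t) ^ 2 + Y (γ t) ^ 2) := fun t => by
    simp only [hY']
    rw [hmax]
  have hone : ∀ t, X' (γ t) ^ 2 + Y' (γ t) ^ 2 = 1 := fun t => by
    rw [eX, eY, div_pow, div_pow, hsq, ← add_div, div_self (by have := h14 t; linarith)]
  have hc' : ∀ t, 1 - κ ≤ X' (γ t) * Real.cos t + Y' (γ t) * Real.sin t := fun t => by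
    have e : X' (γ t) * Real.cos t + Y' (γ t) * Real.sin t =
        (X (γ t) * Real.cos t + Y (γ t) * Real.sin t) / √(X (γ t) ^ 2 + Y (γ t) ^ 2) := by
      rw [eX, eY]
      ring
    rw [e, le_div_iff₀ (hpos t)]
    have h1 : √(X (γ t) ^ 2 + Y (γ t) ^ 2) ≤ 1 := Real.sqrt_le_one.2 (hu t)
    have h2 := hc t
    nlinarith [hpos t]
  have key := UMQ.wind_one hγ lX' lY' oX' oY' hone hc' (by push_cast; linarith [hκ])
  have lX : LipschitzWith (L * 1) (fun t => X (γ t)) := hX.comp hγ.lip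
  have lY : LipschitzWith (L * 1) (fun t => Y (γ t)) := hY.comp hγ.lip
  suffices hae : ∀ᵐ t : ℝ, kap γ X Y t = kap γ X' Y' t by
    exact (intervalIntegral.integral_congr_ae (hae.mono fun t ht _ => ht)).trans key
  filter_upwards [lX.ae_differentiableAt_real, lY.ae_differentiableAt_real] with t h1 h2
  have e1 := h1.hasDerivAt
  have e2 := h2.hasDerivAt
  set p := deriv (fun t => X (γ t)) t
  set q := deriv (fun t => Y (γ t)) t
  have hr : HasDerivAt (fun t => √(X (γ t) ^ 2 + Y (γ t) ^ 2))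
      ((2 * X (γ t) * p + 2 * Y (γ t) * q) / (2 * √(X (γ t) ^ 2 + Y (γ t) ^ 2))) t := by
    have h5 : HasDerivAt (fun t => X (γ t) ^ 2 + Y (γ t) ^ 2) (2 * X (γ t) * p + 2 * Y (γ t) * q) t :=
      ((e1.pow 2).add (e2.pow 2)).congr_deriv (by ring)
    exact h5.sqrt (by have := h14 t; linarith)
  have f1 : HasDerivAt (fun t => X' (γ t)) _ t :=
    (e1.div hr (hpos t).ne').congr_of_eventuallyEq (Eventually.of_forall eX)
  have f2 : HasDerivAt (fun t => Y' (γ t)) _ t :=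
    (e2.div hr (hpos t).ne').congr_of_eventuallyEq (Eventually.of_forall eY)
  have k1 : kap γ X Y t = (X (γ t) * q - Y (γ t) * p) / (X (γ t) ^ 2 + Y (γ t) ^ 2) := rfl
  have k2 : kap γ X' Y' t = (X' (γ t) * deriv (fun t => Y' (γ t)) t -
      Y' (γ t) * deriv (fun t => X' (γ t)) t) / (X' (γ t) ^ 2 + Y' (γ t) ^ 2) := rfl
  rw [k1, k2, hone, f1.deriv, f2.deriv, eX, eY, div_one]
  have h0 := (hpos t).ne'
  have h3 := hsq t
  set r := √(X (γ t) ^ 2 + Y (γ t) ^ 2)
  rw [← h3]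
  field_simp
  ring

/-- the boundary integral of `g(ρ) (X dY - Y dX)`, `ρ = X² + Y²`, for a boundary curve close to the
identity -/
theorem bd_near (hγ : Bd γ) {X Y : M → ℝ} {L : ℝ≥0} (hX : LipschitzWith L X) (hY : LipschitzWith L Y)
    (oX : OddB γ X) (oY : OddB γ Y) (hu : ∀ t, X (γ t) ^ 2 + Y (γ t) ^ 2 ≤ 1) {κ : ℝ}
    (hc : ∀ t, 1 - κ ≤ X (γ t) * Real.cos t + Y (γ t) * Real.sin t) (hκ : κ * (12 * L + 2) < 1)
    {g : ℝ → ℝ} (hg : ContinuousOn g (Icc ((1 - κ) ^ 2) 1)) {G₁ δ : ℝ}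
    (hδ : ∀ r ∈ Icc ((1 - κ) ^ 2) 1, |r * g r - G₁| ≤ δ) :
    |(∫ t in (0 : ℝ)..(2 * Real.pi), g (X (γ t) ^ 2 + Y (γ t) ^ 2) *
      (X (γ t) * deriv (fun s => Y (γ s)) t - Y (γ t) * deriv (fun s => X (γ s)) t)) - 2 * Real.pi * G₁|
      ≤ 8 * Real.pi * L * δ := by
  have hpi := Real.pi_pos
  have hκ2 : κ < 1 / 2 := by
    rcases le_or_gt κ 0 with h | h
    · linarith
    · nlinarith [mul_nonneg h.le L.2]
  have hge : ∀ t, (1 - κ) ^ 2 ≤ X (γ t) ^ 2 + Y (γ t) ^ 2 := by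
    intro t
    have h1 := hc t
    have h2 := Real.sin_sq_add_cos_sq t
    have h3 : (X (γ t) * Real.cos t + Y (γ t) * Real.sin t) ^ 2 ≤ X (γ t) ^ 2 + Y (γ t) ^ 2 := by
      nlinarith [sq_nonneg (X (γ t) * Real.sin t - Y (γ t) * Real.cos t)]
    nlinarith
  have h14 : ∀ t, (1 / 4 : ℝ) ≤ X (γ t) ^ 2 + Y (γ t) ^ 2 := fun t => by
    have := hge t
    nlinarith
  have hwind := wind_near hγ hX hY oX oY hu hc hκ
  have lX : LipschitzWith L (fun t => X (γ t)) := by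
    have := hX.comp hγ.lip
    rwa [mul_one] at this
  have lY : LipschitzWith L (fun t => Y (γ t)) := by
    have := hY.comp hγ.lip
    rwa [mul_one] at this
  set P : ℝ → ℝ := fun t => X (γ t) with hP
  set Q : ℝ → ℝ := fun t => Y (γ t) with hQ
  set R : ℝ → ℝ := fun t => P t ^ 2 + Q t ^ 2 with hR
  have cR : Continuous R := (lX.continuous.pow 2).add (lY.continuous.pow 2)
  have mR : ∀ t, R t ∈ Icc ((1 - κ) ^ 2) 1 := fun t => ⟨hge t, hu t⟩
  have cg : Continuous fun t => g (R t) := hg.comp_continuous cR mR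
  have ik : ∀ a b, IntervalIntegrable (kap γ X Y) volume a b :=
    kap_integrable hγ ⟨L, hX⟩ ⟨L, hY⟩ fun t => by have := h14 t; linarith
  have iGk : IntervalIntegrable (fun t => (R t * g (R t) - G₁) * kap γ X Y t) volume 0 (2 * Real.pi) :=
    (ik _ _).continuousOn_mul ((cR.mul cg).sub continuous_const).continuousOn
  have hk : ∀ t, g (R t) * (P t * deriv Q t - Q t * deriv P t) =
      (R t * g (R t) - G₁) * kap γ X Y t + G₁ * kap γ X Y t := by
    intro t
    have e : kap γ X Y t = (P t * deriv Q t - Q t * deriv P t) / R t := rfl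
    have h0 : R t ≠ 0 := by
      have := h14 t
      change (1 / 4 : ℝ) ≤ R t at this
      linarith
    rw [e]
    field_simp
    ring
  have e1 : (∫ t in (0 : ℝ)..(2 * Real.pi), g (R t) * (P t * deriv Q t - Q t * deriv P t)) =
      (∫ t in (0 : ℝ)..(2 * Real.pi), (R t * g (R t) - G₁) * kap γ X Y t) + G₁ * (2 * Real.pi) := by
    rw [intervalIntegral.integral_congr fun t _ => hk t, intervalIntegral.integral_add iGk
      ((ik _ _).const_mul _), intervalIntegral.integral_const_mul, hwind]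
  change |(∫ t in (0 : ℝ)..(2 * Real.pi), g (R t) * (P t * deriv Q t - Q t * deriv P t)) - 2 * Real.pi * G₁| ≤ _
  rw [e1]
  have hδ0 : 0 ≤ δ := (abs_nonneg _).trans (hδ _ (mR 0))
  have hb : ∀ t, ‖(R t * g (R t) - G₁) * kap γ X Y t‖ ≤ δ * (4 * L) := by
    intro t
    rw [norm_mul, Real.norm_eq_abs, Real.norm_eq_abs]
    refine mul_le_mul (hδ _ (mR t)) ?_ (abs_nonneg _) hδ0
    have e : kap γ X Y t = (P t * deriv Q t - Q t * deriv P t) / R t := rfl
    have h0 : 1 / 4 ≤ R t := h14 t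
    have h00 : (1 - κ) ^ 2 ≤ R t := hge t
    rw [e, abs_div, abs_of_pos (by linarith : 0 < R t), div_le_iff₀ (by linarith)]
    have n1 : |deriv Q t| ≤ L := by
      rw [← Real.norm_eq_abs]
      exact norm_deriv_le_of_lipschitz lY
    have n2 : |deriv P t| ≤ L := by
      rw [← Real.norm_eq_abs]
      exact norm_deriv_le_of_lipschitz lX
    have n3 : |P t| + |Q t| ≤ 4 * R t := by
      have s1 : (|P t| + |Q t|) ^ 2 ≤ 2 * R t := by
        have : R t = |P t| ^ 2 + |Q t| ^ 2 := by rw [sq_abs, sq_abs]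
        rw [this]
        nlinarith [sq_nonneg (|P t| - |Q t|)]
      nlinarith [abs_nonneg (P t), abs_nonneg (Q t)]
    calc |P t * deriv Q t - Q t * deriv P t| ≤ |P t * deriv Q t| + |Q t * deriv P t| := abs_sub _ _
      _ ≤ |P t| * L + |Q t| * L := by
        rw [abs_mul, abs_mul]
        exact add_le_add (mul_le_mul_of_nonneg_left n1 (abs_nonneg _))
          (mul_le_mul_of_nonneg_left n2 (abs_nonneg _))
      _ = (|P t| + |Q t|) * L := by ring
      _ ≤ 4 * R t * L := mul_le_mul_of_nonneg_right n3 L.2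
      _ = 4 * L * R t := by ring
  have := intervalIntegral.norm_integral_le_of_norm_le_const (a := 0) (b := 2 * Real.pi)
    (f := fun t => (R t * g (R t) - G₁) * kap γ X Y t) (C := δ * (4 * L)) fun t _ => hb t
  rw [sub_zero, abs_of_pos Real.two_pi_pos, Real.norm_eq_abs] at this
  have e3 : (∫ t in (0 : ℝ)..(2 * Real.pi), (R t * g (R t) - G₁) * kap γ X Y t) + G₁ * (2 * Real.pi)
      - 2 * Real.pi * G₁ = ∫ t in (0 : ℝ)..(2 * Real.pi), (R t * g (R t) - G₁) * kap γ X Y t := by ring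
  rw [e3]
  refine this.trans (le_of_eq ?_)
  ring

end Pool.Agent.FPX.CST
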