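import Mathlib
import Pool.Agent.FPX.Defs

/-
CUTDefs (helper20): the flux of the azimuth form of a map `T` into `ℝ³`, with a cut-off near the
zeros of `T`. `flc C χ θ T p = χ(|T|) dθ ∧ dφ`, `φ` the azimuth of `T` around the unit vector `p`.
Homogeneous of degree zero in `T` where `χ = 1`.
-/

open MeasureTheory Set Filter Topology
open scoped ENNReal NNReal

noncomputable section

namespace Pool.Agent.FPX

open Pool.Agent.EWD

variable {M : Type} [MetricSpace M] {γ : ℝ → M}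

/-- a continuous cut-off function: `0` up to `c`, `1` from `2 c` on -/
structure CutF (χ : ℝ → ℝ) (c : ℝ) : Prop where
  pos : 0 < c
  cont : Continuous χ
  rng : ∀ r, χ r ∈ Icc (0 : ℝ) 1
  zero : ∀ r, r ≤ c → χ r = 0
  one : ∀ r, 2 * c ≤ r → χ r = 1

/-- `χ(|T|) dθ ∧ dφ`, where `φ` is the azimuth of `T` around the unit vector `p` -/
def flc (C : Calc M γ) (χ : ℝ → ℝ) (θ : M → ℝ) (T : Fin 3 → M → ℝ) (p : E3) (o : Om) : ℝ :=
  χ ‖at' C T o‖ * ((C.gx θ o * inner ℝ p (crs (at' C T o) (dy C T o))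
    - C.gy θ o * inner ℝ p (crs (at' C T o) (dx C T o))) /
    (‖at' C T o‖ ^ 2 - inner ℝ (at' C T o) p ^ 2))

/-- the cut-off flux -/
def FluxC (C : Calc M γ) (χ : ℝ → ℝ) (θ : M → ℝ) (T : Fin 3 → M → ℝ) (p : E3) : ℝ :=
  ∫ o, flc C χ θ T p o ∂C.μ

end Pool.Agent.FPX
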