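import Mathlib
import Pool.Agent.FPX.Defs

/-
NET: finitely many admissible potentials come uniformly close to every admissible potential
(Arzela-Ascoli).
-/

open MeasureTheory Set Filter Topology
open scoped ENNReal NNReal

noncomputable section

namespace Pool.Agent.FPX

open Pool.Agent.EWD

variable {M : Type} [MetricSpace M] {γ : ℝ → M}

theorem net [CompactSpace M] (hγ : Bd γ) {η : ℝ} (hη : 0 < η) :
    ∃ (n : ℕ) (th : Fin n → M → ℝ), (∀ i, Adm γ (th i)) ∧
      ∀ θ, Adm γ θ → ∃ i, ∀ x, |θ x - th i x| ≤ η := by
  classical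
  set A : Set (BoundedContinuousFunction M ℝ) := {f | Adm γ f} with hA
  have hcomp : IsCompact (closure A) := by
    refine BoundedContinuousFunction.arzela_ascoli (Icc (-(Real.pi / 2)) (Real.pi / 2)) isCompact_Icc
      A ?_ ?_
    · intro f x hf
      have h := hf.bd x
      rw [abs_le] at h
      exact h
    · exact (LipschitzWith.uniformEquicontinuous (fun f : A => (f : M → ℝ)) 1
        fun f => f.2.lip).equicontinuous
  have htb : TotallyBounded A := hcomp.totallyBounded.subset subset_closure
  obtain ⟨t, htA, htf, hcov⟩ := Metric.finite_approx_of_totallyBounded htb η hη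
  have : Fintype t := htf.fintype
  set e := Fintype.equivFin t with he
  refine ⟨Fintype.card t, fun i => ((e.symm i : BoundedContinuousFunction M ℝ) : M → ℝ),
    fun i => htA (e.symm i).2, fun θ hθ => ?_⟩
  set f : BoundedContinuousFunction M ℝ := BoundedContinuousFunction.mkOfCompact
    ⟨θ, hθ.lip.continuous⟩ with hf
  have hfA : f ∈ A := hθ
  obtain ⟨g, hg, hd⟩ := mem_iUnion₂.1 (hcov hfA)
  refine ⟨e ⟨g, hg⟩, fun x => ?_⟩
  have h1 : dist (f x) (g x) ≤ dist f g := BoundedContinuousFunction.dist_coe_le_dist x
  simp only [Equiv.symm_apply_apply]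
  exact (h1.trans (le_of_lt hd) : _)

end Pool.Agent.FPX
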