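import Mathlib
import Pool.Agent.FPX.NET
import Pool.Agent.FPX.SPH
import Pool.Agent.FPX.FLU

/-
SEL: finitely many potentials suffice for all maps with a given Lipschitz constant. The number of
points where `v = ± p` is controlled in the mean by the area of the image.
-/

open MeasureTheory Set Filter Topology
open scoped ENNReal NNReal

noncomputable section

namespace Pool.Agent.FPX

open Pool.Agent.EWD

/-! ### the average of the kernel -/

private theorem SEL_rad {d : ℝ} (hd : 0 < d) :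
    IntegrableOn (fun r : ℝ => r * (2 * d ^ 2 / (r ^ 2 + d ^ 2) ^ 2)) (Ioi 0) ∧
    ∫ r in Ioi (0 : ℝ), r * (2 * d ^ 2 / (r ^ 2 + d ^ 2) ^ 2) = 1 := by
  have hder : ∀ r ∈ Ici (0 : ℝ), HasDerivAt (fun r : ℝ => -(d ^ 2 / (r ^ 2 + d ^ 2)))
      (r * (2 * d ^ 2 / (r ^ 2 + d ^ 2) ^ 2)) r := by
    intro r _
    have hne : r ^ 2 + d ^ 2 ≠ 0 := by positivity
    have h1 : HasDerivAt (fun r : ℝ => r ^ 2 + d ^ 2) (2 * r) r := by
      simpa using (hasDerivAt_pow 2 r).add_const (d ^ 2)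
    have h2 := ((hasDerivAt_const r (d ^ 2)).div h1 hne).neg
    refine h2.congr_deriv ?_
    field_simp
    ring
  have hnn : ∀ r ∈ Ioi (0 : ℝ), 0 ≤ r * (2 * d ^ 2 / (r ^ 2 + d ^ 2) ^ 2) := by
    intro r hr
    have : (0 : ℝ) < r := hr
    positivity
  have hlim : Tendsto (fun r : ℝ => -(d ^ 2 / (r ^ 2 + d ^ 2))) atTop (𝓝 0) := by
    have h1 : Tendsto (fun r : ℝ => r ^ 2 + d ^ 2) atTop atTop :=
      tendsto_atTop_add_const_right _ _ (tendsto_pow_atTop two_ne_zero)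
    have h2 := (h1.const_div_atTop (d ^ 2)).neg
    simpa using h2
  refine ⟨integrableOn_Ioi_deriv_of_nonneg' hder hnn hlim, ?_⟩
  rw [integral_Ioi_of_hasDerivAt_of_nonneg' hder hnn hlim]
  have : d ≠ 0 := hd.ne'
  field_simp
  ring

private theorem SEL_plane {d : ℝ} (hd : 0 < d) : ∫⁻ p : ℝ × ℝ,
    ENNReal.ofReal (2 * d ^ 2 / (p.1 ^ 2 + p.2 ^ 2 + d ^ 2) ^ 2) = ENNReal.ofReal (2 * Real.pi) := by
  rw [← lintegral_comp_polarCoord_symm]
  have h1 : ∀ p ∈ polarCoord.target, ENNReal.ofReal p.1 • ENNReal.ofReal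
      (2 * d ^ 2 / ((polarCoord.symm p).1 ^ 2 + (polarCoord.symm p).2 ^ 2 + d ^ 2) ^ 2) =
      ENNReal.ofReal (p.1 * (2 * d ^ 2 / (p.1 ^ 2 + d ^ 2) ^ 2)) * 1 := by
    intro p hp
    rw [polarCoord_target] at hp
    have hr : 0 < p.1 := hp.1
    have e1 : (polarCoord.symm p).1 ^ 2 + (polarCoord.symm p).2 ^ 2 = p.1 ^ 2 := by
      rw [polarCoord_symm_apply]
      simp only
      rw [mul_pow, mul_pow, ← mul_add, Real.cos_sq_add_sin_sq, mul_one]
    rw [e1, smul_eq_mul, ← ENNReal.ofReal_mul hr.le, mul_one]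
  rw [setLIntegral_congr_fun polarCoord.open_target.measurableSet h1, polarCoord_target]
  rw [Measure.volume_eq_prod, ← Measure.prod_restrict]
  rw [lintegral_prod_mul (f := fun r : ℝ => ENNReal.ofReal (r * (2 * d ^ 2 / (r ^ 2 + d ^ 2) ^ 2)))
    (g := fun _ : ℝ => (1 : ℝ≥0∞)) (by fun_prop) (by fun_prop)]
  have h2 : ∫⁻ r in Ioi (0 : ℝ), ENNReal.ofReal (r * (2 * d ^ 2 / (r ^ 2 + d ^ 2) ^ 2)) = 1 := by
    rw [← ENNReal.ofReal_one, ← (SEL_rad hd).2, ofReal_integral_eq_lintegral_ofReal (SEL_rad hd).1]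
    filter_upwards [ae_restrict_mem measurableSet_Ioi] with r hr
    have : (0 : ℝ) < r := hr
    simp only [Pi.zero_apply]
    positivity
  rw [h2, lintegral_one, Measure.restrict_apply_univ, Real.volume_Ioo, one_mul]
  congr 1
  ring

private theorem SEL_mp : MeasurePreserving (fun y : E3 => (y 2, ((y 0 : ℝ), (y 1 : ℝ))))
    (volume : Measure E3) (volume : Measure (ℝ × (ℝ × ℝ))) := by
  have h1 : MeasurePreserving (fun y : E3 => y.ofLp) volume volume :=
    PiLp.volume_preserving_ofLp (Fin 3)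
  have h2 := volume_preserving_piFinSuccAbove (fun _ : Fin 3 => ℝ) 2
  have h3 := (MeasurePreserving.id (volume : Measure ℝ)).prod
    (volume_preserving_finTwoArrow ℝ)
  have h4 := h3.comp (h2.comp h1)
  exact h4

private theorem SEL_axis {d : ℝ} (hd : 0 < d) :
    ∫⁻ p : E3, ENNReal.ofReal (2 * d ^ 2 / (1 - p 2 ^ 2 + d ^ 2) ^ 2) ∂PP ≤ ENNReal.ofReal 3 := by
  have h := lint_polar (fun p => ENNReal.ofReal (2 * d ^ 2 / (1 - p 2 ^ 2 + d ^ 2) ^ 2))
    (by fun_prop) ((Iic (1 : ℝ)).indicator 1) (measurable_one.indicator measurableSet_Iic)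
  have h1 : ∀ y : E3, ENNReal.ofReal (2 * d ^ 2 / (1 - ((‖y‖⁻¹ : ℝ) • y) 2 ^ 2 + d ^ 2) ^ 2) *
      (Iic (1 : ℝ)).indicator 1 ‖y‖ ≤
      (fun z : ℝ × (ℝ × ℝ) => (Icc (-1 : ℝ) 1).indicator 1 z.1 *
        ENNReal.ofReal (2 * d ^ 2 / (z.2.1 ^ 2 + z.2.2 ^ 2 + d ^ 2) ^ 2)) (y 2, (y 0, y 1)) := by
    intro y
    simp only
    have hn : ‖y‖ ^ 2 = y 2 ^ 2 + (y 0 ^ 2 + y 1 ^ 2) := by
      rw [EuclideanSpace.real_norm_sq_eq, Fin.sum_univ_three]
      ring
    by_cases hy1 : ‖y‖ ≤ 1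
    · have hy2 : y 2 ∈ Icc (-1 : ℝ) 1 := by
        rw [mem_Icc, ← abs_le]
        refine abs_le_of_sq_le_sq ?_ zero_le_one
        have : ‖y‖ ^ 2 ≤ 1 := pow_le_one₀ (norm_nonneg _) hy1
        nlinarith [sq_nonneg (y 0), sq_nonneg (y 1)]
      rw [indicator_of_mem (show ‖y‖ ∈ Iic (1 : ℝ) from hy1), indicator_of_mem hy2]
      simp only [Pi.one_apply, mul_one, one_mul]
      refine ENNReal.ofReal_le_ofReal ?_
      rcases eq_or_ne y 0 with hy | hy
      · subst hy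
        have e0 : ((‖(0 : E3)‖⁻¹ : ℝ) • (0 : E3)) 2 = 0 := by simp
        have e1 : (0 : E3) 0 = 0 := rfl
        have e2 : (0 : E3) 1 = 0 := rfl
        rw [e0, e1, e2]
        refine div_le_div_of_nonneg_left (by positivity) (by positivity) ?_
        refine pow_le_pow_left₀ (by positivity) (by linarith [sq_nonneg d]) 2
      · have hpos : 0 < ‖y‖ := norm_pos_iff.2 hy
        have e1 : 1 - ((‖y‖⁻¹ : ℝ) • y) 2 ^ 2 = (y 0 ^ 2 + y 1 ^ 2) / ‖y‖ ^ 2 := by
          have : ((‖y‖⁻¹ : ℝ) • y) 2 = ‖y‖⁻¹ * y 2 := rfl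
          rw [this, mul_pow, eq_div_iff (by positivity), sub_mul, inv_pow]
          have h3 : (‖y‖ ^ 2)⁻¹ * y 2 ^ 2 * ‖y‖ ^ 2 = y 2 ^ 2 := by
            field_simp
          rw [h3]
          linarith
        rw [e1]
        have h4 : y 0 ^ 2 + y 1 ^ 2 ≤ (y 0 ^ 2 + y 1 ^ 2) / ‖y‖ ^ 2 := by
          rw [le_div_iff₀ (by positivity)]
          have : ‖y‖ ^ 2 ≤ 1 := pow_le_one₀ (norm_nonneg _) hy1
          nlinarith [sq_nonneg (y 0), sq_nonneg (y 1)]
        have h5 : 0 < y 0 ^ 2 + y 1 ^ 2 + d ^ 2 := by positivity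
        refine div_le_div_of_nonneg_left (by positivity) (by positivity) ?_
        exact pow_le_pow_left₀ h5.le (by linarith) 2
    · rw [indicator_of_notMem (show ‖y‖ ∉ Iic (1 : ℝ) from hy1), mul_zero]
      exact zero_le
  have h2 := SEL_mp.lintegral_comp (f := fun z : ℝ × (ℝ × ℝ) => (Icc (-1 : ℝ) 1).indicator 1 z.1 *
        ENNReal.ofReal (2 * d ^ 2 / (z.2.1 ^ 2 + z.2.2 ^ 2 + d ^ 2) ^ 2))
        (((measurable_one.indicator measurableSet_Icc).comp measurable_fst).mul (by fun_prop))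
  have h3 : ∫⁻ z : ℝ × (ℝ × ℝ), (Icc (-1 : ℝ) 1).indicator 1 z.1 *
        ENNReal.ofReal (2 * d ^ 2 / (z.2.1 ^ 2 + z.2.2 ^ 2 + d ^ 2) ^ 2) = 2 * ENNReal.ofReal (2 * Real.pi) := by
    rw [Measure.volume_eq_prod, lintegral_prod_mul (f := (Icc (-1 : ℝ) 1).indicator 1)
      (g := fun z : ℝ × ℝ => ENNReal.ofReal (2 * d ^ 2 / (z.1 ^ 2 + z.2 ^ 2 + d ^ 2) ^ 2))
      (by exact (measurable_one.indicator measurableSet_Icc).aemeasurable) (by fun_prop), SEL_plane hd,
      lintegral_indicator_one measurableSet_Icc, Real.volume_Icc]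
    norm_num
  have h4 : ∫⁻ r in Ioi (0 : ℝ), ENNReal.ofReal (r ^ 2) * (Iic (1 : ℝ)).indicator 1 r =
      ENNReal.ofReal (1 / 3) := by
    have e1 : ∀ r : ℝ, ENNReal.ofReal (r ^ 2) * (Iic (1 : ℝ)).indicator 1 r =
        (Iic (1 : ℝ)).indicator (fun r => ENNReal.ofReal (r ^ 2)) r := by
      intro r
      by_cases hr : r ∈ Iic (1 : ℝ)
      · rw [indicator_of_mem hr, indicator_of_mem hr, Pi.one_apply, mul_one]
      · rw [indicator_of_notMem hr, indicator_of_notMem hr, mul_zero]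
    rw [lintegral_congr e1, setLIntegral_indicator measurableSet_Iic, Iic_inter_Ioi]
    have e2 : IntegrableOn (fun r : ℝ => r ^ 2) (Ioc 0 1) :=
      (intervalIntegrable_iff_integrableOn_Ioc_of_le zero_le_one).1
        (Continuous.intervalIntegrable (by fun_prop) _ _)
    rw [← ofReal_integral_eq_lintegral_ofReal e2 (Eventually.of_forall fun r => sq_nonneg r),
      ← intervalIntegral.integral_of_le zero_le_one, integral_pow]
    norm_num
  rw [h4] at h
  have h5 := (lintegral_mono h1).trans_eq (h2.trans h3)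
  rw [h] at h5
  set E := ∫⁻ p : E3, ENNReal.ofReal (2 * d ^ 2 / (1 - p 2 ^ 2 + d ^ 2) ^ 2) ∂PP with hE
  have hp := Real.pi_pos
  have h6 : ENNReal.ofReal (4 * Real.pi / 3) * E ≤ ENNReal.ofReal (4 * Real.pi / 3) * ENNReal.ofReal 3 := by
    calc ENNReal.ofReal (4 * Real.pi / 3) * E = ENNReal.ofReal (4 * Real.pi) * E * ENNReal.ofReal (1 / 3) := by
          rw [show 4 * Real.pi / 3 = 4 * Real.pi * (1 / 3) by ring, ENNReal.ofReal_mul (by positivity)]
          ring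
      _ ≤ 2 * ENNReal.ofReal (2 * Real.pi) := h5
      _ = _ := by
          rw [← ENNReal.ofReal_mul (by positivity), show (2 : ℝ≥0∞) = ENNReal.ofReal 2 by norm_num,
            ← ENNReal.ofReal_mul (by positivity)]
          congr 1
          ring
  exact (ENNReal.mul_le_mul_iff_right (by
    rw [Ne, ENNReal.ofReal_eq_zero, not_le]; positivity) ENNReal.ofReal_ne_top).1 h6

private theorem SEL_rot {v : E3} (hv : ‖v‖ = 1) :
    ∃ R : E3 ≃ₗᵢ[ℝ] E3, ∀ p, inner ℝ v p = (R p) 2 := by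
  set w : E3 := EuclideanSpace.single 2 1 with hw
  have hnw : ‖v‖ = ‖w‖ := by
    simp [hw, hv]
  have hR : (ℝ ∙ (v - w))ᗮ.reflection v = w := Submodule.reflection_sub hnw
  refine ⟨(ℝ ∙ (v - w))ᗮ.reflection, fun p => ?_⟩
  rw [← ((ℝ ∙ (v - w))ᗮ.reflection).inner_map_map v p, hR, hw]
  simp [EuclideanSpace.inner_single_left]

/-- the average of the counting kernel is bounded -/
theorem lint_count {v : E3} (hv : ‖v‖ = 1) {d : ℝ} (hd : 0 < d) :
    ∫⁻ p, ENNReal.ofReal (2 * d ^ 2 / (sq2 v p + d ^ 2) ^ 2) ∂PP ≤ ENNReal.ofReal 3 := by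
  obtain ⟨R, hR⟩ := SEL_rot hv
  refine le_trans (le_of_eq ?_) (SEL_axis hd)
  rw [← (mp_rot R).lintegral_comp_emb R.toHomeomorph.measurableEmbedding
    (fun p => ENNReal.ofReal (2 * d ^ 2 / (1 - p 2 ^ 2 + d ^ 2) ^ 2))]
  refine lintegral_congr fun p => ?_
  unfold sq2
  rw [hR p]

/-! ### measurability -/

variable {M : Type} [MetricSpace M] {γ : ℝ → M}

private theorem SEL_vec {μ : Measure Om} {f g h : Om → ℝ} (hf : AEMeasurable f μ)
    (hg : AEMeasurable g μ) (hh : AEMeasurable h μ) :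
    AEMeasurable (fun o => (!₂[f o, g o, h o] : E3)) μ := by
  refine (PiLp.continuous_toLp 2 (fun _ : Fin 3 => ℝ)).measurable.comp_aemeasurable
    (aemeasurable_pi_lambda _ fun i => ?_)
  fin_cases i
  · exact hf
  · exact hg
  · exact hh

private theorem SEL_at (C : Calc M γ) {v : Fin 3 → M → ℝ} (hv : ∀ k, Lip (v k)) :
    AEMeasurable (at' C v) C.μ := SEL_vec (C.mpt _ (hv 0)) (C.mpt _ (hv 1)) (C.mpt _ (hv 2))

private theorem SEL_dx (C : Calc M γ) {v : Fin 3 → M → ℝ} (hv : ∀ k, Lip (v k)) :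
    AEMeasurable (dx C v) C.μ := SEL_vec (C.mgx _ (hv 0)) (C.mgx _ (hv 1)) (C.mgx _ (hv 2))

private theorem SEL_dy (C : Calc M γ) {v : Fin 3 → M → ℝ} (hv : ∀ k, Lip (v k)) :
    AEMeasurable (dy C v) C.μ := SEL_vec (C.mgy _ (hv 0)) (C.mgy _ (hv 1)) (C.mgy _ (hv 2))

private theorem SEL_sq2 : Measurable (fun q : E3 × E3 => sq2 q.1 q.2) := by
  unfold sq2
  exact measurable_const.sub ((measurable_fst.inner measurable_snd).pow_const 2)

private theorem SEL_crs {μ : Measure Om} {a b : Om → E3} (ha : AEMeasurable a μ)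
    (hb : AEMeasurable b μ) : AEMeasurable (fun o => crs (a o) (b o)) μ := by
  have h1 : ∀ i : Fin 3, AEMeasurable (fun o => a o i) μ := fun i =>
    (continuous_apply i |>.comp (PiLp.continuous_ofLp 2 (fun _ : Fin 3 => ℝ))).measurable.comp_aemeasurable ha
  have h2 : ∀ i : Fin 3, AEMeasurable (fun o => b o i) μ := fun i =>
    (continuous_apply i |>.comp (PiLp.continuous_ofLp 2 (fun _ : Fin 3 => ℝ))).measurable.comp_aemeasurable hb
  exact SEL_vec (((h1 1).mul (h2 2)).sub ((h1 2).mul (h2 1)))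
    (((h1 2).mul (h2 0)).sub ((h1 0).mul (h2 2))) (((h1 0).mul (h2 1)).sub ((h1 1).mul (h2 0)))

/-- bounds of the derivatives -/
private theorem SEL_bd (C : Calc M γ) {v : Fin 3 → M → ℝ} {L : ℝ≥0}
    (hL : ∀ k, LipschitzWith L (v k)) : ∀ᵐ o ∂C.μ, ‖dx C v o‖ ^ 2 ≤ 3 * (L : ℝ) ^ 2 ∧
      ‖dy C v o‖ ^ 2 ≤ 3 * (L : ℝ) ^ 2 := by
  have h : ∀ᵐ o ∂C.μ, ∀ k, C.gx (v k) o ^ 2 + C.gy (v k) o ^ 2 ≤ (L : ℝ) ^ 2 :=
    ae_all_iff.2 fun k => C.bound (v k) L (hL k)
  filter_upwards [h] with o ho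
  have h0 := ho 0
  have h1 := ho 1
  have h2 := ho 2
  rw [normsq3, normsq3]
  refine ⟨?_, ?_⟩
  · change C.gx (v 0) o ^ 2 + C.gx (v 1) o ^ 2 + C.gx (v 2) o ^ 2 ≤ _
    nlinarith [sq_nonneg (C.gy (v 0) o), sq_nonneg (C.gy (v 1) o), sq_nonneg (C.gy (v 2) o)]
  · change C.gy (v 0) o ^ 2 + C.gy (v 1) o ^ 2 + C.gy (v 2) o ^ 2 ≤ _
    nlinarith [sq_nonneg (C.gx (v 0) o), sq_nonneg (C.gx (v 1) o), sq_nonneg (C.gx (v 2) o)]

private theorem SEL_lip {v : Fin 3 → M → ℝ} (hv : ∀ k, Lip (v k)) :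
    ∃ L : ℝ≥0, ∀ k, LipschitzWith L (v k) := by
  choose K hK using hv
  exact ⟨Finset.univ.sup K, fun k => (hK k).weaken (Finset.le_sup (Finset.mem_univ k))⟩

/-- the majorant of the flux density -/
private def mj (C : Calc M γ) (v : Fin 3 → M → ℝ) (q : Om × E3) : ℝ :=
  (‖dx C v q.1‖ + ‖dy C v q.1‖) / √(sq2 (at' C v q.1) q.2)

private theorem mj_nonneg (C : Calc M γ) (v : Fin 3 → M → ℝ) (q : Om × E3) : 0 ≤ mj C v q := by
  unfold mj
  positivity

private theorem SEL_jsq (C : Calc M γ) {v : Fin 3 → M → ℝ} (hv : ∀ k, Lip (v k)) :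
    AEMeasurable (fun q : Om × E3 => sq2 (at' C v q.1) q.2) (C.μ.prod PP) := by
  have := C.fin
  have hat : AEMeasurable (fun q : Om × E3 => at' C v q.1) (C.μ.prod PP) :=
    (SEL_at C hv).comp_quasiMeasurePreserving
      (Measure.quasiMeasurePreserving_fst (μ := C.μ) (ν := PP))
  exact Measurable.comp_aemeasurable (g := fun p : E3 × E3 => sq2 p.1 p.2)
      (f := fun p : Om × E3 => (at' C v p.1, p.2)) SEL_sq2 (hat.prodMk measurable_snd.aemeasurable)

private theorem mj_meas (C : Calc M γ) {v : Fin 3 → M → ℝ} (hv : ∀ k, Lip (v k)) :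
    AEMeasurable (mj C v) (C.μ.prod PP) := by
  have := C.fin
  have hdx : AEMeasurable (fun q : Om × E3 => dx C v q.1) (C.μ.prod PP) :=
    (SEL_dx C hv).comp_quasiMeasurePreserving
      (Measure.quasiMeasurePreserving_fst (μ := C.μ) (ν := PP))
  have hdy : AEMeasurable (fun q : Om × E3 => dy C v q.1) (C.μ.prod PP) :=
    (SEL_dy C hv).comp_quasiMeasurePreserving
      (Measure.quasiMeasurePreserving_fst (μ := C.μ) (ν := PP))
  exact (hdx.norm.add hdy.norm).div (SEL_jsq C hv).sqrt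

private theorem mj_avg (C : Calc M γ) {v : Fin 3 → M → ℝ} (hv : Sph γ v) (o : Om) :
    ∫⁻ p, ENNReal.ofReal (mj C v (o, p)) ∂PP =
      ENNReal.ofReal (‖dx C v o‖ + ‖dy C v o‖) * ENNReal.ofReal (Real.pi / 2) := by
  have h2 := int_inv (norm_at (C := C) hv o)
  rw [← h2.2, ofReal_integral_eq_lintegral_ofReal h2.1 (Eventually.of_forall fun p => by positivity),
    ← lintegral_const_mul' _ _ ENNReal.ofReal_ne_top]
  refine lintegral_congr fun p => ?_
  rw [← ENNReal.ofReal_mul (by positivity), mul_one_div]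
  rfl

private theorem mj_int (C : Calc M γ) {v : Fin 3 → M → ℝ} (hv : Sph γ v) :
    Integrable (mj C v) (C.μ.prod PP) := by
  have := C.fin
  obtain ⟨L, hL⟩ := SEL_lip hv.lip
  have hm := mj_meas C hv.lip
  refine ⟨hm.aestronglyMeasurable, ?_⟩
  rw [hasFiniteIntegral_iff_ofReal (Eventually.of_forall fun q => mj_nonneg C v q),
    lintegral_prod _ hm.ennreal_ofReal]
  have h1 : ∀ᵐ o ∂C.μ, ∫⁻ p, ENNReal.ofReal (mj C v (o, p)) ∂PP ≤
      ENNReal.ofReal (2 * (3 * L + 1)) * ENNReal.ofReal (Real.pi / 2) := by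
    filter_upwards [SEL_bd C hL] with o ho
    rw [mj_avg C hv o]
    refine mul_le_mul' (ENNReal.ofReal_le_ofReal ?_) le_rfl
    have hL0 : (0 : ℝ) ≤ L := L.2
    have h3 : ‖dx C v o‖ ≤ 3 * L + 1 :=
      (abs_le_of_sq_le_sq' (ho.1.trans (by nlinarith [mul_nonneg hL0 hL0])) (by positivity)).2
    have h4 : ‖dy C v o‖ ≤ 3 * L + 1 :=
      (abs_le_of_sq_le_sq' (ho.2.trans (by nlinarith [mul_nonneg hL0 hL0])) (by positivity)).2
    linarith
  refine (lintegral_mono_ae h1).trans_lt ?_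
  rw [lintegral_const]
  exact ENNReal.mul_lt_top (ENNReal.mul_lt_top ENNReal.ofReal_lt_top ENNReal.ofReal_lt_top)
    (measure_lt_top _ _)

/-- the flux density is dominated by the majorant -/
private theorem flx_le (C : Calc M γ) {v : Fin 3 → M → ℝ} (hv : Sph γ v) {θ : M → ℝ}
    {p : E3} (hp : ‖p‖ = 1) {o : Om} (ho : C.gx θ o ^ 2 + C.gy θ o ^ 2 ≤ 1) :
    |flx C θ v p o| ≤ mj C v (o, p) := by
  have hn := norm_at (C := C) hv o
  have hs0 : 0 ≤ sq2 (at' C v o) p := sq2_nonneg hn hp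
  have hx : |C.gx θ o| ≤ 1 := by
    refine abs_le_of_sq_le_sq ?_ zero_le_one
    nlinarith [sq_nonneg (C.gy θ o)]
  have hy : |C.gy θ o| ≤ 1 := by
    refine abs_le_of_sq_le_sq ?_ zero_le_one
    nlinarith [sq_nonneg (C.gx θ o)]
  have key : ∀ ξ : E3, |inner ℝ p (crs (at' C v o) ξ)| ≤ √(sq2 (at' C v o) p) * ‖ξ‖ := by
    intro ξ
    refine abs_le_of_sq_le_sq ?_ (by positivity)
    rw [mul_pow, Real.sq_sqrt hs0]
    exact inner_crs_le hn hp ξ
  unfold flx mj
  rw [abs_div, abs_of_nonneg hs0]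
  change _ ≤ (‖dx C v o‖ + ‖dy C v o‖) / √(sq2 (at' C v o) p)
  have h1 : |C.gx θ o * inner ℝ p (crs (at' C v o) (dy C v o)) -
      C.gy θ o * inner ℝ p (crs (at' C v o) (dx C v o))| ≤
      √(sq2 (at' C v o) p) * (‖dx C v o‖ + ‖dy C v o‖) := by
    refine (abs_sub _ _).trans ?_
    rw [abs_mul, abs_mul]
    have h2 := key (dy C v o)
    have h3 := key (dx C v o)
    have h4 := mul_le_mul hx h2 (abs_nonneg _) zero_le_one
    have h5 := mul_le_mul hy h3 (abs_nonneg _) zero_le_one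
    linarith
  rcases hs0.eq_or_lt with h0 | h0
  · rw [← h0]
    simp
  · rw [div_le_div_iff₀ h0 (Real.sqrt_pos.2 h0)]
    calc _ ≤ √(sq2 (at' C v o) p) * (‖dx C v o‖ + ‖dy C v o‖) * √(sq2 (at' C v o) p) :=
          mul_le_mul_of_nonneg_right h1 (Real.sqrt_nonneg _)
      _ = (‖dx C v o‖ + ‖dy C v o‖) * (√(sq2 (at' C v o) p) * √(sq2 (at' C v o) p)) := by ring
      _ = _ := by rw [Real.mul_self_sqrt h0.le]

private theorem SEL_inner {μ : Measure (Om × E3)} {a b : Om × E3 → E3} (ha : AEMeasurable a μ)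
    (hb : AEMeasurable b μ) : AEMeasurable (fun q => (inner ℝ (a q) (b q) : ℝ)) μ := ha.inner hb

private theorem SEL_coord {α : Type} [MeasurableSpace α] {μ : Measure α} {a : α → E3}
    (ha : AEMeasurable a μ) (i : Fin 3) : AEMeasurable (fun q => a q i) μ :=
  Measurable.comp_aemeasurable (g := fun x : E3 => x i) (f := a)
    ((continuous_apply i).comp (PiLp.continuous_ofLp 2 (fun _ : Fin 3 => ℝ))).measurable ha

private theorem flx_meas (C : Calc M γ) {v : Fin 3 → M → ℝ} (hv : ∀ k, Lip (v k)) {θ : M → ℝ}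
    (hθ : Lip θ) : AEMeasurable (fun q : Om × E3 => flx C θ v q.2 q.1) (C.μ.prod PP) := by
  have := C.fin
  have hq := Measure.quasiMeasurePreserving_fst (μ := C.μ) (ν := PP)
  have h1 : AEMeasurable (fun q : Om × E3 => crs (at' C v q.1) (dy C v q.1)) (C.μ.prod PP) :=
    (SEL_crs (SEL_at C hv) (SEL_dy C hv)).comp_quasiMeasurePreserving hq
  have h2 : AEMeasurable (fun q : Om × E3 => crs (at' C v q.1) (dx C v q.1)) (C.μ.prod PP) :=
    (SEL_crs (SEL_at C hv) (SEL_dx C hv)).comp_quasiMeasurePreserving hq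
  have h3 : AEMeasurable (fun q : Om × E3 => C.gx θ q.1) (C.μ.prod PP) :=
    (C.mgx θ hθ).comp_quasiMeasurePreserving hq
  have h4 : AEMeasurable (fun q : Om × E3 => C.gy θ q.1) (C.μ.prod PP) :=
    (C.mgy θ hθ).comp_quasiMeasurePreserving hq
  have h5 : AEMeasurable (fun q : Om × E3 => q.2) (C.μ.prod PP) := measurable_snd.aemeasurable
  exact ((h3.mul (SEL_inner h5 h1)).sub (h4.mul (SEL_inner h5 h2))).div (SEL_jsq C hv)

private theorem flux_int (C : Calc M γ) {v : Fin 3 → M → ℝ} (hv : Sph γ v) {θ : M → ℝ}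
    (hθ : LipschitzWith 1 θ) : Integrable (fun p => Flux C θ v p) PP := by
  have := C.fin
  have h1 : Integrable (fun q : Om × E3 => flx C θ v q.2 q.1) (C.μ.prod PP) := by
    refine (mj_int C hv).mono' (flx_meas C hv.lip ⟨1, hθ⟩).aestronglyMeasurable ?_
    have h2 : ∀ᵐ q ∂(C.μ.prod PP), C.gx θ q.1 ^ 2 + C.gy θ q.1 ^ 2 ≤ 1 := by
      have h3 := C.bound θ 1 hθ
      have h4 := (Measure.quasiMeasurePreserving_fst (μ := C.μ) (ν := PP)).ae h3
      filter_upwards [h4] with q hq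
      have e : ((1 : ℝ≥0) : ℝ) ^ 2 = 1 := by norm_num
      rw [e] at hq
      exact hq
    have h5 : ∀ᵐ q ∂(C.μ.prod PP), ‖q.2‖ = 1 :=
      (Measure.quasiMeasurePreserving_snd (μ := C.μ) (ν := PP)).ae ae_norm
    filter_upwards [h2, h5] with q hq1 hq2
    rw [Real.norm_eq_abs]
    exact flx_le C hv hq2 hq1
  exact h1.integral_prod_right

/-! ### the number of points over `± p`, in the mean -/

/-- the density of the approximate number of points over `± p` -/
private def cn (C : Calc M γ) (v : Fin 3 → M → ℝ) (k : ℕ) (q : Om × E3) : ℝ :=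
  (2 * (1 / (k + 1) : ℝ) ^ 2 / (sq2 (at' C v q.1) q.2 + (1 / (k + 1) : ℝ) ^ 2) ^ 2) *
    |inner ℝ q.2 (crs (dx C v q.1) (dy C v q.1))|

private theorem cn_meas (C : Calc M γ) {v : Fin 3 → M → ℝ} (hv : ∀ k, Lip (v k)) (k : ℕ) :
    AEMeasurable (cn C v k) (C.μ.prod PP) := by
  have := C.fin
  have h1 : AEMeasurable (fun q : Om × E3 => crs (dx C v q.1) (dy C v q.1)) (C.μ.prod PP) :=
    (SEL_crs (SEL_dx C hv) (SEL_dy C hv)).comp_quasiMeasurePreserving
      (Measure.quasiMeasurePreserving_fst (μ := C.μ) (ν := PP))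
  have h2 : AEMeasurable (fun q : Om × E3 => q.2) (C.μ.prod PP) := measurable_snd.aemeasurable
  have h3 : Measurable fun t : ℝ => 2 * (1 / (k + 1) : ℝ) ^ 2 / (t + (1 / (k + 1) : ℝ) ^ 2) ^ 2 := by
    fun_prop
  have h4 : AEMeasurable (fun q : Om × E3 => 2 * (1 / (k + 1) : ℝ) ^ 2 /
      (sq2 (at' C v q.1) q.2 + (1 / (k + 1) : ℝ) ^ 2) ^ 2) (C.μ.prod PP) :=
    Measurable.comp_aemeasurable (g := fun t : ℝ => 2 * (1 / (k + 1) : ℝ) ^ 2 /
      (t + (1 / (k + 1) : ℝ) ^ 2) ^ 2) (f := fun q : Om × E3 => sq2 (at' C v q.1) q.2) h3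
      (SEL_jsq C hv)
  exact h4.mul (SEL_inner h2 h1).abs

private theorem cn_le (C : Calc M γ) {v : Fin 3 → M → ℝ} (hv : Sph γ v) {L : ℝ≥0}
    (hL : ∀ k, LipschitzWith L (v k)) (k : ℕ) :
    ∫⁻ p, ∫⁻ o, ENNReal.ofReal (cn C v k (o, p)) ∂C.μ ∂PP ≤
      ENNReal.ofReal (9 * (L : ℝ) ^ 2 * C.vol) := by
  have := C.fin
  rw [← lintegral_lintegral_swap (f := fun o p => ENNReal.ofReal (cn C v k (o, p)))
    (cn_meas C hv.lip k).ennreal_ofReal]
  have hd : (0 : ℝ) < 1 / (k + 1) := by positivity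
  have h1 : ∀ᵐ o ∂C.μ, ∫⁻ p, ENNReal.ofReal (cn C v k (o, p)) ∂PP ≤
      ENNReal.ofReal (9 * (L : ℝ) ^ 2) := by
    filter_upwards [SEL_bd C hL] with o ho
    have hn := norm_at (C := C) hv o
    have h2 : ‖crs (dx C v o) (dy C v o)‖ ≤ 3 * (L : ℝ) ^ 2 := by
      refine (abs_le_of_sq_le_sq' ?_ (by positivity)).2
      rw [norm_crs_sq]
      have h3 := mul_le_mul ho.1 ho.2 (by positivity) (by positivity)
      nlinarith [sq_nonneg (inner ℝ (dx C v o) (dy C v o) : ℝ)]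
    have h4 : ∀ᵐ p ∂PP, ENNReal.ofReal (cn C v k (o, p)) ≤ ENNReal.ofReal (3 * (L : ℝ) ^ 2) *
        ENNReal.ofReal (2 * (1 / (k + 1) : ℝ) ^ 2 / (sq2 (at' C v o) p + (1 / (k + 1) : ℝ) ^ 2) ^ 2) := by
      filter_upwards [ae_norm] with p hp
      rw [← ENNReal.ofReal_mul (by positivity)]
      refine ENNReal.ofReal_le_ofReal ?_
      unfold cn
      rw [mul_comm]
      refine mul_le_mul_of_nonneg_right ?_ (by positivity)
      refine (abs_real_inner_le_norm _ _).trans ?_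
      change ‖p‖ * _ ≤ _
      rw [hp, one_mul]
      exact h2
    refine (lintegral_mono_ae h4).trans ?_
    rw [lintegral_const_mul' _ _ ENNReal.ofReal_ne_top]
    refine (mul_le_mul' le_rfl (lint_count hn hd)).trans_eq ?_
    rw [← ENNReal.ofReal_mul (by positivity)]
    congr 1
    ring
  refine (lintegral_mono_ae h1).trans_eq ?_
  rw [lintegral_const, ENNReal.ofReal_mul (p := 9 * (L : ℝ) ^ 2) (by positivity)]
  unfold Calc.vol
  rw [ENNReal.ofReal_toReal (measure_ne_top _ _)]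

private theorem SEL_pos {f : E3 → ℝ} (hf : Integrable f PP) {c : ℝ} (hc : 0 ≤ c)
    (h : ∫⁻ p, ENNReal.ofReal (f p) ∂PP ≤ ENNReal.ofReal c) : ∫ p, f p ∂PP ≤ c := by
  rw [integral_eq_lintegral_pos_part_sub_lintegral_neg_part hf]
  have h1 := ENNReal.toReal_mono ENNReal.ofReal_ne_top h
  rw [ENNReal.toReal_ofReal hc] at h1
  have h2 : 0 ≤ (∫⁻ a, ENNReal.ofReal (-f a) ∂PP).toReal := ENNReal.toReal_nonneg
  linarith

private theorem adm_zero : Adm γ (fun _ => (0 : ℝ)) where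
  lip := LipschitzWith.const' 0
  odd := fun t => by simp
  bd := fun x => by
    rw [abs_zero]
    positivity

theorem select [CompactSpace M] (C : Calc M γ) (hγ : Bd γ) (hR : RegAE C) (L : ℝ≥0) {ε : ℝ}
    (hε : 0 < ε) : ∃ (n : ℕ) (th : Fin (n + 1) → M → ℝ), (∀ i, Adm γ (th i)) ∧
      ∀ v : Fin 3 → M → ℝ, Sph γ v → (∀ k, LipschitzWith L (v k)) →
        Real.pi ^ 2 - ε ≤ ∫ p, Finset.univ.sup' Finset.univ_nonempty
          (fun i : Fin (n + 1) => Flux C (th i) v p) ∂PP := by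
  have := C.fin
  set c : ℝ := 9 * (L : ℝ) ^ 2 * C.vol with hc
  have hc0 : 0 ≤ c := mul_nonneg (by positivity) C.vol_nonneg
  set η : ℝ := ε / (c + 1) with hη
  have hη0 : 0 < η := by positivity
  obtain ⟨n, th, hth, hnet⟩ := net hγ hη0
  set th' : Fin (n + 1) → M → ℝ := Fin.cons (fun _ => (0 : ℝ)) th with hth'
  have hadm : ∀ i, Adm γ (th' i) := by
    intro i
    refine Fin.cases ?_ (fun j => ?_) i
    · exact adm_zero
    · exact hth j
  refine ⟨n, th', hadm, fun v hv hL => ?_⟩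
  have hint : ∀ i, Integrable (fun p => Flux C (th' i) v p) PP := fun i =>
    flux_int C hv (hadm i).lip
  have hsup : Integrable (fun p => Finset.univ.sup' Finset.univ_nonempty
      (fun i : Fin (n + 1) => Flux C (th' i) v p)) PP := by
    have h1 := Finset.sup'_induction (s := (Finset.univ : Finset (Fin (n + 1))))
      Finset.univ_nonempty (fun i p => Flux C (th' i) v p) (p := fun f : E3 → ℝ => Integrable f PP)
      (fun f hf g hg => hf.sup hg) (fun i _ => hint i)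
    refine h1.congr (Eventually.of_forall fun p => ?_)
    simp only [Finset.sup'_apply]
  -- the inequality for almost every `p`
  have hae : ∀ᵐ p ∂PP, ENNReal.ofReal (Real.pi ^ 2 - Finset.univ.sup' Finset.univ_nonempty
      (fun i : Fin (n + 1) => Flux C (th' i) v p)) ≤ ENNReal.ofReal η *
      liminf (fun k : ℕ => ∫⁻ o, ENNReal.ofReal (cn C v k (o, p)) ∂C.μ) atTop := by
    filter_upwards [ae_norm, (mj_int C hv).prod_left_ae, hR v hv] with p hp hi hr
    obtain ⟨Z, s, -, h2, h3, h4⟩ := flux_eq C hγ hv hp hi hr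
    obtain ⟨θ, h5, h6⟩ := flux_ge C hγ hv hp hi hr
    obtain ⟨i, hi⟩ := hnet θ h5
    have h7 : Flux C θ v p - Flux C (th i) v p ≤ η * (2 * Real.pi * Z.card) := by
      rw [h3 θ ⟨1, h5.lip⟩ h5.odd, h3 (th i) ⟨1, (hth i).lip⟩ (hth i).odd]
      have h8 : ∑ z ∈ Z, s z * th i z - ∑ z ∈ Z, s z * θ z ≤ Z.card * η := by
        rw [← Finset.sum_sub_distrib]
        refine (Finset.sum_le_card_nsmul Z _ η fun z hz => ?_).trans_eq (by rw [nsmul_eq_mul])
        have h9 := hi z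
        rw [abs_le] at h9
        rcases h2 z hz with h | h <;> rw [h] <;> linarith [h9.1, h9.2]
      have hpi := Real.pi_pos
      nlinarith
    have h10 : Flux C (th i) v p ≤ Finset.univ.sup' Finset.univ_nonempty
        (fun i : Fin (n + 1) => Flux C (th' i) v p) :=
      Finset.le_sup' (f := fun i : Fin (n + 1) => Flux C (th' i) v p) (Finset.mem_univ i.succ)
    refine (ENNReal.ofReal_le_ofReal (q := η * (2 * Real.pi * Z.card)) (by linarith)).trans ?_
    rw [ENNReal.ofReal_mul hη0.le]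
    exact mul_le_mul' le_rfl h4
  have hfat : ∫⁻ p, liminf (fun k : ℕ => ∫⁻ o, ENNReal.ofReal (cn C v k (o, p)) ∂C.μ) atTop ∂PP ≤
      ENNReal.ofReal c := by
    refine (lintegral_liminf_le' fun k => ?_).trans ?_
    · exact (cn_meas C hv.lip k).ennreal_ofReal.lintegral_prod_left'
    · refine (liminf_le_liminf (v := fun _ => ENNReal.ofReal c)
        (Eventually.of_forall fun k => cn_le C hv hL k)).trans_eq ?_
      exact liminf_const _
  have h1 : ∫⁻ p, ENNReal.ofReal (Real.pi ^ 2 - Finset.univ.sup' Finset.univ_nonempty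
      (fun i : Fin (n + 1) => Flux C (th' i) v p)) ∂PP ≤ ENNReal.ofReal (η * c) := by
    refine (lintegral_mono_ae hae).trans ?_
    rw [lintegral_const_mul' _ _ ENNReal.ofReal_ne_top, ENNReal.ofReal_mul hη0.le]
    exact mul_le_mul' le_rfl hfat
  have h2 := SEL_pos ((integrable_const (Real.pi ^ 2)).sub hsup) (c := η * c) (by positivity) h1
  simp only [Pi.sub_apply] at h2
  rw [integral_sub (integrable_const _) hsup, integral_const, probReal_univ, one_smul] at h2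
  have h3 : η * c ≤ ε := by
    rw [hη, div_mul_eq_mul_div, div_le_iff₀ (by positivity)]
    nlinarith
  linarith

end Pool.Agent.FPX
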