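import Mathlib
import Pool.Agent.FPX.VEC
import Pool.Agent.FPX.SPH

/-
KCT: the kernel `⟨p, v × ξ⟩ / (1 - ⟨v, p⟩²)` is continuous in mean, uniformly (helper74).
-/

open MeasureTheory Set Filter Topology
open scoped ENNReal NNReal

noncomputable section

namespace Pool.Agent.FPX

open Pool.Agent.EWD

/-- the truncation error -/
private def TE (η : ℝ) (v p : E3) : ℝ := η / (√(sq2 v p) * (sq2 v p + η))

private theorem cont_sq2 (v : E3) : Continuous fun p => sq2 v p := by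
  unfold sq2
  fun_prop

private theorem meas_TE (η : ℝ) (v : E3) : Measurable fun p => TE η v p := by
  unfold TE
  have h := (cont_sq2 v).measurable
  fun_prop

private theorem te_rot (η : ℝ) {v w : E3} (hv : ‖v‖ = 1) (hw : ‖w‖ = 1) :
    ∫⁻ p, ENNReal.ofReal (TE η v p) ∂PP = ∫⁻ p, ENNReal.ofReal (TE η w p) ∂PP := by
  set R : E3 ≃ₗᵢ[ℝ] E3 := Submodule.reflection (ℝ ∙ (v - w))ᗮ with hR
  have hRv : R v = w := Submodule.reflection_sub (by rw [hv, hw])
  have h1 := (mp_rot R).lintegral_comp (f := fun p => ENNReal.ofReal (TE η w p))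
    ((meas_TE η w).ennreal_ofReal)
  rw [← h1]
  refine lintegral_congr fun p => ?_
  congr 1
  unfold TE sq2
  rw [← hRv, R.inner_map_map]

private theorem te_lim {v : E3} (hv : ‖v‖ = 1) :
    Tendsto (fun k : ℕ => ∫⁻ p, ENNReal.ofReal (TE (1 / ((k : ℝ) + 1)) v p) ∂PP) atTop (𝓝 0) := by
  have h0 : Tendsto (fun k : ℕ => ∫⁻ p, ENNReal.ofReal (TE (1 / ((k : ℝ) + 1)) v p) ∂PP) atTop
      (𝓝 (∫⁻ _, 0 ∂PP)) := by
    refine tendsto_lintegral_of_dominated_convergence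
      (fun p => ENNReal.ofReal (1 / √(sq2 v p))) (fun k => (meas_TE _ v).ennreal_ofReal) ?_ ?_ ?_
    · intro k
      filter_upwards [ae_sq2 v hv] with p hp
      apply ENNReal.ofReal_le_ofReal
      unfold TE
      have hk : (0 : ℝ) < 1 / ((k : ℝ) + 1) := by positivity
      have hs : 0 < √(sq2 v p) := Real.sqrt_pos.2 hp
      rw [div_le_div_iff₀ (by positivity) hs]
      nlinarith [mul_pos hs hp]
    · have h := (int_inv hv).1
      have h2 := h.lintegral_lt_top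
      exact h2.ne
    · filter_upwards [ae_sq2 v hv] with p hp
      have hs : 0 < √(sq2 v p) := Real.sqrt_pos.2 hp
      have ht : Tendsto (fun k : ℕ => TE (1 / ((k : ℝ) + 1)) v p) atTop (𝓝 0) := by
        have e : Tendsto (fun k : ℕ => (1 / ((k : ℝ) + 1))) atTop (𝓝 0) :=
          tendsto_one_div_add_atTop_nhds_zero_nat
        have h2 : Tendsto (fun k : ℕ => (1 / ((k : ℝ) + 1)) / (√(sq2 v p) * (sq2 v p + 1 / ((k : ℝ) + 1))))
            atTop (𝓝 (0 / (√(sq2 v p) * (sq2 v p + 0)))) :=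
          e.div (tendsto_const_nhds.mul (tendsto_const_nhds.add e)) (by
            rw [add_zero]; positivity)
        rw [zero_div] at h2
        exact h2
      have h3 := ENNReal.tendsto_ofReal ht
      rw [ENNReal.ofReal_zero] at h3
      exact h3
  rwa [lintegral_zero] at h0

private theorem trunc_err {η : ℝ} (hη : 0 < η) {v p ξ : E3} (hv : ‖v‖ = 1) (hp : ‖p‖ = 1)
    (hs : 0 < sq2 v p) :
    |inner ℝ p (crs v ξ) / sq2 v p - inner ℝ p (crs v ξ) / (sq2 v p + η)| ≤ ‖ξ‖ * TE η v p := by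
  set s := sq2 v p with hsdef
  have h1 := inner_crs_le hv hp ξ
  rw [← hsdef] at h1
  have h2 : |(inner ℝ p (crs v ξ) : ℝ)| ≤ √s * ‖ξ‖ := by
    refine abs_le_of_sq_le_sq ?_ (by positivity)
    rw [mul_pow, Real.sq_sqrt hs.le]
    exact h1
  have h3 : inner ℝ p (crs v ξ) / s - inner ℝ p (crs v ξ) / (s + η)
      = inner ℝ p (crs v ξ) * (η / (s * (s + η))) := by
    field_simp
    ring
  rw [h3, abs_mul, abs_of_pos (by positivity : 0 < η / (s * (s + η)))]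
  unfold TE
  rw [← hsdef]
  calc |(inner ℝ p (crs v ξ) : ℝ)| * (η / (s * (s + η))) ≤ (√s * ‖ξ‖) * (η / (s * (s + η))) := by
        gcongr
    _ = ‖ξ‖ * (η / (√s * (s + η))) := by
        have h4 : √s * √s = s := Real.mul_self_sqrt hs.le
        have h5 : 0 < √s := Real.sqrt_pos.2 hs
        rw [eq_comm]
        have : η / (√s * (s + η)) = √s * (η / (s * (s + η))) := by
          rw [div_eq_iff (by positivity)]
          have : √s * (η / (s * (s + η))) * (√s * (s + η)) = (√s * √s) * (s + η) * (η / (s * (s + η))) := by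
            ring
          rw [this, h4]
          field_simp
        rw [this]
        ring

private theorem norm_crs_le (a b : E3) : ‖crs a b‖ ≤ ‖a‖ * ‖b‖ := by
  have h := norm_crs_sq a b
  have h2 : ‖crs a b‖ ^ 2 ≤ (‖a‖ * ‖b‖) ^ 2 := by
    rw [h, mul_pow]
    nlinarith [sq_nonneg (inner ℝ a b : ℝ)]
  exact le_of_sq_le_sq h2 (by positivity) |>.trans le_rfl

private theorem crs_sub_sub (v v' ξ ξ' : E3) : crs v ξ - crs v' ξ' = crs (v - v') ξ + crs v' (ξ - ξ') := by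
  ext i
  fin_cases i
  · change (v 1 * ξ 2 - v 2 * ξ 1) - (v' 1 * ξ' 2 - v' 2 * ξ' 1) =
      ((v 1 - v' 1) * ξ 2 - (v 2 - v' 2) * ξ 1) + (v' 1 * (ξ 2 - ξ' 2) - v' 2 * (ξ 1 - ξ' 1))
    ring
  · change (v 2 * ξ 0 - v 0 * ξ 2) - (v' 2 * ξ' 0 - v' 0 * ξ' 2) =
      ((v 2 - v' 2) * ξ 0 - (v 0 - v' 0) * ξ 2) + (v' 2 * (ξ 0 - ξ' 0) - v' 0 * (ξ 2 - ξ' 2))
    ring
  · change (v 0 * ξ 1 - v 1 * ξ 0) - (v' 0 * ξ' 1 - v' 1 * ξ' 0) =
      ((v 0 - v' 0) * ξ 1 - (v 1 - v' 1) * ξ 0) + (v' 0 * (ξ 1 - ξ' 1) - v' 1 * (ξ 0 - ξ' 0))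
    ring

private theorem trunc_lip {η δ B : ℝ} (hη : 0 < η) (hδ : 0 ≤ δ) (hB : 0 ≤ B) {v v' p ξ ξ' : E3}
    (hv : ‖v‖ = 1) (hv' : ‖v'‖ = 1) (hp : ‖p‖ = 1) (hξ : ‖ξ‖ ≤ B) (hξ' : ‖ξ'‖ ≤ B)
    (hvv : ‖v - v'‖ ≤ δ) (hξξ : ‖ξ - ξ'‖ ≤ δ) :
    |inner ℝ p (crs v ξ) / (sq2 v p + η) - inner ℝ p (crs v' ξ') / (sq2 v' p + η)|
      ≤ ((B + 1) / η + 2 * B / η ^ 2) * δ := by
  set s := sq2 v p with hsdef
  set s' := sq2 v' p with hsdef'
  have hs : 0 ≤ s := sq2_nonneg hv hp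
  have hs' : 0 ≤ s' := sq2_nonneg hv' hp
  have h1 : |inner ℝ p (crs v ξ) - inner ℝ p (crs v' ξ')| ≤ (B + 1) * δ := by
    rw [← inner_sub_right, crs_sub_sub]
    refine (abs_real_inner_le_norm _ _).trans ?_
    rw [hp, one_mul]
    refine (norm_add_le _ _).trans ?_
    have e1 := (norm_crs_le (v - v') ξ).trans (mul_le_mul hvv hξ (norm_nonneg _) hδ)
    have e2 := (norm_crs_le v' (ξ - ξ')).trans (mul_le_mul hv'.le hξξ (norm_nonneg _) zero_le_one)
    linarith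
  have h2 : |(inner ℝ p (crs v' ξ') : ℝ)| ≤ B := by
    refine (abs_real_inner_le_norm _ _).trans ?_
    rw [hp, one_mul]
    refine (norm_crs_le _ _).trans ?_
    rw [hv', one_mul]
    exact hξ'
  have h3 : |s - s'| ≤ 2 * δ := by
    have e : s - s' = (inner ℝ v' p - inner ℝ v p) * (inner ℝ v' p + inner ℝ v p) := by
      rw [hsdef, hsdef']
      unfold sq2
      ring
    rw [e, abs_mul]
    have e1 : |(inner ℝ v' p - inner ℝ v p : ℝ)| ≤ δ := by
      rw [← inner_sub_left]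
      refine (abs_real_inner_le_norm _ _).trans ?_
      rw [hp, mul_one, norm_sub_rev]
      exact hvv
    have e2 : |(inner ℝ v' p + inner ℝ v p : ℝ)| ≤ 2 := by
      rw [← inner_add_left]
      refine (abs_real_inner_le_norm _ _).trans ?_
      rw [hp, mul_one]
      refine (norm_add_le _ _).trans ?_
      rw [hv, hv']
      norm_num
    calc _ ≤ δ * 2 := mul_le_mul e1 e2 (abs_nonneg _) hδ
      _ = 2 * δ := by ring
  have e : inner ℝ p (crs v ξ) / (s + η) - inner ℝ p (crs v' ξ') / (s' + η)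
      = (inner ℝ p (crs v ξ) - inner ℝ p (crs v' ξ')) / (s + η)
        - inner ℝ p (crs v' ξ') * (s - s') / ((s + η) * (s' + η)) := by
    have a1 : s + η ≠ 0 := by positivity
    have a2 : s' + η ≠ 0 := by positivity
    field_simp
    ring
  rw [e]
  refine (abs_sub _ _).trans ?_
  have e1 : |(inner ℝ p (crs v ξ) - inner ℝ p (crs v' ξ')) / (s + η)| ≤ (B + 1) * δ / η := by
    rw [abs_div, abs_of_pos (by positivity : 0 < s + η)]
    exact div_le_div₀ (by positivity) h1 hη (by linarith)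
  have e2 : |inner ℝ p (crs v' ξ') * (s - s') / ((s + η) * (s' + η))| ≤ B * (2 * δ) / η ^ 2 := by
    rw [abs_div, abs_mul, abs_of_pos (by positivity : 0 < (s + η) * (s' + η))]
    refine div_le_div₀ (by positivity) (mul_le_mul h2 h3 (abs_nonneg _) hB) (by positivity) ?_
    rw [pow_two]
    exact mul_le_mul (by linarith) (by linarith) hη.le (by positivity)
  calc _ ≤ (B + 1) * δ / η + B * (2 * δ) / η ^ 2 := add_le_add e1 e2
    _ = _ := by ring

/-- the kernel is continuous in mean, uniformly -/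
theorem kernel_cont {B : ℝ} {ε : ℝ} (hε : 0 < ε) : ∃ δ : ℝ, 0 < δ ∧
    ∀ v v' ξ ξ' : E3, ‖v‖ = 1 → ‖v'‖ = 1 → ‖ξ‖ ≤ B → ‖ξ'‖ ≤ B → ‖v - v'‖ ≤ δ → ‖ξ - ξ'‖ ≤ δ →
    ∫⁻ p, ENNReal.ofReal |inner ℝ p (crs v ξ) / sq2 v p - inner ℝ p (crs v' ξ') / sq2 v' p| ∂PP ≤
      ENNReal.ofReal ε := by
  rcases lt_or_ge B 0 with hB | hB
  · exact ⟨1, one_pos, fun v v' ξ ξ' _ _ h => absurd (h.trans_lt hB) (not_lt.2 (norm_nonneg ξ))⟩
  -- a fixed unit vector
  set e0 : E3 := EuclideanSpace.single 0 1 with he0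
  have hn0 : ‖e0‖ = 1 := by simp [he0]
  have hc : (0 : ℝ) < ε / (3 * (B + 1)) := by positivity
  obtain ⟨k, hk⟩ := ((tendsto_order.1 (te_lim hn0)).2 (ENNReal.ofReal (ε / (3 * (B + 1))))
    (ENNReal.ofReal_pos.2 hc)).exists
  set η : ℝ := 1 / ((k : ℝ) + 1) with hη
  have hη0 : 0 < η := by positivity
  set c : ℝ := (B + 1) / η + 2 * B / η ^ 2 with hcdef
  have hc0 : 0 < c := by positivity
  refine ⟨ε / (3 * c), by positivity, ?_⟩
  intro v v' ξ ξ' hv hv' hξ hξ' hvv hξξ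
  have key : ∀ {w ζ : E3}, ‖w‖ = 1 → ‖ζ‖ ≤ B →
      ∫⁻ p, ENNReal.ofReal (‖ζ‖ * TE η w p) ∂PP ≤ ENNReal.ofReal (ε / 3) := by
    intro w ζ hw hζ
    have e1 : ∀ p, ENNReal.ofReal (‖ζ‖ * TE η w p) = ENNReal.ofReal ‖ζ‖ * ENNReal.ofReal (TE η w p) :=
      fun p => ENNReal.ofReal_mul (norm_nonneg _)
    simp_rw [e1]
    rw [lintegral_const_mul _ (meas_TE η w).ennreal_ofReal, te_rot η hw hn0]
    calc ENNReal.ofReal ‖ζ‖ * ∫⁻ p, ENNReal.ofReal (TE η e0 p) ∂PP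
        ≤ ENNReal.ofReal (B + 1) * ENNReal.ofReal (ε / (3 * (B + 1))) := by
          gcongr
          linarith
      _ = ENNReal.ofReal (ε / 3) := by
          rw [← ENNReal.ofReal_mul (by positivity)]
          congr 1
          field_simp
  have hsplit : ∀ᵐ p ∂PP, ENNReal.ofReal
      |inner ℝ p (crs v ξ) / sq2 v p - inner ℝ p (crs v' ξ') / sq2 v' p|
      ≤ ENNReal.ofReal (‖ξ‖ * TE η v p) + ENNReal.ofReal (ε / 3) + ENNReal.ofReal (‖ξ'‖ * TE η v' p) := by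
    filter_upwards [ae_norm, ae_sq2 v hv, ae_sq2 v' hv'] with p hp hs hs'
    have t1 := trunc_err (ξ := ξ) hη0 hv hp hs
    have t2 := trunc_err (ξ := ξ') hη0 hv' hp hs'
    have t3 := trunc_lip hη0 (by positivity : 0 ≤ ε / (3 * c)) hB hv hv' hp hξ hξ' hvv hξξ
    have t4 : ((B + 1) / η + 2 * B / η ^ 2) * (ε / (3 * c)) = ε / 3 := by
      rw [← hcdef]
      field_simp
    rw [t4] at t3
    have n1 : 0 ≤ ‖ξ‖ * TE η v p := (abs_nonneg _).trans t1
    have n2 : 0 ≤ ‖ξ'‖ * TE η v' p := (abs_nonneg _).trans t2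
    rw [← ENNReal.ofReal_add n1 (by positivity), ← ENNReal.ofReal_add (by positivity) n2]
    apply ENNReal.ofReal_le_ofReal
    rw [abs_le] at t1 t2 t3 ⊢
    constructor <;> linarith [t1.1, t1.2, t2.1, t2.2, t3.1, t3.2]
  calc ∫⁻ p, ENNReal.ofReal |inner ℝ p (crs v ξ) / sq2 v p - inner ℝ p (crs v' ξ') / sq2 v' p| ∂PP
      ≤ ∫⁻ p, (ENNReal.ofReal (‖ξ‖ * TE η v p) + ENNReal.ofReal (ε / 3)
        + ENNReal.ofReal (‖ξ'‖ * TE η v' p)) ∂PP := lintegral_mono_ae hsplit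
    _ = ∫⁻ p, ENNReal.ofReal (‖ξ‖ * TE η v p) ∂PP + ENNReal.ofReal (ε / 3)
        + ∫⁻ p, ENNReal.ofReal (‖ξ'‖ * TE η v' p) ∂PP := by
        rw [lintegral_add_right, lintegral_add_right, lintegral_const, measure_univ, mul_one]
        · exact measurable_const
        · exact ((meas_TE η v').const_mul _).ennreal_ofReal
    _ ≤ ENNReal.ofReal (ε / 3) + ENNReal.ofReal (ε / 3) + ENNReal.ofReal (ε / 3) :=
        add_le_add (add_le_add (key hv hξ) le_rfl) (key hv' hξ')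
    _ = ENNReal.ofReal ε := by
        rw [← ENNReal.ofReal_add (by positivity) (by positivity),
          ← ENNReal.ofReal_add (by positivity) (by positivity)]
        congr 1
        ring

end Pool.Agent.FPX
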