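import Mathlib
import Pool.Agent.FPX.Defs
import Pool.Agent.FPX.SPH
import Pool.Agent.FPX.VEC
import Pool.Agent.FPX.FME

/-
FPX, EXS: the fixed point inequality (EX**), pointwise and integrated (helper30).
For the test function of the direction `p` one completes the square
`2 g T ≤ g²/s + s T²`, `T = ⟨p,N⟩/s² - ⟨p,K⟩`, and optimises the vector `K`.
-/

open MeasureTheory Set Filter Topology
open scoped ENNReal NNReal

noncomputable section

namespace Pool.Agent.FPX

open Pool.Agent.EWD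

variable {M : Type} [MetricSpace M] {γ : ℝ → M}

/-- `|v × a| = |a|` for a unit vector `v` orthogonal to `a` -/
theorem norm_crs {v a : E3} (hv : ‖v‖ = 1) (ha : inner ℝ v a = (0 : ℝ)) :
    ‖crs v a‖ ^ 2 = ‖a‖ ^ 2 := by
  rw [norm_crs_sq, hv, ha]
  ring

/-- the pointwise inequality before integration; `x = ⟨p,N⟩`, `y = ⟨p,K⟩` for the two directions -/
private theorem exs_pt {q g h x x' y y' : ℝ} (hq : 0 < q) (hgh : g ^ 2 + h ^ 2 ≤ 1) :
    (g * x + h * x') / q ≤ (1 / 2) * (1 / √q + x ^ 2 / (q * √q) + x' ^ 2 / (q * √q)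
      + √q * y ^ 2 + √q * y' ^ 2) - (x * y / √q + x' * y' / √q) + (g * y + h * y') := by
  have hs : 0 < √q := Real.sqrt_pos.2 hq
  set s := √q with hs'
  have e : q = s ^ 2 := (Real.sq_sqrt hq.le).symm
  rw [e]
  have h1 : (1 / 2) * (1 / s + x ^ 2 / (s ^ 2 * s) + x' ^ 2 / (s ^ 2 * s)
      + s * y ^ 2 + s * y' ^ 2) - (x * y / s + x' * y' / s) + (g * y + h * y')
      - (g * x + h * x') / s ^ 2 =
      (1 / (2 * s)) * ((g - (x / s - s * y)) ^ 2 + (h - (x' / s - s * y')) ^ 2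
        + (1 - (g ^ 2 + h ^ 2))) := by
    field_simp
    ring
  have h2 : 0 ≤ (1 / (2 * s)) * ((g - (x / s - s * y)) ^ 2 + (h - (x' / s - s * y')) ^ 2
        + (1 - (g ^ 2 + h ^ 2))) := by
    have : 0 ≤ 1 - (g ^ 2 + h ^ 2) := by linarith
    positivity
  linarith

private theorem ae_coord (k : Fin 3) : ∀ᵐ p : E3 ∂PP, |p k| ≤ 1 := by
  filter_upwards [ae_norm] with p hp
  rw [← sq_le_one_iff_abs_le_one]
  have h := Finset.single_le_sum (f := fun i => p i ^ 2) (fun i _ => sq_nonneg (p i))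
    (Finset.mem_univ k)
  rw [← EuclideanSpace.real_norm_sq_eq, hp] at h
  simpa using h

private theorem int_gk {g : E3 → ℝ} (hg : Measurable g) (hb : ∀ᵐ p ∂PP, |g p| ≤ 1) (k : Fin 3) :
    Integrable (fun p => g p * p k) PP := by
  refine (integrable_const (1 : ℝ)).mono' (by fun_prop) ?_
  filter_upwards [hb, ae_coord k] with p h1 h2
  rw [Real.norm_eq_abs, abs_mul]
  exact mul_le_one₀ h1 (abs_nonneg _) h2

private theorem int_gK {g : E3 → ℝ} (hg : Measurable g) (hb : ∀ᵐ p ∂PP, |g p| ≤ 1) (K A : E3)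
    (hA : ∀ k, A k = (8 / Real.pi) * ∫ p, g p * p k ∂PP) :
    Integrable (fun p => g p * inner ℝ p K) PP ∧
    ∫ p, g p * inner ℝ p K ∂PP = Real.pi / 8 * inner ℝ A K := by
  have i0 := int_gk hg hb 0
  have i1 := int_gk hg hb 1
  have i2 := int_gk hg hb 2
  have e : (fun p => g p * inner ℝ p K) = fun p => K 0 * (g p * p 0) + K 1 * (g p * p 1) +
      K 2 * (g p * p 2) := by
    funext p
    rw [inner3]
    ring
  have j0 := i0.const_mul (K 0)
  have j1 := i1.const_mul (K 1)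
  have j2 := i2.const_mul (K 2)
  have j01 : Integrable (fun p => K 0 * (g p * p 0) + K 1 * (g p * p 1)) PP := j0.add j1
  rw [e]
  refine ⟨j01.add j2, ?_⟩
  rw [integral_add j01 j2, integral_add j0 j1, integral_const_mul, integral_const_mul,
    integral_const_mul, inner3, hA 0, hA 1, hA 2]
  have := Real.pi_pos
  field_simp

private theorem cadd {F G : E3 → ℝ} {A B : ℝ} (h : Integrable F PP ∧ ∫ p, F p ∂PP = A)
    (h' : Integrable G PP ∧ ∫ p, G p ∂PP = B) :
    Integrable (fun p => F p + G p) PP ∧ ∫ p, (F p + G p) ∂PP = A + B := by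
  rw [← h.2, ← h'.2, ← integral_add h.1 h'.1]
  exact ⟨h.1.add h'.1, rfl⟩

private theorem csub {F G : E3 → ℝ} {A B : ℝ} (h : Integrable F PP ∧ ∫ p, F p ∂PP = A)
    (h' : Integrable G PP ∧ ∫ p, G p ∂PP = B) :
    Integrable (fun p => F p - G p) PP ∧ ∫ p, (F p - G p) ∂PP = A - B := by
  rw [← h.2, ← h'.2, ← integral_sub h.1 h'.1]
  exact ⟨h.1.sub h'.1, rfl⟩

private theorem cmul (c : ℝ) {F : E3 → ℝ} {A : ℝ} (h : Integrable F PP ∧ ∫ p, F p ∂PP = A) :
    Integrable (fun p => c * F p) PP ∧ ∫ p, c * F p ∂PP = c * A := by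
  rw [← h.2, integral_const_mul]
  exact ⟨h.1.const_mul c, rfl⟩

/-- the value of the quadratic form at its minimum -/
private theorem exs_block {v N A W K : E3} {t : ℝ} (hv : ‖v‖ = 1) (hN : inner ℝ v N = (0 : ℝ))
    (ht : t = inner ℝ v A) (hW : W = A - t • v - N)
    (hK : K = (-(4 / 3) : ℝ) • W - (2 * t) • v) :
    (9 / 16) * (‖K‖ ^ 2 - inner ℝ v K ^ 2) + (3 / 8) * inner ℝ v K ^ 2 - (3 / 2) * inner ℝ N K
      + (3 / 2) * inner ℝ A K = -‖W‖ ^ 2 - (3 / 2) * t ^ 2 := by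
  have hvv : inner ℝ v v = (1 : ℝ) := by
    rw [real_inner_self_eq_norm_sq, hv, one_pow]
  have h1 : inner ℝ v W = (0 : ℝ) := by
    rw [hW, inner_sub_right, inner_sub_right, inner_smul_right, hN, ← ht, hvv]
    ring
  have h1' : inner ℝ W v = (0 : ℝ) := by
    rw [real_inner_comm, h1]
  have e2 : inner ℝ v K = -2 * t := by
    rw [hK, inner_sub_right, inner_smul_right, inner_smul_right, h1, hvv]
    ring
  have e4 : inner ℝ W K = -(4 / 3) * ‖W‖ ^ 2 := by
    rw [hK, inner_sub_right, inner_smul_right, inner_smul_right, h1', real_inner_self_eq_norm_sq]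
    ring
  have e1 : ‖K‖ ^ 2 = 16 / 9 * ‖W‖ ^ 2 + 4 * t ^ 2 := by
    rw [← real_inner_self_eq_norm_sq K]
    nth_rewrite 1 [hK]
    rw [inner_sub_left, real_inner_smul_left, real_inner_smul_left, e4, e2]
    ring
  have e3 : inner ℝ A K - inner ℝ N K = -(4 / 3) * ‖W‖ ^ 2 - 2 * t ^ 2 := by
    have h5 : A = W + t • v + N := by
      rw [hW]
      abel
    have h6 : inner ℝ A K = inner ℝ W K + t * inner ℝ v K + inner ℝ N K := by
      nth_rewrite 1 [h5]
      rw [inner_add_left, inner_add_left, real_inner_smul_left]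
    rw [h6, e4, e2]
    ring
  rw [e1, e2]
  linarith

/-- pointwise -/
theorem ex_pointwise {v a b : E3} (hv : ‖v‖ = 1) (ha : inner ℝ v a = (0 : ℝ)) (hb : inner ℝ v b = (0 : ℝ))
    {g h : E3 → ℝ} (hg : Measurable g) (hh : Measurable h) (hgh : ∀ᵐ p ∂PP, g p ^ 2 + h p ^ 2 ≤ 1)
    {A B : E3} (hA : ∀ k, A k = (8 / Real.pi) * ∫ p, g p * p k ∂PP)
    (hB : ∀ k, B k = (8 / Real.pi) * ∫ p, h p * p k ∂PP) :
    12 / Real.pi * ∫ p, (g p * inner ℝ p (crs v b) - h p * inner ℝ p (crs v a)) / sq2 v p ∂PP ≤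
      3 + (3 / 2) * (‖a‖ ^ 2 + ‖b‖ ^ 2)
      - (‖A - (inner ℝ v A : ℝ) • v - crs v b‖ ^ 2 + ‖B - (inner ℝ v B : ℝ) • v + crs v a‖ ^ 2)
      - (3 / 2) * (inner ℝ v A ^ 2 + inner ℝ v B ^ 2) := by
  have hgb : ∀ᵐ p ∂PP, |g p| ≤ 1 := by
    filter_upwards [hgh] with p hp
    rw [← sq_le_one_iff_abs_le_one]
    nlinarith [sq_nonneg (h p)]
  have hhb : ∀ᵐ p ∂PP, |h p| ≤ 1 := by
    filter_upwards [hgh] with p hp
    rw [← sq_le_one_iff_abs_le_one]
    nlinarith [sq_nonneg (g p)]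
  set N : E3 := crs v b with hN
  set N' : E3 := - crs v a with hN'
  set K : E3 := (-(4 / 3) : ℝ) • (A - (inner ℝ v A : ℝ) • v - N) - (2 * inner ℝ v A : ℝ) • v
    with hK
  set K' : E3 := (-(4 / 3) : ℝ) • (B - (inner ℝ v B : ℝ) • v - N') - (2 * inner ℝ v B : ℝ) • v
    with hK'
  have oN : inner ℝ v N = (0 : ℝ) := inner_crs_left v b
  have oN' : inner ℝ v N' = (0 : ℝ) := by
    rw [hN', inner_neg_right, inner_crs_left, neg_zero]
  have i0 := int_inv hv
  have iN := int_NN hv oN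
  have iN' := int_NN hv oN'
  have iNK := int_NK (K := K) hv oN
  have iNK' := int_NK (K := K') hv oN'
  have iK := int_KK (K := K) hv
  have iK' := int_KK (K := K') hv
  have gK := int_gK hg hgb K A hA
  have hK2 := int_gK hh hhb K' B hB
  -- the right hand side of the pointwise inequality
  have hR := cadd (csub (cmul (1 / 2) (cadd (cadd (cadd (cadd i0 iN) iN') iK) iK'))
    (cadd iNK iNK')) (cadd gK hK2)
  have hL : ∀ᵐ p ∂PP, (g p * inner ℝ p N - h p * inner ℝ p (crs v a)) / sq2 v p =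
      (g p * inner ℝ p N + h p * inner ℝ p N') / sq2 v p := by
    refine Eventually.of_forall fun p => ?_
    rw [hN', inner_neg_right]
    ring
  have hpt : ∀ᵐ p ∂PP, (g p * inner ℝ p N - h p * inner ℝ p (crs v a)) / sq2 v p ≤
      (1 / 2) * (1 / √(sq2 v p) + inner ℝ p N ^ 2 / (sq2 v p * √(sq2 v p))
      + inner ℝ p N' ^ 2 / (sq2 v p * √(sq2 v p)) + √(sq2 v p) * inner ℝ p K ^ 2
      + √(sq2 v p) * inner ℝ p K' ^ 2) - (inner ℝ p N * inner ℝ p K / √(sq2 v p)
      + inner ℝ p N' * inner ℝ p K' / √(sq2 v p)) + (g p * inner ℝ p K + h p * inner ℝ p K') := by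
    filter_upwards [hL, ae_sq2 v hv, hgh] with p h1 h2 h3
    rw [h1]
    exact exs_pt h2 h3
  -- integrability of the left hand side
  have hLi : Integrable (fun p => (g p * inner ℝ p N - h p * inner ℝ p (crs v a)) / sq2 v p) PP := by
    have hB := (cadd (cadd i0 iN) iN').1
    refine hB.mono' ?_ ?_
    · have m1 : Measurable (fun p : E3 => inner ℝ p N) := by fun_prop
      have m2 : Measurable (fun p : E3 => inner ℝ p (crs v a)) := by fun_prop
      have m3 : Measurable (fun p : E3 => sq2 v p) := by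
        unfold sq2
        fun_prop
      exact (((hg.mul m1).sub (hh.mul m2)).div m3).aestronglyMeasurable
    · filter_upwards [hL, ae_sq2 v hv, hgh] with p h1 h2 h3
      rw [h1, Real.norm_eq_abs]
      have u1 := exs_pt (x := inner ℝ p N) (x' := inner ℝ p N') (y := 0) (y' := 0) h2 h3
      have h3' : (-g p) ^ 2 + (-h p) ^ 2 ≤ 1 := by
        simpa using h3
      have u2 := exs_pt (x := inner ℝ p N) (x' := inner ℝ p N') (y := 0) (y' := 0) h2 h3'
      have hpos : 0 ≤ 1 / √(sq2 v p) + inner ℝ p N ^ 2 / (sq2 v p * √(sq2 v p))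
          + inner ℝ p N' ^ 2 / (sq2 v p * √(sq2 v p)) := by positivity
      have u3 : (-g p * inner ℝ p N + -h p * inner ℝ p N') / sq2 v p =
          -((g p * inner ℝ p N + h p * inner ℝ p N') / sq2 v p) := by ring
      rw [u3] at u2
      simp only [mul_zero, zero_div, add_zero, sub_zero, ne_eq, OfNat.ofNat_ne_zero,
        not_false_eq_true, zero_pow] at u1 u2
      rw [abs_le]
      constructor <;> linarith
  have hint := integral_mono_ae hLi hR.1 hpt
  rw [hR.2] at hint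
  have b1 := exs_block (A := A) hv oN rfl rfl hK
  have b2 := exs_block (A := B) hv oN' rfl rfl hK'
  have nN : ‖N‖ ^ 2 = ‖b‖ ^ 2 := norm_crs hv hb
  have nN' : ‖N'‖ ^ 2 = ‖a‖ ^ 2 := by
    rw [hN', norm_neg]
    exact norm_crs hv ha
  have eW : B - (inner ℝ v B : ℝ) • v - N' = B - (inner ℝ v B : ℝ) • v + crs v a := by
    rw [hN', sub_neg_eq_add]
  rw [eW] at b2
  have hpi := Real.pi_pos
  have h12 := mul_le_mul_of_nonneg_left hint (show (0 : ℝ) ≤ 12 / Real.pi by positivity)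
  refine h12.trans (le_of_eq ?_)
  rw [nN, nN']
  set k1 := inner ℝ v K ^ 2
  set k2 := inner ℝ v K' ^ 2
  have e : 12 / Real.pi * (1 / 2 * (Real.pi / 2 + Real.pi / 4 * ‖b‖ ^ 2 + Real.pi / 4 * ‖a‖ ^ 2 +
      (3 * Real.pi / 32 * (‖K‖ ^ 2 - k1) + Real.pi / 16 * k1) +
      (3 * Real.pi / 32 * (‖K'‖ ^ 2 - k2) + Real.pi / 16 * k2)) -
      (Real.pi / 8 * inner ℝ N K + Real.pi / 8 * inner ℝ N' K') +
      (Real.pi / 8 * inner ℝ A K + Real.pi / 8 * inner ℝ B K')) =
      3 + (3 / 2) * (‖a‖ ^ 2 + ‖b‖ ^ 2) +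
      ((9 / 16) * (‖K‖ ^ 2 - k1) + (3 / 8) * k1 - (3 / 2) * inner ℝ N K
      + (3 / 2) * inner ℝ A K) + ((9 / 16) * (‖K'‖ ^ 2 - k2) + (3 / 8) * k2
      - (3 / 2) * inner ℝ N' K' + (3 / 2) * inner ℝ B K') := by
    field_simp
    ring
  rw [e, b1, b2]
  ring


/-! ### integration over the surface -/

private theorem lam_le (F : Fam γ) (p : E3) (i : Fin F.n) : F.lam p i ≤ 1 := by
  rw [← F.sum p]
  exact Finset.single_le_sum (fun j _ => F.nonneg p j) (Finset.mem_univ i)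

private theorem exs_lamk (F : Fam γ) (i : Fin F.n) (k : Fin 3) :
    Integrable (fun p => F.lam p i * p k) PP := by
  refine int_gk (F.meas i) (Eventually.of_forall fun p => ?_) k
  rw [abs_of_nonneg (F.nonneg p i)]
  exact lam_le F p i

/-- the coefficients of `Θ` -/
private def cf (F : Fam γ) (k : Fin 3) (i : Fin F.n) : ℝ := (8 / Real.pi) * ∫ p, F.lam p i * p k ∂PP

private theorem Th_eq (F : Fam γ) (k : Fin 3) (x : M) : F.Th k x = ∑ i, cf F k i * F.th i x := by
  unfold Fam.Th Fam.f cf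
  have h : ∀ p : E3, (∑ i, F.lam p i * F.th i x) * p k = ∑ i, F.th i x * (F.lam p i * p k) := by
    intro p
    rw [Finset.sum_mul]
    exact Finset.sum_congr rfl fun i _ => by ring
  simp_rw [h]
  rw [integral_finsetSum _ fun i _ => (exs_lamk F i k).const_mul _, Finset.mul_sum]
  refine Finset.sum_congr rfl fun i _ => ?_
  rw [integral_const_mul]
  ring

theorem Fam.lip_Th (F : Fam γ) (k : Fin 3) : Lip (F.Th k) := by
  have e : F.Th k = fun x => ∑ i, cf F k i * F.th i x := funext fun x => Th_eq F k x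
  rw [e]
  exact lip_sum _ fun i _ => Lip.const_mul ⟨1, (F.adm i).lip⟩ _

/-- the components of the gradients of the family at one point -/
private structure Good (C : Calc M γ) (F : Fam γ) (o : Om) : Prop where
  f : ∀ p, C.gx (F.f p) o = ∑ i, F.lam p i * C.gx (F.th i) o ∧
    C.gy (F.f p) o = ∑ i, F.lam p i * C.gy (F.th i) o
  th : ∀ k, C.gx (F.Th k) o = ∑ i, cf F k i * C.gx (F.th i) o ∧
    C.gy (F.Th k) o = ∑ i, cf F k i * C.gy (F.th i) o
  le : ∀ i, C.gx (F.th i) o ^ 2 + C.gy (F.th i) o ^ 2 ≤ 1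

private theorem ae_good (C : Calc M γ) (F : Fam γ) : ∀ᵐ o ∂C.μ, Good C F o := by
  have hL : ∀ i, Lip (F.th i) := fun i => ⟨1, (F.adm i).lip⟩
  have h : ∀ᵐ o ∂C.μ, ∀ i, HasDerivAt (fun s => F.th i (C.px o s)) (C.gx (F.th i) o) 0 ∧
      HasDerivAt (fun s => F.th i (C.py o s)) (C.gy (F.th i) o) 0 := ae_all_iff.mpr fun i =>
    C.ae_has (hL i)
  have h2 : ∀ᵐ o ∂C.μ, ∀ i, C.gx (F.th i) o ^ 2 + C.gy (F.th i) o ^ 2 ≤ ((1 : ℝ≥0) : ℝ) ^ 2 :=
    ae_all_iff.mpr fun i => C.ae_grad_le (F.adm i).lip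
  filter_upwards [h, h2] with o ho h3
  refine ⟨fun p => ?_, fun k => ?_, fun i => by simpa using h3 i⟩
  · exact ⟨(HasDerivAt.fun_sum fun i _ => (ho i).1.const_mul (F.lam p i)).deriv,
      (HasDerivAt.fun_sum fun i _ => (ho i).2.const_mul (F.lam p i)).deriv⟩
  · have e : F.Th k = fun x => ∑ i, cf F k i * F.th i x := funext fun x => Th_eq F k x
    rw [e]
    exact ⟨(HasDerivAt.fun_sum fun i _ => (ho i).1.const_mul (cf F k i)).deriv,
      (HasDerivAt.fun_sum fun i _ => (ho i).2.const_mul (cf F k i)).deriv⟩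

private theorem exs_cvx {n : ℕ} {l g h : Fin n → ℝ} (hl : ∀ i, 0 ≤ l i) (hs : ∑ i, l i = 1)
    (hgh : ∀ i, g i ^ 2 + h i ^ 2 ≤ 1) : (∑ i, l i * g i) ^ 2 + (∑ i, l i * h i) ^ 2 ≤ 1 := by
  have h1 : (∑ i, l i * g i) ^ 2 ≤ ∑ i, l i * g i ^ 2 := by
    have c := Finset.sum_mul_sq_le_sq_mul_sq Finset.univ (fun i => √(l i)) (fun i => √(l i) * g i)
    have e1 : ∀ i, √(l i) * (√(l i) * g i) = l i * g i := fun i => by
      rw [← mul_assoc, Real.mul_self_sqrt (hl i)]
    have e2 : ∀ i, √(l i) ^ 2 = l i := fun i => Real.sq_sqrt (hl i)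
    have e3 : ∀ i, (√(l i) * g i) ^ 2 = l i * g i ^ 2 := fun i => by
      rw [mul_pow, e2]
    simp_rw [e1, e2, e3] at c
    rwa [hs, one_mul] at c
  have h2 : (∑ i, l i * h i) ^ 2 ≤ ∑ i, l i * h i ^ 2 := by
    have c := Finset.sum_mul_sq_le_sq_mul_sq Finset.univ (fun i => √(l i)) (fun i => √(l i) * h i)
    have e1 : ∀ i, √(l i) * (√(l i) * h i) = l i * h i := fun i => by
      rw [← mul_assoc, Real.mul_self_sqrt (hl i)]
    have e2 : ∀ i, √(l i) ^ 2 = l i := fun i => Real.sq_sqrt (hl i)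
    have e3 : ∀ i, (√(l i) * h i) ^ 2 = l i * h i ^ 2 := fun i => by
      rw [mul_pow, e2]
    simp_rw [e1, e2, e3] at c
    rwa [hs, one_mul] at c
  calc (∑ i, l i * g i) ^ 2 + (∑ i, l i * h i) ^ 2
      ≤ ∑ i, l i * g i ^ 2 + ∑ i, l i * h i ^ 2 := add_le_add h1 h2
    _ = ∑ i, l i * (g i ^ 2 + h i ^ 2) := by
        rw [← Finset.sum_add_distrib]
        exact Finset.sum_congr rfl fun i _ => by ring
    _ ≤ ∑ i, l i := Finset.sum_le_sum fun i _ => mul_le_of_le_one_right (hl i) (hgh i)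
    _ = 1 := hs


/-- the right hand side as a function of the derivatives; `q = (v, (a, (b, (A, B))))` -/
private def PhiR (q : E3 × E3 × E3 × E3 × E3) : ℝ :=
  3 + (3 / 2) * (‖q.2.1‖ ^ 2 + ‖q.2.2.1‖ ^ 2)
      - (‖q.2.2.2.1 - (inner ℝ q.1 q.2.2.2.1 : ℝ) • q.1 - crs q.1 q.2.2.1‖ ^ 2
        + ‖q.2.2.2.2 - (inner ℝ q.1 q.2.2.2.2 : ℝ) • q.1 + crs q.1 q.2.1‖ ^ 2)
      - (3 / 2) * (inner ℝ q.1 q.2.2.2.1 ^ 2 + inner ℝ q.1 q.2.2.2.2 ^ 2)

private theorem PhiR_cont : Continuous PhiR := by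
  have c1 : Continuous (fun q : E3 × E3 × E3 × E3 × E3 => crs q.1 q.2.2.1) :=
    crs_cont.comp (f := fun q : E3 × E3 × E3 × E3 × E3 => (q.1, q.2.2.1)) (by fun_prop)
  have c2 : Continuous (fun q : E3 × E3 × E3 × E3 × E3 => crs q.1 q.2.1) :=
    crs_cont.comp (f := fun q : E3 × E3 × E3 × E3 × E3 => (q.1, q.2.1)) (by fun_prop)
  unfold PhiR
  fun_prop

private theorem PhiR_int (C : Calc M γ) {v T : Fin 3 → M → ℝ} (hv : Sph γ v) (hT : ∀ k, Lip (T k)) :
    Integrable (fun o => PhiR (at' C v o, dx C v o, dy C v o, dx C T o, dy C T o)) C.μ := by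
  obtain ⟨m1, m2, m0⟩ := meas_dx C hv.lip
  obtain ⟨m3, m4, -⟩ := meas_dx C hT
  obtain ⟨⟨B1, b1⟩, ⟨B2, b2⟩⟩ := bdd_dx C hv.lip
  obtain ⟨⟨B3, b3⟩, ⟨B4, b4⟩⟩ := bdd_dx C hT
  have hm : AEMeasurable (fun o => (at' C v o, dx C v o, dy C v o, dx C T o, dy C T o)) C.μ :=
    m0.prodMk (m1.prodMk (m2.prodMk (m3.prodMk m4)))
  set K : Set (E3 × E3 × E3 × E3 × E3) := Metric.closedBall 0 1 ×ˢ (Metric.closedBall 0 B1 ×ˢ
    (Metric.closedBall 0 B2 ×ˢ (Metric.closedBall 0 B3 ×ˢ Metric.closedBall 0 B4))) with hK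
  have hKc : IsCompact K := (isCompact_closedBall _ _).prod ((isCompact_closedBall _ _).prod
    ((isCompact_closedBall _ _).prod ((isCompact_closedBall _ _).prod (isCompact_closedBall _ _))))
  obtain ⟨B, hB⟩ := hKc.exists_bound_of_continuousOn PhiR_cont.continuousOn
  refine C.integrable_of_bdd (B := B) (PhiR_cont.measurable.comp_aemeasurable hm) ?_
  filter_upwards [b1, b2, b3, b4] with o h1 h2 h3 h4
  refine hB _ ⟨?_, ?_, ?_, ?_, ?_⟩
  · simp [norm_at hv]
  · simpa using h1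
  · simpa using h2
  · simpa using h3
  · simpa using h4

theorem exss [CompactSpace M] (C : Calc M γ) {v : Fin 3 → M → ℝ} (hv : Sph γ v) (F : Fam γ) :
    12 / Real.pi * ∫ p, Flux C (F.f p) v p ∂PP ≤ ∫ o, (3 + (3 / 2) * (‖dx C v o‖ ^ 2 + ‖dy C v o‖ ^ 2)
      - (‖dx C F.Th o - (inner ℝ (at' C v o) (dx C F.Th o) : ℝ) • at' C v o - crs (at' C v o) (dy C v o)‖ ^ 2
        + ‖dy C F.Th o - (inner ℝ (at' C v o) (dy C F.Th o) : ℝ) • at' C v o + crs (at' C v o) (dx C v o)‖ ^ 2)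
      - (3 / 2) * (inner ℝ (at' C v o) (dx C F.Th o) ^ 2 + inner ℝ (at' C v o) (dy C F.Th o) ^ 2)) ∂C.μ := by
  have := C.fin
  have hL : ∀ i, Lip (F.th i) := fun i => ⟨1, (F.adm i).lip⟩
  set G : Om → E3 → ℝ := fun o p => ∑ i, F.lam p i * flx C (F.th i) v p o with hG
  -- integrability on the product
  have hGi : Integrable (Function.uncurry G) (C.μ.prod PP) := by
    have e : Function.uncurry G = fun q : Om × E3 => ∑ i, F.lam q.2 i * flx C (F.th i) v q.2 q.1 := rfl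
    rw [e]
    refine integrable_finsetSum _ fun i _ => ?_
    refine (flux_meas C hv (hL i)).2.1.bdd_mul (c := 1) ?_ ?_
    · exact ((F.meas i).comp measurable_snd).aestronglyMeasurable
    · refine Eventually.of_forall fun q => ?_
      rw [Real.norm_eq_abs, abs_of_nonneg (F.nonneg _ _)]
      exact lam_le F q.2 i
  -- the flux of the family
  have hF : ∀ p, Flux C (F.f p) v p = ∫ o, G o p ∂C.μ := by
    intro p
    unfold Flux
    refine integral_congr_ae ?_
    filter_upwards [ae_good C F] with o ho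
    unfold flx
    rw [(ho.f p).1, (ho.f p).2, hG]
    simp only
    rw [Finset.sum_mul, Finset.sum_mul, ← Finset.sum_sub_distrib, Finset.sum_div]
    refine Finset.sum_congr rfl fun i _ => ?_
    unfold flx
    ring
  simp_rw [hF]
  rw [← integral_integral_swap hGi, ← integral_const_mul]
  refine integral_mono_ae (hGi.integral_prod_left.const_mul _) (PhiR_int C hv F.lip_Th) ?_
  filter_upwards [ae_good C F, ae_perp C hv] with o ho hp
  have key := ex_pointwise (v := at' C v o) (a := dx C v o) (b := dy C v o)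
    (g := fun p => C.gx (F.f p) o) (h := fun p => C.gy (F.f p) o) (A := dx C F.Th o)
    (B := dy C F.Th o) (norm_at hv o) hp.1 hp.2 ?_ ?_ ?_ ?_ ?_
  · refine le_trans (le_of_eq ?_) key
    congr 1
    refine integral_congr_ae (Eventually.of_forall fun p => ?_)
    simp only
    rw [(ho.f p).1, (ho.f p).2, hG]
    simp only
    rw [Finset.sum_mul, Finset.sum_mul, ← Finset.sum_sub_distrib, Finset.sum_div]
    refine Finset.sum_congr rfl fun i _ => ?_
    unfold flx
    ring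
  · have e : (fun p => C.gx (F.f p) o) = fun p => ∑ i, F.lam p i * C.gx (F.th i) o :=
      funext fun p => (ho.f p).1
    rw [e]
    exact Finset.measurable_sum _ fun i _ => (F.meas i).mul_const _
  · have e : (fun p => C.gy (F.f p) o) = fun p => ∑ i, F.lam p i * C.gy (F.th i) o :=
      funext fun p => (ho.f p).2
    rw [e]
    exact Finset.measurable_sum _ fun i _ => (F.meas i).mul_const _
  · refine Eventually.of_forall fun p => ?_
    rw [(ho.f p).1, (ho.f p).2]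
    exact exs_cvx (F.nonneg p) (F.sum p) ho.le
  · intro k
    have e : dx C F.Th o k = C.gx (F.Th k) o := by
      fin_cases k <;> rfl
    rw [e, (ho.th k).1]
    simp_rw [(ho.f _).1]
    unfold cf
    have h : ∀ p : E3, (∑ i, F.lam p i * C.gx (F.th i) o) * p k =
        ∑ i, C.gx (F.th i) o * (F.lam p i * p k) := by
      intro p
      rw [Finset.sum_mul]
      exact Finset.sum_congr rfl fun i _ => by ring
    simp_rw [h]
    rw [integral_finsetSum _ fun i _ => (exs_lamk F i k).const_mul _, Finset.mul_sum]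
    refine Finset.sum_congr rfl fun i _ => ?_
    rw [integral_const_mul]
    ring
  · intro k
    have e : dy C F.Th o k = C.gy (F.Th k) o := by
      fin_cases k <;> rfl
    rw [e, (ho.th k).2]
    simp_rw [(ho.f _).2]
    unfold cf
    have h : ∀ p : E3, (∑ i, F.lam p i * C.gy (F.th i) o) * p k =
        ∑ i, C.gy (F.th i) o * (F.lam p i * p k) := by
      intro p
      rw [Finset.sum_mul]
      exact Finset.sum_congr rfl fun i _ => by ring
    simp_rw [h]
    rw [integral_finsetSum _ fun i _ => (exs_lamk F i k).const_mul _, Finset.mul_sum]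
    refine Finset.sum_congr rfl fun i _ => ?_
    rw [integral_const_mul]
    ring

end Pool.Agent.FPX
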