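import Mathlib
import Pool.Agent.FPX.KCT
import Pool.Agent.FPX.FME

/-
FCT: continuity of the flux in the map (helper74).
-/

open MeasureTheory Set Filter Topology
open scoped ENNReal NNReal

noncomputable section

namespace Pool.Agent.FPX

open Pool.Agent.EWD

variable {M : Type} [MetricSpace M] {γ : ℝ → M}

/-- the kernel -/
private def KK2 (v ξ p : E3) : ℝ := inner ℝ p (crs v ξ) / sq2 v p

private theorem norm_dx_le [CompactSpace M] (C : Calc M γ) {L : ℝ≥0} {v : Fin 3 → M → ℝ}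
    (hL : ∀ k, LipschitzWith L (v k)) :
    ∀ᵐ o ∂C.μ, ‖dx C v o‖ ≤ 2 * L ∧ ‖dy C v o‖ ≤ 2 * L := by
  have h : ∀ᵐ o ∂C.μ, ∀ k, C.gx (v k) o ^ 2 + C.gy (v k) o ^ 2 ≤ (L : ℝ) ^ 2 :=
    ae_all_iff.2 fun k => C.ae_grad_le (hL k)
  filter_upwards [h] with o ho
  have h0 := ho 0
  have h1 := ho 1
  have h2 := ho 2
  have hL0 : (0 : ℝ) ≤ L := L.2
  constructor
  · have e : ‖dx C v o‖ ^ 2 ≤ (2 * L) ^ 2 := by
      rw [normsq3]
      change C.gx (v 0) o ^ 2 + C.gx (v 1) o ^ 2 + C.gx (v 2) o ^ 2 ≤ _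
      nlinarith [sq_nonneg (C.gy (v 0) o), sq_nonneg (C.gy (v 1) o), sq_nonneg (C.gy (v 2) o)]
    exact le_of_sq_le_sq e (by positivity)
  · have e : ‖dy C v o‖ ^ 2 ≤ (2 * L) ^ 2 := by
      rw [normsq3]
      change C.gy (v 0) o ^ 2 + C.gy (v 1) o ^ 2 + C.gy (v 2) o ^ 2 ≤ _
      nlinarith [sq_nonneg (C.gx (v 0) o), sq_nonneg (C.gx (v 1) o), sq_nonneg (C.gx (v 2) o)]
    exact le_of_sq_le_sq e (by positivity)

/-- the mean of the kernel is bounded -/
private theorem kernel_bd {B : ℝ} {v ξ : E3} (hv : ‖v‖ = 1) (hξ : ‖ξ‖ ≤ B) :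
    ∫⁻ p, ENNReal.ofReal |KK2 v ξ p| ∂PP ≤ ENNReal.ofReal (B * (Real.pi / 2)) := by
  have hB : 0 ≤ B := (norm_nonneg _).trans hξ
  have h1 : ∀ᵐ p ∂PP, ENNReal.ofReal |KK2 v ξ p| ≤ ENNReal.ofReal (B * (1 / √(sq2 v p))) := by
    filter_upwards [ae_norm, ae_sq2 v hv] with p hp hs
    apply ENNReal.ofReal_le_ofReal
    unfold KK2
    rw [abs_div, abs_of_pos hs]
    have h2 : |(inner ℝ p (crs v ξ) : ℝ)| ≤ √(sq2 v p) * ‖ξ‖ := by
      refine abs_le_of_sq_le_sq ?_ (by positivity)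
      rw [mul_pow, Real.sq_sqrt hs.le]
      exact inner_crs_le hv hp ξ
    have hs2 : 0 < √(sq2 v p) := Real.sqrt_pos.2 hs
    rw [div_le_iff₀ hs]
    have h4 : √(sq2 v p) * √(sq2 v p) = sq2 v p := Real.mul_self_sqrt hs.le
    calc |(inner ℝ p (crs v ξ) : ℝ)| ≤ √(sq2 v p) * ‖ξ‖ := h2
      _ ≤ √(sq2 v p) * B := by gcongr
      _ = B * (1 / √(sq2 v p)) * sq2 v p := by
          have h5 : B * (1 / √(sq2 v p)) * sq2 v p = B * (1 / √(sq2 v p)) * (√(sq2 v p) * √(sq2 v p)) := by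
            rw [h4]
          rw [h5]
          field_simp
  refine (lintegral_mono_ae h1).trans ?_
  have hi := (int_inv hv).1.const_mul B
  rw [← ofReal_integral_eq_lintegral_ofReal hi (Eventually.of_forall fun p => by positivity),
    integral_const_mul, (int_inv hv).2]

private theorem norm_le_of_coord {a b : E3} {δ : ℝ} (hδ : 0 ≤ δ) (h : ∀ k, |a k - b k| ≤ δ / 2) :
    ‖a - b‖ ≤ δ := by
  have e : ‖a - b‖ ^ 2 ≤ δ ^ 2 := by
    rw [normsq3]
    have h0 := h 0
    have h1 := h 1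
    have h2 := h 2
    change (a 0 - b 0) ^ 2 + (a 1 - b 1) ^ 2 + (a 2 - b 2) ^ 2 ≤ δ ^ 2
    have g : ∀ x : ℝ, |x| ≤ δ / 2 → x ^ 2 ≤ δ ^ 2 / 4 := by
      intro x hx
      rw [← sq_abs]
      nlinarith [abs_nonneg x]
    nlinarith [g _ h0, g _ h1, g _ h2, sq_nonneg δ]
  exact le_of_sq_le_sq e hδ

theorem flux_cont [CompactSpace M] (C : Calc M γ) {L : ℝ≥0} {v : ℕ → Fin 3 → M → ℝ} {w : Fin 3 → M → ℝ}
    (hv : ∀ j, Sph γ (v j)) (hw : Sph γ w) (hL : ∀ j k, LipschitzWith L (v j k))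
    (hc : ∀ᵐ o ∂C.μ, ∀ k, Tendsto (fun j => v j k (C.pt o)) atTop (𝓝 (w k (C.pt o))) ∧
      Tendsto (fun j => C.gx (v j k) o) atTop (𝓝 (C.gx (w k) o)) ∧
      Tendsto (fun j => C.gy (v j k) o) atTop (𝓝 (C.gy (w k) o)))
    {θ : M → ℝ} (hθ : Adm γ θ) :
    Tendsto (fun j => ∫ p, |Flux C θ (v j) p - Flux C θ w p| ∂PP) atTop (𝓝 0) := by
  have : IsFiniteMeasure C.μ := C.fin
  have hLθ : Lip θ := ⟨1, hθ.lip⟩
  -- the limit has bounded derivatives too
  have hB : ∀ᵐ o ∂C.μ, (∀ j, ‖dx C (v j) o‖ ≤ 2 * L ∧ ‖dy C (v j) o‖ ≤ 2 * L) :=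
    ae_all_iff.2 fun j => norm_dx_le C (hL j)
  have hBw : ∀ᵐ o ∂C.μ, ‖dx C w o‖ ≤ 2 * L ∧ ‖dy C w o‖ ≤ 2 * L := by
    filter_upwards [hB, hc] with o ho hco
    have t1 : Tendsto (fun j => dx C (v j) o) atTop (𝓝 (dx C w o)) := by
      rw [tendsto_iff_norm_sub_tendsto_zero]
      rw [Metric.tendsto_atTop]
      intro ε hε
      have g : ∀ k, ∀ᶠ j in atTop, |C.gx (v j k) o - C.gx (w k) o| < ε / 4 := by
        intro k
        have := (Metric.tendsto_nhds.1 (hco k).2.1) (ε / 4) (by positivity)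
        simpa [Real.dist_eq] using this
      obtain ⟨N, hN⟩ := eventually_atTop.1 (((g 0).and (g 1)).and (g 2))
      refine ⟨N, fun j hj => ?_⟩
      rw [Real.dist_eq, sub_zero, abs_norm]
      have h3 := hN j hj
      refine lt_of_le_of_lt (norm_le_of_coord (δ := ε / 2) (by positivity) ?_) (by linarith)
      intro k
      fin_cases k
      · have := h3.1.1.le
        change |C.gx (v j 0) o - C.gx (w 0) o| ≤ _
        linarith
      · have := h3.1.2.le
        change |C.gx (v j 1) o - C.gx (w 1) o| ≤ _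
        linarith
      · have := h3.2.le
        change |C.gx (v j 2) o - C.gx (w 2) o| ≤ _
        linarith
    have t2 : Tendsto (fun j => dy C (v j) o) atTop (𝓝 (dy C w o)) := by
      rw [tendsto_iff_norm_sub_tendsto_zero]
      rw [Metric.tendsto_atTop]
      intro ε hε
      have g : ∀ k, ∀ᶠ j in atTop, |C.gy (v j k) o - C.gy (w k) o| < ε / 4 := by
        intro k
        have := (Metric.tendsto_nhds.1 (hco k).2.2) (ε / 4) (by positivity)
        simpa [Real.dist_eq] using this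
      obtain ⟨N, hN⟩ := eventually_atTop.1 (((g 0).and (g 1)).and (g 2))
      refine ⟨N, fun j hj => ?_⟩
      rw [Real.dist_eq, sub_zero, abs_norm]
      have h3 := hN j hj
      refine lt_of_le_of_lt (norm_le_of_coord (δ := ε / 2) (by positivity) ?_) (by linarith)
      intro k
      fin_cases k
      · have := h3.1.1.le
        change |C.gy (v j 0) o - C.gy (w 0) o| ≤ _
        linarith
      · have := h3.1.2.le
        change |C.gy (v j 1) o - C.gy (w 1) o| ≤ _
        linarith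
      · have := h3.2.le
        change |C.gy (v j 2) o - C.gy (w 2) o| ≤ _
        linarith
    exact ⟨le_of_tendsto t1.norm (Eventually.of_forall fun j => (ho j).1),
      le_of_tendsto t2.norm (Eventually.of_forall fun j => (ho j).2)⟩
  -- the inner integral
  set D : ℕ → Om → ℝ≥0∞ := fun j o => ∫⁻ p, ENNReal.ofReal |flx C θ (v j) p o - flx C θ w p o| ∂PP
    with hD
  set K : ℝ := 2 * L with hK
  have hK0 : 0 ≤ K := by positivity
  have hflx : ∀ᵐ o ∂C.μ, ∀ j p, |flx C θ (v j) p o - flx C θ w p o| ≤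
      |KK2 (at' C (v j) o) (dy C (v j) o) p - KK2 (at' C w o) (dy C w o) p|
      + |KK2 (at' C (v j) o) (dx C (v j) o) p - KK2 (at' C w o) (dx C w o) p| := by
    filter_upwards [C.ae_grad_le hθ.lip] with o ho j p
    have g1 : |C.gx θ o| ≤ 1 := by
      rw [← sq_le_one_iff_abs_le_one]
      have := sq_nonneg (C.gy θ o)
      simp only [NNReal.coe_one, one_pow] at ho
      linarith
    have g2 : |C.gy θ o| ≤ 1 := by
      rw [← sq_le_one_iff_abs_le_one]
      have := sq_nonneg (C.gx θ o)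
      simp only [NNReal.coe_one, one_pow] at ho
      linarith
    have e : flx C θ (v j) p o - flx C θ w p o =
        C.gx θ o * (KK2 (at' C (v j) o) (dy C (v j) o) p - KK2 (at' C w o) (dy C w o) p)
        - C.gy θ o * (KK2 (at' C (v j) o) (dx C (v j) o) p - KK2 (at' C w o) (dx C w o) p) := by
      unfold flx KK2
      ring
    rw [e]
    refine (abs_sub _ _).trans ?_
    rw [abs_mul, abs_mul]
    gcongr
    · exact (mul_le_mul_of_nonneg_right g1 (abs_nonneg _)).trans (one_mul _).le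
    · exact (mul_le_mul_of_nonneg_right g2 (abs_nonneg _)).trans (one_mul _).le
  have mKK : ∀ v ξ : E3, Measurable fun p => KK2 v ξ p := by
    intro v ξ
    unfold KK2 sq2
    fun_prop
  have hDle : ∀ᵐ o ∂C.μ, ∀ j, D j o ≤
      ∫⁻ p, ENNReal.ofReal |KK2 (at' C (v j) o) (dy C (v j) o) p - KK2 (at' C w o) (dy C w o) p| ∂PP
      + ∫⁻ p, ENNReal.ofReal |KK2 (at' C (v j) o) (dx C (v j) o) p - KK2 (at' C w o) (dx C w o) p| ∂PP := by
    filter_upwards [hflx] with o ho j
    have hm : Measurable fun p => ENNReal.ofReal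
        |KK2 (at' C (v j) o) (dy C (v j) o) p - KK2 (at' C w o) (dy C w o) p| :=
      ((mKK _ _).sub (mKK _ _)).norm.ennreal_ofReal
    rw [← lintegral_add_left hm]
    refine lintegral_mono fun p => ?_
    rw [← ENNReal.ofReal_add (abs_nonneg _) (abs_nonneg _)]
    exact ENNReal.ofReal_le_ofReal (ho j p)
  -- convergence of the inner integral
  have hDt : ∀ᵐ o ∂C.μ, Tendsto (fun j => D j o) atTop (𝓝 0) := by
    filter_upwards [hDle, hB, hBw, hc] with o ho1 ho2 ho3 ho4
    rw [ENNReal.tendsto_atTop_zero]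
    intro ε hε
    rcases eq_or_ne ε ⊤ with h | h
    · exact ⟨0, fun n _ => by rw [h]; exact le_top⟩
    have hε' : 0 < ε.toReal := ENNReal.toReal_pos hε.ne' h
    obtain ⟨δ, hδ, hk⟩ := kernel_cont (B := K) (ε := ε.toReal / 2) (by positivity)
    have g : ∀ k, ∀ᶠ j in atTop, |v j k (C.pt o) - w k (C.pt o)| < δ / 2 ∧
        |C.gx (v j k) o - C.gx (w k) o| < δ / 2 ∧ |C.gy (v j k) o - C.gy (w k) o| < δ / 2 := by
      intro k
      have a1 := (Metric.tendsto_nhds.1 (ho4 k).1) (δ / 2) (by positivity)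
      have a2 := (Metric.tendsto_nhds.1 (ho4 k).2.1) (δ / 2) (by positivity)
      have a3 := (Metric.tendsto_nhds.1 (ho4 k).2.2) (δ / 2) (by positivity)
      simp only [Real.dist_eq] at a1 a2 a3
      exact a1.and (a2.and a3)
    obtain ⟨N, hN⟩ := eventually_atTop.1 (((g 0).and (g 1)).and (g 2))
    refine ⟨N, fun j hj => ?_⟩
    have h3 := hN j hj
    have n1 : ‖at' C (v j) o - at' C w o‖ ≤ δ := by
      refine norm_le_of_coord hδ.le ?_
      intro k
      fin_cases k
      · exact h3.1.1.1.le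
      · exact h3.1.2.1.le
      · exact h3.2.1.le
    have n2 : ‖dx C (v j) o - dx C w o‖ ≤ δ := by
      refine norm_le_of_coord hδ.le ?_
      intro k
      fin_cases k
      · exact h3.1.1.2.1.le
      · exact h3.1.2.2.1.le
      · exact h3.2.2.1.le
    have n3 : ‖dy C (v j) o - dy C w o‖ ≤ δ := by
      refine norm_le_of_coord hδ.le ?_
      intro k
      fin_cases k
      · exact h3.1.1.2.2.le
      · exact h3.1.2.2.2.le
      · exact h3.2.2.2.le
    have k1 := hk _ _ _ _ (norm_at (hv j) o) (norm_at hw o) (ho2 j).2 ho3.2 n1 n3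
    have k2 := hk _ _ _ _ (norm_at (hv j) o) (norm_at hw o) (ho2 j).1 ho3.1 n1 n2
    refine (ho1 j).trans ((add_le_add k1 k2).trans ?_)
    rw [← ENNReal.ofReal_add (by positivity) (by positivity), add_halves, ENNReal.ofReal_toReal h]
  -- domination
  have hDb : ∀ j, ∀ᵐ o ∂C.μ, D j o ≤ ENNReal.ofReal (4 * (K * (Real.pi / 2))) := by
    intro j
    filter_upwards [hDle, hB, hBw] with o ho1 ho2 ho3
    have tri : ∀ a b c d : E3, ‖a‖ = 1 → ‖c‖ = 1 → ‖b‖ ≤ K → ‖d‖ ≤ K →
        ∫⁻ p, ENNReal.ofReal |KK2 a b p - KK2 c d p| ∂PP ≤ ENNReal.ofReal (2 * (K * (Real.pi / 2))) := by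
      intro a b c d ha hc hb hd
      calc ∫⁻ p, ENNReal.ofReal |KK2 a b p - KK2 c d p| ∂PP
          ≤ ∫⁻ p, (ENNReal.ofReal |KK2 a b p| + ENNReal.ofReal |KK2 c d p|) ∂PP := by
            refine lintegral_mono fun p => ?_
            rw [← ENNReal.ofReal_add (abs_nonneg _) (abs_nonneg _)]
            exact ENNReal.ofReal_le_ofReal (abs_sub _ _)
        _ = ∫⁻ p, ENNReal.ofReal |KK2 a b p| ∂PP + ∫⁻ p, ENNReal.ofReal |KK2 c d p| ∂PP :=
            lintegral_add_left (mKK _ _).norm.ennreal_ofReal _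
        _ ≤ ENNReal.ofReal (K * (Real.pi / 2)) + ENNReal.ofReal (K * (Real.pi / 2)) :=
            add_le_add (kernel_bd ha hb) (kernel_bd hc hd)
        _ = ENNReal.ofReal (2 * (K * (Real.pi / 2))) := by
            rw [← ENNReal.ofReal_add (by positivity) (by positivity)]
            congr 1
            ring
    refine (ho1 j).trans ((add_le_add (tri _ _ _ _ (norm_at (hv j) o) (norm_at hw o) (ho2 j).2 ho3.2)
      (tri _ _ _ _ (norm_at (hv j) o) (norm_at hw o) (ho2 j).1 ho3.1)).trans ?_)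
    rw [← ENNReal.ofReal_add (by positivity) (by positivity)]
    apply ENNReal.ofReal_le_ofReal
    linarith
  -- measurability
  have mflx : ∀ j, AEMeasurable (fun q : Om × E3 => ENNReal.ofReal |flx C θ (v j) q.2 q.1 - flx C θ w q.2 q.1|)
      (C.μ.prod PP) := fun j =>
    ((flux_meas C (hv j) hLθ).1.sub (flux_meas C hw hLθ).1).norm.aemeasurable.ennreal_ofReal
  have hDm : ∀ j, AEMeasurable (D j) C.μ := fun j => (mflx j).lintegral_prod_right'
  have hlim : Tendsto (fun j => ∫⁻ o, D j o ∂C.μ) atTop (𝓝 0) := by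
    have h := tendsto_lintegral_of_dominated_convergence' (F := D) (f := fun _ => 0)
      (fun _ => ENNReal.ofReal (4 * (K * (Real.pi / 2)))) hDm hDb (by
        rw [lintegral_const]
        exact (ENNReal.mul_lt_top ENNReal.ofReal_lt_top (measure_lt_top _ _)).ne) hDt
    rwa [lintegral_zero] at h
  -- the outer integral
  have hle : ∀ j, ∫⁻ p, ENNReal.ofReal |Flux C θ (v j) p - Flux C θ w p| ∂PP ≤ ∫⁻ o, D j o ∂C.μ := by
    intro j
    have i1 := (flux_meas C (hv j) hLθ).2.1.prod_left_ae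
    have i2 := (flux_meas C hw hLθ).2.1.prod_left_ae
    calc ∫⁻ p, ENNReal.ofReal |Flux C θ (v j) p - Flux C θ w p| ∂PP
        ≤ ∫⁻ p, (∫⁻ o, ENNReal.ofReal |flx C θ (v j) p o - flx C θ w p o| ∂C.μ) ∂PP := by
          refine lintegral_mono_ae ?_
          filter_upwards [i1, i2] with p h1 h2
          unfold Flux
          rw [← integral_sub h1 h2, ← Real.enorm_eq_ofReal_abs]
          refine (enorm_integral_le_lintegral_enorm _).trans (le_of_eq ?_)
          refine lintegral_congr fun o => ?_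
          rw [Real.enorm_eq_ofReal_abs]
      _ = ∫⁻ o, D j o ∂C.μ := by
          rw [hD]
          exact (lintegral_lintegral_swap (f := fun o p =>
            ENNReal.ofReal |flx C θ (v j) p o - flx C θ w p o|) (mflx j)).symm
  have hz : Tendsto (fun j => (∫⁻ o, D j o ∂C.μ).toReal) atTop (𝓝 0) := by
    have h := (ENNReal.tendsto_toReal ENNReal.zero_ne_top).comp hlim
    rw [ENNReal.toReal_zero] at h
    exact h
  refine squeeze_zero (fun j => integral_nonneg fun p => abs_nonneg _) (fun j => ?_) hz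
  have hfin : ∫⁻ o, D j o ∂C.μ ≠ ⊤ := by
    refine ne_top_of_le_ne_top ?_ (lintegral_mono_ae (hDb j))
    rw [lintegral_const]
    exact (ENNReal.mul_lt_top ENNReal.ofReal_lt_top (measure_lt_top _ _)).ne
  have hms : AEStronglyMeasurable (fun p => |Flux C θ (v j) p - Flux C θ w p|) PP :=
    ((flux_meas C (hv j) hLθ).2.2.sub (flux_meas C hw hLθ).2.2).norm.aestronglyMeasurable
  rw [integral_eq_lintegral_of_nonneg_ae (Eventually.of_forall fun p => abs_nonneg _) hms]
  exact ENNReal.toReal_mono hfin (hle j)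

end Pool.Agent.FPX
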