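import Mathlib

/-
SMX: the softmax of finitely many real numbers: it is a partition of unity, its mean is close to the
maximum, and it is a Lipschitz function.
-/

open Finset

noncomputable section

namespace Pool.Agent.FPX

variable {m : ℕ}

/-- softmax weights -/
def smx (β : ℝ) (Φ : Fin m → ℝ) (i : Fin m) : ℝ :=
  Real.exp (β * Φ i) / ∑ j, Real.exp (β * Φ j)

theorem smx_nonneg (β : ℝ) (Φ : Fin m → ℝ) (i : Fin m) : 0 ≤ smx β Φ i := by
  unfold smx
  positivity

theorem smx_den_pos (β : ℝ) (Φ : Fin m → ℝ) (i : Fin m) : 0 < ∑ j, Real.exp (β * Φ j) :=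
  Finset.sum_pos (fun _ _ => Real.exp_pos _) ⟨i, Finset.mem_univ i⟩

theorem smx_sum (β : ℝ) (Φ : Fin (m + 1) → ℝ) : ∑ i, smx β Φ i = 1 := by
  unfold smx
  rw [← Finset.sum_div]
  exact div_self (smx_den_pos β Φ 0).ne'

theorem smx_le_one (β : ℝ) (Φ : Fin m → ℝ) (i : Fin m) : smx β Φ i ≤ 1 := by
  unfold smx
  rw [div_le_one (smx_den_pos β Φ i)]
  exact Finset.single_le_sum (f := fun j => Real.exp (β * Φ j)) (fun j _ => (Real.exp_pos _).le)
    (Finset.mem_univ i)

private theorem SMX_exp {β t : ℝ} (hβ : 0 < β) : Real.exp (-(β * t)) * t ≤ 1 / β := by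
  have h1 : β * t ≤ Real.exp (β * t) := by
    have := Real.add_one_le_exp (β * t)
    linarith
  rw [Real.exp_neg, le_div_iff₀ hβ]
  have h2 := Real.exp_pos (β * t)
  calc (Real.exp (β * t))⁻¹ * t * β = (Real.exp (β * t))⁻¹ * (β * t) := by ring
    _ ≤ (Real.exp (β * t))⁻¹ * Real.exp (β * t) := mul_le_mul_of_nonneg_left h1 (by positivity)
    _ = 1 := inv_mul_cancel₀ h2.ne'

/-- the mean of the numbers is close to their maximum -/
theorem smx_mean {β : ℝ} (hβ : 0 < β) (Φ : Fin (m + 1) → ℝ) (k : Fin (m + 1)) :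
    Φ k - (m + 1) / β ≤ ∑ i, smx β Φ i * Φ i := by
  have hD := smx_den_pos β Φ k
  have h1 : ∀ i, smx β Φ i * (Φ k - Φ i) ≤ 1 / β := by
    intro i
    have h2 : Real.exp (β * Φ k) ≤ ∑ j, Real.exp (β * Φ j) :=
      Finset.single_le_sum (f := fun j => Real.exp (β * Φ j)) (fun j _ => (Real.exp_pos _).le)
        (Finset.mem_univ k)
    rcases le_or_gt (Φ k - Φ i) 0 with h | h
    · have : smx β Φ i * (Φ k - Φ i) ≤ 0 := mul_nonpos_of_nonneg_of_nonpos (smx_nonneg β Φ i) h
      have h3 : 0 ≤ 1 / β := by positivity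
      linarith
    · have h4 : smx β Φ i ≤ Real.exp (-(β * (Φ k - Φ i))) := by
        unfold smx
        rw [div_le_iff₀ hD]
        calc Real.exp (β * Φ i) = Real.exp (-(β * (Φ k - Φ i))) * Real.exp (β * Φ k) := by
              rw [← Real.exp_add]
              congr 1
              ring
          _ ≤ _ := mul_le_mul_of_nonneg_left h2 (Real.exp_pos _).le
      exact (mul_le_mul_of_nonneg_right h4 h.le).trans (SMX_exp hβ)
  have h5 : ∑ i, smx β Φ i * (Φ k - Φ i) ≤ ∑ _i : Fin (m + 1), 1 / β := Finset.sum_le_sum fun i _ => h1 i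
  have h6 : ∑ i, smx β Φ i * (Φ k - Φ i) = Φ k - ∑ i, smx β Φ i * Φ i := by
    calc ∑ i, smx β Φ i * (Φ k - Φ i) = (∑ i, smx β Φ i) * Φ k - ∑ i, smx β Φ i * Φ i := by
          rw [Finset.sum_mul, ← Finset.sum_sub_distrib]
          exact Finset.sum_congr rfl fun i _ => by ring
      _ = _ := by rw [smx_sum, one_mul]
  rw [h6, Finset.sum_const, Finset.card_univ, Fintype.card_fin, nsmul_eq_mul] at h5
  push_cast at h5
  rw [mul_one_div] at h5
  linarith

private theorem SMX_expdiff (x y : ℝ) : |Real.exp x - Real.exp y| ≤ |x - y| * (Real.exp x + Real.exp y) := by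
  wlog h : y ≤ x generalizing x y
  · have := this y x (by linarith)
    rw [abs_sub_comm, abs_sub_comm y x] at this
    linarith
  have h1 : Real.exp y ≤ Real.exp x := Real.exp_le_exp.2 h
  rw [abs_of_nonneg (by linarith), abs_of_nonneg (by linarith)]
  have h2 := Real.add_one_le_exp (y - x)
  have h3 : Real.exp (y - x) * Real.exp x = Real.exp y := by
    rw [← Real.exp_add]
    congr 1
    ring
  have h4 := Real.exp_pos x
  have h5 := Real.exp_pos y
  nlinarith [mul_le_mul_of_nonneg_right h2 h4.le, mul_nonneg (sub_nonneg.2 h) h5.le]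

/-- softmax is Lipschitz -/
theorem smx_lip {β : ℝ} (hβ : 0 ≤ β) (Φ Ψ : Fin m → ℝ) (i : Fin m) :
    |smx β Φ i - smx β Ψ i| ≤ 2 * β * ∑ j, (|Φ j - Ψ j| + |Φ i - Ψ i|) := by
  have key : ∀ Φ : Fin m → ℝ, smx β Φ i = 1 / ∑ j, Real.exp (β * Φ j - β * Φ i) := by
    intro Φ
    unfold smx
    have : ∀ j, Real.exp (β * Φ j - β * Φ i) = Real.exp (β * Φ j) / Real.exp (β * Φ i) := fun j =>
      Real.exp_sub _ _
    simp_rw [this]
    rw [← Finset.sum_div, one_div_div]
  have hone : ∀ Φ : Fin m → ℝ, 1 ≤ ∑ j, Real.exp (β * Φ j - β * Φ i) := by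
    intro Φ
    have := Finset.single_le_sum (f := fun j => Real.exp (β * Φ j - β * Φ i))
      (fun j _ => (Real.exp_pos _).le) (Finset.mem_univ i)
    simpa using this
  rw [key, key]
  set D := ∑ j, Real.exp (β * Φ j - β * Φ i) with hD
  set D' := ∑ j, Real.exp (β * Ψ j - β * Ψ i) with hD'
  have h1 := hone Φ
  have h2 := hone Ψ
  rw [← hD] at h1
  rw [← hD'] at h2
  have hDp : 0 < D := by linarith
  have hDp' : 0 < D' := by linarith
  rw [div_sub_div _ _ hDp.ne' hDp'.ne', abs_div, abs_of_pos (mul_pos hDp hDp'), div_le_iff₀ (mul_pos hDp hDp')]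
  have h3 : |1 * D' - D * 1| ≤ ∑ j, |Real.exp (β * Φ j - β * Φ i) - Real.exp (β * Ψ j - β * Ψ i)| := by
    rw [one_mul, mul_one, abs_sub_comm, hD, hD', ← Finset.sum_sub_distrib]
    exact Finset.abs_sum_le_sum_abs _ _
  refine h3.trans ?_
  have h4 : ∀ j, |Real.exp (β * Φ j - β * Φ i) - Real.exp (β * Ψ j - β * Ψ i)| ≤
      2 * β * (|Φ j - Ψ j| + |Φ i - Ψ i|) * (D * D') := by
    intro j
    refine (SMX_expdiff _ _).trans ?_
    have e1 : Real.exp (β * Φ j - β * Φ i) ≤ D :=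
      Finset.single_le_sum (f := fun j => Real.exp (β * Φ j - β * Φ i))
        (fun j _ => (Real.exp_pos _).le) (Finset.mem_univ j)
    have e2 : Real.exp (β * Ψ j - β * Ψ i) ≤ D' :=
      Finset.single_le_sum (f := fun j => Real.exp (β * Ψ j - β * Ψ i))
        (fun j _ => (Real.exp_pos _).le) (Finset.mem_univ j)
    have e3 : |β * Φ j - β * Φ i - (β * Ψ j - β * Ψ i)| ≤ β * (|Φ j - Ψ j| + |Φ i - Ψ i|) := by
      have : β * Φ j - β * Φ i - (β * Ψ j - β * Ψ i) = β * ((Φ j - Ψ j) - (Φ i - Ψ i)) := by ring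
      rw [this, abs_mul, abs_of_nonneg hβ]
      exact mul_le_mul_of_nonneg_left (abs_sub _ _) hβ
    have e4 : Real.exp (β * Φ j - β * Φ i) + Real.exp (β * Ψ j - β * Ψ i) ≤ 2 * (D * D') := by
      nlinarith
    calc _ ≤ β * (|Φ j - Ψ j| + |Φ i - Ψ i|) * (2 * (D * D')) :=
          mul_le_mul e3 e4 (by positivity) (by positivity)
      _ = _ := by ring
  calc _ ≤ ∑ j, 2 * β * (|Φ j - Ψ j| + |Φ i - Ψ i|) * (D * D') := Finset.sum_le_sum fun j _ => h4 j
    _ = _ := by
      rw [← Finset.sum_mul]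
      congr 1
      rw [Finset.mul_sum]

end Pool.Agent.FPX
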