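import Mathlib
import Pool.Agent.FPX.FME
import Pool.Agent.FPX.SEL
import Pool.Agent.FPX.FCT
import Pool.Agent.FPX.SMX
import Pool.Agent.FPX.VEC
import Pool.Agent.BRW.BFIX

/-
FIX (helper81): existence of a fixed point `v = V(s, Θ)`, `s = σ(s, Θ)`, `Θ = (8/π) E[θ_p p]` with
almost maximal flux. Softmax selection among finitely many potentials, and Brouwer's theorem.
-/

open MeasureTheory Set Filter Topology
open scoped ENNReal NNReal

noncomputable section

namespace Pool.Agent.FPX

open Pool.Agent.EWD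

variable {M : Type} [MetricSpace M] {γ : ℝ → M}

/-- `∑ aᵢ θᵢ` is a map of the class `Pre` if the coefficients are small -/
theorem pre_comb {n : ℕ} {th : Fin n → M → ℝ} (hth : ∀ i, Adm γ (th i)) {a : Fin n → Fin 3 → ℝ}
    (ha : ∀ k, ∑ i, |a i k| ≤ 8 / Real.pi) : Pre γ (comb a th) := by
  have hpi := Real.pi_gt_three
  have h3 : 8 / Real.pi ≤ 3 := by
    rw [div_le_iff₀ (by positivity)]
    linarith
  refine ⟨fun k => ?_, fun k t => ?_, fun k x => ?_⟩
  · refine LipschitzWith.of_dist_le_mul fun x y => ?_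
    rw [Real.dist_eq]
    unfold comb
    rw [← Finset.sum_sub_distrib]
    calc |∑ i, (a i k * th i x - a i k * th i y)| ≤ ∑ i, |a i k * th i x - a i k * th i y| :=
          Finset.abs_sum_le_sum_abs _ _
      _ ≤ ∑ i, |a i k| * dist x y := by
          refine Finset.sum_le_sum fun i _ => ?_
          rw [← mul_sub, abs_mul]
          refine mul_le_mul_of_nonneg_left ?_ (abs_nonneg _)
          have := (hth i).lip.dist_le_mul x y
          rwa [Real.dist_eq, NNReal.coe_one, one_mul] at this
      _ = (∑ i, |a i k|) * dist x y := by rw [Finset.sum_mul]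
      _ ≤ 3 * dist x y := mul_le_mul_of_nonneg_right ((ha k).trans h3) dist_nonneg
      _ = _ := by norm_num
  · unfold comb
    rw [← Finset.sum_neg_distrib]
    refine Finset.sum_congr rfl fun i _ => ?_
    rw [(hth i).odd t]
    ring
  · unfold comb
    calc |∑ i, a i k * th i x| ≤ ∑ i, |a i k * th i x| := Finset.abs_sum_le_sum_abs _ _
      _ ≤ ∑ i, |a i k| * (Real.pi / 2) := by
          refine Finset.sum_le_sum fun i _ => ?_
          rw [abs_mul]
          exact mul_le_mul_of_nonneg_left ((hth i).bd x) (abs_nonneg _)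
      _ = (∑ i, |a i k|) * (Real.pi / 2) := by rw [Finset.sum_mul]
      _ ≤ 8 / Real.pi * (Real.pi / 2) := mul_le_mul_of_nonneg_right (ha k) (by positivity)
      _ = 4 := by
          field_simp
          norm_num

theorem lip_of_adm {θ : M → ℝ} (h : Adm γ θ) : Lip θ := ⟨1, h.lip⟩

/-- coordinates of `p` are bounded -/
theorem ae_coord : ∀ᵐ p ∂PP, ∀ k : Fin 3, |(p : E3) k| ≤ 1 := by
  filter_upwards [ae_norm] with p hp k
  have h := EuclideanSpace.real_norm_sq_eq p
  rw [hp, one_pow] at h
  have h2 : p k ^ 2 ≤ ∑ i, p i ^ 2 := Finset.single_le_sum (f := fun i => p i ^ 2)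
    (fun i _ => sq_nonneg _) (Finset.mem_univ k)
  rw [← h] at h2
  exact abs_le_one_iff_mul_self_le_one.2 (by linarith [sq (p k)])

/-- the coefficients of a partition of unity -/
theorem coef_le {n : ℕ} {l : E3 → Fin n → ℝ} (hm : ∀ i, Measurable fun p => l p i)
    (hn : ∀ p i, 0 ≤ l p i) (hs : ∀ p, ∑ i, l p i = 1) (k : Fin 3) :
    ∑ i, |8 / Real.pi * ∫ p, l p i * p k ∂PP| ≤ 8 / Real.pi := by
  have hl1 : ∀ p i, l p i ≤ 1 := by
    intro p i
    rw [← hs p]
    exact Finset.single_le_sum (f := fun i => l p i) (fun i _ => hn p i) (Finset.mem_univ i)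
  have hint : ∀ i, Integrable (fun p => l p i) PP := by
    intro i
    refine Integrable.of_bound (hm i).aestronglyMeasurable 1 (Eventually.of_forall fun p => ?_)
    rw [Real.norm_eq_abs, abs_of_nonneg (hn p i)]
    exact hl1 p i
  have h1 : ∀ i, |∫ p, l p i * p k ∂PP| ≤ ∫ p, l p i ∂PP := by
    intro i
    rw [← Real.norm_eq_abs]
    refine norm_integral_le_of_norm_le (hint i) ?_
    filter_upwards [ae_coord] with p hp
    rw [Real.norm_eq_abs, abs_mul, abs_of_nonneg (hn p i)]
    exact mul_le_of_le_one_right (hn p i) (hp k)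
  have h2 : ∑ i, ∫ p, l p i ∂PP = 1 := by
    rw [← integral_finsetSum _ fun i _ => hint i]
    simp_rw [hs]
    simp
  have hpi : 0 < 8 / Real.pi := by positivity
  calc ∑ i, |8 / Real.pi * ∫ p, l p i * p k ∂PP| = ∑ i, 8 / Real.pi * |∫ p, l p i * p k ∂PP| := by
        refine Finset.sum_congr rfl fun i _ => ?_
        rw [abs_mul, abs_of_pos hpi]
    _ ≤ ∑ i, 8 / Real.pi * ∫ p, l p i ∂PP :=
        Finset.sum_le_sum fun i _ => mul_le_mul_of_nonneg_left (h1 i) hpi.le
    _ = 8 / Real.pi := by rw [← Finset.mul_sum, h2, mul_one]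

theorem Fam.Th_eq (F : Fam γ) : F.Th = comb (fun i k => 8 / Real.pi * ∫ p, F.lam p i * p k ∂PP) F.th := by
  funext k x
  have hl1 : ∀ p i, F.lam p i ≤ 1 := by
    intro p i
    rw [← F.sum p]
    exact Finset.single_le_sum (f := fun i => F.lam p i) (fun i _ => F.nonneg p i) (Finset.mem_univ i)
  have hmk : Measurable fun p : E3 => p k := by fun_prop
  have hint : ∀ i, Integrable (fun p => F.lam p i * p k) PP := by
    intro i
    refine Integrable.of_bound ((F.meas i).mul hmk).aestronglyMeasurable 1 ?_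
    filter_upwards [ae_coord] with p hp
    rw [Real.norm_eq_abs, abs_mul, abs_of_nonneg (F.nonneg p i)]
    exact mul_le_one₀ (hl1 p i) (abs_nonneg _) (hp k)
  unfold Fam.Th Fam.f comb
  have h1 : ∀ p : E3, (∑ i, F.lam p i * F.th i x) * p k = ∑ i, (F.lam p i * p k) * F.th i x := by
    intro p
    rw [Finset.sum_mul]
    exact Finset.sum_congr rfl fun i _ => by ring
  simp_rw [h1]
  rw [integral_finsetSum _ fun i _ => (hint i).mul_const _, Finset.mul_sum]
  refine Finset.sum_congr rfl fun i _ => ?_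
  rw [integral_mul_const]
  ring

theorem Fam.pre (F : Fam γ) : Pre γ F.Th := by
  rw [F.Th_eq]
  exact pre_comb F.adm fun k => coef_le F.meas F.nonneg F.sum k

variable [CompactSpace M]

open Classical in
/-- the fluxes, made measurable -/
def PhM (C : Calc M γ) {m : ℕ} (th : Fin m → M → ℝ) (v : Fin 3 → M → ℝ) (i : Fin m) : E3 → ℝ :=
  if h : AEStronglyMeasurable (fun p => Flux C (th i) v p) PP then h.mk else fun _ => 0

omit [CompactSpace M] in
theorem PhM_meas (C : Calc M γ) {m : ℕ} (th : Fin m → M → ℝ) (v : Fin 3 → M → ℝ) (i : Fin m) :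
    Measurable (PhM C th v i) := by
  unfold PhM
  split_ifs with h
  · exact h.stronglyMeasurable_mk.measurable
  · exact measurable_const

theorem PhM_ae (C : Calc M γ) {m : ℕ} {th : Fin m → M → ℝ} (hth : ∀ i, Adm γ (th i))
    {v : Fin 3 → M → ℝ} (hv : Sph γ v) : ∀ᵐ p ∂PP, ∀ i, PhM C th v i p = Flux C (th i) v p := by
  rw [ae_all_iff]
  intro i
  have h := (flux_meas C hv (lip_of_adm (hth i))).2.2.aestronglyMeasurable
  unfold PhM
  rw [dif_pos h]
  filter_upwards [h.ae_eq_mk] with p hp
  exact hp.symm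

/-- the family selected by the softmax -/
def famS (C : Calc M γ) {m : ℕ} (th : Fin (m + 1) → M → ℝ) (hth : ∀ i, Adm γ (th i)) (β : ℝ)
    (v : Fin 3 → M → ℝ) : Fam γ where
  n := m + 1
  th := th
  adm := hth
  lam := fun p i => smx β (fun j => PhM C th v j p) i
  meas := by
    intro i
    have h : ∀ j, Measurable fun p => Real.exp (β * PhM C th v j p) := fun j =>
      Real.measurable_exp.comp ((PhM_meas C th v j).const_mul β)
    exact (h i).div (Finset.measurable_fun_sum _ fun j _ => h j)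
  nonneg := fun p i => smx_nonneg _ _ _
  sum := fun p => smx_sum _ _

omit [CompactSpace M] in
/-- the flux of a finite combination -/
theorem flux_comb (C : Calc M γ) {m : ℕ} {th : Fin m → M → ℝ} (hth : ∀ i, Adm γ (th i))
    {v : Fin 3 → M → ℝ} {p : E3} (hi : ∀ i, Integrable (fun o => flx C (th i) v p o) C.μ)
    (l : Fin m → ℝ) :
    Flux C (fun x => ∑ i, l i * th i x) v p = ∑ i, l i * Flux C (th i) v p := by
  have h : ∀ᵐ o ∂C.μ, ∀ i, HasDerivAt (fun s => th i (C.px o s)) (C.gx (th i) o) 0 ∧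
      HasDerivAt (fun s => th i (C.py o s)) (C.gy (th i) o) 0 :=
    ae_all_iff.mpr fun i => C.ae_has (lip_of_adm (hth i))
  unfold Flux
  have h1 : ∫ o, flx C (fun x => ∑ i, l i * th i x) v p o ∂C.μ
      = ∫ o, ∑ i, l i * flx C (th i) v p o ∂C.μ := by
    refine integral_congr_ae ?_
    filter_upwards [h] with o ho
    have e1 : C.gx (fun x => ∑ i, l i * th i x) o = ∑ i, l i * C.gx (th i) o :=
      (HasDerivAt.fun_sum fun i _ => (ho i).1.const_mul (l i)).deriv
    have e2 : C.gy (fun x => ∑ i, l i * th i x) o = ∑ i, l i * C.gy (th i) o :=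
      (HasDerivAt.fun_sum fun i _ => (ho i).2.const_mul (l i)).deriv
    simp only [flx]
    rw [e1, e2, Finset.sum_mul, Finset.sum_mul, ← Finset.sum_sub_distrib, Finset.sum_div]
    refine Finset.sum_congr rfl fun i _ => ?_
    ring
  rw [h1, integral_finsetSum _ fun i _ => (hi i).const_mul _]
  refine Finset.sum_congr rfl fun i _ => ?_
  rw [integral_const_mul]

theorem flux_max_integrable (C : Calc M γ) {m : ℕ} {th : Fin (m + 1) → M → ℝ}
    (hth : ∀ i, Adm γ (th i)) {v : Fin 3 → M → ℝ} (hv : Sph γ v) :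
    Integrable (fun p => Finset.univ.sup' Finset.univ_nonempty
      (fun i : Fin (m + 1) => Flux C (th i) v p)) PP := by
  have hfm := fun i => (flux_meas C hv (lip_of_adm (hth i))).2.2
  have h1 : Measurable (fun p => Finset.univ.sup' Finset.univ_nonempty
      (fun i : Fin (m + 1) => PhM C th v i p)) := by
    have h2 := Finset.measurable_sup' (s := (Finset.univ : Finset (Fin (m + 1))))
      Finset.univ_nonempty (f := fun i => PhM C th v i) fun i _ => PhM_meas C th v i
    have e : (fun p => Finset.univ.sup' Finset.univ_nonempty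
      (fun i : Fin (m + 1) => PhM C th v i p)) = Finset.univ.sup' Finset.univ_nonempty
        (fun i : Fin (m + 1) => PhM C th v i) := by
      funext p
      rw [Finset.sup'_apply]
    rw [e]
    exact h2
  have h3 : (fun p => Finset.univ.sup' Finset.univ_nonempty
      (fun i : Fin (m + 1) => PhM C th v i p)) =ᵐ[PP] (fun p => Finset.univ.sup' Finset.univ_nonempty
      (fun i : Fin (m + 1) => Flux C (th i) v p)) := by
    filter_upwards [PhM_ae C hth hv] with p hp
    simp only [hp]
  have hs : Integrable (fun p => ∑ i, |Flux C (th i) v p|) PP :=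
    integrable_finsetSum _ fun i _ => (hfm i).abs
  refine hs.mono' (h1.aestronglyMeasurable.congr h3) (Eventually.of_forall fun p => ?_)
  rw [Real.norm_eq_abs]
  obtain ⟨i, -, hi⟩ := Finset.exists_mem_eq_sup' (s := (Finset.univ : Finset (Fin (m + 1))))
    Finset.univ_nonempty (fun i => Flux C (th i) v p)
  rw [hi]
  exact Finset.single_le_sum (f := fun i => |Flux C (th i) v p|) (fun _ _ => abs_nonneg _)
    (Finset.mem_univ i)

/-- the flux of the selected family is almost maximal -/
theorem famS_flux (C : Calc M γ) {m : ℕ} {th : Fin (m + 1) → M → ℝ} (hth : ∀ i, Adm γ (th i)) {β : ℝ}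
    (hβ : 0 < β) {v : Fin 3 → M → ℝ} (hv : Sph γ v) :
    (∫ p, Finset.univ.sup' Finset.univ_nonempty (fun i : Fin (m + 1) => Flux C (th i) v p) ∂PP)
      - (m + 1) / β ≤ ∫ p, Flux C ((famS C th hth β v).f p) v p ∂PP := by
  have hfm := fun i => flux_meas C hv (lip_of_adm (hth i))
  have hmax := flux_max_integrable C hth hv
  -- the flux of the mean
  have hlin : ∀ᵐ p ∂PP, Flux C ((famS C th hth β v).f p) v p
      = ∑ i, smx β (fun j => Flux C (th j) v p) i * Flux C (th i) v p := by
    have hint : ∀ᵐ p ∂PP, ∀ i, Integrable (fun o => flx C (th i) v p o) C.μ := by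
      rw [ae_all_iff]
      intro i
      have := C.fin
      exact (hfm i).2.1.prod_left_ae
    filter_upwards [hint, PhM_ae C hth hv] with p hp hP
    have h1 : (famS C th hth β v).f p = fun x => ∑ i, smx β (fun j => Flux C (th j) v p) i * th i x := by
      funext x
      unfold Fam.f famS
      refine Finset.sum_congr rfl fun i _ => ?_
      simp only
      congr 2
      funext j
      exact hP j
    rw [h1, flux_comb C hth hp]
  have hge : ∀ p, Finset.univ.sup' Finset.univ_nonempty (fun i : Fin (m + 1) => Flux C (th i) v p)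
      - (m + 1) / β ≤ ∑ i, smx β (fun j => Flux C (th j) v p) i * Flux C (th i) v p := by
    intro p
    obtain ⟨i, -, hi⟩ := Finset.exists_mem_eq_sup' (s := (Finset.univ : Finset (Fin (m + 1))))
      Finset.univ_nonempty (fun i => Flux C (th i) v p)
    rw [hi]
    exact smx_mean hβ (fun j => Flux C (th j) v p) i
  have hint2 : Integrable (fun p => Flux C ((famS C th hth β v).f p) v p) PP := by
    have hs : Integrable (fun p => ∑ i, |Flux C (th i) v p|) PP :=
      integrable_finsetSum _ fun i _ => (hfm i).2.2.abs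
    have hm : AEStronglyMeasurable (fun p => Flux C ((famS C th hth β v).f p) v p) PP := by
      have h1 : Measurable (fun p => ∑ i, (famS C th hth β v).lam p i * PhM C th v i p) :=
        Finset.measurable_fun_sum _ fun i _ => ((famS C th hth β v).meas i).mul (PhM_meas C th v i)
      refine h1.aestronglyMeasurable.congr ?_
      filter_upwards [hlin, PhM_ae C hth hv] with p hp hP
      rw [hp]
      unfold famS
      simp only
      refine Finset.sum_congr rfl fun i _ => ?_
      rw [hP i]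
      congr 2
      funext j
      exact hP j
    refine hs.mono' hm ?_
    filter_upwards [hlin] with p hp
    rw [hp, Real.norm_eq_abs]
    refine (Finset.abs_sum_le_sum_abs _ _).trans (Finset.sum_le_sum fun i _ => ?_)
    rw [abs_mul, abs_of_nonneg (smx_nonneg _ _ _)]
    exact mul_le_of_le_one_left (abs_nonneg _) (smx_le_one _ _ _)
  calc _ = ∫ p, (Finset.univ.sup' Finset.univ_nonempty (fun i : Fin (m + 1) => Flux C (th i) v p)
        - (m + 1) / β) ∂PP := by
        rw [integral_sub hmax (integrable_const _)]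
        simp
    _ ≤ _ := by
        refine integral_mono_ae (hmax.sub (integrable_const _)) hint2 ?_
        filter_upwards [hlin] with p hp
        rw [hp]
        exact hge p

/-- the coefficients of the selected family depend continuously on the map -/
theorem famS_cont (C : Calc M γ) {m : ℕ} {th : Fin (m + 1) → M → ℝ} (hth : ∀ i, Adm γ (th i)) {β : ℝ}
    (hβ : 0 < β) {L : ℝ≥0} {v : ℕ → Fin 3 → M → ℝ} {w : Fin 3 → M → ℝ}
    (hv : ∀ j, Sph γ (v j)) (hw : Sph γ w) (hL : ∀ j k, LipschitzWith L (v j k))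
    (hc : ∀ᵐ o ∂C.μ, ∀ k, Tendsto (fun j => v j k (C.pt o)) atTop (𝓝 (w k (C.pt o))) ∧
      Tendsto (fun j => C.gx (v j k) o) atTop (𝓝 (C.gx (w k) o)) ∧
      Tendsto (fun j => C.gy (v j k) o) atTop (𝓝 (C.gy (w k) o))) (i : Fin (m + 1)) (k : Fin 3) :
    Tendsto (fun j => ∫ p, (famS C th hth β (v j)).lam p i * p k ∂PP) atTop
      (𝓝 (∫ p, (famS C th hth β w).lam p i * p k ∂PP)) := by
  have h0 := fun l => flux_cont C hv hw hL hc (hth l)
  have hS : Tendsto (fun j => 2 * β * ∑ l, ((∫ p, |Flux C (th l) (v j) p - Flux C (th l) w p| ∂PP)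
      + ∫ p, |Flux C (th i) (v j) p - Flux C (th i) w p| ∂PP)) atTop (𝓝 0) := by
    have h1 : Tendsto (fun j => ∑ l, ((∫ p, |Flux C (th l) (v j) p - Flux C (th l) w p| ∂PP)
      + ∫ p, |Flux C (th i) (v j) p - Flux C (th i) w p| ∂PP)) atTop (𝓝 (∑ _l : Fin (m + 1), (0 + 0 : ℝ))) :=
      tendsto_finsetSum _ fun l _ => (h0 l).add (h0 i)
    have h2 := h1.const_mul (2 * β)
    simpa using h2
  rw [tendsto_iff_dist_tendsto_zero]
  refine squeeze_zero (fun _ => dist_nonneg) (fun j => ?_) hS
  have hlm : ∀ u : Fin 3 → M → ℝ, Integrable (fun p => (famS C th hth β u).lam p i * p k) PP := by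
    intro u
    have hmk : Measurable fun p : E3 => p k := by fun_prop
    refine Integrable.of_bound (((famS C th hth β u).meas i).mul hmk).aestronglyMeasurable 1 ?_
    filter_upwards [ae_coord] with p hp
    rw [Real.norm_eq_abs, abs_mul, abs_of_nonneg ((famS C th hth β u).nonneg p i)]
    have h1 : (famS C th hth β u).lam p i ≤ 1 := smx_le_one β (fun j => PhM C th u j p) i
    exact mul_le_one₀ h1 (abs_nonneg _) (hp k)
  have hd : ∀ l, Integrable (fun p => |Flux C (th l) (v j) p - Flux C (th l) w p|) PP := fun l =>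
    ((flux_meas C (hv j) (lip_of_adm (hth l))).2.2.sub
      (flux_meas C hw (lip_of_adm (hth l))).2.2).abs
  have hdd : ∀ l, Integrable (fun p => |Flux C (th l) (v j) p - Flux C (th l) w p|
      + |Flux C (th i) (v j) p - Flux C (th i) w p|) PP := fun l => (hd l).add (hd i)
  rw [Real.dist_eq, ← integral_sub (hlm _) (hlm _)]
  calc |∫ p, ((famS C th hth β (v j)).lam p i * p k - (famS C th hth β w).lam p i * p k) ∂PP|
      ≤ ∫ p, 2 * β * ∑ l, (|Flux C (th l) (v j) p - Flux C (th l) w p|
          + |Flux C (th i) (v j) p - Flux C (th i) w p|) ∂PP := by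
        rw [← Real.norm_eq_abs]
        refine norm_integral_le_of_norm_le
          ((integrable_finsetSum _ fun l _ => hdd l).const_mul _) ?_
        filter_upwards [ae_coord, PhM_ae C hth (hv j), PhM_ae C hth hw] with p hp h1 h2
        rw [Real.norm_eq_abs, ← sub_mul, abs_mul]
        refine (mul_le_of_le_one_right (abs_nonneg _) (hp k)).trans ?_
        have h3 := smx_lip hβ.le (fun l => PhM C th (v j) l p) (fun l => PhM C th w l p) i
        simp only [h1, h2] at h3
        unfold famS
        simp only [h1, h2]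
        exact h3
    _ = _ := by
        rw [integral_const_mul, integral_finsetSum _ fun l _ => hdd l]
        congr 1
        refine Finset.sum_congr rfl fun l _ => ?_
        exact integral_add (hd l) (hd i)

/-- operators with a parameter `s` in `[0,1]`, and the update of the parameter -/
structure OpS (C : Calc M γ) where
  V : ℝ → (Fin 3 → M → ℝ) → (Fin 3 → M → ℝ)
  σ : ℝ → (Fin 3 → M → ℝ) → ℝ
  L : ℝ≥0
  sph : ∀ s ∈ Icc (0 : ℝ) 1, ∀ T, Pre γ T → Sph γ (V s T)
  lip : ∀ s ∈ Icc (0 : ℝ) 1, ∀ T, Pre γ T → ∀ k, LipschitzWith L (V s T k)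
  mem : ∀ s ∈ Icc (0 : ℝ) 1, ∀ T, Pre γ T → σ s T ∈ Icc (0 : ℝ) 1
  cont : ∀ (n : ℕ) (th : Fin n → M → ℝ), (∀ i, Adm γ (th i)) →
    ∀ (a : ℕ → Fin n → Fin 3 → ℝ) (a₀ : Fin n → Fin 3 → ℝ), Tendsto a atTop (𝓝 a₀) →
    ∀ (s : ℕ → ℝ) (s₀ : ℝ), (∀ j, s j ∈ Icc (0 : ℝ) 1) → s₀ ∈ Icc (0 : ℝ) 1 →
    Tendsto s atTop (𝓝 s₀) →
    (∀ j, Pre γ (comb (a j) th)) → Pre γ (comb a₀ th) →
    Tendsto (fun j => σ (s j) (comb (a j) th)) atTop (𝓝 (σ s₀ (comb a₀ th))) ∧
    ∀ᵐ o ∂C.μ, ∀ k,
      Tendsto (fun j => V (s j) (comb (a j) th) k (C.pt o)) atTop (𝓝 (V s₀ (comb a₀ th) k (C.pt o))) ∧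
      Tendsto (fun j => C.gx (V (s j) (comb (a j) th) k) o) atTop
        (𝓝 (C.gx (V s₀ (comb a₀ th) k) o)) ∧
      Tendsto (fun j => C.gy (V (s j) (comb (a j) th) k) o) atTop
        (𝓝 (C.gy (V s₀ (comb a₀ th) k) o))

omit [CompactSpace M] in
/-- without a parameter -/
def Op.toS {C : Calc M γ} (V : Op C) : OpS C where
  V := fun _ => V.V
  σ := fun _ _ => 0
  L := V.L
  sph := fun _ _ => V.sph
  lip := fun _ _ => V.lip
  mem := fun _ _ _ _ => ⟨le_refl _, zero_le_one⟩
  cont := fun n th hth a a₀ ha _ _ _ _ _ h1 h2 =>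
    ⟨tendsto_const_nhds, V.cont n th hth a a₀ ha h1 h2⟩

/-- the fixed point, with a parameter -/
theorem fixpt_s (C : Calc M γ) (hγ : Bd γ) (hR : RegAE C) (V : OpS C) {ε : ℝ} (hε : 0 < ε) :
    ∃ (F : Fam γ) (s : ℝ), s ∈ Icc (0 : ℝ) 1 ∧ Pre γ F.Th ∧ V.σ s F.Th = s ∧
      Real.pi ^ 2 - ε ≤ ∫ p, Flux C (F.f p) (V.V s F.Th) p ∂PP := by
  obtain ⟨m, th, hth, hsel⟩ := select C hγ hR V.L (half_pos hε)
  set β : ℝ := 2 * (m + 1) / ε with hβd
  have hβ : 0 < β := by positivity
  have hmβ : (m + 1 : ℝ) / β = ε / 2 := by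
    rw [hβd]
    field_simp
  -- the coefficients as a vector, and the retraction
  set N : ℕ := (m + 1) * 3 with hN
  set ix : Fin (m + 1) → Fin 3 → Fin (N + 1) := fun i k => (finProdFinEquiv (i, k)).castSucc with hix
  set nu : EuclideanSpace ℝ (Fin (N + 1)) → Fin 3 → ℝ :=
    fun x k => Real.pi / 8 * ∑ i, |x (ix i k)| with hnu
  set A : EuclideanSpace ℝ (Fin (N + 1)) → Fin (m + 1) → Fin 3 → ℝ := fun x i k =>
    x (ix i k) / max 1 (nu x k) with hA
  set S : EuclideanSpace ℝ (Fin (N + 1)) → ℝ := fun x => max 0 (min 1 (x (Fin.last N))) with hS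
  have hS1 : ∀ x, S x ∈ Icc (0 : ℝ) 1 := fun x => ⟨le_max_left _ _, max_le zero_le_one (min_le_left _ _)⟩
  have hSc : Continuous S := by
    have h2 : Continuous fun x : EuclideanSpace ℝ (Fin (N + 1)) => x (Fin.last N) := by fun_prop
    exact continuous_const.max (continuous_const.min h2)
  have hA1 : ∀ x k, ∑ i, |A x i k| ≤ 8 / Real.pi := by
    intro x k
    have hpi := Real.pi_pos
    have hm1 : 0 < max 1 (nu x k) := lt_of_lt_of_le one_pos (le_max_left _ _)
    have h1 : ∑ i, |A x i k| = (∑ i, |x (ix i k)|) / max 1 (nu x k) := by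
      rw [Finset.sum_div]
      refine Finset.sum_congr rfl fun i _ => ?_
      simp only [hA]
      rw [abs_div, abs_of_pos hm1]
    rw [h1, div_le_iff₀ hm1]
    have h2 : nu x k ≤ max 1 (nu x k) := le_max_right _ _
    calc ∑ i, |x (ix i k)| = 8 / Real.pi * nu x k := by
          simp only [hnu]
          field_simp
      _ ≤ _ := mul_le_mul_of_nonneg_left h2 (by positivity)
  have hAc : Continuous A := by
    refine continuous_pi fun i => continuous_pi fun k => ?_
    have h1 : Continuous fun x : EuclideanSpace ℝ (Fin (N + 1)) => nu x k := by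
      simp only [hnu]
      fun_prop
    have h2 : Continuous fun x : EuclideanSpace ℝ (Fin (N + 1)) => x (ix i k) := by fun_prop
    exact h2.div (continuous_const.max h1) fun x => (lt_of_lt_of_le one_pos (le_max_left _ _)).ne'
  have hpre : ∀ x, Pre γ (comb (A x) th) := fun x => pre_comb hth (hA1 x)
  -- the map
  set cf : EuclideanSpace ℝ (Fin (N + 1)) → Fin (m + 1) → Fin 3 → ℝ := fun x i k =>
    8 / Real.pi * ∫ p, (famS C th hth β (V.V (S x) (comb (A x) th))).lam p i * p k ∂PP with hcf
  set f : EuclideanSpace ℝ (Fin (N + 1)) → EuclideanSpace ℝ (Fin (N + 1)) := fun x =>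
    WithLp.toLp 2 (Fin.snoc (α := fun _ => ℝ)
      (fun j : Fin N => cf x (finProdFinEquiv.symm j).1 (finProdFinEquiv.symm j).2)
      (V.σ (S x) (comb (A x) th))) with hf
  have hfix : ∀ x i k, f x (ix i k) = cf x i k := by
    intro x i k
    simp only [hf, hix]
    rw [Fin.snoc_castSucc, Equiv.symm_apply_apply]
  have hflast : ∀ x, f x (Fin.last N) = V.σ (S x) (comb (A x) th) := by
    intro x
    simp only [hf]
    rw [Fin.snoc_last]
  have hcf1 : ∀ x k, ∑ i, |cf x i k| ≤ 8 / Real.pi := by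
    intro x k
    exact coef_le (famS C th hth β (V.V (S x) (comb (A x) th))).meas
      (famS C th hth β (V.V (S x) (comb (A x) th))).nonneg
      (famS C th hth β (V.V (S x) (comb (A x) th))).sum k
  have hcont : Continuous f := by
    rw [continuous_iff_seqContinuous]
    intro u x hu
    have hAu : Tendsto (fun j => A (u j)) atTop (𝓝 (A x)) := (hAc.tendsto x).comp hu
    have hSu : Tendsto (fun j => S (u j)) atTop (𝓝 (S x)) := (hSc.tendsto x).comp hu
    obtain ⟨h0, h1⟩ := V.cont (m + 1) th hth (fun j => A (u j)) (A x) hAu (fun j => S (u j)) (S x)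
      (fun j => hS1 _) (hS1 x) hSu (fun j => hpre _) (hpre x)
    have h2 := fun i k => famS_cont C hth hβ (v := fun j => V.V (S (u j)) (comb (A (u j)) th))
      (w := V.V (S x) (comb (A x) th)) (fun j => V.sph _ (hS1 _) _ (hpre _))
      (V.sph _ (hS1 x) _ (hpre x))
      (fun j k => V.lip _ (hS1 _) _ (hpre _) k) h1 i k
    refine ((PiLp.continuous_toLp 2 _).tendsto _).comp (tendsto_pi_nhds.2 fun l => ?_)
    refine Fin.lastCases ?_ (fun l => ?_) l
    · simp only [Fin.snoc_last]
      exact h0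
    · simp only [Fin.snoc_castSucc]
      exact (h2 _ _).const_mul _
  have hmaps : MapsTo f (Metric.closedBall 0 6) (Metric.closedBall 0 6) := by
    intro x _
    rw [mem_closedBall_zero_iff]
    have hpi := Real.pi_gt_three
    have h3 : 8 / Real.pi ≤ 8 / 3 := div_le_div_of_nonneg_left (by norm_num) (by norm_num) hpi.le
    have h0 : 0 < 8 / Real.pi := by positivity
    have h1 : ∀ k, ∑ i, cf x i k ^ 2 ≤ (8 / 3) ^ 2 := by
      intro k
      calc ∑ i, cf x i k ^ 2 ≤ ∑ i, (8 / Real.pi) * |cf x i k| := by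
            refine Finset.sum_le_sum fun i _ => ?_
            have h4 : |cf x i k| ≤ 8 / Real.pi :=
              (Finset.single_le_sum (f := fun i => |cf x i k|) (fun _ _ => abs_nonneg _)
                (Finset.mem_univ i)).trans (hcf1 x k)
            rw [← sq_abs, sq]
            exact mul_le_mul_of_nonneg_right h4 (abs_nonneg _)
        _ = (8 / Real.pi) * ∑ i, |cf x i k| := by rw [Finset.mul_sum]
        _ ≤ (8 / Real.pi) * (8 / Real.pi) := mul_le_mul_of_nonneg_left (hcf1 x k) h0.le
        _ ≤ (8 / 3) * (8 / 3) := mul_le_mul h3 h3 h0.le (by norm_num)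
        _ = _ := by ring
    have hl : f x (Fin.last N) ^ 2 ≤ 1 := by
      rw [hflast]
      have h4 := V.mem _ (hS1 x) _ (hpre x)
      nlinarith [h4.1, h4.2]
    have h2 : ‖f x‖ ^ 2 ≤ 36 := by
      rw [EuclideanSpace.real_norm_sq_eq, Fin.sum_univ_castSucc]
      have h5 : ∑ j : Fin N, (f x j.castSucc) ^ 2 ≤ 25 := by
        calc ∑ j : Fin N, (f x j.castSucc) ^ 2
            = ∑ q : Fin (m + 1) × Fin 3, (f x (finProdFinEquiv q).castSucc) ^ 2 :=
              (Equiv.sum_comp finProdFinEquiv fun j => (f x j.castSucc) ^ 2).symm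
          _ = ∑ i, ∑ k, cf x i k ^ 2 := by
              rw [Fintype.sum_prod_type]
              refine Finset.sum_congr rfl fun i _ => Finset.sum_congr rfl fun k _ => ?_
              rw [← hfix x i k]
          _ = ∑ k, ∑ i, cf x i k ^ 2 := Finset.sum_comm
          _ ≤ ∑ _k : Fin 3, (8 / 3 : ℝ) ^ 2 := Finset.sum_le_sum fun k _ => h1 k
          _ ≤ 25 := by
              rw [Finset.sum_const, Finset.card_univ, Fintype.card_fin]
              norm_num
      linarith
    nlinarith [norm_nonneg (f x)]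
  obtain ⟨x, -, hx⟩ := BRW.brouwer (by norm_num : (0 : ℝ) ≤ 6) hcont.continuousOn hmaps
  -- the retractions are the identity at the fixed point
  have hAx : A x = cf x := by
    funext i k
    have h1 : ∀ i, x (ix i k) = cf x i k := fun i => by rw [← hfix, hx]
    have h2 : nu x k ≤ 1 := by
      simp only [hnu]
      simp_rw [h1]
      have h3 := mul_le_mul_of_nonneg_left (hcf1 x k) (by positivity : (0 : ℝ) ≤ Real.pi / 8)
      refine h3.trans (le_of_eq ?_)
      field_simp
    simp only [hA]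
    rw [max_eq_left h2, div_one, h1]
  have hSx : V.σ (S x) (comb (A x) th) = S x := by
    have h1 : x (Fin.last N) = V.σ (S x) (comb (A x) th) := by rw [← hflast, hx]
    have h2 := V.mem _ (hS1 x) _ (hpre x)
    have h3 : S x = x (Fin.last N) := by
      simp only [hS]
      rw [min_eq_right (by rw [h1]; exact h2.2), max_eq_right (by rw [h1]; exact h2.1)]
    rw [← h1, h3]
  set F : Fam γ := famS C th hth β (V.V (S x) (comb (A x) th)) with hF
  have hTh : F.Th = comb (A x) th := by
    rw [F.Th_eq]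
    change comb (cf x) th = comb (A x) th
    rw [hAx]
  refine ⟨F, S x, hS1 x, F.pre, ?_, ?_⟩
  · rw [hTh]
    exact hSx
  · rw [hTh]
    have hsph := V.sph _ (hS1 x) _ (hpre x)
    have h1 := famS_flux C hth hβ hsph
    have h2 := hsel _ hsph (V.lip _ (hS1 x) _ (hpre x))
    rw [hmβ] at h1
    linarith

/-- the fixed point -/
theorem fixpt (C : Calc M γ) (hγ : Bd γ) (hR : RegAE C) (V : Op C) {ε : ℝ} (hε : 0 < ε) :
    ∃ F : Fam γ, Pre γ F.Th ∧ Real.pi ^ 2 - ε ≤ ∫ p, Flux C (F.f p) (V.V F.Th) p ∂PP := by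
  obtain ⟨F, s, -, h1, -, h2⟩ := fixpt_s C hγ hR V.toS hε
  exact ⟨F, h1, h2⟩

end Pool.Agent.FPX
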