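import Mathlib
import Pool.Agent.FPX.FIX

/-
FIXC (helper11): the fixed point theorem for operators `V s Θ` that are only defined (as maps into
the sphere) where a continuous function `ψ s Θ ∈ [0,1]` is positive. The softmax is applied to
`ψ` times the fluxes. At the fixed point the flux is almost maximal if `ψ = 1` there.
(Used with `ψ` a cut-off of `min_x |(1-s)Θ(x) + sF(x)|`.)
-/

open MeasureTheory Set Filter Topology
open scoped ENNReal NNReal

noncomputable section

namespace Pool.Agent.FPX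

open Pool.Agent.EWD

variable {M : Type} [MetricSpace M] {γ : ℝ → M} [CompactSpace M]

/-- operators with a parameter `s` in `[0,1]`, defined where `ψ > 0` -/
structure OpC (C : Calc M γ) where
  V : ℝ → (Fin 3 → M → ℝ) → (Fin 3 → M → ℝ)
  σ : ℝ → (Fin 3 → M → ℝ) → ℝ
  ψ : ℝ → (Fin 3 → M → ℝ) → ℝ
  base : Fin 3 → M → ℝ
  L : ℝ≥0
  sph0 : Sph γ base
  lip0 : ∀ k, LipschitzWith L (base k)
  sph : ∀ s ∈ Icc (0 : ℝ) 1, ∀ T, Pre γ T → 0 < ψ s T → Sph γ (V s T)
  lip : ∀ s ∈ Icc (0 : ℝ) 1, ∀ T, Pre γ T → 0 < ψ s T → ∀ k, LipschitzWith L (V s T k)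
  mem : ∀ s ∈ Icc (0 : ℝ) 1, ∀ T, Pre γ T → σ s T ∈ Icc (0 : ℝ) 1
  memψ : ∀ s ∈ Icc (0 : ℝ) 1, ∀ T, Pre γ T → ψ s T ∈ Icc (0 : ℝ) 1
  cont : ∀ (n : ℕ) (th : Fin n → M → ℝ), (∀ i, Adm γ (th i)) →
    ∀ (a : ℕ → Fin n → Fin 3 → ℝ) (a₀ : Fin n → Fin 3 → ℝ), Tendsto a atTop (𝓝 a₀) →
    ∀ (s : ℕ → ℝ) (s₀ : ℝ), (∀ j, s j ∈ Icc (0 : ℝ) 1) → s₀ ∈ Icc (0 : ℝ) 1 →
    Tendsto s atTop (𝓝 s₀) →
    (∀ j, Pre γ (comb (a j) th)) → Pre γ (comb a₀ th) →
    Tendsto (fun j => σ (s j) (comb (a j) th)) atTop (𝓝 (σ s₀ (comb a₀ th))) ∧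
    Tendsto (fun j => ψ (s j) (comb (a j) th)) atTop (𝓝 (ψ s₀ (comb a₀ th))) ∧
    (0 < ψ s₀ (comb a₀ th) → ∀ᵐ o ∂C.μ, ∀ k,
      Tendsto (fun j => V (s j) (comb (a j) th) k (C.pt o)) atTop (𝓝 (V s₀ (comb a₀ th) k (C.pt o))) ∧
      Tendsto (fun j => C.gx (V (s j) (comb (a j) th) k) o) atTop
        (𝓝 (C.gx (V s₀ (comb a₀ th) k) o)) ∧
      Tendsto (fun j => C.gy (V (s j) (comb (a j) th) k) o) atTop
        (𝓝 (C.gy (V s₀ (comb a₀ th) k) o)))

omit [CompactSpace M] in
private theorem FIXC_smx_scale {m : ℕ} (β c : ℝ) (Φ : Fin m → ℝ) (i : Fin m) :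
    smx (β * c) Φ i = smx β (fun j => c * Φ j) i := by
  unfold smx
  simp only [mul_assoc]

omit [CompactSpace M] in
private theorem FIXC_norm_dx_le (C : Calc M γ) {L : ℝ≥0} {v : Fin 3 → M → ℝ}
    (hL : ∀ k, LipschitzWith L (v k)) :
    ∀ᵐ o ∂C.μ, ‖dx C v o‖ ≤ 2 * L ∧ ‖dy C v o‖ ≤ 2 * L := by
  have h : ∀ᵐ o ∂C.μ, ∀ k, C.gx (v k) o ^ 2 + C.gy (v k) o ^ 2 ≤ (L : ℝ) ^ 2 :=
    ae_all_iff.2 fun k => C.ae_grad_le (hL k)
  filter_upwards [h] with o ho
  have h0 := ho 0
  have h1 := ho 1
  have h2 := ho 2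
  have hL0 : (0 : ℝ) ≤ L := L.2
  constructor
  · have e : ‖dx C v o‖ ^ 2 ≤ (2 * L) ^ 2 := by
      rw [normsq3]
      change C.gx (v 0) o ^ 2 + C.gx (v 1) o ^ 2 + C.gx (v 2) o ^ 2 ≤ _
      nlinarith [sq_nonneg (C.gy (v 0) o), sq_nonneg (C.gy (v 1) o), sq_nonneg (C.gy (v 2) o)]
    exact le_of_sq_le_sq e (by positivity)
  · have e : ‖dy C v o‖ ^ 2 ≤ (2 * L) ^ 2 := by
      rw [normsq3]
      change C.gy (v 0) o ^ 2 + C.gy (v 1) o ^ 2 + C.gy (v 2) o ^ 2 ≤ _
      nlinarith [sq_nonneg (C.gx (v 0) o), sq_nonneg (C.gx (v 1) o), sq_nonneg (C.gx (v 2) o)]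
    exact le_of_sq_le_sq e (by positivity)

/-- the mean of the absolute flux is bounded in terms of the Lipschitz constant of the map -/
theorem flux_bd (C : Calc M γ) {L : ℝ≥0} {v : Fin 3 → M → ℝ} (hv : Sph γ v)
    (hL : ∀ k, LipschitzWith L (v k)) {θ : M → ℝ} (hθ : Adm γ θ) :
    ∫ p, |Flux C θ v p| ∂PP ≤ 4 * L * (Real.pi / 2) * (C.μ.real univ) := by
  have := C.fin
  obtain ⟨-, hi, hF⟩ := flux_meas C hv (lip_of_adm hθ)
  have hθ1 : ∀ᵐ o ∂C.μ, |C.gx θ o| ≤ 1 ∧ |C.gy θ o| ≤ 1 := by
    filter_upwards [C.ae_grad_le hθ.lip] with o ho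
    rw [NNReal.coe_one, one_pow] at ho
    constructor
    · exact abs_le_of_sq_le_sq (by nlinarith [sq_nonneg (C.gy θ o)]) zero_le_one
    · exact abs_le_of_sq_le_sq (by nlinarith [sq_nonneg (C.gx θ o)]) zero_le_one
  have hin : Integrable (fun o => ∫ p, |flx C θ v p o| ∂PP) C.μ := hi.abs.integral_prod_left
  calc ∫ p, |Flux C θ v p| ∂PP ≤ ∫ p, ∫ o, |flx C θ v p o| ∂C.μ ∂PP := by
        refine integral_mono hF.abs hi.abs.integral_prod_right fun p => ?_
        exact abs_integral_le_integral_abs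
    _ = ∫ o, ∫ p, |flx C θ v p o| ∂PP ∂C.μ := (integral_integral_swap hi.abs).symm
    _ ≤ ∫ _o, 4 * L * (Real.pi / 2) ∂C.μ := by
        refine integral_mono_ae hin (integrable_const _) ?_
        filter_upwards [hθ1, FIXC_norm_dx_le C hL] with o h1 h2
        have hu := norm_at (C := C) hv o
        have h3 : ∀ᵐ p ∂PP, |flx C θ v p o| ≤ 4 * L * (1 / √(sq2 (at' C v o) p)) := by
          filter_upwards [ae_norm, ae_sq2 (at' C v o) hu] with p h4 h5
          refine (abs_flx_le C hv θ h4 o h5).trans (mul_le_mul_of_nonneg_right ?_ (by positivity))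
          have hL0 : (0 : ℝ) ≤ L := L.2
          have e1 : |C.gx θ o| * ‖dy C v o‖ ≤ 1 * (2 * L) :=
            mul_le_mul h1.1 h2.2 (norm_nonneg _) zero_le_one
          have e2 : |C.gy θ o| * ‖dx C v o‖ ≤ 1 * (2 * L) :=
            mul_le_mul h1.2 h2.1 (norm_nonneg _) zero_le_one
          linarith
        calc ∫ p, |flx C θ v p o| ∂PP ≤ ∫ p, 4 * L * (1 / √(sq2 (at' C v o) p)) ∂PP := by
              refine integral_mono_of_nonneg (Eventually.of_forall fun _ => abs_nonneg _)
                ((int_inv hu).1.const_mul _) h3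
          _ = 4 * L * (Real.pi / 2) := by rw [integral_const_mul, (int_inv hu).2]
    _ = _ := by
        rw [integral_const, smul_eq_mul]
        ring

/-- the coefficients of the selected family depend continuously on the map and on the factor -/
private theorem FIXC_famS_cont (C : Calc M γ) {m : ℕ} {th : Fin (m + 1) → M → ℝ}
    (hth : ∀ i, Adm γ (th i)) {β : ℝ} (hβ : 0 < β) {v : ℕ → Fin 3 → M → ℝ} {w : Fin 3 → M → ℝ}
    (hv : ∀ j, Sph γ (v j)) (hw : Sph γ w) {c : ℕ → ℝ} {c₀ : ℝ}
    (h0 : ∀ l, Tendsto (fun j => ∫ p, |c j * Flux C (th l) (v j) p - c₀ * Flux C (th l) w p| ∂PP)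
      atTop (𝓝 0)) (i : Fin (m + 1)) (k : Fin 3) :
    Tendsto (fun j => ∫ p, (famS C th hth (β * c j) (v j)).lam p i * p k ∂PP) atTop
      (𝓝 (∫ p, (famS C th hth (β * c₀) w).lam p i * p k ∂PP)) := by
  have hS : Tendsto (fun j => 2 * β * ∑ l,
      ((∫ p, |c j * Flux C (th l) (v j) p - c₀ * Flux C (th l) w p| ∂PP)
      + ∫ p, |c j * Flux C (th i) (v j) p - c₀ * Flux C (th i) w p| ∂PP)) atTop (𝓝 0) := by
    have h1 : Tendsto (fun j => ∑ l,
      ((∫ p, |c j * Flux C (th l) (v j) p - c₀ * Flux C (th l) w p| ∂PP)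
      + ∫ p, |c j * Flux C (th i) (v j) p - c₀ * Flux C (th i) w p| ∂PP)) atTop
        (𝓝 (∑ _l : Fin (m + 1), (0 + 0 : ℝ))) :=
      tendsto_finsetSum _ fun l _ => (h0 l).add (h0 i)
    have h2 := h1.const_mul (2 * β)
    simpa using h2
  rw [tendsto_iff_dist_tendsto_zero]
  refine squeeze_zero (fun _ => dist_nonneg) (fun j => ?_) hS
  have hlm : ∀ (b : ℝ) (u : Fin 3 → M → ℝ), Integrable (fun p => (famS C th hth b u).lam p i * p k) PP := by
    intro b u
    have hmk : Measurable fun p : E3 => p k := by fun_prop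
    refine Integrable.of_bound (((famS C th hth b u).meas i).mul hmk).aestronglyMeasurable 1 ?_
    filter_upwards [ae_coord] with p hp
    rw [Real.norm_eq_abs, abs_mul, abs_of_nonneg ((famS C th hth b u).nonneg p i)]
    have h1 : (famS C th hth b u).lam p i ≤ 1 := smx_le_one b (fun j => PhM C th u j p) i
    exact mul_le_one₀ h1 (abs_nonneg _) (hp k)
  have hd : ∀ l, Integrable (fun p => |c j * Flux C (th l) (v j) p - c₀ * Flux C (th l) w p|) PP :=
    fun l => (((flux_meas C (hv j) (lip_of_adm (hth l))).2.2.const_mul _).sub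
      ((flux_meas C hw (lip_of_adm (hth l))).2.2.const_mul _)).abs
  have hdd : ∀ l, Integrable (fun p => |c j * Flux C (th l) (v j) p - c₀ * Flux C (th l) w p|
      + |c j * Flux C (th i) (v j) p - c₀ * Flux C (th i) w p|) PP := fun l => (hd l).add (hd i)
  rw [Real.dist_eq, ← integral_sub (hlm _ _) (hlm _ _)]
  calc |∫ p, ((famS C th hth (β * c j) (v j)).lam p i * p k
        - (famS C th hth (β * c₀) w).lam p i * p k) ∂PP|
      ≤ ∫ p, 2 * β * ∑ l, (|c j * Flux C (th l) (v j) p - c₀ * Flux C (th l) w p|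
          + |c j * Flux C (th i) (v j) p - c₀ * Flux C (th i) w p|) ∂PP := by
        rw [← Real.norm_eq_abs]
        refine norm_integral_le_of_norm_le
          ((integrable_finsetSum _ fun l _ => hdd l).const_mul _) ?_
        filter_upwards [ae_coord, PhM_ae C hth (hv j), PhM_ae C hth hw] with p hp h1 h2
        rw [Real.norm_eq_abs, ← sub_mul, abs_mul]
        refine (mul_le_of_le_one_right (abs_nonneg _) (hp k)).trans ?_
        have h3 := smx_lip hβ.le (fun l => c j * PhM C th (v j) l p) (fun l => c₀ * PhM C th w l p) i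
        rw [← FIXC_smx_scale, ← FIXC_smx_scale] at h3
        simp only [h1, h2] at h3
        unfold famS
        simp only [h1, h2]
        exact h3
    _ = _ := by
        rw [integral_const_mul, integral_finsetSum _ fun l _ => hdd l]
        congr 1
        refine Finset.sum_congr rfl fun l _ => ?_
        exact integral_add (hd l) (hd i)

open Classical in
/-- the fixed point, for operators defined where `ψ > 0` -/
theorem fixpt_c (C : Calc M γ) (hγ : Bd γ) (hR : RegAE C) (V : OpC C) {ε : ℝ} (hε : 0 < ε) :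
    ∃ (F : Fam γ) (s : ℝ), s ∈ Icc (0 : ℝ) 1 ∧ Pre γ F.Th ∧ V.σ s F.Th = s ∧
      (V.ψ s F.Th = 1 → Real.pi ^ 2 - ε ≤ ∫ p, Flux C (F.f p) (V.V s F.Th) p ∂PP) := by
  obtain ⟨m, th, hth, hsel⟩ := select C hγ hR V.L (half_pos hε)
  set β : ℝ := 2 * (m + 1) / ε with hβd
  have hβ : 0 < β := by positivity
  have hmβ : (m + 1 : ℝ) / β = ε / 2 := by
    rw [hβd]
    field_simp
  -- the total operator
  set W : ℝ → (Fin 3 → M → ℝ) → (Fin 3 → M → ℝ) := fun s T => if 0 < V.ψ s T then V.V s T else V.base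
    with hW
  have hWs : ∀ s ∈ Icc (0 : ℝ) 1, ∀ T, Pre γ T → Sph γ (W s T) := by
    intro s hs T hT
    simp only [hW]
    split_ifs with h
    · exact V.sph s hs T hT h
    · exact V.sph0
  have hWl : ∀ s ∈ Icc (0 : ℝ) 1, ∀ T, Pre γ T → ∀ k, LipschitzWith V.L (W s T k) := by
    intro s hs T hT
    simp only [hW]
    split_ifs with h
    · exact V.lip s hs T hT h
    · exact V.lip0
  -- the coefficients as a vector, and the retraction
  set N : ℕ := (m + 1) * 3 with hN
  set ix : Fin (m + 1) → Fin 3 → Fin (N + 1) := fun i k => (finProdFinEquiv (i, k)).castSucc with hix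
  set nu : EuclideanSpace ℝ (Fin (N + 1)) → Fin 3 → ℝ :=
    fun x k => Real.pi / 8 * ∑ i, |x (ix i k)| with hnu
  set A : EuclideanSpace ℝ (Fin (N + 1)) → Fin (m + 1) → Fin 3 → ℝ := fun x i k =>
    x (ix i k) / max 1 (nu x k) with hA
  set S : EuclideanSpace ℝ (Fin (N + 1)) → ℝ := fun x => max 0 (min 1 (x (Fin.last N))) with hS
  have hS1 : ∀ x, S x ∈ Icc (0 : ℝ) 1 := fun x => ⟨le_max_left _ _, max_le zero_le_one (min_le_left _ _)⟩
  have hSc : Continuous S := by
    have h2 : Continuous fun x : EuclideanSpace ℝ (Fin (N + 1)) => x (Fin.last N) := by fun_prop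
    exact continuous_const.max (continuous_const.min h2)
  have hA1 : ∀ x k, ∑ i, |A x i k| ≤ 8 / Real.pi := by
    intro x k
    have hpi := Real.pi_pos
    have hm1 : 0 < max 1 (nu x k) := lt_of_lt_of_le one_pos (le_max_left _ _)
    have h1 : ∑ i, |A x i k| = (∑ i, |x (ix i k)|) / max 1 (nu x k) := by
      rw [Finset.sum_div]
      refine Finset.sum_congr rfl fun i _ => ?_
      simp only [hA]
      rw [abs_div, abs_of_pos hm1]
    rw [h1, div_le_iff₀ hm1]
    have h2 : nu x k ≤ max 1 (nu x k) := le_max_right _ _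
    calc ∑ i, |x (ix i k)| = 8 / Real.pi * nu x k := by
          simp only [hnu]
          field_simp
      _ ≤ _ := mul_le_mul_of_nonneg_left h2 (by positivity)
  have hAc : Continuous A := by
    refine continuous_pi fun i => continuous_pi fun k => ?_
    have h1 : Continuous fun x : EuclideanSpace ℝ (Fin (N + 1)) => nu x k := by
      simp only [hnu]
      fun_prop
    have h2 : Continuous fun x : EuclideanSpace ℝ (Fin (N + 1)) => x (ix i k) := by fun_prop
    exact h2.div (continuous_const.max h1) fun x => (lt_of_lt_of_le one_pos (le_max_left _ _)).ne'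
  have hpre : ∀ x, Pre γ (comb (A x) th) := fun x => pre_comb hth (hA1 x)
  -- the map
  set fam : EuclideanSpace ℝ (Fin (N + 1)) → Fam γ := fun x =>
    famS C th hth (β * V.ψ (S x) (comb (A x) th)) (W (S x) (comb (A x) th)) with hfam
  set cf : EuclideanSpace ℝ (Fin (N + 1)) → Fin (m + 1) → Fin 3 → ℝ := fun x i k =>
    8 / Real.pi * ∫ p, (famS C th hth (β * V.ψ (S x) (comb (A x) th))
      (W (S x) (comb (A x) th))).lam p i * p k ∂PP with hcf
  set f : EuclideanSpace ℝ (Fin (N + 1)) → EuclideanSpace ℝ (Fin (N + 1)) := fun x =>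
    WithLp.toLp 2 (Fin.snoc (α := fun _ => ℝ)
      (fun j : Fin N => cf x (finProdFinEquiv.symm j).1 (finProdFinEquiv.symm j).2)
      (V.σ (S x) (comb (A x) th))) with hf
  have hfix : ∀ x i k, f x (ix i k) = cf x i k := by
    intro x i k
    simp only [hf, hix]
    rw [Fin.snoc_castSucc, Equiv.symm_apply_apply]
  have hflast : ∀ x, f x (Fin.last N) = V.σ (S x) (comb (A x) th) := by
    intro x
    simp only [hf]
    rw [Fin.snoc_last]
  have hcf1 : ∀ x k, ∑ i, |cf x i k| ≤ 8 / Real.pi := by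
    intro x k
    exact coef_le (fam x).meas (fam x).nonneg (fam x).sum k
  have hcont : Continuous f := by
    rw [continuous_iff_seqContinuous]
    intro u x hu
    have hAu : Tendsto (fun j => A (u j)) atTop (𝓝 (A x)) := (hAc.tendsto x).comp hu
    have hSu : Tendsto (fun j => S (u j)) atTop (𝓝 (S x)) := (hSc.tendsto x).comp hu
    obtain ⟨h0, hψ, h1⟩ := V.cont (m + 1) th hth (fun j => A (u j)) (A x) hAu (fun j => S (u j)) (S x)
      (fun j => hS1 _) (hS1 x) hSu (fun j => hpre _) (hpre x)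
    have hvs : ∀ j, Sph γ (W (S (u j)) (comb (A (u j)) th)) := fun j => hWs _ (hS1 _) _ (hpre _)
    have hws : Sph γ (W (S x) (comb (A x) th)) := hWs _ (hS1 _) _ (hpre _)
    have hvl : ∀ j k, LipschitzWith V.L (W (S (u j)) (comb (A (u j)) th) k) := fun j =>
      hWl _ (hS1 _) _ (hpre _)
    have hwl : ∀ k, LipschitzWith V.L (W (S x) (comb (A x) th) k) := hWl _ (hS1 _) _ (hpre _)
    have key : ∀ l, Tendsto (fun j => ∫ p, |V.ψ (S (u j)) (comb (A (u j)) th) *
        Flux C (th l) (W (S (u j)) (comb (A (u j)) th)) p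
        - V.ψ (S x) (comb (A x) th) * Flux C (th l) (W (S x) (comb (A x) th)) p| ∂PP) atTop (𝓝 0) := by
      intro l
      have hF1 : ∀ j, Integrable (fun p => Flux C (th l) (W (S (u j)) (comb (A (u j)) th)) p) PP :=
        fun j => (flux_meas C (hvs j) (lip_of_adm (hth l))).2.2
      have hF0 : Integrable (fun p => Flux C (th l) (W (S x) (comb (A x) th)) p) PP :=
        (flux_meas C hws (lip_of_adm (hth l))).2.2
      rcases lt_or_ge 0 (V.ψ (S x) (comb (A x) th)) with hpos | hnon
      · -- the map converges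
        have hev : ∀ᶠ j in atTop, 0 < V.ψ (S (u j)) (comb (A (u j)) th) := hψ.eventually_const_lt hpos
        have hc : ∀ᵐ o ∂C.μ, ∀ k,
            Tendsto (fun j => W (S (u j)) (comb (A (u j)) th) k (C.pt o)) atTop
              (𝓝 (W (S x) (comb (A x) th) k (C.pt o))) ∧
            Tendsto (fun j => C.gx (W (S (u j)) (comb (A (u j)) th) k) o) atTop
              (𝓝 (C.gx (W (S x) (comb (A x) th) k) o)) ∧
            Tendsto (fun j => C.gy (W (S (u j)) (comb (A (u j)) th) k) o) atTop
              (𝓝 (C.gy (W (S x) (comb (A x) th) k) o)) := by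
          filter_upwards [h1 hpos] with o ho k
          obtain ⟨e1, e2, e3⟩ := ho k
          have hx : W (S x) (comb (A x) th) = V.V (S x) (comb (A x) th) := by
            simp only [hW]
            rw [if_pos hpos]
          have hj : ∀ᶠ j in atTop, V.V (S (u j)) (comb (A (u j)) th) = W (S (u j)) (comb (A (u j)) th) := by
            filter_upwards [hev] with j hj
            simp only [hW]
            rw [if_pos hj]
          rw [hx]
          refine ⟨e1.congr' ?_, e2.congr' ?_, e3.congr' ?_⟩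
          · filter_upwards [hj] with j hj
            rw [hj]
          · filter_upwards [hj] with j hj
            rw [hj]
          · filter_upwards [hj] with j hj
            rw [hj]
        have t1 := flux_cont C hvs hws hvl hc (hth l)
        have t2 : Tendsto (fun j => |V.ψ (S (u j)) (comb (A (u j)) th) - V.ψ (S x) (comb (A x) th)|)
            atTop (𝓝 0) := by
          have := (hψ.sub_const (V.ψ (S x) (comb (A x) th))).abs
          simpa using this
        have t3 : Tendsto (fun j => (∫ p, |Flux C (th l) (W (S (u j)) (comb (A (u j)) th)) p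
            - Flux C (th l) (W (S x) (comb (A x) th)) p| ∂PP)
            + |V.ψ (S (u j)) (comb (A (u j)) th) - V.ψ (S x) (comb (A x) th)|
              * ∫ p, |Flux C (th l) (W (S x) (comb (A x) th)) p| ∂PP) atTop (𝓝 0) := by
          have := t1.add (t2.mul_const (∫ p, |Flux C (th l) (W (S x) (comb (A x) th)) p| ∂PP))
          simpa using this
        refine squeeze_zero (fun j => integral_nonneg fun _ => abs_nonneg _) (fun j => ?_) t3
        have hd1 : Integrable (fun p => |Flux C (th l) (W (S (u j)) (comb (A (u j)) th)) p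
            - Flux C (th l) (W (S x) (comb (A x) th)) p|) PP := ((hF1 j).sub hF0).abs
        have hd2 : Integrable (fun p => |V.ψ (S (u j)) (comb (A (u j)) th) - V.ψ (S x) (comb (A x) th)|
            * |Flux C (th l) (W (S x) (comb (A x) th)) p|) PP := hF0.abs.const_mul _
        have hd3 : Integrable (fun p => |V.ψ (S (u j)) (comb (A (u j)) th) *
            Flux C (th l) (W (S (u j)) (comb (A (u j)) th)) p
            - V.ψ (S x) (comb (A x) th) * Flux C (th l) (W (S x) (comb (A x) th)) p|) PP :=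
          (((hF1 j).const_mul _).sub (hF0.const_mul _)).abs
        rw [← integral_const_mul, ← integral_add hd1 hd2]
        refine integral_mono hd3 (hd1.add hd2) fun p => ?_
        have hψ1 := V.memψ _ (hS1 (u j)) _ (hpre (u j))
        simp only
        set a := V.ψ (S (u j)) (comb (A (u j)) th)
        set b := V.ψ (S x) (comb (A x) th)
        set y := Flux C (th l) (W (S (u j)) (comb (A (u j)) th)) p
        set z := Flux C (th l) (W (S x) (comb (A x) th)) p
        have e : a * y - b * z = a * (y - z) + (a - b) * z := by ring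
        calc |a * y - b * z| ≤ |a * (y - z)| + |(a - b) * z| := by rw [e]; exact abs_add_le _ _
          _ = a * |y - z| + |a - b| * |z| := by rw [abs_mul, abs_mul, abs_of_nonneg hψ1.1]
          _ ≤ |y - z| + |a - b| * |z| := by
              have := mul_le_of_le_one_left (abs_nonneg (y - z)) hψ1.2
              linarith
      · -- the factor tends to zero
        have hz : V.ψ (S x) (comb (A x) th) = 0 := le_antisymm hnon (V.memψ _ (hS1 x) _ (hpre x)).1
        rw [hz] at hψ ⊢
        have t3 : Tendsto (fun j => V.ψ (S (u j)) (comb (A (u j)) th)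
            * (4 * V.L * (Real.pi / 2) * (C.μ.real univ))) atTop (𝓝 0) := by
          have := hψ.mul_const (4 * V.L * (Real.pi / 2) * (C.μ.real univ))
          simpa using this
        refine squeeze_zero (fun j => integral_nonneg fun _ => abs_nonneg _) (fun j => ?_) t3
        have hψ1 := V.memψ _ (hS1 (u j)) _ (hpre (u j))
        have e : ∀ p, |V.ψ (S (u j)) (comb (A (u j)) th) *
            Flux C (th l) (W (S (u j)) (comb (A (u j)) th)) p
            - 0 * Flux C (th l) (W (S x) (comb (A x) th)) p|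
            = V.ψ (S (u j)) (comb (A (u j)) th) *
              |Flux C (th l) (W (S (u j)) (comb (A (u j)) th)) p| := by
          intro p
          rw [zero_mul, sub_zero, abs_mul, abs_of_nonneg hψ1.1]
        simp_rw [e]
        rw [integral_const_mul]
        exact mul_le_mul_of_nonneg_left (flux_bd C (hvs j) (hvl j) (hth l)) hψ1.1
    have h2 := fun i k => FIXC_famS_cont C hth hβ hvs hws key i k
    refine ((PiLp.continuous_toLp 2 _).tendsto _).comp (tendsto_pi_nhds.2 fun l => ?_)
    refine Fin.lastCases ?_ (fun l => ?_) l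
    · simp only [Fin.snoc_last]
      exact h0
    · simp only [Fin.snoc_castSucc]
      exact (h2 _ _).const_mul _
  have hmaps : MapsTo f (Metric.closedBall 0 6) (Metric.closedBall 0 6) := by
    intro x _
    rw [mem_closedBall_zero_iff]
    have hpi := Real.pi_gt_three
    have h3 : 8 / Real.pi ≤ 8 / 3 := div_le_div_of_nonneg_left (by norm_num) (by norm_num) hpi.le
    have h0 : 0 < 8 / Real.pi := by positivity
    have h1 : ∀ k, ∑ i, cf x i k ^ 2 ≤ (8 / 3) ^ 2 := by
      intro k
      calc ∑ i, cf x i k ^ 2 ≤ ∑ i, (8 / Real.pi) * |cf x i k| := by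
            refine Finset.sum_le_sum fun i _ => ?_
            have h4 : |cf x i k| ≤ 8 / Real.pi :=
              (Finset.single_le_sum (f := fun i => |cf x i k|) (fun _ _ => abs_nonneg _)
                (Finset.mem_univ i)).trans (hcf1 x k)
            rw [← sq_abs, sq]
            exact mul_le_mul_of_nonneg_right h4 (abs_nonneg _)
        _ = (8 / Real.pi) * ∑ i, |cf x i k| := by rw [Finset.mul_sum]
        _ ≤ (8 / Real.pi) * (8 / Real.pi) := mul_le_mul_of_nonneg_left (hcf1 x k) h0.le
        _ ≤ (8 / 3) * (8 / 3) := mul_le_mul h3 h3 h0.le (by norm_num)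
        _ = _ := by ring
    have hl : f x (Fin.last N) ^ 2 ≤ 1 := by
      rw [hflast]
      have h4 := V.mem _ (hS1 x) _ (hpre x)
      nlinarith [h4.1, h4.2]
    have h2 : ‖f x‖ ^ 2 ≤ 36 := by
      rw [EuclideanSpace.real_norm_sq_eq, Fin.sum_univ_castSucc]
      have h5 : ∑ j : Fin N, (f x j.castSucc) ^ 2 ≤ 25 := by
        calc ∑ j : Fin N, (f x j.castSucc) ^ 2
            = ∑ q : Fin (m + 1) × Fin 3, (f x (finProdFinEquiv q).castSucc) ^ 2 :=
              (Equiv.sum_comp finProdFinEquiv fun j => (f x j.castSucc) ^ 2).symm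
          _ = ∑ i, ∑ k, cf x i k ^ 2 := by
              rw [Fintype.sum_prod_type]
              refine Finset.sum_congr rfl fun i _ => Finset.sum_congr rfl fun k _ => ?_
              rw [← hfix x i k]
          _ = ∑ k, ∑ i, cf x i k ^ 2 := Finset.sum_comm
          _ ≤ ∑ _k : Fin 3, (8 / 3 : ℝ) ^ 2 := Finset.sum_le_sum fun k _ => h1 k
          _ ≤ 25 := by
              rw [Finset.sum_const, Finset.card_univ, Fintype.card_fin]
              norm_num
      linarith
    nlinarith [norm_nonneg (f x)]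
  obtain ⟨x, -, hx⟩ := BRW.brouwer (by norm_num : (0 : ℝ) ≤ 6) hcont.continuousOn hmaps
  -- the retractions are the identity at the fixed point
  have hAx : A x = cf x := by
    funext i k
    have h1 : ∀ i, x (ix i k) = cf x i k := fun i => by rw [← hfix, hx]
    have h2 : nu x k ≤ 1 := by
      simp only [hnu]
      simp_rw [h1]
      have h3 := mul_le_mul_of_nonneg_left (hcf1 x k) (by positivity : (0 : ℝ) ≤ Real.pi / 8)
      refine h3.trans (le_of_eq ?_)
      field_simp
    simp only [hA]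
    rw [max_eq_left h2, div_one, h1]
  have hSx : V.σ (S x) (comb (A x) th) = S x := by
    have h1 : x (Fin.last N) = V.σ (S x) (comb (A x) th) := by rw [← hflast, hx]
    have h2 := V.mem _ (hS1 x) _ (hpre x)
    have h3 : S x = x (Fin.last N) := by
      simp only [hS]
      rw [min_eq_right (by rw [h1]; exact h2.2), max_eq_right (by rw [h1]; exact h2.1)]
    rw [← h1, h3]
  have hTh : (fam x).Th = comb (A x) th := by
    rw [(fam x).Th_eq]
    change comb (cf x) th = comb (A x) th
    rw [hAx]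
  refine ⟨fam x, S x, hS1 x, (fam x).pre, ?_, ?_⟩
  · rw [hTh]
    exact hSx
  · rw [hTh]
    intro hone
    have hWV : W (S x) (comb (A x) th) = V.V (S x) (comb (A x) th) := by
      simp only [hW]
      rw [if_pos (by rw [hone]; exact one_pos)]
    have hsph := V.sph _ (hS1 x) _ (hpre x) (by rw [hone]; exact one_pos)
    have h1 := famS_flux C hth hβ hsph
    have h2 := hsel _ hsph (V.lip _ (hS1 x) _ (hpre x) (by rw [hone]; exact one_pos))
    have hfx : fam x = famS C th hth β (V.V (S x) (comb (A x) th)) := by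
      simp only [hfam]
      rw [hone, mul_one, hWV]
    rw [hmβ] at h1
    rw [hfx]
    linarith

end Pool.Agent.FPX
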