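import Mathlib
import Pool.Agent.FPX.FIXC
import Pool.Agent.FPX.EXS

/-
PIN (helper11): pinned fixed points. `F` is a fixed odd Lipschitz map into the sphere,
`U = (1-s)Θ + sF`, `c` a positive continuous function of `s` with `c(1) < 1`. There are potentials
and `0 ≤ s < 1` with almost maximal flux for `v = U/|U|`, where `|U| ≥ c(s)` everywhere and
`|U| = c(s)` at some point unless `s = 0`.
-/

open MeasureTheory Set Filter Topology
open scoped ENNReal NNReal

noncomputable section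

namespace Pool.Agent.FPX

open Pool.Agent.EWD

variable {M : Type} [MetricSpace M] {γ : ℝ → M}

/-- the pinned map `(1-s)Θ + sF` -/
def UU (F : Fin 3 → M → ℝ) (s : ℝ) (T : Fin 3 → M → ℝ) (k : Fin 3) (x : M) : ℝ :=
  (1 - s) * T k x + s * F k x

/-- its norm -/
def rr (F : Fin 3 → M → ℝ) (s : ℝ) (T : Fin 3 → M → ℝ) (x : M) : ℝ := ‖vv (n := 0) (UU F s T) x‖

/-- the map divided by the maximum of its norm and `δ` -/
def NV (δ : ℝ) (U : Fin 3 → M → ℝ) (k : Fin 3) (x : M) : ℝ := U k x / max ‖vv (n := 0) U x‖ δ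

/-! ### Lipschitz estimates -/

omit [MetricSpace M] in
private theorem PIN_vv_sub (U W : Fin 3 → M → ℝ) (x y : M) {e : ℝ} (he : 0 ≤ e)
    (h : ∀ k, |U k x - W k y| ≤ e) : ‖vv (n := 0) U x - vv (n := 0) W y‖ ≤ 2 * e := by
  refine le_of_sq_le_sq ?_ (by positivity)
  rw [normsq3]
  have h0 := h 0
  have h1 := h 1
  have h2 := h 2
  change (U 0 x - W 0 y) ^ 2 + (U 1 x - W 1 y) ^ 2 + (U 2 x - W 2 y) ^ 2 ≤ _
  have g : ∀ a : ℝ, |a| ≤ e → a ^ 2 ≤ e ^ 2 := fun a ha => by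
    rw [← sq_abs]
    exact pow_le_pow_left₀ (abs_nonneg _) ha 2
  nlinarith [g _ h0, g _ h1, g _ h2, sq_nonneg e]

private theorem PIN_coord (a : E3) (k : Fin 3) : |a k| ≤ ‖a‖ := by
  refine abs_le_of_sq_le_sq ?_ (norm_nonneg _)
  rw [EuclideanSpace.real_norm_sq_eq]
  exact Finset.single_le_sum (f := fun i => a i ^ 2) (fun i _ => sq_nonneg _) (Finset.mem_univ k)

private theorem PIN_proj {δ : ℝ} (hδ : 0 < δ) (y z : E3) :
    ‖(max ‖y‖ δ)⁻¹ • y - (max ‖z‖ δ)⁻¹ • z‖ ≤ 2 / δ * ‖y - z‖ := by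
  have ha : 0 < max ‖y‖ δ := lt_of_lt_of_le hδ (le_max_right _ _)
  have hb : 0 < max ‖z‖ δ := lt_of_lt_of_le hδ (le_max_right _ _)
  have e : (max ‖y‖ δ)⁻¹ • y - (max ‖z‖ δ)⁻¹ • z
      = (max ‖y‖ δ)⁻¹ • (y - z) + ((max ‖y‖ δ)⁻¹ - (max ‖z‖ δ)⁻¹) • z := by
    rw [smul_sub, sub_smul]
    abel
  have h1 : (max ‖y‖ δ)⁻¹ ≤ δ⁻¹ := inv_anti₀ hδ (le_max_right _ _)
  have h2 : |(max ‖y‖ δ)⁻¹ - (max ‖z‖ δ)⁻¹| * ‖z‖ ≤ δ⁻¹ * ‖y - z‖ := by
    have e2 : (max ‖y‖ δ)⁻¹ - (max ‖z‖ δ)⁻¹ = (max ‖z‖ δ - max ‖y‖ δ) * ((max ‖y‖ δ)⁻¹ * (max ‖z‖ δ)⁻¹) := by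
      field_simp
    have h3 : |max ‖z‖ δ - max ‖y‖ δ| ≤ ‖y - z‖ := by
      have h4 : |max ‖z‖ δ - max ‖y‖ δ| ≤ |‖z‖ - ‖y‖| := by
        have := abs_max_sub_max_le_abs ‖z‖ ‖y‖ δ
        exact this
      refine h4.trans ?_
      rw [norm_sub_rev]
      exact abs_norm_sub_norm_le z y
    rw [e2, abs_mul, abs_of_pos (mul_pos (inv_pos.2 ha) (inv_pos.2 hb))]
    have h5 : (max ‖z‖ δ)⁻¹ * ‖z‖ ≤ 1 := by
      rw [inv_mul_le_iff₀ hb, mul_one]
      exact le_max_left _ _
    calc |max ‖z‖ δ - max ‖y‖ δ| * ((max ‖y‖ δ)⁻¹ * (max ‖z‖ δ)⁻¹) * ‖z‖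
        = |max ‖z‖ δ - max ‖y‖ δ| * (max ‖y‖ δ)⁻¹ * ((max ‖z‖ δ)⁻¹ * ‖z‖) := by ring
      _ ≤ |max ‖z‖ δ - max ‖y‖ δ| * (max ‖y‖ δ)⁻¹ * 1 := by gcongr
      _ ≤ ‖y - z‖ * δ⁻¹ * 1 := by gcongr
      _ = _ := by ring
  rw [e]
  refine (norm_add_le _ _).trans ?_
  rw [norm_smul, norm_smul, Real.norm_eq_abs, Real.norm_eq_abs, abs_of_pos (inv_pos.2 ha)]
  have h6 : (max ‖y‖ δ)⁻¹ * ‖y - z‖ ≤ δ⁻¹ * ‖y - z‖ := mul_le_mul_of_nonneg_right h1 (norm_nonneg _)
  have e7 : 2 / δ * ‖y - z‖ = δ⁻¹ * ‖y - z‖ + δ⁻¹ * ‖y - z‖ := by ring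
  rw [e7]
  exact add_le_add h6 h2

omit [MetricSpace M] in
private theorem PIN_NV_eq (δ : ℝ) (U : Fin 3 → M → ℝ) (k : Fin 3) (x : M) :
    NV δ U k x = ((max ‖vv (n := 0) U x‖ δ)⁻¹ • vv (n := 0) U x) k := by
  unfold NV
  rw [div_eq_inv_mul]
  fin_cases k <;> rfl

theorem NV_lip {δ : ℝ≥0} (hδ : 0 < δ) {K : ℝ≥0} {U : Fin 3 → M → ℝ} (hU : ∀ k, LipschitzWith K (U k))
    (k : Fin 3) : LipschitzWith (4 / δ * K) (NV δ U k) := by
  have hδ' : (0 : ℝ) < δ := hδ
  refine LipschitzWith.of_dist_le_mul fun x y => ?_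
  rw [Real.dist_eq, PIN_NV_eq, PIN_NV_eq]
  have h1 := PIN_coord ((max ‖vv (n := 0) U x‖ δ)⁻¹ • vv (n := 0) U x
    - (max ‖vv (n := 0) U y‖ δ)⁻¹ • vv (n := 0) U y) k
  rw [PiLp.sub_apply] at h1
  refine h1.trans ((PIN_proj hδ' _ _).trans ?_)
  have h2 : ‖vv (n := 0) U x - vv (n := 0) U y‖ ≤ 2 * (K * dist x y) := by
    refine PIN_vv_sub U U x y (by positivity) fun k => ?_
    have := (hU k).dist_le_mul x y
    rwa [Real.dist_eq] at this
  calc 2 / (δ : ℝ) * ‖vv (n := 0) U x - vv (n := 0) U y‖ ≤ 2 / δ * (2 * (K * dist x y)) := by gcongr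
    _ = _ := by
        push_cast
        ring

theorem UU_lip {F T : Fin 3 → M → ℝ} {LF : ℝ≥0} (hF : ∀ k, LipschitzWith LF (F k)) (hT : Pre γ T)
    {s : ℝ} (hs : s ∈ Icc (0 : ℝ) 1) (k : Fin 3) : LipschitzWith (3 + LF) (UU F s T k) := by
  refine LipschitzWith.of_dist_le_mul fun x y => ?_
  rw [Real.dist_eq]
  unfold UU
  have h1 := (hT.lip k).dist_le_mul x y
  have h2 := (hF k).dist_le_mul x y
  rw [Real.dist_eq] at h1 h2
  have e : (1 - s) * T k x + s * F k x - ((1 - s) * T k y + s * F k y)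
      = (1 - s) * (T k x - T k y) + s * (F k x - F k y) := by ring
  rw [e]
  refine (abs_add_le _ _).trans ?_
  rw [abs_mul, abs_mul, abs_of_nonneg (sub_nonneg.2 hs.2), abs_of_nonneg hs.1]
  have h3 : (1 - s) * |T k x - T k y| ≤ 1 * (3 * dist x y) := by
    refine mul_le_mul (by linarith [hs.1]) ?_ (abs_nonneg _) zero_le_one
    simpa using h1
  have h4 : s * |F k x - F k y| ≤ 1 * (LF * dist x y) :=
    mul_le_mul hs.2 h2 (abs_nonneg _) zero_le_one
  push_cast
  linarith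

theorem rr_cont {F T : Fin 3 → M → ℝ} {LF : ℝ≥0} (hF : ∀ k, LipschitzWith LF (F k)) (hT : Pre γ T)
    {s : ℝ} (hs : s ∈ Icc (0 : ℝ) 1) : Continuous (rr F s T) := by
  have h := fun k => (UU_lip hF hT hs k).continuous
  have h1 : Continuous fun x => vv (n := 0) (UU F s T) x := by
    refine (PiLp.continuous_toLp 2 _).comp (continuous_pi fun k => ?_)
    fin_cases k
    · exact h 0
    · exact h 1
    · exact h 2
  exact h1.norm

theorem UU_odd {F T : Fin 3 → M → ℝ} (hF : Sph γ F) (hT : Pre γ T) (s : ℝ) (k : Fin 3) :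
    OddB γ (UU F s T k) := by
  intro t
  unfold UU
  rw [hT.odd k t, hF.odd k t]
  ring

omit [MetricSpace M] in
theorem vv_neg {U : Fin 3 → M → ℝ} {x y : M} (h : ∀ k, U k x = -U k y) :
    vv (n := 0) U x = -vv (n := 0) U y := by
  ext k
  rw [PiLp.neg_apply]
  fin_cases k
  · exact h 0
  · exact h 1
  · exact h 2

/-- the normalised map is a map into the sphere if the norm is at least `δ` -/
theorem NV_sph {δ : ℝ≥0} (hδ : 0 < δ) {U : Fin 3 → M → ℝ} (hU : ∀ k, Lip (U k))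
    (ho : ∀ k, OddB γ (U k)) (hr : ∀ x, (δ : ℝ) ≤ ‖vv (n := 0) U x‖) : Sph γ (NV δ U) := by
  have hδ' : (0 : ℝ) < δ := hδ
  choose K hK using hU
  refine ⟨fun k => ?_, fun x => ?_, fun k t => ?_⟩
  · have h2 : ∀ k, LipschitzWith (K 0 + K 1 + K 2) (U k) := by
      intro k
      refine (hK k).weaken ?_
      fin_cases k
      · exact (le_add_of_nonneg_right zero_le).trans (le_add_of_nonneg_right zero_le)
      · exact (le_add_of_nonneg_left zero_le).trans (le_add_of_nonneg_right zero_le)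
      · exact le_add_of_nonneg_left zero_le
    exact ⟨_, NV_lip hδ h2 k⟩
  · have hx := hr x
    have hp : 0 < ‖vv (n := 0) U x‖ := hδ'.trans_le hx
    unfold NV
    rw [max_eq_left hx]
    have h3 := normsq3 (vv (n := 0) U x)
    have h4 : ∑ k : Fin 3, (U k x / ‖vv (n := 0) U x‖) ^ 2 =
        (U 0 x ^ 2 + U 1 x ^ 2 + U 2 x ^ 2) / ‖vv (n := 0) U x‖ ^ 2 := by
      rw [Fin.sum_univ_three]
      field_simp
    rw [h4, div_eq_one_iff_eq (by positivity), h3]
    rfl
  · unfold NV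
    rw [vv_neg (x := γ (t + Real.pi)) (y := γ t) fun k => ho k t, norm_neg, ho k t, neg_div]

/-! ### the minimum -/

/-- the minimum of a function -/
def mn (f : M → ℝ) : ℝ := ⨅ x, f x

section
variable [CompactSpace M]

theorem mn_le {f : M → ℝ} (hf : Continuous f) (x : M) : mn f ≤ f x :=
  ciInf_le (isCompact_range hf).bddBelow x

theorem mn_mem [Nonempty M] {f : M → ℝ} (hf : Continuous f) : ∃ x, f x = mn f := by
  obtain ⟨x, -, hx⟩ := isCompact_univ.exists_isMinOn (univ_nonempty) hf.continuousOn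
  refine ⟨x, le_antisymm ?_ (mn_le hf x)⟩
  exact le_ciInf fun y => hx (mem_univ y)

theorem mn_sub [Nonempty M] {f g : M → ℝ} (hf : Continuous f) (hg : Continuous g) {e : ℝ}
    (h : ∀ x, |f x - g x| ≤ e) : |mn f - mn g| ≤ e := by
  obtain ⟨x, hx⟩ := mn_mem hf
  obtain ⟨y, hy⟩ := mn_mem hg
  have h1 := mn_le hf y
  have h2 := mn_le hg x
  have h3 := abs_le.1 (h x)
  have h4 := abs_le.1 (h y)
  rw [abs_le]
  constructor <;> linarith

end

/-! ### derivatives of the normalised map -/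

/-- the derivative of `u/|u|` in terms of `u` and its derivative -/
def ND (u g : Fin 3 → ℝ) (k : Fin 3) : ℝ :=
  (g k * √(∑ i, u i ^ 2) - u k * ((∑ i, u i * g i) / √(∑ i, u i ^ 2))) / √(∑ i, u i ^ 2) ^ 2

omit [MetricSpace M] in
private theorem PIN_norm (U : Fin 3 → M → ℝ) (x : M) : ‖vv (n := 0) U x‖ = √(∑ i, U i x ^ 2) := by
  rw [EuclideanSpace.norm_eq]
  congr 1
  rw [Fin.sum_univ_three, Fin.sum_univ_three]
  simp only [Real.norm_eq_abs, sq_abs]
  rfl

omit [MetricSpace M] in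
private theorem PIN_deriv {δ : ℝ} (hδ : 0 ≤ δ) {U : Fin 3 → M → ℝ} {c : ℝ → M} {g : Fin 3 → ℝ}
    (h : ∀ i, HasDerivAt (fun t => U i (c t)) (g i) 0) (hr : δ < ‖vv (n := 0) U (c 0)‖) (k : Fin 3) :
    HasDerivAt (fun t => NV δ U k (c t)) (ND (fun i => U i (c 0)) g k) 0 := by
  have hpos : 0 < √(∑ i, U i (c 0) ^ 2) := by
    rw [← PIN_norm]
    exact hδ.trans_lt hr
  have hsum : HasDerivAt (fun t => ∑ i, U i (c t) ^ 2) (∑ i, 2 * U i (c 0) * g i) 0 := by
    refine HasDerivAt.fun_sum fun i _ => ?_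
    have h5 := (h i).fun_pow 2
    simpa using h5
  have hsq : HasDerivAt (fun t => √(∑ i, U i (c t) ^ 2)) ((∑ i, U i (c 0) * g i) / √(∑ i, U i (c 0) ^ 2)) 0 := by
    have h1 := hsum.sqrt (fun h0 => by rw [h0, Real.sqrt_zero] at hpos; exact lt_irrefl _ hpos)
    convert h1 using 1
    have e : ∑ i, 2 * U i (c 0) * g i = 2 * ∑ i, U i (c 0) * g i := by
      rw [Finset.mul_sum]
      exact Finset.sum_congr rfl fun i _ => by ring
    rw [e, mul_div_mul_left _ _ two_ne_zero]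
  have hq := (h k).div hsq hpos.ne'
  have hev : (fun t => NV δ U k (c t)) =ᶠ[𝓝 0] fun t => U k (c t) / √(∑ i, U i (c t) ^ 2) := by
    have h2 : ∀ᶠ t in 𝓝 (0 : ℝ), δ < √(∑ i, U i (c t) ^ 2) := by
      refine hsq.continuousAt.eventually_const_lt ?_
      change δ < √(∑ i, U i (c 0) ^ 2)
      rw [← PIN_norm]
      exact hr
    filter_upwards [h2] with t ht
    unfold NV
    rw [PIN_norm, max_eq_left ht.le]
  exact hq.congr_of_eventuallyEq hev

private theorem PIN_ND_tendsto {u g : ℕ → Fin 3 → ℝ} {u₀ g₀ : Fin 3 → ℝ}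
    (hu : ∀ i, Tendsto (fun j => u j i) atTop (𝓝 (u₀ i)))
    (hg : ∀ i, Tendsto (fun j => g j i) atTop (𝓝 (g₀ i))) (hr : 0 < √(∑ i, u₀ i ^ 2)) (k : Fin 3) :
    Tendsto (fun j => ND (u j) (g j) k) atTop (𝓝 (ND u₀ g₀ k)) := by
  have h1 : Tendsto (fun j => √(∑ i, u j i ^ 2)) atTop (𝓝 (√(∑ i, u₀ i ^ 2))) :=
    (Real.continuous_sqrt.tendsto _).comp (tendsto_finsetSum _ fun i _ => (hu i).pow 2)
  have h2 : Tendsto (fun j => ∑ i, u j i * g j i) atTop (𝓝 (∑ i, u₀ i * g₀ i)) :=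
    tendsto_finsetSum _ fun i _ => (hu i).mul (hg i)
  unfold ND
  exact (((hg k).mul h1).sub ((hu k).mul (h2.div h1 hr.ne'))).div (h1.pow 2) (pow_pos hr 2).ne'

/-! ### the operator -/

section
variable [CompactSpace M]

omit [CompactSpace M] in
private theorem PIN_UU_sub {F : Fin 3 → M → ℝ} (hF : Sph γ F) {n : ℕ} {th : Fin n → M → ℝ}
    (hth : ∀ i, Adm γ (th i)) (a a₀ : Fin n → Fin 3 → ℝ) {s s₀ : ℝ} (hs : s ∈ Icc (0 : ℝ) 1)
    (hp : Pre γ (comb a₀ th)) (k : Fin 3) (x : M) :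
    |UU F s (comb a th) k x - UU F s₀ (comb a₀ th) k x|
      ≤ (∑ i, |a i k - a₀ i k|) * (Real.pi / 2) + |s - s₀| * 5 := by
  have hF1 : |F k x| ≤ 1 := by
    have h := hF.unit x
    have h2 : F k x ^ 2 ≤ ∑ i, F i x ^ 2 := Finset.single_le_sum (f := fun i => F i x ^ 2)
      (fun i _ => sq_nonneg _) (Finset.mem_univ k)
    rw [h] at h2
    exact abs_le_one_iff_mul_self_le_one.2 (by linarith [sq (F k x)])
  have hT := hp.bd k x
  have h1 : |comb a th k x - comb a₀ th k x| ≤ (∑ i, |a i k - a₀ i k|) * (Real.pi / 2) := by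
    unfold comb
    rw [← Finset.sum_sub_distrib, Finset.sum_mul]
    refine (Finset.abs_sum_le_sum_abs _ _).trans (Finset.sum_le_sum fun i _ => ?_)
    rw [← sub_mul, abs_mul]
    exact mul_le_mul_of_nonneg_left ((hth i).bd x) (abs_nonneg _)
  have e : UU F s (comb a th) k x - UU F s₀ (comb a₀ th) k x
      = (1 - s) * (comb a th k x - comb a₀ th k x) + (s - s₀) * (F k x - comb a₀ th k x) := by
    unfold UU
    ring
  rw [e]
  refine (abs_add_le _ _).trans ?_
  rw [abs_mul, abs_mul, abs_of_nonneg (sub_nonneg.2 hs.2)]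
  have h2 : (1 - s) * |comb a th k x - comb a₀ th k x| ≤ 1 * ((∑ i, |a i k - a₀ i k|) * (Real.pi / 2)) :=
    mul_le_mul (by linarith [hs.1]) h1 (abs_nonneg _) zero_le_one
  have h3 : |F k x - comb a₀ th k x| ≤ 5 := by
    refine (abs_sub _ _).trans ?_
    linarith
  have h4 := mul_le_mul_of_nonneg_left h3 (abs_nonneg (s - s₀))
  linarith

variable [Nonempty M]

/-- the operator `(s, Θ) ↦ ((1-s)Θ + sF)/|(1-s)Θ + sF|` -/
def pinOp (C : Calc M γ) {F : Fin 3 → M → ℝ} (hF : Sph γ F) {LF : ℝ≥0} (hLF : ∀ k, LipschitzWith LF (F k))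
    {c : ℝ → ℝ} (hc : Continuous c) {δ : ℝ≥0} (hδ : 0 < δ) (hcδ : ∀ s, 2 * (δ : ℝ) ≤ c s)
    (hδ1 : (δ : ℝ) ≤ 1) : OpC C where
  V := fun s T => NV δ (UU F s T)
  σ := fun s T => max 0 (min 1 (s + c s - mn (rr F s T)))
  ψ := fun s T => max 0 (min 1 (2 * mn (rr F s T) / c s - 1))
  base := F
  L := 4 / δ * (3 + LF)
  sph0 := hF
  lip0 := fun k => (hLF k).weaken (by
    have h1 : LF ≤ 3 + LF := le_add_of_nonneg_left zero_le
    have h2 : (1 : ℝ≥0) ≤ 4 / δ := by
      rw [one_le_div₀ hδ]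
      have : δ ≤ 1 := by exact_mod_cast hδ1
      exact this.trans (by norm_num)
    calc LF ≤ 3 + LF := h1
      _ = 1 * (3 + LF) := (one_mul _).symm
      _ ≤ _ := mul_le_mul_of_nonneg_right h2 zero_le)
  sph := by
    intro s hs T hT hψ
    refine NV_sph hδ (fun k => ⟨_, UU_lip hLF hT hs k⟩) (UU_odd hF hT s) fun x => ?_
    have hcp : 0 < c s := lt_of_lt_of_le (by positivity) (hcδ s)
    have h1 : 0 < 2 * mn (rr F s T) / c s - 1 := by
      by_contra h
      rw [not_lt] at h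
      have h2 : min 1 (2 * mn (rr F s T) / c s - 1) ≤ 0 := (min_le_right _ _).trans h
      rw [max_eq_left h2] at hψ
      exact lt_irrefl _ hψ
    have h2 : c s < 2 * mn (rr F s T) := by
      rw [sub_pos, one_lt_div hcp] at h1
      exact h1
    have h3 := mn_le (rr_cont hLF hT hs) x
    have h4 := hcδ s
    change (δ : ℝ) ≤ rr F s T x
    linarith
  lip := fun s hs T hT _ k => NV_lip hδ (UU_lip hLF hT hs) k
  mem := fun s _ T _ => ⟨le_max_left _ _, max_le zero_le_one (min_le_left _ _)⟩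
  memψ := fun s _ T _ => ⟨le_max_left _ _, max_le zero_le_one (min_le_left _ _)⟩
  cont := by
    intro n th hth a a₀ ha s s₀ hs hs₀ hss hp hp₀
    have hcp : ∀ s, 0 < c s := fun s => lt_of_lt_of_le (by positivity) (hcδ s)
    have hak : ∀ i k, Tendsto (fun j => a j i k) atTop (𝓝 (a₀ i k)) := fun i k =>
      (tendsto_pi_nhds.1 ((tendsto_pi_nhds.1 ha) i)) k
    -- uniform convergence
    set e : ℕ → ℝ := fun j => ∑ k : Fin 3, ((∑ i, |a j i k - a₀ i k|) * (Real.pi / 2) + |s j - s₀| * 5)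
      with he
    have he0 : Tendsto e atTop (𝓝 0) := by
      have h1 : ∀ k : Fin 3, Tendsto (fun j => (∑ i, |a j i k - a₀ i k|) * (Real.pi / 2)
          + |s j - s₀| * 5) atTop (𝓝 0) := by
        intro k
        have h2 : ∀ i, Tendsto (fun j => |a j i k - a₀ i k|) atTop (𝓝 0) := fun i => by
          simpa using ((hak i k).sub_const (a₀ i k)).abs
        have h3 : Tendsto (fun j => |s j - s₀|) atTop (𝓝 0) := by
          simpa using (hss.sub_const s₀).abs
        have h4 := ((tendsto_finsetSum Finset.univ fun i _ => h2 i).mul_const (Real.pi / 2)).add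
          (h3.mul_const 5)
        simpa using h4
      have h5 := tendsto_finsetSum Finset.univ fun k _ => h1 k
      simpa using h5
    have hen : ∀ j k, (∑ i, |a j i k - a₀ i k|) * (Real.pi / 2) + |s j - s₀| * 5 ≤ e j := by
      intro j k
      have hpi := Real.pi_pos
      exact Finset.single_le_sum (f := fun k : Fin 3 => (∑ i, |a j i k - a₀ i k|) * (Real.pi / 2)
        + |s j - s₀| * 5) (fun k _ => by positivity) (Finset.mem_univ k)
    have he1 : ∀ j, 0 ≤ e j := fun j => by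
      have hpi := Real.pi_pos
      exact Finset.sum_nonneg fun k _ => by positivity
    have hrs : ∀ j x, |rr F (s j) (comb (a j) th) x - rr F s₀ (comb a₀ th) x| ≤ 2 * e j := by
      intro j x
      refine (abs_norm_sub_norm_le _ _).trans (PIN_vv_sub _ _ x x (he1 j) fun k => ?_)
      exact (PIN_UU_sub hF hth (a j) a₀ (hs j) hp₀ k x).trans (hen j k)
    have hmn : Tendsto (fun j => mn (rr F (s j) (comb (a j) th))) atTop (𝓝 (mn (rr F s₀ (comb a₀ th)))) := by
      rw [tendsto_iff_dist_tendsto_zero]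
      have h6 : Tendsto (fun j => 2 * e j) atTop (𝓝 0) := by simpa using he0.const_mul 2
      refine squeeze_zero (fun _ => dist_nonneg) (fun j => ?_) h6
      rw [Real.dist_eq]
      exact mn_sub (rr_cont hLF (hp j) (hs j)) (rr_cont hLF hp₀ hs₀) (hrs j)
    have hcs : Tendsto (fun j => c (s j)) atTop (𝓝 (c s₀)) := (hc.tendsto s₀).comp hss
    refine ⟨?_, ?_, fun hψ => ?_⟩
    · exact tendsto_const_nhds.max (tendsto_const_nhds.min ((hss.add hcs).sub hmn))
    · exact tendsto_const_nhds.max (tendsto_const_nhds.min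
        (((hmn.const_mul 2).div hcs (hcp s₀).ne').sub_const 1))
    · have h1 : 0 < 2 * mn (rr F s₀ (comb a₀ th)) / c s₀ - 1 := by
        by_contra h
        rw [not_lt] at h
        have h2 : min 1 (2 * mn (rr F s₀ (comb a₀ th)) / c s₀ - 1) ≤ 0 := (min_le_right _ _).trans h
        rw [max_eq_left h2] at hψ
        exact lt_irrefl _ hψ
      have h2 : c s₀ < 2 * mn (rr F s₀ (comb a₀ th)) := by
        rw [sub_pos, one_lt_div (hcp s₀)] at h1
        exact h1
      have hr0 : ∀ x, (δ : ℝ) < rr F s₀ (comb a₀ th) x := fun x => by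
        have h3 := mn_le (rr_cont hLF hp₀ hs₀) x
        have h4 := hcδ s₀
        linarith
      have hA : ∀ᵐ o ∂C.μ, ∀ i, HasDerivAt (fun s => th i (C.px o s)) (C.gx (th i) o) 0 ∧
          HasDerivAt (fun s => th i (C.py o s)) (C.gy (th i) o) 0 :=
        ae_all_iff.mpr fun i => C.ae_has (lip_of_adm (hth i))
      have hB : ∀ᵐ o ∂C.μ, ∀ k, HasDerivAt (fun s => F k (C.px o s)) (C.gx (F k) o) 0 ∧
          HasDerivAt (fun s => F k (C.py o s)) (C.gy (F k) o) 0 :=
        ae_all_iff.mpr fun k => C.ae_has (hF.lip k)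
      filter_upwards [hA, hB] with o hoA hoB k
      -- the values
      have hval : ∀ x k, Tendsto (fun j => UU F (s j) (comb (a j) th) k x) atTop
          (𝓝 (UU F s₀ (comb a₀ th) k x)) := by
        intro x k
        rw [tendsto_iff_dist_tendsto_zero]
        refine squeeze_zero (fun _ => dist_nonneg) (fun j => ?_) he0
        rw [Real.dist_eq]
        exact (PIN_UU_sub hF hth (a j) a₀ (hs j) hp₀ k x).trans (hen j k)
      have hrx : ∀ x, Tendsto (fun j => rr F (s j) (comb (a j) th) x) atTop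
          (𝓝 (rr F s₀ (comb a₀ th) x)) := by
        intro x
        rw [tendsto_iff_dist_tendsto_zero]
        have h6 : Tendsto (fun j => 2 * e j) atTop (𝓝 0) := by simpa using he0.const_mul 2
        refine squeeze_zero (fun _ => dist_nonneg) (fun j => ?_) h6
        rw [Real.dist_eq]
        exact hrs j x
      have hgood : ∀ x, ∀ᶠ j in atTop, (δ : ℝ) < rr F (s j) (comb (a j) th) x := fun x =>
        (hrx x).eventually_const_lt (hr0 x)
      -- derivatives along a curve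
      have hder : ∀ (cu : ℝ → M) (gt : Fin n → ℝ) (gF : Fin 3 → ℝ),
          (∀ i, HasDerivAt (fun t => th i (cu t)) (gt i) 0) →
          (∀ k, HasDerivAt (fun t => F k (cu t)) (gF k) 0) → ∀ k,
          Tendsto (fun j => deriv (fun t => NV δ (UU F (s j) (comb (a j) th)) k (cu t)) 0) atTop
            (𝓝 (deriv (fun t => NV δ (UU F s₀ (comb a₀ th)) k (cu t)) 0)) := by
        intro cu gt gF h1 h2 k
        have hU : ∀ (b : Fin n → Fin 3 → ℝ) (r : ℝ) (i : Fin 3),
            HasDerivAt (fun t => UU F r (comb b th) i (cu t))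
              ((1 - r) * (∑ l, b l i * gt l) + r * gF i) 0 := by
          intro b r i
          have h3 : HasDerivAt (fun t => comb b th i (cu t)) (∑ l, b l i * gt l) 0 :=
            HasDerivAt.fun_sum fun l _ => (h1 l).const_mul (b l i)
          exact (h3.const_mul (1 - r)).add ((h2 i).const_mul r)
        have h0 : deriv (fun t => NV δ (UU F s₀ (comb a₀ th)) k (cu t)) 0
            = ND (fun i => UU F s₀ (comb a₀ th) i (cu 0))
              (fun i => (1 - s₀) * (∑ l, a₀ l i * gt l) + s₀ * gF i) k :=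
          (PIN_deriv δ.2 (U := UU F s₀ (comb a₀ th)) (c := cu)
          (fun i => hU a₀ s₀ i) (hr0 _) k).deriv
        rw [h0]
        have hev : (fun j => ND (fun i => UU F (s j) (comb (a j) th) i (cu 0))
            (fun i => (1 - s j) * (∑ l, a j l i * gt l) + s j * gF i) k) =ᶠ[atTop]
            fun j => deriv (fun t => NV δ (UU F (s j) (comb (a j) th)) k (cu t)) 0 := by
          filter_upwards [hgood (cu 0)] with j hj
          exact ((PIN_deriv δ.2 (U := UU F (s j) (comb (a j) th)) (c := cu)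
            (fun i => hU (a j) (s j) i) hj k).deriv).symm
        refine Tendsto.congr' hev (PIN_ND_tendsto (fun i => hval _ i) (fun i => ?_) ?_ k)
        · have h4 : Tendsto (fun j => ∑ l, a j l i * gt l) atTop (𝓝 (∑ l, a₀ l i * gt l)) :=
            tendsto_finsetSum _ fun l _ => (hak l i).mul_const _
          exact ((tendsto_const_nhds.sub hss).mul h4).add (hss.mul_const _)
        · rw [← PIN_norm]
          exact δ.2.trans_lt (hr0 (cu 0))
      refine ⟨?_, ?_, ?_⟩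
      · have h5 : Tendsto (fun j => max (rr F (s j) (comb (a j) th) (C.pt o)) (δ : ℝ)) atTop
            (𝓝 (max (rr F s₀ (comb a₀ th) (C.pt o)) (δ : ℝ))) := (hrx _).max tendsto_const_nhds
        have h6 : (0 : ℝ) < max (rr F s₀ (comb a₀ th) (C.pt o)) (δ : ℝ) :=
          lt_max_of_lt_right (by exact_mod_cast hδ)
        exact (hval (C.pt o) k).div h5 h6.ne'
      · exact hder (C.px o) (fun i => C.gx (th i) o) (fun k => C.gx (F k) o) (fun i => (hoA i).1)
          (fun k => (hoB k).1) k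
      · exact hder (C.py o) (fun i => C.gy (th i) o) (fun k => C.gy (F k) o) (fun i => (hoA i).2)
          (fun k => (hoB k).2) k

/-- PINNED FIXED POINTS -/
theorem pin_fix (C : Calc M γ) (hγ : Bd γ) (hR : RegAE C) {F : Fin 3 → M → ℝ} (hF : Sph γ F)
    {LF : ℝ≥0} (hLF : ∀ k, LipschitzWith LF (F k)) {c : ℝ → ℝ} (hc : Continuous c) {δ : ℝ≥0}
    (hδ : 0 < δ) (hcδ : ∀ s, 2 * (δ : ℝ) ≤ c s) (hc1 : c 1 < 1) {ε : ℝ} (hε : 0 < ε) :
    ∃ (G : Fam γ) (s : ℝ), 0 ≤ s ∧ s < 1 ∧ Pre γ G.Th ∧ (∀ x, c s ≤ rr F s G.Th x) ∧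
      (s = 0 ∨ ∃ x, rr F s G.Th x = c s) ∧ Sph γ (NV δ (UU F s G.Th)) ∧
      (∀ k, LipschitzWith (4 / δ * (3 + LF)) (NV δ (UU F s G.Th) k)) ∧
      Real.pi ^ 2 - ε ≤ ∫ p, Flux C (G.f p) (NV δ (UU F s G.Th)) p ∂PP := by
  have hδ1 : (δ : ℝ) ≤ 1 := by
    have h := hcδ 1
    have hδ' : (0 : ℝ) < δ := hδ
    linarith
  obtain ⟨G, s, hs, hpre, hσ, hfl⟩ := fixpt_c C hγ hR (pinOp C hF hLF hc hδ hcδ hδ1) hε
  change max 0 (min 1 (s + c s - mn (rr F s G.Th))) = s at hσ
  change max 0 (min 1 (2 * mn (rr F s G.Th) / c s - 1)) = 1 → _ at hfl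
  have hcp : 0 < c s := by
    have hδ' : (0 : ℝ) < δ := hδ
    linarith [hcδ s]
  have hcont := rr_cont hLF hpre hs
  -- `s < 1`
  have hs1 : s < 1 := by
    refine lt_of_le_of_ne hs.2 fun h1 => ?_
    subst h1
    have hm : mn (rr F 1 G.Th) = 1 := by
      obtain ⟨x, hx⟩ := mn_mem hcont
      rw [← hx]
      have h2 : vv (n := 0) (UU F 1 G.Th) x = vv (n := 0) F x := by
        have h3 : UU F 1 G.Th = F := by
          funext k y
          unfold UU
          ring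
        rw [h3]
      unfold rr
      rw [h2]
      exact norm_vv hF x
    rw [hm] at hσ
    have h4 : min 1 (1 + c 1 - 1) < 1 := by
      refine (min_le_right _ _).trans_lt ?_
      linarith
    have h5 : max 0 (min 1 (1 + c 1 - 1)) < 1 := max_lt one_pos h4
    linarith
  -- the minimum is at least `c`
  have hmc : c s ≤ mn (rr F s G.Th) ∧ (s = 0 ∨ mn (rr F s G.Th) = c s) := by
    rcases hs.1.eq_or_lt with h0 | h0
    · rw [← h0] at hσ ⊢
      refine ⟨?_, Or.inl rfl⟩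
      have h2 : min 1 (0 + c 0 - mn (rr F 0 G.Th)) ≤ 0 := (le_max_right (0 : ℝ) _).trans hσ.le
      rcases min_le_iff.1 h2 with h3 | h3
      · linarith
      · linarith
    · have h2 : min 1 (s + c s - mn (rr F s G.Th)) = s := by
        rcases max_choice 0 (min 1 (s + c s - mn (rr F s G.Th))) with h3 | h3
        · rw [h3] at hσ
          linarith
        · rw [h3] at hσ
          exact hσ
      have h3 : s + c s - mn (rr F s G.Th) = s := by
        rcases min_choice 1 (s + c s - mn (rr F s G.Th)) with h4 | h4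
        · rw [h4] at h2
          linarith
        · rw [h4] at h2
          exact h2
      exact ⟨by linarith, Or.inr (by linarith)⟩
  have hψ : max 0 (min 1 (2 * mn (rr F s G.Th) / c s - 1)) = 1 := by
    have h1 : 1 ≤ 2 * mn (rr F s G.Th) / c s - 1 := by
      rw [le_sub_iff_add_le, le_div_iff₀ hcp]
      linarith [hmc.1]
    rw [min_eq_left h1]
    exact max_eq_right zero_le_one
  refine ⟨G, s, hs.1, hs1, hpre, fun x => hmc.1.trans (mn_le hcont x), ?_, ?_, ?_, hfl hψ⟩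
  · rcases hmc.2 with h | h
    · exact Or.inl h
    · obtain ⟨x, hx⟩ := mn_mem hcont
      exact Or.inr ⟨x, hx.trans h⟩
  · exact (pinOp C hF hLF hc hδ hcδ hδ1).sph s hs G.Th hpre (by
      change 0 < max 0 (min 1 (2 * mn (rr F s G.Th) / c s - 1))
      rw [hψ]
      exact one_pos)
  · exact fun k => NV_lip hδ (UU_lip hLF hpre hs) k

end

end Pool.Agent.FPX
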