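import Mathlib
import Pool.Agent.FPX.CUTDefs
import Pool.Agent.FPX.EXTS
import Pool.Agent.FPX.KCT
import Pool.Agent.FPX.FME
import Pool.Agent.FPX.PIN

/-
EXTF (helper20): the kernel of the azimuth form for maps into `ℝ³`, the derivative of the normalised
map, and the comparison of the cut-off flux of `T` with the flux of `U/|U|`, `U` a small perturbation
of `T` without zeros.
-/

open MeasureTheory Set Filter Topology
open scoped ENNReal NNReal

noncomputable section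

namespace Pool.Agent.FPX

open Pool.Agent.EWD

/-! ### the kernel -/

/-- the kernel: the azimuth form around `p` of a map with value `U` and derivative `a` -/
def kU (U a p : E3) : ℝ := inner ℝ p (crs U a) / (‖U‖ ^ 2 - inner ℝ U p ^ 2)

theorem crs_smul_left (c : ℝ) (v a : E3) : crs (c • v) a = c • crs v a := by
  ext i
  fin_cases i
  · change (c • v) 1 * a 2 - (c • v) 2 * a 1 = c * (v 1 * a 2 - v 2 * a 1)
    simp only [PiLp.smul_apply, smul_eq_mul]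
    ring
  · change (c • v) 2 * a 0 - (c • v) 0 * a 2 = c * (v 2 * a 0 - v 0 * a 2)
    simp only [PiLp.smul_apply, smul_eq_mul]
    ring
  · change (c • v) 0 * a 1 - (c • v) 1 * a 0 = c * (v 0 * a 1 - v 1 * a 0)
    simp only [PiLp.smul_apply, smul_eq_mul]
    ring

theorem crs_smul_right (c : ℝ) (v a : E3) : crs v (c • a) = c • crs v a := by
  ext i
  fin_cases i
  · change v 1 * (c • a) 2 - v 2 * (c • a) 1 = c * (v 1 * a 2 - v 2 * a 1)
    simp only [PiLp.smul_apply, smul_eq_mul]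
    ring
  · change v 2 * (c • a) 0 - v 0 * (c • a) 2 = c * (v 2 * a 0 - v 0 * a 2)
    simp only [PiLp.smul_apply, smul_eq_mul]
    ring
  · change v 0 * (c • a) 1 - v 1 * (c • a) 0 = c * (v 0 * a 1 - v 1 * a 0)
    simp only [PiLp.smul_apply, smul_eq_mul]
    ring

theorem crs_sub_right (v a b : E3) : crs v (a - b) = crs v a - crs v b := by
  ext i
  fin_cases i
  · change v 1 * (a - b) 2 - v 2 * (a - b) 1 = (v 1 * a 2 - v 2 * a 1) - (v 1 * b 2 - v 2 * b 1)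
    simp only [PiLp.sub_apply]
    ring
  · change v 2 * (a - b) 0 - v 0 * (a - b) 2 = (v 2 * a 0 - v 0 * a 2) - (v 2 * b 0 - v 0 * b 2)
    simp only [PiLp.sub_apply]
    ring
  · change v 0 * (a - b) 1 - v 1 * (a - b) 0 = (v 0 * a 1 - v 1 * a 0) - (v 0 * b 1 - v 1 * b 0)
    simp only [PiLp.sub_apply]
    ring

theorem norm_nrm {U : E3} (hU : U ≠ 0) : ‖(‖U‖⁻¹ : ℝ) • U‖ = 1 := by
  rw [norm_smul, norm_inv, norm_norm, inv_mul_cancel₀ (norm_ne_zero_iff.2 hU)]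

theorem kU_eq {U : E3} (hU : U ≠ 0) (a p : E3) :
    kU U a p = inner ℝ p (crs ((‖U‖⁻¹ : ℝ) • U) ((‖U‖⁻¹ : ℝ) • a)) / sq2 ((‖U‖⁻¹ : ℝ) • U) p := by
  have h0 : ‖U‖ ≠ 0 := norm_ne_zero_iff.2 hU
  unfold kU sq2
  rw [crs_smul_left, crs_smul_right, inner_smul_right, inner_smul_right, real_inner_smul_left]
  have e : 1 - (‖U‖⁻¹ * inner ℝ U p) ^ 2 = ‖U‖⁻¹ * (‖U‖⁻¹ * (‖U‖ ^ 2 - inner ℝ U p ^ 2)) := by
    field_simp
  rw [e, mul_div_mul_left _ _ (inv_ne_zero h0), mul_div_mul_left _ _ (inv_ne_zero h0)]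

/-- the mean of the absolute value of the kernel, unit vector -/
theorem kernel_le {v ξ : E3} (hv : ‖v‖ = 1) :
    ∫⁻ p, ENNReal.ofReal |inner ℝ p (crs v ξ) / sq2 v p| ∂PP ≤ ENNReal.ofReal (‖ξ‖ * (Real.pi / 2)) := by
  have h1 : ∀ᵐ p ∂PP, ENNReal.ofReal |inner ℝ p (crs v ξ) / sq2 v p| ≤
      ENNReal.ofReal ‖ξ‖ * ENNReal.ofReal (1 / √(sq2 v p)) := by
    filter_upwards [ae_norm, ae_sq2 v hv] with p hp hq
    rw [← ENNReal.ofReal_mul (norm_nonneg _)]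
    refine ENNReal.ofReal_le_ofReal ?_
    have h2 := inner_crs_le hv hp ξ
    have hs : 0 < √(sq2 v p) := Real.sqrt_pos.2 hq
    have h3 : |inner ℝ p (crs v ξ)| ≤ √(sq2 v p) * ‖ξ‖ := by
      refine abs_le_of_sq_le_sq ?_ (by positivity)
      rw [mul_pow, Real.sq_sqrt hq.le]
      exact h2
    rw [abs_div, abs_of_pos hq, div_le_iff₀ hq]
    have h4 : ‖ξ‖ * (1 / √(sq2 v p)) * sq2 v p = √(sq2 v p) * ‖ξ‖ := by
      have h5 : 1 / √(sq2 v p) * sq2 v p = √(sq2 v p) := by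
        rw [one_div, inv_mul_eq_div, div_eq_iff hs.ne', Real.mul_self_sqrt hq.le]
      rw [mul_assoc, h5]
      ring
    rw [h4]
    exact h3
  refine (lintegral_mono_ae h1).trans ?_
  rw [lintegral_const_mul' _ _ ENNReal.ofReal_ne_top]
  obtain ⟨h6, h7⟩ := int_inv hv
  rw [← ofReal_integral_eq_lintegral_ofReal h6 (Eventually.of_forall fun p => by positivity), h7,
    ENNReal.ofReal_mul (norm_nonneg _)]

theorem kU_le {U a : E3} (hU : U ≠ 0) :
    ∫⁻ p, ENNReal.ofReal |kU U a p| ∂PP ≤ ENNReal.ofReal (‖a‖ / ‖U‖ * (Real.pi / 2)) := by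
  have h := kernel_le (ξ := (‖U‖⁻¹ : ℝ) • a) (norm_nrm hU)
  simp only [← kU_eq hU] at h
  rw [norm_smul, norm_inv, norm_norm, inv_mul_eq_div] at h
  exact h

/-! ### the derivative of the normalised map -/

variable {M : Type} [MetricSpace M] {γ : ℝ → M}

omit [MetricSpace M] in
private theorem EXTF_norm (U : Fin 3 → M → ℝ) (x : M) : ‖vv (n := 0) U x‖ = √(∑ i, U i x ^ 2) := by
  rw [EuclideanSpace.norm_eq]
  congr 1
  rw [Fin.sum_univ_three, Fin.sum_univ_three]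
  simp only [Real.norm_eq_abs, sq_abs]
  rfl

omit [MetricSpace M] in
private theorem EXTF_deriv {δ : ℝ} (hδ : 0 ≤ δ) {U : Fin 3 → M → ℝ} {c : ℝ → M} {g : Fin 3 → ℝ}
    (h : ∀ i, HasDerivAt (fun t => U i (c t)) (g i) 0) (hr : δ < ‖vv (n := 0) U (c 0)‖) (k : Fin 3) :
    HasDerivAt (fun t => NV δ U k (c t)) (ND (fun i => U i (c 0)) g k) 0 := by
  have hpos : 0 < √(∑ i, U i (c 0) ^ 2) := by
    rw [← EXTF_norm]
    exact hδ.trans_lt hr
  have hsum : HasDerivAt (fun t => ∑ i, U i (c t) ^ 2) (∑ i, 2 * U i (c 0) * g i) 0 := by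
    refine HasDerivAt.fun_sum fun i _ => ?_
    have h5 := (h i).fun_pow 2
    simpa using h5
  have hsq : HasDerivAt (fun t => √(∑ i, U i (c t) ^ 2)) ((∑ i, U i (c 0) * g i) / √(∑ i, U i (c 0) ^ 2)) 0 := by
    have h1 := hsum.sqrt (fun h0 => by rw [h0, Real.sqrt_zero] at hpos; exact lt_irrefl _ hpos)
    convert h1 using 1
    have e : ∑ i, 2 * U i (c 0) * g i = 2 * ∑ i, U i (c 0) * g i := by
      rw [Finset.mul_sum]
      exact Finset.sum_congr rfl fun i _ => by ring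
    rw [e, mul_div_mul_left _ _ two_ne_zero]
  have hq := (h k).div hsq hpos.ne'
  have hev : (fun t => NV δ U k (c t)) =ᶠ[𝓝 0] fun t => U k (c t) / √(∑ i, U i (c t) ^ 2) := by
    have h2 : ∀ᶠ t in 𝓝 (0 : ℝ), δ < √(∑ i, U i (c t) ^ 2) := by
      refine hsq.continuousAt.eventually_const_lt ?_
      change δ < √(∑ i, U i (c 0) ^ 2)
      rw [← EXTF_norm]
      exact hr
    filter_upwards [h2] with t ht
    unfold NV
    rw [EXTF_norm, max_eq_left ht.le]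
  exact hq.congr_of_eventuallyEq hev

private theorem EXTF_ND (u g : E3) (k : Fin 3) :
    ND (fun i => u i) (fun i => g i) k =
      ((‖u‖⁻¹ : ℝ) • (g - (inner ℝ ((‖u‖⁻¹ : ℝ) • u) g : ℝ) • ((‖u‖⁻¹ : ℝ) • u))) k := by
  have e1 : √(∑ i, u i ^ 2) = ‖u‖ := by
    rw [EuclideanSpace.norm_eq]
    congr 1
    exact Finset.sum_congr rfl fun i _ => by rw [Real.norm_eq_abs, sq_abs]
  have e2 : ∑ i, u i * g i = inner ℝ u g := by
    rw [inner3, Fin.sum_univ_three]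
  unfold ND
  rw [e1, e2]
  simp only [PiLp.smul_apply, PiLp.sub_apply, smul_eq_mul]
  rw [real_inner_smul_left]
  rcases eq_or_ne ‖u‖ 0 with h | h
  · rw [h]
    simp
  · field_simp

/-- the value and the derivatives of the normalised map, where the norm is larger than `δ` -/
theorem ae_nv_loc (C : Calc M γ) {δ : ℝ} (hδ : 0 ≤ δ) {U : Fin 3 → M → ℝ} (hU : ∀ k, Lip (U k)) :
    ∀ᵐ o ∂C.μ, δ < ‖at' C U o‖ →
    at' C (NV δ U) o = (‖at' C U o‖⁻¹ : ℝ) • at' C U o ∧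
    dx C (NV δ U) o = (‖at' C U o‖⁻¹ : ℝ) • (dx C U o -
      (inner ℝ ((‖at' C U o‖⁻¹ : ℝ) • at' C U o) (dx C U o) : ℝ) • ((‖at' C U o‖⁻¹ : ℝ) • at' C U o)) ∧
    dy C (NV δ U) o = (‖at' C U o‖⁻¹ : ℝ) • (dy C U o -
      (inner ℝ ((‖at' C U o‖⁻¹ : ℝ) • at' C U o) (dy C U o) : ℝ) • ((‖at' C U o‖⁻¹ : ℝ) • at' C U o)) := by
  have h : ∀ᵐ o ∂C.μ, ∀ k, HasDerivAt (fun s => U k (C.px o s)) (C.gx (U k) o) 0 ∧
      HasDerivAt (fun s => U k (C.py o s)) (C.gy (U k) o) 0 := ae_all_iff.2 fun k => C.ae_has (hU k)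
  filter_upwards [h] with o ho hr
  have hat : ∀ k, at' C U o k = U k (C.pt o) := by
    intro k
    fin_cases k <;> rfl
  have hdx : ∀ k, dx C U o k = C.gx (U k) o := by
    intro k
    fin_cases k <;> rfl
  have hdy : ∀ k, dy C U o k = C.gy (U k) o := by
    intro k
    fin_cases k <;> rfl
  have hrx : δ < ‖vv (n := 0) U (C.px o 0)‖ := hr
  have hry : δ < ‖vv (n := 0) U (C.py o 0)‖ := by
    rw [C.same o]
    exact hr
  refine ⟨?_, ?_, ?_⟩
  · ext k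
    have e : at' C (NV δ U) o k = NV δ U k (C.pt o) := by
      fin_cases k <;> rfl
    rw [e, PiLp.smul_apply, smul_eq_mul, hat]
    unfold NV
    have hr' : δ < ‖vv (n := 0) U (C.pt o)‖ := hr
    rw [max_eq_left hr'.le, div_eq_inv_mul]
    rfl
  · ext k
    have e : dx C (NV δ U) o k = C.gx (NV δ U k) o := by
      fin_cases k <;> rfl
    rw [e, ← EXTF_ND]
    have h1 := (EXTF_deriv hδ (fun i => (ho i).1) hrx k).deriv
    have e2 : (fun i => U i (C.px o 0)) = fun i => at' C U o i := by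
      funext i
      rw [hat]
      rfl
    have e3 : (fun i => C.gx (U i) o) = fun i => dx C U o i := by
      funext i
      rw [hdx]
    rw [e2, e3] at h1
    exact h1
  · ext k
    have e : dy C (NV δ U) o k = C.gy (NV δ U k) o := by
      fin_cases k <;> rfl
    rw [e, ← EXTF_ND]
    have h1 := (EXTF_deriv hδ (fun i => (ho i).2) hry k).deriv
    have e2 : (fun i => U i (C.py o 0)) = fun i => at' C U o i := by
      funext i
      rw [hat]
      rw [C.same o]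
      rfl
    have e3 : (fun i => C.gy (U i) o) = fun i => dy C U o i := by
      funext i
      rw [hdy]
    rw [e2, e3] at h1
    exact h1

/-- the value and the derivatives of the normalised map -/
theorem ae_nv (C : Calc M γ) {δ : ℝ} (hδ : 0 ≤ δ) {U : Fin 3 → M → ℝ} (hU : ∀ k, Lip (U k))
    (hr : ∀ x, δ < ‖vv (n := 0) U x‖) : ∀ᵐ o ∂C.μ,
    at' C (NV δ U) o = (‖at' C U o‖⁻¹ : ℝ) • at' C U o ∧
    dx C (NV δ U) o = (‖at' C U o‖⁻¹ : ℝ) • (dx C U o -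
      (inner ℝ ((‖at' C U o‖⁻¹ : ℝ) • at' C U o) (dx C U o) : ℝ) • ((‖at' C U o‖⁻¹ : ℝ) • at' C U o)) ∧
    dy C (NV δ U) o = (‖at' C U o‖⁻¹ : ℝ) • (dy C U o -
      (inner ℝ ((‖at' C U o‖⁻¹ : ℝ) • at' C U o) (dy C U o) : ℝ) • ((‖at' C U o‖⁻¹ : ℝ) • at' C U o)) := by
  filter_upwards [ae_nv_loc C hδ hU] with o ho
  exact ho (hr (C.pt o))

/-- the flux density in terms of the kernel, pointwise -/
theorem flx_kU {C : Calc M γ} {v U : Fin 3 → M → ℝ} {o : Om} (hne : at' C U o ≠ 0)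
    (h1 : at' C v o = (‖at' C U o‖⁻¹ : ℝ) • at' C U o)
    (h2 : dx C v o = (‖at' C U o‖⁻¹ : ℝ) • (dx C U o -
      (inner ℝ ((‖at' C U o‖⁻¹ : ℝ) • at' C U o) (dx C U o) : ℝ) • ((‖at' C U o‖⁻¹ : ℝ) • at' C U o)))
    (h3 : dy C v o = (‖at' C U o‖⁻¹ : ℝ) • (dy C U o -
      (inner ℝ ((‖at' C U o‖⁻¹ : ℝ) • at' C U o) (dy C U o) : ℝ) • ((‖at' C U o‖⁻¹ : ℝ) • at' C U o)))
    (θ : M → ℝ) (p : E3) :
    flx C θ v p o = C.gx θ o * kU (at' C U o) (dy C U o) p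
      - C.gy θ o * kU (at' C U o) (dx C U o) p := by
  rw [kU_eq hne, kU_eq hne]
  unfold flx
  rw [h1, h2, h3]
  set v : E3 := (‖at' C U o‖⁻¹ : ℝ) • at' C U o with hv
  have key : ∀ a : E3, crs v ((‖at' C U o‖⁻¹ : ℝ) • (a - (inner ℝ v a : ℝ) • v)) =
      crs v ((‖at' C U o‖⁻¹ : ℝ) • a) := by
    intro a
    rw [crs_smul_right, crs_sub_right, crs_smul_right _ v v, crs_self, smul_zero, sub_zero,
      crs_smul_right]
  rw [key, key]
  ring

/-- the flux density of the normalised map in terms of the kernel -/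
theorem ae_flx_nv (C : Calc M γ) {δ : ℝ} (hδ : 0 ≤ δ) {U : Fin 3 → M → ℝ} (hU : ∀ k, Lip (U k))
    (hr : ∀ x, δ < ‖vv (n := 0) U x‖) : ∀ᵐ o ∂C.μ, ∀ (θ : M → ℝ) (p : E3),
    flx C θ (NV δ U) p o = C.gx θ o * kU (at' C U o) (dy C U o) p
      - C.gy θ o * kU (at' C U o) (dx C U o) p := by
  filter_upwards [ae_nv C hδ hU hr] with o ho θ p
  have hne : at' C U o ≠ 0 := norm_pos_iff.1 (hδ.trans_lt (hr (C.pt o)))
  obtain ⟨h1, h2, h3⟩ := ho
  rw [kU_eq hne, kU_eq hne]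
  unfold flx
  rw [h1, h2, h3]
  set v : E3 := (‖at' C U o‖⁻¹ : ℝ) • at' C U o with hv
  have key : ∀ a : E3, crs v ((‖at' C U o‖⁻¹ : ℝ) • (a - (inner ℝ v a : ℝ) • v)) =
      crs v ((‖at' C U o‖⁻¹ : ℝ) • a) := by
    intro a
    rw [crs_smul_right, crs_sub_right, crs_smul_right _ v v, crs_self, smul_zero, sub_zero,
      crs_smul_right]
  rw [key, key]
  ring

/-- the energy density of the normalised map -/
theorem ae_nv_le (C : Calc M γ) {δ : ℝ} (hδ : 0 ≤ δ) {U : Fin 3 → M → ℝ} (hU : ∀ k, Lip (U k))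
    (hr : ∀ x, δ < ‖vv (n := 0) U x‖) : ∀ᵐ o ∂C.μ,
    ‖dx C (NV δ U) o‖ ≤ ‖dx C U o‖ / ‖at' C U o‖ ∧ ‖dy C (NV δ U) o‖ ≤ ‖dy C U o‖ / ‖at' C U o‖ := by
  filter_upwards [ae_nv C hδ hU hr] with o ho
  have hne : at' C U o ≠ 0 := norm_pos_iff.1 (hδ.trans_lt (hr (C.pt o)))
  have hv := norm_nrm hne
  set v : E3 := (‖at' C U o‖⁻¹ : ℝ) • at' C U o with hvd
  have key : ∀ a : E3, ‖(‖at' C U o‖⁻¹ : ℝ) • (a - (inner ℝ v a : ℝ) • v)‖ ≤ ‖a‖ / ‖at' C U o‖ := by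
    intro a
    rw [norm_smul, norm_inv, norm_norm, div_eq_inv_mul]
    refine mul_le_mul_of_nonneg_left ?_ (by positivity)
    refine le_of_sq_le_sq ?_ (norm_nonneg _)
    rw [@norm_sub_sq_real, norm_smul, inner_smul_right, hv, mul_one, real_inner_comm v a,
      Real.norm_eq_abs, sq_abs]
    nlinarith [sq_nonneg (inner ℝ v a : ℝ)]
  obtain ⟨-, h2, h3⟩ := ho
  rw [h2, h3]
  exact ⟨key _, key _⟩

end Pool.Agent.FPX
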