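import Mathlib
import Pool.Agent.FPX.Defs
import Pool.Agent.FPX.VEC
import Pool.Agent.FPX.FME
import Pool.Agent.FPX.EXS
import Pool.Agent.FPX.PIN
import Pool.Agent.FPX.DEG

/-
FPX, INT (helper30): the integrated inequality. `v` is an odd Lipschitz map into the sphere,
`a = dx v`, `b = dy v`, `J = ⟨v, b × a⟩`, `N = (v × b, - v × a)`. If the flux of the family `G` is at
least `π² - ε` then `∫ Q ≤ 3 vol - 12 π + 3 ∫ J + (12 / π) ε`, where
`Q = |dΘ_⊥ - N|² + (3/2) |⟨v, dΘ⟩|² - (3/2) |dv|² + 3 J`.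
If `Θ = R v - S` then `Q = 2 |(R - 1) p₊ - q₊|² + 2 |(R + 1) p₋ - q₋|² - 6 |p₋|² + (3/2) |dR - ⟨v, dS⟩|²`
with `p± = (a ± v × b)/2` and `q± = (s_⊥ ± v × t)/2`, `s = dx S`, `t = dy S`.
-/

open MeasureTheory Set Filter Topology
open scoped ENNReal NNReal

noncomputable section

namespace Pool.Agent.FPX

open Pool.Agent.EWD

/-! ### algebra -/

/-- the component orthogonal to `v` -/
def prj (v s : E3) : E3 := s - (inner ℝ v s : ℝ) • v

/-- the conformal part of the linear map `(s, t)` -/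
def qp (v s t : E3) : E3 := (1 / 2 : ℝ) • (prj v s + crs v t)

/-- the anticonformal part of the linear map `(s, t)` -/
def qm (v s t : E3) : E3 := (1 / 2 : ℝ) • (prj v s - crs v t)

/-- the quadratic form -/
def Qd (v a b A B : E3) : ℝ :=
  ‖prj v A - crs v b‖ ^ 2 + ‖prj v B + crs v a‖ ^ 2 + (3 / 2) * (inner ℝ v A ^ 2 + inner ℝ v B ^ 2)
    - (3 / 2) * (‖a‖ ^ 2 + ‖b‖ ^ 2) + 3 * inner ℝ v (crs b a)

theorem inner_self_one {v : E3} (hv : ‖v‖ = 1) : inner ℝ v v = (1 : ℝ) := by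
  rw [real_inner_self_eq_norm_sq, hv, one_pow]

theorem prj_perp {v : E3} (hv : ‖v‖ = 1) (s : E3) : inner ℝ v (prj v s) = (0 : ℝ) := by
  unfold prj
  rw [inner_sub_right, inner_smul_right, inner_self_one hv]
  ring

theorem prj_of_perp {v a : E3} (ha : inner ℝ v a = (0 : ℝ)) : prj v a = a := by
  unfold prj
  rw [ha, zero_smul, sub_zero]

theorem norm_prj_sq {v : E3} (hv : ‖v‖ = 1) (s : E3) :
    ‖s‖ ^ 2 = ‖prj v s‖ ^ 2 + inner ℝ v s ^ 2 := by
  have h : s = prj v s + (inner ℝ v s : ℝ) • v := by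
    unfold prj
    abel
  have h1 : inner ℝ (prj v s) ((inner ℝ v s : ℝ) • v) = (0 : ℝ) := by
    rw [inner_smul_right, real_inner_comm v (prj v s), prj_perp hv, mul_zero]
  nth_rewrite 1 [h]
  rw [norm_add_sq_real, h1, norm_smul, hv, Real.norm_eq_abs, mul_one, sq_abs]
  ring

theorem crs_add (v a b : E3) : crs v (a + b) = crs v a + crs v b := by
  ext i
  fin_cases i
  · change v 1 * (a 2 + b 2) - v 2 * (a 1 + b 1) = v 1 * a 2 - v 2 * a 1 + (v 1 * b 2 - v 2 * b 1)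
    ring
  · change v 2 * (a 0 + b 0) - v 0 * (a 2 + b 2) = v 2 * a 0 - v 0 * a 2 + (v 2 * b 0 - v 0 * b 2)
    ring
  · change v 0 * (a 1 + b 1) - v 1 * (a 0 + b 0) = v 0 * a 1 - v 1 * a 0 + (v 0 * b 1 - v 1 * b 0)
    ring

theorem crs_smul (v : E3) (c : ℝ) (a : E3) : crs v (c • a) = c • crs v a := by
  ext i
  fin_cases i
  · change v 1 * (c * a 2) - v 2 * (c * a 1) = c * (v 1 * a 2 - v 2 * a 1)
    ring
  · change v 2 * (c * a 0) - v 0 * (c * a 2) = c * (v 2 * a 0 - v 0 * a 2)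
    ring
  · change v 0 * (c * a 1) - v 1 * (c * a 0) = c * (v 0 * a 1 - v 1 * a 0)
    ring

theorem crs_neg (v a : E3) : crs v (-a) = -crs v a := by
  have h := crs_smul v (-1) a
  rwa [neg_one_smul, neg_one_smul] at h

theorem crs_sub (v a b : E3) : crs v (a - b) = crs v a - crs v b := by
  rw [sub_eq_add_neg, crs_add, crs_neg, ← sub_eq_add_neg]

theorem crs_crs {v : E3} (hv : ‖v‖ = 1) (a : E3) : crs v (crs v a) = -prj v a := by
  have h1 : v 0 ^ 2 + v 1 ^ 2 + v 2 ^ 2 = 1 := by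
    rw [← normsq3, hv, one_pow]
  have h2 := inner3 v a
  ext i
  unfold prj
  fin_cases i
  · change v 1 * (v 0 * a 1 - v 1 * a 0) - v 2 * (v 2 * a 0 - v 0 * a 2)
      = -(a 0 - inner ℝ v a * v 0)
    rw [h2]
    linear_combination (-a 0) * h1
  · change v 2 * (v 1 * a 2 - v 2 * a 1) - v 0 * (v 0 * a 1 - v 1 * a 0)
      = -(a 1 - inner ℝ v a * v 1)
    rw [h2]
    linear_combination (-a 1) * h1
  · change v 0 * (v 2 * a 0 - v 0 * a 2) - v 1 * (v 1 * a 2 - v 2 * a 1)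
      = -(a 2 - inner ℝ v a * v 2)
    rw [h2]
    linear_combination (-a 2) * h1

theorem crs_prj (v t : E3) : crs v (prj v t) = crs v t := by
  unfold prj
  rw [crs_sub, crs_smul, crs_self, smul_zero, sub_zero]

/-- the sum of the squares in terms of the conformal and anticonformal parts -/
theorem norm_pm {v X Y : E3} (hv : ‖v‖ = 1) (hX : inner ℝ v X = (0 : ℝ)) (hY : inner ℝ v Y = (0 : ℝ)) :
    ‖X‖ ^ 2 + ‖Y‖ ^ 2 = 2 * ‖qp v X Y‖ ^ 2 + 2 * ‖qm v X Y‖ ^ 2 := by
  unfold qp qm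
  rw [prj_of_perp hX, norm_smul, norm_smul, mul_pow, mul_pow, norm_add_sq_real, norm_sub_sq_real,
    norm_crs hv hY]
  norm_num
  ring

/-- the Jacobian -/
theorem jac_pm {v a b : E3} (hv : ‖v‖ = 1) (ha : inner ℝ v a = (0 : ℝ)) (hb : inner ℝ v b = (0 : ℝ)) :
    inner ℝ v (crs b a) = ‖qp v a b‖ ^ 2 - ‖qm v a b‖ ^ 2 := by
  have h : inner ℝ v (crs b a) = inner ℝ a (crs v b) := by
    simp only [inner3, crs0, crs1, crs2]
    ring
  unfold qp qm
  rw [prj_of_perp ha, norm_smul, norm_smul, mul_pow, mul_pow, norm_add_sq_real, norm_sub_sq_real,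
    norm_crs hv hb, h]
  norm_num
  ring

theorem prj_crs (v b : E3) : prj v (crs v b) = crs v b := prj_of_perp (inner_crs_left v b)

theorem prj_add (v a b : E3) : prj v (a + b) = prj v a + prj v b := by
  unfold prj
  rw [inner_add_right, add_smul]
  abel

theorem prj_smul (v : E3) (c : ℝ) (a : E3) : prj v (c • a) = c • prj v a := by
  unfold prj
  rw [inner_smul_right, smul_sub, smul_smul]

theorem prj_neg (v a : E3) : prj v (-a) = -prj v a := by
  have h := prj_smul v (-1) a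
  rwa [neg_one_smul, neg_one_smul] at h

theorem prj_sub (v a b : E3) : prj v (a - b) = prj v a - prj v b := by
  rw [sub_eq_add_neg, prj_add, prj_neg, ← sub_eq_add_neg]

theorem prj_self {v : E3} (hv : ‖v‖ = 1) : prj v v = 0 := by
  unfold prj
  rw [inner_self_one hv, one_smul, sub_self]

theorem prj_prj {v : E3} (hv : ‖v‖ = 1) (s : E3) : prj v (prj v s) = prj v s :=
  prj_of_perp (prj_perp hv s)

/-- the quadratic form for `Θ = R v - S` -/
theorem Qd_eq {v a b : E3} (hv : ‖v‖ = 1) (ha : inner ℝ v a = (0 : ℝ)) (hb : inner ℝ v b = (0 : ℝ))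
    (R rx ry : ℝ) (s t : E3) :
    Qd v a b (rx • v + R • a - s) (ry • v + R • b - t) =
      2 * ‖(R - 1) • qp v a b - qp v s t‖ ^ 2 + 2 * ‖(R + 1) • qm v a b - qm v s t‖ ^ 2
        - 6 * ‖qm v a b‖ ^ 2 + (3 / 2) * ((rx - inner ℝ v s) ^ 2 + (ry - inner ℝ v t) ^ 2) := by
  have e1 : inner ℝ v (rx • v + R • a - s) = rx - inner ℝ v s := by
    rw [inner_sub_right, inner_add_right, inner_smul_right, inner_smul_right, inner_self_one hv, ha]
    ring
  have e2 : inner ℝ v (ry • v + R • b - t) = ry - inner ℝ v t := by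
    rw [inner_sub_right, inner_add_right, inner_smul_right, inner_smul_right, inner_self_one hv, hb]
    ring
  have e3 : prj v (rx • v + R • a - s) = R • a - prj v s := by
    rw [prj_sub, prj_add, prj_smul, prj_smul, prj_self hv, smul_zero, zero_add, prj_of_perp ha]
  have e4 : prj v (ry • v + R • b - t) = R • b - prj v t := by
    rw [prj_sub, prj_add, prj_smul, prj_smul, prj_self hv, smul_zero, zero_add, prj_of_perp hb]
  have hX : inner ℝ v (R • a - prj v s - crs v b) = (0 : ℝ) := by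
    rw [inner_sub_right, inner_sub_right, inner_smul_right, ha, prj_perp hv, inner_crs_left]
    ring
  have hY : inner ℝ v (R • b - prj v t + crs v a) = (0 : ℝ) := by
    rw [inner_add_right, inner_sub_right, inner_smul_right, hb, prj_perp hv, inner_crs_left]
    ring
  have k1 : qp v (R • a - prj v s - crs v b) (R • b - prj v t + crs v a)
      = (R - 1) • qp v a b - qp v s t := by
    unfold qp
    rw [prj_of_perp hX, crs_add, crs_sub, crs_smul, crs_prj, crs_crs hv, prj_of_perp ha]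
    module
  have k2 : qm v (R • a - prj v s - crs v b) (R • b - prj v t + crs v a)
      = (R + 1) • qm v a b - qm v s t := by
    unfold qm
    rw [prj_of_perp hX, crs_add, crs_sub, crs_smul, crs_prj, crs_crs hv, prj_of_perp ha]
    module
  have k3 := norm_pm hv hX hY
  rw [k1, k2] at k3
  have k4 := norm_pm hv ha hb
  have k5 := jac_pm hv ha hb
  unfold Qd
  rw [e1, e2, e3, e4, k5]
  linarith

/-- minimisation over `p₋` -/
theorem Qd_min {R : ℝ} (hR : 3 < (R + 1) ^ 2) (p q : E3) :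
    -(6 / ((R + 1) ^ 2 - 3)) * ‖q‖ ^ 2 ≤ 2 * ‖(R + 1) • p - q‖ ^ 2 - 6 * ‖p‖ ^ 2 := by
  have h : 0 < (R + 1) ^ 2 - 3 := by linarith
  have e : 2 * ‖(R + 1) • p - q‖ ^ 2 - 6 * ‖p‖ ^ 2 + (6 / ((R + 1) ^ 2 - 3)) * ‖q‖ ^ 2
      = (2 / ((R + 1) ^ 2 - 3)) * ‖((R + 1) ^ 2 - 3) • p - (R + 1) • q‖ ^ 2 := by
    rw [norm_sub_sq_real, norm_sub_sq_real, norm_smul, norm_smul, norm_smul, mul_pow, mul_pow,
      mul_pow, inner_smul_left, inner_smul_left, inner_smul_right, Real.norm_eq_abs,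
      Real.norm_eq_abs, sq_abs, sq_abs]
    simp only [conj_trivial]
    field_simp
    ring
  have h2 : 0 ≤ (2 / ((R + 1) ^ 2 - 3)) * ‖((R + 1) ^ 2 - 3) • p - (R + 1) • q‖ ^ 2 := by
    positivity
  linarith

/-! ### the surface -/

variable {M : Type} [MetricSpace M] {γ : ℝ → M}

/-- the integrand -/
def QQ (C : Calc M γ) (v T : Fin 3 → M → ℝ) (o : Om) : ℝ :=
  Qd (at' C v o) (dx C v o) (dy C v o) (dx C T o) (dy C T o)

/-- a continuous function of values and derivatives of finitely many Lipschitz functions is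
integrable -/
theorem integrable_cont [CompactSpace M] (C : Calc M γ) {n : ℕ} {u : Fin n → M → ℝ}
    (hu : ∀ i, Lip (u i)) {Φ : (Fin n → ℝ × ℝ × ℝ) → ℝ} (hΦ : Continuous Φ) :
    Integrable (fun o => Φ fun i => (u i (C.pt o), C.gx (u i) o, C.gy (u i) o)) C.μ := by
  have hm : AEMeasurable (fun o => fun i : Fin n => (u i (C.pt o), C.gx (u i) o, C.gy (u i) o)) C.μ := by
    refine aemeasurable_pi_lambda _ fun i => ?_
    exact (C.meas_pt (hu i)).prodMk ((C.meas_gx (hu i)).prodMk (C.meas_gy (hu i)))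
  choose L hL using hu
  have hb : ∀ i, ∃ B, ∀ x, |u i x| ≤ B := by
    intro i
    obtain ⟨B, hB⟩ := isCompact_univ.exists_bound_of_continuousOn ((hL i).continuous.continuousOn)
    exact ⟨B, fun x => by simpa using hB x (mem_univ x)⟩
  choose B hB using hb
  set K : Set (Fin n → ℝ × ℝ × ℝ) := Set.univ.pi fun i =>
    Metric.closedBall (0 : ℝ) (B i) ×ˢ (Metric.closedBall (0 : ℝ) (L i) ×ˢ Metric.closedBall (0 : ℝ) (L i))
    with hK
  have hKc : IsCompact K := isCompact_univ_pi fun i => (isCompact_closedBall _ _).prod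
    ((isCompact_closedBall _ _).prod (isCompact_closedBall _ _))
  obtain ⟨D, hD⟩ := hKc.exists_bound_of_continuousOn hΦ.continuousOn
  refine C.integrable_of_bdd (B := D) (hΦ.measurable.comp_aemeasurable hm) ?_
  have h : ∀ᵐ o ∂C.μ, ∀ i, C.gx (u i) o ^ 2 + C.gy (u i) o ^ 2 ≤ (L i : ℝ) ^ 2 :=
    ae_all_iff.mpr fun i => C.ae_grad_le (hL i)
  filter_upwards [h] with o ho
  refine hD _ fun i _ => ?_
  have h1 : |C.gx (u i) o| ≤ L i := by
    refine abs_le_of_sq_le_sq ?_ (NNReal.coe_nonneg _)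
    nlinarith [ho i, sq_nonneg (C.gy (u i) o)]
  have h2 : |C.gy (u i) o| ≤ L i := by
    refine abs_le_of_sq_le_sq ?_ (NNReal.coe_nonneg _)
    nlinarith [ho i, sq_nonneg (C.gx (u i) o)]
  refine ⟨?_, ?_, ?_⟩
  · simpa using hB i (C.pt o)
  · simpa using h1
  · simpa using h2

/-- a continuous function of the values and the derivatives of `v` and of the derivatives of `T` is
integrable -/
theorem integrable_cont5 (C : Calc M γ) {v T : Fin 3 → M → ℝ} (hv : Sph γ v) (hT : ∀ k, Lip (T k))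
    {Φ : E3 × E3 × E3 × E3 × E3 → ℝ} (hΦ : Continuous Φ) :
    Integrable (fun o => Φ (at' C v o, dx C v o, dy C v o, dx C T o, dy C T o)) C.μ := by
  obtain ⟨m1, m2, m0⟩ := meas_dx C hv.lip
  obtain ⟨m3, m4, -⟩ := meas_dx C hT
  obtain ⟨⟨B1, b1⟩, ⟨B2, b2⟩⟩ := bdd_dx C hv.lip
  obtain ⟨⟨B3, b3⟩, ⟨B4, b4⟩⟩ := bdd_dx C hT
  have hm : AEMeasurable (fun o => (at' C v o, dx C v o, dy C v o, dx C T o, dy C T o)) C.μ :=
    m0.prodMk (m1.prodMk (m2.prodMk (m3.prodMk m4)))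
  set K : Set (E3 × E3 × E3 × E3 × E3) := Metric.closedBall 0 1 ×ˢ (Metric.closedBall 0 B1 ×ˢ
    (Metric.closedBall 0 B2 ×ˢ (Metric.closedBall 0 B3 ×ˢ Metric.closedBall 0 B4))) with hK
  have hKc : IsCompact K := (isCompact_closedBall _ _).prod ((isCompact_closedBall _ _).prod
    ((isCompact_closedBall _ _).prod ((isCompact_closedBall _ _).prod (isCompact_closedBall _ _))))
  obtain ⟨B, hB⟩ := hKc.exists_bound_of_continuousOn hΦ.continuousOn
  refine C.integrable_of_bdd (B := B) (hΦ.measurable.comp_aemeasurable hm) ?_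
  filter_upwards [b1, b2, b3, b4] with o h1 h2 h3 h4
  refine hB _ ⟨?_, ?_, ?_, ?_, ?_⟩
  · simp [norm_at hv]
  · simpa using h1
  · simpa using h2
  · simpa using h3
  · simpa using h4

private theorem crs_cont' {X : Type} [TopologicalSpace X] {f g : X → E3} (hf : Continuous f)
    (hg : Continuous g) : Continuous fun x => crs (f x) (g x) :=
  crs_cont.comp (f := fun x => (f x, g x)) (hf.prodMk hg)

theorem prj_cont {X : Type} [TopologicalSpace X] {f g : X → E3} (hf : Continuous f)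
    (hg : Continuous g) : Continuous fun x => prj (f x) (g x) := by
  unfold prj
  fun_prop

theorem jac_int (C : Calc M γ) {v : Fin 3 → M → ℝ} (hv : Sph γ v) : Integrable (jac C v) C.μ := by
  refine integrable_cont5 C hv hv.lip (Φ := fun q => inner ℝ q.1 (crs q.2.2.1 q.2.1)) ?_
  have := crs_cont' (f := fun q : E3 × E3 × E3 × E3 × E3 => q.2.2.1) (g := fun q => q.2.1)
    (by fun_prop) (by fun_prop)
  fun_prop

theorem QQ_int (C : Calc M γ) {v T : Fin 3 → M → ℝ} (hv : Sph γ v) (hT : ∀ k, Lip (T k)) :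
    Integrable (QQ C v T) C.μ := by
  refine integrable_cont5 C hv hT (Φ := fun q => Qd q.1 q.2.1 q.2.2.1 q.2.2.2.1 q.2.2.2.2) ?_
  have c1 := crs_cont' (f := fun q : E3 × E3 × E3 × E3 × E3 => q.2.2.1) (g := fun q => q.2.1)
    (by fun_prop) (by fun_prop)
  have c2 := crs_cont' (f := fun q : E3 × E3 × E3 × E3 × E3 => q.1) (g := fun q => q.2.2.1)
    (by fun_prop) (by fun_prop)
  have c3 := crs_cont' (f := fun q : E3 × E3 × E3 × E3 × E3 => q.1) (g := fun q => q.2.1)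
    (by fun_prop) (by fun_prop)
  unfold Qd prj
  fun_prop

/-- the integrated inequality -/
theorem int_QQ [CompactSpace M] (C : Calc M γ) {v : Fin 3 → M → ℝ} (hv : Sph γ v) (G : Fam γ) {ε : ℝ}
    (hfl : Real.pi ^ 2 - ε ≤ ∫ p, Flux C (G.f p) v p ∂PP) :
    ∫ o, QQ C v G.Th o ∂C.μ ≤
      3 * C.vol - 12 * Real.pi + 3 * ∫ o, jac C v o ∂C.μ + 12 / Real.pi * ε := by
  have := C.fin
  have h := exss C hv G
  have hpi := Real.pi_pos
  have i1 := QQ_int C hv G.lip_Th
  have i2 := (jac_int C hv).const_mul 3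
  have i3 : Integrable (fun _ : Om => (3 : ℝ)) C.μ := integrable_const 3
  have e : (fun o => 3 + (3 / 2) * (‖dx C v o‖ ^ 2 + ‖dy C v o‖ ^ 2)
      - (‖dx C G.Th o - (inner ℝ (at' C v o) (dx C G.Th o) : ℝ) • at' C v o - crs (at' C v o) (dy C v o)‖ ^ 2
        + ‖dy C G.Th o - (inner ℝ (at' C v o) (dy C G.Th o) : ℝ) • at' C v o + crs (at' C v o) (dx C v o)‖ ^ 2)
      - (3 / 2) * (inner ℝ (at' C v o) (dx C G.Th o) ^ 2 + inner ℝ (at' C v o) (dy C G.Th o) ^ 2))
      = fun o => 3 + 3 * jac C v o - QQ C v G.Th o := by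
    funext o
    unfold QQ Qd jac prj
    ring
  have i4 : Integrable (fun o => 3 + 3 * jac C v o) C.μ := i3.add i2
  have e5 : ∫ _ : Om, (3 : ℝ) ∂C.μ = 3 * C.vol := by
    rw [← C.integral_one, ← integral_const_mul, mul_one]
  rw [e, integral_sub i4 i1, integral_add i3 i2, integral_const_mul, e5] at h
  have h2 := mul_le_mul_of_nonneg_left hfl (show (0 : ℝ) ≤ 12 / Real.pi by positivity)
  have e6 : 12 / Real.pi * (Real.pi ^ 2 - ε) = 12 * Real.pi - 12 / Real.pi * ε := by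
    field_simp
  rw [e6] at h2
  linarith

/-- the integrated inequality for maps of degree at most one -/
theorem int_QQ_le [CompactSpace M] (C : Calc M γ) {v : Fin 3 → M → ℝ} (hv : Sph γ v) (G : Fam γ) {ε : ℝ}
    (hfl : Real.pi ^ 2 - ε ≤ ∫ p, Flux C (G.f p) v p ∂PP) (hJ : ∫ o, jac C v o ∂C.μ ≤ 2 * Real.pi) :
    ∫ o, QQ C v G.Th o ∂C.μ ≤ 3 * (C.vol - 2 * Real.pi) + 12 / Real.pi * ε := by
  have h := int_QQ C hv G hfl
  linarith

/-- the integrand for `Θ = R v - S` -/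
theorem ae_QQ (C : Calc M γ) {v T S : Fin 3 → M → ℝ} {R : M → ℝ} (hv : Sph γ v)
    (hR : Lip R) (hRv : ∀ k, Lip fun x => R x * v k x) (hS : ∀ k, Lip (S k))
    (hT : ∀ k x, T k x = R x * v k x - S k x) :
    ∀ᵐ o ∂C.μ,
      dx C T o = (C.gx R o) • at' C v o + R (C.pt o) • dx C v o - dx C S o ∧
      dy C T o = (C.gy R o) • at' C v o + R (C.pt o) • dy C v o - dy C S o ∧
      QQ C v T o = 2 * ‖(R (C.pt o) - 1) • qp (at' C v o) (dx C v o) (dy C v o)
          - qp (at' C v o) (dx C S o) (dy C S o)‖ ^ 2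
        + 2 * ‖(R (C.pt o) + 1) • qm (at' C v o) (dx C v o) (dy C v o)
          - qm (at' C v o) (dx C S o) (dy C S o)‖ ^ 2
        - 6 * ‖qm (at' C v o) (dx C v o) (dy C v o)‖ ^ 2
        + (3 / 2) * ((C.gx R o - inner ℝ (at' C v o) (dx C S o)) ^ 2
          + (C.gy R o - inner ℝ (at' C v o) (dy C S o)) ^ 2) := by
  have hTe : ∀ k, T k = fun x => R x * v k x - S k x := fun k => funext fun x => hT k x
  have h1 : ∀ᵐ o ∂C.μ, ∀ k,
      C.gx (fun x => R x * v k x - S k x) o = C.gx (fun x => R x * v k x) o - C.gx (S k) o ∧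
      C.gy (fun x => R x * v k x - S k x) o = C.gy (fun x => R x * v k x) o - C.gy (S k) o :=
    ae_all_iff.mpr fun k => C.ae_sub (hRv k) (hS k)
  have h2 : ∀ᵐ o ∂C.μ, ∀ k,
      C.gx (fun x => R x * v k x) o = R (C.pt o) * C.gx (v k) o + v k (C.pt o) * C.gx R o ∧
      C.gy (fun x => R x * v k x) o = R (C.pt o) * C.gy (v k) o + v k (C.pt o) * C.gy R o :=
    ae_all_iff.mpr fun k => C.ae_mul hR (hv.lip k)
  filter_upwards [h1, h2, ae_perp C hv] with o k1 k2 hp
  have e1 : dx C T o = (C.gx R o) • at' C v o + R (C.pt o) • dx C v o - dx C S o := by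
    ext i
    fin_cases i
    · change C.gx (T 0) o = C.gx R o * v 0 (C.pt o) + R (C.pt o) * C.gx (v 0) o - C.gx (S 0) o
      rw [hTe, (k1 0).1, (k2 0).1]
      ring
    · change C.gx (T 1) o = C.gx R o * v 1 (C.pt o) + R (C.pt o) * C.gx (v 1) o - C.gx (S 1) o
      rw [hTe, (k1 1).1, (k2 1).1]
      ring
    · change C.gx (T 2) o = C.gx R o * v 2 (C.pt o) + R (C.pt o) * C.gx (v 2) o - C.gx (S 2) o
      rw [hTe, (k1 2).1, (k2 2).1]
      ring
  have e2 : dy C T o = (C.gy R o) • at' C v o + R (C.pt o) • dy C v o - dy C S o := by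
    ext i
    fin_cases i
    · change C.gy (T 0) o = C.gy R o * v 0 (C.pt o) + R (C.pt o) * C.gy (v 0) o - C.gy (S 0) o
      rw [hTe, (k1 0).2, (k2 0).2]
      ring
    · change C.gy (T 1) o = C.gy R o * v 1 (C.pt o) + R (C.pt o) * C.gy (v 1) o - C.gy (S 1) o
      rw [hTe, (k1 1).2, (k2 1).2]
      ring
    · change C.gy (T 2) o = C.gy R o * v 2 (C.pt o) + R (C.pt o) * C.gy (v 2) o - C.gy (S 2) o
      rw [hTe, (k1 2).2, (k2 2).2]
      ring
  refine ⟨e1, e2, ?_⟩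
  unfold QQ
  rw [e1, e2]
  exact Qd_eq (norm_at hv o) hp.1 hp.2 _ _ _ _ _

/-! ### the pinned map -/

theorem dx_smul (C : Calc M γ) (g : ℝ) (F : Fin 3 → M → ℝ) (o : Om) :
    dx C (fun k x => g * F k x) o = g • dx C F o ∧ dy C (fun k x => g * F k x) o = g • dy C F o := by
  have h : ∀ k, C.gx (fun x => g * F k x) o = g * C.gx (F k) o ∧
      C.gy (fun x => g * F k x) o = g * C.gy (F k) o := fun k =>
    ⟨deriv_const_mul_field g, deriv_const_mul_field g⟩
  refine ⟨?_, ?_⟩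
  · ext i
    fin_cases i
    · exact (h 0).1
    · exact (h 1).1
    · exact (h 2).1
  · ext i
    fin_cases i
    · exact (h 0).2
    · exact (h 1).2
    · exact (h 2).2

theorem qp_smul (v : E3) (g : ℝ) (s t : E3) : qp v (g • s) (g • t) = g • qp v s t := by
  unfold qp
  rw [prj_smul, crs_smul]
  module

theorem qm_smul (v : E3) (g : ℝ) (s t : E3) : qm v (g • s) (g • t) = g • qm v s t := by
  unfold qm
  rw [prj_smul, crs_smul]
  module

omit [MetricSpace M] in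
/-- the pinned map: `Θ = R v - g F` with `R = |T'| / (1 - s)` and `g = s / (1 - s)` -/
theorem pin_eq {F T : Fin 3 → M → ℝ} {s : ℝ} (hs1 : s < 1) {δ : ℝ≥0} (hδ : 0 < δ) {c : ℝ}
    (hc : 2 * (δ : ℝ) ≤ c) (hr : ∀ x, c ≤ rr F s T x) (k : Fin 3) (x : M) :
    T k x = rr F s T x / (1 - s) * NV δ (UU F s T) k x - s / (1 - s) * F k x := by
  have hδ' : (0 : ℝ) < δ := hδ
  have h1 : 0 < rr F s T x := by linarith [hr x]
  have h2 : max ‖vv (n := 0) (UU F s T) x‖ (δ : ℝ) = rr F s T x := by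
    change max (rr F s T x) (δ : ℝ) = _
    exact max_eq_left (by linarith [hr x])
  have h3 : 0 < 1 - s := by linarith
  unfold NV
  rw [h2]
  unfold UU
  field_simp
  ring

theorem rr_lip {F T : Fin 3 → M → ℝ} {LF : ℝ≥0} (hF : ∀ k, LipschitzWith LF (F k)) (hT : Pre γ T)
    {s : ℝ} (hs : s ∈ Icc (0 : ℝ) 1) : Lip (rr F s T) := by
  refine ⟨2 * (3 + LF), LipschitzWith.of_dist_le_mul fun x y => ?_⟩
  rw [Real.dist_eq]
  unfold rr
  refine (abs_norm_sub_norm_le _ _).trans ?_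
  have h : ∀ k, |UU F s T k x - UU F s T k y| ≤ (3 + LF) * dist x y := by
    intro k
    have h1 := (UU_lip hF hT hs k).dist_le_mul x y
    rw [Real.dist_eq] at h1
    simpa using h1
  refine le_of_sq_le_sq ?_ (by positivity)
  rw [normsq3]
  have g : ∀ a e : ℝ, |a| ≤ e → a ^ 2 ≤ e ^ 2 := fun a e ha => by
    rw [← sq_abs]
    exact pow_le_pow_left₀ (abs_nonneg _) ha 2
  have g0 := g _ _ (h 0)
  have g1 := g _ _ (h 1)
  have g2 := g _ _ (h 2)
  change (UU F s T 0 x - UU F s T 0 y) ^ 2 + (UU F s T 1 x - UU F s T 1 y) ^ 2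
    + (UU F s T 2 x - UU F s T 2 y) ^ 2 ≤ _
  push_cast
  nlinarith [sq_nonneg ((3 + LF) * dist x y)]

/-- the integrand for the pinned map -/
theorem pin_QQ (C : Calc M γ) {F T : Fin 3 → M → ℝ} (hF : Sph γ F) {LF : ℝ≥0}
    (hLF : ∀ k, LipschitzWith LF (F k)) (hT : Pre γ T) {s : ℝ} (hs0 : 0 ≤ s) (hs1 : s < 1) {δ : ℝ≥0}
    (hδ : 0 < δ) {c : ℝ} (hc : 2 * (δ : ℝ) ≤ c) (hr : ∀ x, c ≤ rr F s T x)
    (hv : Sph γ (NV δ (UU F s T))) :
    ∀ᵐ o ∂C.μ, QQ C (NV δ (UU F s T)) T o =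
      2 * ‖(rr F s T (C.pt o) / (1 - s) - 1) • qp (at' C (NV δ (UU F s T)) o)
          (dx C (NV δ (UU F s T)) o) (dy C (NV δ (UU F s T)) o)
          - (s / (1 - s)) • qp (at' C (NV δ (UU F s T)) o) (dx C F o) (dy C F o)‖ ^ 2
      + 2 * ‖(rr F s T (C.pt o) / (1 - s) + 1) • qm (at' C (NV δ (UU F s T)) o)
          (dx C (NV δ (UU F s T)) o) (dy C (NV δ (UU F s T)) o)
          - (s / (1 - s)) • qm (at' C (NV δ (UU F s T)) o) (dx C F o) (dy C F o)‖ ^ 2
      - 6 * ‖qm (at' C (NV δ (UU F s T)) o) (dx C (NV δ (UU F s T)) o)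
          (dy C (NV δ (UU F s T)) o)‖ ^ 2
      + (3 / 2) * ((C.gx (fun x => rr F s T x / (1 - s)) o
            - s / (1 - s) * inner ℝ (at' C (NV δ (UU F s T)) o) (dx C F o)) ^ 2
          + (C.gy (fun x => rr F s T x / (1 - s)) o
            - s / (1 - s) * inner ℝ (at' C (NV δ (UU F s T)) o) (dy C F o)) ^ 2) := by
  have hs : s ∈ Icc (0 : ℝ) 1 := ⟨hs0, hs1.le⟩
  have hR : Lip (fun x => rr F s T x / (1 - s)) := by
    obtain ⟨L, hL⟩ := rr_lip hLF hT hs
    have h := Lip.const_mul ⟨L, hL⟩ (1 - s)⁻¹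
    have e : (fun x => rr F s T x / (1 - s)) = fun x => (1 - s)⁻¹ * rr F s T x := by
      funext x
      ring
    rw [e]
    exact h
  have hS : ∀ k, Lip (fun x => s / (1 - s) * F k x) := fun k => Lip.const_mul (hF.lip k) _
  have hRv : ∀ k, Lip fun x => rr F s T x / (1 - s) * NV δ (UU F s T) k x := by
    intro k
    have e : (fun x => rr F s T x / (1 - s) * NV δ (UU F s T) k x)
        = fun x => T k x + s / (1 - s) * F k x := by
      funext x
      have := pin_eq hs1 hδ hc hr k x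
      linarith
    rw [e]
    exact Lip.add ⟨3, hT.lip k⟩ (hS k)
  have h := ae_QQ C (R := fun x => rr F s T x / (1 - s)) (S := fun k x => s / (1 - s) * F k x) hv
    hR hRv hS (fun k x => pin_eq hs1 hδ hc hr k x)
  filter_upwards [h] with o ho
  rw [ho.2.2, (dx_smul C _ F o).1, (dx_smul C _ F o).2, qp_smul, qm_smul, inner_smul_right,
    inner_smul_right]

end Pool.Agent.FPX
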