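import Mathlib
import Pool.Agent.FPX.INT
import Pool.Agent.FPX.EXTF

/-
EMA (helper30): first variation of `ν = e - J` for maps into the sphere, pointwise. `ν v a b` is
`2 ‖qm v a b‖²`; the competitor is `u / ‖u‖` with `u = v + t Z`.
-/

open MeasureTheory Set Filter Topology
open scoped ENNReal NNReal

noncomputable section

namespace Pool.Agent.FPX

open Pool.Agent.EWD

/-- `e - J` for the map with value `v` and derivatives `a`, `b` -/
def nuv (v a b : E3) : ℝ := 2 * ‖qm v a b‖ ^ 2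

/-- the first variation of `e - J` in the direction `Z` with derivatives `x`, `y` -/
def dnu (v a b Z x y : E3) : ℝ := 4 * (inner ℝ (qm v a b) (qm v x y) - inner ℝ v Z * ‖qm v a b‖ ^ 2)

theorem nuv_nonneg (v a b : E3) : 0 ≤ nuv v a b := by
  unfold nuv
  positivity

theorem norm_crs_le (v w : E3) : ‖crs v w‖ ≤ ‖v‖ * ‖w‖ := by
  refine le_of_sq_le_sq ?_ (by positivity)
  rw [norm_crs_sq, mul_pow]
  nlinarith [sq_nonneg (inner ℝ v w : ℝ)]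

theorem crs_add_left (u v a : E3) : crs (u + v) a = crs u a + crs v a := by
  ext i
  fin_cases i
  · change (u 1 + v 1) * a 2 - (u 2 + v 2) * a 1 = u 1 * a 2 - u 2 * a 1 + (v 1 * a 2 - v 2 * a 1)
    ring
  · change (u 2 + v 2) * a 0 - (u 0 + v 0) * a 2 = u 2 * a 0 - u 0 * a 2 + (v 2 * a 0 - v 0 * a 2)
    ring
  · change (u 0 + v 0) * a 1 - (u 1 + v 1) * a 0 = u 0 * a 1 - u 1 * a 0 + (v 0 * a 1 - v 1 * a 0)
    ring

/-- `qm` as half of `a - v × b` -/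
theorem qm_half {v a b : E3} (ha : inner ℝ v a = (0 : ℝ)) : qm v a b = (1 / 2 : ℝ) • (a - crs v b) := by
  unfold qm
  rw [prj_of_perp ha]

theorem nuv_perp {v a b : E3} (ha : inner ℝ v a = (0 : ℝ)) :
    nuv v a b = (1 / 2) * ‖a - crs v b‖ ^ 2 := by
  unfold nuv
  rw [qm_half ha, norm_smul, mul_pow]
  norm_num
  ring

/-- the normalised derivative -/
theorem norm_nrm_le {û A B : E3} (hu : ‖û‖ = 1) (r : ℝ) :
    ‖r • (A - (inner ℝ û A : ℝ) • û) - crs û (r • (B - (inner ℝ û B : ℝ) • û))‖ ≤ |r| * ‖A - crs û B‖ := by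
  have e : r • (A - (inner ℝ û A : ℝ) • û) - crs û (r • (B - (inner ℝ û B : ℝ) • û))
      = r • prj û (A - crs û B) := by
    rw [crs_smul, crs_sub, crs_smul, crs_self, smul_zero, sub_zero, prj_sub, prj_crs]
    unfold prj
    simp only [smul_sub]
  rw [e, norm_smul, Real.norm_eq_abs]
  refine mul_le_mul_of_nonneg_left ?_ (abs_nonneg _)
  refine le_of_sq_le_sq ?_ (norm_nonneg _)
  have h := norm_prj_sq hu (A - crs û B)
  nlinarith [sq_nonneg (inner ℝ û (A - crs û B) : ℝ)]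

/-- `1 / (1 + x)²` -/
theorem inv_sq_le {x : ℝ} (hx : -(1 / 2) ≤ x) : 1 / (1 + x) ^ 2 ≤ 1 - 2 * x + 8 * x ^ 2 := by
  have h : 0 < 1 + x := by linarith
  rw [div_le_iff₀ (by positivity)]
  have e : (1 - 2 * x + 8 * x ^ 2) * (1 + x) ^ 2 - 1 = x ^ 2 * (1 + 2 * x) * (5 + 4 * x) := by ring
  have h2 : 0 ≤ x ^ 2 * (1 + 2 * x) * (5 + 4 * x) := by
    have : 0 ≤ 1 + 2 * x := by linarith
    have : 0 ≤ 5 + 4 * x := by linarith
    positivity
  linarith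

theorem nrm_pert {v Z : E3} (hv : ‖v‖ = 1) {K t : ℝ} (ht : 0 ≤ t) (hZ : ‖Z‖ ≤ K) (htK : t * K ≤ 1 / 2) :
    1 / 2 ≤ ‖v + t • Z‖ ∧ 1 + t * inner ℝ v Z ≤ ‖v + t • Z‖ ∧
    ‖(‖v + t • Z‖⁻¹ : ℝ) • (v + t • Z) - v‖ ≤ 4 * (t * K) := by
  have h0 : ‖t • Z‖ ≤ t * K := by
    rw [norm_smul, Real.norm_eq_abs, abs_of_nonneg ht]
    exact mul_le_mul_of_nonneg_left hZ ht
  have h1 : 1 / 2 ≤ ‖v + t • Z‖ := by
    have h := norm_sub_norm_le v (-(t • Z))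
    rw [sub_neg_eq_add, norm_neg, hv] at h
    linarith
  have h1' : |‖v + t • Z‖ - 1| ≤ t * K := by
    have h := abs_norm_sub_norm_le (v + t • Z) v
    rw [hv, add_sub_cancel_left] at h
    exact h.trans h0
  refine ⟨h1, ?_, ?_⟩
  · have h := real_inner_le_norm v (v + t • Z)
    rw [inner_add_right, inner_smul_right, inner_self_one hv, hv, one_mul] at h
    exact h
  · have hp : 0 < ‖v + t • Z‖ := by linarith
    have e : (‖v + t • Z‖⁻¹ : ℝ) • (v + t • Z) - v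
        = (‖v + t • Z‖⁻¹ : ℝ) • (t • Z - (‖v + t • Z‖ - 1) • v) := by
      have : v = (‖v + t • Z‖⁻¹ : ℝ) • (‖v + t • Z‖ • v) := by
        rw [smul_smul, inv_mul_cancel₀ hp.ne', one_smul]
      nth_rewrite 3 [this]
      rw [← smul_sub]
      congr 1
      rw [sub_smul, one_smul]
      abel
    rw [e, norm_smul, norm_inv, norm_norm]
    have h2 : ‖t • Z - (‖v + t • Z‖ - 1) • v‖ ≤ 2 * (t * K) := by
      refine (norm_sub_le _ _).trans ?_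
      rw [norm_smul (‖v + t • Z‖ - 1), hv, Real.norm_eq_abs, mul_one]
      linarith
    have h3 : ‖v + t • Z‖⁻¹ ≤ 2 := by
      rw [inv_le_comm₀ hp two_pos]
      linarith
    calc _ ≤ 2 * (2 * (t * K)) := mul_le_mul h3 h2 (norm_nonneg _) two_pos.le
      _ = _ := by ring

/-- the numerator -/
theorem var_num {v a b x y η : E3} (hv : ‖v‖ = 1) (ha : inner ℝ v a = (0 : ℝ)) (hb : inner ℝ v b = (0 : ℝ))
    (hη : ‖v + η‖ = 1) {K t : ℝ} (ht : 0 ≤ t) (ht1 : t ≤ 1) (hK : 0 ≤ K) (hηK : ‖η‖ ≤ 4 * (t * K)) :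
    ‖a + t • x - crs (v + η) (b + t • y)‖ ^ 2 ≤ ‖a - crs v b‖ ^ 2
      + 2 * t * inner ℝ (a - crs v b) (x - crs v y)
      + t ^ 2 * ((2 + 28 * K + 56 * K ^ 2) * (‖a‖ ^ 2 + ‖b‖ ^ 2 + ‖x‖ ^ 2 + ‖y‖ ^ 2)) := by
  set q := a - crs v b with hq
  set g := x - crs v y with hg
  set h := b + t • y with hh
  set S := ‖a‖ ^ 2 + ‖b‖ ^ 2 + ‖x‖ ^ 2 + ‖y‖ ^ 2 with hS
  have e : a + t • x - crs (v + η) (b + t • y) = (q + t • g) - crs η h := by
    rw [crs_add_left, ← hh, hq, hg]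
    have : crs v h = crs v b + t • crs v y := by rw [hh, crs_add, crs_smul]
    rw [this, smul_sub]
    abel
  have sqle : ∀ c d : E3, ‖c + d‖ ^ 2 ≤ 2 * ‖c‖ ^ 2 + 2 * ‖d‖ ^ 2 := by
    intro c d
    have h1 := norm_add_le c d
    have h2 : ‖c + d‖ ^ 2 ≤ (‖c‖ + ‖d‖) ^ 2 := pow_le_pow_left₀ (norm_nonneg _) h1 2
    nlinarith [sq_nonneg (‖c‖ - ‖d‖)]
  have sqle' : ∀ c d : E3, ‖c - d‖ ^ 2 ≤ 2 * ‖c‖ ^ 2 + 2 * ‖d‖ ^ 2 := by
    intro c d
    have h1 := sqle c (-d)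
    rwa [norm_neg, ← sub_eq_add_neg] at h1
  have hcb : ‖crs v b‖ ^ 2 ≤ ‖b‖ ^ 2 := by
    have h1 := norm_crs_le v b
    rw [hv, one_mul] at h1
    exact pow_le_pow_left₀ (norm_nonneg _) h1 2
  have hcy : ‖crs v y‖ ^ 2 ≤ ‖y‖ ^ 2 := by
    have h1 := norm_crs_le v y
    rw [hv, one_mul] at h1
    exact pow_le_pow_left₀ (norm_nonneg _) h1 2
  have na := sq_nonneg ‖a‖
  have nb := sq_nonneg ‖b‖
  have nx := sq_nonneg ‖x‖
  have ny := sq_nonneg ‖y‖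
  have bq : ‖q‖ ^ 2 ≤ 2 * (‖a‖ ^ 2 + ‖b‖ ^ 2) := by linarith [sqle' a (crs v b)]
  have bg : ‖g‖ ^ 2 ≤ 2 * (‖x‖ ^ 2 + ‖y‖ ^ 2) := by linarith [sqle' x (crs v y)]
  have t2 : t ^ 2 ≤ 1 := by nlinarith
  have bh : ‖h‖ ^ 2 ≤ 2 * (‖b‖ ^ 2 + ‖y‖ ^ 2) := by
    have h1 := sqle b (t • y)
    rw [norm_smul, Real.norm_eq_abs, mul_pow, sq_abs] at h1
    nlinarith
  have hη2 : ‖η‖ ^ 2 ≤ 16 * t ^ 2 * K ^ 2 := by
    have h1 := pow_le_pow_left₀ (norm_nonneg η) hηK 2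
    nlinarith
  -- the inner product of `η` with `v`
  have hvη : (inner ℝ v η : ℝ) = -(1 / 2) * ‖η‖ ^ 2 := by
    have h1 := norm_add_sq_real v η
    rw [hη, hv] at h1
    linarith
  have i1 : (inner ℝ q (crs η b) : ℝ) = inner ℝ v η * inner ℝ v (crs b q) := by
    have hvq : inner ℝ v q = (0 : ℝ) := by
      rw [hq, inner_sub_right, ha, inner_crs_left]
      ring
    have h1 : crs b q = (inner ℝ v (crs b q) : ℝ) • v := by
      have h2 : prj v (crs b q) = 0 := by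
        have h3 : crs v (crs b q) = 0 := by
          ext i
          rw [inner3] at hb hvq
          fin_cases i
          · change v 1 * (b 0 * q 1 - b 1 * q 0) - v 2 * (b 2 * q 0 - b 0 * q 2) = 0
            linear_combination b 0 * hvq - q 0 * hb
          · change v 2 * (b 1 * q 2 - b 2 * q 1) - v 0 * (b 0 * q 1 - b 1 * q 0) = 0
            linear_combination b 1 * hvq - q 1 * hb
          · change v 0 * (b 2 * q 0 - b 0 * q 2) - v 1 * (b 1 * q 2 - b 2 * q 1) = 0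
            linear_combination b 2 * hvq - q 2 * hb
        have h4 := crs_crs hv (crs b q)
        rw [h3] at h4
        have h5 : crs v 0 = 0 := by
          have := crs_smul v 0 0
          rwa [zero_smul, zero_smul] at this
        rw [h5] at h4
        exact neg_eq_zero.1 h4.symm
      unfold prj at h2
      exact sub_eq_zero.1 h2
    have h3 : (inner ℝ q (crs η b) : ℝ) = inner ℝ η (crs b q) := by
      simp only [inner3, crs0, crs1, crs2]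
      ring
    rw [h3]
    nth_rewrite 1 [h1]
    rw [inner_smul_right, real_inner_comm v η]
    ring
  have b1 : |(inner ℝ q (crs η b) : ℝ)| ≤ 8 * t ^ 2 * K ^ 2 * (3 / 2 * S) := by
    rw [i1, abs_mul, hvη]
    have h1 : |(inner ℝ v (crs b q) : ℝ)| ≤ ‖b‖ * ‖q‖ := by
      refine (abs_real_inner_le_norm _ _).trans ?_
      rw [hv, one_mul]
      exact norm_crs_le b q
    have h2 : |-(1 / 2) * ‖η‖ ^ 2| ≤ 8 * t ^ 2 * K ^ 2 := by
      rw [abs_mul, abs_neg, abs_of_nonneg (sq_nonneg ‖η‖)]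
      rw [abs_of_pos (by norm_num : (0 : ℝ) < 1 / 2)]
      linarith
    have h3 : ‖b‖ * ‖q‖ ≤ 3 / 2 * S := by nlinarith [sq_nonneg (‖b‖ - ‖q‖)]
    exact mul_le_mul h2 (h1.trans h3) (abs_nonneg _) (by positivity)
  have b2 : |(inner ℝ q (crs η y) : ℝ)| ≤ 4 * (t * K) * (3 / 2 * S) := by
    refine (abs_real_inner_le_norm _ _).trans ?_
    have h1 := norm_crs_le η y
    have h2 : ‖q‖ * ‖y‖ ≤ 3 / 2 * S := by nlinarith [sq_nonneg (‖q‖ - ‖y‖)]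
    calc ‖q‖ * ‖crs η y‖ ≤ ‖q‖ * (‖η‖ * ‖y‖) := mul_le_mul_of_nonneg_left h1 (norm_nonneg _)
      _ = ‖η‖ * (‖q‖ * ‖y‖) := by ring
      _ ≤ _ := mul_le_mul hηK h2 (by positivity) (by positivity)
  have b3 : |(inner ℝ g (crs η h) : ℝ)| ≤ 4 * (t * K) * (2 * S) := by
    refine (abs_real_inner_le_norm _ _).trans ?_
    have h1 := norm_crs_le η h
    have h2 : ‖g‖ * ‖h‖ ≤ 2 * S := by nlinarith [sq_nonneg (‖g‖ - ‖h‖)]
    calc ‖g‖ * ‖crs η h‖ ≤ ‖g‖ * (‖η‖ * ‖h‖) := mul_le_mul_of_nonneg_left h1 (norm_nonneg _)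
      _ = ‖η‖ * (‖g‖ * ‖h‖) := by ring
      _ ≤ _ := mul_le_mul hηK h2 (by positivity) (by positivity)
  have b4 : ‖crs η h‖ ^ 2 ≤ 16 * t ^ 2 * K ^ 2 * (2 * S) := by
    have h1 := pow_le_pow_left₀ (norm_nonneg _) (norm_crs_le η h) 2
    rw [mul_pow] at h1
    refine h1.trans ?_
    exact mul_le_mul hη2 (by linarith) (sq_nonneg _) (by positivity)
  have b5 : ‖g‖ ^ 2 ≤ 2 * S := by linarith
  have ex : ‖a + t • x - crs (v + η) (b + t • y)‖ ^ 2 = ‖q‖ ^ 2 + 2 * t * inner ℝ q g + t ^ 2 * ‖g‖ ^ 2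
      - 2 * inner ℝ q (crs η b) - 2 * t * inner ℝ q (crs η y) - 2 * t * inner ℝ g (crs η h)
      + ‖crs η h‖ ^ 2 := by
    rw [e, norm_sub_sq_real, norm_add_sq_real, norm_smul, Real.norm_eq_abs, mul_pow, sq_abs,
      inner_smul_right, inner_add_left, inner_smul_left]
    have h1 : (inner ℝ q (crs η h) : ℝ) = inner ℝ q (crs η b) + t * inner ℝ q (crs η y) := by
      rw [hh, crs_add, crs_smul, inner_add_right, inner_smul_right]
    rw [h1]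
    simp only [conj_trivial]
    ring
  rw [ex]
  have c1 := neg_abs_le (inner ℝ q (crs η b) : ℝ)
  have c2 : -(t * |(inner ℝ q (crs η y) : ℝ)|) ≤ t * inner ℝ q (crs η y) := by
    have := mul_le_mul_of_nonneg_left (neg_abs_le (inner ℝ q (crs η y) : ℝ)) ht
    linarith
  have c3 : -(t * |(inner ℝ g (crs η h) : ℝ)|) ≤ t * inner ℝ g (crs η h) := by
    have := mul_le_mul_of_nonneg_left (neg_abs_le (inner ℝ g (crs η h) : ℝ)) ht
    linarith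
  have d2 := mul_le_mul_of_nonneg_left b2 ht
  have d3 := mul_le_mul_of_nonneg_left b3 ht
  have d5 := mul_le_mul_of_nonneg_left b5 (sq_nonneg t)
  have f2 : t * (4 * (t * K) * (3 / 2 * S)) = 6 * (t ^ 2 * K * S) := by ring
  have f3 : t * (4 * (t * K) * (2 * S)) = 8 * (t ^ 2 * K * S) := by ring
  have f1 : 8 * t ^ 2 * K ^ 2 * (3 / 2 * S) = 12 * (t ^ 2 * K ^ 2 * S) := by ring
  have f4 : 16 * t ^ 2 * K ^ 2 * (2 * S) = 32 * (t ^ 2 * K ^ 2 * S) := by ring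
  have f5 : t ^ 2 * ((2 + 28 * K + 56 * K ^ 2) * S) = t ^ 2 * (2 * S) + 28 * (t ^ 2 * K * S)
      + 56 * (t ^ 2 * K ^ 2 * S) := by ring
  have m1 : 2 * t * inner ℝ q (crs η y) = 2 * (t * (inner ℝ q (crs η y) : ℝ)) := by ring
  have m2 : 2 * t * inner ℝ g (crs η h) = 2 * (t * (inner ℝ g (crs η h) : ℝ)) := by ring
  rw [f1] at b1
  rw [f2] at d2
  rw [f3] at d3
  rw [f4] at b4
  rw [f5, m1, m2]
  linarith

/-- `⟨a - v × b, x - v × y⟩` in terms of the anticonformal parts -/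
theorem inner_q {v a b x y : E3} (ha : inner ℝ v a = (0 : ℝ)) :
    (inner ℝ (a - crs v b) (x - crs v y) : ℝ) = 4 * inner ℝ (qm v a b) (qm v x y) := by
  have hvq : inner ℝ v (a - crs v b) = (0 : ℝ) := by
    rw [inner_sub_right, ha, inner_crs_left]
    ring
  have e : x - crs v y = (2 : ℝ) • qm v x y + (inner ℝ v x : ℝ) • v := by
    unfold qm prj
    rw [smul_smul]
    norm_num
    abel
  rw [e, inner_add_right, inner_smul_right, inner_smul_right, real_inner_comm v (a - crs v b), hvq,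
    qm_half ha, inner_smul_left]
  simp only [conj_trivial]
  ring

theorem qm_sq {v a b : E3} (ha : inner ℝ v a = (0 : ℝ)) : ‖a - crs v b‖ ^ 2 = 4 * ‖qm v a b‖ ^ 2 := by
  rw [qm_half ha, norm_smul, mul_pow]
  norm_num
  ring

/-- the bounds on the two terms of the first variation -/
theorem q_bds {v a b x y : E3} (hv : ‖v‖ = 1) : ‖a - crs v b‖ ^ 2 ≤ 2 * (‖a‖ ^ 2 + ‖b‖ ^ 2) ∧
    ‖x - crs v y‖ ^ 2 ≤ 2 * (‖x‖ ^ 2 + ‖y‖ ^ 2) := by
  have sqle' : ∀ c d : E3, ‖c - d‖ ^ 2 ≤ 2 * ‖c‖ ^ 2 + 2 * ‖d‖ ^ 2 := by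
    intro c d
    have h1 := norm_sub_le c d
    have h2 : ‖c - d‖ ^ 2 ≤ (‖c‖ + ‖d‖) ^ 2 := pow_le_pow_left₀ (norm_nonneg _) h1 2
    nlinarith [sq_nonneg (‖c‖ - ‖d‖)]
  have hc : ∀ b : E3, ‖crs v b‖ ^ 2 ≤ ‖b‖ ^ 2 := by
    intro b
    have h1 := norm_crs_le v b
    rw [hv, one_mul] at h1
    exact pow_le_pow_left₀ (norm_nonneg _) h1 2
  exact ⟨by linarith [sqle' a (crs v b), hc b], by linarith [sqle' x (crs v y), hc y]⟩

/-- the derivative of `u / ‖u‖` -/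
def nd (u A : E3) : E3 := (‖u‖⁻¹ : ℝ) • (A - (inner ℝ ((‖u‖⁻¹ : ℝ) • u) A : ℝ) • ((‖u‖⁻¹ : ℝ) • u))

/-- real arithmetic of the variation -/
theorem var_arith {P D S s t K r2 N : ℝ} (ht : 0 ≤ t) (hK : 0 ≤ K) (hs : |s| ≤ K)
    (htK : t * K ≤ 1 / 2) (hP : P ≤ 2 * S) (hP0 : 0 ≤ P) (hD : |D| ≤ S) (hS : 0 ≤ S)
    (hN0 : 0 ≤ N) (hN : N ≤ P + 2 * t * D + t ^ 2 * ((2 + 28 * K + 56 * K ^ 2) * S))
    (hr2 : r2 ≤ 1 - 2 * (t * s) + 8 * (t * s) ^ 2) :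
    (1 / 2) * (r2 * N) ≤ (1 / 2) * P + t * (D - s * P) + t ^ 2 * ((4 + 62 * K + 120 * K ^ 2) * S) := by
  have hts : |t * s| ≤ t * K := by
    rw [abs_mul, abs_of_nonneg ht]
    exact mul_le_mul_of_nonneg_left hs ht
  have h1 := abs_le.1 hts
  have h2 : (t * s) ^ 2 ≤ t * K * (t * K) := by
    rw [← sq_abs]
    nlinarith [abs_nonneg (t * s)]
  set m := 1 - 2 * (t * s) + 8 * (t * s) ^ 2 with hm
  have htK0 : 0 ≤ t * K := by positivity
  have hm4 : m ≤ 4 := by nlinarith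
  have hm0 : 0 ≤ m := by nlinarith [sq_nonneg (t * s - 1 / 8)]
  have hm1 : |m - 1| ≤ 6 * (t * K) := by
    rw [hm, abs_le]
    constructor <;> nlinarith [sq_nonneg (t * s)]
  have k1 : r2 * N ≤ m * (P + 2 * t * D + t ^ 2 * ((2 + 28 * K + 56 * K ^ 2) * S)) :=
    (mul_le_mul_of_nonneg_right hr2 hN0).trans (mul_le_mul_of_nonneg_left hN hm0)
  have k2 : m * P ≤ P - 2 * t * s * P + 16 * (t ^ 2 * K ^ 2 * S) := by
    have e : m * P = P - 2 * t * s * P + 8 * ((t * s) ^ 2 * P) := by rw [hm]; ring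
    have e2 : (t * s) ^ 2 * P ≤ t * K * (t * K) * (2 * S) := mul_le_mul h2 hP hP0 (by positivity)
    rw [e]
    nlinarith
  have k3 : m * (2 * t * D) ≤ 2 * t * D + 12 * (t ^ 2 * K * S) := by
    have e : m * (2 * t * D) = 2 * t * D + 2 * (t * ((m - 1) * D)) := by ring
    have e2 : (m - 1) * D ≤ 6 * (t * K) * S := by
      refine (le_abs_self _).trans ?_
      rw [abs_mul]
      exact mul_le_mul hm1 hD (abs_nonneg _) (by positivity)
    have e3 := mul_le_mul_of_nonneg_left e2 ht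
    rw [e]
    nlinarith
  have k4 : m * (t ^ 2 * ((2 + 28 * K + 56 * K ^ 2) * S)) ≤ 4 * (t ^ 2 * ((2 + 28 * K + 56 * K ^ 2) * S)) :=
    mul_le_mul_of_nonneg_right hm4 (by positivity)
  have e5 : m * (P + 2 * t * D + t ^ 2 * ((2 + 28 * K + 56 * K ^ 2) * S))
      = m * P + m * (2 * t * D) + m * (t ^ 2 * ((2 + 28 * K + 56 * K ^ 2) * S)) := by ring
  rw [e5] at k1
  nlinarith

theorem nrm_inv_sq {v Z : E3} (hv : ‖v‖ = 1) {K t : ℝ} (ht : 0 ≤ t) (hZ : ‖Z‖ ≤ K) (htK : t * K ≤ 1 / 2) :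
    (‖v + t • Z‖⁻¹ : ℝ) ^ 2 ≤ 1 - 2 * (t * inner ℝ v Z) + 8 * (t * inner ℝ v Z) ^ 2 := by
  obtain ⟨h1, h2, -⟩ := nrm_pert hv ht hZ htK
  have hs : |(inner ℝ v Z : ℝ)| ≤ K := by
    refine (abs_real_inner_le_norm _ _).trans ?_
    rw [hv, one_mul]
    exact hZ
  have hts : |t * (inner ℝ v Z : ℝ)| ≤ 1 / 2 := by
    rw [abs_mul, abs_of_nonneg ht]
    exact (mul_le_mul_of_nonneg_left hs ht).trans htK
  have h3 := abs_le.1 hts
  refine le_trans ?_ (inv_sq_le h3.1)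
  have hp : 0 < 1 + t * (inner ℝ v Z : ℝ) := by linarith [h3.1]
  rw [inv_pow, ← one_div]
  exact one_div_le_one_div_of_le (by positivity) (pow_le_pow_left₀ hp.le h2 2)

/-- first variation of `ν` -/
theorem nu_var {v a b Z x y : E3} (hv : ‖v‖ = 1) (ha : inner ℝ v a = (0 : ℝ)) (hb : inner ℝ v b = (0 : ℝ))
    {K t : ℝ} (ht : 0 ≤ t) (ht1 : t ≤ 1) (hZ : ‖Z‖ ≤ K) (htK : t * K ≤ 1 / 2) :
    nuv ((‖v + t • Z‖⁻¹ : ℝ) • (v + t • Z)) (nd (v + t • Z) (a + t • x)) (nd (v + t • Z) (b + t • y))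
      ≤ nuv v a b + t * dnu v a b Z x y
        + t ^ 2 * ((4 + 62 * K + 120 * K ^ 2) * (‖a‖ ^ 2 + ‖b‖ ^ 2 + ‖x‖ ^ 2 + ‖y‖ ^ 2)) := by
  have hK : 0 ≤ K := (norm_nonneg Z).trans hZ
  obtain ⟨h1, h2, h3⟩ := nrm_pert hv ht hZ htK
  set u := v + t • Z with hu
  set w := (‖u‖⁻¹ : ℝ) • u with hw
  have hup : 0 < ‖u‖ := by linarith
  have hw1 : ‖w‖ = 1 := norm_nrm (norm_pos_iff.1 hup)
  have hη : ‖v + (w - v)‖ = 1 := by rw [add_sub_cancel, hw1]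
  have hperp : inner ℝ w (nd u (a + t • x)) = (0 : ℝ) := by
    unfold nd
    rw [← hw, inner_smul_right, inner_sub_right, inner_smul_right, inner_self_one hw1]
    ring
  rw [nuv_perp hperp]
  have h5 := norm_nrm_le (û := w) (A := a + t • x) (B := b + t • y) hw1 (‖u‖⁻¹ : ℝ)
  have h6 := var_num (x := x) (y := y) hv ha hb hη ht ht1 hK h3
  rw [add_sub_cancel] at h6
  set N := ‖a + t • x - crs w (b + t • y)‖ ^ 2 with hN
  have h7 : ‖nd u (a + t • x) - crs w (nd u (b + t • y))‖ ^ 2 ≤ (‖u‖⁻¹ : ℝ) ^ 2 * N := by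
    have h8 := pow_le_pow_left₀ (norm_nonneg _) h5 2
    rw [mul_pow, sq_abs] at h8
    exact h8
  obtain ⟨b1, b2⟩ := q_bds (a := a) (b := b) (x := x) (y := y) hv
  have na := sq_nonneg ‖a‖
  have nb := sq_nonneg ‖b‖
  have nx := sq_nonneg ‖x‖
  have ny := sq_nonneg ‖y‖
  have hD : |(inner ℝ (a - crs v b) (x - crs v y) : ℝ)| ≤ ‖a‖ ^ 2 + ‖b‖ ^ 2 + ‖x‖ ^ 2 + ‖y‖ ^ 2 := by
    refine (abs_real_inner_le_norm _ _).trans ?_
    nlinarith [sq_nonneg (‖a - crs v b‖ - ‖x - crs v y‖)]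
  have hs : |(inner ℝ v Z : ℝ)| ≤ K := by
    refine (abs_real_inner_le_norm _ _).trans ?_
    rw [hv, one_mul]
    exact hZ
  have h9 := var_arith ht hK hs htK (by linarith : ‖a - crs v b‖ ^ 2 ≤ 2 * (‖a‖ ^ 2 + ‖b‖ ^ 2 + ‖x‖ ^ 2 + ‖y‖ ^ 2))
    (sq_nonneg _) hD (by linarith) (sq_nonneg _) h6 (nrm_inv_sq hv ht hZ htK)
  have e1 : nuv v a b = (1 / 2) * ‖a - crs v b‖ ^ 2 := nuv_perp ha
  have e2 : dnu v a b Z x y = inner ℝ (a - crs v b) (x - crs v y) - inner ℝ v Z * ‖a - crs v b‖ ^ 2 := by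
    unfold dnu
    rw [inner_q ha, qm_sq ha]
    ring
  rw [e1, e2]
  linarith

/-- a crude bound for the energy of the competitor -/
theorem en_var {v a Z x : E3} (hv : ‖v‖ = 1) {K t : ℝ} (ht : 0 ≤ t) (ht1 : t ≤ 1) (hZ : ‖Z‖ ≤ K)
    (htK : t * K ≤ 1 / 2) :
    ‖nd (v + t • Z) (a + t • x)‖ ^ 2 ≤ ‖a‖ ^ 2 + t * ((8 + 6 * K) * (‖a‖ ^ 2 + ‖x‖ ^ 2)) := by
  have hK : 0 ≤ K := (norm_nonneg Z).trans hZ
  obtain ⟨h1, h2, h3⟩ := nrm_pert hv ht hZ htK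
  have h4 := nrm_inv_sq hv ht hZ htK
  set u := v + t • Z with hu
  set w := (‖u‖⁻¹ : ℝ) • u with hw
  have hup : 0 < ‖u‖ := by linarith
  have hw1 : ‖w‖ = 1 := norm_nrm (norm_pos_iff.1 hup)
  have hs : |(inner ℝ v Z : ℝ)| ≤ K := by
    refine (abs_real_inner_le_norm _ _).trans ?_
    rw [hv, one_mul]
    exact hZ
  have h5 : ‖nd u (a + t • x)‖ ^ 2 ≤ (‖u‖⁻¹ : ℝ) ^ 2 * ‖a + t • x‖ ^ 2 := by
    unfold nd
    rw [← hw, norm_smul, mul_pow, norm_inv, norm_norm]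
    refine mul_le_mul_of_nonneg_left ?_ (sq_nonneg _)
    have := norm_prj_sq hw1 (a + t • x)
    unfold prj at this
    nlinarith [sq_nonneg (inner ℝ w (a + t • x) : ℝ)]
  refine h5.trans ?_
  have hts : |t * (inner ℝ v Z : ℝ)| ≤ t * K := by
    rw [abs_mul, abs_of_nonneg ht]
    exact mul_le_mul_of_nonneg_left hs ht
  have k1 := abs_le.1 hts
  have htK0 : 0 ≤ t * K := by positivity
  have k2 : (t * (inner ℝ v Z : ℝ)) ^ 2 ≤ t * K * (t * K) := by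
    rw [← sq_abs]
    nlinarith [abs_nonneg (t * (inner ℝ v Z : ℝ))]
  have k3 : (‖u‖⁻¹ : ℝ) ^ 2 ≤ 1 + 6 * (t * K) := by nlinarith
  have k4 : ‖a + t • x‖ ^ 2 ≤ ‖a‖ ^ 2 + 2 * t * (‖a‖ ^ 2 + ‖x‖ ^ 2) := by
    have h := norm_add_le a (t • x)
    rw [norm_smul, Real.norm_eq_abs, abs_of_nonneg ht] at h
    have h2 := pow_le_pow_left₀ (norm_nonneg _) h 2
    have h3 : t ^ 2 * ‖x‖ ^ 2 ≤ t * ‖x‖ ^ 2 := mul_le_mul_of_nonneg_right (by nlinarith) (sq_nonneg _)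
    nlinarith [mul_nonneg ht (sq_nonneg (‖a‖ - ‖x‖)), mul_nonneg ht (sq_nonneg ‖a‖)]
  have na := sq_nonneg ‖a‖
  have nx := sq_nonneg ‖x‖
  calc (‖u‖⁻¹ : ℝ) ^ 2 * ‖a + t • x‖ ^ 2
      ≤ (1 + 6 * (t * K)) * (‖a‖ ^ 2 + 2 * t * (‖a‖ ^ 2 + ‖x‖ ^ 2)) :=
        mul_le_mul k3 k4 (sq_nonneg _) (by positivity)
    _ = ‖a‖ ^ 2 + 2 * t * (‖a‖ ^ 2 + ‖x‖ ^ 2) + 6 * (t * K) * ‖a‖ ^ 2
        + 12 * (t * K) * (t * (‖a‖ ^ 2 + ‖x‖ ^ 2)) := by ring
    _ ≤ ‖a‖ ^ 2 + 2 * t * (‖a‖ ^ 2 + ‖x‖ ^ 2) + 6 * (t * K) * (‖a‖ ^ 2 + ‖x‖ ^ 2)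
        + 6 * (t * (‖a‖ ^ 2 + ‖x‖ ^ 2)) := by
        have c1 : 6 * (t * K) * ‖a‖ ^ 2 ≤ 6 * (t * K) * (‖a‖ ^ 2 + ‖x‖ ^ 2) :=
          mul_le_mul_of_nonneg_left (by linarith) (by positivity)
        have c2 : 12 * (t * K) * (t * (‖a‖ ^ 2 + ‖x‖ ^ 2)) ≤ 6 * (t * (‖a‖ ^ 2 + ‖x‖ ^ 2)) :=
          mul_le_mul_of_nonneg_right (by linarith) (by positivity)
        linarith
    _ = _ := by ring

/-! ### convex functions of `ν` -/

/-- the functions of `ν` that may be minimised: `φ'` is the derivative of `φ` -/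
structure Pen (φ φ' : ℝ → ℝ) (s L : ℝ) : Prop where
  cont : Continuous φ
  cont' : Continuous φ'
  s0 : 0 ≤ s
  L0 : 0 ≤ L
  mono : ∀ x r, 0 ≤ r → φ x ≤ φ (x + r)
  lip : ∀ x r, 0 ≤ r → φ (x + r) ≤ φ x + s * r
  quad : ∀ x h, 0 ≤ x → φ (x + h) ≤ φ x + φ' x * h + L * (h ^ 2 / (1 + x))
  ge : ∀ x, 0 ≤ x → x ≤ φ x
  ge' : ∀ x, 0 ≤ x → 1 ≤ φ' x
  le' : ∀ x, 0 ≤ x → φ' x ≤ s

theorem pen_id : Pen (fun x => x) (fun _ => 1) 1 0 where
  cont := continuous_id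
  cont' := continuous_const
  s0 := zero_le_one
  L0 := le_rfl
  mono := fun x r hr => by linarith
  lip := fun x r _ => by linarith
  quad := fun x h _ => by linarith
  ge := fun x _ => le_rfl
  ge' := fun x _ => le_rfl
  le' := fun x _ => le_rfl

/-- `x + κ (√(1 + (x - n)₊²) - 1)` -/
def pk (κ n x : ℝ) : ℝ := x + κ * (√(1 + max (x - n) 0 ^ 2) - 1)

/-- its derivative -/
def pk' (κ n x : ℝ) : ℝ := 1 + κ * (max (x - n) 0 / √(1 + max (x - n) 0 ^ 2))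

private theorem EMA_sqrt {x y : ℝ} (hy : 0 ≤ y) (hxy : x ≤ y) (hx : 0 ≤ x) :
    √(1 + x ^ 2) ≤ √(1 + y ^ 2) ∧ √(1 + y ^ 2) ≤ √(1 + x ^ 2) + (y - x) := by
  refine ⟨Real.sqrt_le_sqrt (by nlinarith), ?_⟩
  rw [Real.sqrt_le_left (by positivity)]
  have h1 := Real.sq_sqrt (show (0 : ℝ) ≤ 1 + x ^ 2 by positivity)
  have h2 : x ≤ √(1 + x ^ 2) := Real.le_sqrt_of_sq_le (by linarith)
  nlinarith

private theorem EMA_quad (x h : ℝ) : √(1 + (x + h) ^ 2) ≤ √(1 + x ^ 2) + x / √(1 + x ^ 2) * h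
    + h ^ 2 / (2 * √(1 + x ^ 2)) := by
  have hp : 0 < √(1 + x ^ 2) := Real.sqrt_pos.2 (by positivity)
  have h1 := Real.sq_sqrt (show (0 : ℝ) ≤ 1 + x ^ 2 by positivity)
  have h2 := Real.sq_sqrt (show (0 : ℝ) ≤ 1 + (x + h) ^ 2 by positivity)
  have e : √(1 + x ^ 2) + x / √(1 + x ^ 2) * h + h ^ 2 / (2 * √(1 + x ^ 2))
      = (2 * √(1 + x ^ 2) ^ 2 + 2 * x * h + h ^ 2) / (2 * √(1 + x ^ 2)) := by
    field_simp
  rw [e, le_div_iff₀ (by positivity), h1]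
  nlinarith [sq_nonneg (√(1 + (x + h) ^ 2) - √(1 + x ^ 2))]

theorem pen_pk {κ n : ℝ} (hκ : 0 ≤ κ) (hn : 0 ≤ n) :
    Pen (pk κ n) (pk' κ n) (1 + κ) (κ * (1 + n)) where
  cont := by
    unfold pk
    fun_prop
  cont' := by
    unfold pk'
    have h : ∀ x : ℝ, √(1 + max (x - n) 0 ^ 2) ≠ 0 := fun x => (Real.sqrt_pos.2 (by positivity)).ne'
    fun_prop (disch := assumption)
  s0 := by positivity
  L0 := by positivity
  mono := fun x r hr => by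
    unfold pk
    have h1 : max (x - n) 0 ≤ max (x + r - n) 0 := max_le_max (by linarith) le_rfl
    have h2 := (EMA_sqrt (le_max_right _ _) h1 (le_max_right _ _)).1
    nlinarith [mul_le_mul_of_nonneg_left h2 hκ]
  lip := fun x r hr => by
    unfold pk
    have h1 : max (x - n) 0 ≤ max (x + r - n) 0 := max_le_max (by linarith) le_rfl
    have h2 := (EMA_sqrt (le_max_right _ _) h1 (le_max_right _ _)).2
    have h3 : max (x + r - n) 0 - max (x - n) 0 ≤ r := by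
      rcases le_total (x + r - n) 0 with h | h
      · rw [max_eq_right h]
        have := le_max_right (x - n) 0
        linarith
      · rw [max_eq_left h]
        have := le_max_left (x - n) 0
        linarith
    nlinarith [mul_le_mul_of_nonneg_left (h2.trans (add_le_add le_rfl h3)) hκ]
  quad := fun x h hx => by
    unfold pk pk'
    set X := max (x - n) 0 with hX
    have hX0 : 0 ≤ X := le_max_right _ _
    have hp : 0 < √(1 + X ^ 2) := Real.sqrt_pos.2 (by positivity)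
    -- the inequality for the square root
    have h1 : √(1 + max (x + h - n) 0 ^ 2) ≤ √(1 + X ^ 2) + X / √(1 + X ^ 2) * h
        + h ^ 2 / (2 * √(1 + X ^ 2)) := by
      refine le_trans ?_ (EMA_quad X h)
      refine Real.sqrt_le_sqrt ?_
      have h3 : max (x + h - n) 0 ^ 2 ≤ (X + h) ^ 2 := by
        rcases le_total (x + h - n) 0 with k | k
        · rw [max_eq_right k]
          nlinarith [sq_nonneg (X + h)]
        · rw [max_eq_left k]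
          have := le_max_left (x - n) 0
          exact pow_le_pow_left₀ k (by linarith) 2
      linarith
    have h4 : 1 + x ≤ (1 + n) * (2 * √(1 + X ^ 2)) := by
      have h5 : 1 + X ≤ 2 * √(1 + X ^ 2) := by
        have k1 : 1 ≤ √(1 + X ^ 2) := Real.le_sqrt_of_sq_le (by nlinarith)
        have k2 : X ≤ √(1 + X ^ 2) := Real.le_sqrt_of_sq_le (by linarith)
        linarith
      have h6 : x - n ≤ X := le_max_left _ _
      nlinarith [mul_nonneg hn hX0, mul_le_mul_of_nonneg_left h5 (by linarith : 0 ≤ 1 + n)]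
    have h7 : h ^ 2 / (2 * √(1 + X ^ 2)) ≤ (1 + n) * (h ^ 2 / (1 + x)) := by
      rw [div_le_iff₀ (by positivity)]
      have h8 : 0 < 1 + x := by linarith
      have e : (1 + n) * (h ^ 2 / (1 + x)) * (2 * √(1 + X ^ 2))
          = h ^ 2 * ((1 + n) * (2 * √(1 + X ^ 2))) / (1 + x) := by
        field_simp
      rw [e, le_div_iff₀ h8]
      exact mul_le_mul_of_nonneg_left h4 (sq_nonneg _)
    have h9 := mul_le_mul_of_nonneg_left (h1.trans (add_le_add le_rfl h7)) hκ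
    nlinarith
  ge := fun x _ => by
    unfold pk
    have h1 : 1 ≤ √(1 + max (x - n) 0 ^ 2) := Real.le_sqrt_of_sq_le (by nlinarith [sq_nonneg (max (x - n) 0)])
    nlinarith
  ge' := fun x _ => by
    unfold pk'
    have : 0 ≤ κ * (max (x - n) 0 / √(1 + max (x - n) 0 ^ 2)) := by positivity
    linarith
  le' := fun x _ => by
    unfold pk'
    have h1 : max (x - n) 0 / √(1 + max (x - n) 0 ^ 2) ≤ 1 := by
      rw [div_le_one (Real.sqrt_pos.2 (by positivity))]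
      exact Real.le_sqrt_of_sq_le (by linarith)
    nlinarith

theorem pk_eq {κ n x : ℝ} (hx : x ≤ n) : pk κ n x = x := by
  unfold pk
  rw [max_eq_right (by linarith)]
  norm_num

/-- first variation of `φ(ν)` -/
theorem pen_var {φ φ' : ℝ → ℝ} {s L : ℝ} (P : Pen φ φ' s L) {v a b Z x y : E3} (hv : ‖v‖ = 1)
    (ha : inner ℝ v a = (0 : ℝ)) (hb : inner ℝ v b = (0 : ℝ)) {K t : ℝ} (ht : 0 ≤ t) (ht1 : t ≤ 1)
    (hZ : ‖Z‖ ≤ K) (htK : t * K ≤ 1 / 2) :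
    φ (nuv ((‖v + t • Z‖⁻¹ : ℝ) • (v + t • Z)) (nd (v + t • Z) (a + t • x)) (nd (v + t • Z) (b + t • y)))
      ≤ φ (nuv v a b) + t * (φ' (nuv v a b) * dnu v a b Z x y)
        + t ^ 2 * ((L * (8 + 8 * K ^ 2) + s * (4 + 62 * K + 120 * K ^ 2))
          * (‖a‖ ^ 2 + ‖b‖ ^ 2 + ‖x‖ ^ 2 + ‖y‖ ^ 2)) := by
  have hK : 0 ≤ K := (norm_nonneg Z).trans hZ
  have h1 := nu_var (x := x) (y := y) hv ha hb ht ht1 hZ htK
  have hn := nuv_nonneg v a b
  set S := ‖a‖ ^ 2 + ‖b‖ ^ 2 + ‖x‖ ^ 2 + ‖y‖ ^ 2 with hS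
  have hS0 : 0 ≤ S := by positivity
  have h0 := sub_nonneg.2 h1
  have h2 := P.mono (nuv ((‖v + t • Z‖⁻¹ : ℝ) • (v + t • Z)) (nd (v + t • Z) (a + t • x))
    (nd (v + t • Z) (b + t • y))) _ h0
  rw [add_sub_cancel] at h2
  have hr : 0 ≤ t ^ 2 * ((4 + 62 * K + 120 * K ^ 2) * S) := by positivity
  have h3 := P.lip (nuv v a b + t * dnu v a b Z x y) _ hr
  have h4 := P.quad (nuv v a b) (t * dnu v a b Z x y) hn
  -- the bound of the square of the first variation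
  have hs : |(inner ℝ v Z : ℝ)| ≤ K := by
    refine (abs_real_inner_le_norm _ _).trans ?_
    rw [hv, one_mul]
    exact hZ
  obtain ⟨b1, b2⟩ := q_bds (a := a) (b := b) (x := x) (y := y) hv
  have na := sq_nonneg ‖a‖
  have nb := sq_nonneg ‖b‖
  have nx := sq_nonneg ‖x‖
  have ny := sq_nonneg ‖y‖
  have e1 : nuv v a b = (1 / 2) * ‖a - crs v b‖ ^ 2 := nuv_perp ha
  have e2 : dnu v a b Z x y = inner ℝ (a - crs v b) (x - crs v y) - inner ℝ v Z * ‖a - crs v b‖ ^ 2 := by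
    unfold dnu
    rw [inner_q ha, qm_sq ha]
    ring
  have h5 : dnu v a b Z x y ^ 2 ≤ (8 + 8 * K ^ 2) * S * (1 + nuv v a b) := by
    have k1 : (inner ℝ (a - crs v b) (x - crs v y) : ℝ) ^ 2 ≤ ‖a - crs v b‖ ^ 2 * ‖x - crs v y‖ ^ 2 := by
      have := abs_real_inner_le_norm (a - crs v b) (x - crs v y)
      rw [← mul_pow, ← sq_abs]
      exact pow_le_pow_left₀ (abs_nonneg _) this 2
    have k2 : (inner ℝ v Z : ℝ) ^ 2 ≤ K ^ 2 := by
      rw [← sq_abs]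
      exact pow_le_pow_left₀ (abs_nonneg _) hs 2
    set q2 := ‖a - crs v b‖ ^ 2 with hq2
    have hq0 : 0 ≤ q2 := sq_nonneg _
    have k3 : ‖a - crs v b‖ ^ 2 * ‖x - crs v y‖ ^ 2 ≤ q2 * (2 * S) :=
      mul_le_mul_of_nonneg_left (by linarith) hq0
    have k4 : ((inner ℝ v Z : ℝ) * q2) ^ 2 ≤ K ^ 2 * (q2 * (2 * S)) := by
      rw [mul_pow, pow_two q2]
      exact mul_le_mul k2 (mul_le_mul_of_nonneg_left (by linarith) hq0) (by positivity) (by positivity)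
    have k5 : dnu v a b Z x y ^ 2 ≤ 2 * (q2 * (2 * S)) + 2 * (K ^ 2 * (q2 * (2 * S))) := by
      rw [e2]
      nlinarith [sq_nonneg ((inner ℝ (a - crs v b) (x - crs v y) : ℝ) + (inner ℝ v Z : ℝ) * q2)]
    refine k5.trans ?_
    rw [e1]
    have e3 : (8 + 8 * K ^ 2) * S * (1 + 1 / 2 * q2) = (8 + 8 * K ^ 2) * S
        + (2 * (q2 * (2 * S)) + 2 * (K ^ 2 * (q2 * (2 * S)))) := by ring
    rw [e3]
    have : 0 ≤ (8 + 8 * K ^ 2) * S := by positivity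
    linarith
  have h6 : L * ((t * dnu v a b Z x y) ^ 2 / (1 + nuv v a b)) ≤ t ^ 2 * (L * (8 + 8 * K ^ 2) * S) := by
    have k1 : (t * dnu v a b Z x y) ^ 2 / (1 + nuv v a b) ≤ t ^ 2 * ((8 + 8 * K ^ 2) * S) := by
      rw [div_le_iff₀ (by linarith), mul_pow]
      have := mul_le_mul_of_nonneg_left h5 (sq_nonneg t)
      linarith
    have := mul_le_mul_of_nonneg_left k1 P.L0
    linarith
  have e7 : t ^ 2 * ((L * (8 + 8 * K ^ 2) + s * (4 + 62 * K + 120 * K ^ 2)) * S)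
      = t ^ 2 * (L * (8 + 8 * K ^ 2) * S) + s * (t ^ 2 * ((4 + 62 * K + 120 * K ^ 2) * S)) := by ring
  rw [e7]
  linarith

end Pool.Agent.FPX
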