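import Mathlib
import Pool.Agent.FPX.VEC
import Pool.Agent.EWD.LPA
import Pool.Agent.EWD.RUL
import Pool.Agent.FPX.S7Defs

/-
NLG: null Lagrangians (helper19).  `int_wed_even_odd`: the integral of `df ∧ dg` vanishes for `f` even
and `g` odd on the boundary.  `nlg`: the integral of `d (q ⟨T × F, dG⟩)` vanishes for `q` even and
`T, F, G` odd.  `nl_int`: the identity (NL) for two odd maps into the sphere.
-/

open MeasureTheory Set Filter Topology
open scoped ENNReal NNReal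

noncomputable section

namespace Pool.Agent.FPX

open Pool.Agent.EWD

variable {M : Type} [MetricSpace M] [CompactSpace M] {γ : ℝ → M} (C : Calc M γ)

omit [CompactSpace M] in
theorem int_wed_even_odd {f g : M → ℝ} (hf : Lip f) (hg : Lip g) (ef : EvenB γ f)
    (og : OddB γ g) : ∫ o, C.wed f g o ∂C.μ = 0 := by
  have h := C.stokes f g hf hg
  have h1 : ∫ t in (0 : ℝ)..(2 * Real.pi), f (γ t) * deriv (fun s => g (γ s)) t = 0 := by
    set F : ℝ → ℝ := fun t => f (γ t) * deriv (fun s => g (γ s)) t with hF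
    have hs : ∀ t, F (t + Real.pi) = - F t := by
      intro t
      have h2 : deriv (fun s => g (γ s)) (t + Real.pi) = - deriv (fun s => g (γ s)) t := by
        have h3 : deriv (fun s => g (γ (s + Real.pi))) t = deriv (fun s => g (γ s)) (t + Real.pi) :=
          deriv_comp_add_const (fun s => g (γ s)) Real.pi t
        rw [← h3]
        have h4 : (fun s => g (γ (s + Real.pi))) = fun s => -g (γ s) := funext fun s => og s
        rw [h4, deriv.fun_neg]
      show f (γ (t + Real.pi)) * deriv (fun s => g (γ s)) (t + Real.pi) = _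
      rw [h2, ef t, mul_neg]
    have hp : Function.Periodic F (2 * Real.pi) := by
      intro t
      have : t + 2 * Real.pi = (t + Real.pi) + Real.pi := by ring
      rw [this, hs, hs, neg_neg]
    have h5 : ∫ t in (0 : ℝ)..(2 * Real.pi), F (t + Real.pi) = ∫ t in (0 : ℝ)..(2 * Real.pi), F t := by
      rw [intervalIntegral.integral_comp_add_right]
      have := hp.intervalIntegral_add_eq (0 + Real.pi) 0
      rw [show (2 * Real.pi + Real.pi : ℝ) = 0 + Real.pi + 2 * Real.pi by ring, this, zero_add]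
    have h6 : ∫ t in (0 : ℝ)..(2 * Real.pi), F (t + Real.pi)
        = - ∫ t in (0 : ℝ)..(2 * Real.pi), F t := by
      rw [← intervalIntegral.integral_neg]
      exact intervalIntegral.integral_congr fun t _ => hs t
    linarith
  have h2 : ∫ o, C.wed f g o ∂C.μ = ∫ o, (deriv (fun s => f (C.px o s)) 0 * deriv (fun s => g (C.py o s)) 0
      - deriv (fun s => f (C.py o s)) 0 * deriv (fun s => g (C.px o s)) 0) ∂C.μ := rfl
  rw [h2, h, h1, mul_zero]

omit [CompactSpace M] in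
theorem EvenB.mul {f g : M → ℝ} (hf : EvenB γ f) (hg : EvenB γ g) : EvenB γ (fun x => f x * g x) := by
  intro t
  show f _ * g _ = f _ * g _
  rw [hf t, hg t]

omit [CompactSpace M] in
theorem odd_mul {f g : M → ℝ} (hf : OddB γ f) (hg : OddB γ g) : EvenB γ (fun x => f x * g x) := by
  intro t
  show f _ * g _ = f _ * g _
  rw [hf t, hg t, neg_mul_neg]

omit [CompactSpace M] in
theorem EvenB.sub {f g : M → ℝ} (hf : EvenB γ f) (hg : EvenB γ g) : EvenB γ (fun x => f x - g x) := by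
  intro t
  show f _ - g _ = f _ - g _
  rw [hf t, hg t]

/-- the components of `q (T × F)` -/
private def nc (q : M → ℝ) (T F : Fin 3 → M → ℝ) (i j : Fin 3) (x : M) : ℝ :=
  q x * (T i x * F j x - T j x * F i x)

private theorem nc_lip {q : M → ℝ} {T F : Fin 3 → M → ℝ} (hq : Lip q) (hT : ∀ i, Lip (T i))
    (hF : ∀ i, Lip (F i)) (i j : Fin 3) : Lip (nc q T F i j) :=
  hq.mul (((hT i).mul (hF j)).sub ((hT j).mul (hF i)))

omit [CompactSpace M] in
private theorem nc_even {q : M → ℝ} {T F : Fin 3 → M → ℝ} (hq : EvenB γ q) (hT : ∀ i, OddB γ (T i))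
    (hF : ∀ i, OddB γ (F i)) (i j : Fin 3) : EvenB γ (nc q T F i j) :=
  hq.mul ((odd_mul (hT i) (hF j)).sub (odd_mul (hT j) (hF i)))

/-- the integrand of `d (q ⟨T × F, dG⟩)` -/
def nlD (q : M → ℝ) (T F G : Fin 3 → M → ℝ) (o : Om) : ℝ :=
  C.gx q o * inner ℝ (crs (at' C T o) (at' C F o)) (dy C G o)
    - C.gy q o * inner ℝ (crs (at' C T o) (at' C F o)) (dx C G o)
    + q (C.pt o) * (inner ℝ (crs (dx C T o) (at' C F o)) (dy C G o)
      + inner ℝ (crs (at' C T o) (dx C F o)) (dy C G o)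
      - inner ℝ (crs (dy C T o) (at' C F o)) (dx C G o)
      - inner ℝ (crs (at' C T o) (dy C F o)) (dx C G o))

private theorem nc_ae {q : M → ℝ} {T F : Fin 3 → M → ℝ} (hq : Lip q) (hT : ∀ i, Lip (T i))
    (hF : ∀ i, Lip (F i)) (i j : Fin 3) : ∀ᵐ o ∂C.μ,
    C.gx (nc q T F i j) o = C.gx q o * (T i (C.pt o) * F j (C.pt o) - T j (C.pt o) * F i (C.pt o))
      + q (C.pt o) * (C.gx (T i) o * F j (C.pt o) + T i (C.pt o) * C.gx (F j) o
        - C.gx (T j) o * F i (C.pt o) - T j (C.pt o) * C.gx (F i) o) ∧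
    C.gy (nc q T F i j) o = C.gy q o * (T i (C.pt o) * F j (C.pt o) - T j (C.pt o) * F i (C.pt o))
      + q (C.pt o) * (C.gy (T i) o * F j (C.pt o) + T i (C.pt o) * C.gy (F j) o
        - C.gy (T j) o * F i (C.pt o) - T j (C.pt o) * C.gy (F i) o) := by
  have l1 : Lip (fun x => T i x * F j x) := (hT i).mul (hF j)
  have l2 : Lip (fun x => T j x * F i x) := (hT j).mul (hF i)
  filter_upwards [C.ae_mul (hT i) (hF j), C.ae_mul (hT j) (hF i), C.ae_sub l1 l2,
    C.ae_mul hq (l1.sub l2)] with o h1 h2 h3 h4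
  have e : (fun x => q x * (T i x * F j x - T j x * F i x)) = nc q T F i j := rfl
  rw [e] at h4
  refine ⟨?_, ?_⟩
  · rw [h4.1, h3.1, h1.1, h2.1]
    ring
  · rw [h4.2, h3.2, h1.2, h2.2]
    ring

private theorem wed_int {f g : M → ℝ} (hf : Lip f) (hg : Lip g) : Integrable (C.wed f g) C.μ := by
  obtain ⟨L, hL⟩ := hf
  obtain ⟨K, hK⟩ := hg
  refine C.integrable_of_bdd (B := (L : ℝ) * K) ?_ ?_
  · exact ((C.meas_gx ⟨L, hL⟩).mul (C.meas_gy ⟨K, hK⟩)).sub
      ((C.meas_gy ⟨L, hL⟩).mul (C.meas_gx ⟨K, hK⟩))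
  · filter_upwards [C.ae_grad_le hL, C.ae_grad_le hK] with o h1 h2
    unfold Calc.wed
    apply abs_le_of_sq_le_sq _ (by positivity)
    have h3 : (C.gx f o * C.gy g o - C.gy f o * C.gx g o) ^ 2
        ≤ (C.gx f o ^ 2 + C.gy f o ^ 2) * (C.gx g o ^ 2 + C.gy g o ^ 2) := by
      nlinarith [sq_nonneg (C.gx f o * C.gx g o + C.gy f o * C.gy g o)]
    refine h3.trans ?_
    rw [mul_pow]
    exact mul_le_mul h1 h2 (by positivity) (by positivity)

private theorem nlD_ae {q : M → ℝ} {T F G : Fin 3 → M → ℝ} (hq : Lip q) (hT : ∀ i, Lip (T i))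
    (hF : ∀ i, Lip (F i)) : ∀ᵐ o ∂C.μ, nlD C q T F G o
      = C.wed (nc q T F 1 2) (G 0) o + C.wed (nc q T F 2 0) (G 1) o
        + C.wed (nc q T F 0 1) (G 2) o := by
  filter_upwards [nc_ae C hq hT hF 1 2, nc_ae C hq hT hF 2 0, nc_ae C hq hT hF 0 1]
    with o h1 h2 h3
  unfold nlD Calc.wed
  rw [h1.1, h1.2, h2.1, h2.2, h3.1, h3.2]
  simp only [inner3, crs0, crs1, crs2]
  simp only [at', dx, dy, PiLp.toLp_apply, Matrix.cons_val_zero, Matrix.cons_val_one, Matrix.cons_val]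
  ring

/-- the null Lagrangian `d (q ⟨T × F, dG⟩)` -/
theorem nlg {q : M → ℝ} {T F G : Fin 3 → M → ℝ} (hq : Lip q) (hT : ∀ i, Lip (T i))
    (hF : ∀ i, Lip (F i)) (hG : ∀ i, Lip (G i)) (eq : EvenB γ q) (oT : ∀ i, OddB γ (T i))
    (oF : ∀ i, OddB γ (F i)) (oG : ∀ i, OddB γ (G i)) :
    Integrable (nlD C q T F G) C.μ ∧ ∫ o, nlD C q T F G o ∂C.μ = 0 := by
  have i1 := wed_int C (nc_lip hq hT hF 1 2) (hG 0)
  have i2 := wed_int C (nc_lip hq hT hF 2 0) (hG 1)
  have i3 := wed_int C (nc_lip hq hT hF 0 1) (hG 2)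
  have h1 := int_wed_even_odd C (nc_lip hq hT hF 1 2) (hG 0) (nc_even eq oT oF 1 2) (oG 0)
  have h2 := int_wed_even_odd C (nc_lip hq hT hF 2 0) (hG 1) (nc_even eq oT oF 2 0) (oG 1)
  have h3 := int_wed_even_odd C (nc_lip hq hT hF 0 1) (hG 2) (nc_even eq oT oF 0 1) (oG 2)
  refine ⟨((i1.add i2).add i3).congr ?_, ?_⟩
  · filter_upwards [nlD_ae C (G := G) hq hT hF] with o ho
    rw [ho]
    rfl
  · rw [integral_congr_ae (nlD_ae C (G := G) hq hT hF)]
    rw [integral_add (f := fun o => C.wed (nc q T F 1 2) (G 0) o + C.wed (nc q T F 2 0) (G 1) o)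
      (i1.add i2) i3, integral_add i1 i2, h1, h2, h3]
    norm_num

/-- the Jacobian of a map into the sphere; `a`, `b` are the derivatives of `v` -/
def Jac (C : Calc M γ) (v : Fin 3 → M → ℝ) (o : Om) : ℝ :=
  inner ℝ (at' C v o) (crs (dx C v o) (dy C v o))

omit [CompactSpace M] in
private theorem trip {a b F v : E3} (hF : inner ℝ F F = (1 : ℝ)) (ha : inner ℝ F a = (0 : ℝ))
    (hb : inner ℝ F b = (0 : ℝ)) :
    (inner ℝ v (crs a b) : ℝ) = inner ℝ v F * inner ℝ F (crs a b) := by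
  simp only [inner3, crs0, crs1, crs2] at *
  linear_combination (-(v 0 * (a 1 * b 2 - a 2 * b 1)) - v 1 * (a 2 * b 0 - a 0 * b 2)
    - v 2 * (a 0 * b 1 - a 1 * b 0)) * hF
    + ((v 0 * (F 1 * b 2 - F 2 * b 1) + v 1 * (F 2 * b 0 - F 0 * b 2)
    + v 2 * (F 0 * b 1 - F 1 * b 0))) * ha
    + (-(v 0 * (F 1 * a 2 - F 2 * a 1)) - v 1 * (F 2 * a 0 - F 0 * a 2)
    - v 2 * (F 0 * a 1 - F 1 * a 0)) * hb

private theorem sph_facts {v : Fin 3 → M → ℝ} (hv : Sph γ v) : ∀ᵐ o ∂C.μ,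
    inner ℝ (at' C v o) (at' C v o) = (1 : ℝ) ∧ inner ℝ (at' C v o) (dx C v o) = (0 : ℝ) ∧
    inner ℝ (at' C v o) (dy C v o) = (0 : ℝ) := by
  filter_upwards [C.ae_sph hv] with o ho
  refine ⟨?_, ?_, ?_⟩
  · rw [inner3]
    have := hv.unit (C.pt o)
    rw [Fin.sum_univ_three] at this
    simp only [at', PiLp.toLp_apply, Matrix.cons_val_zero, Matrix.cons_val_one, Matrix.cons_val]
    linarith
  · rw [inner3]
    have := ho.1
    rw [Fin.sum_univ_three] at this
    simp only [at', dx, PiLp.toLp_apply, Matrix.cons_val_zero, Matrix.cons_val_one, Matrix.cons_val]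
    linarith
  · rw [inner3]
    have := ho.2
    rw [Fin.sum_univ_three] at this
    simp only [at', dy, PiLp.toLp_apply, Matrix.cons_val_zero, Matrix.cons_val_one, Matrix.cons_val]
    linarith

/-- pointwise form of (NL): `J(B - F') + ½ d⟨v × F, dv⟩·2 = …` -/
theorem nl_point {v F : Fin 3 → M → ℝ} (hv : Sph γ v) (hF : Sph γ F) : ∀ᵐ o ∂C.μ,
    inner ℝ (at' C v o) (crs (dx C v o - dx C F o) (dy C v o - dy C F o))
      + nlD C (fun _ => 1) v F v o
      = (1 - inner ℝ (at' C v o) (at' C F o)) * (2 * Jac C v o - Jac C F o)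
        + Jac C F o - Jac C v o := by
  filter_upwards [sph_facts C hv, sph_facts C hF] with o h1 h2
  obtain ⟨hv1, hva, hvb⟩ := h1
  obtain ⟨hF1, hFa, hFb⟩ := h2
  have hc := C.ae_const 1 o
  have t1 := trip (v := at' C v o) hF1 hFa hFb
  have t2 := trip (v := at' C F o) hv1 hva hvb
  unfold nlD Jac
  rw [hc.1, hc.2]
  generalize at' C v o = v' at *
  generalize at' C F o = F' at *
  generalize dx C v o = a at *
  generalize dy C v o = b at *
  generalize dx C F o = c at *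
  generalize dy C F o = d at *
  simp only [inner3, crs0, crs1, crs2, PiLp.sub_apply] at *
  linear_combination t1 - 2 * t2

/-- the triple product of the derivatives of two Lipschitz maps is integrable -/
theorem int_trip {v T F : Fin 3 → M → ℝ} (hv : ∀ i, Lip (v i)) (hT : ∀ i, Lip (T i))
    (hF : ∀ i, Lip (F i)) :
    Integrable (fun o => (inner ℝ (at' C v o) (crs (dx C T o) (dy C F o)) : ℝ)) C.μ := by
  choose Bv hBv0 hBv using fun i => (hv i).bdd
  choose LT hLT using hT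
  choose LF hLF using hF
  have m : AEMeasurable (fun o => (inner ℝ (at' C v o) (crs (dx C T o) (dy C F o)) : ℝ)) C.μ := by
    have e : (fun o => (inner ℝ (at' C v o) (crs (dx C T o) (dy C F o)) : ℝ)) = fun o =>
        v 0 (C.pt o) * (C.gx (T 1) o * C.gy (F 2) o - C.gx (T 2) o * C.gy (F 1) o)
        + v 1 (C.pt o) * (C.gx (T 2) o * C.gy (F 0) o - C.gx (T 0) o * C.gy (F 2) o)
        + v 2 (C.pt o) * (C.gx (T 0) o * C.gy (F 1) o - C.gx (T 1) o * C.gy (F 0) o) := by
      funext o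
      rw [inner3, crs0, crs1, crs2]
      rfl
    rw [e]
    have gx := fun i => C.meas_gx ⟨LT i, hLT i⟩
    have gy := fun i => C.meas_gy ⟨LF i, hLF i⟩
    have vp := fun i => C.meas_pt (hv i)
    exact (((vp 0).mul (((gx 1).mul (gy 2)).sub ((gx 2).mul (gy 1)))).add
      ((vp 1).mul (((gx 2).mul (gy 0)).sub ((gx 0).mul (gy 2))))).add
      ((vp 2).mul (((gx 0).mul (gy 1)).sub ((gx 1).mul (gy 0))))
  have bx : ∀ᵐ o ∂C.μ, ∀ i, |C.gx (T i) o| ≤ LT i := by
    rw [ae_all_iff]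
    intro i
    filter_upwards [C.ae_grad_le (hLT i)] with o ho
    exact abs_le_of_sq_le_sq (by nlinarith [sq_nonneg (C.gy (T i) o)]) (by positivity)
  have by' : ∀ᵐ o ∂C.μ, ∀ i, |C.gy (F i) o| ≤ LF i := by
    rw [ae_all_iff]
    intro i
    filter_upwards [C.ae_grad_le (hLF i)] with o ho
    exact abs_le_of_sq_le_sq (by nlinarith [sq_nonneg (C.gx (F i) o)]) (by positivity)
  refine C.integrable_of_bdd (B := Bv 0 * (LT 1 * LF 2 + LT 2 * LF 1)
    + Bv 1 * (LT 2 * LF 0 + LT 0 * LF 2) + Bv 2 * (LT 0 * LF 1 + LT 1 * LF 0)) m ?_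
  filter_upwards [bx, by'] with o h1 h2
  rw [inner3, crs0, crs1, crs2]
  have key : ∀ (c a b a' b' Bc A B A' B' : ℝ), |c| ≤ Bc → |a| ≤ A → |b| ≤ B → |a'| ≤ A' → |b'| ≤ B' →
      |c * (a * b - a' * b')| ≤ Bc * (A * B + A' * B') := by
    intro c a b a' b' Bc A B A' B' hc ha hb ha' hb'
    rw [abs_mul]
    have k1 : |a * b - a' * b'| ≤ A * B + A' * B' := by
      refine (abs_sub _ _).trans ?_
      rw [abs_mul, abs_mul]
      exact add_le_add (mul_le_mul ha hb (abs_nonneg _) ((abs_nonneg _).trans ha))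
        (mul_le_mul ha' hb' (abs_nonneg _) ((abs_nonneg _).trans ha'))
    exact mul_le_mul hc k1 (abs_nonneg _) ((abs_nonneg _).trans hc)
  refine (abs_add_le _ _).trans (add_le_add ((abs_add_le _ _).trans (add_le_add ?_ ?_)) ?_)
  · exact key _ _ _ _ _ _ _ _ _ _ (hBv 0 _) (h1 1) (h2 2) (h1 2) (h2 1)
  · exact key _ _ _ _ _ _ _ _ _ _ (hBv 1 _) (h1 2) (h2 0) (h1 0) (h2 2)
  · exact key _ _ _ _ _ _ _ _ _ _ (hBv 2 _) (h1 0) (h2 1) (h1 1) (h2 0)

theorem Jac_int {v : Fin 3 → M → ℝ} (hv : ∀ i, Lip (v i)) : Integrable (Jac C v) C.μ :=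
  int_trip C hv hv hv

/-- (NL): for odd maps `v`, `F` into the sphere -/
theorem nl_int {v F : Fin 3 → M → ℝ} (hv : Sph γ v) (hF : Sph γ F) :
    ∫ o, inner ℝ (at' C v o) (crs (dx C v o - dx C F o) (dy C v o - dy C F o)) ∂C.μ
      = ∫ o, ((1 - inner ℝ (at' C v o) (at' C F o)) * (2 * Jac C v o - Jac C F o)
        + Jac C F o - Jac C v o) ∂C.μ := by
  have h := nlg C (lip_const (M := M) 1) hv.lip hF.lip hv.lip (fun t => rfl) hv.odd hF.odd hv.odd
  have e : ∀ᵐ o ∂C.μ, ((1 - inner ℝ (at' C v o) (at' C F o)) * (2 * Jac C v o - Jac C F o)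
        + Jac C F o - Jac C v o) =
      inner ℝ (at' C v o) (crs (dx C v o - dx C F o) (dy C v o - dy C F o))
      + nlD C (fun _ => 1) v F v o := by
    filter_upwards [nl_point C hv hF] with o ho
    exact ho.symm
  have i1 := int_trip C hv.lip hv.lip hv.lip
  have i2 := int_trip C hv.lip hv.lip hF.lip
  have i3 := int_trip C hv.lip hF.lip hv.lip
  have i4 := int_trip C hv.lip hF.lip hF.lip
  have i5 : Integrable (fun o => (inner ℝ (at' C v o)
      (crs (dx C v o - dx C F o) (dy C v o - dy C F o)) : ℝ)) C.μ := by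
    refine (((i1.sub i2).sub i3).add i4).congr (Filter.Eventually.of_forall fun o => ?_)
    simp only [Pi.add_apply, Pi.sub_apply, inner3, crs0, crs1, crs2, PiLp.sub_apply]
    ring
  rw [integral_congr_ae e, integral_add i5 h.1, h.2, add_zero]

end Pool.Agent.FPX
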