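import Mathlib
import Pool.Agent.FPX.EMA
import Pool.Agent.FPX.NLG

/-
EMN (helper30): near-minimisers of `∫ φ(ν)`, `ν = e - J`, among odd maps of degree one into the two
sphere, and their first variation, for all odd Lipschitz test fields with given bounds.
-/

open MeasureTheory Set Filter Topology
open scoped ENNReal NNReal

noncomputable section

namespace Pool.Agent.FPX

open Pool.Agent.EWD

variable {M : Type} [MetricSpace M] {γ : ℝ → M}

/-- `e - J` for the map `v` -/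
def nuC (C : Calc M γ) (v : Fin 3 → M → ℝ) (o : Om) : ℝ := nuv (at' C v o) (dx C v o) (dy C v o)

/-- the first variation of `e - J` -/
def dnuC (C : Calc M γ) (v Z : Fin 3 → M → ℝ) (o : Om) : ℝ :=
  dnu (at' C v o) (dx C v o) (dy C v o) (at' C Z o) (dx C Z o) (dy C Z o)

/-- the functional -/
def Ph (C : Calc M γ) (φ : ℝ → ℝ) (v : Fin 3 → M → ℝ) : ℝ := ∫ o, φ (nuC C v o) ∂C.μ

/-- the square of the norm of the derivative -/
def S2 (C : Calc M γ) (v : Fin 3 → M → ℝ) (o : Om) : ℝ := ‖dx C v o‖ ^ 2 + ‖dy C v o‖ ^ 2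

/-- `v + t Z` -/
def prt (t : ℝ) (v Z : Fin 3 → M → ℝ) (k : Fin 3) (x : M) : ℝ := v k x + t * Z k x

theorem prt_lip {v Z : Fin 3 → M → ℝ} (hv : ∀ k, Lip (v k)) (hZ : ∀ k, Lip (Z k)) (t : ℝ) (k : Fin 3) :
    Lip (prt t v Z k) := (hv k).add ((hZ k).const_mul t)

theorem ae_prt (C : Calc M γ) {v Z : Fin 3 → M → ℝ} (hv : ∀ k, Lip (v k)) (hZ : ∀ k, Lip (Z k)) (t : ℝ) :
    ∀ᵐ o ∂C.μ, at' C (prt t v Z) o = at' C v o + t • at' C Z o ∧
      dx C (prt t v Z) o = dx C v o + t • dx C Z o ∧ dy C (prt t v Z) o = dy C v o + t • dy C Z o := by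
  have h : ∀ᵐ o ∂C.μ, ∀ k, C.gx (fun x => v k x + t * Z k x) o = C.gx (v k) o + C.gx (fun x => t * Z k x) o ∧
      C.gy (fun x => v k x + t * Z k x) o = C.gy (v k) o + C.gy (fun x => t * Z k x) o :=
    ae_all_iff.mpr fun k => C.ae_add (hv k) ((hZ k).const_mul t)
  have h2 : ∀ k o, C.gx (fun x => t * Z k x) o = t * C.gx (Z k) o ∧
      C.gy (fun x => t * Z k x) o = t * C.gy (Z k) o := fun k o =>
    ⟨deriv_const_mul_field t, deriv_const_mul_field t⟩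
  filter_upwards [h] with o ho
  refine ⟨?_, ?_, ?_⟩
  · ext i
    fin_cases i <;> rfl
  · ext i
    fin_cases i
    · exact (ho 0).1.trans (congrArg _ (h2 0 o).1)
    · exact (ho 1).1.trans (congrArg _ (h2 1 o).1)
    · exact (ho 2).1.trans (congrArg _ (h2 2 o).1)
  · ext i
    fin_cases i
    · exact (ho 0).2.trans (congrArg _ (h2 0 o).2)
    · exact (ho 1).2.trans (congrArg _ (h2 1 o).2)
    · exact (ho 2).2.trans (congrArg _ (h2 2 o).2)

/-- a continuous function of the values and derivatives of two Lipschitz maps is integrable -/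
theorem integrable_cont6 [CompactSpace M] (C : Calc M γ) {v Z : Fin 3 → M → ℝ} (hv : ∀ k, Lip (v k))
    (hZ : ∀ k, Lip (Z k)) {Ψ : E3 × E3 × E3 × E3 × E3 × E3 → ℝ} (hΨ : Continuous Ψ) :
    Integrable (fun o => Ψ (at' C v o, dx C v o, dy C v o, at' C Z o, dx C Z o, dy C Z o)) C.μ := by
  obtain ⟨m1, m2, m0⟩ := meas_dx C hv
  obtain ⟨m4, m5, m3⟩ := meas_dx C hZ
  obtain ⟨⟨B1, b1⟩, ⟨B2, b2⟩⟩ := bdd_dx C hv
  obtain ⟨⟨B3, b3⟩, ⟨B4, b4⟩⟩ := bdd_dx C hZ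
  have hb : ∀ {u : Fin 3 → M → ℝ}, (∀ k, Lip (u k)) → ∃ B, ∀ o, ‖at' C u o‖ ≤ B := by
    intro u hu
    have hc : Continuous fun x => vv (n := 0) u x := by
      unfold vv
      refine (PiLp.continuous_toLp 2 _).comp (continuous_pi fun i => ?_)
      fin_cases i
      · exact (hu 0).cont
      · exact (hu 1).cont
      · exact (hu 2).cont
    obtain ⟨B, hB⟩ := isCompact_univ.exists_bound_of_continuousOn hc.continuousOn
    exact ⟨B, fun o => hB (C.pt o) (mem_univ _)⟩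
  obtain ⟨B5, b5⟩ := hb hv
  obtain ⟨B6, b6⟩ := hb hZ
  have hm : AEMeasurable (fun o => (at' C v o, dx C v o, dy C v o, at' C Z o, dx C Z o, dy C Z o)) C.μ :=
    m0.prodMk (m1.prodMk (m2.prodMk (m3.prodMk (m4.prodMk m5))))
  set K : Set (E3 × E3 × E3 × E3 × E3 × E3) := Metric.closedBall 0 B5 ×ˢ (Metric.closedBall 0 B1 ×ˢ
    (Metric.closedBall 0 B2 ×ˢ (Metric.closedBall 0 B6 ×ˢ (Metric.closedBall 0 B3 ×ˢ
      Metric.closedBall 0 B4)))) with hK
  have hKc : IsCompact K := (isCompact_closedBall _ _).prod ((isCompact_closedBall _ _).prod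
    ((isCompact_closedBall _ _).prod ((isCompact_closedBall _ _).prod ((isCompact_closedBall _ _).prod
      (isCompact_closedBall _ _)))))
  obtain ⟨B, hB⟩ := hKc.exists_bound_of_continuousOn hΨ.continuousOn
  refine C.integrable_of_bdd (B := B) (hΨ.measurable.comp_aemeasurable hm) ?_
  filter_upwards [b1, b2, b3, b4] with o h1 h2 h3 h4
  refine hB _ ⟨?_, ?_, ?_, ?_, ?_, ?_⟩
  · simpa using b5 o
  · simpa using h1
  · simpa using h2
  · simpa using b6 o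
  · simpa using h3
  · simpa using h4

private theorem crs_c {X : Type} [TopologicalSpace X] {f g : X → E3} (hf : Continuous f)
    (hg : Continuous g) : Continuous fun x => crs (f x) (g x) :=
  crs_cont.comp (f := fun x => (f x, g x)) (hf.prodMk hg)

theorem qm_cont {X : Type} [TopologicalSpace X] {f g h : X → E3} (hf : Continuous f)
    (hg : Continuous g) (hh : Continuous h) : Continuous fun x => qm (f x) (g x) (h x) := by
  have h1 := prj_cont hf hg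
  have h2 := crs_c hf hh
  unfold qm
  fun_prop

theorem nuC_cint [CompactSpace M] (C : Calc M γ) {v : Fin 3 → M → ℝ} (hv : ∀ k, Lip (v k)) {φ : ℝ → ℝ}
    (hφ : Continuous φ) : Integrable (fun o => φ (nuC C v o)) C.μ := by
  refine integrable_cont6 C hv hv (Ψ := fun q => φ (nuv q.1 q.2.1 q.2.2.1)) ?_
  have h := qm_cont (f := fun q : E3 × E3 × E3 × E3 × E3 × E3 => q.1) (g := fun q => q.2.1)
    (h := fun q => q.2.2.1) (by fun_prop) (by fun_prop) (by fun_prop)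
  unfold nuv
  fun_prop

theorem dnuC_cint [CompactSpace M] (C : Calc M γ) {v Z : Fin 3 → M → ℝ} (hv : ∀ k, Lip (v k))
    (hZ : ∀ k, Lip (Z k)) {φ : ℝ → ℝ} (hφ : Continuous φ) :
    Integrable (fun o => φ (nuC C v o) * dnuC C v Z o) C.μ := by
  refine integrable_cont6 C hv hZ (Ψ := fun q => φ (nuv q.1 q.2.1 q.2.2.1) *
    dnu q.1 q.2.1 q.2.2.1 q.2.2.2.1 q.2.2.2.2.1 q.2.2.2.2.2) ?_
  have h := qm_cont (f := fun q : E3 × E3 × E3 × E3 × E3 × E3 => q.1) (g := fun q => q.2.1)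
    (h := fun q => q.2.2.1) (by fun_prop) (by fun_prop) (by fun_prop)
  have h' := qm_cont (f := fun q : E3 × E3 × E3 × E3 × E3 × E3 => q.1) (g := fun q => q.2.2.2.2.1)
    (h := fun q => q.2.2.2.2.2) (by fun_prop) (by fun_prop) (by fun_prop)
  unfold nuv dnu
  fun_prop

theorem S2_int [CompactSpace M] (C : Calc M γ) {v : Fin 3 → M → ℝ} (hv : ∀ k, Lip (v k)) :
    Integrable (S2 C v) C.μ :=
  integrable_cont6 C hv hv (Ψ := fun q => ‖q.2.1‖ ^ 2 + ‖q.2.2.1‖ ^ 2) (by fun_prop)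

theorem S2_nonneg (C : Calc M γ) (v : Fin 3 → M → ℝ) (o : Om) : 0 ≤ S2 C v o := by
  unfold S2
  positivity

/-- `e = ν + J` -/
theorem ae_S2 (C : Calc M γ) {v : Fin 3 → M → ℝ} (hv : Sph γ v) :
    ∀ᵐ o ∂C.μ, S2 C v o = 2 * (nuC C v o + jac C v o) := by
  filter_upwards [ae_perp C hv] with o ho
  have h1 := norm_pm (norm_at (C := C) hv o) ho.1 ho.2
  have h2 := jac_pm (norm_at (C := C) hv o) ho.1 ho.2
  unfold S2 nuC nuv jac
  rw [h1, h2]
  ring

theorem int_S2 [CompactSpace M] (C : Calc M γ) {v : Fin 3 → M → ℝ} (hv : Sph γ v) :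
    ∫ o, S2 C v o ∂C.μ = 2 * (∫ o, nuC C v o ∂C.μ + ∫ o, jac C v o ∂C.μ) := by
  rw [integral_congr_ae (ae_S2 C hv), integral_const_mul,
    integral_add (f := nuC C v) (nuC_cint C hv.lip continuous_id) (jac_int C hv)]

theorem nu_le_Ph [CompactSpace M] (C : Calc M γ) {φ φ' : ℝ → ℝ} {s L : ℝ} (P : Pen φ φ' s L)
    {v : Fin 3 → M → ℝ} (hv : ∀ k, Lip (v k)) : ∫ o, nuC C v o ∂C.μ ≤ Ph C φ v :=
  integral_mono (nuC_cint C hv continuous_id) (nuC_cint C hv P.cont) fun _ => P.ge _ (nuv_nonneg _ _ _)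

/-- the competitor -/
def cpt (t : ℝ) (v Z : Fin 3 → M → ℝ) : Fin 3 → M → ℝ := NV (1 / 4 : ℝ) (prt t v Z)

theorem prt_norm {v Z : Fin 3 → M → ℝ} (hv : Sph γ v) {K t : ℝ} (ht : 0 ≤ t)
    (hZ : ∀ x, ‖vv (n := 0) Z x‖ ≤ K) (htK : t * K ≤ 1 / 2) (x : M) :
    1 / 2 ≤ ‖vv (n := 0) (prt t v Z) x‖ := by
  have e : vv (n := 0) (prt t v Z) x = vv (n := 0) v x + t • vv (n := 0) Z x := by
    ext i
    fin_cases i <;> rfl
  rw [e]
  exact (nrm_pert (norm_vv hv x) ht (hZ x) htK).1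

theorem cpt_sph {v Z : Fin 3 → M → ℝ} (hv : Sph γ v) (hZl : ∀ k, Lip (Z k)) (hZo : ∀ k, OddB γ (Z k))
    {K t : ℝ} (ht : 0 ≤ t) (hZ : ∀ x, ‖vv (n := 0) Z x‖ ≤ K) (htK : t * K ≤ 1 / 2) :
    Sph γ (cpt t v Z) := by
  have h := NV_sph (γ := γ) (δ := 1 / 4) (by norm_num) (U := prt t v Z) (prt_lip hv.lip hZl t)
    (fun k s => by
      unfold prt
      rw [hv.odd k s, hZo k s]
      ring)
    (fun x => by
      have h1 := prt_norm hv ht hZ htK x
      have e : (((1 / 4 : ℝ≥0)) : ℝ) = 1 / 4 := by norm_num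
      rw [e]
      linarith)
  have e : (((1 / 4 : ℝ≥0)) : ℝ) = 1 / 4 := by norm_num
  rw [e] at h
  exact h

theorem ae_cpt (C : Calc M γ) {v Z : Fin 3 → M → ℝ} (hv : Sph γ v) (hZl : ∀ k, Lip (Z k))
    {K t : ℝ} (ht : 0 ≤ t) (hZ : ∀ x, ‖vv (n := 0) Z x‖ ≤ K) (htK : t * K ≤ 1 / 2) :
    ∀ᵐ o ∂C.μ, at' C (cpt t v Z) o
        = (‖at' C v o + t • at' C Z o‖⁻¹ : ℝ) • (at' C v o + t • at' C Z o) ∧
      dx C (cpt t v Z) o = nd (at' C v o + t • at' C Z o) (dx C v o + t • dx C Z o) ∧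
      dy C (cpt t v Z) o = nd (at' C v o + t • at' C Z o) (dy C v o + t • dy C Z o) := by
  have h := ae_nv C (δ := 1 / 4) (by norm_num) (U := prt t v Z) (prt_lip hv.lip hZl t)
    (fun x => by
      have h1 := prt_norm hv ht hZ htK x
      linarith)
  filter_upwards [h, ae_prt C hv.lip hZl t] with o h1 h2
  rw [h2.1, h2.2.1, h2.2.2] at h1
  exact h1

variable [CompactSpace M]

/-- the functional of the competitor -/
theorem Ph_cpt (C : Calc M γ) {φ φ' : ℝ → ℝ} {s L : ℝ} (P : Pen φ φ' s L) {v Z : Fin 3 → M → ℝ}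
    (hv : Sph γ v) (hZl : ∀ k, Lip (Z k)) (hZo : ∀ k, OddB γ (Z k)) {K t : ℝ} (ht : 0 ≤ t) (ht1 : t ≤ 1)
    (hZ : ∀ x, ‖vv (n := 0) Z x‖ ≤ K) (htK : t * K ≤ 1 / 2) :
    Ph C φ (cpt t v Z) ≤ Ph C φ v + t * ∫ o, φ' (nuC C v o) * dnuC C v Z o ∂C.μ
      + t ^ 2 * ((L * (8 + 8 * K ^ 2) + s * (4 + 62 * K + 120 * K ^ 2))
        * (∫ o, S2 C v o ∂C.μ + ∫ o, S2 C Z o ∂C.μ)) := by
  have hc := cpt_sph hv hZl hZo ht hZ htK
  have i1 := nuC_cint C hc.lip P.cont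
  have i2 := nuC_cint C hv.lip P.cont
  have i3 := (dnuC_cint C hv.lip hZl P.cont').const_mul t
  have i4 := ((S2_int C hv.lip).add (S2_int C hZl)).const_mul
    (t ^ 2 * (L * (8 + 8 * K ^ 2) + s * (4 + 62 * K + 120 * K ^ 2)))
  have h : ∀ᵐ o ∂C.μ, φ (nuC C (cpt t v Z) o) ≤ φ (nuC C v o) + t * (φ' (nuC C v o) * dnuC C v Z o)
      + t ^ 2 * (L * (8 + 8 * K ^ 2) + s * (4 + 62 * K + 120 * K ^ 2)) * (S2 C v o + S2 C Z o) := by
    filter_upwards [ae_cpt C hv hZl ht hZ htK, ae_perp C hv] with o h1 h2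
    have h3 := pen_var P (x := dx C Z o) (y := dy C Z o) (norm_at (C := C) hv o) h2.1 h2.2 ht ht1
      (Z := at' C Z o) (hZ (C.pt o)) htK
    unfold nuC dnuC S2
    rw [h1.1, h1.2.1, h1.2.2]
    refine h3.trans (le_of_eq ?_)
    ring
  have h5 := integral_mono_ae i1 ((i2.add i3).add i4) h
  refine h5.trans (le_of_eq ?_)
  have e3 : ∫ o, (S2 C v + S2 C Z) o ∂C.μ = _ := integral_add (S2_int C hv.lip) (S2_int C hZl)
  refine (integral_add (i2.add i3) i4).trans ?_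
  rw [integral_const_mul, e3]
  have e2 := integral_add i2 i3
  rw [integral_const_mul] at e2
  unfold Ph
  have e4 : ∫ o, ((fun o => φ (nuC C v o)) + fun o => t * (φ' (nuC C v o) * dnuC C v Z o)) o ∂C.μ = _ := e2
  rw [e4]
  ring

/-- the energy of the competitor -/
theorem S2_cpt (C : Calc M γ) {v Z : Fin 3 → M → ℝ}
    (hv : Sph γ v) (hZl : ∀ k, Lip (Z k)) (hZo : ∀ k, OddB γ (Z k)) {K t : ℝ} (ht : 0 ≤ t) (ht1 : t ≤ 1)
    (hZ : ∀ x, ‖vv (n := 0) Z x‖ ≤ K) (htK : t * K ≤ 1 / 2) :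
    ∫ o, S2 C (cpt t v Z) o ∂C.μ ≤ ∫ o, S2 C v o ∂C.μ
      + t * ((8 + 6 * K) * (∫ o, S2 C v o ∂C.μ + ∫ o, S2 C Z o ∂C.μ)) := by
  have hc := cpt_sph hv hZl hZo ht hZ htK
  have i1 := S2_int C hc.lip
  have i2 := S2_int C hv.lip
  have i3 := S2_int C hZl
  have i4 := (i2.add i3).const_mul (t * (8 + 6 * K))
  have h : ∀ᵐ o ∂C.μ, S2 C (cpt t v Z) o ≤ S2 C v o + t * (8 + 6 * K) * (S2 C v o + S2 C Z o) := by
    filter_upwards [ae_cpt C hv hZl ht hZ htK] with o h1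
    have h3 := en_var (a := dx C v o) (x := dx C Z o) (norm_at (C := C) hv o) ht ht1
      (Z := at' C Z o) (hZ (C.pt o)) htK
    have h4 := en_var (a := dy C v o) (x := dy C Z o) (norm_at (C := C) hv o) ht ht1
      (Z := at' C Z o) (hZ (C.pt o)) htK
    unfold S2
    rw [h1.2.1, h1.2.2]
    linarith
  have h5 := integral_mono_ae i1 (i2.add i4) h
  refine h5.trans (le_of_eq ?_)
  have e3 : ∫ o, (S2 C v + S2 C Z) o ∂C.μ = _ := integral_add i2 i3
  refine (integral_add i2 i4).trans ?_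
  rw [integral_const_mul, e3]
  ring

/-- a crude bound of the integral of the first variation of `ν` -/
theorem dnuC_le (C : Calc M γ) {v Z : Fin 3 → M → ℝ} (hv : Sph γ v) (hZl : ∀ k, Lip (Z k))
    {K : ℝ} (hZ : ∀ x, ‖vv (n := 0) Z x‖ ≤ K) :
    ∫ o, dnuC C v Z o ∂C.μ ≤ (1 + 2 * K) * (∫ o, S2 C v o ∂C.μ + ∫ o, S2 C Z o ∂C.μ) := by
  have i2 := S2_int C hv.lip
  have i3 := S2_int C hZl
  have i0 : Integrable (dnuC C v Z) C.μ := by
    have := dnuC_cint C hv.lip hZl (φ := fun _ => 1) continuous_const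
    simpa using this
  have h : ∀ᵐ o ∂C.μ, dnuC C v Z o ≤ (1 + 2 * K) * (S2 C v o + S2 C Z o) := by
    filter_upwards [ae_perp C hv] with o ho
    have hn := norm_at (C := C) hv o
    have hs : |(inner ℝ (at' C v o) (at' C Z o) : ℝ)| ≤ K := by
      refine (abs_real_inner_le_norm _ _).trans ?_
      rw [hn, one_mul]
      exact hZ (C.pt o)
    have hK : 0 ≤ K := (abs_nonneg _).trans hs
    obtain ⟨b1, b2⟩ := q_bds (a := dx C v o) (b := dy C v o) (x := dx C Z o) (y := dy C Z o) hn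
    have e2 : dnuC C v Z o = inner ℝ (dx C v o - crs (at' C v o) (dy C v o))
        (dx C Z o - crs (at' C v o) (dy C Z o))
        - inner ℝ (at' C v o) (at' C Z o) * ‖dx C v o - crs (at' C v o) (dy C v o)‖ ^ 2 := by
      unfold dnuC dnu
      rw [inner_q ho.1, qm_sq ho.1]
      ring
    have k1 : (inner ℝ (dx C v o - crs (at' C v o) (dy C v o)) (dx C Z o - crs (at' C v o) (dy C Z o)) : ℝ)
        ≤ S2 C v o + S2 C Z o := by
      refine (real_inner_le_norm _ _).trans ?_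
      unfold S2
      nlinarith [sq_nonneg (‖dx C v o - crs (at' C v o) (dy C v o)‖ - ‖dx C Z o - crs (at' C v o) (dy C Z o)‖)]
    have k2 : -(inner ℝ (at' C v o) (at' C Z o) * ‖dx C v o - crs (at' C v o) (dy C v o)‖ ^ 2)
        ≤ K * (2 * (S2 C v o + S2 C Z o)) := by
      refine (neg_le_abs _).trans ?_
      rw [abs_mul, abs_of_nonneg (sq_nonneg ‖_‖)]
      refine mul_le_mul hs ?_ (sq_nonneg _) hK
      have := S2_nonneg C Z o
      unfold S2 at *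
      linarith
    rw [e2]
    linarith
  have h5 := integral_mono_ae i0 ((i2.add i3).const_mul (1 + 2 * K)) h
  refine h5.trans (le_of_eq ?_)
  have e3 : ∫ o, (S2 C v + S2 C Z) o ∂C.μ = _ := integral_add i2 i3
  rw [integral_const_mul, e3]

/-- the competitor has degree one -/
theorem cpt_deg (C : Calc M γ) (hγ : Bd γ) (hR : RegAE C) {v Z : Fin 3 → M → ℝ} (hv : Sph γ v)
    (hJ : ∫ o, jac C v o ∂C.μ = 2 * Real.pi) (hZl : ∀ k, Lip (Z k)) (hZo : ∀ k, OddB γ (Z k))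
    {K K₂ X t : ℝ} (ht : 0 ≤ t) (ht1 : t ≤ 1) (hK : 0 ≤ K) (hZ : ∀ x, ‖vv (n := 0) Z x‖ ≤ K)
    (htK : t * K ≤ 1 / 2) (hX0 : ∫ o, nuC C v o ∂C.μ ≤ X) (hX : X < 2 * Real.pi)
    (hZ2 : ∫ o, S2 C Z o ∂C.μ ≤ K₂)
    (htt : t * ((8 + 64 * K + 120 * K ^ 2) * (8 * Real.pi + K₂)) < 2 * Real.pi - X) :
    ∫ o, jac C (cpt t v Z) o ∂C.μ = 2 * Real.pi := by
  have hpi := Real.pi_pos
  have hc := cpt_sph hv hZl hZo ht hZ htK
  have h1 := Ph_cpt C pen_id hv hZl hZo ht ht1 hZ htK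
  have h2 := S2_cpt C hv hZl hZo ht ht1 hZ htK
  have h3 := dnuC_le C hv hZl hZ
  have h4 := int_S2 C hv
  have h5 := int_S2 C hc
  have hn0 : 0 ≤ ∫ o, nuC C v o ∂C.μ := integral_nonneg fun o => nuv_nonneg _ _ _
  have hn1 : 0 ≤ ∫ o, nuC C (cpt t v Z) o ∂C.μ := integral_nonneg fun o => nuv_nonneg _ _ _
  have hs0 : 0 ≤ ∫ o, S2 C v o ∂C.μ := integral_nonneg fun o => S2_nonneg C v o
  have hs1 : 0 ≤ ∫ o, S2 C Z o ∂C.μ := integral_nonneg fun o => S2_nonneg C Z o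
  obtain ⟨d, hd, hd2⟩ := deg_odd C hγ hR hc
  unfold Ph at h1
  simp only [one_mul, zero_mul, zero_add] at h1
  set A := ∫ o, S2 C v o ∂C.μ + ∫ o, S2 C Z o ∂C.μ with hA
  have hAle : A ≤ 8 * Real.pi + K₂ := by
    rw [hA, h4, hJ]
    linarith
  have hA0 : 0 ≤ A := by rw [hA]; linarith
  have h6 : t * A * (8 + 64 * K + 120 * K ^ 2) < 2 * Real.pi - X := by
    refine lt_of_le_of_lt ?_ htt
    have : t * A ≤ t * (8 * Real.pi + K₂) := mul_le_mul_of_nonneg_left hAle ht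
    have h7 := mul_le_mul_of_nonneg_right this (show 0 ≤ 8 + 64 * K + 120 * K ^ 2 by positivity)
    linarith
  have htA : 0 ≤ t * A := mul_nonneg ht hA0
  -- upper bound of `∫ ν`
  have h7 : ∫ o, nuC C (cpt t v Z) o ∂C.μ < 2 * Real.pi := by
    have k1 : t * ∫ o, dnuC C v Z o ∂C.μ ≤ t * ((1 + 2 * K) * A) := mul_le_mul_of_nonneg_left h3 ht
    have k2 : t ^ 2 * ((4 + 62 * K + 120 * K ^ 2) * A) ≤ t * ((4 + 62 * K + 120 * K ^ 2) * A) :=
      mul_le_mul_of_nonneg_right (by nlinarith) (by positivity)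
    have k3 : t * A * (8 + 64 * K + 120 * K ^ 2) = t * ((1 + 2 * K) * A)
        + t * ((4 + 62 * K + 120 * K ^ 2) * A) + 3 * (t * A) := by ring
    linarith
  -- upper bound of the energy
  have h8 : ∫ o, S2 C (cpt t v Z) o ∂C.μ < 12 * Real.pi := by
    have k1 : t * ((8 + 6 * K) * A) ≤ t * A * (8 + 64 * K + 120 * K ^ 2) := by
      have : t * A * (8 + 64 * K + 120 * K ^ 2) = t * ((8 + 6 * K) * A) + t * A * (58 * K + 120 * K ^ 2) := by
        ring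
      have h0 : 0 ≤ t * A * (58 * K + 120 * K ^ 2) := by positivity
      linarith
    have hX1 : 0 ≤ X := hn0.trans hX0
    rw [hJ] at h4
    linarith
  have h9 : ∫ o, jac C (cpt t v Z) o ∂C.μ < 6 * Real.pi := by linarith
  have h10 : -(2 * Real.pi) < ∫ o, jac C (cpt t v Z) o ∂C.μ := by
    have : 0 ≤ ∫ o, S2 C (cpt t v Z) o ∂C.μ := integral_nonneg fun o => S2_nonneg C _ o
    linarith
  rw [hd2] at h9 h10
  have c1 : (d : ℝ) < 3 := by nlinarith
  have c2 : (-1 : ℝ) < d := by nlinarith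
  have c3 : d < 3 := by exact_mod_cast c1
  have c4 : -1 < d := by exact_mod_cast c2
  obtain ⟨k, hk⟩ := hd
  have c5 : d = 1 := by omega
  rw [hd2, c5]
  norm_num

/-- **near-minimisers** of `∫ φ(ν)` and their first variation -/
theorem emn (C : Calc M γ) (hγ : Bd γ) (hR : RegAE C) {φ φ' : ℝ → ℝ} {s L : ℝ} (P : Pen φ φ' s L)
    {U : Fin 3 → M → ℝ} (hU : Sph γ U) (hUJ : ∫ o, jac C U o ∂C.μ = 2 * Real.pi) {X : ℝ}
    (hUX : Ph C φ U < X) (hX : X < 2 * Real.pi) {K K₂ : ℝ} (hK : 0 ≤ K) (hK₂ : 0 ≤ K₂) {ε : ℝ}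
    (hε : 0 < ε) :
    ∃ v : Fin 3 → M → ℝ, Sph γ v ∧ ∫ o, jac C v o ∂C.μ = 2 * Real.pi ∧ Ph C φ v < X ∧
      ∀ Z : Fin 3 → M → ℝ, (∀ k, Lip (Z k)) → (∀ k, OddB γ (Z k)) → (∀ x, ‖vv (n := 0) Z x‖ ≤ K) →
        ∫ o, S2 C Z o ∂C.μ ≤ K₂ → -ε ≤ ∫ o, φ' (nuC C v o) * dnuC C v Z o ∂C.μ := by
  have hpi := Real.pi_pos
  set c1 := (8 + 64 * K + 120 * K ^ 2) * (8 * Real.pi + K₂) with hc1
  set c2 := (L * (8 + 8 * K ^ 2) + s * (4 + 62 * K + 120 * K ^ 2)) * (8 * Real.pi + K₂) with hc2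
  have hs := P.s0
  have hL := P.L0
  have p1 : 0 < c1 := by positivity
  have p2 : 0 ≤ c2 := by positivity
  -- the step
  obtain ⟨t, ht0, ht1, htK, htt, ht2⟩ : ∃ t : ℝ, 0 < t ∧ t ≤ 1 ∧ t * K ≤ 1 / 2 ∧
      t * c1 < 2 * Real.pi - X ∧ t * c2 ≤ ε / 2 := by
    set m := min 1 (min (1 / (2 * (K + 1))) (min ((2 * Real.pi - X) / (2 * c1)) (ε / (2 * (c2 + 1))))) with hm
    have q1 : 0 < 2 * Real.pi - X := by linarith
    have m1 : m ≤ 1 := min_le_left _ _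
    have m2 : m ≤ 1 / (2 * (K + 1)) := (min_le_right _ _).trans (min_le_left _ _)
    have m3 : m ≤ (2 * Real.pi - X) / (2 * c1) :=
      ((min_le_right _ _).trans (min_le_right _ _)).trans (min_le_left _ _)
    have m4 : m ≤ ε / (2 * (c2 + 1)) :=
      ((min_le_right _ _).trans (min_le_right _ _)).trans (min_le_right _ _)
    have m0 : 0 < m := by
      refine lt_min one_pos (lt_min (by positivity) (lt_min (by positivity) (by positivity)))
    refine ⟨m, m0, m1, ?_, ?_, ?_⟩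
    · rw [le_div_iff₀ (by positivity)] at m2
      nlinarith
    · rw [le_div_iff₀ (by positivity)] at m3
      nlinarith [mul_pos m0 p1]
    · rw [le_div_iff₀ (by positivity)] at m4
      nlinarith
  -- the near-minimiser
  set F : Set ℝ := {r | ∃ v : Fin 3 → M → ℝ, Sph γ v ∧ ∫ o, jac C v o ∂C.μ = 2 * Real.pi ∧ Ph C φ v = r}
    with hF
  have hne : F.Nonempty := ⟨_, U, hU, hUJ, rfl⟩
  have hbd : BddBelow F := ⟨0, by
    rintro r ⟨v, hv, -, rfl⟩
    exact integral_nonneg fun o => (nuv_nonneg _ _ _).trans (P.ge _ (nuv_nonneg _ _ _))⟩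
  have hpos : 0 < min (t * ε / 2) (X - Ph C φ U) := lt_min (by positivity) (by linarith)
  obtain ⟨r, ⟨v, hv, hvJ, rfl⟩, hr⟩ := Real.lt_sInf_add_pos hne hpos
  have hUm : sInf F ≤ Ph C φ U := csInf_le hbd ⟨U, hU, hUJ, rfl⟩
  refine ⟨v, hv, hvJ, ?_, fun Z hZl hZo hZ hZ2 => ?_⟩
  · have := min_le_right (t * ε / 2) (X - Ph C φ U)
    linarith
  · have hvX : Ph C φ v < X := by
      have := min_le_right (t * ε / 2) (X - Ph C φ U)
      linarith
    have hdeg := cpt_deg C hγ hR hv hvJ hZl hZo ht0.le ht1 hK hZ htK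
      ((nu_le_Ph C P hv.lip).trans hvX.le) hX hZ2 htt
    have h1 : sInf F ≤ Ph C φ (cpt t v Z) :=
      csInf_le hbd ⟨_, cpt_sph hv hZl hZo ht0.le hZ htK, hdeg, rfl⟩
    have h2 := Ph_cpt C P hv hZl hZo ht0.le ht1 hZ htK
    have h3 := min_le_left (t * ε / 2) (X - Ph C φ U)
    have h4 := int_S2 C hv
    rw [hvJ] at h4
    have h5 := nu_le_Ph C P hv.lip
    have h6 : t ^ 2 * ((L * (8 + 8 * K ^ 2) + s * (4 + 62 * K + 120 * K ^ 2))
        * (∫ o, S2 C v o ∂C.μ + ∫ o, S2 C Z o ∂C.μ)) ≤ t * (ε / 2) := by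
      have k1 : (L * (8 + 8 * K ^ 2) + s * (4 + 62 * K + 120 * K ^ 2))
          * (∫ o, S2 C v o ∂C.μ + ∫ o, S2 C Z o ∂C.μ) ≤ c2 := by
        rw [hc2]
        refine mul_le_mul_of_nonneg_left ?_ (by positivity)
        linarith
      have k2 := mul_le_mul_of_nonneg_left k1 (sq_nonneg t)
      refine k2.trans ?_
      have : t ^ 2 * c2 = t * (t * c2) := by ring
      rw [this]
      exact mul_le_mul_of_nonneg_left ht2 ht0.le
    have h7 : 0 ≤ t * (∫ o, φ' (nuC C v o) * dnuC C v Z o ∂C.μ + ε) := by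
      have : t * (∫ o, φ' (nuC C v o) * dnuC C v Z o ∂C.μ + ε)
          = t * ∫ o, φ' (nuC C v o) * dnuC C v Z o ∂C.μ + t * (ε / 2) + t * ε / 2 := by ring
      rw [this]
      linarith
    have h8 := nonneg_of_mul_nonneg_right h7 ht0
    linarith

end Pool.Agent.FPX
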