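import Mathlib
import Pool.Agent.FPX.CST
import Pool.Agent.FPX.EMN

/-
CSU (helper18): closed forms `Ω = w(|F₂|) J_F - τ dλ` on the surface for a map `F` of degree one into a half
sphere: `∫ Ω = 2π ∫₀¹ w`, and the bound of `∫ φ(ν)` that follows from a pointwise inequality.
-/

open MeasureTheory Set Filter Topology
open scoped ENNReal NNReal ContDiff

noncomputable section

namespace Pool.Agent.FPX.CST

open Pool.Agent.EWD

variable {M : Type} [MetricSpace M] {γ : ℝ → M} {n : ℕ}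

private theorem walg {X Y Z τ w w' a1 a2 a3 b1 b2 b3 : ℝ} (hτ : τ ^ 2 = 1)
    (hu : X ^ 2 + Y ^ 2 + Z ^ 2 = 1) (ha : X * a1 + Y * a2 + Z * a3 = 0)
    (hb : X * b1 + Y * b2 + Z * b3 = 0) :
    ((w * a1 + X * (w' * (τ * a3))) * b2 - (w * b1 + X * (w' * (τ * b3))) * a2)
    - ((w * a2 + Y * (w' * (τ * a3))) * b1 - (w * b2 + Y * (w' * (τ * b3))) * a1)
    = -τ * ((2 * (τ * Z) * w - (1 - (τ * Z) ^ 2) * w') *
      (X * (b2 * a3 - b3 * a2) + Y * (b3 * a1 - b1 * a3) + Z * (b1 * a2 - b2 * a1))) := by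
  set J : ℝ := X * (b2 * a3 - b3 * a2) + Y * (b3 * a1 - b1 * a3) + Z * (b1 * a2 - b2 * a1) with hJ
  have c1 : b2 * a3 - b3 * a2 = J * X := by
    rw [hJ]
    linear_combination (-(b2 * a3 - b3 * a2)) * hu + (b2 * Z - b3 * Y) * ha - (a2 * Z - a3 * Y) * hb
  have c2 : b3 * a1 - b1 * a3 = J * Y := by
    rw [hJ]
    linear_combination (-(b3 * a1 - b1 * a3)) * hu + (b3 * X - b1 * Z) * ha - (a3 * X - a1 * Z) * hb
  have c3 : b1 * a2 - b2 * a1 = J * Z := by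
    rw [hJ]
    linear_combination (-(b1 * a2 - b2 * a1)) * hu + (b1 * Y - b2 * X) * ha - (a1 * Y - a2 * X) * hb
  have e : ((w * a1 + X * (w' * (τ * a3))) * b2 - (w * b1 + X * (w' * (τ * b3))) * a2)
    - ((w * a2 + Y * (w' * (τ * a3))) * b1 - (w * b2 + Y * (w' * (τ * b3))) * a1)
    = -(2 * w * (b1 * a2 - b2 * a1)) + τ * w' * (X * (b2 * a3 - b3 * a2) + Y * (b3 * a1 - b1 * a3)) := by
    ring
  rw [e, c1, c2, c3]
  clear_value J
  linear_combination (2 * w * J * Z + τ * w' * J * Z ^ 2) * hτ + (τ * w' * J) * hu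

/-- **the integral of `w(τ F₂) J_F - τ dλ`**, `w(z) = 2 z W(z) - (1 - z²) W'(z)` -/
theorem form_int [CompactSpace M] (C : Calc M γ) (hγ : Bd γ) {F : Fin 3 → M → ℝ} (hF : Sph γ F) {τ : ℝ}
    (hτ : τ ^ 2 = 1) (hpos : ∀ x, 0 ≤ τ * F 2 x) (hb : ∀ t, F 2 (γ t) = 0)
    (hk : ∫ t in (0 : ℝ)..(2 * Real.pi), kap γ (F 0) (F 1) t = 2 * Real.pi)
    {W W' : ℝ → ℝ} (hW : ∀ z ∈ Icc (0 : ℝ) 1, HasDerivAt W (W' z) z) {K : ℝ≥0}
    (hWl : LipschitzOnWith K W (Icc 0 1)) {U : Fin n → M → ℝ} (hU : ∀ i, Lip (U i))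
    {O : Set (Fin n → ℝ)} (hO : IsOpen O) (hm : ∀ x, vc U x ∈ O) {a : Fin n → (Fin n → ℝ) → ℝ}
    (ha : ∀ i, ContDiffOn ℝ 1 (a i) O) {a' : Fin n → (Fin n → ℝ) → (Fin n → ℝ) →L[ℝ] ℝ}
    (ha' : ∀ i, ∀ u ∈ O, HasFDerivAt (a i) (a' i u) u) :
    Integrable (fun o => (2 * (τ * F 2 (C.pt o)) * W (τ * F 2 (C.pt o))
      - (1 - (τ * F 2 (C.pt o)) ^ 2) * W' (τ * F 2 (C.pt o))) * jac C F o
      - τ * dl a' (vc U (C.pt o)) (vx C U o) (vy C U o)) C.μ ∧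
    ∫ o, ((2 * (τ * F 2 (C.pt o)) * W (τ * F 2 (C.pt o))
      - (1 - (τ * F 2 (C.pt o)) ^ 2) * W' (τ * F 2 (C.pt o))) * jac C F o
      - τ * dl a' (vc U (C.pt o)) (vx C U o) (vy C U o)) ∂C.μ = -τ * C.sg * (2 * Real.pi * W 0
        + ∫ t in (0 : ℝ)..(2 * Real.pi), ∑ i, a i (vc U (γ t)) * deriv (fun s => U i (γ s)) t) := by
  have hle : ∀ x, τ * F 2 x ∈ Icc (0 : ℝ) 1 := fun x => by
    refine ⟨hpos x, ?_⟩
    have h := hF.unit x
    rw [Fin.sum_univ_three] at h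
    nlinarith [sq_nonneg (F 0 x), sq_nonneg (F 1 x), hpos x]
  have hZ : Lip fun x => τ * F 2 x := (hF.lip 2).const_mul τ
  have hV : Lip fun x => W (τ * F 2 x) := hZ.comp_on hle hWl
  have hA : ∀ i, Lip fun x => F i x * W (τ * F 2 x) := fun i => (hF.lip i).mul hV
  have s1 : ∫ o, (C.gx (fun x => F 0 x * W (τ * F 2 x)) o * C.gy (F 1) o
        - C.gy (fun x => F 0 x * W (τ * F 2 x)) o * C.gx (F 1) o) ∂C.μ =
      C.sg * ∫ t in (0 : ℝ)..(2 * Real.pi),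
        F 0 (γ t) * W (τ * F 2 (γ t)) * deriv (fun s => F 1 (γ s)) t := C.stokes _ _ (hA 0) (hF.lip 1)
  have s2 : ∫ o, (C.gx (fun x => F 1 x * W (τ * F 2 x)) o * C.gy (F 0) o
        - C.gy (fun x => F 1 x * W (τ * F 2 x)) o * C.gx (F 0) o) ∂C.μ =
      C.sg * ∫ t in (0 : ℝ)..(2 * Real.pi),
        F 1 (γ t) * W (τ * F 2 (γ t)) * deriv (fun s => F 0 (γ s)) t := C.stokes _ _ (hA 1) (hF.lip 0)
  have i1 := wed_int C (hA 0) (hF.lip 1)
  have i2 := wed_int C (hA 1) (hF.lip 0)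
  obtain ⟨i3, s3⟩ := stokes_form C hγ hU hO hm ha ha'
  have hpt : ∀ᵐ o ∂C.μ,
      (C.gx (fun x => F 0 x * W (τ * F 2 x)) o * C.gy (F 1) o
        - C.gy (fun x => F 0 x * W (τ * F 2 x)) o * C.gx (F 1) o)
      - (C.gx (fun x => F 1 x * W (τ * F 2 x)) o * C.gy (F 0) o
        - C.gy (fun x => F 1 x * W (τ * F 2 x)) o * C.gx (F 0) o) =
      -τ * ((2 * (τ * F 2 (C.pt o)) * W (τ * F 2 (C.pt o))
      - (1 - (τ * F 2 (C.pt o)) ^ 2) * W' (τ * F 2 (C.pt o))) * jac C F o) := by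
    filter_upwards [C.ae_has (hF.lip 0), C.ae_has (hF.lip 1), C.ae_has (hF.lip 2), ae_perp C hF]
      with o h0 h1 h2 hp
    have hu : F 0 (C.pt o) ^ 2 + F 1 (C.pt o) ^ 2 + F 2 (C.pt o) ^ 2 = 1 := by
      have := hF.unit (C.pt o)
      rwa [Fin.sum_univ_three] at this
    have ha : F 0 (C.pt o) * C.gx (F 0) o + F 1 (C.pt o) * C.gx (F 1) o
        + F 2 (C.pt o) * C.gx (F 2) o = 0 := by
      have := hp.1
      rwa [inner3] at this
    have hb : F 0 (C.pt o) * C.gy (F 0) o + F 1 (C.pt o) * C.gy (F 1) o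
        + F 2 (C.pt o) * C.gy (F 2) o = 0 := by
      have := hp.2
      rwa [inner3] at this
    have wx : HasDerivAt (fun s => W (τ * F 2 (C.px o s)))
        (W' (τ * F 2 (C.px o 0)) * (τ * C.gx (F 2) o)) 0 :=
      HasDerivAt.comp (0 : ℝ) (hW _ (hle (C.px o 0))) (h2.1.const_mul τ)
    have wy : HasDerivAt (fun s => W (τ * F 2 (C.py o s)))
        (W' (τ * F 2 (C.py o 0)) * (τ * C.gy (F 2) o)) 0 :=
      HasDerivAt.comp (0 : ℝ) (hW _ (hle (C.py o 0))) (h2.2.const_mul τ)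
    have gA : ∀ (i : Fin 3), (HasDerivAt (fun s => F i (C.px o s)) (C.gx (F i) o) 0 ∧
        HasDerivAt (fun s => F i (C.py o s)) (C.gy (F i) o) 0) →
        C.gx (fun x => F i x * W (τ * F 2 x)) o = W (τ * F 2 (C.pt o)) * C.gx (F i) o
          + F i (C.pt o) * (W' (τ * F 2 (C.pt o)) * (τ * C.gx (F 2) o)) ∧
        C.gy (fun x => F i x * W (τ * F 2 x)) o = W (τ * F 2 (C.pt o)) * C.gy (F i) o
          + F i (C.pt o) * (W' (τ * F 2 (C.pt o)) * (τ * C.gy (F 2) o)) := by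
      intro i hi
      constructor
      · have h3 : C.gx (fun x => F i x * W (τ * F 2 x)) o =
            C.gx (F i) o * W (τ * F 2 (C.px o 0)) +
              F i (C.px o 0) * (W' (τ * F 2 (C.px o 0)) * (τ * C.gx (F 2) o)) := (hi.1.mul wx).deriv
        rw [h3]
        change C.gx (F i) o * W (τ * F 2 (C.pt o)) +
              F i (C.pt o) * (W' (τ * F 2 (C.pt o)) * (τ * C.gx (F 2) o)) = _
        ring
      · have h3 : C.gy (fun x => F i x * W (τ * F 2 x)) o =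
            C.gy (F i) o * W (τ * F 2 (C.py o 0)) +
              F i (C.py o 0) * (W' (τ * F 2 (C.py o 0)) * (τ * C.gy (F 2) o)) := (hi.2.mul wy).deriv
        rw [h3, C.py_zero]
        ring
    rw [(gA 0 h0).1, (gA 0 h0).2, (gA 1 h1).1, (gA 1 h1).2, walg hτ hu ha hb]
    unfold jac
    rw [inner3]
    simp only [crs0, crs1, crs2]
    rfl
  have i4 : Integrable (fun o => -τ * ((2 * (τ * F 2 (C.pt o)) * W (τ * F 2 (C.pt o))
      - (1 - (τ * F 2 (C.pt o)) ^ 2) * W' (τ * F 2 (C.pt o))) * jac C F o)) C.μ :=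
    (i1.sub i2).congr hpt
  have hbd : (∫ t in (0 : ℝ)..(2 * Real.pi), F 0 (γ t) * W (τ * F 2 (γ t)) * deriv (fun s => F 1 (γ s)) t)
      - (∫ t in (0 : ℝ)..(2 * Real.pi), F 1 (γ t) * W (τ * F 2 (γ t)) * deriv (fun s => F 0 (γ s)) t) =
      2 * Real.pi * W 0 := by
    rw [← intervalIntegral.integral_sub (bd_int hγ (hA 0) (hF.lip 1) _ _)
      (bd_int hγ (hA 1) (hF.lip 0) _ _)]
    have e : ∀ t : ℝ, F 0 (γ t) * W (τ * F 2 (γ t)) * deriv (fun s => F 1 (γ s)) t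
        - F 1 (γ t) * W (τ * F 2 (γ t)) * deriv (fun s => F 0 (γ s)) t = W 0 * kap γ (F 0) (F 1) t := by
      intro t
      have h1 : F 0 (γ t) ^ 2 + F 1 (γ t) ^ 2 = 1 := by
        have := hF.unit (γ t)
        rw [Fin.sum_univ_three, hb t] at this
        linarith
      simp only [kap]
      rw [h1, hb t, mul_zero, div_one]
      ring
    simp only [e]
    rw [intervalIntegral.integral_const_mul, hk]
    ring
  have h5 : ∫ o, (-τ * ((2 * (τ * F 2 (C.pt o)) * W (τ * F 2 (C.pt o))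
      - (1 - (τ * F 2 (C.pt o)) ^ 2) * W' (τ * F 2 (C.pt o))) * jac C F o)) ∂C.μ =
      C.sg * (2 * Real.pi * W 0) := by
    rw [← integral_congr_ae hpt, integral_sub i1 i2, s1, s2, ← mul_sub, hbd]
  have i6 : Integrable (fun o => -τ * (-τ * ((2 * (τ * F 2 (C.pt o)) * W (τ * F 2 (C.pt o))
      - (1 - (τ * F 2 (C.pt o)) ^ 2) * W' (τ * F 2 (C.pt o))) * jac C F o))) C.μ := i4.const_mul (-τ)
  have e6 : ∀ o, -τ * (-τ * ((2 * (τ * F 2 (C.pt o)) * W (τ * F 2 (C.pt o))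
      - (1 - (τ * F 2 (C.pt o)) ^ 2) * W' (τ * F 2 (C.pt o))) * jac C F o)) =
      (2 * (τ * F 2 (C.pt o)) * W (τ * F 2 (C.pt o))
      - (1 - (τ * F 2 (C.pt o)) ^ 2) * W' (τ * F 2 (C.pt o))) * jac C F o := fun o => by
    linear_combination ((2 * (τ * F 2 (C.pt o)) * W (τ * F 2 (C.pt o))
      - (1 - (τ * F 2 (C.pt o)) ^ 2) * W' (τ * F 2 (C.pt o))) * jac C F o) * hτ
  have h7 := integral_const_mul (μ := C.μ) (-τ) (fun o => -τ * ((2 * (τ * F 2 (C.pt o)) *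
    W (τ * F 2 (C.pt o)) - (1 - (τ * F 2 (C.pt o)) ^ 2) * W' (τ * F 2 (C.pt o))) * jac C F o))
  simp only [e6] at i6 h7
  refine ⟨i6.sub (i3.const_mul τ), ?_⟩
  rw [integral_sub i6 (i3.const_mul τ), integral_const_mul, s3, h7, h5]
  ring

/-- **the resource**: a pointwise inequality `Ω + p ≤ T` bounds the area from below and `∫ p` from
above. `ε` is a bound of the boundary integral of `λ` -/
theorem form_le [CompactSpace M] (C : Calc M γ) (hγ : Bd γ) {F : Fin 3 → M → ℝ} (hF : Sph γ F) {τ : ℝ}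
    (hτ : τ ^ 2 = 1) (hsg : -τ * C.sg = 1) (hpos : ∀ x, 0 ≤ τ * F 2 x) (hb : ∀ t, F 2 (γ t) = 0)
    (hk : ∫ t in (0 : ℝ)..(2 * Real.pi), kap γ (F 0) (F 1) t = 2 * Real.pi)
    {W W' : ℝ → ℝ} (hW : ∀ z ∈ Icc (0 : ℝ) 1, HasDerivAt W (W' z) z) {K : ℝ≥0}
    (hWl : LipschitzOnWith K W (Icc 0 1)) {U : Fin n → M → ℝ} (hU : ∀ i, Lip (U i))
    {O : Set (Fin n → ℝ)} (hO : IsOpen O) (hm : ∀ x, vc U x ∈ O) {a : Fin n → (Fin n → ℝ) → ℝ}
    (ha : ∀ i, ContDiffOn ℝ 1 (a i) O) {a' : Fin n → (Fin n → ℝ) → (Fin n → ℝ) →L[ℝ] ℝ}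
    (ha' : ∀ i, ∀ u ∈ O, HasFDerivAt (a i) (a' i u) u) {ε : ℝ}
    (h0 : -ε ≤ ∫ t in (0 : ℝ)..(2 * Real.pi), ∑ i, a i (vc U (γ t)) * deriv (fun s => U i (γ s)) t)
    {T : ℝ} {p : Om → ℝ} (hp : Integrable p C.μ)
    (hle : ∀ᵐ o ∂C.μ, (2 * (τ * F 2 (C.pt o)) * W (τ * F 2 (C.pt o))
      - (1 - (τ * F 2 (C.pt o)) ^ 2) * W' (τ * F 2 (C.pt o))) * jac C F o
      - τ * dl a' (vc U (C.pt o)) (vx C U o) (vy C U o) + p o ≤ T) :
    2 * Real.pi * W 0 - ε + ∫ o, p o ∂C.μ ≤ T * C.vol := by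
  obtain ⟨h1, h2⟩ := form_int C hγ hF hτ hpos hb hk hW hWl hU hO hm ha ha'
  haveI := C.fin
  have h3 := integral_mono_ae (h1.add hp) (integrable_const T) hle
  simp only [Pi.add_apply] at h3
  rw [integral_add h1 hp, h2, hsg, one_mul, integral_const] at h3
  have e : C.μ.real univ • T = T * C.vol := by
    rw [smul_eq_mul, mul_comm]
    rfl
  rw [e] at h3
  linarith

/-- the boundary integral of a form that vanishes on the boundary -/
theorem bdry_zero {U : Fin n → M → ℝ} {a : Fin n → (Fin n → ℝ) → ℝ} (h0 : ∀ t i, a i (vc U (γ t)) = 0) :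
    (∫ t in (0 : ℝ)..(2 * Real.pi), ∑ i, a i (vc U (γ t)) * deriv (fun s => U i (γ s)) t) = 0 := by
  have : ∀ t : ℝ, ∑ i, a i (vc U (γ t)) * deriv (fun s => U i (γ s)) t = 0 := fun t =>
    Finset.sum_eq_zero fun i _ => by rw [h0 t i, zero_mul]
  simp only [this, intervalIntegral.integral_zero]

/-- the boundary integral of a form with small coefficients -/
theorem bdry_small (hγ : Bd γ) {U : Fin n → M → ℝ} {L : ℝ≥0} (hU : ∀ i, LipschitzWith L (U i))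
    {a : Fin n → (Fin n → ℝ) → ℝ} {δ : ℝ} (h0 : ∀ t i, |a i (vc U (γ t))| ≤ δ) :
    |∫ t in (0 : ℝ)..(2 * Real.pi), ∑ i, a i (vc U (γ t)) * deriv (fun s => U i (γ s)) t|
      ≤ 2 * Real.pi * (n * (δ * L)) := by
  have hl : ∀ i, LipschitzWith L (fun s => U i (γ s)) := fun i => by
    have := (hU i).comp hγ.lip
    rwa [mul_one] at this
  have hb : ∀ t : ℝ, ‖∑ i, a i (vc U (γ t)) * deriv (fun s => U i (γ s)) t‖ ≤ n * (δ * L) := by
    intro t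
    refine (norm_sum_le _ _).trans ?_
    have : ∀ i ∈ (Finset.univ : Finset (Fin n)), ‖a i (vc U (γ t)) * deriv (fun s => U i (γ s)) t‖
        ≤ δ * L := fun i _ => by
      rw [norm_mul, Real.norm_eq_abs]
      have n1 : ‖deriv (fun s => U i (γ s)) t‖ ≤ L := norm_deriv_le_of_lipschitz (hl i)
      exact mul_le_mul (h0 t i) n1 (norm_nonneg _) ((abs_nonneg _).trans (h0 t i))
    refine (Finset.sum_le_sum this).trans ?_
    rw [Finset.sum_const, Finset.card_univ, Fintype.card_fin, nsmul_eq_mul]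
  have := intervalIntegral.norm_integral_le_of_norm_le_const (a := 0) (b := 2 * Real.pi)
    (f := fun t => ∑ i, a i (vc U (γ t)) * deriv (fun s => U i (γ s)) t) (C := n * (δ * L)) fun t _ => hb t
  rw [sub_zero, abs_of_pos Real.two_pi_pos, Real.norm_eq_abs] at this
  linarith

end Pool.Agent.FPX.CST
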