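import Mathlib
import Pool.Agent.FPX.CSU

/-
OMQ (helper18): the exterior derivative of `λ = Im (G v)`, where `v` is the differential of the map into the
half sphere in the smooth frame and `G` is any complex function of class `C¹` of the coordinates; the
local forms `Q(|ζ|²) Im (ζ conj(S₂) v) + Z(|ζ|²) S₀ Im (conj(ζ) v)`.
-/

open MeasureTheory Set Filter Topology Complex
open scoped NNReal ContDiff ComplexConjugate

noncomputable section

namespace Pool.Agent.FPX.CST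

variable {n : ℕ}

/-- the point of the disc -/
def zt (u : Fin (n + 2) → ℝ) : ℂ := ⟨u 0, u 1⟩

/-- `|ζ|²` -/
def rr (u : Fin (n + 2) → ℝ) : ℝ := u 0 ^ 2 + u 1 ^ 2

/-- the third coordinate of the point of the half sphere -/
def cc (u : Fin (n + 2) → ℝ) : ℝ := √(1 - rr u)

/-- `1 / (c (1 + c))` -/
def hh (u : Fin (n + 2) → ℝ) : ℝ := 1 / (cc u * (1 + cc u))

/-- `⟨ζ, dζ⟩` -/
def ss (u p : Fin (n + 2) → ℝ) : ℝ := u 0 * p 0 + u 1 * p 1

/-- the velocity `v = dζ + ζ ⟨ζ, dζ⟩ / (c (1 + c))` -/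
def vv (u p : Fin (n + 2) → ℝ) : ℂ := zt p + zt u * (ss u p * hh u : ℝ)

/-- the area form -/
def ja (u p q : Fin (n + 2) → ℝ) : ℝ := (conj (vv u p) * vv u q).im

/-- the domain -/
def OO (n : ℕ) : Set (Fin (n + 2) → ℝ) := {u | rr u < 1}

theorem isOpen_OO : IsOpen (OO n) := by
  have : Continuous fun u : Fin (n + 2) → ℝ => rr u :=
    ((continuous_apply 0).pow 2).add ((continuous_apply 1).pow 2)
  exact isOpen_lt this continuous_const

theorem cc_pos {u : Fin (n + 2) → ℝ} (hu : u ∈ OO n) : 0 < cc u :=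
  Real.sqrt_pos.2 (sub_pos.2 hu)

theorem cc_sq {u : Fin (n + 2) → ℝ} (hu : u ∈ OO n) : cc u ^ 2 = 1 - rr u :=
  Real.sq_sqrt (sub_pos.2 hu).le

/-- the coefficients of `v` -/
def vi (i : Fin (n + 2)) (u : Fin (n + 2) → ℝ) : ℂ :=
  if i = 0 then 1 + zt u * (u 0 * hh u : ℝ) else if i = 1 then I + zt u * (u 1 * hh u : ℝ) else 0

theorem sum_vi (u p : Fin (n + 2) → ℝ) : ∑ i, vi i u * (p i : ℂ) = vv u p := by
  rw [Fin.sum_univ_succ, Fin.sum_univ_succ]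
  have h0 : ∀ i : Fin n, vi (Fin.succ (Fin.succ i)) u * (p (Fin.succ (Fin.succ i)) : ℂ) = 0 := fun i => by
    have h1 : Fin.succ (Fin.succ i) ≠ (0 : Fin (n + 2)) := Fin.succ_ne_zero _
    have h2 : Fin.succ (Fin.succ i) ≠ (1 : Fin (n + 2)) := by
      intro h
      have := congrArg Fin.val h
      simp at this
    simp [vi, h1, h2]
  rw [Finset.sum_eq_zero fun i _ => h0 i]
  have h1 : (Fin.succ 0 : Fin (n + 2)) = 1 := rfl
  have h2 : (1 : Fin (n + 2)) ≠ 0 := by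
    intro h
    have := congrArg Fin.val h
    simp at this
  rw [h1]
  simp only [vi, if_true, if_neg h2]
  simp only [vv, ss, zt]
  apply Complex.ext <;> simp <;> ring

/-- the coefficients of `λ = Im (G v)` -/
def gv (G : (Fin (n + 2) → ℝ) → ℂ) (i : Fin (n + 2)) (u : Fin (n + 2) → ℝ) : ℝ := (G u * vi i u).im

theorem contDiffOn_cc : ContDiffOn ℝ 1 (cc : (Fin (n + 2) → ℝ) → ℝ) (OO n) := by
  have h : ContDiffOn ℝ 1 (fun u : Fin (n + 2) → ℝ => 1 - rr u) (OO n) := by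
    unfold rr
    fun_prop
  exact h.sqrt fun u hu => (sub_pos.2 hu).ne'

theorem contDiffOn_hh : ContDiffOn ℝ 1 (hh : (Fin (n + 2) → ℝ) → ℝ) (OO n) := by
  have h := contDiffOn_cc (n := n)
  refine ContDiffOn.div contDiffOn_const (h.mul (contDiffOn_const.add h)) fun u hu => ?_
  have := cc_pos hu
  positivity

theorem contDiffOn_zt : ContDiffOn ℝ 1 (zt : (Fin (n + 2) → ℝ) → ℂ) (OO n) := by
  have h : ∀ u : Fin (n + 2) → ℝ, zt u = (u 0 : ℂ) + I * (u 1 : ℂ) := fun u => by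
    apply Complex.ext <;> simp [zt]
  have e : (zt : (Fin (n + 2) → ℝ) → ℂ) = fun u => (u 0 : ℂ) + I * (u 1 : ℂ) := funext h
  rw [e]
  have h0 : ContDiff ℝ 1 fun u : Fin (n + 2) → ℝ => (u 0 : ℂ) := Complex.ofRealCLM.contDiff.comp (contDiff_apply ℝ ℝ 0)
  have h1 : ContDiff ℝ 1 fun u : Fin (n + 2) → ℝ => (u 1 : ℂ) := Complex.ofRealCLM.contDiff.comp (contDiff_apply ℝ ℝ 1)
  exact (h0.add (contDiff_const.mul h1)).contDiffOn

theorem contDiffOn_vi (i : Fin (n + 2)) : ContDiffOn ℝ 1 (vi i) (OO n) := by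
  have hz := contDiffOn_zt (n := n)
  have hH := contDiffOn_hh (n := n)
  have hc : ∀ j : Fin (n + 2), ContDiffOn ℝ 1 (fun u : Fin (n + 2) → ℝ => ((u j * hh u : ℝ) : ℂ)) (OO n) :=
    fun j => Complex.ofRealCLM.contDiff.comp_contDiffOn ((contDiff_apply ℝ ℝ j).contDiffOn.mul hH)
  unfold vi
  split_ifs
  · exact contDiffOn_const.add (hz.mul (hc 0))
  · exact contDiffOn_const.add (hz.mul (hc 1))
  · exact contDiffOn_const

theorem contDiffOn_gv {G : (Fin (n + 2) → ℝ) → ℂ} (hG : ContDiffOn ℝ 1 G (OO n)) (i : Fin (n + 2)) :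
    ContDiffOn ℝ 1 (gv G i) (OO n) :=
  Complex.imCLM.contDiff.comp_contDiffOn (hG.mul (contDiffOn_vi i))

/-- coordinate functional -/
def pj (j : Fin (n + 2)) : (Fin (n + 2) → ℝ) →L[ℝ] ℝ :=
  ContinuousLinearMap.proj (R := ℝ) (φ := fun _ : Fin (n + 2) => ℝ) j

@[simp] theorem pj_apply (j : Fin (n + 2)) (p : Fin (n + 2) → ℝ) : pj j p = p j := rfl

theorem hasF_rr (u : Fin (n + 2) → ℝ) : HasFDerivAt (rr : (Fin (n + 2) → ℝ) → ℝ)
    ((2 * u 0) • pj 0 + (2 * u 1) • pj 1) u := by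
  have h0 : HasFDerivAt (fun u : Fin (n + 2) → ℝ => u 0) (pj 0) u := hasFDerivAt_apply 0 u
  have h1 : HasFDerivAt (fun u : Fin (n + 2) → ℝ => u 1) (pj 1) u := hasFDerivAt_apply 1 u
  refine ((h0.pow 2).add (h1.pow 2)).congr_fderiv ?_
  ext p
  simp

theorem fderiv_radial {φ : ℝ → ℝ} {φ' : ℝ} {u : Fin (n + 2) → ℝ} (h : HasDerivAt φ φ' (rr u)) :
    HasFDerivAt (fun u => φ (rr u)) (φ' • ((2 * u 0) • pj 0 + (2 * u 1) • pj 1)) u :=
  h.comp_hasFDerivAt u (hasF_rr u)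

theorem exists_dhh {u : Fin (n + 2) → ℝ} (hu : u ∈ OO n) :
    ∃ κ : ℝ, ∀ p, fderiv ℝ (hh : (Fin (n + 2) → ℝ) → ℝ) u p = κ * ss u p := by
  have hr : 1 - rr u ≠ 0 := (sub_pos.2 hu).ne'
  have h1 : HasDerivAt (fun r : ℝ => √(1 - r)) ((-1) / (2 * √(1 - rr u))) (rr u) :=
    ((hasDerivAt_id (rr u)).const_sub 1).sqrt hr
  have hp : 0 < √(1 - rr u) := Real.sqrt_pos.2 (sub_pos.2 hu)
  have h2 : DifferentiableAt ℝ (fun r : ℝ => 1 / (√(1 - r) * (1 + √(1 - r)))) (rr u) := by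
    refine DifferentiableAt.div (differentiableAt_const _)
      (h1.differentiableAt.mul ((differentiableAt_const _).add h1.differentiableAt)) ?_
    positivity
  have h3 := fderiv_radial (u := u) h2.hasDerivAt
  refine ⟨2 * deriv (fun r : ℝ => 1 / (√(1 - r) * (1 + √(1 - r)))) (rr u), fun p => ?_⟩
  have e : (hh : (Fin (n + 2) → ℝ) → ℝ) = fun u => 1 / (√(1 - rr u) * (1 + √(1 - rr u))) := rfl
  rw [e, h3.fderiv]
  simp [ss]
  ring

theorem hasF_zt (u : Fin (n + 2) → ℝ) : HasFDerivAt (zt : (Fin (n + 2) → ℝ) → ℂ)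
    (Complex.ofRealCLM.comp (pj 0)
      + I • Complex.ofRealCLM.comp (pj 1)) u := by
  have h : ∀ u : Fin (n + 2) → ℝ, zt u = (u 0 : ℂ) + I * (u 1 : ℂ) := fun u => by
    apply Complex.ext <;> simp [zt]
  have e : (zt : (Fin (n + 2) → ℝ) → ℂ) = fun u => (u 0 : ℂ) + I * (u 1 : ℂ) := funext h
  rw [e]
  have h0 : HasFDerivAt (fun u : Fin (n + 2) → ℝ => (u 0 : ℂ))
      (Complex.ofRealCLM.comp (pj 0)) u :=
    Complex.ofRealCLM.hasFDerivAt.comp u (hasFDerivAt_apply 0 u)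
  have h1 : HasFDerivAt (fun u : Fin (n + 2) → ℝ => (u 1 : ℂ))
      (Complex.ofRealCLM.comp (pj 1)) u :=
    Complex.ofRealCLM.hasFDerivAt.comp u (hasFDerivAt_apply 1 u)
  exact h0.add (h1.const_mul I)

/-- `dv = - i ζ J / (1 + c)` -/
theorem dv_eq {u : Fin (n + 2) → ℝ} (hu : u ∈ OO n) (p q : Fin (n + 2) → ℝ) :
    ∑ i, (fderiv ℝ (vi i) u p * (q i : ℂ) - fderiv ℝ (vi i) u q * (p i : ℂ)) =
      -I * zt u * ((ja u p q / (1 + cc u) : ℝ) : ℂ) := by
  obtain ⟨κ, hκ⟩ := exists_dhh hu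
  have hH : HasFDerivAt (hh : (Fin (n + 2) → ℝ) → ℝ) (fderiv ℝ hh u) u :=
    ((contDiffOn_hh.contDiffAt (isOpen_OO.mem_nhds hu)).differentiableAt one_ne_zero).hasFDerivAt
  have hd : ∀ (j : Fin (n + 2)) (a : ℂ) (p : Fin (n + 2) → ℝ),
      fderiv ℝ (fun u : Fin (n + 2) → ℝ => a + zt u * ((u j * hh u : ℝ) : ℂ)) u p =
        zt p * ((u j * hh u : ℝ) : ℂ) + zt u * ((p j * hh u + u j * (κ * ss u p) : ℝ) : ℂ) := by
    intro j a p
    have h1 : HasFDerivAt (fun u : Fin (n + 2) → ℝ => u j * hh u)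
        (u j • fderiv ℝ hh u + hh u • pj j) u :=
      (hasFDerivAt_apply j u).mul hH
    have h2 := (hasF_zt u).mul (Complex.ofRealCLM.hasFDerivAt.comp u h1)
    have h3 := h2.const_add a
    have h4 : fderiv ℝ (fun u : Fin (n + 2) → ℝ => a + zt u * ((u j * hh u : ℝ) : ℂ)) u p = _ :=
      congrArg (fun L : (Fin (n + 2) → ℝ) →L[ℝ] ℂ => L p) h3.fderiv
    rw [h4]
    have e1 := hκ p
    simp only [_root_.add_apply, _root_.smul_apply, ContinuousLinearMap.comp_apply,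
      Complex.ofRealCLM_apply, pj_apply, e1, smul_eq_mul, Function.comp]
    have e2 : zt p = (p 0 : ℂ) + I * (p 1 : ℂ) := by
      apply Complex.ext <;> simp [zt]
    rw [e2]
    push_cast
    ring
  rw [Fin.sum_univ_succ, Fin.sum_univ_succ]
  have h0 : ∀ i : Fin n, fderiv ℝ (vi (Fin.succ (Fin.succ i))) u p * (q (Fin.succ (Fin.succ i)) : ℂ)
      - fderiv ℝ (vi (Fin.succ (Fin.succ i))) u q * (p (Fin.succ (Fin.succ i)) : ℂ) = 0 := fun i => by
    have h1 : Fin.succ (Fin.succ i) ≠ (0 : Fin (n + 2)) := Fin.succ_ne_zero _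
    have h2 : Fin.succ (Fin.succ i) ≠ (1 : Fin (n + 2)) := by
      intro h
      have := congrArg Fin.val h
      simp at this
    have e : (vi (Fin.succ (Fin.succ i)) : (Fin (n + 2) → ℝ) → ℂ) = fun _ => 0 := by
      funext u
      simp [vi, h1, h2]
    rw [e]
    simp
  rw [Finset.sum_eq_zero fun i _ => h0 i]
  have h1 : (Fin.succ 0 : Fin (n + 2)) = 1 := rfl
  have h2 : (1 : Fin (n + 2)) ≠ 0 := by
    intro h
    have := congrArg Fin.val h
    simp at this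
  rw [h1]
  have e0 : (vi 0 : (Fin (n + 2) → ℝ) → ℂ) = fun u => 1 + zt u * ((u 0 * hh u : ℝ) : ℂ) := by
    funext u
    simp [vi]
  have e1 : (vi 1 : (Fin (n + 2) → ℝ) → ℂ) = fun u => I + zt u * ((u 1 * hh u : ℝ) : ℂ) := by
    funext u
    simp only [vi, if_neg h2, if_true]
  rw [e0, e1, hd 0 1 p, hd 0 1 q, hd 1 I p, hd 1 I q]
  have hc := cc_pos hu
  have hc2 := cc_sq hu
  have hh1 : hh u * (cc u * (1 + cc u)) = 1 := by
    unfold hh
    field_simp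
  have hj : ja u p q * cc u = p 0 * q 1 - p 1 * q 0 := by
    have e : ja u p q = (p 0 * q 1 - p 1 * q 0) * (1 + hh u * rr u) := by
      simp only [ja, vv, zt, ss, rr]
      simp
      ring
    rw [e]
    have e2 : (1 + hh u * rr u) * cc u = 1 := by
      have e3 : rr u = 1 - cc u ^ 2 := by linarith
      rw [e3]
      have e4 : hh u * cc u * (1 + cc u) = 1 := by linear_combination hh1
      linear_combination (1 - cc u) * e4
    rw [mul_assoc, e2, mul_one]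
  have hj2 : ja u p q / (1 + cc u) = hh u * (p 0 * q 1 - p 1 * q 0) := by
    rw [← hj, div_eq_iff (by positivity)]
    linear_combination (-(ja u p q)) * hh1
  rw [hj2]
  simp only [zt, ss]
  apply Complex.ext <;> simp <;> ring

/-- **the exterior derivative of `Im (G v)`** -/
theorem dl_gv {G : (Fin (n + 2) → ℝ) → ℂ} (hG : ContDiffOn ℝ 1 G (OO n)) {u : Fin (n + 2) → ℝ}
    (hu : u ∈ OO n) (p q : Fin (n + 2) → ℝ) :
    dl (fun i u => fderiv ℝ (gv G i) u) u p q =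
      (fderiv ℝ G u p * vv u q - fderiv ℝ G u q * vv u p).im
        - (zt u * G u).re * (ja u p q / (1 + cc u)) := by
  have hGd : HasFDerivAt G (fderiv ℝ G u) u :=
    ((hG.contDiffAt (isOpen_OO.mem_nhds hu)).differentiableAt one_ne_zero).hasFDerivAt
  have hvd : ∀ i, HasFDerivAt (vi i) (fderiv ℝ (vi i) u) u := fun i =>
    (((contDiffOn_vi i).contDiffAt (isOpen_OO.mem_nhds hu)).differentiableAt one_ne_zero).hasFDerivAt
  have hd : ∀ (i : Fin (n + 2)) (p : Fin (n + 2) → ℝ), fderiv ℝ (gv G i) u p =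
      (fderiv ℝ G u p * vi i u + G u * fderiv ℝ (vi i) u p).im := by
    intro i p
    have h1 := Complex.imCLM.hasFDerivAt.comp u (hGd.mul (hvd i))
    have h2 : fderiv ℝ (gv G i) u p = _ := congrArg (fun L : (Fin (n + 2) → ℝ) →L[ℝ] ℝ => L p) h1.fderiv
    rw [h2]
    simp only [_root_.add_apply, _root_.smul_apply, ContinuousLinearMap.comp_apply,
      Complex.imCLM_apply, smul_eq_mul]
    congr 1
    ring
  have e1 : dl (fun i u => fderiv ℝ (gv G i) u) u p q =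
      (∑ i, ((fderiv ℝ G u p * vi i u + G u * fderiv ℝ (vi i) u p) * (q i : ℂ)
        - (fderiv ℝ G u q * vi i u + G u * fderiv ℝ (vi i) u q) * (p i : ℂ))).im := by
    rw [Complex.im_sum]
    refine Finset.sum_congr rfl fun i _ => ?_
    change fderiv ℝ (gv G i) u p * q i - fderiv ℝ (gv G i) u q * p i = _
    rw [hd, hd]
    simp
  have e2 : (∑ i, ((fderiv ℝ G u p * vi i u + G u * fderiv ℝ (vi i) u p) * (q i : ℂ)
        - (fderiv ℝ G u q * vi i u + G u * fderiv ℝ (vi i) u q) * (p i : ℂ))) =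
      fderiv ℝ G u p * (∑ i, vi i u * (q i : ℂ)) - fderiv ℝ G u q * (∑ i, vi i u * (p i : ℂ))
        + G u * ∑ i, (fderiv ℝ (vi i) u p * (q i : ℂ) - fderiv ℝ (vi i) u q * (p i : ℂ)) := by
    rw [Finset.mul_sum, Finset.mul_sum, Finset.mul_sum, ← Finset.sum_sub_distrib, ← Finset.sum_add_distrib]
    exact Finset.sum_congr rfl fun i _ => by ring
  rw [e1, e2, sum_vi, sum_vi, dv_eq hu, Complex.add_im]
  have e3 : (G u * (-I * zt u * ((ja u p q / (1 + cc u) : ℝ) : ℂ))).im =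
      -((zt u * G u).re * (ja u p q / (1 + cc u))) := by
    have : G u * (-I * zt u * ((ja u p q / (1 + cc u) : ℝ) : ℂ)) =
        ((-I) * (zt u * G u)) * ((ja u p q / (1 + cc u) : ℝ) : ℂ) := by ring
    rw [this, Complex.im_mul_ofReal, ← neg_mul]
    congr 1
    simp
  rw [e3]
  ring

/-- `⟨ζ, dζ⟩ = c Re (conj ζ v)` -/
theorem ss_eq {u : Fin (n + 2) → ℝ} (hu : u ∈ OO n) (p : Fin (n + 2) → ℝ) :
    ss u p = cc u * (conj (zt u) * vv u p).re := by
  have hc := cc_pos hu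
  have hc2 := cc_sq hu
  have hh1 : hh u * (cc u * (1 + cc u)) = 1 := by
    unfold hh
    field_simp
  have e : (conj (zt u) * vv u p).re = ss u p * (1 + hh u * rr u) := by
    simp only [vv, zt, ss, rr]
    simp
    ring
  have e3 : rr u = 1 - cc u ^ 2 := by linarith
  rw [e, e3]
  linear_combination (-(ss u p) * (1 - cc u)) * hh1

/-- `dζ = v - ζ Re (conj ζ v) / (1 + c)` -/
theorem zt_eq {u : Fin (n + 2) → ℝ} (hu : u ∈ OO n) (p : Fin (n + 2) → ℝ) :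
    zt p = vv u p - zt u * (((conj (zt u) * vv u p).re / (1 + cc u) : ℝ) : ℂ) := by
  have hc := cc_pos hu
  have e : (conj (zt u) * vv u p).re / (1 + cc u) = ss u p * hh u := by
    rw [ss_eq hu]
    unfold hh
    field_simp
  rw [e]
  unfold vv
  ring

private theorem loc_alg {ζ vp vq S Kp Kq m : ℂ} {c Q Q' Z Z' S0 kp kq rp rq tp tq np nq dp dq jj : ℝ}
    (hc : 0 < c) (hρ : ζ.re ^ 2 + ζ.im ^ 2 = 1 - c ^ 2)
    (hrp : rp = (ζ.re * vp.re + ζ.im * vp.im) / (1 + c)) (hrq : rq = (ζ.re * vq.re + ζ.im * vq.im) / (1 + c))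
    (htp : tp = (ζ.re * vp.im - ζ.im * vp.re) * (1 / (1 + c) - 1 / (2 * c)))
    (htq : tq = (ζ.re * vq.im - ζ.im * vq.re) * (1 / (1 + c) - 1 / (2 * c)))
    (hdp : dp = 2 * (c * (ζ.re * vp.re + ζ.im * vp.im))) (hdq : dq = 2 * (c * (ζ.re * vq.re + ζ.im * vq.im)))
    (hnp : np = kp + (1 / c) * ((ζ.re * vp.re - ζ.im * vp.im) * S.re + (ζ.re * vp.im + ζ.im * vp.re) * S.im))
    (hnq : nq = kq + (1 / c) * ((ζ.re * vq.re - ζ.im * vq.im) * S.re + (ζ.re * vq.im + ζ.im * vq.re) * S.im))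
    (hj : jj = (vp.re * vq.im - vp.im * vq.re) / (1 + c)) :
    (((dp * Q' : ℝ) * ζ * conj S + (Q : ℂ) * (vp - ζ * (rp : ℂ)) * conj S
        + (Q : ℂ) * ζ * conj (Kp + conj vp * m + 2 * I * (tp : ℂ) * S)
        + ((dp * Z' * S0 + Z * np : ℝ) : ℂ) * conj ζ + ((Z * S0 : ℝ) : ℂ) * conj (vp - ζ * (rp : ℂ))) * vq
      - ((dq * Q' : ℝ) * ζ * conj S + (Q : ℂ) * (vq - ζ * (rq : ℂ)) * conj S
        + (Q : ℂ) * ζ * conj (Kq + conj vq * m + 2 * I * (tq : ℂ) * S)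
        + ((dq * Z' * S0 + Z * nq : ℝ) : ℂ) * conj ζ + ((Z * S0 : ℝ) : ℂ) * conj (vq - ζ * (rq : ℂ))) * vp).im
      - (ζ * ((Q : ℂ) * ζ * conj S + ((Z * S0 : ℝ) : ℂ) * conj ζ)).re * jj =
    ((Q : ℂ) * ζ * (conj Kp * vq - conj Kq * vp)).im
      + (2 * c * Q' - Q / c) * (ζ ^ 2 * conj S).re * (conj vp * vq).im
      + Z * (kp * (conj ζ * vq).im - kq * (conj ζ * vp).im)
      + (Z / c) * (ζ ^ 2 * conj S).re * (conj vp * vq).im
      + 2 * c * (Z + (ζ.re ^ 2 + ζ.im ^ 2) * Z') * S0 * (conj vp * vq).im := by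
  have h2c : 2 * c = 2 - 2 * (ζ.re ^ 2 + ζ.im ^ 2) / (1 + c) := by
    rw [hρ]
    field_simp
    ring
  have e : 2 * c * (Z + (ζ.re ^ 2 + ζ.im ^ 2) * Z') * S0 * (conj vp * vq).im =
      (2 - 2 * (ζ.re ^ 2 + ζ.im ^ 2) / (1 + c)) * Z * S0 * (conj vp * vq).im
        + 2 * c * (ζ.re ^ 2 + ζ.im ^ 2) * Z' * S0 * (conj vp * vq).im := by
    rw [← h2c]
    ring
  rw [e]
  obtain ⟨x, y⟩ := ζ
  obtain ⟨a, b⟩ := vp
  obtain ⟨a', b'⟩ := vq
  obtain ⟨s, t⟩ := S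
  obtain ⟨k1, k2⟩ := Kp
  obtain ⟨l1, l2⟩ := Kq
  obtain ⟨m1, m2⟩ := m
  clear hρ h2c e
  simp only at hrp hrq htp htq hdp hdq hnp hnq hj
  simp only [pow_two, Complex.mul_re, Complex.mul_im, Complex.add_re, Complex.add_im, Complex.sub_re,
    Complex.sub_im, Complex.conj_re, Complex.conj_im, Complex.ofReal_re, Complex.ofReal_im, Complex.I_re,
    Complex.I_im, Complex.re_ofNat, Complex.im_ofNat]
  rw [hrp, hrq, htp, htq, hdp, hdq, hnp, hnq, hj]
  field_simp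
  ring

/-- a complex coordinate -/
def cj (j k : Fin (n + 2)) (u : Fin (n + 2) → ℝ) : ℂ := ⟨u j, u k⟩

theorem hasF_cj (j k : Fin (n + 2)) (u : Fin (n + 2) → ℝ) : HasFDerivAt (cj j k)
    (Complex.ofRealCLM.comp (pj j) + I • Complex.ofRealCLM.comp (pj k)) u := by
  have e : (cj j k : (Fin (n + 2) → ℝ) → ℂ) = fun u => (u j : ℂ) + I * (u k : ℂ) := funext fun u => by
    apply Complex.ext <;> simp [cj]
  rw [e]
  have h0 : HasFDerivAt (fun u : Fin (n + 2) → ℝ => (u j : ℂ)) (Complex.ofRealCLM.comp (pj j)) u :=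
    Complex.ofRealCLM.hasFDerivAt.comp u (hasFDerivAt_apply j u)
  have h1 : HasFDerivAt (fun u : Fin (n + 2) → ℝ => (u k : ℂ)) (Complex.ofRealCLM.comp (pj k)) u :=
    Complex.ofRealCLM.hasFDerivAt.comp u (hasFDerivAt_apply k u)
  exact h0.add (h1.const_mul I)

theorem contDiff_cj (j k : Fin (n + 2)) : ContDiff ℝ 1 (cj j k) := by
  have e : (cj j k : (Fin (n + 2) → ℝ) → ℂ) = fun u => (u j : ℂ) + I * (u k : ℂ) := funext fun u => by
    apply Complex.ext <;> simp [cj]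
  rw [e]
  have h0 : ContDiff ℝ 1 fun u : Fin (n + 2) → ℝ => (u j : ℂ) := Complex.ofRealCLM.contDiff.comp (contDiff_apply ℝ ℝ j)
  have h1 : ContDiff ℝ 1 fun u : Fin (n + 2) → ℝ => (u k : ℂ) := Complex.ofRealCLM.contDiff.comp (contDiff_apply ℝ ℝ k)
  exact h0.add (contDiff_const.mul h1)

theorem contDiffOn_rad {φ : ℝ → ℝ} (h : ContDiffOn ℝ 1 φ (Iio 1)) :
    ContDiffOn ℝ 1 (fun u : Fin (n + 2) → ℝ => φ (rr u)) (OO n) := by
  have hr : ContDiffOn ℝ 1 (rr : (Fin (n + 2) → ℝ) → ℝ) (OO n) := by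
    unfold rr
    fun_prop
  exact h.comp hr fun u hu => hu

/-- the function `G` of the local forms: `Q(|ζ|²) ζ conj S + Z(|ζ|²) S₀ conj ζ` -/
def gloc (Q Z : ℝ → ℝ) (j k l : Fin (n + 2)) (u : Fin (n + 2) → ℝ) : ℂ :=
  (Q (rr u) : ℂ) * zt u * conj (cj j k u) + ((Z (rr u) * u l : ℝ) : ℂ) * conj (zt u)

theorem contDiffOn_gloc {Q Z : ℝ → ℝ} (hQ : ContDiffOn ℝ 1 Q (Iio 1)) (hZ : ContDiffOn ℝ 1 Z (Iio 1))
    (j k l : Fin (n + 2)) : ContDiffOn ℝ 1 (gloc Q Z j k l) (OO n) := by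
  have hz := contDiffOn_zt (n := n)
  have hzc : ContDiffOn ℝ 1 (fun u : Fin (n + 2) → ℝ => conj (zt u)) (OO n) :=
    Complex.conjCLE.contDiff.comp_contDiffOn hz
  have hc : ContDiffOn ℝ 1 (fun u : Fin (n + 2) → ℝ => conj (cj j k u)) (OO n) :=
    Complex.conjCLE.contDiff.comp_contDiffOn (contDiff_cj j k).contDiffOn
  have h1 : ContDiffOn ℝ 1 (fun u : Fin (n + 2) → ℝ => (Q (rr u) : ℂ)) (OO n) :=
    Complex.ofRealCLM.contDiff.comp_contDiffOn (contDiffOn_rad hQ)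
  have h2 : ContDiffOn ℝ 1 (fun u : Fin (n + 2) → ℝ => ((Z (rr u) * u l : ℝ) : ℂ)) (OO n) :=
    Complex.ofRealCLM.contDiff.comp_contDiffOn ((contDiffOn_rad hZ).mul (contDiff_apply ℝ ℝ l).contDiffOn)
  exact ((h1.mul hz).mul hc).add (h2.mul hzc)

theorem fderiv_gloc {Q Z : ℝ → ℝ} {Q' Z' : ℝ} {u : Fin (n + 2) → ℝ} (hQ : HasDerivAt Q Q' (rr u))
    (hZ : HasDerivAt Z Z' (rr u)) (j k l : Fin (n + 2)) (p : Fin (n + 2) → ℝ) :
    fderiv ℝ (gloc Q Z j k l) u p =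
      ((2 * ss u p * Q' : ℝ) : ℂ) * zt u * conj (cj j k u) + (Q (rr u) : ℂ) * zt p * conj (cj j k u)
        + (Q (rr u) : ℂ) * zt u * conj (cj j k p)
        + ((2 * ss u p * Z' * u l + Z (rr u) * p l : ℝ) : ℂ) * conj (zt u)
        + ((Z (rr u) * u l : ℝ) : ℂ) * conj (zt p) := by
  have h1 := Complex.ofRealCLM.hasFDerivAt.comp u (fderiv_radial hQ)
  have h2 := (hasF_zt u)
  have h3 := Complex.conjCLE.toContinuousLinearMap.hasFDerivAt.comp u (hasF_cj j k u)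
  have h4 := Complex.ofRealCLM.hasFDerivAt.comp u ((fderiv_radial hZ).mul (hasFDerivAt_apply l u))
  have h5 := Complex.conjCLE.toContinuousLinearMap.hasFDerivAt.comp u h2
  have h6 := ((h1.mul h2).mul h3).add (h4.mul h5)
  have h7 : fderiv ℝ (gloc Q Z j k l) u p = _ := congrArg (fun L : (Fin (n + 2) → ℝ) →L[ℝ] ℂ => L p) h6.fderiv
  rw [h7]
  have e1 : zt p = (p 0 : ℂ) + I * (p 1 : ℂ) := by
    apply Complex.ext <;> simp [zt]
  have e2 : cj j k p = (p j : ℂ) + I * (p k : ℂ) := by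
    apply Complex.ext <;> simp [cj]
  simp only [_root_.add_apply, _root_.smul_apply, ContinuousLinearMap.comp_apply, Function.comp,
    Complex.ofRealCLM_apply, pj_apply, smul_eq_mul, ContinuousLinearEquiv.coe_coe, Complex.conjCLE_apply,
    ContinuousLinearMap.proj_apply, e1, e2, map_add, map_mul, Complex.conj_I, Complex.conj_ofReal, ss,
    Pi.mul_apply]
  push_cast
  ring

/-- **the local forms**: `λ = Q Im (ζ conj(S) v) + Z S₀ Im (conj(ζ) v)`, `S = mean (δ² ε²)`, `S₀ = mean (δ²)`.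
`Kp = 2 mean (δ k ε²)`, `kp = 2 mean (δ k)` for the direction `p`; `m = - mean (δ ε³) + conj(ζ) mean (δ² ε⁴) / c` -/
theorem dl_loc {Q Z : ℝ → ℝ} {Q' Z' : ℝ} {u : Fin (n + 2) → ℝ} (hu : u ∈ OO n)
    (hQc : ContDiffOn ℝ 1 Q (Iio 1)) (hZc : ContDiffOn ℝ 1 Z (Iio 1)) (hQ : HasDerivAt Q Q' (rr u))
    (hZ : HasDerivAt Z Z' (rr u)) (j k l : Fin (n + 2)) {p q : Fin (n + 2) → ℝ} {Kp Kq m : ℂ} {kp kq : ℝ}
    (hSp : cj j k p = Kp + conj (vv u p) * m
      + 2 * I * (((conj (zt u) * vv u p).im * (1 / (1 + cc u) - 1 / (2 * cc u)) : ℝ) : ℂ) * cj j k u)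
    (hSq : cj j k q = Kq + conj (vv u q) * m
      + 2 * I * (((conj (zt u) * vv u q).im * (1 / (1 + cc u) - 1 / (2 * cc u)) : ℝ) : ℂ) * cj j k u)
    (h0p : p l = kp + (1 / cc u) * (conj (zt u * vv u p) * cj j k u).re)
    (h0q : q l = kq + (1 / cc u) * (conj (zt u * vv u q) * cj j k u).re) :
    dl (fun i u => fderiv ℝ (gv (gloc Q Z j k l) i) u) u p q =
      ((Q (rr u) : ℂ) * zt u * (conj Kp * vv u q - conj Kq * vv u p)).im
        + (2 * cc u * Q' - Q (rr u) / cc u) * (zt u ^ 2 * conj (cj j k u)).re * ja u p q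
        + Z (rr u) * (kp * (conj (zt u) * vv u q).im - kq * (conj (zt u) * vv u p).im)
        + (Z (rr u) / cc u) * (zt u ^ 2 * conj (cj j k u)).re * ja u p q
        + 2 * cc u * (Z (rr u) + rr u * Z') * u l * ja u p q := by
  have hc := cc_pos hu
  have hc2 := cc_sq hu
  rw [dl_gv (contDiffOn_gloc hQc hZc j k l) hu, fderiv_gloc hQ hZ, fderiv_gloc hQ hZ]
  have key := loc_alg (ζ := zt u) (vp := vv u p) (vq := vv u q) (S := cj j k u) (Kp := Kp) (Kq := Kq) (m := m)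
    (c := cc u) (Q := Q (rr u)) (Q' := Q') (Z := Z (rr u)) (Z' := Z') (S0 := u l) (kp := kp) (kq := kq)
    (rp := (conj (zt u) * vv u p).re / (1 + cc u)) (rq := (conj (zt u) * vv u q).re / (1 + cc u))
    (tp := (conj (zt u) * vv u p).im * (1 / (1 + cc u) - 1 / (2 * cc u)))
    (tq := (conj (zt u) * vv u q).im * (1 / (1 + cc u) - 1 / (2 * cc u)))
    (np := p l) (nq := q l) (dp := 2 * ss u p) (dq := 2 * ss u q) (jj := ja u p q / (1 + cc u)) hc
    (by rw [hc2]; simp [zt, rr]) (by simp) (by simp) (by simp; left; ring) (by simp; left; ring)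
    (by rw [ss_eq hu]; simp) (by rw [ss_eq hu]; simp)
    (by rw [h0p]; simp; left; ring) (by rw [h0q]; simp; left; ring)
    (by unfold ja; simp; ring)
  have ez : (zt u).re ^ 2 + (zt u).im ^ 2 = rr u := by simp [zt, rr]
  rw [ez] at key
  unfold ja at key ⊢
  rw [← key]
  have e3 : zt u * gloc Q Z j k l u = zt u * ((Q (rr u) : ℂ) * zt u * conj (cj j k u)
      + ((Z (rr u) * u l : ℝ) : ℂ) * conj (zt u)) := rfl
  rw [e3, ← zt_eq hu p, ← zt_eq hu q, hSp, hSq]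

section Surface

open Pool.Agent.EWD

variable {M : Type} [MetricSpace M] {γ : ℝ → M}

/-- Stokes for `λ = Im (G v)` on the surface -/
theorem stokes_gv [CompactSpace M] (C : Calc M γ) (hγ : Bd γ) {U : Fin (n + 2) → M → ℝ}
    (hU : ∀ i, Lip (U i)) (hm : ∀ x, U 0 x ^ 2 + U 1 x ^ 2 < 1) {G : (Fin (n + 2) → ℝ) → ℂ}
    (hG : ContDiffOn ℝ 1 G (OO n)) :
    Integrable (fun o => dl (fun i u => fderiv ℝ (gv G i) u) (vc U (C.pt o)) (vx C U o) (vy C U o)) C.μ ∧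
    ∫ o, dl (fun i u => fderiv ℝ (gv G i) u) (vc U (C.pt o)) (vx C U o) (vy C U o) ∂C.μ =
      C.sg * ∫ t in (0 : ℝ)..(2 * Real.pi), ∑ i, gv G i (vc U (γ t)) * deriv (fun s => U i (γ s)) t :=
  stokes_form C hγ hU isOpen_OO (fun x => hm x) (contDiffOn_gv hG) fun i _ hu =>
    (((contDiffOn_gv hG i).contDiffAt (isOpen_OO.mem_nhds hu)).differentiableAt one_ne_zero).hasFDerivAt

end Surface

end Pool.Agent.FPX.CST
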