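import Mathlib
import Pool.Agent.FPX.UMB
import Pool.Agent.FPX.UMF
import Pool.Agent.FPX.DEG
import Pool.Agent.EWD.RUL

/-
UXA (helper76): functionals of the functions of the circle that are continuous and differentiable
along curves, and their pull-back to the surface by `x ↦ pf γ ρ n x`: Lipschitz bound, symmetry on the
boundary, and the derivatives almost everywhere, all along one pair of variations `h`, `k` with
`h² + k² ≤ 1`.
-/

open MeasureTheory Set Filter Topology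
open scoped ENNReal NNReal

noncomputable section

namespace Pool.Agent.FPX.UXA

open Pool.Agent.FPX Pool.Agent.FPX.UMP Pool.Agent.FPX.UMQ Pool.Agent.EWD

open Real

/-- a functional that is continuous in the supremum norm and differentiable along curves -/
structure Fn (Φ : (ℝ → ℝ) → ℝ) (dΦ : (ℝ → ℝ) → (ℝ → ℝ) → ℝ) : Prop where
  tds : ∀ (l : Filter ℝ) (φ : ℝ → ℝ → ℝ) (f : ℝ → ℝ), (∀ᶠ i in l, Ef (φ i)) → Ef f →
    (∀ ε : ℝ, 0 < ε → ∀ᶠ i in l, ∀ t, |φ i t - f t| ≤ ε) → Tendsto (fun i => Φ (φ i)) l (𝓝 (Φ f))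
  der : ∀ (φ : ℝ → ℝ → ℝ) (h : ℝ → ℝ) (x b : ℝ), Crv φ h x → (∀ t, |h t| ≤ b) →
    (∀ᶠ s in 𝓝 x, Ef (φ s)) → HasDerivAt (fun s => Φ (φ s)) (dΦ (φ x) h) x

/-- the derivative is bounded by `L` at the functions bounded by `m` -/
def Bdd (dΦ : (ℝ → ℝ) → (ℝ → ℝ) → ℝ) (m L : ℝ) : Prop :=
  ∀ (f h : ℝ → ℝ) (D : ℝ), Ef f → (∀ t, |f t| ≤ m) → Measurable h → 0 ≤ D → (∀ t, |h t| ≤ D) →
    |dΦ f h| ≤ L * D

/-- convex combinations -/
theorem Ef_seg {f g : ℝ → ℝ} (hf : Ef f) (hg : Ef g) {x : ℝ} (hx : x ∈ Icc (0 : ℝ) 1) :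
    Ef fun t => g t + x * (f t - g t) := by
  obtain ⟨m1, hm1⟩ : ∃ m : ℝ, m = x := ⟨x, rfl⟩
  have key : ∀ a b c : ℝ, |a| < c → |b| < c → |b + x * (a - b)| < c := by
    intro a b c ha hb
    have e : b + x * (a - b) = (1 - x) * b + x * a := by ring
    rw [e]
    refine lt_of_le_of_lt (abs_add_le _ _) ?_
    rw [abs_mul, abs_mul, abs_of_nonneg hx.1, abs_of_nonneg (sub_nonneg.2 hx.2)]
    rcases hx.1.eq_or_lt with h0 | h0
    · rw [← h0]
      linarith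
    · nlinarith [mul_lt_mul_of_pos_left ha h0, mul_nonneg (sub_nonneg.2 hx.2) (sub_nonneg.2 hb.le)]
  refine ⟨LipschitzWith.of_dist_le_mul fun s t => ?_, fun t => ?_, fun t => key _ _ _ (hf.lt t) (hg.lt t)⟩
  · rw [Real.dist_eq, Real.dist_eq, NNReal.coe_one, one_mul]
    have e : g s + x * (f s - g s) - (g t + x * (f t - g t)) =
        (1 - x) * (g s - g t) + x * (f s - f t) := by ring
    rw [e]
    refine (abs_add_le _ _).trans ?_
    rw [abs_mul, abs_mul, abs_of_nonneg hx.1, abs_of_nonneg (sub_nonneg.2 hx.2)]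
    nlinarith [mul_nonneg hx.1 (sub_nonneg.2 (hf.abs_sub s t)),
      mul_nonneg (sub_nonneg.2 hx.2) (sub_nonneg.2 (hg.abs_sub s t))]
  · rw [hf.odd, hg.odd]
    ring

theorem seg_le {f g : ℝ → ℝ} {m : ℝ} (hfm : ∀ t, |f t| ≤ m) (hgm : ∀ t, |g t| ≤ m) {x : ℝ}
    (hx : x ∈ Icc (0 : ℝ) 1) (t : ℝ) : |g t + x * (f t - g t)| ≤ m := by
  have e : g t + x * (f t - g t) = (1 - x) * g t + x * f t := by ring
  rw [e]
  refine (abs_add_le _ _).trans ?_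
  rw [abs_mul, abs_mul, abs_of_nonneg hx.1, abs_of_nonneg (sub_nonneg.2 hx.2)]
  nlinarith [mul_nonneg hx.1 (sub_nonneg.2 (hfm t)), mul_nonneg (sub_nonneg.2 hx.2) (sub_nonneg.2 (hgm t))]

/-- the segment is a curve of functions -/
theorem seg_crv {f g : ℝ → ℝ} (hf : Ef f) (hg : Ef g) {m : ℝ} (hm0 : 0 ≤ m) (hm : m < π / 2)
    (hfm : ∀ t, |f t| ≤ m) (hgm : ∀ t, |g t| ≤ m) {D : ℝ} (hD : 0 ≤ D) (h : ∀ t, |f t - g t| ≤ D)
    {x : ℝ} (hx : x ∈ Icc (0 : ℝ) 1) :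
    Crv (fun s t => g t + s * (f t - g t)) (fun t => f t - g t) x := by
  refine ⟨fun s => ?_, ?_, fun t => ?_, ?_, ?_, Ef_seg hf hg hx⟩
  · exact (hg.cont.add (continuous_const.mul (hf.cont.sub hg.cont))).measurable
  · exact (hf.cont.sub hg.cont).measurable
  · have := ((hasDerivAt_id x).mul_const (f t - g t)).const_add (g t)
    simpa using this
  · refine ⟨D, hD, Eventually.of_forall fun s t _ => ?_⟩
    have e : g t + s * (f t - g t) - (g t + x * (f t - g t)) = (f t - g t) * (s - x) := by ring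
    rw [e, abs_mul]
    exact mul_le_mul_of_nonneg_right (h t) (abs_nonneg _)
  · refine ⟨(m + π / 2) / 2, by positivity, by linarith, ?_⟩
    have h1 : ∀ᶠ s in 𝓝 x, |s - x| * D < (π / 2 - m) / 2 := by
      have hc : Continuous fun s : ℝ => |s - x| * D := by fun_prop
      refine hc.continuousAt.eventually_lt_const ?_
      simp only [sub_self, abs_zero, zero_mul]
      linarith
    filter_upwards [h1] with s hs t
    have e : g t + s * (f t - g t) = (g t + x * (f t - g t)) + (f t - g t) * (s - x) := by ring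
    rw [e]
    refine (abs_add_le _ _).trans ?_
    have a1 := seg_le hfm hgm hx t
    have a2 : |(f t - g t) * (s - x)| ≤ |s - x| * D := by
      rw [abs_mul, mul_comm]
      exact mul_le_mul_of_nonneg_left (h t) (abs_nonneg _)
    linarith

namespace Fn

variable {Φ : (ℝ → ℝ) → ℝ} {dΦ : (ℝ → ℝ) → (ℝ → ℝ) → ℝ}

/-- **Lipschitz bound in the space of functions** -/
theorem lip (H : Fn Φ dΦ) {m L : ℝ} (hB : Bdd dΦ m L) (hm0 : 0 ≤ m) (hm : m < π / 2)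
    {f g : ℝ → ℝ} (hf : Ef f) (hg : Ef g) (hfm : ∀ t, |f t| ≤ m) (hgm : ∀ t, |g t| ≤ m)
    {D : ℝ} (hD : 0 ≤ D) (h : ∀ t, |f t - g t| ≤ D) : |Φ f - Φ g| ≤ L * D := by
  set φ : ℝ → ℝ → ℝ := fun s t => g t + s * (f t - g t) with hφ
  have hE : ∀ s ∈ Icc (0 : ℝ) 1, Ef (φ s) := fun s hs => Ef_seg hf hg hs
  have hcont : ContinuousOn (fun s => Φ (φ s)) (Icc (0 : ℝ) 1) := by
    intro x hx
    refine H.tds (𝓝[Icc (0 : ℝ) 1] x) φ (φ x) ?_ (hE x hx) ?_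
    · filter_upwards [self_mem_nhdsWithin] with s hs
      exact hE s hs
    · intro ε hε
      have h1 : ∀ᶠ s in 𝓝 x, |s - x| * D < ε := by
        have hc : Continuous fun s : ℝ => |s - x| * D := by fun_prop
        refine hc.continuousAt.eventually_lt_const ?_
        simpa using hε
      filter_upwards [mem_nhdsWithin_of_mem_nhds h1] with s hs t
      have e : φ s t - φ x t = (f t - g t) * (s - x) := by
        simp only [hφ]
        ring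
      rw [e, abs_mul]
      have hs' : |s - x| * D < ε := hs
      have := mul_le_mul_of_nonneg_right (h t) (abs_nonneg (s - x))
      linarith
  obtain ⟨c, hc, hc'⟩ := exists_hasDerivAt_eq_slope (fun s => Φ (φ s))
    (fun s => dΦ (φ s) fun t => f t - g t) zero_lt_one hcont (fun x hx => by
      have hx' : x ∈ Icc (0 : ℝ) 1 := Ioo_subset_Icc_self hx
      refine H.der φ _ x D (seg_crv hf hg hm0 hm hfm hgm hD h hx') h ?_
      filter_upwards [Ioo_mem_nhds hx.1 hx.2] with s hs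
      exact hE s (Ioo_subset_Icc_self hs))
  have e0 : φ 0 = g := by
    funext t
    simp [hφ]
  have e1 : φ 1 = f := by
    funext t
    simp [hφ]
  simp only [e0, e1, sub_zero, div_one] at hc'
  rw [← hc']
  have hcI : c ∈ Icc (0 : ℝ) 1 := Ioo_subset_Icc_self hc
  exact hB _ _ _ (hE c hcI) (seg_le hfm hgm hcI) (hf.cont.sub hg.cont).measurable hD h

end Fn

variable {M : Type} [MetricSpace M] {γ : ℝ → M}

/-- the curve of functions along a curve of points -/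
theorem crv {ρ : ℝ} {n : ℕ} (hγ : Bd γ) (hρ : 0 ≤ ρ) (hρ1 : ρ < 1) (hn : n ≠ 0) {p : ℝ → M} {g : ℝ → ℝ}
    (hd : ∀ k : ℤ, HasDerivAt (fun s => fx γ (p s) (k * (π / n))) (g (k * (π / n))) 0) :
    Crv (fun s => pf γ ρ n (p s)) (pli (π / n) (fun t => ρ * g t)) 0 := by
  have hn' : (0 : ℝ) < n := Nat.cast_pos.2 (Nat.pos_of_ne_zero hn)
  have hdn : 0 < π / (n : ℝ) := div_pos pi_pos hn'
  have hd' : ∀ k : ℤ, HasDerivAt (fun s => (fun s t => ρ * fx γ (p s) t) s (k * (π / n)))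
      ((fun t => ρ * g t) (k * (π / n))) 0 := fun k => (hd k).const_mul ρ
  refine ⟨fun s => (pf_ef hγ hρ hρ1 hn (p s)).cont.measurable, pli_meas _ _, fun t => ?_, ?_, ?_,
    pf_ef hγ hρ hρ1 hn _⟩
  · exact pli_deriv (f := fun s t => ρ * fx γ (p s) t) (h := fun t => ρ * g t) hd' t
  · exact pli_local hdn (f := fun s t => ρ * fx γ (p s) t) (h := fun t => ρ * g t) hd' _ _
  · exact ⟨ρ * (π / 2), mul_nonneg hρ (by positivity), by nlinarith [pi_pos],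
      Eventually.of_forall fun s => pf_bd hγ hρ (p s)⟩

/-- the pull-back of a functional to the surface -/
def pull (γ : ℝ → M) (ρ : ℝ) (n : ℕ) (Φ : (ℝ → ℝ) → ℝ) (x : M) : ℝ := Φ (pf γ ρ n x)

theorem pull_lip {ρ : ℝ} {n : ℕ} (hγ : Bd γ) (hρ : 0 ≤ ρ) (hρ1 : ρ < 1) (hn : n ≠ 0)
    {Φ : (ℝ → ℝ) → ℝ} {dΦ : (ℝ → ℝ) → (ℝ → ℝ) → ℝ} (H : Fn Φ dΦ) {L : ℝ} (hL : 0 ≤ L)
    (hB : Bdd dΦ (ρ * (π / 2)) L) : LipschitzWith (toNNReal L) (pull γ ρ n Φ) := by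
  refine LipschitzWith.of_dist_le_mul fun x y => ?_
  rw [Real.dist_eq, Real.coe_toNNReal _ hL]
  exact H.lip hB (mul_nonneg hρ (by positivity)) (by nlinarith [pi_pos]) (pf_ef hγ hρ hρ1 hn x)
    (pf_ef hγ hρ hρ1 hn y) (pf_bd hγ hρ x) (pf_bd hγ hρ y) dist_nonneg (pf_sub hρ hρ1.le x y)

theorem pull_odd {ρ : ℝ} {n : ℕ} (hγ : Bd γ) (hρ : 0 ≤ ρ) (hρ1 : ρ < 1) (hn : n ≠ 0)
    {Φ : (ℝ → ℝ) → ℝ} (h : ∀ f, Ef f → Φ (fun t => -f t) = -Φ f) : OddB γ (pull γ ρ n Φ) := by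
  intro s
  unfold pull
  rw [pf_anti hγ]
  exact h _ (pf_ef hγ hρ hρ1 hn _)

theorem pull_even {ρ : ℝ} {n : ℕ} (hγ : Bd γ) (hρ : 0 ≤ ρ) (hρ1 : ρ < 1) (hn : n ≠ 0)
    {Φ : (ℝ → ℝ) → ℝ} (h : ∀ f, Ef f → Φ (fun t => -f t) = Φ f) (s : ℝ) :
    pull γ ρ n Φ (γ (s + π)) = pull γ ρ n Φ (γ s) := by
  unfold pull
  rw [pf_anti hγ]
  exact h _ (pf_ef hγ hρ hρ1 hn _)

/-- a pair of variations -/
structure Var (h k : ℝ → ℝ) : Prop where
  mesh : Measurable h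
  mesk : Measurable k
  sq : ∀ t, h t ^ 2 + k t ^ 2 ≤ 1

theorem Var.bh {h k : ℝ → ℝ} (V : Var h k) (t : ℝ) : |h t| ≤ 1 :=
  abs_le_one_iff_mul_self_le_one.2 (by nlinarith [V.sq t, sq_nonneg (k t)])

theorem Var.bk {h k : ℝ → ℝ} (V : Var h k) (t : ℝ) : |k t| ≤ 1 :=
  abs_le_one_iff_mul_self_le_one.2 (by nlinarith [V.sq t, sq_nonneg (h t)])

/-- **transfer**: at almost every frame there is one pair of variations such that the derivatives of
the pull-backs of all functionals are their derivatives along the pair -/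
theorem transfer (C : Calc M γ) {ρ : ℝ} {n : ℕ} (hγ : Bd γ) (hρ : 0 ≤ ρ) (hρ1 : ρ < 1) (hn : n ≠ 0) :
    ∀ᵐ o ∂C.μ, ∃ h k : ℝ → ℝ, Var h k ∧ ∀ (Φ : (ℝ → ℝ) → ℝ) (dΦ : (ℝ → ℝ) → (ℝ → ℝ) → ℝ), Fn Φ dΦ →
      (HasDerivAt (fun s => pull γ ρ n Φ (C.px o s)) (dΦ (pf γ ρ n (C.pt o)) h) 0 ∧
        HasDerivAt (fun s => pull γ ρ n Φ (C.py o s)) (dΦ (pf γ ρ n (C.pt o)) k) 0) ∧
      C.gx (pull γ ρ n Φ) o = dΦ (pf γ ρ n (C.pt o)) h ∧
      C.gy (pull γ ρ n Φ) o = dΦ (pf γ ρ n (C.pt o)) k := by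
  have h1 : ∀ᵐ o ∂C.μ, ∀ k : ℤ,
      HasDerivAt (fun s => fx γ (C.px o s) (k * (π / n))) (C.gx (fun x => fx γ x (k * (π / n))) o) 0 ∧
      HasDerivAt (fun s => fx γ (C.py o s) (k * (π / n))) (C.gy (fun x => fx γ x (k * (π / n))) o) 0 :=
    ae_all_iff.2 fun k => C.ae_has ⟨1, fx_lipx γ _⟩
  have h2 : ∀ᵐ o ∂C.μ, ∀ k : ℤ, C.gx (fun x => fx γ x (k * (π / n))) o ^ 2
      + C.gy (fun x => fx γ x (k * (π / n))) o ^ 2 ≤ 1 :=
    ae_all_iff.2 fun k => by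
      have := C.ae_grad_le (fx_lipx γ (k * (π / n)))
      simpa using this
  filter_upwards [h1, h2] with o h1 h2
  have c1 := crv hγ hρ hρ1 hn (p := C.px o) (g := fun t => C.gx (fun x => fx γ x t) o) fun k => (h1 k).1
  have c2 := crv hγ hρ hρ1 hn (p := C.py o) (g := fun t => C.gy (fun x => fx γ x t) o) fun k => (h1 k).2
  set h := pli (π / n) (fun t => ρ * C.gx (fun x => fx γ x t) o) with hh
  set k := pli (π / n) (fun t => ρ * C.gy (fun x => fx γ x t) o) with hk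
  have hρ2 : ρ ^ 2 ≤ 1 := pow_le_one₀ hρ hρ1.le
  have hq : ∀ t, h t ^ 2 + k t ^ 2 ≤ 1 := by
    intro t
    refine pli_sq _ _ t fun j => ?_
    have h3 := h2 j
    have e : (ρ * C.gx (fun x => fx γ x (j * (π / n))) o) ^ 2
        + (ρ * C.gy (fun x => fx γ x (j * (π / n))) o) ^ 2 =
        ρ ^ 2 * (C.gx (fun x => fx γ x (j * (π / n))) o ^ 2
          + C.gy (fun x => fx γ x (j * (π / n))) o ^ 2) := by ring
    rw [e]
    have h4 : 0 ≤ C.gx (fun x => fx γ x (j * (π / n))) o ^ 2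
        + C.gy (fun x => fx γ x (j * (π / n))) o ^ 2 := by positivity
    nlinarith [sq_nonneg ρ]
  have V : Var h k := ⟨pli_meas _ _, pli_meas _ _, hq⟩
  refine ⟨h, k, V, fun Φ dΦ H => ?_⟩
  have d1 := H.der _ _ 0 1 c1 V.bh (Eventually.of_forall fun s => pf_ef hγ hρ hρ1 hn _)
  have d2 := H.der _ _ 0 1 c2 V.bk (Eventually.of_forall fun s => pf_ef hγ hρ hρ1 hn _)
  rw [C.py_zero] at d2
  exact ⟨⟨d1, d2⟩, d1.deriv, d2.deriv⟩

/-- a universal map given by two functionals with values in the open disc -/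
structure UMap (X Y : (ℝ → ℝ) → ℝ) (dX dY : (ℝ → ℝ) → (ℝ → ℝ) → ℝ) (K L : ℝ) : Prop where
  fX : Fn X dX
  fY : Fn Y dY
  disc : ∀ f, Ef f → X f ^ 2 + Y f ^ 2 < 1
  negX : ∀ f, Ef f → X (fun t => -f t) = -X f
  negY : ∀ f, Ef f → Y (fun t => -f t) = -Y f
  K0 : 0 ≤ K
  L0 : 0 ≤ L
  bdry : ∀ f, Ef f → ∀ s d : ℝ, (∀ t, |t - s| ≤ π / 2 → f t ≤ π / 2 - |t - s|) →
    (∀ t, |t - s| ≤ π / 2 → π / 2 - |t - s| - d ≤ f t) → 1 - K * d ≤ X f * cos s + Y f * sin s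
  bd : ∀ (f h : ℝ → ℝ) (D : ℝ), Ef f → Measurable h → 0 ≤ D → (∀ t, |h t| ≤ D) →
    (1 - X f ^ 2 - Y f ^ 2) * (dX f h ^ 2 + dY f h ^ 2) + (X f * dX f h + Y f * dY f h) ^ 2
      ≤ (1 - X f ^ 2 - Y f ^ 2) * (L * D) ^ 2

namespace UMap

variable {X Y : (ℝ → ℝ) → ℝ} {dX dY : (ℝ → ℝ) → (ℝ → ℝ) → ℝ} {K L : ℝ}

theorem bd2 (U : UMap X Y dX dY K L) {f h : ℝ → ℝ} {D : ℝ} (hf : Ef f) (hm : Measurable h)
    (hD : 0 ≤ D) (hh : ∀ t, |h t| ≤ D) : dX f h ^ 2 + dY f h ^ 2 ≤ (L * D) ^ 2 := by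
  have h1 := U.bd f h D hf hm hD hh
  have h2 : 0 < 1 - X f ^ 2 - Y f ^ 2 := by
    have := U.disc f hf
    linarith
  have h3 := sq_nonneg (X f * dX f h + Y f * dY f h)
  exact le_of_mul_le_mul_left (by linarith) h2

theorem bX (U : UMap X Y dX dY K L) (m : ℝ) : Bdd dX m L := by
  intro f h D hf _ hm hD hh
  have h1 := U.bd2 hf hm hD hh
  exact abs_le_of_sq_le_sq (by nlinarith [sq_nonneg (dY f h)]) (mul_nonneg U.L0 hD)

theorem bY (U : UMap X Y dX dY K L) (m : ℝ) : Bdd dY m L := by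
  intro f h D hf _ hm hD hh
  have h1 := U.bd2 hf hm hD hh
  exact abs_le_of_sq_le_sq (by nlinarith [sq_nonneg (dX f h)]) (mul_nonneg U.L0 hD)

end UMap

end Pool.Agent.FPX.UXA
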