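import Mathlib
import Pool.Agent.FPX.OMQ
import Pool.Agent.FPX.UXA

/-
ARE (helper18): a closed form `Ω = d Im ((W(c) conj ζ + G) v)` on the space of functions of the circle, built
from a universal map and further functionals. A pointwise inequality `Ω + μ ν ≤ T` for all functions and
all pairs of variations gives `2π W(0) + μ ∫ ν ≤ T vol` on every surface; no correction of the map at the
boundary is needed.
-/

open MeasureTheory Set Filter Topology Complex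
open scoped ENNReal NNReal ContDiff ComplexConjugate

noncomputable section

namespace Pool.Agent.FPX.CST

open Pool.Agent.FPX.UMP Pool.Agent.FPX.UMQ Pool.Agent.FPX.UXA Pool.Agent.EWD

variable {n : ℕ}

/-- a universal map (the first two functionals) together with further functionals -/
structure Sys (Φ : Fin (n + 2) → (ℝ → ℝ) → ℝ) (dΦ : Fin (n + 2) → (ℝ → ℝ) → (ℝ → ℝ) → ℝ) (K L : ℝ) :
    Prop where
  map : UMap (Φ 0) (Φ 1) (dΦ 0) (dΦ 1) K L
  fn : ∀ i, Fn (Φ i) (dΦ i)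
  bd : ∀ i m, 0 ≤ m → m < Real.pi / 2 → ∃ L, 0 ≤ L ∧ Bdd (dΦ i) m L

/-- the coordinates of a state -/
def cu (Φ : Fin (n + 2) → (ℝ → ℝ) → ℝ) (f : ℝ → ℝ) : Fin (n + 2) → ℝ := fun i => Φ i f

/-- the velocities of the coordinates -/
def du (dΦ : Fin (n + 2) → (ℝ → ℝ) → (ℝ → ℝ) → ℝ) (f h : ℝ → ℝ) : Fin (n + 2) → ℝ := fun i => dΦ i f h

/-- the energy density minus the Jacobian -/
def nu (u p q : Fin (n + 2) → ℝ) : ℝ := (normSq (vv u p) + normSq (vv u q)) / 2 - ja u p q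

/-- the function of the form `w(c) J + dλ` -/
def gt (W : ℝ → ℝ) (G : (Fin (n + 2) → ℝ) → ℂ) (u : Fin (n + 2) → ℝ) : ℂ :=
  (W (cc u) : ℂ) * conj (zt u) + G u

theorem cc_le {u : Fin (n + 2) → ℝ} : cc u ≤ 1 := by
  unfold cc
  rw [Real.sqrt_le_one]
  unfold rr
  nlinarith [sq_nonneg (u 0), sq_nonneg (u 1)]

theorem contDiffOn_gt {W : ℝ → ℝ} (hW : ContDiffOn ℝ 1 W (Ioi 0)) {G : (Fin (n + 2) → ℝ) → ℂ}
    (hG : ContDiffOn ℝ 1 G (OO n)) : ContDiffOn ℝ 1 (gt W G) (OO n) := by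
  have h1 : ContDiffOn ℝ 1 (fun u : Fin (n + 2) → ℝ => W (cc u)) (OO n) :=
    hW.comp contDiffOn_cc fun u hu => cc_pos hu
  exact ((Complex.ofRealCLM.contDiff.comp_contDiffOn h1).mul
    (Complex.conjCLE.contDiff.comp_contDiffOn contDiffOn_zt)).add hG

theorem dl_anti (a' : Fin n → (Fin n → ℝ) → (Fin n → ℝ) →L[ℝ] ℝ) (u p q : Fin n → ℝ) :
    dl a' u q p = -dl a' u p q := by
  unfold dl
  rw [← Finset.sum_neg_distrib]
  exact Finset.sum_congr rfl fun i _ => by ring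

theorem ja_anti (u p q : Fin (n + 2) → ℝ) : ja u q p = -ja u p q := by
  unfold ja
  simp
  ring

/-- **the exterior derivative of the whole form** -/
theorem dl_gt {W : ℝ → ℝ} (hW : ContDiffOn ℝ 1 W (Ioi 0)) {G : (Fin (n + 2) → ℝ) → ℂ}
    (hG : ContDiffOn ℝ 1 G (OO n)) {u : Fin (n + 2) → ℝ} (hu : u ∈ OO n) {W' : ℝ}
    (hW' : HasDerivAt W W' (cc u)) (p q : Fin (n + 2) → ℝ) :
    dl (fun i u => fderiv ℝ (gv (gt W G) i) u) u p q =
      (2 * cc u * W (cc u) - rr u * W') * ja u p q + dl (fun i u => fderiv ℝ (gv G i) u) u p q := by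
  have hc := cc_pos hu
  have hc2 := cc_sq hu
  rw [dl_gv (contDiffOn_gt hW hG) hu, dl_gv hG hu]
  have hcc : HasFDerivAt (cc : (Fin (n + 2) → ℝ) → ℝ) (fderiv ℝ cc u) u :=
    ((contDiffOn_cc.contDiffAt (isOpen_OO.mem_nhds hu)).differentiableAt one_ne_zero).hasFDerivAt
  have hdc : ∀ p, fderiv ℝ (cc : (Fin (n + 2) → ℝ) → ℝ) u p = -(conj (zt u) * vv u p).re := by
    intro p
    have h1 : HasDerivAt (fun r : ℝ => √(1 - r)) ((-1) / (2 * √(1 - rr u))) (rr u) :=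
      ((hasDerivAt_id (rr u)).const_sub 1).sqrt (sub_pos.2 hu).ne'
    have h2 := fderiv_radial (u := u) h1
    have e : (cc : (Fin (n + 2) → ℝ) → ℝ) = fun u => √(1 - rr u) := rfl
    rw [e, h2.fderiv]
    have e2 : (conj (zt u) * vv u p).re = ss u p / cc u := by
      rw [ss_eq hu]
      field_simp
    rw [e2]
    simp only [_root_.add_apply, _root_.smul_apply, pj_apply, smul_eq_mul]
    unfold ss
    have e3 : √(1 - rr u) = cc u := rfl
    rw [e3]
    field_simp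
  have hGd : HasFDerivAt G (fderiv ℝ G u) u :=
    ((hG.contDiffAt (isOpen_OO.mem_nhds hu)).differentiableAt one_ne_zero).hasFDerivAt
  have hd : ∀ p, fderiv ℝ (gt W G) u p = ((-(W' * (conj (zt u) * vv u p).re) : ℝ) : ℂ) * conj (zt u)
      + (W (cc u) : ℂ) * conj (zt p) + fderiv ℝ G u p := by
    intro p
    have h1 : HasFDerivAt (fun u : Fin (n + 2) → ℝ => W (cc u)) (W' • fderiv ℝ cc u) u :=
      hW'.comp_hasFDerivAt u hcc
    have h2 := Complex.ofRealCLM.hasFDerivAt.comp u h1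
    have h3 := Complex.conjCLE.toContinuousLinearMap.hasFDerivAt.comp u (hasF_zt u)
    have h4 := (h2.mul h3).add hGd
    have h5 : fderiv ℝ (gt W G) u p = _ := congrArg (fun L : (Fin (n + 2) → ℝ) →L[ℝ] ℂ => L p) h4.fderiv
    rw [h5]
    have e1 : zt p = (p 0 : ℂ) + I * (p 1 : ℂ) := by
      apply Complex.ext <;> simp [zt]
    simp only [_root_.add_apply, _root_.smul_apply, ContinuousLinearMap.comp_apply, Function.comp,
      Complex.ofRealCLM_apply, pj_apply, smul_eq_mul, ContinuousLinearEquiv.coe_coe, Complex.conjCLE_apply,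
      e1, map_add, map_mul, Complex.conj_I, Complex.conj_ofReal, hdc]
    push_cast
    ring
  rw [hd p, hd q]
  have hz : ∀ p, conj (zt p) = conj (vv u p) - conj (zt u) * (((conj (zt u) * vv u p).re / (1 + cc u) : ℝ) : ℂ) :=
    fun p => by
      rw [zt_eq hu p]
      simp
  rw [hz p, hz q]
  have hr : (zt u).re ^ 2 + (zt u).im ^ 2 = 1 - cc u ^ 2 := by
    rw [hc2]
    simp [zt, rr]
  have hr2 : rr u = 1 - cc u ^ 2 := by rw [hc2]; ring
  unfold gt ja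
  rw [hr2]
  have h1c : (1 + cc u) ≠ 0 := by positivity
  generalize vv u p = a at *
  generalize vv u q = b at *
  generalize zt u = z at *
  generalize cc u = c at *
  generalize fderiv ℝ G u p = g1
  generalize fderiv ℝ G u q = g2
  generalize G u = g0
  generalize W c = w
  obtain ⟨i, hi⟩ : ∃ i : ℝ, i = 1 / (1 + c) := ⟨_, rfl⟩
  have hi1 : i * (1 + c) = 1 := by rw [hi]; field_simp
  have hdiv : ∀ x : ℝ, x / (1 + c) = x * i := fun x => by rw [hi]; ring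
  simp only [hdiv]
  clear hdiv hi h1c hz hd hdc hcc hGd hW' hW hG hu hc hc2
  obtain ⟨x, y⟩ := z
  obtain ⟨a1, a2⟩ := a
  obtain ⟨b1, b2⟩ := b
  obtain ⟨l1, l2⟩ := g1
  obtain ⟨m1, m2⟩ := g2
  obtain ⟨k1, k2⟩ := g0
  simp only at hr
  simp only [Complex.mul_re, Complex.mul_im, Complex.add_re, Complex.add_im, Complex.sub_re, Complex.sub_im,
    Complex.conj_re, Complex.conj_im, Complex.ofReal_re, Complex.ofReal_im]
  linear_combination (-(a1 * b2 - a2 * b1) * (W' + 2 * w * i)) * hr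
    - (2 * w * (a1 * b2 - a2 * b1) * (1 - c)) * hi1

/-- the coefficients of `Im (G v)` -/
theorem sum_gv (G : (Fin (n + 2) → ℝ) → ℂ) (u p : Fin (n + 2) → ℝ) :
    ∑ i, gv G i u * p i = (G u * vv u p).im := by
  rw [← sum_vi, Finset.mul_sum, Complex.im_sum]
  refine Finset.sum_congr rfl fun i _ => ?_
  rw [← mul_assoc, Complex.im_mul_ofReal]
  rfl

theorem nsq_vv {u : Fin (n + 2) → ℝ} (hu : u ∈ OO n) (p : Fin (n + 2) → ℝ) :
    normSq (vv u p) = p 0 ^ 2 + p 1 ^ 2 + (ss u p / cc u) ^ 2 := by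
  have hc := cc_pos hu
  have hc2 := cc_sq hu
  have hh1 : hh u * (cc u * (1 + cc u)) = 1 := by
    unfold hh
    field_simp
  have e : normSq (vv u p) = p 0 ^ 2 + p 1 ^ 2 + ss u p ^ 2 * (2 * hh u + rr u * hh u ^ 2) := by
    simp only [vv, zt, ss, rr, normSq_apply]
    simp
    ring
  have e3 : rr u = 1 - cc u ^ 2 := by linarith
  have e4 : (2 * hh u + rr u * hh u ^ 2) * cc u ^ 2 = 1 := by
    rw [e3]
    have e5 : hh u * cc u * (1 + cc u) = 1 := by linear_combination hh1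
    linear_combination (1 + hh u * cc u * (1 - cc u)) * e5
  rw [e, div_pow]
  have e6 : 2 * hh u + rr u * hh u ^ 2 = 1 / cc u ^ 2 := by
    rw [eq_div_iff (by positivity)]
    exact e4
  rw [e6]
  ring

section State

variable {Φ : Fin (n + 2) → (ℝ → ℝ) → ℝ} {dΦ : Fin (n + 2) → (ℝ → ℝ) → (ℝ → ℝ) → ℝ} {K L : ℝ}

theorem Sys.mem (S : Sys Φ dΦ K L) {f : ℝ → ℝ} (hf : Ef f) : cu Φ f ∈ OO n := S.map.disc f hf

theorem Sys.nsq_le (S : Sys Φ dΦ K L) {f h : ℝ → ℝ} (hf : Ef f) (hm : Measurable h)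
    (hh : ∀ t, |h t| ≤ 1) : normSq (vv (cu Φ f) (du dΦ f h)) ≤ L ^ 2 := by
  have hc := cc_pos (S.mem hf)
  have hc2 := cc_sq (S.mem hf)
  have h1 := S.map.bd f h 1 hf hm zero_le_one hh
  rw [nsq_vv (S.mem hf), div_pow, ← sub_nonneg]
  have e : L ^ 2 - (du dΦ f h 0 ^ 2 + du dΦ f h 1 ^ 2 + ss (cu Φ f) (du dΦ f h) ^ 2 / cc (cu Φ f) ^ 2) =
      (cc (cu Φ f) ^ 2 * L ^ 2 - (cc (cu Φ f) ^ 2 * (du dΦ f h 0 ^ 2 + du dΦ f h 1 ^ 2)
        + ss (cu Φ f) (du dΦ f h) ^ 2)) / cc (cu Φ f) ^ 2 := by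
    field_simp
  rw [e]
  refine div_nonneg ?_ (sq_nonneg _)
  have e2 : (1 - Φ 0 f ^ 2 - Φ 1 f ^ 2) = cc (cu Φ f) ^ 2 := by
    rw [hc2]
    unfold rr cu
    ring
  rw [e2, mul_one] at h1
  have e3 : Φ 0 f * dΦ 0 f h + Φ 1 f * dΦ 1 f h = ss (cu Φ f) (du dΦ f h) := rfl
  rw [e3] at h1
  have e4 : dΦ 0 f h ^ 2 + dΦ 1 f h ^ 2 = du dΦ f h 0 ^ 2 + du dΦ f h 1 ^ 2 := rfl
  rw [e4] at h1
  linarith

theorem Sys.norm_le (S : Sys Φ dΦ K L) {f h : ℝ → ℝ} (hf : Ef f) (hm : Measurable h)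
    (hh : ∀ t, |h t| ≤ 1) : ‖vv (cu Φ f) (du dΦ f h)‖ ≤ L := by
  have h1 := S.nsq_le hf hm hh
  rw [Complex.normSq_eq_norm_sq] at h1
  exact abs_le_of_sq_le_sq' h1 S.map.L0 |>.2

theorem abs_ja_le (u p q : Fin (n + 2) → ℝ) : |ja u p q| ≤ ‖vv u p‖ * ‖vv u q‖ := by
  unfold ja
  refine (Complex.abs_im_le_norm _).trans (le_of_eq ?_)
  rw [norm_mul, Complex.norm_conj]

theorem nu_nonneg (u p q : Fin (n + 2) → ℝ) : 0 ≤ nu u p q := by
  have h1 := (abs_le.1 (abs_ja_le u p q)).2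
  unfold nu
  rw [Complex.normSq_eq_norm_sq, Complex.normSq_eq_norm_sq]
  nlinarith [sq_nonneg (‖vv u p‖ - ‖vv u q‖)]

end State

section Surface

variable {M : Type} [MetricSpace M] {γ : ℝ → M}
variable {Φ : Fin (n + 2) → (ℝ → ℝ) → ℝ} {dΦ : Fin (n + 2) → (ℝ → ℝ) → (ℝ → ℝ) → ℝ} {K L : ℝ}

/-- **transfer along the boundary** -/
theorem transfer_bd {ρ : ℝ} {m : ℕ} (hγ : Bd γ) (hρ : 0 ≤ ρ) (hρ1 : ρ < 1) (hm : m ≠ 0) :
    ∀ᵐ t : ℝ, ∃ h : ℝ → ℝ, Measurable h ∧ (∀ x, |h x| ≤ 1) ∧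
      ∀ (Ψ : (ℝ → ℝ) → ℝ) (dΨ : (ℝ → ℝ) → (ℝ → ℝ) → ℝ), Fn Ψ dΨ →
        HasDerivAt (fun s => pull γ ρ m Ψ (γ s)) (dΨ (pf γ ρ m (γ t)) h) t := by
  have h1 : ∀ᵐ t : ℝ, ∀ k : ℤ, DifferentiableAt ℝ (fun s => fx γ (γ s) (k * (Real.pi / m))) t := by
    refine ae_all_iff.2 fun k => ?_
    have h2 : LipschitzWith (1 * 1) (fun s => fx γ (γ s) (k * (Real.pi / m))) := (fx_lipx γ _).comp hγ.lip
    exact h2.ae_differentiableAt_real
  filter_upwards [h1] with t ht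
  have hd : ∀ k : ℤ, HasDerivAt (fun s => fx γ ((fun s => γ (t + s)) s) (k * (Real.pi / m)))
      (deriv (fun s => fx γ (γ s) (k * (Real.pi / m))) t) 0 := by
    intro k
    have h3 := (ht k).hasDerivAt
    have h4 : HasDerivAt (fun s : ℝ => t + s) 1 0 := by simpa using (hasDerivAt_id (0 : ℝ)).const_add t
    have h5 := HasDerivAt.comp (h₂ := fun s => fx γ (γ s) (k * (Real.pi / m))) (0 : ℝ)
      (by rw [add_zero]; exact h3) h4
    rw [mul_one] at h5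
    exact h5
  have c1 := crv hγ hρ hρ1 hm (p := fun s => γ (t + s))
    (g := fun x => deriv (fun s => fx γ (γ s) x) t) hd
  have hb : ∀ x, |pli (Real.pi / m) (fun x => ρ * deriv (fun s => fx γ (γ s) x) t) x| ≤ 1 := by
    intro x
    have h6 := pli_sq (d := Real.pi / m) (fun x => ρ * deriv (fun s => fx γ (γ s) x) t) (fun _ => 0) x
      fun k => by
        have h7 : |deriv (fun s => fx γ (γ s) (k * (Real.pi / m))) t| ≤ 1 := by
          have h2 : LipschitzWith (1 * 1) (fun s => fx γ (γ s) (k * (Real.pi / m))) :=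
            (fx_lipx γ _).comp hγ.lip
          have := norm_deriv_le_of_lipschitz h2 (x₀ := t)
          simpa using this
        have h8 := sq_abs (deriv (fun s => fx γ (γ s) (k * (Real.pi / m))) t)
        have h9 : (ρ * deriv (fun s => fx γ (γ s) (k * (Real.pi / m))) t) ^ 2 ≤ 1 := by
          rw [mul_pow, ← h8]
          have a1 : ρ ^ 2 ≤ 1 := pow_le_one₀ hρ hρ1.le
          have a2 : |deriv (fun s => fx γ (γ s) (k * (Real.pi / m))) t| ^ 2 ≤ 1 :=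
            pow_le_one₀ (abs_nonneg _) h7
          exact mul_le_one₀ a1 (sq_nonneg _) a2
        simpa using h9
    refine abs_le_one_iff_mul_self_le_one.2 ?_
    nlinarith [sq_nonneg (pli (Real.pi / m) (fun _ => 0) x)]
  refine ⟨_, pli_meas (Real.pi / m) (fun x => ρ * deriv (fun s => fx γ (γ s) x) t), hb,
    fun Ψ dΨ H => ?_⟩
  have h6 := H.der _ _ 0 1 c1 hb (Eventually.of_forall fun s => pf_ef hγ hρ hρ1 hm _)
  have h4 : HasDerivAt (fun s : ℝ => s - t) 1 t := by simpa using (hasDerivAt_id t).sub_const t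
  have h7 := HasDerivAt.comp (h₂ := fun s => Ψ (pf γ ρ m (γ (t + s)))) t
    (by rw [sub_self]; exact h6) h4
  rw [mul_one] at h7
  simp only [Function.comp_def, add_sub_cancel, add_zero] at h7
  exact h7

/-- the boundary values of the map -/
theorem Sys.bdry (S : Sys Φ dΦ K L) (hγ : Bd γ) {ρ : ℝ} {m : ℕ} (hρ : 0 ≤ ρ) (hρ1 : ρ < 1) (hm : 2 ≤ m)
    {d : ℝ} (hd : (1 - ρ) * (Real.pi / 2) + 2 * (Real.pi / m) ≤ d) (s : ℝ) :
    1 - K * d ≤ pull γ ρ m (Φ 0) (γ s) * Real.cos s + pull γ ρ m (Φ 1) (γ s) * Real.sin s := by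
  refine S.map.bdry _ (pf_ef hγ hρ hρ1 (by omega) _) s d (fun t ht => pf_upper hγ hρ hρ1.le hm ht)
    fun t ht => ?_
  have := pf_lower hγ hρ hρ1.le (n := m) (by omega) ht
  linarith

/-- **the boundary integral** -/
theorem Sys.bdry_int [CompactSpace M] (S : Sys Φ dΦ K L) {W : ℝ → ℝ} (hW : ContDiffOn ℝ 1 W (Ioi 0))
    (hW0 : ContinuousOn W (Ici 0)) {G : (Fin (n + 2) → ℝ) → ℂ} (hG : ContDiffOn ℝ 1 G (OO n))
    (hγ : Bd γ) {ρ : ℝ} {m : ℕ} (hρ : 0 ≤ ρ) (hρ1 : ρ < 1) (hm : 2 ≤ m) {κ ε δ : ℝ}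
    (hκ : κ * (12 * L + 2) < 1)
    (hb : ∀ s, 1 - κ ≤ pull γ ρ m (Φ 0) (γ s) * Real.cos s + pull γ ρ m (Φ 1) (γ s) * Real.sin s)
    (hδ : ∀ r ∈ Icc ((1 - κ) ^ 2) 1, |r * W (√(1 - r)) - W 0| ≤ δ)
    (hε : ∀ s, ‖G (cu Φ (pf γ ρ m (γ s)))‖ ≤ ε) :
    |(∫ t in (0 : ℝ)..(2 * Real.pi), ∑ i, gv (gt W G) i (vc (fun i => pull γ ρ m (Φ i)) (γ t)) *
      deriv (fun s => pull γ ρ m (Φ i) (γ s)) t) - 2 * Real.pi * W 0|
      ≤ 8 * Real.pi * L * δ + 2 * Real.pi * (ε * L) := by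
  have hm0 : m ≠ 0 := by omega
  have hL := S.map.L0
  have p1 : 0 ≤ ρ * (Real.pi / 2) := mul_nonneg hρ (by positivity)
  have p2 : ρ * (Real.pi / 2) < Real.pi / 2 := by nlinarith [Real.pi_pos]
  set U : Fin (n + 2) → M → ℝ := fun i => pull γ ρ m (Φ i) with hU
  have lU : ∀ i, Lip (U i) := fun i => by
    obtain ⟨L', h0, h1⟩ := S.bd i _ p1 p2
    exact ⟨_, pull_lip hγ hρ hρ1 hm0 (S.fn i) h0 h1⟩
  have lX : LipschitzWith (Real.toNNReal L) (U 0) :=
    pull_lip hγ hρ hρ1 hm0 S.map.fX hL (S.map.bX _)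
  have lY : LipschitzWith (Real.toNNReal L) (U 1) :=
    pull_lip hγ hρ hρ1 hm0 S.map.fY hL (S.map.bY _)
  have hE : ∀ x, Ef (pf γ ρ m x) := fun x => pf_ef hγ hρ hρ1 hm0 x
  have hmem : ∀ x, vc U x ∈ OO n := fun x => S.map.disc _ (hE x)
  have oX : OddB γ (U 0) := pull_odd hγ hρ hρ1 hm0 fun f hf => S.map.negX f hf
  have oY : OddB γ (U 1) := pull_odd hγ hρ hρ1 hm0 fun f hf => S.map.negY f hf
  have hu : ∀ t, U 0 (γ t) ^ 2 + U 1 (γ t) ^ 2 ≤ 1 := fun t => (hmem (γ t)).le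
  have hLr : ((Real.toNNReal L : ℝ≥0) : ℝ) = L := Real.coe_toNNReal _ hL
  -- the main part
  have hg : ContinuousOn (fun r => W (√(1 - r))) (Icc ((1 - κ) ^ 2) 1) :=
    hW0.comp (by fun_prop) fun r _ => Real.sqrt_nonneg _
  have a1 := bd_near hγ lX lY oX oY hu hb (by rw [hLr]; exact hκ) hg hδ
  rw [hLr] at a1
  -- integrability
  have hA : ∀ i, Lip (fun x => gv (gt W G) i (vc U x)) := fun i =>
    lip_comp lU isOpen_OO hmem (contDiffOn_gv (contDiffOn_gt hW hG) i)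
  have i1 : IntervalIntegrable (fun t => ∑ i, gv (gt W G) i (vc U (γ t)) * deriv (fun s => U i (γ s)) t)
      volume 0 (2 * Real.pi) := by
    have := IntervalIntegrable.sum Finset.univ fun i _ => bd_int hγ (hA i) (lU i) 0 (2 * Real.pi)
    refine this.congr ?_
    intro t _
    simp
  have hcW : Continuous fun t => W (√(1 - (U 0 (γ t) ^ 2 + U 1 (γ t) ^ 2))) := by
    have c0 : Continuous fun t => U 0 (γ t) := (lU 0).cont.comp hγ.lip.continuous
    have c1 : Continuous fun t => U 1 (γ t) := (lU 1).cont.comp hγ.lip.continuous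
    have c2 : Continuous fun t => √(1 - (U 0 (γ t) ^ 2 + U 1 (γ t) ^ 2)) :=
      (continuous_const.sub ((c0.pow 2).add (c1.pow 2))).sqrt
    exact hW0.comp_continuous c2 fun t => Real.sqrt_nonneg _
  have i2 : IntervalIntegrable (fun t => W (√(1 - (U 0 (γ t) ^ 2 + U 1 (γ t) ^ 2))) *
      (U 0 (γ t) * deriv (fun s => U 1 (γ s)) t - U 1 (γ t) * deriv (fun s => U 0 (γ s)) t))
      volume 0 (2 * Real.pi) :=
    ((bd_int hγ (lU 0) (lU 1) _ _).sub (bd_int hγ (lU 1) (lU 0) _ _)).continuousOn_mul hcW.continuousOn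
  -- the rest
  have hae : ∀ᵐ t : ℝ, ‖(∑ i, gv (gt W G) i (vc U (γ t)) * deriv (fun s => U i (γ s)) t) -
      W (√(1 - (U 0 (γ t) ^ 2 + U 1 (γ t) ^ 2))) *
      (U 0 (γ t) * deriv (fun s => U 1 (γ s)) t - U 1 (γ t) * deriv (fun s => U 0 (γ s)) t)‖ ≤ ε * L := by
    filter_upwards [transfer_bd hγ hρ hρ1 hm0] with t ht
    obtain ⟨h, hmeas, hb1, H⟩ := ht
    have hder : ∀ i, deriv (fun s => U i (γ s)) t = du dΦ (pf γ ρ m (γ t)) h i := fun i =>
      (H _ _ (S.fn i)).deriv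
    have e0 : (∑ i, gv (gt W G) i (vc U (γ t)) * deriv (fun s => U i (γ s)) t) =
        (gt W G (cu Φ (pf γ ρ m (γ t))) * vv (cu Φ (pf γ ρ m (γ t))) (du dΦ (pf γ ρ m (γ t)) h)).im := by
      rw [← sum_gv]
      exact Finset.sum_congr rfl fun i _ => by rw [hder i]; rfl
    have e1 : (gt W G (cu Φ (pf γ ρ m (γ t))) * vv (cu Φ (pf γ ρ m (γ t))) (du dΦ (pf γ ρ m (γ t)) h)).im =
        W (√(1 - (U 0 (γ t) ^ 2 + U 1 (γ t) ^ 2))) *
          (U 0 (γ t) * deriv (fun s => U 1 (γ s)) t - U 1 (γ t) * deriv (fun s => U 0 (γ s)) t)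
        + (G (cu Φ (pf γ ρ m (γ t))) * vv (cu Φ (pf γ ρ m (γ t))) (du dΦ (pf γ ρ m (γ t)) h)).im := by
      have e2 : cc (cu Φ (pf γ ρ m (γ t))) = √(1 - (U 0 (γ t) ^ 2 + U 1 (γ t) ^ 2)) := rfl
      rw [← e2, hder 0, hder 1]
      have e3 : U 0 (γ t) = cu Φ (pf γ ρ m (γ t)) 0 := rfl
      have e4 : U 1 (γ t) = cu Φ (pf γ ρ m (γ t)) 1 := rfl
      rw [e3, e4]
      generalize cu Φ (pf γ ρ m (γ t)) = u
      generalize du dΦ (pf γ ρ m (γ t)) h = p
      unfold gt vv zt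
      simp
      ring
    rw [e0, e1, add_sub_cancel_left, Real.norm_eq_abs]
    refine (Complex.abs_im_le_norm _).trans ?_
    rw [norm_mul]
    exact mul_le_mul (hε t) (S.norm_le (hE _) hmeas hb1) (norm_nonneg _) ((norm_nonneg _).trans (hε t))
  have a2 : |(∫ t in (0 : ℝ)..(2 * Real.pi), ((∑ i, gv (gt W G) i (vc U (γ t)) *
      deriv (fun s => U i (γ s)) t) - W (√(1 - (U 0 (γ t) ^ 2 + U 1 (γ t) ^ 2))) *
      (U 0 (γ t) * deriv (fun s => U 1 (γ s)) t - U 1 (γ t) * deriv (fun s => U 0 (γ s)) t)))|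
      ≤ 2 * Real.pi * (ε * L) := by
    have := intervalIntegral.norm_integral_le_of_norm_le_const_ae (a := 0) (b := 2 * Real.pi)
      (f := fun t => (∑ i, gv (gt W G) i (vc U (γ t)) *
      deriv (fun s => U i (γ s)) t) - W (√(1 - (U 0 (γ t) ^ 2 + U 1 (γ t) ^ 2))) *
      (U 0 (γ t) * deriv (fun s => U 1 (γ s)) t - U 1 (γ t) * deriv (fun s => U 0 (γ s)) t))
      (C := ε * L) (hae.mono fun t ht _ => ht)
    rw [sub_zero, abs_of_pos Real.two_pi_pos, Real.norm_eq_abs] at this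
    linarith
  rw [intervalIntegral.integral_sub i1 i2] at a2
  have a3 := abs_add_le ((∫ t in (0 : ℝ)..(2 * Real.pi), ∑ i, gv (gt W G) i (vc U (γ t)) *
      deriv (fun s => U i (γ s)) t) - ∫ t in (0 : ℝ)..(2 * Real.pi),
      W (√(1 - (U 0 (γ t) ^ 2 + U 1 (γ t) ^ 2))) *
      (U 0 (γ t) * deriv (fun s => U 1 (γ s)) t - U 1 (γ t) * deriv (fun s => U 0 (γ s)) t))
    ((∫ t in (0 : ℝ)..(2 * Real.pi), W (√(1 - (U 0 (γ t) ^ 2 + U 1 (γ t) ^ 2))) *
      (U 0 (γ t) * deriv (fun s => U 1 (γ s)) t - U 1 (γ t) * deriv (fun s => U 0 (γ s)) t))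
      - 2 * Real.pi * W 0)
  rw [sub_add_sub_cancel] at a3
  linarith

/-- the energy density minus the Jacobian of the map, on the surface -/
def nur (C : Calc M γ) (U : Fin (n + 2) → M → ℝ) (o : Om) : ℝ :=
  (normSq (vv (vc U (C.pt o)) (vx C U o)) + normSq (vv (vc U (C.pt o)) (vy C U o))) / 2
    - C.sg * ja (vc U (C.pt o)) (vx C U o) (vy C U o)

theorem nur_eq (C : Calc M γ) (U : Fin (n + 2) → M → ℝ) (o : Om) :
    nur C U o = nu (vc U (C.pt o)) (vx C U o) (vy C U o) ∧ C.sg = 1 ∨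
      nur C U o = nu (vc U (C.pt o)) (vy C U o) (vx C U o) ∧ C.sg = -1 := by
  rcases C.pm with h | h
  · left
    refine ⟨?_, h⟩
    unfold nur nu
    rw [h]
    ring
  · right
    refine ⟨?_, h⟩
    unfold nur nu
    rw [h, ja_anti]
    ring

theorem nur_meas (C : Calc M γ) {U : Fin (n + 2) → M → ℝ} (hU : ∀ i, Lip (U i)) :
    AEMeasurable (nur C U) C.μ := by
  have hv : Measurable fun w : (Fin (n + 2) → ℝ) × (Fin (n + 2) → ℝ) => vv w.1 w.2 := by
    have hz : Measurable fun u : Fin (n + 2) → ℝ => zt u := by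
      have e : (zt : (Fin (n + 2) → ℝ) → ℂ) = fun u => (u 0 : ℂ) + I * (u 1 : ℂ) := funext fun u => by
        apply Complex.ext <;> simp [zt]
      rw [e]
      exact (Complex.measurable_ofReal.comp (measurable_pi_apply 0)).add
        ((Complex.measurable_ofReal.comp (measurable_pi_apply 1)).const_mul I)
    have hr : Measurable fun u : Fin (n + 2) → ℝ => rr u :=
      ((measurable_pi_apply 0).pow_const 2).add ((measurable_pi_apply 1).pow_const 2)
    have hc : Measurable fun u : Fin (n + 2) → ℝ => cc u := (measurable_const.sub hr).sqrt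
    have hH : Measurable fun u : Fin (n + 2) → ℝ => hh u :=
      measurable_const.div (hc.mul (measurable_const.add hc))
    have hs : Measurable fun w : (Fin (n + 2) → ℝ) × (Fin (n + 2) → ℝ) => ss w.1 w.2 :=
      (((measurable_pi_apply 0).comp measurable_fst).mul ((measurable_pi_apply 0).comp measurable_snd)).add
        (((measurable_pi_apply 1).comp measurable_fst).mul ((measurable_pi_apply 1).comp measurable_snd))
    exact (hz.comp measurable_snd).add ((hz.comp measurable_fst).mul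
      (Complex.measurable_ofReal.comp (hs.mul (hH.comp measurable_fst))))
  have m0 : AEMeasurable (fun o => vc U (C.pt o)) C.μ :=
    aemeasurable_pi_lambda _ fun i => Calc.meas_pt C (hU i)
  have m1 : AEMeasurable (fun o => vx C U o) C.μ := aemeasurable_pi_lambda _ fun i => Calc.meas_gx C (hU i)
  have m2 : AEMeasurable (fun o => vy C U o) C.μ := aemeasurable_pi_lambda _ fun i => Calc.meas_gy C (hU i)
  have v1 : AEMeasurable (fun o => vv (vc U (C.pt o)) (vx C U o)) C.μ :=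
    hv.comp_aemeasurable (m0.prodMk m1)
  have v2 : AEMeasurable (fun o => vv (vc U (C.pt o)) (vy C U o)) C.μ :=
    hv.comp_aemeasurable (m0.prodMk m2)
  have n1 : AEMeasurable (fun o => normSq (vv (vc U (C.pt o)) (vx C U o))) C.μ :=
    Complex.continuous_normSq.measurable.comp_aemeasurable v1
  have n2 : AEMeasurable (fun o => normSq (vv (vc U (C.pt o)) (vy C U o))) C.μ :=
    Complex.continuous_normSq.measurable.comp_aemeasurable v2
  have n3 : AEMeasurable (fun o => ja (vc U (C.pt o)) (vx C U o) (vy C U o)) C.μ :=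
    Complex.measurable_im.comp_aemeasurable
      ((Complex.continuous_conj.measurable.comp_aemeasurable v1).mul v2)
  exact ((n1.add n2).div_const 2).sub (n3.const_mul _)

/-- **the inequality on the surface** -/
theorem raw_le (S : Sys Φ dΦ K L) {W : ℝ → ℝ} (hW : ContDiffOn ℝ 1 W (Ioi 0))
    (hW0 : ContinuousOn W (Ici 0)) {G : (Fin (n + 2) → ℝ) → ℂ} (hG : ContDiffOn ℝ 1 G (OO n))
    (hG0 : ∀ ε : ℝ, 0 < ε → ∃ η : ℝ, 0 < η ∧ ∀ f, Ef f → cc (cu Φ f) < η → ‖G (cu Φ f)‖ ≤ ε)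
    {μ T : ℝ} (hst : ∀ f h k, Ef f → Var h k →
      dl (fun i u => fderiv ℝ (gv (gt W G) i) u) (cu Φ f) (du dΦ f h) (du dΦ f k)
        + μ * nu (cu Φ f) (du dΦ f h) (du dΦ f k) ≤ T) {e : ℝ} (he : 0 < e) :
    ∃ d : ℝ, 0 < d ∧ ∀ (M : Type) [MetricSpace M] [CompactSpace M] (γ : ℝ → M) (C : Calc M γ), Bd γ →
      ∀ (ρ : ℝ) (m : ℕ), 0 ≤ ρ → ρ < 1 → 2 ≤ m → (1 - ρ) * (Real.pi / 2) + 2 * (Real.pi / m) ≤ d →
        Integrable (nur C fun i => pull γ ρ m (Φ i)) C.μ ∧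
        2 * Real.pi * W 0 - e + μ * ∫ o, nur C (fun i => pull γ ρ m (Φ i)) o ∂C.μ ≤ T * C.vol := by
  have hL := S.map.L0
  have hK := S.map.K0
  have hpi := Real.pi_pos
  -- the choice of `κ`
  obtain ⟨δ, hδ0, hδ⟩ : ∃ δ : ℝ, 0 < δ ∧ 8 * Real.pi * L * δ ≤ e / 2 := by
    refine ⟨e / (16 * Real.pi * (L + 1)), by positivity, ?_⟩
    rw [mul_div_assoc', div_le_iff₀ (by positivity)]
    nlinarith [mul_pos he hpi, mul_nonneg hL (mul_pos he hpi).le]
  obtain ⟨ε, hε0, hε⟩ : ∃ ε : ℝ, 0 < ε ∧ 2 * Real.pi * (ε * L) ≤ e / 2 := by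
    refine ⟨e / (4 * Real.pi * (L + 1)), by positivity, ?_⟩
    rw [div_mul_eq_mul_div, mul_div_assoc', div_le_iff₀ (by positivity)]
    nlinarith [mul_pos he hpi, mul_nonneg hL (mul_pos he hpi).le]
  obtain ⟨η, hη0, hη⟩ := hG0 ε hε0
  obtain ⟨κ₁, hκ₁, hκ₁1, hκ₁'⟩ : ∃ κ : ℝ, 0 < κ ∧ κ ≤ 1 ∧
      ∀ r ∈ Icc ((1 - κ) ^ 2) 1, |r * W (√(1 - r)) - W 0| ≤ δ := by
    have c1 : ContinuousWithinAt (fun r : ℝ => r * W (√(1 - r))) (Iic 1) 1 := by
      have h2 : ContinuousOn (fun r : ℝ => r * W (√(1 - r))) (Iic 1) :=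
        continuousOn_id.mul (hW0.comp (by fun_prop) fun r _ => Real.sqrt_nonneg _)
      exact h2 1 (mem_Iic.2 le_rfl)
    rw [Metric.continuousWithinAt_iff] at c1
    obtain ⟨a, ha, ha'⟩ := c1 δ hδ0
    refine ⟨min (a / 4) 1, lt_min (by positivity) one_pos, min_le_right _ _, fun r hr => ?_⟩
    have h3 : dist r 1 < a := by
      rw [Real.dist_eq, abs_sub_comm, abs_of_nonneg (by linarith [hr.2])]
      have := hr.1
      have h5 : min (a / 4) 1 ≤ a / 4 := min_le_left _ _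
      nlinarith [sq_nonneg (min (a / 4) 1)]
    have h4 := ha' (mem_Iic.2 hr.2) h3
    rw [Real.dist_eq] at h4
    simp only [sub_self, Real.sqrt_zero, one_mul] at h4
    exact h4.le
  set κ : ℝ := min (min κ₁ (1 / (2 * (12 * L + 2)))) (min (η ^ 2 / 4) (1 / 2)) with hκ
  have hκ0 : 0 < κ := by
    rw [hκ]
    refine lt_min (lt_min hκ₁ (by positivity)) (lt_min (by positivity) (by norm_num))
  have k1 : κ ≤ κ₁ := (min_le_left _ _).trans (min_le_left _ _)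
  have k2 : κ ≤ 1 / (2 * (12 * L + 2)) := (min_le_left _ _).trans (min_le_right _ _)
  have k3 : κ ≤ η ^ 2 / 4 := (min_le_right _ _).trans (min_le_left _ _)
  have k4 : κ ≤ 1 / 2 := (min_le_right _ _).trans (min_le_right _ _)
  clear_value κ
  have k5 : κ * (12 * L + 2) < 1 := by
    have h1 : κ * (12 * L + 2) ≤ 1 / (2 * (12 * L + 2)) * (12 * L + 2) :=
      mul_le_mul_of_nonneg_right k2 (by positivity)
    have h2 : 1 / (2 * (12 * L + 2)) * (12 * L + 2) = 1 / 2 := by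
      have : (12 * L + 2) ≠ 0 := by positivity
      field_simp
    linarith
  refine ⟨κ / (K + 1), by positivity, ?_⟩
  intro M _ _ γ C hγ ρ m hρ hρ1 hm hd
  have hm0 : m ≠ 0 := by omega
  have p1 : 0 ≤ ρ * (Real.pi / 2) := mul_nonneg hρ (by positivity)
  have p2 : ρ * (Real.pi / 2) < Real.pi / 2 := by nlinarith [Real.pi_pos]
  have hb : ∀ s, 1 - κ ≤ pull γ ρ m (Φ 0) (γ s) * Real.cos s + pull γ ρ m (Φ 1) (γ s) * Real.sin s := by
    intro s
    refine le_trans ?_ (S.bdry hγ hρ hρ1 hm hd s)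
    have : K * (κ / (K + 1)) ≤ κ := by
      rw [mul_div_assoc', div_le_iff₀ (by positivity)]
      nlinarith
    linarith
  have hE : ∀ x, Ef (pf γ ρ m x) := fun x => pf_ef hγ hρ hρ1 hm0 x
  set U : Fin (n + 2) → M → ℝ := fun i => pull γ ρ m (Φ i) with hU
  have lU : ∀ i, Lip (U i) := fun i => by
    obtain ⟨L', h0, h1⟩ := S.bd i _ p1 p2
    exact ⟨_, pull_lip hγ hρ hρ1 hm0 (S.fn i) h0 h1⟩
  have hmem : ∀ x, vc U x ∈ OO n := fun x => S.map.disc _ (hE x)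
  have hGb : ∀ s, ‖G (cu Φ (pf γ ρ m (γ s)))‖ ≤ ε := by
    intro s
    refine hη _ (hE _) ?_
    have h1 := hb s
    have h2 := Real.sin_sq_add_cos_sq s
    have h3 : (1 - κ) ^ 2 ≤ rr (cu Φ (pf γ ρ m (γ s))) := by
      have h4 : (pull γ ρ m (Φ 0) (γ s) * Real.cos s + pull γ ρ m (Φ 1) (γ s) * Real.sin s) ^ 2 ≤
          pull γ ρ m (Φ 0) (γ s) ^ 2 + pull γ ρ m (Φ 1) (γ s) ^ 2 := by
        nlinarith [sq_nonneg (pull γ ρ m (Φ 0) (γ s) * Real.sin s - pull γ ρ m (Φ 1) (γ s) * Real.cos s)]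
      have h5 : (1 - κ) ^ 2 ≤ (pull γ ρ m (Φ 0) (γ s) * Real.cos s
          + pull γ ρ m (Φ 1) (γ s) * Real.sin s) ^ 2 := by
        nlinarith
      exact h5.trans h4
    unfold cc
    rw [← Real.sqrt_sq hη0.le]
    refine Real.sqrt_lt_sqrt (sub_nonneg.2 (hmem (γ s)).le) ?_
    nlinarith
  have key := S.bdry_int hW hW0 hG hγ hρ hρ1 hm k5 hb
    (fun r hr => hκ₁' r ⟨le_trans (pow_le_pow_left₀ (by linarith) (by linarith) 2) hr.1, hr.2⟩) hGb
  obtain ⟨i1, s1⟩ := stokes_gv C hγ lU (fun x => hmem x) (contDiffOn_gt hW hG)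
  have hLb := S.map.L0
  -- the pointwise inequality
  have hae : ∀ᵐ o ∂C.μ, (C.sg * dl (fun i u => fderiv ℝ (gv (gt W G) i) u) (vc U (C.pt o)) (vx C U o) (vy C U o)
      + μ * nur C U o ≤ T) ∧ |nur C U o| ≤ 2 * L ^ 2 := by
    filter_upwards [transfer C hγ hρ hρ1 hm0] with o ho
    obtain ⟨h, k, V, H⟩ := ho
    have ex : vx C U o = du dΦ (pf γ ρ m (C.pt o)) h := funext fun i => (H _ _ (S.fn i)).2.1
    have ey : vy C U o = du dΦ (pf γ ρ m (C.pt o)) k := funext fun i => (H _ _ (S.fn i)).2.2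
    have eu : vc U (C.pt o) = cu Φ (pf γ ρ m (C.pt o)) := rfl
    have V' : Var k h := ⟨V.mesk, V.mesh, fun t => by rw [add_comm]; exact V.sq t⟩
    have b1 := S.nsq_le (hE (C.pt o)) V.mesh V.bh
    have b2 := S.nsq_le (hE (C.pt o)) V.mesk V.bk
    have b3 := abs_ja_le (cu Φ (pf γ ρ m (C.pt o))) (du dΦ (pf γ ρ m (C.pt o)) h)
      (du dΦ (pf γ ρ m (C.pt o)) k)
    have n1 := S.norm_le (hE (C.pt o)) V.mesh V.bh
    have n2 := S.norm_le (hE (C.pt o)) V.mesk V.bk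
    have b4 : |ja (cu Φ (pf γ ρ m (C.pt o))) (du dΦ (pf γ ρ m (C.pt o)) h)
      (du dΦ (pf γ ρ m (C.pt o)) k)| ≤ L ^ 2 := by
      refine b3.trans ?_
      rw [pow_two]
      exact mul_le_mul n1 n2 (norm_nonneg _) hL
    have b5 := abs_le.1 b4
    have b6 := normSq_nonneg (vv (cu Φ (pf γ ρ m (C.pt o))) (du dΦ (pf γ ρ m (C.pt o)) h))
    have b7 := normSq_nonneg (vv (cu Φ (pf γ ρ m (C.pt o))) (du dΦ (pf γ ρ m (C.pt o)) k))
    rcases nur_eq C U o with ⟨e1, e2⟩ | ⟨e1, e2⟩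
    · rw [e1, e2, ex, ey, eu, one_mul]
      refine ⟨hst _ _ _ (hE _) V, ?_⟩
      unfold nu
      rw [abs_le]
      constructor <;> linarith
    · rw [e1, e2, ex, ey, eu, neg_one_mul, ← dl_anti]
      refine ⟨hst _ _ _ (hE _) V', ?_⟩
      unfold nu
      rw [ja_anti, abs_le]
      constructor <;> linarith
  have hint : Integrable (nur C U) C.μ :=
    Calc.integrable_of_bdd C (nur_meas C lU) (hae.mono fun o ho => ho.2)
  refine ⟨hint, ?_⟩
  have := C.fin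
  have h3 := integral_mono_ae ((i1.const_mul C.sg).add (hint.const_mul μ)) (integrable_const T)
    (hae.mono fun o ho => ho.1)
  simp only [Pi.add_apply] at h3
  rw [integral_add (i1.const_mul C.sg) (hint.const_mul μ), integral_const_mul, integral_const_mul, s1,
    integral_const] at h3
  have e1 : C.μ.real univ • T = T * C.vol := by
    rw [smul_eq_mul, mul_comm]
    rfl
  have e2 : C.sg * C.sg = 1 := by
    rcases C.pm with h | h <;> rw [h] <;> norm_num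
  rw [e1, ← mul_assoc, e2, one_mul] at h3
  have h4 := (abs_le.1 key).1
  linarith

/-- **the area bound**, on every surface -/
theorem area_le (S : Sys Φ dΦ K L) {W : ℝ → ℝ} (hW : ContDiffOn ℝ 1 W (Ioi 0))
    (hW0 : ContinuousOn W (Ici 0)) {G : (Fin (n + 2) → ℝ) → ℂ} (hG : ContDiffOn ℝ 1 G (OO n))
    (hG0 : ∀ ε : ℝ, 0 < ε → ∃ η : ℝ, 0 < η ∧ ∀ f, Ef f → cc (cu Φ f) < η → ‖G (cu Φ f)‖ ≤ ε)
    {T : ℝ} (hst : ∀ f h k, Ef f → Var h k →
      dl (fun i u => fderiv ℝ (gv (gt W G) i) u) (cu Φ f) (du dΦ f h) (du dΦ f k) ≤ T)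
    (M : Type) [MetricSpace M] [CompactSpace M] (γ : ℝ → M) (C : Calc M γ) (hγ : Bd γ) :
    2 * Real.pi * W 0 ≤ T * C.vol := by
  refine le_of_forall_pos_sub_le fun e he => ?_
  obtain ⟨d, hd, H⟩ := raw_le S hW hW0 hG hG0 (μ := 0) (T := T)
    (fun f h k hf V => by rw [zero_mul, add_zero]; exact hst f h k hf V) he
  obtain ⟨m, hm, hm2⟩ : ∃ m : ℕ, 2 ≤ m ∧ 4 * Real.pi / d ≤ m := by
    obtain ⟨m, hm⟩ := exists_nat_ge (4 * Real.pi / d)
    exact ⟨max m 2, le_max_right _ _, hm.trans (by exact_mod_cast le_max_left _ _)⟩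
  have hm0 : (0 : ℝ) < m := by
    have : 0 < m := by omega
    exact_mod_cast this
  have hpi := Real.pi_pos
  set ρ : ℝ := max 0 (1 - d / Real.pi) with hρ
  have hρ1 : ρ < 1 := by
    rw [hρ]
    refine max_lt one_pos ?_
    have : 0 < d / Real.pi := by positivity
    linarith
  have h1 : (1 - ρ) * (Real.pi / 2) ≤ d / 2 := by
    have h2 : 1 - d / Real.pi ≤ ρ := le_max_right _ _
    have h3 : (1 - ρ) * (Real.pi / 2) ≤ d / Real.pi * (Real.pi / 2) :=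
      mul_le_mul_of_nonneg_right (by linarith) (by positivity)
    have h4 : d / Real.pi * (Real.pi / 2) = d / 2 := by
      field_simp
    linarith
  have h2 : 2 * (Real.pi / m) ≤ d / 2 := by
    rw [div_le_iff₀ hd] at hm2
    rw [mul_div_assoc', div_le_iff₀ hm0]
    linarith
  have h3 := (H M γ C hγ ρ m (le_max_left _ _) hρ1 hm (by linarith)).2
  linarith

end Surface

end Pool.Agent.FPX.CST
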