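import Pool.Agent.FPX.F54B

/-
C54A (helper22): the kernels `K_m = c E^m / w^(m+2)` of the harmonics of `f - f^Y` in the frame at the
point `Y`, and their exact derivatives in `Y`. Notation: `c = √(1 - |Y|²)`, `p = ⟨Y, u_t⟩`,
`w = √(1 - p²)`, `E = u_t - p Y / (1 + c)` (complex number of modulus `w`).
-/

open MeasureTheory Set Filter Topology Real intervalIntegral
open Pool.Agent.FPX.UMP (Ef)
open Pool.Agent.FPX.F54 Pool.Agent.FPX.F54B
open scoped ComplexConjugate

noncomputable section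

namespace Pool.Agent.FPX.C54

/-- `√(1 - |Y|²)` -/
def ce (x y : ℝ) : ℝ := √(1 - x ^ 2 - y ^ 2)

/-- `√(1 - p²)` -/
def wt (x y t : ℝ) : ℝ := √(1 - pr x y t ^ 2)

/-- the direction of `u_t` seen from `Y`, times `w` -/
def EE (x y t : ℝ) : ℂ :=
  ⟨cos t - pr x y t * x / (1 + ce x y), sin t - pr x y t * y / (1 + ce x y)⟩

/-- the kernel of the `m`-th harmonic -/
def KK (m : ℕ) (x y t : ℝ) : ℂ := ce x y * EE x y t ^ m / wt x y t ^ (m + 2)

/-- the `m`-th harmonic of `f - f^Y` -/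
def Cm (m : ℕ) (x y : ℝ) (f : ℝ → ℝ) : ℂ :=
  (1 / π : ℝ) * ∫ t in (0 : ℝ)..(2 * π), ((f t - arcsin (pr x y t) : ℝ) : ℂ) * KK m x y t

/-- the `m`-th harmonic of a variation -/
def Lm (m : ℕ) (x y : ℝ) (h : ℝ → ℝ) : ℂ :=
  (1 / π : ℝ) * ∫ t in (0 : ℝ)..(2 * π), ((h t : ℝ) : ℂ) * KK m x y t

theorem ce_pos {x y : ℝ} (h : x ^ 2 + y ^ 2 < 1) : 0 < ce x y := sqrt_pos.2 (by linarith)

theorem ce_sq {x y : ℝ} (h : x ^ 2 + y ^ 2 < 1) : ce x y ^ 2 = 1 - x ^ 2 - y ^ 2 :=
  sq_sqrt (by linarith)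

theorem wt_pos {x y : ℝ} (h : x ^ 2 + y ^ 2 < 1) (t : ℝ) : 0 < wt x y t :=
  sqrt_pos.2 (by linarith [pr_sq_lt h t])

theorem wt_sq {x y : ℝ} (h : x ^ 2 + y ^ 2 < 1) (t : ℝ) : wt x y t ^ 2 = 1 - pr x y t ^ 2 :=
  sq_sqrt (by linarith [pr_sq_lt h t])

/-- the first algebraic identity -/
theorem id1 {p q Q N c : ℝ} (hc : 0 < c) (rel : p ^ 2 + q ^ 2 + c ^ 2 = 1) :
    -(1 - p ^ 2) * (p * Q + q * N) / c ^ 2 + 2 * p * Q =
      (p * c * Q - q * N + p * q * (p * N - q * Q) / (1 + c)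
        - q ^ 2 * (p * Q + q * N) / (c * (1 + c))) / c := by
  have h1 : (1 + c) ≠ 0 := by positivity
  have h0 : c ≠ 0 := hc.ne'
  field_simp
  linear_combination (p * (1 + c) * Q + q * N) * rel

/-- the second algebraic identity -/
theorem id2 {p q Q N c : ℝ} (hc : 0 < c) (rel : p ^ 2 + q ^ 2 + c ^ 2 = 1) :
    -Q * q / (1 + c) - p * (N - p * (p * N - q * Q) / (1 + c)) / (1 + c)
        - p * q * (p * Q + q * N) / (c * (1 + c) ^ 2) =
      -(p * c * N - p ^ 2 * c * (p * N - q * Q) / (1 + c) + p * q * (p * Q + q * N) / (1 + c)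
        + q * Q) / (2 * c) + (1 - p ^ 2) * (p * N - q * Q) * (c - 1) / (2 * c * (1 + c)) := by
  have h1 : (1 + c) ≠ 0 := by positivity
  have h0 : c ≠ 0 := hc.ne'
  field_simp
  linear_combination (-p * N * (1 - c)) * rel

section curve

variable {X Y : ℝ → ℝ} {a b s : ℝ}

theorem der_ce (hX : HasDerivAt X a s) (hY : HasDerivAt Y b s) (h : X s ^ 2 + Y s ^ 2 < 1) :
    HasDerivAt (fun s => ce (X s) (Y s)) (-(X s * a + Y s * b) / ce (X s) (Y s)) s := by
  have h1 : HasDerivAt (fun s => 1 - X s ^ 2 - Y s ^ 2) (-2 * (X s * a + Y s * b)) s := by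
    refine (((hX.pow 2).const_sub 1).sub (hY.pow 2)).congr_deriv ?_
    simp
    ring
  have h2 := h1.sqrt (by linarith : (1 - X s ^ 2 - Y s ^ 2) ≠ 0)
  refine h2.congr_deriv ?_
  unfold ce
  have h3 : √(1 - X s ^ 2 - Y s ^ 2) ≠ 0 := (sqrt_pos.2 (by linarith)).ne'
  field_simp

theorem der_pr (hX : HasDerivAt X a s) (hY : HasDerivAt Y b s) (t : ℝ) :
    HasDerivAt (fun s => pr (X s) (Y s) t) (pr a b t) s := by
  unfold pr
  exact (hX.mul_const _).add (hY.mul_const _)

theorem der_wt (hX : HasDerivAt X a s) (hY : HasDerivAt Y b s) (h : X s ^ 2 + Y s ^ 2 < 1) (t : ℝ) :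
    HasDerivAt (fun s => wt (X s) (Y s) t) (-(pr (X s) (Y s) t * pr a b t) / wt (X s) (Y s) t) s := by
  have h1 : HasDerivAt (fun s => 1 - pr (X s) (Y s) t ^ 2) (-2 * (pr (X s) (Y s) t * pr a b t)) s := by
    refine ((((der_pr hX hY t).pow 2).const_sub 1)).congr_deriv ?_
    simp
    ring
  have h2 := h1.sqrt (by linarith [pr_sq_lt h t] : (1 - pr (X s) (Y s) t ^ 2) ≠ 0)
  refine h2.congr_deriv ?_
  unfold wt
  have h3 : √(1 - pr (X s) (Y s) t ^ 2) ≠ 0 := (wt_pos h t).ne'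
  field_simp

/-- derivative of the first coordinate of `E` (`z = x`) and of the second one (`z = y`) -/
def dE (x y a b z ζ t : ℝ) : ℝ :=
  -(pr a b t * z + pr x y t * ζ) / (1 + ce x y)
    - pr x y t * z * (x * a + y * b) / (ce x y * (1 + ce x y) ^ 2)

private theorem der_E1 (hX : HasDerivAt X a s) (hY : HasDerivAt Y b s) (h : X s ^ 2 + Y s ^ 2 < 1)
    {Z : ℝ → ℝ} {ζ : ℝ} (hZ : HasDerivAt Z ζ s) (k t : ℝ) :
    HasDerivAt (fun s => k - pr (X s) (Y s) t * Z s / (1 + ce (X s) (Y s)))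
      (dE (X s) (Y s) a b (Z s) ζ t) s := by
  have hc := ce_pos h
  have h1 := (((der_pr hX hY t).mul hZ).div ((der_ce hX hY h).const_add 1) (by positivity)).const_sub k
  refine h1.congr_deriv ?_
  unfold dE
  simp only [Pi.mul_apply]
  field_simp
  ring

theorem der_EE (hX : HasDerivAt X a s) (hY : HasDerivAt Y b s) (h : X s ^ 2 + Y s ^ 2 < 1) (t : ℝ) :
    HasDerivAt (fun s => EE (X s) (Y s) t)
      (⟨dE (X s) (Y s) a b (X s) a t, dE (X s) (Y s) a b (Y s) b t⟩ : ℂ) s := by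
  have h1 := (der_E1 hX hY h hX (cos t) t).ofReal_comp
  have h2 := (der_E1 hX hY h hY (sin t) t).ofReal_comp
  have h3 := h1.add (h2.mul_const Complex.I)
  rw [Complex.mk_eq_add_mul_I]
  refine h3.congr_of_eventuallyEq (Eventually.of_forall fun s => ?_)
  simp only [EE, Complex.mk_eq_add_mul_I, Pi.add_apply]

end curve

/-- the moving vector `v` belonging to the velocity `(a, b)` at `(x, y)` -/
def vv (x y a b : ℝ) : ℂ :=
  ⟨a + x * (x * a + y * b) / (ce x y * (1 + ce x y)), b + y * (x * a + y * b) / (ce x y * (1 + ce x y))⟩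

/-- logarithmic derivative of `K_m` -/
def Lam (m : ℕ) (x y a b t : ℝ) : ℂ :=
  ((m + 2) / (4 * ce x y)) * (conj (⟨x, y⟩ : ℂ) * conj (vv x y a b)) * (EE x y t ^ 2 / wt x y t ^ 2)
    - ((m - 2) / (4 * ce x y)) * ((⟨x, y⟩ : ℂ) * vv x y a b) * (conj (EE x y t) ^ 2 / wt x y t ^ 2)
    + Complex.I * m * (x * b - y * a) * (ce x y - 1) / (2 * ce x y * (1 + ce x y))

theorem EE_Y {x y : ℝ} (h : x ^ 2 + y ^ 2 < 1) (t : ℝ) :
    conj (EE x y t) * (⟨x, y⟩ : ℂ) = ⟨pr x y t * ce x y, cos t * y - sin t * x⟩ := by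
  have hc := ce_pos h
  have hs := ce_sq h
  apply Complex.ext
  · simp only [EE, Complex.mul_re, Complex.conj_re, Complex.conj_im]
    field_simp
    unfold pr
    linear_combination (-(x * cos t + y * sin t)) * hs
  · simp only [EE, Complex.mul_im, Complex.conj_re, Complex.conj_im]
    field_simp
    ring

theorem EE_v {x y : ℝ} (h : x ^ 2 + y ^ 2 < 1) (a b t : ℝ) :
    conj (EE x y t) * vv x y a b = ⟨pr a b t, (cos t * b - sin t * a)
      - pr x y t * (x * b - y * a) / (1 + ce x y)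
      + (cos t * y - sin t * x) * (x * a + y * b) / (ce x y * (1 + ce x y))⟩ := by
  have hc := ce_pos h
  have hs := ce_sq h
  have e : vv x y a b = (⟨a, b⟩ : ℂ) + (⟨x, y⟩ : ℂ) * ((x * a + y * b) / (ce x y * (1 + ce x y)) : ℝ) := by
    apply Complex.ext
    · simp only [vv, Complex.add_re, Complex.mul_re, Complex.ofReal_re, Complex.ofReal_im]
      ring
    · simp only [vv, Complex.add_im, Complex.mul_im, Complex.ofReal_re, Complex.ofReal_im]
      ring
  rw [e, mul_add, ← mul_assoc, EE_Y h]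
  apply Complex.ext
  · simp only [EE, Complex.add_re, Complex.mul_re, Complex.conj_re, Complex.conj_im, Complex.ofReal_re,
      Complex.ofReal_im]
    field_simp
    unfold pr
    ring
  · simp only [EE, Complex.add_im, Complex.mul_im, Complex.conj_re, Complex.conj_im, Complex.ofReal_re,
      Complex.ofReal_im]
    field_simp
    ring

theorem normSq_EE {x y : ℝ} (h : x ^ 2 + y ^ 2 < 1) (t : ℝ) :
    EE x y t * conj (EE x y t) = ((wt x y t ^ 2 : ℝ) : ℂ) := by
  have hc := ce_pos h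
  have hs := ce_sq h
  rw [wt_sq h]
  apply Complex.ext
  · simp only [EE, Complex.mul_re, Complex.conj_re, Complex.conj_im, Complex.ofReal_re]
    have h1 := sin_sq_add_cos_sq t
    field_simp
    unfold pr
    linear_combination (1 + ce x y) ^ 2 * h1 + (x * cos t + y * sin t) ^ 2 * hs
  · simp only [EE, Complex.mul_im, Complex.conj_re, Complex.conj_im, Complex.ofReal_im]
    ring

theorem EE_ne {x y : ℝ} (h : x ^ 2 + y ^ 2 < 1) (t : ℝ) : EE x y t ≠ 0 := by
  intro h0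
  have h1 := normSq_EE h t
  rw [h0, zero_mul] at h1
  have h2 := wt_pos h t
  have h3 : wt x y t ^ 2 = 0 := by exact_mod_cast h1.symm
  have : 0 < wt x y t ^ 2 := by positivity
  linarith

/-- the basic identity for the logarithmic derivative -/
theorem dE_EE {x y : ℝ} (h : x ^ 2 + y ^ 2 < 1) (a b t : ℝ) :
    (⟨dE x y a b x a t, dE x y a b y b t⟩ : ℂ) * conj (EE x y t) =
      ⟨-(pr x y t * pr a b t), -pr a b t * (cos t * y - sin t * x) / (1 + ce x y)
        - pr x y t * ((cos t * b - sin t * a) - pr x y t * (x * b - y * a) / (1 + ce x y)) / (1 + ce x y)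
        - pr x y t * (cos t * y - sin t * x) * (x * a + y * b) / (ce x y * (1 + ce x y) ^ 2)⟩ := by
  have hc := ce_pos h
  have hs := ce_sq h
  apply Complex.ext
  · simp only [EE, dE, Complex.mul_re, Complex.conj_re, Complex.conj_im]
    field_simp
    unfold pr
    linear_combination ((a * cos t + b * sin t) * (x * cos t + y * sin t) * ce x y * (1 + ce x y)
      + (x * cos t + y * sin t) ^ 2 * (x * a + y * b)) * hs
  · simp only [EE, dE, Complex.mul_im, Complex.conj_re, Complex.conj_im]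
    field_simp
    ring

/-- the logarithmic derivative, cleared of denominators -/
theorem lam_eq {x y : ℝ} (h : x ^ 2 + y ^ 2 < 1) (m : ℕ) (a b t : ℝ) :
    (ce x y : ℂ) * (wt x y t : ℂ) ^ 2 * Lam m x y a b t =
      ((-(x * a + y * b) / ce x y : ℝ) : ℂ) * (wt x y t : ℂ) ^ 2
        + (ce x y : ℂ) * m * ((⟨dE x y a b x a t, dE x y a b y b t⟩ : ℂ) * conj (EE x y t))
        + (ce x y : ℂ) * (m + 2) * (pr x y t * pr a b t : ℝ) := by
  have hc := ce_pos h
  have hw := wt_pos h t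
  have hcC : (ce x y : ℂ) ≠ 0 := by exact_mod_cast hc.ne'
  have hwC : (wt x y t : ℂ) ≠ 0 := by exact_mod_cast hw.ne'
  have hc1 : (1 + ce x y : ℂ) ≠ 0 := by
    have : (1 + ce x y : ℝ) ≠ 0 := by positivity
    exact_mod_cast this
  -- the complex number `Z = Y v (conj E)²`
  have hZ : (⟨x, y⟩ : ℂ) * vv x y a b * conj (EE x y t) ^ 2
      = (conj (EE x y t) * (⟨x, y⟩ : ℂ)) * (conj (EE x y t) * vv x y a b) := by ring
  have hZ' : conj (⟨x, y⟩ : ℂ) * conj (vv x y a b) * EE x y t ^ 2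
      = conj ((⟨x, y⟩ : ℂ) * vv x y a b * conj (EE x y t) ^ 2) := by
    simp only [map_mul, map_pow, Complex.conj_conj]
  have e : (ce x y : ℂ) * (wt x y t : ℂ) ^ 2 * Lam m x y a b t =
      (m + 2) / 4 * conj ((⟨x, y⟩ : ℂ) * vv x y a b * conj (EE x y t) ^ 2)
      - (m - 2) / 4 * ((⟨x, y⟩ : ℂ) * vv x y a b * conj (EE x y t) ^ 2)
      + Complex.I * m * (x * b - y * a) * (ce x y - 1) * (wt x y t : ℂ) ^ 2 / (2 * (1 + ce x y)) := by
    rw [← hZ']
    unfold Lam
    field_simp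
  rw [e, hZ, EE_Y h, EE_v h, dE_EE h]
  have hs := ce_sq h
  have hws := wt_sq h t
  have hwsC : (wt x y t : ℂ) ^ 2 = ((1 - pr x y t ^ 2 : ℝ) : ℂ) := by
    rw [← hws]
    push_cast
    ring
  rw [hwsC]
  have rel : pr x y t ^ 2 + (cos t * y - sin t * x) ^ 2 + ce x y ^ 2 = 1 := by
    unfold pr
    linear_combination (x ^ 2 + y ^ 2) * (sin_sq_add_cos_sq t) + hs
  have hR : x * a + y * b = pr x y t * pr a b t + (cos t * y - sin t * x) * (cos t * b - sin t * a) := by
    unfold pr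
    linear_combination (-(x * a + y * b)) * (sin_sq_add_cos_sq t)
  have hM : x * b - y * a = pr x y t * (cos t * b - sin t * a) - (cos t * y - sin t * x) * pr a b t := by
    unfold pr
    linear_combination (-(x * b - y * a)) * (sin_sq_add_cos_sq t)
  have i1 := id1 (p := pr x y t) (q := cos t * y - sin t * x) (Q := pr a b t) (N := cos t * b - sin t * a) hc rel
  have i2 := id2 (p := pr x y t) (q := cos t * y - sin t * x) (Q := pr a b t) (N := cos t * b - sin t * a) hc rel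
  have hMC : (x * b - y * a : ℂ) = ((x * b - y * a : ℝ) : ℂ) := by push_cast; ring
  rw [hMC, hR, hM]
  clear e hZ hZ' hcC hwC hc1 hMC hs hws hwsC hR hM hw
  generalize pr x y t = p at *
  generalize pr a b t = Q at *
  generalize cos t * y - sin t * x = q at *
  generalize cos t * b - sin t * a = N at *
  generalize ce x y = c at *
  have e1 : ((m : ℂ) + 2) / 4 = ((((m : ℝ) + 2) / 4 : ℝ) : ℂ) := by push_cast; ring
  have e2 : ((m : ℂ) - 2) / 4 = ((((m : ℝ) - 2) / 4 : ℝ) : ℂ) := by push_cast; ring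
  have e3 : Complex.I * (m : ℂ) * ((p * N - q * Q : ℝ) : ℂ) * ((c : ℂ) - 1) * ((1 - p ^ 2 : ℝ) : ℂ) / (2 * (1 + (c : ℂ)))
      = (((m : ℝ) * (p * N - q * Q) * (c - 1) * (1 - p ^ 2) / (2 * (1 + c)) : ℝ) : ℂ) * Complex.I := by
    push_cast
    ring
  have e5 : (c : ℂ) * (m : ℂ) = (((c * m : ℝ)) : ℂ) := by push_cast; ring
  have e6 : (c : ℂ) * ((m : ℂ) + 2) = (((c * (m + 2) : ℝ)) : ℂ) := by push_cast; ring
  rw [e1, e2, e3, e5, e6]
  have h0 : c ≠ 0 := hc.ne'
  apply Complex.ext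
  · simp only [Complex.add_re, Complex.sub_re, Complex.mul_re, Complex.conj_re, Complex.conj_im,
      Complex.mul_im, Complex.ofReal_re, Complex.ofReal_im, Complex.I_re, Complex.I_im]
    have i1' := congrArg (fun z => c * z) i1
    have j1 : c * ((p * c * Q - q * N + p * q * (p * N - q * Q) / (1 + c)
        - q ^ 2 * (p * Q + q * N) / (c * (1 + c))) / c) = p * c * Q - q * N + p * q * (p * N - q * Q) / (1 + c)
        - q ^ 2 * (p * Q + q * N) / (c * (1 + c)) := mul_div_cancel₀ _ h0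
    have j2 : c * (-(1 - p ^ 2) * (p * Q + q * N) / c ^ 2 + 2 * p * Q)
        = -(p * Q + q * N) / c * (1 - p ^ 2) + 2 * c * (p * Q) := by
      field_simp
    rw [j1, j2] at i1'
    linear_combination (-1) * i1'
  · simp only [Complex.add_im, Complex.sub_im, Complex.mul_re, Complex.conj_re, Complex.conj_im,
      Complex.mul_im, Complex.ofReal_re, Complex.ofReal_im, Complex.I_re, Complex.I_im]
    have i2' := congrArg (fun z => c * m * z) i2
    have j1 : c * m * (-(p * c * N - p ^ 2 * c * (p * N - q * Q) / (1 + c) + p * q * (p * Q + q * N) / (1 + c)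
        + q * Q) / (2 * c) + (1 - p ^ 2) * (p * N - q * Q) * (c - 1) / (2 * c * (1 + c)))
        = -(m / 2) * (p * c * (N - p * (p * N - q * Q) / (1 + c) + q * (p * Q + q * N) / (c * (1 + c))) + q * Q)
          + m * (p * N - q * Q) * (c - 1) * (1 - p ^ 2) / (2 * (1 + c)) := by
      field_simp
    rw [j1] at i2'
    linear_combination (-1) * i2'

/-- derivative of the kernel `K_m` along a curve of points -/
theorem der_KK {X Y : ℝ → ℝ} {a b s : ℝ} (hX : HasDerivAt X a s) (hY : HasDerivAt Y b s)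
    (h : X s ^ 2 + Y s ^ 2 < 1) (m : ℕ) (t : ℝ) :
    HasDerivAt (fun s => KK m (X s) (Y s) t) (KK m (X s) (Y s) t * Lam m (X s) (Y s) a b t) s := by
  have hc := ce_pos h
  have hw := wt_pos h t
  have hcC : (ce (X s) (Y s) : ℂ) ≠ 0 := by exact_mod_cast hc.ne'
  have hwC : (wt (X s) (Y s) t : ℂ) ≠ 0 := by exact_mod_cast hw.ne'
  have hE := EE_ne h t
  have d1 := (der_ce hX hY h).ofReal_comp
  have d2 := (der_wt hX hY h t).ofReal_comp
  have d3 := der_EE hX hY h t
  have d4 := (d1.mul (d3.pow m)).div (d2.pow (m + 2)) (pow_ne_zero _ hwC)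
  have hN := normSq_EE h t
  have hl := lam_eq h m a b t
  have hEb : conj (EE (X s) (Y s) t) = (wt (X s) (Y s) t : ℂ) ^ 2 / EE (X s) (Y s) t := by
    rw [eq_div_iff hE, mul_comm, hN]
    push_cast
    ring
  have hpow : ∀ z : ℂ, (m : ℂ) * z ^ (m - 1) * z = m * z ^ m := by
    intro z
    rcases m with _ | k
    · simp
    · simp only [Nat.add_sub_cancel]
      ring
  have hLam : Lam m (X s) (Y s) a b t = (((-(X s * a + Y s * b) / ce (X s) (Y s) : ℝ) : ℂ)
      * (wt (X s) (Y s) t : ℂ) ^ 2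
        + (ce (X s) (Y s) : ℂ) * m * ((⟨dE (X s) (Y s) a b (X s) a t, dE (X s) (Y s) a b (Y s) b t⟩ : ℂ)
          * conj (EE (X s) (Y s) t))
        + (ce (X s) (Y s) : ℂ) * (m + 2) * (pr (X s) (Y s) t * pr a b t : ℝ))
        / ((ce (X s) (Y s) : ℂ) * (wt (X s) (Y s) t : ℂ) ^ 2) := by
    rw [← hl]
    field_simp
  refine (d4.congr_deriv ?_).congr_of_eventuallyEq (Eventually.of_forall fun σ => ?_)
  · rw [hLam, hEb]
    unfold KK
    have hp1 := hpow (EE (X s) (Y s) t)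
    generalize (⟨dE (X s) (Y s) a b (X s) a t, dE (X s) (Y s) a b (Y s) b t⟩ : ℂ) = dd at *
    have hp2 : (m : ℂ) * EE (X s) (Y s) t ^ (m - 1) = m * EE (X s) (Y s) t ^ m / EE (X s) (Y s) t := by
      rw [eq_div_iff hE, hp1]
    simp only [Pi.mul_apply, Pi.pow_apply]
    rw [hp2]
    have e7 : (((m + 2 : ℕ) : ℕ) : ℂ) = (m : ℂ) + 2 := by push_cast; ring
    rw [e7]
    have e8 : m + 2 - 1 = m + 1 := rfl
    rw [e8]
    push_cast
    field_simp
    ring
  · simp only [KK, Pi.mul_apply, Pi.div_apply, Pi.pow_apply]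

private theorem EE_div {x y : ℝ} (h : x ^ 2 + y ^ 2 < 1) (t : ℝ) :
    EE x y t * (conj (EE x y t) / (wt x y t : ℂ) ^ 2) = 1 := by
  have hw := wt_pos h t
  have hwC : (wt x y t : ℂ) ≠ 0 := by exact_mod_cast hw.ne'
  rw [mul_div_assoc', normSq_EE h, Complex.ofReal_pow]
  exact div_self (pow_ne_zero _ hwC)

/-- the derivative of `K_(m+2)` in terms of the neighbouring kernels -/
theorem KK_Lam {x y : ℝ} (h : x ^ 2 + y ^ 2 < 1) (m : ℕ) (a b t : ℝ) :
    KK (m + 2) x y t * Lam (m + 2) x y a b t =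
      ((m + 4) / (4 * ce x y)) * (conj (⟨x, y⟩ : ℂ) * conj (vv x y a b)) * KK (m + 4) x y t
        - (m / (4 * ce x y)) * ((⟨x, y⟩ : ℂ) * vv x y a b) * KK m x y t
        + Complex.I * (m + 2) * (x * b - y * a) * (ce x y - 1) / (2 * ce x y * (1 + ce x y))
          * KK (m + 2) x y t := by
  have hw := wt_pos h t
  have hwC : (wt x y t : ℂ) ≠ 0 := by exact_mod_cast hw.ne'
  have k1 : KK (m + 2) x y t * (EE x y t ^ 2 / wt x y t ^ 2) = KK (m + 4) x y t := by
    unfold KK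
    have e : m + 4 + 2 = (m + 2 + 2) + 2 := rfl
    have e' : m + 4 = (m + 2) + 2 := rfl
    rw [e, pow_add _ (m + 2 + 2) 2, e', pow_add _ (m + 2) 2]
    field_simp
    ring
  have k2 : KK (m + 2) x y t * (conj (EE x y t) ^ 2 / wt x y t ^ 2) = KK m x y t := by
    have e3 : KK (m + 2) x y t = KK m x y t * (EE x y t ^ 2 / wt x y t ^ 2) := by
      unfold KK
      rw [pow_add _ (m + 2) 2, pow_add _ m 2]
      field_simp
    have e4 : (EE x y t ^ 2 / wt x y t ^ 2) * (conj (EE x y t) ^ 2 / wt x y t ^ 2) = (1 : ℂ) := by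
      have h1 := EE_div h t
      have h2 : (EE x y t * conj (EE x y t)) ^ 2 = (wt x y t : ℂ) ^ 4 := by
        rw [normSq_EE h, Complex.ofReal_pow]
        ring
      rw [div_mul_div_comm, ← mul_pow, h2]
      field_simp
    rw [e3, mul_assoc, e4, mul_one]
  have e : KK (m + 2) x y t * Lam (m + 2) x y a b t =
      ((m + 4) / (4 * ce x y)) * (conj (⟨x, y⟩ : ℂ) * conj (vv x y a b))
          * (KK (m + 2) x y t * (EE x y t ^ 2 / wt x y t ^ 2))
        - (m / (4 * ce x y)) * ((⟨x, y⟩ : ℂ) * vv x y a b)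
          * (KK (m + 2) x y t * (conj (EE x y t) ^ 2 / wt x y t ^ 2))
        + Complex.I * (m + 2) * (x * b - y * a) * (ce x y - 1) / (2 * ce x y * (1 + ce x y))
          * KK (m + 2) x y t := by
    unfold Lam
    push_cast
    ring
  rw [e, k1, k2]

theorem conj_KK {x y : ℝ} (m : ℕ) (t : ℝ) :
    conj (KK m x y t) = ce x y * conj (EE x y t) ^ m / wt x y t ^ (m + 2) := by
  unfold KK
  simp only [map_div₀, map_mul, map_pow, Complex.conj_ofReal]

/-- the derivative of `K_1` -/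
theorem KK_Lam1 {x y : ℝ} (h : x ^ 2 + y ^ 2 < 1) (a b t : ℝ) :
    KK 1 x y t * Lam 1 x y a b t =
      (3 / (4 * ce x y)) * (conj (⟨x, y⟩ : ℂ) * conj (vv x y a b)) * KK 3 x y t
        + (1 / (4 * ce x y)) * ((⟨x, y⟩ : ℂ) * vv x y a b) * conj (KK 1 x y t)
        + Complex.I * (x * b - y * a) * (ce x y - 1) / (2 * ce x y * (1 + ce x y))
          * KK 1 x y t := by
  have hw := wt_pos h t
  have hwC : (wt x y t : ℂ) ≠ 0 := by exact_mod_cast hw.ne'
  have k1 : KK 1 x y t * (EE x y t ^ 2 / wt x y t ^ 2) = KK 3 x y t := by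
    unfold KK
    field_simp
    ring
  have k2 : KK 1 x y t * (conj (EE x y t) ^ 2 / wt x y t ^ 2) = conj (KK 1 x y t) := by
    rw [conj_KK]
    unfold KK
    have h2 : EE x y t * conj (EE x y t) ^ 2 = (wt x y t : ℂ) ^ 2 * conj (EE x y t) := by
      have := normSq_EE h t
      rw [Complex.ofReal_pow] at this
      rw [← this]
      ring
    field_simp
    linear_combination (ce x y : ℂ) * h2
  have e : KK 1 x y t * Lam 1 x y a b t =
      (3 / (4 * ce x y)) * (conj (⟨x, y⟩ : ℂ) * conj (vv x y a b))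
          * (KK 1 x y t * (EE x y t ^ 2 / wt x y t ^ 2))
        + (1 / (4 * ce x y)) * ((⟨x, y⟩ : ℂ) * vv x y a b)
          * (KK 1 x y t * (conj (EE x y t) ^ 2 / wt x y t ^ 2))
        + Complex.I * (x * b - y * a) * (ce x y - 1) / (2 * ce x y * (1 + ce x y))
          * KK 1 x y t := by
    unfold Lam
    push_cast
    ring
  rw [e, k1, k2]

/-- the derivative of `K_0` -/
theorem KK_Lam0 {x y : ℝ} (h : x ^ 2 + y ^ 2 < 1) (a b t : ℝ) :
    KK 0 x y t * Lam 0 x y a b t =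
      (1 / (2 * ce x y)) * (conj (⟨x, y⟩ : ℂ) * conj (vv x y a b)) * KK 2 x y t
        + (1 / (2 * ce x y)) * ((⟨x, y⟩ : ℂ) * vv x y a b) * conj (KK 2 x y t) := by
  have hw := wt_pos h t
  have hwC : (wt x y t : ℂ) ≠ 0 := by exact_mod_cast hw.ne'
  have k1 : KK 0 x y t * (EE x y t ^ 2 / wt x y t ^ 2) = KK 2 x y t := by
    unfold KK
    field_simp
    ring
  have k2 : KK 0 x y t * (conj (EE x y t) ^ 2 / wt x y t ^ 2) = conj (KK 2 x y t) := by
    rw [conj_KK]
    unfold KK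
    field_simp
    ring
  have e : KK 0 x y t * Lam 0 x y a b t =
      (1 / (2 * ce x y)) * (conj (⟨x, y⟩ : ℂ) * conj (vv x y a b))
          * (KK 0 x y t * (EE x y t ^ 2 / wt x y t ^ 2))
        + (1 / (2 * ce x y)) * ((⟨x, y⟩ : ℂ) * vv x y a b)
          * (KK 0 x y t * (conj (EE x y t) ^ 2 / wt x y t ^ 2)) := by
    unfold Lam
    push_cast
    ring
  rw [e, k1, k2]

end Pool.Agent.FPX.C54
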