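import Mathlib
import Pool.Agent.FPX.F54X

/-
F54L (helper8): uniform bounds for helper54's map and for functionals `∫ L(F f, t, f t) dt` on the states
with `|f| ≤ m < π/2`.
-/

open MeasureTheory Set Filter Topology
open scoped ENNReal NNReal

noncomputable section

namespace Pool.Agent.FPX.KNT

open Real Pool.Agent.FPX.UMP Pool.Agent.FPX.UMQ

/-- a continuous kernel is bounded on compact sets -/
theorem bd_on {K : ℝ × ℝ → ℝ → ℝ → ℝ} {U : Set (ℝ × ℝ)}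
    (h : ∀ X ∈ U, ∀ t a, |a| < π / 2 →
      ContinuousAt (fun q : (ℝ × ℝ) × ℝ × ℝ => K q.1 q.2.1 q.2.2) (X, t, a))
    {A : Set (ℝ × ℝ)} (hA : IsCompact A) (hAU : A ⊆ U) {m : ℝ} (hm : m < π / 2) :
    ∃ C : ℝ, 0 ≤ C ∧ ∀ X ∈ A, ∀ t ∈ Icc (0 : ℝ) (2 * π), ∀ a, |a| ≤ m → |K X t a| ≤ C := by
  have hc : IsCompact (A ×ˢ (Icc (0 : ℝ) (2 * π) ×ˢ Icc (-m) m)) :=
    hA.prod (isCompact_Icc.prod isCompact_Icc)
  have hco : ContinuousOn (fun q : (ℝ × ℝ) × ℝ × ℝ => K q.1 q.2.1 q.2.2)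
      (A ×ˢ (Icc (0 : ℝ) (2 * π) ×ˢ Icc (-m) m)) := by
    rintro ⟨X, t, a⟩ ⟨h1, h2, h3⟩
    exact (h X (hAU h1) t a (lt_of_le_of_lt (abs_le.2 h3) hm)).continuousWithinAt
  obtain ⟨B, hB⟩ := hc.exists_bound_of_continuousOn hco
  refine ⟨|B|, abs_nonneg _, fun X hX t ht a ha => ?_⟩
  have := hB (X, t, a) ⟨hX, ht, abs_le.1 ha⟩
  rw [Real.norm_eq_abs] at this
  exact this.trans (le_abs_self _)

/-- bound of the integral -/
theorem int_bd {F : ℝ → ℝ} {C : ℝ} (h : ∀ t ∈ Icc (0 : ℝ) (2 * π), |F t| ≤ C) :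
    |∫ t in (0 : ℝ)..(2 * π), F t| ≤ 2 * π * C := by
  have h1 := intervalIntegral.norm_integral_le_of_norm_le_const (a := (0 : ℝ)) (b := 2 * π)
    (f := F) (C := C) (fun t ht => by
      rw [uIoc_of_le (by positivity)] at ht
      exact h t (Ioc_subset_Icc_self ht))
  rw [sub_zero, abs_of_pos (by positivity)] at h1
  rw [← Real.norm_eq_abs]
  linarith

end Pool.Agent.FPX.KNT

namespace Pool.Agent.FPX.F54

open Real Pool.Agent.FPX.UMP Pool.Agent.FPX.UMQ Pool.Agent.FPX.KNT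
open Pool.Agent.FPX.F54B (ker ker_pos one_le_ker cont_ker_pr cont_pr)

/-- the closed disc of squared radius `q` -/
def DQ (q : ℝ) : Set (ℝ × ℝ) := {X | X.1 ^ 2 + X.2 ^ 2 ≤ q}

theorem isCompact_DQ {q : ℝ} (hq : q ≤ 1) : IsCompact (DQ q) := by
  refine Metric.isCompact_of_isClosed_isBounded (isClosed_le (by fun_prop) continuous_const) ?_
  refine (Metric.isBounded_iff_subset_closedBall 0).2 ⟨1, fun X hX => ?_⟩
  rw [mem_closedBall_zero_iff, Prod.norm_def]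
  have hX' : X.1 ^ 2 + X.2 ^ 2 ≤ q := hX
  refine max_le ?_ ?_
  · rw [Real.norm_eq_abs, abs_le]
    constructor <;> nlinarith [sq_nonneg X.2, sq_nonneg (X.1 - 1), sq_nonneg (X.1 + 1)]
  · rw [Real.norm_eq_abs, abs_le]
    constructor <;> nlinarith [sq_nonneg X.1, sq_nonneg (X.2 - 1), sq_nonneg (X.2 + 1)]

theorem DQ_sub {q : ℝ} (hq : q < 1) : DQ q ⊆ DD := fun X hX => by
  have hX' : X.1 ^ 2 + X.2 ^ 2 ≤ q := hX
  exact lt_of_le_of_lt hX' hq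

/-- the states with `|f| ≤ m` stay in a compact part of the disc -/
theorem X_le {m : ℝ} (hm0 : 0 ≤ m) (hm : m < π / 2) : ∃ q : ℝ, 0 ≤ q ∧ q < 1 ∧
    ∀ f, Ef f → (∀ t, |f t| ≤ m) → X1 f ^ 2 + X2 f ^ 2 ≤ q := by
  obtain ⟨A, hA, hAU, hz⟩ := kmap.apr m hm0 hm
  rcases A.eq_empty_or_nonempty with hE | hN
  · refine ⟨0, le_rfl, by norm_num, fun f hf hb => ?_⟩
    have := hz f hf hb _ (kmap.mem hf) (kmap.zero hf)
    rw [hE] at this
    exact absurd this (notMem_empty _)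
  · obtain ⟨X, hX, hmax⟩ := hA.exists_isMaxOn hN
      (f := fun X : ℝ × ℝ => X.1 ^ 2 + X.2 ^ 2) (by fun_prop : Continuous _).continuousOn
    refine ⟨X.1 ^ 2 + X.2 ^ 2, by positivity, hAU hX, fun f hf hb => ?_⟩
    exact hmax (hz f hf hb _ (kmap.mem hf) (kmap.zero hf))

/-- bound of a functional on the states with `|f| ≤ m` -/
theorem fun_bd {L : ℝ × ℝ → ℝ → ℝ → ℝ}
    (hL : ∀ X ∈ DD, ∀ t a, |a| < π / 2 →
      ContinuousAt (fun q : (ℝ × ℝ) × ℝ × ℝ => L q.1 q.2.1 q.2.2) (X, t, a))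
    {m : ℝ} (hm0 : 0 ≤ m) (hm : m < π / 2) : ∃ C : ℝ, 0 ≤ C ∧ ∀ f, Ef f → (∀ t, |f t| ≤ m) →
      ∀ h : ℝ → ℝ, (∀ t, |h t| ≤ 1) →
        |∫ t in (0 : ℝ)..(2 * π), L (ZZ FK DD f) t (f t) * h t| ≤ C := by
  obtain ⟨q, hq0, hq1, hq⟩ := X_le hm0 hm
  obtain ⟨C, hC0, hC⟩ := bd_on hL (isCompact_DQ hq1.le) (DQ_sub hq1) hm
  refine ⟨2 * π * C, by positivity, fun f hf hb h hh => int_bd fun t ht => ?_⟩
  rw [abs_mul]
  have h1 := hC (ZZ FK DD f) (hq f hf hb) t ht _ (hb t)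
  calc |L (ZZ FK DD f) t (f t)| * |h t| ≤ C * 1 :=
        mul_le_mul h1 (hh t) (abs_nonneg _) hC0
    _ = C := mul_one _

/-- bound of the derivative of the map on the states with `|f| ≤ m` -/
theorem dX_bd {m : ℝ} (hm0 : 0 ≤ m) (hm : m < π / 2) : ∃ C : ℝ, 0 ≤ C ∧ ∀ f, Ef f →
    (∀ t, |f t| ≤ m) → ∀ h : ℝ → ℝ, (∀ t, |h t| ≤ 1) → |dX1 f h| ≤ C ∧ |dX2 f h| ≤ C := by
  have hb1 := fun_bd (ker_FK 0).cx hm0 hm
  have hb2 := fun_bd (ker_FK 0).cy hm0 hm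
  have hb3 := fun_bd (ker_FK 1).cy hm0 hm
  have hb4 := fun_bd (ker_FK 0).ca hm0 hm
  have hb5 := fun_bd (ker_FK 1).ca hm0 hm
  obtain ⟨C1, c1, b1⟩ := hb1
  obtain ⟨C2, c2, b2⟩ := hb2
  obtain ⟨C3, c3, b3⟩ := hb3
  obtain ⟨C4, c4, b4⟩ := hb4
  obtain ⟨C5, c5, b5⟩ := hb5
  refine ⟨(C3 * C4 + C2 * C5 + (C1 * C5 + C2 * C4)) / (π ^ 2 / 2), by positivity, ?_⟩
  intro f hf hb h hh
  have o1 : ∀ t : ℝ, |(1 : ℝ)| ≤ 1 := fun t => by simp
  have k1 : |H11 (X1 f) (X2 f) f| ≤ C1 := by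
    have := b1 f hf hb (fun _ => 1) o1
    simp only [mul_one] at this
    have e := Gk_FKx_zero (ZZ FK DD f) f
    unfold Gk at e
    rw [e, abs_neg] at this
    exact this
  have k2 : |H12 (X1 f) (X2 f) f| ≤ C2 := by
    have := b2 f hf hb (fun _ => 1) o1
    simp only [mul_one] at this
    have e := Gk_FKy_zero (ZZ FK DD f) f
    unfold Gk at e
    rw [e, abs_neg] at this
    exact this
  have k3 : |H22 (X1 f) (X2 f) f| ≤ C3 := by
    have := b3 f hf hb (fun _ => 1) o1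
    simp only [mul_one] at this
    have e := Gk_FKy_one (ZZ FK DD f) f
    unfold Gk at e
    rw [e, abs_neg] at this
    exact this
  have k4 : |E1 (X1 f) (X2 f) h| ≤ C4 := by
    have := b4 f hf hb h hh
    have e : (∫ t in (0 : ℝ)..(2 * π), FKa 0 (ZZ FK DD f) t (f t) * h t) = E1 (X1 f) (X2 f) h := by
      simp only [FKa, tr_zero]
      rfl
    rw [e] at this
    exact this
  have k5 : |E2 (X1 f) (X2 f) h| ≤ C5 := by
    have := b5 f hf hb h hh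
    have e : (∫ t in (0 : ℝ)..(2 * π), FKa 1 (ZZ FK DD f) t (f t) * h t) = E2 (X1 f) (X2 f) h := by
      simp only [FKa, tr_one]
      rfl
    rw [e] at this
    exact this
  have hd : π ^ 2 / 2 ≤ H11 (X1 f) (X2 f) f * H22 (X1 f) (X2 f) f - H12 (X1 f) (X2 f) f ^ 2 := by
    have hlt := X_lt hf
    have h3 := det_ge hlt hf (X_G1 hf) (X_G2 hf)
    set x := X1 f with hx
    set y := X2 f with hy
    set c := √(1 - x ^ 2 - y ^ 2) with hc
    have hc2 : c ^ 2 = 1 - x ^ 2 - y ^ 2 := sq_sqrt (by linarith)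
    have hc0 : 0 < c := sqrt_pos.2 (by linarith)
    have h5 : (x ^ 2 + y ^ 2) / (2 * (1 + c) ^ 2) ≤ 1 / 2 := by
      rw [div_le_iff₀ (by positivity)]
      nlinarith
    have h6 : π ^ 2 / 2 ≤ π ^ 2 * (1 - (x ^ 2 + y ^ 2) / (2 * (1 + c) ^ 2)) := by
      nlinarith [sq_nonneg π]
    have h7 : (1 - x ^ 2 - y ^ 2) ^ 2 ≤ 1 := by
      have : 1 - x ^ 2 - y ^ 2 ≤ 1 := by nlinarith [sq_nonneg x, sq_nonneg y]
      have h8 : 0 ≤ 1 - x ^ 2 - y ^ 2 := by linarith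
      nlinarith
    have h9 := hdet f hf x y hlt (X_G1 hf) (X_G2 hf)
    nlinarith
  have hpi : (0 : ℝ) < π ^ 2 / 2 := by positivity
  have ab : ∀ {a b A B : ℝ}, |a| ≤ A → |b| ≤ B → 0 ≤ A → |a * b| ≤ A * B := by
    intro a b A B h1 h2 h3
    rw [abs_mul]
    exact mul_le_mul h1 h2 (abs_nonneg _) h3
  have fin : ∀ {N D M : ℝ}, |N| ≤ M → π ^ 2 / 2 ≤ D → |N / D| ≤ M / (π ^ 2 / 2) := by
    intro N D M h1 h2
    rw [abs_div, abs_of_pos (hpi.trans_le h2)]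
    exact div_le_div₀ ((abs_nonneg _).trans h1) h1 hpi h2
  unfold dX1 dX2
  constructor
  · refine fin ?_ hd
    refine (abs_sub _ _).trans ?_
    have a1 := ab k3 k4 c3
    have a2 := ab k2 k5 c2
    nlinarith [mul_nonneg c1 c5, mul_nonneg c2 c4]
  · refine fin ?_ hd
    refine (abs_sub _ _).trans ?_
    have a1 := ab k1 k5 c1
    have a2 := ab k2 k4 c2
    nlinarith [mul_nonneg c3 c4, mul_nonneg c2 c5]

theorem E1_div (x y : ℝ) (h : ℝ → ℝ) (D : ℝ) : E1 x y (fun t => h t / D) = E1 x y h / D := by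
  unfold E1
  rw [← intervalIntegral.integral_div]
  congr 1
  funext t
  ring

theorem E2_div (x y : ℝ) (h : ℝ → ℝ) (D : ℝ) : E2 x y (fun t => h t / D) = E2 x y h / D := by
  unfold E2
  rw [← intervalIntegral.integral_div]
  congr 1
  funext t
  ring

theorem dX1_div (f h : ℝ → ℝ) (D : ℝ) : dX1 f (fun t => h t / D) = dX1 f h / D := by
  unfold dX1
  rw [E1_div, E2_div]
  ring

theorem dX2_div (f h : ℝ → ℝ) (D : ℝ) : dX2 f (fun t => h t / D) = dX2 f h / D := by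
  unfold dX2
  rw [E1_div, E2_div]
  ring

end Pool.Agent.FPX.F54
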