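import Mathlib
import Pool.Agent.FPX.F54L
import Pool.Agent.FPX.F54R
import Pool.Agent.FPX.UXA

/-
F54I (helper8): helper54's map is a universal map in the sense of `UXA.UMap`, with Lipschitz constant
`7` and boundary constant `3`.
-/

open MeasureTheory Set Filter Topology
open scoped ENNReal NNReal

noncomputable section

namespace Pool.Agent.FPX.F54

open Real Pool.Agent.FPX.UMP Pool.Agent.FPX.UMQ Pool.Agent.FPX.KNT Pool.Agent.FPX.UXA
open Pool.Agent.FPX.F54B (ker ker_pos one_le_ker cont_ker_pr cont_pr)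

/-- integrability of a continuous function times a bounded measurable function -/
theorem ii_mul {g h : ℝ → ℝ} (hg : Continuous g) (hh : Measurable h) {D : ℝ} (hD : ∀ t, |h t| ≤ D)
    (a b : ℝ) : IntervalIntegrable (fun t => g t * h t) volume a b := by
  have h1 : IntervalIntegrable g volume a b := hg.intervalIntegrable a b
  exact ⟨h1.1.mul_bdd (c := D) hh.aestronglyMeasurable (Eventually.of_forall fun t => hD t),
    h1.2.mul_bdd (c := D) hh.aestronglyMeasurable (Eventually.of_forall fun t => hD t)⟩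

/-- the `L¹` norm of the linear functional -/
theorem int_abs_lin {x y : ℝ} (h : x ^ 2 + y ^ 2 < 1) (a b : ℝ) :
    √(1 - x ^ 2 - y ^ 2) * ∫ t in (0 : ℝ)..(2 * π), |a * cos t + b * sin t| * ker (pr x y t)
      ≤ 4 * √2 * √(a ^ 2 + b ^ 2 + (x * a + y * b) ^ 2 / (1 - x ^ 2 - y ^ 2)) := by
  obtain ⟨φ, hx, hy⟩ := F54B.exists_polar x y
  set r := √(x ^ 2 + y ^ 2) with hr
  have hr0 : 0 ≤ r := sqrt_nonneg _
  have hr2 : r ^ 2 = x ^ 2 + y ^ 2 := sq_sqrt (by positivity)
  have hr1 : r < 1 := by nlinarith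
  have hcr : 1 - x ^ 2 - y ^ 2 = 1 - r ^ 2 := by rw [hr2]; ring
  have hc0 : 0 < 1 - r ^ 2 := by nlinarith
  have e : ∀ t, pr x y (t + φ) = r * cos t := by
    intro t
    unfold pr
    rw [hx, hy, cos_add, sin_add]
    linear_combination r * cos t * (sin_sq_add_cos_sq φ)
  set A := a * cos φ + b * sin φ with hA
  set B := a * sin φ - b * cos φ with hB
  have e2 : ∀ t, a * cos (t + φ) + b * sin (t + φ) = A * cos t - B * sin t := by
    intro t
    rw [cos_add, sin_add, hA, hB]
    ring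
  have hp : Function.Periodic (fun t => |a * cos t + b * sin t| * ker (pr x y t)) (2 * π) := by
    intro t
    simp only [pr, cos_add_two_pi, sin_add_two_pi]
  rw [F54B.shift hp φ]
  simp only [e, e2]
  have h1 := F54B.upp hr0 hr1 A B
  have hs : 0 < √(1 - r ^ 2) := sqrt_pos.2 hc0
  have hs2 : √(1 - r ^ 2) ^ 2 = 1 - r ^ 2 := sq_sqrt hc0.le
  rw [hcr]
  have hN : a ^ 2 + b ^ 2 + (x * a + y * b) ^ 2 / (1 - r ^ 2) = A ^ 2 / (1 - r ^ 2) + B ^ 2 := by
    have e3 : x * a + y * b = r * A := by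
      rw [hA, hx, hy]
      ring
    have e4 : A ^ 2 + B ^ 2 = a ^ 2 + b ^ 2 := by
      rw [hA, hB]
      linear_combination (a ^ 2 + b ^ 2) * (sin_sq_add_cos_sq φ)
    rw [e3, ← e4]
    field_simp
    ring
  rw [hN]
  set c := √(1 - r ^ 2) with hc
  have h2 : c * ∫ t in (0 : ℝ)..(2 * π), |A * cos t - B * sin t| * ker (r * cos t)
      ≤ 4 * (|A| / c + |B|) := by
    calc c * ∫ t in (0 : ℝ)..(2 * π), |A * cos t - B * sin t| * ker (r * cos t)
        ≤ c * (|A| * (4 / (1 - r ^ 2)) + |B| * (4 / c)) := mul_le_mul_of_nonneg_left h1 hs.le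
      _ = 4 * (|A| / c + |B|) := by
          rw [← hs2]
          field_simp
  refine h2.trans ?_
  have h3 : |A| / c + |B| ≤ √2 * √(A ^ 2 / (1 - r ^ 2) + B ^ 2) := by
    rw [← sqrt_mul (by norm_num)]
    apply le_sqrt_of_sq_le
    have h4 : A ^ 2 / (1 - r ^ 2) = (|A| / c) ^ 2 := by
      rw [div_pow, hs2, sq_abs]
    rw [h4]
    nlinarith [sq_nonneg (|A| / c - |B|), sq_abs B]
  calc 4 * (|A| / c + |B|) ≤ 4 * (√2 * √(A ^ 2 / (1 - r ^ 2) + B ^ 2)) := by linarith
    _ = _ := by ring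

/-- bound of the derivative on the sphere -/
theorem dX_sph {f h : ℝ → ℝ} {D : ℝ} (hf : Ef f) (hm : Measurable h) (hD : 0 ≤ D)
    (hh : ∀ t, |h t| ≤ D) :
    dX1 f h ^ 2 + dX2 f h ^ 2 + (X1 f * dX1 f h + X2 f * dX2 f h) ^ 2 / (1 - X1 f ^ 2 - X2 f ^ 2)
      ≤ (7 * D) ^ 2 := by
  have hlt := X_lt hf
  have h1 := quad_ge hlt hf (X_G1 hf) (X_G2 hf) (dX1 f h) (dX2 f h)
  have h2 := dX_spec hf h
  have h3 := int_abs_lin hlt (dX1 f h) (dX2 f h)
  set x := X1 f with hx
  set y := X2 f with hy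
  set a := dX1 f h with ha
  set b := dX2 f h with hb
  set N := a ^ 2 + b ^ 2 + (x * a + y * b) ^ 2 / (1 - x ^ 2 - y ^ 2) with hN
  have hc0 : 0 < 1 - x ^ 2 - y ^ 2 := by linarith
  have hN0 : 0 ≤ N := by positivity
  set c := √(1 - x ^ 2 - y ^ 2) with hc
  have hcp : 0 < c := sqrt_pos.2 hc0
  have h4 : H11 x y f * a ^ 2 + 2 * H12 x y f * a * b + H22 x y f * b ^ 2
      = a * E1 x y h + b * E2 x y h := by
    rw [← h2.1, ← h2.2]
    ring
  have ck : Continuous fun t => ker (pr x y t) := cont_ker_pr hlt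
  have h5 : a * E1 x y h + b * E2 x y h
      ≤ D * ∫ t in (0 : ℝ)..(2 * π), |a * cos t + b * sin t| * ker (pr x y t) := by
    unfold E1 E2
    rw [← intervalIntegral.integral_const_mul, ← intervalIntegral.integral_const_mul,
      ← intervalIntegral.integral_const_mul, ← intervalIntegral.integral_add]
    · refine intervalIntegral.integral_mono_on (by positivity) ?_ ?_ fun t _ => ?_
      · exact ((ii_mul (continuous_cos.mul ck) hm hh _ _).const_mul a).add
          ((ii_mul (continuous_sin.mul ck) hm hh _ _).const_mul b)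
      · exact (continuous_const.mul ((by fun_prop : Continuous fun t : ℝ =>
          |a * cos t + b * sin t|).mul ck)).intervalIntegrable _ _
      · have hk := (ker_pos (F54B.pr_sq_lt hlt t)).le
        have e : a * (cos t * ker (pr x y t) * h t) + b * (sin t * ker (pr x y t) * h t)
            = ((a * cos t + b * sin t) * h t) * ker (pr x y t) := by ring
        rw [e]
        have h6 : (a * cos t + b * sin t) * h t ≤ |a * cos t + b * sin t| * D := by
          refine (le_abs_self _).trans ?_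
          rw [abs_mul]
          exact mul_le_mul_of_nonneg_left (hh t) (abs_nonneg _)
        calc ((a * cos t + b * sin t) * h t) * ker (pr x y t)
            ≤ (|a * cos t + b * sin t| * D) * ker (pr x y t) := mul_le_mul_of_nonneg_right h6 hk
          _ = _ := by ring
    · exact (ii_mul (continuous_cos.mul ck) hm hh _ _).const_mul a
    · exact (ii_mul (continuous_sin.mul ck) hm hh _ _).const_mul b
  have h7 : 29 / 100 * π * N ≤ D * (4 * √2 * √N) := by
    calc 29 / 100 * π * N ≤ c * (H11 x y f * a ^ 2 + 2 * H12 x y f * a * b + H22 x y f * b ^ 2) := h1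
      _ = c * (a * E1 x y h + b * E2 x y h) := by rw [h4]
      _ ≤ c * (D * ∫ t in (0 : ℝ)..(2 * π), |a * cos t + b * sin t| * ker (pr x y t)) :=
          mul_le_mul_of_nonneg_left h5 hcp.le
      _ = D * (c * ∫ t in (0 : ℝ)..(2 * π), |a * cos t + b * sin t| * ker (pr x y t)) := by ring
      _ ≤ D * (4 * √2 * √N) := mul_le_mul_of_nonneg_left h3 hD
  have hs2 : √N ^ 2 = N := sq_sqrt hN0
  have hsn : 0 ≤ √N := sqrt_nonneg _
  have h8 : √2 < 1.4143 := by
    rw [sqrt_lt' (by norm_num)]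
    norm_num
  have h9 : √N ≤ 7 * D := by
    by_contra hcon
    push Not at hcon
    have h10 : 0 < √N := lt_of_le_of_lt (by positivity) hcon
    have h11 : 29 / 100 * π * √N ≤ D * (4 * √2) := by
      have : 29 / 100 * π * √N * √N ≤ D * (4 * √2) * √N := by
        calc 29 / 100 * π * √N * √N = 29 / 100 * π * N := by
              rw [mul_assoc (29 / 100 * π), mul_self_sqrt hN0]
          _ ≤ D * (4 * √2 * √N) := h7
          _ = _ := by ring
      exact le_of_mul_le_mul_right this h10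
    have h12 : D * (4 * √2) ≤ D * 5.6572 := mul_le_mul_of_nonneg_left (by linarith) hD
    have h13 : (29 / 100 * 3.14) * √N ≤ 29 / 100 * π * √N :=
      mul_le_mul_of_nonneg_right (by nlinarith [pi_gt_d2]) hsn
    nlinarith
  calc N = √N ^ 2 := hs2.symm
    _ ≤ (7 * D) ^ 2 := pow_le_pow_left₀ hsn h9 2

theorem fn_X1 : Fn X1 dX1 where
  tds := fun _ _ _ h1 h2 h3 => (X_tendsto h1 h2 h3).1
  der := fun _ _ _ _ hc _ he => (X_der hc he).1

theorem fn_X2 : Fn X2 dX2 where
  tds := fun _ _ _ h1 h2 h3 => (X_tendsto h1 h2 h3).2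
  der := fun _ _ _ _ hc _ he => (X_der hc he).2

/-- **helper54's map is a universal map** -/
theorem umap : UMap X1 X2 dX1 dX2 3 7 where
  fX := fn_X1
  fY := fn_X2
  disc := fun _ hf => X_lt hf
  negX := fun _ hf => (X_neg hf).1
  negY := fun _ hf => (X_neg hf).2
  K0 := by norm_num
  L0 := by norm_num
  bdry := fun _ hf _ _ hup hlo => F54B.bdry hf hup hlo (X_lt hf) (X_G1 hf) (X_G2 hf)
  bd := fun f h D hf hm hD hh => by
    have h1 := dX_sph hf hm hD hh
    have h2 : 0 < 1 - X1 f ^ 2 - X2 f ^ 2 := by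
      have := X_lt hf
      linarith
    calc (1 - X1 f ^ 2 - X2 f ^ 2) * (dX1 f h ^ 2 + dX2 f h ^ 2)
          + (X1 f * dX1 f h + X2 f * dX2 f h) ^ 2
        = (1 - X1 f ^ 2 - X2 f ^ 2) * (dX1 f h ^ 2 + dX2 f h ^ 2
          + (X1 f * dX1 f h + X2 f * dX2 f h) ^ 2 / (1 - X1 f ^ 2 - X2 f ^ 2)) := by
          field_simp
      _ ≤ _ := mul_le_mul_of_nonneg_left h1 h2.le

end Pool.Agent.FPX.F54
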