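import Mathlib
import Pool.Agent.FPX.F54I
import Pool.Agent.FPX.C54A

/-
F54F (helper8): the functionals `(1/π) ∫ Φ(f - f^Y) K_n dt` of the smooth frame, at `Y = F54 f`, are
functionals in the sense of `UXA.Fn`: continuous, differentiable along curves, with bounded derivative.
-/

open MeasureTheory Set Filter Topology
open scoped ENNReal NNReal ComplexConjugate

noncomputable section

namespace Pool.Agent.FPX.F54

open Real Pool.Agent.FPX.UMP Pool.Agent.FPX.UMQ Pool.Agent.FPX.KNT Pool.Agent.FPX.UXA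
open Pool.Agent.FPX.C54 (ce wt EE KK Cm Lm vv Lam der_KK ce_pos ce_sq wt_pos wt_sq)

/-! ### regularity of `K_n` in the point of the disc -/

theorem diff_ce {X : ℝ × ℝ} (h : X ∈ DD) : DifferentiableAt ℝ (fun X : ℝ × ℝ => ce X.1 X.2) X := by
  have h' : X.1 ^ 2 + X.2 ^ 2 < 1 := h
  unfold ce
  exact DifferentiableAt.sqrt (by fun_prop) (by linarith)

theorem diff_wt {X : ℝ × ℝ} (h : X ∈ DD) (t : ℝ) :
    DifferentiableAt ℝ (fun X : ℝ × ℝ => wt X.1 X.2 t) X := by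
  unfold wt pr
  have h1 : (X.1 * cos t + X.2 * sin t) ^ 2 < 1 := pr_sq_lt h t
  exact DifferentiableAt.sqrt (by fun_prop) (by linarith)

theorem diff_div {R : Type*} [NormedField R] [NormedAlgebra ℝ R] {g d : ℝ × ℝ → R} {X : ℝ × ℝ}
    (hg : DifferentiableAt ℝ g X) (hd : DifferentiableAt ℝ d X) (h : d X ≠ 0) :
    DifferentiableAt ℝ (fun X => g X / d X) X := by
  simp only [div_eq_mul_inv]
  exact hg.mul (hd.fun_inv h)

theorem diff_ofReal {g : ℝ × ℝ → ℝ} {X : ℝ × ℝ} (h : DifferentiableAt ℝ g X) :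
    DifferentiableAt ℝ (fun X => (g X : ℂ)) X :=
  Complex.ofRealCLM.differentiableAt.comp X h

theorem EEq_mk (x y t : ℝ) : EE x y t = ((cos t - pr x y t * x / (1 + ce x y) : ℝ) : ℂ)
    + ((sin t - pr x y t * y / (1 + ce x y) : ℝ) : ℂ) * Complex.I := by
  unfold EE
  exact Complex.mk_eq_add_mul_I _ _

theorem diff_EE {X : ℝ × ℝ} (h : X ∈ DD) (t : ℝ) :
    DifferentiableAt ℝ (fun X : ℝ × ℝ => EE X.1 X.2 t) X := by
  have hc := ce_pos (x := X.1) (y := X.2) h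
  have d1 := diff_ce h
  have d2 : DifferentiableAt ℝ (fun X : ℝ × ℝ => pr X.1 X.2 t) X := by
    unfold pr
    fun_prop
  have d3 : DifferentiableAt ℝ (fun X : ℝ × ℝ => X.1) X := by fun_prop
  have d4 : DifferentiableAt ℝ (fun X : ℝ × ℝ => X.2) X := by fun_prop
  simp only [EEq_mk]
  refine (diff_ofReal ?_).add ((diff_ofReal ?_).mul_const _)
  · exact (differentiableAt_const _).sub (diff_div (d2.mul d3) ((differentiableAt_const _).add d1)
      (by positivity))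
  · exact (differentiableAt_const _).sub (diff_div (d2.mul d4) ((differentiableAt_const _).add d1)
      (by positivity))

theorem diff_KK {X : ℝ × ℝ} (h : X ∈ DD) (n : ℕ) (t : ℝ) :
    DifferentiableAt ℝ (fun X : ℝ × ℝ => KK n X.1 X.2 t) X := by
  unfold KK
  have hw : (wt X.1 X.2 t : ℂ) ≠ 0 := by exact_mod_cast (wt_pos (x := X.1) (y := X.2) h t).ne'
  exact diff_div ((diff_ofReal (diff_ce h)).mul ((diff_EE h t).fun_pow n))
    ((diff_ofReal (diff_wt h t)).fun_pow (n + 2)) (pow_ne_zero _ hw)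

theorem fderiv_KK {X : ℝ × ℝ} (h : X ∈ DD) (n : ℕ) (t : ℝ) (v : ℝ × ℝ) :
    fderiv ℝ (fun X : ℝ × ℝ => KK n X.1 X.2 t) X v
      = KK n X.1 X.2 t * Lam n X.1 X.2 v.1 v.2 t := by
  have h1 := (diff_KK h n t).hasFDerivAt
  have h2 : HasDerivAt (fun s : ℝ => X + s • v) v 0 := by
    have := ((hasDerivAt_id (0 : ℝ)).smul_const v).const_add X
    simpa using this
  have h3 := HasFDerivAt.comp_hasDerivAt_of_eq (0 : ℝ) h1 h2 (by simp)
  have h4 : HasDerivAt (fun s : ℝ => (X.1 + s * v.1)) v.1 0 := by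
    simpa using ((hasDerivAt_id (0 : ℝ)).mul_const v.1).const_add X.1
  have h5 : HasDerivAt (fun s : ℝ => (X.2 + s * v.2)) v.2 0 := by
    simpa using ((hasDerivAt_id (0 : ℝ)).mul_const v.2).const_add X.2
  have h' : X.1 ^ 2 + X.2 ^ 2 < 1 := h
  have h6 := der_KK h4 h5 (by simpa using h') n t
  simp only [zero_mul, add_zero] at h6
  exact h3.unique h6

/-! ### continuity -/

theorem cont_ce {q : (ℝ × ℝ) × ℝ × ℝ} : ContinuousAt (fun q : (ℝ × ℝ) × ℝ × ℝ => ce q.1.1 q.1.2) q := by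
  have : Continuous (fun q : (ℝ × ℝ) × ℝ × ℝ => ce q.1.1 q.1.2) := by
    unfold ce
    fun_prop
  exact this.continuousAt

theorem contq_wt {q : (ℝ × ℝ) × ℝ × ℝ} :
    ContinuousAt (fun q : (ℝ × ℝ) × ℝ × ℝ => wt q.1.1 q.1.2 q.2.1) q := by
  have : Continuous (fun q : (ℝ × ℝ) × ℝ × ℝ => wt q.1.1 q.1.2 q.2.1) := by
    unfold wt pr
    fun_prop
  exact this.continuousAt

theorem cont_ofReal {g : (ℝ × ℝ) × ℝ × ℝ → ℝ} {q : (ℝ × ℝ) × ℝ × ℝ} (h : ContinuousAt g q) :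
    ContinuousAt (fun q => (g q : ℂ)) q := Complex.continuous_ofReal.continuousAt.comp h

theorem contq_EE {q : (ℝ × ℝ) × ℝ × ℝ} (h : q.1 ∈ DD) :
    ContinuousAt (fun q : (ℝ × ℝ) × ℝ × ℝ => EE q.1.1 q.1.2 q.2.1) q := by
  have hc := ce_pos (x := q.1.1) (y := q.1.2) h
  have c1 := cont_ce (q := q)
  have c2 : ContinuousAt (fun q : (ℝ × ℝ) × ℝ × ℝ => pr q.1.1 q.1.2 q.2.1) q := by
    unfold pr
    fun_prop
  have c3 : ContinuousAt (fun q : (ℝ × ℝ) × ℝ × ℝ => q.1.1) q := by fun_prop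
  have c4 : ContinuousAt (fun q : (ℝ × ℝ) × ℝ × ℝ => q.1.2) q := by fun_prop
  have c5 : ContinuousAt (fun q : (ℝ × ℝ) × ℝ × ℝ => cos q.2.1) q := by fun_prop
  have c6 : ContinuousAt (fun q : (ℝ × ℝ) × ℝ × ℝ => sin q.2.1) q := by fun_prop
  simp only [EEq_mk]
  refine (cont_ofReal ?_).add ((cont_ofReal ?_).mul continuousAt_const)
  · exact c5.sub ((c2.mul c3).div (continuousAt_const.add c1) (by positivity))
  · exact c6.sub ((c2.mul c4).div (continuousAt_const.add c1) (by positivity))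

theorem contq_KK {q : (ℝ × ℝ) × ℝ × ℝ} (h : q.1 ∈ DD) (n : ℕ) :
    ContinuousAt (fun q : (ℝ × ℝ) × ℝ × ℝ => KK n q.1.1 q.1.2 q.2.1) q := by
  unfold KK
  have hw : (wt q.1.1 q.1.2 q.2.1 : ℂ) ≠ 0 := by
    exact_mod_cast (wt_pos (x := q.1.1) (y := q.1.2) h q.2.1).ne'
  exact ((cont_ofReal cont_ce).mul ((contq_EE h).pow n)).div ((cont_ofReal contq_wt).pow (n + 2))
    (pow_ne_zero _ hw)

theorem cont_Lam {q : (ℝ × ℝ) × ℝ × ℝ} (h : q.1 ∈ DD) (n : ℕ) (a b : ℝ) :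
    ContinuousAt (fun q : (ℝ × ℝ) × ℝ × ℝ => Lam n q.1.1 q.1.2 a b q.2.1) q := by
  have hc := ce_pos (x := q.1.1) (y := q.1.2) h
  have hcC : (ce q.1.1 q.1.2 : ℂ) ≠ 0 := by exact_mod_cast hc.ne'
  have hcC1 : (1 + ce q.1.1 q.1.2 : ℂ) ≠ 0 := by
    have : (1 + ce q.1.1 q.1.2 : ℝ) ≠ 0 := by positivity
    exact_mod_cast this
  have hw : (wt q.1.1 q.1.2 q.2.1 : ℂ) ≠ 0 := by
    exact_mod_cast (wt_pos (x := q.1.1) (y := q.1.2) h q.2.1).ne'
  have c0 := cont_ofReal (cont_ce (q := q))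
  have c1 := cont_ofReal (contq_wt (q := q))
  have c2 := contq_EE h
  have c3 : ContinuousAt (fun q : (ℝ × ℝ) × ℝ × ℝ => (⟨q.1.1, q.1.2⟩ : ℂ)) q := by
    have e : (fun q : (ℝ × ℝ) × ℝ × ℝ => (⟨q.1.1, q.1.2⟩ : ℂ))
        = fun q : (ℝ × ℝ) × ℝ × ℝ => (q.1.1 : ℂ) + (q.1.2 : ℂ) * Complex.I := by
      funext q
      exact Complex.mk_eq_add_mul_I _ _
    rw [e]
    fun_prop
  have c4 : ContinuousAt (fun q : (ℝ × ℝ) × ℝ × ℝ => vv q.1.1 q.1.2 a b) q := by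
    have e : (fun q : (ℝ × ℝ) × ℝ × ℝ => vv q.1.1 q.1.2 a b)
        = fun q : (ℝ × ℝ) × ℝ × ℝ =>
          ((a + q.1.1 * (q.1.1 * a + q.1.2 * b) / (ce q.1.1 q.1.2 * (1 + ce q.1.1 q.1.2)) : ℝ) : ℂ)
          + ((b + q.1.2 * (q.1.1 * a + q.1.2 * b) / (ce q.1.1 q.1.2 * (1 + ce q.1.1 q.1.2)) : ℝ) : ℂ)
            * Complex.I := by
      funext q
      exact Complex.mk_eq_add_mul_I _ _
    rw [e]
    have d0 := cont_ce (q := q)
    have d1 : ContinuousAt (fun q : (ℝ × ℝ) × ℝ × ℝ => q.1.1) q := by fun_prop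
    have d2 : ContinuousAt (fun q : (ℝ × ℝ) × ℝ × ℝ => q.1.2) q := by fun_prop
    refine (cont_ofReal ?_).add ((cont_ofReal ?_).mul continuousAt_const)
    · exact continuousAt_const.add ((d1.mul ((d1.mul continuousAt_const).add
        (d2.mul continuousAt_const))).div (d0.mul (continuousAt_const.add d0)) (by positivity))
    · exact continuousAt_const.add ((d2.mul ((d1.mul continuousAt_const).add
        (d2.mul continuousAt_const))).div (d0.mul (continuousAt_const.add d0)) (by positivity))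
  have c5 : ContinuousAt (fun q : (ℝ × ℝ) × ℝ × ℝ => ((q.1.1 : ℂ) * b - (q.1.2 : ℂ) * a)) q := by
    fun_prop
  unfold Lam
  have hconj : ∀ {g : (ℝ × ℝ) × ℝ × ℝ → ℂ}, ContinuousAt g q → ContinuousAt (fun q => conj (g q)) q :=
    fun hg => Complex.continuous_conj.continuousAt.comp hg
  refine ContinuousAt.add (ContinuousAt.sub ?_ ?_) ?_
  · exact ((continuousAt_const.div (continuousAt_const.mul c0) (by simpa using hcC)).mul
      ((hconj c3).mul (hconj c4))).mul ((c2.pow 2).div (c1.pow 2) (pow_ne_zero _ hw))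
  · exact ((continuousAt_const.div (continuousAt_const.mul c0) (by simpa using hcC)).mul
      (c3.mul c4)).mul (((hconj c2).pow 2).div (c1.pow 2) (pow_ne_zero _ hw))
  · refine ContinuousAt.div ?_ ((continuousAt_const.mul c0).mul (continuousAt_const.add c0)) ?_
    · exact (continuousAt_const.mul c5).mul (c0.sub continuousAt_const)
    · simp [hcC, hcC1]

/-! ### the kernels -/

section kernels

variable (Φ Φ' : ℝ → ℝ) (n : ℕ) (ρ : ℂ →L[ℝ] ℝ)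

/-- the complex kernel -/
def kc (X : ℝ × ℝ) (t a : ℝ) : ℂ := ((Φ (a - arcsin (pr X.1 X.2 t)) : ℝ) : ℂ) * KK n X.1 X.2 t

/-- its derivative in the direction `v` of the disc -/
def kv (v X : ℝ × ℝ) (t a : ℝ) : ℂ :=
  ((-(Φ' (a - arcsin (pr X.1 X.2 t)) * (pr v.1 v.2 t / wt X.1 X.2 t)) : ℝ) : ℂ) * KK n X.1 X.2 t
    + ((Φ (a - arcsin (pr X.1 X.2 t)) : ℝ) : ℂ) * (KK n X.1 X.2 t * Lam n X.1 X.2 v.1 v.2 t)

/-- its derivative in the value of the function -/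
def ka (X : ℝ × ℝ) (t a : ℝ) : ℂ := ((Φ' (a - arcsin (pr X.1 X.2 t)) : ℝ) : ℂ) * KK n X.1 X.2 t

variable {Φ Φ' n}

theorem cont_as {q : (ℝ × ℝ) × ℝ × ℝ} :
    ContinuousAt (fun q : (ℝ × ℝ) × ℝ × ℝ => q.2.2 - arcsin (pr q.1.1 q.1.2 q.2.1)) q := by
  have : Continuous (fun q : (ℝ × ℝ) × ℝ × ℝ => q.2.2 - arcsin (pr q.1.1 q.1.2 q.2.1)) := by
    refine (by fun_prop : Continuous fun q : (ℝ × ℝ) × ℝ × ℝ => q.2.2).sub ?_
    refine Real.continuous_arcsin.comp ?_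
    unfold pr
    fun_prop
  exact this.continuousAt

theorem cont_kc (hΦ : Continuous Φ) {q : (ℝ × ℝ) × ℝ × ℝ} (h : q.1 ∈ DD) :
    ContinuousAt (fun q : (ℝ × ℝ) × ℝ × ℝ => kc Φ n q.1 q.2.1 q.2.2) q := by
  unfold kc
  exact (cont_ofReal (hΦ.continuousAt.comp cont_as)).mul (contq_KK h n)

theorem cont_kv (hΦ : Continuous Φ) (hΦ' : Continuous Φ') (v : ℝ × ℝ) {q : (ℝ × ℝ) × ℝ × ℝ}
    (h : q.1 ∈ DD) :
    ContinuousAt (fun q : (ℝ × ℝ) × ℝ × ℝ => kv Φ Φ' n v q.1 q.2.1 q.2.2) q := by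
  unfold kv
  have hw : wt q.1.1 q.1.2 q.2.1 ≠ 0 := (wt_pos (x := q.1.1) (y := q.1.2) h q.2.1).ne'
  have c1 : ContinuousAt (fun q : (ℝ × ℝ) × ℝ × ℝ => pr v.1 v.2 q.2.1) q := by
    unfold pr
    fun_prop
  refine ContinuousAt.add ?_ ?_
  · exact (cont_ofReal (((hΦ'.continuousAt.comp cont_as).mul (c1.div contq_wt hw)).neg)).mul
      (contq_KK h n)
  · exact (cont_ofReal (hΦ.continuousAt.comp cont_as)).mul ((contq_KK h n).mul (cont_Lam h n _ _))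

theorem hasFDerivAt_kc (hΦ : ∀ a, HasDerivAt Φ (Φ' a) a) {X : ℝ × ℝ} (hX : X ∈ DD) (t a : ℝ) :
    ∃ L : (ℝ × ℝ) × ℝ →L[ℝ] ℂ, HasFDerivAt (fun q : (ℝ × ℝ) × ℝ => kc Φ n q.1 t q.2) L (X, a) ∧
      ∀ v : (ℝ × ℝ) × ℝ, L v = kv Φ Φ' n v.1 X t a + v.2 • ka Φ' n X t a := by
  have hX' : X.1 ^ 2 + X.2 ^ 2 < 1 := hX
  set P : ℝ × ℝ →L[ℝ] ℝ := cos t • ContinuousLinearMap.fst ℝ ℝ ℝ + sin t • ContinuousLinearMap.snd ℝ ℝ ℝ
    with hP
  have hp : HasFDerivAt (fun X : ℝ × ℝ => pr X.1 X.2 t) P X := by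
    have e : (fun X : ℝ × ℝ => pr X.1 X.2 t) = ⇑P := by
      funext X
      simp [hP, pr]
      ring
    rw [e]
    exact P.hasFDerivAt
  have f1 : HasFDerivAt (Prod.fst : (ℝ × ℝ) × ℝ → ℝ × ℝ) (ContinuousLinearMap.fst ℝ (ℝ × ℝ) ℝ) (X, a) :=
    hasFDerivAt_fst
  have f2 : HasFDerivAt (Prod.snd : (ℝ × ℝ) × ℝ → ℝ) (ContinuousLinearMap.snd ℝ (ℝ × ℝ) ℝ) (X, a) :=
    hasFDerivAt_snd
  have h1 : HasFDerivAt (fun q : (ℝ × ℝ) × ℝ => arcsin (pr q.1.1 q.1.2 t))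
      ((1 / wd (pr X.1 X.2 t)) • P.comp (ContinuousLinearMap.fst ℝ (ℝ × ℝ) ℝ)) (X, a) := by
    have h2 := HasFDerivAt.comp (X, a) (g := fun X : ℝ × ℝ => pr X.1 X.2 t) hp f1
    exact HasDerivAt.comp_hasFDerivAt (X, a) (h₂ := arcsin) (hasDerivAt_as (pr_sq_lt hX t)) h2
  have h2 := f2.fun_sub h1
  have h3 : HasFDerivAt (fun q : (ℝ × ℝ) × ℝ => Φ (q.2 - arcsin (pr q.1.1 q.1.2 t)))
      (Φ' (a - arcsin (pr X.1 X.2 t)) • (ContinuousLinearMap.snd ℝ (ℝ × ℝ) ℝ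
        - (1 / wd (pr X.1 X.2 t)) • P.comp (ContinuousLinearMap.fst ℝ (ℝ × ℝ) ℝ))) (X, a) :=
    HasDerivAt.comp_hasFDerivAt (X, a) (h₂ := Φ) (hΦ _) h2
  have h4 := HasFDerivAt.comp (X, a) (g := fun x : ℝ => (x : ℂ)) Complex.ofRealCLM.hasFDerivAt h3
  have h5 := HasFDerivAt.comp (X, a) (g := fun X : ℝ × ℝ => KK n X.1 X.2 t)
    (diff_KK hX n t).hasFDerivAt f1
  have h6 := h4.mul h5
  refine ⟨_, h6, fun v => ?_⟩
  simp only [Function.comp_apply, add_apply, smul_apply, ContinuousLinearMap.comp_apply,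
    ContinuousLinearMap.coe_fst', fderiv_KK hX, sub_apply, ContinuousLinearMap.coe_snd',
    Complex.ofRealCLM_apply, smul_eq_mul, kv, ka, hP, Complex.real_smul]
  have e : wt X.1 X.2 t = wd (pr X.1 X.2 t) := rfl
  rw [e]
  unfold pr
  push_cast
  ring

theorem Lam_zero (x y t : ℝ) : Lam n x y 0 0 t = 0 := by
  have h0 : (⟨(0 : ℝ), (0 : ℝ)⟩ : ℂ) = 0 := rfl
  simp [Lam, vv, h0]

theorem kv_zero {X : ℝ × ℝ} {t a : ℝ} : kv Φ Φ' n 0 X t a = 0 := by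
  simp [kv, pr, Lam_zero]

theorem Lam_lin (x y a b t : ℝ) : Lam n x y a b t = a * Lam n x y 1 0 t + b * Lam n x y 0 1 t := by
  have h1 : vv x y a b = a * vv x y 1 0 + b * vv x y 0 1 := by
    apply Complex.ext <;> simp [vv] <;> ring
  unfold Lam
  rw [h1]
  simp only [map_add, map_mul, Complex.conj_ofReal]
  push_cast
  ring

theorem kv_lin (v : ℝ × ℝ) (X : ℝ × ℝ) (t a : ℝ) :
    kv Φ Φ' n v X t a = v.1 * kv Φ Φ' n (1, 0) X t a + v.2 * kv Φ Φ' n (0, 1) X t a := by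
  unfold kv
  rw [Lam_lin X.1 X.2 v.1 v.2]
  simp only [pr]
  push_cast
  ring

/-- the real kernels form a kernel in the sense of `KNT.Ker` -/
theorem ker_kc (hΦ : ∀ a, HasDerivAt Φ (Φ' a) a) (hΦ' : Continuous Φ') :
    Ker (fun X t a => ρ (kc Φ n X t a)) (fun X t a => ρ (kv Φ Φ' n (1, 0) X t a))
      (fun X t a => ρ (kv Φ Φ' n (0, 1) X t a)) (fun X t a => ρ (ka Φ' n X t a)) DD := by
  have hc : Continuous Φ := continuous_iff_continuousAt.2 fun a => (hΦ a).continuousAt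
  refine ⟨isOpen_DD, ?_, ?_, ?_, ?_, ?_⟩
  · intro X hX t a _
    obtain ⟨L, hL, hLv⟩ := hasFDerivAt_kc (n := n) hΦ hX t a
    have h1 := ρ.hasFDerivAt.comp (X, a) hL
    refine h1.congr_fderiv ?_
    have e0 : kv Φ Φ' n 0 X t a = 0 := kv_zero
    ext
    · simp [hLv]
    · simp [hLv]
    · simp [hLv, e0]
  · intro X hX t a _
    exact ρ.continuous.continuousAt.comp (cont_kc hc (q := (X, t, a)) hX)
  · intro X hX t a _
    exact ρ.continuous.continuousAt.comp (cont_kv hc hΦ' _ (q := (X, t, a)) hX)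
  · intro X hX t a _
    exact ρ.continuous.continuousAt.comp (cont_kv hc hΦ' _ (q := (X, t, a)) hX)
  · intro X hX t a _
    exact ρ.continuous.continuousAt.comp (cont_kc hΦ' (q := (X, t, a)) hX)

end kernels

/-! ### the functionals -/

/-- `(1/π) ∫ Φ(f - f^Y) K_n dt` at `Y = F54 f` -/
def MM (Φ : ℝ → ℝ) (n : ℕ) (f : ℝ → ℝ) : ℂ :=
  (1 / π : ℝ) * ∫ t in (0 : ℝ)..(2 * π),
    ((Φ (f t - arcsin (pr (X1 f) (X2 f) t)) : ℝ) : ℂ) * KK n (X1 f) (X2 f) t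

/-- its derivative in the direction `h` -/
def dMM (Φ Φ' : ℝ → ℝ) (n : ℕ) (f h : ℝ → ℝ) : ℂ :=
  (1 / π : ℝ) * ∫ t in (0 : ℝ)..(2 * π),
    (((Φ' (f t - arcsin (pr (X1 f) (X2 f) t)) *
        (h t - pr (dX1 f h) (dX2 f h) t / wt (X1 f) (X2 f) t) : ℝ) : ℂ) * KK n (X1 f) (X2 f) t
      + ((Φ (f t - arcsin (pr (X1 f) (X2 f) t)) : ℝ) : ℂ) *
        (KK n (X1 f) (X2 f) t * Lam n (X1 f) (X2 f) (dX1 f h) (dX2 f h) t))

theorem MM_id (n : ℕ) (f : ℝ → ℝ) : MM (fun a => a) n f = Cm n (X1 f) (X2 f) f := rfl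

section functionals

variable {Φ Φ' : ℝ → ℝ} {n : ℕ}

theorem Zmem {f : ℝ → ℝ} (hf : Ef f) : ZZ FK DD f ∈ DD := X_lt hf

theorem cont_t {g : (ℝ × ℝ) × ℝ × ℝ → ℂ} {f : ℝ → ℝ} (hf : Ef f)
    (h : ∀ t, ContinuousAt g (ZZ FK DD f, t, f t)) : Continuous fun t => g (ZZ FK DD f, t, f t) := by
  refine continuous_iff_continuousAt.2 fun t => ?_
  have h1 : ContinuousAt (fun t : ℝ => (ZZ FK DD f, t, f t)) t :=
    continuousAt_const.prodMk (continuousAt_id.prodMk hf.cont.continuousAt)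
  exact ContinuousAt.comp (f := fun t : ℝ => (ZZ FK DD f, t, f t)) (h t) h1

theorem int_rho (ρ : ℂ →L[ℝ] ℝ) {g : ℝ → ℂ} {a b : ℝ} (hg : IntervalIntegrable g volume a b) :
    ρ (∫ t in a..b, g t) = ∫ t in a..b, ρ (g t) :=
  (ρ.intervalIntegral_comp_comm hg).symm

theorem rho_real (ρ : ℂ →L[ℝ] ℝ) (r : ℝ) (z : ℂ) : ρ ((r : ℂ) * z) = r * ρ z := by
  rw [← Complex.real_smul, map_smul, smul_eq_mul]

theorem MM_rho (ρ : ℂ →L[ℝ] ℝ) (hΦ : Continuous Φ) {f : ℝ → ℝ} (hf : Ef f) :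
    ρ (MM Φ n f) = (1 / π) * ∫ t in (0 : ℝ)..(2 * π), ρ (kc Φ n (ZZ FK DD f) t (f t)) := by
  have hc : Continuous fun t => kc Φ n (ZZ FK DD f) t (f t) :=
    cont_t (g := fun q => kc Φ n q.1 q.2.1 q.2.2) hf fun t => cont_kc hΦ (q := (ZZ FK DD f, t, f t)) (Zmem hf)
  unfold MM
  rw [rho_real]
  congr 1
  exact int_rho ρ (hc.intervalIntegrable _ _)

theorem ii_mul_c {g : ℝ → ℂ} {h : ℝ → ℝ} (hg : Continuous g) (hh : Measurable h) {D : ℝ}
    (hD : ∀ t, |h t| ≤ D) (a b : ℝ) :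
    IntervalIntegrable (fun t => (h t : ℂ) * g t) volume a b := by
  have h1 : IntervalIntegrable g volume a b := hg.intervalIntegrable a b
  have hm : Measurable fun t => (h t : ℂ) := Complex.measurable_ofReal.comp hh
  have hn : ∀ t, ‖(h t : ℂ)‖ ≤ D := fun t => by
    rw [Complex.norm_real]
    exact hD t
  exact ⟨h1.1.bdd_mul (c := D) hm.aestronglyMeasurable (Eventually.of_forall fun t => hn t),
    h1.2.bdd_mul (c := D) hm.aestronglyMeasurable (Eventually.of_forall fun t => hn t)⟩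

theorem dMM_rho (ρ : ℂ →L[ℝ] ℝ) (hΦ : Continuous Φ) (hΦ' : Continuous Φ') {f h : ℝ → ℝ} (hf : Ef f)
    (hm : Measurable h) {D : ℝ} (hD : ∀ t, |h t| ≤ D) :
    ρ (dMM Φ Φ' n f h) = (1 / π) * ((∫ t in (0 : ℝ)..(2 * π), ρ (ka Φ' n (ZZ FK DD f) t (f t)) * h t)
      + (∫ t in (0 : ℝ)..(2 * π), ρ (kv Φ Φ' n (1, 0) (ZZ FK DD f) t (f t))) * dX1 f h
      + (∫ t in (0 : ℝ)..(2 * π), ρ (kv Φ Φ' n (0, 1) (ZZ FK DD f) t (f t))) * dX2 f h) := by
  set Z := ZZ FK DD f with hZ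
  have hca : Continuous fun t => ka Φ' n Z t (f t) :=
    cont_t (g := fun q => ka Φ' n q.1 q.2.1 q.2.2) hf fun t => cont_kc hΦ' (q := (Z, t, f t)) (Zmem hf)
  have hcv : ∀ v : ℝ × ℝ, Continuous fun t => kv Φ Φ' n v Z t (f t) := fun v =>
    cont_t (g := fun q => kv Φ Φ' n v q.1 q.2.1 q.2.2) hf
      fun t => cont_kv hΦ hΦ' v (q := (Z, t, f t)) (Zmem hf)
  have i1 : IntervalIntegrable (fun t => (h t : ℂ) * ka Φ' n Z t (f t)) volume 0 (2 * π) :=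
    ii_mul_c hca hm hD _ _
  have i2 : IntervalIntegrable (fun t => (dX1 f h : ℂ) * kv Φ Φ' n (1, 0) Z t (f t)) volume 0 (2 * π) :=
    (continuous_const.mul (hcv _)).intervalIntegrable _ _
  have i3 : IntervalIntegrable (fun t => (dX2 f h : ℂ) * kv Φ Φ' n (0, 1) Z t (f t)) volume 0 (2 * π) :=
    (continuous_const.mul (hcv _)).intervalIntegrable _ _
  have e : dMM Φ Φ' n f h = (1 / π : ℝ) * ∫ t in (0 : ℝ)..(2 * π), ((h t : ℂ) * ka Φ' n Z t (f t)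
      + (dX1 f h : ℂ) * kv Φ Φ' n (1, 0) Z t (f t) + (dX2 f h : ℂ) * kv Φ Φ' n (0, 1) Z t (f t)) := by
    unfold dMM
    congr 1
    refine intervalIntegral.integral_congr fun t _ => ?_
    have h1 := kv_lin (Φ := Φ) (Φ' := Φ') (n := n) (dX1 f h, dX2 f h) Z t (f t)
    simp only at h1 ⊢
    rw [add_assoc, ← h1]
    simp only [ka, kv]
    have e1 : Z.1 = X1 f := rfl
    have e2 : Z.2 = X2 f := rfl
    rw [e1, e2]
    push_cast
    ring
  rw [e, rho_real]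
  congr 1
  rw [int_rho ρ ((i1.add i2).add i3)]
  have j1 : IntervalIntegrable (fun t => ρ ((h t : ℂ) * ka Φ' n Z t (f t))) volume 0 (2 * π) :=
    ⟨ρ.integrable_comp i1.1, ρ.integrable_comp i1.2⟩
  have j2 : IntervalIntegrable (fun t => ρ ((dX1 f h : ℂ) * kv Φ Φ' n (1, 0) Z t (f t)))
      volume 0 (2 * π) := ⟨ρ.integrable_comp i2.1, ρ.integrable_comp i2.2⟩
  have j3 : IntervalIntegrable (fun t => ρ ((dX2 f h : ℂ) * kv Φ Φ' n (0, 1) Z t (f t)))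
      volume 0 (2 * π) := ⟨ρ.integrable_comp i3.1, ρ.integrable_comp i3.2⟩
  simp only [map_add]
  rw [intervalIntegral.integral_add (j1.add j2) j3, intervalIntegral.integral_add j1 j2]
  simp only [rho_real]
  rw [intervalIntegral.integral_const_mul, intervalIntegral.integral_const_mul]
  congr 1
  · congr 1
    · refine intervalIntegral.integral_congr fun t _ => ?_
      exact mul_comm _ _
    · ring
  · ring

/-- **the functionals are continuous and differentiable along curves** -/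
theorem fn_MM (ρ : ℂ →L[ℝ] ℝ) (hΦ : ∀ a, HasDerivAt Φ (Φ' a) a) (hΦ' : Continuous Φ') :
    Fn (fun f => ρ (MM Φ n f)) (fun f h => ρ (dMM Φ Φ' n f h)) where
  tds := by
    intro l φ f h1 h2 h3
    have hc : Continuous Φ := continuous_iff_continuousAt.2 fun a => (hΦ a).continuousAt
    have hk := ker_kc (n := n) ρ hΦ hΦ'
    have h4 := KMap.tendsto_fun hk.op (L := fun X t a => ρ (kc Φ n X t a)) hk.cK (Z := ZZ FK DD) h1 h2 h3 (Zmem h2) (kmap.tendsto h1 h2 h3)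
    rw [MM_rho ρ hc h2]
    refine (h4.const_mul (1 / π)).congr' ?_
    filter_upwards [h1] with i hi
    rw [MM_rho ρ hc hi]
  der := by
    intro φ h x b hcr hb he
    have hc : Continuous Φ := continuous_iff_continuousAt.2 fun a => (hΦ a).continuousAt
    have hk := ker_kc (n := n) ρ hΦ hΦ'
    have hz : HasDerivAt (fun s => ZZ FK DD (φ s)) (dX1 (φ x) h, dX2 (φ x) h) x :=
      (X_der hcr he).1.prodMk (X_der hcr he).2
    have h4 := (KMap.der_fun hk (Z := ZZ FK DD) hcr (Zmem hcr.ef) hz).const_mul (1 / π)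
    rw [dMM_rho ρ hc hΦ' hcr.ef hcr.measd hb]
    refine h4.congr_of_eventuallyEq ?_
    filter_upwards [he] with s hs
    rw [MM_rho ρ hc hs]

/-- **their derivatives are bounded** at the functions bounded by `m < π/2` -/
theorem bdd_MM (ρ : ℂ →L[ℝ] ℝ) (hΦ : ∀ a, HasDerivAt Φ (Φ' a) a) (hΦ' : Continuous Φ') {m : ℝ}
    (hm0 : 0 ≤ m) (hm : m < π / 2) :
    ∃ L : ℝ, 0 ≤ L ∧ Bdd (fun f h => ρ (dMM Φ Φ' n f h)) m L := by
  have hc : Continuous Φ := continuous_iff_continuousAt.2 fun a => (hΦ a).continuousAt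
  have hk := ker_kc (n := n) ρ hΦ hΦ'
  obtain ⟨q, hq0, hq1, hq⟩ := X_le hm0 hm
  obtain ⟨Ca, hCa, ha⟩ := bd_on (K := fun X t a => ρ (ka Φ' n X t a)) hk.ca (isCompact_DQ hq1.le) (DQ_sub hq1) hm
  obtain ⟨Cx, hCx, hx⟩ := bd_on (K := fun X t a => ρ (kv Φ Φ' n (1, 0) X t a)) hk.cx (isCompact_DQ hq1.le) (DQ_sub hq1) hm
  obtain ⟨Cy, hCy, hy⟩ := bd_on (K := fun X t a => ρ (kv Φ Φ' n (0, 1) X t a)) hk.cy (isCompact_DQ hq1.le) (DQ_sub hq1) hm
  refine ⟨(1 / π) * (2 * π * Ca + 2 * π * Cx * 7 + 2 * π * Cy * 7), by positivity, ?_⟩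
  intro f h D hf hfm hm' hD hh
  have hZ : ZZ FK DD f ∈ DQ q := hq f hf hfm
  change |ρ (dMM Φ Φ' n f h)| ≤ _
  rw [dMM_rho ρ hc hΦ' hf hm' hh]
  have b1 : |∫ t in (0 : ℝ)..(2 * π), ρ (ka Φ' n (ZZ FK DD f) t (f t)) * h t| ≤ 2 * π * (Ca * D) := by
    refine int_bd fun t ht => ?_
    rw [abs_mul]
    exact mul_le_mul (ha _ hZ t ht _ (hfm t)) (hh t) (abs_nonneg _) hCa
  have b2 : |∫ t in (0 : ℝ)..(2 * π), ρ (kv Φ Φ' n (1, 0) (ZZ FK DD f) t (f t))| ≤ 2 * π * Cx :=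
    int_bd fun t ht => hx _ hZ t ht _ (hfm t)
  have b3 : |∫ t in (0 : ℝ)..(2 * π), ρ (kv Φ Φ' n (0, 1) (ZZ FK DD f) t (f t))| ≤ 2 * π * Cy :=
    int_bd fun t ht => hy _ hZ t ht _ (hfm t)
  have d1 := umap.bX m f h D hf hfm hm' hD hh
  have d2 := umap.bY m f h D hf hfm hm' hD hh
  rw [abs_mul, abs_of_pos (by positivity : (0 : ℝ) < 1 / π), mul_assoc]
  refine mul_le_mul_of_nonneg_left ?_ (by positivity)
  refine (abs_add_le _ _).trans ((add_le_add (abs_add_le _ _) le_rfl).trans ?_)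
  rw [abs_mul, abs_mul]
  have e2 := mul_le_mul b2 d1 (abs_nonneg _) (by positivity)
  have e3 := mul_le_mul b3 d2 (abs_nonneg _) (by positivity)
  nlinarith

end functionals

end Pool.Agent.FPX.F54
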