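import Mathlib
import Pool.Agent.FPX.F54Defs
import Pool.Agent.FPX.UMB

/-
S54 (helper29): moments `M_n[Φ] = (1/π) ∫ Φ(f - arcsin p) K_n dt` in the smooth frame, `n` an
integer, and their exact derivative along curves.
-/

open MeasureTheory Set Filter Topology

noncomputable section

namespace Pool.Agent.FPX.S54

open Real
open Pool.Agent.FPX.F54 (pr)
open Pool.Agent.FPX.UMP (Ef)
open Pool.Agent.FPX.UMQ (Crv)

/-- the vertical coordinate -/
def cc (x y : ℝ) : ℝ := √(1 - x ^ 2 - y ^ 2)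

/-- the horizontal coordinate as a complex number -/
def YY (x y : ℝ) : ℂ := ⟨x, y⟩

/-- the unnormalised direction of `t`, with `|E| = √(1 - p²)` -/
def EE (x y t : ℝ) : ℂ :=
  ⟨cos t - pr x y t * x / (1 + cc x y), sin t - pr x y t * y / (1 + cc x y)⟩

/-- `√(1 - p²)` -/
def wv (x y t : ℝ) : ℝ := √(1 - pr x y t ^ 2)

/-- the kernel `K_n = c E^n / w^(n+2)` -/
def KK (n : ℤ) (x y t : ℝ) : ℂ := ((cc x y / wv x y t ^ 2 : ℝ) : ℂ) * (EE x y t / (wv x y t : ℂ)) ^ n

theorem cc_pos {x y : ℝ} (h : x ^ 2 + y ^ 2 < 1) : 0 < cc x y := sqrt_pos.2 (by linarith)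

theorem cc_sq {x y : ℝ} (h : x ^ 2 + y ^ 2 < 1) : cc x y ^ 2 = 1 - x ^ 2 - y ^ 2 :=
  sq_sqrt (by linarith)

theorem pr_sq {x y : ℝ} (t : ℝ) : pr x y t ^ 2 ≤ x ^ 2 + y ^ 2 := by
  unfold pr
  nlinarith [sin_sq_add_cos_sq t, sq_nonneg (x * sin t - y * cos t)]

theorem one_sub_pr {x y : ℝ} (h : x ^ 2 + y ^ 2 < 1) (t : ℝ) : 0 < 1 - pr x y t ^ 2 := by
  have := pr_sq (x := x) (y := y) t
  linarith

theorem wv_pos {x y : ℝ} (h : x ^ 2 + y ^ 2 < 1) (t : ℝ) : 0 < wv x y t := sqrt_pos.2 (one_sub_pr h t)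

theorem wv_sq {x y : ℝ} (h : x ^ 2 + y ^ 2 < 1) (t : ℝ) : wv x y t ^ 2 = 1 - pr x y t ^ 2 :=
  sq_sqrt (one_sub_pr h t).le

/-- `|E|² = w²` -/
theorem EE_sq {x y : ℝ} (h : x ^ 2 + y ^ 2 < 1) (t : ℝ) :
    (EE x y t).re ^ 2 + (EE x y t).im ^ 2 = wv x y t ^ 2 := by
  have hc := cc_sq h
  have hc0 := cc_pos h
  rw [wv_sq h]
  unfold EE
  simp only
  have e : x * cos t + y * sin t = pr x y t := rfl
  have e2 := sin_sq_add_cos_sq t
  generalize pr x y t = p at *
  generalize cc x y = c at *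
  have hc1 : 1 + c ≠ 0 := by positivity
  field_simp
  linear_combination (1 + c) ^ 2 * e2 + p ^ 2 * hc + (-2 * p * (1 + c)) * e

theorem EE_conj {x y : ℝ} (h : x ^ 2 + y ^ 2 < 1) (t : ℝ) :
    EE x y t * (starRingEnd ℂ) (EE x y t) = (wv x y t : ℂ) ^ 2 := by
  rw [Complex.mul_conj, Complex.normSq_apply]
  have := EE_sq h t
  rw [← Complex.ofReal_pow, ← this]
  push_cast
  ring

theorem EE_ne {x y : ℝ} (h : x ^ 2 + y ^ 2 < 1) (t : ℝ) : EE x y t ≠ 0 := by
  intro h0
  have h1 := EE_conj h t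
  rw [h0, zero_mul] at h1
  have h2 : (wv x y t : ℂ) ≠ 0 := Complex.ofReal_ne_zero.2 (wv_pos h t).ne'
  exact pow_ne_zero 2 h2 h1.symm

/-- `p = (conj Y E + Y conj E) / (2 c)` -/
theorem pr_eq {x y : ℝ} (h : x ^ 2 + y ^ 2 < 1) (t : ℝ) :
    (starRingEnd ℂ) (YY x y) * EE x y t + YY x y * (starRingEnd ℂ) (EE x y t)
      = ((2 * cc x y * pr x y t : ℝ) : ℂ) := by
  have hc := cc_sq h
  have hc0 := cc_pos h
  have e : x * cos t + y * sin t = pr x y t := rfl
  apply Complex.ext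
  · simp only [YY, EE, Complex.add_re, Complex.mul_re, Complex.conj_re, Complex.conj_im,
      Complex.ofReal_re]
    generalize pr x y t = p at *
    generalize cc x y = c at *
    have hc1 : 1 + c ≠ 0 := by positivity
    field_simp
    linear_combination (2 * (1 + c)) * e + (-2 * p) * hc
  · simp only [YY, EE, Complex.add_im, Complex.mul_im, Complex.conj_re, Complex.conj_im,
      Complex.ofReal_im]
    ring

/-- the velocity in the smooth frame: `v = dY + Y ⟨Y, dY⟩ / (c (1 + c))` -/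
def vt (x y x' y' : ℝ) : ℂ :=
  ⟨x' + x * (x * x' + y * y') / (cc x y * (1 + cc x y)),
    y' + y * (x * x' + y * y') / (cc x y * (1 + cc x y))⟩

/-- `dp = Re (conj E v)` -/
theorem dp_eq {x y : ℝ} (h : x ^ 2 + y ^ 2 < 1) (x' y' t : ℝ) :
    (starRingEnd ℂ) (EE x y t) * vt x y x' y' + EE x y t * (starRingEnd ℂ) (vt x y x' y')
      = ((2 * (x' * cos t + y' * sin t) : ℝ) : ℂ) := by
  have hc := cc_sq h
  have hc0 := cc_pos h
  have e : x * cos t + y * sin t = pr x y t := rfl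
  apply Complex.ext
  · simp only [vt, EE, Complex.add_re, Complex.mul_re, Complex.conj_re, Complex.conj_im,
      Complex.ofReal_re]
    generalize pr x y t = p at *
    generalize cc x y = c at *
    have hc1 : 1 + c ≠ 0 := by positivity
    have hc2 : c ≠ 0 := hc0.ne'
    field_simp
    linear_combination (2 * (1 + c) * (x * x' + y * y')) * e + (-2 * p * (x * x' + y * y')) * hc
  · simp only [vt, EE, Complex.add_im, Complex.mul_im, Complex.conj_re, Complex.conj_im,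
      Complex.ofReal_im]
    ring

/-- `dc = - Re (conj Y v)` -/
theorem dc_eq {x y : ℝ} (h : x ^ 2 + y ^ 2 < 1) (x' y' : ℝ) :
    (starRingEnd ℂ) (YY x y) * vt x y x' y' + YY x y * (starRingEnd ℂ) (vt x y x' y')
      = ((2 * ((x * x' + y * y') / cc x y) : ℝ) : ℂ) := by
  have hc := cc_sq h
  have hc0 := cc_pos h
  apply Complex.ext
  · simp only [vt, YY, Complex.add_re, Complex.mul_re, Complex.conj_re, Complex.conj_im,
      Complex.ofReal_re]
    generalize cc x y = c at *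
    have hc1 : 1 + c ≠ 0 := by positivity
    have hc2 : c ≠ 0 := hc0.ne'
    field_simp
    linear_combination (2 * (x * x' + y * y')) * hc
  · simp only [vt, YY, Complex.add_im, Complex.mul_im, Complex.conj_re, Complex.conj_im,
      Complex.ofReal_im]
    ring

/-- `Im (conj Y v) = x y' - y x'` -/
theorem im_eq {x y : ℝ} (x' y' : ℝ) :
    (starRingEnd ℂ) (YY x y) * vt x y x' y' - YY x y * (starRingEnd ℂ) (vt x y x' y')
      = 2 * ((x * y' - y * x' : ℝ) : ℂ) * Complex.I := by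
  apply Complex.ext
  · simp only [vt, YY, Complex.sub_re, Complex.mul_re, Complex.mul_im, Complex.conj_re, Complex.conj_im,
      Complex.ofReal_re, Complex.ofReal_im, Complex.I_re, Complex.I_im, Complex.re_ofNat,
      Complex.im_ofNat]
    ring
  · simp only [vt, YY, Complex.sub_im, Complex.mul_re, Complex.mul_im, Complex.conj_re, Complex.conj_im,
      Complex.ofReal_re, Complex.ofReal_im, Complex.I_re, Complex.I_im, Complex.re_ofNat,
      Complex.im_ofNat]
    ring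

/-! ### derivatives along a curve -/

variable {X Y : ℝ → ℝ} {X' Y' s : ℝ}

theorem der_pr (hX : HasDerivAt X X' s) (hY : HasDerivAt Y Y' s) (t : ℝ) :
    HasDerivAt (fun s => pr (X s) (Y s) t) (X' * cos t + Y' * sin t) s :=
  (hX.mul_const _).add (hY.mul_const _)

theorem der_cc (hX : HasDerivAt X X' s) (hY : HasDerivAt Y Y' s) (h : X s ^ 2 + Y s ^ 2 < 1) :
    HasDerivAt (fun s => cc (X s) (Y s)) (-((X s * X' + Y s * Y') / cc (X s) (Y s))) s := by
  have h1 : HasDerivAt (fun s => 1 - X s ^ 2 - Y s ^ 2) (-(2 * X s * X') - 2 * Y s * Y') s := by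
    have := ((hX.pow 2).const_sub 1).sub (hY.pow 2)
    refine this.congr_deriv ?_
    simp
  have h2 := h1.sqrt (by nlinarith)
  refine h2.congr_deriv ?_
  have h3 : √(1 - X s ^ 2 - Y s ^ 2) ≠ 0 := (cc_pos h).ne'
  unfold cc
  field_simp
  ring

theorem der_wv (hX : HasDerivAt X X' s) (hY : HasDerivAt Y Y' s) (h : X s ^ 2 + Y s ^ 2 < 1) (t : ℝ) :
    HasDerivAt (fun s => wv (X s) (Y s) t)
      (-(pr (X s) (Y s) t * (X' * cos t + Y' * sin t) / wv (X s) (Y s) t)) s := by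
  have h1 : HasDerivAt (fun s => 1 - pr (X s) (Y s) t ^ 2)
      (-(2 * pr (X s) (Y s) t * (X' * cos t + Y' * sin t))) s := by
    have := ((der_pr hX hY t).pow 2).const_sub 1
    refine this.congr_deriv ?_
    simp
  have h2 := h1.sqrt (one_sub_pr h t).ne'
  refine h2.congr_deriv ?_
  have h3 : √(1 - pr (X s) (Y s) t ^ 2) ≠ 0 := (wv_pos h t).ne'
  unfold wv
  field_simp

theorem hasDerivAt_mk {a b : ℝ → ℝ} {a' b' s : ℝ} (ha : HasDerivAt a a' s) (hb : HasDerivAt b b' s) :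
    HasDerivAt (fun s => (⟨a s, b s⟩ : ℂ)) (⟨a', b'⟩ : ℂ) s := by
  have h := ha.ofReal_comp.add (hb.ofReal_comp.mul_const Complex.I)
  have e0 : (fun s => (⟨a s, b s⟩ : ℂ)) = (fun s => ((a s : ℝ) : ℂ)) + fun s => ((b s : ℝ) : ℂ) * Complex.I := by
    funext s
    apply Complex.ext
    · simp
    · simp
  rw [e0]
  refine h.congr_deriv ?_
  apply Complex.ext
  · simp
  · simp

/-- `dE = -p v + i E (x dy - y dx) / (1 + c)` -/
theorem der_EE (hX : HasDerivAt X X' s) (hY : HasDerivAt Y Y' s) (h : X s ^ 2 + Y s ^ 2 < 1) (t : ℝ) :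
    HasDerivAt (fun s => EE (X s) (Y s) t)
      (-((pr (X s) (Y s) t : ℝ) : ℂ) * vt (X s) (Y s) X' Y'
        + Complex.I * EE (X s) (Y s) t * (((X s * Y' - Y s * X') / (1 + cc (X s) (Y s)) : ℝ) : ℂ)) s := by
  have hc := cc_sq h
  have hc0 := cc_pos h
  have hc1 : 1 + cc (X s) (Y s) ≠ 0 := by positivity
  have dp := der_pr hX hY t
  have dc := (der_cc hX hY h).const_add 1
  have d1 : HasDerivAt (fun s => cos t - pr (X s) (Y s) t * X s / (1 + cc (X s) (Y s)))
      (-((((X' * cos t + Y' * sin t) * X s + pr (X s) (Y s) t * X') * (1 + cc (X s) (Y s))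
        + pr (X s) (Y s) t * X s * ((X s * X' + Y s * Y') / cc (X s) (Y s))) / (1 + cc (X s) (Y s)) ^ 2)) s := by
    refine (((dp.mul hX).div dc hc1).const_sub (cos t)).congr_deriv ?_
    simp only [Pi.mul_apply]
    ring
  have d2 : HasDerivAt (fun s => sin t - pr (X s) (Y s) t * Y s / (1 + cc (X s) (Y s)))
      (-((((X' * cos t + Y' * sin t) * Y s + pr (X s) (Y s) t * Y') * (1 + cc (X s) (Y s))
        + pr (X s) (Y s) t * Y s * ((X s * X' + Y s * Y') / cc (X s) (Y s))) / (1 + cc (X s) (Y s)) ^ 2)) s := by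
    refine (((dp.mul hY).div dc hc1).const_sub (sin t)).congr_deriv ?_
    simp only [Pi.mul_apply]
    ring
  refine (hasDerivAt_mk d1 d2).congr_deriv ?_
  have e : X s * cos t + Y s * sin t = pr (X s) (Y s) t := rfl
  have e2 := sin_sq_add_cos_sq t
  apply Complex.ext
  · simp only [vt, EE, Complex.add_re, Complex.mul_re, Complex.mul_im, Complex.neg_re, Complex.neg_im,
      Complex.ofReal_re, Complex.ofReal_im, Complex.I_re, Complex.I_im]
    generalize cc (X s) (Y s) = c at *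
    generalize X s = x at *
    generalize Y s = y at *
    rw [← e]
    have hc2 : c ≠ 0 := hc0.ne'
    field_simp
    linear_combination (c * (x * cos t + y * sin t) * X') * hc
  · simp only [vt, EE, Complex.add_im, Complex.mul_re, Complex.mul_im, Complex.neg_re, Complex.neg_im,
      Complex.ofReal_re, Complex.ofReal_im, Complex.I_re, Complex.I_im]
    generalize cc (X s) (Y s) = c at *
    generalize X s = x at *
    generalize Y s = y at *
    rw [← e]
    have hc2 : c ≠ 0 := hc0.ne'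
    field_simp
    linear_combination (c * (x * cos t + y * sin t) * Y') * hc

/-- the algebra behind the derivative of `K_n` -/
theorem alg {U E w c Y Yb v vb p dp dc im n : ℂ} (hE : E ≠ 0) (hw : w ≠ 0) (hc : c ≠ 0)
    (hc1 : 1 + c ≠ 0) (hp : p = (Yb * E + Y * (w ^ 2 / E)) / (2 * c))
    (hdp : dp = (w ^ 2 / E * v + E * vb) / 2) (hdc : dc = (Yb * v + Y * vb) / 2)
    (him : im = (Yb * v - Y * vb) / 2) :
    (-dc * w ^ 2 - c * (2 * w * (-(p * dp / w)))) / (w ^ 2) ^ 2 * U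
        + c / w ^ 2 * (n * (U / (E / w)) * (((-p * v + E * (im / (1 + c))) * w - E * (-(p * dp / w))) / w ^ 2))
      = (n + 2) / (4 * c) * (Yb * vb) * (c / w ^ 2 * (U * (E / w) ^ 2))
        - (n - 2) / (4 * c) * (Y * v) * (c / w ^ 2 * (U / (E / w) ^ 2))
        + n * im * (1 / (1 + c) - 1 / (2 * c)) * (c / w ^ 2 * U) := by
  subst hp hdp hdc him
  field_simp
  ring

/-- the derivative of `K_n` -/
def dKK (n : ℤ) (x y x' y' t : ℝ) : ℂ :=
  ((n : ℂ) + 2) / (4 * (cc x y : ℂ))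
      * ((starRingEnd ℂ) (YY x y) * (starRingEnd ℂ) (vt x y x' y')) * KK (n + 2) x y t
    - ((n : ℂ) - 2) / (4 * (cc x y : ℂ)) * (YY x y * vt x y x' y') * KK (n - 2) x y t
    + (n : ℂ) * (Complex.I * ((x * y' - y * x' : ℝ) : ℂ))
      * (1 / (1 + (cc x y : ℂ)) - 1 / (2 * (cc x y : ℂ))) * KK n x y t

theorem der_KK (n : ℤ) (hX : HasDerivAt X X' s) (hY : HasDerivAt Y Y' s)
    (h : X s ^ 2 + Y s ^ 2 < 1) (t : ℝ) :
    HasDerivAt (fun s => KK n (X s) (Y s) t) (dKK n (X s) (Y s) X' Y' t) s := by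
  have hw := wv_pos h t
  have hw' : (wv (X s) (Y s) t : ℂ) ≠ 0 := Complex.ofReal_ne_zero.2 hw.ne'
  have hc0 := cc_pos h
  have hc' : (cc (X s) (Y s) : ℂ) ≠ 0 := Complex.ofReal_ne_zero.2 hc0.ne'
  have hc1 : (1 : ℂ) + (cc (X s) (Y s) : ℂ) ≠ 0 := by
    have : (1 : ℝ) + cc (X s) (Y s) ≠ 0 := by positivity
    exact_mod_cast this
  have hE := EE_ne h t
  have d1 := (der_cc hX hY h).div ((der_wv hX hY h t).pow 2) (pow_ne_zero 2 hw.ne')
  have d2 := (der_EE hX hY h t).div (der_wv hX hY h t).ofReal_comp hw'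
  have hu : EE (X s) (Y s) t / (wv (X s) (Y s) t : ℂ) ≠ 0 := div_ne_zero hE hw'
  have d3 := (hasDerivAt_zpow n _ (Or.inl hu)).comp s d2
  have d4 := d1.ofReal_comp.mul d3
  refine d4.congr_deriv ?_
  have hEb : (starRingEnd ℂ) (EE (X s) (Y s) t) = (wv (X s) (Y s) t : ℂ) ^ 2 / EE (X s) (Y s) t := by
    rw [eq_div_iff hE, mul_comm]
    exact EE_conj h t
  have a1 := pr_eq h t
  have a2 := dp_eq h X' Y' t
  have a3 := dc_eq h X' Y'
  have a4 := im_eq (x := X s) (y := Y s) X' Y'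
  rw [hEb] at a1 a2
  have key := alg (U := (EE (X s) (Y s) t / (wv (X s) (Y s) t : ℂ)) ^ n) (n := n) hE hw' hc' hc1
    (p := ((pr (X s) (Y s) t : ℝ) : ℂ)) (dp := ((X' * cos t + Y' * sin t : ℝ) : ℂ))
    (dc := (((X s * X' + Y s * Y') / cc (X s) (Y s) : ℝ) : ℂ))
    (im := Complex.I * ((X s * Y' - Y s * X' : ℝ) : ℂ))
    (Y := YY (X s) (Y s)) (Yb := (starRingEnd ℂ) (YY (X s) (Y s)))
    (v := vt (X s) (Y s) X' Y') (vb := (starRingEnd ℂ) (vt (X s) (Y s) X' Y'))
    (by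
      rw [a1]
      push_cast
      field_simp)
    (by
      rw [a2]
      push_cast
      ring)
    (by
      rw [a3]
      push_cast
      ring)
    (by
      rw [a4]
      ring)
  have z1 : (EE (X s) (Y s) t / (wv (X s) (Y s) t : ℂ)) ^ (n - 1)
      = (EE (X s) (Y s) t / (wv (X s) (Y s) t : ℂ)) ^ n / (EE (X s) (Y s) t / (wv (X s) (Y s) t : ℂ)) := by
    rw [zpow_sub₀ hu, zpow_one]
  have z2 : (EE (X s) (Y s) t / (wv (X s) (Y s) t : ℂ)) ^ (n + 2)
      = (EE (X s) (Y s) t / (wv (X s) (Y s) t : ℂ)) ^ n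
        * (EE (X s) (Y s) t / (wv (X s) (Y s) t : ℂ)) ^ 2 := by
    rw [zpow_add₀ hu]
    rfl
  have z3 : (EE (X s) (Y s) t / (wv (X s) (Y s) t : ℂ)) ^ (n - 2)
      = (EE (X s) (Y s) t / (wv (X s) (Y s) t : ℂ)) ^ n
        / (EE (X s) (Y s) t / (wv (X s) (Y s) t : ℂ)) ^ 2 := by
    rw [zpow_sub₀ hu]
    rfl
  unfold dKK KK
  simp only [Pi.pow_apply, Pi.div_apply, Function.comp_apply, z1, z2, z3]
  push_cast at key ⊢
  linear_combination key

end Pool.Agent.FPX.S54
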