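import Mathlib
import Pool.Agent.FPX.S54
import Pool.Agent.FPX.F54K

/-
S54M (helper29): the moments `M_n[Φ] = (1/π) ∫ Φ(f - arcsin p) K_n dt` and their exact derivative along
curves.
-/

open MeasureTheory Set Filter Topology

noncomputable section

namespace Pool.Agent.FPX.S54

open Real
open Pool.Agent.FPX.F54 (pr DD isOpen_DD)
open Pool.Agent.FPX.UMP (Ef)
open Pool.Agent.FPX.UMQ (Crv)
open Pool.Agent.FPX.KNT (Ker)

/-! ### continuity of the pieces -/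

theorem cont_pr : Continuous fun q : (ℝ × ℝ) × ℝ => pr q.1.1 q.1.2 q.2 := by
  unfold pr
  fun_prop

theorem cont_cc : Continuous fun X : ℝ × ℝ => cc X.1 X.2 := by
  unfold cc
  fun_prop

theorem cont_wv : Continuous fun q : (ℝ × ℝ) × ℝ => wv q.1.1 q.1.2 q.2 := by
  unfold wv
  exact (continuous_const.sub (cont_pr.pow 2)).sqrt

theorem cc_nonneg (x y : ℝ) : 0 ≤ cc x y := sqrt_nonneg _

theorem mk_eq (a b : ℝ) : (⟨a, b⟩ : ℂ) = (a : ℂ) + (b : ℂ) * Complex.I := by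
  apply Complex.ext
  · simp
  · simp

theorem cont_EE : Continuous fun q : (ℝ × ℝ) × ℝ => EE q.1.1 q.1.2 q.2 := by
  unfold EE
  simp only [mk_eq]
  have hc : Continuous fun q : (ℝ × ℝ) × ℝ => 1 + cc q.1.1 q.1.2 :=
    continuous_const.add (cont_cc.comp continuous_fst)
  have hc0 : ∀ q : (ℝ × ℝ) × ℝ, 1 + cc q.1.1 q.1.2 ≠ 0 := fun q => by
    have := cc_nonneg q.1.1 q.1.2
    positivity
  have h1 : Continuous fun q : (ℝ × ℝ) × ℝ => cos q.2 - pr q.1.1 q.1.2 q.2 * q.1.1 / (1 + cc q.1.1 q.1.2) :=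
    (continuous_cos.comp continuous_snd).sub
      ((cont_pr.mul (continuous_fst.comp continuous_fst)).div hc hc0)
  have h2 : Continuous fun q : (ℝ × ℝ) × ℝ => sin q.2 - pr q.1.1 q.1.2 q.2 * q.1.2 / (1 + cc q.1.1 q.1.2) :=
    (continuous_sin.comp continuous_snd).sub
      ((cont_pr.mul (continuous_snd.comp continuous_fst)).div hc hc0)
  exact (Complex.continuous_ofReal.comp h1).add ((Complex.continuous_ofReal.comp h2).mul continuous_const)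

theorem cont_YY : Continuous fun X : ℝ × ℝ => YY X.1 X.2 := by
  unfold YY
  simp only [mk_eq]
  fun_prop

theorem contAt_vt {X : ℝ × ℝ} (hX : X ∈ DD) (x' y' : ℝ) :
    ContinuousAt (fun X : ℝ × ℝ => vt X.1 X.2 x' y') X := by
  unfold vt
  simp only [mk_eq]
  have hc : Continuous fun q : ℝ × ℝ => cc q.1 q.2 * (1 + cc q.1 q.2) :=
    cont_cc.mul (continuous_const.add cont_cc)
  have hc0 : cc X.1 X.2 * (1 + cc X.1 X.2) ≠ 0 := by
    have := cc_pos hX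
    positivity
  have h1 : ContinuousAt (fun q : ℝ × ℝ => x' + q.1 * (q.1 * x' + q.2 * y') / (cc q.1 q.2 * (1 + cc q.1 q.2))) X :=
    continuousAt_const.add ((by fun_prop : Continuous fun q : ℝ × ℝ => q.1 * (q.1 * x' + q.2 * y')
      ).continuousAt.div hc.continuousAt hc0)
  have h2 : ContinuousAt (fun q : ℝ × ℝ => y' + q.2 * (q.1 * x' + q.2 * y') / (cc q.1 q.2 * (1 + cc q.1 q.2))) X :=
    continuousAt_const.add ((by fun_prop : Continuous fun q : ℝ × ℝ => q.2 * (q.1 * x' + q.2 * y')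
      ).continuousAt.div hc.continuousAt hc0)
  exact (Complex.continuous_ofReal.continuousAt.comp h1).add
    ((Complex.continuous_ofReal.continuousAt.comp h2).mul continuousAt_const)

theorem contAt_KK (n : ℤ) {X : ℝ × ℝ} (hX : X ∈ DD) (t : ℝ) :
    ContinuousAt (fun q : (ℝ × ℝ) × ℝ => KK n q.1.1 q.1.2 q.2) (X, t) := by
  unfold KK
  have hw := wv_pos hX t
  have hw' : (wv X.1 X.2 t : ℂ) ≠ 0 := Complex.ofReal_ne_zero.2 hw.ne'
  have h1 : ContinuousAt (fun q : (ℝ × ℝ) × ℝ => cc q.1.1 q.1.2 / wv q.1.1 q.1.2 q.2 ^ 2) (X, t) :=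
    (cont_cc.comp continuous_fst).continuousAt.div (cont_wv.pow 2).continuousAt (by positivity)
  have h2 : ContinuousAt (fun q : (ℝ × ℝ) × ℝ => EE q.1.1 q.1.2 q.2 / (wv q.1.1 q.1.2 q.2 : ℂ)) (X, t) :=
    cont_EE.continuousAt.div (Complex.continuous_ofReal.comp cont_wv).continuousAt hw'
  exact (Complex.continuous_ofReal.continuousAt.comp h1).mul
    (h2.zpow₀ n (Or.inl (div_ne_zero (EE_ne hX t) hw')))

theorem contAt_dKK (n : ℤ) {X : ℝ × ℝ} (hX : X ∈ DD) (x' y' t : ℝ) :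
    ContinuousAt (fun q : (ℝ × ℝ) × ℝ => dKK n q.1.1 q.1.2 x' y' q.2) (X, t) := by
  unfold dKK
  have hc0 := cc_pos hX
  have hc' : (cc X.1 X.2 : ℂ) ≠ 0 := Complex.ofReal_ne_zero.2 hc0.ne'
  have hc1 : (1 : ℂ) + (cc X.1 X.2 : ℂ) ≠ 0 := by
    have : (1 : ℝ) + cc X.1 X.2 ≠ 0 := by positivity
    exact_mod_cast this
  have c1 : ContinuousAt (fun q : (ℝ × ℝ) × ℝ => (cc q.1.1 q.1.2 : ℂ)) (X, t) :=
    (Complex.continuous_ofReal.comp (cont_cc.comp continuous_fst)).continuousAt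
  have c2 : ContinuousAt (fun q : (ℝ × ℝ) × ℝ => YY q.1.1 q.1.2) (X, t) :=
    (cont_YY.comp continuous_fst).continuousAt
  have c3 : ContinuousAt (fun q : (ℝ × ℝ) × ℝ => vt q.1.1 q.1.2 x' y') (X, t) :=
    ContinuousAt.comp (f := fun q : (ℝ × ℝ) × ℝ => q.1) (g := fun X : ℝ × ℝ => vt X.1 X.2 x' y')
      (x := (X, t)) (contAt_vt hX x' y') continuous_fst.continuousAt
  have c4 : ContinuousAt (fun q : (ℝ × ℝ) × ℝ => (starRingEnd ℂ) (YY q.1.1 q.1.2)) (X, t) :=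
    (Complex.continuous_conj.continuousAt).comp c2
  have c5 : ContinuousAt (fun q : (ℝ × ℝ) × ℝ => (starRingEnd ℂ) (vt q.1.1 q.1.2 x' y')) (X, t) :=
    (Complex.continuous_conj.continuousAt).comp c3
  have c6 : ContinuousAt (fun q : (ℝ × ℝ) × ℝ => ((q.1.1 * y' - q.1.2 * x' : ℝ) : ℂ)) (X, t) :=
    (Complex.continuous_ofReal.comp (by fun_prop)).continuousAt
  have h4 : (4 : ℂ) * (cc X.1 X.2 : ℂ) ≠ 0 := mul_ne_zero (by norm_num) hc'
  have h2 : (2 : ℂ) * (cc X.1 X.2 : ℂ) ≠ 0 := mul_ne_zero (by norm_num) hc'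
  refine ((((continuousAt_const.div (continuousAt_const.mul c1) h4).mul (c4.mul c5)).mul
    (contAt_KK _ hX t)).sub
    (((continuousAt_const.div (continuousAt_const.mul c1) h4).mul (c2.mul c3)).mul
    (contAt_KK _ hX t))).add (((continuousAt_const.mul (continuousAt_const.mul c6)).mul
    ((continuousAt_const.div (continuousAt_const.add c1) hc1).sub
      (continuousAt_const.div (continuousAt_const.mul c1) h2))).mul (contAt_KK _ hX t))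

/-! ### the derivative of `K_n` in the horizontal coordinates -/

theorem dKK_lin (n : ℤ) (x y x' y' t : ℝ) :
    dKK n x y x' y' t = (x' : ℂ) * dKK n x y 1 0 t + (y' : ℂ) * dKK n x y 0 1 t := by
  have e : vt x y x' y' = (x' : ℂ) * vt x y 1 0 + (y' : ℂ) * vt x y 0 1 := by
    apply Complex.ext
    · simp only [vt, Complex.add_re, Complex.mul_re, Complex.ofReal_re, Complex.ofReal_im]
      ring
    · simp only [vt, Complex.add_im, Complex.mul_im, Complex.ofReal_re, Complex.ofReal_im]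
      ring
  unfold dKK
  rw [e]
  simp only [map_add, map_mul, Complex.conj_ofReal]
  push_cast
  ring

theorem diff_div {R : Type*} [NormedField R] [NormedAlgebra ℝ R] {f g : ℝ × ℝ → R} {X : ℝ × ℝ}
    (hf : DifferentiableAt ℝ f X) (hg : DifferentiableAt ℝ g X) (h : g X ≠ 0) :
    DifferentiableAt ℝ (fun X => f X / g X) X := by
  simp only [div_eq_mul_inv]
  exact hf.fun_mul (hg.fun_inv h)

theorem diff_cc {X : ℝ × ℝ} (hX : X ∈ DD) : DifferentiableAt ℝ (fun X : ℝ × ℝ => cc X.1 X.2) X := by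
  unfold cc
  have h : (1 : ℝ) - X.1 ^ 2 - X.2 ^ 2 ≠ 0 := by
    have : X.1 ^ 2 + X.2 ^ 2 < 1 := hX
    nlinarith
  exact DifferentiableAt.sqrt (by fun_prop) h

theorem diff_pr (t : ℝ) (X : ℝ × ℝ) : DifferentiableAt ℝ (fun X : ℝ × ℝ => pr X.1 X.2 t) X := by
  unfold pr
  fun_prop

theorem diff_wv {X : ℝ × ℝ} (hX : X ∈ DD) (t : ℝ) :
    DifferentiableAt ℝ (fun X : ℝ × ℝ => wv X.1 X.2 t) X := by
  unfold wv
  have h2 : DifferentiableAt ℝ (fun X : ℝ × ℝ => 1 - pr X.1 X.2 t ^ 2) X :=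
    (differentiableAt_const _).sub ((diff_pr t X).pow 2)
  exact DifferentiableAt.sqrt h2 (one_sub_pr hX t).ne'

theorem diff_ofReal {f : ℝ × ℝ → ℝ} {X : ℝ × ℝ} (h : DifferentiableAt ℝ f X) :
    DifferentiableAt ℝ (fun X => (f X : ℂ)) X :=
  Complex.ofRealCLM.differentiableAt.comp X h

theorem diff_EE {X : ℝ × ℝ} (hX : X ∈ DD) (t : ℝ) :
    DifferentiableAt ℝ (fun X : ℝ × ℝ => EE X.1 X.2 t) X := by
  unfold EE
  simp only [mk_eq]
  have hc0 : 1 + cc X.1 X.2 ≠ 0 := by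
    have := cc_nonneg X.1 X.2
    positivity
  have d0 : DifferentiableAt ℝ (fun X : ℝ × ℝ => 1 + cc X.1 X.2) X := (diff_cc hX).const_add 1
  have d1' : DifferentiableAt ℝ (fun X : ℝ × ℝ => pr X.1 X.2 t * X.1 / (1 + cc X.1 X.2)) X :=
    diff_div (f := fun X : ℝ × ℝ => pr X.1 X.2 t * X.1)
      (g := fun X : ℝ × ℝ => 1 + cc X.1 X.2) ((diff_pr t X).fun_mul differentiableAt_fst) d0 hc0
  have d2' : DifferentiableAt ℝ (fun X : ℝ × ℝ => pr X.1 X.2 t * X.2 / (1 + cc X.1 X.2)) X :=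
    diff_div (f := fun X : ℝ × ℝ => pr X.1 X.2 t * X.2)
      (g := fun X : ℝ × ℝ => 1 + cc X.1 X.2) ((diff_pr t X).fun_mul differentiableAt_snd) d0 hc0
  have d1 : DifferentiableAt ℝ (fun X : ℝ × ℝ => cos t - pr X.1 X.2 t * X.1 / (1 + cc X.1 X.2)) X :=
    d1'.const_sub (cos t)
  have d2 : DifferentiableAt ℝ (fun X : ℝ × ℝ => sin t - pr X.1 X.2 t * X.2 / (1 + cc X.1 X.2)) X :=
    d2'.const_sub (sin t)
  exact (diff_ofReal d1).add ((diff_ofReal d2).mul (differentiableAt_const _))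

theorem diff_KK (n : ℤ) {X : ℝ × ℝ} (hX : X ∈ DD) (t : ℝ) :
    DifferentiableAt ℝ (fun X : ℝ × ℝ => KK n X.1 X.2 t) X := by
  unfold KK
  have hw := wv_pos hX t
  have hw' : (wv X.1 X.2 t : ℂ) ≠ 0 := Complex.ofReal_ne_zero.2 hw.ne'
  have d1 : DifferentiableAt ℝ (fun X : ℝ × ℝ => cc X.1 X.2 / wv X.1 X.2 t ^ 2) X :=
    diff_div (f := fun X : ℝ × ℝ => cc X.1 X.2)
      (g := fun X : ℝ × ℝ => wv X.1 X.2 t ^ 2) (diff_cc hX) ((diff_wv hX t).fun_pow 2)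
      (pow_ne_zero 2 hw.ne')
  have d2 : DifferentiableAt ℝ (fun X : ℝ × ℝ => EE X.1 X.2 t / (wv X.1 X.2 t : ℂ)) X :=
    diff_div (f := fun X : ℝ × ℝ => EE X.1 X.2 t)
      (g := fun X : ℝ × ℝ => (wv X.1 X.2 t : ℂ)) (diff_EE hX t) (diff_ofReal (diff_wv hX t)) hw'
  have hz := hasDerivAt_zpow n (EE X.1 X.2 t / (wv X.1 X.2 t : ℂ))
    (Or.inl (div_ne_zero (EE_ne hX t) hw'))
  have d3 := (HasDerivAt.comp_hasFDerivAt X (h₂ := fun z : ℂ => z ^ n) hz d2.hasFDerivAt).differentiableAt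
  exact (diff_ofReal d1).mul d3

/-- the derivative of `K_n` as a linear map -/
def LKK (n : ℤ) (X : ℝ × ℝ) (t : ℝ) : ℝ × ℝ →L[ℝ] ℂ :=
  (ContinuousLinearMap.fst ℝ ℝ ℝ).smulRight (dKK n X.1 X.2 1 0 t)
    + (ContinuousLinearMap.snd ℝ ℝ ℝ).smulRight (dKK n X.1 X.2 0 1 t)

theorem hasFDerivAt_KK (n : ℤ) {X : ℝ × ℝ} (hX : X ∈ DD) (t : ℝ) :
    HasFDerivAt (fun X : ℝ × ℝ => KK n X.1 X.2 t) (LKK n X t) X := by
  have hd := (diff_KK n hX t).hasFDerivAt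
  refine hd.congr_fderiv ?_
  have key : ∀ v : ℝ × ℝ, fderiv ℝ (fun X : ℝ × ℝ => KK n X.1 X.2 t) X v = dKK n X.1 X.2 v.1 v.2 t := by
    intro v
    have hl : HasDerivAt (fun s : ℝ => X + s • v) v 0 := by
      have := ((hasDerivAt_id (0 : ℝ)).smul_const v).const_add X
      simpa using this
    have e0 : X + (0 : ℝ) • v = X := by simp
    have h1 := HasFDerivAt.comp_hasDerivAt_of_eq (0 : ℝ) hd hl e0.symm
    have hx : HasDerivAt (fun s : ℝ => (X + s • v).1) v.1 0 := hl.fst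
    have hy : HasDerivAt (fun s : ℝ => (X + s • v).2) v.2 0 := hl.snd
    have h2 := der_KK n hx hy (by
      rw [e0]
      exact hX) t
    rw [e0] at h2
    exact h1.unique h2
  ext
  · simp [key, LKK]
  · simp [key, LKK]

/-! ### the kernel of the moments -/

/-- the integrand of a moment: `Φ(a - arcsin p) ℓ(K_n)` -/
def Q (ℓ : ℂ →L[ℝ] ℝ) (n : ℤ) (Φ : ℝ → ℝ) (X : ℝ × ℝ) (t a : ℝ) : ℝ :=
  Φ (a - arcsin (pr X.1 X.2 t)) * ℓ (KK n X.1 X.2 t)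

/-- its derivative in the first coordinate -/
def Qx (ℓ : ℂ →L[ℝ] ℝ) (n : ℤ) (Φ Φ' : ℝ → ℝ) (X : ℝ × ℝ) (t a : ℝ) : ℝ :=
  -(Φ' (a - arcsin (pr X.1 X.2 t)) * (cos t / wv X.1 X.2 t)) * ℓ (KK n X.1 X.2 t)
    + Φ (a - arcsin (pr X.1 X.2 t)) * ℓ (dKK n X.1 X.2 1 0 t)

/-- its derivative in the second coordinate -/
def Qy (ℓ : ℂ →L[ℝ] ℝ) (n : ℤ) (Φ Φ' : ℝ → ℝ) (X : ℝ × ℝ) (t a : ℝ) : ℝ :=
  -(Φ' (a - arcsin (pr X.1 X.2 t)) * (sin t / wv X.1 X.2 t)) * ℓ (KK n X.1 X.2 t)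
    + Φ (a - arcsin (pr X.1 X.2 t)) * ℓ (dKK n X.1 X.2 0 1 t)

theorem contAt_KK' (ℓ : ℂ →L[ℝ] ℝ) (n : ℤ) {X : ℝ × ℝ} (hX : X ∈ DD) (t a : ℝ) :
    ContinuousAt (fun q : (ℝ × ℝ) × ℝ × ℝ => ℓ (KK n q.1.1 q.1.2 q.2.1)) (X, t, a) := by
  have h1 : ContinuousAt (fun q : (ℝ × ℝ) × ℝ × ℝ => KK n q.1.1 q.1.2 q.2.1) (X, t, a) :=
    ContinuousAt.comp (f := fun q : (ℝ × ℝ) × ℝ × ℝ => (q.1, q.2.1))
      (g := fun q : (ℝ × ℝ) × ℝ => KK n q.1.1 q.1.2 q.2) (x := (X, t, a)) (contAt_KK n hX t)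
      (by fun_prop : Continuous fun q : (ℝ × ℝ) × ℝ × ℝ => (q.1, q.2.1)).continuousAt
  exact ℓ.continuous.continuousAt.comp h1

theorem contAt_dKK' (ℓ : ℂ →L[ℝ] ℝ) (n : ℤ) {X : ℝ × ℝ} (hX : X ∈ DD) (x' y' t a : ℝ) :
    ContinuousAt (fun q : (ℝ × ℝ) × ℝ × ℝ => ℓ (dKK n q.1.1 q.1.2 x' y' q.2.1)) (X, t, a) := by
  have h1 : ContinuousAt (fun q : (ℝ × ℝ) × ℝ × ℝ => dKK n q.1.1 q.1.2 x' y' q.2.1) (X, t, a) :=
    ContinuousAt.comp (f := fun q : (ℝ × ℝ) × ℝ × ℝ => (q.1, q.2.1))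
      (g := fun q : (ℝ × ℝ) × ℝ => dKK n q.1.1 q.1.2 x' y' q.2) (x := (X, t, a))
      (contAt_dKK n hX x' y' t)
      (by fun_prop : Continuous fun q : (ℝ × ℝ) × ℝ × ℝ => (q.1, q.2.1)).continuousAt
  exact ℓ.continuous.continuousAt.comp h1

theorem cont_de {Φ : ℝ → ℝ} (hΦ : Continuous Φ) :
    Continuous fun q : (ℝ × ℝ) × ℝ × ℝ => Φ (q.2.2 - arcsin (pr q.1.1 q.1.2 q.2.1)) := by
  have h1 : Continuous fun q : (ℝ × ℝ) × ℝ × ℝ => pr q.1.1 q.1.2 q.2.1 := by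
    unfold pr
    fun_prop
  exact hΦ.comp ((continuous_snd.comp continuous_snd).sub (continuous_arcsin.comp h1))

theorem contAt_w {w : ℝ → ℝ} (hw : Continuous w) {X : ℝ × ℝ} (hX : X ∈ DD) (t a : ℝ) :
    ContinuousAt (fun q : (ℝ × ℝ) × ℝ × ℝ => w q.2.1 / wv q.1.1 q.1.2 q.2.1) (X, t, a) := by
  have h1 : Continuous fun q : (ℝ × ℝ) × ℝ × ℝ => wv q.1.1 q.1.2 q.2.1 :=
    cont_wv.comp (by fun_prop : Continuous fun q : (ℝ × ℝ) × ℝ × ℝ => (q.1, q.2.1))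
  exact (hw.comp (continuous_fst.comp continuous_snd)).continuousAt.div h1.continuousAt
    (wv_pos hX t).ne'

theorem hasFDerivAt_pr (X : ℝ × ℝ) (t : ℝ) : HasFDerivAt (fun X : ℝ × ℝ => pr X.1 X.2 t)
    (cos t • ContinuousLinearMap.fst ℝ ℝ ℝ + sin t • ContinuousLinearMap.snd ℝ ℝ ℝ) X := by
  have e : (fun X : ℝ × ℝ => pr X.1 X.2 t)
      = ⇑(cos t • ContinuousLinearMap.fst ℝ ℝ ℝ + sin t • ContinuousLinearMap.snd ℝ ℝ ℝ) := by
    funext q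
    simp [pr]
    ring
  rw [e]
  exact ContinuousLinearMap.hasFDerivAt _

/-- the moments' integrand is a kernel -/
theorem ker_Q (ℓ : ℂ →L[ℝ] ℝ) (n : ℤ) {Φ Φ' : ℝ → ℝ} (hΦ : ∀ u, HasDerivAt Φ (Φ' u) u)
    (hΦ' : Continuous Φ') : Ker (Q ℓ n Φ) (Qx ℓ n Φ Φ') (Qy ℓ n Φ Φ') (Q ℓ n Φ') DD := by
  have cΦ : Continuous Φ := continuous_iff_continuousAt.2 fun u => (hΦ u).continuousAt
  refine ⟨isOpen_DD, ?_, ?_, ?_, ?_, ?_⟩
  · intro X hX t a _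
    have hp := one_sub_pr hX t
    have hp1 : pr X.1 X.2 t ≠ -1 := fun h => by
      rw [h] at hp
      norm_num at hp
    have hp2 : pr X.1 X.2 t ≠ 1 := fun h => by
      rw [h] at hp
      norm_num at hp
    have f1 : HasFDerivAt (fun q : (ℝ × ℝ) × ℝ => q.1) (ContinuousLinearMap.fst ℝ (ℝ × ℝ) ℝ) (X, a) :=
      hasFDerivAt_fst
    have f2 : HasFDerivAt (fun q : (ℝ × ℝ) × ℝ => q.2) (ContinuousLinearMap.snd ℝ (ℝ × ℝ) ℝ) (X, a) :=
      hasFDerivAt_snd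
    have a1 : HasFDerivAt (fun q : (ℝ × ℝ) × ℝ => pr q.1.1 q.1.2 t)
        ((cos t • ContinuousLinearMap.fst ℝ ℝ ℝ + sin t • ContinuousLinearMap.snd ℝ ℝ ℝ).comp
          (ContinuousLinearMap.fst ℝ (ℝ × ℝ) ℝ)) (X, a) :=
      HasFDerivAt.comp (X, a) (g := fun X : ℝ × ℝ => pr X.1 X.2 t) (hasFDerivAt_pr X t) f1
    have a2 := HasDerivAt.comp_hasFDerivAt (X, a) (h₂ := arcsin) (Real.hasDerivAt_arcsin hp1 hp2) a1
    have a3 : HasFDerivAt (fun q : (ℝ × ℝ) × ℝ => q.2 - arcsin (pr q.1.1 q.1.2 t)) _ (X, a) := f2.sub a2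
    have a4 := HasDerivAt.comp_hasFDerivAt (X, a) (h₂ := Φ) (hΦ (a - arcsin (pr X.1 X.2 t))) a3
    have b1 : HasFDerivAt (fun q : (ℝ × ℝ) × ℝ => KK n q.1.1 q.1.2 t)
        ((LKK n X t).comp (ContinuousLinearMap.fst ℝ (ℝ × ℝ) ℝ)) (X, a) :=
      HasFDerivAt.comp (X, a) (g := fun X : ℝ × ℝ => KK n X.1 X.2 t) (hasFDerivAt_KK n hX t) f1
    have b2 : HasFDerivAt (fun q : (ℝ × ℝ) × ℝ => ℓ (KK n q.1.1 q.1.2 t)) _ (X, a) :=
      ℓ.hasFDerivAt.comp (X, a) b1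
    have c := a4.mul b2
    refine c.congr_fderiv ?_
    have hw : √(1 - pr X.1 X.2 t ^ 2) = wv X.1 X.2 t := rfl
    ext
    · simp [Qx, LKK, Q, hw]
      ring
    · simp [Qy, LKK, Q, hw]
      ring
    · simp [Q]
      ring
  · intro X hX t a _
    exact (cont_de cΦ).continuousAt.mul (contAt_KK' ℓ n hX t a)
  · intro X hX t a _
    exact ((((cont_de hΦ').continuousAt.mul (contAt_w continuous_cos hX t a)).neg).mul
      (contAt_KK' ℓ n hX t a)).add ((cont_de cΦ).continuousAt.mul (contAt_dKK' ℓ n hX 1 0 t a))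
  · intro X hX t a _
    exact ((((cont_de hΦ').continuousAt.mul (contAt_w continuous_sin hX t a)).neg).mul
      (contAt_KK' ℓ n hX t a)).add ((cont_de cΦ).continuousAt.mul (contAt_dKK' ℓ n hX 0 1 t a))
  · intro X hX t a _
    exact (cont_de hΦ').continuousAt.mul (contAt_KK' ℓ n hX t a)

/-! ### the moments -/

/-- the moment `M_n[Φ] = (1/π) ∫ Φ(f - arcsin p) K_n dt` -/
def MM (n : ℤ) (Φ : ℝ → ℝ) (x y : ℝ) (f : ℝ → ℝ) : ℂ :=
  (1 / (π : ℂ)) * ∫ t in (0 : ℝ)..(2 * π), (Φ (f t - arcsin (pr x y t)) : ℂ) * KK n x y t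

theorem re_im_int {G : ℝ → ℂ} (hG : IntervalIntegrable G volume 0 (2 * π)) :
    ∫ t in (0 : ℝ)..(2 * π), G t = ((∫ t in (0 : ℝ)..(2 * π), (G t).re : ℝ) : ℂ)
      + ((∫ t in (0 : ℝ)..(2 * π), (G t).im : ℝ) : ℂ) * Complex.I := by
  simp only [intervalIntegral.integral_of_le (show (0 : ℝ) ≤ 2 * π by positivity)]
  exact (integral_re_add_im (𝕜 := ℂ) hG.1).symm

theorem cont_KK_t (n : ℤ) {x y : ℝ} (h : x ^ 2 + y ^ 2 < 1) : Continuous fun t => KK n x y t := by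
  refine continuous_iff_continuousAt.2 fun t => ?_
  exact ContinuousAt.comp (f := fun t : ℝ => ((x, y), t))
    (g := fun q : (ℝ × ℝ) × ℝ => KK n q.1.1 q.1.2 q.2) (x := t) (contAt_KK n (X := (x, y)) h t)
    (by fun_prop : Continuous fun t : ℝ => (((x, y) : ℝ × ℝ), t)).continuousAt

theorem ii_of {u : ℝ → ℝ} (hu : Measurable u) {B : ℝ} (hB : ∀ t ∈ Icc (0 : ℝ) (2 * π), |u t| ≤ B)
    {k : ℝ → ℂ} (hk : Continuous k) :
    IntervalIntegrable (fun t => (u t : ℂ) * k t) volume 0 (2 * π) := by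
  have h1 : IntervalIntegrable (fun t => (u t : ℂ)) volume 0 (2 * π) := by
    rw [intervalIntegrable_iff_integrableOn_Ioc_of_le (by positivity)]
    refine Integrable.ofReal ?_
    refine Integrable.of_bound (C := B) hu.aestronglyMeasurable ?_
    rw [ae_restrict_iff' measurableSet_Ioc]
    exact Eventually.of_forall fun t ht => hB t (Ioc_subset_Icc_self ht)
  exact h1.mul_continuousOn hk.continuousOn

theorem bd_Φ {Φ : ℝ → ℝ} (hΦ : Continuous Φ) (x y : ℝ) {g : ℝ → ℝ} {m : ℝ} (hb : ∀ t, |g t| ≤ m) :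
    ∃ B : ℝ, 0 ≤ B ∧ ∀ t, |Φ (g t - arcsin (pr x y t))| ≤ B := by
  obtain ⟨B, hB⟩ := (isCompact_Icc (a := -(m + π / 2)) (b := m + π / 2)).exists_bound_of_continuousOn
    hΦ.continuousOn
  refine ⟨|B|, abs_nonneg _, fun t => ?_⟩
  have h1 := abs_le.1 (hb t)
  have h2 := neg_pi_div_two_le_arcsin (pr x y t)
  have h3 := arcsin_le_pi_div_two (pr x y t)
  have h4 := hB (g t - arcsin (pr x y t)) ⟨by linarith [h1.1], by linarith [h1.2]⟩
  rw [Real.norm_eq_abs] at h4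
  exact h4.trans (le_abs_self B)

theorem meas_Φ {Φ : ℝ → ℝ} (hΦ : Continuous Φ) (x y : ℝ) {g : ℝ → ℝ} (hg : Measurable g) :
    Measurable fun t => Φ (g t - arcsin (pr x y t)) := by
  have h1 : Measurable fun t => pr x y t := by
    unfold pr
    fun_prop
  exact hΦ.measurable.comp (hg.sub (measurable_arcsin.comp h1))

theorem MM_re_im (n : ℤ) {Φ : ℝ → ℝ} (hΦ : Continuous Φ) {x y : ℝ} (h : x ^ 2 + y ^ 2 < 1) {g : ℝ → ℝ}
    (hg : Measurable g) {m : ℝ} (hb : ∀ t, |g t| ≤ m) :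
    MM n Φ x y g = (1 / (π : ℂ)) *
      (((∫ t in (0 : ℝ)..(2 * π), Q Complex.reCLM n Φ (x, y) t (g t) : ℝ) : ℂ)
        + ((∫ t in (0 : ℝ)..(2 * π), Q Complex.imCLM n Φ (x, y) t (g t) : ℝ) : ℂ) * Complex.I) := by
  obtain ⟨B, -, hB⟩ := bd_Φ hΦ x y hb
  unfold MM
  rw [re_im_int (ii_of (meas_Φ hΦ x y hg) (fun t _ => hB t) (cont_KK_t n h))]
  have e1 : ∀ t, ((Φ (g t - arcsin (pr x y t)) : ℂ) * KK n x y t).re
      = Q Complex.reCLM n Φ (x, y) t (g t) := fun t => by simp [Q]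
  have e2 : ∀ t, ((Φ (g t - arcsin (pr x y t)) : ℂ) * KK n x y t).im
      = Q Complex.imCLM n Φ (x, y) t (g t) := fun t => by simp [Q]
  simp only [e1, e2]

/-- a curve of functions has a bounded derivative -/
theorem crv_bd {φ : ℝ → ℝ → ℝ} {h : ℝ → ℝ} {s : ℝ} (hc : Crv φ h s) :
    ∃ C : ℝ, 0 ≤ C ∧ ∀ t ∈ Icc (0 : ℝ) (2 * π), |h t| ≤ C := by
  obtain ⟨C, hC0, hC⟩ := hc.loc
  refine ⟨C, hC0, fun t ht => ?_⟩
  have h1 : ‖h t‖ ≤ C := by
    refine HasDerivAt.le_of_lip' (hc.der t) hC0 (hC.mono fun r hr => ?_)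
    exact hr t ht
  rwa [Real.norm_eq_abs] at h1

/-- `dp K_n / w = (v K_{n-1} + conj v K_{n+1}) / 2` -/
theorem dp_KK (n : ℤ) {x y : ℝ} (h : x ^ 2 + y ^ 2 < 1) (x' y' t : ℝ) :
    (((x' * cos t + y' * sin t) / wv x y t : ℝ) : ℂ) * KK n x y t
      = 1 / 2 * (vt x y x' y' * KK (n - 1) x y t
        + (starRingEnd ℂ) (vt x y x' y') * KK (n + 1) x y t) := by
  have hw := wv_pos h t
  have hw' : (wv x y t : ℂ) ≠ 0 := Complex.ofReal_ne_zero.2 hw.ne'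
  have hE := EE_ne h t
  have hu : EE x y t / (wv x y t : ℂ) ≠ 0 := div_ne_zero hE hw'
  have hEb : (starRingEnd ℂ) (EE x y t) = (wv x y t : ℂ) ^ 2 / EE x y t := by
    rw [eq_div_iff hE, mul_comm]
    exact EE_conj h t
  have a2 := dp_eq h x' y' t
  rw [hEb] at a2
  have a3 : ((x' * cos t + y' * sin t : ℝ) : ℂ)
      = ((wv x y t : ℂ) ^ 2 / EE x y t * vt x y x' y' + EE x y t * (starRingEnd ℂ) (vt x y x' y')) / 2 := by
    rw [a2]
    push_cast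
    ring
  unfold KK
  rw [zpow_sub_one₀ hu, zpow_add_one₀ hu, Complex.ofReal_div _ (wv x y t), a3]
  generalize (EE x y t / (wv x y t : ℂ)) ^ n = U
  field_simp

/-- the derivative of the moment -/
def dMM (n : ℤ) (Φ Φ' : ℝ → ℝ) (x y x' y' : ℝ) (f h : ℝ → ℝ) : ℂ :=
  (1 / (π : ℂ)) * (∫ t in (0 : ℝ)..(2 * π), ((Φ' (f t - arcsin (pr x y t)) * h t : ℝ) : ℂ) * KK n x y t)
    - 1 / 2 * (vt x y x' y' * MM (n - 1) Φ' x y f
      + (starRingEnd ℂ) (vt x y x' y') * MM (n + 1) Φ' x y f)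
    + ((n : ℂ) + 2) / (4 * (cc x y : ℂ))
      * ((starRingEnd ℂ) (YY x y) * (starRingEnd ℂ) (vt x y x' y')) * MM (n + 2) Φ x y f
    - ((n : ℂ) - 2) / (4 * (cc x y : ℂ)) * (YY x y * vt x y x' y') * MM (n - 2) Φ x y f
    + (n : ℂ) * (Complex.I * ((x * y' - y * x' : ℝ) : ℂ))
      * (1 / (1 + (cc x y : ℂ)) - 1 / (2 * (cc x y : ℂ))) * MM n Φ x y f

theorem der_Q (ℓ : ℂ →L[ℝ] ℝ) (n : ℤ) {Φ Φ' : ℝ → ℝ} (hΦ : ∀ u, HasDerivAt Φ (Φ' u) u)
    (hΦ' : Continuous Φ') {φ : ℝ → ℝ → ℝ} {h : ℝ → ℝ} {s : ℝ} (hc : Crv φ h s) {X Y : ℝ → ℝ}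
    {X' Y' : ℝ} (hX : HasDerivAt X X' s) (hY : HasDerivAt Y Y' s) (hXY : X s ^ 2 + Y s ^ 2 < 1) :
    HasDerivAt (fun s => ∫ t in (0 : ℝ)..(2 * π), Q ℓ n Φ (X s, Y s) t (φ s t))
      ((∫ t in (0 : ℝ)..(2 * π), Q ℓ n Φ' (X s, Y s) t (φ s t) * h t)
        + (∫ t in (0 : ℝ)..(2 * π), Qx ℓ n Φ Φ' (X s, Y s) t (φ s t)) * X'
        + (∫ t in (0 : ℝ)..(2 * π), Qy ℓ n Φ Φ' (X s, Y s) t (φ s t)) * Y') s := by
  have h1 := (ker_Q ℓ n hΦ hΦ').hasFDerivAt hc (X₀ := (X s, Y s)) hXY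
  have h2 : HasDerivAt (fun s => (s, (X s, Y s))) ((1 : ℝ), (X', Y')) s :=
    (hasDerivAt_id s).prodMk (hX.prodMk hY)
  have h3 := HasFDerivAt.comp_hasDerivAt_of_eq s h1 h2 rfl
  refine h3.congr_deriv ?_
  simp

theorem lin5 {g1 g2 g3 g4 g5 : ℝ → ℂ} (h1 : Continuous g1) (h2 : Continuous g2) (h3 : Continuous g3)
    (h4 : Continuous g4) (h5 : Continuous g5) (a1 a2 a3 a4 a5 : ℂ) :
    ∫ t in (0 : ℝ)..(2 * π), (a1 * g1 t + a2 * g2 t + a3 * g3 t + a4 * g4 t + a5 * g5 t)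
      = a1 * (∫ t in (0 : ℝ)..(2 * π), g1 t) + a2 * (∫ t in (0 : ℝ)..(2 * π), g2 t)
        + a3 * (∫ t in (0 : ℝ)..(2 * π), g3 t) + a4 * (∫ t in (0 : ℝ)..(2 * π), g4 t)
        + a5 * (∫ t in (0 : ℝ)..(2 * π), g5 t) := by
  have i1 : ∀ {g : ℝ → ℂ} (a : ℂ), Continuous g →
      IntervalIntegrable (fun t => a * g t) volume 0 (2 * π) :=
    fun a hg => (continuous_const.mul hg).intervalIntegrable _ _
  rw [intervalIntegral.integral_add (((((i1 a1 h1).add (i1 a2 h2)).add (i1 a3 h3)).add (i1 a4 h4)))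
      (i1 a5 h5),
    intervalIntegral.integral_add ((((i1 a1 h1).add (i1 a2 h2)).add (i1 a3 h3))) (i1 a4 h4),
    intervalIntegral.integral_add (((i1 a1 h1).add (i1 a2 h2))) (i1 a3 h3),
    intervalIntegral.integral_add (i1 a1 h1) (i1 a2 h2)]
  simp only [intervalIntegral.integral_const_mul]

/-- the derivative of a moment along a curve -/
theorem der_MM (n : ℤ) {Φ Φ' : ℝ → ℝ} (hΦ : ∀ u, HasDerivAt Φ (Φ' u) u) (hΦ' : Continuous Φ')
    {φ : ℝ → ℝ → ℝ} {h : ℝ → ℝ} {s : ℝ} (hc : Crv φ h s) {X Y : ℝ → ℝ} {X' Y' : ℝ}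
    (hX : HasDerivAt X X' s) (hY : HasDerivAt Y Y' s) (hXY : X s ^ 2 + Y s ^ 2 < 1) :
    HasDerivAt (fun s => MM n Φ (X s) (Y s) (φ s)) (dMM n Φ Φ' (X s) (Y s) X' Y' (φ s) h) s := by
  have cΦ : Continuous Φ := continuous_iff_continuousAt.2 fun u => (hΦ u).continuousAt
  have r := der_Q Complex.reCLM n hΦ hΦ' hc hX hY hXY
  have i := der_Q Complex.imCLM n hΦ hΦ' hc hX hY hXY
  have e : (fun s => MM n Φ (X s) (Y s) (φ s)) =ᶠ[𝓝 s] fun s => (1 / (π : ℂ)) *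
      (((∫ t in (0 : ℝ)..(2 * π), Q Complex.reCLM n Φ (X s, Y s) t (φ s t) : ℝ) : ℂ)
        + ((∫ t in (0 : ℝ)..(2 * π), Q Complex.imCLM n Φ (X s, Y s) t (φ s t) : ℝ) : ℂ)
          * Complex.I) := by
    obtain ⟨m, hm0, hm, hbd⟩ := hc.bd
    have h1 : ∀ᶠ s in 𝓝 s, X s ^ 2 + Y s ^ 2 < 1 :=
      ((hX.continuousAt.pow 2).add (hY.continuousAt.pow 2)).eventually (gt_mem_nhds hXY)
    filter_upwards [h1, hbd] with r hr hb
    exact MM_re_im n cΦ hr (hc.meas r) hb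
  have d := ((r.ofReal_comp.add (i.ofReal_comp.mul_const Complex.I)).const_mul (1 / (π : ℂ))).congr_of_eventuallyEq e
  refine d.congr_deriv ?_
  clear d e r i
  generalize X s = x at *
  generalize Y s = y at *
  have hf : Continuous (φ s) := hc.ef.cont
  obtain ⟨m, hm0, hm, hbd⟩ := hc.bd
  have hfm : ∀ t, |φ s t| ≤ m := hbd.self_of_nhds
  have hlt : ∀ t, |φ s t| < π / 2 := fun t => lt_of_le_of_lt (hfm t) hm
  have hhm := hc.measd
  obtain ⟨C, hC0, hC⟩ := crv_bd hc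
  generalize φ s = f at *
  have cx : ∀ ℓ : ℂ →L[ℝ] ℝ, Continuous fun t => Qx ℓ n Φ Φ' (x, y) t (f t) := fun ℓ => by
    refine continuous_iff_continuousAt.2 fun t => ?_
    exact ContinuousAt.comp (f := fun t : ℝ => (((x, y) : ℝ × ℝ), t, f t))
      (g := fun q : (ℝ × ℝ) × ℝ × ℝ => Qx ℓ n Φ Φ' q.1 q.2.1 q.2.2) (x := t)
      ((ker_Q ℓ n hΦ hΦ').cx (x, y) hXY t (f t) (hlt t))
      (by fun_prop : Continuous fun t : ℝ => (((x, y) : ℝ × ℝ), t, f t)).continuousAt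
  have cy : ∀ ℓ : ℂ →L[ℝ] ℝ, Continuous fun t => Qy ℓ n Φ Φ' (x, y) t (f t) := fun ℓ => by
    refine continuous_iff_continuousAt.2 fun t => ?_
    exact ContinuousAt.comp (f := fun t : ℝ => (((x, y) : ℝ × ℝ), t, f t))
      (g := fun q : (ℝ × ℝ) × ℝ × ℝ => Qy ℓ n Φ Φ' q.1 q.2.1 q.2.2) (x := t)
      ((ker_Q ℓ n hΦ hΦ').cy (x, y) hXY t (f t) (hlt t))
      (by fun_prop : Continuous fun t : ℝ => (((x, y) : ℝ × ℝ), t, f t)).continuousAt
  have cK : ∀ k : ℤ, Continuous fun t => KK k x y t := fun k => cont_KK_t k hXY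
  have cD : ∀ {Ψ : ℝ → ℝ}, Continuous Ψ → Continuous fun t => ((Ψ (f t - arcsin (pr x y t)) : ℝ) : ℂ) := by
    intro Ψ hΨ
    have h1 : Continuous fun t => pr x y t := by
      unfold pr
      fun_prop
    exact Complex.continuous_ofReal.comp (hΨ.comp (hf.sub (continuous_arcsin.comp h1)))
  -- the second part of the integrand
  set G2 : ℝ → ℂ := fun t =>
    (-(1 / 2 * vt x y X' Y')) * ((Φ' (f t - arcsin (pr x y t)) : ℂ) * KK (n - 1) x y t)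
      + (-(1 / 2 * (starRingEnd ℂ) (vt x y X' Y'))) * ((Φ' (f t - arcsin (pr x y t)) : ℂ) * KK (n + 1) x y t)
      + (((n : ℂ) + 2) / (4 * (cc x y : ℂ))
      * ((starRingEnd ℂ) (YY x y) * (starRingEnd ℂ) (vt x y X' Y')))
        * ((Φ (f t - arcsin (pr x y t)) : ℂ) * KK (n + 2) x y t)
      + (-(((n : ℂ) - 2) / (4 * (cc x y : ℂ)) * (YY x y * vt x y X' Y')))
        * ((Φ (f t - arcsin (pr x y t)) : ℂ) * KK (n - 2) x y t)
      + ((n : ℂ) * (Complex.I * ((x * Y' - y * X' : ℝ) : ℂ))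
      * (1 / (1 + (cc x y : ℂ)) - 1 / (2 * (cc x y : ℂ))))
        * ((Φ (f t - arcsin (pr x y t)) : ℂ) * KK n x y t) with hG2
  have eG2 : ∫ t in (0 : ℝ)..(2 * π), G2 t = _ :=
    lin5 (g1 := fun t => (Φ' (f t - arcsin (pr x y t)) : ℂ) * KK (n - 1) x y t)
      (g2 := fun t => (Φ' (f t - arcsin (pr x y t)) : ℂ) * KK (n + 1) x y t)
      (g3 := fun t => (Φ (f t - arcsin (pr x y t)) : ℂ) * KK (n + 2) x y t)
      (g4 := fun t => (Φ (f t - arcsin (pr x y t)) : ℂ) * KK (n - 2) x y t)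
      (g5 := fun t => (Φ (f t - arcsin (pr x y t)) : ℂ) * KK n x y t)
      ((cD hΦ').mul (cK (n - 1))) ((cD hΦ').mul (cK (n + 1))) ((cD cΦ).mul (cK (n + 2)))
      ((cD cΦ).mul (cK (n - 2))) ((cD cΦ).mul (cK n)) _ _ _ _ _
  have cG2 : Continuous G2 := by
    rw [hG2]
    exact ((((continuous_const.mul ((cD hΦ').mul (cK (n - 1)))).add
      (continuous_const.mul ((cD hΦ').mul (cK (n + 1))))).add
      (continuous_const.mul ((cD cΦ).mul (cK (n + 2))))).add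
      (continuous_const.mul ((cD cΦ).mul (cK (n - 2))))).add
      (continuous_const.mul ((cD cΦ).mul (cK n)))
  have hG2' : ∀ t, G2 t = -(Φ' (f t - arcsin (pr x y t)) : ℂ)
      * ((((X' * cos t + Y' * sin t) / wv x y t : ℝ) : ℂ) * KK n x y t)
      + (Φ (f t - arcsin (pr x y t)) : ℂ) * ((X' : ℂ) * dKK n x y 1 0 t + (Y' : ℂ) * dKK n x y 0 1 t) := by
    intro t
    rw [← dKK_lin, dp_KK n hXY, hG2]
    unfold dKK
    ring
  have e2 : ∀ ℓ : ℂ →L[ℝ] ℝ, (∫ t in (0 : ℝ)..(2 * π), Qx ℓ n Φ Φ' (x, y) t (f t)) * X'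
      + (∫ t in (0 : ℝ)..(2 * π), Qy ℓ n Φ Φ' (x, y) t (f t)) * Y'
      = ∫ t in (0 : ℝ)..(2 * π), ℓ (G2 t) := by
    intro ℓ
    have i1 : IntervalIntegrable (fun t => Qx ℓ n Φ Φ' (x, y) t (f t) * X') volume 0 (2 * π) :=
      ((cx ℓ).mul continuous_const).intervalIntegrable _ _
    have i2 : IntervalIntegrable (fun t => Qy ℓ n Φ Φ' (x, y) t (f t) * Y') volume 0 (2 * π) :=
      ((cy ℓ).mul continuous_const).intervalIntegrable _ _
    rw [← intervalIntegral.integral_mul_const, ← intervalIntegral.integral_mul_const,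
      ← intervalIntegral.integral_add i1 i2]
    refine intervalIntegral.integral_congr fun t _ => ?_
    have e3 : ∀ (a : ℝ) (z : ℂ), ℓ ((a : ℂ) * z) = a * ℓ z := fun a z => by
      have := ℓ.map_smul a z
      simpa using this
    have e4 : G2 t = ((-(Φ' (f t - arcsin (pr x y t)) * ((X' * cos t + Y' * sin t) / wv x y t)) : ℝ) : ℂ)
        * KK n x y t + ((Φ (f t - arcsin (pr x y t)) * X' : ℝ) : ℂ) * dKK n x y 1 0 t
        + ((Φ (f t - arcsin (pr x y t)) * Y' : ℝ) : ℂ) * dKK n x y 0 1 t := by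
      rw [hG2' t]
      push_cast
      ring
    simp only [Qx, Qy]
    rw [e4, map_add, map_add, e3, e3, e3]
    ring
  have e5 : (((∫ t in (0 : ℝ)..(2 * π), Q Complex.reCLM n Φ' (x, y) t (f t) * h t : ℝ) : ℂ)
      + ((∫ t in (0 : ℝ)..(2 * π), Q Complex.imCLM n Φ' (x, y) t (f t) * h t : ℝ) : ℂ) * Complex.I)
      = ∫ t in (0 : ℝ)..(2 * π), ((Φ' (f t - arcsin (pr x y t)) * h t : ℝ) : ℂ) * KK n x y t := by
    obtain ⟨B, hB0, hB⟩ := bd_Φ hΦ' x y hfm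
    have hi : IntervalIntegrable (fun t => ((Φ' (f t - arcsin (pr x y t)) * h t : ℝ) : ℂ) * KK n x y t)
        volume 0 (2 * π) := by
      refine ii_of (B := B * C) ((meas_Φ hΦ' x y hf.measurable).mul hhm) (fun t ht => ?_) (cK n)
      change |Φ' (f t - arcsin (pr x y t)) * h t| ≤ B * C
      rw [abs_mul]
      exact mul_le_mul (hB t) (hC t ht) (abs_nonneg _) hB0
    rw [re_im_int hi]
    have e1 : ∀ t, (((Φ' (f t - arcsin (pr x y t)) * h t : ℝ) : ℂ) * KK n x y t).re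
        = Q Complex.reCLM n Φ' (x, y) t (f t) * h t := fun t => by
      rw [Complex.re_ofReal_mul]
      simp only [Q, Complex.reCLM_apply]
      ring
    have e2 : ∀ t, (((Φ' (f t - arcsin (pr x y t)) * h t : ℝ) : ℂ) * KK n x y t).im
        = Q Complex.imCLM n Φ' (x, y) t (f t) * h t := fun t => by
      rw [Complex.im_ofReal_mul]
      simp only [Q, Complex.imCLM_apply]
      ring
    simp only [e1, e2]
  have e6 : (((∫ t in (0 : ℝ)..(2 * π), Complex.reCLM (G2 t) : ℝ) : ℂ)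
      + ((∫ t in (0 : ℝ)..(2 * π), Complex.imCLM (G2 t) : ℝ) : ℂ) * Complex.I)
      = ∫ t in (0 : ℝ)..(2 * π), G2 t :=
    (re_im_int (cG2.intervalIntegrable _ _)).symm
  have e7 := e2 Complex.reCLM
  have e8 := e2 Complex.imCLM
  rw [add_assoc, add_assoc, e7, e8]
  unfold dMM MM
  rw [← e5]
  rw [eG2] at e6
  push_cast at e6 ⊢
  linear_combination (1 / (π : ℂ)) * e6

end Pool.Agent.FPX.S54
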