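import Mathlib
import Pool.Agent.FPX.F54F
import Pool.Agent.FPX.S54M

/-
F54G (helper8): the moments `M_n[Φ]` of `S54`, at the point `F54 f`, are functionals in the sense of
`UXA.Fn`, with helper29's explicit derivative, which is bounded at the functions bounded by `m < π/2`.
-/

open MeasureTheory Set Filter Topology
open scoped ENNReal NNReal ComplexConjugate

noncomputable section

namespace Pool.Agent.FPX.F54

open Real Pool.Agent.FPX.UMP Pool.Agent.FPX.UMQ Pool.Agent.FPX.KNT Pool.Agent.FPX.UXA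

/-- the moment `M_n[Φ]` at the point `F54 f` -/
def SM (n : ℤ) (Φ : ℝ → ℝ) (f : ℝ → ℝ) : ℂ := S54.MM n Φ (X1 f) (X2 f) f

/-- its derivative in the direction `h` -/
def dSM (n : ℤ) (Φ Φ' : ℝ → ℝ) (f h : ℝ → ℝ) : ℂ :=
  S54.dMM n Φ Φ' (X1 f) (X2 f) (dX1 f h) (dX2 f h) f h

variable {Φ Φ' : ℝ → ℝ} {n : ℤ}

theorem SM_rho (ρ : ℂ →L[ℝ] ℝ) (hΦ : Continuous Φ) {f : ℝ → ℝ} (hf : Ef f) :
    ρ (SM n Φ f) = (1 / π) * ∫ t in (0 : ℝ)..(2 * π), S54.Q ρ n Φ (ZZ FK DD f) t (f t) := by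
  obtain ⟨m, -, -, hb⟩ := hf.exists_bd
  obtain ⟨B, -, hB⟩ := S54.bd_Φ hΦ (X1 f) (X2 f) hb
  have hi := S54.ii_of (S54.meas_Φ hΦ (X1 f) (X2 f) hf.cont.measurable) (fun t _ => hB t)
    (S54.cont_KK_t n (X_lt hf))
  have e : (1 / (π : ℂ)) = ((1 / π : ℝ) : ℂ) := by push_cast; rfl
  unfold SM S54.MM
  rw [e, rho_real, int_rho ρ hi]
  congr 1
  refine intervalIntegral.integral_congr fun t _ => ?_
  simp only [rho_real, S54.Q]
  rfl

/-- **the moments are continuous and differentiable along curves** -/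
theorem fn_SM (ρ : ℂ →L[ℝ] ℝ) (n : ℤ) (hΦ : ∀ a, HasDerivAt Φ (Φ' a) a) (hΦ' : Continuous Φ') :
    Fn (fun f => ρ (SM n Φ f)) (fun f h => ρ (dSM n Φ Φ' f h)) where
  tds := by
    intro l φ f h1 h2 h3
    have hc : Continuous Φ := continuous_iff_continuousAt.2 fun a => (hΦ a).continuousAt
    have hk := S54.ker_Q ρ n hΦ hΦ'
    have h4 := KMap.tendsto_fun hk.op (L := S54.Q ρ n Φ) hk.cK (Z := ZZ FK DD) h1 h2 h3 (Zmem h2)
      (kmap.tendsto h1 h2 h3)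
    rw [SM_rho ρ hc h2]
    refine (h4.const_mul (1 / π)).congr' ?_
    filter_upwards [h1] with i hi
    rw [SM_rho ρ hc hi]
  der := by
    intro φ h x b hcr hb he
    have h1 := S54.der_MM n hΦ hΦ' hcr (X_der hcr he).1 (X_der hcr he).2 (X_lt hcr.ef)
    exact ρ.hasFDerivAt.comp_hasDerivAt x h1

theorem KK_bd {q : ℝ} (hq : q < 1) (n : ℤ) : ∃ C : ℝ, 0 ≤ C ∧ ∀ X ∈ DQ q, ∀ t ∈ Icc (0 : ℝ) (2 * π),
    ‖S54.KK n X.1 X.2 t‖ ≤ C := by
  have hc : IsCompact (DQ q ×ˢ Icc (0 : ℝ) (2 * π)) := (isCompact_DQ hq.le).prod isCompact_Icc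
  have hco : ContinuousOn (fun z : (ℝ × ℝ) × ℝ => S54.KK n z.1.1 z.1.2 z.2)
      (DQ q ×ˢ Icc (0 : ℝ) (2 * π)) := by
    rintro ⟨X, t⟩ ⟨h1, -⟩
    exact (S54.contAt_KK n (DQ_sub hq h1) t).continuousWithinAt
  obtain ⟨B, hB⟩ := hc.exists_bound_of_continuousOn hco
  exact ⟨|B|, abs_nonneg _, fun X hX t ht => (hB (X, t) ⟨hX, ht⟩).trans (le_abs_self _)⟩

theorem int_bd_c {F : ℝ → ℂ} {C : ℝ} (h : ∀ t ∈ Icc (0 : ℝ) (2 * π), ‖F t‖ ≤ C) :
    ‖(1 / (π : ℂ)) * ∫ t in (0 : ℝ)..(2 * π), F t‖ ≤ 2 * C := by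
  have h1 := intervalIntegral.norm_integral_le_of_norm_le_const (a := (0 : ℝ)) (b := 2 * π)
    (f := F) (C := C) (fun t ht => by
      rw [uIoc_of_le (by positivity)] at ht
      exact h t (Ioc_subset_Icc_self ht))
  rw [sub_zero, abs_of_pos (by positivity)] at h1
  rw [norm_mul]
  have h2 : ‖(1 / (π : ℂ))‖ = 1 / π := by
    rw [norm_div, norm_one, Complex.norm_real, Real.norm_eq_abs, abs_of_pos pi_pos]
  rw [h2]
  calc 1 / π * ‖∫ t in (0 : ℝ)..(2 * π), F t‖ ≤ 1 / π * (C * (2 * π)) :=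
        mul_le_mul_of_nonneg_left h1 (by positivity)
    _ = 2 * C := by
        field_simp

theorem Φ_bd (hΦ : Continuous Φ) : ∃ B : ℝ, 0 ≤ B ∧ ∀ (f : ℝ → ℝ) (x y t : ℝ), |f t| ≤ π / 2 →
    |Φ (f t - arcsin (pr x y t))| ≤ B := by
  obtain ⟨B, hB⟩ := (isCompact_Icc (a := -π) (b := π)).exists_bound_of_continuousOn hΦ.continuousOn
  refine ⟨|B|, abs_nonneg _, fun f x y t hb => ?_⟩
  have h1 := abs_le.1 hb
  have h2 := neg_pi_div_two_le_arcsin (pr x y t)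
  have h3 := arcsin_le_pi_div_two (pr x y t)
  have h4 := hB (f t - arcsin (pr x y t)) ⟨by linarith [h1.1], by linarith [h1.2]⟩
  rw [Real.norm_eq_abs] at h4
  exact h4.trans (le_abs_self B)

/-- the moments are bounded -/
theorem MM_bd {q : ℝ} (hq : q < 1) (n : ℤ) (hΦ : Continuous Φ) : ∃ C : ℝ, 0 ≤ C ∧
    ∀ X ∈ DQ q, ∀ f : ℝ → ℝ, (∀ t, |f t| ≤ π / 2) → ‖S54.MM n Φ X.1 X.2 f‖ ≤ C := by
  obtain ⟨CK, hCK, hK⟩ := KK_bd hq n
  obtain ⟨B, hB0, hB⟩ := Φ_bd hΦ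
  refine ⟨2 * (B * CK), by positivity, fun X hX f hf => ?_⟩
  unfold S54.MM
  refine int_bd_c fun t ht => ?_
  rw [norm_mul, Complex.norm_real, Real.norm_eq_abs]
  exact mul_le_mul (hB f X.1 X.2 t (hf t)) (hK X hX t ht) (norm_nonneg _) hB0

theorem vt_bd {q : ℝ} (hq : q < 1) {x y x' y' D : ℝ} (hX : x ^ 2 + y ^ 2 ≤ q)
    (hD : 0 ≤ D) (h1 : |x'| ≤ D) (h2 : |y'| ≤ D) :
    ‖S54.vt x y x' y'‖ ≤ (2 + 4 / √(1 - q)) * D := by
  have hs : 0 < √(1 - q) := sqrt_pos.2 (by linarith)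
  have hcc : √(1 - q) ≤ S54.cc x y := by
    unfold S54.cc
    exact sqrt_le_sqrt (by linarith)
  have hc0 : 0 < S54.cc x y := hs.trans_le hcc
  have hx : |x| ≤ 1 := abs_le_one_iff_mul_self_le_one.2 (by nlinarith [sq_nonneg y])
  have hy : |y| ≤ 1 := abs_le_one_iff_mul_self_le_one.2 (by nlinarith [sq_nonneg x])
  have hden : √(1 - q) ≤ S54.cc x y * (1 + S54.cc x y) := by nlinarith
  have hlin : |x * x' + y * y'| ≤ 2 * D := by
    refine (abs_add_le _ _).trans ?_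
    rw [abs_mul, abs_mul]
    nlinarith [mul_le_mul hx h1 (abs_nonneg _) (by norm_num), mul_le_mul hy h2 (abs_nonneg _) (by norm_num)]
  have hfrac : ∀ z : ℝ, |z| ≤ 1 →
      |z * (x * x' + y * y') / (S54.cc x y * (1 + S54.cc x y))| ≤ 2 / √(1 - q) * D := by
    intro z hz
    rw [abs_div, abs_mul, abs_of_pos (by positivity : 0 < S54.cc x y * (1 + S54.cc x y))]
    calc |z| * |x * x' + y * y'| / (S54.cc x y * (1 + S54.cc x y))
        ≤ 1 * (2 * D) / √(1 - q) := by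
          refine div_le_div₀ (by positivity) ?_ hs hden
          exact mul_le_mul hz hlin (abs_nonneg _) (by norm_num)
      _ = _ := by ring
  have e : S54.vt x y x' y' = ((x' + x * (x * x' + y * y') / (S54.cc x y * (1 + S54.cc x y)) : ℝ) : ℂ)
      + ((y' + y * (x * x' + y * y') / (S54.cc x y * (1 + S54.cc x y)) : ℝ) : ℂ) * Complex.I := by
    unfold S54.vt
    exact Complex.mk_eq_add_mul_I _ _
  rw [e]
  refine (norm_add_le _ _).trans ?_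
  rw [norm_mul, Complex.norm_I, mul_one, Complex.norm_real, Complex.norm_real, Real.norm_eq_abs,
    Real.norm_eq_abs]
  have a1 := (abs_add_le x' (x * (x * x' + y * y') / (S54.cc x y * (1 + S54.cc x y)))).trans
    (add_le_add h1 (hfrac x hx))
  have a2 := (abs_add_le y' (y * (x * x' + y * y') / (S54.cc x y * (1 + S54.cc x y)))).trans
    (add_le_add h2 (hfrac y hy))
  calc _ ≤ (D + 2 / √(1 - q) * D) + (D + 2 / √(1 - q) * D) := add_le_add a1 a2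
    _ = _ := by ring

/-- **the derivatives of the moments are bounded** at the functions bounded by `m < π/2` -/
theorem bdd_SM (ρ : ℂ →L[ℝ] ℝ) (n : ℤ) (hΦ : ∀ a, HasDerivAt Φ (Φ' a) a) (hΦ' : Continuous Φ')
    {m : ℝ} (hm0 : 0 ≤ m) (hm : m < π / 2) :
    ∃ L : ℝ, 0 ≤ L ∧ Bdd (fun f h => ρ (dSM n Φ Φ' f h)) m L := by
  have hc : Continuous Φ := continuous_iff_continuousAt.2 fun a => (hΦ a).continuousAt
  obtain ⟨q, hq0, hq1, hq⟩ := X_le hm0 hm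
  obtain ⟨CK, hCK, hK⟩ := KK_bd hq1 n
  obtain ⟨B, hB0, hB⟩ := Φ_bd hΦ'
  obtain ⟨M1, hM1, m1⟩ := MM_bd hq1 (n - 1) hΦ'
  obtain ⟨M2, hM2, m2⟩ := MM_bd hq1 (n + 1) hΦ'
  obtain ⟨M3, hM3, m3⟩ := MM_bd hq1 (n + 2) hc
  obtain ⟨M4, hM4, m4⟩ := MM_bd hq1 (n - 2) hc
  obtain ⟨M5, hM5, m5⟩ := MM_bd hq1 n hc
  have hs : 0 < √(1 - q) := sqrt_pos.2 (by linarith)
  set V := (2 + 4 / √(1 - q)) * 7 with hV
  have hV0 : 0 ≤ V := by positivity
  set c0 := √(1 - q) with hc0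
  set N := |(n : ℝ)| with hN
  have hN0 : 0 ≤ N := abs_nonneg _
  refine ⟨‖ρ‖ * (2 * (B * CK) + 1 / 2 * (V * M1 + V * M2) + (N + 2) / (4 * c0) * V * M3
    + (N + 2) / (4 * c0) * V * M4 + N * 14 * (1 + 1 / (2 * c0)) * M5), by positivity, ?_⟩
  intro f h D hf hfm hm' hD hh
  have hZ : X1 f ^ 2 + X2 f ^ 2 ≤ q := hq f hf hfm
  have hZ' : (X1 f, X2 f) ∈ DQ q := hZ
  have hfp : ∀ t, |f t| ≤ π / 2 := fun t => (hf.lt t).le
  have d1 := umap.bX m f h D hf hfm hm' hD hh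
  have d2 := umap.bY m f h D hf hfm hm' hD hh
  have hv : ‖S54.vt (X1 f) (X2 f) (dX1 f h) (dX2 f h)‖ ≤ V * D := by
    have := vt_bd hq1 hZ (by positivity : 0 ≤ 7 * D) d1 d2
    calc _ ≤ _ := this
      _ = V * D := by rw [hV]; ring
  have hcc : c0 ≤ S54.cc (X1 f) (X2 f) := by
    unfold S54.cc
    exact sqrt_le_sqrt (by linarith)
  have hccp : 0 < S54.cc (X1 f) (X2 f) := hs.trans_le hcc
  have hY : ‖S54.YY (X1 f) (X2 f)‖ ≤ 1 := by
    unfold S54.YY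
    rw [Complex.norm_def, Complex.normSq_mk]
    exact sqrt_le_one.2 (by nlinarith)
  have t1 : ‖(1 / (π : ℂ)) * ∫ t in (0 : ℝ)..(2 * π),
      ((Φ' (f t - arcsin (pr (X1 f) (X2 f) t)) * h t : ℝ) : ℂ) * S54.KK n (X1 f) (X2 f) t‖
      ≤ 2 * (B * D * CK) := by
    refine int_bd_c fun t ht => ?_
    rw [norm_mul, Complex.norm_real, Real.norm_eq_abs, abs_mul]
    exact mul_le_mul (mul_le_mul (hB f _ _ t (hfp t)) (hh t) (abs_nonneg _) hB0)
      (hK _ hZ' t ht) (norm_nonneg _) (by positivity)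
  have t2 : ‖(1 / 2 : ℂ) * (S54.vt (X1 f) (X2 f) (dX1 f h) (dX2 f h) * S54.MM (n - 1) Φ' (X1 f) (X2 f) f
      + (starRingEnd ℂ) (S54.vt (X1 f) (X2 f) (dX1 f h) (dX2 f h)) * S54.MM (n + 1) Φ' (X1 f) (X2 f) f)‖
      ≤ 1 / 2 * (V * D * M1 + V * D * M2) := by
    rw [norm_mul]
    have : ‖(1 / 2 : ℂ)‖ = 1 / 2 := by norm_num
    rw [this]
    refine mul_le_mul_of_nonneg_left ((norm_add_le _ _).trans (add_le_add ?_ ?_)) (by norm_num)
    · rw [norm_mul]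
      exact mul_le_mul hv (m1 _ hZ' f hfp) (norm_nonneg _) (by positivity)
    · rw [norm_mul, RCLike.norm_conj]
      exact mul_le_mul hv (m2 _ hZ' f hfp) (norm_nonneg _) (by positivity)
  have hn : ‖(n : ℂ)‖ = N := by
    have e : (n : ℂ) = ((n : ℝ) : ℂ) := by
      push_cast
      rfl
    rw [hN, e, Complex.norm_real, Real.norm_eq_abs]
  have hcof : ∀ z : ℂ, ‖z‖ ≤ N + 2 → ‖z / (4 * (S54.cc (X1 f) (X2 f) : ℂ))‖ ≤ (N + 2) / (4 * c0) := by
    intro z hz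
    rw [norm_div, norm_mul, Complex.norm_real, Real.norm_eq_abs, abs_of_pos hccp]
    have : ‖(4 : ℂ)‖ = 4 := by norm_num
    rw [this]
    exact div_le_div₀ (by positivity) hz (by positivity) (by linarith)
  have h2 : ‖(2 : ℂ)‖ = 2 := by norm_num
  have t3 : ‖((n : ℂ) + 2) / (4 * (S54.cc (X1 f) (X2 f) : ℂ))
      * ((starRingEnd ℂ) (S54.YY (X1 f) (X2 f)) *
        (starRingEnd ℂ) (S54.vt (X1 f) (X2 f) (dX1 f h) (dX2 f h))) * S54.MM (n + 2) Φ (X1 f) (X2 f) f‖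
      ≤ (N + 2) / (4 * c0) * (V * D) * M3 := by
    rw [norm_mul, norm_mul, norm_mul, RCLike.norm_conj, RCLike.norm_conj]
    have a1 := hcof ((n : ℂ) + 2) ((norm_add_le _ _).trans (by rw [hn, h2]))
    have a2 : ‖S54.YY (X1 f) (X2 f)‖ * ‖S54.vt (X1 f) (X2 f) (dX1 f h) (dX2 f h)‖ ≤ V * D := by
      calc _ ≤ 1 * (V * D) := mul_le_mul hY hv (norm_nonneg _) (by norm_num)
        _ = _ := one_mul _
    exact mul_le_mul (mul_le_mul a1 a2 (by positivity) (by positivity)) (m3 _ hZ' f hfp)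
      (norm_nonneg _) (by positivity)
  have t4 : ‖((n : ℂ) - 2) / (4 * (S54.cc (X1 f) (X2 f) : ℂ))
      * (S54.YY (X1 f) (X2 f) * S54.vt (X1 f) (X2 f) (dX1 f h) (dX2 f h))
        * S54.MM (n - 2) Φ (X1 f) (X2 f) f‖
      ≤ (N + 2) / (4 * c0) * (V * D) * M4 := by
    rw [norm_mul, norm_mul, norm_mul]
    have a1 := hcof ((n : ℂ) - 2) ((norm_sub_le _ _).trans (by rw [hn, h2]))
    have a2 : ‖S54.YY (X1 f) (X2 f)‖ * ‖S54.vt (X1 f) (X2 f) (dX1 f h) (dX2 f h)‖ ≤ V * D := by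
      calc _ ≤ 1 * (V * D) := mul_le_mul hY hv (norm_nonneg _) (by norm_num)
        _ = _ := one_mul _
    exact mul_le_mul (mul_le_mul a1 a2 (by positivity) (by positivity)) (m4 _ hZ' f hfp)
      (norm_nonneg _) (by positivity)
  have t5 : ‖(n : ℂ) * (Complex.I * ((X1 f * dX2 f h - X2 f * dX1 f h : ℝ) : ℂ))
      * (1 / (1 + (S54.cc (X1 f) (X2 f) : ℂ)) - 1 / (2 * (S54.cc (X1 f) (X2 f) : ℂ)))
        * S54.MM n Φ (X1 f) (X2 f) f‖
      ≤ N * (14 * D) * (1 + 1 / (2 * c0)) * M5 := by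
    rw [norm_mul, norm_mul, norm_mul, norm_mul, hn, Complex.norm_I, one_mul, Complex.norm_real,
      Real.norm_eq_abs]
    have hx : |X1 f| ≤ 1 := abs_le_one_iff_mul_self_le_one.2 (by nlinarith [sq_nonneg (X2 f)])
    have hy : |X2 f| ≤ 1 := abs_le_one_iff_mul_self_le_one.2 (by nlinarith [sq_nonneg (X1 f)])
    have a1 : |X1 f * dX2 f h - X2 f * dX1 f h| ≤ 14 * D := by
      refine (abs_sub _ _).trans ?_
      rw [abs_mul, abs_mul]
      nlinarith [mul_le_mul hx d2 (abs_nonneg _) (by norm_num),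
        mul_le_mul hy d1 (abs_nonneg _) (by norm_num)]
    have a2 : ‖(1 : ℂ) / (1 + (S54.cc (X1 f) (X2 f) : ℂ)) - 1 / (2 * (S54.cc (X1 f) (X2 f) : ℂ))‖
        ≤ 1 + 1 / (2 * c0) := by
      refine (norm_sub_le _ _).trans (add_le_add ?_ ?_)
      · rw [norm_div, norm_one]
        have e : (1 + (S54.cc (X1 f) (X2 f) : ℂ)) = ((1 + S54.cc (X1 f) (X2 f) : ℝ) : ℂ) := by
          push_cast
          rfl
        rw [e, Complex.norm_real, Real.norm_eq_abs, abs_of_pos (by positivity)]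
        rw [div_le_one (by positivity)]
        linarith
      · rw [norm_div, norm_one, norm_mul, h2, Complex.norm_real, Real.norm_eq_abs, abs_of_pos hccp]
        exact div_le_div₀ (by norm_num) le_rfl (by positivity) (by linarith)
    exact mul_le_mul (mul_le_mul (mul_le_mul_of_nonneg_left a1 hN0) a2 (norm_nonneg _) (by positivity))
      (m5 _ hZ' f hfp) (norm_nonneg _) (by positivity)
  change |ρ (dSM n Φ Φ' f h)| ≤ _
  have hρ : |ρ (dSM n Φ Φ' f h)| ≤ ‖ρ‖ * ‖dSM n Φ Φ' f h‖ := by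
    rw [← Real.norm_eq_abs]
    exact ρ.le_opNorm _
  refine hρ.trans ?_
  have tot : ‖dSM n Φ Φ' f h‖ ≤ 2 * (B * D * CK) + 1 / 2 * (V * D * M1 + V * D * M2)
      + (N + 2) / (4 * c0) * (V * D) * M3 + (N + 2) / (4 * c0) * (V * D) * M4
      + N * (14 * D) * (1 + 1 / (2 * c0)) * M5 := by
    unfold dSM S54.dMM
    refine (norm_add_le _ _).trans (add_le_add ?_ t5)
    refine (norm_sub_le _ _).trans (add_le_add ?_ t4)
    refine (norm_add_le _ _).trans (add_le_add ?_ t3)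
    exact (norm_sub_le _ _).trans (add_le_add t1 t2)
  calc ‖ρ‖ * ‖dSM n Φ Φ' f h‖ ≤ ‖ρ‖ * (2 * (B * D * CK) + 1 / 2 * (V * D * M1 + V * D * M2)
      + (N + 2) / (4 * c0) * (V * D) * M3 + (N + 2) / (4 * c0) * (V * D) * M4
      + N * (14 * D) * (1 + 1 / (2 * c0)) * M5) := mul_le_mul_of_nonneg_left tot (norm_nonneg _)
    _ = _ := by ring

end Pool.Agent.FPX.F54
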