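import Mathlib
import Pool.Agent.FPX.EMN

/-
CNU (helper88): the complex velocity of a map into the half sphere in the smooth frame. `ζ = X + i Y` is
the horizontal coordinate, `c > 0` the height, `v = dζ + ζ Re (conj ζ dζ) / (c (1 + c))`. The Jacobian,
`ν = e - J` and the energy density of a map `F` with `τ F₂ > 0` in terms of
`A = (v_x + i τ v_y) / 2`, `B = (v_x - i τ v_y) / 2` : `J = |A|² - |B|²`, `ν = 2 |B|²`, `e = |A|² + |B|²`.
-/

open MeasureTheory Set Filter Topology ComplexConjugate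
open scoped ENNReal NNReal

noncomputable section

namespace Pool.Agent.FPX.CNU

open Pool.Agent.EWD

/-- the velocity on the unit sphere in the smooth frame -/
def vel (c : ℝ) (ζ w : ℂ) : ℂ := w + (((conj ζ * w).re / (c * (1 + c)) : ℝ) : ℂ) * ζ

theorem vel_re (c : ℝ) (ζ w : ℂ) :
    (vel c ζ w).re = w.re + (ζ.re * w.re + ζ.im * w.im) / (c * (1 + c)) * ζ.re := by
  rw [vel, Complex.add_re, Complex.re_ofReal_mul]
  simp

theorem vel_im (c : ℝ) (ζ w : ℂ) :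
    (vel c ζ w).im = w.im + (ζ.re * w.re + ζ.im * w.im) / (c * (1 + c)) * ζ.im := by
  rw [vel, Complex.add_im, Complex.im_ofReal_mul]
  simp

/-- `v ∧ v' = dζ ∧ dζ' / c` -/
theorem vel_wedge {c : ℝ} (hc : 0 < c) {ζ : ℂ} (h : ζ.re ^ 2 + ζ.im ^ 2 + c ^ 2 = 1) (w z : ℂ) :
    (conj (vel c ζ w) * vel c ζ z).im = (conj w * z).im / c := by
  have h1 : (conj (vel c ζ w) * vel c ζ z).im =
      (vel c ζ w).re * (vel c ζ z).im - (vel c ζ w).im * (vel c ζ z).re := by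
    simp [Complex.mul_im]
    ring
  have h2 : (conj w * z).im = w.re * z.im - w.im * z.re := by
    simp [Complex.mul_im]
    ring
  have hc1 : 0 < 1 + c := by linarith
  rw [h1, h2, vel_re, vel_im, vel_re, vel_im]
  field_simp
  linear_combination (c + c ^ 2) * (w.re * z.im - w.im * z.re) * h

/-- `|v|² = |dζ|² + (Re (conj ζ dζ) / c)²` -/
theorem vel_sq {c : ℝ} (hc : 0 < c) {ζ : ℂ} (h : ζ.re ^ 2 + ζ.im ^ 2 + c ^ 2 = 1) (w : ℂ) :
    Complex.normSq (vel c ζ w) = w.re ^ 2 + w.im ^ 2 + ((ζ.re * w.re + ζ.im * w.im) / c) ^ 2 := by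
  have hc1 : 0 < 1 + c := by linarith
  rw [Complex.normSq_apply, vel_re, vel_im]
  field_simp
  linear_combination (ζ.re * w.re + ζ.im * w.im) ^ 2 * h

/-- the coefficient of `z` -/
def fA (τ : ℝ) (vx vy : ℂ) : ℂ := (vx + Complex.I * (τ : ℂ) * vy) / 2

/-- the coefficient of `conj z` -/
def fB (τ : ℝ) (vx vy : ℂ) : ℂ := (vx - Complex.I * (τ : ℂ) * vy) / 2

theorem fA_add_fB (τ : ℝ) (vx vy : ℂ) : fA τ vx vy + fB τ vx vy = vx := by
  unfold fA fB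
  ring

theorem fA_sub_fB {τ : ℝ} (hτ : τ ^ 2 = 1) (vx vy : ℂ) :
    -(Complex.I * (τ : ℂ)) * (fA τ vx vy - fB τ vx vy) = vy := by
  unfold fA fB
  have h1 : (τ : ℂ) ^ 2 = 1 := by
    rw [← Complex.ofReal_pow, hτ, Complex.ofReal_one]
  linear_combination (-(vy * (τ : ℂ) ^ 2)) * Complex.I_sq + vy * h1

theorem fA_sq (τ : ℝ) (vx vy : ℂ) : Complex.normSq (fA τ vx vy) =
    (Complex.normSq vx + τ ^ 2 * Complex.normSq vy) / 4 - τ * (conj vx * vy).im / 2 := by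
  simp [fA, Complex.normSq_apply, Complex.mul_im, Complex.mul_re]
  ring

theorem fB_sq (τ : ℝ) (vx vy : ℂ) : Complex.normSq (fB τ vx vy) =
    (Complex.normSq vx + τ ^ 2 * Complex.normSq vy) / 4 + τ * (conj vx * vy).im / 2 := by
  simp [fB, Complex.normSq_apply, Complex.mul_im, Complex.mul_re]
  ring

theorem fA_sub {τ : ℝ} (vx vy : ℂ) :
    Complex.normSq (fA τ vx vy) - Complex.normSq (fB τ vx vy) = -τ * (conj vx * vy).im := by
  rw [fA_sq, fB_sq]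
  ring

theorem fA_add {τ : ℝ} (hτ : τ ^ 2 = 1) (vx vy : ℂ) :
    Complex.normSq (fA τ vx vy) + Complex.normSq (fB τ vx vy) =
      (Complex.normSq vx + Complex.normSq vy) / 2 := by
  rw [fA_sq, fB_sq, hτ]
  ring

/-! ## vectors -/

/-- the horizontal part of a vector -/
def hz (a : E3) : ℂ := ⟨a 0, a 1⟩

theorem vel_vec_sq {v a : E3} (hv : ‖v‖ = 1) (ha : inner ℝ v a = (0 : ℝ)) {τ : ℝ} (hτ : τ ^ 2 = 1)
    (hc : 0 < τ * v 2) : Complex.normSq (vel (τ * v 2) (hz v) (hz a)) = ‖a‖ ^ 2 := by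
  have h1 : v 0 ^ 2 + v 1 ^ 2 + v 2 ^ 2 = 1 := by rw [← normsq3, hv, one_pow]
  rw [inner3] at ha
  have h2 : (hz v).re ^ 2 + (hz v).im ^ 2 + (τ * v 2) ^ 2 = 1 := by
    change v 0 ^ 2 + v 1 ^ 2 + (τ * v 2) ^ 2 = 1
    rw [mul_pow, hτ, one_mul, h1]
  rw [vel_sq hc h2, normsq3]
  change a 0 ^ 2 + a 1 ^ 2 + ((v 0 * a 0 + v 1 * a 1) / (τ * v 2)) ^ 2 = _
  have h3 : v 0 * a 0 + v 1 * a 1 = -(v 2 * a 2) := by linarith
  have h4 : ((v 0 * a 0 + v 1 * a 1) / (τ * v 2)) ^ 2 = a 2 ^ 2 := by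
    rw [h3, div_pow, mul_pow, hτ, one_mul]
    have : v 2 ≠ 0 := by
      intro h
      rw [h, mul_zero] at hc
      exact lt_irrefl _ hc
    field_simp
  rw [h4]

theorem vel_vec_jac {v a b : E3} (hv : ‖v‖ = 1) (ha : inner ℝ v a = (0 : ℝ)) (hb : inner ℝ v b = (0 : ℝ))
    {τ : ℝ} (hτ : τ ^ 2 = 1) (hc : 0 < τ * v 2) :
    -τ * (conj (vel (τ * v 2) (hz v) (hz a)) * vel (τ * v 2) (hz v) (hz b)).im
      = inner ℝ v (crs b a) := by
  have h1 : v 0 ^ 2 + v 1 ^ 2 + v 2 ^ 2 = 1 := by rw [← normsq3, hv, one_pow]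
  rw [inner3] at ha hb
  have h2 : (hz v).re ^ 2 + (hz v).im ^ 2 + (τ * v 2) ^ 2 = 1 := by
    change v 0 ^ 2 + v 1 ^ 2 + (τ * v 2) ^ 2 = 1
    rw [mul_pow, hτ, one_mul, h1]
  rw [vel_wedge hc h2]
  have h3 : (conj (hz a) * hz b).im = a 0 * b 1 - a 1 * b 0 := by
    simp [hz, Complex.mul_im]
    ring
  rw [h3, inner3]
  simp only [crs0, crs1, crs2]
  have hv2 : v 2 ≠ 0 := by
    intro h
    rw [h, mul_zero] at hc
    exact lt_irrefl _ hc
  have hτ0 : τ ≠ 0 := by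
    intro h
    rw [h, zero_mul] at hc
    exact lt_irrefl _ hc
  have e : (v 0 * (b 1 * a 2 - b 2 * a 1) + v 1 * (b 2 * a 0 - b 0 * a 2) + v 2 * (b 0 * a 1 - b 1 * a 0))
      * v 2 = -(a 0 * b 1 - a 1 * b 0) := by
    linear_combination (-(a 0 * b 1 - a 1 * b 0)) * h1 + (b 1 * v 0 - b 0 * v 1) * ha
      - (a 1 * v 0 - a 0 * v 1) * hb
  rw [div_eq_mul_inv, mul_inv]
  have e2 : (v 0 * (b 1 * a 2 - b 2 * a 1) + v 1 * (b 2 * a 0 - b 0 * a 2) + v 2 * (b 0 * a 1 - b 1 * a 0))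
      = -(a 0 * b 1 - a 1 * b 0) * (v 2)⁻¹ := by
    rw [← e]
    field_simp
  rw [e2]
  have e3 : τ * τ⁻¹ = 1 := mul_inv_cancel₀ hτ0
  linear_combination (-(a 0 * b 1 - a 1 * b 0) * (v 2)⁻¹) * e3

/-! ## the map on the surface -/

variable {M : Type} [MetricSpace M] {γ : ℝ → M}

/-- the velocity in the first direction -/
def vlx (C : Calc M γ) (τ : ℝ) (F : Fin 3 → M → ℝ) (o : Om) : ℂ :=
  vel (τ * F 2 (C.pt o)) ⟨F 0 (C.pt o), F 1 (C.pt o)⟩ ⟨C.gx (F 0) o, C.gx (F 1) o⟩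

/-- the velocity in the second direction -/
def vly (C : Calc M γ) (τ : ℝ) (F : Fin 3 → M → ℝ) (o : Om) : ℂ :=
  vel (τ * F 2 (C.pt o)) ⟨F 0 (C.pt o), F 1 (C.pt o)⟩ ⟨C.gy (F 0) o, C.gy (F 1) o⟩

/-- **the derivative of the map in complex form** -/
theorem ae_vel (C : Calc M γ) {F : Fin 3 → M → ℝ} (hF : Sph γ F) {τ : ℝ} (hτ : τ ^ 2 = 1) :
    ∀ᵐ o ∂C.μ, 0 < τ * F 2 (C.pt o) →
      Complex.normSq (vlx C τ F o) = ‖dx C F o‖ ^ 2 ∧ Complex.normSq (vly C τ F o) = ‖dy C F o‖ ^ 2 ∧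
      -τ * (conj (vlx C τ F o) * vly C τ F o).im = jac C F o ∧
      jac C F o = Complex.normSq (fA τ (vlx C τ F o) (vly C τ F o))
        - Complex.normSq (fB τ (vlx C τ F o) (vly C τ F o)) ∧
      nuC C F o = 2 * Complex.normSq (fB τ (vlx C τ F o) (vly C τ F o)) ∧
      S2 C F o = 2 * (Complex.normSq (fA τ (vlx C τ F o) (vly C τ F o))
        + Complex.normSq (fB τ (vlx C τ F o) (vly C τ F o))) := by
  filter_upwards [ae_perp C hF, ae_S2 C hF] with o ho hS hc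
  have n1 := norm_at (C := C) hF o
  have h1 : Complex.normSq (vlx C τ F o) = ‖dx C F o‖ ^ 2 :=
    vel_vec_sq (v := at' C F o) (a := dx C F o) n1 ho.1 hτ hc
  have h2 : Complex.normSq (vly C τ F o) = ‖dy C F o‖ ^ 2 :=
    vel_vec_sq (v := at' C F o) (a := dy C F o) n1 ho.2 hτ hc
  have h3 : -τ * (conj (vlx C τ F o) * vly C τ F o).im = jac C F o :=
    vel_vec_jac (v := at' C F o) (a := dx C F o) (b := dy C F o) n1 ho.1 ho.2 hτ hc
  have h4 := fA_sub (τ := τ) (vlx C τ F o) (vly C τ F o)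
  have h5 := fA_add hτ (vlx C τ F o) (vly C τ F o)
  have h6 : S2 C F o = ‖dx C F o‖ ^ 2 + ‖dy C F o‖ ^ 2 := rfl
  refine ⟨h1, h2, h3, by rw [h4, h3], ?_, ?_⟩
  · rw [h3] at h4
    rw [h1, h2] at h5
    linarith
  · rw [h1, h2] at h5
    linarith

/-- the area form of the horizontal coordinates -/
theorem ae_wed (C : Calc M γ) {F : Fin 3 → M → ℝ} (hF : Sph γ F) :
    ∀ᵐ o ∂C.μ, C.wed (F 0) (F 1) o = -(F 2 (C.pt o) * jac C F o) := by
  filter_upwards [ae_perp C hF] with o ho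
  have n1 := norm_at (C := C) hF o
  have h1 : at' C F o 0 ^ 2 + at' C F o 1 ^ 2 + at' C F o 2 ^ 2 = 1 := by rw [← normsq3, n1, one_pow]
  have ha := ho.1
  have hb := ho.2
  rw [inner3] at ha hb
  unfold jac
  rw [inner3]
  simp only [crs0, crs1, crs2]
  change dx C F o 0 * dy C F o 1 - dy C F o 0 * dx C F o 1 = -(at' C F o 2 * _)
  linear_combination (-(dx C F o 0 * dy C F o 1 - dx C F o 1 * dy C F o 0)) * h1
    + (dy C F o 1 * at' C F o 0 - dy C F o 0 * at' C F o 1) * ha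
    - (dx C F o 1 * at' C F o 0 - dx C F o 0 * at' C F o 1) * hb

end Pool.Agent.FPX.CNU
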