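import Mathlib
import Pool.Agent.FPX.F54X
import Pool.Agent.FPX.C54A
import Pool.Agent.FPX.CNU

/-
F54J (helper65): helper54's map in the moving frame. At a point `Y = (x, y)` of the disc put
`c = √(1 - |Y|²)`, `p = ⟨Y, u_t⟩`, `w = √(1 - p²)`, `E = e^{it} - p Y / (1 + c)` (so `|E| = w`),
`K_m = c E^m / w^{m+2}`. For a vector `V` of the disc put `v = V + ⟨Y, V⟩ Y / (c (1 + c))`. If `f` is a
state with `G = 0` and `H V = ∫ h u (1 - p²)^(-3/2)` then `v - σ conj v = (1/π) ∫ h K_1`,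
`σ = (3/4) (conj Y / c) (1/π) ∫ (f - arcsin p) K_3`.
-/

open MeasureTheory Set Filter Topology intervalIntegral
open scoped ComplexConjugate

noncomputable section

namespace Pool.Agent.FPX.F54

open Real
open Pool.Agent.FPX.F54B (ker ker_pos one_le_ker cont_ker_pr cont_pr)
open Pool.Agent.FPX.C54 (ce wt EE KK Cm Lm vv ce_pos ce_sq wt_pos wt_sq)

/-- the coefficient of the linear equation -/
def sg (x y : ℝ) (f : ℝ → ℝ) : ℂ := (3 / 4 : ℂ) * (conj (⟨x, y⟩ : ℂ) / (ce x y : ℂ)) * Cm 3 x y f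

section point

variable {x y : ℝ} (h : x ^ 2 + y ^ 2 < 1)

include h

omit h in
theorem cont_wt : Continuous (wt x y) := by
  unfold wt
  exact (continuous_const.sub (cont_pr.pow 2)).sqrt

omit h in
theorem cont_EE : Continuous (EE x y) := by
  have h1 : Continuous fun t => ((cos t - pr x y t * x / (1 + ce x y) : ℝ) : ℂ)
      + ((sin t - pr x y t * y / (1 + ce x y) : ℝ) : ℂ) * Complex.I := by
    have := (cont_pr (x := x) (y := y))
    fun_prop
  refine h1.congr fun t => ?_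
  exact (Complex.mk_eq_add_mul_I _ _).symm

/-- `⟨Y, E⟩ = c p` -/
theorem inner_EE (t : ℝ) : x * (EE x y t).re + y * (EE x y t).im = ce x y * pr x y t := by
  have hc2 := ce_sq h
  have hc0 := ce_pos h
  have e : x * (EE x y t).re + y * (EE x y t).im
      = pr x y t - pr x y t * (x ^ 2 + y ^ 2) / (1 + ce x y) := by
    simp only [EE, pr]
    field_simp
    ring
  rw [e]
  have : x ^ 2 + y ^ 2 = (1 - ce x y) * (1 + ce x y) := by nlinarith
  rw [this]
  field_simp
  ring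

theorem re_sq_EE (t : ℝ) : (EE x y t).re ^ 2 + (EE x y t).im ^ 2 = wt x y t ^ 2 := by
  have hc2 := ce_sq h
  have hc0 := ce_pos h
  rw [wt_sq h]
  have e : (EE x y t).re ^ 2 + (EE x y t).im ^ 2
      = (sin t ^ 2 + cos t ^ 2) - 2 * pr x y t ^ 2 / (1 + ce x y)
        + pr x y t ^ 2 * (x ^ 2 + y ^ 2) / (1 + ce x y) ^ 2 := by
    simp only [EE]
    have hp : pr x y t = x * cos t + y * sin t := rfl
    field_simp
    rw [hp]
    ring
  rw [e, sin_sq_add_cos_sq]
  have : x ^ 2 + y ^ 2 = (1 - ce x y) * (1 + ce x y) := by nlinarith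
  rw [this]
  field_simp
  ring


theorem mul_conj_EE (t : ℝ) : EE x y t * conj (EE x y t) = ((wt x y t ^ 2 : ℝ) : ℂ) := by
  rw [Complex.mul_conj, Complex.normSq_apply, ← re_sq_EE h t]
  congr 1
  ring

theorem norm_EE (t : ℝ) : ‖EE x y t‖ = wt x y t := by
  have h1 := re_sq_EE h t
  have h2 : ‖EE x y t‖ ^ 2 = wt x y t ^ 2 := by
    rw [← h1, ← Complex.normSq_eq_norm_sq, Complex.normSq_apply]
    ring
  exact (pow_left_inj₀ (norm_nonneg _) (wt_pos h t).le two_ne_zero).1 h2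

/-- `2 c p = conj Y E + Y conj E` -/
theorem pr_EE (t : ℝ) : conj (⟨x, y⟩ : ℂ) * EE x y t + (⟨x, y⟩ : ℂ) * conj (EE x y t)
    = ((2 * ce x y * pr x y t : ℝ) : ℂ) := by
  have h1 := inner_EE h t
  apply Complex.ext
  · simp only [Complex.add_re, Complex.mul_re, Complex.conj_re, Complex.conj_im,
      Complex.ofReal_re]
    linarith
  · simp only [Complex.add_im, Complex.mul_im, Complex.conj_re, Complex.conj_im,
      Complex.ofReal_im]
    ring

/-- `⟨u, V⟩ = ⟨E, v⟩` -/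
theorem inner_vv (V₁ V₂ t : ℝ) : (EE x y t).re * (vv x y V₁ V₂).re
    + (EE x y t).im * (vv x y V₁ V₂).im = cos t * V₁ + sin t * V₂ := by
  have hc2 := ce_sq h
  have hc0 := ce_pos h
  have h1 : x ^ 2 + y ^ 2 = (1 - ce x y) * (1 + ce x y) := by nlinarith
  have hp : pr x y t = x * cos t + y * sin t := rfl
  have e : (EE x y t).re * (vv x y V₁ V₂).re + (EE x y t).im * (vv x y V₁ V₂).im
      = cos t * V₁ + sin t * V₂ + (x * V₁ + y * V₂) * pr x y t / (ce x y * (1 + ce x y))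
        - pr x y t * (x * V₁ + y * V₂) / (1 + ce x y)
        - pr x y t * (x * V₁ + y * V₂) * (x ^ 2 + y ^ 2) / (ce x y * (1 + ce x y) ^ 2) := by
    simp only [EE, vv]
    rw [hp]
    field_simp
    ring
  rw [e, h1]
  field_simp
  ring

/-- `2 ⟨E, v⟩ E = w² v + E² conj v` -/
theorem inner_mul (V₁ V₂ t : ℝ) : ((2 * (cos t * V₁ + sin t * V₂) : ℝ) : ℂ) * EE x y t
    = ((wt x y t ^ 2 : ℝ) : ℂ) * vv x y V₁ V₂ + EE x y t ^ 2 * conj (vv x y V₁ V₂) := by
  rw [← mul_conj_EE h t, ← inner_vv h V₁ V₂ t]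
  have e : (((2 : ℝ) * ((EE x y t).re * (vv x y V₁ V₂).re + (EE x y t).im * (vv x y V₁ V₂).im) : ℝ) : ℂ)
      = conj (EE x y t) * vv x y V₁ V₂ + EE x y t * conj (vv x y V₁ V₂) := by
    apply Complex.ext
    · simp only [Complex.add_re, Complex.mul_re, Complex.conj_re, Complex.conj_im,
        Complex.ofReal_re]
      ring
    · simp only [Complex.add_im, Complex.mul_im, Complex.conj_re, Complex.conj_im,
        Complex.ofReal_im]
      ring
  rw [e]
  ring

omit h in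
/-- `E = e^{it} - p Y / (1 + c)` -/
theorem EE_eq (t : ℝ) : EE x y t = Complex.exp (t * Complex.I)
    - ((pr x y t / (1 + ce x y) : ℝ) : ℂ) * (⟨x, y⟩ : ℂ) := by
  apply Complex.ext
  · rw [Complex.sub_re, Complex.exp_ofReal_mul_I_re, Complex.re_ofReal_mul]
    simp only [EE]
    ring
  · rw [Complex.sub_im, Complex.exp_ofReal_mul_I_im, Complex.im_ofReal_mul]
    simp only [EE]
    ring


omit h in
theorem cont_EE_pow (m : ℕ) : Continuous fun t => EE x y t ^ m := cont_EE.pow m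

theorem cont_KK (m : ℕ) : Continuous (KK m x y) := by
  unfold KK
  refine (continuous_const.mul (cont_EE_pow m)).div ?_ ?_
  · exact (Complex.continuous_ofReal.comp cont_wt).pow _
  · intro t
    have := wt_pos h t
    exact pow_ne_zero _ (Complex.ofReal_ne_zero.2 this.ne')

omit h in
theorem ker_eq (t : ℝ) : ker (pr x y t) = 1 / wt x y t ^ 3 := rfl

omit h in
theorem pr_two_pi (t : ℝ) : pr x y (t + 2 * π) = pr x y t := pr_per x y t

/-- `∫ w⁻² = 2π / c` -/
theorem int_ww2 : ∫ t in (0 : ℝ)..(2 * π), 1 / wt x y t ^ 2 = 2 * π / ce x y := by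
  obtain ⟨φ, hx, hy⟩ := F54B.exists_polar x y
  set r := √(x ^ 2 + y ^ 2) with hr
  have hr0 : 0 ≤ r := sqrt_nonneg _
  have hr2 : r ^ 2 = x ^ 2 + y ^ 2 := sq_sqrt (by positivity)
  have hr1 : r < 1 := by nlinarith
  have e : ∀ t, pr x y (t + φ) = r * cos t := by
    intro t
    rw [hx, hy, pr_shift, pr0]
  have hp : Function.Periodic (fun t => 1 / wt x y t ^ 2) (2 * π) := by
    intro t
    simp only [wt, pr_per]
  rw [F54B.shift hp φ]
  have e2 : (fun t => 1 / wt x y (t + φ) ^ 2) = fun t => 1 / W r t ^ 2 := by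
    funext t
    simp only [wt, W, e]
  have e3 : ce x y = cc r := by
    unfold ce cc
    rw [hr2]
    congr 1
    ring
  rw [e2, L1 hr0 hr1, e3]

/-- rotation of the frame vector -/
theorem EE_shift {r φ : ℝ} (hx : x = r * cos φ) (hy : y = r * sin φ) (hr0 : 0 ≤ r) (t : ℝ) :
    EE x y (t + φ) = Complex.exp (φ * Complex.I) * ⟨cc r * cos t, sin t⟩ := by
  have hr2 : r ^ 2 = x ^ 2 + y ^ 2 := by
    rw [hx, hy]
    linear_combination (-r ^ 2) * sin_sq_add_cos_sq φ
  have hr1 : r < 1 := by nlinarith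
  have e3 : ce x y = cc r := by
    unfold ce cc
    rw [hr2]
    congr 1
    ring
  have hc0 := cc_pos hr0 hr1
  have hc2 := cc_sq hr0 hr1
  have e : pr x y (t + φ) = r * cos t := by rw [hx, hy, pr_shift, pr0]
  have e4 : r ^ 2 * cos t / (1 + cc r) = (1 - cc r) * cos t := by
    rw [div_eq_iff (by linarith)]
    linear_combination cos t * hc2
  apply Complex.ext
  · rw [Complex.mul_re, Complex.exp_ofReal_mul_I_re, Complex.exp_ofReal_mul_I_im]
    simp only [EE, e, e3, cos_add]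
    rw [hx]
    linear_combination (-cos φ) * e4
  · rw [Complex.mul_im, Complex.exp_ofReal_mul_I_re, Complex.exp_ofReal_mul_I_im]
    simp only [EE, e, e3, sin_add]
    rw [hy]
    linear_combination (-sin φ) * e4

/-- `∫ E² w⁻⁴ = 0` -/
theorem int_EE2 : ∫ t in (0 : ℝ)..(2 * π), EE x y t ^ 2 * ((1 / wt x y t ^ 4 : ℝ) : ℂ) = 0 := by
  obtain ⟨φ, hx, hy⟩ := F54B.exists_polar x y
  set r := √(x ^ 2 + y ^ 2) with hr
  have hr0 : 0 ≤ r := sqrt_nonneg _
  have hr2 : r ^ 2 = x ^ 2 + y ^ 2 := sq_sqrt (by positivity)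
  have hr1 : r < 1 := by nlinarith
  have hc0 := cc_pos hr0 hr1
  have hp : Function.Periodic (fun t => EE x y t ^ 2 * ((1 / wt x y t ^ 4 : ℝ) : ℂ)) (2 * π) := by
    intro t
    simp only [EE, wt, pr_per, cos_add_two_pi, sin_add_two_pi]
  have e1 : ∫ t in (0 : ℝ)..(2 * π), EE x y t ^ 2 * ((1 / wt x y t ^ 4 : ℝ) : ℂ)
      = ∫ t in (0 : ℝ)..(2 * π), EE x y (t + φ) ^ 2 * ((1 / wt x y (t + φ) ^ 4 : ℝ) : ℂ) := by
    rw [intervalIntegral.integral_comp_add_right (fun t => EE x y t ^ 2 * ((1 / wt x y t ^ 4 : ℝ) : ℂ))]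
    have h := hp.intervalIntegral_add_eq 0 φ
    rw [zero_add] at h
    rw [h, zero_add, add_comm φ]
  have e : ∀ t, pr x y (t + φ) = r * cos t := by
    intro t
    rw [hx, hy, pr_shift, pr0]
  have e2 : (fun t => EE x y (t + φ) ^ 2 * ((1 / wt x y (t + φ) ^ 4 : ℝ) : ℂ)) = fun t =>
      (Complex.exp (φ * Complex.I) ^ 2 / (cc r : ℂ)) * (((AP r t * (CA r t ^ 2 - SA r t ^ 2) : ℝ) : ℂ)
        + ((AP r t * (CA r t * SA r t) : ℝ) : ℂ) * (2 * Complex.I)) := by
    funext t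
    have hW := W_pos hr0 hr1 t
    have e5 : wt x y (t + φ) = W r t := by simp only [wt, W, e]
    rw [EE_shift h hx hy hr0, e5, Complex.mk_eq_add_mul_I]
    unfold CA SA AP
    push_cast
    have h1 : (W r t : ℂ) ≠ 0 := Complex.ofReal_ne_zero.2 hW.ne'
    have h2 : (cc r : ℂ) ≠ 0 := Complex.ofReal_ne_zero.2 hc0.ne'
    field_simp
    ring_nf
    rw [Complex.I_sq]
    ring
  have c0 := contAP hr0 hr1
  have c1 := contCA hr0 hr1
  have c2 := contSA hr0 hr1
  rw [e1, e2, intervalIntegral.integral_const_mul, intervalIntegral.integral_add,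
    intervalIntegral.integral_mul_const, intervalIntegral.integral_ofReal,
    intervalIntegral.integral_ofReal, int_APC hr0 hr1, int_APCS hr0 hr1]
  · simp
  all_goals apply Continuous.intervalIntegrable; fun_prop


/-- the coefficient of `cos t` in `c E` -/
def al (x y : ℝ) : ℂ := (ce x y : ℂ) * (1 - (⟨x, y⟩ : ℂ) * x / (1 + ce x y))

/-- the coefficient of `sin t` in `c E` -/
def be (x y : ℝ) : ℂ := (ce x y : ℂ) * (Complex.I - (⟨x, y⟩ : ℂ) * y / (1 + ce x y))

theorem EE_lin (t : ℝ) : (ce x y : ℂ) * EE x y t = al x y * (cos t : ℝ) + be x y * (sin t : ℝ) := by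
  have hc0 := ce_pos h
  have h1 : (1 + (ce x y : ℂ)) ≠ 0 := by
    have : (1 + (ce x y : ℂ)) = ((1 + ce x y : ℝ) : ℂ) := by push_cast; ring
    rw [this]
    exact Complex.ofReal_ne_zero.2 (by linarith)
  unfold al be EE
  rw [Complex.mk_eq_add_mul_I]
  have h2 : (⟨x, y⟩ : ℂ) = (x : ℂ) + (y : ℂ) * Complex.I := Complex.mk_eq_add_mul_I _ _
  rw [h2]
  have hp : pr x y t = x * cos t + y * sin t := rfl
  rw [hp]
  push_cast
  field_simp
  ring

theorem int_KK1 {g : ℝ → ℝ} (hg : IntervalIntegrable g volume 0 (2 * π)) :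
    ∫ t in (0 : ℝ)..(2 * π), (g t : ℂ) * KK 1 x y t
      = al x y * (E1 x y g : ℂ) + be x y * (E2 x y g : ℂ) := by
  have ck := cont_ker_pr h
  have i1 : IntervalIntegrable (fun t => cos t * ker (pr x y t) * g t) volume 0 (2 * π) :=
    hg.continuousOn_mul (continuous_cos.mul ck).continuousOn
  have i2 : IntervalIntegrable (fun t => sin t * ker (pr x y t) * g t) volume 0 (2 * π) :=
    hg.continuousOn_mul (continuous_sin.mul ck).continuousOn
  have e : (fun t => (g t : ℂ) * KK 1 x y t) = fun t =>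
      al x y * ((cos t * ker (pr x y t) * g t : ℝ) : ℂ)
        + be x y * ((sin t * ker (pr x y t) * g t : ℝ) : ℂ) := by
    funext t
    unfold KK
    rw [pow_one, EE_lin h t, ker_eq]
    have hw := wt_pos h t
    have h1 : (wt x y t : ℂ) ≠ 0 := Complex.ofReal_ne_zero.2 hw.ne'
    push_cast
    field_simp
  have j1 : IntervalIntegrable (fun t => ((cos t * ker (pr x y t) * g t : ℝ) : ℂ)) volume 0 (2 * π) :=
    ⟨Integrable.ofReal i1.1, Integrable.ofReal i1.2⟩
  have j2 : IntervalIntegrable (fun t => ((sin t * ker (pr x y t) * g t : ℝ) : ℂ)) volume 0 (2 * π) :=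
    ⟨Integrable.ofReal i2.1, Integrable.ofReal i2.2⟩
  rw [e, intervalIntegral.integral_add (j1.const_mul _) (j2.const_mul _),
    intervalIntegral.integral_const_mul, intervalIntegral.integral_const_mul,
    intervalIntegral.integral_ofReal, intervalIntegral.integral_ofReal]
  rfl

theorem Lm_one {g : ℝ → ℝ} (hg : IntervalIntegrable g volume 0 (2 * π)) :
    Lm 1 x y g = ((1 / π : ℝ) : ℂ) * (al x y * (E1 x y g : ℂ) + be x y * (E2 x y g : ℂ)) := by
  unfold Lm
  rw [int_KK1 h hg]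

section state

variable {f : ℝ → ℝ} (hf : UMP.Ef f)

include hf

omit h in
theorem cont_del : Continuous fun t => f t - arcsin (pr x y t) :=
  hf.lip.continuous.sub (continuous_arcsin.comp cont_pr)

theorem Cm_one (h1 : G1 x y f = 0) (h2 : G2 x y f = 0) : Cm 1 x y f = 0 := by
  have e1 : E1 x y (fun t => f t - arcsin (pr x y t)) = 0 := by
    rw [← h1]
    unfold E1 G1
    refine integral_congr fun t _ => ?_
    simp only
    rw [F54B.kk_eq]
    ring
  have e2 : E2 x y (fun t => f t - arcsin (pr x y t)) = 0 := by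
    rw [← h2]
    unfold E2 G2
    refine integral_congr fun t _ => ?_
    simp only
    rw [F54B.kk_eq]
    ring
  unfold Cm
  rw [int_KK1 h ((cont_del hf).intervalIntegrable _ _), e1, e2]
  simp

theorem int_kp_ww (h1 : G1 x y f = 0) (h2 : G2 x y f = 0) :
    ∫ t in (0 : ℝ)..(2 * π), kp (pr x y t) (f t) * wt x y t ^ 2 = 2 * π / ce x y := by
  have ck := cont_kk h hf
  have cp := (cont_pr (x := x) (y := y))
  have e : (fun t => kp (pr x y t) (f t) * wt x y t ^ 2) = fun t =>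
      1 / wt x y t ^ 2 - 3 * (x * (cos t * kk (pr x y t) (f t)) + y * (sin t * kk (pr x y t) (f t))) := by
    funext t
    have hw := wt_pos h t
    unfold kp kk
    change (1 - 3 * (f t - arcsin (pr x y t)) * pr x y t / wt x y t) / wt x y t ^ 4 * wt x y t ^ 2
      = 1 / wt x y t ^ 2 - 3 * (x * (cos t * ((f t - arcsin (pr x y t)) / wt x y t ^ 3))
        + y * (sin t * ((f t - arcsin (pr x y t)) / wt x y t ^ 3)))
    have hp : x * cos t + y * sin t = pr x y t := rfl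
    have e9 : x * (cos t * ((f t - arcsin (pr x y t)) / wt x y t ^ 3))
        + y * (sin t * ((f t - arcsin (pr x y t)) / wt x y t ^ 3))
        = pr x y t * ((f t - arcsin (pr x y t)) / wt x y t ^ 3) := by
      rw [← hp]
      ring
    rw [e9]
    field_simp
  have c1 : Continuous fun t => 1 / wt x y t ^ 2 :=
    continuous_const.div (cont_wt.pow 2) fun t => (pow_pos (wt_pos h t) 2).ne'
  have c2 : Continuous fun t => x * (cos t * kk (pr x y t) (f t)) :=
    continuous_const.mul (continuous_cos.mul ck)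
  have c3 : Continuous fun t => y * (sin t * kk (pr x y t) (f t)) :=
    continuous_const.mul (continuous_sin.mul ck)
  have c4 : Continuous fun t => 3 * (x * (cos t * kk (pr x y t) (f t))
      + y * (sin t * kk (pr x y t) (f t))) := continuous_const.mul (c2.add c3)
  rw [e, intervalIntegral.integral_sub (c1.intervalIntegrable _ _)
      (c4.intervalIntegrable _ _), int_ww2 h,
    intervalIntegral.integral_const_mul, intervalIntegral.integral_add (c2.intervalIntegrable _ _)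
      (c3.intervalIntegrable _ _), intervalIntegral.integral_const_mul,
    intervalIntegral.integral_const_mul]
  have h1' : ∫ t in (0 : ℝ)..(2 * π), cos t * kk (pr x y t) (f t) = 0 := h1
  have h2' : ∫ t in (0 : ℝ)..(2 * π), sin t * kk (pr x y t) (f t) = 0 := h2
  rw [h1', h2']
  ring

omit hf in
theorem kp_EE (a t : ℝ) : (kp (pr x y t) a : ℂ) * EE x y t ^ 2
    = EE x y t ^ 2 * ((1 / wt x y t ^ 4 : ℝ) : ℂ) - (3 / (2 * (ce x y : ℂ) ^ 2)) *
      (conj (⟨x, y⟩ : ℂ) * (((a - arcsin (pr x y t) : ℝ) : ℂ) * KK 3 x y t)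
        + (⟨x, y⟩ : ℂ) * (((a - arcsin (pr x y t) : ℝ) : ℂ) * KK 1 x y t)) := by
  have hw := wt_pos h t
  have hc0 := ce_pos h
  have h1 : (wt x y t : ℂ) ≠ 0 := Complex.ofReal_ne_zero.2 hw.ne'
  have h2 : (ce x y : ℂ) ≠ 0 := Complex.ofReal_ne_zero.2 hc0.ne'
  have h3 := pr_EE h t
  have h4 := mul_conj_EE h t
  have e : kp (pr x y t) a
      = (1 - 3 * (a - arcsin (pr x y t)) * pr x y t / wt x y t) / wt x y t ^ 4 := rfl
  rw [e]
  unfold KK
  set δ := a - arcsin (pr x y t) with hδ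
  have h5 : (2 * (ce x y : ℂ) * (pr x y t : ℂ)) * EE x y t ^ 2
      = conj (⟨x, y⟩ : ℂ) * EE x y t ^ 3 + (⟨x, y⟩ : ℂ) * (wt x y t : ℂ) ^ 2 * EE x y t := by
    have h6 : (2 * (ce x y : ℂ) * (pr x y t : ℂ))
        = conj (⟨x, y⟩ : ℂ) * EE x y t + (⟨x, y⟩ : ℂ) * conj (EE x y t) := by
      rw [h3]
      push_cast
      ring
    have h7 : (wt x y t : ℂ) ^ 2 = EE x y t * conj (EE x y t) := by
      rw [h4]
      push_cast
      ring
    rw [h6, h7]
    ring
  push_cast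
  field_simp
  linear_combination (-3 * (δ : ℂ)) * h5

theorem int_kp_EE (h1 : G1 x y f = 0) (h2 : G2 x y f = 0) :
    ∫ t in (0 : ℝ)..(2 * π), (kp (pr x y t) (f t) : ℂ) * EE x y t ^ 2
      = -((2 * π / ce x y : ℝ) : ℂ) * sg x y f := by
  have hc0 := ce_pos h
  have h3 : (ce x y : ℂ) ≠ 0 := Complex.ofReal_ne_zero.2 hc0.ne'
  have hpi : (π : ℂ) ≠ 0 := Complex.ofReal_ne_zero.2 pi_ne_zero
  have cE := cont_EE (x := x) (y := y)
  have cd : Continuous fun t => ((f t - arcsin (pr x y t) : ℝ) : ℂ) :=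
    Complex.continuous_ofReal.comp (cont_del hf)
  have cw : Continuous fun t => ((1 / wt x y t ^ 4 : ℝ) : ℂ) := by
    refine Complex.continuous_ofReal.comp ?_
    exact continuous_const.div (cont_wt.pow 4) fun t => (pow_pos (wt_pos h t) 4).ne'
  have c3 := cont_KK h 3
  have c1 := cont_KK h 1
  have e3 : ∫ t in (0 : ℝ)..(2 * π), ((f t - arcsin (pr x y t) : ℝ) : ℂ) * KK 3 x y t
      = π * Cm 3 x y f := by
    unfold Cm
    push_cast
    field_simp
  have e1 : ∫ t in (0 : ℝ)..(2 * π), ((f t - arcsin (pr x y t) : ℝ) : ℂ) * KK 1 x y t = 0 := by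
    have := Cm_one h hf h1 h2
    unfold Cm at this
    rcases mul_eq_zero.1 this with h4 | h4
    · exfalso
      rw [Complex.ofReal_eq_zero] at h4
      have : 0 < 1 / π := by positivity
      linarith
    · exact h4
  have e : (fun t => (kp (pr x y t) (f t) : ℂ) * EE x y t ^ 2) = fun t =>
      EE x y t ^ 2 * ((1 / wt x y t ^ 4 : ℝ) : ℂ) - (3 / (2 * (ce x y : ℂ) ^ 2)) *
      (conj (⟨x, y⟩ : ℂ) * (((f t - arcsin (pr x y t) : ℝ) : ℂ) * KK 3 x y t)
        + (⟨x, y⟩ : ℂ) * (((f t - arcsin (pr x y t) : ℝ) : ℂ) * KK 1 x y t)) :=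
    funext fun t => kp_EE h (f t) t
  rw [e, intervalIntegral.integral_sub, int_EE2 h, intervalIntegral.integral_const_mul,
    intervalIntegral.integral_add, intervalIntegral.integral_const_mul,
    intervalIntegral.integral_const_mul, e3, e1]
  · unfold sg
    push_cast
    field_simp
    ring
  all_goals apply Continuous.intervalIntegrable; fun_prop

/-- the linearised equation in the frame -/
theorem veq0 (h1 : G1 x y f = 0) (h2 : G2 x y f = 0) (V₁ V₂ : ℝ) :
    al x y * ((H11 x y f * V₁ + H12 x y f * V₂ : ℝ) : ℂ)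
      + be x y * ((H12 x y f * V₁ + H22 x y f * V₂ : ℝ) : ℂ)
      = (π : ℂ) * (vv x y V₁ V₂ - sg x y f * conj (vv x y V₁ V₂)) := by
  have hc0 := ce_pos h
  have h3 : (ce x y : ℂ) ≠ 0 := Complex.ofReal_ne_zero.2 hc0.ne'
  have hpi : (π : ℂ) ≠ 0 := Complex.ofReal_ne_zero.2 pi_ne_zero
  have ck := cont_kp h hf
  have cE := cont_EE (x := x) (y := y)
  have cc1 : Continuous fun t => ((kp (pr x y t) (f t) : ℝ) : ℂ) := Complex.continuous_ofReal.comp ck
  have cw : Continuous fun t => ((kp (pr x y t) (f t) * wt x y t ^ 2 : ℝ) : ℂ) :=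
    Complex.continuous_ofReal.comp (ck.mul (cont_wt.pow 2))
  have e1 : H11 x y f * V₁ + H12 x y f * V₂
      = ∫ t in (0 : ℝ)..(2 * π), cos t * (cos t * V₁ + sin t * V₂) * kp (pr x y t) (f t) := by
    unfold H11 H12
    rw [← intervalIntegral.integral_mul_const, ← intervalIntegral.integral_mul_const,
      ← intervalIntegral.integral_add]
    · refine integral_congr fun t _ => ?_
      ring
    all_goals apply Continuous.intervalIntegrable; fun_prop
  have e2 : H12 x y f * V₁ + H22 x y f * V₂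
      = ∫ t in (0 : ℝ)..(2 * π), sin t * (cos t * V₁ + sin t * V₂) * kp (pr x y t) (f t) := by
    unfold H12 H22
    rw [← intervalIntegral.integral_mul_const, ← intervalIntegral.integral_mul_const,
      ← intervalIntegral.integral_add]
    · refine integral_congr fun t _ => ?_
      ring
    all_goals apply Continuous.intervalIntegrable; fun_prop
  have e3 : al x y * ((H11 x y f * V₁ + H12 x y f * V₂ : ℝ) : ℂ)
      + be x y * ((H12 x y f * V₁ + H22 x y f * V₂ : ℝ) : ℂ)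
      = ∫ t in (0 : ℝ)..(2 * π), (ce x y / 2 : ℂ) * (((kp (pr x y t) (f t) * wt x y t ^ 2 : ℝ) : ℂ)
          * vv x y V₁ V₂ + (kp (pr x y t) (f t) : ℂ) * EE x y t ^ 2 * conj (vv x y V₁ V₂)) := by
    rw [e1, e2, ← intervalIntegral.integral_ofReal, ← intervalIntegral.integral_ofReal,
      ← intervalIntegral.integral_const_mul, ← intervalIntegral.integral_const_mul,
      ← intervalIntegral.integral_add]
    · refine integral_congr fun t _ => ?_
      have h4 := inner_mul h V₁ V₂ t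
      have h5 := EE_lin h t
      push_cast at h4 h5 ⊢
      linear_combination (Complex.cos t * V₁ + Complex.sin t * V₂) * (kp (pr x y t) (f t) : ℂ) * (-h5)
        + (ce x y / 2 : ℂ) * (kp (pr x y t) (f t) : ℂ) * h4
    all_goals apply Continuous.intervalIntegrable; fun_prop
  rw [e3, intervalIntegral.integral_const_mul, intervalIntegral.integral_add,
    intervalIntegral.integral_mul_const, intervalIntegral.integral_mul_const,
    intervalIntegral.integral_ofReal, int_kp_ww h hf h1 h2, int_kp_EE h hf h1 h2]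
  · push_cast
    field_simp
    ring
  all_goals apply Continuous.intervalIntegrable; fun_prop

/-- THE LINEAR EQUATION in the frame -/
theorem veq (h1 : G1 x y f = 0) (h2 : G2 x y f = 0) {g : ℝ → ℝ}
    (hg : IntervalIntegrable g volume 0 (2 * π)) {V₁ V₂ : ℝ}
    (hV₁ : H11 x y f * V₁ + H12 x y f * V₂ = E1 x y g)
    (hV₂ : H12 x y f * V₁ + H22 x y f * V₂ = E2 x y g) :
    vv x y V₁ V₂ - sg x y f * conj (vv x y V₁ V₂) = Lm 1 x y g := by
  have hpi : (π : ℂ) ≠ 0 := Complex.ofReal_ne_zero.2 pi_ne_zero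
  have h3 := veq0 h hf h1 h2 V₁ V₂
  rw [hV₁, hV₂] at h3
  rw [Lm_one h hg, h3]
  push_cast
  field_simp

/-- `‖σ‖ ≤ (√2/2) s / (1 + c)` -/
theorem sg_le (h1 : G1 x y f = 0) (h2 : G2 x y f = 0) :
    ‖sg x y f‖ ≤ √2 / 2 * (√(x ^ 2 + y ^ 2) / (1 + √(1 - x ^ 2 - y ^ 2))) := by
  set κ := √2 / 2 * (√(x ^ 2 + y ^ 2) / (1 + √(1 - x ^ 2 - y ^ 2))) with hκ
  have hc0 := ce_pos h
  have hc2 := ce_sq h
  have hκ0 : 0 ≤ κ := by
    have : 0 ≤ √(1 - x ^ 2 - y ^ 2) := sqrt_nonneg _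
    positivity
  set σ := sg x y f with hσ
  -- a square root of `σ`
  obtain ⟨v, hv⟩ : ∃ v : ℂ, v ^ 2 = σ := ⟨σ ^ (1 / 2 : ℂ), by
    rw [← Complex.cpow_nat_mul]
    norm_num⟩
  set V₁ := v.re - (x * v.re + y * v.im) * x / (1 + ce x y) with hV1
  set V₂ := v.im - (x * v.re + y * v.im) * y / (1 + ce x y) with hV2
  have hx : x ^ 2 + y ^ 2 = (1 - ce x y) * (1 + ce x y) := by nlinarith
  have e0 : x * V₁ + y * V₂ = ce x y * (x * v.re + y * v.im) := by
    have : x * V₁ + y * V₂ = (x * v.re + y * v.im) * (1 - (x ^ 2 + y ^ 2) / (1 + ce x y)) := by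
      rw [hV1, hV2]
      ring
    rw [this, hx]
    field_simp
    ring
  have ev : vv x y V₁ V₂ = v := by
    apply Complex.ext
    · simp only [vv]
      rw [e0, hV1]
      field_simp
      ring
    · simp only [vv]
      rw [e0, hV2]
      field_simp
      ring
  have hN : V₁ ^ 2 + V₂ ^ 2 + (x * V₁ + y * V₂) ^ 2 / (1 - x ^ 2 - y ^ 2) = ‖v‖ ^ 2 := by
    have e1 : V₁ ^ 2 + V₂ ^ 2 = v.re ^ 2 + v.im ^ 2 - 2 * (x * v.re + y * v.im) ^ 2 / (1 + ce x y)
        + (x * v.re + y * v.im) ^ 2 * (x ^ 2 + y ^ 2) / (1 + ce x y) ^ 2 := by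
      rw [hV1, hV2]
      field_simp
      ring
    rw [e0, e1, hx, ← hc2, ← Complex.normSq_eq_norm_sq, Complex.normSq_apply]
    field_simp
    ring
  have h3 := veq0 h hf h1 h2 V₁ V₂
  rw [ev] at h3
  have h4 := quad_abs h hf h1 h2 V₁ V₂
  rw [hN] at h4
  -- the quadratic form
  have h5 : √(1 - x ^ 2 - y ^ 2) * (H11 x y f * V₁ ^ 2 + 2 * H12 x y f * V₁ * V₂
      + H22 x y f * V₂ ^ 2) = π * (‖v‖ ^ 2 - ‖σ‖ ^ 2) := by
    set z₁ := H11 x y f * V₁ + H12 x y f * V₂ with hz1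
    set z₂ := H12 x y f * V₁ + H22 x y f * V₂ with hz2
    have e1 : H11 x y f * V₁ ^ 2 + 2 * H12 x y f * V₁ * V₂ + H22 x y f * V₂ ^ 2 = V₁ * z₁ + V₂ * z₂ := by
      rw [hz1, hz2]
      ring
    have e2 : (conj v * (al x y * (z₁ : ℂ) + be x y * (z₂ : ℂ))).re = ce x y * (V₁ * z₁ + V₂ * z₂) := by
      have a1 : (al x y).re = ce x y * (1 - x * x / (1 + ce x y)) ∧
          (al x y).im = ce x y * (-(y * x) / (1 + ce x y)) := by
        have : al x y = ⟨ce x y * (1 - x * x / (1 + ce x y)), ce x y * (-(y * x) / (1 + ce x y))⟩ := by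
          have hne : (1 + (ce x y : ℂ)) ≠ 0 := by
            have : (1 + (ce x y : ℂ)) = ((1 + ce x y : ℝ) : ℂ) := by push_cast; ring
            rw [this]
            exact Complex.ofReal_ne_zero.2 (by linarith)
          unfold al
          have h2 : (⟨x, y⟩ : ℂ) = (x : ℂ) + (y : ℂ) * Complex.I := Complex.mk_eq_add_mul_I _ _
          rw [h2, Complex.mk_eq_add_mul_I]
          push_cast
          field_simp
          ring
        rw [this]
        exact ⟨rfl, rfl⟩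
      have b1 : (be x y).re = ce x y * (-(x * y) / (1 + ce x y)) ∧
          (be x y).im = ce x y * (1 - y * y / (1 + ce x y)) := by
        have : be x y = ⟨ce x y * (-(x * y) / (1 + ce x y)), ce x y * (1 - y * y / (1 + ce x y))⟩ := by
          have hne : (1 + (ce x y : ℂ)) ≠ 0 := by
            have : (1 + (ce x y : ℂ)) = ((1 + ce x y : ℝ) : ℂ) := by push_cast; ring
            rw [this]
            exact Complex.ofReal_ne_zero.2 (by linarith)
          unfold be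
          have h2 : (⟨x, y⟩ : ℂ) = (x : ℂ) + (y : ℂ) * Complex.I := Complex.mk_eq_add_mul_I _ _
          rw [h2, Complex.mk_eq_add_mul_I]
          push_cast
          field_simp
          ring
        rw [this]
        exact ⟨rfl, rfl⟩
      rw [Complex.mul_re, Complex.add_re, Complex.add_im, Complex.re_mul_ofReal, Complex.re_mul_ofReal,
        Complex.im_mul_ofReal, Complex.im_mul_ofReal, Complex.conj_re, Complex.conj_im, a1.1, a1.2,
        b1.1, b1.2, hV1, hV2]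
      field_simp
      ring
    rw [h3] at e2
    have e3 : (conj v * ((π : ℂ) * (v - σ * conj v))).re = π * (‖v‖ ^ 2 - ‖σ‖ ^ 2) := by
      have e4 : conj v * ((π : ℂ) * (v - σ * conj v))
          = ((π * (‖v‖ ^ 2 - ‖σ‖ ^ 2) : ℝ) : ℂ) := by
        have e5 : conj v * v = ((‖v‖ ^ 2 : ℝ) : ℂ) := by
          rw [mul_comm, Complex.mul_conj, Complex.normSq_eq_norm_sq]
        have e6 : σ * (conj v) ^ 2 = ((‖σ‖ ^ 2 : ℝ) : ℂ) := by
          rw [← map_pow, hv, Complex.mul_conj, Complex.normSq_eq_norm_sq]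
        calc conj v * ((π : ℂ) * (v - σ * conj v)) = π * (conj v * v - σ * (conj v) ^ 2) := by ring
          _ = _ := by
            rw [e5, e6]
            push_cast
            ring
      rw [e4, Complex.ofReal_re]
    rw [e3] at e2
    rw [e1, e2]
    rfl
  have hvn : ‖v‖ ^ 2 = ‖σ‖ := by rw [← norm_pow, hv]
  rw [h5, hvn] at h4
  have h6 : |π * (‖σ‖ - ‖σ‖ ^ 2) - π * ‖σ‖| = π * ‖σ‖ ^ 2 := by
    rw [show π * (‖σ‖ - ‖σ‖ ^ 2) - π * ‖σ‖ = -(π * ‖σ‖ ^ 2) by ring, abs_neg, abs_of_nonneg]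
    positivity
  rw [h6] at h4
  rcases (norm_nonneg σ).eq_or_lt with h7 | h7
  · rw [← h7]
    exact hκ0
  · by_contra hcon
    push Not at hcon
    have h8 : π * ‖σ‖ * κ < π * ‖σ‖ * ‖σ‖ := mul_lt_mul_of_pos_left hcon (by positivity)
    nlinarith

theorem sg_lt (h1 : G1 x y f = 0) (h2 : G2 x y f = 0) : ‖sg x y f‖ ≤ 71 / 100 :=
  (sg_le h hf h1 h2).trans (kappa_le h)

end state

/-! ## the moving vector -/

omit h in
theorem vv_eq_vel (V₁ V₂ : ℝ) : vv x y V₁ V₂ = CNU.vel (ce x y) ⟨x, y⟩ ⟨V₁, V₂⟩ := by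
  apply Complex.ext
  · rw [CNU.vel_re]
    simp only [vv]
    ring
  · rw [CNU.vel_im]
    simp only [vv]
    ring

/-- `|v|² = |V|² + ⟨Y, V⟩² / c²` -/
theorem vv_sq (V₁ V₂ : ℝ) : Complex.normSq (vv x y V₁ V₂)
    = V₁ ^ 2 + V₂ ^ 2 + ((x * V₁ + y * V₂) / ce x y) ^ 2 := by
  have hc2 := ce_sq h
  rw [vv_eq_vel, CNU.vel_sq (ce_pos h)]
  simp only
  linarith

/-- `v ∧ w = V ∧ W / c` -/
theorem vv_wedge (V₁ V₂ W₁ W₂ : ℝ) : (conj (vv x y V₁ V₂) * vv x y W₁ W₂).im
    = (V₁ * W₂ - V₂ * W₁) / ce x y := by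
  have hc2 := ce_sq h
  rw [vv_eq_vel, vv_eq_vel, CNU.vel_wedge (ce_pos h)]
  · congr 1
    simp only [Complex.mul_im, Complex.conj_re, Complex.conj_im]
    ring
  · simp only
    linarith

/-- `|K_m| = c / w²` -/
theorem norm_KK (m : ℕ) (t : ℝ) : ‖KK m x y t‖ = ce x y * (1 / wt x y t ^ 2) := by
  have hw := wt_pos h t
  have hc0 := ce_pos h
  unfold KK
  rw [norm_div, norm_mul, norm_pow, norm_pow, norm_EE h, Complex.norm_of_nonneg hc0.le,
    Complex.norm_of_nonneg hw.le]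
  field_simp
  ring

theorem int_norm_KK (m : ℕ) : ∫ t in (0 : ℝ)..(2 * π), ‖KK m x y t‖ = 2 * π := by
  have hc0 := ce_pos h
  simp only [norm_KK h]
  rw [intervalIntegral.integral_const_mul, int_ww2 h]
  field_simp

/-- `|L_m h| ≤ 2 sup |h|` -/
theorem Lm_le (m : ℕ) {g : ℝ → ℝ} {D : ℝ} (hg : ∀ t, |g t| ≤ D) :
    ‖Lm m x y g‖ ≤ 2 * D := by
  have hpi := pi_pos
  have ck := cont_KK h m
  have h1 : ‖∫ t in (0 : ℝ)..(2 * π), (g t : ℂ) * KK m x y t‖ ≤
      ∫ t in (0 : ℝ)..(2 * π), D * ‖KK m x y t‖ := by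
    refine intervalIntegral.norm_integral_le_of_norm_le (by positivity)
      (Eventually.of_forall fun t _ => ?_) ((continuous_const.mul ck.norm).intervalIntegrable _ _)
    rw [norm_mul, Complex.norm_real, Real.norm_eq_abs]
    exact mul_le_mul_of_nonneg_right (hg t) (norm_nonneg _)
  rw [intervalIntegral.integral_const_mul, int_norm_KK h] at h1
  unfold Lm
  rw [norm_mul, Complex.norm_real, Real.norm_eq_abs, abs_of_pos (by positivity)]
  calc 1 / π * ‖∫ t in (0 : ℝ)..(2 * π), (g t : ℂ) * KK m x y t‖ ≤ 1 / π * (D * (2 * π)) := by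
        gcongr
    _ = 2 * D := by
        field_simp

end point

/-! ## solving the linear equation -/

section solve

variable {σ v L : ℂ}

theorem conj_mul_self' (z : ℂ) : z * conj z = ((‖z‖ ^ 2 : ℝ) : ℂ) := by
  rw [Complex.mul_conj, Complex.normSq_eq_norm_sq]

/-- `(1 - |σ|²) v = L + σ conj L` -/
theorem v_solve (h1 : v - σ * conj v = L) : ((1 - ‖σ‖ ^ 2 : ℝ) : ℂ) * v = L + σ * conj L := by
  have h2 := conj_mul_self' σ
  push_cast at h2 ⊢
  rw [← h2, ← h1]
  simp only [map_sub, map_mul, Complex.conj_conj]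
  ring

theorem v_le (h1 : v - σ * conj v = L) : (1 - ‖σ‖) * ‖v‖ ≤ ‖L‖ := by
  have h2 : ‖v‖ ≤ ‖L‖ + ‖σ‖ * ‖v‖ := by
    calc ‖v‖ = ‖L + σ * conj v‖ := by
          rw [← h1]
          congr 1
          ring
      _ ≤ ‖L‖ + ‖σ * conj v‖ := norm_add_le _ _
      _ = _ := by rw [norm_mul, RCLike.norm_conj]
  linarith

variable {A B P Q v₁ v₂ L₁ L₂ : ℂ}

theorem fA_eq (τ : ℝ) (h1 : v₁ - σ * conj v₁ = L₁) (h2 : v₂ - σ * conj v₂ = L₂) :
    CNU.fA τ v₁ v₂ - σ * conj (CNU.fB τ v₁ v₂) = CNU.fA τ L₁ L₂ := by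
  rw [← h1, ← h2]
  simp only [CNU.fA, CNU.fB, map_div₀, map_sub, map_mul, Complex.conj_I, Complex.conj_ofReal,
    map_ofNat]
  ring

theorem fB_eq (τ : ℝ) (h1 : v₁ - σ * conj v₁ = L₁) (h2 : v₂ - σ * conj v₂ = L₂) :
    CNU.fB τ v₁ v₂ - σ * conj (CNU.fA τ v₁ v₂) = CNU.fB τ L₁ L₂ := by
  rw [← h1, ← h2]
  simp only [CNU.fA, CNU.fB, map_div₀, map_add, map_mul, Complex.conj_I, Complex.conj_ofReal,
    map_ofNat]
  ring

/-- `(1 - |σ|²) A = P + σ conj Q` -/
theorem A_solve (h1 : A - σ * conj B = P) (h2 : B - σ * conj A = Q) :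
    ((1 - ‖σ‖ ^ 2 : ℝ) : ℂ) * A = P + σ * conj Q := by
  have h3 := conj_mul_self' σ
  push_cast at h3 ⊢
  rw [← h3, ← h1, ← h2]
  simp only [map_sub, map_mul, Complex.conj_conj]
  ring

/-- `(1 - |σ|²) J = |P|² - |Q|²` -/
theorem J_solve (h1 : A - σ * conj B = P) (h2 : B - σ * conj A = Q) :
    (1 - ‖σ‖ ^ 2) * (‖A‖ ^ 2 - ‖B‖ ^ 2) = ‖P‖ ^ 2 - ‖Q‖ ^ 2 := by
  rw [← h1, ← h2]
  simp only [← Complex.normSq_eq_norm_sq, Complex.normSq_apply, Complex.sub_re, Complex.sub_im,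
    Complex.mul_re, Complex.mul_im, Complex.conj_re, Complex.conj_im]
  ring

/-- `(1 - |σ|²)² e = (1 + |σ|²) (|P|² + |Q|²) + 4 Re (conj σ P Q)` -/
theorem e_solve (h1 : A - σ * conj B = P) (h2 : B - σ * conj A = Q) :
    (1 - ‖σ‖ ^ 2) ^ 2 * (‖A‖ ^ 2 + ‖B‖ ^ 2)
      = (1 + ‖σ‖ ^ 2) * (‖P‖ ^ 2 + ‖Q‖ ^ 2) + 4 * (conj σ * (P * Q)).re := by
  rw [← h1, ← h2]
  simp only [← Complex.normSq_eq_norm_sq, Complex.normSq_apply, Complex.sub_re, Complex.sub_im,
    Complex.mul_re, Complex.mul_im, Complex.conj_re, Complex.conj_im]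
  ring

/-- `(1 - |σ|²)² |B|² = |Q + σ conj P|²` -/
theorem nu_solve (h1 : A - σ * conj B = P) (h2 : B - σ * conj A = Q) :
    (1 - ‖σ‖ ^ 2) ^ 2 * ‖B‖ ^ 2 = ‖Q + σ * conj P‖ ^ 2 := by
  have h3 := A_solve h2 h1
  rw [← h3, norm_mul, Complex.norm_real, mul_pow, Real.norm_eq_abs, sq_abs]

end solve

/-! ## the map -/

section map

variable {f : ℝ → ℝ} (hf : UMP.Ef f)

/-- the coefficient at the state `f` -/
def sF (f : ℝ → ℝ) : ℂ := sg (X1 f) (X2 f) f

/-- the velocity of the map in the moving frame -/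
def vF (f h : ℝ → ℝ) : ℂ := vv (X1 f) (X2 f) (dX1 f h) (dX2 f h)

include hf

/-- THE LINEAR EQUATION of the map -/
theorem vF_eq {h : ℝ → ℝ} (hh : IntervalIntegrable h volume 0 (2 * π)) :
    vF f h - sF f * conj (vF f h) = Lm 1 (X1 f) (X2 f) h :=
  veq (X_lt hf) hf (X_G1 hf) (X_G2 hf) hh (dX_spec hf h).1 (dX_spec hf h).2

theorem sF_le : ‖sF f‖ ≤ √2 / 2 * (√(X1 f ^ 2 + X2 f ^ 2) / (1 + √(1 - X1 f ^ 2 - X2 f ^ 2))) :=
  sg_le (X_lt hf) hf (X_G1 hf) (X_G2 hf)

theorem sF_lt : ‖sF f‖ ≤ 71 / 100 := sg_lt (X_lt hf) hf (X_G1 hf) (X_G2 hf)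

theorem CF_one : Cm 1 (X1 f) (X2 f) f = 0 := Cm_one (X_lt hf) hf (X_G1 hf) (X_G2 hf)

/-- the equations of the two parts -/
theorem AF_eq (τ : ℝ) {h k : ℝ → ℝ} (hh : IntervalIntegrable h volume 0 (2 * π))
    (hk : IntervalIntegrable k volume 0 (2 * π)) :
    CNU.fA τ (vF f h) (vF f k) - sF f * conj (CNU.fB τ (vF f h) (vF f k))
      = CNU.fA τ (Lm 1 (X1 f) (X2 f) h) (Lm 1 (X1 f) (X2 f) k) :=
  fA_eq τ (vF_eq hf hh) (vF_eq hf hk)

theorem BF_eq (τ : ℝ) {h k : ℝ → ℝ} (hh : IntervalIntegrable h volume 0 (2 * π))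
    (hk : IntervalIntegrable k volume 0 (2 * π)) :
    CNU.fB τ (vF f h) (vF f k) - sF f * conj (CNU.fA τ (vF f h) (vF f k))
      = CNU.fB τ (Lm 1 (X1 f) (X2 f) h) (Lm 1 (X1 f) (X2 f) k) :=
  fB_eq τ (vF_eq hf hh) (vF_eq hf hk)

end map

end Pool.Agent.FPX.F54
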