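import Mathlib
import Pool.Agent.FPX.F54S

/-
F54Z (helper6): size of `f - arcsin p` at a zero of the F54 equation, `p = ⟨Y, u_t⟩`:
`|f t - arcsin p| ≤ 11 √(1 - |Y|²)`.  Consequence: `∫ |δ| dα ≤ 22 π c` and the bounds
`|∫ δ K dt| ≤ 22 π c`, `|∫ δ² K dt| ≤ 242 π c²` for `|K| ≤ c / (1 - p²)`.
-/

open MeasureTheory Set Filter Topology intervalIntegral

noncomputable section

namespace Pool.Agent.FPX.F54Z

open Real Pool.Agent.FPX.F54

section frame

variable {s : ℝ} (h0 : 0 ≤ s) (h1 : s < 1) {f : ℝ → ℝ} (hf : UMP.Ef f)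

/-- the deviation from the round state in the frame of the zero -/
def dlt (s : ℝ) (f : ℝ → ℝ) (t : ℝ) : ℝ := f t - arcsin (s * cos t)

include hf in
theorem dlt_pi (t : ℝ) : dlt s f (t + π) = -dlt s f t := by
  unfold dlt
  rw [hf.odd, cos_add_pi, mul_neg, arcsin_neg]
  ring

theorem CA_pi (t : ℝ) : CA s (t + π) = -CA s t := by
  unfold CA W
  rw [cos_add_pi]
  have : (s * -cos t) ^ 2 = (s * cos t) ^ 2 := by ring
  rw [this]
  ring

theorem AP_pi (t : ℝ) : AP s (t + π) = AP s t := by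
  unfold AP W
  rw [cos_add_pi]
  have : (s * -cos t) ^ 2 = (s * cos t) ^ 2 := by ring
  rw [this]

include hf in
theorem cont_dlt : Continuous (dlt s f) :=
  hf.lip.continuous.sub (continuous_arcsin.comp (continuous_const.mul continuous_cos))

include h0 h1 hf in
/-- the constraint on half a period -/
theorem half_zero (hG1 : G1 s 0 f = 0) :
    ∫ t in (-(π / 2))..(π / 2), (CA s t * AP s t) * dlt s f t = 0 := by
  have hz := zeroC h0 h1 hG1
  have hc : Continuous fun t => (CA s t * AP s t) * dlt s f t :=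
    ((contCA h0 h1).mul (contAP h0 h1)).mul (cont_dlt hf)
  have hp : ∀ t, (CA s (t + π) * AP s (t + π)) * dlt s f (t + π)
      = (CA s t * AP s t) * dlt s f t := by
    intro t
    rw [CA_pi, AP_pi, dlt_pi hf]
    ring
  have h2 : Function.Periodic (fun t => (CA s t * AP s t) * dlt s f t) (2 * π) := by
    intro t
    have : t + 2 * π = (t + π) + π := by ring
    simp only
    rw [this, hp, hp]
  have a := h2.intervalIntegral_add_eq 0 (-(π / 2))
  rw [zero_add] at a
  have z : ∫ t in (0 : ℝ)..(2 * π), (CA s t * AP s t) * dlt s f t = 0 := hz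
  rw [z] at a
  have b : -(π / 2) + 2 * π = π / 2 + π := by ring
  rw [b, ← integral_add_adjacent_intervals (b := π / 2) (hc.intervalIntegrable _ _)
    (hc.intervalIntegrable _ _)] at a
  have d : ∫ t in (π / 2)..(π / 2 + π), (CA s t * AP s t) * dlt s f t
      = ∫ t in (-(π / 2))..(π / 2), (CA s t * AP s t) * dlt s f t := by
    have e := intervalIntegral.integral_comp_add_right (a := -(π / 2)) (b := π / 2)
      (fun t => (CA s t * AP s t) * dlt s f t) π
    simp only [hp] at e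
    rw [e]
    congr 1
    ring
  rw [d] at a
  linarith

include h0 h1 in
/-- the round state is below the tent, at distance at most `(π/2) c` -/
theorem tent_sub {t : ℝ} (ht : |t| ≤ π / 2) :
    π / 2 - |t| - arcsin (s * cos t) ≤ π / 2 * cc s := by
  have hcos : 0 ≤ cos t := cos_nonneg_of_mem_Icc (abs_le.1 ht)
  have hW := W_pos h0 h1 t
  have hW2 := W_sq h0 h1 t
  have hc := cc_pos h0 h1
  have hc2 := cc_sq h0 h1
  have h5 : s * cos t ≤ cos t := by nlinarith
  have h6 : 0 ≤ s * cos t := mul_nonneg h0 hcos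
  have hc1 := cos_le_one t
  set A := π / 2 - |t| with hA
  set B := arcsin (s * cos t) with hB
  have hsA : sin A = cos t := by
    rw [hA, sin_pi_div_two_sub, cos_abs]
  have hcA : cos A = |sin t| := by
    rw [hA, cos_pi_div_two_sub]
    rcases le_total 0 t with h | h
    · rw [abs_of_nonneg h, abs_of_nonneg]
      exact sin_nonneg_of_nonneg_of_le_pi h (by linarith [(abs_le.1 ht).2, pi_pos])
    · rw [abs_of_nonpos h, sin_neg, abs_of_nonpos]
      exact sin_nonpos_of_nonpos_of_neg_pi_le h (by linarith [(abs_le.1 ht).1, pi_pos])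
  have hsB : sin B = s * cos t := sin_arcsin (by linarith) (by linarith)
  have hcB : cos B = W s t := by
    rw [hB, cos_arcsin]
    rfl
  have hB0 : 0 ≤ B := arcsin_nonneg.2 h6
  have hBA : B ≤ A := by
    have : arcsin (s * cos t) ≤ arcsin (cos t) := monotone_arcsin h5
    have h7 : arcsin (cos t) = A := by
      rw [hA, arcsin_eq_pi_div_two_sub_arccos, ← cos_abs t, arccos_cos (abs_nonneg t) (by linarith [pi_pos])]
    rw [h7] at this
    exact this
  have hD0 : 0 ≤ A - B := by linarith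
  have hD1 : A - B ≤ π / 2 := by
    have := abs_nonneg t
    linarith
  have hj := mul_le_sin hD0 hD1
  have hs : sin (A - B) ≤ cc s := by
    rw [sin_sub, hsA, hcA, hsB, hcB]
    have hab := abs_nonneg (sin t)
    have hab2 : |sin t| ^ 2 = 1 - cos t ^ 2 := by
      rw [sq_abs]
      linarith [sin_sq_add_cos_sq t]
    have hWc : cc s ≤ W s t := by
      apply le_of_sq_le_sq _ hW.le
      rw [hW2, hc2]
      nlinarith [cos_sq_le_one t, sq_nonneg s]
    have hkey : (cos t * W s t - |sin t| * (s * cos t)) * (W s t + s * |sin t|) = cos t * cc s ^ 2 := by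
      have : s ^ 2 * |sin t| ^ 2 = s ^ 2 * (1 - cos t ^ 2) := by rw [hab2]
      rw [hc2]
      linear_combination cos t * hW2 - cos t * this
    have hpos : 0 < W s t + s * |sin t| := by positivity
    have : cos t * W s t - |sin t| * (s * cos t) = cos t * cc s ^ 2 / (W s t + s * |sin t|) := by
      rw [eq_div_iff hpos.ne', hkey]
    rw [this, div_le_iff₀ hpos]
    have h8 : cos t * cc s ^ 2 ≤ cc s * cc s := by nlinarith [sq_nonneg (cc s)]
    have h9 : cc s * cc s ≤ cc s * (W s t + s * |sin t|) := by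
      apply mul_le_mul_of_nonneg_left _ hc.le
      have : 0 ≤ s * |sin t| := mul_nonneg h0 hab
      linarith
    linarith
  have h10 : 2 / π * (A - B) ≤ cc s := hj.trans hs
  have h11 : A - B ≤ π / 2 * cc s := by
    have := mul_le_mul_of_nonneg_left h10 (by positivity : (0 : ℝ) ≤ π / 2)
    have e : π / 2 * (2 / π * (A - B)) = A - B := by
      field_simp
    rw [e] at this
    exact this
  exact h11

include h1 in
theorem tent_sub_nonneg {t : ℝ} (ht : |t| ≤ π / 2) : arcsin (s * cos t) ≤ π / 2 - |t| := by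
  have hcos : 0 ≤ cos t := cos_nonneg_of_mem_Icc (abs_le.1 ht)
  have h5 : s * cos t ≤ cos t := by nlinarith
  have : arcsin (s * cos t) ≤ arcsin (cos t) := monotone_arcsin h5
  have h7 : arcsin (cos t) = π / 2 - |t| := by
    rw [arcsin_eq_pi_div_two_sub_arccos, ← cos_abs t, arccos_cos (abs_nonneg t) (by linarith [pi_pos])]
  rw [h7] at this
  exact this

include hf in
theorem lipb (a b : ℝ) : f a ≤ f b + |a - b| := by
  have := hf.lip.dist_le_mul a b
  rw [Real.dist_eq, Real.dist_eq, NNReal.coe_one, one_mul] at this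
  linarith [(abs_le.1 this).2]

include hf in
theorem up2 {t : ℝ} (ht : |t| ≤ π / 2) : f t ≤ -f 0 + (π - |t|) := by
  have hπ := pi_pos
  rcases le_total 0 t with h | h
  · have a := lipb hf t π
    have b : f π = -f 0 := by
      have := hf.odd 0
      rw [zero_add] at this
      exact this
    rw [b] at a
    rw [abs_of_nonneg h] at ht ⊢
    rw [abs_of_nonpos (by linarith)] at a
    linarith
  · have a := lipb hf t (-π)
    have b : f (-π) = -f 0 := by
      have := hf.odd (-π)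
      rw [neg_add_cancel] at this
      linarith
    rw [b] at a
    rw [abs_of_nonpos h] at ht ⊢
    rw [abs_of_nonneg (by linarith)] at a
    linarith

include h1 hf in
theorem dlt_low {t : ℝ} (ht : |t| ≤ π / 2) : -(π / 2 - f 0) ≤ dlt s f t := by
  have a := lipb hf 0 t
  have b := tent_sub_nonneg h1 ht
  have c : |0 - t| = |t| := by rw [zero_sub, abs_neg]
  rw [c] at a
  unfold dlt
  linarith

include h0 h1 hf in
theorem dlt_up1 {t : ℝ} (ht : |t| ≤ π / 2) :
    dlt s f t ≤ π / 2 * cc s + (π / 2 - f 0) := by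
  have a := up2 hf ht
  have b := tent_sub h0 h1 ht
  unfold dlt
  linarith

include h0 h1 hf in
theorem dlt_up2 {t : ℝ} (ht : |t| ≤ π / 2) :
    dlt s f t ≤ π / 2 * cc s - (π / 2 - f 0) + 2 * |t| := by
  have a := lipb hf t 0
  have b := tent_sub h0 h1 ht
  rw [sub_zero] at a
  unfold dlt
  linarith

include h0 h1 in
theorem int_K (a b : ℝ) : ∫ t in a..b, CA s t * AP s t = SA s b - SA s a :=
  integral_eq_sub_of_hasDerivAt (fun t _ => dSA h0 h1 t)
    (((contCA h0 h1).mul (contAP h0 h1)).intervalIntegrable _ _)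

include h0 h1 in
theorem K_nonneg {t : ℝ} (ht : |t| ≤ π / 2) : 0 ≤ CA s t * AP s t := by
  have hcos : 0 ≤ cos t := cos_nonneg_of_mem_Icc (abs_le.1 ht)
  have hW := W_pos h0 h1 t
  have hc := cc_pos h0 h1
  unfold CA AP
  positivity

theorem SA_half : SA s (π / 2) = 1 := by
  unfold SA W
  rw [cos_pi_div_two, sin_pi_div_two]
  norm_num

theorem SA_odd (t : ℝ) : SA s (-t) = -SA s t := by
  unfold SA W
  rw [cos_neg, sin_neg]
  ring

include h0 h1 hf in
/-- the main inequality -/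
theorem mass (hG1 : G1 s 0 f = 0) {a : ℝ} (ha0 : 0 ≤ a) (ha : 4 * a = π / 2 - f 0) :
    3 / 2 * (π / 2 - f 0) * SA s a ≤ π / 2 * cc s + (π / 2 - f 0) := by
  have hz := half_zero h0 h1 hf hG1
  have hπ := pi_pos
  have hc := cc_pos h0 h1
  have hf0 := hf.lt 0
  set m := π / 2 - f 0 with hm
  have ham : a ≤ π / 2 := by
    have := (abs_lt.1 hf0).1
    linarith
  have hK : Continuous fun t => CA s t * AP s t := (contCA h0 h1).mul (contAP h0 h1)
  have hKd : Continuous fun t => (CA s t * AP s t) * dlt s f t := hK.mul (cont_dlt hf)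
  have ii : ∀ x y : ℝ, IntervalIntegrable (fun t => (CA s t * AP s t) * dlt s f t) volume x y :=
    fun x y => hKd.intervalIntegrable _ _
  have ij : ∀ k x y : ℝ, IntervalIntegrable (fun t => (CA s t * AP s t) * k) volume x y :=
    fun k x y => (hK.mul continuous_const).intervalIntegrable _ _
  rw [← integral_add_adjacent_intervals (b := a) (ii _ _) (ii _ _),
    ← integral_add_adjacent_intervals (a := -(π / 2)) (b := -a) (c := a) (ii _ _) (ii _ _)] at hz
  have e1 : ∫ t in (-(π / 2))..(-a), (CA s t * AP s t) * dlt s f t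
      ≤ (SA s (-a) - SA s (-(π / 2))) * (π / 2 * cc s + m) := by
    rw [← int_K h0 h1, ← intervalIntegral.integral_mul_const]
    refine integral_mono_on (by linarith) (ii _ _) (ij _ _ _) ?_
    intro t ht
    have ht' : |t| ≤ π / 2 := abs_le.2 ⟨ht.1, by linarith [ht.2]⟩
    exact mul_le_mul_of_nonneg_left (dlt_up1 h0 h1 hf ht') (K_nonneg h0 h1 ht')
  have e2 : ∫ t in (-a)..a, (CA s t * AP s t) * dlt s f t
      ≤ (SA s a - SA s (-a)) * (π / 2 * cc s - m / 2) := by
    rw [← int_K h0 h1, ← intervalIntegral.integral_mul_const]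
    refine integral_mono_on (by linarith) (ii _ _) (ij _ _ _) ?_
    intro t ht
    have ht2 : |t| ≤ a := abs_le.2 ⟨ht.1, ht.2⟩
    have ht' : |t| ≤ π / 2 := ht2.trans ham
    have := dlt_up2 h0 h1 hf ht'
    exact mul_le_mul_of_nonneg_left (by linarith) (K_nonneg h0 h1 ht')
  have e3 : ∫ t in a..(π / 2), (CA s t * AP s t) * dlt s f t
      ≤ (SA s (π / 2) - SA s a) * (π / 2 * cc s + m) := by
    rw [← int_K h0 h1, ← intervalIntegral.integral_mul_const]
    refine integral_mono_on (by linarith) (ii _ _) (ij _ _ _) ?_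
    intro t ht
    have ht' : |t| ≤ π / 2 := abs_le.2 ⟨by linarith [ht.1], ht.2⟩
    exact mul_le_mul_of_nonneg_left (dlt_up1 h0 h1 hf ht') (K_nonneg h0 h1 ht')
  rw [SA_odd, SA_odd, SA_half] at e1
  rw [SA_odd] at e2
  rw [SA_half] at e3
  have h9 : (0 : ℝ) ≤ (1 - SA s a) * (π / 2 * cc s + m) * 2
      + 2 * SA s a * (π / 2 * cc s - m / 2) := by
    have : (-SA s a - -1) * (π / 2 * cc s + m) + (SA s a - -SA s a) * (π / 2 * cc s - m / 2)
      + (1 - SA s a) * (π / 2 * cc s + m) = (1 - SA s a) * (π / 2 * cc s + m) * 2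
      + 2 * SA s a * (π / 2 * cc s - m / 2) := by ring
    linarith
  nlinarith

include h0 h1 hf in
/-- the distance of the maximum of `f` to `π/2` is `O(c)` -/
theorem m_le (hG1 : G1 s 0 f = 0) : π / 2 - f 0 ≤ 9 * cc s := by
  by_contra hcon
  have hcon : 9 * cc s < π / 2 - f 0 := lt_of_not_ge hcon
  have hc := cc_pos h0 h1
  have hπ := pi_pos
  have hf0 := hf.lt 0
  have hπ4 : π < 3.15 := pi_lt_d2
  have hπ3 : 3 < π := pi_gt_three
  set m := π / 2 - f 0 with hm
  have hm0 : 0 < m := by linarith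
  have hmπ : m < π := by
    have := (abs_lt.1 hf0).1
    linarith
  have hq := mass h0 h1 hf hG1 (a := m / 4) (by linarith) (by ring)
  rw [← hm] at hq
  have hs : 2 / π * (m / 4) ≤ sin (m / 4) := mul_le_sin (by linarith) (by linarith)
  have hs2 : 1.42 * cc s ≤ sin (m / 4) := by
    refine le_trans ?_ hs
    have e : 2 / π * (m / 4) = m / (2 * π) := by
      field_simp
      ring
    rw [e, le_div_iff₀ (by positivity)]
    nlinarith
  have hW := W_pos h0 h1 (m / 4)
  have hW2 := W_sq' h0 h1 (m / 4)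
  have hW3 : W s (m / 4) ^ 2 ≤ cc s ^ 2 + sin (m / 4) ^ 2 := by
    rw [hW2]
    have := cos_sq_le_one (m / 4)
    nlinarith [sq_nonneg (cc s)]
  have hSA : 0.8 ≤ SA s (m / 4) := by
    unfold SA
    rw [le_div_iff₀ hW]
    have h8 : 0 < sin (m / 4) := by
      have : 0 < 1.42 * cc s := by positivity
      linarith
    apply le_of_sq_le_sq _ h8.le
    have h9 : (1.42 * cc s) ^ 2 ≤ sin (m / 4) ^ 2 := pow_le_pow_left₀ (by positivity) hs2 2
    rw [mul_pow]
    nlinarith
  have h10 : 3 / 2 * m * 0.8 ≤ 3 / 2 * m * SA s (m / 4) :=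
    mul_le_mul_of_nonneg_left hSA (by positivity)
  have h11 : π / 2 * cc s ≤ 1.575 * cc s := by
    apply mul_le_mul_of_nonneg_right _ hc.le
    linarith
  linarith

include h0 h1 hf in
theorem dlt_abs0 (hG1 : G1 s 0 f = 0) {t : ℝ} (ht : |t| ≤ π / 2) : |dlt s f t| ≤ 11 * cc s := by
  have hc := cc_pos h0 h1
  have hm := m_le h0 h1 hf hG1
  have hπ4 : π < 3.15 := pi_lt_d2
  have a := dlt_low h1 hf ht
  have b := dlt_up1 h0 h1 hf ht
  have h11 : π / 2 * cc s ≤ 1.575 * cc s := by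
    apply mul_le_mul_of_nonneg_right _ hc.le
    linarith
  rw [abs_le]
  constructor
  · linarith
  · linarith

include h0 h1 hf in
theorem dlt_abs (hG1 : G1 s 0 f = 0) (t : ℝ) : |dlt s f t| ≤ 11 * cc s := by
  have hp : Function.Periodic (fun t => |dlt s f t|) π := by
    intro t
    simp only
    rw [dlt_pi hf, abs_neg]
  obtain ⟨y, hy, h2⟩ := hp.exists_mem_Ico pi_pos t (-(π / 2))
  rw [h2]
  exact dlt_abs0 h0 h1 hf hG1 (abs_le.2 ⟨hy.1, by linarith [hy.2]⟩)

end frame

/-- polar coordinates and the rotated state at a zero -/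
theorem polar {x y : ℝ} (h : x ^ 2 + y ^ 2 < 1) {f : ℝ → ℝ} (hf : UMP.Ef f)
    (hG1 : G1 x y f = 0) (hG2 : G2 x y f = 0) :
    ∃ s φ : ℝ, 0 ≤ s ∧ s < 1 ∧ x = s * cos φ ∧ y = s * sin φ ∧
      √(1 - x ^ 2 - y ^ 2) = cc s ∧ UMP.Ef (fun t => f (t + φ)) ∧
      G1 s 0 (fun t => f (t + φ)) = 0 ∧ G2 s 0 (fun t => f (t + φ)) = 0 := by
  obtain ⟨s, φ, h0, rfl, rfl⟩ : ∃ s φ : ℝ, 0 ≤ s ∧ x = s * cos φ ∧ y = s * sin φ := by
    refine ⟨‖(⟨x, y⟩ : ℂ)‖, (⟨x, y⟩ : ℂ).arg, norm_nonneg _, ?_, ?_⟩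
    · rw [Complex.norm_mul_cos_arg]
    · rw [Complex.norm_mul_sin_arg]
  have e0 := sin_sq_add_cos_sq φ
  have e1 : (s * cos φ) ^ 2 + (s * sin φ) ^ 2 = s ^ 2 := by linear_combination s ^ 2 * e0
  have e2 : 1 - (s * cos φ) ^ 2 - (s * sin φ) ^ 2 = 1 - s ^ 2 := by linarith
  rw [e1] at h
  have h1 : s < 1 := by nlinarith
  refine ⟨s, φ, h0, h1, rfl, rfl, ?_, ef_shift hf φ, ?_, ?_⟩
  · rw [e2]
    rfl
  · rw [G1_rot h hf, hG1, hG2]
    ring
  · rw [G2_rot h hf, hG1, hG2]
    ring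

/-- **size of the deviation near the boundary circle** -/
theorem delta_le {x y : ℝ} (h : x ^ 2 + y ^ 2 < 1) {f : ℝ → ℝ} (hf : UMP.Ef f)
    (hG1 : G1 x y f = 0) (hG2 : G2 x y f = 0) (t : ℝ) :
    |f t - arcsin (pr x y t)| ≤ 11 * √(1 - x ^ 2 - y ^ 2) := by
  obtain ⟨s, φ, h0, h1, hx, hy, hc, hF, z1, z2⟩ := polar h hf hG1 hG2
  have a := dlt_abs h0 h1 hF z1 (t - φ)
  unfold dlt at a
  simp only [sub_add_cancel] at a
  have b := pr_shift s φ (t - φ)
  rw [sub_add_cancel, pr0] at b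
  rw [hc, hx, hy, b]
  exact a

/-- `∫ dα = 2 π` in any frame -/
theorem int_alpha {x y : ℝ} (h : x ^ 2 + y ^ 2 < 1) :
    ∫ t in (0 : ℝ)..(2 * π), √(1 - x ^ 2 - y ^ 2) / (1 - pr x y t ^ 2) = 2 * π := by
  obtain ⟨s, φ, h0, rfl, rfl⟩ : ∃ s φ : ℝ, 0 ≤ s ∧ x = s * cos φ ∧ y = s * sin φ := by
    refine ⟨‖(⟨x, y⟩ : ℂ)‖, (⟨x, y⟩ : ℂ).arg, norm_nonneg _, ?_, ?_⟩
    · rw [Complex.norm_mul_cos_arg]
    · rw [Complex.norm_mul_sin_arg]
  have e0 := sin_sq_add_cos_sq φ
  have e1 : (s * cos φ) ^ 2 + (s * sin φ) ^ 2 = s ^ 2 := by linear_combination s ^ 2 * e0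
  have e2 : 1 - (s * cos φ) ^ 2 - (s * sin φ) ^ 2 = 1 - s ^ 2 := by linarith
  rw [e1] at h
  have h1 : s < 1 := by nlinarith
  rw [e2]
  refine Eq.trans ?_ (int_AP h0 h1)
  have hs := int_shift (F := fun t => √(1 - s ^ 2) / (1 - pr (s * cos φ) (s * sin φ) t ^ 2))
    (by
      intro t
      rw [pr_per]) φ
  simp only [pr_shift, pr0] at hs
  rw [← hs]
  refine integral_congr ?_
  intro t _
  simp only
  unfold AP
  rw [W_sq h0 h1]
  rfl

/-- a bounded function against a kernel dominated by `dα` -/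
theorem int_bound {x y : ℝ} (h : x ^ 2 + y ^ 2 < 1) {g K : ℝ → ℝ} {M : ℝ}
    (hg : ∀ t, |g t| ≤ M) (hK : ∀ t, |K t| ≤ √(1 - x ^ 2 - y ^ 2) / (1 - pr x y t ^ 2)) :
    |∫ t in (0 : ℝ)..(2 * π), g t * K t| ≤ 2 * π * M := by
  have hM : 0 ≤ M := (abs_nonneg _).trans (hg 0)
  have hcp : Continuous fun t => pr x y t := by
    unfold pr
    fun_prop
  have hc : Continuous fun t => √(1 - x ^ 2 - y ^ 2) / (1 - pr x y t ^ 2) :=
    continuous_const.div (continuous_const.sub (hcp.pow 2)) fun t => (pr_lt h t).ne'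
  have a := norm_integral_le_of_norm_le (a := (0 : ℝ)) (b := 2 * π) (μ := volume)
    (f := fun t => g t * K t) (g := fun t => M * (√(1 - x ^ 2 - y ^ 2) / (1 - pr x y t ^ 2)))
    (by linarith [pi_pos]) (Filter.Eventually.of_forall fun t _ => by
      rw [Real.norm_eq_abs, abs_mul]
      exact mul_le_mul (hg t) (hK t) (abs_nonneg _) hM)
    ((continuous_const.mul hc).intervalIntegrable _ _)
  rw [intervalIntegral.integral_const_mul, int_alpha h, Real.norm_eq_abs] at a
  linarith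

/-- moments of `Φ(δ)`, `|Φ(a)| ≤ M` for `|a| ≤ 11 c` -/
theorem mom_bound {x y : ℝ} (h : x ^ 2 + y ^ 2 < 1) {f : ℝ → ℝ} (hf : UMP.Ef f)
    (hG1 : G1 x y f = 0) (hG2 : G2 x y f = 0) {Φ K : ℝ → ℝ} {M : ℝ}
    (hΦ : ∀ a, |a| ≤ 11 * √(1 - x ^ 2 - y ^ 2) → |Φ a| ≤ M)
    (hK : ∀ t, |K t| ≤ √(1 - x ^ 2 - y ^ 2) / (1 - pr x y t ^ 2)) :
    |∫ t in (0 : ℝ)..(2 * π), Φ (f t - arcsin (pr x y t)) * K t| ≤ 2 * π * M :=
  int_bound h (fun t => hΦ _ (delta_le h hf hG1 hG2 t)) hK

end Pool.Agent.FPX.F54Z
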