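import Pool.Agent.FPX.C54A
import Pool.Agent.FPX.F54Z

/-
C54B (helper22): the unit direction `ε = E / w`, its derivative in `t`, the integrals of its powers
against `dα = c dt / w²`, and Bessel's inequality for any finite set of harmonics.
-/

open MeasureTheory Set Filter Topology Real intervalIntegral
open Pool.Agent.FPX.UMP (Ef)
open Pool.Agent.FPX.F54 Pool.Agent.FPX.F54B
open scoped ComplexConjugate

noncomputable section

namespace Pool.Agent.FPX.C54

/-- the direction of `u_t` seen from `Y`, a unit complex number -/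
def ep (x y t : ℝ) : ℂ := EE x y t / wt x y t

/-- the density of `dα` -/
def al (x y t : ℝ) : ℝ := ce x y / wt x y t ^ 2

variable {x y : ℝ}

theorem ep_mul_conj (h : x ^ 2 + y ^ 2 < 1) (t : ℝ) : ep x y t * conj (ep x y t) = 1 := by
  have hw := wt_pos h t
  have hwC : (wt x y t : ℂ) ≠ 0 := by exact_mod_cast hw.ne'
  unfold ep
  rw [map_div₀, Complex.conj_ofReal, div_mul_div_comm, normSq_EE h, Complex.ofReal_pow, sq]
  exact div_self (mul_ne_zero hwC hwC)

theorem norm_ep (h : x ^ 2 + y ^ 2 < 1) (t : ℝ) : ‖ep x y t‖ = 1 := by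
  have h1 := ep_mul_conj h t
  have h2 : ‖ep x y t‖ * ‖ep x y t‖ = 1 := by
    have := congrArg norm h1
    rwa [norm_mul, Complex.norm_conj, norm_one] at this
  nlinarith [norm_nonneg (ep x y t)]

theorem ep_ne (h : x ^ 2 + y ^ 2 < 1) (t : ℝ) : ep x y t ≠ 0 := by
  intro h0
  have := norm_ep h t
  rw [h0, norm_zero] at this
  exact zero_ne_one this

theorem conj_ep (h : x ^ 2 + y ^ 2 < 1) (t : ℝ) : conj (ep x y t) = (ep x y t)⁻¹ :=
  eq_inv_of_mul_eq_one_right (ep_mul_conj h t)

theorem al_pos (h : x ^ 2 + y ^ 2 < 1) (t : ℝ) : 0 < al x y t :=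
  div_pos (ce_pos h) (pow_pos (wt_pos h t) 2)

theorem KK_eq (h : x ^ 2 + y ^ 2 < 1) (m : ℕ) (t : ℝ) : KK m x y t = al x y t * ep x y t ^ m := by
  have hw := wt_pos h t
  have hwC : (wt x y t : ℂ) ≠ 0 := by exact_mod_cast hw.ne'
  unfold KK al ep
  push_cast
  rw [div_pow]
  field_simp
  ring

theorem cont_wt : Continuous fun t => wt x y t := by
  unfold wt
  exact (continuous_const.sub (cont_pr.pow 2)).sqrt

theorem cont_EE : Continuous fun t => EE x y t := by
  have e : (fun t => EE x y t) = fun t => ((cos t - pr x y t * x / (1 + ce x y) : ℝ) : ℂ)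
      + ((sin t - pr x y t * y / (1 + ce x y) : ℝ) : ℂ) * Complex.I := by
    funext t
    rw [EE, Complex.mk_eq_add_mul_I]
  rw [e]
  have h1 : Continuous fun t => cos t - pr x y t * x / (1 + ce x y) :=
    continuous_cos.sub ((cont_pr.mul continuous_const).div_const _)
  have h2 : Continuous fun t => sin t - pr x y t * y / (1 + ce x y) :=
    continuous_sin.sub ((cont_pr.mul continuous_const).div_const _)
  exact (Complex.continuous_ofReal.comp h1).add ((Complex.continuous_ofReal.comp h2).mul continuous_const)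

theorem cont_ep (h : x ^ 2 + y ^ 2 < 1) : Continuous fun t => ep x y t := by
  unfold ep
  refine cont_EE.div (Complex.continuous_ofReal.comp cont_wt) fun t => ?_
  have hw := wt_pos h t
  exact_mod_cast hw.ne'

theorem cont_al (h : x ^ 2 + y ^ 2 < 1) : Continuous fun t => al x y t := by
  unfold al
  refine continuous_const.div (cont_wt.pow 2) fun t => ?_
  have hw := wt_pos h t
  positivity

theorem cont_KK (h : x ^ 2 + y ^ 2 < 1) (m : ℕ) : Continuous fun t => KK m x y t := by
  have e : (fun t => KK m x y t) = fun t => (al x y t : ℂ) * ep x y t ^ m := by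
    funext t
    exact KK_eq h m t
  rw [e]
  exact (Complex.continuous_ofReal.comp (cont_al h)).mul ((cont_ep h).pow m)

private theorem dpr (t : ℝ) : HasDerivAt (fun t => pr x y t) (cos t * y - sin t * x) t := by
  unfold pr
  refine (((hasDerivAt_cos t).const_mul x).add ((hasDerivAt_sin t).const_mul y)).congr_deriv ?_
  ring

private theorem dEE (t : ℝ) : HasDerivAt (fun t => EE x y t)
    (⟨-sin t - (cos t * y - sin t * x) * x / (1 + ce x y),
      cos t - (cos t * y - sin t * x) * y / (1 + ce x y)⟩ : ℂ) t := by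
  have h1 : HasDerivAt (fun t => cos t - pr x y t * x / (1 + ce x y))
      (-sin t - (cos t * y - sin t * x) * x / (1 + ce x y)) t :=
    (hasDerivAt_cos t).sub (((dpr t).mul_const x).div_const _)
  have h2 : HasDerivAt (fun t => sin t - pr x y t * y / (1 + ce x y))
      (cos t - (cos t * y - sin t * x) * y / (1 + ce x y)) t :=
    (hasDerivAt_sin t).sub (((dpr t).mul_const y).div_const _)
  have h3 := h1.ofReal_comp.add (h2.ofReal_comp.mul_const Complex.I)
  rw [Complex.mk_eq_add_mul_I]
  refine h3.congr_of_eventuallyEq (Eventually.of_forall fun s => ?_)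
  simp only [EE, Complex.mk_eq_add_mul_I, Pi.add_apply]

private theorem dwt (h : x ^ 2 + y ^ 2 < 1) (t : ℝ) : HasDerivAt (fun t => wt x y t)
    (-(pr x y t * (cos t * y - sin t * x)) / wt x y t) t := by
  have h1 : HasDerivAt (fun t => 1 - pr x y t ^ 2) (-2 * (pr x y t * (cos t * y - sin t * x))) t := by
    refine (((dpr t).pow 2).const_sub 1).congr_deriv ?_
    simp
    ring
  have h2 := h1.sqrt (by linarith [pr_sq_lt h t] : (1 - pr x y t ^ 2) ≠ 0)
  refine h2.congr_deriv ?_
  unfold wt
  have h3 : √(1 - pr x y t ^ 2) ≠ 0 := (wt_pos h t).ne'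
  field_simp

private theorem dEE_conj (h : x ^ 2 + y ^ 2 < 1) (t : ℝ) :
    (⟨-sin t - (cos t * y - sin t * x) * x / (1 + ce x y),
      cos t - (cos t * y - sin t * x) * y / (1 + ce x y)⟩ : ℂ) * conj (EE x y t) =
      ⟨-(pr x y t * (cos t * y - sin t * x)), ce x y⟩ := by
  have hc := ce_pos h
  have hs := ce_sq h
  have h1 := sin_sq_add_cos_sq t
  apply Complex.ext
  · simp only [EE, Complex.mul_re, Complex.conj_re, Complex.conj_im]
    field_simp
    unfold pr
    linear_combination ((x * cos t + y * sin t) * (cos t * y - sin t * x)) * hs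
  · simp only [EE, Complex.mul_im, Complex.conj_re, Complex.conj_im]
    field_simp
    unfold pr
    linear_combination (1 + ce x y) * ((1 + ce x y - x ^ 2 - y ^ 2) * h1 - hs)

/-- the direction rotates with speed `dα` -/
theorem der_ep (h : x ^ 2 + y ^ 2 < 1) (t : ℝ) :
    HasDerivAt (fun t => ep x y t) (Complex.I * al x y t * ep x y t) t := by
  have hw := wt_pos h t
  have hwC : (wt x y t : ℂ) ≠ 0 := by exact_mod_cast hw.ne'
  have hE := EE_ne h t
  have d := (dEE (x := x) (y := y) t).div (dwt h t).ofReal_comp hwC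
  refine d.congr_deriv ?_
  have hN := normSq_EE h t
  have hEb : conj (EE x y t) = (wt x y t : ℂ) ^ 2 / EE x y t := by
    rw [eq_div_iff hE, mul_comm, hN]
    push_cast
    ring
  have hk := dEE_conj h t
  rw [hEb] at hk
  have hk2 : (⟨-sin t - (cos t * y - sin t * x) * x / (1 + ce x y),
      cos t - (cos t * y - sin t * x) * y / (1 + ce x y)⟩ : ℂ)
      = (⟨-(pr x y t * (cos t * y - sin t * x)), ce x y⟩ : ℂ) * EE x y t / (wt x y t : ℂ) ^ 2 := by
    rw [← hk]
    field_simp
  rw [hk2]
  unfold al ep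
  rw [Complex.mk_eq_add_mul_I]
  push_cast
  field_simp
  ring

/-- the density of `dα` times a power of the direction, integer exponent -/
def kz (k : ℤ) (x y t : ℝ) : ℂ := al x y t * ep x y t ^ k

theorem cont_kz (h : x ^ 2 + y ^ 2 < 1) (k : ℤ) : Continuous fun t => kz k x y t := by
  unfold kz
  exact (Complex.continuous_ofReal.comp (cont_al h)).mul
    ((cont_ep h).zpow₀ k fun t => Or.inl (ep_ne h t))

theorem periodic_ep (x y : ℝ) : Function.Periodic (fun t => ep x y t) (2 * π) := by
  intro t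
  simp only [ep, EE, wt, pr, cos_add_two_pi, sin_add_two_pi]

/-- the integral of a nonzero power of the direction vanishes -/
theorem int_kz (h : x ^ 2 + y ^ 2 < 1) {k : ℤ} (hk : k ≠ 0) :
    ∫ t in (0 : ℝ)..(2 * π), kz k x y t = 0 := by
  have hkC : (k : ℂ) ≠ 0 := by exact_mod_cast hk
  have hd : ∀ t, HasDerivAt (fun t => ep x y t ^ k / (Complex.I * k)) (kz k x y t) t := by
    intro t
    have h1 := ((hasDerivAt_zpow k (ep x y t) (Or.inl (ep_ne h t))).comp t (der_ep h t)).div_const
      (Complex.I * k)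
    refine h1.congr_deriv ?_
    unfold kz
    have h2 : ep x y t ^ k = ep x y t ^ (k - 1) * ep x y t := by
      rw [zpow_sub_one₀ (ep_ne h t), inv_mul_cancel_right₀ (ep_ne h t)]
    rw [h2]
    field_simp
  rw [integral_eq_sub_of_hasDerivAt (fun t _ => hd t) ((cont_kz h k).intervalIntegrable _ _)]
  have h3 : ep x y (2 * π) = ep x y 0 := by
    have := periodic_ep x y 0
    simpa using this
  rw [h3, sub_self]

theorem int_al (h : x ^ 2 + y ^ 2 < 1) : ∫ t in (0 : ℝ)..(2 * π), al x y t = 2 * π := by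
  refine Eq.trans (integral_congr fun t _ => ?_) (Pool.Agent.FPX.F54Z.int_alpha h)
  simp only [al, ce, wt_sq h]

theorem int_kz_zero (h : x ^ 2 + y ^ 2 < 1) : ∫ t in (0 : ℝ)..(2 * π), kz 0 x y t = 2 * π := by
  have e : (fun t => kz 0 x y t) = fun t => ((al x y t : ℝ) : ℂ) := by
    funext t
    simp [kz]
  rw [e, intervalIntegral.integral_ofReal, int_al h]
  push_cast
  ring

theorem KK_kz (h : x ^ 2 + y ^ 2 < 1) (m : ℕ) (t : ℝ) : KK m x y t = kz m x y t := by
  rw [KK_eq h, kz, zpow_natCast]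

theorem conj_kz (h : x ^ 2 + y ^ 2 < 1) (k : ℤ) (t : ℝ) : conj (kz k x y t) = kz (-k) x y t := by
  unfold kz
  rw [map_mul, Complex.conj_ofReal, map_zpow₀, conj_ep h, inv_zpow, zpow_neg]

theorem int_KK (h : x ^ 2 + y ^ 2 < 1) {m : ℕ} (hm : m ≠ 0) :
    ∫ t in (0 : ℝ)..(2 * π), KK m x y t = 0 := by
  have e : (fun t => KK m x y t) = fun t => kz m x y t := funext fun t => KK_kz h m t
  rw [e, int_kz h (by exact_mod_cast hm)]

theorem int_KK_zero (h : x ^ 2 + y ^ 2 < 1) : ∫ t in (0 : ℝ)..(2 * π), KK 0 x y t = 2 * π := by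
  have e : (fun t => KK 0 x y t) = fun t => kz 0 x y t := funext fun t => KK_kz h 0 t
  rw [e, int_kz_zero h]

/-- a measurable bounded function times a continuous one is integrable -/
theorem ii_bd {κ g : ℝ → ℂ} (hm : Measurable κ) {D : ℝ} (hb : ∀ t, ‖κ t‖ ≤ D) (hg : Continuous g) (a b : ℝ) :
    IntervalIntegrable (fun t => κ t * g t) volume a b := by
  have h1 : IntervalIntegrable g volume a b := hg.intervalIntegrable a b
  rw [intervalIntegrable_iff] at h1 ⊢
  exact h1.bdd_mul (c := D) hm.aestronglyMeasurable (Eventually.of_forall hb)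

/-- the harmonic of order `k` of a bounded function -/
def hm (k : ℤ) (x y : ℝ) (κ : ℝ → ℂ) : ℂ := (1 / (2 * π) : ℝ) * ∫ t in (0 : ℝ)..(2 * π), κ t * kz k x y t

theorem int_eq_hm (k : ℤ) (κ : ℝ → ℂ) :
    ∫ t in (0 : ℝ)..(2 * π), κ t * kz k x y t = (2 * π : ℝ) * hm k x y κ := by
  unfold hm
  rw [← mul_assoc, ← Complex.ofReal_mul]
  have : (2 * π : ℝ) * (1 / (2 * π)) = 1 := by
    have := pi_pos
    field_simp
  rw [this, Complex.ofReal_one, one_mul]

private theorem kz_mul (h : x ^ 2 + y ^ 2 < 1) (j k : ℤ) (t : ℝ) :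
    ep x y t ^ (-j) * kz k x y t = kz (k - j) x y t := by
  unfold kz
  rw [zpow_sub₀ (ep_ne h t), zpow_neg]
  field_simp

private theorem lem1 (h : x ^ 2 + y ^ 2 < 1) {F : ℝ → ℂ} (hF : Measurable F) {D : ℝ} (hb : ∀ t, ‖F t‖ ≤ D)
    (S : Finset ℤ) (A : ℤ → ℂ) :
    ∫ t in (0 : ℝ)..(2 * π), F t * ((al x y t : ℂ) * conj (∑ k ∈ S, A k * ep x y t ^ (-k))) =
      ∑ k ∈ S, conj (A k) * ∫ t in (0 : ℝ)..(2 * π), F t * kz k x y t := by
  have e : ∀ t, F t * ((al x y t : ℂ) * conj (∑ k ∈ S, A k * ep x y t ^ (-k)))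
      = ∑ k ∈ S, conj (A k) * (F t * kz k x y t) := by
    intro t
    rw [map_sum, Finset.mul_sum, Finset.mul_sum]
    refine Finset.sum_congr rfl fun k _ => ?_
    rw [map_mul, map_zpow₀, conj_ep h, inv_zpow, zpow_neg, inv_inv, kz]
    ring
  simp only [e]
  rw [intervalIntegral.integral_finsetSum]
  · refine Finset.sum_congr rfl fun k _ => ?_
    rw [intervalIntegral.integral_const_mul]
  · intro k _
    exact (ii_bd hF hb (cont_kz h k) _ _).const_mul _

private theorem lem2 (h : x ^ 2 + y ^ 2 < 1) (S : Finset ℤ) (A : ℤ → ℂ) {k : ℤ} (hk : k ∈ S) :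
    ∫ t in (0 : ℝ)..(2 * π), (∑ j ∈ S, A j * ep x y t ^ (-j)) * kz k x y t = (2 * π : ℝ) * A k := by
  have e : ∀ t, (∑ j ∈ S, A j * ep x y t ^ (-j)) * kz k x y t = ∑ j ∈ S, A j * kz (k - j) x y t := by
    intro t
    rw [Finset.sum_mul]
    refine Finset.sum_congr rfl fun j _ => ?_
    rw [mul_assoc, kz_mul h]
  simp only [e]
  rw [intervalIntegral.integral_finsetSum]
  · rw [Finset.sum_eq_single k]
    · rw [intervalIntegral.integral_const_mul, sub_self, int_kz_zero h]
      push_cast
      ring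
    · intro j _ hj
      rw [intervalIntegral.integral_const_mul, int_kz h (sub_ne_zero.2 (Ne.symm hj)), mul_zero]
    · intro h0
      exact absurd hk h0
  · intro j _
    exact ((cont_kz h (k - j)).intervalIntegrable _ _).const_mul _

private theorem re_int {f : ℝ → ℂ} (hf : IntervalIntegrable f volume 0 (2 * π)) :
    ∫ t in (0 : ℝ)..(2 * π), (f t).re = (∫ t in (0 : ℝ)..(2 * π), f t).re :=
  ContinuousLinearMap.intervalIntegral_comp_comm Complex.reCLM hf

/-- **Bessel's inequality** for the harmonics of a measurable function of modulus at most one -/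
theorem bessel (h : x ^ 2 + y ^ 2 < 1) {κ : ℝ → ℂ} (hmm : Measurable κ) (hb : ∀ t, ‖κ t‖ ≤ 1)
    (S : Finset ℤ) : ∑ k ∈ S, Complex.normSq (hm k x y κ) ≤ 1 := by
  set A : ℤ → ℂ := fun k => hm k x y κ with hA
  set g : ℝ → ℂ := fun t => ∑ k ∈ S, A k * ep x y t ^ (-k) with hg
  have hgt : ∀ t, ∑ k ∈ S, A k * ep x y t ^ (-k) = g t := fun _ => rfl
  have cg : Continuous g := by
    refine continuous_finsetSum _ fun k _ => continuous_const.mul ?_
    exact (cont_ep h).zpow₀ (-k) fun t => Or.inl (ep_ne h t)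
  have cal : Continuous fun t => ((al x y t : ℝ) : ℂ) := Complex.continuous_ofReal.comp (cont_al h)
  have cgc : Continuous fun t => (al x y t : ℂ) * conj (g t) := cal.mul (Complex.continuous_conj.comp cg)
  have i1 : IntervalIntegrable (fun t => κ t * ((al x y t : ℂ) * conj (g t))) volume 0 (2 * π) :=
    ii_bd hmm hb cgc _ _
  have i2 : IntervalIntegrable (fun t => g t * ((al x y t : ℂ) * conj (g t))) volume 0 (2 * π) :=
    (cg.mul cgc).intervalIntegrable _ _
  obtain ⟨D, hD⟩ : ∃ D, ∀ t, ‖g t‖ ≤ D := by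
    refine ⟨∑ k ∈ S, ‖A k‖, fun t => (norm_sum_le _ _).trans (Finset.sum_le_sum fun k _ => ?_)⟩
    rw [norm_mul, norm_zpow, norm_ep h, one_zpow, mul_one]
  have e1 : ∫ t in (0 : ℝ)..(2 * π), κ t * ((al x y t : ℂ) * conj (g t))
      = ((2 * π * ∑ k ∈ S, Complex.normSq (A k) : ℝ) : ℂ) := by
    rw [hg, lem1 h hmm hb S A]
    push_cast
    rw [Finset.mul_sum]
    refine Finset.sum_congr rfl fun k _ => ?_
    rw [int_eq_hm, Complex.normSq_eq_conj_mul_self]
    push_cast
    ring
  have e2 : ∫ t in (0 : ℝ)..(2 * π), g t * ((al x y t : ℂ) * conj (g t))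
      = ((2 * π * ∑ k ∈ S, Complex.normSq (A k) : ℝ) : ℂ) := by
    have h3 := lem1 h (F := g) cg.measurable hD S A
    simp only [hgt] at h3
    rw [h3]
    push_cast
    rw [Finset.mul_sum]
    refine Finset.sum_congr rfl fun k hk => ?_
    have h4 := lem2 h S A hk
    simp only [hgt] at h4
    rw [h4, Complex.normSq_eq_conj_mul_self]
    push_cast
    ring
  have r1 := re_int i1
  have r2 := re_int i2
  rw [e1, Complex.ofReal_re] at r1
  rw [e2, Complex.ofReal_re] at r2
  have mk : Measurable fun t => Complex.normSq (κ t) := Complex.continuous_normSq.measurable.comp hmm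
  have hk1 : ∀ t, Complex.normSq (κ t) ≤ 1 := by
    intro t
    rw [Complex.normSq_eq_norm_sq]
    have := hb t
    nlinarith [norm_nonneg (κ t)]
  have i3 : IntervalIntegrable (fun t => al x y t * Complex.normSq (κ t)) volume 0 (2 * π) := by
    have h1 : IntervalIntegrable (fun t => al x y t) volume 0 (2 * π) := (cont_al h).intervalIntegrable _ _
    rw [intervalIntegrable_iff] at h1 ⊢
    have h2 := h1.bdd_mul (c := 1) (f := fun t => Complex.normSq (κ t)) mk.aestronglyMeasurable
      (Eventually.of_forall fun t => by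
        rw [Real.norm_eq_abs, abs_of_nonneg (Complex.normSq_nonneg _)]
        exact hk1 t)
    refine h2.congr (Eventually.of_forall fun t => ?_)
    simp only
    ring
  have i1r : IntervalIntegrable (fun t => (κ t * ((al x y t : ℂ) * conj (g t))).re) volume 0 (2 * π) := by
    rw [intervalIntegrable_iff] at i1 ⊢
    exact i1.re
  have i2r : IntervalIntegrable (fun t => (g t * ((al x y t : ℂ) * conj (g t))).re) volume 0 (2 * π) := by
    rw [intervalIntegrable_iff] at i2 ⊢
    exact i2.re
  have pt : ∀ t, al x y t * Complex.normSq (κ t - g t) = al x y t * Complex.normSq (κ t)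
      + (g t * ((al x y t : ℂ) * conj (g t))).re - 2 * (κ t * ((al x y t : ℂ) * conj (g t))).re := by
    intro t
    rw [Complex.normSq_sub]
    have a1 : (g t * ((al x y t : ℂ) * conj (g t))).re = al x y t * Complex.normSq (g t) := by
      have : g t * ((al x y t : ℂ) * conj (g t)) = ((al x y t * Complex.normSq (g t) : ℝ) : ℂ) := by
        push_cast
        rw [Complex.normSq_eq_conj_mul_self]
        ring
      rw [this, Complex.ofReal_re]
    have a2 : (κ t * ((al x y t : ℂ) * conj (g t))).re = al x y t * (κ t * conj (g t)).re := by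
      have : κ t * ((al x y t : ℂ) * conj (g t)) = (al x y t : ℂ) * (κ t * conj (g t)) := by ring
      rw [this, Complex.re_ofReal_mul]
    rw [a1, a2]
    ring
  have n0 : 0 ≤ ∫ t in (0 : ℝ)..(2 * π), al x y t * Complex.normSq (κ t - g t) := by
    refine intervalIntegral.integral_nonneg (by positivity) fun t _ => ?_
    exact mul_nonneg (al_pos h t).le (Complex.normSq_nonneg _)
  simp only [pt] at n0
  rw [intervalIntegral.integral_sub (i3.add i2r) (i1r.const_mul 2), intervalIntegral.integral_add i3 i2r,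
    intervalIntegral.integral_const_mul, r1, r2] at n0
  have n1 : ∫ t in (0 : ℝ)..(2 * π), al x y t * Complex.normSq (κ t) ≤ 2 * π := by
    have h5 : ∫ t in (0 : ℝ)..(2 * π), al x y t * Complex.normSq (κ t)
        ≤ ∫ t in (0 : ℝ)..(2 * π), al x y t := by
      refine integral_mono_on (by positivity) i3 ((cont_al h).intervalIntegrable _ _) fun t _ => ?_
      have := al_pos h t
      nlinarith [hk1 t]
    rw [int_al h] at h5
    exact h5
  have hp := pi_pos
  have n2 : 2 * π * ∑ k ∈ S, Complex.normSq (A k) ≤ 2 * π * 1 := by linarith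
  exact le_of_mul_le_mul_left n2 (by positivity)

end Pool.Agent.FPX.C54
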