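import Mathlib

/-
CRD (helper11): reduction of a Hermitian form in finitely many moments of a complex function `K`, `|K| ≤ 1`,
to a finite inequality.  `wgt`: the weighted Gram inequality.  `red`: the exact 2x2 reduction (helper20)
for forms of the type `λ = Φ₁ v₁ + Φ₂ v₂`.
-/

open MeasureTheory Set Filter Topology Complex
open scoped ComplexConjugate

noncomputable section

namespace Pool.Agent.FPX.CRD

variable {X : Type*} [MeasurableSpace X] {μ : Measure X} [IsFiniteMeasure μ]

/-- bounded measurable functions -/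
structure Bm (f : X → ℂ) : Prop where
  meas : Measurable f
  bdd : ∃ C : ℝ, ∀ x, ‖f x‖ ≤ C

omit [IsFiniteMeasure μ] in
theorem Bm.int [IsFiniteMeasure μ] {f : X → ℂ} (h : Bm f) : Integrable f μ := by
  obtain ⟨C, hC⟩ := h.bdd
  exact Integrable.of_bound h.meas.aestronglyMeasurable C (Eventually.of_forall hC)

theorem Bm.mul {f g : X → ℂ} (hf : Bm f) (hg : Bm g) : Bm fun x => f x * g x := by
  obtain ⟨C, hC⟩ := hf.bdd
  obtain ⟨D, hD⟩ := hg.bdd
  refine ⟨hf.meas.mul hg.meas, C * D, fun x => ?_⟩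
  rw [norm_mul]
  exact mul_le_mul (hC x) (hD x) (norm_nonneg _) ((norm_nonneg _).trans (hC x))

theorem Bm.add {f g : X → ℂ} (hf : Bm f) (hg : Bm g) : Bm fun x => f x + g x := by
  obtain ⟨C, hC⟩ := hf.bdd
  obtain ⟨D, hD⟩ := hg.bdd
  exact ⟨hf.meas.add hg.meas, C + D, fun x => (norm_add_le _ _).trans (add_le_add (hC x) (hD x))⟩

theorem Bm.conj {f : X → ℂ} (hf : Bm f) : Bm fun x => conj (f x) := by
  obtain ⟨C, hC⟩ := hf.bdd
  refine ⟨(Complex.continuous_conj.measurable).comp hf.meas, C, fun x => ?_⟩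
  rw [RCLike.norm_conj]
  exact hC x

theorem Bm.const (c : ℂ) : Bm fun _ : X => c := ⟨measurable_const, ‖c‖, fun _ => le_rfl⟩

theorem Bm.sum {n : ℕ} {f : Fin n → X → ℂ} (hf : ∀ i, Bm (f i)) : Bm fun x => ∑ i, f i x := by
  choose C hC using fun i => (hf i).bdd
  exact ⟨Finset.measurable_sum _ fun i _ => (hf i).meas, ∑ i, C i, fun x =>
    (norm_sum_le _ _).trans (Finset.sum_le_sum fun i _ => hC i x)⟩

/-- **the weighted Gram inequality** -/
theorem wgt {n : ℕ} {φ : Fin n → X → ℂ} (hφ : ∀ i, Bm (φ i)) {k w u : X → ℂ} (hk : Bm k) (hw : Bm w)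
    (hu : Bm u) (hwu : ∀ x, 0 < (u x).re ∧ (u x).im = 0 ∧ (w x).im = 0 ∧ (u x).re * (w x).re = 1)
    (c : Fin n → ℂ) :
    2 * (∑ i, conj (c i) * ∫ x, k x * conj (φ i x) ∂μ).re
      - (∑ i, ∑ j, c i * conj (c j) * ∫ x, w x * (φ i x * conj (φ j x)) ∂μ).re
      ≤ (∫ x, u x * (k x * conj (k x)) ∂μ).re := by
  set h : X → ℂ := fun x => ∑ i, c i * φ i x with hh
  have bh : Bm h := Bm.sum fun i => (Bm.const (c i)).mul (hφ i)
  have e1 : ∑ i, conj (c i) * ∫ x, k x * conj (φ i x) ∂μ = ∫ x, k x * conj (h x) ∂μ := by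
    have e : (fun x => k x * conj (h x)) = fun x => ∑ i, conj (c i) * (k x * conj (φ i x)) := by
      funext x
      rw [hh]
      simp only [map_sum, map_mul, Finset.mul_sum]
      exact Finset.sum_congr rfl fun i _ => by ring
    rw [e, integral_finsetSum _ fun i _ => ((Bm.const _).mul (hk.mul (hφ i).conj)).int]
    exact Finset.sum_congr rfl fun i _ => (integral_const_mul _ _).symm
  have e2 : ∑ i, ∑ j, c i * conj (c j) * ∫ x, w x * (φ i x * conj (φ j x)) ∂μ =
      ∫ x, w x * (h x * conj (h x)) ∂μ := by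
    have e : (fun x => w x * (h x * conj (h x))) =
        fun x => ∑ i, ∑ j, c i * conj (c j) * (w x * (φ i x * conj (φ j x))) := by
      funext x
      show w x * ((∑ i, c i * φ i x) * conj (∑ i, c i * φ i x)) = _
      rw [map_sum, Finset.sum_mul_sum, Finset.mul_sum]
      refine Finset.sum_congr rfl fun i _ => ?_
      rw [Finset.mul_sum]
      refine Finset.sum_congr rfl fun j _ => ?_
      rw [map_mul]
      ring
    have bij : ∀ i j, Bm fun x => c i * conj (c j) * (w x * (φ i x * conj (φ j x))) := fun i j =>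
      (Bm.const _).mul (hw.mul ((hφ i).mul (hφ j).conj))
    rw [e, integral_finsetSum _ fun i _ => (Bm.sum fun j => bij i j).int]
    refine Finset.sum_congr rfl fun i _ => ?_
    rw [integral_finsetSum _ fun j _ => (bij i j).int]
    exact Finset.sum_congr rfl fun j _ => (integral_const_mul _ _).symm
  rw [e1, e2]
  have b1 : Bm fun x => u x * (k x * conj (k x)) := hu.mul (hk.mul hk.conj)
  have b2 : Bm fun x => w x * (h x * conj (h x)) := hw.mul (bh.mul bh.conj)
  have b3 : Bm fun x => k x * conj (h x) := hk.mul bh.conj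
  have r : ∀ {f : X → ℂ}, Bm f → (∫ x, f x ∂μ).re = ∫ x, (f x).re ∂μ := fun {f} bf =>
    (integral_re bf.int).symm
  have i1 : Integrable (fun x => (u x * (k x * conj (k x))).re) μ := b1.int.re
  have i2 : Integrable (fun x => (w x * (h x * conj (h x))).re) μ := b2.int.re
  have i3 : Integrable (fun x => 2 * (k x * conj (h x)).re) μ := b3.int.re.const_mul 2
  rw [r b1, r b2, r b3, ← integral_const_mul, ← integral_sub i3 i2]
  refine integral_mono (i3.sub i2) i1 fun x => ?_
  obtain ⟨h1, h2, h3, h4⟩ := hwu x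
  have ea : (u x * (k x * conj (k x))).re = (u x).re * normSq (k x) := by
    rw [mul_conj, mul_re, ofReal_re, ofReal_im, h2]; ring
  have eb : (w x * (h x * conj (h x))).re = (w x).re * normSq (h x) := by
    rw [mul_conj, mul_re, ofReal_re, ofReal_im, h3]; ring
  show 2 * (k x * conj (h x)).re - (w x * (h x * conj (h x))).re ≤ (u x * (k x * conj (k x))).re
  rw [ea, eb]
  have hw0 : 0 < (w x).re := by
    rcases lt_trichotomy (w x).re 0 with h | h | h
    · nlinarith
    · rw [h] at h4; simp at h4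
    · exact h
  have key : 0 ≤ normSq ((u x).re • k x - h x) := normSq_nonneg _
  have ek : normSq ((u x).re • k x - h x) = (u x).re ^ 2 * normSq (k x) + normSq (h x)
      - 2 * ((u x).re * (k x * conj (h x)).re) := by
    simp only [normSq_apply, sub_re, sub_im, real_smul, mul_re, mul_im, ofReal_re, ofReal_im,
      conj_re, conj_im]
    ring
  rw [ek] at key
  have h5 : 0 ≤ (w x).re * ((u x).re ^ 2 * normSq (k x) + normSq (h x)
      - 2 * ((u x).re * (k x * conj (h x)).re)) := mul_nonneg hw0.le key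
  have h6 : (w x).re * ((u x).re ^ 2 * normSq (k x) + normSq (h x)
      - 2 * ((u x).re * (k x * conj (h x)).re)) = (u x).re * normSq (k x)
      + (w x).re * normSq (h x) - 2 * (k x * conj (h x)).re := by
    linear_combination ((u x).re * normSq (k x) - 2 * (k x * conj (h x)).re) * h4
  rw [h6] at h5
  linarith

/-- the algebraic identity behind `red` -/
theorem red_alg (A B σ mp mq X2 U V : ℂ) (n2 W0 ν : ℝ) :
    2 * (conj ((conj B - conj σ * A) - A * mp + conj B * conj mq) * (conj B - conj σ * A)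
        + conj ((A - σ * conj B) - A * mq + conj B * conj mp) * (A - σ * conj B)
        + conj A * conj U - B * V).re
      - (normSq ((conj B - conj σ * A) - A * mp + conj B * conj mq)
        + normSq ((A - σ * conj B) - A * mq + conj B * conj mp)
        + (normSq A + normSq B) * n2
        + 2 * (((conj B - conj σ * A) - A * mp + conj B * conj mq) * (conj A * conj mp)).re
        - 2 * (((conj B - conj σ * A) - A * mp + conj B * conj mq) * (B * mq)).re
        + 2 * (((A - σ * conj B) - A * mq + conj B * conj mp) * (conj A * conj mq)).re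
        - 2 * (((A - σ * conj B) - A * mq + conj B * conj mp) * (B * mp)).re
        - 2 * (A * B * X2).re)
      = W0 * (normSq A - normSq B) + 2 * (A * U).re - 2 * (B * V).re + 2 * ν * normSq B
        + ((1 + normSq σ - (W0 + 2 * (mq - σ * mp).re) - (n2 - normSq mp - normSq mq)) * normSq A
        + (1 + normSq σ + (W0 + 2 * (mq - σ * mp).re) - (n2 - normSq mp - normSq mq) - 2 * ν) * normSq B
        - 2 * (A * B * (2 * conj σ - (X2 - 2 * mp * mq))).re) := by
  obtain ⟨a1, a2⟩ := A
  obtain ⟨b1, b2⟩ := B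
  obtain ⟨s1, s2⟩ := σ
  obtain ⟨p1, p2⟩ := mp
  obtain ⟨q1, q2⟩ := mq
  obtain ⟨x1, x2⟩ := X2
  obtain ⟨u1, u2⟩ := U
  obtain ⟨v1, v2⟩ := V
  simp only [normSq_apply, mul_re, mul_im, add_re, add_im, sub_re, sub_im, conj_re, conj_im,
    re_ofNat, im_ofNat]
  ring

/-- a positive 2x2 Hermitian form -/
theorem psd {m1 m2 : ℝ} {Y A B : ℂ} (h1 : 0 ≤ m1) (h2 : 0 ≤ m2) (h : normSq Y ≤ m1 * m2) :
    0 ≤ m1 * normSq A + m2 * normSq B - 2 * (A * B * Y).re := by
  have e : (A * B * Y).re ≤ ‖A‖ * ‖B‖ * ‖Y‖ := by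
    rw [← norm_mul, ← norm_mul]
    exact re_le_norm _
  have hA : normSq A = ‖A‖ ^ 2 := normSq_eq_norm_sq A
  have hB : normSq B = ‖B‖ ^ 2 := normSq_eq_norm_sq B
  have hY : normSq Y = ‖Y‖ ^ 2 := normSq_eq_norm_sq Y
  rw [hY] at h
  have hy : ‖Y‖ ≤ √m1 * √m2 := by
    rw [← Real.sqrt_mul h1]
    exact Real.le_sqrt_of_sq_le h
  have k1 : √m1 ^ 2 = m1 := Real.sq_sqrt h1
  have k2 : √m2 ^ 2 = m2 := Real.sq_sqrt h2
  rw [hA, hB]
  have h3 : ‖A‖ * ‖B‖ * ‖Y‖ ≤ ‖A‖ * ‖B‖ * (√m1 * √m2) :=
    mul_le_mul_of_nonneg_left hy (by positivity)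
  nlinarith [sq_nonneg (√m1 * ‖A‖ - √m2 * ‖B‖)]

/-- **the exact 2x2 reduction** -/
theorem red [IsProbabilityMeasure μ] {E m K : X → ℂ} (hE : Bm E) (hm : Bm m) (hK : Bm K)
    (hE1 : ∀ x, E x * conj (E x) = 1) (hE2 : ∫ x, E x * E x ∂μ = 0) (hK1 : ∀ x, normSq (K x) ≤ 1)
    {A B σ : ℂ} (ha : A - σ * conj B = ∫ x, E x * conj (K x) ∂μ)
    (hb : B - σ * conj A = ∫ x, E x * K x ∂μ) {mp mq X2 : ℂ} (hmp : mp = ∫ x, m x * conj (E x) ∂μ)
    (hmq : mq = ∫ x, m x * E x ∂μ) (hX : X2 = ∫ x, m x * m x ∂μ) {n2 W0 ν : ℝ}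
    (hn : (n2 : ℂ) = ∫ x, m x * conj (m x) ∂μ)
    (h1 : 0 ≤ 1 + normSq σ - (W0 + 2 * (mq - σ * mp).re) - (n2 - normSq mp - normSq mq))
    (h2 : 0 ≤ 1 + normSq σ + (W0 + 2 * (mq - σ * mp).re) - (n2 - normSq mp - normSq mq) - 2 * ν)
    (h3 : normSq (2 * conj σ - (X2 - 2 * mp * mq)) ≤
      (1 + normSq σ - (W0 + 2 * (mq - σ * mp).re) - (n2 - normSq mp - normSq mq))
        * (1 + normSq σ + (W0 + 2 * (mq - σ * mp).re) - (n2 - normSq mp - normSq mq) - 2 * ν)) :
    W0 * (normSq A - normSq B) + 2 * (A * ∫ x, m x * K x ∂μ).re - 2 * (B * ∫ x, m x * conj (K x) ∂μ).re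
      + 2 * ν * normSq B ≤ 1 := by
  set U : ℂ := ∫ x, m x * K x ∂μ with hU
  set V : ℂ := ∫ x, m x * conj (K x) ∂μ with hV
  set φ : Fin 4 → X → ℂ := ![E, fun x => conj (E x), m, fun x => conj (m x)] with hφ
  have bφ : ∀ i, Bm (φ i) := by
    intro i
    fin_cases i
    · exact hE
    · exact hE.conj
    · exact hm
    · exact hm.conj
  set α : ℂ := (conj B - conj σ * A) - A * mp + conj B * conj mq with hα
  set β : ℂ := (A - σ * conj B) - A * mq + conj B * conj mp with hβ
  have key := wgt (μ := μ) bφ hK.conj (Bm.const 1) (Bm.const 1) (fun x => by simp)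
    ![α, β, A, -conj B]
  have cj : ∀ f : X → ℂ, ∫ x, conj (f x) ∂μ = conj (∫ x, f x ∂μ) := fun f => integral_conj
  have hb' : conj B - conj σ * A = ∫ x, conj (K x) * conj (E x) ∂μ := by
    have : (fun x => conj (K x) * conj (E x)) = fun x => conj (E x * K x) := by
      funext x; rw [map_mul]; ring
    rw [this, cj, ← hb, map_sub, map_mul, conj_conj]
  have ha' : A - σ * conj B = ∫ x, conj (K x) * E x ∂μ := by
    rw [ha]; congr 1; funext x; ring
  have k2 : ∫ x, conj (K x) * conj (m x) ∂μ = conj U := by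
    have : (fun x => conj (K x) * conj (m x)) = fun x => conj (m x * K x) := by
      funext x; rw [map_mul]; ring
    rw [this, cj]
  have k3 : ∫ x, conj (K x) * m x ∂μ = V := by
    rw [hV]; congr 1; funext x; ring
  have g00 : ∫ x, E x * conj (E x) ∂μ = 1 := by
    simp only [hE1]; simp
  have g11 : ∫ x, conj (E x) * E x ∂μ = 1 := by
    rw [← g00]; congr 1; funext x; ring
  have g10 : ∫ x, conj (E x) * conj (E x) ∂μ = 0 := by
    have : (fun x => conj (E x) * conj (E x)) = fun x => conj (E x * E x) := by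
      funext x; rw [map_mul]
    rw [this, cj, hE2, map_zero]
  have g02 : ∫ x, E x * conj (m x) ∂μ = conj mp := by
    have : (fun x => E x * conj (m x)) = fun x => conj (m x * conj (E x)) := by
      funext x; rw [map_mul, conj_conj]; ring
    rw [this, cj, hmp]
  have g03 : ∫ x, E x * m x ∂μ = mq := by
    rw [hmq]; congr 1; funext x; ring
  have g12 : ∫ x, conj (E x) * conj (m x) ∂μ = conj mq := by
    have : (fun x => conj (E x) * conj (m x)) = fun x => conj (m x * E x) := by
      funext x; rw [map_mul]; ring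
    rw [this, cj, hmq]
  have g13 : ∫ x, conj (E x) * m x ∂μ = mp := by
    rw [hmp]; congr 1; funext x; ring
  have g30 : ∫ x, conj (m x) * conj (E x) ∂μ = conj mq := by
    rw [← g12]; congr 1; funext x; ring
  have g31 : ∫ x, conj (m x) * E x ∂μ = conj mp := by
    rw [← g02]; congr 1; funext x; ring
  have g32 : ∫ x, conj (m x) * conj (m x) ∂μ = conj X2 := by
    have : (fun x => conj (m x) * conj (m x)) = fun x => conj (m x * m x) := by
      funext x; rw [map_mul]
    rw [this, cj, hX]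
  have g33 : ∫ x, conj (m x) * m x ∂μ = n2 := by
    rw [hn]; congr 1; funext x; ring
  have hk1 : (∫ x, (1 : ℂ) * (conj (K x) * conj (conj (K x))) ∂μ).re ≤ 1 := by
    have bk : Bm fun x => (1 : ℂ) * (conj (K x) * conj (conj (K x))) :=
      (Bm.const 1).mul (hK.conj.mul hK.conj.conj)
    have : (∫ x, (1 : ℂ) * (conj (K x) * conj (conj (K x))) ∂μ).re =
        ∫ x, ((1 : ℂ) * (conj (K x) * conj (conj (K x)))).re ∂μ := (integral_re bk.int).symm
    rw [this]
    have h : ∫ x, ((1 : ℂ) * (conj (K x) * conj (conj (K x)))).re ∂μ ≤ ∫ _x : X, (1 : ℝ) ∂μ := by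
      refine integral_mono bk.int.re (integrable_const 1) fun x => ?_
      have e : ((1 : ℂ) * (conj (K x) * conj (conj (K x)))).re = normSq (K x) := by
        rw [one_mul, conj_conj, mul_comm, mul_conj, ofReal_re]
      show ((1 : ℂ) * (conj (K x) * conj (conj (K x)))).re ≤ 1
      rw [e]
      exact hK1 x
    simpa using h
  have s1 : ∑ i, conj ((![α, β, A, -conj B] : Fin 4 → ℂ) i) * ∫ x, conj (K x) * conj (φ i x) ∂μ =
      conj α * (conj B - conj σ * A) + conj β * (A - σ * conj B) + conj A * conj U - B * V := by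
    rw [Fin.sum_univ_four]
    have f0 : ∫ x, conj (K x) * conj (φ 0 x) ∂μ = conj B - conj σ * A := hb'.symm
    have f1 : ∫ x, conj (K x) * conj (φ 1 x) ∂μ = A - σ * conj B := by
      rw [ha']; congr 1; funext x; show conj (K x) * conj (conj (E x)) = _; rw [conj_conj]
    have f2 : ∫ x, conj (K x) * conj (φ 2 x) ∂μ = conj U := k2
    have f3 : ∫ x, conj (K x) * conj (φ 3 x) ∂μ = V := by
      rw [← k3]; congr 1; funext x; show conj (K x) * conj (conj (m x)) = _; rw [conj_conj]
    rw [f0, f1, f2, f3]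
    show conj α * _ + conj β * _ + conj A * _ + conj (-conj B) * _ = _
    rw [map_neg, conj_conj]
    ring
  have s2 : (∑ i, ∑ j, (![α, β, A, -conj B] : Fin 4 → ℂ) i * conj ((![α, β, A, -conj B] : Fin 4 → ℂ) j)
      * ∫ x, (1 : ℂ) * (φ i x * conj (φ j x)) ∂μ).re =
      normSq α + normSq β + (normSq A + normSq B) * n2 + 2 * (α * (conj A * conj mp)).re
        - 2 * (α * (B * mq)).re + 2 * (β * (conj A * conj mq)).re - 2 * (β * (B * mp)).re
        - 2 * (A * B * X2).re := by
    have w : ∀ i j, ∫ x, (1 : ℂ) * (φ i x * conj (φ j x)) ∂μ = ∫ x, φ i x * conj (φ j x) ∂μ := fun i j => by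
      simp only [one_mul]
    have cc : ∀ (f : X → ℂ) (i : Fin 4), (∫ x, φ i x * conj (conj (f x)) ∂μ) = ∫ x, φ i x * f x ∂μ :=
      fun f i => by simp only [conj_conj]
    have G : ∀ i j, ∫ x, (1 : ℂ) * (φ i x * conj (φ j x)) ∂μ =
        (![![1, 0, conj mp, mq], ![0, 1, conj mq, mp], ![mp, mq, (n2 : ℂ), X2],
          ![conj mq, conj mp, conj X2, (n2 : ℂ)]] : Fin 4 → Fin 4 → ℂ) i j := by
      intro i j
      rw [w]
      fin_cases i <;> fin_cases j
      · exact g00
      · exact (cc E 0).trans hE2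
      · exact g02
      · exact (cc m 0).trans g03
      · exact g10
      · exact (cc E 1).trans g11
      · exact g12
      · exact (cc m 1).trans g13
      · exact hmp.symm
      · exact (cc E 2).trans hmq.symm
      · exact hn.symm
      · exact (cc m 2).trans hX.symm
      · exact g30
      · exact (cc E 3).trans g31
      · exact g32
      · exact (cc m 3).trans g33
    simp only [Fin.sum_univ_four, G]
    simp only [Matrix.cons_val_zero, Matrix.cons_val_one, Matrix.cons_val]
    simp only [normSq_apply, mul_re, mul_im, add_re, conj_re, conj_im,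
      neg_re, neg_im, ofReal_re, ofReal_im, one_re, one_im, zero_re, zero_im, map_neg, conj_conj]
    ring
  have alg := red_alg A B σ mp mq X2 U V n2 W0 ν
  rw [← hα, ← hβ] at alg
  have hp := psd (A := A) (B := B) h1 h2 h3
  rw [s1, s2] at key
  have key2 := key.trans hk1
  linarith

end Pool.Agent.FPX.CRD
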