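import Mathlib
import Pool.Agent.FPX.C54B
import Pool.Agent.FPX.CRD

/-
OMB (helper11): the visual measure `vm x y` (mean over the visual angle) as a probability measure, and the
passage from the value of `dλ` of the local forms (`CST.dl_loc`) to a Hermitian form in the complex gradient
`K = h + i k`.
-/

open MeasureTheory Set Filter Topology Complex
open scoped ComplexConjugate ENNReal

noncomputable section

namespace Pool.Agent.FPX.OMB

open Pool.Agent.FPX.C54 Pool.Agent.FPX.CRD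

/-- the mean over the visual angle -/
def vm (x y : ℝ) : Measure ℝ :=
  (volume.restrict (Ioc 0 (2 * Real.pi))).withDensity fun t => ENNReal.ofReal (al x y t / (2 * Real.pi))

variable {x y : ℝ}

theorem vm_int (h : x ^ 2 + y ^ 2 < 1) (g : ℝ → ℂ) : ∫ t, g t ∂(vm x y) =
    (1 / (2 * Real.pi) : ℝ) * ∫ t in (0 : ℝ)..(2 * Real.pi), g t * (al x y t : ℂ) := by
  have hm : Measurable fun t => al x y t / (2 * Real.pi) := ((cont_al h).div_const _).measurable
  have h0 : ∀ t, 0 ≤ al x y t / (2 * Real.pi) := fun t => by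
    have := al_pos h t
    have := Real.pi_pos
    positivity
  rw [vm, intervalIntegral.integral_of_le Real.two_pi_pos.le, ← integral_const_mul,
    integral_withDensity_eq_integral_toReal_smul hm.ennreal_ofReal
      (Eventually.of_forall fun t => ENNReal.ofReal_lt_top)]
  refine integral_congr_ae (Eventually.of_forall fun t => ?_)
  simp only [ENNReal.toReal_ofReal (h0 t), real_smul]
  push_cast
  ring

theorem vm_prob (h : x ^ 2 + y ^ 2 < 1) : IsProbabilityMeasure (vm x y) := by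
  have h0 : ∀ t, 0 ≤ al x y t / (2 * Real.pi) := fun t => by
    have := al_pos h t
    have := Real.pi_pos
    positivity
  constructor
  rw [vm, withDensity_apply _ MeasurableSet.univ, Measure.restrict_univ,
    ← ofReal_integral_eq_lintegral_ofReal]
  · rw [← intervalIntegral.integral_of_le Real.two_pi_pos.le, intervalIntegral.integral_div, int_al h,
      div_self Real.two_pi_pos.ne', ENNReal.ofReal_one]
  · exact (((cont_al h).div_const _).integrableOn_Icc (a := 0) (b := 2 * Real.pi)).mono_set Ioc_subset_Icc_self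
  · exact Eventually.of_forall h0

theorem bm_ep (h : x ^ 2 + y ^ 2 < 1) : Bm (ep x y) :=
  ⟨(cont_ep h).measurable, 1, fun t => (norm_ep h t).le⟩

theorem vm_ep2 (h : x ^ 2 + y ^ 2 < 1) : ∫ t, ep x y t * ep x y t ∂(vm x y) = 0 := by
  rw [vm_int h]
  have e : (fun t => ep x y t * ep x y t * (al x y t : ℂ)) = fun t => kz 2 x y t := by
    funext t
    rw [kz, zpow_ofNat]
    ring
  rw [e, int_kz h (by norm_num), mul_zero]

/-- real bounded measurable functions as complex ones -/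
theorem bm_real {g : ℝ → ℝ} (hg : Measurable g) {C : ℝ} (hC : ∀ t, |g t| ≤ C) : Bm fun t => (g t : ℂ) :=
  ⟨Complex.measurable_ofReal.comp hg, C, fun t => by
    rw [Complex.norm_real]
    exact hC t⟩

section Core

variable {X : Type*} [MeasurableSpace X] {μ : Measure X} [IsFiniteMeasure μ]

/-- **the mixed part of `dλ` of a local form**: `m = δ (Q ζ conj(E)² + Z conj(ζ))` -/
theorem core {E δ h k : X → ℂ} (hE : Bm E) (hδ : Bm δ) (hh : Bm h) (hk : Bm k) (rδ : ∀ x, (δ x).im = 0)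
    (rh : ∀ x, (h x).im = 0) (rk : ∀ x, (k x).im = 0) (ζ vp vq : ℂ) (Q Z : ℝ) :
    ((Q : ℂ) * ζ * (conj (2 * ∫ x, δ x * h x * E x ^ 2 ∂μ) * vq
        - conj (2 * ∫ x, δ x * k x * E x ^ 2 ∂μ) * vp)).im
      + Z * ((2 * ∫ x, δ x * h x ∂μ).re * (conj ζ * vq).im - (2 * ∫ x, δ x * k x ∂μ).re * (conj ζ * vp).im)
    = 2 * ((vp - I * vq) / 2 * ∫ x, δ x * ((Q : ℂ) * ζ * conj (E x) ^ 2 + (Z : ℂ) * conj ζ)
          * (h x + I * k x) ∂μ).re
      - 2 * ((vp + I * vq) / 2 * ∫ x, δ x * ((Q : ℂ) * ζ * conj (E x) ^ 2 + (Z : ℂ) * conj ζ)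
          * conj (h x + I * k x) ∂μ).re := by
  have rc : ∀ z : ℂ, z.im = 0 → conj z = z := fun z hz => Complex.conj_eq_iff_im.2 hz
  have cj : ∀ f : X → ℂ, ∫ x, conj (f x) ∂μ = conj (∫ x, f x ∂μ) := fun f => integral_conj
  have bE2 : Bm fun x => conj (E x) ^ 2 := by
    have := hE.conj.mul hE.conj
    simpa only [pow_two] using this
  have bE2' : Bm fun x => E x ^ 2 := by
    have := hE.mul hE
    simpa only [pow_two] using this
  -- the moments of `m`
  have M : ∀ g : X → ℂ, Bm g → (∀ x, (g x).im = 0) →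
      ∫ x, δ x * ((Q : ℂ) * ζ * conj (E x) ^ 2 + (Z : ℂ) * conj ζ) * g x ∂μ =
        (Q : ℂ) * ζ * conj (∫ x, δ x * g x * E x ^ 2 ∂μ) + (Z : ℂ) * conj ζ * ∫ x, δ x * g x ∂μ := by
    intro g bg rg
    have e : (fun x => δ x * ((Q : ℂ) * ζ * conj (E x) ^ 2 + (Z : ℂ) * conj ζ) * g x) =
        fun x => (Q : ℂ) * ζ * conj (δ x * g x * E x ^ 2) + (Z : ℂ) * conj ζ * (δ x * g x) := by
      funext x
      rw [map_mul, map_mul, map_pow, rc _ (rδ x), rc _ (rg x)]
      ring
    have b1 : Bm fun x => δ x * g x * E x ^ 2 := (hδ.mul bg).mul bE2'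
    rw [e, integral_add ((Bm.const _).mul b1.conj).int ((Bm.const _).mul (hδ.mul bg)).int,
      integral_const_mul, integral_const_mul, cj]
  have bm : Bm fun x => δ x * ((Q : ℂ) * ζ * conj (E x) ^ 2 + (Z : ℂ) * conj ζ) :=
    hδ.mul (((Bm.const ((Q : ℂ) * ζ)).mul bE2).add (Bm.const ((Z : ℂ) * conj ζ)))
  have s1 : ∫ x, δ x * ((Q : ℂ) * ζ * conj (E x) ^ 2 + (Z : ℂ) * conj ζ) * (h x + I * k x) ∂μ =
      (∫ x, δ x * ((Q : ℂ) * ζ * conj (E x) ^ 2 + (Z : ℂ) * conj ζ) * h x ∂μ)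
        + I * ∫ x, δ x * ((Q : ℂ) * ζ * conj (E x) ^ 2 + (Z : ℂ) * conj ζ) * k x ∂μ := by
    rw [← integral_const_mul, ← integral_add (bm.mul hh).int ((Bm.const I).mul (bm.mul hk)).int]
    congr 1
    funext x
    ring
  have s2 : ∫ x, δ x * ((Q : ℂ) * ζ * conj (E x) ^ 2 + (Z : ℂ) * conj ζ) * conj (h x + I * k x) ∂μ =
      (∫ x, δ x * ((Q : ℂ) * ζ * conj (E x) ^ 2 + (Z : ℂ) * conj ζ) * h x ∂μ)
        - I * ∫ x, δ x * ((Q : ℂ) * ζ * conj (E x) ^ 2 + (Z : ℂ) * conj ζ) * k x ∂μ := by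
    rw [← integral_const_mul, ← integral_sub (bm.mul hh).int ((Bm.const I).mul (bm.mul hk)).int]
    congr 1
    funext x
    rw [map_add, map_mul, conj_I, rc _ (rh x), rc _ (rk x)]
    ring
  have i1 : (∫ x, δ x * h x ∂μ).im = 0 := by
    have : conj (∫ x, δ x * h x ∂μ) = ∫ x, δ x * h x ∂μ := by
      rw [← cj]; congr 1; funext x; rw [map_mul, rc _ (rδ x), rc _ (rh x)]
    exact Complex.conj_eq_iff_im.1 this
  have i2 : (∫ x, δ x * k x ∂μ).im = 0 := by
    have : conj (∫ x, δ x * k x ∂μ) = ∫ x, δ x * k x ∂μ := by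
      rw [← cj]; congr 1; funext x; rw [map_mul, rc _ (rδ x), rc _ (rk x)]
    exact Complex.conj_eq_iff_im.1 this
  rw [s1, s2, M h hh rh, M k hk rk]
  generalize ∫ x, δ x * h x * E x ^ 2 ∂μ = P at *
  generalize ∫ x, δ x * k x * E x ^ 2 ∂μ = R at *
  generalize ∫ x, δ x * h x ∂μ = p at *
  generalize ∫ x, δ x * k x ∂μ = r at *
  simp only [mul_re, mul_im, add_re, add_im, sub_re, sub_im, conj_re, conj_im, re_ofNat, im_ofNat,
    ofReal_re, ofReal_im, I_re, I_im, div_ofNat_re, div_ofNat_im, map_mul, map_ofNat, i1, i2]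
  ring

/-- from the equation `v - σ conj v = 2 mean (g E)` in two directions to `A`, `B` -/
theorem ab {E h k : X → ℂ} (hE : Bm E) (hh : Bm h) (hk : Bm k) (rh : ∀ x, (h x).im = 0)
    (rk : ∀ x, (k x).im = 0) {σ vp vq : ℂ} (hp : vp - σ * conj vp = 2 * ∫ x, h x * E x ∂μ)
    (hq : vq - σ * conj vq = 2 * ∫ x, k x * E x ∂μ) :
    (vp - I * vq) / 2 - σ * conj ((vp + I * vq) / 2) = ∫ x, E x * conj (h x + I * k x) ∂μ ∧
      (vp + I * vq) / 2 - σ * conj ((vp - I * vq) / 2) = ∫ x, E x * (h x + I * k x) ∂μ := by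
  have rc : ∀ z : ℂ, z.im = 0 → conj z = z := fun z hz => Complex.conj_eq_iff_im.2 hz
  have s1 : ∫ x, E x * conj (h x + I * k x) ∂μ = (∫ x, h x * E x ∂μ) - I * ∫ x, k x * E x ∂μ := by
    rw [← integral_const_mul, ← integral_sub (hh.mul hE).int ((Bm.const I).mul (hk.mul hE)).int]
    congr 1
    funext x
    rw [map_add, map_mul, conj_I, rc _ (rh x), rc _ (rk x)]
    ring
  have s2 : ∫ x, E x * (h x + I * k x) ∂μ = (∫ x, h x * E x ∂μ) + I * ∫ x, k x * E x ∂μ := by
    rw [← integral_const_mul, ← integral_add (hh.mul hE).int ((Bm.const I).mul (hk.mul hE)).int]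
    congr 1
    funext x
    ring
  have c2 : conj (2 : ℂ) = 2 := map_ofNat _ 2
  rw [s1, s2, map_div₀, map_div₀, map_add, map_sub, map_mul, conj_I, c2]
  constructor
  · linear_combination (1 / 2 : ℂ) * hp - (I / 2) * hq
  · linear_combination (1 / 2 : ℂ) * hp + (I / 2) * hq

end Core

end Pool.Agent.FPX.OMB
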