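import Mathlib
import Pool.Agent.FPX.S54M
import Pool.Agent.FPX.C54A
import Pool.Agent.FPX.F54X

/-
S54B (helper29): means `ME n g = mean (g ε^n)` with respect to the angle `dα = c dt / w²`, the bridge to
the harmonics of C54A, vanishing of the first harmonic at a zero of the equations, and the derivatives of
`mean (δ² ε²)`, `mean (δ²)` along curves.
-/

open MeasureTheory Set Filter Topology
open scoped ComplexConjugate

noncomputable section

namespace Pool.Agent.FPX.S54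

open Real
open Pool.Agent.FPX.F54 (pr kk G1 G2 DD)
open Pool.Agent.FPX.UMP (Ef)
open Pool.Agent.FPX.UMQ (Crv)

/-! ### bridge to C54A -/

theorem cc_eq (x y : ℝ) : cc x y = C54.ce x y := rfl

theorem wv_eq (x y t : ℝ) : wv x y t = C54.wt x y t := rfl

theorem EE_eq (x y t : ℝ) : EE x y t = C54.EE x y t := rfl

theorem vt_eq (x y a b : ℝ) : vt x y a b = C54.vv x y a b := rfl

theorem KK_nat {x y : ℝ} (h : x ^ 2 + y ^ 2 < 1) (m : ℕ) (t : ℝ) :
    KK (m : ℤ) x y t = C54.KK m x y t := by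
  have hw := wv_pos h t
  have hw' : (wv x y t : ℂ) ≠ 0 := Complex.ofReal_ne_zero.2 hw.ne'
  unfold KK C54.KK
  rw [zpow_natCast, ← cc_eq, ← wv_eq, ← EE_eq, div_pow, pow_add]
  push_cast
  field_simp

/-! ### conjugation -/

theorem uu_conj {x y : ℝ} (h : x ^ 2 + y ^ 2 < 1) (t : ℝ) :
    conj (EE x y t / (wv x y t : ℂ)) = (EE x y t / (wv x y t : ℂ))⁻¹ := by
  have hw' : (wv x y t : ℂ) ≠ 0 := Complex.ofReal_ne_zero.2 (wv_pos h t).ne'
  have hE := EE_ne h t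
  rw [map_div₀, Complex.conj_ofReal, inv_div, div_eq_div_iff hw' hE]
  have := EE_conj h t
  linear_combination this

theorem KK_neg {x y : ℝ} (h : x ^ 2 + y ^ 2 < 1) (n : ℤ) (t : ℝ) :
    KK (-n) x y t = conj (KK n x y t) := by
  unfold KK
  rw [map_mul, Complex.conj_ofReal, map_zpow₀, uu_conj h, inv_zpow']

theorem conj_int {g : ℝ → ℂ} : conj (∫ t in (0 : ℝ)..(2 * π), g t) = ∫ t in (0 : ℝ)..(2 * π), conj (g t) := by
  simp only [intervalIntegral.integral_of_le (show (0 : ℝ) ≤ 2 * π by positivity)]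
  exact integral_conj.symm

/-! ### means -/

/-- `f - f^Y` -/
def de (x y : ℝ) (f : ℝ → ℝ) (t : ℝ) : ℝ := f t - arcsin (pr x y t)

/-- `mean (g ε^n)` -/
def ME (n : ℤ) (x y : ℝ) (g : ℝ → ℝ) : ℂ :=
  (1 / (2 * (π : ℂ))) * ∫ t in (0 : ℝ)..(2 * π), (g t : ℂ) * KK n x y t

theorem ME_neg {x y : ℝ} (h : x ^ 2 + y ^ 2 < 1) (n : ℤ) (g : ℝ → ℝ) :
    ME (-n) x y g = conj (ME n x y g) := by
  unfold ME
  rw [map_mul, conj_int]
  congr 1
  · rw [map_div₀, map_mul, Complex.conj_ofReal, map_one, Complex.conj_ofNat]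
  · refine intervalIntegral.integral_congr fun t _ => ?_
    rw [KK_neg h, map_mul, Complex.conj_ofReal]

theorem ME_const (n : ℤ) (x y a : ℝ) (g : ℝ → ℝ) :
    ME n x y (fun t => a * g t) = (a : ℂ) * ME n x y g := by
  unfold ME
  have e : ∀ t, ((a * g t : ℝ) : ℂ) * KK n x y t = (a : ℂ) * ((g t : ℂ) * KK n x y t) := fun t => by
    push_cast
    ring
  simp only [e]
  rw [intervalIntegral.integral_const_mul]
  ring

theorem MM_eq (n : ℤ) (Φ : ℝ → ℝ) (x y : ℝ) (f : ℝ → ℝ) :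
    MM n Φ x y f = 2 * ME n x y (fun t => Φ (de x y f t)) := by
  have hπ : (π : ℂ) ≠ 0 := Complex.ofReal_ne_zero.2 pi_ne_zero
  unfold MM ME de
  field_simp

theorem Cm_eq {x y : ℝ} (h : x ^ 2 + y ^ 2 < 1) (m : ℕ) (f : ℝ → ℝ) :
    C54.Cm m x y f = 2 * ME (m : ℤ) x y (de x y f) := by
  have hπ : (π : ℂ) ≠ 0 := Complex.ofReal_ne_zero.2 pi_ne_zero
  unfold C54.Cm ME de
  simp only [KK_nat h]
  push_cast
  field_simp

theorem Lm_eq {x y : ℝ} (h : x ^ 2 + y ^ 2 < 1) (m : ℕ) (g : ℝ → ℝ) :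
    C54.Lm m x y g = 2 * ME (m : ℤ) x y g := by
  have hπ : (π : ℂ) ≠ 0 := Complex.ofReal_ne_zero.2 pi_ne_zero
  unfold C54.Lm ME
  simp only [KK_nat h]
  push_cast
  field_simp

/-! ### the first harmonic vanishes at a zero -/

theorem KK_one {x y : ℝ} (h : x ^ 2 + y ^ 2 < 1) (f : ℝ → ℝ) (t : ℝ) :
    (de x y f t : ℂ) * KK 1 x y t = (cc x y : ℂ) * (((cos t * kk (pr x y t) (f t) : ℝ) : ℂ)
      + ((sin t * kk (pr x y t) (f t) : ℝ) : ℂ) * Complex.I)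
      - (cc x y : ℂ) / (1 + (cc x y : ℂ)) * YY x y
        * ((x : ℂ) * ((cos t * kk (pr x y t) (f t) : ℝ) : ℂ)
          + (y : ℂ) * ((sin t * kk (pr x y t) (f t) : ℝ) : ℂ)) := by
  have hw := wv_pos h t
  have hw' : (wv x y t : ℂ) ≠ 0 := Complex.ofReal_ne_zero.2 hw.ne'
  have hc0 := cc_pos h
  have hc1 : (1 : ℂ) + (cc x y : ℂ) ≠ 0 := by
    have : (1 : ℝ) + cc x y ≠ 0 := by positivity
    exact_mod_cast this
  have e1 : kk (pr x y t) (f t) = de x y f t / wv x y t ^ 3 := rfl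
  have e2 : EE x y t = ((cos t : ℝ) : ℂ) + ((sin t : ℝ) : ℂ) * Complex.I
      - ((pr x y t : ℝ) : ℂ) / (1 + (cc x y : ℂ)) * YY x y := by
    apply Complex.ext
    · have : ((pr x y t : ℝ) : ℂ) / (1 + (cc x y : ℂ)) = ((pr x y t / (1 + cc x y) : ℝ) : ℂ) := by
        push_cast
        rfl
      rw [this]
      simp only [EE, YY, Complex.sub_re, Complex.add_re, Complex.mul_re, Complex.ofReal_re,
        Complex.ofReal_im, Complex.I_re, Complex.I_im]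
      ring
    · have : ((pr x y t : ℝ) : ℂ) / (1 + (cc x y : ℂ)) = ((pr x y t / (1 + cc x y) : ℝ) : ℂ) := by
        push_cast
        rfl
      rw [this]
      simp only [EE, YY, Complex.sub_im, Complex.add_im, Complex.mul_im, Complex.ofReal_re,
        Complex.ofReal_im, Complex.I_re, Complex.I_im]
      ring
  have e3 : ((pr x y t : ℝ) : ℂ) = (x : ℂ) * ((cos t : ℝ) : ℂ) + (y : ℂ) * ((sin t : ℝ) : ℂ) := by
    unfold pr
    push_cast
    ring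
  unfold KK
  rw [zpow_one, e1, e2, e3]
  push_cast
  field_simp

theorem lin2 {g1 g2 : ℝ → ℂ} (h1 : Continuous g1) (h2 : Continuous g2) (a1 a2 : ℂ) :
    ∫ t in (0 : ℝ)..(2 * π), (a1 * g1 t + a2 * g2 t)
      = a1 * (∫ t in (0 : ℝ)..(2 * π), g1 t) + a2 * (∫ t in (0 : ℝ)..(2 * π), g2 t) := by
  have i1 : ∀ {g : ℝ → ℂ} (a : ℂ), Continuous g →
      IntervalIntegrable (fun t => a * g t) volume 0 (2 * π) :=
    fun a hg => (continuous_const.mul hg).intervalIntegrable _ _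
  rw [intervalIntegral.integral_add (i1 a1 h1) (i1 a2 h2)]
  simp only [intervalIntegral.integral_const_mul]

theorem ME_one {x y : ℝ} (h : x ^ 2 + y ^ 2 < 1) {f : ℝ → ℝ} (hf : Ef f) (h1 : G1 x y f = 0)
    (h2 : G2 x y f = 0) : ME 1 x y (de x y f) = 0 := by
  have hk := F54.cont_kk h hf
  have c1 : Continuous fun t => ((cos t * kk (pr x y t) (f t) : ℝ) : ℂ) :=
    Complex.continuous_ofReal.comp (continuous_cos.mul hk)
  have c2 : Continuous fun t => ((sin t * kk (pr x y t) (f t) : ℝ) : ℂ) :=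
    Complex.continuous_ofReal.comp (continuous_sin.mul hk)
  have i1 : ∫ t in (0 : ℝ)..(2 * π), ((cos t * kk (pr x y t) (f t) : ℝ) : ℂ) = 0 := by
    rw [intervalIntegral.integral_ofReal]
    have : ∫ t in (0 : ℝ)..(2 * π), cos t * kk (pr x y t) (f t) = 0 := h1
    rw [this, Complex.ofReal_zero]
  have i2 : ∫ t in (0 : ℝ)..(2 * π), ((sin t * kk (pr x y t) (f t) : ℝ) : ℂ) = 0 := by
    rw [intervalIntegral.integral_ofReal]
    have : ∫ t in (0 : ℝ)..(2 * π), sin t * kk (pr x y t) (f t) = 0 := h2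
    rw [this, Complex.ofReal_zero]
  unfold ME
  have key : ∫ t in (0 : ℝ)..(2 * π), (de x y f t : ℂ) * KK 1 x y t = 0 := by
    have e : ∀ t, (de x y f t : ℂ) * KK 1 x y t
        = ((cc x y : ℂ) - (cc x y : ℂ) / (1 + (cc x y : ℂ)) * YY x y * (x : ℂ))
            * ((cos t * kk (pr x y t) (f t) : ℝ) : ℂ)
          + ((cc x y : ℂ) * Complex.I - (cc x y : ℂ) / (1 + (cc x y : ℂ)) * YY x y * (y : ℂ))
            * ((sin t * kk (pr x y t) (f t) : ℝ) : ℂ) := fun t => by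
      rw [KK_one h]
      ring
    simp only [e]
    rw [lin2 c1 c2, i1, i2]
    ring
  rw [key, mul_zero]

/-! ### derivatives -/

/-- `mean (δ² ε^n)` -/
def Sn (n : ℤ) (x y : ℝ) (f : ℝ → ℝ) : ℂ := ME n x y fun t => de x y f t ^ 2

theorem Sn_neg {x y : ℝ} (h : x ^ 2 + y ^ 2 < 1) (n : ℤ) (f : ℝ → ℝ) :
    Sn (-n) x y f = conj (Sn n x y f) := ME_neg h n _

theorem ME_zero_im {x y : ℝ} (h : x ^ 2 + y ^ 2 < 1) (g : ℝ → ℝ) : (ME 0 x y g).im = 0 := by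
  have h1 := ME_neg h 0 g
  rw [neg_zero] at h1
  have h2 := congrArg Complex.im h1
  rw [Complex.conj_im] at h2
  linarith

variable {φ : ℝ → ℝ → ℝ} {h : ℝ → ℝ} {s : ℝ} {X Y : ℝ → ℝ} {X' Y' : ℝ}

/-- the derivative of `mean (δ² ε^n)` -/
theorem der_Sn (n : ℤ) (hc : Crv φ h s) (hX : HasDerivAt X X' s) (hY : HasDerivAt Y Y' s)
    (hXY : X s ^ 2 + Y s ^ 2 < 1) :
    HasDerivAt (fun s => Sn n (X s) (Y s) (φ s))
      (2 * ME n (X s) (Y s) (fun t => de (X s) (Y s) (φ s) t * h t)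
        - (vt (X s) (Y s) X' Y' * ME (n - 1) (X s) (Y s) (de (X s) (Y s) (φ s))
          + conj (vt (X s) (Y s) X' Y') * ME (n + 1) (X s) (Y s) (de (X s) (Y s) (φ s)))
        + ((n : ℂ) + 2) / (4 * (cc (X s) (Y s) : ℂ))
          * (conj (YY (X s) (Y s)) * conj (vt (X s) (Y s) X' Y')) * Sn (n + 2) (X s) (Y s) (φ s)
        - ((n : ℂ) - 2) / (4 * (cc (X s) (Y s) : ℂ))
          * (YY (X s) (Y s) * vt (X s) (Y s) X' Y') * Sn (n - 2) (X s) (Y s) (φ s)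
        + (n : ℂ) * (Complex.I * ((X s * Y' - Y s * X' : ℝ) : ℂ))
          * (1 / (1 + (cc (X s) (Y s) : ℂ)) - 1 / (2 * (cc (X s) (Y s) : ℂ)))
          * Sn n (X s) (Y s) (φ s)) s := by
  have h2 : ∀ u : ℝ, HasDerivAt (fun u : ℝ => u ^ 2) ((fun u : ℝ => 2 * u) u) u := fun u => by
    simpa using hasDerivAt_pow 2 u
  have key := (der_MM n h2 (by fun_prop) hc hX hY hXY).const_mul (1 / 2 : ℂ)
  have e : (fun s => (1 / 2 : ℂ) * MM n (fun u : ℝ => u ^ 2) (X s) (Y s) (φ s))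
      = fun s => Sn n (X s) (Y s) (φ s) := by
    funext s
    rw [MM_eq]
    unfold Sn
    ring
  rw [e] at key
  refine key.congr_deriv ?_
  have hπ : (π : ℂ) ≠ 0 := Complex.ofReal_ne_zero.2 pi_ne_zero
  have e1 : ∀ k, MM k (fun u : ℝ => 2 * u) (X s) (Y s) (φ s)
      = 4 * ME k (X s) (Y s) (de (X s) (Y s) (φ s)) := fun k => by
    rw [MM_eq, ME_const]
    push_cast
    ring
  have e2 : ∀ k, MM k (fun u : ℝ => u ^ 2) (X s) (Y s) (φ s) = 2 * Sn k (X s) (Y s) (φ s) := fun k => by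
    rw [MM_eq]
    rfl
  have e3 : (1 / (π : ℂ)) * (∫ t in (0 : ℝ)..(2 * π),
      (((fun u : ℝ => 2 * u) (φ s t - arcsin (pr (X s) (Y s) t)) * h t : ℝ) : ℂ) * KK n (X s) (Y s) t)
      = 4 * ME n (X s) (Y s) (fun t => de (X s) (Y s) (φ s) t * h t) := by
    have e4 : ∀ t, (((fun u : ℝ => 2 * u) (φ s t - arcsin (pr (X s) (Y s) t)) * h t : ℝ) : ℂ)
        * KK n (X s) (Y s) t
        = 2 * (((de (X s) (Y s) (φ s) t * h t : ℝ) : ℂ) * KK n (X s) (Y s) t) := fun t => by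
      unfold de
      push_cast
      ring
    simp only [e4]
    rw [intervalIntegral.integral_const_mul]
    unfold ME
    field_simp
    ring
  unfold dMM
  rw [e3, e1, e1, e2, e2, e2]
  ring

/-- the derivative of `S₂ = mean (δ² ε²)` when the first harmonic vanishes -/
theorem der_S2 (hc : Crv φ h s) (hX : HasDerivAt X X' s) (hY : HasDerivAt Y Y' s)
    (hXY : X s ^ 2 + Y s ^ 2 < 1) (h1 : ME 1 (X s) (Y s) (de (X s) (Y s) (φ s)) = 0) :
    HasDerivAt (fun s => Sn 2 (X s) (Y s) (φ s))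
      (2 * ME 2 (X s) (Y s) (fun t => de (X s) (Y s) (φ s) t * h t)
        + conj (vt (X s) (Y s) X' Y') * (-ME 3 (X s) (Y s) (de (X s) (Y s) (φ s))
          + conj (YY (X s) (Y s)) * Sn 4 (X s) (Y s) (φ s) / (cc (X s) (Y s) : ℂ))
        + 2 * Complex.I * (((conj (YY (X s) (Y s)) * vt (X s) (Y s) X' Y').im
          * (1 / (1 + cc (X s) (Y s)) - 1 / (2 * cc (X s) (Y s))) : ℝ) : ℂ)
          * Sn 2 (X s) (Y s) (φ s)) s := by
  have hc0 := cc_pos hXY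
  have hc' : (cc (X s) (Y s) : ℂ) ≠ 0 := Complex.ofReal_ne_zero.2 hc0.ne'
  refine (der_Sn 2 hc hX hY hXY).congr_deriv ?_
  have e1 : (2 : ℤ) - 1 = 1 := rfl
  have e2 : (2 : ℤ) + 1 = 3 := rfl
  have e3 : (2 : ℤ) + 2 = 4 := rfl
  have e4 : (2 : ℤ) - 2 = 0 := rfl
  have e5 : (conj (YY (X s) (Y s)) * vt (X s) (Y s) X' Y').im = X s * Y' - Y s * X' := by
    simp only [YY, vt, Complex.mul_im, Complex.conj_re, Complex.conj_im]
    ring
  rw [e1, e2, e3, e4, h1, e5]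
  push_cast
  field_simp
  ring

/-- the derivative of `S₀ = mean (δ²)` when the first harmonic vanishes -/
theorem der_S0 (hc : Crv φ h s) (hX : HasDerivAt X X' s) (hY : HasDerivAt Y Y' s)
    (hXY : X s ^ 2 + Y s ^ 2 < 1) (h1 : ME 1 (X s) (Y s) (de (X s) (Y s) (φ s)) = 0) :
    HasDerivAt (fun s => (Sn 0 (X s) (Y s) (φ s)).re)
      (2 * (ME 0 (X s) (Y s) (fun t => de (X s) (Y s) (φ s) t * h t)).re
        + (1 / cc (X s) (Y s)) * (conj (YY (X s) (Y s) * vt (X s) (Y s) X' Y')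
          * Sn 2 (X s) (Y s) (φ s)).re) s := by
  have hc0 := cc_pos hXY
  have hc' : (cc (X s) (Y s) : ℂ) ≠ 0 := Complex.ofReal_ne_zero.2 hc0.ne'
  have d := Complex.reCLM.hasFDerivAt.comp_hasDerivAt s (der_Sn 0 hc hX hY hXY)
  refine d.congr_deriv ?_
  have e1 : (0 : ℤ) - 1 = -1 := rfl
  have e2 : (0 : ℤ) + 1 = 1 := rfl
  have e3 : (0 : ℤ) + 2 = 2 := rfl
  have e4 : (0 : ℤ) - 2 = -2 := rfl
  rw [e1, e2, e3, e4, h1, ME_neg hXY 1, h1, Sn_neg hXY 2]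
  simp only [Complex.reCLM_apply, map_zero, mul_zero, add_zero, sub_zero, Int.cast_zero, zero_mul,
    zero_add, zero_sub]
  have e5 : (2 * ME 0 (X s) (Y s) (fun t => de (X s) (Y s) (φ s) t * h t)
      + 2 / (4 * (cc (X s) (Y s) : ℂ))
          * (conj (YY (X s) (Y s)) * conj (vt (X s) (Y s) X' Y')) * Sn 2 (X s) (Y s) (φ s)
      - (-2) / (4 * (cc (X s) (Y s) : ℂ))
          * (YY (X s) (Y s) * vt (X s) (Y s) X' Y') * conj (Sn 2 (X s) (Y s) (φ s)))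
      = ((2 : ℝ) : ℂ) * ME 0 (X s) (Y s) (fun t => de (X s) (Y s) (φ s) t * h t)
        + ((1 / (2 * cc (X s) (Y s)) : ℝ) : ℂ) * (conj (YY (X s) (Y s) * vt (X s) (Y s) X' Y')
          * Sn 2 (X s) (Y s) (φ s))
        + ((1 / (2 * cc (X s) (Y s)) : ℝ) : ℂ) * conj (conj (YY (X s) (Y s) * vt (X s) (Y s) X' Y')
          * Sn 2 (X s) (Y s) (φ s)) := by
    rw [map_mul, map_mul, map_mul, Complex.conj_conj, Complex.conj_conj]
    push_cast
    field_simp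
    ring
  rw [e5, Complex.add_re, Complex.add_re, Complex.re_ofReal_mul, Complex.re_ofReal_mul,
    Complex.re_ofReal_mul, Complex.conj_re]
  field_simp
  ring

/-! ### the map of F54 -/

open Pool.Agent.FPX.F54 (X1 X2 dX1 dX2 X_lt X_G1 X_G2 X_der)

/-- the velocity of the map in the smooth frame -/
def Fv (f h : ℝ → ℝ) : ℂ := vt (X1 f) (X2 f) (dX1 f h) (dX2 f h)

/-- `S₂ = mean (δ² ε²)` of a state -/
def S2 (f : ℝ → ℝ) : ℂ := Sn 2 (X1 f) (X2 f) f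

/-- `S₀ = mean (δ²)` of a state -/
def S0 (f : ℝ → ℝ) : ℝ := (Sn 0 (X1 f) (X2 f) f).re

/-- `- mean (δ ε³) + conj ζ mean (δ² ε⁴) / c` -/
def mS (f : ℝ → ℝ) : ℂ :=
  -ME 3 (X1 f) (X2 f) (de (X1 f) (X2 f) f)
    + conj (YY (X1 f) (X2 f)) * Sn 4 (X1 f) (X2 f) f / (cc (X1 f) (X2 f) : ℂ)

/-- the derivative of `S₂` in the direction `h` -/
def dS2 (f h : ℝ → ℝ) : ℂ :=
  2 * ME 2 (X1 f) (X2 f) (fun t => de (X1 f) (X2 f) f t * h t) + conj (Fv f h) * mS f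
    + 2 * Complex.I * (((conj (YY (X1 f) (X2 f)) * Fv f h).im
      * (1 / (1 + cc (X1 f) (X2 f)) - 1 / (2 * cc (X1 f) (X2 f))) : ℝ) : ℂ) * S2 f

/-- the derivative of `S₀` in the direction `h` -/
def dS0 (f h : ℝ → ℝ) : ℝ :=
  2 * (ME 0 (X1 f) (X2 f) (fun t => de (X1 f) (X2 f) f t * h t)).re
    + (1 / cc (X1 f) (X2 f)) * (conj (YY (X1 f) (X2 f) * Fv f h) * S2 f).re

theorem ME_one_F {f : ℝ → ℝ} (hf : Ef f) : ME 1 (X1 f) (X2 f) (de (X1 f) (X2 f) f) = 0 :=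
  ME_one (X_lt hf) hf (X_G1 hf) (X_G2 hf)

theorem S2_der (hc : Crv φ h s) (he : ∀ᶠ s in 𝓝 s, Ef (φ s)) :
    HasDerivAt (fun s => S2 (φ s)) (dS2 (φ s) h) s := by
  obtain ⟨hX, hY⟩ := X_der hc he
  exact der_S2 hc hX hY (X_lt hc.ef) (ME_one_F hc.ef)

theorem S0_der (hc : Crv φ h s) (he : ∀ᶠ s in 𝓝 s, Ef (φ s)) :
    HasDerivAt (fun s => S0 (φ s)) (dS0 (φ s) h) s := by
  obtain ⟨hX, hY⟩ := X_der hc he
  exact der_S0 hc hX hY (X_lt hc.ef) (ME_one_F hc.ef)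

end Pool.Agent.FPX.S54
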