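import Mathlib
import Pool.Agent.FPX.C54A
import Pool.Agent.FPX.F54Z

/-
C54Z (helper6): sizes of the moments `C_m` and of the right side of their derivative formula.
At a zero of the F54 equation `|C_m| ≤ 22 c`, `c = √(1 - |Y|²)`, `|L_m(h)| ≤ 2 D` for `|h| ≤ D`,
hence the derivative of `C_m` is bounded by `2 D + 44 m |v|`, uniformly up to the boundary circle.
-/

open MeasureTheory Set Filter Topology intervalIntegral
open scoped ComplexConjugate

noncomputable section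

namespace Pool.Agent.FPX.C54Z

open Real Pool.Agent.FPX.F54 Pool.Agent.FPX.C54

theorem norm_EE {x y : ℝ} (h : x ^ 2 + y ^ 2 < 1) (t : ℝ) : ‖EE x y t‖ = wt x y t := by
  have h1 := normSq_EE h t
  have h2 : (‖EE x y t‖ : ℂ) ^ 2 = (wt x y t : ℂ) ^ 2 := by
    rw [← Complex.mul_conj', h1, Complex.ofReal_pow]
  have h3 : ‖EE x y t‖ ^ 2 = wt x y t ^ 2 := by exact_mod_cast h2
  exact (sq_eq_sq₀ (norm_nonneg _) (wt_pos h t).le).1 h3

theorem norm_KK {x y : ℝ} (h : x ^ 2 + y ^ 2 < 1) (m : ℕ) (t : ℝ) :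
    ‖KK m x y t‖ = √(1 - x ^ 2 - y ^ 2) / (1 - pr x y t ^ 2) := by
  have hw := wt_pos h t
  have hc := ce_pos h
  unfold KK
  rw [norm_div, norm_mul, norm_pow, norm_EE h, norm_pow, Complex.norm_real, Complex.norm_real,
    Real.norm_eq_abs, Real.norm_eq_abs, abs_of_pos hw, abs_of_pos hc, ← wt_sq h t, pow_add]
  unfold ce
  field_simp

theorem cont_EE {x y : ℝ} : Continuous fun t => EE x y t := by
  have h1 : Continuous fun t => cos t - pr x y t * x / (1 + ce x y) := by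
    unfold pr
    fun_prop
  have h2 : Continuous fun t => sin t - pr x y t * y / (1 + ce x y) := by
    unfold pr
    fun_prop
  have h3 : (fun t => EE x y t) = fun t => ((cos t - pr x y t * x / (1 + ce x y) : ℝ) : ℂ)
      + ((sin t - pr x y t * y / (1 + ce x y) : ℝ) : ℂ) * Complex.I := by
    funext t
    rw [← Complex.mk_eq_add_mul_I]
    rfl
  rw [h3]
  exact (Complex.continuous_ofReal.comp h1).add
    ((Complex.continuous_ofReal.comp h2).mul continuous_const)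

theorem cont_KK {x y : ℝ} (h : x ^ 2 + y ^ 2 < 1) (m : ℕ) : Continuous fun t => KK m x y t := by
  unfold KK
  have hp : Continuous fun t => pr x y t := by
    unfold pr
    fun_prop
  have hw : Continuous fun t => wt x y t := by
    unfold wt
    exact (continuous_const.sub (hp.pow 2)).sqrt
  refine ((continuous_const.mul (cont_EE.pow m))).div ((Complex.continuous_ofReal.comp hw).pow _) ?_
  intro t
  have := (wt_pos h t).ne'
  simp [this]

/-- a bounded real function against a complex kernel dominated by `dα` -/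
theorem int_bound_c {x y : ℝ} (h : x ^ 2 + y ^ 2 < 1) {g : ℝ → ℝ} {K : ℝ → ℂ} {M : ℝ}
    (hg : ∀ t, |g t| ≤ M) (hK : ∀ t, ‖K t‖ ≤ √(1 - x ^ 2 - y ^ 2) / (1 - pr x y t ^ 2)) :
    ‖∫ t in (0 : ℝ)..(2 * π), (g t : ℂ) * K t‖ ≤ 2 * π * M := by
  have hM : 0 ≤ M := (abs_nonneg _).trans (hg 0)
  have hcp : Continuous fun t => pr x y t := by
    unfold pr
    fun_prop
  have hc : Continuous fun t => √(1 - x ^ 2 - y ^ 2) / (1 - pr x y t ^ 2) :=
    continuous_const.div (continuous_const.sub (hcp.pow 2)) fun t => (pr_lt h t).ne'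
  have a := norm_integral_le_of_norm_le (a := (0 : ℝ)) (b := 2 * π) (μ := volume)
    (f := fun t => (g t : ℂ) * K t) (g := fun t => M * (√(1 - x ^ 2 - y ^ 2) / (1 - pr x y t ^ 2)))
    (by linarith [pi_pos]) (Filter.Eventually.of_forall fun t _ => by
      rw [norm_mul, Complex.norm_real, Real.norm_eq_abs]
      exact mul_le_mul (hg t) (hK t) (norm_nonneg _) hM)
    ((continuous_const.mul hc).intervalIntegrable _ _)
  rw [intervalIntegral.integral_const_mul, F54Z.int_alpha h] at a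
  linarith

/-- moments of `Φ(δ)` against a complex kernel -/
theorem mom_bound_c {x y : ℝ} (h : x ^ 2 + y ^ 2 < 1) {f : ℝ → ℝ} (hf : UMP.Ef f)
    (hG1 : G1 x y f = 0) (hG2 : G2 x y f = 0) {Φ : ℝ → ℝ} {K : ℝ → ℂ} {M : ℝ}
    (hΦ : ∀ a, |a| ≤ 11 * √(1 - x ^ 2 - y ^ 2) → |Φ a| ≤ M)
    (hK : ∀ t, ‖K t‖ ≤ √(1 - x ^ 2 - y ^ 2) / (1 - pr x y t ^ 2)) :
    ‖∫ t in (0 : ℝ)..(2 * π), (Φ (f t - arcsin (pr x y t)) : ℂ) * K t‖ ≤ 2 * π * M :=
  int_bound_c h (g := fun t => Φ (f t - arcsin (pr x y t)))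
    (fun t => hΦ _ (F54Z.delta_le h hf hG1 hG2 t)) hK

theorem div_pi {z : ℂ} {M : ℝ} (hz : ‖z‖ ≤ 2 * π * M) : ‖((1 / π : ℝ) : ℂ) * z‖ ≤ 2 * M := by
  rw [norm_mul, Complex.norm_real, Real.norm_eq_abs, abs_of_pos (by positivity)]
  have : 1 / π * ‖z‖ ≤ 1 / π * (2 * π * M) := mul_le_mul_of_nonneg_left hz (by positivity)
  refine this.trans (le_of_eq ?_)
  field_simp

/-- **size of the moments** -/
theorem Cm_le {x y : ℝ} (h : x ^ 2 + y ^ 2 < 1) {f : ℝ → ℝ} (hf : UMP.Ef f)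
    (hG1 : G1 x y f = 0) (hG2 : G2 x y f = 0) (m : ℕ) : ‖Cm m x y f‖ ≤ 22 * ce x y := by
  have a := mom_bound_c h hf hG1 hG2 (Φ := fun a => a) (K := fun t => KK m x y t)
    (M := 11 * √(1 - x ^ 2 - y ^ 2)) (fun a ha => ha) fun t => (norm_KK h m t).le
  have b := div_pi a
  unfold Cm ce
  refine b.trans (le_of_eq ?_)
  ring

theorem Lm_le {x y : ℝ} (h : x ^ 2 + y ^ 2 < 1) {g : ℝ → ℝ} {D : ℝ} (hg : ∀ t, |g t| ≤ D) (m : ℕ) :
    ‖Lm m x y g‖ ≤ 2 * D := by
  have a := int_bound_c h hg (K := fun t => KK m x y t) fun t => (norm_KK h m t).le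
  exact div_pi a

theorem ce_le_one (x y : ℝ) : ce x y ≤ 1 := by
  unfold ce
  exact sqrt_le_one.2 (by nlinarith [sq_nonneg x, sq_nonneg y])

theorem norm_Y {x y : ℝ} (h : x ^ 2 + y ^ 2 < 1) : ‖(⟨x, y⟩ : ℂ)‖ ≤ 1 := by
  rw [Complex.norm_def, Complex.normSq_mk, sqrt_le_one]
  nlinarith

theorem im_Yv {x y : ℝ} (a b : ℝ) : (conj (⟨x, y⟩ : ℂ) * vv x y a b).im = x * b - y * a := by
  unfold vv
  simp [Complex.mul_im]
  ring

theorem abs_cross {x y : ℝ} (h : x ^ 2 + y ^ 2 < 1) (a b : ℝ) : |x * b - y * a| ≤ ‖vv x y a b‖ := by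
  rw [← im_Yv]
  refine (Complex.abs_im_le_norm _).trans ?_
  rw [norm_mul, Complex.norm_conj]
  have := mul_le_mul_of_nonneg_right (norm_Y h) (norm_nonneg (vv x y a b))
  linarith

/-- the right side of the derivative formula of `C_m`; `C₂, C₁, C₀` stand for `C_(m+2), C_m, C_(m-2)` -/
def DC (m : ℝ) (x y a b : ℝ) (l C₂ C₁ C₀ : ℂ) : ℂ :=
  l + (1 / (4 * ce x y)) * ((m + 2) * (conj (⟨x, y⟩ : ℂ) * conj (vv x y a b)) * C₂
      + m * ((⟨x, y⟩ : ℂ) * conj (vv x y a b) - conj (⟨x, y⟩ : ℂ) * vv x y a b) * C₁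
      - (m - 2) * ((⟨x, y⟩ : ℂ) * vv x y a b) * C₀)
    + Complex.I * (m * (x * b - y * a) / (1 + ce x y)) * C₁

theorem DC_le {m : ℝ} (hm : 2 ≤ m) {x y : ℝ} (h : x ^ 2 + y ^ 2 < 1) (a b : ℝ) {l C₂ C₁ C₀ : ℂ} {D B : ℝ}
    (hl : ‖l‖ ≤ 2 * D) (h2 : ‖C₂‖ ≤ B * ce x y) (h1 : ‖C₁‖ ≤ B * ce x y) (h0 : ‖C₀‖ ≤ B * ce x y) :
    ‖DC m x y a b l C₂ C₁ C₀‖ ≤ 2 * D + 2 * m * B * ‖vv x y a b‖ := by
  have hc := ce_pos h
  have hc1 := ce_le_one x y
  have hY := norm_Y h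
  have hY0 := norm_nonneg (⟨x, y⟩ : ℂ)
  set Y : ℂ := ⟨x, y⟩ with hYd
  set v := vv x y a b with hv
  have hv0 := norm_nonneg v
  have hB0 : 0 ≤ B * ce x y := (norm_nonneg _).trans h1
  have hB : 0 ≤ B := nonneg_of_mul_nonneg_left hB0 hc
  have hYv : ‖Y‖ * ‖v‖ ≤ ‖v‖ := by
    have := mul_le_mul_of_nonneg_right hY hv0
    linarith
  have e2 : ‖((m : ℂ) + 2) * (conj Y * conj v) * C₂‖ ≤ (m + 2) * ‖v‖ * (B * ce x y) := by
    rw [norm_mul, norm_mul, norm_mul, Complex.norm_conj, Complex.norm_conj]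
    have : ‖(m : ℂ) + 2‖ = m + 2 := by
      have : (m : ℂ) + 2 = ((m + 2 : ℝ) : ℂ) := by push_cast; ring
      rw [this, Complex.norm_real, Real.norm_eq_abs, abs_of_nonneg (by linarith)]
    rw [this]
    exact mul_le_mul (mul_le_mul_of_nonneg_left hYv (by linarith)) h2 (norm_nonneg _)
      (mul_nonneg (by linarith) hv0)
  have e1 : ‖(m : ℂ) * (Y * conj v - conj Y * v) * C₁‖ ≤ 2 * m * ‖v‖ * (B * ce x y) := by
    rw [norm_mul, norm_mul, Complex.norm_real, Real.norm_eq_abs, abs_of_nonneg (by linarith : 0 ≤ m)]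
    have : ‖Y * conj v - conj Y * v‖ ≤ 2 * ‖v‖ := by
      refine (norm_sub_le _ _).trans ?_
      rw [norm_mul, norm_mul, Complex.norm_conj, Complex.norm_conj]
      linarith
    have h3 : m * ‖Y * conj v - conj Y * v‖ ≤ 2 * m * ‖v‖ := by
      have := mul_le_mul_of_nonneg_left this (by linarith : 0 ≤ m)
      linarith
    exact mul_le_mul h3 h1 (norm_nonneg _) (by positivity)
  have e0 : ‖((m : ℂ) - 2) * (Y * v) * C₀‖ ≤ (m - 2) * ‖v‖ * (B * ce x y) := by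
    rw [norm_mul, norm_mul, norm_mul]
    have : ‖(m : ℂ) - 2‖ = m - 2 := by
      have : (m : ℂ) - 2 = ((m - 2 : ℝ) : ℂ) := by push_cast; ring
      rw [this, Complex.norm_real, Real.norm_eq_abs, abs_of_nonneg (by linarith)]
    rw [this]
    exact mul_le_mul (mul_le_mul_of_nonneg_left hYv (by linarith)) h0 (norm_nonneg _)
      (mul_nonneg (by linarith) hv0)
  have e3 : ‖(1 / (4 * (ce x y : ℂ))) * (((m : ℂ) + 2) * (conj Y * conj v) * C₂
      + (m : ℂ) * (Y * conj v - conj Y * v) * C₁ - ((m : ℂ) - 2) * (Y * v) * C₀)‖ ≤ m * B * ‖v‖ := by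
    rw [norm_mul]
    have h4 : ‖(1 / (4 * (ce x y : ℂ)))‖ = 1 / (4 * ce x y) := by
      have : (1 / (4 * (ce x y : ℂ))) = ((1 / (4 * ce x y) : ℝ) : ℂ) := by push_cast; ring
      rw [this, Complex.norm_real, Real.norm_eq_abs, abs_of_pos (by positivity)]
    rw [h4]
    have h5 : ‖((m : ℂ) + 2) * (conj Y * conj v) * C₂
      + (m : ℂ) * (Y * conj v - conj Y * v) * C₁ - ((m : ℂ) - 2) * (Y * v) * C₀‖
        ≤ 4 * m * ‖v‖ * (B * ce x y) := by
      refine (norm_sub_le _ _).trans ?_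
      refine (add_le_add ((norm_add_le _ _).trans (add_le_add e2 e1)) e0).trans (le_of_eq ?_)
      ring
    refine (mul_le_mul_of_nonneg_left h5 (by positivity)).trans (le_of_eq ?_)
    field_simp
  have e4 : ‖Complex.I * (m * (x * b - y * a) / (1 + ce x y)) * C₁‖ ≤ m * B * ‖v‖ := by
    have h4 : (m * (x * b - y * a) / (1 + ce x y) : ℂ) = ((m * (x * b - y * a) / (1 + ce x y) : ℝ) : ℂ) := by
      push_cast
      ring
    rw [h4, norm_mul, norm_mul, Complex.norm_I, one_mul, Complex.norm_real, Real.norm_eq_abs, abs_div,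
      abs_mul, abs_of_nonneg (by linarith : 0 ≤ m), abs_of_pos (by linarith : 0 < 1 + ce x y)]
    have h5 := abs_cross h a b
    rw [← hv] at h5
    have h6 : m * |x * b - y * a| / (1 + ce x y) ≤ m * ‖v‖ := by
      rw [div_le_iff₀ (by linarith)]
      have := mul_le_mul_of_nonneg_left h5 (by linarith : 0 ≤ m)
      nlinarith [mul_nonneg (by linarith : 0 ≤ m) hv0]
    have h7 : ‖C₁‖ ≤ B := by
      refine h1.trans ?_
      nlinarith
    refine (mul_le_mul h6 h7 (norm_nonneg _) (mul_nonneg (by linarith) hv0)).trans (le_of_eq ?_)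
    ring
  unfold DC
  refine (norm_add_le _ _).trans ?_
  refine (add_le_add ((norm_add_le _ _).trans (add_le_add hl e3)) e4).trans (le_of_eq ?_)
  ring

end Pool.Agent.FPX.C54Z
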