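import Mathlib
import Pool.Agent.FPX.S54M
import Pool.Agent.FPX.F54I
import Pool.Agent.FPX.C54Z

/-
S54Z (helper6): sizes of the moments `M_n[Φ]` and of their derivatives.
At a zero of the F54 equation, with `c = √(1 - |Y|²)`: `|M_n[Φ]| ≤ 2 sup |Φ|` over `|a| ≤ 11 c`; in
particular `|M_n[u^k]| ≤ 2 (11 c)^k`, and the derivative of `M_n[u^(k+1)]` is at most
`(11 c)^k (2 (k+1) D + 2 (k+1) |v| + 22 (|n|+1) |v|)`; along the F54 map `|v| ≤ 7 D`.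
-/

open MeasureTheory Set Filter Topology intervalIntegral

noncomputable section

namespace Pool.Agent.FPX.S54Z

open Real Pool.Agent.FPX Pool.Agent.FPX.UMP Pool.Agent.FPX.F54 Pool.Agent.FPX.S54

theorem norm_EE {x y : ℝ} (h : x ^ 2 + y ^ 2 < 1) (t : ℝ) : ‖EE x y t‖ = wv x y t :=
  C54Z.norm_EE h t

theorem norm_KK (n : ℤ) {x y : ℝ} (h : x ^ 2 + y ^ 2 < 1) (t : ℝ) :
    ‖KK n x y t‖ = √(1 - x ^ 2 - y ^ 2) / (1 - pr x y t ^ 2) := by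
  have hw := wv_pos h t
  have hc := cc_pos h
  have h1 : ‖EE x y t / (wv x y t : ℂ)‖ = 1 := by
    rw [norm_div, norm_EE h, Complex.norm_real, Real.norm_eq_abs, abs_of_pos hw, div_self hw.ne']
  unfold KK
  rw [norm_mul, norm_zpow, h1, one_zpow, mul_one, Complex.norm_real, Real.norm_eq_abs,
    abs_of_pos (by positivity), wv_sq h]
  rfl

theorem norm_vt {x y : ℝ} (h : x ^ 2 + y ^ 2 < 1) (a b : ℝ) :
    ‖vt x y a b‖ ^ 2 = a ^ 2 + b ^ 2 + (x * a + y * b) ^ 2 / (1 - x ^ 2 - y ^ 2) := by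
  have hc := cc_pos h
  have hs := cc_sq h
  rw [← hs, ← Complex.normSq_eq_norm_sq]
  unfold vt
  rw [Complex.normSq_mk]
  generalize cc x y = c at *
  field_simp
  linear_combination ((x * a + y * b) ^ 2) * hs

/-- **size of the moments** -/
theorem MM_le (n : ℤ) {x y : ℝ} (h : x ^ 2 + y ^ 2 < 1) {f : ℝ → ℝ} (hf : Ef f)
    (hG1 : G1 x y f = 0) (hG2 : G2 x y f = 0) {Φ : ℝ → ℝ} {M : ℝ}
    (hΦ : ∀ a, |a| ≤ 11 * cc x y → |Φ a| ≤ M) : ‖MM n Φ x y f‖ ≤ 2 * M := by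
  have a := C54Z.mom_bound_c h hf hG1 hG2 (Φ := Φ) (K := fun t => KK n x y t) (M := M) hΦ
    fun t => (norm_KK n h t).le
  have b := C54Z.div_pi a
  unfold MM
  have e : (1 / (π : ℂ)) = ((1 / π : ℝ) : ℂ) := by push_cast; rfl
  rw [e]
  exact b

/-- **size of the derivative of the moments** -/
theorem dMM_le (n : ℤ) {x y : ℝ} (h : x ^ 2 + y ^ 2 < 1) {f : ℝ → ℝ} (hf : Ef f)
    (hG1 : G1 x y f = 0) (hG2 : G2 x y f = 0) {Φ Φ' : ℝ → ℝ} {M M' : ℝ}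
    (hΦ : ∀ a, |a| ≤ 11 * cc x y → |Φ a| ≤ M * cc x y) (hΦ' : ∀ a, |a| ≤ 11 * cc x y → |Φ' a| ≤ M')
    (x' y' : ℝ) {k : ℝ → ℝ} {D : ℝ} (hk : ∀ t, |k t| ≤ D) :
    ‖dMM n Φ Φ' x y x' y' f k‖
      ≤ 2 * M' * D + 2 * M' * ‖vt x y x' y'‖ + 2 * (|(n : ℝ)| + 1) * M * ‖vt x y x' y'‖ := by
  have hc := cc_pos h
  have hc1 : cc x y ≤ 1 := C54Z.ce_le_one x y
  have hY : ‖YY x y‖ ≤ 1 := C54Z.norm_Y h
  have hY0 := norm_nonneg (YY x y)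
  have hD : 0 ≤ D := (abs_nonneg _).trans (hk 0)
  have hM' : 0 ≤ M' := (abs_nonneg _).trans (hΦ' 0 (by rw [abs_zero]; positivity))
  have hMc : 0 ≤ M * cc x y := (abs_nonneg _).trans (hΦ 0 (by rw [abs_zero]; positivity))
  have hM : 0 ≤ M := nonneg_of_mul_nonneg_left hMc hc
  have hX : |x * y' - y * x'| ≤ ‖vt x y x' y'‖ := C54Z.abs_cross h x' y'
  set v := vt x y x' y' with hv
  have hv0 := norm_nonneg v
  have hYv : ‖YY x y‖ * ‖v‖ ≤ ‖v‖ := by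
    have := mul_le_mul_of_nonneg_right hY hv0
    linarith
  have e : (1 / (π : ℂ)) = ((1 / π : ℝ) : ℂ) := by push_cast; rfl
  have t1 : ‖(1 / (π : ℂ)) * (∫ t in (0 : ℝ)..(2 * π),
      ((Φ' (f t - arcsin (pr x y t)) * k t : ℝ) : ℂ) * KK n x y t)‖ ≤ 2 * (M' * D) := by
    rw [e]
    refine C54Z.div_pi (C54Z.int_bound_c h (g := fun t => Φ' (f t - arcsin (pr x y t)) * k t)
      (K := fun t => KK n x y t) (fun t => ?_) fun t => (norm_KK n h t).le)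
    rw [abs_mul]
    exact mul_le_mul (hΦ' _ (F54Z.delta_le h hf hG1 hG2 t)) (hk t) (abs_nonneg _) hM'
  have m1 := MM_le (n - 1) h hf hG1 hG2 hΦ'
  have m2 := MM_le (n + 1) h hf hG1 hG2 hΦ'
  have m3 := MM_le (n + 2) h hf hG1 hG2 hΦ
  have m4 := MM_le (n - 2) h hf hG1 hG2 hΦ
  have m5 := MM_le n h hf hG1 hG2 hΦ
  have t2 : ‖(1 / 2 : ℂ) * (v * MM (n - 1) Φ' x y f
      + (starRingEnd ℂ) v * MM (n + 1) Φ' x y f)‖ ≤ 2 * M' * ‖v‖ := by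
    rw [norm_mul]
    have a1 : ‖(1 / 2 : ℂ)‖ = 1 / 2 := by norm_num
    have a2 : ‖v * MM (n - 1) Φ' x y f + (starRingEnd ℂ) v * MM (n + 1) Φ' x y f‖
        ≤ ‖v‖ * (2 * M') + ‖v‖ * (2 * M') := by
      refine (norm_add_le _ _).trans ?_
      rw [norm_mul, norm_mul, Complex.norm_conj]
      exact add_le_add (mul_le_mul_of_nonneg_left m1 hv0) (mul_le_mul_of_nonneg_left m2 hv0)
    rw [a1]
    linarith
  have q : ∀ (j : ℤ) (A : ℂ), ‖A‖ ≤ ‖v‖ → ∀ C : ℂ, ‖C‖ ≤ 2 * (M * cc x y) →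
      ‖(j : ℂ) / (4 * (cc x y : ℂ)) * A * C‖ ≤ |(j : ℝ)| / 2 * M * ‖v‖ := by
    intro j A hA C hC
    rw [norm_mul, norm_mul, norm_div, norm_mul, Complex.norm_real, Real.norm_eq_abs, abs_of_pos hc,
      Complex.norm_intCast]
    have e4 : ‖(4 : ℂ)‖ = 4 := by norm_num
    rw [e4]
    have b1 : |(j : ℝ)| / (4 * cc x y) * ‖A‖ ≤ |(j : ℝ)| / (4 * cc x y) * ‖v‖ :=
      mul_le_mul_of_nonneg_left hA (by positivity)
    have b2 := mul_le_mul b1 hC (norm_nonneg _) (by positivity)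
    refine b2.trans (le_of_eq ?_)
    field_simp
    ring
  have t3 : ‖((n : ℂ) + 2) / (4 * (cc x y : ℂ))
      * ((starRingEnd ℂ) (YY x y) * (starRingEnd ℂ) v) * MM (n + 2) Φ x y f‖
      ≤ |((n + 2 : ℤ) : ℝ)| / 2 * M * ‖v‖ := by
    have := q (n + 2) ((starRingEnd ℂ) (YY x y) * (starRingEnd ℂ) v)
      (by rw [norm_mul, Complex.norm_conj, Complex.norm_conj]; exact hYv) _ m3
    push_cast at this ⊢
    exact this
  have t4 : ‖((n : ℂ) - 2) / (4 * (cc x y : ℂ)) * (YY x y * v) * MM (n - 2) Φ x y f‖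
      ≤ |((n - 2 : ℤ) : ℝ)| / 2 * M * ‖v‖ := by
    have := q (n - 2) (YY x y * v) (by rw [norm_mul]; exact hYv) _ m4
    push_cast at this ⊢
    exact this
  have t5 : ‖(n : ℂ) * (Complex.I * ((x * y' - y * x' : ℝ) : ℂ))
      * (1 / (1 + (cc x y : ℂ)) - 1 / (2 * (cc x y : ℂ))) * MM n Φ x y f‖ ≤ |(n : ℝ)| * M * ‖v‖ := by
    have a1 : (1 / (1 + (cc x y : ℂ)) - 1 / (2 * (cc x y : ℂ)))
        = ((1 / (1 + cc x y) - 1 / (2 * cc x y) : ℝ) : ℂ) := by push_cast; rfl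
    have a2 : |1 / (1 + cc x y) - 1 / (2 * cc x y)| ≤ 1 / (2 * cc x y) := by
      have b1 : 0 < 1 / (1 + cc x y) := by positivity
      have b2 : 1 / (1 + cc x y) ≤ 1 / (2 * cc x y) :=
        one_div_le_one_div_of_le (by positivity) (by linarith)
      rw [abs_le]
      constructor <;> linarith
    rw [a1, norm_mul, norm_mul, norm_mul, norm_mul, Complex.norm_I, one_mul, Complex.norm_real,
      Complex.norm_real, Complex.norm_intCast, Real.norm_eq_abs, Real.norm_eq_abs]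
    have a3 : |(n : ℝ)| * |x * y' - y * x'| ≤ |(n : ℝ)| * ‖v‖ :=
      mul_le_mul_of_nonneg_left hX (abs_nonneg _)
    have a4 := mul_le_mul a3 a2 (abs_nonneg _) (by positivity)
    have a5 := mul_le_mul a4 m5 (norm_nonneg _) (by positivity)
    refine a5.trans (le_of_eq ?_)
    field_simp
  have n1 : |((n + 2 : ℤ) : ℝ)| ≤ |(n : ℝ)| + 2 := by
    push_cast
    exact (abs_add_le _ _).trans (by norm_num)
  have n2 : |((n - 2 : ℤ) : ℝ)| ≤ |(n : ℝ)| + 2 := by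
    push_cast
    exact (abs_sub _ _).trans (by norm_num)
  have s3 : |((n + 2 : ℤ) : ℝ)| / 2 * M * ‖v‖ ≤ (|(n : ℝ)| + 2) / 2 * M * ‖v‖ := by gcongr
  have s4 : |((n - 2 : ℤ) : ℝ)| / 2 * M * ‖v‖ ≤ (|(n : ℝ)| + 2) / 2 * M * ‖v‖ := by gcongr
  unfold dMM
  rw [← hv]
  refine (norm_add_le _ _).trans ?_
  refine (add_le_add ((norm_sub_le _ _).trans (add_le_add ((norm_add_le _ _).trans (add_le_add
    ((norm_sub_le _ _).trans (add_le_add t1 t2)) (t3.trans s3))) (t4.trans s4))) t5).trans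
    (le_of_eq ?_)
  ring

/-- powers -/
theorem MM_pow_le (n : ℤ) (j : ℕ) {x y : ℝ} (h : x ^ 2 + y ^ 2 < 1) {f : ℝ → ℝ} (hf : Ef f)
    (hG1 : G1 x y f = 0) (hG2 : G2 x y f = 0) : ‖MM n (fun u => u ^ j) x y f‖ ≤ 2 * (11 * cc x y) ^ j :=
  MM_le n h hf hG1 hG2 fun a ha => by
    rw [abs_pow]
    exact pow_le_pow_left₀ (abs_nonneg _) ha j

theorem dMM_pow_le (n : ℤ) (j : ℕ) {x y : ℝ} (h : x ^ 2 + y ^ 2 < 1) {f : ℝ → ℝ} (hf : Ef f)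
    (hG1 : G1 x y f = 0) (hG2 : G2 x y f = 0) {Φ Φ' : ℝ → ℝ} (hΦ : ∀ u, Φ u = u ^ (j + 1))
    (hΦ' : ∀ u, Φ' u = ((j : ℝ) + 1) * u ^ j) (x' y' : ℝ) {k : ℝ → ℝ} {D : ℝ} (hk : ∀ t, |k t| ≤ D) :
    ‖dMM n Φ Φ' x y x' y' f k‖
      ≤ (11 * cc x y) ^ j * (2 * ((j : ℝ) + 1) * (D + ‖vt x y x' y'‖)
        + 22 * (|(n : ℝ)| + 1) * ‖vt x y x' y'‖) := by
  have hc := cc_pos h
  have := dMM_le n h hf hG1 hG2 (Φ := Φ) (Φ' := Φ') (M := 11 * (11 * cc x y) ^ j)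
    (M' := ((j : ℝ) + 1) * (11 * cc x y) ^ j) (fun a ha => ?_) (fun a ha => ?_) x' y' hk
  · refine this.trans (le_of_eq ?_)
    ring
  · rw [hΦ, abs_pow]
    refine (pow_le_pow_left₀ (abs_nonneg _) ha (j + 1)).trans (le_of_eq ?_)
    ring
  · rw [hΦ', abs_mul, abs_pow, abs_of_nonneg (by positivity : (0 : ℝ) ≤ (j : ℝ) + 1)]
    exact mul_le_mul_of_nonneg_left (pow_le_pow_left₀ (abs_nonneg _) ha j) (by positivity)

/-! ### along the F54 map -/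

theorem vt_le {f k : ℝ → ℝ} {D : ℝ} (hf : Ef f) (hm : Measurable k) (hD : 0 ≤ D)
    (hk : ∀ t, |k t| ≤ D) : ‖vt (X1 f) (X2 f) (dX1 f k) (dX2 f k)‖ ≤ 7 * D := by
  have h1 := dX_sph hf hm hD hk
  have h2 := norm_vt (X_lt hf) (dX1 f k) (dX2 f k)
  rw [← h2] at h1
  exact (sq_le_sq₀ (norm_nonneg _) (by positivity)).1 h1

theorem MM_map_le (n : ℤ) (j : ℕ) {f : ℝ → ℝ} (hf : Ef f) :
    ‖MM n (fun u => u ^ j) (X1 f) (X2 f) f‖ ≤ 2 * (11 * cc (X1 f) (X2 f)) ^ j :=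
  MM_pow_le n j (X_lt hf) hf (X_G1 hf) (X_G2 hf)

/-- **the derivative of `M_n[u^(j+1)]` along the F54 map is bounded by `const * c^j * D`** -/
theorem dMM_map_le (n : ℤ) (j : ℕ) {Φ Φ' : ℝ → ℝ} (hΦ : ∀ u, Φ u = u ^ (j + 1))
    (hΦ' : ∀ u, Φ' u = ((j : ℝ) + 1) * u ^ j) {f k : ℝ → ℝ} {D : ℝ} (hf : Ef f) (hm : Measurable k)
    (hD : 0 ≤ D) (hk : ∀ t, |k t| ≤ D) :
    ‖dMM n Φ Φ' (X1 f) (X2 f) (dX1 f k) (dX2 f k) f k‖
      ≤ (11 * cc (X1 f) (X2 f)) ^ j * ((16 * ((j : ℝ) + 1) + 154 * (|(n : ℝ)| + 1)) * D) := by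
  have h1 := dMM_pow_le n j (X_lt hf) hf (X_G1 hf) (X_G2 hf) hΦ hΦ' (dX1 f k) (dX2 f k) hk
  have h2 := vt_le hf hm hD hk
  have hc := cc_pos (X_lt hf)
  refine h1.trans (mul_le_mul_of_nonneg_left ?_ (by positivity))
  have h3 : 2 * ((j : ℝ) + 1) * (D + ‖vt (X1 f) (X2 f) (dX1 f k) (dX2 f k)‖)
      ≤ 2 * ((j : ℝ) + 1) * (D + 7 * D) := mul_le_mul_of_nonneg_left (by linarith) (by positivity)
  have h4 : 22 * (|(n : ℝ)| + 1) * ‖vt (X1 f) (X2 f) (dX1 f k) (dX2 f k)‖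
      ≤ 22 * (|(n : ℝ)| + 1) * (7 * D) := mul_le_mul_of_nonneg_left h2 (by positivity)
  nlinarith

/-- the same with a constant that does not depend on the state -/
theorem dMM_map_le' (n : ℤ) (j : ℕ) {Φ Φ' : ℝ → ℝ} (hΦ : ∀ u, Φ u = u ^ (j + 1))
    (hΦ' : ∀ u, Φ' u = ((j : ℝ) + 1) * u ^ j) {f k : ℝ → ℝ} {D : ℝ} (hf : Ef f) (hm : Measurable k)
    (hD : 0 ≤ D) (hk : ∀ t, |k t| ≤ D) :
    ‖dMM n Φ Φ' (X1 f) (X2 f) (dX1 f k) (dX2 f k) f k‖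
      ≤ 11 ^ j * (16 * ((j : ℝ) + 1) + 154 * (|(n : ℝ)| + 1)) * D := by
  have h1 := dMM_map_le n j hΦ hΦ' hf hm hD hk
  have hc := cc_pos (X_lt hf)
  have hc1 : cc (X1 f) (X2 f) ≤ 1 := C54Z.ce_le_one _ _
  have h2 : (11 * cc (X1 f) (X2 f)) ^ j ≤ 11 ^ j :=
    pow_le_pow_left₀ (by positivity) (by linarith) j
  have h3 : 0 ≤ (16 * ((j : ℝ) + 1) + 154 * (|(n : ℝ)| + 1)) * D := by positivity
  have := mul_le_mul_of_nonneg_right h2 h3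
  linarith

/-- the real and the imaginary part are bounded derivatives in the sense of `UXA` -/
theorem bdd_re (n : ℤ) (j : ℕ) {Φ Φ' : ℝ → ℝ} (hΦ : ∀ u, Φ u = u ^ (j + 1))
    (hΦ' : ∀ u, Φ' u = ((j : ℝ) + 1) * u ^ j) (m : ℝ) :
    UXA.Bdd (fun f k => (dMM n Φ Φ' (X1 f) (X2 f) (dX1 f k) (dX2 f k) f k).re) m
      (11 ^ j * (16 * ((j : ℝ) + 1) + 154 * (|(n : ℝ)| + 1))) :=
  fun _ _ _ hf _ hm hD hk => (Complex.abs_re_le_norm _).trans (dMM_map_le' n j hΦ hΦ' hf hm hD hk)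

theorem bdd_im (n : ℤ) (j : ℕ) {Φ Φ' : ℝ → ℝ} (hΦ : ∀ u, Φ u = u ^ (j + 1))
    (hΦ' : ∀ u, Φ' u = ((j : ℝ) + 1) * u ^ j) (m : ℝ) :
    UXA.Bdd (fun f k => (dMM n Φ Φ' (X1 f) (X2 f) (dX1 f k) (dX2 f k) f k).im) m
      (11 ^ j * (16 * ((j : ℝ) + 1) + 154 * (|(n : ℝ)| + 1))) :=
  fun _ _ _ hf _ hm hD hk => (Complex.abs_im_le_norm _).trans (dMM_map_le' n j hΦ hΦ' hf hm hD hk)

end Pool.Agent.FPX.S54Z
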