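import Mathlib
import Pool.Agent.FPX.ARG
import Pool.Agent.FPX.OMB
import Pool.Agent.FPX.S54B
import Pool.Agent.FPX.S54Z
import Pool.Agent.FPX.F54G
import Pool.Agent.FPX.F54J

/-
OMS (helper18): the system of functionals `X, Y, Re S₂, Im S₂, S₀` of the map F54 (`S₂ = mean (δ² ε²)`,
`S₀ = mean (δ²)`), and the value of the closed form `w J + dλ` of the local forms at a state.
-/

open MeasureTheory Set Filter Topology Complex
open scoped ENNReal NNReal ContDiff ComplexConjugate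

noncomputable section

namespace Pool.Agent.FPX.OMS

open Pool.Agent.FPX Pool.Agent.FPX.UMP Pool.Agent.FPX.UMQ Pool.Agent.FPX.UXA Pool.Agent.EWD
open Pool.Agent.FPX.F54 (X1 X2 dX1 dX2 X_lt X_G1 X_G2 SM dSM fn_SM bdd_SM vF sF vF_eq)
open Pool.Agent.FPX.S54 (dS2 dS0 mS Fv ME MM dMM MM_eq ME_const ME_neg Sn Sn_neg de)

theorem fn_congr {Φ Φ' : (ℝ → ℝ) → ℝ} {dΦ dΦ' : (ℝ → ℝ) → (ℝ → ℝ) → ℝ} (a : ℝ) (H : Fn Φ dΦ)
    (h1 : ∀ f, Ef f → Φ' f = a * Φ f) (h2 : ∀ f h, Ef f → dΦ' f h = a * dΦ f h) : Fn Φ' dΦ' where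
  tds := fun l φ f hφ hf h => by
    rw [h1 f hf]
    refine ((H.tds l φ f hφ hf h).const_mul a).congr' ?_
    filter_upwards [hφ] with i hi
    rw [h1 _ hi]
  der := fun φ h x b hc hb he => by
    rw [h2 _ _ hc.ef]
    refine ((H.der φ h x b hc hb he).const_mul a).congr_of_eventuallyEq ?_
    filter_upwards [he] with i hi
    exact h1 _ hi

theorem bdd_congr {dΦ dΦ' : (ℝ → ℝ) → (ℝ → ℝ) → ℝ} {m L : ℝ} (a : ℝ) (H : Bdd dΦ m L)
    (h2 : ∀ f h, Ef f → dΦ' f h = a * dΦ f h) : Bdd dΦ' m (|a| * L) := fun f h D hf hm hh hD hb => by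
  rw [h2 f h hf, abs_mul, mul_assoc]
  exact mul_le_mul_of_nonneg_left (H f h D hf hm hh hD hb) (abs_nonneg _)

theorem hsq (u : ℝ) : HasDerivAt (fun u : ℝ => u ^ 2) ((fun u : ℝ => 2 * u) u) u := by
  simpa using hasDerivAt_pow 2 u

/-- the value of the derivative of `2 mean (δ² ε^n)` -/
theorem dSM_eq (n : ℤ) (f h : ℝ → ℝ) :
    dSM n (fun u : ℝ => u ^ 2) (fun u : ℝ => 2 * u) f h =
      2 * (2 * ME n (X1 f) (X2 f) (fun t => de (X1 f) (X2 f) f t * h t)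
        - (Fv f h * ME (n - 1) (X1 f) (X2 f) (de (X1 f) (X2 f) f)
          + conj (Fv f h) * ME (n + 1) (X1 f) (X2 f) (de (X1 f) (X2 f) f))
        + ((n : ℂ) + 2) / (4 * (S54.cc (X1 f) (X2 f) : ℂ))
          * (conj (S54.YY (X1 f) (X2 f)) * conj (Fv f h)) * Sn (n + 2) (X1 f) (X2 f) f
        - ((n : ℂ) - 2) / (4 * (S54.cc (X1 f) (X2 f) : ℂ))
          * (S54.YY (X1 f) (X2 f) * Fv f h) * Sn (n - 2) (X1 f) (X2 f) f
        + (n : ℂ) * (I * ((X1 f * dX2 f h - X2 f * dX1 f h : ℝ) : ℂ))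
          * (1 / (1 + (S54.cc (X1 f) (X2 f) : ℂ)) - 1 / (2 * (S54.cc (X1 f) (X2 f) : ℂ)))
          * Sn n (X1 f) (X2 f) f) := by
  have hπ : (Real.pi : ℂ) ≠ 0 := Complex.ofReal_ne_zero.2 Real.pi_ne_zero
  have e1 : ∀ k, MM k (fun u : ℝ => 2 * u) (X1 f) (X2 f) f
      = 4 * ME k (X1 f) (X2 f) (de (X1 f) (X2 f) f) := fun k => by
    rw [MM_eq, ME_const]
    push_cast
    ring
  have e2 : ∀ k, MM k (fun u : ℝ => u ^ 2) (X1 f) (X2 f) f = 2 * Sn k (X1 f) (X2 f) f := fun k => by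
    rw [MM_eq]
    rfl
  have e3 : (1 / (Real.pi : ℂ)) * (∫ t in (0 : ℝ)..(2 * Real.pi),
      (((fun u : ℝ => 2 * u) (f t - Real.arcsin (F54.pr (X1 f) (X2 f) t)) * h t : ℝ) : ℂ)
        * S54.KK n (X1 f) (X2 f) t)
      = 4 * ME n (X1 f) (X2 f) (fun t => de (X1 f) (X2 f) f t * h t) := by
    have e4 : ∀ t, (((fun u : ℝ => 2 * u) (f t - Real.arcsin (F54.pr (X1 f) (X2 f) t)) * h t : ℝ) : ℂ)
        * S54.KK n (X1 f) (X2 f) t
        = 2 * (((de (X1 f) (X2 f) f t * h t : ℝ) : ℂ) * S54.KK n (X1 f) (X2 f) t) := fun t => by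
      unfold de
      push_cast
      ring
    simp only [e4]
    rw [intervalIntegral.integral_const_mul]
    unfold ME
    field_simp
    ring
  unfold dSM dMM
  rw [e3, e1, e1, e2, e2, e2]
  unfold Fv
  ring

theorem dSM_two {f : ℝ → ℝ} (hf : Ef f) (h : ℝ → ℝ) :
    dSM 2 (fun u : ℝ => u ^ 2) (fun u : ℝ => 2 * u) f h = 2 * dS2 f h := by
  have hc0 := S54.cc_pos (X_lt hf)
  have hc' : (S54.cc (X1 f) (X2 f) : ℂ) ≠ 0 := Complex.ofReal_ne_zero.2 hc0.ne'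
  have e5 : (conj (S54.YY (X1 f) (X2 f)) * Fv f h).im = X1 f * dX2 f h - X2 f * dX1 f h := by
    simp only [Fv, S54.YY, S54.vt, Complex.mul_im, Complex.conj_re, Complex.conj_im]
    ring
  rw [dSM_eq]
  have e1 : (2 : ℤ) - 1 = 1 := rfl
  have e2 : (2 : ℤ) + 1 = 3 := rfl
  have e3 : (2 : ℤ) + 2 = 4 := rfl
  have e4 : (2 : ℤ) - 2 = 0 := rfl
  rw [e1, e2, e3, e4, S54.ME_one_F hf]
  unfold dS2 mS
  rw [e5]
  change _ = 2 * (_ + _ + _ * Sn 2 (X1 f) (X2 f) f)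
  push_cast
  field_simp
  ring

theorem dSM_zero {f : ℝ → ℝ} (hf : Ef f) (h : ℝ → ℝ) :
    (dSM 0 (fun u : ℝ => u ^ 2) (fun u : ℝ => 2 * u) f h).re = 2 * dS0 f h := by
  have hc0 := S54.cc_pos (X_lt hf)
  have hc' : (S54.cc (X1 f) (X2 f) : ℂ) ≠ 0 := Complex.ofReal_ne_zero.2 hc0.ne'
  rw [dSM_eq]
  have e1 : (0 : ℤ) - 1 = -1 := rfl
  have e2 : (0 : ℤ) + 1 = 1 := rfl
  have e3 : (0 : ℤ) + 2 = 2 := rfl
  have e4 : (0 : ℤ) - 2 = -2 := rfl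
  rw [e1, e2, e3, e4, ME_neg (X_lt hf) 1, S54.ME_one_F hf, Sn_neg (X_lt hf) 2]
  have e5 : (2 * (2 * ME 0 (X1 f) (X2 f) (fun t => de (X1 f) (X2 f) f t * h t)
      - (Fv f h * conj (0 : ℂ) + conj (Fv f h) * 0)
      + (((0 : ℤ) : ℂ) + 2) / (4 * (S54.cc (X1 f) (X2 f) : ℂ))
          * (conj (S54.YY (X1 f) (X2 f)) * conj (Fv f h)) * Sn 2 (X1 f) (X2 f) f
      - (((0 : ℤ) : ℂ) - 2) / (4 * (S54.cc (X1 f) (X2 f) : ℂ))
          * (S54.YY (X1 f) (X2 f) * Fv f h) * conj (Sn 2 (X1 f) (X2 f) f)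
      + ((0 : ℤ) : ℂ) * (I * ((X1 f * dX2 f h - X2 f * dX1 f h : ℝ) : ℂ))
          * (1 / (1 + (S54.cc (X1 f) (X2 f) : ℂ)) - 1 / (2 * (S54.cc (X1 f) (X2 f) : ℂ)))
          * Sn 0 (X1 f) (X2 f) f))
      = ((4 : ℝ) : ℂ) * ME 0 (X1 f) (X2 f) (fun t => de (X1 f) (X2 f) f t * h t)
        + ((1 / S54.cc (X1 f) (X2 f) : ℝ) : ℂ) * (conj (S54.YY (X1 f) (X2 f) * Fv f h)
          * Sn 2 (X1 f) (X2 f) f)
        + ((1 / S54.cc (X1 f) (X2 f) : ℝ) : ℂ) * conj (conj (S54.YY (X1 f) (X2 f) * Fv f h)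
          * Sn 2 (X1 f) (X2 f) f) := by
    rw [map_mul, map_mul, map_mul, Complex.conj_conj, Complex.conj_conj, map_zero]
    push_cast
    field_simp
    ring
  rw [e5, Complex.add_re, Complex.add_re, Complex.re_ofReal_mul, Complex.re_ofReal_mul,
    Complex.re_ofReal_mul, Complex.conj_re]
  unfold dS0
  change _ = 2 * (_ + _ * (_ * Sn 2 (X1 f) (X2 f) f).re)
  ring

/-- the functionals -/
def Φ5 : Fin (3 + 2) → (ℝ → ℝ) → ℝ := ![X1, X2, fun f => (S54.S2 f).re, fun f => (S54.S2 f).im, fun f => S54.S0 f]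

/-- their derivatives -/
def dΦ5 : Fin (3 + 2) → (ℝ → ℝ) → (ℝ → ℝ) → ℝ :=
  ![dX1, dX2, fun f h => (dS2 f h).re, fun f h => (dS2 f h).im, fun f h => dS0 f h]

theorem SM_two (f : ℝ → ℝ) : SM 2 (fun u : ℝ => u ^ 2) f = 2 * S54.S2 f := MM_eq _ _ _ _ _

theorem SM_zero (f : ℝ → ℝ) : (SM 0 (fun u : ℝ => u ^ 2) f).re = 2 * S54.S0 f := by
  have : SM 0 (fun u : ℝ => u ^ 2) f = 2 * Sn 0 (X1 f) (X2 f) f := MM_eq _ _ _ _ _
  rw [this]
  simp [S54.S0]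

theorem fn_S2re : Fn (fun f => (S54.S2 f).re) fun f h => (dS2 f h).re :=
  fn_congr (1 / 2) (fn_SM reCLM 2 hsq (by fun_prop))
    (fun f _ => by
      rw [SM_two]
      simp)
    fun f h hf => by
      rw [dSM_two hf]
      simp

theorem fn_S2im : Fn (fun f => (S54.S2 f).im) fun f h => (dS2 f h).im :=
  fn_congr (1 / 2) (fn_SM imCLM 2 hsq (by fun_prop))
    (fun f _ => by
      rw [SM_two]
      simp)
    fun f h hf => by
      rw [dSM_two hf]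
      simp

theorem fn_S0 : Fn (fun f => S54.S0 f) fun f h => dS0 f h :=
  fn_congr (1 / 2) (fn_SM reCLM 0 hsq (by fun_prop))
    (fun f _ => by
      rw [reCLM_apply, SM_zero]
      ring)
    fun f h hf => by
      rw [reCLM_apply, dSM_zero hf]
      ring

theorem sys5 : CST.Sys Φ5 dΦ5 3 7 where
  map := F54.umap
  fn := fun i => by
    fin_cases i
    · exact F54.umap.fX
    · exact F54.umap.fY
    · exact fn_S2re
    · exact fn_S2im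
    · exact fn_S0
  bd := fun i m hm0 hm => by
    have h1 : ∀ l : ℂ →L[ℝ] ℝ, ∃ L, 0 ≤ L ∧ Bdd (fun f h => l (dSM 2 (fun u : ℝ => u ^ 2) (fun u : ℝ => 2 * u) f h)) m L :=
      fun l => bdd_SM l 2 hsq (by fun_prop) hm0 hm
    fin_cases i
    · exact ⟨7, by norm_num, F54.umap.bX m⟩
    · exact ⟨7, by norm_num, F54.umap.bY m⟩
    · obtain ⟨L, hL, H⟩ := h1 reCLM
      exact ⟨|1 / 2| * L, by positivity, bdd_congr (1 / 2) H fun f h hf => by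
        rw [dSM_two hf]
        change (dS2 f h).re = _
        simp⟩
    · obtain ⟨L, hL, H⟩ := h1 imCLM
      exact ⟨|1 / 2| * L, by positivity, bdd_congr (1 / 2) H fun f h hf => by
        rw [dSM_two hf]
        change (dS2 f h).im = _
        simp⟩
    · obtain ⟨L, hL, H⟩ := bdd_SM reCLM 0 hsq (by fun_prop) hm0 hm
      exact ⟨|1 / 2| * L, by positivity, bdd_congr (1 / 2) H fun f h hf => by
        rw [reCLM_apply, dSM_zero hf]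
        change dS0 f h = _
        ring⟩

/-! ### means with respect to the visual measure -/

open Pool.Agent.FPX.OMB (vm vm_int vm_prob bm_ep)
open Pool.Agent.FPX.CRD (Bm)
open Pool.Agent.FPX.CST (cu du dl gv gt gloc nu ja zt ss hh OO cj)

theorem ME_vm {x y : ℝ} (h : x ^ 2 + y ^ 2 < 1) (n : ℕ) (g : ℝ → ℝ) :
    ME n x y g = ∫ t, (g t : ℂ) * C54.ep x y t ^ n ∂(vm x y) := by
  rw [vm_int h]
  unfold ME
  have e : ∀ t, (g t : ℂ) * S54.KK (n : ℤ) x y t = (g t : ℂ) * C54.ep x y t ^ n * (C54.al x y t : ℂ) := fun t => by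
    rw [S54.KK_nat h, C54.KK_eq h]
    ring
  simp only [e]
  push_cast
  rfl

/-- the antiholomorphic and the holomorphic part of the differential -/
def Aa (f h k : ℝ → ℝ) : ℂ := (vF f h - I * vF f k) / 2

def Ba (f h k : ℝ → ℝ) : ℂ := (vF f h + I * vF f k) / 2

/-- the complex gradient -/
def Kc (h k : ℝ → ℝ) (t : ℝ) : ℂ := h t + I * k t

/-- the kernel of the mixed part of the local forms -/
def mk (Q Z : ℝ) (f : ℝ → ℝ) (t : ℝ) : ℂ :=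
  (de (X1 f) (X2 f) f t : ℂ) * ((Q : ℂ) * S54.YY (X1 f) (X2 f) * conj (C54.ep (X1 f) (X2 f) t) ^ 2
    + (Z : ℂ) * conj (S54.YY (X1 f) (X2 f)))

/-- `|ζ|²` of a state -/
def rF (f : ℝ → ℝ) : ℝ := X1 f ^ 2 + X2 f ^ 2

/-- `c` of a state -/
def cF (f : ℝ → ℝ) : ℝ := √(1 - rF f)

theorem cF_eq (f : ℝ → ℝ) : S54.cc (X1 f) (X2 f) = cF f := by
  unfold S54.cc cF rF
  rw [sub_sub]

theorem cc_cu (f : ℝ → ℝ) : CST.cc (cu Φ5 f) = cF f := rfl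

theorem rr_cu (f : ℝ → ℝ) : CST.rr (cu Φ5 f) = rF f := rfl

theorem zt_cu (f : ℝ → ℝ) : zt (cu Φ5 f) = S54.YY (X1 f) (X2 f) := rfl

theorem vv_cu (f h : ℝ → ℝ) : CST.vv (cu Φ5 f) (du dΦ5 f h) = vF f h := by
  have e1 : cu Φ5 f 0 = X1 f := rfl
  have e2 : cu Φ5 f 1 = X2 f := rfl
  have e3 : du dΦ5 f h 0 = dX1 f h := rfl
  have e4 : du dΦ5 f h 1 = dX2 f h := rfl
  have e5 : CST.cc (cu Φ5 f) = C54.ce (X1 f) (X2 f) := by
    rw [cc_cu, ← cF_eq]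
    rfl
  unfold CST.vv hh vF C54.vv ss zt
  rw [e1, e2, e3, e4, e5]
  apply Complex.ext
  · simp only [Complex.add_re, Complex.mul_re, Complex.ofReal_re, Complex.ofReal_im]
    ring
  · simp only [Complex.add_im, Complex.mul_im, Complex.ofReal_re, Complex.ofReal_im]
    ring

theorem Fv_eq (f h : ℝ → ℝ) : Fv f h = vF f h := rfl

theorem cj_cu (f : ℝ → ℝ) : cj 2 3 (cu Φ5 f) = S54.S2 f := by
  apply Complex.ext <;> rfl

theorem cj_du (f h : ℝ → ℝ) : cj 2 3 (du dΦ5 f h) = dS2 f h := by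
  apply Complex.ext <;> rfl

theorem ja_eq (f h k : ℝ → ℝ) : ja (cu Φ5 f) (du dΦ5 f h) (du dΦ5 f k) =
    ‖Aa f h k‖ ^ 2 - ‖Ba f h k‖ ^ 2 := by
  unfold ja
  rw [vv_cu, vv_cu]
  unfold Aa Ba
  rw [← Complex.normSq_eq_norm_sq, ← Complex.normSq_eq_norm_sq]
  generalize vF f h = a
  generalize vF f k = b
  simp only [Complex.normSq_apply, Complex.mul_im, Complex.mul_re, Complex.conj_re, Complex.conj_im,
    Complex.div_ofNat_re, Complex.div_ofNat_im, Complex.add_re, Complex.add_im, Complex.sub_re,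
    Complex.sub_im, Complex.I_re, Complex.I_im]
  ring

theorem nu_eq (f h k : ℝ → ℝ) : nu (cu Φ5 f) (du dΦ5 f h) (du dΦ5 f k) = 2 * ‖Ba f h k‖ ^ 2 := by
  unfold nu ja
  rw [vv_cu, vv_cu]
  unfold Ba
  rw [← Complex.normSq_eq_norm_sq]
  generalize vF f h = a
  generalize vF f k = b
  simp only [Complex.normSq_apply, Complex.mul_im, Complex.mul_re, Complex.conj_re, Complex.conj_im,
    Complex.div_ofNat_re, Complex.div_ofNat_im, Complex.add_re, Complex.add_im, Complex.I_re, Complex.I_im]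
  ring

/-- the coefficient of the Jacobian -/
def W0 (w Q Q' Z Z' : ℝ) (f : ℝ → ℝ) : ℝ :=
  w + (2 * cF f * Q' - Q / cF f + Z / cF f) * (S54.YY (X1 f) (X2 f) ^ 2 * conj (S54.S2 f)).re
    + 2 * cF f * (Z + rF f * Z') * S54.S0 f

/-- **the value of the closed form at a state** -/
theorem val5 {W Q Z : ℝ → ℝ} {W' Q' Z' : ℝ} (hW : ContDiffOn ℝ 1 W (Ioi 0)) (hQ : ContDiffOn ℝ 1 Q (Iio 1))
    (hZ : ContDiffOn ℝ 1 Z (Iio 1)) {f h k : ℝ → ℝ} (hf : Ef f) (V : Var h k)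
    (hW' : HasDerivAt W W' (cF f)) (hQ' : HasDerivAt Q Q' (rF f)) (hZ' : HasDerivAt Z Z' (rF f)) :
    dl (fun i u => fderiv ℝ (gv (gt W (gloc Q Z 2 3 4)) i) u) (cu Φ5 f) (du dΦ5 f h) (du dΦ5 f k) =
      W0 (2 * cF f * W (cF f) - rF f * W') (Q (rF f)) Q' (Z (rF f)) Z' f
        * (‖Aa f h k‖ ^ 2 - ‖Ba f h k‖ ^ 2)
      + 2 * (Aa f h k * ∫ t, mk (Q (rF f)) (Z (rF f)) f t * Kc h k t ∂(vm (X1 f) (X2 f))).re
      - 2 * (Ba f h k * ∫ t, mk (Q (rF f)) (Z (rF f)) f t * conj (Kc h k t) ∂(vm (X1 f) (X2 f))).re := by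
  have hu : cu Φ5 f ∈ OO 3 := sys5.mem hf
  have hX := X_lt hf
  have := vm_prob hX
  rw [CST.dl_gt hW (CST.contDiffOn_gloc hQ hZ 2 3 4) hu hW']
  have hS : ∀ g : ℝ → ℝ, cj 2 3 (du dΦ5 f g) = 2 * ME 2 (X1 f) (X2 f) (fun t => de (X1 f) (X2 f) f t * g t)
      + conj (CST.vv (cu Φ5 f) (du dΦ5 f g)) * mS f
      + 2 * I * (((conj (zt (cu Φ5 f)) * CST.vv (cu Φ5 f) (du dΦ5 f g)).im
        * (1 / (1 + CST.cc (cu Φ5 f)) - 1 / (2 * CST.cc (cu Φ5 f))) : ℝ) : ℂ) * cj 2 3 (cu Φ5 f) := fun g => by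
    rw [cj_du, vv_cu, zt_cu, cj_cu, cc_cu, ← cF_eq]
    rfl
  have h0 : ∀ g : ℝ → ℝ, du dΦ5 f g 4 = 2 * (ME 0 (X1 f) (X2 f) (fun t => de (X1 f) (X2 f) f t * g t)).re
      + (1 / CST.cc (cu Φ5 f)) * (conj (zt (cu Φ5 f) * CST.vv (cu Φ5 f) (du dΦ5 f g)) * cj 2 3 (cu Φ5 f)).re :=
    fun g => by
      rw [vv_cu, zt_cu, cj_cu, cc_cu, ← cF_eq]
      rfl
  rw [CST.dl_loc hu hQ hZ hQ' hZ' 2 3 4 (hS h) (hS k) (h0 h) (h0 k), ja_eq, cc_cu, rr_cu, zt_cu, cj_cu,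
    vv_cu, vv_cu]
  have e4 : cu Φ5 f 4 = S54.S0 f := rfl
  rw [e4]
  -- the mixed part
  have bE := bm_ep hX
  have cde : Continuous fun t => de (X1 f) (X2 f) f t := hf.lip.continuous.sub
    (Real.continuous_arcsin.comp F54B.cont_pr)
  have bδ : Bm fun t => (de (X1 f) (X2 f) f t : ℂ) := by
    refine OMB.bm_real cde.measurable (C := Real.pi) fun t => ?_
    have h1 := (abs_lt.1 (hf.lt t))
    have h2 := Real.neg_pi_div_two_le_arcsin (F54.pr (X1 f) (X2 f) t)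
    have h3 := Real.arcsin_le_pi_div_two (F54.pr (X1 f) (X2 f) t)
    unfold de
    rw [abs_le]
    constructor <;> linarith
  have bh : Bm fun t => (h t : ℂ) := OMB.bm_real V.mesh V.bh
  have bk : Bm fun t => (k t : ℂ) := OMB.bm_real V.mesk V.bk
  have core := OMB.core (μ := vm (X1 f) (X2 f)) bE bδ bh bk (fun t => Complex.ofReal_im _)
    (fun t => Complex.ofReal_im _) (fun t => Complex.ofReal_im _) (S54.YY (X1 f) (X2 f)) (vF f h) (vF f k)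
    (Q (rF f)) (Z (rF f))
  have m2 : ∀ g : ℝ → ℝ, ME 2 (X1 f) (X2 f) (fun t => de (X1 f) (X2 f) f t * g t) =
      ∫ t, (de (X1 f) (X2 f) f t : ℂ) * (g t : ℂ) * C54.ep (X1 f) (X2 f) t ^ 2 ∂(vm (X1 f) (X2 f)) := fun g => by
    have := ME_vm hX 2 (fun t => de (X1 f) (X2 f) f t * g t)
    push_cast at this
    exact this
  have m0 : ∀ g : ℝ → ℝ, ME 0 (X1 f) (X2 f) (fun t => de (X1 f) (X2 f) f t * g t) =
      ∫ t, (de (X1 f) (X2 f) f t : ℂ) * (g t : ℂ) ∂(vm (X1 f) (X2 f)) := fun g => by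
    have := ME_vm hX 0 (fun t => de (X1 f) (X2 f) f t * g t)
    push_cast at this
    simpa using this
  rw [m2, m2, m0, m0]
  have r2 : ∀ z : ℂ, 2 * z.re = (2 * z).re := fun z => by simp
  rw [r2, r2]
  have e5 : Aa f h k * ∫ t, mk (Q (rF f)) (Z (rF f)) f t * Kc h k t ∂(vm (X1 f) (X2 f)) =
      (vF f h - I * vF f k) / 2 * ∫ t, (de (X1 f) (X2 f) f t : ℂ) * ((Q (rF f) : ℂ) * S54.YY (X1 f) (X2 f)
        * conj (C54.ep (X1 f) (X2 f) t) ^ 2 + (Z (rF f) : ℂ) * conj (S54.YY (X1 f) (X2 f)))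
          * ((h t : ℂ) + I * (k t : ℂ)) ∂(vm (X1 f) (X2 f)) := rfl
  have e6 : Ba f h k * ∫ t, mk (Q (rF f)) (Z (rF f)) f t * conj (Kc h k t) ∂(vm (X1 f) (X2 f)) =
      (vF f h + I * vF f k) / 2 * ∫ t, (de (X1 f) (X2 f) f t : ℂ) * ((Q (rF f) : ℂ) * S54.YY (X1 f) (X2 f)
        * conj (C54.ep (X1 f) (X2 f) t) ^ 2 + (Z (rF f) : ℂ) * conj (S54.YY (X1 f) (X2 f)))
          * conj ((h t : ℂ) + I * (k t : ℂ)) ∂(vm (X1 f) (X2 f)) := rfl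
  rw [e5, e6]
  unfold W0
  linear_combination core

/-- **the equations of the two parts** -/
theorem AB_eq {f h k : ℝ → ℝ} (hf : Ef f) (V : Var h k) :
    Aa f h k - sF f * conj (Ba f h k) =
        ∫ t, C54.ep (X1 f) (X2 f) t * conj (Kc h k t) ∂(vm (X1 f) (X2 f)) ∧
      Ba f h k - sF f * conj (Aa f h k) =
        ∫ t, C54.ep (X1 f) (X2 f) t * Kc h k t ∂(vm (X1 f) (X2 f)) := by
  have hX := X_lt hf
  have := vm_prob hX
  have e1 : ∀ g : ℝ → ℝ, Measurable g → (∀ t, |g t| ≤ 1) →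
      vF f g - sF f * conj (vF f g) = 2 * ∫ t, (g t : ℂ) * C54.ep (X1 f) (X2 f) t ∂(vm (X1 f) (X2 f)) := by
    intro g hg hb
    have hi : IntervalIntegrable g volume 0 (2 * Real.pi) := by
      rw [intervalIntegrable_iff, uIoc_of_le Real.two_pi_pos.le]
      exact Measure.integrableOn_of_bounded (M := 1) measure_Ioc_lt_top.ne hg.aestronglyMeasurable
        (Eventually.of_forall fun t => hb t)
    rw [vF_eq hf hi]
    have h1 := S54.Lm_eq hX 1 g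
    rw [h1, ME_vm hX 1 g]
    simp
  exact OMB.ab (bm_ep hX) (OMB.bm_real V.mesh V.bh) (OMB.bm_real V.mesk V.bk) (fun t => Complex.ofReal_im _)
    (fun t => Complex.ofReal_im _) (e1 h V.mesh V.bh) (e1 k V.mesk V.bk)

theorem Kc_meas {h k : ℝ → ℝ} (V : Var h k) : Measurable (Kc h k) :=
  (Complex.measurable_ofReal.comp V.mesh).add ((Complex.measurable_ofReal.comp V.mesk).const_mul I)

theorem Kc_le {h k : ℝ → ℝ} (V : Var h k) (t : ℝ) : ‖Kc h k t‖ ≤ 1 := by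
  have h1 : ‖Kc h k t‖ ^ 2 = h t ^ 2 + k t ^ 2 := by
    rw [← Complex.normSq_eq_norm_sq, Complex.normSq_apply]
    simp [Kc]
    ring
  have h2 := V.sq t
  rw [← h1] at h2
  exact (sq_le_one_iff₀ (norm_nonneg _)).1 h2

/-- the certificate: an inequality for all functions `K` with `|K| ≤ 1` -/
def Cert (W Q Z : ℝ → ℝ) (μ T : ℝ) : Prop :=
  ∀ f, Ef f → ∀ K : ℝ → ℂ, Measurable K → (∀ t, ‖K t‖ ≤ 1) → ∀ A B : ℂ,
    A - sF f * conj B = ∫ t, C54.ep (X1 f) (X2 f) t * conj (K t) ∂(vm (X1 f) (X2 f)) →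
    B - sF f * conj A = ∫ t, C54.ep (X1 f) (X2 f) t * K t ∂(vm (X1 f) (X2 f)) →
    W0 (2 * cF f * W (cF f) - rF f * deriv W (cF f)) (Q (rF f)) (deriv Q (rF f)) (Z (rF f))
        (deriv Z (rF f)) f * (‖A‖ ^ 2 - ‖B‖ ^ 2)
      + 2 * (A * ∫ t, mk (Q (rF f)) (Z (rF f)) f t * K t ∂(vm (X1 f) (X2 f))).re
      - 2 * (B * ∫ t, mk (Q (rF f)) (Z (rF f)) f t * conj (K t) ∂(vm (X1 f) (X2 f))).re
      + 2 * μ * ‖B‖ ^ 2 ≤ T

theorem hst_of {W Q Z : ℝ → ℝ} (hW : ContDiffOn ℝ 1 W (Ioi 0)) (hQ : ContDiffOn ℝ 1 Q (Iio 1))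
    (hZ : ContDiffOn ℝ 1 Z (Iio 1)) {μ T : ℝ} (H : Cert W Q Z μ T) {f h k : ℝ → ℝ} (hf : Ef f)
    (V : Var h k) :
    dl (fun i u => fderiv ℝ (gv (gt W (gloc Q Z 2 3 4)) i) u) (cu Φ5 f) (du dΦ5 f h) (du dΦ5 f k)
      + μ * nu (cu Φ5 f) (du dΦ5 f h) (du dΦ5 f k) ≤ T := by
  have hX := X_lt hf
  have hr : rF f < 1 := hX
  have hc : 0 < cF f := Real.sqrt_pos.2 (sub_pos.2 hr)
  have d1 : HasDerivAt W (deriv W (cF f)) (cF f) :=
    ((hW.contDiffAt (Ioi_mem_nhds hc)).differentiableAt one_ne_zero).hasDerivAt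
  have d2 : HasDerivAt Q (deriv Q (rF f)) (rF f) :=
    ((hQ.contDiffAt (Iio_mem_nhds hr)).differentiableAt one_ne_zero).hasDerivAt
  have d3 : HasDerivAt Z (deriv Z (rF f)) (rF f) :=
    ((hZ.contDiffAt (Iio_mem_nhds hr)).differentiableAt one_ne_zero).hasDerivAt
  rw [val5 hW hQ hZ hf V d1 d2 d3, nu_eq]
  obtain ⟨e1, e2⟩ := AB_eq hf V
  have := H f hf (Kc h k) (Kc_meas V) (Kc_le V) _ _ e1 e2
  linarith

theorem S2_le {f : ℝ → ℝ} (hf : Ef f) : ‖S54.S2 f‖ ≤ 121 * cF f ^ 2 := by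
  have h1 := S54Z.MM_map_le 2 2 hf
  have h2 : MM 2 (fun u : ℝ => u ^ 2) (X1 f) (X2 f) f = 2 * S54.S2 f := MM_eq _ _ _ _ _
  rw [h2, norm_mul, Complex.norm_ofNat, cF_eq] at h1
  nlinarith

theorem S0_le {f : ℝ → ℝ} (hf : Ef f) : |S54.S0 f| ≤ 121 * cF f ^ 2 := by
  have h1 := S54Z.MM_map_le 0 2 hf
  have h2 : MM 0 (fun u : ℝ => u ^ 2) (X1 f) (X2 f) f = 2 * Sn 0 (X1 f) (X2 f) f := MM_eq _ _ _ _ _
  rw [h2, norm_mul, Complex.norm_ofNat, cF_eq] at h1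
  have h3 : |S54.S0 f| ≤ ‖Sn 0 (X1 f) (X2 f) f‖ := Complex.abs_re_le_norm _
  nlinarith

/-- the form vanishes at the boundary -/
theorem gloc_small {Q Z : ℝ → ℝ} (hQ0 : Tendsto (fun c => Q (1 - c ^ 2) * c ^ 2) (𝓝[>] 0) (𝓝 0))
    (hZ0 : Tendsto (fun c => Z (1 - c ^ 2) * c ^ 2) (𝓝[>] 0) (𝓝 0)) {ε : ℝ} (hε : 0 < ε) :
    ∃ η : ℝ, 0 < η ∧ ∀ f, Ef f → CST.cc (cu Φ5 f) < η → ‖gloc Q Z 2 3 4 (cu Φ5 f)‖ ≤ ε := by
  have h1 := (Metric.tendsto_nhdsWithin_nhds.1 hQ0) (ε / 242) (by positivity)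
  have h2 := (Metric.tendsto_nhdsWithin_nhds.1 hZ0) (ε / 242) (by positivity)
  obtain ⟨a, ha, ha'⟩ := h1
  obtain ⟨b, hb, hb'⟩ := h2
  refine ⟨min a b, lt_min ha hb, fun f hf hc => ?_⟩
  have hr : rF f < 1 := X_lt hf
  have hc0 : 0 < cF f := Real.sqrt_pos.2 (sub_pos.2 hr)
  rw [cc_cu] at hc
  have hc2 : cF f ^ 2 = 1 - rF f := Real.sq_sqrt (sub_pos.2 hr).le
  have er : 1 - cF f ^ 2 = rF f := by rw [hc2]; ring
  have q1 := ha' (mem_Ioi.2 hc0) (by rw [Real.dist_eq, sub_zero, abs_of_pos hc0]; exact hc.trans_le (min_le_left _ _))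
  have q2 := hb' (mem_Ioi.2 hc0) (by rw [Real.dist_eq, sub_zero, abs_of_pos hc0]; exact hc.trans_le (min_le_right _ _))
  rw [er, Real.dist_eq, sub_zero] at q1 q2
  have hz : ‖S54.YY (X1 f) (X2 f)‖ ≤ 1 := by
    have h3 : ‖S54.YY (X1 f) (X2 f)‖ ^ 2 = rF f := by
      rw [← Complex.normSq_eq_norm_sq, Complex.normSq_apply]
      simp only [S54.YY, rF]
      ring
    have h4 : ‖S54.YY (X1 f) (X2 f)‖ ^ 2 ≤ 1 := by rw [h3]; exact hr.le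
    exact (sq_le_one_iff₀ (norm_nonneg _)).1 h4
  have s2 := S2_le hf
  have s0 := S0_le hf
  have e1 : gloc Q Z 2 3 4 (cu Φ5 f) = (Q (rF f) : ℂ) * S54.YY (X1 f) (X2 f) * conj (S54.S2 f)
      + ((Z (rF f) * S54.S0 f : ℝ) : ℂ) * conj (S54.YY (X1 f) (X2 f)) := by
    unfold gloc
    rw [rr_cu, zt_cu, cj_cu]
    rfl
  rw [e1]
  refine (norm_add_le _ _).trans ?_
  rw [norm_mul, norm_mul, norm_mul, Complex.norm_conj, Complex.norm_conj, Complex.norm_real,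
    Complex.norm_real, Real.norm_eq_abs, Real.norm_eq_abs, abs_mul]
  have f1 : |Q (rF f)| * ‖S54.YY (X1 f) (X2 f)‖ * ‖S54.S2 f‖ ≤ |Q (rF f) * cF f ^ 2| * 121 := by
    rw [abs_mul, abs_of_pos (by positivity : 0 < cF f ^ 2)]
    calc |Q (rF f)| * ‖S54.YY (X1 f) (X2 f)‖ * ‖S54.S2 f‖ ≤ |Q (rF f)| * 1 * (121 * cF f ^ 2) := by
          gcongr
      _ = |Q (rF f)| * cF f ^ 2 * 121 := by ring
  have f2 : |Z (rF f)| * |S54.S0 f| * ‖S54.YY (X1 f) (X2 f)‖ ≤ |Z (rF f) * cF f ^ 2| * 121 := by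
    rw [abs_mul, abs_of_pos (by positivity : 0 < cF f ^ 2)]
    calc |Z (rF f)| * |S54.S0 f| * ‖S54.YY (X1 f) (X2 f)‖ ≤ |Z (rF f)| * (121 * cF f ^ 2) * 1 := by
          gcongr
      _ = |Z (rF f)| * cF f ^ 2 * 121 := by ring
  linarith

/-- **the inequality on every surface, from the certificate** -/
theorem raw5 {W Q Z : ℝ → ℝ} (hW : ContDiffOn ℝ 1 W (Ioi 0)) (hW0 : ContinuousOn W (Ici 0))
    (hQ : ContDiffOn ℝ 1 Q (Iio 1)) (hZ : ContDiffOn ℝ 1 Z (Iio 1))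
    (hQ0 : Tendsto (fun c => Q (1 - c ^ 2) * c ^ 2) (𝓝[>] 0) (𝓝 0))
    (hZ0 : Tendsto (fun c => Z (1 - c ^ 2) * c ^ 2) (𝓝[>] 0) (𝓝 0)) {μ T : ℝ} (H : Cert W Q Z μ T)
    {e : ℝ} (he : 0 < e) :
    ∃ d : ℝ, 0 < d ∧ ∀ (M : Type) [MetricSpace M] [CompactSpace M] (γ : ℝ → M) (C : Calc M γ), Bd γ →
      ∀ (ρ : ℝ) (m : ℕ), 0 ≤ ρ → ρ < 1 → 2 ≤ m → (1 - ρ) * (Real.pi / 2) + 2 * (Real.pi / m) ≤ d →
        Integrable (CST.nur C fun i => pull γ ρ m (Φ5 i)) C.μ ∧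
        2 * Real.pi * W 0 - e + μ * ∫ o, CST.nur C (fun i => pull γ ρ m (Φ5 i)) o ∂C.μ ≤ T * C.vol :=
  CST.raw_le sys5 hW hW0 (CST.contDiffOn_gloc hQ hZ 2 3 4) (fun _ hε => gloc_small hQ0 hZ0 hε)
    (fun _ _ _ hf V => hst_of hW hQ hZ H hf V) he

/-- **the area bound on every surface, from the certificate** -/
theorem area5 {W Q Z : ℝ → ℝ} (hW : ContDiffOn ℝ 1 W (Ioi 0)) (hW0 : ContinuousOn W (Ici 0))
    (hQ : ContDiffOn ℝ 1 Q (Iio 1)) (hZ : ContDiffOn ℝ 1 Z (Iio 1))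
    (hQ0 : Tendsto (fun c => Q (1 - c ^ 2) * c ^ 2) (𝓝[>] 0) (𝓝 0))
    (hZ0 : Tendsto (fun c => Z (1 - c ^ 2) * c ^ 2) (𝓝[>] 0) (𝓝 0)) {T : ℝ} (H : Cert W Q Z 0 T)
    (M : Type) [MetricSpace M] [CompactSpace M] (γ : ℝ → M) (C : Calc M γ) (hγ : Bd γ) :
    2 * Real.pi * W 0 ≤ T * C.vol :=
  CST.area_le sys5 hW hW0 (CST.contDiffOn_gloc hQ hZ 2 3 4) (fun _ hε => gloc_small hQ0 hZ0 hε)
    (fun f h k hf V => by
      have := hst_of hW hQ hZ H hf V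
      rwa [zero_mul, add_zero] at this) M γ C hγ

end Pool.Agent.FPX.OMS
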