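import Mathlib
import Pool.Agent.FPX.OMS
import Pool.Agent.FPX.CQA
import Pool.Agent.FPX.F54R

/-
CERQ (helper18): the certificate of the local form `λ_q` (`Q = q / c`, `Z = 0`, `w = 1`) from helper75's
bound: what remains is an inequality for one functional of the states with `ζ = r ≥ 0`.
-/

open MeasureTheory Set Filter Topology Complex
open scoped ENNReal NNReal ContDiff ComplexConjugate

noncomputable section

namespace Pool.Agent.FPX.CERQ

open Pool.Agent.FPX Pool.Agent.FPX.UMP Pool.Agent.FPX.UMQ Pool.Agent.FPX.UXA Pool.Agent.EWD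
open Pool.Agent.FPX.F54 (X1 X2 dX1 dX2 X_lt X_G1 X_G2 sF)
open Pool.Agent.FPX.S54 (de)
open Pool.Agent.FPX.OMB (vm vm_int vm_prob bm_ep)
open Pool.Agent.FPX.OMS (Cert rF cF mk W0)
open Pool.Agent.FPX.CQA (pht)

/-! ### rotations -/

section rot

variable {x y r φ : ℝ}

theorem pr_rot' (hx : x = r * Real.cos φ) (hy : y = r * Real.sin φ) (t : ℝ) :
    F54.pr x y (t + φ) = F54.pr r 0 t := by
  unfold F54.pr
  rw [hx, hy, Real.cos_add, Real.sin_add]
  linear_combination (r * Real.cos t) * Real.sin_sq_add_cos_sq φ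

theorem ce_rot (hx : x = r * Real.cos φ) (hy : y = r * Real.sin φ) : C54.ce x y = C54.ce r 0 := by
  unfold C54.ce
  congr 1
  rw [hx, hy]
  linear_combination (-r ^ 2) * Real.sin_sq_add_cos_sq φ

theorem wt_rot (hx : x = r * Real.cos φ) (hy : y = r * Real.sin φ) (t : ℝ) :
    C54.wt x y (t + φ) = C54.wt r 0 t := by
  unfold C54.wt
  rw [pr_rot' hx hy]

theorem al_rot (hx : x = r * Real.cos φ) (hy : y = r * Real.sin φ) (t : ℝ) :
    C54.al x y (t + φ) = C54.al r 0 t := by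
  unfold C54.al
  rw [wt_rot hx hy, ce_rot hx hy]

theorem sq_rot (hx : x = r * Real.cos φ) (hy : y = r * Real.sin φ) : x ^ 2 + y ^ 2 = r ^ 2 := by
  rw [hx, hy]
  linear_combination (r ^ 2) * Real.sin_sq_add_cos_sq φ

theorem ep_rot (hr0 : 0 ≤ r) (hr1 : r < 1) (hx : x = r * Real.cos φ) (hy : y = r * Real.sin φ) (t : ℝ) :
    C54.ep x y (t + φ) = Complex.exp (φ * I) * C54.ep r 0 t := by
  have h : x ^ 2 + y ^ 2 < 1 := by
    rw [sq_rot hx hy]
    nlinarith
  have h0 : r ^ 2 + (0 : ℝ) ^ 2 < 1 := by nlinarith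
  have e1 := F54.EE_shift h hx hy hr0 t
  have e2 := F54.EE_shift h0 (r := r) (φ := 0) (by simp) (by simp) hr0 t
  rw [add_zero] at e2
  simp only [Complex.ofReal_zero, zero_mul, Complex.exp_zero, one_mul] at e2
  unfold C54.ep
  rw [wt_rot hx hy, e1, e2, mul_div_assoc]

theorem vm_rot (hr0 : 0 ≤ r) (hr1 : r < 1) (hx : x = r * Real.cos φ) (hy : y = r * Real.sin φ)
    {F : ℝ → ℂ} (hF : ∀ t, F (t + 2 * Real.pi) = F t) :
    ∫ t, F t ∂(vm x y) = ∫ t, F (t + φ) ∂(vm r 0) := by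
  have h : x ^ 2 + y ^ 2 < 1 := by
    rw [sq_rot hx hy]
    nlinarith
  have h0 : r ^ 2 + (0 : ℝ) ^ 2 < 1 := by nlinarith
  rw [vm_int h, vm_int h0]
  congr 1
  have hp : Function.Periodic (fun t => F t * (C54.al x y t : ℂ)) (2 * Real.pi) := by
    intro t
    have e : C54.al x y (t + 2 * Real.pi) = C54.al x y t := by
      unfold C54.al C54.wt F54.pr
      rw [Real.cos_add_two_pi, Real.sin_add_two_pi]
    simp only [hF t, e]
  have e1 : ∀ t, F (t + φ) * (C54.al r 0 t : ℂ) = (fun t => F t * (C54.al x y t : ℂ)) (t + φ) := fun t => by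
    simp only
    rw [al_rot hx hy]
  simp only [e1]
  rw [intervalIntegral.integral_comp_add_right (fun t => F t * (C54.al x y t : ℂ))]
  have := hp.intervalIntegral_add_eq φ 0
  rw [zero_add] at this ⊢
  rw [show 2 * Real.pi + φ = φ + 2 * Real.pi by ring]
  exact this.symm

theorem vm_rotR (hr0 : 0 ≤ r) (hr1 : r < 1) (hx : x = r * Real.cos φ) (hy : y = r * Real.sin φ)
    {F : ℝ → ℝ} (hF : ∀ t, F (t + 2 * Real.pi) = F t) :
    ∫ t, F t ∂(vm x y) = ∫ t, F (t + φ) ∂(vm r 0) := by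
  have h1 := vm_rot hr0 hr1 hx hy (F := fun t => (F t : ℂ)) fun t => by rw [hF t]
  rw [integral_complex_ofReal, integral_complex_ofReal] at h1
  exact_mod_cast h1

end rot

/-! ### the state functional -/

/-- `x = T δ` -/
def xT (f : ℝ → ℝ) (t : ℝ) : ℝ := √(rF f) / cF f * de (X1 f) (X2 f) f t

/-- `E = e^{iα}` for a state with `ζ ≥ 0` -/
def Er (f : ℝ → ℝ) (t : ℝ) : ℂ := C54.ep (X1 f) 0 t

/-- `- (3/2) mean (x E³)` -/
def sr (f : ℝ → ℝ) : ℂ := -(3 / 2) * ∫ t, (xT f t : ℂ) * Er f t ^ 3 ∂(vm (X1 f) 0)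

/-- `(E + Φ̃)/2` and `(E - Φ̃)/2` -/
def Sg (q : ℝ) (f : ℝ → ℝ) (t : ℝ) : ℂ := (1 / 2 : ℂ) * (Er f t + pht (Er f) (xT f) q (sr f) t)

def De (q : ℝ) (f : ℝ → ℝ) (t : ℝ) : ℂ := (1 / 2 : ℂ) * (Er f t - pht (Er f) (xT f) q (sr f) t)

/-- the inequality for one state -/
def StateQ (q T : ℝ) (f : ℝ → ℝ) : Prop :=
  (∀ t, Sg q f t ≠ 0) ∧ ∃ lam : ℝ, ∫ t, ‖Sg q f t‖ ∂(vm (X1 f) 0) ≤ lam ∧
    ∫ t, ‖De q f t‖ ^ 2 / ‖Sg q f t‖ ∂(vm (X1 f) 0) ≤ lam ∧
    ‖∫ t, Sg q f t * De q f t / ‖Sg q f t‖ ∂(vm (X1 f) 0)‖ ^ 2 ≤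
      (lam - ∫ t, ‖Sg q f t‖ ∂(vm (X1 f) 0)) *
        (lam - ∫ t, ‖De q f t‖ ^ 2 / ‖Sg q f t‖ ∂(vm (X1 f) 0)) ∧
    (∫ t, ‖Sg q f t‖ ∂(vm (X1 f) 0)) * lam ≤ T

theorem ep_per (x y t : ℝ) : C54.ep x y (t + 2 * Real.pi) = C54.ep x y t := by
  unfold C54.ep C54.EE C54.wt F54.pr
  rw [Real.cos_add_two_pi, Real.sin_add_two_pi]

theorem xT_per {f : ℝ → ℝ} (hf : Ef f) (t : ℝ) : xT f (t + 2 * Real.pi) = xT f t := by
  unfold xT de F54.pr
  rw [hf.per, Real.cos_add_two_pi, Real.sin_add_two_pi]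

theorem cont_xT {f : ℝ → ℝ} (hf : Ef f) : Continuous (xT f) := by
  unfold xT de
  exact continuous_const.mul (hf.lip.continuous.sub (Real.continuous_arcsin.comp F54B.cont_pr))

/-- continuity of the functions of the certificate -/
theorem cont_pht {E : ℝ → ℂ} {X : ℝ → ℝ} (hE : Continuous E) (hX : Continuous X) (q : ℝ) (s : ℂ) :
    Continuous (pht E X q s) := by
  have h1 : Continuous fun t => E t + 2 * q * ((X t : ℂ) * E t ^ 2) :=
    hE.add (continuous_const.mul ((Complex.continuous_ofReal.comp hX).mul (hE.pow 2)))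
  exact (h1.add (continuous_const.mul (Complex.continuous_conj.comp h1))).div_const _

theorem int_of_cont {x y : ℝ} (h : x ^ 2 + y ^ 2 < 1) {E : Type*} [NormedAddCommGroup E]
    {g : ℝ → E} (hg : Continuous g) :
    Integrable g (vm x y) := by
  have := vm_prob h
  obtain ⟨C, hC⟩ := (isCompact_Icc (a := (0 : ℝ)) (b := 2 * Real.pi)).exists_bound_of_continuousOn
    hg.continuousOn
  refine Integrable.of_bound hg.aestronglyMeasurable C ?_
  have h1 : vm x y ≪ volume.restrict (Ioc 0 (2 * Real.pi)) := withDensity_absolutelyContinuous _ _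
  refine h1.ae_le ?_
  filter_upwards [ae_restrict_mem measurableSet_Ioc] with t ht
  exact hC t (Ioc_subset_Icc_self ht)

private theorem alg1 {u s A B P σ : ℂ} (hcu : conj u * u = 1) (hσ : σ = -(u ^ 2 * s))
    (hA : A - σ * conj B = P) : conj u * A + s * conj (conj u * B) = conj u * P := by
  rw [← hA, hσ, map_mul, Complex.conj_conj]
  linear_combination (-(s * u * conj B)) * hcu

/-- **the certificate of `λ_q`** -/
theorem cert_q {q T : ℝ} (H : ∀ f, Ef f → 0 ≤ X1 f → X2 f = 0 → StateQ q T f) :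
    Cert (fun c => 1 / (1 + c)) (fun r => q / √(1 - r)) (fun _ => 0) 0 T := by
  intro f hf K hK hK1 A B hA hB
  obtain ⟨φ, r, hr0, hr1, hrs, hf', h1', h2', hx, hy⟩ := F54.exists_rot hf
  set f' : ℝ → ℝ := fun t => f (t + φ) with hf'def
  set x := X1 f with hxd
  set y := X2 f with hyd
  have hX : x ^ 2 + y ^ 2 < 1 := X_lt hf
  have hprob := vm_prob hX
  obtain ⟨u, hu⟩ : ∃ u : ℂ, u = Complex.exp (φ * I) := ⟨_, rfl⟩
  have hu1 : u * conj u = 1 := by
    rw [hu, ← Complex.exp_conj, ← Complex.exp_add]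
    simp
  have hun : ‖u‖ = 1 := by
    rw [hu]
    exact Complex.norm_exp_ofReal_mul_I φ
  have hζ : S54.YY x y = r * u := by
    rw [hu]
    apply Complex.ext
    · rw [Complex.re_ofReal_mul, Complex.exp_ofReal_mul_I_re]
      exact hx
    · rw [Complex.im_ofReal_mul, Complex.exp_ofReal_mul_I_im]
      exact hy
  have hrF : rF f = r ^ 2 := hrs.symm
  have hrF' : rF f' = r ^ 2 := by
    unfold rF
    rw [h1', h2']
    ring
  have hsr : √(rF f) = r := by rw [hrF, Real.sqrt_sq hr0]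
  have hcc' : cF f' = cF f := by
    unfold cF
    rw [hrF, hrF']
  have hc0 : 0 < cF f := by
    refine Real.sqrt_pos.2 (sub_pos.2 ?_)
    exact hX
  have hc2 : cF f ^ 2 = 1 - r ^ 2 := by
    rw [← hrF]
    exact Real.sq_sqrt (sub_pos.2 hX).le
  -- the frame
  set E : ℝ → ℂ := fun t => conj u * C54.ep x y t with hE
  have hEp : ∀ t, C54.ep x y t = u * E t := fun t => by
    simp only [hE]
    rw [← mul_assoc, hu1, one_mul]
  have hEr : ∀ t, E (t + φ) = Er f' t := fun t => by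
    simp only [hE, Er]
    rw [ep_rot hr0 hr1 hx hy, h1', ← hu, ← mul_assoc, mul_comm (conj u), hu1, one_mul]
  have hxr : ∀ t, xT f (t + φ) = xT f' t := fun t => by
    unfold xT de
    rw [hrF, hrF', hcc', ← hxd, ← hyd, pr_rot' hx hy, h1', h2']
  have hEper : ∀ t, E (t + 2 * Real.pi) = E t := fun t => by
    simp only [hE, ep_per]
  have cE : Continuous E := continuous_const.mul (C54.cont_ep hX)
  have cX : Continuous (xT f) := cont_xT hf
  have hE1 : ∀ t, ‖E t‖ = 1 := fun t => by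
    simp only [hE, norm_mul, Complex.norm_conj, hun, one_mul]
    exact C54.norm_ep hX t
  -- the number `s`
  have hs : sr f' = -(3 / 2) * ∫ t, (xT f t : ℂ) * E t ^ 3 ∂(vm x y) := by
    unfold sr
    rw [vm_rot hr0 hr1 hx hy (F := fun t => (xT f t : ℂ) * E t ^ 3) fun t => by
      simp only [xT_per hf, hEper], h1']
    simp only [hEr, hxr]
  set s := sr f' with hsd
  -- the relation to `σ`
  have hσ : sF f = -(u ^ 2 * s) := by
    have e1 : sF f = (3 / 4 : ℂ) * (conj (⟨x, y⟩ : ℂ) / (C54.ce x y : ℂ)) * C54.Cm 3 x y f := rfl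
    have e2 : C54.Cm 3 x y f = 2 * ∫ t, (de x y f t : ℂ) * C54.ep x y t ^ 3 ∂(vm x y) := by
      rw [S54.Cm_eq hX 3 f, OMS.ME_vm hX 3]
    have e3 : (⟨x, y⟩ : ℂ) = r * u := hζ
    have e4 : C54.ce x y = cF f := OMS.cF_eq f
    have e5 : ∫ t, (xT f t : ℂ) * E t ^ 3 ∂(vm x y) =
        ((r / cF f : ℝ) : ℂ) * conj u ^ 3 * ∫ t, (de x y f t : ℂ) * C54.ep x y t ^ 3 ∂(vm x y) := by
      rw [← integral_const_mul]
      congr 1
      funext t
      simp only [xT, hE, hsr]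
      push_cast
      ring
    rw [hs, e1, e2, e3, e4, e5, map_mul, Complex.conj_ofReal]
    have hcC : (cF f : ℂ) ≠ 0 := Complex.ofReal_ne_zero.2 hc0.ne'
    push_cast
    have e6 : u ^ 2 * conj u ^ 3 = conj u := by
      calc u ^ 2 * conj u ^ 3 = (u * conj u) ^ 2 * conj u := by ring
        _ = conj u := by rw [hu1, one_pow, one_mul]
    field_simp
    linear_combination (-(4 : ℂ) * r * ∫ t, (de x y f t : ℂ) * C54.ep x y t ^ 3 ∂(vm x y)) * e6
  have hsn : ‖s‖ < 1 := by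
    have h1 := F54.sF_lt hf
    rw [hσ, norm_neg, norm_mul, norm_pow, hun, one_pow, one_mul] at h1
    linarith
  -- the functional at the rotated state
  have hpr : ∀ t, pht E (xT f) q s (t + φ) = pht (Er f') (xT f') q s t := fun t => by
    unfold pht
    rw [hEr, hxr]
  have hpper : ∀ t, pht E (xT f) q s (t + 2 * Real.pi) = pht E (xT f) q s t := fun t => by
    unfold pht
    rw [hEper, xT_per hf]
  have hS : ∀ t, (1 / 2 : ℂ) * (E (t + φ) + pht E (xT f) q s (t + φ)) = Sg q f' t := fun t => by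
    rw [hEr, hpr]
    rfl
  have hD : ∀ t, (1 / 2 : ℂ) * (E (t + φ) - pht E (xT f) q s (t + φ)) = De q f' t := fun t => by
    rw [hEr, hpr]
    rfl
  obtain ⟨hne, lam, l1, l2, l3, l4⟩ := H f' hf' (by rw [h1']; exact hr0) h2'
  rw [h1'] at l1 l2 l3 l4
  have i1 : ∫ t, ‖(1 / 2 : ℂ) * (E t + pht E (xT f) q s t)‖ ∂(vm x y) = ∫ t, ‖Sg q f' t‖ ∂(vm r 0) := by
    rw [vm_rotR hr0 hr1 hx hy (F := fun t => ‖(1 / 2 : ℂ) * (E t + pht E (xT f) q s t)‖) fun t => by
      simp only [hEper, hpper]]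
    simp only [hS]
  have i2 : ∫ t, ‖(1 / 2 : ℂ) * (E t - pht E (xT f) q s t)‖ ^ 2 / ‖(1 / 2 : ℂ) * (E t + pht E (xT f) q s t)‖
      ∂(vm x y) = ∫ t, ‖De q f' t‖ ^ 2 / ‖Sg q f' t‖ ∂(vm r 0) := by
    rw [vm_rotR hr0 hr1 hx hy (F := fun t => ‖(1 / 2 : ℂ) * (E t - pht E (xT f) q s t)‖ ^ 2
      / ‖(1 / 2 : ℂ) * (E t + pht E (xT f) q s t)‖) fun t => by simp only [hEper, hpper]]
    simp only [hS, hD]
  have i3 : ∫ t, (1 / 2 : ℂ) * (E t + pht E (xT f) q s t) * ((1 / 2 : ℂ) * (E t - pht E (xT f) q s t))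
      / ‖(1 / 2 : ℂ) * (E t + pht E (xT f) q s t)‖ ∂(vm x y) =
      ∫ t, Sg q f' t * De q f' t / ‖Sg q f' t‖ ∂(vm r 0) := by
    rw [vm_rot hr0 hr1 hx hy (F := fun t => (1 / 2 : ℂ) * (E t + pht E (xT f) q s t)
      * ((1 / 2 : ℂ) * (E t - pht E (xT f) q s t)) / ‖(1 / 2 : ℂ) * (E t + pht E (xT f) q s t)‖) fun t => by
        simp only [hEper, hpper]]
    simp only [hS, hD]
  -- the bound
  have cP : Continuous (pht E (xT f) q s) := cont_pht cE cX q s
  have hne' : ∀ t, (1 / 2 : ℂ) * (E t + pht E (xT f) q s t) ≠ 0 := fun t => by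
    have := hne (t - φ)
    rwa [← hS, sub_add_cancel] at this
  have cS : Continuous fun t => (1 / 2 : ℂ) * (E t + pht E (xT f) q s t) := continuous_const.mul (cE.add cP)
  have cD : Continuous fun t => (1 / 2 : ℂ) * (E t - pht E (xT f) q s t) := continuous_const.mul (cE.sub cP)
  set A' : ℂ := conj u * A with hA'
  set B' : ℂ := conj u * B with hB'
  have eB : B = u * B' := by
    rw [hB', ← mul_assoc, hu1, one_mul]
  have eA : A = u * A' := by
    rw [hA', ← mul_assoc, hu1, one_mul]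
  have hcu : conj u * u = 1 := by rw [mul_comm]; exact hu1
  have a1 : A' + s * conj B' = ∫ t, E t * conj (K t) ∂(vm x y) := by
    have e1 : ∫ t, E t * conj (K t) ∂(vm x y) = conj u * ∫ t, C54.ep x y t * conj (K t) ∂(vm x y) := by
      rw [← integral_const_mul]
      congr 1
      funext t
      simp only [hE]
      ring
    rw [e1]
    exact alg1 hcu hσ hA
  have a2 : B' + s * conj A' = ∫ t, E t * K t ∂(vm x y) := by
    have e1 : ∫ t, E t * K t ∂(vm x y) = conj u * ∫ t, C54.ep x y t * K t ∂(vm x y) := by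
      rw [← integral_const_mul]
      congr 1
      funext t
      simp only [hE]
      ring
    rw [e1]
    exact alg1 hcu hσ hB
  have hss : s * conj s = ((‖s‖ ^ 2 : ℝ) : ℂ) := by
    rw [Complex.mul_conj, Complex.normSq_eq_norm_sq]
  have hDn : ((1 - ‖s‖ ^ 2 : ℝ) : ℂ) ≠ 0 := by
    refine Complex.ofReal_ne_zero.2 ?_
    have := norm_nonneg s
    nlinarith
  have hDs : ((1 - ‖s‖ ^ 2 : ℝ) : ℂ) = 1 - s * conj s := by
    rw [hss]
    push_cast
    rfl
  have b1 : A' = ((∫ t, E t * conj (K t) ∂(vm x y)) - s * conj (∫ t, E t * K t ∂(vm x y)))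
      / ((1 - ‖s‖ ^ 2 : ℝ) : ℂ) := by
    rw [eq_div_iff hDn, ← a1, ← a2, hDs]
    simp only [map_add, map_mul, Complex.conj_conj]
    ring
  have b2 : B' = ((∫ t, E t * K t ∂(vm x y)) - s * conj (∫ t, E t * conj (K t) ∂(vm x y)))
      / ((1 - ‖s‖ ^ 2 : ℝ) : ℂ) := by
    rw [eq_div_iff hDn, ← a1, ← a2, hDs]
    simp only [map_add, map_mul, Complex.conj_conj]
    ring
  have hlam : ∀ ξ η : ℂ, (∫ t, ‖(1 / 2 : ℂ) * (E t + pht E (xT f) q s t)‖ ∂(vm x y)) * ‖ξ‖ ^ 2
      + (∫ t, ‖(1 / 2 : ℂ) * (E t - pht E (xT f) q s t)‖ ^ 2 / ‖(1 / 2 : ℂ) * (E t + pht E (xT f) q s t)‖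
          ∂(vm x y)) * ‖η‖ ^ 2
      + 2 * (ξ * conj η * ∫ t, (1 / 2 : ℂ) * (E t + pht E (xT f) q s t)
        * ((1 / 2 : ℂ) * (E t - pht E (xT f) q s t)) / ‖(1 / 2 : ℂ) * (E t + pht E (xT f) q s t)‖ ∂(vm x y)).re
      ≤ lam * (‖ξ‖ ^ 2 + ‖η‖ ^ 2) := by
    intro ξ η
    rw [i1, i2, i3]
    exact CQA.form_two le_rfl l1 l2 l3 ξ η
  have key := CQA.omega_le (μ := vm x y) (E := E) (k := K) (X := xT f) (q := q) (s := s) hsn
    (Eventually.of_forall hK1) hK.aestronglyMeasurable (int_of_cont hX cE)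
    (int_of_cont hX ((Complex.continuous_ofReal.comp cX).mul (cE.pow 2)))
    (Eventually.of_forall hne')
    (int_of_cont hX ((cD.norm.pow 2).div cS.norm fun t => (norm_ne_zero_iff.2 (hne' t)))) hlam b1 b2
  rw [i1] at key
  refine le_trans (le_of_eq ?_) (key.trans l4)
  -- the two values agree
  have hr0' : rF f < 1 := hX
  have w1 : deriv (fun c : ℝ => 1 / (1 + c)) (cF f) = -(1 / (1 + cF f) ^ 2) := by
    have h1 : (1 : ℝ) + cF f ≠ 0 := by positivity
    have h2 : HasDerivAt (fun c : ℝ => 1 / (1 + c)) (-(1 / (1 + cF f) ^ 2)) (cF f) := by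
      have h3 := ((hasDerivAt_id (cF f)).const_add 1).inv h1
      simp only [id, one_div] at h3 ⊢
      refine h3.congr_deriv ?_
      field_simp
    exact h2.deriv
  have w2 : deriv (fun r : ℝ => q / √(1 - r)) (rF f) = q / (2 * cF f ^ 3) := by
    have h1 : HasDerivAt (fun r : ℝ => √(1 - r)) ((-1) / (2 * √(1 - rF f))) (rF f) :=
      ((hasDerivAt_id (rF f)).const_sub 1).sqrt (sub_pos.2 hr0').ne'
    have h2 : √(1 - rF f) = cF f := rfl
    have h3 := (hasDerivAt_const (rF f) q).div h1 (by rw [h2]; exact hc0.ne')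
    rw [h2] at h3
    refine (h3.congr_deriv ?_).deriv
    field_simp
    ring
  have w3 : W0 (2 * cF f * (1 / (1 + cF f)) - rF f * deriv (fun c : ℝ => 1 / (1 + c)) (cF f))
      (q / √(1 - rF f)) (deriv (fun r : ℝ => q / √(1 - r)) (rF f)) 0 (deriv (fun _ : ℝ => (0 : ℝ)) (rF f)) f
      = 1 := by
    rw [w1, w2]
    unfold W0
    have h2 : √(1 - rF f) = cF f := rfl
    rw [h2, deriv_const, hrF]
    have h3 : r ^ 2 = 1 - cF f ^ 2 := by rw [hc2]; ring
    rw [h3]
    have h1 : (1 : ℝ) + cF f ≠ 0 := by positivity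
    have h5 : 2 * cF f * (q / (2 * cF f ^ 3)) - q / cF f / cF f + 0 / cF f = 0 := by
      field_simp
      ring
    rw [h5]
    field_simp
    ring
  have mK : Measurable fun t => (starRingEnd ℂ) (K t) := Complex.continuous_conj.measurable.comp hK
  have e1 : ∀ t, conj (mk (q / cF f) 0 f t) = q * u * ((xT f t : ℂ) * E t ^ 2) := fun t => by
    unfold OMS.mk
    rw [← hxd, ← hyd, hζ, hEp t]
    simp only [xT, hsr, map_mul, map_add, map_pow, Complex.conj_ofReal, Complex.conj_conj]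
    push_cast
    have : ∀ z : ℂ, conj u * (u * z) ^ 2 = u * z ^ 2 * (conj u * u) := fun z => by ring
    rw [zero_mul, add_zero]
    rw [← hxd, ← hyd]
    linear_combination ((de x y f t : ℂ) * (q / cF f) * r * u * E t ^ 2) * hcu
  have e2 : ∫ t, mk (q / cF f) 0 f t * K t ∂(vm x y) =
      conj (q * u * ∫ t, (xT f t : ℂ) * E t ^ 2 * conj (K t) ∂(vm x y)) := by
    rw [← integral_const_mul, ← integral_conj]
    congr 1
    funext t
    have := e1 t
    have h2 : mk (q / cF f) 0 f t = conj (q * u * ((xT f t : ℂ) * E t ^ 2)) := by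
      rw [← this, Complex.conj_conj]
    rw [h2]
    simp only [map_mul, map_pow, Complex.conj_conj, Complex.conj_ofReal]
    ring
  have e3 : ∫ t, mk (q / cF f) 0 f t * conj (K t) ∂(vm x y) =
      conj (q * u * ∫ t, (xT f t : ℂ) * E t ^ 2 * K t ∂(vm x y)) := by
    rw [← integral_const_mul, ← integral_conj]
    congr 1
    funext t
    have := e1 t
    have h2 : mk (q / cF f) 0 f t = conj (q * u * ((xT f t : ℂ) * E t ^ 2)) := by
      rw [← this, Complex.conj_conj]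
    rw [h2]
    simp only [map_mul, map_pow, Complex.conj_ofReal]
    ring
  have h2 : √(1 - rF f) = cF f := rfl
  simp only [] at w3 ⊢
  rw [w3, one_mul, mul_zero, zero_mul, add_zero]
  rw [h2, e2, e3, eA, eB]
  have n1 : ∀ z : ℂ, ‖u * z‖ = ‖z‖ := fun z => by rw [norm_mul, hun, one_mul]
  rw [n1, n1]
  generalize ∫ t, (xT f t : ℂ) * E t ^ 2 * conj (K t) ∂(vm x y) = U
  generalize ∫ t, (xT f t : ℂ) * E t ^ 2 * K t ∂(vm x y) = V
  have r1 : ∀ a z : ℂ, (u * a * conj (q * u * z)).re = q * (conj a * z).re := fun a z => by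
    have : u * a * conj (q * u * z) = (q : ℂ) * conj (conj a * z) * (u * conj u) := by
      simp only [map_mul, Complex.conj_ofReal, Complex.conj_conj]
      ring
    rw [this, hu1, mul_one, Complex.re_ofReal_mul, Complex.conj_re]
  rw [r1, r1, Complex.sub_re]
  ring

/-- **the area bound from the state inequality** -/
theorem area_q {q T : ℝ} (H : ∀ f, Ef f → 0 ≤ X1 f → X2 f = 0 → StateQ q T f)
    (M : Type) [MetricSpace M] [CompactSpace M] (γ : ℝ → M) (C : Calc M γ) (hγ : Bd γ) :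
    2 * Real.pi ≤ T * C.vol := by
  have hW : ContDiffOn ℝ 1 (fun c : ℝ => 1 / (1 + c)) (Ioi 0) :=
    contDiffOn_const.div (contDiffOn_const.add contDiffOn_id) fun c hc => by
      have : (0 : ℝ) < c := hc
      positivity
  have hW0 : ContinuousOn (fun c : ℝ => 1 / (1 + c)) (Ici 0) :=
    continuousOn_const.div (continuousOn_const.add continuousOn_id) fun c hc => by
      have : (0 : ℝ) ≤ c := hc
      positivity
  have hQ : ContDiffOn ℝ 1 (fun r : ℝ => q / √(1 - r)) (Iio 1) := by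
    refine contDiffOn_const.div ((contDiffOn_const.sub contDiffOn_id).sqrt fun r hr => ?_) fun r hr => ?_
    · exact (sub_pos.2 (mem_Iio.1 hr)).ne'
    · exact (Real.sqrt_pos.2 (sub_pos.2 (mem_Iio.1 hr))).ne'
  have hQ0 : Tendsto (fun c : ℝ => q / √(1 - (1 - c ^ 2)) * c ^ 2) (𝓝[>] 0) (𝓝 0) := by
    have h1 : Tendsto (fun c : ℝ => q * c) (𝓝[>] 0) (𝓝 0) := by
      have : Tendsto (fun c : ℝ => q * c) (𝓝 0) (𝓝 (q * 0)) := (continuous_const.mul continuous_id).tendsto 0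
      rw [mul_zero] at this
      exact this.mono_left nhdsWithin_le_nhds
    refine h1.congr' ?_
    filter_upwards [self_mem_nhdsWithin] with c hc
    have hc' : (0 : ℝ) < c := hc
    rw [sub_sub_cancel, Real.sqrt_sq hc'.le]
    field_simp
  have hZ0 : Tendsto (fun c : ℝ => (fun _ : ℝ => (0 : ℝ)) (1 - c ^ 2) * c ^ 2) (𝓝[>] 0) (𝓝 0) := by
    simp
  have := OMS.area5 (W := fun c : ℝ => 1 / (1 + c)) hW hW0 hQ contDiffOn_const hQ0 hZ0 (cert_q H) M γ C hγ
  simpa using this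

end Pool.Agent.FPX.CERQ
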