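import Pool.Agent.FPX.ALX
import Pool.Agent.FPX.CERQ

/-
ALY (helper44): the states of CERQ (`ζ = s ≥ 0`) in the visual angle: they belong to the class `St s`,
and integrals over `vm s 0` are means over the angle.
-/

open MeasureTheory Set Filter Topology Real
open scoped NNReal ComplexConjugate

noncomputable section

namespace Pool.Agent.FPX.ALY

open Pool.Agent.FPX.ALX
open Pool.Agent.FPX.UMP (Ef)
open Pool.Agent.FPX.F54 (X1 X2 X_lt X_G1 X_G2 G1 G2 kk pr)
open Pool.Agent.FPX.S54 (de)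
open Pool.Agent.FPX.OMB (vm vm_int)
open Pool.Agent.FPX.OMS (rF cF)
open Pool.Agent.FPX.CERQ (xT Er sr)

variable {s : ℝ}

theorem pr_s (t : ℝ) : pr s 0 t = s * cos t := by
  unfold pr
  ring

theorem sq_lt (h0 : 0 ≤ s) (h1 : s < 1) : s ^ 2 + (0 : ℝ) ^ 2 < 1 := by nlinarith

theorem ce_s : C54.ce s 0 = cs s := by
  unfold C54.ce cs
  congr 1
  ring

theorem wt_tA (h0 : 0 ≤ s) (h1 : s < 1) (a : ℝ) : C54.wt s 0 (tA s a) = cs s / √(D2 s a) := by
  unfold C54.wt
  rw [pr_s, sqrt_p h0 h1]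

/-- the direction is `e^{ia}` -/
theorem ep_tA (h0 : 0 ≤ s) (h1 : s < 1) (a : ℝ) : C54.ep s 0 (tA s a) = Complex.exp (a * Complex.I) := by
  have hc := cs_pos h0 h1
  have hD := sqrt_pos.2 (D2_pos h0 h1 a)
  have h2 := cs_sq h0 h1
  have e : Complex.exp (a * Complex.I) = ⟨cos a, sin a⟩ := by
    apply Complex.ext
    · rw [Complex.exp_ofReal_mul_I_re]
    · rw [Complex.exp_ofReal_mul_I_im]
  have e1 : C54.EE s 0 (tA s a) = ⟨cs s * cos a / √(D2 s a), cs s * sin a / √(D2 s a)⟩ := by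
    unfold C54.EE
    rw [pr_s, ce_s, cos_tA h0 h1, sin_tA h0 h1]
    have h3 : (1 + cs s) ≠ 0 := by positivity
    apply Complex.ext
    · simp only
      field_simp
      linear_combination (-cos a) * h2
    · simp only
      ring
  unfold C54.ep
  rw [wt_tA h0 h1, e1, e]
  apply Complex.ext
  · rw [Complex.div_ofReal_re]
    field_simp
  · rw [Complex.div_ofReal_im]
    field_simp

theorem al_tA (h0 : 0 ≤ s) (h1 : s < 1) (a : ℝ) : C54.al s 0 (tA s a) = D2 s a / cs s := by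
  have hc := cs_pos h0 h1
  have hD := D2_pos h0 h1 a
  unfold C54.al
  rw [wt_tA h0 h1, ce_s, div_pow, sq_sqrt hD.le]
  field_simp

/-- **integrals over `vm s 0` are means over the visual angle** -/
theorem vm_tA (h0 : 0 ≤ s) (h1 : s < 1) {G : ℝ → ℂ} (hG : Continuous G) :
    ∫ t, G t ∂(vm s 0) = (((2 * π)⁻¹ : ℝ) : ℂ) * ∫ a in (0 : ℝ)..(2 * π), G (tA s a) := by
  have h := sq_lt h0 h1
  have hc := cs_pos h0 h1
  rw [vm_int h]
  have c1 : Continuous fun t => G t * (C54.al s 0 t : ℂ) :=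
    hG.mul (Complex.continuous_ofReal.comp (C54.cont_al h))
  rw [← int_tA h0 h1 c1, one_div]
  congr 1
  refine intervalIntegral.integral_congr fun a _ => ?_
  have hD := D2_pos h0 h1 a
  simp only [al_tA h0 h1, Complex.real_smul]
  push_cast
  have hc' : (cs s : ℂ) ≠ 0 := by exact_mod_cast hc.ne'
  have hD' : (D2 s a : ℂ) ≠ 0 := by exact_mod_cast hD.ne'
  field_simp

theorem vm_tAR (h0 : 0 ≤ s) (h1 : s < 1) {G : ℝ → ℝ} (hG : Continuous G) :
    ∫ t, G t ∂(vm s 0) = QST.mn fun a => G (tA s a) := by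
  have h := vm_tA h0 h1 (G := fun t => (G t : ℂ)) (Complex.continuous_ofReal.comp hG)
  rw [integral_complex_ofReal, intervalIntegral.integral_ofReal] at h
  unfold QST.mn
  exact_mod_cast h

/-! ### the states -/

variable {f : ℝ → ℝ}

theorem G_cos (h0 : 0 ≤ s) (h1 : s < 1) (hf : LipschitzWith 1 f) (hG : G1 s 0 f = 0) :
    ∫ a in (0 : ℝ)..(2 * π), Xa s f a * cos a = 0 := by
  have hc := cs_pos h0 h1
  have hcont : Continuous fun t => cos t * kk (pr s 0 t) (f t) := by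
    simp only [pr_s, kk]
    have hp : ∀ t, √(1 - (s * cos t) ^ 2) ^ 3 ≠ 0 := fun t => by
      have : 0 < 1 - (s * cos t) ^ 2 := by
        have := cos_sq_le_one t
        have h3 : s ^ 2 < 1 := by nlinarith
        nlinarith [sq_nonneg s, mul_le_mul_of_nonneg_left this (sq_nonneg s)]
      have := sqrt_pos.2 this
      positivity
    refine continuous_cos.mul (Continuous.div ?_ (by fun_prop) hp)
    exact hf.continuous.sub (continuous_arcsin.comp (by fun_prop))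
  unfold G1 at hG
  rw [← int_tA h0 h1 hcont] at hG
  have e : ∫ a in (0 : ℝ)..(2 * π), Xa s f a * cos a
      = (s * cs s) * ∫ a in (0 : ℝ)..(2 * π), (cs s / D2 s a) • (cos (tA s a) * kk (pr s 0 (tA s a)) (f (tA s a))) := by
    rw [← intervalIntegral.integral_const_mul]
    refine intervalIntegral.integral_congr fun a _ => ?_
    have hD := D2_pos h0 h1 a
    have hD' := sqrt_pos.2 hD
    have e2 : √(D2 s a) ^ 2 = D2 s a := sq_sqrt hD.le
    simp only [smul_eq_mul, kk, pr_s, sqrt_p h0 h1]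
    unfold Xa FA
    rw [cos_tA h0 h1]
    set A := f (tA s a) - arcsin (s * (cos a / √(D2 s a)))
    field_simp
    rw [e2]
  rw [e, hG, mul_zero]

theorem G_sin (h0 : 0 ≤ s) (h1 : s < 1) (hf : LipschitzWith 1 f) (hG : G2 s 0 f = 0) :
    ∫ a in (0 : ℝ)..(2 * π), Xa s f a * sin a = 0 := by
  have hc := cs_pos h0 h1
  have hcont : Continuous fun t => sin t * kk (pr s 0 t) (f t) := by
    simp only [pr_s, kk]
    have hp : ∀ t, √(1 - (s * cos t) ^ 2) ^ 3 ≠ 0 := fun t => by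
      have : 0 < 1 - (s * cos t) ^ 2 := by
        have := cos_sq_le_one t
        have h3 : s ^ 2 < 1 := by nlinarith
        nlinarith [sq_nonneg s, mul_le_mul_of_nonneg_left this (sq_nonneg s)]
      have := sqrt_pos.2 this
      positivity
    refine continuous_sin.mul (Continuous.div ?_ (by fun_prop) hp)
    exact hf.continuous.sub (continuous_arcsin.comp (by fun_prop))
  unfold G2 at hG
  rw [← int_tA h0 h1 hcont] at hG
  have e : ∫ a in (0 : ℝ)..(2 * π), Xa s f a * sin a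
      = s * ∫ a in (0 : ℝ)..(2 * π), (cs s / D2 s a) • (sin (tA s a) * kk (pr s 0 (tA s a)) (f (tA s a))) := by
    rw [← intervalIntegral.integral_const_mul]
    refine intervalIntegral.integral_congr fun a _ => ?_
    have hD := D2_pos h0 h1 a
    have hD' := sqrt_pos.2 hD
    have e2 : √(D2 s a) ^ 2 = D2 s a := sq_sqrt hD.le
    simp only [smul_eq_mul, kk, pr_s, sqrt_p h0 h1]
    unfold Xa FA
    rw [sin_tA h0 h1]
    set A := f (tA s a) - arcsin (s * cos (tA s a))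
    field_simp
    rw [e2]
  rw [e, hG, mul_zero]

theorem s_lt (hf : Ef f) (h0 : 0 ≤ X1 f) (h2 : X2 f = 0) : X1 f < 1 := by
  have := X_lt hf
  rw [h2] at this
  nlinarith

/-- **the state is in the class** -/
theorem st (hf : Ef f) (h0 : 0 ≤ X1 f) (h2 : X2 f = 0) : St (X1 f) (Xa (X1 f) f) := by
  have h1 := s_lt hf h0 h2
  have e1 := X_G1 hf
  have e2 := X_G2 hf
  rw [h2] at e1 e2
  have h3 := ae_Xa h0 h1 hf.lip
  exact ⟨lip_Xa h0 h1 hf.lip, Xa_pi hf.odd, h3.mono fun a h => h.1, h3.mono fun a h => h.2,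
    G_cos h0 h1 hf.lip e1, G_sin h0 h1 hf.lip e2⟩

theorem xT_tA (hf : Ef f) (h0 : 0 ≤ X1 f) (h2 : X2 f = 0) (a : ℝ) :
    xT f (tA (X1 f) a) = Xa (X1 f) f a := by
  unfold xT Xa FA de
  have e1 : rF f = X1 f ^ 2 := by
    unfold rF
    rw [h2]
    ring
  have e2 : cF f = cs (X1 f) := by
    unfold cF cs
    rw [e1]
  rw [e2, e1, sqrt_sq h0, h2, pr_s]

theorem Er_tA (hf : Ef f) (h0 : 0 ≤ X1 f) (h2 : X2 f = 0) (a : ℝ) :
    Er f (tA (X1 f) a) = Complex.exp (a * Complex.I) := by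
  unfold Er
  exact ep_tA h0 (s_lt hf h0 h2) a

/-- means of functions of the direction and of `x` -/
theorem vm_mean (hf : Ef f) (h0 : 0 ≤ X1 f) (h2 : X2 f = 0) {Φ : ℂ → ℝ → ℂ}
    (hΦ : Continuous fun p : ℂ × ℝ => Φ p.1 p.2) :
    ∫ t, Φ (Er f t) (xT f t) ∂(vm (X1 f) 0)
      = (((2 * π)⁻¹ : ℝ) : ℂ) * ∫ a in (0 : ℝ)..(2 * π), Φ (Complex.exp (a * Complex.I)) (Xa (X1 f) f a) := by
  have h1 := s_lt hf h0 h2
  have c1 : Continuous fun t => Φ (Er f t) (xT f t) :=
    hΦ.comp ((C54.cont_ep (sq_lt h0 h1)).prodMk (CERQ.cont_xT hf))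
  rw [vm_tA h0 h1 c1]
  simp only [xT_tA hf h0 h2, Er_tA hf h0 h2]

theorem vm_meanR (hf : Ef f) (h0 : 0 ≤ X1 f) (h2 : X2 f = 0) {Φ : ℂ → ℝ → ℝ}
    (hΦ : Continuous fun p : ℂ × ℝ => Φ p.1 p.2) :
    ∫ t, Φ (Er f t) (xT f t) ∂(vm (X1 f) 0) = QST.mn fun a : ℝ => Φ (Complex.exp (a * Complex.I)) (Xa (X1 f) f a) := by
  have h1 := s_lt hf h0 h2
  have c1 : Continuous fun t => Φ (Er f t) (xT f t) :=
    hΦ.comp ((C54.cont_ep (sq_lt h0 h1)).prodMk (CERQ.cont_xT hf))
  rw [vm_tAR h0 h1 c1]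
  simp only [xT_tA hf h0 h2, Er_tA hf h0 h2]

/-- the third harmonic -/
theorem sr_eq (hf : Ef f) (h0 : 0 ≤ X1 f) (h2 : X2 f = 0) :
    sr f = ⟨-(3 / 4) * QST.ca (Xa (X1 f) f) 1, -(3 / 4) * QST.sa (Xa (X1 f) f) 1⟩ := by
  have h1 := s_lt hf h0 h2
  have hs := st hf h0 h2
  unfold sr
  rw [vm_mean hf h0 h2 (Φ := fun e x => (x : ℂ) * e ^ 3) (by fun_prop)]
  have e : ∀ a : ℝ, ((Xa (X1 f) f a : ℝ) : ℂ) * Complex.exp (a * Complex.I) ^ 3
      = ((Xa (X1 f) f a * cos ((2 * (1 : ℕ) + 1) * a) : ℝ) : ℂ)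
        + ((Xa (X1 f) f a * sin ((2 * (1 : ℕ) + 1) * a) : ℝ) : ℂ) * Complex.I := by
    intro a
    rw [← Complex.exp_nat_mul]
    have : ((3 : ℕ) : ℂ) * (a * Complex.I) = (((2 * (1 : ℕ) + 1) * a : ℝ) : ℂ) * Complex.I := by
      push_cast
      ring
    rw [this, Complex.exp_mul_I, ← Complex.ofReal_cos, ← Complex.ofReal_sin]
    push_cast
    ring
  simp only [e]
  have i1 : IntervalIntegrable (fun a => ((Xa (X1 f) f a * cos ((2 * (1 : ℕ) + 1) * a) : ℝ) : ℂ)) volume 0 (2 * π) :=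
    (Complex.continuous_ofReal.comp (hs.cont.mul (by fun_prop))).intervalIntegrable _ _
  have i2 : IntervalIntegrable (fun a => ((Xa (X1 f) f a * sin ((2 * (1 : ℕ) + 1) * a) : ℝ) : ℂ) * Complex.I) volume
      0 (2 * π) := ((Complex.continuous_ofReal.comp (hs.cont.mul (by fun_prop))).mul continuous_const).intervalIntegrable _ _
  rw [intervalIntegral.integral_add i1 i2, intervalIntegral.integral_mul_const, intervalIntegral.integral_ofReal,
    intervalIntegral.integral_ofReal]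
  unfold QST.ca QST.sa
  have hpi : π ≠ 0 := pi_ne_zero
  apply Complex.ext
  · simp
    field_simp
    ring
  · simp
    field_simp
    ring

end Pool.Agent.FPX.ALY
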