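import Mathlib
import Pool.Agent.FPX.Defs
import Pool.Agent.FPX.SPH
import Pool.Agent.FPX.VEC

/-
FPX, MOM (helper30): moments of the sphere of fourth order and with the azimuthal weight
`1 / (1 - b cos 2ψ)`, needed for the weighted pointwise inequality (EXB).
-/

open MeasureTheory Set Filter Topology
open scoped ENNReal NNReal

noncomputable section

namespace Pool.Agent.FPX

open Pool.Agent.EWD

/-! ### the azimuthal integral -/

/-- `α cos² + β sin²` -/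
private def AA (α β ψ : ℝ) : ℝ := α * Real.cos ψ ^ 2 + β * Real.sin ψ ^ 2

private theorem AA_pos {α β : ℝ} (hα : 0 < α) (hβ : 0 < β) (ψ : ℝ) : 0 < AA α β ψ := by
  unfold AA
  have h := Real.sin_sq_add_cos_sq ψ
  rcases eq_or_ne (Real.cos ψ) 0 with h1 | h1
  · rw [h1] at h ⊢
    have : Real.sin ψ ^ 2 = 1 := by linarith
    rw [this]
    linarith
  · have h2 : 0 < Real.cos ψ ^ 2 := by positivity
    have h3 : 0 ≤ Real.sin ψ ^ 2 := sq_nonneg _
    nlinarith [mul_pos hα h2, mul_nonneg hβ.le h3]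

private theorem rad_lin {a : ℝ} (ha : 0 < a) :
    ∫⁻ r in Ioi (0 : ℝ), ENNReal.ofReal (r * Real.exp (-(a * r ^ 2))) = ENNReal.ofReal (1 / (2 * a)) := by
  have h := integral_rpow_mul_exp_neg_mul_rpow (p := 2) (q := 1) (b := a) two_pos (by norm_num) ha
  have h2 : ∫ r in Ioi (0 : ℝ), r * Real.exp (-(a * r ^ 2)) =
      ∫ x in Ioi (0 : ℝ), x ^ (1 : ℝ) * Real.exp (-a * x ^ (2 : ℝ)) := by
    refine setIntegral_congr_fun measurableSet_Ioi (fun x _ => ?_)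
    simp
  have hi : IntegrableOn (fun r : ℝ => r * Real.exp (-(a * r ^ 2))) (Ioi 0) := by
    have h3 := integrable_mul_exp_neg_mul_sq ha
    refine (h3.integrableOn (s := Ioi 0)).congr_fun (fun x _ => ?_) measurableSet_Ioi
    simp only
    rw [neg_mul]
  have h4 : a ^ (-(1 + 1 : ℝ) / 2) * (1 / 2) * Real.Gamma ((1 + 1) / 2) = 1 / (2 * a) := by
    norm_num
    rw [Real.rpow_neg_one]
  rw [h4] at h
  rw [← h, ← h2, ofReal_integral_eq_lintegral_ofReal hi]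
  filter_upwards [ae_restrict_mem measurableSet_Ioi] with r hr
  have : (0 : ℝ) < r := hr
  simp only [Pi.zero_apply]
  positivity

/-- the azimuthal integral -/
private theorem azi {α β : ℝ} (hα : 0 < α) (hβ : 0 < β) :
    ∫⁻ ψ in Ioo (-Real.pi) Real.pi, ENNReal.ofReal (1 / AA α β ψ) =
      ENNReal.ofReal (2 * Real.pi / √(α * β)) := by
  -- the Gaussian integral in two ways
  have h1 : ∫⁻ p : ℝ × ℝ, ENNReal.ofReal (Real.exp (-(α * p.1 ^ 2 + β * p.2 ^ 2))) =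
      ENNReal.ofReal (Real.pi / √(α * β)) := by
    have e : ∀ p : ℝ × ℝ, ENNReal.ofReal (Real.exp (-(α * p.1 ^ 2 + β * p.2 ^ 2))) =
        ENNReal.ofReal (Real.exp (-α * p.1 ^ 2)) * ENNReal.ofReal (Real.exp (-β * p.2 ^ 2)) := by
      intro p
      rw [← ENNReal.ofReal_mul (Real.exp_pos _).le, ← Real.exp_add]
      congr 2
      ring
    have g : ∀ c : ℝ, 0 < c → ∫⁻ t : ℝ, ENNReal.ofReal (Real.exp (-c * t ^ 2)) =
        ENNReal.ofReal (√(Real.pi / c)) := by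
      intro c hc
      rw [← ofReal_integral_eq_lintegral_ofReal (integrable_exp_neg_mul_sq hc)
        (Eventually.of_forall fun t => (Real.exp_pos _).le), integral_gaussian]
    rw [lintegral_congr e, Measure.volume_eq_prod,
      lintegral_prod_mul (f := fun z : ℝ => ENNReal.ofReal (Real.exp (-α * z ^ 2)))
      (g := fun z : ℝ => ENNReal.ofReal (Real.exp (-β * z ^ 2))) (by fun_prop) (by fun_prop),
      g α hα, g β hβ, ← ENNReal.ofReal_mul (Real.sqrt_nonneg _), ← Real.sqrt_mul (by positivity)]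
    congr 1
    rw [div_mul_div_comm, Real.sqrt_div (by positivity), Real.sqrt_mul_self Real.pi_pos.le]
  rw [← lintegral_comp_polarCoord_symm] at h1
  have h2 : ∀ p ∈ polarCoord.target, ENNReal.ofReal p.1 • ENNReal.ofReal
      (Real.exp (-(α * (polarCoord.symm p).1 ^ 2 + β * (polarCoord.symm p).2 ^ 2))) =
      ENNReal.ofReal (p.1 * Real.exp (-(AA α β p.2 * p.1 ^ 2))) := by
    intro p hp
    rw [polarCoord_target] at hp
    have hr : 0 < p.1 := hp.1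
    rw [smul_eq_mul, ← ENNReal.ofReal_mul hr.le, polarCoord_symm_apply]
    simp only
    unfold AA
    congr 3
    ring
  rw [setLIntegral_congr_fun polarCoord.open_target.measurableSet h2, polarCoord_target,
    Measure.volume_eq_prod, ← Measure.prod_restrict, lintegral_prod_symm _ (by
      unfold AA
      fun_prop)] at h1
  have h3 : ∀ ψ : ℝ, ∫⁻ r in Ioi (0 : ℝ), ENNReal.ofReal (r * Real.exp (-(AA α β ψ * r ^ 2))) =
      ENNReal.ofReal (1 / 2) * ENNReal.ofReal (1 / AA α β ψ) := by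
    intro ψ
    rw [rad_lin (AA_pos hα hβ ψ), ← ENNReal.ofReal_mul (by norm_num)]
    congr 1
    field_simp
  rw [lintegral_congr h3, lintegral_const_mul _ (by
    unfold AA
    fun_prop)] at h1
  have h4 : ENNReal.ofReal (1 / 2) * ENNReal.ofReal (2 * Real.pi / √(α * β)) =
      ENNReal.ofReal (Real.pi / √(α * β)) := by
    rw [← ENNReal.ofReal_mul (by norm_num)]
    congr 1
    ring
  rw [← h4] at h1
  exact (ENNReal.mul_right_inj (by simp) ENNReal.ofReal_ne_top).1 h1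

/-- the integral in the plane -/
private theorem plane {α β : ℝ} (hα : 0 < α) (hβ : 0 < β) :
    ∫⁻ p : ℝ × ℝ, ENNReal.ofReal (√(p.1 ^ 2 + p.2 ^ 2) / (α * p.1 ^ 2 + β * p.2 ^ 2) *
      Real.exp (-(p.1 ^ 2 + p.2 ^ 2))) =
    ENNReal.ofReal (√Real.pi / 2) * ENNReal.ofReal (2 * Real.pi / √(α * β)) := by
  rw [← azi hα hβ, ← lintegral_comp_polarCoord_symm]
  have h1 : ∀ p ∈ polarCoord.target, ENNReal.ofReal p.1 • ENNReal.ofReal
      (√((polarCoord.symm p).1 ^ 2 + (polarCoord.symm p).2 ^ 2) /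
        (α * (polarCoord.symm p).1 ^ 2 + β * (polarCoord.symm p).2 ^ 2) *
        Real.exp (-((polarCoord.symm p).1 ^ 2 + (polarCoord.symm p).2 ^ 2))) =
      ENNReal.ofReal (Real.exp (-p.1 ^ 2)) * ENNReal.ofReal (1 / AA α β p.2) := by
    intro p hp
    rw [polarCoord_target] at hp
    have hr : 0 < p.1 := hp.1
    have e1 : (polarCoord.symm p).1 ^ 2 + (polarCoord.symm p).2 ^ 2 = p.1 ^ 2 := by
      rw [polarCoord_symm_apply]
      simp only
      rw [mul_pow, mul_pow, ← mul_add, Real.cos_sq_add_sin_sq, mul_one]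
    have e2 : α * (polarCoord.symm p).1 ^ 2 + β * (polarCoord.symm p).2 ^ 2 =
        p.1 ^ 2 * AA α β p.2 := by
      rw [polarCoord_symm_apply]
      unfold AA
      simp only
      ring
    have hA := AA_pos hα hβ p.2
    rw [e1, e2, Real.sqrt_sq hr.le, smul_eq_mul, ← ENNReal.ofReal_mul hr.le,
      ← ENNReal.ofReal_mul (Real.exp_pos _).le]
    congr 1
    field_simp
  rw [setLIntegral_congr_fun polarCoord.open_target.measurableSet h1, polarCoord_target]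
  rw [Measure.volume_eq_prod, ← Measure.prod_restrict]
  rw [lintegral_prod_mul (f := fun r : ℝ => ENNReal.ofReal (Real.exp (-r ^ 2)))
    (g := fun ψ : ℝ => ENNReal.ofReal (1 / AA α β ψ)) (by fun_prop) (by
      unfold AA
      fun_prop)]
  congr 1
  have hi : IntegrableOn (fun r : ℝ => Real.exp (-r ^ 2)) (Ioi 0) := by
    have h3 := integrable_exp_neg_mul_sq (b := 1) one_pos
    refine (h3.integrableOn (s := Ioi 0)).congr_fun (fun x _ => ?_) measurableSet_Ioi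
    simp
  rw [← ofReal_integral_eq_lintegral_ofReal hi (Eventually.of_forall fun t => (Real.exp_pos _).le)]
  congr 1
  have h5 := integral_gaussian_Ioi 1
  rw [div_one] at h5
  rw [← h5]
  refine setIntegral_congr_fun measurableSet_Ioi (fun x _ => ?_)
  simp

private theorem mom_mp : MeasurePreserving (fun y : E3 => (y 2, ((y 0 : ℝ), (y 1 : ℝ))))
    (volume : Measure E3) (volume : Measure (ℝ × (ℝ × ℝ))) := by
  have h1 : MeasurePreserving (fun y : E3 => y.ofLp) volume volume :=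
    PiLp.volume_preserving_ofLp (Fin 3)
  have h2 := volume_preserving_piFinSuccAbove (fun _ : Fin 3 => ℝ) 2
  have h3 := (MeasurePreserving.id (volume : Measure ℝ)).prod
    (volume_preserving_finTwoArrow ℝ)
  have h4 := h3.comp (h2.comp h1)
  exact h4

private def GG (α β : ℝ) (p : E3) : ℝ := √(1 - p 2 ^ 2) / (α * p 0 ^ 2 + β * p 1 ^ 2)

private theorem GG_nonneg {α β : ℝ} (hα : 0 < α) (hβ : 0 < β) (p : E3) : 0 ≤ GG α β p := by
  unfold GG
  positivity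

private theorem GG_meas (α β : ℝ) : Measurable (GG α β) := by
  unfold GG
  fun_prop

private theorem GG_lint {α β : ℝ} (hα : 0 < α) (hβ : 0 < β) :
    ∫⁻ p, ENNReal.ofReal (GG α β p) ∂PP = ENNReal.ofReal (Real.pi / 2 / √(α * β)) := by
  have h := lint_polar (fun p => ENNReal.ofReal (GG α β p)) (GG_meas α β).ennreal_ofReal
    (fun r => ENNReal.ofReal (1 / r * Real.exp (-r ^ 2))) (by fun_prop)
  have h1 : ∀ y : E3, ENNReal.ofReal (GG α β ((‖y‖⁻¹ : ℝ) • y)) *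
      ENNReal.ofReal (1 / ‖y‖ * Real.exp (-‖y‖ ^ 2)) =
      (fun z : ℝ × (ℝ × ℝ) => ENNReal.ofReal (Real.exp (-z.1 ^ 2)) *
        ENNReal.ofReal (√(z.2.1 ^ 2 + z.2.2 ^ 2) / (α * z.2.1 ^ 2 + β * z.2.2 ^ 2) *
          Real.exp (-(z.2.1 ^ 2 + z.2.2 ^ 2)))) (y 2, (y 0, y 1)) := by
    intro y
    simp only
    have hn : ‖y‖ ^ 2 = y 2 ^ 2 + (y 0 ^ 2 + y 1 ^ 2) := by
      rw [EuclideanSpace.real_norm_sq_eq, Fin.sum_univ_three]
      ring
    rw [← ENNReal.ofReal_mul (GG_nonneg hα hβ _), ← ENNReal.ofReal_mul (Real.exp_pos _).le]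
    congr 1
    rcases eq_or_ne y 0 with hy | hy
    · subst hy
      simp
    · have hpos : 0 < ‖y‖ := norm_pos_iff.2 hy
      have e1 : 1 - ((‖y‖⁻¹ : ℝ) • y) 2 ^ 2 = (y 0 ^ 2 + y 1 ^ 2) / ‖y‖ ^ 2 := by
        have : ((‖y‖⁻¹ : ℝ) • y) 2 = ‖y‖⁻¹ * y 2 := rfl
        rw [this, mul_pow, eq_div_iff (by positivity), sub_mul, inv_pow]
        have h3 : (‖y‖ ^ 2)⁻¹ * y 2 ^ 2 * ‖y‖ ^ 2 = y 2 ^ 2 := by
          field_simp
        rw [h3]
        linarith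
      have e2 : α * ((‖y‖⁻¹ : ℝ) • y) 0 ^ 2 + β * ((‖y‖⁻¹ : ℝ) • y) 1 ^ 2 =
          (α * y 0 ^ 2 + β * y 1 ^ 2) / ‖y‖ ^ 2 := by
        have t0 : ((‖y‖⁻¹ : ℝ) • y) 0 = ‖y‖⁻¹ * y 0 := rfl
        have t1 : ((‖y‖⁻¹ : ℝ) • y) 1 = ‖y‖⁻¹ * y 1 := rfl
        rw [t0, t1]
        field_simp
      unfold GG
      rw [e1, e2, Real.sqrt_div (by positivity), Real.sqrt_sq hpos.le, hn, neg_add, Real.exp_add]
      have h5 : ‖y‖ ≠ 0 := hpos.ne'
      rcases eq_or_ne (α * y 0 ^ 2 + β * y 1 ^ 2) 0 with h6 | h6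
      · rw [h6]
        simp
      · field_simp
        rw [← hn]
  have h2 := mom_mp.lintegral_comp (f := fun z : ℝ × (ℝ × ℝ) =>
    ENNReal.ofReal (Real.exp (-z.1 ^ 2)) *
      ENNReal.ofReal (√(z.2.1 ^ 2 + z.2.2 ^ 2) / (α * z.2.1 ^ 2 + β * z.2.2 ^ 2) *
          Real.exp (-(z.2.1 ^ 2 + z.2.2 ^ 2)))) (by fun_prop)
  have g : ∫⁻ t : ℝ, ENNReal.ofReal (Real.exp (-t ^ 2)) = ENNReal.ofReal (√Real.pi) := by
    have h1 : ∀ t : ℝ, Real.exp (-t ^ 2) = Real.exp (-1 * t ^ 2) := by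
      intro t
      rw [neg_one_mul]
    simp_rw [h1]
    rw [← ofReal_integral_eq_lintegral_ofReal (integrable_exp_neg_mul_sq one_pos)
      (Eventually.of_forall fun t => (Real.exp_pos _).le), integral_gaussian, div_one]
  rw [lintegral_congr h1, h2, Measure.volume_eq_prod,
    lintegral_prod_mul (f := fun z : ℝ => ENNReal.ofReal (Real.exp (-z ^ 2)))
      (g := fun z : ℝ × ℝ => ENNReal.ofReal (√(z.1 ^ 2 + z.2 ^ 2) / (α * z.1 ^ 2 + β * z.2 ^ 2) *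
          Real.exp (-(z.1 ^ 2 + z.2 ^ 2)))) (by fun_prop) (by fun_prop), g, plane hα hβ] at h
  have h3 : ∫⁻ r in Ioi (0 : ℝ), ENNReal.ofReal (r ^ 2) *
      ENNReal.ofReal (1 / r * Real.exp (-r ^ 2)) = ENNReal.ofReal (1 / 2) := by
    have h4 := rad_lin (a := 1) one_pos
    rw [mul_one] at h4
    rw [← h4]
    refine setLIntegral_congr_fun measurableSet_Ioi fun r hr => ?_
    have hr0 : (0 : ℝ) < r := hr
    rw [← ENNReal.ofReal_mul (by positivity)]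
    congr 1
    field_simp
  rw [h3] at h
  have hp := Real.pi_pos
  have hab : 0 < √(α * β) := Real.sqrt_pos.2 (mul_pos hα hβ)
  set I := ∫⁻ p, ENNReal.ofReal (GG α β p) ∂PP with hI
  have h4 : ENNReal.ofReal (4 * Real.pi * (1 / 2)) * I =
      ENNReal.ofReal (4 * Real.pi * (1 / 2)) * ENNReal.ofReal (Real.pi / 2 / √(α * β)) := by
    rw [← ENNReal.ofReal_mul (by positivity), ENNReal.ofReal_mul (by positivity)]
    rw [mul_assoc, mul_comm (ENNReal.ofReal (1 / 2)) I, ← mul_assoc, ← h,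
      ← ENNReal.ofReal_mul (by positivity), ← ENNReal.ofReal_mul (by positivity)]
    congr 1
    have hs : √Real.pi * √Real.pi = Real.pi := Real.mul_self_sqrt hp.le
    calc √Real.pi * (√Real.pi / 2 * (2 * Real.pi / √(α * β)))
        = (√Real.pi * √Real.pi) / 2 * (2 * Real.pi / √(α * β)) := by ring
      _ = 4 * Real.pi * (1 / 2) * (Real.pi / 2 / √(α * β)) := by
          rw [hs]
          ring
  exact (ENNReal.mul_right_inj (by
    rw [Ne, ENNReal.ofReal_eq_zero, not_le]; positivity) ENNReal.ofReal_ne_top).1 h4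

private theorem GG_int {α β : ℝ} (hα : 0 < α) (hβ : 0 < β) : Integrable (GG α β) PP ∧
    ∫ p, GG α β p ∂PP = Real.pi / 2 / √(α * β) := by
  have h0 : 0 ≤ Real.pi / 2 / √(α * β) := by positivity
  have h1 : Integrable (GG α β) PP := by
    refine ⟨(GG_meas α β).aestronglyMeasurable, ?_⟩
    rw [hasFiniteIntegral_iff_ofReal (Eventually.of_forall fun p => GG_nonneg hα hβ p),
      GG_lint hα hβ]
    exact ENNReal.ofReal_lt_top
  refine ⟨h1, ?_⟩
  rw [integral_eq_lintegral_of_nonneg_ae (Eventually.of_forall fun p => GG_nonneg hα hβ p)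
    h1.aestronglyMeasurable, GG_lint hα hβ, ENNReal.toReal_ofReal h0]

/-! ### frames -/

/-- the isometry given by an orthonormal frame -/
theorem frame_iso {m n v : E3} (hm : ‖m‖ = 1) (hn : ‖n‖ = 1) (hv : ‖v‖ = 1)
    (hmn : inner ℝ m n = (0 : ℝ)) (hmv : inner ℝ m v = (0 : ℝ)) (hnv : inner ℝ n v = (0 : ℝ)) :
    ∃ R : E3 ≃ₗᵢ[ℝ] E3, ∀ p, (R p) 0 = inner ℝ m p ∧ (R p) 1 = inner ℝ n p ∧
      (R p) 2 = inner ℝ v p := by
  have hON : Orthonormal ℝ ![m, n, v] := by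
    rw [orthonormal_iff_ite]
    intro i j
    fin_cases i <;> fin_cases j <;>
      simp [real_inner_self_eq_norm_sq, hm, hn, hv, hmn, hmv, hnv, real_inner_comm m n,
        real_inner_comm m v, real_inner_comm n v]
  have hcard : Fintype.card (Fin 3) = Module.finrank ℝ E3 := by simp
  set b := (basisOfOrthonormalOfCardEqFinrank hON hcard).toOrthonormalBasis (by
    simpa using hON) with hb
  refine ⟨b.repr, fun p => ?_⟩
  have h : ∀ i, (b.repr p) i = inner ℝ (![m, n, v] i) p := by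
    intro i
    rw [b.repr_apply_apply]
    simp [hb]
  exact ⟨h 0, h 1, h 2⟩

private theorem iso_of (a b c : E3) (h1 : ‖a‖ ^ 2 = 1) (h2 : ‖b‖ ^ 2 = 1) (h3 : ‖c‖ ^ 2 = 1)
    (h4 : inner ℝ a b = (0 : ℝ)) (h5 : inner ℝ a c = (0 : ℝ)) (h6 : inner ℝ b c = (0 : ℝ)) :
    ∃ R : E3 ≃ₗᵢ[ℝ] E3, ∀ p, (R p) 0 = inner ℝ a p ∧ (R p) 1 = inner ℝ b p ∧
      (R p) 2 = inner ℝ c p :=
  frame_iso (by nlinarith [norm_nonneg a]) (by nlinarith [norm_nonneg b])
    (by nlinarith [norm_nonneg c]) h4 h5 h6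

private theorem flip0 : ∃ R : E3 ≃ₗᵢ[ℝ] E3, ∀ p, (R p) 0 = -p 0 ∧ (R p) 1 = p 1 ∧ (R p) 2 = p 2 := by
  obtain ⟨R, hR⟩ := iso_of !₂[-1, 0, 0] !₂[0, 1, 0] !₂[0, 0, 1] (by simp [normsq3]) (by simp [normsq3])
    (by simp [normsq3]) (by simp [inner3]) (by simp [inner3]) (by simp [inner3])
  refine ⟨R, fun p => ?_⟩
  obtain ⟨h0, h1, h2⟩ := hR p
  rw [h0, h1, h2]
  simp [inner3]

private theorem flip1 : ∃ R : E3 ≃ₗᵢ[ℝ] E3, ∀ p, (R p) 0 = p 0 ∧ (R p) 1 = -p 1 ∧ (R p) 2 = p 2 := by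
  obtain ⟨R, hR⟩ := iso_of !₂[1, 0, 0] !₂[0, -1, 0] !₂[0, 0, 1] (by simp [normsq3]) (by simp [normsq3])
    (by simp [normsq3]) (by simp [inner3]) (by simp [inner3]) (by simp [inner3])
  refine ⟨R, fun p => ?_⟩
  obtain ⟨h0, h1, h2⟩ := hR p
  rw [h0, h1, h2]
  simp [inner3]

private theorem swap01 : ∃ R : E3 ≃ₗᵢ[ℝ] E3, ∀ p, (R p) 0 = p 1 ∧ (R p) 1 = p 0 ∧ (R p) 2 = p 2 := by
  obtain ⟨R, hR⟩ := iso_of !₂[0, 1, 0] !₂[1, 0, 0] !₂[0, 0, 1] (by simp [normsq3]) (by simp [normsq3])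
    (by simp [normsq3]) (by simp [inner3]) (by simp [inner3]) (by simp [inner3])
  refine ⟨R, fun p => ?_⟩
  obtain ⟨h0, h1, h2⟩ := hR p
  rw [h0, h1, h2]
  simp [inner3]

private theorem rot45 : ∃ R : E3 ≃ₗᵢ[ℝ] E3, ∀ p, (R p) 0 = (p 0 + p 1) / √2 ∧
    (R p) 1 = (p 1 - p 0) / √2 ∧ (R p) 2 = p 2 := by
  have h2 : √2 ^ 2 = (2 : ℝ) := Real.sq_sqrt (by norm_num)
  have hp : √2 ≠ (0 : ℝ) := by positivity
  obtain ⟨R, hR⟩ := iso_of !₂[1 / √2, 1 / √2, 0] !₂[-1 / √2, 1 / √2, 0] !₂[0, 0, 1] (by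
      rw [normsq3]
      change (1 / √2) ^ 2 + (1 / √2) ^ 2 + 0 ^ 2 = 1
      rw [div_pow, h2]
      norm_num) (by
      rw [normsq3]
      change (-1 / √2) ^ 2 + (1 / √2) ^ 2 + 0 ^ 2 = 1
      rw [div_pow, div_pow, h2]
      norm_num)
    (by simp [normsq3]) (by
      rw [inner3]
      change (1 / √2) * (-1 / √2) + (1 / √2) * (1 / √2) + 0 * 0 = 0
      ring) (by simp [inner3]) (by simp [inner3])
  refine ⟨R, fun p => ?_⟩
  obtain ⟨h0, h1, h2⟩ := hR p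
  rw [h0, h1, h2, inner3, inner3, inner3]
  refine ⟨?_, ?_, ?_⟩
  · change (1 / √2) * p 0 + (1 / √2) * p 1 + 0 * p 2 = _
    ring
  · change (-1 / √2) * p 0 + (1 / √2) * p 1 + 0 * p 2 = _
    ring
  · change 0 * p 0 + 0 * p 1 + 1 * p 2 = _
    ring

private theorem int_rot' (R : E3 ≃ₗᵢ[ℝ] E3) (f : E3 → ℝ) : ∫ p, f (R p) ∂PP = ∫ p, f p ∂PP :=
  (mp_rot R).integral_comp R.toHomeomorph.measurableEmbedding f

private theorem int_comp' (R : E3 ≃ₗᵢ[ℝ] E3) {f : E3 → ℝ} (hf : Integrable f PP) :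
    Integrable (fun p => f (R p)) PP :=
  ((mp_rot R).integrable_comp_emb R.toHomeomorph.measurableEmbedding).2 hf

private theorem int_odd' (R : E3 ≃ₗᵢ[ℝ] E3) {f : E3 → ℝ} (h : ∀ p, f (R p) = - f p) :
    ∫ p, f p ∂PP = 0 := by
  have h1 := int_rot' R f
  simp_rw [h] at h1
  rw [integral_neg] at h1
  linarith

private theorem sum_sq' {p : E3} (hp : ‖p‖ = 1) : p 0 ^ 2 + p 1 ^ 2 = 1 - p 2 ^ 2 := by
  have h := EuclideanSpace.real_norm_sq_eq p
  rw [hp, Fin.sum_univ_three] at h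
  linarith

/-! ### moments of fourth order -/

section
variable {H : ℝ → ℝ}

/-- the weight `p₀² - p₁²` -/
private def DD (p : E3) : ℝ := p 0 ^ 2 - p 1 ^ 2

private theorem DD_le {p : E3} (hp : ‖p‖ = 1) : |DD p| ≤ 1 - p 2 ^ 2 := by
  have h := sum_sq' hp
  unfold DD
  rw [abs_le]
  constructor <;> nlinarith [sq_nonneg (p 0), sq_nonneg (p 1)]

private theorem d_int (hH : Measurable H)
    (h1 : Integrable (fun p : E3 => H (1 - p 2 ^ 2) * (1 - p 2 ^ 2) ^ 2) PP) {i j : Fin 3}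
    (hi : i ≠ 2) (hj : j ≠ 2) :
    Integrable (fun p : E3 => H (1 - p 2 ^ 2) * (DD p * (p i * p j))) PP := by
  refine h1.mono (by unfold DD; fun_prop) ?_
  filter_upwards [ae_norm] with p hp
  have h2 := sum_sq' hp
  have h3 : |p i * p j| ≤ 1 - p 2 ^ 2 := by
    rw [abs_le]
    fin_cases i <;> fin_cases j <;> simp at hi hj ⊢ <;> constructor <;>
      nlinarith [sq_nonneg (p 0 + p 1), sq_nonneg (p 0 - p 1), sq_nonneg (p 0), sq_nonneg (p 1)]
  rw [norm_mul, norm_mul (H (1 - p 2 ^ 2)) ((1 - p 2 ^ 2) ^ 2)]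
  refine mul_le_mul_of_nonneg_left ?_ (norm_nonneg _)
  have h5 : |(1 - p 2 ^ 2) ^ 2| = (1 - p 2 ^ 2) * (1 - p 2 ^ 2) := by
    rw [abs_of_nonneg (sq_nonneg _), sq]
  rw [Real.norm_eq_abs, Real.norm_eq_abs, abs_mul (DD p), h5]
  exact mul_le_mul (DD_le hp) h3 (abs_nonneg _) (by linarith [sq_nonneg (p 0), sq_nonneg (p 1)])

private theorem d_int' (hH : Measurable H)
    (h1 : Integrable (fun p : E3 => H (1 - p 2 ^ 2) * (1 - p 2 ^ 2)) PP) (i j : Fin 3) :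
    Integrable (fun p : E3 => H (1 - p 2 ^ 2) * (DD p * (p i * p j))) PP := by
  refine h1.mono (by unfold DD; fun_prop) ?_
  filter_upwards [ae_norm] with p hp
  have h2 := sum_sq' hp
  have h3 : |p i * p j| ≤ 1 := by
    rw [abs_le]
    fin_cases i <;> fin_cases j <;> simp <;> constructor <;>
      nlinarith [sq_nonneg (p 0 + p 1), sq_nonneg (p 0 - p 1), sq_nonneg (p 0), sq_nonneg (p 1),
        sq_nonneg (p 0 + p 2), sq_nonneg (p 0 - p 2), sq_nonneg (p 1 + p 2),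
        sq_nonneg (p 1 - p 2), sq_nonneg (p 2)]
  rw [norm_mul, norm_mul (H (1 - p 2 ^ 2)) (1 - p 2 ^ 2)]
  refine mul_le_mul_of_nonneg_left ?_ (norm_nonneg _)
  rw [Real.norm_eq_abs, Real.norm_eq_abs, abs_mul]
  have h4 : 0 ≤ 1 - p 2 ^ 2 := by linarith [sq_nonneg (p 0), sq_nonneg (p 1)]
  rw [abs_of_nonneg h4]
  calc |DD p| * |p i * p j| ≤ (1 - p 2 ^ 2) * 1 :=
        mul_le_mul (DD_le hp) h3 (abs_nonneg _) h4
    _ = _ := mul_one _

private theorem d01 : ∫ p : E3, H (1 - p 2 ^ 2) * (DD p * (p 0 * p 1)) ∂PP = 0 := by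
  obtain ⟨R, hR⟩ := flip0
  refine int_odd' R fun p => ?_
  unfold DD
  rw [(hR p).1, (hR p).2.1, (hR p).2.2]
  ring

private theorem d02 : ∫ p : E3, H (1 - p 2 ^ 2) * (DD p * (p 0 * p 2)) ∂PP = 0 := by
  obtain ⟨R, hR⟩ := flip0
  refine int_odd' R fun p => ?_
  unfold DD
  rw [(hR p).1, (hR p).2.1, (hR p).2.2]
  ring

private theorem d12 : ∫ p : E3, H (1 - p 2 ^ 2) * (DD p * (p 1 * p 2)) ∂PP = 0 := by
  obtain ⟨R, hR⟩ := flip1
  refine int_odd' R fun p => ?_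
  unfold DD
  rw [(hR p).1, (hR p).2.1, (hR p).2.2]
  ring

private theorem d22 : ∫ p : E3, H (1 - p 2 ^ 2) * (DD p * (p 2 * p 2)) ∂PP = 0 := by
  obtain ⟨R, hR⟩ := swap01
  refine int_odd' R fun p => ?_
  unfold DD
  rw [(hR p).1, (hR p).2.1, (hR p).2.2]
  ring

private theorem d0011 (hH : Measurable H)
    (h1 : Integrable (fun p : E3 => H (1 - p 2 ^ 2) * (1 - p 2 ^ 2) ^ 2) PP) :
    ∫ p : E3, H (1 - p 2 ^ 2) * (DD p * (p 0 * p 0)) ∂PP =
      (1 / 4) * ∫ p : E3, H (1 - p 2 ^ 2) * (1 - p 2 ^ 2) ^ 2 ∂PP ∧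
    ∫ p : E3, H (1 - p 2 ^ 2) * (DD p * (p 1 * p 1)) ∂PP =
      -((1 / 4) * ∫ p : E3, H (1 - p 2 ^ 2) * (1 - p 2 ^ 2) ^ 2 ∂PP) := by
  obtain ⟨S, hS⟩ := swap01
  obtain ⟨R, hR⟩ := rot45
  have s2 : √2 ^ 2 = (2 : ℝ) := Real.sq_sqrt (by norm_num)
  have i00 := d_int hH h1 (i := 0) (j := 0) (by decide) (by decide)
  have i11 := d_int hH h1 (i := 1) (j := 1) (by decide) (by decide)
  -- the swap
  have e1 := int_rot' S (fun p : E3 => H (1 - p 2 ^ 2) * (DD p * (p 0 * p 0)))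
  have e2 : (fun p : E3 => H (1 - (S p) 2 ^ 2) * (DD (S p) * ((S p) 0 * (S p) 0))) =
      fun p => -(H (1 - p 2 ^ 2) * (DD p * (p 1 * p 1))) := by
    funext p
    unfold DD
    rw [(hS p).1, (hS p).2.1, (hS p).2.2]
    ring
  rw [e2, integral_neg] at e1
  -- the rotation
  have iD : Integrable (fun p : E3 => H (1 - p 2 ^ 2) * DD p ^ 2) PP := by
    refine (i00.sub i11).congr (Eventually.of_forall fun p => ?_)
    simp only [Pi.sub_apply]
    unfold DD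
    ring
  have e3 := int_rot' R (fun p : E3 => H (1 - p 2 ^ 2) * DD p ^ 2)
  have e4 : (fun p : E3 => H (1 - (R p) 2 ^ 2) * DD (R p) ^ 2) =
      fun p => H (1 - p 2 ^ 2) * (4 * p 0 ^ 2 * p 1 ^ 2) := by
    funext p
    unfold DD
    rw [(hR p).1, (hR p).2.1, (hR p).2.2, div_pow, div_pow, s2]
    ring
  have iR := int_comp' R iD
  rw [e4] at e3
  have iR' : Integrable (fun p : E3 => H (1 - p 2 ^ 2) * (4 * p 0 ^ 2 * p 1 ^ 2)) PP := by
    rw [← e4]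
    exact iR
  have e5 : ∫ p : E3, H (1 - p 2 ^ 2) * DD p ^ 2 ∂PP +
      ∫ p : E3, H (1 - p 2 ^ 2) * (4 * p 0 ^ 2 * p 1 ^ 2) ∂PP =
      ∫ p : E3, H (1 - p 2 ^ 2) * (1 - p 2 ^ 2) ^ 2 ∂PP := by
    rw [← integral_add iD iR']
    refine integral_congr_ae ?_
    filter_upwards [ae_norm] with p hp
    have h2 := sum_sq' hp
    rw [← h2]
    unfold DD
    ring
  have e6 : ∫ p : E3, H (1 - p 2 ^ 2) * DD p ^ 2 ∂PP =
      ∫ p : E3, H (1 - p 2 ^ 2) * (DD p * (p 0 * p 0)) ∂PP -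
      ∫ p : E3, H (1 - p 2 ^ 2) * (DD p * (p 1 * p 1)) ∂PP := by
    rw [← integral_sub i00 i11]
    refine integral_congr_ae (Eventually.of_forall fun p => ?_)
    simp only
    unfold DD
    ring
  constructor <;> linarith

end

private theorem mbase (c : ℝ) {g : E3 → ℝ} {B : ℝ} (hg : Integrable g PP)
    (hB : ∫ p, g p ∂PP = B) :
    Integrable (fun p => c * g p) PP ∧ ∫ p, c * g p ∂PP = c * B := by
  rw [← hB, integral_const_mul]
  exact ⟨hg.const_mul c, rfl⟩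

private theorem madd (c : ℝ) {F g : E3 → ℝ} {A B : ℝ}
    (h : Integrable F PP ∧ ∫ p, F p ∂PP = A) (hg : Integrable g PP) (hB : ∫ p, g p ∂PP = B) :
    Integrable (fun p => F p + c * g p) PP ∧ ∫ p, (F p + c * g p) ∂PP = A + c * B := by
  rw [← hB, ← h.2, ← integral_const_mul, ← integral_add h.1 (hg.const_mul c)]
  exact ⟨h.1.add (hg.const_mul c), rfl⟩

private theorem fin_step' (R : E3 ≃ₗᵢ[ℝ] E3) {f G : E3 → ℝ} {b c : ℝ}
    (h : Integrable G PP ∧ ∫ p, G p ∂PP = b) (e : ∀ p, f p = G (R p)) (hb : b = c) :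
    Integrable f PP ∧ ∫ p, f p ∂PP = c := by
  have e' : f = fun p => G (R p) := funext e
  rw [e', ← hb]
  exact ⟨int_comp' R h.1, (int_rot' R G).trans h.2⟩

/-- the first moments of the distance to the third axis -/
private theorem e2_norm : ‖(!₂[0, 0, 1] : E3)‖ = 1 := by
  have h : ‖(!₂[0, 0, 1] : E3)‖ ^ 2 = 1 := by simp [normsq3]
  nlinarith [norm_nonneg (!₂[0, 0, 1] : E3)]

private theorem sq2_e2 (p : E3) : sq2 !₂[0, 0, 1] p = 1 - p 2 ^ 2 := by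
  unfold sq2
  simp [inner3]

/-- `E[1/s] = π/2` -/
private theorem k0 : Integrable (fun p : E3 => 1 / √(1 - p 2 ^ 2)) PP ∧
    ∫ p : E3, 1 / √(1 - p 2 ^ 2) ∂PP = Real.pi / 2 := by
  have h := int_inv e2_norm
  simp_rw [sq2_e2] at h
  exact h

/-- `E[s] = π/4` -/
private theorem k2 : Integrable (fun p : E3 => √(1 - p 2 ^ 2)) PP ∧
    ∫ p : E3, √(1 - p 2 ^ 2) ∂PP = Real.pi / 4 := by
  have h0 := int_NK (v := !₂[0, 0, 1]) (N := !₂[1, 0, 0]) (K := !₂[1, 0, 0]) e2_norm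
    (by simp [inner3])
  have h1 := int_NK (v := !₂[0, 0, 1]) (N := !₂[0, 1, 0]) (K := !₂[0, 1, 0]) e2_norm
    (by simp [inner3])
  simp_rw [sq2_e2] at h0 h1
  have hs := h0.1.add h1.1
  have e : (fun p : E3 => √(1 - p 2 ^ 2)) =ᵐ[PP] fun p =>
      inner ℝ p !₂[1, 0, 0] * inner ℝ p !₂[1, 0, 0] / √(1 - p 2 ^ 2) +
      inner ℝ p !₂[0, 1, 0] * inner ℝ p !₂[0, 1, 0] / √(1 - p 2 ^ 2) := by
    filter_upwards [ae_norm] with p hp
    have h2 := sum_sq' hp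
    have h3 : 0 ≤ 1 - p 2 ^ 2 := by linarith [sq_nonneg (p 0), sq_nonneg (p 1)]
    have h4 := Real.mul_self_sqrt h3
    rw [← add_div, inner3, inner3]
    have e5 : p 0 * (!₂[1, 0, 0] : E3) 0 + p 1 * (!₂[1, 0, 0] : E3) 1 + p 2 * (!₂[1, 0, 0] : E3) 2
        = p 0 := by simp
    have e6 : p 0 * (!₂[0, 1, 0] : E3) 0 + p 1 * (!₂[0, 1, 0] : E3) 1 + p 2 * (!₂[0, 1, 0] : E3) 2
        = p 1 := by simp
    rw [e5, e6]
    rcases eq_or_ne (√(1 - p 2 ^ 2)) 0 with h5 | h5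
    · rw [h5]
      simp
    · rw [eq_div_iff h5, h4]
      linarith
  refine ⟨hs.congr e.symm, ?_⟩
  rw [integral_congr_ae e, integral_add h0.1 h1.1, h0.2, h1.2, inner3, inner3]
  simp
  ring

/-- `E[s³] = 3π/16` -/
private theorem k4 : Integrable (fun p : E3 => √(1 - p 2 ^ 2) * (1 - p 2 ^ 2)) PP ∧
    ∫ p : E3, √(1 - p 2 ^ 2) * (1 - p 2 ^ 2) ∂PP = 3 * Real.pi / 16 := by
  have h0 := int_KK (v := !₂[0, 0, 1]) (K := !₂[1, 0, 0]) e2_norm
  have h1 := int_KK (v := !₂[0, 0, 1]) (K := !₂[0, 1, 0]) e2_norm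
  simp_rw [sq2_e2] at h0 h1
  have hs := h0.1.add h1.1
  have e : (fun p : E3 => √(1 - p 2 ^ 2) * (1 - p 2 ^ 2)) =ᵐ[PP] fun p =>
      √(1 - p 2 ^ 2) * inner ℝ p !₂[1, 0, 0] ^ 2 + √(1 - p 2 ^ 2) * inner ℝ p !₂[0, 1, 0] ^ 2 := by
    filter_upwards [ae_norm] with p hp
    have h2 := sum_sq' hp
    rw [inner3, inner3]
    have e5 : p 0 * (!₂[1, 0, 0] : E3) 0 + p 1 * (!₂[1, 0, 0] : E3) 1 + p 2 * (!₂[1, 0, 0] : E3) 2
        = p 0 := by simp
    have e6 : p 0 * (!₂[0, 1, 0] : E3) 0 + p 1 * (!₂[0, 1, 0] : E3) 1 + p 2 * (!₂[0, 1, 0] : E3) 2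
        = p 1 := by simp
    rw [e5, e6, ← mul_add, h2]
  refine ⟨hs.congr e.symm, ?_⟩
  rw [integral_congr_ae e, integral_add h0.1 h1.1, h0.2, h1.2]
  simp [inner3, normsq3]
  ring

/-- an orthonormal frame `m`, `n`, `v` -/
structure Frm (m n v : E3) : Prop where
  m1 : ‖m‖ = 1
  n1 : ‖n‖ = 1
  v1 : ‖v‖ = 1
  mn : inner ℝ m n = (0 : ℝ)
  mv : inner ℝ m v = (0 : ℝ)
  nv : inner ℝ n v = (0 : ℝ)

theorem Frm.iso {m n v : E3} (h : Frm m n v) : ∃ R : E3 ≃ₗᵢ[ℝ] E3, ∀ p, (R p) 0 = inner ℝ m p ∧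
    (R p) 1 = inner ℝ n p ∧ (R p) 2 = inner ℝ v p :=
  frame_iso h.m1 h.n1 h.v1 h.mn h.mv h.nv

/-- the azimuthal weight `s² cos 2ψ` -/
def dd (m n p : E3) : ℝ := inner ℝ p m ^ 2 - inner ℝ p n ^ 2

/-- `E[√(1-b²) / (s (1 - b cos 2ψ))] = π/2` -/
theorem int_W {m n v : E3} (h : Frm m n v) {b : ℝ} (hb : |b| < 1) :
    Integrable (fun p => √(1 - b ^ 2) * √(sq2 v p) / (sq2 v p - b * dd m n p)) PP ∧
    ∫ p, √(1 - b ^ 2) * √(sq2 v p) / (sq2 v p - b * dd m n p) ∂PP = Real.pi / 2 := by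
  obtain ⟨R, hR⟩ := h.iso
  obtain ⟨hb1, hb2⟩ := abs_lt.1 hb
  have hα : 0 < 1 - b := by linarith
  have hβ : 0 < 1 + b := by linarith
  have hg := GG_int hα hβ
  have e : (1 - b) * (1 + b) = 1 - b ^ 2 := by ring
  rw [e] at hg
  have hpos : 0 < √(1 - b ^ 2) := Real.sqrt_pos.2 (by nlinarith)
  have hg2 := mbase (√(1 - b ^ 2)) hg.1 hg.2
  have e2 : (fun p => √(1 - b ^ 2) * √(sq2 v p) / (sq2 v p - b * dd m n p)) =ᵐ[PP]
      fun p => √(1 - b ^ 2) * GG (1 - b) (1 + b) (R p) := by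
    filter_upwards [ae_norm] with p hp
    have hRp : ‖R p‖ = 1 := by rw [R.norm_map, hp]
    have h2 := sum_sq' hRp
    unfold GG sq2 dd
    rw [(hR p).1, (hR p).2.1, (hR p).2.2] at *
    rw [real_inner_comm m p, real_inner_comm n p]
    have e3 : 1 - inner ℝ v p ^ 2 - b * (inner ℝ m p ^ 2 - inner ℝ n p ^ 2) =
        (1 - b) * inner ℝ m p ^ 2 + (1 + b) * inner ℝ n p ^ 2 := by
      rw [← h2]
      ring
    rw [e3, mul_div_assoc]
  have hR2 : Integrable (fun p => √(1 - b ^ 2) * GG (1 - b) (1 + b) (R p)) PP := int_comp' R hg2.1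
  refine ⟨hR2.congr e2.symm, ?_⟩
  rw [integral_congr_ae e2, int_rot' R (fun p => √(1 - b ^ 2) * GG (1 - b) (1 + b) p), hg2.2]
  field_simp

private theorem mH1 (q : ℝ) : 1 / (q ^ 2 * √q) * q ^ 2 = 1 / √q := by
  rcases eq_or_ne q 0 with h | h
  · rw [h]; simp
  · rcases eq_or_ne (√q) 0 with h1 | h1
    · rw [h1]; simp
    · field_simp

/-- `E[cos 2ψ ⟨p,N⟩²/s³] = (π/8)(⟨m,N⟩² - ⟨n,N⟩²)` for `N ⟂ v` -/
theorem int_DNN {m n v N : E3} (h : Frm m n v) (hN : inner ℝ v N = (0 : ℝ)) :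
    Integrable (fun p => dd m n p * inner ℝ p N ^ 2 / (sq2 v p ^ 2 * √(sq2 v p))) PP ∧
    ∫ p, dd m n p * inner ℝ p N ^ 2 / (sq2 v p ^ 2 * √(sq2 v p)) ∂PP =
      Real.pi / 8 * (inner ℝ m N ^ 2 - inner ℝ n N ^ 2) := by
  obtain ⟨R, hR⟩ := h.iso
  set c := R N with hc
  have c0 : c 0 = inner ℝ m N := (hR N).1
  have c1 : c 1 = inner ℝ n N := (hR N).2.1
  have c2 : c 2 = 0 := by rw [(hR N).2.2, hN]
  have hH : Measurable (fun q : ℝ => 1 / (q ^ 2 * √q)) := by fun_prop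
  have hq : ∀ p : E3, (fun q : ℝ => 1 / (q ^ 2 * √q)) (1 - p 2 ^ 2) * (1 - p 2 ^ 2) ^ 2 =
      1 / √(1 - p 2 ^ 2) := fun p => mH1 _
  have h1 : Integrable (fun p : E3 => (fun q : ℝ => 1 / (q ^ 2 * √q)) (1 - p 2 ^ 2) *
      (1 - p 2 ^ 2) ^ 2) PP := by
    simp_rw [hq]
    exact k0.1
  have i00 := d_int hH h1 (i := 0) (j := 0) (by decide) (by decide)
  have i01 := d_int hH h1 (i := 0) (j := 1) (by decide) (by decide)
  have i11 := d_int hH h1 (i := 1) (j := 1) (by decide) (by decide)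
  have v01 := d01 (H := fun q : ℝ => 1 / (q ^ 2 * √q))
  obtain ⟨v00, v11⟩ := d0011 hH h1
  simp_rw [hq] at v00 v11
  rw [k0.2] at v00 v11
  refine fin_step' R (madd (c 1 ^ 2) (madd (2 * c 0 * c 1) (mbase (c 0 ^ 2) i00 v00) i01 v01)
    i11 v11) ?_ ?_
  · intro p
    simp only
    unfold sq2 dd DD
    rw [← (hR p).2.2, real_inner_comm m p, real_inner_comm n p, ← (hR p).1, ← (hR p).2.1,
      ← R.inner_map_map p N, inner3, ← hc, c2]
    ring
  · rw [← c0, ← c1]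
    ring

/-- `E[cos 2ψ ⟨p,N⟩⟨p,K⟩/s] = (π/16)(⟨m,N⟩⟨m,K⟩ - ⟨n,N⟩⟨n,K⟩)` for `N ⟂ v` -/
theorem int_DNK {m n v N K : E3} (h : Frm m n v) (hN : inner ℝ v N = (0 : ℝ)) :
    Integrable (fun p => dd m n p * (inner ℝ p N * inner ℝ p K) / (sq2 v p * √(sq2 v p))) PP ∧
    ∫ p, dd m n p * (inner ℝ p N * inner ℝ p K) / (sq2 v p * √(sq2 v p)) ∂PP =
      Real.pi / 16 * (inner ℝ m N * inner ℝ m K - inner ℝ n N * inner ℝ n K) := by
  obtain ⟨R, hR⟩ := h.iso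
  set c := R N with hc
  set k := R K with hk
  have c0 : c 0 = inner ℝ m N := (hR N).1
  have c1 : c 1 = inner ℝ n N := (hR N).2.1
  have c2 : c 2 = 0 := by rw [(hR N).2.2, hN]
  have k0' : k 0 = inner ℝ m K := (hR K).1
  have k1' : k 1 = inner ℝ n K := (hR K).2.1
  have hH : Measurable (fun q : ℝ => 1 / (q * √q)) := by fun_prop
  have hq : ∀ p : E3, (fun q : ℝ => 1 / (q * √q)) (1 - p 2 ^ 2) * (1 - p 2 ^ 2) =
      1 / √(1 - p 2 ^ 2) := by
    intro p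
    simp only
    rcases eq_or_ne (1 - p 2 ^ 2) 0 with h | h
    · rw [h]; simp
    · rcases eq_or_ne (√(1 - p 2 ^ 2)) 0 with h1 | h1
      · rw [h1]; simp
      · field_simp
  have hq2 : ∀ p : E3, ‖p‖ = 1 → (fun q : ℝ => 1 / (q * √q)) (1 - p 2 ^ 2) * (1 - p 2 ^ 2) ^ 2 =
      √(1 - p 2 ^ 2) := by
    intro p hp
    have h2 := sum_sq' hp
    have h3 : 0 ≤ 1 - p 2 ^ 2 := by linarith [sq_nonneg (p 0), sq_nonneg (p 1)]
    have h4 := Real.mul_self_sqrt h3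
    simp only
    rcases eq_or_ne (√(1 - p 2 ^ 2)) 0 with h1 | h1
    · rw [h1]; simp
    · have h5 : 1 - p 2 ^ 2 ≠ 0 := by
        intro h6
        rw [h6, Real.sqrt_zero] at h1
        exact h1 rfl
      rw [one_div, inv_mul_eq_div, div_eq_iff (mul_ne_zero h5 h1)]
      calc (1 - p 2 ^ 2) ^ 2 = (1 - p 2 ^ 2) * (√(1 - p 2 ^ 2) * √(1 - p 2 ^ 2)) := by
            rw [h4]
            ring
        _ = _ := by ring
  have h1 : Integrable (fun p : E3 => (fun q : ℝ => 1 / (q * √q)) (1 - p 2 ^ 2) *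
      (1 - p 2 ^ 2)) PP := by
    simp_rw [hq]
    exact k0.1
  have e2 : (fun p : E3 => (fun q : ℝ => 1 / (q * √q)) (1 - p 2 ^ 2) *
      (1 - p 2 ^ 2) ^ 2) =ᵐ[PP] fun p => √(1 - p 2 ^ 2) := by
    filter_upwards [ae_norm] with p hp
    exact hq2 p hp
  have h2 : Integrable (fun p : E3 => (fun q : ℝ => 1 / (q * √q)) (1 - p 2 ^ 2) *
      (1 - p 2 ^ 2) ^ 2) PP := k2.1.congr e2.symm
  have i00 := d_int' hH h1 0 0
  have i01 := d_int' hH h1 0 1
  have i11 := d_int' hH h1 1 1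
  have i02 := d_int' hH h1 0 2
  have i12 := d_int' hH h1 1 2
  have v01 := d01 (H := fun q : ℝ => 1 / (q * √q))
  have v02 := d02 (H := fun q : ℝ => 1 / (q * √q))
  have v12 := d12 (H := fun q : ℝ => 1 / (q * √q))
  obtain ⟨v00, v11⟩ := d0011 hH h2
  rw [integral_congr_ae e2, k2.2] at v00 v11
  refine fin_step' R (madd (c 1 * k 2) (madd (c 0 * k 2) (madd (c 1 * k 1)
    (madd (c 0 * k 1 + c 1 * k 0) (mbase (c 0 * k 0) i00 v00) i01 v01) i11 v11) i02 v02)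
    i12 v12) ?_ ?_
  · intro p
    simp only
    unfold sq2 dd DD
    rw [← (hR p).2.2, real_inner_comm m p, real_inner_comm n p, ← (hR p).1, ← (hR p).2.1,
      ← R.inner_map_map p N, ← R.inner_map_map p K, inner3, inner3, ← hc, ← hk, c2]
    ring
  · rw [← c0, ← c1, ← k0', ← k1']
    ring

/-- `E[cos 2ψ s ⟨p,K⟩²] = (3π/64)(⟨m,K⟩² - ⟨n,K⟩²)` -/
theorem int_DKK {m n v K : E3} (h : Frm m n v) :
    Integrable (fun p => dd m n p * inner ℝ p K ^ 2 / √(sq2 v p)) PP ∧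
    ∫ p, dd m n p * inner ℝ p K ^ 2 / √(sq2 v p) ∂PP =
      3 * Real.pi / 64 * (inner ℝ m K ^ 2 - inner ℝ n K ^ 2) := by
  obtain ⟨R, hR⟩ := h.iso
  set k := R K with hk
  have k0' : k 0 = inner ℝ m K := (hR K).1
  have k1' : k 1 = inner ℝ n K := (hR K).2.1
  have hH : Measurable (fun q : ℝ => 1 / √q) := by fun_prop
  have hq : ∀ p : E3, ‖p‖ = 1 → (fun q : ℝ => 1 / √q) (1 - p 2 ^ 2) * (1 - p 2 ^ 2) =
      √(1 - p 2 ^ 2) ∧ (fun q : ℝ => 1 / √q) (1 - p 2 ^ 2) * (1 - p 2 ^ 2) ^ 2 =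
      √(1 - p 2 ^ 2) * (1 - p 2 ^ 2) := by
    intro p hp
    have h2 := sum_sq' hp
    have h3 : 0 ≤ 1 - p 2 ^ 2 := by linarith [sq_nonneg (p 0), sq_nonneg (p 1)]
    have h4 := Real.mul_self_sqrt h3
    simp only
    rcases eq_or_ne (√(1 - p 2 ^ 2)) 0 with h1 | h1
    · have h5 : 1 - p 2 ^ 2 = 0 := by rw [← h4, h1, mul_zero]
      rw [h5]; simp
    · constructor
      · rw [one_div, inv_mul_eq_div, div_eq_iff h1, h4]
      · rw [one_div, inv_mul_eq_div, div_eq_iff h1]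
        calc (1 - p 2 ^ 2) ^ 2 = (√(1 - p 2 ^ 2) * √(1 - p 2 ^ 2)) * (1 - p 2 ^ 2) := by
              rw [h4]
              ring
          _ = _ := by ring
  have e1 : (fun p : E3 => (fun q : ℝ => 1 / √q) (1 - p 2 ^ 2) * (1 - p 2 ^ 2)) =ᵐ[PP]
      fun p => √(1 - p 2 ^ 2) := by
    filter_upwards [ae_norm] with p hp
    exact (hq p hp).1
  have e2 : (fun p : E3 => (fun q : ℝ => 1 / √q) (1 - p 2 ^ 2) * (1 - p 2 ^ 2) ^ 2) =ᵐ[PP]
      fun p => √(1 - p 2 ^ 2) * (1 - p 2 ^ 2) := by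
    filter_upwards [ae_norm] with p hp
    exact (hq p hp).2
  have h1 := k2.1.congr e1.symm
  have h2 := k4.1.congr e2.symm
  have i00 := d_int' hH h1 0 0
  have i01 := d_int' hH h1 0 1
  have i11 := d_int' hH h1 1 1
  have i02 := d_int' hH h1 0 2
  have i12 := d_int' hH h1 1 2
  have i22 := d_int' hH h1 2 2
  have v01 := d01 (H := fun q : ℝ => 1 / √q)
  have v02 := d02 (H := fun q : ℝ => 1 / √q)
  have v12 := d12 (H := fun q : ℝ => 1 / √q)
  have v22 := d22 (H := fun q : ℝ => 1 / √q)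
  obtain ⟨v00, v11⟩ := d0011 hH h2
  rw [integral_congr_ae e2, k4.2] at v00 v11
  refine fin_step' R (madd (k 2 ^ 2) (madd (2 * k 1 * k 2) (madd (2 * k 0 * k 2) (madd (k 1 ^ 2)
    (madd (2 * k 0 * k 1) (mbase (k 0 ^ 2) i00 v00) i01 v01) i11 v11) i02 v02)
    i12 v12) i22 v22) ?_ ?_
  · intro p
    simp only
    unfold sq2 dd DD
    rw [← (hR p).2.2, real_inner_comm m p, real_inner_comm n p, ← (hR p).1, ← (hR p).2.1,
      ← R.inner_map_map p K, inner3, ← hk]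
    ring
  · rw [← k0', ← k1']
    ring

end Pool.Agent.FPX
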