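import Mathlib
import Pool.Agent.FPX.Defs
import Pool.Agent.FPX.SPH
import Pool.Agent.FPX.VEC
import Pool.Agent.FPX.MOM

/-
FPX, ANG (helper69): averages over the unit sphere in polar angles, and Parseval for the azimuth.
-/

open MeasureTheory Set Filter Topology
open scoped ENNReal NNReal

noncomputable section

namespace Pool.Agent.FPX

open Pool.Agent.EWD

/-- the point with polar angle `t` and azimuth `β` -/
def ap (t β : ℝ) : E3 := !₂[Real.sin t * Real.cos β, Real.sin t * Real.sin β, Real.cos t]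

theorem ap0 (t β : ℝ) : ap t β 0 = Real.sin t * Real.cos β := rfl
theorem ap1 (t β : ℝ) : ap t β 1 = Real.sin t * Real.sin β := rfl
theorem ap2 (t β : ℝ) : ap t β 2 = Real.cos t := rfl

theorem ap_cont : Continuous (fun q : ℝ × ℝ => ap q.1 q.2) := by
  unfold ap
  refine (PiLp.continuous_toLp 2 _).comp ?_
  refine continuous_pi fun i => ?_
  fin_cases i
  · show Continuous fun q : ℝ × ℝ => Real.sin q.1 * Real.cos q.2
    fun_prop
  · show Continuous fun q : ℝ × ℝ => Real.sin q.1 * Real.sin q.2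
    fun_prop
  · show Continuous fun q : ℝ × ℝ => Real.cos q.1
    fun_prop

private theorem ang_mp : MeasurePreserving (fun y : E3 => (y 2, ((y 0 : ℝ), (y 1 : ℝ))))
    (volume : Measure E3) (volume : Measure (ℝ × (ℝ × ℝ))) := by
  have h1 : MeasurePreserving (fun y : E3 => y.ofLp) volume volume :=
    PiLp.volume_preserving_ofLp (Fin 3)
  have h2 := volume_preserving_piFinSuccAbove (fun _ : Fin 3 => ℝ) 2
  have h3 := (MeasurePreserving.id (volume : Measure ℝ)).prod
    (volume_preserving_finTwoArrow ℝ)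
  have h4 := h3.comp (h2.comp h1)
  exact h4

private theorem pol {f : ℝ × ℝ → ℝ≥0∞} (hf : Measurable f) : ∫⁻ w, f w =
    ∫⁻ r in Ioi (0 : ℝ), ∫⁻ β in Ioo (-Real.pi) Real.pi,
      ENNReal.ofReal r * f (r * Real.cos β, r * Real.sin β) := by
  rw [← lintegral_comp_polarCoord_symm, polarCoord_target, Measure.volume_eq_prod,
    ← Measure.prod_restrict, lintegral_prod]
  · simp only [polarCoord_symm_apply, smul_eq_mul]
  · simp only [polarCoord_symm_apply, smul_eq_mul]
    fun_prop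

private theorem rad_fin : ∫⁻ r in Ioi (0 : ℝ), ENNReal.ofReal (r ^ 2) *
    ENNReal.ofReal (Real.exp (-r ^ 2)) = ENNReal.ofReal (Real.Gamma (((2 : ℕ) + 1) / 2) / 2) := by
  have hk : (-1 : ℝ) < ((2 : ℕ) : ℝ) := by norm_num
  have h1 : IntegrableOn (fun r : ℝ => r ^ 2 * Real.exp (-r ^ 2)) (Ioi 0) := by
    have h := integrableOn_rpow_mul_exp_neg_rpow (p := 2) (s := ((2 : ℕ) : ℝ)) hk two_pos
    refine h.congr_fun (fun x _ => ?_) measurableSet_Ioi
    simp
  have h2 : ∫ r in Ioi (0 : ℝ), r ^ 2 * Real.exp (-r ^ 2) = Real.Gamma (((2 : ℕ) + 1) / 2) / 2 := by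
    have h := integral_rpow_mul_exp_neg_rpow (p := 2) (q := ((2 : ℕ) : ℝ)) two_pos hk
    have h2 : ∫ r in Ioi (0 : ℝ), r ^ 2 * Real.exp (-r ^ 2) =
        ∫ x in Ioi (0 : ℝ), x ^ ((2 : ℕ) : ℝ) * Real.exp (-x ^ (2 : ℝ)) :=
      setIntegral_congr_fun measurableSet_Ioi (fun x _ => by simp)
    rw [h2, h]
    ring
  rw [← h2, ofReal_integral_eq_lintegral_ofReal h1]
  · refine setLIntegral_congr_fun measurableSet_Ioi fun r hr => ?_
    rw [← ENNReal.ofReal_mul (by positivity)]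
  · filter_upwards [ae_restrict_mem measurableSet_Ioi] with r hr
    have : (0 : ℝ) < r := hr
    simp only [Pi.zero_apply]
    positivity

private def yy (z : ℝ × (ℝ × ℝ)) : E3 := !₂[z.2.1, z.2.2, z.1]

private theorem yy_meas : Measurable yy := by
  unfold yy
  refine ((PiLp.continuous_toLp 2 _).comp ?_).measurable
  refine continuous_pi fun i => ?_
  fin_cases i
  · show Continuous fun z : ℝ × (ℝ × ℝ) => z.2.1
    fun_prop
  · show Continuous fun z : ℝ × (ℝ × ℝ) => z.2.2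
    fun_prop
  · show Continuous fun z : ℝ × (ℝ × ℝ) => z.1
    fun_prop

private theorem yy_eta (y : E3) : yy (y 2, ((y 0 : ℝ), (y 1 : ℝ))) = y := by
  ext i
  fin_cases i <;> rfl

private theorem yy_ap (ρ t β : ℝ) :
    yy (ρ * Real.cos t, (ρ * Real.sin t * Real.cos β, ρ * Real.sin t * Real.sin β)) = ρ • ap t β := by
  ext i
  fin_cases i
  · show ρ * Real.sin t * Real.cos β = ρ * (Real.sin t * Real.cos β)
    ring
  · show ρ * Real.sin t * Real.sin β = ρ * (Real.sin t * Real.sin β)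
    ring
  · rfl

theorem norm_ap (t β : ℝ) : ‖ap t β‖ = 1 := by
  have h : ‖ap t β‖ ^ 2 = 1 := by
    rw [normsq3, ap0, ap1, ap2]
    have h1 := Real.sin_sq_add_cos_sq β
    have h2 := Real.sin_sq_add_cos_sq t
    linear_combination (Real.sin t ^ 2) * h1 + h2
  have h0 := norm_nonneg (ap t β)
  nlinarith

/-- transfer of lower integrals -/
theorem lint_ang {F : E3 → ℝ≥0∞} (hF : Measurable F) :
    ENNReal.ofReal (4 * Real.pi) * ∫⁻ p, F p ∂PP =
      ∫⁻ β in Ioo (-Real.pi) Real.pi, ∫⁻ t in Ioo 0 Real.pi,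
        ENNReal.ofReal (Real.sin t) * F (ap t β) := by
  set g : ℝ → ℝ≥0∞ := fun r => ENNReal.ofReal (Real.exp (-r ^ 2)) with hg
  have hgm : Measurable g := by
    rw [hg]
    fun_prop
  have h := lint_polar F hF g hgm
  set H : ℝ × (ℝ × ℝ) → ℝ≥0∞ := fun z => F ((‖yy z‖⁻¹ : ℝ) • yy z) * g ‖yy z‖ with hH
  have hHm : Measurable H := by
    rw [hH]
    have := yy_meas
    fun_prop
  have e1 : ∫⁻ y : E3, F ((‖y‖⁻¹ : ℝ) • y) * g ‖y‖ = ∫⁻ z, H z := by
    rw [← ang_mp.lintegral_comp hHm]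
    refine lintegral_congr fun y => ?_
    rw [hH]
    simp only [yy_eta]
  have e2 : ∫⁻ z, H z = ∫⁻ z0 : ℝ, ∫⁻ r in Ioi (0 : ℝ), ∫⁻ β in Ioo (-Real.pi) Real.pi,
      ENNReal.ofReal r * H (z0, (r * Real.cos β, r * Real.sin β)) := by
    rw [Measure.volume_eq_prod, lintegral_prod _ hHm.aemeasurable]
    refine lintegral_congr fun z0 => ?_
    exact pol (f := fun w => H (z0, w)) (hHm.comp (measurable_const.prodMk measurable_id))
  have mG : Measurable (fun q : ℝ × ℝ × ℝ => ENNReal.ofReal q.2.1 *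
      H (q.1, (q.2.1 * Real.cos q.2.2, q.2.1 * Real.sin q.2.2))) := by
    fun_prop
  have e3 : ∫⁻ z0 : ℝ, ∫⁻ r in Ioi (0 : ℝ), ∫⁻ β in Ioo (-Real.pi) Real.pi,
      ENNReal.ofReal r * H (z0, (r * Real.cos β, r * Real.sin β)) =
      ∫⁻ β in Ioo (-Real.pi) Real.pi, ∫⁻ z0 : ℝ, ∫⁻ r in Ioi (0 : ℝ),
        ENNReal.ofReal r * H (z0, (r * Real.cos β, r * Real.sin β)) := by
    have s1 : ∀ z0 : ℝ, ∫⁻ r in Ioi (0 : ℝ), ∫⁻ β in Ioo (-Real.pi) Real.pi,
        ENNReal.ofReal r * H (z0, (r * Real.cos β, r * Real.sin β)) =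
        ∫⁻ β in Ioo (-Real.pi) Real.pi, ∫⁻ r in Ioi (0 : ℝ),
        ENNReal.ofReal r * H (z0, (r * Real.cos β, r * Real.sin β)) := by
      intro z0
      rw [lintegral_lintegral_swap]
      refine Measurable.aemeasurable ?_
      unfold Function.uncurry
      fun_prop
    simp_rw [s1]
    rw [lintegral_lintegral_swap]
    refine Measurable.aemeasurable ?_
    unfold Function.uncurry
    refine Measurable.lintegral_prod_right' (f := fun q : (ℝ × ℝ) × ℝ => ENNReal.ofReal q.2 *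
      H (q.1.1, (q.2 * Real.cos q.1.2, q.2 * Real.sin q.1.2))) ?_
    fun_prop
  have e4 : ∀ β : ℝ, ∫⁻ z0 : ℝ, ∫⁻ r in Ioi (0 : ℝ),
      ENNReal.ofReal r * H (z0, (r * Real.cos β, r * Real.sin β)) =
      ∫⁻ ρ in Ioi (0 : ℝ), (ENNReal.ofReal (ρ ^ 2) * g ρ) * ∫⁻ t in Ioo 0 Real.pi,
        ENNReal.ofReal (Real.sin t) * F (ap t β) := by
    intro β
    set f : ℝ × ℝ → ℝ≥0∞ := fun w => (Ioi (0 : ℝ)).indicator (fun r => ENNReal.ofReal r *
      H (w.1, (r * Real.cos β, r * Real.sin β))) w.2 with hf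
    have hfm : Measurable f := by
      have : f = (Prod.snd ⁻¹' (Ioi (0 : ℝ))).indicator (fun w : ℝ × ℝ => ENNReal.ofReal w.2 *
          H (w.1, (w.2 * Real.cos β, w.2 * Real.sin β))) := by
        funext w
        rw [hf]
        by_cases hw : w.2 ∈ Ioi (0 : ℝ)
        · simp only [indicator_of_mem hw]
          rw [indicator_of_mem (show w ∈ Prod.snd ⁻¹' (Ioi (0 : ℝ)) from hw)]
        · simp only [indicator_of_notMem hw]
          rw [indicator_of_notMem (show w ∉ Prod.snd ⁻¹' (Ioi (0 : ℝ)) from hw)]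
      rw [this]
      refine Measurable.indicator (by fun_prop) (measurable_snd measurableSet_Ioi)
    have a1 : ∫⁻ z0 : ℝ, ∫⁻ r in Ioi (0 : ℝ),
        ENNReal.ofReal r * H (z0, (r * Real.cos β, r * Real.sin β)) = ∫⁻ w, f w := by
      rw [Measure.volume_eq_prod, lintegral_prod _ hfm.aemeasurable]
      refine lintegral_congr fun z0 => ?_
      rw [hf]
      simp only
      rw [lintegral_indicator measurableSet_Ioi]
    rw [a1, pol hfm]
    refine setLIntegral_congr_fun measurableSet_Ioi fun ρ hρ => ?_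
    have hρ0 : (0 : ℝ) < ρ := hρ
    have a2 : Ioo 0 Real.pi ⊆ Ioo (-Real.pi) Real.pi := by
      intro t ht
      exact ⟨by linarith [ht.1, Real.pi_pos], ht.2⟩
    have a3 : ∫⁻ t in Ioo (-Real.pi) Real.pi, ENNReal.ofReal ρ *
        f (ρ * Real.cos t, ρ * Real.sin t) =
        ∫⁻ t in Ioo (-Real.pi) Real.pi, (Ioo 0 Real.pi).indicator (fun t =>
          (ENNReal.ofReal (ρ ^ 2) * g ρ) * (ENNReal.ofReal (Real.sin t) * F (ap t β))) t := by
      refine setLIntegral_congr_fun measurableSet_Ioo fun t ht => ?_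
      by_cases h0 : 0 < t
      · have hs : 0 < Real.sin t := Real.sin_pos_of_pos_of_lt_pi h0 ht.2
        have hm : ρ * Real.sin t ∈ Ioi (0 : ℝ) := mul_pos hρ0 hs
        rw [indicator_of_mem (show t ∈ Ioo 0 Real.pi from ⟨h0, ht.2⟩), hf]
        simp only [indicator_of_mem hm]
        rw [hH]
        simp only
        rw [yy_ap, norm_smul, norm_ap, mul_one, Real.norm_eq_abs, abs_of_pos hρ0, smul_smul,
          inv_mul_cancel₀ hρ0.ne', one_smul, pow_two, ENNReal.ofReal_mul hρ0.le,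
          ENNReal.ofReal_mul hρ0.le]
        ring
      · have hs : Real.sin t ≤ 0 := Real.sin_nonpos_of_nonpos_of_neg_pi_le (not_lt.1 h0) ht.1.le
        have hm : ρ * Real.sin t ∉ Ioi (0 : ℝ) := by
          intro h
          have : 0 < ρ * Real.sin t := h
          nlinarith
        rw [indicator_of_notMem (fun h : t ∈ Ioo 0 Real.pi => h0 h.1), hf]
        simp only [indicator_of_notMem hm, mul_zero]
    rw [a3, setLIntegral_indicator measurableSet_Ioo, inter_eq_left.2 a2, lintegral_const_mul']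
    exact ENNReal.mul_ne_top ENNReal.ofReal_ne_top ENNReal.ofReal_ne_top
  have mI : ∀ β : ℝ, Measurable (fun t : ℝ => ENNReal.ofReal (Real.sin t) * F (ap t β)) := by
    intro β
    have := (ap_cont.comp (continuous_id.prodMk (continuous_const (y := β)))).measurable
    have h2 : Measurable (fun t : ℝ => F (ap t β)) := hF.comp this
    fun_prop
  have e5 : ∫⁻ y : E3, F ((‖y‖⁻¹ : ℝ) • y) * g ‖y‖ =
      (∫⁻ β in Ioo (-Real.pi) Real.pi, ∫⁻ t in Ioo 0 Real.pi,
        ENNReal.ofReal (Real.sin t) * F (ap t β)) *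
      ∫⁻ r in Ioi (0 : ℝ), ENNReal.ofReal (r ^ 2) * g r := by
    rw [e1, e2, e3]
    simp_rw [e4]
    have b1 : ∀ β : ℝ, ∫⁻ ρ in Ioi (0 : ℝ), (ENNReal.ofReal (ρ ^ 2) * g ρ) *
        ∫⁻ t in Ioo 0 Real.pi, ENNReal.ofReal (Real.sin t) * F (ap t β) =
        (∫⁻ r in Ioi (0 : ℝ), ENNReal.ofReal (r ^ 2) * g r) *
        ∫⁻ t in Ioo 0 Real.pi, ENNReal.ofReal (Real.sin t) * F (ap t β) := by
      intro β
      rw [lintegral_mul_const]
      fun_prop
    simp_rw [b1]
    have hR : (∫⁻ r in Ioi (0 : ℝ), ENNReal.ofReal (r ^ 2) * g r) ≠ ⊤ := by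
      rw [hg]
      simp only
      rw [rad_fin]
      exact ENNReal.ofReal_ne_top
    rw [lintegral_const_mul' _ _ hR, mul_comm]
  rw [e5] at h
  have hR : (∫⁻ r in Ioi (0 : ℝ), ENNReal.ofReal (r ^ 2) * g r) =
      ENNReal.ofReal (Real.Gamma (((2 : ℕ) + 1) / 2) / 2) := rad_fin
  rw [hR] at h
  have g0 : 0 < Real.Gamma (((2 : ℕ) + 1 : ℝ) / 2) / 2 := by
    have := Real.Gamma_pos_of_pos (show (0 : ℝ) < ((2 : ℕ) + 1) / 2 by norm_num)
    positivity
  exact ((ENNReal.mul_left_inj (by simpa using g0) ENNReal.ofReal_ne_top).1 h).symm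

/-- transfer of integrals of nonnegative functions -/
theorem int_ang {f : E3 → ℝ} (hf : Measurable f) (h0 : ∀ p, 0 ≤ f p) {G : ℝ → ℝ → ℝ}
    (hG : Continuous (fun q : ℝ × ℝ => G q.1 q.2))
    (h : ∀ t ∈ Ioo 0 Real.pi, ∀ β, Real.sin t * f (ap t β) = G t β) :
    4 * Real.pi * ∫ p, f p ∂PP = ∫ t in (0 : ℝ)..Real.pi, ∫ β in (-Real.pi)..Real.pi, G t β := by
  have hpi := Real.pi_pos
  set μ1 : Measure ℝ := volume.restrict (Ioo 0 Real.pi) with hμ1
  set μ2 : Measure ℝ := volume.restrict (Ioo (-Real.pi) Real.pi) with hμ2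
  have hint : Integrable (fun q : ℝ × ℝ => G q.1 q.2) (μ1.prod μ2) := by
    rw [hμ1, hμ2, Measure.prod_restrict, ← Measure.volume_eq_prod]
    have h1 : IntegrableOn (fun q : ℝ × ℝ => G q.1 q.2)
        (Icc 0 Real.pi ×ˢ Icc (-Real.pi) Real.pi) volume :=
      hG.continuousOn.integrableOn_compact (isCompact_Icc.prod isCompact_Icc)
    exact h1.mono_set (prod_mono Ioo_subset_Icc_self Ioo_subset_Icc_self)
  have hpos : 0 ≤ᵐ[μ1.prod μ2] fun q : ℝ × ℝ => G q.1 q.2 := by
    rw [hμ1, hμ2, Measure.prod_restrict]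
    filter_upwards [ae_restrict_mem (measurableSet_Ioo.prod measurableSet_Ioo)] with q hq
    have h1 := h q.1 hq.1 q.2
    have h2 := Real.sin_pos_of_pos_of_lt_pi hq.1.1 hq.1.2
    show 0 ≤ G q.1 q.2
    rw [← h1]
    exact mul_nonneg h2.le (h0 _)
  have e1 : ∫ t in (0 : ℝ)..Real.pi, ∫ β in (-Real.pi)..Real.pi, G t β =
      ∫ q, G q.1 q.2 ∂(μ1.prod μ2) := by
    rw [integral_prod _ hint, intervalIntegral.integral_of_le hpi.le,
      integral_Ioc_eq_integral_Ioo]
    refine integral_congr_ae (Eventually.of_forall fun t => ?_)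
    show ∫ β in (-Real.pi)..Real.pi, G t β = _
    rw [intervalIntegral.integral_of_le (by linarith), integral_Ioc_eq_integral_Ioo]
  have e2 : ∫ q, G q.1 q.2 ∂(μ1.prod μ2) =
      (∫⁻ q, ENNReal.ofReal (G q.1 q.2) ∂(μ1.prod μ2)).toReal :=
    integral_eq_lintegral_of_nonneg_ae hpos hint.aestronglyMeasurable
  have e3 : ∫⁻ q, ENNReal.ofReal (G q.1 q.2) ∂(μ1.prod μ2) =
      ∫⁻ β in Ioo (-Real.pi) Real.pi, ∫⁻ t in Ioo 0 Real.pi, ENNReal.ofReal (G t β) := by
    rw [lintegral_prod_symm']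
    exact hG.measurable.ennreal_ofReal
  have e4 : ∫⁻ β in Ioo (-Real.pi) Real.pi, ∫⁻ t in Ioo 0 Real.pi, ENNReal.ofReal (G t β) =
      ENNReal.ofReal (4 * Real.pi) * ∫⁻ p, ENNReal.ofReal (f p) ∂PP := by
    rw [lint_ang hf.ennreal_ofReal]
    refine lintegral_congr fun β => ?_
    refine setLIntegral_congr_fun measurableSet_Ioo fun t ht => ?_
    rw [← ENNReal.ofReal_mul (Real.sin_pos_of_pos_of_lt_pi ht.1 ht.2).le, h t ht β]
  rw [e1, e2, e3, e4, ENNReal.toReal_mul, ENNReal.toReal_ofReal (by positivity),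
    integral_eq_lintegral_of_nonneg_ae (Eventually.of_forall h0) hf.aestronglyMeasurable]

/-! ### Parseval for trigonometric polynomials -/

private theorem exp_int (m : ℤ) : ∫ β in (-Real.pi)..Real.pi, Complex.exp ((m : ℂ) * β * Complex.I) =
    if m = 0 then ((2 * Real.pi : ℝ) : ℂ) else 0 := by
  split_ifs with h
  · subst h
    simp
    ring
  · have hc : ((m : ℂ) * Complex.I) ≠ 0 := by
      simp [h]
    have h1 := integral_exp_mul_complex (a := -Real.pi) (b := Real.pi) hc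
    have h2 : ∀ β : ℝ, Complex.exp ((m : ℂ) * β * Complex.I) =
        Complex.exp ((m : ℂ) * Complex.I * β) := by
      intro β
      congr 1
      ring
    simp_rw [h2]
    rw [h1]
    have h3 : Complex.exp ((m : ℂ) * Complex.I * ((-Real.pi : ℝ) : ℂ)) =
        Complex.exp ((m : ℂ) * Complex.I * (Real.pi : ℂ)) := by
      rw [Complex.exp_eq_exp_iff_exists_int]
      refine ⟨-m, ?_⟩
      push_cast
      ring
    rw [h3, sub_self, zero_div]

/-- Parseval -/
theorem parseval (n : ℕ) (a : ℕ → ℂ) :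
    ∫ β in (-Real.pi)..Real.pi, ‖∑ k ∈ Finset.range n, a k * Complex.exp ((k : ℂ) * β * Complex.I)‖ ^ 2 =
      2 * Real.pi * ∑ k ∈ Finset.range n, ‖a k‖ ^ 2 := by
  have e1 : ∀ β : ℝ, ((‖∑ k ∈ Finset.range n, a k * Complex.exp ((k : ℂ) * β * Complex.I)‖ ^ 2 : ℝ) : ℂ)
      = ∑ k ∈ Finset.range n, ∑ l ∈ Finset.range n, (a k * (starRingEnd ℂ) (a l)) *
        Complex.exp ((((k : ℤ) - (l : ℤ) : ℤ) : ℂ) * β * Complex.I) := by
    intro β
    rw [← Complex.normSq_eq_norm_sq, Complex.normSq_eq_conj_mul_self, map_sum, mul_comm,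
      Finset.sum_mul_sum]
    refine Finset.sum_congr rfl fun k _ => Finset.sum_congr rfl fun l _ => ?_
    have h1 : (starRingEnd ℂ) (a l * Complex.exp ((l : ℂ) * β * Complex.I)) =
        (starRingEnd ℂ) (a l) * Complex.exp (-((l : ℂ) * β * Complex.I)) := by
      rw [map_mul, ← Complex.exp_conj]
      congr 2
      simp
    have h2 : Complex.exp ((((k : ℤ) - (l : ℤ) : ℤ) : ℂ) * β * Complex.I) =
        Complex.exp ((k : ℂ) * β * Complex.I) * Complex.exp (-((l : ℂ) * β * Complex.I)) := by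
      rw [← Complex.exp_add]
      congr 1
      push_cast
      ring
    rw [h1, h2]
    ring
  have e2 : ((∫ β in (-Real.pi)..Real.pi,
      ‖∑ k ∈ Finset.range n, a k * Complex.exp ((k : ℂ) * β * Complex.I)‖ ^ 2 : ℝ) : ℂ) =
      ((2 * Real.pi * ∑ k ∈ Finset.range n, ‖a k‖ ^ 2 : ℝ) : ℂ) := by
    rw [← intervalIntegral.integral_ofReal]
    simp_rw [e1]
    have hc : ∀ k l : ℕ, IntervalIntegrable (fun β : ℝ => (a k * (starRingEnd ℂ) (a l)) *
        Complex.exp ((((k : ℤ) - (l : ℤ) : ℤ) : ℂ) * β * Complex.I)) volume (-Real.pi) Real.pi := by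
      intro k l
      refine Continuous.intervalIntegrable ?_ _ _
      fun_prop
    rw [intervalIntegral.integral_finsetSum]
    · have h3 : ∀ k ∈ Finset.range n, ∫ β in (-Real.pi)..Real.pi, ∑ l ∈ Finset.range n,
          (a k * (starRingEnd ℂ) (a l)) *
          Complex.exp ((((k : ℤ) - (l : ℤ) : ℤ) : ℂ) * β * Complex.I) =
          ((2 * Real.pi : ℝ) : ℂ) * ((‖a k‖ ^ 2 : ℝ) : ℂ) := by
        intro k hk
        rw [intervalIntegral.integral_finsetSum (fun l _ => hc k l)]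
        have h4 : ∀ l ∈ Finset.range n, ∫ β in (-Real.pi)..Real.pi, (a k * (starRingEnd ℂ) (a l)) *
            Complex.exp ((((k : ℤ) - (l : ℤ) : ℤ) : ℂ) * β * Complex.I) =
            if l = k then ((2 * Real.pi : ℝ) : ℂ) * ((‖a k‖ ^ 2 : ℝ) : ℂ) else 0 := by
          intro l _
          rw [intervalIntegral.integral_const_mul, exp_int]
          by_cases hlk : l = k
          · subst hlk
            rw [if_pos rfl, if_pos (by simp), ← Complex.normSq_eq_norm_sq,
              Complex.normSq_eq_conj_mul_self]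
            ring
          · rw [if_neg hlk, if_neg (by omega), mul_zero]
        rw [Finset.sum_congr rfl h4, Finset.sum_ite_eq' , if_pos hk]
      rw [Finset.sum_congr rfl h3]
      push_cast
      rw [Finset.mul_sum]
    · intro k _
      refine Continuous.intervalIntegrable ?_ _ _
      fun_prop
  exact_mod_cast e2

end Pool.Agent.FPX
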