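import Mathlib
import Pool.Agent.FPX.ARG

/-
ARN (helper18): the inequality of ARG with an arbitrary cost density `N (u, p, q)` in place of `ν`.
-/

open MeasureTheory Set Filter Topology Complex
open scoped ENNReal NNReal ContDiff ComplexConjugate

noncomputable section

namespace Pool.Agent.FPX.CST

open Pool.Agent.FPX.UMP Pool.Agent.FPX.UMQ Pool.Agent.FPX.UXA Pool.Agent.EWD

variable {n : ℕ}

section Surface

variable {M : Type} [MetricSpace M] {γ : ℝ → M}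
variable {Φ : Fin (n + 2) → (ℝ → ℝ) → ℝ} {dΦ : Fin (n + 2) → (ℝ → ℝ) → (ℝ → ℝ) → ℝ} {K L : ℝ}

/-- the density `N` of the two derivatives, in the order given by the orientation -/
def nrx (N : (Fin (n + 2) → ℝ) → (Fin (n + 2) → ℝ) → (Fin (n + 2) → ℝ) → ℝ) (C : Calc M γ)
    (U : Fin (n + 2) → M → ℝ) (o : Om) : ℝ :=
  if C.sg = 1 then N (vc U (C.pt o)) (vx C U o) (vy C U o) else N (vc U (C.pt o)) (vy C U o) (vx C U o)

theorem nrx_eq (N : (Fin (n + 2) → ℝ) → (Fin (n + 2) → ℝ) → (Fin (n + 2) → ℝ) → ℝ) (C : Calc M γ)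
    (U : Fin (n + 2) → M → ℝ) (o : Om) :
    nrx N C U o = N (vc U (C.pt o)) (vx C U o) (vy C U o) ∧ C.sg = 1 ∨
      nrx N C U o = N (vc U (C.pt o)) (vy C U o) (vx C U o) ∧ C.sg = -1 := by
  rcases C.pm with h | h
  · left
    exact ⟨if_pos h, h⟩
  · right
    refine ⟨if_neg ?_, h⟩
    rw [h]
    norm_num

/-- for `N = ν` this is the density of ARE -/
theorem nrx_nu (C : Calc M γ) (U : Fin (n + 2) → M → ℝ) : nrx nu C U = nur C U := by
  funext o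
  rcases nur_eq C U o with ⟨e1, e2⟩ | ⟨e1, e2⟩
  · rw [e1]
    exact if_pos e2
  · rw [e1]
    refine if_neg ?_
    rw [e2]
    norm_num

theorem nrx_meas {N : (Fin (n + 2) → ℝ) → (Fin (n + 2) → ℝ) → (Fin (n + 2) → ℝ) → ℝ}
    (hN : Measurable fun w : (Fin (n + 2) → ℝ) × (Fin (n + 2) → ℝ) × (Fin (n + 2) → ℝ) =>
      N w.1 w.2.1 w.2.2) (C : Calc M γ) {U : Fin (n + 2) → M → ℝ} (hU : ∀ i, Lip (U i)) :
    AEMeasurable (nrx N C U) C.μ := by
  have h1 : AEMeasurable (fun o => vc U (C.pt o)) C.μ := aemeasurable_pi_lambda _ fun i => C.meas_pt (hU i)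
  have h2 : AEMeasurable (vx C U) C.μ := aemeasurable_pi_lambda _ fun i => C.meas_gx (hU i)
  have h3 : AEMeasurable (vy C U) C.μ := aemeasurable_pi_lambda _ fun i => C.meas_gy (hU i)
  rcases C.pm with h | h
  · have e : nrx N C U = fun o => N (vc U (C.pt o)) (vx C U o) (vy C U o) := funext fun o => if_pos h
    rw [e]
    exact hN.comp_aemeasurable (h1.prodMk (h2.prodMk h3))
  · have e : nrx N C U = fun o => N (vc U (C.pt o)) (vy C U o) (vx C U o) := funext fun o => if_neg (by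
      rw [h]
      norm_num)
    rw [e]
    exact hN.comp_aemeasurable (h1.prodMk (h3.prodMk h2))

/-- **the inequality on the surface** -/
theorem raw_cost (S : Sys Φ dΦ K L) {W : ℝ → ℝ}
    (hW0 : ContinuousOn W (Ici 0)) {a : Fin (n + 2) → (Fin (n + 2) → ℝ) → ℝ}
    (ha : ∀ i, ContDiffOn ℝ 1 (a i) (OO n))
    (ha0 : ∀ ε : ℝ, 0 < ε → ∃ η : ℝ, 0 < η ∧ ∀ f h, Ef f → Measurable h → (∀ t, |h t| ≤ 1) →
      cc (cu Φ f) < η → |(∑ i, a i (cu Φ f) * du dΦ f h i)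
        - W (cc (cu Φ f)) * (cu Φ f 0 * du dΦ f h 1 - cu Φ f 1 * du dΦ f h 0)| ≤ ε)
    {N : (Fin (n + 2) → ℝ) → (Fin (n + 2) → ℝ) → (Fin (n + 2) → ℝ) → ℝ}
    (hNm : Measurable fun w : (Fin (n + 2) → ℝ) × (Fin (n + 2) → ℝ) × (Fin (n + 2) → ℝ) =>
      N w.1 w.2.1 w.2.2)
    (hNb : ∀ b, 0 ≤ b → b < Real.pi / 2 → ∃ B : ℝ, ∀ f h k, Ef f → (∀ t, |f t| ≤ b) → Var h k →
      |N (cu Φ f) (du dΦ f h) (du dΦ f k)| ≤ B)
    {μ T : ℝ} (hst : ∀ f h k, Ef f → Var h k →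
      dl (fun i u => fderiv ℝ (a i) u) (cu Φ f) (du dΦ f h) (du dΦ f k)
        + μ * N (cu Φ f) (du dΦ f h) (du dΦ f k) ≤ T) {e : ℝ} (he : 0 < e) :
    ∃ d : ℝ, 0 < d ∧ ∀ (M : Type) [MetricSpace M] [CompactSpace M] (γ : ℝ → M) (C : Calc M γ), Bd γ →
      ∀ (ρ : ℝ) (m : ℕ), 0 ≤ ρ → ρ < 1 → 2 ≤ m → (1 - ρ) * (Real.pi / 2) + 2 * (Real.pi / m) ≤ d →
        Integrable (nrx N C fun i => pull γ ρ m (Φ i)) C.μ ∧
        2 * Real.pi * W 0 - e + μ * ∫ o, nrx N C (fun i => pull γ ρ m (Φ i)) o ∂C.μ ≤ T * C.vol := by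
  have hL := S.map.L0
  have hK := S.map.K0
  have hpi := Real.pi_pos
  -- the choice of `κ`
  obtain ⟨δ, hδ0, hδ⟩ : ∃ δ : ℝ, 0 < δ ∧ 8 * Real.pi * L * δ ≤ e / 2 := by
    refine ⟨e / (16 * Real.pi * (L + 1)), by positivity, ?_⟩
    rw [mul_div_assoc', div_le_iff₀ (by positivity)]
    nlinarith [mul_pos he hpi, mul_nonneg hL (mul_pos he hpi).le]
  obtain ⟨ε, hε0, hε⟩ : ∃ ε : ℝ, 0 < ε ∧ 2 * Real.pi * ε ≤ e / 2 := by
    refine ⟨e / (4 * Real.pi), by positivity, le_of_eq ?_⟩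
    field_simp
    ring
  obtain ⟨η, hη0, hη⟩ := ha0 ε hε0
  obtain ⟨κ₁, hκ₁, hκ₁1, hκ₁'⟩ : ∃ κ : ℝ, 0 < κ ∧ κ ≤ 1 ∧
      ∀ r ∈ Icc ((1 - κ) ^ 2) 1, |r * W (√(1 - r)) - W 0| ≤ δ := by
    have c1 : ContinuousWithinAt (fun r : ℝ => r * W (√(1 - r))) (Iic 1) 1 := by
      have h2 : ContinuousOn (fun r : ℝ => r * W (√(1 - r))) (Iic 1) :=
        continuousOn_id.mul (hW0.comp (by fun_prop) fun r _ => Real.sqrt_nonneg _)
      exact h2 1 (mem_Iic.2 le_rfl)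
    rw [Metric.continuousWithinAt_iff] at c1
    obtain ⟨a, ha, ha'⟩ := c1 δ hδ0
    refine ⟨min (a / 4) 1, lt_min (by positivity) one_pos, min_le_right _ _, fun r hr => ?_⟩
    have h3 : dist r 1 < a := by
      rw [Real.dist_eq, abs_sub_comm, abs_of_nonneg (by linarith [hr.2])]
      have := hr.1
      have h5 : min (a / 4) 1 ≤ a / 4 := min_le_left _ _
      nlinarith [sq_nonneg (min (a / 4) 1)]
    have h4 := ha' (mem_Iic.2 hr.2) h3
    rw [Real.dist_eq] at h4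
    simp only [sub_self, Real.sqrt_zero, one_mul] at h4
    exact h4.le
  set κ : ℝ := min (min κ₁ (1 / (2 * (12 * L + 2)))) (min (η ^ 2 / 4) (1 / 2)) with hκ
  have hκ0 : 0 < κ := by
    rw [hκ]
    refine lt_min (lt_min hκ₁ (by positivity)) (lt_min (by positivity) (by norm_num))
  have k1 : κ ≤ κ₁ := (min_le_left _ _).trans (min_le_left _ _)
  have k2 : κ ≤ 1 / (2 * (12 * L + 2)) := (min_le_left _ _).trans (min_le_right _ _)
  have k3 : κ ≤ η ^ 2 / 4 := (min_le_right _ _).trans (min_le_left _ _)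
  have k4 : κ ≤ 1 / 2 := (min_le_right _ _).trans (min_le_right _ _)
  clear_value κ
  have k5 : κ * (12 * L + 2) < 1 := by
    have h1 : κ * (12 * L + 2) ≤ 1 / (2 * (12 * L + 2)) * (12 * L + 2) :=
      mul_le_mul_of_nonneg_right k2 (by positivity)
    have h2 : 1 / (2 * (12 * L + 2)) * (12 * L + 2) = 1 / 2 := by
      have : (12 * L + 2) ≠ 0 := by positivity
      field_simp
    linarith
  refine ⟨κ / (K + 1), by positivity, ?_⟩
  intro M _ _ γ C hγ ρ m hρ hρ1 hm hd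
  have hm0 : m ≠ 0 := by omega
  have p1 : 0 ≤ ρ * (Real.pi / 2) := mul_nonneg hρ (by positivity)
  have p2 : ρ * (Real.pi / 2) < Real.pi / 2 := by nlinarith [Real.pi_pos]
  have hb : ∀ s, 1 - κ ≤ pull γ ρ m (Φ 0) (γ s) * Real.cos s + pull γ ρ m (Φ 1) (γ s) * Real.sin s := by
    intro s
    refine le_trans ?_ (S.bdry hγ hρ hρ1 hm hd s)
    have : K * (κ / (K + 1)) ≤ κ := by
      rw [mul_div_assoc', div_le_iff₀ (by positivity)]
      nlinarith
    linarith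
  have hE : ∀ x, Ef (pf γ ρ m x) := fun x => pf_ef hγ hρ hρ1 hm0 x
  set U : Fin (n + 2) → M → ℝ := fun i => pull γ ρ m (Φ i) with hU
  have lU : ∀ i, Lip (U i) := fun i => by
    obtain ⟨L', h0, h1⟩ := S.bd i _ p1 p2
    exact ⟨_, pull_lip hγ hρ hρ1 hm0 (S.fn i) h0 h1⟩
  have hmem : ∀ x, vc U x ∈ OO n := fun x => S.map.disc _ (hE x)
  have hcb : ∀ s, cc (cu Φ (pf γ ρ m (γ s))) < η := by
    intro s
    have h1 := hb s
    have h2 := Real.sin_sq_add_cos_sq s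
    have h3 : (1 - κ) ^ 2 ≤ rr (cu Φ (pf γ ρ m (γ s))) := by
      have h4 : (pull γ ρ m (Φ 0) (γ s) * Real.cos s + pull γ ρ m (Φ 1) (γ s) * Real.sin s) ^ 2 ≤
          pull γ ρ m (Φ 0) (γ s) ^ 2 + pull γ ρ m (Φ 1) (γ s) ^ 2 := by
        nlinarith [sq_nonneg (pull γ ρ m (Φ 0) (γ s) * Real.sin s - pull γ ρ m (Φ 1) (γ s) * Real.cos s)]
      have h5 : (1 - κ) ^ 2 ≤ (pull γ ρ m (Φ 0) (γ s) * Real.cos s
          + pull γ ρ m (Φ 1) (γ s) * Real.sin s) ^ 2 := by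
        nlinarith
      exact h5.trans h4
    unfold cc
    rw [← Real.sqrt_sq hη0.le]
    refine Real.sqrt_lt_sqrt (sub_nonneg.2 (hmem (γ s)).le) ?_
    nlinarith
  have key := S.bdry_gen hW0 ha hγ hρ hρ1 hm k5 hb
    (fun r hr => hκ₁' r ⟨le_trans (pow_le_pow_left₀ (by linarith) (by linarith) 2) hr.1, hr.2⟩)
    (fun s h hh hh1 => hη _ h (hE _) hh hh1 (hcb s))
  obtain ⟨i1, s1⟩ := stokes_form C hγ lU isOpen_OO (fun x => hmem x) ha fun i _ hu =>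
    (((ha i).contDiffAt (isOpen_OO.mem_nhds hu)).differentiableAt one_ne_zero).hasFDerivAt
  have hLb := S.map.L0
  obtain ⟨B, hB⟩ := hNb _ p1 p2
  -- the pointwise inequality
  have hae : ∀ᵐ o ∂C.μ, (C.sg * dl (fun i u => fderiv ℝ (a i) u) (vc U (C.pt o)) (vx C U o) (vy C U o)
      + μ * nrx N C U o ≤ T) ∧ |nrx N C U o| ≤ B := by
    filter_upwards [transfer C hγ hρ hρ1 hm0] with o ho
    obtain ⟨h, k, V, H⟩ := ho
    have ex : vx C U o = du dΦ (pf γ ρ m (C.pt o)) h := funext fun i => (H _ _ (S.fn i)).2.1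
    have ey : vy C U o = du dΦ (pf γ ρ m (C.pt o)) k := funext fun i => (H _ _ (S.fn i)).2.2
    have eu : vc U (C.pt o) = cu Φ (pf γ ρ m (C.pt o)) := rfl
    have V' : Var k h := ⟨V.mesk, V.mesh, fun t => by rw [add_comm]; exact V.sq t⟩
    rcases nrx_eq N C U o with ⟨e1, e2⟩ | ⟨e1, e2⟩
    · rw [e1, e2, ex, ey, eu, one_mul]
      exact ⟨hst _ _ _ (hE _) V, hB _ _ _ (hE _) (pf_bd hγ hρ _) V⟩
    · rw [e1, e2, ex, ey, eu, neg_one_mul, ← dl_anti]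
      exact ⟨hst _ _ _ (hE _) V', hB _ _ _ (hE _) (pf_bd hγ hρ _) V'⟩
  have hint : Integrable (nrx N C U) C.μ :=
    Calc.integrable_of_bdd C (nrx_meas hNm C lU) (hae.mono fun o ho => ho.2)
  refine ⟨hint, ?_⟩
  have := C.fin
  have h3 := integral_mono_ae ((i1.const_mul C.sg).add (hint.const_mul μ)) (integrable_const T)
    (hae.mono fun o ho => ho.1)
  simp only [Pi.add_apply] at h3
  rw [integral_add (i1.const_mul C.sg) (hint.const_mul μ), integral_const_mul, integral_const_mul, s1,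
    integral_const] at h3
  have e1 : C.μ.real univ • T = T * C.vol := by
    rw [smul_eq_mul, mul_comm]
    rfl
  have e2 : C.sg * C.sg = 1 := by
    rcases C.pm with h | h <;> rw [h] <;> norm_num
  rw [e1, ← mul_assoc, e2, one_mul] at h3
  have h4 := (abs_le.1 key).1
  linarith

end Surface

end Pool.Agent.FPX.CST
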