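import Mathlib
import Pool.Agent.FPX.ARX

/-
ARP (helper66): `raw_le_two` of ARX (helper11) with a continuous function `ψ` of the deviation `ν` in place of
`μ ν`: the closed form is a form in the coordinates of `Φ`, the deviation that of the map `Φ'`.
-/

open MeasureTheory Set Filter Topology Complex
open scoped ENNReal NNReal ContDiff ComplexConjugate

noncomputable section

namespace Pool.Agent.FPX.CST

open Pool.Agent.FPX.UMP Pool.Agent.FPX.UMQ Pool.Agent.FPX.UXA Pool.Agent.EWD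

variable {n n' : ℕ}
variable {M : Type} [MetricSpace M] {γ : ℝ → M}
variable {Φ : Fin (n + 2) → (ℝ → ℝ) → ℝ} {dΦ : Fin (n + 2) → (ℝ → ℝ) → (ℝ → ℝ) → ℝ} {K L : ℝ}
variable {Φ' : Fin (n' + 2) → (ℝ → ℝ) → ℝ} {dΦ' : Fin (n' + 2) → (ℝ → ℝ) → (ℝ → ℝ) → ℝ} {K' L' : ℝ}

/-- **the inequality on the surface**: the form in the coordinates of `Φ`, a function `ψ` of the deviation `ν` of
another map `Φ'` -/
theorem raw_le_phi (S : Sys Φ dΦ K L) (S' : Sys Φ' dΦ' K' L') {W : ℝ → ℝ} (hW : ContDiffOn ℝ 1 W (Ioi 0))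
    (hW0 : ContinuousOn W (Ici 0)) {G : (Fin (n + 2) → ℝ) → ℂ} (hG : ContDiffOn ℝ 1 G (OO n))
    (hG0 : ∀ ε : ℝ, 0 < ε → ∃ η : ℝ, 0 < η ∧ ∀ f, Ef f → cc (cu Φ f) < η → ‖G (cu Φ f)‖ ≤ ε)
    {a : Fin (n + 2) → (Fin (n + 2) → ℝ) → ℝ} (ha : ∀ i, ContDiffOn ℝ 1 (a i) (OO n))
    (ha0 : ∀ ε : ℝ, 0 < ε → ∃ η : ℝ, 0 < η ∧ ∀ f h, Ef f → Measurable h → (∀ t, |h t| ≤ 1) →
      cc (cu Φ f) < η → |∑ i, a i (cu Φ f) * du dΦ f h i| ≤ ε)
    {ψ : ℝ → ℝ} (hψ : Continuous ψ) {T : ℝ} (hst : ∀ f h k, Ef f → Var h k →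
      dl (fun i u => fderiv ℝ (gv (gt W G) i) u) (cu Φ f) (du dΦ f h) (du dΦ f k)
        + dl (fun i u => fderiv ℝ (a i) u) (cu Φ f) (du dΦ f h) (du dΦ f k)
        + ψ (nu (cu Φ' f) (du dΦ' f h) (du dΦ' f k)) ≤ T) {e : ℝ} (he : 0 < e) :
    ∃ d : ℝ, 0 < d ∧ ∀ (M : Type) [MetricSpace M] [CompactSpace M] (γ : ℝ → M) (C : Calc M γ), Bd γ →
      ∀ (ρ : ℝ) (m : ℕ), 0 ≤ ρ → ρ < 1 → 2 ≤ m → (1 - ρ) * (Real.pi / 2) + 2 * (Real.pi / m) ≤ d →
        Integrable (fun o => ψ (nur C (fun i => pull γ ρ m (Φ' i)) o)) C.μ ∧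
        2 * Real.pi * W 0 - e + ∫ o, ψ (nur C (fun i => pull γ ρ m (Φ' i)) o) ∂C.μ ≤ T * C.vol := by
  have hL := S.map.L0
  have hK := S.map.K0
  have hpi := Real.pi_pos
  -- the choice of `κ`
  obtain ⟨δ, hδ0, hδ⟩ : ∃ δ : ℝ, 0 < δ ∧ 8 * Real.pi * L * δ ≤ e / 4 := by
    refine ⟨e / (32 * Real.pi * (L + 1)), by positivity, ?_⟩
    rw [mul_div_assoc', div_le_iff₀ (by positivity)]
    nlinarith [mul_pos he hpi, mul_nonneg hL (mul_pos he hpi).le]
  obtain ⟨ε, hε0, hε⟩ : ∃ ε : ℝ, 0 < ε ∧ 2 * Real.pi * (ε * L) ≤ e / 4 := by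
    refine ⟨e / (8 * Real.pi * (L + 1)), by positivity, ?_⟩
    rw [div_mul_eq_mul_div, mul_div_assoc', div_le_iff₀ (by positivity)]
    nlinarith [mul_pos he hpi, mul_nonneg hL (mul_pos he hpi).le]
  obtain ⟨η₁, hη1, hη1'⟩ := hG0 ε hε0
  obtain ⟨η₂, hη2, hη2'⟩ := ha0 (e / (4 * Real.pi)) (by positivity)
  obtain ⟨η, hη0, hηa, hηb⟩ : ∃ η : ℝ, 0 < η ∧ η ≤ η₁ ∧ η ≤ η₂ :=
    ⟨min η₁ η₂, lt_min hη1 hη2, min_le_left _ _, min_le_right _ _⟩
  obtain ⟨κ₁, hκ₁, hκ₁1, hκ₁'⟩ : ∃ κ : ℝ, 0 < κ ∧ κ ≤ 1 ∧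
      ∀ r ∈ Icc ((1 - κ) ^ 2) 1, |r * W (√(1 - r)) - W 0| ≤ δ := by
    have c1 : ContinuousWithinAt (fun r : ℝ => r * W (√(1 - r))) (Iic 1) 1 := by
      have h2 : ContinuousOn (fun r : ℝ => r * W (√(1 - r))) (Iic 1) :=
        continuousOn_id.mul (hW0.comp (by fun_prop) fun r _ => Real.sqrt_nonneg _)
      exact h2 1 (mem_Iic.2 le_rfl)
    rw [Metric.continuousWithinAt_iff] at c1
    obtain ⟨a, ha, ha'⟩ := c1 δ hδ0
    refine ⟨min (a / 4) 1, lt_min (by positivity) one_pos, min_le_right _ _, fun r hr => ?_⟩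
    have h3 : dist r 1 < a := by
      rw [Real.dist_eq, abs_sub_comm, abs_of_nonneg (by linarith [hr.2])]
      have := hr.1
      have h5 : min (a / 4) 1 ≤ a / 4 := min_le_left _ _
      nlinarith [sq_nonneg (min (a / 4) 1)]
    have h4 := ha' (mem_Iic.2 hr.2) h3
    rw [Real.dist_eq] at h4
    simp only [sub_self, Real.sqrt_zero, one_mul] at h4
    exact h4.le
  set κ : ℝ := min (min κ₁ (1 / (2 * (12 * L + 2)))) (min (η ^ 2 / 4) (1 / 2)) with hκ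
  have hκ0 : 0 < κ := by
    rw [hκ]
    refine lt_min (lt_min hκ₁ (by positivity)) (lt_min (by positivity) (by norm_num))
  have k1 : κ ≤ κ₁ := (min_le_left _ _).trans (min_le_left _ _)
  have k2 : κ ≤ 1 / (2 * (12 * L + 2)) := (min_le_left _ _).trans (min_le_right _ _)
  have k3 : κ ≤ η ^ 2 / 4 := (min_le_right _ _).trans (min_le_left _ _)
  have k4 : κ ≤ 1 / 2 := (min_le_right _ _).trans (min_le_right _ _)
  clear_value κ
  have k5 : κ * (12 * L + 2) < 1 := by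
    have h1 : κ * (12 * L + 2) ≤ 1 / (2 * (12 * L + 2)) * (12 * L + 2) :=
      mul_le_mul_of_nonneg_right k2 (by positivity)
    have h2 : 1 / (2 * (12 * L + 2)) * (12 * L + 2) = 1 / 2 := by
      have : (12 * L + 2) ≠ 0 := by positivity
      field_simp
    linarith
  refine ⟨κ / (K + 1), by positivity, ?_⟩
  intro M _ _ γ C hγ ρ m hρ hρ1 hm hd
  have hm0 : m ≠ 0 := by omega
  have p1 : 0 ≤ ρ * (Real.pi / 2) := mul_nonneg hρ (by positivity)
  have p2 : ρ * (Real.pi / 2) < Real.pi / 2 := by nlinarith [Real.pi_pos]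
  have hb : ∀ s, 1 - κ ≤ pull γ ρ m (Φ 0) (γ s) * Real.cos s + pull γ ρ m (Φ 1) (γ s) * Real.sin s := by
    intro s
    refine le_trans ?_ (S.bdry hγ hρ hρ1 hm hd s)
    have : K * (κ / (K + 1)) ≤ κ := by
      rw [mul_div_assoc', div_le_iff₀ (by positivity)]
      nlinarith
    linarith
  have hE : ∀ x, Ef (pf γ ρ m x) := fun x => pf_ef hγ hρ hρ1 hm0 x
  set U : Fin (n + 2) → M → ℝ := fun i => pull γ ρ m (Φ i) with hU
  have lU : ∀ i, Lip (U i) := fun i => by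
    obtain ⟨L', h0, h1⟩ := S.bd i _ p1 p2
    exact ⟨_, pull_lip hγ hρ hρ1 hm0 (S.fn i) h0 h1⟩
  have hmem : ∀ x, vc U x ∈ OO n := fun x => S.map.disc _ (hE x)
  set U' : Fin (n' + 2) → M → ℝ := fun i => pull γ ρ m (Φ' i) with hU'
  have lU' : ∀ i, Lip (U' i) := fun i => by
    obtain ⟨L', h0, h1⟩ := S'.bd i _ p1 p2
    exact ⟨_, pull_lip hγ hρ hρ1 hm0 (S'.fn i) h0 h1⟩
  have hcb : ∀ s, cc (cu Φ (pf γ ρ m (γ s))) < η := by
    intro s
    have h1 := hb s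
    have h2 := Real.sin_sq_add_cos_sq s
    have h3 : (1 - κ) ^ 2 ≤ rr (cu Φ (pf γ ρ m (γ s))) := by
      have h4 : (pull γ ρ m (Φ 0) (γ s) * Real.cos s + pull γ ρ m (Φ 1) (γ s) * Real.sin s) ^ 2 ≤
          pull γ ρ m (Φ 0) (γ s) ^ 2 + pull γ ρ m (Φ 1) (γ s) ^ 2 := by
        nlinarith [sq_nonneg (pull γ ρ m (Φ 0) (γ s) * Real.sin s - pull γ ρ m (Φ 1) (γ s) * Real.cos s)]
      have h5 : (1 - κ) ^ 2 ≤ (pull γ ρ m (Φ 0) (γ s) * Real.cos s
          + pull γ ρ m (Φ 1) (γ s) * Real.sin s) ^ 2 := by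
        nlinarith
      exact h5.trans h4
    unfold cc
    rw [← Real.sqrt_sq hη0.le]
    refine Real.sqrt_lt_sqrt (sub_nonneg.2 (hmem (γ s)).le) ?_
    nlinarith
  have hGb : ∀ s, ‖G (cu Φ (pf γ ρ m (γ s)))‖ ≤ ε := fun s => hη1' _ (hE _) ((hcb s).trans_le hηa)
  have key := S.bdry_int hW hW0 hG hγ hρ hρ1 hm k5 hb
    (fun r hr => hκ₁' r ⟨le_trans (pow_le_pow_left₀ (by linarith) (by linarith) 2) hr.1, hr.2⟩) hGb
  obtain ⟨i1, s1⟩ := stokes_gv C hγ lU (fun x => hmem x) (contDiffOn_gt hW hG)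
  obtain ⟨i2, s2⟩ := stokes_form C hγ lU isOpen_OO (fun x => hmem x) ha
    (a' := fun i u => fderiv ℝ (a i) u) fun i u hu =>
      (((ha i).contDiffAt (isOpen_OO.mem_nhds hu)).differentiableAt one_ne_zero).hasFDerivAt
  have key2 : |∫ t in (0 : ℝ)..(2 * Real.pi), ∑ i, a i (vc U (γ t)) * deriv (fun s => U i (γ s)) t|
      ≤ e / 2 := by
    have hae2 : ∀ᵐ t : ℝ, ‖∑ i, a i (vc U (γ t)) * deriv (fun s => U i (γ s)) t‖ ≤ e / (4 * Real.pi) := by
      filter_upwards [transfer_bd hγ hρ hρ1 hm0] with t ht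
      obtain ⟨h, hmeas, hb1, H⟩ := ht
      have hder : ∀ i, deriv (fun s => U i (γ s)) t = du dΦ (pf γ ρ m (γ t)) h i := fun i =>
        (H _ _ (S.fn i)).deriv
      have h1 := hη2' _ h (hE (γ t)) hmeas hb1 ((hcb t).trans_le hηb)
      rw [Real.norm_eq_abs]
      refine le_of_eq_of_le ?_ h1
      congr 1
      exact Finset.sum_congr rfl fun i _ => by rw [hder i]; rfl
    have := intervalIntegral.norm_integral_le_of_norm_le_const_ae (a := 0) (b := 2 * Real.pi)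
      (f := fun t => ∑ i, a i (vc U (γ t)) * deriv (fun s => U i (γ s)) t)
      (C := e / (4 * Real.pi)) (hae2.mono fun t ht _ => ht)
    rw [sub_zero, abs_of_pos Real.two_pi_pos, Real.norm_eq_abs] at this
    refine this.trans (le_of_eq ?_)
    field_simp
    ring
  have hLb := S.map.L0
  -- the pointwise inequality
  have hL' := S'.map.L0
  have hae : ∀ᵐ o ∂C.μ, (C.sg * dl (fun i u => fderiv ℝ (gv (gt W G) i) u) (vc U (C.pt o)) (vx C U o) (vy C U o)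
      + C.sg * dl (fun i u => fderiv ℝ (a i) u) (vc U (C.pt o)) (vx C U o) (vy C U o)
      + ψ (nur C U' o) ≤ T) ∧ |nur C U' o| ≤ 2 * L' ^ 2 := by
    filter_upwards [transfer C hγ hρ hρ1 hm0] with o ho
    obtain ⟨h, k, V, H⟩ := ho
    have ex : vx C U o = du dΦ (pf γ ρ m (C.pt o)) h := funext fun i => (H _ _ (S.fn i)).2.1
    have ey : vy C U o = du dΦ (pf γ ρ m (C.pt o)) k := funext fun i => (H _ _ (S.fn i)).2.2
    have eu : vc U (C.pt o) = cu Φ (pf γ ρ m (C.pt o)) := rfl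
    have ex' : vx C U' o = du dΦ' (pf γ ρ m (C.pt o)) h := funext fun i => (H _ _ (S'.fn i)).2.1
    have ey' : vy C U' o = du dΦ' (pf γ ρ m (C.pt o)) k := funext fun i => (H _ _ (S'.fn i)).2.2
    have eu' : vc U' (C.pt o) = cu Φ' (pf γ ρ m (C.pt o)) := rfl
    have V' : Var k h := ⟨V.mesk, V.mesh, fun t => by rw [add_comm]; exact V.sq t⟩
    have b1 := S'.nsq_le (hE (C.pt o)) V.mesh V.bh
    have b2 := S'.nsq_le (hE (C.pt o)) V.mesk V.bk
    have b3 := abs_ja_le (cu Φ' (pf γ ρ m (C.pt o))) (du dΦ' (pf γ ρ m (C.pt o)) h)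
      (du dΦ' (pf γ ρ m (C.pt o)) k)
    have n1 := S'.norm_le (hE (C.pt o)) V.mesh V.bh
    have n2 := S'.norm_le (hE (C.pt o)) V.mesk V.bk
    have b4 : |ja (cu Φ' (pf γ ρ m (C.pt o))) (du dΦ' (pf γ ρ m (C.pt o)) h)
      (du dΦ' (pf γ ρ m (C.pt o)) k)| ≤ L' ^ 2 := by
      refine b3.trans ?_
      rw [pow_two]
      exact mul_le_mul n1 n2 (norm_nonneg _) hL'
    have b5 := abs_le.1 b4
    have b6 := normSq_nonneg (vv (cu Φ' (pf γ ρ m (C.pt o))) (du dΦ' (pf γ ρ m (C.pt o)) h))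
    have b7 := normSq_nonneg (vv (cu Φ' (pf γ ρ m (C.pt o))) (du dΦ' (pf γ ρ m (C.pt o)) k))
    rcases C.pm with hs | hs
    · have e1 : nur C U' o = nu (cu Φ' (pf γ ρ m (C.pt o))) (du dΦ' (pf γ ρ m (C.pt o)) h)
          (du dΦ' (pf γ ρ m (C.pt o)) k) := by
        unfold nur nu
        rw [hs, ex', ey', eu']
        ring
      rw [e1, hs, ex, ey, eu, one_mul, one_mul]
      refine ⟨hst _ _ _ (hE _) V, ?_⟩
      unfold nu
      rw [abs_le]
      constructor <;> linarith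
    · have e1 : nur C U' o = nu (cu Φ' (pf γ ρ m (C.pt o))) (du dΦ' (pf γ ρ m (C.pt o)) k)
          (du dΦ' (pf γ ρ m (C.pt o)) h) := by
        unfold nur nu
        rw [hs, ex', ey', eu', ja_anti]
        ring
      rw [e1, hs, ex, ey, eu, neg_one_mul, neg_one_mul, ← dl_anti, ← dl_anti]
      refine ⟨hst _ _ _ (hE _) V', ?_⟩
      unfold nu
      rw [ja_anti, abs_le]
      constructor <;> linarith
  obtain ⟨B, hB⟩ := (isCompact_Icc (a := -(2 * L' ^ 2)) (b := 2 * L' ^ 2)).exists_bound_of_continuousOn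
    hψ.continuousOn
  have hint : Integrable (fun o => ψ (nur C U' o)) C.μ :=
    Calc.integrable_of_bdd C (hψ.measurable.comp_aemeasurable (nur_meas C lU'))
      (hae.mono fun o ho => hB _ (abs_le.1 ho.2))
  refine ⟨hint, ?_⟩
  have := C.fin
  have h3 := integral_mono_ae (((i1.const_mul C.sg).add (i2.const_mul C.sg)).add hint)
    (integrable_const T) (hae.mono fun o ho => ho.1)
  simp only [Pi.add_apply] at h3
  have i3 : Integrable (fun o => C.sg * dl (fun i u => fderiv ℝ (gv (gt W G) i) u) (vc U (C.pt o)) (vx C U o)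
      (vy C U o) + C.sg * dl (fun i u => fderiv ℝ (a i) u) (vc U (C.pt o)) (vx C U o) (vy C U o)) C.μ :=
    (i1.const_mul C.sg).add (i2.const_mul C.sg)
  rw [integral_add i3 hint] at h3
  rw [integral_add (i1.const_mul C.sg) (i2.const_mul C.sg), integral_const_mul, integral_const_mul,
    s1, s2, integral_const] at h3
  have e1 : C.μ.real univ • T = T * C.vol := by
    rw [smul_eq_mul, mul_comm]
    rfl
  have e2 : C.sg * C.sg = 1 := by
    rcases C.pm with h | h <;> rw [h] <;> norm_num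
  rw [e1, ← mul_assoc, e2, one_mul, ← mul_assoc, e2, one_mul] at h3
  have h4 := (abs_le.1 key).1
  have h5 := (abs_le.1 key2).1
  linarith

end Pool.Agent.FPX.CST
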