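import Mathlib
import Pool.Agent.FPX.Defs
import Pool.Agent.FPX.SPH
import Pool.Agent.FPX.VEC
import Pool.Agent.FPX.FME
import Pool.Agent.FPX.EXS

/-
FPX, EXD (helper30): the exact dual inequality. For a direction `p` write
`T_p = (⟨p,N⟩/s² - ⟨p,K⟩, ⟨p,N'⟩/s² - ⟨p,K'⟩)`, `N = v × b`, `N' = - v × a`. Then for all `K`, `K'`
`(12/π) E_p flux ≤ (12/π) E_p |T_p| + (3/2) (⟨dxΘ,K⟩ + ⟨dyΘ,K'⟩)`.
`exss_dual` is the integrated form, without measurable choice of `K`, `K'`.
-/

open MeasureTheory Set Filter Topology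
open scoped ENNReal NNReal

noncomputable section

namespace Pool.Agent.FPX

open Pool.Agent.EWD

variable {M : Type} [MetricSpace M] {γ : ℝ → M}

/-- the norm of `T_p` -/
def Tn (v N N' K K' p : E3) : ℝ :=
  √((inner ℝ p N / sq2 v p - inner ℝ p K) ^ 2 + (inner ℝ p N' / sq2 v p - inner ℝ p K') ^ 2)

/-- the average of the norm of `T_p` -/
def L1 (v N N' K K' : E3) : ℝ := ∫ p, Tn v N N' K K' p ∂PP

theorem Tn_meas (v N N' K K' : E3) : Measurable (Tn v N N' K K') := by
  unfold Tn sq2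
  fun_prop

theorem Tn_nonneg (v N N' K K' p : E3) : 0 ≤ Tn v N N' K K' p := Real.sqrt_nonneg _

private theorem inner_perp_le {v N p : E3} (hv : ‖v‖ = 1) (hp : ‖p‖ = 1) (hN : inner ℝ v N = (0 : ℝ)) :
    |inner ℝ p N| ≤ √(sq2 v p) * ‖N‖ := by
  have h1 : inner ℝ p N = inner ℝ p (crs v (-crs v N)) := by
    rw [inner3, inner3]
    simp only [crs0, crs1, crs2]
    have h2 : v 0 ^ 2 + v 1 ^ 2 + v 2 ^ 2 = 1 := by
      rw [← normsq3, hv, one_pow]
    have h3 := hN
    rw [inner3] at h3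
    have e0 : (-crs v N) 0 = -(v 1 * N 2 - v 2 * N 1) := rfl
    have e1 : (-crs v N) 1 = -(v 2 * N 0 - v 0 * N 2) := rfl
    have e2 : (-crs v N) 2 = -(v 0 * N 1 - v 1 * N 0) := rfl
    rw [e0, e1, e2]
    linear_combination (-(p 0 * N 0 + p 1 * N 1 + p 2 * N 2)) * h2
      + (p 0 * v 0 + p 1 * v 1 + p 2 * v 2) * h3
  have h4 : ‖-crs v N‖ = ‖N‖ := by
    rw [norm_neg]
    have h5 := norm_crs hv hN
    nlinarith [norm_nonneg (crs v N), norm_nonneg N]
  have h6 := inner_crs_le hv hp (-crs v N)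
  rw [h1]
  refine abs_le_of_sq_le_sq ?_ (by positivity)
  rw [mul_pow, Real.sq_sqrt (sq2_nonneg hv hp), ← h4]
  exact h6

theorem Tn_int {v N N' : E3} (hv : ‖v‖ = 1) (hN : inner ℝ v N = (0 : ℝ)) (hN' : inner ℝ v N' = (0 : ℝ))
    (K K' : E3) : Integrable (Tn v N N' K K') PP := by
  have h1 : Integrable (fun p : E3 => (‖N‖ + ‖N'‖) * (1 / √(sq2 v p)) + (‖K‖ + ‖K'‖)) PP :=
    ((int_inv hv).1.const_mul _).add (integrable_const _)
  refine h1.mono' (Tn_meas v N N' K K').aestronglyMeasurable ?_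
  filter_upwards [ae_norm, ae_sq2 v hv] with p hp hq
  have hs : 0 < √(sq2 v p) := Real.sqrt_pos.2 hq
  have hs2 : √(sq2 v p) * √(sq2 v p) = sq2 v p := Real.mul_self_sqrt hq.le
  have key : ∀ N K : E3, inner ℝ v N = (0 : ℝ) →
      |inner ℝ p N / sq2 v p - inner ℝ p K| ≤ ‖N‖ * (1 / √(sq2 v p)) + ‖K‖ := by
    intro N K h
    refine (abs_sub _ _).trans (add_le_add ?_ ?_)
    · rw [abs_div, abs_of_pos hq, div_le_iff₀ hq]
      refine (inner_perp_le hv hp h).trans (le_of_eq ?_)
      nth_rewrite 3 [← hs2]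
      field_simp
    · have := abs_real_inner_le_norm p K
      rwa [hp, one_mul] at this
  have k1 := key N K hN
  have k2 := key N' K' hN'
  rw [Real.norm_eq_abs, abs_of_nonneg (Tn_nonneg _ _ _ _ _ _)]
  have h2 : Tn v N N' K K' p ≤ |inner ℝ p N / sq2 v p - inner ℝ p K| +
      |inner ℝ p N' / sq2 v p - inner ℝ p K'| := by
    unfold Tn
    refine Real.sqrt_le_iff.2 ⟨by positivity, ?_⟩
    rw [← sq_abs (inner ℝ p N / sq2 v p - inner ℝ p K), ← sq_abs (inner ℝ p N' / sq2 v p - _)]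
    nlinarith [abs_nonneg (inner ℝ p N / sq2 v p - inner ℝ p K),
      abs_nonneg (inner ℝ p N' / sq2 v p - inner ℝ p K'),
      mul_nonneg (abs_nonneg (inner ℝ p N / sq2 v p - inner ℝ p K))
        (abs_nonneg (inner ℝ p N' / sq2 v p - inner ℝ p K'))]
  refine h2.trans ((add_le_add k1 k2).trans (le_of_eq ?_))
  ring

private theorem cs2 {g h x y : ℝ} (hgh : g ^ 2 + h ^ 2 ≤ 1) : g * x + h * y ≤ √(x ^ 2 + y ^ 2) := by
  refine Real.le_sqrt_of_sq_le ?_
  nlinarith [sq_nonneg (g * y - h * x), sq_nonneg x, sq_nonneg y,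
    mul_le_mul_of_nonneg_right hgh (add_nonneg (sq_nonneg x) (sq_nonneg y))]

private theorem EXD_coord (k : Fin 3) : ∀ᵐ p : E3 ∂PP, |p k| ≤ 1 := by
  filter_upwards [ae_norm] with p hp
  rw [← sq_le_one_iff_abs_le_one]
  have h := Finset.single_le_sum (f := fun i => p i ^ 2) (fun i _ => sq_nonneg (p i))
    (Finset.mem_univ k)
  rw [← EuclideanSpace.real_norm_sq_eq, hp] at h
  simpa using h

private theorem EXD_gk {g : E3 → ℝ} (hg : Measurable g) (hb : ∀ᵐ p ∂PP, |g p| ≤ 1) (k : Fin 3) :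
    Integrable (fun p => g p * p k) PP := by
  refine (integrable_const (1 : ℝ)).mono' (by fun_prop) ?_
  filter_upwards [hb, EXD_coord k] with p h1 h2
  rw [Real.norm_eq_abs, abs_mul]
  exact mul_le_one₀ h1 (abs_nonneg _) h2

private theorem EXD_gK {g : E3 → ℝ} (hg : Measurable g) (hb : ∀ᵐ p ∂PP, |g p| ≤ 1) (K A : E3)
    (hA : ∀ k, A k = (8 / Real.pi) * ∫ p, g p * p k ∂PP) :
    Integrable (fun p => g p * inner ℝ p K) PP ∧
    ∫ p, g p * inner ℝ p K ∂PP = Real.pi / 8 * inner ℝ A K := by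
  have i0 := EXD_gk hg hb 0
  have i1 := EXD_gk hg hb 1
  have i2 := EXD_gk hg hb 2
  have e : (fun p => g p * inner ℝ p K) = fun p => K 0 * (g p * p 0) + K 1 * (g p * p 1) +
      K 2 * (g p * p 2) := by
    funext p
    rw [inner3]
    ring
  have j0 := i0.const_mul (K 0)
  have j1 := i1.const_mul (K 1)
  have j2 := i2.const_mul (K 2)
  have j01 : Integrable (fun p => K 0 * (g p * p 0) + K 1 * (g p * p 1)) PP := j0.add j1
  rw [e]
  refine ⟨j01.add j2, ?_⟩
  rw [integral_add j01 j2, integral_add j0 j1, integral_const_mul, integral_const_mul,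
    integral_const_mul, inner3, hA 0, hA 1, hA 2]
  have := Real.pi_pos
  field_simp

/-- the dual inequality at a point -/
theorem ex_dual {v a b : E3} (hv : ‖v‖ = 1) {g h : E3 → ℝ} (hg : Measurable g) (hh : Measurable h)
    (hgh : ∀ᵐ p ∂PP, g p ^ 2 + h p ^ 2 ≤ 1) {A B : E3}
    (hA : ∀ k, A k = (8 / Real.pi) * ∫ p, g p * p k ∂PP)
    (hB : ∀ k, B k = (8 / Real.pi) * ∫ p, h p * p k ∂PP) (K K' : E3) :
    12 / Real.pi * ∫ p, (g p * inner ℝ p (crs v b) - h p * inner ℝ p (crs v a)) / sq2 v p ∂PP ≤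
      12 / Real.pi * L1 v (crs v b) (-crs v a) K K' + (3 / 2) * (inner ℝ A K + inner ℝ B K') := by
  have hgb : ∀ᵐ p ∂PP, |g p| ≤ 1 := by
    filter_upwards [hgh] with p hp
    rw [← sq_le_one_iff_abs_le_one]
    nlinarith [sq_nonneg (h p)]
  have hhb : ∀ᵐ p ∂PP, |h p| ≤ 1 := by
    filter_upwards [hgh] with p hp
    rw [← sq_le_one_iff_abs_le_one]
    nlinarith [sq_nonneg (g p)]
  have oN : inner ℝ v (crs v b) = (0 : ℝ) := inner_crs_left v b
  have oN' : inner ℝ v (-crs v a) = (0 : ℝ) := by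
    rw [inner_neg_right, inner_crs_left, neg_zero]
  have gK := EXD_gK hg hgb K A hA
  have hK2 := EXD_gK hh hhb K' B hB
  have hT := Tn_int hv oN oN' K K'
  have hT0 := Tn_int hv oN oN' 0 0
  have hL : ∀ p, (g p * inner ℝ p (crs v b) - h p * inner ℝ p (crs v a)) / sq2 v p =
      (g p * (inner ℝ p (crs v b) / sq2 v p - inner ℝ p K)
        + h p * (inner ℝ p (-crs v a) / sq2 v p - inner ℝ p K'))
      + (g p * inner ℝ p K + h p * inner ℝ p K') := by
    intro p
    rw [inner_neg_right]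
    ring
  have hpt : ∀ᵐ p ∂PP, (g p * inner ℝ p (crs v b) - h p * inner ℝ p (crs v a)) / sq2 v p ≤
      Tn v (crs v b) (-crs v a) K K' p + (g p * inner ℝ p K + h p * inner ℝ p K') := by
    filter_upwards [hgh] with p h3
    rw [hL]
    unfold Tn
    linarith [cs2 (x := inner ℝ p (crs v b) / sq2 v p - inner ℝ p K)
      (y := inner ℝ p (-crs v a) / sq2 v p - inner ℝ p K') h3]
  -- integrability of the left hand side
  have hLi : Integrable (fun p => (g p * inner ℝ p (crs v b) - h p * inner ℝ p (crs v a)) / sq2 v p) PP := by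
    refine hT0.mono' ?_ ?_
    · have m1 : Measurable (fun p : E3 => inner ℝ p (crs v b)) := by fun_prop
      have m2 : Measurable (fun p : E3 => inner ℝ p (crs v a)) := by fun_prop
      have m3 : Measurable (fun p : E3 => sq2 v p) := by
        unfold sq2
        fun_prop
      exact (((hg.mul m1).sub (hh.mul m2)).div m3).aestronglyMeasurable
    · filter_upwards [hgh] with p h3
      have e1 := cs2 (x := inner ℝ p (crs v b) / sq2 v p) (y := inner ℝ p (-crs v a) / sq2 v p) h3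
      have h3' : (-g p) ^ 2 + (-h p) ^ 2 ≤ 1 := by simpa using h3
      have e2 := cs2 (x := inner ℝ p (crs v b) / sq2 v p) (y := inner ℝ p (-crs v a) / sq2 v p) h3'
      have e3 : Tn v (crs v b) (-crs v a) 0 0 p =
          √((inner ℝ p (crs v b) / sq2 v p) ^ 2 + (inner ℝ p (-crs v a) / sq2 v p) ^ 2) := by
        unfold Tn
        simp
      rw [Real.norm_eq_abs, e3, abs_le]
      rw [inner_neg_right] at e1 e2 ⊢
      constructor
      · have e4 : (g p * inner ℝ p (crs v b) - h p * inner ℝ p (crs v a)) / sq2 v p =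
            -(-g p * (inner ℝ p (crs v b) / sq2 v p) + -h p * (-inner ℝ p (crs v a) / sq2 v p)) := by
          ring
        rw [e4]
        linarith
      · have e4 : (g p * inner ℝ p (crs v b) - h p * inner ℝ p (crs v a)) / sq2 v p =
            g p * (inner ℝ p (crs v b) / sq2 v p) + h p * (-inner ℝ p (crs v a) / sq2 v p) := by
          ring
        rw [e4]
        exact e1
  have hgg : Integrable (fun p => g p * inner ℝ p K + h p * inner ℝ p K') PP := gK.1.add hK2.1
  have hint := integral_mono_ae hLi (hT.add hgg) hpt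
  rw [integral_add' hT hgg, integral_add gK.1 hK2.1, gK.2, hK2.2] at hint
  have hpi := Real.pi_pos
  have h12 := mul_le_mul_of_nonneg_left hint (show (0 : ℝ) ≤ 12 / Real.pi by positivity)
  refine h12.trans (le_of_eq ?_)
  unfold L1
  field_simp
  ring

/-! ### integration over the surface -/

private theorem EXD_lam_le (F : Fam γ) (p : E3) (i : Fin F.n) : F.lam p i ≤ 1 := by
  rw [← F.sum p]
  exact Finset.single_le_sum (fun j _ => F.nonneg p j) (Finset.mem_univ i)

private theorem EXD_lamk (F : Fam γ) (i : Fin F.n) (k : Fin 3) :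
    Integrable (fun p => F.lam p i * p k) PP := by
  refine EXD_gk (F.meas i) (Eventually.of_forall fun p => ?_) k
  rw [abs_of_nonneg (F.nonneg p i)]
  exact EXD_lam_le F p i

/-- the coefficients of `Θ` -/
private def cfD (F : Fam γ) (k : Fin 3) (i : Fin F.n) : ℝ := (8 / Real.pi) * ∫ p, F.lam p i * p k ∂PP

private theorem EXD_Th_eq (F : Fam γ) (k : Fin 3) (x : M) : F.Th k x = ∑ i, cfD F k i * F.th i x := by
  unfold Fam.Th Fam.f cfD
  have h : ∀ p : E3, (∑ i, F.lam p i * F.th i x) * p k = ∑ i, F.th i x * (F.lam p i * p k) := by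
    intro p
    rw [Finset.sum_mul]
    exact Finset.sum_congr rfl fun i _ => by ring
  simp_rw [h]
  rw [integral_finsetSum _ fun i _ => (EXD_lamk F i k).const_mul _, Finset.mul_sum]
  refine Finset.sum_congr rfl fun i _ => ?_
  rw [integral_const_mul]
  ring

/-- the components of the gradients of the family at one point -/
structure GoodPt (C : Calc M γ) (F : Fam γ) (o : Om) : Prop where
  /-- the gradient of the potential with label `p` -/
  f : ∀ p, C.gx (F.f p) o = ∑ i, F.lam p i * C.gx (F.th i) o ∧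
    C.gy (F.f p) o = ∑ i, F.lam p i * C.gy (F.th i) o
  /-- it is a measurable function of `p` of norm at most one -/
  mx : Measurable fun p => C.gx (F.f p) o
  my : Measurable fun p => C.gy (F.f p) o
  le : ∀ p, C.gx (F.f p) o ^ 2 + C.gy (F.f p) o ^ 2 ≤ 1
  /-- the gradient of `Θ` is its first moment -/
  tx : ∀ k, dx C F.Th o k = (8 / Real.pi) * ∫ p, C.gx (F.f p) o * p k ∂PP
  ty : ∀ k, dy C F.Th o k = (8 / Real.pi) * ∫ p, C.gy (F.f p) o * p k ∂PP

private theorem EXD_cvx {n : ℕ} {l g h : Fin n → ℝ} (hl : ∀ i, 0 ≤ l i) (hs : ∑ i, l i = 1)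
    (hgh : ∀ i, g i ^ 2 + h i ^ 2 ≤ 1) : (∑ i, l i * g i) ^ 2 + (∑ i, l i * h i) ^ 2 ≤ 1 := by
  have h1 : ∀ g : Fin n → ℝ, (∑ i, l i * g i) ^ 2 ≤ ∑ i, l i * g i ^ 2 := by
    intro g
    have c := Finset.sum_mul_sq_le_sq_mul_sq Finset.univ (fun i => √(l i)) (fun i => √(l i) * g i)
    have e1 : ∀ i, √(l i) * (√(l i) * g i) = l i * g i := fun i => by
      rw [← mul_assoc, Real.mul_self_sqrt (hl i)]
    have e2 : ∀ i, √(l i) ^ 2 = l i := fun i => Real.sq_sqrt (hl i)
    have e3 : ∀ i, (√(l i) * g i) ^ 2 = l i * g i ^ 2 := fun i => by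
      rw [mul_pow, e2]
    simp_rw [e1, e2, e3] at c
    rwa [hs, one_mul] at c
  calc (∑ i, l i * g i) ^ 2 + (∑ i, l i * h i) ^ 2
      ≤ ∑ i, l i * g i ^ 2 + ∑ i, l i * h i ^ 2 := add_le_add (h1 g) (h1 h)
    _ = ∑ i, l i * (g i ^ 2 + h i ^ 2) := by
        rw [← Finset.sum_add_distrib]
        exact Finset.sum_congr rfl fun i _ => by ring
    _ ≤ ∑ i, l i := Finset.sum_le_sum fun i _ => mul_le_of_le_one_right (hl i) (hgh i)
    _ = 1 := hs

theorem ae_goodPt (C : Calc M γ) (F : Fam γ) : ∀ᵐ o ∂C.μ, GoodPt C F o := by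
  have hL : ∀ i, Lip (F.th i) := fun i => ⟨1, (F.adm i).lip⟩
  have h : ∀ᵐ o ∂C.μ, ∀ i, HasDerivAt (fun s => F.th i (C.px o s)) (C.gx (F.th i) o) 0 ∧
      HasDerivAt (fun s => F.th i (C.py o s)) (C.gy (F.th i) o) 0 := ae_all_iff.mpr fun i =>
    C.ae_has (hL i)
  have h2 : ∀ᵐ o ∂C.μ, ∀ i, C.gx (F.th i) o ^ 2 + C.gy (F.th i) o ^ 2 ≤ ((1 : ℝ≥0) : ℝ) ^ 2 :=
    ae_all_iff.mpr fun i => C.ae_grad_le (F.adm i).lip
  filter_upwards [h, h2] with o ho h3
  have hf : ∀ p, C.gx (F.f p) o = ∑ i, F.lam p i * C.gx (F.th i) o ∧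
      C.gy (F.f p) o = ∑ i, F.lam p i * C.gy (F.th i) o := fun p =>
    ⟨(HasDerivAt.fun_sum fun i _ => (ho i).1.const_mul (F.lam p i)).deriv,
      (HasDerivAt.fun_sum fun i _ => (ho i).2.const_mul (F.lam p i)).deriv⟩
  have hth : ∀ k, C.gx (F.Th k) o = ∑ i, cfD F k i * C.gx (F.th i) o ∧
      C.gy (F.Th k) o = ∑ i, cfD F k i * C.gy (F.th i) o := by
    intro k
    have e : F.Th k = fun x => ∑ i, cfD F k i * F.th i x := funext fun x => EXD_Th_eq F k x
    rw [e]
    exact ⟨(HasDerivAt.fun_sum fun i _ => (ho i).1.const_mul (cfD F k i)).deriv,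
      (HasDerivAt.fun_sum fun i _ => (ho i).2.const_mul (cfD F k i)).deriv⟩
  have mom : ∀ (c : Fin F.n → ℝ) (k : Fin 3), ∑ i, cfD F k i * c i =
      (8 / Real.pi) * ∫ p, (∑ i, F.lam p i * c i) * p k ∂PP := by
    intro c k
    unfold cfD
    have h : ∀ p : E3, (∑ i, F.lam p i * c i) * p k = ∑ i, c i * (F.lam p i * p k) := by
      intro p
      rw [Finset.sum_mul]
      exact Finset.sum_congr rfl fun i _ => by ring
    simp_rw [h]
    rw [integral_finsetSum _ fun i _ => (EXD_lamk F i k).const_mul _, Finset.mul_sum]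
    refine Finset.sum_congr rfl fun i _ => ?_
    rw [integral_const_mul]
    ring
  refine ⟨hf, ?_, ?_, ?_, ?_, ?_⟩
  · have e : (fun p => C.gx (F.f p) o) = fun p => ∑ i, F.lam p i * C.gx (F.th i) o :=
      funext fun p => (hf p).1
    rw [e]
    exact Finset.measurable_sum _ fun i _ => (F.meas i).mul_const _
  · have e : (fun p => C.gy (F.f p) o) = fun p => ∑ i, F.lam p i * C.gy (F.th i) o :=
      funext fun p => (hf p).2
    rw [e]
    exact Finset.measurable_sum _ fun i _ => (F.meas i).mul_const _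
  · intro p
    rw [(hf p).1, (hf p).2]
    exact EXD_cvx (F.nonneg p) (F.sum p) fun i => by simpa using h3 i
  · intro k
    have e : dx C F.Th o k = C.gx (F.Th k) o := by
      fin_cases k <;> rfl
    rw [e, (hth k).1, mom]
    simp_rw [(hf _).1]
  · intro k
    have e : dy C F.Th o k = C.gy (F.Th k) o := by
      fin_cases k <;> rfl
    rw [e, (hth k).2, mom]
    simp_rw [(hf _).2]

/-- the integrated dual inequality, without measurable choice -/
theorem exss_dual [CompactSpace M] (C : Calc M γ) {v : Fin 3 → M → ℝ} (hv : Sph γ v) (F : Fam γ)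
    {Ψ : Om → ℝ} (hΨ : Integrable Ψ C.μ)
    (h : ∀ᵐ o ∂C.μ, ∃ K K' : E3,
      12 / Real.pi * L1 (at' C v o) (crs (at' C v o) (dy C v o)) (-crs (at' C v o) (dx C v o)) K K'
        + (3 / 2) * (inner ℝ (dx C F.Th o) K + inner ℝ (dy C F.Th o) K') ≤ Ψ o) :
    12 / Real.pi * ∫ p, Flux C (F.f p) v p ∂PP ≤ ∫ o, Ψ o ∂C.μ := by
  have := C.fin
  have hL : ∀ i, Lip (F.th i) := fun i => ⟨1, (F.adm i).lip⟩
  set G : Om → E3 → ℝ := fun o p => ∑ i, F.lam p i * flx C (F.th i) v p o with hG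
  -- integrability on the product
  have hGi : Integrable (Function.uncurry G) (C.μ.prod PP) := by
    have e : Function.uncurry G = fun q : Om × E3 => ∑ i, F.lam q.2 i * flx C (F.th i) v q.2 q.1 := rfl
    rw [e]
    refine integrable_finsetSum _ fun i _ => ?_
    refine (flux_meas C hv (hL i)).2.1.bdd_mul (c := 1) ?_ ?_
    · exact ((F.meas i).comp measurable_snd).aestronglyMeasurable
    · refine Eventually.of_forall fun q => ?_
      rw [Real.norm_eq_abs, abs_of_nonneg (F.nonneg _ _)]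
      exact EXD_lam_le F q.2 i
  have hGf : ∀ o, GoodPt C F o → ∀ p, G o p = flx C (F.f p) v p o := by
    intro o ho p
    unfold flx
    rw [(ho.f p).1, (ho.f p).2, hG]
    simp only
    rw [Finset.sum_mul, Finset.sum_mul, ← Finset.sum_sub_distrib, Finset.sum_div]
    refine Finset.sum_congr rfl fun i _ => ?_
    unfold flx
    ring
  -- the flux of the family
  have hF : ∀ p, Flux C (F.f p) v p = ∫ o, G o p ∂C.μ := by
    intro p
    unfold Flux
    refine integral_congr_ae ?_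
    filter_upwards [ae_goodPt C F] with o ho
    exact (hGf o ho p).symm
  simp_rw [hF]
  rw [← integral_integral_swap hGi, ← integral_const_mul]
  refine integral_mono_ae (hGi.integral_prod_left.const_mul _) hΨ ?_
  filter_upwards [ae_goodPt C F, h] with o ho hK
  obtain ⟨K, K', hK⟩ := hK
  refine le_trans ?_ hK
  have key := ex_dual (v := at' C v o) (a := dx C v o) (b := dy C v o)
    (g := fun p => C.gx (F.f p) o) (h := fun p => C.gy (F.f p) o) (A := dx C F.Th o)
    (B := dy C F.Th o) (norm_at hv o) ho.mx ho.my (Eventually.of_forall ho.le) ho.tx ho.ty K K'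
  refine le_trans (le_of_eq ?_) key
  congr 1
  refine integral_congr_ae (Eventually.of_forall fun p => ?_)
  simp only
  rw [hGf o ho p]
  rfl

end Pool.Agent.FPX
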