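import Mathlib
import Pool.Agent.FPX.EMN
import Pool.Agent.FPX.EXD

/-
EYA (helper30): the set `W` of gradients (nuclear norm and euclidean norm), its invariance, and the
gradient of `Θ`. Algebra for the class of maps with a variable bound `e^Y` (helper68).
-/

open MeasureTheory Set Filter Topology
open scoped ENNReal NNReal

noncomputable section

namespace Pool.Agent.FPX

open Pool.Agent.EWD

/-! ### algebra -/

private theorem EYA_crs_rot {u w b : E3} (hu : ‖u‖ = 1) (hb : inner ℝ u b = (0 : ℝ)) :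
    crs w b = (inner ℝ u w : ℝ) • crs u b - (inner ℝ w (crs u b) : ℝ) • u := by
  have hu2 : u 0 ^ 2 + u 1 ^ 2 + u 2 ^ 2 = 1 := by
    rw [← normsq3, hu, one_pow]
  rw [inner3] at hb
  ext i
  fin_cases i
  · have e : (((inner ℝ u w : ℝ) • crs u b - (inner ℝ w (crs u b) : ℝ) • u : E3)) 0 =
        inner ℝ u w * (crs u b 0) - inner ℝ w (crs u b) * u 0 := rfl
    show crs w b 0 = (((inner ℝ u w : ℝ) • crs u b - (inner ℝ w (crs u b) : ℝ) • u : E3)) 0
    rw [e, inner3, inner3]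
    simp only [crs0, crs1, crs2]
    linear_combination (-(w 1 * b 2 - w 2 * b 1)) * hu2 + (w 1 * u 2 - w 2 * u 1) * hb
  · have e : (((inner ℝ u w : ℝ) • crs u b - (inner ℝ w (crs u b) : ℝ) • u : E3)) 1 =
        inner ℝ u w * (crs u b 1) - inner ℝ w (crs u b) * u 1 := rfl
    show crs w b 1 = (((inner ℝ u w : ℝ) • crs u b - (inner ℝ w (crs u b) : ℝ) • u : E3)) 1
    rw [e, inner3, inner3]
    simp only [crs0, crs1, crs2]
    linear_combination (-(w 2 * b 0 - w 0 * b 2)) * hu2 + (w 2 * u 0 - w 0 * u 2) * hb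
  · have e : (((inner ℝ u w : ℝ) • crs u b - (inner ℝ w (crs u b) : ℝ) • u : E3)) 2 =
        inner ℝ u w * (crs u b 2) - inner ℝ w (crs u b) * u 2 := rfl
    show crs w b 2 = (((inner ℝ u w : ℝ) • crs u b - (inner ℝ w (crs u b) : ℝ) • u : E3)) 2
    rw [e, inner3, inner3]
    simp only [crs0, crs1, crs2]
    linear_combination (-(w 0 * b 1 - w 1 * b 0)) * hu2 + (w 0 * u 1 - w 1 * u 0) * hb

private theorem EYA_coef {u w t A : E3} (hu : ‖u‖ = 1) (hw : ‖w‖ = 1) (ht : inner ℝ w t = (0 : ℝ))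
    (hA : inner ℝ u A = (0 : ℝ)) {c : ℝ} (hc : inner ℝ u w = c) (hc1 : 0 ≤ 1 + c) :
    inner ℝ ((1 + c) • t - (inner ℝ u t : ℝ) • w) A ≤ (1 + c) * ‖t‖ * ‖A‖ := by
  set s : ℝ := inner ℝ u t with hs
  have e1 : inner ℝ ((1 + c) • t - s • w) A = inner ℝ ((1 + c) • t - s • w - s • u) A := by
    rw [inner_sub_left (𝕜 := ℝ) ((1 + c) • t - s • w) (s • u) A, real_inner_smul_left u A, hA]
    ring
  have e2 : ‖(1 + c) • t - s • w - s • u‖ ^ 2 = ((1 + c) * ‖t‖) ^ 2 := by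
    rw [← real_inner_self_eq_norm_sq]
    have k1 : inner ℝ t w = (0 : ℝ) := by rw [real_inner_comm, ht]
    have k2 : inner ℝ t u = s := by rw [real_inner_comm]
    have k3 : inner ℝ w u = c := by rw [real_inner_comm, hc]
    have k4 : inner ℝ t t = ‖t‖ ^ 2 := real_inner_self_eq_norm_sq t
    simp only [inner_sub_left, inner_sub_right, real_inner_smul_left, inner_smul_right]
    rw [k1, k2, k3, k4, ht, hc, inner_self_one hw, inner_self_one hu, ← hs]
    ring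
  have e3 : ‖(1 + c) • t - s • w - s • u‖ = (1 + c) * ‖t‖ := by
    have := norm_nonneg ((1 + c) • t - s • w - s • u)
    have := norm_nonneg t
    rw [← Real.sqrt_sq (norm_nonneg ((1 + c) • t - s • w - s • u)), e2, Real.sqrt_sq (by positivity)]
  rw [e1, ← e3]
  exact real_inner_le_norm _ _

/-- the nuclear norm does not depend on the plane -/
theorem nuc_inv {u w a b : E3} (hu : ‖u‖ = 1) (hw : ‖w‖ = 1) (ha : inner ℝ u a = (0 : ℝ))
    (hb : inner ℝ u b = (0 : ℝ)) {Λ : ℝ} (h1 : ‖a - crs u b‖ ≤ Λ) (h2 : ‖a + crs u b‖ ≤ Λ) :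
    ‖prj w a - crs w b‖ ≤ Λ := by
  set c : ℝ := inner ℝ u w with hc
  set t : E3 := prj w a - crs w b with ht
  have htw : inner ℝ w t = (0 : ℝ) := by
    rw [ht, inner_sub_right, prj_perp hw, inner_crs_left]
    ring
  have hcb : |c| ≤ 1 := by
    have := abs_real_inner_le_norm u w
    rwa [hu, hw, one_mul] at this
  obtain ⟨c1, c2⟩ := abs_le.mp hcb
  have pA : inner ℝ u (a - crs u b) = (0 : ℝ) := by
    rw [inner_sub_right, ha, inner_crs_left]
    ring
  have pB : inner ℝ u (a + crs u b) = (0 : ℝ) := by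
    rw [inner_add_right, ha, inner_crs_left]
    ring
  have k1 := EYA_coef (t := t) hu hw htw pA hc.symm (by linarith)
  have hw' : ‖-w‖ = 1 := by rw [norm_neg, hw]
  have k2 := EYA_coef (w := -w) (t := t) (A := a + crs u b) (c := -c) hu hw'
    (by rw [inner_neg_left, htw, neg_zero]) pB (by rw [inner_neg_right, ← hc]) (by linarith)
  have key : ‖t‖ ^ 2 = (1 / 2) * inner ℝ ((1 + c) • t - (inner ℝ u t : ℝ) • w) (a - crs u b)
      + (1 / 2) * inner ℝ ((1 + -c) • t - (inner ℝ u t : ℝ) • (-w)) (a + crs u b) := by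
    have e0 : ‖t‖ ^ 2 = inner ℝ t a - inner ℝ t (crs w b) := by
      rw [← real_inner_self_eq_norm_sq]
      nth_rewrite 2 [ht]
      unfold prj
      rw [inner_sub_right, inner_sub_right, inner_smul_right, real_inner_comm w t]
      have : inner ℝ w t = (0 : ℝ) := htw
      rw [show inner ℝ w t = (0 : ℝ) from htw]
      ring
    have e1 : inner ℝ t (crs w b) = c * inner ℝ t (crs u b) - inner ℝ w (crs u b) * inner ℝ u t := by
      rw [EYA_crs_rot hu hb, inner_sub_right, inner_smul_right, inner_smul_right, real_inner_comm u t]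
    rw [e0, e1]
    simp only [inner_sub_left, inner_sub_right, inner_add_right, real_inner_smul_left,
      inner_neg_left, smul_neg]
    ring
  have ht0 := norm_nonneg t
  have m1 : (1 + c) * ‖t‖ * ‖a - crs u b‖ ≤ (1 + c) * ‖t‖ * Λ :=
    mul_le_mul_of_nonneg_left h1 (mul_nonneg (by linarith) ht0)
  have m2 : (1 + -c) * ‖t‖ * ‖a + crs u b‖ ≤ (1 + -c) * ‖t‖ * Λ :=
    mul_le_mul_of_nonneg_left h2 (mul_nonneg (by linarith) ht0)
  have fin : ‖t‖ ^ 2 ≤ Λ * ‖t‖ := by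
    rw [key]
    nlinarith
  rcases eq_or_lt_of_le ht0 with h | h
  · rw [← h]
    exact (norm_nonneg _).trans h1
  · nlinarith

/-- the same with the other sign -/
theorem nuc_inv' {u w a b : E3} (hu : ‖u‖ = 1) (hw : ‖w‖ = 1) (ha : inner ℝ u a = (0 : ℝ))
    (hb : inner ℝ u b = (0 : ℝ)) {Λ : ℝ} (h1 : ‖a - crs u b‖ ≤ Λ) (h2 : ‖a + crs u b‖ ≤ Λ) :
    ‖prj w a + crs w b‖ ≤ Λ := by
  have h := nuc_inv (a := a) (b := -b) hu hw ha (by rw [inner_neg_right, hb, neg_zero]) (Λ := Λ)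
    (by rwa [crs_neg, sub_neg_eq_add]) (by rwa [crs_neg, ← sub_eq_add_neg])
  rwa [crs_neg, sub_neg_eq_add] at h

/-- a pair of vectors in the set `W` (with parameters `Λ`, `E`), seen from any plane -/
structure InW (Λ E : ℝ) (x y : E3) : Prop where
  m : ∀ w : E3, ‖w‖ = 1 → ‖prj w x - crs w y‖ ≤ Λ
  p : ∀ w : E3, ‖w‖ = 1 → ‖prj w x + crs w y‖ ≤ Λ
  s : ‖x‖ ^ 2 + ‖y‖ ^ 2 ≤ 2 * E

theorem InW.of_perp {u a b : E3} (hu : ‖u‖ = 1) (ha : inner ℝ u a = (0 : ℝ))
    (hb : inner ℝ u b = (0 : ℝ)) {Λ E : ℝ} (h1 : ‖a - crs u b‖ ≤ Λ) (h2 : ‖a + crs u b‖ ≤ Λ)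
    (h3 : ‖a‖ ^ 2 + ‖b‖ ^ 2 ≤ 2 * E) : InW Λ E a b :=
  ⟨fun _ hw => nuc_inv hu hw ha hb h1 h2, fun _ hw => nuc_inv' hu hw ha hb h1 h2, h3⟩

theorem InW.mono {Λ E Λ' E' : ℝ} {x y : E3} (h : InW Λ E x y) (h1 : Λ ≤ Λ') (h2 : E ≤ E') :
    InW Λ' E' x y :=
  ⟨fun w hw => (h.m w hw).trans h1, fun w hw => (h.p w hw).trans h1, by linarith [h.s]⟩

private theorem EYA_prj_le {w : E3} (hw : ‖w‖ = 1) (s : E3) : ‖prj w s‖ ≤ ‖s‖ := by
  have h := norm_prj_sq hw s
  have h1 := norm_nonneg (prj w s)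
  have h2 := norm_nonneg s
  nlinarith [sq_nonneg (inner ℝ w s : ℝ)]

/-- one explicit step at a point: the gradient of `(u + t Z)/|u + t Z|` -/
theorem nd_W {u a b Z x y : E3} {Λ E l t : ℝ}
    (hl : 0 ≤ l) (ht : 0 ≤ t) (hW : InW (l * Λ) (l ^ 2 * E) a b) (hZ : InW Λ E x y)
    {N : ℝ} (hN : ‖u + t • Z‖ = N) (hN0 : 0 < N) (hE : 0 ≤ E) :
    InW ((l + t) / N * Λ) (((l + t) / N) ^ 2 * E) (nd (u + t • Z) (a + t • x))
      (nd (u + t • Z) (b + t • y)) := by
  set w : E3 := (‖u + t • Z‖⁻¹ : ℝ) • (u + t • Z) with hw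
  have hw1 : ‖w‖ = 1 := by
    rw [hw, norm_smul, norm_inv, norm_norm, hN]
    exact inv_mul_cancel₀ hN0.ne'
  have e1 : ∀ A : E3, nd (u + t • Z) A = (N⁻¹ : ℝ) • prj w A := by
    intro A
    unfold nd prj
    rw [← hw, hN]
  have hNi : 0 < N⁻¹ := inv_pos.mpr hN0
  have p1 : inner ℝ w (nd (u + t • Z) (a + t • x)) = (0 : ℝ) := by
    rw [e1, inner_smul_right, prj_perp hw1, mul_zero]
  have p2 : inner ℝ w (nd (u + t • Z) (b + t • y)) = (0 : ℝ) := by
    rw [e1, inner_smul_right, prj_perp hw1, mul_zero]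
  refine InW.of_perp hw1 p1 p2 ?_ ?_ ?_
  · have e : nd (u + t • Z) (a + t • x) - crs w (nd (u + t • Z) (b + t • y)) =
        (N⁻¹ : ℝ) • ((prj w a - crs w b) + t • (prj w x - crs w y)) := by
      rw [e1, e1, crs_smul, crs_prj, prj_add, prj_smul, crs_add, crs_smul]
      module
    rw [e, norm_smul, norm_inv, Real.norm_of_nonneg hN0.le]
    have h1 : ‖(prj w a - crs w b) + t • (prj w x - crs w y)‖ ≤ l * Λ + t * Λ := by
      refine (norm_add_le _ _).trans (add_le_add (hW.m w hw1) ?_)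
      rw [norm_smul, Real.norm_of_nonneg ht]
      exact mul_le_mul_of_nonneg_left (hZ.m w hw1) ht
    calc N⁻¹ * ‖(prj w a - crs w b) + t • (prj w x - crs w y)‖ ≤ N⁻¹ * (l * Λ + t * Λ) :=
        mul_le_mul_of_nonneg_left h1 hNi.le
      _ = (l + t) / N * Λ := by
        rw [div_eq_inv_mul]
        ring
  · have e : nd (u + t • Z) (a + t • x) + crs w (nd (u + t • Z) (b + t • y)) =
        (N⁻¹ : ℝ) • ((prj w a + crs w b) + t • (prj w x + crs w y)) := by
      rw [e1, e1, crs_smul, crs_prj, prj_add, prj_smul, crs_add, crs_smul]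
      module
    rw [e, norm_smul, norm_inv, Real.norm_of_nonneg hN0.le]
    have h1 : ‖(prj w a + crs w b) + t • (prj w x + crs w y)‖ ≤ l * Λ + t * Λ := by
      refine (norm_add_le _ _).trans (add_le_add (hW.p w hw1) ?_)
      rw [norm_smul, Real.norm_of_nonneg ht]
      exact mul_le_mul_of_nonneg_left (hZ.p w hw1) ht
    calc N⁻¹ * ‖(prj w a + crs w b) + t • (prj w x + crs w y)‖ ≤ N⁻¹ * (l * Λ + t * Λ) :=
        mul_le_mul_of_nonneg_left h1 hNi.le
      _ = (l + t) / N * Λ := by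
        rw [div_eq_inv_mul]
        ring
  · have h1 : ∀ A : E3, ‖nd (u + t • Z) A‖ ^ 2 ≤ (N⁻¹) ^ 2 * ‖A‖ ^ 2 := by
      intro A
      rw [e1, norm_smul, norm_inv, Real.norm_of_nonneg hN0.le, mul_pow]
      refine mul_le_mul_of_nonneg_left ?_ (sq_nonneg _)
      exact pow_le_pow_left₀ (norm_nonneg _) (EYA_prj_le hw1 A) 2
    -- Minkowski
    have h2 : ‖a + t • x‖ ^ 2 + ‖b + t • y‖ ^ 2 ≤ (l + t) ^ 2 * (2 * E) := by
      have k0 : ∀ A X : E3, ‖A + t • X‖ ^ 2 = ‖A‖ ^ 2 + 2 * t * inner ℝ A X + t ^ 2 * ‖X‖ ^ 2 := by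
        intro A X
        rw [norm_add_sq_real, inner_smul_right, norm_smul, Real.norm_of_nonneg ht]
        ring
      rw [k0, k0]
      have k1 : inner ℝ a x + inner ℝ b y ≤ l * (2 * E) := by
        have c1 := real_inner_le_norm a x
        have c2 := real_inner_le_norm b y
        have c3 : (‖a‖ * ‖x‖ + ‖b‖ * ‖y‖) ^ 2 ≤ (‖a‖ ^ 2 + ‖b‖ ^ 2) * (‖x‖ ^ 2 + ‖y‖ ^ 2) := by
          nlinarith [sq_nonneg (‖a‖ * ‖y‖ - ‖b‖ * ‖x‖)]
        have c4 : (‖a‖ ^ 2 + ‖b‖ ^ 2) * (‖x‖ ^ 2 + ‖y‖ ^ 2) ≤ (l ^ 2 * (2 * E)) * (2 * E) := by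
          have := hW.s
          refine mul_le_mul (by linarith) hZ.s (by positivity) (by positivity)
        have c5 : ‖a‖ * ‖x‖ + ‖b‖ * ‖y‖ ≤ l * (2 * E) := by
          refine le_of_sq_le_sq (c3.trans (c4.trans (le_of_eq (by ring)))) (by positivity)
        linarith
      have := hW.s
      have := hZ.s
      nlinarith [mul_le_mul_of_nonneg_left k1 (show (0 : ℝ) ≤ 2 * t by positivity),
        mul_le_mul_of_nonneg_left hZ.s (sq_nonneg t)]
    have h3 := h1 (a + t • x)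
    have h4 := h1 (b + t • y)
    have h5 := mul_le_mul_of_nonneg_left h2 (sq_nonneg (N⁻¹))
    calc ‖nd (u + t • Z) (a + t • x)‖ ^ 2 + ‖nd (u + t • Z) (b + t • y)‖ ^ 2
        ≤ (N⁻¹) ^ 2 * ((l + t) ^ 2 * (2 * E)) := by linarith
      _ = 2 * (((l + t) / N) ^ 2 * E) := by
        rw [div_eq_inv_mul]
        ring

/-! ### the gradient of `Θ` -/

/-- the average of the sine -/
theorem int_s {v : E3} (hv : ‖v‖ = 1) : Integrable (fun p => √(sq2 v p)) PP ∧
    ∫ p, √(sq2 v p) ∂PP = Real.pi / 4 := by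
  have h := fun K : E3 => int_KK (v := v) (K := K) hv
  have h0 := h !₂[1, 0, 0]
  have h1 := h !₂[0, 1, 0]
  have h2 := h !₂[0, 0, 1]
  have e : ∀ᵐ p ∂PP, √(sq2 v p) * inner ℝ p !₂[1, 0, 0] ^ 2 + √(sq2 v p) * inner ℝ p !₂[0, 1, 0] ^ 2
      + √(sq2 v p) * inner ℝ p !₂[0, 0, 1] ^ 2 = √(sq2 v p) := by
    filter_upwards [ae_norm] with p hp
    have hp2 : p 0 ^ 2 + p 1 ^ 2 + p 2 ^ 2 = 1 := by rw [← normsq3, hp, one_pow]
    have a0 : inner ℝ p !₂[1, 0, 0] = p 0 := by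
      rw [inner3]
      simp
    have a1 : inner ℝ p !₂[0, 1, 0] = p 1 := by
      rw [inner3]
      simp
    have a2 : inner ℝ p !₂[0, 0, 1] = p 2 := by
      rw [inner3]
      simp
    rw [a0, a1, a2]
    linear_combination √(sq2 v p) * hp2
  have i := (h0.1.add h1.1).add h2.1
  refine ⟨i.congr e, ?_⟩
  rw [← integral_congr_ae e]
  have e2 : ∫ p, ((fun p => √(sq2 v p) * inner ℝ p !₂[1, 0, 0] ^ 2)
      + fun p => √(sq2 v p) * inner ℝ p !₂[0, 1, 0] ^ 2) p ∂PP = _ := integral_add h0.1 h1.1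
  refine (integral_add (h0.1.add h1.1) h2.1).trans ?_
  rw [e2, h0.2, h1.2, h2.2]
  have n0 : ‖(!₂[1, 0, 0] : E3)‖ ^ 2 = 1 := by
    rw [normsq3]
    simp
  have n1 : ‖(!₂[0, 1, 0] : E3)‖ ^ 2 = 1 := by
    rw [normsq3]
    simp
  have n2 : ‖(!₂[0, 0, 1] : E3)‖ ^ 2 = 1 := by
    rw [normsq3]
    simp
  have v0 : inner ℝ v !₂[1, 0, 0] = v 0 := by
    rw [inner3]
    simp
  have v1 : inner ℝ v !₂[0, 1, 0] = v 1 := by
    rw [inner3]
    simp
  have v2 : inner ℝ v !₂[0, 0, 1] = v 2 := by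
    rw [inner3]
    simp
  have hv2 : v 0 ^ 2 + v 1 ^ 2 + v 2 ^ 2 = 1 := by rw [← normsq3, hv, one_pow]
  rw [n0, n1, n2, v0, v1, v2]
  linear_combination (-Real.pi / 32) * hv2

variable {M : Type} [MetricSpace M] {γ : ℝ → M} {C : Calc M γ} {F : Fam γ} {o : Om}

private theorem EYA_L1 {C : Calc M γ} {F : Fam γ} {o : Om} (h : GoodPt C F o) (K K' : E3) :
    inner ℝ (dx C F.Th o) K + inner ℝ (dy C F.Th o) K' ≤
      8 / Real.pi * ∫ p, √(inner ℝ p K ^ 2 + inner ℝ p K' ^ 2) ∂PP := by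
  have hv : ‖(!₂[1, 0, 0] : E3)‖ = 1 := by
    have : ‖(!₂[1, 0, 0] : E3)‖ ^ 2 = 1 := by
      rw [normsq3]
      simp
    nlinarith [norm_nonneg (!₂[1, 0, 0] : E3)]
  have c0 : ∀ w : E3, crs w 0 = 0 := by
    intro w
    have := crs_smul w 0 0
    simpa using this
  have k := ex_dual (v := !₂[1, 0, 0]) (a := 0) (b := 0) hv h.mx h.my (Eventually.of_forall h.le)
    h.tx h.ty (-K) (-K')
  rw [c0] at k
  unfold L1 Tn at k
  simp only [inner_zero_right, mul_zero, sub_zero, zero_div, integral_zero, neg_zero,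
    inner_neg_right, zero_sub, neg_neg] at k
  have hpi := Real.pi_pos
  have e : 8 / Real.pi * ∫ p, √(inner ℝ p K ^ 2 + inner ℝ p K' ^ 2) ∂PP =
      (2 / 3) * (12 / Real.pi * ∫ p, √(inner ℝ p K ^ 2 + inner ℝ p K' ^ 2) ∂PP) := by ring
  rw [e]
  linarith

private theorem EYA_frame {w t p : E3} (hw : ‖w‖ = 1) (ht : inner ℝ w t = (0 : ℝ)) (hp : ‖p‖ = 1) :
    inner ℝ p t ^ 2 + inner ℝ p (crs w t) ^ 2 = ‖t‖ ^ 2 * sq2 w p := by
  have hw2 : w 0 ^ 2 + w 1 ^ 2 + w 2 ^ 2 = 1 := by rw [← normsq3, hw, one_pow]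
  have hp2 : p 0 ^ 2 + p 1 ^ 2 + p 2 ^ 2 = 1 := by rw [← normsq3, hp, one_pow]
  -- `⟨p, w × t⟩² = |p × w|² |t|² - ⟨p × w, ...⟩²`
  have e1 : inner ℝ p (crs w t) = inner ℝ (crs p w) t := inner_crs_cyc p w t
  have e2 := norm_crs_sq (crs p w) t
  have e3 : crs (crs p w) t = (inner ℝ p t : ℝ) • w - (inner ℝ w t : ℝ) • p := by
    ext i
    fin_cases i
    · show crs (crs p w) t 0 = inner ℝ p t * w 0 - inner ℝ w t * p 0
      rw [inner3, inner3]
      simp only [crs0, crs1, crs2]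
      ring
    · show crs (crs p w) t 1 = inner ℝ p t * w 1 - inner ℝ w t * p 1
      rw [inner3, inner3]
      simp only [crs0, crs1, crs2]
      ring
    · show crs (crs p w) t 2 = inner ℝ p t * w 2 - inner ℝ w t * p 2
      rw [inner3, inner3]
      simp only [crs0, crs1, crs2]
      ring
  rw [e3, ht, zero_smul, sub_zero, norm_smul, hw, mul_one, Real.norm_eq_abs, sq_abs,
    norm_crs_eq hw hp] at e2
  rw [e1]
  linarith

private theorem EYA_nuc (h : GoodPt C F o) {w t : E3} (hw : ‖w‖ = 1) (ht : inner ℝ w t = (0 : ℝ)) :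
    inner ℝ (dx C F.Th o) t + inner ℝ (dy C F.Th o) (crs w t) ≤ 2 * ‖t‖ := by
  refine (EYA_L1 h t (crs w t)).trans ?_
  have e : ∀ᵐ p ∂PP, √(inner ℝ p t ^ 2 + inner ℝ p (crs w t) ^ 2) = ‖t‖ * √(sq2 w p) := by
    filter_upwards [ae_norm] with p hp
    rw [EYA_frame hw ht hp, Real.sqrt_mul (sq_nonneg _), Real.sqrt_sq (norm_nonneg _)]
  rw [integral_congr_ae e, integral_const_mul, (int_s hw).2]
  have := Real.pi_pos
  refine le_of_eq ?_
  field_simp
  ring

/-- the gradient of `Θ` lies in `W` -/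
theorem Th_m (h : GoodPt C F o) {w : E3} (hw : ‖w‖ = 1) :
    ‖prj w (dx C F.Th o) - crs w (dy C F.Th o)‖ ≤ 2 := by
  set t := prj w (dx C F.Th o) - crs w (dy C F.Th o) with ht
  have htw : inner ℝ w t = (0 : ℝ) := by
    rw [ht, inner_sub_right, prj_perp hw, inner_crs_left]
    ring
  have k := EYA_nuc h hw htw
  have e : ‖t‖ ^ 2 = inner ℝ (dx C F.Th o) t + inner ℝ (dy C F.Th o) (crs w t) := by
    rw [← real_inner_self_eq_norm_sq]
    nth_rewrite 1 [ht]
    unfold prj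
    rw [inner_sub_left, inner_sub_left, real_inner_smul_left, htw, inner_crs_cyc (dy C F.Th o) w t]
    have : crs (dy C F.Th o) w = - crs w (dy C F.Th o) := by
      ext i
      fin_cases i
      · show crs (dy C F.Th o) w 0 = - (crs w (dy C F.Th o) 0)
        simp only [crs0]
        ring
      · show crs (dy C F.Th o) w 1 = - (crs w (dy C F.Th o) 1)
        simp only [crs1]
        ring
      · show crs (dy C F.Th o) w 2 = - (crs w (dy C F.Th o) 2)
        simp only [crs2]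
        ring
    rw [this, inner_neg_left]
    ring
  rw [← e] at k
  have h0 := norm_nonneg t
  rcases eq_or_lt_of_le h0 with h1 | h1
  · rw [← h1]
    norm_num
  · nlinarith

theorem Th_p (h : GoodPt C F o) {w : E3} (hw : ‖w‖ = 1) :
    ‖prj w (dx C F.Th o) + crs w (dy C F.Th o)‖ ≤ 2 := by
  have k := Th_m h (w := -w) (by rw [norm_neg, hw])
  have e1 : prj (-w) (dx C F.Th o) = prj w (dx C F.Th o) := by
    unfold prj
    rw [inner_neg_left]
    module
  have e2 : crs (-w) (dy C F.Th o) = - crs w (dy C F.Th o) := by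
    ext i
    fin_cases i
    · show (-w) 1 * _ - (-w) 2 * _ = - (crs w (dy C F.Th o) 0)
      rw [crs0]
      show -(w 1) * _ - -(w 2) * _ = _
      ring
    · show (-w) 2 * _ - (-w) 0 * _ = - (crs w (dy C F.Th o) 1)
      rw [crs1]
      show -(w 2) * _ - -(w 0) * _ = _
      ring
    · show (-w) 0 * _ - (-w) 1 * _ = - (crs w (dy C F.Th o) 2)
      rw [crs2]
      show -(w 0) * _ - -(w 1) * _ = _
      ring
  rwa [e1, e2, sub_neg_eq_add] at k

private theorem EYA_mom {v K : E3} (hv : ‖v‖ = 1) :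
    Integrable (fun p => inner ℝ p K ^ 2 / √(sq2 v p)) PP ∧
    ∫ p, inner ℝ p K ^ 2 / √(sq2 v p) ∂PP =
      Real.pi / 8 * ‖prj v K‖ ^ 2 + Real.pi / 4 * inner ℝ v K ^ 2 := by
  set N := prj v K with hN
  set k : ℝ := inner ℝ v K with hk
  have hNv : inner ℝ v N = (0 : ℝ) := prj_perp hv K
  have hK : K = N + k • v := by
    rw [hN]
    unfold prj
    rw [← hk]
    abel
  have a1 := int_NK (v := v) (N := N) (K := N) hv hNv
  have a2 := int_NK (v := v) (N := N) (K := v) hv hNv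
  have a3 := int_inv hv
  have a4 := int_s hv
  have e : ∀ᵐ p ∂PP, inner ℝ p N * inner ℝ p N / √(sq2 v p)
      + 2 * k * (inner ℝ p N * inner ℝ p v / √(sq2 v p))
      + k ^ 2 * (1 / √(sq2 v p) - √(sq2 v p)) = inner ℝ p K ^ 2 / √(sq2 v p) := by
    filter_upwards [ae_sq2 v hv] with p hp
    have hs : 0 < √(sq2 v p) := Real.sqrt_pos.mpr hp
    have h2 : √(sq2 v p) * √(sq2 v p) = 1 - inner ℝ p v ^ 2 := by
      rw [Real.mul_self_sqrt hp.le]
      unfold sq2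
      rw [real_inner_comm]
    have h3 : inner ℝ p K = inner ℝ p N + k * inner ℝ p v := by
      nth_rewrite 1 [hK]
      rw [inner_add_right, inner_smul_right]
    rw [h3]
    field_simp
    linear_combination (-k ^ 2) * h2
  have i := (a1.1.add (a2.1.const_mul (2 * k))).add ((a3.1.sub a4.1).const_mul (k ^ 2))
  refine ⟨i.congr e, ?_⟩
  rw [← integral_congr_ae e]
  refine (integral_add (a1.1.add (a2.1.const_mul (2 * k)))
    ((a3.1.sub a4.1).const_mul (k ^ 2))).trans ?_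
  have e2 : ∫ p, ((fun p => inner ℝ p N * inner ℝ p N / √(sq2 v p))
      + fun p => 2 * k * (inner ℝ p N * inner ℝ p v / √(sq2 v p))) p ∂PP = _ :=
    integral_add a1.1 (a2.1.const_mul (2 * k))
  rw [e2, integral_const_mul, integral_const_mul]
  have e3 : ∫ p, ((fun p => 1 / √(sq2 v p)) - fun p => √(sq2 v p)) p ∂PP = _ := integral_sub a3.1 a4.1
  rw [e3, a1.2, a2.2, a3.2, a4.2, real_inner_comm v N, hNv, real_inner_self_eq_norm_sq]
  ring

/-- the quadratic bound of the gradient of `Θ` -/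
theorem Th_s (h : GoodPt C F o) {v : E3} (hv : ‖v‖ = 1) :
    ‖prj v (dx C F.Th o)‖ ^ 2 + ‖prj v (dy C F.Th o)‖ ^ 2
      + (1 / 2) * (inner ℝ v (dx C F.Th o) ^ 2 + inner ℝ v (dy C F.Th o) ^ 2) ≤ 2 := by
  set x := dx C F.Th o with hx
  set y := dy C F.Th o with hy
  set K : E3 := prj v x + ((1 / 2 : ℝ) * inner ℝ v x) • v with hK
  set K' : E3 := prj v y + ((1 / 2 : ℝ) * inner ℝ v y) • v with hK'
  have pK : ∀ z : E3, prj v (prj v z + ((1 / 2 : ℝ) * inner ℝ v z) • v) = prj v z := by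
    intro z
    rw [prj_add, prj_smul, prj_self hv, prj_prj hv, smul_zero, add_zero]
  have vK : ∀ z : E3, inner ℝ v (prj v z + ((1 / 2 : ℝ) * inner ℝ v z) • v) = (1 / 2 : ℝ) * inner ℝ v z := by
    intro z
    rw [inner_add_right, prj_perp hv, inner_smul_right, inner_self_one hv]
    ring
  have zK : ∀ z : E3, inner ℝ z (prj v z + ((1 / 2 : ℝ) * inner ℝ v z) • v) =
      ‖prj v z‖ ^ 2 + (1 / 2) * inner ℝ v z ^ 2 := by
    intro z
    have e : z = prj v z + (inner ℝ v z : ℝ) • v := by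
      unfold prj
      abel
    have e1 : inner ℝ z (prj v z) = ‖prj v z‖ ^ 2 := by
      nth_rewrite 1 [e]
      rw [inner_add_left, real_inner_smul_left, prj_perp hv, real_inner_self_eq_norm_sq]
      ring
    rw [inner_add_right, inner_smul_right, e1, real_inner_comm v z]
    ring
  have h1 := EYA_L1 h K K'
  rw [← hx, ← hy] at h1
  rw [hK, hK', zK, zK, ← hK, ← hK'] at h1
  have m1 := EYA_mom (v := v) (K := K) hv
  have m2 := EYA_mom (v := v) (K := K') hv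
  have m3 := int_s hv
  have i := ((m1.1.add m2.1).add m3.1).const_mul (1 / 2)
  have hpt : ∀ᵐ p ∂PP, √(inner ℝ p K ^ 2 + inner ℝ p K' ^ 2) ≤
      (1 / 2) * (inner ℝ p K ^ 2 / √(sq2 v p) + inner ℝ p K' ^ 2 / √(sq2 v p) + √(sq2 v p)) := by
    filter_upwards [ae_sq2 v hv] with p hp
    have hs : 0 < √(sq2 v p) := Real.sqrt_pos.mpr hp
    set q := inner ℝ p K ^ 2 + inner ℝ p K' ^ 2 with hq
    have hq0 : 0 ≤ q := by positivity
    have e : inner ℝ p K ^ 2 / √(sq2 v p) + inner ℝ p K' ^ 2 / √(sq2 v p) = q / √(sq2 v p) := by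
      rw [hq]
      ring
    rw [e]
    have h3 := Real.sq_sqrt hq0
    have h4 : √q ^ 2 / √(sq2 v p) = q / √(sq2 v p) := by rw [h3]
    rw [← h4]
    have h5 : 0 ≤ (√q - √(sq2 v p)) ^ 2 / √(sq2 v p) := by positivity
    have h6 : (√q - √(sq2 v p)) ^ 2 / √(sq2 v p) = √q ^ 2 / √(sq2 v p) - 2 * √q + √(sq2 v p) := by
      field_simp
      ring
    linarith
  have hcm : Integrable (fun p => √(inner ℝ p K ^ 2 + inner ℝ p K' ^ 2)) PP := by
    refine i.mono' ?_ ?_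
    · have : Measurable fun p : E3 => √(inner ℝ p K ^ 2 + inner ℝ p K' ^ 2) := by fun_prop
      exact this.aestronglyMeasurable
    · filter_upwards [hpt] with p hp
      rw [Real.norm_of_nonneg (Real.sqrt_nonneg _)]
      exact hp
  have h2 := integral_mono_ae hcm i hpt
  have e1 : ∫ p, (1 / 2) * (inner ℝ p K ^ 2 / √(sq2 v p) + inner ℝ p K' ^ 2 / √(sq2 v p)
      + √(sq2 v p)) ∂PP = (1 / 2) * ((Real.pi / 8 * ‖prj v K‖ ^ 2 + Real.pi / 4 * inner ℝ v K ^ 2)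
      + (Real.pi / 8 * ‖prj v K'‖ ^ 2 + Real.pi / 4 * inner ℝ v K' ^ 2) + Real.pi / 4) := by
    rw [integral_const_mul]
    have e2 : ∫ p, (inner ℝ p K ^ 2 / √(sq2 v p) + inner ℝ p K' ^ 2 / √(sq2 v p)
      + √(sq2 v p)) ∂PP = _ := integral_add (m1.1.add m2.1) m3.1
    have e3 : ∫ p, (inner ℝ p K ^ 2 / √(sq2 v p) + inner ℝ p K' ^ 2 / √(sq2 v p)) ∂PP
      = _ := integral_add m1.1 m2.1
    rw [e2, e3, m1.2, m2.2, m3.2]
  change _ ≤ ∫ p, (1 / 2) * (inner ℝ p K ^ 2 / √(sq2 v p) + inner ℝ p K' ^ 2 / √(sq2 v p)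
      + √(sq2 v p)) ∂PP at h2
  rw [e1, hK, hK', pK, pK, vK, vK, ← hK, ← hK'] at h2
  have hpi := Real.pi_pos
  have h3 := mul_le_mul_of_nonneg_left h2 (show (0 : ℝ) ≤ 8 / Real.pi by positivity)
  have e4 : 8 / Real.pi * ((1 / 2) * ((Real.pi / 8 * ‖prj v x‖ ^ 2 + Real.pi / 4 * ((1 / 2) * inner ℝ v x) ^ 2)
      + (Real.pi / 8 * ‖prj v y‖ ^ 2 + Real.pi / 4 * ((1 / 2) * inner ℝ v y) ^ 2) + Real.pi / 4)) =
      (1 / 2) * (‖prj v x‖ ^ 2 + ‖prj v y‖ ^ 2 + (1 / 2) * (inner ℝ v x ^ 2 + inner ℝ v y ^ 2)) + 1 := by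
    field_simp
    ring
  rw [e4] at h3
  linarith

private theorem EYA_exists_perp (x y : E3) : ∃ v : E3, ‖v‖ = 1 ∧ inner ℝ v x = (0 : ℝ) ∧
    inner ℝ v y = (0 : ℝ) := by
  set S : Submodule ℝ E3 := Submodule.span ℝ {x, y} with hS
  have h1 : Module.finrank ℝ S ≤ 2 := by
    have := finrank_span_le_card (R := ℝ) ({x, y} : Set E3)
    refine this.trans ?_
    rw [Set.toFinset_card]
    have h2 := Set.toFinset_card ({x, y} : Set E3)
    rw [← h2]
    have h3 : (({x, y} : Set E3).toFinset) = {x, y} := by simp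
    rw [h3]
    exact Finset.card_le_two
  have h2 : Module.finrank ℝ S + Module.finrank ℝ Sᗮ = 3 := by
    rw [Submodule.finrank_add_finrank_orthogonal]
    simp
  have h3 : 0 < Module.finrank ℝ Sᗮ := by omega
  obtain ⟨⟨z, hz⟩, hz0⟩ := Module.finrank_pos_iff_exists_ne_zero.mp h3
  have hz1 : z ≠ 0 := fun h => hz0 (by simp [h])
  have hzn : ‖z‖ ≠ 0 := norm_ne_zero_iff.mpr hz1
  rw [Submodule.mem_orthogonal'] at hz
  refine ⟨(‖z‖⁻¹ : ℝ) • z, ?_, ?_, ?_⟩
  · rw [norm_smul, norm_inv, norm_norm]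
    exact inv_mul_cancel₀ hzn
  · rw [real_inner_smul_left, hz x (Submodule.subset_span (by simp)), mul_zero]
  · rw [real_inner_smul_left, hz y (Submodule.subset_span (by simp)), mul_zero]

/-- the gradient of `Θ` is in `W` with the best parameters -/
theorem Th_InW (h : GoodPt C F o) : InW 2 1 (dx C F.Th o) (dy C F.Th o) := by
  refine ⟨fun w hw => Th_m h hw, fun w hw => Th_p h hw, ?_⟩
  obtain ⟨v, hv, h1, h2⟩ := EYA_exists_perp (dx C F.Th o) (dy C F.Th o)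
  have k := Th_s h hv
  rw [prj_of_perp h1, prj_of_perp h2, h1, h2] at k
  linarith

end Pool.Agent.FPX
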