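import Mathlib
import Pool.Agent.FPX.EYA

/-
EMY (helper30): the class of maps with a variable bound (helper68). Pairs `(v, Y)`, `v` odd into the
sphere, `Y ≥ 0` even Lipschitz, `dv ∈ e^Y W` almost everywhere. The class is stable under the explicit
step `v ↦ (v + t Z)/|v + t Z|`, `Y ↦ Y + t D + 2 K² t²`, for every odd Lipschitz `Z` with `dZ ∈ W` and
every even Lipschitz `D ≥ e^{-Y} - ⟨v, Z⟩`, `D ≥ -Y`. Near-minimisers of
`∫ φ(ν) + (a/2) ∫ |dY|² + (b/2) ∫ Y²` in this class and their first variation.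
-/

open MeasureTheory Set Filter Topology
open scoped ENNReal NNReal

noncomputable section

namespace Pool.Agent.FPX

open Pool.Agent.EWD

variable {M : Type} [MetricSpace M] {γ : ℝ → M}

/-- the class -/
structure KY (C : Calc M γ) (Λ E : ℝ) (v : Fin 3 → M → ℝ) (Y : M → ℝ) : Prop where
  sph : Sph γ v
  lipY : Lip Y
  evenY : EvenB γ Y
  nonneg : ∀ x, 0 ≤ Y x
  inW : ∀ᵐ o ∂C.μ, InW (Real.exp (Y (C.pt o)) * Λ) (Real.exp (Y (C.pt o)) ^ 2 * E)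
    (dx C v o) (dy C v o)

/-- the test fields -/
structure TZ (C : Calc M γ) (Λ E K : ℝ) (Z : Fin 3 → M → ℝ) : Prop where
  lip : ∀ k, Lip (Z k)
  odd : ∀ k, OddB γ (Z k)
  bd : ∀ x, ‖vv (n := 0) Z x‖ ≤ K
  inW : ∀ᵐ o ∂C.μ, InW Λ E (dx C Z o) (dy C Z o)

/-- the product of the gradients -/
def G2 (C : Calc M γ) (Y D : M → ℝ) (o : Om) : ℝ := C.gx Y o * C.gx D o + C.gy Y o * C.gy D o

/-- the functional -/
def PhY (C : Calc M γ) (φ : ℝ → ℝ) (a b : ℝ) (v : Fin 3 → M → ℝ) (Y : M → ℝ) : ℝ :=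
  Ph C φ v + a / 2 * ∫ o, G2 C Y Y o ∂C.μ + b / 2 * ∫ o, Y (C.pt o) ^ 2 ∂C.μ

/-- the bound after the step -/
def stY (t K : ℝ) (Y D : M → ℝ) (x : M) : ℝ := Y x + t * D x + 2 * K ^ 2 * t ^ 2

theorem stY_lip {Y D : M → ℝ} (hY : Lip Y) (hD : Lip D) (t K : ℝ) : Lip (stY t K Y D) :=
  (hY.add (hD.const_mul t)).add (lip_const (2 * K ^ 2 * t ^ 2))

private theorem EMY_log {u : ℝ} (hu : -(1 / 2) ≤ u) : 1 / (1 + u) ≤ Real.exp (-u + 2 * u ^ 2) := by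
  have h0 : 0 < 1 + u := by linarith
  have h1 := Real.one_sub_inv_le_log_of_pos h0
  have h2 : u - 2 * u ^ 2 ≤ 1 - (1 + u)⁻¹ := by
    have e : 1 - (1 + u)⁻¹ = u / (1 + u) := by
      field_simp
      ring
    rw [e, le_div_iff₀ h0]
    nlinarith [mul_nonneg (sq_nonneg u) (show 0 ≤ 1 + 2 * u by linarith)]
  have h3 : u - 2 * u ^ 2 ≤ Real.log (1 + u) := h2.trans h1
  have h4 : Real.exp (u - 2 * u ^ 2) ≤ 1 + u := by
    calc Real.exp (u - 2 * u ^ 2) ≤ Real.exp (Real.log (1 + u)) := Real.exp_le_exp.mpr h3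
      _ = 1 + u := Real.exp_log h0
  have h5 : Real.exp (-u + 2 * u ^ 2) = (Real.exp (u - 2 * u ^ 2))⁻¹ := by
    rw [← Real.exp_neg]
    congr 1
    ring
  rw [h5, one_div]
  exact inv_anti₀ (Real.exp_pos _) h4

/-- the scalar inequality behind the stability -/
private theorem EMY_scal {Y t z N K D : ℝ} (ht : 0 ≤ t) (hz : |z| ≤ K) (htK : t * K ≤ 1 / 2)
    (hN : 1 + t * z ≤ N) (hD : Real.exp (-Y) - z ≤ D) :
    (Real.exp Y + t) / N ≤ Real.exp (Y + t * D + 2 * K ^ 2 * t ^ 2) := by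
  have hu : |t * z| ≤ 1 / 2 := by
    rw [abs_mul, abs_of_nonneg ht]
    exact (mul_le_mul_of_nonneg_left hz ht).trans htK
  obtain ⟨u1, u2⟩ := abs_le.mp hu
  have h0 : 0 < 1 + t * z := by linarith
  have h1 := EMY_log u1
  have h2 : Real.exp Y + t ≤ Real.exp (Y + t * Real.exp (-Y)) := by
    have e : Real.exp Y + t = Real.exp Y * (1 + t * Real.exp (-Y)) := by
      have : Real.exp Y * Real.exp (-Y) = 1 := by
        rw [← Real.exp_add, add_neg_cancel, Real.exp_zero]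
      linear_combination (-t) * this
    rw [e, Real.exp_add]
    refine mul_le_mul_of_nonneg_left ?_ (Real.exp_pos _).le
    have := Real.add_one_le_exp (t * Real.exp (-Y))
    linarith
  have h3 : (Real.exp Y + t) / N ≤ (Real.exp Y + t) / (1 + t * z) :=
    div_le_div_of_nonneg_left (by positivity) h0 hN
  have h4 : (Real.exp Y + t) / (1 + t * z) ≤
      Real.exp (Y + t * Real.exp (-Y)) * Real.exp (-(t * z) + 2 * (t * z) ^ 2) := by
    rw [div_eq_mul_one_div]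
    exact mul_le_mul h2 h1 (by positivity) (Real.exp_pos _).le
  refine (h3.trans h4).trans ?_
  rw [← Real.exp_add]
  refine Real.exp_le_exp.mpr ?_
  have h5 := mul_le_mul_of_nonneg_left hD ht
  have h6 : (t * z) ^ 2 ≤ K ^ 2 * t ^ 2 := by
    rw [mul_pow, mul_comm]
    refine mul_le_mul_of_nonneg_right ?_ (sq_nonneg t)
    rw [← sq_abs z]
    exact pow_le_pow_left₀ (abs_nonneg z) hz 2
  nlinarith

theorem KY.step {C : Calc M γ} {Λ E : ℝ} {v : Fin 3 → M → ℝ} {Y : M → ℝ} (h : KY C Λ E v Y)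
    (hΛ : 0 ≤ Λ) (hE : 0 ≤ E) {K : ℝ} {Z : Fin 3 → M → ℝ} (hZ : TZ C Λ E K Z) {D : M → ℝ} (hD : Lip D)
    (eD : EvenB γ D) (h1 : ∀ x, Real.exp (-Y x) - inner ℝ (vv (n := 0) v x) (vv (n := 0) Z x) ≤ D x)
    (h2 : ∀ x, -Y x ≤ D x) {t : ℝ} (ht : 0 ≤ t) (ht1 : t ≤ 1) (htK : t * K ≤ 1 / 2) :
    KY C Λ E (cpt t v Z) (stY t K Y D) := by
  refine ⟨cpt_sph h.sph hZ.lip hZ.odd ht hZ.bd htK, stY_lip h.lipY hD t K, ?_, ?_, ?_⟩
  · intro s
    unfold stY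
    rw [h.evenY s, eD s]
  · intro x
    unfold stY
    have a1 := mul_le_mul_of_nonneg_left (h2 x) ht
    have a2 := h.nonneg x
    have a3 : 0 ≤ 2 * K ^ 2 * t ^ 2 := by positivity
    nlinarith
  · filter_upwards [ae_cpt C h.sph hZ.lip ht hZ.bd htK, h.inW, hZ.inW, ae_perp C h.sph] with o h3 h4 h5 h6
    rw [h3.2.1, h3.2.2]
    have hn : ‖at' C v o‖ = 1 := norm_at h.sph o
    set z : ℝ := inner ℝ (at' C v o) (at' C Z o) with hz
    have hzK : |z| ≤ K := by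
      refine (abs_real_inner_le_norm _ _).trans ?_
      rw [hn, one_mul]
      exact hZ.bd (C.pt o)
    have hN1 : 1 + t * z ≤ ‖at' C v o + t • at' C Z o‖ := by
      have e : inner ℝ (at' C v o) (at' C v o + t • at' C Z o) = 1 + t * z := by
        rw [inner_add_right, inner_smul_right, inner_self_one hn]
      rw [← e]
      refine (real_inner_le_norm _ _).trans ?_
      rw [hn, one_mul]
    have hu : |t * z| ≤ 1 / 2 := by
      rw [abs_mul, abs_of_nonneg ht]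
      exact (mul_le_mul_of_nonneg_left hzK ht).trans htK
    have hN0 : 0 < ‖at' C v o + t • at' C Z o‖ := by
      have := (abs_le.mp hu).1
      linarith
    have k := nd_W (u := at' C v o) (Z := at' C Z o) (Real.exp_pos _).le ht h4 h5 rfl hN0 hE
    have key := EMY_scal (Y := Y (C.pt o)) (D := D (C.pt o)) ht hzK htK hN1 (h1 (C.pt o))
    have q0 : 0 ≤ (Real.exp (Y (C.pt o)) + t) / ‖at' C v o + t • at' C Z o‖ := by positivity
    refine k.mono (mul_le_mul_of_nonneg_right key hΛ) (mul_le_mul_of_nonneg_right ?_ hE)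
    exact pow_le_pow_left₀ q0 key 2

variable [CompactSpace M]

theorem G2_int (C : Calc M γ) {Y D : M → ℝ} (hY : Lip Y) (hD : Lip D) : Integrable (G2 C Y D) C.μ :=
  integrable_cont C (u := ![Y, D]) (fun i => by fin_cases i; exacts [hY, hD])
    (Φ := fun q => (q 0).2.1 * (q 1).2.1 + (q 0).2.2 * (q 1).2.2) (by fun_prop)

theorem YD_int (C : Calc M γ) {Y D : M → ℝ} (hY : Lip Y) (hD : Lip D) :
    Integrable (fun o => Y (C.pt o) * D (C.pt o)) C.μ :=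
  integrable_cont C (u := ![Y, D]) (fun i => by fin_cases i; exacts [hY, hD])
    (Φ := fun q => (q 0).1 * (q 1).1) (by fun_prop)

theorem YY_int (C : Calc M γ) {Y : M → ℝ} (hY : Lip Y) :
    Integrable (fun o => Y (C.pt o) ^ 2) C.μ :=
  integrable_cont C (u := ![Y]) (fun i => by fin_cases i; exact hY)
    (Φ := fun q => (q 0).1 ^ 2) (by fun_prop)

theorem G2_self_nonneg (C : Calc M γ) (Y : M → ℝ) (o : Om) : 0 ≤ G2 C Y Y o := by
  unfold G2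
  nlinarith [sq_nonneg (C.gx Y o), sq_nonneg (C.gy Y o)]

private theorem EMY_grad (C : Calc M γ) {Y D : M → ℝ} (hY : Lip Y) (hD : Lip D) (t K : ℝ) :
    ∀ᵐ o ∂C.μ, C.gx (stY t K Y D) o = C.gx Y o + t * C.gx D o ∧
      C.gy (stY t K Y D) o = C.gy Y o + t * C.gy D o := by
  filter_upwards [C.ae_has hY, C.ae_has hD] with o a1 a2
  exact ⟨((a1.1.add (a2.1.const_mul t)).add_const (2 * K ^ 2 * t ^ 2)).deriv,
    ((a1.2.add (a2.2.const_mul t)).add_const (2 * K ^ 2 * t ^ 2)).deriv⟩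

/-- Dirichlet energy of the new bound -/
theorem G2_st (C : Calc M γ) {Y D : M → ℝ} (hY : Lip Y) (hD : Lip D) (t K : ℝ) :
    ∫ o, G2 C (stY t K Y D) (stY t K Y D) o ∂C.μ = ∫ o, G2 C Y Y o ∂C.μ
      + 2 * t * ∫ o, G2 C Y D o ∂C.μ + t ^ 2 * ∫ o, G2 C D D o ∂C.μ := by
  have h : ∀ᵐ o ∂C.μ, G2 C (stY t K Y D) (stY t K Y D) o =
      G2 C Y Y o + 2 * t * G2 C Y D o + t ^ 2 * G2 C D D o := by
    filter_upwards [EMY_grad C hY hD t K] with o ho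
    unfold G2
    rw [ho.1, ho.2]
    ring
  have i1 := G2_int C hY hY
  have i2 := (G2_int C hY hD).const_mul (2 * t)
  have i3 := (G2_int C hD hD).const_mul (t ^ 2)
  rw [integral_congr_ae h]
  refine (integral_add (i1.add i2) i3).trans ?_
  have e : ∫ o, (G2 C Y Y + fun o => 2 * t * G2 C Y D o) o ∂C.μ = _ := integral_add i1 i2
  rw [e, integral_const_mul, integral_const_mul]

/-- square integral of the new bound -/
theorem YY_st (C : Calc M γ) {Y D : M → ℝ} (hY : Lip Y) (hD : Lip D) {t K G₀ : ℝ} (ht : 0 ≤ t)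
    (ht1 : t ≤ 1) (hG : ∀ x, |D x| ≤ G₀) :
    ∫ o, stY t K Y D (C.pt o) ^ 2 ∂C.μ ≤ ∫ o, Y (C.pt o) ^ 2 ∂C.μ
      + 2 * t * ∫ o, Y (C.pt o) * D (C.pt o) ∂C.μ
      + t ^ 2 * (2 * K ^ 2 * ∫ o, Y (C.pt o) ^ 2 ∂C.μ + (2 * K ^ 2 + (G₀ + 2 * K ^ 2) ^ 2) * C.vol) := by
  have := C.fin
  have i0 := YY_int C (stY_lip hY hD t K)
  have i1 := YY_int C hY
  have i2 := (YD_int C hY hD).const_mul (2 * t)
  have i3 := ((i1.const_mul (2 * K ^ 2)).add
    (integrable_const (μ := C.μ) (2 * K ^ 2 + (G₀ + 2 * K ^ 2) ^ 2))).const_mul (t ^ 2)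
  have h : ∀ o, stY t K Y D (C.pt o) ^ 2 ≤ Y (C.pt o) ^ 2 + 2 * t * (Y (C.pt o) * D (C.pt o))
      + t ^ 2 * (2 * K ^ 2 * Y (C.pt o) ^ 2 + (2 * K ^ 2 + (G₀ + 2 * K ^ 2) ^ 2)) := by
    intro o
    unfold stY
    set y := Y (C.pt o)
    have hd := hG (C.pt o)
    set d := D (C.pt o)
    have e : (y + t * d + 2 * K ^ 2 * t ^ 2) ^ 2 = y ^ 2 + 2 * t * (y * d)
        + t ^ 2 * (4 * K ^ 2 * y + (d + 2 * K ^ 2 * t) ^ 2) := by ring
    rw [e]
    have h1 : 4 * K ^ 2 * y ≤ 2 * K ^ 2 * y ^ 2 + 2 * K ^ 2 := by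
      nlinarith [mul_nonneg (sq_nonneg K) (sq_nonneg (y - 1))]
    have h2 : (d + 2 * K ^ 2 * t) ^ 2 ≤ (G₀ + 2 * K ^ 2) ^ 2 := by
      have a1 : |d + 2 * K ^ 2 * t| ≤ G₀ + 2 * K ^ 2 := by
        refine (abs_add_le _ _).trans (add_le_add hd ?_)
        rw [abs_of_nonneg (by positivity)]
        have : 0 ≤ 2 * K ^ 2 := by positivity
        nlinarith
      rw [← sq_abs]
      exact pow_le_pow_left₀ (abs_nonneg _) a1 2
    have h3 := mul_le_mul_of_nonneg_left (add_le_add h1 h2) (sq_nonneg t)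
    linarith
  refine (integral_mono i0 ((i1.add i2).add i3) h).trans (le_of_eq ?_)
  refine (integral_add (i1.add i2) i3).trans ?_
  have e : ∫ o, ((fun o => Y (C.pt o) ^ 2) + fun o => 2 * t * (Y (C.pt o) * D (C.pt o))) o ∂C.μ = _ :=
    integral_add i1 i2
  have e2 : ∫ o, (2 * K ^ 2 * Y (C.pt o) ^ 2 + (2 * K ^ 2 + (G₀ + 2 * K ^ 2) ^ 2)) ∂C.μ
      = _ := integral_add (i1.const_mul (2 * K ^ 2))
        (integrable_const (μ := C.μ) (2 * K ^ 2 + (G₀ + 2 * K ^ 2) ^ 2))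
  have e3 : ∫ _ : Om, (2 * K ^ 2 + (G₀ + 2 * K ^ 2) ^ 2) ∂C.μ = (2 * K ^ 2 + (G₀ + 2 * K ^ 2) ^ 2) * C.vol := by
    rw [integral_const, smul_eq_mul, mul_comm]
    rfl
  have e4 : ∫ o, t ^ 2 * (((fun o => 2 * K ^ 2 * Y (C.pt o) ^ 2)
      + fun _ : Om => 2 * K ^ 2 + (G₀ + 2 * K ^ 2) ^ 2) : Om → ℝ) o ∂C.μ =
      t ^ 2 * ∫ o, (2 * K ^ 2 * Y (C.pt o) ^ 2 + (2 * K ^ 2 + (G₀ + 2 * K ^ 2) ^ 2)) ∂C.μ :=
    integral_const_mul _ _
  rw [e, integral_const_mul, e4, e2, integral_const_mul, e3]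

/-- **near-minimisers in the class with a variable bound**, and their first variation -/
theorem emy (C : Calc M γ) (hγ : Bd γ) (hR : RegAE C) {φ φ' : ℝ → ℝ} {s L : ℝ} (P : Pen φ φ' s L)
    {Λ E : ℝ} (hΛ : 0 ≤ Λ) (hE : 0 ≤ E) {a b : ℝ} (ha : 0 ≤ a) (hb : 0 ≤ b)
    {U : Fin 3 → M → ℝ} {Y₀ : M → ℝ} (hU : KY C Λ E U Y₀) (hUJ : ∫ o, jac C U o ∂C.μ = 2 * Real.pi)
    {X : ℝ} (hUX : PhY C φ a b U Y₀ < X) (hX : X < 2 * Real.pi) {K K₂ G₀ : ℝ} (hK : 0 ≤ K)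
    (hG₀ : 0 ≤ G₀) (hK₂ : 0 ≤ K₂) {ε : ℝ} (hε : 0 < ε) :
    ∃ (v : Fin 3 → M → ℝ) (Y : M → ℝ), KY C Λ E v Y ∧ ∫ o, jac C v o ∂C.μ = 2 * Real.pi ∧
      PhY C φ a b v Y < X ∧
      ∀ (Z : Fin 3 → M → ℝ) (D : M → ℝ), TZ C Λ E K Z → Lip D → EvenB γ D →
        (∀ x, Real.exp (-Y x) - inner ℝ (vv (n := 0) v x) (vv (n := 0) Z x) ≤ D x) →
        (∀ x, -Y x ≤ D x) → (∀ x, |D x| ≤ G₀) → a * ∫ o, G2 C D D o ∂C.μ ≤ K₂ →
        -ε ≤ ∫ o, φ' (nuC C v o) * dnuC C v Z o ∂C.μ + a * ∫ o, G2 C Y D o ∂C.μ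
          + b * ∫ o, Y (C.pt o) * D (C.pt o) ∂C.μ := by
  have := C.fin
  have hpi := Real.pi_pos
  have hV : 0 ≤ C.vol := ENNReal.toReal_nonneg
  -- the bound of `∫ |dZ|²`
  set KZ := 2 * E * C.vol with hKZ
  have hKZ0 : 0 ≤ KZ := by positivity
  have hZ2 : ∀ Z : Fin 3 → M → ℝ, TZ C Λ E K Z → ∫ o, S2 C Z o ∂C.μ ≤ KZ := by
    intro Z hZ
    have h1 : ∀ᵐ o ∂C.μ, S2 C Z o ≤ 2 * E := by
      filter_upwards [hZ.inW] with o ho
      exact ho.s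
    refine (integral_mono_ae (S2_int C hZ.lip) (integrable_const (2 * E)) h1).trans (le_of_eq ?_)
    rw [integral_const, smul_eq_mul, mul_comm]
    rfl
  set c1 := (8 + 64 * K + 120 * K ^ 2) * (8 * Real.pi + KZ) with hc1
  set c2 := (L * (8 + 8 * K ^ 2) + s * (4 + 62 * K + 120 * K ^ 2)) * (8 * Real.pi + KZ)
    + K₂ / 2 + (2 * K ^ 2 * X + b / 2 * (2 * K ^ 2 + (G₀ + 2 * K ^ 2) ^ 2) * C.vol) with hc2
  have hs := P.s0
  have hL := P.L0
  have n1 : ∀ v : Fin 3 → M → ℝ, 0 ≤ Ph C φ v := fun v =>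
    integral_nonneg fun o => (nuv_nonneg _ _ _).trans (P.ge _ (nuv_nonneg _ _ _))
  have n2 : ∀ Y : M → ℝ, 0 ≤ ∫ o, G2 C Y Y o ∂C.μ := fun Y => integral_nonneg fun o => G2_self_nonneg C Y o
  have n3 : ∀ Y : M → ℝ, 0 ≤ ∫ o, Y (C.pt o) ^ 2 ∂C.μ := fun Y => integral_nonneg fun o => sq_nonneg _
  have n4 : ∀ v Y, Ph C φ v ≤ PhY C φ a b v Y := by
    intro v Y
    unfold PhY
    have h1 := n2 Y
    have h2 := n3 Y
    have h3 : 0 ≤ a / 2 * ∫ o, G2 C Y Y o ∂C.μ := by positivity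
    have h4 : 0 ≤ b / 2 * ∫ o, Y (C.pt o) ^ 2 ∂C.μ := by positivity
    linarith
  have hX0 : 0 ≤ X := ((n1 U).trans (n4 U Y₀)).trans hUX.le
  have p1 : 0 < c1 := by positivity
  have p2 : 0 ≤ c2 := by positivity
  -- the step
  obtain ⟨t, ht0, ht1, htK, htt, ht2⟩ : ∃ t : ℝ, 0 < t ∧ t ≤ 1 ∧ t * K ≤ 1 / 2 ∧
      t * c1 < 2 * Real.pi - X ∧ t * c2 ≤ ε / 2 := by
    set m := min 1 (min (1 / (2 * (K + 1))) (min ((2 * Real.pi - X) / (2 * c1)) (ε / (2 * (c2 + 1))))) with hm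
    have q1 : 0 < 2 * Real.pi - X := by linarith
    have m1 : m ≤ 1 := min_le_left _ _
    have m2 : m ≤ 1 / (2 * (K + 1)) := (min_le_right _ _).trans (min_le_left _ _)
    have m3 : m ≤ (2 * Real.pi - X) / (2 * c1) :=
      ((min_le_right _ _).trans (min_le_right _ _)).trans (min_le_left _ _)
    have m4 : m ≤ ε / (2 * (c2 + 1)) :=
      ((min_le_right _ _).trans (min_le_right _ _)).trans (min_le_right _ _)
    have m0 : 0 < m := by
      refine lt_min one_pos (lt_min (by positivity) (lt_min (by positivity) (by positivity)))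
    refine ⟨m, m0, m1, ?_, ?_, ?_⟩
    · rw [le_div_iff₀ (by positivity)] at m2
      nlinarith
    · rw [le_div_iff₀ (by positivity)] at m3
      nlinarith [mul_pos m0 p1]
    · rw [le_div_iff₀ (by positivity)] at m4
      nlinarith
  -- the near-minimiser
  set F : Set ℝ := {r | ∃ (v : Fin 3 → M → ℝ) (Y : M → ℝ), KY C Λ E v Y ∧
    ∫ o, jac C v o ∂C.μ = 2 * Real.pi ∧ PhY C φ a b v Y = r} with hF
  have hne : F.Nonempty := ⟨_, U, Y₀, hU, hUJ, rfl⟩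
  have hbd : BddBelow F := ⟨0, by
    rintro r ⟨v, Y, hv, -, rfl⟩
    exact (n1 v).trans (n4 v Y)⟩
  have hpos : 0 < min (t * ε / 2) (X - PhY C φ a b U Y₀) := lt_min (by positivity) (by linarith)
  obtain ⟨r, ⟨v, Y, hv, hvJ, rfl⟩, hr⟩ := Real.lt_sInf_add_pos hne hpos
  have hUm : sInf F ≤ PhY C φ a b U Y₀ := csInf_le hbd ⟨U, Y₀, hU, hUJ, rfl⟩
  have hvX : PhY C φ a b v Y < X := by
    have := min_le_right (t * ε / 2) (X - PhY C φ a b U Y₀)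
    linarith
  refine ⟨v, Y, hv, hvJ, hvX, fun Z D hZ hD eD hD1 hD2 hD3 hD4 => ?_⟩
  have hvX' : Ph C φ v < X := (n4 v Y).trans_lt hvX
  have hdeg := cpt_deg C hγ hR hv.sph hvJ hZ.lip hZ.odd ht0.le ht1 hK hZ.bd htK
    ((nu_le_Ph C P hv.sph.lip).trans hvX'.le) hX (hZ2 Z hZ) htt
  have h1 : sInf F ≤ PhY C φ a b (cpt t v Z) (stY t K Y D) :=
    csInf_le hbd ⟨_, _, hv.step hΛ hE hZ hD eD hD1 hD2 ht0.le ht1 htK, hdeg, rfl⟩
  have h2 := Ph_cpt C P hv.sph hZ.lip hZ.odd ht0.le ht1 hZ.bd htK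
  have h3 := min_le_left (t * ε / 2) (X - PhY C φ a b U Y₀)
  have h4 := int_S2 C hv.sph
  rw [hvJ] at h4
  have h5 := nu_le_Ph C P hv.sph.lip
  have g1 := G2_st C hv.lipY hD t K
  have g2 := YY_st C hv.lipY hD (K := K) ht0.le ht1 hD3
  have g3 := mul_le_mul_of_nonneg_left g2 (show 0 ≤ b / 2 by positivity)
  set I := ∫ o, φ' (nuC C v o) * dnuC C v Z o ∂C.μ with hI
  set A := ∫ o, S2 C v o ∂C.μ + ∫ o, S2 C Z o ∂C.μ with hA
  set YY := ∫ o, Y (C.pt o) ^ 2 ∂C.μ with hYY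
  set GY := ∫ o, G2 C Y Y o ∂C.μ with hGY
  set GYD := ∫ o, G2 C Y D o ∂C.μ with hGYD
  set GD := ∫ o, G2 C D D o ∂C.μ with hGD
  set YD := ∫ o, Y (C.pt o) * D (C.pt o) ∂C.μ with hYD
  set W₀ := (2 * K ^ 2 + (G₀ + 2 * K ^ 2) ^ 2) * C.vol with hW₀
  have hbY : b / 2 * YY ≤ X := by
    have a1 := n1 v
    have a2 := n2 Y
    have a3 : 0 ≤ a / 2 * ∫ o, G2 C Y Y o ∂C.μ := by positivity
    have a4 := hvX
    unfold PhY at a4
    linarith
  -- the total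
  have h6 : (L * (8 + 8 * K ^ 2) + s * (4 + 62 * K + 120 * K ^ 2)) * A + a / 2 * GD
      + b / 2 * (2 * K ^ 2 * YY + W₀) ≤ c2 := by
    have k1 : (L * (8 + 8 * K ^ 2) + s * (4 + 62 * K + 120 * K ^ 2)) * A ≤
        (L * (8 + 8 * K ^ 2) + s * (4 + 62 * K + 120 * K ^ 2)) * (8 * Real.pi + KZ) := by
      refine mul_le_mul_of_nonneg_left ?_ (by positivity)
      have := hZ2 Z hZ
      rw [hA]
      linarith
    have k2 : b / 2 * (2 * K ^ 2 * YY + W₀) ≤ 2 * K ^ 2 * X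
        + b / 2 * (2 * K ^ 2 + (G₀ + 2 * K ^ 2) ^ 2) * C.vol := by
      have := mul_le_mul_of_nonneg_left hbY (show 0 ≤ 2 * K ^ 2 by positivity)
      rw [hW₀]
      nlinarith
    rw [hc2]
    linarith
  have h7 : PhY C φ a b (cpt t v Z) (stY t K Y D) ≤ PhY C φ a b v Y + t * (I + a * GYD + b * YD)
      + t ^ 2 * c2 := by
    have k3 := mul_le_mul_of_nonneg_left h6 (sq_nonneg t)
    unfold PhY
    rw [g1]
    have e : t ^ 2 * ((L * (8 + 8 * K ^ 2) + s * (4 + 62 * K + 120 * K ^ 2)) * A + a / 2 * GD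
      + b / 2 * (2 * K ^ 2 * YY + W₀)) = t ^ 2 * ((L * (8 + 8 * K ^ 2) + s * (4 + 62 * K + 120 * K ^ 2)) * A)
      + a / 2 * (t ^ 2 * GD) + b / 2 * (t ^ 2 * (2 * K ^ 2 * YY + W₀)) := by ring
    rw [e] at k3
    linarith
  have h8 : t ^ 2 * c2 ≤ t * (ε / 2) := by
    have : t ^ 2 * c2 = t * (t * c2) := by ring
    rw [this]
    exact mul_le_mul_of_nonneg_left ht2 ht0.le
  have h9 : 0 ≤ t * (I + a * GYD + b * YD + ε) := by
    have : t * (I + a * GYD + b * YD + ε) = t * (I + a * GYD + b * YD) + t * (ε / 2) + t * ε / 2 := by ring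
    rw [this]
    linarith
  have h10 := nonneg_of_mul_nonneg_right h9 ht0
  linarith

end Pool.Agent.FPX
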