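import Mathlib
import Pool.Agent.FPX.UMP2
import Pool.Agent.FPU.USTAR

/-
UMAP (helper76): the universal map with the constant `17 / 150` of helper16.
-/

open MeasureTheory Set Filter Topology
open scoped ENNReal NNReal

noncomputable section

namespace Pool.Agent.FPX

open Pool.Agent.EWD

variable {M : Type} [MetricSpace M] {γ : ℝ → M}

/-- an odd Lipschitz map of degree one with `e + |J| ≤ 2 (1 + 17 / 150) + ε` -/
theorem umap_exists [CompactSpace M] (C : Calc M γ) (hγ : Bd γ) {ε : ℝ} (hε : 0 < ε) :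
    ∃ F : Fin 3 → M → ℝ, Sph γ F ∧
      (∀ k, LipschitzWith (Real.toNNReal (2 * √(1 + 17 / 150) + ε)) (F k)) ∧
      (∀ᵐ o ∂C.μ, (‖dx C F o‖ ^ 2 + ‖dy C F o‖ ^ 2) / 2 + |jac C F o| ≤ 2 * (1 + 17 / 150) + ε) ∧
      ∫ o, jac C F o ∂C.μ = 2 * Real.pi :=
  UMQ.umap C hγ (by norm_num) UMP.ustar hε

end Pool.Agent.FPX
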