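import Mathlib
import Pool.Agent.FPX.EMY
import Pool.Agent.FPX.UMAP

/-
EMZ (helper30): use of the class with a variable bound. `Θ` is a test field (`Th_TZ`), the universal map
is in the class with `Y = 0` (`KY_of_bd`), the first variation for `D = g - (1 - e^{-Y})` (`emz`).
-/

open MeasureTheory Set Filter Topology
open scoped ENNReal NNReal

noncomputable section

namespace Pool.Agent.FPX

open Pool.Agent.EWD

variable {M : Type} [MetricSpace M] {γ : ℝ → M}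

/-- `Θ` is a test field -/
theorem Th_TZ (C : Calc M γ) (F : Fam γ) {Λ E : ℝ} (hΛ : 2 ≤ Λ) (hE : 1 ≤ E) : TZ C Λ E 7 F.Th := by
  have hp := F.pre
  refine ⟨fun k => ⟨3, hp.lip k⟩, hp.odd, fun x => ?_, ?_⟩
  · have h : ‖vv (n := 0) F.Th x‖ ^ 2 ≤ 7 ^ 2 := by
      rw [normsq3]
      have h0 : (vv (n := 0) F.Th x) 0 = F.Th 0 x := rfl
      have h1 : (vv (n := 0) F.Th x) 1 = F.Th 1 x := rfl
      have h2 : (vv (n := 0) F.Th x) 2 = F.Th 2 x := rfl
      rw [h0, h1, h2]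
      have b : ∀ k, F.Th k x ^ 2 ≤ 16 := by
        intro k
        have := hp.bd k x
        rw [← sq_abs]
        nlinarith [abs_nonneg (F.Th k x)]
      linarith [b 0, b 1, b 2]
    exact le_of_sq_le_sq h (by norm_num)
  · filter_upwards [ae_goodPt C F] with o ho
    exact (Th_InW ho).mono hΛ hE

/-- a map with bounded gradient is in the class, with `Y = 0` -/
theorem KY_of_bd (C : Calc M γ) {U : Fin 3 → M → ℝ} (hU : Sph γ U) {G Λ E : ℝ} (hΛ : 2 * G ≤ Λ ^ 2)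
    (hΛ0 : 0 ≤ Λ)
    (h1 : ∀ᵐ o ∂C.μ, (‖dx C U o‖ ^ 2 + ‖dy C U o‖ ^ 2) / 2 + |jac C U o| ≤ G)
    (h2 : ∀ᵐ o ∂C.μ, (‖dx C U o‖ ^ 2 + ‖dy C U o‖ ^ 2) / 2 ≤ E) : KY C Λ E U (fun _ => 0) := by
  refine ⟨hU, lip_const 0, fun _ => rfl, fun _ => le_rfl, ?_⟩
  filter_upwards [h1, h2, ae_perp C hU] with o h3 h4 h5
  rw [Real.exp_zero, one_mul, one_pow, one_mul]
  have hv := norm_at (C := C) hU o
  have k1 := norm_pm hv h5.1 h5.2
  have k2 := jac_pm hv h5.1 h5.2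
  have k3 : jac C U o = ‖qp (at' C U o) (dx C U o) (dy C U o)‖ ^ 2
      - ‖qm (at' C U o) (dx C U o) (dy C U o)‖ ^ 2 := k2
  have e1 : dx C U o - crs (at' C U o) (dy C U o) = (2 : ℝ) • qm (at' C U o) (dx C U o) (dy C U o) := by
    unfold qm
    rw [prj_of_perp h5.1, smul_smul]
    norm_num
  have e2 : dx C U o + crs (at' C U o) (dy C U o) = (2 : ℝ) • qp (at' C U o) (dx C U o) (dy C U o) := by
    unfold qp
    rw [prj_of_perp h5.1, smul_smul]
    norm_num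
  have a1 := le_abs_self (jac C U o)
  have a2 := neg_le_abs (jac C U o)
  refine InW.of_perp hv h5.1 h5.2 ?_ ?_ (by linarith)
  · rw [e1, norm_smul]
    refine le_of_sq_le_sq ?_ hΛ0
    rw [mul_pow]
    norm_num
    linarith
  · rw [e2, norm_smul]
    refine le_of_sq_le_sq ?_ hΛ0
    rw [mul_pow]
    norm_num
    linarith

/-- the bounds of a map of the class in terms of the conformal and anticonformal parts -/
theorem KY.bds {C : Calc M γ} {Λ E : ℝ} {v : Fin 3 → M → ℝ} {Y : M → ℝ} (h : KY C Λ E v Y) :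
    ∀ᵐ o ∂C.μ, 2 * ‖qp (at' C v o) (dx C v o) (dy C v o)‖ ≤ Real.exp (Y (C.pt o)) * Λ ∧
      2 * ‖qm (at' C v o) (dx C v o) (dy C v o)‖ ≤ Real.exp (Y (C.pt o)) * Λ ∧
      ‖dx C v o‖ ^ 2 + ‖dy C v o‖ ^ 2 ≤ 2 * (Real.exp (Y (C.pt o)) ^ 2 * E) := by
  filter_upwards [h.inW] with o ho
  have hv := norm_at (C := C) h.sph o
  have k1 := ho.p _ hv
  have k2 := ho.m _ hv
  have e1 : (2 : ℝ) * ‖qm (at' C v o) (dx C v o) (dy C v o)‖ =
      ‖prj (at' C v o) (dx C v o) - crs (at' C v o) (dy C v o)‖ := by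
    unfold qm
    rw [norm_smul]
    norm_num
    ring
  have e2 : (2 : ℝ) * ‖qp (at' C v o) (dx C v o) (dy C v o)‖ =
      ‖prj (at' C v o) (dx C v o) + crs (at' C v o) (dy C v o)‖ := by
    unfold qp
    rw [norm_smul]
    norm_num
    ring
  exact ⟨e2 ▸ k1, e1 ▸ k2, ho.s⟩

/-! ### the choice `D = g - (1 - e^{-Y})` -/

/-- `1 - e^{-Y}` -/
def rY (Y : M → ℝ) (x : M) : ℝ := 1 - Real.exp (-Y x)

theorem rY_lip {Y : M → ℝ} (hY : Lip Y) (h0 : ∀ x, 0 ≤ Y x) : Lip (rY Y) := by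
  obtain ⟨L, hL⟩ := hY
  refine ⟨L, LipschitzWith.of_dist_le_mul fun x y => ?_⟩
  have h1 := hL.dist_le_mul x y
  refine le_trans ?_ h1
  rw [Real.dist_eq, Real.dist_eq]
  unfold rY
  have key : ∀ a b : ℝ, 0 ≤ a → a ≤ b → |Real.exp (-a) - Real.exp (-b)| ≤ |a - b| := by
    intro a b ha hab
    have e1 : Real.exp (-b) ≤ Real.exp (-a) := Real.exp_le_exp.mpr (by linarith)
    rw [abs_of_nonneg (by linarith), abs_sub_comm, abs_of_nonneg (by linarith)]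
    have e2 : Real.exp (-b) = Real.exp (-a) * Real.exp (-(b - a)) := by
      rw [← Real.exp_add]
      congr 1
      ring
    have e3 := Real.add_one_le_exp (-(b - a))
    have e4 : Real.exp (-a) ≤ 1 := by
      rw [← Real.exp_zero]
      exact Real.exp_le_exp.mpr (by linarith)
    have e5 : 0 < Real.exp (-a) := Real.exp_pos _
    rw [e2]
    nlinarith
  have e : 1 - Real.exp (-Y x) - (1 - Real.exp (-Y y)) = -(Real.exp (-Y x) - Real.exp (-Y y)) := by ring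
  rw [e, abs_neg]
  rcases le_total (Y x) (Y y) with h | h
  · exact key _ _ (h0 x) h
  · rw [abs_sub_comm, abs_sub_comm (Y x)]
    exact key _ _ (h0 y) h

theorem ae_rY (C : Calc M γ) {Y g : M → ℝ} (hY : Lip Y) (hg : Lip g) : ∀ᵐ o ∂C.μ,
    C.gx (fun x => g x - rY Y x) o = C.gx g o - Real.exp (-Y (C.pt o)) * C.gx Y o ∧
    C.gy (fun x => g x - rY Y x) o = C.gy g o - Real.exp (-Y (C.pt o)) * C.gy Y o := by
  filter_upwards [C.ae_has hY, C.ae_has hg] with o h1 h2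
  have k1 := (h2.1.sub ((h1.1.neg.exp).const_sub 1)).deriv
  have k2 := (h2.2.sub ((h1.2.neg.exp).const_sub 1)).deriv
  have e1 : C.px o 0 = C.pt o := rfl
  have e2 : C.py o 0 = C.pt o := C.same o
  constructor
  · refine k1.trans ?_
    simp only [Pi.neg_apply]
    rw [e1]
    ring
  · refine k2.trans ?_
    simp only [Pi.neg_apply]
    rw [e2]
    ring

variable [CompactSpace M]

/-- **the first variation in the form used**: for every family and every even Lipschitz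
`g ≥ 0`, `g ≥ 1 - ⟨v, Θ⟩` -/
theorem emz (C : Calc M γ) (hγ : Bd γ) (hR : RegAE C) {φ φ' : ℝ → ℝ} {s L : ℝ} (P : Pen φ φ' s L)
    {Λ E : ℝ} (hΛ : 2 ≤ Λ) (hE : 1 ≤ E) {a b : ℝ} (ha : 0 ≤ a) (hb : 0 ≤ b)
    {U : Fin 3 → M → ℝ} {Y₀ : M → ℝ} (hU : KY C Λ E U Y₀) (hUJ : ∫ o, jac C U o ∂C.μ = 2 * Real.pi)
    {X : ℝ} (hUX : PhY C φ a b U Y₀ < X) (hX : X < 2 * Real.pi) {K₂ G₀ : ℝ}
    (hG₀ : 0 ≤ G₀) (hK₂ : 0 ≤ K₂) {ε : ℝ} (hε : 0 < ε) :
    ∃ (v : Fin 3 → M → ℝ) (Y : M → ℝ), KY C Λ E v Y ∧ ∫ o, jac C v o ∂C.μ = 2 * Real.pi ∧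
      PhY C φ a b v Y < X ∧
      ∀ (F : Fam γ) (g : M → ℝ), Lip g → EvenB γ g → (∀ x, 0 ≤ g x) →
        (∀ x, 1 - inner ℝ (vv (n := 0) v x) (vv (n := 0) F.Th x) ≤ g x) → (∀ x, g x ≤ G₀) →
        a * ∫ o, G2 C g g o ∂C.μ ≤ K₂ →
        -ε ≤ ∫ o, φ' (nuC C v o) * dnuC C v F.Th o ∂C.μ
          + a * (∫ o, G2 C Y g o ∂C.μ - ∫ o, Real.exp (-Y (C.pt o)) * G2 C Y Y o ∂C.μ)
          + b * (∫ o, Y (C.pt o) * g (C.pt o) ∂C.μ - ∫ o, Y (C.pt o) * rY Y (C.pt o) ∂C.μ) := by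
  have hX0 : 0 ≤ X := by
    have h1 : 0 ≤ Ph C φ U := integral_nonneg fun o => (nuv_nonneg _ _ _).trans (P.ge _ (nuv_nonneg _ _ _))
    have h2 : 0 ≤ ∫ o, G2 C Y₀ Y₀ o ∂C.μ := integral_nonneg fun o => G2_self_nonneg C Y₀ o
    have h3 : 0 ≤ ∫ o, Y₀ (C.pt o) ^ 2 ∂C.μ := integral_nonneg fun o => sq_nonneg _
    unfold PhY at hUX
    have h4 : 0 ≤ a / 2 * ∫ o, G2 C Y₀ Y₀ o ∂C.μ := by positivity
    have h5 : 0 ≤ b / 2 * ∫ o, Y₀ (C.pt o) ^ 2 ∂C.μ := by positivity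
    linarith
  obtain ⟨v, Y, hv, hvJ, hvX, hvar⟩ := emy C hγ hR P (Λ := Λ) (E := E) (by linarith) (by linarith) ha hb hU
    hUJ hUX hX (K := 7) (K₂ := 2 * K₂ + 4 * X) (G₀ := G₀ + 1) (by norm_num) (by linarith) (by positivity) hε
  refine ⟨v, Y, hv, hvJ, hvX, fun F g hg eg g0 g1 g2 g3 => ?_⟩
  set D : M → ℝ := fun x => g x - rY Y x with hD
  have hr := rY_lip hv.lipY hv.nonneg
  have hDl : Lip D := hg.sub hr
  have hexp : ∀ x, Real.exp (-Y x) ≤ 1 := fun x => by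
    rw [← Real.exp_zero]
    exact Real.exp_le_exp.mpr (by linarith [hv.nonneg x])
  have hG := ae_rY C hv.lipY hg
  have hY1 := G2_int C hv.lipY hv.lipY
  have hee : Integrable (fun o => Real.exp (-Y (C.pt o)) * G2 C Y Y o) C.μ :=
    integrable_cont C (u := ![Y]) (fun i => by fin_cases i; exact hv.lipY)
      (Φ := fun q => Real.exp (-(q 0).1) * ((q 0).2.1 * (q 0).2.1 + (q 0).2.2 * (q 0).2.2)) (by fun_prop)
  have hGY : a / 2 * ∫ o, G2 C Y Y o ∂C.μ ≤ X := by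
    have h1 : 0 ≤ Ph C φ v := integral_nonneg fun o => (nuv_nonneg _ _ _).trans (P.ge _ (nuv_nonneg _ _ _))
    have h3 : 0 ≤ ∫ o, Y (C.pt o) ^ 2 ∂C.μ := integral_nonneg fun o => sq_nonneg _
    unfold PhY at hvX
    have h5 : 0 ≤ b / 2 * ∫ o, Y (C.pt o) ^ 2 ∂C.μ := by positivity
    linarith
  have hDD : a * ∫ o, G2 C D D o ∂C.μ ≤ 2 * K₂ + 4 * X := by
    have h1 : ∀ᵐ o ∂C.μ, G2 C D D o ≤ 2 * G2 C g g o + 2 * G2 C Y Y o := by
      filter_upwards [hG] with o ho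
      unfold G2
      rw [ho.1, ho.2]
      have h2 := hexp (C.pt o)
      have h3 := (Real.exp_pos (-Y (C.pt o))).le
      set e := Real.exp (-Y (C.pt o))
      have h4 : e ^ 2 ≤ 1 := by nlinarith
      nlinarith [sq_nonneg (C.gx g o + e * C.gx Y o), sq_nonneg (C.gy g o + e * C.gy Y o),
        mul_le_mul_of_nonneg_right h4 (sq_nonneg (C.gx Y o)),
        mul_le_mul_of_nonneg_right h4 (sq_nonneg (C.gy Y o))]
    have h5 := integral_mono_ae (G2_int C hDl hDl)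
      (((G2_int C hg hg).const_mul 2).add (hY1.const_mul 2)) h1
    have h6 : ∫ o, ((fun o => 2 * G2 C g g o) + fun o => 2 * G2 C Y Y o) o ∂C.μ =
        2 * ∫ o, G2 C g g o ∂C.μ + 2 * ∫ o, G2 C Y Y o ∂C.μ := by
      refine (integral_add ((G2_int C hg hg).const_mul 2) (hY1.const_mul 2)).trans ?_
      rw [integral_const_mul, integral_const_mul]
    rw [h6] at h5
    have h7 := mul_le_mul_of_nonneg_left h5 ha
    linarith
  have hfin := hvar F.Th D (Th_TZ C F hΛ hE) hDl ?_ ?_ ?_ ?_ hDD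
  · refine hfin.trans (le_of_eq ?_)
    have e1 : ∫ o, G2 C Y D o ∂C.μ = ∫ o, G2 C Y g o ∂C.μ - ∫ o, Real.exp (-Y (C.pt o)) * G2 C Y Y o ∂C.μ := by
      rw [← integral_sub (G2_int C hv.lipY hg) hee]
      refine integral_congr_ae ?_
      filter_upwards [hG] with o ho
      unfold G2
      rw [ho.1, ho.2]
      ring
    have e2 : ∫ o, Y (C.pt o) * D (C.pt o) ∂C.μ = ∫ o, Y (C.pt o) * g (C.pt o) ∂C.μ
        - ∫ o, Y (C.pt o) * rY Y (C.pt o) ∂C.μ := by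
      rw [← integral_sub (YD_int C hv.lipY hg) (YD_int C hv.lipY hr)]
      refine integral_congr_ae (Eventually.of_forall fun o => ?_)
      simp only [hD]
      ring
    rw [e1, e2]
  · intro t
    simp only [hD, rY]
    rw [eg t, hv.evenY t]
  · intro x
    simp only [hD, rY]
    linarith [g1 x]
  · intro x
    simp only [hD, rY]
    have := Real.add_one_le_exp (-Y x)
    linarith [g0 x]
  · intro x
    simp only [hD, rY]
    have h1 := hexp x
    have h2 := (Real.exp_pos (-Y x)).le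
    rw [abs_le]
    constructor
    · linarith [g0 x]
    · linarith [g2 x]

end Pool.Agent.FPX
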