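import Mathlib
import Pool.Agent.FPX.EMZ

/-
EMK (helper30): scheme K of the lead. Near-minimisers of `∫ φ(ν) + κ c` over the pairs `(v, c)`, `c ≥ c₀`,
`v` in the class `e^c W(Λ, E)` with a constant `c`. First variation: at least `-ε`, with the error
`κ d`, `d ≥ e^{-c} - ⟨v, Z⟩`, `d ≥ 0`.
-/

open MeasureTheory Set Filter Topology
open scoped ENNReal NNReal

noncomputable section

namespace Pool.Agent.FPX

open Pool.Agent.EWD

variable {M : Type} [MetricSpace M] {γ : ℝ → M} [CompactSpace M]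

/-- **near-minimisers of `∫ φ(ν) + κ c`** and their first variation -/
theorem emk (C : Calc M γ) (hγ : Bd γ) (hR : RegAE C) {φ φ' : ℝ → ℝ} {s L : ℝ} (P : Pen φ φ' s L)
    {Λ E : ℝ} (hΛ : 0 ≤ Λ) (hE : 0 ≤ E) {κ c₀ : ℝ} (hκ : 0 ≤ κ)
    {U : Fin 3 → M → ℝ} (hU : KY C Λ E U (fun _ => c₀)) (hUJ : ∫ o, jac C U o ∂C.μ = 2 * Real.pi)
    {X : ℝ} (hUX : Ph C φ U < X) (hX : X < 2 * Real.pi) {K : ℝ} (hK : 0 ≤ K) {ε : ℝ} (hε : 0 < ε) :
    ∃ (v : Fin 3 → M → ℝ) (c : ℝ), c₀ ≤ c ∧ KY C Λ E v (fun _ => c) ∧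
      ∫ o, jac C v o ∂C.μ = 2 * Real.pi ∧ Ph C φ v + κ * (c - c₀) < X ∧
      ∀ (Z : Fin 3 → M → ℝ) (d : ℝ), TZ C Λ E K Z → 0 ≤ d →
        (∀ x, Real.exp (-c) - inner ℝ (vv (n := 0) v x) (vv (n := 0) Z x) ≤ d) →
        -ε ≤ ∫ o, φ' (nuC C v o) * dnuC C v Z o ∂C.μ + κ * d := by
  have := C.fin
  have hpi := Real.pi_pos
  have hV : 0 ≤ C.vol := ENNReal.toReal_nonneg
  -- the bound of `∫ |dZ|²`
  set KZ := 2 * E * C.vol with hKZ
  have hKZ0 : 0 ≤ KZ := by positivity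
  have hZ2 : ∀ Z : Fin 3 → M → ℝ, TZ C Λ E K Z → ∫ o, S2 C Z o ∂C.μ ≤ KZ := by
    intro Z hZ
    have h1 : ∀ᵐ o ∂C.μ, S2 C Z o ≤ 2 * E := by
      filter_upwards [hZ.inW] with o ho
      exact ho.s
    refine (integral_mono_ae (S2_int C hZ.lip) (integrable_const (2 * E)) h1).trans (le_of_eq ?_)
    rw [integral_const, smul_eq_mul, mul_comm]
    rfl
  set c1 := (8 + 64 * K + 120 * K ^ 2) * (8 * Real.pi + KZ) with hc1
  set c2 := (L * (8 + 8 * K ^ 2) + s * (4 + 62 * K + 120 * K ^ 2)) * (8 * Real.pi + KZ)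
    + κ * (2 * K ^ 2) with hc2
  have hs := P.s0
  have hL := P.L0
  have n1 : ∀ v : Fin 3 → M → ℝ, 0 ≤ Ph C φ v := fun v =>
    integral_nonneg fun o => (nuv_nonneg _ _ _).trans (P.ge _ (nuv_nonneg _ _ _))
  have hX0 : 0 ≤ X := (n1 U).trans hUX.le
  have p1 : 0 < c1 := by positivity
  have p2 : 0 ≤ c2 := by positivity
  -- the step
  obtain ⟨t, ht0, ht1, htK, htt, ht2⟩ : ∃ t : ℝ, 0 < t ∧ t ≤ 1 ∧ t * K ≤ 1 / 2 ∧
      t * c1 < 2 * Real.pi - X ∧ t * c2 ≤ ε / 2 := by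
    set m := min 1 (min (1 / (2 * (K + 1))) (min ((2 * Real.pi - X) / (2 * c1)) (ε / (2 * (c2 + 1))))) with hm
    have q1 : 0 < 2 * Real.pi - X := by linarith
    have m1 : m ≤ 1 := min_le_left _ _
    have m2 : m ≤ 1 / (2 * (K + 1)) := (min_le_right _ _).trans (min_le_left _ _)
    have m3 : m ≤ (2 * Real.pi - X) / (2 * c1) :=
      ((min_le_right _ _).trans (min_le_right _ _)).trans (min_le_left _ _)
    have m4 : m ≤ ε / (2 * (c2 + 1)) :=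
      ((min_le_right _ _).trans (min_le_right _ _)).trans (min_le_right _ _)
    have m0 : 0 < m := by
      refine lt_min one_pos (lt_min (by positivity) (lt_min (by positivity) (by positivity)))
    refine ⟨m, m0, m1, ?_, ?_, ?_⟩
    · rw [le_div_iff₀ (by positivity)] at m2
      nlinarith
    · rw [le_div_iff₀ (by positivity)] at m3
      nlinarith [mul_pos m0 p1]
    · rw [le_div_iff₀ (by positivity)] at m4
      nlinarith
  -- the near-minimiser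
  set F : Set ℝ := {r | ∃ (v : Fin 3 → M → ℝ) (c : ℝ), c₀ ≤ c ∧ KY C Λ E v (fun _ => c) ∧
    ∫ o, jac C v o ∂C.μ = 2 * Real.pi ∧ Ph C φ v + κ * (c - c₀) = r} with hF
  have hne : F.Nonempty := ⟨_, U, c₀, le_rfl, hU, hUJ, rfl⟩
  have hbd : BddBelow F := ⟨0, by
    rintro r ⟨v, c, hc, hv, -, rfl⟩
    exact add_nonneg (n1 v) (mul_nonneg hκ (by linarith))⟩
  have hpos : 0 < min (t * ε / 2) (X - Ph C φ U) := lt_min (by positivity) (by linarith)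
  obtain ⟨r, ⟨v, c, hc, hv, hvJ, rfl⟩, hr⟩ := Real.lt_sInf_add_pos hne hpos
  have hUm : sInf F ≤ Ph C φ U + κ * (c₀ - c₀) := csInf_le hbd ⟨U, c₀, le_rfl, hU, hUJ, rfl⟩
  have hvX : Ph C φ v + κ * (c - c₀) < X := by
    have := min_le_right (t * ε / 2) (X - Ph C φ U)
    rw [sub_self, mul_zero, add_zero] at hUm
    linarith
  refine ⟨v, c, hc, hv, hvJ, hvX, fun Z d hZ hd0 hd => ?_⟩
  have hκc : 0 ≤ κ * (c - c₀) := mul_nonneg hκ (by linarith)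
  have hvX' : Ph C φ v < X := by linarith
  have hdeg := cpt_deg C hγ hR hv.sph hvJ hZ.lip hZ.odd ht0.le ht1 hK hZ.bd htK
    ((nu_le_Ph C P hv.sph.lip).trans hvX'.le) hX (hZ2 Z hZ) htt
  have hc0 : 0 ≤ c := hv.nonneg (γ 0)
  have hst := hv.step hΛ hE hZ (D := fun _ => d) (lip_const d) (fun _ => rfl) (fun x => hd x)
    (fun x => by linarith) ht0.le ht1 htK
  have hst' : KY C Λ E (cpt t v Z) (fun _ => c + t * d + 2 * K ^ 2 * t ^ 2) := hst
  have q1 : 0 ≤ t * d := mul_nonneg ht0.le hd0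
  have q2 : 0 ≤ 2 * K ^ 2 * t ^ 2 := by positivity
  have h1 : sInf F ≤ Ph C φ (cpt t v Z) + κ * (c + t * d + 2 * K ^ 2 * t ^ 2 - c₀) :=
    csInf_le hbd ⟨_, _, by linarith, hst', hdeg, rfl⟩
  have h2 := Ph_cpt C P hv.sph hZ.lip hZ.odd ht0.le ht1 hZ.bd htK
  have h3 := min_le_left (t * ε / 2) (X - Ph C φ U)
  have h4 := int_S2 C hv.sph
  rw [hvJ] at h4
  have h5 := nu_le_Ph C P hv.sph.lip
  set I := ∫ o, φ' (nuC C v o) * dnuC C v Z o ∂C.μ with hI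
  set A := ∫ o, S2 C v o ∂C.μ + ∫ o, S2 C Z o ∂C.μ with hA
  have k1 : (L * (8 + 8 * K ^ 2) + s * (4 + 62 * K + 120 * K ^ 2)) * A ≤
      (L * (8 + 8 * K ^ 2) + s * (4 + 62 * K + 120 * K ^ 2)) * (8 * Real.pi + KZ) := by
    refine mul_le_mul_of_nonneg_left ?_ (by positivity)
    have := hZ2 Z hZ
    rw [hA]
    linarith
  have h7 : Ph C φ (cpt t v Z) + κ * (c + t * d + 2 * K ^ 2 * t ^ 2 - c₀) ≤
      Ph C φ v + κ * (c - c₀) + t * (I + κ * d) + t ^ 2 * c2 := by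
    have k3 := mul_le_mul_of_nonneg_left k1 (sq_nonneg t)
    have e : t ^ 2 * c2 = t ^ 2 * ((L * (8 + 8 * K ^ 2) + s * (4 + 62 * K + 120 * K ^ 2)) *
      (8 * Real.pi + KZ)) + κ * (2 * K ^ 2 * t ^ 2) := by
      rw [hc2]
      ring
    rw [e]
    linarith
  have h8 : t ^ 2 * c2 ≤ t * (ε / 2) := by
    have : t ^ 2 * c2 = t * (t * c2) := by ring
    rw [this]
    exact mul_le_mul_of_nonneg_left ht2 ht0.le
  have h9 : 0 ≤ t * (I + κ * d + ε) := by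
    have : t * (I + κ * d + ε) = t * (I + κ * d) + t * (ε / 2) + t * ε / 2 := by ring
    rw [this]
    linarith
  have h10 := nonneg_of_mul_nonneg_right h9 ht0
  linarith

end Pool.Agent.FPX
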