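import Mathlib
import Pool.Agent.FPX.MOM

/-
BTH (helper67): spherical coordinates for the uniform measure on the unit sphere, and the sharp
bathtub bound: for a unit vector `v` and `W ⟂ v` the integral of `⟨p, W⟩ / (1 - ⟨v, p⟩)` over a set of
probability `e` is at most `|W| √(e (1 - e))`.
-/

open MeasureTheory Set Filter Topology
open scoped ENNReal NNReal

noncomputable section

namespace Pool.Agent.FPX

open Pool.Agent.EWD

/-- the point with spherical coordinates `t`, `φ` -/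
def sph3 (t φ : ℝ) : E3 := !₂[Real.sin t * Real.cos φ, Real.sin t * Real.sin φ, Real.cos t]

private theorem bth_mp : MeasurePreserving (fun y : E3 => (y 2, ((y 0 : ℝ), (y 1 : ℝ))))
    (volume : Measure E3) (volume : Measure (ℝ × (ℝ × ℝ))) := by
  have h1 : MeasurePreserving (fun y : E3 => y.ofLp) volume volume :=
    PiLp.volume_preserving_ofLp (Fin 3)
  have h2 := volume_preserving_piFinSuccAbove (fun _ : Fin 3 => ℝ) 2
  have h3 := (MeasurePreserving.id (volume : Measure ℝ)).prod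
    (volume_preserving_finTwoArrow ℝ)
  have h4 := h3.comp (h2.comp h1)
  exact h4

private theorem bth_rad : ∫⁻ r in Ioi (0 : ℝ), ENNReal.ofReal (r ^ 2) *
    ENNReal.ofReal (1 / r * Real.exp (-r ^ 2)) = ENNReal.ofReal (1 / 2) := by
  have h := integral_rpow_mul_exp_neg_mul_rpow (p := 2) (q := 1) (b := 1) two_pos (by norm_num) one_pos
  have h2 : ∫ r in Ioi (0 : ℝ), r * Real.exp (-r ^ 2) =
      ∫ x in Ioi (0 : ℝ), x ^ (1 : ℝ) * Real.exp (-1 * x ^ (2 : ℝ)) := by
    refine setIntegral_congr_fun measurableSet_Ioi (fun x _ => ?_)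
    simp
  have hi : IntegrableOn (fun r : ℝ => r * Real.exp (-r ^ 2)) (Ioi 0) := by
    have h3 := integrable_mul_exp_neg_mul_sq one_pos
    refine (h3.integrableOn (s := Ioi 0)).congr_fun (fun x _ => ?_) measurableSet_Ioi
    simp only
    rw [neg_mul, one_mul]
  have h4 : (1 : ℝ) ^ (-(1 + 1 : ℝ) / 2) * (1 / 2) * Real.Gamma ((1 + 1) / 2) = 1 / 2 := by
    norm_num
  rw [h4] at h
  rw [← h, ← h2, ofReal_integral_eq_lintegral_ofReal hi]
  · refine setLIntegral_congr_fun measurableSet_Ioi fun r hr => ?_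
    have hr0 : (0 : ℝ) < r := hr
    rw [← ENNReal.ofReal_mul (by positivity)]
    congr 1
    field_simp
  · filter_upwards [ae_restrict_mem measurableSet_Ioi] with r hr
    have : (0 : ℝ) < r := hr
    simp only [Pi.zero_apply]
    positivity

private theorem sph3_meas : Measurable (fun q : ℝ × ℝ => sph3 q.1 q.2) := by
  have h : Continuous (fun q : ℝ × ℝ => sph3 q.1 q.2) := by
    unfold sph3
    refine (PiLp.continuous_toLp 2 _).comp (continuous_pi fun i => ?_)
    fin_cases i <;> simp <;> fun_prop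
  exact h.measurable

/-- integration in spherical coordinates -/
theorem lint_sph3 {F : E3 → ℝ≥0∞} (hF : Measurable F) :
    ENNReal.ofReal (4 * Real.pi) * ∫⁻ p, F p ∂PP = ∫⁻ t in Ioo 0 Real.pi,
      ∫⁻ φ in Ioo (-Real.pi) Real.pi, ENNReal.ofReal (Real.sin t) * F (sph3 t φ) := by
  have h := lint_polar F hF (fun r => ENNReal.ofReal (1 / r * Real.exp (-r ^ 2))) (by fun_prop)
  rw [bth_rad] at h
  -- the integrand in Cartesian coordinates
  set P : ℝ × (ℝ × ℝ) → E3 := fun z => !₂[z.2.1, z.2.2, z.1] with hP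
  have hPc : Continuous P := by
    refine (PiLp.continuous_toLp 2 _).comp (continuous_pi fun i => ?_)
    fin_cases i <;> simp <;> fun_prop
  set H : ℝ × (ℝ × ℝ) → ℝ≥0∞ := fun z => F ((‖P z‖⁻¹ : ℝ) • P z) *
    ENNReal.ofReal (1 / ‖P z‖ * Real.exp (-‖P z‖ ^ 2)) with hH
  have hHm : Measurable H := by
    refine (hF.comp ?_).mul ?_
    · exact (hPc.measurable.norm.inv).smul hPc.measurable
    · exact ((measurable_const.div hPc.measurable.norm).mul
        (hPc.measurable.norm.pow_const 2).neg.exp).ennreal_ofReal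
  have h1 : ∀ y : E3, F ((‖y‖⁻¹ : ℝ) • y) * ENNReal.ofReal (1 / ‖y‖ * Real.exp (-‖y‖ ^ 2)) =
      H (y 2, (y 0, y 1)) := by
    intro y
    have e : P (y 2, (y 0, y 1)) = y := by
      ext i
      fin_cases i <;> rfl
    simp only [hH, e]
  rw [lintegral_congr h1, bth_mp.lintegral_comp hHm] at h
  -- polar coordinates in the plane of the first two coordinates
  have h2 : ∀ a : ℝ, ∫⁻ b : ℝ × ℝ, H (a, b) = ∫⁻ r in Ioi (0 : ℝ), ∫⁻ φ in Ioo (-Real.pi) Real.pi,
      ENNReal.ofReal r * H (a, (r * Real.cos φ, r * Real.sin φ)) := by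
    intro a
    rw [← lintegral_comp_polarCoord_symm, polarCoord_target, Measure.volume_eq_prod,
      ← Measure.prod_restrict, lintegral_prod]
    · rfl
    · have : Measurable (fun p : ℝ × ℝ => ENNReal.ofReal p.1 • H (a, polarCoord.symm p)) := by
        simp only [polarCoord_symm_apply, smul_eq_mul]
        exact (measurable_fst.ennreal_ofReal).mul (hHm.comp (by fun_prop))
      exact this.aemeasurable
  have hK : Measurable (fun q : (ℝ × ℝ) × ℝ => ENNReal.ofReal q.1.2 *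
      H (q.1.1, (q.1.2 * Real.cos q.2, q.1.2 * Real.sin q.2))) :=
    ((measurable_snd.comp measurable_fst).ennreal_ofReal).mul (hHm.comp (by fun_prop))
  set K : ℝ × ℝ → ℝ≥0∞ := fun q => (Ioi (0 : ℝ)).indicator (fun r => ∫⁻ φ in Ioo (-Real.pi) Real.pi,
      ENNReal.ofReal r * H (q.1, (r * Real.cos φ, r * Real.sin φ))) q.2 with hKd
  have hK2 : Measurable (fun q : ℝ × ℝ => ∫⁻ φ in Ioo (-Real.pi) Real.pi,
      ENNReal.ofReal q.2 * H (q.1, (q.2 * Real.cos φ, q.2 * Real.sin φ))) := by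
    exact hK.lintegral_prod_right'
  have hKm : Measurable K := by
    have e : K = (univ ×ˢ Ioi (0 : ℝ)).indicator (fun q : ℝ × ℝ => ∫⁻ φ in Ioo (-Real.pi) Real.pi,
      ENNReal.ofReal q.2 * H (q.1, (q.2 * Real.cos φ, q.2 * Real.sin φ))) := by
      funext q
      simp only [hKd, indicator, mem_prod, mem_univ, true_and]
    rw [e]
    exact hK2.indicator (MeasurableSet.univ.prod measurableSet_Ioi)
  have h3 : ∫⁻ z : ℝ × (ℝ × ℝ), H z = ∫⁻ q : ℝ × ℝ, K q := by
    rw [Measure.volume_eq_prod, lintegral_prod _ hHm.aemeasurable, Measure.volume_eq_prod,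
      lintegral_prod _ hKm.aemeasurable]
    refine lintegral_congr fun a => ?_
    refine (h2 a).trans ?_
    simp only [hKd]
    rw [lintegral_indicator measurableSet_Ioi]
  rw [h3, ← lintegral_comp_polarCoord_symm, polarCoord_target] at h
  have h4 : ∀ q ∈ Ioi (0 : ℝ) ×ˢ Ioo (-Real.pi) Real.pi, ENNReal.ofReal q.1 • K (polarCoord.symm q) =
      (ENNReal.ofReal (q.1 ^ 2) * ENNReal.ofReal (1 / q.1 * Real.exp (-q.1 ^ 2))) *
        (Ioo 0 Real.pi).indicator (fun t => ∫⁻ φ in Ioo (-Real.pi) Real.pi,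
          ENNReal.ofReal (Real.sin t) * F (sph3 t φ)) q.2 := by
    rintro ⟨R, t⟩ ⟨hR, ht⟩
    have hR0 : (0 : ℝ) < R := hR
    have ht1 : -Real.pi < t := ht.1
    have ht2 : t < Real.pi := ht.2
    rw [polarCoord_symm_apply]
    simp only [hKd, smul_eq_mul]
    by_cases h0 : 0 < t
    · have hs : 0 < Real.sin t := Real.sin_pos_of_pos_of_lt_pi h0 ht2
      rw [indicator_of_mem (show R * Real.sin t ∈ Ioi (0 : ℝ) from mul_pos hR0 hs),
        indicator_of_mem (show t ∈ Ioo 0 Real.pi from ⟨h0, ht2⟩)]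
      rw [← lintegral_const_mul' _ _ ENNReal.ofReal_ne_top,
        ← lintegral_const_mul' _ _ (ENNReal.mul_ne_top ENNReal.ofReal_ne_top ENNReal.ofReal_ne_top)]
      refine lintegral_congr fun φ => ?_
      have e1 : P (R * Real.cos t, (R * Real.sin t * Real.cos φ, R * Real.sin t * Real.sin φ)) =
          R • sph3 t φ := by
        ext i
        fin_cases i
        · change R * Real.sin t * Real.cos φ = R * (Real.sin t * Real.cos φ)
          ring
        · change R * Real.sin t * Real.sin φ = R * (Real.sin t * Real.sin φ)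
          ring
        · rfl
      have e2 : ‖sph3 t φ‖ = 1 := by
        have h5 : ‖sph3 t φ‖ ^ 2 = 1 := by
          rw [normsq3]
          change (Real.sin t * Real.cos φ) ^ 2 + (Real.sin t * Real.sin φ) ^ 2 + Real.cos t ^ 2 = 1
          have h6 := Real.sin_sq_add_cos_sq t
          have h7 := Real.sin_sq_add_cos_sq φ
          linear_combination h6 + Real.sin t ^ 2 * h7
        nlinarith [norm_nonneg (sph3 t φ)]
      have e3 : ‖R • sph3 t φ‖ = R := by
        rw [norm_smul, e2, mul_one, Real.norm_eq_abs, abs_of_pos hR0]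
      simp only [hH]
      rw [e1, e3, smul_smul, inv_mul_cancel₀ hR0.ne', one_smul, ENNReal.ofReal_mul hR0.le,
        pow_two R, ENNReal.ofReal_mul hR0.le]
      ring
    · have hs : Real.sin t ≤ 0 := Real.sin_nonpos_of_nonpos_of_neg_pi_le (not_lt.1 h0) ht1.le
      rw [indicator_of_notMem (show R * Real.sin t ∉ Ioi (0 : ℝ) from
          fun h => absurd h (not_lt.2 (mul_nonpos_of_nonneg_of_nonpos hR0.le hs))),
        indicator_of_notMem (show t ∉ Ioo 0 Real.pi from fun h => h0 h.1), mul_zero, mul_zero]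
  have hS : Measurable (fun t : ℝ => ∫⁻ φ in Ioo (-Real.pi) Real.pi,
      ENNReal.ofReal (Real.sin t) * F (sph3 t φ)) := by
    have h5 : Measurable (fun q : ℝ × ℝ => ENNReal.ofReal (Real.sin q.1) * F (sph3 q.1 q.2)) :=
      (by fun_prop : Measurable fun q : ℝ × ℝ => ENNReal.ofReal (Real.sin q.1)).mul
        (hF.comp sph3_meas)
    exact h5.lintegral_prod_right'
  rw [setLIntegral_congr_fun (measurableSet_Ioi.prod measurableSet_Ioo) h4,
    Measure.volume_eq_prod, ← Measure.prod_restrict,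
    lintegral_prod_mul (f := fun r : ℝ => ENNReal.ofReal (r ^ 2) *
      ENNReal.ofReal (1 / r * Real.exp (-r ^ 2))) (by fun_prop)
      (hS.indicator measurableSet_Ioo).aemeasurable, bth_rad,
    lintegral_indicator measurableSet_Ioo, Measure.restrict_restrict measurableSet_Ioo] at h
  have h6 : Ioo 0 Real.pi ∩ Ioo (-Real.pi) Real.pi = Ioo 0 Real.pi := by
    refine inter_eq_left.2 (Ioo_subset_Ioo_left ?_)
    linarith [Real.pi_pos]
  rw [h6, mul_comm (ENNReal.ofReal (1 / 2))] at h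
  exact ((ENNReal.mul_left_inj (by simp) ENNReal.ofReal_ne_top).1 h).symm

/-! ### the azimuthal integral -/

private def BA (α β ψ : ℝ) : ℝ := α * Real.cos ψ ^ 2 + β * Real.sin ψ ^ 2

private theorem BA_pos {α β : ℝ} (hα : 0 < α) (hβ : 0 < β) (ψ : ℝ) : 0 < BA α β ψ := by
  unfold BA
  have h := Real.sin_sq_add_cos_sq ψ
  rcases eq_or_ne (Real.cos ψ) 0 with h1 | h1
  · rw [h1] at h ⊢
    have : Real.sin ψ ^ 2 = 1 := by linarith
    rw [this]
    linarith
  · have h2 : 0 < Real.cos ψ ^ 2 := by positivity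
    have h3 : 0 ≤ Real.sin ψ ^ 2 := sq_nonneg _
    nlinarith [mul_pos hα h2, mul_nonneg hβ.le h3]

private theorem brad_lin {a : ℝ} (ha : 0 < a) :
    ∫⁻ r in Ioi (0 : ℝ), ENNReal.ofReal (r * Real.exp (-(a * r ^ 2))) = ENNReal.ofReal (1 / (2 * a)) := by
  have h := integral_rpow_mul_exp_neg_mul_rpow (p := 2) (q := 1) (b := a) two_pos (by norm_num) ha
  have h2 : ∫ r in Ioi (0 : ℝ), r * Real.exp (-(a * r ^ 2)) =
      ∫ x in Ioi (0 : ℝ), x ^ (1 : ℝ) * Real.exp (-a * x ^ (2 : ℝ)) := by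
    refine setIntegral_congr_fun measurableSet_Ioi (fun x _ => ?_)
    simp
  have hi : IntegrableOn (fun r : ℝ => r * Real.exp (-(a * r ^ 2))) (Ioi 0) := by
    have h3 := integrable_mul_exp_neg_mul_sq ha
    refine (h3.integrableOn (s := Ioi 0)).congr_fun (fun x _ => ?_) measurableSet_Ioi
    simp only
    rw [neg_mul]
  have h4 : a ^ (-(1 + 1 : ℝ) / 2) * (1 / 2) * Real.Gamma ((1 + 1) / 2) = 1 / (2 * a) := by
    norm_num
    rw [Real.rpow_neg_one]
  rw [h4] at h
  rw [← h, ← h2, ofReal_integral_eq_lintegral_ofReal hi]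
  filter_upwards [ae_restrict_mem measurableSet_Ioi] with r hr
  have : (0 : ℝ) < r := hr
  simp only [Pi.zero_apply]
  positivity

private theorem bazi {α β : ℝ} (hα : 0 < α) (hβ : 0 < β) :
    ∫⁻ ψ in Ioo (-Real.pi) Real.pi, ENNReal.ofReal (1 / BA α β ψ) =
      ENNReal.ofReal (2 * Real.pi / √(α * β)) := by
  -- the Gaussian integral in two ways
  have h1 : ∫⁻ p : ℝ × ℝ, ENNReal.ofReal (Real.exp (-(α * p.1 ^ 2 + β * p.2 ^ 2))) =
      ENNReal.ofReal (Real.pi / √(α * β)) := by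
    have e : ∀ p : ℝ × ℝ, ENNReal.ofReal (Real.exp (-(α * p.1 ^ 2 + β * p.2 ^ 2))) =
        ENNReal.ofReal (Real.exp (-α * p.1 ^ 2)) * ENNReal.ofReal (Real.exp (-β * p.2 ^ 2)) := by
      intro p
      rw [← ENNReal.ofReal_mul (Real.exp_pos _).le, ← Real.exp_add]
      congr 2
      ring
    have g : ∀ c : ℝ, 0 < c → ∫⁻ t : ℝ, ENNReal.ofReal (Real.exp (-c * t ^ 2)) =
        ENNReal.ofReal (√(Real.pi / c)) := by
      intro c hc
      rw [← ofReal_integral_eq_lintegral_ofReal (integrable_exp_neg_mul_sq hc)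
        (Eventually.of_forall fun t => (Real.exp_pos _).le), integral_gaussian]
    rw [lintegral_congr e, Measure.volume_eq_prod,
      lintegral_prod_mul (f := fun z : ℝ => ENNReal.ofReal (Real.exp (-α * z ^ 2)))
      (g := fun z : ℝ => ENNReal.ofReal (Real.exp (-β * z ^ 2))) (by fun_prop) (by fun_prop),
      g α hα, g β hβ, ← ENNReal.ofReal_mul (Real.sqrt_nonneg _), ← Real.sqrt_mul (by positivity)]
    congr 1
    rw [div_mul_div_comm, Real.sqrt_div (by positivity), Real.sqrt_mul_self Real.pi_pos.le]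
  rw [← lintegral_comp_polarCoord_symm] at h1
  have h2 : ∀ p ∈ polarCoord.target, ENNReal.ofReal p.1 • ENNReal.ofReal
      (Real.exp (-(α * (polarCoord.symm p).1 ^ 2 + β * (polarCoord.symm p).2 ^ 2))) =
      ENNReal.ofReal (p.1 * Real.exp (-(BA α β p.2 * p.1 ^ 2))) := by
    intro p hp
    rw [polarCoord_target] at hp
    have hr : 0 < p.1 := hp.1
    rw [smul_eq_mul, ← ENNReal.ofReal_mul hr.le, polarCoord_symm_apply]
    simp only
    unfold BA
    congr 3
    ring
  rw [setLIntegral_congr_fun polarCoord.open_target.measurableSet h2, polarCoord_target,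
    Measure.volume_eq_prod, ← Measure.prod_restrict, lintegral_prod_symm _ (by
      unfold BA
      fun_prop)] at h1
  have h3 : ∀ ψ : ℝ, ∫⁻ r in Ioi (0 : ℝ), ENNReal.ofReal (r * Real.exp (-(BA α β ψ * r ^ 2))) =
      ENNReal.ofReal (1 / 2) * ENNReal.ofReal (1 / BA α β ψ) := by
    intro ψ
    rw [brad_lin (BA_pos hα hβ ψ), ← ENNReal.ofReal_mul (by norm_num)]
    congr 1
    field_simp
  rw [lintegral_congr h3, lintegral_const_mul _ (by
    unfold BA
    fun_prop)] at h1
  have h4 : ENNReal.ofReal (1 / 2) * ENNReal.ofReal (2 * Real.pi / √(α * β)) =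
      ENNReal.ofReal (Real.pi / √(α * β)) := by
    rw [← ENNReal.ofReal_mul (by norm_num)]
    congr 1
    ring
  rw [← h4] at h1
  exact (ENNReal.mul_right_inj (by simp) ENNReal.ofReal_ne_top).1 h1

/-- the azimuthal integral of `1 / (A - B cos φ)` -/
theorem azi_cos {A B : ℝ} (h : |B| < A) :
    ∫⁻ φ in Ioo (-Real.pi) Real.pi, ENNReal.ofReal (1 / (A - B * Real.cos φ)) =
      ENNReal.ofReal (2 * Real.pi / √(A ^ 2 - B ^ 2)) := by
  obtain ⟨h1, h2⟩ := abs_lt.1 h
  have hα : 0 < A - B := by linarith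
  have hβ : 0 < A + B := by linarith
  have hpi := Real.pi_pos
  set f : ℝ → ℝ := fun φ => 1 / (A - B * Real.cos φ) with hf
  have hpos : ∀ φ, 0 < A - B * Real.cos φ := by
    intro φ
    have h3 := Real.neg_one_le_cos φ
    have h4 := Real.cos_le_one φ
    rcases le_total 0 B with h5 | h5 <;> nlinarith
  have hfc : Continuous f := by
    simp only [hf]
    exact continuous_const.div (by fun_prop) fun φ => (hpos φ).ne'
  have e1 : ∀ ψ, f (2 * ψ) = 1 / BA (A - B) (A + B) ψ := by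
    intro ψ
    simp only [hf]
    unfold BA
    congr 1
    rw [Real.cos_two_mul]
    have h6 := Real.sin_sq_add_cos_sq ψ
    linear_combination (-A - B) * h6
  have hl : ∀ g : ℝ → ℝ, Continuous g → (∀ x, 0 ≤ g x) →
      ∫⁻ φ in Ioo (-Real.pi) Real.pi, ENNReal.ofReal (g φ) =
        ENNReal.ofReal (∫ φ in (-Real.pi)..Real.pi, g φ) := by
    intro g hg g0
    rw [intervalIntegral.integral_of_le (by linarith), ← restrict_Ioo_eq_restrict_Ioc,
      ofReal_integral_eq_lintegral_ofReal]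
    · exact (hg.integrableOn_Icc).mono_set Ioo_subset_Icc_self
    · exact Eventually.of_forall g0
  have hper : Function.Periodic f (2 * Real.pi) := by
    intro φ
    simp only [hf]
    rw [Real.cos_add_two_pi]
  have e2 : ∫ ψ in (-Real.pi)..Real.pi, f (2 * ψ) = ∫ φ in (-Real.pi)..Real.pi, f φ := by
    rw [intervalIntegral.integral_comp_mul_left _ two_ne_zero]
    have e3 : ∫ φ in (2 * -Real.pi)..(2 * Real.pi), f φ = 2 * ∫ φ in (-Real.pi)..Real.pi, f φ := by
      rw [← intervalIntegral.integral_add_adjacent_intervals (b := 0)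
        (hfc.intervalIntegrable _ _) (hfc.intervalIntegrable _ _)]
      have e4 := hper.intervalIntegral_add_eq (2 * -Real.pi) (-Real.pi)
      have e5 := hper.intervalIntegral_add_eq 0 (-Real.pi)
      rw [show 2 * -Real.pi + 2 * Real.pi = 0 by ring,
        show -Real.pi + 2 * Real.pi = Real.pi by ring] at e4
      rw [zero_add, show -Real.pi + 2 * Real.pi = Real.pi by ring] at e5
      rw [e4, e5]
      ring
    rw [e3, smul_eq_mul]
    ring
  have h7 := hl f hfc fun x => (one_div_pos.2 (hpos x)).le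
  have h8 := hl (fun ψ => f (2 * ψ)) (by fun_prop) fun x => (one_div_pos.2 (hpos _)).le
  rw [h7, ← e2, ← h8]
  simp_rw [e1]
  rw [bazi hα hβ]
  congr 3
  ring

/-! ### the bathtub bound -/

private theorem inner_sph3 (κ μ t φ : ℝ) : 1 - (κ * (sph3 t φ) 0 + μ * (sph3 t φ) 2) =
    (1 - μ * Real.cos t) - (κ * Real.sin t) * Real.cos φ := by
  change 1 - (κ * (Real.sin t * Real.cos φ) + μ * Real.cos t) = _
  ring

private theorem cap_azi {κ μ t : ℝ} (hκ : κ ^ 2 = 1 - μ ^ 2) (ht : μ < Real.cos t) (hμ : |μ| < 1) :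
    ∫⁻ φ in Ioo (-Real.pi) Real.pi, ENNReal.ofReal (Real.sin t) *
      ENNReal.ofReal (max 0 ((sph3 t φ) 2 - μ) / (1 - (κ * (sph3 t φ) 0 + μ * (sph3 t φ) 2))) =
      ENNReal.ofReal (Real.sin t) * ENNReal.ofReal (2 * Real.pi) := by
  have hs : (1 - μ * Real.cos t) ^ 2 - (κ * Real.sin t) ^ 2 = (Real.cos t - μ) ^ 2 := by
    rw [mul_pow, hκ]
    have h6 := Real.sin_sq_add_cos_sq t
    linear_combination (μ ^ 2 - 1) * h6
  have hd : 0 < Real.cos t - μ := by linarith
  have hA : 0 < 1 - μ * Real.cos t := by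
    obtain ⟨h1, h2⟩ := abs_lt.1 hμ
    have h3 := Real.neg_one_le_cos t
    have h4 := Real.cos_le_one t
    rcases le_total 0 μ with h5 | h5 <;> nlinarith
  have hAB : |κ * Real.sin t| < 1 - μ * Real.cos t := by
    refine abs_lt_of_sq_lt_sq ?_ hA.le
    nlinarith
  rw [lintegral_const_mul' _ _ ENNReal.ofReal_ne_top]
  congr 1
  have e : ∀ φ, ENNReal.ofReal (max 0 ((sph3 t φ) 2 - μ) /
      (1 - (κ * (sph3 t φ) 0 + μ * (sph3 t φ) 2))) = ENNReal.ofReal (Real.cos t - μ) *
      ENNReal.ofReal (1 / ((1 - μ * Real.cos t) - (κ * Real.sin t) * Real.cos φ)) := by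
    intro φ
    rw [inner_sph3, ← ENNReal.ofReal_mul hd.le, mul_one_div]
    change ENNReal.ofReal (max 0 (Real.cos t - μ) / _) = _
    rw [max_eq_right hd.le]
  rw [lintegral_congr e, lintegral_const_mul' _ _ ENNReal.ofReal_ne_top, azi_cos hAB, hs,
    Real.sqrt_sq hd.le, ← ENNReal.ofReal_mul hd.le]
  congr 1
  field_simp

theorem lint_cap {c v : E3} (hc : ‖c‖ = 1) (hv : ‖v‖ = 1) {μ : ℝ} (hm : inner ℝ v c = μ) (hμ : |μ| < 1) :
    ∫⁻ p, ENNReal.ofReal (max 0 (inner ℝ c p - μ) / (1 - inner ℝ v p)) ∂PP =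
      ENNReal.ofReal ((1 - μ) / 2) := by
  obtain ⟨hμ1, hμ2⟩ := abs_lt.1 hμ
  have hpi := Real.pi_pos
  have h1 : 0 < 1 - μ ^ 2 := by nlinarith
  set κ : ℝ := √(1 - μ ^ 2) with hκ
  have hκ0 : 0 < κ := Real.sqrt_pos.2 h1
  have hκ2 : κ ^ 2 = 1 - μ ^ 2 := Real.sq_sqrt h1.le
  have hcc : inner ℝ c c = (1 : ℝ) := by rw [real_inner_self_eq_norm_sq, hc, one_pow]
  have hvv : inner ℝ v v = (1 : ℝ) := by rw [real_inner_self_eq_norm_sq, hv, one_pow]
  have hcv : inner ℝ c v = μ := by rw [real_inner_comm, hm]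
  set m : E3 := (κ⁻¹ : ℝ) • (v - μ • c) with hmd
  have hvm : v = κ • m + μ • c := by
    rw [hmd, smul_smul, mul_inv_cancel₀ hκ0.ne', one_smul, sub_add_cancel]
  have hmm : inner ℝ m m = (1 : ℝ) := by
    rw [hmd, inner_smul_left, inner_smul_right, inner_sub_left, inner_sub_right, inner_sub_right,
      inner_smul_left, inner_smul_right, inner_smul_left, inner_smul_right, hvv, hcc, hcv, hm]
    simp only [conj_trivial]
    rw [show (1 : ℝ) - μ * μ - (μ * μ - μ * (μ * 1)) = κ ^ 2 by rw [hκ2]; ring]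
    field_simp
  have hm1 : ‖m‖ = 1 := by
    have h2 : ‖m‖ ^ 2 = 1 := by rw [← real_inner_self_eq_norm_sq, hmm]
    nlinarith [norm_nonneg m]
  have hmc : inner ℝ m c = (0 : ℝ) := by
    rw [hmd, inner_smul_left, inner_sub_left, inner_smul_left, hcc, hm]
    simp only [conj_trivial]
    ring
  have hcm : inner ℝ c m = (0 : ℝ) := by rw [real_inner_comm, hmc]
  have hn1 : ‖crs c m‖ = 1 := norm_crs_one hcc hmm hcm
  obtain ⟨R, hR⟩ := frame_iso hm1 hn1 hc (inner_crs_right c m) hmc (by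
    rw [real_inner_comm]; exact inner_crs_left c m)
  set F : E3 → ℝ≥0∞ := fun p => ENNReal.ofReal (max 0 (p 2 - μ) / (1 - (κ * p 0 + μ * p 2))) with hF
  have hFm : Measurable F := by
    simp only [hF]
    fun_prop
  have e1 : ∀ p, ENNReal.ofReal (max 0 (inner ℝ c p - μ) / (1 - inner ℝ v p)) = F (R p) := by
    intro p
    simp only [hF]
    rw [(hR p).1, (hR p).2.2]
    have e2 : (inner ℝ v p : ℝ) = κ * inner ℝ m p + μ * inner ℝ c p := by
      conv_lhs => rw [hvm]
      rw [inner_add_left, inner_smul_left m p κ, inner_smul_left c p μ]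
      simp only [conj_trivial]
    rw [e2]
  rw [lintegral_congr e1, (mp_rot R).lintegral_comp hFm]
  have h2 := lint_sph3 hFm
  have h3 : ∀ t ∈ Ioo 0 Real.pi, ∫⁻ φ in Ioo (-Real.pi) Real.pi, ENNReal.ofReal (Real.sin t) *
      F (sph3 t φ) = (Iio (Real.arccos μ)).indicator
        (fun t => ENNReal.ofReal (Real.sin t * (2 * Real.pi))) t := by
    intro t ht
    have hs : 0 < Real.sin t := Real.sin_pos_of_pos_of_lt_pi ht.1 ht.2
    have ha : Real.arccos μ ∈ Icc 0 Real.pi := ⟨Real.arccos_nonneg _, Real.arccos_le_pi _⟩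
    have hac : Real.cos (Real.arccos μ) = μ := Real.cos_arccos hμ1.le hμ2.le
    by_cases h4 : t < Real.arccos μ
    · rw [indicator_of_mem (show t ∈ Iio (Real.arccos μ) from h4)]
      have h5 := Real.strictAntiOn_cos ⟨ht.1.le, ht.2.le⟩ ha h4
      rw [hac] at h5
      rw [cap_azi hκ2 h5 hμ, ENNReal.ofReal_mul hs.le]
    · rw [indicator_of_notMem (show t ∉ Iio (Real.arccos μ) from h4)]
      have h5 := Real.strictAntiOn_cos.antitoneOn ha ⟨ht.1.le, ht.2.le⟩ (not_lt.1 h4)
      rw [hac] at h5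
      have h6 : ∀ φ, ENNReal.ofReal (Real.sin t) * F (sph3 t φ) = 0 := by
        intro φ
        simp only [hF]
        change _ * ENNReal.ofReal (max 0 (Real.cos t - μ) / _) = 0
        rw [max_eq_left (by linarith), zero_div, ENNReal.ofReal_zero, mul_zero]
      rw [lintegral_congr h6, lintegral_zero]
  rw [setLIntegral_congr_fun measurableSet_Ioo h3, lintegral_indicator measurableSet_Iio,
    Measure.restrict_restrict measurableSet_Iio] at h2
  have ha0 : 0 ≤ Real.arccos μ := Real.arccos_nonneg _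
  have ha1 : Real.arccos μ ≤ Real.pi := Real.arccos_le_pi _
  have h4 : Iio (Real.arccos μ) ∩ Ioo 0 Real.pi = Ioo 0 (Real.arccos μ) := by
    ext t
    simp only [mem_inter_iff, mem_Iio, mem_Ioo]
    constructor
    · rintro ⟨h5, h6, h7⟩
      exact ⟨h6, h5⟩
    · rintro ⟨h5, h6⟩
      exact ⟨h6, h5, by linarith⟩
  have h5 : ∫⁻ t in Ioo 0 (Real.arccos μ), ENNReal.ofReal (Real.sin t * (2 * Real.pi)) =
      ENNReal.ofReal ((1 - μ) * (2 * Real.pi)) := by
    have h6 : ∫ t in (0 : ℝ)..(Real.arccos μ), Real.sin t * (2 * Real.pi) =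
        (1 - μ) * (2 * Real.pi) := by
      rw [intervalIntegral.integral_mul_const, integral_sin, Real.cos_zero,
        Real.cos_arccos hμ1.le hμ2.le]
    rw [← h6, intervalIntegral.integral_of_le ha0, ← restrict_Ioo_eq_restrict_Ioc,
      ofReal_integral_eq_lintegral_ofReal]
    · refine ((by fun_prop : Continuous fun t : ℝ => Real.sin t * (2 * Real.pi)).integrableOn_Icc
        (a := 0) (b := Real.arccos μ)).mono_set Ioo_subset_Icc_self
    · filter_upwards [ae_restrict_mem measurableSet_Ioo] with t ht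
      have hs : 0 ≤ Real.sin t := Real.sin_nonneg_of_nonneg_of_le_pi ht.1.le (by linarith [ht.2])
      exact mul_nonneg hs (by positivity)
  rw [h4, h5, show (1 - μ) * (2 * Real.pi) = (4 * Real.pi) * ((1 - μ) / 2) by ring,
    ENNReal.ofReal_mul (p := 4 * Real.pi) (q := (1 - μ) / 2) (by positivity)] at h2
  exact (ENNReal.mul_right_inj (a := ENNReal.ofReal (4 * Real.pi)) (by
    rw [Ne, ENNReal.ofReal_eq_zero, not_le]; positivity) ENNReal.ofReal_ne_top).1 h2

/-- the kernel is integrable -/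
theorem bth_abs {v W p : E3} (hv : ‖v‖ = 1) (hp : ‖p‖ = 1) (hW : inner ℝ v W = (0 : ℝ))
    (hq : 0 < sq2 v p) : 0 < 1 - (inner ℝ v p : ℝ) ∧ 0 < 1 + (inner ℝ v p : ℝ) ∧
      |inner ℝ p W / (1 - inner ℝ v p)| ≤ 2 * ‖W‖ * (1 / √(sq2 v p)) := by
  have hu : |(inner ℝ v p : ℝ)| < 1 := by
    rw [← sq_lt_one_iff_abs_lt_one]
    unfold sq2 at hq
    linarith
  obtain ⟨h1, h2⟩ := abs_lt.1 hu
  have h3 : 0 < 1 - (inner ℝ v p : ℝ) := by linarith
  have h4 : 0 < 1 + (inner ℝ v p : ℝ) := by linarith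
  refine ⟨h3, h4, ?_⟩
  have hs : 0 < √(sq2 v p) := Real.sqrt_pos.2 hq
  -- `⟨p, W⟩² ≤ s² |W|²`
  have h5 : (inner ℝ p W : ℝ) ^ 2 ≤ sq2 v p * ‖W‖ ^ 2 := by
    have e : inner ℝ p W = inner ℝ (p - (inner ℝ v p : ℝ) • v) W := by
      rw [inner_sub_left, inner_smul_left, hW]
      simp
    have e2 : ‖p - (inner ℝ v p : ℝ) • v‖ ^ 2 = sq2 v p := by
      rw [@norm_sub_sq_real, inner_smul_right, norm_smul, hv, hp, real_inner_comm v p]
      unfold sq2
      rw [Real.norm_eq_abs, mul_one, sq_abs]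
      ring
    rw [e, ← e2, ← mul_pow, ← sq_abs]
    exact pow_le_pow_left₀ (abs_nonneg _) (abs_real_inner_le_norm _ _) 2
  have h6 : |(inner ℝ p W : ℝ)| ≤ √(sq2 v p) * ‖W‖ := by
    refine abs_le_of_sq_le_sq ?_ (by positivity)
    rw [mul_pow, Real.sq_sqrt hq.le]
    exact h5
  rw [abs_div, abs_of_pos h3, div_le_iff₀ h3]
  have h7 : √(sq2 v p) * √(sq2 v p) = (1 - inner ℝ v p) * (1 + inner ℝ v p) := by
    rw [Real.mul_self_sqrt hq.le]
    unfold sq2
    ring
  have h8 : √(sq2 v p) ≤ 2 * (1 / √(sq2 v p)) * (1 - inner ℝ v p) := by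
    rw [mul_assoc, one_div, inv_mul_eq_div, mul_div_assoc', le_div_iff₀ hs, h7]
    nlinarith
  calc |(inner ℝ p W : ℝ)| ≤ √(sq2 v p) * ‖W‖ := h6
    _ ≤ (2 * (1 / √(sq2 v p)) * (1 - inner ℝ v p)) * ‖W‖ :=
        mul_le_mul_of_nonneg_right h8 (norm_nonneg _)
    _ = _ := by ring

theorem bth_int {v W : E3} (hv : ‖v‖ = 1) (hW : inner ℝ v W = (0 : ℝ)) :
    Integrable (fun p => inner ℝ p W / (1 - inner ℝ v p)) PP := by
  refine ((int_inv hv).1.const_mul (2 * ‖W‖)).mono' ?_ ?_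
  · exact (by fun_prop : Measurable fun p : E3 => inner ℝ p W / (1 - inner ℝ v p)).aestronglyMeasurable
  · filter_upwards [ae_norm, ae_sq2 v hv] with p hp hq
    rw [Real.norm_eq_abs]
    exact (bth_abs hv hp hW hq).2.2

theorem bath_lam {v W : E3} (hv : ‖v‖ = 1) (hW : inner ℝ v W = (0 : ℝ)) (h0 : W ≠ 0) {E : Set E3}
    (l : ℝ) : ∫ p in E, inner ℝ p W / (1 - inner ℝ v p) ∂PP ≤
      l * PP.real E + (√(‖W‖ ^ 2 + l ^ 2) - l) / 2 := by
  have hw : 0 < ‖W‖ := norm_pos_iff.2 h0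
  set ρ : ℝ := √(‖W‖ ^ 2 + l ^ 2) with hρ
  have hρ0 : 0 < ρ := Real.sqrt_pos.2 (by positivity)
  have hρ2 : ρ ^ 2 = ‖W‖ ^ 2 + l ^ 2 := Real.sq_sqrt (by positivity)
  set c : E3 := (ρ⁻¹ : ℝ) • (W + l • v) with hcd
  have hvv : inner ℝ v v = (1 : ℝ) := by rw [real_inner_self_eq_norm_sq, hv, one_pow]
  have hc1 : ‖c‖ = 1 := by
    have h2 : ‖c‖ ^ 2 = 1 := by
      rw [hcd, norm_smul, mul_pow, @norm_add_sq_real, inner_smul_right, real_inner_comm, hW, norm_smul,
        hv, Real.norm_eq_abs, Real.norm_eq_abs, sq_abs, mul_one, sq_abs]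
      rw [show ‖W‖ ^ 2 + 2 * (l * 0) + l ^ 2 = ρ ^ 2 by rw [hρ2]; ring]
      field_simp
    nlinarith [norm_nonneg c]
  have hvc : inner ℝ v c = l / ρ := by
    rw [hcd, inner_smul_right, inner_add_right, inner_smul_right, hW, hvv]
    field_simp
    ring
  have hμ : |l / ρ| < 1 := by
    rw [abs_div, abs_of_pos hρ0, div_lt_one hρ0]
    refine abs_lt_of_sq_lt_sq ?_ hρ0.le
    nlinarith
  have hcap := lint_cap hc1 hv hvc hμ
  set X : E3 → ℝ := fun p => max 0 (inner ℝ c p - l / ρ) / (1 - inner ℝ v p) with hX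
  have hXm : Measurable X := by
    simp only [hX]
    fun_prop
  have hX0 : 0 ≤ᵐ[PP] X := by
    filter_upwards [ae_norm, ae_sq2 v hv] with p hp hq
    exact div_nonneg (le_max_left _ _) (bth_abs hv hp hW hq).1.le
  have h1m : 0 ≤ (1 - l / ρ) / 2 := by
    obtain ⟨h1, h2⟩ := abs_lt.1 hμ
    linarith
  have hXi : Integrable X PP := by
    refine ⟨hXm.aestronglyMeasurable, ?_⟩
    rw [hasFiniteIntegral_iff_ofReal hX0, hcap]
    exact ENNReal.ofReal_lt_top
  have hXv : ∫ p, X p ∂PP = (1 - l / ρ) / 2 := by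
    rw [integral_eq_lintegral_of_nonneg_ae hX0 hXm.aestronglyMeasurable, hcap,
      ENNReal.toReal_ofReal h1m]
  have hK := bth_int hv hW
  have h1 : ∀ᵐ p ∂PP, inner ℝ p W / (1 - inner ℝ v p) - l ≤ ρ * X p := by
    filter_upwards [ae_norm, ae_sq2 v hv] with p hp hq
    have hd := (bth_abs hv hp hW hq).1
    simp only [hX]
    rw [← mul_div_assoc, sub_le_iff_le_add, div_le_iff₀ hd, add_mul, div_mul_cancel₀ _ hd.ne']
    have h2 : ρ * (inner ℝ c p - l / ρ) ≤ ρ * max 0 (inner ℝ c p - l / ρ) :=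
      mul_le_mul_of_nonneg_left (le_max_right _ _) hρ0.le
    have h3 : ρ * (inner ℝ c p - l / ρ) = inner ℝ p W - l * (1 - inner ℝ v p) := by
      rw [hcd, inner_smul_left, inner_add_left, inner_smul_left, real_inner_comm p W]
      simp only [conj_trivial]
      field_simp
      ring
    linarith
  have h2 : ∫ p in E, (inner ℝ p W / (1 - inner ℝ v p) - l) ∂PP ≤ ∫ p in E, ρ * X p ∂PP :=
    integral_mono_ae (hK.sub (integrable_const l)).integrableOn (hXi.const_mul ρ).integrableOn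
      (ae_restrict_of_ae h1)
  have h3 : ∫ p in E, ρ * X p ∂PP ≤ ∫ p, ρ * X p ∂PP := by
    refine setIntegral_le_integral (hXi.const_mul ρ) ?_
    filter_upwards [hX0] with p hp
    exact mul_nonneg hρ0.le hp
  have h5 : (PP.restrict E).real univ = PP.real E := by
    rw [measureReal_def, Measure.restrict_apply_univ, measureReal_def]
  rw [integral_sub hK.integrableOn (integrable_const l), integral_const, smul_eq_mul, h5] at h2
  rw [(by rw [integral_const_mul, hXv] : ∫ p, ρ * X p ∂PP = ρ * ((1 - l / ρ) / 2))] at h3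
  have h4 : ρ * ((1 - l / ρ) / 2) = (ρ - l) / 2 := by
    field_simp
  rw [h4] at h3
  linarith

/-- **The bathtub bound.** -/
theorem bathtub {v W : E3} (hv : ‖v‖ = 1) (hW : inner ℝ v W = (0 : ℝ)) (E : Set E3) :
    ∫ p in E, inner ℝ p W / (1 - inner ℝ v p) ∂PP ≤ ‖W‖ * √(PP.real E * (1 - PP.real E)) := by
  rcases eq_or_ne W 0 with h0 | h0
  · rw [h0]
    simp
  have hw : 0 < ‖W‖ := norm_pos_iff.2 h0
  set e : ℝ := PP.real E with he
  have he0 : 0 ≤ e := measureReal_nonneg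
  have he1 : e ≤ 1 := measureReal_le_one
  rcases he0.eq_or_lt with h1 | h1
  · -- probability zero
    have h2 : PP E = 0 := by
      rw [he, measureReal_def] at h1
      rcases (ENNReal.toReal_eq_zero_iff _).1 h1.symm with h3 | h3
      · exact h3
      · exact absurd h3 (measure_ne_top _ _)
    rw [setIntegral_measure_zero _ h2]
    positivity
  rcases he1.eq_or_lt with h2 | h2
  · -- probability one
    rw [h2, sub_self, mul_zero, Real.sqrt_zero, mul_zero]
    by_contra h3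
    rw [not_le] at h3
    set I := ∫ p in E, inner ℝ p W / (1 - inner ℝ v p) ∂PP with hI
    -- choose `l = -L`, `L = |W|² / I`
    have h4 := bath_lam hv hW h0 (E := E) (-(‖W‖ ^ 2 / I))
    rw [← he, h2, ← hI] at h4
    set L : ℝ := ‖W‖ ^ 2 / I with hL
    have hL0 : 0 < L := by positivity
    have h5 : √(‖W‖ ^ 2 + (-L) ^ 2) ≤ L + ‖W‖ ^ 2 / (2 * L) := by
      refine Real.sqrt_le_iff.2 ⟨by positivity, ?_⟩
      have h6 : (L + ‖W‖ ^ 2 / (2 * L)) ^ 2 = L ^ 2 + ‖W‖ ^ 2 + (‖W‖ ^ 2 / (2 * L)) ^ 2 := by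
        field_simp
        ring
      rw [h6]
      nlinarith [sq_nonneg (‖W‖ ^ 2 / (2 * L))]
    have h7 : ‖W‖ ^ 2 / (2 * L) = I / 2 := by
      rw [hL]
      field_simp
    rw [h7] at h5
    linarith
  · have hp : 0 < e * (1 - e) := by nlinarith
    set r : ℝ := √(e * (1 - e)) with hr
    have hr0 : 0 < r := Real.sqrt_pos.2 hp
    have hr2 : r ^ 2 = e * (1 - e) := Real.sq_sqrt hp.le
    have h3 := bath_lam hv hW h0 (E := E) (‖W‖ * (1 - 2 * e) / (2 * r))
    have h4 : ‖W‖ ^ 2 + (‖W‖ * (1 - 2 * e) / (2 * r)) ^ 2 = (‖W‖ / (2 * r)) ^ 2 := by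
      rw [div_pow, div_pow, mul_pow, mul_pow, hr2]
      field_simp
      ring
    rw [h4, Real.sqrt_sq (by positivity), ← he] at h3
    have h5 : ‖W‖ * (1 - 2 * e) / (2 * r) * e + (‖W‖ / (2 * r) - ‖W‖ * (1 - 2 * e) / (2 * r)) / 2 =
        ‖W‖ * r := by
      have : ‖W‖ * (1 - 2 * e) / (2 * r) * e + (‖W‖ / (2 * r) - ‖W‖ * (1 - 2 * e) / (2 * r)) / 2 =
          ‖W‖ * (2 * (e * (1 - e))) / (2 * r) := by
        field_simp
        ring
      rw [this, ← hr2]
      field_simp
    rw [h5] at h3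
    exact h3

end Pool.Agent.FPX
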