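import Mathlib
import Pool.Agent.EWD.Defs
import Pool.Agent.FPX.S7Defs
import Pool.Agent.FPX.S7B
import Pool.Agent.FPX.S7G
import Pool.Agent.FPX.S7N
import Pool.Agent.FPX.S7H

/-
FPX, S7K (helper82): the capacity estimate. For an even Lipschitz function `g`,
`κ (t₁ - t₀)² ≤ (∫_{t₀ ≤ g < t₁} |∇g|²) log ((b₁ - ε) / (b₀ - ε))`, where `bᵢ` is the area of
`{g < tᵢ}`.
-/

open MeasureTheory Set Filter Topology
open scoped ENNReal NNReal

noncomputable section

namespace Pool.Agent.FPX

open Pool.Agent.EWD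

variable {M : Type} [MetricSpace M] {γ : ℝ → M} (C : Calc M γ)

/-- `∫_{g < t} f`, additivity -/
theorem set_sub {g : M → ℝ} (hg : Lip g) {f : Om → ℝ} (hf : Integrable f C.μ) {s t : ℝ}
    (h : s ≤ t) : ∫ o in {o | g (C.pt o) < t}, f o ∂C.μ - ∫ o in {o | g (C.pt o) < s}, f o ∂C.μ =
      ∫ o in {o | s ≤ g (C.pt o) ∧ g (C.pt o) < t}, f o ∂C.μ := by
  have hm : ∀ t : ℝ, NullMeasurableSet {o | g (C.pt o) < t} C.μ := fun t =>
    nullMeasurableSet_lt (aem_pt C hg) aemeasurable_const
  have hm' : NullMeasurableSet {o | s ≤ g (C.pt o) ∧ g (C.pt o) < t} C.μ :=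
    (nullMeasurableSet_le aemeasurable_const (aem_pt C hg)).inter (hm t)
  have hU : {o | g (C.pt o) < t} = {o | g (C.pt o) < s} ∪
      {o | s ≤ g (C.pt o) ∧ g (C.pt o) < t} := by
    ext o
    simp only [mem_ofPred_eq, mem_union]
    constructor
    · intro h1
      rcases lt_or_ge (g (C.pt o)) s with h2 | h2
      · exact Or.inl h2
      · exact Or.inr ⟨h2, h1⟩
    · rintro (h1 | h1)
      · exact lt_of_lt_of_le h1 h
      · exact h1.2
  have hd : Disjoint {o | g (C.pt o) < s} {o | s ≤ g (C.pt o) ∧ g (C.pt o) < t} := by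
    rw [Set.disjoint_left]
    intro o h1 h2
    exact absurd h2.1 (not_le.2 h1)
  rw [hU, setIntegral_union₀ hd.aedisjoint hm' hf.integrableOn hf.integrableOn]
  ring

/-- the integral of a nonnegative function over `{g < t}` increases -/
theorem set_mono {g : M → ℝ} {f : Om → ℝ} (hf : Integrable f C.μ) (f0 : ∀ o, 0 ≤ f o) :
    Monotone fun t => ∫ o in {o | g (C.pt o) < t}, f o ∂C.μ := by
  intro s t h
  refine setIntegral_mono_set hf.integrableOn (Eventually.of_forall f0) ?_
  refine Eventually.of_forall fun o ho => ?_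
  exact lt_of_lt_of_le (show g (C.pt o) < s from ho) h

/-- Cauchy-Schwarz for the derivatives of the level functions -/
theorem deriv_cs {g : M → ℝ} (hg : Lip g) : ∀ᵐ t : ℝ,
    DifferentiableAt ℝ (lev C g) t → deriv (lev C g) t ^ 2 ≤
      deriv (fun t => ∫ o in {o | g (C.pt o) < t}, gn C g o ^ 2 ∂C.μ) t *
        deriv (inf' C g) t := by
  have := C.fin
  obtain ⟨N, g', G', hN, mg, mG, G0, hgN, hall⟩ :=
    s7_rep C hg (P := fun _ => True) (Eventually.of_forall fun _ => trivial) 0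
  have hae : ∀ᵐ o ∂C.μ, o ∉ N := measure_eq_zero_iff_ae_notMem.1 hN
  have hGe : G' =ᵐ[C.μ] gn C g := by
    filter_upwards [hae] with o ho using (hall o ho).2.2
  have hge : g' =ᵐ[C.μ] fun o => g (C.pt o) := by
    filter_upwards [hae] with o ho using (hall o ho).2.1
  have hset : ∀ t : ℝ, {o | g' o < t} =ᵐ[C.μ] {o | g (C.pt o) < t} := fun t => by
    filter_upwards [hge] with o ho
    exact propext (by change g' o < t ↔ g (C.pt o) < t; rw [ho])
  have hi0 : s7F C.μ g' (fun _ => 1) = inf' C g := by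
    funext t
    rw [← s7b_eq, s7b, Measure.real, measure_congr (hset t), inf']
  have hi1 : s7F C.μ g' G' = lev C g := by
    funext t
    rw [s7F, lev, setIntegral_congr_set (hset t)]
    exact integral_congr_ae (ae_restrict_of_ae hGe)
  have hi2 : s7F C.μ g' (fun o => G' o ^ 2) =
      fun t => ∫ o in {o | g (C.pt o) < t}, gn C g o ^ 2 ∂C.μ := by
    funext t
    rw [s7F, setIntegral_congr_set (hset t)]
    refine integral_congr_ae (ae_restrict_of_ae ?_)
    filter_upwards [hGe] with o ho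
    rw [ho]
  have hG : Integrable G' C.μ := (int_gn C hg).congr hGe.symm
  have hG2 : Integrable (fun o => G' o ^ 2) C.μ :=
    (int_gn_sq C hg).congr (by filter_upwards [hGe] with o ho; rw [ho])
  have m0 := (inf_mono C g).ae_differentiableAt
  have m2 := (set_mono C (g := g) (int_gn_sq C hg) fun o => sq_nonneg _).ae_differentiableAt
  filter_upwards [m0, m2] with t h0 h2 h1
  have key := s7_deriv_cs C.μ mg hG hG2 (t := t) (by rw [hi0]; exact h0) (by rw [hi1]; exact h1)
    (by rw [hi2]; exact h2)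
  rwa [hi0, hi1, hi2] at key

/-- **Capacity estimate.** -/
theorem capacity {κ ε : ℝ} (hI : Isop C κ ε) (hκ : 0 ≤ κ) {g : M → ℝ} (hg : Lip g)
    (he : EvenB γ g) {t₀ t₁ : ℝ} (h01 : t₀ ≤ t₁) (h0 : ε < inf' C g t₀)
    (hV : inf' C g t₁ ≤ C.vol / 2) :
    κ * (t₁ - t₀) ^ 2 ≤ (∫ o in {o | t₀ ≤ g (C.pt o) ∧ g (C.pt o) < t₁}, gn C g o ^ 2 ∂C.μ) *
      Real.log ((inf' C g t₁ - ε) / (inf' C g t₀ - ε)) := by
  have hmono := inf_mono C g
  set F2 := fun t => ∫ o in {o | g (C.pt o) < t}, gn C g o ^ 2 ∂C.μ with hF2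
  have m2 : Monotone F2 := set_mono C (g := g) (int_gn_sq C hg) fun o => sq_nonneg _
  set h := fun t => Real.log (inf' C g t - ε) with hh
  have hpos : ∀ t, t₀ ≤ t → 0 < inf' C g t - ε := fun t ht => by
    have := hmono ht
    linarith
  have hm : MonotoneOn h (uIcc t₀ t₁) := by
    intro s hs t ht hst
    rw [uIcc_of_le h01] at hs
    exact Real.log_le_log (hpos s hs.1) (sub_le_sub_right (hmono hst) ε)
  have i1 := (m2.monotoneOn (uIcc t₀ t₁)).intervalIntegral_deriv_mem_uIcc
  have j1 := (m2.monotoneOn (uIcc t₀ t₁)).intervalIntegrable_deriv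
  have i2 := hm.intervalIntegral_deriv_mem_uIcc
  have j2 := hm.intervalIntegrable_deriv
  have hF01 : F2 t₀ ≤ F2 t₁ := m2 h01
  have hh01 : h t₀ ≤ h t₁ := hm (by simp) (by simp) h01
  rw [uIcc_of_le (by linarith), mem_Icc] at i1 i2
  have hpt : ∀ᵐ t : ℝ, t ∈ Ioc t₀ t₁ → κ ≤ deriv F2 t * deriv h t ∧ 0 ≤ deriv F2 t ∧
      0 ≤ deriv h t := by
    filter_upwards [hI g hg he, hmono.ae_differentiableAt, deriv_cs C hg] with t ht hd hc hmem
    have hp := hpos t hmem.1.le
    have hb2 : inf' C g t ≤ C.vol / 2 := (hmono hmem.2).trans hV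
    have h5 : min (sup' C g t) (C.vol - sup' C g t) = inf' C g t := by
      rw [sup_inf C hg, min_eq_right (by linarith)]
      ring
    have h4 := ht.2
    rw [h5] at h4
    have h6 : 0 ≤ deriv (inf' C g) t := Monotone.deriv_nonneg hmono
    have h7 : HasDerivAt h (deriv (inf' C g) t / (inf' C g t - ε)) t :=
      (hd.hasDerivAt.sub_const ε).log hp.ne'
    have h8 := hc ht.1
    have h9 : 0 ≤ deriv F2 t := m2.deriv_nonneg
    rw [h7.deriv]
    refine ⟨?_, h9, by positivity⟩
    rw [← mul_div_assoc, le_div_iff₀ hp]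
    exact h4.trans h8
  have hAM : ∀ l : ℝ, 0 < l → 2 * √κ * (t₁ - t₀) ≤ l * (F2 t₁ - F2 t₀) + (h t₁ - h t₀) / l := by
    intro l hl
    calc 2 * √κ * (t₁ - t₀) = ∫ _ in t₀..t₁, 2 * √κ := by
          rw [intervalIntegral.integral_const, smul_eq_mul]; ring
      _ ≤ ∫ t in t₀..t₁, (l * deriv F2 t + l⁻¹ * deriv h t) := by
          refine intervalIntegral.integral_mono_ae_restrict h01 (by simp)
            ((j1.const_mul l).add (j2.const_mul l⁻¹)) ?_
          rw [Filter.EventuallyLE, ← Measure.restrict_congr_set Ioc_ae_eq_Icc,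
            ae_restrict_iff' measurableSet_Ioc]
          filter_upwards [hpt] with t ht hmem
          obtain ⟨h1, h2, h3⟩ := ht hmem
          have h4 : √κ ^ 2 ≤ (l * deriv F2 t) * (l⁻¹ * deriv h t) := by
            rw [Real.sq_sqrt hκ]
            have : (l * deriv F2 t) * (l⁻¹ * deriv h t) = deriv F2 t * deriv h t := by
              field_simp
            rw [this]
            exact h1
          have h5 : 0 ≤ l * deriv F2 t := by positivity
          have h6 : 0 ≤ l⁻¹ * deriv h t := by positivity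
          nlinarith [sq_nonneg (l * deriv F2 t - l⁻¹ * deriv h t), Real.sqrt_nonneg κ,
            sq_nonneg (√κ - (l * deriv F2 t + l⁻¹ * deriv h t) / 2)]
      _ = l * (∫ t in t₀..t₁, deriv F2 t) + l⁻¹ * ∫ t in t₀..t₁, deriv h t := by
          rw [intervalIntegral.integral_add (j1.const_mul l) (j2.const_mul l⁻¹),
            intervalIntegral.integral_const_mul, intervalIntegral.integral_const_mul]
      _ ≤ l * (F2 t₁ - F2 t₀) + l⁻¹ * (h t₁ - h t₀) := by
          have h1 := mul_le_mul_of_nonneg_left i1.2 hl.le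
          have h2 := mul_le_mul_of_nonneg_left i2.2 (inv_nonneg.2 hl.le)
          linarith
      _ = _ := by rw [div_eq_inv_mul]
  have hA : ∫ o in {o | t₀ ≤ g (C.pt o) ∧ g (C.pt o) < t₁}, gn C g o ^ 2 ∂C.μ =
      F2 t₁ - F2 t₀ := (set_sub C hg (int_gn_sq C hg) h01).symm
  have hB : Real.log ((inf' C g t₁ - ε) / (inf' C g t₀ - ε)) = h t₁ - h t₀ :=
    Real.log_div (hpos t₁ h01).ne' (hpos t₀ le_rfl).ne'
  rw [hA, hB]
  set A := F2 t₁ - F2 t₀ with hAd
  set B := h t₁ - h t₀ with hBd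
  have A0 : 0 ≤ A := by linarith
  have B0 : 0 ≤ B := by linarith
  by_contra hcon
  push Not at hcon
  set s := √κ * (t₁ - t₀) with hs
  have hs2 : s ^ 2 = κ * (t₁ - t₀) ^ 2 := by rw [hs, mul_pow, Real.sq_sqrt hκ]
  have s0 : 0 ≤ s := mul_nonneg (Real.sqrt_nonneg _) (by linarith)
  rw [← hs2] at hcon
  have spos : 0 < s := by
    rcases s0.eq_or_lt with h1 | h1
    · rw [← h1] at hcon
      have : 0 ≤ A * B := mul_nonneg A0 B0
      nlinarith
    · exact h1
  set η := (s ^ 2 - A * B) / (2 * (B + 1)) with hη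
  have η0 : 0 < η := div_pos (by linarith) (by linarith)
  have hAB : (A + η) * B < s ^ 2 := by
    have h1 : η * B ≤ (s ^ 2 - A * B) / 2 := by
      rw [hη, div_mul_eq_mul_div, div_le_div_iff₀ (by linarith) (by norm_num)]
      nlinarith
    nlinarith
  have A'0 : 0 < A + η := by linarith
  have h1 := hAM (s / (A + η)) (div_pos spos A'0)
  have h2 : s / (A + η) * A ≤ s := by
    rw [div_mul_eq_mul_div, div_le_iff₀ A'0]
    nlinarith
  have h3 : B / (s / (A + η)) < s := by
    rw [div_div_eq_mul_div, div_lt_iff₀ spos]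
    nlinarith
  have h4 : 2 * √κ * (t₁ - t₀) = 2 * s := by rw [hs]; ring
  linarith

end Pool.Agent.FPX
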