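import Mathlib
import Pool.Agent.FPX.BTH
import Pool.Agent.FPX.DEG
import Pool.Agent.FPX.SEL
import Pool.Agent.FPX.S7K

/-
IMG (helper67): the sharp spherical isoperimetric inequality for the images of the level lines of an
odd function `χ` under an odd Lipschitz map `v` into the two sphere. If `V(t) = ∫_{|χ| < t} |dχ ∧ dv|`
and `α(t) = ∫_{t < |χ|} jac v`, then `α (4 π - α) ≤ V'(t)²` for almost every `t > 0`.
-/

open MeasureTheory Set Filter Topology
open scoped ENNReal NNReal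

noncomputable section

namespace Pool.Agent.FPX

open Pool.Agent.EWD

variable {M : Type} [MetricSpace M] {γ : ℝ → M}

/-- the length element of the image of a level line of `χ` -/
def wn (C : Calc M γ) (χ : M → ℝ) (v : Fin 3 → M → ℝ) (o : Om) : ℝ :=
  ‖C.gx χ o • dy C v o - C.gy χ o • dx C v o‖

/-- `∫_{|χ| < t} |dχ ∧ dv|` -/
def levw (C : Calc M γ) (χ : M → ℝ) (v : Fin 3 → M → ℝ) (t : ℝ) : ℝ :=
  ∫ o in {o | |χ (C.pt o)| < t}, wn C χ v o ∂C.μ

/-- `∫_{t < |χ|} jac v` -/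
def supj (C : Calc M γ) (χ : M → ℝ) (v : Fin 3 → M → ℝ) (t : ℝ) : ℝ :=
  ∫ o in {o | t < |χ (C.pt o)|}, jac C v o ∂C.μ

/-! ### the flux formula with the zeros -/

omit [MetricSpace M] in
private theorem IMG_bdry {X Y ψ : M → ℝ} (oX : OddB γ X) (oY : OddB γ Y)
    (oψ : OddB γ ψ) : ∫ t in (0 : ℝ)..(2 * Real.pi), ψ (γ t) * kap γ X Y t = 0 := by
  have hk : ∀ t, kap γ X Y (t + Real.pi) = kap γ X Y t := kap_periodic oX oY
  set h : ℝ → ℝ := fun t => ψ (γ t) * kap γ X Y t with hh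
  have h1 : ∀ t, h (t + Real.pi) = - h t := by
    intro t
    simp only [hh]
    rw [oψ, hk]
    ring
  have hper : Function.Periodic h (2 * Real.pi) := by
    intro t
    have e : t + 2 * Real.pi = t + Real.pi + Real.pi := by ring
    rw [e, h1, h1, neg_neg]
  have h2 := hper.intervalIntegral_add_eq Real.pi 0
  rw [zero_add] at h2
  have h3 : ∫ t in (0 : ℝ)..(2 * Real.pi), h (t + Real.pi) = ∫ t in Real.pi..(Real.pi + 2 * Real.pi), h t := by
    rw [intervalIntegral.integral_comp_add_right h Real.pi, zero_add, add_comm (2 * Real.pi) Real.pi]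
  have h4 : ∫ t in (0 : ℝ)..(2 * Real.pi), h (t + Real.pi) = - ∫ t in (0 : ℝ)..(2 * Real.pi), h t := by
    rw [← intervalIntegral.integral_neg]
    exact intervalIntegral.integral_congr fun t _ => h1 t
  linarith

private theorem IMG_ext (Z : Finset M) {s : M → ℝ} (hs : ∀ z ∈ Z, s z = 1 ∨ s z = -1) :
    ∃ ψ : M → ℝ, Lip ψ ∧ (∀ x, |ψ x| ≤ 1) ∧ ∀ z ∈ Z, ψ z = s z := by
  classical
  set K : ℝ := ∑ z ∈ Z, ∑ z' ∈ Z, |s z - s z'| / dist z z' with hK
  have hnn : ∀ z z' : M, 0 ≤ |s z - s z'| / dist z z' := fun z z' => div_nonneg (abs_nonneg _) dist_nonneg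
  have hK0 : 0 ≤ K := Finset.sum_nonneg fun z _ => Finset.sum_nonneg fun z' _ => hnn z z'
  have h1 : ∀ z ∈ Z, ∀ z' ∈ Z, |s z - s z'| ≤ K * dist z z' := by
    intro z hz z' hz'
    rcases eq_or_ne z z' with h | h
    · rw [h]; simp
    · have hd : 0 < dist z z' := dist_pos.2 h
      rw [← div_le_iff₀ hd]
      calc |s z - s z'| / dist z z' ≤ ∑ z' ∈ Z, |s z - s z'| / dist z z' :=
            Finset.single_le_sum (f := fun z' => |s z - s z'| / dist z z') (fun i _ => hnn z i) hz'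
        _ ≤ K := Finset.single_le_sum (f := fun z => ∑ z' ∈ Z, |s z - s z'| / dist z z')
            (fun i _ => Finset.sum_nonneg fun j _ => hnn i j) hz
  have h2 : LipschitzOnWith ⟨K, hK0⟩ s (Z : Set M) := by
    refine LipschitzOnWith.of_dist_le_mul fun x hx y hy => ?_
    rw [Real.dist_eq]
    exact h1 x hx y hy
  obtain ⟨g, hg, hgs⟩ := h2.extend_real
  refine ⟨fun x => max (-1) (min 1 (g x)), ?_, ?_, ?_⟩
  · exact ⟨_, (hg.const_min 1).const_max (-1)⟩
  · intro x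
    rw [abs_le]
    exact ⟨le_max_left _ _, max_le (by norm_num) (min_le_left _ _)⟩
  · intro z hz
    have h3 : g z = s z := (hgs hz).symm
    simp only [h3]
    rcases hs z hz with h | h <;> rw [h] <;> norm_num

private theorem IMG_eps : Tendsto (fun k : ℕ => (1 / (k + 1) : ℝ)) atTop (𝓝[>] 0) := by
  rw [tendsto_nhdsWithin_iff]
  refine ⟨tendsto_one_div_add_atTop_nhds_zero_nat, Eventually.of_forall fun k => ?_⟩
  simp only [mem_Ioi]
  positivity

/-- the flux formula, with the information that `v = ± p` at the zeros -/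
theorem flux_eq_z [CompactSpace M] (C : Calc M γ) (hγ : Bd γ) {v : Fin 3 → M → ℝ} (hv : Sph γ v) {p : E3}
    (hp : ‖p‖ = 1) (hi : Integrable (fun o => (‖dx C v o‖ + ‖dy C v o‖) / √(sq2 (at' C v o) p)) C.μ)
    (hr : Reg C v p) : ∃ (Z : Finset M) (s : M → ℝ), (∀ z ∈ Z, s z = 1 ∨ s z = -1) ∧
      (∀ z ∈ Z, (inner ℝ p (vv (n := 0) v z) : ℝ) = 1 ∨ (inner ℝ p (vv (n := 0) v z) : ℝ) = -1) ∧
      (∀ ψ : M → ℝ, Lip ψ → OddB γ ψ → Flux C ψ v p = - 2 * Real.pi * ∑ z ∈ Z, s z * ψ z) ∧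
      ENNReal.ofReal (2 * Real.pi * Z.card) ≤ liminf (fun k : ℕ => ∫⁻ o, ENNReal.ofReal
        ((2 * (1 / (k + 1) : ℝ) ^ 2 / (sq2 (at' C v o) p + (1 / (k + 1) : ℝ) ^ 2) ^ 2) *
        |inner ℝ p (crs (dx C v o) (dy C v o))|) ∂C.μ) atTop := by
  obtain ⟨a, b, Z, s, ha, hb, hab, hpab, hV⟩ := hr
  have hae := ae_flx_eq C hv ha hb hab
  rw [hpab] at hae
  have hsq : ∀ x, inner ℝ a (vv (n := 0) v x) ^ 2 + inner ℝ b (vv (n := 0) v x) ^ 2
      = sq2 (vv (n := 0) v x) p := by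
    intro x
    have h3 := decomp ha hb hab (vv (n := 0) v x)
    rw [norm_vv hv, hpab] at h3
    unfold sq2
    linarith
  -- integrability of the rotation
  have hrot : Integrable (C.rot (fun x => inner ℝ a (vv (n := 0) v x))
      (fun x => inner ℝ b (vv (n := 0) v x))) C.μ := by
    refine hi.mono' (C.meas_rot hV.lipX hV.lipY).aestronglyMeasurable ?_
    filter_upwards [ae_inner C hv.lip] with o ho
    rw [Real.norm_eq_abs, abs_of_nonneg (C.rot_nonneg _ _ o)]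
    have e1 : C.Tx (fun x => inner ℝ a (vv (n := 0) v x)) (fun x => inner ℝ b (vv (n := 0) v x)) o
        = inner ℝ p (crs (at' C v o) (dx C v o)) := by
      unfold Calc.Tx
      rw [(ho a).1, (ho b).1, ← hpab, ← binet]
      rfl
    have e2 : C.Ty (fun x => inner ℝ a (vv (n := 0) v x)) (fun x => inner ℝ b (vv (n := 0) v x)) o
        = inner ℝ p (crs (at' C v o) (dy C v o)) := by
      unfold Calc.Ty
      rw [(ho a).2, (ho b).2, ← hpab, ← binet]
      rfl
    unfold Calc.rot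
    rw [e1, e2, hsq]
    have hn := norm_at (C := C) hv o
    have hs0 : 0 ≤ sq2 (at' C v o) p := sq2_nonneg hn hp
    change √_ / sq2 (at' C v o) p ≤ _
    have h1 : √(inner ℝ p (crs (at' C v o) (dx C v o)) ^ 2 + inner ℝ p (crs (at' C v o) (dy C v o)) ^ 2)
        ≤ √(sq2 (at' C v o) p) * (‖dx C v o‖ + ‖dy C v o‖) := by
      refine Real.sqrt_le_iff.2 ⟨by positivity, ?_⟩
      rw [mul_pow, Real.sq_sqrt hs0]
      have h2 := inner_crs_le hn hp (dx C v o)
      have h3 := inner_crs_le hn hp (dy C v o)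
      have h4 : 0 ≤ sq2 (at' C v o) p * (2 * (‖dx C v o‖ * ‖dy C v o‖)) := by positivity
      nlinarith
    rcases hs0.eq_or_lt with h0 | h0
    · rw [← h0]
      simp
    · rw [div_le_div_iff₀ h0 (Real.sqrt_pos.2 h0)]
      calc _ ≤ √(sq2 (at' C v o) p) * (‖dx C v o‖ + ‖dy C v o‖) * √(sq2 (at' C v o) p) :=
            mul_le_mul_of_nonneg_right h1 (Real.sqrt_nonneg _)
        _ = (‖dx C v o‖ + ‖dy C v o‖) * (√(sq2 (at' C v o) p) * √(sq2 (at' C v o) p)) := by ring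
        _ = _ := by rw [Real.mul_self_sqrt h0.le]
  refine ⟨Z, s, hV.pm, ?_, ?_, ?_⟩
  · intro z hz
    have h4 := (hV.zero z).1 hz
    have h5 := hsq z
    rw [h4.1, h4.2] at h5
    have h6 : (inner ℝ p (vv (n := 0) v z) : ℝ) ^ 2 = 1 := by
      unfold sq2 at h5
      rw [real_inner_comm]
      linarith
    have h10 : ((inner ℝ p (vv (n := 0) v z) : ℝ) - 1) * ((inner ℝ p (vv (n := 0) v z) : ℝ) + 1) = 0 := by
      linear_combination h6
    rcases mul_eq_zero.1 h10 with h | h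
    · left; linarith
    · right; linarith
  · intro ψ hψ oψ
    have h1 := stokes_vort C hγ hV hrot hψ
    rw [IMG_bdry hV.oddX hV.oddY oψ] at h1
    unfold Flux
    have h2 : ∫ o, flx C ψ v p o ∂C.μ = ∫ o, C.cr ψ (fun x => inner ℝ a (vv (n := 0) v x))
        (fun x => inner ℝ b (vv (n := 0) v x)) o ∂C.μ := by
      refine integral_congr_ae ?_
      filter_upwards [hae] with o ho
      exact ho.1 ψ
    rw [h2, h1]
    ring
  · obtain ⟨ψ, hψ, hψ1, hψs⟩ := IMG_ext Z hV.pm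
    have h1 := (hV.lim ψ hψ).comp IMG_eps
    have h2 : (∑ z ∈ Z, s z * ψ z) = Z.card := by
      have : ∀ z ∈ Z, s z * ψ z = 1 := by
        intro z hz
        rw [hψs z hz]
        rcases hV.pm z hz with h | h <;> rw [h] <;> norm_num
      rw [Finset.sum_congr rfl this]
      simp
    rw [h2] at h1
    have h3 := ENNReal.tendsto_ofReal h1
    rw [← h3.liminf_eq]
    refine liminf_le_liminf (Eventually.of_forall fun k => ?_)
    simp only [Function.comp_apply]
    set ε : ℝ := (1 / (k + 1) : ℝ) with hε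
    refine (ENNReal.ofReal_le_ofReal (le_abs_self _)).trans ?_
    rw [← Real.norm_eq_abs, ofReal_norm]
    refine (enorm_integral_le_lintegral_enorm _).trans ?_
    refine lintegral_mono_ae ?_
    filter_upwards [hae] with o ho
    rw [← ofReal_norm, Real.norm_eq_abs, abs_mul, abs_mul, ho.2, hsq]
    refine ENNReal.ofReal_le_ofReal ?_
    have h5 : 0 ≤ 2 * ε ^ 2 / (sq2 (vv (n := 0) v (C.pt o)) p + ε ^ 2) ^ 2 := by positivity
    rw [abs_of_nonneg h5]
    have h6 := mul_le_mul_of_nonneg_right (hψ1 (C.pt o)) h5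
    rw [one_mul] at h6
    exact mul_le_mul_of_nonneg_right h6 (abs_nonneg _)

/-! ### the number of zeros is dominated -/

private def cn (C : Calc M γ) (v : Fin 3 → M → ℝ) (k : ℕ) (q : Om × E3) : ℝ :=
  (2 * (1 / (k + 1) : ℝ) ^ 2 / (sq2 (at' C v q.1) q.2 + (1 / (k + 1) : ℝ) ^ 2) ^ 2) *
    |inner ℝ q.2 (crs (dx C v q.1) (dy C v q.1))|

private theorem cn_meas (C : Calc M γ) {v : Fin 3 → M → ℝ} (hv : ∀ k, Lip (v k)) (k : ℕ) :
    AEMeasurable (cn C v k) (C.μ.prod PP) := by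
  have := C.fin
  obtain ⟨m1, m2, m0⟩ := meas_dx C hv
  have hc : AEMeasurable (fun o => crs (dx C v o) (dy C v o)) C.μ :=
    crs_cont.measurable.comp_aemeasurable (m1.prodMk m2)
  have h3 : Measurable fun t : ℝ => 2 * (1 / (k + 1) : ℝ) ^ 2 / (t + (1 / (k + 1) : ℝ) ^ 2) ^ 2 := by
    fun_prop
  have h1 : AEMeasurable (fun q : Om × E3 => sq2 (at' C v q.1) q.2) (C.μ.prod PP) := by
    unfold sq2
    exact aemeasurable_const.sub (((m0.comp_fst).inner measurable_snd.aemeasurable).pow_const 2)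
  exact (h3.comp_aemeasurable h1).mul (measurable_snd.aemeasurable.inner hc.comp_fst).abs

private theorem cn_le (C : Calc M γ) {v : Fin 3 → M → ℝ} (hv : Sph γ v) :
    ∃ c : ℝ, ∀ k : ℕ, ∫⁻ p, ∫⁻ o, ENNReal.ofReal (cn C v k (o, p)) ∂C.μ ∂PP ≤ ENNReal.ofReal c := by
  have := C.fin
  obtain ⟨⟨B1, b1⟩, ⟨B2, b2⟩⟩ := bdd_dx C hv.lip
  refine ⟨3 * (B1 * B2) * C.vol, fun k => ?_⟩
  rw [← lintegral_lintegral_swap (f := fun o p => ENNReal.ofReal (cn C v k (o, p)))
    (cn_meas C hv.lip k).ennreal_ofReal]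
  have hd : (0 : ℝ) < 1 / (k + 1) := by positivity
  have h1 : ∀ᵐ o ∂C.μ, ∫⁻ p, ENNReal.ofReal (cn C v k (o, p)) ∂PP ≤
      ENNReal.ofReal (3 * (B1 * B2)) := by
    filter_upwards [b1, b2] with o h1 h2
    have hn := norm_at (C := C) hv o
    have hB1 : 0 ≤ B1 := (norm_nonneg _).trans h1
    have hB2 : 0 ≤ B2 := (norm_nonneg _).trans h2
    have h3 : ‖crs (dx C v o) (dy C v o)‖ ≤ B1 * B2 := by
      refine (abs_le_of_sq_le_sq' ?_ (by positivity)).2
      rw [norm_crs_sq, mul_pow]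
      have h5 := mul_le_mul (pow_le_pow_left₀ (norm_nonneg _) h1 2)
        (pow_le_pow_left₀ (norm_nonneg _) h2 2) (by positivity) (by positivity)
      nlinarith [sq_nonneg (inner ℝ (dx C v o) (dy C v o) : ℝ)]
    have h4 : ∀ᵐ p ∂PP, ENNReal.ofReal (cn C v k (o, p)) ≤ ENNReal.ofReal (B1 * B2) *
        ENNReal.ofReal (2 * (1 / (k + 1) : ℝ) ^ 2 / (sq2 (at' C v o) p + (1 / (k + 1) : ℝ) ^ 2) ^ 2) := by
      filter_upwards [ae_norm] with p hp
      rw [← ENNReal.ofReal_mul (by positivity)]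
      refine ENNReal.ofReal_le_ofReal ?_
      unfold cn
      rw [mul_comm]
      refine mul_le_mul_of_nonneg_right ?_ (by positivity)
      refine (abs_real_inner_le_norm _ _).trans ?_
      change ‖p‖ * _ ≤ _
      rw [hp, one_mul]
      exact h3
    refine (lintegral_mono_ae h4).trans ?_
    rw [lintegral_const_mul' _ _ ENNReal.ofReal_ne_top]
    refine (mul_le_mul' le_rfl (lint_count hn hd)).trans_eq ?_
    rw [← ENNReal.ofReal_mul (by positivity)]
    congr 1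
    ring
  rcases isEmpty_or_nonempty Om with _ | _
  · simp
  rcases eq_or_ne C.μ 0 with h0 | h0
  · rw [h0]; simp
  have hne : (ae C.μ).NeBot := ae_neBot.2 h0
  obtain ⟨o, h2, h3⟩ := (b1.and b2).exists
  have hB1 : 0 ≤ B1 := (norm_nonneg _).trans h2
  have hB2 : 0 ≤ B2 := (norm_nonneg _).trans h3
  refine (lintegral_mono_ae h1).trans_eq ?_
  rw [lintegral_const, ENNReal.ofReal_mul (p := 3 * (B1 * B2)) (by positivity)]
  unfold Calc.vol
  rw [ENNReal.ofReal_toReal (measure_ne_top _ _)]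

/-- an integrable bound for the number of zeros -/
theorem card_bd (C : Calc M γ) {v : Fin 3 → M → ℝ} (hv : Sph γ v) : ∃ B : E3 → ℝ, Integrable B PP ∧
    ∀ᵐ p ∂PP, ∀ n : ℕ, ENNReal.ofReal (2 * Real.pi * n) ≤ liminf (fun k : ℕ => ∫⁻ o, ENNReal.ofReal
        ((2 * (1 / (k + 1) : ℝ) ^ 2 / (sq2 (at' C v o) p + (1 / (k + 1) : ℝ) ^ 2) ^ 2) *
        |inner ℝ p (crs (dx C v o) (dy C v o))|) ∂C.μ) atTop → (n : ℝ) ≤ B p := by
  have := C.fin
  obtain ⟨c, hc⟩ := cn_le C hv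
  set Q : E3 → ℝ≥0∞ := fun p => liminf (fun k : ℕ => ∫⁻ o, ENNReal.ofReal (cn C v k (o, p)) ∂C.μ) atTop
    with hQ
  have hm : ∀ k : ℕ, AEMeasurable (fun p => ∫⁻ o, ENNReal.ofReal (cn C v k (o, p)) ∂C.μ) PP := fun k =>
    (cn_meas C hv.lip k).ennreal_ofReal.lintegral_prod_left'
  have hQm : AEMeasurable Q PP := by
    choose g hg hag using hm
    refine ⟨fun p => liminf (fun k => g k p) atTop, Measurable.liminf hg, ?_⟩
    filter_upwards [ae_all_iff.2 hag] with p hp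
    simp only [hQ]
    congr 1
    funext k
    exact hp k
  have hfat : ∫⁻ p, Q p ∂PP ≤ ENNReal.ofReal c := by
    refine (lintegral_liminf_le' hm).trans ?_
    refine (liminf_le_liminf (v := fun _ => ENNReal.ofReal c) (Eventually.of_forall hc)).trans_eq ?_
    exact liminf_const _
  have hne : ∫⁻ p, Q p ∂PP ≠ ⊤ := ne_top_of_le_ne_top ENNReal.ofReal_ne_top hfat
  refine ⟨fun p => (Q p).toReal / (2 * Real.pi), ?_, ?_⟩
  · exact (integrable_toReal_of_lintegral_ne_top hQm hne).div_const _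
  · filter_upwards [ae_lt_top' hQm hne] with p hp n hn
    have hpi := Real.pi_pos
    change ENNReal.ofReal (2 * Real.pi * n) ≤ Q p at hn
    rw [le_div_iff₀ (by positivity)]
    have h1 := ENNReal.toReal_mono hp.ne hn
    rw [ENNReal.toReal_ofReal (by positivity)] at h1
    linarith

/-! ### the test function -/

/-- the ramp: 0 below `t`, 1 above `t + h` -/
def rmp (t h x : ℝ) : ℝ := max 0 (min 1 ((x - t) / h))

/-- its derivative -/
def rmd (t h x : ℝ) : ℝ := (Ioo t (t + h)).indicator (fun _ => 1 / h) x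

theorem rmp_zero {t h x : ℝ} (hh : 0 < h) (hx : x ≤ t) : rmp t h x = 0 := by
  unfold rmp
  have h1 : (x - t) / h ≤ 0 := div_nonpos_of_nonpos_of_nonneg (by linarith) hh.le
  exact max_eq_left ((min_le_right _ _).trans h1)

theorem rmp_one {t h x : ℝ} (hh : 0 < h) (hx : t + h ≤ x) : rmp t h x = 1 := by
  unfold rmp
  have h1 : 1 ≤ (x - t) / h := by
    rw [le_div_iff₀ hh]
    linarith
  rw [min_eq_left h1]
  exact max_eq_right zero_le_one

theorem rmp_mid {t h x : ℝ} (hh : 0 < h) (h1 : t ≤ x) (h2 : x ≤ t + h) : rmp t h x = (x - t) / h := by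
  unfold rmp
  have h3 : (x - t) / h ≤ 1 := by
    rw [div_le_one hh]
    linarith
  have h4 : 0 ≤ (x - t) / h := div_nonneg (by linarith) hh.le
  rw [min_eq_right h3, max_eq_right h4]

theorem rmp_nonneg (t h x : ℝ) : 0 ≤ rmp t h x := le_max_left _ _

theorem rmp_le (t h x : ℝ) : rmp t h x ≤ 1 := max_le zero_le_one (min_le_left _ _)

theorem rmp_lip {t h : ℝ} (hh : 0 < h) : LipschitzWith (Real.toNNReal (1 / h)) (rmp t h) := by
  have h1 : LipschitzWith (Real.toNNReal (1 / h)) (fun x : ℝ => (x - t) / h) := by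
    refine LipschitzWith.of_dist_le_mul fun x y => ?_
    rw [Real.dist_eq, Real.dist_eq, Real.coe_toNNReal _ (by positivity), ← sub_div,
      sub_sub_sub_cancel_right, abs_div, abs_of_pos hh]
    rw [one_div, inv_mul_eq_div]
  exact (h1.const_min 1).const_max 0

theorem rmp_has {t h x : ℝ} (hh : 0 < h) (h1 : x ≠ t) (h2 : x ≠ t + h) :
    HasDerivAt (rmp t h) (rmd t h x) x := by
  unfold rmd
  rcases lt_or_gt_of_ne h1 with h3 | h3
  · rw [indicator_of_notMem (fun h => absurd h.1 (not_lt.2 h3.le))]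
    refine (hasDerivAt_const x (0 : ℝ)).congr_of_eventuallyEq ?_
    filter_upwards [Iio_mem_nhds h3] with y hy
    exact rmp_zero hh (le_of_lt hy)
  · rcases lt_or_gt_of_ne h2 with h4 | h4
    · rw [indicator_of_mem (show x ∈ Ioo t (t + h) from ⟨h3, h4⟩)]
      have h5 : HasDerivAt (fun y : ℝ => (y - t) / h) (1 / h) x :=
        ((hasDerivAt_id x).sub_const t).div_const h
      refine h5.congr_of_eventuallyEq ?_
      filter_upwards [Ioo_mem_nhds h3 h4] with y hy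
      exact rmp_mid hh hy.1.le hy.2.le
    · rw [indicator_of_notMem (fun h => absurd h.2 (not_lt.2 h4.le))]
      refine (hasDerivAt_const x (1 : ℝ)).congr_of_eventuallyEq ?_
      filter_upwards [Ioi_mem_nhds h4] with y hy
      exact rmp_one hh (le_of_lt hy)

theorem rmd_nonneg {t h : ℝ} (hh : 0 < h) (x : ℝ) : 0 ≤ rmd t h x := by
  unfold rmd
  exact indicator_nonneg (fun _ _ => by positivity) _

theorem rmd_le {t h : ℝ} (hh : 0 < h) (x : ℝ) : rmd t h x ≤ 1 / h := by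
  unfold rmd
  exact indicator_le_self' (fun _ _ => by positivity) _

theorem rmd_meas (t h : ℝ) : Measurable (rmd t h) := measurable_const.indicator measurableSet_Ioo

/-- the test function -/
def tst (χ : M → ℝ) (v : Fin 3 → M → ℝ) (p : E3) (t h : ℝ) (x : M) : ℝ :=
  (1 / 2) * ((1 + inner ℝ p (vv (n := 0) v x)) * rmp t h (χ x) -
    (1 - inner ℝ p (vv (n := 0) v x)) * rmp t h (-χ x))

theorem tst_abs {χ : M → ℝ} {v : Fin 3 → M → ℝ} (hv : Sph γ v) {p : E3} (hp : ‖p‖ = 1) (t h : ℝ) (x : M) :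
    |tst χ v p t h x| ≤ 1 := by
  have h1 := abs_real_inner_le_norm p (vv (n := 0) v x)
  rw [hp, norm_vv hv, one_mul, abs_le] at h1
  have h2 := rmp_nonneg t h (χ x)
  have h3 := rmp_le t h (χ x)
  have h4 := rmp_nonneg t h (-χ x)
  have h5 := rmp_le t h (-χ x)
  unfold tst
  set u : ℝ := inner ℝ p (vv (n := 0) v x) with hu
  rw [abs_le]
  constructor
  · nlinarith [mul_nonneg (by linarith : (0 : ℝ) ≤ 1 + u) h2,
      mul_le_mul_of_nonneg_left h5 (by linarith : (0 : ℝ) ≤ 1 - u)]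
  · nlinarith [mul_nonneg (by linarith : (0 : ℝ) ≤ 1 - u) h4,
      mul_le_mul_of_nonneg_left h3 (by linarith : (0 : ℝ) ≤ 1 + u)]

theorem tst_odd {χ : M → ℝ} (oχ : OddB γ χ) {v : Fin 3 → M → ℝ} (hv : Sph γ v) (p : E3) (t h : ℝ) :
    OddB γ (tst χ v p t h) := by
  intro s
  unfold tst
  have h1 : (inner ℝ p (vv (n := 0) v (γ (s + Real.pi))) : ℝ) = - inner ℝ p (vv (n := 0) v (γ s)) := by
    rw [inner_vv, inner_vv, hv.odd 0 s, hv.odd 1 s, hv.odd 2 s]
    ring
  rw [h1, oχ s, neg_neg]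
  ring

theorem lip_inner {v : Fin 3 → M → ℝ} (hv : ∀ k, Lip (v k)) (p : E3) :
    Lip (fun x => (inner ℝ p (vv (n := 0) v x) : ℝ)) := by
  have e : (fun x => (inner ℝ p (vv (n := 0) v x) : ℝ)) =
      fun x => p 0 * v 0 x + p 1 * v 1 x + p 2 * v 2 x := funext fun x => inner_vv p v x
  rw [e]
  exact (((hv 0).const_mul _).add ((hv 1).const_mul _)).add ((hv 2).const_mul _)

theorem tst_lip [CompactSpace M] {χ : M → ℝ} (hχ : Lip χ) {v : Fin 3 → M → ℝ} (hv : ∀ k, Lip (v k)) (p : E3)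
    (t : ℝ) {h : ℝ} (hh : 0 < h) : Lip (tst χ v p t h) := by
  have h1 := lip_inner hv p
  have h2 : Lip (fun x => rmp t h (χ x)) := hχ.comp (rmp_lip hh)
  have h3 : Lip (fun x => rmp t h (-χ x)) := hχ.neg.comp (rmp_lip hh)
  exact ((((lip_const 1).add h1).mul h2).sub (((lip_const 1).sub h1).mul h3)).const_mul (1 / 2)

/-- the vector `v × (∂₁χ ∂₂v - ∂₂χ ∂₁v)` -/
def wv (C : Calc M γ) (χ : M → ℝ) (v : Fin 3 → M → ℝ) (o : Om) : E3 :=
  crs (at' C v o) (C.gx χ o • dy C v o - C.gy χ o • dx C v o)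

/-- the kernel -/
def ker (C : Calc M γ) (χ : M → ℝ) (v : Fin 3 → M → ℝ) (t h : ℝ) (p : E3) (o : Om) : ℝ :=
  rmd t h (χ (C.pt o)) * (inner ℝ p (wv C χ v o) / (1 - inner ℝ (at' C v o) p)) +
    rmd t h (-χ (C.pt o)) * (inner ℝ p (wv C χ v o) / (1 - inner ℝ (-at' C v o) p))

theorem ae_wv (C : Calc M γ) {v : Fin 3 → M → ℝ} (hv : Sph γ v) (χ : M → ℝ) : ∀ᵐ o ∂C.μ,
    inner ℝ (at' C v o) (wv C χ v o) = (0 : ℝ) ∧ ‖wv C χ v o‖ = wn C χ v o := by
  filter_upwards [ae_perp C hv] with o ho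
  have h1 : inner ℝ (at' C v o) (wv C χ v o) = (0 : ℝ) := inner_crs_left _ _
  refine ⟨h1, ?_⟩
  have h2 : inner ℝ (at' C v o) (C.gx χ o • dy C v o - C.gy χ o • dx C v o) = (0 : ℝ) := by
    rw [inner_sub_right, inner_smul_right, inner_smul_right, ho.1, ho.2]
    simp
  have h3 : ‖wv C χ v o‖ ^ 2 = wn C χ v o ^ 2 := by
    unfold wv wn
    rw [norm_crs_sq, norm_at hv, h2]
    ring
  have h4 : 0 ≤ wn C χ v o := norm_nonneg _
  exact (sq_eq_sq₀ (norm_nonneg _) h4).1 h3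

/-- the density of the flux of the test function -/
theorem ae_flx_tst (C : Calc M γ) {v : Fin 3 → M → ℝ} (hv : Sph γ v) {χ : M → ℝ} (hχ : Lip χ) {t h : ℝ}
    (hh : 0 < h) (ht : 0 < t) (h1 : ∀ᵐ o ∂C.μ, |χ (C.pt o)| ≠ t) (h2 : ∀ᵐ o ∂C.μ, |χ (C.pt o)| ≠ t + h)
    {p : E3} (hp : ‖p‖ = 1) (hq : ∀ᵐ o ∂C.μ, 0 < sq2 (at' C v o) p) : ∀ᵐ o ∂C.μ,
      flx C (tst χ v p t h) v p o = (1 / 2) * (ker C χ v t h p o + rmp t h |χ (C.pt o)| * jac C v o) := by
  have hin : ∀ᵐ o ∂C.μ, HasDerivAt (fun s => (inner ℝ p (vv (n := 0) v (C.px o s)) : ℝ))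
      (inner ℝ p (dx C v o)) 0 ∧ HasDerivAt (fun s => (inner ℝ p (vv (n := 0) v (C.py o s)) : ℝ))
      (inner ℝ p (dy C v o)) 0 := by
    filter_upwards [C.ae_has (lip_inner hv.lip p), ae_inner C hv.lip] with o ho ho2
    rw [(ho2 p).1, (ho2 p).2] at ho
    exact ho
  filter_upwards [C.ae_has hχ, hin, h1, h2, hq, ae_perp C hv] with o a1 a2 a3 a4 a5 a6
  set x : ℝ := χ (C.pt o) with hx
  set u : ℝ := inner ℝ p (at' C v o) with hu
  -- the ramps are differentiable at these points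
  have n1 : x ≠ t := fun h => a3 (by rw [h, abs_of_pos ht])
  have n2 : x ≠ t + h := fun h' => a4 (by rw [h', abs_of_pos (by linarith)])
  have n3 : -x ≠ t := fun h => a3 (by rw [← abs_neg, h, abs_of_pos ht])
  have n4 : -x ≠ t + h := fun h' => a4 (by rw [← abs_neg, h', abs_of_pos (by linarith)])
  have r1 := rmp_has hh n1 n2
  have r2 := rmp_has hh n3 n4
  have key : ∀ (q : ℝ → M) (c : ℝ) (w : ℝ), q 0 = C.pt o → HasDerivAt (fun s => χ (q s)) c 0 →
      HasDerivAt (fun s => (inner ℝ p (vv (n := 0) v (q s)) : ℝ)) w 0 →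
      HasDerivAt (fun s => tst χ v p t h (q s)) ((1 / 2) * ((1 + u) * (rmd t h x * c) + w * rmp t h x +
        ((1 - u) * (rmd t h (-x) * c) + w * rmp t h (-x)))) 0 := by
    intro q c w h0 hc hw
    have e0 : (fun s => χ (q s)) 0 = x := by simp only [h0, hx]
    have e1 : (inner ℝ p (vv (n := 0) v (q 0)) : ℝ) = u := by rw [h0]; rfl
    have f1 : HasDerivAt (rmp t h) (rmd t h x) (χ (q 0)) := by
      rw [show χ (q 0) = x from e0]
      exact r1
    have f2 : HasDerivAt (rmp t h) (rmd t h (-x)) (-χ (q 0)) := by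
      rw [show χ (q 0) = x from e0]
      exact r2
    have hcn : HasDerivAt (fun s => -χ (q s)) (-c) 0 := hc.neg
    have d1 : HasDerivAt (fun s => rmp t h (χ (q s))) (rmd t h x * c) 0 :=
      HasDerivAt.comp (h₂ := rmp t h) (h := fun s => χ (q s)) (0 : ℝ) f1 hc
    have d2 : HasDerivAt (fun s => rmp t h (-χ (q s))) (rmd t h (-x) * -c) 0 :=
      HasDerivAt.comp (h₂ := rmp t h) (h := fun s => -χ (q s)) (0 : ℝ) f2 hcn
    have d3 := (((hw.const_add 1).mul d1).sub ((hw.const_sub 1).mul d2)).const_mul (1 / 2 : ℝ)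
    refine d3.congr_deriv ?_
    rw [e1, show χ (q 0) = x from e0]
    ring
  have g1 : C.gx (tst χ v p t h) o = (1 / 2) * ((1 + u) * (rmd t h x * C.gx χ o) +
      inner ℝ p (dx C v o) * rmp t h x + ((1 - u) * (rmd t h (-x) * C.gx χ o) +
        inner ℝ p (dx C v o) * rmp t h (-x))) := (key (C.px o) _ _ rfl a1.1 a2.1).deriv
  have g2 : C.gy (tst χ v p t h) o = (1 / 2) * ((1 + u) * (rmd t h x * C.gy χ o) +
      inner ℝ p (dy C v o) * rmp t h x + ((1 - u) * (rmd t h (-x) * C.gy χ o) +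
        inner ℝ p (dy C v o) * rmp t h (-x))) := (key (C.py o) _ _ (C.same o) a1.2 a2.2).deriv
  -- the sum of the ramps
  have g3 : rmp t h x + rmp t h (-x) = rmp t h |x| := by
    rcases le_total 0 x with h0 | h0
    · rw [abs_of_nonneg h0, rmp_zero (x := -x) hh (by linarith), add_zero]
    · rw [abs_of_nonpos h0, rmp_zero (x := x) hh (by linarith), zero_add]
  have g4 := jac_alg (p := p) (norm_at hv o) a6.1 a6.2
  rw [hp, one_pow, show (1 : ℝ) - inner ℝ (at' C v o) p ^ 2 = sq2 (at' C v o) p from rfl] at g4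
  have hW : inner ℝ p (wv C χ v o) = C.gx χ o * inner ℝ p (crs (at' C v o) (dy C v o)) -
      C.gy χ o * inner ℝ p (crs (at' C v o) (dx C v o)) := by
    unfold wv
    simp only [inner3, crs0, crs1, crs2, PiLp.sub_apply, PiLp.smul_apply, smul_eq_mul]
    ring
  have hu2 : inner ℝ (at' C v o) p = u := by rw [real_inner_comm]
  have hu3 : inner ℝ (-at' C v o) p = -u := by rw [inner_neg_left, hu2]
  have hsq : sq2 (at' C v o) p = (1 - u) * (1 + u) := by
    unfold sq2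
    rw [hu2]
    ring
  rw [hsq] at a5 g4
  have hu4 : 1 - u ≠ 0 := fun h => by rw [h, zero_mul] at a5; exact lt_irrefl _ a5
  have hu5 : 1 + u ≠ 0 := fun h => by rw [h, mul_zero] at a5; exact lt_irrefl _ a5
  unfold flx ker
  rw [hsq, hu2, hu3, ← hx, sub_neg_eq_add, ← g3, g1, g2, hW]
  rw [div_eq_iff (mul_ne_zero hu4 hu5)]
  set P : ℝ := inner ℝ p (crs (at' C v o) (dy C v o)) with hP
  set Q : ℝ := inner ℝ p (crs (at' C v o) (dx C v o)) with hQ
  set J : ℝ := inner ℝ (at' C v o) (crs (dy C v o) (dx C v o)) with hJ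
  have hJ2 : jac C v o = J := rfl
  rw [hJ2]
  have k1 : (C.gx χ o * P - C.gy χ o * Q) / (1 - u) * ((1 - u) * (1 + u)) =
      (C.gx χ o * P - C.gy χ o * Q) * (1 + u) := by
    field_simp
  have k2 : (C.gx χ o * P - C.gy χ o * Q) / (1 + u) * ((1 - u) * (1 + u)) =
      (C.gx χ o * P - C.gy χ o * Q) * (1 - u) := by
    field_simp
  linear_combination (1 / 2) * (rmp t h x + rmp t h (-x)) * g4 - (1 / 2) * rmd t h x * k1 -
    (1 / 2) * rmd t h (-x) * k2

end Pool.Agent.FPX
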