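import Mathlib
import Pool.Agent.FPX.IMG

/-
IMH (helper67): the sharp spherical isoperimetric inequality for the images of the level lines of an
odd function under an odd map into the two sphere (main theorem `img`).
-/

open MeasureTheory Set Filter Topology
open scoped ENNReal NNReal

noncomputable section

namespace Pool.Agent.FPX

open Pool.Agent.EWD

variable {M : Type} [MetricSpace M] {γ : ℝ → M}

theorem wn_meas (C : Calc M γ) {v : Fin 3 → M → ℝ} (hv : ∀ k, Lip (v k)) {χ : M → ℝ} (hχ : Lip χ) :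
    AEMeasurable (wn C χ v) C.μ := by
  obtain ⟨m1, m2, -⟩ := meas_dx C hv
  exact (((C.meas_gx hχ).smul m2).sub ((C.meas_gy hχ).smul m1)).norm

theorem wv_meas (C : Calc M γ) {v : Fin 3 → M → ℝ} (hv : ∀ k, Lip (v k)) {χ : M → ℝ} (hχ : Lip χ) :
    AEMeasurable (wv C χ v) C.μ := by
  obtain ⟨m1, m2, m0⟩ := meas_dx C hv
  exact crs_cont.measurable.comp_aemeasurable
    (m0.prodMk (((C.meas_gx hχ).smul m2).sub ((C.meas_gy hχ).smul m1)))

theorem wn_nonneg (C : Calc M γ) (χ : M → ℝ) (v : Fin 3 → M → ℝ) (o : Om) : 0 ≤ wn C χ v o :=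
  norm_nonneg _

theorem wn_le (C : Calc M γ) (χ : M → ℝ) (v : Fin 3 → M → ℝ) (o : Om) :
    wn C χ v o ≤ |C.gx χ o| * ‖dy C v o‖ + |C.gy χ o| * ‖dx C v o‖ := by
  unfold wn
  refine (norm_sub_le _ _).trans_eq ?_
  rw [norm_smul, norm_smul, Real.norm_eq_abs, Real.norm_eq_abs]

theorem wn_bd (C : Calc M γ) {v : Fin 3 → M → ℝ} (hv : ∀ k, Lip (v k)) {χ : M → ℝ} (hχ : Lip χ) :
    ∃ B : ℝ, ∀ᵐ o ∂C.μ, wn C χ v o ≤ B := by
  obtain ⟨⟨B1, b1⟩, ⟨B2, b2⟩⟩ := bdd_dx C hv
  obtain ⟨⟨B3, b3⟩, ⟨B4, b4⟩⟩ := bdd_grad C hχ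
  refine ⟨B3 * B2 + B4 * B1, ?_⟩
  filter_upwards [b1, b2, b3, b4] with o h1 h2 h3 h4
  refine (wn_le C χ v o).trans (add_le_add ?_ ?_)
  · exact mul_le_mul h3 h2 (norm_nonneg _) ((abs_nonneg _).trans h3)
  · exact mul_le_mul h4 h1 (norm_nonneg _) ((abs_nonneg _).trans h4)

theorem wn_int (C : Calc M γ) {v : Fin 3 → M → ℝ} (hv : ∀ k, Lip (v k)) {χ : M → ℝ} (hχ : Lip χ) :
    Integrable (wn C χ v) C.μ := by
  obtain ⟨B, hB⟩ := wn_bd C hv hχ
  refine C.integrable_of_bdd (wn_meas C hv hχ) (B := B) ?_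
  filter_upwards [hB] with o ho
  rwa [abs_of_nonneg (wn_nonneg C χ v o)]

theorem jac_integrable (C : Calc M γ) {v : Fin 3 → M → ℝ} (hv : Sph γ v) : Integrable (jac C v) C.μ := by
  obtain ⟨m1, m2, m0⟩ := meas_dx C hv.lip
  obtain ⟨⟨B1, b1⟩, ⟨B2, b2⟩⟩ := bdd_dx C hv.lip
  have hm : AEMeasurable (jac C v) C.μ :=
    m0.inner (crs_cont.measurable.comp_aemeasurable (m2.prodMk m1))
  refine C.integrable_of_bdd hm (B := B2 * B1) ?_
  filter_upwards [b1, b2] with o h1 h2
  unfold jac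
  refine (abs_real_inner_le_norm _ _).trans ?_
  rw [norm_at hv, one_mul]
  have hB1 : 0 ≤ B1 := (norm_nonneg _).trans h1
  have hB2 : 0 ≤ B2 := (norm_nonneg _).trans h2
  refine (abs_le_of_sq_le_sq' ?_ (by positivity)).2
  rw [norm_crs_sq, mul_pow]
  have h5 := mul_le_mul (pow_le_pow_left₀ (norm_nonneg _) h2 2)
    (pow_le_pow_left₀ (norm_nonneg _) h1 2) (by positivity) (by positivity)
  nlinarith [sq_nonneg (inner ℝ (dy C v o) (dx C v o) : ℝ)]

private theorem sq2_neg (v p : E3) : sq2 (-v) p = sq2 v p := by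
  unfold sq2
  rw [inner_neg_left, neg_sq]

/-- the kernel at one point -/
theorem ker_one (C : Calc M γ) {v : Fin 3 → M → ℝ} (hv : Sph γ v) (χ : M → ℝ) {t h : ℝ} (hh : 0 < h)
    {o : Om} (ho : inner ℝ (at' C v o) (wv C χ v o) = (0 : ℝ)) :
    Integrable (fun p => ker C χ v t h p o) PP ∧
    ∫ p, ‖ker C χ v t h p o‖ ∂PP ≤ (4 / h) * ‖wv C χ v o‖ * (Real.pi / 2) := by
  have hn := norm_at (C := C) hv o
  have hn' : ‖-at' C v o‖ = 1 := by rw [norm_neg, hn]
  have ho' : inner ℝ (-at' C v o) (wv C χ v o) = (0 : ℝ) := by rw [inner_neg_left, ho, neg_zero]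
  have i1 := bth_int hn ho
  have i2 := bth_int hn' ho'
  have hi : Integrable (fun p => ker C χ v t h p o) PP := (i1.const_mul _).add (i2.const_mul _)
  refine ⟨hi, ?_⟩
  have hb : ∀ᵐ p ∂PP, ‖ker C χ v t h p o‖ ≤ (4 / h) * ‖wv C χ v o‖ * (1 / √(sq2 (at' C v o) p)) := by
    filter_upwards [ae_norm, ae_sq2 (at' C v o) hn] with p hp hq
    have h1 := (bth_abs hn hp ho hq).2.2
    have h2 := (bth_abs hn' hp ho' (by rw [sq2_neg]; exact hq)).2.2
    rw [sq2_neg] at h2
    have h3 := rmd_nonneg (t := t) hh (χ (C.pt o))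
    have h4 := rmd_le (t := t) hh (χ (C.pt o))
    have h5 := rmd_nonneg (t := t) hh (-χ (C.pt o))
    have h6 := rmd_le (t := t) hh (-χ (C.pt o))
    unfold ker
    rw [Real.norm_eq_abs]
    refine (abs_add_le _ _).trans ?_
    rw [abs_mul, abs_mul, abs_of_nonneg h3, abs_of_nonneg h5]
    have h7 := mul_le_mul h4 h1 (abs_nonneg _) (by positivity)
    have h8 := mul_le_mul h6 h2 (abs_nonneg _) (by positivity)
    calc _ ≤ 1 / h * (2 * ‖wv C χ v o‖ * (1 / √(sq2 (at' C v o) p))) +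
          1 / h * (2 * ‖wv C χ v o‖ * (1 / √(sq2 (at' C v o) p))) := add_le_add h7 h8
      _ = _ := by ring
  refine (integral_mono_ae hi.norm ((int_inv hn).1.const_mul _) hb).trans_eq ?_
  rw [integral_const_mul, (int_inv hn).2]

theorem ker_int (C : Calc M γ) {v : Fin 3 → M → ℝ} (hv : Sph γ v) {χ : M → ℝ} (hχ : Lip χ) (t : ℝ) {h : ℝ}
    (hh : 0 < h) : Integrable (fun q : Om × E3 => ker C χ v t h q.2 q.1) (C.μ.prod PP) := by
  have := C.fin
  obtain ⟨m1, m2, m0⟩ := meas_dx C hv.lip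
  have mχ := C.meas_pt hχ
  have mw := wv_meas C hv.lip hχ
  have hm : AEMeasurable (fun q : Om × E3 => ker C χ v t h q.2 q.1) (C.μ.prod PP) := by
    have e1 : AEMeasurable (fun q : Om × E3 => rmd t h (χ (C.pt q.1))) (C.μ.prod PP) :=
      (rmd_meas t h).comp_aemeasurable mχ.comp_fst
    have e2 : AEMeasurable (fun q : Om × E3 => rmd t h (-χ (C.pt q.1))) (C.μ.prod PP) :=
      (rmd_meas t h).comp_aemeasurable mχ.comp_fst.neg
    have e3 : AEMeasurable (fun q : Om × E3 => (inner ℝ q.2 (wv C χ v q.1) : ℝ)) (C.μ.prod PP) :=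
      measurable_snd.aemeasurable.inner mw.comp_fst
    have e4 : AEMeasurable (fun q : Om × E3 => (inner ℝ (at' C v q.1) q.2 : ℝ)) (C.μ.prod PP) :=
      m0.comp_fst.inner measurable_snd.aemeasurable
    have e5 : AEMeasurable (fun q : Om × E3 => (inner ℝ (-at' C v q.1) q.2 : ℝ)) (C.μ.prod PP) := by
      simp_rw [inner_neg_left]
      exact e4.neg
    exact (e1.mul (e3.div (aemeasurable_const.sub e4))).add
      (e2.mul (e3.div (aemeasurable_const.sub e5)))
  rw [integrable_prod_iff hm.aestronglyMeasurable]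
  constructor
  · filter_upwards [ae_wv C hv χ] with o ho
    exact (ker_one C hv χ hh ho.1).1
  · obtain ⟨B, hB⟩ := wn_bd C hv.lip hχ
    refine (integrable_const ((4 / h) * B * (Real.pi / 2))).mono'
      hm.aestronglyMeasurable.norm.integral_prod_right' ?_
    filter_upwards [ae_wv C hv χ, hB] with o ho h1
    rw [Real.norm_eq_abs, abs_of_nonneg (integral_nonneg fun p => norm_nonneg _)]
    refine (ker_one C hv χ hh ho.1).2.trans ?_
    rw [ho.2]
    gcongr

/-- the averaged kernel on any set -/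
theorem ker_set (C : Calc M γ) {v : Fin 3 → M → ℝ} (hv : Sph γ v) {χ : M → ℝ} (hχ : Lip χ) (t : ℝ) {h : ℝ}
    (hh : 0 < h) (S : Set E3) : |∫ p in S, ∫ o, ker C χ v t h p o ∂C.μ ∂PP| ≤
      √(PP.real S * (1 - PP.real S)) *
        ∫ o, (rmd t h (χ (C.pt o)) + rmd t h (-χ (C.pt o))) * wn C χ v o ∂C.μ := by
  have := C.fin
  have hK := ker_int C hv hχ t hh
  have hKS : Integrable (fun q : Om × E3 => ker C χ v t h q.2 q.1) (C.μ.prod (PP.restrict S)) := by
    have e : C.μ.prod (PP.restrict S) = (C.μ.prod PP).restrict (univ ×ˢ S) := by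
      rw [← Measure.prod_restrict, Measure.restrict_univ]
    rw [e]
    exact hK.integrableOn
  have hsw : ∫ p in S, ∫ o, ker C χ v t h p o ∂C.μ ∂PP = ∫ o, ∫ p in S, ker C χ v t h p o ∂PP ∂C.μ :=
    (integral_integral_swap (f := fun o p => ker C χ v t h p o) hKS).symm
  rw [hsw, ← integral_const_mul, ← Real.norm_eq_abs]
  obtain ⟨B, hB⟩ := wn_bd C hv.lip hχ
  refine norm_integral_le_of_norm_le ?_ ?_
  · refine Integrable.const_mul ?_ _
    have hm : AEMeasurable (fun o => (rmd t h (χ (C.pt o)) + rmd t h (-χ (C.pt o))) * wn C χ v o) C.μ :=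
      (((rmd_meas t h).comp_aemeasurable (C.meas_pt hχ)).add
        ((rmd_meas t h).comp_aemeasurable (C.meas_pt hχ).neg)).mul (wn_meas C hv.lip hχ)
    refine C.integrable_of_bdd hm (B := (1 / h + 1 / h) * B) ?_
    filter_upwards [hB] with o ho
    have h3 := rmd_nonneg (t := t) hh (χ (C.pt o))
    have h4 := rmd_le (t := t) hh (χ (C.pt o))
    have h5 := rmd_nonneg (t := t) hh (-χ (C.pt o))
    have h6 := rmd_le (t := t) hh (-χ (C.pt o))
    have h7 := wn_nonneg C χ v o
    rw [abs_of_nonneg (by positivity)]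
    exact mul_le_mul (add_le_add h4 h6) ho h7 (by positivity)
  · filter_upwards [ae_wv C hv χ] with o ho
    have hn := norm_at (C := C) hv o
    have hn' : ‖-at' C v o‖ = 1 := by rw [norm_neg, hn]
    have ho' : inner ℝ (-at' C v o) (wv C χ v o) = (0 : ℝ) := by rw [inner_neg_left, ho.1, neg_zero]
    have hW : inner ℝ (at' C v o) (-wv C χ v o) = (0 : ℝ) := by rw [inner_neg_right, ho.1, neg_zero]
    have hW' : inner ℝ (-at' C v o) (-wv C χ v o) = (0 : ℝ) := by rw [inner_neg_right, ho', neg_zero]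
    have i1 := bth_int hn ho.1
    have i2 := bth_int hn' ho'
    have b1 := bathtub hn ho.1 S
    have b2 := bathtub hn' ho' S
    have b3 := bathtub hn hW S
    have b4 := bathtub hn' hW' S
    simp_rw [inner_neg_right, neg_div] at b3 b4
    rw [integral_neg, norm_neg] at b3 b4
    have h3 := rmd_nonneg (t := t) hh (χ (C.pt o))
    have h5 := rmd_nonneg (t := t) hh (-χ (C.pt o))
    have e : ∫ p in S, ker C χ v t h p o ∂PP =
        rmd t h (χ (C.pt o)) * (∫ p in S, inner ℝ p (wv C χ v o) / (1 - inner ℝ (at' C v o) p) ∂PP) +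
        rmd t h (-χ (C.pt o)) *
          (∫ p in S, inner ℝ p (wv C χ v o) / (1 - inner ℝ (-at' C v o) p) ∂PP) := by
      unfold ker
      rw [integral_add (i1.integrableOn.const_mul _) (i2.integrableOn.const_mul _),
        integral_const_mul, integral_const_mul]
    rw [e, Real.norm_eq_abs]
    rw [ho.2] at b1 b2 b3 b4
    set I1 := ∫ p in S, inner ℝ p (wv C χ v o) / (1 - inner ℝ (at' C v o) p) ∂PP with hI1
    set I2 := ∫ p in S, inner ℝ p (wv C χ v o) / (1 - inner ℝ (-at' C v o) p) ∂PP with hI2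
    set r := √(PP.real S * (1 - PP.real S)) with hr
    have a1 : |I1| ≤ wn C χ v o * r := abs_le.2 ⟨by linarith, b1⟩
    have a2 : |I2| ≤ wn C χ v o * r := abs_le.2 ⟨by linarith, b2⟩
    refine (abs_add_le _ _).trans ?_
    rw [abs_mul, abs_mul, abs_of_nonneg h3, abs_of_nonneg h5]
    calc _ ≤ rmd t h (χ (C.pt o)) * (wn C χ v o * r) + rmd t h (-χ (C.pt o)) * (wn C χ v o * r) :=
          add_le_add (mul_le_mul_of_nonneg_left a1 h3) (mul_le_mul_of_nonneg_left a2 h5)
      _ = _ := by ring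

/-- the normalised flux of the test function -/
def gg (C : Calc M γ) (χ : M → ℝ) (v : Fin 3 → M → ℝ) (t h : ℝ) (p : E3) : ℝ :=
  (1 / (4 * Real.pi)) * (∫ o, ker C χ v t h p o ∂C.μ + ∫ o, rmp t h |χ (C.pt o)| * jac C v o ∂C.μ)

theorem rj_int (C : Calc M γ) {v : Fin 3 → M → ℝ} (hv : Sph γ v) {χ : M → ℝ} (hχ : Lip χ) (t h : ℝ) :
    Integrable (fun o => rmp t h |χ (C.pt o)| * jac C v o) C.μ := by
  have hm : Measurable (rmp t h) := by
    unfold rmp
    fun_prop
  refine (jac_integrable C hv).bdd_mul (c := 1)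
    (hm.comp_aemeasurable (C.meas_pt hχ).abs).aestronglyMeasurable (Eventually.of_forall fun o => ?_)
  rw [Real.norm_eq_abs, abs_of_nonneg (rmp_nonneg _ _ _)]
  exact rmp_le _ _ _

theorem gg_int (C : Calc M γ) {v : Fin 3 → M → ℝ} (hv : Sph γ v) {χ : M → ℝ} (hχ : Lip χ) (t : ℝ) {h : ℝ}
    (hh : 0 < h) : Integrable (gg C χ v t h) PP := by
  have := C.fin
  exact ((ker_int C hv hχ t hh).integral_prod_right.add (integrable_const _)).const_mul _

theorem gg_eq [CompactSpace M] (C : Calc M γ) {v : Fin 3 → M → ℝ} (hv : Sph γ v) {χ : M → ℝ} (hχ : Lip χ)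
    {t h : ℝ} (hh : 0 < h) (ht : 0 < t) (h1 : ∀ᵐ o ∂C.μ, |χ (C.pt o)| ≠ t)
    (h2 : ∀ᵐ o ∂C.μ, |χ (C.pt o)| ≠ t + h) : ∀ᵐ p ∂PP,
      gg C χ v t h p = (1 / (2 * Real.pi)) * Flux C (tst χ v p t h) v p := by
  have := C.fin
  filter_upwards [ae_norm, ae_ae_sq2 C hv, (ker_int C hv hχ t hh).prod_left_ae] with p hp hq hk
  unfold gg Flux
  rw [integral_congr_ae (ae_flx_tst C hv hχ hh ht h1 h2 hp hq), integral_const_mul,
    integral_add hk (rj_int C hv hχ t h)]
  have hpi := Real.pi_ne_zero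
  field_simp
  ring

/-! ### limits -/

theorem rmp_lim {t : ℝ} {h : ℕ → ℝ} (hh : ∀ n, 0 < h n) (h0 : Tendsto h atTop (𝓝 0)) (x : ℝ) :
    Tendsto (fun n => rmp t (h n) x) atTop (𝓝 ((Ioi t).indicator (fun _ => (1 : ℝ)) x)) := by
  rcases le_or_gt x t with hx | hx
  · rw [indicator_of_notMem (show x ∉ Ioi t from not_lt.2 hx)]
    have e : (fun n => rmp t (h n) x) = fun _ => 0 := funext fun n => rmp_zero (hh n) hx
    rw [e]
    exact tendsto_const_nhds
  · rw [indicator_of_mem (show x ∈ Ioi t from hx)]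
    refine tendsto_const_nhds.congr' ?_
    filter_upwards [h0.eventually (gt_mem_nhds (sub_pos.2 hx))] with n hn
    exact (rmp_one (hh n) (by linarith)).symm

theorem good_seq (C : Calc M γ) {χ : M → ℝ} (hχ : Lip χ) (t : ℝ) : ∃ h : ℕ → ℝ, (∀ n, 0 < h n) ∧
    Tendsto h atTop (𝓝 0) ∧ ∀ n, ∀ᵐ o ∂C.μ, |χ (C.pt o)| ≠ t + h n := by
  have := C.fin
  have hc : Set.Countable {x : ℝ | 0 < C.μ {o | |χ (C.pt o)| = x}} :=
    Measure.countable_meas_level_set_pos₀ (C.meas_pt hχ).abs.nullMeasurable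
  have hd := hc.dense_compl ℝ
  have h1 : ∀ n : ℕ, ∃ x ∈ {x : ℝ | 0 < C.μ {o | |χ (C.pt o)| = x}}ᶜ, x ∈ Ioo t (t + 1 / (n + 1)) :=
    fun n => hd.exists_between (by
      have : (0 : ℝ) < 1 / (n + 1) := by positivity
      linarith)
  choose x hx hx2 using h1
  refine ⟨fun n => x n - t, fun n => by linarith [(hx2 n).1], ?_, ?_⟩
  · refine squeeze_zero (fun n => by linarith [(hx2 n).1]) (fun n => ?_)
      tendsto_one_div_add_atTop_nhds_zero_nat
    linarith [(hx2 n).2]
  · intro n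
    have h2 : C.μ {o | |χ (C.pt o)| = x n} = 0 := by
      have h3 := hx n
      simp only [mem_compl_iff, mem_ofPred_eq, not_lt, nonpos_iff_eq_zero] at h3
      exact h3
    have h3 := measure_eq_zero_iff_ae_notMem.1 h2
    filter_upwards [h3] with o ho
    intro h4
    refine ho ?_
    rw [h4]
    ring

/-- pointwise limit of the normalised fluxes: an integer -/
theorem gg_lim [CompactSpace M] (C : Calc M γ) (hγ : Bd γ) (hR : RegAE C) {v : Fin 3 → M → ℝ}
    (hv : Sph γ v) {χ : M → ℝ} (hχ : Lip χ) (oχ : OddB γ χ) {t : ℝ} (ht : 0 < t)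
    (h1 : ∀ᵐ o ∂C.μ, |χ (C.pt o)| ≠ t) {h : ℕ → ℝ} (hh : ∀ n, 0 < h n) (h0 : Tendsto h atTop (𝓝 0))
    (h2 : ∀ n, ∀ᵐ o ∂C.μ, |χ (C.pt o)| ≠ t + h n) : ∃ B : E3 → ℝ, Integrable B PP ∧
      ∀ᵐ p ∂PP, (∃ m : ℤ, Tendsto (fun n => gg C χ v t (h n) p) atTop (𝓝 (m : ℝ))) ∧
        ∀ n, |gg C χ v t (h n) p| ≤ B p := by
  obtain ⟨B, hB, hBp⟩ := card_bd C hv
  refine ⟨B, hB, ?_⟩
  have hgg : ∀ᵐ p ∂PP, ∀ n, gg C χ v t (h n) p =
      (1 / (2 * Real.pi)) * Flux C (tst χ v p t (h n)) v p :=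
    ae_all_iff.2 fun n => gg_eq C hv hχ (hh n) ht h1 (h2 n)
  filter_upwards [ae_norm, ae_int_rot C hv, hR v hv, hBp, hgg] with p hp hi hr hb hg
  obtain ⟨Z, s, hs, hz, hf, hl⟩ := flux_eq_z C hγ hv hp hi hr
  have hc := hb Z.card hl
  have hpi := Real.pi_ne_zero
  have e : ∀ n, gg C χ v t (h n) p = - ∑ z ∈ Z, s z * tst χ v p t (h n) z := by
    intro n
    rw [hg n, hf _ (tst_lip hχ hv.lip p t (hh n)) (tst_odd oχ hv p t (h n))]
    field_simp
  refine ⟨?_, ?_⟩
  · set T : M → ℝ := fun z => (1 / 2) * ((1 + inner ℝ p (vv (n := 0) v z)) *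
      (Ioi t).indicator (fun _ => (1 : ℝ)) (χ z) - (1 - inner ℝ p (vv (n := 0) v z)) *
      (Ioi t).indicator (fun _ => (1 : ℝ)) (-χ z)) with hT
    have hlim : Tendsto (fun n => gg C χ v t (h n) p) atTop (𝓝 (- ∑ z ∈ Z, s z * T z)) := by
      simp_rw [e]
      refine (tendsto_finsetSum Z fun z _ => ?_).neg
      refine Tendsto.const_mul _ (Tendsto.const_mul _ ?_)
      exact ((rmp_lim hh h0 (χ z)).const_mul _).sub ((rmp_lim hh h0 (-χ z)).const_mul _)
    have hint : ∀ z ∈ Z, ∃ k : ℤ, s z * T z = k := by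
      intro z hzz
      have i1 : ∀ y : ℝ, (Ioi t).indicator (fun _ => (1 : ℝ)) y = 0 ∨
          (Ioi t).indicator (fun _ => (1 : ℝ)) y = 1 := by
        intro y
        by_cases hy : y ∈ Ioi t
        · right; exact indicator_of_mem hy _
        · left; exact indicator_of_notMem hy _
      simp only [hT]
      rcases hs z hzz with a1 | a1 <;> rcases hz z hzz with a2 | a2 <;>
        rcases i1 (χ z) with a3 | a3 <;> rcases i1 (-χ z) with a4 | a4 <;> rw [a1, a2, a3, a4]
      all_goals first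
        | (refine ⟨0, ?_⟩; push_cast; norm_num; done)
        | (refine ⟨1, ?_⟩; push_cast; norm_num; done)
        | (refine ⟨-1, ?_⟩; push_cast; norm_num; done)
    choose! k hk using hint
    refine ⟨-∑ z ∈ Z, k z, ?_⟩
    have e2 : ((-∑ z ∈ Z, k z : ℤ) : ℝ) = - ∑ z ∈ Z, s z * T z := by
      push_cast
      rw [Finset.sum_congr rfl hk]
    rw [e2]
    exact hlim
  · intro n
    rw [e n, abs_neg]
    refine le_trans ?_ hc
    refine (Finset.abs_sum_le_sum_abs _ _).trans ?_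
    refine (Finset.sum_le_card_nsmul Z _ 1 fun z hzz => ?_).trans_eq (by rw [nsmul_eq_mul, mul_one])
    rw [abs_mul]
    have h3 : |s z| = 1 := by
      rcases hs z hzz with h | h <;> rw [h] <;> norm_num
    rw [h3, one_mul]
    exact tst_abs hv hp t (h n) z

private theorem img_alg {a e I V : ℝ} (h1 : e ≤ I) (h2 : a ≤ I)
    (h3 : I ≤ a * e + 1 / (4 * Real.pi) * (√(e * (1 - e)) * V)) (he0 : 0 ≤ e) (he1 : e ≤ 1) :
    (4 * Real.pi * a) * (4 * Real.pi - 4 * Real.pi * a) ≤ V ^ 2 := by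
  have hpi := Real.pi_pos
  set w : ℝ := V / (4 * Real.pi) with hw
  have hV : V = 4 * Real.pi * w := by
    rw [hw]
    field_simp
  have h4 : 1 / (4 * Real.pi) * (√(e * (1 - e)) * V) = √(e * (1 - e)) * w := by
    rw [hw]
    field_simp
  rw [h4] at h3
  have key : a * (1 - a) ≤ w ^ 2 := by
    rcases le_or_gt a 0 with ha | ha
    · nlinarith [sq_nonneg w]
    rcases le_or_gt 1 a with ha1 | ha1
    · nlinarith [sq_nonneg w]
    rcases he0.eq_or_lt with he | he
    · rw [← he] at h3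
      simp at h3
      linarith
    rcases he1.eq_or_lt with he' | he'
    · rw [he'] at h3 h1
      simp at h3
      linarith
    have hr : 0 < e * (1 - e) := by nlinarith
    set r : ℝ := √(e * (1 - e)) with hrd
    have hr2 : r ^ 2 = e * (1 - e) := Real.sq_sqrt hr.le
    have hr0 : 0 < r := Real.sqrt_pos.2 hr
    rcases le_total a e with hae | hae
    · -- `e (1 - a) ≤ r w`
      have k1 : e * (1 - a) ≤ r * w := by nlinarith
      have k0 : 0 ≤ e * (1 - a) := by nlinarith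
      have k2 : (e * (1 - a)) ^ 2 ≤ e * (1 - e) * w ^ 2 := by
        rw [← hr2, ← mul_pow]
        exact pow_le_pow_left₀ k0 k1 2
      have k3 : e * (1 - a) ^ 2 ≤ (1 - e) * w ^ 2 := by
        have : e * (e * (1 - a) ^ 2) ≤ e * ((1 - e) * w ^ 2) := by nlinarith
        exact le_of_mul_le_mul_left this he
      have k4 : a * (1 - a) ^ 2 ≤ (1 - a) * w ^ 2 := by
        have k5 : a * (1 - a) ^ 2 ≤ e * (1 - a) ^ 2 := mul_le_mul_of_nonneg_right hae (sq_nonneg _)
        have k6 : (1 - e) * w ^ 2 ≤ (1 - a) * w ^ 2 :=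
          mul_le_mul_of_nonneg_right (by linarith) (sq_nonneg _)
        linarith
      have k7 : (1 - a) * (a * (1 - a)) ≤ (1 - a) * w ^ 2 := by nlinarith
      exact le_of_mul_le_mul_left k7 (by linarith)
    · have k1 : a * (1 - e) ≤ r * w := by nlinarith
      have k0 : 0 ≤ a * (1 - e) := by nlinarith
      have k2 : (a * (1 - e)) ^ 2 ≤ e * (1 - e) * w ^ 2 := by
        rw [← hr2, ← mul_pow]
        exact pow_le_pow_left₀ k0 k1 2
      have k3 : a ^ 2 * (1 - e) ≤ e * w ^ 2 := by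
        have : (1 - e) * (a ^ 2 * (1 - e)) ≤ (1 - e) * (e * w ^ 2) := by nlinarith
        exact le_of_mul_le_mul_left this (by linarith)
      have k4 : a * (a * (1 - e)) ≤ a * w ^ 2 := by
        have := mul_le_mul_of_nonneg_right hae (sq_nonneg w)
        nlinarith
      have k5 : a * (1 - e) ≤ w ^ 2 := le_of_mul_le_mul_left k4 ha
      nlinarith
  rw [hV]
  have h5 : (4 * Real.pi) ^ 2 * (a * (1 - a)) ≤ (4 * Real.pi) ^ 2 * w ^ 2 :=
    mul_le_mul_of_nonneg_left key (by positivity)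
  nlinarith

theorem lip_absf {u : M → ℝ} (hu : Lip u) : Lip fun x => |u x| := by
  have h : Lip fun x => max (u x) (-u x) := hu.max hu.neg
  exact h

theorem levw_mono (C : Calc M γ) {v : Fin 3 → M → ℝ} (hv : ∀ k, Lip (v k)) {χ : M → ℝ} (hχ : Lip χ) :
    Monotone (levw C χ v) :=
  set_mono C (g := fun x => |χ x|) (wn_int C hv hχ) (wn_nonneg C χ v)

/-- the mass of the kernel is at most a difference quotient -/
theorem mass_le (C : Calc M γ) {v : Fin 3 → M → ℝ} (hv : ∀ k, Lip (v k)) {χ : M → ℝ} (hχ : Lip χ)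
    {t h : ℝ} (hh : 0 < h) (ht : 0 < t) :
    ∫ o, (rmd t h (χ (C.pt o)) + rmd t h (-χ (C.pt o))) * wn C χ v o ∂C.μ ≤
      h⁻¹ * (levw C χ v (t + h) - levw C χ v t) := by
  have := C.fin
  have hla := lip_absf hχ
  have hwi := wn_int C hv hχ
  have hD : NullMeasurableSet {o | t ≤ |χ (C.pt o)| ∧ |χ (C.pt o)| < t + h} C.μ :=
    (nullMeasurableSet_le aemeasurable_const (C.meas_pt hla)).inter
      (nullMeasurableSet_lt (C.meas_pt hla) aemeasurable_const)
  have e := set_sub C (g := fun x => |χ x|) hla hwi (s := t) (t := t + h) (by linarith)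
  have e2 : levw C χ v (t + h) - levw C χ v t =
      ∫ o in {o | t ≤ |χ (C.pt o)| ∧ |χ (C.pt o)| < t + h}, wn C χ v o ∂C.μ := e
  rw [e2, ← integral_const_mul, ← integral_indicator₀ hD]
  refine integral_mono_of_nonneg (Eventually.of_forall fun o => ?_)
    ((hwi.const_mul _).indicator₀ hD) (Eventually.of_forall fun o => ?_)
  · exact mul_nonneg (add_nonneg (rmd_nonneg hh _) (rmd_nonneg hh _)) (wn_nonneg C χ v o)
  · simp only
    have hw := wn_nonneg C χ v o
    set x : ℝ := χ (C.pt o) with hx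
    by_cases h1 : t ≤ |x| ∧ |x| < t + h
    · rw [indicator_of_mem (show o ∈ {o | t ≤ |χ (C.pt o)| ∧ |χ (C.pt o)| < t + h} from h1)]
      refine mul_le_mul_of_nonneg_right ?_ hw
      rw [← one_div]
      unfold rmd
      rcases le_total 0 x with h0 | h0
      · rw [indicator_of_notMem (show -x ∉ Ioo t (t + h) from fun h' => by linarith [h'.1]), add_zero]
        exact indicator_le_self' (fun _ _ => by positivity) _
      · rw [indicator_of_notMem (show x ∉ Ioo t (t + h) from fun h' => by linarith [h'.1]), zero_add]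
        exact indicator_le_self' (fun _ _ => by positivity) _
    · rw [indicator_of_notMem (show o ∉ {o | t ≤ |χ (C.pt o)| ∧ |χ (C.pt o)| < t + h} from h1)]
      have h2 : x ∉ Ioo t (t + h) := fun h' => h1 (by
        rw [abs_of_pos (by linarith [h'.1])]
        exact ⟨h'.1.le, h'.2⟩)
      have h3 : -x ∉ Ioo t (t + h) := fun h' => h1 (by
        rw [← abs_neg, abs_of_pos (by linarith [h'.1])]
        exact ⟨h'.1.le, h'.2⟩)
      unfold rmd
      rw [indicator_of_notMem h2, indicator_of_notMem h3]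
      simp

/-- the inequality at one level -/
theorem img_at [CompactSpace M] (C : Calc M γ) (hγ : Bd γ) (hR : RegAE C) {v : Fin 3 → M → ℝ}
    (hv : Sph γ v) {χ : M → ℝ} (hχ : Lip χ) (oχ : OddB γ χ) {t : ℝ} (ht : 0 < t)
    (h1 : ∀ᵐ o ∂C.μ, |χ (C.pt o)| ≠ t) (hd : DifferentiableAt ℝ (levw C χ v) t) :
    supj C χ v t * (4 * Real.pi - supj C χ v t) ≤ deriv (levw C χ v) t ^ 2 := by
  have := C.fin
  have hpi := Real.pi_pos
  obtain ⟨h, hh, h0, h2⟩ := good_seq C hχ t
  obtain ⟨B, hB, hlim⟩ := gg_lim C hγ hR hv hχ oχ ht h1 hh h0 h2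
  have hgi : ∀ n, Integrable (gg C χ v t (h n)) PP := fun n => gg_int C hv hχ t (hh n)
  obtain ⟨f, hfm, hf⟩ := measurable_limit_of_tendsto_metrizable_ae (μ := PP)
    (f := fun n p => gg C χ v t (h n) p) (L := atTop) (fun n => (hgi n).aemeasurable) (by
      filter_upwards [hlim] with p hp
      obtain ⟨m, hm⟩ := hp.1
      exact ⟨m, hm⟩)
  -- the values of the limit are integers
  have hfz : ∀ᵐ p ∂PP, ∃ m : ℤ, f p = m := by
    filter_upwards [hlim, hf] with p hp1 hp2
    obtain ⟨m, hm⟩ := hp1.1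
    exact ⟨m, tendsto_nhds_unique hp2 hm⟩
  have hfB : ∀ᵐ p ∂PP, |f p| ≤ B p := by
    filter_upwards [hlim, hf] with p hp1 hp2
    exact le_of_tendsto' hp2.abs hp1.2
  have hfi : Integrable f PP := hB.mono' hfm.aestronglyMeasurable (by
    filter_upwards [hfB] with p hp
    rwa [Real.norm_eq_abs])
  -- the averages
  set A : ℕ → ℝ := fun n => (1 / (4 * Real.pi)) * ∫ o, rmp t (h n) |χ (C.pt o)| * jac C v o ∂C.μ with hA
  set V : ℕ → ℝ := fun n => ∫ o, (rmd t (h n) (χ (C.pt o)) + rmd t (h n) (-χ (C.pt o))) *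
    wn C χ v o ∂C.μ with hVd
  have hS : ∀ (S : Set E3) (n : ℕ), |∫ p in S, gg C χ v t (h n) p ∂PP - A n * PP.real S| ≤
      1 / (4 * Real.pi) * (√(PP.real S * (1 - PP.real S)) * V n) := by
    intro S n
    have hk := (ker_int C hv hχ t (hh n)).integral_prod_right
    have e : ∫ p in S, gg C χ v t (h n) p ∂PP = 1 / (4 * Real.pi) *
        (∫ p in S, ∫ o, ker C χ v t (h n) p o ∂C.μ ∂PP) + A n * PP.real S := by
      unfold gg
      rw [integral_const_mul, integral_add hk.integrableOn (integrable_const _).integrableOn,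
        setIntegral_const, smul_eq_mul]
      simp only [hA]
      ring
    rw [e, add_sub_cancel_right, abs_mul, abs_of_pos (by positivity : 0 < 1 / (4 * Real.pi))]
    exact mul_le_mul_of_nonneg_left (ker_set C hv hχ t (hh n) S) (by positivity)
  -- limits
  have hmS : ∀ S : Set E3, Tendsto (fun n => ∫ p in S, gg C χ v t (h n) p ∂PP) atTop
      (𝓝 (∫ p in S, f p ∂PP)) := by
    intro S
    refine tendsto_integral_of_dominated_convergence B (fun n => (hgi n).aestronglyMeasurable.restrict)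
      hB.integrableOn (fun n => ae_restrict_of_ae ?_) (ae_restrict_of_ae hf)
    filter_upwards [hlim] with p hp
    rw [Real.norm_eq_abs]
    exact hp.2 n
  set a : ℝ := (1 / (4 * Real.pi)) * supj C χ v t with ha
  have hAa : Tendsto A atTop (𝓝 a) := by
    refine Tendsto.const_mul _ ?_
    have hja := jac_integrable C hv
    have hD : NullMeasurableSet {o | t < |χ (C.pt o)|} C.μ :=
      nullMeasurableSet_lt aemeasurable_const (C.meas_pt (lip_absf hχ))
    have e : supj C χ v t = ∫ o, (Ioi t).indicator (fun _ => (1 : ℝ)) |χ (C.pt o)| * jac C v o ∂C.μ := by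
      unfold supj
      rw [← integral_indicator₀ hD]
      refine integral_congr_ae (Eventually.of_forall fun o => ?_)
      simp only
      by_cases h3 : t < |χ (C.pt o)|
      · rw [indicator_of_mem (show o ∈ {o | t < |χ (C.pt o)|} from h3),
          indicator_of_mem (show |χ (C.pt o)| ∈ Ioi t from h3), one_mul]
      · rw [indicator_of_notMem (show o ∉ {o | t < |χ (C.pt o)|} from h3),
          indicator_of_notMem (show |χ (C.pt o)| ∉ Ioi t from h3), zero_mul]
    rw [e]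
    refine tendsto_integral_of_dominated_convergence (fun o => |jac C v o|)
      (fun n => (rj_int C hv hχ t (h n)).aestronglyMeasurable) hja.abs
      (fun n => Eventually.of_forall fun o => ?_) (Eventually.of_forall fun o => ?_)
    · rw [Real.norm_eq_abs, abs_mul, abs_of_nonneg (rmp_nonneg _ _ _)]
      exact mul_le_of_le_one_left (abs_nonneg _) (rmp_le _ _ _)
    · exact (rmp_lim hh h0 _).mul_const _
  have hVl : ∀ n, V n ≤ (h n)⁻¹ * (levw C χ v (t + h n) - levw C χ v t) := fun n =>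
    mass_le C hv.lip hχ (hh n) ht
  have hslope : Tendsto (fun n => (h n)⁻¹ * (levw C χ v (t + h n) - levw C χ v t)) atTop
      (𝓝 (deriv (levw C χ v) t)) := by
    have h3 := hasDerivAt_iff_tendsto_slope_zero.1 hd.hasDerivAt
    have h4 : Tendsto h atTop (𝓝[≠] 0) := by
      rw [tendsto_nhdsWithin_iff]
      exact ⟨h0, Eventually.of_forall fun n => (hh n).ne'⟩
    exact h3.comp h4
  have hSl : ∀ S : Set E3, |∫ p in S, f p ∂PP - a * PP.real S| ≤
      1 / (4 * Real.pi) * (√(PP.real S * (1 - PP.real S)) * deriv (levw C χ v) t) := by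
    intro S
    have l1 : Tendsto (fun n => |∫ p in S, gg C χ v t (h n) p ∂PP - A n * PP.real S|) atTop
        (𝓝 |∫ p in S, f p ∂PP - a * PP.real S|) := ((hmS S).sub (hAa.mul_const _)).abs
    have l2 : Tendsto (fun n => 1 / (4 * Real.pi) * (√(PP.real S * (1 - PP.real S)) *
        ((h n)⁻¹ * (levw C χ v (t + h n) - levw C χ v t)))) atTop
        (𝓝 (1 / (4 * Real.pi) * (√(PP.real S * (1 - PP.real S)) * deriv (levw C χ v) t))) :=
      (hslope.const_mul _).const_mul _
    refine le_of_tendsto_of_tendsto' l1 l2 fun n => (hS S n).trans ?_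
    gcongr
    exact hVl n
  -- the total integral
  have htot : ∫ p, f p ∂PP = a := by
    have h3 := hSl univ
    rw [probReal_univ, sub_self, mul_zero, Real.sqrt_zero, zero_mul, mul_zero,
      Measure.restrict_univ, mul_one] at h3
    have h4 := abs_nonpos_iff.1 h3
    linarith
  -- the superlevel set
  set E : Set E3 := {p | 1 ≤ f p} with hE
  have hEm : MeasurableSet E := measurableSet_le measurable_const hfm
  have hE1 : PP.real E ≤ ∫ p in E, f p ∂PP := by
    have h3 : ∫ p in E, (1 : ℝ) ∂PP ≤ ∫ p in E, f p ∂PP :=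
      setIntegral_mono_on (integrable_const _).integrableOn hfi.integrableOn hEm fun p hp => hp
    rwa [setIntegral_const, smul_eq_mul, mul_one] at h3
  have hE2 : a ≤ ∫ p in E, f p ∂PP := by
    have h3 := integral_add_compl hEm hfi
    have h4 : ∫ p in Eᶜ, f p ∂PP ≤ 0 := by
      refine integral_nonpos_of_ae ?_
      filter_upwards [ae_restrict_mem hEm.compl, ae_restrict_of_ae hfz] with p hp1 hp2
      obtain ⟨m, hm⟩ := hp2
      have h5 : ¬ (1 : ℝ) ≤ m := by
        rw [← hm]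
        exact hp1
      have h6 : m < 1 := by
        by_contra h7
        exact h5 (by exact_mod_cast not_lt.1 h7)
      change f p ≤ 0
      rw [hm]
      have h7 : m ≤ 0 := by omega
      exact_mod_cast h7
    rw [htot] at h3
    linarith
  have hE3 := (abs_le.1 (hSl E)).2
  have hfin := img_alg (V := deriv (levw C χ v) t) hE1 hE2 (by linarith) measureReal_nonneg
    measureReal_le_one
  have e1 : 4 * Real.pi * a = supj C χ v t := by
    rw [ha]
    field_simp
  rw [e1] at hfin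
  exact hfin

/-- **Sharp spherical isoperimetry of the images of level lines.** -/
theorem img [CompactSpace M] (C : Calc M γ) (hγ : Bd γ) (hR : RegAE C) {v : Fin 3 → M → ℝ}
    (hv : Sph γ v) {χ : M → ℝ} (hχ : Lip χ) (oχ : OddB γ χ) : ∀ᵐ t : ℝ, 0 < t →
      DifferentiableAt ℝ (levw C χ v) t ∧
      supj C χ v t * (4 * Real.pi - supj C χ v t) ≤ deriv (levw C χ v) t ^ 2 := by
  have := C.fin
  have hc : Set.Countable {x : ℝ | 0 < C.μ {o | |χ (C.pt o)| = x}} :=
    Measure.countable_meas_level_set_pos₀ (C.meas_pt hχ).abs.nullMeasurable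
  filter_upwards [(levw_mono C hv.lip hχ).ae_differentiableAt, hc.ae_notMem volume] with t h1 h2 h3
  refine ⟨h1, img_at C hγ hR hv hχ oχ h3 ?_ h1⟩
  have h4 : C.μ {o | |χ (C.pt o)| = t} = 0 := by
    simp only [not_lt, nonpos_iff_eq_zero] at h2
    exact h2
  exact measure_eq_zero_iff_ae_notMem.1 h4

end Pool.Agent.FPX
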