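import Mathlib
import Pool.Agent.FPX.INT

/-
KGM (helper69): the exact algebra of the quadratic form for `Θ = R v - g F`, for all angles between
`v` and `F`. `ptr` is the parallel transport from the tangent plane at `F` to the tangent plane at
`v`.
-/

open MeasureTheory Set Filter Topology
open scoped ENNReal NNReal

noncomputable section

namespace Pool.Agent.FPX

open Pool.Agent.EWD

/-- the cross product expansion -/
theorem det_id (a b c d : E3) : (inner ℝ a (crs b c) : ℝ) • d =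
    (inner ℝ d a : ℝ) • crs b c + (inner ℝ d b : ℝ) • crs c a + (inner ℝ d c : ℝ) • crs a b := by
  ext i
  simp only [inner3, crs0, crs1, crs2, PiLp.add_apply, PiLp.smul_apply, smul_eq_mul]
  fin_cases i
  · change (a 0 * (b 1 * c 2 - b 2 * c 1) + a 1 * (b 2 * c 0 - b 0 * c 2)
        + a 2 * (b 0 * c 1 - b 1 * c 0)) * d 0
      = (d 0 * a 0 + d 1 * a 1 + d 2 * a 2) * (b 1 * c 2 - b 2 * c 1)
        + (d 0 * b 0 + d 1 * b 1 + d 2 * b 2) * (c 1 * a 2 - c 2 * a 1)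
        + (d 0 * c 0 + d 1 * c 1 + d 2 * c 2) * (a 1 * b 2 - a 2 * b 1)
    ring
  · change (a 0 * (b 1 * c 2 - b 2 * c 1) + a 1 * (b 2 * c 0 - b 0 * c 2)
        + a 2 * (b 0 * c 1 - b 1 * c 0)) * d 1
      = (d 0 * a 0 + d 1 * a 1 + d 2 * a 2) * (b 2 * c 0 - b 0 * c 2)
        + (d 0 * b 0 + d 1 * b 1 + d 2 * b 2) * (c 2 * a 0 - c 0 * a 2)
        + (d 0 * c 0 + d 1 * c 1 + d 2 * c 2) * (a 2 * b 0 - a 0 * b 2)
    ring
  · change (a 0 * (b 1 * c 2 - b 2 * c 1) + a 1 * (b 2 * c 0 - b 0 * c 2)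
        + a 2 * (b 0 * c 1 - b 1 * c 0)) * d 2
      = (d 0 * a 0 + d 1 * a 1 + d 2 * a 2) * (b 0 * c 1 - b 1 * c 0)
        + (d 0 * b 0 + d 1 * b 1 + d 2 * b 2) * (c 0 * a 1 - c 1 * a 0)
        + (d 0 * c 0 + d 1 * c 1 + d 2 * c 2) * (a 0 * b 1 - a 1 * b 0)
    ring

theorem crs_anti (a b : E3) : crs a b = -crs b a := by
  ext i
  rw [PiLp.neg_apply]
  fin_cases i
  · change a 1 * b 2 - a 2 * b 1 = -(b 1 * a 2 - b 2 * a 1)
    ring
  · change a 2 * b 0 - a 0 * b 2 = -(b 2 * a 0 - b 0 * a 2)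
    ring
  · change a 0 * b 1 - a 1 * b 0 = -(b 0 * a 1 - b 1 * a 0)
    ring

/-- the key identity: moving the cross product from `v` to `F` -/
theorem crs_move {v F c : E3} (hv : ‖v‖ = 1) (hF : ‖F‖ = 1) (hc : inner ℝ F c = (0 : ℝ)) :
    (inner ℝ v (crs F c) : ℝ) • (v + F) =
      (1 + inner ℝ v F : ℝ) • (crs F c - crs v c) + (inner ℝ v c : ℝ) • crs v F := by
  have h1 := det_id v F c v
  have h2 := det_id v F c F
  rw [inner_self_one hv] at h1
  rw [inner_self_one hF, hc, real_inner_comm v F] at h2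
  rw [smul_add, h1, h2, crs_anti c v]
  module

/-- parallel transport from the plane orthogonal to `F` to the plane orthogonal to `v` -/
def ptr (v F x : E3) : E3 := x - (inner ℝ v x / (1 + inner ℝ v F) : ℝ) • (v + F)

section
variable {v F : E3}

theorem ptr_perp (hv : ‖v‖ = 1) (hz : 0 < 1 + (inner ℝ v F : ℝ)) (x : E3) :
    inner ℝ v (ptr v F x) = (0 : ℝ) := by
  unfold ptr
  rw [inner_sub_right, inner_smul_right, inner_add_right, inner_self_one hv]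
  field_simp
  ring

theorem ptr_norm (hv : ‖v‖ = 1) (hF : ‖F‖ = 1) (hz : 0 < 1 + (inner ℝ v F : ℝ)) {x : E3}
    (hx : inner ℝ F x = (0 : ℝ)) : ‖ptr v F x‖ = ‖x‖ := by
  have h1 : ‖ptr v F x‖ ^ 2 = ‖x‖ ^ 2 := by
    unfold ptr
    rw [norm_sub_sq_real, norm_smul, mul_pow, norm_add_sq_real, inner_smul_right, inner_add_right,
      real_inner_comm v x, real_inner_comm F x, hx, hv, hF, Real.norm_eq_abs, sq_abs]
    field_simp
    ring
  exact (pow_left_inj₀ (norm_nonneg _) (norm_nonneg _) two_ne_zero).1 h1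

theorem ptr_add (x y : E3) : ptr v F (x + y) = ptr v F x + ptr v F y := by
  unfold ptr
  rw [inner_add_right, add_div]
  module

theorem ptr_sub (x y : E3) : ptr v F (x - y) = ptr v F x - ptr v F y := by
  unfold ptr
  rw [inner_sub_right, sub_div]
  module

theorem ptr_smul (c : ℝ) (x : E3) : ptr v F (c • x) = c • ptr v F x := by
  unfold ptr
  rw [inner_smul_right, mul_div_assoc]
  module

/-- parallel transport commutes with the rotation -/
theorem ptr_crs (hv : ‖v‖ = 1) (hF : ‖F‖ = 1) (hz : 0 < 1 + (inner ℝ v F : ℝ)) {x : E3}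
    (hx : inner ℝ F x = (0 : ℝ)) : crs v (ptr v F x) = ptr v F (crs F x) := by
  have h := crs_move hv hF hx
  have h1 : crs v (v + F) = crs v F := by rw [crs_add, crs_self, zero_add]
  have e : ptr v F (crs F x) = crs F x - (1 / (1 + inner ℝ v F) : ℝ) • ((inner ℝ v (crs F x) : ℝ) • (v + F)) := by
    unfold ptr
    rw [smul_smul]
    congr 2
    ring
  rw [e, h]
  unfold ptr
  rw [crs_sub, crs_smul, h1, smul_add, smul_smul, smul_smul]
  have e2 : (1 / (1 + inner ℝ v F) * (1 + inner ℝ v F) : ℝ) = 1 := by field_simp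
  rw [e2]
  have e3 : (1 / (1 + inner ℝ v F) * inner ℝ v x : ℝ) = inner ℝ v x / (1 + inner ℝ v F) := by ring
  rw [e3]
  module

/-- the derivative of `g F` seen from `v`: tangential component -/
theorem prj_S (hz : 0 < 1 + (inner ℝ v F : ℝ)) (g gx : ℝ) (fa : E3) :
    prj v (gx • F + g • fa) = g • ptr v F fa
      + (((1 + inner ℝ v F) * gx + g * inner ℝ v fa) / (1 + inner ℝ v F) : ℝ) • prj v F := by
  unfold prj ptr
  rw [inner_add_right, inner_smul_right, inner_smul_right, add_div, mul_div_assoc g,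
    mul_div_cancel_left₀ _ hz.ne']
  set z : ℝ := inner ℝ v F
  set α : ℝ := inner ℝ v fa
  have e : α = α / (1 + z) * (1 + z) := by field_simp
  have e2 : (gx * z + g * α : ℝ) • v = (gx * z + g * (α / (1 + z) * (1 + z))) • v := by rw [← e]
  rw [e2]
  module

/-- the derivative of `g F` seen from `v`: rotated tangential component -/
theorem crs_S (hv : ‖v‖ = 1) (hF : ‖F‖ = 1) (hz : 0 < 1 + (inner ℝ v F : ℝ)) (g gy : ℝ) {fb : E3}
    (hb : inner ℝ F fb = (0 : ℝ)) :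
    crs v (gy • F + g • fb) = g • ptr v F (crs F fb)
      + (((1 + inner ℝ v F) * gy + g * inner ℝ v fb) / (1 + inner ℝ v F) : ℝ) • crs v F := by
  rw [← ptr_crs hv hF hz hb, crs_add, crs_smul, crs_smul]
  unfold ptr
  rw [crs_sub, crs_smul, crs_add, crs_self, zero_add, add_div, mul_div_assoc g,
    mul_div_cancel_left₀ _ hz.ne']
  module

/-- conformal part of the derivative of `g F` -/
theorem qp_S (hv : ‖v‖ = 1) (hF : ‖F‖ = 1) (hz : 0 < 1 + (inner ℝ v F : ℝ)) (g gx gy : ℝ)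
    {fa fb : E3} (ha : inner ℝ F fa = (0 : ℝ)) (hb : inner ℝ F fb = (0 : ℝ)) :
    qp v (gx • F + g • fa) (gy • F + g • fb) = g • ptr v F (qp F fa fb)
      + (1 / 2 : ℝ) • ((((1 + inner ℝ v F) * gx + g * inner ℝ v fa) / (1 + inner ℝ v F) : ℝ) • prj v F
        + (((1 + inner ℝ v F) * gy + g * inner ℝ v fb) / (1 + inner ℝ v F) : ℝ) • crs v F) := by
  unfold qp
  rw [prj_S hz, crs_S hv hF hz _ _ hb, ptr_smul, ptr_add, prj_of_perp ha]
  module

/-- anticonformal part of the derivative of `g F` -/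
theorem qm_S (hv : ‖v‖ = 1) (hF : ‖F‖ = 1) (hz : 0 < 1 + (inner ℝ v F : ℝ)) (g gx gy : ℝ)
    {fa fb : E3} (ha : inner ℝ F fa = (0 : ℝ)) (hb : inner ℝ F fb = (0 : ℝ)) :
    qm v (gx • F + g • fa) (gy • F + g • fb) = g • ptr v F (qm F fa fb)
      + (1 / 2 : ℝ) • ((((1 + inner ℝ v F) * gx + g * inner ℝ v fa) / (1 + inner ℝ v F) : ℝ) • prj v F
        - (((1 + inner ℝ v F) * gy + g * inner ℝ v fb) / (1 + inner ℝ v F) : ℝ) • crs v F) := by
  unfold qm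
  rw [prj_S hz, crs_S hv hF hz _ _ hb, ptr_smul, ptr_sub, prj_of_perp ha]
  module

theorem prj_normsq (hv : ‖v‖ = 1) (hF : ‖F‖ = 1) : ‖prj v F‖ ^ 2 = 1 - (inner ℝ v F : ℝ) ^ 2 := by
  have h := norm_prj_sq hv F
  rw [hF] at h
  linarith

theorem crs_normsq (hv : ‖v‖ = 1) (hF : ‖F‖ = 1) : ‖crs v F‖ ^ 2 = 1 - (inner ℝ v F : ℝ) ^ 2 := by
  rw [norm_crs_sq, hv, hF]
  ring

theorem inner_prj_crs (v F : E3) : inner ℝ (prj v F) (crs v F) = (0 : ℝ) := by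
  unfold prj
  rw [inner_sub_left, inner_smul_left, inner_crs_left, inner_crs_right]
  simp

theorem frame_normsq (hv : ‖v‖ = 1) (hF : ‖F‖ = 1) (x y : ℝ) :
    ‖x • prj v F + y • crs v F‖ ^ 2 = (1 - (inner ℝ v F : ℝ) ^ 2) * (x ^ 2 + y ^ 2) := by
  rw [norm_add_sq_real, norm_smul, norm_smul, mul_pow, mul_pow, prj_normsq hv hF, crs_normsq hv hF,
    inner_smul_left, inner_smul_right, inner_prj_crs, Real.norm_eq_abs, Real.norm_eq_abs, sq_abs,
    sq_abs]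
  simp
  ring

/-- the quadratic form for `Θ = R v - g F` -/
theorem Qd_RF (hv : ‖v‖ = 1) (hF : ‖F‖ = 1) (hz : 0 < 1 + (inner ℝ v F : ℝ)) {a b fa fb : E3}
    (ha : inner ℝ v a = (0 : ℝ)) (hb : inner ℝ v b = (0 : ℝ)) (hfa : inner ℝ F fa = (0 : ℝ))
    (hfb : inner ℝ F fb = (0 : ℝ)) (R g rx ry gx gy : ℝ) {yx yy : ℝ}
    (hx : yx = (1 + inner ℝ v F) * gx + g * inner ℝ v fa)
    (hy : yy = (1 + inner ℝ v F) * gy + g * inner ℝ v fb) :
    Qd v a b (rx • v + R • a - (gx • F + g • fa)) (ry • v + R • b - (gy • F + g • fb)) =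
      2 * ‖(R - 1) • qp v a b - (g • ptr v F (qp F fa fb)
        + (1 / 2 : ℝ) • ((yx / (1 + inner ℝ v F) : ℝ) • prj v F
          + (yy / (1 + inner ℝ v F) : ℝ) • crs v F))‖ ^ 2
      + 2 * ‖(R + 1) • qm v a b - (g • ptr v F (qm F fa fb)
        + (1 / 2 : ℝ) • ((yx / (1 + inner ℝ v F) : ℝ) • prj v F
          - (yy / (1 + inner ℝ v F) : ℝ) • crs v F))‖ ^ 2
      - 6 * ‖qm v a b‖ ^ 2 + (3 / 2) * ((rx + gx - yx) ^ 2 + (ry + gy - yy) ^ 2) := by
  rw [Qd_eq hv ha hb, qp_S hv hF hz g gx gy hfa hfb, qm_S hv hF hz g gx gy hfa hfb, ← hx, ← hy]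
  have e1 : rx - inner ℝ v (gx • F + g • fa) = rx + gx - yx := by
    rw [hx, inner_add_right, inner_smul_right, inner_smul_right]
    ring
  have e2 : ry - inner ℝ v (gy • F + g • fb) = ry + gy - yy := by
    rw [hy, inner_add_right, inner_smul_right, inner_smul_right]
    ring
  rw [e1, e2]

theorem half_frame (hv : ‖v‖ = 1) (hF : ‖F‖ = 1) (hz : 0 < 1 + (inner ℝ v F : ℝ)) (yx yy : ℝ) :
    ‖(1 / 2 : ℝ) • ((yx / (1 + inner ℝ v F) : ℝ) • prj v F
          - (yy / (1 + inner ℝ v F) : ℝ) • crs v F)‖ ^ 2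
      = (1 / 4) * ((1 - inner ℝ v F) / (1 + inner ℝ v F)) * (yx ^ 2 + yy ^ 2) := by
  have e : (yx / (1 + inner ℝ v F) : ℝ) • prj v F - (yy / (1 + inner ℝ v F) : ℝ) • crs v F
      = (yx / (1 + inner ℝ v F) : ℝ) • prj v F + (-(yy / (1 + inner ℝ v F)) : ℝ) • crs v F := by
    module
  rw [norm_smul, mul_pow, e, frame_normsq hv hF]
  norm_num
  field_simp
  ring

/-- **K-family** (helper75): if `R + g` is constant, then `Q ≥ - 3 g² ν_F / (D - τ²)` for all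
states, with `D = (R+1)² - 3` and `τ² = (1-z)/(1+z)`, `z = ⟨v,F⟩`, `ν_F = 2 |F₋|²`. -/
theorem Qd_K (hv : ‖v‖ = 1) (hF : ‖F‖ = 1) (hz : 0 < 1 + (inner ℝ v F : ℝ)) {a b fa fb : E3}
    (ha : inner ℝ v a = (0 : ℝ)) (hb : inner ℝ v b = (0 : ℝ)) (hfa : inner ℝ F fa = (0 : ℝ))
    (hfb : inner ℝ F fb = (0 : ℝ)) (R g gx gy : ℝ)
    (hD : (1 - inner ℝ v F) / (1 + inner ℝ v F) < (R + 1) ^ 2 - 3) :
    -(6 * g ^ 2 / ((R + 1) ^ 2 - 3 - (1 - inner ℝ v F) / (1 + inner ℝ v F))) * ‖qm F fa fb‖ ^ 2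
      ≤ Qd v a b ((-gx) • v + R • a - (gx • F + g • fa)) ((-gy) • v + R • b - (gy • F + g • fb)) := by
  have hqmp : inner ℝ F (qm F fa fb) = (0 : ℝ) := by
    unfold qm
    rw [inner_smul_right, inner_sub_right, prj_perp hF, inner_crs_left]
    simp
  have hz1 : (0 : ℝ) ≤ 1 - inner ℝ v F := by
    have := real_inner_le_norm v F
    rw [hv, hF] at this
    linarith
  rw [Qd_RF hv hF hz ha hb hfa hfb R g (-gx) (-gy) gx gy rfl rfl]
  set yx : ℝ := (1 + inner ℝ v F) * gx + g * inner ℝ v fa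
  set yy : ℝ := (1 + inner ℝ v F) * gy + g * inner ℝ v fb
  set W : E3 := (1 / 2 : ℝ) • ((yx / (1 + inner ℝ v F) : ℝ) • prj v F
          - (yy / (1 + inner ℝ v F) : ℝ) • crs v F) with hW
  have hWn : ‖W‖ ^ 2 = (1 / 4) * ((1 - inner ℝ v F) / (1 + inner ℝ v F)) * (yx ^ 2 + yy ^ 2) :=
    half_frame hv hF hz yx yy
  set τ2 : ℝ := (1 - inner ℝ v F) / (1 + inner ℝ v F) with hτ
  have hτ0 : 0 ≤ τ2 := div_nonneg hz1 hz.le
  set D : ℝ := (R + 1) ^ 2 - 3 with hDd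
  have hDp : 0 < D := lt_of_le_of_lt hτ0 hD
  have hDτ : 0 < D - τ2 := sub_pos.2 hD
  have h1 := Qd_min (R := R) (by linarith : (3 : ℝ) < (R + 1) ^ 2) (qm v a b)
    (g • ptr v F (qm F fa fb) + W)
  have h2 : ‖g • ptr v F (qm F fa fb) + W‖ ≤ |g| * ‖qm F fa fb‖ + ‖W‖ := by
    refine (norm_add_le _ _).trans ?_
    rw [norm_smul, ptr_norm hv hF hz hqmp, Real.norm_eq_abs]
  set n : ℝ := |g| * ‖qm F fa fb‖ with hn
  have hn0 : 0 ≤ n := by positivity
  have h3 : ‖g • ptr v F (qm F fa fb) + W‖ ^ 2 ≤ (n + ‖W‖) ^ 2 :=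
    pow_le_pow_left₀ (norm_nonneg _) h2 2
  have h4 : 0 ≤ ‖(R - 1) • qp v a b - (g • ptr v F (qp F fa fb)
        + (1 / 2 : ℝ) • ((yx / (1 + inner ℝ v F) : ℝ) • prj v F
          + (yy / (1 + inner ℝ v F) : ℝ) • crs v F))‖ ^ 2 := by positivity
  have e1 : (-gx + gx - yx) ^ 2 + (-gy + gy - yy) ^ 2 = yx ^ 2 + yy ^ 2 := by ring
  rw [e1]
  -- the scalar inequality
  have hy2 : 0 ≤ yx ^ 2 + yy ^ 2 := by positivity
  have hW0 := norm_nonneg W
  have e2 : g ^ 2 * ‖qm F fa fb‖ ^ 2 = n ^ 2 := by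
    rw [hn, mul_pow, sq_abs]
  have h5 : -(6 / D) * (n + ‖W‖) ^ 2 + (3 / 2) * (yx ^ 2 + yy ^ 2)
      ≥ -(6 * g ^ 2 / (D - τ2)) * ‖qm F fa fb‖ ^ 2 := by
    have e3 : -(6 * g ^ 2 / (D - τ2)) * ‖qm F fa fb‖ ^ 2 = -(6 / (D - τ2)) * n ^ 2 := by
      rw [← e2]
      ring
    rw [e3]
    -- `|y|² τ² = 4 ‖W‖²`
    have e4 : τ2 * (yx ^ 2 + yy ^ 2) = 4 * ‖W‖ ^ 2 := by
      rw [hWn]
      ring
    set Y : ℝ := yx ^ 2 + yy ^ 2
    -- multiply by `D (D - τ²)`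
    have h6 : 0 ≤ (3 / 2) * D * (D - τ2) * Y + 6 * D * n ^ 2 - 6 * (D - τ2) * (n + ‖W‖) ^ 2 := by
      have h7 : (3 / 2) * D * (D - τ2) * Y + 6 * D * n ^ 2 - 6 * (D - τ2) * (n + ‖W‖) ^ 2
          = (3 / 2) * (D - τ2) ^ 2 * Y + 6 * τ2 * n ^ 2 - 12 * (D - τ2) * n * ‖W‖ := by
        have e5 : (3 / 2) * D * (D - τ2) * Y = (3 / 2) * (D - τ2) ^ 2 * Y + (3 / 2) * (D - τ2) * (τ2 * Y) := by
          ring
        rw [e5, e4]
        ring
      rw [h7]
      rcases hτ0.eq_or_lt with h8 | h8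
      · have h9 : ‖W‖ = 0 := by
          have : ‖W‖ ^ 2 = 0 := by
            rw [hWn, ← h8]
            ring
          exact pow_eq_zero_iff two_ne_zero |>.1 this
        rw [h9, ← h8]
        have : 0 ≤ (3 / 2) * (D - 0) ^ 2 * Y := by positivity
        linarith
      · have h9 : Y = 4 * ‖W‖ ^ 2 / τ2 := by
          rw [← e4]
          field_simp
        rw [h9]
        have h10 : (3 / 2) * (D - τ2) ^ 2 * (4 * ‖W‖ ^ 2 / τ2) + 6 * τ2 * n ^ 2
            - 12 * (D - τ2) * n * ‖W‖ = (6 / τ2) * ((D - τ2) * ‖W‖ - τ2 * n) ^ 2 := by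
          field_simp
          ring
        rw [h10]
        positivity
    have h11 : -(6 / D) * (n + ‖W‖) ^ 2 + (3 / 2) * Y - -(6 / (D - τ2)) * n ^ 2
        = ((3 / 2) * D * (D - τ2) * Y + 6 * D * n ^ 2 - 6 * (D - τ2) * (n + ‖W‖) ^ 2)
          / (D * (D - τ2)) := by
      field_simp
      ring
    have h12 : 0 ≤ -(6 / D) * (n + ‖W‖) ^ 2 + (3 / 2) * Y - -(6 / (D - τ2)) * n ^ 2 := by
      rw [h11]
      positivity
    linarith
  have h13 : -(6 / D) * (n + ‖W‖) ^ 2 ≤ -(6 / D) * ‖g • ptr v F (qm F fa fb) + W‖ ^ 2 := by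
    have : 0 ≤ 6 / D := by positivity
    nlinarith
  linarith

end

end Pool.Agent.FPX
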