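import Mathlib
import Pool.Agent.FPX.KGM

/-
KVI (helper82): exact algebra of the quadratic form for `Θ = R v - g F` when `k = R - 1 + g` is a
function of `h = |η|`, `η = Θ - v` (any function; `dk = m ⟨η, dη⟩`, so `m = K'(h) / h`). With
`r = R - 1`, `z = ⟨v,F⟩`, `a₂ = m g (1-z) / 2`, `a₁ = 1 - a₂`, `a₃² = (1-z)/(1+z) (1 - m (r - g z))²`
the residuals `P`, `M`, `W` satisfy
`(r + 2 κ a₁) v₋ - g F₋ = a₁ M - a₂ refl P - (a₃/2) W`, hence a lower bound of every quadratic form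
`4 AP |P|² + 4 AM |M|² + AW |W|² - 4 Λ |v₋|²`.
-/

noncomputable section

namespace Pool.Agent.FPX

open Pool.Agent.EWD

section
variable {v F : E3}

/-- `sin²` times the reflection of the tangent plane in the direction of `F` -/
def rfl2 (v F P : E3) : E3 :=
  (inner ℝ (prj v F) P : ℝ) • prj v F - (inner ℝ (crs v F) P : ℝ) • crs v F

theorem inner_prj_left {P : E3} (hP : inner ℝ v P = (0 : ℝ)) (F : E3) :
    inner ℝ (prj v F) P = (inner ℝ F P : ℝ) := by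
  unfold prj
  rw [inner_sub_left, inner_smul_left, hP, mul_zero, sub_zero]

theorem frame_decomp (hv : ‖v‖ = 1) (hF : ‖F‖ = 1) {P : E3} (hP : inner ℝ v P = (0 : ℝ)) :
    (inner ℝ (prj v F) P : ℝ) • prj v F + (inner ℝ (crs v F) P : ℝ) • crs v F =
      (1 - (inner ℝ v F : ℝ) ^ 2) • P := by
  have h := det_id v F (crs v F) P
  have e1 : crs F (crs v F) = prj F v := by
    rw [crs_anti v F, crs_neg, crs_crs hF, neg_neg]
  have e2 : crs (crs v F) v = prj v F := by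
    rw [crs_anti (crs v F) v, crs_crs hv, neg_neg]
  have e3 : inner ℝ v (prj F v) = 1 - (inner ℝ v F : ℝ) ^ 2 := by
    unfold prj
    rw [inner_sub_right, inner_smul_right, inner_self_one hv, real_inner_comm v F]
    ring
  rw [e1, e2, e3, real_inner_comm v P, hP, zero_smul, zero_add] at h
  rw [h, inner_prj_left hP, real_inner_comm F P, real_inner_comm (crs v F) P]

theorem coord_normsq (hv : ‖v‖ = 1) (hF : ‖F‖ = 1) {P : E3} (hP : inner ℝ v P = (0 : ℝ)) :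
    inner ℝ (prj v F) P ^ 2 + inner ℝ (crs v F) P ^ 2 =
      (1 - (inner ℝ v F : ℝ) ^ 2) * ‖P‖ ^ 2 := by
  have h := frame_decomp hv hF hP
  have h1 : inner ℝ P ((inner ℝ (prj v F) P : ℝ) • prj v F + (inner ℝ (crs v F) P : ℝ) • crs v F)
      = (1 - (inner ℝ v F : ℝ) ^ 2) * ‖P‖ ^ 2 := by
    rw [h, inner_smul_right, real_inner_self_eq_norm_sq]
  rw [inner_add_right, inner_smul_right, inner_smul_right, real_inner_comm (prj v F) P,
    real_inner_comm (crs v F) P] at h1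
  nlinarith [h1]

theorem rfl2_normsq (hv : ‖v‖ = 1) (hF : ‖F‖ = 1) {P : E3} (hP : inner ℝ v P = (0 : ℝ)) :
    ‖rfl2 v F P‖ ^ 2 = ((1 - (inner ℝ v F : ℝ) ^ 2) * ‖P‖) ^ 2 := by
  have e : rfl2 v F P = (inner ℝ (prj v F) P : ℝ) • prj v F + (-(inner ℝ (crs v F) P) : ℝ) • crs v F := by
    unfold rfl2
    module
  rw [e, frame_normsq hv hF]
  have h := coord_normsq hv hF hP
  have h2 : (-(inner ℝ (crs v F) P : ℝ)) ^ 2 = inner ℝ (crs v F) P ^ 2 := by ring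
  rw [h2, h]
  ring

theorem rfl2_norm (hv : ‖v‖ = 1) (hF : ‖F‖ = 1) {P : E3} (hP : inner ℝ v P = (0 : ℝ)) :
    ‖rfl2 v F P‖ = (1 - (inner ℝ v F : ℝ) ^ 2) * ‖P‖ := by
  have hz : (inner ℝ v F : ℝ) ^ 2 ≤ 1 := by
    have := abs_real_inner_le_norm v F
    rw [hv, hF, mul_one] at this
    exact (sq_le_one_iff_abs_le_one _).2 this
  exact (pow_left_inj₀ (norm_nonneg _) (mul_nonneg (by linarith) (norm_nonneg _)) two_ne_zero).1
    (rfl2_normsq hv hF hP)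

theorem kv_swap (v x y : E3) : inner ℝ x (crs v y) = -(inner ℝ (crs v x) y : ℝ) := by
  simp only [inner3, crs0, crs1, crs2]
  ring

theorem qp_add_qm (v s t : E3) : qp v s t + qm v s t = prj v s := by
  unfold qp qm
  module

theorem qp_sub_qm (v s t : E3) : qp v s t - qm v s t = crs v t := by
  unfold qp qm
  module

theorem qp_perp (hv : ‖v‖ = 1) (s t : E3) : inner ℝ v (qp v s t) = (0 : ℝ) := by
  unfold qp
  rw [inner_smul_right, inner_add_right, prj_perp hv, inner_crs_left]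
  ring

theorem qm_perp (hv : ‖v‖ = 1) (s t : E3) : inner ℝ v (qm v s t) = (0 : ℝ) := by
  unfold qm
  rw [inner_smul_right, inner_sub_right, prj_perp hv, inner_crs_left]
  ring

theorem one_sub_inner_nonneg (hv : ‖v‖ = 1) (hF : ‖F‖ = 1) : (0 : ℝ) ≤ 1 - inner ℝ v F := by
  have := real_inner_le_norm v F
  rw [hv, hF] at this
  linarith

/-- `⟨η, η_x⟩` -/
theorem inner_eta_x (hv : ‖v‖ = 1) {a : E3} (ha : inner ℝ v a = (0 : ℝ)) (b s t : E3)
    (r g rx : ℝ) :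
    inner ℝ (r • v - g • F) (rx • v + r • a - s) =
      (r - g * inner ℝ v F) * (rx - inner ℝ v s)
        - g * inner ℝ (prj v F) ((r • qp v a b - qp v s t) + (r • qm v a b - qm v s t)) := by
  have e1 : (r • qp v a b - qp v s t) + (r • qm v a b - qm v s t) = r • a - prj v s := by
    have h1 := qp_add_qm v a b
    have h2 := qp_add_qm v s t
    rw [prj_of_perp ha] at h1
    have h3 : r • a = r • qp v a b + r • qm v a b := by rw [← smul_add, h1]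
    rw [h3, ← h2]
    module
  have hp : inner ℝ v (r • a - prj v s) = (0 : ℝ) := by
    rw [inner_sub_right, inner_smul_right, ha, prj_perp hv]
    ring
  have e2 : rx • v + r • a - s = (rx - inner ℝ v s : ℝ) • v + (r • a - prj v s) := by
    unfold prj
    module
  rw [e1, e2, inner_add_right, inner_sub_left, inner_sub_left, inner_smul_left, inner_smul_left,
    inner_smul_left, inner_smul_left, hp, inner_smul_right, inner_smul_right, inner_self_one hv,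
    inner_prj_left hp, real_inner_comm v F]
  simp only [conj_trivial]
  ring

/-- `⟨η, η_y⟩` -/
theorem inner_eta_y (hv : ‖v‖ = 1) {b : E3} (hb : inner ℝ v b = (0 : ℝ)) (a s t : E3)
    (r g ry : ℝ) :
    inner ℝ (r • v - g • F) (ry • v + r • b - t) =
      (r - g * inner ℝ v F) * (ry - inner ℝ v t)
        - g * inner ℝ (crs v F) ((r • qp v a b - qp v s t) - (r • qm v a b - qm v s t)) := by
  have e1 : (r • qp v a b - qp v s t) - (r • qm v a b - qm v s t) = crs v (r • b - prj v t) := by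
    have h1 := qp_sub_qm v a b
    have h2 := qp_sub_qm v s t
    rw [crs_sub, crs_smul, crs_prj, ← h1, ← h2]
    module
  have hp : inner ℝ v (r • b - prj v t) = (0 : ℝ) := by
    rw [inner_sub_right, inner_smul_right, hb, prj_perp hv]
    ring
  have e2 : ry • v + r • b - t = (ry - inner ℝ v t : ℝ) • v + (r • b - prj v t) := by
    unfold prj
    module
  have e3 : inner ℝ (crs v F) (crs v (r • b - prj v t)) = (inner ℝ F (r • b - prj v t) : ℝ) := by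
    rw [kv_swap, crs_crs hv, inner_neg_left, inner_prj_left hp, neg_neg]
  rw [e1, e2, e3, inner_add_right, inner_sub_left, inner_sub_left, inner_smul_left, inner_smul_left,
    inner_smul_left, inner_smul_left, hp, inner_smul_right, inner_smul_right, inner_self_one hv,
    real_inner_comm v F]
  simp only [conj_trivial]
  ring

/-- **the identity of the family `k = K(h)`** -/
theorem KV_id (hv : ‖v‖ = 1) (hF : ‖F‖ = 1) (hz : 0 < 1 + (inner ℝ v F : ℝ)) {a b fa fb : E3}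
    (ha : inner ℝ v a = (0 : ℝ)) (hb : inner ℝ v b = (0 : ℝ)) (hfa : inner ℝ F fa = (0 : ℝ))
    (hfb : inner ℝ F fb = (0 : ℝ)) (r g rx ry gx gy κ : ℝ) {m a2 : ℝ}
    {s t P M : E3} {Wx Wy : ℝ} (hs : s = gx • F + g • fa) (ht : t = gy • F + g • fb)
    (hP : P = r • qp v a b - qp v s t) (hM : M = (r + 2 * κ) • qm v a b - qm v s t)
    (hWx : Wx = rx - inner ℝ v s) (hWy : Wy = ry - inner ℝ v t)
    (hkx : rx + gx = m * inner ℝ (r • v - g • F) (rx • v + r • a - s))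
    (hky : ry + gy = m * inner ℝ (r • v - g • F) (ry • v + r • b - t))
    (ha2 : 2 * a2 = m * g * (1 - inner ℝ v F)) :
    (2 * (1 + inner ℝ v F) : ℝ) • ((r + 2 * κ * (1 - a2)) • qm v a b - g • ptr v F (qm F fa fb)) =
      (2 * (1 + inner ℝ v F) * (1 - a2) : ℝ) • M - (m * g : ℝ) • rfl2 v F P
        - (1 - m * (r - g * inner ℝ v F) : ℝ) • (Wx • prj v F - Wy • crs v F) := by
  set z : ℝ := inner ℝ v F with hzd
  set u1 : E3 := prj v F with hu1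
  set u2 : E3 := crs v F with hu2
  set n : E3 := qm v a b with hn
  have hqm : inner ℝ v n = (0 : ℝ) := qm_perp hv a b
  -- the residual without `κ`
  set M' : E3 := r • n - qm v s t with hM'
  have hMM : M = M' + (2 * κ) • n := by
    rw [hM, hM']
    module
  have hM'p : inner ℝ v M' = (0 : ℝ) := by
    rw [hM', inner_sub_right, inner_smul_right, hqm, qm_perp hv]
    ring
  have hPp : inner ℝ v P = (0 : ℝ) := by
    rw [hP, inner_sub_right, inner_smul_right, qp_perp hv, qp_perp hv]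
    ring
  -- `y`
  have hvs : (inner ℝ v s : ℝ) = gx * z + g * inner ℝ v fa := by
    rw [hs, inner_add_right, inner_smul_right, inner_smul_right]
  have hvt : (inner ℝ v t : ℝ) = gy * z + g * inner ℝ v fb := by
    rw [ht, inner_add_right, inner_smul_right, inner_smul_right]
  have e3 := inner_eta_x (F := F) hv ha b s t r g rx
  have e4 := inner_eta_y (F := F) hv hb a s t r g ry
  rw [← hP, ← hn, ← hM', ← hWx, ← hzd, ← hu1] at e3
  rw [← hP, ← hn, ← hM', ← hWy, ← hzd, ← hu2] at e4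
  rw [e3] at hkx
  rw [e4] at hky
  -- the transported part
  have e5 := qm_S hv hF hz g gx gy hfa hfb
  rw [← hs, ← ht, ← hzd, ← hu1, ← hu2] at e5
  have hyx : (1 + z) * gx + g * inner ℝ v fa = rx + gx - Wx := by
    rw [hWx, hvs]
    ring
  have hyy : (1 + z) * gy + g * inner ℝ v fb = ry + gy - Wy := by
    rw [hWy, hvt]
    ring
  rw [hyx, hyy] at e5
  have e6 : (2 * (1 + z) : ℝ) • (g • ptr v F (qm F fa fb)) = (2 * (1 + z) : ℝ) • qm v s t
      - ((rx + gx - Wx : ℝ) • u1 - (ry + gy - Wy : ℝ) • u2) := by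
    rw [e5]
    have hz' : (1 + z : ℝ) ≠ 0 := hz.ne'
    have k1 : (2 * (1 + z) : ℝ) • ((1 / 2 : ℝ) • (((rx + gx - Wx) / (1 + z) : ℝ) • u1
        - ((ry + gy - Wy) / (1 + z) : ℝ) • u2)) = (rx + gx - Wx : ℝ) • u1 - (ry + gy - Wy : ℝ) • u2 := by
      rw [smul_sub, smul_sub, smul_smul, smul_smul, smul_smul, smul_smul]
      congr 2 <;> field_simp
    rw [smul_add, k1]
    abel
  have e7 : (inner ℝ u1 (P + M') : ℝ) • u1 - (inner ℝ u2 (P - M') : ℝ) • u2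
      = rfl2 v F P + (1 - z ^ 2 : ℝ) • M' := by
    rw [hzd, ← frame_decomp hv hF hM'p, ← hu1, ← hu2, inner_add_right u1 P M', inner_sub_right u2 P M']
    unfold rfl2
    rw [← hu1, ← hu2]
    module
  have e8 : ((rx + gx - Wx : ℝ) • u1 - (ry + gy - Wy : ℝ) • u2)
      = (m * (r - g * z) - 1 : ℝ) • (Wx • u1 - Wy • u2)
        - (m * g : ℝ) • ((inner ℝ u1 (P + M') : ℝ) • u1 - (inner ℝ u2 (P - M') : ℝ) • u2) := by
    have k1 : rx + gx - Wx = (m * (r - g * z) - 1) * Wx - m * g * inner ℝ u1 (P + M') := by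
      linear_combination hkx
    have k2 : ry + gy - Wy = (m * (r - g * z) - 1) * Wy - m * g * inner ℝ u2 (P - M') := by
      linear_combination hky
    rw [k1, k2]
    module
  rw [e7] at e8
  have e9 : (2 * (1 + z) : ℝ) • (g • ptr v F (qm F fa fb))
      = (2 * (1 + z) : ℝ) • qm v s t - ((m * (r - g * z) - 1 : ℝ) • (Wx • u1 - Wy • u2)
        - (m * g : ℝ) • (rfl2 v F P + (1 - z ^ 2 : ℝ) • M')) := by
    rw [← e8, e6]
  have e10 : (2 * a2 * (1 + z) : ℝ) = m * g * (1 - z ^ 2) := by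
    rw [ha2]
    ring
  rw [smul_sub, e9, hMM]
  have e11 : qm v s t = r • n - M' := by
    rw [hM']
    abel
  rw [e11]
  have e12 : (m * g : ℝ) • (rfl2 v F P + (1 - z ^ 2 : ℝ) • M')
      = (m * g : ℝ) • rfl2 v F P + (2 * a2 * (1 + z) : ℝ) • M' := by
    rw [e10]
    module
  rw [e12]
  module

/-- Cauchy-Schwarz with weights -/
theorem cs3 {a1 a2 a3 A1 A2 A3 : ℝ} (h1 : 0 < A1) (h2 : 0 < A2) (h3 : 0 < A3) (x y w : ℝ) :
    (a1 * x + a2 * y + a3 * w) ^ 2 ≤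
      (a1 ^ 2 / A1 + a2 ^ 2 / A2 + a3 ^ 2 / A3) * (A1 * x ^ 2 + A2 * y ^ 2 + A3 * w ^ 2) := by
  have e : (a1 ^ 2 / A1 + a2 ^ 2 / A2 + a3 ^ 2 / A3) * (A1 * x ^ 2 + A2 * y ^ 2 + A3 * w ^ 2)
      - (a1 * x + a2 * y + a3 * w) ^ 2
      = (a1 * A2 * y - a2 * A1 * x) ^ 2 / (A1 * A2) + (a1 * A3 * w - a3 * A1 * x) ^ 2 / (A1 * A3)
        + (a2 * A3 * w - a3 * A2 * y) ^ 2 / (A2 * A3) := by
    field_simp
    ring
  have h : 0 ≤ (a1 * A2 * y - a2 * A1 * x) ^ 2 / (A1 * A2) + (a1 * A3 * w - a3 * A1 * x) ^ 2 / (A1 * A3)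
        + (a2 * A3 * w - a3 * A2 * y) ^ 2 / (A2 * A3) := by positivity
  linarith

/-- minimisation over `n` under `4 ‖A n - y‖² ≤ S Q` -/
theorem min_n {A S Q Λ : ℝ} (hS : 0 ≤ S) (hQ : 0 ≤ Q) (hD : Λ * S < A ^ 2) {n y : E3}
    (h : 4 * ‖A • n - y‖ ^ 2 ≤ S * Q) :
    -(4 * Λ / (A ^ 2 - Λ * S)) * ‖y‖ ^ 2 ≤ Q - 4 * Λ * ‖n‖ ^ 2 := by
  have hD' : 0 < A ^ 2 - Λ * S := sub_pos.2 hD
  set D : ℝ := A ^ 2 - Λ * S with hDd
  have key : 0 ≤ Q * D + 4 * Λ * ‖y‖ ^ 2 - 4 * Λ * D * ‖n‖ ^ 2 := by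
    rcases hS.eq_or_lt with h0 | h0
    · rw [← h0, zero_mul] at h
      have h1 : ‖A • n - y‖ ^ 2 = 0 := le_antisymm (by linarith) (by positivity)
      have h2 : A • n - y = 0 := by
        rw [← norm_eq_zero]
        exact pow_eq_zero_iff two_ne_zero |>.1 h1
      have h3 : y = A • n := (sub_eq_zero.1 h2).symm
      have h4 : ‖y‖ ^ 2 = A ^ 2 * ‖n‖ ^ 2 := by
        rw [h3, norm_smul, mul_pow, Real.norm_eq_abs, sq_abs]
      have h5 : D = A ^ 2 := by rw [hDd, ← h0]; ring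
      rw [h4, h5]
      have : 0 ≤ Q * A ^ 2 := by positivity
      nlinarith
    · have h1 : ‖D • n - A • y‖ ^ 2 = D ^ 2 * ‖n‖ ^ 2 - 2 * D * A * inner ℝ n y + A ^ 2 * ‖y‖ ^ 2 := by
        rw [norm_sub_sq_real, norm_smul, norm_smul, mul_pow, mul_pow, inner_smul_left,
          inner_smul_right, Real.norm_eq_abs, Real.norm_eq_abs, sq_abs, sq_abs]
        simp only [conj_trivial]
        ring
      have h2 : ‖A • n - y‖ ^ 2 = A ^ 2 * ‖n‖ ^ 2 - 2 * A * inner ℝ n y + ‖y‖ ^ 2 := by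
        rw [norm_sub_sq_real, norm_smul, mul_pow, inner_smul_left, Real.norm_eq_abs, sq_abs]
        simp only [conj_trivial]
        ring
      have h3 : S * (Q * D + 4 * Λ * ‖y‖ ^ 2 - 4 * Λ * D * ‖n‖ ^ 2)
          = (S * Q - 4 * ‖A • n - y‖ ^ 2) * D + 4 * ‖D • n - A • y‖ ^ 2 := by
        rw [h1, h2]
        have e : Λ * S = A ^ 2 - D := by rw [hDd]; ring
        linear_combination (4 * ‖y‖ ^ 2 - 4 * D * ‖n‖ ^ 2) * e
      have h4 : 0 ≤ S * (Q * D + 4 * Λ * ‖y‖ ^ 2 - 4 * Λ * D * ‖n‖ ^ 2) := by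
        rw [h3]
        have h5 : 0 ≤ (S * Q - 4 * ‖A • n - y‖ ^ 2) * D := mul_nonneg (by linarith) hD'.le
        positivity
      exact nonneg_of_mul_nonneg_right h4 h0
  have e : Q - 4 * Λ * ‖n‖ ^ 2 - -(4 * Λ / D) * ‖y‖ ^ 2
      = (Q * D + 4 * Λ * ‖y‖ ^ 2 - 4 * Λ * D * ‖n‖ ^ 2) / D := by
    field_simp
    ring
  have h6 : 0 ≤ Q - 4 * Λ * ‖n‖ ^ 2 - -(4 * Λ / D) * ‖y‖ ^ 2 := by
    rw [e]
    exact div_nonneg key hD'.le
  linarith

/-- the norm inequality behind the identity -/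
theorem KV_norm (hv : ‖v‖ = 1) (hF : ‖F‖ = 1) (hz : 0 < 1 + (inner ℝ v F : ℝ)) {a b fa fb : E3}
    (ha : inner ℝ v a = (0 : ℝ)) (hb : inner ℝ v b = (0 : ℝ)) (hfa : inner ℝ F fa = (0 : ℝ))
    (hfb : inner ℝ F fb = (0 : ℝ)) (r g rx ry gx gy κ : ℝ) {m a2 a3 : ℝ}
    {s t P M : E3} {Wx Wy : ℝ} (hs : s = gx • F + g • fa) (ht : t = gy • F + g • fb)
    (hP : P = r • qp v a b - qp v s t) (hM : M = (r + 2 * κ) • qm v a b - qm v s t)
    (hWx : Wx = rx - inner ℝ v s) (hWy : Wy = ry - inner ℝ v t)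
    (hkx : rx + gx = m * inner ℝ (r • v - g • F) (rx • v + r • a - s))
    (hky : ry + gy = m * inner ℝ (r • v - g • F) (ry • v + r • b - t))
    (ha2 : 2 * a2 = m * g * (1 - inner ℝ v F)) (ha3 : 0 ≤ a3)
    (ha3' : (1 + inner ℝ v F) * a3 ^ 2 =
      (1 - inner ℝ v F) * (1 - m * (r - g * inner ℝ v F)) ^ 2) :
    ‖(r + 2 * κ * (1 - a2)) • qm v a b - g • ptr v F (qm F fa fb)‖ ≤
      |1 - a2| * ‖M‖ + |a2| * ‖P‖ + (1 / 2) * a3 * √(Wx ^ 2 + Wy ^ 2) := by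
  have hid := KV_id hv hF hz ha hb hfa hfb r g rx ry gx gy κ hs ht hP hM hWx hWy hkx hky ha2
  set z : ℝ := inner ℝ v F with hzd
  have hz1 : (0 : ℝ) ≤ 1 - z := one_sub_inner_nonneg hv hF
  have hPp : inner ℝ v P = (0 : ℝ) := by
    rw [hP, inner_sub_right, inner_smul_right, qp_perp hv, qp_perp hv]
    ring
  have n1 := congrArg norm hid
  have hc : 0 < 2 * (1 + z) := by positivity
  rw [norm_smul, Real.norm_eq_abs, abs_of_pos hc] at n1
  set X : ℝ := ‖(r + 2 * κ * (1 - a2)) • qm v a b - g • ptr v F (qm F fa fb)‖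
  set W : E3 := Wx • prj v F - Wy • crs v F with hW
  have hWn : ‖W‖ ^ 2 = (1 - z ^ 2) * (Wx ^ 2 + Wy ^ 2) := by
    have e : W = Wx • prj v F + (-Wy) • crs v F := by
      rw [hW]
      module
    rw [e, frame_normsq hv hF]
    ring
  have n2 : ‖(2 * (1 + z) * (1 - a2) : ℝ) • M - (m * g : ℝ) • rfl2 v F P
      - (1 - m * (r - g * z) : ℝ) • W‖ ≤ 2 * (1 + z) * |1 - a2| * ‖M‖
        + |m * g| * ((1 - z ^ 2) * ‖P‖) + |1 - m * (r - g * z)| * ‖W‖ := by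
    refine (norm_sub_le _ _).trans ?_
    have n3 := norm_sub_le ((2 * (1 + z) * (1 - a2) : ℝ) • M) ((m * g : ℝ) • rfl2 v F P)
    rw [norm_smul, norm_smul, Real.norm_eq_abs, Real.norm_eq_abs, rfl2_norm hv hF hPp, abs_mul,
      abs_of_pos hc] at n3
    rw [norm_smul (1 - m * (r - g * z)) W, Real.norm_eq_abs]
    linarith
  have e1 : |m * g| * ((1 - z ^ 2) * ‖P‖) = 2 * (1 + z) * (|a2| * ‖P‖) := by
    have k1 : |m * g| * (1 - z) = 2 * |a2| := by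
      have k2 := congrArg abs ha2
      rw [abs_mul, abs_mul (m * g), abs_of_pos (by norm_num : (0 : ℝ) < 2), abs_of_nonneg hz1] at k2
      exact k2.symm
    have k3 : |m * g| * ((1 - z ^ 2) * ‖P‖) = (|m * g| * (1 - z)) * ((1 + z) * ‖P‖) := by ring
    rw [k3, k1]
    ring
  have e2 : |1 - m * (r - g * z)| * ‖W‖ = 2 * (1 + z) * ((1 / 2) * a3 * √(Wx ^ 2 + Wy ^ 2)) := by
    have hw0 : 0 ≤ Wx ^ 2 + Wy ^ 2 := by positivity
    refine (pow_left_inj₀ (by positivity) (by positivity) two_ne_zero).1 ?_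
    rw [mul_pow, hWn, sq_abs, mul_pow, mul_pow, mul_pow (1 / 2 * a3), Real.sq_sqrt hw0]
    linear_combination -((1 + z) * (Wx ^ 2 + Wy ^ 2)) * ha3'
  rw [← n1, e1, e2] at n2
  have n5 : 2 * (1 + z) * X ≤ 2 * (1 + z) *
      (|1 - a2| * ‖M‖ + |a2| * ‖P‖ + (1 / 2) * a3 * √(Wx ^ 2 + Wy ^ 2)) := by
    linarith
  exact le_of_mul_le_mul_left n5 hc

/-- **the lower bound of the quadratic form with weights** -/
theorem KV_bound (hv : ‖v‖ = 1) (hF : ‖F‖ = 1) (hz : 0 < 1 + (inner ℝ v F : ℝ)) {a b fa fb : E3}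
    (ha : inner ℝ v a = (0 : ℝ)) (hb : inner ℝ v b = (0 : ℝ)) (hfa : inner ℝ F fa = (0 : ℝ))
    (hfb : inner ℝ F fb = (0 : ℝ)) (r g rx ry gx gy κ : ℝ) {m a2 a3 : ℝ}
    {s t P M : E3} {Wx Wy : ℝ} (hs : s = gx • F + g • fa) (ht : t = gy • F + g • fb)
    (hP : P = r • qp v a b - qp v s t) (hM : M = (r + 2 * κ) • qm v a b - qm v s t)
    (hWx : Wx = rx - inner ℝ v s) (hWy : Wy = ry - inner ℝ v t)
    (hkx : rx + gx = m * inner ℝ (r • v - g • F) (rx • v + r • a - s))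
    (hky : ry + gy = m * inner ℝ (r • v - g • F) (ry • v + r • b - t))
    (ha2 : 2 * a2 = m * g * (1 - inner ℝ v F)) (ha3 : 0 ≤ a3)
    (ha3' : (1 + inner ℝ v F) * a3 ^ 2 =
      (1 - inner ℝ v F) * (1 - m * (r - g * inner ℝ v F)) ^ 2)
    {AP AM AW Λ : ℝ} (hAP : 0 < AP) (hAM : 0 < AM) (hAW : 0 < AW)
    (hD : Λ * ((1 - a2) ^ 2 / AM + a2 ^ 2 / AP + a3 ^ 2 / AW) < (r + 2 * κ * (1 - a2)) ^ 2) :
    -(4 * Λ * g ^ 2 / ((r + 2 * κ * (1 - a2)) ^ 2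
        - Λ * ((1 - a2) ^ 2 / AM + a2 ^ 2 / AP + a3 ^ 2 / AW))) * ‖qm F fa fb‖ ^ 2 ≤
      4 * AP * ‖P‖ ^ 2 + 4 * AM * ‖M‖ ^ 2 + AW * (Wx ^ 2 + Wy ^ 2) - 4 * Λ * ‖qm v a b‖ ^ 2 := by
  have hn := KV_norm hv hF hz ha hb hfa hfb r g rx ry gx gy κ hs ht hP hM hWx hWy hkx hky ha2 ha3 ha3'
  have hw0 : 0 ≤ Wx ^ 2 + Wy ^ 2 := by positivity
  have h1 := cs3 (a1 := |1 - a2|) (a2 := |a2|) (a3 := a3) hAM hAP hAW (2 * ‖M‖) (2 * ‖P‖)
    (√(Wx ^ 2 + Wy ^ 2))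
  rw [sq_abs, sq_abs, Real.sq_sqrt hw0] at h1
  have h2 : 4 * ‖(r + 2 * κ * (1 - a2)) • qm v a b - g • ptr v F (qm F fa fb)‖ ^ 2 ≤
      ((1 - a2) ^ 2 / AM + a2 ^ 2 / AP + a3 ^ 2 / AW) *
        (4 * AP * ‖P‖ ^ 2 + 4 * AM * ‖M‖ ^ 2 + AW * (Wx ^ 2 + Wy ^ 2)) := by
    have h3 := pow_le_pow_left₀ (norm_nonneg _) hn 2
    have h4 : 4 * (|1 - a2| * ‖M‖ + |a2| * ‖P‖ + (1 / 2) * a3 * √(Wx ^ 2 + Wy ^ 2)) ^ 2
        = (|1 - a2| * (2 * ‖M‖) + |a2| * (2 * ‖P‖) + a3 * √(Wx ^ 2 + Wy ^ 2)) ^ 2 := by ring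
    calc 4 * ‖(r + 2 * κ * (1 - a2)) • qm v a b - g • ptr v F (qm F fa fb)‖ ^ 2
        ≤ 4 * (|1 - a2| * ‖M‖ + |a2| * ‖P‖ + (1 / 2) * a3 * √(Wx ^ 2 + Wy ^ 2)) ^ 2 := by linarith
      _ ≤ ((1 - a2) ^ 2 / AM + a2 ^ 2 / AP + a3 ^ 2 / AW) *
          (AM * (2 * ‖M‖) ^ 2 + AP * (2 * ‖P‖) ^ 2 + AW * (Wx ^ 2 + Wy ^ 2)) := by
        rw [h4]
        exact h1
      _ = _ := by ring
  have h5 := min_n (by positivity) (by positivity) hD h2
  have h6 : ‖g • ptr v F (qm F fa fb)‖ ^ 2 = g ^ 2 * ‖qm F fa fb‖ ^ 2 := by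
    rw [norm_smul, mul_pow, Real.norm_eq_abs, sq_abs, ptr_norm hv hF hz (qm_perp hF fa fb)]
  rw [h6] at h5
  refine le_trans (le_of_eq ?_) h5
  ring

/-- **the L² form of the family `k = K(h)`**, with a multiple of `ν_v = 2 |v₋|²` subtracted -/
theorem Qd_KV (hv : ‖v‖ = 1) (hF : ‖F‖ = 1) (hz : 0 < 1 + (inner ℝ v F : ℝ)) {a b fa fb : E3}
    (ha : inner ℝ v a = (0 : ℝ)) (hb : inner ℝ v b = (0 : ℝ)) (hfa : inner ℝ F fa = (0 : ℝ))
    (hfb : inner ℝ F fb = (0 : ℝ)) (R g rx ry gx gy : ℝ) {m a2 a3 : ℝ}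
    (hkx : rx + gx = m * inner ℝ ((R - 1) • v - g • F) (rx • v + (R - 1) • a - (gx • F + g • fa)))
    (hky : ry + gy = m * inner ℝ ((R - 1) • v - g • F) (ry • v + (R - 1) • b - (gy • F + g • fb)))
    (ha2 : 2 * a2 = m * g * (1 - inner ℝ v F)) (ha3 : 0 ≤ a3)
    (ha3' : (1 + inner ℝ v F) * a3 ^ 2 =
      (1 - inner ℝ v F) * (1 - m * (R - 1 - g * inner ℝ v F)) ^ 2) {lam : ℝ}
    (hD : (3 + lam) * ((1 - a2) ^ 2 + a2 ^ 2 + a3 ^ 2 / 3) < (R + 1 - 2 * a2) ^ 2) :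
    -(2 * (3 + lam) * g ^ 2 / ((R + 1 - 2 * a2) ^ 2
        - (3 + lam) * ((1 - a2) ^ 2 + a2 ^ 2 + a3 ^ 2 / 3))) * ‖qm F fa fb‖ ^ 2 ≤
      Qd v a b (rx • v + R • a - (gx • F + g • fa)) (ry • v + R • b - (gy • F + g • fb))
        - lam * (2 * ‖qm v a b‖ ^ 2) := by
  have h := KV_bound hv hF hz ha hb hfa hfb (R - 1) g rx ry gx gy 1 rfl rfl rfl rfl rfl rfl hkx hky
    ha2 ha3 ha3' (AP := 1 / 2) (AM := 1 / 2) (AW := 3 / 2) (Λ := (3 + lam) / 2) (by norm_num)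
    (by norm_num) (by norm_num) ?_
  · rw [Qd_eq hv ha hb]
    have e1 : (3 + lam) / 2 * ((1 - a2) ^ 2 / (1 / 2) + a2 ^ 2 / (1 / 2) + a3 ^ 2 / (3 / 2))
        = (3 + lam) * ((1 - a2) ^ 2 + a2 ^ 2 + a3 ^ 2 / 3) := by ring
    have e2 : R - 1 + 2 * 1 * (1 - a2) = R + 1 - 2 * a2 := by ring
    have e3 : R - 1 + 2 * 1 = R + 1 := by ring
    rw [e1, e2, e3] at h
    refine (le_trans (le_of_eq ?_) h).trans (le_of_eq ?_)
    · ring
    · ring
  · have e1 : (3 + lam) / 2 * ((1 - a2) ^ 2 / (1 / 2) + a2 ^ 2 / (1 / 2) + a3 ^ 2 / (3 / 2))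
        = (3 + lam) * ((1 - a2) ^ 2 + a2 ^ 2 + a3 ^ 2 / 3) := by ring
    have e2 : R - 1 + 2 * 1 * (1 - a2) = R + 1 - 2 * a2 := by ring
    rw [e1, e2]
    exact hD

end

end Pool.Agent.FPX
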