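import Pool.Agent.FPX.S7N

/-!
S7W. The multi-state Hamilton-Jacobi level set lemma.

`F_i t = ∫_{g<t} γ_i` (finitely many signed state integrals), `q_j` finitely many densities, `Q` the
total integrand. If `D_x S(t,x)[γ(o)] ≤ Q(o) + L (t - g(o))` for `g(o) < t`, and for almost every `t`
there are `θ_j` with `S_t(t, F t) ≤ ∑ θ_j d/dt ∫_{g<t} q_j` and
`D_x S(t, F t)[γ(o)] + ∑ θ_j q_j(o) ≤ Q(o) + L (g(o) - t)` near the level `t`, then
`S(r1, F r1) - S(r0, F r0) ≤ ∫_{r0 ≤ g < r1} Q`.
-/

open MeasureTheory Set Filter Topology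

noncomputable section

namespace Pool.Agent.FPX

variable {Ω : Type*} [MeasurableSpace Ω]

section main

variable (μ : Measure Ω) [IsFiniteMeasure μ] {g : Ω → ℝ}

omit [IsFiniteMeasure μ] in
/-- the integral over the sublevel sets is almost everywhere differentiable -/
theorem s7F_ae_diff (hg : Measurable g) {f : Ω → ℝ} (hf : Integrable f μ) :
    ∀ᵐ t : ℝ, DifferentiableAt ℝ (s7F μ g f) t := by
  have hp : Monotone (s7F μ g fun o => f o + |f o|) :=
    s7F_mono μ hg (hf.add hf.abs) (fun o => by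
      have := neg_abs_le (f o)
      linarith)
  have hn : Monotone (s7F μ g fun o => |f o|) := s7F_mono μ hg hf.abs (fun o => abs_nonneg _)
  have he : s7F μ g f = fun t => (s7F μ g fun o => f o + |f o|) t - (s7F μ g fun o => |f o|) t := by
    funext t
    have : (s7F μ g fun o => f o + |f o|) t = s7F μ g f t + (s7F μ g fun o => |f o|) t := by
      simp only [s7F]
      exact integral_add hf.integrableOn hf.abs.integrableOn
    linarith
  filter_upwards [hp.ae_differentiableAt, hn.ae_differentiableAt] with t h1 h2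
  rw [he]
  exact h1.sub h2

variable {ι κ : Type*} [Fintype ι] [Fintype κ]

omit [IsFiniteMeasure μ] in
/-- a linear functional of the increment of the state -/
theorem s7V_lin [DecidableEq ι] (hg : Measurable g) {γ : ι → Ω → ℝ} (hγ : ∀ i, Integrable (γ i) μ)
    (A : (ι → ℝ) →L[ℝ] ℝ) :
    Integrable (fun o => A fun i => γ i o) μ ∧ ∀ s t, s ≤ t →
      A ((fun i => s7F μ g (γ i) t) - fun i => s7F μ g (γ i) s) =
        ∫ o in {o | s ≤ g o ∧ g o < t}, (A fun i => γ i o) ∂μ := by
  have hA : ∀ x : ι → ℝ, A x = ∑ i, x i * A (Pi.single i 1) := by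
    intro x
    conv_lhs => rw [pi_eq_sum_univ' x]
    rw [map_sum]
    refine Finset.sum_congr rfl fun i _ => ?_
    rw [map_smul, smul_eq_mul]
  have hi : ∀ i ∈ (Finset.univ : Finset ι), Integrable (fun o => γ i o * A (Pi.single i 1)) μ :=
    fun i _ => (hγ i).mul_const _
  refine ⟨?_, ?_⟩
  · have : (fun o => A fun i => γ i o) = fun o => ∑ i, γ i o * A (Pi.single i 1) := by
      funext o
      rw [hA]
    rw [this]
    exact integrable_finsetSum _ hi
  · intro s t hst
    rw [hA]
    have : (fun o => A fun i => γ i o) = fun o => ∑ i, γ i o * A (Pi.single i 1) := by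
      funext o
      rw [hA]
    rw [this, integral_finsetSum _ fun i hi' => (hi i hi').integrableOn]
    refine Finset.sum_congr rfl fun i _ => ?_
    rw [integral_mul_const, ← s7F_sub μ hg (hγ i) hst]
    rfl

/-- **The multi-state Hamilton-Jacobi level set lemma.** -/
theorem s7_hjV (hg : Measurable g) {γ : ι → Ω → ℝ} (hγ : ∀ i, Integrable (γ i) μ)
    {q : κ → Ω → ℝ} (hq : ∀ j, Integrable (q j) μ) {Q : Ω → ℝ} (hQ : Integrable Q μ)
    {r0 r1 L : ℝ} (hr : r0 ≤ r1) (hL : 0 ≤ L) {D : Set (ι → ℝ)} (hD : Convex ℝ D)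
    (hF : ∀ t, r0 ≤ t → t ≤ r1 → (fun i => s7F μ g (γ i) t) ∈ D)
    {S : ℝ → (ι → ℝ) → ℝ} {S' : ℝ → (ι → ℝ) → (ℝ × (ι → ℝ)) →L[ℝ] ℝ}
    (hS : ∀ t x, r0 ≤ t → t ≤ r1 → x ∈ D →
      HasFDerivAt (fun z : ℝ × (ι → ℝ) => S z.1 z.2) (S' t x) (t, x))
    (hSt : ∀ t x, r0 ≤ t → t ≤ r1 → x ∈ D → S' t x (1, 0) ≤ L)
    (hSx : ∀ᵐ o ∂μ, ∀ t x, t ≤ r1 → x ∈ D → r0 ≤ g o → g o < t →
      S' t x (0, fun i => γ i o) ≤ Q o + L * (t - g o))
    (hj : ∀ᵐ t : ℝ, r0 < t → t < r1 → ∃ θ : κ → ℝ,
      S' t (fun i => s7F μ g (γ i) t) (1, 0) ≤ ∑ j, θ j * deriv (s7F μ g (q j)) t ∧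
      ∃ δ > 0, ∀ᵐ o ∂μ, t ≤ g o → g o < t + δ →
        S' t (fun i => s7F μ g (γ i) t) (0, fun i => γ i o) + ∑ j, θ j * q j o ≤
          Q o + L * (g o - t)) :
    S r1 (fun i => s7F μ g (γ i) r1) - S r0 (fun i => s7F μ g (γ i) r0) ≤
      ∫ o in {o | r0 ≤ g o ∧ g o < r1}, Q o ∂μ := by
  classical
  set F : ℝ → ι → ℝ := fun t i => s7F μ g (γ i) t with hFd
  set V := μ.real univ with hV
  set b := s7b μ g with hb
  have V0 : 0 ≤ V := measureReal_nonneg
  have bmono : Monotone b := s7b_mono μ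
  have bV : ∀ t, b t ≤ V := fun t => s7b_le μ t
  have b0 : ∀ t, 0 ≤ b t := fun t => s7b_nonneg μ t
  have beq : b = s7F μ g (fun _ => 1) := funext fun t => s7b_eq μ t
  set FQ := s7F μ g Q with hFQ
  have hms : ∀ s t, MeasurableSet {o | s ≤ g o ∧ g o < t} := fun s t =>
    (measurableSet_le measurable_const hg).inter (measurableSet_lt hg measurable_const)
  -- linear error term
  have herr : ∀ s t, s ≤ t → ∀ f : Ω → ℝ, Integrable f μ →
      (∀ᵐ o ∂μ, s ≤ g o → g o < t → f o ≤ Q o + L * (t - s)) →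
      ∫ o in {o | s ≤ g o ∧ g o < t}, f o ∂μ ≤ FQ t - FQ s + L * (t - s) * (b t - b s) := by
    intro s t hst f hf h
    have h1 : L * (t - s) * (b t - b s) = ∫ _o in {o | s ≤ g o ∧ g o < t}, L * (t - s) ∂μ := by
      rw [beq, s7F_sub μ hg (integrable_const _) hst, ← integral_const_mul]
      simp
    rw [h1, hFQ, s7F_sub μ hg hQ hst, ← integral_add hQ.integrableOn
      (integrable_const _).integrableOn]
    refine setIntegral_mono_on_ae hf.integrableOn
      (hQ.integrableOn.add (integrable_const _).integrableOn) (hms s t) ?_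
    filter_upwards [h] with o ho ho2
    exact ho ho2.1 ho2.2
  -- increments of S in x
  have incX : ∀ s t, r0 ≤ s → s ≤ t → t ≤ r1 →
      S t (F t) - S t (F s) ≤ FQ t - FQ s + L * (t - s) * (b t - b s) := by
    intro s t h0 hst h1
    set C := FQ t - FQ s + L * (t - s) * (b t - b s) with hC
    have hpath : ∀ r ∈ Icc (0 : ℝ) 1, F s + r • (F t - F s) ∈ D := by
      intro r hr'
      have h2 := hD (hF s h0 (hst.trans h1)) (hF t (h0.trans hst) h1)
        (sub_nonneg.2 hr'.2) hr'.1 (by ring)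
      have h3 : F s + r • (F t - F s) = (1 - r) • F s + r • F t := by
        rw [smul_sub, sub_smul, one_smul]
        abel
      rw [h3]
      exact h2
    have hder : ∀ r ∈ Icc (0 : ℝ) 1, HasDerivAt (fun r : ℝ => S t (F s + r • (F t - F s)))
        (S' t (F s + r • (F t - F s)) (0, F t - F s)) r := by
      intro r hr'
      have h2 : HasDerivAt (fun r : ℝ => F s + r • (F t - F s)) (F t - F s) r := by
        have := ((hasDerivAt_id r).smul_const (F t - F s)).const_add (F s)
        rw [one_smul] at this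
        exact this
      exact HasFDerivAt.comp_hasDerivAt (f := fun r : ℝ => (t, F s + r • (F t - F s))) r
        (hS t _ (h0.trans hst) h1 (hpath r hr')) ((hasDerivAt_const r t).prodMk h2)
    have hbd : ∀ r ∈ Icc (0 : ℝ) 1, S' t (F s + r • (F t - F s)) (0, F t - F s) ≤ C := by
      intro r hr'
      set A : (ι → ℝ) →L[ℝ] ℝ := (S' t (F s + r • (F t - F s))).comp
        (ContinuousLinearMap.inr ℝ ℝ (ι → ℝ)) with hA
      have h2 := s7V_lin μ hg hγ A
      have h3 := h2.2 s t hst
      have h4 : A (F t - F s) = S' t (F s + r • (F t - F s)) (0, F t - F s) := by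
        rw [hA]
        rfl
      have h5 : A (F t - F s) = ∫ o in {o | s ≤ g o ∧ g o < t}, (A fun i => γ i o) ∂μ := h3
      rw [← h4, h5]
      refine herr s t hst _ h2.1 ?_
      filter_upwards [hSx] with o ho hs ht
      have h6 := ho t (F s + r • (F t - F s)) h1 (hpath r hr') (h0.trans hs) ht
      have h7 : (A fun i => γ i o) = S' t (F s + r • (F t - F s)) (0, fun i => γ i o) := by
        rw [hA]
        rfl
      rw [h7]
      have h8 : L * (t - g o) ≤ L * (t - s) := mul_le_mul_of_nonneg_left (by linarith) hL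
      linarith
    have hconv : Convex ℝ (Icc (0 : ℝ) 1) := convex_Icc _ _
    have h9 := hconv.image_sub_le_mul_sub_of_deriv_le
      (f := fun r : ℝ => S t (F s + r • (F t - F s))) (C := C)
      (fun r hr' => (hder r hr').continuousAt.continuousWithinAt)
      (fun r hr' => by
        rw [interior_Icc] at hr'
        exact (hder r ⟨hr'.1.le, hr'.2.le⟩).differentiableAt.differentiableWithinAt)
      (fun r hr' => by
        rw [interior_Icc] at hr'
        rw [(hder r ⟨hr'.1.le, hr'.2.le⟩).deriv]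
        exact hbd r ⟨hr'.1.le, hr'.2.le⟩)
      0 (by simp) 1 (by simp) zero_le_one
    simpa using h9
  have incT : ∀ s t, r0 ≤ s → s ≤ t → t ≤ r1 → S t (F s) - S s (F s) ≤ L * (t - s) := by
    intro s t h0 hst h1
    have hx : F s ∈ D := hF s h0 (hst.trans h1)
    have hder : ∀ r ∈ Icc s t, HasDerivAt (fun r : ℝ => S r (F s)) (S' r (F s) (1, 0)) r := by
      intro r hr'
      exact HasFDerivAt.comp_hasDerivAt (f := fun r : ℝ => (r, F s)) r
        (hS r _ (h0.trans hr'.1) (hr'.2.trans h1) hx)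
        ((hasDerivAt_id r).prodMk (hasDerivAt_const r (F s)))
    have hconv : Convex ℝ (Icc s t) := convex_Icc _ _
    exact hconv.image_sub_le_mul_sub_of_deriv_le (f := fun r : ℝ => S r (F s)) (C := L)
      (fun r hr' => (hder r hr').continuousAt.continuousWithinAt)
      (fun r hr' => by
        rw [interior_Icc] at hr'
        exact (hder r ⟨hr'.1.le, hr'.2.le⟩).differentiableAt.differentiableWithinAt)
      (fun r hr' => by
        rw [interior_Icc] at hr'
        rw [(hder r ⟨hr'.1.le, hr'.2.le⟩).deriv]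
        exact hSt r (F s) (h0.trans hr'.1.le) (hr'.2.le.trans h1) hx)
      s (left_mem_Icc.2 hst) t (right_mem_Icc.2 hst) hst
  -- the function H
  set H : ℝ → ℝ := fun t => FQ t - S t (F t) with hH
  set K : ℝ := L * (1 + V) with hK
  have K0 : 0 ≤ K := mul_nonneg hL (by linarith)
  have Hinc : ∀ s t, r0 ≤ s → s ≤ t → t ≤ r1 → -(K * (t - s)) ≤ H t - H s := by
    intro s t h0 hst h1
    have e1 := incX s t h0 hst h1
    have e2 := incT s t h0 hst h1
    have e3 : L * (t - s) * (b t - b s) ≤ L * (t - s) * V := by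
      refine mul_le_mul_of_nonneg_left ?_ (mul_nonneg hL (by linarith))
      linarith [bV t, b0 s]
    simp only [hH, hK]
    nlinarith
  set Φ : ℝ → ℝ := fun t => H t + K * t with hΦ
  have Φmono : MonotoneOn Φ (uIcc r0 r1) := by
    rw [uIcc_of_le hr]
    intro s hs t ht hst
    have := Hinc s t hs.1 hst ht.2
    simp only [hΦ]
    linarith
  have hint := Φmono.intervalIntegral_deriv_mem_uIcc
  have hΦle : Φ r0 ≤ Φ r1 := Φmono (by simp) (by simp) hr
  rw [uIcc_of_le (sub_nonneg.2 hΦle)] at hint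
  have hdint : IntervalIntegrable (deriv Φ) volume r0 r1 := Φmono.intervalIntegrable_deriv
  have key : ∀ᵐ t : ℝ, t ∈ Ioo r0 r1 → K ≤ deriv Φ t := by
    have a1 : ∀ᵐ t : ℝ, ∀ i, DifferentiableAt ℝ (s7F μ g (γ i)) t :=
      ae_all_iff.2 fun i => s7F_ae_diff μ hg (hγ i)
    have a2 : ∀ᵐ t : ℝ, ∀ j, DifferentiableAt ℝ (s7F μ g (q j)) t :=
      ae_all_iff.2 fun j => s7F_ae_diff μ hg (hq j)
    filter_upwards [hj, a1, a2, s7F_ae_diff μ hg hQ, bmono.ae_differentiableAt] with
      t hjt dF dq dQ db ht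
    obtain ⟨θ, hθ, δ, δ0, hδ⟩ := hjt ht.1 ht.2
    set F' : ι → ℝ := fun i => deriv (s7F μ g (γ i)) t with hF'
    have hFd' : HasDerivAt F F' t := by
      rw [hasDerivAt_pi]
      exact fun i => (dF i).hasDerivAt
    have hx : F t ∈ D := hF t ht.1.le ht.2.le
    have hcomp : HasDerivAt (fun x => S x (F x)) (S' t (F t) (1, F')) t :=
      HasFDerivAt.comp_hasDerivAt (f := fun x => (x, F x)) t
        (hS t (F t) ht.1.le ht.2.le hx) ((hasDerivAt_id t).prodMk hFd')
    have hΦd : HasDerivAt Φ (deriv FQ t - S' t (F t) (1, F') + K) t := by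
      have h6 := (dQ.hasDerivAt.sub hcomp).add ((hasDerivAt_id t).const_mul K)
      rw [mul_one] at h6
      exact h6
    rw [hΦd.deriv]
    have hsplit : S' t (F t) (1, F') = S' t (F t) (1, 0) + S' t (F t) (0, F') := by
      rw [← map_add]
      simp
    -- the derivative inequality
    set A : (ι → ℝ) →L[ℝ] ℝ := (S' t (F t)).comp (ContinuousLinearMap.inr ℝ ℝ (ι → ℝ)) with hA
    have hAe : ∀ v, A v = S' t (F t) (0, v) := fun v => by
      rw [hA]
      rfl
    set R : ℝ → ℝ := fun x => FQ x - A (F x) - ∑ j, θ j * s7F μ g (q j) x with hR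
    have hRd : HasDerivAt R (deriv FQ t - A F' - ∑ j, θ j * deriv (s7F μ g (q j)) t) t := by
      have h1 : HasDerivAt (fun x => A (F x)) (A F') t :=
        (A.hasFDerivAt (x := F t)).comp_hasDerivAt t hFd'
      have h2 : HasDerivAt (fun x => ∑ j, θ j * s7F μ g (q j) x)
          (∑ j, θ j * deriv (s7F μ g (q j)) t) t := by
        have := HasDerivAt.fun_sum (u := (Finset.univ : Finset κ))
          (A := fun j x => θ j * s7F μ g (q j) x)
          (A' := fun j => θ j * deriv (s7F μ g (q j)) t) (x := t)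
          (fun j _ => (dq j).hasDerivAt.const_mul (θ j))
        exact this
      exact (dQ.hasDerivAt.sub h1).sub h2
    have hRinc : ∀ x, t ≤ x → x < t + δ → x ≤ r1 → -(L * (x - t) * (b x - b t)) ≤ R x - R t := by
      intro x h1 h2 h3
      have e1 := s7V_lin μ hg hγ A
      have e2 : A (F x - F t) = ∫ o in {o | t ≤ g o ∧ g o < x}, (A fun i => γ i o) ∂μ :=
        e1.2 t x h1
      have e3 : ∑ j, θ j * s7F μ g (q j) x - ∑ j, θ j * s7F μ g (q j) t =
          ∫ o in {o | t ≤ g o ∧ g o < x}, ∑ j, θ j * q j o ∂μ := by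
        rw [integral_finsetSum _ fun j _ => ((hq j).const_mul (θ j)).integrableOn,
          ← Finset.sum_sub_distrib]
        refine Finset.sum_congr rfl fun j _ => ?_
        rw [integral_const_mul, ← s7F_sub μ hg (hq j) h1]
        ring
      have hqi : Integrable (fun o => ∑ j, θ j * q j o) μ :=
        integrable_finsetSum _ fun j _ => (hq j).const_mul (θ j)
      have e4 : (∫ o in {o | t ≤ g o ∧ g o < x}, (A fun i => γ i o) ∂μ) +
          ∫ o in {o | t ≤ g o ∧ g o < x}, ∑ j, θ j * q j o ∂μ ≤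
          FQ x - FQ t + L * (x - t) * (b x - b t) := by
        rw [← integral_add e1.1.integrableOn hqi.integrableOn]
        refine herr t x h1 _ (e1.1.add hqi) ?_
        filter_upwards [hδ] with o ho ho1 ho2
        have h4 := ho ho1 (ho2.trans h2)
        have h5 : L * (g o - t) ≤ L * (x - t) := mul_le_mul_of_nonneg_left (by linarith) hL
        rw [hAe]
        linarith
      have e5 : R x - R t = FQ x - FQ t - A (F x - F t) -
          (∑ j, θ j * s7F μ g (q j) x - ∑ j, θ j * s7F μ g (q j) t) := by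
        rw [hR, map_sub]
        ring
      rw [e5, e2, e3]
      linarith
    have hR0 : 0 ≤ deriv FQ t - A F' - ∑ j, θ j * deriv (s7F μ g (q j)) t := by
      have e0 : Tendsto (fun x => -(L * (b x - b t))) (𝓝[>] t) (𝓝 0) := by
        have h1 : Tendsto b (𝓝 t) (𝓝 (b t)) := db.continuousAt
        have h2 : Tendsto (fun x => -(L * (b x - b t))) (𝓝 t) (𝓝 (-(L * (b t - b t)))) :=
          ((h1.sub_const _).const_mul L).neg
        rw [sub_self, mul_zero, neg_zero] at h2
        exact h2.mono_left nhdsWithin_le_nhds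
      have e1 := (hasDerivAt_iff_tendsto_slope.1 hRd).mono_left
        (nhdsWithin_mono t (fun x (hx : x ∈ Ioi t) => (ne_of_gt hx : x ≠ t)))
      refine le_of_tendsto_of_tendsto e0 e1 ?_
      have hnear : ∀ᶠ x in 𝓝[>] t, x ∈ Ioo t (min r1 (t + δ)) :=
        Ioo_mem_nhdsGT (lt_min ht.2 (by linarith))
      filter_upwards [hnear] with x hx
      have e3 := hRinc x hx.1.le (lt_of_lt_of_le hx.2 (min_le_right _ _))
        (hx.2.le.trans (min_le_left _ _))
      have e4 : 0 < x - t := sub_pos.2 hx.1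
      simp only [slope, vsub_eq_sub, smul_eq_mul]
      rw [← sub_nonneg] at e3 ⊢
      have e5 : (x - t)⁻¹ * (R x - R t) - -(L * (b x - b t)) =
          (x - t)⁻¹ * (R x - R t - -(L * (x - t) * (b x - b t))) := by
        field_simp
      rw [e5]
      exact mul_nonneg (inv_nonneg.2 e4.le) e3
    rw [hsplit]
    rw [hAe] at hR0
    linarith
  have hlow : K * (r1 - r0) ≤ ∫ t in r0..r1, deriv Φ t := by
    have h1 : ∫ _t in r0..r1, K = K * (r1 - r0) := by
      rw [intervalIntegral.integral_const, smul_eq_mul, mul_comm]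
    rw [← h1, intervalIntegral.integral_of_le hr, intervalIntegral.integral_of_le hr,
      ← integral_Ioc_eq_integral_Ioo.symm, ← integral_Ioc_eq_integral_Ioo.symm]
    refine setIntegral_mono_on_ae (by simp) ?_ measurableSet_Ioo key
    exact ((intervalIntegrable_iff_integrableOn_Ioc_of_le hr).1 hdint).mono_set
      Ioo_subset_Ioc_self
  have hfin : H r0 ≤ H r1 := by
    have := hint.2
    simp only [hΦ] at this
    linarith
  rw [← s7F_sub μ hg hQ hr, ← hFQ]
  simp only [hH] at hfin
  linarith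

end main

end Pool.Agent.FPX
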