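import Mathlib
import Pool.Agent.FPX.S7W
import Pool.Agent.FPX.IMH
import Pool.Agent.FPX.KVI
import Pool.Agent.FPM.ODJ

/-
S7O (helper82): the multi-state level lemma `s7_hjV` for `g = -|χ|`, `χ` odd, with the two lengths
`|dχ|` (isoperimetric inequality `IsopO`) and `|dχ ∧ dv|` (theorem `img`).
-/

open MeasureTheory Set Filter Topology
open scoped ENNReal NNReal

noncomputable section

namespace Pool.Agent.FPX

open Pool.Agent.EWD Pool.Agent.FPM

variable {M : Type} [MetricSpace M] {γ : ℝ → M}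

/-- the operator norm of `dv` -/
def opn (C : Calc M γ) (v : Fin 3 → M → ℝ) (o : Om) : ℝ :=
  ‖qp (at' C v o) (dx C v o) (dy C v o)‖ + ‖qm (at' C v o) (dx C v o) (dy C v o)‖

theorem rot_norm {v p : E3} (hv : ‖v‖ = 1) (hp : inner ℝ v p = (0 : ℝ)) (x y : ℝ) :
    ‖x • crs v p + y • p‖ = √(x ^ 2 + y ^ 2) * ‖p‖ := by
  have h1 : ‖x • crs v p + y • p‖ ^ 2 = (√(x ^ 2 + y ^ 2) * ‖p‖) ^ 2 := by
    rw [norm_add_sq_real, norm_smul, norm_smul, mul_pow, mul_pow, mul_pow, inner_smul_left,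
      inner_smul_right, real_inner_comm p (crs v p), inner_crs_right v p, Real.norm_eq_abs, Real.norm_eq_abs, sq_abs, sq_abs,
      Real.sq_sqrt (by positivity), norm_crs hv hp]
    simp only [conj_trivial]
    ring
  exact (pow_left_inj₀ (norm_nonneg _) (by positivity) two_ne_zero).1 h1

theorem wn_opn (C : Calc M γ) {v : Fin 3 → M → ℝ} (hv : Sph γ v) (χ : M → ℝ) :
    ∀ᵐ o ∂C.μ, wn C χ v o ≤ opn C v o * gn C χ o := by
  filter_upwards [ae_perp C hv] with o h1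
  have h0 := norm_at (C := C) hv (o := o)
  unfold wn opn gn
  set w := at' C v o
  set a := dx C v o
  set b := dy C v o
  set x := C.gx χ o
  set y := C.gy χ o
  set p := qp w a b with hp
  set q := qm w a b with hq
  have pp : inner ℝ w p = (0 : ℝ) := qp_perp h0 a b
  have pq : inner ℝ w q = (0 : ℝ) := qm_perp h0 a b
  have e1 : a = p + q := by
    rw [hp, hq, qp_add_qm, prj_of_perp h1.1]
  have e2 : b = -crs w (p - q) := by
    rw [hp, hq, qp_sub_qm, crs_crs h0, neg_neg, prj_of_perp h1.2]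
  have e3 : x • b - y • a = -(x • crs w p + y • p) + (x • crs w q + (-y) • q) := by
    rw [e2]
    conv_lhs => rw [e1]
    rw [crs_sub]
    module
  rw [e3]
  refine (norm_add_le _ _).trans ?_
  rw [norm_neg, rot_norm h0 pp, rot_norm h0 pq, neg_sq]
  apply le_of_eq
  ring

/-- the integral over `{-|χ| < t}` -/
def nlev (C : Calc M γ) (χ : M → ℝ) (f : Om → ℝ) (t : ℝ) : ℝ :=
  ∫ o in {o | -|χ (C.pt o)| < t}, f o ∂C.μ

theorem nlev_eq (C : Calc M γ) {χ : M → ℝ} (hχ : Lip χ) {f : Om → ℝ} (hf : Integrable f C.μ)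
    (h0 : ∀ᵐ o ∂C.μ, gn C χ o = 0 → f o = 0) (r : ℝ) :
    nlev C χ f r = (∫ o, f o ∂C.μ) - ∫ o in {o | |χ (C.pt o)| < -r}, f o ∂C.μ := by
  have hm : NullMeasurableSet {o | -|χ (C.pt o)| < r} C.μ := meas_pt_lt C (lip_abs hχ).neg r
  have hm' : NullMeasurableSet {o | |χ (C.pt o)| < -r} C.μ := meas_pt_lt C (lip_abs hχ) (-r)
  unfold nlev
  rw [← integral_indicator₀ hm, ← integral_indicator₀ hm', ← integral_sub hf (hf.indicator₀ hm')]
  refine integral_congr_ae ?_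
  filter_upwards [grad_level C (lip_abs hχ) (-r), gn_abs C hχ, h0] with o ho ha h00
  rcases lt_trichotomy (|χ (C.pt o)|) (-r) with h | h | h
  · have h1 : o ∉ {o | -|χ (C.pt o)| < r} := fun h2 => by
      have h3 : -|χ (C.pt o)| < r := h2
      linarith
    have h2 : o ∈ {o | |χ (C.pt o)| < -r} := h
    rw [indicator_of_notMem h1, indicator_of_mem h2, sub_self]
  · have h1 : o ∉ {o | -|χ (C.pt o)| < r} := fun h2 => by
      have h3 : -|χ (C.pt o)| < r := h2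
      linarith
    have h2 : o ∉ {o | |χ (C.pt o)| < -r} := fun h2 => by
      have h3 : |χ (C.pt o)| < -r := h2
      linarith
    rw [indicator_of_notMem h1, indicator_of_notMem h2, sub_zero]
    have h3 : gn C χ o = 0 := by
      rw [← ha]
      unfold gn
      rw [(ho h).1, (ho h).2]
      simp
    exact (h00 h3).symm
  · have h1 : o ∈ {o | -|χ (C.pt o)| < r} := by
      change -|χ (C.pt o)| < r
      linarith
    have h2 : o ∉ {o | |χ (C.pt o)| < -r} := fun h2 => by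
      have h3 : |χ (C.pt o)| < -r := h2
      linarith
    rw [indicator_of_mem h1, indicator_of_notMem h2, sub_zero]

theorem nlev_has (C : Calc M γ) {χ : M → ℝ} (hχ : Lip χ) {f : Om → ℝ} (hf : Integrable f C.μ)
    (h0 : ∀ᵐ o ∂C.μ, gn C χ o = 0 → f o = 0) {t : ℝ}
    (hd : DifferentiableAt ℝ (fun s => ∫ o in {o | |χ (C.pt o)| < s}, f o ∂C.μ) (-t)) :
    HasDerivAt (nlev C χ f) (deriv (fun s => ∫ o in {o | |χ (C.pt o)| < s}, f o ∂C.μ) (-t)) t := by
  have h4 := (hd.hasDerivAt.comp t (hasDerivAt_neg t)).const_sub (∫ o, f o ∂C.μ)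
  have e : -(deriv (fun s => ∫ o in {o | |χ (C.pt o)| < s}, f o ∂C.μ) (-t) * -1)
      = deriv (fun s => ∫ o in {o | |χ (C.pt o)| < s}, f o ∂C.μ) (-t) := by ring
  rw [e] at h4
  have h5 : nlev C χ f = fun r => (∫ o, f o ∂C.μ)
      - ((fun s => ∫ o in {o | |χ (C.pt o)| < s}, f o ∂C.μ) ∘ Neg.neg) r :=
    funext fun r => nlev_eq C hχ hf h0 r
  rw [h5]
  exact h4

/-- a measurable representative of `-|χ|` -/
theorem neg_rep (C : Calc M γ) {χ : M → ℝ} (hχ : Lip χ) : ∃ g : Om → ℝ, Measurable g ∧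
    (∀ᵐ o ∂C.μ, g o = -|χ (C.pt o)|) ∧ ∀ f t, s7F C.μ g f t = nlev C χ f t := by
  have h1 : AEMeasurable (fun o => -|χ (C.pt o)|) C.μ := aem_pt C (lip_abs hχ).neg
  refine ⟨h1.mk _, h1.measurable_mk, h1.ae_eq_mk.mono fun o ho => ho.symm, fun f t => ?_⟩
  unfold s7F nlev
  refine setIntegral_congr_set ?_
  filter_upwards [h1.ae_eq_mk] with o ho
  exact propext ⟨fun h => by
    change -|χ (C.pt o)| < t
    rw [ho]
    exact h, fun h => by
    change h1.mk _ o < t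
    rw [← ho]
    exact h⟩

theorem nlev_one (C : Calc M γ) (χ : M → ℝ) (t : ℝ) :
    nlev C χ (fun _ => 1) t = (C.μ {o | -t < |χ (C.pt o)|}).toReal := by
  have e : {o | -|χ (C.pt o)| < t} = {o | -t < |χ (C.pt o)|} := by
    ext o
    change -|χ (C.pt o)| < t ↔ -t < |χ (C.pt o)|
    exact neg_lt
  unfold nlev
  rw [e]
  simp [Measure.real]

theorem nlev_jac (C : Calc M γ) (χ : M → ℝ) (v : Fin 3 → M → ℝ) (t : ℝ) :
    nlev C χ (jac C v) t = supj C χ v (-t) := by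
  have e : {o | -|χ (C.pt o)| < t} = {o | -t < |χ (C.pt o)|} := by
    ext o
    change -|χ (C.pt o)| < t ↔ -t < |χ (C.pt o)|
    exact neg_lt
  unfold nlev supj
  rw [e]

theorem nlev_mono (C : Calc M γ) {χ : M → ℝ} (hχ : Lip χ) {f : Om → ℝ} (hf : Integrable f C.μ)
    (h0 : ∀ o, 0 ≤ f o) : Monotone (nlev C χ f) := by
  have := C.fin
  obtain ⟨g, hg, -, h2⟩ := neg_rep C hχ
  have h3 : nlev C χ f = s7F C.μ g f := funext fun t => (h2 f t).symm
  rw [h3]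
  exact s7F_mono C.μ hg hf h0

/-- the two length inequalities at almost every level -/
theorem odd_len [CompactSpace M] (C : Calc M γ) (hγ : Bd γ) (hR : RegAE C) {v : Fin 3 → M → ℝ}
    (hv : Sph γ v) {χ : M → ℝ} (hχ : Lip χ) (oχ : EWD.OddB γ χ) {κ ε : ℝ} (hI : IsopO C κ ε) :
    ∀ᵐ t : ℝ, t < 0 → κ * (nlev C χ (fun _ => 1) t - ε) ≤ deriv (nlev C χ (gn C χ)) t ^ 2 ∧
      nlev C χ (jac C v) t * (4 * Real.pi - nlev C χ (jac C v) t) ≤
        deriv (nlev C χ (wn C χ v)) t ^ 2 ∧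
      0 ≤ deriv (nlev C χ (gn C χ)) t ∧ 0 ≤ deriv (nlev C χ (wn C χ v)) t := by
  have hneg := (Measure.measurePreserving_neg (volume : Measure ℝ)).quasiMeasurePreserving
  have m1 := nlev_mono C hχ (int_gn C hχ) (gn_nonneg C χ)
  have m2 := nlev_mono C hχ (wn_int C hv.lip hχ) (wn_nonneg C χ v)
  have ew : ∀ᵐ o ∂C.μ, gn C χ o = 0 → wn C χ v o = 0 := by
    filter_upwards [wn_opn C hv χ] with o ho h
    rw [h, mul_zero] at ho
    exact le_antisymm ho (wn_nonneg C χ v o)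
  have elev : (lev C fun x => |χ x|) = fun s => ∫ o in {o | |χ (C.pt o)| < s}, gn C χ o ∂C.μ := by
    funext s
    unfold lev
    exact integral_congr_ae (ae_restrict_of_ae (gn_abs C hχ))
  filter_upwards [hneg.ae (hI χ hχ fun t => oχ t), hneg.ae (img C hγ hR hv hχ oχ)] with t h1 h2 h0
  obtain ⟨d1, i1⟩ := h1 (by linarith)
  obtain ⟨d2, i2⟩ := h2 (by linarith)
  rw [elev] at d1 i1
  have k1 := nlev_has C hχ (int_gn C hχ) (ae_of_all _ fun o h => h) d1
  have k2 := nlev_has C hχ (wn_int C hv.lip hχ) ew d2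
  refine ⟨?_, ?_, ?_, ?_⟩
  · rw [k1.deriv, nlev_one]
    exact i1
  · rw [k2.deriv, nlev_jac]
    exact i2
  · exact m1.deriv_nonneg
  · exact m2.deriv_nonneg

/-- **the multi-state level lemma for odd functions** -/
theorem odd_hj [CompactSpace M] (C : Calc M γ) (hγ : Bd γ) (hR : RegAE C) {v : Fin 3 → M → ℝ}
    (hv : Sph γ v) {χ : M → ℝ} (hχ : Lip χ) (oχ : EWD.OddB γ χ) {κ ε : ℝ} (hI : IsopO C κ ε)
    {ι : Type*} [Fintype ι] {γs : ι → Om → ℝ} (hγs : ∀ i, Integrable (γs i) C.μ) {i0 i1 : ι}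
    (h0 : γs i0 = fun _ => 1) (h1 : γs i1 = jac C v) {pot : Om → ℝ} (hpot : Integrable pot C.μ)
    {c r0 r1 L : ℝ} (hc : 0 < c) (hr : r0 ≤ r1) (hr1 : r1 ≤ 0) (hL : 0 ≤ L) {D : Set (ι → ℝ)}
    (hD : Convex ℝ D) (hF : ∀ t, r0 ≤ t → t ≤ r1 → (fun i => nlev C χ (γs i) t) ∈ D)
    {S : ℝ → (ι → ℝ) → ℝ} {S' : ℝ → (ι → ℝ) → (ℝ × (ι → ℝ)) →L[ℝ] ℝ}
    (hS : ∀ t x, r0 ≤ t → t ≤ r1 → x ∈ D →
      HasFDerivAt (fun z : ℝ × (ι → ℝ) => S z.1 z.2) (S' t x) (t, x))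
    (hSt : ∀ t x, r0 ≤ t → t ≤ r1 → x ∈ D → S' t x (1, 0) ≤ L)
    (hSx : ∀ᵐ o ∂C.μ, ∀ t x, t ≤ r1 → x ∈ D → r0 ≤ -|χ (C.pt o)| → -|χ (C.pt o)| < t →
      S' t x (0, fun i => γs i o) ≤ pot o + L * (t + |χ (C.pt o)|))
    (hj : ∀ᵐ t : ℝ, r0 < t → t < r1 → ∀ l V : ℝ, 0 ≤ l → 0 ≤ V →
      κ * (nlev C χ (γs i0) t - ε) ≤ l ^ 2 →
      nlev C χ (γs i1) t * (4 * Real.pi - nlev C χ (γs i1) t) ≤ V ^ 2 →
      ∃ θ1 θ2 : ℝ, 0 ≤ θ1 ∧ 0 ≤ θ2 ∧
        S' t (fun i => nlev C χ (γs i) t) (1, 0) ≤ θ1 * l + θ2 * V ∧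
        ∃ δ > 0, ∀ᵐ o ∂C.μ, t ≤ -|χ (C.pt o)| → -|χ (C.pt o)| < t + δ →
          (θ1 + θ2 * opn C v o) ^ 2 ≤ 4 * c * (pot o
            - S' t (fun i => nlev C χ (γs i) t) (0, fun i => γs i o)
            + L * (-|χ (C.pt o)| - t))) :
    S r1 (fun i => nlev C χ (γs i) r1) - S r0 (fun i => nlev C χ (γs i) r0) ≤
      ∫ o in {o | r0 ≤ -|χ (C.pt o)| ∧ -|χ (C.pt o)| < r1}, (pot o + c * gn C χ o ^ 2) ∂C.μ := by
  have := C.fin
  obtain ⟨g, hg, hge, hs⟩ := neg_rep C hχ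
  have hFe : ∀ t, (fun i => s7F C.μ g (γs i) t) = fun i => nlev C χ (γs i) t :=
    fun t => funext fun i => hs _ t
  have hq : ∀ j : Fin 2, Integrable ((![gn C χ, wn C χ v] : Fin 2 → Om → ℝ) j) C.μ := by
    intro j
    fin_cases j
    · exact int_gn C hχ
    · exact wn_int C hv.lip hχ
  have hQ : Integrable (fun o => pot o + c * gn C χ o ^ 2) C.μ :=
    hpot.add ((int_gn_sq C hχ).const_mul c)
  have hfin := s7_hjV C.μ hg hγs hq hQ hr hL hD (fun t a b => by rw [hFe]; exact hF t a b) hS hSt ?_ ?_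
  · rw [hFe, hFe] at hfin
    refine hfin.trans (le_of_eq ?_)
    refine setIntegral_congr_set ?_
    filter_upwards [hge] with o ho
    exact propext ⟨fun h => by
      have h2 : r0 ≤ g o ∧ g o < r1 := h
      rw [ho] at h2
      exact h2, fun h => by
      have h2 : r0 ≤ -|χ (C.pt o)| ∧ -|χ (C.pt o)| < r1 := h
      rw [← ho] at h2
      exact h2⟩
  · filter_upwards [hSx, hge] with o ho he t x a b d e
    rw [he] at d e ⊢
    have h2 := ho t x a b d e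
    have h3 : 0 ≤ c * gn C χ o ^ 2 := by positivity
    have h4 : L * (t - -|χ (C.pt o)|) = L * (t + |χ (C.pt o)|) := by ring
    rw [h4]
    linarith
  · filter_upwards [hj, odd_len C hγ hR hv hχ oχ hI] with t ht hl a b
    obtain ⟨l1, l2, l3, l4⟩ := hl (by linarith)
    rw [h0, h1] at ht
    obtain ⟨θ1, θ2, hθ1, hθ2, hle, δ, hδ, hae⟩ := ht a b _ _ l3 l4 l1 l2
    refine ⟨![θ1, θ2], ?_, δ, hδ, ?_⟩
    · rw [hFe, Fin.sum_univ_two]
      have e1 : s7F C.μ g ((![gn C χ, wn C χ v] : Fin 2 → Om → ℝ) 0) = nlev C χ (gn C χ) :=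
        funext fun r => hs _ r
      have e2 : s7F C.μ g ((![gn C χ, wn C χ v] : Fin 2 → Om → ℝ) 1) = nlev C χ (wn C χ v) :=
        funext fun r => hs _ r
      rw [e1, e2]
      exact hle
    · filter_upwards [hae, hge, wn_opn C hv χ] with o ho he hw c1 c2
      rw [he] at c1 c2
      have h2 := ho c1 c2
      rw [hFe, Fin.sum_univ_two]
      change _ + (θ1 * gn C χ o + θ2 * wn C χ v o) ≤ _
      rw [he]
      have hg0 := gn_nonneg C χ o
      set X := S' t (fun i => nlev C χ (γs i) t) (0, fun i => γs i o)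
      have h3 : θ2 * wn C χ v o ≤ θ2 * (opn C v o * gn C χ o) := mul_le_mul_of_nonneg_left hw hθ2
      have h4 : (θ1 + θ2 * opn C v o) * gn C χ o ≤
          c * gn C χ o ^ 2 + (θ1 + θ2 * opn C v o) ^ 2 / (4 * c) := by
        have h5 : c * gn C χ o ^ 2 + (θ1 + θ2 * opn C v o) ^ 2 / (4 * c)
            - (θ1 + θ2 * opn C v o) * gn C χ o
            = (2 * c * gn C χ o - (θ1 + θ2 * opn C v o)) ^ 2 / (4 * c) := by
          field_simp
          ring
        have h6 : 0 ≤ (2 * c * gn C χ o - (θ1 + θ2 * opn C v o)) ^ 2 / (4 * c) := by positivity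
        linarith
      have h7 : (θ1 + θ2 * opn C v o) ^ 2 / (4 * c) ≤ pot o - X + L * (-|χ (C.pt o)| - t) := by
        rw [div_le_iff₀ (by positivity)]
        linarith
      nlinarith
 
end Pool.Agent.FPX
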