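import Mathlib
import Pool.Agent.FPX.S7O

/-
IMN (helper91): the spherical isoperimetric inequality for the images of level lines for both signs of
the image area, and the multi-state level lemma with it.
-/

open MeasureTheory Set Filter Topology
open scoped ENNReal NNReal

noncomputable section

namespace Pool.Agent.FPX

open Pool.Agent.EWD Pool.Agent.FPM

variable {M : Type} [MetricSpace M] {γ : ℝ → M}

private theorem imn_alg {a e I V : ℝ} (h1 : e ≤ I) (h2 : a ≤ I)
    (h3 : I ≤ a * e + 1 / (4 * Real.pi) * (√(e * (1 - e)) * V)) (he0 : 0 ≤ e) (he1 : e ≤ 1) :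
    (4 * Real.pi * a) * (4 * Real.pi - 4 * Real.pi * a) ≤ V ^ 2 := by
  have hpi := Real.pi_pos
  set w : ℝ := V / (4 * Real.pi) with hw
  have hV : V = 4 * Real.pi * w := by
    rw [hw]
    field_simp
  have h4 : 1 / (4 * Real.pi) * (√(e * (1 - e)) * V) = √(e * (1 - e)) * w := by
    rw [hw]
    field_simp
  rw [h4] at h3
  have key : a * (1 - a) ≤ w ^ 2 := by
    rcases le_or_gt a 0 with ha | ha
    · nlinarith [sq_nonneg w]
    rcases le_or_gt 1 a with ha1 | ha1
    · nlinarith [sq_nonneg w]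
    rcases he0.eq_or_lt with he | he
    · rw [← he] at h3
      simp at h3
      linarith
    rcases he1.eq_or_lt with he' | he'
    · rw [he'] at h3 h1
      simp at h3
      linarith
    have hr : 0 < e * (1 - e) := by nlinarith
    set r : ℝ := √(e * (1 - e)) with hrd
    have hr2 : r ^ 2 = e * (1 - e) := Real.sq_sqrt hr.le
    have hr0 : 0 < r := Real.sqrt_pos.2 hr
    rcases le_total a e with hae | hae
    · -- `e (1 - a) ≤ r w`
      have k1 : e * (1 - a) ≤ r * w := by nlinarith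
      have k0 : 0 ≤ e * (1 - a) := by nlinarith
      have k2 : (e * (1 - a)) ^ 2 ≤ e * (1 - e) * w ^ 2 := by
        rw [← hr2, ← mul_pow]
        exact pow_le_pow_left₀ k0 k1 2
      have k3 : e * (1 - a) ^ 2 ≤ (1 - e) * w ^ 2 := by
        have : e * (e * (1 - a) ^ 2) ≤ e * ((1 - e) * w ^ 2) := by nlinarith
        exact le_of_mul_le_mul_left this he
      have k4 : a * (1 - a) ^ 2 ≤ (1 - a) * w ^ 2 := by
        have k5 : a * (1 - a) ^ 2 ≤ e * (1 - a) ^ 2 := mul_le_mul_of_nonneg_right hae (sq_nonneg _)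
        have k6 : (1 - e) * w ^ 2 ≤ (1 - a) * w ^ 2 :=
          mul_le_mul_of_nonneg_right (by linarith) (sq_nonneg _)
        linarith
      have k7 : (1 - a) * (a * (1 - a)) ≤ (1 - a) * w ^ 2 := by nlinarith
      exact le_of_mul_le_mul_left k7 (by linarith)
    · have k1 : a * (1 - e) ≤ r * w := by nlinarith
      have k0 : 0 ≤ a * (1 - e) := by nlinarith
      have k2 : (a * (1 - e)) ^ 2 ≤ e * (1 - e) * w ^ 2 := by
        rw [← hr2, ← mul_pow]
        exact pow_le_pow_left₀ k0 k1 2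
      have k3 : a ^ 2 * (1 - e) ≤ e * w ^ 2 := by
        have : (1 - e) * (a ^ 2 * (1 - e)) ≤ (1 - e) * (e * w ^ 2) := by nlinarith
        exact le_of_mul_le_mul_left this (by linarith)
      have k4 : a * (a * (1 - e)) ≤ a * w ^ 2 := by
        have := mul_le_mul_of_nonneg_right hae (sq_nonneg w)
        nlinarith
      have k5 : a * (1 - e) ≤ w ^ 2 := le_of_mul_le_mul_left k4 ha
      nlinarith
  rw [hV]
  have h5 : (4 * Real.pi) ^ 2 * (a * (1 - a)) ≤ (4 * Real.pi) ^ 2 * w ^ 2 :=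
    mul_le_mul_of_nonneg_left key (by positivity)
  nlinarith

/-- the inequality at one level, negative orientation -/
theorem img_at_neg [CompactSpace M] (C : Calc M γ) (hγ : Bd γ) (hR : RegAE C) {v : Fin 3 → M → ℝ}
    (hv : Sph γ v) {χ : M → ℝ} (hχ : Lip χ) (oχ : EWD.OddB γ χ) {t : ℝ} (ht : 0 < t)
    (h1 : ∀ᵐ o ∂C.μ, |χ (C.pt o)| ≠ t) (hd : DifferentiableAt ℝ (levw C χ v) t) :
    -supj C χ v t * (4 * Real.pi - -supj C χ v t) ≤ deriv (levw C χ v) t ^ 2 := by
  have := C.fin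
  have hpi := Real.pi_pos
  obtain ⟨h, hh, h0, h2⟩ := good_seq C hχ t
  obtain ⟨B, hB, hlim⟩ := gg_lim C hγ hR hv hχ oχ ht h1 hh h0 h2
  have hgi : ∀ n, Integrable (gg C χ v t (h n)) PP := fun n => gg_int C hv hχ t (hh n)
  obtain ⟨f, hfm, hf⟩ := measurable_limit_of_tendsto_metrizable_ae (μ := PP)
    (f := fun n p => gg C χ v t (h n) p) (L := atTop) (fun n => (hgi n).aemeasurable) (by
      filter_upwards [hlim] with p hp
      obtain ⟨m, hm⟩ := hp.1
      exact ⟨m, hm⟩)
  -- the values of the limit are integers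
  have hfz : ∀ᵐ p ∂PP, ∃ m : ℤ, f p = m := by
    filter_upwards [hlim, hf] with p hp1 hp2
    obtain ⟨m, hm⟩ := hp1.1
    exact ⟨m, tendsto_nhds_unique hp2 hm⟩
  have hfB : ∀ᵐ p ∂PP, |f p| ≤ B p := by
    filter_upwards [hlim, hf] with p hp1 hp2
    exact le_of_tendsto' hp2.abs hp1.2
  have hfi : Integrable f PP := hB.mono' hfm.aestronglyMeasurable (by
    filter_upwards [hfB] with p hp
    rwa [Real.norm_eq_abs])
  -- the averages
  set A : ℕ → ℝ := fun n => (1 / (4 * Real.pi)) * ∫ o, rmp t (h n) |χ (C.pt o)| * jac C v o ∂C.μ with hA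
  set V : ℕ → ℝ := fun n => ∫ o, (rmd t (h n) (χ (C.pt o)) + rmd t (h n) (-χ (C.pt o))) *
    wn C χ v o ∂C.μ with hVd
  have hS : ∀ (S : Set E3) (n : ℕ), |∫ p in S, gg C χ v t (h n) p ∂PP - A n * PP.real S| ≤
      1 / (4 * Real.pi) * (√(PP.real S * (1 - PP.real S)) * V n) := by
    intro S n
    have hk := (ker_int C hv hχ t (hh n)).integral_prod_right
    have e : ∫ p in S, gg C χ v t (h n) p ∂PP = 1 / (4 * Real.pi) *
        (∫ p in S, ∫ o, ker C χ v t (h n) p o ∂C.μ ∂PP) + A n * PP.real S := by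
      unfold gg
      rw [integral_const_mul, integral_add hk.integrableOn (integrable_const _).integrableOn,
        setIntegral_const, smul_eq_mul]
      simp only [hA]
      ring
    rw [e, add_sub_cancel_right, abs_mul, abs_of_pos (by positivity : 0 < 1 / (4 * Real.pi))]
    exact mul_le_mul_of_nonneg_left (ker_set C hv hχ t (hh n) S) (by positivity)
  -- limits
  have hmS : ∀ S : Set E3, Tendsto (fun n => ∫ p in S, gg C χ v t (h n) p ∂PP) atTop
      (𝓝 (∫ p in S, f p ∂PP)) := by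
    intro S
    refine tendsto_integral_of_dominated_convergence B (fun n => (hgi n).aestronglyMeasurable.restrict)
      hB.integrableOn (fun n => ae_restrict_of_ae ?_) (ae_restrict_of_ae hf)
    filter_upwards [hlim] with p hp
    rw [Real.norm_eq_abs]
    exact hp.2 n
  set a : ℝ := (1 / (4 * Real.pi)) * supj C χ v t with ha
  have hAa : Tendsto A atTop (𝓝 a) := by
    refine Tendsto.const_mul _ ?_
    have hja := jac_integrable C hv
    have hD : NullMeasurableSet {o | t < |χ (C.pt o)|} C.μ :=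
      nullMeasurableSet_lt aemeasurable_const (C.meas_pt (lip_absf hχ))
    have e : supj C χ v t = ∫ o, (Ioi t).indicator (fun _ => (1 : ℝ)) |χ (C.pt o)| * jac C v o ∂C.μ := by
      unfold supj
      rw [← integral_indicator₀ hD]
      refine integral_congr_ae (Eventually.of_forall fun o => ?_)
      simp only
      by_cases h3 : t < |χ (C.pt o)|
      · rw [indicator_of_mem (show o ∈ {o | t < |χ (C.pt o)|} from h3),
          indicator_of_mem (show |χ (C.pt o)| ∈ Ioi t from h3), one_mul]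
      · rw [indicator_of_notMem (show o ∉ {o | t < |χ (C.pt o)|} from h3),
          indicator_of_notMem (show |χ (C.pt o)| ∉ Ioi t from h3), zero_mul]
    rw [e]
    refine tendsto_integral_of_dominated_convergence (fun o => |jac C v o|)
      (fun n => (rj_int C hv hχ t (h n)).aestronglyMeasurable) hja.abs
      (fun n => Eventually.of_forall fun o => ?_) (Eventually.of_forall fun o => ?_)
    · rw [Real.norm_eq_abs, abs_mul, abs_of_nonneg (rmp_nonneg _ _ _)]
      exact mul_le_of_le_one_left (abs_nonneg _) (rmp_le _ _ _)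
    · exact (rmp_lim hh h0 _).mul_const _
  have hVl : ∀ n, V n ≤ (h n)⁻¹ * (levw C χ v (t + h n) - levw C χ v t) := fun n =>
    mass_le C hv.lip hχ (hh n) ht
  have hslope : Tendsto (fun n => (h n)⁻¹ * (levw C χ v (t + h n) - levw C χ v t)) atTop
      (𝓝 (deriv (levw C χ v) t)) := by
    have h3 := hasDerivAt_iff_tendsto_slope_zero.1 hd.hasDerivAt
    have h4 : Tendsto h atTop (𝓝[≠] 0) := by
      rw [tendsto_nhdsWithin_iff]
      exact ⟨h0, Eventually.of_forall fun n => (hh n).ne'⟩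
    exact h3.comp h4
  have hSl : ∀ S : Set E3, |∫ p in S, f p ∂PP - a * PP.real S| ≤
      1 / (4 * Real.pi) * (√(PP.real S * (1 - PP.real S)) * deriv (levw C χ v) t) := by
    intro S
    have l1 : Tendsto (fun n => |∫ p in S, gg C χ v t (h n) p ∂PP - A n * PP.real S|) atTop
        (𝓝 |∫ p in S, f p ∂PP - a * PP.real S|) := ((hmS S).sub (hAa.mul_const _)).abs
    have l2 : Tendsto (fun n => 1 / (4 * Real.pi) * (√(PP.real S * (1 - PP.real S)) *
        ((h n)⁻¹ * (levw C χ v (t + h n) - levw C χ v t)))) atTop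
        (𝓝 (1 / (4 * Real.pi) * (√(PP.real S * (1 - PP.real S)) * deriv (levw C χ v) t))) :=
      (hslope.const_mul _).const_mul _
    refine le_of_tendsto_of_tendsto' l1 l2 fun n => (hS S n).trans ?_
    gcongr
    exact hVl n
  -- the total integral
  have htot : ∫ p, f p ∂PP = a := by
    have h3 := hSl univ
    rw [probReal_univ, sub_self, mul_zero, Real.sqrt_zero, zero_mul, mul_zero,
      Measure.restrict_univ, mul_one] at h3
    have h4 := abs_nonpos_iff.1 h3
    linarith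
  -- the sublevel set
  set E : Set E3 := {p | f p ≤ -1} with hE
  have hEm : MeasurableSet E := measurableSet_le hfm measurable_const
  have hE1 : PP.real E ≤ -∫ p in E, f p ∂PP := by
    have h3 : ∫ p in E, (1 : ℝ) ∂PP ≤ ∫ p in E, -f p ∂PP :=
      setIntegral_mono_on (integrable_const _).integrableOn hfi.neg.integrableOn hEm fun p hp => by
        have h4 : f p ≤ -1 := hp
        linarith
    rw [integral_neg] at h3
    rwa [setIntegral_const, smul_eq_mul, mul_one] at h3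
  have hE2 : -a ≤ -∫ p in E, f p ∂PP := by
    have h3 := integral_add_compl hEm hfi
    have h4 : 0 ≤ ∫ p in Eᶜ, f p ∂PP := by
      refine integral_nonneg_of_ae ?_
      filter_upwards [ae_restrict_mem hEm.compl, ae_restrict_of_ae hfz] with p hp1 hp2
      obtain ⟨m, hm⟩ := hp2
      have h5 : ¬ (m : ℝ) ≤ -1 := by
        rw [← hm]
        exact hp1
      have h6 : -1 < m := by
        by_contra h7
        exact h5 (by exact_mod_cast not_lt.1 h7)
      change 0 ≤ f p
      rw [hm]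
      have h7 : 0 ≤ m := by omega
      exact_mod_cast h7
    rw [htot] at h3
    linarith
  have hE3 := (abs_le.1 (hSl E)).1
  have hfin := imn_alg (V := deriv (levw C χ v) t) (a := -a) hE1 hE2 (by linarith) measureReal_nonneg
    measureReal_le_one
  have e1 : 4 * Real.pi * -a = -supj C χ v t := by
    rw [ha]
    field_simp
  rw [e1] at hfin
  exact hfin

/-- **Sharp spherical isoperimetry of the images of level lines, negative orientation.** -/
theorem img_neg [CompactSpace M] (C : Calc M γ) (hγ : Bd γ) (hR : RegAE C) {v : Fin 3 → M → ℝ}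
    (hv : Sph γ v) {χ : M → ℝ} (hχ : Lip χ) (oχ : EWD.OddB γ χ) : ∀ᵐ t : ℝ, 0 < t →
      -supj C χ v t * (4 * Real.pi - -supj C χ v t) ≤ deriv (levw C χ v) t ^ 2 := by
  have := C.fin
  have hc : Set.Countable {x : ℝ | 0 < C.μ {o | |χ (C.pt o)| = x}} :=
    Measure.countable_meas_level_set_pos₀ (C.meas_pt hχ).abs.nullMeasurable
  filter_upwards [(levw_mono C hv.lip hχ).ae_differentiableAt, hc.ae_notMem volume] with t h1 h2 h3
  refine img_at_neg C hγ hR hv hχ oχ h3 ?_ h1
  have h4 : C.μ {o | |χ (C.pt o)| = t} = 0 := by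
    simp only [not_lt, nonpos_iff_eq_zero] at h2
    exact h2
  exact measure_eq_zero_iff_ae_notMem.1 h4

/-- the two length inequalities at almost every level -/
theorem odd_len2 [CompactSpace M] (C : Calc M γ) (hγ : Bd γ) (hR : RegAE C) {v : Fin 3 → M → ℝ}
    (hv : Sph γ v) {χ : M → ℝ} (hχ : Lip χ) (oχ : EWD.OddB γ χ) {κ ε : ℝ} (hI : IsopO C κ ε) :
    ∀ᵐ t : ℝ, t < 0 → κ * (nlev C χ (fun _ => 1) t - ε) ≤ deriv (nlev C χ (gn C χ)) t ^ 2 ∧
      |nlev C χ (jac C v) t| * (4 * Real.pi - |nlev C χ (jac C v) t|) ≤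
        deriv (nlev C χ (wn C χ v)) t ^ 2 ∧
      0 ≤ deriv (nlev C χ (gn C χ)) t ∧ 0 ≤ deriv (nlev C χ (wn C χ v)) t := by
  have hneg := (Measure.measurePreserving_neg (volume : Measure ℝ)).quasiMeasurePreserving
  have m1 := nlev_mono C hχ (int_gn C hχ) (gn_nonneg C χ)
  have m2 := nlev_mono C hχ (wn_int C hv.lip hχ) (wn_nonneg C χ v)
  have ew : ∀ᵐ o ∂C.μ, gn C χ o = 0 → wn C χ v o = 0 := by
    filter_upwards [wn_opn C hv χ] with o ho h
    rw [h, mul_zero] at ho
    exact le_antisymm ho (wn_nonneg C χ v o)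
  have elev : (lev C fun x => |χ x|) = fun s => ∫ o in {o | |χ (C.pt o)| < s}, gn C χ o ∂C.μ := by
    funext s
    unfold lev
    exact integral_congr_ae (ae_restrict_of_ae (gn_abs C hχ))
  filter_upwards [hneg.ae (hI χ hχ fun t => oχ t), hneg.ae (img C hγ hR hv hχ oχ),
    hneg.ae (img_neg C hγ hR hv hχ oχ)] with t h1 h2 h3 h0
  obtain ⟨d1, i1⟩ := h1 (by linarith)
  obtain ⟨d2, i2⟩ := h2 (by linarith)
  have i3 := h3 (by linarith)
  rw [elev] at d1 i1
  have k1 := nlev_has C hχ (int_gn C hχ) (ae_of_all _ fun o h => h) d1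
  have k2 := nlev_has C hχ (wn_int C hv.lip hχ) ew d2
  refine ⟨?_, ?_, ?_, ?_⟩
  · rw [k1.deriv, nlev_one]
    exact i1
  · rw [k2.deriv, nlev_jac]
    rcases le_total 0 (supj C χ v (-t)) with h4 | h4
    · rw [abs_of_nonneg h4]
      exact i2
    · rw [abs_of_nonpos h4]
      exact i3
  · exact m1.deriv_nonneg
  · exact m2.deriv_nonneg

/-- **the multi-state level lemma for odd functions** -/
theorem odd_hj2 [CompactSpace M] (C : Calc M γ) (hγ : Bd γ) (hR : RegAE C) {v : Fin 3 → M → ℝ}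
    (hv : Sph γ v) {χ : M → ℝ} (hχ : Lip χ) (oχ : EWD.OddB γ χ) {κ ε : ℝ} (hI : IsopO C κ ε)
    {ι : Type*} [Fintype ι] {γs : ι → Om → ℝ} (hγs : ∀ i, Integrable (γs i) C.μ) {i0 i1 : ι}
    (h0 : γs i0 = fun _ => 1) (h1 : γs i1 = jac C v) {pot : Om → ℝ} (hpot : Integrable pot C.μ)
    {c r0 r1 L : ℝ} (hc : 0 < c) (hr : r0 ≤ r1) (hr1 : r1 ≤ 0) (hL : 0 ≤ L) {D : Set (ι → ℝ)}
    (hD : Convex ℝ D) (hF : ∀ t, r0 ≤ t → t ≤ r1 → (fun i => nlev C χ (γs i) t) ∈ D)
    {S : ℝ → (ι → ℝ) → ℝ} {S' : ℝ → (ι → ℝ) → (ℝ × (ι → ℝ)) →L[ℝ] ℝ}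
    (hS : ∀ t x, r0 ≤ t → t ≤ r1 → x ∈ D →
      HasFDerivAt (fun z : ℝ × (ι → ℝ) => S z.1 z.2) (S' t x) (t, x))
    (hSt : ∀ t x, r0 ≤ t → t ≤ r1 → x ∈ D → S' t x (1, 0) ≤ L)
    (hSx : ∀ᵐ o ∂C.μ, ∀ t x, t ≤ r1 → x ∈ D → r0 ≤ -|χ (C.pt o)| → -|χ (C.pt o)| < t →
      S' t x (0, fun i => γs i o) ≤ pot o + L * (t + |χ (C.pt o)|))
    (hj : ∀ᵐ t : ℝ, r0 < t → t < r1 → ∀ l V : ℝ, 0 ≤ l → 0 ≤ V →
      κ * (nlev C χ (γs i0) t - ε) ≤ l ^ 2 →
      |nlev C χ (γs i1) t| * (4 * Real.pi - |nlev C χ (γs i1) t|) ≤ V ^ 2 →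
      ∃ θ1 θ2 : ℝ, 0 ≤ θ1 ∧ 0 ≤ θ2 ∧
        S' t (fun i => nlev C χ (γs i) t) (1, 0) ≤ θ1 * l + θ2 * V ∧
        ∃ δ > 0, ∀ᵐ o ∂C.μ, t ≤ -|χ (C.pt o)| → -|χ (C.pt o)| < t + δ →
          (θ1 + θ2 * opn C v o) ^ 2 ≤ 4 * c * (pot o
            - S' t (fun i => nlev C χ (γs i) t) (0, fun i => γs i o)
            + L * (-|χ (C.pt o)| - t))) :
    S r1 (fun i => nlev C χ (γs i) r1) - S r0 (fun i => nlev C χ (γs i) r0) ≤
      ∫ o in {o | r0 ≤ -|χ (C.pt o)| ∧ -|χ (C.pt o)| < r1}, (pot o + c * gn C χ o ^ 2) ∂C.μ := by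
  have := C.fin
  obtain ⟨g, hg, hge, hs⟩ := neg_rep C hχ
  have hFe : ∀ t, (fun i => s7F C.μ g (γs i) t) = fun i => nlev C χ (γs i) t :=
    fun t => funext fun i => hs _ t
  have hq : ∀ j : Fin 2, Integrable ((![gn C χ, wn C χ v] : Fin 2 → Om → ℝ) j) C.μ := by
    intro j
    fin_cases j
    · exact int_gn C hχ
    · exact wn_int C hv.lip hχ
  have hQ : Integrable (fun o => pot o + c * gn C χ o ^ 2) C.μ :=
    hpot.add ((int_gn_sq C hχ).const_mul c)
  have hfin := s7_hjV C.μ hg hγs hq hQ hr hL hD (fun t a b => by rw [hFe]; exact hF t a b) hS hSt ?_ ?_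
  · rw [hFe, hFe] at hfin
    refine hfin.trans (le_of_eq ?_)
    refine setIntegral_congr_set ?_
    filter_upwards [hge] with o ho
    exact propext ⟨fun h => by
      have h2 : r0 ≤ g o ∧ g o < r1 := h
      rw [ho] at h2
      exact h2, fun h => by
      have h2 : r0 ≤ -|χ (C.pt o)| ∧ -|χ (C.pt o)| < r1 := h
      rw [← ho] at h2
      exact h2⟩
  · filter_upwards [hSx, hge] with o ho he t x a b d e
    rw [he] at d e ⊢
    have h2 := ho t x a b d e
    have h3 : 0 ≤ c * gn C χ o ^ 2 := by positivity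
    have h4 : L * (t - -|χ (C.pt o)|) = L * (t + |χ (C.pt o)|) := by ring
    rw [h4]
    linarith
  · filter_upwards [hj, odd_len2 C hγ hR hv hχ oχ hI] with t ht hl a b
    obtain ⟨l1, l2, l3, l4⟩ := hl (by linarith)
    rw [h0, h1] at ht
    obtain ⟨θ1, θ2, hθ1, hθ2, hle, δ, hδ, hae⟩ := ht a b _ _ l3 l4 l1 l2
    refine ⟨![θ1, θ2], ?_, δ, hδ, ?_⟩
    · rw [hFe, Fin.sum_univ_two]
      have e1 : s7F C.μ g ((![gn C χ, wn C χ v] : Fin 2 → Om → ℝ) 0) = nlev C χ (gn C χ) :=
        funext fun r => hs _ r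
      have e2 : s7F C.μ g ((![gn C χ, wn C χ v] : Fin 2 → Om → ℝ) 1) = nlev C χ (wn C χ v) :=
        funext fun r => hs _ r
      rw [e1, e2]
      exact hle
    · filter_upwards [hae, hge, wn_opn C hv χ] with o ho he hw c1 c2
      rw [he] at c1 c2
      have h2 := ho c1 c2
      rw [hFe, Fin.sum_univ_two]
      change _ + (θ1 * gn C χ o + θ2 * wn C χ v o) ≤ _
      rw [he]
      have hg0 := gn_nonneg C χ o
      set X := S' t (fun i => nlev C χ (γs i) t) (0, fun i => γs i o)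
      have h3 : θ2 * wn C χ v o ≤ θ2 * (opn C v o * gn C χ o) := mul_le_mul_of_nonneg_left hw hθ2
      have h4 : (θ1 + θ2 * opn C v o) * gn C χ o ≤
          c * gn C χ o ^ 2 + (θ1 + θ2 * opn C v o) ^ 2 / (4 * c) := by
        have h5 : c * gn C χ o ^ 2 + (θ1 + θ2 * opn C v o) ^ 2 / (4 * c)
            - (θ1 + θ2 * opn C v o) * gn C χ o
            = (2 * c * gn C χ o - (θ1 + θ2 * opn C v o)) ^ 2 / (4 * c) := by
          field_simp
          ring
        have h6 : 0 ≤ (2 * c * gn C χ o - (θ1 + θ2 * opn C v o)) ^ 2 / (4 * c) := by positivity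
        linarith
      have h7 : (θ1 + θ2 * opn C v o) ^ 2 / (4 * c) ≤ pot o - X + L * (-|χ (C.pt o)| - t) := by
        rw [div_le_iff₀ (by positivity)]
        linarith
      nlinarith
 
end Pool.Agent.FPX
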