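import Pool.Agent.FPX.S7N

/-!
S7E. The nonlinear level set lemma with a running term, and the layer cake formula for a resource
`ν` (`∫ K(g) ν = K(r1) ∫ ν - ∫ K'(t) ν({g < t}) dt`).
-/

open MeasureTheory Set Filter Topology

noncomputable section

namespace Pool.Agent.FPX

variable {Ω : Type*} [MeasurableSpace Ω]

section main

variable (μ : Measure Ω) [IsFiniteMeasure μ] {g G : Ω → ℝ}

/-- layer cake formula for a resource `ν` -/
theorem s7_layer (hg : Measurable g) {ν : Ω → ℝ} (hν : Integrable ν μ) {r0 r1 : ℝ}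
    (h0 : ∀ o, r0 ≤ g o) (h1 : ∀ o, g o ≤ r1) (hr : r0 ≤ r1) {K K' : ℝ → ℝ}
    (hK : ∀ t ∈ Icc r0 r1, HasDerivAt K (K' t) t) (hK' : ContinuousOn K' (Icc r0 r1)) :
    IntervalIntegrable (fun t => K' t * ∫ o in {o | g o < t}, ν o ∂μ) volume r0 r1 ∧
    ∫ o, K (g o) * ν o ∂μ = K r1 * ∫ o, ν o ∂μ -
      ∫ t in r0..r1, K' t * ∫ o in {o | g o < t}, ν o ∂μ := by
  set τ : Measure ℝ := volume.restrict (Ioc r0 r1) with hτ
  have hfin : IsFiniteMeasure τ := by
    rw [hτ]
    infer_instance
  obtain ⟨B, hB⟩ := isCompact_Icc.exists_bound_of_continuousOn hK'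
  set S : Set (Ω × ℝ) := {z | g z.1 < z.2} with hS
  have hSm : MeasurableSet S := measurableSet_lt (hg.comp measurable_fst) measurable_snd
  set κ : ℝ → ℝ := (Icc r0 r1).indicator K' with hκ
  have hκm : AEStronglyMeasurable κ τ := by
    have h2 : AEStronglyMeasurable K' (volume.restrict (Icc r0 r1)) :=
      hK'.aestronglyMeasurable measurableSet_Icc
    rw [hκ, hτ]
    refine AEStronglyMeasurable.indicator ?_ measurableSet_Icc
    exact h2.mono_measure (Measure.restrict_mono Ioc_subset_Icc_self le_rfl)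
  have hκb : ∀ t, ‖κ t‖ ≤ B := by
    intro t
    rw [hκ]
    by_cases ht : t ∈ Icc r0 r1
    · rw [indicator_of_mem ht]
      exact hB t ht
    · rw [indicator_of_notMem ht, norm_zero]
      exact (norm_nonneg _).trans (hB r0 (left_mem_Icc.2 hr))
  set F : Ω × ℝ → ℝ := S.indicator fun z => ν z.1 * κ z.2 with hF
  have hνi : Integrable (fun z : Ω × ℝ => ν z.1) (μ.prod τ) := hν.comp_fst τ
  have hκi : AEStronglyMeasurable (fun z : Ω × ℝ => κ z.2) (μ.prod τ) := hκm.comp_snd
  have hFi : Integrable F (μ.prod τ) := by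
    refine Integrable.indicator ?_ hSm
    exact hνi.mul_bdd (c := B) hκi (Eventually.of_forall fun z => hκb z.2)
  have e1 : ∀ o, ∫ t, F (o, t) ∂τ = ν o * (K r1 - K (g o)) := by
    intro o
    have h2 : ∀ t, F (o, t) = (Ioi (g o)).indicator (fun t => ν o * κ t) t := by
      intro t
      simp only [hF, hS, indicator, mem_ofPred_eq, mem_Ioi]
    simp_rw [h2]
    rw [hτ, setIntegral_indicator measurableSet_Ioi]
    have h3 : Ioc r0 r1 ∩ Ioi (g o) = Ioc (g o) r1 := by
      ext t
      simp only [mem_inter_iff, mem_Ioc, mem_Ioi]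
      exact ⟨fun h => ⟨h.2, h.1.2⟩, fun h => ⟨⟨lt_of_le_of_lt (h0 o) h.1, h.2⟩, h.1⟩⟩
    rw [h3, ← intervalIntegral.integral_of_le (h1 o), intervalIntegral.integral_const_mul]
    congr 1
    have h4 : ∀ t ∈ uIcc (g o) r1, HasDerivAt K (κ t) t := by
      intro t ht
      rw [uIcc_of_le (h1 o)] at ht
      have h5 : t ∈ Icc r0 r1 := ⟨(h0 o).trans ht.1, ht.2⟩
      rw [hκ, indicator_of_mem h5]
      exact hK t h5
    refine intervalIntegral.integral_eq_sub_of_hasDerivAt h4 ?_
    have h6 : ContinuousOn κ (uIcc (g o) r1) := by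
      rw [uIcc_of_le (h1 o)]
      have h7 : Icc (g o) r1 ⊆ Icc r0 r1 := Icc_subset_Icc_left (h0 o)
      exact (hK'.mono h7).congr fun t ht => by rw [hκ, indicator_of_mem (h7 ht)]
    exact h6.intervalIntegrable
  have e2 : ∀ t, ∫ o, F (o, t) ∂μ = κ t * ∫ o in {o | g o < t}, ν o ∂μ := by
    intro t
    have hm : MeasurableSet {o | g o < t} := measurableSet_lt hg measurable_const
    have h2 : ∀ o, F (o, t) = {o | g o < t}.indicator (fun o => ν o * κ t) o := by
      intro o
      simp only [hF, hS, indicator, mem_ofPred_eq]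
    simp_rw [h2]
    rw [integral_indicator hm, integral_mul_const, mul_comm]
  have e3 : ∫ o, ∫ t, F (o, t) ∂τ ∂μ = ∫ t, ∫ o, F (o, t) ∂μ ∂τ :=
    integral_integral_swap (f := fun o t => F (o, t)) hFi
  simp_rw [e1, e2] at e3
  have e4 : ∀ t ∈ Ioc r0 r1, κ t * ∫ o in {o | g o < t}, ν o ∂μ =
      K' t * ∫ o in {o | g o < t}, ν o ∂μ := by
    intro t ht
    rw [hκ, indicator_of_mem (Ioc_subset_Icc_self ht)]
  have i1 : Integrable (fun t => κ t * ∫ o in {o | g o < t}, ν o ∂μ) τ := by
    have h4 := hFi.integral_prod_right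
    simp_rw [e2] at h4
    exact h4
  have i2 : IntervalIntegrable (fun t => K' t * ∫ o in {o | g o < t}, ν o ∂μ)
      volume r0 r1 := by
    rw [intervalIntegrable_iff_integrableOn_Ioc_of_le hr]
    exact (integrableOn_congr_fun e4 measurableSet_Ioc).1 i1
  refine ⟨i2, ?_⟩
  have e5 : ∫ t, κ t * ∫ o in {o | g o < t}, ν o ∂μ ∂τ =
      ∫ t in r0..r1, K' t * ∫ o in {o | g o < t}, ν o ∂μ := by
    rw [intervalIntegral.integral_of_le hr, hτ]
    exact setIntegral_congr_fun measurableSet_Ioc e4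
  rw [e5] at e3
  have hKb : ∃ B', ∀ o, ‖K (g o)‖ ≤ B' := by
    have hc : ContinuousOn K (Icc r0 r1) := fun t ht => (hK t ht).continuousAt.continuousWithinAt
    obtain ⟨B', hB'⟩ := isCompact_Icc.exists_bound_of_continuousOn hc
    exact ⟨B', fun o => hB' _ ⟨h0 o, h1 o⟩⟩
  have hi : Integrable (fun o => ν o * (K r1 - K (g o))) μ := by
    have h4 := hFi.integral_prod_left
    simp_rw [e1] at h4
    exact h4
  have hii : Integrable (fun o => K (g o) * ν o) μ := by
    have h5 := (hν.const_mul (K r1)).sub hi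
    refine h5.congr (Eventually.of_forall fun o => ?_)
    simp only [Pi.sub_apply]
    ring
  have e6 : ∫ o, ν o * (K r1 - K (g o)) ∂μ = K r1 * ∫ o, ν o ∂μ - ∫ o, K (g o) * ν o ∂μ := by
    rw [← integral_const_mul, ← integral_sub (hν.const_mul _) hii]
    exact integral_congr_ae (Eventually.of_forall fun o => by simp only []; ring)
  linarith

/-- **Nonlinear level set lemma with a running term** `E`. -/
theorem s7_hjE (hg : Measurable g) (hG : Integrable G μ) (G0 : ∀ o, 0 ≤ G o)
    (hG2 : Integrable (fun o => G o ^ 2) μ) {W : Ω → ℝ} (hW : Integrable W μ)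
    {r0 r1 c L : ℝ} (hr : r0 ≤ r1) (hc : 0 ≤ c) (hL : 0 ≤ L)
    {m : ℝ → ℝ} (hm : ∀ o, r0 ≤ g o → g o < r1 → m (g o) ≤ W o)
    (mL : ∀ s t, r0 ≤ s → s ≤ t → t ≤ r1 → m s - L * (t - s) ≤ m t)
    {S Sa St : ℝ → ℝ → ℝ}
    (hS : ∀ t a, r0 ≤ t → t ≤ r1 → s7b μ g t ≤ a → a ≤ μ.real univ →
      HasFDerivAt (fun z : ℝ × ℝ => S z.1 z.2)
        (Sa a t • ContinuousLinearMap.fst ℝ ℝ ℝ + St a t • ContinuousLinearMap.snd ℝ ℝ ℝ) (a, t))
    (hSt : ∀ t a, r0 ≤ t → t ≤ r1 → s7b μ g t ≤ a → a ≤ μ.real univ → |St a t| ≤ L)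
    (hSa : ∀ t a, r0 ≤ t → t ≤ r1 → s7b μ g t ≤ a → a ≤ μ.real univ → Sa a t ≤ m t)
    {E : ℝ → ℝ} (hE : IntervalIntegrable E volume r0 r1)
    (hj : ∀ᵐ t : ℝ, r0 < t → t < r1 → St (s7b μ g t) t + E t ≤ 0 ∨
      (St (s7b μ g t) t + E t) ^ 2 ≤
        4 * (c * deriv (s7F μ g G) t ^ 2 * (m t - Sa (s7b μ g t) t))) :
    S (s7b μ g r1) r1 - S (s7b μ g r0) r0 + ∫ t in r0..r1, E t ≤
      ∫ o in {o | r0 ≤ g o ∧ g o < r1}, (W o + c * G o ^ 2) ∂μ := by
  set b := s7b μ g with hb
  set V := μ.real univ with hV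
  have bmono : Monotone b := s7b_mono μ
  have bV : ∀ t, b t ≤ V := fun t => s7b_le μ t
  have V0 : 0 ≤ V := measureReal_nonneg
  have b0 : ∀ t, 0 ≤ b t := fun t => s7b_nonneg μ t
  have beq : b = s7F μ g (fun _ => 1) := funext fun t => s7b_eq μ t
  have m0 := s7F_mono μ hg (integrable_const (1 : ℝ)) (fun _ => zero_le_one)
  have m1 := s7F_mono μ hg hG G0
  have m2 := s7F_mono μ hg hG2 (fun o => sq_nonneg (G o))
  -- partial derivatives
  have dSa : ∀ t a, r0 ≤ t → t ≤ r1 → b t ≤ a → a ≤ V →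
      HasDerivAt (fun x => S x t) (Sa a t) a := by
    intro t a h1 h2 h3 h4
    have h5 := (hS t a h1 h2 h3 h4).comp_hasDerivAt a
      ((hasDerivAt_id a).prodMk (hasDerivAt_const a t))
    exact h5.congr_deriv (by simp)
  have dSt : ∀ t a, r0 ≤ t → t ≤ r1 → b t ≤ a → a ≤ V →
      HasDerivAt (fun x => S a x) (St a t) t := by
    intro t a h1 h2 h3 h4
    have h5 := (hS t a h1 h2 h3 h4).comp_hasDerivAt t
      ((hasDerivAt_const t a).prodMk (hasDerivAt_id t))
    exact h5.congr_deriv (by simp)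
  -- increments of S
  have incA : ∀ s t, r0 ≤ s → s ≤ t → t ≤ r1 → S (b t) s - S (b s) s ≤ m s * (b t - b s) := by
    intro s t h0 hst h1
    have hconv : Convex ℝ (Icc (b s) (b t)) := convex_Icc _ _
    refine hconv.image_sub_le_mul_sub_of_deriv_le (f := fun x => S x s) ?_ ?_ ?_ (b s)
      (left_mem_Icc.2 (bmono hst)) (b t) (right_mem_Icc.2 (bmono hst)) (bmono hst)
    · intro a ha
      exact (dSa s a h0 (hst.trans h1) ha.1 (ha.2.trans (bV t))).continuousAt.continuousWithinAt
    · intro a ha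
      rw [interior_Icc] at ha
      exact (dSa s a h0 (hst.trans h1) ha.1.le
        (ha.2.le.trans (bV t))).differentiableAt.differentiableWithinAt
    · intro a ha
      rw [interior_Icc] at ha
      rw [(dSa s a h0 (hst.trans h1) ha.1.le (ha.2.le.trans (bV t))).deriv]
      exact hSa s a h0 (hst.trans h1) ha.1.le (ha.2.le.trans (bV t))
  have incT : ∀ s t, r0 ≤ s → s ≤ t → t ≤ r1 → S (b t) t - S (b t) s ≤ L * (t - s) := by
    intro s t h0 hst h1
    have hconv : Convex ℝ (Icc s t) := convex_Icc _ _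
    refine hconv.image_sub_le_mul_sub_of_deriv_le (f := fun x => S (b t) x) ?_ ?_ ?_ s
      (left_mem_Icc.2 hst) t (right_mem_Icc.2 hst) hst
    · intro a ha
      exact (dSt a (b t) (h0.trans ha.1) (ha.2.trans h1) (bmono ha.2)
        (bV t)).continuousAt.continuousWithinAt
    · intro a ha
      rw [interior_Icc] at ha
      exact (dSt a (b t) (h0.trans ha.1.le) (ha.2.le.trans h1) (bmono ha.2.le)
        (bV t)).differentiableAt.differentiableWithinAt
    · intro a ha
      rw [interior_Icc] at ha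
      rw [(dSt a (b t) (h0.trans ha.1.le) (ha.2.le.trans h1) (bmono ha.2.le) (bV t)).deriv]
      exact (le_abs_self _).trans
        (hSt a (b t) (h0.trans ha.1.le) (ha.2.le.trans h1) (bmono ha.2.le) (bV t))
  -- the function H
  set F2 := s7F μ g fun o => G o ^ 2 with hF2
  set FW := s7F μ g W with hFW
  set H : ℝ → ℝ := fun t => FW t + c * F2 t - S (b t) t with hH
  set K : ℝ := L * (1 + V) with hK
  have Hinc : ∀ s t, r0 ≤ s → s ≤ t → t ≤ r1 → -(K * (t - s)) ≤ H t - H s := by
    intro s t h0 hst h1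
    have e1 := s7N_W μ hg hW hL hm mL h0 hst h1
    have e2 := incA s t h0 hst h1
    have e3 := incT s t h0 hst h1
    have e4 : F2 s ≤ F2 t := m2 hst
    have e5 : 0 ≤ c * (F2 t - F2 s) := mul_nonneg hc (by linarith)
    have e6 : L * (t - s) * (b t - b s) ≤ L * (t - s) * V := by
      refine mul_le_mul_of_nonneg_left ?_ (mul_nonneg hL (by linarith))
      linarith [bV t, b0 s]
    have e7 : H t - H s = (FW t - FW s) + c * (F2 t - F2 s) - (S (b t) t - S (b t) s) -
        (S (b t) s - S (b s) s) := by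
      rw [hH]
      ring
    rw [e7, hK]
    have e8 : (m s - L * (t - s)) * (b t - b s) = m s * (b t - b s) -
        L * (t - s) * (b t - b s) := by ring
    rw [← hb, ← hFW] at e1
    nlinarith
  have K0 : 0 ≤ K := mul_nonneg hL (by linarith)
  set Φ : ℝ → ℝ := fun t => H t + K * t with hΦ
  have Φmono : MonotoneOn Φ (uIcc r0 r1) := by
    rw [uIcc_of_le hr]
    intro s hs t ht hst
    have := Hinc s t hs.1 hst ht.2
    simp only [hΦ]
    linarith
  have hint := Φmono.intervalIntegral_deriv_mem_uIcc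
  have hΦle : Φ r0 ≤ Φ r1 := Φmono (by simp) (by simp) hr
  rw [uIcc_of_le (sub_nonneg.2 hΦle)] at hint
  have hdint : IntervalIntegrable (deriv Φ) volume r0 r1 := Φmono.intervalIntegrable_deriv
  -- a.e. derivative
  have hWp : Monotone (s7F μ g fun o => W o + |W o|) :=
    s7F_mono μ hg (hW.add hW.abs) (fun o => by
      have := neg_abs_le (W o)
      linarith)
  have hWn : Monotone (s7F μ g fun o => |W o|) := s7F_mono μ hg hW.abs (fun o => abs_nonneg _)
  have hFWe : FW = fun t => (s7F μ g fun o => W o + |W o|) t - (s7F μ g fun o => |W o|) t := by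
    funext t
    have : (s7F μ g fun o => W o + |W o|) t = FW t + (s7F μ g fun o => |W o|) t := by
      simp only [hFW, s7F]
      exact integral_add hW.integrableOn hW.abs.integrableOn
    linarith
  have key : ∀ᵐ t : ℝ, t ∈ Ioo r0 r1 → K + E t ≤ deriv Φ t := by
    filter_upwards [hj, m0.ae_differentiableAt, m1.ae_differentiableAt,
      m2.ae_differentiableAt, hWp.ae_differentiableAt, hWn.ae_differentiableAt] with
      t hjt d0 d1 d2 dp dn ht
    have h4 := s7_deriv_cs μ hg hG hG2 d0 d1 d2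
    have n2 : 0 ≤ deriv F2 t := m2.deriv_nonneg
    rw [← beq] at d0 h4
    have n0 : 0 ≤ deriv b t := bmono.deriv_nonneg
    have dW : DifferentiableAt ℝ FW t := by
      rw [hFWe]
      exact dp.sub dn
    have hcomp : HasDerivAt (fun x => S (b x) x)
        (Sa (b t) t * deriv b t + St (b t) t) t := by
      have h5 := HasFDerivAt.comp_hasDerivAt (f := fun x => (b x, x)) t
        (hS t (b t) ht.1.le ht.2.le le_rfl (bV t)) (d0.hasDerivAt.prodMk (hasDerivAt_id t))
      exact h5.congr_deriv (by simp)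
    have hΦd : HasDerivAt Φ (deriv FW t + c * deriv F2 t -
        (Sa (b t) t * deriv b t + St (b t) t) + K) t := by
      have h6 := ((dW.hasDerivAt.add (d2.hasDerivAt.const_mul c)).sub hcomp).add
        ((hasDerivAt_id t).const_mul K)
      rw [mul_one] at h6
      exact h6
    rw [hΦd.deriv]
    -- deriv FW ≥ m b'
    have hWd : m t * deriv b t ≤ deriv FW t := by
      have e0 := (hasDerivAt_iff_tendsto_slope.1 d0.hasDerivAt).mono_left
        (nhdsWithin_mono t (fun x (hx : x ∈ Ioi t) => (ne_of_gt hx : x ≠ t)))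
      have e1 := (hasDerivAt_iff_tendsto_slope.1 dW.hasDerivAt).mono_left
        (nhdsWithin_mono t (fun x (hx : x ∈ Ioi t) => (ne_of_gt hx : x ≠ t)))
      have e2 : Tendsto (fun x => m t - L * (x - t)) (𝓝[>] t) (𝓝 (m t)) := by
        have : Tendsto (fun x => m t - L * (x - t)) (𝓝 t) (𝓝 (m t - L * (t - t))) := by
          apply Continuous.tendsto
          fun_prop
        rw [sub_self, mul_zero, sub_zero] at this
        exact this.mono_left nhdsWithin_le_nhds
      refine le_of_tendsto_of_tendsto (e2.mul e0) e1 ?_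
      have hnear : ∀ᶠ x in 𝓝[>] t, x ∈ Ioo t r1 := Ioo_mem_nhdsGT ht.2
      filter_upwards [hnear] with x hx
      have e3 := s7N_W μ hg hW hL hm mL ht.1.le hx.1.le hx.2.le
      rw [← hb, ← hFW] at e3
      have e4 : 0 < x - t := sub_pos.2 hx.1
      simp only [slope, vsub_eq_sub, smul_eq_mul]
      rw [← mul_assoc, mul_comm _ ((x - t)⁻¹), mul_assoc]
      exact mul_le_mul_of_nonneg_left e3 (inv_nonneg.2 e4.le)
    have hx0 : 0 ≤ (m t - Sa (b t) t) * deriv b t :=
      mul_nonneg (sub_nonneg.2 (hSa t (b t) ht.1.le ht.2.le le_rfl (bV t))) n0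
    have hy0 : 0 ≤ c * deriv F2 t := mul_nonneg hc n2
    have hfin : St (b t) t + E t ≤ (m t - Sa (b t) t) * deriv b t + c * deriv F2 t := by
      rcases hjt ht.1 ht.2 with h | h
      · linarith
      · have h7 : c * deriv (s7F μ g G) t ^ 2 * (m t - Sa (b t) t) ≤
            (m t - Sa (b t) t) * deriv b t * (c * deriv F2 t) := by
          have h8 : c * deriv (s7F μ g G) t ^ 2 * (m t - Sa (b t) t) ≤
              c * (deriv F2 t * deriv b t) * (m t - Sa (b t) t) :=
            mul_le_mul_of_nonneg_right (mul_le_mul_of_nonneg_left h4 hc)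
              (sub_nonneg.2 (hSa t (b t) ht.1.le ht.2.le le_rfl (bV t)))
          calc _ ≤ _ := h8
            _ = _ := by ring
        have h9 : (St (b t) t + E t) ^ 2 ≤ ((m t - Sa (b t) t) * deriv b t + c * deriv F2 t) ^ 2 := by
          nlinarith [sq_nonneg ((m t - Sa (b t) t) * deriv b t - c * deriv F2 t)]
        exact (le_abs_self _).trans (abs_le_of_sq_le_sq h9 (by linarith))
    have h10 : (m t - Sa (b t) t) * deriv b t = m t * deriv b t - Sa (b t) t * deriv b t := by
      ring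
    linarith
  have hlow : K * (r1 - r0) + ∫ t in r0..r1, E t ≤ ∫ t in r0..r1, deriv Φ t := by
    have h1 : ∫ t in r0..r1, (K + E t) = K * (r1 - r0) + ∫ t in r0..r1, E t := by
      rw [intervalIntegral.integral_add (by simp) hE, intervalIntegral.integral_const,
        smul_eq_mul, mul_comm]
    have hKE : IntervalIntegrable (fun t => K + E t) volume r0 r1 :=
      IntervalIntegrable.add (by simp) hE
    rw [← h1, intervalIntegral.integral_of_le hr, intervalIntegral.integral_of_le hr,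
      ← integral_Ioc_eq_integral_Ioo.symm, ← integral_Ioc_eq_integral_Ioo.symm]
    refine setIntegral_mono_on_ae ?_ ?_ measurableSet_Ioo key
    · exact ((intervalIntegrable_iff_integrableOn_Ioc_of_le hr).1 hKE).mono_set
        Ioo_subset_Ioc_self
    · exact ((intervalIntegrable_iff_integrableOn_Ioc_of_le hr).1 hdint).mono_set
        Ioo_subset_Ioc_self
  have hfin : H r0 + ∫ t in r0..r1, E t ≤ H r1 := by
    have := hint.2
    simp only [hΦ] at this
    linarith
  have hsplit : (∫ o in {o | r0 ≤ g o ∧ g o < r1}, (W o + c * G o ^ 2) ∂μ) =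
      (FW r1 - FW r0) + c * (F2 r1 - F2 r0) := by
    rw [hFW, hF2, s7F_sub μ hg hW hr, s7F_sub μ hg hG2 hr, ← integral_const_mul,
      ← integral_add hW.integrableOn (hG2.const_mul c).integrableOn]
  rw [hsplit]
  simp only [hH] at hfin
  linarith

end main

end Pool.Agent.FPX
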