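import Mathlib
import Pool.Agent.FPX.S7E
import Pool.Agent.FPX.S7O

/-
HRP (helper45): the weighted Hardy inequality with a general isoperimetric profile.
-/

open MeasureTheory Set Filter Topology
open scoped ENNReal NNReal

noncomputable section

namespace Pool.Agent.FPX

section core

variable {Ω : Type*} [MeasurableSpace Ω] (μ : Measure Ω) [IsFiniteMeasure μ] {g G w : Ω → ℝ}

/-- the weighted Hardy inequality with a profile `Lam`, a charge function `n` and a certificate `k` -/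
theorem hrp_core (hg : Measurable g) {R : ℝ} (hR : 0 ≤ R) (g0 : ∀ o, -R ≤ g o) (g1 : ∀ o, g o ≤ 0)
    (hG : Integrable G μ) (G0 : ∀ o, 0 ≤ G o) (hG2 : Integrable (fun o => G o ^ 2) μ)
    (hw : Integrable w μ) {n k Lam : ℝ → ℝ} {ε δ lam : ℝ} (hε : 0 ≤ ε) (hlam : 0 ≤ lam)
    (hn : Monotone n) (n0 : ∀ a ≤ 0, n a = 0) (hk : Continuous k) (k0 : ∀ a ≤ 0, k a = 0)
    (kp : ∀ a, 0 ≤ k a)
    (hL : ∀ᵐ t : ℝ, t < 0 → Lam (s7b μ g t - ε) ≤ deriv (s7F μ g G) t ^ 2)
    (hq : ∀ t < 0, s7F μ g w t ≤ n (s7b μ g t - ε) + δ)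
    (hc : ∀ a, 0 < a → a ≤ μ.real univ → (lam * n a + ∫ u in (0 : ℝ)..a, k u) ^ 2 ≤ Lam a * k a) :
    lam * ∫ o, g o ^ 2 * w o ∂μ ≤ ∫ o, G o ^ 2 ∂μ + lam * δ * R ^ 2 := by
  set V := μ.real univ with hV
  have V0 : 0 ≤ V := measureReal_nonneg
  have bmono : Monotone (s7b μ g) := s7b_mono μ
  have bV : ∀ t, s7b μ g t ≤ V := fun t => s7b_le μ t
  have b0 : ∀ t, 0 ≤ s7b μ g t := fun t => s7b_nonneg μ t
  set Φ : ℝ → ℝ := fun x => ∫ u in (0 : ℝ)..x, k u with hΦ
  have hΦ' : ∀ x, HasDerivAt Φ (k x) x := fun x =>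
    intervalIntegral.integral_hasDerivAt_right (hk.intervalIntegrable _ _)
      hk.stronglyMeasurable.stronglyMeasurableAtFilter hk.continuousAt
  have Φ0 : ∀ x ≤ 0, Φ x = 0 := fun x hx => by
    change ∫ u in (0 : ℝ)..x, k u = 0
    rw [intervalIntegral.integral_symm]
    have h1 : ∫ u in x..0, k u = ∫ u in x..0, (0 : ℝ) := by
      refine intervalIntegral.integral_congr fun u hu => ?_
      rw [uIcc_of_le hx] at hu
      exact k0 u hu.2
    rw [h1]
    simp
  have Φm : Monotone Φ := monotone_of_deriv_nonneg (fun x => (hΦ' x).differentiableAt)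
    fun x => by rw [(hΦ' x).deriv]; exact kp x
  have Φp : ∀ x, 0 ≤ Φ x := fun x => by
    rcases le_total x 0 with h | h
    · rw [Φ0 x h]
    · have := Φm h
      rwa [Φ0 0 le_rfl] at this
  set L : ℝ := 2 * R * Φ V with hLd
  have hL0 : 0 ≤ L := mul_nonneg (by positivity) (Φp V)
  have hr : -R ≤ 0 := by linarith
  set E : ℝ → ℝ := fun t => (2 * lam * (-t)) * n (s7b μ g t - ε) with hE
  have nm : Monotone fun t => n (s7b μ g t - ε) := fun s t hst => hn (by linarith [bmono hst])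
  have hEi : IntervalIntegrable E volume (-R) 0 :=
    (nm.intervalIntegrable (a := -R) (b := 0)).continuousOn_mul (by fun_prop)
  have key := s7_hjE μ (g := g) (G := G) hg hG G0 hG2 (W := fun _ => 0) (integrable_const 0)
    (r0 := -R) (r1 := 0) (c := 1) (L := L) hr zero_le_one hL0 (m := fun _ => 0)
    (fun o _ _ => le_rfl) (fun s t _ hst _ => by nlinarith)
    (S := fun a t => -(t ^ 2 * Φ (a - ε))) (Sa := fun a t => -(t ^ 2 * k (a - ε)))
    (St := fun a t => -(2 * t * Φ (a - ε))) ?_ ?_ ?_ (E := E) hEi ?_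
  · have e1 : s7b μ g (-R) = 0 := by
      unfold s7b
      have : {o | g o < -R} = ∅ := by
        ext o
        simp only [mem_ofPred_eq, mem_empty_iff_false, iff_false, not_lt]
        exact g0 o
      rw [this]
      simp
    rw [e1] at key
    have e2 : Φ (0 - ε) = 0 := Φ0 _ (by linarith)
    rw [e2] at key
    simp only [one_mul, zero_add, mul_zero, neg_zero, sub_zero, ne_eq, OfNat.ofNat_ne_zero,
      not_false_eq_true, zero_pow, zero_mul] at key
    have e3 : ∫ o in {o | -R ≤ g o ∧ g o < 0}, G o ^ 2 ∂μ ≤ ∫ o, G o ^ 2 ∂μ :=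
      setIntegral_le_integral hG2 (ae_of_all _ fun o => sq_nonneg _)
    obtain ⟨l1, l2⟩ := s7_layer μ hg hw g0 g1 hr (K := fun t => lam * t ^ 2)
      (K' := fun t => lam * (2 * t)) (fun t _ => by
        have := (hasDerivAt_pow 2 t).const_mul lam
        simpa using this) (by fun_prop)
    have e4 : ∫ o, lam * g o ^ 2 * w o ∂μ = lam * ∫ o, g o ^ 2 * w o ∂μ := by
      rw [← integral_const_mul]
      exact integral_congr_ae (ae_of_all _ fun o => by ring)
    rw [e4] at l2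
    have e5 : -(∫ t in (-R)..0, lam * (2 * t) * ∫ o in {o | g o < t}, w o ∂μ) - lam * δ * R ^ 2
        ≤ ∫ t in (-R)..0, E t := by
      have i2 : IntervalIntegrable (fun t : ℝ => 2 * lam * (-t) * δ) volume (-R) 0 :=
        Continuous.intervalIntegrable (by fun_prop) _ _
      have i1 : IntervalIntegrable
          (fun t : ℝ => -(lam * (2 * t) * ∫ o in {o | g o < t}, w o ∂μ)) volume (-R) 0 := l1.neg
      have h1 : ∫ t in (-R)..0, (-(lam * (2 * t) * ∫ o in {o | g o < t}, w o ∂μ) - 2 * lam * (-t) * δ)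
          ≤ ∫ t in (-R)..0, E t := by
        refine intervalIntegral.integral_mono_on_of_le_Ioo hr (i1.sub i2) hEi fun t ht => ?_
        have h2 := hq t ht.2
        unfold s7F at h2
        have h3 : 0 ≤ 2 * lam * (-t) := by
          have := ht.2
          have : 0 ≤ -t := by linarith
          positivity
        change _ ≤ (2 * lam * (-t)) * n (s7b μ g t - ε)
        have h4 := mul_le_mul_of_nonneg_left h2 h3
        linarith
      rw [intervalIntegral.integral_sub i1 i2, intervalIntegral.integral_neg] at h1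
      have h6 : ∫ t in (-R)..0, 2 * lam * (-t) * δ = lam * δ * R ^ 2 := by
        have : (fun t : ℝ => 2 * lam * (-t) * δ) = fun t => (-(2 * lam * δ)) * t := by
          funext t
          ring
        rw [this, intervalIntegral.integral_const_mul, integral_id]
        ring
      rw [h6] at h1
      exact h1
    have e6 : (lam * (0 : ℝ) ^ 2) * ∫ o, w o ∂μ = 0 := by simp
    rw [e6] at l2
    linarith
  · intro t a _ _ _ _
    have h1 : HasFDerivAt (fun z : ℝ × ℝ => z.2 ^ 2)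
        ((2 * t) • ContinuousLinearMap.snd ℝ ℝ ℝ) (a, t) := by
      have := (hasFDerivAt_snd (𝕜 := ℝ) (E := ℝ) (F := ℝ) (p := (a, t))).pow 2
      simpa using this
    have h2 : HasFDerivAt (fun z : ℝ × ℝ => Φ (z.1 - ε))
        ((k (a - ε)) • ContinuousLinearMap.fst ℝ ℝ ℝ) (a, t) := by
      have h3 : HasFDerivAt (fun z : ℝ × ℝ => z.1 - ε) (ContinuousLinearMap.fst ℝ ℝ ℝ) (a, t) :=
        (hasFDerivAt_fst (𝕜 := ℝ) (E := ℝ) (F := ℝ) (p := (a, t))).sub_const ε
      exact (hΦ' (a - ε)).comp_hasFDerivAt (a, t) h3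
    have h3 := (h1.mul h2).neg
    refine h3.congr_fderiv ?_
    ext <;> simp <;> ring
  · intro t a h0 h1 h2 h3
    rw [abs_neg, abs_mul, abs_mul, abs_two, abs_of_nonneg (Φp _)]
    have h4 : |t| ≤ R := by
      rw [abs_le]
      exact ⟨h0, by linarith⟩
    have h5 : Φ (a - ε) ≤ Φ V := Φm (by linarith)
    have h6 : 2 * |t| * Φ (a - ε) ≤ 2 * R * Φ V := by
      have := Φp (a - ε)
      have := abs_nonneg t
      nlinarith
    exact h6
  · intro t a _ _ _ _
    have := kp (a - ε)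
    have h1 : 0 ≤ t ^ 2 * k (a - ε) := by positivity
    change -(t ^ 2 * k (a - ε)) ≤ 0
    linarith
  · filter_upwards [hL] with t ht h0 h1
    have hl := ht h1
    set x := s7b μ g t - ε with hx
    rcases le_or_gt x 0 with hx0 | hx0
    · left
      change -(2 * t * Φ x) + 2 * lam * (-t) * n x ≤ 0
      rw [Φ0 x hx0, n0 x hx0]
      simp
    · right
      have h2 := hc x hx0 (by have := bV t; linarith)
      change (-(2 * t * Φ x) + 2 * lam * (-t) * n x) ^ 2 ≤
        4 * (1 * deriv (s7F μ g G) t ^ 2 * (0 - -(t ^ 2 * k x)))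
      have h3 : (-(2 * t * Φ x) + 2 * lam * (-t) * n x) ^ 2 = 4 * t ^ 2 * (lam * n x + Φ x) ^ 2 := by
        ring
      rw [h3]
      have h4 : Lam x * k x ≤ deriv (s7F μ g G) t ^ 2 * k x :=
        mul_le_mul_of_nonneg_right hl (kp x)
      have h5 : (lam * n x + Φ x) ^ 2 ≤ deriv (s7F μ g G) t ^ 2 * k x := h2.trans h4
      have h6 := mul_le_mul_of_nonneg_left h5 (show 0 ≤ 4 * t ^ 2 by positivity)
      linarith

end core

section cert

/-- the certificate: `y0 (a / a0) ^ 2` below `a0`, then the solution of `R' = R ^ 2 P'` -/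
theorem hrp_cert {a0 V κ q y0 R0 : ℝ} {p P : ℝ → ℝ} (hκ : 0 < κ) (ha : 0 < a0) (hV : a0 ≤ V)
    (hP : ∀ a, a0 ≤ a → HasDerivAt P (p a) a) (hp : ContinuousOn p (Ici a0))
    (p0 : ∀ a, a0 ≤ a → 0 ≤ p a) (P0 : P a0 = 0) (pa : p a0 = 1 / (κ * a0)) (hq : 0 ≤ q)
    (hy : 0 ≤ y0) (hR : R0 = q + y0) (hRy : R0 ^ 2 = 2 * κ * y0) (hc : R0 * P V < 1) :
    ∃ k : ℝ → ℝ, Continuous k ∧ (∀ a ≤ 0, k a = 0) ∧ (∀ a, 0 ≤ k a) ∧
      (∀ a, 0 ≤ a → a ≤ a0 → k a = 2 * y0 * a / a0 ^ 2 ∧
        ∫ u in (0 : ℝ)..a, k u = y0 * a ^ 2 / a0 ^ 2) ∧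
      (∀ a, a0 ≤ a → a ≤ V → 0 < 1 - R0 * P a ∧ k a = R0 ^ 2 * p a / (1 - R0 * P a) ^ 2 ∧
        ∫ u in (0 : ℝ)..a, k u = R0 / (1 - R0 * P a) - q) := by
  have R00 : 0 ≤ R0 := by rw [hR]; positivity
  have Pm : MonotoneOn P (Ici a0) := by
    refine monotoneOn_of_deriv_nonneg (convex_Ici a0)
      (fun x hx => (hP x hx).continuousAt.continuousWithinAt) (fun x hx => ?_) fun x hx => ?_
    · rw [interior_Ici] at hx
      exact (hP x hx.le).differentiableAt.differentiableWithinAt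
    · rw [interior_Ici] at hx
      rw [(hP x hx.le).deriv]
      exact p0 x hx.le
  have hpos : ∀ a, a0 ≤ a → a ≤ V → 0 < 1 - R0 * P a := fun a h0 h1 => by
    have := Pm (mem_Ici.2 h0) (mem_Ici.2 hV) h1
    have := mul_le_mul_of_nonneg_left this R00
    linarith
  set ψ : ℝ → ℝ := fun x => R0 ^ 2 * p x / (1 - R0 * P x) ^ 2 with hψ
  have cψ : ContinuousOn ψ (Icc a0 V) := by
    have c1 : ContinuousOn P (Icc a0 V) := fun x hx => (hP x hx.1).continuousAt.continuousWithinAt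
    have c2 : ContinuousOn p (Icc a0 V) := hp.mono fun x hx => hx.1
    refine ContinuousOn.div (by fun_prop) (by fun_prop) fun x hx => ?_
    have := hpos x hx.1 hx.2
    positivity
  set pr : ℝ → ℝ := fun a => max a0 (min a V) with hpr
  have cpr : Continuous pr := by fun_prop
  have mpr : ∀ a, pr a ∈ Icc a0 V := fun a => ⟨le_max_left _ _, max_le hV (min_le_right _ _)⟩
  set k : ℝ → ℝ := fun a => 2 * y0 * max 0 (min a a0) / a0 ^ 2 + (ψ (pr a) - ψ a0) with hk
  have ψ0 : ψ a0 = 2 * y0 / a0 := by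
    rw [hψ]
    change R0 ^ 2 * p a0 / (1 - R0 * P a0) ^ 2 = _
    rw [P0, pa, hRy]
    field_simp
    ring
  have k1 : ∀ a, a ≤ a0 → k a = 2 * y0 * max 0 a / a0 ^ 2 := fun a h => by
    rw [hk]
    change 2 * y0 * max 0 (min a a0) / a0 ^ 2 + (ψ (max a0 (min a V)) - ψ a0) = _
    rw [min_eq_left h, max_eq_left (min_le_of_left_le h), sub_self, add_zero]
  have k2 : ∀ a, a0 ≤ a → a ≤ V → k a = ψ a := fun a h h1 => by
    rw [hk]
    change 2 * y0 * max 0 (min a a0) / a0 ^ 2 + (ψ (max a0 (min a V)) - ψ a0) = _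
    rw [min_eq_right h, max_eq_right ha.le, min_eq_left h1, max_eq_right h, ψ0]
    field_simp
    ring
  have k3 : ∀ a, V ≤ a → k a = ψ V := fun a h => by
    rw [hk]
    change 2 * y0 * max 0 (min a a0) / a0 ^ 2 + (ψ (max a0 (min a V)) - ψ a0) = _
    rw [min_eq_right (hV.trans h), max_eq_right ha.le, min_eq_right h, max_eq_right hV, ψ0]
    field_simp
    ring
  have ck : Continuous k := by
    have c1 : Continuous fun a => ψ (pr a) := cψ.comp_continuous cpr mpr
    have c2 : Continuous fun a : ℝ => 2 * y0 * max 0 (min a a0) / a0 ^ 2 :=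
      (by fun_prop : Continuous fun a : ℝ => 2 * y0 * max 0 (min a a0)).div_const _
    exact c2.add (c1.sub continuous_const)
  have ψp : ∀ a, a0 ≤ a → 0 ≤ ψ a := fun a h => by
    have := p0 a h
    change 0 ≤ R0 ^ 2 * p a / (1 - R0 * P a) ^ 2
    positivity
  have i1 : ∀ a, 0 ≤ a → a ≤ a0 → ∫ u in (0 : ℝ)..a, k u = y0 * a ^ 2 / a0 ^ 2 := fun a h0 h1 => by
    have e : ∫ u in (0 : ℝ)..a, k u = ∫ u in (0 : ℝ)..a, 2 * y0 / a0 ^ 2 * u := by
      refine intervalIntegral.integral_congr fun u hu => ?_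
      rw [uIcc_of_le h0] at hu
      change k u = _
      rw [k1 u (hu.2.trans h1), max_eq_right hu.1]
      ring
    rw [e, intervalIntegral.integral_const_mul, integral_id]
    ring
  refine ⟨k, ck, fun a h => ?_, fun a => ?_, fun a h0 h1 => ⟨?_, i1 a h0 h1⟩,
    fun a h0 h1 => ⟨hpos a h0 h1, k2 a h0 h1, ?_⟩⟩
  · rw [k1 a (h.trans ha.le), max_eq_left h]
    simp
  · rcases le_total a a0 with h | h
    · rw [k1 a h]
      positivity
    · rcases le_total a V with h1 | h1
      · rw [k2 a h h1]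
        exact ψp a h
      · rw [k3 a h1]
        exact ψp V hV
  · rw [k1 a h1, max_eq_right h0]
  · have s1 : ∫ u in (0 : ℝ)..a, k u = (∫ u in (0 : ℝ)..a0, k u) + ∫ u in a0..a, k u :=
      (intervalIntegral.integral_add_adjacent_intervals (ck.intervalIntegrable _ _)
        (ck.intervalIntegrable _ _)).symm
    have s2 : ∫ u in a0..a, k u = R0 / (1 - R0 * P a) - R0 / (1 - R0 * P a0) := by
      refine intervalIntegral.integral_eq_sub_of_hasDerivAt (f := fun u => R0 / (1 - R0 * P u))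
        (fun u hu => ?_) (ck.intervalIntegrable _ _)
      rw [uIcc_of_le h0] at hu
      have h2 := hpos u hu.1 (hu.2.trans h1)
      rw [k2 u hu.1 (hu.2.trans h1)]
      have h3 := ((hP u hu.1).const_mul R0).const_sub 1
      refine ((hasDerivAt_const u R0).div h3 h2.ne').congr_deriv ?_
      change _ = R0 ^ 2 * p u / (1 - R0 * P u) ^ 2
      ring
    rw [s1, s2, i1 a0 ha.le le_rfl, P0, mul_zero, sub_zero, div_one, hR]
    field_simp
    ring

end cert

open Pool.Agent.EWD Pool.Agent.FPM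

variable {M : Type} [MetricSpace M] {γ : ℝ → M}

/-- **the weighted Hardy inequality with an isoperimetric profile `Lam`** for a Lipschitz function
`g`; only the level sets of `|g|` enter. -/
theorem hardy_prof (C : Calc M γ) {g : M → ℝ} (hg : Lip g) {R : ℝ} (hR : 0 ≤ R)
    (gR : ∀ᵐ o ∂C.μ, |g (C.pt o)| ≤ R) {w : Om → ℝ} (hw : Integrable w C.μ)
    {n k Lam : ℝ → ℝ} {ε δ lam V : ℝ} (hε : 0 ≤ ε) (hlam : 0 ≤ lam)
    (hn : Monotone n) (n0 : ∀ a ≤ 0, n a = 0) (hk : Continuous k) (k0 : ∀ a ≤ 0, k a = 0)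
    (kp : ∀ a, 0 ≤ k a)
    (hL : ∀ᵐ t : ℝ, 0 < t → DifferentiableAt ℝ (lev C fun x => |g x|) t ∧
      Lam ((C.μ {o | t < |g (C.pt o)|}).toReal - ε) ≤ deriv (lev C fun x => |g x|) t ^ 2)
    (hq : ∀ t > 0, ∫ o in {o | t < |g (C.pt o)|}, w o ∂C.μ ≤
      n ((C.μ {o | t < |g (C.pt o)|}).toReal - ε) + δ)
    (hV : C.vol ≤ V)
    (hc : ∀ a, 0 < a → a ≤ V → (lam * n a + ∫ u in (0 : ℝ)..a, k u) ^ 2 ≤ Lam a * k a) :
    lam * ∫ o, g (C.pt o) ^ 2 * w o ∂C.μ ≤ ∫ o, gn C g o ^ 2 ∂C.μ + lam * δ * R ^ 2 := by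
  have := C.fin
  obtain ⟨g', hg', hge, -⟩ := neg_rep C hg
  set h : Om → ℝ := fun o => max (-R) (min (g' o) 0) with hh
  have mh : Measurable h := measurable_const.max (hg'.min measurable_const)
  have he : ∀ᵐ o ∂C.μ, h o = -|g (C.pt o)| := by
    filter_upwards [hge, gR] with o h1 h2
    have h3 := abs_nonneg (g (C.pt o))
    rw [hh]
    change max (-R) (min (g' o) 0) = _
    rw [h1, min_eq_left (by linarith), max_eq_right (by linarith)]
  have hset : ∀ t : ℝ, {o | h o < t} =ᵐ[C.μ] {o | -|g (C.pt o)| < t} := fun t => by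
    filter_upwards [he] with o ho
    exact propext (by change h o < t ↔ -|g (C.pt o)| < t; rw [ho])
  have e1 : ∀ t, {o | -|g (C.pt o)| < t} = {o | -t < |g (C.pt o)|} := fun t => by
    ext o
    change -|g (C.pt o)| < t ↔ -t < |g (C.pt o)|
    exact neg_lt
  have hb : ∀ t, s7b C.μ h t = (C.μ {o | -t < |g (C.pt o)|}).toReal := fun t => by
    rw [s7b, Measure.real, measure_congr (hset t), e1]
  have hF : ∀ f t, s7F C.μ h f t = nlev C g f t := fun f t => by
    rw [s7F, nlev, setIntegral_congr_set (hset t)]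
  have hneg := (Measure.measurePreserving_neg (volume : Measure ℝ)).quasiMeasurePreserving
  have elev : (lev C fun x => |g x|) = fun s => ∫ o in {o | |g (C.pt o)| < s}, gn C g o ∂C.μ := by
    funext s
    unfold lev
    exact integral_congr_ae (ae_restrict_of_ae (gn_abs C hg))
  have key := hrp_core C.μ (g := h) (G := gn C g) (w := w) mh hR (fun o => le_max_left _ _)
    (fun o => max_le (by linarith) (min_le_right _ _)) (int_gn C hg) (gn_nonneg C g)
    (int_gn_sq C hg) hw (n := n) (k := k) (Lam := Lam) (ε := ε) (δ := δ) hε hlam hn n0 hk k0 kp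
    ?_ ?_ ?_
  · have e2 : ∫ o, h o ^ 2 * w o ∂C.μ = ∫ o, g (C.pt o) ^ 2 * w o ∂C.μ := by
      refine integral_congr_ae ?_
      filter_upwards [he] with o ho
      rw [ho, neg_sq, sq_abs]
    rw [e2] at key
    exact key
  · filter_upwards [hneg.ae hL] with t ht h0
    obtain ⟨d1, i1⟩ := ht (by linarith)
    rw [elev] at d1 i1
    have k1 := nlev_has C hg (int_gn C hg) (ae_of_all _ fun o h => h) d1
    have e3 : s7F C.μ h (gn C g) = nlev C g (gn C g) := funext fun t => hF _ t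
    rw [hb, e3, k1.deriv]
    exact i1
  · intro t ht
    have h1 := hq (-t) (by linarith)
    rw [hb, hF, nlev, e1]
    exact h1
  · intro a h0 h1
    exact hc a h0 (h1.trans hV)

/-- **Hardy inequality, bounded density up to a small exceptional mass, general profile**: below
`a0 = X / N` only `Lam a ≥ κ a` is used, above `a0` any primitive `P` of a bound `p` of `1 / Lam`. -/
theorem hardy_gen (C : Calc M γ) {g : M → ℝ} (hg : Lip g) {R : ℝ} (hR : 0 ≤ R)
    (gR : ∀ᵐ o ∂C.μ, |g (C.pt o)| ≤ R) {w e : Om → ℝ} (hw : Integrable w C.μ)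
    (w0 : ∀ᵐ o ∂C.μ, 0 ≤ w o) (he : Integrable e C.μ) (e0 : ∀ᵐ o ∂C.μ, 0 ≤ e o)
    {N X η : ℝ} (we : ∀ᵐ o ∂C.μ, w o ≤ N + e o) (eη : ∫ o, e o ∂C.μ ≤ η)
    (wX : ∫ o, w o ∂C.μ ≤ X) (hN : 0 < N) (hX : 0 < X)
    {Lam p P : ℝ → ℝ} {κ ε lam V : ℝ} (hκ : 0 < κ) (hε : 0 ≤ ε) (hlam : 0 ≤ lam)
    (hL : ∀ᵐ t : ℝ, 0 < t → DifferentiableAt ℝ (lev C fun x => |g x|) t ∧
      Lam ((C.μ {o | t < |g (C.pt o)|}).toReal - ε) ≤ deriv (lev C fun x => |g x|) t ^ 2)
    (hV : C.vol ≤ V) (hXV : X / N ≤ V)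
    (L0 : ∀ a, 0 < a → a ≤ X / N → κ * a ≤ Lam a)
    (L1 : ∀ a, X / N ≤ a → a ≤ V → 1 ≤ Lam a * p a)
    (hP : ∀ a, X / N ≤ a → HasDerivAt P (p a) a) (hp : ContinuousOn p (Ici (X / N)))
    (p0 : ∀ a, X / N ≤ a → 0 ≤ p a) (P0 : P (X / N) = 0) (pa : p (X / N) = 1 / (κ * (X / N)))
    (hs : 2 * (lam * X) ≤ κ) (hc : (κ - √(κ ^ 2 - 2 * κ * (lam * X))) * P V < 1) :
    lam * ∫ o, g (C.pt o) ^ 2 * w o ∂C.μ ≤
      ∫ o, gn C g o ^ 2 ∂C.μ + lam * (N * ε + η) * R ^ 2 := by
  have := C.fin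
  set a0 := X / N with ha0
  have ha : 0 < a0 := by positivity
  have hNa : N * a0 = X := by rw [ha0]; field_simp
  set q := lam * X with hq
  have q0 : 0 ≤ q := by positivity
  have hr : 0 ≤ κ ^ 2 - 2 * κ * q := by nlinarith
  set r := √(κ ^ 2 - 2 * κ * q) with hrd
  have r0 : 0 ≤ r := Real.sqrt_nonneg _
  have rr : r ^ 2 = κ ^ 2 - 2 * κ * q := Real.sq_sqrt hr
  have rκ : r ≤ κ - q := by
    refine Real.sqrt_le_iff.2 ⟨by linarith, ?_⟩
    nlinarith
  obtain ⟨k, ck, k0, kp, k1, k2⟩ := hrp_cert (a0 := a0) (V := V) (κ := κ) (q := q)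
    (y0 := κ - r - q) (R0 := κ - r) (p := p) (P := P) hκ ha hXV hP hp p0 P0 pa q0
    (by linarith) (by ring) (by nlinarith) hc
  set n : ℝ → ℝ := fun a => if a ≤ 0 then 0 else min (N * a) X with hn
  have nm : Monotone n := fun x y h => by
    change (if x ≤ 0 then 0 else min (N * x) X) ≤ if y ≤ 0 then 0 else min (N * y) X
    split_ifs with h1 h2 h2
    · exact le_rfl
    · push Not at h2
      exact le_min (by positivity) hX.le
    · exact absurd (h.trans h2) h1
    · exact min_le_min (by nlinarith) le_rfl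
  have hη : 0 ≤ η := (integral_nonneg_of_ae e0).trans eη
  refine hardy_prof C hg hR gR hw (n := n) (k := k) (Lam := Lam) (ε := ε) (δ := N * ε + η)
    (lam := lam) (V := V) hε hlam nm (fun a h => by simp [hn, h]) ck k0 kp hL ?_ hV ?_
  · intro t _
    set S := {o | t < |g (C.pt o)|} with hS
    have mS : NullMeasurableSet S C.μ := by
      have h1 := meas_pt_lt C (lip_abs hg).neg (-t)
      have h2 : {o | -|g (C.pt o)| < -t} = S := by
        ext o
        change -|g (C.pt o)| < -t ↔ t < |g (C.pt o)|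
        exact neg_lt_neg_iff
      rw [← h2]
      exact h1
    have b1 : ∫ o in S, w o ∂C.μ ≤ X :=
      (setIntegral_le_integral hw w0).trans wX
    have b2 : ∫ o in S, w o ∂C.μ ≤ N * (C.μ S).toReal + η := by
      have h1 : ∫ o in S, w o ∂C.μ ≤ ∫ o in S, (N + e o) ∂C.μ :=
        integral_mono_ae hw.integrableOn ((integrable_const N).integrableOn.add he.integrableOn)
          (ae_restrict_of_ae we)
      have h2 : ∫ o in S, (N + e o) ∂C.μ = N * (C.μ S).toReal + ∫ o in S, e o ∂C.μ := by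
        rw [integral_add (integrable_const N) he.integrableOn]
        simp [Measure.real, mul_comm]
      have h3 : ∫ o in S, e o ∂C.μ ≤ ∫ o, e o ∂C.μ := setIntegral_le_integral he e0
      linarith
    have b3 : 0 ≤ (C.μ S).toReal := ENNReal.toReal_nonneg
    change ∫ o in S, w o ∂C.μ ≤ (if (C.μ S).toReal - ε ≤ 0 then 0 else
      min (N * ((C.μ S).toReal - ε)) X) + (N * ε + η)
    split_ifs with h
    · nlinarith
    · have h1 : 0 ≤ N * ε := by positivity
      rcases min_choice (N * ((C.μ S).toReal - ε)) X with h2 | h2 <;> rw [h2] <;> nlinarith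
  · intro a a1 a2
    have e1 : n a = min (N * a) X := by simp [hn, a1]
    rcases le_total a a0 with h | h
    · obtain ⟨h1, h2⟩ := k1 a a1.le h
      have h3 : N * a ≤ X := by rw [← hNa]; nlinarith
      rw [e1, min_eq_left h3, h1, h2]
      have h4 : κ * a * (2 * (κ - r - q) * a / a0 ^ 2) ≤ Lam a * (2 * (κ - r - q) * a / a0 ^ 2) := by
        refine mul_le_mul_of_nonneg_right (L0 a a1 h) ?_
        have : 0 ≤ κ - r - q := by linarith
        positivity
      refine le_trans ?_ h4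
      have h5 : lam * (N * a) + (κ - r - q) * a ^ 2 / a0 ^ 2
          ≤ (κ - r) * (a / a0) := by
        have h6 : lam * (N * a) = q * (a / a0) := by
          rw [hq, ← hNa]
          field_simp
        have h7 : (κ - r - q) * a ^ 2 / a0 ^ 2 = (κ - r - q) * (a / a0) * (a / a0) := by
          field_simp
        have h8 : a / a0 ≤ 1 := by rwa [div_le_one ha]
        have h9 : 0 ≤ (κ - r - q) * (a / a0) :=
          mul_nonneg (by linarith) (by positivity)
        rw [h6, h7]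
        nlinarith
      have h6 : 0 ≤ lam * (N * a) + (κ - r - q) * a ^ 2 / a0 ^ 2 := by
        have : 0 ≤ κ - r - q := by linarith
        positivity
      calc (lam * (N * a) + (κ - r - q) * a ^ 2 / a0 ^ 2) ^ 2
          ≤ ((κ - r) * (a / a0)) ^ 2 := by gcongr
        _ = κ * a * (2 * (κ - r - q) * a / a0 ^ 2) := by
            have : (κ - r) ^ 2 = 2 * κ * (κ - r - q) := by nlinarith
            rw [mul_pow, this]
            field_simp
    · obtain ⟨h0, h1, h2⟩ := k2 a h a2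
      have h3 : X ≤ N * a := by rw [← hNa]; nlinarith
      rw [e1, min_eq_right h3, h1, h2]
      have h4 : lam * X + ((κ - r) / (1 - (κ - r) * P a) - q) = (κ - r) / (1 - (κ - r) * P a) := by
        rw [hq]
        ring
      rw [h4, div_pow]
      have h5 := L1 a h a2
      have h6 : 0 ≤ (κ - r) ^ 2 / (1 - (κ - r) * P a) ^ 2 := by positivity
      have h7 : Lam a * ((κ - r) ^ 2 * p a / (1 - (κ - r) * P a) ^ 2) =
          (Lam a * p a) * ((κ - r) ^ 2 / (1 - (κ - r) * P a) ^ 2) := by ring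
      rw [h7]
      nlinarith

end Pool.Agent.FPX
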