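import Mathlib
import Pool.Agent.FPX.HRP

/-
HRS (helper45): the weighted Hardy inequality on a band of levels, and with two certificates
(the gain `t ^ 2 (Φ1 - Φ0)` at a level `t`).
-/

open MeasureTheory Set Filter Topology
open scoped ENNReal NNReal

noncomputable section

namespace Pool.Agent.FPX

section seg

variable {Ω : Type*} [MeasurableSpace Ω] (μ : Measure Ω) [IsFiniteMeasure μ] {g G w : Ω → ℝ}

theorem hrp_seg (hg : Measurable g) {r0 r1 : ℝ} (hr : r0 ≤ r1) (hr1 : r1 ≤ 0)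
    (hG : Integrable G μ) (G0 : ∀ o, 0 ≤ G o) (hG2 : Integrable (fun o => G o ^ 2) μ)
    {n Φ k Lam : ℝ → ℝ} {ε lam V : ℝ} (hn : Monotone n) (hV : μ.real univ ≤ V)
    (hε : 0 ≤ ε)
    (hΦ : ∀ x, s7b μ g r0 - ε ≤ x → x ≤ V → HasDerivAt Φ (k x) x)
    (kp : ∀ x, s7b μ g r0 - ε ≤ x → x ≤ V → 0 ≤ k x)
    (hL : ∀ᵐ t : ℝ, r0 < t → t < r1 → Lam (s7b μ g t - ε) ≤ deriv (s7F μ g G) t ^ 2)
    (hc : ∀ x, s7b μ g r0 - ε ≤ x → x ≤ s7b μ g r1 - ε →
      lam * n x + Φ x ≤ 0 ∨ (lam * n x + Φ x) ^ 2 ≤ Lam x * k x) :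
    r0 ^ 2 * Φ (s7b μ g r0 - ε) - r1 ^ 2 * Φ (s7b μ g r1 - ε)
      + ∫ t in r0..r1, (2 * lam * (-t)) * n (s7b μ g t - ε) ≤
      ∫ o in {o | r0 ≤ g o ∧ g o < r1}, G o ^ 2 ∂μ := by
  have bmono : Monotone (s7b μ g) := s7b_mono μ
  have bV : ∀ t, s7b μ g t ≤ μ.real univ := fun t => s7b_le μ t
  obtain ⟨B, hB⟩ := isCompact_Icc.exists_bound_of_continuousOn
    (f := Φ) (s := Icc (s7b μ g r0 - ε) V) fun x hx =>
      (hΦ x hx.1 hx.2).continuousAt.continuousWithinAt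
  set L : ℝ := 2 * |r0| * |B| with hLd
  have hL0 : 0 ≤ L := by positivity
  set E : ℝ → ℝ := fun t => (2 * lam * (-t)) * n (s7b μ g t - ε) with hE
  have nm : Monotone fun t => n (s7b μ g t - ε) := fun s t hst => hn (by linarith [bmono hst])
  have hEi : IntervalIntegrable E volume r0 r1 :=
    (nm.intervalIntegrable (a := r0) (b := r1)).continuousOn_mul (by fun_prop)
  have key := s7_hjE μ (g := g) (G := G) hg hG G0 hG2 (W := fun _ => 0) (integrable_const 0)
    (r0 := r0) (r1 := r1) (c := 1) (L := L) hr zero_le_one hL0 (m := fun _ => 0)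
    (fun o _ _ => le_rfl) (fun s t _ hst _ => by nlinarith)
    (S := fun a t => -(t ^ 2 * Φ (a - ε))) (Sa := fun a t => -(t ^ 2 * k (a - ε)))
    (St := fun a t => -(2 * t * Φ (a - ε))) ?_ ?_ ?_ (E := E) hEi ?_
  · simp only [one_mul, zero_add] at key
    linarith
  · intro t a h0 _ h2 h3
    have hd : HasDerivAt Φ (k (a - ε)) (a - ε) :=
      hΦ _ (by linarith [bmono h0]) (by linarith)
    have h1 : HasFDerivAt (fun z : ℝ × ℝ => z.2 ^ 2)
        ((2 * t) • ContinuousLinearMap.snd ℝ ℝ ℝ) (a, t) := by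
      have := (hasFDerivAt_snd (𝕜 := ℝ) (E := ℝ) (F := ℝ) (p := (a, t))).pow 2
      simpa using this
    have h2 : HasFDerivAt (fun z : ℝ × ℝ => Φ (z.1 - ε))
        ((k (a - ε)) • ContinuousLinearMap.fst ℝ ℝ ℝ) (a, t) := by
      have h3 : HasFDerivAt (fun z : ℝ × ℝ => z.1 - ε) (ContinuousLinearMap.fst ℝ ℝ ℝ) (a, t) :=
        (hasFDerivAt_fst (𝕜 := ℝ) (E := ℝ) (F := ℝ) (p := (a, t))).sub_const ε
      exact HasDerivAt.comp_hasFDerivAt (a, t) hd h3
    have h3 := (h1.mul h2).neg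
    refine h3.congr_fderiv ?_
    ext <;> simp <;> ring
  · intro t a h0 h1 h2 h3
    rw [abs_neg, abs_mul, abs_mul, abs_two]
    have h4 : |t| ≤ |r0| := by
      rw [abs_of_nonpos (h1.trans hr1), abs_of_nonpos (h0.trans (h1.trans hr1))]
      linarith
    have h5 : |Φ (a - ε)| ≤ |B| := by
      have := hB (a - ε) ⟨by linarith [bmono h0], by linarith⟩
      rw [Real.norm_eq_abs] at this
      exact this.trans (le_abs_self B)
    have h6 : 2 * |t| * |Φ (a - ε)| ≤ 2 * |r0| * |B| := by gcongr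
    exact h6
  · intro t a h0 _ h2 h3
    have := kp (a - ε) (by linarith [bmono h0]) (by linarith)
    have h1 : 0 ≤ t ^ 2 * k (a - ε) := by positivity
    change -(t ^ 2 * k (a - ε)) ≤ 0
    linarith
  · filter_upwards [hL] with t ht h0 h1
    have hl := ht h0 h1
    set x := s7b μ g t - ε with hx
    have hx0 : s7b μ g r0 - ε ≤ x := by linarith [bmono h0.le]
    have hx1 : x ≤ s7b μ g r1 - ε := by linarith [bmono h1.le]
    have hx2 : x ≤ V := by linarith [bV t]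
    rcases hc x hx0 hx1 with h2 | h2
    · left
      change -(2 * t * Φ x) + 2 * lam * (-t) * n x ≤ 0
      have h3 : -(2 * t * Φ x) + 2 * lam * (-t) * n x = 2 * (-t) * (lam * n x + Φ x) := by ring
      rw [h3]
      have : 0 ≤ -t := by linarith
      nlinarith
    · right
      change (-(2 * t * Φ x) + 2 * lam * (-t) * n x) ^ 2 ≤
        4 * (1 * deriv (s7F μ g G) t ^ 2 * (0 - -(t ^ 2 * k x)))
      have h3 : (-(2 * t * Φ x) + 2 * lam * (-t) * n x) ^ 2 = 4 * t ^ 2 * (lam * n x + Φ x) ^ 2 := by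
        ring
      rw [h3]
      have h4 : Lam x * k x ≤ deriv (s7F μ g G) t ^ 2 * k x :=
        mul_le_mul_of_nonneg_right hl (kp x hx0 hx2)
      have h5 : (lam * n x + Φ x) ^ 2 ≤ deriv (s7F μ g G) t ^ 2 * k x := h2.trans h4
      have h6 := mul_le_mul_of_nonneg_left h5 (show 0 ≤ 4 * t ^ 2 by positivity)
      linarith

end seg

open Pool.Agent.EWD Pool.Agent.FPM

variable {M : Type} [MetricSpace M] {γ : ℝ → M}

/-- the area of `{s < |g|}` -/
def supa (C : Calc M γ) (g : M → ℝ) (s : ℝ) : ℝ := (C.μ {o | s < |g (C.pt o)|}).toReal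

/-- the mass of `w` on `{s < |g|}` -/
def supw (C : Calc M γ) (g : M → ℝ) (w : Om → ℝ) (s : ℝ) : ℝ :=
  ∫ o in {o | s < |g (C.pt o)|}, w o ∂C.μ

/-- a bounded measurable representative of `-|g|` -/
theorem hrs_rep (C : Calc M γ) {g : M → ℝ} (hg : Lip g) : ∃ h : Om → ℝ, Measurable h ∧
    (∀ᵐ o ∂C.μ, h o = -|g (C.pt o)|) ∧ (∀ t, s7b C.μ h t = supa C g (-t)) ∧
    (∀ f t, s7F C.μ h f t = nlev C g f t) ∧ (∀ f t, nlev C g f t = supw C g f (-t)) ∧
    ∀ p : ℝ → Prop, {o | p (h o)} =ᵐ[C.μ] {o | p (-|g (C.pt o)|)} := by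
  obtain ⟨h, mh, he, hF⟩ := neg_rep C hg
  have hset : ∀ p : ℝ → Prop, {o | p (h o)} =ᵐ[C.μ] {o | p (-|g (C.pt o)|)} := fun p => by
    filter_upwards [he] with o ho
    exact propext (by change p (h o) ↔ p (-|g (C.pt o)|); rw [ho])
  have e1 : ∀ t, {o | -|g (C.pt o)| < t} = {o | -t < |g (C.pt o)|} := fun t => by
    ext o
    change -|g (C.pt o)| < t ↔ -t < |g (C.pt o)|
    exact neg_lt
  refine ⟨h, mh, he, fun t => ?_, hF, fun f t => ?_, hset⟩
  · rw [s7b, Measure.real, measure_congr (hset fun x => x < t), e1, supa]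
  · rw [nlev, supw, e1]

theorem hrs_levels (C : Calc M γ) {g : M → ℝ} (hg : Lip g) {Lam : ℝ → ℝ} {ε : ℝ}
    (hL : ∀ᵐ t : ℝ, 0 < t → DifferentiableAt ℝ (lev C fun x => |g x|) t ∧
      Lam (supa C g t - ε) ≤ deriv (lev C fun x => |g x|) t ^ 2) :
    ∀ᵐ t : ℝ, t < 0 → Lam (supa C g (-t) - ε) ≤ deriv (nlev C g (gn C g)) t ^ 2 := by
  have hneg := (Measure.measurePreserving_neg (volume : Measure ℝ)).quasiMeasurePreserving
  have elev : (lev C fun x => |g x|) = fun s => ∫ o in {o | |g (C.pt o)| < s}, gn C g o ∂C.μ := by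
    funext s
    unfold lev
    exact integral_congr_ae (ae_restrict_of_ae (gn_abs C hg))
  filter_upwards [hneg.ae hL] with t ht h0
  obtain ⟨d1, i1⟩ := ht (by linarith)
  rw [elev] at d1 i1
  have k1 := nlev_has C hg (int_gn C hg) (ae_of_all _ fun o h => h) d1
  rw [k1.deriv]
  exact i1

/-- **the weighted Hardy inequality on a band of levels** -/
theorem hardy_seg (C : Calc M γ) {g : M → ℝ} (hg : Lip g) {s0 s1 : ℝ} (h0 : 0 ≤ s0) (h1 : s0 ≤ s1)
    {n Φ k Lam : ℝ → ℝ} {ε lam V : ℝ} (hn : Monotone n) (hV : C.vol ≤ V) (hε : 0 ≤ ε)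
    (hΦ : ∀ x, supa C g s1 - ε ≤ x → x ≤ V → HasDerivAt Φ (k x) x)
    (kp : ∀ x, supa C g s1 - ε ≤ x → x ≤ V → 0 ≤ k x)
    (hL : ∀ᵐ t : ℝ, 0 < t → DifferentiableAt ℝ (lev C fun x => |g x|) t ∧
      Lam (supa C g t - ε) ≤ deriv (lev C fun x => |g x|) t ^ 2)
    (hc : ∀ x, supa C g s1 - ε ≤ x → x ≤ supa C g s0 - ε →
      lam * n x + Φ x ≤ 0 ∨ (lam * n x + Φ x) ^ 2 ≤ Lam x * k x) :
    s1 ^ 2 * Φ (supa C g s1 - ε) - s0 ^ 2 * Φ (supa C g s0 - ε)
      + ∫ s in s0..s1, lam * (2 * s) * n (supa C g s - ε) ≤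
      ∫ o in {o | s0 < |g (C.pt o)| ∧ |g (C.pt o)| ≤ s1}, gn C g o ^ 2 ∂C.μ := by
  have := C.fin
  obtain ⟨h, mh, -, hb, hF, -, hset⟩ := hrs_rep C hg
  have e3 : s7F C.μ h (gn C g) = nlev C g (gn C g) := funext fun t => hF _ t
  have key := hrp_seg C.μ (g := h) (G := gn C g) mh (r0 := -s1) (r1 := -s0) (by linarith)
    (by linarith) (int_gn C hg) (gn_nonneg C g) (int_gn_sq C hg) (n := n) (Φ := Φ) (k := k)
    (Lam := Lam) (ε := ε) (lam := lam) (V := V) hn hV hε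
    (by rw [hb, neg_neg]; exact hΦ) (by rw [hb, neg_neg]; exact kp)
    (by
      rw [e3]
      filter_upwards [hrs_levels C hg hL] with t ht _ h3
      rw [hb]
      exact ht (by linarith))
    (by rw [hb, hb, neg_neg, neg_neg]; exact hc)
  rw [hb, hb, neg_neg, neg_neg, neg_sq, neg_sq] at key
  have e4 : ∫ t in (-s1)..(-s0), (2 * lam * (-t)) * n (s7b C.μ h t - ε) =
      ∫ s in s0..s1, lam * (2 * s) * n (supa C g s - ε) := by
    rw [← intervalIntegral.integral_comp_neg]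
    refine intervalIntegral.integral_congr fun t _ => ?_
    change 2 * lam * (- -t) * n (s7b C.μ h (-t) - ε) = _
    rw [hb, neg_neg]
    ring
  have e5 : ∫ o in {o | -s1 ≤ h o ∧ h o < -s0}, gn C g o ^ 2 ∂C.μ =
      ∫ o in {o | s0 < |g (C.pt o)| ∧ |g (C.pt o)| ≤ s1}, gn C g o ^ 2 ∂C.μ := by
    rw [setIntegral_congr_set (hset fun x => -s1 ≤ x ∧ x < -s0)]
    congr 2
    ext o
    change (-s1 ≤ -|g (C.pt o)| ∧ -|g (C.pt o)| < -s0) ↔ s0 < |g (C.pt o)| ∧ |g (C.pt o)| ≤ s1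
    rw [neg_le_neg_iff, neg_lt_neg_iff]
    exact and_comm
  rw [e4, e5] at key
  exact key

/-- layer cake for `g ^ 2` -/
theorem layer_sq (C : Calc M γ) {g : M → ℝ} (hg : Lip g) {R : ℝ} (hR : 0 ≤ R)
    (gR : ∀ᵐ o ∂C.μ, |g (C.pt o)| ≤ R) {w : Om → ℝ} (hw : Integrable w C.μ) :
    IntervalIntegrable (fun s => (2 * s) * supw C g w s) volume 0 R ∧
    ∫ o, g (C.pt o) ^ 2 * w o ∂C.μ = ∫ s in (0 : ℝ)..R, (2 * s) * supw C g w s := by
  have := C.fin
  obtain ⟨g', hg', hge, -⟩ := neg_rep C hg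
  set h : Om → ℝ := fun o => max (-R) (min (g' o) 0) with hh
  have mh : Measurable h := measurable_const.max (hg'.min measurable_const)
  have he : ∀ᵐ o ∂C.μ, h o = -|g (C.pt o)| := by
    filter_upwards [hge, gR] with o h1 h2
    have h3 := abs_nonneg (g (C.pt o))
    rw [hh]
    change max (-R) (min (g' o) 0) = _
    rw [h1, min_eq_left (by linarith), max_eq_right (by linarith)]
  have hset : ∀ t : ℝ, {o | h o < t} =ᵐ[C.μ] {o | -t < |g (C.pt o)|} := fun t => by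
    filter_upwards [he] with o ho
    exact propext (by
      change h o < t ↔ -t < |g (C.pt o)|
      rw [ho]
      exact neg_lt)
  obtain ⟨l1, l2⟩ := s7_layer C.μ mh hw (r0 := -R) (r1 := 0) (fun o => le_max_left _ _)
    (fun o => max_le (by linarith) (min_le_right _ _)) (by linarith) (K := fun t => t ^ 2)
    (K' := fun t => 2 * t) (fun t _ => by simpa using hasDerivAt_pow 2 t) (by fun_prop)
  have e0 : ∀ t, ∫ o in {o | h o < t}, w o ∂C.μ = supw C g w (-t) := fun t => by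
    rw [setIntegral_congr_set (hset t), supw]
  simp only [e0] at l1 l2
  have e1 : ∫ o, h o ^ 2 * w o ∂C.μ = ∫ o, g (C.pt o) ^ 2 * w o ∂C.μ := by
    refine integral_congr_ae ?_
    filter_upwards [he] with o ho
    rw [ho, neg_sq, sq_abs]
  have e2 : (fun t : ℝ => 2 * t * supw C g w (-t)) = fun t => -((2 * (-t)) * supw C g w (-t)) := by
    funext t
    ring
  rw [e2] at l1 l2
  have l3 : IntervalIntegrable (fun t : ℝ => (2 * (-t)) * supw C g w (-t)) volume (-R) 0 := by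
    have l5 := l1.neg
    have e5 : (-fun t : ℝ => -((2 * (-t)) * supw C g w (-t))) =
        fun t => (2 * (-t)) * supw C g w (-t) := by
      funext t
      exact neg_neg _
    rwa [e5] at l5
  have l4 : IntervalIntegrable (fun s => (2 * s) * supw C g w s) volume R 0 := by
    rw [IntervalIntegrable.iff_comp_neg, neg_zero]
    exact l3
  refine ⟨l4.symm, ?_⟩
  rw [← e1, l2]
  simp only [ne_eq, OfNat.ofNat_ne_zero, not_false_eq_true, zero_pow, zero_mul, zero_sub]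
  rw [intervalIntegral.integral_neg, neg_neg]
  have := intervalIntegral.integral_comp_neg (a := (-R)) (b := 0)
    (fun s => (2 * s) * supw C g w s)
  rw [this]
  simp

theorem supa_top (C : Calc M γ) {g : M → ℝ} {R : ℝ} (gR : ∀ᵐ o ∂C.μ, |g (C.pt o)| ≤ R) :
    supa C g R = 0 := by
  have h : C.μ {o | R < |g (C.pt o)|} = 0 :=
    measure_eq_zero_iff_ae_notMem.2 (gR.mono fun o ho => not_lt.2 ho)
  rw [supa, h, ENNReal.toReal_zero]

theorem supa_nonneg (C : Calc M γ) (g : M → ℝ) (s : ℝ) : 0 ≤ supa C g s := ENNReal.toReal_nonneg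

theorem supa_le (C : Calc M γ) (g : M → ℝ) (s : ℝ) : supa C g s ≤ C.vol := by
  have := C.fin
  exact ENNReal.toReal_mono (measure_ne_top _ _) (measure_mono (subset_univ _))

theorem supa_anti (C : Calc M γ) (g : M → ℝ) {s t : ℝ} (h : s ≤ t) : supa C g t ≤ supa C g s := by
  have := C.fin
  exact ENNReal.toReal_mono (measure_ne_top _ _) (measure_mono fun o ho => h.trans_lt ho)

theorem meas_abs_lt (C : Calc M γ) {g : M → ℝ} (hg : Lip g) (t : ℝ) :
    NullMeasurableSet {o | t < |g (C.pt o)|} C.μ := by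
  have h1 := meas_pt_lt C (lip_abs hg).neg (-t)
  have h2 : {o | -|g (C.pt o)| < -t} = {o | t < |g (C.pt o)|} := by
    ext o
    change -|g (C.pt o)| < -t ↔ t < |g (C.pt o)|
    exact neg_lt_neg_iff
  rw [← h2]
  exact h1

/-- the energy of two adjacent bands -/
theorem band_le (C : Calc M γ) {g : M → ℝ} (hg : Lip g) {s t r : ℝ} :
    (∫ o in {o | s < |g (C.pt o)| ∧ |g (C.pt o)| ≤ t}, gn C g o ^ 2 ∂C.μ) +
      ∫ o in {o | t < |g (C.pt o)| ∧ |g (C.pt o)| ≤ r}, gn C g o ^ 2 ∂C.μ ≤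
      ∫ o, gn C g o ^ 2 ∂C.μ := by
  set A := {o | s < |g (C.pt o)| ∧ |g (C.pt o)| ≤ t}
  set B := {o | t < |g (C.pt o)|} with hB
  have hi := int_gn_sq C hg
  have h1 : ∫ o in {o | t < |g (C.pt o)| ∧ |g (C.pt o)| ≤ r}, gn C g o ^ 2 ∂C.μ ≤
      ∫ o in B, gn C g o ^ 2 ∂C.μ :=
    setIntegral_mono_set hi.integrableOn (ae_of_all _ fun o => sq_nonneg _)
      (LE.le.eventuallyLE fun o ho => ho.1)
  have h2 : ∫ o in A, gn C g o ^ 2 ∂C.μ ≤ ∫ o in Bᶜ, gn C g o ^ 2 ∂C.μ :=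
    setIntegral_mono_set hi.integrableOn (ae_of_all _ fun o => sq_nonneg _)
      (LE.le.eventuallyLE fun o ho => not_lt.2 ho.2)
  have h3 := integral_add_compl₀ (meas_abs_lt C hg t) hi
  linarith

/-- **the weighted Hardy inequality with two certificates**: `Φ0` for the levels above `t`,
`Φ1` for the levels below `t`. -/
theorem hardy_two (C : Calc M γ) {g : M → ℝ} (hg : Lip g) {R : ℝ}
    (gR : ∀ᵐ o ∂C.μ, |g (C.pt o)| ≤ R) {w : Om → ℝ} (hw : Integrable w C.μ)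
    {n Φ0 k0 Φ1 k1 Lam : ℝ → ℝ} {ε δ lam V t : ℝ} (ht : 0 ≤ t) (htR : t ≤ R) (hlam : 0 ≤ lam)
    (hε : 0 ≤ ε) (hn : Monotone n) (n0 : ∀ a ≤ 0, n a = 0) (hV : C.vol ≤ V)
    (hΦ0 : ∀ x, -ε ≤ x → x ≤ V → HasDerivAt Φ0 (k0 x) x) (k0p : ∀ x, -ε ≤ x → x ≤ V → 0 ≤ k0 x)
    (Φ00 : ∀ x ≤ 0, Φ0 x = 0)
    (hc0 : ∀ x, 0 < x → x ≤ supa C g t - ε → (lam * n x + Φ0 x) ^ 2 ≤ Lam x * k0 x)
    (hΦ1 : ∀ x, supa C g t - ε ≤ x → x ≤ V → HasDerivAt Φ1 (k1 x) x)
    (k1p : ∀ x, supa C g t - ε ≤ x → x ≤ V → 0 ≤ k1 x)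
    (hc1 : ∀ x, supa C g t - ε ≤ x → x ≤ V →
      lam * n x + Φ1 x ≤ 0 ∨ (lam * n x + Φ1 x) ^ 2 ≤ Lam x * k1 x)
    (hL : ∀ᵐ t : ℝ, 0 < t → DifferentiableAt ℝ (lev C fun x => |g x|) t ∧
      Lam (supa C g t - ε) ≤ deriv (lev C fun x => |g x|) t ^ 2)
    (hq : ∀ s > 0, supw C g w s ≤ n (supa C g s - ε) + δ) :
    lam * ∫ o, g (C.pt o) ^ 2 * w o ∂C.μ
      + t ^ 2 * (Φ1 (supa C g t - ε) - Φ0 (supa C g t - ε)) ≤
      ∫ o, gn C g o ^ 2 ∂C.μ + lam * δ * R ^ 2 := by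
  have hR : 0 ≤ R := ht.trans htR
  have e0 := supa_top C gR
  have s1 := hardy_seg C hg (s0 := t) (s1 := R) ht htR (n := n) (Φ := Φ0) (k := k0) (Lam := Lam)
    (ε := ε) (lam := lam) (V := V) hn hV hε (by rw [e0, zero_sub]; exact hΦ0)
    (by rw [e0, zero_sub]; exact k0p) hL (fun x _ h1 => by
      rcases le_or_gt x 0 with h | h
      · left
        rw [n0 x h, Φ00 x h]
        simp
      · right
        exact hc0 x h h1)
  have s2 := hardy_seg C hg (s0 := 0) (s1 := t) le_rfl ht (n := n) (Φ := Φ1) (k := k1) (Lam := Lam)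
    (ε := ε) (lam := lam) (V := V) hn hV hε hΦ1 k1p hL
    (fun x h0 h1 => hc1 x h0 (h1.trans (by have := supa_le C g 0; linarith)))
  rw [e0, Φ00 (0 - ε) (by linarith)] at s1
  have s3 := band_le C hg (s := 0) (t := t) (r := R)
  have anti : ∀ a b, a ≤ b → n (supa C g b - ε) ≤ n (supa C g a - ε) := fun a b h =>
    hn (by linarith [supa_anti C g h])
  have ni : ∀ a b : ℝ, IntervalIntegrable (fun s => lam * (2 * s) * n (supa C g s - ε)) volume a b :=
    fun a b => by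
      have h1 : Antitone fun s => n (supa C g s - ε) := fun a b h => anti a b h
      exact (h1.intervalIntegrable (a := a) (b := b)).continuousOn_mul (by fun_prop)
  have s4 := intervalIntegral.integral_add_adjacent_intervals (ni 0 t) (ni t R)
  obtain ⟨l1, l2⟩ := layer_sq C hg hR gR hw
  have s5 : ∫ s in (0 : ℝ)..R, lam * (2 * s) * (supw C g w s - δ) ≤
      ∫ s in (0 : ℝ)..R, lam * (2 * s) * n (supa C g s - ε) := by
    have i1 : IntervalIntegrable (fun s => lam * (2 * s) * (supw C g w s - δ)) volume 0 R := by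
      have h1 := (l1.const_mul lam).sub
        (Continuous.intervalIntegrable (by fun_prop : Continuous fun s : ℝ => lam * (2 * s) * δ) 0 R)
      refine h1.congr_ae (ae_of_all _ fun s => ?_)
      change lam * (2 * s * supw C g w s) - lam * (2 * s) * δ = _
      ring
    refine intervalIntegral.integral_mono_on_of_le_Ioo hR i1 (ni 0 R) fun s hs => ?_
    have h2 := hq s hs.1
    have h3 : 0 ≤ lam * (2 * s) := mul_nonneg hlam (by linarith [hs.1])
    exact mul_le_mul_of_nonneg_left (by linarith) h3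
  have s6 : ∫ s in (0 : ℝ)..R, lam * (2 * s) * (supw C g w s - δ) =
      lam * (∫ o, g (C.pt o) ^ 2 * w o ∂C.μ) - lam * δ * R ^ 2 := by
    have e1 : (fun s => lam * (2 * s) * (supw C g w s - δ)) =
        fun s => lam * ((2 * s) * supw C g w s) - (2 * lam * δ) * s := by
      funext s
      ring
    rw [e1, intervalIntegral.integral_sub (l1.const_mul lam)
      (Continuous.intervalIntegrable (by fun_prop) 0 R), intervalIntegral.integral_const_mul,
      intervalIntegral.integral_const_mul, integral_id, ← l2]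
    ring
  nlinarith

/-- layer cake for `min |g| t ^ 2` -/
theorem layer_out (C : Calc M γ) {g : M → ℝ} (hg : Lip g) {t : ℝ} (ht : 0 ≤ t)
    {w : Om → ℝ} (hw : Integrable w C.μ) :
    ∫ o, min |g (C.pt o)| t ^ 2 * w o ∂C.μ = ∫ s in (0 : ℝ)..t, (2 * s) * supw C g w s := by
  have hl : Lip fun x => min |g x| t := by
    obtain ⟨K, hK⟩ := lip_abs hg
    exact ⟨K, hK.min_const t⟩
  obtain ⟨-, l2⟩ := layer_sq C hl ht (ae_of_all _ fun o => by
    rw [abs_of_nonneg (le_min (abs_nonneg _) ht)]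
    exact min_le_right _ _) hw
  rw [l2]
  refine intervalIntegral.integral_congr_ae ?_
  have h0 : ∀ᵐ s : ℝ, s ≠ t := by
    rw [ae_iff]
    simp
  filter_upwards [h0] with s hs h1
  rw [uIoc_of_le ht] at h1
  have h2 : s < t := lt_of_le_of_ne h1.2 hs
  have e : {o | s < |min |g (C.pt o)| t|} = {o | s < |g (C.pt o)|} := by
    ext o
    change s < |min |g (C.pt o)| t| ↔ s < |g (C.pt o)|
    rw [abs_of_nonneg (le_min (abs_nonneg _) ht), lt_min_iff]
    exact ⟨fun h => h.1, fun h => ⟨h, h2⟩⟩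
  unfold supw
  rw [e]

/-- **the weighted Hardy inequality above a level `t`** -/
theorem hardy_in (C : Calc M γ) {g : M → ℝ} (hg : Lip g) {R : ℝ}
    (gR : ∀ᵐ o ∂C.μ, |g (C.pt o)| ≤ R) {w : Om → ℝ} (hw : Integrable w C.μ)
    {n Φ0 k0 Lam : ℝ → ℝ} {ε δ lam V t : ℝ} (ht : 0 ≤ t) (htR : t ≤ R) (hlam : 0 ≤ lam)
    (hε : 0 ≤ ε) (hδ : 0 ≤ δ) (hn : Monotone n) (n0 : ∀ a ≤ 0, n a = 0) (hV : C.vol ≤ V)
    (hΦ0 : ∀ x, -ε ≤ x → x ≤ V → HasDerivAt Φ0 (k0 x) x) (k0p : ∀ x, -ε ≤ x → x ≤ V → 0 ≤ k0 x)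
    (Φ00 : ∀ x ≤ 0, Φ0 x = 0)
    (hc0 : ∀ x, 0 < x → x ≤ supa C g t - ε → (lam * n x + Φ0 x) ^ 2 ≤ Lam x * k0 x)
    (hL : ∀ᵐ t : ℝ, 0 < t → DifferentiableAt ℝ (lev C fun x => |g x|) t ∧
      Lam (supa C g t - ε) ≤ deriv (lev C fun x => |g x|) t ^ 2)
    (hq : ∀ s > 0, supw C g w s ≤ n (supa C g s - ε) + δ) :
    lam * ∫ o, (g (C.pt o) ^ 2 - min |g (C.pt o)| t ^ 2) * w o ∂C.μ ≤
      (∫ o in {o | t < |g (C.pt o)| ∧ |g (C.pt o)| ≤ R}, gn C g o ^ 2 ∂C.μ)
        + t ^ 2 * Φ0 (supa C g t - ε) + lam * δ * R ^ 2 := by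
  have hR : 0 ≤ R := ht.trans htR
  have e0 := supa_top C gR
  have s1 := hardy_seg C hg (s0 := t) (s1 := R) ht htR (n := n) (Φ := Φ0) (k := k0) (Lam := Lam)
    (ε := ε) (lam := lam) (V := V) hn hV hε (by rw [e0, zero_sub]; exact hΦ0)
    (by rw [e0, zero_sub]; exact k0p) hL (fun x _ h1 => by
      rcases le_or_gt x 0 with h | h
      · left
        rw [n0 x h, Φ00 x h]
        simp
      · right
        exact hc0 x h h1)
  rw [e0, Φ00 (0 - ε) (by linarith)] at s1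
  have ni : ∀ a b : ℝ, IntervalIntegrable (fun s => lam * (2 * s) * n (supa C g s - ε)) volume a b :=
    fun a b => by
      have h1 : Antitone fun s => n (supa C g s - ε) := fun a b h =>
        hn (by linarith [supa_anti C g h])
      exact (h1.intervalIntegrable (a := a) (b := b)).continuousOn_mul (by fun_prop)
  obtain ⟨l1, l2⟩ := layer_sq C hg hR gR hw
  have l3 := layer_out C hg ht hw
  have l4 : IntervalIntegrable (fun s => (2 * s) * supw C g w s) volume 0 t :=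
    l1.mono_set (by rw [uIcc_of_le ht, uIcc_of_le hR]; exact Icc_subset_Icc_right htR)
  have l5 : IntervalIntegrable (fun s => (2 * s) * supw C g w s) volume t R :=
    l1.mono_set (by rw [uIcc_of_le htR, uIcc_of_le hR]; exact Icc_subset_Icc_left ht)
  have l6 := intervalIntegral.integral_add_adjacent_intervals l4 l5
  have s5 : ∫ s in t..R, lam * (2 * s) * (supw C g w s - δ) ≤
      ∫ s in t..R, lam * (2 * s) * n (supa C g s - ε) := by
    have i1 : IntervalIntegrable (fun s => lam * (2 * s) * (supw C g w s - δ)) volume t R := by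
      have h1 := (l5.const_mul lam).sub
        (Continuous.intervalIntegrable (by fun_prop : Continuous fun s : ℝ => lam * (2 * s) * δ) t R)
      refine h1.congr_ae (ae_of_all _ fun s => ?_)
      change lam * (2 * s * supw C g w s) - lam * (2 * s) * δ = _
      ring
    refine intervalIntegral.integral_mono_on_of_le_Ioo htR i1 (ni t R) fun s hs => ?_
    have h2 := hq s (ht.trans_lt hs.1)
    have h3 : 0 ≤ lam * (2 * s) := mul_nonneg hlam (by linarith [hs.1])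
    exact mul_le_mul_of_nonneg_left (by linarith) h3
  have s6 : ∫ s in t..R, lam * (2 * s) * (supw C g w s - δ) =
      lam * (∫ s in t..R, (2 * s) * supw C g w s) - lam * δ * (R ^ 2 - t ^ 2) := by
    have e1 : (fun s => lam * (2 * s) * (supw C g w s - δ)) =
        fun s => lam * ((2 * s) * supw C g w s) - (2 * lam * δ) * s := by
      funext s
      ring
    rw [e1, intervalIntegral.integral_sub (l5.const_mul lam)
      (Continuous.intervalIntegrable (by fun_prop) t R), intervalIntegral.integral_const_mul,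
      intervalIntegral.integral_const_mul, integral_id]
    ring
  have i3 : Integrable (fun o => g (C.pt o) ^ 2 * w o) C.μ := by
    refine hw.bdd_mul (c := R ^ 2) ((aem_pt C hg).pow_const 2).aestronglyMeasurable ?_
    filter_upwards [gR] with o ho
    rw [Real.norm_eq_abs, abs_pow]
    exact pow_le_pow_left₀ (abs_nonneg _) ho 2
  have i4 : Integrable (fun o => min |g (C.pt o)| t ^ 2 * w o) C.μ := by
    refine hw.bdd_mul (c := t ^ 2) ?_ (ae_of_all _ fun o => ?_)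
    · exact (((aem_pt C (lip_abs hg)).min aemeasurable_const).pow_const 2).aestronglyMeasurable
    · rw [Real.norm_eq_abs, abs_pow, abs_of_nonneg (le_min (abs_nonneg _) ht)]
      exact pow_le_pow_left₀ (le_min (abs_nonneg _) ht) (min_le_right _ _) 2
  have e5 : ∫ o, (g (C.pt o) ^ 2 - min |g (C.pt o)| t ^ 2) * w o ∂C.μ =
      ∫ s in t..R, (2 * s) * supw C g w s := by
    have e6 : ∫ o, (g (C.pt o) ^ 2 - min |g (C.pt o)| t ^ 2) * w o ∂C.μ =
        (∫ o, g (C.pt o) ^ 2 * w o ∂C.μ) - ∫ o, min |g (C.pt o)| t ^ 2 * w o ∂C.μ := by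
      rw [← integral_sub i3 i4]
      exact integral_congr_ae (ae_of_all _ fun o => by ring)
    rw [e6, l2, l3]
    linarith
  rw [e5]
  have h7 : lam * δ * (R ^ 2 - t ^ 2) ≤ lam * δ * R ^ 2 := by
    have : 0 ≤ lam * δ := mul_nonneg hlam hδ
    nlinarith [sq_nonneg t]
  linarith

end Pool.Agent.FPX
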