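import Mathlib
import Pool.Agent.FPX.S7O
import Pool.Agent.FPX.EMN

/-
IMC (helper91): the outer resistance of the level sets of odd functions, measured through the image
under a fixed odd map `F` into the two sphere: if the superlevel set `{τ < |χ|}` has area at least
`a₁`, then `τ² ≤ R ∫_{|χ| < τ} |dχ|²`, where `R` only depends on `a₁`, on `∫ ν_F` and on
`∫ (1 - J_F)₊`.
-/

open MeasureTheory Set Filter Topology
open scoped ENNReal NNReal

noncomputable section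

namespace Pool.Agent.FPX

open Pool.Agent.EWD Pool.Agent.FPM

variable {M : Type} [MetricSpace M] {γ : ℝ → M}

/-- outer resistance: `τ² ≤ R ∫_{|χ| < τ} |dχ|²` for all odd `χ` with area of `{τ < |χ|}` at least
`a₁` -/
def OutCap (C : Calc M γ) (a₁ R : ℝ) : Prop :=
  ∀ χ : M → ℝ, Lip χ → EWD.OddB γ χ → ∀ τ : ℝ, 0 < τ → a₁ ≤ C.μ.real {o | τ < |χ (C.pt o)|} →
    τ ^ 2 ≤ R * ∫ o in {o | |χ (C.pt o)| < τ}, gn C χ o ^ 2 ∂C.μ

/-- the pointwise inequality -/
theorem imc_pt {p q h g K : ℝ} (hh : 0 < h) (hK : 0 < K) (hg : h ≤ g - g ^ 2 / (2 * K)) :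
    (p + q) ^ 2 * h ≤ (p ^ 2 - q ^ 2) * g + K * (2 * q ^ 2) := by
  have h1 : h * (2 * K) ≤ g * (2 * K) - g ^ 2 := by
    have h2 := mul_le_mul_of_nonneg_right hg (by positivity : (0 : ℝ) ≤ 2 * K)
    have h3 : (g - g ^ 2 / (2 * K)) * (2 * K) = g * (2 * K) - g ^ 2 := by
      field_simp
    linarith
  have g0' : h ≤ g := by
    have : 0 ≤ g ^ 2 / (2 * K) := by positivity
    linarith
  have g0 : h < g := by
    have : 0 < g := by linarith
    have : 0 < g ^ 2 / (2 * K) := by positivity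
    linarith
  have h2 : 0 < g - h := by linarith
  have h3 : h ^ 2 ≤ (g - h) * (2 * K - g - h) := by nlinarith
  have h4 : (g - h) * ((p ^ 2 - q ^ 2) * g + K * (2 * q ^ 2) - (p + q) ^ 2 * h) =
      ((g - h) * p - h * q) ^ 2 + ((g - h) * (2 * K - g - h) - h ^ 2) * q ^ 2 := by ring
  have h5 : 0 ≤ (g - h) * ((p ^ 2 - q ^ 2) * g + K * (2 * q ^ 2) - (p + q) ^ 2 * h) := by
    rw [h4]
    have := sub_nonneg.2 h3
    positivity
  have h6 := (mul_nonneg_iff_of_pos_left h2).1 h5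
  linarith

/-- `|dF|² h ≤ J_F g + K ν_F` -/
theorem imc_ae (C : Calc M γ) {F : Fin 3 → M → ℝ} (hF : Sph γ F) : ∀ᵐ o ∂C.μ, ∀ h g K : ℝ,
    0 < h → 0 < K → h ≤ g - g ^ 2 / (2 * K) → opn C F o ^ 2 * h ≤ jac C F o * g + K * nuC C F o := by
  filter_upwards [ae_perp C hF] with o ho h g K hh hK hg
  have h2 := jac_pm (norm_at (C := C) hF o) ho.1 ho.2
  unfold opn jac nuC nuv
  rw [h2]
  exact imc_pt hh hK hg

/-- the resistance between the level and the outer boundary -/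
def imR (G : ℝ → ℝ) (K X δ : ℝ) (x : Fin 3 → ℝ) : ℝ := G (x 1) + K * (X - x 2) + δ

/-- the function of Hamilton and Jacobi -/
def imS (G : ℝ → ℝ) (K X δ : ℝ) (t : ℝ) (x : Fin 3 → ℝ) : ℝ := -t ^ 2 * (imR G K X δ x)⁻¹

/-- its derivative -/
def imS' (G g : ℝ → ℝ) (K X δ : ℝ) (t : ℝ) (x : Fin 3 → ℝ) : (ℝ × (Fin 3 → ℝ)) →L[ℝ] ℝ :=
  (-2 * t * (imR G K X δ x)⁻¹) • ContinuousLinearMap.fst ℝ ℝ (Fin 3 → ℝ) -
    (t ^ 2 * (imR G K X δ x ^ 2)⁻¹) •
      ((g (x 1)) • ((ContinuousLinearMap.proj 1).comp (ContinuousLinearMap.snd ℝ ℝ (Fin 3 → ℝ))) +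
        K • ((ContinuousLinearMap.proj 2).comp (ContinuousLinearMap.snd ℝ ℝ (Fin 3 → ℝ))))

theorem imS'_one (G g : ℝ → ℝ) (K X δ t : ℝ) (x : Fin 3 → ℝ) :
    imS' G g K X δ t x (1, 0) = -2 * t * (imR G K X δ x)⁻¹ := by
  simp [imS']

theorem imS'_two (G g : ℝ → ℝ) (K X δ t : ℝ) (x y : Fin 3 → ℝ) :
    imS' G g K X δ t x (0, y) = -(t ^ 2 * (imR G K X δ x ^ 2)⁻¹ * (y 1 * g (x 1) + K * y 2)) := by
  simp [imS']
  ring

theorem imS_has {G g : ℝ → ℝ} {K X δ : ℝ} {t : ℝ} {x : Fin 3 → ℝ} (hG : HasDerivAt G (-g (x 1)) (x 1))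
    (h0 : imR G K X δ x ≠ 0) :
    HasFDerivAt (fun z : ℝ × (Fin 3 → ℝ) => imS G K X δ z.1 z.2) (imS' G g K X δ t x) (t, x) := by
  have e1 : HasFDerivAt (fun z : ℝ × (Fin 3 → ℝ) => z.2 1)
      ((ContinuousLinearMap.proj 1).comp (ContinuousLinearMap.snd ℝ ℝ (Fin 3 → ℝ))) (t, x) :=
    (((ContinuousLinearMap.proj (R := ℝ) (φ := fun _ : Fin 3 => ℝ) 1).comp
      (ContinuousLinearMap.snd ℝ ℝ (Fin 3 → ℝ))).hasFDerivAt)
  have e2 : HasFDerivAt (fun z : ℝ × (Fin 3 → ℝ) => z.2 2)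
      ((ContinuousLinearMap.proj 2).comp (ContinuousLinearMap.snd ℝ ℝ (Fin 3 → ℝ))) (t, x) :=
    (((ContinuousLinearMap.proj (R := ℝ) (φ := fun _ : Fin 3 => ℝ) 2).comp
      (ContinuousLinearMap.snd ℝ ℝ (Fin 3 → ℝ))).hasFDerivAt)
  have e0 : HasFDerivAt (fun z : ℝ × (Fin 3 → ℝ) => z.1)
      (ContinuousLinearMap.fst ℝ ℝ (Fin 3 → ℝ)) (t, x) := hasFDerivAt_fst
  have e3 : HasFDerivAt (fun z : ℝ × (Fin 3 → ℝ) => G (z.2 1))
      ((-g (x 1)) • ((ContinuousLinearMap.proj 1).comp (ContinuousLinearMap.snd ℝ ℝ (Fin 3 → ℝ)))) (t, x) :=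
    hG.comp_hasFDerivAt (t, x) e1
  have e4 : HasFDerivAt (fun z : ℝ × (Fin 3 → ℝ) => imR G K X δ z.2)
      ((-g (x 1)) • ((ContinuousLinearMap.proj 1).comp (ContinuousLinearMap.snd ℝ ℝ (Fin 3 → ℝ))) +
        K • (-((ContinuousLinearMap.proj 2).comp (ContinuousLinearMap.snd ℝ ℝ (Fin 3 → ℝ))))) (t, x) :=
    (e3.add ((e2.const_sub X).const_mul K)).add_const δ
  have e5 : HasFDerivAt (fun z : ℝ × (Fin 3 → ℝ) => (imR G K X δ z.2)⁻¹) _ (t, x) :=
    (hasDerivAt_inv (x := imR G K X δ x) h0).comp_hasFDerivAt (t, x) e4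
  have e6 : HasFDerivAt (fun z : ℝ × (Fin 3 → ℝ) => -z.1 ^ 2) _ (t, x) := (e0.pow 2).neg
  have e7 := e6.mul e5
  refine (e7.congr_fderiv ?_).congr_of_eventuallyEq (Eventually.of_forall fun z => rfl)
  refine ContinuousLinearMap.ext fun z => ?_
  simp [imS']
  ring

/-- integrals over sets are bounded below by the measure minus the deficit -/
theorem imc_low (C : Calc M γ) {J : Om → ℝ} (hJ : Integrable J C.μ) {D : ℝ}
    (hD : ∫ o, max 0 (1 - J o) ∂C.μ ≤ D) (A : Set Om) :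
    C.μ.real A - D ≤ ∫ o in A, J o ∂C.μ := by
  have := C.fin
  have hi : Integrable (fun o => max 0 (1 - J o)) C.μ := by
    have h1 : Integrable (fun o => 1 - J o) C.μ := (integrable_const (1 : ℝ)).sub hJ
    exact (integrable_zero _ _ _).sup h1
  have h1 : ∫ o in A, max 0 (1 - J o) ∂C.μ ≤ ∫ o, max 0 (1 - J o) ∂C.μ :=
    setIntegral_le_integral hi (ae_of_all _ fun o => le_max_left _ _)
  have h2 : ∫ o in A, (1 - J o) ∂C.μ ≤ ∫ o in A, max 0 (1 - J o) ∂C.μ :=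
    integral_mono (((integrable_const (1 : ℝ)).sub hJ).integrableOn) hi.integrableOn
      fun o => le_max_right _ _
  have h3 : ∫ o in A, (1 - J o) ∂C.μ = C.μ.real A - ∫ o in A, J o ∂C.μ := by
    rw [integral_sub (integrable_const (1 : ℝ)).integrableOn hJ.integrableOn]
    simp
  linarith

/-- and above by `∫ J` plus the deficit -/
theorem imc_upp (C : Calc M γ) {J : Om → ℝ} (hJ : Integrable J C.μ) {D : ℝ}
    (hD : ∫ o, max 0 (1 - J o) ∂C.μ ≤ D) (A : Set Om) (hA : NullMeasurableSet A C.μ) :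
    ∫ o in A, J o ∂C.μ ≤ (∫ o, J o ∂C.μ) + D := by
  have := C.fin
  have hi : Integrable (fun o => max 0 (1 - J o)) C.μ := by
    have h1 : Integrable (fun o => 1 - J o) C.μ := (integrable_const (1 : ℝ)).sub hJ
    exact (integrable_zero _ _ _).sup h1
  have h0 := integral_add_compl₀ hA hJ
  have h1 : ∫ o in Aᶜ, max 0 (1 - J o) ∂C.μ ≤ ∫ o, max 0 (1 - J o) ∂C.μ :=
    setIntegral_le_integral hi (ae_of_all _ fun o => le_max_left _ _)
  have h2 : ∫ o in Aᶜ, -J o ∂C.μ ≤ ∫ o in Aᶜ, max 0 (1 - J o) ∂C.μ :=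
    integral_mono hJ.neg.integrableOn hi.integrableOn fun o => by
      change -J o ≤ max 0 (1 - J o)
      exact le_trans (by linarith) (le_max_right _ _)
  rw [integral_neg] at h2
  linarith

/-- **Outer resistance through a fixed odd map.** `h(α) = 1 / (α (4π - α))`,
`h ≤ g - g² / (2K)`, `G' = -g`. -/
theorem outCap [CompactSpace M] (C : Calc M γ) (hγ : Bd γ) (hR : RegAE C) {F : Fin 3 → M → ℝ}
    (hF : Sph γ F) (hJ : ∫ o, jac C F o ∂C.μ = 2 * Real.pi) {κ ε : ℝ} (hI : IsopO C κ ε)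
    {D X K : ℝ} (hD : ∫ o, max 0 (1 - jac C F o) ∂C.μ ≤ D) (hX : ∫ o, nuC C F o ∂C.μ ≤ X)
    (hK : 0 < K) {a₁ : ℝ} (ha : D < a₁) (hDp : D < 2 * Real.pi) {G g : ℝ → ℝ}
    (hG : ∀ α, a₁ - D ≤ α → α ≤ 2 * Real.pi + D → HasDerivAt G (-g α) α)
    (hg : ∀ α, a₁ - D ≤ α → α ≤ 2 * Real.pi + D →
      1 / (α * (4 * Real.pi - α)) ≤ g α - g α ^ 2 / (2 * K))
    {R : ℝ} (hRR : G (a₁ - D) - G (2 * Real.pi + D) + K * X < R) : OutCap C a₁ R := by
  have := C.fin
  have hpi := Real.pi_pos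
  intro χ hχ oχ τ hτ hm
  -- basic facts
  have iJ : Integrable (jac C F) C.μ := jac_integrable C hF
  have iN : Integrable (nuC C F) C.μ := nuC_cint C hF.lip continuous_id
  have nN : ∀ o, 0 ≤ nuC C F o := fun o => nuv_nonneg _ _ _
  have hD0 : 0 ≤ D := le_trans (integral_nonneg fun o => le_max_left _ _) hD
  have hmeas : ∀ t, NullMeasurableSet {o | -|χ (C.pt o)| < t} C.μ := fun t =>
    meas_pt_lt C (lip_abs hχ).neg t
  have hm' : ∀ t, -τ ≤ t → a₁ ≤ C.μ.real {o | -|χ (C.pt o)| < t} := by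
    intro t ht
    refine hm.trans (measureReal_mono ?_)
    intro o ho
    have h1 : τ < |χ (C.pt o)| := ho
    change -|χ (C.pt o)| < t
    linarith
  set A1 := a₁ - D with hA1
  set A2 := 2 * Real.pi + D with hA2
  have hA1p : 0 < A1 := by rw [hA1]; linarith
  have hlow : ∀ t, -τ ≤ t → A1 ≤ nlev C χ (jac C F) t := fun t ht => by
    have h1 := imc_low C iJ hD {o | -|χ (C.pt o)| < t}
    have h2 := hm' t ht
    unfold nlev
    linarith
  have hupp : ∀ t, nlev C χ (jac C F) t ≤ A2 := fun t => by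
    have h1 := imc_upp C iJ hD _ (hmeas t)
    rw [hJ] at h1
    exact h1
  have hA12 : A1 ≤ A2 := (hlow 0 (by linarith)).trans (hupp 0)
  have hnu0 : ∀ t, 0 ≤ nlev C χ (nuC C F) t := fun t => integral_nonneg fun o => nN o
  have hnuX : ∀ t, nlev C χ (nuC C F) t ≤ X := fun t =>
    (setIntegral_le_integral iN (ae_of_all _ nN)).trans hX
  have hX0 : 0 ≤ X := (hnu0 0).trans (hnuX 0)
  -- positivity of g
  have hgpos : ∀ α, A1 ≤ α → α ≤ A2 → 0 < g α := by
    intro α h1 h2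
    have h3 : 0 < 1 / (α * (4 * Real.pi - α)) := by
      have : 0 < α := by linarith
      have : 0 < 4 * Real.pi - α := by rw [hA2] at h2; linarith
      positivity
    have h4 := hg α h1 h2
    have h5 : 0 ≤ g α ^ 2 / (2 * K) := by positivity
    linarith
  have hGanti : ∀ α β, A1 ≤ α → α ≤ β → β ≤ A2 → G β ≤ G α := by
    intro α β h1 h2 h3
    have hmono : AntitoneOn G (Icc A1 A2) := by
      refine antitoneOn_of_deriv_nonpos (convex_Icc _ _) ?_ ?_ ?_
      · intro x hx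
        exact (hG x hx.1 hx.2).continuousAt.continuousWithinAt
      · intro x hx
        rw [interior_Icc] at hx
        exact (hG x hx.1.le hx.2.le).differentiableAt.differentiableWithinAt
      · intro x hx
        rw [interior_Icc] at hx
        rw [(hG x hx.1.le hx.2.le).deriv]
        have := hgpos x hx.1.le hx.2.le
        linarith
    exact hmono ⟨h1, by linarith⟩ ⟨by linarith, h3⟩ h2
  -- the constant
  obtain ⟨δ, hδ1, hδ2⟩ : ∃ δ, -G A2 < δ ∧ G A1 + K * X + δ < R := by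
    refine ⟨-G A2 + (R - (G A1 - G A2 + K * X)) / 2, ?_, ?_⟩ <;> linarith
  set δ0 := G A2 + δ with hδ0
  have hδ0p : 0 < δ0 := by rw [hδ0]; linarith
  set Ds : Set (Fin 3 → ℝ) := {x | A1 ≤ x 1 ∧ x 1 ≤ A2 ∧ 0 ≤ x 2 ∧ x 2 ≤ X} with hDs
  have hconv : Convex ℝ Ds := by
    intro x hx y hy a b ha0 hb0 hab
    obtain ⟨x1, x2, x3, x4⟩ := hx
    obtain ⟨y1, y2, y3, y4⟩ := hy
    refine ⟨?_, ?_, ?_, ?_⟩
    · have : A1 = a * A1 + b * A1 := by rw [← add_mul, hab, one_mul]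
      simp only [Pi.add_apply, Pi.smul_apply, smul_eq_mul]
      nlinarith
    · have : A2 = a * A2 + b * A2 := by rw [← add_mul, hab, one_mul]
      simp only [Pi.add_apply, Pi.smul_apply, smul_eq_mul]
      nlinarith
    · simp only [Pi.add_apply, Pi.smul_apply, smul_eq_mul]
      positivity
    · have : X = a * X + b * X := by rw [← add_mul, hab, one_mul]
      simp only [Pi.add_apply, Pi.smul_apply, smul_eq_mul]
      nlinarith
  have hRpos : ∀ x ∈ Ds, δ0 ≤ imR G K X δ x := by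
    intro x hx
    obtain ⟨x1, x2, x3, x4⟩ := hx
    have h1 := hGanti _ _ x1 x2 le_rfl
    have h2 : 0 ≤ K * (X - x 2) := mul_nonneg hK.le (by linarith)
    unfold imR
    rw [hδ0]
    linarith
  set γs : Fin 3 → Om → ℝ := ![fun _ => 1, jac C F, nuC C F] with hγs
  have hFD : ∀ t, -τ ≤ t → (fun i => nlev C χ (γs i) t) ∈ Ds := fun t ht =>
    ⟨hlow t ht, hupp t, hnu0 t, hnuX t⟩
  have hmain := odd_hj C hγ hR hF hχ oχ hI (ι := Fin 3) (γs := γs) (i0 := 0) (i1 := 1)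
    (pot := fun _ => 0) (c := 1) (r0 := -τ) (r1 := 0) (L := 2 * τ * δ0⁻¹) (D := Ds)
    (S := imS G K X δ) (S' := imS' G g K X δ)
    (by
      intro i
      fin_cases i
      · exact integrable_const (1 : ℝ)
      · exact iJ
      · exact iN)
    rfl rfl (integrable_const (0 : ℝ)) one_pos (by linarith) le_rfl (by positivity) hconv
    (fun t h1 _ => hFD t h1)
    (fun t x h1 h2 hx => imS_has (hG _ hx.1 hx.2.1) (lt_of_lt_of_le hδ0p (hRpos x hx)).ne')
    (by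
      intro t x h1 h2 hx
      rw [imS'_one]
      have h3 := hRpos x hx
      have h4 : (imR G K X δ x)⁻¹ ≤ δ0⁻¹ := inv_anti₀ hδ0p h3
      have h5 : 0 ≤ (imR G K X δ x)⁻¹ := inv_nonneg.2 (hδ0p.le.trans h3)
      have h6 : -2 * t ≤ 2 * τ := by linarith
      exact mul_le_mul h6 h4 h5 (by positivity))
    (by
      filter_upwards [imc_ae C hF] with o ho t x h1 hx h2 h3
      rw [imS'_two]
      have hx1 := hg _ hx.1 hx.2.1
      have hpos : 0 < 1 / (x 1 * (4 * Real.pi - x 1)) := by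
        have h5 := hx.1
        have h6 := hx.2.1
        have : 0 < x 1 := by linarith
        have : 0 < 4 * Real.pi - x 1 := by rw [hA2] at h6; linarith
        positivity
      have h4 := ho _ _ K hpos hK hx1
      have h5 : 0 ≤ opn C F o ^ 2 * (1 / (x 1 * (4 * Real.pi - x 1))) := by positivity
      have h6 : 0 ≤ t ^ 2 * (imR G K X δ x ^ 2)⁻¹ * (γs 1 o * g (x 1) + K * γs 2 o) := by
        have : 0 ≤ γs 1 o * g (x 1) + K * γs 2 o := h5.trans h4
        positivity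
      have h7 : 0 ≤ 2 * τ * δ0⁻¹ * (t + |χ (C.pt o)|) := mul_nonneg (by positivity) (by linarith)
      linarith)
    (by
      refine ae_of_all _ fun t h1 h2 l V hl hV _ hVV => ?_
      set x : Fin 3 → ℝ := fun i => nlev C χ (γs i) t with hx
      have hxD : x ∈ Ds := hFD t h1.le
      set ρ := imR G K X δ x with hρ
      have hρp : 0 < ρ := lt_of_lt_of_le hδ0p (hRpos x hxD)
      have e1 : nlev C χ (γs 1) t = x 1 := rfl
      rw [e1] at hVV
      set y := x 1 * (4 * Real.pi - x 1) with hy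
      have hyp : 0 < y := by
        have h5 := hxD.1
        have h6 := hxD.2.1
        have : 0 < x 1 := by linarith
        have : 0 < 4 * Real.pi - x 1 := by rw [hA2] at h6; linarith
        positivity
      have hsq : 0 < √y := Real.sqrt_pos.2 hyp
      have hVs : √y ≤ V := by
        rw [← Real.sqrt_sq hV]
        exact Real.sqrt_le_sqrt hVV
      refine ⟨0, -2 * t * ρ⁻¹ * (√y)⁻¹, le_rfl, ?_, ?_, 1, one_pos, ?_⟩
      · have : 0 ≤ -2 * t := by linarith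
        positivity
      · rw [imS'_one, zero_mul, zero_add]
        have h3 : 0 ≤ -2 * t * ρ⁻¹ := by
          have : 0 ≤ -2 * t := by linarith
          positivity
        calc -2 * t * ρ⁻¹ = -2 * t * ρ⁻¹ * ((√y)⁻¹ * √y) := by
              rw [inv_mul_cancel₀ hsq.ne', mul_one]
          _ ≤ -2 * t * ρ⁻¹ * ((√y)⁻¹ * V) :=
              mul_le_mul_of_nonneg_left (mul_le_mul_of_nonneg_left hVs (by positivity)) h3
          _ = _ := by ring
      · filter_upwards [imc_ae C hF] with o ho h3 h4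
        rw [imS'_two]
        have h5 := ho _ _ K (by positivity) hK (hg _ hxD.1 hxD.2.1)
        have e2 : (0 + -2 * t * ρ⁻¹ * (√y)⁻¹ * opn C F o) ^ 2 =
            4 * (t ^ 2 * (ρ ^ 2)⁻¹) * (opn C F o ^ 2 * (1 / y)) := by
          have e3 : ((√y)⁻¹) ^ 2 = 1 / y := by
            rw [inv_pow, Real.sq_sqrt hyp.le, one_div]
          have e4 : (0 + -2 * t * ρ⁻¹ * (√y)⁻¹ * opn C F o) ^ 2 =
            4 * (t ^ 2 * (ρ⁻¹) ^ 2) * (opn C F o ^ 2 * ((√y)⁻¹) ^ 2) := by ring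
          rw [e4, e3, inv_pow]
        rw [e2]
        have h6 : 4 * (t ^ 2 * (ρ ^ 2)⁻¹) * (opn C F o ^ 2 * (1 / y)) ≤
            4 * (t ^ 2 * (ρ ^ 2)⁻¹) * (jac C F o * g (x 1) + K * nuC C F o) :=
          mul_le_mul_of_nonneg_left h5 (by positivity)
        have h7 : 0 ≤ 2 * τ * δ0⁻¹ * (-|χ (C.pt o)| - t) := mul_nonneg (by positivity) (by linarith)
        refine h6.trans ?_
        change _ ≤ 4 * 1 * (0 - -(t ^ 2 * (ρ ^ 2)⁻¹ * (jac C F o * g (x 1) + K * nuC C F o)) + _)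
        nlinarith)
  -- conclusion
  set A : Set Om := {o | -τ ≤ -|χ (C.pt o)| ∧ -|χ (C.pt o)| < 0} with hA
  set B : Set Om := {o | |χ (C.pt o)| < τ} with hB
  have mA : NullMeasurableSet A C.μ := by
    have h1 := (hmeas 0).diff (hmeas (-τ))
    have h2 : A = {o | -|χ (C.pt o)| < 0} \ {o | -|χ (C.pt o)| < -τ} := by
      ext o
      simp only [hA, mem_ofPred_eq, Set.mem_sdiff, not_lt]
      exact and_comm
    rw [h2]
    exact h1
  have mB : NullMeasurableSet B C.μ := meas_pt_lt C (lip_abs hχ) τ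
  have iG : Integrable (fun o => gn C χ o ^ 2) C.μ := int_gn_sq C hχ
  have hAB : ∫ o in A, gn C χ o ^ 2 ∂C.μ ≤ ∫ o in B, gn C χ o ^ 2 ∂C.μ := by
    rw [← integral_indicator₀ mA, ← integral_indicator₀ mB]
    refine integral_mono_ae (iG.indicator₀ mA) (iG.indicator₀ mB) ?_
    filter_upwards [grad_level C (lip_abs hχ) τ, gn_abs C hχ] with o ho ha
    by_cases hB' : o ∈ B
    · rw [indicator_of_mem hB']
      exact indicator_le_self' (fun _ _ => by positivity) o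
    · by_cases hA' : o ∈ A
      · have h1 : |χ (C.pt o)| = τ := by
          have h2 : ¬ |χ (C.pt o)| < τ := hB'
          have h3 := hA'.1
          linarith [not_lt.1 h2]
        have h3 : gn C χ o = 0 := by
          rw [← ha]
          unfold gn
          rw [(ho h1).1, (ho h1).2]
          simp
        rw [indicator_of_mem hA', indicator_of_notMem hB', h3]
        simp
      · rw [indicator_of_notMem hA', indicator_of_notMem hB']
  have hQ : ∫ o in A, ((0 : ℝ) + 1 * gn C χ o ^ 2) ∂C.μ = ∫ o in A, gn C χ o ^ 2 ∂C.μ := by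
    refine integral_congr_ae (ae_of_all _ fun o => ?_)
    ring
  rw [hQ] at hmain
  set x : Fin 3 → ℝ := fun i => nlev C χ (γs i) (-τ) with hx
  have hxD : x ∈ Ds := hFD (-τ) le_rfl
  set ρ := imR G K X δ x with hρ
  have hρp : 0 < ρ := lt_of_lt_of_le hδ0p (hRpos x hxD)
  have hρR : ρ ≤ R := by
    obtain ⟨x1, x2, x3, x4⟩ := hxD
    have h1 := hGanti A1 (x 1) le_rfl x1 x2
    have h2 : K * (X - x 2) ≤ K * X := mul_le_mul_of_nonneg_left (by linarith) hK.le
    have h3 : ρ = G (x 1) + K * (X - x 2) + δ := rfl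
    linarith
  have e1 : imS G K X δ 0 (fun i => nlev C χ (γs i) 0) = 0 := by
    unfold imS
    simp
  have e2 : imS G K X δ (-τ) x = -(τ ^ 2 * ρ⁻¹) := by
    unfold imS
    ring
  rw [e1, e2] at hmain
  have h1 : τ ^ 2 * ρ⁻¹ ≤ ∫ o in B, gn C χ o ^ 2 ∂C.μ := by linarith
  have h2 : 0 ≤ ∫ o in B, gn C χ o ^ 2 ∂C.μ := integral_nonneg fun o => by positivity
  calc τ ^ 2 = ρ * (τ ^ 2 * ρ⁻¹) := by
        field_simp
    _ ≤ ρ * ∫ o in B, gn C χ o ^ 2 ∂C.μ := mul_le_mul_of_nonneg_left h1 hρp.le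
    _ ≤ R * ∫ o in B, gn C χ o ^ 2 ∂C.μ := mul_le_mul_of_nonneg_right hρR h2

/-- `(1 / 4π) log ((4π - α) / α)` -/
def imL (α : ℝ) : ℝ := (1 / (4 * Real.pi)) * (Real.log (4 * Real.pi - α) - Real.log α)

theorem imL_has {α : ℝ} (h0 : 0 < α) (h1 : α < 4 * Real.pi) :
    HasDerivAt imL (-(1 / (α * (4 * Real.pi - α)))) α := by
  have hpi := Real.pi_pos
  have h2 : 0 < 4 * Real.pi - α := by linarith
  have e1 : HasDerivAt (fun x : ℝ => 4 * Real.pi - x) (-1) α := by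
    simpa using (hasDerivAt_id α).const_sub (4 * Real.pi)
  have e2 := ((e1.log h2.ne').sub (Real.hasDerivAt_log h0.ne')).const_mul (1 / (4 * Real.pi))
  refine e2.congr_deriv ?_
  field_simp
  ring

/-- the potential for `g = h + c h²` -/
def imG (c α : ℝ) : ℝ :=
  (1 + c / (8 * Real.pi ^ 2)) * imL α + c / (16 * Real.pi ^ 2) * (α⁻¹ - (4 * Real.pi - α)⁻¹)

theorem imG_has (c : ℝ) {α : ℝ} (h0 : 0 < α) (h1 : α < 4 * Real.pi) :
    HasDerivAt (imG c) (-(1 / (α * (4 * Real.pi - α)) + c * (1 / (α * (4 * Real.pi - α))) ^ 2)) α := by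
  have hpi := Real.pi_pos
  have h2 : 0 < 4 * Real.pi - α := by linarith
  have e1 : HasDerivAt (fun x : ℝ => 4 * Real.pi - x) (-1) α := by
    simpa using (hasDerivAt_id α).const_sub (4 * Real.pi)
  have e3 := (hasDerivAt_inv h0.ne').sub (e1.inv h2.ne')
  have e4 := ((imL_has h0 h1).const_mul (1 + c / (8 * Real.pi ^ 2))).add
    (e3.const_mul (c / (16 * Real.pi ^ 2)))
  refine (e4.congr_deriv ?_)
  set q := 4 * Real.pi - α with hq
  have hs : α + q ≠ 0 := by positivity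
  have k1 : 16 * Real.pi ^ 2 = (α + q) ^ 2 := by
    rw [hq]
    ring
  have k2 : 8 * Real.pi ^ 2 = (α + q) ^ 2 / 2 := by linarith
  rw [k1, k2]
  have h0' := h0.ne'
  have h2' := h2.ne'
  field_simp
  ring

/-- **Explicit outer resistance.** `h₁ = 1 / ((a₁ - D) (4π - (a₁ - D)))`, any `c > 0`, and
`R > imG c (a₁ - D) - imG c (2π + D) + ((1 + c h₁)² / (2c)) ∫ ν_F`. -/
theorem outCap_exp [CompactSpace M] (C : Calc M γ) (hγ : Bd γ) (hR : RegAE C) {F : Fin 3 → M → ℝ}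
    (hF : Sph γ F) (hJ : ∫ o, jac C F o ∂C.μ = 2 * Real.pi) {κ ε : ℝ} (hI : IsopO C κ ε)
    {D X : ℝ} (hD : ∫ o, max 0 (1 - jac C F o) ∂C.μ ≤ D) (hX : ∫ o, nuC C F o ∂C.μ ≤ X)
    {c : ℝ} (hc : 0 < c) {a₁ : ℝ} (ha : D < a₁) (ha2 : a₁ ≤ 2 * Real.pi) (hDp : D < 2 * Real.pi)
    {R : ℝ} (hRR : imG c (a₁ - D) - imG c (2 * Real.pi + D) +
      (1 + c * (1 / ((a₁ - D) * (4 * Real.pi - (a₁ - D))))) ^ 2 / (2 * c) * X < R) :
    OutCap C a₁ R := by
  have hpi := Real.pi_pos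
  have hD0 : 0 ≤ D := le_trans (integral_nonneg fun o => le_max_left _ _) hD
  set A1 := a₁ - D with hA1
  have hA1p : 0 < A1 := by rw [hA1]; linarith
  have hA1q : A1 ≤ 2 * Real.pi - D := by rw [hA1]; linarith
  set h1 := 1 / (A1 * (4 * Real.pi - A1)) with hh1
  have q1 : 0 < A1 * (4 * Real.pi - A1) := mul_pos hA1p (by linarith)
  have hh1p : 0 < h1 := by positivity
  set K := (1 + c * h1) ^ 2 / (2 * c) with hK
  have hKp : 0 < K := by positivity
  refine outCap C hγ hR hF hJ hI hD hX hKp ha hDp (G := imG c)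
    (g := fun α => 1 / (α * (4 * Real.pi - α)) + c * (1 / (α * (4 * Real.pi - α))) ^ 2)
    (fun α h2 h3 => imG_has c (by linarith) (by linarith)) ?_ hRR
  intro α h2 h3
  have q2 : 0 < α * (4 * Real.pi - α) := mul_pos (by linarith) (by linarith)
  have q3 : A1 * (4 * Real.pi - A1) ≤ α * (4 * Real.pi - α) := by
    have : 0 ≤ (α - A1) * (4 * Real.pi - A1 - α) := mul_nonneg (by linarith) (by linarith)
    nlinarith
  set h := 1 / (α * (4 * Real.pi - α)) with hh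
  have hp : 0 < h := by positivity
  have hle : h ≤ h1 := one_div_le_one_div_of_le q1 q3
  have h5 : (h + c * h ^ 2) ^ 2 / (2 * K) ≤ c * h ^ 2 := by
    rw [div_le_iff₀ (by positivity)]
    have e : c * h ^ 2 * (2 * K) = h ^ 2 * (1 + c * h1) ^ 2 := by
      rw [hK]
      field_simp
    rw [e]
    have e2 : (h + c * h ^ 2) ^ 2 = h ^ 2 * (1 + c * h) ^ 2 := by ring
    rw [e2]
    have h6 : 1 + c * h ≤ 1 + c * h1 := by nlinarith
    have h7 : 0 ≤ 1 + c * h := by positivity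
    have h8 : (1 + c * h) ^ 2 ≤ (1 + c * h1) ^ 2 := pow_le_pow_left₀ h7 h6 2
    exact mul_le_mul_of_nonneg_left h8 (by positivity)
  linarith

/-- outer resistance is monotone in the area and in the resistance -/
theorem OutCap.mono {C : Calc M γ} {a₁ a₂ R R' : ℝ} (h : OutCap C a₁ R) (ha : a₁ ≤ a₂)
    (hR : R ≤ R') : OutCap C a₂ R' := fun χ hχ oχ τ hτ hm =>
  (h χ hχ oχ τ hτ (ha.trans hm)).trans
    (mul_le_mul_of_nonneg_right hR (integral_nonneg fun o => by positivity))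

end Pool.Agent.FPX
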