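import Mathlib
import Pool.Agent.FPX.IMC

/-
IMW (helper91): the outer resistance with both length inequalities: `l² ≥ κ (a - ε)` (isoperimetric
inequality) and `V² ≥ α (4π - α)` (image under the fixed map `F`), with weights `lam a`, `1 - lam a`
which depend on the area.
-/

open MeasureTheory Set Filter Topology
open scoped ENNReal NNReal

noncomputable section

namespace Pool.Agent.FPX

open Pool.Agent.EWD Pool.Agent.FPM

variable {M : Type} [MetricSpace M] {γ : ℝ → M}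

/-- the resistance between the level and the outer boundary -/
def iwR (W : ℝ × ℝ → ℝ) (K X δ : ℝ) (x : Fin 3 → ℝ) : ℝ := W (x 0, x 1) + K * (X - x 2) + δ

/-- the function of Hamilton and Jacobi -/
def iwS (W : ℝ × ℝ → ℝ) (K X δ : ℝ) (t : ℝ) (x : Fin 3 → ℝ) : ℝ := -t ^ 2 * (iwR W K X δ x)⁻¹

/-- its derivative, `A`, `B` are minus the partial derivatives of `W` -/
def iwS' (W A B : ℝ × ℝ → ℝ) (K X δ : ℝ) (t : ℝ) (x : Fin 3 → ℝ) : (ℝ × (Fin 3 → ℝ)) →L[ℝ] ℝ :=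
  (-2 * t * (iwR W K X δ x)⁻¹) • ContinuousLinearMap.fst ℝ ℝ (Fin 3 → ℝ) -
    (t ^ 2 * (iwR W K X δ x ^ 2)⁻¹) •
      ((A (x 0, x 1)) • ((ContinuousLinearMap.proj 0).comp (ContinuousLinearMap.snd ℝ ℝ (Fin 3 → ℝ))) +
        (B (x 0, x 1)) • ((ContinuousLinearMap.proj 1).comp (ContinuousLinearMap.snd ℝ ℝ (Fin 3 → ℝ))) +
        K • ((ContinuousLinearMap.proj 2).comp (ContinuousLinearMap.snd ℝ ℝ (Fin 3 → ℝ))))

theorem iwS'_one (W A B : ℝ × ℝ → ℝ) (K X δ t : ℝ) (x : Fin 3 → ℝ) :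
    iwS' W A B K X δ t x (1, 0) = -2 * t * (iwR W K X δ x)⁻¹ := by
  simp [iwS']

theorem iwS'_two (W A B : ℝ × ℝ → ℝ) (K X δ t : ℝ) (x y : Fin 3 → ℝ) :
    iwS' W A B K X δ t x (0, y) = -(t ^ 2 * (iwR W K X δ x ^ 2)⁻¹ *
      (y 0 * A (x 0, x 1) + y 1 * B (x 0, x 1) + K * y 2)) := by
  simp [iwS']
  ring

theorem iwS_has {W A B : ℝ × ℝ → ℝ} {K X δ : ℝ} {t : ℝ} {x : Fin 3 → ℝ}
    (hW : HasFDerivAt W (-((A (x 0, x 1)) • ContinuousLinearMap.fst ℝ ℝ ℝ +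
      (B (x 0, x 1)) • ContinuousLinearMap.snd ℝ ℝ ℝ)) (x 0, x 1)) (h0 : iwR W K X δ x ≠ 0) :
    HasFDerivAt (fun z : ℝ × (Fin 3 → ℝ) => iwS W K X δ z.1 z.2) (iwS' W A B K X δ t x) (t, x) := by
  have ep : ∀ i : Fin 3, HasFDerivAt (fun z : ℝ × (Fin 3 → ℝ) => z.2 i)
      ((ContinuousLinearMap.proj i).comp (ContinuousLinearMap.snd ℝ ℝ (Fin 3 → ℝ))) (t, x) := fun i =>
    (((ContinuousLinearMap.proj (R := ℝ) (φ := fun _ : Fin 3 => ℝ) i).comp
      (ContinuousLinearMap.snd ℝ ℝ (Fin 3 → ℝ))).hasFDerivAt)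
  have e0 : HasFDerivAt (fun z : ℝ × (Fin 3 → ℝ) => z.1)
      (ContinuousLinearMap.fst ℝ ℝ (Fin 3 → ℝ)) (t, x) := hasFDerivAt_fst
  have e1 : HasFDerivAt (fun z : ℝ × (Fin 3 → ℝ) => (z.2 0, z.2 1)) _ (t, x) := (ep 0).prodMk (ep 1)
  have e3 : HasFDerivAt (fun z : ℝ × (Fin 3 → ℝ) => W (z.2 0, z.2 1)) _ (t, x) :=
    HasFDerivAt.comp (t, x) (g := W) (f := fun z : ℝ × (Fin 3 → ℝ) => (z.2 0, z.2 1)) hW e1
  have e4 : HasFDerivAt (fun z : ℝ × (Fin 3 → ℝ) => iwR W K X δ z.2) _ (t, x) :=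
    (e3.add (((ep 2).const_sub X).const_mul K)).add_const δ
  have e5 : HasFDerivAt (fun z : ℝ × (Fin 3 → ℝ) => (iwR W K X δ z.2)⁻¹) _ (t, x) :=
    (hasDerivAt_inv (x := iwR W K X δ x) h0).comp_hasFDerivAt (t, x) e4
  have e6 : HasFDerivAt (fun z : ℝ × (Fin 3 → ℝ) => -z.1 ^ 2) _ (t, x) := (e0.pow 2).neg
  have e7 := e6.mul e5
  refine (e7.congr_fderiv ?_).congr_of_eventuallyEq (Eventually.of_forall fun z => rfl)
  refine ContinuousLinearMap.ext fun z => ?_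
  simp [iwS']
  ring

/-- the pointwise inequality with both weights -/
theorem iw_pt {l x y o h A B J N K : ℝ} (hl0 : 0 ≤ l) (hl1 : l ≤ 1) (hA : l * x ^ 2 ≤ A)
    (hB : (1 - l) * (o ^ 2 * h) ≤ J * B + K * N) (hy : y ^ 2 = h) :
    (l * x + (1 - l) * y * o) ^ 2 ≤ A + J * B + K * N := by
  have h1 : (l * x + (1 - l) * y * o) ^ 2 ≤ l * x ^ 2 + (1 - l) * (y * o) ^ 2 := by
    have : l * x ^ 2 + (1 - l) * (y * o) ^ 2 - (l * x + (1 - l) * y * o) ^ 2
        = l * (1 - l) * (x - y * o) ^ 2 := by ring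
    have h2 : 0 ≤ l * (1 - l) * (x - y * o) ^ 2 :=
      mul_nonneg (mul_nonneg hl0 (by linarith)) (sq_nonneg _)
    linarith
  have h2 : (y * o) ^ 2 = o ^ 2 * h := by rw [mul_pow, hy, mul_comm]
  rw [h2] at h1
  linarith

/-- the pointwise inequality for `h ≥ 0` -/
theorem iw_pt0 {p q h g K : ℝ} (hh : 0 ≤ h) (hK : 0 < K) (hg : h ≤ g - g ^ 2 / (2 * K)) :
    (p + q) ^ 2 * h ≤ (p ^ 2 - q ^ 2) * g + K * (2 * q ^ 2) := by
  rcases hh.lt_or_eq with h1 | h1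
  · exact imc_pt h1 hK hg
  · rw [← h1] at hg ⊢
    have h2 : g ^ 2 / (2 * K) ≤ g := by linarith
    rw [div_le_iff₀ (by positivity)] at h2
    have g0 : 0 ≤ g := by
      have : 0 ≤ g ^ 2 / (2 * K) := by positivity
      linarith
    have g1 : g ≤ 2 * K := by
      rcases g0.lt_or_eq with h3 | h3
      · by_contra hc
        have h4 : 2 * K < g := not_le.1 hc
        nlinarith
      · rw [← h3]
        positivity
    have h5 : (p ^ 2 - q ^ 2) * g + K * (2 * q ^ 2) = p ^ 2 * g + q ^ 2 * (2 * K - g) := by ring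
    rw [h5, mul_zero]
    have : 0 ≤ 2 * K - g := by linarith
    positivity

theorem iw_ae (C : Calc M γ) {F : Fin 3 → M → ℝ} (hF : Sph γ F) : ∀ᵐ o ∂C.μ, ∀ h g K : ℝ,
    0 ≤ h → 0 < K → h ≤ g - g ^ 2 / (2 * K) → opn C F o ^ 2 * h ≤ jac C F o * g + K * nuC C F o := by
  filter_upwards [ae_perp C hF] with o ho h g K hh hK hg
  have h2 := jac_pm (norm_at (C := C) hF o) ho.1 ho.2
  unfold opn jac nuC nuv
  rw [h2]
  exact iw_pt0 hh hK hg

/-- **Outer resistance with both length inequalities.** `h(α) = 1 / (α (4π - α))`; `A = -∂W/∂a`,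
`B = -∂W/∂α`, `lam a / (κ (a - ε)) ≤ A`, `(1 - lam a) h(α) ≤ B - B² / (2K)`, on the set of `(a, α)`
with `a₁ ≤ a ≤ a₂`, `a - D ≤ α ≤ 2π + D`. -/
theorem outCapW [CompactSpace M] (C : Calc M γ) (hγ : Bd γ) (hR : RegAE C) {F : Fin 3 → M → ℝ}
    (hF : Sph γ F) (hJ : ∫ o, jac C F o ∂C.μ = 2 * Real.pi) {κ ε : ℝ} (hκ : 0 < κ)
    (hI : IsopO C κ ε) {D X K : ℝ} (hD : ∫ o, max 0 (1 - jac C F o) ∂C.μ ≤ D)
    (hX : ∫ o, nuC C F o ∂C.μ ≤ X) (hK : 0 < K) {a₁ a₂ : ℝ} (ha : D < a₁) (hε : ε < a₁)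
    (hDp : D < 2 * Real.pi) (hvol : C.μ.real univ ≤ a₂) {W A B : ℝ × ℝ → ℝ} {lam : ℝ → ℝ}
    (hl0 : ∀ a, a₁ ≤ a → a ≤ a₂ → 0 ≤ lam a) (hl1 : ∀ a, a₁ ≤ a → a ≤ a₂ → lam a ≤ 1)
    (hW : ∀ a α, a₁ ≤ a → a ≤ a₂ → a - D ≤ α → α ≤ 2 * Real.pi + D →
      HasFDerivAt W (-((A (a, α)) • ContinuousLinearMap.fst ℝ ℝ ℝ +
        (B (a, α)) • ContinuousLinearMap.snd ℝ ℝ ℝ)) (a, α))
    (hA : ∀ a α, a₁ ≤ a → a ≤ a₂ → a - D ≤ α → α ≤ 2 * Real.pi + D →
      lam a / (κ * (a - ε)) ≤ A (a, α))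
    (hB : ∀ a α, a₁ ≤ a → a ≤ a₂ → a - D ≤ α → α ≤ 2 * Real.pi + D →
      (1 - lam a) / (α * (4 * Real.pi - α)) ≤ B (a, α) - B (a, α) ^ 2 / (2 * K))
    {w₀ R : ℝ} (hw : ∀ a α, a₁ ≤ a → a ≤ a₂ → a - D ≤ α → α ≤ 2 * Real.pi + D → w₀ ≤ W (a, α))
    (hRR : ∀ a α, a₁ ≤ a → a ≤ a₂ → a - D ≤ α → α ≤ 2 * Real.pi + D →
      W (a, α) - w₀ + K * X < R) : OutCap C a₁ R := by
  have := C.fin
  have hpi := Real.pi_pos
  intro χ hχ oχ τ hτ hm
  -- basic facts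
  have iJ : Integrable (jac C F) C.μ := jac_integrable C hF
  have iN : Integrable (nuC C F) C.μ := nuC_cint C hF.lip continuous_id
  have nN : ∀ o, 0 ≤ nuC C F o := fun o => nuv_nonneg _ _ _
  have hD0 : 0 ≤ D := le_trans (integral_nonneg fun o => le_max_left _ _) hD
  have hmeas : ∀ t, NullMeasurableSet {o | -|χ (C.pt o)| < t} C.μ := fun t =>
    meas_pt_lt C (lip_abs hχ).neg t
  have hone : ∀ t, nlev C χ (fun _ => 1) t = C.μ.real {o | -|χ (C.pt o)| < t} := fun t => by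
    unfold nlev
    simp
  have hm' : ∀ t, -τ ≤ t → a₁ ≤ C.μ.real {o | -|χ (C.pt o)| < t} := by
    intro t ht
    refine hm.trans (measureReal_mono ?_)
    intro o ho
    have h1 : τ < |χ (C.pt o)| := ho
    change -|χ (C.pt o)| < t
    linarith
  have ha2 : ∀ t, C.μ.real {o | -|χ (C.pt o)| < t} ≤ a₂ := fun t =>
    (measureReal_mono (subset_univ _)).trans hvol
  have hlow : ∀ t, C.μ.real {o | -|χ (C.pt o)| < t} - D ≤ nlev C χ (jac C F) t := fun t =>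
    imc_low C iJ hD {o | -|χ (C.pt o)| < t}
  have hupp : ∀ t, nlev C χ (jac C F) t ≤ 2 * Real.pi + D := fun t => by
    have h1 := imc_upp C iJ hD _ (hmeas t)
    rw [hJ] at h1
    exact h1
  have hnu0 : ∀ t, 0 ≤ nlev C χ (nuC C F) t := fun t => integral_nonneg fun o => nN o
  have hnuX : ∀ t, nlev C χ (nuC C F) t ≤ X := fun t =>
    (setIntegral_le_integral iN (ae_of_all _ nN)).trans hX
  have hX0 : 0 ≤ X := (hnu0 0).trans (hnuX 0)
  set Ds : Set (Fin 3 → ℝ) := {x | a₁ ≤ x 0 ∧ x 0 ≤ a₂ ∧ x 0 - D ≤ x 1 ∧ x 1 ≤ 2 * Real.pi + D ∧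
    0 ≤ x 2 ∧ x 2 ≤ X} with hDs
  have hconv : Convex ℝ Ds := by
    intro x hx y hy a b ha0 hb0 hab
    obtain ⟨x1, x2, x3, x4, x5, x6⟩ := hx
    obtain ⟨y1, y2, y3, y4, y5, y6⟩ := hy
    refine ⟨?_, ?_, ?_, ?_, ?_, ?_⟩
    · have : a₁ = a * a₁ + b * a₁ := by rw [← add_mul, hab, one_mul]
      simp only [Pi.add_apply, Pi.smul_apply, smul_eq_mul]
      nlinarith
    · have : a₂ = a * a₂ + b * a₂ := by rw [← add_mul, hab, one_mul]
      simp only [Pi.add_apply, Pi.smul_apply, smul_eq_mul]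
      nlinarith
    · have : D = a * D + b * D := by rw [← add_mul, hab, one_mul]
      simp only [Pi.add_apply, Pi.smul_apply, smul_eq_mul]
      nlinarith
    · have : 2 * Real.pi + D = a * (2 * Real.pi + D) + b * (2 * Real.pi + D) := by
        rw [← add_mul, hab, one_mul]
      simp only [Pi.add_apply, Pi.smul_apply, smul_eq_mul]
      nlinarith
    · simp only [Pi.add_apply, Pi.smul_apply, smul_eq_mul]
      positivity
    · have : X = a * X + b * X := by rw [← add_mul, hab, one_mul]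
      simp only [Pi.add_apply, Pi.smul_apply, smul_eq_mul]
      nlinarith
  set γs : Fin 3 → Om → ℝ := ![fun _ => 1, jac C F, nuC C F] with hγs
  have hFD : ∀ t, -τ ≤ t → (fun i => nlev C χ (γs i) t) ∈ Ds := fun t ht => by
    refine ⟨?_, ?_, ?_, hupp t, hnu0 t, hnuX t⟩
    · change a₁ ≤ nlev C χ (fun _ => 1) t
      rw [hone]
      exact hm' t ht
    · change nlev C χ (fun _ => 1) t ≤ a₂
      rw [hone]
      exact ha2 t
    · change nlev C χ (fun _ => 1) t - D ≤ nlev C χ (jac C F) t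
      rw [hone]
      exact hlow t
  -- the constant
  set x0 : Fin 3 → ℝ := fun i => nlev C χ (γs i) (-τ) with hx0
  have hx0D : x0 ∈ Ds := hFD (-τ) le_rfl
  obtain ⟨δ0, hδ0p, hδ2⟩ : ∃ δ0, 0 < δ0 ∧ W (x0 0, x0 1) - w₀ + K * X + δ0 < R := by
    have h1 := hRR _ _ hx0D.1 hx0D.2.1 hx0D.2.2.1 hx0D.2.2.2.1
    refine ⟨(R - (W (x0 0, x0 1) - w₀ + K * X)) / 2, ?_, ?_⟩ <;> linarith
  set δ := δ0 - w₀ with hδ
  have hRpos : ∀ x ∈ Ds, δ0 ≤ iwR W K X δ x := by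
    intro x hx
    obtain ⟨x1, x2, x3, x4, x5, x6⟩ := hx
    have h1 := hw _ _ x1 x2 x3 x4
    have h2 : 0 ≤ K * (X - x 2) := mul_nonneg hK.le (by linarith)
    unfold iwR
    rw [hδ]
    linarith
  -- positivity of the numbers
  have hab : ∀ x ∈ Ds, 0 < x 1 * (4 * Real.pi - x 1) := by
    intro x hx
    have h5 := hx.1
    have h6 := hx.2.2.1
    have h7 := hx.2.2.2.1
    have : 0 < x 1 := by linarith
    have : 0 < 4 * Real.pi - x 1 := by linarith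
    positivity
  have hApos : ∀ x ∈ Ds, 0 ≤ A (x 0, x 1) := by
    intro x hx
    have h5 := hx.1
    have h1 := hA _ _ hx.1 hx.2.1 hx.2.2.1 hx.2.2.2.1
    have h2 := hl0 _ hx.1 hx.2.1
    have h3 : 0 ≤ lam (x 0) / (κ * (x 0 - ε)) := div_nonneg h2 (mul_nonneg hκ.le (by linarith))
    linarith
  have key : ∀ᵐ o ∂C.μ, ∀ x ∈ Ds, (1 - lam (x 0)) * (opn C F o ^ 2 * (1 / (x 1 * (4 * Real.pi - x 1))))
      ≤ jac C F o * B (x 0, x 1) + K * nuC C F o := by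
    filter_upwards [iw_ae C hF] with o ho x hx
    have h1 := hB _ _ hx.1 hx.2.1 hx.2.2.1 hx.2.2.2.1
    have h2 := hl1 _ hx.1 hx.2.1
    have hq := hab x hx
    have h4 : 0 ≤ (1 - lam (x 0)) / (x 1 * (4 * Real.pi - x 1)) := div_nonneg (by linarith) hq.le
    have h5 := ho _ _ K h4 hK h1
    calc _ = opn C F o ^ 2 * ((1 - lam (x 0)) / (x 1 * (4 * Real.pi - x 1))) := by ring
      _ ≤ _ := h5
  have hmain := odd_hj C hγ hR hF hχ oχ hI (ι := Fin 3) (γs := γs) (i0 := 0) (i1 := 1)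
    (pot := fun _ => 0) (c := 1) (r0 := -τ) (r1 := 0) (L := 2 * τ * δ0⁻¹) (D := Ds)
    (S := iwS W K X δ) (S' := iwS' W A B K X δ)
    (by
      intro i
      fin_cases i
      · exact integrable_const (1 : ℝ)
      · exact iJ
      · exact iN)
    rfl rfl (integrable_const (0 : ℝ)) one_pos (by linarith) le_rfl (by positivity) hconv
    (fun t h1 _ => hFD t h1)
    (fun t x h1 h2 hx => iwS_has (hW _ _ hx.1 hx.2.1 hx.2.2.1 hx.2.2.2.1)
      (lt_of_lt_of_le hδ0p (hRpos x hx)).ne')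
    (by
      intro t x h1 h2 hx
      rw [iwS'_one]
      have h3 := hRpos x hx
      have h4 : (iwR W K X δ x)⁻¹ ≤ δ0⁻¹ := inv_anti₀ hδ0p h3
      have h5 : 0 ≤ (iwR W K X δ x)⁻¹ := inv_nonneg.2 (hδ0p.le.trans h3)
      have h6 : -2 * t ≤ 2 * τ := by linarith
      exact mul_le_mul h6 h4 h5 (by positivity))
    (by
      filter_upwards [key] with o ho t x h1 hx h2 h3
      rw [iwS'_two]
      have h4 := ho x hx
      have h5 : 0 ≤ (1 - lam (x 0)) * (opn C F o ^ 2 * (1 / (x 1 * (4 * Real.pi - x 1)))) := by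
        have e1 := hl1 _ hx.1 hx.2.1
        have e2 := hab x hx
        have e3 : 0 ≤ 1 - lam (x 0) := by linarith
        positivity
      have h8 := hApos x hx
      have h6 : 0 ≤ t ^ 2 * (iwR W K X δ x ^ 2)⁻¹ *
          (γs 0 o * A (x 0, x 1) + γs 1 o * B (x 0, x 1) + K * γs 2 o) := by
        have : 0 ≤ γs 0 o * A (x 0, x 1) + γs 1 o * B (x 0, x 1) + K * γs 2 o := by
          change 0 ≤ 1 * A (x 0, x 1) + jac C F o * B (x 0, x 1) + K * nuC C F o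
          linarith
        positivity
      have h7 : 0 ≤ 2 * τ * δ0⁻¹ * (t + |χ (C.pt o)|) := mul_nonneg (by positivity) (by linarith)
      linarith)
    (by
      refine ae_of_all _ fun t h1 h2 l V hl hV hll hVV => ?_
      set x : Fin 3 → ℝ := fun i => nlev C χ (γs i) t with hx
      have hxD : x ∈ Ds := hFD t h1.le
      set ρ := iwR W K X δ x with hρ
      have hρp : 0 < ρ := lt_of_lt_of_le hδ0p (hRpos x hxD)
      have e0 : nlev C χ (γs 0) t = x 0 := rfl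
      have e1 : nlev C χ (γs 1) t = x 1 := rfl
      rw [e0] at hll
      rw [e1] at hVV
      set y := x 1 * (4 * Real.pi - x 1) with hy
      have hyp : 0 < y := hab x hxD
      set b := κ * (x 0 - ε) with hb
      have hbp : 0 < b := mul_pos hκ (by have := hxD.1; linarith)
      have hsq : 0 < √y := Real.sqrt_pos.2 hyp
      have hsb : 0 < √b := Real.sqrt_pos.2 hbp
      have hVs : √y ≤ V := by
        rw [← Real.sqrt_sq hV]
        exact Real.sqrt_le_sqrt hVV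
      have hls : √b ≤ l := by
        rw [← Real.sqrt_sq hl]
        exact Real.sqrt_le_sqrt hll
      have hL0 := hl0 _ hxD.1 hxD.2.1
      have hL1 := hl1 _ hxD.1 hxD.2.1
      have ht0 : 0 ≤ -2 * t := by linarith
      have hL1' : 0 ≤ 1 - lam (x 0) := by linarith
      refine ⟨-2 * t * ρ⁻¹ * (lam (x 0) * (√b)⁻¹), -2 * t * ρ⁻¹ * ((1 - lam (x 0)) * (√y)⁻¹),
        by positivity, by positivity, ?_, 1, one_pos, ?_⟩
      · rw [iwS'_one]
        have h3 : 0 ≤ -2 * t * ρ⁻¹ := by positivity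
        have h4 : 1 ≤ (√b)⁻¹ * l := by
          rw [← inv_mul_cancel₀ hsb.ne']
          exact mul_le_mul_of_nonneg_left hls (by positivity)
        have h5 : 1 ≤ (√y)⁻¹ * V := by
          rw [← inv_mul_cancel₀ hsq.ne']
          exact mul_le_mul_of_nonneg_left hVs (by positivity)
        have h6 : 1 ≤ lam (x 0) * ((√b)⁻¹ * l) + (1 - lam (x 0)) * ((√y)⁻¹ * V) := by
          have e3 := mul_le_mul_of_nonneg_left h4 hL0
          have e4 := mul_le_mul_of_nonneg_left h5 hL1'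
          linarith
        calc -2 * t * ρ⁻¹ = -2 * t * ρ⁻¹ * 1 := by rw [mul_one]
          _ ≤ -2 * t * ρ⁻¹ * (lam (x 0) * ((√b)⁻¹ * l) + (1 - lam (x 0)) * ((√y)⁻¹ * V)) :=
              mul_le_mul_of_nonneg_left h6 h3
          _ = _ := by ring
      · filter_upwards [key] with o ho h3 h4
        rw [iwS'_two]
        have h5 := ho x hxD
        have h9 := hA _ _ hxD.1 hxD.2.1 hxD.2.2.1 hxD.2.2.2.1
        have hxx : ((√b)⁻¹) ^ 2 = 1 / b := by
          rw [inv_pow, Real.sq_sqrt hbp.le, one_div]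
        have hyy : ((√y)⁻¹) ^ 2 = 1 / y := by
          rw [inv_pow, Real.sq_sqrt hyp.le, one_div]
        have hA' : lam (x 0) * ((√b)⁻¹) ^ 2 ≤ A (x 0, x 1) := by
          rw [hxx, mul_one_div]
          exact h9
        have h10 := iw_pt (l := lam (x 0)) (x := (√b)⁻¹) (y := (√y)⁻¹) (o := opn C F o) hL0 hL1 hA' h5 hyy
        have e2 : (-2 * t * ρ⁻¹ * (lam (x 0) * (√b)⁻¹) +
            -2 * t * ρ⁻¹ * ((1 - lam (x 0)) * (√y)⁻¹) * opn C F o) ^ 2 =
            4 * (t ^ 2 * (ρ ^ 2)⁻¹) *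
              (lam (x 0) * (√b)⁻¹ + (1 - lam (x 0)) * (√y)⁻¹ * opn C F o) ^ 2 := by
          rw [← inv_pow]
          ring
        rw [e2]
        have h6 := mul_le_mul_of_nonneg_left h10 (by positivity : 0 ≤ 4 * (t ^ 2 * (ρ ^ 2)⁻¹))
        have h7 : 0 ≤ 2 * τ * δ0⁻¹ * (-|χ (C.pt o)| - t) := mul_nonneg (by positivity) (by linarith)
        refine h6.trans ?_
        change _ ≤ 4 * 1 * (0 - -(t ^ 2 * (ρ ^ 2)⁻¹ *
          (1 * A (x 0, x 1) + jac C F o * B (x 0, x 1) + K * nuC C F o)) + _)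
        nlinarith)
  -- conclusion
  set A' : Set Om := {o | -τ ≤ -|χ (C.pt o)| ∧ -|χ (C.pt o)| < 0} with hA'
  set B' : Set Om := {o | |χ (C.pt o)| < τ} with hB'
  have mA : NullMeasurableSet A' C.μ := by
    have h1 := (hmeas 0).diff (hmeas (-τ))
    have h2 : A' = {o | -|χ (C.pt o)| < 0} \ {o | -|χ (C.pt o)| < -τ} := by
      ext o
      simp only [hA', mem_ofPred_eq, Set.mem_sdiff, not_lt]
      exact and_comm
    rw [h2]
    exact h1
  have mB : NullMeasurableSet B' C.μ := meas_pt_lt C (lip_abs hχ) τ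
  have iG : Integrable (fun o => gn C χ o ^ 2) C.μ := int_gn_sq C hχ
  have hAB : ∫ o in A', gn C χ o ^ 2 ∂C.μ ≤ ∫ o in B', gn C χ o ^ 2 ∂C.μ := by
    rw [← integral_indicator₀ mA, ← integral_indicator₀ mB]
    refine integral_mono_ae (iG.indicator₀ mA) (iG.indicator₀ mB) ?_
    filter_upwards [grad_level C (lip_abs hχ) τ, gn_abs C hχ] with o ho ha
    by_cases hBo : o ∈ B'
    · rw [indicator_of_mem hBo]
      exact indicator_le_self' (fun _ _ => by positivity) o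
    · by_cases hAo : o ∈ A'
      · have h1 : |χ (C.pt o)| = τ := by
          have h2 : ¬ |χ (C.pt o)| < τ := hBo
          have h3 := hAo.1
          linarith [not_lt.1 h2]
        have h3 : gn C χ o = 0 := by
          rw [← ha]
          unfold gn
          rw [(ho h1).1, (ho h1).2]
          simp
        rw [indicator_of_mem hAo, indicator_of_notMem hBo, h3]
        simp
      · rw [indicator_of_notMem hAo, indicator_of_notMem hBo]
  have hQ : ∫ o in A', ((0 : ℝ) + 1 * gn C χ o ^ 2) ∂C.μ = ∫ o in A', gn C χ o ^ 2 ∂C.μ := by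
    refine integral_congr_ae (ae_of_all _ fun o => ?_)
    ring
  rw [hQ] at hmain
  set ρ := iwR W K X δ x0 with hρ
  have hρp : 0 < ρ := lt_of_lt_of_le hδ0p (hRpos x0 hx0D)
  have hρR : ρ ≤ R := by
    have h2 : K * (X - x0 2) ≤ K * X :=
      mul_le_mul_of_nonneg_left (by linarith [hx0D.2.2.2.2.1]) hK.le
    have h3 : ρ = W (x0 0, x0 1) + K * (X - x0 2) + δ := rfl
    linarith
  have e1 : iwS W K X δ 0 (fun i => nlev C χ (γs i) 0) = 0 := by
    unfold iwS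
    simp
  have e2 : iwS W K X δ (-τ) x0 = -(τ ^ 2 * ρ⁻¹) := by
    unfold iwS
    ring
  rw [e1, e2] at hmain
  have h1 : τ ^ 2 * ρ⁻¹ ≤ ∫ o in B', gn C χ o ^ 2 ∂C.μ := by linarith
  have h2 : 0 ≤ ∫ o in B', gn C χ o ^ 2 ∂C.μ := integral_nonneg fun o => by positivity
  calc τ ^ 2 = ρ * (τ ^ 2 * ρ⁻¹) := by
        field_simp
    _ ≤ ρ * ∫ o in B', gn C χ o ^ 2 ∂C.μ := mul_le_mul_of_nonneg_left h1 hρp.le
    _ ≤ R * ∫ o in B', gn C χ o ^ 2 ∂C.μ := mul_le_mul_of_nonneg_right hρR h2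

end Pool.Agent.FPX
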