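import Mathlib
import Pool.Agent.FPX.IMW

/-
IMX (helper91): explicit weights in the outer resistance: `1 - lam a = m (a - D)` with the cubic
`m x = x (3 b² - x²) / (2 b³)` for `x ≤ b` and `m x = 1` for `x ≥ b`.
-/

open MeasureTheory Set Filter Topology
open scoped ENNReal NNReal

noncomputable section

namespace Pool.Agent.FPX

open Pool.Agent.EWD Pool.Agent.FPM

theorem has_pos2 (x : ℝ) : HasDerivAt (fun y : ℝ => max 0 y ^ 2) (2 * max 0 x) x := by
  rcases lt_trichotomy x 0 with h | h | h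
  · rw [max_eq_left h.le, mul_zero]
    refine (hasDerivAt_const x (0 : ℝ)).congr_of_eventuallyEq ?_
    filter_upwards [Iio_mem_nhds h] with y hy
    rw [max_eq_left (le_of_lt hy)]
    ring
  · subst h
    have e1 : HasDerivWithinAt (fun y : ℝ => max 0 y ^ 2) 0 (Iic 0) 0 := by
      refine (hasDerivWithinAt_const (0 : ℝ) (Iic 0) (0 : ℝ)).congr (fun y hy => ?_) (by simp)
      rw [max_eq_left hy]
      ring
    have e2 : HasDerivWithinAt (fun y : ℝ => max 0 y ^ 2) 0 (Ici 0) 0 := by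
      have h1 : HasDerivWithinAt (fun y : ℝ => y ^ 2) 0 (Ici 0) 0 := by
        have := (hasDerivAt_pow 2 (0 : ℝ)).hasDerivWithinAt (s := Ici 0)
        simpa using this
      refine h1.congr (fun y hy => ?_) (by simp)
      rw [max_eq_right hy]
    have e3 := e1.union e2
    rw [Iic_union_Ici, hasDerivWithinAt_univ] at e3
    simpa using e3
  · rw [max_eq_right h.le]
    have h1 : HasDerivAt (fun y : ℝ => y ^ 2) (2 * x) x := by
      simpa using hasDerivAt_pow 2 x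
    refine h1.congr_of_eventuallyEq ?_
    filter_upwards [Ioi_mem_nhds h] with y hy
    rw [max_eq_right (le_of_lt hy)]

theorem pos_mul (x : ℝ) : x * max 0 x = max 0 x ^ 2 := by
  rcases le_total x 0 with h | h
  · rw [max_eq_left h]
    ring
  · rw [max_eq_right h]
    ring

theorem has_pos3 (x : ℝ) : HasDerivAt (fun y : ℝ => max 0 y ^ 3) (3 * max 0 x ^ 2) x := by
  have h1 := (hasDerivAt_id x).mul (has_pos2 x)
  have h2 : (fun y : ℝ => max 0 y ^ 3) = fun y => id y * max 0 y ^ 2 := by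
    funext y
    have := pos_mul y
    calc max 0 y ^ 3 = max 0 y ^ 2 * max 0 y := by ring
      _ = (y * max 0 y) * max 0 y := by rw [this]
      _ = _ := by
        simp only [id]
        ring
  rw [h2]
  refine h1.congr_deriv ?_
  have := pos_mul x
  simp only [id, one_mul]
  linear_combination 2 * this

/-- the weight `m` -/
def iwm (b x : ℝ) : ℝ := 1 - (3 * b * max 0 (b - x) ^ 2 - max 0 (b - x) ^ 3) / (2 * b ^ 3)

/-- its derivative -/
def iwm' (b x : ℝ) : ℝ := (6 * b * max 0 (b - x) - 3 * max 0 (b - x) ^ 2) / (2 * b ^ 3)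

theorem iwm_has (b x : ℝ) : HasDerivAt (iwm b) (iwm' b x) x := by
  have h0 : HasDerivAt (fun y : ℝ => b - y) (-1) x := by
    simpa using (hasDerivAt_id x).const_sub b
  have h2 : HasDerivAt (fun y : ℝ => max 0 (b - y) ^ 2) _ x :=
    (has_pos2 (b - x)).comp x h0
  have h3 : HasDerivAt (fun y : ℝ => max 0 (b - y) ^ 3) _ x :=
    (has_pos3 (b - x)).comp x h0
  have h4 := (((h2.const_mul (3 * b)).sub h3).div_const (2 * b ^ 3)).const_sub 1
  refine h4.congr_deriv ?_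
  unfold iwm'
  ring

theorem iwm_one {b x : ℝ} (h : b ≤ x) : iwm b x = 1 := by
  unfold iwm
  rw [max_eq_left (by linarith)]
  simp

theorem iwm_low {b x : ℝ} (hb : 0 < b) (h : x ≤ b) : iwm b x = x * (3 * b ^ 2 - x ^ 2) / (2 * b ^ 3) := by
  unfold iwm
  rw [max_eq_right (by linarith)]
  field_simp
  ring

theorem iwm_nonneg {b x : ℝ} (hb : 0 < b) (hx : 0 ≤ x) : 0 ≤ iwm b x := by
  rcases le_total b x with h | h
  · rw [iwm_one h]
    exact zero_le_one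
  · rw [iwm_low hb h]
    have : 0 ≤ 3 * b ^ 2 - x ^ 2 := by nlinarith
    positivity

theorem iwm_le {b x : ℝ} (hb : 0 < b) (hx : 0 ≤ x) : iwm b x ≤ 1 := by
  unfold iwm
  have h1 : 0 ≤ max 0 (b - x) := le_max_left _ _
  have h2 : max 0 (b - x) ≤ b := max_le hb.le (by linarith)
  have h3 : 0 ≤ (3 * b * max 0 (b - x) ^ 2 - max 0 (b - x) ^ 3) / (2 * b ^ 3) := by
    have : 0 ≤ 3 * b * max 0 (b - x) ^ 2 - max 0 (b - x) ^ 3 := by
      have e : 3 * b * max 0 (b - x) ^ 2 - max 0 (b - x) ^ 3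
          = max 0 (b - x) ^ 2 * (3 * b - max 0 (b - x)) := by ring
      rw [e]
      have : 0 ≤ 3 * b - max 0 (b - x) := by linarith
      positivity
    positivity
  linarith

theorem iwm'_nonneg {b x : ℝ} (hb : 0 < b) (hx : 0 ≤ x) : 0 ≤ iwm' b x := by
  unfold iwm'
  have h1 : 0 ≤ max 0 (b - x) := le_max_left _ _
  have h2 : max 0 (b - x) ≤ b := max_le hb.le (by linarith)
  have e : 6 * b * max 0 (b - x) - 3 * max 0 (b - x) ^ 2
      = 3 * max 0 (b - x) * (2 * b - max 0 (b - x)) := by ring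
  rw [e]
  have : 0 ≤ 2 * b - max 0 (b - x) := by linarith
  positivity

theorem iwm_cont (b : ℝ) : Continuous (iwm b) := by
  unfold iwm
  fun_prop

/-- `h(α) = 1 / (α (4π - α))` -/
def imh (α : ℝ) : ℝ := 1 / (α * (4 * Real.pi - α))

/-- a primitive of `-h²` -/
def imG2 (α : ℝ) : ℝ := (1 / (8 * Real.pi ^ 2)) * imL α +
  1 / (16 * Real.pi ^ 2) * (α⁻¹ - (4 * Real.pi - α)⁻¹)

theorem imG2_has {α : ℝ} (h0 : 0 < α) (h1 : α < 4 * Real.pi) : HasDerivAt imG2 (-imh α ^ 2) α := by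
  have hpi := Real.pi_pos
  have h2 : 0 < 4 * Real.pi - α := by linarith
  have e1 : HasDerivAt (fun x : ℝ => 4 * Real.pi - x) (-1) α := by
    simpa using (hasDerivAt_id α).const_sub (4 * Real.pi)
  have e3 := (hasDerivAt_inv h0.ne').sub (e1.inv h2.ne')
  have e4 := ((imL_has h0 h1).const_mul (1 / (8 * Real.pi ^ 2))).add
    (e3.const_mul (1 / (16 * Real.pi ^ 2)))
  refine (e4.congr_deriv ?_)
  unfold imh
  set q := 4 * Real.pi - α with hq
  have hs : α + q ≠ 0 := by positivity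
  have k1 : 16 * Real.pi ^ 2 = (α + q) ^ 2 := by
    rw [hq]
    ring
  have k2 : 8 * Real.pi ^ 2 = (α + q) ^ 2 / 2 := by linarith
  rw [k1, k2]
  have h0' := h0.ne'
  have h2' := h2.ne'
  field_simp
  ring

/-- a primitive of `-h³` -/
def imG3 (α : ℝ) : ℝ := (1 / (16 * Real.pi ^ 2)) *
  (3 * imG2 α + 1 / (8 * Real.pi) * ((α⁻¹) ^ 2 - ((4 * Real.pi - α)⁻¹) ^ 2))

theorem imG3_has {α : ℝ} (h0 : 0 < α) (h1 : α < 4 * Real.pi) : HasDerivAt imG3 (-imh α ^ 3) α := by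
  have hpi := Real.pi_pos
  have h2 : 0 < 4 * Real.pi - α := by linarith
  have e1 : HasDerivAt (fun x : ℝ => 4 * Real.pi - x) (-1) α := by
    simpa using (hasDerivAt_id α).const_sub (4 * Real.pi)
  have e3 := ((hasDerivAt_inv h0.ne').pow 2).sub ((e1.inv h2.ne').pow 2)
  have e4 := (((imG2_has h0 h1).const_mul 3).add
    (e3.const_mul (1 / (8 * Real.pi)))).const_mul (1 / (16 * Real.pi ^ 2))
  refine (e4.congr_deriv ?_)
  unfold imh
  set q := 4 * Real.pi - α with hq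
  have hs : α + q ≠ 0 := by positivity
  have k0 : Real.pi = (α + q) / 4 := by
    rw [hq]
    ring
  rw [k0]
  have h0' := h0.ne'
  have h2' := h2.ne'
  rw [show (2 : ℕ) - 1 = 1 from rfl]
  simp only [Pi.inv_apply, pow_one]
  rw [show 4 * ((α + q) / 4) - α = q by ring]
  field_simp
  ring

theorem imh_pos {α : ℝ} (h0 : 0 < α) (h1 : α < 4 * Real.pi) : 0 < imh α := by
  unfold imh
  have : 0 < 4 * Real.pi - α := by linarith
  positivity

/-- antitone on the interval -/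
theorem anti_of {f g : ℝ → ℝ} {p q : ℝ} (hf : ∀ x, p ≤ x → x ≤ q → HasDerivAt f (-g x) x)
    (hg : ∀ x, p ≤ x → x ≤ q → 0 ≤ g x) : ∀ x y, p ≤ x → x ≤ y → y ≤ q → f y ≤ f x := by
  intro x y h1 h2 h3
  have hmono : AntitoneOn f (Icc p q) := by
    refine antitoneOn_of_deriv_nonpos (convex_Icc _ _) ?_ ?_ ?_
    · intro z hz
      exact (hf z hz.1 hz.2).continuousAt.continuousWithinAt
    · intro z hz
      rw [interior_Icc] at hz
      exact (hf z hz.1.le hz.2.le).differentiableAt.differentiableWithinAt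
    · intro z hz
      rw [interior_Icc] at hz
      rw [(hf z hz.1.le hz.2.le).deriv]
      have := hg z hz.1.le hz.2.le
      linarith
  exact hmono ⟨h1, by linarith⟩ ⟨by linarith, h3⟩ h2

/-- the sum of the three terms -/
def iwP (K d m : ℝ) (f₁ f₂ f₃ : ℝ) : ℝ := m * f₁ + m ^ 2 / (2 * K) * f₂ + d * m ^ 3 / K ^ 2 * f₃

/-- the slope in the variable `α` -/
def iwB (K d b a₀ : ℝ) (z : ℝ × ℝ) : ℝ :=
  iwP K d (iwm b (z.1 - a₀)) (imh z.2) (imh z.2 ^ 2) (imh z.2 ^ 3)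

/-- the cubic inequality -/
theorem iw_cubic {u d um : ℝ} (hu : 0 ≤ u) (hum : u ≤ um) (hd : 0 ≤ d)
    (h : um / 4 + 2 * d * um + d * um ^ 2 + d ^ 2 * um ^ 3 ≤ 2 * d - 1) :
    u ≤ (u + u ^ 2 / 2 + d * u ^ 3) - (u + u ^ 2 / 2 + d * u ^ 3) ^ 2 / 2 := by
  have h1 : u / 4 + 2 * d * u + d * u ^ 2 + d ^ 2 * u ^ 3 ≤
      um / 4 + 2 * d * um + d * um ^ 2 + d ^ 2 * um ^ 3 := by
    have e1 : u ^ 2 ≤ um ^ 2 := pow_le_pow_left₀ hu hum 2
    have e2 : u ^ 3 ≤ um ^ 3 := pow_le_pow_left₀ hu hum 3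
    have e3 : d * u ≤ d * um := mul_le_mul_of_nonneg_left hum hd
    have e4 : d * u ^ 2 ≤ d * um ^ 2 := mul_le_mul_of_nonneg_left e1 hd
    have e5 : d ^ 2 * u ^ 3 ≤ d ^ 2 * um ^ 3 := mul_le_mul_of_nonneg_left e2 (by positivity)
    linarith
  have e : (u + u ^ 2 / 2 + d * u ^ 3) - (u + u ^ 2 / 2 + d * u ^ 3) ^ 2 / 2 - u =
      u ^ 3 / 2 * ((2 * d - 1) - (u / 4 + 2 * d * u + d * u ^ 2 + d ^ 2 * u ^ 3)) := by ring
  have h2 : 0 ≤ u ^ 3 / 2 * ((2 * d - 1) - (u / 4 + 2 * d * u + d * u ^ 2 + d ^ 2 * u ^ 3)) :=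
    mul_nonneg (by positivity) (by linarith)
  linarith

theorem iwP_mono {K d m : ℝ} (hK : 0 < K) (hd : 0 ≤ d) (hm : 0 ≤ m) {a b c a' b' c' : ℝ} (h1 : a ≤ a')
    (h2 : b ≤ b') (h3 : c ≤ c') : iwP K d m a b c ≤ iwP K d m a' b' c' := by
  unfold iwP
  have e1 := mul_le_mul_of_nonneg_left h1 hm
  have e2 : m ^ 2 / (2 * K) * b ≤ m ^ 2 / (2 * K) * b' := mul_le_mul_of_nonneg_left h2 (by positivity)
  have e3 : d * m ^ 3 / K ^ 2 * c ≤ d * m ^ 3 / K ^ 2 * c' := mul_le_mul_of_nonneg_left h3 (by positivity)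
  linarith

/-- `B - B² / (2K) ≥ m h` -/
theorem iwB_ge {K d m h um : ℝ} (hK : 0 < K) (hd : 0 ≤ d) (hm : 0 ≤ m) (hh : 0 ≤ h)
    (hu : m * h ≤ um * K) (hq : um / 4 + 2 * d * um + d * um ^ 2 + d ^ 2 * um ^ 3 ≤ 2 * d - 1) :
    m * h ≤ iwP K d m h (h ^ 2) (h ^ 3) - iwP K d m h (h ^ 2) (h ^ 3) ^ 2 / (2 * K) := by
  set u := m * h / K with hu'
  have h1 : 0 ≤ u := by positivity
  have h2 : u ≤ um := by
    rw [hu', div_le_iff₀ hK]
    exact hu
  have h3 := iw_cubic h1 h2 hd hq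
  have e1 : iwP K d m h (h ^ 2) (h ^ 3) = K * (u + u ^ 2 / 2 + d * u ^ 3) := by
    unfold iwP
    rw [hu']
    field_simp
  have e2 : m * h = K * u := by
    rw [hu']
    field_simp
  rw [e1, e2]
  have h4 := mul_le_mul_of_nonneg_left h3 hK.le
  have e3 : K * (u + u ^ 2 / 2 + d * u ^ 3) - (K * (u + u ^ 2 / 2 + d * u ^ 3)) ^ 2 / (2 * K) =
      K * ((u + u ^ 2 / 2 + d * u ^ 3) - (u + u ^ 2 / 2 + d * u ^ 3) ^ 2 / 2) := by
    field_simp
  rw [e3]
  exact h4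

/-- the resistance function -/
def iwW (Ψ : ℝ → ℝ) (K d b D : ℝ) (z : ℝ × ℝ) : ℝ :=
  Ψ z.1 + iwP K d (iwm b (z.1 - D)) (imL z.2 - imL (z.1 - D)) (imG2 z.2 - imG2 (z.1 - D))
    (imG3 z.2 - imG3 (z.1 - D))

/-- minus its derivative in the area -/
def iwA (ψ : ℝ → ℝ) (K d b D : ℝ) (z : ℝ × ℝ) : ℝ :=
  ψ z.1 - iwB K d b D (z.1, z.1 - D) - iwm' b (z.1 - D) * ((imL z.2 - imL (z.1 - D)) +
    iwm b (z.1 - D) / K * (imG2 z.2 - imG2 (z.1 - D)) +
    3 * d * iwm b (z.1 - D) ^ 2 / K ^ 2 * (imG3 z.2 - imG3 (z.1 - D)))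

theorem iwW_has {Ψ ψ : ℝ → ℝ} {K d b D : ℝ} {a α : ℝ} (hΨ : HasDerivAt Ψ (-ψ a) a)
    (h0 : 0 < α) (h1 : α < 4 * Real.pi) (h2 : 0 < a - D) (h3 : a - D < 4 * Real.pi) :
    HasFDerivAt (iwW Ψ K d b D) (-((iwA ψ K d b D (a, α)) • ContinuousLinearMap.fst ℝ ℝ ℝ +
      (iwB K d b D (a, α)) • ContinuousLinearMap.snd ℝ ℝ ℝ)) (a, α) := by
  have f1 : HasFDerivAt (fun z : ℝ × ℝ => z.1) (ContinuousLinearMap.fst ℝ ℝ ℝ) (a, α) := hasFDerivAt_fst
  have f2 : HasFDerivAt (fun z : ℝ × ℝ => z.2) (ContinuousLinearMap.snd ℝ ℝ ℝ) (a, α) := hasFDerivAt_snd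
  have f3 : HasFDerivAt (fun z : ℝ × ℝ => z.1 - D) (ContinuousLinearMap.fst ℝ ℝ ℝ) (a, α) := f1.sub_const D
  have g0 : HasFDerivAt (fun z : ℝ × ℝ => Ψ z.1) _ (a, α) := hΨ.comp_hasFDerivAt (a, α) f1
  have gm : HasFDerivAt (fun z : ℝ × ℝ => iwm b (z.1 - D)) _ (a, α) :=
    HasDerivAt.comp_hasFDerivAt (h₂ := iwm b) (f := fun z : ℝ × ℝ => z.1 - D) (a, α)
      (iwm_has b (a - D)) f3
  have u1 : HasFDerivAt (fun z : ℝ × ℝ => imL z.2) _ (a, α) :=
    HasDerivAt.comp_hasFDerivAt (h₂ := imL) (f := fun z : ℝ × ℝ => z.2) (a, α) (imL_has h0 h1) f2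
  have u2 : HasFDerivAt (fun z : ℝ × ℝ => imG2 z.2) _ (a, α) :=
    HasDerivAt.comp_hasFDerivAt (h₂ := imG2) (f := fun z : ℝ × ℝ => z.2) (a, α) (imG2_has h0 h1) f2
  have u3 : HasFDerivAt (fun z : ℝ × ℝ => imG3 z.2) _ (a, α) :=
    HasDerivAt.comp_hasFDerivAt (h₂ := imG3) (f := fun z : ℝ × ℝ => z.2) (a, α) (imG3_has h0 h1) f2
  have v1 : HasFDerivAt (fun z : ℝ × ℝ => imL (z.1 - D)) _ (a, α) :=
    HasDerivAt.comp_hasFDerivAt (h₂ := imL) (f := fun z : ℝ × ℝ => z.1 - D) (a, α) (imL_has h2 h3) f3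
  have v2 : HasFDerivAt (fun z : ℝ × ℝ => imG2 (z.1 - D)) _ (a, α) :=
    HasDerivAt.comp_hasFDerivAt (h₂ := imG2) (f := fun z : ℝ × ℝ => z.1 - D) (a, α) (imG2_has h2 h3) f3
  have v3 : HasFDerivAt (fun z : ℝ × ℝ => imG3 (z.1 - D)) _ (a, α) :=
    HasDerivAt.comp_hasFDerivAt (h₂ := imG3) (f := fun z : ℝ × ℝ => z.1 - D) (a, α) (imG3_has h2 h3) f3
  have w1 := gm.mul (u1.sub v1)
  have w2 := ((gm.pow 2).const_mul (1 / (2 * K))).mul (u2.sub v2)
  have w3 := ((gm.pow 3).const_mul (d / K ^ 2)).mul (u3.sub v3)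
  have w := ((g0.add w1).add w2).add w3
  refine (w.congr_fderiv ?_).congr_of_eventuallyEq (Eventually.of_forall fun z => ?_)
  · refine ContinuousLinearMap.ext fun z => ?_
    simp [iwA, iwB, iwP, imh]
    ring
  · simp only [iwW, iwP, Pi.add_apply, Pi.mul_apply, Pi.sub_apply]
    ring

variable {M : Type} [MetricSpace M] {γ : ℝ → M}

/-- **Outer resistance with the cubic weight.** -/
theorem outCapX [CompactSpace M] (C : Calc M γ) (hγ : Bd γ) (hR : RegAE C) {F : Fin 3 → M → ℝ}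
    (hF : Sph γ F) (hJ : ∫ o, jac C F o ∂C.μ = 2 * Real.pi) {κ ε : ℝ} (hκ : 0 < κ)
    (hI : IsopO C κ ε) {D X K d b um : ℝ} (hD : ∫ o, max 0 (1 - jac C F o) ∂C.μ ≤ D)
    (hX : ∫ o, nuC C F o ∂C.μ ≤ X) (hK : 0 < K) (hd : 0 ≤ d) (hb : 0 < b) {a₁ a₂ : ℝ} (ha : D < a₁)
    (hε : ε < a₁) (hDp : D < 2 * Real.pi) (hvol : C.μ.real univ ≤ a₂)
    (ha2 : a₂ - D ≤ 2 * Real.pi + D)
    (hu : ∀ x α, a₁ - D ≤ x → x ≤ α → α ≤ 2 * Real.pi + D → iwm b x * imh α ≤ um * K)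
    (hq : um / 4 + 2 * d * um + d * um ^ 2 + d ^ 2 * um ^ 3 ≤ 2 * d - 1) {Ψ ψ : ℝ → ℝ}
    (hΨ : ∀ a, a₁ ≤ a → a ≤ a₂ → HasDerivAt Ψ (-ψ a) a)
    (hψ : ∀ a, a₁ ≤ a → a ≤ a₂ →
      (1 - iwm b (a - D)) / (κ * (a - ε)) + iwB K d b D (a, a - D) ≤ ψ a)
    {R : ℝ} (hRR : Ψ a₁ - iwW Ψ K d b D (a₂, 2 * Real.pi + D) + K * X < R) : OutCap C a₁ R := by
  have := C.fin
  have hpi := Real.pi_pos
  have hD0 : 0 ≤ D := le_trans (integral_nonneg fun o => le_max_left _ _) hD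
  set A1 := a₁ - D with hA1
  set A2 := 2 * Real.pi + D with hA2
  have hA1p : 0 < A1 := by rw [hA1]; linarith
  have hA2p : A2 < 4 * Real.pi := by rw [hA2]; linarith
  -- monotonicity of the three primitives
  have l1 : ∀ x y, A1 ≤ x → x ≤ y → y ≤ A2 → imL y ≤ imL x :=
    anti_of (g := fun x => 1 / (x * (4 * Real.pi - x)))
      (fun x h1 h2 => imL_has (by linarith) (by linarith))
      (fun x h1 h2 => (imh_pos (by linarith) (by linarith)).le)
  have l2 : ∀ x y, A1 ≤ x → x ≤ y → y ≤ A2 → imG2 y ≤ imG2 x :=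
    anti_of (g := fun x => imh x ^ 2) (fun x h1 h2 => imG2_has (by linarith) (by linarith))
      (fun x h1 h2 => by positivity)
  have l3 : ∀ x y, A1 ≤ x → x ≤ y → y ≤ A2 → imG3 y ≤ imG3 x :=
    anti_of (g := fun x => imh x ^ 3) (fun x h1 h2 => imG3_has (by linarith) (by linarith))
      (fun x h1 h2 => by
        have := imh_pos (α := x) (by linarith) (by linarith)
        positivity)
  have hm0 : ∀ a, a₁ ≤ a → 0 ≤ iwm b (a - D) := fun a h => iwm_nonneg hb (by linarith)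
  have hψ0 : ∀ a, a₁ ≤ a → a ≤ a₂ → 0 ≤ ψ a := by
    intro a h1 h2
    have h3 := hψ a h1 h2
    have h4 : 0 ≤ (1 - iwm b (a - D)) / (κ * (a - ε)) := by
      have e1 : 0 ≤ 1 - iwm b (a - D) := by
        have := iwm_le (x := a - D) hb (by linarith)
        linarith
      have e2 : 0 < a - ε := by linarith
      positivity
    have h5 : 0 ≤ iwB K d b D (a, a - D) := by
      unfold iwB iwP
      have e1 := hm0 a h1
      have e2 : 0 < imh (a - D) := imh_pos (by linarith) (by linarith)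
      simp only
      positivity
    linarith
  have hΨa : ∀ x y, a₁ ≤ x → x ≤ y → y ≤ a₂ → Ψ y ≤ Ψ x := anti_of hΨ hψ0
  have hAge : ∀ a α, a₁ ≤ a → a ≤ a₂ → a - D ≤ α → α ≤ A2 →
      (1 - iwm b (a - D)) / (κ * (a - ε)) ≤ iwA ψ K d b D (a, α) := by
    intro a α h1 h2 h3 h4
    have h5 := hψ a h1 h2
    have e1 := l1 (a - D) α (by linarith) h3 h4
    have e2 := l2 (a - D) α (by linarith) h3 h4
    have e3 := l3 (a - D) α (by linarith) h3 h4
    have e4 := iwm'_nonneg (x := a - D) hb (by linarith)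
    have e5 := hm0 a h1
    have e6 : (imL α - imL (a - D)) + iwm b (a - D) / K * (imG2 α - imG2 (a - D)) +
        3 * d * iwm b (a - D) ^ 2 / K ^ 2 * (imG3 α - imG3 (a - D)) ≤ 0 := by
      have c1 : iwm b (a - D) / K * (imG2 α - imG2 (a - D)) ≤ 0 :=
        mul_nonpos_of_nonneg_of_nonpos (by positivity) (by linarith)
      have c2 : 3 * d * iwm b (a - D) ^ 2 / K ^ 2 * (imG3 α - imG3 (a - D)) ≤ 0 :=
        mul_nonpos_of_nonneg_of_nonpos (by positivity) (by linarith)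
      linarith
    have e7 := mul_nonpos_of_nonneg_of_nonpos e4 e6
    unfold iwA
    simp only
    linarith
  have hA0 : ∀ a α, a₁ ≤ a → a ≤ a₂ → a - D ≤ α → α ≤ A2 → 0 ≤ iwA ψ K d b D (a, α) := by
    intro a α h1 h2 h3 h4
    refine le_trans ?_ (hAge a α h1 h2 h3 h4)
    have e1 : 0 ≤ 1 - iwm b (a - D) := by
      have := iwm_le (x := a - D) hb (by linarith)
      linarith
    have e2 : 0 < a - ε := by linarith
    positivity
  have hWhas : ∀ a α, a₁ ≤ a → a ≤ a₂ → a - D ≤ α → α ≤ A2 →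
      HasFDerivAt (iwW Ψ K d b D) (-((iwA ψ K d b D (a, α)) • ContinuousLinearMap.fst ℝ ℝ ℝ +
        (iwB K d b D (a, α)) • ContinuousLinearMap.snd ℝ ℝ ℝ)) (a, α) := fun a α h1 h2 h3 h4 =>
    iwW_has (hΨ a h1 h2) (by linarith) (by linarith) (by linarith) (by linarith)
  -- W ≤ Ψ a₁
  have hWle : ∀ a α, a₁ ≤ a → a ≤ a₂ → a - D ≤ α → α ≤ A2 → iwW Ψ K d b D (a, α) ≤ Ψ a₁ := by
    intro a α h1 h2 h3 h4
    have e1 := l1 (a - D) α (by linarith) h3 h4
    have e2 := l2 (a - D) α (by linarith) h3 h4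
    have e3 := l3 (a - D) α (by linarith) h3 h4
    have e5 := iwP_mono hK hd (hm0 a h1) (a := imL α - imL (a - D)) (b := imG2 α - imG2 (a - D))
      (c := imG3 α - imG3 (a - D)) (a' := 0) (b' := 0) (c' := 0) (by linarith) (by linarith) (by linarith)
    have e6 : iwP K d (iwm b (a - D)) 0 0 0 = 0 := by
      unfold iwP
      ring
    have e7 := hΨa a₁ a le_rfl h1 h2
    unfold iwW
    simp only
    linarith
  -- W ≥ W (a₂, A2)
  have hWge : ∀ a α, a₁ ≤ a → a ≤ a₂ → a - D ≤ α → α ≤ A2 →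
      iwW Ψ K d b D (a₂, A2) ≤ iwW Ψ K d b D (a, α) := by
    intro a α h1 h2 h3 h4
    have e1 : iwW Ψ K d b D (a, A2) ≤ iwW Ψ K d b D (a, α) := by
      have c1 := l1 α A2 (by linarith) h4 le_rfl
      have c2 := l2 α A2 (by linarith) h4 le_rfl
      have c3 := l3 α A2 (by linarith) h4 le_rfl
      have c4 := iwP_mono hK hd (hm0 a h1) (a := imL A2 - imL (a - D)) (b := imG2 A2 - imG2 (a - D))
        (c := imG3 A2 - imG3 (a - D)) (a' := imL α - imL (a - D)) (b' := imG2 α - imG2 (a - D))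
        (c' := imG3 α - imG3 (a - D)) (by linarith) (by linarith) (by linarith)
      unfold iwW
      simp only
      linarith
    have e2 : iwW Ψ K d b D (a₂, A2) ≤ iwW Ψ K d b D (a, A2) := by
      refine anti_of (f := fun x => iwW Ψ K d b D (x, A2)) (g := fun x => iwA ψ K d b D (x, A2))
        (p := a₁) (q := a₂) (fun x g1 g2 => ?_) (fun x g1 g2 => hA0 x A2 g1 g2 (by linarith) le_rfl)
        a a₂ h1 h2 le_rfl
      have g3 := hWhas x A2 g1 g2 (by linarith) le_rfl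
      have g4 : HasDerivAt (fun y : ℝ => (y, A2)) ((1 : ℝ), (0 : ℝ)) x :=
        (hasDerivAt_id x).prodMk (hasDerivAt_const x A2)
      have g5 := g3.comp_hasDerivAt x g4
      refine g5.congr_deriv ?_
      simp
    exact e2.trans e1
  refine outCapW C hγ hR hF hJ hκ hI hD hX hK ha hε hDp hvol (W := iwW Ψ K d b D)
    (A := iwA ψ K d b D) (B := iwB K d b D) (lam := fun a => 1 - iwm b (a - D))
    (w₀ := iwW Ψ K d b D (a₂, A2)) ?_ ?_ hWhas hAge ?_ hWge ?_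
  · intro a h1 h2
    have := iwm_le (x := a - D) hb (by linarith)
    linarith
  · intro a h1 h2
    have := hm0 a h1
    linarith
  · intro a α h1 h2 h3 h4
    have e1 := hm0 a h1
    have e2 : 0 < imh α := imh_pos (by linarith) (by linarith)
    have e3 := hu (a - D) α (by linarith) h3 h4
    have e4 := iwB_ge hK hd e1 e2.le e3 hq
    have e5 : (1 - (1 - iwm b (a - D))) / (α * (4 * Real.pi - α)) = iwm b (a - D) * imh α := by
      unfold imh
      ring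
    rw [e5]
    exact e4
  · intro a α h1 h2 h3 h4
    have := hWle a α h1 h2 h3 h4
    linarith

end Pool.Agent.FPX
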