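import Mathlib
import Pool.Agent.FPX.HRS
import Pool.Agent.FPX.IMX

/-
HOC (helper91): the weighted Hardy inequality for odd functions from a profile for the small
superlevel sets (`hardy_in`, helper45) and the outer resistance `OutCap` for the large ones.
-/

open MeasureTheory Set Filter Topology
open scoped ENNReal NNReal

noncomputable section

namespace Pool.Agent.FPX

open Pool.Agent.EWD Pool.Agent.FPM

variable {M : Type} [MetricSpace M] {γ : ℝ → M}

/-- the area of the superlevel set is right continuous -/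
theorem supa_right (C : Calc M γ) (g : M → ℝ) {t a : ℝ} (h : ∀ s > t, supa C g s ≤ a) :
    supa C g t ≤ a := by
  have := C.fin
  have hU : {o | t < |g (C.pt o)|} = ⋃ n : ℕ, {o | t + 1 / ((n : ℝ) + 1) < |g (C.pt o)|} := by
    ext o
    simp only [mem_ofPred_eq, mem_iUnion]
    constructor
    · intro h1
      obtain ⟨n, hn⟩ := exists_nat_one_div_lt (sub_pos.2 h1)
      exact ⟨n, by linarith⟩
    · rintro ⟨n, hn⟩
      have : (0 : ℝ) < 1 / ((n : ℝ) + 1) := by positivity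
      linarith
  have hmono : Monotone fun n : ℕ => {o | t + 1 / ((n : ℝ) + 1) < |g (C.pt o)|} := by
    intro m n hmn o ho
    have h1 : t + 1 / ((m : ℝ) + 1) < |g (C.pt o)| := ho
    have h2 : 1 / ((n : ℝ) + 1) ≤ 1 / ((m : ℝ) + 1) := by
      apply one_div_le_one_div_of_le (by positivity)
      have : (m : ℝ) ≤ n := by exact_mod_cast hmn
      linarith
    change t + 1 / ((n : ℝ) + 1) < |g (C.pt o)|
    linarith
  have h1 := tendsto_measure_iUnion_atTop (μ := C.μ) hmono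
  rw [← hU] at h1
  have h2 := (ENNReal.tendsto_toReal (measure_ne_top C.μ _)).comp h1
  refine le_of_tendsto h2 (Eventually.of_forall fun n => ?_)
  have h3 : (0 : ℝ) < 1 / ((n : ℝ) + 1) := by positivity
  exact h (t + 1 / ((n : ℝ) + 1)) (by linarith)

/-- the crossing level -/
theorem crossing (C : Calc M γ) {g : M → ℝ} {R a₁ : ℝ} (gR : ∀ᵐ o ∂C.μ, |g (C.pt o)| ≤ R)
    (ha : 0 < a₁) (h0 : a₁ ≤ supa C g 0) : ∃ t, 0 ≤ t ∧ t ≤ R ∧ supa C g t ≤ a₁ ∧
      ∀ s, 0 ≤ s → s < t → a₁ ≤ supa C g s := by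
  set S : Set ℝ := {t | 0 ≤ t ∧ a₁ ≤ supa C g t} with hS
  have hne : S.Nonempty := ⟨0, le_rfl, h0⟩
  have hle : ∀ t ∈ S, t ≤ R := by
    intro t ht
    by_contra hc
    have h1 := supa_anti C g (le_of_lt (not_le.1 hc))
    have h2 := supa_top C gR
    have h3 := ht.2
    linarith
  have hbdd : BddAbove S := ⟨R, hle⟩
  refine ⟨sSup S, le_csSup hbdd ⟨le_rfl, h0⟩, csSup_le hne hle, ?_, ?_⟩
  · refine supa_right C g fun s hs => ?_
    by_contra hc
    have hs0 : 0 ≤ s := (le_csSup hbdd (show (0 : ℝ) ∈ S from ⟨le_rfl, h0⟩)).trans hs.le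
    have h1 : s ∈ S := ⟨hs0, (not_le.1 hc).le⟩
    have h2 := le_csSup hbdd h1
    linarith
  · intro s hs0 hs
    obtain ⟨t, ht, hst⟩ := exists_lt_of_lt_csSup hne hs
    exact ht.2.trans (supa_anti C g hst.le)

theorem outcap_limit (C : Calc M γ) {g : M → ℝ} (hg : Lip g) (ho : EWD.OddB γ g) {a₁ Ro t : ℝ}
    (hO : OutCap C a₁ Ro) (hRo : 0 ≤ Ro) (ht : 0 ≤ t) (h : ∀ s, 0 ≤ s → s < t → a₁ ≤ supa C g s) :
    t ^ 2 ≤ Ro * ∫ o in {o | |g (C.pt o)| < t}, gn C g o ^ 2 ∂C.μ := by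
  have hG := int_gn_sq C hg
  rcases ht.lt_or_eq with h0 | h0
  · have h1 : ∀ s, 0 < s → s < t → s ^ 2 ≤ Ro * ∫ o in {o | |g (C.pt o)| < t}, gn C g o ^ 2 ∂C.μ := by
      intro s hs hst
      have h2 := hO g hg ho s hs (h s hs.le hst)
      refine h2.trans (mul_le_mul_of_nonneg_left ?_ hRo)
      refine setIntegral_mono_set hG.integrableOn (ae_of_all _ fun o => by positivity) ?_
      refine (ae_of_all _ fun o hoo => ?_)
      have h3 : |g (C.pt o)| < s := hoo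
      exact (h3.trans hst : |g (C.pt o)| < t)
    have h2 : Tendsto (fun s : ℝ => s ^ 2) (𝓝[<] t) (𝓝 (t ^ 2)) :=
      ((continuous_pow 2).tendsto t).mono_left nhdsWithin_le_nhds
    refine le_of_tendsto h2 ?_
    filter_upwards [Ioo_mem_nhdsLT h0] with s hs
    exact h1 s hs.1 hs.2
  · rw [← h0]
    have : 0 ≤ ∫ o in {o | |g (C.pt o)| < (0 : ℝ)}, gn C g o ^ 2 ∂C.μ :=
      integral_nonneg fun o => by positivity
    nlinarith

/-- **weighted Hardy inequality: profile for areas below `a₁`, outer resistance above.** -/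
theorem hardy_cap (C : Calc M γ) {g : M → ℝ} (hg : Lip g) (ho : EWD.OddB γ g) {R : ℝ} (hR : 0 ≤ R)
    (gR : ∀ᵐ o ∂C.μ, |g (C.pt o)| ≤ R) {w : Om → ℝ} (hw : Integrable w C.μ)
    (w0 : ∀ᵐ o ∂C.μ, 0 ≤ w o) {n k Lam : ℝ → ℝ} {ε δ lam X a₁ Ro : ℝ} (hlam : 0 ≤ lam)
    (hε : 0 ≤ ε) (hδ : 0 ≤ δ) (hn : Monotone n) (n0 : ∀ a ≤ 0, n a = 0)
    (ck : Continuous k) (k0 : ∀ a ≤ 0, k a = 0) (kp : ∀ a, 0 ≤ k a) (ha : 0 < a₁)
    (hL : ∀ᵐ t : ℝ, 0 < t → DifferentiableAt ℝ (lev C fun x => |g x|) t ∧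
      Lam (supa C g t - ε) ≤ deriv (lev C fun x => |g x|) t ^ 2)
    (hq : ∀ s > 0, supw C g w s ≤ n (supa C g s - ε) + δ) (wX : ∫ o, w o ∂C.μ ≤ X)
    (hc : ∀ a, 0 < a → a ≤ a₁ → (lam * n a + ∫ u in (0 : ℝ)..a, k u) ^ 2 ≤ Lam a * k a)
    (hO : OutCap C a₁ Ro) (hRo : 0 ≤ Ro) (hRc : Ro * (lam * X + ∫ u in (0 : ℝ)..a₁, k u) ≤ 1) :
    lam * ∫ o, g (C.pt o) ^ 2 * w o ∂C.μ ≤ ∫ o, gn C g o ^ 2 ∂C.μ + lam * δ * R ^ 2 := by
  have := C.fin
  set Φ : ℝ → ℝ := fun x => ∫ u in (0 : ℝ)..x, k u with hΦ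
  have hΦd : ∀ x, HasDerivAt Φ (k x) x := fun x =>
    intervalIntegral.integral_hasDerivAt_right (ck.intervalIntegrable _ _)
      (ck.stronglyMeasurableAtFilter _ _) ck.continuousAt
  have hΦm : Monotone Φ := monotone_of_deriv_nonneg (fun x => (hΦd x).differentiableAt) fun x => by
    rw [(hΦd x).deriv]
    exact kp x
  have hΦ0 : ∀ x ≤ 0, Φ x = 0 := by
    intro x hx
    have h1 : ∫ u in (0 : ℝ)..x, k u = ∫ u in (0 : ℝ)..x, (0 : ℝ) := by
      refine intervalIntegral.integral_congr fun u hu => ?_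
      rw [uIcc_of_ge hx] at hu
      exact k0 u hu.2
    change ∫ u in (0 : ℝ)..x, k u = 0
    rw [h1]
    simp
  have iG := int_gn_sq C hg
  have hin := fun (t : ℝ) (ht : 0 ≤ t) (htR : t ≤ R) (hta : supa C g t - ε ≤ a₁) =>
    hardy_in C hg gR hw (n := n) (Φ0 := Φ) (k0 := k) (Lam := Lam) (ε := ε) (δ := δ) (lam := lam)
      (V := C.vol) (t := t) ht htR hlam hε hδ hn n0 le_rfl (fun x _ _ => hΦd x) (fun x _ _ => kp x) hΦ0
      (fun x h1 h2 => hc x h1 (h2.trans hta)) hL hq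
  have hband : ∀ t, 0 ≤ t → (∫ o in {o | t < |g (C.pt o)| ∧ |g (C.pt o)| ≤ R}, gn C g o ^ 2 ∂C.μ) +
      ∫ o in {o | |g (C.pt o)| < t}, gn C g o ^ 2 ∂C.μ ≤ ∫ o, gn C g o ^ 2 ∂C.μ := by
    intro t _
    set B := {o | t < |g (C.pt o)|} with hB
    have h1 : ∫ o in {o | t < |g (C.pt o)| ∧ |g (C.pt o)| ≤ R}, gn C g o ^ 2 ∂C.μ ≤
        ∫ o in B, gn C g o ^ 2 ∂C.μ :=
      setIntegral_mono_set iG.integrableOn (ae_of_all _ fun o => sq_nonneg _)
        (LE.le.eventuallyLE fun o ho => ho.1)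
    have h2 : ∫ o in {o | |g (C.pt o)| < t}, gn C g o ^ 2 ∂C.μ ≤ ∫ o in Bᶜ, gn C g o ^ 2 ∂C.μ :=
      setIntegral_mono_set iG.integrableOn (ae_of_all _ fun o => sq_nonneg _)
        (LE.le.eventuallyLE fun o ho => not_lt.2 (le_of_lt (show |g (C.pt o)| < t from ho)))
    have h3 := integral_add_compl₀ (meas_abs_lt C hg t) iG
    linarith
  rcases lt_or_ge (supa C g 0) a₁ with h0 | h0
  · have h1 := hin 0 le_rfl hR (by linarith)
    have h2 : (fun o => (g (C.pt o) ^ 2 - min |g (C.pt o)| 0 ^ 2) * w o) =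
        fun o => g (C.pt o) ^ 2 * w o := by
      funext o
      rw [min_eq_right (abs_nonneg _)]
      ring
    rw [h2] at h1
    have h3 := hband 0 le_rfl
    have h4 : 0 ≤ ∫ o in {o | |g (C.pt o)| < (0 : ℝ)}, gn C g o ^ 2 ∂C.μ :=
      integral_nonneg fun o => by positivity
    linarith
  · obtain ⟨t, t0, tR, ht1, ht2⟩ := crossing C gR ha h0
    have h1 := hin t t0 tR (by linarith)
    have h2 := outcap_limit C hg ho hO hRo t0 ht2
    set E := ∫ o in {o | |g (C.pt o)| < t}, gn C g o ^ 2 ∂C.μ with hE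
    have hE0 : 0 ≤ E := integral_nonneg fun o => by positivity
    -- the part of the weight below the level
    have i3 : Integrable (fun o => g (C.pt o) ^ 2 * w o) C.μ := by
      refine hw.bdd_mul (c := R ^ 2) ((aem_pt C hg).pow_const 2).aestronglyMeasurable ?_
      filter_upwards [gR] with o ho
      rw [Real.norm_eq_abs, abs_pow]
      exact pow_le_pow_left₀ (abs_nonneg _) ho 2
    have i4 : Integrable (fun o => min |g (C.pt o)| t ^ 2 * w o) C.μ := by
      refine hw.bdd_mul (c := t ^ 2) ?_ (ae_of_all _ fun o => ?_)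
      · exact (((aem_pt C (lip_abs hg)).min aemeasurable_const).pow_const 2).aestronglyMeasurable
      · rw [Real.norm_eq_abs, abs_pow, abs_of_nonneg (le_min (abs_nonneg _) t0)]
        exact pow_le_pow_left₀ (le_min (abs_nonneg _) t0) (min_le_right _ _) 2
    have e6 : ∫ o, (g (C.pt o) ^ 2 - min |g (C.pt o)| t ^ 2) * w o ∂C.μ =
        (∫ o, g (C.pt o) ^ 2 * w o ∂C.μ) - ∫ o, min |g (C.pt o)| t ^ 2 * w o ∂C.μ := by
      rw [← integral_sub i3 i4]
      refine integral_congr_ae (ae_of_all _ fun o => ?_)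
      ring
    have e7 : ∫ o, min |g (C.pt o)| t ^ 2 * w o ∂C.μ ≤ t ^ 2 * X := by
      have h3 : ∫ o, min |g (C.pt o)| t ^ 2 * w o ∂C.μ ≤ ∫ o, t ^ 2 * w o ∂C.μ := by
        refine integral_mono_ae i4 (hw.const_mul _) ?_
        filter_upwards [w0] with o hw0
        exact mul_le_mul_of_nonneg_right (pow_le_pow_left₀ (le_min (abs_nonneg _) t0)
          (min_le_right _ _) 2) hw0
      rw [integral_const_mul] at h3
      exact h3.trans (mul_le_mul_of_nonneg_left wX (by positivity))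
    rw [e6] at h1
    have h3 := hband t t0
    have h4 : Φ (supa C g t - ε) ≤ Φ a₁ := hΦm (by linarith)
    have h5 : t ^ 2 * (lam * X + Φ a₁) ≤ E := by
      have hX0 : 0 ≤ X := (integral_nonneg_of_ae w0).trans wX
      have hΦp : 0 ≤ Φ a₁ := by
        rw [← hΦ0 0 le_rfl]
        exact hΦm ha.le
      have hs0 : 0 ≤ lam * X + Φ a₁ := by positivity
      calc t ^ 2 * (lam * X + Φ a₁) ≤ (Ro * E) * (lam * X + Φ a₁) :=
            mul_le_mul_of_nonneg_right h2 hs0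
        _ = (Ro * (lam * X + Φ a₁)) * E := by ring
        _ ≤ 1 * E := mul_le_mul_of_nonneg_right hRc hE0
        _ = E := one_mul _
    have h6 := mul_le_mul_of_nonneg_left e7 hlam
    have h7 := mul_le_mul_of_nonneg_left h4 (sq_nonneg t)
    linarith

end Pool.Agent.FPX
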