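import Mathlib
import Pool.Agent.FPX.HOC

/-
VOU (helper91): the outer part of the weighted Hardy inequality through the image under the map
`v` itself. The excess `ν_v ≤ f` is used twice, once as resistance and once as weight, on one
account.
-/

open MeasureTheory Set Filter Topology
open scoped ENNReal NNReal

noncomputable section

namespace Pool.Agent.FPX

open Pool.Agent.EWD Pool.Agent.FPM

variable {M : Type} [MetricSpace M] {γ : ℝ → M}

/-- the function of Hamilton and Jacobi -/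
def voS (G : ℝ → ℝ) (K X δ m : ℝ) (t : ℝ) (x : Fin 3 → ℝ) : ℝ :=
  imS G K X δ t x + t ^ 2 * (m * (X - x 2))

/-- its derivative -/
def voS' (G g : ℝ → ℝ) (K X δ m : ℝ) (t : ℝ) (x : Fin 3 → ℝ) : (ℝ × (Fin 3 → ℝ)) →L[ℝ] ℝ :=
  imS' G g K X δ t x +
    ((2 * t * (m * (X - x 2))) • ContinuousLinearMap.fst ℝ ℝ (Fin 3 → ℝ) -
      (t ^ 2 * m) • ((ContinuousLinearMap.proj 2).comp (ContinuousLinearMap.snd ℝ ℝ (Fin 3 → ℝ))))

theorem voS'_one (G g : ℝ → ℝ) (K X δ m t : ℝ) (x : Fin 3 → ℝ) :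
    voS' G g K X δ m t x (1, 0) = -2 * t * ((imR G K X δ x)⁻¹ - m * (X - x 2)) := by
  have h := imS'_one G g K X δ t x
  rw [voS', add_apply, h]
  simp
  ring

theorem voS'_two (G g : ℝ → ℝ) (K X δ m t : ℝ) (x y : Fin 3 → ℝ) :
    voS' G g K X δ m t x (0, y) =
      -(t ^ 2 * ((imR G K X δ x ^ 2)⁻¹ * (y 1 * g (x 1) + K * y 2) + m * y 2)) := by
  have h := imS'_two G g K X δ t x y
  rw [voS', add_apply, h]
  simp
  ring

theorem voS_has {G g : ℝ → ℝ} {K X δ m : ℝ} {t : ℝ} {x : Fin 3 → ℝ}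
    (hG : HasDerivAt G (-g (x 1)) (x 1)) (h0 : imR G K X δ x ≠ 0) :
    HasFDerivAt (fun z : ℝ × (Fin 3 → ℝ) => voS G K X δ m z.1 z.2) (voS' G g K X δ m t x)
      (t, x) := by
  have e2 : HasFDerivAt (fun z : ℝ × (Fin 3 → ℝ) => z.2 2)
      ((ContinuousLinearMap.proj 2).comp (ContinuousLinearMap.snd ℝ ℝ (Fin 3 → ℝ))) (t, x) :=
    (((ContinuousLinearMap.proj (R := ℝ) (φ := fun _ : Fin 3 => ℝ) 2).comp
      (ContinuousLinearMap.snd ℝ ℝ (Fin 3 → ℝ))).hasFDerivAt)
  have e0 : HasFDerivAt (fun z : ℝ × (Fin 3 → ℝ) => z.1)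
      (ContinuousLinearMap.fst ℝ ℝ (Fin 3 → ℝ)) (t, x) := hasFDerivAt_fst
  have e5 : HasFDerivAt (fun z : ℝ × (Fin 3 → ℝ) => m * (X - z.2 2)) _ (t, x) :=
    (e2.const_sub X).const_mul m
  have e6 : HasFDerivAt (fun z : ℝ × (Fin 3 → ℝ) => z.1 ^ 2) _ (t, x) := e0.pow 2
  have e7 := (imS_has (t := t) hG h0).add (e6.mul e5)
  refine (e7.congr_fderiv ?_).congr_of_eventuallyEq (Eventually.of_forall fun z => rfl)
  refine ContinuousLinearMap.ext fun z => ?_
  simp [voS']
  ring

/-- `-ν ≤ J` -/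
theorem neg_nu_le_jac (C : Calc M γ) {v : Fin 3 → M → ℝ} (hv : Sph γ v) :
    ∀ᵐ o ∂C.μ, -nuC C v o ≤ jac C v o := by
  filter_upwards [imc_ae C hv] with o ho
  have h1 := ho (1 / 2) 1 1 (by norm_num) one_pos (by norm_num)
  have h2 : 0 ≤ opn C v o ^ 2 * (1 / 2) := by positivity
  linarith

theorem nlev_supw (C : Calc M γ) (χ : M → ℝ) (f : Om → ℝ) (t : ℝ) :
    nlev C χ f t = supw C χ f (-t) := by
  have e : {o | -|χ (C.pt o)| < t} = {o | -t < |χ (C.pt o)|} := by
    ext o
    change -|χ (C.pt o)| < t ↔ -t < |χ (C.pt o)|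
    exact neg_lt
  unfold nlev supw
  rw [e]

/-- **The outer part of the weighted Hardy inequality through the image under `v`.**
`α = ∫_{t < |χ|} J`, `ω = ∫_{t < |χ|} f`, `R = G(α) + K (X - ω) + δ`:
`t² (1 / R - lam ρ (X - ω) - lam ∫_{t < |χ|} w) + lam ∫ min(|χ|, t)² w ≤ ∫_{|χ| < t} |dχ|²`. -/
theorem out_robin [CompactSpace M] (C : Calc M γ) (hγ : Bd γ) (hR : RegAE C) {v : Fin 3 → M → ℝ}
    (hv : Sph γ v) (hJ : ∫ o, jac C v o ∂C.μ = 2 * Real.pi) {κ ε : ℝ} (hI : IsopO C κ ε)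
    {f w : Om → ℝ} (hf : Integrable f C.μ) (hfn : ∀ᵐ o ∂C.μ, nuC C v o ≤ f o)
    {X K lam ρ wB : ℝ} (fX : ∫ o, f o ∂C.μ ≤ X) (hw : Integrable w C.μ)
    (w0 : ∀ᵐ o ∂C.μ, 0 ≤ w o) (wf : ∀ᵐ o ∂C.μ, w o ≤ ρ * f o) (wb : ∀ᵐ o ∂C.μ, w o ≤ wB)
    (hlam : 0 ≤ lam) (hρ : 0 ≤ ρ) (hK : 0 < K) {A1 : ℝ} (hA1 : 0 < A1) (hX : X < 2 * Real.pi)
    {G g : ℝ → ℝ}
    (hG : ∀ α, A1 ≤ α → α ≤ 2 * Real.pi + X → HasDerivAt G (-g α) α)
    (hg : ∀ α, A1 ≤ α → α ≤ 2 * Real.pi + X →
      1 / (α * (4 * Real.pi - α)) ≤ g α - g α ^ 2 / (2 * K))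
    (hG0 : ∀ y, 0 ≤ y → y ≤ X → 0 ≤ G (2 * Real.pi + y) + K * y) {δ : ℝ} (hδ : 0 < δ)
    {χ : M → ℝ} (hχ : Lip χ) (oχ : EWD.OddB γ χ) {t : ℝ} (ht : 0 ≤ t)
    (hα : ∀ s, 0 ≤ s → s ≤ t → A1 ≤ supw C χ (jac C v) s) :
    0 < G (supw C χ (jac C v) t) + K * (X - supw C χ f t) + δ ∧
    t ^ 2 * ((G (supw C χ (jac C v) t) + K * (X - supw C χ f t) + δ)⁻¹
        - lam * ρ * (X - supw C χ f t) - lam * supw C χ w t)
      + lam * ∫ o, min |χ (C.pt o)| t ^ 2 * w o ∂C.μ ≤
      ∫ o in {o | |χ (C.pt o)| < t}, gn C χ o ^ 2 ∂C.μ := by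
  have := C.fin
  have hpi := Real.pi_pos
  -- basic facts
  have iJ : Integrable (jac C v) C.μ := jac_integrable C hv
  have f0 : ∀ᵐ o ∂C.μ, 0 ≤ f o := by
    filter_upwards [hfn] with o ho
    exact (nuv_nonneg _ _ _).trans ho
  have wB0 : 0 ≤ max wB 0 := le_max_right _ _
  have hmeas : ∀ t, NullMeasurableSet {o | -|χ (C.pt o)| < t} C.μ := fun t =>
    meas_pt_lt C (lip_abs hχ).neg t
  have hlow : ∀ s, -t ≤ s → s ≤ 0 → A1 ≤ nlev C χ (jac C v) s := fun s hs hs0 => by
    rw [nlev_supw]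
    exact hα _ (by linarith) (by linarith)
  have hf0 : ∀ s, 0 ≤ nlev C χ f s := fun s => setIntegral_nonneg_of_ae f0
  have hfX : ∀ s, nlev C χ f s ≤ X := fun s => (setIntegral_le_integral hf f0).trans fX
  have hsum : ∀ s, nlev C χ (jac C v) s + nlev C χ f s ≤ 2 * Real.pi + X := fun s => by
    set E : Set Om := {o | -|χ (C.pt o)| < s} with hE
    have h1 := integral_add_compl₀ (hmeas s) iJ
    have h2 := integral_add_compl₀ (hmeas s) hf
    have h3 : ∫ o in Eᶜ, -jac C v o ∂C.μ ≤ ∫ o in Eᶜ, f o ∂C.μ := by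
      refine setIntegral_mono_ae iJ.neg.integrableOn hf.integrableOn ?_
      filter_upwards [hfn, neg_nu_le_jac C hv] with o h4 h5
      linarith
    rw [integral_neg] at h3
    unfold nlev
    linarith
  have hX0 : 0 ≤ X := (hf0 0).trans (hfX 0)
  have hA12 : A1 ≤ 2 * Real.pi + X := by
    have h1 := hlow 0 (by linarith) le_rfl
    have h2 := hsum 0
    have h3 := hf0 0
    linarith
  -- positivity of g
  have hgpos : ∀ α, A1 ≤ α → α ≤ 2 * Real.pi + X → 0 < g α := by
    intro α h1 h2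
    have h3 : 0 < 1 / (α * (4 * Real.pi - α)) := by
      have : 0 < α := by linarith
      have : 0 < 4 * Real.pi - α := by linarith
      positivity
    have h4 := hg α h1 h2
    have h5 : 0 ≤ g α ^ 2 / (2 * K) := by positivity
    linarith
  have hGanti : ∀ α β, A1 ≤ α → α ≤ β → β ≤ 2 * Real.pi + X → G β ≤ G α := by
    intro α β h1 h2 h3
    have hmono : AntitoneOn G (Icc A1 (2 * Real.pi + X)) := by
      refine antitoneOn_of_deriv_nonpos (convex_Icc _ _) ?_ ?_ ?_
      · intro x hx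
        exact (hG x hx.1 hx.2).continuousAt.continuousWithinAt
      · intro x hx
        rw [interior_Icc] at hx
        exact (hG x hx.1.le hx.2.le).differentiableAt.differentiableWithinAt
      · intro x hx
        rw [interior_Icc] at hx
        rw [(hG x hx.1.le hx.2.le).deriv]
        have := hgpos x hx.1.le hx.2.le
        linarith
    exact hmono ⟨h1, by linarith⟩ ⟨by linarith, h3⟩ h2
  set Ds : Set (Fin 3 → ℝ) := {x | A1 ≤ x 1 ∧ x 1 + x 2 ≤ 2 * Real.pi + X ∧ 0 ≤ x 2 ∧ x 2 ≤ X}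
    with hDs
  have hconv : Convex ℝ Ds := by
    intro x hx y hy a b ha0 hb0 hab
    obtain ⟨x1, x2, x3, x4⟩ := hx
    obtain ⟨y1, y2, y3, y4⟩ := hy
    refine ⟨?_, ?_, ?_, ?_⟩
    · have : A1 = a * A1 + b * A1 := by rw [← add_mul, hab, one_mul]
      simp only [Pi.add_apply, Pi.smul_apply, smul_eq_mul]
      nlinarith
    · have : 2 * Real.pi + X = a * (2 * Real.pi + X) + b * (2 * Real.pi + X) := by
        rw [← add_mul, hab, one_mul]
      simp only [Pi.add_apply, Pi.smul_apply, smul_eq_mul]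
      have h1 := mul_le_mul_of_nonneg_left x2 ha0
      have h2 := mul_le_mul_of_nonneg_left y2 hb0
      linarith
    · simp only [Pi.add_apply, Pi.smul_apply, smul_eq_mul]
      positivity
    · have : X = a * X + b * X := by rw [← add_mul, hab, one_mul]
      simp only [Pi.add_apply, Pi.smul_apply, smul_eq_mul]
      nlinarith
  have hx1 : ∀ x ∈ Ds, x 1 ≤ 2 * Real.pi + X := fun x hx => by
    obtain ⟨x1, x2, x3, x4⟩ := hx
    linarith
  have hRpos : ∀ x ∈ Ds, δ ≤ imR G K X δ x := by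
    intro x hx
    obtain ⟨x1, x2, x3, x4⟩ := hx
    have h1 := hGanti (x 1) (2 * Real.pi + (X - x 2)) x1 (by linarith) (by linarith)
    have h2 := hG0 (X - x 2) (by linarith) (by linarith)
    unfold imR
    linarith
  set m := lam * ρ with hm
  have hm0 : 0 ≤ m := mul_nonneg hlam hρ
  set pot : Om → ℝ := fun o => -(lam * (min |χ (C.pt o)| t ^ 2 * w o)) with hpot
  have i4 : Integrable (fun o => min |χ (C.pt o)| t ^ 2 * w o) C.μ := by
    refine hw.bdd_mul (c := t ^ 2) ?_ (ae_of_all _ fun o => ?_)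
    · exact (((aem_pt C (lip_abs hχ)).min aemeasurable_const).pow_const 2).aestronglyMeasurable
    · rw [Real.norm_eq_abs, abs_pow, abs_of_nonneg (le_min (abs_nonneg _) ht)]
      exact pow_le_pow_left₀ (le_min (abs_nonneg _) ht) (min_le_right _ _) 2
  have ipot : Integrable pot C.μ := (i4.const_mul lam).neg
  set L : ℝ := 2 * t * δ⁻¹ + lam * max wB 0 * (2 * t) with hL
  have hL1 : 2 * t * δ⁻¹ ≤ L := by
    rw [hL]
    have : 0 ≤ lam * max wB 0 * (2 * t) := by positivity
    linarith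
  have hL2 : lam * max wB 0 * (2 * t) ≤ L := by
    rw [hL]
    have : 0 ≤ 2 * t * δ⁻¹ := by positivity
    linarith
  have hL0 : 0 ≤ L := by positivity
  set γs : Fin 3 → Om → ℝ := ![fun _ => 1, jac C v, f] with hγs
  have hFD : ∀ s, -t ≤ s → s ≤ 0 → (fun i => nlev C χ (γs i) s) ∈ Ds := fun s hs hs0 =>
    ⟨hlow s hs hs0, hsum s, hf0 s, hfX s⟩
  have hmain := odd_hj C hγ hR hv hχ oχ hI (ι := Fin 3) (γs := γs) (i0 := 0) (i1 := 1)
    (pot := pot) (c := 1) (r0 := -t) (r1 := 0) (L := L) (D := Ds)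
    (S := voS G K X δ m) (S' := voS' G g K X δ m)
    (by
      intro i
      fin_cases i
      · exact integrable_const (1 : ℝ)
      · exact iJ
      · exact hf)
    rfl rfl ipot one_pos (by linarith) le_rfl hL0 hconv
    (fun s h1 h2 => hFD s h1 h2)
    (fun s x h1 h2 hx => voS_has (hG _ hx.1 (hx1 x hx)) (lt_of_lt_of_le hδ (hRpos x hx)).ne')
    (by
      intro s x h1 h2 hx
      rw [voS'_one]
      have h3 := hRpos x hx
      have h4 : (imR G K X δ x)⁻¹ ≤ δ⁻¹ := inv_anti₀ hδ h3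
      have h5 : 0 ≤ m * (X - x 2) := mul_nonneg hm0 (by linarith [hx.2.2.2])
      have h6 : 0 ≤ -2 * s := by linarith
      have h7 : -2 * s * ((imR G K X δ x)⁻¹ - m * (X - x 2)) ≤ -2 * s * δ⁻¹ :=
        mul_le_mul_of_nonneg_left (by linarith) h6
      have h8 : -2 * s * δ⁻¹ ≤ 2 * t * δ⁻¹ :=
        mul_le_mul_of_nonneg_right (by linarith) (inv_nonneg.2 hδ.le)
      linarith)
    (by
      filter_upwards [imc_ae C hv, hfn, w0, wf, wb] with o ho hnf hw0 hwf hwb s x h1 hx h2 h3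
      rw [voS'_two]
      have hx1' := hg _ hx.1 (hx1 x hx)
      have hpos : 0 < 1 / (x 1 * (4 * Real.pi - x 1)) := by
        have h5 := hx.1
        have h6 := hx1 x hx
        have : 0 < x 1 := by linarith
        have : 0 < 4 * Real.pi - x 1 := by linarith
        positivity
      have h4 := ho _ _ K hpos hK hx1'
      have h5 : 0 ≤ opn C v o ^ 2 * (1 / (x 1 * (4 * Real.pi - x 1))) := by positivity
      have h6 : 0 ≤ (imR G K X δ x ^ 2)⁻¹ * (γs 1 o * g (x 1) + K * γs 2 o) := by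
        have h7 : K * nuC C v o ≤ K * f o := mul_le_mul_of_nonneg_left hnf hK.le
        have h8 : 0 ≤ jac C v o * g (x 1) + K * f o := by linarith
        exact mul_nonneg (by positivity) h8
      have hc0 : 0 ≤ |χ (C.pt o)| := abs_nonneg _
      have hct : |χ (C.pt o)| ≤ t := by linarith
      have h7 : pot o = -(lam * (|χ (C.pt o)| ^ 2 * w o)) := by
        rw [hpot]
        simp only [min_eq_left hct]
      rw [h7]
      have h8 : m * γs 2 o = lam * (ρ * f o) := by
        rw [hm]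
        change lam * ρ * f o = _
        ring
      have h9 : lam * w o ≤ m * γs 2 o := by
        rw [h8]
        exact mul_le_mul_of_nonneg_left hwf hlam
      have h10 : s ^ 2 * (lam * w o) ≤
          s ^ 2 * ((imR G K X δ x ^ 2)⁻¹ * (γs 1 o * g (x 1) + K * γs 2 o) + m * γs 2 o) :=
        mul_le_mul_of_nonneg_left (by linarith) (sq_nonneg s)
      -- the difference of the weights
      have h11 : lam * w o * (|χ (C.pt o)| ^ 2 - s ^ 2) ≤ L * (s + |χ (C.pt o)|) := by
        have e1 : |χ (C.pt o)| ^ 2 - s ^ 2 = (|χ (C.pt o)| - s) * (s + |χ (C.pt o)|) := by ring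
        have hs : 0 ≤ s + |χ (C.pt o)| := by linarith
        have h12 : lam * w o * (|χ (C.pt o)| - s) ≤ lam * max wB 0 * (2 * t) := by
          have h13 : lam * w o ≤ lam * max wB 0 :=
            mul_le_mul_of_nonneg_left (hwb.trans (le_max_left _ _)) hlam
          have h14 : |χ (C.pt o)| - s ≤ 2 * t := by linarith
          have h15 : 0 ≤ |χ (C.pt o)| - s := by linarith
          exact mul_le_mul h13 h14 h15 (by positivity)
        rw [e1]
        calc lam * w o * ((|χ (C.pt o)| - s) * (s + |χ (C.pt o)|))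
            = (lam * w o * (|χ (C.pt o)| - s)) * (s + |χ (C.pt o)|) := by ring
          _ ≤ L * (s + |χ (C.pt o)|) := mul_le_mul_of_nonneg_right (h12.trans hL2) hs
      linarith)
    (by
      refine ae_of_all _ fun s h1 h2 l V hl hV _ hVV => ?_
      set x : Fin 3 → ℝ := fun i => nlev C χ (γs i) s with hx
      have hxD : x ∈ Ds := hFD s h1.le h2.le
      set r := imR G K X δ x with hr
      have hrp : 0 < r := lt_of_lt_of_le hδ (hRpos x hxD)
      have e1 : nlev C χ (γs 1) s = x 1 := rfl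
      rw [e1] at hVV
      set y := x 1 * (4 * Real.pi - x 1) with hy
      have hyp : 0 < y := by
        have h5 := hxD.1
        have h6 := hx1 x hxD
        have : 0 < x 1 := by linarith
        have : 0 < 4 * Real.pi - x 1 := by linarith
        positivity
      have hsq : 0 < √y := Real.sqrt_pos.2 hyp
      have hVs : √y ≤ V := by
        rw [← Real.sqrt_sq hV]
        exact Real.sqrt_le_sqrt hVV
      refine ⟨0, -2 * s * r⁻¹ * (√y)⁻¹, le_rfl, ?_, ?_, 1, one_pos, ?_⟩
      · have : 0 ≤ -2 * s := by linarith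
        positivity
      · rw [voS'_one, zero_mul, zero_add]
        have h0 : 0 ≤ -2 * s := by linarith
        have h3 : 0 ≤ -2 * s * r⁻¹ := by positivity
        have h4 : 0 ≤ m * (X - x 2) := mul_nonneg hm0 (by linarith [hxD.2.2.2])
        have h5 : -2 * s * (r⁻¹ - m * (X - x 2)) ≤ -2 * s * r⁻¹ :=
          mul_le_mul_of_nonneg_left (by linarith) h0
        refine h5.trans ?_
        calc -2 * s * r⁻¹ = -2 * s * r⁻¹ * ((√y)⁻¹ * √y) := by
              rw [inv_mul_cancel₀ hsq.ne', mul_one]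
          _ ≤ -2 * s * r⁻¹ * ((√y)⁻¹ * V) :=
              mul_le_mul_of_nonneg_left (mul_le_mul_of_nonneg_left hVs (by positivity)) h3
          _ = _ := by ring
      · filter_upwards [imc_ae C hv, hfn, w0, wf] with o ho hnf hw0 hwf h3 h4
        rw [voS'_two]
        have h5 := ho _ _ K (by positivity) hK (hg _ hxD.1 (hx1 x hxD))
        have e2 : (0 + -2 * s * r⁻¹ * (√y)⁻¹ * opn C v o) ^ 2 =
            4 * (s ^ 2 * (r ^ 2)⁻¹) * (opn C v o ^ 2 * (1 / y)) := by
          have e3 : ((√y)⁻¹) ^ 2 = 1 / y := by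
            rw [inv_pow, Real.sq_sqrt hyp.le, one_div]
          have e4 : (0 + -2 * s * r⁻¹ * (√y)⁻¹ * opn C v o) ^ 2 =
            4 * (s ^ 2 * (r⁻¹) ^ 2) * (opn C v o ^ 2 * ((√y)⁻¹) ^ 2) := by ring
          rw [e4, e3, inv_pow]
        rw [e2]
        have h6 : 4 * (s ^ 2 * (r ^ 2)⁻¹) * (opn C v o ^ 2 * (1 / y)) ≤
            4 * (s ^ 2 * (r ^ 2)⁻¹) * (jac C v o * g (x 1) + K * f o) := by
          refine mul_le_mul_of_nonneg_left (h5.trans ?_) (by positivity)
          have := mul_le_mul_of_nonneg_left hnf hK.le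
          linarith
        have h7 : 0 ≤ L * (-|χ (C.pt o)| - s) := mul_nonneg hL0 (by linarith)
        have hc0 : 0 ≤ |χ (C.pt o)| := abs_nonneg _
        have hct : |χ (C.pt o)| ≤ -s := by linarith
        have h8 : min |χ (C.pt o)| t ^ 2 ≤ s ^ 2 := by
          have h9 : 0 ≤ min |χ (C.pt o)| t := le_min hc0 ht
          have h10 : min |χ (C.pt o)| t ≤ -s := (min_le_left _ _).trans hct
          nlinarith
        have h9 : lam * (min |χ (C.pt o)| t ^ 2 * w o) ≤ s ^ 2 * (m * f o) := by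
          have h10 : min |χ (C.pt o)| t ^ 2 * w o ≤ s ^ 2 * (ρ * f o) :=
            mul_le_mul h8 hwf hw0 (sq_nonneg s)
          have h11 := mul_le_mul_of_nonneg_left h10 hlam
          have e5 : lam * (s ^ 2 * (ρ * f o)) = s ^ 2 * (m * f o) := by
            rw [hm]
            ring
          linarith
        refine h6.trans ?_
        change _ ≤ 4 * 1 * (-(lam * (min |χ (C.pt o)| t ^ 2 * w o)) -
          -(s ^ 2 * ((r ^ 2)⁻¹ * (jac C v o * g (x 1) + K * f o) + m * f o)) + _)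
        nlinarith)
  -- conclusion
  set A : Set Om := {o | -t ≤ -|χ (C.pt o)| ∧ -|χ (C.pt o)| < 0} with hA
  set B : Set Om := {o | |χ (C.pt o)| < t} with hB
  have mA : NullMeasurableSet A C.μ := by
    have h1 := (hmeas 0).diff (hmeas (-t))
    have h2 : A = {o | -|χ (C.pt o)| < 0} \ {o | -|χ (C.pt o)| < -t} := by
      ext o
      simp only [hA, mem_ofPred_eq, Set.mem_sdiff, not_lt]
      exact and_comm
    rw [h2]
    exact h1
  have mB : NullMeasurableSet B C.μ := meas_pt_lt C (lip_abs hχ) t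
  have iG : Integrable (fun o => gn C χ o ^ 2) C.μ := int_gn_sq C hχ
  have hAB : ∫ o in A, gn C χ o ^ 2 ∂C.μ ≤ ∫ o in B, gn C χ o ^ 2 ∂C.μ := by
    rw [← integral_indicator₀ mA, ← integral_indicator₀ mB]
    refine integral_mono_ae (iG.indicator₀ mA) (iG.indicator₀ mB) ?_
    filter_upwards [grad_level C (lip_abs hχ) t, gn_abs C hχ] with o ho ha
    by_cases hB' : o ∈ B
    · rw [indicator_of_mem hB']
      exact indicator_le_self' (fun _ _ => by positivity) o
    · by_cases hA' : o ∈ A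
      · have h1 : |χ (C.pt o)| = t := by
          have h2 : ¬ |χ (C.pt o)| < t := hB'
          have h3 := hA'.1
          linarith [not_lt.1 h2]
        have h3 : gn C χ o = 0 := by
          rw [← ha]
          unfold gn
          rw [(ho h1).1, (ho h1).2]
          simp
        rw [indicator_of_mem hA', indicator_of_notMem hB', h3]
        simp
      · rw [indicator_of_notMem hA', indicator_of_notMem hB']
  have hQ : ∫ o in A, (pot o + 1 * gn C χ o ^ 2) ∂C.μ =
      ∫ o in A, gn C χ o ^ 2 ∂C.μ - lam * ∫ o in A, min |χ (C.pt o)| t ^ 2 * w o ∂C.μ := by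
    rw [← integral_const_mul, ← integral_sub iG.integrableOn (i4.const_mul lam).integrableOn]
    refine integral_congr_ae (ae_of_all _ fun o => ?_)
    change -(lam * (min |χ (C.pt o)| t ^ 2 * w o)) + 1 * gn C χ o ^ 2 = _
    ring
  rw [hQ] at hmain
  -- the part of the weight above the level
  have hpart : ∫ o, min |χ (C.pt o)| t ^ 2 * w o ∂C.μ ≤
      (∫ o in A, min |χ (C.pt o)| t ^ 2 * w o ∂C.μ) + t ^ 2 * supw C χ w t := by
    set E : Set Om := {o | t < |χ (C.pt o)|} with hE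
    have mE : NullMeasurableSet E C.μ := meas_abs_lt C hχ t
    have h1 : ∫ o, min |χ (C.pt o)| t ^ 2 * w o ∂C.μ ≤
        ∫ o, (A.indicator (fun o => min |χ (C.pt o)| t ^ 2 * w o) o +
          E.indicator (fun o => t ^ 2 * w o) o) ∂C.μ := by
      refine integral_mono_ae i4 ((i4.indicator₀ mA).add ((hw.const_mul (t ^ 2)).indicator₀ mE)) ?_
      filter_upwards [w0] with o hw0
      have k1 : 0 ≤ min |χ (C.pt o)| t ^ 2 * w o := by positivity
      by_cases hE' : o ∈ E
      · rw [indicator_of_mem hE']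
        have k3 : 0 ≤ A.indicator (fun o => min |χ (C.pt o)| t ^ 2 * w o) o := by
          by_cases hA' : o ∈ A
          · rw [indicator_of_mem hA']
            exact k1
          · rw [indicator_of_notMem hA']
        have k4 : min |χ (C.pt o)| t = t := min_eq_right (le_of_lt hE')
        have k5 : min |χ (C.pt o)| t ^ 2 * w o = t ^ 2 * w o := by rw [k4]
        linarith
      · rw [indicator_of_notMem hE', add_zero]
        by_cases hA' : o ∈ A
        · rw [indicator_of_mem hA']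
        · rw [indicator_of_notMem hA']
          have k3 : |χ (C.pt o)| ≤ t := not_lt.1 hE'
          have k4 : |χ (C.pt o)| = 0 := by
            by_contra hne
            have k5 : 0 < |χ (C.pt o)| := lt_of_le_of_ne (abs_nonneg _) (Ne.symm hne)
            exact hA' ⟨by linarith, by linarith⟩
          rw [k4, min_eq_left ht]
          simp
    have h2 : ∫ o, (A.indicator (fun o => min |χ (C.pt o)| t ^ 2 * w o) o +
          E.indicator (fun o => t ^ 2 * w o) o) ∂C.μ =
        (∫ o in A, min |χ (C.pt o)| t ^ 2 * w o ∂C.μ) + t ^ 2 * supw C χ w t := by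
      rw [integral_add (i4.indicator₀ mA) ((hw.const_mul (t ^ 2)).indicator₀ mE),
        integral_indicator₀ mA, integral_indicator₀ mE, integral_const_mul]
      rfl
    linarith
  have e0 : 0 < G (supw C χ (jac C v) t) + K * (X - supw C χ f t) + δ := by
    have h1 := lt_of_lt_of_le hδ (hRpos _ (hFD (-t) le_rfl (by linarith)))
    have e3 : nlev C χ (γs 1) (-t) = supw C χ (jac C v) t := by
      rw [nlev_supw, neg_neg]
      rfl
    have e4 : nlev C χ (γs 2) (-t) = supw C χ f t := by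
      rw [nlev_supw, neg_neg]
      rfl
    unfold imR at h1
    dsimp only at h1
    rw [e3, e4] at h1
    exact h1
  refine ⟨e0, ?_⟩
  have e1 : voS G K X δ m 0 (fun i => nlev C χ (γs i) 0) = 0 := by
    unfold voS imS
    simp
  have e2 : voS G K X δ m (-t) (fun i => nlev C χ (γs i) (-t)) =
      -(t ^ 2 * ((G (supw C χ (jac C v) t) + K * (X - supw C χ f t) + δ)⁻¹
        - m * (X - supw C χ f t))) := by
    have e3 : nlev C χ (γs 1) (-t) = supw C χ (jac C v) t := by
      rw [nlev_supw, neg_neg]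
      rfl
    have e4 : nlev C χ (γs 2) (-t) = supw C χ f t := by
      rw [nlev_supw, neg_neg]
      rfl
    unfold voS imS imR
    dsimp only
    rw [e3, e4]
    ring
  rw [e1, e2] at hmain
  have h1 := mul_le_mul_of_nonneg_left hpart hlam
  have e5 : lam * ((∫ o in A, min |χ (C.pt o)| t ^ 2 * w o ∂C.μ) + t ^ 2 * supw C χ w t) =
      lam * (∫ o in A, min |χ (C.pt o)| t ^ 2 * w o ∂C.μ) + t ^ 2 * (lam * supw C χ w t) := by
    ring
  have e6 : t ^ 2 * ((G (supw C χ (jac C v) t) + K * (X - supw C χ f t) + δ)⁻¹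
        - m * (X - supw C χ f t) - lam * supw C χ w t) =
      t ^ 2 * ((G (supw C χ (jac C v) t) + K * (X - supw C χ f t) + δ)⁻¹
        - m * (X - supw C χ f t)) - t ^ 2 * (lam * supw C χ w t) := by ring
  rw [e6]
  linarith

end Pool.Agent.FPX
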