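import Mathlib
import Pool.Agent.FPX.IMN
import Pool.Agent.FPX.VOU

/-
VRC (helper91): the weighted Hardy inequality for odd functions by certificate functions
`r (a, α, ω, ..)` of several accounts, with both length inequalities at every level (`odd_hj2`), and
the composition of an inner and an outer certificate at the level of area `a₁`.
-/

open MeasureTheory Set Filter Topology
open scoped ENNReal NNReal

noncomputable section

namespace Pool.Agent.FPX

open Pool.Agent.EWD Pool.Agent.FPM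

variable {M : Type} [MetricSpace M] {γ : ℝ → M}

/-- the accounts of a set -/
def acc (C : Calc M γ) {ι : Type*} (γs : ι → Om → ℝ) (T : Set Om) : ι → ℝ :=
  fun i => ∫ o in T, γs i o ∂C.μ

/-- a certificate function `r` of the accounts on `D`, bounded by `B` -/
structure RC (C : Calc M γ) (v : Fin 3 → M → ℝ) {ι : Type*} [Fintype ι] (γs : ι → Om → ℝ)
    (i0 i1 : ι) (w : Om → ℝ) (κ B : ℝ) (D : Set (ι → ℝ)) (r : (ι → ℝ) → ℝ) : Prop where
  cert : ∃ (r' : (ι → ℝ) → (ι → ℝ) →L[ℝ] ℝ) (p q : (ι → ℝ) → ℝ),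
    (∀ x ∈ D, HasFDerivAt r (r' x) x ∧ 0 ≤ p x ∧ 0 ≤ q x ∧ r x ≤ B ∧
      r x ≤ p x * √(κ * x i0) + q x * √(|x i1| * (4 * Real.pi - |x i1|))) ∧
    ∀ᵐ o ∂C.μ, ∀ x ∈ D, w o + (p x + q x * opn C v o) ^ 2 ≤ r' x (fun i => γs i o)

theorem RC.mono {C : Calc M γ} {v : Fin 3 → M → ℝ} {ι : Type*} [Fintype ι] {γs : ι → Om → ℝ}
    {i0 i1 : ι} {w : Om → ℝ} {κ B : ℝ} {D D' : Set (ι → ℝ)} {r : (ι → ℝ) → ℝ}
    (h : RC C v γs i0 i1 w κ B D r) (hD : D' ⊆ D) : RC C v γs i0 i1 w κ B D' r := by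
  obtain ⟨r', p, q, h1, h2⟩ := h.cert
  refine ⟨r', p, q, fun x hx => h1 x (hD hx), ?_⟩
  filter_upwards [h2] with o ho x hx
  exact ho x (hD hx)

theorem supw_acc (C : Calc M γ) {ι : Type*} (γs : ι → Om → ℝ) (g : M → ℝ) (s : ℝ) :
    (fun i => supw C g (γs i) s) = acc C γs {o | s < |g (C.pt o)|} := rfl

variable {ι : Type*} [Fintype ι]

/-- between two levels -/
theorem level_r [CompactSpace M] (C : Calc M γ) (hγ : Bd γ) (hR : RegAE C) {v : Fin 3 → M → ℝ}
    (hv : Sph γ v) {g : M → ℝ} (hg : Lip g) (og : EWD.OddB γ g) {κ κ' ε a₀ : ℝ}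
    (hI : IsopO C κ ε) (hκ : ∀ a, a₀ ≤ a → κ' * a ≤ κ * (a - ε))
    {γs : ι → Om → ℝ} (hγs : ∀ i, Integrable (γs i) C.μ) {i0 i1 : ι}
    (h0 : γs i0 = fun _ => 1) (h1 : γs i1 = jac C v) {w : Om → ℝ} (hw : Integrable w C.μ)
    (w0 : ∀ᵐ o ∂C.μ, 0 ≤ w o) {N B : ℝ} (wN : ∀ᵐ o ∂C.μ, w o ≤ N) (hB : 0 ≤ B)
    {D : Set (ι → ℝ)} (hD : Convex ℝ D) {r : (ι → ℝ) → ℝ} (h : RC C v γs i0 i1 w κ' B D r)
    {t₀ t₁ : ℝ} (ht0 : 0 ≤ t₀) (ht : t₀ ≤ t₁)
    (hF : ∀ s, t₀ ≤ s → s ≤ t₁ → (fun i => supw C g (γs i) s) ∈ D)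
    (ha : ∀ s, t₀ < s → s < t₁ → a₀ ≤ supa C g s) :
    ∫ o in {o | t₀ < |g (C.pt o)| ∧ |g (C.pt o)| ≤ t₁}, (w o * g (C.pt o) ^ 2 - gn C g o ^ 2) ∂C.μ ≤
      t₀ ^ 2 * r (fun i => supw C g (γs i) t₀) - t₁ ^ 2 * r (fun i => supw C g (γs i) t₁) := by
  have := C.fin
  have hpi := Real.pi_pos
  obtain ⟨r', p, q, hx, hpt⟩ := h.cert
  have ht1 : 0 ≤ t₁ := ht0.trans ht
  set S : ℝ → (ι → ℝ) → ℝ := fun s x => -(s ^ 2 * r x) with hS
  set S' : ℝ → (ι → ℝ) → (ℝ × (ι → ℝ)) →L[ℝ] ℝ := fun s x =>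
    -((2 * s * r x) • ContinuousLinearMap.fst ℝ ℝ (ι → ℝ) +
      (s ^ 2) • (r' x).comp (ContinuousLinearMap.snd ℝ ℝ (ι → ℝ))) with hS'
  have S1 : ∀ s x, S' s x (1, 0) = -2 * s * r x := fun s x => by
    simp only [hS', neg_apply, add_apply,
      smul_apply, ContinuousLinearMap.coe_fst', ContinuousLinearMap.comp_apply,
      ContinuousLinearMap.coe_snd', map_zero, smul_eq_mul]
    ring
  have S2 : ∀ s x y, S' s x (0, y) = -(s ^ 2 * r' x y) := fun s x y => by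
    simp only [hS', neg_apply, add_apply,
      smul_apply, ContinuousLinearMap.coe_fst', ContinuousLinearMap.comp_apply,
      ContinuousLinearMap.coe_snd', smul_eq_mul]
    ring
  have hSd : ∀ s x, x ∈ D → HasFDerivAt (fun z : ℝ × (ι → ℝ) => S z.1 z.2) (S' s x) (s, x) := by
    intro s x hxD
    have e0 : HasFDerivAt (fun z : ℝ × (ι → ℝ) => z.1)
        (ContinuousLinearMap.fst ℝ ℝ (ι → ℝ)) (s, x) := hasFDerivAt_fst
    have e1 : HasFDerivAt (fun z : ℝ × (ι → ℝ) => r z.2)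
        ((r' x).comp (ContinuousLinearMap.snd ℝ ℝ (ι → ℝ))) (s, x) :=
      HasFDerivAt.comp (s, x) (hx x hxD).1 hasFDerivAt_snd
    have e2 := ((e0.pow 2).mul e1).neg
    refine e2.congr_fderiv ?_
    refine ContinuousLinearMap.ext fun z => ?_
    simp [hS']
    ring
  have i4 : Integrable (fun o => min |g (C.pt o)| t₁ ^ 2 * w o) C.μ := by
    refine hw.bdd_mul (c := t₁ ^ 2) ?_ (ae_of_all _ fun o => ?_)
    · exact (((aem_pt C (lip_abs hg)).min aemeasurable_const).pow_const 2).aestronglyMeasurable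
    · rw [Real.norm_eq_abs, abs_pow, abs_of_nonneg (le_min (abs_nonneg _) ht1)]
      exact pow_le_pow_left₀ (le_min (abs_nonneg _) ht1) (min_le_right _ _) 2
  set pot : Om → ℝ := fun o => -(min |g (C.pt o)| t₁ ^ 2 * w o) with hpot
  set L : ℝ := 2 * t₁ * B + max N 0 * (2 * t₁) with hL
  have hN0 : 0 ≤ max N 0 := le_max_right _ _
  have hL1 : 2 * t₁ * B ≤ L := by
    rw [hL]
    have : 0 ≤ max N 0 * (2 * t₁) := by positivity
    linarith
  have hL2 : max N 0 * (2 * t₁) ≤ L := by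
    rw [hL]
    have : 0 ≤ 2 * t₁ * B := by positivity
    linarith
  have hL0 : 0 ≤ L := by positivity
  have hmain := odd_hj2 C hγ hR hv hg og hI (γs := γs) hγs (i0 := i0) (i1 := i1) h0 h1
    (pot := pot) i4.neg (c := 1) (r0 := -t₁) (r1 := -t₀) (L := L) one_pos (by linarith)
    (by linarith) hL0 hD (S := S) (S' := S')
    (fun s a b => by
      have e : (fun i => nlev C g (γs i) s) = fun i => supw C g (γs i) (-s) :=
        funext fun i => nlev_supw C g (γs i) s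
      rw [e]
      exact hF (-s) (by linarith) (by linarith))
    (fun s x _ _ hxD => hSd s x hxD)
    (fun s x a b hxD => by
      rw [S1]
      have h2 := (hx x hxD).2.2.2.1
      have h3 : 0 ≤ -2 * s := by linarith
      have h4 : -2 * s * r x ≤ -2 * s * B := mul_le_mul_of_nonneg_left h2 h3
      have h5 : -2 * s * B ≤ 2 * t₁ * B := mul_le_mul_of_nonneg_right (by linarith) hB
      linarith)
    (by
      filter_upwards [hpt, w0, wN] with o ho hw0 hwN s x hs hxD h2 h3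
      rw [S2]
      have h4 := ho x hxD
      have h5 := sq_nonneg (p x + q x * opn C v o)
      have h6 : s ^ 2 * w o ≤ s ^ 2 * r' x (fun i => γs i o) :=
        mul_le_mul_of_nonneg_left (by linarith) (sq_nonneg s)
      have hc0 : 0 ≤ |g (C.pt o)| := abs_nonneg _
      have hct : |g (C.pt o)| ≤ t₁ := by linarith
      have e7 : pot o = -(|g (C.pt o)| ^ 2 * w o) := by
        rw [hpot]
        simp only [min_eq_left hct]
      rw [e7]
      have h11 : w o * (|g (C.pt o)| ^ 2 - s ^ 2) ≤ L * (s + |g (C.pt o)|) := by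
        have e1 : |g (C.pt o)| ^ 2 - s ^ 2 = (|g (C.pt o)| - s) * (s + |g (C.pt o)|) := by ring
        have hs' : 0 ≤ s + |g (C.pt o)| := by linarith
        have h12 : w o * (|g (C.pt o)| - s) ≤ max N 0 * (2 * t₁) := by
          have h13 : w o ≤ max N 0 := hwN.trans (le_max_left _ _)
          exact mul_le_mul h13 (by linarith) (by linarith) hN0
        rw [e1]
        calc w o * ((|g (C.pt o)| - s) * (s + |g (C.pt o)|))
            = (w o * (|g (C.pt o)| - s)) * (s + |g (C.pt o)|) := by ring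
          _ ≤ L * (s + |g (C.pt o)|) := mul_le_mul_of_nonneg_right (h12.trans hL2) hs'
      linarith)
    (by
      refine ae_of_all _ fun s h2 h3 l V hl hV hl2 hV2 => ?_
      have e : (fun i => nlev C g (γs i) s) = fun i => supw C g (γs i) (-s) :=
        funext fun i => nlev_supw C g (γs i) s
      set x : ι → ℝ := fun i => nlev C g (γs i) s with hxd
      have hxD : x ∈ D := by
        rw [e]
        exact hF (-s) (by linarith) (by linarith)
      obtain ⟨-, hp, hq, -, hlen⟩ := hx x hxD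
      have hs0 : 0 ≤ -2 * s := by linarith
      have hx0 : x i0 = supa C g (-s) := by
        change nlev C g (γs i0) s = _
        rw [h0, nlev_supw]
        unfold supw supa
        simp [Measure.real]
      have h4 : √(κ' * x i0) ≤ l := by
        rw [← Real.sqrt_sq hl]
        refine Real.sqrt_le_sqrt (le_trans (hκ _ ?_) hl2)
        rw [hx0]
        exact ha (-s) (by linarith) (by linarith)
      have h5 : √(|x i1| * (4 * Real.pi - |x i1|)) ≤ V := by
        rw [← Real.sqrt_sq hV]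
        exact Real.sqrt_le_sqrt hV2
      refine ⟨-2 * s * p x, -2 * s * q x, mul_nonneg hs0 hp, mul_nonneg hs0 hq, ?_, 1, one_pos, ?_⟩
      · rw [S1]
        have h6 : r x ≤ p x * l + q x * V := by
          have h7 := mul_le_mul_of_nonneg_left h4 hp
          have h8 := mul_le_mul_of_nonneg_left h5 hq
          linarith
        calc -2 * s * r x ≤ -2 * s * (p x * l + q x * V) := mul_le_mul_of_nonneg_left h6 hs0
          _ = _ := by ring
      · filter_upwards [hpt, w0] with o ho hw0 h6 h7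
        rw [S2]
        have h8 := ho x hxD
        have hc0 : 0 ≤ |g (C.pt o)| := abs_nonneg _
        have hct : |g (C.pt o)| ≤ -s := by linarith
        have h9 : min |g (C.pt o)| t₁ ^ 2 ≤ s ^ 2 := by
          have h10 : 0 ≤ min |g (C.pt o)| t₁ := le_min hc0 ht1
          have h11 : min |g (C.pt o)| t₁ ≤ -s := (min_le_left _ _).trans hct
          nlinarith
        have h10 : min |g (C.pt o)| t₁ ^ 2 * w o ≤ s ^ 2 * w o := mul_le_mul_of_nonneg_right h9 hw0
        have h11 : s ^ 2 * (w o + (p x + q x * opn C v o) ^ 2) ≤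
            s ^ 2 * r' x (fun i => γs i o) := mul_le_mul_of_nonneg_left h8 (sq_nonneg s)
        have h12 : 0 ≤ L * (-|g (C.pt o)| - s) := mul_nonneg hL0 (by linarith)
        have e3 : (-2 * s * p x + -2 * s * q x * opn C v o) ^ 2 =
            4 * (s ^ 2 * (p x + q x * opn C v o) ^ 2) := by ring
        rw [e3]
        change _ ≤ 4 * 1 * (-(min |g (C.pt o)| t₁ ^ 2 * w o) - -(s ^ 2 * r' x fun i => γs i o) + _)
        nlinarith)
  have iG := int_gn_sq C hg
  have e1 : {o | -t₁ ≤ -|g (C.pt o)| ∧ -|g (C.pt o)| < -t₀} =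
      {o | t₀ < |g (C.pt o)| ∧ |g (C.pt o)| ≤ t₁} := by
    ext o
    constructor
    · rintro ⟨a, b⟩
      exact ⟨by linarith, by linarith⟩
    · rintro ⟨a, b⟩
      exact ⟨by linarith, by linarith⟩
  rw [e1] at hmain
  have mT : NullMeasurableSet {o | t₀ < |g (C.pt o)| ∧ |g (C.pt o)| ≤ t₁} C.μ := by
    have h2 := (meas_abs_lt C hg t₀).diff (meas_abs_lt C hg t₁)
    have e2 : {o | t₀ < |g (C.pt o)| ∧ |g (C.pt o)| ≤ t₁} =
        {o | t₀ < |g (C.pt o)|} \ {o | t₁ < |g (C.pt o)|} := by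
      ext o
      simp only [mem_ofPred_eq, Set.mem_sdiff, not_lt]
    rw [e2]
    exact h2
  have e2 : ∫ o in {o | t₀ < |g (C.pt o)| ∧ |g (C.pt o)| ≤ t₁},
      (w o * g (C.pt o) ^ 2 - gn C g o ^ 2) ∂C.μ =
      -∫ o in {o | t₀ < |g (C.pt o)| ∧ |g (C.pt o)| ≤ t₁}, (pot o + 1 * gn C g o ^ 2) ∂C.μ := by
    rw [← integral_neg]
    rw [← integral_indicator₀ mT, ← integral_indicator₀ mT]
    refine integral_congr_ae (ae_of_all _ fun o => ?_)
    by_cases hT : o ∈ {o | t₀ < |g (C.pt o)| ∧ |g (C.pt o)| ≤ t₁}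
    · rw [indicator_of_mem hT, indicator_of_mem hT]
      have h3 : min |g (C.pt o)| t₁ = |g (C.pt o)| := min_eq_left hT.2
      simp only [hpot, h3, sq_abs]
      ring
    · rw [indicator_of_notMem hT, indicator_of_notMem hT]
  have e3 : ∀ s, (fun i => nlev C g (γs i) (-s)) = fun i => supw C g (γs i) s := fun s =>
    funext fun i => by rw [nlev_supw, neg_neg]
  rw [e3, e3] at hmain
  rw [e2]
  have e4 : S (-t₀) (fun i => supw C g (γs i) t₀) = -(t₀ ^ 2 * r (fun i => supw C g (γs i) t₀)) := by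
    simp only [hS, neg_sq]
  have e5 : S (-t₁) (fun i => supw C g (γs i) t₁) = -(t₁ ^ 2 * r (fun i => supw C g (γs i) t₁)) := by
    simp only [hS, neg_sq]
  rw [e4, e5] at hmain
  linarith

/-- splitting an integral over a superlevel set -/
theorem level_split (C : Calc M γ) {g : M → ℝ} (hg : Lip g) {F : Om → ℝ} (hF : Integrable F C.μ)
    {s t : ℝ} (hst : s ≤ t) : ∫ o in {o | s < |g (C.pt o)|}, F o ∂C.μ =
      (∫ o in {o | s < |g (C.pt o)| ∧ |g (C.pt o)| ≤ t}, F o ∂C.μ) +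
        ∫ o in {o | t < |g (C.pt o)|}, F o ∂C.μ := by
  have m1 := meas_abs_lt C hg s
  have m2 := meas_abs_lt C hg t
  have e1 : {o | s < |g (C.pt o)| ∧ |g (C.pt o)| ≤ t} =
      {o | s < |g (C.pt o)|} \ {o | t < |g (C.pt o)|} := by
    ext o
    simp only [mem_ofPred_eq, Set.mem_sdiff, not_lt]
  have m3 : NullMeasurableSet {o | s < |g (C.pt o)| ∧ |g (C.pt o)| ≤ t} C.μ := by
    rw [e1]
    exact m1.diff m2
  rw [← integral_indicator₀ m1, ← integral_indicator₀ m2, ← integral_indicator₀ m3,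
    ← integral_add (hF.indicator₀ m3) (hF.indicator₀ m2)]
  refine integral_congr_ae (ae_of_all _ fun o => ?_)
  by_cases h1 : s < |g (C.pt o)|
  · by_cases h2 : t < |g (C.pt o)|
    · simp [indicator, h1, h2, not_le.2 h2]
    · simp [indicator, h1, h2, not_lt.1 h2]
  · have h2 : ¬ t < |g (C.pt o)| := fun h => h1 (hst.trans_lt h)
    simp [indicator, h1, h2]

/-- the inner inequality -/
theorem inner_r [CompactSpace M] (C : Calc M γ) (hγ : Bd γ) (hR : RegAE C) {v : Fin 3 → M → ℝ}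
    (hv : Sph γ v) {g : M → ℝ} (hg : Lip g) (og : EWD.OddB γ g) {κ κ' ε a₀ : ℝ}
    (hI : IsopO C κ ε) (hκ : ∀ a, a₀ ≤ a → κ' * a ≤ κ * (a - ε)) (ha0 : 0 < a₀)
    {γs : ι → Om → ℝ} (hγs : ∀ i, Integrable (γs i) C.μ) {i0 i1 : ι}
    (h0 : γs i0 = fun _ => 1) (h1 : γs i1 = jac C v) {w : Om → ℝ} (hw : Integrable w C.μ)
    (w0 : ∀ᵐ o ∂C.μ, 0 ≤ w o) {N B : ℝ} (hN : 0 ≤ N) (wN : ∀ᵐ o ∂C.μ, w o ≤ N) (hB : 0 ≤ B)
    {D : Set (ι → ℝ)} (hD : Convex ℝ D) {r : (ι → ℝ) → ℝ} (h : RC C v γs i0 i1 w κ' B D r)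
    (hr : ∀ x ∈ D, 0 ≤ r x) {R : ℝ} (gR : ∀ᵐ o ∂C.μ, |g (C.pt o)| ≤ R)
    {t : ℝ} (ht0 : 0 ≤ t) (hF : ∀ s, t ≤ s → (fun i => supw C g (γs i) s) ∈ D) :
    ∫ o in {o | t < |g (C.pt o)|}, (w o * g (C.pt o) ^ 2 - gn C g o ^ 2) ∂C.μ ≤
      t ^ 2 * r (fun i => supw C g (γs i) t) + N * a₀ * R ^ 2 := by
  have := C.fin
  have iw : Integrable (fun o => w o * g (C.pt o) ^ 2) C.μ := by
    have h3 : Integrable (fun o => g (C.pt o) ^ 2 * w o) C.μ := by
      refine hw.bdd_mul (c := R ^ 2) ((aem_pt C hg).pow_const 2).aestronglyMeasurable ?_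
      filter_upwards [gR] with o ho
      rw [Real.norm_eq_abs, abs_pow]
      exact pow_le_pow_left₀ (abs_nonneg _) ho 2
    exact h3.congr (ae_of_all _ fun o => mul_comm _ _)
  have iF : Integrable (fun o => w o * g (C.pt o) ^ 2 - gn C g o ^ 2) C.μ :=
    iw.sub (int_gn_sq C hg)
  have htop : ∀ s, supa C g s ≤ a₀ → ∫ o in {o | s < |g (C.pt o)|},
      (w o * g (C.pt o) ^ 2 - gn C g o ^ 2) ∂C.μ ≤ N * a₀ * R ^ 2 := by
    intro s hs
    have h2 : ∫ o in {o | s < |g (C.pt o)|}, (w o * g (C.pt o) ^ 2 - gn C g o ^ 2) ∂C.μ ≤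
        ∫ _ in {o | s < |g (C.pt o)|}, N * R ^ 2 ∂C.μ := by
      refine setIntegral_mono_ae iF.integrableOn (integrable_const _).integrableOn ?_
      filter_upwards [gR, w0, wN] with o h3 h4 h5
      have h6 : g (C.pt o) ^ 2 ≤ R ^ 2 := by
        rw [← sq_abs (g (C.pt o))]
        exact pow_le_pow_left₀ (abs_nonneg _) h3 2
      have h7 : w o * g (C.pt o) ^ 2 ≤ N * R ^ 2 := mul_le_mul h5 h6 (sq_nonneg _) hN
      have h8 := sq_nonneg (gn C g o)
      linarith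
    rw [setIntegral_const, smul_eq_mul] at h2
    have h3 : C.μ.real {o | s < |g (C.pt o)|} = supa C g s := rfl
    rw [h3] at h2
    have h4 : supa C g s * (N * R ^ 2) ≤ a₀ * (N * R ^ 2) :=
      mul_le_mul_of_nonneg_right hs (by positivity)
    linarith
  have hr0 := hr _ (hF t le_rfl)
  rcases le_or_gt (supa C g t) a₀ with h2 | h2
  · have := htop t h2
    have : 0 ≤ t ^ 2 * r (fun i => supw C g (γs i) t) := by positivity
    linarith
  · obtain ⟨T, T0, TR, hT1, hT2⟩ := crossing C gR ha0 (h2.le.trans (supa_anti C g ht0))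
    have htT : t ≤ T := by
      by_contra hc
      have := supa_anti C g (not_le.1 hc).le
      linarith
    have h3 := level_r C hγ hR hv hg og hI hκ hγs h0 h1 hw w0 wN hB hD h ht0 htT
      (fun s a _ => hF s a) (fun s a b => hT2 s (ht0.trans a.le) b)
    have h4 := htop T hT1
    have h5 := hr _ (hF T htT)
    have h6 : 0 ≤ T ^ 2 * r (fun i => supw C g (γs i) T) := by positivity
    rw [level_split C hg iF htT]
    linarith

/-- a linear map of the accounts -/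
theorem map_acc (C : Calc M γ) {γs : ι → Om → ℝ} (hγs : ∀ i, Integrable (γs i) C.μ)
    (L : (ι → ℝ) →L[ℝ] ℝ) (T : Set Om) : L (acc C γs T) = ∫ o in T, L (fun i => γs i o) ∂C.μ := by
  classical
  have e : ∀ y : ι → ℝ, L y = ∑ i, y i * L (fun j => if i = j then 1 else 0) := fun y => by
    have := LinearMap.pi_apply_eq_sum_univ L.toLinearMap y
    simpa [smul_eq_mul] using this
  rw [e]
  have e2 : (fun o => L (fun i => γs i o)) =
      fun o => ∑ i, γs i o * L (fun j => if i = j then 1 else 0) := funext fun o => e _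
  rw [show (∫ o in T, L (fun i => γs i o) ∂C.μ) =
    ∫ o in T, ∑ i, γs i o * L (fun j => if i = j then 1 else 0) ∂C.μ from by rw [e2]]
  rw [integral_finsetSum _ fun i _ => ((hγs i).integrableOn).mul_const _]
  refine Finset.sum_congr rfl fun i _ => ?_
  rw [integral_mul_const]
  rfl

/-- growth of a certificate along a set -/
theorem RC.grow {C : Calc M γ} {v : Fin 3 → M → ℝ} {γs : ι → Om → ℝ}
    (hγs : ∀ i, Integrable (γs i) C.μ) {i0 i1 : ι} {w : Om → ℝ} (hw : Integrable w C.μ) {κ B : ℝ}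
    {D : Set (ι → ℝ)} (hD : Convex ℝ D) {r : (ι → ℝ) → ℝ} (h : RC C v γs i0 i1 w κ B D r)
    {x y : ι → ℝ} (hx : x ∈ D) (hy : y ∈ D) {c : ℝ} (hc : 0 ≤ c) {P : Set Om}
    (hxy : y - x = c • acc C γs P) : r x + c * ∫ o in P, w o ∂C.μ ≤ r y := by
  obtain ⟨r', p, q, h1, h2⟩ := h.cert
  set m := c * ∫ o in P, w o ∂C.μ with hm
  have hz : ∀ τ ∈ Icc (0 : ℝ) 1, x + τ • (y - x) ∈ D := fun τ hτ =>
    hD.add_smul_sub_mem hx hy hτ
  have hd : ∀ τ ∈ Icc (0 : ℝ) 1, HasDerivAt (fun τ : ℝ => r (x + τ • (y - x)) - τ * m)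
      (r' (x + τ • (y - x)) (y - x) - m) τ := by
    intro τ hτ
    have h3 : HasDerivAt (fun τ : ℝ => x + τ • (y - x)) ((1 : ℝ) • (y - x)) τ :=
      ((hasDerivAt_id τ).smul_const (y - x)).const_add x
    rw [one_smul] at h3
    have h4 := (h1 _ (hz τ hτ)).1.comp_hasDerivAt τ h3
    have h5 := (hasDerivAt_id τ).mul_const m
    rw [one_mul] at h5
    exact h4.sub h5
  have hpos : ∀ τ ∈ Icc (0 : ℝ) 1, 0 ≤ r' (x + τ • (y - x)) (y - x) - m := by
    intro τ hτ
    rw [hxy, map_smul, smul_eq_mul, map_acc C hγs, hm, ← mul_sub]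
    refine mul_nonneg hc (sub_nonneg.2 ?_)
    have iL : Integrable (fun o => r' (x + τ • (c • acc C γs P)) (fun i => γs i o)) C.μ := by
      classical
      have e : ∀ y : ι → ℝ, r' (x + τ • (c • acc C γs P)) y =
          ∑ i, y i * r' (x + τ • (c • acc C γs P)) (fun j => if i = j then 1 else 0) := fun y => by
        have := LinearMap.pi_apply_eq_sum_univ (r' (x + τ • (c • acc C γs P))).toLinearMap y
        simpa [smul_eq_mul] using this
      have e2 : (fun o => r' (x + τ • (c • acc C γs P)) (fun i => γs i o)) = fun o =>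
          ∑ i, γs i o * r' (x + τ • (c • acc C γs P)) (fun j => if i = j then 1 else 0) :=
        funext fun o => e _
      rw [e2]
      exact integrable_finsetSum _ fun i _ => (hγs i).mul_const _
    refine setIntegral_mono_ae hw.integrableOn iL.integrableOn ?_
    filter_upwards [h2] with o ho
    have h3 := ho (x + τ • (c • acc C γs P)) (by rw [← hxy]; exact hz τ hτ)
    have h4 := sq_nonneg (p (x + τ • (c • acc C γs P)) + q (x + τ • (c • acc C γs P)) * opn C v o)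
    linarith
  have hmono : MonotoneOn (fun τ : ℝ => r (x + τ • (y - x)) - τ * m) (Icc 0 1) := by
    refine monotoneOn_of_deriv_nonneg (convex_Icc _ _) ?_ ?_ ?_
    · intro τ hτ
      exact (hd τ hτ).continuousAt.continuousWithinAt
    · intro τ hτ
      rw [interior_Icc] at hτ
      exact (hd τ ⟨hτ.1.le, hτ.2.le⟩).differentiableAt.differentiableWithinAt
    · intro τ hτ
      rw [interior_Icc] at hτ
      rw [(hd τ ⟨hτ.1.le, hτ.2.le⟩).deriv]
      exact hpos τ ⟨hτ.1.le, hτ.2.le⟩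
  have h3 := hmono (left_mem_Icc.2 zero_le_one) (right_mem_Icc.2 zero_le_one) zero_le_one
  simp only [zero_smul, add_zero, zero_mul, sub_zero, one_smul, add_sub_cancel, one_mul] at h3
  linarith

/-- **Weighted Hardy inequality from certificate functions.** An outer certificate `ro` on the sets of
area at least `a₁`, and for every state `x` of area `a₁` an inner certificate `ri` on the sets of area
at most `a₁` with `ri x ≤ ro x`. -/
theorem hardy_r [CompactSpace M] (C : Calc M γ) (hγ : Bd γ) (hR : RegAE C) {v : Fin 3 → M → ℝ}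
    (hv : Sph γ v) {κ κ' ε a₀ a₁ : ℝ}
    (hI : IsopO C κ ε) (hκ : ∀ a, a₀ ≤ a → κ' * a ≤ κ * (a - ε)) (ha0 : 0 < a₀) (ha1 : 0 < a₁)
    {γs : ι → Om → ℝ} (hγs : ∀ i, Integrable (γs i) C.μ) {i0 i1 : ι}
    (h0 : γs i0 = fun _ => 1) (h1 : γs i1 = jac C v) {w : Om → ℝ} (hw : Integrable w C.μ)
    (w0 : ∀ᵐ o ∂C.μ, 0 ≤ w o) {N B : ℝ} (hN : 0 ≤ N) (wN : ∀ᵐ o ∂C.μ, w o ≤ N) (hB : 0 ≤ B)
    {Z : Set (ι → ℝ)} (cZ : Convex ℝ Z) (hZ : ∀ T, NullMeasurableSet T C.μ → acc C γs T ∈ Z)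
    {ro : (ι → ℝ) → ℝ} (hout : RC C v γs i0 i1 w κ' B (Z ∩ {x | a₁ ≤ x i0}) ro)
    (ha01 : a₀ ≤ a₁)
    (hin0 : ∃ ri, RC C v γs i0 i1 w κ' B (Z ∩ {x | x i0 ≤ a₁}) ri ∧
      ∀ y ∈ Z, y i0 ≤ a₁ → 0 ≤ ri y)
    (hin : ∀ x ∈ Z, x i0 = a₁ → ∃ ri, RC C v γs i0 i1 w κ' B (Z ∩ {x | x i0 ≤ a₁}) ri ∧
      (∀ y ∈ Z, y i0 ≤ a₁ → 0 ≤ ri y) ∧ ri x ≤ ro x)
    {g : M → ℝ} (hg : Lip g) (og : EWD.OddB γ g) {R : ℝ}
    (gR : ∀ᵐ o ∂C.μ, |g (C.pt o)| ≤ R) :
    ∫ o, w o * g (C.pt o) ^ 2 ∂C.μ ≤ ∫ o, gn C g o ^ 2 ∂C.μ + N * a₀ * R ^ 2 := by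
  have := C.fin
  have iw : Integrable (fun o => w o * g (C.pt o) ^ 2) C.μ := by
    have h3 : Integrable (fun o => g (C.pt o) ^ 2 * w o) C.μ := by
      refine hw.bdd_mul (c := R ^ 2) ((aem_pt C hg).pow_const 2).aestronglyMeasurable ?_
      filter_upwards [gR] with o ho
      rw [Real.norm_eq_abs, abs_pow]
      exact pow_le_pow_left₀ (abs_nonneg _) ho 2
    exact h3.congr (ae_of_all _ fun o => mul_comm _ _)
  have iG := int_gn_sq C hg
  set F : Om → ℝ := fun o => w o * g (C.pt o) ^ 2 - gn C g o ^ 2 with hFd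
  have iF : Integrable F C.μ := iw.sub iG
  -- reduction to the superlevel set of `0`
  have hred : ∫ o, F o ∂C.μ ≤ ∫ o in {o | 0 < |g (C.pt o)|}, F o ∂C.μ := by
    have h2 := integral_add_compl₀ (meas_abs_lt C hg 0) iF
    have h3 : ∫ o in {o | 0 < |g (C.pt o)|}ᶜ, F o ∂C.μ ≤ 0 := by
      refine integral_nonpos_of_ae ?_
      have m1 := (meas_abs_lt C hg 0).compl
      filter_upwards [ae_restrict_mem₀ m1] with o ho
      have h4 : |g (C.pt o)| = 0 := le_antisymm (not_lt.1 ho) (abs_nonneg _)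
      have h5 : g (C.pt o) = 0 := abs_eq_zero.1 h4
      change w o * g (C.pt o) ^ 2 - gn C g o ^ 2 ≤ 0
      have h6 := sq_nonneg (gn C g o)
      have h7 : w o * g (C.pt o) ^ 2 = 0 := by
        rw [h5]
        ring
      linarith
    linarith
  have hFe : ∫ o, F o ∂C.μ = ∫ o, w o * g (C.pt o) ^ 2 ∂C.μ - ∫ o, gn C g o ^ 2 ∂C.μ :=
    integral_sub iw iG
  suffices hs : ∫ o in {o | 0 < |g (C.pt o)|}, F o ∂C.μ ≤ N * a₀ * R ^ 2 by linarith
  have hlin : IsLinearMap ℝ fun x : ι → ℝ => x i0 := ⟨fun _ _ => rfl, fun _ _ => rfl⟩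
  have cin : Convex ℝ (Z ∩ {x : ι → ℝ | x i0 ≤ a₁}) := cZ.inter (convex_halfSpace_le hlin a₁)
  have cout : Convex ℝ (Z ∩ {x : ι → ℝ | a₁ ≤ x i0}) := cZ.inter (convex_halfSpace_ge hlin a₁)
  have hacc : ∀ T : Set Om, acc C γs T i0 = C.μ.real T := fun T => by
    change ∫ o in T, γs i0 o ∂C.μ = _
    rw [h0]
    simp
  have hsupa : ∀ s, acc C γs {o | s < |g (C.pt o)|} i0 = supa C g s := fun s => hacc _
  rcases lt_or_ge (supa C g 0) a₁ with h2 | h2
  · obtain ⟨ri, hri, hr0⟩ := hin0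
    have h3 := inner_r C hγ hR hv hg og hI hκ ha0 hγs h0 h1 hw w0 hN wN hB cin hri
      (fun x hx => hr0 x hx.1 hx.2) gR le_rfl fun s hs => by
        rw [supw_acc]
        refine ⟨hZ _ (meas_abs_lt C hg s), ?_⟩
        change acc C γs _ i0 ≤ a₁
        rw [hsupa]
        exact (supa_anti C g hs).trans h2.le
    have e : (0 : ℝ) ^ 2 * ri (fun i => supw C g (γs i) 0) = 0 := by ring
    rw [e, zero_add] at h3
    exact h3
  obtain ⟨t, t0, tR, hta, htb⟩ := crossing C gR ha1 h2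
  set xt := acc C γs {o | t < |g (C.pt o)|} with hxt
  have hxtZ : xt ∈ Z := hZ _ (meas_abs_lt C hg t)
  have hxt0 : xt i0 ≤ a₁ := by
    rw [hxt, hsupa]
    exact hta
  have hinner : ∀ ri, RC C v γs i0 i1 w κ' B (Z ∩ {x | x i0 ≤ a₁}) ri →
      (∀ y ∈ Z, y i0 ≤ a₁ → 0 ≤ ri y) →
      ∫ o in {o | t < |g (C.pt o)|}, F o ∂C.μ ≤ t ^ 2 * ri xt + N * a₀ * R ^ 2 := by
    intro ri hri hr0
    exact inner_r C hγ hR hv hg og hI hκ ha0 hγs h0 h1 hw w0 hN wN hB cin hri
      (fun x hx => hr0 x hx.1 hx.2) gR t0 fun s hs => by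
        rw [supw_acc]
        refine ⟨hZ _ (meas_abs_lt C hg s), ?_⟩
        change acc C γs _ i0 ≤ a₁
        rw [hsupa]
        exact (supa_anti C g hs).trans hta
  rcases t0.eq_or_lt with ht | ht
  · obtain ⟨ri, hri, hr0⟩ := hin0
    have h3 := hinner ri hri hr0
    rw [← ht] at h3
    have e : (0 : ℝ) ^ 2 * ri xt = 0 := by ring
    rw [e, zero_add] at h3
    exact h3
  -- the step at a level `s < t`
  have step : ∀ s, 0 ≤ s → s < t → ∫ o in {o | 0 < |g (C.pt o)|}, F o ∂C.μ ≤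
      (t ^ 2 - s ^ 2) * B + N * a₀ * R ^ 2 := by
    intro s s0 hst
    set xs := acc C γs {o | s < |g (C.pt o)|} with hxs
    set P : Set Om := {o | s < |g (C.pt o)| ∧ |g (C.pt o)| ≤ t} with hP
    have hxsZ : xs ∈ Z := hZ _ (meas_abs_lt C hg s)
    have hxs0 : a₁ ≤ xs i0 := by
      rw [hxs, hsupa]
      exact htb s s0 hst
    have hdiff : xs - xt = acc C γs P := by
      funext i
      have h3 := level_split C hg (hγs i) hst.le
      change (∫ o in {o | s < |g (C.pt o)|}, γs i o ∂C.μ) -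
        ∫ o in {o | t < |g (C.pt o)|}, γs i o ∂C.μ = ∫ o in P, γs i o ∂C.μ
      linarith
    -- the intermediate point
    obtain ⟨θ, hθ0, hθ1, hθ⟩ : ∃ θ : ℝ, 0 ≤ θ ∧ θ ≤ 1 ∧ xt i0 + θ * (xs i0 - xt i0) = a₁ := by
      rcases (hxt0.trans hxs0).eq_or_lt with h3 | h3
      · exact ⟨0, le_rfl, zero_le_one, by linarith⟩
      · have h4 : 0 < xs i0 - xt i0 := by linarith
        refine ⟨(a₁ - xt i0) / (xs i0 - xt i0), div_nonneg (by linarith) h4.le,
          (div_le_one h4).2 (by linarith), ?_⟩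
        rw [div_mul_cancel₀ _ h4.ne']
        linarith
    set xm := xt + θ • (xs - xt) with hxm
    have hxmZ : xm ∈ Z := cZ.add_smul_sub_mem hxtZ hxsZ ⟨hθ0, hθ1⟩
    have hxm0 : xm i0 = a₁ := by
      rw [hxm]
      simpa [smul_eq_mul] using hθ
    obtain ⟨ri, hri, hr0, hle⟩ := hin xm hxmZ hxm0
    set W := ∫ o in P, w o ∂C.μ with hW
    have g1 : ri xt + θ * W ≤ ri xm := hri.grow hγs hw cin ⟨hxtZ, hxt0⟩
      ⟨hxmZ, hxm0.le⟩ hθ0 (by rw [hxm, add_sub_cancel_left, hdiff])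
    have g2 : ro xm + (1 - θ) * W ≤ ro xs := hout.grow hγs hw cout
      ⟨hxmZ, hxm0.ge⟩ ⟨hxsZ, hxs0⟩ (by linarith) (by
        rw [hxm, ← hdiff, sub_smul, one_smul]
        abel)
    have g3 : ri xt + W ≤ ro xs := by linarith
    have g4 : ro xs ≤ B := by
      obtain ⟨r', p, q, k1, -⟩ := hout.cert
      exact (k1 xs ⟨hxsZ, hxs0⟩).2.2.2.1
    have k1 := hinner ri hri hr0
    have k2 := level_r C hγ hR hv hg og hI hκ hγs h0 h1 hw w0 wN hB cout hout le_rfl s0
      (fun s' a b => by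
        rw [supw_acc]
        refine ⟨hZ _ (meas_abs_lt C hg s'), ?_⟩
        change a₁ ≤ acc C γs _ i0
        rw [hsupa]
        exact htb s' a (b.trans_lt hst))
      (fun s' a b => ha01.trans (htb s' a.le (b.trans hst)))
    have e : (0 : ℝ) ^ 2 * ro (fun i => supw C g (γs i) 0) = 0 := by ring
    rw [e, zero_sub] at k2
    have k3 : ∫ o in P, F o ∂C.μ ≤ t ^ 2 * W := by
      rw [hW, ← integral_const_mul]
      have mP : NullMeasurableSet P C.μ := by
        have e1 : P = {o | s < |g (C.pt o)|} \ {o | t < |g (C.pt o)|} := by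
          ext o
          simp only [hP, mem_ofPred_eq, Set.mem_sdiff, not_lt]
        rw [e1]
        exact (meas_abs_lt C hg s).diff (meas_abs_lt C hg t)
      refine integral_mono_ae iF.integrableOn (hw.const_mul _).integrableOn ?_
      filter_upwards [ae_restrict_mem₀ mP, ae_restrict_of_ae w0] with o ho hw0
      change w o * g (C.pt o) ^ 2 - gn C g o ^ 2 ≤ t ^ 2 * w o
      have h3 : g (C.pt o) ^ 2 ≤ t ^ 2 := by
        rw [← sq_abs (g (C.pt o))]
        exact pow_le_pow_left₀ (abs_nonneg _) ho.2 2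
      have h4 := mul_le_mul_of_nonneg_left h3 hw0
      have h5 := sq_nonneg (gn C g o)
      linarith
    rw [level_split C hg iF s0, level_split C hg iF hst.le]
    have k4 : t ^ 2 * (ri xt + W) ≤ t ^ 2 * ro xs := mul_le_mul_of_nonneg_left g3 (sq_nonneg t)
    have k5 : (t ^ 2 - s ^ 2) * ro xs ≤ (t ^ 2 - s ^ 2) * B :=
      mul_le_mul_of_nonneg_left g4 (by nlinarith)
    have e6 : (fun i => supw C g (γs i) s) = xs := supw_acc C γs g s
    rw [e6] at k2
    nlinarith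
  -- the limit `s → t`
  refine le_of_forall_pos_le_add fun η hη => ?_
  obtain ⟨s, s0, hst, hsη⟩ : ∃ s, 0 ≤ s ∧ s < t ∧ (t ^ 2 - s ^ 2) * B ≤ η := by
    set d := min t (η / (2 * t * (B + 1))) with hd
    have hd0 : 0 < d := lt_min ht (by positivity)
    refine ⟨t - d, by linarith [min_le_left t (η / (2 * t * (B + 1)))], by linarith, ?_⟩
    have h3 : t ^ 2 - (t - d) ^ 2 ≤ 2 * t * d := by nlinarith [sq_nonneg d]
    have h4 : 2 * t * d * (B + 1) ≤ η := by
      have h5 : d ≤ η / (2 * t * (B + 1)) := min_le_right _ _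
      rw [le_div_iff₀ (by positivity)] at h5
      linarith
    have h5 : (t ^ 2 - (t - d) ^ 2) * B ≤ 2 * t * d * B := mul_le_mul_of_nonneg_right h3 hB
    have h6 : 0 ≤ 2 * t * d := by positivity
    nlinarith
  have := step s s0 hst
  linarith

/-- the outer certificate `(G α + K (X - ω) + δ)⁻¹ - ρ (X - ω)` (image under `v` only) -/
theorem rc_out (C : Calc M γ) {v : Fin 3 → M → ℝ} (hv : Sph γ v) {γs : ι → Om → ℝ}
    {i0 i1 i2 : ι} (h1 : γs i1 = jac C v)
    (hfn : ∀ᵐ o ∂C.μ, nuC C v o ≤ γs i2 o) {w : Om → ℝ} {ρ : ℝ}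
    (wf : ∀ᵐ o ∂C.μ, w o ≤ ρ * γs i2 o) {X K δ A1 κ : ℝ} (hδ : 0 < δ) (hρ : 0 ≤ ρ) (hK : 0 < K)
    (hA1 : 0 < A1) (hX : X < 2 * Real.pi) {G g : ℝ → ℝ}
    (hG : ∀ α, A1 ≤ α → α ≤ 2 * Real.pi + X → HasDerivAt G (-g α) α)
    (hg : ∀ α, A1 ≤ α → α ≤ 2 * Real.pi + X →
      1 / (α * (4 * Real.pi - α)) ≤ g α - g α ^ 2 / (2 * K))
    (hG0 : ∀ y, 0 ≤ y → y ≤ X → 0 ≤ G (2 * Real.pi + y) + K * y) {D : Set (ι → ℝ)}
    (hD : ∀ x ∈ D, A1 ≤ x i1 ∧ x i1 + x i2 ≤ 2 * Real.pi + X ∧ 0 ≤ x i2 ∧ x i2 ≤ X) :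
    RC C v γs i0 i1 w κ δ⁻¹ D
      fun x => (G (x i1) + K * (X - x i2) + δ)⁻¹ - ρ * (X - x i2) := by
  have hpi := Real.pi_pos
  have hgpos : ∀ α, A1 ≤ α → α ≤ 2 * Real.pi + X → 0 < g α := by
    intro α h1 h2
    have h3 : 0 < 1 / (α * (4 * Real.pi - α)) := by
      have : 0 < α := by linarith
      have : 0 < 4 * Real.pi - α := by linarith
      positivity
    have h4 := hg α h1 h2
    have h5 : 0 ≤ g α ^ 2 / (2 * K) := by positivity
    linarith
  have hGanti : ∀ α β, A1 ≤ α → α ≤ β → β ≤ 2 * Real.pi + X → G β ≤ G α := by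
    intro α β h1 h2 h3
    have hmono : AntitoneOn G (Icc A1 (2 * Real.pi + X)) := by
      refine antitoneOn_of_deriv_nonpos (convex_Icc _ _) ?_ ?_ ?_
      · intro x hx
        exact (hG x hx.1 hx.2).continuousAt.continuousWithinAt
      · intro x hx
        rw [interior_Icc] at hx
        exact (hG x hx.1.le hx.2.le).differentiableAt.differentiableWithinAt
      · intro x hx
        rw [interior_Icc] at hx
        rw [(hG x hx.1.le hx.2.le).deriv]
        have := hgpos x hx.1.le hx.2.le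
        linarith
    exact hmono ⟨h1, by linarith⟩ ⟨by linarith, h3⟩ h2
  have hRpos : ∀ x ∈ D, δ ≤ G (x i1) + K * (X - x i2) + δ := by
    intro x hx
    obtain ⟨x1, x2, x3, x4⟩ := hD x hx
    have h1 := hGanti (x i1) (2 * Real.pi + (X - x i2)) x1 (by linarith) (by linarith)
    have h2 := hG0 (X - x i2) (by linarith) (by linarith)
    linarith
  have hx1 : ∀ x ∈ D, x i1 ≤ 2 * Real.pi + X := fun x hx => by
    obtain ⟨x1, x2, x3, x4⟩ := hD x hx
    linarith
  have hy : ∀ x ∈ D, 0 < x i1 * (4 * Real.pi - x i1) := fun x hx => by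
    have h5 := (hD x hx).1
    have h6 := hx1 x hx
    have : 0 < x i1 := by linarith
    have : 0 < 4 * Real.pi - x i1 := by linarith
    positivity
  set R : (ι → ℝ) → ℝ := fun x => G (x i1) + K * (X - x i2) + δ with hR
  refine ⟨fun x => (R x ^ 2)⁻¹ • (g (x i1) • ContinuousLinearMap.proj (R := ℝ) (φ := fun _ : ι => ℝ) i1
      + K • ContinuousLinearMap.proj (R := ℝ) (φ := fun _ : ι => ℝ) i2) +
      ρ • ContinuousLinearMap.proj (R := ℝ) (φ := fun _ : ι => ℝ) i2, fun _ => 0,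
    fun x => (R x)⁻¹ * (√(x i1 * (4 * Real.pi - x i1)))⁻¹, fun x hx => ⟨?_, le_rfl, ?_, ?_, ?_⟩, ?_⟩
  · have hr := hRpos x hx
    have hr0 : R x ≠ 0 := (lt_of_lt_of_le hδ hr).ne'
    have e1 : HasFDerivAt (fun x : ι → ℝ => x i1)
        (ContinuousLinearMap.proj (R := ℝ) (φ := fun _ : ι => ℝ) i1) x :=
      (ContinuousLinearMap.proj (R := ℝ) (φ := fun _ : ι => ℝ) i1).hasFDerivAt
    have e2 : HasFDerivAt (fun x : ι → ℝ => x i2)
        (ContinuousLinearMap.proj (R := ℝ) (φ := fun _ : ι => ℝ) i2) x :=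
      (ContinuousLinearMap.proj (R := ℝ) (φ := fun _ : ι => ℝ) i2).hasFDerivAt
    have e3 := (hG _ (hD x hx).1 (hx1 x hx)).comp_hasFDerivAt x e1
    have e4 : HasFDerivAt (fun x : ι → ℝ => K * (X - x i2)) _ x := (e2.const_sub X).const_mul K
    have e5 : HasFDerivAt R _ x := (e3.add e4).add_const δ
    have e6 := (hasDerivAt_inv hr0).comp_hasFDerivAt x e5
    have e7 : HasFDerivAt (fun x : ι → ℝ => ρ * (X - x i2)) _ x := (e2.const_sub X).const_mul ρ
    refine (e6.sub e7).congr_fderiv ?_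
    refine ContinuousLinearMap.ext fun z => ?_
    simp [hR]
  · have := hRpos x hx
    have : 0 < R x := lt_of_lt_of_le hδ this
    positivity
  · have hr := hRpos x hx
    have h3 : (R x)⁻¹ ≤ δ⁻¹ := inv_anti₀ hδ hr
    have h4 : 0 ≤ ρ * (X - x i2) := mul_nonneg hρ (by linarith [(hD x hx).2.2.2])
    change (R x)⁻¹ - ρ * (X - x i2) ≤ δ⁻¹
    linarith
  · have hr := hRpos x hx
    have h4 : 0 ≤ ρ * (X - x i2) := mul_nonneg hρ (by linarith [(hD x hx).2.2.2])
    have h5 : |x i1| = x i1 := abs_of_nonneg (by linarith [(hD x hx).1])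
    have h6 : 0 < √(x i1 * (4 * Real.pi - x i1)) := Real.sqrt_pos.2 (hy x hx)
    rw [h5, zero_mul, zero_add, mul_assoc, inv_mul_cancel₀ h6.ne', mul_one]
    change (R x)⁻¹ - ρ * (X - x i2) ≤ (R x)⁻¹
    linarith
  · filter_upwards [imc_ae C hv, hfn, wf] with o ho hnf hwf x hx
    have hx1' := hg _ (hD x hx).1 (hx1 x hx)
    have h4 := ho _ _ K (by have := hy x hx; positivity) hK hx1'
    have h7 : K * nuC C v o ≤ K * γs i2 o := mul_le_mul_of_nonneg_left hnf hK.le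
    have h8 : opn C v o ^ 2 * (1 / (x i1 * (4 * Real.pi - x i1))) ≤
        g (x i1) * jac C v o + K * γs i2 o := by linarith
    have h9 : (0 : ℝ) ≤ (R x ^ 2)⁻¹ := by positivity
    have h10 := mul_le_mul_of_nonneg_left h8 h9
    have e3 : ((√(x i1 * (4 * Real.pi - x i1)))⁻¹) ^ 2 = 1 / (x i1 * (4 * Real.pi - x i1)) := by
      rw [inv_pow, Real.sq_sqrt (hy x hx).le, one_div]
    have e4 : (0 + (R x)⁻¹ * (√(x i1 * (4 * Real.pi - x i1)))⁻¹ * opn C v o) ^ 2 =
        (R x ^ 2)⁻¹ * (opn C v o ^ 2 * ((√(x i1 * (4 * Real.pi - x i1)))⁻¹) ^ 2) := by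
      rw [inv_pow]
      ring
    change w o + (0 + (R x)⁻¹ * (√(x i1 * (4 * Real.pi - x i1)))⁻¹ * opn C v o) ^ 2 ≤ _
    rw [e4, e3]
    have e5 : ((R x ^ 2)⁻¹ • (g (x i1) •
        ContinuousLinearMap.proj (R := ℝ) (φ := fun _ : ι => ℝ) i1
      + K • ContinuousLinearMap.proj (R := ℝ) (φ := fun _ : ι => ℝ) i2) +
      ρ • ContinuousLinearMap.proj (R := ℝ) (φ := fun _ : ι => ℝ) i2) (fun i => γs i o) =
      (R x ^ 2)⁻¹ * (g (x i1) * jac C v o + K * γs i2 o) + ρ * γs i2 o := by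
      simp [h1, mul_add]
    rw [e5]
    linarith

end Pool.Agent.FPX
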