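import Mathlib
import Pool.Agent.FPX.IMN
import Pool.Agent.FPX.VRC
import Pool.Agent.FPM.I58X

/-
STC (helper91): the multi-state level lemma for functions which are even along the curve (levels of the
modulus of an odd field) with a general integrand, and the static inequality for a charge which enters
linearly.
-/

open MeasureTheory Set Filter Topology
open scoped ENNReal NNReal

noncomputable section

namespace Pool.Agent.FPX

open Pool.Agent.EWD Pool.Agent.FPM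

variable {M : Type} [MetricSpace M] {γ : ℝ → M}

/-- the length inequality at almost every level of an even function -/
theorem even_len (C : Calc M γ) {χ : M → ℝ} (hχ : Lip χ) (eχ : EvenB γ χ) {κ a₁ ε : ℝ}
    (hI : IsopE C κ a₁ ε) : ∀ᵐ t : ℝ, t < 0 →
      (nlev C χ (fun _ => 1) t ≤ a₁ →
        κ * (nlev C χ (fun _ => 1) t - ε) ≤ deriv (nlev C χ (gn C χ)) t ^ 2) ∧
      0 ≤ deriv (nlev C χ (gn C χ)) t := by
  have hneg := (Measure.measurePreserving_neg (volume : Measure ℝ)).quasiMeasurePreserving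
  have m1 := nlev_mono C hχ (int_gn C hχ) (gn_nonneg C χ)
  have elev : (lev C fun x => |χ x|) = fun s => ∫ o in {o | |χ (C.pt o)| < s}, gn C χ o ∂C.μ := by
    funext s
    unfold lev
    exact integral_congr_ae (ae_restrict_of_ae (gn_abs C hχ))
  filter_upwards [hneg.ae (hI (fun x => |χ x|) (lip_abs hχ) fun s => by
    rw [eχ s])] with t h1 h0
  obtain ⟨d1, i1⟩ := h1
  rw [elev] at d1 i1
  have k1 := nlev_has C hχ (int_gn C hχ) (ae_of_all _ fun o h => h) d1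
  refine ⟨fun ha => ?_, m1.deriv_nonneg⟩
  rw [nlev_one] at ha ⊢
  rw [k1.deriv]
  exact i1 ha

/-- the image length at almost every level -/
theorem img_len (C : Calc M γ) {v : Fin 3 → M → ℝ}
    (hv : Sph γ v) {χ : M → ℝ} (hχ : Lip χ) {Wim : ℝ → ℝ}
    (himg : ∀ᵐ t : ℝ, 0 < t → Wim (supj C χ v t) ≤ deriv (levw C χ v) t ^ 2) : ∀ᵐ t : ℝ, t < 0 →
      Wim (nlev C χ (jac C v) t) ≤ deriv (nlev C χ (wn C χ v)) t ^ 2 ∧
        0 ≤ deriv (nlev C χ (wn C χ v)) t := by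
  have hneg := (Measure.measurePreserving_neg (volume : Measure ℝ)).quasiMeasurePreserving
  have m2 := nlev_mono C hχ (wn_int C hv.lip hχ) (wn_nonneg C χ v)
  have ew : ∀ᵐ o ∂C.μ, gn C χ o = 0 → wn C χ v o = 0 := by
    filter_upwards [wn_opn C hv χ] with o ho h
    rw [h, mul_zero] at ho
    exact le_antisymm ho (wn_nonneg C χ v o)
  filter_upwards [hneg.ae (himg.and (levw_mono C hv.lip hχ).ae_differentiableAt)] with t h1 h0
  have i2 := h1.1 (by linarith)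
  have k2 := nlev_has C hχ (wn_int C hv.lip hχ) ew h1.2
  refine ⟨?_, m2.deriv_nonneg⟩
  rw [k2.deriv, nlev_jac]
  exact i2

variable {ι : Type*} [Fintype ι]

/-- **the multi-state level lemma for even functions**, any integrand `F`, any accounts -/
theorem even_hj (C : Calc M γ) {v : Fin 3 → M → ℝ} (hv : Sph γ v) {χ : M → ℝ} (hχ : Lip χ)
    (eχ : EvenB γ χ) {κ a₁ ε : ℝ} (hI : IsopE C κ a₁ ε) {Wim : ℝ → ℝ}
    (himg : ∀ᵐ t : ℝ, 0 < t → Wim (supj C χ v t) ≤ deriv (levw C χ v) t ^ 2)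
    {γs : ι → Om → ℝ} (hγs : ∀ i, Integrable (γs i) C.μ) {F : Om → ℝ} (hF : Integrable F C.μ)
    {s0 s1 L : ℝ} (hs0 : 0 ≤ s0) (hs : s0 ≤ s1) (hL : 0 ≤ L) {D : Set (ι → ℝ)} (hD : Convex ℝ D)
    (hmem : ∀ s, s0 ≤ s → s ≤ s1 → (fun i => supw C χ (γs i) s) ∈ D)
    (ha : ∀ s, s0 < s → s < s1 → supa C χ s ≤ a₁)
    {S : ℝ → (ι → ℝ) → ℝ} {S' : ℝ → (ι → ℝ) → (ℝ × (ι → ℝ)) →L[ℝ] ℝ}
    (hS : ∀ s x, s0 ≤ s → s ≤ s1 → x ∈ D →
      HasFDerivAt (fun z : ℝ × (ι → ℝ) => S z.1 z.2) (S' s x) (s, x))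
    (hSt : ∀ s x, s0 ≤ s → s ≤ s1 → x ∈ D → -L ≤ S' s x (1, 0))
    (hSx : ∀ᵐ o ∂C.μ, ∀ s x, s0 ≤ s → x ∈ D → s < |χ (C.pt o)| → |χ (C.pt o)| ≤ s1 →
      S' s x (0, fun i => γs i o) ≤ F o + L * (|χ (C.pt o)| - s))
    (hj : ∀ᵐ s : ℝ, s0 < s → s < s1 → ∀ l V : ℝ, 0 ≤ l → 0 ≤ V →
      κ * (supa C χ s - ε) ≤ l ^ 2 → Wim (supj C χ v s) ≤ V ^ 2 →
      ∃ θ1 θ2 : ℝ, 0 ≤ θ1 ∧ 0 ≤ θ2 ∧
        -(S' s (fun i => supw C χ (γs i) s) (1, 0)) ≤ θ1 * l + θ2 * V ∧
        ∃ δ > 0, ∀ᵐ o ∂C.μ, s - δ < |χ (C.pt o)| → |χ (C.pt o)| ≤ s →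
          S' s (fun i => supw C χ (γs i) s) (0, fun i => γs i o) + θ1 * gn C χ o
            + θ2 * (opn C v o * gn C χ o) ≤ F o + L * (s - |χ (C.pt o)|)) :
    S s0 (fun i => supw C χ (γs i) s0) - S s1 (fun i => supw C χ (γs i) s1) ≤
      ∫ o in {o | s0 < |χ (C.pt o)| ∧ |χ (C.pt o)| ≤ s1}, F o ∂C.μ := by
  have := C.fin
  obtain ⟨g, hg, hge, hsF⟩ := neg_rep C hχ
  have hFe : ∀ t, (fun i => s7F C.μ g (γs i) t) = fun i => supw C χ (γs i) (-t) :=
    fun t => funext fun i => by rw [hsF, nlev_supw]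
  have hq : ∀ j : Fin 2, Integrable ((![gn C χ, wn C χ v] : Fin 2 → Om → ℝ) j) C.μ := by
    intro j
    fin_cases j
    · exact int_gn C hχ
    · exact wn_int C hv.lip hχ
  set N : (ℝ × (ι → ℝ)) →L[ℝ] (ℝ × (ι → ℝ)) :=
    (-(ContinuousLinearMap.fst ℝ ℝ (ι → ℝ))).prod (ContinuousLinearMap.snd ℝ ℝ (ι → ℝ)) with hN
  have hN1 : N (1, 0) = (-1, 0) := by simp [hN]
  have hN2 : ∀ y : ι → ℝ, N (0, y) = (0, y) := fun y => by simp [hN]
  have hm1 : ∀ (A : (ℝ × (ι → ℝ)) →L[ℝ] ℝ), A (-1, 0) = -(A (1, 0)) := fun A => by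
    rw [← map_neg]
    simp
  have hfin := s7_hjV C.μ hg hγs hq hF (r0 := -s1) (r1 := -s0) (by linarith) hL hD
    (S := fun t x => S (-t) x) (S' := fun t x => (S' (-t) x).comp N)
    (fun t a b => by
      rw [hFe]
      exact hmem (-t) (by linarith) (by linarith))
    (fun t x a b hx => by
      have e1 : HasFDerivAt (fun z : ℝ × (ι → ℝ) => (-z.1, z.2)) N (t, x) := by
        have := (hasFDerivAt_fst (𝕜 := ℝ) (E := ℝ) (F := ι → ℝ) (p := (t, x))).neg.prodMk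
          (hasFDerivAt_snd (𝕜 := ℝ) (E := ℝ) (F := ι → ℝ) (p := (t, x)))
        exact this
      have e2 : HasFDerivAt (fun z : ℝ × (ι → ℝ) => S z.1 z.2) (S' (-t) x)
          ((fun z : ℝ × (ι → ℝ) => (-z.1, z.2)) (t, x)) :=
        hS (-t) x (by linarith) (by linarith) hx
      exact e2.comp (t, x) e1)
    (fun t x a b hx => by
      rw [ContinuousLinearMap.comp_apply, hN1, hm1]
      have := hSt (-t) x (by linarith) (by linarith) hx
      linarith) ?_ ?_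
  · rw [hFe, hFe, neg_neg, neg_neg] at hfin
    refine hfin.trans (le_of_eq ?_)
    refine setIntegral_congr_set ?_
    filter_upwards [hge] with o ho
    refine propext ⟨fun h => ?_, fun h => ?_⟩
    · have h2 : -s1 ≤ g o ∧ g o < -s0 := h
      rw [ho] at h2
      exact ⟨by linarith [h2.2], by linarith [h2.1]⟩
    · have h2 : s0 < |χ (C.pt o)| ∧ |χ (C.pt o)| ≤ s1 := h
      change -s1 ≤ g o ∧ g o < -s0
      rw [ho]
      exact ⟨by linarith [h2.2], by linarith [h2.1]⟩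
  · filter_upwards [hSx, hge] with o ho he t x a b d e
    rw [he] at d e ⊢
    rw [ContinuousLinearMap.comp_apply, hN2]
    have h2 := ho (-t) x (by linarith) b (by linarith) (by linarith)
    have h4 : L * (|χ (C.pt o)| - -t) = L * (t - -|χ (C.pt o)|) := by ring
    rw [← h4]
    exact h2
  · have hneg := (Measure.measurePreserving_neg (volume : Measure ℝ)).quasiMeasurePreserving
    filter_upwards [hneg.ae hj, even_len C hχ eχ hI, img_len C hv hχ himg] with t ht hl hw a b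
    obtain ⟨l1, l3⟩ := hl (by linarith)
    obtain ⟨l2, l4⟩ := hw (by linarith)
    have ea : nlev C χ (fun _ => 1) t = supa C χ (-t) := by
      rw [nlev_supw]
      unfold supw supa
      simp [Measure.real]
    have ej : nlev C χ (jac C v) t = supj C χ v (-t) := nlev_jac C χ v t
    rw [ea] at l1
    rw [ej] at l2
    have hat := ha (-t) (by linarith) (by linarith)
    obtain ⟨θ1, θ2, hθ1, hθ2, hle, δ, hδ, hae⟩ := ht (by linarith) (by linarith) _ _ l3 l4 (l1 hat) l2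
    refine ⟨![θ1, θ2], ?_, δ, hδ, ?_⟩
    · rw [hFe, Fin.sum_univ_two, ContinuousLinearMap.comp_apply, hN1, hm1]
      have e1 : s7F C.μ g ((![gn C χ, wn C χ v] : Fin 2 → Om → ℝ) 0) = nlev C χ (gn C χ) :=
        funext fun r => hsF _ r
      have e2 : s7F C.μ g ((![gn C χ, wn C χ v] : Fin 2 → Om → ℝ) 1) = nlev C χ (wn C χ v) :=
        funext fun r => hsF _ r
      rw [e1, e2]
      exact hle
    · filter_upwards [hae, hge, wn_opn C hv χ] with o ho he hw' c1 c2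
      rw [he] at c1 c2
      have h2 := ho (by linarith) (by linarith)
      rw [hFe, Fin.sum_univ_two, ContinuousLinearMap.comp_apply, hN2]
      change _ + (θ1 * gn C χ o + θ2 * wn C χ v o) ≤ _
      rw [he]
      have h3 : θ2 * wn C χ v o ≤ θ2 * (opn C v o * gn C χ o) := mul_le_mul_of_nonneg_left hw' hθ2
      have h4 : L * (-|χ (C.pt o)| - t) = L * (-t - |χ (C.pt o)|) := by ring
      rw [h4]
      linarith

/-- a static certificate: `Φ` pays for the flux `p n + k` (`n` the charge, account `i2`) through the levels,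
`K` the inverse coefficient of the radial energy, `G` the available gain -/
structure SC (C : Calc M γ) (v : Fin 3 → M → ℝ) (γs : ι → Om → ℝ) (i0 i1 i2 : ι) (K G : Om → ℝ)
    (κ : ℝ) (Wim : ℝ → ℝ) (p k : ℝ) (D : Set (ι → ℝ)) (Φ : (ι → ℝ) → ℝ) : Prop where
  cert : ∃ (Φ' : (ι → ℝ) → (ι → ℝ) →L[ℝ] ℝ) (P Q : (ι → ℝ) → ℝ),
    (∀ x ∈ D, HasFDerivAt Φ (Φ' x) x ∧ 0 ≤ P x ∧ 0 ≤ Q x ∧
      p * x i2 + k ≤ P x * √(κ * x i0) + Q x * √(Wim (x i1))) ∧
    ∀ᵐ o ∂C.μ, ∀ x ∈ D, K o * (P x + Q x * opn C v o) ^ 2 ≤ Φ' x (fun i => γs i o) + G o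

omit [Fintype ι] in
theorem SC.mono {C : Calc M γ} {v : Fin 3 → M → ℝ} {γs : ι → Om → ℝ} {i0 i1 i2 : ι} {K G : Om → ℝ}
    {κ : ℝ} {Wim : ℝ → ℝ} {p k : ℝ} {D D' : Set (ι → ℝ)} {Φ : (ι → ℝ) → ℝ}
    (h : SC C v γs i0 i1 i2 K G κ Wim p k D Φ) (hD : D' ⊆ D) :
    SC C v γs i0 i1 i2 K G κ Wim p k D' Φ := by
  obtain ⟨Φ', P, Q, h1, h2⟩ := h.cert
  refine ⟨Φ', P, Q, fun x hx => h1 x (hD hx), ?_⟩
  filter_upwards [h2] with o ho x hx
  exact ho x (hD hx)

/-- **the static inequality on a band of levels** -/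
theorem stc_band (C : Calc M γ) {v : Fin 3 → M → ℝ} (hv : Sph γ v) {χ : M → ℝ} (hχ : Lip χ)
    (eχ : EvenB γ χ) {κ κ' a₀ a₁ ε : ℝ} (hI : IsopE C κ a₁ ε)
    (hκ : ∀ a, a₀ ≤ a → κ' * a ≤ κ * (a - ε)) {Wim : ℝ → ℝ}
    (himg : ∀ᵐ t : ℝ, 0 < t → Wim (supj C χ v t) ≤ deriv (levw C χ v) t ^ 2)
    {γs : ι → Om → ℝ} (hγs : ∀ i, Integrable (γs i) C.μ) {i0 i1 i2 : ι}
    (h0 : γs i0 = fun _ => 1) (h1 : γs i1 = jac C v) {K G F : Om → ℝ} (hF : Integrable F C.μ)
    {p k : ℝ} {D : Set (ι → ℝ)} (hD : Convex ℝ D) {Φ : (ι → ℝ) → ℝ}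
    (hS : SC C v γs i0 i1 i2 K G κ' Wim p k D Φ) (hp : 0 ≤ p) {N B : ℝ}
    (hK : ∀ᵐ o ∂C.μ, 0 < K o) (h2 : ∀ᵐ o ∂C.μ, 0 ≤ γs i2 o) (hN : ∀ᵐ o ∂C.μ, γs i2 o ≤ N) (hB : ∀ x ∈ D, p * x i2 + k ≤ B)
    {s0 s1 : ℝ} (hs0 : 0 ≤ s0) (hs : s0 ≤ s1)
    (hmem : ∀ s, s0 ≤ s → s ≤ s1 → (fun i => supw C χ (γs i) s) ∈ D)
    (ha : ∀ s, s0 < s → s < s1 → supa C χ s ≤ a₁) (ha0 : ∀ s, s0 < s → s < s1 → a₀ ≤ supa C χ s)
    (hFp : ∀ᵐ o ∂C.μ, s0 < |χ (C.pt o)| → |χ (C.pt o)| ≤ s1 →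
      gn C χ o ^ 2 / K o + G o - 2 * p * |χ (C.pt o)| * γs i2 o ≤ F o) :
    2 * k * (s1 - s0) + (2 * p * s1 * supw C χ (γs i2) s1 + Φ (fun i => supw C χ (γs i) s1))
      - (2 * p * s0 * supw C χ (γs i2) s0 + Φ (fun i => supw C χ (γs i) s0)) ≤
      ∫ o in {o | s0 < |χ (C.pt o)| ∧ |χ (C.pt o)| ≤ s1}, F o ∂C.μ := by
  obtain ⟨Φ', P, Q, hx, hpt⟩ := hS.cert
  set pr : (ι → ℝ) →L[ℝ] ℝ := ContinuousLinearMap.proj i2 with hpr
  set S : ℝ → (ι → ℝ) → ℝ := fun s x => -(2 * s * (p * x i2 + k)) - Φ x with hSd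
  set S' : ℝ → (ι → ℝ) → (ℝ × (ι → ℝ)) →L[ℝ] ℝ := fun s x =>
    -((2 * (p * x i2 + k)) • ContinuousLinearMap.fst ℝ ℝ (ι → ℝ) +
      ((2 * s * p) • pr + Φ' x).comp (ContinuousLinearMap.snd ℝ ℝ (ι → ℝ))) with hS'
  have S1 : ∀ s x, S' s x (1, 0) = -(2 * (p * x i2 + k)) := fun s x => by
    simp only [hS', neg_apply, add_apply, smul_apply, ContinuousLinearMap.coe_fst',
      ContinuousLinearMap.comp_apply, ContinuousLinearMap.coe_snd', map_zero, smul_eq_mul]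
    ring
  have S2 : ∀ s x y, S' s x (0, y) = -(2 * s * p * y i2) - Φ' x y := fun s x y => by
    simp only [hS', neg_apply, add_apply, smul_apply, ContinuousLinearMap.coe_fst',
      ContinuousLinearMap.comp_apply, ContinuousLinearMap.coe_snd', smul_eq_mul, hpr,
      ContinuousLinearMap.proj_apply]
    ring
  have hSx : ∀ s x, x ∈ D → HasFDerivAt (fun z : ℝ × (ι → ℝ) => S z.1 z.2) (S' s x) (s, x) := by
    intro s x hxD
    have e0 : HasFDerivAt (fun z : ℝ × (ι → ℝ) => z.1)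
        (ContinuousLinearMap.fst ℝ ℝ (ι → ℝ)) (s, x) := hasFDerivAt_fst
    have e1 : HasFDerivAt (fun z : ℝ × (ι → ℝ) => Φ z.2)
        ((Φ' x).comp (ContinuousLinearMap.snd ℝ ℝ (ι → ℝ))) (s, x) :=
      HasFDerivAt.comp (s, x) (hx x hxD).1 hasFDerivAt_snd
    have e3 : HasFDerivAt (fun z : ℝ × (ι → ℝ) => p * z.2 i2 + k)
        (p • (pr.comp (ContinuousLinearMap.snd ℝ ℝ (ι → ℝ)))) (s, x) := by
      have e4 : HasFDerivAt (fun z : ℝ × (ι → ℝ) => z.2 i2)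
          (pr.comp (ContinuousLinearMap.snd ℝ ℝ (ι → ℝ))) (s, x) :=
        (pr.comp (ContinuousLinearMap.snd ℝ ℝ (ι → ℝ))).hasFDerivAt
      exact (e4.const_mul p).add_const k
    have e2 := (((e0.const_mul 2).mul e3).neg).sub e1
    refine e2.congr_fderiv ?_
    refine ContinuousLinearMap.ext fun z => ?_
    simp [hS', hpr]
    ring
  set L : ℝ := 2 * max B 0 + 2 * p * max N 0 with hL
  have hN0 : 0 ≤ max N 0 := le_max_right _ _
  have hB0 : 0 ≤ max B 0 := le_max_right _ _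
  have hpN : 0 ≤ 2 * p * max N 0 := by positivity
  have hmain := even_hj C hv hχ eχ hI himg hγs hF hs0 hs (L := L) (by positivity) hD hmem ha
    (S := S) (S' := S') (fun s x _ _ hxD => hSx s x hxD)
    (fun s x _ _ hxD => by
      rw [S1]
      have h2 := hB x hxD
      have h3 : B ≤ max B 0 := le_max_left _ _
      linarith)
    (by
      filter_upwards [hpt, hN, hK, hFp] with o ho hNo hKo hFo s x a hxD b c
      rw [S2]
      have h4 := ho x hxD
      have h5 : 0 ≤ K o * (P x + Q x * opn C v o) ^ 2 := by positivity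
      have h6 := hFo (by linarith) c
      have h7 : 0 ≤ gn C χ o ^ 2 / K o := by positivity
      have h8 : 2 * p * (|χ (C.pt o)| - s) * γs i2 o ≤ 2 * p * (|χ (C.pt o)| - s) * max N 0 :=
        mul_le_mul_of_nonneg_left (hNo.trans (le_max_left _ _))
          (mul_nonneg (by positivity) (by linarith))
      have h9 : 2 * p * max N 0 * (|χ (C.pt o)| - s) ≤ L * (|χ (C.pt o)| - s) :=
        mul_le_mul_of_nonneg_right (by rw [hL]; linarith) (by linarith)
      nlinarith)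
    (by
      refine ae_of_all _ fun s a b l V hl hV hl2 hV2 => ?_
      set x : ι → ℝ := fun i => supw C χ (γs i) s with hxd
      have hxD : x ∈ D := hmem s a.le b.le
      obtain ⟨-, hP, hQ, hlen⟩ := hx x hxD
      have hx0 : x i0 = supa C χ s := by
        change supw C χ (γs i0) s = _
        rw [h0]
        unfold supw supa
        simp [Measure.real]
      have hx1 : x i1 = supj C χ v s := by
        change supw C χ (γs i1) s = _
        rw [h1]
        rfl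
      have h4 : √(κ' * x i0) ≤ l := by
        rw [← Real.sqrt_sq hl]
        refine Real.sqrt_le_sqrt (le_trans ?_ hl2)
        rw [hx0]
        exact hκ _ (ha0 s a b)
      have h5 : √(Wim (x i1)) ≤ V := by
        rw [← Real.sqrt_sq hV, hx1]
        exact Real.sqrt_le_sqrt hV2
      refine ⟨2 * P x, 2 * Q x, by positivity, by positivity, ?_, ?_⟩
      · rw [S1]
        have h7 := mul_le_mul_of_nonneg_left h4 hP
        have h8 := mul_le_mul_of_nonneg_left h5 hQ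
        linarith
      · refine ⟨s - s0, by linarith, ?_⟩
        filter_upwards [hpt, h2, hK, hFp] with o ho hn0 hKo hFo c d
        rw [S2]
        have h6 := hFo (by linarith) (by linarith)
        have h7 := ho x hxD
        have hc0 : 0 ≤ |χ (C.pt o)| := abs_nonneg _
        -- Young
        have h9 : 2 * (P x + Q x * opn C v o) * gn C χ o ≤
            gn C χ o ^ 2 / K o + K o * (P x + Q x * opn C v o) ^ 2 := by
          have e1 : gn C χ o ^ 2 / K o + K o * (P x + Q x * opn C v o) ^ 2 -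
              2 * (P x + Q x * opn C v o) * gn C χ o =
              (gn C χ o - K o * (P x + Q x * opn C v o)) ^ 2 / K o := by
            field_simp
            ring
          have e2 : 0 ≤ (gn C χ o - K o * (P x + Q x * opn C v o)) ^ 2 / K o := by positivity
          linarith
        have h10 : 0 ≤ L * (s - |χ (C.pt o)|) := mul_nonneg (by positivity) (by linarith)
        have h11 : 2 * p * |χ (C.pt o)| * γs i2 o ≤ 2 * p * s * γs i2 o + L * (s - |χ (C.pt o)|) := by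
          have h12 : 2 * p * |χ (C.pt o)| * γs i2 o ≤ 2 * p * s * γs i2 o :=
            mul_le_mul_of_nonneg_right (mul_le_mul_of_nonneg_left d (by positivity)) hn0
          linarith
        nlinarith)
  have e1 : S s0 (fun i => supw C χ (γs i) s0) =
      -(2 * s0 * (p * supw C χ (γs i2) s0 + k)) - Φ (fun i => supw C χ (γs i) s0) := rfl
  have e2 : S s1 (fun i => supw C χ (γs i) s1) =
      -(2 * s1 * (p * supw C χ (γs i2) s1 + k)) - Φ (fun i => supw C χ (γs i) s1) := rfl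
  rw [e1, e2] at hmain
  linarith

/-- **the static inequality on a superlevel set** -/
theorem stc_top (C : Calc M γ) {v : Fin 3 → M → ℝ} (hv : Sph γ v) {χ : M → ℝ} (hχ : Lip χ)
    (eχ : EvenB γ χ) {κ κ' a₀ a₁ ε : ℝ} (hI : IsopE C κ a₁ ε)
    (hκ : ∀ a, a₀ ≤ a → κ' * a ≤ κ * (a - ε)) (ha0 : 0 < a₀) {Wim : ℝ → ℝ}
    (himg : ∀ᵐ t : ℝ, 0 < t → Wim (supj C χ v t) ≤ deriv (levw C χ v) t ^ 2)
    {γs : ι → Om → ℝ} (hγs : ∀ i, Integrable (γs i) C.μ) {i0 i1 i2 : ι}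
    (h0 : γs i0 = fun _ => 1) (h1 : γs i1 = jac C v) {K G F : Om → ℝ} (hF : Integrable F C.μ)
    {p : ℝ} {D : Set (ι → ℝ)} (hD : Convex ℝ D) {Φ : (ι → ℝ) → ℝ}
    (hS : SC C v γs i0 i1 i2 K G κ' Wim p 0 D Φ) (hΦ : ∀ x ∈ D, 0 ≤ Φ x) (hp : 0 ≤ p) {N R : ℝ}
    (hK : ∀ᵐ o ∂C.μ, 0 < K o) (hG : ∀ᵐ o ∂C.μ, 0 ≤ G o) (h2 : ∀ᵐ o ∂C.μ, 0 ≤ γs i2 o)
    (hN0 : 0 ≤ N) (hN : ∀ᵐ o ∂C.μ, γs i2 o ≤ N)
    (hR : 0 ≤ R) (gR : ∀ᵐ o ∂C.μ, |χ (C.pt o)| ≤ R) {s0 : ℝ} (hs0 : 0 ≤ s0)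
    (hmem : ∀ s, s0 ≤ s → (fun i => supw C χ (γs i) s) ∈ D)
    (ha : ∀ s, s0 < s → supa C χ s ≤ a₁)
    (hFp : ∀ᵐ o ∂C.μ, s0 < |χ (C.pt o)| →
      gn C χ o ^ 2 / K o + G o - 2 * p * |χ (C.pt o)| * γs i2 o ≤ F o) :
    -(2 * p * s0 * supw C χ (γs i2) s0 + Φ (fun i => supw C χ (γs i) s0)) - 2 * p * R * N * a₀ ≤
      ∫ o in {o | s0 < |χ (C.pt o)|}, F o ∂C.μ := by
  have := C.fin
  have n0 : ∀ s, 0 ≤ supw C χ (γs i2) s := fun s =>
    setIntegral_nonneg_of_ae_restrict (ae_restrict_of_ae h2)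
  have htop : ∀ s, s0 ≤ s → supa C χ s ≤ a₀ → -(2 * p * R * N * a₀) ≤
      ∫ o in {o | s < |χ (C.pt o)|}, F o ∂C.μ := by
    intro s hs hsa
    have m1 := meas_abs_lt C hχ s
    have h3 : ∫ _ in {o | s < |χ (C.pt o)|}, -(2 * p * R * N) ∂C.μ ≤
        ∫ o in {o | s < |χ (C.pt o)|}, F o ∂C.μ := by
      refine setIntegral_mono_on_ae₀ (integrable_const _).integrableOn hF.integrableOn m1 ?_
      filter_upwards [hFp, hK, hG, h2, hN, gR] with o c1 c2 c3 c4 c5 c6 c7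
      have h7 : 0 ≤ gn C χ o ^ 2 / K o := by positivity
      have h8 := c1 (hs.trans_lt c7)
      have h9 : |χ (C.pt o)| * γs i2 o ≤ R * N :=
        mul_le_mul c6 c5 c4 ((abs_nonneg _).trans c6)
      have h10 : 2 * p * (|χ (C.pt o)| * γs i2 o) ≤ 2 * p * (R * N) :=
        mul_le_mul_of_nonneg_left h9 (by positivity)
      linarith
    rw [setIntegral_const, smul_eq_mul] at h3
    have h4 : C.μ.real {o | s < |χ (C.pt o)|} = supa C χ s := rfl
    rw [h4] at h3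
    have h5 : supa C χ s * (2 * p * R * N) ≤ a₀ * (2 * p * R * N) :=
      mul_le_mul_of_nonneg_right hsa (by positivity)
    linarith
  have hΦ0 := hΦ _ (hmem s0 le_rfl)
  have hn0 := n0 s0
  have h2p : 0 ≤ 2 * p * s0 * supw C χ (γs i2) s0 := by positivity
  rcases le_or_gt (supa C χ s0) a₀ with h3 | h3
  · have h4 := htop s0 le_rfl h3
    linarith
  · obtain ⟨T, T0, TR, hT1, hT2⟩ := crossing C gR ha0 (h3.le.trans (supa_anti C χ hs0))
    have hsT : s0 ≤ T := by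
      by_contra hc
      have := supa_anti C χ (not_le.1 hc).le
      linarith
    have hBd : ∀ x ∈ D ∩ {x | p * x i2 + 0 ≤ p * supw C χ (γs i2) s0}, p * x i2 + 0 ≤
        p * supw C χ (γs i2) s0 := fun x hx => hx.2
    have hDc : Convex ℝ (D ∩ {x : ι → ℝ | p * x i2 + 0 ≤ p * supw C χ (γs i2) s0}) := by
      refine hD.inter ?_
      intro x hx y hy a b ha' hb hab
      have hx' : p * x i2 + 0 ≤ p * supw C χ (γs i2) s0 := hx
      have hy' : p * y i2 + 0 ≤ p * supw C χ (γs i2) s0 := hy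
      change p * (a • x + b • y) i2 + 0 ≤ _
      simp only [Pi.add_apply, Pi.smul_apply, smul_eq_mul]
      have k1 := mul_le_mul_of_nonneg_left hx' ha'
      have k2 := mul_le_mul_of_nonneg_left hy' hb
      have k3 : a * (p * supw C χ (γs i2) s0) + b * (p * supw C χ (γs i2) s0) =
          p * supw C χ (γs i2) s0 := by
        rw [← add_mul, hab, one_mul]
      linarith
    have hmono : ∀ s, s0 ≤ s → supw C χ (γs i2) s ≤ supw C χ (γs i2) s0 := by
      intro s hs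
      refine setIntegral_mono_set (hγs i2).integrableOn (ae_restrict_of_ae h2)
        (LE.le.eventuallyLE fun o ho => ?_)
      have ho' : s < |χ (C.pt o)| := ho
      exact (hs.trans_lt ho' : s0 < |χ (C.pt o)|)
    have h4 := stc_band C hv hχ eχ hI hκ himg hγs h0 h1 hF hDc (hS.mono inter_subset_left) hp hK h2
      hN hBd hs0 hsT
      (fun s a _ => ⟨hmem s a, by
        change p * supw C χ (γs i2) s + 0 ≤ _
        have := mul_le_mul_of_nonneg_left (hmono s a) hp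
        linarith⟩)
      (fun s a _ => ha s a) (fun s a b => hT2 s (hs0.trans a.le) b)
      (by
        filter_upwards [hFp] with o ho a _
        exact ho a)
    have h5 := htop T hsT hT1
    have h6 := hΦ _ (hmem T hsT)
    have h7 : 0 ≤ 2 * p * T * supw C χ (γs i2) T := by
      have := n0 T
      positivity
    rw [level_split C hχ hF hsT]
    linarith

end Pool.Agent.FPX
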