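import Mathlib
import Pool.Agent.FPX.STC

/-
BND (helper95): the band of the modulus closing with a level dependent weight `b = β⁻²`.
On `s0 < u ≤ s1` (areas between `a₀` and `A₁`), if `2 η β(u) |du| - η² ≤ F` for `0 ≤ η ≤ η₀`, then
`2 l (G s1 - G s0) - (l²/κ') log (A₁/a₀) ≤ ∫ F` with `G' = β`, for every `l ≤ η₀ √(κ' a₀)`.
-/

open MeasureTheory Set Filter Topology
open scoped ENNReal NNReal

noncomputable section

namespace Pool.Agent.FPX

open Pool.Agent.EWD Pool.Agent.FPM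

variable {M : Type} [MetricSpace M] {γ : ℝ → M}

theorem supw_one (C : Calc M γ) (χ : M → ℝ) (s : ℝ) : supw C χ (fun _ => 1) s = supa C χ s := by
  unfold supw supa
  simp [Measure.real]

/-- the band up to a level below the top -/
theorem bnd_pre (C : Calc M γ) {v : Fin 3 → M → ℝ} (hv : Sph γ v) {χ : M → ℝ} (hχ : Lip χ)
    (eχ : EvenB γ χ) {κ κ' a₀ a₁ ε : ℝ} (hI : IsopE C κ a₁ ε) (hκ' : 0 < κ') (ha₀ : 0 < a₀)
    (hκ : ∀ a, a₀ ≤ a → κ' * a ≤ κ * (a - ε)) {F : Om → ℝ} (hF : Integrable F C.μ)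
    {s0 s1 : ℝ} (hs0 : 0 ≤ s0) (hs : s0 ≤ s1) (hA : supa C χ s0 ≤ a₁) (ha0 : a₀ ≤ supa C χ s1)
    {β G : ℝ → ℝ} (hG : ∀ s, s0 ≤ s → s ≤ s1 → HasDerivAt G (β s) s)
    (hβ0 : ∀ s, s0 ≤ s → s ≤ s1 → 0 ≤ β s) {Λ : ℝ}
    (hβ : ∀ s s', s0 ≤ s' → s' ≤ s → s ≤ s1 → β s - β s' ≤ Λ * (s - s'))
    {l η₀ : ℝ} (hl : 0 ≤ l) (hη₀ : 0 ≤ η₀) (hη : l ≤ η₀ * √(κ' * a₀))
    (hFp : ∀ᵐ o ∂C.μ, s0 < |χ (C.pt o)| → |χ (C.pt o)| ≤ s1 → ∀ η, 0 ≤ η → η ≤ η₀ →
      2 * η * β |χ (C.pt o)| * gn C χ o - η ^ 2 ≤ F o) :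
    2 * l * (G s1 - G s0) + l ^ 2 / κ' * (Real.log (supa C χ s1) - Real.log (supa C χ s0)) ≤
      ∫ o in {o | s0 < |χ (C.pt o)| ∧ |χ (C.pt o)| ≤ s1}, F o ∂C.μ := by
  obtain ⟨K, hK⟩ := hχ
  have hgK := gn_bd C hK
  set pr : (Unit → ℝ) →L[ℝ] ℝ := ContinuousLinearMap.proj () with hpr
  set S : ℝ → (Unit → ℝ) → ℝ := fun s x => -(2 * l * G s) - l ^ 2 / κ' * Real.log (x ()) with hSd
  set S' : ℝ → (Unit → ℝ) → (ℝ × (Unit → ℝ)) →L[ℝ] ℝ := fun s x =>
    -((2 * l * β s) • ContinuousLinearMap.fst ℝ ℝ (Unit → ℝ)) -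
      ((l ^ 2 / κ' * (x ())⁻¹) • pr).comp (ContinuousLinearMap.snd ℝ ℝ (Unit → ℝ)) with hS'
  have S1 : ∀ s x, S' s x (1, 0) = -(2 * l * β s) := fun s x => by
    simp [hS', hpr]
  have S2 : ∀ s x y, S' s x (0, y) = -(l ^ 2 / κ' * (x ())⁻¹ * y ()) := fun s x y => by
    simp [hS', hpr]
  set D : Set (Unit → ℝ) := {x | a₀ ≤ x ()} with hD
  have hDc : Convex ℝ D := by
    intro x hx y hy a b ha hb hab
    have hx' : a₀ ≤ x () := hx
    have hy' : a₀ ≤ y () := hy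
    change a₀ ≤ (a • x + b • y) ()
    simp only [Pi.add_apply, Pi.smul_apply, smul_eq_mul]
    have k1 := mul_le_mul_of_nonneg_left hx' ha
    have k2 := mul_le_mul_of_nonneg_left hy' hb
    have k3 : a * a₀ + b * a₀ = a₀ := by rw [← add_mul, hab, one_mul]
    linarith
  have hSx : ∀ s x, s0 ≤ s → s ≤ s1 → x ∈ D →
      HasFDerivAt (fun z : ℝ × (Unit → ℝ) => S z.1 z.2) (S' s x) (s, x) := by
    intro s x h1 h2 hxD
    have hx0 : x () ≠ 0 := (ha₀.trans_le hxD).ne'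
    have e1 : HasFDerivAt (fun z : ℝ × (Unit → ℝ) => G z.1)
        ((β s) • ContinuousLinearMap.fst ℝ ℝ (Unit → ℝ)) (s, x) := by
      have := (hG s h1 h2).comp_hasFDerivAt (s, x)
        (hasFDerivAt_fst (𝕜 := ℝ) (E := ℝ) (F := Unit → ℝ) (p := (s, x)))
      exact this
    have e2 : HasFDerivAt (fun z : ℝ × (Unit → ℝ) => z.2 ())
        (pr.comp (ContinuousLinearMap.snd ℝ ℝ (Unit → ℝ))) (s, x) :=
      (pr.comp (ContinuousLinearMap.snd ℝ ℝ (Unit → ℝ))).hasFDerivAt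
    have e3 : HasFDerivAt (fun z : ℝ × (Unit → ℝ) => Real.log (z.2 ()))
        ((x ())⁻¹ • pr.comp (ContinuousLinearMap.snd ℝ ℝ (Unit → ℝ))) (s, x) :=
      e2.log hx0
    have e4 := ((e1.const_mul (2 * l)).neg).sub (e3.const_mul (l ^ 2 / κ'))
    refine e4.congr_fderiv ?_
    refine ContinuousLinearMap.ext fun z => ?_
    simp [hS', hpr]
    ring
  have hbB : ∀ s, s0 ≤ s → s ≤ s1 → β s ≤ β s0 + |Λ| * (s1 - s0) := by
    intro s h1 h2
    have h3 := hβ s s0 le_rfl h1 h2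
    have h4 : Λ * (s - s0) ≤ |Λ| * (s1 - s0) :=
      mul_le_mul (le_abs_self Λ) (by linarith) (by linarith) (abs_nonneg _)
    linarith
  have hB0 : 0 ≤ β s0 + |Λ| * (s1 - s0) := (hβ0 s0 le_rfl hs).trans (hbB s0 le_rfl hs)
  set L : ℝ := 2 * l * (β s0 + |Λ| * (s1 - s0)) + 2 * η₀ * |Λ| * K with hL
  have hL0 : 0 ≤ L := by positivity
  have hL1 : 2 * l * (β s0 + |Λ| * (s1 - s0)) ≤ L := by
    have : 0 ≤ 2 * η₀ * |Λ| * K := by positivity
    linarith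
  have hL2 : 2 * η₀ * |Λ| * K ≤ L := by
    have : 0 ≤ 2 * l * (β s0 + |Λ| * (s1 - s0)) := by positivity
    linarith
  have hmain := even_hj C hv ⟨K, hK⟩ eχ hI (Wim := fun _ => 0)
    (ae_of_all _ fun t _ => sq_nonneg _) (γs := fun (_ : Unit) _ => (1 : ℝ))
    (fun _ => by have := C.fin; exact integrable_const _) hF hs0 hs hL0 hDc
    (fun s h1 h2 => by
      change a₀ ≤ supw C χ (fun _ => 1) s
      rw [supw_one]
      exact ha0.trans (supa_anti C χ h2))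
    (fun s h1 _ => (supa_anti C χ h1.le).trans hA)
    (S := S) (S' := S') hSx
    (fun s x h1 h2 _ => by
      rw [S1]
      have h3 := mul_le_mul_of_nonneg_left (hbB s h1 h2) (by positivity : 0 ≤ 2 * l)
      linarith)
    (by
      filter_upwards [hFp] with o ho s x a hxD b c
      rw [S2]
      have hx0 : 0 < x () := ha₀.trans_le hxD
      have h4 := ho (by linarith) c 0 le_rfl hη₀
      have h5 : 0 ≤ l ^ 2 / κ' * (x ())⁻¹ * 1 := by positivity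
      have h6 : 0 ≤ L * (|χ (C.pt o)| - s) := mul_nonneg hL0 (by linarith)
      have h7 : 2 * (0 : ℝ) * β |χ (C.pt o)| * gn C χ o - 0 ^ 2 = 0 := by ring
      linarith)
    (by
      refine ae_of_all _ fun s h1 h2 l' V hl' hV hl2 _ => ?_
      have hxs : (fun i : Unit => supw C χ ((fun (_ : Unit) _ => (1 : ℝ)) i) s) () =
          supa C χ s := supw_one C χ s
      have haS : a₀ ≤ supa C χ s := ha0.trans (supa_anti C χ h2.le)
      have haS0 : 0 < supa C χ s := ha₀.trans_le haS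
      set q := √(κ' * supa C χ s) with hq
      have hq0 : 0 < q := Real.sqrt_pos.2 (by positivity)
      have hq2 : q ^ 2 = κ' * supa C χ s := Real.sq_sqrt (by positivity)
      have hql : q ≤ l' := by
        rw [hq, ← Real.sqrt_sq hl']
        exact Real.sqrt_le_sqrt ((hκ _ haS).trans hl2)
      have hβs := hβ0 s h1.le h2.le
      have hηq : l / q ≤ η₀ := by
        rw [div_le_iff₀ hq0]
        refine hη.trans (mul_le_mul_of_nonneg_left ?_ hη₀)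
        exact Real.sqrt_le_sqrt (mul_le_mul_of_nonneg_left haS hκ'.le)
      refine ⟨2 * (l / q) * β s, 0, by positivity, le_rfl, ?_, s - s0, by linarith, ?_⟩
      · have e0 := S1 s (fun _ => supw C χ (fun _ => 1) s)
        refine (le_of_eq (congrArg Neg.neg e0)).trans ?_
        have h3 : 2 * l * β s = 2 * (l / q) * β s * q := by field_simp
        have h4 : 2 * (l / q) * β s * q ≤ 2 * (l / q) * β s * l' :=
          mul_le_mul_of_nonneg_left hql (by positivity)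
        linarith
      · filter_upwards [hFp, hgK] with o ho hgo c d
        have hc : s0 < |χ (C.pt o)| := by linarith
        have h5 := ho hc (d.trans h2.le) (l / q) (by positivity) hηq
        have e0 := S2 s (fun _ => supw C χ (fun _ => 1) s) (fun _ => 1)
        simp only [supw_one, mul_one] at e0
        have hg0 := gn_nonneg C χ o
        have h6 : (l / q) ^ 2 = l ^ 2 / κ' * (supa C χ s)⁻¹ := by
          rw [div_pow, hq2]
          field_simp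
        have h7 := hβ s |χ (C.pt o)| hc.le d h2.le
        have h8 : 0 ≤ s - |χ (C.pt o)| := by linarith
        have h9 : Λ * (s - |χ (C.pt o)|) ≤ |Λ| * (s - |χ (C.pt o)|) :=
          mul_le_mul_of_nonneg_right (le_abs_self _) h8
        have h10 : 2 * (l / q) * (β s - β |χ (C.pt o)|) * gn C χ o ≤
            2 * η₀ * (|Λ| * (s - |χ (C.pt o)|)) * K := by
          have k1 : (β s - β |χ (C.pt o)|) * gn C χ o ≤ (|Λ| * (s - |χ (C.pt o)|)) * K := by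
            calc (β s - β |χ (C.pt o)|) * gn C χ o ≤ (|Λ| * (s - |χ (C.pt o)|)) * gn C χ o :=
                  mul_le_mul_of_nonneg_right (h7.trans h9) hg0
              _ ≤ (|Λ| * (s - |χ (C.pt o)|)) * K := mul_le_mul_of_nonneg_left hgo (by positivity)
          have k2 : 0 ≤ (|Λ| * (s - |χ (C.pt o)|)) * K := by positivity
          have k3 : 2 * (l / q) * ((β s - β |χ (C.pt o)|) * gn C χ o) ≤
              2 * (l / q) * ((|Λ| * (s - |χ (C.pt o)|)) * K) :=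
            mul_le_mul_of_nonneg_left k1 (by positivity)
          have k4 : 2 * (l / q) * ((|Λ| * (s - |χ (C.pt o)|)) * K) ≤
              2 * η₀ * ((|Λ| * (s - |χ (C.pt o)|)) * K) :=
            mul_le_mul_of_nonneg_right (by linarith) k2
          linarith
        have h11 := mul_le_mul_of_nonneg_right hL2 h8
        have e00 : -(l ^ 2 / κ' * (supa C χ s)⁻¹) +
            2 * (l / q) * β s * gn C χ o + 0 * (opn C v o * gn C χ o) ≤
            F o + L * (s - |χ (C.pt o)|) := by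
          rw [← h6]
          nlinarith
        refine le_trans (le_of_eq ?_) e00
        refine congrArg (fun z => z + 2 * (l / q) * β s * gn C χ o +
          0 * (opn C v o * gn C χ o)) ?_
        refine Eq.trans ?_ e0
        simp only [supw_one])
  have e1 : S s0 (fun i => supw C χ ((fun (_ : Unit) _ => (1 : ℝ)) i) s0) =
      -(2 * l * G s0) - l ^ 2 / κ' * Real.log (supa C χ s0) := by
    change -(2 * l * G s0) - l ^ 2 / κ' * Real.log (supw C χ (fun _ => 1) s0) = _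
    rw [supw_one]
  have e2 : S s1 (fun i => supw C χ ((fun (_ : Unit) _ => (1 : ℝ)) i) s1) =
      -(2 * l * G s1) - l ^ 2 / κ' * Real.log (supa C χ s1) := by
    change -(2 * l * G s1) - l ^ 2 / κ' * Real.log (supw C χ (fun _ => 1) s1) = _
    rw [supw_one]
  rw [e1, e2] at hmain
  linarith

theorem meas_band (C : Calc M γ) {χ : M → ℝ} (hχ : Lip χ) (s0 s1 : ℝ) :
    NullMeasurableSet {o | s0 < |χ (C.pt o)| ∧ |χ (C.pt o)| ≤ s1} C.μ := by
  have h : {o | s0 < |χ (C.pt o)| ∧ |χ (C.pt o)| ≤ s1} =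
      {o | s0 < |χ (C.pt o)|} \ {o | s1 < |χ (C.pt o)|} := by
    ext o
    simp only [Set.mem_ofPred_eq, Set.mem_sdiff, not_lt]
  rw [h]
  exact (meas_abs_lt C hχ s0).diff (meas_abs_lt C hχ s1)

/-- **The band**: `G' = β`, `l ≤ η₀ √(κ' a₀)`. -/
theorem bnd_s (C : Calc M γ) {v : Fin 3 → M → ℝ} (hv : Sph γ v) {χ : M → ℝ} (hχ : Lip χ)
    (eχ : EvenB γ χ) {κ κ' a₀ a₁ A₁ ε : ℝ} (hI : IsopE C κ a₁ ε) (hκ' : 0 < κ') (ha₀ : 0 < a₀)
    (hκ : ∀ a, a₀ ≤ a → κ' * a ≤ κ * (a - ε)) {F : Om → ℝ} (hF : Integrable F C.μ)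
    {s0 s1 : ℝ} (hs0 : 0 ≤ s0) (hs : s0 ≤ s1) (hA : s0 < s1 → supa C χ s0 ≤ A₁) (hA1 : A₁ ≤ a₁)
    (h01 : a₀ ≤ A₁) (ha0 : ∀ s, s0 < s → s < s1 → a₀ ≤ supa C χ s)
    {β G : ℝ → ℝ} (hG : ∀ s, s0 ≤ s → s ≤ s1 → HasDerivAt G (β s) s)
    (hβ0 : ∀ s, s0 ≤ s → s ≤ s1 → 0 ≤ β s) {Λ : ℝ}
    (hβ : ∀ s s', s0 ≤ s' → s' ≤ s → s ≤ s1 → β s - β s' ≤ Λ * (s - s'))
    {l η₀ : ℝ} (hl : 0 ≤ l) (hη₀ : 0 ≤ η₀) (hη : l ≤ η₀ * √(κ' * a₀))
    (hFp : ∀ᵐ o ∂C.μ, s0 < |χ (C.pt o)| → |χ (C.pt o)| ≤ s1 → ∀ η, 0 ≤ η → η ≤ η₀ →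
      2 * η * β |χ (C.pt o)| * gn C χ o - η ^ 2 ≤ F o) :
    2 * l * (G s1 - G s0) - l ^ 2 / κ' * Real.log (A₁ / a₀) ≤
      ∫ o in {o | s0 < |χ (C.pt o)| ∧ |χ (C.pt o)| ≤ s1}, F o ∂C.μ := by
  have := C.fin
  have hA0 : 0 < A₁ := ha₀.trans_le h01
  have hlog : 0 ≤ Real.log (A₁ / a₀) := Real.log_nonneg ((one_le_div ha₀).2 h01)
  have hq : 0 ≤ l ^ 2 / κ' := by positivity
  have hF0 : ∀ᵐ o ∂C.μ, s0 < |χ (C.pt o)| → |χ (C.pt o)| ≤ s1 → 0 ≤ F o := by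
    filter_upwards [hFp] with o ho a b
    have := ho a b 0 le_rfl hη₀
    have h7 : 2 * (0 : ℝ) * β |χ (C.pt o)| * gn C χ o - 0 ^ 2 = 0 := by ring
    linarith
  rcases hs.eq_or_lt with h0 | h0
  · subst h0
    have h1 : {o | s0 < |χ (C.pt o)| ∧ |χ (C.pt o)| ≤ s0} = (∅ : Set Om) := by
      ext o
      simp only [Set.mem_ofPred_eq, mem_empty_iff_false, iff_false, not_and, not_le]
      exact fun h => h
    rw [h1, setIntegral_empty, sub_self, mul_zero]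
    have := mul_nonneg hq hlog
    linarith
  have hstep : ∀ s, s0 < s → s < s1 → 2 * l * (G s - G s0) - l ^ 2 / κ' * Real.log (A₁ / a₀) ≤
      ∫ o in {o | s0 < |χ (C.pt o)| ∧ |χ (C.pt o)| ≤ s1}, F o ∂C.μ := by
    intro s h1 h2
    have h3 := bnd_pre C hv hχ eχ hI hκ' ha₀ hκ hF hs0 h1.le ((hA h0).trans hA1) (ha0 s h1 h2)
      (fun u a b => hG u a (b.trans h2.le)) (fun u a b => hβ0 u a (b.trans h2.le))
      (fun u u' a b c => hβ u u' a b (c.trans h2.le)) hl hη₀ hη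
      (by
        filter_upwards [hFp] with o ho a b
        exact ho a (b.trans h2.le))
    have h4 : Real.log a₀ ≤ Real.log (supa C χ s) := Real.log_le_log ha₀ (ha0 s h1 h2)
    have h5 : Real.log (supa C χ s0) ≤ Real.log A₁ := by
      refine Real.log_le_log ?_ (hA h0)
      exact ha₀.trans_le ((ha0 s h1 h2).trans (supa_anti C χ h1.le))
    have h6 : Real.log (A₁ / a₀) = Real.log A₁ - Real.log a₀ := Real.log_div hA0.ne' ha₀.ne'
    have h7 : l ^ 2 / κ' * (Real.log a₀ - Real.log A₁) ≤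
        l ^ 2 / κ' * (Real.log (supa C χ s) - Real.log (supa C χ s0)) :=
      mul_le_mul_of_nonneg_left (by linarith) hq
    have h8 : ∫ o in {o | s0 < |χ (C.pt o)| ∧ |χ (C.pt o)| ≤ s}, F o ∂C.μ ≤
        ∫ o in {o | s0 < |χ (C.pt o)| ∧ |χ (C.pt o)| ≤ s1}, F o ∂C.μ := by
      refine setIntegral_mono_set hF.integrableOn ?_ (LE.le.eventuallyLE fun o ho => ?_)
      · rw [EventuallyLE, ae_restrict_iff'₀ (meas_band C hχ s0 s1)]
        filter_upwards [hF0] with o ho a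
        exact ho a.1 a.2
      · obtain ⟨a, b⟩ := ho
        exact ⟨a, b.trans h2.le⟩
    rw [h6]
    linarith
  have hc : Tendsto (fun s => 2 * l * (G s - G s0) - l ^ 2 / κ' * Real.log (A₁ / a₀)) (𝓝[<] s1)
      (𝓝 (2 * l * (G s1 - G s0) - l ^ 2 / κ' * Real.log (A₁ / a₀))) := by
    have h1 : ContinuousAt G s1 := (hG s1 hs le_rfl).continuousAt
    have h2 : ContinuousAt (fun s => 2 * l * (G s - G s0) - l ^ 2 / κ' * Real.log (A₁ / a₀)) s1 :=
      (continuousAt_const.mul (h1.sub continuousAt_const)).sub continuousAt_const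
    exact h2.tendsto.mono_left nhdsWithin_le_nhds
  refine le_of_tendsto hc ?_
  filter_upwards [Ioo_mem_nhdsLT h0] with s hs'
  exact hstep s hs'.1 hs'.2

/-- the optimal flux `l = κ' (G s1 - G s0) / log (A₁/a₀)` -/
theorem bnd_opt {κ' g Lg : ℝ} (hκ' : 0 < κ') (hL : 0 < Lg) :
    2 * (κ' * g / Lg) * g - (κ' * g / Lg) ^ 2 / κ' * Lg = κ' * g ^ 2 / Lg := by
  field_simp
  ring

/-- a level between `s0` and `s1` where the area passes `a` -/
theorem bnd_mid (C : Calc M γ) {χ : M → ℝ} {R : ℝ} (gR : ∀ᵐ o ∂C.μ, |χ (C.pt o)| ≤ R) {a : ℝ}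
    (ha : 0 < a) {s0 s1 : ℝ} (hs0 : 0 ≤ s0) (hs : s0 ≤ s1) :
    ∃ σ, s0 ≤ σ ∧ σ ≤ s1 ∧ (σ < s1 → supa C χ σ ≤ a) ∧
      ∀ s, s0 < s → s < σ → a ≤ supa C χ s := by
  rcases le_or_gt (supa C χ s0) a with h | h
  · exact ⟨s0, le_rfl, hs, fun _ => h, fun s a b => absurd a (not_lt.2 b.le)⟩
  obtain ⟨T, T0, TR, hT1, hT2⟩ := crossing C gR ha (h.le.trans (supa_anti C χ hs0))
  rcases le_total T s1 with h2 | h2
  · refine ⟨max s0 T, le_max_left _ _, max_le hs h2, fun _ => ?_, fun s b c => ?_⟩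
    · exact (supa_anti C χ (le_max_right _ _)).trans hT1
    · rcases lt_max_iff.1 c with d | d
      · exact absurd d (not_lt.2 b.le)
      · exact hT2 s (hs0.trans b.le) d
  · exact ⟨s1, hs, le_rfl, fun h3 => absurd h3 (lt_irrefl _),
      fun s b c => hT2 s (hs0.trans b.le) (c.trans_le h2)⟩

/-- additivity over bands -/
theorem bnd_add (C : Calc M γ) {χ : M → ℝ} (hχ : Lip χ) {F : Om → ℝ} (hF : Integrable F C.μ)
    {s0 σ s1 : ℝ} (h1 : s0 ≤ σ) (h2 : σ ≤ s1) :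
    ∫ o in {o | s0 < |χ (C.pt o)| ∧ |χ (C.pt o)| ≤ s1}, F o ∂C.μ =
      ∫ o in {o | s0 < |χ (C.pt o)| ∧ |χ (C.pt o)| ≤ σ}, F o ∂C.μ +
        ∫ o in {o | σ < |χ (C.pt o)| ∧ |χ (C.pt o)| ≤ s1}, F o ∂C.μ := by
  have h3 : {o | s0 < |χ (C.pt o)| ∧ |χ (C.pt o)| ≤ s1} =
      {o | s0 < |χ (C.pt o)| ∧ |χ (C.pt o)| ≤ σ} ∪ {o | σ < |χ (C.pt o)| ∧ |χ (C.pt o)| ≤ s1} := by
    ext o
    simp only [Set.mem_ofPred_eq, mem_union]
    constructor
    · rintro ⟨a, b⟩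
      rcases le_or_gt |χ (C.pt o)| σ with c | c
      · exact Or.inl ⟨a, c⟩
      · exact Or.inr ⟨c, b⟩
    · rintro (⟨a, b⟩ | ⟨a, b⟩)
      · exact ⟨a, b.trans h2⟩
      · exact ⟨h1.trans_lt a, b⟩
  rw [h3]
  refine setIntegral_union₀ ?_ (meas_band C hχ σ s1) hF.integrableOn hF.integrableOn
  refine Disjoint.aedisjoint (Set.disjoint_left.2 fun o a b => ?_)
  exact absurd b.1 (not_lt.2 a.2)

/-- mixing a member `b₀` (`y ≤ y₀`) with the base member that keeps the reserve `E`: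
share `r` of the reserve, weight `b = b₀/(1 - r + r b₀)`, written with `β² ≤ 1/b` -/
theorem ring_mix {F E g c b₀ y₀ r β η : ℝ} (hb0 : 0 < b₀) (hr0 : 0 ≤ r) (hr1 : r ≤ 1)
    (hβ : 0 ≤ β) (hβ2 : b₀ * β ^ 2 ≤ 1 - r + r * b₀) (hη : 0 ≤ η)
    (hη0 : η * β ≤ (1 - r + r * b₀) * y₀)
    (h1 : ∀ y, 0 ≤ y → y ≤ y₀ → 2 * y * g - b₀ * y ^ 2 + c ≤ F)
    (h2 : ∀ y, 0 ≤ y → 2 * y * g - y ^ 2 + c ≤ F - E) :
    2 * η * β * g - η ^ 2 + c ≤ F - r * E := by
  set w := 1 - r + r * b₀ with hw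
  have hw0 : 0 < w := by
    rcases hr1.eq_or_lt with h | h
    · rw [hw, h]
      linarith
    · have := mul_nonneg hr0 hb0.le
      rw [hw]
      linarith
  have h3 := h1 (η * β / w) (by positivity) (by
    rw [div_le_iff₀ hw0]
    linarith)
  have h4 := h2 (η * β * b₀ / w) (by positivity)
  have h5 := mul_le_mul_of_nonneg_left h3 (sub_nonneg.2 hr1)
  have h6 := mul_le_mul_of_nonneg_left h4 hr0
  have e1 : (1 - r) * (2 * (η * β / w) * g - b₀ * (η * β / w) ^ 2 + c) +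
      r * (2 * (η * β * b₀ / w) * g - (η * β * b₀ / w) ^ 2 + c) =
      2 * η * β * g * (((1 - r) + r * b₀) / w) -
        b₀ * (η * β) ^ 2 * (((1 - r) + r * b₀) / w) / w + c := by
    field_simp
    ring
  have e2 : ((1 - r) + r * b₀) / w = 1 := by
    rw [← hw]
    exact div_self hw0.ne'
  rw [e2] at e1
  have h7 : b₀ * (η * β) ^ 2 * 1 / w ≤ η ^ 2 := by
    rw [mul_one, div_le_iff₀ hw0]
    have := mul_le_mul_of_nonneg_left hβ2 (sq_nonneg η)
    nlinarith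
  have e3 : (1 - r) * F + r * (F - E) = F - r * E := by ring
  linarith

/-- explicit `β` of the ring: `β(u) = c₀ (1 - z/2 - z²/2)`, `z = k/u²`, `k = (1 - b₀) τ²` -/
def ringβ (c₀ k u : ℝ) : ℝ := c₀ * (1 - k / (2 * u ^ 2) - k ^ 2 / (2 * u ^ 4))

/-- its primitive -/
def ringG (c₀ k u : ℝ) : ℝ := c₀ * (u + k / (2 * u) + k ^ 2 / (6 * u ^ 3))

theorem ringG_deriv (c₀ k : ℝ) {u : ℝ} (hu : 0 < u) : HasDerivAt (ringG c₀ k) (ringβ c₀ k u) u := by
  have h1 : HasDerivAt (fun u : ℝ => u) 1 u := hasDerivAt_id u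
  have h2 : HasDerivAt (fun u : ℝ => k / (2 * u)) (-(k / (2 * u ^ 2))) u := by
    have := (hasDerivAt_const u k).div (h1.const_mul 2) (by positivity)
    refine this.congr_deriv ?_
    field_simp
    ring
  have h3 : HasDerivAt (fun u : ℝ => k ^ 2 / (6 * u ^ 3)) (-(k ^ 2 / (2 * u ^ 4))) u := by
    have := (hasDerivAt_const u (k ^ 2)).div ((hasDerivAt_pow 3 u).const_mul 6) (by positivity)
    refine this.congr_deriv ?_
    field_simp
    norm_num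
    ring
  have h4 := ((h1.add h2).add h3).const_mul c₀
  refine h4.congr_deriv ?_
  unfold ringβ
  ring

theorem ringβ_eq (c₀ k u : ℝ) :
    ringβ c₀ k u = c₀ * ((1 - k / u ^ 2) * (1 + k / u ^ 2 / 2)) := by
  unfold ringβ
  have h1 : k / (2 * u ^ 2) = k / u ^ 2 / 2 := by rw [div_div, mul_comm 2 (u ^ 2)]
  have h2 : k ^ 2 / (2 * u ^ 4) = (k / u ^ 2) ^ 2 / 2 := by
    rw [div_pow, div_div, mul_comm 2 (u ^ 4)]
    ring_nf
  rw [h1, h2]
  ring

/-- the ring instance: member `(y₀, b₀)` for `F`, base member for `F - E`, share `(τ/u)²` of `E` -/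
theorem bnd_ring (C : Calc M γ) {v : Fin 3 → M → ℝ} (hv : Sph γ v) {χ : M → ℝ} (hχ : Lip χ)
    (eχ : EvenB γ χ) {κ κ' a₀ a₁ A₁ ε : ℝ} (hI : IsopE C κ a₁ ε) (hκ' : 0 < κ') (ha₀ : 0 < a₀)
    (hκ : ∀ a, a₀ ≤ a → κ' * a ≤ κ * (a - ε)) {F E N : Om → ℝ} (hN : Integrable N C.μ)
    {τ s0 s1 : ℝ} (hτ : 0 ≤ τ) (hτs : τ ≤ s0) (hs0 : 0 < s0) (hs : s0 ≤ s1)
    (hA : s0 < s1 → supa C χ s0 ≤ A₁) (hA1 : A₁ ≤ a₁)
    (h01 : a₀ ≤ A₁) (ha0 : ∀ s, s0 < s → s < s1 → a₀ ≤ supa C χ s)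
    {b₀ c₀ y₀ l η₀ : ℝ} (hb0 : 0 < b₀) (hb1 : b₀ ≤ 1) (hc₀ : 0 ≤ c₀) (hbc : b₀ * c₀ ^ 2 ≤ 1)
    (hl : 0 ≤ l) (hη₀ : 0 ≤ η₀) (hη : l ≤ η₀ * √(κ' * a₀)) (hy : η₀ * c₀ * ((3 - b₀) / 2) ≤ y₀)
    (hFr : ∀ᵐ o ∂C.μ, s0 < |χ (C.pt o)| → |χ (C.pt o)| ≤ s1 → ∀ y, 0 ≤ y → y ≤ y₀ →
      2 * y * gn C χ o - b₀ * y ^ 2 ≤ F o)
    (hFb : ∀ᵐ o ∂C.μ, s0 < |χ (C.pt o)| → |χ (C.pt o)| ≤ s1 → ∀ y, 0 ≤ y →
      2 * y * gn C χ o - y ^ 2 ≤ F o - E o)
    (hFN : ∀ᵐ o ∂C.μ, s0 < |χ (C.pt o)| → |χ (C.pt o)| ≤ s1 →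
      F o - (τ / |χ (C.pt o)|) ^ 2 * E o ≤ N o) :
    2 * l * (ringG c₀ ((1 - b₀) * τ ^ 2) s1 - ringG c₀ ((1 - b₀) * τ ^ 2) s0) -
        l ^ 2 / κ' * Real.log (A₁ / a₀) ≤
      ∫ o in {o | s0 < |χ (C.pt o)| ∧ |χ (C.pt o)| ≤ s1}, N o ∂C.μ := by
  set k := (1 - b₀) * τ ^ 2 with hk
  have hk0 : 0 ≤ k := mul_nonneg (by linarith) (sq_nonneg τ)
  -- `z = k/u²`
  have hz : ∀ u, s0 ≤ u → 0 ≤ k / u ^ 2 ∧ k / u ^ 2 ≤ 1 - b₀ ∧ (1 - b₀) * (τ / u) ^ 2 = k / u ^ 2 := by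
    intro u hu
    have hu0 : 0 < u := hs0.trans_le hu
    refine ⟨by positivity, ?_, ?_⟩
    · rw [div_le_iff₀ (by positivity)]
      exact mul_le_mul_of_nonneg_left (pow_le_pow_left₀ hτ (hτs.trans hu) 2) (by linarith)
    · rw [hk, div_pow]
      ring
  have hβ0 : ∀ u, s0 ≤ u → u ≤ s1 → 0 ≤ ringβ c₀ k u := by
    intro u hu _
    obtain ⟨z0, z1, -⟩ := hz u hu
    rw [ringβ_eq]
    exact mul_nonneg hc₀ (mul_nonneg (by linarith) (by linarith))
  refine bnd_s C hv hχ eχ hI hκ' ha₀ hκ hN hs0.le hs hA hA1 h01 ha0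
    (fun u a _ => ringG_deriv c₀ k (hs0.trans_le a)) hβ0
    (Λ := c₀ * (k / s0 ^ 3 + 2 * k ^ 2 / s0 ^ 5)) ?_ hl hη₀ hη ?_
  · -- Lipschitz bound
    intro u u' h1 h2 _
    have hu' : 0 < u' := hs0.trans_le h1
    have hu : 0 < u := hu'.trans_le h2
    have e1 : k / (2 * u' ^ 2) - k / (2 * u ^ 2) ≤ k / s0 ^ 3 * (u - u') := by
      have i1 : 1 / u' - 1 / u ≤ (u - u') / s0 ^ 2 := by
        have : 1 / u' - 1 / u = (u - u') / (u' * u) := by
          field_simp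
        rw [this]
        refine div_le_div_of_nonneg_left (by linarith) (by positivity) ?_
        nlinarith
      have i2 : 1 / u' + 1 / u ≤ 2 / s0 := by
        have a1 : 1 / u' ≤ 1 / s0 := one_div_le_one_div_of_le hs0 h1
        have a2 : 1 / u ≤ 1 / s0 := one_div_le_one_div_of_le hs0 (h1.trans h2)
        have a3 : 2 / s0 = 1 / s0 + 1 / s0 := by ring
        linarith
      have i3 : k / (2 * u' ^ 2) - k / (2 * u ^ 2) =
          k / 2 * ((1 / u' - 1 / u) * (1 / u' + 1 / u)) := by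
        field_simp
        ring
      rw [i3]
      have i4 : (1 / u' - 1 / u) * (1 / u' + 1 / u) ≤ (u - u') / s0 ^ 2 * (2 / s0) := by
        refine mul_le_mul i1 i2 (by positivity) ?_
        exact div_nonneg (by linarith) (by positivity)
      have i5 := mul_le_mul_of_nonneg_left i4 (by positivity : 0 ≤ k / 2)
      refine i5.trans (le_of_eq ?_)
      field_simp
    have e2 : k ^ 2 / (2 * u' ^ 4) - k ^ 2 / (2 * u ^ 4) ≤ 2 * k ^ 2 / s0 ^ 5 * (u - u') := by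
      have i1 : 1 / u' - 1 / u ≤ (u - u') / s0 ^ 2 := by
        have : 1 / u' - 1 / u = (u - u') / (u' * u) := by
          field_simp
        rw [this]
        refine div_le_div_of_nonneg_left (by linarith) (by positivity) ?_
        nlinarith
      have a1 : 1 / u' ≤ 1 / s0 := one_div_le_one_div_of_le hs0 h1
      have a2 : 1 / u ≤ 1 / s0 := one_div_le_one_div_of_le hs0 (h1.trans h2)
      have b1 : 0 ≤ 1 / u' := by positivity
      have b2 : 0 ≤ 1 / u := by positivity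
      have i2 : (1 / u' + 1 / u) * ((1 / u') ^ 2 + (1 / u) ^ 2) ≤ 4 * (1 / s0) ^ 3 := by
        have c1 : 1 / u' + 1 / u ≤ 2 * (1 / s0) := by linarith
        have c2 : (1 / u') ^ 2 + (1 / u) ^ 2 ≤ 2 * (1 / s0) ^ 2 := by
          have := pow_le_pow_left₀ b1 a1 2
          have := pow_le_pow_left₀ b2 a2 2
          linarith
        refine (mul_le_mul c1 c2 (by positivity) (by positivity)).trans (le_of_eq ?_)
        ring
      have i3 : k ^ 2 / (2 * u' ^ 4) - k ^ 2 / (2 * u ^ 4) =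
          k ^ 2 / 2 * ((1 / u' - 1 / u) * ((1 / u' + 1 / u) * ((1 / u') ^ 2 + (1 / u) ^ 2))) := by
        field_simp
        ring
      rw [i3]
      have i4 : (1 / u' - 1 / u) * ((1 / u' + 1 / u) * ((1 / u') ^ 2 + (1 / u) ^ 2)) ≤
          (u - u') / s0 ^ 2 * (4 * (1 / s0) ^ 3) := by
        refine mul_le_mul i1 i2 (by positivity) ?_
        exact div_nonneg (by linarith) (by positivity)
      have i5 := mul_le_mul_of_nonneg_left i4 (by positivity : 0 ≤ k ^ 2 / 2)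
      refine i5.trans (le_of_eq ?_)
      field_simp
      ring
    have e3 : ringβ c₀ k u - ringβ c₀ k u' =
        c₀ * ((k / (2 * u' ^ 2) - k / (2 * u ^ 2)) + (k ^ 2 / (2 * u' ^ 4) - k ^ 2 / (2 * u ^ 4))) := by
      unfold ringβ
      ring
    rw [e3]
    have e4 := mul_le_mul_of_nonneg_left (add_le_add e1 e2) hc₀
    refine e4.trans (le_of_eq ?_)
    ring
  · filter_upwards [hFr, hFb, hFN] with o h1 h2 h3 a b η h4 h5
    have h1' := h1 a b
    have h2' := h2 a b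
    have h3' := h3 a b
    set u := |χ (C.pt o)| with hu
    obtain ⟨z0, z1, z2⟩ := hz u a.le
    have hu0 : 0 < u := hs0.trans a
    have hr1 : (τ / u) ^ 2 ≤ 1 := by
      rw [div_pow, div_le_one (by positivity)]
      exact pow_le_pow_left₀ hτ (hτs.trans a.le) 2
    have hw : 1 - (τ / u) ^ 2 + (τ / u) ^ 2 * b₀ = 1 - k / u ^ 2 := by
      rw [← z2]
      ring
    have h6 := ring_mix (F := F o) (E := E o) (g := gn C χ o) (c := 0) (b₀ := b₀) (y₀ := y₀)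
      (r := (τ / u) ^ 2) (β := ringβ c₀ k u) (η := η) hb0 (sq_nonneg _) hr1 (hβ0 u a.le b) (by
        rw [hw, ringβ_eq]
        have g1 : 0 ≤ 1 - k / u ^ 2 := by linarith
        have g2 : (1 - k / u ^ 2) * (1 + k / u ^ 2 / 2) ^ 2 ≤ 1 := by
          set z := k / u ^ 2 with hz'
          nlinarith [mul_nonneg z0 z0, mul_nonneg (mul_nonneg z0 z0) z0]
        have g3 : b₀ * (c₀ * ((1 - k / u ^ 2) * (1 + k / u ^ 2 / 2))) ^ 2 =
            (b₀ * c₀ ^ 2) * ((1 - k / u ^ 2) * ((1 - k / u ^ 2) * (1 + k / u ^ 2 / 2) ^ 2)) := by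
          ring
        rw [g3]
        have g4 : (1 - k / u ^ 2) * ((1 - k / u ^ 2) * (1 + k / u ^ 2 / 2) ^ 2) ≤
            (1 - k / u ^ 2) * 1 := mul_le_mul_of_nonneg_left g2 g1
        have g5 : 0 ≤ (1 - k / u ^ 2) * ((1 - k / u ^ 2) * (1 + k / u ^ 2 / 2) ^ 2) := by positivity
        have g6 := mul_le_mul_of_nonneg_right hbc g5
        linarith) h4 (by
        rw [hw, ringβ_eq]
        have g1 : 0 ≤ 1 - k / u ^ 2 := by linarith
        have g2 : η * c₀ * (1 + k / u ^ 2 / 2) ≤ y₀ := by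
          refine le_trans ?_ hy
          have j1 : η * c₀ ≤ η₀ * c₀ := mul_le_mul_of_nonneg_right h5 hc₀
          have j2 : 1 + k / u ^ 2 / 2 ≤ (3 - b₀) / 2 := by linarith
          exact mul_le_mul j1 j2 (by positivity) (by positivity)
        have g3 := mul_le_mul_of_nonneg_left g2 g1
        refine le_trans (le_of_eq ?_) g3
        ring)
      (fun y c d => by
        have := h1' y c d
        linarith)
      (fun y c => by
        have := h2' y c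
        linarith)
    linarith

end Pool.Agent.FPX
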