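import Mathlib
import Pool.Agent.FPM.ODI

/-
TRS (helper99): the modulus `u = |η|` of a Lipschitz field and its truncation `η min (1, t / u)`:
Kato's inequality and the splitting of the energy at the level `t`.
-/

open MeasureTheory Set Filter Topology
open scoped ENNReal NNReal

noncomputable section

namespace Pool.Agent.FPX

open Pool.Agent.EWD Pool.Agent.FPM

variable {M : Type} [MetricSpace M] {γ : ℝ → M}

/-- the modulus of a field -/
def umod (η : Fin 3 → M → ℝ) (x : M) : ℝ := √(∑ i, η i x ^ 2)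

/-- the field cut at the modulus `t` -/
def utr (t : ℝ) (η : Fin 3 → M → ℝ) (i : Fin 3) (x : M) : ℝ := η i x * (t / max t (umod η x))

theorem umod_nonneg (η : Fin 3 → M → ℝ) (x : M) : 0 ≤ umod η x := Real.sqrt_nonneg _

theorem umod_sq (η : Fin 3 → M → ℝ) (x : M) : umod η x ^ 2 = ∑ i, η i x ^ 2 :=
  Real.sq_sqrt (Finset.sum_nonneg fun _ _ => sq_nonneg _)

theorem umod_eq (η : Fin 3 → M → ℝ) (x : M) :
    umod η x = ‖(WithLp.toLp 2 fun i => η i x : EuclideanSpace ℝ (Fin 3))‖ := by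
  rw [EuclideanSpace.norm_eq]
  simp [umod]

theorem abs_le_umod (η : Fin 3 → M → ℝ) (i : Fin 3) (x : M) : |η i x| ≤ umod η x := by
  refine Real.abs_le_sqrt ?_
  exact Finset.single_le_sum (f := fun i => η i x ^ 2) (fun _ _ => sq_nonneg _) (Finset.mem_univ i)

/-- `u` is Lipschitz -/
theorem lip_umod {η : Fin 3 → M → ℝ} (h : ∀ i, Lip (η i)) : Lip (umod η) := by
  choose L hL using h
  refine ⟨∑ i, L i, LipschitzWith.of_dist_le_mul fun x y => ?_⟩
  rw [Real.dist_eq, umod_eq, umod_eq]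
  refine (abs_norm_sub_norm_le _ _).trans ?_
  rw [EuclideanSpace.norm_eq]
  refine Real.sqrt_le_iff.2 ⟨by positivity, ?_⟩
  have h1 : ∀ i, ‖(WithLp.toLp 2 (fun i => η i x) - WithLp.toLp 2 fun i => η i y :
      EuclideanSpace ℝ (Fin 3)) i‖ ≤ L i * dist x y := by
    intro i
    have := (hL i).dist_le_mul x y
    rw [Real.dist_eq] at this
    rw [Real.norm_eq_abs]
    exact this
  have h2 : ∑ i, ‖(WithLp.toLp 2 (fun i => η i x) - WithLp.toLp 2 fun i => η i y :
      EuclideanSpace ℝ (Fin 3)) i‖ ^ 2 ≤ ∑ i, ((L i : ℝ) * dist x y) ^ 2 :=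
    Finset.sum_le_sum fun i _ => pow_le_pow_left₀ (norm_nonneg _) (h1 i) 2
  refine h2.trans ?_
  have h3 : ∑ i, ((L i : ℝ) * dist x y) ^ 2 ≤ (∑ i, (L i : ℝ) * dist x y) ^ 2 := by
    have k0 : 0 ≤ (L 0 : ℝ) * dist x y := by positivity
    have k1 : 0 ≤ (L 1 : ℝ) * dist x y := by positivity
    have k2 : 0 ≤ (L 2 : ℝ) * dist x y := by positivity
    rw [Fin.sum_univ_three, Fin.sum_univ_three]
    nlinarith [mul_nonneg k0 k1, mul_nonneg k1 k2, mul_nonneg k0 k2]
  refine h3.trans (le_of_eq ?_)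
  rw [← Finset.sum_mul]
  push_cast
  rfl

theorem even_umod {η : Fin 3 → M → ℝ} (h : ∀ i, Pool.Agent.FPM.OddB γ (η i)) : EvenB γ (umod η) := by
  intro t
  unfold umod
  congr 1
  refine Finset.sum_congr rfl fun i _ => ?_
  rw [h i t]
  ring

theorem utr_umod {t : ℝ} (ht : 0 < t) (η : Fin 3 → M → ℝ) (x : M) :
    umod (utr t η) x = min (umod η x) t := by
  have hm : 0 < max t (umod η x) := lt_max_of_lt_left ht
  have h1 : ∑ i, utr t η i x ^ 2 = (umod η x * (t / max t (umod η x))) ^ 2 := by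
    rw [mul_pow, umod_sq, Finset.sum_mul]
    exact Finset.sum_congr rfl fun i _ => mul_pow _ _ _
  have h2 : umod (utr t η) x = umod η x * (t / max t (umod η x)) := by
    unfold umod at h1 ⊢
    rw [h1, Real.sqrt_sq]
    have := umod_nonneg η x
    positivity
  rw [h2]
  rcases le_total (umod η x) t with h | h
  · rw [max_eq_left h, min_eq_left h, div_self ht.ne', mul_one]
  · rw [max_eq_right h, min_eq_right h]
    have : 0 < umod η x := ht.trans_le h
    field_simp

theorem utr_eq {t : ℝ} (ht : 0 < t) {η : Fin 3 → M → ℝ} {x : M} (h : umod η x ≤ t) (i : Fin 3) :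
    utr t η i x = η i x := by
  unfold utr
  rw [max_eq_left h, div_self ht.ne', mul_one]

theorem odd_utr {t : ℝ} {η : Fin 3 → M → ℝ} (h : ∀ i, Pool.Agent.FPM.OddB γ (η i)) (i : Fin 3) :
    Pool.Agent.FPM.OddB γ (utr t η i) := by
  intro s
  unfold utr
  rw [even_umod h s, h i s]
  ring

theorem lip_utr [CompactSpace M] {t : ℝ} (ht : 0 < t) {η : Fin 3 → M → ℝ} (h : ∀ i, Lip (η i))
    (i : Fin 3) : Lip (utr t η i) := by
  have h1 : Lip fun x => max t (umod η x) := (lip_const t).max (lip_umod h)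
  have h2 : Lip fun x => t / max t (umod η x) := (lip_const t).div h1 ht fun x => le_max_left _ _
  exact (h i).mul h2

variable (C : Calc M γ)

/-- `u ∇u = ∑ ηᵢ ∇ηᵢ` -/
theorem ae_umod {η : Fin 3 → M → ℝ} (h : ∀ i, Lip (η i)) : ∀ᵐ o ∂C.μ,
    umod η (C.pt o) * C.gx (umod η) o = ∑ i, η i (C.pt o) * C.gx (η i) o ∧
    umod η (C.pt o) * C.gy (umod η) o = ∑ i, η i (C.pt o) * C.gy (η i) o := by
  have h1 : ∀ᵐ o ∂C.μ, ∀ i, HasDerivAt (fun s => η i (C.px o s)) (C.gx (η i) o) 0 ∧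
      HasDerivAt (fun s => η i (C.py o s)) (C.gy (η i) o) 0 := ae_all_iff.mpr fun i => C.ae_has (h i)
  filter_upwards [h1, C.ae_has (lip_umod h)] with o ho hu
  have key : ∀ (p : ℝ → M) (g : Fin 3 → ℝ) (u' : ℝ), (∀ i, HasDerivAt (fun s => η i (p s)) (g i) 0) →
      HasDerivAt (fun s => umod η (p s)) u' 0 → umod η (p 0) * u' = ∑ i, η i (p 0) * g i := by
    intro p g u' hg hu'
    have e1 : HasDerivAt (fun s => ∑ i, η i (p s) ^ 2) (∑ i, 2 * (η i (p 0) * g i)) 0 := by
      refine HasDerivAt.fun_sum fun i _ => ?_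
      refine ((hg i).pow 2).congr_deriv ?_
      norm_num
      ring
    have e2 : HasDerivAt (fun s => umod η (p s) ^ 2) (2 * (umod η (p 0) * u')) 0 := by
      refine (hu'.pow 2).congr_deriv ?_
      norm_num
      ring
    have e3 : (fun s => umod η (p s) ^ 2) = fun s => ∑ i, η i (p s) ^ 2 :=
      funext fun s => umod_sq η (p s)
    rw [e3] at e2
    have e4 := e2.unique e1
    rw [← Finset.mul_sum] at e4
    linarith
  refine ⟨key (C.px o) _ _ (fun i => (ho i).1) hu.1, ?_⟩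
  have h4 := key (C.py o) _ _ (fun i => (ho i).2) hu.2
  rw [C.same o] at h4
  exact h4

/-- the square of the norm of the gradient of the field -/
def Gη (η : Fin 3 → M → ℝ) (o : Om) : ℝ := ∑ i, (C.gx (η i) o ^ 2 + C.gy (η i) o ^ 2)

theorem Gη_nonneg (η : Fin 3 → M → ℝ) (o : Om) : 0 ≤ Gη C η o :=
  Finset.sum_nonneg fun _ _ => by positivity

theorem gn_sq' (g : M → ℝ) (o : Om) : gn C g o ^ 2 = C.gx g o ^ 2 + C.gy g o ^ 2 :=
  Real.sq_sqrt (by positivity)

/-- **Kato's inequality** -/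
theorem kato {η : Fin 3 → M → ℝ} (h : ∀ i, Lip (η i)) : ∀ᵐ o ∂C.μ,
    gn C (umod η) o ^ 2 ≤ Gη C η o := by
  filter_upwards [ae_umod C h, grad_level C (lip_umod h) 0] with o ho h0
  rw [gn_sq']
  rcases (umod_nonneg η (C.pt o)).eq_or_lt with hu | hu
  · rw [(h0 hu.symm).1, (h0 hu.symm).2]
    have := Gη_nonneg C η o
    linarith
  · have cs : ∀ g : Fin 3 → ℝ, (∑ i, η i (C.pt o) * g i) ^ 2 ≤
        (∑ i, η i (C.pt o) ^ 2) * ∑ i, g i ^ 2 := fun g => Finset.sum_mul_sq_le_sq_mul_sq _ _ _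
    have h1 := cs fun i => C.gx (η i) o
    have h2 := cs fun i => C.gy (η i) o
    rw [← ho.1, ← umod_sq, mul_pow] at h1
    rw [← ho.2, ← umod_sq, mul_pow] at h2
    have hp : 0 < umod η (C.pt o) ^ 2 := by positivity
    have h3 := le_of_mul_le_mul_left h1 hp
    have h4 := le_of_mul_le_mul_left h2 hp
    unfold Gη
    rw [Finset.sum_add_distrib]
    linarith

/-- the gradient of the truncated field -/
theorem ae_utr [CompactSpace M] {t : ℝ} (ht : 0 < t) {η : Fin 3 → M → ℝ} (h : ∀ i, Lip (η i)) :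
    ∀ᵐ o ∂C.μ, (umod η (C.pt o) ≤ t → ∀ i, C.gx (utr t η i) o = C.gx (η i) o ∧
      C.gy (utr t η i) o = C.gy (η i) o) ∧
    (t < umod η (C.pt o) → ∀ i, C.gx (utr t η i) o = t / umod η (C.pt o) * C.gx (η i) o -
        t / umod η (C.pt o) ^ 2 * η i (C.pt o) * C.gx (umod η) o ∧
      C.gy (utr t η i) o = t / umod η (C.pt o) * C.gy (η i) o -
        t / umod η (C.pt o) ^ 2 * η i (C.pt o) * C.gy (umod η) o) := by
  have hu := lip_umod h
  have hm : Lip fun x => max t (umod η x) := (lip_const t).max hu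
  have h1 : ∀ᵐ o ∂C.μ, ∀ i, HasDerivAt (fun s => η i (C.px o s)) (C.gx (η i) o) 0 ∧
      HasDerivAt (fun s => η i (C.py o s)) (C.gy (η i) o) 0 := ae_all_iff.mpr fun i => C.ae_has (h i)
  have h2 : ∀ᵐ o ∂C.μ, ∀ i, HasDerivAt (fun s => utr t η i (C.px o s)) (C.gx (utr t η i) o) 0 ∧
      HasDerivAt (fun s => utr t η i (C.py o s)) (C.gy (utr t η i) o) 0 :=
    ae_all_iff.mpr fun i => C.ae_has (lip_utr ht h i)
  filter_upwards [h1, h2, C.ae_has hu, C.ae_has hm, grad_level C hm t] with o o1 o2 o3 o4 o5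
  -- the derivative along a curve
  have key : ∀ (p : ℝ → M) (g g' : Fin 3 → ℝ) (u' m' : ℝ),
      (∀ i, HasDerivAt (fun s => η i (p s)) (g i) 0) →
      (∀ i, HasDerivAt (fun s => utr t η i (p s)) (g' i) 0) →
      HasDerivAt (fun s => umod η (p s)) u' 0 → HasDerivAt (fun s => max t (umod η (p s))) m' 0 →
      (umod η (p 0) ≤ t → m' = 0) →
      (umod η (p 0) ≤ t → ∀ i, g' i = g i) ∧
      (t < umod η (p 0) → ∀ i, g' i = t / umod η (p 0) * g i -
        t / umod η (p 0) ^ 2 * η i (p 0) * u') := by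
    intro p g g' u' m' hg hg' hu' hm' h0
    have hpos : 0 < max t (umod η (p 0)) := lt_max_of_lt_left ht
    have e0 : ∀ i, g' i = g i * (t / max t (umod η (p 0))) +
        η i (p 0) * (-(t * m') / max t (umod η (p 0)) ^ 2) := by
      intro i
      have e1 : HasDerivAt (fun s => t / max t (umod η (p s)))
          ((0 * max t (umod η (p 0)) - t * m') / max t (umod η (p 0)) ^ 2) 0 :=
        (hasDerivAt_const (0 : ℝ) t).div hm' hpos.ne'
      have e2 := (hg i).mul e1
      have e3 := (hg' i).unique e2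
      rw [e3]
      ring
    refine ⟨fun hle i => ?_, fun hlt i => ?_⟩
    · rw [e0 i, h0 hle, max_eq_left hle, div_self ht.ne']
      ring
    · have hm2 : m' = u' := by
        have hc : ContinuousAt (fun s => umod η (p s)) 0 := hu'.continuousAt
        have hev : ∀ᶠ s in 𝓝 (0 : ℝ), t < umod η (p s) := hc.eventually (lt_mem_nhds hlt)
        have hev' : (fun s => max t (umod η (p s))) =ᶠ[𝓝 0] fun s => umod η (p s) :=
          hev.mono fun s hs => max_eq_right hs.le
        exact hm'.unique (hu'.congr_of_eventuallyEq hev')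
      have hup : 0 < umod η (p 0) := ht.trans hlt
      rw [e0 i, hm2, max_eq_right hlt.le]
      field_simp
      ring
  have hx := key (C.px o) _ _ _ _ (fun i => (o1 i).1) (fun i => (o2 i).1) o3.1 o4.1
    (fun hle => (o5 (max_eq_left hle)).1)
  have hy := key (C.py o) _ _ _ _ (fun i => (o1 i).2) (fun i => (o2 i).2) o3.2 o4.2
    (fun hle => (o5 (by rw [C.same o] at hle; exact max_eq_left hle)).2)
  rw [C.same o] at hy
  exact ⟨fun hle i => ⟨hx.1 hle i, hy.1 hle i⟩, fun hlt i => ⟨hx.2 hlt i, hy.2 hlt i⟩⟩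

/-- **the splitting of the energy at the level `t`** -/
theorem utr_split [CompactSpace M] {t : ℝ} (ht : 0 < t) {η : Fin 3 → M → ℝ} (h : ∀ i, Lip (η i)) :
    ∀ᵐ o ∂C.μ, (umod η (C.pt o) ≤ t → Gη C (utr t η) o = Gη C η o) ∧
    (t < umod η (C.pt o) → Gη C (utr t η) o =
      (t / umod η (C.pt o)) ^ 2 * (Gη C η o - gn C (umod η) o ^ 2)) := by
  filter_upwards [ae_utr C ht h, ae_umod C h] with o h1 h2
  refine ⟨fun hle => ?_, fun hlt => ?_⟩
  · unfold Gη
    refine Finset.sum_congr rfl fun i _ => ?_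
    rw [(h1.1 hle i).1, (h1.1 hle i).2]
  · have hup : 0 < umod η (C.pt o) := ht.trans hlt
    have hsq := umod_sq η (C.pt o)
    set u := umod η (C.pt o) with hu
    -- one direction
    have key : ∀ (g : Fin 3 → ℝ) (u' : ℝ), u * u' = ∑ i, η i (C.pt o) * g i →
        ∑ i, (t / u * g i - t / u ^ 2 * η i (C.pt o) * u') ^ 2 = (t / u) ^ 2 * (∑ i, g i ^ 2 - u' ^ 2) := by
      intro g u' hgu
      have e1 : ∑ i, (t / u * g i - t / u ^ 2 * η i (C.pt o) * u') ^ 2 =
          (t / u) ^ 2 * ∑ i, g i ^ 2 - 2 * (t / u) * (t / u ^ 2) * u' * ∑ i, η i (C.pt o) * g i +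
            (t / u ^ 2) ^ 2 * u' ^ 2 * ∑ i, η i (C.pt o) ^ 2 := by
        rw [Finset.mul_sum, Finset.mul_sum, Finset.mul_sum, ← Finset.sum_sub_distrib,
          ← Finset.sum_add_distrib]
        refine Finset.sum_congr rfl fun i _ => ?_
        ring
      rw [e1, ← hgu, ← hsq]
      field_simp
      ring
    have k1 := key (fun i => C.gx (η i) o) _ h2.1
    have k2 := key (fun i => C.gy (η i) o) _ h2.2
    have e : Gη C (utr t η) o = ∑ i, (t / u * C.gx (η i) o - t / u ^ 2 * η i (C.pt o) *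
        C.gx (umod η) o) ^ 2 + ∑ i, (t / u * C.gy (η i) o - t / u ^ 2 * η i (C.pt o) *
        C.gy (umod η) o) ^ 2 := by
      unfold Gη
      rw [← Finset.sum_add_distrib]
      refine Finset.sum_congr rfl fun i _ => ?_
      rw [(h1.2 hlt i).1, (h1.2 hlt i).2]
    rw [e, k1, k2, gn_sq']
    unfold Gη
    rw [Finset.sum_add_distrib]
    ring

/-- the splitting as an inequality -/
theorem utr_split_le [CompactSpace M] {t : ℝ} (ht : 0 < t) {η : Fin 3 → M → ℝ}
    (h : ∀ i, Lip (η i)) : ∀ᵐ o ∂C.μ,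
    Gη C (utr t η) o + (if t < umod η (C.pt o) then gn C (umod η) o ^ 2 else 0) ≤ Gη C η o := by
  filter_upwards [utr_split C ht h, kato C h] with o h1 h2
  split_ifs with hlt
  · rw [h1.2 hlt]
    have hup : 0 < umod η (C.pt o) := ht.trans hlt
    have h3 : (t / umod η (C.pt o)) ^ 2 ≤ 1 := by
      refine pow_le_one₀ (by positivity) ?_
      rw [div_le_one hup]
      exact hlt.le
    have h4 : 0 ≤ Gη C η o - gn C (umod η) o ^ 2 := by linarith
    nlinarith
  · rw [h1.1 (not_lt.1 hlt)]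
    linarith

end Pool.Agent.FPX
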