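import Mathlib
import Pool.Agent.FPX.TRS
import Pool.Agent.FPX.HOC

/-
MDA (helper99): assembly of the modulus closing. Near part (a static inequality on `{u > t}`, `u = |η|`)
and far part (the field cut at the modulus `t`, weight `θ` of mass `a₁`, `θ = 1` on `{u > t}`) together:
`∫ F ≥ ∫ A - Φ - p² X² / (kl q a₁)`.
-/

open MeasureTheory Set Filter Topology
open scoped ENNReal NNReal

noncomputable section

namespace Pool.Agent.FPX

open Pool.Agent.EWD Pool.Agent.FPM

variable {M : Type} [MetricSpace M] {γ : ℝ → M}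

theorem meas_le_abs (C : Calc M γ) {u : M → ℝ} (hu : Lip u) (t : ℝ) :
    NullMeasurableSet {o | t ≤ |u (C.pt o)|} C.μ := by
  have h3 : {o | t ≤ |u (C.pt o)|} = ⋂ n : ℕ, {o | t - 1 / ((n : ℝ) + 1) < |u (C.pt o)|} := by
    ext o
    simp only [mem_setOf_eq, mem_iInter]
    refine ⟨fun h n => ?_, fun h => ?_⟩
    · have : 0 < 1 / ((n : ℝ) + 1) := by positivity
      linarith
    · refine le_of_forall_pos_lt_add fun e he => ?_
      obtain ⟨n, hn⟩ := exists_nat_one_div_lt he
      have := h n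
      linarith
  rw [h3]
  exact NullMeasurableSet.iInter fun n => meas_abs_lt C hu _

/-- a level `t` with a weight `θ` of mass exactly `a₁` -/
theorem level_theta (C : Calc M γ) {u : M → ℝ} (hu : Lip u) {R a₁ : ℝ}
    (gR : ∀ᵐ o ∂C.μ, |u (C.pt o)| ≤ R) (ha : 0 < a₁) (h0 : a₁ ≤ supa C u 0) :
    ∃ (t : ℝ) (θ : Om → ℝ), 0 ≤ t ∧ t ≤ R ∧ supa C u t ≤ a₁ ∧ Integrable θ C.μ ∧
      (∀ o, 0 ≤ θ o) ∧ (∀ o, θ o ≤ 1) ∧ (∀ o, t < |u (C.pt o)| → θ o = 1) ∧
      (∀ o, |u (C.pt o)| < t → θ o = 0) ∧ ∫ o, θ o ∂C.μ = a₁ := by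
  have := C.fin
  obtain ⟨t, t0, tR, h1, h2⟩ := crossing C gR ha h0
  set B := {o | t < |u (C.pt o)|} with hB
  set Q := {o | |u (C.pt o)| = t} with hQ
  have mB : NullMeasurableSet B C.μ := meas_abs_lt C hu t
  have mle : NullMeasurableSet {o | t ≤ |u (C.pt o)|} C.μ := meas_le_abs C hu t
  have hQe : Q = {o | t ≤ |u (C.pt o)|} \ B := by
    ext o
    simp only [hQ, hB, mem_setOf_eq, mem_diff, not_lt]
    exact ⟨fun h => ⟨h.ge, h.le⟩, fun h => le_antisymm h.2 h.1⟩
  have mQ : NullMeasurableSet Q C.μ := by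
    rw [hQe]
    exact mle.diff mB
  have hsum : C.μ.real {o | t ≤ |u (C.pt o)|} = C.μ.real B + C.μ.real Q := by
    have hsub : B ⊆ {o | t ≤ |u (C.pt o)|} := fun o ho => (show t < |u (C.pt o)| from ho).le
    have h4 : {o | t ≤ |u (C.pt o)|} = B ∪ Q := by
      rw [hQe, union_diff_cancel hsub]
    have h5 : Disjoint B Q := by
      rw [hQe]
      exact disjoint_sdiff_right
    rw [h4]
    exact measureReal_union₀ mQ h5.aedisjoint
  -- the area of `{t ≤ |u|}` is at least `a₁`
  have hge : a₁ ≤ C.μ.real {o | t ≤ |u (C.pt o)|} := by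
    rcases t0.eq_or_lt with h3 | h3
    · refine h0.trans ?_
      have h4 : supa C u 0 = C.μ.real {o | 0 < |u (C.pt o)|} := rfl
      rw [h4]
      refine measureReal_mono ?_ (measure_ne_top _ _)
      intro o ho
      have : 0 < |u (C.pt o)| := ho
      rw [← h3]
      exact this.le
    · have hanti : Antitone fun n : ℕ => {o | t - t / ((n : ℝ) + 1) < |u (C.pt o)|} := by
        intro n m hnm o ho
        have h5 : t / ((m : ℝ) + 1) ≤ t / ((n : ℝ) + 1) := by
          refine div_le_div_of_nonneg_left h3.le (by positivity) ?_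
          have : (n : ℝ) ≤ m := by exact_mod_cast hnm
          linarith
        have h6 : t - t / ((m : ℝ) + 1) < |u (C.pt o)| := ho
        change t - t / ((n : ℝ) + 1) < |u (C.pt o)|
        linarith
      have hI : {o | t ≤ |u (C.pt o)|} = ⋂ n : ℕ, {o | t - t / ((n : ℝ) + 1) < |u (C.pt o)|} := by
        ext o
        simp only [mem_setOf_eq, mem_iInter]
        refine ⟨fun h n => ?_, fun h => ?_⟩
        · have : 0 < t / ((n : ℝ) + 1) := by positivity
          linarith
        · refine le_of_forall_pos_lt_add fun e he => ?_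
          obtain ⟨n, hn⟩ := exists_nat_one_div_lt (div_pos he h3)
          have h5 := h n
          have h6 : t / ((n : ℝ) + 1) < e := by
            have h7 : 1 / ((n : ℝ) + 1) * t < e / t * t := mul_lt_mul_of_pos_right hn h3
            rw [div_mul_cancel₀ _ h3.ne', one_div_mul_eq_div] at h7
            exact h7
          linarith
      have hlim := tendsto_measure_iInter_atTop (μ := C.μ)
        (s := fun n : ℕ => {o | t - t / ((n : ℝ) + 1) < |u (C.pt o)|})
        (fun n => meas_abs_lt C hu _) hanti ⟨0, measure_ne_top _ _⟩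
      rw [← hI] at hlim
      have hlim' := (ENNReal.tendsto_toReal (measure_ne_top C.μ {o | t ≤ |u (C.pt o)|})).comp hlim
      refine ge_of_tendsto hlim' (Eventually.of_forall fun n => ?_)
      refine h2 (t - t / ((n : ℝ) + 1)) ?_ ?_
      · have : t / ((n : ℝ) + 1) ≤ t := div_le_self h3.le (by linarith [Nat.cast_nonneg (α := ℝ) n])
        linarith
      · have : 0 < t / ((n : ℝ) + 1) := by positivity
        linarith
  rw [hsum] at hge
  have h1' : C.μ.real B ≤ a₁ := h1
  have hQ0 : 0 ≤ C.μ.real Q := measureReal_nonneg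
  set c : ℝ := (a₁ - C.μ.real B) / C.μ.real Q with hc
  have hcQ : c * C.μ.real Q = a₁ - C.μ.real B := by
    rcases hQ0.eq_or_lt with h3 | h3
    · rw [← h3] at hge ⊢
      linarith
    · rw [hc]
      field_simp
  have c0 : 0 ≤ c := div_nonneg (by linarith) hQ0
  have c1 : c ≤ 1 := div_le_one_of_le₀ (by linarith) hQ0
  refine ⟨t, fun o => B.indicator (fun _ => 1) o + Q.indicator (fun _ => c) o, t0, tR, h1,
    ((integrable_const _).indicator₀ mB).add ((integrable_const _).indicator₀ mQ), fun o => ?_,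
    fun o => ?_, fun o ho => ?_, fun o ho => ?_, ?_⟩
  · exact add_nonneg (indicator_nonneg (fun _ _ => zero_le_one) o) (indicator_nonneg (fun _ _ => c0) o)
  · change B.indicator (fun _ => (1 : ℝ)) o + Q.indicator (fun _ => c) o ≤ 1
    by_cases hb : o ∈ B
    · have hq : o ∉ Q := fun h => by
        have h3 : t < |u (C.pt o)| := hb
        have h4 : |u (C.pt o)| = t := h
        linarith
      rw [indicator_of_mem hb, indicator_of_notMem hq, add_zero]
    · rw [indicator_of_notMem hb, zero_add]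
      by_cases hq : o ∈ Q
      · rw [indicator_of_mem hq]
        exact c1
      · rw [indicator_of_notMem hq]
        exact zero_le_one
  · change B.indicator (fun _ => (1 : ℝ)) o + Q.indicator (fun _ => c) o = 1
    have hq : o ∉ Q := fun h => by
      have h4 : |u (C.pt o)| = t := h
      linarith
    rw [indicator_of_mem (show o ∈ B from ho), indicator_of_notMem hq, add_zero]
  · change B.indicator (fun _ => (1 : ℝ)) o + Q.indicator (fun _ => c) o = 0
    have hq : o ∉ Q := fun h => by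
      have h4 : |u (C.pt o)| = t := h
      linarith
    have hb : o ∉ B := fun h => by
      have h4 : t < |u (C.pt o)| := h
      linarith
    rw [indicator_of_notMem hb, indicator_of_notMem hq, add_zero]
  · rw [integral_add ((integrable_const _).indicator₀ mB) ((integrable_const _).indicator₀ mQ),
      integral_indicator₀ mB, integral_indicator₀ mQ, setIntegral_const, setIntegral_const,
      smul_eq_mul, smul_eq_mul, mul_one, mul_comm (C.μ.real Q) c, hcQ]
    ring

/-- integrability of `Gη` -/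
theorem int_Gη (C : Calc M γ) {η : Fin 3 → M → ℝ} (h : ∀ i, Lip (η i)) : Integrable (Gη C η) C.μ := by
  have h1 : Gη C η = fun o => ∑ i, gn C (η i) o ^ 2 := by
    funext o
    exact Finset.sum_congr rfl fun i _ => (gn_sq' C _ o).symm
  rw [h1]
  exact integrable_finsetSum _ fun i _ => int_gn_sq C (h i)

/-- **Splitting of the modulus closing** at the level `t` where `{u > t}` has area at most `a₁` -/
theorem mod_split [CompactSpace M] (C : Calc M γ) {η : Fin 3 → M → ℝ} (hη : ∀ i, Lip (η i)) {R : ℝ}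
    (hR0 : 0 ≤ R) (hR : ∀ x, umod η x ≤ R) {F O : Om → ℝ} {N : ℝ → Om → ℝ} (iF : Integrable F C.μ)
    (iO : Integrable O C.μ) (iN : ∀ t, 0 ≤ t → t ≤ R → Integrable (N t) C.μ) {kl q a₁ e₂ : ℝ}
    (hkl : 0 ≤ kl) (ha : 0 < a₁)
    (hin : ∀ t, 0 ≤ t → t ≤ R → ∀ᵐ o ∂C.μ, t < umod η (C.pt o) →
      N t o + kl * ((t / umod η (C.pt o)) ^ 2 * (Gη C η o - gn C (umod η) o ^ 2)) ≤ F o)
    (hout : ∀ᵐ o ∂C.μ, kl * Gη C η o + O o ≤ F o)
    (hfar : ∀ t, 0 < t → t ≤ R → ∀ θ : Om → ℝ, Integrable θ C.μ → (∀ o, 0 ≤ θ o) → (∀ o, θ o ≤ 1) →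
      ∫ o, θ o ∂C.μ = a₁ → q * ∫ o, min (umod η (C.pt o)) t ^ 2 * θ o ∂C.μ ≤
        ∫ o, Gη C (utr t η) o ∂C.μ + e₂ * t ^ 2) :
    ∃ t, 0 ≤ t ∧ t ≤ R ∧ supa C (umod η) t ≤ a₁ ∧
      (0 < t → a₁ ≤ C.μ.real {o | t ≤ umod η (C.pt o)}) ∧
      ∫ o in {o | t < umod η (C.pt o)}, N t o ∂C.μ + ∫ o in {o | umod η (C.pt o) ≤ t}, O o ∂C.μ +
        kl * (q * a₁ - e₂) * t ^ 2 ≤ ∫ o, F o ∂C.μ := by
  have := C.fin
  have hu := lip_umod hη
  have u0 := fun o => umod_nonneg η (C.pt o)
  have ua : ∀ o, |umod η (C.pt o)| = umod η (C.pt o) := fun o => abs_of_nonneg (u0 o)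
  have iG := int_Gη C hη
  have mB : ∀ t, NullMeasurableSet {o | t < umod η (C.pt o)} C.μ := fun t => by
    have h1 := meas_abs_lt C hu t
    simpa only [ua] using h1
  have hcompl : ∀ t, {o : Om | umod η (C.pt o) ≤ t} = {o | t < umod η (C.pt o)}ᶜ := fun t => by
    ext o
    simp only [mem_setOf_eq, mem_compl_iff, not_lt]
  have hsplit : ∀ t, ∫ o in {o | t < umod η (C.pt o)}, F o ∂C.μ +
      ∫ o in {o | umod η (C.pt o) ≤ t}, F o ∂C.μ = ∫ o, F o ∂C.μ := fun t => by
    rw [hcompl]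
    exact integral_add_compl₀ (mB t) iF
  -- level zero
  have hzero : ∫ o in {o | 0 < umod η (C.pt o)}, N 0 o ∂C.μ +
      ∫ o in {o | umod η (C.pt o) ≤ 0}, O o ∂C.μ + kl * (q * a₁ - e₂) * 0 ^ 2 ≤ ∫ o, F o ∂C.μ := by
    rw [← hsplit 0]
    have h1 : ∫ o in {o | 0 < umod η (C.pt o)}, N 0 o ∂C.μ ≤
        ∫ o in {o | 0 < umod η (C.pt o)}, F o ∂C.μ := by
      refine setIntegral_mono_ae_restrict (iN 0 le_rfl hR0).integrableOn iF.integrableOn ?_
      filter_upwards [ae_restrict_of_ae (hin 0 le_rfl hR0), ae_restrict_mem₀ (mB 0)] with o h2 h3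
      have h4 := h2 h3
      rw [zero_div] at h4
      linarith
    have h5 : ∫ o in {o | umod η (C.pt o) ≤ 0}, O o ∂C.μ ≤
        ∫ o in {o | umod η (C.pt o) ≤ 0}, F o ∂C.μ := by
      refine setIntegral_mono_ae_restrict iO.integrableOn iF.integrableOn ?_
      filter_upwards [ae_restrict_of_ae hout] with o h2
      have h3 := mul_nonneg hkl (Gη_nonneg C η o)
      linarith
    linarith
  rcases lt_or_ge (supa C (umod η) 0) a₁ with h0 | h0
  · exact ⟨0, le_rfl, hR0, h0.le, fun h => absurd h (lt_irrefl _), hzero⟩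
  · obtain ⟨t, θ, t0, tR, hta, iθ, θ0, θ1, hθ1, hθ0, hθ⟩ := level_theta C hu
      (ae_of_all _ fun o => by rw [ua]; exact hR _) ha h0
    rcases t0.eq_or_lt with ht | ht
    · rw [← ht] at hta
      exact ⟨0, le_rfl, hR0, hta, fun h => absurd h (lt_irrefl _), hzero⟩
    · refine ⟨t, t0, tR, hta, fun _ => ?_, ?_⟩
      · have mQ : NullMeasurableSet {o | t ≤ umod η (C.pt o)} C.μ := by
          have h1 := meas_le_abs C hu t
          simpa only [ua] using h1
        rw [← hθ]
        have h1 : ∫ o, θ o ∂C.μ ≤ ∫ o, {o | t ≤ umod η (C.pt o)}.indicator (fun _ => (1 : ℝ)) o ∂C.μ := by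
          refine integral_mono iθ ((integrable_const _).indicator₀ mQ) fun o => ?_
          by_cases h : t ≤ umod η (C.pt o)
          · rw [indicator_of_mem (show o ∈ {o | t ≤ umod η (C.pt o)} from h)]
            exact θ1 o
          · rw [indicator_of_notMem (show o ∉ {o | t ≤ umod η (C.pt o)} from h),
              hθ0 o (by rw [ua]; exact not_le.1 h)]
        rw [integral_indicator₀ mQ, setIntegral_const, smul_eq_mul, mul_one] at h1
        exact h1
      · have e1 : ∫ o, min (umod η (C.pt o)) t ^ 2 * θ o ∂C.μ = t ^ 2 * a₁ := by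
          rw [← hθ, ← integral_const_mul]
          refine integral_congr_ae (ae_of_all _ fun o => ?_)
          change min (umod η (C.pt o)) t ^ 2 * θ o = t ^ 2 * θ o
          rcases lt_or_ge (umod η (C.pt o)) t with h | h
          · rw [hθ0 o (by rw [ua]; exact h)]
            ring
          · rw [min_eq_right h]
        have hf := hfar t ht tR θ iθ θ0 θ1 hθ
        rw [e1] at hf
        have iU := int_Gη C fun i => lip_utr ht hη i
        have e2 : ∫ o in {o | t < umod η (C.pt o)}, Gη C (utr t η) o ∂C.μ +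
            ∫ o in {o | umod η (C.pt o) ≤ t}, Gη C (utr t η) o ∂C.μ = ∫ o, Gη C (utr t η) o ∂C.μ := by
          rw [hcompl]
          exact integral_add_compl₀ (mB t) iU
        have h1 : ∫ o in {o | t < umod η (C.pt o)}, N t o ∂C.μ +
            kl * ∫ o in {o | t < umod η (C.pt o)}, Gη C (utr t η) o ∂C.μ ≤
            ∫ o in {o | t < umod η (C.pt o)}, F o ∂C.μ := by
          rw [← integral_const_mul, ← integral_add (iN t t0 tR).integrableOn
            (iU.const_mul kl).integrableOn]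
          refine setIntegral_mono_ae_restrict ((iN t t0 tR).add (iU.const_mul kl)).integrableOn
            iF.integrableOn ?_
          filter_upwards [ae_restrict_of_ae (hin t t0 tR), ae_restrict_mem₀ (mB t),
            ae_restrict_of_ae (utr_split C ht hη)] with o h2 h3 h4
          rw [h4.2 h3]
          exact h2 h3
        have h5 : ∫ o in {o | umod η (C.pt o) ≤ t}, O o ∂C.μ +
            kl * ∫ o in {o | umod η (C.pt o) ≤ t}, Gη C (utr t η) o ∂C.μ ≤
            ∫ o in {o | umod η (C.pt o) ≤ t}, F o ∂C.μ := by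
          rw [← integral_const_mul, ← integral_add iO.integrableOn (iU.const_mul kl).integrableOn]
          refine setIntegral_mono_ae_restrict (iO.add (iU.const_mul kl)).integrableOn
            iF.integrableOn ?_
          have mC : NullMeasurableSet {o | umod η (C.pt o) ≤ t} C.μ := by
            rw [hcompl]
            exact (mB t).compl
          filter_upwards [ae_restrict_of_ae hout, ae_restrict_mem₀ mC,
            ae_restrict_of_ae (utr_split C ht hη)] with o h2 h3 h4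
          rw [h4.1 h3]
          linarith
        have h6 := mul_le_mul_of_nonneg_left hf hkl
        rw [← hsplit t]
        have h7 : kl * (q * (t ^ 2 * a₁)) - kl * (e₂ * t ^ 2) = kl * (q * a₁ - e₂) * t ^ 2 := by ring
        have h8 : kl * ∫ o in {o | t < umod η (C.pt o)}, Gη C (utr t η) o ∂C.μ +
            kl * ∫ o in {o | umod η (C.pt o) ≤ t}, Gη C (utr t η) o ∂C.μ =
            kl * ∫ o, Gη C (utr t η) o ∂C.μ := by rw [← e2]; ring
        linarith

/-- **Assembly of the static modulus closing**: `c₀` is the coefficient of `ν` outside (`1` for `p = 2`) -/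
theorem mod_static [CompactSpace M] (C : Calc M γ) {η : Fin 3 → M → ℝ} (hη : ∀ i, Lip (η i)) {R : ℝ}
    (hR0 : 0 ≤ R) (hR : ∀ x, umod η x ≤ R) {F ν W : Om → ℝ} (iF : Integrable F C.μ)
    (iν : Integrable ν C.μ) (ν0 : ∀ᵐ o ∂C.μ, 0 ≤ ν o) {N : ℝ → Om → ℝ}
    (iN : ∀ t, 0 ≤ t → t ≤ R → Integrable (N t) C.μ) (iW : Integrable W C.μ)
    {kl p q a₁ c₀ e₂ : ℝ} (hkl : 0 ≤ kl) (ha : 0 < a₁)
    (hin : ∀ t, 0 ≤ t → t ≤ R → ∀ᵐ o ∂C.μ, t < umod η (C.pt o) →
      N t o - 2 * p * t * ν o + kl * ((t / umod η (C.pt o)) ^ 2 *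
        (Gη C η o - gn C (umod η) o ^ 2)) ≤ F o)
    (hout : ∀ᵐ o ∂C.μ, kl * Gη C η o + W o + (c₀ - 2 * p * umod η (C.pt o)) * ν o ≤ F o)
    (hfar : ∀ t, 0 < t → t ≤ R → ∀ θ : Om → ℝ, Integrable θ C.μ → (∀ o, 0 ≤ θ o) → (∀ o, θ o ≤ 1) →
      ∫ o, θ o ∂C.μ = a₁ → q * ∫ o, min (umod η (C.pt o)) t ^ 2 * θ o ∂C.μ ≤
        ∫ o, Gη C (utr t η) o ∂C.μ + e₂ * t ^ 2)
    (hp : 0 ≤ p) :
    ∃ t, 0 ≤ t ∧ t ≤ R ∧ supa C (umod η) t ≤ a₁ ∧
      (0 < t → a₁ ≤ C.μ.real {o | t ≤ umod η (C.pt o)}) ∧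
      ∫ o in {o | t < umod η (C.pt o)}, N t o ∂C.μ + ∫ o in {o | umod η (C.pt o) ≤ t}, W o ∂C.μ -
        2 * p * t * ∫ o in {o | t < umod η (C.pt o)}, ν o ∂C.μ +
        (c₀ - 2 * p * t) * ∫ o in {o | umod η (C.pt o) ≤ t}, ν o ∂C.μ +
        kl * (q * a₁ - e₂) * t ^ 2 ≤ ∫ o, F o ∂C.μ := by
  have := C.fin
  have hu := lip_umod hη
  have u0 := fun o => umod_nonneg η (C.pt o)
  have iu : Integrable (fun o => umod η (C.pt o) * ν o) C.μ := by
    refine iν.bdd_mul (c := R) (aem_pt C hu).aestronglyMeasurable (ae_of_all _ fun o => ?_)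
    rw [Real.norm_eq_abs, abs_of_nonneg (u0 o)]
    exact hR _
  have iO : Integrable (fun o => W o + (c₀ - 2 * p * umod η (C.pt o)) * ν o) C.μ := by
    refine iW.add (((iν.const_mul c₀).sub (iu.const_mul (2 * p))).congr (ae_of_all _ fun o => ?_))
    change c₀ * ν o - 2 * p * (umod η (C.pt o) * ν o) = (c₀ - 2 * p * umod η (C.pt o)) * ν o
    ring
  obtain ⟨t, t0, tR, h1, h2, h3⟩ := mod_split C hη hR0 hR (F := F)
    (O := fun o => W o + (c₀ - 2 * p * umod η (C.pt o)) * ν o) (N := fun t o => N t o - 2 * p * t * ν o)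
    iF iO (fun t h h' => (iN t h h').sub (iν.const_mul _)) hkl ha hin
    (hout.mono fun o h => by linarith) hfar
  refine ⟨t, t0, tR, h1, h2, ?_⟩
  have e1 : ∫ o in {o | t < umod η (C.pt o)}, (N t o - 2 * p * t * ν o) ∂C.μ =
      ∫ o in {o | t < umod η (C.pt o)}, N t o ∂C.μ -
        2 * p * t * ∫ o in {o | t < umod η (C.pt o)}, ν o ∂C.μ := by
    rw [integral_sub (iN t t0 tR).integrableOn (iν.const_mul _).integrableOn, integral_const_mul]
  have mC : NullMeasurableSet {o | umod η (C.pt o) ≤ t} C.μ := by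
    have h4 : {o : Om | umod η (C.pt o) ≤ t} = {o | t < |umod η (C.pt o)|}ᶜ := by
      ext o
      simp only [mem_setOf_eq, mem_compl_iff, not_lt, abs_of_nonneg (u0 o)]
    rw [h4]
    exact (meas_abs_lt C hu t).compl
  have e2 : ∫ o in {o | umod η (C.pt o) ≤ t}, W o ∂C.μ +
      (c₀ - 2 * p * t) * ∫ o in {o | umod η (C.pt o) ≤ t}, ν o ∂C.μ ≤
      ∫ o in {o | umod η (C.pt o) ≤ t}, (W o + (c₀ - 2 * p * umod η (C.pt o)) * ν o) ∂C.μ := by
    rw [← integral_const_mul, ← integral_add iW.integrableOn (iν.const_mul _).integrableOn]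
    refine setIntegral_mono_ae_restrict (iW.add (iν.const_mul _)).integrableOn iO.integrableOn ?_
    filter_upwards [ae_restrict_of_ae ν0, ae_restrict_mem₀ mC] with o h4 h5
    have h6 : umod η (C.pt o) ≤ t := h5
    have h7 : 0 ≤ 2 * p * ((t - umod η (C.pt o)) * ν o) :=
      mul_nonneg (by positivity) (mul_nonneg (by linarith) h4)
    change W o + (c₀ - 2 * p * t) * ν o ≤ W o + (c₀ - 2 * p * umod η (C.pt o)) * ν o
    linarith
  rw [e1] at h3
  linarith

/-- the final scalar step: completion of the square in `t` -/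
theorem mod_square {p q a₁ kl e₂ X x t Φ : ℝ} (hkl : 0 < kl) (hq : e₂ < q * a₁)
    (hx : 0 ≤ x) (hX : x ≤ X) :
    -(p ^ 2 * X ^ 2 / (kl * (q * a₁ - e₂))) - Φ ≤ -Φ - 2 * p * t * x + kl * (q * a₁ - e₂) * t ^ 2 := by
  have hD : 0 < kl * (q * a₁ - e₂) := mul_pos hkl (by linarith)
  set D := kl * (q * a₁ - e₂) with hDd
  have h1 : 0 ≤ (D * t - p * x) ^ 2 := sq_nonneg _
  have h2 : x ^ 2 ≤ X ^ 2 := pow_le_pow_left₀ hx hX 2
  have h3 : p ^ 2 * x ^ 2 ≤ p ^ 2 * X ^ 2 := mul_le_mul_of_nonneg_left h2 (sq_nonneg p)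
  have h4 : -(2 * p * t * x) + D * t ^ 2 ≥ -(p ^ 2 * X ^ 2 / D) := by
    rw [ge_iff_le, ← sub_nonneg]
    have h5 : -(2 * p * t * x) + D * t ^ 2 - -(p ^ 2 * X ^ 2 / D) =
        ((D * t - p * x) ^ 2 + (p ^ 2 * X ^ 2 - p ^ 2 * x ^ 2)) / D := by
      field_simp
      ring
    rw [h5]
    exact div_nonneg (by linarith) hD.le
  linarith

end Pool.Agent.FPX
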