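import Mathlib
import Pool.Agent.FPX.TRS

/-
TRG (helper45): graded truncation of a Lipschitz field: `∑ j, w j * utr (t j) η` (convex combination of the
fields cut at the moduli `t j`). Its modulus is `G u = ∑ j, w j * min u (t j)`, the radial part of its
energy is `(G' u) ^ 2 |∇u| ^ 2`.
-/

open MeasureTheory Set Filter Topology
open scoped ENNReal NNReal

noncomputable section

namespace Pool.Agent.FPX

open Pool.Agent.EWD Pool.Agent.FPM

variable {M : Type} [MetricSpace M] {γ : ℝ → M}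

/-- the graded truncation -/
def ugr (J : Finset ℕ) (w t : ℕ → ℝ) (η : Fin 3 → M → ℝ) (i : Fin 3) (x : M) : ℝ :=
  ∑ j ∈ J, w j * utr (t j) η i x

/-- the modulus of the graded truncation as a function of the modulus -/
def Gt (J : Finset ℕ) (w t : ℕ → ℝ) (u : ℝ) : ℝ := ∑ j ∈ J, w j * min u (t j)

/-- the slope of `Gt` -/
def gt' (J : Finset ℕ) (w t : ℕ → ℝ) (u : ℝ) : ℝ := ∑ j ∈ J, if u ≤ t j then w j else 0

variable {J : Finset ℕ} {w t : ℕ → ℝ}

theorem Gt_nonneg (hw : ∀ j ∈ J, 0 ≤ w j) (ht : ∀ j ∈ J, 0 < t j) {u : ℝ} (hu : 0 ≤ u) :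
    0 ≤ Gt J w t u :=
  Finset.sum_nonneg fun j hj => mul_nonneg (hw j hj) (le_min hu (ht j hj).le)

theorem gt'_nonneg (hw : ∀ j ∈ J, 0 ≤ w j) (u : ℝ) : 0 ≤ gt' J w t u :=
  Finset.sum_nonneg fun j hj => by split_ifs; exacts [hw j hj, le_rfl]

theorem gt'_le (hw : ∀ j ∈ J, 0 ≤ w j) (u : ℝ) : gt' J w t u ≤ ∑ j ∈ J, w j :=
  Finset.sum_le_sum fun j hj => by split_ifs; exacts [le_rfl, hw j hj]

theorem Gt_le (hw : ∀ j ∈ J, 0 ≤ w j) (u : ℝ) : Gt J w t u ≤ (∑ j ∈ J, w j) * u := by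
  rw [Finset.sum_mul]
  exact Finset.sum_le_sum fun j hj => mul_le_mul_of_nonneg_left (min_le_left _ _) (hw j hj)

theorem Gt_below {u : ℝ} (h : ∀ j ∈ J, u ≤ t j) : Gt J w t u = (∑ j ∈ J, w j) * u := by
  rw [Finset.sum_mul]
  exact Finset.sum_congr rfl fun j hj => by rw [min_eq_left (h j hj)]

theorem gt'_below {u : ℝ} (h : ∀ j ∈ J, u ≤ t j) : gt' J w t u = ∑ j ∈ J, w j :=
  Finset.sum_congr rfl fun j hj => if_pos (h j hj)

omit [MetricSpace M] in
theorem ugr_eq (J : Finset ℕ) (w t : ℕ → ℝ) (η : Fin 3 → M → ℝ) (i : Fin 3) (x : M) :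
    ugr J w t η i x = η i x * ∑ j ∈ J, w j * (t j / max (t j) (umod η x)) := by
  unfold ugr utr
  rw [Finset.mul_sum]
  exact Finset.sum_congr rfl fun j _ => by ring

/-- the modulus -/
theorem umod_ugr (hw : ∀ j ∈ J, 0 ≤ w j) (ht : ∀ j ∈ J, 0 < t j) (η : Fin 3 → M → ℝ) (x : M) :
    umod (ugr J w t η) x = Gt J w t (umod η x) := by
  have h0 := umod_nonneg η x
  have h1 : ∑ i, ugr J w t η i x ^ 2 =
      (umod η x * ∑ j ∈ J, w j * (t j / max (t j) (umod η x))) ^ 2 := by
    rw [mul_pow, umod_sq, Finset.sum_mul]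
    exact Finset.sum_congr rfl fun i _ => by rw [ugr_eq, mul_pow]
  have h2 : 0 ≤ umod η x * ∑ j ∈ J, w j * (t j / max (t j) (umod η x)) := by
    refine mul_nonneg h0 (Finset.sum_nonneg fun j hj => mul_nonneg (hw j hj) ?_)
    have := ht j hj
    positivity
  have h3 : umod (ugr J w t η) x = √(∑ i, ugr J w t η i x ^ 2) := rfl
  rw [h3, h1, Real.sqrt_sq h2, Finset.mul_sum]
  refine Finset.sum_congr rfl fun j hj => ?_
  have htj := ht j hj
  rcases le_total (umod η x) (t j) with h | h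
  · rw [max_eq_left h, min_eq_left h, div_self htj.ne']
    ring
  · rw [max_eq_right h, min_eq_right h]
    have : 0 < umod η x := htj.trans_le h
    field_simp

theorem odd_ugr {η : Fin 3 → M → ℝ} (h : ∀ i, Pool.Agent.FPM.OddB γ (η i)) (i : Fin 3) :
    Pool.Agent.FPM.OddB γ (ugr J w t η i) := by
  intro s
  unfold ugr
  rw [← Finset.sum_neg_distrib]
  refine Finset.sum_congr rfl fun j _ => ?_
  rw [odd_utr (t := t j) h i s]
  ring

theorem lip_ugr [CompactSpace M] (ht : ∀ j ∈ J, 0 < t j) {η : Fin 3 → M → ℝ} (h : ∀ i, Lip (η i))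
    (i : Fin 3) : Lip (ugr J w t η i) := by
  classical
  unfold ugr
  induction J using Finset.induction_on with
  | empty => simpa using lip_const (M := M) 0
  | insert a s ha ih =>
    have h1 : Lip fun x => w a * utr (t a) η i x :=
      (lip_const (w a)).mul (lip_utr (ht a (Finset.mem_insert_self a s)) h i)
    have h2 := ih fun j hj => ht j (Finset.mem_insert_of_mem hj)
    have h3 := h1.add h2
    refine (congrArg Lip ?_).mpr h3
    funext x
    rw [Finset.sum_insert ha]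

/-- the square of a combination -/
theorem trg_sum (A B : ℝ) {u u' : ℝ} {e g : Fin 3 → ℝ} (hsq : u ^ 2 = ∑ i, e i ^ 2)
    (hgu : u * u' = ∑ i, e i * g i) :
    ∑ i, (A * g i - B * e i * u') ^ 2 = A ^ 2 * (∑ i, g i ^ 2 - u' ^ 2) + (A - B * u) ^ 2 * u' ^ 2 := by
  have e1 : ∑ i, (A * g i - B * e i * u') ^ 2 =
      A ^ 2 * ∑ i, g i ^ 2 - 2 * A * B * u' * ∑ i, e i * g i +
        B ^ 2 * u' ^ 2 * ∑ i, e i ^ 2 := by
    simp only [Fin.sum_univ_three]
    ring
  rw [e1, ← hgu, ← hsq]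
  ring

variable (C : Calc M γ)

/-- **the energy of the graded truncation** -/
theorem ugr_split [CompactSpace M] (ht : ∀ j ∈ J, 0 < t j)
    {η : Fin 3 → M → ℝ} (h : ∀ i, Lip (η i)) :
    ∀ᵐ o ∂C.μ, ((∀ j ∈ J, umod η (C.pt o) ≤ t j) → Gη C (ugr J w t η) o = (∑ j ∈ J, w j) ^ 2 * Gη C η o) ∧
    (0 < umod η (C.pt o) → Gη C (ugr J w t η) o =
      (gt' J w t (umod η (C.pt o))) ^ 2 * gn C (umod η) o ^ 2 +
      (Gt J w t (umod η (C.pt o)) / umod η (C.pt o)) ^ 2 * (Gη C η o - gn C (umod η) o ^ 2)) := by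
  have a1 : ∀ᵐ o ∂C.μ, ∀ j ∈ J, (umod η (C.pt o) ≤ t j → ∀ i, C.gx (utr (t j) η i) o = C.gx (η i) o ∧
      C.gy (utr (t j) η i) o = C.gy (η i) o) ∧
    (t j < umod η (C.pt o) → ∀ i, C.gx (utr (t j) η i) o = t j / umod η (C.pt o) * C.gx (η i) o -
        t j / umod η (C.pt o) ^ 2 * η i (C.pt o) * C.gx (umod η) o ∧
      C.gy (utr (t j) η i) o = t j / umod η (C.pt o) * C.gy (η i) o -
        t j / umod η (C.pt o) ^ 2 * η i (C.pt o) * C.gy (umod η) o) :=
    (ae_ball_iff (Finset.countable_toSet J)).2 fun j hj => ae_utr C (ht j hj) h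
  have a2 : ∀ᵐ o ∂C.μ, ∀ j ∈ J, ∀ i, HasDerivAt (fun s => utr (t j) η i (C.px o s)) (C.gx (utr (t j) η i) o) 0 ∧
      HasDerivAt (fun s => utr (t j) η i (C.py o s)) (C.gy (utr (t j) η i) o) 0 :=
    (ae_ball_iff (Finset.countable_toSet J)).2 fun j hj =>
      ae_all_iff.mpr fun i => C.ae_has (lip_utr (ht j hj) h i)
  have a3 : ∀ᵐ o ∂C.μ, ∀ i, HasDerivAt (fun s => ugr J w t η i (C.px o s)) (C.gx (ugr J w t η i) o) 0 ∧
      HasDerivAt (fun s => ugr J w t η i (C.py o s)) (C.gy (ugr J w t η i) o) 0 :=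
    ae_all_iff.mpr fun i => C.ae_has (lip_ugr ht h i)
  filter_upwards [a1, a2, a3, ae_umod C h] with o o1 o2 o3 o4
  -- the gradient
  have hx : ∀ i, C.gx (ugr J w t η i) o = ∑ j ∈ J, w j * C.gx (utr (t j) η i) o := fun i =>
    (o3 i).1.unique (HasDerivAt.fun_sum fun j hj => ((o2 j hj i).1.const_mul (w j)))
  have hy : ∀ i, C.gy (ugr J w t η i) o = ∑ j ∈ J, w j * C.gy (utr (t j) η i) o := fun i =>
    (o3 i).2.unique (HasDerivAt.fun_sum fun j hj => ((o2 j hj i).2.const_mul (w j)))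
  refine ⟨fun hle => ?_, fun hup => ?_⟩
  · unfold Gη
    rw [Finset.mul_sum]
    refine Finset.sum_congr rfl fun i _ => ?_
    have e1 : C.gx (ugr J w t η i) o = (∑ j ∈ J, w j) * C.gx (η i) o := by
      rw [hx i, Finset.sum_mul]
      exact Finset.sum_congr rfl fun j hj => by rw [((o1 j hj).1 (hle j hj) i).1]
    have e2 : C.gy (ugr J w t η i) o = (∑ j ∈ J, w j) * C.gy (η i) o := by
      rw [hy i, Finset.sum_mul]
      exact Finset.sum_congr rfl fun j hj => by rw [((o1 j hj).1 (hle j hj) i).2]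
    rw [e1, e2]
    ring
  · have hsq := umod_sq η (C.pt o)
    set u := umod η (C.pt o) with hu
    set al : ℕ → ℝ := fun j => if u ≤ t j then 1 else t j / u with hal
    set be : ℕ → ℝ := fun j => if u ≤ t j then 0 else t j / u ^ 2 with hbe
    set A := ∑ j ∈ J, w j * al j with hA
    set B := ∑ j ∈ J, w j * be j with hB
    have gA : A = Gt J w t u / u := by
      rw [eq_div_iff hup.ne', hA, Gt, Finset.sum_mul]
      refine Finset.sum_congr rfl fun j _ => ?_
      rw [hal]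
      change w j * (if u ≤ t j then 1 else t j / u) * u = _
      split_ifs with hj
      · rw [min_eq_left hj]
        ring
      · rw [min_eq_right (not_le.1 hj).le]
        field_simp
    have gB : A - B * u = gt' J w t u := by
      rw [hA, hB, gt', Finset.sum_mul, ← Finset.sum_sub_distrib]
      refine Finset.sum_congr rfl fun j _ => ?_
      change w j * (if u ≤ t j then 1 else t j / u) - w j * (if u ≤ t j then 0 else t j / u ^ 2) * u = _
      split_ifs with hj
      · ring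
      · field_simp
        ring
    have ex : ∀ i, C.gx (ugr J w t η i) o = A * C.gx (η i) o - B * η i (C.pt o) * C.gx (umod η) o := by
      intro i
      rw [hx i, hA, hB, Finset.sum_mul, Finset.sum_mul, Finset.sum_mul, ← Finset.sum_sub_distrib]
      refine Finset.sum_congr rfl fun j hj => ?_
      change _ = w j * (if u ≤ t j then 1 else t j / u) * _ -
        w j * (if u ≤ t j then 0 else t j / u ^ 2) * _ * _
      split_ifs with hj'
      · rw [((o1 j hj).1 hj' i).1]
        ring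
      · rw [((o1 j hj).2 (not_le.1 hj') i).1]
        ring
    have ey : ∀ i, C.gy (ugr J w t η i) o = A * C.gy (η i) o - B * η i (C.pt o) * C.gy (umod η) o := by
      intro i
      rw [hy i, hA, hB, Finset.sum_mul, Finset.sum_mul, Finset.sum_mul, ← Finset.sum_sub_distrib]
      refine Finset.sum_congr rfl fun j hj => ?_
      change _ = w j * (if u ≤ t j then 1 else t j / u) * _ -
        w j * (if u ≤ t j then 0 else t j / u ^ 2) * _ * _
      split_ifs with hj'
      · rw [((o1 j hj).1 hj' i).2]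
        ring
      · rw [((o1 j hj).2 (not_le.1 hj') i).2]
        ring
    have k1 := trg_sum A B hsq o4.1
    have k2 := trg_sum A B hsq o4.2
    have e : Gη C (ugr J w t η) o = ∑ i, (A * C.gx (η i) o - B * η i (C.pt o) *
        C.gx (umod η) o) ^ 2 + ∑ i, (A * C.gy (η i) o - B * η i (C.pt o) * C.gy (umod η) o) ^ 2 := by
      unfold Gη
      rw [← Finset.sum_add_distrib]
      exact Finset.sum_congr rfl fun i _ => by rw [ex i, ey i]
    rw [e, k1, k2, gn_sq', ← gA, ← gB]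
    unfold Gη
    rw [Finset.sum_add_distrib]
    ring

/-- the perpendicular and the radial part, as an inequality: radial coefficient `1 - (G') ^ 2` -/
theorem ugr_split_le [CompactSpace M] (hw : ∀ j ∈ J, 0 ≤ w j) (hw1 : ∑ j ∈ J, w j = 1)
    (ht : ∀ j ∈ J, 0 < t j) {η : Fin 3 → M → ℝ} (h : ∀ i, Lip (η i)) : ∀ᵐ o ∂C.μ,
    Gη C (ugr J w t η) o + (1 - (gt' J w t (umod η (C.pt o))) ^ 2) * gn C (umod η) o ^ 2 ≤ Gη C η o := by
  filter_upwards [ugr_split C (w := w) ht h, kato C h] with o h1 h2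
  rcases (umod_nonneg η (C.pt o)).eq_or_lt with hu | hu
  · have hb : ∀ j ∈ J, umod η (C.pt o) ≤ t j := fun j hj => by rw [← hu]; exact (ht j hj).le
    rw [h1.1 hb, gt'_below hb, hw1]
    linarith
  · rw [h1.2 hu]
    have h3 : (Gt J w t (umod η (C.pt o)) / umod η (C.pt o)) ^ 2 ≤ 1 := by
      refine pow_le_one₀ (div_nonneg (Gt_nonneg hw ht hu.le) hu.le) ?_
      rw [div_le_one hu]
      have := Gt_le (t := t) hw (umod η (C.pt o))
      rwa [hw1, one_mul] at this
    have h4 : 0 ≤ Gη C η o - gn C (umod η) o ^ 2 := by linarith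
    nlinarith

end Pool.Agent.FPX
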