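import Mathlib
import Pool.Agent.FPX.MDA
import Pool.Agent.FPX.STC
import Pool.Agent.FPX.TRG

/-
TRH (helper45): the modulus closing with levels of given areas and the graded truncation.
`band_sq`: one band of levels of an even function, energy coefficient `K`, source `2 c` times the area.
`graded_core`, `mod_area`, `mod_area_nu`: far part of the graded truncation `ugr` plus the radial energy in
the bands `t k < u ≤ t (k + 1)`, `t k` the level of area `a k`, for all multipliers `l`.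
-/

open MeasureTheory Set Filter Topology
open scoped ENNReal NNReal

noncomputable section

namespace Pool.Agent.FPX

open Pool.Agent.EWD Pool.Agent.FPM

variable {M : Type} [MetricSpace M] {γ : ℝ → M}

/-- primitive of `(l - c x) ^ 2 / (K κ x)` -/
def Psb (l c K κ x : ℝ) : ℝ := (l ^ 2 * Real.log x - 2 * l * c * x + c ^ 2 * x ^ 2 / 2) / (K * κ)

theorem Psb_has {l c K κ x : ℝ} (hK : 0 < K) (hκ : 0 < κ) (hx : 0 < x) :
    HasDerivAt (Psb l c K κ) ((l - c * x) ^ 2 / (K * (κ * x))) x := by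
  have h1 : HasDerivAt (fun x : ℝ => l ^ 2 * Real.log x - 2 * l * c * x + c ^ 2 * x ^ 2 / 2)
      (l ^ 2 * x⁻¹ - 2 * l * c * 1 + c ^ 2 * (2 * x ^ (2 - 1) * 1) / 2) x := by
    have h2 := (Real.hasDerivAt_log hx.ne').const_mul (l ^ 2)
    have h3 := (hasDerivAt_id x).const_mul (2 * l * c)
    have h4 := (((hasDerivAt_id x).pow 2).const_mul (c ^ 2)).div_const 2
    have h5 := (h2.fun_sub h3).fun_add h4
    simpa using h5
  have h6 := h1.div_const (K * κ)
  refine h6.congr_deriv ?_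
  field_simp
  ring

theorem Psb_mono {l c K κ x y : ℝ} (hK : 0 < K) (hκ : 0 < κ) (hx : 0 < x) (hxy : x ≤ y) :
    Psb l c K κ x ≤ Psb l c K κ y := by
  have h1 : MonotoneOn (Psb l c K κ) (Icc x y) := by
    refine monotoneOn_of_deriv_nonneg (convex_Icc x y) (fun z hz => ?_) (fun z hz => ?_) fun z hz => ?_
    · exact (Psb_has hK hκ (hx.trans_le hz.1)).continuousAt.continuousWithinAt
    · rw [interior_Icc] at hz
      exact (Psb_has hK hκ (hx.trans hz.1)).differentiableAt.differentiableWithinAt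
    · rw [interior_Icc] at hz
      have hz0 : 0 < z := hx.trans hz.1
      rw [(Psb_has hK hκ hz0).deriv]
      positivity
  exact h1 (left_mem_Icc.2 hxy) (right_mem_Icc.2 hxy) hxy

theorem band_young {K q w g a : ℝ} (hK : 0 < K) (hq : 0 < q) (h : q ^ 2 = a) :
    2 * w / q * g ≤ K * g ^ 2 + w ^ 2 / (K * a) := by
  rw [← h]
  have e2 : K * g ^ 2 + w ^ 2 / (K * q ^ 2) - 2 * w / q * g = (K * g - w / q) ^ 2 / K := by
    field_simp
    ring
  have e3 : 0 ≤ (K * g - w / q) ^ 2 / K := by positivity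
  linarith

/-- the band with a strict upper bound for the area state -/
theorem band_sq' (C : Calc M γ) {v : Fin 3 → M → ℝ} (hv : Sph γ v) {χ : M → ℝ} (hχ : Lip χ)
    (eχ : EvenB γ χ) {κ κ' α β a₁ ε : ℝ} (hI : IsopE C κ a₁ ε) (hκ : ∀ a, α ≤ a → κ' * a ≤ κ * (a - ε))
    (hα : 0 < α) (hβ : β ≤ a₁) (hκ0 : 0 < κ') {K l c : ℝ} (hK : 0 < K) (hc : 0 ≤ c)
    (hl : c * β ≤ l) {R : ℝ} (gR : ∀ᵐ o ∂C.μ, |χ (C.pt o)| ≤ R) {s0 s1 : ℝ} (hs0 : 0 ≤ s0) (hs : s0 ≤ s1)
    (h0 : supa C χ s0 ≤ β) (h1 : α ≤ supa C χ s1) :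
    2 * l * (s1 - s0) - (Psb l c K κ' β - Psb l c K κ' α) ≤
      K * ∫ o in {o | s0 < |χ (C.pt o)| ∧ |χ (C.pt o)| ≤ s1}, gn C χ o ^ 2 ∂C.μ +
        2 * c * ∫ o in {o | s0 < |χ (C.pt o)|}, (min |χ (C.pt o)| s1 - s0) ∂C.μ := by
  have := C.fin
  have hαβ : α ≤ β := h1.trans ((supa_anti C χ hs).trans h0)
  have hl0 : 0 ≤ l := (mul_nonneg hc (hα.le.trans hαβ)).trans hl
  have iabs : Integrable (fun o => |χ (C.pt o)|) C.μ := by
    refine (integrable_const R).mono' (aem_pt C (lip_abs hχ)).aestronglyMeasurable ?_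
    filter_upwards [gR] with o ho
    rw [Real.norm_eq_abs, abs_abs]
    exact ho
  have ig := int_gn_sq C hχ
  set D : Set (Unit → ℝ) := {x | α ≤ x () ∧ x () ≤ β} with hDd
  have hD : Convex ℝ D := by
    intro x hx y hy p q hp hq hpq
    have hx1 : α ≤ x () := hx.1
    have hx2 : x () ≤ β := hx.2
    have hy1 : α ≤ y () := hy.1
    have hy2 : y () ≤ β := hy.2
    have e1 : p * α + q * α = α := by rw [← add_mul, hpq, one_mul]
    have e2 : p * β + q * β = β := by rw [← add_mul, hpq, one_mul]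
    refine ⟨?_, ?_⟩
    · change α ≤ p * x () + q * y ()
      have := mul_le_mul_of_nonneg_left hx1 hp
      have := mul_le_mul_of_nonneg_left hy1 hq
      linarith
    · change p * x () + q * y () ≤ β
      have := mul_le_mul_of_nonneg_left hx2 hp
      have := mul_le_mul_of_nonneg_left hy2 hq
      linarith
  have hsupw : ∀ s, supw C χ (fun _ => 1) s = supa C χ s := fun s => by
    unfold supw supa
    simp [Measure.real]
  set pr : (Unit → ℝ) →L[ℝ] ℝ := ContinuousLinearMap.proj () with hpr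
  set S : ℝ → (Unit → ℝ) → ℝ := fun s x => 2 * s * (c * x () - l) - Psb l c K κ' (x ()) with hSd
  set S' : ℝ → (Unit → ℝ) → (ℝ × (Unit → ℝ)) →L[ℝ] ℝ := fun s x =>
    (2 * (c * x () - l)) • ContinuousLinearMap.fst ℝ ℝ (Unit → ℝ) +
      (2 * s * c - (l - c * x ()) ^ 2 / (K * (κ' * x ()))) •
        pr.comp (ContinuousLinearMap.snd ℝ ℝ (Unit → ℝ)) with hS'
  have S1 : ∀ s x, S' s x (1, 0) = 2 * (c * x () - l) := fun s x => by
    simp only [hS', add_apply, smul_apply, ContinuousLinearMap.coe_fst',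
      ContinuousLinearMap.comp_apply, ContinuousLinearMap.coe_snd', map_zero, smul_eq_mul]
    ring
  have S2 : ∀ s x (y : Unit → ℝ), S' s x (0, y) =
      (2 * s * c - (l - c * x ()) ^ 2 / (K * (κ' * x ()))) * y () := fun s x y => by
    simp only [hS', add_apply, smul_apply, ContinuousLinearMap.coe_fst',
      ContinuousLinearMap.comp_apply, ContinuousLinearMap.coe_snd', smul_eq_mul, hpr,
      ContinuousLinearMap.proj_apply]
    ring
  set L : ℝ := 2 * l + 2 * c with hL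
  have hmem : ∀ s, s0 ≤ s → s ≤ s1 → (fun _ : Unit => supw C χ (fun _ => 1) s) ∈ D := by
    intro s a b
    change α ≤ supw C χ (fun _ => 1) s ∧ supw C χ (fun _ => 1) s ≤ β
    rw [hsupw]
    exact ⟨h1.trans (supa_anti C χ b), (supa_anti C χ a).trans h0⟩
  have iF : Integrable (fun o => K * gn C χ o ^ 2 + 2 * c * |χ (C.pt o)|) C.μ :=
    (ig.const_mul K).add (iabs.const_mul (2 * c))
  have hmain := even_hj (ι := Unit) C hv hχ eχ hI (Wim := fun _ => 0)
    (ae_of_all _ fun t _ => sq_nonneg _) (γs := fun _ _ => 1) (fun _ => integrable_const 1) iF hs0 hs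
    (L := L) (by positivity) hD hmem (fun s a _ => ((supa_anti C χ a.le).trans h0).trans hβ)
    (S := S) (S' := S') (fun s x _ _ hx => by
      have hx0 : 0 < x () := hα.trans_le hx.1
      have e0 : HasFDerivAt (fun z : ℝ × (Unit → ℝ) => z.1)
          (ContinuousLinearMap.fst ℝ ℝ (Unit → ℝ)) (s, x) := hasFDerivAt_fst
      have e4 : HasFDerivAt (fun z : ℝ × (Unit → ℝ) => z.2 ())
          (pr.comp (ContinuousLinearMap.snd ℝ ℝ (Unit → ℝ))) (s, x) :=
        (pr.comp (ContinuousLinearMap.snd ℝ ℝ (Unit → ℝ))).hasFDerivAt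
      have e5 : HasFDerivAt (fun z : ℝ × (Unit → ℝ) => Psb l c K κ' (z.2 ()))
          (((l - c * x ()) ^ 2 / (K * (κ' * x ()))) •
            pr.comp (ContinuousLinearMap.snd ℝ ℝ (Unit → ℝ))) (s, x) :=
        HasDerivAt.comp_hasFDerivAt (h₂ := Psb l c K κ') (s, x)
          (show HasDerivAt (Psb l c K κ') ((l - c * x ()) ^ 2 / (K * (κ' * x ())))
            ((fun z : ℝ × (Unit → ℝ) => z.2 ()) (s, x)) from Psb_has hK hκ0 hx0) e4
      have e6 := (((e0.const_mul 2).mul ((e4.const_mul c).sub_const l))).sub e5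
      refine e6.congr_fderiv ?_
      refine ContinuousLinearMap.ext fun z => ?_
      simp [hS', hpr]
      ring)
    (fun s x _ _ hx => by
      rw [S1]
      have hx0 : 0 < x () := hα.trans_le hx.1
      have : 0 ≤ c * x () := mul_nonneg hc hx0.le
      rw [hL]
      linarith)
    (by
      refine ae_of_all _ fun o s x a hx b d => ?_
      rw [S2]
      have hx0 : 0 < x () := hα.trans_le hx.1
      have h2 : 0 ≤ (l - c * x ()) ^ 2 / (K * (κ' * x ())) := by positivity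
      have h3 : 0 ≤ K * gn C χ o ^ 2 := by positivity
      have h4 : c * s ≤ c * |χ (C.pt o)| := mul_le_mul_of_nonneg_left b.le hc
      have h5 : 0 ≤ L * (|χ (C.pt o)| - s) := mul_nonneg (by positivity) (by linarith)
      linarith)
    (by
      refine ae_of_all _ fun s a b l' V hl' _ hl2 _ => ?_
      have hsm := hmem s a.le b.le
      set x : Unit → ℝ := fun _ => supw C χ (fun _ => 1) s with hxd
      have hx0 : 0 < x () := hα.trans_le hsm.1
      have hxs : x () = supa C χ s := hsupw s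
      have h2 : √(κ' * x ()) ≤ l' := by
        rw [← Real.sqrt_sq hl']
        refine Real.sqrt_le_sqrt (le_trans ?_ hl2)
        rw [hxs]
        exact hκ _ (by rw [← hxs]; exact hsm.1)
      have hsq : 0 < √(κ' * x ()) := Real.sqrt_pos.2 (by positivity)
      have hlx : 0 ≤ l - c * x () := by
        have := mul_le_mul_of_nonneg_left hsm.2 hc
        have e : x () ≤ β := hsm.2
        linarith
      refine ⟨2 * (l - c * x ()) / √(κ' * x ()), 0, by positivity, le_rfl, ?_, ?_⟩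
      · rw [S1]
        have h3 : 2 * (l - c * x ()) / √(κ' * x ()) * √(κ' * x ()) ≤
            2 * (l - c * x ()) / √(κ' * x ()) * l' :=
          mul_le_mul_of_nonneg_left h2 (by positivity)
        rw [div_mul_cancel₀ _ hsq.ne'] at h3
        linarith
      · refine ⟨1, one_pos, ae_of_all _ fun o d e => ?_⟩
        rw [S2, zero_mul, add_zero]
        have h4 : 2 * (l - c * x ()) / √(κ' * x ()) * gn C χ o ≤
            K * gn C χ o ^ 2 + (l - c * x ()) ^ 2 / (K * (κ' * x ())) := by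
          have e1 : (√(κ' * x ())) ^ 2 = κ' * x () := Real.sq_sqrt (by positivity)
          exact band_young hK hsq e1
        have h5 : c * (s - |χ (C.pt o)|) * 2 ≤ L * (s - |χ (C.pt o)|) := by
          have h6 : 0 ≤ s - |χ (C.pt o)| := by linarith
          rw [hL]
          nlinarith
        have h7 : (2 * s * c - (l - c * x ()) ^ 2 / (K * (κ' * x ()))) * (1 : ℝ) =
            2 * c * |χ (C.pt o)| + c * (s - |χ (C.pt o)|) * 2 -
              (l - c * x ()) ^ 2 / (K * (κ' * x ())) := by ring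
        rw [h7]
        linarith)
  have m0 := meas_abs_lt C hχ s0
  have m1 := meas_abs_lt C hχ s1
  -- the integral of the level function
  have e1 : ∫ o in {o | s0 < |χ (C.pt o)|}, (min |χ (C.pt o)| s1 - s0) ∂C.μ =
      ∫ o in {o | s0 < |χ (C.pt o)| ∧ |χ (C.pt o)| ≤ s1}, |χ (C.pt o)| ∂C.μ +
        s1 * supa C χ s1 - s0 * supa C χ s0 := by
    have imin : Integrable (fun o => min |χ (C.pt o)| s1) C.μ := iabs.inf (integrable_const s1)
    rw [integral_sub imin.integrableOn (integrable_const s0).integrableOn, setIntegral_const,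
      level_split C hχ imin hs]
    have e2 : ∫ o in {o | s0 < |χ (C.pt o)| ∧ |χ (C.pt o)| ≤ s1}, min |χ (C.pt o)| s1 ∂C.μ =
        ∫ o in {o | s0 < |χ (C.pt o)| ∧ |χ (C.pt o)| ≤ s1}, |χ (C.pt o)| ∂C.μ := by
      refine setIntegral_congr_ae₀ ?_ (ae_of_all _ fun o ho => min_eq_left ho.2)
      have : {o : Om | s0 < |χ (C.pt o)| ∧ |χ (C.pt o)| ≤ s1} =
          {o | s0 < |χ (C.pt o)|} \ {o | s1 < |χ (C.pt o)|} := by
        ext o
        simp only [mem_setOf_eq, mem_diff, not_lt]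
      rw [this]
      exact m0.diff m1
    have e3 : ∫ o in {o | s1 < |χ (C.pt o)|}, min |χ (C.pt o)| s1 ∂C.μ = s1 * supa C χ s1 := by
      rw [setIntegral_congr_ae₀ (g := fun _ => s1) m1
        (ae_of_all _ fun o ho => min_eq_right (le_of_lt ho)), setIntegral_const, smul_eq_mul,
        mul_comm]
      rfl
    rw [e2, e3, smul_eq_mul, mul_comm (C.μ.real _) s0]
    rfl
  have e4 : ∫ o in {o | s0 < |χ (C.pt o)| ∧ |χ (C.pt o)| ≤ s1},
      (K * gn C χ o ^ 2 + 2 * c * |χ (C.pt o)|) ∂C.μ =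
      K * ∫ o in {o | s0 < |χ (C.pt o)| ∧ |χ (C.pt o)| ≤ s1}, gn C χ o ^ 2 ∂C.μ +
        2 * c * ∫ o in {o | s0 < |χ (C.pt o)| ∧ |χ (C.pt o)| ≤ s1}, |χ (C.pt o)| ∂C.μ := by
    rw [integral_add (ig.const_mul K).integrableOn (iabs.const_mul (2 * c)).integrableOn,
      integral_const_mul, integral_const_mul]
  rw [e4] at hmain
  have k0 : S s0 (fun _ => supw C χ (fun _ => 1) s0) =
      2 * s0 * (c * supa C χ s0 - l) - Psb l c K κ' (supa C χ s0) := by
    rw [← hsupw]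
  have k1 : S s1 (fun _ => supw C χ (fun _ => 1) s1) =
      2 * s1 * (c * supa C χ s1 - l) - Psb l c K κ' (supa C χ s1) := by
    rw [← hsupw]
  rw [k0, k1] at hmain
  have p0 : Psb l c K κ' (supa C χ s0) ≤ Psb l c K κ' β :=
    Psb_mono hK hκ0 (hα.trans_le (h1.trans (supa_anti C χ hs))) h0
  have p1 : Psb l c K κ' α ≤ Psb l c K κ' (supa C χ s1) := Psb_mono hK hκ0 hα h1
  rw [e1]
  have e5 : 2 * c * (∫ o in {o | s0 < |χ (C.pt o)| ∧ |χ (C.pt o)| ≤ s1}, |χ (C.pt o)| ∂C.μ +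
      s1 * supa C χ s1 - s0 * supa C χ s0) =
      2 * c * ∫ o in {o | s0 < |χ (C.pt o)| ∧ |χ (C.pt o)| ≤ s1}, |χ (C.pt o)| ∂C.μ +
        2 * s1 * (c * supa C χ s1) - 2 * s0 * (c * supa C χ s0) := by ring
  rw [e5]
  nlinarith

/-- **the band between two levels**: source `2 c` for the area, energy coefficient `K` -/
theorem band_sq (C : Calc M γ) {v : Fin 3 → M → ℝ} (hv : Sph γ v) {χ : M → ℝ} (hχ : Lip χ)
    (eχ : EvenB γ χ) {κ κ' α β a₁ ε : ℝ} (hI : IsopE C κ a₁ ε) (hκ : ∀ a, α ≤ a → κ' * a ≤ κ * (a - ε))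
    (hα : 0 < α) (hαβ : α ≤ β) (hβ : β ≤ a₁) (hκ0 : 0 < κ') {K l c : ℝ} (hK : 0 < K) (hc : 0 ≤ c)
    (hl : c * β ≤ l) {R : ℝ} (gR : ∀ᵐ o ∂C.μ, |χ (C.pt o)| ≤ R) {s0 s1 : ℝ} (hs0 : 0 ≤ s0) (hs : s0 ≤ s1)
    (h0 : supa C χ s0 ≤ β) (h1 : ∀ s, s0 < s → s < s1 → α ≤ supa C χ s) :
    2 * l * (s1 - s0) - (Psb l c K κ' β - Psb l c K κ' α) ≤
      K * ∫ o in {o | s0 < |χ (C.pt o)| ∧ |χ (C.pt o)| ≤ s1}, gn C χ o ^ 2 ∂C.μ +
        2 * c * ∫ o in {o | s0 < |χ (C.pt o)|}, (min |χ (C.pt o)| s1 - s0) ∂C.μ := by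
  have := C.fin
  have iabs : Integrable (fun o => |χ (C.pt o)|) C.μ := by
    refine (integrable_const R).mono' (aem_pt C (lip_abs hχ)).aestronglyMeasurable ?_
    filter_upwards [gR] with o ho
    rw [Real.norm_eq_abs, abs_abs]
    exact ho
  have ig := int_gn_sq C hχ
  have m0 := meas_abs_lt C hχ s0
  rcases hs.eq_or_lt with he | hlt
  · have h2 := Psb_mono (l := l) (c := c) hK hκ0 hα hαβ
    have h3 : 0 ≤ ∫ o in {o | s0 < |χ (C.pt o)| ∧ |χ (C.pt o)| ≤ s1}, gn C χ o ^ 2 ∂C.μ :=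
      integral_nonneg fun o => sq_nonneg _
    have h4 : 0 ≤ ∫ o in {o | s0 < |χ (C.pt o)|}, (min |χ (C.pt o)| s1 - s0) ∂C.μ := by
      refine setIntegral_nonneg_of_ae_restrict ?_
      filter_upwards [ae_restrict_mem₀ m0] with o ho
      have h5 : s0 < |χ (C.pt o)| := ho
      exact sub_nonneg.2 (le_min h5.le hs)
    have h6 : 0 ≤ K * ∫ o in {o | s0 < |χ (C.pt o)| ∧ |χ (C.pt o)| ≤ s1}, gn C χ o ^ 2 ∂C.μ :=
      mul_nonneg hK.le h3
    have h7 : 0 ≤ 2 * c * ∫ o in {o | s0 < |χ (C.pt o)|}, (min |χ (C.pt o)| s1 - s0) ∂C.μ := by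
      positivity
    rw [← he] at h6 h7 ⊢
    linarith
  · have key : ∀ s, s0 < s → s < s1 → 2 * l * (s - s0) - (Psb l c K κ' β - Psb l c K κ' α) ≤
        K * ∫ o in {o | s0 < |χ (C.pt o)| ∧ |χ (C.pt o)| ≤ s1}, gn C χ o ^ 2 ∂C.μ +
          2 * c * ∫ o in {o | s0 < |χ (C.pt o)|}, (min |χ (C.pt o)| s1 - s0) ∂C.μ := by
      intro s hs0s hss1
      have h2 := band_sq' C hv hχ eχ hI hκ hα hβ hκ0 hK hc hl gR hs0 hs0s.le h0 (h1 s hs0s hss1)
      have h3 : ∫ o in {o | s0 < |χ (C.pt o)| ∧ |χ (C.pt o)| ≤ s}, gn C χ o ^ 2 ∂C.μ ≤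
          ∫ o in {o | s0 < |χ (C.pt o)| ∧ |χ (C.pt o)| ≤ s1}, gn C χ o ^ 2 ∂C.μ :=
        setIntegral_mono_set ig.integrableOn (ae_of_all _ fun o => sq_nonneg _)
          (LE.le.eventuallyLE fun o ho => ⟨ho.1, ho.2.trans hss1.le⟩)
      have h4 : ∫ o in {o | s0 < |χ (C.pt o)|}, (min |χ (C.pt o)| s - s0) ∂C.μ ≤
          ∫ o in {o | s0 < |χ (C.pt o)|}, (min |χ (C.pt o)| s1 - s0) ∂C.μ :=
        integral_mono ((iabs.inf (integrable_const s)).sub (integrable_const s0)).integrableOn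
          ((iabs.inf (integrable_const s1)).sub (integrable_const s0)).integrableOn fun o =>
            sub_le_sub_right (min_le_min_left _ hss1.le) _
      have h5 := mul_le_mul_of_nonneg_left h3 hK.le
      have h6 : 2 * c * ∫ o in {o | s0 < |χ (C.pt o)|}, (min |χ (C.pt o)| s - s0) ∂C.μ ≤
          2 * c * ∫ o in {o | s0 < |χ (C.pt o)|}, (min |χ (C.pt o)| s1 - s0) ∂C.μ :=
        mul_le_mul_of_nonneg_left h4 (by positivity)
      linarith
    have ht : Tendsto (fun s : ℝ => 2 * l * (s - s0) - (Psb l c K κ' β - Psb l c K κ' α)) (𝓝[<] s1)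
        (𝓝 (2 * l * (s1 - s0) - (Psb l c K κ' β - Psb l c K κ' α))) := by
      have hc : Continuous fun s : ℝ => 2 * l * (s - s0) - (Psb l c K κ' β - Psb l c K κ' α) := by
        fun_prop
      exact (hc.tendsto s1).mono_left nhdsWithin_le_nhds
    refine le_of_tendsto ht ?_
    filter_upwards [Ioo_mem_nhdsLT hlt] with s hs'
    exact key s hs'.1 hs'.2

/-- a level `t` for the area `a` with a weight -/
theorem lev_theta (C : Calc M γ) {u : M → ℝ} (hu : Lip u) {R a : ℝ} (hR0 : 0 ≤ R)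
    (gR : ∀ᵐ o ∂C.μ, |u (C.pt o)| ≤ R) (ha : 0 < a) :
    ∃ (t : ℝ) (θ : Om → ℝ), 0 ≤ t ∧ t ≤ R ∧ supa C u t ≤ a ∧ (∀ s, 0 ≤ s → s < t → a ≤ supa C u s) ∧
      Integrable θ C.μ ∧ (∀ o, 0 ≤ θ o) ∧ (∀ o, θ o ≤ 1) ∧ (∀ o, t < |u (C.pt o)| → θ o = 1) ∧
      (∀ o, |u (C.pt o)| < t → θ o = 0) ∧ ∫ o, θ o ∂C.μ ≤ a ∧ t * ∫ o, θ o ∂C.μ = t * a := by
  have := C.fin
  rcases lt_or_ge (supa C u 0) a with h0 | h0
  · have m0 := meas_abs_lt C hu 0
    refine ⟨0, {o | 0 < |u (C.pt o)|}.indicator fun _ => 1, le_rfl, hR0, h0.le,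
      fun s h1 h2 => absurd h1 (not_le.2 h2), (integrable_const _).indicator₀ m0,
      fun o => indicator_nonneg (fun _ _ => zero_le_one) o, fun o => ?_, fun o ho => ?_,
      fun o ho => absurd ho (not_lt.2 (abs_nonneg _)), ?_, by rw [zero_mul, zero_mul]⟩
    · by_cases h : o ∈ {o | 0 < |u (C.pt o)|}
      · rw [indicator_of_mem h]
      · rw [indicator_of_notMem h]
        exact zero_le_one
    · exact indicator_of_mem (show o ∈ {o | 0 < |u (C.pt o)|} from ho) _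
    · rw [integral_indicator₀ m0, setIntegral_const, smul_eq_mul, mul_one]
      exact h0.le
  · obtain ⟨t, θ, t0, tR, hta, iθ, θ0, θ1, hθ1, hθ0, hθ⟩ := level_theta C hu gR ha h0
    refine ⟨t, θ, t0, tR, hta, fun s hs0 hst => ?_, iθ, θ0, θ1, hθ1, hθ0, hθ.le, by rw [hθ]⟩
    have m1 := meas_abs_lt C hu s
    rw [← hθ]
    have h1 : ∫ o, θ o ∂C.μ ≤ ∫ o, {o | s < |u (C.pt o)|}.indicator (fun _ => (1 : ℝ)) o ∂C.μ := by
      refine integral_mono iθ ((integrable_const _).indicator₀ m1) fun o => ?_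
      by_cases h : s < |u (C.pt o)|
      · rw [indicator_of_mem (show o ∈ {o | s < |u (C.pt o)|} from h)]
        exact θ1 o
      · rw [indicator_of_notMem (show o ∉ {o | s < |u (C.pt o)|} from h),
          hθ0 o ((not_lt.1 h).trans_lt hst)]
    rw [integral_indicator₀ m1, setIntegral_const, smul_eq_mul, mul_one] at h1
    exact h1

/-- the mass of `min |u| s - t` above the level `t` -/
def fmn (C : Calc M γ) (u : M → ℝ) (t s : ℝ) : ℝ :=
  ∫ o in {o | t < |u (C.pt o)|}, (min |u (C.pt o)| s - t) ∂C.μ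

theorem fmn_split (C : Calc M γ) {u : M → ℝ} (hu : Lip u) {R : ℝ} (gR : ∀ᵐ o ∂C.μ, |u (C.pt o)| ≤ R)
    {r s t : ℝ} (hrs : r ≤ s) (hst : s ≤ t) : fmn C u r t = fmn C u r s + fmn C u s t := by
  have := C.fin
  have iabs : Integrable (fun o => |u (C.pt o)|) C.μ := by
    refine (integrable_const R).mono' (aem_pt C (lip_abs hu)).aestronglyMeasurable ?_
    filter_upwards [gR] with o ho
    rw [Real.norm_eq_abs, abs_abs]
    exact ho
  have i1 : Integrable (fun o => min |u (C.pt o)| t - r) C.μ :=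
    (iabs.inf (integrable_const t)).sub (integrable_const r)
  have i2 : Integrable (fun o => min |u (C.pt o)| s - r) C.μ :=
    (iabs.inf (integrable_const s)).sub (integrable_const r)
  have i3 : Integrable (fun o => min |u (C.pt o)| t - s) C.μ :=
    (iabs.inf (integrable_const t)).sub (integrable_const s)
  have mr := meas_abs_lt C hu r
  have ms := meas_abs_lt C hu s
  unfold fmn
  rw [level_split C hu i1 hrs, level_split C hu i2 hrs]
  have e1 : ∫ o in {o | r < |u (C.pt o)| ∧ |u (C.pt o)| ≤ s}, (min |u (C.pt o)| t - r) ∂C.μ =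
      ∫ o in {o | r < |u (C.pt o)| ∧ |u (C.pt o)| ≤ s}, (min |u (C.pt o)| s - r) ∂C.μ := by
    refine setIntegral_congr_ae₀ ?_ (ae_of_all _ fun o ho => ?_)
    · have : {o : Om | r < |u (C.pt o)| ∧ |u (C.pt o)| ≤ s} =
          {o | r < |u (C.pt o)|} \ {o | s < |u (C.pt o)|} := by
        ext o
        exact ⟨fun h => ⟨h.1, fun h' => absurd h.2 (not_le.2 h')⟩, fun h => ⟨h.1, not_lt.1 h.2⟩⟩
      rw [this]
      exact mr.diff ms
    · rw [min_eq_left ho.2, min_eq_left (ho.2.trans hst)]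
  have e2 : ∫ o in {o | s < |u (C.pt o)|}, (min |u (C.pt o)| t - r) ∂C.μ =
      ∫ o in {o | s < |u (C.pt o)|}, (min |u (C.pt o)| s - r) ∂C.μ +
        ∫ o in {o | s < |u (C.pt o)|}, (min |u (C.pt o)| t - s) ∂C.μ := by
    rw [← integral_add i2.integrableOn i3.integrableOn]
    refine setIntegral_congr_ae₀ ms (ae_of_all _ fun o ho => ?_)
    have h1 : s < |u (C.pt o)| := ho
    rw [min_eq_right h1.le]
    ring
  rw [e1, e2]
  ring

theorem fmn_self (C : Calc M γ) {u : M → ℝ} (hu : Lip u) (t : ℝ) : fmn C u t t = 0 := by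
  unfold fmn
  rw [setIntegral_congr_ae₀ (g := fun _ => (0 : ℝ)) (meas_abs_lt C hu t)
    (ae_of_all _ fun o ho => by
      have h1 : t < |u (C.pt o)| := ho
      rw [min_eq_right h1.le, sub_self])]
  simp

theorem fmn_sum (C : Calc M γ) {u : M → ℝ} (hu : Lip u) {R : ℝ} (gR : ∀ᵐ o ∂C.μ, |u (C.pt o)| ≤ R)
    {t : ℕ → ℝ} (j : ℕ) (ht : ∀ k, k < j → t k ≤ t (k + 1)) :
    fmn C u (t 0) (t j) = ∑ k ∈ Finset.range j, fmn C u (t k) (t (k + 1)) := by
  induction j with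
  | zero => rw [fmn_self C hu, Finset.sum_range_zero]
  | succ j ih =>
    have h1 : ∀ m, m ≤ j → t 0 ≤ t m := by
      intro m
      induction m with
      | zero => exact fun _ => le_rfl
      | succ m im => exact fun h => (im (by omega)).trans (ht m (by omega))
    rw [fmn_split C hu gR (h1 j le_rfl) (ht j (by omega)), ih fun k hk => ht k (by omega),
      Finset.sum_range_succ]

/-- the mass of `min |u| s` with the weight `θ` of the level `t` -/
theorem theta_min (C : Calc M γ) {u : M → ℝ} (hu : Lip u) {R : ℝ} (gR : ∀ᵐ o ∂C.μ, |u (C.pt o)| ≤ R)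
    {t s a : ℝ} (hts : t ≤ s) {θ : Om → ℝ} (iθ : Integrable θ C.μ) (hθ1 : ∀ o, t < |u (C.pt o)| → θ o = 1)
    (hθ0 : ∀ o, |u (C.pt o)| < t → θ o = 0) (ha : t * ∫ o, θ o ∂C.μ = t * a) :
    ∫ o, min |u (C.pt o)| s * θ o ∂C.μ = t * a + fmn C u t s := by
  have := C.fin
  have iabs : Integrable (fun o => |u (C.pt o)|) C.μ := by
    refine (integrable_const R).mono' (aem_pt C (lip_abs hu)).aestronglyMeasurable ?_
    filter_upwards [gR] with o ho
    rw [Real.norm_eq_abs, abs_abs]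
    exact ho
  have m := meas_abs_lt C hu t
  have i1 : Integrable ({o | t < |u (C.pt o)|}.indicator fun o => min |u (C.pt o)| s - t) C.μ :=
    ((iabs.inf (integrable_const s)).sub (integrable_const t)).indicator₀ m
  have e1 : ∀ o, min |u (C.pt o)| s * θ o = t * θ o +
      {o | t < |u (C.pt o)|}.indicator (fun o => min |u (C.pt o)| s - t) o := by
    intro o
    by_cases h : t < |u (C.pt o)|
    · rw [indicator_of_mem (show o ∈ {o | t < |u (C.pt o)|} from h), hθ1 o h]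
      ring
    · rw [indicator_of_notMem (show o ∉ {o | t < |u (C.pt o)|} from h), add_zero]
      rcases (not_lt.1 h).lt_or_eq with h2 | h2
      · rw [hθ0 o h2, mul_zero, mul_zero]
      · rw [h2, min_eq_left hts]
  rw [integral_congr_ae (ae_of_all _ e1), integral_add (iθ.const_mul t) i1, integral_const_mul, ha,
    integral_indicator₀ m]
  rfl

variable {J : Finset ℕ} {w t : ℕ → ℝ}

omit [MetricSpace M] in
theorem ugr_filter (ht : ∀ j ∈ J, 0 ≤ t j) (η : Fin 3 → M → ℝ) :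
    ugr (J.filter fun j => 0 < t j) w t η = ugr J w t η := by
  funext i x
  unfold ugr
  rw [Finset.sum_filter]
  refine Finset.sum_congr rfl fun j hj => ?_
  split_ifs with h
  · rfl
  · have h0 : t j = 0 := le_antisymm (not_lt.1 h) (ht j hj)
    unfold utr
    rw [h0, zero_div, mul_zero, mul_zero]

theorem Gt_filter (ht : ∀ j ∈ J, 0 ≤ t j) {u : ℝ} (hu : 0 ≤ u) :
    Gt (J.filter fun j => 0 < t j) w t u = Gt J w t u := by
  unfold Gt
  rw [Finset.sum_filter]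
  refine Finset.sum_congr rfl fun j hj => ?_
  split_ifs with h
  · rfl
  · have h0 : t j = 0 := le_antisymm (not_lt.1 h) (ht j hj)
    rw [h0, min_eq_right hu, mul_zero]

theorem gt'_filter (ht : ∀ j ∈ J, 0 ≤ t j) {u : ℝ} (hu : 0 < u) :
    gt' (J.filter fun j => 0 < t j) w t u = gt' J w t u := by
  unfold gt'
  rw [Finset.sum_filter]
  refine Finset.sum_congr rfl fun j hj => ?_
  split_ifs with h h2 h2
  · rfl
  · rfl
  · have h0 : t j = 0 := le_antisymm (not_lt.1 h) (ht j hj)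
    rw [h0] at h2
    exact absurd h2 (not_le.2 hu)
  · rfl

/-- the graded truncation with nonnegative levels: odd, Lipschitz, modulus -/
theorem umod_ugrz (hw : ∀ j ∈ J, 0 ≤ w j) (ht : ∀ j ∈ J, 0 ≤ t j) (η : Fin 3 → M → ℝ) (x : M) :
    umod (ugr J w t η) x = Gt J w t (umod η x) := by
  rw [← ugr_filter ht, ← Gt_filter ht (umod_nonneg η x)]
  exact umod_ugr (fun j hj => hw j (Finset.mem_filter.1 hj).1) (fun j hj => (Finset.mem_filter.1 hj).2)
    η x

theorem lip_ugrz [CompactSpace M] (ht : ∀ j ∈ J, 0 ≤ t j) {η : Fin 3 → M → ℝ} (h : ∀ i, Lip (η i))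
    (i : Fin 3) : Lip (ugr J w t η i) := by
  rw [← ugr_filter ht]
  exact lip_ugr (fun j hj => (Finset.mem_filter.1 hj).2) h i

/-- the energy of the graded truncation, nonnegative levels -/
theorem ugrz_split [CompactSpace M] (C : Calc M γ) (hw : ∀ j ∈ J, 0 ≤ w j) (hw1 : ∑ j ∈ J, w j ≤ 1)
    (ht : ∀ j ∈ J, 0 ≤ t j) {η : Fin 3 → M → ℝ} (h : ∀ i, Lip (η i)) : ∀ᵐ o ∂C.μ,
    Gη C (ugr J w t η) o ≤ Gη C η o ∧
    (0 < umod η (C.pt o) → Gη C (ugr J w t η) o =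
      (gt' J w t (umod η (C.pt o))) ^ 2 * gn C (umod η) o ^ 2 +
      (Gt J w t (umod η (C.pt o)) / umod η (C.pt o)) ^ 2 * (Gη C η o - gn C (umod η) o ^ 2)) ∧
    (0 < umod η (C.pt o) → Gη C (ugr J w t η) o +
      (1 - (gt' J w t (umod η (C.pt o))) ^ 2) * gn C (umod η) o ^ 2 ≤ Gη C η o) := by
  have hw' : ∀ j ∈ J.filter (fun j => 0 < t j), 0 ≤ w j := fun j hj => hw j (Finset.mem_filter.1 hj).1
  have ht' : ∀ j ∈ J.filter (fun j => 0 < t j), 0 < t j := fun j hj => (Finset.mem_filter.1 hj).2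
  have hs : ∑ j ∈ J.filter (fun j => 0 < t j), w j ≤ 1 :=
    (Finset.sum_le_sum_of_subset_of_nonneg (Finset.filter_subset _ _) fun j hj _ => hw j hj).trans hw1
  have hs0 : 0 ≤ ∑ j ∈ J.filter (fun j => 0 < t j), w j := Finset.sum_nonneg hw'
  filter_upwards [ugr_split C (w := w) ht' h, kato C h] with o h1 h2
  rw [ugr_filter ht] at h1
  have hG := Gη_nonneg C η o
  have hGJ : 0 ≤ ∑ j ∈ J, w j := Finset.sum_nonneg hw
  rcases (umod_nonneg η (C.pt o)).eq_or_lt with hu | hu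
  · have hb : ∀ j ∈ J.filter (fun j => 0 < t j), umod η (C.pt o) ≤ t j := fun j hj => by
      rw [← hu]
      exact (ht' j hj).le
    refine ⟨?_, fun h3 => absurd h3 (by rw [← hu]; exact lt_irrefl _),
      fun h3 => absurd h3 (by rw [← hu]; exact lt_irrefl _)⟩
    rw [h1.1 hb]
    have h4 : (∑ j ∈ J.filter (fun j => 0 < t j), w j) ^ 2 ≤ 1 := pow_le_one₀ hs0 hs
    nlinarith
  · have h3 := h1.2 hu
    rw [Gt_filter ht hu.le, gt'_filter ht hu] at h3
    have h5 : (Gt J w t (umod η (C.pt o)) / umod η (C.pt o)) ^ 2 ≤ 1 := by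
      have h50 : 0 ≤ Gt J w t (umod η (C.pt o)) := by
        rw [← Gt_filter ht hu.le]
        exact Gt_nonneg hw' ht' hu.le
      refine pow_le_one₀ (div_nonneg h50 hu.le) ?_
      rw [div_le_one hu]
      have h6 := Gt_le (t := t) hw (umod η (C.pt o))
      have h7 : (∑ j ∈ J, w j) * umod η (C.pt o) ≤ 1 * umod η (C.pt o) :=
        mul_le_mul_of_nonneg_right hw1 hu.le
      linarith
    have h8 : (gt' J w t (umod η (C.pt o))) ^ 2 ≤ 1 :=
      pow_le_one₀ (gt'_nonneg hw _) ((gt'_le hw _).trans hw1)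
    have h9 : 0 ≤ Gη C η o - gn C (umod η) o ^ 2 := by linarith
    have h10 : 0 ≤ gn C (umod η) o ^ 2 := sq_nonneg _
    refine ⟨?_, fun _ => h3, fun _ => ?_⟩
    · rw [h3]
      nlinarith
    · rw [h3]
      nlinarith

/-- sum over the bands -/
theorem level_sum (C : Calc M γ) {u : M → ℝ} (hu : Lip u) {F : Om → ℝ} (hF : Integrable F C.μ)
    {t : ℕ → ℝ} (n : ℕ) (ht : ∀ k, k < n → t k ≤ t (k + 1)) :
    ∫ o in {o | t 0 < |u (C.pt o)|}, F o ∂C.μ =
      ∑ k ∈ Finset.range n, (∫ o in {o | t k < |u (C.pt o)| ∧ |u (C.pt o)| ≤ t (k + 1)}, F o ∂C.μ) +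
        ∫ o in {o | t n < |u (C.pt o)|}, F o ∂C.μ := by
  induction n with
  | zero => simp
  | succ n ih =>
    rw [ih fun k hk => ht k (by omega), Finset.sum_range_succ, level_split C hu hF (ht n (by omega))]
    ring

/-- the slope of the graded truncation in the band `k` -/
def gkw (w : ℕ → ℝ) (n k : ℕ) : ℝ := ∑ j ∈ Finset.Ioc k n, w j

theorem gt'_band {w t : ℕ → ℝ} {n k : ℕ} (hk : k < n) (ht : ∀ i j, i ≤ j → j ≤ n → t i ≤ t j) {u : ℝ}
    (h1 : t k < u) (h2 : u ≤ t (k + 1)) : gt' (Finset.range (n + 1)) w t u = gkw w n k := by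
  unfold gt' gkw
  rw [← Finset.sum_filter]
  refine Finset.sum_congr ?_ fun _ _ => rfl
  ext j
  simp only [Finset.mem_filter, Finset.mem_range, Finset.mem_Ioc]
  constructor
  · rintro ⟨h3, h4⟩
    refine ⟨?_, by omega⟩
    by_contra hc
    have := ht j k (by omega) (by omega)
    linarith
  · rintro ⟨h3, h4⟩
    exact ⟨by omega, h2.trans (ht (k + 1) j (by omega) h4)⟩

theorem gt'_top {w t : ℕ → ℝ} {n : ℕ} (ht : ∀ i j, i ≤ j → j ≤ n → t i ≤ t j) {u : ℝ} (h1 : t n < u) :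
    gt' (Finset.range (n + 1)) w t u = 0 := by
  unfold gt'
  refine Finset.sum_eq_zero fun j hj => if_neg ?_
  have := ht j n (by have := Finset.mem_range.1 hj; omega) le_rfl
  exact not_le.2 (this.trans_lt h1)

theorem Gt_top {w t : ℕ → ℝ} {n : ℕ} (ht : ∀ i j, i ≤ j → j ≤ n → t i ≤ t j) {u : ℝ} (h1 : t n ≤ u) :
    Gt (Finset.range (n + 1)) w t u = ∑ j ∈ Finset.range (n + 1), w j * t j := by
  unfold Gt
  refine Finset.sum_congr rfl fun j hj => ?_
  have := ht j n (by have := Finset.mem_range.1 hj; omega) le_rfl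
  rw [min_eq_right (this.trans h1)]

theorem gkw_sum {w : ℕ → ℝ} (n : ℕ) (f : ℕ → ℝ) :
    ∑ j ∈ Finset.range (n + 1), w j * ∑ k ∈ Finset.range j, f k =
      ∑ k ∈ Finset.range n, gkw w n k * f k := by
  unfold gkw
  simp only [Finset.mul_sum, Finset.sum_mul]
  refine Finset.sum_comm' fun j k => ?_
  simp only [Finset.mem_range, Finset.mem_Ioc]
  omega

/-- the cost of the multipliers `l` -/
def gcost (a w : ℕ → ℝ) (n : ℕ) (q κ : ℝ) (l : ℕ → ℝ) : ℝ :=
  l 0 ^ 2 / (q * a 0) + ∑ k ∈ Finset.range n,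
    (Psb (l (k + 1)) (l 0 * gkw w n k / a 0) (1 - gkw w n k ^ 2) κ (a k) -
      Psb (l (k + 1)) (l 0 * gkw w n k / a 0) (1 - gkw w n k ^ 2) κ (a (k + 1)))

/-- **the graded far part**: energy of the graded truncation plus the radial energy in the bands -/
theorem graded_core [CompactSpace M] (C : Calc M γ) {v : Fin 3 → M → ℝ} (hv : Sph γ v)
    {η : Fin 3 → M → ℝ} (hη : ∀ i, Lip (η i)) (oη : ∀ i, FPM.OddB γ (η i)) {R : ℝ}
    (hR : ∀ x, umod η x ≤ R) {κ κ' a₁ ε : ℝ} (hI : IsopE C κ a₁ ε) (hκ0 : 0 < κ') {n : ℕ}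
    {a w t l : ℕ → ℝ} (a0 : ∀ k, 0 < a k) (ha1 : a 0 ≤ a₁) (ad : ∀ k, k < n → a (k + 1) < a k)
    (hκ : ∀ x, a n ≤ x → κ' * x ≤ κ * (x - ε)) (w0 : ∀ j, 0 ≤ w j)
    (hw : ∑ j ∈ Finset.range (n + 1), w j = 1) (hw0 : 0 < w 0) {q e : ℝ} (q0 : 0 < q)
    (t0 : 0 ≤ t 0) (tm : ∀ k, k < n → t k ≤ t (k + 1))
    (ta : ∀ k, k ≤ n → supa C (umod η) (t k) ≤ a k)
    (tb : ∀ k, k ≤ n → ∀ s, 0 ≤ s → s < t k → a k ≤ supa C (umod η) s)
    {θ : Om → ℝ} (iθ : Integrable θ C.μ) (θ0 : ∀ o, 0 ≤ θ o) (θ1 : ∀ o, θ o ≤ 1)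
    (hθ1 : ∀ o, t 0 < |umod η (C.pt o)| → θ o = 1)
    (hθ0 : ∀ o, |umod η (C.pt o)| < t 0 → θ o = 0) (hθa : ∫ o, θ o ∂C.μ ≤ a 0)
    (hθt : t 0 * ∫ o, θ o ∂C.μ = t 0 * a 0)
    (hfar : q * ∫ o, umod (ugr (Finset.range (n + 1)) w t η) (C.pt o) ^ 2 * θ o ∂C.μ ≤
      ∫ o, Gη C (ugr (Finset.range (n + 1)) w t η) o ∂C.μ + e)
    (l0 : 0 ≤ l 0) (hl : ∀ k, k < n → l 0 * gkw w n k * a k ≤ a 0 * l (k + 1)) :
    2 * l 0 * t 0 + ∑ k ∈ Finset.range n, 2 * l (k + 1) * (t (k + 1) - t k) - gcost a w n q κ' l - e ≤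
      ∫ o, Gη C (ugr (Finset.range (n + 1)) w t η) o ∂C.μ +
        ∑ k ∈ Finset.range n, (1 - gkw w n k ^ 2) *
          ∫ o in {o | t k < |umod η (C.pt o)| ∧ |umod η (C.pt o)| ≤ t (k + 1)},
            gn C (umod η) o ^ 2 ∂C.μ := by
  have := C.fin
  have hu := lip_umod hη
  have eu := even_umod oη
  have u0 := fun o => umod_nonneg η (C.pt o)
  have ua : ∀ o, |umod η (C.pt o)| = umod η (C.pt o) := fun o => abs_of_nonneg (u0 o)
  have gR : ∀ᵐ o ∂C.μ, |umod η (C.pt o)| ≤ R := ae_of_all _ fun o => by rw [ua]; exact hR _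
  have ha00 := a0 0
  -- monotonicity of the levels
  have tmono : ∀ i j, i ≤ j → j ≤ n → t i ≤ t j := by
    intro i j hij
    induction j with
    | zero => intro _; rw [Nat.le_zero.1 hij]
    | succ j ih =>
      intro hj
      rcases Nat.lt_or_ge i (j + 1) with h | h
      · exact (ih (by omega) (by omega)).trans (tm j (by omega))
      · rw [le_antisymm hij h]
  have tj0 : ∀ j ∈ Finset.range (n + 1), 0 ≤ t j := fun j hj =>
    t0.trans (tmono 0 j (Nat.zero_le _) (by have := Finset.mem_range.1 hj; omega))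
  have aanti : ∀ i j, i ≤ j → j ≤ n → a j ≤ a i := by
    intro i j hij
    induction j with
    | zero => intro _; rw [Nat.le_zero.1 hij]
    | succ j ih =>
      intro hj
      rcases Nat.lt_or_ge i (j + 1) with h | h
      · exact (ad j (by omega)).le.trans (ih (by omega) (by omega))
      · rw [le_antisymm hij h]
  -- the slopes
  have g0 : ∀ k, 0 ≤ gkw w n k := fun k => Finset.sum_nonneg fun j _ => w0 j
  have g1 : ∀ k, gkw w n k < 1 := fun k => by
    have h1 : gkw w n k ≤ ∑ j ∈ Finset.Ioc 0 n, w j :=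
      Finset.sum_le_sum_of_subset_of_nonneg (Finset.Ioc_subset_Ioc_left (Nat.zero_le _))
        fun j _ _ => w0 j
    have h2 : ∑ j ∈ Finset.range (n + 1), w j = w 0 + ∑ j ∈ Finset.Ioc 0 n, w j := by
      have h3 : Finset.range (n + 1) = insert 0 (Finset.Ioc 0 n) := by
        ext j
        simp only [Finset.mem_range, Finset.mem_insert, Finset.mem_Ioc]
        omega
      rw [h3, Finset.sum_insert (by simp)]
    linarith
  have gK : ∀ k, 0 < 1 - gkw w n k ^ 2 := fun k => by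
    have := g0 k
    have := g1 k
    nlinarith
  set ξ := ugr (Finset.range (n + 1)) w t η with hξ
  set H : Om → ℝ := fun o => Gt (Finset.range (n + 1)) w t (umod η (C.pt o)) with hH
  have hum : ∀ o, umod ξ (C.pt o) = H o := fun o => umod_ugrz (fun j _ => w0 j) tj0 η _
  have Hle : ∀ o, |H o| ≤ R := fun o => by
    rw [← hum, abs_of_nonneg (umod_nonneg _ _), hum]
    have h1 := Gt_le (t := t) (J := Finset.range (n + 1)) (fun j _ => w0 j) (umod η (C.pt o))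
    rw [hw, one_mul] at h1
    exact h1.trans (hR _)
  have mH : AEStronglyMeasurable H C.μ := by
    have h1 : AEMeasurable (fun o => umod ξ (C.pt o)) C.μ := aem_pt C (lip_umod fun i => lip_ugrz tj0 hη i)
    exact (h1.congr (ae_of_all _ hum)).aestronglyMeasurable
  have iHθ : Integrable (fun o => H o * θ o) C.μ := by
    refine iθ.bdd_mul (c := R) mH (ae_of_all _ fun o => ?_)
    rw [Real.norm_eq_abs]
    exact Hle o
  have iH2 : Integrable (fun o => H o ^ 2 * θ o) C.μ := by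
    refine iθ.bdd_mul (c := R ^ 2) (mH.pow 2) (ae_of_all _ fun o => ?_)
    rw [Real.norm_eq_abs, abs_pow]
    exact pow_le_pow_left₀ (abs_nonneg _) (Hle o) 2
  -- Young
  set ϑ := l 0 / (q * a 0) with hϑ
  have hϑ0 : 0 ≤ ϑ := div_nonneg l0 (mul_pos q0 ha00).le
  have hϑq : ϑ * (q * a 0) = l 0 := div_mul_cancel₀ _ (mul_pos q0 ha00).ne'
  have h1 : 2 * ϑ * ∫ o, H o * θ o ∂C.μ - ϑ ^ 2 * ∫ o, θ o ∂C.μ ≤ ∫ o, H o ^ 2 * θ o ∂C.μ := by
    rw [← integral_const_mul, ← integral_const_mul, ← integral_sub (iHθ.const_mul _) (iθ.const_mul _)]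
    refine integral_mono ((iHθ.const_mul _).sub (iθ.const_mul _)) iH2 fun o => ?_
    change 2 * ϑ * (H o * θ o) - ϑ ^ 2 * θ o ≤ H o ^ 2 * θ o
    have h2 : 0 ≤ (H o - ϑ) ^ 2 * θ o := mul_nonneg (sq_nonneg _) (θ0 o)
    nlinarith
  -- the mass of `H`
  have iabs : Integrable (fun o => |umod η (C.pt o)|) C.μ := by
    refine (integrable_const R).mono' (aem_pt C (lip_abs hu)).aestronglyMeasurable ?_
    filter_upwards [gR] with o ho
    rw [Real.norm_eq_abs, abs_abs]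
    exact ho
  have h3 : ∫ o, H o * θ o ∂C.μ = t 0 * a 0 +
      ∑ k ∈ Finset.range n, gkw w n k * fmn C (umod η) (t k) (t (k + 1)) := by
    have e1 : ∀ o, H o * θ o = ∑ j ∈ Finset.range (n + 1), w j * (min |umod η (C.pt o)| (t j) * θ o) := by
      intro o
      rw [ua]
      change (∑ j ∈ Finset.range (n + 1), w j * min (umod η (C.pt o)) (t j)) * θ o = _
      rw [Finset.sum_mul]
      exact Finset.sum_congr rfl fun j _ => by ring
    have i2 : ∀ j ∈ Finset.range (n + 1), Integrable (fun o => w j * (min |umod η (C.pt o)| (t j) * θ o)) C.μ := by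
      intro j hj
      refine Integrable.const_mul ?_ _
      refine iθ.bdd_mul (c := t j) (iabs.inf (integrable_const (t j))).aestronglyMeasurable
        (ae_of_all _ fun o => ?_)
      rw [Real.norm_eq_abs, abs_of_nonneg (le_min (abs_nonneg _) (tj0 j hj))]
      exact min_le_right _ _
    rw [integral_congr_ae (ae_of_all _ e1), integral_finsetSum _ i2]
    have e2 : ∀ j ∈ Finset.range (n + 1), ∫ o, w j * (min |umod η (C.pt o)| (t j) * θ o) ∂C.μ =
        w j * (t 0 * a 0) + w j * ∑ k ∈ Finset.range j, fmn C (umod η) (t k) (t (k + 1)) := by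
      intro j hj
      have hjn : j ≤ n := by have := Finset.mem_range.1 hj; omega
      rw [integral_const_mul, theta_min C hu gR (tmono 0 j (Nat.zero_le _) hjn) iθ hθ1 hθ0 hθt,
        fmn_sum C hu gR j fun k hk => tm k (by omega)]
      ring
    rw [Finset.sum_congr rfl e2, Finset.sum_add_distrib, ← Finset.sum_mul, hw, one_mul, gkw_sum]
  -- the bands
  have h4 : ∀ k ∈ Finset.range n, 2 * l (k + 1) * (t (k + 1) - t k) -
      (Psb (l (k + 1)) (l 0 * gkw w n k / a 0) (1 - gkw w n k ^ 2) κ' (a k) -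
        Psb (l (k + 1)) (l 0 * gkw w n k / a 0) (1 - gkw w n k ^ 2) κ' (a (k + 1))) ≤
      (1 - gkw w n k ^ 2) * (∫ o in {o | t k < |umod η (C.pt o)| ∧ |umod η (C.pt o)| ≤ t (k + 1)},
        gn C (umod η) o ^ 2 ∂C.μ) + 2 * (l 0 * gkw w n k / a 0) *
          fmn C (umod η) (t k) (t (k + 1)) := by
    intro k hk
    have hkn : k < n := Finset.mem_range.1 hk
    have hc0 : 0 ≤ l 0 * gkw w n k / a 0 := div_nonneg (mul_nonneg l0 (g0 k)) ha00.le
    have hcl : l 0 * gkw w n k / a 0 * a k ≤ l (k + 1) := by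
      rw [div_mul_eq_mul_div, div_le_iff₀ ha00]
      have := hl k hkn
      linarith
    exact band_sq C hv hu eu hI
      (fun x hx => hκ x ((aanti (k + 1) n (by omega) le_rfl).trans hx)) (a0 (k + 1)) (ad k hkn).le
      ((aanti 0 k (Nat.zero_le _) hkn.le).trans ha1) hκ0 (gK k) hc0 hcl gR
      (t0.trans (tmono 0 k (Nat.zero_le _) hkn.le)) (tm k hkn) (ta k hkn.le)
      (fun s hs1 hs2 => tb (k + 1) (by omega) s
        ((t0.trans (tmono 0 k (Nat.zero_le _) hkn.le)).trans hs1.le) hs2)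
  have h5 := Finset.sum_le_sum h4
  rw [Finset.sum_sub_distrib, Finset.sum_add_distrib] at h5
  -- sum
  have h6 : q * ∫ o, H o ^ 2 * θ o ∂C.μ ≤ ∫ o, Gη C ξ o ∂C.μ + e := by
    have h7 : ∫ o, umod ξ (C.pt o) ^ 2 * θ o ∂C.μ = ∫ o, H o ^ 2 * θ o ∂C.μ :=
      integral_congr_ae (ae_of_all _ fun o => by
        change umod ξ (C.pt o) ^ 2 * θ o = H o ^ 2 * θ o
        rw [hum])
    rw [← h7]
    exact hfar
  have h8 : q * (2 * ϑ * ∫ o, H o * θ o ∂C.μ - ϑ ^ 2 * ∫ o, θ o ∂C.μ) ≤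
      q * ∫ o, H o ^ 2 * θ o ∂C.μ := mul_le_mul_of_nonneg_left h1 q0.le
  have h9 : ϑ ^ 2 * q * ∫ o, θ o ∂C.μ ≤ ϑ ^ 2 * q * a 0 :=
    mul_le_mul_of_nonneg_left hθa (by positivity)
  have h10 : ϑ ^ 2 * q * a 0 = l 0 ^ 2 / (q * a 0) := by
    rw [hϑ]
    field_simp
  have h11 : 2 * ϑ * q * ∫ o, H o * θ o ∂C.μ = 2 * l 0 * t 0 +
      ∑ k ∈ Finset.range n, 2 * (l 0 * gkw w n k / a 0) * fmn C (umod η) (t k) (t (k + 1)) := by
    rw [h3, mul_add, Finset.mul_sum]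
    have h12 : ϑ * q = l 0 / a 0 := by
      rw [hϑ]
      field_simp
    congr 1
    · have : 2 * ϑ * q * (t 0 * a 0) = 2 * (ϑ * (q * a 0)) * t 0 := by ring
      rw [this, hϑq]
    · refine Finset.sum_congr rfl fun k _ => ?_
      have : 2 * ϑ * q * (gkw w n k * fmn C (umod η) (t k) (t (k + 1))) =
        2 * (ϑ * q) * gkw w n k * fmn C (umod η) (t k) (t (k + 1)) := by ring
      rw [this, h12]
      ring
  unfold gcost
  linarith

/-- **levels for the areas `a k`**, weight at the level `0` -/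
theorem levels [CompactSpace M] (C : Calc M γ) {u : M → ℝ} (hu : Lip u) {R : ℝ} (hR0 : 0 ≤ R)
    (gR : ∀ᵐ o ∂C.μ, |u (C.pt o)| ≤ R) {n : ℕ} {a : ℕ → ℝ} (a0 : ∀ k, 0 < a k)
    (ad : ∀ k, k < n → a (k + 1) < a k) :
    ∃ (t : ℕ → ℝ) (θ : Om → ℝ), 0 ≤ t 0 ∧ (∀ k, k < n → t k ≤ t (k + 1)) ∧ t n ≤ R ∧
      (∀ k, supa C u (t k) ≤ a k) ∧ (∀ k s, 0 ≤ s → s < t k → a k ≤ supa C u s) ∧
      Integrable θ C.μ ∧ (∀ o, 0 ≤ θ o) ∧ (∀ o, θ o ≤ 1) ∧ (∀ o, t 0 < |u (C.pt o)| → θ o = 1) ∧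
      (∀ o, |u (C.pt o)| < t 0 → θ o = 0) ∧ ∫ o, θ o ∂C.μ ≤ a 0 ∧ t 0 * ∫ o, θ o ∂C.μ = t 0 * a 0 := by
  choose t θ h using fun k => lev_theta C hu hR0 gR (a0 k)
  refine ⟨t, θ 0, (h 0).1, fun k hk => ?_, (h n).2.1, fun k => (h k).2.2.1, fun k => (h k).2.2.2.1,
    (h 0).2.2.2.2⟩
  by_contra hc
  have h1 := (h k).2.2.2.1 (t (k + 1)) (h (k + 1)).1 (not_le.1 hc)
  have h2 := (h (k + 1)).2.2.1
  have h3 := ad k hk
  linarith

/-- **Assembly with levels of given areas** `a 0 > a 1 > ... > a n`, graded truncation with weights `w`.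
`N H s` is the integrand kept on the core `{s < u}`, `s` the level of `a n`, `H` the modulus of the graded
truncation there. -/
theorem mod_area [CompactSpace M] (C : Calc M γ) {v : Fin 3 → M → ℝ} (hv : Sph γ v)
    {η : Fin 3 → M → ℝ} (hη : ∀ i, Lip (η i)) (oη : ∀ i, FPM.OddB γ (η i)) {R : ℝ} (hR0 : 0 ≤ R)
    (hR : ∀ x, umod η x ≤ R) {κ κ' a₁ ε : ℝ} (hI : IsopE C κ a₁ ε) (hκ0 : 0 < κ') {n : ℕ}
    {a w : ℕ → ℝ} (a0 : ∀ k, 0 < a k) (ha1 : a 0 ≤ a₁) (ad : ∀ k, k < n → a (k + 1) < a k)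
    (hκ : ∀ x, a n ≤ x → κ' * x ≤ κ * (x - ε)) (w0 : ∀ j, 0 ≤ w j)
    (hw : ∑ j ∈ Finset.range (n + 1), w j = 1) (hw0 : 0 < w 0) {q e kl : ℝ} (q0 : 0 < q)
    (hkl : 0 ≤ kl)
    (hfar : ∀ ξ : Fin 3 → M → ℝ, (∀ i, Lip (ξ i)) → (∀ i, FPM.OddB γ (ξ i)) →
      (∀ i x, |ξ i x| ≤ R) → ∀ θ : Om → ℝ, Integrable θ C.μ → (∀ o, 0 ≤ θ o) → (∀ o, θ o ≤ 1) →
      ∫ o, θ o ∂C.μ ≤ a 0 → q * ∫ o, umod ξ (C.pt o) ^ 2 * θ o ∂C.μ ≤ ∫ o, Gη C ξ o ∂C.μ + e)
    {F O : Om → ℝ} (iF : Integrable F C.μ) (iO : Integrable O C.μ) {N : ℝ → ℝ → Om → ℝ}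
    (iN : ∀ H s, 0 ≤ H → H ≤ s → s ≤ R → Integrable (N H s) C.μ)
    (hin : ∀ H s, 0 ≤ H → H ≤ s → s ≤ R → ∀ᵐ o ∂C.μ, s < umod η (C.pt o) →
      N H s o + kl * ((H / umod η (C.pt o)) ^ 2 * (Gη C η o - gn C (umod η) o ^ 2)) ≤ F o)
    (hout : ∀ᵐ o ∂C.μ, kl * Gη C η o + O o ≤ F o) :
    ∃ t : ℕ → ℝ, 0 ≤ t 0 ∧ (∀ k, k < n → t k ≤ t (k + 1)) ∧ t n ≤ R ∧
      (∀ k, supa C (umod η) (t k) ≤ a k) ∧ (∀ k s, 0 ≤ s → s < t k → a k ≤ supa C (umod η) s) ∧
      ∀ l : ℕ → ℝ, 0 ≤ l 0 → (∀ k, k < n → l 0 * gkw w n k * a k ≤ a 0 * l (k + 1)) →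
      ∫ o in {o | t n < umod η (C.pt o)}, N (∑ j ∈ Finset.range (n + 1), w j * t j) (t n) o ∂C.μ +
        ∫ o in {o | umod η (C.pt o) ≤ t n}, O o ∂C.μ +
        kl * (2 * l 0 * t 0 + ∑ k ∈ Finset.range n, 2 * l (k + 1) * (t (k + 1) - t k) -
          gcost a w n q κ' l - e) ≤ ∫ o, F o ∂C.μ := by
  have := C.fin
  have hu := lip_umod hη
  have u0 := fun o => umod_nonneg η (C.pt o)
  have ua : ∀ o, |umod η (C.pt o)| = umod η (C.pt o) := fun o => abs_of_nonneg (u0 o)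
  have gR : ∀ᵐ o ∂C.μ, |umod η (C.pt o)| ≤ R := ae_of_all _ fun o => by rw [ua]; exact hR _
  obtain ⟨t, θ, t0, tm, tR, ta, tb, iθ, θ0, θ1, hθ1, hθ0, hθa, hθt⟩ := levels C hu hR0 gR a0 ad
  refine ⟨t, t0, tm, tR, ta, tb, fun l l0 hl => ?_⟩
  have tmono : ∀ i j, i ≤ j → j ≤ n → t i ≤ t j := by
    intro i j hij
    induction j with
    | zero => intro _; rw [Nat.le_zero.1 hij]
    | succ j ih =>
      intro hj
      rcases Nat.lt_or_ge i (j + 1) with h | h
      · exact (ih (by omega) (by omega)).trans (tm j (by omega))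
      · rw [le_antisymm hij h]
  have tj0 : ∀ j ∈ Finset.range (n + 1), 0 ≤ t j := fun j hj =>
    t0.trans (tmono 0 j (Nat.zero_le _) (by have := Finset.mem_range.1 hj; omega))
  set ξ := ugr (Finset.range (n + 1)) w t η with hξ
  set Hn : ℝ := ∑ j ∈ Finset.range (n + 1), w j * t j with hHn
  have Hn0 : 0 ≤ Hn := Finset.sum_nonneg fun j hj => mul_nonneg (w0 j) (tj0 j hj)
  have Hnt : Hn ≤ t n := by
    have h1 : Hn ≤ ∑ j ∈ Finset.range (n + 1), w j * t n :=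
      Finset.sum_le_sum fun j hj => mul_le_mul_of_nonneg_left
        (tmono j n (by have := Finset.mem_range.1 hj; omega) le_rfl) (w0 j)
    rwa [← Finset.sum_mul, hw, one_mul] at h1
  have lξ : ∀ i, Lip (ξ i) := fun i => lip_ugrz tj0 hη i
  have bξ : ∀ i x, |ξ i x| ≤ R := fun i x => by
    have h1 := abs_le_umod ξ i x
    rw [hξ, umod_ugrz (fun j _ => w0 j) tj0] at h1
    have h2 := Gt_le (t := t) (J := Finset.range (n + 1)) (fun j _ => w0 j) (umod η x)
    rw [hw, one_mul] at h2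
    exact h1.trans (h2.trans (hR x))
  have hc := graded_core C hv hη oη hR hI hκ0 a0 ha1 ad hκ w0 hw hw0 (e := e) q0 t0 tm
    (fun k _ => ta k) (fun k _ => tb k) iθ θ0 θ1 hθ1 hθ0 hθa hθt
    (hfar ξ lξ (odd_ugr oη) bξ θ iθ θ0 θ1 hθa) l0 hl
  -- integrability
  have iG := int_Gη C hη
  have iX := int_Gη C lξ
  have ig := int_gn_sq C hu
  have hae := ugrz_split C (fun j _ => w0 j) hw.le tj0 hη (J := Finset.range (n + 1)) (w := w) (t := t)
  have mB : ∀ s, NullMeasurableSet {o | s < |umod η (C.pt o)|} C.μ := meas_abs_lt C hu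
  have hcompl : ∀ s, {o : Om | umod η (C.pt o) ≤ s} = {o | s < |umod η (C.pt o)|}ᶜ := fun s => by
    ext o
    simp only [mem_setOf_eq, mem_compl_iff, not_lt, ua]
  have mC : ∀ s, NullMeasurableSet {o | umod η (C.pt o) ≤ s} C.μ := fun s => by
    rw [hcompl]
    exact (mB s).compl
  have hset : ∀ s, {o : Om | s < umod η (C.pt o)} = {o | s < |umod η (C.pt o)|} := fun s => by
    ext o
    simp only [mem_setOf_eq, ua]
  -- splitting of an integral
  have hsp : ∀ f : Om → ℝ, Integrable f C.μ → ∫ o, f o ∂C.μ =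
      ∫ o in {o | umod η (C.pt o) ≤ t 0}, f o ∂C.μ +
      (∑ k ∈ Finset.range n, (∫ o in {o | t k < |umod η (C.pt o)| ∧ |umod η (C.pt o)| ≤ t (k + 1)},
        f o ∂C.μ) + ∫ o in {o | t n < |umod η (C.pt o)|}, f o ∂C.μ) := by
    intro f hf
    rw [← level_sum C hu hf n tm, hcompl, add_comm]
    exact (integral_add_compl₀ (mB (t 0)) hf).symm
  have hsp2 : ∀ f : Om → ℝ, Integrable f C.μ → ∫ o in {o | umod η (C.pt o) ≤ t n}, f o ∂C.μ =
      ∫ o in {o | umod η (C.pt o) ≤ t 0}, f o ∂C.μ +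
      ∑ k ∈ Finset.range n, (∫ o in {o | t k < |umod η (C.pt o)| ∧ |umod η (C.pt o)| ≤ t (k + 1)},
        f o ∂C.μ) := by
    intro f hf
    have h1 := hsp f hf
    have h2 : ∫ o in {o | t n < |umod η (C.pt o)|}, f o ∂C.μ +
        ∫ o in {o | umod η (C.pt o) ≤ t n}, f o ∂C.μ = ∫ o, f o ∂C.μ := by
      rw [hcompl]
      exact integral_add_compl₀ (mB (t n)) hf
    linarith
  have mk : ∀ k, NullMeasurableSet {o | t k < |umod η (C.pt o)| ∧ |umod η (C.pt o)| ≤ t (k + 1)} C.μ := by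
    intro k
    have : {o : Om | t k < |umod η (C.pt o)| ∧ |umod η (C.pt o)| ≤ t (k + 1)} =
        {o | t k < |umod η (C.pt o)|} \ {o | t (k + 1) < |umod η (C.pt o)|} := by
      ext o
      exact ⟨fun h => ⟨h.1, fun h' => absurd h.2 (not_le.2 h')⟩, fun h => ⟨h.1, not_lt.1 h.2⟩⟩
    rw [this]
    exact (mB _).diff (mB _)
  -- below the first level
  have p0 : kl * ∫ o in {o | umod η (C.pt o) ≤ t 0}, Gη C ξ o ∂C.μ +
      ∫ o in {o | umod η (C.pt o) ≤ t 0}, O o ∂C.μ ≤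
      ∫ o in {o | umod η (C.pt o) ≤ t 0}, F o ∂C.μ := by
    rw [← integral_const_mul, ← integral_add (iX.const_mul kl).integrableOn iO.integrableOn]
    refine setIntegral_mono_ae_restrict ((iX.const_mul kl).add iO).integrableOn iF.integrableOn ?_
    filter_upwards [ae_restrict_of_ae hout, ae_restrict_of_ae hae] with o h2 h3
    have := mul_le_mul_of_nonneg_left h3.1 hkl
    linarith
  -- the bands
  have pk : ∀ k ∈ Finset.range n,
      kl * ∫ o in {o | t k < |umod η (C.pt o)| ∧ |umod η (C.pt o)| ≤ t (k + 1)}, Gη C ξ o ∂C.μ +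
      kl * ((1 - gkw w n k ^ 2) * ∫ o in {o | t k < |umod η (C.pt o)| ∧ |umod η (C.pt o)| ≤ t (k + 1)},
        gn C (umod η) o ^ 2 ∂C.μ) +
      ∫ o in {o | t k < |umod η (C.pt o)| ∧ |umod η (C.pt o)| ≤ t (k + 1)}, O o ∂C.μ ≤
      ∫ o in {o | t k < |umod η (C.pt o)| ∧ |umod η (C.pt o)| ≤ t (k + 1)}, F o ∂C.μ := by
    intro k hk
    have hkn : k < n := Finset.mem_range.1 hk
    have tk0 : 0 ≤ t k := t0.trans (tmono 0 k (Nat.zero_le _) hkn.le)
    have i12 : Integrable (fun o => kl * Gη C ξ o +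
        kl * ((1 - gkw w n k ^ 2) * gn C (umod η) o ^ 2)) C.μ :=
      (iX.const_mul kl).add ((ig.const_mul _).const_mul kl)
    rw [← integral_const_mul (1 - gkw w n k ^ 2), ← integral_const_mul kl, ← integral_const_mul kl,
      ← integral_add (iX.const_mul kl).integrableOn ((ig.const_mul _).const_mul kl).integrableOn,
      ← integral_add i12.integrableOn iO.integrableOn]
    refine setIntegral_mono_ae_restrict (i12.add iO).integrableOn iF.integrableOn ?_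
    filter_upwards [ae_restrict_of_ae hout, ae_restrict_of_ae hae, ae_restrict_mem₀ (mk k)] with o h2 h3 h4
    obtain ⟨h5, h6⟩ := h4
    rw [ua] at h5 h6
    have h7 := h3.2.2 (tk0.trans_lt h5)
    rw [gt'_band hkn tmono h5 h6] at h7
    have := mul_le_mul_of_nonneg_left h7 hkl
    linarith
  -- the core
  have pn : kl * ∫ o in {o | t n < |umod η (C.pt o)|}, Gη C ξ o ∂C.μ +
      ∫ o in {o | t n < |umod η (C.pt o)|}, N Hn (t n) o ∂C.μ ≤
      ∫ o in {o | t n < |umod η (C.pt o)|}, F o ∂C.μ := by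
    have iNn := iN Hn (t n) Hn0 Hnt tR
    have tn0 : 0 ≤ t n := t0.trans (tmono 0 n (Nat.zero_le _) le_rfl)
    rw [← integral_const_mul, ← integral_add (iX.const_mul kl).integrableOn iNn.integrableOn]
    refine setIntegral_mono_ae_restrict ((iX.const_mul kl).add iNn).integrableOn iF.integrableOn ?_
    filter_upwards [ae_restrict_of_ae (hin Hn (t n) Hn0 Hnt tR), ae_restrict_of_ae hae,
      ae_restrict_mem₀ (mB (t n))] with o h2 h3 h4
    have h5 : t n < umod η (C.pt o) := by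
      have : t n < |umod η (C.pt o)| := h4
      rwa [ua] at this
    have h6 := h3.2.1 (tn0.trans_lt h5)
    rw [gt'_top tmono h5, Gt_top tmono h5.le] at h6
    have h7 := h2 h5
    rw [h6]
    linarith
  have p5 := Finset.sum_le_sum pk
  rw [Finset.sum_add_distrib, Finset.sum_add_distrib, ← Finset.mul_sum, ← Finset.mul_sum] at p5
  have hX := hsp _ iX
  have hF := hsp _ iF
  have hO := hsp2 _ iO
  rw [hset]
  have p6 := mul_le_mul_of_nonneg_left hc hkl
  rw [hX] at p6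
  rw [hF, hO]
  linarith

/-- the same with a charge `ν` outside the core, `c₀ - 2 p u` its coefficient -/
theorem mod_area_nu [CompactSpace M] (C : Calc M γ) {v : Fin 3 → M → ℝ} (hv : Sph γ v)
    {η : Fin 3 → M → ℝ} (hη : ∀ i, Lip (η i)) (oη : ∀ i, FPM.OddB γ (η i)) {R : ℝ} (hR0 : 0 ≤ R)
    (hR : ∀ x, umod η x ≤ R) {κ κ' a₁ ε : ℝ} (hI : IsopE C κ a₁ ε) (hκ0 : 0 < κ') {n : ℕ}
    {a w : ℕ → ℝ} (a0 : ∀ k, 0 < a k) (ha1 : a 0 ≤ a₁) (ad : ∀ k, k < n → a (k + 1) < a k)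
    (hκ : ∀ x, a n ≤ x → κ' * x ≤ κ * (x - ε)) (w0 : ∀ j, 0 ≤ w j)
    (hw : ∑ j ∈ Finset.range (n + 1), w j = 1) (hw0 : 0 < w 0) {q e kl : ℝ} (q0 : 0 < q)
    (hkl : 0 ≤ kl)
    (hfar : ∀ ξ : Fin 3 → M → ℝ, (∀ i, Lip (ξ i)) → (∀ i, FPM.OddB γ (ξ i)) →
      (∀ i x, |ξ i x| ≤ R) → ∀ θ : Om → ℝ, Integrable θ C.μ → (∀ o, 0 ≤ θ o) → (∀ o, θ o ≤ 1) →
      ∫ o, θ o ∂C.μ ≤ a 0 → q * ∫ o, umod ξ (C.pt o) ^ 2 * θ o ∂C.μ ≤ ∫ o, Gη C ξ o ∂C.μ + e)
    {F ν W : Om → ℝ} (iF : Integrable F C.μ) (iν : Integrable ν C.μ) (ν0 : ∀ᵐ o ∂C.μ, 0 ≤ ν o)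
    (iW : Integrable W C.μ) {N : ℝ → ℝ → Om → ℝ}
    (iN : ∀ H s, 0 ≤ H → H ≤ s → s ≤ R → Integrable (N H s) C.μ) {p c₀ : ℝ} (hp : 0 ≤ p)
    (hin : ∀ H s, 0 ≤ H → H ≤ s → s ≤ R → ∀ᵐ o ∂C.μ, s < umod η (C.pt o) →
      N H s o + kl * ((H / umod η (C.pt o)) ^ 2 * (Gη C η o - gn C (umod η) o ^ 2)) ≤ F o)
    (hout : ∀ᵐ o ∂C.μ, kl * Gη C η o + W o + (c₀ - 2 * p * umod η (C.pt o)) * ν o ≤ F o) :
    ∃ t : ℕ → ℝ, 0 ≤ t 0 ∧ (∀ k, k < n → t k ≤ t (k + 1)) ∧ t n ≤ R ∧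
      (∀ k, supa C (umod η) (t k) ≤ a k) ∧ (∀ k s, 0 ≤ s → s < t k → a k ≤ supa C (umod η) s) ∧
      ∀ l : ℕ → ℝ, 0 ≤ l 0 → (∀ k, k < n → l 0 * gkw w n k * a k ≤ a 0 * l (k + 1)) →
      ∫ o in {o | t n < umod η (C.pt o)}, N (∑ j ∈ Finset.range (n + 1), w j * t j) (t n) o ∂C.μ +
        ∫ o in {o | umod η (C.pt o) ≤ t n}, W o ∂C.μ +
        (c₀ - 2 * p * t n) * ∫ o in {o | umod η (C.pt o) ≤ t n}, ν o ∂C.μ +
        kl * (2 * l 0 * t 0 + ∑ k ∈ Finset.range n, 2 * l (k + 1) * (t (k + 1) - t k) -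
          gcost a w n q κ' l - e) ≤ ∫ o, F o ∂C.μ := by
  have := C.fin
  have hu := lip_umod hη
  have u0 := fun o => umod_nonneg η (C.pt o)
  have iu : Integrable (fun o => umod η (C.pt o) * ν o) C.μ := by
    refine iν.bdd_mul (c := R) (aem_pt C hu).aestronglyMeasurable (ae_of_all _ fun o => ?_)
    rw [Real.norm_eq_abs, abs_of_nonneg (u0 o)]
    exact hR _
  have iO : Integrable (fun o => W o + (c₀ - 2 * p * umod η (C.pt o)) * ν o) C.μ := by
    refine iW.add (((iν.const_mul c₀).sub (iu.const_mul (2 * p))).congr (ae_of_all _ fun o => ?_))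
    change c₀ * ν o - 2 * p * (umod η (C.pt o) * ν o) = (c₀ - 2 * p * umod η (C.pt o)) * ν o
    ring
  obtain ⟨t, t0, tm, tR, ta, tb, h⟩ := mod_area C hv hη oη hR0 hR hI hκ0 a0 ha1 ad hκ w0 hw hw0 q0 hkl
    hfar iF iO iN hin (hout.mono fun o h => by linarith)
  refine ⟨t, t0, tm, tR, ta, tb, fun l l0 hl => ?_⟩
  have h1 := h l l0 hl
  have mC : NullMeasurableSet {o | umod η (C.pt o) ≤ t n} C.μ := by
    have h4 : {o : Om | umod η (C.pt o) ≤ t n} = {o | t n < |umod η (C.pt o)|}ᶜ := by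
      ext o
      simp only [mem_setOf_eq, mem_compl_iff, not_lt, abs_of_nonneg (u0 o)]
    rw [h4]
    exact (meas_abs_lt C hu (t n)).compl
  have e2 : ∫ o in {o | umod η (C.pt o) ≤ t n}, W o ∂C.μ +
      (c₀ - 2 * p * t n) * ∫ o in {o | umod η (C.pt o) ≤ t n}, ν o ∂C.μ ≤
      ∫ o in {o | umod η (C.pt o) ≤ t n}, (W o + (c₀ - 2 * p * umod η (C.pt o)) * ν o) ∂C.μ := by
    rw [← integral_const_mul, ← integral_add iW.integrableOn (iν.const_mul _).integrableOn]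
    refine setIntegral_mono_ae_restrict (iW.add (iν.const_mul _)).integrableOn iO.integrableOn ?_
    filter_upwards [ae_restrict_of_ae ν0, ae_restrict_mem₀ mC] with o h4 h5
    have h6 : umod η (C.pt o) ≤ t n := h5
    have h7 : 0 ≤ 2 * p * ((t n - umod η (C.pt o)) * ν o) :=
      mul_nonneg (by positivity) (mul_nonneg (by linarith) h4)
    change W o + (c₀ - 2 * p * t n) * ν o ≤ W o + (c₀ - 2 * p * umod η (C.pt o)) * ν o
    linarith
  linarith

end Pool.Agent.FPX
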