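import Mathlib
import Pool.Agent.FPX.BND
import Pool.Agent.FPX.TRH

/-
BNE (helper95): ring zones of the band. Zones of area `A 0 > A 1 > ... > A m`, each with its own ring
member `(y₀, b₀)` valid on levels `≥ c` (below `c` only the base member is used).
-/

open MeasureTheory Set Filter Topology
open scoped ENNReal NNReal

noncomputable section

namespace Pool.Agent.FPX

open Pool.Agent.EWD Pool.Agent.FPM

variable {M : Type} [MetricSpace M] {γ : ℝ → M}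

/-- from the levels below the top to the top -/
theorem bnd_lim (C : Calc M γ) {χ : M → ℝ} (hχ : Lip χ) {κ' a₀ A₁ : ℝ} (hκ' : 0 < κ') (ha₀ : 0 < a₀)
    {F : Om → ℝ} (hF : Integrable F C.μ) {s0 s1 : ℝ} (hs : s0 ≤ s1)
    (hA : s0 < s1 → supa C χ s0 ≤ A₁) (h01 : a₀ ≤ A₁) (ha0 : ∀ s, s0 < s → s < s1 → a₀ ≤ supa C χ s)
    {G : ℝ → ℝ} (hG : s0 < s1 → ContinuousAt G s1) {l : ℝ}
    (hF0 : ∀ᵐ o ∂C.μ, s0 < |χ (C.pt o)| → |χ (C.pt o)| ≤ s1 → 0 ≤ F o)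
    (hst : ∀ s, s0 < s → s < s1 → 2 * l * (G s - G s0) +
      l ^ 2 / κ' * (Real.log (supa C χ s) - Real.log (supa C χ s0)) ≤
      ∫ o in {o | s0 < |χ (C.pt o)| ∧ |χ (C.pt o)| ≤ s}, F o ∂C.μ) :
    2 * l * (G s1 - G s0) - l ^ 2 / κ' * Real.log (A₁ / a₀) ≤
      ∫ o in {o | s0 < |χ (C.pt o)| ∧ |χ (C.pt o)| ≤ s1}, F o ∂C.μ := by
  have := C.fin
  have hA0 : 0 < A₁ := ha₀.trans_le h01
  have hlog : 0 ≤ Real.log (A₁ / a₀) := Real.log_nonneg ((one_le_div ha₀).2 h01)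
  have hq : 0 ≤ l ^ 2 / κ' := by positivity
  rcases hs.eq_or_lt with h0 | h0
  · subst h0
    have h1 : {o | s0 < |χ (C.pt o)| ∧ |χ (C.pt o)| ≤ s0} = (∅ : Set Om) := by
      ext o
      simp only [Set.mem_ofPred_eq, mem_empty_iff_false, iff_false, not_and, not_le]
      exact fun h => h
    rw [h1, setIntegral_empty, sub_self, mul_zero]
    have := mul_nonneg hq hlog
    linarith
  have hstep : ∀ s, s0 < s → s < s1 → 2 * l * (G s - G s0) - l ^ 2 / κ' * Real.log (A₁ / a₀) ≤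
      ∫ o in {o | s0 < |χ (C.pt o)| ∧ |χ (C.pt o)| ≤ s1}, F o ∂C.μ := by
    intro s h1 h2
    have h3 := hst s h1 h2
    have h4 : Real.log a₀ ≤ Real.log (supa C χ s) := Real.log_le_log ha₀ (ha0 s h1 h2)
    have h5 : Real.log (supa C χ s0) ≤ Real.log A₁ := by
      refine Real.log_le_log ?_ (hA h0)
      exact ha₀.trans_le ((ha0 s h1 h2).trans (supa_anti C χ h1.le))
    have h6 : Real.log (A₁ / a₀) = Real.log A₁ - Real.log a₀ := Real.log_div hA0.ne' ha₀.ne'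
    have h7 : l ^ 2 / κ' * (Real.log a₀ - Real.log A₁) ≤
        l ^ 2 / κ' * (Real.log (supa C χ s) - Real.log (supa C χ s0)) :=
      mul_le_mul_of_nonneg_left (by linarith) hq
    have h8 : ∫ o in {o | s0 < |χ (C.pt o)| ∧ |χ (C.pt o)| ≤ s}, F o ∂C.μ ≤
        ∫ o in {o | s0 < |χ (C.pt o)| ∧ |χ (C.pt o)| ≤ s1}, F o ∂C.μ := by
      refine setIntegral_mono_set hF.integrableOn ?_ (LE.le.eventuallyLE fun o ho => ?_)
      · rw [EventuallyLE, ae_restrict_iff'₀ (meas_band C hχ s0 s1)]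
        filter_upwards [hF0] with o ho a
        exact ho a.1 a.2
      · obtain ⟨a, b⟩ := ho
        exact ⟨a, b.trans h2.le⟩
    rw [h6]
    linarith
  have hc : Tendsto (fun s => 2 * l * (G s - G s0) - l ^ 2 / κ' * Real.log (A₁ / a₀)) (𝓝[<] s1)
      (𝓝 (2 * l * (G s1 - G s0) - l ^ 2 / κ' * Real.log (A₁ / a₀))) := by
    have h2 : ContinuousAt (fun s => 2 * l * (G s - G s0) - l ^ 2 / κ' * Real.log (A₁ / a₀)) s1 :=
      (continuousAt_const.mul ((hG h0).sub continuousAt_const)).sub continuousAt_const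
    exact h2.tendsto.mono_left nhdsWithin_le_nhds
  refine le_of_tendsto hc ?_
  filter_upwards [Ioo_mem_nhdsLT h0] with s hs'
  exact hstep s hs'.1 hs'.2

/-- bounds for `z = k/u²`, `k = (1 - b₀) τ²` -/
theorem ring_z {b₀ τ u : ℝ} (hb1 : b₀ ≤ 1) (hτ : 0 ≤ τ) (hu : τ ≤ u) (hu0 : 0 < u) :
    0 ≤ (1 - b₀) * τ ^ 2 / u ^ 2 ∧ (1 - b₀) * τ ^ 2 / u ^ 2 ≤ 1 - b₀ ∧
      (1 - b₀) * (τ / u) ^ 2 = (1 - b₀) * τ ^ 2 / u ^ 2 := by
  have h0 : 0 ≤ 1 - b₀ := by linarith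
  refine ⟨by positivity, ?_, ?_⟩
  · rw [div_le_iff₀ (by positivity)]
    exact mul_le_mul_of_nonneg_left (pow_le_pow_left₀ hτ hu 2) h0
  · rw [div_pow]
    ring

theorem ringβ_nonneg {b₀ c₀ τ u : ℝ} (hb0 : 0 < b₀) (hb1 : b₀ ≤ 1) (hc₀ : 0 ≤ c₀) (hτ : 0 ≤ τ)
    (hu : τ ≤ u) (hu0 : 0 < u) : 0 ≤ ringβ c₀ ((1 - b₀) * τ ^ 2) u := by
  obtain ⟨z0, z1, -⟩ := ring_z hb1 hτ hu hu0
  rw [ringβ_eq]
  exact mul_nonneg hc₀ (mul_nonneg (by linarith) (by linarith))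

/-- Lipschitz bound for `ringβ` -/
theorem ringβ_lip {c₀ k s0 : ℝ} (hc₀ : 0 ≤ c₀) (hk0 : 0 ≤ k) (hs0 : 0 < s0) {u u' : ℝ} (h1 : s0 ≤ u')
    (h2 : u' ≤ u) :
    ringβ c₀ k u - ringβ c₀ k u' ≤ c₀ * (k / s0 ^ 3 + 2 * k ^ 2 / s0 ^ 5) * (u - u') := by
  have hu' : 0 < u' := hs0.trans_le h1
  have hu : 0 < u := hu'.trans_le h2
  have i1 : 1 / u' - 1 / u ≤ (u - u') / s0 ^ 2 := by
    have : 1 / u' - 1 / u = (u - u') / (u' * u) := by
      field_simp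
    rw [this]
    refine div_le_div_of_nonneg_left (by linarith) (by positivity) ?_
    nlinarith
  have a1 : 1 / u' ≤ 1 / s0 := one_div_le_one_div_of_le hs0 h1
  have a2 : 1 / u ≤ 1 / s0 := one_div_le_one_div_of_le hs0 (h1.trans h2)
  have b1 : 0 ≤ 1 / u' := by positivity
  have b2 : 0 ≤ 1 / u := by positivity
  have e1 : k / (2 * u' ^ 2) - k / (2 * u ^ 2) ≤ k / s0 ^ 3 * (u - u') := by
    have i2 : 1 / u' + 1 / u ≤ 2 / s0 := by
      have a3 : 2 / s0 = 1 / s0 + 1 / s0 := by ring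
      linarith
    have i3 : k / (2 * u' ^ 2) - k / (2 * u ^ 2) =
        k / 2 * ((1 / u' - 1 / u) * (1 / u' + 1 / u)) := by
      field_simp
      ring
    rw [i3]
    have i4 : (1 / u' - 1 / u) * (1 / u' + 1 / u) ≤ (u - u') / s0 ^ 2 * (2 / s0) := by
      refine mul_le_mul i1 i2 (by positivity) ?_
      exact div_nonneg (by linarith) (by positivity)
    have i5 := mul_le_mul_of_nonneg_left i4 (by positivity : 0 ≤ k / 2)
    refine i5.trans (le_of_eq ?_)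
    field_simp
  have e2 : k ^ 2 / (2 * u' ^ 4) - k ^ 2 / (2 * u ^ 4) ≤ 2 * k ^ 2 / s0 ^ 5 * (u - u') := by
    have i2 : (1 / u' + 1 / u) * ((1 / u') ^ 2 + (1 / u) ^ 2) ≤ 4 * (1 / s0) ^ 3 := by
      have c1 : 1 / u' + 1 / u ≤ 2 * (1 / s0) := by linarith
      have c2 : (1 / u') ^ 2 + (1 / u) ^ 2 ≤ 2 * (1 / s0) ^ 2 := by
        have := pow_le_pow_left₀ b1 a1 2
        have := pow_le_pow_left₀ b2 a2 2
        linarith
      refine (mul_le_mul c1 c2 (by positivity) (by positivity)).trans (le_of_eq ?_)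
      ring
    have i3 : k ^ 2 / (2 * u' ^ 4) - k ^ 2 / (2 * u ^ 4) =
        k ^ 2 / 2 * ((1 / u' - 1 / u) * ((1 / u' + 1 / u) * ((1 / u') ^ 2 + (1 / u) ^ 2))) := by
      field_simp
      ring
    rw [i3]
    have i4 : (1 / u' - 1 / u) * ((1 / u' + 1 / u) * ((1 / u') ^ 2 + (1 / u) ^ 2)) ≤
        (u - u') / s0 ^ 2 * (4 * (1 / s0) ^ 3) := by
      refine mul_le_mul i1 i2 (by positivity) ?_
      exact div_nonneg (by linarith) (by positivity)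
    have i5 := mul_le_mul_of_nonneg_left i4 (by positivity : 0 ≤ k ^ 2 / 2)
    refine i5.trans (le_of_eq ?_)
    field_simp
    ring
  have e3 : ringβ c₀ k u - ringβ c₀ k u' =
      c₀ * ((k / (2 * u' ^ 2) - k / (2 * u ^ 2)) + (k ^ 2 / (2 * u' ^ 4) - k ^ 2 / (2 * u ^ 4))) := by
    unfold ringβ
    ring
  rw [e3]
  have e4 := mul_le_mul_of_nonneg_left (add_le_add e1 e2) hc₀
  refine e4.trans (le_of_eq ?_)
  ring

/-- the ring member with the share `(τ/u)²`, pointwise -/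
theorem ring_pw {F E g b₀ c₀ y₀ η₀ τ u : ℝ} (hb0 : 0 < b₀) (hb1 : b₀ ≤ 1) (hc₀ : 0 ≤ c₀)
    (hbc : b₀ * c₀ ^ 2 ≤ 1) (hy : η₀ * c₀ * ((3 - b₀) / 2) ≤ y₀) (hτ : 0 ≤ τ) (hu : τ ≤ u)
    (hu0 : 0 < u) (h1 : ∀ y, 0 ≤ y → y ≤ y₀ → 2 * y * g - b₀ * y ^ 2 ≤ F)
    (h2 : ∀ y, 0 ≤ y → 2 * y * g - y ^ 2 ≤ F - E) {η : ℝ} (h4 : 0 ≤ η) (h5 : η ≤ η₀) :
    2 * η * ringβ c₀ ((1 - b₀) * τ ^ 2) u * g - η ^ 2 ≤ F - (τ / u) ^ 2 * E := by
  obtain ⟨z0, z1, z2⟩ := ring_z hb1 hτ hu hu0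
  have hβ0 := ringβ_nonneg hb0 hb1 hc₀ hτ hu hu0
  set k := (1 - b₀) * τ ^ 2 with hk
  have hr1 : (τ / u) ^ 2 ≤ 1 := by
    rw [div_pow, div_le_one (by positivity)]
    exact pow_le_pow_left₀ hτ hu 2
  have hw : 1 - (τ / u) ^ 2 + (τ / u) ^ 2 * b₀ = 1 - k / u ^ 2 := by
    rw [← z2]
    ring
  have g1 : 0 ≤ 1 - k / u ^ 2 := by linarith
  have h6 := ring_mix (F := F) (E := E) (g := g) (c := 0) (b₀ := b₀) (y₀ := y₀)
    (r := (τ / u) ^ 2) (β := ringβ c₀ k u) (η := η) hb0 (sq_nonneg _) hr1 hβ0 (by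
      rw [hw, ringβ_eq]
      have g2 : (1 - k / u ^ 2) * (1 + k / u ^ 2 / 2) ^ 2 ≤ 1 := by
        set z := k / u ^ 2 with hz'
        nlinarith [mul_nonneg z0 z0, mul_nonneg (mul_nonneg z0 z0) z0]
      have g3 : b₀ * (c₀ * ((1 - k / u ^ 2) * (1 + k / u ^ 2 / 2))) ^ 2 =
          (b₀ * c₀ ^ 2) * ((1 - k / u ^ 2) * ((1 - k / u ^ 2) * (1 + k / u ^ 2 / 2) ^ 2)) := by
        ring
      rw [g3]
      have g4 : (1 - k / u ^ 2) * ((1 - k / u ^ 2) * (1 + k / u ^ 2 / 2) ^ 2) ≤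
          (1 - k / u ^ 2) * 1 := mul_le_mul_of_nonneg_left g2 g1
      have g5 : 0 ≤ (1 - k / u ^ 2) * ((1 - k / u ^ 2) * (1 + k / u ^ 2 / 2) ^ 2) := by positivity
      have g6 := mul_le_mul_of_nonneg_right hbc g5
      linarith) h4 (by
      rw [hw, ringβ_eq]
      have g2 : η * c₀ * (1 + k / u ^ 2 / 2) ≤ y₀ := by
        refine le_trans ?_ hy
        have j1 : η * c₀ ≤ η₀ * c₀ := mul_le_mul_of_nonneg_right h5 hc₀
        have j2 : 1 + k / u ^ 2 / 2 ≤ (3 - b₀) / 2 := by linarith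
        exact mul_le_mul j1 j2 (by positivity) (mul_nonneg (h4.trans h5) hc₀)
      have g3 := mul_le_mul_of_nonneg_left g2 g1
      refine le_trans (le_of_eq ?_) g3
      ring)
    (fun y c d => by
      have := h1 y c d
      linarith)
    (fun y c => by
      have := h2 y c
      linarith)
  linarith

/-- primitive with the cut level `c` -/
def cutG (c c₀ k u : ℝ) : ℝ := if u ≤ c then u else c + (ringG c₀ k u - ringG c₀ k c)

theorem cutG_le {c c₀ k u : ℝ} (h : u ≤ c) : cutG c c₀ k u = u := if_pos h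

theorem cutG_ge {c c₀ k u : ℝ} (h : c ≤ u) : cutG c c₀ k u = c + (ringG c₀ k u - ringG c₀ k c) := by
  rcases h.eq_or_lt with h0 | h0
  · rw [← h0, cutG_le le_rfl, sub_self, add_zero]
  · exact if_neg (not_le.2 h0)

theorem cutG_cont {c c₀ k : ℝ} (hc : 0 < c) {u : ℝ} : ContinuousAt (cutG c c₀ k) u := by
  have hR : ContinuousOn (fun u => c + (ringG c₀ k u - ringG c₀ k c)) (Ici c) := fun x hx =>
    ((continuousAt_const.add ((ringG_deriv c₀ k (hc.trans_le hx)).continuousAt.sub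
      continuousAt_const)).continuousWithinAt)
  have h : Continuous (cutG c c₀ k) := by
    have h1 : Continuous fun u => if u ≤ c then u else c + (ringG c₀ k u - ringG c₀ k c) := by
      refine continuous_if_le continuous_id continuous_const continuousOn_id ?_ ?_
      · exact hR.mono fun x hx => hx
      · rintro x rfl
        simp
    exact h1
  exact h.continuousAt

/-- **The band with a cut level `c`**: base member everywhere, ring member (with the share `(τ/u)²`,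
`τ ≤ c`) on the levels `≥ c` -/
theorem bnd_cut (C : Calc M γ) {v : Fin 3 → M → ℝ} (hv : Sph γ v) {χ : M → ℝ} (hχ : Lip χ)
    (eχ : EvenB γ χ) {κ κ' a₀ a₁ A₁ ε : ℝ} (hI : IsopE C κ a₁ ε) (hκ' : 0 < κ') (ha₀ : 0 < a₀)
    (hκ : ∀ a, a₀ ≤ a → κ' * a ≤ κ * (a - ε)) {F E N : Om → ℝ} (hN : Integrable N C.μ)
    {c τ s0 s1 : ℝ} (hc : 0 < c) (hτ : 0 ≤ τ) (hτc : τ ≤ c) (hs0 : 0 ≤ s0) (hs : s0 ≤ s1)
    (hA : s0 < s1 → supa C χ s0 ≤ A₁) (hA1 : A₁ ≤ a₁)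
    (h01 : a₀ ≤ A₁) (ha0 : ∀ s, s0 < s → s < s1 → a₀ ≤ supa C χ s)
    {b₀ c₀ y₀ l η₀ : ℝ} (hb0 : 0 < b₀) (hb1 : b₀ ≤ 1) (hc₀ : 0 ≤ c₀) (hbc : b₀ * c₀ ^ 2 ≤ 1)
    (hl : 0 ≤ l) (hη₀ : 0 ≤ η₀) (hη : l ≤ η₀ * √(κ' * a₀)) (hy : η₀ * c₀ * ((3 - b₀) / 2) ≤ y₀)
    (hFr : ∀ᵐ o ∂C.μ, c ≤ |χ (C.pt o)| → |χ (C.pt o)| ≤ s1 → ∀ y, 0 ≤ y → y ≤ y₀ →
      2 * y * gn C χ o - b₀ * y ^ 2 ≤ F o)
    (hFb : ∀ᵐ o ∂C.μ, ∀ y, 0 ≤ y → 2 * y * gn C χ o - y ^ 2 ≤ F o - E o)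
    (hNb : ∀ᵐ o ∂C.μ, s0 < |χ (C.pt o)| → |χ (C.pt o)| ≤ s1 → ∀ y, 0 ≤ y →
      2 * y * gn C χ o - y ^ 2 ≤ N o)
    (hFN : ∀ᵐ o ∂C.μ, s0 < |χ (C.pt o)| → |χ (C.pt o)| ≤ s1 → c ≤ |χ (C.pt o)| →
      F o - (τ / |χ (C.pt o)|) ^ 2 * E o ≤ N o) :
    2 * l * (cutG c c₀ ((1 - b₀) * τ ^ 2) s1 - cutG c c₀ ((1 - b₀) * τ ^ 2) s0) -
        l ^ 2 / κ' * Real.log (A₁ / a₀) ≤
      ∫ o in {o | s0 < |χ (C.pt o)| ∧ |χ (C.pt o)| ≤ s1}, N o ∂C.μ := by
  set k := (1 - b₀) * τ ^ 2 with hk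
  have hk0 : 0 ≤ k := mul_nonneg (by linarith) (sq_nonneg τ)
  have hN0 : ∀ᵐ o ∂C.μ, s0 < |χ (C.pt o)| → |χ (C.pt o)| ≤ s1 → 0 ≤ N o := by
    filter_upwards [hNb] with o ho a b
    have := ho a b 0 le_rfl
    have h7 : 2 * (0 : ℝ) * gn C χ o - 0 ^ 2 = 0 := by ring
    linarith
  -- base piece
  have hpb : ∀ p r, s0 ≤ p → p ≤ r → r < s1 → 2 * l * (r - p) +
      l ^ 2 / κ' * (Real.log (supa C χ r) - Real.log (supa C χ p)) ≤
      ∫ o in {o | p < |χ (C.pt o)| ∧ |χ (C.pt o)| ≤ r}, N o ∂C.μ := by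
    intro p r h1 h2 h3
    rcases h2.eq_or_lt with h4 | h4
    · subst h4
      have h5 : {o | p < |χ (C.pt o)| ∧ |χ (C.pt o)| ≤ p} = (∅ : Set Om) := by
        ext o
        simp only [Set.mem_ofPred_eq, mem_empty_iff_false, iff_false, not_and, not_le]
        exact fun h => h
      rw [h5, setIntegral_empty]
      simp
    have hlt : s0 < s1 := (h1.trans_lt h4).trans h3
    exact bnd_pre C hv hχ eχ hI hκ' ha₀ hκ hN (hs0.trans h1) h2
      ((supa_anti C χ h1).trans ((hA hlt).trans hA1)) (ha0 r (h1.trans_lt h4) h3)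
      (β := fun _ => 1) (G := fun u => u) (fun s _ _ => hasDerivAt_id s)
      (fun _ _ _ => zero_le_one) (Λ := 0) (fun _ _ _ _ _ => by simp) hl
      (η₀ := l / √(κ' * a₀)) (by positivity)
      (by
        have hq : 0 < √(κ' * a₀) := Real.sqrt_pos.2 (by positivity)
        rw [div_mul_cancel₀ _ hq.ne'])
      (by
        filter_upwards [hNb] with o ho a b η h5 _
        have := ho (h1.trans_lt a) (b.trans h3.le) η h5
        linarith)
  -- ring piece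
  have hpr : ∀ p r, s0 ≤ p → c ≤ p → p ≤ r → r < s1 → 2 * l * (ringG c₀ k r - ringG c₀ k p) +
      l ^ 2 / κ' * (Real.log (supa C χ r) - Real.log (supa C χ p)) ≤
      ∫ o in {o | p < |χ (C.pt o)| ∧ |χ (C.pt o)| ≤ r}, N o ∂C.μ := by
    intro p r h1 hcp h2 h3
    rcases h2.eq_or_lt with h4 | h4
    · subst h4
      have h5 : {o | p < |χ (C.pt o)| ∧ |χ (C.pt o)| ≤ p} = (∅ : Set Om) := by
        ext o
        simp only [Set.mem_ofPred_eq, mem_empty_iff_false, iff_false, not_and, not_le]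
        exact fun h => h
      rw [h5, setIntegral_empty]
      simp
    have hlt : s0 < s1 := (h1.trans_lt h4).trans h3
    have hp0 : 0 < p := hc.trans_le hcp
    exact bnd_pre C hv hχ eχ hI hκ' ha₀ hκ hN hp0.le h2
      ((supa_anti C χ h1).trans ((hA hlt).trans hA1)) (ha0 r (h1.trans_lt h4) h3)
      (fun s a _ => ringG_deriv c₀ k (hp0.trans_le a))
      (fun s a _ => ringβ_nonneg hb0 hb1 hc₀ hτ ((hτc.trans hcp).trans a) (hp0.trans_le a))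
      (Λ := c₀ * (k / p ^ 3 + 2 * k ^ 2 / p ^ 5))
      (fun s s' a b _ => ringβ_lip hc₀ hk0 hp0 a b) hl hη₀ hη
      (by
        filter_upwards [hFr, hFb, hFN] with o g1 g2 g3 a b η h5 h6
        have hu : p < |χ (C.pt o)| := a
        have := ring_pw hb0 hb1 hc₀ hbc hy hτ ((hτc.trans hcp).trans hu.le) (hp0.trans hu)
          (g1 (hcp.trans hu.le) (b.trans h3.le)) g2 h5 h6
        exact this.trans (g3 (h1.trans_lt hu) (b.trans h3.le) (hcp.trans hu.le)))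
  refine bnd_lim C hχ hκ' ha₀ hN hs hA h01 ha0 (fun _ => cutG_cont hc) hN0 fun s h1 h2 => ?_
  rcases le_total s c with h3 | h3
  · rw [cutG_le h3, cutG_le (h1.le.trans h3)]
    exact hpb s0 s le_rfl h1.le h2
  rcases le_total c s0 with h4 | h4
  · rw [cutG_ge h3, cutG_ge h4]
    have h5 := hpr s0 s le_rfl h4 h1.le h2
    have e : c + (ringG c₀ k s - ringG c₀ k c) - (c + (ringG c₀ k s0 - ringG c₀ k c)) =
        ringG c₀ k s - ringG c₀ k s0 := by ring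
    rw [e]
    exact h5
  · rw [cutG_ge h3, cutG_le h4]
    have h5 := hpb s0 c le_rfl h4 (h3.trans_lt h2)
    have h6 := hpr c s h4 le_rfl h3 h2
    rw [bnd_add C hχ hN h4 h3]
    have e : 2 * l * (c + (ringG c₀ k s - ringG c₀ k c) - s0) =
        2 * l * (c - s0) + 2 * l * (ringG c₀ k s - ringG c₀ k c) := by ring
    rw [e]
    linarith

/-- data of a ring zone: member `(y, b)`, `c ≤ b^(-1/2)`, `η` the bound of the multiplier -/
structure RZ where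
  b : ℝ
  c : ℝ
  y : ℝ
  η : ℝ

/-- admissible -/
structure RZ.Ok (z : RZ) : Prop where
  b0 : 0 < z.b
  b1 : z.b ≤ 1
  c0 : 0 ≤ z.c
  bc : z.b * z.c ^ 2 ≤ 1
  η0 : 0 ≤ z.η
  hy : z.η * z.c * ((3 - z.b) / 2) ≤ z.y

/-- the zone primitive for the share `(τ/u)²` and the cut level `c` -/
def RZ.G (z : RZ) (c τ : ℝ) : ℝ → ℝ := cutG c z.c ((1 - z.b) * τ ^ 2)

/-- **Ring zones**: levels `s 0 ≤ ... ≤ s m` of the areas `A 0 > ... > A m` -/
theorem ring_zones (C : Calc M γ) {v : Fin 3 → M → ℝ} (hv : Sph γ v) {χ : M → ℝ} (hχ : Lip χ)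
    (eχ : EvenB γ χ) {κ κ' a₁ ε : ℝ} (hI : IsopE C κ a₁ ε) (hκ' : 0 < κ') {m : ℕ} {A : ℕ → ℝ}
    (A0 : ∀ i, 0 < A i) (hA1 : A 0 ≤ a₁) (Ad : ∀ i, i < m → A (i + 1) ≤ A i)
    (hκ : ∀ a, A m ≤ a → κ' * a ≤ κ * (a - ε)) {F E N : Om → ℝ} (hN : Integrable N C.μ)
    {c τ : ℝ} (hc : 0 < c) (hτ : 0 ≤ τ) (hτc : τ ≤ c) {s : ℕ → ℝ} (hs0 : 0 ≤ s 0)
    (sm : ∀ i, i < m → s i ≤ s (i + 1))
    (sa : ∀ i, i ≤ m → supa C χ (s i) ≤ A i)
    (sb : ∀ i, i ≤ m → ∀ σ, 0 ≤ σ → σ < s i → A i ≤ supa C χ σ)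
    {z : ℕ → RZ} (hz : ∀ i, i < m → (z i).Ok) {l : ℕ → ℝ} (hl : ∀ i, i < m → 0 ≤ l i)
    (hη : ∀ i, i < m → l i ≤ (z i).η * √(κ' * A (i + 1)))
    (hFr : ∀ i, i < m → ∀ᵐ o ∂C.μ, c ≤ |χ (C.pt o)| → |χ (C.pt o)| ≤ s m → ∀ y, 0 ≤ y →
      y ≤ (z i).y → 2 * y * gn C χ o - (z i).b * y ^ 2 ≤ F o)
    (hFb : ∀ᵐ o ∂C.μ, ∀ y, 0 ≤ y → 2 * y * gn C χ o - y ^ 2 ≤ F o - E o)
    (hNb : ∀ᵐ o ∂C.μ, s 0 < |χ (C.pt o)| → |χ (C.pt o)| ≤ s m → ∀ y, 0 ≤ y →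
      2 * y * gn C χ o - y ^ 2 ≤ N o)
    (hFN : ∀ᵐ o ∂C.μ, s 0 < |χ (C.pt o)| → |χ (C.pt o)| ≤ s m → c ≤ |χ (C.pt o)| →
      F o - (τ / |χ (C.pt o)|) ^ 2 * E o ≤ N o) :
    ∑ i ∈ Finset.range m, (2 * l i * ((z i).G c τ (s (i + 1)) - (z i).G c τ (s i)) -
        l i ^ 2 / κ' * Real.log (A i / A (i + 1))) ≤
      ∫ o in {o | s 0 < |χ (C.pt o)| ∧ |χ (C.pt o)| ≤ s m}, N o ∂C.μ := by
  have smono : ∀ i j, i ≤ j → j ≤ m → s i ≤ s j := by
    intro i j hij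
    induction j with
    | zero => intro _; rw [Nat.le_zero.1 hij]
    | succ j ih =>
      intro hj
      rcases Nat.lt_or_ge i (j + 1) with h | h
      · exact (ih (by omega) (by omega)).trans (sm j (by omega))
      · rw [le_antisymm hij h]
  have Amono : ∀ i j, i ≤ j → j ≤ m → A j ≤ A i := by
    intro i j hij
    induction j with
    | zero => intro _; rw [Nat.le_zero.1 hij]
    | succ j ih =>
      intro hj
      rcases Nat.lt_or_ge i (j + 1) with h | h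
      · exact (Ad j (by omega)).trans (ih (by omega) (by omega))
      · rw [le_antisymm hij h]
  have key : ∀ n, n ≤ m → ∑ i ∈ Finset.range n, (2 * l i * ((z i).G c τ (s (i + 1)) - (z i).G c τ (s i)) -
        l i ^ 2 / κ' * Real.log (A i / A (i + 1))) ≤
      ∫ o in {o | s 0 < |χ (C.pt o)| ∧ |χ (C.pt o)| ≤ s n}, N o ∂C.μ := by
    intro n
    induction n with
    | zero =>
      intro _
      have h1 : {o | s 0 < |χ (C.pt o)| ∧ |χ (C.pt o)| ≤ s 0} = (∅ : Set Om) := by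
        ext o
        simp only [Set.mem_ofPred_eq, mem_empty_iff_false, iff_false, not_and, not_le]
        exact fun h => h
      rw [h1, setIntegral_empty, Finset.range_zero, Finset.sum_empty]
    | succ n ih =>
      intro hn
      have hnm : n < m := by omega
      rw [Finset.sum_range_succ, bnd_add C hχ hN (smono 0 n (Nat.zero_le _) hnm.le) (sm n hnm)]
      have h1 := ih hnm.le
      obtain ⟨q1, q2, q3, q4, q5, q6⟩ := hz n hnm
      have hsn : 0 ≤ s n := hs0.trans (smono 0 n (Nat.zero_le _) hnm.le)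
      have h2 := bnd_cut C hv hχ eχ hI hκ' (A0 (n + 1))
        (fun a ha => hκ a ((Amono (n + 1) m hn le_rfl).trans ha)) hN hc hτ hτc hsn
        (sm n hnm) (fun _ => sa n hnm.le)
        ((Amono 0 n (Nat.zero_le _) hnm.le).trans hA1) (Ad n hnm)
        (fun σ a b => sb (n + 1) hn σ (hsn.trans a.le) b) q1 q2 q3 q4 (hl n hnm) q5 (hη n hnm) q6
        (by
          filter_upwards [hFr n hnm] with o ho a b
          exact ho a (b.trans (smono (n + 1) m hn le_rfl))) hFb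
        (by
          filter_upwards [hNb] with o ho a b
          exact ho ((smono 0 n (Nat.zero_le _) hnm.le).trans_lt a) (b.trans (smono (n + 1) m hn le_rfl)))
        (by
          filter_upwards [hFN] with o ho a b
          exact ho ((smono 0 n (Nat.zero_le _) hnm.le).trans_lt a) (b.trans (smono (n + 1) m hn le_rfl)))
      unfold RZ.G at h1 ⊢
      linarith
  exact key m le_rfl

end Pool.Agent.FPX
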