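import Mathlib
import Pool.Agent.FPX.TRH

/-
TRK (helper45): the final algebra of the area form: homogeneous multipliers, quadratic form of the exterior
as a function of the level `s` and the modulus `H` of the truncated field in the core.
-/

open MeasureTheory Set Filter Topology
open scoped ENNReal NNReal

noncomputable section

namespace Pool.Agent.FPX

open Pool.Agent.EWD Pool.Agent.FPM

theorem Psb_smul (s l c K κ x : ℝ) : Psb (s * l) (s * c) K κ x = s ^ 2 * Psb l c K κ x := by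
  unfold Psb
  ring

theorem gcost_smul (a w : ℕ → ℝ) (n : ℕ) (q κ s : ℝ) (l : ℕ → ℝ) :
    gcost a w n q κ (fun k => s * l k) = s ^ 2 * gcost a w n q κ l := by
  unfold gcost
  rw [mul_add, Finset.mul_sum]
  congr 1
  · ring
  · refine Finset.sum_congr rfl fun k _ => ?_
    have e : s * l 0 * gkw w n k / a 0 = s * (l 0 * gkw w n k / a 0) := by ring
    rw [e, Psb_smul, Psb_smul]
    ring

/-- the multipliers: `μ` at the top, decreasing outwards by `ζ w` -/
def mvec (w : ℕ → ℝ) (n : ℕ) (μ ζ : ℝ) (k : ℕ) : ℝ := μ - ζ * ∑ j ∈ Finset.Ico k n, w j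

theorem mvec_top (w : ℕ → ℝ) (n : ℕ) (μ ζ : ℝ) : mvec w n μ ζ n = μ := by
  unfold mvec
  simp

theorem mvec_succ (w : ℕ → ℝ) {n k : ℕ} (hk : k < n) (μ ζ : ℝ) :
    mvec w n μ ζ (k + 1) = mvec w n μ ζ k + ζ * w k := by
  unfold mvec
  rw [Finset.sum_eq_sum_Ico_succ_bot hk]
  ring

/-- summation by parts for the levels -/
theorem mvec_sum (w t : ℕ → ℝ) (n : ℕ) (μ ζ : ℝ) :
    2 * mvec w n μ ζ 0 * t 0 + ∑ k ∈ Finset.range n, 2 * mvec w n μ ζ (k + 1) * (t (k + 1) - t k) =
      2 * μ * t n - 2 * ζ * ∑ k ∈ Finset.range n, w k * t k := by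
  have key : ∀ m, m ≤ n → 2 * mvec w n μ ζ 0 * t 0 +
      ∑ k ∈ Finset.range m, 2 * mvec w n μ ζ (k + 1) * (t (k + 1) - t k) =
      2 * mvec w n μ ζ m * t m - 2 * ζ * ∑ k ∈ Finset.range m, w k * t k := by
    intro m
    induction m with
    | zero => intro _; simp
    | succ m ih =>
      intro hm
      rw [Finset.sum_range_succ, ← add_assoc, ih (by omega), Finset.sum_range_succ,
        mvec_succ w (show m < n by omega)]
      ring
  rw [key n le_rfl, mvec_top]

/-- **the exterior form**: for all `μ, ζ` the level part of `mod_area` is at least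
`s ^ 2 (2 μ + 2 ζ w n - cost) - 2 ζ s H` -/
theorem ext_form (a w t : ℕ → ℝ) (n : ℕ) (q κ μ ζ : ℝ) :
    2 * (t n * mvec w n μ ζ 0) * t 0 +
      ∑ k ∈ Finset.range n, 2 * (t n * mvec w n μ ζ (k + 1)) * (t (k + 1) - t k) -
      gcost a w n q κ (fun k => t n * mvec w n μ ζ k) =
    (2 * μ + 2 * ζ * w n - gcost a w n q κ (mvec w n μ ζ)) * t n ^ 2 -
      2 * ζ * t n * ∑ j ∈ Finset.range (n + 1), w j * t j := by
  rw [gcost_smul]
  have h1 := mvec_sum w t n μ ζ
  have h2 : 2 * (t n * mvec w n μ ζ 0) * t 0 +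
      ∑ k ∈ Finset.range n, 2 * (t n * mvec w n μ ζ (k + 1)) * (t (k + 1) - t k) =
      t n * (2 * mvec w n μ ζ 0 * t 0 +
        ∑ k ∈ Finset.range n, 2 * mvec w n μ ζ (k + 1) * (t (k + 1) - t k)) := by
    rw [mul_add, Finset.mul_sum]
    congr 1
    · ring
    · exact Finset.sum_congr rfl fun k _ => by ring
  rw [h2, h1, Finset.sum_range_succ]
  ring

/-- the final scalar step of the area form (`p = 2`, `c₀ = 1`): `V` value of the core, `m` its charge,
`x` the charge outside, `s` the level, `Q` the exterior form -/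
theorem area_alg {V m x X Q s : ℝ} (hQ : 0 < Q) (hm : 0 ≤ m) (hx : 0 ≤ x) (hX : m + x ≤ X) (hs : 0 ≤ s)
    (h1 : m - (X - 4 * X ^ 2 / Q) ≤ V) (h2 : m ≤ Q / 8 → 4 * m ^ 2 / Q ≤ V) :
    0 ≤ V - 4 * s * m + (1 - 4 * s) * x + Q * s ^ 2 := by
  have hq : 4 * X ^ 2 / Q * Q = 4 * X ^ 2 := div_mul_cancel₀ _ hQ.ne'
  rcases le_or_gt (1 / 4) s with h | h
  · have h3 : (1 - 4 * s) * (X - m) ≤ (1 - 4 * s) * x :=
      mul_le_mul_of_nonpos_left (by linarith) (by linarith)
    have h4 : 0 ≤ 4 * X ^ 2 / Q - 4 * s * X + Q * s ^ 2 := by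
      have e : 4 * X ^ 2 / Q - 4 * s * X + Q * s ^ 2 = (2 * X - Q * s) ^ 2 / Q := by
        field_simp
        ring
      rw [e]
      positivity
    nlinarith
  · have h3 : 0 ≤ (1 - 4 * s) * x := mul_nonneg (by linarith) hx
    rcases le_or_gt m (Q / 8) with h5 | h5
    · have h6 := h2 h5
      have h7 : 0 ≤ 4 * m ^ 2 / Q - 4 * s * m + Q * s ^ 2 := by
        have e : 4 * m ^ 2 / Q - 4 * s * m + Q * s ^ 2 = (2 * m - Q * s) ^ 2 / Q := by
          field_simp
          ring
        rw [e]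
        positivity
      linarith
    · -- `X - 4 X ^ 2 / Q ≤ Q / 16`
      have h6 : X - 4 * X ^ 2 / Q ≤ Q / 16 := by
        have e : Q / 16 - (X - 4 * X ^ 2 / Q) = (Q - 8 * X) ^ 2 / (16 * Q) := by
          field_simp
          ring
        have e2 : 0 ≤ (Q - 8 * X) ^ 2 / (16 * Q) := by positivity
        linarith
      have h7 : 0 ≤ (1 - 4 * s) * (m - Q / 16 * (1 + 4 * s)) := by
        refine mul_nonneg (by linarith) ?_
        have : Q * (4 * s) ≤ Q * 1 := mul_le_mul_of_nonneg_left (by linarith) hQ.le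
        linarith
      have h8 : (1 - 4 * s) * (m - Q / 16 * (1 + 4 * s)) = m - Q / 16 - 4 * s * m + Q * s ^ 2 := by
        ring
      linarith

end Pool.Agent.FPX
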