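import Mathlib
import Pool.Agent.FPX.TRK

/-
FINE (helper28): the exterior of the modulus closing. `mod_area_q` (helper45's `mod_area` with the far
constant chosen after the levels), `coreF` (the integrand left on the core), `ext_main`: the exterior is
at least `Q s ^ 2`, `s` the level of the core.
-/

open MeasureTheory Set Filter Topology
open scoped ENNReal NNReal

noncomputable section

namespace Pool.Agent.FPX

open Pool.Agent.EWD Pool.Agent.FPM

variable {M : Type} [MetricSpace M] {γ : ℝ → M}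

/-- **Assembly with levels of given areas** `a 0 > a 1 > ... > a n`, graded truncation with weights `w`.
`N H s` is the integrand kept on the core `{s < u}`, `s` the level of `a n`, `H` the modulus of the graded
truncation there. -/
theorem mod_area_q [CompactSpace M] (C : Calc M γ) {v : Fin 3 → M → ℝ} (hv : Sph γ v)
    {η : Fin 3 → M → ℝ} (hη : ∀ i, Lip (η i)) (oη : ∀ i, FPM.OddB γ (η i)) {R : ℝ} (hR0 : 0 ≤ R)
    (hR : ∀ x, umod η x ≤ R) {κ κ' a₁ ε : ℝ} (hI : IsopE C κ a₁ ε) (hκ0 : 0 < κ') {n : ℕ}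
    {a w : ℕ → ℝ} (a0 : ∀ k, 0 < a k) (ha1 : a 0 ≤ a₁) (ad : ∀ k, k < n → a (k + 1) < a k)
    (hκ : ∀ x, a n ≤ x → κ' * x ≤ κ * (x - ε)) (w0 : ∀ j, 0 ≤ w j)
    (hw : ∑ j ∈ Finset.range (n + 1), w j = 1) (hw0 : 0 < w 0) {kl : ℝ} (hkl : 0 ≤ kl)
    {F O : Om → ℝ} (iF : Integrable F C.μ) (iO : Integrable O C.μ) {N : ℝ → ℝ → Om → ℝ}
    (iN : ∀ H s, 0 ≤ H → H ≤ s → s ≤ R → Integrable (N H s) C.μ)
    (hin : ∀ H s, 0 ≤ H → H ≤ s → s ≤ R → ∀ᵐ o ∂C.μ, s < umod η (C.pt o) →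
      N H s o + kl * ((H / umod η (C.pt o)) ^ 2 * (Gη C η o - gn C (umod η) o ^ 2)) ≤ F o)
    (hout : ∀ᵐ o ∂C.μ, kl * Gη C η o + O o ≤ F o) :
    ∃ (t : ℕ → ℝ) (θ : Om → ℝ), 0 ≤ t 0 ∧ (∀ k, k < n → t k ≤ t (k + 1)) ∧ t n ≤ R ∧
      (∀ k, supa C (umod η) (t k) ≤ a k) ∧ (∀ k s, 0 ≤ s → s < t k → a k ≤ supa C (umod η) s) ∧
      Integrable θ C.μ ∧ (∀ o, 0 ≤ θ o) ∧ (∀ o, θ o ≤ 1) ∧
      (∀ o, t 0 < umod η (C.pt o) → θ o = 1) ∧ ∫ o, θ o ∂C.μ ≤ a 0 ∧
      (∀ i, Lip (ugr (Finset.range (n + 1)) w t η i)) ∧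
      (∀ i, FPM.OddB γ (ugr (Finset.range (n + 1)) w t η i)) ∧
      (∀ i x, |ugr (Finset.range (n + 1)) w t η i x| ≤ R) ∧
      ∀ q e : ℝ, 0 < q → q * ∫ o, umod (ugr (Finset.range (n + 1)) w t η) (C.pt o) ^ 2 * θ o ∂C.μ ≤
        ∫ o, Gη C (ugr (Finset.range (n + 1)) w t η) o ∂C.μ + e →
      ∀ l : ℕ → ℝ, 0 ≤ l 0 → (∀ k, k < n → l 0 * gkw w n k * a k ≤ a 0 * l (k + 1)) →
      ∫ o in {o | t n < umod η (C.pt o)}, N (∑ j ∈ Finset.range (n + 1), w j * t j) (t n) o ∂C.μ +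
        ∫ o in {o | umod η (C.pt o) ≤ t n}, O o ∂C.μ +
        kl * (2 * l 0 * t 0 + ∑ k ∈ Finset.range n, 2 * l (k + 1) * (t (k + 1) - t k) -
          gcost a w n q κ' l - e) ≤ ∫ o, F o ∂C.μ := by
  have := C.fin
  have hu := lip_umod hη
  have u0 := fun o => umod_nonneg η (C.pt o)
  have ua : ∀ o, |umod η (C.pt o)| = umod η (C.pt o) := fun o => abs_of_nonneg (u0 o)
  have gR : ∀ᵐ o ∂C.μ, |umod η (C.pt o)| ≤ R := ae_of_all _ fun o => by rw [ua]; exact hR _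
  obtain ⟨t, θ, t0, tm, tR, ta, tb, iθ, θ0, θ1, hθ1, hθ0, hθa, hθt⟩ := levels C hu hR0 gR a0 ad
  have tmono : ∀ i j, i ≤ j → j ≤ n → t i ≤ t j := by
    intro i j hij
    induction j with
    | zero => intro _; rw [Nat.le_zero.1 hij]
    | succ j ih =>
      intro hj
      rcases Nat.lt_or_ge i (j + 1) with h | h
      · exact (ih (by omega) (by omega)).trans (tm j (by omega))
      · rw [le_antisymm hij h]
  have tj0 : ∀ j ∈ Finset.range (n + 1), 0 ≤ t j := fun j hj =>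
    t0.trans (tmono 0 j (Nat.zero_le _) (by have := Finset.mem_range.1 hj; omega))
  set ξ := ugr (Finset.range (n + 1)) w t η with hξ
  set Hn : ℝ := ∑ j ∈ Finset.range (n + 1), w j * t j with hHn
  have Hn0 : 0 ≤ Hn := Finset.sum_nonneg fun j hj => mul_nonneg (w0 j) (tj0 j hj)
  have Hnt : Hn ≤ t n := by
    have h1 : Hn ≤ ∑ j ∈ Finset.range (n + 1), w j * t n :=
      Finset.sum_le_sum fun j hj => mul_le_mul_of_nonneg_left
        (tmono j n (by have := Finset.mem_range.1 hj; omega) le_rfl) (w0 j)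
    rwa [← Finset.sum_mul, hw, one_mul] at h1
  have lξ : ∀ i, Lip (ξ i) := fun i => lip_ugrz tj0 hη i
  have bξ : ∀ i x, |ξ i x| ≤ R := fun i x => by
    have h1 := abs_le_umod ξ i x
    rw [hξ, umod_ugrz (fun j _ => w0 j) tj0] at h1
    have h2 := Gt_le (t := t) (J := Finset.range (n + 1)) (fun j _ => w0 j) (umod η x)
    rw [hw, one_mul] at h2
    exact h1.trans (h2.trans (hR x))
  refine ⟨t, θ, t0, tm, tR, ta, tb, iθ, θ0, θ1, fun o ho => hθ1 o (by rw [ua]; exact ho), hθa, lξ,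
    odd_ugr oη, bξ, fun q e q0 hfar l l0 hl => ?_⟩
  have hc := graded_core C hv hη oη hR hI hκ0 a0 ha1 ad hκ w0 hw hw0 (e := e) q0 t0 tm
    (fun k _ => ta k) (fun k _ => tb k) iθ θ0 θ1 hθ1 hθ0 hθa hθt hfar l0 hl
  -- integrability
  have iG := int_Gη C hη
  have iX := int_Gη C lξ
  have ig := int_gn_sq C hu
  have hae := ugrz_split C (fun j _ => w0 j) hw.le tj0 hη (J := Finset.range (n + 1)) (w := w) (t := t)
  have mB : ∀ s, NullMeasurableSet {o | s < |umod η (C.pt o)|} C.μ := meas_abs_lt C hu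
  have hcompl : ∀ s, {o : Om | umod η (C.pt o) ≤ s} = {o | s < |umod η (C.pt o)|}ᶜ := fun s => by
    ext o
    simp only [mem_setOf_eq, mem_compl_iff, not_lt, ua]
  have mC : ∀ s, NullMeasurableSet {o | umod η (C.pt o) ≤ s} C.μ := fun s => by
    rw [hcompl]
    exact (mB s).compl
  have hset : ∀ s, {o : Om | s < umod η (C.pt o)} = {o | s < |umod η (C.pt o)|} := fun s => by
    ext o
    simp only [mem_setOf_eq, ua]
  -- splitting of an integral
  have hsp : ∀ f : Om → ℝ, Integrable f C.μ → ∫ o, f o ∂C.μ =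
      ∫ o in {o | umod η (C.pt o) ≤ t 0}, f o ∂C.μ +
      (∑ k ∈ Finset.range n, (∫ o in {o | t k < |umod η (C.pt o)| ∧ |umod η (C.pt o)| ≤ t (k + 1)},
        f o ∂C.μ) + ∫ o in {o | t n < |umod η (C.pt o)|}, f o ∂C.μ) := by
    intro f hf
    rw [← level_sum C hu hf n tm, hcompl, add_comm]
    exact (integral_add_compl₀ (mB (t 0)) hf).symm
  have hsp2 : ∀ f : Om → ℝ, Integrable f C.μ → ∫ o in {o | umod η (C.pt o) ≤ t n}, f o ∂C.μ =
      ∫ o in {o | umod η (C.pt o) ≤ t 0}, f o ∂C.μ +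
      ∑ k ∈ Finset.range n, (∫ o in {o | t k < |umod η (C.pt o)| ∧ |umod η (C.pt o)| ≤ t (k + 1)},
        f o ∂C.μ) := by
    intro f hf
    have h1 := hsp f hf
    have h2 : ∫ o in {o | t n < |umod η (C.pt o)|}, f o ∂C.μ +
        ∫ o in {o | umod η (C.pt o) ≤ t n}, f o ∂C.μ = ∫ o, f o ∂C.μ := by
      rw [hcompl]
      exact integral_add_compl₀ (mB (t n)) hf
    linarith
  have mk : ∀ k, NullMeasurableSet {o | t k < |umod η (C.pt o)| ∧ |umod η (C.pt o)| ≤ t (k + 1)} C.μ := by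
    intro k
    have : {o : Om | t k < |umod η (C.pt o)| ∧ |umod η (C.pt o)| ≤ t (k + 1)} =
        {o | t k < |umod η (C.pt o)|} \ {o | t (k + 1) < |umod η (C.pt o)|} := by
      ext o
      exact ⟨fun h => ⟨h.1, fun h' => absurd h.2 (not_le.2 h')⟩, fun h => ⟨h.1, not_lt.1 h.2⟩⟩
    rw [this]
    exact (mB _).diff (mB _)
  -- below the first level
  have p0 : kl * ∫ o in {o | umod η (C.pt o) ≤ t 0}, Gη C ξ o ∂C.μ +
      ∫ o in {o | umod η (C.pt o) ≤ t 0}, O o ∂C.μ ≤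
      ∫ o in {o | umod η (C.pt o) ≤ t 0}, F o ∂C.μ := by
    rw [← integral_const_mul, ← integral_add (iX.const_mul kl).integrableOn iO.integrableOn]
    refine setIntegral_mono_ae_restrict ((iX.const_mul kl).add iO).integrableOn iF.integrableOn ?_
    filter_upwards [ae_restrict_of_ae hout, ae_restrict_of_ae hae] with o h2 h3
    have := mul_le_mul_of_nonneg_left h3.1 hkl
    linarith
  -- the bands
  have pk : ∀ k ∈ Finset.range n,
      kl * ∫ o in {o | t k < |umod η (C.pt o)| ∧ |umod η (C.pt o)| ≤ t (k + 1)}, Gη C ξ o ∂C.μ +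
      kl * ((1 - gkw w n k ^ 2) * ∫ o in {o | t k < |umod η (C.pt o)| ∧ |umod η (C.pt o)| ≤ t (k + 1)},
        gn C (umod η) o ^ 2 ∂C.μ) +
      ∫ o in {o | t k < |umod η (C.pt o)| ∧ |umod η (C.pt o)| ≤ t (k + 1)}, O o ∂C.μ ≤
      ∫ o in {o | t k < |umod η (C.pt o)| ∧ |umod η (C.pt o)| ≤ t (k + 1)}, F o ∂C.μ := by
    intro k hk
    have hkn : k < n := Finset.mem_range.1 hk
    have tk0 : 0 ≤ t k := t0.trans (tmono 0 k (Nat.zero_le _) hkn.le)
    have i12 : Integrable (fun o => kl * Gη C ξ o +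
        kl * ((1 - gkw w n k ^ 2) * gn C (umod η) o ^ 2)) C.μ :=
      (iX.const_mul kl).add ((ig.const_mul _).const_mul kl)
    rw [← integral_const_mul (1 - gkw w n k ^ 2), ← integral_const_mul kl, ← integral_const_mul kl,
      ← integral_add (iX.const_mul kl).integrableOn ((ig.const_mul _).const_mul kl).integrableOn,
      ← integral_add i12.integrableOn iO.integrableOn]
    refine setIntegral_mono_ae_restrict (i12.add iO).integrableOn iF.integrableOn ?_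
    filter_upwards [ae_restrict_of_ae hout, ae_restrict_of_ae hae, ae_restrict_mem₀ (mk k)] with o h2 h3 h4
    obtain ⟨h5, h6⟩ := h4
    rw [ua] at h5 h6
    have h7 := h3.2.2 (tk0.trans_lt h5)
    rw [gt'_band hkn tmono h5 h6] at h7
    have := mul_le_mul_of_nonneg_left h7 hkl
    linarith
  -- the core
  have pn : kl * ∫ o in {o | t n < |umod η (C.pt o)|}, Gη C ξ o ∂C.μ +
      ∫ o in {o | t n < |umod η (C.pt o)|}, N Hn (t n) o ∂C.μ ≤
      ∫ o in {o | t n < |umod η (C.pt o)|}, F o ∂C.μ := by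
    have iNn := iN Hn (t n) Hn0 Hnt tR
    have tn0 : 0 ≤ t n := t0.trans (tmono 0 n (Nat.zero_le _) le_rfl)
    rw [← integral_const_mul, ← integral_add (iX.const_mul kl).integrableOn iNn.integrableOn]
    refine setIntegral_mono_ae_restrict ((iX.const_mul kl).add iNn).integrableOn iF.integrableOn ?_
    filter_upwards [ae_restrict_of_ae (hin Hn (t n) Hn0 Hnt tR), ae_restrict_of_ae hae,
      ae_restrict_mem₀ (mB (t n))] with o h2 h3 h4
    have h5 : t n < umod η (C.pt o) := by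
      have : t n < |umod η (C.pt o)| := h4
      rwa [ua] at this
    have h6 := h3.2.1 (tn0.trans_lt h5)
    rw [gt'_top tmono h5, Gt_top tmono h5.le] at h6
    have h7 := h2 h5
    rw [h6]
    linarith
  have p5 := Finset.sum_le_sum pk
  rw [Finset.sum_add_distrib, Finset.sum_add_distrib, ← Finset.mul_sum, ← Finset.mul_sum] at p5
  have hX := hsp _ iX
  have hF := hsp _ iF
  have hO := hsp2 _ iO
  rw [hset]
  have p6 := mul_le_mul_of_nonneg_left hc hkl
  rw [hX] at p6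
  rw [hF, hO]
  linarith


/-- the integrand left on the core when the field is truncated to the modulus `H` -/
def coreF (C : Calc M γ) (η : Fin 3 → M → ℝ) (F W : Om → ℝ) (H : ℝ) (o : Om) : ℝ :=
  F o - W o - (H / umod η (C.pt o)) ^ 2 * (Gη C η o - gn C (umod η) o ^ 2)

/-- the quotient on the core -/
theorem coreq_int [CompactSpace M] (C : Calc M γ) {η : Fin 3 → M → ℝ} (hη : ∀ i, Lip (η i)) {H s : ℝ}
    (hH : 0 ≤ H) (hs : H ≤ s) : IntegrableOn (fun o => (H / umod η (C.pt o)) ^ 2 *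
      (Gη C η o - gn C (umod η) o ^ 2)) {o | s < |umod η (C.pt o)|} C.μ := by
  have hu := lip_umod hη
  have iG : Integrable (fun o => Gη C η o - gn C (umod η) o ^ 2) C.μ :=
    (int_Gη C hη).sub (int_gn_sq C hu)
  refine iG.integrableOn.bdd_mul (c := 1) ?_ ?_
  · have h1 : AEMeasurable (fun o => umod η (C.pt o)) C.μ := aem_pt C hu
    exact ((h1.const_div H).pow_const 2).aestronglyMeasurable.restrict
  · filter_upwards [ae_restrict_mem₀ (meas_abs_lt C hu s)] with o ho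
    have h2 : s < umod η (C.pt o) := by
      have : s < |umod η (C.pt o)| := ho
      rwa [abs_of_nonneg (umod_nonneg η _)] at this
    have h3 : 0 < umod η (C.pt o) := (hH.trans hs).trans_lt h2
    rw [Real.norm_eq_abs, abs_of_nonneg (sq_nonneg _)]
    refine pow_le_one₀ (div_nonneg hH h3.le) ?_
    rw [div_le_one h3]
    linarith

theorem coreF_int [CompactSpace M] (C : Calc M γ) {η : Fin 3 → M → ℝ} (hη : ∀ i, Lip (η i))
    {F W : Om → ℝ} (iF : Integrable F C.μ) (iW : Integrable W C.μ) {H s : ℝ}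
    (hH : 0 ≤ H) (hs : H ≤ s) :
    IntegrableOn (coreF C η F W H) {o | s < |umod η (C.pt o)|} C.μ :=
  (iF.integrableOn.sub iW.integrableOn).sub (coreq_int C hη hH hs)

/-- a certificate for the exterior form: `H / s` between `h0` and `h1` -/
def ExtC (a w : ℕ → ℝ) (n : ℕ) (q κ h0 h1 Q : ℝ) : Prop :=
  ∃ μ ζ : ℝ, 0 ≤ mvec w n μ ζ 0 ∧
    (∀ k, k < n → mvec w n μ ζ 0 * gkw w n k * a k ≤ a 0 * mvec w n μ ζ (k + 1)) ∧
    Q + 2 * ζ * h0 ≤ 2 * μ + 2 * ζ * w n - gcost a w n q κ (mvec w n μ ζ) ∧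
    Q + 2 * ζ * h1 ≤ 2 * μ + 2 * ζ * w n - gcost a w n q κ (mvec w n μ ζ)

theorem ext_alg {A Q ζ h0 h1 s H : ℝ} (hs : 0 ≤ s) (h2 : Q + 2 * ζ * h0 ≤ A) (h3 : Q + 2 * ζ * h1 ≤ A)
    (h4 : h0 * s ≤ H) (h5 : H ≤ h1 * s) : Q * s ^ 2 ≤ A * s ^ 2 - 2 * ζ * s * H := by
  rcases le_total 0 ζ with hz | hz
  · have h6 : 2 * ζ * s * H ≤ 2 * ζ * s * (h1 * s) :=
      mul_le_mul_of_nonneg_left h5 (by positivity)
    have h7 := mul_le_mul_of_nonneg_right h3 (sq_nonneg s)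
    nlinarith
  · have h6 : 2 * ζ * s * H ≤ 2 * ζ * s * (h0 * s) := by
      have : 0 ≤ (-ζ) * s * (H - h0 * s) := mul_nonneg (mul_nonneg (by linarith) hs) (by linarith)
      nlinarith
    have h7 := mul_le_mul_of_nonneg_right h2 (sq_nonneg s)
    nlinarith

/-- **the exterior**: `s` = level of the core, `H` = modulus of the truncated field there -/
theorem ext_main [CompactSpace M] (C : Calc M γ) {v : Fin 3 → M → ℝ} (hv : Sph γ v)
    {η : Fin 3 → M → ℝ} (hη : ∀ i, Lip (η i)) (oη : ∀ i, FPM.OddB γ (η i)) {R : ℝ} (hR0 : 0 ≤ R)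
    (hR : ∀ x, umod η x ≤ R) {κ κ' a₁ ε : ℝ} (hI : IsopE C κ a₁ ε) (hκ0 : 0 < κ') {n : ℕ}
    {a w : ℕ → ℝ} (a0 : ∀ k, 0 < a k) (ha1 : a 0 ≤ a₁) (ad : ∀ k, k < n → a (k + 1) < a k)
    (hκ : ∀ x, a n ≤ x → κ' * x ≤ κ * (x - ε)) (w0 : ∀ j, 0 ≤ w j)
    (hw : ∑ j ∈ Finset.range (n + 1), w j = 1) (hw0 : 0 < w 0)
    {F ν W : Om → ℝ} (iF : Integrable F C.μ) (iν : Integrable ν C.μ) (ν0 : ∀ᵐ o ∂C.μ, 0 ≤ ν o)
    (iW : Integrable W C.μ) {p c₀ : ℝ} (hp : 0 ≤ p)
    (hout : ∀ᵐ o ∂C.μ, Gη C η o + W o + (c₀ - 2 * p * umod η (C.pt o)) * ν o ≤ F o) :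
    ∃ (s H : ℝ) (θ : Om → ℝ) (ξ : Fin 3 → M → ℝ), 0 ≤ H ∧ H ≤ s ∧ s ≤ R ∧
      supa C (umod η) s ≤ a n ∧ (∀ s', 0 ≤ s' → s' < s → a n ≤ supa C (umod η) s') ∧
      Integrable θ C.μ ∧ (∀ o, 0 ≤ θ o) ∧ (∀ o, θ o ≤ 1) ∧
      (∀ o, s < umod η (C.pt o) → θ o = 1) ∧ ∫ o, θ o ∂C.μ ≤ a 0 ∧
      (∀ i, Lip (ξ i)) ∧ (∀ i, FPM.OddB γ (ξ i)) ∧ (∀ i x, |ξ i x| ≤ R) ∧
      ∀ q e h0 h1 Q : ℝ, 0 < q →
        q * ∫ o, umod ξ (C.pt o) ^ 2 * θ o ∂C.μ ≤ ∫ o, Gη C ξ o ∂C.μ + e →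
        ExtC a w n q κ' h0 h1 Q → h0 * s ≤ H → H ≤ h1 * s →
        ∫ o in {o | s < |umod η (C.pt o)|}, coreF C η F W H o ∂C.μ + ∫ o, W o ∂C.μ +
          (c₀ - 2 * p * s) * (∫ o, ν o ∂C.μ - supw C (umod η) ν s) + Q * s ^ 2 - e ≤
          ∫ o, F o ∂C.μ := by
  have := C.fin
  have hu := lip_umod hη
  have u0 := fun o => umod_nonneg η (C.pt o)
  have ua : ∀ o, |umod η (C.pt o)| = umod η (C.pt o) := fun o => abs_of_nonneg (u0 o)
  have iu : Integrable (fun o => umod η (C.pt o) * ν o) C.μ := by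
    refine iν.bdd_mul (c := R) (aem_pt C hu).aestronglyMeasurable (ae_of_all _ fun o => ?_)
    rw [Real.norm_eq_abs, abs_of_nonneg (u0 o)]
    exact hR _
  have iO : Integrable (fun o => W o + (c₀ - 2 * p * umod η (C.pt o)) * ν o) C.μ := by
    refine iW.add (((iν.const_mul c₀).sub (iu.const_mul (2 * p))).congr (ae_of_all _ fun o => ?_))
    change c₀ * ν o - 2 * p * (umod η (C.pt o) * ν o) = (c₀ - 2 * p * umod η (C.pt o)) * ν o
    ring
  have mA : ∀ s, NullMeasurableSet {o | s < |umod η (C.pt o)|} C.μ := meas_abs_lt C hu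
  set N : ℝ → ℝ → Om → ℝ := fun H s => {o | s < |umod η (C.pt o)|}.indicator fun o => F o -
    (H / umod η (C.pt o)) ^ 2 * (Gη C η o - gn C (umod η) o ^ 2) with hN
  have iN : ∀ H s, 0 ≤ H → H ≤ s → s ≤ R → Integrable (N H s) C.μ := fun H s h1 h2 _ => by
    rw [hN]
    exact (iF.integrableOn.sub (coreq_int C hη h1 h2)).integrable_indicator₀ (mA s)
  obtain ⟨t, θ, t0, tm, tR, ta, tb, iθ, θ0, θ1, hθ1, hθa, lξ, oξ, bξ, key⟩ := mod_area_q C hv hη oη hR0
    hR hI hκ0 a0 ha1 ad hκ w0 hw hw0 (kl := 1) zero_le_one iF iO iN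
    (fun H s h1 h2 _ => ae_of_all _ fun o ho => by
      have h3 : o ∈ {o | s < |umod η (C.pt o)|} := by
        change s < |umod η (C.pt o)|
        rw [ua]
        exact ho
      rw [hN]
      simp only [indicator_of_mem h3]
      linarith)
    (hout.mono fun o h => by linarith)
  have tmono : ∀ i j, i ≤ j → j ≤ n → t i ≤ t j := by
    intro i j hij
    induction j with
    | zero => intro _; rw [Nat.le_zero.1 hij]
    | succ j ih =>
      intro hj
      rcases Nat.lt_or_ge i (j + 1) with h | h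
      · exact (ih (by omega) (by omega)).trans (tm j (by omega))
      · rw [le_antisymm hij h]
  have tn0 : 0 ≤ t n := t0.trans (tmono 0 n (Nat.zero_le _) le_rfl)
  set Hn : ℝ := ∑ j ∈ Finset.range (n + 1), w j * t j with hHn
  have Hn0 : 0 ≤ Hn := Finset.sum_nonneg fun j hj => mul_nonneg (w0 j)
    (t0.trans (tmono 0 j (Nat.zero_le _) (by have := Finset.mem_range.1 hj; omega)))
  have Hnt : Hn ≤ t n := by
    have h1 : Hn ≤ ∑ j ∈ Finset.range (n + 1), w j * t n :=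
      Finset.sum_le_sum fun j hj => mul_le_mul_of_nonneg_left
        (tmono j n (by have := Finset.mem_range.1 hj; omega) le_rfl) (w0 j)
    rwa [← Finset.sum_mul, hw, one_mul] at h1
  refine ⟨t n, Hn, θ, _, Hn0, Hnt, tR, ta n, fun s' h1 h2 => tb n s' h1 h2, iθ, θ0, θ1,
    fun o ho => hθ1 o ((tmono 0 n (Nat.zero_le _) le_rfl).trans_lt ho), hθa, lξ, oξ, bξ, ?_⟩
  intro q e h0 h1 Q q0 hfar hE hh0 hh1
  obtain ⟨μ, ζ, c1, c2, c3, c4⟩ := hE
  have h2 := key q e q0 hfar (fun k => t n * mvec w n μ ζ k) (mul_nonneg tn0 c1) (fun k hk => by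
    have := mul_le_mul_of_nonneg_left (c2 k hk) tn0
    linarith)
  have h3 := ext_form a w t n q κ' μ ζ
  rw [← hHn] at h3
  have h4 := ext_alg tn0 c3 c4 hh0 hh1
  -- the sets
  have hset : {o : Om | t n < umod η (C.pt o)} = {o | t n < |umod η (C.pt o)|} := by
    ext o
    simp only [mem_setOf_eq, ua]
  have hcompl : {o : Om | umod η (C.pt o) ≤ t n} = {o | t n < |umod η (C.pt o)|}ᶜ := by
    ext o
    simp only [mem_setOf_eq, mem_compl_iff, not_lt, ua]
  rw [hset, hcompl] at h2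
  have h5 : ∫ o in {o | t n < |umod η (C.pt o)|}, N Hn (t n) o ∂C.μ =
      ∫ o in {o | t n < |umod η (C.pt o)|}, coreF C η F W Hn o ∂C.μ +
        ∫ o in {o | t n < |umod η (C.pt o)|}, W o ∂C.μ := by
    rw [← integral_add (coreF_int C hη iF iW Hn0 Hnt) iW.integrableOn]
    refine setIntegral_congr_ae₀ (mA _) (ae_of_all _ fun o ho => ?_)
    rw [hN]
    simp only [indicator_of_mem ho, coreF]
    ring
  have h6 := integral_add_compl₀ (mA (t n)) iW
  have h7 := integral_add_compl₀ (mA (t n)) iν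
  have h8 : ∫ o in {o | t n < |umod η (C.pt o)|}ᶜ, W o ∂C.μ +
      (c₀ - 2 * p * t n) * ∫ o in {o | t n < |umod η (C.pt o)|}ᶜ, ν o ∂C.μ ≤
      ∫ o in {o | t n < |umod η (C.pt o)|}ᶜ, (W o + (c₀ - 2 * p * umod η (C.pt o)) * ν o) ∂C.μ := by
    rw [← integral_const_mul, ← integral_add iW.integrableOn (iν.const_mul _).integrableOn]
    refine setIntegral_mono_ae_restrict (iW.add (iν.const_mul _)).integrableOn iO.integrableOn ?_
    filter_upwards [ae_restrict_of_ae ν0, ae_restrict_mem₀ (mA (t n)).compl] with o k4 k5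
    have k6 : umod η (C.pt o) ≤ t n := by
      have : ¬ t n < |umod η (C.pt o)| := k5
      rw [ua] at this
      exact not_lt.1 this
    have k7 : 0 ≤ 2 * p * ((t n - umod η (C.pt o)) * ν o) :=
      mul_nonneg (by positivity) (mul_nonneg (by linarith) k4)
    change W o + (c₀ - 2 * p * t n) * ν o ≤ W o + (c₀ - 2 * p * umod η (C.pt o)) * ν o
    linarith
  have h9 : ∫ o in {o | t n < |umod η (C.pt o)|}ᶜ, ν o ∂C.μ =
      ∫ o, ν o ∂C.μ - supw C (umod η) ν (t n) := by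
    unfold supw
    linarith
  rw [h9] at h8
  linarith

end Pool.Agent.FPX
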