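import Mathlib
import Pool.Agent.FPX.FINE
import Pool.Agent.FPX.BNE

/-
EXR (helper95): the exterior of the modulus closing with RING ZONES between the last graded area `a n`
and the core area `A m`. `ext_ring`: the exterior is at least `Q s²`.
-/

open MeasureTheory Set Filter Topology
open scoped ENNReal NNReal

noncomputable section

namespace Pool.Agent.FPX

open Pool.Agent.EWD Pool.Agent.FPM

variable {M : Type} [MetricSpace M] {γ : ℝ → M}

theorem ringG_smul {c₀ k s u : ℝ} (hs : 0 < s) :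
    ringG c₀ (s ^ 2 * k) (s * u) = s * ringG c₀ k u := by
  unfold ringG
  rcases eq_or_ne u 0 with h | h
  · subst h
    simp
  · field_simp

theorem cutG_smul {c c₀ k s u : ℝ} (hs : 0 < s) :
    cutG (s * c) c₀ (s ^ 2 * k) (s * u) = s * cutG c c₀ k u := by
  unfold cutG
  by_cases h : u ≤ c
  · rw [if_pos h, if_pos (mul_le_mul_of_nonneg_left h hs.le)]
  · rw [if_neg h, if_neg (fun h' => h (le_of_mul_le_mul_left h' hs)), ringG_smul hs, ringG_smul hs]
    ring

theorem RZ.G_smul (z : RZ) {c τ s u : ℝ} (hs : 0 < s) :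
    z.G (s * c) (s * τ) (s * u) = s * z.G c τ u := by
  unfold RZ.G
  have e : (1 - z.b) * (s * τ) ^ 2 = s ^ 2 * ((1 - z.b) * τ ^ 2) := by ring
  rw [e, cutG_smul hs]

/-- certificate of the exterior form with ring zones, `h0 ≤ H/s ≤ h1`, `S0 ≤ s ≤ S1`; `P y b` : the
member `(y, b)` holds on the levels `≥ cm` -/
def ExtR (P : ℝ → ℝ → Prop) (cm : ℝ) (a w : ℕ → ℝ) (n : ℕ) (A : ℕ → ℝ) (m : ℕ)
    (q κ h0 h1 S0 S1 Q : ℝ) : Prop :=
  ∃ (μ ζ xc RF Lz : ℝ) (lz : ℕ → ℝ) (z : ℕ → RZ), 0 ≤ mvec w n μ ζ 0 ∧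
    (∀ k, k < n → mvec w n μ ζ 0 * gkw w n k * a k ≤ a 0 * mvec w n μ ζ (k + 1)) ∧
    (∀ i, i < m → (z i).Ok ∧ 0 ≤ lz i ∧ S1 * lz i ≤ (z i).η * √(κ * A (i + 1)) ∧
      ((z i).b = 1 ∨ P (z i).y (z i).b)) ∧
    0 < xc ∧ h1 ≤ xc ∧ (1 < xc ∨ cm ≤ xc * S0) ∧
    (∀ x : ℕ → ℝ, h0 ≤ x 0 → (∀ i, i < m → x i ≤ x (i + 1)) → x m = 1 →
      RF ≤ 2 * (μ + ζ * w n) * x 0 +
        ∑ i ∈ Finset.range m, 2 * lz i * ((z i).G xc h1 (x (i + 1)) - (z i).G xc h1 (x i))) ∧
    ∑ i ∈ Finset.range m, lz i ^ 2 / κ * Real.log (A i / A (i + 1)) ≤ Lz ∧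
    Q + 2 * ζ * h0 ≤ RF - gcost a w n q κ (mvec w n μ ζ) - Lz ∧
    Q + 2 * ζ * h1 ≤ RF - gcost a w n q κ (mvec w n μ ζ) - Lz

/-- **the exterior with ring zones**: `s` = level of the core, `H` = modulus of the truncated field there -/
theorem ext_ring [CompactSpace M] (C : Calc M γ) {v : Fin 3 → M → ℝ} (hv : Sph γ v)
    {η : Fin 3 → M → ℝ} (hη : ∀ i, Lip (η i)) (oη : ∀ i, FPM.OddB γ (η i)) {R : ℝ} (hR0 : 0 ≤ R)
    (hR : ∀ x, umod η x ≤ R) {κ κ' a₁ ε : ℝ} (hI : IsopE C κ a₁ ε) (hκ0 : 0 < κ') {n m : ℕ}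
    {a w A : ℕ → ℝ} (a0 : ∀ k, 0 < a k) (ha1 : a 0 ≤ a₁) (ad : ∀ k, k < n → a (k + 1) < a k)
    (A00 : A 0 = a n) (A0 : ∀ i, 0 < A i) (Ad : ∀ i, i < m → A (i + 1) < A i)
    (hκ : ∀ x, A m ≤ x → κ' * x ≤ κ * (x - ε)) (w0 : ∀ j, 0 ≤ w j)
    (hw : ∑ j ∈ Finset.range (n + 1), w j = 1) (hw0 : 0 < w 0)
    {F ν W : Om → ℝ} (iF : Integrable F C.μ) (iν : Integrable ν C.μ) (ν0 : ∀ᵐ o ∂C.μ, 0 ≤ ν o)
    (iW : Integrable W C.μ) {p c₀ : ℝ} (hp : 0 ≤ p)
    (hout : ∀ᵐ o ∂C.μ, Gη C η o + W o + (c₀ - 2 * p * umod η (C.pt o)) * ν o ≤ F o)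
    {P : ℝ → ℝ → Prop} {cm : ℝ}
    (hP : ∀ y0 b0, P y0 b0 → ∀ᵐ o ∂C.μ, cm ≤ umod η (C.pt o) → ∀ y, 0 ≤ y → y ≤ y0 →
      2 * y * gn C (umod η) o - b0 * y ^ 2 + W o + (c₀ - 2 * p * umod η (C.pt o)) * ν o ≤ F o) :
    ∃ (s H : ℝ) (θ : Om → ℝ) (ξ : Fin 3 → M → ℝ), 0 ≤ H ∧ H ≤ s ∧ s ≤ R ∧
      supa C (umod η) s ≤ A m ∧ (∀ s', 0 ≤ s' → s' < s → A m ≤ supa C (umod η) s') ∧
      Integrable θ C.μ ∧ (∀ o, 0 ≤ θ o) ∧ (∀ o, θ o ≤ 1) ∧
      (∀ o, s < umod η (C.pt o) → θ o = 1) ∧ ∫ o, θ o ∂C.μ ≤ a 0 ∧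
      (∀ i, Lip (ξ i)) ∧ (∀ i, FPM.OddB γ (ξ i)) ∧ (∀ i x, |ξ i x| ≤ R) ∧
      ∀ q e h0 h1 S0 S1 Q : ℝ, 0 < q →
        q * ∫ o, umod ξ (C.pt o) ^ 2 * θ o ∂C.μ ≤ ∫ o, Gη C ξ o ∂C.μ + e →
        ExtR P cm a w n A m q κ' h0 h1 S0 S1 Q → h0 * s ≤ H → H ≤ h1 * s → S0 ≤ s → s ≤ S1 →
        ∫ o in {o | s < |umod η (C.pt o)|}, coreF C η F W H o ∂C.μ + ∫ o, W o ∂C.μ +
          (c₀ - 2 * p * s) * (∫ o, ν o ∂C.μ - supw C (umod η) ν s) + Q * s ^ 2 - e ≤
          ∫ o, F o ∂C.μ := by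
  have := C.fin
  have hu := lip_umod hη
  have eu := even_umod oη
  have u0 := fun o => umod_nonneg η (C.pt o)
  have ua : ∀ o, |umod η (C.pt o)| = umod η (C.pt o) := fun o => abs_of_nonneg (u0 o)
  have gR : ∀ᵐ o ∂C.μ, |umod η (C.pt o)| ≤ R := ae_of_all _ fun o => by rw [ua]; exact hR _
  have Amono : ∀ i j, i ≤ j → j ≤ m → A j ≤ A i := by
    intro i j hij
    induction j with
    | zero => intro _; rw [Nat.le_zero.1 hij]
    | succ j ih =>
      intro hj
      rcases Nat.lt_or_ge i (j + 1) with h | h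
      · exact (Ad j (by omega)).le.trans (ih (by omega) (by omega))
      · rw [le_antisymm hij h]
  have aanti : ∀ j, j ≤ n → a j ≤ a 0 := by
    intro j
    induction j with
    | zero => intro _; exact le_rfl
    | succ j ih => intro hj; exact (ad j (by omega)).le.trans (ih (by omega))
  have iu : Integrable (fun o => umod η (C.pt o) * ν o) C.μ := by
    refine iν.bdd_mul (c := R) (aem_pt C hu).aestronglyMeasurable (ae_of_all _ fun o => ?_)
    rw [Real.norm_eq_abs, abs_of_nonneg (u0 o)]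
    exact hR _
  set O : Om → ℝ := fun o => W o + (c₀ - 2 * p * umod η (C.pt o)) * ν o with hOd
  have iO : Integrable O C.μ := by
    refine iW.add (((iν.const_mul c₀).sub (iu.const_mul (2 * p))).congr (ae_of_all _ fun o => ?_))
    change c₀ * ν o - 2 * p * (umod η (C.pt o) * ν o) = (c₀ - 2 * p * umod η (C.pt o)) * ν o
    ring
  have mA : ∀ s, NullMeasurableSet {o | s < |umod η (C.pt o)|} C.μ := meas_abs_lt C hu
  set N : ℝ → ℝ → Om → ℝ := fun H s => {o | s < |umod η (C.pt o)|}.indicator fun o => F o -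
    (H / umod η (C.pt o)) ^ 2 * (Gη C η o - gn C (umod η) o ^ 2) with hN
  have iN : ∀ H s, 0 ≤ H → H ≤ s → s ≤ R → Integrable (N H s) C.μ := fun H s h1 h2 _ => by
    rw [hN]
    exact (iF.integrableOn.sub (coreq_int C hη h1 h2)).integrable_indicator₀ (mA s)
  obtain ⟨t, θ, t0, tm, tR, ta, tb, iθ, θ0, θ1, hθ1, hθa, lξ, oξ, bξ, key⟩ := mod_area_q C hv hη oη hR0
    hR hI hκ0 a0 ha1 ad (fun x hx => hκ x (((Amono 0 m (Nat.zero_le _) le_rfl).trans A00.le).trans hx))
    w0 hw hw0 (kl := 1) zero_le_one iF iO iN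
    (fun H s h1 h2 _ => ae_of_all _ fun o ho => by
      have h3 : o ∈ {o | s < |umod η (C.pt o)|} := by
        change s < |umod η (C.pt o)|
        rw [ua]
        exact ho
      rw [hN]
      simp only [indicator_of_mem h3]
      linarith)
    (hout.mono fun o h => by
      rw [hOd]
      linarith)
  have tmono : ∀ i j, i ≤ j → j ≤ n → t i ≤ t j := by
    intro i j hij
    induction j with
    | zero => intro _; rw [Nat.le_zero.1 hij]
    | succ j ih =>
      intro hj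
      rcases Nat.lt_or_ge i (j + 1) with h | h
      · exact (ih (by omega) (by omega)).trans (tm j (by omega))
      · rw [le_antisymm hij h]
  have tn0 : 0 ≤ t n := t0.trans (tmono 0 n (Nat.zero_le _) le_rfl)
  set Hn : ℝ := ∑ j ∈ Finset.range (n + 1), w j * t j with hHn
  have Hn0 : 0 ≤ Hn := Finset.sum_nonneg fun j hj => mul_nonneg (w0 j)
    (t0.trans (tmono 0 j (Nat.zero_le _) (by have := Finset.mem_range.1 hj; omega)))
  have Hnt : Hn ≤ t n := by
    have h1 : Hn ≤ ∑ j ∈ Finset.range (n + 1), w j * t n :=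
      Finset.sum_le_sum fun j hj => mul_le_mul_of_nonneg_left
        (tmono j n (by have := Finset.mem_range.1 hj; omega) le_rfl) (w0 j)
    rwa [← Finset.sum_mul, hw, one_mul] at h1
  -- the zone levels
  choose T Θ hT using fun i => lev_theta C hu hR0 gR (A0 i)
  set s : ℕ → ℝ := fun i => if i = 0 then t n else T i with hsd
  have s_0 : s 0 = t n := by simp [hsd]
  have s_p : ∀ i, s (i + 1) = T (i + 1) := fun i => by simp [hsd]
  have s0 : ∀ i, 0 ≤ s i := by
    intro i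
    rcases i with _ | i
    · rw [s_0]
      exact tn0
    · rw [s_p]
      exact (hT _).1
  have sR : ∀ i, s i ≤ R := by
    intro i
    rcases i with _ | i
    · rw [s_0]
      exact tR
    · rw [s_p]
      exact (hT _).2.1
  have sa : ∀ i, supa C (umod η) (s i) ≤ A i := by
    intro i
    rcases i with _ | i
    · rw [s_0, A00]
      exact ta n
    · rw [s_p]
      exact (hT _).2.2.1
  have sb : ∀ i σ, 0 ≤ σ → σ < s i → A i ≤ supa C (umod η) σ := by
    intro i σ h1 h2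
    rcases i with _ | i
    · rw [s_0] at h2
      rw [A00]
      exact tb n σ h1 h2
    · rw [s_p] at h2
      exact (hT _).2.2.2.1 σ h1 h2
  have sm : ∀ i, i < m → s i ≤ s (i + 1) := by
    intro i hi
    by_contra hc
    have h1 := sb i (s (i + 1)) (s0 _) (not_le.1 hc)
    have h2 := sa (i + 1)
    have h3 := Ad i hi
    linarith
  have smono : ∀ i, i ≤ m → t n ≤ s i := by
    intro i
    induction i with
    | zero => intro _; rw [s_0]
    | succ i ih => intro hi; exact (ih (by omega)).trans (sm i (by omega))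
  set σ := s m with hσ
  have hσ0 : 0 ≤ σ := s0 m
  have htσ : t n ≤ σ := smono m le_rfl
  refine ⟨σ, Hn, θ, _, Hn0, Hnt.trans htσ, sR m, sa m, fun s' h1 h2 => sb m s' h1 h2, iθ, θ0, θ1,
    fun o ho => hθ1 o (((tmono 0 n (Nat.zero_le _) le_rfl).trans htσ).trans_lt ho), hθa, lξ, oξ, bξ, ?_⟩
  intro q e h0 h1 S0 S1 Q q0 hfar hE hh0 hh1 hS0 hS1
  obtain ⟨μ, ζ, xc, RF, Lz, lz, z, c1, c2, c3, c4, c5, c6, c7, c8, c9, c10⟩ := hE
  have h2 := key q e q0 hfar (fun k => σ * mvec w n μ ζ k) (mul_nonneg hσ0 c1) (fun k hk => by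
    have := mul_le_mul_of_nonneg_left (c2 k hk) hσ0
    linarith)
  -- the level part
  have h3 : 2 * (σ * mvec w n μ ζ 0) * t 0 +
      ∑ k ∈ Finset.range n, 2 * (σ * mvec w n μ ζ (k + 1)) * (t (k + 1) - t k) =
      2 * (μ + ζ * w n) * σ * t n - 2 * ζ * σ * Hn := by
    have k1 := mvec_sum w t n μ ζ
    have k2 : 2 * (σ * mvec w n μ ζ 0) * t 0 +
        ∑ k ∈ Finset.range n, 2 * (σ * mvec w n μ ζ (k + 1)) * (t (k + 1) - t k) =
        σ * (2 * mvec w n μ ζ 0 * t 0 +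
          ∑ k ∈ Finset.range n, 2 * mvec w n μ ζ (k + 1) * (t (k + 1) - t k)) := by
      rw [mul_add, Finset.mul_sum]
      congr 1
      · ring
      · exact Finset.sum_congr rfl fun k _ => by ring
    rw [k2, k1, hHn, Finset.sum_range_succ]
    ring
  have h4 := gcost_smul a w n q κ' σ (mvec w n μ ζ)
  -- the zones
  set Nz : Om → ℝ := fun o => N Hn (t n) o - O o with hNz
  have iNz : Integrable Nz C.μ := (iN Hn (t n) Hn0 Hnt tR).sub iO
  have hNzb : ∀ o, t n < |umod η (C.pt o)| → Nz o = F o -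
      (Hn / umod η (C.pt o)) ^ 2 * (Gη C η o - gn C (umod η) o ^ 2) - O o := fun o ho => by
    rw [hNz, hN]
    simp only [indicator_of_mem (show o ∈ {o | t n < |umod η (C.pt o)|} from ho)]
  have hkato := kato C hη
  have hbase : ∀ᵐ o ∂C.μ, t n < |umod η (C.pt o)| → 0 ≤ Nz o ∧ ∀ y : ℝ,
      2 * y * gn C (umod η) o - y ^ 2 ≤ Nz o := by
    filter_upwards [hout, hkato] with o k1 k2 k3
    have k4 : 0 < umod η (C.pt o) := by
      rw [← ua]
      exact tn0.trans_lt k3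
    have k5 : (Hn / umod η (C.pt o)) ^ 2 ≤ 1 := by
      refine pow_le_one₀ (div_nonneg Hn0 k4.le) ?_
      rw [div_le_one k4]
      have : t n < umod η (C.pt o) := by rw [← ua]; exact k3
      linarith
    have k6 := mul_le_mul_of_nonneg_right k5 (sub_nonneg.2 k2)
    have k7 : gn C (umod η) o ^ 2 ≤ Nz o := by
      rw [hNzb o k3, hOd]
      linarith
    refine ⟨(sq_nonneg _).trans k7, fun y => ?_⟩
    nlinarith [sq_nonneg (y - gn C (umod η) o)]
  have hZ : σ ^ 2 * (RF - Lz) - 2 * (μ + ζ * w n) * σ * t n ≤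
      ∫ o in {o | t n < |umod η (C.pt o)| ∧ |umod η (C.pt o)| ≤ σ}, Nz o ∂C.μ := by
    rcases hσ0.eq_or_lt with hz | hz
    · have k1 : t n = 0 := le_antisymm (by rw [hz]; exact htσ) tn0
      rw [← hz]
      have k2 : (0 : ℝ) ^ 2 * (RF - Lz) - 2 * (μ + ζ * w n) * 0 * t n = 0 := by ring
      rw [k2]
      refine setIntegral_nonneg_of_ae_restrict ?_
      rw [EventuallyLE, ae_restrict_iff'₀ (meas_band C hu _ _)]
      filter_upwards [hbase] with o ho k3
      exact (ho k3.1).1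
    have hτ0 : 0 ≤ h1 * σ := Hn0.trans hh1
    have hh1' : 0 ≤ h1 := by
      by_contra hc
      have := mul_neg_of_neg_of_pos (not_le.1 hc) hz
      linarith
    have hzone := ring_zones C hv hu eu hI hκ0 A0 (A00.le.trans ((aanti n le_rfl).trans ha1))
      (fun i hi => (Ad i hi).le) hκ (F := fun o => F o - O o)
      (E := fun o => Gη C η o - gn C (umod η) o ^ 2) iNz (c := σ * xc) (τ := σ * h1)
      (mul_pos hz c4) (mul_nonneg hz.le hh1') (mul_le_mul_of_nonneg_left c5 hz.le)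
      (s := s) (s0 0) sm (fun i _ => sa i) (fun i _ => sb i) (z := z) (fun i hi => (c3 i hi).1)
      (l := fun i => σ * lz i) (fun i hi => mul_nonneg hz.le (c3 i hi).2.1)
      (fun i hi => by
        refine le_trans ?_ (c3 i hi).2.2.1
        exact mul_le_mul_of_nonneg_right hS1 (c3 i hi).2.1)
      (fun i hi => by
        rcases (c3 i hi).2.2.2 with hb | hb
        · filter_upwards [hout, hkato] with o k1 k2 _ _ y _ _
          rw [hb, hOd]
          nlinarith [sq_nonneg (y - gn C (umod η) o)]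
        · filter_upwards [hP _ _ hb] with o k1 k2 k3 y k4 k5
          have k6 : cm ≤ umod η (C.pt o) := by
            rw [ua] at k2 k3
            rcases c6 with hx | hx
            · exfalso
              have : σ * 1 < σ * xc := mul_lt_mul_of_pos_left hx hz
              linarith
            · have : xc * S0 ≤ σ * xc := by
                rw [mul_comm σ]
                exact mul_le_mul_of_nonneg_left hS0 c4.le
              linarith
          have k7 := k1 k6 y k4 k5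
          rw [hOd]
          linarith)
      (by
        filter_upwards [hout, hkato] with o k1 k2 y _
        rw [hOd]
        nlinarith [sq_nonneg (y - gn C (umod η) o)])
      (by
        filter_upwards [hbase] with o k1 k2 _ y _
        rw [s_0] at k2
        exact (k1 k2).2 y)
      (by
        filter_upwards [hkato] with o k1 k2 k3 k4
        rw [s_0] at k2
        have k5 : 0 < umod η (C.pt o) := by
          rw [← ua]
          exact tn0.trans_lt k2
        rw [hNzb o k2, ua]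
        have k6 : Hn / umod η (C.pt o) ≤ σ * h1 / umod η (C.pt o) :=
          div_le_div_of_nonneg_right (by rw [mul_comm]; exact hh1) k5.le
        have k7 : (Hn / umod η (C.pt o)) ^ 2 ≤ (σ * h1 / umod η (C.pt o)) ^ 2 :=
          pow_le_pow_left₀ (div_nonneg Hn0 k5.le) k6 2
        have k8 := mul_le_mul_of_nonneg_right k7 (sub_nonneg.2 k1)
        linarith)
    rw [s_0] at hzone
    refine le_trans ?_ hzone
    have k1 := c7 (fun i => s i / σ) (by
      rw [s_0, le_div_iff₀ hz]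
      exact hh0.trans Hnt) (fun i hi => div_le_div_of_nonneg_right (sm i hi) hz.le) (div_self hz.ne')
    have k2 : ∀ i, s i = σ * (s i / σ) := fun i => by field_simp
    have k3 : ∑ i ∈ Finset.range m, (2 * (σ * lz i) * ((z i).G (σ * xc) (σ * h1) (s (i + 1)) -
        (z i).G (σ * xc) (σ * h1) (s i)) - (σ * lz i) ^ 2 / κ' * Real.log (A i / A (i + 1))) =
        σ ^ 2 * (∑ i ∈ Finset.range m, 2 * lz i * ((z i).G xc h1 (s (i + 1) / σ) -
          (z i).G xc h1 (s i / σ)) - ∑ i ∈ Finset.range m, lz i ^ 2 / κ' * Real.log (A i / A (i + 1))) := by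
      rw [← Finset.sum_sub_distrib, Finset.mul_sum]
      refine Finset.sum_congr rfl fun i _ => ?_
      have k4 : (z i).G (σ * xc) (σ * h1) (s (i + 1)) = σ * (z i).G xc h1 (s (i + 1) / σ) := by
        conv_lhs => rw [k2 (i + 1)]
        exact RZ.G_smul _ hz
      have k5 : (z i).G (σ * xc) (σ * h1) (s i) = σ * (z i).G xc h1 (s i / σ) := by
        conv_lhs => rw [k2 i]
        exact RZ.G_smul _ hz
      rw [k4, k5]
      ring
    rw [k3]
    have k6 : σ ^ 2 * (RF - Lz) ≤ σ ^ 2 * ((2 * (μ + ζ * w n) * (s 0 / σ) +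
        ∑ i ∈ Finset.range m, 2 * lz i * ((z i).G xc h1 (s (i + 1) / σ) -
          (z i).G xc h1 (s i / σ))) - ∑ i ∈ Finset.range m, lz i ^ 2 / κ' * Real.log (A i / A (i + 1))) :=
      mul_le_mul_of_nonneg_left (by linarith) (sq_nonneg σ)
    have k7 : σ ^ 2 * (2 * (μ + ζ * w n) * (s 0 / σ)) = 2 * (μ + ζ * w n) * σ * t n := by
      rw [s_0]
      field_simp
    have k8 : σ ^ 2 * ((2 * (μ + ζ * w n) * (s 0 / σ) +
        ∑ i ∈ Finset.range m, 2 * lz i * ((z i).G xc h1 (s (i + 1) / σ) -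
          (z i).G xc h1 (s i / σ))) - ∑ i ∈ Finset.range m, lz i ^ 2 / κ' * Real.log (A i / A (i + 1))) =
        σ ^ 2 * (2 * (μ + ζ * w n) * (s 0 / σ)) +
        σ ^ 2 * (∑ i ∈ Finset.range m, 2 * lz i * ((z i).G xc h1 (s (i + 1) / σ) -
          (z i).G xc h1 (s i / σ)) - ∑ i ∈ Finset.range m, lz i ^ 2 / κ' * Real.log (A i / A (i + 1))) := by
      ring
    rw [k8, k7] at k6
    linarith
  have h5 := ext_alg hσ0 c9 c10 hh0 hh1
  -- the sets
  have hset : {o : Om | t n < umod η (C.pt o)} = {o | t n < |umod η (C.pt o)|} := by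
    ext o
    simp only [Set.mem_ofPred_eq, ua]
  have hcompl : {o : Om | umod η (C.pt o) ≤ t n} = {o | t n < |umod η (C.pt o)|}ᶜ := by
    ext o
    simp only [Set.mem_ofPred_eq, mem_compl_iff, not_lt, ua]
  rw [hset, hcompl] at h2
  have iNn := iN Hn (t n) Hn0 Hnt tR
  have h6 := level_split C hu iNn htσ
  have h7 : ∫ o in {o | t n < |umod η (C.pt o)| ∧ |umod η (C.pt o)| ≤ σ}, N Hn (t n) o ∂C.μ =
      ∫ o in {o | t n < |umod η (C.pt o)| ∧ |umod η (C.pt o)| ≤ σ}, Nz o ∂C.μ +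
      ∫ o in {o | t n < |umod η (C.pt o)| ∧ |umod η (C.pt o)| ≤ σ}, O o ∂C.μ := by
    rw [← integral_add iNz.integrableOn iO.integrableOn]
    refine integral_congr_ae (ae_of_all _ fun o => ?_)
    change N Hn (t n) o = N Hn (t n) o - O o + O o
    ring
  have h8 : ∫ o in {o | σ < |umod η (C.pt o)|}, N Hn (t n) o ∂C.μ =
      ∫ o in {o | σ < |umod η (C.pt o)|}, coreF C η F W Hn o ∂C.μ +
        ∫ o in {o | σ < |umod η (C.pt o)|}, W o ∂C.μ := by
    rw [← integral_add (coreF_int C hη iF iW Hn0 (Hnt.trans htσ)) iW.integrableOn]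
    refine setIntegral_congr_ae₀ (mA _) (ae_of_all _ fun o ho => ?_)
    have ho' : o ∈ {o | t n < |umod η (C.pt o)|} := htσ.trans_lt ho
    rw [hN]
    simp only [indicator_of_mem ho', coreF]
    ring
  have h9 : ∫ o in {o | t n < |umod η (C.pt o)|}ᶜ, O o ∂C.μ +
      ∫ o in {o | t n < |umod η (C.pt o)| ∧ |umod η (C.pt o)| ≤ σ}, O o ∂C.μ =
      ∫ o in {o | σ < |umod η (C.pt o)|}ᶜ, O o ∂C.μ := by
    have k1 := integral_add_compl₀ (mA (t n)) iO
    have k2 := integral_add_compl₀ (mA σ) iO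
    have k3 := level_split C hu iO htσ
    linarith
  have h10 := integral_add_compl₀ (mA σ) iW
  have h11 := integral_add_compl₀ (mA σ) iν
  have h12 : ∫ o in {o | σ < |umod η (C.pt o)|}ᶜ, W o ∂C.μ +
      (c₀ - 2 * p * σ) * ∫ o in {o | σ < |umod η (C.pt o)|}ᶜ, ν o ∂C.μ ≤
      ∫ o in {o | σ < |umod η (C.pt o)|}ᶜ, O o ∂C.μ := by
    rw [← integral_const_mul, ← integral_add iW.integrableOn (iν.const_mul _).integrableOn]
    refine setIntegral_mono_ae_restrict (iW.add (iν.const_mul _)).integrableOn iO.integrableOn ?_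
    filter_upwards [ae_restrict_of_ae ν0, ae_restrict_mem₀ (mA σ).compl] with o k4 k5
    have k6 : umod η (C.pt o) ≤ σ := by
      have : ¬ σ < |umod η (C.pt o)| := k5
      rw [ua] at this
      exact not_lt.1 this
    have k7 : 0 ≤ 2 * p * ((σ - umod η (C.pt o)) * ν o) :=
      mul_nonneg (by positivity) (mul_nonneg (by linarith) k4)
    change W o + (c₀ - 2 * p * σ) * ν o ≤ W o + (c₀ - 2 * p * umod η (C.pt o)) * ν o
    linarith
  have h13 : ∫ o in {o | σ < |umod η (C.pt o)|}ᶜ, ν o ∂C.μ =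
      ∫ o, ν o ∂C.μ - supw C (umod η) ν σ := by
    unfold supw
    linarith
  rw [h13] at h12
  rw [h4, h3] at h2
  linarith

end Pool.Agent.FPX
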