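import Mathlib
import Pool.Agent.FPX.INT
import Pool.Agent.FPX.EXD
import Pool.Agent.FPX.EXR

/-
FPX, QLW (helper30): lower bounds of the pointwise function of the dual inequality.
`QLow v a b A B q` says that `q` is a lower bound of
`3 + 3 J - inf_K { (12/π) E|T_p| + (3/2) (⟨A,K⟩ + ⟨B,K'⟩) }`, `J = ⟨v, b × a⟩`.
`int_QLow`: the integral of such a `q` is at most `3 vol - 12 π + 3 ∫ J + (12/π) ε` at a fixed point.
`QLow_tau`: the quadratic form with weights `τ / s`, for every `τ > 0`.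
-/

open MeasureTheory Set Filter Topology
open scoped ENNReal NNReal

noncomputable section

namespace Pool.Agent.FPX

open Pool.Agent.EWD

/-- `q` is a lower bound of the pointwise function -/
def QLow (v a b A B : E3) (q : ℝ) : Prop :=
  ∃ K K' : E3, 12 / Real.pi * L1 v (crs v b) (-crs v a) K K'
    + (3 / 2) * (inner ℝ A K + inner ℝ B K') ≤ 3 + 3 * inner ℝ v (crs b a) - q

theorem QLow.mono {v a b A B : E3} {q q' : ℝ} (h : QLow v a b A B q) (hq : q' ≤ q) :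
    QLow v a b A B q' := by
  obtain ⟨K, K', hK⟩ := h
  exact ⟨K, K', by linarith⟩

variable {M : Type} [MetricSpace M] {γ : ℝ → M}

/-- the integrated inequality -/
theorem int_QLow [CompactSpace M] (C : Calc M γ) {v : Fin 3 → M → ℝ} (hv : Sph γ v) (G : Fam γ) {ε : ℝ}
    (hfl : Real.pi ^ 2 - ε ≤ ∫ p, Flux C (G.f p) v p ∂PP) {q : Om → ℝ} (hq : Integrable q C.μ)
    (h : ∀ᵐ o ∂C.μ, QLow (at' C v o) (dx C v o) (dy C v o) (dx C G.Th o) (dy C G.Th o) (q o)) :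
    ∫ o, q o ∂C.μ ≤ 3 * C.vol - 12 * Real.pi + 3 * ∫ o, jac C v o ∂C.μ + 12 / Real.pi * ε := by
  have := C.fin
  have hpi := Real.pi_pos
  have i2 := (jac_int C hv).const_mul 3
  have i3 : Integrable (fun _ : Om => (3 : ℝ)) C.μ := integrable_const 3
  have i4 : Integrable (fun o => 3 + 3 * jac C v o) C.μ := i3.add i2
  have i5 : Integrable (fun o => 3 + 3 * jac C v o - q o) C.μ := i4.sub hq
  have h1 := exss_dual C hv G i5 h
  have e5 : ∫ _ : Om, (3 : ℝ) ∂C.μ = 3 * C.vol := by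
    rw [← C.integral_one, ← integral_const_mul, mul_one]
  rw [integral_sub i4 hq, integral_add i3 i2, integral_const_mul, e5] at h1
  have h2 := mul_le_mul_of_nonneg_left hfl (show (0 : ℝ) ≤ 12 / Real.pi by positivity)
  have e6 : 12 / Real.pi * (Real.pi ^ 2 - ε) = 12 * Real.pi - 12 / Real.pi * ε := by
    field_simp
  rw [e6] at h2
  linarith

theorem int_QLow_le [CompactSpace M] (C : Calc M γ) {v : Fin 3 → M → ℝ} (hv : Sph γ v) (G : Fam γ)
    {ε : ℝ} (hfl : Real.pi ^ 2 - ε ≤ ∫ p, Flux C (G.f p) v p ∂PP)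
    (hJ : ∫ o, jac C v o ∂C.μ ≤ 2 * Real.pi) {q : Om → ℝ} (hq : Integrable q C.μ)
    (h : ∀ᵐ o ∂C.μ, QLow (at' C v o) (dx C v o) (dy C v o) (dx C G.Th o) (dy C G.Th o) (q o)) :
    ∫ o, q o ∂C.μ ≤ 3 * (C.vol - 2 * Real.pi) + 12 / Real.pi * ε := by
  have h := int_QLow C hv G hfl hq h
  linarith

/-! ### quadratic weights -/

private theorem qadd {F G : E3 → ℝ} {A B : ℝ} (h : Integrable F PP ∧ ∫ p, F p ∂PP = A)
    (h' : Integrable G PP ∧ ∫ p, G p ∂PP = B) :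
    Integrable (fun p => F p + G p) PP ∧ ∫ p, (F p + G p) ∂PP = A + B := by
  rw [← h.2, ← h'.2, ← integral_add h.1 h'.1]
  exact ⟨h.1.add h'.1, rfl⟩

private theorem qsub {F G : E3 → ℝ} {A B : ℝ} (h : Integrable F PP ∧ ∫ p, F p ∂PP = A)
    (h' : Integrable G PP ∧ ∫ p, G p ∂PP = B) :
    Integrable (fun p => F p - G p) PP ∧ ∫ p, (F p - G p) ∂PP = A - B := by
  rw [← h.2, ← h'.2, ← integral_sub h.1 h'.1]
  exact ⟨h.1.sub h'.1, rfl⟩

private theorem qmul (c : ℝ) {F : E3 → ℝ} {A : ℝ} (h : Integrable F PP ∧ ∫ p, F p ∂PP = A) :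
    Integrable (fun p => c * F p) PP ∧ ∫ p, c * F p ∂PP = c * A := by
  rw [← h.2, integral_const_mul]
  exact ⟨h.1.const_mul c, rfl⟩

/-- `E|T_p|` with the weights `τ / s` -/
theorem L1_tau {v N N' : E3} (hv : ‖v‖ = 1) (hN : inner ℝ v N = (0 : ℝ)) (hN' : inner ℝ v N' = (0 : ℝ))
    (K K' : E3) {τ : ℝ} (hτ : 0 < τ) :
    12 / Real.pi * L1 v N N' K K' ≤ 3 * τ + (1 / τ) * ((3 / 2) * (‖N‖ ^ 2 + ‖N'‖ ^ 2)
      - (3 / 2) * (inner ℝ N K + inner ℝ N' K')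
      + (9 / 16) * ((‖K‖ ^ 2 - inner ℝ v K ^ 2) + (‖K'‖ ^ 2 - inner ℝ v K' ^ 2))
      + (3 / 8) * (inner ℝ v K ^ 2 + inner ℝ v K' ^ 2)) := by
  have i0 := int_inv hv
  have iN := int_NN hv hN
  have iN' := int_NN hv hN'
  have iNK := int_NK (K := K) hv hN
  have iNK' := int_NK (K := K') hv hN'
  have iK := int_KK (K := K) hv
  have iK' := int_KK (K := K') hv
  have hT := Tn_int hv hN hN' K K'
  have hR := qadd (qmul (τ / 2) i0) (qmul (1 / (2 * τ)) (qadd (qadd (qsub (qsub (qadd iN iN')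
    (qmul 2 iNK)) (qmul 2 iNK')) iK) iK'))
  have hpt : ∀ᵐ p ∂PP, Tn v N N' K K' p ≤ τ / 2 * (1 / √(sq2 v p)) + 1 / (2 * τ) *
      (inner ℝ p N ^ 2 / (sq2 v p * √(sq2 v p)) + inner ℝ p N' ^ 2 / (sq2 v p * √(sq2 v p))
      - 2 * (inner ℝ p N * inner ℝ p K / √(sq2 v p)) - 2 * (inner ℝ p N' * inner ℝ p K' / √(sq2 v p))
      + √(sq2 v p) * inner ℝ p K ^ 2 + √(sq2 v p) * inner ℝ p K' ^ 2) := by
    filter_upwards [ae_sq2 v hv] with p hq
    have hs : 0 < √(sq2 v p) := Real.sqrt_pos.2 hq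
    unfold Tn
    set s := √(sq2 v p) with hs'
    have e : sq2 v p = s ^ 2 := (Real.sq_sqrt hq.le).symm
    rw [e]
    set x : ℝ := inner ℝ p N
    set x' : ℝ := inner ℝ p N'
    set y : ℝ := inner ℝ p K
    set y' : ℝ := inner ℝ p K'
    set T := x / s ^ 2 - y with hT
    set T' := x' / s ^ 2 - y' with hT'
    have h1 : τ / 2 * (1 / s) + 1 / (2 * τ) * (x ^ 2 / (s ^ 2 * s) + x' ^ 2 / (s ^ 2 * s)
        - 2 * (x * y / s) - 2 * (x' * y' / s) + s * y ^ 2 + s * y' ^ 2) =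
        τ / (2 * s) + s / (2 * τ) * (T ^ 2 + T' ^ 2) := by
      rw [hT, hT']
      field_simp
      ring
    rw [h1]
    have h0 : 0 ≤ T ^ 2 + T' ^ 2 := by positivity
    have h2 : √(T ^ 2 + T' ^ 2) ^ 2 = T ^ 2 + T' ^ 2 := Real.sq_sqrt h0
    set r := √(T ^ 2 + T' ^ 2)
    rw [← h2]
    have h3 : τ / (2 * s) + s / (2 * τ) * r ^ 2 - r = s / (2 * τ) * (r - τ / s) ^ 2 := by
      field_simp
      ring
    have h4 : 0 ≤ s / (2 * τ) * (r - τ / s) ^ 2 := by positivity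
    linarith
  have hint := integral_mono_ae hT hR.1 hpt
  rw [hR.2] at hint
  have hpi := Real.pi_pos
  have h12 := mul_le_mul_of_nonneg_left hint (show (0 : ℝ) ≤ 12 / Real.pi by positivity)
  refine h12.trans (le_of_eq ?_)
  field_simp
  ring

/-- the quadratic form with weights `τ / s` -/
def Qtau (τ : ℝ) (v a b A B : E3) : ℝ :=
  3 - 3 * τ + 3 * inner ℝ v (crs b a) - (1 / (2 * τ)) * (‖a‖ ^ 2 + ‖b‖ ^ 2)
    - 2 * (inner ℝ (crs v b) A - inner ℝ (crs v a) B) + τ * (‖prj v A‖ ^ 2 + ‖prj v B‖ ^ 2)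
    + (3 / 2) * τ * (inner ℝ v A ^ 2 + inner ℝ v B ^ 2)

theorem QLow_tau {v a b : E3} (hv : ‖v‖ = 1) (ha : inner ℝ v a = (0 : ℝ)) (hb : inner ℝ v b = (0 : ℝ))
    (A B : E3) {τ : ℝ} (hτ : 0 < τ) : QLow v a b A B (Qtau τ v a b A B) := by
  have oN : inner ℝ v (crs v b) = (0 : ℝ) := inner_crs_left v b
  have oN' : inner ℝ v (-crs v a) = (0 : ℝ) := by
    rw [inner_neg_right, inner_crs_left, neg_zero]
  -- the optimal fields
  have key : ∀ N A : E3, inner ℝ v N = (0 : ℝ) → ∃ K : E3,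
      (1 / τ) * ((3 / 2) * ‖N‖ ^ 2 - (3 / 2) * inner ℝ N K
        + (9 / 16) * (‖K‖ ^ 2 - inner ℝ v K ^ 2) + (3 / 8) * inner ℝ v K ^ 2)
        + (3 / 2) * inner ℝ A K = (1 / (2 * τ)) * ‖N‖ ^ 2 + 2 * inner ℝ N A - τ * ‖prj v A‖ ^ 2
        - (3 / 2) * τ * inner ℝ v A ^ 2 := by
    intro N A hN
    set P := prj v A with hP
    set w : ℝ := inner ℝ v A with hw
    have hA : A = P + w • v := by
      rw [hP, hw]
      unfold prj
      abel
    have hvP : inner ℝ v P = (0 : ℝ) := prj_perp hv A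
    refine ⟨(4 / 3 : ℝ) • (N - τ • P) - (2 * τ * w) • v, ?_⟩
    set K := (4 / 3 : ℝ) • (N - τ • P) - (2 * τ * w) • v with hK
    have hvv := inner_self_one hv
    have k1 : inner ℝ v K = -(2 * τ * w) := by
      rw [hK, inner_sub_right, inner_smul_right, inner_smul_right, inner_sub_right,
        inner_smul_right, hN, hvP, hvv]
      ring
    have k2 : inner ℝ N K = (4 / 3) * (‖N‖ ^ 2 - τ * inner ℝ N P) := by
      rw [hK, inner_sub_right, inner_smul_right, inner_smul_right, inner_sub_right,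
        inner_smul_right, real_inner_self_eq_norm_sq, real_inner_comm v N, hN]
      ring
    have k3 : ‖K‖ ^ 2 = (16 / 9) * ‖N - τ • P‖ ^ 2 + (2 * τ * w) ^ 2 := by
      rw [hK, norm_sub_sq_real, norm_smul, norm_smul, inner_smul_left, inner_smul_right,
        inner_sub_left, inner_smul_left, real_inner_comm v N, real_inner_comm v P, hN, hvP, hv,
        Real.norm_eq_abs, Real.norm_eq_abs, mul_pow, mul_one, sq_abs, sq_abs]
      norm_num
    have k4 : ‖N - τ • P‖ ^ 2 = ‖N‖ ^ 2 - 2 * τ * inner ℝ N P + τ ^ 2 * ‖P‖ ^ 2 := by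
      rw [norm_sub_sq_real, inner_smul_right, norm_smul, mul_pow, Real.norm_eq_abs, sq_abs]
      ring
    have k5 : inner ℝ A K = (4 / 3) * (inner ℝ N P - τ * ‖P‖ ^ 2) - 2 * τ * w ^ 2 := by
      have e1 : inner ℝ P K = (4 / 3) * (inner ℝ N P - τ * ‖P‖ ^ 2) := by
        rw [hK, inner_sub_right, inner_smul_right, inner_smul_right, inner_sub_right,
          inner_smul_right, real_inner_self_eq_norm_sq, real_inner_comm v P, hvP,
          real_inner_comm N P]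
        ring
      nth_rewrite 1 [hA]
      rw [inner_add_left, real_inner_smul_left, e1, k1]
      ring
    have k6 : inner ℝ N A = inner ℝ N P := by
      nth_rewrite 1 [hA]
      rw [inner_add_right, inner_smul_right, real_inner_comm v N, hN]
      ring
    rw [k1, k2, k3, k4, k5, k6]
    field_simp
    ring
  obtain ⟨K, hK⟩ := key (crs v b) A oN
  obtain ⟨K', hK'⟩ := key (-crs v a) B oN'
  refine ⟨K, K', ?_⟩
  have h1 := L1_tau hv oN oN' K K' hτ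
  have n1 : ‖crs v b‖ ^ 2 = ‖b‖ ^ 2 := norm_crs hv hb
  have n2 : ‖-crs v a‖ ^ 2 = ‖a‖ ^ 2 := by
    rw [norm_neg]
    exact norm_crs hv ha
  have n3 : inner ℝ (-crs v a) B = -inner ℝ (crs v a) B := inner_neg_left _ _
  rw [n3] at hK'
  rw [n1] at hK h1
  rw [n2] at hK' h1
  unfold Qtau
  have e : 3 * τ + (1 / τ) * ((3 / 2) * (‖b‖ ^ 2 + ‖a‖ ^ 2)
      - (3 / 2) * (inner ℝ (crs v b) K + inner ℝ (-crs v a) K')
      + (9 / 16) * ((‖K‖ ^ 2 - inner ℝ v K ^ 2) + (‖K'‖ ^ 2 - inner ℝ v K' ^ 2))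
      + (3 / 8) * (inner ℝ v K ^ 2 + inner ℝ v K' ^ 2)) + (3 / 2) * (inner ℝ A K + inner ℝ B K') =
      3 * τ + ((1 / τ) * ((3 / 2) * ‖b‖ ^ 2 - (3 / 2) * inner ℝ (crs v b) K
        + (9 / 16) * (‖K‖ ^ 2 - inner ℝ v K ^ 2) + (3 / 8) * inner ℝ v K ^ 2)
        + (3 / 2) * inner ℝ A K)
      + ((1 / τ) * ((3 / 2) * ‖a‖ ^ 2 - (3 / 2) * inner ℝ (-crs v a) K'
        + (9 / 16) * (‖K'‖ ^ 2 - inner ℝ v K' ^ 2) + (3 / 8) * inner ℝ v K' ^ 2)
        + (3 / 2) * inner ℝ B K') := by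
    ring
  have h2 : 12 / Real.pi * L1 v (crs v b) (-crs v a) K K' + (3 / 2) * (inner ℝ A K + inner ℝ B K') ≤
      3 * τ + ((1 / τ) * ((3 / 2) * ‖b‖ ^ 2 - (3 / 2) * inner ℝ (crs v b) K
        + (9 / 16) * (‖K‖ ^ 2 - inner ℝ v K ^ 2) + (3 / 8) * inner ℝ v K ^ 2)
        + (3 / 2) * inner ℝ A K)
      + ((1 / τ) * ((3 / 2) * ‖a‖ ^ 2 - (3 / 2) * inner ℝ (-crs v a) K'
        + (9 / 16) * (‖K'‖ ^ 2 - inner ℝ v K' ^ 2) + (3 / 8) * inner ℝ v K' ^ 2)
        + (3 / 2) * inner ℝ B K') := by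
    rw [← e]
    linarith
  rw [hK, hK'] at h2
  linarith

/-- the form `Qd` is the case `τ = 1` -/
theorem Qtau_one {v a b : E3} (hv : ‖v‖ = 1) (ha : inner ℝ v a = (0 : ℝ)) (hb : inner ℝ v b = (0 : ℝ))
    (A B : E3) : Qtau 1 v a b A B = Qd v a b A B := by
  have n1 : ‖crs v b‖ ^ 2 = ‖b‖ ^ 2 := norm_crs hv hb
  have n2 : ‖crs v a‖ ^ 2 = ‖a‖ ^ 2 := norm_crs hv ha
  have e : ∀ X Y : E3, inner ℝ v X = (0 : ℝ) → inner ℝ (prj v Y) X = inner ℝ X Y := by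
    intro X Y hX
    unfold prj
    rw [inner_sub_left, real_inner_smul_left, hX, real_inner_comm]
    ring
  unfold Qtau Qd
  rw [norm_sub_sq_real, norm_add_sq_real, e _ _ (inner_crs_left v b), e _ _ (inner_crs_left v a),
    n1, n2]
  ring

end Pool.Agent.FPX
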