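import Mathlib
import Pool.Agent.FPX.EMZ
import Pool.Agent.FPX.QLW
import Pool.Agent.FPX.FIX

/-
PHM (helper30): the interface theorem of the method of near-minimisers. On every surface there are an
odd map `v` of degree one in the class with a variable bound, and a family `F` with nearly maximal flux
for `v`, such that (i) `∫ q ≤ 3 (vol - 2π) + ε` for every integrable `q` with `QLow … q` almost
everywhere, (ii) the first variation of the functional in the direction of `Θ` is at least `-ε`.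
-/

open MeasureTheory Set Filter Topology
open scoped ENNReal NNReal

noncomputable section

namespace Pool.Agent.FPX

open Pool.Agent.EWD

variable {M : Type} [MetricSpace M] {γ : ℝ → M} [CompactSpace M]

/-- for one map there is a family with nearly maximal flux -/
theorem fam_of (C : Calc M γ) (hγ : Bd γ) (hR : RegAE C) {v : Fin 3 → M → ℝ} (hv : Sph γ v) {ε : ℝ}
    (hε : 0 < ε) :
    ∃ F : Fam γ, Pre γ F.Th ∧ Real.pi ^ 2 - ε ≤ ∫ p, Flux C (F.f p) v p ∂PP := by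
  choose L hL using hv.lip
  set V : Op C :=
    { V := fun _ => v
      L := Finset.univ.sup L
      sph := fun _ _ => hv
      lip := fun _ _ k => (hL k).weaken (Finset.le_sup (Finset.mem_univ k))
      cont := fun _ _ _ _ _ _ _ _ => Eventually.of_forall fun _ _ =>
        ⟨tendsto_const_nhds, tendsto_const_nhds, tendsto_const_nhds⟩ } with hV
  exact fixpt C hγ hR V hε

/-- **interface** -/
theorem phi_main (C : Calc M γ) (hγ : Bd γ) (hR : RegAE C) {φ φ' : ℝ → ℝ} {s L : ℝ} (P : Pen φ φ' s L)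
    {Λ E : ℝ} (hΛ : 2 ≤ Λ) (hE : 1 ≤ E) {a b : ℝ} (ha : 0 ≤ a) (hb : 0 ≤ b)
    {U : Fin 3 → M → ℝ} {Y₀ : M → ℝ} (hU : KY C Λ E U Y₀) (hUJ : ∫ o, jac C U o ∂C.μ = 2 * Real.pi)
    {X : ℝ} (hUX : PhY C φ a b U Y₀ < X) (hX : X < 2 * Real.pi) {K₂ G₀ : ℝ}
    (hG₀ : 0 ≤ G₀) (hK₂ : 0 ≤ K₂) {ε : ℝ} (hε : 0 < ε) :
    ∃ (v : Fin 3 → M → ℝ) (Y : M → ℝ) (F : Fam γ), KY C Λ E v Y ∧
      ∫ o, jac C v o ∂C.μ = 2 * Real.pi ∧ PhY C φ a b v Y < X ∧ Pre γ F.Th ∧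
      (∀ q : Om → ℝ, Integrable q C.μ →
        (∀ᵐ o ∂C.μ, QLow (at' C v o) (dx C v o) (dy C v o) (dx C F.Th o) (dy C F.Th o) (q o)) →
        ∫ o, q o ∂C.μ ≤ 3 * (C.vol - 2 * Real.pi) + ε) ∧
      ∀ g : M → ℝ, Lip g → EvenB γ g → (∀ x, 0 ≤ g x) →
        (∀ x, 1 - inner ℝ (vv (n := 0) v x) (vv (n := 0) F.Th x) ≤ g x) → (∀ x, g x ≤ G₀) →
        a * ∫ o, G2 C g g o ∂C.μ ≤ K₂ →
        -ε ≤ ∫ o, φ' (nuC C v o) * dnuC C v F.Th o ∂C.μ
          + a * (∫ o, G2 C Y g o ∂C.μ - ∫ o, Real.exp (-Y (C.pt o)) * G2 C Y Y o ∂C.μ)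
          + b * (∫ o, Y (C.pt o) * g (C.pt o) ∂C.μ - ∫ o, Y (C.pt o) * rY Y (C.pt o) ∂C.μ) := by
  obtain ⟨v, Y, hv, hvJ, hvX, hvar⟩ := emz C hγ hR P hΛ hE ha hb hU hUJ hUX hX hG₀ hK₂ hε
  have hpi := Real.pi_pos
  obtain ⟨F, hF, hfl⟩ := fam_of C hγ hR hv.sph (ε := Real.pi / 12 * ε) (by positivity)
  refine ⟨v, Y, F, hv, hvJ, hvX, hF, fun q hq h => ?_, hvar F⟩
  have h1 := int_QLow_le C hv.sph F hfl hvJ.le hq h
  have e : 12 / Real.pi * (Real.pi / 12 * ε) = ε := by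
    field_simp
  linarith

end Pool.Agent.FPX
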