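import Mathlib
import Pool.Agent.FPX.EMK
import Pool.Agent.FPX.PHM

/-
KIN (helper30): interface of scheme K. `kint`: for every `κ ≥ 0`, `ε > 0` and every map `U` of the class
`e^{c₀} W(2,1)` with `∫ φ(ν) < X < 2π` there are `v`, `c ≥ c₀` and a family `F` with nearly maximal flux
for `v` such that (A) the `QLow` certificates hold, (B) the first variation in the direction of `Θ` is
at least `-ε - κ d` for `d ≥ e^{-c} - ⟨v, Θ⟩`. `kin_L2`: the quadratic form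
`∫ (|dη|² + w²/2 + (4 z - 3) ν) ≤ 3 (vol - 2π) + ε + 2 κ d`, `η = Θ - v`, `z = ⟨v, Θ⟩`.
-/

open MeasureTheory Set Filter Topology
open scoped ENNReal NNReal

noncomputable section

namespace Pool.Agent.FPX

open Pool.Agent.EWD

variable {M : Type} [MetricSpace M] {γ : ℝ → M}

/-! ### the pointwise identity -/

private theorem KIN_l1 (v b B : E3) : inner ℝ (crs v b) (crs v B) =
    (inner ℝ v v * inner ℝ b B - inner ℝ v b * inner ℝ v B : ℝ) := by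
  simp only [inner3, crs0, crs1, crs2]
  ring

private theorem KIN_l2 (v a B : E3) : inner ℝ a (crs v B) = (-inner ℝ (crs v a) B : ℝ) := by
  simp only [inner3, crs0, crs1, crs2]
  ring

/-- the quadratic certificate minus twice the first variation of `ν` -/
theorem KF_id {v a b : E3} (hv : ‖v‖ = 1) (ha : inner ℝ v a = (0 : ℝ)) (hb : inner ℝ v b = (0 : ℝ))
    (T A B : E3) : Qtau 1 v a b A B - 2 * dnu v a b T A B =
      ‖A - a‖ ^ 2 + ‖B - b‖ ^ 2 + 1 / 2 * (inner ℝ v A ^ 2 + inner ℝ v B ^ 2)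
        + (4 * inner ℝ v T - 3) * nuv v a b := by
  have h1 := jac_pm hv ha hb
  have h2 := norm_pm hv ha hb
  have h3 : (inner ℝ (a - crs v b) (A - crs v B) : ℝ) = 4 * inner ℝ (qm v a b) (qm v A B) := inner_q ha
  have h4 := KIN_l1 v b B
  have h5 := KIN_l2 v a B
  have h6 : (inner ℝ v v : ℝ) = 1 := inner_self_one hv
  rw [inner_sub_left, inner_sub_right, inner_sub_right, h4, h5, h6, hb] at h3
  have h7 := norm_prj_sq hv A
  have h8 := norm_prj_sq hv B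
  unfold Qtau dnu nuv
  rw [norm_sub_sq_real, norm_sub_sq_real, h7, h8, h1]
  have e1 : (inner ℝ A a : ℝ) = inner ℝ a A := real_inner_comm _ _
  have e2 : (inner ℝ B b : ℝ) = inner ℝ b B := real_inner_comm _ _
  rw [e1, e2]
  linarith

/-! ### the start -/

/-- the second condition implies the first ones -/
theorem InW_of_s {x y : E3} {r : ℝ} (hr : 0 ≤ r) (h : ‖x‖ ^ 2 + ‖y‖ ^ 2 ≤ 2 * r ^ 2) :
    InW (r * 2) (r ^ 2 * 1) x y := by
  have pl : ∀ w s : E3, ‖w‖ = 1 → ‖prj w s‖ ≤ ‖s‖ := by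
    intro w s hw
    have h1 := norm_prj_sq hw s
    refine le_of_sq_le_sq ?_ (norm_nonneg _)
    rw [h1]
    nlinarith [sq_nonneg (inner ℝ w s : ℝ)]
  have h2 : ‖x‖ + ‖y‖ ≤ r * 2 := by
    refine le_of_sq_le_sq ?_ (by positivity)
    nlinarith [sq_nonneg (‖x‖ - ‖y‖)]
  have h3 : ∀ w : E3, ‖w‖ = 1 → ‖prj w x‖ + ‖crs w y‖ ≤ r * 2 := by
    intro w hw
    have h4 := norm_crs_le w y
    rw [hw, one_mul] at h4
    linarith [pl w x hw]
  exact ⟨fun w hw => (norm_sub_le _ _).trans (h3 w hw), fun w hw => (norm_add_le _ _).trans (h3 w hw),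
    by linarith⟩

/-- the universal map is in the class: `e ≤ e^{2c₀}` is enough -/
theorem KY_start (C : Calc M γ) {U : Fin 3 → M → ℝ} (hU : Sph γ U) {c₀ : ℝ} (hc : 0 ≤ c₀)
    (h : ∀ᵐ o ∂C.μ, (‖dx C U o‖ ^ 2 + ‖dy C U o‖ ^ 2) / 2 ≤ Real.exp c₀ ^ 2) :
    KY C 2 1 U (fun _ => c₀) := by
  refine ⟨hU, lip_const c₀, fun _ => rfl, fun _ => hc, ?_⟩
  filter_upwards [h] with o ho
  exact InW_of_s (Real.exp_pos _).le (by linarith)

/-! ### the interface -/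

variable [CompactSpace M]

/-- **interface K** -/
theorem kint (C : Calc M γ) (hγ : Bd γ) (hR : RegAE C) {φ φ' : ℝ → ℝ} {s L : ℝ} (P : Pen φ φ' s L)
    {κ c₀ : ℝ} (hκ : 0 ≤ κ) {U : Fin 3 → M → ℝ} (hU : KY C 2 1 U (fun _ => c₀))
    (hUJ : ∫ o, jac C U o ∂C.μ = 2 * Real.pi) {X : ℝ} (hUX : Ph C φ U < X) (hX : X < 2 * Real.pi)
    {ε : ℝ} (hε : 0 < ε) :
    ∃ (v : Fin 3 → M → ℝ) (c : ℝ) (F : Fam γ), c₀ ≤ c ∧ KY C 2 1 v (fun _ => c) ∧
      ∫ o, jac C v o ∂C.μ = 2 * Real.pi ∧ Ph C φ v + κ * (c - c₀) < X ∧ Pre γ F.Th ∧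
      (∀ q : Om → ℝ, Integrable q C.μ →
        (∀ᵐ o ∂C.μ, QLow (at' C v o) (dx C v o) (dy C v o) (dx C F.Th o) (dy C F.Th o) (q o)) →
        ∫ o, q o ∂C.μ ≤ 3 * (C.vol - 2 * Real.pi) + ε) ∧
      ∀ d : ℝ, 0 ≤ d →
        (∀ x, Real.exp (-c) - inner ℝ (vv (n := 0) v x) (vv (n := 0) F.Th x) ≤ d) →
        -ε ≤ ∫ o, φ' (nuC C v o) * dnuC C v F.Th o ∂C.μ + κ * d := by
  obtain ⟨v, c, hc, hv, hvJ, hvX, hvar⟩ := emk C hγ hR P (Λ := 2) (E := 1) (by norm_num)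
    (by norm_num) hκ hU hUJ hUX hX (K := 7) (by norm_num) hε
  have hpi := Real.pi_pos
  obtain ⟨F, hF, hfl⟩ := fam_of C hγ hR hv.sph (ε := Real.pi / 12 * ε) (by positivity)
  refine ⟨v, c, F, hc, hv, hvJ, hvX, hF, fun q hq h => ?_, fun d hd0 hd => ?_⟩
  · have h1 := int_QLow_le C hv.sph F hfl hvJ.le hq h
    have e : 12 / Real.pi * (Real.pi / 12 * ε) = ε := by
      field_simp
    linarith
  · exact hvar F.Th d (Th_TZ C F le_rfl le_rfl) hd0 hd

/-- the integrand of the quadratic form -/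
def KF (C : Calc M γ) (v T : Fin 3 → M → ℝ) (o : Om) : ℝ :=
  ‖dx C T o - dx C v o‖ ^ 2 + ‖dy C T o - dy C v o‖ ^ 2
    + 1 / 2 * (inner ℝ (at' C v o) (dx C T o) ^ 2 + inner ℝ (at' C v o) (dy C T o) ^ 2)
    + (4 * inner ℝ (at' C v o) (at' C T o) - 3) * nuC C v o

private theorem KIN_crs {X : Type} [TopologicalSpace X] {f g : X → E3} (hf : Continuous f)
    (hg : Continuous g) : Continuous fun x => crs (f x) (g x) := by
  have h : ∀ k, Continuous fun x => (crs (f x) (g x)) k := by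
    have hc : ∀ {f : X → E3}, Continuous f → ∀ i, Continuous fun x => f x i := fun {f} hf i =>
      (PiLp.continuous_apply 2 (fun _ : Fin 3 => ℝ) i).comp hf
    intro k
    fin_cases k
    · exact ((hc hf 1).mul (hc hg 2)).sub ((hc hf 2).mul (hc hg 1))
    · exact ((hc hf 2).mul (hc hg 0)).sub ((hc hf 0).mul (hc hg 2))
    · exact ((hc hf 0).mul (hc hg 1)).sub ((hc hf 1).mul (hc hg 0))
  exact (PiLp.continuous_toLp 2 (fun _ : Fin 3 => ℝ)).comp (continuous_pi h)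

omit [CompactSpace M] in
theorem Qtau_cint (C : Calc M γ) {v T : Fin 3 → M → ℝ} (hv : Sph γ v) (hT : ∀ k, Lip (T k)) (τ : ℝ) :
    Integrable (fun o => Qtau τ (at' C v o) (dx C v o) (dy C v o) (dx C T o) (dy C T o)) C.μ := by
  refine integrable_cont5 C hv hT
    (Φ := fun q => Qtau τ q.1 q.2.1 q.2.2.1 q.2.2.2.1 q.2.2.2.2) ?_
  unfold Qtau
  have c1 : Continuous fun q : E3 × E3 × E3 × E3 × E3 => crs q.2.2.1 q.2.1 := KIN_crs (by fun_prop) (by fun_prop)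
  have c2 : Continuous fun q : E3 × E3 × E3 × E3 × E3 => crs q.1 q.2.2.1 := KIN_crs (by fun_prop) (by fun_prop)
  have c3 : Continuous fun q : E3 × E3 × E3 × E3 × E3 => crs q.1 q.2.1 := KIN_crs (by fun_prop) (by fun_prop)
  have c4 : Continuous fun q : E3 × E3 × E3 × E3 × E3 => prj q.1 q.2.2.2.1 := prj_cont (by fun_prop) (by fun_prop)
  have c5 : Continuous fun q : E3 × E3 × E3 × E3 × E3 => prj q.1 q.2.2.2.2 := prj_cont (by fun_prop) (by fun_prop)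
  fun_prop

omit [CompactSpace M] in
/-- the gradient of `η = Θ - v` in coordinates -/
theorem ae_eta (C : Calc M γ) {v T : Fin 3 → M → ℝ} (hv : ∀ k, Lip (v k)) (hT : ∀ k, Lip (T k)) :
    ∀ᵐ o ∂C.μ, ‖dx C T o - dx C v o‖ ^ 2 + ‖dy C T o - dy C v o‖ ^ 2 =
      ∑ k, G2 C (fun x => T k x - v k x) (fun x => T k x - v k x) o := by
  have h1 : ∀ᵐ o ∂C.μ, ∀ k, C.gx (fun x => T k x - v k x) o = C.gx (T k) o - C.gx (v k) o ∧
      C.gy (fun x => T k x - v k x) o = C.gy (T k) o - C.gy (v k) o := by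
    refine ae_all_iff.2 fun k => ?_
    filter_upwards [C.ae_has (hT k), C.ae_has (hv k)] with o a1 a2
    exact ⟨(a1.1.sub a2.1).deriv, (a1.2.sub a2.2).deriv⟩
  filter_upwards [h1] with o ho
  rw [normsq3, normsq3, Fin.sum_univ_three]
  unfold G2
  rw [(ho 0).1, (ho 1).1, (ho 2).1, (ho 0).2, (ho 1).2, (ho 2).2]
  have e : ∀ k, (dx C T o - dx C v o) k = C.gx (T k) o - C.gx (v k) o := by
    intro k
    fin_cases k <;> rfl
  have e' : ∀ k, (dy C T o - dy C v o) k = C.gy (T k) o - C.gy (v k) o := by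
    intro k
    fin_cases k <;> rfl
  rw [e, e, e, e', e', e']
  ring

omit [CompactSpace M] in
/-- the bound of `ν` in the class -/
theorem KY.nu_le {C : Calc M γ} {v : Fin 3 → M → ℝ} {c : ℝ} (h : KY C 2 1 v (fun _ => c)) :
    ∀ᵐ o ∂C.μ, nuC C v o ≤ 2 * Real.exp c ^ 2 := by
  filter_upwards [h.bds] with o ho
  obtain ⟨-, h2, -⟩ := ho
  unfold nuC nuv
  have h0 := norm_nonneg (qm (at' C v o) (dx C v o) (dy C v o))
  have h3 : ‖qm (at' C v o) (dx C v o) (dy C v o)‖ ≤ Real.exp c := by linarith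
  have := pow_le_pow_left₀ h0 h3 2
  linarith

omit [CompactSpace M] in
/-- the bound of the gradient in the class -/
theorem KY.grad_le {C : Calc M γ} {v : Fin 3 → M → ℝ} {c : ℝ} (h : KY C 2 1 v (fun _ => c)) :
    ∀ᵐ o ∂C.μ, ‖dx C v o‖ ^ 2 + ‖dy C v o‖ ^ 2 ≤ 2 * Real.exp c ^ 2 := by
  filter_upwards [h.bds] with o ho
  obtain ⟨-, -, h3⟩ := ho
  simpa using h3

/-- **the quadratic form of scheme K** -/
theorem kin_L2 (C : Calc M γ) (hγ : Bd γ) (hR : RegAE C)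
    {κ c₀ : ℝ} (hκ : 0 ≤ κ) {U : Fin 3 → M → ℝ} (hU : KY C 2 1 U (fun _ => c₀))
    (hUJ : ∫ o, jac C U o ∂C.μ = 2 * Real.pi) {X : ℝ} (hUX : ∫ o, nuC C U o ∂C.μ < X)
    (hX : X < 2 * Real.pi) {ε : ℝ} (hε : 0 < ε) :
    ∃ (v : Fin 3 → M → ℝ) (c : ℝ) (F : Fam γ), c₀ ≤ c ∧ KY C 2 1 v (fun _ => c) ∧
      ∫ o, jac C v o ∂C.μ = 2 * Real.pi ∧ ∫ o, nuC C v o ∂C.μ + κ * (c - c₀) < X ∧ Pre γ F.Th ∧
      ∀ d : ℝ, 0 ≤ d →
        (∀ x, Real.exp (-c) - inner ℝ (vv (n := 0) v x) (vv (n := 0) F.Th x) ≤ d) →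
        ∫ o, KF C v F.Th o ∂C.μ ≤ 3 * (C.vol - 2 * Real.pi) + ε + 2 * κ * d := by
  obtain ⟨v, c, F, hc, hv, hvJ, hvX, hF, hA, hB⟩ := kint C hγ hR pen_id hκ hU hUJ (X := X) hUX hX
    (ε := ε / 3) (by positivity)
  refine ⟨v, c, F, hc, hv, hvJ, hvX, hF, fun d hd0 hd => ?_⟩
  have hT : ∀ k, Lip (F.Th k) := fun k => ⟨3, hF.lip k⟩
  have i1 := Qtau_cint C hv.sph hT 1
  have i2 : Integrable (fun o => dnuC C v F.Th o) C.μ := by
    have := dnuC_cint C hv.sph.lip hT (φ := fun _ => (1 : ℝ)) continuous_const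
    simpa only [one_mul] using this
  have h1 := hA _ i1 (by
    filter_upwards [ae_perp C hv.sph] with o ho
    exact QLow_tau (norm_at hv.sph o) ho.1 ho.2 _ _ one_pos)
  have h2 := hB d hd0 hd
  simp only [one_mul] at h2
  have e : ∫ o, KF C v F.Th o ∂C.μ =
      ∫ o, Qtau 1 (at' C v o) (dx C v o) (dy C v o) (dx C F.Th o) (dy C F.Th o) ∂C.μ
        - 2 * ∫ o, dnuC C v F.Th o ∂C.μ := by
    rw [← integral_const_mul, ← integral_sub i1 (i2.const_mul 2)]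
    refine integral_congr_ae ?_
    filter_upwards [ae_perp C hv.sph] with o ho
    exact (KF_id (norm_at hv.sph o) ho.1 ho.2 (at' C F.Th o) _ _).symm
  rw [e]
  linarith

end Pool.Agent.FPX
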