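import Mathlib
import Pool.Agent.FPX.KIN
import Pool.Agent.FPM.CLS

/-
FAC0 (helper81): the frame of the assembly (D7). `Start X c₀`: near minimal metrics of area below `2 π` carry
an odd map of degree one in the class of the constant `c₀` with `∫ ν < X + e`. `Area c`: the closing statement
for the bound `c`. `handin`, `handin_two_pi`: the statements that are handed in.
-/

open Set MeasureTheory Filter Topology Bundle Manifold
open scoped ENNReal NNReal ContDiff Manifold

noncomputable section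

namespace Pool.Agent.FPX

open Pool.Agent.EWD Pool.Agent.FPM Pool.Agent.H74.FAC

/-- the start map: for every `e > 0` near minimal metrics of area below `2 π` have a map of the class `c₀`
with `∫ ν < X + e` -/
def Start (X c₀ : ℝ) : Prop :=
  ∀ e : ℝ, 0 < e → ∃ ε : ℝ, 0 < ε ∧ ∀ (M : Type) [MetricSpace M] [CompactSpace M] [Nonempty M]
    (γ : ℝ → M) (C : Calc M γ), NearM C ε → C.vol < 2 * Real.pi →
    ∃ U : Fin 3 → M → ℝ, KY C 2 1 U (fun _ => c₀) ∧ ∫ o, jac C U o ∂C.μ = 2 * Real.pi ∧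
      ∫ o, nuC C U o ∂C.μ < X + e

/-- the closing statement for the bound `c` -/
abbrev Area (c : ℝ) : Prop := Close c

/-! ### tolerances -/

section

variable {M : Type} [MetricSpace M] {γ : ℝ → M}

/-- the conditions get weaker when the tolerance grows -/
theorem NearM.mono {C : Calc M γ} {ε ε' : ℝ} (h : NearM C ε) (he : ε ≤ ε') : NearM C ε' := by
  have hpi := Real.pi_pos
  refine ⟨h.bd, ?_, h.regpl, h.colb, h.regae, ?_, ?_⟩
  · intro A Λ hA hu
    have := h.nm A Λ hA hu
    linarith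
  · intro g hg hev
    filter_upwards [h.isop g hg hev] with t ht
    refine ⟨ht.1, le_trans ?_ ht.2⟩
    exact mul_le_mul_of_nonneg_left (by linarith) hpi.le
  · intro g hg ho
    filter_upwards [h.isopO g hg ho] with t ht h0
    obtain ⟨h1, h2⟩ := ht h0
    refine ⟨h1, le_trans ?_ h2⟩
    exact mul_le_mul_of_nonneg_left (by linarith) hpi.le

/-- a smaller tolerance is enough for the odd isoperimetric inequality -/
theorem IsopO.mono {C : Calc M γ} {κ ε ε' : ℝ} (hκ : 0 ≤ κ) (h : IsopO C κ ε) (he : ε ≤ ε') :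
    IsopO C κ ε' := by
  intro g hg ho
  filter_upwards [h g hg ho] with t ht h0
  obtain ⟨h1, h2⟩ := ht h0
  refine ⟨h1, le_trans ?_ h2⟩
  exact mul_le_mul_of_nonneg_left (by linarith) hκ

end

theorem Start.mono {X X' c₀ : ℝ} (h : Start X c₀) (hX : X ≤ X') : Start X' c₀ := by
  intro e he
  obtain ⟨ε, hε, h⟩ := h e he
  refine ⟨ε, hε, fun M _ _ _ γ C hC hv => ?_⟩
  obtain ⟨U, h1, h2, h3⟩ := h M γ C hC hv
  exact ⟨U, h1, h2, by linarith⟩

/-- a larger constant of the class -/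
theorem Start.mono_c {X c₀ c₁ : ℝ} (h : Start X c₀) (h0 : 0 ≤ c₁) (hc : c₀ ≤ c₁) : Start X c₁ := by
  intro e he
  obtain ⟨ε, hε, h⟩ := h e he
  refine ⟨ε, hε, fun M _ _ _ γ C hC hv => ?_⟩
  obtain ⟨U, h1, h2, h3⟩ := h M γ C hC hv
  refine ⟨U, KY_start C h1.sph h0 ?_, h2, h3⟩
  filter_upwards [h1.grad_le] with o ho
  have h4 : Real.exp c₀ ^ 2 ≤ Real.exp c₁ ^ 2 :=
    pow_le_pow_left₀ (Real.exp_pos _).le (Real.exp_le_exp.2 hc) 2
  linarith

theorem Close.mono {c c' : ℝ} (h : Close c) (hc : c' ≤ c) : Close c' := by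
  obtain ⟨ε, hε, h⟩ := h
  exact ⟨ε, hε, fun M _ _ _ γ C hC => hc.trans (h M γ C hC)⟩

/-- with a bound for all near minimal metrics of area below `2 π` -/
theorem Close.of_lt {c : ℝ} (hc : c ≤ 2 * Real.pi) (h : ∃ ε : ℝ, 0 < ε ∧ ∀ (M : Type) [MetricSpace M]
    [CompactSpace M] [Nonempty M] (γ : ℝ → M) (C : Calc M γ), NearM C ε → C.vol < 2 * Real.pi →
    c ≤ C.vol) : Close c := by
  obtain ⟨ε, hε, h⟩ := h
  refine ⟨ε, hε, fun M _ _ _ γ C hC => ?_⟩
  by_contra hlt
  rw [not_le] at hlt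
  have := h M γ C hC (by linarith)
  linarith

/-! ### the hand-in statements -/

section

open Pool.Agent.H74.Surf in
/-- the bound for the area from the closing statement, in the form of the hand-in -/
theorem handin {c : ℝ} (hc : c ≤ 2 * Real.pi) (h : Close c) (M : Type) [MetricSpace M] [CompactSpace M]
    [ChartedSpace (EuclideanHalfSpace 2) M] [Pool.Agent.H74.Surf.RiemannianSpace (𝓡∂ 2) M]
    (horient : Pool.Agent.H74.Surf.Orientable (𝓡∂ 2) M) (φ : Pool.Agent.H74.Surf.S1 → M)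
    (hφ : Pool.Agent.H74.Surf.IsometricFilling (𝓡∂ 2) φ) :
    ENNReal.ofReal c ≤ Pool.Agent.H74.Surf.area M :=
  letI R : Pool.Agent.H74.Surf.RiemannianSpace (𝓡∂ 2) M := inferInstance
  letI := R.smooth
  letI := R.metric
  letI := R.smoothMetric
  letI := R.dist_eq
  area_of_close (M := M) hc h horient (φ := φ) ⟨hφ.dist_eq, hφ.range_eq⟩

/-- the sharp bound, in the form of the hand-in -/
theorem handin_two_pi (h : ∀ δ : ℝ, 0 < δ → Close (2 * Real.pi - δ)) (M : Type) [MetricSpace M]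
    [CompactSpace M] [ChartedSpace (EuclideanHalfSpace 2) M]
    [Pool.Agent.H74.Surf.RiemannianSpace (𝓡∂ 2) M]
    (horient : Pool.Agent.H74.Surf.Orientable (𝓡∂ 2) M) (φ : Pool.Agent.H74.Surf.S1 → M)
    (hφ : Pool.Agent.H74.Surf.IsometricFilling (𝓡∂ 2) φ) :
    ENNReal.ofReal (2 * Real.pi) ≤ Pool.Agent.H74.Surf.area M :=
  letI R : Pool.Agent.H74.Surf.RiemannianSpace (𝓡∂ 2) M := inferInstance
  letI := R.smooth
  letI := R.metric
  letI := R.smoothMetric
  letI := R.dist_eq
  area_two_pi (M := M) h horient (φ := φ) ⟨hφ.dist_eq, hφ.range_eq⟩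

end

end Pool.Agent.FPX
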