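import Mathlib
import Pool.Agent.FPX.EMZ

/-
EMK2 (helper58): scheme K with an exceptional set. The surface is only nearly minimal, so nothing is
known about parts of area below the error. Class `KA`: odd maps `v` into the sphere with `dv ∈ e^c W`
off a set `A` and `dv ∈ e^{c'} W` everywhere, `c ≤ c'`. Near-minimisers of
`∫ φ(ν) + κ c + κ' c' + β μ(A)`; the step adds to `A` the set where `d < e^{-c} - ⟨v, Z⟩`, so that the
condition `e^{-c} - ⟨v, Z⟩ ≤ d` is only needed off a set of area at most `θ`, and `θ` does not depend on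
the surface.
-/

open MeasureTheory Set Filter Topology
open scoped ENNReal NNReal

noncomputable section

namespace Pool.Agent.FPX

open Pool.Agent.EWD

variable {M : Type} [MetricSpace M] {γ : ℝ → M}

/-- the class with an exceptional set -/
structure KA (C : Calc M γ) (Λ E : ℝ) (v : Fin 3 → M → ℝ) (c c' : ℝ) (A : Set Om) : Prop where
  sph : Sph γ v
  nonneg : 0 ≤ c
  le : c ≤ c'
  meas : NullMeasurableSet A C.μ
  inA : ∀ᵐ o ∂C.μ, InW (Real.exp c' * Λ) (Real.exp c' ^ 2 * E) (dx C v o) (dy C v o)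
  out : ∀ᵐ o ∂C.μ, o ∉ A → InW (Real.exp c * Λ) (Real.exp c ^ 2 * E) (dx C v o) (dy C v o)

private theorem KA_log {u : ℝ} (hu : -(1 / 2) ≤ u) : 1 / (1 + u) ≤ Real.exp (-u + 2 * u ^ 2) := by
  have h0 : 0 < 1 + u := by linarith
  have h1 := Real.one_sub_inv_le_log_of_pos h0
  have h2 : u - 2 * u ^ 2 ≤ 1 - (1 + u)⁻¹ := by
    have e : 1 - (1 + u)⁻¹ = u / (1 + u) := by
      field_simp
      ring
    rw [e, le_div_iff₀ h0]
    nlinarith [mul_nonneg (sq_nonneg u) (show 0 ≤ 1 + 2 * u by linarith)]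
  have h3 : u - 2 * u ^ 2 ≤ Real.log (1 + u) := h2.trans h1
  have h4 : Real.exp (u - 2 * u ^ 2) ≤ 1 + u := by
    calc Real.exp (u - 2 * u ^ 2) ≤ Real.exp (Real.log (1 + u)) := Real.exp_le_exp.mpr h3
      _ = 1 + u := Real.exp_log h0
  have h5 : Real.exp (-u + 2 * u ^ 2) = (Real.exp (u - 2 * u ^ 2))⁻¹ := by
    rw [← Real.exp_neg]
    congr 1
    ring
  rw [h5, one_div]
  exact inv_anti₀ (Real.exp_pos _) h4

/-- the scalar inequality behind the stability -/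
private theorem KA_scal {Y t z N K D : ℝ} (ht : 0 ≤ t) (hz : |z| ≤ K) (htK : t * K ≤ 1 / 2)
    (hN : 1 + t * z ≤ N) (hD : Real.exp (-Y) - z ≤ D) :
    (Real.exp Y + t) / N ≤ Real.exp (Y + t * D + 2 * K ^ 2 * t ^ 2) := by
  have hu : |t * z| ≤ 1 / 2 := by
    rw [abs_mul, abs_of_nonneg ht]
    exact (mul_le_mul_of_nonneg_left hz ht).trans htK
  obtain ⟨u1, u2⟩ := abs_le.mp hu
  have h0 : 0 < 1 + t * z := by linarith
  have h1 := KA_log u1
  have h2 : Real.exp Y + t ≤ Real.exp (Y + t * Real.exp (-Y)) := by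
    have e : Real.exp Y + t = Real.exp Y * (1 + t * Real.exp (-Y)) := by
      have : Real.exp Y * Real.exp (-Y) = 1 := by
        rw [← Real.exp_add, add_neg_cancel, Real.exp_zero]
      linear_combination (-t) * this
    rw [e, Real.exp_add]
    refine mul_le_mul_of_nonneg_left ?_ (Real.exp_pos _).le
    have := Real.add_one_le_exp (t * Real.exp (-Y))
    linarith
  have h3 : (Real.exp Y + t) / N ≤ (Real.exp Y + t) / (1 + t * z) :=
    div_le_div_of_nonneg_left (by positivity) h0 hN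
  have h4 : (Real.exp Y + t) / (1 + t * z) ≤
      Real.exp (Y + t * Real.exp (-Y)) * Real.exp (-(t * z) + 2 * (t * z) ^ 2) := by
    rw [div_eq_mul_one_div]
    exact mul_le_mul h2 h1 (by positivity) (Real.exp_pos _).le
  refine (h3.trans h4).trans ?_
  rw [← Real.exp_add]
  refine Real.exp_le_exp.mpr ?_
  have h5 := mul_le_mul_of_nonneg_left hD ht
  have h6 : (t * z) ^ 2 ≤ K ^ 2 * t ^ 2 := by
    rw [mul_pow, mul_comm]
    refine mul_le_mul_of_nonneg_right ?_ (sq_nonneg t)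
    rw [← sq_abs z]
    exact pow_le_pow_left₀ (abs_nonneg z) hz 2
  nlinarith

/-- the pointwise step -/
theorem KA_pt {Λ E K Y t D : ℝ} (hΛ : 0 ≤ Λ) (hE : 0 ≤ E) (ht : 0 ≤ t) (htK : t * K ≤ 1 / 2)
    {u Z x y X' Y' : E3} (hn : ‖u‖ = 1) (hZK : ‖Z‖ ≤ K)
    (h4 : InW (Real.exp Y * Λ) (Real.exp Y ^ 2 * E) x y) (h5 : InW Λ E X' Y')
    (hD : Real.exp (-Y) - inner ℝ u Z ≤ D) :
    InW (Real.exp (Y + t * D + 2 * K ^ 2 * t ^ 2) * Λ) (Real.exp (Y + t * D + 2 * K ^ 2 * t ^ 2) ^ 2 * E)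
      (nd (u + t • Z) (x + t • X')) (nd (u + t • Z) (y + t • Y')) := by
  set z : ℝ := inner ℝ u Z with hz
  have hzK : |z| ≤ K := by
    refine (abs_real_inner_le_norm _ _).trans ?_
    rw [hn, one_mul]
    exact hZK
  have hN1 : 1 + t * z ≤ ‖u + t • Z‖ := by
    have e : inner ℝ u (u + t • Z) = 1 + t * z := by
      rw [inner_add_right, inner_smul_right, inner_self_one hn]
    rw [← e]
    refine (real_inner_le_norm _ _).trans ?_
    rw [hn, one_mul]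
  have hu : |t * z| ≤ 1 / 2 := by
    rw [abs_mul, abs_of_nonneg ht]
    exact (mul_le_mul_of_nonneg_left hzK ht).trans htK
  have hN0 : 0 < ‖u + t • Z‖ := by
    have := (abs_le.mp hu).1
    linarith
  have k := nd_W (u := u) (Z := Z) (Real.exp_pos Y).le ht h4 h5 rfl hN0 hE
  have key := KA_scal (Y := Y) (D := D) ht hzK htK hN1 hD
  have q0 : 0 ≤ (Real.exp Y + t) / ‖u + t • Z‖ := by positivity
  refine k.mono (mul_le_mul_of_nonneg_right key hΛ) (mul_le_mul_of_nonneg_right ?_ hE)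
  exact pow_le_pow_left₀ q0 key 2

/-- the set added to the exceptional set -/
def hA (C : Calc M γ) (v Z : Fin 3 → M → ℝ) (c d : ℝ) : Set Om :=
  {o | d < Real.exp (-c) - inner ℝ (at' C v o) (at' C Z o)}

theorem aem_inner (C : Calc M γ) {v Z : Fin 3 → M → ℝ} (hv : ∀ k, Lip (v k)) (hZ : ∀ k, Lip (Z k)) :
    AEMeasurable (fun o => (inner ℝ (at' C v o) (at' C Z o) : ℝ)) C.μ := by
  have e : (fun o => (inner ℝ (at' C v o) (at' C Z o) : ℝ)) =
      fun o => v 0 (C.pt o) * Z 0 (C.pt o) + v 1 (C.pt o) * Z 1 (C.pt o) + v 2 (C.pt o) * Z 2 (C.pt o) := by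
    funext o
    rw [inner3]
    rfl
  rw [e]
  exact (((C.mpt _ (hv 0)).mul (C.mpt _ (hZ 0))).add ((C.mpt _ (hv 1)).mul (C.mpt _ (hZ 1)))).add
    ((C.mpt _ (hv 2)).mul (C.mpt _ (hZ 2)))

theorem hA_meas (C : Calc M γ) {v Z : Fin 3 → M → ℝ} (hv : ∀ k, Lip (v k)) (hZ : ∀ k, Lip (Z k))
    (c d : ℝ) : NullMeasurableSet (hA C v Z c d) C.μ :=
  nullMeasurableSet_lt aemeasurable_const (aemeasurable_const.sub (aem_inner C hv hZ))

/-- the class is stable under the step -/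
theorem KA.step {C : Calc M γ} {Λ E : ℝ} {v : Fin 3 → M → ℝ} {c c' : ℝ} {A : Set Om}
    (h : KA C Λ E v c c' A) (hΛ : 0 ≤ Λ) (hE : 0 ≤ E) {K : ℝ} {Z : Fin 3 → M → ℝ} (hZ : TZ C Λ E K Z)
    {d : ℝ} (hd : 0 ≤ d) (hd1 : d ≤ 1 + K) {t : ℝ} (ht : 0 ≤ t) (htK : t * K ≤ 1 / 2) :
    KA C Λ E (cpt t v Z) (c + t * d + 2 * K ^ 2 * t ^ 2) (c' + t * (1 + K) + 2 * K ^ 2 * t ^ 2)
      (A ∪ hA C v Z c d) := by
  have hc' : 0 ≤ c' := h.nonneg.trans h.le
  have q1 : 0 ≤ t * d := mul_nonneg ht hd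
  have q2 : 0 ≤ 2 * K ^ 2 * t ^ 2 := by positivity
  have q3 : t * d ≤ t * (1 + K) := mul_le_mul_of_nonneg_left hd1 ht
  have hex : Real.exp (-c') ≤ 1 := by
    rw [← Real.exp_zero]
    exact Real.exp_le_exp.mpr (by linarith)
  refine ⟨cpt_sph h.sph hZ.lip hZ.odd ht hZ.bd htK, by linarith [h.nonneg], by linarith [h.le],
    h.meas.union (hA_meas C h.sph.lip hZ.lip c d), ?_, ?_⟩
  · filter_upwards [ae_cpt C h.sph hZ.lip ht hZ.bd htK, h.inA, hZ.inW] with o h3 h4 h5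
    rw [h3.2.1, h3.2.2]
    have hn : ‖at' C v o‖ = 1 := norm_at h.sph o
    have hb := abs_real_inner_le_norm (at' C v o) (at' C Z o)
    rw [hn, one_mul] at hb
    have hb2 := (abs_le.mp (hb.trans (hZ.bd (C.pt o)))).1
    exact KA_pt hΛ hE ht htK hn (hZ.bd (C.pt o)) h4 h5 (by linarith)
  · filter_upwards [ae_cpt C h.sph hZ.lip ht hZ.bd htK, h.out, hZ.inW] with o h3 h4 h5 ho
    rw [h3.2.1, h3.2.2]
    have hn : ‖at' C v o‖ = 1 := norm_at h.sph o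
    have ho1 : o ∉ A := fun hh => ho (Or.inl hh)
    have ho2 : ¬ d < Real.exp (-c) - inner ℝ (at' C v o) (at' C Z o) := fun hh => ho (Or.inr hh)
    exact KA_pt hΛ hE ht htK hn (hZ.bd (C.pt o)) (h4 ho1) h5 (not_lt.1 ho2)

/-- the constants of the second order error -/
def cA1 (V K E : ℝ) : ℝ := (8 + 64 * K + 120 * K ^ 2) * (8 * Real.pi + 2 * E * V)

/-- the constants of the second order error -/
def cA2 (V K E s L κ : ℝ) : ℝ :=
  (L * (8 + 8 * K ^ 2) + s * (4 + 62 * K + 120 * K ^ 2)) * (8 * Real.pi + 2 * E * V) + κ * (2 * K ^ 2)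

/-- the size of the step -/
def stA (V K E s L κ X ε : ℝ) : ℝ :=
  min 1 (min (1 / (2 * (K + 1))) (min ((2 * Real.pi - X) / (2 * cA1 V K E)) (ε / (4 * (cA2 V K E s L κ + 1)))))

theorem cA1_pos {V K E : ℝ} (hV : 0 ≤ V) (hK : 0 ≤ K) (hE : 0 ≤ E) : 0 < cA1 V K E := by
  have := Real.pi_pos
  unfold cA1
  positivity

theorem cA2_nonneg {V K E s L κ : ℝ} (hV : 0 ≤ V) (hK : 0 ≤ K) (hE : 0 ≤ E) (hs : 0 ≤ s) (hL : 0 ≤ L)
    (hκ : 0 ≤ κ) : 0 ≤ cA2 V K E s L κ := by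
  have := Real.pi_pos
  unfold cA2
  positivity

theorem stA_pos {V K E s L κ X ε : ℝ} (hV : 0 ≤ V) (hK : 0 ≤ K) (hE : 0 ≤ E) (hs : 0 ≤ s) (hL : 0 ≤ L)
    (hκ : 0 ≤ κ) (hX : X < 2 * Real.pi) (hε : 0 < ε) : 0 < stA V K E s L κ X ε := by
  have p1 := cA1_pos hV hK hE
  have p2 := cA2_nonneg hV hK hE hs hL hκ
  have p3 : 0 < 2 * Real.pi - X := by linarith
  unfold stA
  refine lt_min one_pos (lt_min (by positivity) (lt_min (by positivity) (by positivity)))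

variable [CompactSpace M]

/-- **near-minimisers of `∫ φ(ν) + κ c + κ' c' + β μ(A)`** and their first variation -/
theorem emk2 (C : Calc M γ) (hγ : Bd γ) (hR : RegAE C) {φ φ' : ℝ → ℝ} {s L : ℝ} (P : Pen φ φ' s L)
    {Λ E : ℝ} (hΛ : 0 ≤ Λ) (hE : 0 ≤ E) {κ κ' β c₀ : ℝ} (hκ : 0 ≤ κ) (hκ' : 0 ≤ κ') (hβ : 0 ≤ β)
    {U : Fin 3 → M → ℝ} (hU : KY C Λ E U (fun _ => c₀)) (hUJ : ∫ o, jac C U o ∂C.μ = 2 * Real.pi)
    {X : ℝ} (hUX : Ph C φ U < X) (hX : X < 2 * Real.pi) {K : ℝ} (hK : 0 ≤ K) {ε : ℝ} (hε : 0 < ε)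
    {V : ℝ} (hV : C.vol ≤ V) :
    ∃ (v : Fin 3 → M → ℝ) (c c' : ℝ) (A : Set Om), c₀ ≤ c ∧ KA C Λ E v c c' A ∧
      ∫ o, jac C v o ∂C.μ = 2 * Real.pi ∧
      Ph C φ v + κ * (c - c₀) + κ' * (c' - c₀) + β * C.μ.real A < X ∧
      ∀ (Z : Fin 3 → M → ℝ) (d : ℝ), TZ C Λ E K Z → 0 ≤ d → d ≤ 1 + K →
        β * C.μ.real (hA C v Z c d) ≤ stA V K E s L (κ + κ') X ε * (ε / 4) →
        -ε ≤ ∫ o, φ' (nuC C v o) * dnuC C v Z o ∂C.μ + κ * d + κ' * (1 + K) := by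
  have := C.fin
  have hpi := Real.pi_pos
  have hV0 : 0 ≤ C.vol := ENNReal.toReal_nonneg
  have hVV : 0 ≤ V := hV0.trans hV
  have hZ2 : ∀ Z : Fin 3 → M → ℝ, TZ C Λ E K Z → ∫ o, S2 C Z o ∂C.μ ≤ 2 * E * V := by
    intro Z hZ
    have h1 : ∀ᵐ o ∂C.μ, S2 C Z o ≤ 2 * E := by
      filter_upwards [hZ.inW] with o ho
      exact ho.s
    refine (integral_mono_ae (S2_int C hZ.lip) (integrable_const (2 * E)) h1).trans ?_
    rw [integral_const, smul_eq_mul, mul_comm]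
    exact mul_le_mul_of_nonneg_left hV (by positivity)
  have hs := P.s0
  have hL := P.L0
  set c1 := cA1 V K E with hc1
  set c2 := cA2 V K E s L (κ + κ') with hc2
  have p1 : 0 < c1 := cA1_pos hVV hK hE
  have p2 : 0 ≤ c2 := cA2_nonneg hVV hK hE hs hL (by linarith)
  have n1 : ∀ v : Fin 3 → M → ℝ, 0 ≤ Ph C φ v := fun v =>
    integral_nonneg fun o => (nuv_nonneg _ _ _).trans (P.ge _ (nuv_nonneg _ _ _))
  have hX0 : 0 ≤ X := (n1 U).trans hUX.le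
  -- the step
  set t := stA V K E s L (κ + κ') X ε with htdef
  have ht0 : 0 < t := stA_pos hVV hK hE hs hL (by linarith) hX hε
  have q1 : 0 < 2 * Real.pi - X := by linarith
  have m1 : t ≤ 1 := min_le_left _ _
  have m2 : t ≤ 1 / (2 * (K + 1)) := (min_le_right _ _).trans (min_le_left _ _)
  have m3 : t ≤ (2 * Real.pi - X) / (2 * c1) :=
    ((min_le_right _ _).trans (min_le_right _ _)).trans (min_le_left _ _)
  have m4 : t ≤ ε / (4 * (c2 + 1)) :=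
    ((min_le_right _ _).trans (min_le_right _ _)).trans (min_le_right _ _)
  have htK : t * K ≤ 1 / 2 := by
    rw [le_div_iff₀ (by positivity)] at m2
    nlinarith
  have htt : t * c1 < 2 * Real.pi - X := by
    rw [le_div_iff₀ (by positivity)] at m3
    nlinarith [mul_pos ht0 p1]
  have ht2 : t * c2 ≤ ε / 4 := by
    rw [le_div_iff₀ (by positivity)] at m4
    nlinarith
  -- the near-minimiser
  set F : Set ℝ := {r | ∃ (v : Fin 3 → M → ℝ) (c c' : ℝ) (A : Set Om), c₀ ≤ c ∧ KA C Λ E v c c' A ∧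
    ∫ o, jac C v o ∂C.μ = 2 * Real.pi ∧
    Ph C φ v + κ * (c - c₀) + κ' * (c' - c₀) + β * C.μ.real A = r} with hF
  have hU0 : KA C Λ E U c₀ c₀ ∅ :=
    ⟨hU.sph, hU.nonneg (γ 0), le_rfl, nullMeasurableSet_empty, hU.inW,
      hU.inW.mono fun o ho _ => ho⟩
  have hUr : Ph C φ U + κ * (c₀ - c₀) + κ' * (c₀ - c₀) + β * C.μ.real ∅ = Ph C φ U := by
    rw [measureReal_empty]
    ring
  have hne : F.Nonempty := ⟨_, U, c₀, c₀, ∅, le_rfl, hU0, hUJ, rfl⟩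
  have nn : ∀ (v : Fin 3 → M → ℝ) (c c' : ℝ) (A : Set Om), c₀ ≤ c → KA C Λ E v c c' A →
      0 ≤ κ * (c - c₀) ∧ 0 ≤ κ' * (c' - c₀) ∧ 0 ≤ β * C.μ.real A := by
    intro v c c' A hc hv
    have := hv.le
    exact ⟨mul_nonneg hκ (by linarith), mul_nonneg hκ' (by linarith), mul_nonneg hβ measureReal_nonneg⟩
  have hbd : BddBelow F := ⟨0, by
    rintro r ⟨v, c, c', A, hc, hv, -, rfl⟩
    obtain ⟨a1, a2, a3⟩ := nn v c c' A hc hv
    have := n1 v
    linarith⟩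
  have hpos : 0 < min (t * (ε / 4)) (X - Ph C φ U) := lt_min (by positivity) (by linarith)
  obtain ⟨r, ⟨v, c, c', A, hc, hv, hvJ, rfl⟩, hr⟩ := Real.lt_sInf_add_pos hne hpos
  have hUm : sInf F ≤ Ph C φ U := csInf_le hbd ⟨U, c₀, c₀, ∅, le_rfl, hU0, hUJ, hUr⟩
  obtain ⟨a1, a2, a3⟩ := nn v c c' A hc hv
  have hvX : Ph C φ v + κ * (c - c₀) + κ' * (c' - c₀) + β * C.μ.real A < X := by
    have := min_le_right (t * (ε / 4)) (X - Ph C φ U)
    linarith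
  refine ⟨v, c, c', A, hc, hv, hvJ, hvX, fun Z d hZ hd0 hd1 hθ => ?_⟩
  have hvX' : Ph C φ v < X := by linarith
  have hdeg := cpt_deg C hγ hR hv.sph hvJ hZ.lip hZ.odd ht0.le m1 hK hZ.bd htK
    ((nu_le_Ph C P hv.sph.lip).trans hvX'.le) hX (hZ2 Z hZ) htt
  have hst := hv.step hΛ hE hZ hd0 hd1 ht0.le htK
  have q1 : 0 ≤ t * d := mul_nonneg ht0.le hd0
  have q2 : 0 ≤ 2 * K ^ 2 * t ^ 2 := by positivity
  have h1 : sInf F ≤ Ph C φ (cpt t v Z) + κ * (c + t * d + 2 * K ^ 2 * t ^ 2 - c₀)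
      + κ' * (c' + t * (1 + K) + 2 * K ^ 2 * t ^ 2 - c₀) + β * C.μ.real (A ∪ hA C v Z c d) :=
    csInf_le hbd ⟨_, _, _, _, by linarith, hst, hdeg, rfl⟩
  have hun : β * C.μ.real (A ∪ hA C v Z c d) ≤ β * C.μ.real A + β * C.μ.real (hA C v Z c d) := by
    rw [← mul_add]
    exact mul_le_mul_of_nonneg_left (measureReal_union_le _ _) hβ
  have h2 := Ph_cpt C P hv.sph hZ.lip hZ.odd ht0.le m1 hZ.bd htK
  have h3 := min_le_left (t * (ε / 4)) (X - Ph C φ U)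
  have h4 := int_S2 C hv.sph
  rw [hvJ] at h4
  have h5 := nu_le_Ph C P hv.sph.lip
  set I := ∫ o, φ' (nuC C v o) * dnuC C v Z o ∂C.μ with hI
  set B := ∫ o, S2 C v o ∂C.μ + ∫ o, S2 C Z o ∂C.μ with hB
  have k1 : (L * (8 + 8 * K ^ 2) + s * (4 + 62 * K + 120 * K ^ 2)) * B ≤
      (L * (8 + 8 * K ^ 2) + s * (4 + 62 * K + 120 * K ^ 2)) * (8 * Real.pi + 2 * E * V) := by
    refine mul_le_mul_of_nonneg_left ?_ (by positivity)
    have := hZ2 Z hZ
    rw [hB]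
    linarith
  have h7 : Ph C φ (cpt t v Z) + κ * (c + t * d + 2 * K ^ 2 * t ^ 2 - c₀)
      + κ' * (c' + t * (1 + K) + 2 * K ^ 2 * t ^ 2 - c₀) ≤
      Ph C φ v + κ * (c - c₀) + κ' * (c' - c₀) + t * (I + κ * d + κ' * (1 + K)) + t ^ 2 * c2 := by
    have k3 := mul_le_mul_of_nonneg_left k1 (sq_nonneg t)
    have e : t ^ 2 * c2 = t ^ 2 * ((L * (8 + 8 * K ^ 2) + s * (4 + 62 * K + 120 * K ^ 2)) *
      (8 * Real.pi + 2 * E * V)) + (κ + κ') * (2 * K ^ 2 * t ^ 2) := by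
      rw [hc2, cA2]
      ring
    rw [e]
    linarith
  have h8 : t ^ 2 * c2 ≤ t * (ε / 4) := by
    have : t ^ 2 * c2 = t * (t * c2) := by ring
    rw [this]
    exact mul_le_mul_of_nonneg_left ht2 ht0.le
  have h9 : 0 ≤ t * (I + κ * d + κ' * (1 + K) + ε) := by
    have : t * (I + κ * d + κ' * (1 + K) + ε) = t * (I + κ * d + κ' * (1 + K)) + t * (ε / 4) + t * (ε / 4)
      + t * (ε / 4) + t * (ε / 4) := by ring
    have h10 : 0 ≤ t * (ε / 4) := by positivity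
    rw [this]
    linarith
  have h10 := nonneg_of_mul_nonneg_right h9 ht0
  linarith

end Pool.Agent.FPX
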