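import Mathlib
import Pool.Agent.FPX.EMK2

/-
EMK3 (helper58): scheme K with an exceptional set and a general cost `G(c)` of the bound `e^c` instead of
`κ (c - c₀)`.
-/

open MeasureTheory Set Filter Topology
open scoped ENNReal NNReal

noncomputable section

namespace Pool.Agent.FPX

open Pool.Agent.EWD

/-- a cost function of the bound -/
structure Cost (G G' : ℝ → ℝ) (c₀ κM LG : ℝ) : Prop where
  zero : G c₀ = 0
  nonneg : ∀ c, c₀ ≤ c → 0 ≤ G c
  nonneg' : ∀ c, c₀ ≤ c → 0 ≤ G' c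
  le' : ∀ c, c₀ ≤ c → G' c ≤ κM
  L0 : 0 ≤ LG
  step : ∀ c x, c₀ ≤ c → 0 ≤ x → G (c + x) ≤ G c + G' c * x + LG * x ^ 2

theorem Cost.M0 {G G' : ℝ → ℝ} {c₀ κM LG : ℝ} (h : Cost G G' c₀ κM LG) : 0 ≤ κM :=
  (h.nonneg' c₀ le_rfl).trans (h.le' c₀ le_rfl)

/-- the linear cost -/
theorem cost_lin {κ : ℝ} (hκ : 0 ≤ κ) (c₀ : ℝ) : Cost (fun c => κ * (c - c₀)) (fun _ => κ) c₀ κ 0 where
  zero := by ring
  nonneg := fun c hc => mul_nonneg hκ (by linarith)
  nonneg' := fun _ _ => hκ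
  le' := fun _ _ => le_rfl
  L0 := le_rfl
  step := fun c x _ _ => le_of_eq (by ring)

/-- a cost function from a derivative: continuous, nonnegative, bounded and Lipschitz from above -/
theorem cost_of_deriv {G G' : ℝ → ℝ} {c₀ κM LG : ℝ} (h0 : G c₀ = 0)
    (hd : ∀ c, c₀ ≤ c → HasDerivAt G (G' c) c) (hn : ∀ c, c₀ ≤ c → 0 ≤ G' c)
    (hle : ∀ c, c₀ ≤ c → G' c ≤ κM) (hL : 0 ≤ LG)
    (hlip : ∀ c x, c₀ ≤ c → 0 ≤ x → G' (c + x) ≤ G' c + LG * x) : Cost G G' c₀ κM LG where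
  zero := h0
  nonneg := by
    intro c hc
    have hm : MonotoneOn G (Set.Ici c₀) := by
      refine monotoneOn_of_deriv_nonneg (convex_Ici c₀)
        (fun x hx => (hd x hx).continuousAt.continuousWithinAt) ?_ ?_
      · intro x hx
        rw [interior_Ici] at hx
        exact (hd x (le_of_lt hx)).differentiableAt.differentiableWithinAt
      · intro x hx
        rw [interior_Ici] at hx
        rw [(hd x (le_of_lt hx)).deriv]
        exact hn x (le_of_lt hx)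
    have := hm (Set.mem_Ici.2 le_rfl) (Set.mem_Ici.2 hc) hc
    rw [h0] at this
    exact this
  nonneg' := hn
  le' := hle
  L0 := hL
  step := by
    intro c x hc hx
    rcases eq_or_lt_of_le hx with h | h
    · rw [← h]
      simp
    · have hc' : c < c + x := by linarith
      obtain ⟨y, hy, he⟩ := exists_hasDerivAt_eq_slope G G' hc'
        (fun z hz => (hd z (hc.trans hz.1)).continuousAt.continuousWithinAt)
        (fun z hz => hd z (hc.trans hz.1.le))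
      have h1 : G' y ≤ G' c + LG * (y - c) := by
        have := hlip c (y - c) hc (by linarith [hy.1])
        rw [add_sub_cancel] at this
        exact this
      have h2 : LG * (y - c) ≤ LG * x := mul_le_mul_of_nonneg_left (by linarith [hy.2]) hL
      have h3 : G (c + x) - G c = G' y * x := by
        rw [he, add_sub_cancel_left]
        field_simp
      have h4 : G' y * x ≤ (G' c + LG * x) * x := mul_le_mul_of_nonneg_right (by linarith) hx
      have h5 : (G' c + LG * x) * x = G' c * x + LG * x ^ 2 := by ring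
      linarith

variable {M : Type} [MetricSpace M] {γ : ℝ → M}

variable [CompactSpace M]

/-- the effective constant of the second order error of the cost -/
def kEff (K κM κ' LG : ℝ) : ℝ := κM + κ' + LG * (1 + K + 2 * K ^ 2) ^ 2 / (2 * K ^ 2)

omit [CompactSpace M] [MetricSpace M] in
theorem kEff_nonneg {K κM κ' LG : ℝ} (hM : 0 ≤ κM) (hκ' : 0 ≤ κ') (hL : 0 ≤ LG) :
    0 ≤ kEff K κM κ' LG := by
  unfold kEff
  positivity

/-- **near-minimisers of `∫ φ(ν) + G(c) + κ' (c' - c₀) + β μ(A)`** and their first variation -/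
theorem emk3 (C : Calc M γ) (hγ : Bd γ) (hR : RegAE C) {φ φ' : ℝ → ℝ} {s L : ℝ} (P : Pen φ φ' s L)
    {Λ E : ℝ} (hΛ : 0 ≤ Λ) (hE : 0 ≤ E) {κ' β c₀ : ℝ} {G G' : ℝ → ℝ} {κM LG : ℝ}
    (hG : Cost G G' c₀ κM LG) (hκ' : 0 ≤ κ') (hβ : 0 ≤ β)
    {U : Fin 3 → M → ℝ} (hU : KY C Λ E U (fun _ => c₀)) (hUJ : ∫ o, jac C U o ∂C.μ = 2 * Real.pi)
    {X : ℝ} (hUX : Ph C φ U < X) (hX : X < 2 * Real.pi) {K : ℝ} (hK : 0 < K) {ε : ℝ} (hε : 0 < ε)
    {V : ℝ} (hV : C.vol ≤ V) :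
    ∃ (v : Fin 3 → M → ℝ) (c c' : ℝ) (A : Set Om), c₀ ≤ c ∧ KA C Λ E v c c' A ∧
      ∫ o, jac C v o ∂C.μ = 2 * Real.pi ∧
      Ph C φ v + G c + κ' * (c' - c₀) + β * C.μ.real A < X ∧
      ∀ (Z : Fin 3 → M → ℝ) (d : ℝ), TZ C Λ E K Z → 0 ≤ d → d ≤ 1 + K →
        β * C.μ.real (hA C v Z c d) ≤ stA V K E s L (kEff K κM κ' LG) X ε * (ε / 4) →
        -ε ≤ ∫ o, φ' (nuC C v o) * dnuC C v Z o ∂C.μ + G' c * d + κ' * (1 + K) := by
  have := C.fin
  have hpi := Real.pi_pos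
  have hV0 : 0 ≤ C.vol := ENNReal.toReal_nonneg
  have hVV : 0 ≤ V := hV0.trans hV
  have hκM := hG.M0
  have hLG := hG.L0
  have hke : 0 ≤ kEff K κM κ' LG := kEff_nonneg hκM hκ' hLG
  have hZ2 : ∀ Z : Fin 3 → M → ℝ, TZ C Λ E K Z → ∫ o, S2 C Z o ∂C.μ ≤ 2 * E * V := by
    intro Z hZ
    have h1 : ∀ᵐ o ∂C.μ, S2 C Z o ≤ 2 * E := by
      filter_upwards [hZ.inW] with o ho
      exact ho.s
    refine (integral_mono_ae (S2_int C hZ.lip) (integrable_const (2 * E)) h1).trans ?_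
    rw [integral_const, smul_eq_mul, mul_comm]
    exact mul_le_mul_of_nonneg_left hV (by positivity)
  have hs := P.s0
  have hL := P.L0
  set c1 := cA1 V K E with hc1
  set c2 := cA2 V K E s L (kEff K κM κ' LG) with hc2
  have p1 : 0 < c1 := cA1_pos hVV hK.le hE
  have p2 : 0 ≤ c2 := cA2_nonneg hVV hK.le hE hs hL hke
  have n1 : ∀ v : Fin 3 → M → ℝ, 0 ≤ Ph C φ v := fun v =>
    integral_nonneg fun o => (nuv_nonneg _ _ _).trans (P.ge _ (nuv_nonneg _ _ _))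
  have hX0 : 0 ≤ X := (n1 U).trans hUX.le
  -- the step
  set t := stA V K E s L (kEff K κM κ' LG) X ε with htdef
  have ht0 : 0 < t := stA_pos hVV hK.le hE hs hL hke hX hε
  have q1 : 0 < 2 * Real.pi - X := by linarith
  have m1 : t ≤ 1 := min_le_left _ _
  have m2 : t ≤ 1 / (2 * (K + 1)) := (min_le_right _ _).trans (min_le_left _ _)
  have m3 : t ≤ (2 * Real.pi - X) / (2 * c1) :=
    ((min_le_right _ _).trans (min_le_right _ _)).trans (min_le_left _ _)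
  have m4 : t ≤ ε / (4 * (c2 + 1)) :=
    ((min_le_right _ _).trans (min_le_right _ _)).trans (min_le_right _ _)
  have htK : t * K ≤ 1 / 2 := by
    rw [le_div_iff₀ (by positivity)] at m2
    nlinarith
  have htt : t * c1 < 2 * Real.pi - X := by
    rw [le_div_iff₀ (by positivity)] at m3
    nlinarith [mul_pos ht0 p1]
  have ht2 : t * c2 ≤ ε / 4 := by
    rw [le_div_iff₀ (by positivity)] at m4
    nlinarith
  -- the near-minimiser
  set F : Set ℝ := {r | ∃ (v : Fin 3 → M → ℝ) (c c' : ℝ) (A : Set Om), c₀ ≤ c ∧ KA C Λ E v c c' A ∧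
    ∫ o, jac C v o ∂C.μ = 2 * Real.pi ∧
    Ph C φ v + G c + κ' * (c' - c₀) + β * C.μ.real A = r} with hF
  have hU0 : KA C Λ E U c₀ c₀ ∅ :=
    ⟨hU.sph, hU.nonneg (γ 0), le_rfl, nullMeasurableSet_empty, hU.inW,
      hU.inW.mono fun o ho _ => ho⟩
  have hUr : Ph C φ U + G c₀ + κ' * (c₀ - c₀) + β * C.μ.real ∅ = Ph C φ U := by
    rw [measureReal_empty, hG.zero]
    ring
  have hne : F.Nonempty := ⟨_, U, c₀, c₀, ∅, le_rfl, hU0, hUJ, rfl⟩
  have nn : ∀ (v : Fin 3 → M → ℝ) (c c' : ℝ) (A : Set Om), c₀ ≤ c → KA C Λ E v c c' A →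
      0 ≤ G c ∧ 0 ≤ κ' * (c' - c₀) ∧ 0 ≤ β * C.μ.real A := by
    intro v c c' A hc hv
    have := hv.le
    exact ⟨hG.nonneg c hc, mul_nonneg hκ' (by linarith), mul_nonneg hβ measureReal_nonneg⟩
  have hbd : BddBelow F := ⟨0, by
    rintro r ⟨v, c, c', A, hc, hv, -, rfl⟩
    obtain ⟨a1, a2, a3⟩ := nn v c c' A hc hv
    have := n1 v
    linarith⟩
  have hpos : 0 < min (t * (ε / 4)) (X - Ph C φ U) := lt_min (by positivity) (by linarith)
  obtain ⟨r, ⟨v, c, c', A, hc, hv, hvJ, rfl⟩, hr⟩ := Real.lt_sInf_add_pos hne hpos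
  have hUm : sInf F ≤ Ph C φ U := csInf_le hbd ⟨U, c₀, c₀, ∅, le_rfl, hU0, hUJ, hUr⟩
  obtain ⟨a1, a2, a3⟩ := nn v c c' A hc hv
  have hvX : Ph C φ v + G c + κ' * (c' - c₀) + β * C.μ.real A < X := by
    have := min_le_right (t * (ε / 4)) (X - Ph C φ U)
    linarith
  refine ⟨v, c, c', A, hc, hv, hvJ, hvX, fun Z d hZ hd0 hd1 hθ => ?_⟩
  have hvX' : Ph C φ v < X := by linarith
  have hdeg := cpt_deg C hγ hR hv.sph hvJ hZ.lip hZ.odd ht0.le m1 hK.le hZ.bd htK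
    ((nu_le_Ph C P hv.sph.lip).trans hvX'.le) hX (hZ2 Z hZ) htt
  have hst := hv.step hΛ hE hZ hd0 hd1 ht0.le htK
  have q1 : 0 ≤ t * d := mul_nonneg ht0.le hd0
  have q2 : 0 ≤ 2 * K ^ 2 * t ^ 2 := by positivity
  have hGs : G (c + t * d + 2 * K ^ 2 * t ^ 2) ≤
      G c + G' c * (t * d) + t ^ 2 * (κM * (2 * K ^ 2) + LG * (1 + K + 2 * K ^ 2) ^ 2) := by
    have h1 := hG.step c (t * d + 2 * K ^ 2 * t ^ 2) hc (by linarith)
    rw [← add_assoc] at h1
    have h2 : G' c * (2 * K ^ 2 * t ^ 2) ≤ κM * (2 * K ^ 2 * t ^ 2) :=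
      mul_le_mul_of_nonneg_right (hG.le' c hc) q2
    have h3 : t * d + 2 * K ^ 2 * t ^ 2 ≤ t * (1 + K + 2 * K ^ 2) := by
      have h4 : t * d ≤ t * (1 + K) := mul_le_mul_of_nonneg_left hd1 ht0.le
      have h5 : 2 * K ^ 2 * t ^ 2 ≤ 2 * K ^ 2 * t := by
        refine mul_le_mul_of_nonneg_left ?_ (by positivity)
        nlinarith
      linarith
    have h4 : (t * d + 2 * K ^ 2 * t ^ 2) ^ 2 ≤ (t * (1 + K + 2 * K ^ 2)) ^ 2 :=
      pow_le_pow_left₀ (by linarith) h3 2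
    have h5 := mul_le_mul_of_nonneg_left h4 hLG
    have e : LG * (t * (1 + K + 2 * K ^ 2)) ^ 2 = t ^ 2 * (LG * (1 + K + 2 * K ^ 2) ^ 2) := by ring
    rw [e] at h5
    have e2 : G' c * (t * d + 2 * K ^ 2 * t ^ 2) = G' c * (t * d) + G' c * (2 * K ^ 2 * t ^ 2) := by ring
    rw [e2] at h1
    have e3 : κM * (2 * K ^ 2 * t ^ 2) = t ^ 2 * (κM * (2 * K ^ 2)) := by ring
    rw [e3] at h2
    linarith
  have h1 : sInf F ≤ Ph C φ (cpt t v Z) + G (c + t * d + 2 * K ^ 2 * t ^ 2)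
      + κ' * (c' + t * (1 + K) + 2 * K ^ 2 * t ^ 2 - c₀) + β * C.μ.real (A ∪ hA C v Z c d) :=
    csInf_le hbd ⟨_, _, _, _, by linarith, hst, hdeg, rfl⟩
  have hun : β * C.μ.real (A ∪ hA C v Z c d) ≤ β * C.μ.real A + β * C.μ.real (hA C v Z c d) := by
    rw [← mul_add]
    exact mul_le_mul_of_nonneg_left (measureReal_union_le _ _) hβ
  have h2 := Ph_cpt C P hv.sph hZ.lip hZ.odd ht0.le m1 hZ.bd htK
  have h3 := min_le_left (t * (ε / 4)) (X - Ph C φ U)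
  have h4 := int_S2 C hv.sph
  rw [hvJ] at h4
  have h5 := nu_le_Ph C P hv.sph.lip
  set I := ∫ o, φ' (nuC C v o) * dnuC C v Z o ∂C.μ with hI
  set B := ∫ o, S2 C v o ∂C.μ + ∫ o, S2 C Z o ∂C.μ with hB
  have k1 : (L * (8 + 8 * K ^ 2) + s * (4 + 62 * K + 120 * K ^ 2)) * B ≤
      (L * (8 + 8 * K ^ 2) + s * (4 + 62 * K + 120 * K ^ 2)) * (8 * Real.pi + 2 * E * V) := by
    refine mul_le_mul_of_nonneg_left ?_ (by positivity)
    have := hZ2 Z hZ
    rw [hB]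
    linarith
  have ek : kEff K κM κ' LG * (2 * K ^ 2) =
      κM * (2 * K ^ 2) + κ' * (2 * K ^ 2) + LG * (1 + K + 2 * K ^ 2) ^ 2 := by
    unfold kEff
    field_simp
  have h7 : Ph C φ (cpt t v Z) + G (c + t * d + 2 * K ^ 2 * t ^ 2)
      + κ' * (c' + t * (1 + K) + 2 * K ^ 2 * t ^ 2 - c₀) ≤
      Ph C φ v + G c + κ' * (c' - c₀) + t * (I + G' c * d + κ' * (1 + K)) + t ^ 2 * c2 := by
    have k3 := mul_le_mul_of_nonneg_left k1 (sq_nonneg t)
    have e : t ^ 2 * c2 = t ^ 2 * ((L * (8 + 8 * K ^ 2) + s * (4 + 62 * K + 120 * K ^ 2)) *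
      (8 * Real.pi + 2 * E * V)) + (t ^ 2 * (κM * (2 * K ^ 2) + LG * (1 + K + 2 * K ^ 2) ^ 2)
        + κ' * (2 * K ^ 2 * t ^ 2)) := by
      rw [hc2, cA2, ek]
      ring
    rw [e]
    linarith
  have h8 : t ^ 2 * c2 ≤ t * (ε / 4) := by
    have : t ^ 2 * c2 = t * (t * c2) := by ring
    rw [this]
    exact mul_le_mul_of_nonneg_left ht2 ht0.le
  have h9 : 0 ≤ t * (I + G' c * d + κ' * (1 + K) + ε) := by
    have : t * (I + G' c * d + κ' * (1 + K) + ε) = t * (I + G' c * d + κ' * (1 + K)) + t * (ε / 4)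
      + t * (ε / 4) + t * (ε / 4) + t * (ε / 4) := by ring
    have h10 : 0 ≤ t * (ε / 4) := by positivity
    rw [this]
    linarith
  have h10 := nonneg_of_mul_nonneg_right h9 ht0
  linarith

end Pool.Agent.FPX
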