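import Mathlib
import Pool.Agent.FPX.EMK3


/-
KCELL (helper99): a piecewise linear nondecreasing derivative `K'` with finitely many nodes as a cost
function, and the explicit list of cells for the closing numerics.

Nodes: a start value `k` of the derivative and a list of pairs `(h, k')`: the length `h > 0` of the cell and
the value `k' ≥ k` at its right end, constant after the last node.
-/

open Set Filter Topology

noncomputable section

namespace Pool.Agent.FPX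

/-- the positive part -/
def pkP (x : ℝ) : ℝ := max x 0

theorem pkP_nonneg (x : ℝ) : 0 ≤ pkP x := le_max_right _ _

theorem pkP_of_nonneg {x : ℝ} (h : 0 ≤ x) : pkP x = x := max_eq_left h

theorem pkP_of_nonpos {x : ℝ} (h : x ≤ 0) : pkP x = 0 := max_eq_right h

theorem pkP_mono {x y : ℝ} (h : x ≤ y) : pkP x ≤ pkP y := max_le_max_right 0 h

theorem pkP_sq_hasDerivAt (x : ℝ) : HasDerivAt (fun y => pkP y ^ 2 / 2) (pkP x) x := by
  rcases lt_trichotomy x 0 with h | h | h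
  · have h1 : (fun y => pkP y ^ 2 / 2) =ᶠ[𝓝 x] fun _ => (0 : ℝ) := by
      filter_upwards [Iio_mem_nhds h] with y hy
      rw [pkP_of_nonpos (le_of_lt hy)]
      norm_num
    rw [pkP_of_nonpos h.le]
    exact (hasDerivAt_const x (0 : ℝ)).congr_of_eventuallyEq h1
  · subst h
    rw [pkP_of_nonneg le_rfl]
    rw [hasDerivAt_iff_isLittleO]
    have h2 : (fun x' : ℝ => pkP x' ^ 2 / 2 - pkP 0 ^ 2 / 2 - (x' - 0) • (0 : ℝ)) =O[𝓝 0]
        fun x' => x' ^ 2 := by
      refine Asymptotics.IsBigO.of_bound 1 (Filter.Eventually.of_forall fun y => ?_)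
      rw [pkP_of_nonneg (le_refl (0 : ℝ))]
      rcases le_total 0 y with hy | hy
      · rw [pkP_of_nonneg hy]
        simp only [smul_zero, sub_zero, Real.norm_eq_abs, one_mul]
        rw [abs_le, abs_of_nonneg (sq_nonneg y)]
        constructor <;> nlinarith [sq_nonneg y]
      · rw [pkP_of_nonpos hy]
        simp [sq_nonneg]
    have h3 : (fun x' : ℝ => x' ^ 2) =o[𝓝 0] fun x' => x' - 0 := by
      simpa using (Asymptotics.isLittleO_pow_id (𝕜 := ℝ) (n := 2) (by norm_num))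
    exact h2.trans_isLittleO h3
  · have h1 : (fun y => pkP y ^ 2 / 2) =ᶠ[𝓝 x] fun y => y ^ 2 / 2 := by
      filter_upwards [Ioi_mem_nhds h] with y hy
      rw [pkP_of_nonneg (le_of_lt hy)]
    rw [pkP_of_nonneg h.le]
    have h2 : HasDerivAt (fun y : ℝ => y ^ 2 / 2) x x := by
      have := (hasDerivAt_pow 2 x).div_const 2
      simpa using this
    exact h2.congr_of_eventuallyEq h1

/-- increment of the derivative over `[0, x]` -/
def pkI : ℝ → List (ℝ × ℝ) → ℝ → ℝ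
  | _, [], _ => 0
  | k, (h, k') :: l, x => (k' - k) / h * (pkP x - pkP (x - h)) + pkI k' l (x - h)

/-- its antiderivative -/
def pkJ : ℝ → List (ℝ × ℝ) → ℝ → ℝ
  | _, [], _ => 0
  | k, (h, k') :: l, x => (k' - k) / h * (pkP x ^ 2 / 2 - pkP (x - h) ^ 2 / 2) + pkJ k' l (x - h)

/-- the nodes are admissible -/
def pkOk : ℝ → List (ℝ × ℝ) → Prop
  | _, [] => True
  | k, (h, k') :: l => 0 < h ∧ k ≤ k' ∧ pkOk k' l

/-- the last value of the derivative -/
def pkLast : ℝ → List (ℝ × ℝ) → ℝ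
  | k, [] => k
  | _, (_, k') :: l => pkLast k' l

/-- the length of the list of cells -/
def pkLen : List (ℝ × ℝ) → ℝ
  | [] => 0
  | (h, _) :: l => h + pkLen l

/-- the value of the cost at the last node -/
def pkVal : ℝ → ℝ → List (ℝ × ℝ) → ℝ
  | g, _, [] => g
  | g, k, (h, k') :: l => pkVal (g + (k + k') / 2 * h) k' l

/-- the sum of the slopes -/
def pkSlope : ℝ → List (ℝ × ℝ) → ℝ
  | _, [] => 0
  | k, (h, k') :: l => (k' - k) / h + pkSlope k' l

/-- the cells `(A, B, g, k)`: left end, right end, value of the cost at the left end, value of the derivative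
at the right end -/
def pkCells : ℝ → ℝ → ℝ → List (ℝ × ℝ) → List (ℝ × ℝ × ℝ × ℝ)
  | _, _, _, [] => []
  | a, g, k, (h, k') :: l => (a, a + h, g, k') :: pkCells (a + h) (g + (k + k') / 2 * h) k' l

/-- the derivative -/
def pkD (c₀ k₀ : ℝ) (l : List (ℝ × ℝ)) (c : ℝ) : ℝ := k₀ + pkI k₀ l (c - c₀)

/-- the cost -/
def pkG (c₀ k₀ : ℝ) (l : List (ℝ × ℝ)) (c : ℝ) : ℝ := k₀ * (c - c₀) + pkJ k₀ l (c - c₀)

theorem pkI_of_nonpos : ∀ (l : List (ℝ × ℝ)) (k : ℝ) {x : ℝ}, pkOk k l → x ≤ 0 → pkI k l x = 0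
  | [], _, _, _, _ => rfl
  | (h, k') :: l, k, x, ho, hx => by
    obtain ⟨h1, _, h3⟩ := ho
    simp only [pkI]
    rw [pkI_of_nonpos l k' h3 (by linarith), pkP_of_nonpos hx, pkP_of_nonpos (by linarith)]
    ring

theorem pkJ_of_nonpos : ∀ (l : List (ℝ × ℝ)) (k : ℝ) {x : ℝ}, pkOk k l → x ≤ 0 → pkJ k l x = 0
  | [], _, _, _, _ => rfl
  | (h, k') :: l, k, x, ho, hx => by
    obtain ⟨h1, _, h3⟩ := ho
    simp only [pkJ]
    rw [pkJ_of_nonpos l k' h3 (by linarith), pkP_of_nonpos hx, pkP_of_nonpos (by linarith)]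
    ring

theorem pkJ_hasDerivAt : ∀ (l : List (ℝ × ℝ)) (k x : ℝ), HasDerivAt (pkJ k l) (pkI k l x) x
  | [], _, x => hasDerivAt_const x (0 : ℝ)
  | (h, k') :: l, k, x => by
    have h1 : HasDerivAt (fun y => pkP (y - h) ^ 2 / 2) (pkP (x - h)) x :=
      HasDerivAt.comp_sub_const x h (pkP_sq_hasDerivAt (x - h))
    have h2 : HasDerivAt (fun y => pkJ k' l (y - h)) (pkI k' l (x - h)) x :=
      HasDerivAt.comp_sub_const x h (pkJ_hasDerivAt l k' (x - h))
    have h3 := (((pkP_sq_hasDerivAt x).sub h1).const_mul ((k' - k) / h)).add h2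
    exact h3

theorem pkI_nonneg : ∀ (l : List (ℝ × ℝ)) (k x : ℝ), pkOk k l → 0 ≤ pkI k l x
  | [], _, _, _ => le_rfl
  | (h, k') :: l, k, x, ho => by
    obtain ⟨h1, h2, h3⟩ := ho
    have h4 : 0 ≤ pkP x - pkP (x - h) := sub_nonneg.2 (pkP_mono (by linarith))
    have h5 : 0 ≤ (k' - k) / h := div_nonneg (by linarith) h1.le
    exact add_nonneg (mul_nonneg h5 h4) (pkI_nonneg l k' (x - h) h3)

theorem pkSlope_nonneg : ∀ (l : List (ℝ × ℝ)) (k : ℝ), pkOk k l → 0 ≤ pkSlope k l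
  | [], _, _ => le_rfl
  | (h, k') :: l, k, ho => by
    obtain ⟨h1, h2, h3⟩ := ho
    exact add_nonneg (div_nonneg (by linarith) h1.le) (pkSlope_nonneg l k' h3)

theorem pkI_lip : ∀ (l : List (ℝ × ℝ)) (k : ℝ) {x y : ℝ}, pkOk k l → 0 ≤ y →
    pkI k l (x + y) ≤ pkI k l x + pkSlope k l * y
  | [], _, _, _, _, _ => by simp [pkI, pkSlope]
  | (h, k') :: l, k, x, y, ho, hy => by
    obtain ⟨h1, h2, h3⟩ := ho
    have h5 : 0 ≤ (k' - k) / h := div_nonneg (by linarith) h1.le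
    have h6 := pkI_lip l k' (x := x - h) h3 hy
    have h7 : pkP (x + y) - pkP (x + y - h) ≤ pkP x - pkP (x - h) + y := by
      unfold pkP
      rcases le_total x 0 with a | a <;> rcases le_total (x + y) 0 with b | b <;>
        rcases le_total (x - h) 0 with c | c <;> rcases le_total (x + y - h) 0 with d | d <;>
        simp only [max_eq_left, max_eq_right, a, b, c, d] <;> linarith
    have h8 := mul_le_mul_of_nonneg_left h7 h5
    have e : x + y - h = x - h + y := by ring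
    simp only [pkI, pkSlope]
    rw [e] at h8 ⊢
    linarith

theorem pkI_le : ∀ (l : List (ℝ × ℝ)) (k x : ℝ), pkOk k l → k + pkI k l x ≤ pkLast k l
  | [], k, _, _ => by simp [pkI, pkLast]
  | (h, k') :: l, k, x, ho => by
    obtain ⟨h1, h2, h3⟩ := ho
    have h4 := pkI_le l k' (x - h) h3
    have h7 : pkP x - pkP (x - h) ≤ h := by
      unfold pkP
      rcases le_total x 0 with a | a <;> rcases le_total (x - h) 0 with b | b <;>
        simp only [max_eq_left, max_eq_right, a, b] <;> linarith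
    have h5 : 0 ≤ (k' - k) / h := div_nonneg (by linarith) h1.le
    have h8 := mul_le_mul_of_nonneg_left h7 h5
    have e : (k' - k) / h * h = k' - k := by field_simp
    simp only [pkI, pkLast]
    linarith

/-- the first cell -/
theorem pkI_cell {h k' : ℝ} {l : List (ℝ × ℝ)} {k x : ℝ} (ho : pkOk k ((h, k') :: l)) (hx : 0 ≤ x)
    (hxh : x ≤ h) : k + pkI k ((h, k') :: l) x ≤ k' := by
  obtain ⟨h1, h2, h3⟩ := ho
  simp only [pkI]
  rw [pkI_of_nonpos l k' h3 (by linarith), pkP_of_nonneg hx, pkP_of_nonpos (by linarith)]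
  have h5 : 0 ≤ (k' - k) / h := div_nonneg (by linarith) h1.le
  have h8 := mul_le_mul_of_nonneg_left hxh h5
  have e : (k' - k) / h * h = k' - k := by field_simp
  linarith

/-- the remaining cells -/
theorem pkI_succ {h k' : ℝ} {l : List (ℝ × ℝ)} {k x : ℝ} (ho : pkOk k ((h, k') :: l))
    (hxh : h ≤ x) : k + pkI k ((h, k') :: l) x = k' + pkI k' l (x - h) := by
  obtain ⟨h1, h2, h3⟩ := ho
  simp only [pkI]
  rw [pkP_of_nonneg (show 0 ≤ x by linarith), pkP_of_nonneg (show 0 ≤ x - h by linarith)]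
  field_simp
  ring

theorem pkJ_succ {h k' : ℝ} {l : List (ℝ × ℝ)} {k x : ℝ} (ho : pkOk k ((h, k') :: l))
    (hxh : h ≤ x) : k * x + pkJ k ((h, k') :: l) x =
      (k + k') / 2 * h + (k' * (x - h) + pkJ k' l (x - h)) := by
  obtain ⟨h1, h2, h3⟩ := ho
  simp only [pkJ]
  rw [pkP_of_nonneg (show 0 ≤ x by linarith), pkP_of_nonneg (show 0 ≤ x - h by linarith)]
  field_simp
  ring

theorem pkJ_nonneg : ∀ (l : List (ℝ × ℝ)) (k x : ℝ), pkOk k l → 0 ≤ pkJ k l x
  | [], _, _, _ => le_rfl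
  | (h, k') :: l, k, x, ho => by
    obtain ⟨h1, h2, h3⟩ := ho
    have h4 : 0 ≤ pkP x ^ 2 / 2 - pkP (x - h) ^ 2 / 2 := by
      have := pow_le_pow_left₀ (pkP_nonneg (x - h)) (pkP_mono (show x - h ≤ x by linarith)) 2
      linarith
    have h5 : 0 ≤ (k' - k) / h := div_nonneg (by linarith) h1.le
    exact add_nonneg (mul_nonneg h5 h4) (pkJ_nonneg l k' (x - h) h3)

/-- **location of `c`**: either `c` is in one of the cells or the cost is at least the value at the last node -/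
theorem pk_locate : ∀ (l : List (ℝ × ℝ)) (a g k : ℝ) {c : ℝ}, pkOk k l → 0 ≤ k → a ≤ c →
    (∃ q ∈ pkCells a g k l, q.1 ≤ c ∧ c ≤ q.2.1 ∧ q.2.2.1 ≤ g + pkG a k l c ∧ pkD a k l c ≤ q.2.2.2) ∨
      (a + pkLen l ≤ c ∧ pkVal g k l ≤ g + pkG a k l c)
  | [], a, g, k, c, _, hk, hc => by
    right
    simp only [pkVal, pkG, pkJ, pkLen]
    exact ⟨by linarith, by nlinarith⟩
  | (h, k') :: l, a, g, k, c, ho, hk, hc => by
    have ho' := ho
    obtain ⟨h1, h2, h3⟩ := ho'
    rcases le_total c (a + h) with hch | hch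
    · left
      refine ⟨(a, a + h, g, k'), by simp [pkCells], hc, hch, ?_, ?_⟩
      · have h4 := pkJ_nonneg _ _ (c - a) ho
        have h5 : 0 ≤ k * (c - a) := mul_nonneg hk (by linarith)
        simp only [pkG]
        linarith
      · exact pkI_cell ho (by linarith) (by linarith)
    · have h4 := pk_locate l (a + h) (g + (k + k') / 2 * h) k' h3 (hk.trans h2) hch
      have e1 : pkD a k ((h, k') :: l) c = pkD (a + h) k' l c := by
        have := pkI_succ ho (x := c - a) (by linarith)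
        simp only [pkD]
        rw [this, show c - (a + h) = c - a - h by ring]
      have e2 : g + pkG a k ((h, k') :: l) c = g + (k + k') / 2 * h + pkG (a + h) k' l c := by
        have := pkJ_succ ho (x := c - a) (by linarith)
        simp only [pkG]
        rw [this, show c - (a + h) = c - a - h by ring]
        ring
      rcases h4 with ⟨q, hq, q1, q2, q3, q4⟩ | ⟨q1, q2⟩
      · left
        refine ⟨q, ?_, q1, q2, ?_, ?_⟩
        · simp only [pkCells]
          exact List.mem_cons_of_mem _ hq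
        · rw [e2]
          exact q3
        · rw [e1]
          exact q4
      · right
        simp only [pkVal, pkLen]
        rw [e2]
        exact ⟨by linarith, q2⟩

/-- **the cost function** -/
theorem pk_cost {c₀ k₀ : ℝ} {l : List (ℝ × ℝ)} (hk : 0 ≤ k₀) (ho : pkOk k₀ l) :
    Cost (pkG c₀ k₀ l) (pkD c₀ k₀ l) c₀ (pkLast k₀ l) (pkSlope k₀ l) := by
  refine cost_of_deriv ?_ ?_ ?_ ?_ (pkSlope_nonneg l k₀ ho) ?_
  · simp only [pkG, sub_self, mul_zero, zero_add]
    exact pkJ_of_nonpos l k₀ ho le_rfl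
  · intro c _
    have h1 : HasDerivAt (fun y => pkJ k₀ l (y - c₀)) (pkI k₀ l (c - c₀)) c :=
      HasDerivAt.comp_sub_const c c₀ (pkJ_hasDerivAt l k₀ (c - c₀))
    have h2 : HasDerivAt (fun y => k₀ * (y - c₀)) k₀ c := by
      have := ((hasDerivAt_id c).sub_const c₀).const_mul k₀
      simpa using this
    exact h2.add h1
  · intro c _
    exact add_nonneg hk (pkI_nonneg l k₀ _ ho)
  · intro c _
    exact pkI_le l k₀ _ ho
  · intro c x _ hx
    have := pkI_lip l k₀ (x := c - c₀) ho hx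
    simp only [pkD]
    rw [show c + x - c₀ = c - c₀ + x by ring]
    linarith

/-- **covering by cells**: a property of all `c` with cost below `X` from its proof on the cells whose left cost
is below `X` -/
theorem pk_cover {c₀ k₀ X : ℝ} {l : List (ℝ × ℝ)} {P : ℝ → Prop} (hk : 0 ≤ k₀) (ho : pkOk k₀ l)
    (hX : X ≤ pkVal 0 k₀ l)
    (h : ∀ q ∈ pkCells c₀ 0 k₀ l, q.2.2.1 < X → ∀ c, q.1 ≤ c → c ≤ q.2.1 →
      q.2.2.1 ≤ pkG c₀ k₀ l c → pkD c₀ k₀ l c ≤ q.2.2.2 → P c)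
    {c : ℝ} (hc : c₀ ≤ c) (hcX : pkG c₀ k₀ l c < X) : P c := by
  rcases pk_locate l c₀ 0 k₀ ho hk hc with ⟨q, hq, q1, q2, q3, q4⟩ | ⟨_, q2⟩
  · rw [zero_add] at q3
    exact h q hq (q3.trans_lt hcX) c q1 q2 q3 q4
  · rw [zero_add] at q2
    linarith

/-- upper bounds of the exponential function -/
theorem pk_exp_le (m : ℕ) {x r : ℝ} (hx : 0 ≤ x) (hx1 : x ≤ 2 ^ m)
    (h : (1 + x / 2 ^ m + (x / 2 ^ m) ^ 2 / 2 + (x / 2 ^ m) ^ 3 / 6 + (x / 2 ^ m) ^ 4 / 24 +
      (x / 2 ^ m) ^ 5 / 100) ^ 2 ^ m ≤ r) : Real.exp x ≤ r := by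
  have h2 : (0 : ℝ) < 2 ^ m := by positivity
  set y := x / 2 ^ m with hy
  have hy0 : 0 ≤ y := div_nonneg hx h2.le
  have hy1 : y ≤ 1 := by
    rw [hy, div_le_one h2]
    exact hx1
  have h3 := Real.exp_bound' hy0 hy1 (n := 5) (by norm_num)
  have h4 : Real.exp y ≤ 1 + y + y ^ 2 / 2 + y ^ 3 / 6 + y ^ 4 / 24 + y ^ 5 / 100 := by
    refine h3.trans (le_of_eq ?_)
    simp [Finset.sum_range_succ, Nat.factorial]
    ring
  have h5 : Real.exp x = Real.exp y ^ 2 ^ m := by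
    rw [← Real.exp_nat_mul]
    congr 1
    rw [hy]
    push_cast
    field_simp
  rw [h5]
  exact (pow_le_pow_left₀ (Real.exp_pos y).le h4 _).trans h

/-- lower bounds of the exponential function -/
theorem pk_le_exp (m : ℕ) {x r : ℝ} (hx : 0 ≤ x)
    (h : r ≤ (1 + x / 2 ^ m + (x / 2 ^ m) ^ 2 / 2 + (x / 2 ^ m) ^ 3 / 6 + (x / 2 ^ m) ^ 4 / 24) ^ 2 ^ m) :
    r ≤ Real.exp x := by
  have h2 : (0 : ℝ) < 2 ^ m := by positivity
  set y := x / 2 ^ m with hy
  have hy0 : 0 ≤ y := div_nonneg hx h2.le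
  have h3 := Real.sum_le_exp_of_nonneg hy0 5
  have h4 : 1 + y + y ^ 2 / 2 + y ^ 3 / 6 + y ^ 4 / 24 ≤ Real.exp y := by
    refine (le_of_eq ?_).trans h3
    simp [Finset.sum_range_succ, Nat.factorial]
  have h5 : Real.exp x = Real.exp y ^ 2 ^ m := by
    rw [← Real.exp_nat_mul]
    congr 1
    rw [hy]
    push_cast
    field_simp
  rw [h5]
  exact h.trans (pow_le_pow_left₀ (by positivity) h4 _)

/-- upper bounds of the exponential function at negative numbers -/
theorem pk_exp_neg_le (m : ℕ) {x r : ℝ} (hx : 0 ≤ x) (hr : 0 < r)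
    (h : 1 / r ≤ (1 + x / 2 ^ m + (x / 2 ^ m) ^ 2 / 2 + (x / 2 ^ m) ^ 3 / 6 + (x / 2 ^ m) ^ 4 / 24) ^ 2 ^ m) :
    Real.exp (-x) ≤ r := by
  have h1 := pk_le_exp m hx h
  rw [Real.exp_neg, inv_le_comm₀ (Real.exp_pos x) hr, inv_eq_one_div]
  exact h1

/-- an example -/
theorem pk_example {P : ℝ → Prop} (h1 : ∀ c, 1 / 5 ≤ c → c ≤ 2 / 5 → 0 ≤ pkG (1 / 5) 1 [(1 / 5, 2), (1 / 10, 3)] c →
      pkD (1 / 5) 1 [(1 / 5, 2), (1 / 10, 3)] c ≤ 2 → P c)
    (h2 : ∀ c, 2 / 5 ≤ c → c ≤ 1 / 2 → 3 / 10 ≤ pkG (1 / 5) 1 [(1 / 5, 2), (1 / 10, 3)] c →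
      pkD (1 / 5) 1 [(1 / 5, 2), (1 / 10, 3)] c ≤ 3 → P c) {c : ℝ} (hc : 1 / 5 ≤ c)
    (hcX : pkG (1 / 5) 1 [(1 / 5, 2), (1 / 10, 3)] c < 1 / 2) : P c := by
  refine pk_cover (l := [(1 / 5, 2), (1 / 10, 3)]) (by norm_num) ?_ ?_ ?_ hc hcX
  · norm_num [pkOk]
  · norm_num [pkVal]
  · simp only [pkCells, List.mem_cons, List.not_mem_nil, or_false, forall_eq_or_imp, forall_eq]
    refine ⟨fun _ c a b d e => h1 c a ?_ d e, fun _ c a b d e => h2 c ?_ ?_ ?_ e⟩
    all_goals norm_num at *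
    all_goals linarith

end Pool.Agent.FPX
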