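import Mathlib
import Pool.Agent.FPX.S7G
import Pool.Agent.FPM.ODJ
import Pool.Agent.FPX.VEC

/-
GRO (helper82): growth of the area of the superlevel sets of `|g|`, `g` odd, when `|dg| ≤ L` off an
exceptional set on which only the integral of `|dg|` is controlled; a finite net of directions.
-/

open MeasureTheory Set Filter Topology
open scoped ENNReal NNReal

noncomputable section

namespace Pool.Agent.FPX

open Pool.Agent.EWD Pool.Agent.FPM

variable {M : Type} [MetricSpace M] {γ : ℝ → M} (C : Calc M γ)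

/-- the integral over a sublevel set is monotone in the level -/
theorem gro_mono {u : M → ℝ} {f : Om → ℝ} (hf : Integrable f C.μ) (h0 : ∀ᵐ o ∂C.μ, 0 ≤ f o) :
    Monotone fun t => ∫ o in {o | u (C.pt o) < t}, f o ∂C.μ := by
  intro s t h
  refine setIntegral_mono_set hf.integrableOn (ae_restrict_of_ae h0) ?_
  refine Eventually.of_forall fun o ho => ?_
  exact lt_of_lt_of_le (show u (C.pt o) < s from ho) h

/-- growth of the sublevel sets with an exceptional set -/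
theorem gro_lev {κ ε : ℝ} (hκ : 0 ≤ κ) {u : M → ℝ} (hu : Lip u) {r0 r1 : ℝ} (hr : r0 ≤ r1)
    (hI : ∀ᵐ t : ℝ, r0 < t → t < r1 → κ * (inf' C u t - ε) ≤ deriv (lev C u) t ^ 2)
    {O : Set Om} (hO : NullMeasurableSet O C.μ) {L : ℝ} (hL : 0 < L)
    (hLO : ∀ᵐ o ∂C.μ, o ∉ O → gn C u o ≤ L) {q : ℝ} (hq : ∫ o in O, gn C u o ∂C.μ ≤ q)
    {B0 : ℝ} (hB : 0 < B0) (h0 : B0 ^ 2 ≤ inf' C u r0 - ε) :
    B0 + √κ * (r1 - r0) / (2 * L) - q / (2 * L * B0) ≤ √(inf' C u r1 - ε) := by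
  have := C.fin
  have hmono := inf_mono C u
  have hm : ∀ t : ℝ, NullMeasurableSet {o | u (C.pt o) < t} C.μ := fun t =>
    nullMeasurableSet_lt (aem_pt C hu) aemeasurable_const
  set G : Om → ℝ := O.indicator (gn C u) with hG
  have iG : Integrable G C.μ := (int_gn C hu).indicator₀ hO
  have G0 : ∀ o, 0 ≤ G o := fun o => indicator_nonneg (fun o _ => gn_nonneg C u o) o
  set Q : ℝ → ℝ := fun t => ∫ o in {o | u (C.pt o) < t}, G o ∂C.μ with hQ
  have Qmono : Monotone Q := gro_mono C iG (Eventually.of_forall G0)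
  have Q0 : ∀ t, 0 ≤ Q t := fun t => integral_nonneg fun o => G0 o
  have hQ1 : ∀ t, Q t ≤ q := fun t => by
    refine le_trans ?_ hq
    calc Q t ≤ ∫ o, G o ∂C.μ := setIntegral_le_integral iG (Eventually.of_forall G0)
      _ = ∫ o in O, gn C u o ∂C.μ := integral_indicator₀ hO
  have hD : Monotone fun t => L * inf' C u t + Q t - lev C u t := by
    have e : ∀ t : ℝ, L * inf' C u t + Q t - lev C u t =
        ∫ o in {o | u (C.pt o) < t}, (L + G o - gn C u o) ∂C.μ := by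
      intro t
      have e1 : ∫ o in {o | u (C.pt o) < t}, (L + G o - gn C u o) ∂C.μ =
          (∫ o in {o | u (C.pt o) < t}, (L + G o) ∂C.μ) - ∫ o in {o | u (C.pt o) < t}, gn C u o ∂C.μ :=
        integral_sub ((integrable_const L).add iG).integrableOn (int_gn C hu).integrableOn
      have e2 : ∫ o in {o | u (C.pt o) < t}, (L + G o) ∂C.μ =
          (∫ o in {o | u (C.pt o) < t}, L ∂C.μ) + ∫ o in {o | u (C.pt o) < t}, G o ∂C.μ :=
        integral_add (integrable_const L).integrableOn iG.integrableOn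
      have e3 : ∫ o in {o | u (C.pt o) < t}, L ∂C.μ = L * inf' C u t := by
        simp [inf', Measure.real, mul_comm]
      rw [e1, e2, e3, lev]
    simp only [e]
    refine gro_mono C (((integrable_const _).add iG).sub (int_gn C hu)) ?_
    filter_upwards [hLO] with o ho
    by_cases h : o ∈ O
    · rw [hG, indicator_of_mem h]
      linarith
    · rw [hG, indicator_of_notMem h]
      linarith [ho h]
  have levmono : Monotone (lev C u) := gro_mono C (int_gn C hu) (Eventually.of_forall fun o => gn_nonneg C u o)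
  have hf : MonotoneOn (fun t => √(inf' C u t - ε) + Q t / (2 * L * B0)) (uIcc r0 r1) :=
    fun s _ t _ h => add_le_add (Real.sqrt_le_sqrt (sub_le_sub_right (hmono h) ε))
      (div_le_div_of_nonneg_right (Qmono h) (by positivity))
  have hi := MonotoneOn.intervalIntegral_deriv_mem_uIcc hf
  have hint := MonotoneOn.intervalIntegrable_deriv hf
  have hle : √(inf' C u r0 - ε) + Q r0 / (2 * L * B0) ≤ √(inf' C u r1 - ε) + Q r1 / (2 * L * B0) :=
    hf (by simp) (by simp) hr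
  rw [uIcc_of_le (by linarith), mem_Icc] at hi
  have hne : ∀ᵐ t : ℝ, t ≠ r1 := by
    have : ({r1}ᶜ : Set ℝ) ∈ ae (volume : Measure ℝ) := compl_mem_ae_iff.2 (by simp)
    filter_upwards [this] with t ht using ht
  have hpt : ∀ᵐ t : ℝ, t ∈ Ioc r0 r1 → √κ / (2 * L) ≤
      deriv (fun t => √(inf' C u t - ε) + Q t / (2 * L * B0)) t := by
    filter_upwards [hI, hmono.ae_differentiableAt, Qmono.ae_differentiableAt,
      hD.ae_differentiableAt, hne] with t ht hd hdQ hdD htn hm'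
    have htr : t < r1 := lt_of_le_of_ne hm'.2 htn
    have h4 := ht hm'.1 htr
    have hb : B0 ^ 2 ≤ inf' C u t - ε := h0.trans (sub_le_sub_right (hmono hm'.1.le) ε)
    have hpos : 0 < inf' C u t - ε := lt_of_lt_of_le (by positivity) hb
    have hs : B0 ≤ √(inf' C u t - ε) := by
      rw [← Real.sqrt_sq hB.le]
      exact Real.sqrt_le_sqrt hb
    have hs0 : 0 < √(inf' C u t - ε) := hB.trans_le hs
    have hdd : HasDerivAt (fun t => √(inf' C u t - ε) + Q t / (2 * L * B0))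
        (deriv (inf' C u) t / (2 * √(inf' C u t - ε)) + deriv Q t / (2 * L * B0)) t :=
      ((hd.hasDerivAt.sub_const ε).sqrt hpos.ne').add (hdQ.hasDerivAt.div_const _)
    have h1 : deriv (lev C u) t ≤ L * deriv (inf' C u) t + deriv Q t := by
      have h2 := hD.deriv_nonneg (x := t)
      have h5 : lev C u = fun t => L * inf' C u t + Q t - (L * inf' C u t + Q t - lev C u t) := by
        funext t
        ring
      have h6 : DifferentiableAt ℝ (lev C u) t := by
        rw [h5]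
        exact ((hd.const_mul L).add hdQ).sub hdD
      have h3 : deriv (fun t => L * inf' C u t + Q t - lev C u t) t =
          L * deriv (inf' C u) t + deriv Q t - deriv (lev C u) t := by
        have h7 : HasDerivAt (fun t => L * inf' C u t + Q t - lev C u t)
            (L * deriv (inf' C u) t + deriv Q t - deriv (lev C u) t) t :=
          ((hd.hasDerivAt.const_mul L).add hdQ.hasDerivAt).sub h6.hasDerivAt
        exact h7.deriv
      linarith
    have h7 : 0 ≤ deriv (lev C u) t := levmono.deriv_nonneg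
    have h8 : 0 ≤ deriv Q t := Qmono.deriv_nonneg
    have h9 : √κ * √(inf' C u t - ε) ≤ deriv (lev C u) t := by
      rw [← Real.sqrt_mul hκ]
      refine (Real.sqrt_le_sqrt h4).trans ?_
      rw [Real.sqrt_sq h7]
    rw [hdd.deriv]
    set s := √(inf' C u t - ε)
    set a := deriv (inf' C u) t
    set d := deriv Q t
    have h10 : (√κ * s - d) / (2 * L * s) ≤ a / (2 * s) := by
      rw [div_le_div_iff₀ (by positivity) (by positivity)]
      nlinarith [mul_nonneg hs0.le (show (0 : ℝ) ≤ L * a + d - √κ * s by linarith)]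
    have h11 : d / (2 * L * s) ≤ d / (2 * L * B0) := by
      refine div_le_div_of_nonneg_left h8 (by positivity) ?_
      exact mul_le_mul_of_nonneg_left hs (by positivity)
    have h12 : (√κ * s - d) / (2 * L * s) + d / (2 * L * s) = √κ / (2 * L) := by
      field_simp
      ring
    linarith
  have hge : (r1 - r0) * (√κ / (2 * L)) ≤
      (√(inf' C u r1 - ε) + Q r1 / (2 * L * B0)) - (√(inf' C u r0 - ε) + Q r0 / (2 * L * B0)) := by
    calc (r1 - r0) * (√κ / (2 * L)) = ∫ _ in r0..r1, √κ / (2 * (L : ℝ)) := by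
          rw [intervalIntegral.integral_const, smul_eq_mul]
      _ ≤ ∫ t in r0..r1, deriv (fun t => √(inf' C u t - ε) + Q t / (2 * L * B0)) t := by
          refine intervalIntegral.integral_mono_ae_restrict hr (by simp) hint ?_
          rw [Filter.EventuallyLE, ← Measure.restrict_congr_set Ioc_ae_eq_Icc,
            ae_restrict_iff' measurableSet_Ioc]
          exact hpt
      _ ≤ _ := hi.2
  have hs : B0 ≤ √(inf' C u r0 - ε) := by
    rw [← Real.sqrt_sq hB.le]
    exact Real.sqrt_le_sqrt h0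
  have h13 : Q r1 / (2 * L * B0) ≤ q / (2 * L * B0) := div_le_div_of_nonneg_right (hQ1 r1) (by positivity)
  have h14 : 0 ≤ Q r0 / (2 * L * B0) := div_nonneg (Q0 r0) (by positivity)
  have h15 : (r1 - r0) * (√κ / (2 * L)) = √κ * (r1 - r0) / (2 * L) := by ring
  linarith

theorem gro_inf (g : M → ℝ) (t : ℝ) :
    inf' C (fun x => -|g x|) (-t) = (C.μ {o | t < |g (C.pt o)|}).toReal := by
  unfold inf'
  congr 2
  ext o
  change -|g (C.pt o)| < -t ↔ t < |g (C.pt o)|
  exact neg_lt_neg_iff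

theorem gro_gn {g : M → ℝ} (hg : Lip g) :
    ∀ᵐ o ∂C.μ, gn C (fun x => -|g x|) o = gn C g o := by
  filter_upwards [gn_abs C hg] with o ho
  rw [gn_neg C (fun x => |g x|), ho]

/-- growth with an exceptional set, odd functions -/
theorem gro_exc {κ ε : ℝ} (hI : IsopO C κ ε) (hκ : 0 ≤ κ) {g : M → ℝ} (hg : Lip g)
    (ho : FPM.OddB γ g) {O : Set Om} (hO : NullMeasurableSet O C.μ) {L : ℝ} (hL : 0 < L)
    (hLO : ∀ᵐ o ∂C.μ, o ∉ O → gn C g o ≤ L) {q : ℝ} (hq : ∫ o in O, gn C g o ∂C.μ ≤ q)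
    {t h B0 : ℝ} (ht : 0 ≤ t) (hth : t ≤ h) (hB : 0 < B0)
    (h0 : B0 ^ 2 + ε ≤ (C.μ {o | h < |g (C.pt o)|}).toReal) :
    B0 + √κ * (h - t) / (2 * L) - q / (2 * L * B0) ≤
      √((C.μ {o | t < |g (C.pt o)|}).toReal - ε) := by
  have hu : Lip fun x => -|g x| := (lip_abs hg).neg
  have h1 := gro_lev C (κ := κ) (ε := ε) hκ hu (r0 := -h) (r1 := -t) (by linarith)
    (by
      filter_upwards [odd_lev C hI hg ho] with r hr _ h2
      exact hr (by linarith))
    hO hL (by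
      filter_upwards [hLO, gro_gn C hg] with o h2 h3 h4
      rw [h3]
      exact h2 h4) (q := q) (by
      refine le_trans (le_of_eq ?_) hq
      exact setIntegral_congr_ae₀ hO ((gro_gn C hg).mono fun o h2 _ => h2)) hB
    (by rw [gro_inf C g h]; linarith)
  rw [gro_inf C g t] at h1
  have e : -t - -h = h - t := by ring
  rw [e] at h1
  exact h1

/-- the quadratic form of the growth -/
theorem gro_sq {κ ε : ℝ} (hI : IsopO C κ ε) (hκ : 0 ≤ κ) {g : M → ℝ} (hg : Lip g)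
    (ho : FPM.OddB γ g) {O : Set Om} (hO : NullMeasurableSet O C.μ) {L : ℝ} (hL : 0 < L)
    (hLO : ∀ᵐ o ∂C.μ, o ∉ O → gn C g o ≤ L) {q : ℝ} (hq : ∫ o in O, gn C g o ∂C.μ ≤ q)
    {t h B0 : ℝ} (ht : 0 ≤ t) (hth : t ≤ h) (hB : 0 < B0)
    (h0 : B0 ^ 2 + ε ≤ (C.μ {o | h < |g (C.pt o)|}).toReal) (hqB : q ≤ 2 * L * B0 ^ 2) :
    κ / (4 * L ^ 2) * (h - t) ^ 2 + ε ≤ (C.μ {o | t < |g (C.pt o)|}).toReal := by
  have := C.fin
  have h1 := gro_exc C hI hκ hg ho hO hL hLO hq ht hth hB h0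
  have h2 : q / (2 * L * B0) ≤ B0 := by
    rw [div_le_iff₀ (by positivity)]
    nlinarith
  have h3 : √κ * (h - t) / (2 * L) ≤ √((C.μ {o | t < |g (C.pt o)|}).toReal - ε) := by linarith
  have h4 : 0 ≤ √κ * (h - t) / (2 * L) :=
    div_nonneg (mul_nonneg (Real.sqrt_nonneg _) (by linarith)) (by positivity)
  have h5 := pow_le_pow_left₀ h4 h3 2
  have h6 : (C.μ {o | h < |g (C.pt o)|}).toReal ≤ (C.μ {o | t < |g (C.pt o)|}).toReal :=
    ENNReal.toReal_mono (measure_ne_top _ _) (measure_mono fun o h7 => lt_of_le_of_lt hth h7)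
  have h7 : 0 ≤ (C.μ {o | t < |g (C.pt o)|}).toReal - ε := by nlinarith [sq_nonneg B0]
  rw [Real.sq_sqrt h7, div_pow, mul_pow, Real.sq_sqrt hκ] at h5
  have h8 : κ * (h - t) ^ 2 / (2 * L) ^ 2 = κ / (4 * L ^ 2) * (h - t) ^ 2 := by ring
  rw [h8] at h5
  linarith

/-- a finite net of directions -/
theorem net_dir {ρ : ℝ} (hρ : 0 < ρ) (hρ1 : ρ ≤ 1) : ∃ n : ℕ, 0 < n ∧
    ∀ (Ω : Type) [MeasurableSpace Ω] (μ : Measure Ω) [IsFiniteMeasure μ] (w : Ω → E3) (h a : ℝ),
      0 ≤ h → 0 ≤ a → a < (μ {o | h ≤ ‖w o‖}).toReal →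
      ∃ e : E3, ‖e‖ = 1 ∧ a / n < (μ {o | (1 - ρ) * h ≤ inner ℝ e (w o)}).toReal := by
  obtain ⟨T, hT, hfin, hcov⟩ := (isCompact_sphere (0 : E3) 1).finite_cover_balls
    (e := √(2 * ρ)) (Real.sqrt_pos.2 (by positivity))
  obtain ⟨e0, he0⟩ : ∃ e : E3, ‖e‖ = 1 := ⟨EuclideanSpace.single 0 1, by simp⟩
  have hne : T.Nonempty := by
    have h1 : e0 ∈ Metric.sphere (0 : E3) 1 := by simp [he0]
    obtain ⟨x, hx⟩ := mem_iUnion.1 (hcov h1)
    obtain ⟨hx, -⟩ := mem_iUnion.1 hx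
    exact ⟨x, hx⟩
  refine ⟨hfin.toFinset.card, Finset.card_pos.2 ((hfin.toFinset_nonempty).2 hne), ?_⟩
  intro Ω _ μ _ w h a h0 ha hlt
  by_contra hcon
  push Not at hcon
  have hsub : {o | h ≤ ‖w o‖} ⊆ ⋃ e ∈ hfin.toFinset, {o | (1 - ρ) * h ≤ inner ℝ e (w o)} := by
    intro o ho
    have ho' : h ≤ ‖w o‖ := ho
    by_cases hw : w o = 0
    · obtain ⟨x, hx⟩ := hne
      refine mem_iUnion₂.2 ⟨x, hfin.mem_toFinset.2 hx, ?_⟩
      rw [hw, norm_zero] at ho'
      have h1 : h = 0 := le_antisymm ho' h0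
      change (1 - ρ) * h ≤ inner ℝ x (w o)
      rw [hw, h1]
      simp
    · have hw0 : 0 < ‖w o‖ := norm_pos_iff.2 hw
      have h1 : (‖w o‖⁻¹ • w o) ∈ Metric.sphere (0 : E3) 1 := by
        simp [norm_smul, hw0.ne']
      obtain ⟨x, hx⟩ := mem_iUnion.1 (hcov h1)
      obtain ⟨hxT, hxb⟩ := mem_iUnion.1 hx
      refine mem_iUnion₂.2 ⟨x, hfin.mem_toFinset.2 hxT, ?_⟩
      change (1 - ρ) * h ≤ inner ℝ x (w o)
      have hx1 : ‖x‖ = 1 := by
        have := hT hxT
        simpa using this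
      have h2 : ‖‖w o‖⁻¹ • w o - x‖ < √(2 * ρ) := by
        rw [← dist_eq_norm]
        exact hxb
      have h3 : ‖‖w o‖⁻¹ • w o - x‖ ^ 2 ≤ 2 * ρ := by
        have h4 := pow_le_pow_left₀ (norm_nonneg _) h2.le 2
        rwa [Real.sq_sqrt (by positivity)] at h4
      have h5 : ‖‖w o‖⁻¹ • w o - x‖ ^ 2 = 2 - 2 * (‖w o‖⁻¹ * inner ℝ x (w o)) := by
        rw [norm_sub_sq_real, norm_smul, hx1, inner_smul_left, real_inner_comm, norm_inv, norm_norm,
          inv_mul_cancel₀ hw0.ne']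
        simp
        ring
      rw [h5] at h3
      have h6 : 1 - ρ ≤ ‖w o‖⁻¹ * inner ℝ x (w o) := by linarith
      have h7 : (1 - ρ) * ‖w o‖ ≤ inner ℝ x (w o) := by
        have h8 := mul_le_mul_of_nonneg_right h6 hw0.le
        have h9 : ‖w o‖⁻¹ * inner ℝ x (w o) * ‖w o‖ = inner ℝ x (w o) := by
          field_simp
        rwa [h9] at h8
      exact (mul_le_mul_of_nonneg_left ho' (by linarith)).trans h7
  have hcard : (0 : ℝ) < hfin.toFinset.card := by
    exact_mod_cast Finset.card_pos.2 ((hfin.toFinset_nonempty).2 hne)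
  have h1 : (μ {o | h ≤ ‖w o‖}).toReal ≤
      ∑ e ∈ hfin.toFinset, (μ {o | (1 - ρ) * h ≤ inner ℝ e (w o)}).toReal := by
    rw [← ENNReal.toReal_sum fun e _ => measure_ne_top _ _]
    exact ENNReal.toReal_mono (ENNReal.sum_ne_top.2 fun e _ => measure_ne_top _ _)
      ((measure_mono hsub).trans (measure_biUnion_finset_le _ _))
  have h2 : ∑ e ∈ hfin.toFinset, (μ {o | (1 - ρ) * h ≤ inner ℝ e (w o)}).toReal ≤
      ∑ _e ∈ hfin.toFinset, a / hfin.toFinset.card := by
    refine Finset.sum_le_sum fun e he => hcon e ?_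
    have := hT (hfin.mem_toFinset.1 he)
    simpa using this
  rw [Finset.sum_const, nsmul_eq_mul, mul_div_cancel₀ _ hcard.ne'] at h2
  linarith

/-! ### the component in a direction -/

theorem gro_lin_at (e : E3) (η : Fin 3 → M → ℝ) (o : Om) :
    lin (fun i => e i) η (C.pt o) = inner ℝ e (at' C η o) := by
  rw [inner3]
  simp [lin, at', Fin.sum_univ_three]

theorem gro_lin_lip (e : E3) {η : Fin 3 → M → ℝ} (hη : ∀ i, Lip (η i)) :
    Lip (lin (fun i => e i) η) := by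
  have h : lin (fun i => e i) η = fun x => e 0 * η 0 x + e 1 * η 1 x + e 2 * η 2 x := by
    funext x
    simp [lin, Fin.sum_univ_three]
  rw [h]
  exact (((hη 0).const_mul _).add ((hη 1).const_mul _)).add ((hη 2).const_mul _)

omit [MetricSpace M] in
theorem gro_lin_odd (e : E3) {η : Fin 3 → M → ℝ} (hη : ∀ i, FPM.OddB γ (η i)) :
    FPM.OddB γ (lin (fun i => e i) η) := by
  intro t
  simp only [lin, Fin.sum_univ_three]
  rw [hη 0 t, hη 1 t, hη 2 t]
  ring

theorem gro_lin_gn {e : E3} (he : ‖e‖ = 1) {η : Fin 3 → M → ℝ} (hη : ∀ i, Lip (η i)) :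
    ∀ᵐ o ∂C.μ, gn C (lin (fun i => e i) η) o ^ 2 ≤ ‖dx C η o‖ ^ 2 + ‖dy C η o‖ ^ 2 := by
  filter_upwards [C.ae_lin (fun i => e i) hη] with o ho
  have h1 : C.gx (lin (fun i => e i) η) o = inner ℝ e (dx C η o) := by
    rw [ho.1, inner3]
    simp [dx, Fin.sum_univ_three]
  have h2 : C.gy (lin (fun i => e i) η) o = inner ℝ e (dy C η o) := by
    rw [ho.2, inner3]
    simp [dy, Fin.sum_univ_three]
  rw [gn_sq, h1, h2]
  have h3 := abs_real_inner_le_norm e (dx C η o)
  have h4 := abs_real_inner_le_norm e (dy C η o)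
  rw [he, one_mul] at h3 h4
  have h5 := pow_le_pow_left₀ (abs_nonneg _) h3 2
  have h6 := pow_le_pow_left₀ (abs_nonneg _) h4 2
  rw [sq_abs] at h5 h6
  linarith

theorem gro_int {η : Fin 3 → M → ℝ} (hη : ∀ i, Lip (η i)) :
    Integrable (fun o => √(‖dx C η o‖ ^ 2 + ‖dy C η o‖ ^ 2)) C.μ := by
  have e : ∀ o, ‖dx C η o‖ ^ 2 + ‖dy C η o‖ ^ 2 =
      gn C (η 0) o ^ 2 + gn C (η 1) o ^ 2 + gn C (η 2) o ^ 2 := fun o => by
    rw [gn_sq, gn_sq, gn_sq, EuclideanSpace.real_norm_sq_eq, EuclideanSpace.real_norm_sq_eq]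
    simp [Fin.sum_univ_three, dx, dy]
    ring
  simp only [e]
  refine Integrable.mono' (((int_gn C (hη 0)).add (int_gn C (hη 1))).add (int_gn C (hη 2))) ?_ ?_
  · exact ((((aem_gn C (hη 0)).pow_const 2).add ((aem_gn C (hη 1)).pow_const 2)).add
      ((aem_gn C (hη 2)).pow_const 2)).sqrt.aestronglyMeasurable
  · refine Eventually.of_forall fun o => ?_
    have h0 := gn_nonneg C (η 0) o
    have h1 := gn_nonneg C (η 1) o
    have h2 := gn_nonneg C (η 2) o
    rw [Real.norm_eq_abs, abs_of_nonneg (Real.sqrt_nonneg _)]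
    change √(gn C (η 0) o ^ 2 + gn C (η 1) o ^ 2 + gn C (η 2) o ^ 2) ≤
      gn C (η 0) o + gn C (η 1) o + gn C (η 2) o
    refine Real.sqrt_le_iff.2 ⟨by positivity, ?_⟩
    nlinarith [mul_nonneg h0 h1, mul_nonneg h0 h2, mul_nonneg h1 h2]

/-- **the side condition**: a vector field `η`, odd along the curve, that is at least `h` on a set of
area more than `a` has a component with large superlevel sets; `O` is the exceptional set -/
theorem gro_side {ρ : ℝ} (hρ : 0 < ρ) (hρ1 : ρ ≤ 1) : ∃ n : ℕ, 0 < n ∧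
    ∀ {M : Type} [MetricSpace M] {γ : ℝ → M} (C : Calc M γ) {κ ε : ℝ}, IsopO C κ ε → 0 ≤ κ →
      ∀ {η : Fin 3 → M → ℝ}, (∀ i, Lip (η i)) → (∀ i, FPM.OddB γ (η i)) →
      ∀ {O : Set Om}, NullMeasurableSet O C.μ → ∀ {L : ℝ}, 0 < L →
      (∀ᵐ o ∂C.μ, o ∉ O → ‖dx C η o‖ ^ 2 + ‖dy C η o‖ ^ 2 ≤ L ^ 2) →
      ∀ {q : ℝ}, ∫ o in O, √(‖dx C η o‖ ^ 2 + ‖dy C η o‖ ^ 2) ∂C.μ ≤ q →
      ∀ {h a h' : ℝ}, 0 ≤ h → 0 < a → a < (C.μ {o | h ≤ ‖at' C η o‖}).toReal →
      h' < (1 - ρ) * h → 2 * (n * ε) ≤ a → n * q ≤ L * a →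
      ∃ e : E3, ‖e‖ = 1 ∧ ∀ t, 0 ≤ t → t ≤ h' → κ / (4 * L ^ 2) * (h' - t) ^ 2 + ε ≤
        (C.μ {o | t < |lin (fun i => e i) η (C.pt o)|}).toReal := by
  obtain ⟨n, hn, hnet⟩ := net_dir hρ hρ1
  refine ⟨n, hn, ?_⟩
  intro M _ γ C κ ε hI hκ η hη hodd O hO L hL hLO q hq h a h' h0 ha hlt hh hε hqa
  have := C.fin
  have hn' : (0 : ℝ) < n := by exact_mod_cast hn
  obtain ⟨e, he, hea⟩ := hnet Om C.μ (at' C η) h a h0 ha.le hlt
  refine ⟨e, he, fun t ht hth => ?_⟩
  have hg := gro_lin_lip e hη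
  have ho := gro_lin_odd e hodd
  have hgn : ∀ᵐ o ∂C.μ, gn C (lin (fun i => e i) η) o ≤ √(‖dx C η o‖ ^ 2 + ‖dy C η o‖ ^ 2) := by
    filter_upwards [gro_lin_gn C he hη] with o ho
    exact Real.le_sqrt_of_sq_le ho
  have hi : Integrable (fun o => √(‖dx C η o‖ ^ 2 + ‖dy C η o‖ ^ 2)) C.μ := gro_int C hη
  have h1 : a / n < (C.μ {o | h' < |lin (fun i => e i) η (C.pt o)|}).toReal := by
    refine hea.trans_le (ENNReal.toReal_mono (measure_ne_top _ _) (measure_mono fun o h2 => ?_))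
    have h3 : (1 - ρ) * h ≤ inner ℝ e (at' C η o) := h2
    change h' < |lin (fun i => e i) η (C.pt o)|
    rw [gro_lin_at C e η o]
    exact (hh.trans_le h3).trans_le (le_abs_self _)
  have hB : 0 < √(a / (2 * n)) := Real.sqrt_pos.2 (by positivity)
  have hB2 : √(a / (2 * n)) ^ 2 = a / (2 * n) := Real.sq_sqrt (by positivity)
  have e1 : a / n = a / (2 * n) + a / (2 * n) := by
    field_simp
    ring
  refine gro_sq C hI hκ hg ho hO hL ?_ (q := q) ?_ ht hth hB ?_ ?_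
  · filter_upwards [hgn, hLO] with o h2 h3 h4
    refine h2.trans ?_
    rw [← Real.sqrt_sq hL.le]
    exact Real.sqrt_le_sqrt (h3 h4)
  · refine le_trans ?_ hq
    exact integral_mono_ae (int_gn C hg).integrableOn hi.integrableOn (ae_restrict_of_ae hgn)
  · rw [hB2]
    have h4 : ε ≤ a / (2 * n) := by
      rw [le_div_iff₀ (by positivity)]
      linarith
    linarith
  · rw [hB2]
    have h5 : q ≤ L * (a / n) := by
      rw [mul_div_assoc', le_div_iff₀ hn']
      linarith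
    have h6 : 2 * L * (a / (2 * n)) = L * (a / n) := by
      rw [e1]
      ring
    rw [h6]
    exact h5

end Pool.Agent.FPX
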