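import Mathlib
import Pool.Agent.FPX.KIN
import Pool.Agent.FPX.EMK2
import Pool.Agent.FPM.ODJ

/-
KENA (helper58): the quadratic form of scheme K is at least the sum of the scalar forms
`∫ (|dg|² - 4 ν g²)` of the three components `g = ⟨a, Θ - v⟩` in an orthonormal frame; the components are
odd, bounded by 8, and their gradient is at most `√2 (e^c + 1)` where `dv ∈ e^c W`.
-/

open MeasureTheory Set Filter Topology
open scoped ENNReal NNReal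

noncomputable section

namespace Pool.Agent.FPX

open Pool.Agent.EWD

variable {M : Type} [MetricSpace M] {γ : ℝ → M}

/-- `Θ - v` -/
def etaK (v T : Fin 3 → M → ℝ) (k : Fin 3) (x : M) : ℝ := T k x - v k x

/-- the component of `Θ - v` in the direction `a` -/
def gA (v T : Fin 3 → M → ℝ) (a : E3) (x : M) : ℝ := inner ℝ a (vv (n := 0) (etaK v T) x)

theorem etaK_lip {v T : Fin 3 → M → ℝ} (hv : ∀ k, Lip (v k)) (hT : ∀ k, Lip (T k)) (k : Fin 3) :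
    Lip (etaK v T k) := (hT k).sub (hv k)

theorem vv_eta (v T : Fin 3 → M → ℝ) (x : M) :
    vv (n := 0) (etaK v T) x = vv (n := 0) T x - vv (n := 0) v x := by
  ext i
  fin_cases i <;> rfl

theorem gA_fun (v T : Fin 3 → M → ℝ) (a : E3) :
    gA v T a = fun x => a 0 * etaK v T 0 x + a 1 * etaK v T 1 x + a 2 * etaK v T 2 x := by
  funext x
  exact inner_vv a _ x

theorem gA_lip {v T : Fin 3 → M → ℝ} (hv : ∀ k, Lip (v k)) (hT : ∀ k, Lip (T k)) (a : E3) :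
    Lip (gA v T a) := by
  rw [gA_fun]
  exact (((etaK_lip hv hT 0).const_mul (a 0)).add ((etaK_lip hv hT 1).const_mul (a 1))).add
    ((etaK_lip hv hT 2).const_mul (a 2))

theorem gA_odd {v T : Fin 3 → M → ℝ} (hv : ∀ k, FPM.OddB γ (v k)) (hT : ∀ k, FPM.OddB γ (T k))
    (a : E3) : FPM.OddB γ (gA v T a) := by
  intro t
  rw [gA_fun]
  simp only [etaK]
  rw [hv 0 t, hv 1 t, hv 2 t, hT 0 t, hT 1 t, hT 2 t]
  ring

theorem gA_bd {v T : Fin 3 → M → ℝ} (hv : Sph γ v) {K : ℝ} (hT : ∀ x, ‖vv (n := 0) T x‖ ≤ K) {a : E3}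
    (ha : ‖a‖ = 1) (x : M) : |gA v T a x| ≤ K + 1 := by
  unfold gA
  refine (abs_real_inner_le_norm _ _).trans ?_
  rw [ha, one_mul, vv_eta]
  refine (norm_sub_le _ _).trans ?_
  rw [norm_vv hv]
  linarith [hT x]

theorem ae_gA (C : Calc M γ) {v T : Fin 3 → M → ℝ} (hv : ∀ k, Lip (v k)) (hT : ∀ k, Lip (T k)) :
    ∀ᵐ o ∂C.μ, ∀ a : E3, gn C (gA v T a) o ^ 2 =
      inner ℝ a (dx C T o - dx C v o) ^ 2 + inner ℝ a (dy C T o - dy C v o) ^ 2 := by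
  have h1 : ∀ᵐ o ∂C.μ, ∀ k, C.gx (etaK v T k) o = C.gx (T k) o - C.gx (v k) o ∧
      C.gy (etaK v T k) o = C.gy (T k) o - C.gy (v k) o := by
    refine ae_all_iff.2 fun k => ?_
    filter_upwards [C.ae_has (hT k), C.ae_has (hv k)] with o a1 a2
    exact ⟨(a1.1.sub a2.1).deriv, (a1.2.sub a2.2).deriv⟩
  filter_upwards [ae_inner C (etaK_lip hv hT), h1] with o ho h2 a
  have e1 : dx C (etaK v T) o = dx C T o - dx C v o := by
    ext i
    fin_cases i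
    exacts [(h2 0).1, (h2 1).1, (h2 2).1]
  have e2 : dy C (etaK v T) o = dy C T o - dy C v o := by
    ext i
    fin_cases i
    exacts [(h2 0).2, (h2 1).2, (h2 2).2]
  rw [gn_sq]
  have h3 := ho a
  rw [e1, e2] at h3
  have e3 : C.gx (gA v T a) o = inner ℝ a (dx C T o - dx C v o) := h3.1
  have e4 : C.gy (gA v T a) o = inner ℝ a (dy C T o - dy C v o) := h3.2
  rw [e3, e4]

/-- triangle inequality for pairs of vectors -/
theorem pair_tri {x y x' y' : E3} {P Q : ℝ} (hP : 0 ≤ P) (hQ : 0 ≤ Q) (h1 : ‖x‖ ^ 2 + ‖y‖ ^ 2 ≤ P ^ 2)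
    (h2 : ‖x'‖ ^ 2 + ‖y'‖ ^ 2 ≤ Q ^ 2) : ‖x' - x‖ ^ 2 + ‖y' - y‖ ^ 2 ≤ (P + Q) ^ 2 := by
  have a1 := norm_sub_le x' x
  have a2 := norm_sub_le y' y
  have n1 := norm_nonneg (x' - x)
  have n2 := norm_nonneg (y' - y)
  have b1 : ‖x' - x‖ ^ 2 ≤ (‖x'‖ + ‖x‖) ^ 2 := pow_le_pow_left₀ n1 a1 2
  have b2 : ‖y' - y‖ ^ 2 ≤ (‖y'‖ + ‖y‖) ^ 2 := pow_le_pow_left₀ n2 a2 2
  have c1 : (‖x'‖ * ‖x‖ + ‖y'‖ * ‖y‖) ^ 2 ≤ (P * Q) ^ 2 := by
    have c2 : (‖x'‖ * ‖x‖ + ‖y'‖ * ‖y‖) ^ 2 ≤ (‖x‖ ^ 2 + ‖y‖ ^ 2) * (‖x'‖ ^ 2 + ‖y'‖ ^ 2) := by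
      nlinarith [sq_nonneg (‖x'‖ * ‖y‖ - ‖y'‖ * ‖x‖)]
    refine c2.trans ?_
    rw [mul_pow]
    exact mul_le_mul h1 h2 (by positivity) (by positivity)
  have c3 : ‖x'‖ * ‖x‖ + ‖y'‖ * ‖y‖ ≤ P * Q := by
    refine le_of_sq_le_sq c1 (by positivity)
  nlinarith

/-- the gradient bound of the components -/
theorem gn_gA_le (C : Calc M γ) {v T : Fin 3 → M → ℝ} (hv : ∀ k, Lip (v k)) (hT : ∀ k, Lip (T k))
    (hTW : ∀ᵐ o ∂C.μ, InW 2 1 (dx C T o) (dy C T o)) : ∀ᵐ o ∂C.μ, ∀ (c : ℝ) (a : E3), ‖a‖ = 1 →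
      InW (Real.exp c * 2) (Real.exp c ^ 2 * 1) (dx C v o) (dy C v o) →
      gn C (gA v T a) o ≤ √2 * (Real.exp c + 1) := by
  filter_upwards [ae_gA C hv hT, hTW] with o h1 h2 c a ha h3
  have h4 := h3.s
  have h5 := h2.s
  have s2 : √2 ^ 2 = (2 : ℝ) := Real.sq_sqrt (by norm_num)
  have s0 : (0 : ℝ) ≤ √2 := Real.sqrt_nonneg 2
  have e0 := (Real.exp_pos c).le
  have k := pair_tri (P := √2 * Real.exp c) (Q := √2) (by positivity) s0
    (x := dx C v o) (y := dy C v o) (x' := dx C T o) (y' := dy C T o)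
    (by rw [mul_pow, s2]; linarith) (by rw [s2]; linarith)
  have m : ∀ w : E3, inner ℝ a w ^ 2 ≤ ‖w‖ ^ 2 := by
    intro w
    have h6 := abs_real_inner_le_norm a w
    rw [ha, one_mul] at h6
    rw [← sq_abs]
    exact pow_le_pow_left₀ (abs_nonneg _) h6 2
  refine le_of_sq_le_sq ?_ (by positivity)
  rw [h1 a]
  have e : √2 * (Real.exp c + 1) = √2 * Real.exp c + √2 := by ring
  rw [e]
  linarith [m (dx C T o - dx C v o), m (dy C T o - dy C v o)]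

theorem decomp2 {a b : E3} (ha : inner ℝ a a = (1 : ℝ)) (hb : inner ℝ b b = (1 : ℝ))
    (hab : inner ℝ a b = (0 : ℝ)) (w : E3) :
    ‖w‖ ^ 2 = inner ℝ a w ^ 2 + inner ℝ b w ^ 2 + inner ℝ (crs a b) w ^ 2 := by
  have h := decomp ha hb hab w
  have e : (inner ℝ w (crs a b) : ℝ) = inner ℝ (crs a b) w := real_inner_comm _ _
  rwa [e] at h

/-- the form is at least the sum of the scalar forms -/
theorem KF_ge (C : Calc M γ) {v T : Fin 3 → M → ℝ} (hv : Sph γ v) (hT : ∀ k, Lip (T k)) {a b : E3}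
    (ha : inner ℝ a a = (1 : ℝ)) (hb : inner ℝ b b = (1 : ℝ)) (hab : inner ℝ a b = (0 : ℝ)) :
    ∀ᵐ o ∂C.μ, (gn C (gA v T a) o ^ 2 - 4 * (nuC C v o * gA v T a (C.pt o) ^ 2))
      + (gn C (gA v T b) o ^ 2 - 4 * (nuC C v o * gA v T b (C.pt o) ^ 2))
      + (gn C (gA v T (crs a b)) o ^ 2 - 4 * (nuC C v o * gA v T (crs a b) (C.pt o) ^ 2))
      ≤ KF C v T o := by
  filter_upwards [ae_gA C hv.lip hT] with o h1
  rw [h1 a, h1 b, h1 (crs a b)]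
  have d1 := decomp2 ha hb hab (dx C T o - dx C v o)
  have d2 := decomp2 ha hb hab (dy C T o - dy C v o)
  have d3 := decomp2 ha hb hab (at' C T o - at' C v o)
  have e : ∀ w : E3, gA v T w (C.pt o) = inner ℝ w (at' C T o - at' C v o) := by
    intro w
    unfold gA
    rw [vv_eta]
    rfl
  rw [e a, e b, e (crs a b)]
  have hn : ‖at' C v o‖ = 1 := norm_at hv o
  have hnu : 0 ≤ nuC C v o := nuv_nonneg _ _ _
  set η : E3 := at' C T o - at' C v o with hη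
  set z : ℝ := inner ℝ (at' C v o) (at' C T o) with hz
  have hz1 : inner ℝ (at' C v o) η = z - 1 := by
    rw [hη, inner_sub_right, inner_self_one hn]
  have hz2 : (z - 1) ^ 2 ≤ ‖η‖ ^ 2 := by
    rw [← hz1]
    have h6 := abs_real_inner_le_norm (at' C v o) η
    rw [hn, one_mul] at h6
    rw [← sq_abs]
    exact pow_le_pow_left₀ (abs_nonneg _) h6 2
  have hz3 : 0 ≤ (4 * z - 3 + 4 * ‖η‖ ^ 2) * nuC C v o := by
    refine mul_nonneg ?_ hnu
    nlinarith [sq_nonneg (2 * z - 1)]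
  have k1 := sq_nonneg (inner ℝ (at' C v o) (dx C T o) : ℝ)
  have k2 := sq_nonneg (inner ℝ (at' C v o) (dy C T o) : ℝ)
  unfold KF
  rw [← hz]
  rw [d3] at hz3
  rw [d1, d2]
  linarith

end Pool.Agent.FPX
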