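import Mathlib
import Pool.Agent.FPX.KENA

/-
KENB (helper58): the weighted inequalities (H) used by the closing of scheme K, as hypotheses on a
surface (`HH` without, `HS` with a condition on the size of a superlevel set), and the lower bounds of
the quadratic form that they give.
-/

open MeasureTheory Set Filter Topology
open scoped ENNReal NNReal

noncomputable section

namespace Pool.Agent.FPX

open Pool.Agent.EWD

variable {M : Type} [MetricSpace M] {γ : ℝ → M}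

/-- admissible weights: `w ≤ ν` for a map `v` of degree one with `∫ ν + κ (c - c₀) ≤ X`, and
`w ≤ 2 e^{2c}` -/
structure Wt (C : Calc M γ) (κ c₀ X c : ℝ) (v : Fin 3 → M → ℝ) (w : Om → ℝ) : Prop where
  hc : c₀ ≤ c
  sph : Sph γ v
  deg : ∫ o, jac C v o ∂C.μ = 2 * Real.pi
  tot : ∫ o, nuC C v o ∂C.μ + κ * (c - c₀) ≤ X
  int : Integrable w C.μ
  nonneg : ∀ o, 0 ≤ w o
  le : ∀ o, w o ≤ nuC C v o
  bd : ∀ o, w o ≤ 2 * Real.exp c ^ 2

/-- (H): `4 ∫ w g² ≤ ∫ |dg|² + δ` for odd functions -/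
def HH (C : Calc M γ) (κ c₀ X δ : ℝ) : Prop := ∀ (c : ℝ) (v : Fin 3 → M → ℝ) (w : Om → ℝ),
  Wt C κ c₀ X c v w → ∀ g : M → ℝ, Lip g → FPM.OddB γ g → (∀ x, |g x| ≤ 8) →
    4 * ∫ o, w o * g (C.pt o) ^ 2 ∂C.μ ≤ ∫ o, gn C g o ^ 2 ∂C.μ + δ

/-- (H) with a side condition: if the area of `{t < |g|}` is at least `b c + ε`, then
`4 ∫ w g² + f c t² ≤ ∫ |dg|² + δ` -/
def HS (C : Calc M γ) (κ c₀ X δ ε s : ℝ) (b f : ℝ → ℝ) : Prop :=
  ∀ (c : ℝ) (v : Fin 3 → M → ℝ) (w : Om → ℝ),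
  Wt C κ c₀ X c v w → ∀ g : M → ℝ, Lip g → FPM.OddB γ g → (∀ x, |g x| ≤ 8) →
    ∀ t : ℝ, s * (1 - Real.exp (-c)) ≤ t → b c + ε ≤ C.μ.real {o | t < |g (C.pt o)|} →
      4 * ∫ o, w o * g (C.pt o) ^ 2 ∂C.μ + f c * t ^ 2 ≤ ∫ o, gn C g o ^ 2 ∂C.μ + δ

theorem nu_le_of_InW {C : Calc M γ} {v : Fin 3 → M → ℝ} (hv : Sph γ v) {o : Om} {l E : ℝ}
    (h : InW (l * 2) E (dx C v o) (dy C v o)) : nuC C v o ≤ 2 * l ^ 2 := by
  have hn := norm_at (C := C) hv o
  have k2 := h.m _ hn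
  have e1 : (2 : ℝ) * ‖qm (at' C v o) (dx C v o) (dy C v o)‖ =
      ‖prj (at' C v o) (dx C v o) - crs (at' C v o) (dy C v o)‖ := by
    unfold qm
    rw [norm_smul]
    norm_num
    ring
  unfold nuC nuv
  have h0 := norm_nonneg (qm (at' C v o) (dx C v o) (dy C v o))
  have h3 : ‖qm (at' C v o) (dx C v o) (dy C v o)‖ ≤ l := by linarith
  have := pow_le_pow_left₀ h0 h3 2
  linarith

/-- the bounded weight -/
def wN (C : Calc M γ) (v : Fin 3 → M → ℝ) (N : ℝ) (o : Om) : ℝ := min (nuC C v o) N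

variable [CompactSpace M]

theorem wN_int (C : Calc M γ) {v : Fin 3 → M → ℝ} (hv : ∀ k, Lip (v k)) (N : ℝ) :
    Integrable (wN C v N) C.μ :=
  nuC_cint C hv (φ := fun x => min x N) (by fun_prop)

theorem Wt_of (C : Calc M γ) {κ c₀ X c : ℝ} {v : Fin 3 → M → ℝ} (hc : c₀ ≤ c) (hv : Sph γ v)
    (hJ : ∫ o, jac C v o ∂C.μ = 2 * Real.pi) (hX : ∫ o, nuC C v o ∂C.μ + κ * (c - c₀) ≤ X) :
    Wt C κ c₀ X c v (wN C v (2 * Real.exp c ^ 2)) :=
  ⟨hc, hv, hJ, hX, wN_int C hv.lip _, fun _ => le_min (nuv_nonneg _ _ _) (by positivity),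
    fun _ => min_le_left _ _, fun _ => min_le_right _ _⟩

theorem mulsq_int (C : Calc M γ) {w : Om → ℝ} (hw : Integrable w C.μ) {g : M → ℝ} (hg : Lip g) {R : ℝ}
    (hR : ∀ x, |g x| ≤ R) : Integrable (fun o => w o * g (C.pt o) ^ 2) C.μ := by
  refine (hw.norm.mul_const (R ^ 2)).mono'
    (hw.aestronglyMeasurable.mul ((C.mpt g hg).pow_const 2).aestronglyMeasurable)
    (Eventually.of_forall fun o => ?_)
  rw [norm_mul]
  refine mul_le_mul_of_nonneg_left ?_ (norm_nonneg _)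
  rw [Real.norm_eq_abs, abs_of_nonneg (sq_nonneg _), ← sq_abs]
  exact pow_le_pow_left₀ (abs_nonneg _) (hR _) 2

/-- the weight may be cut off, since the exceptional set is small -/
theorem nug_le (C : Calc M γ) {v : Fin 3 → M → ℝ} {c c' : ℝ} {A : Set Om} (h : KA C 2 1 v c c' A)
    {g : M → ℝ} (hg : Lip g) {R : ℝ} (hR : ∀ x, |g x| ≤ R) :
    ∫ o, nuC C v o * g (C.pt o) ^ 2 ∂C.μ ≤
      ∫ o, wN C v (2 * Real.exp c ^ 2) o * g (C.pt o) ^ 2 ∂C.μ
        + 2 * Real.exp c' ^ 2 * R ^ 2 * C.μ.real A := by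
  have := C.fin
  have i1 : Integrable (fun o => nuC C v o * g (C.pt o) ^ 2) C.μ :=
    mulsq_int C (nuC_cint C h.sph.lip continuous_id) hg hR
  have i2 := mulsq_int C (wN_int C h.sph.lip (2 * Real.exp c ^ 2)) hg hR
  have i3 : Integrable (A.indicator fun _ => 2 * Real.exp c' ^ 2 * R ^ 2) C.μ :=
    (integrable_const _).indicator₀ h.meas
  have e : ∫ o, A.indicator (fun _ => 2 * Real.exp c' ^ 2 * R ^ 2) o ∂C.μ =
      2 * Real.exp c' ^ 2 * R ^ 2 * C.μ.real A := by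
    rw [integral_indicator₀ h.meas, integral_const, smul_eq_mul, mul_comm]
    congr 1
    simp [Measure.real]
  rw [← e, ← integral_add i2 i3]
  refine integral_mono_ae i1 (i2.add i3) ?_
  filter_upwards [h.inA, h.out] with o h1 h2
  have hgR : g (C.pt o) ^ 2 ≤ R ^ 2 := by
    rw [← sq_abs]
    exact pow_le_pow_left₀ (abs_nonneg _) (hR _) 2
  have hg0 := sq_nonneg (g (C.pt o))
  by_cases ho : o ∈ A
  · have k := nu_le_of_InW h.sph h1
    rw [indicator_of_mem ho]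
    have w0 : 0 ≤ wN C v (2 * Real.exp c ^ 2) o := le_min (nuv_nonneg _ _ _) (by positivity)
    have k2 : nuC C v o * g (C.pt o) ^ 2 ≤ 2 * Real.exp c' ^ 2 * R ^ 2 :=
      mul_le_mul k hgR hg0 (by positivity)
    have k3 := mul_nonneg w0 hg0
    linarith
  · have k := nu_le_of_InW h.sph (h2 ho)
    rw [indicator_of_notMem ho, add_zero]
    have : wN C v (2 * Real.exp c ^ 2) o = nuC C v o := min_eq_left k
    rw [this]

/-- the form is integrable -/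
theorem KF_int (C : Calc M γ) {v T : Fin 3 → M → ℝ} (hv : Sph γ v) (hT : ∀ k, Lip (T k)) :
    Integrable (KF C v T) C.μ := by
  have i1 := Qtau_cint C hv hT 1
  have i2 : Integrable (fun o => dnuC C v T o) C.μ := by
    have := dnuC_cint C hv.lip hT (φ := fun _ => (1 : ℝ)) continuous_const
    simpa only [one_mul] using this
  refine (i1.sub (i2.const_mul 2)).congr ?_
  filter_upwards [ae_perp C hv] with o ho
  exact KF_id (norm_at hv o) ho.1 ho.2 (at' C T o) _ _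

/-- the scalar form of a component -/
def sF (C : Calc M γ) (v T : Fin 3 → M → ℝ) (a : E3) : ℝ :=
  ∫ o, gn C (gA v T a) o ^ 2 ∂C.μ - 4 * ∫ o, nuC C v o * gA v T a (C.pt o) ^ 2 ∂C.μ

theorem KF_split (C : Calc M γ) {v T : Fin 3 → M → ℝ} (hv : Sph γ v) (hT : ∀ k, Lip (T k)) {K : ℝ}
    (hK : ∀ x, ‖vv (n := 0) T x‖ ≤ K) {a b : E3}
    (ha : inner ℝ a a = (1 : ℝ)) (hb : inner ℝ b b = (1 : ℝ)) (hab : inner ℝ a b = (0 : ℝ)) :
    sF C v T a + sF C v T b + sF C v T (crs a b) ≤ ∫ o, KF C v T o ∂C.μ := by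
  have na : ‖a‖ = 1 := by
    have h := real_inner_self_eq_norm_sq a
    rw [ha] at h
    nlinarith [norm_nonneg a]
  have nb : ‖b‖ = 1 := by
    have h := real_inner_self_eq_norm_sq b
    rw [hb] at h
    nlinarith [norm_nonneg b]
  have nc := norm_crs_one ha hb hab
  have i : ∀ w : E3, ‖w‖ = 1 → Integrable (fun o => nuC C v o * gA v T w (C.pt o) ^ 2) C.μ :=
    fun w hw => mulsq_int C (nuC_cint C hv.lip continuous_id) (gA_lip hv.lip hT w) (gA_bd hv hK hw)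
  have j : ∀ w : E3, Integrable (fun o => gn C (gA v T w) o ^ 2) C.μ :=
    fun w => int_gn_sq C (gA_lip hv.lip hT w)
  have k : ∀ w : E3, ‖w‖ = 1 → Integrable (fun o => gn C (gA v T w) o ^ 2 -
      4 * (nuC C v o * gA v T w (C.pt o) ^ 2)) C.μ := fun w hw => (j w).sub ((i w hw).const_mul 4)
  have e : ∀ w : E3, ‖w‖ = 1 → sF C v T w = ∫ o, (gn C (gA v T w) o ^ 2 -
      4 * (nuC C v o * gA v T w (C.pt o) ^ 2)) ∂C.μ := fun w hw => by
    rw [integral_sub (j w) ((i w hw).const_mul 4), integral_const_mul]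
    rfl
  rw [e a na, e b nb, e _ nc, ← integral_add (k a na) (k b nb)]
  refine (integral_add ((k a na).add (k b nb)) (k _ nc)).symm.trans_le ?_
  exact integral_mono_ae (((k a na).add (k b nb)).add (k _ nc)) (KF_int C hv hT) (KF_ge C hv hT ha hb hab)

/-- the lower bound of a scalar form from (H) -/
theorem sF_ge (C : Calc M γ) {κ c₀ X δ : ℝ} (hH : HH C κ c₀ X δ) {v : Fin 3 → M → ℝ} {c c' : ℝ}
    {A : Set Om} (h : KA C 2 1 v c c' A) (hc : c₀ ≤ c) (hJ : ∫ o, jac C v o ∂C.μ = 2 * Real.pi)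
    (hX : ∫ o, nuC C v o ∂C.μ + κ * (c - c₀) ≤ X) {T : Fin 3 → M → ℝ} (hT : TZ C 2 1 7 T) {a : E3}
    (ha : ‖a‖ = 1) : -(δ + 4 * (2 * Real.exp c' ^ 2 * 8 ^ 2 * C.μ.real A)) ≤ sF C v T a := by
  have hg := gA_lip h.sph.lip hT.lip a
  have hb : ∀ x, |gA v T a x| ≤ 8 := fun x => (gA_bd h.sph hT.bd ha x).trans (by norm_num)
  have h1 := hH c v _ (Wt_of C hc h.sph hJ hX) (gA v T a) hg (gA_odd h.sph.odd hT.odd a) hb
  have h2 := nug_le C h hg hb
  unfold sF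
  linarith

/-- the lower bound of a scalar form from (H) with side condition -/
theorem sF_ge' (C : Calc M γ) {κ c₀ X δ ε s : ℝ} {b f : ℝ → ℝ} (hH : HS C κ c₀ X δ ε s b f)
    {v : Fin 3 → M → ℝ} {c c' : ℝ}
    {A : Set Om} (h : KA C 2 1 v c c' A) (hc : c₀ ≤ c) (hJ : ∫ o, jac C v o ∂C.μ = 2 * Real.pi)
    (hX : ∫ o, nuC C v o ∂C.μ + κ * (c - c₀) ≤ X) {T : Fin 3 → M → ℝ} (hT : TZ C 2 1 7 T) {a : E3}
    (ha : ‖a‖ = 1) {t : ℝ} (ht : s * (1 - Real.exp (-c)) ≤ t)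
    (hb : b c + ε ≤ C.μ.real {o | t < |gA v T a (C.pt o)|}) :
    f c * t ^ 2 - (δ + 4 * (2 * Real.exp c' ^ 2 * 8 ^ 2 * C.μ.real A)) ≤ sF C v T a := by
  have hg := gA_lip h.sph.lip hT.lip a
  have hb' : ∀ x, |gA v T a x| ≤ 8 := fun x => (gA_bd h.sph hT.bd ha x).trans (by norm_num)
  have h1 := hH c v _ (Wt_of C hc h.sph hJ hX) (gA v T a) hg (gA_odd h.sph.odd hT.odd a) hb' t ht hb
  have h2 := nug_le C h hg hb'
  unfold sF
  linarith

end Pool.Agent.FPX
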