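import Mathlib
import Pool.Agent.FPX.EMK2
import Pool.Agent.FPX.KIN

/-
KIN2 (helper30): interface of scheme K with an exceptional set (EMK2, helper58). `kint2`, `kin2_L2`:
explicit condition on the size of the set `{d < e^{-c} - ⟨v, Θ⟩}`; `kin2_th`: the size `θ` is chosen
before the surface.
-/

open MeasureTheory Set Filter Topology
open scoped ENNReal NNReal

noncomputable section

namespace Pool.Agent.FPX

open Pool.Agent.EWD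

variable {M : Type} [MetricSpace M] {γ : ℝ → M}

/-! ### the bounds in the class -/

private theorem KIN2_nu {C : Calc M γ} {v : Fin 3 → M → ℝ} (hv : Sph γ v) {o : Om} {r : ℝ}
    (ho : InW (r * 2) (r ^ 2 * 1) (dx C v o) (dy C v o)) : nuC C v o ≤ 2 * r ^ 2 := by
  have hn := norm_at (C := C) hv o
  have k2 := ho.m _ hn
  have e1 : (2 : ℝ) * ‖qm (at' C v o) (dx C v o) (dy C v o)‖ =
      ‖prj (at' C v o) (dx C v o) - crs (at' C v o) (dy C v o)‖ := by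
    unfold qm
    rw [norm_smul]
    norm_num
    ring
  have h0 := norm_nonneg (qm (at' C v o) (dx C v o) (dy C v o))
  have h3 : ‖qm (at' C v o) (dx C v o) (dy C v o)‖ ≤ r := by
    rw [← e1] at k2
    linarith
  have := pow_le_pow_left₀ h0 h3 2
  unfold nuC nuv
  linarith

/-- the bound of `ν` off the exceptional set -/
theorem KA.nu_out {C : Calc M γ} {v : Fin 3 → M → ℝ} {c c' : ℝ} {A : Set Om} (h : KA C 2 1 v c c' A) :
    ∀ᵐ o ∂C.μ, o ∉ A → nuC C v o ≤ 2 * Real.exp c ^ 2 := by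
  filter_upwards [h.out] with o ho hA
  exact KIN2_nu h.sph (ho hA)

/-- the bound of `ν` everywhere -/
theorem KA.nu_in {C : Calc M γ} {v : Fin 3 → M → ℝ} {c c' : ℝ} {A : Set Om} (h : KA C 2 1 v c c' A) :
    ∀ᵐ o ∂C.μ, nuC C v o ≤ 2 * Real.exp c' ^ 2 := by
  filter_upwards [h.inA] with o ho
  exact KIN2_nu h.sph ho

/-- the bound of the gradient off the exceptional set -/
theorem KA.grad_out {C : Calc M γ} {v : Fin 3 → M → ℝ} {c c' : ℝ} {A : Set Om} (h : KA C 2 1 v c c' A) :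
    ∀ᵐ o ∂C.μ, o ∉ A → ‖dx C v o‖ ^ 2 + ‖dy C v o‖ ^ 2 ≤ 2 * Real.exp c ^ 2 := by
  filter_upwards [h.out] with o ho hA
  simpa using (ho hA).s

/-- the bound of the gradient everywhere -/
theorem KA.grad_in {C : Calc M γ} {v : Fin 3 → M → ℝ} {c c' : ℝ} {A : Set Om} (h : KA C 2 1 v c c' A) :
    ∀ᵐ o ∂C.μ, ‖dx C v o‖ ^ 2 + ‖dy C v o‖ ^ 2 ≤ 2 * Real.exp c' ^ 2 := by
  filter_upwards [h.inA] with o ho
  simpa using ho.s

/-- the gradient of `Θ` -/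
theorem Th_grad (C : Calc M γ) (F : Fam γ) :
    ∀ᵐ o ∂C.μ, ‖dx C F.Th o‖ ^ 2 + ‖dy C F.Th o‖ ^ 2 ≤ 2 := by
  filter_upwards [(Th_TZ C F (Λ := 2) (E := 1) le_rfl le_rfl).inW] with o ho
  simpa using ho.s

/-- the set with the large growth shrinks when `d` grows -/
theorem hA_anti (C : Calc M γ) (v Z : Fin 3 → M → ℝ) (c : ℝ) {d d' : ℝ} (h : d ≤ d') :
    hA C v Z c d' ⊆ hA C v Z c d := fun _ ho => lt_of_le_of_lt h ho

variable [CompactSpace M]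

/-- **interface K with an exceptional set** -/
theorem kint2 (C : Calc M γ) (hγ : Bd γ) (hR : RegAE C) {φ φ' : ℝ → ℝ} {s L : ℝ} (P : Pen φ φ' s L)
    {κ κ' β c₀ : ℝ} (hκ : 0 ≤ κ) (hκ' : 0 ≤ κ') (hβ : 0 ≤ β) {U : Fin 3 → M → ℝ}
    (hU : KY C 2 1 U (fun _ => c₀)) (hUJ : ∫ o, jac C U o ∂C.μ = 2 * Real.pi) {X : ℝ}
    (hUX : Ph C φ U < X) (hX : X < 2 * Real.pi) {ε : ℝ} (hε : 0 < ε) {V : ℝ} (hV : C.vol ≤ V) :
    ∃ (v : Fin 3 → M → ℝ) (c c' : ℝ) (A : Set Om) (F : Fam γ), c₀ ≤ c ∧ KA C 2 1 v c c' A ∧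
      ∫ o, jac C v o ∂C.μ = 2 * Real.pi ∧
      Ph C φ v + κ * (c - c₀) + κ' * (c' - c₀) + β * C.μ.real A < X ∧ Pre γ F.Th ∧
      (∀ q : Om → ℝ, Integrable q C.μ →
        (∀ᵐ o ∂C.μ, QLow (at' C v o) (dx C v o) (dy C v o) (dx C F.Th o) (dy C F.Th o) (q o)) →
        ∫ o, q o ∂C.μ ≤ 3 * (C.vol - 2 * Real.pi) + ε) ∧
      ∀ d : ℝ, 0 ≤ d → d ≤ 8 →
        β * C.μ.real (hA C v F.Th c d) ≤ stA V 7 1 s L (κ + κ') X ε * (ε / 4) →
        -ε ≤ ∫ o, φ' (nuC C v o) * dnuC C v F.Th o ∂C.μ + κ * d + 8 * κ' := by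
  obtain ⟨v, c, c', A, hc, hv, hvJ, hvX, hvar⟩ := emk2 C hγ hR P (Λ := 2) (E := 1) (by norm_num)
    (by norm_num) hκ hκ' hβ hU hUJ hUX hX (K := 7) (by norm_num) hε hV
  have hpi := Real.pi_pos
  obtain ⟨F, hF, hfl⟩ := fam_of C hγ hR hv.sph (ε := Real.pi / 12 * ε) (by positivity)
  refine ⟨v, c, c', A, F, hc, hv, hvJ, hvX, hF, fun q hq h => ?_, fun d hd0 hd8 hd => ?_⟩
  · have h1 := int_QLow_le C hv.sph F hfl hvJ.le hq h
    have e : 12 / Real.pi * (Real.pi / 12 * ε) = ε := by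
      field_simp
    linarith
  · have := hvar F.Th d (Th_TZ C F le_rfl le_rfl) hd0 (by linarith) hd
    linarith

/-- **the quadratic form of scheme K with an exceptional set** -/
theorem kin2_L2 (C : Calc M γ) (hγ : Bd γ) (hR : RegAE C)
    {κ κ' β c₀ : ℝ} (hκ : 0 ≤ κ) (hκ' : 0 ≤ κ') (hβ : 0 ≤ β) {U : Fin 3 → M → ℝ}
    (hU : KY C 2 1 U (fun _ => c₀)) (hUJ : ∫ o, jac C U o ∂C.μ = 2 * Real.pi) {X : ℝ}
    (hUX : ∫ o, nuC C U o ∂C.μ < X) (hX : X < 2 * Real.pi) {ε : ℝ} (hε : 0 < ε) {V : ℝ}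
    (hV : C.vol ≤ V) :
    ∃ (v : Fin 3 → M → ℝ) (c c' : ℝ) (A : Set Om) (F : Fam γ), c₀ ≤ c ∧ KA C 2 1 v c c' A ∧
      ∫ o, jac C v o ∂C.μ = 2 * Real.pi ∧
      ∫ o, nuC C v o ∂C.μ + κ * (c - c₀) + κ' * (c' - c₀) + β * C.μ.real A < X ∧ Pre γ F.Th ∧
      ∀ d : ℝ, 0 ≤ d → d ≤ 8 →
        β * C.μ.real (hA C v F.Th c d) ≤ stA V 7 1 1 0 (κ + κ') X ε * (ε / 4) →
        ∫ o, KF C v F.Th o ∂C.μ ≤ 3 * (C.vol - 2 * Real.pi) + 3 * ε + 2 * κ * d + 16 * κ' := by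
  obtain ⟨v, c, c', A, F, hc, hv, hvJ, hvX, hF, hA, hB⟩ := kint2 C hγ hR pen_id hκ hκ' hβ hU hUJ
    (X := X) hUX hX hε hV
  refine ⟨v, c, c', A, F, hc, hv, hvJ, hvX, hF, fun d hd0 hd8 hd => ?_⟩
  have hT : ∀ k, Lip (F.Th k) := fun k => ⟨3, hF.lip k⟩
  have i1 := Qtau_cint C hv.sph hT 1
  have i2 : Integrable (fun o => dnuC C v F.Th o) C.μ := by
    have := dnuC_cint C hv.sph.lip hT (φ := fun _ => (1 : ℝ)) continuous_const
    simpa only [one_mul] using this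
  have h1 := hA _ i1 (by
    filter_upwards [ae_perp C hv.sph] with o ho
    exact QLow_tau (norm_at hv.sph o) ho.1 ho.2 _ _ one_pos)
  have h2 := hB d hd0 hd8 hd
  simp only [one_mul] at h2
  have e : ∫ o, KF C v F.Th o ∂C.μ =
      ∫ o, Qtau 1 (at' C v o) (dx C v o) (dy C v o) (dx C F.Th o) (dy C F.Th o) ∂C.μ
        - 2 * ∫ o, dnuC C v F.Th o ∂C.μ := by
    rw [← integral_const_mul, ← integral_sub i1 (i2.const_mul 2)]
    refine integral_congr_ae ?_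
    filter_upwards [ae_perp C hv.sph] with o ho
    exact (KF_id (norm_at hv.sph o) ho.1 ho.2 (at' C F.Th o) _ _).symm
  rw [e]
  linarith

omit [CompactSpace M] in
/-- **the same with the size `θ` of the set chosen before the surface** -/
theorem kin2_th {κ κ' β X ε V : ℝ} (hκ : 0 ≤ κ) (hκ' : 0 ≤ κ') (hβ : 0 ≤ β) (hX : X < 2 * Real.pi)
    (hε : 0 < ε) (hV0 : 0 ≤ V) :
    ∃ θ : ℝ, 0 < θ ∧ ∀ (M : Type) [MetricSpace M] [CompactSpace M] (γ : ℝ → M) (C : Calc M γ),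
      Bd γ → RegAE C → C.vol ≤ V → ∀ (U : Fin 3 → M → ℝ) (c₀ : ℝ), KY C 2 1 U (fun _ => c₀) →
      ∫ o, jac C U o ∂C.μ = 2 * Real.pi → ∫ o, nuC C U o ∂C.μ < X →
      ∃ (v : Fin 3 → M → ℝ) (c c' : ℝ) (A : Set Om) (F : Fam γ), c₀ ≤ c ∧ KA C 2 1 v c c' A ∧
        ∫ o, jac C v o ∂C.μ = 2 * Real.pi ∧
        ∫ o, nuC C v o ∂C.μ + κ * (c - c₀) + κ' * (c' - c₀) + β * C.μ.real A < X ∧ Pre γ F.Th ∧
        ∀ d : ℝ, 0 ≤ d → d ≤ 8 → C.μ.real (hA C v F.Th c d) ≤ θ →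
          ∫ o, KF C v F.Th o ∂C.μ ≤ 3 * (C.vol - 2 * Real.pi) + 3 * ε + 2 * κ * d + 16 * κ' := by
  have hst : 0 < stA V 7 1 1 0 (κ + κ') X ε :=
    stA_pos hV0 (by norm_num) (by norm_num) (by norm_num) le_rfl (by linarith) hX hε
  refine ⟨stA V 7 1 1 0 (κ + κ') X ε * (ε / 4) / (β + 1), by positivity, ?_⟩
  intro M _ _ γ C hγ hR hV U c₀ hU hUJ hUX
  obtain ⟨v, c, c', A, F, hc, hv, hvJ, hvX, hF, h⟩ := kin2_L2 C hγ hR hκ hκ' hβ hU hUJ hUX hX hε hV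
  refine ⟨v, c, c', A, F, hc, hv, hvJ, hvX, hF, fun d hd0 hd8 hd => h d hd0 hd8 ?_⟩
  rw [le_div_iff₀ (by linarith)] at hd
  have h0 : 0 ≤ C.μ.real (hA C v F.Th c d) := measureReal_nonneg
  nlinarith

end Pool.Agent.FPX
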