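import Mathlib
import Pool.Agent.FPX.KENB
import Pool.Agent.FPX.KIN2
import Pool.Agent.FPX.GRO

/-
KEND (helper58): the closing of scheme K. If some odd map of degree one in the class `e^{c₀} W(2,1)` has
`∫ ν < X` and the weighted inequalities (H) hold on the surface, without and with side condition, then
the area is at least `2π - δ`. The tolerance of the isoperimetric inequality is chosen from the
constants only.
-/

open MeasureTheory Set Filter Topology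
open scoped ENNReal NNReal

noncomputable section

namespace Pool.Agent.FPX

open Pool.Agent.EWD

theorem exists_perp1 (a : E3) : ∃ b : E3, inner ℝ b b = (1 : ℝ) ∧ inner ℝ a b = (0 : ℝ) := by
  by_cases h : a 0 ^ 2 + a 1 ^ 2 = 0
  · have h0 : a 0 = 0 := by
      have h1 : a 0 ^ 2 = 0 := by nlinarith [sq_nonneg (a 0), sq_nonneg (a 1)]
      exact pow_eq_zero_iff (two_ne_zero) |>.1 h1
    refine ⟨!₂[1, 0, 0], ?_, ?_⟩
    · rw [inner3]
      change (1 : ℝ) * 1 + 0 * 0 + 0 * 0 = 1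
      norm_num
    · rw [inner3]
      change a 0 * (1 : ℝ) + a 1 * 0 + a 2 * 0 = 0
      rw [h0]
      norm_num
  · have hp : 0 < a 0 ^ 2 + a 1 ^ 2 := lt_of_le_of_ne (by positivity) (Ne.symm h)
    set r := √(a 0 ^ 2 + a 1 ^ 2) with hr
    have hr2 : r ^ 2 = a 0 ^ 2 + a 1 ^ 2 := Real.sq_sqrt hp.le
    have hr0 : 0 < r := Real.sqrt_pos.2 hp
    refine ⟨!₂[-(a 1) / r, a 0 / r, 0], ?_, ?_⟩
    · rw [inner3]
      change (-(a 1) / r) * (-(a 1) / r) + (a 0 / r) * (a 0 / r) + (0 : ℝ) * 0 = 1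
      field_simp
      linarith
    · rw [inner3]
      change a 0 * (-(a 1) / r) + a 1 * (a 0 / r) + a 2 * (0 : ℝ) = 0
      ring

variable {M : Type} [MetricSpace M] {γ : ℝ → M}

/-- the direction in which a superlevel set is large -/
theorem ken_dir (C : Calc M γ) {κI ε₁ : ℝ} (hI : FPM.IsopO C κI ε₁) (hκI : 0 < κI)
    {v T : Fin 3 → M → ℝ} {c c' : ℝ} {A : Set Om} (h : KA C 2 1 v c c' A) (hT : TZ C 2 1 7 T)
    {s σ : ℝ} (hs : 0 < s) (hsσ : s < σ) (hσ : σ < 1) {n : ℕ}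
    (hnet : ∀ (Ω : Type) [MeasurableSpace Ω] (μ : Measure Ω) [IsFiniteMeasure μ] (w : Ω → E3) (h a : ℝ),
      0 ≤ h → 0 ≤ a → a < (μ {o | h ≤ ‖w o‖}).toReal →
      ∃ e : E3, ‖e‖ = 1 ∧ a / n < (μ {o | (1 - (1 - σ) / 3) * h ≤ inner ℝ e (w o)}).toReal)
    {d θ B₀ qq : ℝ} (hd : 0 ≤ d) (hc : 0 < c) (hθ0 : 0 ≤ θ) (hθ : θ < C.μ.real (hA C v T c d))
    (hB : 0 < B₀) (hB0 : B₀ ^ 2 + ε₁ ≤ θ / n)
    (hq : √2 * (Real.exp c' + 1) * C.μ.real A ≤ qq)
    (hqB : qq ≤ √κI * ((1 - σ) / 3) * (1 - Real.exp (-c)) * B₀) :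
    ∃ a : E3, ‖a‖ = 1 ∧
      κI * ((σ - s) * (1 - Real.exp (-c) + d)) ^ 2 / (4 * (√2 * (Real.exp c + 1)) ^ 2) + ε₁ ≤
        C.μ.real {o | s * (1 - Real.exp (-c) + d) < |gA v T a (C.pt o)|} := by
  have := C.fin
  set ρ := (1 - σ) / 3 with hρ
  have hρ0 : 0 < ρ := by rw [hρ]; linarith
  have hqc : 0 < 1 - Real.exp (-c) := by
    have : Real.exp (-c) < 1 := by
      rw [← Real.exp_zero]
      exact Real.exp_lt_exp.mpr (by linarith)
    linarith
  set hh := 1 - Real.exp (-c) + d with hhd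
  have hh0 : 0 < hh := by rw [hhd]; linarith
  have e0 : ∀ o, at' C (etaK v T) o = at' C T o - at' C v o := fun o => vv_eta v T (C.pt o)
  have hsub : hA C v T c d ⊆ {o | hh ≤ ‖at' C (etaK v T) o‖} := by
    intro o ho
    have ho' : d < Real.exp (-c) - inner ℝ (at' C v o) (at' C T o) := ho
    have hn : ‖at' C v o‖ = 1 := norm_at h.sph o
    have h1 := abs_real_inner_le_norm (at' C v o) (at' C (etaK v T) o)
    rw [hn, one_mul] at h1
    have h2 : inner ℝ (at' C v o) (at' C (etaK v T) o) = inner ℝ (at' C v o) (at' C T o) - 1 := by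
      rw [e0, inner_sub_right, inner_self_one hn]
    rw [h2] at h1
    have h3 := neg_abs_le (inner ℝ (at' C v o) (at' C T o) - 1 : ℝ)
    change hh ≤ ‖at' C (etaK v T) o‖
    linarith
  have hθ' : θ < (C.μ {o | hh ≤ ‖at' C (etaK v T) o‖}).toReal :=
    hθ.trans_le (ENNReal.toReal_mono (measure_ne_top _ _) (measure_mono hsub))
  obtain ⟨a, ha, hlt⟩ := hnet Om C.μ (fun o => at' C (etaK v T) o) hh θ hh0.le hθ0 hθ'
  refine ⟨a, ha, ?_⟩
  set h' := (1 - 2 * ρ) * hh with hh'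
  have hsub2 : {o | (1 - ρ) * hh ≤ inner ℝ a (at' C (etaK v T) o)} ⊆ {o | h' < |gA v T a (C.pt o)|} := by
    intro o ho
    have ho' : (1 - ρ) * hh ≤ inner ℝ a (at' C (etaK v T) o) := ho
    have h1 : gA v T a (C.pt o) = inner ℝ a (at' C (etaK v T) o) := rfl
    have h2 := le_abs_self (gA v T a (C.pt o))
    change h' < |gA v T a (C.pt o)|
    rw [h1] at h2 ⊢
    have h3 : 0 < ρ * hh := mul_pos hρ0 hh0
    rw [hh']
    linarith
  have hlev : B₀ ^ 2 + ε₁ ≤ (C.μ {o | h' < |gA v T a (C.pt o)|}).toReal :=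
    hB0.trans (hlt.le.trans (ENNReal.toReal_mono (measure_ne_top _ _) (measure_mono hsub2)))
  have s20 : 0 < √(2 : ℝ) := Real.sqrt_pos.2 (by norm_num)
  set L := √2 * (Real.exp c + 1) with hL
  have hL0 : 0 < L := by
    have := Real.exp_pos c
    positivity
  have hgn := gn_gA_le C h.sph.lip hT.lip hT.inW
  have hLO : ∀ᵐ o ∂C.μ, o ∉ A → gn C (gA v T a) o ≤ L := by
    filter_upwards [hgn, h.out] with o h1 h2 ho
    exact h1 c a ha (h2 ho)
  have hglip := gA_lip h.sph.lip hT.lip a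
  have hq1 : ∫ o in A, gn C (gA v T a) o ∂C.μ ≤ qq := by
    refine le_trans ?_ hq
    have h1 : ∫ o in A, gn C (gA v T a) o ∂C.μ ≤ ∫ _ in A, √2 * (Real.exp c' + 1) ∂C.μ := by
      refine integral_mono_ae (int_gn C hglip).integrableOn (integrable_const _) ?_
      refine ae_restrict_of_ae ?_
      filter_upwards [hgn, h.inA] with o h1 h2
      exact h1 c' a ha h2
    refine h1.trans (le_of_eq ?_)
    rw [integral_const, smul_eq_mul, mul_comm]
    simp [Measure.real]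
  have h2s : 1 - 2 * ρ - ρ = σ := by rw [hρ]; ring
  have key := gro_exc C hI hκI.le hglip (gA_odd h.sph.odd hT.odd a) h.meas hL0 hLO hq1
    (t := s * hh) (h := h') (B0 := B₀) (by positivity) (by
      rw [hh']
      exact mul_le_mul_of_nonneg_right (by linarith) hh0.le) hB hlev
  set m := (C.μ {o | s * hh < |gA v T a (C.pt o)|}).toReal with hm
  have sk : 0 < √κI := Real.sqrt_pos.2 hκI
  have k1 : qq / (2 * L * B₀) ≤ √κI * (ρ * hh) / (2 * L) := by
    rw [div_le_div_iff₀ (by positivity) (by positivity)]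
    have k2 : qq ≤ √κI * (ρ * hh) * B₀ := by
      refine hqB.trans ?_
      have : √κI * ρ * (1 - Real.exp (-c)) * B₀ ≤ √κI * ρ * hh * B₀ := by
        refine mul_le_mul_of_nonneg_right ?_ hB.le
        exact mul_le_mul_of_nonneg_left (by linarith) (by positivity)
      linarith
    nlinarith
  have k3 : √κI * (h' - s * hh) / (2 * L) - √κI * (ρ * hh) / (2 * L) = √κI * ((σ - s) * hh) / (2 * L) := by
    rw [← sub_div, hh', ← h2s]
    ring
  have k4 : √κI * ((σ - s) * hh) / (2 * L) ≤ √(m - ε₁) := by linarith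
  have k5 : 0 < √κI * ((σ - s) * hh) / (2 * L) := by
    have : 0 < σ - s := by linarith
    positivity
  have k6 : 0 < m - ε₁ := Real.sqrt_pos.1 (k5.trans_le k4)
  have k7 := pow_le_pow_left₀ k5.le k4 2
  rw [Real.sq_sqrt k6.le, div_pow, mul_pow, Real.sq_sqrt hκI.le] at k7
  have k8 : κI * ((σ - s) * hh) ^ 2 / (4 * L ^ 2) = κI * ((σ - s) * hh) ^ 2 / (2 * L) ^ 2 := by
    congr 1
    ring
  rw [k8]
  change _ ≤ m
  linarith

/-- the choice of the error `d` -/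
theorem ken_d {D : Set ℝ} (h8 : (8 : ℝ) ∈ D) (h0 : ∀ d ∈ D, 0 ≤ d) {δ' : ℝ} (hδ : 0 < δ') :
    ∃ d ∈ D, d < δ' ∨ (δ' ≤ d ∧ d - δ' ∉ D) := by
  have hb : BddBelow D := ⟨0, fun d hd => h0 d hd⟩
  obtain ⟨d, hd, hlt⟩ := Real.lt_sInf_add_pos ⟨8, h8⟩ hδ
  refine ⟨d, hd, ?_⟩
  rcases lt_or_ge d δ' with h | h
  · exact Or.inl h
  · refine Or.inr ⟨h, fun hh => ?_⟩
    have := csInf_le hb hh
    linarith

theorem ken_one {x : ℝ} (h0 : 0 ≤ x) (h : x ^ 2 = 1) : x = 1 := by nlinarith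

theorem ken_B {E X κI ρ q S ε n β : ℝ} (hκI : 0 < κI) (hρ : 0 < ρ) (hq : 0 < q) (hS : 0 < S)
    (hε : 0 < ε) (hn : 0 < n) (hβ : 0 < β)
    (h : 16 * n * (E + 1) ^ 2 * X ^ 2 / (κI * ρ ^ 2 * q ^ 2 * (S * ε)) ≤ β) :
    (√2 * (E + 1) * (X / β) / (√κI * ρ * q)) ^ 2 ≤ S * (ε / 4) / β / (2 * n) := by
  have s22 : √(2 : ℝ) ^ 2 = 2 := Real.sq_sqrt (by norm_num)
  have sk2 : √κI ^ 2 = κI := Real.sq_sqrt hκI.le
  rw [div_le_iff₀ (by positivity)] at h
  have e1 : (√2 * (E + 1) * (X / β) / (√κI * ρ * q)) ^ 2 =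
      (2 * (E + 1) ^ 2 * X ^ 2) / (κI * ρ ^ 2 * q ^ 2 * β ^ 2) := by
    rw [div_pow, mul_pow, mul_pow, mul_pow, mul_pow, div_pow, s22, sk2]
    field_simp
  have e2 : S * (ε / 4) / β / (2 * n) = (S * ε) / (8 * n * β) := by
    field_simp
    norm_num
  rw [e1, e2, div_le_div_iff₀ (by positivity) (by positivity)]
  calc 2 * (E + 1) ^ 2 * X ^ 2 * (8 * n * β) = β * (16 * n * (E + 1) ^ 2 * X ^ 2) := by ring
    _ ≤ β * (β * (κI * ρ ^ 2 * q ^ 2 * (S * ε))) := mul_le_mul_of_nonneg_left h hβ.le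
    _ = S * ε * (κI * ρ ^ 2 * q ^ 2 * β ^ 2) := by ring

theorem ken_scal {κ q f s h : ℝ} (hκ : 0 < κ) (hq : 0 < q) (h0 : κ ≤ 2 * q * f * s ^ 2)
    (hh : q ≤ h) : 2 * κ * (h - q) ≤ f * (s * h) ^ 2 := by
  have k1 : 0 < f * s ^ 2 := by
    by_contra hcon
    push Not at hcon
    have : 2 * q * f * s ^ 2 = 2 * q * (f * s ^ 2) := by ring
    rw [this] at h0
    have := mul_nonpos_of_nonneg_of_nonpos (show 0 ≤ 2 * q by linarith) hcon
    linarith
  have k2 : 4 * q * (h - q) ≤ h ^ 2 := by nlinarith [sq_nonneg (h - 2 * q)]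
  have k4 : 0 ≤ h - q := by linarith
  calc 2 * κ * (h - q) ≤ 2 * (2 * q * f * s ^ 2) * (h - q) :=
        mul_le_mul_of_nonneg_right (by linarith) k4
    _ = f * s ^ 2 * (4 * q * (h - q)) := by ring
    _ ≤ f * s ^ 2 * h ^ 2 := mul_le_mul_of_nonneg_left k2 k1.le
    _ = f * (s * h) ^ 2 := by ring

/-- **closing of scheme K** -/
theorem kend {κI V κ c₀ X s σ : ℝ} (hκI : 0 < κI) (hV0 : 0 < V) (hκ : 0 < κ) (hc₀ : 0 < c₀)
    (hs : 0 < s) (hsσ : s < σ) (hσ : σ < 1) (hX0 : 0 < X) (hX : X < 2 * Real.pi) {f : ℝ → ℝ}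
    (hf : ∀ c, c₀ ≤ c → κ * (c - c₀) ≤ X → κ ≤ 2 * (1 - Real.exp (-c)) * f c * s ^ 2)
    {δ : ℝ} (hδ : 0 < δ) :
    ∃ ε₁ : ℝ, 0 < ε₁ ∧ ∀ (M : Type) [MetricSpace M] [CompactSpace M] (γ : ℝ → M) (C : Calc M γ),
      Bd γ → RegAE C → C.vol ≤ V → ∀ ε : ℝ, 0 ≤ ε → ε ≤ ε₁ → FPM.IsopO C κI ε →
      ∀ U : Fin 3 → M → ℝ, KY C 2 1 U (fun _ => c₀) → ∫ o, jac C U o ∂C.μ = 2 * Real.pi →
      ∫ o, nuC C U o ∂C.μ < X → HH C κ c₀ X (δ / 6) →
      HS C κ c₀ X (δ / 6) ε s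
        (fun c => κI * ((σ - s) * (1 - Real.exp (-c))) ^ 2 / (4 * (√2 * (Real.exp c + 1)) ^ 2)) f →
      2 * Real.pi ≤ C.vol + δ := by
  have hpi := Real.pi_pos
  -- constants
  set ρ := (1 - σ) / 3 with hρ
  have hρ0 : 0 < ρ := by rw [hρ]; linarith
  obtain ⟨n, hn, hnet⟩ := net_dir (ρ := ρ) hρ0 (by rw [hρ]; linarith)
  have hn' : (0 : ℝ) < n := by exact_mod_cast hn
  set q₀ := 1 - Real.exp (-c₀) with hq₀
  have hq00 : 0 < q₀ := by
    have : Real.exp (-c₀) < 1 := by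
      rw [← Real.exp_zero]
      exact Real.exp_lt_exp.mpr (by linarith)
    rw [hq₀]
    linarith
  set ε₀ := δ / 12 with hε₀
  have hε₀0 : 0 < ε₀ := by positivity
  set κ' := δ / 64 with hκ'
  have hκ'0 : 0 < κ' := by positivity
  set E₁ := Real.exp (c₀ + X / κ') with hE₁
  have hE₁0 : 0 < E₁ := Real.exp_pos _
  set S := stA V 7 1 1 0 (κ + κ') X ε₀ with hS
  have hS0 : 0 < S := stA_pos hV0.le (by norm_num) (by norm_num) (by norm_num) le_rfl (by linarith) hX hε₀0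
  set b1 := 6144 * E₁ ^ 2 * X / δ with hb1
  set b2 := 16 * n * (E₁ + 1) ^ 2 * X ^ 2 / (κI * ρ ^ 2 * q₀ ^ 2 * (S * ε₀)) with hb2
  have hb10 : 0 < b1 := by positivity
  have hb20 : 0 < b2 := by positivity
  set β := b1 + b2 with hβ
  have hβ0 : 0 < β := by positivity
  set θ := S * (ε₀ / 4) / β with hθ
  have hθ0 : 0 < θ := by positivity
  set δ' := δ / (8 * κ) with hδ'
  have hδ'0 : 0 < δ' := by positivity
  refine ⟨θ / (2 * n), by positivity, ?_⟩
  intro M _ _ γ C hγ hR hV ε hε0 hε1 hI U hU hUJ hUX hH hS'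
  have := C.fin
  obtain ⟨v, c, c', A, F, hc, hKA, hJ, htot, -, hmain⟩ := kin2_L2 C hγ hR hκ.le hκ'0.le hβ0.le hU hUJ
    hUX hX hε₀0 hV
  have hT := Th_TZ C F (Λ := 2) (E := 1) le_rfl le_rfl
  have n0 : 0 ≤ ∫ o, nuC C v o ∂C.μ := integral_nonneg fun o => nuv_nonneg _ _ _
  have m0 : 0 ≤ C.μ.real A := measureReal_nonneg
  have t1 : 0 ≤ κ * (c - c₀) := mul_nonneg hκ.le (by linarith only [hc])
  have t2 : 0 ≤ κ' * (c' - c₀) := mul_nonneg hκ'0.le (by linarith only [hc, hKA.le])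
  have t3 : 0 ≤ β * C.μ.real A := mul_nonneg hβ0.le m0
  have hXc : ∫ o, nuC C v o ∂C.μ + κ * (c - c₀) ≤ X := by linarith only [htot, t2, t3]
  have hcX : κ * (c - c₀) ≤ X := by linarith only [hXc, n0]
  have hc'E : Real.exp c' ≤ E₁ := by
    refine Real.exp_le_exp.mpr ?_
    have : c' - c₀ ≤ X / κ' := by
      rw [le_div_iff₀ hκ'0]
      linarith only [htot, t1, t3, n0]
    linarith only [this]
  have hAβ : C.μ.real A ≤ X / β := by
    rw [le_div_iff₀ hβ0]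
    linarith only [htot, t1, t2, n0]
  have hE'0 := Real.exp_pos c'
  -- the exceptional set
  have hA1 : 12 * (2 * Real.exp c' ^ 2 * 8 ^ 2 * C.μ.real A) ≤ δ / 4 := by
    have h1 : Real.exp c' ^ 2 ≤ E₁ ^ 2 := pow_le_pow_left₀ hE'0.le hc'E 2
    have h2 : Real.exp c' ^ 2 * C.μ.real A ≤ E₁ ^ 2 * (X / β) :=
      mul_le_mul h1 hAβ m0 (by positivity)
    have h3 : E₁ ^ 2 * (X / β) ≤ δ / 6144 := by
      have h4 : X / β ≤ X / b1 := div_le_div_of_nonneg_left hX0.le hb10 (by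
        rw [hβ]
        linarith only [hb20])
      have h5 : E₁ ^ 2 * (X / b1) = δ / 6144 := by
        rw [hb1]
        field_simp
      rw [← h5]
      exact mul_le_mul_of_nonneg_left h4 (by positivity)
    linarith only [h2, h3]
  have hc0 : 0 < c := by linarith only [hc, hc₀]
  set q := 1 - Real.exp (-c) with hq
  have hqq : q₀ ≤ q := by
    have : Real.exp (-c) ≤ Real.exp (-c₀) := Real.exp_le_exp.mpr (by linarith only [hc])
    rw [hq, hq₀]
    linarith only [this]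
  have hq0 : 0 < q := by linarith only [hqq, hq00]
  -- the three components
  have hge : ∀ a : E3, ‖a‖ = 1 → -(δ / 6 + 4 * (2 * Real.exp c' ^ 2 * 8 ^ 2 * C.μ.real A)) ≤ sF C v F.Th a :=
    fun a ha => sF_ge C hH hKA hc hJ hXc hT ha
  -- the choice of d
  set D : Set ℝ := {d | 0 ≤ d ∧ d ≤ 8 ∧ β * C.μ.real (hA C v F.Th c d) ≤ S * (ε₀ / 4)} with hD
  have h8 : (8 : ℝ) ∈ D := by
    refine ⟨by norm_num, le_rfl, ?_⟩
    have : hA C v F.Th c 8 = ∅ := by
      ext o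
      simp only [hA, Set.mem_ofPred_eq, mem_empty_iff_false, iff_false, not_lt]
      have h1 := abs_real_inner_le_norm (at' C v o) (at' C F.Th o)
      rw [norm_at hKA.sph o, one_mul] at h1
      have h2 := neg_abs_le (inner ℝ (at' C v o) (at' C F.Th o) : ℝ)
      have h3 : ‖at' C F.Th o‖ ≤ 7 := hT.bd (C.pt o)
      have h4 : Real.exp (-c) ≤ 1 := by
        have : q = 1 - Real.exp (-c) := rfl
        linarith only [this, hq0]
      linarith only [h1, h2, h3, h4]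
    rw [this, measureReal_empty, mul_zero]
    positivity
  obtain ⟨d, hd, hcase⟩ := ken_d h8 (fun d hd => hd.1) hδ'0
  have hKF := hmain d hd.1 hd.2.1 hd.2.2
  have e1 : 3 * ε₀ = δ / 4 := by rw [hε₀]; ring
  have e2 : 16 * κ' = δ / 4 := by rw [hκ']; ring
  have e3 : 2 * κ * δ' = δ / 4 := by
    rw [hδ']
    field_simp
    norm_num
  rcases hcase with hcase | ⟨hdδ, hnot⟩
  · -- no error
    obtain ⟨b, hb1', hb2'⟩ := exists_perp1 (!₂[1, 0, 0] : E3)
    have ha1 : inner ℝ (!₂[1, 0, 0] : E3) (!₂[1, 0, 0] : E3) = (1 : ℝ) := by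
      rw [inner3]
      change (1 : ℝ) * 1 + 0 * 0 + 0 * 0 = 1
      norm_num
    have hsp := KF_split C hKA.sph hT.lip hT.bd ha1 hb1' hb2'
    have na : ‖(!₂[1, 0, 0] : E3)‖ = 1 := by
      have h := real_inner_self_eq_norm_sq (!₂[1, 0, 0] : E3)
      exact ken_one (norm_nonneg _) (h.symm.trans ha1)
    have nb : ‖b‖ = 1 := by
      have h := real_inner_self_eq_norm_sq b
      exact ken_one (norm_nonneg _) (h.symm.trans hb1')
    have g1 := hge _ na
    have g2 := hge _ nb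
    have g3 := hge _ (norm_crs_one ha1 hb1' hb2')
    have g4 : 2 * κ * d ≤ 2 * κ * δ' := mul_le_mul_of_nonneg_left hcase.le (by positivity)
    linarith only [hKF, hsp, g1, g2, g3, g4, e1, e2, e3, hA1, hδ]
  · -- the side condition
    have hlt : θ < C.μ.real (hA C v F.Th c (d - δ')) := by
      by_contra hcon
      push Not at hcon
      refine hnot ⟨by linarith only [hdδ], by linarith only [hd.2.1, hδ'0], ?_⟩
      rw [hθ, le_div_iff₀ hβ0] at hcon
      linarith only [hcon]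
    set qq := √2 * (E₁ + 1) * (X / β) with hqq'
    have s20 : 0 < √(2 : ℝ) := Real.sqrt_pos.2 (by norm_num)
    have s22 : √(2 : ℝ) ^ 2 = 2 := Real.sq_sqrt (by norm_num)
    have sk : 0 < √κI := Real.sqrt_pos.2 hκI
    have sk2 : √κI ^ 2 = κI := Real.sq_sqrt hκI.le
    have hqq0 : 0 < qq := by positivity
    set B₀ := qq / (√κI * ρ * q₀) with hB₀
    have hB₀0 : 0 < B₀ := by positivity
    have hB₀2 : B₀ ^ 2 ≤ θ / (2 * n) :=
      ken_B hκI hρ0 hq00 hS0 hε₀0 hn' hβ0 (by rw [hβ]; linarith only [hb10])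
    have hBn : B₀ ^ 2 + ε ≤ θ / n := by
      have : θ / n = θ / (2 * n) + θ / (2 * n) := by
        rw [← add_div, ← two_mul, mul_div_mul_left _ _ two_ne_zero]
      rw [this]
      exact add_le_add hB₀2 hε1
    obtain ⟨a, ha, hdir⟩ := ken_dir C (ε₁ := ε) hI hκI hKA hT hs hsσ hσ (n := n) hnet
      (d := d - δ') (θ := θ) (B₀ := B₀) (qq := qq) (by linarith only [hdδ]) hc0 hθ0.le hlt hB₀0 hBn
      (by
        have h1 : √2 * (Real.exp c' + 1) ≤ √2 * (E₁ + 1) :=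
          mul_le_mul_of_nonneg_left (by linarith only [hc'E]) s20.le
        exact mul_le_mul h1 hAβ m0 (by positivity))
      (by
        change qq ≤ √κI * ρ * q * B₀
        have h1 : √κI * ρ * q₀ * B₀ = qq := by
          rw [hB₀]
          exact mul_div_cancel₀ _ (by positivity)
        have h2 : √κI * ρ * q₀ * B₀ ≤ √κI * ρ * q * B₀ :=
          mul_le_mul_of_nonneg_right (mul_le_mul_of_nonneg_left hqq (by positivity)) hB₀0.le
        linarith only [h1, h2])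
    set hh := q + (d - δ') with hhd
    have hhq : q ≤ hh := by
      rw [hhd]
      linarith only [hdδ]
    have hla : inner ℝ a a = (1 : ℝ) := by
      rw [real_inner_self_eq_norm_sq, ha, one_pow]
    obtain ⟨b, hb1', hb2'⟩ := exists_perp1 a
    have hsp := KF_split C hKA.sph hT.lip hT.bd hla hb1' hb2'
    have nb : ‖b‖ = 1 := by
      have h := real_inner_self_eq_norm_sq b
      exact ken_one (norm_nonneg _) (h.symm.trans hb1')
    have g2 := hge _ nb
    have g3 := hge _ (norm_crs_one hla hb1' hb2')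
    have g1 := sF_ge' C hS' hKA hc hJ hXc hT ha (t := s * hh)
      (mul_le_mul_of_nonneg_left hhq hs.le) (by
        refine le_trans ?_ hdir
        have h0 : 0 ≤ σ - s := by linarith only [hsσ]
        have h1 : ((σ - s) * q) ^ 2 ≤ ((σ - s) * hh) ^ 2 :=
          pow_le_pow_left₀ (mul_nonneg h0 hq0.le) (mul_le_mul_of_nonneg_left hhq h0) 2
        have h2 : κI * ((σ - s) * q) ^ 2 / (4 * (√2 * (Real.exp c + 1)) ^ 2) ≤
            κI * ((σ - s) * hh) ^ 2 / (4 * (√2 * (Real.exp c + 1)) ^ 2) :=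
          div_le_div_of_nonneg_right (mul_le_mul_of_nonneg_left h1 hκI.le) (by positivity)
        exact add_le_add_left h2 ε)
    -- the scalar inequality
    have g5 : 2 * κ * (hh - q) ≤ f c * (s * hh) ^ 2 := ken_scal hκ hq0 (hf c hc hcX) hhq
    have g7 : hh - q = d - δ' := by rw [hhd]; ring
    rw [g7] at g5
    have g6 : 2 * κ * d = 2 * κ * (d - δ') + 2 * κ * δ' := by ring
    linarith only [hKF, hsp, g1, g2, g3, g5, g6, e1, e2, e3, hA1, hδ]

end Pool.Agent.FPX
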