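import Mathlib
import Pool.Agent.FPX.KEND

/-
KENG (helper58): the closing of scheme K for a general penalty `φ` and a general weight `W(ν)`. The
pointwise inequality `PWI` (a `QLow` certificate `Q` with
`l (|dη|² - 4 W(ν) |η|²) ≤ Q - 2 φ'(ν) dν[Θ]`) and the weighted inequalities `HHG`, `HSG` give
`2π ≤ vol + δ`. The case `φ = id`, `W = id`, `l = 1` is `KEND`.
-/

open MeasureTheory Set Filter Topology
open scoped ENNReal NNReal

noncomputable section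

namespace Pool.Agent.FPX

open Pool.Agent.EWD

variable {M : Type} [MetricSpace M] {γ : ℝ → M}

/-- admissible weights: `w ≤ W(ν)` for a map `v` of degree one with `∫ φ(ν) + κ (c - c₀) ≤ X`, and
`w ≤ W(2 e^{2c})` -/
structure WtG (C : Calc M γ) (φ W : ℝ → ℝ) (κ c₀ X c : ℝ) (v : Fin 3 → M → ℝ) (w : Om → ℝ) : Prop where
  hc : c₀ ≤ c
  sph : Sph γ v
  deg : ∫ o, jac C v o ∂C.μ = 2 * Real.pi
  tot : Ph C φ v + κ * (c - c₀) ≤ X
  int : Integrable w C.μ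
  nonneg : ∀ o, 0 ≤ w o
  le : ∀ o, w o ≤ W (nuC C v o)
  bd : ∀ o, w o ≤ W (2 * Real.exp c ^ 2)

/-- (H): `4 ∫ w g² ≤ ∫ |dg|² + δ` for odd functions -/
def HHG (C : Calc M γ) (φ W : ℝ → ℝ) (κ c₀ X δ : ℝ) : Prop :=
  ∀ (c : ℝ) (v : Fin 3 → M → ℝ) (w : Om → ℝ),
  WtG C φ W κ c₀ X c v w → ∀ g : M → ℝ, Lip g → FPM.OddB γ g → (∀ x, |g x| ≤ 8) →
    4 * ∫ o, w o * g (C.pt o) ^ 2 ∂C.μ ≤ ∫ o, gn C g o ^ 2 ∂C.μ + δ

/-- (H) with a side condition: if the area of `{t < |g|}` is at least `b c + ε`, then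
`4 ∫ w g² + f c t² ≤ ∫ |dg|² + δ` -/
def HSG (C : Calc M γ) (φ W : ℝ → ℝ) (κ c₀ X δ ε s : ℝ) (b f : ℝ → ℝ) : Prop :=
  ∀ (c : ℝ) (v : Fin 3 → M → ℝ) (w : Om → ℝ),
  WtG C φ W κ c₀ X c v w → ∀ g : M → ℝ, Lip g → FPM.OddB γ g → (∀ x, |g x| ≤ 8) →
    ∀ t : ℝ, s * (1 - Real.exp (-c)) ≤ t → b c + ε ≤ C.μ.real {o | t < |g (C.pt o)|} →
      4 * ∫ o, w o * g (C.pt o) ^ 2 ∂C.μ + f c * t ^ 2 ≤ ∫ o, gn C g o ^ 2 ∂C.μ + δ

/-- the pointwise inequality -/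
def PWI (φ' W : ℝ → ℝ) (l : ℝ) (Q : E3 → E3 → E3 → E3 → E3 → ℝ) : Prop :=
  Continuous (fun q : E3 × E3 × E3 × E3 × E3 => Q q.1 q.2.1 q.2.2.1 q.2.2.2.1 q.2.2.2.2) ∧
  ∀ v a b T A B : E3, ‖v‖ = 1 → inner ℝ v a = (0 : ℝ) → inner ℝ v b = (0 : ℝ) → InW 2 1 A B →
    QLow v a b A B (Q v a b A B) ∧
    l * (‖A - a‖ ^ 2 + ‖B - b‖ ^ 2 - 4 * (W (nuv v a b) * ‖T - v‖ ^ 2)) ≤
      Q v a b A B - 2 * (φ' (nuv v a b) * dnu v a b T A B)

variable [CompactSpace M]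

/-- the bounded weight -/
def wG (C : Calc M γ) (W : ℝ → ℝ) (v : Fin 3 → M → ℝ) (N : ℝ) (o : Om) : ℝ := min (W (nuC C v o)) (W N)

theorem wG_int (C : Calc M γ) {W : ℝ → ℝ} (hW : Continuous W) {v : Fin 3 → M → ℝ} (hv : ∀ k, Lip (v k))
    (N : ℝ) : Integrable (wG C W v N) C.μ :=
  nuC_cint C hv (φ := fun x => min (W x) (W N)) (by fun_prop)

theorem WtG_of (C : Calc M γ) {φ W : ℝ → ℝ} (hW : Continuous W) (hW0 : ∀ x, 0 ≤ x → 0 ≤ W x)
    {κ c₀ X c : ℝ} {v : Fin 3 → M → ℝ} (hc : c₀ ≤ c) (hv : Sph γ v)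
    (hJ : ∫ o, jac C v o ∂C.μ = 2 * Real.pi) (hX : Ph C φ v + κ * (c - c₀) ≤ X) :
    WtG C φ W κ c₀ X c v (wG C W v (2 * Real.exp c ^ 2)) :=
  ⟨hc, hv, hJ, hX, wG_int C hW hv.lip _,
    fun _ => le_min (hW0 _ (nuv_nonneg _ _ _)) (hW0 _ (by positivity)),
    fun _ => min_le_left _ _, fun _ => min_le_right _ _⟩

/-- the weight may be cut off, since the exceptional set is small -/
theorem nugG_le (C : Calc M γ) {W : ℝ → ℝ} (hW : Continuous W) (hW0 : ∀ x, 0 ≤ x → 0 ≤ W x)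
    (hWm : ∀ x y, 0 ≤ x → x ≤ y → W x ≤ W y) {v : Fin 3 → M → ℝ} {c c' : ℝ} {A : Set Om}
    (h : KA C 2 1 v c c' A) {g : M → ℝ} (hg : Lip g) {R : ℝ} (hR : ∀ x, |g x| ≤ R) :
    ∫ o, W (nuC C v o) * g (C.pt o) ^ 2 ∂C.μ ≤
      ∫ o, wG C W v (2 * Real.exp c ^ 2) o * g (C.pt o) ^ 2 ∂C.μ
        + W (2 * Real.exp c' ^ 2) * R ^ 2 * C.μ.real A := by
  have := C.fin
  have i1 : Integrable (fun o => W (nuC C v o) * g (C.pt o) ^ 2) C.μ :=
    mulsq_int C (nuC_cint C h.sph.lip hW) hg hR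
  have i2 := mulsq_int C (wG_int C hW h.sph.lip (2 * Real.exp c ^ 2)) hg hR
  have i3 : Integrable (A.indicator fun _ => W (2 * Real.exp c' ^ 2) * R ^ 2) C.μ :=
    (integrable_const _).indicator₀ h.meas
  have e : ∫ o, A.indicator (fun _ => W (2 * Real.exp c' ^ 2) * R ^ 2) o ∂C.μ =
      W (2 * Real.exp c' ^ 2) * R ^ 2 * C.μ.real A := by
    rw [integral_indicator₀ h.meas, integral_const, smul_eq_mul, mul_comm]
    congr 1
    simp [Measure.real]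
  rw [← e, ← integral_add i2 i3]
  refine integral_mono_ae i1 (i2.add i3) ?_
  filter_upwards [h.inA, h.out] with o h1 h2
  have hgR : g (C.pt o) ^ 2 ≤ R ^ 2 := by
    rw [← sq_abs]
    exact pow_le_pow_left₀ (abs_nonneg _) (hR _) 2
  have hg0 := sq_nonneg (g (C.pt o))
  have hn0 : 0 ≤ nuC C v o := nuv_nonneg _ _ _
  by_cases ho : o ∈ A
  · have k := hWm _ _ hn0 (nu_le_of_InW h.sph h1)
    rw [indicator_of_mem ho]
    have w0 : 0 ≤ wG C W v (2 * Real.exp c ^ 2) o := le_min (hW0 _ hn0) (hW0 _ (by positivity))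
    have k2 : W (nuC C v o) * g (C.pt o) ^ 2 ≤ W (2 * Real.exp c' ^ 2) * R ^ 2 :=
      mul_le_mul k hgR hg0 (hW0 _ (by positivity))
    have k3 := mul_nonneg w0 hg0
    linarith
  · have k := hWm _ _ hn0 (nu_le_of_InW h.sph (h2 ho))
    rw [indicator_of_notMem ho, add_zero]
    have : wG C W v (2 * Real.exp c ^ 2) o = W (nuC C v o) := min_eq_left k
    rw [this]

/-- the scalar form of a component -/
def sG (C : Calc M γ) (W : ℝ → ℝ) (v T : Fin 3 → M → ℝ) (a : E3) : ℝ :=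
  ∫ o, gn C (gA v T a) o ^ 2 ∂C.μ - 4 * ∫ o, W (nuC C v o) * gA v T a (C.pt o) ^ 2 ∂C.μ

/-- the lower bound of a scalar form from (H) -/
theorem sG_ge (C : Calc M γ) {φ W : ℝ → ℝ} (hW : Continuous W) (hW0 : ∀ x, 0 ≤ x → 0 ≤ W x)
    (hWm : ∀ x y, 0 ≤ x → x ≤ y → W x ≤ W y) {κ c₀ X δ : ℝ} (hH : HHG C φ W κ c₀ X δ)
    {v : Fin 3 → M → ℝ} {c c' : ℝ} {A : Set Om} (h : KA C 2 1 v c c' A) (hc : c₀ ≤ c)
    (hJ : ∫ o, jac C v o ∂C.μ = 2 * Real.pi) (hX : Ph C φ v + κ * (c - c₀) ≤ X)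
    {T : Fin 3 → M → ℝ} (hT : TZ C 2 1 7 T) {a : E3} (ha : ‖a‖ = 1) :
    -(δ + 4 * (W (2 * Real.exp c' ^ 2) * 8 ^ 2 * C.μ.real A)) ≤ sG C W v T a := by
  have hg := gA_lip h.sph.lip hT.lip a
  have hb : ∀ x, |gA v T a x| ≤ 8 := fun x => (gA_bd h.sph hT.bd ha x).trans (by norm_num)
  have h1 := hH c v _ (WtG_of C hW hW0 hc h.sph hJ hX) (gA v T a) hg (gA_odd h.sph.odd hT.odd a) hb
  have h2 := nugG_le C hW hW0 hWm h hg hb
  unfold sG
  linarith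

/-- the lower bound of a scalar form from (H) with side condition -/
theorem sG_ge' (C : Calc M γ) {φ W : ℝ → ℝ} (hW : Continuous W) (hW0 : ∀ x, 0 ≤ x → 0 ≤ W x)
    (hWm : ∀ x y, 0 ≤ x → x ≤ y → W x ≤ W y) {κ c₀ X δ ε s : ℝ} {b f : ℝ → ℝ}
    (hH : HSG C φ W κ c₀ X δ ε s b f)
    {v : Fin 3 → M → ℝ} {c c' : ℝ} {A : Set Om} (h : KA C 2 1 v c c' A) (hc : c₀ ≤ c)
    (hJ : ∫ o, jac C v o ∂C.μ = 2 * Real.pi) (hX : Ph C φ v + κ * (c - c₀) ≤ X)
    {T : Fin 3 → M → ℝ} (hT : TZ C 2 1 7 T) {a : E3} (ha : ‖a‖ = 1) {t : ℝ}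
    (ht : s * (1 - Real.exp (-c)) ≤ t) (hb : b c + ε ≤ C.μ.real {o | t < |gA v T a (C.pt o)|}) :
    f c * t ^ 2 - (δ + 4 * (W (2 * Real.exp c' ^ 2) * 8 ^ 2 * C.μ.real A)) ≤ sG C W v T a := by
  have hg := gA_lip h.sph.lip hT.lip a
  have hb' : ∀ x, |gA v T a x| ≤ 8 := fun x => (gA_bd h.sph hT.bd ha x).trans (by norm_num)
  have h1 := hH c v _ (WtG_of C hW hW0 hc h.sph hJ hX) (gA v T a) hg (gA_odd h.sph.odd hT.odd a) hb'
    t ht hb
  have h2 := nugG_le C hW hW0 hWm h hg hb'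
  unfold sG
  linarith

/-- the integrated inequality -/
theorem Q_split (C : Calc M γ) {φ' W : ℝ → ℝ} (hφ : Continuous φ') (hW : Continuous W) {l : ℝ}
    {Q : E3 → E3 → E3 → E3 → E3 → ℝ} (hQ : PWI φ' W l Q) {v T : Fin 3 → M → ℝ} (hv : Sph γ v)
    (hT : TZ C 2 1 7 T) {a b : E3}
    (ha : inner ℝ a a = (1 : ℝ)) (hb : inner ℝ b b = (1 : ℝ)) (hab : inner ℝ a b = (0 : ℝ)) :
    l * (sG C W v T a + sG C W v T b + sG C W v T (crs a b)) ≤
      ∫ o, Q (at' C v o) (dx C v o) (dy C v o) (dx C T o) (dy C T o) ∂C.μ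
        - 2 * ∫ o, φ' (nuC C v o) * dnuC C v T o ∂C.μ := by
  have na : ‖a‖ = 1 := ken_one (norm_nonneg _) ((real_inner_self_eq_norm_sq a).symm.trans ha)
  have nb : ‖b‖ = 1 := ken_one (norm_nonneg _) ((real_inner_self_eq_norm_sq b).symm.trans hb)
  have nc := norm_crs_one ha hb hab
  have i : ∀ w : E3, ‖w‖ = 1 → Integrable (fun o => W (nuC C v o) * gA v T w (C.pt o) ^ 2) C.μ :=
    fun w hw => mulsq_int C (nuC_cint C hv.lip hW) (gA_lip hv.lip hT.lip w) (gA_bd hv hT.bd hw)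
  have j : ∀ w : E3, Integrable (fun o => gn C (gA v T w) o ^ 2) C.μ :=
    fun w => int_gn_sq C (gA_lip hv.lip hT.lip w)
  have k : ∀ w : E3, ‖w‖ = 1 → Integrable (fun o => gn C (gA v T w) o ^ 2 -
      4 * (W (nuC C v o) * gA v T w (C.pt o) ^ 2)) C.μ := fun w hw => (j w).sub ((i w hw).const_mul 4)
  have e : ∀ w : E3, ‖w‖ = 1 → sG C W v T w = ∫ o, (gn C (gA v T w) o ^ 2 -
      4 * (W (nuC C v o) * gA v T w (C.pt o) ^ 2)) ∂C.μ := fun w hw => by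
    rw [integral_sub (j w) ((i w hw).const_mul 4), integral_const_mul]
    rfl
  have iQ := integrable_cont5 C hv hT.lip hQ.1
  have iD : Integrable (fun o => φ' (nuC C v o) * dnuC C v T o) C.μ := dnuC_cint C hv.lip hT.lip hφ
  rw [e a na, e b nb, e _ nc, ← integral_add (k a na) (k b nb)]
  have e3 := (integral_add ((k a na).add (k b nb)) (k _ nc)).symm
  refine (congrArg (fun x => l * x) e3).trans_le ?_
  rw [← integral_const_mul, ← integral_const_mul, ← integral_sub iQ (iD.const_mul 2)]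
  refine integral_mono_ae ((((k a na).add (k b nb)).add (k _ nc)).const_mul l) (iQ.sub (iD.const_mul 2)) ?_
  filter_upwards [ae_gA C hv.lip hT.lip, ae_perp C hv, hT.inW] with o h1 h2 h3
  have hp := (hQ.2 (at' C v o) (dx C v o) (dy C v o) (at' C T o) (dx C T o) (dy C T o)
    (norm_at hv o) h2.1 h2.2 h3).2
  have d1 := decomp2 ha hb hab (dx C T o - dx C v o)
  have d2 := decomp2 ha hb hab (dy C T o - dy C v o)
  have d3 := decomp2 ha hb hab (at' C T o - at' C v o)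
  have e4 : ∀ w : E3, gA v T w (C.pt o) = inner ℝ w (at' C T o - at' C v o) := by
    intro w
    unfold gA
    rw [vv_eta]
    rfl
  refine le_trans (le_of_eq ?_) hp
  simp only [Pi.add_apply]
  rw [h1 a, h1 b, h1 (crs a b), e4 a, e4 b, e4 (crs a b), d1, d2, d3]
  unfold nuC
  ring

theorem ken_sum3 {l δ r x y z : ℝ} (hl : 0 < l) (hl1 : l ≤ 1) (h1 : 12 * r ≤ δ / 4) (h0 : 0 ≤ r)
    (hδ : 0 ≤ δ) (gx : -(δ / 6 + 4 * r) ≤ x) (gy : -(δ / 6 + 4 * r) ≤ y) (gz : -(δ / 6 + 4 * r) ≤ z) :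
    -(3 * δ / 4) ≤ l * (x + y + z) := by
  have h2 : -(3 * δ / 4) ≤ x + y + z := by linarith
  have h3 : l * (-(3 * δ / 4)) ≤ l * (x + y + z) := mul_le_mul_of_nonneg_left h2 hl.le
  nlinarith

theorem ken_sum3' {l δ r p x y z : ℝ} (hl : 0 < l) (hl1 : l ≤ 1) (h1 : 12 * r ≤ δ / 4) (h0 : 0 ≤ r)
    (hδ : 0 ≤ δ) (gx : p - (δ / 6 + 4 * r) ≤ x) (gy : -(δ / 6 + 4 * r) ≤ y)
    (gz : -(δ / 6 + 4 * r) ≤ z) : l * p - 3 * δ / 4 ≤ l * (x + y + z) := by
  have h2 : p - 3 * δ / 4 ≤ x + y + z := by linarith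
  have h3 : l * (p - 3 * δ / 4) ≤ l * (x + y + z) := mul_le_mul_of_nonneg_left h2 hl.le
  nlinarith

omit [CompactSpace M] in
/-- **closing of scheme K**, general penalty and weight -/
theorem kend_gen {φ φ' W : ℝ → ℝ} {sφ Lφ l : ℝ} {Q : E3 → E3 → E3 → E3 → E3 → ℝ}
    (P : Pen φ φ' sφ Lφ) (hW : Continuous W) (hW0 : ∀ x, 0 ≤ x → 0 ≤ W x)
    (hWm : ∀ x y, 0 ≤ x → x ≤ y → W x ≤ W y) (hl : 0 < l) (hl1 : l ≤ 1) (hQ : PWI φ' W l Q)
    {κI V κ c₀ X s σ : ℝ} (hκI : 0 < κI) (hV0 : 0 < V) (hκ : 0 < κ) (hc₀ : 0 < c₀)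
    (hs : 0 < s) (hsσ : s < σ) (hσ : σ < 1) (hX0 : 0 < X) (hX : X < 2 * Real.pi) {f : ℝ → ℝ}
    (hf : ∀ c, c₀ ≤ c → κ * (c - c₀) ≤ X → κ ≤ 2 * (1 - Real.exp (-c)) * (l * f c) * s ^ 2)
    {δ : ℝ} (hδ : 0 < δ) :
    ∃ ε₁ : ℝ, 0 < ε₁ ∧ ∀ (M : Type) [MetricSpace M] [CompactSpace M] (γ : ℝ → M) (C : Calc M γ),
      Bd γ → RegAE C → C.vol ≤ V → ∀ ε : ℝ, 0 ≤ ε → ε ≤ ε₁ → FPM.IsopO C κI ε →
      ∀ U : Fin 3 → M → ℝ, KY C 2 1 U (fun _ => c₀) → ∫ o, jac C U o ∂C.μ = 2 * Real.pi →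
      Ph C φ U < X → HHG C φ W κ c₀ X (δ / 6) →
      HSG C φ W κ c₀ X (δ / 6) ε s
        (fun c => κI * ((σ - s) * (1 - Real.exp (-c))) ^ 2 / (4 * (√2 * (Real.exp c + 1)) ^ 2)) f →
      2 * Real.pi ≤ C.vol + δ := by
  have hpi := Real.pi_pos
  -- constants
  set ρ := (1 - σ) / 3 with hρ
  have hρ0 : 0 < ρ := by rw [hρ]; linarith
  obtain ⟨n, hn, hnet⟩ := net_dir (ρ := ρ) hρ0 (by rw [hρ]; linarith)
  have hn' : (0 : ℝ) < n := by exact_mod_cast hn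
  set q₀ := 1 - Real.exp (-c₀) with hq₀
  have hq00 : 0 < q₀ := by
    have : Real.exp (-c₀) < 1 := by
      rw [← Real.exp_zero]
      exact Real.exp_lt_exp.mpr (by linarith)
    rw [hq₀]
    linarith
  set ε₀ := δ / 12 with hε₀
  have hε₀0 : 0 < ε₀ := by positivity
  set κ' := δ / 64 with hκ'
  have hκ'0 : 0 < κ' := by positivity
  set E₁ := Real.exp (c₀ + X / κ') with hE₁
  have hE₁0 : 0 < E₁ := Real.exp_pos _
  set S := stA V 7 1 sφ Lφ (κ + κ') X ε₀ with hS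
  have hS0 : 0 < S := stA_pos hV0.le (by norm_num) (by norm_num) P.s0 P.L0 (by linarith) hX hε₀0
  set WE := W (2 * E₁ ^ 2) with hWE
  have hWE0 : 0 ≤ WE := hW0 _ (by positivity)
  set b1 := 3072 * (WE + 1) * X / δ with hb1
  set b2 := 16 * n * (E₁ + 1) ^ 2 * X ^ 2 / (κI * ρ ^ 2 * q₀ ^ 2 * (S * ε₀)) with hb2
  have hb10 : 0 < b1 := by positivity
  have hb20 : 0 < b2 := by positivity
  set β := b1 + b2 with hβ
  have hβ0 : 0 < β := by positivity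
  set θ := S * (ε₀ / 4) / β with hθ
  have hθ0 : 0 < θ := by positivity
  set δ' := δ / (8 * κ) with hδ'
  have hδ'0 : 0 < δ' := by positivity
  refine ⟨θ / (2 * n), by positivity, ?_⟩
  intro M _ _ γ C hγ hR hV ε hε0 hε1 hI U hU hUJ hUX hH hS'
  have := C.fin
  obtain ⟨v, c, c', A, F, hc, hKA, hJ, htot, -, hflux, hvar⟩ := kint2 C hγ hR P hκ.le hκ'0.le hβ0.le hU
    hUJ hUX hX hε₀0 hV
  have hT := Th_TZ C F (Λ := 2) (E := 1) le_rfl le_rfl
  have n0 : 0 ≤ Ph C φ v := integral_nonneg fun o => (nuv_nonneg _ _ _).trans (P.ge _ (nuv_nonneg _ _ _))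
  have m0 : 0 ≤ C.μ.real A := measureReal_nonneg
  have t1 : 0 ≤ κ * (c - c₀) := mul_nonneg hκ.le (by linarith only [hc])
  have t2 : 0 ≤ κ' * (c' - c₀) := mul_nonneg hκ'0.le (by linarith only [hc, hKA.le])
  have t3 : 0 ≤ β * C.μ.real A := mul_nonneg hβ0.le m0
  have hXc : Ph C φ v + κ * (c - c₀) ≤ X := by linarith only [htot, t2, t3]
  have hcX : κ * (c - c₀) ≤ X := by linarith only [hXc, n0]
  have hc'E : Real.exp c' ≤ E₁ := by
    refine Real.exp_le_exp.mpr ?_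
    have : c' - c₀ ≤ X / κ' := by
      rw [le_div_iff₀ hκ'0]
      linarith only [htot, t1, t3, n0]
    linarith only [this]
  have hAβ : C.μ.real A ≤ X / β := by
    rw [le_div_iff₀ hβ0]
    linarith only [htot, t1, t2, n0]
  have hE'0 := Real.exp_pos c'
  -- the exceptional set
  have hA1 : 12 * (W (2 * Real.exp c' ^ 2) * 8 ^ 2 * C.μ.real A) ≤ δ / 4 := by
    have h1 : Real.exp c' ^ 2 ≤ E₁ ^ 2 := pow_le_pow_left₀ hE'0.le hc'E 2
    have h1' : W (2 * Real.exp c' ^ 2) ≤ WE + 1 := by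
      have := hWm (2 * Real.exp c' ^ 2) (2 * E₁ ^ 2) (by positivity) (by linarith only [h1])
      linarith only [this]
    have h2 : W (2 * Real.exp c' ^ 2) * C.μ.real A ≤ (WE + 1) * (X / β) :=
      mul_le_mul h1' hAβ m0 (by positivity)
    have h3 : (WE + 1) * (X / β) ≤ δ / 3072 := by
      have h4 : X / β ≤ X / b1 := div_le_div_of_nonneg_left hX0.le hb10 (by
        rw [hβ]
        linarith only [hb20])
      have h5 : (WE + 1) * (X / b1) = δ / 3072 := by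
        rw [hb1]
        field_simp
      rw [← h5]
      exact mul_le_mul_of_nonneg_left h4 (by positivity)
    linarith only [h2, h3]
  have hA0 : 0 ≤ W (2 * Real.exp c' ^ 2) * 8 ^ 2 * C.μ.real A :=
    mul_nonneg (mul_nonneg (hW0 _ (by positivity)) (by norm_num)) m0
  have hc0 : 0 < c := by linarith only [hc, hc₀]
  set q := 1 - Real.exp (-c) with hq
  have hqq : q₀ ≤ q := by
    have : Real.exp (-c) ≤ Real.exp (-c₀) := Real.exp_le_exp.mpr (by linarith only [hc])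
    rw [hq, hq₀]
    linarith only [this]
  have hq0 : 0 < q := by linarith only [hqq, hq00]
  -- the three components
  have hge : ∀ a : E3, ‖a‖ = 1 →
      -(δ / 6 + 4 * (W (2 * Real.exp c' ^ 2) * 8 ^ 2 * C.μ.real A)) ≤ sG C W v F.Th a :=
    fun a ha => sG_ge C hW hW0 hWm hH hKA hc hJ hXc hT ha
  -- the choice of d
  set D : Set ℝ := {d | 0 ≤ d ∧ d ≤ 8 ∧ β * C.μ.real (hA C v F.Th c d) ≤ S * (ε₀ / 4)} with hD
  have h8 : (8 : ℝ) ∈ D := by
    refine ⟨by norm_num, le_rfl, ?_⟩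
    have : hA C v F.Th c 8 = ∅ := by
      ext o
      simp only [hA, Set.mem_ofPred_eq, mem_empty_iff_false, iff_false, not_lt]
      have h1 := abs_real_inner_le_norm (at' C v o) (at' C F.Th o)
      rw [norm_at hKA.sph o, one_mul] at h1
      have h2 := neg_abs_le (inner ℝ (at' C v o) (at' C F.Th o) : ℝ)
      have h3 : ‖at' C F.Th o‖ ≤ 7 := hT.bd (C.pt o)
      have h4 : Real.exp (-c) ≤ 1 := by
        have : q = 1 - Real.exp (-c) := rfl
        linarith only [this, hq0]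
      linarith only [h1, h2, h3, h4]
    rw [this, measureReal_empty, mul_zero]
    positivity
  obtain ⟨d, hd, hcase⟩ := ken_d h8 (fun d hd => hd.1) hδ'0
  have hKF1 := hvar d hd.1 hd.2.1 hd.2.2
  have hKF2 := hflux _ (integrable_cont5 C hKA.sph hT.lip hQ.1) (by
    filter_upwards [ae_perp C hKA.sph, hT.inW] with o h2 h3
    exact (hQ.2 (at' C v o) (dx C v o) (dy C v o) (at' C F.Th o) (dx C F.Th o) (dy C F.Th o)
      (norm_at hKA.sph o) h2.1 h2.2 h3).1)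
  have hKF : ∫ o, Q (at' C v o) (dx C v o) (dy C v o) (dx C F.Th o) (dy C F.Th o) ∂C.μ
      - 2 * ∫ o, φ' (nuC C v o) * dnuC C v F.Th o ∂C.μ ≤
      3 * (C.vol - 2 * Real.pi) + 3 * ε₀ + 2 * κ * d + 16 * κ' := by
    linarith only [hKF1, hKF2]
  have e1 : 3 * ε₀ = δ / 4 := by rw [hε₀]; ring
  have e2 : 16 * κ' = δ / 4 := by rw [hκ']; ring
  have e3 : 2 * κ * δ' = δ / 4 := by
    rw [hδ']
    field_simp
    norm_num
  rcases hcase with hcase | ⟨hdδ, hnot⟩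
  · -- no error
    obtain ⟨b, hb1', hb2'⟩ := exists_perp1 (!₂[1, 0, 0] : E3)
    have ha1 : inner ℝ (!₂[1, 0, 0] : E3) (!₂[1, 0, 0] : E3) = (1 : ℝ) := by
      rw [inner3]
      change (1 : ℝ) * 1 + 0 * 0 + 0 * 0 = 1
      norm_num
    have hsp := Q_split C P.cont' hW hQ hKA.sph hT ha1 hb1' hb2'
    have na : ‖(!₂[1, 0, 0] : E3)‖ = 1 := by
      have h := real_inner_self_eq_norm_sq (!₂[1, 0, 0] : E3)
      exact ken_one (norm_nonneg _) (h.symm.trans ha1)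
    have nb : ‖b‖ = 1 := by
      have h := real_inner_self_eq_norm_sq b
      exact ken_one (norm_nonneg _) (h.symm.trans hb1')
    have g1 := hge _ na
    have g2 := hge _ nb
    have g3 := hge _ (norm_crs_one ha1 hb1' hb2')
    have g4 : 2 * κ * d ≤ 2 * κ * δ' := mul_le_mul_of_nonneg_left hcase.le (by positivity)
    have g8 := ken_sum3 hl hl1 hA1 hA0 hδ.le g1 g2 g3
    linarith only [hKF, hsp, g8, g4, e1, e2, e3, hδ]
  · -- the side condition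
    have hlt : θ < C.μ.real (hA C v F.Th c (d - δ')) := by
      by_contra hcon
      push Not at hcon
      refine hnot ⟨by linarith only [hdδ], by linarith only [hd.2.1, hδ'0], ?_⟩
      rw [hθ, le_div_iff₀ hβ0] at hcon
      linarith only [hcon]
    set qq := √2 * (E₁ + 1) * (X / β) with hqq'
    have s20 : 0 < √(2 : ℝ) := Real.sqrt_pos.2 (by norm_num)
    have s22 : √(2 : ℝ) ^ 2 = 2 := Real.sq_sqrt (by norm_num)
    have sk : 0 < √κI := Real.sqrt_pos.2 hκI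
    have sk2 : √κI ^ 2 = κI := Real.sq_sqrt hκI.le
    have hqq0 : 0 < qq := by positivity
    set B₀ := qq / (√κI * ρ * q₀) with hB₀
    have hB₀0 : 0 < B₀ := by positivity
    have hB₀2 : B₀ ^ 2 ≤ θ / (2 * n) :=
      ken_B hκI hρ0 hq00 hS0 hε₀0 hn' hβ0 (by rw [hβ]; linarith only [hb10])
    have hBn : B₀ ^ 2 + ε ≤ θ / n := by
      have : θ / n = θ / (2 * n) + θ / (2 * n) := by
        rw [← add_div, ← two_mul, mul_div_mul_left _ _ two_ne_zero]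
      rw [this]
      exact add_le_add hB₀2 hε1
    obtain ⟨a, ha, hdir⟩ := ken_dir C (ε₁ := ε) hI hκI hKA hT hs hsσ hσ (n := n) hnet
      (d := d - δ') (θ := θ) (B₀ := B₀) (qq := qq) (by linarith only [hdδ]) hc0 hθ0.le hlt hB₀0 hBn
      (by
        have h1 : √2 * (Real.exp c' + 1) ≤ √2 * (E₁ + 1) :=
          mul_le_mul_of_nonneg_left (by linarith only [hc'E]) s20.le
        exact mul_le_mul h1 hAβ m0 (by positivity))
      (by
        change qq ≤ √κI * ρ * q * B₀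
        have h1 : √κI * ρ * q₀ * B₀ = qq := by
          rw [hB₀]
          exact mul_div_cancel₀ _ (by positivity)
        have h2 : √κI * ρ * q₀ * B₀ ≤ √κI * ρ * q * B₀ :=
          mul_le_mul_of_nonneg_right (mul_le_mul_of_nonneg_left hqq (by positivity)) hB₀0.le
        linarith only [h1, h2])
    set hh := q + (d - δ') with hhd
    have hhq : q ≤ hh := by
      rw [hhd]
      linarith only [hdδ]
    have hla : inner ℝ a a = (1 : ℝ) := by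
      rw [real_inner_self_eq_norm_sq, ha, one_pow]
    obtain ⟨b, hb1', hb2'⟩ := exists_perp1 a
    have hsp := Q_split C P.cont' hW hQ hKA.sph hT hla hb1' hb2'
    have nb : ‖b‖ = 1 := by
      have h := real_inner_self_eq_norm_sq b
      exact ken_one (norm_nonneg _) (h.symm.trans hb1')
    have g2 := hge _ nb
    have g3 := hge _ (norm_crs_one hla hb1' hb2')
    have g1 := sG_ge' C hW hW0 hWm hS' hKA hc hJ hXc hT ha (t := s * hh)
      (mul_le_mul_of_nonneg_left hhq hs.le) (by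
        refine le_trans ?_ hdir
        have h0 : 0 ≤ σ - s := by linarith only [hsσ]
        have h1 : ((σ - s) * q) ^ 2 ≤ ((σ - s) * hh) ^ 2 :=
          pow_le_pow_left₀ (mul_nonneg h0 hq0.le) (mul_le_mul_of_nonneg_left hhq h0) 2
        have h2 : κI * ((σ - s) * q) ^ 2 / (4 * (√2 * (Real.exp c + 1)) ^ 2) ≤
            κI * ((σ - s) * hh) ^ 2 / (4 * (√2 * (Real.exp c + 1)) ^ 2) :=
          div_le_div_of_nonneg_right (mul_le_mul_of_nonneg_left h1 hκI.le) (by positivity)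
        exact add_le_add_left h2 ε)
    -- the scalar inequality
    have g5 : 2 * κ * (hh - q) ≤ l * f c * (s * hh) ^ 2 := ken_scal hκ hq0 (hf c hc hcX) hhq
    have g7 : hh - q = d - δ' := by rw [hhd]; ring
    rw [g7] at g5
    have g6 : 2 * κ * d = 2 * κ * (d - δ') + 2 * κ * δ' := by ring
    have g8 := ken_sum3' hl hl1 hA1 hA0 hδ.le g1 g2 g3
    linarith only [hKF, hsp, g8, g5, g6, e1, e2, e3, hδ]

end Pool.Agent.FPX
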