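import Mathlib
import Pool.Agent.FPX.EMK3
import Pool.Agent.FPX.KENG

/-
KENK (helper58): the closing of scheme K with a general cost `G(c)` and with weights which may depend on
the near-minimiser. For every admissible pair `(c, v)` some weight `W`, certificate `Q` and spare term `E`
are given (`Good`): `l (|dη|² - 4 W(ν) |η|²) + E ≤ Q - 2 φ'(ν) dν[Θ]`, `∫ E ≥ -δ`, and the weighted
inequalities for the weight `W(ν)` without and with side condition. Then `2π ≤ vol + δ`.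
-/

open MeasureTheory Set Filter Topology
open scoped ENNReal NNReal

noncomputable section

namespace Pool.Agent.FPX

open Pool.Agent.EWD

variable {M : Type} [MetricSpace M] {γ : ℝ → M}

/-- the pointwise inequality with a spare term -/
def PWE (φ' W : ℝ → ℝ) (l : ℝ) (E : E3 → E3 → E3 → ℝ) (Q : E3 → E3 → E3 → E3 → E3 → ℝ) : Prop :=
  Continuous (fun q : E3 × E3 × E3 => E q.1 q.2.1 q.2.2) ∧
  Continuous (fun q : E3 × E3 × E3 × E3 × E3 => Q q.1 q.2.1 q.2.2.1 q.2.2.2.1 q.2.2.2.2) ∧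
  ∀ v a b T A B : E3, ‖v‖ = 1 → inner ℝ v a = (0 : ℝ) → inner ℝ v b = (0 : ℝ) → InW 2 1 A B →
    QLow v a b A B (Q v a b A B) ∧
    l * (‖A - a‖ ^ 2 + ‖B - b‖ ^ 2 - 4 * (W (nuv v a b) * ‖T - v‖ ^ 2)) + E v a b ≤
      Q v a b A B - 2 * (φ' (nuv v a b) * dnu v a b T A B)

/-- admissible pairs -/
structure AdmK (C : Calc M γ) (φ G : ℝ → ℝ) (Ee c₀ X εA cm c : ℝ) (v : Fin 3 → M → ℝ) : Prop where
  hc : c₀ ≤ c
  sph : Sph γ v
  deg : ∫ o, jac C v o ∂C.μ = 2 * Real.pi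
  tot : Ph C φ v + G c ≤ X
  cap : ∃ (c' : ℝ) (A : Set Om), KA C 2 Ee v c c' A ∧ C.μ.real A ≤ εA ∧ c' ≤ cm

/-- the bound of the gradient of the components of `Θ - v` -/
def Lc (Ee c : ℝ) : ℝ := √2 * (√Ee * Real.exp c + 1)

theorem Lc_pos (Ee c : ℝ) : 0 < Lc Ee c := by
  have h1 : 0 < √(2 : ℝ) := Real.sqrt_pos.2 (by norm_num)
  have h2 : 0 ≤ √Ee := Real.sqrt_nonneg _
  have h3 := Real.exp_pos c
  unfold Lc
  positivity

theorem Lc_one (c : ℝ) : Lc 1 c = √2 * (Real.exp c + 1) := by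
  unfold Lc
  rw [Real.sqrt_one, one_mul]

/-- (H) for one weight -/
def Hv (C : Calc M γ) (w : Om → ℝ) (δ : ℝ) : Prop :=
  ∀ g : M → ℝ, Lip g → FPM.OddB γ g → (∀ x, |g x| ≤ 8) →
    4 * ∫ o, w o * g (C.pt o) ^ 2 ∂C.μ ≤ ∫ o, gn C g o ^ 2 ∂C.μ + δ

/-- (H) with side condition for one weight -/
def HSv (C : Calc M γ) (w : Om → ℝ) (κI k L c δ ε σ : ℝ) : Prop :=
  ∀ g : M → ℝ, Lip g → FPM.OddB γ g → (∀ x, |g x| ≤ 8) → ∀ h : ℝ, 1 - Real.exp (-c) ≤ h →
    (∀ s, 0 ≤ s → s < σ → κI * ((σ - s) * h) ^ 2 / (4 * L ^ 2) + ε ≤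
      C.μ.real {o | s * h < |g (C.pt o)|}) →
    4 * ∫ o, w o * g (C.pt o) ^ 2 ∂C.μ + 2 * k * (h - (1 - Real.exp (-c))) ≤
      ∫ o, gn C g o ^ 2 ∂C.μ + δ

/-- the bounded weight -/
def wK (C : Calc M γ) (W : ℝ → ℝ) (v : Fin 3 → M → ℝ) (N : ℝ) (o : Om) : ℝ := min (W (nuC C v o)) (W N)

/-- the inequalities needed for one admissible pair -/
def Good (C : Calc M γ) (φ' Wm : ℝ → ℝ) (κI k Ee c δ ε σ : ℝ) (v : Fin 3 → M → ℝ) : Prop :=
  ∃ (W : ℝ → ℝ) (l : ℝ) (E : E3 → E3 → E3 → ℝ) (Q : E3 → E3 → E3 → E3 → E3 → ℝ),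
    Continuous W ∧ (∀ x, 0 ≤ x → 0 ≤ W x) ∧ (∀ x, 0 ≤ x → W x ≤ Wm x) ∧
    (∀ x y, 0 ≤ x → x ≤ y → W x ≤ W y) ∧ 0 < l ∧ l ≤ 1 ∧ PWE φ' W l E Q ∧
    -δ ≤ ∫ o, E (at' C v o) (dx C v o) (dy C v o) ∂C.μ ∧
    Hv C (wK C W v (2 * Real.exp c ^ 2)) δ ∧
    HSv C (wK C W v (2 * Real.exp c ^ 2)) κI (k / l) (Lc Ee c) c δ ε σ

/-- the side condition from one level `s` -/
theorem HSv_of_f (C : Calc M γ) {w : Om → ℝ} {κI k L c δ ε σ s f : ℝ} (hs : 0 < s) (hsσ : s < σ)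
    (hc : 0 < c) (hk : 0 ≤ k) (hkf : k ≤ 2 * (1 - Real.exp (-c)) * f * s ^ 2) (hκI : 0 ≤ κI)
    (hH : Hv C w δ)
    (h : ∀ g : M → ℝ, Lip g → FPM.OddB γ g → (∀ x, |g x| ≤ 8) → ∀ t : ℝ, s * (1 - Real.exp (-c)) ≤ t →
      κI * ((σ - s) * (1 - Real.exp (-c))) ^ 2 / (4 * L ^ 2) + ε ≤
        C.μ.real {o | t < |g (C.pt o)|} →
      4 * ∫ o, w o * g (C.pt o) ^ 2 ∂C.μ + f * t ^ 2 ≤ ∫ o, gn C g o ^ 2 ∂C.μ + δ) :
    HSv C w κI k L c δ ε σ := by
  intro g hg ho hb hh hhq hall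
  have hq : 0 < 1 - Real.exp (-c) := by
    have : Real.exp (-c) < 1 := by
      rw [← Real.exp_zero]
      exact Real.exp_lt_exp.mpr (by linarith)
    linarith
  rcases eq_or_lt_of_le hk with h0 | h0
  · have := hH g hg ho hb
    rw [← h0]
    linarith
  · have h1 := h g hg ho hb (s * hh) (mul_le_mul_of_nonneg_left hhq hs.le) (by
      refine le_trans ?_ (hall s hs.le hsσ)
      have h0 : 0 ≤ σ - s := by linarith only [hsσ]
      have h1 : ((σ - s) * (1 - Real.exp (-c))) ^ 2 ≤ ((σ - s) * hh) ^ 2 :=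
        pow_le_pow_left₀ (mul_nonneg h0 hq.le) (mul_le_mul_of_nonneg_left hhq h0) 2
      have h2 : κI * ((σ - s) * (1 - Real.exp (-c))) ^ 2 / (4 * L ^ 2) ≤
          κI * ((σ - s) * hh) ^ 2 / (4 * L ^ 2) :=
        div_le_div_of_nonneg_right (mul_le_mul_of_nonneg_left h1 hκI) (by positivity)
      exact add_le_add_left h2 ε)
    have h2 := ken_scal h0 hq hkf hhq
    linarith

/-- the gradient bound of the components -/
theorem gn_gA_leE (C : Calc M γ) {v T : Fin 3 → M → ℝ} {Ee : ℝ} (hE : 0 ≤ Ee) (hv : ∀ k, Lip (v k))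
    (hT : ∀ k, Lip (T k))
    (hTW : ∀ᵐ o ∂C.μ, InW 2 1 (dx C T o) (dy C T o)) : ∀ᵐ o ∂C.μ, ∀ (c : ℝ) (a : E3), ‖a‖ = 1 →
      InW (Real.exp c * 2) (Real.exp c ^ 2 * Ee) (dx C v o) (dy C v o) →
      gn C (gA v T a) o ≤ Lc Ee c := by
  filter_upwards [ae_gA C hv hT, hTW] with o h1 h2 c a ha h3
  have h4 := h3.s
  have h5 := h2.s
  have s2 : √2 ^ 2 = (2 : ℝ) := Real.sq_sqrt (by norm_num)
  have s0 : (0 : ℝ) ≤ √2 := Real.sqrt_nonneg 2
  have sE : √Ee ^ 2 = Ee := Real.sq_sqrt hE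
  have sE0 : 0 ≤ √Ee := Real.sqrt_nonneg _
  have e0 := (Real.exp_pos c).le
  have k := pair_tri (P := √2 * (√Ee * Real.exp c)) (Q := √2) (by positivity) s0
    (x := dx C v o) (y := dy C v o) (x' := dx C T o) (y' := dy C T o)
    (by rw [mul_pow, s2, mul_pow, sE]; linarith) (by rw [s2]; linarith)
  have m : ∀ w : E3, inner ℝ a w ^ 2 ≤ ‖w‖ ^ 2 := by
    intro w
    have h6 := abs_real_inner_le_norm a w
    rw [ha, one_mul] at h6
    rw [← sq_abs]
    exact pow_le_pow_left₀ (abs_nonneg _) h6 2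
  refine le_of_sq_le_sq ?_ (Lc_pos _ _).le
  rw [h1 a]
  have e : Lc Ee c = √2 * (√Ee * Real.exp c) + √2 := by
    unfold Lc
    ring
  rw [e]
  linarith [m (dx C T o - dx C v o), m (dy C T o - dy C v o)]

/-- the direction in which all superlevel sets are large -/
theorem ken_dirK (C : Calc M γ) {κI ε₁ : ℝ} (hI : FPM.IsopO C κI ε₁) (hκI : 0 < κI)
    {v T : Fin 3 → M → ℝ} {Ee c c' : ℝ} (hE : 0 ≤ Ee) {A : Set Om} (h : KA C 2 Ee v c c' A)
    (hT : TZ C 2 1 7 T)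
    {σ : ℝ} (hσ : σ < 1) {n : ℕ}
    (hnet : ∀ (Ω : Type) [MeasurableSpace Ω] (μ : Measure Ω) [IsFiniteMeasure μ] (w : Ω → E3) (h a : ℝ),
      0 ≤ h → 0 ≤ a → a < (μ {o | h ≤ ‖w o‖}).toReal →
      ∃ e : E3, ‖e‖ = 1 ∧ a / n < (μ {o | (1 - (1 - σ) / 3) * h ≤ inner ℝ e (w o)}).toReal)
    {d θ B₀ qq : ℝ} (hd : 0 ≤ d) (hc : 0 < c) (hθ0 : 0 ≤ θ) (hθ : θ < C.μ.real (hA C v T c d))
    (hB : 0 < B₀) (hB0 : B₀ ^ 2 + ε₁ ≤ θ / n)
    (hq : Lc Ee c' * C.μ.real A ≤ qq)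
    (hqB : qq ≤ √κI * ((1 - σ) / 3) * (1 - Real.exp (-c)) * B₀) :
    ∃ a : E3, ‖a‖ = 1 ∧ ∀ s : ℝ, 0 ≤ s → s < σ →
      κI * ((σ - s) * (1 - Real.exp (-c) + d)) ^ 2 / (4 * (Lc Ee c) ^ 2) + ε₁ ≤
        C.μ.real {o | s * (1 - Real.exp (-c) + d) < |gA v T a (C.pt o)|} := by
  have := C.fin
  set ρ := (1 - σ) / 3 with hρ
  have hρ0 : 0 < ρ := by rw [hρ]; linarith
  have hqc : 0 < 1 - Real.exp (-c) := by
    have : Real.exp (-c) < 1 := by
      rw [← Real.exp_zero]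
      exact Real.exp_lt_exp.mpr (by linarith)
    linarith
  set hh := 1 - Real.exp (-c) + d with hhd
  have hh0 : 0 < hh := by rw [hhd]; linarith
  have e0 : ∀ o, at' C (etaK v T) o = at' C T o - at' C v o := fun o => vv_eta v T (C.pt o)
  have hsub : hA C v T c d ⊆ {o | hh ≤ ‖at' C (etaK v T) o‖} := by
    intro o ho
    have ho' : d < Real.exp (-c) - inner ℝ (at' C v o) (at' C T o) := ho
    have hn : ‖at' C v o‖ = 1 := norm_at h.sph o
    have h1 := abs_real_inner_le_norm (at' C v o) (at' C (etaK v T) o)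
    rw [hn, one_mul] at h1
    have h2 : inner ℝ (at' C v o) (at' C (etaK v T) o) = inner ℝ (at' C v o) (at' C T o) - 1 := by
      rw [e0, inner_sub_right, inner_self_one hn]
    rw [h2] at h1
    have h3 := neg_abs_le (inner ℝ (at' C v o) (at' C T o) - 1 : ℝ)
    change hh ≤ ‖at' C (etaK v T) o‖
    linarith
  have hθ' : θ < (C.μ {o | hh ≤ ‖at' C (etaK v T) o‖}).toReal :=
    hθ.trans_le (ENNReal.toReal_mono (measure_ne_top _ _) (measure_mono hsub))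
  obtain ⟨a, ha, hlt⟩ := hnet Om C.μ (fun o => at' C (etaK v T) o) hh θ hh0.le hθ0 hθ'
  refine ⟨a, ha, fun s hs hsσ => ?_⟩
  set h' := (1 - 2 * ρ) * hh with hh'
  have hsub2 : {o | (1 - ρ) * hh ≤ inner ℝ a (at' C (etaK v T) o)} ⊆ {o | h' < |gA v T a (C.pt o)|} := by
    intro o ho
    have ho' : (1 - ρ) * hh ≤ inner ℝ a (at' C (etaK v T) o) := ho
    have h1 : gA v T a (C.pt o) = inner ℝ a (at' C (etaK v T) o) := rfl
    have h2 := le_abs_self (gA v T a (C.pt o))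
    change h' < |gA v T a (C.pt o)|
    rw [h1] at h2 ⊢
    have h3 : 0 < ρ * hh := mul_pos hρ0 hh0
    rw [hh']
    linarith
  have hlev : B₀ ^ 2 + ε₁ ≤ (C.μ {o | h' < |gA v T a (C.pt o)|}).toReal :=
    hB0.trans (hlt.le.trans (ENNReal.toReal_mono (measure_ne_top _ _) (measure_mono hsub2)))
  set L := Lc Ee c with hL
  have hL0 : 0 < L := Lc_pos _ _
  have hgn := gn_gA_leE C hE h.sph.lip hT.lip hT.inW
  have hLO : ∀ᵐ o ∂C.μ, o ∉ A → gn C (gA v T a) o ≤ L := by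
    filter_upwards [hgn, h.out] with o h1 h2 ho
    exact h1 c a ha (h2 ho)
  have hglip := gA_lip h.sph.lip hT.lip a
  have hq1 : ∫ o in A, gn C (gA v T a) o ∂C.μ ≤ qq := by
    refine le_trans ?_ hq
    have h1 : ∫ o in A, gn C (gA v T a) o ∂C.μ ≤ ∫ _ in A, Lc Ee c' ∂C.μ := by
      refine integral_mono_ae (int_gn C hglip).integrableOn (integrable_const _) ?_
      refine ae_restrict_of_ae ?_
      filter_upwards [hgn, h.inA] with o h1 h2
      exact h1 c' a ha h2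
    refine h1.trans (le_of_eq ?_)
    rw [integral_const, smul_eq_mul, mul_comm]
    simp [Measure.real]
  have h2s : 1 - 2 * ρ - ρ = σ := by rw [hρ]; ring
  have key := gro_exc C hI hκI.le hglip (gA_odd h.sph.odd hT.odd a) h.meas hL0 hLO hq1
    (t := s * hh) (h := h') (B0 := B₀) (by positivity) (by
      rw [hh']
      exact mul_le_mul_of_nonneg_right (by linarith) hh0.le) hB hlev
  set m := (C.μ {o | s * hh < |gA v T a (C.pt o)|}).toReal with hm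
  have sk : 0 < √κI := Real.sqrt_pos.2 hκI
  have k1 : qq / (2 * L * B₀) ≤ √κI * (ρ * hh) / (2 * L) := by
    rw [div_le_div_iff₀ (by positivity) (by positivity)]
    have k2 : qq ≤ √κI * (ρ * hh) * B₀ := by
      refine hqB.trans ?_
      have : √κI * ρ * (1 - Real.exp (-c)) * B₀ ≤ √κI * ρ * hh * B₀ := by
        refine mul_le_mul_of_nonneg_right ?_ hB.le
        exact mul_le_mul_of_nonneg_left (by linarith) (by positivity)
      linarith
    nlinarith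
  have k3 : √κI * (h' - s * hh) / (2 * L) - √κI * (ρ * hh) / (2 * L) = √κI * ((σ - s) * hh) / (2 * L) := by
    rw [← sub_div, hh', ← h2s]
    ring
  have k4 : √κI * ((σ - s) * hh) / (2 * L) ≤ √(m - ε₁) := by linarith
  have k5 : 0 < √κI * ((σ - s) * hh) / (2 * L) := by
    have : 0 < σ - s := by linarith
    positivity
  have k6 : 0 < m - ε₁ := Real.sqrt_pos.1 (k5.trans_le k4)
  have k7 := pow_le_pow_left₀ k5.le k4 2
  rw [Real.sq_sqrt k6.le, div_pow, mul_pow, Real.sq_sqrt hκI.le] at k7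
  have k8 : κI * ((σ - s) * hh) ^ 2 / (4 * L ^ 2) = κI * ((σ - s) * hh) ^ 2 / (2 * L) ^ 2 := by
    congr 1
    ring
  rw [k8]
  change _ ≤ m
  linarith

variable [CompactSpace M]

/-- **interface K** with a general cost -/
theorem kint3 (C : Calc M γ) (hγ : Bd γ) (hR : RegAE C) {φ φ' : ℝ → ℝ} {s L : ℝ} (P : Pen φ φ' s L)
    {Ee : ℝ} (hE : 1 ≤ Ee) {κ' β c₀ : ℝ} {G G' : ℝ → ℝ} {κM LG : ℝ} (hG : Cost G G' c₀ κM LG) (hκ' : 0 ≤ κ') (hβ : 0 ≤ β)
    {U : Fin 3 → M → ℝ}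
    (hU : KY C 2 Ee U (fun _ => c₀)) (hUJ : ∫ o, jac C U o ∂C.μ = 2 * Real.pi) {X : ℝ}
    (hUX : Ph C φ U < X) (hX : X < 2 * Real.pi) {ε : ℝ} (hε : 0 < ε) {V : ℝ} (hV : C.vol ≤ V) :
    ∃ (v : Fin 3 → M → ℝ) (c c' : ℝ) (A : Set Om) (F : Fam γ), c₀ ≤ c ∧ KA C 2 Ee v c c' A ∧
      ∫ o, jac C v o ∂C.μ = 2 * Real.pi ∧
      Ph C φ v + G c + κ' * (c' - c₀) + β * C.μ.real A < X ∧ Pre γ F.Th ∧
      (∀ q : Om → ℝ, Integrable q C.μ →
        (∀ᵐ o ∂C.μ, QLow (at' C v o) (dx C v o) (dy C v o) (dx C F.Th o) (dy C F.Th o) (q o)) →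
        ∫ o, q o ∂C.μ ≤ 3 * (C.vol - 2 * Real.pi) + ε) ∧
      ∀ d : ℝ, 0 ≤ d → d ≤ 8 →
        β * C.μ.real (hA C v F.Th c d) ≤ stA V 7 Ee s L (kEff 7 κM κ' LG) X ε * (ε / 4) →
        -ε ≤ ∫ o, φ' (nuC C v o) * dnuC C v F.Th o ∂C.μ + G' c * d + 8 * κ' := by
  obtain ⟨v, c, c', A, hc, hv, hvJ, hvX, hvar⟩ := emk3 C hγ hR P (Λ := 2) (E := Ee) (by norm_num)
    (by linarith) hG hκ' hβ hU hUJ hUX hX (K := 7) (by norm_num) hε hV
  have hpi := Real.pi_pos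
  obtain ⟨F, hF, hfl⟩ := fam_of C hγ hR hv.sph (ε := Real.pi / 12 * ε) (by positivity)
  refine ⟨v, c, c', A, F, hc, hv, hvJ, hvX, hF, fun q hq h => ?_, fun d hd0 hd8 hd => ?_⟩
  · have h1 := int_QLow_le C hv.sph F hfl hvJ.le hq h
    have e : 12 / Real.pi * (Real.pi / 12 * ε) = ε := by
      field_simp
    linarith
  · have := hvar F.Th d (Th_TZ C F le_rfl hE) hd0 (by linarith) hd
    linarith

omit [CompactSpace M] in
/-- the spare term is integrable -/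
theorem PWE_int (C : Calc M γ) {E : E3 → E3 → E3 → ℝ}
    (hE : Continuous (fun q : E3 × E3 × E3 => E q.1 q.2.1 q.2.2)) {v : Fin 3 → M → ℝ} (hv : Sph γ v) :
    Integrable (fun o => E (at' C v o) (dx C v o) (dy C v o)) C.μ := by
  have h : Continuous (fun q : E3 × E3 × E3 × E3 × E3 => E q.1 q.2.1 q.2.2.1) :=
    hE.comp (continuous_fst.prodMk ((continuous_fst.comp continuous_snd).prodMk
      (continuous_fst.comp (continuous_snd.comp continuous_snd))))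
  exact integrable_cont5 C hv hv.lip h

/-- the integrated inequality -/
theorem QE_split (C : Calc M γ) {φ' W : ℝ → ℝ} (hφ : Continuous φ') (hW : Continuous W) {l : ℝ}
    {E : E3 → E3 → E3 → ℝ}
    {Q : E3 → E3 → E3 → E3 → E3 → ℝ} (hQ : PWE φ' W l E Q) {v T : Fin 3 → M → ℝ} (hv : Sph γ v)
    (hT : TZ C 2 1 7 T) {a b : E3}
    (ha : inner ℝ a a = (1 : ℝ)) (hb : inner ℝ b b = (1 : ℝ)) (hab : inner ℝ a b = (0 : ℝ)) :
    l * (sG C W v T a + sG C W v T b + sG C W v T (crs a b))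
        + ∫ o, E (at' C v o) (dx C v o) (dy C v o) ∂C.μ ≤
      ∫ o, Q (at' C v o) (dx C v o) (dy C v o) (dx C T o) (dy C T o) ∂C.μ
        - 2 * ∫ o, φ' (nuC C v o) * dnuC C v T o ∂C.μ := by
  have na : ‖a‖ = 1 := ken_one (norm_nonneg _) ((real_inner_self_eq_norm_sq a).symm.trans ha)
  have nb : ‖b‖ = 1 := ken_one (norm_nonneg _) ((real_inner_self_eq_norm_sq b).symm.trans hb)
  have nc := norm_crs_one ha hb hab
  have i : ∀ w : E3, ‖w‖ = 1 → Integrable (fun o => W (nuC C v o) * gA v T w (C.pt o) ^ 2) C.μ :=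
    fun w hw => mulsq_int C (nuC_cint C hv.lip hW) (gA_lip hv.lip hT.lip w) (gA_bd hv hT.bd hw)
  have j : ∀ w : E3, Integrable (fun o => gn C (gA v T w) o ^ 2) C.μ :=
    fun w => int_gn_sq C (gA_lip hv.lip hT.lip w)
  have k : ∀ w : E3, ‖w‖ = 1 → Integrable (fun o => gn C (gA v T w) o ^ 2 -
      4 * (W (nuC C v o) * gA v T w (C.pt o) ^ 2)) C.μ := fun w hw => (j w).sub ((i w hw).const_mul 4)
  have e : ∀ w : E3, ‖w‖ = 1 → sG C W v T w = ∫ o, (gn C (gA v T w) o ^ 2 -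
      4 * (W (nuC C v o) * gA v T w (C.pt o) ^ 2)) ∂C.μ := fun w hw => by
    rw [integral_sub (j w) ((i w hw).const_mul 4), integral_const_mul]
    rfl
  have iQ := integrable_cont5 C hv hT.lip hQ.2.1
  have iE := PWE_int C hQ.1 hv
  have iD : Integrable (fun o => φ' (nuC C v o) * dnuC C v T o) C.μ := dnuC_cint C hv.lip hT.lip hφ
  obtain ⟨A, hA⟩ : ∃ A : E3 → Om → ℝ, A = fun w o => gn C (gA v T w) o ^ 2 -
      4 * (W (nuC C v o) * gA v T w (C.pt o) ^ 2) := ⟨_, rfl⟩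
  have kA : ∀ w : E3, ‖w‖ = 1 → Integrable (fun o => A w o) C.μ := fun w hw => by
    rw [hA]
    exact k w hw
  have eA : ∀ w : E3, ‖w‖ = 1 → sG C W v T w = ∫ o, A w o ∂C.μ := fun w hw => by
    rw [hA]
    exact e w hw
  have k2 : Integrable (fun o => A a o + A b o) C.μ := (kA a na).add (kA b nb)
  have k3 : Integrable (fun o => A a o + A b o + A (crs a b) o) C.μ := k2.add (kA _ nc)
  have k4 : Integrable (fun o => l * (A a o + A b o + A (crs a b) o)) C.μ := k3.const_mul l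
  have eL : l * (sG C W v T a + sG C W v T b + sG C W v T (crs a b))
      + ∫ o, E (at' C v o) (dx C v o) (dy C v o) ∂C.μ =
      ∫ o, (l * (A a o + A b o + A (crs a b) o) + E (at' C v o) (dx C v o) (dy C v o)) ∂C.μ := by
    rw [integral_add k4 iE, integral_const_mul, integral_add k2 (kA _ nc), integral_add (kA a na) (kA b nb),
      eA a na, eA b nb, eA _ nc]
  have iD2 := iD.const_mul 2
  have eR : ∫ o, Q (at' C v o) (dx C v o) (dy C v o) (dx C T o) (dy C T o) ∂C.μ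
      - 2 * ∫ o, φ' (nuC C v o) * dnuC C v T o ∂C.μ =
      ∫ o, (Q (at' C v o) (dx C v o) (dy C v o) (dx C T o) (dy C T o)
        - 2 * (φ' (nuC C v o) * dnuC C v T o)) ∂C.μ := by
    rw [integral_sub iQ iD2, integral_const_mul]
  rw [eL, eR]
  refine integral_mono_ae (k4.add iE) (iQ.sub iD2) ?_
  filter_upwards [ae_gA C hv.lip hT.lip, ae_perp C hv, hT.inW] with o h1 h2 h3
  have hp := (hQ.2.2 (at' C v o) (dx C v o) (dy C v o) (at' C T o) (dx C T o) (dy C T o)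
    (norm_at hv o) h2.1 h2.2 h3).2
  have d1 := decomp2 ha hb hab (dx C T o - dx C v o)
  have d2 := decomp2 ha hb hab (dy C T o - dy C v o)
  have d3 := decomp2 ha hb hab (at' C T o - at' C v o)
  have e4 : ∀ w : E3, gA v T w (C.pt o) = inner ℝ w (at' C T o - at' C v o) := by
    intro w
    unfold gA
    rw [vv_eta]
    rfl
  refine le_trans (le_of_eq ?_) hp
  rw [hA]
  simp only
  rw [h1 a, h1 b, h1 (crs a b), e4 a, e4 b, e4 (crs a b), d1, d2, d3]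
  unfold nuC
  ring

/-- the weight may be cut off, since the exceptional set is small -/
theorem nugK_le (C : Calc M γ) {W : ℝ → ℝ} (hW : Continuous W) (hW0 : ∀ x, 0 ≤ x → 0 ≤ W x)
    (hWm : ∀ x y, 0 ≤ x → x ≤ y → W x ≤ W y) {v : Fin 3 → M → ℝ} {Ee c c' : ℝ} {A : Set Om}
    (h : KA C 2 Ee v c c' A) {g : M → ℝ} (hg : Lip g) {R : ℝ} (hR : ∀ x, |g x| ≤ R) :
    ∫ o, W (nuC C v o) * g (C.pt o) ^ 2 ∂C.μ ≤
      ∫ o, wG C W v (2 * Real.exp c ^ 2) o * g (C.pt o) ^ 2 ∂C.μ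
        + W (2 * Real.exp c' ^ 2) * R ^ 2 * C.μ.real A := by
  have := C.fin
  have i1 : Integrable (fun o => W (nuC C v o) * g (C.pt o) ^ 2) C.μ :=
    mulsq_int C (nuC_cint C h.sph.lip hW) hg hR
  have i2 := mulsq_int C (wG_int C hW h.sph.lip (2 * Real.exp c ^ 2)) hg hR
  have i3 : Integrable (A.indicator fun _ => W (2 * Real.exp c' ^ 2) * R ^ 2) C.μ :=
    (integrable_const _).indicator₀ h.meas
  have e : ∫ o, A.indicator (fun _ => W (2 * Real.exp c' ^ 2) * R ^ 2) o ∂C.μ =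
      W (2 * Real.exp c' ^ 2) * R ^ 2 * C.μ.real A := by
    rw [integral_indicator₀ h.meas, integral_const, smul_eq_mul, mul_comm]
    congr 1
    simp [Measure.real]
  rw [← e, ← integral_add i2 i3]
  refine integral_mono_ae i1 (i2.add i3) ?_
  filter_upwards [h.inA, h.out] with o h1 h2
  have hgR : g (C.pt o) ^ 2 ≤ R ^ 2 := by
    rw [← sq_abs]
    exact pow_le_pow_left₀ (abs_nonneg _) (hR _) 2
  have hg0 := sq_nonneg (g (C.pt o))
  have hn0 : 0 ≤ nuC C v o := nuv_nonneg _ _ _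
  by_cases ho : o ∈ A
  · have k := hWm _ _ hn0 (nu_le_of_InW h.sph h1)
    rw [indicator_of_mem ho]
    have w0 : 0 ≤ wG C W v (2 * Real.exp c ^ 2) o := le_min (hW0 _ hn0) (hW0 _ (by positivity))
    have k2 : W (nuC C v o) * g (C.pt o) ^ 2 ≤ W (2 * Real.exp c' ^ 2) * R ^ 2 :=
      mul_le_mul k hgR hg0 (hW0 _ (by positivity))
    have k3 := mul_nonneg w0 hg0
    linarith
  · have k := hWm _ _ hn0 (nu_le_of_InW h.sph (h2 ho))
    rw [indicator_of_notMem ho, add_zero]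
    have : wG C W v (2 * Real.exp c ^ 2) o = W (nuC C v o) := min_eq_left k
    rw [this]

theorem sK_ge (C : Calc M γ) {W Wm : ℝ → ℝ} (hW : Continuous W) (hW0 : ∀ x, 0 ≤ x → 0 ≤ W x)
    (hWm : ∀ x y, 0 ≤ x → x ≤ y → W x ≤ W y) (hWW : ∀ x, 0 ≤ x → W x ≤ Wm x)
    {v : Fin 3 → M → ℝ} {Ee c c' : ℝ} {A : Set Om} (h : KA C 2 Ee v c c' A)
    {T : Fin 3 → M → ℝ} (hT : TZ C 2 1 7 T) {a : E3} (ha : ‖a‖ = 1) {p δ : ℝ}
    (hp : 4 * ∫ o, wK C W v (2 * Real.exp c ^ 2) o * gA v T a (C.pt o) ^ 2 ∂C.μ + p ≤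
      ∫ o, gn C (gA v T a) o ^ 2 ∂C.μ + δ) :
    p - (δ + 4 * (Wm (2 * Real.exp c' ^ 2) * 8 ^ 2 * C.μ.real A)) ≤ sG C W v T a := by
  have hg := gA_lip h.sph.lip hT.lip a
  have hb : ∀ x, |gA v T a x| ≤ 8 := fun x => (gA_bd h.sph hT.bd ha x).trans (by norm_num)
  have h2 := nugK_le C hW hW0 hWm h hg hb
  have h3 : W (2 * Real.exp c' ^ 2) * 8 ^ 2 * C.μ.real A ≤
      Wm (2 * Real.exp c' ^ 2) * 8 ^ 2 * C.μ.real A := by
    refine mul_le_mul_of_nonneg_right ?_ measureReal_nonneg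
    exact mul_le_mul_of_nonneg_right (hWW _ (by positivity)) (by norm_num)
  have h4 : ∫ o, wK C W v (2 * Real.exp c ^ 2) o * gA v T a (C.pt o) ^ 2 ∂C.μ =
      ∫ o, wG C W v (2 * Real.exp c ^ 2) o * gA v T a (C.pt o) ^ 2 ∂C.μ := rfl
  unfold sG
  linarith

theorem kenK_sum {l δ r p x y z : ℝ} (hl : 0 < l) (hl1 : l ≤ 1) (h1 : 12 * r ≤ δ / 4) (h0 : 0 ≤ r)
    (gx : p - (δ / 8 + 4 * r) ≤ x) (gy : 0 - (δ / 8 + 4 * r) ≤ y)
    (gz : 0 - (δ / 8 + 4 * r) ≤ z) : l * p - 5 * δ / 8 ≤ l * (x + y + z) := by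
  have h2 : p - 5 * δ / 8 ≤ x + y + z := by linarith
  have h3 : l * (p - 5 * δ / 8) ≤ l * (x + y + z) := mul_le_mul_of_nonneg_left h2 hl.le
  nlinarith

omit [CompactSpace M] in
/-- **closing of scheme K**, general cost, weights depending on the near-minimiser -/
theorem kend_K {φ φ' Wm G G' : ℝ → ℝ} {sφ Lφ κM LG : ℝ} (P : Pen φ φ' sφ Lφ)
    (hWm0 : ∀ x, 0 ≤ x → 0 ≤ Wm x) (hWmm : ∀ x y, 0 ≤ x → x ≤ y → Wm x ≤ Wm y)
    {κI V Ee c₀ X σ εA : ℝ} (hE : 1 ≤ Ee) (hG : Cost G G' c₀ κM LG) (hκI : 0 < κI) (hV0 : 0 < V) (hc₀ : 0 < c₀)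
    (hσ0 : 0 < σ) (hσ : σ < 1) (hX0 : 0 < X) (hX : X < 2 * Real.pi) (hεA : 0 < εA)
    {δ : ℝ} (hδ : 0 < δ) :
    ∃ ε₁ : ℝ, 0 < ε₁ ∧ ∀ (M : Type) [MetricSpace M] [CompactSpace M] (γ : ℝ → M) (C : Calc M γ),
      Bd γ → RegAE C → C.vol ≤ V → ∀ ε : ℝ, 0 ≤ ε → ε ≤ ε₁ → FPM.IsopO C κI ε →
      ∀ U : Fin 3 → M → ℝ, KY C 2 Ee U (fun _ => c₀) → ∫ o, jac C U o ∂C.μ = 2 * Real.pi →
      Ph C φ U < X →
      (∀ (c : ℝ) (v : Fin 3 → M → ℝ), AdmK C φ G Ee c₀ X εA (c₀ + 64 * X / δ) c v →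
        Good C φ' Wm κI (G' c) Ee c (δ / 8) ε σ v) →
      2 * Real.pi ≤ C.vol + δ := by
  have hpi := Real.pi_pos
  have hκM := hG.M0
  have hLG := hG.L0
  have hE0 : 0 ≤ Ee := by linarith
  have hsE : 1 ≤ √Ee := by
    rw [← Real.sqrt_one]
    exact Real.sqrt_le_sqrt hE
  -- constants
  set ρ := (1 - σ) / 3 with hρ
  have hρ0 : 0 < ρ := by rw [hρ]; linarith
  obtain ⟨n, hn, hnet⟩ := net_dir (ρ := ρ) hρ0 (by rw [hρ]; linarith)
  have hn' : (0 : ℝ) < n := by exact_mod_cast hn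
  set q₀ := 1 - Real.exp (-c₀) with hq₀
  have hq00 : 0 < q₀ := by
    have : Real.exp (-c₀) < 1 := by
      rw [← Real.exp_zero]
      exact Real.exp_lt_exp.mpr (by linarith)
    rw [hq₀]
    linarith
  set ε₀ := δ / 12 with hε₀
  have hε₀0 : 0 < ε₀ := by positivity
  set κ' := δ / 64 with hκ'
  have hκ'0 : 0 < κ' := by positivity
  have hke : 0 ≤ kEff 7 κM κ' LG := kEff_nonneg hκM hκ'0.le hLG
  set E₁ := Real.exp (c₀ + X / κ') with hE₁
  have hE₁0 : 0 < E₁ := Real.exp_pos _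
  set E₂ := √Ee * E₁ with hE₂
  have hE₂0 : 0 < E₂ := by positivity
  set S := stA V 7 Ee sφ Lφ (kEff 7 κM κ' LG) X ε₀ with hS
  have hS0 : 0 < S := stA_pos hV0.le (by norm_num) hE0 P.s0 P.L0 hke hX hε₀0
  set WE := Wm (2 * E₁ ^ 2) with hWE
  have hWE0 : 0 ≤ WE := hWm0 _ (by positivity)
  set b1 := 3072 * (WE + 1) * X / δ with hb1
  set b2 := 16 * n * (E₂ + 1) ^ 2 * X ^ 2 / (κI * ρ ^ 2 * q₀ ^ 2 * (S * ε₀)) with hb2
  set b3 := X / εA with hb3
  have hb10 : 0 < b1 := by positivity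
  have hb20 : 0 < b2 := by positivity
  have hb30 : 0 < b3 := by positivity
  set β := b1 + b2 + b3 with hβ
  have hβ0 : 0 < β := by positivity
  set θ := S * (ε₀ / 4) / β with hθ
  have hθ0 : 0 < θ := by positivity
  set δ' := δ / (8 * (κM + 1)) with hδ'
  have hδ'0 : 0 < δ' := by positivity
  refine ⟨θ / (2 * n), by positivity, ?_⟩
  intro M _ _ γ C hγ hR hV ε hε0 hε1 hI U hU hUJ hUX hgood
  have := C.fin
  obtain ⟨v, c, c', A, F, hc, hKA, hJ, htot, -, hflux, hvar⟩ := kint3 C hγ hR P hE hG hκ'0.le hβ0.le hU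
    hUJ hUX hX hε₀0 hV
  have hT := Th_TZ C F (Λ := 2) (E := 1) le_rfl le_rfl
  have n0 : 0 ≤ Ph C φ v := integral_nonneg fun o => (nuv_nonneg _ _ _).trans (P.ge _ (nuv_nonneg _ _ _))
  have m0 : 0 ≤ C.μ.real A := measureReal_nonneg
  have t1 : 0 ≤ G c := hG.nonneg c hc
  have t2 : 0 ≤ κ' * (c' - c₀) := mul_nonneg hκ'0.le (by linarith only [hc, hKA.le])
  have t3 : 0 ≤ β * C.μ.real A := mul_nonneg hβ0.le m0
  have hXc : Ph C φ v + G c ≤ X := by linarith only [htot, t2, t3]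
  have hc'0 : c' ≤ c₀ + X / κ' := by
    have : c' - c₀ ≤ X / κ' := by
      rw [le_div_iff₀ hκ'0]
      linarith only [htot, t1, t3, n0]
    linarith only [this]
  have hc'E : Real.exp c' ≤ E₁ := Real.exp_le_exp.mpr hc'0
  have hAβ : C.μ.real A ≤ X / β := by
    rw [le_div_iff₀ hβ0]
    linarith only [htot, t1, t2, n0]
  have hE'0 := Real.exp_pos c'
  have hAε : C.μ.real A ≤ εA := by
    refine hAβ.trans ?_
    have h1 : X / β ≤ X / b3 := div_le_div_of_nonneg_left hX0.le hb30 (by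
      rw [hβ]
      linarith only [hb10, hb20])
    have h2 : X / b3 = εA := by
      rw [hb3]
      field_simp
    linarith only [h1, h2]
  have hcm : c' ≤ c₀ + 64 * X / δ := by
    have e : X / κ' = 64 * X / δ := by
      rw [hκ']
      field_simp
    linarith only [hc'0, e]
  obtain ⟨W, l, E, Q, hW, hW0, hWW, hWmono, hl, hl1, hQ, hEint, hH, hHS⟩ :=
    hgood c v ⟨hc, hKA.sph, hJ, hXc, c', A, hKA, hAε, hcm⟩
  -- the exceptional set
  have hA1 : 12 * (Wm (2 * Real.exp c' ^ 2) * 8 ^ 2 * C.μ.real A) ≤ δ / 4 := by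
    have h1 : Real.exp c' ^ 2 ≤ E₁ ^ 2 := pow_le_pow_left₀ hE'0.le hc'E 2
    have h1' : Wm (2 * Real.exp c' ^ 2) ≤ WE + 1 := by
      have := hWmm (2 * Real.exp c' ^ 2) (2 * E₁ ^ 2) (by positivity) (by linarith only [h1])
      linarith only [this]
    have h2 : Wm (2 * Real.exp c' ^ 2) * C.μ.real A ≤ (WE + 1) * (X / β) :=
      mul_le_mul h1' hAβ m0 (by positivity)
    have h3 : (WE + 1) * (X / β) ≤ δ / 3072 := by
      have h4 : X / β ≤ X / b1 := div_le_div_of_nonneg_left hX0.le hb10 (by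
        rw [hβ]
        linarith only [hb20, hb30])
      have h5 : (WE + 1) * (X / b1) = δ / 3072 := by
        rw [hb1]
        field_simp
      rw [← h5]
      exact mul_le_mul_of_nonneg_left h4 (by positivity)
    linarith only [h2, h3]
  have hA0 : 0 ≤ Wm (2 * Real.exp c' ^ 2) * 8 ^ 2 * C.μ.real A :=
    mul_nonneg (mul_nonneg (hWm0 _ (by positivity)) (by norm_num)) m0
  have hc0 : 0 < c := by linarith only [hc, hc₀]
  set q := 1 - Real.exp (-c) with hq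
  have hqq : q₀ ≤ q := by
    have : Real.exp (-c) ≤ Real.exp (-c₀) := Real.exp_le_exp.mpr (by linarith only [hc])
    rw [hq, hq₀]
    linarith only [this]
  have hq0 : 0 < q := by linarith only [hqq, hq00]
  -- the three components
  have hge : ∀ a : E3, ‖a‖ = 1 →
      0 - (δ / 8 + 4 * (Wm (2 * Real.exp c' ^ 2) * 8 ^ 2 * C.μ.real A)) ≤ sG C W v F.Th a := by
    intro a ha
    have hg := gA_lip hKA.sph.lip hT.lip a
    have hb : ∀ x, |gA v F.Th a x| ≤ 8 := fun x => (gA_bd hKA.sph hT.bd ha x).trans (by norm_num)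
    refine sK_ge C hW hW0 hWmono hWW hKA hT ha ?_
    have := hH _ hg (gA_odd hKA.sph.odd hT.odd a) hb
    linarith only [this]
  -- the choice of d
  set D : Set ℝ := {d | 0 ≤ d ∧ d ≤ 8 ∧ β * C.μ.real (hA C v F.Th c d) ≤ S * (ε₀ / 4)} with hD
  have h8 : (8 : ℝ) ∈ D := by
    refine ⟨by norm_num, le_rfl, ?_⟩
    have : hA C v F.Th c 8 = ∅ := by
      ext o
      simp only [hA, Set.mem_ofPred_eq, mem_empty_iff_false, iff_false, not_lt]
      have h1 := abs_real_inner_le_norm (at' C v o) (at' C F.Th o)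
      rw [norm_at hKA.sph o, one_mul] at h1
      have h2 := neg_abs_le (inner ℝ (at' C v o) (at' C F.Th o) : ℝ)
      have h3 : ‖at' C F.Th o‖ ≤ 7 := hT.bd (C.pt o)
      have h4 : Real.exp (-c) ≤ 1 := by
        have : q = 1 - Real.exp (-c) := rfl
        linarith only [this, hq0]
      linarith only [h1, h2, h3, h4]
    rw [this, measureReal_empty, mul_zero]
    positivity
  obtain ⟨d, hd, hcase⟩ := ken_d h8 (fun d hd => hd.1) hδ'0
  have hKF1 := hvar d hd.1 hd.2.1 hd.2.2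
  have hKF2 := hflux _ (integrable_cont5 C hKA.sph hT.lip hQ.2.1) (by
    filter_upwards [ae_perp C hKA.sph, hT.inW] with o h2 h3
    exact (hQ.2.2 (at' C v o) (dx C v o) (dy C v o) (at' C F.Th o) (dx C F.Th o) (dy C F.Th o)
      (norm_at hKA.sph o) h2.1 h2.2 h3).1)
  have hKF : ∫ o, Q (at' C v o) (dx C v o) (dy C v o) (dx C F.Th o) (dy C F.Th o) ∂C.μ
      - 2 * ∫ o, φ' (nuC C v o) * dnuC C v F.Th o ∂C.μ ≤
      3 * (C.vol - 2 * Real.pi) + 3 * ε₀ + 2 * (G' c * d) + 16 * κ' := by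
    linarith only [hKF1, hKF2]
  have e1 : 3 * ε₀ = δ / 4 := by rw [hε₀]; ring
  have e2 : 16 * κ' = δ / 4 := by rw [hκ']; ring
  have e3 : 2 * (G' c * δ') ≤ δ / 4 := by
    have h1 : G' c * δ' ≤ (κM + 1) * δ' :=
      mul_le_mul_of_nonneg_right (by linarith only [hG.le' c hc]) hδ'0.le
    have h2 : (κM + 1) * δ' = δ / 8 := by
      rw [hδ']
      field_simp
    linarith only [h1, h2]
  have hG'0 : 0 ≤ G' c := hG.nonneg' c hc
  rcases hcase with hcase | ⟨hdδ, hnot⟩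
  · -- no error
    obtain ⟨b, hb1', hb2'⟩ := exists_perp1 (!₂[1, 0, 0] : E3)
    have ha1 : inner ℝ (!₂[1, 0, 0] : E3) (!₂[1, 0, 0] : E3) = (1 : ℝ) := by
      rw [inner3]
      change (1 : ℝ) * 1 + 0 * 0 + 0 * 0 = 1
      norm_num
    have hsp := QE_split C P.cont' hW hQ hKA.sph hT ha1 hb1' hb2'
    have na : ‖(!₂[1, 0, 0] : E3)‖ = 1 := by
      have h := real_inner_self_eq_norm_sq (!₂[1, 0, 0] : E3)
      exact ken_one (norm_nonneg _) (h.symm.trans ha1)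
    have nb : ‖b‖ = 1 := by
      have h := real_inner_self_eq_norm_sq b
      exact ken_one (norm_nonneg _) (h.symm.trans hb1')
    have g1 := hge _ na
    have g2 := hge _ nb
    have g3 := hge _ (norm_crs_one ha1 hb1' hb2')
    have g4 : 2 * (G' c * d) ≤ 2 * (G' c * δ') :=
      mul_le_mul_of_nonneg_left (mul_le_mul_of_nonneg_left hcase.le hG'0) (by norm_num)
    have g8 := kenK_sum hl hl1 hA1 hA0 g1 g2 g3
    rw [mul_zero] at g8
    linarith only [hKF, hsp, g8, g4, e1, e2, e3, hδ, hEint]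
  · -- the side condition
    have hlt : θ < C.μ.real (hA C v F.Th c (d - δ')) := by
      by_contra hcon
      push Not at hcon
      refine hnot ⟨by linarith only [hdδ], by linarith only [hd.2.1, hδ'0], ?_⟩
      rw [hθ, le_div_iff₀ hβ0] at hcon
      linarith only [hcon]
    set qq := √2 * (E₂ + 1) * (X / β) with hqq'
    have s20 : 0 < √(2 : ℝ) := Real.sqrt_pos.2 (by norm_num)
    have sk : 0 < √κI := Real.sqrt_pos.2 hκI
    have hqq0 : 0 < qq := by positivity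
    set B₀ := qq / (√κI * ρ * q₀) with hB₀
    have hB₀0 : 0 < B₀ := by positivity
    have hB₀2 : B₀ ^ 2 ≤ θ / (2 * n) :=
      ken_B hκI hρ0 hq00 hS0 hε₀0 hn' hβ0 (by rw [hβ]; linarith only [hb10, hb30])
    have hBn : B₀ ^ 2 + ε ≤ θ / n := by
      have : θ / n = θ / (2 * n) + θ / (2 * n) := by
        rw [← add_div, ← two_mul, mul_div_mul_left _ _ two_ne_zero]
      rw [this]
      exact add_le_add hB₀2 hε1
    obtain ⟨a, ha, hdir⟩ := ken_dirK C (ε₁ := ε) hI hκI hE0 hKA hT hσ (n := n) hnet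
      (d := d - δ') (θ := θ) (B₀ := B₀) (qq := qq) (by linarith only [hdδ]) hc0 hθ0.le hlt hB₀0 hBn
      (by
        have h0 : √Ee * Real.exp c' ≤ E₂ := mul_le_mul_of_nonneg_left hc'E (by linarith only [hsE])
        have h1 : Lc Ee c' ≤ √2 * (E₂ + 1) :=
          mul_le_mul_of_nonneg_left (by linarith only [h0]) s20.le
        exact mul_le_mul h1 hAβ m0 (by positivity))
      (by
        change qq ≤ √κI * ρ * q * B₀
        have h1 : √κI * ρ * q₀ * B₀ = qq := by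
          rw [hB₀]
          exact mul_div_cancel₀ _ (by positivity)
        have h2 : √κI * ρ * q₀ * B₀ ≤ √κI * ρ * q * B₀ :=
          mul_le_mul_of_nonneg_right (mul_le_mul_of_nonneg_left hqq (by positivity)) hB₀0.le
        linarith only [h1, h2])
    set hh := q + (d - δ') with hhd
    have hhq : q ≤ hh := by
      rw [hhd]
      linarith only [hdδ]
    have hla : inner ℝ a a = (1 : ℝ) := by
      rw [real_inner_self_eq_norm_sq, ha, one_pow]
    obtain ⟨b, hb1', hb2'⟩ := exists_perp1 a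
    have hsp := QE_split C P.cont' hW hQ hKA.sph hT hla hb1' hb2'
    have nb : ‖b‖ = 1 := by
      have h := real_inner_self_eq_norm_sq b
      exact ken_one (norm_nonneg _) (h.symm.trans hb1')
    have g2 := hge _ nb
    have g3 := hge _ (norm_crs_one hla hb1' hb2')
    have g1 := sK_ge C hW hW0 hWmono hWW hKA hT ha (hHS _ (gA_lip hKA.sph.lip hT.lip a)
      (gA_odd hKA.sph.odd hT.odd a)
      (fun x => (gA_bd hKA.sph hT.bd ha x).trans (by norm_num)) hh hhq hdir)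
    -- the scalar inequality
    have g7 : hh - q = d - δ' := by rw [hhd]; ring
    rw [← hq, g7] at g1
    have g8 := kenK_sum hl hl1 hA1 hA0 g1 g2 g3
    have g9 : l * (2 * (G' c / l) * (d - δ')) = 2 * (G' c * d) - 2 * (G' c * δ') := by
      field_simp
    rw [g9] at g8
    linarith only [hKF, hsp, g8, e1, e2, e3, hδ, hEint]

end Pool.Agent.FPX
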