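import Mathlib
import Pool.Agent.FPX.KENK

/-
KGD (helper58): `Good` from a finite list of parameters `ζ`. The certificate with spare term
`P - ζ φ(ν)` may be used as soon as `ζ X ≤ B`, `B = ∫ P(v, dv)`; then only `B ≤ ζ' X` with the next value
`ζ'` is needed for the weighted inequalities.
-/

open MeasureTheory Set Filter Topology
open scoped ENNReal NNReal

noncomputable section

namespace Pool.Agent.FPX

open Pool.Agent.EWD

/-- the conditions on the weight -/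
structure WOk (W Wm : ℝ → ℝ) : Prop where
  cont : Continuous W
  nonneg : ∀ x, 0 ≤ x → 0 ≤ W x
  le : ∀ x, 0 ≤ x → W x ≤ Wm x
  mono : ∀ x y, 0 ≤ x → x ≤ y → W x ≤ W y

variable {M : Type} [MetricSpace M] {γ : ℝ → M}

/-- one certificate -/
theorem Good.of_one (C : Calc M γ) {φ' Wm W : ℝ → ℝ} {κI k Ee c δ ε σ l : ℝ} {v : Fin 3 → M → ℝ}
    {E : E3 → E3 → E3 → ℝ} {Q : E3 → E3 → E3 → E3 → E3 → ℝ} (hW : WOk W Wm) (hl : 0 < l) (hl1 : l ≤ 1)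
    (hQ : PWE φ' W l E Q) (hE : -δ ≤ ∫ o, E (at' C v o) (dx C v o) (dy C v o) ∂C.μ)
    (hH : Hv C (wK C W v (2 * Real.exp c ^ 2)) δ)
    (hS : HSv C (wK C W v (2 * Real.exp c ^ 2)) κI (k / l) (Lc Ee c) c δ ε σ) :
    Good C φ' Wm κI k Ee c δ ε σ v :=
  ⟨W, l, E, Q, hW.cont, hW.nonneg, hW.le, hW.mono, hl, hl1, hQ, hE, hH, hS⟩

/-- the choice of the index -/
theorem kgd_index {n : ℕ} {ζ : ℕ → ℝ} {X B : ℝ} (h0 : ζ 0 * X ≤ B) :
    ∃ i, i ≤ n ∧ ζ i * X ≤ B ∧ (i = n ∨ B ≤ ζ (i + 1) * X) := by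
  induction n with
  | zero => exact ⟨0, le_rfl, h0, Or.inl rfl⟩
  | succ n ih =>
    obtain ⟨i, hi, h1, h2⟩ := ih
    rcases h2 with h2 | h2
    · rcases le_total B (ζ (n + 1) * X) with h3 | h3
      · subst h2
        exact ⟨i, by omega, h1, Or.inr h3⟩
      · exact ⟨n + 1, le_rfl, h3, Or.inl rfl⟩
    · exact ⟨i, by omega, h1, Or.inr h2⟩

variable [CompactSpace M]


/-- the integral of the spare term -/
theorem spare_ge (C : Calc M γ) {φ φ' W G : ℝ → ℝ} {l : ℝ} {Ee c₀ X εA cm c : ℝ} {v : Fin 3 → M → ℝ}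
    (hA : AdmK C φ G Ee c₀ X εA cm c v) (hG : 0 ≤ G c) (hφ : Continuous φ)
    {P : E3 → E3 → E3 → ℝ} (hP : Continuous (fun q : E3 × E3 × E3 => P q.1 q.2.1 q.2.2))
    {Q : E3 → E3 → E3 → E3 → E3 → ℝ} {ζ : ℝ} (hζ : 0 ≤ ζ)
    (_hQ : PWE φ' W l (fun v a b => P v a b - ζ * φ (nuv v a b)) Q)
    (hB : ζ * X ≤ ∫ o, P (at' C v o) (dx C v o) (dy C v o) ∂C.μ) :
    0 ≤ ∫ o, (P (at' C v o) (dx C v o) (dy C v o) - ζ * φ (nuv (at' C v o) (dx C v o) (dy C v o))) ∂C.μ := by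
  have i1 : Integrable (fun o => P (at' C v o) (dx C v o) (dy C v o)) C.μ := by
    have h : Continuous (fun q : E3 × E3 × E3 × E3 × E3 => P q.1 q.2.1 q.2.2.1) :=
      hP.comp (continuous_fst.prodMk ((continuous_fst.comp continuous_snd).prodMk
        (continuous_fst.comp (continuous_snd.comp continuous_snd))))
    exact integrable_cont5 C hA.sph hA.sph.lip h
  have i2 : Integrable (fun o => φ (nuv (at' C v o) (dx C v o) (dy C v o))) C.μ :=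
    nuC_cint C hA.sph.lip hφ
  rw [integral_sub i1 (i2.const_mul ζ), integral_const_mul]
  have h1 : ∫ o, φ (nuv (at' C v o) (dx C v o) (dy C v o)) ∂C.μ = Ph C φ v := rfl
  rw [h1]
  have h2 := hA.tot
  have h3 : ζ * Ph C φ v ≤ ζ * X := mul_le_mul_of_nonneg_left (by linarith) hζ
  linarith


/-- **`Good` from a finite list of certificates** -/
theorem Good.of_list (C : Calc M γ) {φ φ' Wm G : ℝ → ℝ} {Ee c₀ X εA cm c κI k δ ε σ : ℝ}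
    {v : Fin 3 → M → ℝ} (hA : AdmK C φ G Ee c₀ X εA cm c v) (hG : 0 ≤ G c) (hφ : Continuous φ)
    (hδ : 0 ≤ δ) {P : E3 → E3 → E3 → ℝ} (hP : Continuous (fun q : E3 × E3 × E3 => P q.1 q.2.1 q.2.2))
    {n : ℕ} {ζ : ℕ → ℝ} (hζ : ∀ i, i ≤ n → 0 ≤ ζ i) {W : ℕ → ℝ → ℝ} {l : ℕ → ℝ}
    {Q : ℕ → E3 → E3 → E3 → E3 → E3 → ℝ} (hW : ∀ i, i ≤ n → WOk (W i) Wm) (hl : ∀ i, i ≤ n → 0 < l i)
    (hl1 : ∀ i, i ≤ n → l i ≤ 1)
    (hQ : ∀ i, i ≤ n → PWE φ' (W i) (l i) (fun v a b => P v a b - ζ i * φ (nuv v a b)) (Q i))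
    (h0 : ζ 0 * X ≤ ∫ o, P (at' C v o) (dx C v o) (dy C v o) ∂C.μ)
    (hH : ∀ i, i ≤ n → ζ i * X ≤ ∫ o, P (at' C v o) (dx C v o) (dy C v o) ∂C.μ →
      (i = n ∨ ∫ o, P (at' C v o) (dx C v o) (dy C v o) ∂C.μ ≤ ζ (i + 1) * X) →
      Hv C (wK C (W i) v (2 * Real.exp c ^ 2)) δ ∧
      HSv C (wK C (W i) v (2 * Real.exp c ^ 2)) κI (k / l i) (Lc Ee c) c δ ε σ) :
    Good C φ' Wm κI k Ee c δ ε σ v := by
  obtain ⟨i, hi, h1, h2⟩ := kgd_index (n := n) h0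
  obtain ⟨h3, h4⟩ := hH i hi h1 h2
  have h5 := spare_ge C hA hG hφ hP (hζ i hi) (hQ i hi) h1
  exact Good.of_one C (hW i hi) (hl i hi) (hl1 i hi) (hQ i hi) (by linarith) h3 h4

end Pool.Agent.FPX
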