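import Mathlib
import Pool.Agent.FPX.HRP
import Pool.Agent.FPX.KENG

/-
HWX (helper23): the Hardy inequality with a side condition (general profile and charge), the closed
form of its certificate for the profile `κ a` and the charges `min (N a) m`, `min (f a / b) f`, and the
statements `HH`, `HS`, `HHG`, `HSG` used by the closing of scheme K.
-/

open MeasureTheory Set Filter Topology
open scoped ENNReal NNReal

noncomputable section

namespace Pool.Agent.FPX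

section cert

/-- gluing of a certificate below `b` with a function above `b` -/
theorem hwx_glue {κ b V R₂ : ℝ} {φ : ℝ → ℝ} (hκ : 0 < κ) (hb : 0 < b) (hbV : b ≤ V)
    (hφ : ContinuousOn φ (Icc b V)) (φb : φ b = R₂ ^ 2 / (κ * b)) (φ0 : ∀ a ∈ Icc b V, 0 ≤ φ a) :
    ∃ k : ℝ → ℝ, Continuous k ∧ (∀ a ≤ 0, k a = 0) ∧ (∀ a, 0 ≤ k a) ∧
      (∀ a, 0 ≤ a → a ≤ b → k a = R₂ ^ 2 * a / (κ * b ^ 2) ∧
        ∫ u in (0 : ℝ)..a, k u = R₂ ^ 2 * a ^ 2 / (2 * κ * b ^ 2)) ∧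
      (∀ a, b ≤ a → a ≤ V → k a = φ a) := by
  set pr : ℝ → ℝ := fun a => max b (min a V) with hpr
  have cpr : Continuous pr := by fun_prop
  have mpr : ∀ a, pr a ∈ Icc b V := fun a => ⟨le_max_left _ _, max_le hbV (min_le_right _ _)⟩
  set k : ℝ → ℝ := fun a => R₂ ^ 2 * max 0 (min a b) / (κ * b ^ 2) + (φ (pr a) - φ b) with hk
  have k1 : ∀ a, a ≤ b → k a = R₂ ^ 2 * max 0 a / (κ * b ^ 2) := fun a h => by
    rw [hk]
    change R₂ ^ 2 * max 0 (min a b) / (κ * b ^ 2) + (φ (max b (min a V)) - φ b) = _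
    rw [min_eq_left h, max_eq_left (min_le_of_left_le h), sub_self, add_zero]
  have k2 : ∀ a, b ≤ a → k a = φ (min a V) := fun a h => by
    rw [hk]
    change R₂ ^ 2 * max 0 (min a b) / (κ * b ^ 2) + (φ (max b (min a V)) - φ b) = _
    rw [min_eq_right h, max_eq_right hb.le, max_eq_right (le_min h hbV), φb]
    field_simp
    ring
  have ck : Continuous k := by
    have c1 : Continuous fun a => φ (pr a) := hφ.comp_continuous cpr mpr
    have c2 : Continuous fun a : ℝ => R₂ ^ 2 * max 0 (min a b) / (κ * b ^ 2) :=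
      (by fun_prop : Continuous fun a : ℝ => R₂ ^ 2 * max 0 (min a b)).div_const _
    exact c2.add (c1.sub continuous_const)
  refine ⟨k, ck, fun a h => ?_, fun a => ?_, fun a h0 h1 => ⟨?_, ?_⟩, fun a h0 h1 => ?_⟩
  · rw [k1 a (h.trans hb.le), max_eq_left h]
    simp
  · rcases le_total a b with h | h
    · rw [k1 a h]
      positivity
    · rw [k2 a h]
      exact φ0 _ ⟨le_min h hbV, min_le_right _ _⟩
  · rw [k1 a h1, max_eq_right h0]
  · have e : ∫ u in (0 : ℝ)..a, k u = ∫ u in (0 : ℝ)..a, R₂ ^ 2 / (κ * b ^ 2) * u := by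
      refine intervalIntegral.integral_congr fun u hu => ?_
      rw [uIcc_of_le h0] at hu
      rw [k1 u (hu.2.trans h1), max_eq_right hu.1]
      ring
    rw [e, intervalIntegral.integral_const_mul, integral_id]
    ring
  · rw [k2 a h0, min_eq_left h1]

/-- derivative of `R / (1 - R / κ * log (a / b))` -/
theorem hwx_der {κ b R a : ℝ} (hb : 0 < b) (ha : 0 < a)
    (h : 0 < 1 - R / κ * Real.log (a / b)) :
    HasDerivAt (fun x => R / (1 - R / κ * Real.log (x / b)))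
      ((R / (1 - R / κ * Real.log (a / b))) ^ 2 / (κ * a)) a := by
  have h1 : HasDerivAt (fun x : ℝ => Real.log (x / b)) (1 / a) a := by
    have h2 : HasDerivAt (fun x : ℝ => x / b) (1 / b) a := (hasDerivAt_id a).div_const b
    refine (h2.log (by positivity)).congr_deriv ?_
    field_simp
  have h3 := (h1.const_mul (R / κ)).const_sub 1
  refine ((hasDerivAt_const a R).div h3 h.ne').congr_deriv ?_
  have h4 : (1 - R / κ * Real.log (a / b)) ≠ 0 := h.ne'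
  generalize Real.log (a / b) = l at h4 ⊢
  rw [div_pow]
  rcases eq_or_ne κ 0 with hk | hk
  · subst hk
    simp
  · field_simp
    ring

/-- the pointwise inequality in the middle range -/
theorem hwx_pt {κ b a a₁ N m S S₁ c₁ c₂ : ℝ} (hκ : 0 < κ) (hb : 0 < b) (a10 : 0 < a₁) (hN : 0 < N)
    (hNa : N * a₁ = m) (h0 : b ≤ a) (h1 : a ≤ a₁) (hSp : 0 ≤ S) (hS1 : S ≤ S₁) (hc₁ : 0 ≤ c₁)
    (hc₂ : 0 ≤ c₂) (h3 : 2 * S₁ * (1 + c₁) ≤ κ * c₁)
    (h4 : 2 * S₁ * c₂ + m * (1 + c₁ + c₂) ^ 2 ≤ 2 * κ * c₂) :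
    N + (S + N * (a - b) * (1 + c₁ + c₂ * ((a - b) / a₁))) ^ 2 / (κ * a) ≤
      S ^ 2 / (κ * a) + (N * (1 + c₁) + 2 * c₂ * N * ((a - b) / a₁)) := by
  have a0 : 0 < a := hb.trans_le h0
  have m0 : 0 < m := by rw [← hNa]; positivity
  obtain ⟨z, hz⟩ : ∃ z, z = (a - b) / a₁ := ⟨_, rfl⟩
  have z0 : 0 ≤ z := by
    rw [hz]
    exact div_nonneg (by linarith) a10.le
  have z1 : z ≤ 1 := by
    rw [hz, div_le_one a10]
    linarith
  have e1 : a - b = a₁ * z := by rw [hz]; field_simp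
  rw [← hz]
  obtain ⟨u, hu⟩ : ∃ u, u = 1 + c₁ + c₂ * z := ⟨_, rfl⟩
  rw [← hu]
  have u0 : 0 ≤ u := by rw [hu]; positivity
  have u1 : u ≤ 1 + c₁ + c₂ := by
    have := mul_le_mul_of_nonneg_left z1 hc₂
    rw [hu]
    linarith
  have e3 : m * z = N * (a - b) := by rw [e1, ← hNa]; ring
  have e2 : (S + N * (a - b) * u) ^ 2 / (κ * a) =
      S ^ 2 / (κ * a) + N * ((a - b) / a) * (u * (2 * S + m * z * u) / κ) := by
    rw [e3]
    field_simp
    ring
  have r1 : (a - b) / a ≤ 1 := by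
    rw [div_le_one a0]
    linarith
  have r0 : 0 ≤ (a - b) / a := div_nonneg (by linarith) a0.le
  have k1 : u * (2 * S) ≤ 2 * S₁ * (1 + c₁) + z * (2 * S₁ * c₂) := by
    have : u * (2 * S) ≤ u * (2 * S₁) := mul_le_mul_of_nonneg_left (by linarith) u0
    refine this.trans (le_of_eq ?_)
    rw [hu]
    ring
  have k2 : m * z * u * u ≤ z * (m * (1 + c₁ + c₂) ^ 2) := by
    have h6 : u * u ≤ (1 + c₁ + c₂) * (1 + c₁ + c₂) := mul_le_mul u1 u1 u0 (by positivity)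
    have h7 := mul_le_mul_of_nonneg_left h6 (show 0 ≤ m * z by positivity)
    calc m * z * u * u = m * z * (u * u) := by ring
      _ ≤ m * z * ((1 + c₁ + c₂) * (1 + c₁ + c₂)) := h7
      _ = z * (m * (1 + c₁ + c₂) ^ 2) := by ring
  have k3 := mul_le_mul_of_nonneg_left h4 z0
  have key : u * (2 * S + m * z * u) ≤ (c₁ + 2 * c₂ * z) * κ := by
    have e5 : u * (2 * S + m * z * u) = u * (2 * S) + m * z * u * u := by ring
    have e6 : z * (2 * S₁ * c₂ + m * (1 + c₁ + c₂) ^ 2) =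
        z * (2 * S₁ * c₂) + z * (m * (1 + c₁ + c₂) ^ 2) := by ring
    have e7 : z * (2 * κ * c₂) = 2 * c₂ * z * κ := by ring
    rw [e5]
    rw [e6, e7] at k3
    linarith
  have key2 : u * (2 * S + m * z * u) / κ ≤ c₁ + 2 * c₂ * z := by
    rw [div_le_iff₀ hκ]
    exact key
  have key3 : 0 ≤ u * (2 * S + m * z * u) / κ := by positivity
  have key4 : N * ((a - b) / a) * (u * (2 * S + m * z * u) / κ) ≤ N * 1 * (c₁ + 2 * c₂ * z) := by
    gcongr
  rw [e2]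
  have e8 : N * 1 * (c₁ + 2 * c₂ * z) = N * c₁ + 2 * c₂ * N * z := by ring
  rw [e8] at key4
  linarith

/-- **the certificate** for the charges `min (N a) m` and `min (f a / b) f` and the profile `κ a` -/
theorem hwx_cert {κ b f N m V R₂ S₁ c₁ c₂ : ℝ} (hκ : 0 < κ) (hb : 0 < b) (hf : 0 ≤ f) (hN : 0 < N)
    (hbm : N * b ≤ m) (hmV : m ≤ N * V) (hR : 0 ≤ R₂) (h2 : f + N * b + R₂ ^ 2 / (2 * κ) ≤ R₂)
    (hlog : R₂ / κ * Real.log (m / N / b) < 1)
    (hS : R₂ / (1 - R₂ / κ * Real.log (m / N / b)) ≤ S₁) (hc₁ : 0 ≤ c₁) (hc₂ : 0 ≤ c₂)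
    (h3 : 2 * S₁ * (1 + c₁) ≤ κ * c₁) (h4 : 2 * S₁ * c₂ + m * (1 + c₁ + c₂) ^ 2 ≤ 2 * κ * c₂)
    (hfin : (S₁ + m * (1 + c₁ + c₂)) / κ * Real.log (V / (m / N)) < 1) :
    ∃ k : ℝ → ℝ, Continuous k ∧ (∀ a ≤ 0, k a = 0) ∧ (∀ a, 0 ≤ k a) ∧
      ∀ a, 0 < a → a ≤ V →
        (min (N * a) m + min (f / b * a) f + ∫ u in (0 : ℝ)..a, k u) ^ 2 ≤ κ * a * k a := by
  set a₁ := m / N with ha₁
  have hba : b ≤ a₁ := by
    rw [ha₁, le_div_iff₀ hN]
    linarith
  have haV : a₁ ≤ V := by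
    rw [ha₁, div_le_iff₀ hN]
    linarith
  have a10 : 0 < a₁ := hb.trans_le hba
  have hNa : N * a₁ = m := by rw [ha₁]; field_simp
  have hbV : b ≤ V := hba.trans haV
  have m0 : 0 < m := by rw [← hNa]; positivity
  have lg : ∀ {x y z : ℝ}, 0 < z → 0 < x → x ≤ y → Real.log (x / z) ≤ Real.log (y / z) :=
    fun {x y z} hz hx hxy => Real.log_le_log (by positivity) (by gcongr)
  have RB0 : ∀ a, b ≤ a → a ≤ a₁ → 0 < 1 - R₂ / κ * Real.log (a / b) := fun a h0 h1 => by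
    have h5 : Real.log (a / b) ≤ Real.log (a₁ / b) := lg hb (hb.trans_le h0) h1
    have h6 : R₂ / κ * Real.log (a / b) ≤ R₂ / κ * Real.log (a₁ / b) :=
      mul_le_mul_of_nonneg_left h5 (by positivity)
    linarith
  set S : ℝ → ℝ := fun a => R₂ / (1 - R₂ / κ * Real.log (a / b)) with hSd
  have Spos : ∀ a, b ≤ a → a ≤ a₁ → 0 ≤ S a := fun a h0 h1 => div_nonneg hR (RB0 a h0 h1).le
  have Sle : ∀ a, b ≤ a → a ≤ a₁ → S a ≤ S₁ := fun a h0 h1 => by
    refine le_trans ?_ hS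
    refine div_le_div_of_nonneg_left hR (RB0 a₁ hba le_rfl) ?_
    have h5 : Real.log (a / b) ≤ Real.log (a₁ / b) := lg hb (hb.trans_le h0) h1
    have h6 : R₂ / κ * Real.log (a / b) ≤ R₂ / κ * Real.log (a₁ / b) :=
      mul_le_mul_of_nonneg_left h5 (by positivity)
    linarith
  have S10 : 0 ≤ S₁ := (Spos b le_rfl hba).trans (Sle b le_rfl hba)
  set T : ℝ → ℝ := fun a => N * (a - b) * (1 + c₁ + c₂ * ((a - b) / a₁)) with hTd
  set RB : ℝ → ℝ := fun a => S a + T a with hRB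
  have Tpos : ∀ a, b ≤ a → 0 ≤ T a := fun a h0 => by
    have : 0 ≤ a - b := by linarith
    rw [hTd]
    positivity
  have RBp : ∀ a, b ≤ a → a ≤ a₁ → 0 ≤ RB a := fun a h0 h1 => add_nonneg (Spos a h0 h1) (Tpos a h0)
  have RBd : ∀ a, b ≤ a → a ≤ a₁ → HasDerivAt RB
      (S a ^ 2 / (κ * a) + (N * (1 + c₁) + 2 * c₂ * N * ((a - b) / a₁))) a := fun a h0 h1 => by
    have h5 := hwx_der (κ := κ) (R := R₂) hb (hb.trans_le h0) (RB0 a h0 h1)
    have h6 : HasDerivAt T (N * (1 + c₁) + 2 * c₂ * N * ((a - b) / a₁)) a := by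
      have e1 : HasDerivAt (fun x : ℝ => N * (x - b)) (N * 1) a :=
        ((hasDerivAt_id a).sub_const b).const_mul N
      have e2 : HasDerivAt (fun x : ℝ => 1 + c₁ + c₂ * ((x - b) / a₁)) (c₂ * (1 / a₁)) a :=
        ((((hasDerivAt_id a).sub_const b).div_const a₁).const_mul c₂).const_add (1 + c₁)
      refine (e1.mul e2).congr_deriv ?_
      field_simp
      ring
    exact h5.add h6
  have RBge : ∀ a, b ≤ a → a ≤ a₁ → N + RB a ^ 2 / (κ * a) ≤
      S a ^ 2 / (κ * a) + (N * (1 + c₁) + 2 * c₂ * N * ((a - b) / a₁)) := fun a h0 h1 =>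
    hwx_pt hκ hb a10 hN hNa h0 h1 (Spos a h0 h1) (Sle a h0 h1) hc₁ hc₂ h3 h4
  set R₁ := RB a₁ with hR1
  have R10 : 0 ≤ R₁ := RBp a₁ hba le_rfl
  have R1le : R₁ ≤ S₁ + m * (1 + c₁ + c₂) := by
    have h5 := Sle a₁ hba le_rfl
    have h6 : T a₁ ≤ m * (1 + c₁ + c₂) := by
      change N * (a₁ - b) * (1 + c₁ + c₂ * ((a₁ - b) / a₁)) ≤ _
      have z1 : (a₁ - b) / a₁ ≤ 1 := by
        rw [div_le_one a10]
        linarith
      have z0 : 0 ≤ (a₁ - b) / a₁ := div_nonneg (by linarith) a10.le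
      have h7 : N * (a₁ - b) ≤ m := by nlinarith
      have h8 : 0 ≤ N * (a₁ - b) := mul_nonneg hN.le (by linarith)
      have h9 : 1 + c₁ + c₂ * ((a₁ - b) / a₁) ≤ 1 + c₁ + c₂ := by nlinarith
      exact mul_le_mul h7 h9 (by positivity) m0.le
    change S a₁ + T a₁ ≤ _
    linarith
  have RC0 : ∀ a, a₁ ≤ a → a ≤ V → 0 < 1 - R₁ / κ * Real.log (a / a₁) := fun a h0 h1 => by
    have h5 : Real.log (a / a₁) ≤ Real.log (V / a₁) := lg a10 (a10.trans_le h0) h1
    have h5' : 0 ≤ Real.log (a / a₁) := Real.log_nonneg (by rwa [one_le_div a10])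
    have h6 : R₁ / κ ≤ (S₁ + m * (1 + c₁ + c₂)) / κ := by gcongr
    have h7 : R₁ / κ * Real.log (a / a₁) ≤ (S₁ + m * (1 + c₁ + c₂)) / κ * Real.log (V / a₁) :=
      mul_le_mul h6 h5 h5' (by positivity)
    linarith
  set RC : ℝ → ℝ := fun a => R₁ / (1 - R₁ / κ * Real.log (a / a₁)) with hRC
  have RCd : ∀ a, a₁ ≤ a → a ≤ V → HasDerivAt RC (RC a ^ 2 / (κ * a)) a := fun a h0 h1 =>
    hwx_der (κ := κ) (R := R₁) a10 (a10.trans_le h0) (RC0 a h0 h1)
  have RCp : ∀ a, a₁ ≤ a → a ≤ V → 0 ≤ RC a := fun a h0 h1 => div_nonneg R10 (RC0 a h0 h1).le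
  have RC1 : RC a₁ = R₁ := by
    change R₁ / (1 - R₁ / κ * Real.log (a₁ / a₁)) = R₁
    rw [div_self a10.ne', Real.log_one]
    simp
  have cRB : ContinuousOn RB (Icc b a₁) := fun x hx => (RBd x hx.1 hx.2).continuousAt.continuousWithinAt
  have cRC : ContinuousOn RC (Icc a₁ V) := fun x hx => (RCd x hx.1 hx.2).continuousAt.continuousWithinAt
  set Rs : ℝ → ℝ := fun a => RB (min a a₁) + RC (max a a₁) - R₁ with hRs
  have Rs1 : ∀ a, a ≤ a₁ → Rs a = RB a := fun a h => by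
    change RB (min a a₁) + RC (max a a₁) - R₁ = _
    rw [min_eq_left h, max_eq_right h, RC1]
    ring
  have Rs2 : ∀ a, a₁ ≤ a → Rs a = RC a := fun a h => by
    change RB (min a a₁) + RC (max a a₁) - R₁ = _
    rw [min_eq_right h, max_eq_left h]
    ring
  have cRs : ContinuousOn Rs (Icc b V) := by
    refine ContinuousOn.sub (ContinuousOn.add ?_ ?_) continuousOn_const
    · refine cRB.comp (by fun_prop) fun x hx => ⟨le_min hx.1 hba, min_le_right _ _⟩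
    · refine cRC.comp (by fun_prop) fun x hx => ⟨le_max_right _ _, max_le hx.2 haV⟩
  have Rsb : Rs b = R₂ := by
    rw [Rs1 b hba]
    change R₂ / (1 - R₂ / κ * Real.log (b / b)) + N * (b - b) * _ = R₂
    rw [div_self hb.ne', Real.log_one, sub_self]
    simp
  obtain ⟨k, ck, k0, kp, k1, k2⟩ := hwx_glue (R₂ := R₂) (φ := fun a => Rs a ^ 2 / (κ * a)) hκ hb hbV
    (ContinuousOn.div (cRs.pow 2) (by fun_prop) fun x hx => by
      have : 0 < x := hb.trans_le hx.1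
      positivity)
    (by rw [Rsb]) (fun a ha => by
      have : 0 < a := hb.trans_le ha.1
      positivity)
  refine ⟨k, ck, k0, kp, ?_⟩
  set Φ : ℝ → ℝ := fun x => ∫ u in (0 : ℝ)..x, k u with hΦ
  have hΦ' : ∀ x, HasDerivAt Φ (k x) x := fun x =>
    intervalIntegral.integral_hasDerivAt_right (ck.intervalIntegrable _ _)
      ck.stronglyMeasurable.stronglyMeasurableAtFilter ck.continuousAt
  have Φp : ∀ a, 0 ≤ a → 0 ≤ Φ a := fun a ha => intervalIntegral.integral_nonneg ha fun u _ => kp u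
  -- the middle part
  have DBd : ∀ x, b ≤ x → x ≤ a₁ → HasDerivAt (fun a => RB a - (N * a + f) - Φ a)
      (S x ^ 2 / (κ * x) + (N * (1 + c₁) + 2 * c₂ * N * ((x - b) / a₁)) - N * 1 - k x) x :=
    fun x h0 h1 => ((RBd x h0 h1).sub (((hasDerivAt_id x).const_mul N).add_const f)).sub (hΦ' x)
  have DCd : ∀ x, a₁ ≤ x → x ≤ V → HasDerivAt (fun a => RC a - (m + f) - Φ a)
      (RC x ^ 2 / (κ * x) - k x) x :=
    fun x h0 h1 => ((RCd x h0 h1).sub_const (m + f)).sub (hΦ' x)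
  have DB : MonotoneOn (fun a => RB a - (N * a + f) - Φ a) (Icc b a₁) := by
    refine monotoneOn_of_deriv_nonneg (convex_Icc b a₁) (fun x hx => ?_) (fun x hx => ?_)
      fun x hx => ?_
    · exact (DBd x hx.1 hx.2).continuousAt.continuousWithinAt
    · rw [interior_Icc] at hx
      exact (DBd x hx.1.le hx.2.le).differentiableAt.differentiableWithinAt
    · rw [interior_Icc] at hx
      rw [(DBd x hx.1.le hx.2.le).deriv, k2 x hx.1.le (hx.2.le.trans haV), Rs1 x hx.2.le]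
      have h6 := RBge x hx.1.le hx.2.le
      linarith
  have DC : MonotoneOn (fun a => RC a - (m + f) - Φ a) (Icc a₁ V) := by
    refine monotoneOn_of_deriv_nonneg (convex_Icc a₁ V) (fun x hx => ?_) (fun x hx => ?_)
      fun x hx => ?_
    · exact (DCd x hx.1 hx.2).continuousAt.continuousWithinAt
    · rw [interior_Icc] at hx
      exact (DCd x hx.1.le hx.2.le).differentiableAt.differentiableWithinAt
    · rw [interior_Icc] at hx
      rw [(DCd x hx.1.le hx.2.le).deriv, k2 x (hba.trans hx.1.le) hx.2.le, Rs2 x hx.1.le, sub_self]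
  have Φb : Φ b = R₂ ^ 2 / (2 * κ) := by
    change ∫ u in (0 : ℝ)..b, k u = _
    rw [(k1 b hb.le le_rfl).2]
    field_simp
  have RBb : RB b = R₂ := by rw [← Rs1 b hba, Rsb]
  have hB : ∀ a, b ≤ a → a ≤ a₁ → N * a + f + Φ a ≤ RB a := fun a h0 h1 => by
    have h5 := DB ⟨le_rfl, hba⟩ ⟨h0, h1⟩ h0
    simp only [] at h5
    rw [RBb, Φb] at h5
    linarith
  have hC : ∀ a, a₁ ≤ a → a ≤ V → m + f + Φ a ≤ RC a := fun a h0 h1 => by
    have h5 := DC ⟨le_rfl, haV⟩ ⟨h0, h1⟩ h0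
    simp only [] at h5
    rw [RC1] at h5
    have h6 := hB a₁ hba le_rfl
    rw [hNa] at h6
    linarith
  intro a a0 aV
  change (min (N * a) m + min (f / b * a) f + Φ a) ^ 2 ≤ κ * a * k a
  rcases le_total a b with h | h
  · have e1 : min (N * a) m = N * a := min_eq_left (by nlinarith)
    have e2 : min (f / b * a) f = f / b * a := by
      refine min_eq_left ?_
      rw [div_mul_eq_mul_div, div_le_iff₀ hb]
      nlinarith
    obtain ⟨h5, h6⟩ := k1 a a0.le h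
    have h6' : Φ a = R₂ ^ 2 * a ^ 2 / (2 * κ * b ^ 2) := h6
    rw [e1, e2, h5, h6']
    set x := a / b with hx
    have x0 : 0 ≤ x := by positivity
    have x1 : x ≤ 1 := by rwa [hx, div_le_one hb]
    have ea : a = b * x := by rw [hx]; field_simp
    have e3 : N * a + f / b * a + R₂ ^ 2 * a ^ 2 / (2 * κ * b ^ 2)
        = x * (f + N * b + R₂ ^ 2 / (2 * κ) * x) := by
      rw [ea]
      field_simp
      ring
    have e4 : κ * a * (R₂ ^ 2 * a / (κ * b ^ 2)) = (x * R₂) ^ 2 := by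
      rw [ea]
      field_simp
    rw [e3, e4]
    have h7 : f + N * b + R₂ ^ 2 / (2 * κ) * x ≤ R₂ := by
      have : R₂ ^ 2 / (2 * κ) * x ≤ R₂ ^ 2 / (2 * κ) * 1 :=
        mul_le_mul_of_nonneg_left x1 (by positivity)
      linarith
    have h8 : 0 ≤ f + N * b + R₂ ^ 2 / (2 * κ) * x := by positivity
    gcongr
  · have h0f : min (f / b * a) f = f := by
      refine min_eq_right ?_
      rw [div_mul_eq_mul_div, le_div_iff₀ hb]
      nlinarith
    have hΦa := Φp a a0.le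
    rcases le_total a a₁ with h1 | h1
    · have e1 : min (N * a) m = N * a := min_eq_left (by rw [← hNa]; nlinarith)
      rw [e1, h0f, k2 a h aV, Rs1 a h1]
      have e2 : κ * a * (RB a ^ 2 / (κ * a)) = RB a ^ 2 := by field_simp
      rw [e2]
      have := hB a h h1
      have h9 : 0 ≤ N * a + f + Φ a := by positivity
      gcongr
    · have e1 : min (N * a) m = m := min_eq_right (by rw [← hNa]; nlinarith)
      rw [e1, h0f, k2 a h aV, Rs2 a h1]
      have e2 : κ * a * (RC a ^ 2 / (κ * a)) = RC a ^ 2 := by field_simp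
      rw [e2]
      have := hC a h1 aV
      have h9 : 0 ≤ m + f + Φ a := by positivity
      gcongr

end cert

open Pool.Agent.EWD Pool.Agent.FPM

variable {M : Type} [MetricSpace M] {γ : ℝ → M}

/-- **weighted Hardy inequality with a side condition**, general profile `Lam`, general charge `n` of
the weight `w`: if the area of `{t < |g|}` is at least `b`, one gains `f t²`. -/
theorem hwx_side (C : Calc M γ) {g : M → ℝ} (hg : Lip g) {R : ℝ} (hR : 0 ≤ R)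
    (gR : ∀ᵐ o ∂C.μ, |g (C.pt o)| ≤ R) {w : Om → ℝ} (hw : Integrable w C.μ)
    {n k Lam : ℝ → ℝ} {ε δ V t b f : ℝ} (hε : 0 ≤ ε) (hn : Monotone n) (n0 : ∀ a ≤ 0, n a = 0)
    (hk : Continuous k) (k0 : ∀ a ≤ 0, k a = 0) (kp : ∀ a, 0 ≤ k a)
    (hL : ∀ᵐ t : ℝ, 0 < t → DifferentiableAt ℝ (lev C fun x => |g x|) t ∧
      Lam ((C.μ {o | t < |g (C.pt o)|}).toReal - ε) ≤ deriv (lev C fun x => |g x|) t ^ 2)
    (hq : ∀ s > 0, ∫ o in {o | s < |g (C.pt o)|}, w o ∂C.μ ≤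
      n ((C.μ {o | s < |g (C.pt o)|}).toReal - ε) + δ)
    (hV : C.vol ≤ V) (ht : 0 ≤ t) (hb : 0 < b) (hf : 0 ≤ f)
    (hS : b ≤ C.μ.real {o | t < |g (C.pt o)|})
    (hc : ∀ a, 0 < a → a ≤ V →
      (n a + min (f / b * a) f + ∫ u in (0 : ℝ)..a, k u) ^ 2 ≤ Lam a * k a) :
    ∫ o, w o * g (C.pt o) ^ 2 ∂C.μ + f * t ^ 2 ≤
      ∫ o, gn C g o ^ 2 ∂C.μ + (δ + f / b * ε) * R ^ 2 := by
  have := C.fin
  have mS : ∀ s : ℝ, NullMeasurableSet {o | s < |g (C.pt o)|} C.μ := fun s => by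
    have h1 := meas_pt_lt C (lip_abs hg).neg (-s)
    have h2 : {o | -|g (C.pt o)| < -s} = {o | s < |g (C.pt o)|} := by
      ext o
      change -|g (C.pt o)| < -s ↔ s < |g (C.pt o)|
      exact neg_lt_neg_iff
    rw [← h2]
    exact h1
  obtain ⟨S, hSd⟩ : ∃ S, S = {o | t < |g (C.pt o)|} := ⟨_, rfl⟩
  have hS' : b ≤ C.μ.real S := by rwa [hSd]
  have mS0 : NullMeasurableSet S C.μ := by rw [hSd]; exact mS t
  have a0 : 0 < C.μ.real S := hb.trans_le hS'
  obtain ⟨r, hr⟩ : ∃ r, r = f / C.μ.real S := ⟨_, rfl⟩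
  have r0 : 0 ≤ r := by rw [hr]; positivity
  have rb : r ≤ f / b := by rw [hr]; gcongr
  set e : Om → ℝ := S.indicator fun _ => r with he
  have ei : Integrable e C.μ := (integrable_const r).indicator₀ mS0
  have e0 : ∀ o, 0 ≤ e o := fun o => indicator_nonneg (fun _ _ => r0) o
  have er : ∀ o, e o ≤ r := fun o => by
    by_cases ho : o ∈ S
    · rw [he, indicator_of_mem ho]
    · rw [he, indicator_of_notMem ho]
      exact r0
  have eI : ∫ o, e o ∂C.μ = f := by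
    rw [he, integral_indicator₀ mS0, setIntegral_const, hr, smul_eq_mul]
    field_simp
  set n' : ℝ → ℝ := fun a => n a + (if a ≤ 0 then 0 else min (f / b * a) f) with hn'
  have fb : 0 ≤ f / b := by positivity
  have nm : Monotone n' := fun x y h => by
    change n x + (if x ≤ 0 then 0 else min (f / b * x) f) ≤
      n y + (if y ≤ 0 then 0 else min (f / b * y) f)
    refine add_le_add (hn h) ?_
    split_ifs with h1 h2 h2
    · exact le_rfl
    · push Not at h2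
      exact le_min (by positivity) hf
    · exact absurd (h.trans h2) h1
    · exact min_le_min (mul_le_mul_of_nonneg_left h fb) le_rfl
  have key := hardy_prof C hg hR gR (w := fun o => w o + e o) (hw.add ei) (n := n') (k := k)
    (Lam := Lam) (ε := ε) (δ := δ + f / b * ε) (lam := 1) (V := V) hε zero_le_one nm
    (fun a h => by simp [hn', h, n0 a h]) hk k0 kp hL ?_ hV ?_
  · have hg2 : AEMeasurable (fun o => g (C.pt o) ^ 2) C.μ := (C.mpt _ hg).pow_const 2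
    have hbd : ∀ᵐ o ∂C.μ, ‖g (C.pt o) ^ 2‖ ≤ R ^ 2 := by
      filter_upwards [gR] with o ho
      rw [Real.norm_eq_abs, abs_of_nonneg (sq_nonneg _), ← sq_abs (g _)]
      exact pow_le_pow_left₀ (abs_nonneg _) ho 2
    have j1 : Integrable (fun o => w o * g (C.pt o) ^ 2) C.μ :=
      hw.mul_bdd (c := R ^ 2) hg2.aestronglyMeasurable hbd
    have j2 : Integrable (fun o => e o * g (C.pt o) ^ 2) C.μ :=
      ei.mul_bdd (c := R ^ 2) hg2.aestronglyMeasurable hbd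
    have k1 : ∫ o, g (C.pt o) ^ 2 * (w o + e o) ∂C.μ =
        ∫ o, w o * g (C.pt o) ^ 2 ∂C.μ + ∫ o, e o * g (C.pt o) ^ 2 ∂C.μ := by
      rw [← integral_add j1 j2]
      refine integral_congr_ae (Eventually.of_forall fun o => ?_)
      change g (C.pt o) ^ 2 * (w o + e o) = w o * g (C.pt o) ^ 2 + e o * g (C.pt o) ^ 2
      ring
    have k2 : f * t ^ 2 ≤ ∫ o, e o * g (C.pt o) ^ 2 ∂C.μ := by
      rw [← eI, ← integral_mul_const]
      refine integral_mono (ei.mul_const _) j2 fun o => ?_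
      change e o * t ^ 2 ≤ e o * g (C.pt o) ^ 2
      by_cases ho : o ∈ S
      · have h1 : t < |g (C.pt o)| := by
          rw [hSd] at ho
          exact ho
        refine mul_le_mul_of_nonneg_left ?_ (e0 o)
        rw [← sq_abs (g _)]
        exact pow_le_pow_left₀ ht h1.le 2
      · rw [he, indicator_of_notMem ho]
        simp
    have key' : 1 * ∫ o, g (C.pt o) ^ 2 * (w o + e o) ∂C.μ ≤
        ∫ o, gn C g o ^ 2 ∂C.μ + 1 * (δ + f / b * ε) * R ^ 2 := key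
    rw [k1] at key'
    linarith
  · intro s hs
    obtain ⟨T, hT⟩ : ∃ T, T = {o | s < |g (C.pt o)|} := ⟨_, rfl⟩
    have h1 := hq s hs
    rw [← hT] at h1 ⊢
    have b1 : ∫ o in T, (w o + e o) ∂C.μ = ∫ o in T, w o ∂C.μ + ∫ o in T, e o ∂C.μ :=
      integral_add hw.integrableOn ei.integrableOn
    have b2 : ∫ o in T, e o ∂C.μ ≤ f :=
      (setIntegral_le_integral ei (Eventually.of_forall e0)).trans eI.le
    have b3 : ∫ o in T, e o ∂C.μ ≤ f / b * (C.μ T).toReal := by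
      have h2 : ∫ o in T, e o ∂C.μ ≤ ∫ _ in T, r ∂C.μ :=
        integral_mono ei.integrableOn (integrable_const r).integrableOn er
      rw [setIntegral_const, smul_eq_mul] at h2
      have h3 : 0 ≤ (C.μ T).toReal := ENNReal.toReal_nonneg
      calc ∫ o in T, e o ∂C.μ ≤ (C.μ T).toReal * r := h2
        _ ≤ (C.μ T).toReal * (f / b) := mul_le_mul_of_nonneg_left rb h3
        _ = f / b * (C.μ T).toReal := mul_comm _ _
    have b4 : 0 ≤ f / b * ε := by positivity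
    change ∫ o in T, (w o + e o) ∂C.μ ≤ n ((C.μ T).toReal - ε) +
      (if (C.μ T).toReal - ε ≤ 0 then 0 else min (f / b * ((C.μ T).toReal - ε)) f) +
      (δ + f / b * ε)
    rw [b1]
    split_ifs with h
    · have : f / b * (C.μ T).toReal ≤ f / b * ε := mul_le_mul_of_nonneg_left (by linarith) fb
      linarith
    · have h5 : f / b * ((C.μ T).toReal - ε) = f / b * (C.μ T).toReal - f / b * ε := by ring
      rcases min_choice (f / b * ((C.μ T).toReal - ε)) f with h2 | h2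
      · rw [h2, h5]
        linarith
      · rw [h2]
        linarith
  · intro a a1 a2
    have e1 : n' a = n a + min (f / b * a) f := by simp [hn', a1]
    rw [e1, one_mul]
    exact hc a a1 a2


/-! ### the statements `HHG`, `HSG` (and `HH`, `HS`) -/

/-- level set inequality with profile `Lam` for all odd functions (`IsopO C κ ε` is the case `κ a`) -/
def LevO (C : Calc M γ) (Lam : ℝ → ℝ) (ε : ℝ) : Prop :=
  ∀ g : M → ℝ, Lip g → FPM.OddB γ g → ∀ᵐ t : ℝ, 0 < t → DifferentiableAt ℝ (lev C fun x => |g x|) t ∧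
    Lam ((C.μ {o | t < |g (C.pt o)|}).toReal - ε) ≤ deriv (lev C fun x => |g x|) t ^ 2

theorem LevO.of_isop {C : Calc M γ} {κ ε : ℝ} (h : IsopO C κ ε) : LevO C (fun a => κ * a) ε := h

/-- a charge `n` (monotone, zero on the left, slope at most `B`), a side condition `(b, f)` and a
certificate for the profile `Lam` on `(0, V]` -/
structure HwD (Lam : ℝ → ℝ) (V B : ℝ) (n : ℝ → ℝ) (b f : ℝ) : Prop where
  mono : Monotone n
  zero : ∀ a ≤ 0, n a = 0
  lip : ∀ x y, x ≤ y → n y ≤ n x + B * (y - x)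
  b0 : 0 < b
  f0 : 0 ≤ f
  fb : f / b ≤ B
  cert : ∃ k : ℝ → ℝ, Continuous k ∧ (∀ a ≤ 0, k a = 0) ∧ (∀ a, 0 ≤ k a) ∧ ∀ a, 0 < a → a ≤ V →
    (n a + min (f / b * a) f + ∫ u in (0 : ℝ)..a, k u) ^ 2 ≤ Lam a * k a

/-- Hardy with side condition for one weight -/
theorem hwd_side (C : Calc M γ) {Lam : ℝ → ℝ} {V B ε δ R : ℝ} {n : ℝ → ℝ} {b f : ℝ}
    (D : HwD Lam V B n b f) (hε : 0 ≤ ε) (hL : LevO C Lam ε) (hV : C.vol ≤ V) (hR : 0 ≤ R)
    (hB : 2 * B * ε * R ^ 2 ≤ δ) {w : Om → ℝ} (hw : Integrable w C.μ)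
    (hq : ∀ S, NullMeasurableSet S C.μ → 4 * ∫ o in S, w o ∂C.μ ≤ n (C.μ.real S)) {g : M → ℝ}
    (hg : Lip g) (ho : FPM.OddB γ g) (gR : ∀ x, |g x| ≤ R) {t : ℝ} (ht : 0 ≤ t)
    (hS : b ≤ C.μ.real {o | t < |g (C.pt o)|}) :
    4 * ∫ o, w o * g (C.pt o) ^ 2 ∂C.μ + f * t ^ 2 ≤ ∫ o, gn C g o ^ 2 ∂C.μ + δ := by
  have := C.fin
  obtain ⟨k, ck, k0, kp, hc⟩ := D.cert
  have mS : ∀ s : ℝ, NullMeasurableSet {o | s < |g (C.pt o)|} C.μ := fun s => by
    have h1 := meas_pt_lt C (lip_abs hg).neg (-s)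
    have h2 : {o | -|g (C.pt o)| < -s} = {o | s < |g (C.pt o)|} := by
      ext o
      change -|g (C.pt o)| < -s ↔ s < |g (C.pt o)|
      exact neg_lt_neg_iff
    rw [← h2]
    exact h1
  have key := hwx_side C hg hR (Eventually.of_forall fun o => gR (C.pt o)) (w := fun o => 4 * w o)
    (hw.const_mul 4) (n := n) (k := k) (Lam := Lam) (ε := ε) (δ := B * ε) (V := V) (t := t) (b := b)
    (f := f) hε D.mono D.zero ck k0 kp (hL g hg ho) (fun s _ => ?_) hV ht D.b0 D.f0 hS hc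
  · have e1 : ∫ o, 4 * w o * g (C.pt o) ^ 2 ∂C.μ = 4 * ∫ o, w o * g (C.pt o) ^ 2 ∂C.μ := by
      rw [← integral_const_mul]
      refine integral_congr_ae (Eventually.of_forall fun o => ?_)
      change 4 * w o * g (C.pt o) ^ 2 = 4 * (w o * g (C.pt o) ^ 2)
      ring
    rw [e1] at key
    have e2 : (B * ε + f / b * ε) * R ^ 2 ≤ δ := by
      refine le_trans ?_ hB
      have h1 : f / b * ε ≤ B * ε := mul_le_mul_of_nonneg_right D.fb hε
      have h2 : (B * ε + f / b * ε) * R ^ 2 ≤ (B * ε + B * ε) * R ^ 2 :=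
        mul_le_mul_of_nonneg_right (by linarith) (sq_nonneg R)
      refine h2.trans (le_of_eq (by ring))
    linarith
  · obtain ⟨T, hT⟩ : ∃ T, T = {o | s < |g (C.pt o)|} := ⟨_, rfl⟩
    have mT := mS s
    rw [← hT] at mT ⊢
    rw [integral_const_mul]
    have h1 := hq T mT
    have h2 := D.lip ((C.μ T).toReal - ε) (C.μ T).toReal (by linarith)
    have h3 : C.μ.real T = (C.μ T).toReal := rfl
    rw [h3] at h1
    have h4 : B * ((C.μ T).toReal - ((C.μ T).toReal - ε)) = B * ε := by ring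
    rw [h4] at h2
    exact h1.trans h2

/-- Hardy for one weight -/
theorem hwd_le (C : Calc M γ) {Lam : ℝ → ℝ} {V B ε δ R : ℝ} {n : ℝ → ℝ} {b f : ℝ}
    (D : HwD Lam V B n b f) (hε : 0 ≤ ε) (hL : LevO C Lam ε) (hV : C.vol ≤ V) (hR : 0 ≤ R)
    (hB : 2 * B * ε * R ^ 2 ≤ δ) {w : Om → ℝ} (hw : Integrable w C.μ)
    (hq : ∀ S, NullMeasurableSet S C.μ → 4 * ∫ o in S, w o ∂C.μ ≤ n (C.μ.real S)) {g : M → ℝ}
    (hg : Lip g) (ho : FPM.OddB γ g) (gR : ∀ x, |g x| ≤ R) :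
    4 * ∫ o, w o * g (C.pt o) ^ 2 ∂C.μ ≤ ∫ o, gn C g o ^ 2 ∂C.μ + δ := by
  have := C.fin
  obtain ⟨k, ck, k0, kp, hc⟩ := D.cert
  have mS : ∀ s : ℝ, NullMeasurableSet {o | s < |g (C.pt o)|} C.μ := fun s => by
    have h1 := meas_pt_lt C (lip_abs hg).neg (-s)
    have h2 : {o | -|g (C.pt o)| < -s} = {o | s < |g (C.pt o)|} := by
      ext o
      change -|g (C.pt o)| < -s ↔ s < |g (C.pt o)|
      exact neg_lt_neg_iff
    rw [← h2]
    exact h1
  have key := hardy_prof C hg hR (Eventually.of_forall fun o => gR (C.pt o)) (w := fun o => 4 * w o)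
    (hw.const_mul 4) (n := n) (k := k) (Lam := Lam) (ε := ε) (δ := B * ε) (lam := 1) (V := V) hε
    zero_le_one D.mono D.zero ck k0 kp (hL g hg ho) (fun s _ => ?_) hV (fun a a0 aV => ?_)
  · have e1 : ∫ o, g (C.pt o) ^ 2 * (4 * w o) ∂C.μ = 4 * ∫ o, w o * g (C.pt o) ^ 2 ∂C.μ := by
      rw [← integral_const_mul]
      refine integral_congr_ae (Eventually.of_forall fun o => ?_)
      change g (C.pt o) ^ 2 * (4 * w o) = 4 * (w o * g (C.pt o) ^ 2)
      ring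
    have key' : 1 * ∫ o, g (C.pt o) ^ 2 * (4 * w o) ∂C.μ ≤
        ∫ o, gn C g o ^ 2 ∂C.μ + 1 * (B * ε) * R ^ 2 := key
    rw [e1] at key'
    have e2 : 1 * (B * ε) * R ^ 2 ≤ δ := by
      refine le_trans ?_ hB
      have h0 : 0 ≤ B := (div_nonneg D.f0 D.b0.le).trans D.fb
      have : 0 ≤ B * ε * R ^ 2 := by positivity
      linarith
    linarith
  · obtain ⟨T, hT⟩ : ∃ T, T = {o | s < |g (C.pt o)|} := ⟨_, rfl⟩
    have mT := mS s
    rw [← hT] at mT ⊢
    rw [integral_const_mul]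
    have h1 := hq T mT
    have h2 := D.lip ((C.μ T).toReal - ε) (C.μ T).toReal (by linarith)
    have h3 : C.μ.real T = (C.μ T).toReal := rfl
    rw [h3] at h1
    have h4 : B * ((C.μ T).toReal - ((C.μ T).toReal - ε)) = B * ε := by ring
    rw [h4] at h2
    exact h1.trans h2
  · rw [one_mul]
    refine le_trans ?_ (hc a a0 aV)
    have n0 : 0 ≤ n a := by
      rw [← D.zero 0 le_rfl]
      exact D.mono a0.le
    have i0 : 0 ≤ ∫ u in (0 : ℝ)..a, k u := intervalIntegral.integral_nonneg a0.le fun u _ => kp u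
    have m0 : 0 ≤ min (f / b * a) f := le_min (mul_nonneg (div_nonneg D.f0 D.b0.le) a0.le) D.f0
    have h0 : 0 ≤ n a + ∫ u in (0 : ℝ)..a, k u := by linarith
    exact pow_le_pow_left₀ h0 (by linarith) 2

/-- **`HHG` from certificates** -/
theorem hwx_HHG (C : Calc M γ) {φ W : ℝ → ℝ} {κ c₀ X : ℝ} {Lam : ℝ → ℝ} {V B ε δ : ℝ} (hε : 0 ≤ ε)
    (hL : LevO C Lam ε) (hV : C.vol ≤ V) (hB : 128 * B * ε ≤ δ)
    (h : ∀ c v w, WtG C φ W κ c₀ X c v w → ∃ n b f, HwD Lam V B n b f ∧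
      ∀ S, NullMeasurableSet S C.μ → 4 * ∫ o in S, w o ∂C.μ ≤ n (C.μ.real S)) :
    HHG C φ W κ c₀ X δ := fun c v w hw g hg ho g8 => by
  obtain ⟨n, b, f, D, hq⟩ := h c v w hw
  exact hwd_le C D hε hL hV (by norm_num) (by linarith) hw.int hq hg ho g8

/-- **`HSG` from certificates** -/
theorem hwx_HSG (C : Calc M γ) {φ W : ℝ → ℝ} {κ c₀ X : ℝ} {Lam : ℝ → ℝ} {V B ε δ ε' s : ℝ}
    {b f : ℝ → ℝ} (hc₀ : 0 ≤ c₀) (hs : 0 ≤ s) (hε : 0 ≤ ε) (hε' : 0 ≤ ε')
    (hL : LevO C Lam ε) (hV : C.vol ≤ V) (hB : 128 * B * ε ≤ δ)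
    (h : ∀ c v w, WtG C φ W κ c₀ X c v w → ∃ n, HwD Lam V B n (b c) (f c) ∧
      ∀ S, NullMeasurableSet S C.μ → 4 * ∫ o in S, w o ∂C.μ ≤ n (C.μ.real S)) :
    HSG C φ W κ c₀ X δ ε' s b f := fun c v w hw g hg ho g8 t ht hS => by
  obtain ⟨n, D, hq⟩ := h c v w hw
  have ht0 : 0 ≤ t := by
    refine le_trans (mul_nonneg hs ?_) ht
    have : Real.exp (-c) ≤ 1 := Real.exp_le_one_iff.mpr (by linarith [hw.hc])
    linarith
  exact hwd_side C D hε hL hV (by norm_num) (by linarith) hw.int hq hg ho g8 ht0 (by linarith)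

/-- the charge `min (N a) m` of a weight with sup at most `N / 4` and mass at most `m / 4` -/
theorem min_charge (C : Calc M γ) {w : Om → ℝ} (hw : Integrable w C.μ) (w0 : ∀ o, 0 ≤ w o) {N m : ℝ}
    (hN : ∀ o, 4 * w o ≤ N) (hm : 4 * ∫ o, w o ∂C.μ ≤ m) :
    ∀ S, NullMeasurableSet S C.μ → 4 * ∫ o in S, w o ∂C.μ ≤ max 0 (min (N * C.μ.real S) m) := by
  have := C.fin
  intro S _
  have h1 : 4 * ∫ o in S, w o ∂C.μ ≤ m := by
    have := setIntegral_le_integral (s := S) hw (Eventually.of_forall w0)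
    linarith
  have h2 : 4 * ∫ o in S, w o ∂C.μ ≤ N * C.μ.real S := by
    have h3 : ∫ o in S, 4 * w o ∂C.μ ≤ ∫ _ in S, N ∂C.μ :=
      integral_mono (hw.const_mul 4).integrableOn (integrable_const N).integrableOn hN
    rw [setIntegral_const, smul_eq_mul, integral_const_mul] at h3
    linarith
  exact (le_min h2 h1).trans (le_max_right _ _)

/-- the conditions of `hwx_cert` -/
structure HwOk (κ V N m b f B : ℝ) : Prop where
  hκ : 0 < κ
  b0 : 0 < b
  f0 : 0 ≤ f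
  N0 : 0 < N
  hbm : N * b ≤ m
  hmV : m ≤ N * V
  NB : N ≤ B
  fB : f / b ≤ B
  ex : ∃ R₂ S₁ c₁ c₂ : ℝ, 0 ≤ R₂ ∧ f + N * b + R₂ ^ 2 / (2 * κ) ≤ R₂ ∧
    R₂ / κ * Real.log (m / N / b) < 1 ∧ R₂ / (1 - R₂ / κ * Real.log (m / N / b)) ≤ S₁ ∧
    0 ≤ c₁ ∧ 0 ≤ c₂ ∧ 2 * S₁ * (1 + c₁) ≤ κ * c₁ ∧
    2 * S₁ * c₂ + m * (1 + c₁ + c₂) ^ 2 ≤ 2 * κ * c₂ ∧
    (S₁ + m * (1 + c₁ + c₂)) / κ * Real.log (V / (m / N)) < 1

theorem HwOk.D {κ V N m b f B : ℝ} (h : HwOk κ V N m b f B) :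
    HwD (fun a => κ * a) V B (fun a => max 0 (min (N * a) m)) b f := by
  obtain ⟨R₂, S₁, c₁, c₂, k1, k2, k3, k4, k5, k6, k7, k8, k9⟩ := h.ex
  have m0 : 0 < m := (mul_pos h.N0 h.b0).trans_le h.hbm
  refine ⟨fun x y hxy => max_le_max le_rfl (min_le_min (mul_le_mul_of_nonneg_left hxy h.N0.le) le_rfl),
    fun a ha => ?_, fun x y hxy => ?_, h.b0, h.f0, h.fB, ?_⟩
  · have : min (N * a) m ≤ 0 := min_le_of_left_le (mul_nonpos_of_nonneg_of_nonpos h.N0.le ha)
    exact max_eq_left this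
  · have e1 : N * (y - x) ≤ B * (y - x) := mul_le_mul_of_nonneg_right h.NB (by linarith)
    have e0 : 0 ≤ N * (y - x) := mul_nonneg h.N0.le (by linarith)
    have e2 : N * y = N * x + N * (y - x) := by ring
    refine max_le (add_nonneg (le_max_left _ _) (e0.trans e1)) ?_
    have e3 : min (N * y) m ≤ min (N * x) m + N * (y - x) := by
      rcases min_choice (N * x) m with h1 | h1
      · rw [h1]
        exact (min_le_left _ _).trans e2.le
      · rw [h1]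
        exact (min_le_right _ _).trans (by linarith)
    have e4 : min (N * x) m ≤ max 0 (min (N * x) m) := le_max_right _ _
    linarith
  · obtain ⟨k, a1, a2, a3, a4⟩ := hwx_cert h.hκ h.b0 h.f0 h.N0 h.hbm h.hmV k1 k2 k3 k4 k5 k6 k7 k8 k9
    refine ⟨k, a1, a2, a3, fun a a0 aV => ?_⟩
    have e : max 0 (min (N * a) m) = min (N * a) m :=
      max_eq_right (le_min (mul_nonneg h.N0.le a0.le) m0.le)
    have := a4 a a0 aV
    rw [← e] at this
    exact this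

/-- the charge of an admissible weight when `W ≤ φ` -/
theorem WtG.charge [CompactSpace M] {C : Calc M γ} {φ W : ℝ → ℝ} {κ c₀ X c : ℝ} {v : Fin 3 → M → ℝ} {w : Om → ℝ}
    (hw : WtG C φ W κ c₀ X c v w) (hφ : Continuous φ) (hWφ : ∀ x, 0 ≤ x → W x ≤ φ x) {N m : ℝ}
    (hN : 4 * W (2 * Real.exp c ^ 2) ≤ N) (hm : 4 * (X - κ * (c - c₀)) ≤ m) :
    ∀ S, NullMeasurableSet S C.μ → 4 * ∫ o in S, w o ∂C.μ ≤ max 0 (min (N * C.μ.real S) m) := by
  refine min_charge C hw.int hw.nonneg (fun o => ?_) ?_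
  · have := hw.bd o
    linarith
  · have h1 : ∫ o, w o ∂C.μ ≤ Ph C φ v :=
      integral_mono hw.int (nuC_cint C hw.sph.lip hφ) fun o =>
        (hw.le o).trans (hWφ _ (nuv_nonneg _ _ _))
    have h2 := hw.tot
    linarith

/-- **(H) in closed form for the landed profile `κI a`**, general penalty `φ` and weight `W ≤ φ` -/
theorem hwxG [CompactSpace M] (C : Calc M γ) {φ W : ℝ → ℝ} (hφ : Continuous φ) (hWφ : ∀ x, 0 ≤ x → W x ≤ φ x)
    {κI κ c₀ X V B ε δ ε' s : ℝ} {b f N m : ℝ → ℝ} (hc₀ : 0 ≤ c₀) (hs : 0 ≤ s) (hε : 0 ≤ ε)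
    (hε' : 0 ≤ ε') (hI : IsopO C κI ε) (hV : C.vol ≤ V) (hB : 128 * B * ε ≤ δ)
    (hok : ∀ c, c₀ ≤ c → κ * (c - c₀) ≤ X → HwOk κI V (N c) (m c) (b c) (f c) B ∧
      4 * W (2 * Real.exp c ^ 2) ≤ N c ∧ 4 * (X - κ * (c - c₀)) ≤ m c)
    (hφ0 : ∀ x, 0 ≤ x → 0 ≤ φ x) :
    HHG C φ W κ c₀ X δ ∧ HSG C φ W κ c₀ X δ ε' s b f := by
  have key : ∀ c v w, WtG C φ W κ c₀ X c v w →
      HwD (fun a => κI * a) V B (fun a => max 0 (min (N c * a) (m c))) (b c) (f c) ∧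
      ∀ S, NullMeasurableSet S C.μ → 4 * ∫ o in S, w o ∂C.μ ≤
        max 0 (min (N c * C.μ.real S) (m c)) := fun c v w hw => by
    have h0 : 0 ≤ Ph C φ v := integral_nonneg fun o => hφ0 _ (nuv_nonneg _ _ _)
    obtain ⟨k1, k2, k3⟩ := hok c hw.hc (by linarith [hw.tot])
    exact ⟨k1.D, hw.charge hφ hWφ k2 k3⟩
  exact ⟨hwx_HHG C hε (LevO.of_isop hI) hV hB fun c v w hw => ⟨_, _, _, key c v w hw⟩,
    hwx_HSG C hc₀ hs hε hε' (LevO.of_isop hI) hV hB fun c v w hw => ⟨_, key c v w hw⟩⟩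

theorem Wt.gen {C : Calc M γ} {κ c₀ X c : ℝ} {v : Fin 3 → M → ℝ} {w : Om → ℝ}
    (h : Wt C κ c₀ X c v w) : WtG C (fun x => x) (fun x => x) κ c₀ X c v w :=
  ⟨h.hc, h.sph, h.deg, h.tot, h.int, h.nonneg, h.le, h.bd⟩

/-- **(H) in closed form for the landed profile `κI a`**: the statements `HH`, `HS` of `kend` -/
theorem hwx [CompactSpace M] (C : Calc M γ) {κI κ c₀ X V B ε δ ε' s : ℝ} {b f N m : ℝ → ℝ}
    (hc₀ : 0 ≤ c₀) (hs : 0 ≤ s) (hε : 0 ≤ ε) (hε' : 0 ≤ ε') (hI : IsopO C κI ε) (hV : C.vol ≤ V)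
    (hB : 128 * B * ε ≤ δ)
    (hok : ∀ c, c₀ ≤ c → κ * (c - c₀) ≤ X → HwOk κI V (N c) (m c) (b c) (f c) B ∧
      8 * Real.exp c ^ 2 ≤ N c ∧ 4 * (X - κ * (c - c₀)) ≤ m c) :
    HH C κ c₀ X δ ∧ HS C κ c₀ X δ ε' s b f := by
  obtain ⟨h1, h2⟩ := hwxG C (φ := fun x => x) (W := fun x => x) continuous_id (fun x _ => le_rfl)
    (V := V) (B := B) (ε := ε) (δ := δ) (ε' := ε') (s := s) (b := b) (f := f) (N := N) (m := m)
    hc₀ hs hε hε' hI hV hB (fun c k1 k2 => by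
      obtain ⟨a1, a2, a3⟩ := hok c k1 k2
      exact ⟨a1, by linarith, a3⟩) (fun x hx => hx)
  exact ⟨fun c v w hw => h1 c v w hw.gen, fun c v w hw => h2 c v w hw.gen⟩

end Pool.Agent.FPX
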