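import Mathlib
import Pool.Agent.FPX.HWX

/-
HCT (helper81): a certificate for the weighted Hardy inequality with the profile `κ a` and an arbitrary
charge function `n` (`n` monotone, `n a / a` decreasing), by the functional
`T = ∫ (1 - exp (- n a / κ)) / a`, and the bound of `T` for the exact charge function of a weight.
-/

open MeasureTheory Set Filter Topology
open scoped ENNReal NNReal

noncomputable section

namespace Pool.Agent.FPX

/-- admissible charge functions -/
structure ChF (B : ℝ) (n : ℝ → ℝ) : Prop where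
  mono : Monotone n
  zero : ∀ a ≤ 0, n a = 0
  lip : ∀ x y, x ≤ y → n y ≤ n x + B * (y - x)
  star : ∀ a b, 0 < a → a ≤ b → n b * a ≤ n a * b

section cert

variable {B κ : ℝ} {n : ℝ → ℝ}

theorem ChF.nonneg (h : ChF B n) (a : ℝ) : 0 ≤ n a := by
  rcases le_total a 0 with h1 | h1
  · rw [h.zero a h1]
  · have := h.mono h1
    rwa [h.zero 0 le_rfl] at this

theorem ChF.B0 (h : ChF B n) : 0 ≤ B := by
  have h1 := h.lip 0 1 zero_le_one
  have h2 := h.nonneg 1
  rw [h.zero 0 le_rfl] at h1
  linarith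

theorem ChF.le (h : ChF B n) {a : ℝ} (ha : 0 ≤ a) : n a ≤ B * a := by
  have h1 := h.lip 0 a ha
  rw [h.zero 0 le_rfl] at h1
  linarith

theorem ChF.cont (h : ChF B n) : Continuous n := by
  have h0 := h.B0
  refine (LipschitzWith.of_dist_le_mul (K := B.toNNReal) fun x y => ?_).continuous
  rw [Real.dist_eq, Real.dist_eq, Real.coe_toNNReal B h0]
  rcases le_total x y with h1 | h1
  · rw [abs_sub_comm, abs_of_nonneg (sub_nonneg.2 (h.mono h1)), abs_sub_comm,
      abs_of_nonneg (sub_nonneg.2 h1)]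
    linarith [h.lip x y h1]
  · rw [abs_of_nonneg (sub_nonneg.2 (h.mono h1)), abs_of_nonneg (sub_nonneg.2 h1)]
    linarith [h.lip y x h1]

theorem ChF.add {B' : ℝ} {m : ℝ → ℝ} (h : ChF B n) (h' : ChF B' m) :
    ChF (B + B') fun a => n a + m a where
  mono := h.mono.add h'.mono
  zero := fun a ha => by rw [h.zero a ha, h'.zero a ha, add_zero]
  lip := fun x y hxy => by
    have := h.lip x y hxy
    have := h'.lip x y hxy
    nlinarith
  star := fun a b ha hab => by
    have := h.star a b ha hab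
    have := h'.star a b ha hab
    nlinarith

/-- the side charge -/
theorem chF_side {b f : ℝ} (hb : 0 < b) (hf : 0 ≤ f) :
    ChF (f / b) fun a => min (f / b * max a 0) f where
  mono := fun x y hxy => min_le_min (mul_le_mul_of_nonneg_left (max_le_max hxy le_rfl)
    (by positivity)) le_rfl
  zero := fun a ha => by
    rw [max_eq_right ha, mul_zero, min_eq_left hf]
  lip := fun x y hxy => by
    have h0 : 0 ≤ f / b := by positivity
    have h1 : max y 0 ≤ max x 0 + (y - x) := by
      rcases le_total y 0 with h | h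
      · rw [max_eq_right h]
        have := le_max_right x 0
        linarith
      · rw [max_eq_left h]
        have := le_max_left x 0
        linarith
    have h2 := mul_le_mul_of_nonneg_left h1 h0
    change min (f / b * max y 0) f ≤ min (f / b * max x 0) f + f / b * (y - x)
    rcases le_total (f / b * max x 0) f with h | h
    · rw [min_eq_left h]
      exact (min_le_left _ _).trans (by linarith)
    · rw [min_eq_right h]
      have : 0 ≤ f / b * (y - x) := mul_nonneg h0 (by linarith)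
      exact (min_le_right _ _).trans (by linarith)
  star := fun a c ha hac => by
    have hc : 0 < c := ha.trans_le hac
    change min (f / b * max c 0) f * a ≤ min (f / b * max a 0) f * c
    rw [max_eq_left ha.le, max_eq_left hc.le]
    rcases le_total (f / b * a) f with h | h
    · rw [min_eq_left h]
      have := mul_le_mul_of_nonneg_right (min_le_left (f / b * c) f) ha.le
      linarith
    · rw [min_eq_right h]
      have h1 := mul_le_mul_of_nonneg_right (min_le_right (f / b * c) f) ha.le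
      have h2 := mul_le_mul_of_nonneg_left hac hf
      linarith

/-- `E` -/
def hcE (κ : ℝ) (n : ℝ → ℝ) (a : ℝ) : ℝ := 1 - Real.exp (-(n a / κ))

/-- `T` -/
def hcT (κ : ℝ) (n : ℝ → ℝ) (a : ℝ) : ℝ := ∫ b in (0 : ℝ)..a, hcE κ n b / b

theorem hcE_nonneg (hκ : 0 < κ) (h : ChF B n) (a : ℝ) : 0 ≤ hcE κ n a := by
  have h1 : Real.exp (-(n a / κ)) ≤ 1 := Real.exp_le_one_iff.2 (by
    have := h.nonneg a
    have : 0 ≤ n a / κ := by positivity
    linarith)
  unfold hcE
  linarith

theorem hcE_le (κ : ℝ) (n : ℝ → ℝ) (a : ℝ) : hcE κ n a ≤ n a / κ := by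
  have := Real.add_one_le_exp (-(n a / κ))
  unfold hcE
  linarith

theorem hcE_mono (hκ : 0 < κ) (h : ChF B n) : Monotone (hcE κ n) := fun x y hxy => by
  have h1 : n x / κ ≤ n y / κ := div_le_div_of_nonneg_right (h.mono hxy) hκ.le
  have : Real.exp (-(n y / κ)) ≤ Real.exp (-(n x / κ)) := Real.exp_le_exp.2 (by linarith)
  unfold hcE
  linarith

theorem hcE_zero (h : ChF B n) {a : ℝ} (ha : a ≤ 0) : hcE κ n a = 0 := by
  unfold hcE
  rw [h.zero a ha]
  simp

theorem hcE_cont (κ : ℝ) (h : ChF B n) : Continuous (hcE κ n) := by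
  have := h.cont
  unfold hcE
  fun_prop

/-- `(1 - exp (-x)) y ≤ (1 - exp (-y)) x` for `0 ≤ y ≤ x` -/
theorem hc_exp {x y : ℝ} (hy : 0 ≤ y) (hyx : y ≤ x) :
    (1 - Real.exp (-x)) * y ≤ (1 - Real.exp (-y)) * x := by
  rcases hy.eq_or_lt with h0 | h0
  · rw [← h0]
    simp
  have hx : 0 < x := h0.trans_le hyx
  -- convexity of exp between `0` and `-x`
  have h1 := convexOn_exp.2 (mem_univ (-x)) (mem_univ (0 : ℝ))
    (show (0 : ℝ) ≤ y / x by positivity)
    (show (0 : ℝ) ≤ 1 - y / x by rw [sub_nonneg, div_le_one hx]; exact hyx) (by ring)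
  simp only [smul_eq_mul, Real.exp_zero, mul_one, mul_zero, add_zero, mul_neg] at h1
  have e1 : y / x * x = y := div_mul_cancel₀ y hx.ne'
  rw [e1] at h1
  have h2 := mul_le_mul_of_nonneg_right h1 hx.le
  have e2 : (y / x * Real.exp (-x) + (1 - y / x)) * x = y * Real.exp (-x) + (x - y) := by
    field_simp
  rw [e2] at h2
  linarith

theorem hcE_star (hκ : 0 < κ) (h : ChF B n) {a b : ℝ} (ha : 0 < a) (hab : a ≤ b) :
    hcE κ n b / b ≤ hcE κ n a / a := by
  have hb : 0 < b := ha.trans_le hab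
  rw [div_le_div_iff₀ hb ha]
  have h0 := h.nonneg a
  have h1 := h.mono hab
  have h2 := h.star a b ha hab
  rcases h0.eq_or_lt with h3 | h3
  · have h4 : n b ≤ 0 := by
      rw [← h3, zero_mul] at h2
      by_contra h5
      rw [not_le] at h5
      have := mul_pos h5 ha
      linarith
    have h5 : n b = 0 := le_antisymm h4 (h.nonneg b)
    have h6 : hcE κ n b = 0 := by
      unfold hcE
      rw [h5]
      simp
    rw [h6, zero_mul]
    exact mul_nonneg (hcE_nonneg hκ h a) hb.le
  · have h4 : 0 ≤ n a / κ := by positivity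
    have h5 : n a / κ ≤ n b / κ := div_le_div_of_nonneg_right h1 hκ.le
    have h6 := hc_exp h4 h5
    change hcE κ n b * (n a / κ) ≤ hcE κ n a * (n b / κ) at h6
    have h7 : hcE κ n b * n a ≤ hcE κ n a * n b := by
      have := mul_le_mul_of_nonneg_right h6 hκ.le
      have e1 : hcE κ n b * (n a / κ) * κ = hcE κ n b * n a := by field_simp
      have e2 : hcE κ n a * (n b / κ) * κ = hcE κ n a * n b := by field_simp
      rwa [e1, e2] at this
    have h8 : hcE κ n b * a * n a ≤ hcE κ n a * b * n a := by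
      calc hcE κ n b * a * n a = (hcE κ n b * n a) * a := by ring
        _ ≤ (hcE κ n a * n b) * a := mul_le_mul_of_nonneg_right h7 ha.le
        _ = hcE κ n a * (n b * a) := by ring
        _ ≤ hcE κ n a * (n a * b) := mul_le_mul_of_nonneg_left h2 (hcE_nonneg hκ h a)
        _ = hcE κ n a * b * n a := by ring
    exact le_of_mul_le_mul_right h8 h3

theorem hcq_nonneg (hκ : 0 < κ) (h : ChF B n) (b : ℝ) : 0 ≤ hcE κ n b / b := by
  rcases le_total b 0 with h1 | h1
  · rw [hcE_zero h h1, zero_div]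
  · exact div_nonneg (hcE_nonneg hκ h b) h1

theorem hcq_le (hκ : 0 < κ) (h : ChF B n) (b : ℝ) : hcE κ n b / b ≤ B / κ := by
  have hB := h.B0
  rcases le_or_gt b 0 with h1 | h1
  · rw [hcE_zero h h1, zero_div]
    positivity
  · rw [div_le_div_iff₀ h1 hκ]
    have h2 := hcE_le κ n b
    have h3 := h.le h1.le
    have h4 := mul_le_mul_of_nonneg_right h2 hκ.le
    have e1 : n b / κ * κ = n b := by field_simp
    rw [e1] at h4
    linarith

theorem hcq_meas (κ : ℝ) (h : ChF B n) : Measurable fun b => hcE κ n b / b :=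
  (hcE_cont κ h).measurable.div measurable_id

theorem hcq_int (hκ : 0 < κ) (h : ChF B n) (x y : ℝ) :
    IntervalIntegrable (fun b => hcE κ n b / b) volume x y := by
  refine (intervalIntegrable_const (c := B / κ)).mono_fun (hcq_meas κ h).aestronglyMeasurable
    (ae_of_all _ fun b => ?_)
  have hB := h.B0
  change ‖hcE κ n b / b‖ ≤ ‖B / κ‖
  rw [Real.norm_eq_abs, abs_of_nonneg (hcq_nonneg hκ h b), Real.norm_eq_abs,
    abs_of_nonneg (by positivity : 0 ≤ B / κ)]
  exact hcq_le hκ h b

theorem hcT_cont (hκ : 0 < κ) (h : ChF B n) : Continuous (hcT κ n) :=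
  intervalIntegral.continuous_primitive (hcq_int hκ h) 0

theorem hcT_sub (hκ : 0 < κ) (h : ChF B n) (x y : ℝ) :
    hcT κ n y - hcT κ n x = ∫ b in x..y, hcE κ n b / b := by
  unfold hcT
  rw [intervalIntegral.integral_interval_sub_left (hcq_int hκ h _ _) (hcq_int hκ h _ _)]

theorem hcT_mono (hκ : 0 < κ) (h : ChF B n) : Monotone (hcT κ n) := fun x y hxy => by
  have h1 := hcT_sub hκ h x y
  have h2 : 0 ≤ ∫ b in x..y, hcE κ n b / b :=
    intervalIntegral.integral_nonneg hxy fun u _ => hcq_nonneg hκ h u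
  linarith

theorem hcT_zero (κ : ℝ) (n : ℝ → ℝ) : hcT κ n 0 = 0 := by
  unfold hcT
  simp

theorem hcT_der (hκ : 0 < κ) (h : ChF B n) {x : ℝ} (hx : 0 < x) :
    HasDerivAt (hcT κ n) (hcE κ n x / x) x := by
  refine intervalIntegral.integral_hasDerivAt_right (hcq_int hκ h _ _)
    (hcq_meas κ h).stronglyMeasurable.stronglyMeasurableAtFilter ?_
  exact ((hcE_cont κ h).continuousAt).div continuousAt_id hx.ne'

/-- `E ≤ T` -/
theorem hcE_le_T (hκ : 0 < κ) (h : ChF B n) {a : ℝ} (ha : 0 ≤ a) : hcE κ n a ≤ hcT κ n a := by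
  rcases ha.eq_or_lt with h0 | h0
  · rw [← h0, hcE_zero h le_rfl, hcT_zero]
  · have h1 : ∫ b in (0 : ℝ)..a, hcE κ n a / a ≤ ∫ b in (0 : ℝ)..a, hcE κ n b / b := by
      refine intervalIntegral.integral_mono_on_of_le_Ioo ha (intervalIntegrable_const)
        (hcq_int hκ h _ _) fun b hb => hcE_star hκ h hb.1 hb.2.le
    rw [intervalIntegral.integral_const, smul_eq_mul, sub_zero] at h1
    have e1 : a * (hcE κ n a / a) = hcE κ n a := by field_simp
    rw [e1] at h1
    exact h1

/-- **the certificate** -/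
theorem hct_cert (hκ : 0 < κ) (h : ChF B n) {V : ℝ} (hV : 0 < V) (hT : hcT κ n V < 1) :
    ∃ k : ℝ → ℝ, Continuous k ∧ (∀ a ≤ 0, k a = 0) ∧ (∀ a, 0 ≤ k a) ∧
      (∀ a, 0 ≤ a → a ≤ V → n a + ∫ u in (0 : ℝ)..a, k u ≤ κ * hcE κ n a / (1 - hcT κ n a)) ∧
      (∀ a, 0 < a → a ≤ V → (n a + ∫ u in (0 : ℝ)..a, k u) ^ 2 ≤ κ * a * k a) := by
  have hB := h.B0
  set E := hcE κ n with hE
  set T := hcT κ n with hTd
  have E0 : ∀ a, 0 ≤ E a := hcE_nonneg hκ h
  have Em : Monotone E := hcE_mono hκ h
  have Ec : Continuous E := hcE_cont κ h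
  have Tc : Continuous T := hcT_cont hκ h
  have Tm : Monotone T := hcT_mono hκ h
  set p : ℝ → ℝ := fun a => max 0 (min a V) with hp
  have pc : Continuous p := by fun_prop
  have p0 : ∀ a, 0 ≤ p a := fun a => le_max_left _ _
  have pV : ∀ a, p a ≤ V := fun a => max_le hV.le (min_le_right _ _)
  have pid : ∀ a, 0 ≤ a → a ≤ V → p a = a := fun a h0 h1 => by
    change max 0 (min a V) = a
    rw [min_eq_left h1, max_eq_right h0]
  have T1 : ∀ a, a ≤ V → 0 < 1 - T a := fun a ha => by
    have := Tm ha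
    linarith
  -- the function `E ^ 2 / a`
  have Qc : Continuous fun x : ℝ => E x * (E x / x) := by
    rw [continuous_iff_continuousAt]
    intro x
    rcases eq_or_ne x 0 with h0 | h0
    · subst h0
      have e0 : E 0 * (E 0 / 0) = 0 := by simp
      change Tendsto (fun x : ℝ => E x * (E x / x)) (𝓝 0) (𝓝 (E 0 * (E 0 / 0)))
      rw [e0]
      have hE0 : E 0 = 0 := hcE_zero h le_rfl
      have t1 : Tendsto (fun x : ℝ => E x * (B / κ)) (𝓝 0) (𝓝 0) := by
        have h7 : Tendsto (fun x : ℝ => E x * (B / κ)) (𝓝 0) (𝓝 (E 0 * (B / κ))) :=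
          (Ec.mul (continuous_const : Continuous fun _ : ℝ => B / κ)).tendsto 0
        rwa [hE0, zero_mul] at h7
      refine squeeze_zero (fun x => mul_nonneg (E0 x) (hcq_nonneg hκ h x)) (fun x => ?_) t1
      exact mul_le_mul_of_nonneg_left (hcq_le hκ h x) (E0 x)
    · exact (Ec.continuousAt).mul ((Ec.continuousAt).div continuousAt_id h0)
  set k : ℝ → ℝ := fun a => κ * (E (p a) * (E (p a) / p a)) / (1 - T (p a)) ^ 2 with hk
  have kc : Continuous k := by
    refine Continuous.div (continuous_const.mul (Qc.comp pc))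
      ((continuous_const.sub (Tc.comp pc)).pow 2) fun a => ?_
    exact pow_ne_zero 2 (T1 _ (pV a)).ne'
  have k0 : ∀ a, 0 ≤ k a := fun a => by
    have h1 := mul_nonneg (E0 (p a)) (hcq_nonneg hκ h (p a))
    change 0 ≤ κ * (E (p a) * (E (p a) / p a)) / (1 - T (p a)) ^ 2
    positivity
  have kid : ∀ a, 0 ≤ a → a ≤ V → k a = κ * (E a * (E a / a)) / (1 - T a) ^ 2 := fun a h0 h1 => by
    change κ * (E (p a) * (E (p a) / p a)) / (1 - T (p a)) ^ 2 = _
    rw [pid a h0 h1]
  set Φ : ℝ → ℝ := fun x => ∫ u in (0 : ℝ)..x, k u with hΦ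
  have Φd : ∀ x, HasDerivAt Φ (k x) x := fun x =>
    intervalIntegral.integral_hasDerivAt_right (kc.intervalIntegrable _ _)
      kc.stronglyMeasurable.stronglyMeasurableAtFilter kc.continuousAt
  have Φ0 : Φ 0 = 0 := by
    change ∫ u in (0 : ℝ)..0, k u = 0
    simp
  set R : ℝ → ℝ := fun a => κ * E a / (1 - T a) with hR
  have main : ∀ x ∈ Icc (0 : ℝ) V, n x + Φ x - R x ≤ 0 := by
    have Φc : Continuous Φ := continuous_iff_continuousAt.2 fun x => (Φd x).continuousAt
    have Rc : ContinuousOn R (Icc 0 V) := by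
      refine ContinuousOn.div (by fun_prop) (by fun_prop) fun x hx => (T1 x hx.2).ne'
    have fc : ContinuousOn (fun x => n x + Φ x - R x) (Icc 0 V) :=
      ((h.cont.add Φc).continuousOn).sub Rc
    refine image_le_of_liminf_slope_right_le_deriv_boundary (f := fun x => n x + Φ x - R x)
      (B := fun _ => 0) (B' := fun _ => 0) fc ?_ continuousOn_const
      (fun x _ => hasDerivWithinAt_const _ _ _) ?_
    · change n 0 + Φ 0 - κ * E 0 / (1 - T 0) ≤ 0
      have : E 0 = 0 := hcE_zero h le_rfl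
      rw [this, Φ0, h.zero 0 le_rfl]
      simp
    · intro x hx r hr
      have x0 : 0 ≤ x := hx.1
      have xV : x < V := hx.2
      -- the comparison function
      set H : ℝ → ℝ := fun z => Φ z - Φ x - κ * E x * (T z - T x) / ((1 - T x) * (1 - T z)) with hH
      have Hx : H x = 0 := by
        change Φ x - Φ x - κ * E x * (T x - T x) / ((1 - T x) * (1 - T x)) = 0
        simp
      have Hd : HasDerivAt H 0 x := by
        rcases x0.eq_or_lt with h0 | h0
        · have hE0 : E x = 0 := hcE_zero h h0.symm.le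
          have e1 : H = fun z => Φ z - Φ x := by
            funext z
            change Φ z - Φ x - κ * E x * (T z - T x) / ((1 - T x) * (1 - T z)) = _
            rw [hE0]
            simp
          rw [e1]
          have h1 := (Φd x).sub_const (Φ x)
          have h2 : k x = 0 := by
            rw [kid x x0 xV.le, hE0]
            simp
          rwa [h2] at h1
        · have hTd' : HasDerivAt T (E x / x) x := hcT_der hκ h h0
          have n1 : (1 - T x) ≠ 0 := (T1 x xV.le).ne'
          have d1 : HasDerivAt (fun z => κ * E x * (T z - T x)) (κ * E x * (E x / x)) x :=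
            (hTd'.sub_const (T x)).const_mul (κ * E x)
          have d2 : HasDerivAt (fun z => (1 - T x) * (1 - T z)) ((1 - T x) * (-(E x / x))) x :=
            (hTd'.const_sub 1).const_mul (1 - T x)
          have d3 := ((Φd x).sub_const (Φ x)).sub (d1.div d2 (mul_ne_zero n1 n1))
          refine d3.congr_deriv ?_
          rw [kid x x0 xV.le]
          field_simp
          ring
      have ev1 : ∀ᶠ z in 𝓝[>] x, slope H x z < r := by
        have h1 := (hasDerivAt_iff_tendsto_slope.1 Hd).mono_left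
          (nhdsWithin_mono x (fun z hz => (ne_of_gt hz : z ≠ x)))
        exact h1 (Iio_mem_nhds hr)
      have ev2 : ∀ᶠ z in 𝓝[>] x, z ∈ Ioc x V := Ioc_mem_nhdsGT xV
      refine (ev1.and ev2).frequently.mono fun z hz => ?_
      obtain ⟨hz1, hz2, hz3⟩ := hz
      refine lt_of_le_of_lt ?_ hz1
      rw [slope_def_field, slope_def_field, Hx, sub_zero]
      refine div_le_div_of_nonneg_right ?_ (by linarith)
      have z1 := T1 z hz3
      have x1 := T1 x xV.le
      -- `R z - R x ≥ n z - n x + ...`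
      have h1 : E z = E x + (E z - E x) := by ring
      have h2 : (n z - n x) / κ * Real.exp (-(n z / κ)) ≤ E z - E x := by
        change _ ≤ (1 - Real.exp (-(n z / κ))) - (1 - Real.exp (-(n x / κ)))
        have h3 : Real.exp (-(n x / κ)) = Real.exp (-(n z / κ)) * Real.exp ((n z - n x) / κ) := by
          rw [← Real.exp_add]
          congr 1
          ring
        have h4 := Real.add_one_le_exp ((n z - n x) / κ)
        have h5 := Real.exp_pos (-(n z / κ))
        rw [h3]
        nlinarith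
      have h3 : 1 - T z ≤ Real.exp (-(n z / κ)) := by
        have := hcE_le_T hκ h (a := z) (by linarith)
        change 1 - Real.exp (-(n z / κ)) ≤ T z at this
        linarith
      have h4 : 0 ≤ (n z - n x) / κ := div_nonneg (sub_nonneg.2 (h.mono hz2.le)) hκ.le
      have h5 : (n z - n x) / κ * (1 - T z) ≤ E z - E x :=
        (mul_le_mul_of_nonneg_left h3 h4).trans h2
      have h6 : n z - n x ≤ κ * (E z - E x) / (1 - T z) := by
        rw [le_div_iff₀ z1]
        have := mul_le_mul_of_nonneg_left h5 hκ.le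
        have e1 : κ * ((n z - n x) / κ * (1 - T z)) = (n z - n x) * (1 - T z) := by field_simp
        rwa [e1] at this
      have e2 : R z - R x = κ * (E z - E x) / (1 - T z) +
          κ * E x * (T z - T x) / ((1 - T x) * (1 - T z)) := by
        change κ * E z / (1 - T z) - κ * E x / (1 - T x) = _
        field_simp
        ring
      change (n z + Φ z - R z) - (n x + Φ x - R x) ≤
        Φ z - Φ x - κ * E x * (T z - T x) / ((1 - T x) * (1 - T z))
      linarith
  have Φn : ∀ a, 0 ≤ a → 0 ≤ Φ a := fun a ha =>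
    intervalIntegral.integral_nonneg ha fun u _ => k0 u
  refine ⟨k, kc, fun a ha => ?_, k0, fun a h0 h1 => ?_, fun a h0 h1 => ?_⟩
  · change κ * (E (p a) * (E (p a) / p a)) / (1 - T (p a)) ^ 2 = 0
    have e1 : p a = 0 := by
      change max 0 (min a V) = 0
      exact max_eq_left ((min_le_left _ _).trans ha)
    rw [e1]
    simp
  · have := main a ⟨h0, h1⟩
    change n a + Φ a ≤ R a
    linarith
  · have h2 := main a ⟨h0.le, h1⟩
    have h3 : 0 ≤ n a + Φ a := add_nonneg (h.nonneg a) (Φn a h0.le)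
    have h4 : n a + Φ a ≤ R a := by linarith
    have h5 : (n a + Φ a) ^ 2 ≤ R a ^ 2 := pow_le_pow_left₀ h3 h4 2
    refine h5.trans (le_of_eq ?_)
    rw [kid a h0.le h1]
    change (κ * E a / (1 - T a)) ^ 2 = _
    have := (T1 a h1).ne'
    field_simp

/-- the certificate in the shape `HwD` -/
theorem ChF.hwD {V b f B' : ℝ} (h : ChF B n) (hκ : 0 < κ) (hV : 0 < V) (hb : 0 < b) (hf : 0 ≤ f)
    (hB' : B ≤ B') (hfb : f / b ≤ B')
    (hT : hcT κ (fun a => n a + min (f / b * max a 0) f) V < 1) :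
    HwD (fun a => κ * a) V B' n b f := by
  obtain ⟨k, kc, k1, k2, -, k4⟩ := hct_cert hκ (h.add (chF_side hb hf)) hV hT
  refine ⟨h.mono, h.zero, fun x y hxy => ?_, hb, hf, hfb, k, kc, k1, k2, fun a h0 h1 => ?_⟩
  · have h1 := h.lip x y hxy
    have h2 := mul_le_mul_of_nonneg_right hB' (sub_nonneg.2 hxy)
    linarith
  · have h2 := k4 a h0 h1
    rw [max_eq_left h0.le] at h2
    exact h2

end cert

section charge

variable {Ω : Type*} [MeasurableSpace Ω] (μ : Measure Ω) [IsFiniteMeasure μ]

/-- `∫ (W - s)₊` -/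
def hcI (W : Ω → ℝ) (s : ℝ) : ℝ := ∫ o, max (W o - s) 0 ∂μ

/-- the exact charge function -/
def hcN (W : Ω → ℝ) (N a : ℝ) : ℝ := ⨅ s : Icc (0 : ℝ) N, ((s : ℝ) * max a 0 + hcI μ W s)

variable {μ} {W : Ω → ℝ} {N : ℝ}

theorem hcI_int (hW : Integrable W μ) (s : ℝ) : Integrable (fun o => max (W o - s) 0) μ :=
  (hW.sub (integrable_const s)).sup (integrable_const 0)

theorem hcI_nonneg (W : Ω → ℝ) (s : ℝ) : 0 ≤ hcI μ W s :=
  integral_nonneg fun _ => le_max_right _ _

theorem hcI_N (hWN : ∀ᵐ o ∂μ, W o ≤ N) : hcI μ W N = 0 := by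
  unfold hcI
  refine integral_eq_zero_of_ae ?_
  filter_upwards [hWN] with o ho
  exact max_eq_right (by linarith)

theorem hcN_bdd (W : Ω → ℝ) (N a : ℝ) :
    BddBelow (range fun s : Icc (0 : ℝ) N => ((s : ℝ) * max a 0 + hcI μ W s)) := by
  refine ⟨0, ?_⟩
  rintro _ ⟨s, rfl⟩
  have h1 := s.2.1
  have h2 := hcI_nonneg (μ := μ) W s
  have h3 : 0 ≤ max a 0 := le_max_right _ _
  change 0 ≤ (s : ℝ) * max a 0 + hcI μ W s
  positivity

theorem hcN_le (W : Ω → ℝ) {s a : ℝ} (h0 : 0 ≤ s) (h1 : s ≤ N) :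
    hcN μ W N a ≤ s * max a 0 + hcI μ W s :=
  ciInf_le (hcN_bdd W N a) (⟨s, h0, h1⟩ : Icc (0 : ℝ) N)

theorem hcN_ge (hN : 0 ≤ N) {a x : ℝ} (h : ∀ s, 0 ≤ s → s ≤ N → x ≤ s * max a 0 + hcI μ W s) :
    x ≤ hcN μ W N a := by
  have : Nonempty (Icc (0 : ℝ) N) := ⟨⟨0, le_rfl, hN⟩⟩
  exact le_ciInf fun s => h s s.2.1 s.2.2

theorem hcN_chF (hN : 0 ≤ N) (hWN : ∀ᵐ o ∂μ, W o ≤ N) : ChF N (hcN μ W N) where
  mono := fun x y hxy => hcN_ge hN fun s h0 h1 => by
    have h2 := hcN_le (μ := μ) W (a := x) h0 h1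
    have h3 : max x 0 ≤ max y 0 := max_le_max hxy le_rfl
    have h4 := mul_le_mul_of_nonneg_left h3 h0
    linarith
  zero := fun a ha => by
    refine le_antisymm ?_ (hcN_ge hN fun s h0 _ => ?_)
    · have h1 := hcN_le (μ := μ) W (a := a) hN le_rfl
      rw [max_eq_right ha, mul_zero, hcI_N hWN, add_zero] at h1
      exact h1
    · have := hcI_nonneg (μ := μ) W s
      have h3 : 0 ≤ max a 0 := le_max_right _ _
      positivity
  lip := fun x y hxy => by
    have h1 : hcN μ W N y - N * (y - x) ≤ hcN μ W N x := hcN_ge hN fun s h0 h1 => by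
      have h2 := hcN_le (μ := μ) W (a := y) h0 h1
      have h3 : max y 0 ≤ max x 0 + (y - x) := by
        rcases le_total y 0 with h | h
        · rw [max_eq_right h]
          have := le_max_right x 0
          linarith
        · rw [max_eq_left h]
          have := le_max_left x 0
          linarith
      have h4 := mul_le_mul_of_nonneg_left h3 h0
      have h5 := mul_le_mul_of_nonneg_right h1 (sub_nonneg.2 hxy)
      linarith
    linarith
  star := fun a b ha hab => by
    have hb : 0 < b := ha.trans_le hab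
    have h1 : hcN μ W N b * a / b ≤ hcN μ W N a := hcN_ge hN fun s h0 h1 => by
      have h2 := hcN_le (μ := μ) W (a := b) h0 h1
      have h3 := hcI_nonneg (μ := μ) W s
      rw [max_eq_left hb.le] at h2
      rw [max_eq_left ha.le, div_le_iff₀ hb]
      have h4 := mul_le_mul_of_nonneg_right h2 ha.le
      have h5 := mul_le_mul_of_nonneg_left hab h3
      linarith
    rwa [div_le_iff₀ hb] at h1

/-- the charge of a set -/
theorem hcN_charge (hN : 0 ≤ N) (hW : Integrable W μ) (S : Set Ω) :
    ∫ o in S, W o ∂μ ≤ hcN μ W N (μ.real S) := hcN_ge hN fun s h0 _ => by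
  have h1 : ∫ o in S, W o ∂μ ≤ ∫ o in S, (s + max (W o - s) 0) ∂μ := by
    refine integral_mono hW.integrableOn ((integrable_const s).add (hcI_int hW s)).integrableOn
      fun o => ?_
    have := le_max_left (W o - s) 0
    change W o ≤ s + max (W o - s) 0
    linarith
  have h2 : ∫ o in S, (s + max (W o - s) 0) ∂μ = s * μ.real S + ∫ o in S, max (W o - s) 0 ∂μ := by
    rw [integral_add (integrable_const s).integrableOn (hcI_int hW s).integrableOn,
      setIntegral_const, smul_eq_mul, mul_comm]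
  have h3 : ∫ o in S, max (W o - s) 0 ∂μ ≤ hcI μ W s :=
    setIntegral_le_integral (hcI_int hW s) (ae_of_all _ fun o => le_max_right _ _)
  rw [max_eq_left measureReal_nonneg]
  linarith

end charge

section bound

variable {κ B : ℝ} {n : ℝ → ℝ}

/-- the tangent inequality -/
theorem hc_tan (x y : ℝ) : 1 - Real.exp (-y) ≤
    1 - Real.exp (-x) * (1 + x) + Real.exp (-x) * y := by
  have h1 : Real.exp (-y) = Real.exp (-x) * Real.exp (x - y) := by
    rw [← Real.exp_add]
    congr 1
    ring
  have h2 := Real.add_one_le_exp (x - y)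
  have h3 := Real.exp_pos (-x)
  rw [h1]
  nlinarith

/-- the first interval -/
theorem hcT_first (hκ : 0 < κ) (h : ChF B n) {β : ℝ} (hβ : 0 ≤ β) :
    hcT κ n β ≤ B / κ * β := by
  have h1 : hcT κ n β ≤ ∫ b in (0 : ℝ)..β, B / κ :=
    intervalIntegral.integral_mono_on hβ (hcq_int hκ h _ _) intervalIntegrable_const
      fun b _ => hcq_le hκ h b
  rw [intervalIntegral.integral_const, smul_eq_mul, sub_zero, mul_comm] at h1
  exact h1

/-- one interval: `n b ≤ s b + i` -/
theorem hcT_step (hκ : 0 < κ) (h : ChF B n) {β β' x s i : ℝ} (hβ : 0 < β) (hββ : β ≤ β')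
    (hn : ∀ b, β ≤ b → b ≤ β' → n b ≤ s * b + i) :
    hcT κ n β' - hcT κ n β ≤ (1 - Real.exp (-x) * (1 + x) + Real.exp (-x) * i / κ) *
      Real.log (β' / β) + Real.exp (-x) * s / κ * (β' - β) := by
  have hβ' : 0 < β' := hβ.trans_le hββ
  rw [hcT_sub hκ h]
  have i1 : IntervalIntegrable (fun b : ℝ => b⁻¹) volume β β' := by
    refine ContinuousOn.intervalIntegrable (continuousOn_inv₀.mono fun y hy => ?_)
    rw [uIcc_of_le hββ] at hy
    exact (hβ.trans_le hy.1).ne'
  set α := 1 - Real.exp (-x) * (1 + x) + Real.exp (-x) * i / κ with hα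
  have h1 : ∫ b in β..β', hcE κ n b / b ≤ ∫ b in β..β', (α * b⁻¹ + Real.exp (-x) * s / κ) := by
    refine intervalIntegral.integral_mono_on hββ (hcq_int hκ h _ _)
      ((i1.const_mul α).add intervalIntegrable_const) fun b hb => ?_
    have b0 : 0 < b := hβ.trans_le hb.1
    have h2 := hc_tan x (n b / κ)
    change hcE κ n b ≤ _ at h2
    have h3 : n b / κ ≤ (s * b + i) / κ := div_le_div_of_nonneg_right (hn b hb.1 hb.2) hκ.le
    have h4 := mul_le_mul_of_nonneg_left h3 (Real.exp_pos (-x)).le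
    have h5 : hcE κ n b ≤ α + Real.exp (-x) * s / κ * b := by
      have e1 : Real.exp (-x) * ((s * b + i) / κ) =
          Real.exp (-x) * i / κ + Real.exp (-x) * s / κ * b := by ring
      rw [hα]
      linarith
    rw [div_le_iff₀ b0]
    have e2 : (α * b⁻¹ + Real.exp (-x) * s / κ) * b = α + Real.exp (-x) * s / κ * b := by
      field_simp
    rw [e2]
    exact h5
  refine h1.trans (le_of_eq ?_)
  rw [intervalIntegral.integral_add (i1.const_mul α) intervalIntegrable_const,
    intervalIntegral.integral_const_mul, integral_inv_of_pos hβ hβ',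
    intervalIntegral.integral_const, smul_eq_mul]
  ring

/-- all intervals: `β 0 < β 1 < .. < β J`, `n b ≤ s j b + i j` -/
theorem hcT_sum (hκ : 0 < κ) (h : ChF B n) {β x s i : ℕ → ℝ} (hβ : 0 < β 0) (J : ℕ)
    (hββ : ∀ j < J, β j ≤ β (j + 1)) (hn : ∀ j < J, ∀ b, 0 ≤ b → n b ≤ s j * b + i j) :
    hcT κ n (β J) ≤ B / κ * β 0 + ∑ j ∈ Finset.range J,
      ((1 - Real.exp (-x j) * (1 + x j) + Real.exp (-x j) * i j / κ) *
        Real.log (β (j + 1) / β j) + Real.exp (-x j) * s j / κ * (β (j + 1) - β j)) := by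
  induction J with
  | zero => simpa using hcT_first hκ h hβ.le
  | succ J ih =>
    have h1 := ih (fun j hj => hββ j (by omega)) (fun j hj => hn j (by omega))
    have hpos : ∀ j ≤ J, 0 < β j := by
      intro j
      induction j with
      | zero => exact fun _ => hβ
      | succ j ihj => exact fun hj => (ihj (by omega)).trans_le (hββ j (by omega))
    have hJ := hpos J le_rfl
    have h2 := hcT_step hκ h (x := x J) hJ (hββ J (by omega)) (s := s J) (i := i J)
      fun b hb _ => hn J (by omega) b (hJ.le.trans hb)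
    rw [Finset.sum_range_succ]
    linarith

end bound

section final

variable {Ω : Type*} [MeasurableSpace Ω] {μ : Measure Ω} [IsFiniteMeasure μ]

/-- the dual bound of `T` for the exact charge of the weight `W` with a side charge -/
theorem hcT_dual {W φo : Ω → ℝ} {N X κ lam b f : ℝ} (hκ : 0 < κ) (hN : 0 ≤ N) (hW : Integrable W μ)
    (hWN : ∀ᵐ o ∂μ, W o ≤ N) (hφ : Integrable φo μ) (hX : ∫ o, φo o ∂μ ≤ X) (hlam : 0 ≤ lam)
    (hb : 0 < b) (hf : 0 ≤ f) {J : ℕ} {β x s : ℕ → ℝ} (hβ : 0 < β 0)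
    (hββ : ∀ j < J, β j ≤ β (j + 1)) (hs : ∀ j < J, 0 ≤ s j ∧ s j ≤ N)
    (hpt : ∀ᵐ o ∂μ, ∑ j ∈ Finset.range J,
      Real.exp (-x j) / κ * Real.log (β (j + 1) / β j) * max (W o - s j) 0 ≤ lam * φo o) :
    hcT κ (fun a => hcN μ W N a + min (f / b * max a 0) f) (β J) ≤
      (N + f / b) / κ * β 0 + (∑ j ∈ Finset.range J,
        ((1 - Real.exp (-x j) * (1 + x j) + Real.exp (-x j) * f / κ) *
          Real.log (β (j + 1) / β j) + Real.exp (-x j) * s j / κ * (β (j + 1) - β j))) +
      lam * X := by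
  have h1 := hcT_sum hκ ((hcN_chF (μ := μ) (W := W) hN hWN).add (chF_side hb hf)) (x := x) (s := s)
    (i := fun j => hcI μ W (s j) + f) hβ J hββ fun j hj a ha => by
      have h2 := hcN_le (μ := μ) W (a := a) (hs j hj).1 (hs j hj).2
      rw [max_eq_left ha] at h2
      have h3 : min (f / b * max a 0) f ≤ f := min_le_right _ _
      change hcN μ W N a + min (f / b * max a 0) f ≤ s j * a + (hcI μ W (s j) + f)
      linarith
  refine h1.trans ?_
  have h2 : ∑ j ∈ Finset.range J,
      Real.exp (-x j) / κ * Real.log (β (j + 1) / β j) * hcI μ W (s j) ≤ lam * X := by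
    have e1 : ∑ j ∈ Finset.range J,
        Real.exp (-x j) / κ * Real.log (β (j + 1) / β j) * hcI μ W (s j) =
        ∫ o, ∑ j ∈ Finset.range J,
          Real.exp (-x j) / κ * Real.log (β (j + 1) / β j) * max (W o - s j) 0 ∂μ := by
      rw [integral_finset_sum _ fun j _ => (hcI_int hW (s j)).const_mul _]
      refine Finset.sum_congr rfl fun j _ => ?_
      rw [integral_const_mul]
      rfl
    rw [e1]
    have h3 := integral_mono_ae
      (integrable_finset_sum _ fun j _ => (hcI_int hW (s j)).const_mul _) (hφ.const_mul lam) hpt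
    rw [integral_const_mul] at h3
    exact h3.trans (mul_le_mul_of_nonneg_left hX hlam)
  have e2 : ∑ j ∈ Finset.range J,
      ((1 - Real.exp (-x j) * (1 + x j) + Real.exp (-x j) * (hcI μ W (s j) + f) / κ) *
        Real.log (β (j + 1) / β j) + Real.exp (-x j) * s j / κ * (β (j + 1) - β j)) =
      (∑ j ∈ Finset.range J,
        ((1 - Real.exp (-x j) * (1 + x j) + Real.exp (-x j) * f / κ) *
          Real.log (β (j + 1) / β j) + Real.exp (-x j) * s j / κ * (β (j + 1) - β j))) +
      ∑ j ∈ Finset.range J,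
        Real.exp (-x j) / κ * Real.log (β (j + 1) / β j) * hcI μ W (s j) := by
    rw [← Finset.sum_add_distrib]
    refine Finset.sum_congr rfl fun j _ => ?_
    ring
  rw [e2]
  linarith

/-- **the exact charge function of a weight with its certificate** -/
theorem hct_main {W φo : Ω → ℝ} {N X κ lam b f B' : ℝ} (hκ : 0 < κ) (hN : 0 ≤ N)
    (hW : Integrable W μ) (hWN : ∀ᵐ o ∂μ, W o ≤ N) (hφ : Integrable φo μ) (hX : ∫ o, φo o ∂μ ≤ X)
    (hlam : 0 ≤ lam) (hb : 0 < b) (hf : 0 ≤ f) (hNB : N ≤ B') (hfB : f / b ≤ B') {J : ℕ}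
    {β x s : ℕ → ℝ} (hβ : 0 < β 0) (hββ : ∀ j < J, β j ≤ β (j + 1))
    (hs : ∀ j < J, 0 ≤ s j ∧ s j ≤ N)
    (hpt : ∀ᵐ o ∂μ, ∑ j ∈ Finset.range J,
      Real.exp (-x j) / κ * Real.log (β (j + 1) / β j) * max (W o - s j) 0 ≤ lam * φo o)
    (hnum : (N + f / b) / κ * β 0 + (∑ j ∈ Finset.range J,
        ((1 - Real.exp (-x j) * (1 + x j) + Real.exp (-x j) * f / κ) *
          Real.log (β (j + 1) / β j) + Real.exp (-x j) * s j / κ * (β (j + 1) - β j))) +
      lam * X < 1) :
    ∃ n : ℝ → ℝ, HwD (fun a => κ * a) (β J) B' n b f ∧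
      ∀ S : Set Ω, ∫ o in S, W o ∂μ ≤ n (μ.real S) := by
  have hJ : 0 < β J := by
    have hpos : ∀ j ≤ J, 0 < β j := by
      intro j
      induction j with
      | zero => exact fun _ => hβ
      | succ j ihj => exact fun hj => (ihj (by omega)).trans_le (hββ j (by omega))
    exact hpos J le_rfl
  refine ⟨hcN μ W N, (hcN_chF hN hWN).hwD hκ hJ hb hf hNB hfB ?_, fun S => hcN_charge hN hW S⟩
  exact (hcT_dual hκ hN hW hWN hφ hX hlam hb hf hβ hββ hs hpt).trans_lt hnum

end final

end Pool.Agent.FPX
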