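import Mathlib
import Pool.Agent.FPX.VOU

/-
VHC (helper91): the weighted Hardy inequality for odd functions, profile and charge function for
superlevel sets of area at most `a₁`, image under the map `v` itself above (`out_robin`).
-/

open MeasureTheory Set Filter Topology
open scoped ENNReal NNReal

noncomputable section

namespace Pool.Agent.FPX

open Pool.Agent.EWD Pool.Agent.FPM

variable {M : Type} [MetricSpace M] {γ : ℝ → M}

/-- the certificate in the core: charge function `n`, density `k` -/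
structure CoreCert (C : Calc M γ) (g : M → ℝ) (W : Om → ℝ) (Lam : ℝ → ℝ) (ε δ lam a₁ t : ℝ)
    (n k : ℝ → ℝ) : Prop where
  mono : Monotone n
  n0 : ∀ a ≤ 0, n a = 0
  ck : Continuous k
  k0 : ∀ a ≤ 0, k a = 0
  kp : ∀ a, 0 ≤ k a
  charge : ∀ s > 0, t ≤ s → supw C g W s ≤ n (supa C g s - ε) + δ
  cert : ∀ a, 0 < a → a ≤ a₁ → (lam * n a + ∫ u in (0 : ℝ)..a, k u) ^ 2 ≤ Lam a * k a

theorem supw_cut (C : Calc M γ) {g : M → ℝ} (hg : Lip g) (W : Om → ℝ) (s t : ℝ) :
    supw C g ({o | t < |g (C.pt o)|}.indicator W) s = supw C g W (max s t) := by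
  unfold supw
  have m1 := meas_abs_lt C hg t
  rw [← integral_indicator₀ (meas_abs_lt C hg s), ← integral_indicator₀ (meas_abs_lt C hg _)]
  refine integral_congr_ae (ae_of_all _ fun o => ?_)
  by_cases h1 : s < |g (C.pt o)|
  · by_cases h2 : t < |g (C.pt o)|
    · rw [indicator_of_mem (show o ∈ {o | s < |g (C.pt o)|} from h1),
        indicator_of_mem (show o ∈ {o | t < |g (C.pt o)|} from h2),
        indicator_of_mem (show o ∈ {o | max s t < |g (C.pt o)|} from max_lt h1 h2)]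
    · rw [indicator_of_mem (show o ∈ {o | s < |g (C.pt o)|} from h1),
        indicator_of_notMem (show o ∉ {o | t < |g (C.pt o)|} from h2),
        indicator_of_notMem (show o ∉ {o | max s t < |g (C.pt o)|} from
          fun h => h2 ((le_max_right _ _).trans_lt h))]
  · rw [indicator_of_notMem (show o ∉ {o | s < |g (C.pt o)|} from h1),
      indicator_of_notMem (show o ∉ {o | max s t < |g (C.pt o)|} from
        fun h => h1 ((le_max_left _ _).trans_lt h))]

/-- the inner part -/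
theorem comp_in (C : Calc M γ) {g : M → ℝ} (hg : Lip g) {R : ℝ}
    (gR : ∀ᵐ o ∂C.μ, |g (C.pt o)| ≤ R) {W : Om → ℝ} (hW : Integrable W C.μ)
    {n k Lam : ℝ → ℝ} {ε δ lam a₁ t : ℝ} (ht : 0 ≤ t) (htR : t ≤ R)
    (hlam : 0 ≤ lam) (hε : 0 ≤ ε) (hδ : 0 ≤ δ) (hta : supa C g t ≤ a₁)
    (hL : ∀ᵐ t : ℝ, 0 < t → DifferentiableAt ℝ (lev C fun x => |g x|) t ∧
      Lam (supa C g t - ε) ≤ deriv (lev C fun x => |g x|) t ^ 2)
    (h : CoreCert C g W Lam ε δ lam a₁ t n k) :
    lam * ∫ o, (g (C.pt o) ^ 2 - min |g (C.pt o)| t ^ 2) * W o ∂C.μ ≤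
      (∫ o in {o | t < |g (C.pt o)| ∧ |g (C.pt o)| ≤ R}, gn C g o ^ 2 ∂C.μ)
        + t ^ 2 * (∫ u in (0 : ℝ)..a₁, k u) + lam * δ * R ^ 2 := by
  have := C.fin
  set Φ : ℝ → ℝ := fun x => ∫ u in (0 : ℝ)..x, k u with hΦ
  have hΦd : ∀ x, HasDerivAt Φ (k x) x := fun x =>
    intervalIntegral.integral_hasDerivAt_right (h.ck.intervalIntegrable _ _)
      (h.ck.stronglyMeasurableAtFilter _ _) h.ck.continuousAt
  have hΦm : Monotone Φ := monotone_of_deriv_nonneg (fun x => (hΦd x).differentiableAt) fun x => by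
    rw [(hΦd x).deriv]
    exact h.kp x
  have hΦ0 : ∀ x ≤ 0, Φ x = 0 := by
    intro x hx
    have h1 : ∫ u in (0 : ℝ)..x, k u = ∫ u in (0 : ℝ)..x, (0 : ℝ) := by
      refine intervalIntegral.integral_congr fun u hu => ?_
      rw [uIcc_of_ge hx] at hu
      exact h.k0 u hu.2
    change ∫ u in (0 : ℝ)..x, k u = 0
    rw [h1]
    simp
  set E : Set Om := {o | t < |g (C.pt o)|} with hE
  have mE : NullMeasurableSet E C.μ := meas_abs_lt C hg t
  set w' : Om → ℝ := E.indicator W with hw'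
  have iw' : Integrable w' C.μ := hW.indicator₀ mE
  have key := hardy_in C hg gR iw' (n := n) (Φ0 := Φ) (k0 := k) (Lam := Lam) (ε := ε) (δ := δ)
    (lam := lam) (V := C.vol) (t := t) ht htR hlam hε hδ h.mono h.n0 le_rfl
    (fun x _ _ => hΦd x) (fun x _ _ => h.kp x) hΦ0
    (fun x h1 h2 => h.cert x h1 (by linarith)) hL (fun s hs => by
      rw [hw', supw_cut C hg]
      have h1 : 0 < max s t := lt_max_of_lt_left hs
      have h2 := h.charge (max s t) h1 (le_max_right _ _)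
      have h3 : n (supa C g (max s t) - ε) ≤ n (supa C g s - ε) :=
        h.mono (by linarith [supa_anti C g (le_max_left s t)])
      linarith)
  have e1 : ∫ o, (g (C.pt o) ^ 2 - min |g (C.pt o)| t ^ 2) * w' o ∂C.μ =
      ∫ o, (g (C.pt o) ^ 2 - min |g (C.pt o)| t ^ 2) * W o ∂C.μ := by
    refine integral_congr_ae (ae_of_all _ fun o => ?_)
    by_cases h1 : t < |g (C.pt o)|
    · have h2 : w' o = W o := indicator_of_mem (show o ∈ E from h1) _
      change _ * w' o = _ * W o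
      rw [h2]
    · have h3 : min |g (C.pt o)| t = |g (C.pt o)| := min_eq_left (not_lt.1 h1)
      change (g (C.pt o) ^ 2 - min |g (C.pt o)| t ^ 2) * w' o =
        (g (C.pt o) ^ 2 - min |g (C.pt o)| t ^ 2) * W o
      rw [h3, sq_abs, sub_self, zero_mul, zero_mul]
  rw [e1] at key
  have h4 : Φ (supa C g t - ε) ≤ Φ a₁ := hΦm (by linarith)
  have h5 := mul_le_mul_of_nonneg_left h4 (sq_nonneg t)
  linarith

/-- the outer part, at a crossing level -/
theorem comp_out [CompactSpace M] (C : Calc M γ) (hγ : Bd γ) (hR : RegAE C) {v : Fin 3 → M → ℝ}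
    (hv : Sph γ v) (hJ : ∫ o, jac C v o ∂C.μ = 2 * Real.pi) {κ ε : ℝ} (hI : IsopO C κ ε)
    {f w : Om → ℝ} (hf : Integrable f C.μ) (hfn : ∀ᵐ o ∂C.μ, nuC C v o ≤ f o)
    {X K lam ρ wB : ℝ} (fX : ∫ o, f o ∂C.μ ≤ X) (hw : Integrable w C.μ)
    (w0 : ∀ᵐ o ∂C.μ, 0 ≤ w o) (wf : ∀ᵐ o ∂C.μ, w o ≤ ρ * f o) (wb : ∀ᵐ o ∂C.μ, w o ≤ wB)
    (hlam : 0 ≤ lam) (hρ : 0 ≤ ρ) (hK : 0 < K) {a₁ D : ℝ} (hA1 : 0 < a₁ - D - X)
    (haD : a₁ - D ≤ 2 * Real.pi + X) (hX : X < 2 * Real.pi) {G g : ℝ → ℝ}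
    (hG : ∀ α, a₁ - D - X ≤ α → α ≤ 2 * Real.pi + X → HasDerivAt G (-g α) α)
    (hg : ∀ α, a₁ - D - X ≤ α → α ≤ 2 * Real.pi + X →
      1 / (α * (4 * Real.pi - α)) ≤ g α - g α ^ 2 / (2 * K))
    (hgK : ∀ α, a₁ - D - X ≤ α → α ≤ a₁ - D → g α ≤ K)
    (hG0 : ∀ y, 0 ≤ y → y ≤ X → 0 ≤ G (2 * Real.pi + y) + K * y) {δ : ℝ} (hδ : 0 < δ)
    {χ : M → ℝ} (hχ : Lip χ) (oχ : EWD.OddB γ χ) {t : ℝ} (ht : 0 ≤ t)
    (hα : ∀ s, 0 ≤ s → a₁ ≤ supa C χ s → a₁ - D - supw C χ f s ≤ supw C χ (jac C v) s)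
    (hc : ∀ s, 0 ≤ s → s < t → a₁ ≤ supa C χ s) :
    t ^ 2 * ((G (a₁ - D - supw C χ f t) + K * (X - supw C χ f t) + δ)⁻¹
        - lam * ρ * (X - supw C χ f t) - lam * supw C χ w t)
      + lam * ∫ o, min |χ (C.pt o)| t ^ 2 * w o ∂C.μ ≤
      ∫ o in {o | |χ (C.pt o)| < t}, gn C χ o ^ 2 ∂C.μ := by
  have := C.fin
  have hpi := Real.pi_pos
  have f0 : ∀ᵐ o ∂C.μ, 0 ≤ f o := by
    filter_upwards [hfn] with o ho
    exact (nuv_nonneg _ _ _).trans ho
  have hf0 : ∀ s, 0 ≤ supw C χ f s := fun s => setIntegral_nonneg_of_ae f0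
  have hfX : ∀ s, supw C χ f s ≤ X := fun s => (setIntegral_le_integral hf f0).trans fX
  have hX0 : 0 ≤ X := (hf0 0).trans (hfX 0)
  have iG := int_gn_sq C hχ
  set E := ∫ o in {o | |χ (C.pt o)| < t}, gn C χ o ^ 2 ∂C.μ with hE
  have hE0 : 0 ≤ E := integral_nonneg fun o => by positivity
  set A1 := a₁ - D - X with hA1'
  have hgpos : ∀ α, A1 ≤ α → α ≤ 2 * Real.pi + X → 0 < g α := by
    intro α h1 h2
    have h3 : 0 < 1 / (α * (4 * Real.pi - α)) := by
      have : 0 < α := by linarith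
      have : 0 < 4 * Real.pi - α := by linarith
      positivity
    have h4 := hg α h1 h2
    have h5 : 0 ≤ g α ^ 2 / (2 * K) := by positivity
    linarith
  have hGanti : ∀ α β, A1 ≤ α → α ≤ β → β ≤ 2 * Real.pi + X → G β ≤ G α := by
    intro α β h1 h2 h3
    have hmono : AntitoneOn G (Icc A1 (2 * Real.pi + X)) := by
      refine antitoneOn_of_deriv_nonpos (convex_Icc _ _) ?_ ?_ ?_
      · intro x hx
        exact (hG x hx.1 hx.2).continuousAt.continuousWithinAt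
      · intro x hx
        rw [interior_Icc] at hx
        exact (hG x hx.1.le hx.2.le).differentiableAt.differentiableWithinAt
      · intro x hx
        rw [interior_Icc] at hx
        rw [(hG x hx.1.le hx.2.le).deriv]
        have := hgpos x hx.1.le hx.2.le
        linarith
    exact hmono ⟨h1, by linarith⟩ ⟨by linarith, h3⟩ h2
  have hGK : ∀ α β, A1 ≤ α → α ≤ β → β ≤ a₁ - D → G α + K * α ≤ G β + K * β := by
    intro α β h1 h2 h3
    have hmono : MonotoneOn (fun α => G α + K * α) (Icc A1 (a₁ - D)) := by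
      have hd : ∀ x, A1 ≤ x → x ≤ a₁ - D → HasDerivAt (fun α => G α + K * α) (-g x + K * 1) x :=
        fun x h1 h2 => (hG x h1 (h2.trans haD)).add ((hasDerivAt_id x).const_mul K)
      refine monotoneOn_of_deriv_nonneg (convex_Icc _ _) ?_ ?_ ?_
      · intro x hx
        exact (hd x hx.1 hx.2).continuousAt.continuousWithinAt
      · intro x hx
        rw [interior_Icc] at hx
        exact (hd x hx.1.le hx.2.le).differentiableAt.differentiableWithinAt
      · intro x hx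
        rw [interior_Icc] at hx
        rw [(hd x hx.1.le hx.2.le).deriv]
        have := hgK x hx.1.le hx.2.le
        linarith
    exact hmono ⟨h1, by linarith⟩ ⟨by linarith, h3⟩ h2
  set ω := supw C χ f t with hω
  set r := G (a₁ - D - ω) + K * (X - ω) + δ with hr
  set q := lam * ρ * (X - ω) + lam * supw C χ w t with hq
  have i4 : ∀ s, 0 ≤ s → Integrable (fun o => min |χ (C.pt o)| s ^ 2 * w o) C.μ := fun s hs => by
    refine hw.bdd_mul (c := s ^ 2) ?_ (ae_of_all _ fun o => ?_)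
    · exact (((aem_pt C (lip_abs hχ)).min aemeasurable_const).pow_const 2).aestronglyMeasurable
    · rw [Real.norm_eq_abs, abs_pow, abs_of_nonneg (le_min (abs_nonneg _) hs)]
      exact pow_le_pow_left₀ (le_min (abs_nonneg _) hs) (min_le_right _ _) 2
  -- the inequality below the level
  have hlow : ∀ s, 0 ≤ s → s < t → s ^ 2 * (r⁻¹ - q)
      + lam * ∫ o, min |χ (C.pt o)| s ^ 2 * w o ∂C.μ ≤ E := by
    intro s hs hst
    obtain ⟨h1, h2⟩ := out_robin C hγ hR hv hJ hI hf hfn fX hw w0 wf wb hlam hρ hK hA1 hX hG hg hG0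
      hδ hχ oχ hs (fun s' h1 h2 => by
        have h3 := hα s' h1 (hc s' h1 (by linarith))
        have h4 := hfX s'
        linarith)
    have h3 := hα s hs (hc s hs hst)
    have h4 : ω ≤ supw C χ f s := by
      refine setIntegral_mono_set hf.integrableOn (ae_restrict_of_ae f0) ?_
      exact LE.le.eventuallyLE fun o ho => hst.trans ho
    have h5 := hfX s
    have hsum : supw C χ (jac C v) s ≤ 2 * Real.pi + X := by
      have iJ : Integrable (jac C v) C.μ := jac_integrable C hv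
      have q1 := integral_add_compl₀ (meas_abs_lt C hχ s) iJ
      have q2 := integral_add_compl₀ (meas_abs_lt C hχ s) hf
      have q3 : ∫ o in {o | s < |χ (C.pt o)|}ᶜ, -jac C v o ∂C.μ ≤
          ∫ o in {o | s < |χ (C.pt o)|}ᶜ, f o ∂C.μ := by
        refine setIntegral_mono_ae iJ.neg.integrableOn hf.integrableOn ?_
        filter_upwards [hfn, neg_nu_le_jac C hv] with o h4 h5
        linarith
      rw [integral_neg] at q3
      have q4 := hf0 s
      unfold supw at q4 ⊢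
      linarith
    have h6 := hGanti _ _ (by linarith) h3 hsum
    have h7 := hGK (a₁ - D - supw C χ f s) (a₁ - D - ω) (by linarith) (by linarith) (by
      have := hf0 t
      linarith)
    have h8 : G (supw C χ (jac C v) s) + K * (X - supw C χ f s) + δ ≤ r := by
      rw [hr]
      linarith
    have h9 : r⁻¹ ≤ (G (supw C χ (jac C v) s) + K * (X - supw C χ f s) + δ)⁻¹ := inv_anti₀ h1 h8
    have h12 : supw C χ w s - supw C χ w t ≤ ρ * (supw C χ f s - ω) := by
      have mS := meas_abs_lt C hχ s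
      have mT := meas_abs_lt C hχ t
      have i1 : Integrable (fun o => ρ * f o - w o) C.μ := (hf.const_mul ρ).sub hw
      have k1 : ∫ o in {o | t < |χ (C.pt o)|}, (ρ * f o - w o) ∂C.μ ≤
          ∫ o in {o | s < |χ (C.pt o)|}, (ρ * f o - w o) ∂C.μ := by
        refine setIntegral_mono_set i1.integrableOn (ae_restrict_of_ae ?_) ?_
        · filter_upwards [wf] with o ho
          exact sub_nonneg.2 ho
        · exact LE.le.eventuallyLE fun o ho => hst.trans ho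
      rw [integral_sub (hf.const_mul ρ).integrableOn hw.integrableOn,
        integral_sub (hf.const_mul ρ).integrableOn hw.integrableOn, integral_const_mul,
        integral_const_mul] at k1
      rw [hω]
      unfold supw
      linarith
    have h13 := mul_le_mul_of_nonneg_left h12 hlam
    have h14 : lam * ρ * (X - supw C χ f s) + lam * supw C χ w s ≤ q := by
      rw [hq]
      linarith
    have h10 : s ^ 2 * (r⁻¹ - q) ≤
        s ^ 2 * ((G (supw C χ (jac C v) s) + K * (X - supw C χ f s) + δ)⁻¹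
          - lam * ρ * (X - supw C χ f s) - lam * supw C χ w s) :=
      mul_le_mul_of_nonneg_left (by linarith) (sq_nonneg s)
    have h11 : ∫ o in {o | |χ (C.pt o)| < s}, gn C χ o ^ 2 ∂C.μ ≤ E := by
      refine setIntegral_mono_set iG.integrableOn (ae_of_all _ fun o => by positivity) ?_
      exact LE.le.eventuallyLE fun o ho => (show |χ (C.pt o)| < s from ho).trans hst
    linarith
  have e0 : t ^ 2 * (r⁻¹ - lam * ρ * (X - ω) - lam * supw C χ w t) = t ^ 2 * (r⁻¹ - q) := by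
    rw [hq]
    ring
  rw [e0]
  rcases ht.lt_or_eq with h0 | h0
  · -- the limit
    set c := |r⁻¹ - q| + lam * ∫ o, w o ∂C.μ with hcd
    have hlim : ∀ s, 0 ≤ s → s < t → t ^ 2 * (r⁻¹ - q)
        + lam * ∫ o, min |χ (C.pt o)| t ^ 2 * w o ∂C.μ ≤ E + (t ^ 2 - s ^ 2) * c := by
      intro s hs hst
      have h1 := hlow s hs hst
      have hts : 0 ≤ t ^ 2 - s ^ 2 := by nlinarith
      have h2 : (t ^ 2 - s ^ 2) * (r⁻¹ - q) ≤ (t ^ 2 - s ^ 2) * |r⁻¹ - q| :=
        mul_le_mul_of_nonneg_left (le_abs_self _) hts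
      have h3 : ∫ o, min |χ (C.pt o)| t ^ 2 * w o ∂C.μ ≤
          ∫ o, (min |χ (C.pt o)| s ^ 2 * w o + (t ^ 2 - s ^ 2) * w o) ∂C.μ := by
        refine integral_mono_ae (i4 t ht) ((i4 s hs).add (hw.const_mul _)) ?_
        filter_upwards [w0] with o hw0
        have h4 : min |χ (C.pt o)| t ^ 2 ≤ min |χ (C.pt o)| s ^ 2 + (t ^ 2 - s ^ 2) := by
          rcases le_total |χ (C.pt o)| s with h | h
          · rw [min_eq_left h, min_eq_left (h.trans hst.le)]
            linarith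
          · rw [min_eq_right h]
            have h5 : min |χ (C.pt o)| t ^ 2 ≤ t ^ 2 :=
              pow_le_pow_left₀ (le_min (abs_nonneg _) ht) (min_le_right _ _) 2
            linarith
        have h5 := mul_le_mul_of_nonneg_right h4 hw0
        linarith
      rw [integral_add (i4 s hs) (hw.const_mul _), integral_const_mul] at h3
      have h4 := mul_le_mul_of_nonneg_left h3 hlam
      rw [hcd]
      nlinarith
    have h2 : Tendsto (fun s : ℝ => E + (t ^ 2 - s ^ 2) * c) (𝓝[<] t)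
        (𝓝 (E + (t ^ 2 - t ^ 2) * c)) :=
      (((tendsto_const_nhds.sub ((continuous_pow 2).tendsto t)).mul_const c).const_add E).mono_left
        nhdsWithin_le_nhds
    have h3 := ge_of_tendsto h2 (b := t ^ 2 * (r⁻¹ - q)
        + lam * ∫ o, min |χ (C.pt o)| t ^ 2 * w o ∂C.μ) (by
      filter_upwards [Ioo_mem_nhdsLT h0] with s hs
      exact hlim s hs.1.le hs.2)
    simpa using h3
  · have h1 : ∫ o, min |χ (C.pt o)| t ^ 2 * w o ∂C.μ = 0 := by
      have : (fun o => min |χ (C.pt o)| t ^ 2 * w o) = fun _ => 0 := by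
        funext o
        rw [← h0, min_eq_right (abs_nonneg _)]
        ring
      rw [this]
      simp
    rw [h1, ← h0]
    simpa using hE0

/-- **The weighted Hardy inequality: profile and charge function in the core, image under `v`
outside, one account `ω = ∫_{t < |g|} f` for both.** -/
theorem hardy_comp [CompactSpace M] (C : Calc M γ) (hγ : Bd γ) (hR : RegAE C)
    {v : Fin 3 → M → ℝ} (hv : Sph γ v) (hJ : ∫ o, jac C v o ∂C.μ = 2 * Real.pi) {κ ε' : ℝ}
    (hI : IsopO C κ ε') {f w w₂ : Om → ℝ} (hf : Integrable f C.μ)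
    (hfn : ∀ᵐ o ∂C.μ, nuC C v o ≤ f o) {X K lam ρ wB m₂ : ℝ} (fX : ∫ o, f o ∂C.μ ≤ X)
    (hw : Integrable w C.μ) (w0 : ∀ᵐ o ∂C.μ, 0 ≤ w o) (wf : ∀ᵐ o ∂C.μ, w o ≤ ρ * f o)
    (wb : ∀ᵐ o ∂C.μ, w o ≤ wB) (hw₂ : Integrable w₂ C.μ) (w₂0 : ∀ᵐ o ∂C.μ, 0 ≤ w₂ o)
    (w₂m : ∫ o, w₂ o ∂C.μ ≤ m₂) (hlam : 0 ≤ lam) (hρ : 0 ≤ ρ) (hK : 0 < K) {a₁ D : ℝ}
    (ha : 0 < a₁) (hA1 : 0 < a₁ - D - X) (haD : a₁ - D ≤ 2 * Real.pi + X) (hX : X < 2 * Real.pi)
    {G gg : ℝ → ℝ}
    (hG : ∀ α, a₁ - D - X ≤ α → α ≤ 2 * Real.pi + X → HasDerivAt G (-gg α) α)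
    (hgg : ∀ α, a₁ - D - X ≤ α → α ≤ 2 * Real.pi + X →
      1 / (α * (4 * Real.pi - α)) ≤ gg α - gg α ^ 2 / (2 * K))
    (hgK : ∀ α, a₁ - D - X ≤ α → α ≤ a₁ - D → gg α ≤ K)
    (hG0 : ∀ y, 0 ≤ y → y ≤ X → 0 ≤ G (2 * Real.pi + y) + K * y)
    {g : M → ℝ} (hg : Lip g) (og : EWD.OddB γ g) {R : ℝ} (hR0 : 0 ≤ R)
    (gR : ∀ᵐ o ∂C.μ, |g (C.pt o)| ≤ R) {ε δ : ℝ} (hε : 0 ≤ ε) (hδ : 0 ≤ δ) {Lam : ℝ → ℝ}
    (hL : ∀ᵐ t : ℝ, 0 < t → DifferentiableAt ℝ (lev C fun x => |g x|) t ∧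
      Lam (supa C g t - ε) ≤ deriv (lev C fun x => |g x|) t ^ 2)
    (hα : ∀ s, 0 ≤ s → a₁ ≤ supa C g s → a₁ - D - supw C g f s ≤ supw C g (jac C v) s)
    (hcert : ∀ t, 0 ≤ t → t ≤ R → supa C g t ≤ a₁ → ∃ n k,
      CoreCert C g (fun o => w o + w₂ o) Lam ε δ lam a₁ t n k ∧
      0 < G (a₁ - D - supw C g f t) + K * (X - supw C g f t) ∧
      (lam * ρ * (X - supw C g f t) + lam * supw C g w t + lam * m₂ + ∫ u in (0 : ℝ)..a₁, k u) *
        (G (a₁ - D - supw C g f t) + K * (X - supw C g f t)) < 1) :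
    lam * ∫ o, g (C.pt o) ^ 2 * (w o + w₂ o) ∂C.μ ≤
      ∫ o, gn C g o ^ 2 ∂C.μ + lam * δ * R ^ 2 := by
  have := C.fin
  have hW : Integrable (fun o => w o + w₂ o) C.μ := hw.add hw₂
  have iG := int_gn_sq C hg
  have hband : ∀ t, (∫ o in {o | t < |g (C.pt o)| ∧ |g (C.pt o)| ≤ R}, gn C g o ^ 2 ∂C.μ) +
      ∫ o in {o | |g (C.pt o)| < t}, gn C g o ^ 2 ∂C.μ ≤ ∫ o, gn C g o ^ 2 ∂C.μ := by
    intro t
    set B := {o | t < |g (C.pt o)|} with hB
    have h1 : ∫ o in {o | t < |g (C.pt o)| ∧ |g (C.pt o)| ≤ R}, gn C g o ^ 2 ∂C.μ ≤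
        ∫ o in B, gn C g o ^ 2 ∂C.μ :=
      setIntegral_mono_set iG.integrableOn (ae_of_all _ fun o => sq_nonneg _)
        (LE.le.eventuallyLE fun o ho => ho.1)
    have h2 : ∫ o in {o | |g (C.pt o)| < t}, gn C g o ^ 2 ∂C.μ ≤ ∫ o in Bᶜ, gn C g o ^ 2 ∂C.μ :=
      setIntegral_mono_set iG.integrableOn (ae_of_all _ fun o => sq_nonneg _)
        (LE.le.eventuallyLE fun o ho => not_lt.2 (le_of_lt (show |g (C.pt o)| < t from ho)))
    have h3 := integral_add_compl₀ (meas_abs_lt C hg t) iG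
    linarith
  -- the general step at a level `t`
  have step : ∀ t, 0 ≤ t → t ≤ R → supa C g t ≤ a₁ → (∀ s, 0 ≤ s → s < t → a₁ ≤ supa C g s) →
      lam * ∫ o, g (C.pt o) ^ 2 * (w o + w₂ o) ∂C.μ ≤
        ∫ o, gn C g o ^ 2 ∂C.μ + lam * δ * R ^ 2 := by
    intro t t0 tR hta hc
    obtain ⟨n, k, hcc, hr0, hr1⟩ := hcert t t0 tR hta
    have h1 := comp_in C hg gR hW t0 tR hlam hε hδ hta hL hcc
    set r0 := G (a₁ - D - supw C g f t) + K * (X - supw C g f t) with hr0'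
    set σ := lam * ρ * (X - supw C g f t) + lam * supw C g w t + lam * m₂ +
      ∫ u in (0 : ℝ)..a₁, k u with hσ
    obtain ⟨d, hd0, hd1⟩ : ∃ d, 0 < d ∧ σ * (r0 + d) ≤ 1 := by
      have hs := abs_nonneg σ
      have h8 : 0 < (1 - σ * r0) / (|σ| + 1) := div_pos (by linarith) (by linarith)
      refine ⟨(1 - σ * r0) / (|σ| + 1), h8, ?_⟩
      have h9 : (|σ| + 1) * ((1 - σ * r0) / (|σ| + 1)) = 1 - σ * r0 := by
        field_simp
      have h10 : σ * ((1 - σ * r0) / (|σ| + 1)) ≤ (|σ| + 1) * ((1 - σ * r0) / (|σ| + 1)) :=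
        mul_le_mul_of_nonneg_right (by linarith [le_abs_self σ]) h8.le
      rw [mul_add]
      linarith
    have h2 := comp_out C hγ hR hv hJ hI hf hfn fX hw w0 wf wb hlam hρ hK hA1 haD hX hG hgg hgK hG0
      hd0 hg og t0 hα hc
    have h3 : σ ≤ (r0 + d)⁻¹ := by
      rw [← one_div, le_div_iff₀ (by linarith)]
      exact hd1
    have i3 : ∀ {u : Om → ℝ}, Integrable u C.μ → Integrable (fun o => g (C.pt o) ^ 2 * u o) C.μ := by
      intro u hu
      refine hu.bdd_mul (c := R ^ 2) ((aem_pt C hg).pow_const 2).aestronglyMeasurable ?_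
      filter_upwards [gR] with o ho
      rw [Real.norm_eq_abs, abs_pow]
      exact pow_le_pow_left₀ (abs_nonneg _) ho 2
    have i4 : ∀ {u : Om → ℝ}, Integrable u C.μ →
        Integrable (fun o => min |g (C.pt o)| t ^ 2 * u o) C.μ := by
      intro u hu
      refine hu.bdd_mul (c := t ^ 2) ?_ (ae_of_all _ fun o => ?_)
      · exact (((aem_pt C (lip_abs hg)).min aemeasurable_const).pow_const 2).aestronglyMeasurable
      · rw [Real.norm_eq_abs, abs_pow, abs_of_nonneg (le_min (abs_nonneg _) t0)]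
        exact pow_le_pow_left₀ (le_min (abs_nonneg _) t0) (min_le_right _ _) 2
    have e6 : ∫ o, (g (C.pt o) ^ 2 - min |g (C.pt o)| t ^ 2) * (w o + w₂ o) ∂C.μ =
        (∫ o, g (C.pt o) ^ 2 * (w o + w₂ o) ∂C.μ) -
          ((∫ o, min |g (C.pt o)| t ^ 2 * w o ∂C.μ) + ∫ o, min |g (C.pt o)| t ^ 2 * w₂ o ∂C.μ) := by
      have i5 : Integrable (fun o => min |g (C.pt o)| t ^ 2 * w o +
          min |g (C.pt o)| t ^ 2 * w₂ o) C.μ := (i4 hw).add (i4 hw₂)
      rw [← integral_add (i4 hw) (i4 hw₂), ← integral_sub (i3 hW) i5]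
      refine integral_congr_ae (ae_of_all _ fun o => ?_)
      ring
    have e7 : ∫ o, min |g (C.pt o)| t ^ 2 * w₂ o ∂C.μ ≤ t ^ 2 * m₂ := by
      have h3 : ∫ o, min |g (C.pt o)| t ^ 2 * w₂ o ∂C.μ ≤ ∫ o, t ^ 2 * w₂ o ∂C.μ := by
        refine integral_mono_ae (i4 hw₂) (hw₂.const_mul _) ?_
        filter_upwards [w₂0] with o hw0
        exact mul_le_mul_of_nonneg_right (pow_le_pow_left₀ (le_min (abs_nonneg _) t0)
          (min_le_right _ _) 2) hw0
      rw [integral_const_mul] at h3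
      exact h3.trans (mul_le_mul_of_nonneg_left w₂m (by positivity))
    rw [e6] at h1
    have h4 := hband t
    have h5 : t ^ 2 * σ ≤ t ^ 2 * (r0 + d)⁻¹ := mul_le_mul_of_nonneg_left h3 (sq_nonneg t)
    have h6 := mul_le_mul_of_nonneg_left e7 hlam
    rw [hσ] at h5
    nlinarith
  rcases lt_or_ge (supa C g 0) a₁ with h0 | h0
  · exact step 0 le_rfl hR0 h0.le fun s h1 h2 => absurd h2 (not_lt.2 h1)
  · obtain ⟨t, t0, tR, ht1, ht2⟩ := crossing C gR ha h0
    exact step t t0 tR ht1 ht2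

end Pool.Agent.FPX
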