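import Mathlib
import Pool.Agent.FPX.VHC
import Pool.Agent.FPX.HWX

/-
VHW (helper91): the weighted Hardy inequality with side condition, certificates `HwD` (helper23) in
the core, image under `v` outside. The outer resistance enters as the effective area
`a₁ exp (κ / r)`.
-/

open MeasureTheory Set Filter Topology
open scoped ENNReal NNReal

noncomputable section

namespace Pool.Agent.FPX

open Pool.Agent.EWD Pool.Agent.FPM

variable {M : Type} [MetricSpace M] {γ : ℝ → M}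

/-- a certificate on `(0, V']` with `V' ≥ a₁ exp (κ / r)` is at most `r` at `a₁` -/
theorem hwd_cut {κ V' B b f a₁ r : ℝ} {n : ℝ → ℝ} (hκ : 0 < κ) (ha : 0 < a₁) (hr : 0 < r)
    (hV' : a₁ * Real.exp (κ / r) ≤ V') (D : HwD (fun a => κ * a) V' B n b f) :
    ∃ k : ℝ → ℝ, Continuous k ∧ (∀ a ≤ 0, k a = 0) ∧ (∀ a, 0 ≤ k a) ∧
      (∀ a, 0 < a → a ≤ a₁ →
        (n a + min (f / b * a) f + ∫ u in (0 : ℝ)..a, k u) ^ 2 ≤ κ * a * k a) ∧
      n a₁ + min (f / b * a₁) f + ∫ u in (0 : ℝ)..a₁, k u ≤ r := by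
  obtain ⟨k, ck, k0, kp, hc⟩ := D.cert
  have hexp : 1 < Real.exp (κ / r) := Real.one_lt_exp_iff.2 (by positivity)
  have haV : a₁ ≤ V' := by nlinarith
  refine ⟨k, ck, k0, kp, fun a h0 h1 => hc a h0 (h1.trans haV), ?_⟩
  set Φ : ℝ → ℝ := fun x => ∫ u in (0 : ℝ)..x, k u with hΦ
  have hΦd : ∀ x, HasDerivAt Φ (k x) x := fun x =>
    intervalIntegral.integral_hasDerivAt_right (ck.intervalIntegrable _ _)
      (ck.stronglyMeasurableAtFilter _ _) ck.continuousAt
  have hΦm : Monotone Φ := monotone_of_deriv_nonneg (fun x => (hΦd x).differentiableAt) fun x => by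
    rw [(hΦd x).deriv]
    exact kp x
  by_contra hcon
  rw [not_le] at hcon
  set m := n a₁ + min (f / b * a₁) f with hm
  have hy : ∀ a, a₁ ≤ a → r < m + Φ a := fun a h => lt_of_lt_of_le hcon (by linarith [hΦm h])
  have hfb : 0 ≤ f / b := div_nonneg D.f0 D.b0.le
  have hk : ∀ a, a₁ ≤ a → a ≤ V' → (m + Φ a) ^ 2 ≤ κ * a * k a := fun a h1 h2 => by
    refine le_trans ?_ (hc a (ha.trans_le h1) h2)
    have h3 := hy a h1
    have h4 : m + Φ a ≤ n a + min (f / b * a) f + Φ a := by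
      have h5 := D.mono h1
      have h6 : min (f / b * a₁) f ≤ min (f / b * a) f :=
        min_le_min (mul_le_mul_of_nonneg_left h1 hfb) le_rfl
      rw [hm]
      linarith
    exact pow_le_pow_left₀ (by linarith) h4 2
  have hd : ∀ a, a₁ ≤ a → HasDerivAt (fun a => -(m + Φ a)⁻¹ - κ⁻¹ * Real.log a)
      (k a / (m + Φ a) ^ 2 - κ⁻¹ * a⁻¹) a := fun a h1 => by
    have h2 : HasDerivAt (fun a => m + Φ a) (k a) a := (hΦd a).const_add m
    have h3 := hy a h1
    have h4 := (h2.fun_inv (by linarith : m + Φ a ≠ 0)).neg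
    have h5 := (Real.hasDerivAt_log (by linarith : a ≠ 0)).const_mul κ⁻¹
    refine (h4.sub h5).congr_deriv ?_
    ring
  have hmono : MonotoneOn (fun a => -(m + Φ a)⁻¹ - κ⁻¹ * Real.log a) (Icc a₁ V') := by
    refine monotoneOn_of_deriv_nonneg (convex_Icc _ _) ?_ ?_ ?_
    · intro x hx
      exact (hd x hx.1).continuousAt.continuousWithinAt
    · intro x hx
      rw [interior_Icc] at hx
      exact (hd x hx.1.le).differentiableAt.differentiableWithinAt
    · intro x hx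
      rw [interior_Icc] at hx
      rw [(hd x hx.1.le).deriv, sub_nonneg, ← mul_inv, inv_eq_one_div,
        div_le_div_iff₀ (by nlinarith [hx.1])
          (pow_pos (by have := hy x hx.1.le; linarith) 2)]
      have := hk x hx.1.le hx.2.le
      nlinarith
  have h1 := hmono ⟨le_rfl, haV⟩ ⟨haV, le_rfl⟩ haV
  dsimp only at h1
  have h2 : 0 < (m + Φ V')⁻¹ := inv_pos.2 (by linarith [hy V' haV])
  have h3 : (m + Φ a₁)⁻¹ < r⁻¹ := inv_strictAnti₀ hr hcon
  have h4 : Real.log a₁ + κ / r ≤ Real.log V' := by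
    have h5 := Real.log_le_log (by positivity) hV'
    rwa [Real.log_mul ha.ne' (Real.exp_pos _).ne', Real.log_exp] at h5
  have h5 : κ⁻¹ * (Real.log a₁ + κ / r) ≤ κ⁻¹ * Real.log V' :=
    mul_le_mul_of_nonneg_left h4 (by positivity)
  have h6 : κ⁻¹ * (Real.log a₁ + κ / r) = κ⁻¹ * Real.log a₁ + r⁻¹ := by
    field_simp
  linarith

/-- a core certificate: charge `n` (monotone, zero on the left, slope at most `B`), side charge
`(b, F)`, density `k` on `(0, a₁]`, value at most `r` at `a₁` -/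
structure CoreD (Lam : ℝ → ℝ) (a₁ B : ℝ) (n : ℝ → ℝ) (b F r : ℝ) : Prop where
  mono : Monotone n
  zero : ∀ a ≤ 0, n a = 0
  lip : ∀ x y, x ≤ y → n y ≤ n x + B * (y - x)
  b0 : 0 < b
  f0 : 0 ≤ F
  fb : F / b ≤ B
  cert : ∃ k : ℝ → ℝ, Continuous k ∧ (∀ a ≤ 0, k a = 0) ∧ (∀ a, 0 ≤ k a) ∧
    (∀ a, 0 < a → a ≤ a₁ →
      (n a + min (F / b * a) F + ∫ u in (0 : ℝ)..a, k u) ^ 2 ≤ Lam a * k a) ∧
    n a₁ + min (F / b * a₁) F + ∫ u in (0 : ℝ)..a₁, k u ≤ r

theorem CoreD.of_hwd {κ V' B b F a₁ r : ℝ} {n : ℝ → ℝ} (hκ : 0 < κ) (ha : 0 < a₁) (hr : 0 < r)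
    (hV' : a₁ * Real.exp (κ / r) ≤ V') (D : HwD (fun a => κ * a) V' B n b F) :
    CoreD (fun a => κ * a) a₁ B n b F r :=
  ⟨D.mono, D.zero, D.lip, D.b0, D.f0, D.fb, hwd_cut hκ ha hr hV' D⟩

/-- the data of a map `v` for the Hardy inequality with the image of `v`: penalty density `f`,
weight `w`, account `X`, ratio `ρ` -/
structure VDat (C : Calc M γ) (v : Fin 3 → M → ℝ) (f w : Om → ℝ) (X ρ : ℝ) : Prop where
  sph : Sph γ v
  deg : ∫ o, jac C v o ∂C.μ = 2 * Real.pi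
  fint : Integrable f C.μ
  fnu : ∀ᵐ o ∂C.μ, nuC C v o ≤ f o
  fX : ∫ o, f o ∂C.μ ≤ X
  wint : Integrable w C.μ
  w0 : ∀ᵐ o ∂C.μ, 0 ≤ w o
  wf : ∀ᵐ o ∂C.μ, w o ≤ ρ * f o
  wb : ∃ wB : ℝ, ∀ᵐ o ∂C.μ, w o ≤ wB
  ρ0 : 0 ≤ ρ

/-- the numbers for the outer region: area `a₁` of the core, deficit `D`, resistance
`G (α) + K (X - ω)` -/
structure VNum (X K a₁ D : ℝ) (G gg : ℝ → ℝ) : Prop where
  K0 : 0 < K
  a0 : 0 < a₁
  A1 : 0 < a₁ - D - X
  haD : a₁ - D ≤ 2 * Real.pi + X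
  hX : X < 2 * Real.pi
  hG : ∀ α, a₁ - D - X ≤ α → α ≤ 2 * Real.pi + X → HasDerivAt G (-gg α) α
  hgg : ∀ α, a₁ - D - X ≤ α → α ≤ 2 * Real.pi + X →
    1 / (α * (4 * Real.pi - α)) ≤ gg α - gg α ^ 2 / (2 * K)
  hgK : ∀ α, a₁ - D - X ≤ α → α ≤ a₁ - D → gg α ≤ K
  hG0 : ∀ y, 0 ≤ y → y ≤ X → 0 ≤ G (2 * Real.pi + y) + K * y

/-- **Weighted Hardy inequality with side condition, image of `v` outside.** For every core `T` of
area at most `a₁`: a charge `n` of `4 w` on the subsets of `T`, a core certificate with value `r`, and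
`(4 ρ (X - ω) + (min (4 ρ ω) (n a₁) - n a₁) + r) (G (a₁ - D - ω) + K (X - ω)) < 1` with
`ω = ∫_T f`. -/
theorem vhw_core [CompactSpace M] (C : Calc M γ) (hγ : Bd γ) (hR : RegAE C)
    {v : Fin 3 → M → ℝ} {f w : Om → ℝ} {X ρ : ℝ} (hv : VDat C v f w X ρ) {κ ε B K a₁ D b F : ℝ}
    {Lam : ℝ → ℝ} (hL : LevO C Lam ε) (hI : IsopO C κ ε) (hε : 0 ≤ ε) {G gg : ℝ → ℝ} (hN : VNum X K a₁ D G gg)
    (hba : b ≤ a₁)
    (hα : ∀ g : M → ℝ, Lip g → ∀ s, 0 ≤ s → a₁ ≤ supa C g s →
      a₁ - D - supw C g f s ≤ supw C g (jac C v) s)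
    (hcert : ∀ T, NullMeasurableSet T C.μ → C.μ.real T ≤ a₁ → ∃ (n : ℝ → ℝ) (r : ℝ),
      CoreD Lam a₁ B n b F r ∧
      (∀ S, NullMeasurableSet S C.μ → S ⊆ T → 4 * ∫ o in S, w o ∂C.μ ≤ n (C.μ.real S)) ∧
      0 < G (a₁ - D - ∫ o in T, f o ∂C.μ) + K * (X - ∫ o in T, f o ∂C.μ) ∧
      (4 * ρ * (X - ∫ o in T, f o ∂C.μ) +
          (min (4 * ρ * ∫ o in T, f o ∂C.μ) (n a₁) - n a₁) + r) *
        (G (a₁ - D - ∫ o in T, f o ∂C.μ) + K * (X - ∫ o in T, f o ∂C.μ)) < 1)
    {R : ℝ} (hR0 : 0 ≤ R) {g : M → ℝ} (hg : Lip g) (og : EWD.OddB γ g) (gR : ∀ x, |g x| ≤ R)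
    {t : ℝ} (ht : 0 ≤ t) (hS : b ≤ C.μ.real {o | t < |g (C.pt o)|}) :
    4 * ∫ o, w o * g (C.pt o) ^ 2 ∂C.μ + F * t ^ 2 ≤
      ∫ o, gn C g o ^ 2 ∂C.μ + 2 * B * ε * R ^ 2 := by
  have := C.fin
  obtain ⟨wB, wb⟩ := hv.wb
  have f0 : ∀ᵐ o ∂C.μ, 0 ≤ f o := by
    filter_upwards [hv.fnu] with o ho
    exact (nuv_nonneg _ _ _).trans ho
  have hf0 : ∀ s, 0 ≤ supw C g f s := fun s => setIntegral_nonneg_of_ae f0
  have hfX : ∀ s, supw C g f s ≤ X := fun s => (setIntegral_le_integral hv.fint f0).trans hv.fX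
  have hX0 : 0 ≤ X := (hf0 0).trans (hfX 0)
  -- general facts on the side charge
  obtain ⟨n₀, r₀, D₀, -, -, -⟩ := hcert ∅ MeasurableSet.empty.nullMeasurableSet
    (by simpa using hN.a0.le)
  have hb0 := D₀.b0
  have hF0 := D₀.f0
  have hFb := D₀.fb
  have hFb0 : 0 ≤ F / b := div_nonneg hF0 hb0.le
  set S := {o | t < |g (C.pt o)|} with hSd
  have mS : NullMeasurableSet S C.μ := meas_abs_lt C hg t
  have hSp : 0 < C.μ.real S := hb0.trans_le hS
  set w₂ : Om → ℝ := S.indicator (fun _ => F / C.μ.real S) with hw₂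
  have iw₂ : Integrable w₂ C.μ := (integrable_const _).indicator₀ mS
  have w₂0 : ∀ o, 0 ≤ w₂ o := fun o => indicator_nonneg (fun _ _ => by positivity) o
  have w₂m : ∫ o, w₂ o ∂C.μ ≤ F := by
    rw [hw₂, integral_indicator₀ mS, setIntegral_const, smul_eq_mul]
    have : C.μ.real S * (F / C.μ.real S) = F := by field_simp
    exact this.le
  have w₂s : ∀ s, supw C g w₂ s ≤ F / b * supa C g s := fun s => by
    have h1 : ∀ o, w₂ o ≤ F / b := fun o => by
      rw [hw₂]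
      by_cases ho : o ∈ S
      · rw [indicator_of_mem ho]
        exact div_le_div_of_nonneg_left hF0 hb0 hS
      · rw [indicator_of_notMem ho]
        exact hFb0
    have h2 : ∫ o in {o | s < |g (C.pt o)|}, w₂ o ∂C.μ ≤ ∫ _ in {o | s < |g (C.pt o)|}, F / b ∂C.μ :=
      integral_mono iw₂.integrableOn (integrable_const _).integrableOn h1
    rw [setIntegral_const, smul_eq_mul] at h2
    have h3 : supa C g s = C.μ.real {o | s < |g (C.pt o)|} := rfl
    have h4 : supw C g w₂ s = ∫ o in {o | s < |g (C.pt o)|}, w₂ o ∂C.μ := rfl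
    rw [h3, h4]
    linarith
  have w₂s' : ∀ s, supw C g w₂ s ≤ F := fun s =>
    (setIntegral_le_integral iw₂ (ae_of_all _ w₂0)).trans w₂m
  have key := hardy_comp C hγ hR hv.sph hv.deg hI hv.fint hv.fnu (w := fun o => 4 * w o) (w₂ := w₂)
    (X := X) (K := K) (lam := 1) (ρ := 4 * ρ) (wB := 4 * wB) (m₂ := F) (a₁ := a₁) (D := D) (G := G)
    (gg := gg) (g := g) (R := R) (ε := ε) (δ := 2 * B * ε) (Lam := Lam) hv.fX
    (hv.wint.const_mul 4)
    (by filter_upwards [hv.w0] with o ho; linarith)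
    (by filter_upwards [hv.wf] with o ho; linarith)
    (by filter_upwards [wb] with o ho; linarith)
    iw₂ (ae_of_all _ w₂0) w₂m zero_le_one (by linarith [hv.ρ0]) hN.K0 hN.a0 hN.A1 hN.haD hN.hX hN.hG
    hN.hgg hN.hgK hN.hG0 hg og hR0 (ae_of_all _ fun o => gR (C.pt o)) hε
    (by have : 0 ≤ B := hFb0.trans hFb; positivity) (hL g hg og) (hα g hg) (by
      intro t' ht' _ hta
      obtain ⟨n, r, Dn, hq, hp0, hp1⟩ := hcert {o | t' < |g (C.pt o)|} (meas_abs_lt C hg t') hta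
      obtain ⟨k, ck, k0, kp, hc, hk⟩ := Dn.cert
      refine ⟨fun a => n a + max 0 (min (F / b * a) F), k, ⟨?_, ?_, ck, k0, kp, ?_, ?_⟩, hp0, ?_⟩
      · intro x y hxy
        exact add_le_add (Dn.mono hxy) (max_le_max le_rfl
          (min_le_min (mul_le_mul_of_nonneg_left hxy hFb0) le_rfl))
      · intro a ha
        have h1 : min (F / b * a) F ≤ 0 :=
          min_le_of_left_le (mul_nonpos_of_nonneg_of_nonpos hFb0 ha)
        change n a + max 0 (min (F / b * a) F) = 0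
        rw [Dn.zero a ha, max_eq_left h1, add_zero]
      · intro s _ hts
        have e1 : supw C g (fun o => 4 * w o + w₂ o) s =
            4 * (∫ o in {o | s < |g (C.pt o)|}, w o ∂C.μ) + supw C g w₂ s := by
          unfold supw
          rw [integral_add (hv.wint.const_mul 4).integrableOn iw₂.integrableOn, integral_const_mul]
        rw [e1]
        have h1 := hq {o | s < |g (C.pt o)|} (meas_abs_lt C hg s) fun o ho => hts.trans_lt ho
        have h2 := Dn.lip (supa C g s - ε) (supa C g s) (by linarith)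
        have h3 : supa C g s = C.μ.real {o | s < |g (C.pt o)|} := rfl
        rw [← h3] at h1
        have h4 : supw C g w₂ s ≤ max 0 (min (F / b * (supa C g s - ε)) F) + F / b * ε := by
          have h5 : 0 ≤ F / b * ε := by positivity
          have h6 := w₂s s
          have h7 := w₂s' s
          have h8 : min (F / b * (supa C g s - ε)) F ≤ max 0 (min (F / b * (supa C g s - ε)) F) :=
            le_max_right _ _
          rcases min_choice (F / b * (supa C g s - ε)) F with h | h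
          · rw [h] at h8 ⊢
            have h9 : F / b * (supa C g s - ε) = F / b * supa C g s - F / b * ε := by ring
            linarith
          · rw [h] at h8 ⊢
            linarith
        have h5 : F / b * ε ≤ B * ε := mul_le_mul_of_nonneg_right hFb hε
        have h6 : B * (supa C g s - (supa C g s - ε)) = B * ε := by ring
        rw [h6] at h2
        linarith
      · intro a h0 h1
        have h2 : max 0 (min (F / b * a) F) = min (F / b * a) F :=
          max_eq_right (le_min (by positivity) hF0)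
        rw [one_mul, h2]
        exact hc a h0 h1
      · have h2 : min (F / b * a₁) F = F := by
          refine min_eq_right ?_
          rw [div_mul_eq_mul_div, le_div_iff₀ hb0]
          exact mul_le_mul_of_nonneg_left hba hF0
        rw [h2] at hk
        have h4 : supw C g (fun o => 4 * w o) t' ≤ n a₁ := by
          have h5 := hq {o | t' < |g (C.pt o)|} (meas_abs_lt C hg t') le_rfl
          have h6 : n (C.μ.real {o | t' < |g (C.pt o)|}) ≤ n a₁ := Dn.mono hta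
          unfold supw
          rw [integral_const_mul]
          linarith
        have h5 : supw C g (fun o => 4 * w o) t' ≤ 4 * ρ * supw C g f t' := by
          have k2 : ∫ o in {o | t' < |g (C.pt o)|}, w o ∂C.μ ≤
              ∫ o in {o | t' < |g (C.pt o)|}, ρ * f o ∂C.μ :=
            setIntegral_mono_ae hv.wint.integrableOn (hv.fint.const_mul ρ).integrableOn hv.wf
          rw [integral_const_mul] at k2
          unfold supw
          rw [integral_const_mul]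
          linarith
        have h6 := le_min h5 h4
        have e4 : supw C g f t' = ∫ o in {o | t' < |g (C.pt o)|}, f o ∂C.μ := rfl
        rw [e4] at h6 ⊢
        have h3 : 1 * (4 * ρ) * (X - ∫ o in {o | t' < |g (C.pt o)|}, f o ∂C.μ) +
            1 * supw C g (fun o => 4 * w o) t' + 1 * F + ∫ u in (0 : ℝ)..a₁, k u ≤
            4 * ρ * (X - ∫ o in {o | t' < |g (C.pt o)|}, f o ∂C.μ) +
              (min (4 * ρ * ∫ o in {o | t' < |g (C.pt o)|}, f o ∂C.μ) (n a₁) - n a₁) + r := by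
          linarith
        exact lt_of_le_of_lt (mul_le_mul_of_nonneg_right h3 hp0.le) hp1)
  have e1 : 1 * ∫ o, g (C.pt o) ^ 2 * (4 * w o + w₂ o) ∂C.μ =
      4 * (∫ o, w o * g (C.pt o) ^ 2 ∂C.μ) + ∫ o, g (C.pt o) ^ 2 * w₂ o ∂C.μ := by
    have i3 : ∀ {u : Om → ℝ}, Integrable u C.μ → Integrable (fun o => g (C.pt o) ^ 2 * u o) C.μ := by
      intro u hu
      refine hu.bdd_mul (c := R ^ 2) ((aem_pt C hg).pow_const 2).aestronglyMeasurable ?_
      refine ae_of_all _ fun o => ?_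
      rw [Real.norm_eq_abs, abs_pow]
      exact pow_le_pow_left₀ (abs_nonneg _) (gR _) 2
    have i5 : Integrable (fun o => w o * g (C.pt o) ^ 2) C.μ :=
      (i3 hv.wint).congr (ae_of_all _ fun o => mul_comm _ _)
    rw [one_mul, ← integral_const_mul, ← integral_add (i5.const_mul 4) (i3 iw₂)]
    refine integral_congr_ae (ae_of_all _ fun o => ?_)
    ring
  have e2 : F * t ^ 2 ≤ ∫ o, g (C.pt o) ^ 2 * w₂ o ∂C.μ := by
    have h1 : ∫ o, S.indicator (fun _ => t ^ 2 * (F / C.μ.real S)) o ∂C.μ ≤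
        ∫ o, g (C.pt o) ^ 2 * w₂ o ∂C.μ := by
      have i3 : Integrable (fun o => g (C.pt o) ^ 2 * w₂ o) C.μ := by
        refine iw₂.bdd_mul (c := R ^ 2) ((aem_pt C hg).pow_const 2).aestronglyMeasurable ?_
        refine ae_of_all _ fun o => ?_
        rw [Real.norm_eq_abs, abs_pow]
        exact pow_le_pow_left₀ (abs_nonneg _) (gR _) 2
      refine integral_mono ((integrable_const _).indicator₀ mS) i3 fun o => ?_
      change S.indicator (fun _ => t ^ 2 * (F / C.μ.real S)) o ≤ g (C.pt o) ^ 2 * w₂ o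
      rw [hw₂]
      by_cases ho : o ∈ S
      · rw [indicator_of_mem ho, indicator_of_mem ho]
        have h2 : t < |g (C.pt o)| := ho
        have h3 : t ^ 2 ≤ g (C.pt o) ^ 2 := by
          rw [← sq_abs (g (C.pt o))]
          exact pow_le_pow_left₀ ht h2.le 2
        exact mul_le_mul_of_nonneg_right h3 (by positivity)
      · rw [indicator_of_notMem ho, indicator_of_notMem ho, mul_zero]
    rw [integral_indicator₀ mS, setIntegral_const, smul_eq_mul] at h1
    have h2 : C.μ.real S * (t ^ 2 * (F / C.μ.real S)) = F * t ^ 2 := by field_simp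
    linarith
  rw [e1] at key
  linarith

/-- the form with `HwD` certificates on `(0, a₁ exp (κ / r)]` and the charge only depending on
the account `ω` in the core -/
theorem vhw_side [CompactSpace M] (C : Calc M γ) (hγ : Bd γ) (hR : RegAE C)
    {v : Fin 3 → M → ℝ} {f w : Om → ℝ} {X ρ : ℝ} (hv : VDat C v f w X ρ) {κ ε B K a₁ D b F : ℝ}
    (hκ : 0 < κ) (hI : IsopO C κ ε) (hε : 0 ≤ ε) {G gg : ℝ → ℝ} (hN : VNum X K a₁ D G gg)
    (hba : b ≤ a₁)
    (hα : ∀ g : M → ℝ, Lip g → ∀ s, 0 ≤ s → a₁ ≤ supa C g s →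
      a₁ - D - supw C g f s ≤ supw C g (jac C v) s)
    (hcert : ∀ ω, 0 ≤ ω → ω ≤ X → ∃ (n : ℝ → ℝ) (r : ℝ), 0 < r ∧
      HwD (fun a => κ * a) (a₁ * Real.exp (κ / r)) B n b F ∧
      (∀ S, NullMeasurableSet S C.μ → ∫ o in S, f o ∂C.μ ≤ ω → 4 * ∫ o in S, w o ∂C.μ ≤
        n (C.μ.real S)) ∧
      0 < G (a₁ - D - ω) + K * (X - ω) ∧
      (4 * ρ * (X - ω) + (min (4 * ρ * ω) (n a₁) - n a₁) + r) *
        (G (a₁ - D - ω) + K * (X - ω)) < 1)
    {R : ℝ} (hR0 : 0 ≤ R) {g : M → ℝ} (hg : Lip g) (og : EWD.OddB γ g) (gR : ∀ x, |g x| ≤ R)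
    {t : ℝ} (ht : 0 ≤ t) (hS : b ≤ C.μ.real {o | t < |g (C.pt o)|}) :
    4 * ∫ o, w o * g (C.pt o) ^ 2 ∂C.μ + F * t ^ 2 ≤
      ∫ o, gn C g o ^ 2 ∂C.μ + 2 * B * ε * R ^ 2 := by
  have := C.fin
  have f0 : ∀ᵐ o ∂C.μ, 0 ≤ f o := by
    filter_upwards [hv.fnu] with o ho
    exact (nuv_nonneg _ _ _).trans ho
  refine vhw_core C hγ hR hv (LevO.of_isop hI) hI hε hN hba hα (fun T mT _ => ?_) hR0 hg og gR ht hS
  obtain ⟨n, r, hr, Dn, hq, hp0, hp1⟩ := hcert (∫ o in T, f o ∂C.μ)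
    (setIntegral_nonneg_of_ae f0) ((setIntegral_le_integral hv.fint f0).trans hv.fX)
  refine ⟨n, r, CoreD.of_hwd hκ hN.a0 hr le_rfl Dn, fun S mS hST => hq S mS ?_, hp0, hp1⟩
  exact setIntegral_mono_set hv.fint.integrableOn (ae_restrict_of_ae f0) hST.eventuallyLE

end Pool.Agent.FPX
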