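import Mathlib
import Pool.Agent.FPX.KGD
import Pool.Agent.FPX.VHW

/-
KGL (helper58): from an admissible pair (`AdmK`) to the data of the weighted inequality with the image of
`v` (`VDat`), and `Hv`, `HSv` from `vhw_side` (helper91). The inequality without side condition follows
from the same certificates.
-/

open MeasureTheory Set Filter Topology
open scoped ENNReal NNReal

noncomputable section

namespace Pool.Agent.FPX

open Pool.Agent.EWD Pool.Agent.FPM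

/-- the side charge may be dropped, then `b` is free -/
theorem HwD.drop {Lam : ℝ → ℝ} {V B : ℝ} {n : ℝ → ℝ} {b f : ℝ} (h : HwD Lam V B n b f) {b' : ℝ}
    (hb' : 0 < b') : HwD Lam V B n b' 0 := by
  obtain ⟨k, ck, k0, kp, hc⟩ := h.cert
  have hB : 0 ≤ B := (div_nonneg h.f0 h.b0.le).trans h.fb
  refine ⟨h.mono, h.zero, h.lip, hb', le_rfl, by rw [zero_div]; exact hB, k, ck, k0, kp, ?_⟩
  intro a ha haV
  refine le_trans ?_ (hc a ha haV)
  have h1 : 0 ≤ n a := by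
    have := h.mono ha.le
    rw [h.zero 0 le_rfl] at this
    exact this
  have h2 : 0 ≤ ∫ u in (0 : ℝ)..a, k u :=
    intervalIntegral.integral_nonneg ha.le fun u _ => kp u
  have h3 : 0 ≤ min (f / b * a) f :=
    le_min (mul_nonneg (div_nonneg h.f0 h.b0.le) ha.le) h.f0
  have h4 : min (0 / b' * a) (0 : ℝ) = 0 := by simp
  rw [h4]
  exact pow_le_pow_left₀ (by linarith) (by linarith) 2

variable {M : Type} [MetricSpace M] {γ : ℝ → M}

variable [CompactSpace M]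

/-- the data of the weighted inequality -/
theorem vdat_of_adm (C : Calc M γ) {φ φ' G W Wm : ℝ → ℝ} {sφ Lφ Ee c₀ X εA cm c X' ρ : ℝ}
    {v : Fin 3 → M → ℝ} (P : Pen φ φ' sφ Lφ) (hA : AdmK C φ G Ee c₀ X εA cm c v) (hX' : X - G c ≤ X')
    (hW : WOk W Wm) (hρ : 0 ≤ ρ) (hWφ : ∀ x, 0 ≤ x → W x ≤ ρ * φ x) :
    VDat C v (fun o => φ (nuC C v o)) (wK C W v (2 * Real.exp c ^ 2)) X' ρ where
  sph := hA.sph
  deg := hA.deg
  fint := nuC_cint C hA.sph.lip P.cont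
  fnu := ae_of_all _ fun o => P.ge _ (nuv_nonneg _ _ _)
  fX := by
    have h1 : ∫ o, φ (nuC C v o) ∂C.μ = Ph C φ v := rfl
    rw [h1]
    linarith [hA.tot]
  wint := wG_int C hW.cont hA.sph.lip _
  w0 := ae_of_all _ fun o => le_min (hW.nonneg _ (nuv_nonneg _ _ _)) (hW.nonneg _ (by positivity))
  wf := ae_of_all _ fun o => (min_le_left _ _).trans (hWφ _ (nuv_nonneg _ _ _))
  wb := ⟨W (2 * Real.exp c ^ 2), ae_of_all _ fun o => min_le_right _ _⟩
  ρ0 := hρ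

/-- the conditions on the numbers and the charge for one value of the account -/
def VCert (C : Calc M γ) (f w : Om → ℝ) (κ B ρ X K a₁ D b F : ℝ) (G : ℝ → ℝ) : Prop :=
  ∀ ω, 0 ≤ ω → ω ≤ X → ∃ (n : ℝ → ℝ) (r : ℝ), 0 < r ∧
    HwD (fun a => κ * a) (a₁ * Real.exp (κ / r)) B n b F ∧
    (∀ S, NullMeasurableSet S C.μ → ∫ o in S, f o ∂C.μ ≤ ω → 4 * ∫ o in S, w o ∂C.μ ≤
      n (C.μ.real S)) ∧
    0 < G (a₁ - D - ω) + K * (X - ω) ∧
    (4 * ρ * (X - ω) + (min (4 * ρ * ω) (n a₁) - n a₁) + r) *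
      (G (a₁ - D - ω) + K * (X - ω)) < 1

omit [CompactSpace M] in
theorem VCert.drop {C : Calc M γ} {f w : Om → ℝ} {κ B ρ X K a₁ D b F : ℝ} {G : ℝ → ℝ}
    (h : VCert C f w κ B ρ X K a₁ D b F G) {b' : ℝ} (hb' : 0 < b') :
    VCert C f w κ B ρ X K a₁ D b' 0 G := by
  intro ω h0 h1
  obtain ⟨n, r, hr, hD, hq, hp0, hp1⟩ := h ω h0 h1
  exact ⟨n, r, hr, hD.drop hb', hq, hp0, hp1⟩

/-- the inequality without side condition -/
theorem hv_of_vhw (C : Calc M γ) (hγ : Bd γ) (hR : RegAE C) {v : Fin 3 → M → ℝ} {f w : Om → ℝ}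
    {X ρ : ℝ} (hv : VDat C v f w X ρ) {κ ε B K a₁ D b F δ : ℝ}
    (hκ : 0 < κ) (hI : IsopO C κ ε) (hε : 0 ≤ ε) {G gg : ℝ → ℝ} (hN : VNum X K a₁ D G gg)
    (hα : ∀ g : M → ℝ, Lip g → ∀ s, 0 ≤ s → a₁ ≤ supa C g s →
      a₁ - D - supw C g f s ≤ supw C g (jac C v) s)
    (hcert : VCert C f w κ B ρ X K a₁ D b F G) (hδ : 128 * B * ε ≤ δ) : Hv C w δ := by
  intro g hg ho hb
  have := C.fin
  have ha0 := hN.a0
  have hX0 : 0 ≤ X := by
    have f0 : ∀ᵐ o ∂C.μ, 0 ≤ f o := by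
      filter_upwards [hv.fnu] with o ho
      exact (nuv_nonneg _ _ _).trans ho
    exact (integral_nonneg_of_ae f0).trans hv.fX
  have hB0 : 0 ≤ B := by
    obtain ⟨n, r, -, D₀, -, -, -⟩ := hcert X hX0 le_rfl
    exact (div_nonneg D₀.f0 D₀.b0.le).trans D₀.fb
  rcases eq_or_lt_of_le (measureReal_nonneg (μ := C.μ) (s := {o | 0 < |g (C.pt o)|})) with h0 | h0
  · -- `g = 0` almost everywhere
    have h1 : ∀ᵐ o ∂C.μ, g (C.pt o) = 0 := by
      have h2 : C.μ {o | 0 < |g (C.pt o)|} = 0 := by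
        rw [Measure.real] at h0
        rcases (ENNReal.toReal_eq_zero_iff _).1 h0.symm with h | h
        · exact h
        · exact absurd h (measure_ne_top _ _)
      rw [ae_iff]
      refine measure_mono_null (fun o ho' => ?_) h2
      exact abs_pos.2 ho'
    have h2 : ∫ o, w o * g (C.pt o) ^ 2 ∂C.μ = 0 := by
      rw [← integral_zero Om ℝ (μ := C.μ)]
      refine integral_congr_ae ?_
      filter_upwards [h1] with o ho'
      rw [ho']
      ring
    rw [h2, mul_zero]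
    have h3 : 0 ≤ ∫ o, gn C g o ^ 2 ∂C.μ := integral_nonneg fun o => sq_nonneg _
    have h4 : 0 ≤ 128 * B * ε := by positivity
    linarith
  · set b' := min a₁ (C.μ.real {o | 0 < |g (C.pt o)|}) with hb'
    have hb'0 : 0 < b' := lt_min ha0 h0
    have key := vhw_side C hγ hR hv (b := b') (F := 0) hκ hI hε hN (min_le_left _ _) hα
      (hcert.drop hb'0) (R := 8) (by norm_num) hg ho hb (t := 0) le_rfl (min_le_right _ _)
    have e : 2 * B * ε * (8 : ℝ) ^ 2 = 128 * B * ε := by ring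
    rw [e] at key
    linarith

/-- **both inequalities for one admissible pair** -/
theorem hsv_of_vhw (C : Calc M γ) (hγ : Bd γ) (hR : RegAE C) {v : Fin 3 → M → ℝ} {f w : Om → ℝ}
    {X ρ : ℝ} (hv : VDat C v f w X ρ) {κ ε B K a₁ D b F δ c k L σ s : ℝ}
    (hκ : 0 < κ) (hI : IsopO C κ ε) (hε : 0 ≤ ε) {G gg : ℝ → ℝ} (hN : VNum X K a₁ D G gg)
    (hba : b ≤ a₁)
    (hα : ∀ g : M → ℝ, Lip g → ∀ s, 0 ≤ s → a₁ ≤ supa C g s →
      a₁ - D - supw C g f s ≤ supw C g (jac C v) s)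
    (hcert : VCert C f w κ B ρ X K a₁ D b F G) (hδ : 128 * B * ε ≤ δ)
    (hs : 0 < s) (hsσ : s < σ) (hc : 0 < c) (hk : 0 ≤ k)
    (hkf : k ≤ 2 * (1 - Real.exp (-c)) * F * s ^ 2)
    (hb : b ≤ κ * ((σ - s) * (1 - Real.exp (-c))) ^ 2 / (4 * L ^ 2)) :
    Hv C w δ ∧ HSv C w κ k L c δ ε σ := by
  have h1 := hv_of_vhw C hγ hR hv hκ hI hε hN hα hcert hδ
  refine ⟨h1, HSv_of_f C hs hsσ hc hk hkf hκ.le h1 ?_⟩
  intro g hg ho hgb t ht hm
  have hq : 0 ≤ 1 - Real.exp (-c) := by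
    have : Real.exp (-c) < 1 := by
      rw [← Real.exp_zero]
      exact Real.exp_lt_exp.mpr (by linarith)
    linarith
  have key := vhw_side C hγ hR hv hκ hI hε hN hba hα hcert (R := 8) (by norm_num) hg ho hgb
    (t := t) ((mul_nonneg hs.le hq).trans ht) (by linarith)
  have e : 2 * B * ε * (8 : ℝ) ^ 2 = 128 * B * ε := by ring
  rw [e] at key
  linarith

end Pool.Agent.FPX
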