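import Mathlib

/-
CBD (helper58): all computable definitions of the closing table (VTB, VTC: helper94; VT2, CL2:
helper99; PNQ, CLN, CLF, CLG: helper58) in one file without analysis, so that the data modules do not
wait for the rest. The definitions are unchanged.
-/

namespace Pool.Agent.FPX.VTB

/-- fixed point lower bound, scale `10 ^ 12` -/
def nL : ℕ → ℕ → ℕ → ℕ
  | 0, _, _ => 1000000000000
  | n + 1, k, t => 1000000000000 + t * nL n (k + 1) t / (k * 1000000000000)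

/-- fixed point upper bound, scale `10 ^ 12` -/
def nU : ℕ → ℕ → ℕ → ℕ
  | 0, _, t => 1000000000000 + (t / 10 + 1)
  | n + 1, k, t => 1000000000000 + (t * nU n (k + 1) t / (k * 1000000000000) + 1)

/-- square, rounded down -/
def sqL (y : ℕ) : ℕ := y * y / 1000000000000

/-- square, rounded up -/
def sqU (y : ℕ) : ℕ := y * y / 1000000000000 + 1

/-- `x / 16` in fixed point, rounded down -/
def tl (x : ℚ) : ℕ := x.num.natAbs * 1000000000000 / (16 * x.den)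

/-- fixed point lower bound of `exp x`, `x ≥ 0` -/
def eL0 (x : ℚ) : ℕ := sqL (sqL (sqL (sqL (nL 10 1 (tl x)))))

/-- fixed point upper bound of `exp x`, `0 ≤ x ≤ 15` -/
def eU0 (x : ℚ) : ℕ := sqU (sqU (sqU (sqU (nU 10 1 (tl x + 1)))))

/-- rational lower bound of `exp` at a nonnegative number -/
def exLo (x : ℚ) : ℚ := (eL0 x : ℚ) / 1000000000000

/-- rational upper bound of `exp` on `[0, 15]` -/
def exUp (x : ℚ) : ℚ := (eU0 x : ℚ) / 1000000000000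

/-- rational upper bound of `exp x` for `x ≤ 15` -/
def eU (x : ℚ) : ℚ :=
  if 0 ≤ x then exUp x
  else ((1000000000000 * 1000000000000 / eL0 (-x) + 1 : ℕ) : ℚ) / 1000000000000

/-- rational lower bound of `exp x` -/
def eL (x : ℚ) : ℚ :=
  if 0 ≤ x then exLo x
  else if -15 ≤ x then ((1000000000000 * 1000000000000 / eU0 (-x) : ℕ) : ℚ) / 1000000000000
  else 0

/-- certificate of `log y ≤ L` -/
def lgOk (y L : ℚ) : Bool := decide (0 < y ∧ 0 ≤ L ∧ y ≤ exLo L)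

/-- the parameters -/
structure Par where
  κ : ℚ
  ρ : ℚ
  X : ℚ
  K : ℚ
  cG : ℚ
  a1 : ℚ
  D : ℚ
  b : ℚ
  F : ℚ
  N : ℚ

/-- upper bound of `imh0` -/
def hUp (A : ℚ) : ℚ := 1 / (A * (4 * 3.141592 - A))

/-- the conditions on the parameters -/
def parOk (p : Par) : Bool :=
  decide (0 < p.κ ∧ 0 ≤ p.ρ ∧ 0 ≤ p.X ∧ 0 < p.K ∧ 0 < p.cG ∧ 0 < p.a1 ∧ 0 < p.a1 - p.D - p.X ∧
    p.a1 - p.D ≤ 157 / 25 ∧ 0 < p.b ∧ p.b ≤ p.a1 ∧ 0 ≤ p.F ∧ 0 < p.N ∧ 0 ≤ p.D ∧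
    p.cG * hUp (p.a1 - p.D - p.X) ≤ 1 ∧
    (1 + p.cG * hUp (p.a1 - p.D - p.X)) ^ 2 ≤ 2 * p.cG * p.K)

/-- upper bound of `imG` at `α` -/
def gUp (c α lG : ℚ) : ℚ :=
  (1 + c / (8 * 3.141592 ^ 2)) * (lG / (4 * 3.141592)) +
    c / (16 * 3.141592 ^ 2) * (α⁻¹ - (4 * 3.141593 - α)⁻¹)

/-- the conditions for `c` with `xl ≤ exp c ≤ xu`, cost slope at most `k`, energy factor of the class
at most `se ^ 2` -/
def cellOk (p : Par) (σ s xl xu k se : ℚ) : Bool :=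
  decide (0 < s ∧ s < σ ∧ 1 < xl ∧ xl ≤ xu ∧ 0 ≤ k ∧ k ≤ 2 * (1 - 1 / xl) * p.F * s ^ 2 ∧
    p.b * (8 * (se * xu + 1) ^ 2) ≤ p.κ * ((σ - s) * (1 - 1 / xl)) ^ 2)

/-- one interval of areas: `d = log (β (j+1) / β j)`, numbers `x`, `s` -/
structure HJ where
  d : ℚ
  x : ℚ
  s : ℚ

/-- the total length -/
def hT : List HJ → ℚ
  | [] => 0
  | h :: js => h.d + hT js

/-- rational bound of the number in `hct_main` -/
def hsQ (κ a1 l f : ℚ) : List HJ → ℚ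
  | [] => 0
  | h :: js => (1 - eL (-h.x) * (1 + h.x) + eU (-h.x) * f / κ) * h.d +
      eU (-h.x) * h.s / κ * (a1 * (eU (l - hT js) - eL (l - hT js - h.d))) + hsQ κ a1 l f js

/-- rational bound of the pointwise sum -/
def hgQ (κ L : ℚ) : List HJ → ℚ
  | [] => 0
  | h :: js => eU (-h.x) / κ * h.d * max (L - h.s) 0 + hgQ κ L js

/-- the conditions on the list -/
def hjOk (N l : ℚ) : List HJ → Bool
  | [] => true
  | h :: js => decide (0 ≤ h.d ∧ 0 ≤ h.x ∧ 0 ≤ h.s ∧ h.s ≤ N ∧ l - hT js ≤ 15) && hjOk N l js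

/-- the check at the vertices -/
def hvOk (κ lam : ℚ) (js : List HJ) (V : List (ℚ × ℚ)) : Bool :=
  V.all fun p => decide (hgQ κ p.2 js ≤ lam * p.1)

/-- one cell `[w₀, w]` of the account, `r = κ / l` -/
structure RowC where
  w : ℚ
  l : ℚ
  lam : ℚ
  lG : ℚ
  js : List HJ

/-- the conditions on one cell -/
def rowC (p : Par) (V : List (ℚ × ℚ)) (w0 : ℚ) (t : RowC) : Bool :=
  decide (0 ≤ w0 ∧ w0 ≤ p.X ∧ 0 < t.l ∧ t.l ≤ 15 ∧ t.l - hT t.js ≤ 15 ∧ 0 ≤ t.lam ∧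
    (p.N + p.F / p.b) / p.κ * (p.a1 * eU (t.l - hT t.js)) + hsQ p.κ p.a1 t.l p.F t.js +
      t.lam * t.w < 1 ∧
    (4 * p.ρ * (p.X - w0) + p.κ / t.l) *
      (gUp p.cG (p.a1 - p.D - w0) t.lG + p.K * (p.X - w0)) < 1) &&
  hjOk p.N t.l t.js && hvOk p.κ t.lam t.js V &&
  lgOk ((4 * 3.141593 - (p.a1 - p.D - w0)) / (p.a1 - p.D - w0)) t.lG

/-- the conditions on the rows from `w₀` up to `X` -/
def rowsC (p : Par) (V : List (ℚ × ℚ)) : ℚ → List RowC → Bool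
  | w0, [] => decide (p.X < w0)
  | w0, t :: l => rowC p V w0 t && (decide (p.X ≤ t.w) || rowsC p V t.w l)

/-- the table for one set of parameters -/
def tabC (p : Par) (V : List (ℚ × ℚ)) (l : List RowC) : Bool := parOk p && rowsC p V 0 l

/-- one packed number -/
def dq (n : ℕ) : ℚ := (n : ℚ) / 100000

/-- packed triples -/
def decJ : ℕ → ℕ → List HJ
  | 0, _ => []
  | n + 1, z => ⟨dq (z % 16777216), dq (z / 16777216 % 16777216), dq (z / 281474976710656 % 16777216)⟩ ::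
      decJ n (z / 4722366482869645213696)

/-- a packed row: number of triples, `w`, `l`, `lam`, `lG`, triples -/
def decRow (z : ℕ) : RowC :=
  ⟨dq (z / 16777216 % 16777216), dq (z / 281474976710656 % 16777216),
    dq (z / 4722366482869645213696 % 16777216), dq (z / 79228162514264337593543950336 % 16777216),
    decJ (z % 16777216) (z / 1329227995784915872903807060280344576)⟩

/-- packed parameters -/
def decPar (κ ρ X K cG a1 D F N : ℕ) (b : ℕ) : Par :=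
  ⟨dq κ, dq ρ, dq X, dq K, dq cG, dq a1, dq D, (b : ℚ) / 10000000000, dq F, dq N⟩

/-- the value at `2` of the chord of two vertices -/
def ch2 (p q : ℚ × ℚ) : ℚ :=
  if p.1 ≤ 2 ∧ 2 < q.1 then p.2 + (2 - p.1) / (q.1 - p.1) * (q.2 - p.2) else 0

/-- the largest value at `2` of the chords -/
def w2 (V : List (ℚ × ℚ)) : ℚ :=
  V.foldr (fun p m => V.foldr (fun q m' => max (ch2 p q) m') m) 0

/-- the account function of the deficit on rationals -/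
def acq (x : ℚ) : ℚ := min x (1 + x / 2)

/-- the check at the vertices: `Σ ≤ lam φ - mu ac1 φ` -/
def hv2 (κ lam mu : ℚ) (js : List HJ) (V : List (ℚ × ℚ)) : Bool :=
  (V.all fun p => decide (hgQ κ p.2 js ≤ lam * p.1 - mu * acq p.1)) &&
    decide (hgQ κ (w2 V) js ≤ 2 * lam - 2 * mu)

/-- one cell `[d₀, d]` of the second account, `r = κ / l` -/
structure RowD where
  d : ℚ
  l : ℚ
  lam : ℚ
  mu : ℚ
  lG : ℚ
  js : List HJ

/-- the conditions on one cell `[w₀, w] × [d₀, d]` -/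
def rowD (p : Par) (V : List (ℚ × ℚ)) (w0 w d0 : ℚ) (t : RowD) : Bool :=
  decide (0 ≤ w0 ∧ w0 ≤ p.X ∧ 0 ≤ t.d ∧ t.d ≤ p.X ∧ 0 < t.l ∧ t.l ≤ 15 ∧ t.l - hT t.js ≤ 15 ∧ 0 ≤ t.mu ∧
    t.mu ≤ t.lam ∧
    (p.N + p.F / p.b) / p.κ * (p.a1 * eU (t.l - hT t.js)) + hsQ p.κ p.a1 t.l p.F t.js +
      (t.lam * w - t.mu * d0) < 1 ∧
    (4 * p.ρ * (p.X - w0) + p.κ / t.l) *
      (gUp p.cG (p.a1 - p.D - t.d) t.lG + p.K * (p.X - w0)) < 1) &&
  hjOk p.N t.l t.js && hv2 p.κ t.lam t.mu t.js V &&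
  lgOk ((4 * 3.141593 - (p.a1 - p.D - t.d)) / (p.a1 - p.D - t.d)) t.lG

/-- the conditions on the cells of the second account from `d₀` up to `w` -/
def rowsD (p : Par) (V : List (ℚ × ℚ)) (w0 w : ℚ) : ℚ → List RowD → Bool
  | d0, [] => decide (w < d0)
  | d0, t :: l => rowD p V w0 w d0 t && (decide (w ≤ t.d) || rowsD p V w0 w t.d l)

/-- one cell of the first account with its cells of the second one -/
structure RowW where
  w : ℚ
  ds : List RowD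

/-- the conditions on the cells of the first account from `w₀` up to `X` -/
def rowsW (p : Par) (V : List (ℚ × ℚ)) : ℚ → List RowW → Bool
  | w0, [] => decide (p.X < w0)
  | w0, t :: l => rowsD p V w0 t.w (w0 / 2) t.ds && (decide (p.X ≤ t.w) || rowsW p V t.w l)

/-- the table for one set of parameters -/
def tab2 (p : Par) (V : List (ℚ × ℚ)) (l : List RowW) : Bool := parOk p && rowsW p V 0 l

/-- a packed cell of the second account: number of triples, `d`, `l`, `lam`, `mu`, `lG`, triples -/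
def decD (z : ℕ) : RowD :=
  ⟨dq (z / 16777216 % 16777216), dq (z / 281474976710656 % 16777216),
    dq (z / 4722366482869645213696 % 16777216), dq (z / 79228162514264337593543950336 % 16777216),
    dq (z / 1329227995784915872903807060280344576 % 16777216),
    decJ (z % 16777216) (z / 22300745198530623141535718272648361505980416)⟩

/-- a packed cell of the first account -/
def decW (w : ℕ) (zs : List ℕ) : RowW := ⟨dq w, zs.map decD⟩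

end Pool.Agent.FPX.VTB

namespace Pool.Agent.FPX

open VTB

/-- `pkI` over the rationals -/
def qI : ℚ → List (ℚ × ℚ) → ℚ → ℚ
  | _, [], _ => 0
  | k, (h, k') :: l, x => (k' - k) / h * (max x 0 - max (x - h) 0) + qI k' l (x - h)

/-- `pkJ` over the rationals -/
def qJ : ℚ → List (ℚ × ℚ) → ℚ → ℚ
  | _, [], _ => 0
  | k, (h, k') :: l, x => (k' - k) / h * (max x 0 ^ 2 / 2 - max (x - h) 0 ^ 2 / 2) + qJ k' l (x - h)

/-- `pkD` over the rationals -/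
def qD (c₀ k₀ : ℚ) (l : List (ℚ × ℚ)) (c : ℚ) : ℚ := k₀ + qI k₀ l (c - c₀)

/-- `pkG` over the rationals -/
def qG (c₀ k₀ : ℚ) (l : List (ℚ × ℚ)) (c : ℚ) : ℚ := k₀ * (c - c₀) + qJ k₀ l (c - c₀)

/-- `pkOk` over the rationals -/
def qOk : ℚ → List (ℚ × ℚ) → Bool
  | _, [] => true
  | k, (h, k') :: l => decide (0 < h ∧ k ≤ k') && qOk k' l

/-- `pkVal` over the rationals -/
def qVal : ℚ → ℚ → List (ℚ × ℚ) → ℚ
  | g, _, [] => g
  | g, k, (h, k') :: l => qVal (g + (k + k') / 2 * h) k' l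

/-- `pkCells` over the rationals -/
def qCells : ℚ → ℚ → ℚ → List (ℚ × ℚ) → List (ℚ × ℚ × ℚ × ℚ)
  | _, _, _, [] => []
  | a, g, k, (h, k') :: l => (a, a + h, g, k') :: qCells (a + h) (g + (k + k') / 2 * h) k' l

/-- the vertices are those of a concave nondecreasing polygon -/
def plOk : ℚ × ℚ → ℚ × ℚ → List (ℚ × ℚ) → Bool
  | p, q, [] => decide (p.1 < q.1 ∧ p.2 ≤ q.2)
  | p, q, r :: l => decide (p.1 < q.1 ∧ p.2 ≤ q.2 ∧
      (r.2 - q.2) * (q.1 - p.1) ≤ (q.2 - p.2) * (r.1 - q.1)) && plOk q r l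

/-- the vertices cut at the value `N` -/
def cutV (N : ℚ) : ℚ × ℚ → ℚ × ℚ → List (ℚ × ℚ) → List (ℚ × ℚ)
  | p, q, [] => if p.2 < q.2 then [p, (p.1 + (N - p.2) * (q.1 - p.1) / (q.2 - p.2), N)] else [p, q]
  | p, q, r :: l => if N ≤ q.2 then [p, (p.1 + (N - p.2) * (q.1 - p.1) / (q.2 - p.2), N)]
      else p :: cutV N q r l

/-- rational evaluation of the polygon -/
def qpl : ℚ × ℚ → ℚ × ℚ → List (ℚ × ℚ) → ℚ → ℚ
  | p, q, [], x => p.2 + (q.2 - p.2) / (q.1 - p.1) * (x - p.1)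
  | p, q, r :: l, x => min (p.2 + (q.2 - p.2) / (q.1 - p.1) * (x - p.1)) (qpl q r l x)

/-- the data of one cell with image -/
structure CellD where
  p : Par
  s : ℚ
  xl : ℚ
  xu : ℚ
  rows : List RowC

/-- the check of one cell with image: `r = (a, b, g, k)`, `ζ'` the next parameter -/
def cellC (κ X σ se B ζ' : ℚ) (lφ : List (ℚ × ℚ)) (q : ℚ × ℚ) (V : List (ℚ × ℚ)) (r : ℚ × ℚ × ℚ × ℚ)
    (d : CellD) : Bool :=
  decide (d.p.κ = κ ∧ X - r.2.2.1 ≤ d.p.X ∧ q.2 ≤ 4 * d.p.ρ * q.1 ∧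
    qpl (0, 0) q V (qG 0 1 lφ (2 * d.xu ^ 2)) ≤ d.p.N ∧ ζ' * (X - r.2.2.1) ≤ d.p.a1 ∧
    4 * (d.p.a1 * (ζ' * (X - r.2.2.1))) ≤ d.p.D ^ 2 ∧ d.xl ≤ eL r.1 ∧ eU r.2.1 ≤ d.xu ∧
    r.2.1 ≤ 15 ∧ d.p.N ≤ B ∧ d.p.F / d.p.b ≤ B) &&
  tabC d.p (cutV d.p.N (0, 0) q V) d.rows && cellOk d.p σ d.s d.xl d.xu r.2.2.2 se

/-- the data of one cell without image -/
structure CellE where
  N : ℚ
  b : ℚ
  F : ℚ
  lam : ℚ
  s : ℚ
  xl : ℚ
  xu : ℚ
  js : List HJ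

/-- a rational number at least `2 π` -/
def tpi : ℚ := 6.283186

/-- the check of one cell without image -/
def cellE (κ X σ se B : ℚ) (lφ : List (ℚ × ℚ)) (q : ℚ × ℚ) (V : List (ℚ × ℚ)) (r : ℚ × ℚ × ℚ × ℚ)
    (d : CellE) : Bool :=
  decide (0 < κ ∧ 0 < d.b ∧ 0 ≤ d.F ∧ 0 < d.N ∧ 0 ≤ d.lam ∧ -hT d.js ≤ 15 ∧
    qpl (0, 0) q V (qG 0 1 lφ (2 * d.xu ^ 2)) ≤ d.N ∧
    (d.N + d.F / d.b) / κ * (tpi * eU (0 - hT d.js)) + hsQ κ tpi 0 d.F d.js +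
      d.lam * (X - r.2.2.1) < 1 ∧
    d.xl ≤ eL r.1 ∧ eU r.2.1 ≤ d.xu ∧ r.2.1 ≤ 15 ∧
    0 < d.s ∧ d.s < σ ∧ 1 < d.xl ∧ r.2.2.2 ≤ 2 * (1 - 1 / d.xl) * d.F * d.s ^ 2 ∧
    d.b * (8 * (se * d.xu + 1) ^ 2) ≤ κ * ((σ - d.s) * (1 - 1 / d.xl)) ^ 2 ∧ d.N ≤ B ∧
    d.F / d.b ≤ B) &&
  hjOk d.N 0 d.js && hvOk κ d.lam d.js (cutV d.N (0, 0) q V)

/-- the data of one cell with image, two accounts -/
structure CellD2 where
  p : Par
  s : ℚ
  xl : ℚ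
  xu : ℚ
  rows : List RowW

/-- the check of one cell with image, two accounts: `r = (a, b, g, k)`, `ζ'` the next parameter -/
def cellC2 (κ X σ se B ζ' : ℚ) (lφ : List (ℚ × ℚ)) (q : ℚ × ℚ) (V : List (ℚ × ℚ)) (r : ℚ × ℚ × ℚ × ℚ)
    (d : CellD2) : Bool :=
  decide (d.p.κ = κ ∧ X - r.2.2.1 ≤ d.p.X ∧ q.2 ≤ 4 * d.p.ρ * q.1 ∧
    qpl (0, 0) q V (qG 0 1 lφ (2 * d.xu ^ 2)) ≤ d.p.N ∧ ζ' * (X - r.2.2.1) ≤ d.p.a1 ∧
    4 * (d.p.a1 * (ζ' * (X - r.2.2.1))) ≤ d.p.D ^ 2 ∧ d.xl ≤ eL r.1 ∧ eU r.2.1 ≤ d.xu ∧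
    r.2.1 ≤ 15 ∧ d.p.N ≤ B ∧ d.p.F / d.p.b ≤ B) &&
  tab2 d.p (cutV d.p.N (0, 0) q V) d.rows && cellOk d.p σ d.s d.xl d.xu r.2.2.2 se

/-- all Boolean conditions on the data which do not depend on the cell -/
def hdOk (κ X σ se c₀ k₀ B R : ℚ) (L lφ : List (ℚ × ℚ)) (ζ : List ℚ)
    (P : List ((ℚ × ℚ) × List (ℚ × ℚ))) : Bool :=
  decide (0 < κ ∧ κ ≤ 5.776 ∧ 0 < X ∧ X ≤ 6 ∧ 0 < σ ∧ σ < 1 ∧ 0 < c₀ ∧ 0 ≤ k₀ ∧ 0 < B ∧ 0 ≤ R ∧
    0 ≤ se ∧ X < qVal 0 k₀ L ∧ ζ.getD 0 0 = 0 ∧ P ≠ []) &&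
  qOk 1 lφ && qOk k₀ L && ζ.all (fun z => decide (0 ≤ z)) &&
  P.all fun p => plOk (0, 0) p.1 p.2 && decide (p.1.2 ≤ 4 * R * p.1.1)

/-- the polygon with index `i` -/
def Pi' (P : List ((ℚ × ℚ) × List (ℚ × ℚ))) (i : ℕ) : (ℚ × ℚ) × List (ℚ × ℚ) := P.getD i ((1, 1), [])

/-- the check of the header of one cell with image: `r = (a, b, g, k)`, `ζ'` the next parameter -/
def cellH (κ X σ se B ζ' : ℚ) (lφ : List (ℚ × ℚ)) (q : ℚ × ℚ) (V : List (ℚ × ℚ)) (r : ℚ × ℚ × ℚ × ℚ)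
    (p : Par) (s xl xu : ℚ) : Bool :=
  decide (p.κ = κ ∧ X - r.2.2.1 ≤ p.X ∧ q.2 ≤ 4 * p.ρ * q.1 ∧
    qpl (0, 0) q V (qG 0 1 lφ (2 * xu ^ 2)) ≤ p.N ∧ ζ' * (X - r.2.2.1) ≤ p.a1 ∧
    4 * (p.a1 * (ζ' * (X - r.2.2.1))) ≤ p.D ^ 2 ∧ xl ≤ eL r.1 ∧ eU r.2.1 ≤ xu ∧
    r.2.1 ≤ 15 ∧ p.N ≤ B ∧ p.F / p.b ≤ B) &&
  (parOk p && cellOk p σ s xl xu r.2.2.2 se)

/-- the data of one cell with image and two accounts -/
structure Cell2 where
  p : Par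
  s : ℚ
  xl : ℚ
  xu : ℚ
  rows : List RowW

/-- the check of one cell with image and two accounts -/
def cell2 (κ X σ se B ζ' : ℚ) (lφ : List (ℚ × ℚ)) (q : ℚ × ℚ) (V : List (ℚ × ℚ)) (r : ℚ × ℚ × ℚ × ℚ)
    (d : Cell2) : Bool :=
  cellH κ X σ se B ζ' lφ q V r d.p d.s d.xl d.xu && tab2 d.p (cutV d.p.N (0, 0) q V) d.rows

end Pool.Agent.FPX
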