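import Mathlib
import Pool.Agent.FPX.VHW

/-
VNU (helper91): numbers of the outer region in closed form (`imG`), monotonicity in the account, and
the Hardy inequality with side condition from finitely many numerical conditions.
-/

open MeasureTheory Set Filter Topology
open scoped ENNReal NNReal

noncomputable section

namespace Pool.Agent.FPX

open Pool.Agent.EWD Pool.Agent.FPM

variable {M : Type} [MetricSpace M] {γ : ℝ → M}

/-- `h (α) = 1 / (α (4π - α))` -/
def imh0 (α : ℝ) : ℝ := 1 / (α * (4 * Real.pi - α))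

theorem imh0_le {A α : ℝ} (hA : 0 < A) (h1 : A ≤ α) (h2 : α ≤ 4 * Real.pi - A) :
    0 < imh0 α ∧ imh0 α ≤ imh0 A := by
  have hpi := Real.pi_pos
  have q1 : 0 < A * (4 * Real.pi - A) := mul_pos hA (by linarith)
  have q2 : A * (4 * Real.pi - A) ≤ α * (4 * Real.pi - α) := by
    have : 0 ≤ (α - A) * (4 * Real.pi - A - α) := mul_nonneg (by linarith) (by linarith)
    nlinarith
  have q3 : 0 < α * (4 * Real.pi - α) := q1.trans_le q2
  exact ⟨by unfold imh0; positivity, one_div_le_one_div_of_le q1 q2⟩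

/-- the constant `K` for `g = h + c h²` -/
def imK (c A : ℝ) : ℝ := (1 + c * imh0 A) ^ 2 / (2 * c)

theorem imG_two_pi (c : ℝ) : imG c (2 * Real.pi) = 0 := by
  unfold imG imL
  have : 4 * Real.pi - 2 * Real.pi = 2 * Real.pi := by ring
  rw [this]
  ring

/-- `imG c` is positive below `2π` -/
theorem imG_pos {c α : ℝ} (hc : 0 < c) (h0 : 0 < α) (h1 : α < 2 * Real.pi) : 0 < imG c α := by
  have hpi := Real.pi_pos
  have h2 : Real.log α < Real.log (4 * Real.pi - α) := Real.log_lt_log h0 (by linarith)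
  have h3 : (4 * Real.pi - α)⁻¹ < α⁻¹ := inv_strictAnti₀ h0 (by linarith)
  unfold imG imL
  have h4 : 0 < Real.log (4 * Real.pi - α) - Real.log α := by linarith
  have h5 : 0 < α⁻¹ - (4 * Real.pi - α)⁻¹ := by linarith
  positivity

/-- **the numbers of the outer region in closed form** -/
theorem vnum_imG {X a₁ D c : ℝ} (hc : 0 < c) (hX : 0 ≤ X) (hD : 0 ≤ D) (hA : 0 < a₁ - D - X)
    (ha : a₁ - D ≤ 2 * Real.pi) (hch : c * imh0 (a₁ - D - X) ≤ 1) :
    VNum X (imK c (a₁ - D - X)) a₁ D (imG c) (fun α => imh0 α + c * imh0 α ^ 2) := by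
  have hpi := Real.pi_pos
  set A := a₁ - D - X with hAd
  have hA2 : 2 * Real.pi + X ≤ 4 * Real.pi - A := by linarith
  have hh1 : 0 < imh0 A := (imh0_le hA le_rfl (by linarith)).1
  have hK : 0 < imK c A := by unfold imK; positivity
  have hgK : ∀ α, A ≤ α → α ≤ 2 * Real.pi + X → imh0 α + c * imh0 α ^ 2 ≤ imK c A := by
    intro α h1 h2
    obtain ⟨p0, p1⟩ := imh0_le hA h1 (by linarith)
    have h3 : imh0 α + c * imh0 α ^ 2 ≤ imh0 A + c * imh0 A ^ 2 := by
      have h4 : imh0 α ^ 2 ≤ imh0 A ^ 2 := pow_le_pow_left₀ p0.le p1 2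
      have := mul_le_mul_of_nonneg_left h4 hc.le
      linarith
    refine h3.trans ?_
    unfold imK
    rw [le_div_iff₀ (by positivity)]
    nlinarith [mul_pos hc hh1]
  refine ⟨hK, by linarith, hA, by linarith, by linarith, fun α h1 h2 => ?_, fun α h1 h2 => ?_,
    fun α h1 h2 => hgK α h1 (by linarith), fun y h1 h2 => ?_⟩
  · exact imG_has c (by linarith) (by linarith)
  · obtain ⟨p0, p1⟩ := imh0_le hA h1 (by linarith)
    change imh0 α ≤ _
    have h5 : (imh0 α + c * imh0 α ^ 2) ^ 2 / (2 * imK c A) ≤ c * imh0 α ^ 2 := by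
      rw [div_le_iff₀ (by positivity)]
      have e : c * imh0 α ^ 2 * (2 * imK c A) = imh0 α ^ 2 * (1 + c * imh0 A) ^ 2 := by
        unfold imK
        field_simp
      rw [e]
      have e2 : (imh0 α + c * imh0 α ^ 2) ^ 2 = imh0 α ^ 2 * (1 + c * imh0 α) ^ 2 := by ring
      rw [e2]
      have h6 : 1 + c * imh0 α ≤ 1 + c * imh0 A := by nlinarith
      have h7 : 0 ≤ 1 + c * imh0 α := by positivity
      have h8 : (1 + c * imh0 α) ^ 2 ≤ (1 + c * imh0 A) ^ 2 := pow_le_pow_left₀ h7 h6 2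
      exact mul_le_mul_of_nonneg_left h8 (by positivity)
    linarith
  · have hd : ∀ x, 0 ≤ x → x ≤ X → HasDerivAt (fun y => imG c (2 * Real.pi + y) + imK c A * y)
        (-(imh0 (2 * Real.pi + x) + c * imh0 (2 * Real.pi + x) ^ 2) + imK c A) x := by
      intro x hx0 hx1
      have e1 : HasDerivAt (fun y : ℝ => 2 * Real.pi + y) 1 x := (hasDerivAt_id x).const_add _
      have e2 := (imG_has c (α := 2 * Real.pi + x) (by linarith) (by linarith)).comp x e1
      have e3 := e2.add ((hasDerivAt_id x).const_mul (imK c A))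
      refine e3.congr_deriv ?_
      unfold imh0
      ring
    have hmono : MonotoneOn (fun y => imG c (2 * Real.pi + y) + imK c A * y) (Icc 0 X) := by
      refine monotoneOn_of_deriv_nonneg (convex_Icc _ _) ?_ ?_ ?_
      · intro x hx
        exact (hd x hx.1 hx.2).continuousAt.continuousWithinAt
      · intro x hx
        rw [interior_Icc] at hx
        exact (hd x hx.1.le hx.2.le).differentiableAt.differentiableWithinAt
      · intro x hx
        rw [interior_Icc] at hx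
        rw [(hd x hx.1.le hx.2.le).deriv]
        have := hgK (2 * Real.pi + x) (by linarith [hx.1]) (by linarith [hx.2])
        linarith
    have h3 := hmono ⟨le_rfl, hX⟩ ⟨h1, h2⟩ h1
    simpa [imG_two_pi] using h3

/-- the outer resistance decreases in the account used by the core -/
theorem VNum.anti {X K a₁ D : ℝ} {G gg : ℝ → ℝ} (h : VNum X K a₁ D G gg) {ω ω' : ℝ} (h0 : 0 ≤ ω')
    (h1 : ω' ≤ ω) (h2 : ω ≤ X) :
    G (a₁ - D - ω) + K * (X - ω) ≤ G (a₁ - D - ω') + K * (X - ω') := by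
  have hmono : MonotoneOn (fun α => G α + K * α) (Icc (a₁ - D - X) (a₁ - D)) := by
    have hd : ∀ x, a₁ - D - X ≤ x → x ≤ a₁ - D → HasDerivAt (fun α => G α + K * α)
        (-gg x + K * 1) x :=
      fun x k1 k2 => (h.hG x k1 (k2.trans h.haD)).add ((hasDerivAt_id x).const_mul K)
    refine monotoneOn_of_deriv_nonneg (convex_Icc _ _) ?_ ?_ ?_
    · intro x hx
      exact (hd x hx.1 hx.2).continuousAt.continuousWithinAt
    · intro x hx
      rw [interior_Icc] at hx
      exact (hd x hx.1.le hx.2.le).differentiableAt.differentiableWithinAt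
    · intro x hx
      rw [interior_Icc] at hx
      rw [(hd x hx.1.le hx.2.le).deriv]
      have := h.hgK x hx.1.le hx.2.le
      linarith
  have h3 := hmono (a := a₁ - D - ω) (b := a₁ - D - ω') ⟨by linarith, by linarith⟩
    ⟨by linarith, by linarith⟩ (by linarith)
  dsimp only at h3
  linarith

theorem grid_mem {p : ℕ → ℝ} {n : ℕ} {ω : ℝ} (h0 : p 0 ≤ ω) (h1 : ω ≤ p n) (hn : 0 < n) :
    ∃ i < n, p i ≤ ω ∧ ω ≤ p (i + 1) := by
  by_contra hcon
  push Not at hcon
  have h2 : ∀ i, i ≤ n → p i ≤ ω := by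
    intro i
    induction i with
    | zero => exact fun _ => h0
    | succ j ih =>
      intro hj
      have h3 := hcon j (by omega) (ih (by omega))
      exact h3.le
  obtain ⟨m, rfl⟩ : ∃ m, n = m + 1 := ⟨n - 1, by omega⟩
  have h3 := hcon m (by omega) (h2 m (by omega))
  linarith

/-- **Hardy with side condition and the image of `v` outside, from finitely many numerical
conditions.** -/
theorem vhw_num [CompactSpace M] (C : Calc M γ) (hγ : Bd γ) (hR : RegAE C)
    {v : Fin 3 → M → ℝ} {f w : Om → ℝ} {X ρ : ℝ} (hv : VDat C v f w X ρ) {κ ε B c a₁ D b F N : ℝ}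
    (hκ : 0 < κ) (hI : IsopO C κ ε) (hε : 0 ≤ ε) (hc : 0 < c) (hX : 0 ≤ X) (hD : 0 ≤ D)
    (hA : 0 < a₁ - D - X) (ha : a₁ - D < 2 * Real.pi) (hch : c * imh0 (a₁ - D - X) ≤ 1)
    (hba : b ≤ a₁)
    (hα : ∀ g : M → ℝ, Lip g → ∀ s, 0 ≤ s → a₁ ≤ supa C g s →
      a₁ - D - supw C g f s ≤ supw C g (jac C v) s)
    (hwN : ∀ᵐ o ∂C.μ, 4 * w o ≤ N) {p : ℕ → ℝ} {n : ℕ} (hn : 0 < n) (p0 : p 0 = 0)
    (pn : X ≤ p n) (pp : ∀ i, 0 ≤ p i)
    (hnum : ∀ i < n, ∃ m r : ℝ, 0 < r ∧ 4 * ρ * p (i + 1) ≤ m ∧ m ≤ N * a₁ ∧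
      HwOk κ (a₁ * Real.exp (κ / r)) N m b F B ∧
      (4 * ρ * X - m + r) * (imG c (a₁ - D - p i) + imK c (a₁ - D - X) * (X - p i)) < 1)
    {R : ℝ} (hR0 : 0 ≤ R) {g : M → ℝ} (hg : Lip g) (og : EWD.OddB γ g) (gR : ∀ x, |g x| ≤ R)
    {t : ℝ} (ht : 0 ≤ t) (hS : b ≤ C.μ.real {o | t < |g (C.pt o)|}) :
    4 * ∫ o, w o * g (C.pt o) ^ 2 ∂C.μ + F * t ^ 2 ≤
      ∫ o, gn C g o ^ 2 ∂C.μ + 2 * B * ε * R ^ 2 := by
  have := C.fin
  have hpi := Real.pi_pos
  have hV := vnum_imG hc hX hD hA ha.le hch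
  refine vhw_side C hγ hR hv hκ hI hε hV hba hα (fun ω ω0 ωX => ?_) hR0 hg og gR ht hS
  obtain ⟨i, hi, h1, h2⟩ := grid_mem (ω := ω) (by rw [p0]; exact ω0) (ωX.trans pn) hn
  obtain ⟨m, r, hr, hm, hmN, hok, hprod⟩ := hnum i hi
  have hNb : 0 < m := (mul_pos hok.N0 hok.b0).trans_le hok.hbm
  have hpos : 0 < imG c (a₁ - D - ω) + imK c (a₁ - D - X) * (X - ω) := by
    have h3 := imG_pos hc (α := a₁ - D - ω) (by linarith) (by linarith)
    have h4 : 0 ≤ imK c (a₁ - D - X) * (X - ω) := mul_nonneg hV.K0.le (by linarith)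
    linarith
  refine ⟨fun a => max 0 (min (N * a) m), r, hr, hok.D, fun S mS hS' => ?_, hpos, ?_⟩
  · have k1 : 4 * ∫ o in S, w o ∂C.μ ≤ m := by
      have k2 : ∫ o in S, w o ∂C.μ ≤ ∫ o in S, ρ * f o ∂C.μ :=
        setIntegral_mono_ae hv.wint.integrableOn (hv.fint.const_mul ρ).integrableOn hv.wf
      rw [integral_const_mul] at k2
      have k3 : ρ * ∫ o in S, f o ∂C.μ ≤ ρ * p (i + 1) :=
        mul_le_mul_of_nonneg_left (hS'.trans h2) hv.ρ0
      linarith
    have k2 : 4 * ∫ o in S, w o ∂C.μ ≤ N * C.μ.real S := by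
      have k3 : ∫ o in S, 4 * w o ∂C.μ ≤ ∫ _ in S, N ∂C.μ :=
        setIntegral_mono_ae (hv.wint.const_mul 4).integrableOn (integrable_const N).integrableOn hwN
      rw [setIntegral_const, smul_eq_mul, integral_const_mul] at k3
      linarith
    exact (le_min k2 k1).trans (le_max_right _ _)
  · have k1 : max 0 (min (N * a₁) m) = m := by
      rw [min_eq_right hmN, max_eq_right hNb.le]
    dsimp only
    rw [k1]
    have k3 := hV.anti (ω := ω) (ω' := p i) (pp i) h1 ωX
    have k4 : 4 * ρ * (X - ω) + (min (4 * ρ * ω) m - m) + r ≤ 4 * ρ * X - m + r := by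
      have := min_le_left (4 * ρ * ω) m
      linarith
    refine (mul_le_mul_of_nonneg_right k4 hpos.le).trans_lt ?_
    rcases le_or_gt 0 (4 * ρ * X - m + r) with h | h
    · exact (mul_le_mul_of_nonneg_left k3 h).trans_lt hprod
    · have := mul_neg_of_neg_of_pos h hpos
      linarith

end Pool.Agent.FPX
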