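import Mathlib
import Pool.Agent.FPX.CBD
import Pool.Agent.FPX.KGL
import Pool.Agent.FPX.VNU

/-
VTB (helper94): the numerical conditions of `vhw_side` for the charge `min (N a) m`, the closed form
`imG` and a finite grid of the account `ω`, as a Boolean function of rational data.
-/

open MeasureTheory Set Filter Topology
open scoped ENNReal NNReal

noncomputable section

namespace Pool.Agent.FPX.VTB

open Pool.Agent.EWD Pool.Agent.FPM Pool.Agent.FPX

/-! ### rational bounds of the exponential and the logarithm -/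

/-- Horner form of the partial sums of the exponential series with a general last factor -/
def hb (b y : ℝ) : ℕ → ℕ → ℝ
  | 0, _ => b
  | n + 1, k => 1 + y / k * hb b y n (k + 1)

theorem hb_eq (b y : ℝ) : ∀ n k : ℕ,
    (y ^ k / k.factorial) * hb b y n (k + 1) =
      ∑ i ∈ Finset.range n, y ^ (k + i) / (k + i).factorial + y ^ (k + n) / (k + n).factorial * b
  | 0, k => by simp [hb]
  | n + 1, k => by
    have h := hb_eq b y n (k + 1)
    rw [Finset.sum_range_succ']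
    have e : (y ^ k / k.factorial) * hb b y (n + 1) (k + 1) =
        y ^ k / k.factorial + (y ^ (k + 1) / (k + 1).factorial) * hb b y n (k + 1 + 1) := by
      have hk : (k.factorial : ℝ) ≠ 0 := by positivity
      rw [hb, Nat.factorial_succ]
      push_cast
      have hk1 : (k : ℝ) + 1 ≠ 0 := by positivity
      rw [pow_succ]
      field_simp
    rw [e, h]
    have e2 : ∀ i, k + 1 + i = k + (i + 1) := fun i => by omega
    simp only [e2]
    simp only [add_zero]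
    ring

theorem hb_mono {b b' y : ℝ} (hy : 0 ≤ y) (h : b ≤ b') : ∀ n k : ℕ, hb b y n k ≤ hb b' y n k
  | 0, _ => h
  | n + 1, k => by
    rw [hb, hb]
    have := mul_le_mul_of_nonneg_left (hb_mono hy h n (k + 1)) (show 0 ≤ y / k by positivity)
    linarith

theorem hb_le_exp {y : ℝ} (hy : 0 ≤ y) : hb 1 y 10 1 ≤ Real.exp y := by
  have h := hb_eq 1 y 10 0
  have h1 := Real.sum_le_exp_of_nonneg hy 11
  rw [Finset.sum_range_succ] at h1
  simp only [pow_zero, Nat.factorial_zero, Nat.cast_one, div_one, one_mul, zero_add, mul_one] at h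
  rw [h]
  exact h1

theorem exp_le_hb {y : ℝ} (hy : 0 ≤ y) (hy1 : y ≤ 1) : Real.exp y ≤ hb (1 + y / 10) y 10 1 := by
  have h := hb_eq (1 + y / 10) y 10 0
  have h1 := Real.exp_bound' hy hy1 (n := 11) (by norm_num)
  rw [Finset.sum_range_succ] at h1
  simp only [pow_zero, Nat.factorial_zero, Nat.cast_one, div_one, one_mul, zero_add] at h
  rw [h]
  refine h1.trans ?_
  have e1 : (Nat.factorial 11 : ℝ) = 39916800 := by norm_num [Nat.factorial]
  have e2 : (Nat.factorial 10 : ℝ) = 3628800 := by norm_num [Nat.factorial]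
  rw [e1, e2]
  have h3 : 0 ≤ y ^ 11 := by positivity
  push_cast
  have e3 : y ^ 10 / 3628800 * (1 + y / 10) = y ^ 10 / 3628800 + y ^ 11 / 36288000 := by ring
  rw [e3]
  have h5 : y ^ 11 * ((11 : ℝ) + 1) / (39916800 * 11) ≤ y ^ 11 / 36288000 := by
    rw [mul_div_assoc, div_eq_mul_one_div (y ^ 11) 36288000]
    exact mul_le_mul_of_nonneg_left (by norm_num) h3
  linarith

theorem nL_le (t : ℕ) : ∀ n k : ℕ, (nL n (k + 1) t : ℝ) ≤
    1000000000000 * hb 1 ((t : ℝ) / 1000000000000) n (k + 1)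
  | 0, k => by simp [nL, hb]
  | n + 1, k => by
    have ih := nL_le t n (k + 1)
    rw [nL, hb]
    have h1 : (((t * nL n (k + 1 + 1) t / ((k + 1) * 1000000000000) : ℕ)) : ℝ) ≤
        ((t * nL n (k + 1 + 1) t : ℕ) : ℝ) / (((k + 1) * 1000000000000 : ℕ) : ℝ) := Nat.cast_div_le
    push_cast at h1 ⊢
    have hk : (0 : ℝ) < (k : ℝ) + 1 := by positivity
    have h2 : (t : ℝ) * (nL n (k + 1 + 1) t : ℝ) / (((k : ℝ) + 1) * 1000000000000) ≤
        t * (1000000000000 * hb 1 ((t : ℝ) / 1000000000000) n (k + 1 + 1)) /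
          (((k : ℝ) + 1) * 1000000000000) :=
      div_le_div_of_nonneg_right (mul_le_mul_of_nonneg_left ih (Nat.cast_nonneg _)) (by positivity)
    have h3 : (t : ℝ) * (1000000000000 * hb 1 ((t : ℝ) / 1000000000000) n (k + 1 + 1)) /
          (((k : ℝ) + 1) * 1000000000000) =
        1000000000000 * ((t : ℝ) / 1000000000000 / ((k : ℝ) + 1) *
          hb 1 ((t : ℝ) / 1000000000000) n (k + 1 + 1)) := by
      field_simp
    rw [h3] at h2
    linarith

theorem div_lt_nat (a b : ℕ) (hb : 0 < b) : (a : ℝ) / b ≤ ((a / b + 1 : ℕ) : ℝ) := by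
  rw [div_le_iff₀ (by exact_mod_cast hb)]
  have h := Nat.lt_mul_div_succ a hb
  have h2 : (a : ℝ) ≤ ((b * (a / b + 1) : ℕ) : ℝ) := by exact_mod_cast h.le
  push_cast at h2 ⊢
  linarith

theorem le_nU (t : ℕ) : ∀ n k : ℕ,
    1000000000000 * hb (1 + (t : ℝ) / 1000000000000 / 10) ((t : ℝ) / 1000000000000) n (k + 1) ≤
      (nU n (k + 1) t : ℝ)
  | 0, k => by
    rw [nU, hb]
    have h1 := div_lt_nat t 10 (by norm_num)
    push_cast at h1 ⊢
    linarith
  | n + 1, k => by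
    have ih := le_nU t n (k + 1)
    rw [nU, hb]
    have h1 := div_lt_nat (t * nU n (k + 1 + 1) t) ((k + 1) * 1000000000000) (by positivity)
    push_cast at h1 ⊢
    set H := hb (1 + (t : ℝ) / 1000000000000 / 10) ((t : ℝ) / 1000000000000) n (k + 1 + 1) with hH
    have hk : (0 : ℝ) < (k : ℝ) + 1 := by positivity
    have h2 : t * (1000000000000 * H) / (((k : ℝ) + 1) * 1000000000000) ≤
        (t : ℝ) * (nU n (k + 1 + 1) t : ℝ) / (((k : ℝ) + 1) * 1000000000000) :=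
      div_le_div_of_nonneg_right (mul_le_mul_of_nonneg_left ih (Nat.cast_nonneg _)) (by positivity)
    have h3 : (t : ℝ) * (1000000000000 * H) / (((k : ℝ) + 1) * 1000000000000) =
        1000000000000 * ((t : ℝ) / 1000000000000 / ((k : ℝ) + 1) * H) := by
      field_simp
    rw [h3] at h2
    linarith

theorem sqL_le {y : ℕ} {z : ℝ} (h : (y : ℝ) ≤ 1000000000000 * z) :
    (sqL y : ℝ) ≤ 1000000000000 * z ^ 2 := by
  have h1 : (((y * y / 1000000000000 : ℕ)) : ℝ) ≤ ((y * y : ℕ) : ℝ) / ((1000000000000 : ℕ) : ℝ) :=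
    Nat.cast_div_le
  unfold sqL
  refine h1.trans ?_
  push_cast
  rw [div_le_iff₀ (by norm_num)]
  have h2 : (0 : ℝ) ≤ y := Nat.cast_nonneg _
  have h3 := mul_le_mul h h h2 (h2.trans h)
  linarith

theorem le_sqU {y : ℕ} {z : ℝ} (hz : 0 ≤ z) (h : 1000000000000 * z ≤ (y : ℝ)) :
    1000000000000 * z ^ 2 ≤ (sqU y : ℝ) := by
  have h1 := div_lt_nat (y * y) 1000000000000 (by norm_num)
  unfold sqU
  refine le_trans ?_ h1
  push_cast
  rw [le_div_iff₀ (by norm_num)]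
  have h3 := mul_le_mul h h (by positivity) (Nat.cast_nonneg _)
  linarith

theorem tl_bounds {x : ℚ} (hx : 0 ≤ x) :
    (tl x : ℝ) / 1000000000000 ≤ (x : ℝ) / 16 ∧ (x : ℝ) / 16 ≤ ((tl x + 1 : ℕ) : ℝ) / 1000000000000 := by
  have hn : 0 ≤ x.num := Rat.num_nonneg.2 hx
  have hd : (0 : ℝ) < x.den := by exact_mod_cast x.den_pos
  have hx' : (x : ℝ) = (x.num.natAbs : ℝ) / x.den := by
    have h1 : (x : ℝ) = (x.num : ℝ) / (x.den : ℝ) := Rat.cast_def x
    rw [h1]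
    congr 1
    have h2 : ((x.num.natAbs : ℤ) : ℝ) = (x.num : ℝ) := by
      rw [Int.natAbs_of_nonneg hn]
    rw [← h2]
    rfl
  constructor
  · rw [div_le_iff₀ (by norm_num)]
    have h1 : (((x.num.natAbs * 1000000000000 / (16 * x.den) : ℕ)) : ℝ) ≤
        ((x.num.natAbs * 1000000000000 : ℕ) : ℝ) / ((16 * x.den : ℕ) : ℝ) := Nat.cast_div_le
    unfold tl
    refine h1.trans (le_of_eq ?_)
    rw [hx']
    push_cast
    field_simp
  · rw [le_div_iff₀ (by norm_num)]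
    have h1 := div_lt_nat (x.num.natAbs * 1000000000000) (16 * x.den)
      (by have := x.den_pos; positivity)
    unfold tl
    refine le_trans (le_of_eq ?_) h1
    rw [hx']
    push_cast
    field_simp

theorem eL0_le {x : ℚ} (hx : 0 ≤ x) : (eL0 x : ℝ) ≤ 1000000000000 * Real.exp x := by
  have h1 := (tl_bounds hx).1
  have h2 := nL_le (tl x) 10 0
  have h3 : hb 1 ((tl x : ℝ) / 1000000000000) 10 1 ≤ Real.exp ((x : ℝ) / 16) :=
    (hb_le_exp (by positivity)).trans (Real.exp_le_exp.2 h1)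
  have h4 : (nL 10 1 (tl x) : ℝ) ≤ 1000000000000 * Real.exp ((x : ℝ) / 16) := by
    simp only [zero_add] at h2
    linarith
  have h5 := sqL_le (sqL_le (sqL_le (sqL_le h4)))
  have e : (((Real.exp ((x : ℝ) / 16) ^ 2) ^ 2) ^ 2) ^ 2 = Real.exp x := by
    rw [← pow_mul, ← pow_mul, ← pow_mul, ← Real.exp_nat_mul]
    congr 1
    push_cast
    ring
  rw [e] at h5
  exact h5

theorem le_eU0 {x : ℚ} (hx : 0 ≤ x) (hx15 : x ≤ 15) :
    1000000000000 * Real.exp x ≤ (eU0 x : ℝ) := by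
  have h1 := (tl_bounds hx).2
  have h2 := le_nU (tl x + 1) 10 0
  have h15 : (x : ℝ) ≤ 15 := by exact_mod_cast hx15
  have h6 : ((tl x + 1 : ℕ) : ℝ) / 1000000000000 ≤ 1 := by
    have := (tl_bounds hx).1
    push_cast
    linarith
  have h3 : Real.exp ((x : ℝ) / 16) ≤
      hb (1 + ((tl x + 1 : ℕ) : ℝ) / 1000000000000 / 10) (((tl x + 1 : ℕ) : ℝ) / 1000000000000) 10 1 :=
    (Real.exp_le_exp.2 h1).trans (exp_le_hb (by positivity) h6)
  have h4 : 1000000000000 * Real.exp ((x : ℝ) / 16) ≤ (nU 10 1 (tl x + 1) : ℝ) := by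
    simp only [zero_add] at h2
    linarith
  have hp := Real.exp_pos ((x : ℝ) / 16)
  have h5 := le_sqU (by positivity) (le_sqU (by positivity) (le_sqU (by positivity)
    (le_sqU hp.le h4)))
  have e : (((Real.exp ((x : ℝ) / 16) ^ 2) ^ 2) ^ 2) ^ 2 = Real.exp x := by
    rw [← pow_mul, ← pow_mul, ← pow_mul, ← Real.exp_nat_mul]
    congr 1
    push_cast
    ring
  rw [e] at h5
  exact h5

theorem exLo_le {x : ℚ} (hx : 0 ≤ x) : (exLo x : ℝ) ≤ Real.exp x := by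
  unfold exLo
  push_cast
  rw [div_le_iff₀ (by norm_num)]
  linarith [eL0_le hx]

theorem le_exUp {x : ℚ} (hx : 0 ≤ x) (hx15 : x ≤ 15) : Real.exp x ≤ (exUp x : ℝ) := by
  unfold exUp
  push_cast
  rw [le_div_iff₀ (by norm_num)]
  linarith [le_eU0 hx hx15]

theorem nL_pos (t : ℕ) : ∀ n k : ℕ, 1000000000000 ≤ nL n k t
  | 0, _ => le_rfl
  | n + 1, k => by
    rw [nL]
    exact Nat.le_add_right _ _

theorem sqL_pos {y : ℕ} (h : 1000000000000 ≤ y) : 1000000000000 ≤ sqL y := by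
  unfold sqL
  rw [Nat.le_div_iff_mul_le (by norm_num)]
  exact Nat.mul_le_mul h h

theorem eL0_pos (x : ℚ) : 0 < eL0 x :=
  lt_of_lt_of_le (by norm_num) (sqL_pos (sqL_pos (sqL_pos (sqL_pos (nL_pos _ _ _)))))

theorem le_eU {x : ℚ} (hx : x ≤ 15) : Real.exp x ≤ (eU x : ℝ) := by
  unfold eU
  split_ifs with h
  · exact le_exUp h hx
  · have h1 : 0 ≤ -x := by linarith [not_le.1 h]
    have h2 := eL0_le h1
    have h3 : (0 : ℝ) < eL0 (-x) := by exact_mod_cast eL0_pos (-x)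
    have h4 := div_lt_nat (1000000000000 * 1000000000000) (eL0 (-x)) (eL0_pos _)
    push_cast at h2 h4 ⊢
    rw [le_div_iff₀ (by norm_num)]
    refine le_trans ?_ h4
    rw [le_div_iff₀ h3]
    have h5 : Real.exp x * Real.exp (-x) = 1 := by rw [← Real.exp_add]; simp
    calc Real.exp x * 1000000000000 * (eL0 (-x) : ℝ)
        ≤ Real.exp x * 1000000000000 * (1000000000000 * Real.exp (-x)) :=
          mul_le_mul_of_nonneg_left h2 (by positivity)
      _ = 1000000000000 * 1000000000000 * (Real.exp x * Real.exp (-x)) := by ring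
      _ = 1000000000000000000000000 := by rw [h5]; norm_num

theorem eL_le (x : ℚ) : (eL x : ℝ) ≤ Real.exp x := by
  unfold eL
  split_ifs with h h'
  · exact exLo_le h
  · have h1 : 0 ≤ -x := by linarith [not_le.1 h]
    have h2 := le_eU0 h1 (by linarith)
    have h3 : (0 : ℝ) < eU0 (-x) := lt_of_lt_of_le (by positivity) h2
    have h4 : (((1000000000000 * 1000000000000 / eU0 (-x) : ℕ)) : ℝ) ≤
        ((1000000000000 * 1000000000000 : ℕ) : ℝ) / ((eU0 (-x) : ℕ) : ℝ) := Nat.cast_div_le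
    push_cast at h2 h4 ⊢
    rw [div_le_iff₀ (by norm_num)]
    refine h4.trans ?_
    rw [div_le_iff₀ h3]
    have h5 : Real.exp x * Real.exp (-x) = 1 := by rw [← Real.exp_add]; simp
    calc (1000000000000000000000000 : ℝ)
        = Real.exp x * 1000000000000 * (1000000000000 * Real.exp (-x)) := by
          rw [show Real.exp x * 1000000000000 * (1000000000000 * Real.exp (-x)) =
            1000000000000 * 1000000000000 * (Real.exp x * Real.exp (-x)) by ring, h5]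
          norm_num
      _ ≤ Real.exp x * 1000000000000 * (eU0 (-x) : ℝ) :=
          mul_le_mul_of_nonneg_left h2 (by positivity)
  · push_cast
    exact (Real.exp_pos _).le

theorem lgOk_le {y L : ℚ} (h : lgOk y L = true) : Real.log y ≤ L := by
  obtain ⟨h0, h1, h2⟩ := of_decide_eq_true h
  have h3 : (0 : ℝ) < y := by exact_mod_cast h0
  rw [Real.log_le_iff_le_exp h3]
  refine le_trans ?_ (exLo_le h1)
  exact_mod_cast h2

theorem lgOk_pos {y L : ℚ} (h : lgOk y L = true) : 0 < y := (of_decide_eq_true h).1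

theorem lgOk_nonneg {y L : ℚ} (h : lgOk y L = true) : 0 ≤ L := (of_decide_eq_true h).2.1

/-! ### one cell of the account -/

/-- one cell `[w₀, w]` of the account -/
structure Row where
  w : ℚ
  m : ℚ
  r : ℚ
  R2 : ℚ
  S1 : ℚ
  c1 : ℚ
  c2 : ℚ
  l1 : ℚ
  l2 : ℚ
  lG : ℚ

/-- the conditions on one cell -/
def rowOk (p : Par) (w0 : ℚ) (t : Row) : Bool :=
  decide (0 ≤ w0 ∧ w0 ≤ p.X ∧ p.N * p.b ≤ t.m ∧ 4 * p.ρ * t.w ≤ t.m ∧ t.m ≤ p.N * p.a1 ∧ 0 < t.r ∧
    0 ≤ t.R2 ∧ p.F + p.N * p.b + t.R2 ^ 2 / (2 * p.κ) ≤ t.R2 ∧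
    t.R2 / p.κ * t.l1 < 1 ∧ t.R2 / (1 - t.R2 / p.κ * t.l1) ≤ t.S1 ∧
    0 ≤ t.c1 ∧ 0 ≤ t.c2 ∧ 2 * t.S1 * (1 + t.c1) ≤ p.κ * t.c1 ∧
    2 * t.S1 * t.c2 + t.m * (1 + t.c1 + t.c2) ^ 2 ≤ 2 * p.κ * t.c2 ∧
    (t.S1 + t.m * (1 + t.c1 + t.c2)) * (t.l2 / p.κ + 1 / t.r) < 1 ∧
    0 ≤ 4 * p.ρ * p.X - t.m + t.r ∧
    (4 * p.ρ * p.X - t.m + t.r) * (gUp p.cG (p.a1 - p.D - w0) t.lG + p.K * (p.X - w0)) < 1) &&
  lgOk (t.m / p.N / p.b) t.l1 && lgOk (p.a1 * p.N / t.m) t.l2 &&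
  lgOk ((4 * 3.141593 - (p.a1 - p.D - w0)) / (p.a1 - p.D - w0)) t.lG

/-- the conditions on the rows from `w₀` up to `X` -/
def rowsOk (p : Par) : ℚ → List Row → Bool
  | w0, [] => decide (p.X < w0)
  | w0, t :: l => rowOk p w0 t && (decide (p.X ≤ t.w) || rowsOk p t.w l)

/-- the table for one set of parameters -/
def tabOk (p : Par) (l : List Row) : Bool := parOk p && rowsOk p 0 l

theorem rowsOk_ex {p : Par} : ∀ (l : List Row) {w0 : ℚ}, rowsOk p w0 l = true → ∀ ω : ℝ,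
    (w0 : ℝ) ≤ ω → ω ≤ p.X → ∃ (w1 : ℚ) (t : Row), rowOk p w1 t = true ∧ (w1 : ℝ) ≤ ω ∧ ω ≤ t.w
  | [], w0, h, ω, h0, h1 => by
    have h2 : p.X < w0 := of_decide_eq_true h
    have h3 : (p.X : ℝ) < w0 := by exact_mod_cast h2
    linarith
  | t :: l, w0, h, ω, h0, h1 => by
    rw [rowsOk, Bool.and_eq_true, Bool.or_eq_true] at h
    obtain ⟨h2, h3⟩ := h
    rcases le_or_gt ω t.w with h4 | h4
    · exact ⟨w0, t, h2, h0, h4⟩
    · rcases h3 with h3 | h3
      · have h5 : p.X ≤ t.w := of_decide_eq_true h3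
        have h6 : (p.X : ℝ) ≤ t.w := by exact_mod_cast h5
        linarith
      · exact rowsOk_ex l h3 ω h4.le h1

/-- the closed form of the core certificate from one row -/
theorem rowOk_hwOk {p : Par} {w0 : ℚ} {t : Row} (hp : parOk p = true) (h : rowOk p w0 t = true) {B : ℝ}
    (hNB : (p.N : ℝ) ≤ B) (hFB : (p.F : ℝ) / p.b ≤ B) :
    HwOk p.κ (p.a1 * Real.exp (p.κ / t.r)) p.N t.m p.b p.F B := by
  obtain ⟨q1, q2, q3, q4, q5, q6, q7, q8, q9, q10, q11, q12, -, -, -⟩ := of_decide_eq_true hp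
  simp only [rowOk, Bool.and_eq_true] at h
  obtain ⟨⟨⟨h, g1⟩, g2⟩, -⟩ := h
  obtain ⟨-, -, k1, -, k3, k4, k5, k6, k7, k8, k9, k10, k11, k12, k13, -, -⟩ := of_decide_eq_true h
  have r1 : (0 : ℝ) < p.κ := by exact_mod_cast q1
  have r2 : (0 : ℝ) < p.a1 := by exact_mod_cast q6
  have r3 : (0 : ℝ) < p.b := by exact_mod_cast q9
  have r4 : (0 : ℝ) ≤ p.F := by exact_mod_cast q11
  have r5 : (0 : ℝ) < p.N := by exact_mod_cast q12
  have m0 : 0 < t.m := (mul_pos q12 q9).trans_le k1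
  have rm : (0 : ℝ) < t.m := by exact_mod_cast m0
  have rr : (0 : ℝ) < t.r := by exact_mod_cast k4
  have s1 : (p.N : ℝ) * p.b ≤ t.m := by exact_mod_cast k1
  have s3 : (t.m : ℝ) ≤ p.N * p.a1 := by exact_mod_cast k3
  have s5 : (0 : ℝ) ≤ t.R2 := by exact_mod_cast k5
  have s6 : (p.F : ℝ) + p.N * p.b + t.R2 ^ 2 / (2 * p.κ) ≤ t.R2 := by exact_mod_cast k6
  have s7 : (t.R2 : ℝ) / p.κ * t.l1 < 1 := by exact_mod_cast k7
  have s8 : (t.R2 : ℝ) / (1 - t.R2 / p.κ * t.l1) ≤ t.S1 := by exact_mod_cast k8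
  have s9 : (0 : ℝ) ≤ t.c1 := by exact_mod_cast k9
  have s10 : (0 : ℝ) ≤ t.c2 := by exact_mod_cast k10
  have s11 : 2 * (t.S1 : ℝ) * (1 + t.c1) ≤ p.κ * t.c1 := by exact_mod_cast k11
  have s12 : 2 * (t.S1 : ℝ) * t.c2 + t.m * (1 + t.c1 + t.c2) ^ 2 ≤ 2 * p.κ * t.c2 := by
    exact_mod_cast k12
  have s13 : ((t.S1 : ℝ) + t.m * (1 + t.c1 + t.c2)) * (t.l2 / p.κ + 1 / t.r) < 1 := by
    exact_mod_cast k13
  have L1 : Real.log ((t.m : ℝ) / p.N / p.b) ≤ t.l1 := by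
    have e : Real.log ((t.m / p.N / p.b : ℚ) : ℝ) ≤ t.l1 := lgOk_le g1
    push_cast at e
    exact e
  have L2 : Real.log ((p.a1 : ℝ) * p.N / t.m) ≤ t.l2 := by
    have e : Real.log ((p.a1 * p.N / t.m : ℚ) : ℝ) ≤ t.l2 := lgOk_le g2
    push_cast at e
    exact e
  have hex : 1 ≤ Real.exp (p.κ / t.r) := Real.one_le_exp (by positivity)
  have hS0 : (0 : ℝ) ≤ t.S1 := le_trans (div_nonneg s5 (by linarith)) s8
  have hlog1 : (t.R2 : ℝ) / p.κ * Real.log ((t.m : ℝ) / p.N / p.b) ≤ t.R2 / p.κ * t.l1 :=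
    mul_le_mul_of_nonneg_left L1 (by positivity)
  refine ⟨r1, r3, r4, r5, s1, ?_, hNB, hFB, t.R2, t.S1, t.c1, t.c2, s5, s6, by linarith, ?_, s9, s10,
    s11, s12, ?_⟩
  · calc (t.m : ℝ) ≤ p.N * p.a1 := s3
      _ ≤ p.N * (p.a1 * Real.exp (p.κ / t.r)) := by
        refine mul_le_mul_of_nonneg_left ?_ r5.le
        nlinarith
  · refine le_trans ?_ s8
    exact div_le_div_of_nonneg_left s5 (by linarith) (by linarith)
  · have e : Real.log ((p.a1 : ℝ) * Real.exp (p.κ / t.r) / (t.m / p.N)) =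
        Real.log ((p.a1 : ℝ) * p.N / t.m) + p.κ / t.r := by
      have e1 : (p.a1 : ℝ) * Real.exp (p.κ / t.r) / (t.m / p.N) =
          (p.a1 : ℝ) * p.N / t.m * Real.exp (p.κ / t.r) := by
        field_simp
      rw [e1, Real.log_mul (by positivity) (Real.exp_pos _).ne', Real.log_exp]
    rw [e]
    have hQ : (0 : ℝ) ≤ (t.S1 + t.m * (1 + t.c1 + t.c2)) := by positivity
    calc ((t.S1 : ℝ) + t.m * (1 + t.c1 + t.c2)) / p.κ *
          (Real.log ((p.a1 : ℝ) * p.N / t.m) + p.κ / t.r)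
        ≤ ((t.S1 : ℝ) + t.m * (1 + t.c1 + t.c2)) / p.κ * (t.l2 + p.κ / t.r) :=
          mul_le_mul_of_nonneg_left (by linarith) (by positivity)
      _ = ((t.S1 : ℝ) + t.m * (1 + t.c1 + t.c2)) * (t.l2 / p.κ + 1 / t.r) := by
          field_simp
      _ < 1 := s13

/-- upper bound of `imG` -/
theorem imG_le {c α lG : ℚ} (hc : 0 ≤ c) (hα : 0 < α) (hα2 : α ≤ 157 / 25)
    (h : lgOk ((4 * 3.141593 - α) / α) lG = true) : imG c α ≤ gUp c α lG := by
  have hpi := Real.pi_pos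
  have p1 : (3.141592 : ℝ) < Real.pi := Real.pi_gt_d6
  have p2 : Real.pi < (3.141593 : ℝ) := Real.pi_lt_d6
  have rc : (0 : ℝ) ≤ c := by exact_mod_cast hc
  have ra : (0 : ℝ) < α := by exact_mod_cast hα
  have ra2 : (α : ℝ) ≤ 157 / 25 := by
    have : ((157 / 25 : ℚ) : ℝ) = 157 / 25 := by push_cast; ring
    rw [← this]
    exact_mod_cast hα2
  have hl0 : (0 : ℝ) ≤ lG := by exact_mod_cast lgOk_nonneg h
  have hL : Real.log ((4 * 3.141593 - (α : ℝ)) / α) ≤ lG := by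
    have e := lgOk_le h
    push_cast at e
    exact e
  have h1 : Real.log (4 * Real.pi - α) - Real.log α ≤ lG := by
    refine le_trans ?_ hL
    rw [Real.log_div (by linarith) ra.ne']
    have : Real.log (4 * Real.pi - α) ≤ Real.log (4 * 3.141593 - α) :=
      Real.log_le_log (by linarith) (by linarith)
    linarith
  have h2 : imL α ≤ lG / (4 * 3.141592) := by
    unfold imL
    have e1 : (1 / (4 * Real.pi)) * (Real.log (4 * Real.pi - α) - Real.log α) ≤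
        (1 / (4 * Real.pi)) * lG := mul_le_mul_of_nonneg_left h1 (by positivity)
    have e2 : (1 / (4 * Real.pi)) * (lG : ℝ) ≤ (1 / (4 * 3.141592)) * lG := by
      refine mul_le_mul_of_nonneg_right ?_ hl0
      exact one_div_le_one_div_of_le (by norm_num) (by linarith)
    have e3 : (1 / (4 * 3.141592)) * (lG : ℝ) = lG / (4 * 3.141592) := by ring
    linarith
  have h3 : (1 : ℝ) + c / (8 * Real.pi ^ 2) ≤ 1 + c / (8 * 3.141592 ^ 2) := by
    have : (c : ℝ) / (8 * Real.pi ^ 2) ≤ c / (8 * 3.141592 ^ 2) := by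
      refine div_le_div_of_nonneg_left rc (by norm_num) ?_
      have := pow_le_pow_left₀ (by norm_num) p1.le 2
      linarith
    linarith
  have h4 : (1 + (c : ℝ) / (8 * Real.pi ^ 2)) * imL α ≤
      (1 + c / (8 * 3.141592 ^ 2)) * (lG / (4 * 3.141592)) := by
    have e1 : (1 + (c : ℝ) / (8 * Real.pi ^ 2)) * imL α ≤
        (1 + (c : ℝ) / (8 * Real.pi ^ 2)) * (lG / (4 * 3.141592)) :=
      mul_le_mul_of_nonneg_left h2 (by positivity)
    have e2 : (1 + (c : ℝ) / (8 * Real.pi ^ 2)) * (lG / (4 * 3.141592)) ≤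
        (1 + c / (8 * 3.141592 ^ 2)) * (lG / (4 * 3.141592)) :=
      mul_le_mul_of_nonneg_right h3 (by positivity)
    linarith
  have h5 : (α : ℝ)⁻¹ - (4 * Real.pi - α)⁻¹ ≤ (α : ℝ)⁻¹ - (4 * 3.141593 - (α : ℝ))⁻¹ := by
    have : (4 * 3.141593 - (α : ℝ))⁻¹ ≤ (4 * Real.pi - α)⁻¹ :=
      inv_anti₀ (by linarith) (by linarith)
    linarith
  have h6 : (0 : ℝ) ≤ (α : ℝ)⁻¹ - (4 * 3.141593 - (α : ℝ))⁻¹ := by
    have : (4 * 3.141593 - (α : ℝ))⁻¹ ≤ (α : ℝ)⁻¹ := inv_anti₀ ra (by linarith)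
    linarith
  have h7 : (c : ℝ) / (16 * Real.pi ^ 2) * ((α : ℝ)⁻¹ - (4 * Real.pi - α)⁻¹) ≤
      c / (16 * 3.141592 ^ 2) * ((α : ℝ)⁻¹ - (4 * 3.141593 - (α : ℝ))⁻¹) := by
    have e1 := mul_le_mul_of_nonneg_left h5 (show (0 : ℝ) ≤ c / (16 * Real.pi ^ 2) by positivity)
    have e2 : (c : ℝ) / (16 * Real.pi ^ 2) ≤ c / (16 * 3.141592 ^ 2) := by
      refine div_le_div_of_nonneg_left rc (by norm_num) ?_
      have := pow_le_pow_left₀ (by norm_num) p1.le 2
      linarith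
    exact e1.trans (mul_le_mul_of_nonneg_right e2 h6)
  unfold imG gUp
  push_cast
  linarith

/-- the numbers of the outer region -/
theorem vnum_of_par {p : Par} (hp : parOk p = true) :
    VNum p.X p.K p.a1 p.D (imG p.cG) (fun α => imh0 α + p.cG * imh0 α ^ 2) := by
  obtain ⟨-, -, q3, q4, q5, q6, q7, q8, -, -, -, -, q13, q14, q15⟩ := of_decide_eq_true hp
  have hpi := Real.pi_pos
  have p1 : (3.141592 : ℝ) < Real.pi := Real.pi_gt_d6
  have r3 : (0 : ℝ) ≤ p.X := by exact_mod_cast q3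
  have r4 : (0 : ℝ) < p.K := by exact_mod_cast q4
  have r5 : (0 : ℝ) < p.cG := by exact_mod_cast q5
  have r7 : (0 : ℝ) < (p.a1 : ℝ) - p.D - p.X := by exact_mod_cast q7
  have r8 : (p.a1 : ℝ) - p.D ≤ 157 / 25 := by
    have : ((157 / 25 : ℚ) : ℝ) = 157 / 25 := by push_cast; ring
    rw [← this]
    exact_mod_cast q8
  have r13 : (0 : ℝ) ≤ p.D := by exact_mod_cast q13
  set A : ℝ := (p.a1 : ℝ) - p.D - p.X with hA
  have hup : imh0 A ≤ (hUp (p.a1 - p.D - p.X) : ℝ) := by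
    have h1 : 0 < A * (4 * 3.141592 - A) := mul_pos r7 (by linarith)
    have h2 : A * (4 * 3.141592 - A) ≤ A * (4 * Real.pi - A) :=
      mul_le_mul_of_nonneg_left (by linarith) r7.le
    unfold imh0 hUp
    push_cast
    exact one_div_le_one_div_of_le h1 h2
  have r14 : (p.cG : ℝ) * (hUp (p.a1 - p.D - p.X) : ℝ) ≤ 1 := by exact_mod_cast q14
  have r15 : (1 + (p.cG : ℝ) * (hUp (p.a1 - p.D - p.X) : ℝ)) ^ 2 ≤ 2 * p.cG * p.K := by
    exact_mod_cast q15
  have hch : (p.cG : ℝ) * imh0 A ≤ p.cG * (hUp (p.a1 - p.D - p.X) : ℝ) :=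
    mul_le_mul_of_nonneg_left hup r5.le
  have hh0 : 0 < imh0 A := (imh0_le r7 le_rfl (by linarith)).1
  have hV := vnum_imG (X := p.X) (a₁ := p.a1) (D := p.D) r5 r3 r13 r7 (by linarith) (hch.trans r14)
  have hK : imK p.cG A ≤ p.K := by
    unfold imK
    rw [div_le_iff₀ (by positivity)]
    have h1 : (1 + (p.cG : ℝ) * imh0 A) ^ 2 ≤
        (1 + (p.cG : ℝ) * (hUp (p.a1 - p.D - p.X) : ℝ)) ^ 2 :=
      pow_le_pow_left₀ (by positivity) (by linarith) 2
    linarith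
  refine ⟨r4, hV.a0, hV.A1, hV.haD, hV.hX, hV.hG, fun α h1 h2 => ?_, fun α h1 h2 => ?_,
    fun y h1 h2 => ?_⟩
  · refine (hV.hgg α h1 h2).trans ?_
    have h3 : (imh0 α + p.cG * imh0 α ^ 2) ^ 2 / (2 * p.K) ≤
        (imh0 α + p.cG * imh0 α ^ 2) ^ 2 / (2 * imK p.cG A) :=
      div_le_div_of_nonneg_left (sq_nonneg _) (by linarith [hV.K0]) (by linarith)
    linarith
  · exact (hV.hgK α h1 h2).trans hK
  · have h3 := hV.hG0 y h1 h2
    have h4 := mul_le_mul_of_nonneg_right hK h1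
    linarith

variable {M : Type} [MetricSpace M] {γ : ℝ → M} [CompactSpace M]

omit [CompactSpace M] in
/-- **the certificates for all values of the account from one table** -/
theorem vcert_of_tab (C : Calc M γ) {v : Fin 3 → M → ℝ} {f w : Om → ℝ} {p : Par}
    (hv : VDat C v f w p.X p.ρ) (hwN : ∀ o, 4 * w o ≤ p.N) {B : ℝ} (hNB : (p.N : ℝ) ≤ B)
    (hFB : (p.F : ℝ) / p.b ≤ B) {l : List Row} (htab : tabOk p l = true) :
    VCert C f w p.κ B p.ρ p.X p.K p.a1 p.D p.b p.F (imG p.cG) := by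
  have := C.fin
  rw [tabOk, Bool.and_eq_true] at htab
  obtain ⟨hp, hrows⟩ := htab
  have hN := vnum_of_par hp
  obtain ⟨q1, q2, q3, q4, q5, q6, q7, q8, q9, q10, q11, q12, q13, q14, q15⟩ := of_decide_eq_true hp
  have r1 : (0 : ℝ) < p.κ := by exact_mod_cast q1
  have r5 : (0 : ℝ) < p.N := by exact_mod_cast q12
  have rρ : (0 : ℝ) ≤ p.ρ := by exact_mod_cast q2
  have rcG : (0 : ℝ) < p.cG := by exact_mod_cast q5
  have rX : (0 : ℝ) < (p.a1 : ℝ) - p.D - p.X := by exact_mod_cast q7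
  have r8 : (p.a1 : ℝ) - p.D ≤ 157 / 25 := by
    have : ((157 / 25 : ℚ) : ℝ) = 157 / 25 := by push_cast; ring
    rw [← this]
    exact_mod_cast q8
  have hpi : (3.141592 : ℝ) < Real.pi := Real.pi_gt_d6
  intro ω h0 h1
  obtain ⟨w1, T, hT, hw1, hw2⟩ := rowsOk_ex l hrows ω (by exact_mod_cast h0) h1
  have hok := rowOk_hwOk hp hT hNB hFB
  have hT' := hT
  simp only [rowOk, Bool.and_eq_true] at hT'
  obtain ⟨⟨⟨hT1, -⟩, -⟩, gG⟩ := hT'
  obtain ⟨k00, k0, k1, k2, k3, k4, -, -, -, -, -, -, -, -, -, k14, k15⟩ := of_decide_eq_true hT1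
  have m0 : 0 < T.m := (mul_pos q12 q9).trans_le k1
  have rm : (0 : ℝ) < T.m := by exact_mod_cast m0
  have rr : (0 : ℝ) < T.r := by exact_mod_cast k4
  have s3 : (T.m : ℝ) ≤ p.N * p.a1 := by exact_mod_cast k3
  have s2 : 4 * (p.ρ : ℝ) * T.w ≤ T.m := by exact_mod_cast k2
  have s14 : (0 : ℝ) ≤ 4 * p.ρ * p.X - T.m + T.r := by exact_mod_cast k14
  have s15 : (4 * (p.ρ : ℝ) * p.X - T.m + T.r) *
      (gUp p.cG (p.a1 - p.D - w1) T.lG + p.K * (p.X - w1)) < 1 := by exact_mod_cast k15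
  have sK : (0 : ℝ) < p.K := by exact_mod_cast q4
  have hw0 : (0 : ℝ) ≤ w1 := by exact_mod_cast k00
  have hwX : w1 ≤ p.X := k0
  have hn1 : max 0 (min ((p.N : ℝ) * p.a1) T.m) = T.m := by
    rw [min_eq_right s3, max_eq_right rm.le]
  have hpos : 0 < imG p.cG (p.a1 - p.D - ω) + p.K * (p.X - ω) := by
    have h3 : 0 < imG p.cG (p.a1 - p.D - ω) := imG_pos rcG (by linarith) (by linarith)
    have h4 : 0 ≤ (p.K : ℝ) * (p.X - ω) := mul_nonneg sK.le (by linarith)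
    linarith
  refine ⟨fun a => max 0 (min (p.N * a) T.m), T.r, rr, hok.D, ?_, hpos, ?_⟩
  · intro S mS hfS
    have iw := hv.wint
    refine le_trans ?_ (le_max_right _ _)
    refine le_min ?_ ?_
    · have h3 : ∫ o in S, 4 * w o ∂C.μ ≤ ∫ _ in S, (p.N : ℝ) ∂C.μ :=
        integral_mono (iw.const_mul 4).integrableOn (integrable_const _).integrableOn hwN
      rw [setIntegral_const, smul_eq_mul, integral_const_mul] at h3
      linarith
    · have h3 : ∫ o in S, w o ∂C.μ ≤ ∫ o in S, p.ρ * f o ∂C.μ :=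
        integral_mono_ae iw.integrableOn (hv.fint.const_mul _).integrableOn
          (ae_restrict_of_ae hv.wf)
      rw [integral_const_mul] at h3
      have h4 : (p.ρ : ℝ) * ∫ o in S, f o ∂C.μ ≤ p.ρ * T.w :=
        mul_le_mul_of_nonneg_left (hfS.trans hw2) rρ
      linarith
  · simp only [hn1]
    have h3 := hN.anti hw0 hw1 h1
    have h4 : imG p.cG (p.a1 - p.D - w1) ≤ gUp p.cG (p.a1 - p.D - w1) T.lG := by
      have := imG_le (c := p.cG) (α := p.a1 - p.D - w1) q5.le (by linarith) (by linarith) gG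
      push_cast at this ⊢
      exact this
    have h5 : imG p.cG (p.a1 - p.D - ω) + p.K * (p.X - ω) ≤
        gUp p.cG (p.a1 - p.D - w1) T.lG + p.K * (p.X - w1) := by linarith
    have h6 : 4 * (p.ρ : ℝ) * (p.X - ω) + (min (4 * p.ρ * ω) T.m - T.m) + T.r ≤
        4 * p.ρ * p.X - T.m + T.r := by
      have := min_le_left (4 * (p.ρ : ℝ) * ω) T.m
      linarith
    exact lt_of_le_of_lt (mul_le_mul_of_nonneg_right h6 hpos.le)
      (lt_of_le_of_lt (mul_le_mul_of_nonneg_left h5 s14) s15)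

/-! ### one cell of the parameter `c` -/

/-- **(H) and (HS) for one map and one `c` from one table** -/
theorem hsv_of_tab (C : Calc M γ) (hγ : Bd γ) (hR : RegAE C) {v : Fin 3 → M → ℝ} {f w : Om → ℝ}
    {p : Par} (hv : VDat C v f w p.X p.ρ) (hwN : ∀ o, 4 * w o ≤ p.N) {ε δ : ℝ}
    (hI : IsopO C p.κ ε) (hε : 0 ≤ ε)
    (hα : ∀ g : M → ℝ, Lip g → ∀ s, 0 ≤ s → p.a1 ≤ supa C g s →
      p.a1 - p.D - supw C g f s ≤ supw C g (jac C v) s)
    {l : List Row} (htab : tabOk p l = true) (hδ : 128 * max (p.N : ℝ) (p.F / p.b) * ε ≤ δ)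
    {σ s xl xu k se : ℚ} (hcell : cellOk p σ s xl xu k se = true) {Ee : ℝ} (hse : √Ee ≤ se)
    {c k' : ℝ} (h1 : (xl : ℝ) ≤ Real.exp c)
    (h2 : Real.exp c ≤ xu) (hk : 0 ≤ k') (hk' : k' ≤ k) :
    Hv C w δ ∧ HSv C w p.κ k' (Lc Ee c) c δ ε σ := by
  have htab' := htab
  rw [tabOk, Bool.and_eq_true] at htab'
  obtain ⟨hp, -⟩ := htab'
  have hN := vnum_of_par hp
  obtain ⟨q1, -, -, -, -, -, -, -, q9, q10, q11, -, -, -, -⟩ := of_decide_eq_true hp
  obtain ⟨t1, t2, t3, t4, t5, t6, t7⟩ := of_decide_eq_true hcell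
  have r1 : (0 : ℝ) < p.κ := by exact_mod_cast q1
  have r10 : (p.b : ℝ) ≤ p.a1 := by exact_mod_cast q10
  have r9 : (0 : ℝ) < p.b := by exact_mod_cast q9
  have r11 : (0 : ℝ) ≤ p.F := by exact_mod_cast q11
  have u1 : (0 : ℝ) < s := by exact_mod_cast t1
  have u2 : (s : ℝ) < σ := by exact_mod_cast t2
  have u3 : (1 : ℝ) < xl := by exact_mod_cast t3
  have u6 : (k : ℝ) ≤ 2 * (1 - 1 / xl) * p.F * s ^ 2 := by exact_mod_cast t6
  have u7 : (p.b : ℝ) * (8 * (se * xu + 1) ^ 2) ≤ p.κ * ((σ - s) * (1 - 1 / xl)) ^ 2 := by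
    exact_mod_cast t7
  have hx1 : 1 < Real.exp c := u3.trans_le h1
  have hc : 0 < c := by
    rw [← Real.exp_zero] at hx1
    exact Real.exp_lt_exp.1 hx1
  have hq : 1 - 1 / (xl : ℝ) ≤ 1 - Real.exp (-c) := by
    rw [Real.exp_neg, ← one_div]
    have : 1 / Real.exp c ≤ 1 / (xl : ℝ) := one_div_le_one_div_of_le (by linarith) h1
    linarith
  have hq0 : 0 ≤ 1 - 1 / (xl : ℝ) := by
    have : 1 / (xl : ℝ) ≤ 1 := by
      rw [div_le_one (by linarith)]
      exact u3.le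
    linarith
  refine hsv_of_vhw C hγ hR hv r1 hI hε hN r10 hα
    (vcert_of_tab C hv hwN (le_max_left _ _) (le_max_right _ _) htab) hδ u1 u2 hc hk ?_ ?_
  · refine (hk'.trans u6).trans ?_
    have : 2 * (1 - 1 / (xl : ℝ)) * p.F * s ^ 2 = 2 * p.F * s ^ 2 * (1 - 1 / (xl : ℝ)) := by ring
    rw [this]
    have : 2 * (1 - Real.exp (-c)) * (p.F : ℝ) * (s : ℝ) ^ 2 =
        2 * p.F * s ^ 2 * (1 - Real.exp (-c)) := by ring
    rw [this]
    exact mul_le_mul_of_nonneg_left hq (by positivity)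
  · have hs0 : 0 ≤ √Ee := Real.sqrt_nonneg _
    have hsq : (4 : ℝ) * (Lc Ee c) ^ 2 = 8 * (√Ee * Real.exp c + 1) ^ 2 := by
      unfold Lc
      rw [mul_pow, Real.sq_sqrt (by norm_num)]
      ring
    have hp0 : 0 ≤ √Ee * Real.exp c := by positivity
    rw [hsq, le_div_iff₀ (by positivity)]
    have h30 : √Ee * Real.exp c ≤ se * xu :=
      mul_le_mul hse h2 (Real.exp_pos c).le (hs0.trans hse)
    have h3 : (√Ee * Real.exp c + 1) ^ 2 ≤ ((se : ℝ) * xu + 1) ^ 2 :=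
      pow_le_pow_left₀ (by linarith) (by linarith) 2
    have h4 : (p.b : ℝ) * (8 * (√Ee * Real.exp c + 1) ^ 2) ≤ p.b * (8 * (se * xu + 1) ^ 2) :=
      mul_le_mul_of_nonneg_left (by linarith) r9.le
    have h5 : ((σ - s) * (1 - 1 / (xl : ℝ))) ^ 2 ≤ ((σ - s) * (1 - Real.exp (-c))) ^ 2 :=
      pow_le_pow_left₀ (mul_nonneg (by linarith) hq0) (mul_le_mul_of_nonneg_left hq (by linarith)) 2
    have h6 := mul_le_mul_of_nonneg_left h5 r1.le
    linarith

end Pool.Agent.FPX.VTB
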