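import Mathlib
import Pool.Agent.FPX.VTB
import Pool.Agent.FPX.HCT
import Pool.Agent.FPX.KGC

/-
VTC (helper94): rational tables for the core certificates of `HCT` (helper81) and the image of `v`
outside (helper91): one Boolean function, all exponentials and logarithms certified.
-/

open MeasureTheory Set Filter Topology
open scoped ENNReal NNReal

noncomputable section

namespace Pool.Agent.FPX.VTB

open Pool.Agent.EWD Pool.Agent.FPM Pool.Agent.FPX

/-! ### the dual certificate -/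

/-- the same with exact exponentials -/
def hsR (κ a1 l f : ℝ) : List HJ → ℝ
  | [] => 0
  | h :: js => (1 - Real.exp (-h.x) * (1 + h.x) + Real.exp (-h.x) * f / κ) * h.d +
      Real.exp (-h.x) * h.s / κ * (a1 * (Real.exp (l - hT js) - Real.exp (l - hT js - h.d))) +
        hsR κ a1 l f js

/-- the same with exact exponentials -/
def hgR (κ L : ℝ) : List HJ → ℝ
  | [] => 0
  | h :: js => Real.exp (-h.x) / κ * h.d * max (L - h.s) 0 + hgR κ L js

theorem hsR_le {κ a1 l f N : ℚ} (hκ : 0 < κ) (ha : 0 ≤ a1) (hf : 0 ≤ f) : ∀ js : List HJ,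
    hjOk N l js = true → hsR κ a1 l f js ≤ (hsQ κ a1 l f js : ℝ)
  | [], _ => by simp [hsR, hsQ]
  | h :: js, hok => by
    rw [hjOk, Bool.and_eq_true] at hok
    obtain ⟨h1, h2⟩ := hok
    obtain ⟨q1, q2, q3, q4, q5⟩ := of_decide_eq_true h1
    have ih := hsR_le hκ ha hf js h2
    have rκ : (0 : ℝ) < κ := by exact_mod_cast hκ
    have ra : (0 : ℝ) ≤ a1 := by exact_mod_cast ha
    have rf : (0 : ℝ) ≤ f := by exact_mod_cast hf
    have r1 : (0 : ℝ) ≤ h.d := by exact_mod_cast q1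
    have r2 : (0 : ℝ) ≤ h.x := by exact_mod_cast q2
    have r3 : (0 : ℝ) ≤ h.s := by exact_mod_cast q3
    have e1 : Real.exp (-h.x) ≤ (eU (-h.x) : ℝ) := by
      have := le_eU (x := -h.x) (by linarith)
      push_cast at this
      exact this
    have e2 : (eL (-h.x) : ℝ) ≤ Real.exp (-h.x) := by
      have := eL_le (-h.x)
      push_cast at this
      exact this
    have e3 : Real.exp ((l : ℝ) - hT js) ≤ (eU (l - hT js) : ℝ) := by
      have := le_eU (x := l - hT js) q5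
      push_cast at this
      exact this
    have e4 : (eL (l - hT js - h.d) : ℝ) ≤ Real.exp ((l : ℝ) - hT js - h.d) := by
      have := eL_le (l - hT js - h.d)
      push_cast at this
      exact this
    have hp := Real.exp_pos (-(h.x : ℝ))
    rw [hsR, hsQ]
    push_cast
    refine add_le_add (add_le_add ?_ ?_) ih
    · refine mul_le_mul_of_nonneg_right ?_ r1
      have t1 : (eL (-h.x) : ℝ) * (1 + h.x) ≤ Real.exp (-h.x) * (1 + h.x) :=
        mul_le_mul_of_nonneg_right e2 (by linarith)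
      have t2 : Real.exp (-h.x) * (f : ℝ) / κ ≤ (eU (-h.x) : ℝ) * f / κ := by
        refine div_le_div_of_nonneg_right (mul_le_mul_of_nonneg_right e1 rf) rκ.le
      linarith
    · have t1 : Real.exp (-h.x) * (h.s : ℝ) / κ ≤ (eU (-h.x) : ℝ) * h.s / κ :=
        div_le_div_of_nonneg_right (mul_le_mul_of_nonneg_right e1 r3) rκ.le
      have t2 : (a1 : ℝ) * (Real.exp ((l : ℝ) - hT js) - Real.exp ((l : ℝ) - hT js - h.d)) ≤
          a1 * ((eU (l - hT js) : ℝ) - (eL (l - hT js - h.d) : ℝ)) :=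
        mul_le_mul_of_nonneg_left (by linarith) ra
      have t3 : 0 ≤ (a1 : ℝ) * (Real.exp ((l : ℝ) - hT js) - Real.exp ((l : ℝ) - hT js - h.d)) := by
        refine mul_nonneg ra ?_
        have := Real.exp_le_exp.2 (show (l : ℝ) - hT js - h.d ≤ (l : ℝ) - hT js by linarith)
        linarith
      have t4 : 0 ≤ (eU (-h.x) : ℝ) * h.s / κ := by
        have : 0 ≤ (eU (-h.x) : ℝ) := hp.le.trans e1
        positivity
      exact mul_le_mul t1 t2 t3 t4

theorem hgR_le {κ N l L : ℚ} (hκ : 0 < κ) : ∀ js : List HJ,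
    hjOk N l js = true → hgR κ L js ≤ (hgQ κ L js : ℝ)
  | [], _ => by simp [hgR, hgQ]
  | h :: js, hok => by
    rw [hjOk, Bool.and_eq_true] at hok
    obtain ⟨h1, h2⟩ := hok
    obtain ⟨q1, q2, q3, q4, q5⟩ := of_decide_eq_true h1
    have ih := hgR_le (L := L) hκ js h2
    have rκ : (0 : ℝ) < κ := by exact_mod_cast hκ
    have r1 : (0 : ℝ) ≤ h.d := by exact_mod_cast q1
    have e1 : Real.exp (-h.x) ≤ (eU (-h.x) : ℝ) := by
      have := le_eU (x := -h.x) (by linarith)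
      push_cast at this
      exact this
    rw [hgR, hgQ]
    push_cast
    refine add_le_add ?_ ih
    refine mul_le_mul_of_nonneg_right ?_ (le_max_right _ _)
    exact mul_le_mul_of_nonneg_right (div_le_div_of_nonneg_right e1 rκ.le) r1

/-- convexity and monotonicity of the pointwise sum -/
theorem hgR_conv {κ : ℝ} (hκ : 0 < κ) {N l : ℚ} : ∀ js : List HJ, hjOk N l js = true →
    ∀ {W p q θ : ℝ}, 0 ≤ θ → θ ≤ 1 → W ≤ (1 - θ) * p + θ * q →
      hgR κ W js ≤ (1 - θ) * hgR κ p js + θ * hgR κ q js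
  | [], _, _, _, _, _, _, _, _ => by simp [hgR]
  | h :: js, hok, W, p, q, θ, h0, h1, hW => by
    rw [hjOk, Bool.and_eq_true] at hok
    obtain ⟨h3, h2⟩ := hok
    obtain ⟨q1, q2, q3, q4, q5⟩ := of_decide_eq_true h3
    have ih := hgR_conv hκ js h2 h0 h1 hW
    have r1 : (0 : ℝ) ≤ h.d := by exact_mod_cast q1
    have hm : max (W - h.s) 0 ≤ (1 - θ) * max (p - h.s) 0 + θ * max (q - h.s) 0 := by
      have a1 := le_max_left (p - (h.s : ℝ)) 0
      have a2 := le_max_right (p - (h.s : ℝ)) 0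
      have a3 := le_max_left (q - (h.s : ℝ)) 0
      have a4 := le_max_right (q - (h.s : ℝ)) 0
      refine max_le ?_ ?_
      · have b1 := mul_le_mul_of_nonneg_left a1 (show 0 ≤ 1 - θ by linarith)
        have b2 := mul_le_mul_of_nonneg_left a3 h0
        nlinarith
      · have b1 := mul_nonneg (show 0 ≤ 1 - θ by linarith) a2
        have b2 := mul_nonneg h0 a4
        linarith
    have hc : 0 ≤ Real.exp (-h.x) / κ * (h.d : ℝ) := by positivity
    have := mul_le_mul_of_nonneg_left hm hc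
    rw [hgR, hgR, hgR]
    linarith

/-- the point `(φ, W)` is below the hull of two vertices -/
def Below (V : List (ℚ × ℚ)) (φ W : ℝ) : Prop :=
  ∃ p ∈ V, ∃ q ∈ V, ∃ θ : ℝ, 0 ≤ θ ∧ θ ≤ 1 ∧ W ≤ (1 - θ) * p.2 + θ * q.2 ∧
    (1 - θ) * p.1 + θ * q.1 ≤ φ

theorem hgR_below {κ lam N l : ℚ} (hκ : 0 < κ) (hlam : 0 ≤ lam) {js : List HJ} (hok : hjOk N l js = true)
    {V : List (ℚ × ℚ)} (hV : hvOk κ lam js V = true) {φ W : ℝ} (h : Below V φ W) :
    hgR κ W js ≤ lam * φ := by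
  obtain ⟨p, hp, q, hq, θ, h0, h1, hW, hφ⟩ := h
  have rκ : (0 : ℝ) < κ := by exact_mod_cast hκ
  have rl : (0 : ℝ) ≤ lam := by exact_mod_cast hlam
  rw [hvOk, List.all_eq_true] at hV
  have kp : hgR κ p.2 js ≤ lam * p.1 := by
    have a1 : hgQ κ p.2 js ≤ lam * p.1 := of_decide_eq_true (hV p hp)
    refine (hgR_le (L := p.2) hκ js hok).trans ?_
    exact_mod_cast a1
  have kq : hgR κ q.2 js ≤ lam * q.1 := by
    have a1 : hgQ κ q.2 js ≤ lam * q.1 := of_decide_eq_true (hV q hq)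
    refine (hgR_le (L := q.2) hκ js hok).trans ?_
    exact_mod_cast a1
  have k1 := hgR_conv rκ js hok h0 h1 hW
  have k2 := mul_le_mul_of_nonneg_left kp (show 0 ≤ 1 - θ by linarith)
  have k3 := mul_le_mul_of_nonneg_left kq h0
  have k4 := mul_le_mul_of_nonneg_left hφ rl
  nlinarith

/-! ### conversion to the sums of `hct_main` -/

/-- the nodes -/
def bj (a1 l : ℝ) (js : List HJ) (j : ℕ) : ℝ := a1 * Real.exp (l - hT (js.drop j))

/-- the default entry -/
def hj0 : HJ := ⟨0, 0, 0⟩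

theorem bj_cons (a1 l : ℝ) (h : HJ) (js : List HJ) (j : ℕ) : bj a1 l (h :: js) (j + 1) = bj a1 l js j := rfl

theorem bj_ratio {a1 l : ℝ} (ha : 0 < a1) (js : List HJ) {j : ℕ} (hj : j < js.length) :
    Real.log (bj a1 l js (j + 1) / bj a1 l js j) = ((js.getD j hj0).d : ℝ) := by
  unfold bj
  rw [mul_div_mul_left _ _ ha.ne', ← Real.exp_sub, Real.log_exp]
  have e : js.drop j = js.getD j hj0 :: js.drop (j + 1) := by
    rw [List.drop_eq_getElem_cons hj]
    congr 1
    simp [hj]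
  rw [e, hT]
  push_cast
  ring

theorem bj_ratio0 {a1 l : ℝ} (ha : 0 < a1) (h : HJ) (js : List HJ) :
    Real.log (bj a1 l js 0 / bj a1 l (h :: js) 0) = (h.d : ℝ) :=
  bj_ratio ha (h :: js) (j := 0) (by simp)

theorem bj_diff0 (a1 l : ℝ) (h : HJ) (js : List HJ) : bj a1 l js 0 - bj a1 l (h :: js) 0 =
    a1 * (Real.exp (l - hT js) - Real.exp (l - hT js - h.d)) := by
  unfold bj
  simp only [List.drop_zero, hT]
  push_cast
  rw [show l - ((h.d : ℝ) + hT js) = l - hT js - h.d by ring]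
  ring

theorem sum_hsR {κ a1 l f : ℝ} (ha : 0 < a1) : ∀ js : List HJ,
    ∑ j ∈ Finset.range js.length,
      ((1 - Real.exp (-((js.getD j hj0).x : ℝ)) * (1 + (js.getD j hj0).x) +
          Real.exp (-((js.getD j hj0).x : ℝ)) * f / κ) *
        Real.log (bj a1 l js (j + 1) / bj a1 l js j) +
      Real.exp (-((js.getD j hj0).x : ℝ)) * (js.getD j hj0).s / κ *
        (bj a1 l js (j + 1) - bj a1 l js j)) = hsR κ a1 l f js
  | [] => by simp [hsR]
  | h :: js => by
    rw [List.length_cons, Finset.sum_range_succ']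
    have ih := sum_hsR (κ := κ) (f := f) (l := l) ha js
    simp only [List.getD_cons_succ, bj_cons]
    rw [ih, bj_ratio0 ha, bj_diff0]
    simp only [List.getD_cons_zero]
    rw [hsR]
    ring

theorem sum_hgR {κ a1 l : ℝ} (ha : 0 < a1) (W : ℝ) : ∀ js : List HJ,
    ∑ j ∈ Finset.range js.length,
      Real.exp (-((js.getD j hj0).x : ℝ)) / κ * Real.log (bj a1 l js (j + 1) / bj a1 l js j) *
        max (W - (js.getD j hj0).s) 0 = hgR κ W js
  | [] => by simp [hgR]
  | h :: js => by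
    rw [List.length_cons, Finset.sum_range_succ']
    have ih := sum_hgR (κ := κ) (l := l) ha W js
    simp only [List.getD_cons_succ, bj_cons]
    rw [ih, bj_ratio0 ha]
    simp only [List.getD_cons_zero]
    rw [hgR]
    ring

theorem hjOk_get {N l : ℚ} : ∀ (js : List HJ), hjOk N l js = true → ∀ j < js.length,
    0 ≤ (js.getD j hj0).d ∧ 0 ≤ (js.getD j hj0).s ∧ (js.getD j hj0).s ≤ N
  | [], _, j, hj => by simp at hj
  | h :: js, hok, j, hj => by
    rw [hjOk, Bool.and_eq_true] at hok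
    obtain ⟨h1, h2⟩ := hok
    obtain ⟨q1, q2, q3, q4, q5⟩ := of_decide_eq_true h1
    cases j with
    | zero => exact ⟨q1, q3, q4⟩
    | succ j =>
      rw [List.getD_cons_succ]
      exact hjOk_get js h2 j (by simpa using hj)

/-! ### one cell of the account -/

/-! ### packed data (base `2 ^ 24`, unit `10 ^ (-5)`), to keep tables short -/

theorem rowsC_ex {p : Par} {V : List (ℚ × ℚ)} : ∀ (l : List RowC) {w0 : ℚ}, rowsC p V w0 l = true →
    ∀ ω : ℝ, (w0 : ℝ) ≤ ω → ω ≤ p.X →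
    ∃ (w1 : ℚ) (t : RowC), rowC p V w1 t = true ∧ (w1 : ℝ) ≤ ω ∧ ω ≤ t.w
  | [], w0, h, ω, h0, h1 => by
    have h2 : p.X < w0 := of_decide_eq_true h
    have h3 : (p.X : ℝ) < w0 := by exact_mod_cast h2
    linarith
  | t :: l, w0, h, ω, h0, h1 => by
    rw [rowsC, Bool.and_eq_true, Bool.or_eq_true] at h
    obtain ⟨h2, h3⟩ := h
    rcases le_or_gt ω t.w with h4 | h4
    · exact ⟨w0, t, h2, h0, h4⟩
    · rcases h3 with h3 | h3
      · have h5 : p.X ≤ t.w := of_decide_eq_true h3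
        have h6 : (p.X : ℝ) ≤ t.w := by exact_mod_cast h5
        linarith
      · exact rowsC_ex l h3 ω h4.le h1

/-- the core certificate from one row, on a finite measure space -/
theorem rowC_core {Ω : Type*} [MeasurableSpace Ω] {μ : Measure Ω} [IsFiniteMeasure μ] {p : Par}
    {V : List (ℚ × ℚ)} {w0 : ℚ} {t : RowC} (hp : parOk p = true) (h : rowC p V w0 t = true) {W φo : Ω → ℝ}
    (hW : Integrable W μ) (hWN : ∀ᵐ o ∂μ, W o ≤ p.N) (hφ : Integrable φo μ)
    (hX : ∫ o, φo o ∂μ ≤ t.w) (hB : ∀ᵐ o ∂μ, (W o = 0 ∧ φo o = 0) ∨ Below V (φo o) (W o)) {B' : ℝ}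
    (hNB : (p.N : ℝ) ≤ B') (hfB : (p.F : ℝ) / p.b ≤ B') :
    ∃ n : ℝ → ℝ, HwD (fun a => p.κ * a) (p.a1 * Real.exp t.l) B' n p.b p.F ∧
      ∀ S : Set Ω, ∫ o in S, W o ∂μ ≤ n (μ.real S) := by
  obtain ⟨q1, q2, q3, q4, q5, q6, q7, q8, q9, q10, q11, q12, q13, q14, q15⟩ := of_decide_eq_true hp
  simp only [rowC, Bool.and_eq_true] at h
  obtain ⟨⟨⟨h, g1⟩, g2⟩, -⟩ := h
  obtain ⟨-, -, k3, k4, k5, k6, k7, -⟩ := of_decide_eq_true h
  have r1 : (0 : ℝ) < p.κ := by exact_mod_cast q1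
  have r2 : (0 : ℝ) < p.a1 := by exact_mod_cast q6
  have r3 : (0 : ℝ) < p.b := by exact_mod_cast q9
  have r4 : (0 : ℝ) ≤ p.F := by exact_mod_cast q11
  have r5 : (0 : ℝ) < p.N := by exact_mod_cast q12
  have r6 : (0 : ℝ) ≤ t.lam := by exact_mod_cast k6
  have e0 : bj p.a1 t.l t.js t.js.length = p.a1 * Real.exp t.l := by
    unfold bj
    rw [List.drop_length, hT]
    push_cast
    rw [sub_zero]
  have e1 : bj p.a1 t.l t.js 0 = p.a1 * Real.exp (t.l - hT t.js) := by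
    unfold bj
    rw [List.drop_zero]
  have key := hct_main (μ := μ) (W := W) (φo := φo) (N := p.N) (X := t.w) (κ := p.κ) (lam := t.lam)
    (b := p.b) (f := p.F) (B' := B') r1 r5.le hW hWN hφ hX r6 r3 r4 hNB hfB (J := t.js.length)
    (β := bj p.a1 t.l t.js) (x := fun j => ((t.js.getD j hj0).x : ℝ))
    (s := fun j => ((t.js.getD j hj0).s : ℝ)) ?_ ?_ ?_ ?_ ?_
  · rw [e0] at key
    exact key
  · rw [e1]
    positivity
  · intro j hj
    have h1 := bj_ratio (a1 := p.a1) (l := t.l) r2 t.js hj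
    have h2 := (hjOk_get t.js g1 j hj).1
    have h3 : (0 : ℝ) ≤ ((t.js.getD j hj0).d : ℝ) := by exact_mod_cast h2
    rw [← h1] at h3
    have p1 : 0 < bj p.a1 t.l t.js j := by unfold bj; positivity
    have p2 : 0 < bj p.a1 t.l t.js (j + 1) := by unfold bj; positivity
    rw [Real.log_div p2.ne' p1.ne'] at h3
    exact (Real.log_le_log_iff p1 p2).1 (by linarith)
  · intro j hj
    obtain ⟨-, h2, h3⟩ := hjOk_get t.js g1 j hj
    exact ⟨by exact_mod_cast h2, by exact_mod_cast h3⟩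
  · filter_upwards [hB] with o ho
    rw [sum_hgR r2 (W o) t.js]
    rcases ho with ⟨h1, h2⟩ | ho
    · rw [h1, h2, mul_zero]
      have : ∀ js : List HJ, hjOk p.N t.l js = true → hgR p.κ 0 js = 0 := by
        intro js
        induction js with
        | nil => exact fun _ => rfl
        | cons h js ih =>
          intro hok
          rw [hjOk, Bool.and_eq_true] at hok
          obtain ⟨h1, h2⟩ := hok
          obtain ⟨a1, a2, a3, a4, a5⟩ := of_decide_eq_true h1
          have b3 : (0 : ℝ) ≤ h.s := by exact_mod_cast a3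
          rw [hgR, ih h2, max_eq_right (by linarith)]
          ring
      exact (this t.js g1).le
    · exact hgR_below q1 k6 g1 g2 ho
  · have h1 := sum_hsR (κ := p.κ) (f := p.F) (l := t.l) r2 t.js
    rw [h1, e1]
    have h2 := hsR_le (f := p.F) (N := p.N) (l := t.l) q1 q6.le q11 t.js g1
    have h3 : Real.exp ((t.l : ℝ) - hT t.js) ≤ (eU (t.l - hT t.js) : ℝ) := by
      have := le_eU (x := t.l - hT t.js) k5
      push_cast at this
      exact this
    have h4 : ((p.N : ℝ) + p.F / p.b) / p.κ * (p.a1 * Real.exp (t.l - hT t.js)) ≤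
        (p.N + p.F / p.b) / p.κ * (p.a1 * (eU (t.l - hT t.js) : ℝ)) :=
      mul_le_mul_of_nonneg_left (mul_le_mul_of_nonneg_left h3 r2.le) (by positivity)
    have h5 : ((p.N : ℝ) + p.F / p.b) / p.κ * (p.a1 * (eU (t.l - hT t.js) : ℝ)) +
        (hsQ p.κ p.a1 t.l p.F t.js : ℝ) + t.lam * t.w < 1 := by exact_mod_cast k7
    linarith

variable {M : Type} [MetricSpace M] {γ : ℝ → M} [CompactSpace M]

omit [CompactSpace M] in
/-- **the certificates for all core sets from one table** -/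
theorem vcore_of_tab (C : Calc M γ) {v : Fin 3 → M → ℝ} {f w : Om → ℝ} {p : Par} {V : List (ℚ × ℚ)}
    (hv : VDat C v f w p.X p.ρ) (hwN : ∀ᵐ o ∂C.μ, 4 * w o ≤ p.N)
    (hbel : ∀ᵐ o ∂C.μ, Below V (f o) (4 * w o)) {B : ℝ} (hNB : (p.N : ℝ) ≤ B)
    (hFB : (p.F : ℝ) / p.b ≤ B) {l : List RowC} (htab : tabC p V l = true) :
    VCore C f w (fun a => p.κ * a) B p.ρ p.X p.K p.a1 p.D p.b p.F (imG p.cG) := by
  have := C.fin
  rw [tabC, Bool.and_eq_true] at htab
  obtain ⟨hp, hrows⟩ := htab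
  have hN := vnum_of_par hp
  obtain ⟨q1, q2, q3, q4, q5, q6, q7, q8, q9, q10, q11, q12, q13, q14, q15⟩ := of_decide_eq_true hp
  have r1 : (0 : ℝ) < p.κ := by exact_mod_cast q1
  have ra : (0 : ℝ) < p.a1 := by exact_mod_cast q6
  have r5 : (0 : ℝ) < p.N := by exact_mod_cast q12
  have rρ : (0 : ℝ) ≤ p.ρ := by exact_mod_cast q2
  have rcG : (0 : ℝ) < p.cG := by exact_mod_cast q5
  have rX : (0 : ℝ) < (p.a1 : ℝ) - p.D - p.X := by exact_mod_cast q7
  have r8 : (p.a1 : ℝ) - p.D ≤ 157 / 25 := by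
    have : ((157 / 25 : ℚ) : ℝ) = 157 / 25 := by push_cast; ring
    rw [← this]
    exact_mod_cast q8
  have hpi : (3.141592 : ℝ) < Real.pi := Real.pi_gt_d6
  have f0 : ∀ᵐ o ∂C.μ, 0 ≤ f o := by
    filter_upwards [hv.fnu] with o ho
    exact (nuv_nonneg _ _ _).trans ho
  intro T mT hTa
  set ω := ∫ o in T, f o ∂C.μ with hω
  have h0 : 0 ≤ ω := setIntegral_nonneg_of_ae f0
  have h1 : ω ≤ p.X := (setIntegral_le_integral hv.fint f0).trans hv.fX
  obtain ⟨w1, t, ht, hw1, hw2⟩ := rowsC_ex l hrows ω (by exact_mod_cast h0) h1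
  have ht' := ht
  simp only [rowC, Bool.and_eq_true] at ht'
  obtain ⟨⟨⟨hT1, -⟩, -⟩, gG⟩ := ht'
  obtain ⟨k00, k0, k3, k4, k5, k6, k7, k8⟩ := of_decide_eq_true hT1
  have rl : (0 : ℝ) < t.l := by exact_mod_cast k3
  have hw0 : (0 : ℝ) ≤ w1 := by exact_mod_cast k00
  have sK : (0 : ℝ) < p.K := by exact_mod_cast q4
  -- the core certificate
  obtain ⟨n, hD, hq⟩ := rowC_core (μ := C.μ) hp ht (W := T.indicator fun o => 4 * w o)
    (φo := T.indicator f) ((hv.wint.const_mul 4).indicator₀ mT) (by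
      filter_upwards [hwN] with o ho
      by_cases h : o ∈ T
      · rw [indicator_of_mem h]
        exact ho
      · rw [indicator_of_notMem h]
        exact r5.le) (hv.fint.indicator₀ mT) (by
      rw [integral_indicator₀ mT]
      exact hw2) (by
      filter_upwards [hbel] with o ho
      by_cases h : o ∈ T
      · rw [indicator_of_mem h, indicator_of_mem h]
        exact Or.inr ho
      · rw [indicator_of_notMem h, indicator_of_notMem h]
        exact Or.inl ⟨rfl, rfl⟩) hNB hFB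
  have hr : (0 : ℝ) < p.κ / t.l := by positivity
  have hV' : (p.a1 : ℝ) * Real.exp (p.κ / (p.κ / t.l)) ≤ p.a1 * Real.exp t.l := by
    rw [div_div_cancel₀ r1.ne']
  have hpos : 0 < imG p.cG (p.a1 - p.D - ω) + p.K * (p.X - ω) := by
    have h3 : 0 < imG p.cG (p.a1 - p.D - ω) := imG_pos rcG (by linarith) (by linarith)
    have h4 : 0 ≤ (p.K : ℝ) * (p.X - ω) := mul_nonneg sK.le (by linarith)
    linarith
  refine ⟨n, p.κ / t.l, CoreD.of_hwd r1 ra hr hV' hD, ?_, hpos, ?_⟩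
  · intro S mS hST
    refine le_trans (le_of_eq ?_) (hq S)
    rw [← integral_const_mul]
    refine setIntegral_congr_ae₀ mS (ae_of_all _ fun o ho => ?_)
    rw [indicator_of_mem (hST ho)]
  · have h3 := hN.anti hw0 hw1 h1
    have h4 : imG p.cG (p.a1 - p.D - w1) ≤ gUp p.cG (p.a1 - p.D - w1) t.lG := by
      have hw1X : w1 ≤ p.X := k0
      have := imG_le (c := p.cG) (α := p.a1 - p.D - w1) q5.le (by linarith) (by linarith) gG
      push_cast at this ⊢
      exact this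
    have h5 : imG p.cG (p.a1 - p.D - ω) + p.K * (p.X - ω) ≤
        gUp p.cG (p.a1 - p.D - w1) t.lG + p.K * (p.X - w1) := by linarith
    have h6 : 4 * (p.ρ : ℝ) * (p.X - ω) + (min (4 * p.ρ * ω) (n p.a1) - n p.a1) + p.κ / t.l ≤
        4 * p.ρ * (p.X - w1) + p.κ / t.l := by
      have h7 := min_le_right (4 * (p.ρ : ℝ) * ω) (n p.a1)
      have h8 : 4 * (p.ρ : ℝ) * (p.X - ω) ≤ 4 * p.ρ * (p.X - w1) :=
        mul_le_mul_of_nonneg_left (by linarith) (by positivity)
      linarith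
    have s14 : (0 : ℝ) ≤ 4 * p.ρ * (p.X - w1) + p.κ / t.l := by
      have : (w1 : ℝ) ≤ p.X := by exact_mod_cast k0
      have : 0 ≤ 4 * (p.ρ : ℝ) * (p.X - w1) := mul_nonneg (by positivity) (by linarith)
      linarith
    have s15 : (4 * (p.ρ : ℝ) * (p.X - w1) + p.κ / t.l) *
        (gUp p.cG (p.a1 - p.D - w1) t.lG + p.K * (p.X - w1)) < 1 := by exact_mod_cast k8
    exact lt_of_le_of_lt (mul_le_mul_of_nonneg_right h6 hpos.le)
      (lt_of_le_of_lt (mul_le_mul_of_nonneg_left h5 s14) s15)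

/-- **(H) and (HS) for one map and one `c` from one table** -/
theorem hsv_of_tabC (C : Calc M γ) (hγ : Bd γ) (hR : RegAE C) {v : Fin 3 → M → ℝ} {f w : Om → ℝ}
    {p : Par} {V : List (ℚ × ℚ)} (hv : VDat C v f w p.X p.ρ) (hwN : ∀ᵐ o ∂C.μ, 4 * w o ≤ p.N)
    (hbel : ∀ᵐ o ∂C.μ, Below V (f o) (4 * w o)) {ε δ : ℝ}
    (hI : IsopO C p.κ ε) (hε : 0 ≤ ε)
    (hα : ∀ g : M → ℝ, Lip g → ∀ s, 0 ≤ s → p.a1 ≤ supa C g s →
      p.a1 - p.D - supw C g f s ≤ supw C g (jac C v) s)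
    {l : List RowC} (htab : tabC p V l = true) (hδ : 128 * max (p.N : ℝ) (p.F / p.b) * ε ≤ δ)
    {σ s xl xu k se : ℚ} (hcell : cellOk p σ s xl xu k se = true) {Ee : ℝ} (hse : √Ee ≤ se)
    {c k' : ℝ} (h1 : (xl : ℝ) ≤ Real.exp c)
    (h2 : Real.exp c ≤ xu) (hk : 0 ≤ k') (hk' : k' ≤ k) :
    Hv C w δ ∧ HSv C w p.κ k' (Lc Ee c) c δ ε σ := by
  have htab' := htab
  rw [tabC, Bool.and_eq_true] at htab'
  obtain ⟨hp, -⟩ := htab'
  have hN := vnum_of_par hp
  obtain ⟨q1, -, -, -, -, -, -, -, q9, q10, q11, -, -, -, -⟩ := of_decide_eq_true hp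
  obtain ⟨t1, t2, t3, t4, t5, t6, t7⟩ := of_decide_eq_true hcell
  have r1 : (0 : ℝ) < p.κ := by exact_mod_cast q1
  have r10 : (p.b : ℝ) ≤ p.a1 := by exact_mod_cast q10
  have r9 : (0 : ℝ) < p.b := by exact_mod_cast q9
  have r11 : (0 : ℝ) ≤ p.F := by exact_mod_cast q11
  have u1 : (0 : ℝ) < s := by exact_mod_cast t1
  have u2 : (s : ℝ) < σ := by exact_mod_cast t2
  have u3 : (1 : ℝ) < xl := by exact_mod_cast t3
  have u6 : (k : ℝ) ≤ 2 * (1 - 1 / xl) * p.F * s ^ 2 := by exact_mod_cast t6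
  have u7 : (p.b : ℝ) * (8 * (se * xu + 1) ^ 2) ≤ p.κ * ((σ - s) * (1 - 1 / xl)) ^ 2 := by
    exact_mod_cast t7
  have hx1 : 1 < Real.exp c := u3.trans_le h1
  have hc : 0 < c := by
    rw [← Real.exp_zero] at hx1
    exact Real.exp_lt_exp.1 hx1
  have hq : 1 - 1 / (xl : ℝ) ≤ 1 - Real.exp (-c) := by
    rw [Real.exp_neg, ← one_div]
    have : 1 / Real.exp c ≤ 1 / (xl : ℝ) := one_div_le_one_div_of_le (by linarith) h1
    linarith
  have hq0 : 0 ≤ 1 - 1 / (xl : ℝ) := by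
    have : 1 / (xl : ℝ) ≤ 1 := by
      rw [div_le_one (by linarith)]
      exact u3.le
    linarith
  refine hsv_of_core C hγ hR hv (LevO.of_isop hI) r1 hI hε hN r10 hα
    (vcore_of_tab C hv hwN hbel (le_max_left _ _) (le_max_right _ _) htab) hδ u1 u2 hc hk ?_ ?_
  · refine (hk'.trans u6).trans ?_
    have : 2 * (1 - 1 / (xl : ℝ)) * p.F * s ^ 2 = 2 * p.F * s ^ 2 * (1 - 1 / (xl : ℝ)) := by ring
    rw [this]
    have : 2 * (1 - Real.exp (-c)) * (p.F : ℝ) * (s : ℝ) ^ 2 =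
        2 * p.F * s ^ 2 * (1 - Real.exp (-c)) := by ring
    rw [this]
    exact mul_le_mul_of_nonneg_left hq (by positivity)
  · have hs0 : 0 ≤ √Ee := Real.sqrt_nonneg _
    have hsq : (4 : ℝ) * (Lc Ee c) ^ 2 = 8 * (√Ee * Real.exp c + 1) ^ 2 := by
      unfold Lc
      rw [mul_pow, Real.sq_sqrt (by norm_num)]
      ring
    have hp0 : 0 ≤ √Ee * Real.exp c := by positivity
    rw [hsq, le_div_iff₀ (by positivity)]
    have h30 : √Ee * Real.exp c ≤ se * xu :=
      mul_le_mul hse h2 (Real.exp_pos c).le (hs0.trans hse)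
    have h3 : (√Ee * Real.exp c + 1) ^ 2 ≤ ((se : ℝ) * xu + 1) ^ 2 :=
      pow_le_pow_left₀ (by linarith) (by linarith) 2
    have h4 : (p.b : ℝ) * (8 * (√Ee * Real.exp c + 1) ^ 2) ≤ p.b * (8 * (se * xu + 1) ^ 2) :=
      mul_le_mul_of_nonneg_left (by linarith) r9.le
    have h5 : ((σ - s) * (1 - 1 / (xl : ℝ))) ^ 2 ≤ ((σ - s) * (1 - Real.exp (-c))) ^ 2 :=
      pow_le_pow_left₀ (mul_nonneg (by linarith) hq0) (mul_le_mul_of_nonneg_left hq (by linarith)) 2
    have h6 := mul_le_mul_of_nonneg_left h5 r1.le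
    linarith

end Pool.Agent.FPX.VTB
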