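import Mathlib
import Pool.Agent.FPX.KCELL
import Pool.Agent.FPX.KGD
import Pool.Agent.FPX.VTC

/-
PNQ (helper58): rational data of the closing. The penalty `φ = pkG 0 1 l` (piecewise quadratic, `φ'`
piecewise linear and nondecreasing) is admissible (`Pen`); rational evaluation; concave polygons `plc` as
weights `4 W = plc V ∘ φ`, the hull of the vertices cut at `N`.
-/

open MeasureTheory Set Filter Topology
open scoped ENNReal NNReal

noncomputable section

namespace Pool.Agent.FPX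

open Pool.Agent.EWD Pool.Agent.FPM

/-! ### the penalty -/

/-- one ramp: second order estimate -/
theorem ramp_quad {a h x t : ℝ} (ha : 0 ≤ a) (hh : 0 ≤ h) (hx : 0 ≤ x) :
    pkP (x + t - a) ^ 2 / 2 - pkP (x + t - a - h) ^ 2 / 2 ≤
      pkP (x - a) ^ 2 / 2 - pkP (x - a - h) ^ 2 / 2 + (pkP (x - a) - pkP (x - a - h)) * t +
        (1 + a + h) * (t ^ 2 / (1 + x)) := by
  have hx1 : 0 < 1 + x := by linarith
  have e0 : (1 + a + h) * (t ^ 2 / (1 + x)) = (1 + a + h) * t ^ 2 / (1 + x) := by ring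
  rcases le_or_gt x (a + h) with hc | hc
  · -- the elementary bound
    have h1 : pkP (x + t - a) ^ 2 / 2 - pkP (x + t - a - h) ^ 2 / 2 ≤
        pkP (x - a) ^ 2 / 2 - pkP (x - a - h) ^ 2 / 2 + (pkP (x - a) - pkP (x - a - h)) * t +
          t ^ 2 / 2 := by
      unfold pkP
      rcases le_total (x + t - a) 0 with p | p <;> rcases le_total (x + t - a - h) 0 with q | q <;>
        rcases le_total (x - a) 0 with r | r <;> rcases le_total (x - a - h) 0 with s | s <;>
        simp only [max_eq_left, max_eq_right, p, q, r, s] <;> nlinarith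
    have h2 : t ^ 2 / 2 ≤ (1 + a + h) * (t ^ 2 / (1 + x)) := by
      rw [e0, le_div_iff₀ hx1]
      nlinarith [sq_nonneg t]
    linarith
  · have r1 : pkP (x - a) = x - a := pkP_of_nonneg (by linarith)
    have r2 : pkP (x - a - h) = x - a - h := pkP_of_nonneg (by linarith)
    rw [r1, r2]
    rcases le_total (a + h) (x + t) with hd | hd
    · have s1 : pkP (x + t - a) = x + t - a := pkP_of_nonneg (by linarith)
      have s2 : pkP (x + t - a - h) = x + t - a - h := pkP_of_nonneg (by linarith)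
      rw [s1, s2]
      have h3 : 0 ≤ (1 + a + h) * (t ^ 2 / (1 + x)) := by positivity
      nlinarith
    · have s2 : pkP (x + t - a - h) = 0 := pkP_of_nonpos (by linarith)
      rw [s2]
      set w := a + h - (x + t) with hw
      set u := x - (a + h) with hu
      have w0 : 0 ≤ w := by linarith
      have u0 : 0 < u := by linarith
      have ht : t = -(u + w) := by rw [hw, hu]; ring
      -- the left side minus the linear part
      have hq : ∃ q : ℝ, pkP (x + t - a) ^ 2 / 2 - 0 ^ 2 / 2 = (x - a) ^ 2 / 2 - (x - a - h) ^ 2 / 2 +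
          (x - a - (x - a - h)) * t + q ∧ q ≤ w ^ 2 / 2 ∧ q ≤ h * w := by
        refine ⟨_, (by ring : _ = _ + (pkP (x + t - a) ^ 2 / 2 - 0 ^ 2 / 2 - ((x - a) ^ 2 / 2 -
          (x - a - h) ^ 2 / 2 + (x - a - (x - a - h)) * t))), ?_, ?_⟩
        · rcases le_total (x + t - a) 0 with p | p
          · rw [pkP_of_nonpos p]
            nlinarith [sq_nonneg (w - h)]
          · rw [pkP_of_nonneg p]
            nlinarith
        · rcases le_total (x + t - a) 0 with p | p
          · rw [pkP_of_nonpos p]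
            nlinarith [sq_nonneg h]
          · rw [pkP_of_nonneg p]
            have : w ≤ h := by linarith
            nlinarith
      obtain ⟨q, e, q1, q2⟩ := hq
      rw [e]
      have h4 : q ≤ (1 + a + h) * (t ^ 2 / (1 + x)) := by
        rw [e0, le_div_iff₀ hx1]
        have e1 : 1 + x = (1 + a + h) + u := by rw [hu]; ring
        rw [e1, ht]
        have k1 : q * (1 + a + h) ≤ w ^ 2 / 2 * (1 + a + h) :=
          mul_le_mul_of_nonneg_right q1 (by positivity)
        have k2 : q * u ≤ h * w * u := mul_le_mul_of_nonneg_right q2 u0.le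
        have k3 : h * w * u ≤ (1 + a + h) * (2 * u * w) := by
          have := mul_nonneg w0 u0.le
          nlinarith
        have k4 : 0 ≤ (1 + a + h) * (u ^ 2 + w ^ 2 / 2) := by positivity
        nlinarith
      linarith

/-- the constant of the second order estimate -/
def pkQ : ℝ → ℝ → List (ℝ × ℝ) → ℝ
  | _, _, [] => 0
  | a, k, (h, k') :: l => (k' - k) / h * (1 + a + h) + pkQ (a + h) k' l

theorem pkQ_nonneg : ∀ (l : List (ℝ × ℝ)) (a k : ℝ), 0 ≤ a → pkOk k l → 0 ≤ pkQ a k l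
  | [], _, _, _, _ => le_rfl
  | (h, k') :: l, a, k, ha, ho => by
    obtain ⟨h1, h2, h3⟩ := ho
    have h4 : 0 ≤ (k' - k) / h := div_nonneg (by linarith) h1.le
    have h5 := pkQ_nonneg l (a + h) k' (by linarith) h3
    rw [pkQ]
    have : 0 ≤ 1 + a + h := by linarith
    positivity

theorem pkJ_quad : ∀ (l : List (ℝ × ℝ)) (a k : ℝ), 0 ≤ a → pkOk k l → ∀ {x : ℝ} (t : ℝ), 0 ≤ x →
    pkJ k l (x + t - a) ≤ pkJ k l (x - a) + pkI k l (x - a) * t + pkQ a k l * (t ^ 2 / (1 + x))
  | [], _, _, _, _, _, _, _ => by simp [pkJ, pkI, pkQ]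
  | (h, k') :: l, a, k, ha, ho, x, t, hx => by
    obtain ⟨h1, h2, h3⟩ := ho
    have h4 : 0 ≤ (k' - k) / h := div_nonneg (by linarith) h1.le
    have ih := pkJ_quad l (a + h) k' (by linarith) h3 (x := x) t hx
    have h5 := mul_le_mul_of_nonneg_left (ramp_quad (t := t) ha h1.le hx) h4
    rw [show x + t - (a + h) = x + t - a - h by ring, show x - (a + h) = x - a - h by ring] at ih
    simp only [pkJ, pkI, pkQ]
    linarith

theorem pkI_mono : ∀ (l : List (ℝ × ℝ)) (k : ℝ), pkOk k l → Monotone (pkI k l)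
  | [], _, _ => monotone_const
  | (h, k') :: l, k, ho => by
    obtain ⟨h1, h2, h3⟩ := ho
    intro x y hxy
    have h4 : 0 ≤ (k' - k) / h := div_nonneg (by linarith) h1.le
    have ih := pkI_mono l k' h3 (show x - h ≤ y - h by linarith)
    have h5 : pkP x - pkP (x - h) ≤ pkP y - pkP (y - h) := by
      unfold pkP
      rcases le_total x 0 with a | a <;> rcases le_total y 0 with b | b <;>
        rcases le_total (x - h) 0 with c | c <;> rcases le_total (y - h) 0 with d | d <;>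
        simp only [max_eq_left, max_eq_right, a, b, c, d] <;> linarith
    have := mul_le_mul_of_nonneg_left h5 h4
    simp only [pkI]
    linarith

theorem pkI_cont : ∀ (l : List (ℝ × ℝ)) (k : ℝ), Continuous (pkI k l)
  | [], _ => continuous_const
  | (h, k') :: l, k => by
    have ih := pkI_cont l k'
    have h1 : Continuous pkP := by
      unfold pkP
      fun_prop
    have e : pkI k ((h, k') :: l) = fun x => (k' - k) / h * (pkP x - pkP (x - h)) + pkI k' l (x - h) :=
      rfl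
    rw [e]
    fun_prop

/-- **the piecewise quadratic penalty is admissible** -/
theorem pen_pkG {l : List (ℝ × ℝ)} (ho : pkOk 1 l) :
    Pen (pkG 0 1 l) (pkD 0 1 l) (pkLast 1 l) (pkQ 0 1 l) := by
  have hd : ∀ x, HasDerivAt (pkG 0 1 l) (pkD 0 1 l x) x := fun x => by
    have h1 := pkJ_hasDerivAt l 1 (x - 0)
    have h2 : HasDerivAt (fun y => pkJ 1 l (y - 0)) (pkI 1 l (x - 0)) x :=
      HasDerivAt.comp_sub_const x 0 h1
    have h3 : HasDerivAt (fun y : ℝ => 1 * (y - 0)) 1 x := by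
      have := ((hasDerivAt_id x).sub_const 0).const_mul (1 : ℝ)
      rwa [mul_one] at this
    exact h3.add h2
  have hI := fun x => pkI_nonneg l 1 (x - 0) ho
  have hL := fun x => pkI_le l 1 (x - 0) ho
  have hlast : 1 ≤ pkLast 1 l := by
    have := pkI_le l 1 0 ho
    have := pkI_nonneg l 1 0 ho
    linarith
  have hcont : Continuous (pkG 0 1 l) := continuous_iff_continuousAt.2 fun x => (hd x).continuousAt
  have hdiff : Differentiable ℝ (pkG 0 1 l) := fun x => (hd x).differentiableAt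
  refine ⟨hcont, ?_, by linarith, pkQ_nonneg l 0 1 le_rfl ho, fun x r hr => ?_, fun x r hr => ?_,
    fun x t hx => ?_, fun x hx => ?_, fun x hx => ?_, fun x hx => ?_⟩
  · have := pkI_cont l 1
    unfold pkD
    fun_prop
  · have hm : Monotone (pkG 0 1 l) := monotone_of_deriv_nonneg hdiff fun x => by
      rw [(hd x).deriv]
      unfold pkD
      linarith [hI x]
    exact hm (by linarith)
  · have hm : Monotone fun y => pkLast 1 l * y - pkG 0 1 l y := by
      refine monotone_of_deriv_nonneg (by fun_prop) fun x => ?_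
      have h1 : HasDerivAt (fun y => pkLast 1 l * y - pkG 0 1 l y) (pkLast 1 l * 1 - pkD 0 1 l x) x :=
        ((hasDerivAt_id x).const_mul _).sub (hd x)
      rw [h1.deriv]
      unfold pkD
      linarith [hL x]
    have := hm (show x ≤ x + r by linarith)
    dsimp only at this
    linarith
  · have h1 := pkJ_quad l 0 1 le_rfl ho t hx
    unfold pkG pkD
    have e : x + t - 0 = x + t := by ring
    rw [e] at h1 ⊢
    linarith
  · have h1 := pkJ_nonneg l 1 (x - 0) ho
    unfold pkG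
    linarith
  · unfold pkD
    linarith [hI x]
  · unfold pkD
    exact hL x

/-! ### rational evaluation -/

/-- the list over the reals -/
def clQ (l : List (ℚ × ℚ)) : List (ℝ × ℝ) := l.map fun q => ((q.1 : ℝ), (q.2 : ℝ))

theorem qI_cast : ∀ (l : List (ℚ × ℚ)) (k x : ℚ), ((qI k l x : ℚ) : ℝ) = pkI k (clQ l) x
  | [], _, _ => by simp [qI, clQ, pkI]
  | (h, k') :: l, k, x => by
    have ih := qI_cast l k' (x - h)
    rw [qI]
    change _ = ((k' : ℝ) - k) / h * (pkP x - pkP (x - h)) + pkI k' (clQ l) (x - h)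
    push_cast at ih ⊢
    rw [ih]
    rfl

theorem qJ_cast : ∀ (l : List (ℚ × ℚ)) (k x : ℚ), ((qJ k l x : ℚ) : ℝ) = pkJ k (clQ l) x
  | [], _, _ => by simp [qJ, clQ, pkJ]
  | (h, k') :: l, k, x => by
    have ih := qJ_cast l k' (x - h)
    rw [qJ]
    change _ = ((k' : ℝ) - k) / h * (pkP x ^ 2 / 2 - pkP (x - h) ^ 2 / 2) + pkJ k' (clQ l) (x - h)
    push_cast at ih ⊢
    rw [ih]
    rfl

theorem qD_cast (c₀ k₀ : ℚ) (l : List (ℚ × ℚ)) (c : ℚ) :
    ((qD c₀ k₀ l c : ℚ) : ℝ) = pkD c₀ k₀ (clQ l) c := by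
  have := qI_cast l k₀ (c - c₀)
  unfold qD pkD
  push_cast at this ⊢
  rw [this]

theorem qG_cast (c₀ k₀ : ℚ) (l : List (ℚ × ℚ)) (c : ℚ) :
    ((qG c₀ k₀ l c : ℚ) : ℝ) = pkG c₀ k₀ (clQ l) c := by
  have := qJ_cast l k₀ (c - c₀)
  unfold qG pkG
  push_cast at this ⊢
  rw [this]

theorem qOk_pkOk : ∀ (l : List (ℚ × ℚ)) (k : ℚ), qOk k l = true → pkOk k (clQ l)
  | [], _, _ => trivial
  | (h, k') :: l, k, ho => by
    rw [qOk, Bool.and_eq_true] at ho
    obtain ⟨h1, h2⟩ := ho
    obtain ⟨h3, h4⟩ := of_decide_eq_true h1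
    exact ⟨by exact_mod_cast h3, by exact_mod_cast h4, qOk_pkOk l k' h2⟩

theorem qVal_cast : ∀ (l : List (ℚ × ℚ)) (g k : ℚ), ((qVal g k l : ℚ) : ℝ) = pkVal g k (clQ l)
  | [], _, _ => rfl
  | (h, k') :: l, g, k => by
    have ih := qVal_cast l (g + (k + k') / 2 * h) k'
    rw [qVal, ih]
    push_cast
    rfl

theorem qCells_cast : ∀ (l : List (ℚ × ℚ)) (a g k : ℚ), ∀ q ∈ pkCells a g k (clQ l),
    ∃ r ∈ qCells a g k l, q = ((r.1 : ℝ), (r.2.1 : ℝ), (r.2.2.1 : ℝ), (r.2.2.2 : ℝ))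
  | [], _, _, _, q, hq => by simp [clQ, pkCells] at hq
  | (h, k') :: l, a, g, k, q, hq => by
    have e : pkCells (a : ℝ) g k (clQ ((h, k') :: l)) = ((a : ℝ), (a : ℝ) + h, (g : ℝ), (k' : ℝ)) ::
        pkCells ((a : ℝ) + h) (g + (k + k') / 2 * h) k' (clQ l) := rfl
    rw [e, List.mem_cons] at hq
    rcases hq with hq | hq
    · exact ⟨(a, a + h, g, k'), by simp [qCells], by rw [hq]; push_cast; rfl⟩
    · have ih := qCells_cast l (a + h) (g + (k + k') / 2 * h) k'
      push_cast at ih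
      obtain ⟨r, hr, e⟩ := ih q hq
      exact ⟨r, by rw [qCells]; exact List.mem_cons_of_mem _ hr, e⟩

/-! ### concave polygons -/

/-- the line through two points -/
def ln2 (p q : ℚ × ℚ) (x : ℝ) : ℝ := p.2 + ((q.2 : ℝ) - p.2) / (q.1 - p.1) * (x - p.1)

/-- the minimum of the lines through consecutive vertices -/
def plc : ℚ × ℚ → ℚ × ℚ → List (ℚ × ℚ) → ℝ → ℝ
  | p, q, [], x => ln2 p q x
  | p, q, r :: l, x => min (ln2 p q x) (plc q r l x)

theorem plOk_head {p q : ℚ × ℚ} {l : List (ℚ × ℚ)} (h : plOk p q l = true) :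
    (p.1 : ℝ) < q.1 ∧ (p.2 : ℝ) ≤ q.2 := by
  cases l with
  | nil =>
    obtain ⟨h1, h2⟩ := of_decide_eq_true (show decide (p.1 < q.1 ∧ p.2 ≤ q.2) = true from h)
    exact ⟨by exact_mod_cast h1, by exact_mod_cast h2⟩
  | cons r l =>
    rw [plOk, Bool.and_eq_true] at h
    obtain ⟨h1, h2, -⟩ := of_decide_eq_true h.1
    exact ⟨by exact_mod_cast h1, by exact_mod_cast h2⟩

theorem ln2_cont (p q : ℚ × ℚ) : Continuous (ln2 p q) := by
  unfold ln2
  fun_prop

theorem ln2_slope {p q : ℚ × ℚ} (h : (p.1 : ℝ) < q.1 ∧ (p.2 : ℝ) ≤ q.2) :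
    0 ≤ ((q.2 : ℝ) - p.2) / (q.1 - p.1) := div_nonneg (by linarith) (by linarith)

theorem ln2_left (p q : ℚ × ℚ) : ln2 p q p.1 = p.2 := by
  unfold ln2
  ring

theorem ln2_right {p q : ℚ × ℚ} (h : (p.1 : ℝ) < q.1) : ln2 p q q.1 = q.2 := by
  unfold ln2
  have : (q.1 : ℝ) - p.1 ≠ 0 := by linarith
  field_simp
  ring

theorem ln2_mono {p q : ℚ × ℚ} (h : (p.1 : ℝ) < q.1 ∧ (p.2 : ℝ) ≤ q.2) : Monotone (ln2 p q) := by
  intro x y hxy
  have := mul_le_mul_of_nonneg_left (show x - (p.1 : ℝ) ≤ y - p.1 by linarith) (ln2_slope h)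
  unfold ln2
  linarith

/-- the next line -/
theorem ln2_next {p q r : ℚ × ℚ} (h1 : (p.1 : ℝ) < q.1) (h2 : (q.1 : ℝ) < r.1)
    (h3 : ((r.2 : ℝ) - q.2) * (q.1 - p.1) ≤ (q.2 - p.2) * (r.1 - q.1)) (x : ℝ) :
    (x ≤ q.1 → ln2 p q x ≤ ln2 q r x) ∧ (q.1 ≤ x → ln2 q r x ≤ ln2 p q x) := by
  have e1 : ln2 p q x = q.2 + ((q.2 : ℝ) - p.2) / (q.1 - p.1) * (x - q.1) := by
    unfold ln2
    have : (q.1 : ℝ) - p.1 ≠ 0 := by linarith
    field_simp
    ring
  have h4 : ((r.2 : ℝ) - q.2) / (r.1 - q.1) ≤ ((q.2 : ℝ) - p.2) / (q.1 - p.1) := by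
    rw [div_le_div_iff₀ (by linarith) (by linarith)]
    exact h3
  rw [e1]
  unfold ln2
  constructor
  · intro hx
    have := mul_le_mul_of_nonneg_right h4 (show 0 ≤ (q.1 : ℝ) - x by linarith)
    nlinarith
  · intro hx
    have := mul_le_mul_of_nonneg_right h4 (show 0 ≤ x - (q.1 : ℝ) by linarith)
    linarith

theorem plc_cont : ∀ (l : List (ℚ × ℚ)) (p q : ℚ × ℚ), Continuous (plc p q l)
  | [], p, q => ln2_cont p q
  | r :: l, p, q => (ln2_cont p q).min (plc_cont l q r)

theorem plc_mono : ∀ (l : List (ℚ × ℚ)) (p q : ℚ × ℚ), plOk p q l = true → Monotone (plc p q l)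
  | [], p, q, h => ln2_mono (plOk_head h)
  | r :: l, p, q, h => by
    have h1 := plOk_head h
    rw [plOk, Bool.and_eq_true] at h
    exact fun x y hxy => min_le_min (ln2_mono h1 hxy) (plc_mono l q r h.2 hxy)

theorem plc_le_ln (l : List (ℚ × ℚ)) (p q : ℚ × ℚ) (x : ℝ) : plc p q l x ≤ ln2 p q x := by
  cases l with
  | nil => exact le_rfl
  | cons r l => exact min_le_left _ _

/-- on the left of the second vertex the polygon is the first line -/
theorem plc_left : ∀ (l : List (ℚ × ℚ)) (p q : ℚ × ℚ), plOk p q l = true → ∀ {x : ℝ},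
    x ≤ q.1 → plc p q l x = ln2 p q x
  | [], _, _, _, _, _ => rfl
  | r :: l, p, q, h, x, hx => by
    have h1 := plOk_head h
    rw [plOk, Bool.and_eq_true] at h
    have h2 := plOk_head h.2
    obtain ⟨-, -, h3⟩ := of_decide_eq_true h.1
    have h4 : ((r.2 : ℝ) - q.2) * (q.1 - p.1) ≤ (q.2 - p.2) * (r.1 - q.1) := by exact_mod_cast h3
    rw [plc, plc_left l q r h.2 (by linarith)]
    exact min_eq_left ((ln2_next h1.1 h2.1 h4 x).1 hx)

/-- on the right of the second vertex -/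
theorem plc_right {l : List (ℚ × ℚ)} {p q r : ℚ × ℚ} (h : plOk p q (r :: l) = true) {x : ℝ}
    (hx : q.1 ≤ x) : plc p q (r :: l) x = plc q r l x := by
  have h1 := plOk_head h
  rw [plOk, Bool.and_eq_true] at h
  have h2 := plOk_head h.2
  obtain ⟨-, -, h3⟩ := of_decide_eq_true h.1
  have h4 : ((r.2 : ℝ) - q.2) * (q.1 - p.1) ≤ (q.2 - p.2) * (r.1 - q.1) := by exact_mod_cast h3
  rw [plc]
  exact min_eq_right ((plc_le_ln l q r x).trans ((ln2_next h1.1 h2.1 h4 x).2 hx))

theorem plc_ge : ∀ (l : List (ℚ × ℚ)) (p q : ℚ × ℚ), plOk p q l = true → ∀ {x : ℝ},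
    p.1 ≤ x → p.2 ≤ plc p q l x
  | [], p, q, h, x, hx => by
    have h1 := plOk_head h
    have := ln2_mono h1 hx
    rw [ln2_left] at this
    exact this
  | r :: l, p, q, h, x, hx => by
    have h1 := plOk_head h
    rcases le_total x q.1 with h5 | h5
    · rw [plc_left _ p q h h5]
      have := ln2_mono h1 hx
      rw [ln2_left] at this
      exact this
    · rw [plc_right h h5]
      rw [plOk, Bool.and_eq_true] at h
      exact h1.2.trans (plc_ge l q r h.2 h5)

theorem Below.mono {V V' : List (ℚ × ℚ)} (h : ∀ p ∈ V, p ∈ V') {φ W : ℝ} (hb : VTB.Below V φ W) :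
    VTB.Below V' φ W := by
  obtain ⟨p, hp, q, hq, hb⟩ := hb
  exact ⟨p, h p hp, q, h q hq, hb⟩

theorem cutV_head (N : ℚ) (p q : ℚ × ℚ) (l : List (ℚ × ℚ)) : p ∈ cutV N p q l := by
  cases l with
  | nil =>
    rw [cutV]
    split_ifs <;> simp
  | cons r l =>
    rw [cutV]
    split_ifs <;> simp

/-- two points -/
theorem below_two {V : List (ℚ × ℚ)} {p q : ℚ × ℚ} (hp : p ∈ V) (hq : q ∈ V) (hpq : (p.1 : ℝ) < q.1)
    {x W : ℝ} (h1 : p.1 ≤ x) (h2 : x ≤ q.1) (hW : W ≤ ln2 p q x) : VTB.Below V x W := by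
  have h3 : 0 < (q.1 : ℝ) - p.1 := by linarith
  refine ⟨p, hp, q, hq, (x - p.1) / (q.1 - p.1), div_nonneg (by linarith) h3.le,
    (div_le_one h3).2 (by linarith), ?_, ?_⟩
  · refine hW.trans (le_of_eq ?_)
    unfold ln2
    field_simp
    ring
  · refine le_of_eq ?_
    field_simp
    ring

/-- the case where the line reaches the value `N` -/
theorem below_cross {V : List (ℚ × ℚ)} {N : ℚ} {p q : ℚ × ℚ} (hp : p ∈ V)
    (hq : (p.1 + (N - p.2) * (q.1 - p.1) / (q.2 - p.2), N) ∈ V) (h1 : (p.1 : ℝ) < q.1)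
    (hpN : (p.2 : ℝ) ≤ N) (h2 : p.2 < q.2 ∨ p.2 = N)
    {x W : ℝ} (hx : p.1 ≤ x) (hW : W ≤ ln2 p q x) (hWN : W ≤ N) : VTB.Below V x W := by
  set c : ℚ × ℚ := (p.1 + (N - p.2) * (q.1 - p.1) / (q.2 - p.2), N) with hc
  have c1 : (c.1 : ℝ) = p.1 + (N - p.2) * (q.1 - p.1) / (q.2 - p.2) := by
    rw [hc]
    push_cast
    ring
  have c2 : (c.2 : ℝ) = N := rfl
  rcases le_or_gt (c.1 : ℝ) x with h | h
  · refine ⟨c, hq, c, hq, 1, zero_le_one, le_rfl, ?_, ?_⟩
    · rw [c2]
      linarith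
    · linarith
  · rcases h2 with h2 | h2
    · have h3 : (p.2 : ℝ) < q.2 := by exact_mod_cast h2
      refine below_two hp hq (by linarith) hx h.le (hW.trans ?_)
      -- the same line
      rcases eq_or_lt_of_le hpN with hN | hN
      · rw [c1, hN, sub_self, zero_mul, zero_div, add_zero] at h
        linarith
      · have e : ((c.2 : ℝ) - p.2) / (c.1 - p.1) = ((q.2 : ℝ) - p.2) / (q.1 - p.1) := by
          have k1 : (q.1 : ℝ) - p.1 ≠ 0 := by linarith
          have k2 : (q.2 : ℝ) - p.2 ≠ 0 := by linarith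
          have k3 : (N : ℝ) - p.2 ≠ 0 := by linarith
          rw [c1, c2]
          field_simp
          ring
        unfold ln2
        rw [e]
    · have h3 : (p.2 : ℝ) = N := by exact_mod_cast h2
      rw [c1, h3, sub_self, zero_mul, zero_div, add_zero] at h
      linarith

/-- **the hull of the cut vertices** -/
theorem plc_below {N : ℚ} : ∀ (l : List (ℚ × ℚ)) (p q : ℚ × ℚ), plOk p q l = true → p.2 ≤ N → ∀ {x W : ℝ},
    p.1 ≤ x → W ≤ plc p q l x → W ≤ N → VTB.Below (cutV N p q l) x W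
  | [], p, q, h, hpN, x, W, hx, hW, hWN => by
    have h1 := plOk_head h
    have hN : (p.2 : ℝ) ≤ N := by exact_mod_cast hpN
    rw [cutV]
    split_ifs with h2
    · exact below_cross (by simp) (by simp) h1.1 hN (Or.inl h2) hx hW hWN
    · have h3 : (p.2 : ℝ) = q.2 := le_antisymm h1.2 (by exact_mod_cast not_lt.1 h2)
      refine ⟨p, by simp, p, by simp, 0, le_rfl, zero_le_one, ?_, ?_⟩
      · have : W ≤ ln2 p q x := hW
        unfold ln2 at this
        rw [h3, sub_self, zero_div, zero_mul, add_zero] at this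
        rw [h3]
        linarith
      · linarith
  | r :: l, p, q, h, hpN, x, W, hx, hW, hWN => by
    have h1 := plOk_head h
    have hN : (p.2 : ℝ) ≤ N := by exact_mod_cast hpN
    have hW1 : W ≤ ln2 p q x := hW.trans (min_le_left _ _)
    have hW2 : W ≤ plc q r l x := hW.trans (min_le_right _ _)
    rw [cutV]
    split_ifs with h2
    · refine below_cross (by simp) (by simp) h1.1 hN ?_ hx hW1 hWN
      rcases eq_or_lt_of_le h1.2 with h3 | h3
      · right
        have h4 : (N : ℝ) ≤ q.2 := by exact_mod_cast h2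
        have h5 : (p.2 : ℝ) = N := le_antisymm hN (by linarith)
        exact_mod_cast h5
      · left
        exact_mod_cast h3
    · have h4 := h
      rw [plOk, Bool.and_eq_true] at h4
      rcases le_total x q.1 with h5 | h5
      · have h6 : q ∈ cutV N q r l := cutV_head N q r l
        exact below_two (by simp) (List.mem_cons_of_mem _ h6) h1.1 hx h5 hW1
      · refine Below.mono (fun s hs => List.mem_cons_of_mem _ hs)
          (plc_below l q r h4.2 (not_le.1 h2).le h5 hW2 hWN)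

theorem qpl_cast : ∀ (l : List (ℚ × ℚ)) (p q : ℚ × ℚ) (x : ℚ), ((qpl p q l x : ℚ) : ℝ) = plc p q l x
  | [], p, q, x => by
    rw [qpl, plc, ln2]
    push_cast
    ring
  | r :: l, p, q, x => by
    rw [qpl, plc, ln2, ← qpl_cast l q r x]
    push_cast
    rfl

/-- **the weight `W = plc V (φ) / 4` is admissible** -/
theorem wok_plc {φ : ℝ → ℝ} (hφ : Continuous φ) (hφm : ∀ x y, 0 ≤ x → x ≤ y → φ x ≤ φ y)
    (hφ0 : ∀ x, 0 ≤ x → 0 ≤ φ x) {q : ℚ × ℚ} {l : List (ℚ × ℚ)} (ho : plOk (0, 0) q l = true)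
    {Wm : ℝ → ℝ} (hWm : ∀ x, 0 ≤ x → plc (0, 0) q l (φ x) / 4 ≤ Wm x) :
    WOk (fun x => plc (0, 0) q l (φ x) / 4) Wm where
  cont := ((plc_cont l (0, 0) q).comp hφ).div_const 4
  nonneg := fun x hx => by
    have h1 := plc_ge l (0, 0) q ho (x := φ x) (by simpa using hφ0 x hx)
    have h2 : (((0 : ℚ), (0 : ℚ)).2 : ℝ) = 0 := by simp
    rw [h2] at h1
    linarith
  le := hWm
  mono := fun x y hx hxy => by
    have := plc_mono l (0, 0) q ho (hφm x y hx hxy)
    linarith

/-- the bound by the first slope -/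
theorem plc_le_slope {q : ℚ × ℚ} {l : List (ℚ × ℚ)} (x : ℝ) :
    plc (0, 0) q l x ≤ q.2 / q.1 * x := by
  have h := plc_le_ln l (0, 0) q x
  unfold ln2 at h
  simpa using h

end Pool.Agent.FPX
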