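import Mathlib
import Pool.Agent.FPX.OMQ
import Pool.Agent.FPX.CRD

/-
OMD (helper11): the exterior derivative of the covariant forms `λ = Im (φ ζ^a M v)`, `M` a functional of spin
`-1 - a`, and `λ = Im (φ conj(ζ)^b M v)`, `M` a functional of spin `b - 1`.
-/

open MeasureTheory Set Filter Topology Complex
open scoped NNReal ContDiff ComplexConjugate

noncomputable section

namespace Pool.Agent.FPX.CST

variable {n : ℕ}

/-- `Im (conj ζ v)` -/
def tt (u p : Fin (n + 2) → ℝ) : ℝ := (conj (zt u) * vv u p).im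

theorem dl_gv_add {G H : (Fin (n + 2) → ℝ) → ℂ} (hG : ContDiffOn ℝ 1 G (OO n)) (hH : ContDiffOn ℝ 1 H (OO n))
    {u : Fin (n + 2) → ℝ} (hu : u ∈ OO n) (p q : Fin (n + 2) → ℝ) :
    dl (fun i u => fderiv ℝ (gv (fun u => G u + H u) i) u) u p q =
      dl (fun i u => fderiv ℝ (gv G i) u) u p q + dl (fun i u => fderiv ℝ (gv H i) u) u p q := by
  have dG : DifferentiableAt ℝ G u := (hG.contDiffAt (isOpen_OO.mem_nhds hu)).differentiableAt one_ne_zero
  have dH : DifferentiableAt ℝ H u := (hH.contDiffAt (isOpen_OO.mem_nhds hu)).differentiableAt one_ne_zero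
  have e : fderiv ℝ (fun u => G u + H u) u = fderiv ℝ G u + fderiv ℝ H u := fderiv_add dG dH
  rw [dl_gv (hG.add hH) hu, dl_gv hG hu, dl_gv hH hu, e]
  simp only [_root_.add_apply, mul_add, add_mul, Complex.add_im, Complex.add_re, Complex.sub_im]
  ring

private theorem dzt (u p : Fin (n + 2) → ℝ) : fderiv ℝ (zt : (Fin (n + 2) → ℝ) → ℂ) u p = zt p := by
  rw [(hasF_zt u).fderiv]
  have e1 : zt p = (p 0 : ℂ) + I * (p 1 : ℂ) := by
    apply Complex.ext <;> simp [zt]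
  simp only [_root_.add_apply, _root_.smul_apply, ContinuousLinearMap.comp_apply, Complex.ofRealCLM_apply,
    pj_apply, smul_eq_mul, e1]

private theorem dph {φ : ℝ → ℝ} {φ' : ℝ} {u : Fin (n + 2) → ℝ} (h : HasDerivAt φ φ' (rr u))
    (p : Fin (n + 2) → ℝ) : fderiv ℝ (fun u : Fin (n + 2) → ℝ => ((φ (rr u) : ℝ) : ℂ)) u p
      = ((2 * ss u p * φ' : ℝ) : ℂ) := by
  have h1 := Complex.ofRealCLM.hasFDerivAt.comp u (fderiv_radial h)
  have h2 : fderiv ℝ (fun u : Fin (n + 2) → ℝ => ((φ (rr u) : ℝ) : ℂ)) u p = _ :=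
    congrArg (fun L : (Fin (n + 2) → ℝ) →L[ℝ] ℂ => L p) h1.fderiv
  rw [h2]
  simp only [_root_.add_apply, _root_.smul_apply, ContinuousLinearMap.comp_apply, Complex.ofRealCLM_apply,
    pj_apply, smul_eq_mul, ss]
  push_cast
  ring

theorem contDiffOn_spa {φ : ℝ → ℝ} (hφ : ContDiffOn ℝ 1 φ (Iio 1)) {M : (Fin (n + 2) → ℝ) → ℂ}
    (hM : ContDiffOn ℝ 1 M (OO n)) (a : ℕ) :
    ContDiffOn ℝ 1 (fun u => (φ (rr u) : ℂ) * zt u ^ a * M u) (OO n) :=
  ((Complex.ofRealCLM.contDiff.comp_contDiffOn (contDiffOn_rad hφ)).mul (contDiffOn_zt.pow a)).mul hM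

theorem contDiffOn_spb {φ : ℝ → ℝ} (hφ : ContDiffOn ℝ 1 φ (Iio 1)) {M : (Fin (n + 2) → ℝ) → ℂ}
    (hM : ContDiffOn ℝ 1 M (OO n)) (b : ℕ) :
    ContDiffOn ℝ 1 (fun u => (φ (rr u) : ℂ) * conj (zt u) ^ b * M u) (OO n) :=
  ((Complex.ofRealCLM.contDiff.comp_contDiffOn (contDiffOn_rad hφ)).mul
    ((Complex.conjCLE.contDiff.comp_contDiffOn contDiffOn_zt).pow b)).mul hM

private theorem rv (z p q : ℂ) : (((conj z * p).re : ℝ) : ℂ) * q - (((conj z * q).re : ℝ) : ℂ) * p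
    = I * z * (((conj p * q).im : ℝ) : ℂ) := by
  apply Complex.ext <;> simp <;> ring

private theorem tv (z p q : ℂ) : (((conj z * p).im : ℝ) : ℂ) * q - (((conj z * q).im : ℝ) : ℂ) * p
    = -(z * (((conj p * q).im : ℝ) : ℂ)) := by
  apply Complex.ext <;> simp <;> ring

/-- **`λ = Im (φ ζ^a M v)`**, `M` of spin `-1 - a` -/
theorem dl_spa {φ : ℝ → ℝ} {φ' : ℝ} {u : Fin (n + 2) → ℝ} (hu : u ∈ OO n)
    (hφc : ContDiffOn ℝ 1 φ (Iio 1)) (hφ : HasDerivAt φ φ' (rr u)) {M : (Fin (n + 2) → ℝ) → ℂ}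
    (hMc : ContDiffOn ℝ 1 M (OO n)) (a : ℕ) {p q : Fin (n + 2) → ℝ} {Kp Kq : ℂ}
    (hp : fderiv ℝ M u p = Kp - (1 + a) * I * ((tt u p / (1 + cc u) : ℝ) : ℂ) * M u)
    (hq : fderiv ℝ M u q = Kq - (1 + a) * I * ((tt u q / (1 + cc u) : ℝ) : ℂ) * M u) :
    dl (fun i u => fderiv ℝ (gv (fun u => (φ (rr u) : ℂ) * zt u ^ a * M u) i) u) u p q =
      ((φ (rr u) : ℂ) * zt u ^ a * (Kp * vv u q - Kq * vv u p)).im
        + 2 * cc u * φ' * (zt u ^ (a + 1) * M u).re * ja u p q := by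
  have hc := cc_pos hu
  have hc2 := cc_sq hu
  have dM : DifferentiableAt ℝ M u := (hMc.contDiffAt (isOpen_OO.mem_nhds hu)).differentiableAt one_ne_zero
  have dZ : DifferentiableAt ℝ (zt : (Fin (n + 2) → ℝ) → ℂ) u := (hasF_zt u).differentiableAt
  have dP : DifferentiableAt ℝ (fun u : Fin (n + 2) → ℝ => ((φ (rr u) : ℝ) : ℂ)) u :=
    (Complex.ofRealCLM.hasFDerivAt.comp u (fderiv_radial hφ)).differentiableAt
  have hd : ∀ p, fderiv ℝ (fun u => (φ (rr u) : ℂ) * zt u ^ a * M u) u p =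
      ((2 * ss u p * φ' : ℝ) : ℂ) * zt u ^ a * M u + (φ (rr u) : ℂ) * (a * zt u ^ (a - 1) * zt p) * M u
        + (φ (rr u) : ℂ) * zt u ^ a * fderiv ℝ M u p := by
    intro p
    have h1 := ((dP.hasFDerivAt.mul (dZ.hasFDerivAt.pow a)).mul dM.hasFDerivAt).fderiv
    have h2 : fderiv ℝ (fun u => (φ (rr u) : ℂ) * zt u ^ a * M u) u p = _ :=
      congrArg (fun L : (Fin (n + 2) → ℝ) →L[ℝ] ℂ => L p) h1
    rw [h2]
    simp only [_root_.add_apply, _root_.smul_apply, smul_eq_mul, dzt, dph hφ, Pi.mul_apply,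
      nsmul_eq_mul]
    ring
  rw [dl_gv (contDiffOn_spa hφc hMc a) hu, hd, hd, hp, hq, zt_eq hu p, zt_eq hu q, ss_eq hu, ss_eq hu]
  have ez : (a : ℂ) * zt u ^ (a - 1) * zt u = a * zt u ^ a := by
    rcases a with _ | a
    · simp
    · rw [Nat.add_sub_cancel, pow_succ]
      ring
  have R := rv (zt u) (vv u p) (vv u q)
  have Tt := tv (zt u) (vv u p) (vv u q)
  have h1c : (1 + (cc u : ℂ)) ≠ 0 := by
    have : (1 + cc u) ≠ 0 := by positivity
    exact_mod_cast this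
  have key : ((2 * (cc u * (conj (zt u) * vv u p).re) * φ' : ℝ) : ℂ) * zt u ^ a * M u
      + (φ (rr u) : ℂ) * (a * zt u ^ (a - 1) * (vv u p - zt u * (((conj (zt u) * vv u p).re / (1 + cc u) : ℝ) : ℂ)))
        * M u
      + (φ (rr u) : ℂ) * zt u ^ a * (Kp - (1 + a) * I * ((tt u p / (1 + cc u) : ℝ) : ℂ) * M u) =
      2 * cc u * φ' * zt u ^ a * M u * (((conj (zt u) * vv u p).re : ℝ) : ℂ)
      + (φ (rr u) : ℂ) * a * zt u ^ (a - 1) * M u * vv u p
      - (φ (rr u) : ℂ) * a * zt u ^ a * M u / (1 + cc u) * (((conj (zt u) * vv u p).re : ℝ) : ℂ)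
      + (φ (rr u) : ℂ) * zt u ^ a * Kp
      - (φ (rr u) : ℂ) * zt u ^ a * (1 + a) * I * M u / (1 + cc u) * ((tt u p : ℝ) : ℂ) := by
    push_cast
    linear_combination (-(φ (rr u) : ℂ) * (((conj (zt u) * vv u p).re : ℝ) : ℂ) / (1 + cc u) * M u) * ez
  have key' : ((2 * (cc u * (conj (zt u) * vv u q).re) * φ' : ℝ) : ℂ) * zt u ^ a * M u
      + (φ (rr u) : ℂ) * (a * zt u ^ (a - 1) * (vv u q - zt u * (((conj (zt u) * vv u q).re / (1 + cc u) : ℝ) : ℂ)))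
        * M u
      + (φ (rr u) : ℂ) * zt u ^ a * (Kq - (1 + a) * I * ((tt u q / (1 + cc u) : ℝ) : ℂ) * M u) =
      2 * cc u * φ' * zt u ^ a * M u * (((conj (zt u) * vv u q).re : ℝ) : ℂ)
      + (φ (rr u) : ℂ) * a * zt u ^ (a - 1) * M u * vv u q
      - (φ (rr u) : ℂ) * a * zt u ^ a * M u / (1 + cc u) * (((conj (zt u) * vv u q).re : ℝ) : ℂ)
      + (φ (rr u) : ℂ) * zt u ^ a * Kq
      - (φ (rr u) : ℂ) * zt u ^ a * (1 + a) * I * M u / (1 + cc u) * ((tt u q : ℝ) : ℂ) := by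
    push_cast
    linear_combination (-(φ (rr u) : ℂ) * (((conj (zt u) * vv u q).re : ℝ) : ℂ) / (1 + cc u) * M u) * ez
  rw [key, key']
  have total : (2 * cc u * φ' * zt u ^ a * M u * (((conj (zt u) * vv u p).re : ℝ) : ℂ)
      + (φ (rr u) : ℂ) * a * zt u ^ (a - 1) * M u * vv u p
      - (φ (rr u) : ℂ) * a * zt u ^ a * M u / (1 + cc u) * (((conj (zt u) * vv u p).re : ℝ) : ℂ)
      + (φ (rr u) : ℂ) * zt u ^ a * Kp
      - (φ (rr u) : ℂ) * zt u ^ a * (1 + a) * I * M u / (1 + cc u) * ((tt u p : ℝ) : ℂ)) * vv u q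
      - (2 * cc u * φ' * zt u ^ a * M u * (((conj (zt u) * vv u q).re : ℝ) : ℂ)
      + (φ (rr u) : ℂ) * a * zt u ^ (a - 1) * M u * vv u q
      - (φ (rr u) : ℂ) * a * zt u ^ a * M u / (1 + cc u) * (((conj (zt u) * vv u q).re : ℝ) : ℂ)
      + (φ (rr u) : ℂ) * zt u ^ a * Kq
      - (φ (rr u) : ℂ) * zt u ^ a * (1 + a) * I * M u / (1 + cc u) * ((tt u q : ℝ) : ℂ)) * vv u p
      = (φ (rr u) : ℂ) * zt u ^ a * (Kp * vv u q - Kq * vv u p)
        + I * ((2 * cc u * φ' * ja u p q : ℝ) : ℂ) * (zt u ^ (a + 1) * M u)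
        + I * ((ja u p q / (1 + cc u) : ℝ) : ℂ) * (zt u * ((φ (rr u) : ℂ) * zt u ^ a * M u)) := by
    unfold ja tt
    push_cast at R Tt ⊢
    rw [pow_succ]
    linear_combination (2 * cc u * φ' * zt u ^ a * M u
      - (φ (rr u) : ℂ) * a * zt u ^ a * M u / (1 + cc u)) * R
      - ((φ (rr u) : ℂ) * zt u ^ a * (1 + a) * I * M u / (1 + cc u)) * Tt
  rw [total]
  simp only [Complex.add_im, mul_assoc I, Complex.mul_im I, Complex.I_re, Complex.I_im, zero_mul, one_mul,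
    zero_add, Complex.re_ofReal_mul]
  ring

/-- **`λ = Im (φ conj(ζ)^(b+1) M v)`**, `M` of spin `b` -/
theorem dl_spb {φ : ℝ → ℝ} {φ' : ℝ} {u : Fin (n + 2) → ℝ} (hu : u ∈ OO n)
    (hφc : ContDiffOn ℝ 1 φ (Iio 1)) (hφ : HasDerivAt φ φ' (rr u)) {M : (Fin (n + 2) → ℝ) → ℂ}
    (hMc : ContDiffOn ℝ 1 M (OO n)) (b : ℕ) {p q : Fin (n + 2) → ℝ} {Kp Kq : ℂ}
    (hp : fderiv ℝ M u p = Kp + b * I * ((tt u p / (1 + cc u) : ℝ) : ℂ) * M u)
    (hq : fderiv ℝ M u q = Kq + b * I * ((tt u q / (1 + cc u) : ℝ) : ℂ) * M u) :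
    dl (fun i u => fderiv ℝ (gv (fun u => (φ (rr u) : ℂ) * conj (zt u) ^ (b + 1) * M u) i) u) u p q =
      ((φ (rr u) : ℂ) * conj (zt u) ^ (b + 1) * (Kp * vv u q - Kq * vv u p)).im
        + 2 * cc u * (rr u * φ' + (b + 1) * φ (rr u)) * (conj (zt u) ^ b * M u).re * ja u p q := by
  have hc := cc_pos hu
  have hc2 := cc_sq hu
  have dM : DifferentiableAt ℝ M u := (hMc.contDiffAt (isOpen_OO.mem_nhds hu)).differentiableAt one_ne_zero
  have dZ : HasFDerivAt (fun u : Fin (n + 2) → ℝ => conj (zt u)) _ u :=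
    Complex.conjCLE.toContinuousLinearMap.hasFDerivAt.comp u (hasF_zt u)
  have dP : DifferentiableAt ℝ (fun u : Fin (n + 2) → ℝ => ((φ (rr u) : ℝ) : ℂ)) u :=
    (Complex.ofRealCLM.hasFDerivAt.comp u (fderiv_radial hφ)).differentiableAt
  have hd : ∀ p, fderiv ℝ (fun u => (φ (rr u) : ℂ) * conj (zt u) ^ (b + 1) * M u) u p =
      ((2 * ss u p * φ' : ℝ) : ℂ) * conj (zt u) ^ (b + 1) * M u
        + (φ (rr u) : ℂ) * ((b + 1 : ℕ) * conj (zt u) ^ b * conj (zt p)) * M u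
        + (φ (rr u) : ℂ) * conj (zt u) ^ (b + 1) * fderiv ℝ M u p := by
    intro p
    have h1 := ((dP.hasFDerivAt.mul (dZ.pow (b + 1))).mul dM.hasFDerivAt).fderiv
    have h2 : fderiv ℝ (fun u => (φ (rr u) : ℂ) * conj (zt u) ^ (b + 1) * M u) u p = _ :=
      congrArg (fun L : (Fin (n + 2) → ℝ) →L[ℝ] ℂ => L p) h1
    rw [h2]
    have e1 : zt p = (p 0 : ℂ) + I * (p 1 : ℂ) := by
      apply Complex.ext <;> simp [zt]
    simp only [_root_.add_apply, _root_.smul_apply, smul_eq_mul, dph hφ, Pi.mul_apply,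
      nsmul_eq_mul, ContinuousLinearMap.comp_apply, ContinuousLinearEquiv.coe_coe, Complex.conjCLE_apply,
      Complex.ofRealCLM_apply, pj_apply, e1, Nat.add_sub_cancel]
    ring
  rw [dl_gv (contDiffOn_spb hφc hMc (b + 1)) hu, hd, hd, hp, hq, zt_eq hu p, zt_eq hu q, ss_eq hu, ss_eq hu]
  have R := rv (zt u) (vv u p) (vv u q)
  have Tt := tv (zt u) (vv u p) (vv u q)
  have hz : zt u * conj (zt u) = ((1 - cc u ^ 2 : ℝ) : ℂ) := by
    rw [Complex.mul_conj, hc2]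
    simp [zt, rr, Complex.normSq_apply]
    ring
  have hr : ((rr u : ℝ) : ℂ) = ((1 - cc u ^ 2 : ℝ) : ℂ) := by rw [hc2]; push_cast; ring
  have h1c : (1 + (cc u : ℂ)) ≠ 0 := by
    have : (1 + cc u) ≠ 0 := by positivity
    exact_mod_cast this
  have cv : conj (vv u p) * vv u q - conj (vv u q) * vv u p = 2 * I * ((ja u p q : ℝ) : ℂ) := by
    unfold ja
    apply Complex.ext <;> simp <;> ring
  obtain ⟨i, hi⟩ : ∃ i : ℂ, i = 1 / (1 + (cc u : ℂ)) := ⟨_, rfl⟩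
  have hi1 : i * (1 + (cc u : ℂ)) = 1 := by rw [hi]; field_simp
  have hdiv : ∀ x : ℝ, ((x / (1 + cc u) : ℝ) : ℂ) = (x : ℂ) * i := fun x => by
    rw [hi]; push_cast; ring
  have total : (((2 * (cc u * (conj (zt u) * vv u p).re) * φ' : ℝ) : ℂ) * conj (zt u) ^ (b + 1) * M u
        + (φ (rr u) : ℂ) * ((b + 1 : ℕ) * conj (zt u) ^ b
          * conj (vv u p - zt u * (((conj (zt u) * vv u p).re / (1 + cc u) : ℝ) : ℂ))) * M u
        + (φ (rr u) : ℂ) * conj (zt u) ^ (b + 1) * (Kp + b * I * ((tt u p / (1 + cc u) : ℝ) : ℂ) * M u)) * vv u q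
      - (((2 * (cc u * (conj (zt u) * vv u q).re) * φ' : ℝ) : ℂ) * conj (zt u) ^ (b + 1) * M u
        + (φ (rr u) : ℂ) * ((b + 1 : ℕ) * conj (zt u) ^ b
          * conj (vv u q - zt u * (((conj (zt u) * vv u q).re / (1 + cc u) : ℝ) : ℂ))) * M u
        + (φ (rr u) : ℂ) * conj (zt u) ^ (b + 1) * (Kq + b * I * ((tt u q / (1 + cc u) : ℝ) : ℂ) * M u)) * vv u p
      = (φ (rr u) : ℂ) * conj (zt u) ^ (b + 1) * (Kp * vv u q - Kq * vv u p)
        + I * ((2 * cc u * (rr u * φ' + (b + 1) * φ (rr u)) * ja u p q : ℝ) : ℂ) * (conj (zt u) ^ b * M u)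
        + I * ((ja u p q / (1 + cc u) : ℝ) : ℂ)
          * (zt u * ((φ (rr u) : ℂ) * conj (zt u) ^ (b + 1) * M u)) := by
    rw [hdiv, hdiv, hdiv, hdiv, hdiv]
    unfold tt
    have R' : ((((conj (zt u) * vv u p).re : ℝ) : ℂ) * vv u q - (((conj (zt u) * vv u q).re : ℝ) : ℂ) * vv u p)
        = I * zt u * ((ja u p q : ℝ) : ℂ) := R
    have T' : ((((conj (zt u) * vv u p).im : ℝ) : ℂ) * vv u q - (((conj (zt u) * vv u q).im : ℝ) : ℂ) * vv u p)
        = -(zt u * ((ja u p q : ℝ) : ℂ)) := Tt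
    simp only [map_sub, map_mul, Complex.conj_ofReal]
    have ci : conj i = i := by
      rw [hi, map_div₀, map_one, map_add, map_one, Complex.conj_ofReal]
    rw [ci, pow_succ]
    push_cast
    rw [hr]
    push_cast at hz ⊢
    generalize ((ja u p q : ℝ) : ℂ) = J at *
    generalize (((conj (zt u) * vv u p).re : ℝ) : ℂ) = rp at *
    generalize (((conj (zt u) * vv u q).re : ℝ) : ℂ) = rq at *
    generalize (((conj (zt u) * vv u p).im : ℝ) : ℂ) = tp at *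
    generalize (((conj (zt u) * vv u q).im : ℝ) : ℂ) = tq at *
    generalize (cc u : ℂ) = c at *
    generalize (φ (rr u) : ℂ) = f at *
    generalize conj (zt u) ^ b = zb at *
    generalize conj (zt u) = z' at *
    generalize zt u = z at *
    generalize conj (vv u p) = vp' at *
    generalize conj (vv u q) = vq' at *
    generalize vv u p = vp at *
    generalize vv u q = vq at *
    generalize M u = m at *
    linear_combination (2 * c * φ' * zb * z' * m - f * (b + 1) * zb * z' * i * m) * R'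
      + (f * zb * z' * b * I * i * m) * T' + (f * (b + 1) * zb * m) * cv
      + (2 * c * φ' * zb * m * I * J - f * (b + 1) * zb * i * m * I * J - f * zb * b * I * i * m * J
        - I * J * i * f * zb * m) * hz
      - (2 * f * (b + 1) * zb * m * I * J * (1 - c)) * hi1
  rw [total]
  simp only [Complex.add_im, mul_assoc I, Complex.mul_im I, Complex.I_re, Complex.I_im, zero_mul, one_mul,
    zero_add, Complex.re_ofReal_mul]
  ring

end Pool.Agent.FPX.CST
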