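import Mathlib
import Pool.Agent.FPX.OMD

/-
OME (helper11): the form `λ = b Im (conj C ∇C)` of a complex functional `C` of spin `s` (coordinates `j`, `k`),
in any system of functionals, and its exterior derivative.
-/

open MeasureTheory Set Filter Topology Complex
open scoped NNReal ContDiff ComplexConjugate

noncomputable section

namespace Pool.Agent.FPX.CST

variable {n : ℕ}

/-- additivity of `dl` -/
theorem dl_add {a a' : Fin n → (Fin n → ℝ) → ℝ} {u : Fin n → ℝ} (h : ∀ i, DifferentiableAt ℝ (a i) u)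
    (h' : ∀ i, DifferentiableAt ℝ (a' i) u) (p q : Fin n → ℝ) :
    dl (fun i u => fderiv ℝ (fun u => a i u + a' i u) u) u p q =
      dl (fun i u => fderiv ℝ (a i) u) u p q + dl (fun i u => fderiv ℝ (a' i) u) u p q := by
  unfold dl
  rw [← Finset.sum_add_distrib]
  refine Finset.sum_congr rfl fun i _ => ?_
  have e : fderiv ℝ (fun u => a i u + a' i u) u = fderiv ℝ (a i) u + fderiv ℝ (a' i) u :=
    fderiv_add (h i) (h' i)
  change fderiv ℝ (fun u => a i u + a' i u) u p * q i - fderiv ℝ (fun u => a i u + a' i u) u q * p i = _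
  rw [e]
  simp only [_root_.add_apply]
  ring

/-- the coefficients of `b Im (conj C dC)` -/
def lab0 (b : ℝ → ℝ) (j k : Fin (n + 2)) (i : Fin (n + 2)) (u : Fin (n + 2) → ℝ) : ℝ :=
  (if i = j then -(b (rr u) * u k) else 0) + (if i = k then b (rr u) * u j else 0)

/-- the radial function of the connection part -/
def phb (s : ℝ) (b : ℝ → ℝ) (r : ℝ) : ℝ := -(s * b r / (1 + √(1 - r)))

/-- the coefficients of `b Im (conj C ∇C)` -/
def lab (s : ℝ) (b : ℝ → ℝ) (j k : Fin (n + 2)) (i : Fin (n + 2)) (u : Fin (n + 2) → ℝ) : ℝ :=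
  lab0 b j k i u + gv (fun u => (phb s b (rr u) : ℂ) * conj (zt u) ^ (0 + 1) * ((normSq (cj j k u) : ℝ) : ℂ)) i u

theorem contDiffOn_phb {s : ℝ} {b : ℝ → ℝ} (hb : ContDiffOn ℝ 1 b (Iio 1)) :
    ContDiffOn ℝ 1 (phb s b) (Iio 1) := by
  unfold phb
  have h1 : ContDiffOn ℝ 1 (fun r : ℝ => √(1 - r)) (Iio 1) := by
    refine ContDiffOn.sqrt (by fun_prop) fun r hr => ?_
    have : r < 1 := hr
    linarith
  refine ((contDiffOn_const.mul hb).div (contDiffOn_const.add h1) fun r hr => ?_).neg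
  positivity

theorem hasDeriv_phb {s : ℝ} {b : ℝ → ℝ} {b' r : ℝ} (hr : r < 1) (hb : HasDerivAt b b' r) :
    HasDerivAt (phb s b) (-(s * b' / (1 + √(1 - r)))
      - s * b r / (2 * √(1 - r) * (1 + √(1 - r)) ^ 2)) r := by
  have hp : 0 < √(1 - r) := Real.sqrt_pos.2 (by linarith)
  have h1 : HasDerivAt (fun r : ℝ => √(1 - r)) ((-1) / (2 * √(1 - r))) r :=
    ((hasDerivAt_id r).const_sub 1).sqrt (by simp only [id_eq]; linarith)
  have h2 := ((hb.const_mul s).div (h1.const_add 1) (by positivity)).neg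
  refine h2.congr_deriv ?_
  field_simp
  ring

theorem contDiff_nsq (j k : Fin (n + 2)) :
    ContDiff ℝ 1 (fun u : Fin (n + 2) → ℝ => ((normSq (cj j k u) : ℝ) : ℂ)) := by
  have e : (fun u : Fin (n + 2) → ℝ => ((normSq (cj j k u) : ℝ) : ℂ)) =
      fun u => ((u j * u j + u k * u k : ℝ) : ℂ) := by
    funext u
    simp [cj, normSq_apply]
  rw [e]
  exact Complex.ofRealCLM.contDiff.comp (((contDiff_apply ℝ ℝ j).mul (contDiff_apply ℝ ℝ j)).add
    ((contDiff_apply ℝ ℝ k).mul (contDiff_apply ℝ ℝ k)))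

theorem fderiv_nsq (j k : Fin (n + 2)) (u p : Fin (n + 2) → ℝ) :
    fderiv ℝ (fun u : Fin (n + 2) → ℝ => ((normSq (cj j k u) : ℝ) : ℂ)) u p =
      ((2 * (conj (cj j k u) * cj j k p).re : ℝ) : ℂ) := by
  have e : (fun u : Fin (n + 2) → ℝ => ((normSq (cj j k u) : ℝ) : ℂ)) =
      fun u => ((u j * u j + u k * u k : ℝ) : ℂ) := by
    funext u
    simp [cj, normSq_apply]
  rw [e]
  have h1 : HasFDerivAt (fun u : Fin (n + 2) → ℝ => u j) (pj j) u := hasFDerivAt_apply j u
  have h2 : HasFDerivAt (fun u : Fin (n + 2) → ℝ => u k) (pj k) u := hasFDerivAt_apply k u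
  have h3 := Complex.ofRealCLM.hasFDerivAt.comp u ((h1.mul h1).add (h2.mul h2))
  have h4 : fderiv ℝ (fun u : Fin (n + 2) → ℝ => ((u j * u j + u k * u k : ℝ) : ℂ)) u p = _ :=
    congrArg (fun L : (Fin (n + 2) → ℝ) →L[ℝ] ℂ => L p) h3.fderiv
  rw [h4]
  simp only [_root_.add_apply, _root_.smul_apply, ContinuousLinearMap.comp_apply, Complex.ofRealCLM_apply,
    pj_apply, smul_eq_mul, cj]
  push_cast
  simp
  ring

theorem contDiffOn_lab0 {b : ℝ → ℝ} (hb : ContDiffOn ℝ 1 b (Iio 1)) (j k i : Fin (n + 2)) :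
    ContDiffOn ℝ 1 (lab0 b j k i) (OO n) := by
  have h1 : ContDiffOn ℝ 1 (fun u : Fin (n + 2) → ℝ => b (rr u) * u k) (OO n) :=
    (contDiffOn_rad hb).mul (contDiff_apply ℝ ℝ k).contDiffOn
  have h2 : ContDiffOn ℝ 1 (fun u : Fin (n + 2) → ℝ => b (rr u) * u j) (OO n) :=
    (contDiffOn_rad hb).mul (contDiff_apply ℝ ℝ j).contDiffOn
  have g1 : ContDiffOn ℝ 1 (fun u : Fin (n + 2) → ℝ => (if i = j then -(b (rr u) * u k) else 0)) (OO n) := by
    by_cases hj : i = j
    · simp only [hj, if_true]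
      exact h1.neg
    · simp only [hj, if_false]
      exact contDiffOn_const
  have g2 : ContDiffOn ℝ 1 (fun u : Fin (n + 2) → ℝ => (if i = k then b (rr u) * u j else 0)) (OO n) := by
    by_cases hj : i = k
    · simp only [hj, if_true]
      exact h2
    · simp only [hj, if_false]
      exact contDiffOn_const
  exact g1.add g2

theorem contDiffOn_lab {s : ℝ} {b : ℝ → ℝ} (hb : ContDiffOn ℝ 1 b (Iio 1)) (j k i : Fin (n + 2)) :
    ContDiffOn ℝ 1 (lab s b j k i) (OO n) :=
  (contDiffOn_lab0 hb j k i).add (contDiffOn_gv (contDiffOn_spb (contDiffOn_phb hb)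
    (contDiff_nsq j k).contDiffOn (0 + 1)) i)

theorem dl_lab0 {b : ℝ → ℝ} {b' : ℝ} {u : Fin (n + 2) → ℝ} (hb : HasDerivAt b b' (rr u)) {j k : Fin (n + 2)}
    (p q : Fin (n + 2) → ℝ) :
    dl (fun i u => fderiv ℝ (lab0 b j k i) u) u p q =
      2 * b (rr u) * (conj (cj j k p) * cj j k q).im
        + 2 * b' * (ss u p * (conj (cj j k u) * cj j k q).im - ss u q * (conj (cj j k u) * cj j k p).im) := by
  have hr := fderiv_radial (u := u) hb
  have hd : ∀ (l : Fin (n + 2)) (p : Fin (n + 2) → ℝ),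
      fderiv ℝ (fun u : Fin (n + 2) → ℝ => b (rr u) * u l) u p = 2 * ss u p * b' * u l + b (rr u) * p l := by
    intro l p
    have h1 : HasFDerivAt (fun u : Fin (n + 2) → ℝ => u l) (pj l) u := hasFDerivAt_apply l u
    have h2 := hr.mul h1
    have h3 : fderiv ℝ (fun u : Fin (n + 2) → ℝ => b (rr u) * u l) u p = _ :=
      congrArg (fun L : (Fin (n + 2) → ℝ) →L[ℝ] ℝ => L p) h2.fderiv
    rw [h3]
    simp only [_root_.add_apply, _root_.smul_apply, pj_apply, smul_eq_mul, ss]
    ring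
  have dd : ∀ l : Fin (n + 2), DifferentiableAt ℝ (fun u : Fin (n + 2) → ℝ => b (rr u) * u l) u := fun l =>
    (hr.mul (hasFDerivAt_apply l u)).differentiableAt
  have he : ∀ (i : Fin (n + 2)) (p : Fin (n + 2) → ℝ), fderiv ℝ (lab0 b j k i) u p =
      (if i = j then -(2 * ss u p * b' * u k + b (rr u) * p k) else 0)
        + (if i = k then 2 * ss u p * b' * u j + b (rr u) * p j else 0) := by
    intro i p
    have e1 : fderiv ℝ (fun u : Fin (n + 2) → ℝ => (if i = j then -(b (rr u) * u k) else 0)) u p =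
        (if i = j then -(2 * ss u p * b' * u k + b (rr u) * p k) else 0) := by
      by_cases hj : i = j
      · simp only [hj, if_true]
        rw [← hd k p, show (fun u : Fin (n + 2) → ℝ => -(b (rr u) * u k))
          = -(fun u : Fin (n + 2) → ℝ => b (rr u) * u k) from rfl, fderiv_neg]
        simp
      · simp [hj]
    have e2 : fderiv ℝ (fun u : Fin (n + 2) → ℝ => (if i = k then b (rr u) * u j else 0)) u p =
        (if i = k then 2 * ss u p * b' * u j + b (rr u) * p j else 0) := by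
      by_cases hj : i = k
      · simp only [hj, if_true]
        exact hd j p
      · simp [hj]
    have d1 : DifferentiableAt ℝ (fun u : Fin (n + 2) → ℝ => (if i = j then -(b (rr u) * u k) else 0)) u := by
      by_cases hj : i = j
      · simp only [hj, if_true]
        exact (dd k).neg
      · simp [hj]
    have d2 : DifferentiableAt ℝ (fun u : Fin (n + 2) → ℝ => (if i = k then b (rr u) * u j else 0)) u := by
      by_cases hj : i = k
      · simp only [hj, if_true]
        exact dd j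
      · simp [hj]
    have e3 : fderiv ℝ (lab0 b j k i) u = _ := fderiv_add d1 d2
    rw [e3, _root_.add_apply, e1, e2]
  unfold dl
  simp only [he]
  have e4 : ∀ i : Fin (n + 2),
      ((if i = j then -(2 * ss u p * b' * u k + b (rr u) * p k) else 0)
        + (if i = k then 2 * ss u p * b' * u j + b (rr u) * p j else 0)) * q i
      - ((if i = j then -(2 * ss u q * b' * u k + b (rr u) * q k) else 0)
        + (if i = k then 2 * ss u q * b' * u j + b (rr u) * q j else 0)) * p i =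
      (if i = j then -(2 * ss u p * b' * u k + b (rr u) * p k) * q j
        + (2 * ss u q * b' * u k + b (rr u) * q k) * p j else 0)
      + (if i = k then (2 * ss u p * b' * u j + b (rr u) * p j) * q k
        - (2 * ss u q * b' * u j + b (rr u) * q j) * p k else 0) := by
    intro i
    by_cases hj : i = j
    · by_cases hk : i = k
      · simp only [hj, if_true]
        rw [← hj, ← hk]
        simp
        ring
      · simp only [hj, if_true]
        rw [← hj]
        simp only [hk, if_false]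
        ring
    · by_cases hk : i = k
      · simp only [hk, if_true]
        rw [← hk]
        simp only [hj, if_false]
        ring
      · simp [hj, hk]
  simp only [e4]
  rw [Finset.sum_add_distrib, Finset.sum_ite_eq', Finset.sum_ite_eq']
  simp only [Finset.mem_univ, if_true, cj, mul_im, conj_re, conj_im]
  ring

/-- **the exterior derivative of `b Im (conj C ∇C)`**, `C` of spin `s` -/
theorem dl_lab {s : ℝ} {b : ℝ → ℝ} {b' : ℝ} {u : Fin (n + 2) → ℝ} (hu : u ∈ OO n)
    (hbc : ContDiffOn ℝ 1 b (Iio 1)) (hb : HasDerivAt b b' (rr u)) {j k : Fin (n + 2)}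
    {p q : Fin (n + 2) → ℝ} {Np Nq : ℂ}
    (hp : cj j k p = Np + s * I * ((tt u p / (1 + cc u) : ℝ) : ℂ) * cj j k u)
    (hq : cj j k q = Nq + s * I * ((tt u q / (1 + cc u) : ℝ) : ℂ) * cj j k u) :
    dl (fun i u => fderiv ℝ (lab s b j k i) u) u p q =
      2 * b (rr u) * (conj Np * Nq).im - s * b (rr u) * normSq (cj j k u) * ja u p q
        + 2 * cc u * b' * ((conj (zt u) * vv u p).re * (conj (cj j k u) * Nq).im
          - (conj (zt u) * vv u q).re * (conj (cj j k u) * Np).im) := by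
  have hc := cc_pos hu
  have hc2 := cc_sq hu
  have hr : rr u < 1 := hu
  have g1 := contDiffOn_lab0 hbc j k
  have g2 := contDiffOn_gv (n := n) (contDiffOn_spb (contDiffOn_phb (s := s) hbc)
    (contDiff_nsq j k).contDiffOn (0 + 1))
  have key : dl (fun i u => fderiv ℝ (lab s b j k i) u) u p q = _ :=
    dl_add (u := u) (fun i => ((g1 i).contDiffAt (isOpen_OO.mem_nhds hu)).differentiableAt one_ne_zero)
      (fun i => ((g2 i).contDiffAt (isOpen_OO.mem_nhds hu)).differentiableAt one_ne_zero) p q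
  have Bp : fderiv ℝ (fun u : Fin (n + 2) → ℝ => ((normSq (cj j k u) : ℝ) : ℂ)) u p =
      ((2 * (conj (cj j k u) * Np).re : ℝ) : ℂ) + ((0 : ℕ) : ℂ) * I * ((tt u p / (1 + cc u) : ℝ) : ℂ)
        * ((normSq (cj j k u) : ℝ) : ℂ) := by
    rw [fderiv_nsq, hp]
    push_cast
    rw [zero_mul, zero_mul, zero_mul, add_zero]
    norm_cast
    generalize tt u p / (1 + cc u) = t
    generalize cj j k u = z
    obtain ⟨x, y⟩ := z
    obtain ⟨x1, y1⟩ := Np
    simp
    ring
  have Bq : fderiv ℝ (fun u : Fin (n + 2) → ℝ => ((normSq (cj j k u) : ℝ) : ℂ)) u q =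
      ((2 * (conj (cj j k u) * Nq).re : ℝ) : ℂ) + ((0 : ℕ) : ℂ) * I * ((tt u q / (1 + cc u) : ℝ) : ℂ)
        * ((normSq (cj j k u) : ℝ) : ℂ) := by
    rw [fderiv_nsq, hq]
    push_cast
    rw [zero_mul, zero_mul, zero_mul, add_zero]
    norm_cast
    generalize tt u q / (1 + cc u) = t
    generalize cj j k u = z
    obtain ⟨x, y⟩ := z
    obtain ⟨x1, y1⟩ := Nq
    simp
    ring
  rw [key, dl_lab0 hb, dl_spb hu (contDiffOn_phb hbc) (hasDeriv_phb hr hb) (contDiff_nsq j k).contDiffOn 0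
    Bp Bq, hp, hq, ss_eq hu, ss_eq hu]
  have ecc : √(1 - rr u) = cc u := rfl
  unfold phb
  rw [ecc]
  have hr2 : rr u = 1 - cc u ^ 2 := by rw [hc2]; ring
  have hj : ja u p q = (conj (vv u p) * vv u q).im := rfl
  have e1 : tt u p = (conj (zt u) * vv u p).im := rfl
  have e2 : tt u q = (conj (zt u) * vv u q).im := rfl
  have hz : (zt u).re ^ 2 + (zt u).im ^ 2 = 1 - cc u ^ 2 := by
    rw [hc2]
    simp [zt, rr]
  rw [hj, e1, e2, hr2]
  obtain ⟨i, hi⟩ : ∃ i : ℝ, i = 1 / (1 + cc u) := ⟨_, rfl⟩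
  have hi1 : i * (1 + cc u) = 1 := by rw [hi]; field_simp
  obtain ⟨D, hD⟩ : ∃ D : ℝ, D = s * b (1 - cc u ^ 2) / (2 * cc u * (1 + cc u) ^ 2) := ⟨_, rfl⟩
  have hD1 : 2 * cc u * D = s * b (1 - cc u ^ 2) * i ^ 2 := by rw [hD, hi]; field_simp
  rw [← hD]
  have hdiv : ∀ x : ℝ, x / (1 + cc u) = x * i := fun x => by rw [hi]; ring
  simp only [hdiv]
  clear hdiv hi hD key Bp Bq g1 g2 hp hq hb hbc hj e1 e2 ecc hc hc2 hr hr2
  generalize vv u p = vp at *
  generalize vv u q = vq at *
  generalize zt u = z at *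
  generalize cj j k u = C at *
  generalize cc u = c at *
  generalize b (1 - c ^ 2) = β at *
  obtain ⟨x, y⟩ := z
  obtain ⟨v1, v2⟩ := vp
  obtain ⟨w1, w2⟩ := vq
  obtain ⟨C1, C2⟩ := C
  obtain ⟨a1, a2⟩ := Np
  obtain ⟨d1, d2⟩ := Nq
  simp only at hz
  simp only [mul_re, mul_im, add_re, add_im, sub_re, sub_im, conj_re, conj_im, ofReal_re, ofReal_im, I_re,
    I_im, normSq_apply, pow_zero, pow_one, zero_add, one_re, one_im, Nat.cast_zero]
  linear_combination (2 * b' * c * s * i * (C1 * C1 + C2 * C2) * (v1 * w2 - v2 * w1)) * hz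
    - (s * β * (C1 * C1 + C2 * C2) * (v1 * w2 - v2 * w1) * ((1 - c) * i + 1)) * hi1
    - ((1 - c ^ 2) * (C1 * C1 + C2 * C2) * (v1 * w2 - v2 * w1)) * hD1

end Pool.Agent.FPX.CST
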