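import Mathlib
import Pool.Agent.FPX.OME

/-
OMF (helper11): the exterior derivatives of the forms `Im (φ ζ^a conj(C) v)`, `Im (φ conj(ζ)^(b+1) C v)`,
`Im (φ conj(ζ) x v)` (`x` a real coordinate) and `Im (φ conj(ζ) |C|² v)`, `C` a complex coordinate with a covariant
derivative `N`.
-/

open MeasureTheory Set Filter Topology Complex
open scoped NNReal ContDiff ComplexConjugate

noncomputable section

namespace Pool.Agent.FPX.CST

variable {n : ℕ}

theorem contDiff_cjc (j k : Fin (n + 2)) : ContDiff ℝ 1 fun u : Fin (n + 2) → ℝ => conj (cj j k u) :=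
  Complex.conjCLE.contDiff.comp (contDiff_cj j k)

theorem contDiff_ul (l : Fin (n + 2)) : ContDiff ℝ 1 fun u : Fin (n + 2) → ℝ => ((u l : ℝ) : ℂ) :=
  Complex.ofRealCLM.contDiff.comp (contDiff_apply ℝ ℝ l)

theorem fderiv_cj (j k : Fin (n + 2)) (u p : Fin (n + 2) → ℝ) : fderiv ℝ (cj j k) u p = cj j k p := by
  rw [(hasF_cj j k u).fderiv]
  have e1 : cj j k p = (p j : ℂ) + I * (p k : ℂ) := by
    apply Complex.ext <;> simp [cj]
  simp only [_root_.add_apply, _root_.smul_apply, ContinuousLinearMap.comp_apply, Complex.ofRealCLM_apply,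
    pj_apply, smul_eq_mul, e1]

theorem fderiv_cjc (j k : Fin (n + 2)) (u p : Fin (n + 2) → ℝ) :
    fderiv ℝ (fun u => conj (cj j k u)) u p = conj (cj j k p) := by
  have h1 := Complex.conjCLE.toContinuousLinearMap.hasFDerivAt.comp u (hasF_cj j k u)
  have h2 : fderiv ℝ (fun u : Fin (n + 2) → ℝ => conj (cj j k u)) u p = _ :=
    congrArg (fun L : (Fin (n + 2) → ℝ) →L[ℝ] ℂ => L p) h1.fderiv
  rw [h2, ← fderiv_cj j k u p, (hasF_cj j k u).fderiv]
  rfl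

theorem fderiv_ul (l : Fin (n + 2)) (u p : Fin (n + 2) → ℝ) :
    fderiv ℝ (fun u : Fin (n + 2) → ℝ => ((u l : ℝ) : ℂ)) u p = ((p l : ℝ) : ℂ) := by
  have h1 : HasFDerivAt (fun u : Fin (n + 2) → ℝ => u l) (pj l) u := hasFDerivAt_apply l u
  have h3 := Complex.ofRealCLM.hasFDerivAt.comp u h1
  have h4 : fderiv ℝ (fun u : Fin (n + 2) → ℝ => ((u l : ℝ) : ℂ)) u p = _ :=
    congrArg (fun L : (Fin (n + 2) → ℝ) →L[ℝ] ℂ => L p) h3.fderiv
  rw [h4]
  rfl

section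

variable {φ : ℝ → ℝ} {φ' : ℝ} {u p q : Fin (n + 2) → ℝ}

/-- `λ = Im (φ ζ^a conj(C) v)`, `C` of spin `a + 1` -/
theorem dl_fa (hu : u ∈ OO n) (hφc : ContDiffOn ℝ 1 φ (Iio 1)) (hφ : HasDerivAt φ φ' (rr u)) (a : ℕ)
    {j k : Fin (n + 2)} {Np Nq : ℂ}
    (hp : cj j k p = Np + (1 + a) * I * ((tt u p / (1 + cc u) : ℝ) : ℂ) * cj j k u)
    (hq : cj j k q = Nq + (1 + a) * I * ((tt u q / (1 + cc u) : ℝ) : ℂ) * cj j k u) :
    dl (fun i u => fderiv ℝ (gv (fun u => (φ (rr u) : ℂ) * zt u ^ a * conj (cj j k u)) i) u) u p q =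
      ((φ (rr u) : ℂ) * zt u ^ a * (conj Np * vv u q - conj Nq * vv u p)).im
        + 2 * cc u * φ' * (zt u ^ (a + 1) * conj (cj j k u)).re * ja u p q :=
  dl_spa hu hφc hφ (contDiff_cjc j k).contDiffOn a
    (by
      rw [fderiv_cjc, hp]
      simp only [map_add, map_mul, map_one, map_natCast, Complex.conj_I, Complex.conj_ofReal]
      ring)
    (by
      rw [fderiv_cjc, hq]
      simp only [map_add, map_mul, map_one, map_natCast, Complex.conj_I, Complex.conj_ofReal]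
      ring)

/-- `λ = Im (φ conj(ζ)^(b+1) C v)`, `C` of spin `b` -/
theorem dl_fb (hu : u ∈ OO n) (hφc : ContDiffOn ℝ 1 φ (Iio 1)) (hφ : HasDerivAt φ φ' (rr u)) (b : ℕ)
    {j k : Fin (n + 2)} {Np Nq : ℂ}
    (hp : cj j k p = Np + b * I * ((tt u p / (1 + cc u) : ℝ) : ℂ) * cj j k u)
    (hq : cj j k q = Nq + b * I * ((tt u q / (1 + cc u) : ℝ) : ℂ) * cj j k u) :
    dl (fun i u => fderiv ℝ (gv (fun u => (φ (rr u) : ℂ) * conj (zt u) ^ (b + 1) * cj j k u) i) u) u p q =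
      ((φ (rr u) : ℂ) * conj (zt u) ^ (b + 1) * (Np * vv u q - Nq * vv u p)).im
        + 2 * cc u * (rr u * φ' + (b + 1) * φ (rr u)) * (conj (zt u) ^ b * cj j k u).re * ja u p q :=
  dl_spb hu hφc hφ (contDiff_cj j k).contDiffOn b (by rw [fderiv_cj, hp]) (by rw [fderiv_cj, hq])

/-- `λ = Im (φ conj(ζ) x v)`, `x` a real coordinate -/
theorem dl_f0 (hu : u ∈ OO n) (hφc : ContDiffOn ℝ 1 φ (Iio 1)) (hφ : HasDerivAt φ φ' (rr u)) (l : Fin (n + 2)) :
    dl (fun i u => fderiv ℝ (gv (fun u => (φ (rr u) : ℂ) * conj (zt u) ^ (0 + 1) * ((u l : ℝ) : ℂ)) i) u) u p q =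
      ((φ (rr u) : ℂ) * conj (zt u) * (((p l : ℝ) : ℂ) * vv u q - ((q l : ℝ) : ℂ) * vv u p)).im
        + 2 * cc u * (rr u * φ' + φ (rr u)) * u l * ja u p q := by
  rw [dl_spb hu hφc hφ (contDiff_ul l).contDiffOn 0 (Kp := ((p l : ℝ) : ℂ)) (Kq := ((q l : ℝ) : ℂ))
    (by rw [fderiv_ul]; simp) (by rw [fderiv_ul]; simp)]
  simp

/-- `λ = Im (φ conj(ζ) |C|² v)`, `C` of any spin `s` -/
theorem dl_fn (hu : u ∈ OO n) (hφc : ContDiffOn ℝ 1 φ (Iio 1)) (hφ : HasDerivAt φ φ' (rr u)) {s : ℝ}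
    {j k : Fin (n + 2)} {Np Nq : ℂ}
    (hp : cj j k p = Np + s * I * ((tt u p / (1 + cc u) : ℝ) : ℂ) * cj j k u)
    (hq : cj j k q = Nq + s * I * ((tt u q / (1 + cc u) : ℝ) : ℂ) * cj j k u) :
    dl (fun i u => fderiv ℝ (gv (fun u => (φ (rr u) : ℂ) * conj (zt u) ^ (0 + 1)
      * ((normSq (cj j k u) : ℝ) : ℂ)) i) u) u p q =
      ((φ (rr u) : ℂ) * conj (zt u) * (((2 * (conj (cj j k u) * Np).re : ℝ) : ℂ) * vv u q
        - ((2 * (conj (cj j k u) * Nq).re : ℝ) : ℂ) * vv u p)).im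
        + 2 * cc u * (rr u * φ' + φ (rr u)) * normSq (cj j k u) * ja u p q := by
  have key : ∀ {p : Fin (n + 2) → ℝ} {Np : ℂ},
      cj j k p = Np + s * I * ((tt u p / (1 + cc u) : ℝ) : ℂ) * cj j k u →
      fderiv ℝ (fun u : Fin (n + 2) → ℝ => ((normSq (cj j k u) : ℝ) : ℂ)) u p =
        ((2 * (conj (cj j k u) * Np).re : ℝ) : ℂ) + ((0 : ℕ) : ℂ) * I * ((tt u p / (1 + cc u) : ℝ) : ℂ)
          * ((normSq (cj j k u) : ℝ) : ℂ) := by
    intro p Np hp
    rw [fderiv_nsq, hp]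
    push_cast
    rw [zero_mul, zero_mul, zero_mul, add_zero]
    norm_cast
    generalize tt u p / (1 + cc u) = t
    generalize cj j k u = z
    obtain ⟨x, y⟩ := z
    obtain ⟨x1, y1⟩ := Np
    simp
    ring
  rw [dl_spb hu hφc hφ (contDiff_nsq j k).contDiffOn 0 (key hp) (key hq)]
  simp

end

/-- the polarised form of a mixed term -/
theorem pol {X : Type*} [MeasurableSpace X] {μ : Measure X} [IsFiniteMeasure μ] {κ h k : X → ℂ}
    (bκ : CRD.Bm κ) (bh : CRD.Bm h) (bk : CRD.Bm k) (rh : ∀ x, (h x).im = 0) (rk : ∀ x, (k x).im = 0)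
    (vp vq : ℂ) :
    ((∫ x, κ x * h x ∂μ) * vq - (∫ x, κ x * k x ∂μ) * vp).im =
      ((vp - I * vq) / 2 * ∫ x, κ x * (h x + I * k x) ∂μ).re
        - ((vp + I * vq) / 2 * ∫ x, κ x * conj (h x + I * k x) ∂μ).re := by
  have rc : ∀ z : ℂ, z.im = 0 → conj z = z := fun z hz => Complex.conj_eq_iff_im.2 hz
  have s1 : ∫ x, κ x * (h x + I * k x) ∂μ = (∫ x, κ x * h x ∂μ) + I * ∫ x, κ x * k x ∂μ := by
    rw [← integral_const_mul, ← integral_add (bκ.mul bh).int ((CRD.Bm.const I).mul (bκ.mul bk)).int]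
    congr 1
    funext x
    ring
  have s2 : ∫ x, κ x * conj (h x + I * k x) ∂μ = (∫ x, κ x * h x ∂μ) - I * ∫ x, κ x * k x ∂μ := by
    rw [← integral_const_mul, ← integral_sub (bκ.mul bh).int ((CRD.Bm.const I).mul (bκ.mul bk)).int]
    congr 1
    funext x
    rw [map_add, map_mul, conj_I, rc _ (rh x), rc _ (rk x)]
    ring
  rw [s1, s2]
  generalize ∫ x, κ x * h x ∂μ = P
  generalize ∫ x, κ x * k x ∂μ = R
  simp only [mul_re, mul_im, add_re, add_im, sub_re, sub_im, I_re, I_im, div_ofNat_re, div_ofNat_im]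
  ring

/-- the polarised form of `x_p y_q - x_q y_p`, `x = Re (a v)`, `y = Im (b N)` -/
theorem pol2 (a b vp vq Np Nq : ℂ) :
    (a * vp).re * (b * Nq).im - (a * vq).re * (b * Np).im =
      ((a * ((vp - I * vq) / 2) + conj a * conj ((vp + I * vq) / 2))
        * (conj b * conj ((Np - I * Nq) / 2) - b * ((Np + I * Nq) / 2))).re := by
  have c2 : conj (2 : ℂ) = 2 := map_ofNat _ 2
  simp only [map_div₀, map_add, map_sub, map_mul, conj_I, c2, mul_re, mul_im, add_re, add_im, sub_re, sub_im,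
    conj_re, conj_im, I_re, I_im, div_ofNat_re, div_ofNat_im, neg_re, neg_im]
  ring

/-- the polarised form of `Im (conj N_p N_q)` -/
theorem pol3 (Np Nq : ℂ) : (conj Np * Nq).im = ‖(Np - I * Nq) / 2‖ ^ 2 - ‖(Np + I * Nq) / 2‖ ^ 2 := by
  rw [← Complex.normSq_eq_norm_sq, ← Complex.normSq_eq_norm_sq, Complex.normSq_apply, Complex.normSq_apply]
  simp only [mul_re, mul_im, add_re, add_im, sub_re, sub_im, conj_re, conj_im, I_re, I_im, div_ofNat_re,
    div_ofNat_im]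
  ring

end Pool.Agent.FPX.CST
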