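import Mathlib
import Pool.Agent.FPX.F54G
import Pool.Agent.FPX.S54B
import Pool.Agent.FPX.C54B
import Pool.Agent.FPX.ARE

/-
SYS (helper8): the system `CST.Sys` of the map F54 together with the moments `S_n = mean (δ² ε^n)` and
`C_m = 2 mean (δ ε^m)`, with their explicit derivatives.
-/

open MeasureTheory Set Filter Topology
open scoped ENNReal NNReal ComplexConjugate

noncomputable section

namespace Pool.Agent.FPX.SYS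

open Real Pool.Agent.FPX.UMP Pool.Agent.FPX.UMQ Pool.Agent.FPX.UXA
open Pool.Agent.FPX.F54 (pr X1 X2 dX1 dX2 X_lt X_der umap fn_X1 fn_X2 SM dSM fn_SM bdd_SM)
open Pool.Agent.FPX.S54 (cc YY vt KK ME de Sn MM_eq ME_neg Sn_neg Fv mS dS2 dS0 ME_one_F)

variable {n : ℕ}

/-- **the map F54 together with further functionals** -/
theorem sys {ψ : Fin n → (ℝ → ℝ) → ℝ} {dψ : Fin n → (ℝ → ℝ) → (ℝ → ℝ) → ℝ}
    (h1 : ∀ i, Fn (ψ i) (dψ i)) (h2 : ∀ i m, 0 ≤ m → m < π / 2 → ∃ L, 0 ≤ L ∧ Bdd (dψ i) m L) :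
    CST.Sys (Matrix.vecCons X1 (Matrix.vecCons X2 ψ)) (Matrix.vecCons dX1 (Matrix.vecCons dX2 dψ)) 3 7 where
  map := umap
  fn := fun i => by
    refine Fin.cases ?_ (fun i => ?_) i
    · exact fn_X1
    · refine Fin.cases ?_ (fun i => ?_) i
      · exact fn_X2
      · exact h1 i
  bd := fun i => by
    refine Fin.cases ?_ (fun i => ?_) i
    · intro m _ _
      exact ⟨7, by norm_num, fun f h D a b c d e => umap.bX m f h D a b c d e⟩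
    · refine Fin.cases ?_ (fun i => ?_) i
      · intro m _ _
        exact ⟨7, by norm_num, fun f h D a b c d e => umap.bY m f h D a b c d e⟩
      · exact h2 i

/-! ### functionals up to equality at states -/

theorem fn_congr {Φ Ψ : (ℝ → ℝ) → ℝ} {dΦ dΨ : (ℝ → ℝ) → (ℝ → ℝ) → ℝ} (h : Fn Φ dΦ)
    (h1 : ∀ f, Ef f → Φ f = Ψ f) (h2 : ∀ f h, Ef f → dΦ f h = dΨ f h) : Fn Ψ dΨ where
  tds := by
    intro l φ f a b c
    have := h.tds l φ f a b c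
    rw [← h1 f b]
    refine this.congr' ?_
    filter_upwards [a] with i hi
    exact h1 _ hi
  der := by
    intro φ k x b a c d
    have := h.der φ k x b a c d
    rw [← h2 _ _ a.ef]
    refine this.congr_of_eventuallyEq ?_
    filter_upwards [d] with i hi
    exact (h1 _ hi).symm

theorem fn_smul {Φ : (ℝ → ℝ) → ℝ} {dΦ : (ℝ → ℝ) → (ℝ → ℝ) → ℝ} (h : Fn Φ dΦ) (a : ℝ) :
    Fn (fun f => a * Φ f) (fun f k => a * dΦ f k) where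
  tds := fun l φ f b c d => (h.tds l φ f b c d).const_mul a
  der := fun φ k x b c d e => (h.der φ k x b c d e).const_mul a

theorem bdd_congr {dΦ dΨ : (ℝ → ℝ) → (ℝ → ℝ) → ℝ} {m : ℝ} (h : ∃ L, 0 ≤ L ∧ Bdd dΦ m L)
    (h2 : ∀ f h, Ef f → dΦ f h = dΨ f h) : ∃ L, 0 ≤ L ∧ Bdd dΨ m L := by
  obtain ⟨L, h0, hL⟩ := h
  refine ⟨L, h0, fun f k D a b c d e => ?_⟩
  rw [← h2 f k a]
  exact hL f k D a b c d e

theorem bdd_smul {dΦ : (ℝ → ℝ) → (ℝ → ℝ) → ℝ} {m : ℝ} (h : ∃ L, 0 ≤ L ∧ Bdd dΦ m L) (a : ℝ) :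
    ∃ L, 0 ≤ L ∧ Bdd (fun f k => a * dΦ f k) m L := by
  obtain ⟨L, h0, hL⟩ := h
  refine ⟨|a| * L, by positivity, fun f k D h1 h2 h3 h4 h5 => ?_⟩
  rw [abs_mul, mul_assoc]
  exact mul_le_mul_of_nonneg_left (hL f k D h1 h2 h3 h4 h5) (abs_nonneg _)

/-! ### the moments `S_n` -/

/-- `S_n = mean (δ² ε^n)` at `F54 f` -/
def SE (n : ℤ) (f : ℝ → ℝ) : ℂ := Sn n (X1 f) (X2 f) f

/-- the derivative of `S_n` in the direction `h` -/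
def dSE (n : ℤ) (f h : ℝ → ℝ) : ℂ :=
  2 * ME n (X1 f) (X2 f) (fun t => de (X1 f) (X2 f) f t * h t)
    - (Fv f h * ME (n - 1) (X1 f) (X2 f) (de (X1 f) (X2 f) f)
      + conj (Fv f h) * ME (n + 1) (X1 f) (X2 f) (de (X1 f) (X2 f) f))
    + ((n : ℂ) + 2) / (4 * (cc (X1 f) (X2 f) : ℂ)) * (conj (YY (X1 f) (X2 f)) * conj (Fv f h)) * SE (n + 2) f
    - ((n : ℂ) - 2) / (4 * (cc (X1 f) (X2 f) : ℂ)) * (YY (X1 f) (X2 f) * Fv f h) * SE (n - 2) f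
    + (n : ℂ) * (Complex.I * ((X1 f * dX2 f h - X2 f * dX1 f h : ℝ) : ℂ))
      * (1 / (1 + (cc (X1 f) (X2 f) : ℂ)) - 1 / (2 * (cc (X1 f) (X2 f) : ℂ))) * SE n f

theorem two_der (u : ℝ) : HasDerivAt (fun u : ℝ => u ^ 2) ((fun u : ℝ => 2 * u) u) u := by
  simpa using hasDerivAt_pow 2 u

theorem SE_eq (n : ℤ) (f : ℝ → ℝ) : SE n f = ((1 / 2 : ℝ) : ℂ) * SM n (fun u : ℝ => u ^ 2) f := by
  unfold SE SM Sn
  rw [MM_eq]
  push_cast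
  ring

theorem dSE_eq (n : ℤ) (f h : ℝ → ℝ) :
    dSE n f h = ((1 / 2 : ℝ) : ℂ) * dSM n (fun u : ℝ => u ^ 2) (fun u : ℝ => 2 * u) f h := by
  have hπ : (π : ℂ) ≠ 0 := Complex.ofReal_ne_zero.2 pi_ne_zero
  have e1 : ∀ k, S54.MM k (fun u : ℝ => 2 * u) (X1 f) (X2 f) f
      = 4 * ME k (X1 f) (X2 f) (de (X1 f) (X2 f) f) := fun k => by
    rw [MM_eq, S54.ME_const]
    push_cast
    ring
  have e2 : ∀ k, S54.MM k (fun u : ℝ => u ^ 2) (X1 f) (X2 f) f = 2 * Sn k (X1 f) (X2 f) f := fun k => by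
    rw [MM_eq]
    rfl
  have e3 : (1 / (π : ℂ)) * (∫ t in (0 : ℝ)..(2 * π),
      (((fun u : ℝ => 2 * u) (f t - arcsin (pr (X1 f) (X2 f) t)) * h t : ℝ) : ℂ) * KK n (X1 f) (X2 f) t)
      = 4 * ME n (X1 f) (X2 f) (fun t => de (X1 f) (X2 f) f t * h t) := by
    have e4 : ∀ t, (((fun u : ℝ => 2 * u) (f t - arcsin (pr (X1 f) (X2 f) t)) * h t : ℝ) : ℂ)
        * KK n (X1 f) (X2 f) t
        = 2 * (((de (X1 f) (X2 f) f t * h t : ℝ) : ℂ) * KK n (X1 f) (X2 f) t) := fun t => by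
      unfold de
      push_cast
      ring
    simp only [e4]
    rw [intervalIntegral.integral_const_mul]
    unfold ME
    field_simp
    ring
  unfold dSE dSM S54.dMM SE Fv
  rw [e3, e1, e1, e2, e2, e2]
  push_cast
  ring

theorem rho_half (ρ : ℂ →L[ℝ] ℝ) (a : ℝ) (z : ℂ) : ρ ((a : ℂ) * z) = a * ρ z := F54.rho_real ρ a z

theorem fn_SE (ρ : ℂ →L[ℝ] ℝ) (n : ℤ) : Fn (fun f => ρ (SE n f)) (fun f h => ρ (dSE n f h)) := by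
  have h := fn_smul (fn_SM ρ n two_der (by fun_prop)) (1 / 2)
  refine fn_congr h (fun f _ => ?_) fun f k _ => ?_
  · rw [SE_eq, rho_half]
  · rw [dSE_eq, rho_half]

theorem bdd_SE (ρ : ℂ →L[ℝ] ℝ) (n : ℤ) {m : ℝ} (h0 : 0 ≤ m) (h1 : m < π / 2) :
    ∃ L, 0 ≤ L ∧ Bdd (fun f h => ρ (dSE n f h)) m L := by
  refine bdd_congr (bdd_smul (bdd_SM ρ n two_der (by fun_prop) h0 h1) (1 / 2)) fun f k _ => ?_
  rw [dSE_eq, rho_half]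

theorem im_eq (f h : ℝ → ℝ) :
    (conj (YY (X1 f) (X2 f)) * Fv f h).im = X1 f * dX2 f h - X2 f * dX1 f h := by
  simp only [YY, Fv, vt, Complex.mul_im, Complex.conj_re, Complex.conj_im]
  ring

theorem S2_eq (f : ℝ → ℝ) : S54.S2 f = SE 2 f := rfl

theorem dS2_eq {f : ℝ → ℝ} (hf : Ef f) (h : ℝ → ℝ) : dSE 2 f h = dS2 f h := by
  have hc0 := S54.cc_pos (X_lt hf)
  have hc' : (cc (X1 f) (X2 f) : ℂ) ≠ 0 := Complex.ofReal_ne_zero.2 hc0.ne'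
  have e1 : (2 : ℤ) - 1 = 1 := rfl
  have e2 : (2 : ℤ) + 1 = 3 := rfl
  have e3 : (2 : ℤ) + 2 = 4 := rfl
  have e4 : (2 : ℤ) - 2 = 0 := rfl
  unfold dSE dS2 mS S54.S2 SE
  rw [e1, e2, e3, e4, ME_one_F hf, im_eq]
  push_cast
  field_simp
  ring

theorem dS0_eq {f : ℝ → ℝ} (hf : Ef f) (h : ℝ → ℝ) : (dSE 0 f h).re = dS0 f h := by
  have hc0 := S54.cc_pos (X_lt hf)
  have hc' : (cc (X1 f) (X2 f) : ℂ) ≠ 0 := Complex.ofReal_ne_zero.2 hc0.ne'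
  have e1 : (0 : ℤ) - 1 = -1 := rfl
  have e2 : (0 : ℤ) + 1 = 1 := rfl
  have e3 : (0 : ℤ) + 2 = 2 := rfl
  have e4 : (0 : ℤ) - 2 = -2 := rfl
  unfold dSE dS0 S54.S2 SE
  rw [e1, e2, e3, e4, ME_neg (X_lt hf) 1, ME_one_F hf, Sn_neg (X_lt hf) 2]
  simp only [map_zero, mul_zero, add_zero, sub_zero, Int.cast_zero, zero_mul, zero_add, zero_sub]
  have e5 : (2 * ME 0 (X1 f) (X2 f) (fun t => de (X1 f) (X2 f) f t * h t)
      + 2 / (4 * (cc (X1 f) (X2 f) : ℂ))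
          * (conj (YY (X1 f) (X2 f)) * conj (Fv f h)) * Sn 2 (X1 f) (X2 f) f
      - (-2) / (4 * (cc (X1 f) (X2 f) : ℂ))
          * (YY (X1 f) (X2 f) * Fv f h) * conj (Sn 2 (X1 f) (X2 f) f))
      = ((2 : ℝ) : ℂ) * ME 0 (X1 f) (X2 f) (fun t => de (X1 f) (X2 f) f t * h t)
        + ((1 / (2 * cc (X1 f) (X2 f)) : ℝ) : ℂ) * (conj (YY (X1 f) (X2 f) * Fv f h)
          * Sn 2 (X1 f) (X2 f) f)
        + ((1 / (2 * cc (X1 f) (X2 f)) : ℝ) : ℂ) * conj (conj (YY (X1 f) (X2 f) * Fv f h)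
          * Sn 2 (X1 f) (X2 f) f) := by
    rw [map_mul, map_mul, map_mul, Complex.conj_conj, Complex.conj_conj]
    push_cast
    field_simp
    ring
  rw [e5, Complex.add_re, Complex.add_re, Complex.re_ofReal_mul, Complex.re_ofReal_mul,
    Complex.re_ofReal_mul, Complex.conj_re]
  field_simp
  ring

theorem fn_S2 (ρ : ℂ →L[ℝ] ℝ) : Fn (fun f => ρ (S54.S2 f)) (fun f h => ρ (dS2 f h)) :=
  fn_congr (fn_SE ρ 2) (fun _ _ => rfl) fun f h hf => by rw [dS2_eq hf]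

theorem bdd_S2 (ρ : ℂ →L[ℝ] ℝ) {m : ℝ} (h0 : 0 ≤ m) (h1 : m < π / 2) :
    ∃ L, 0 ≤ L ∧ Bdd (fun f h => ρ (dS2 f h)) m L :=
  bdd_congr (bdd_SE ρ 2 h0 h1) fun f h hf => by rw [dS2_eq hf]

theorem fn_S0 : Fn S54.S0 dS0 :=
  fn_congr (fn_SE Complex.reCLM 0) (fun _ _ => rfl) fun f h hf => by
    rw [← dS0_eq hf]
    rfl

theorem bdd_S0 {m : ℝ} (h0 : 0 ≤ m) (h1 : m < π / 2) : ∃ L, 0 ≤ L ∧ Bdd dS0 m L :=
  bdd_congr (bdd_SE Complex.reCLM 0 h0 h1) fun f h hf => by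
    rw [← dS0_eq hf]
    rfl

/-! ### the moments `C_m` -/

/-- `C_m = 2 mean (δ ε^m)` at `F54 f` -/
def CE (m : ℕ) (f : ℝ → ℝ) : ℂ := C54.Cm m (X1 f) (X2 f) f

/-- the derivative of `C_m` in the direction `h` (`m ≥ 2`) -/
def dCE (m : ℕ) (f h : ℝ → ℝ) : ℂ :=
  C54.Lm m (X1 f) (X2 f) h
    + ((m : ℂ) + 2) / (4 * (cc (X1 f) (X2 f) : ℂ)) * (conj (YY (X1 f) (X2 f)) * conj (Fv f h)) * CE (m + 2) f
    - ((m : ℂ) - 2) / (4 * (cc (X1 f) (X2 f) : ℂ)) * (YY (X1 f) (X2 f) * Fv f h) * CE (m - 2) f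
    + (m : ℂ) * (Complex.I * ((X1 f * dX2 f h - X2 f * dX1 f h : ℝ) : ℂ))
      * (1 / (1 + (cc (X1 f) (X2 f) : ℂ)) - 1 / (2 * (cc (X1 f) (X2 f) : ℂ))) * CE m f

theorem CE_ME {f : ℝ → ℝ} (hf : Ef f) (m : ℕ) :
    CE m f = 2 * ME (m : ℤ) (X1 f) (X2 f) (de (X1 f) (X2 f) f) := S54.Cm_eq (X_lt hf) m f

theorem CE_one {f : ℝ → ℝ} (hf : Ef f) : CE 1 f = 0 := by
  rw [CE_ME hf, Nat.cast_one, ME_one_F hf, mul_zero]

theorem MM_idE (k : ℤ) (f : ℝ → ℝ) :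
    S54.MM k (fun u : ℝ => u) (X1 f) (X2 f) f = 2 * ME k (X1 f) (X2 f) (de (X1 f) (X2 f) f) := by
  rw [MM_eq]

theorem MM_oneE {f : ℝ → ℝ} (hf : Ef f) {k : ℤ} (hk : k ≠ 0) :
    S54.MM k (fun _ : ℝ => (1 : ℝ)) (X1 f) (X2 f) f = 0 := by
  rw [MM_eq]
  unfold ME
  have e : ∀ t, (((1 : ℝ) : ℝ) : ℂ) * KK k (X1 f) (X2 f) t = C54.kz k (X1 f) (X2 f) t := fun t => by
    rw [Complex.ofReal_one, one_mul]
    rfl
  simp only [e]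
  rw [C54.int_kz (X_lt hf) hk, mul_zero, mul_zero]

theorem one_der (u : ℝ) : HasDerivAt (fun u : ℝ => u) ((fun _ : ℝ => (1 : ℝ)) u) u := hasDerivAt_id u

theorem CE_eq {f : ℝ → ℝ} (hf : Ef f) (m : ℕ) : CE m f = SM (m : ℤ) (fun u : ℝ => u) f := by
  unfold SM
  rw [CE_ME hf, MM_idE]

theorem dCE_eq {f : ℝ → ℝ} (hf : Ef f) {m : ℕ} (hm : 2 ≤ m) (h : ℝ → ℝ) :
    dCE m f h = dSM (m : ℤ) (fun u : ℝ => u) (fun _ : ℝ => (1 : ℝ)) f h := by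
  have h1 : (m : ℤ) - 1 ≠ 0 := by omega
  have h2 : (m : ℤ) + 1 ≠ 0 := by omega
  have e3 : (1 / (π : ℂ)) * (∫ t in (0 : ℝ)..(2 * π),
      (((fun _ : ℝ => (1 : ℝ)) (f t - arcsin (pr (X1 f) (X2 f) t)) * h t : ℝ) : ℂ) * KK (m : ℤ) (X1 f) (X2 f) t)
      = C54.Lm m (X1 f) (X2 f) h := by
    rw [S54.Lm_eq (X_lt hf)]
    unfold ME
    have hπ : (π : ℂ) ≠ 0 := Complex.ofReal_ne_zero.2 pi_ne_zero
    simp only [one_mul]
    field_simp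
  have e4 : CE (m + 2) f = S54.MM ((m : ℤ) + 2) (fun u : ℝ => u) (X1 f) (X2 f) f := by
    rw [CE_ME hf, MM_idE]
    push_cast
    rfl
  have e5 : CE (m - 2) f = S54.MM ((m : ℤ) - 2) (fun u : ℝ => u) (X1 f) (X2 f) f := by
    rw [CE_ME hf, MM_idE, Nat.cast_sub hm]
    rfl
  have e6 : CE m f = S54.MM (m : ℤ) (fun u : ℝ => u) (X1 f) (X2 f) f := by
    rw [CE_ME hf, MM_idE]
  unfold dCE dSM S54.dMM Fv
  rw [e3, MM_oneE hf h1, MM_oneE hf h2, e4, e5, e6]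
  push_cast
  ring

theorem fn_CE (ρ : ℂ →L[ℝ] ℝ) {m : ℕ} (hm : 2 ≤ m) : Fn (fun f => ρ (CE m f)) (fun f h => ρ (dCE m f h)) :=
  fn_congr (fn_SM ρ (m : ℤ) one_der (by fun_prop)) (fun f hf => by rw [CE_eq hf]) fun f h hf => by
    rw [dCE_eq hf hm]

theorem bdd_CE (ρ : ℂ →L[ℝ] ℝ) {m : ℕ} (hm : 2 ≤ m) {b : ℝ} (h0 : 0 ≤ b) (h1 : b < π / 2) :
    ∃ L, 0 ≤ L ∧ Bdd (fun f h => ρ (dCE m f h)) b L :=
  bdd_congr (bdd_SM ρ (m : ℤ) one_der (by fun_prop) h0 h1) fun f h hf => by rw [dCE_eq hf hm]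

/-- the derivative of `C₃` -/
theorem dCE_three {f : ℝ → ℝ} (hf : Ef f) (h : ℝ → ℝ) :
    dCE 3 f h = C54.Lm 3 (X1 f) (X2 f) h
      + conj (Fv f h) * (5 * conj (YY (X1 f) (X2 f)) * CE 5 f / (4 * (cc (X1 f) (X2 f) : ℂ)))
      + 3 * Complex.I * (((conj (YY (X1 f) (X2 f)) * Fv f h).im
        * (1 / (1 + cc (X1 f) (X2 f)) - 1 / (2 * cc (X1 f) (X2 f))) : ℝ) : ℂ) * CE 3 f := by
  have hc0 := S54.cc_pos (X_lt hf)
  have hc' : (cc (X1 f) (X2 f) : ℂ) ≠ 0 := Complex.ofReal_ne_zero.2 hc0.ne'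
  unfold dCE
  have e1 : (3 : ℕ) - 2 = 1 := rfl
  have e2 : (3 : ℕ) + 2 = 5 := rfl
  rw [e1, e2, CE_one hf, im_eq]
  push_cast
  field_simp
  ring

/-! ### the instances -/

/-- `F54`, `S₂`, `S₀` -/
def P5 : Fin (3 + 2) → (ℝ → ℝ) → ℝ := ![X1, X2, fun f => (S54.S2 f).re, fun f => (S54.S2 f).im, S54.S0]

/-- their derivatives -/
def dP5 : Fin (3 + 2) → (ℝ → ℝ) → (ℝ → ℝ) → ℝ :=
  ![dX1, dX2, fun f h => (dS2 f h).re, fun f h => (dS2 f h).im, dS0]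

/-- `F54`, `S₂`, `S₀`, `C₃` -/
def P7 : Fin (5 + 2) → (ℝ → ℝ) → ℝ :=
  ![X1, X2, fun f => (S54.S2 f).re, fun f => (S54.S2 f).im, S54.S0, fun f => (CE 3 f).re, fun f => (CE 3 f).im]

/-- their derivatives -/
def dP7 : Fin (5 + 2) → (ℝ → ℝ) → (ℝ → ℝ) → ℝ :=
  ![dX1, dX2, fun f h => (dS2 f h).re, fun f h => (dS2 f h).im, dS0, fun f h => (dCE 3 f h).re,
    fun f h => (dCE 3 f h).im]

theorem sys5 : CST.Sys P5 dP5 3 7 := by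
  refine sys (n := 3) (ψ := ![fun f => (S54.S2 f).re, fun f => (S54.S2 f).im, S54.S0])
    (dψ := ![fun f h => (dS2 f h).re, fun f h => (dS2 f h).im, dS0]) (fun i => ?_) fun i m h0 h1 => ?_
  · fin_cases i
    exacts [fn_S2 Complex.reCLM, fn_S2 Complex.imCLM, fn_S0]
  · fin_cases i
    exacts [bdd_S2 Complex.reCLM h0 h1, bdd_S2 Complex.imCLM h0 h1, bdd_S0 h0 h1]

theorem sys7 : CST.Sys P7 dP7 3 7 := by
  refine sys (n := 5) (ψ := ![fun f => (S54.S2 f).re, fun f => (S54.S2 f).im, S54.S0,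
      fun f => (CE 3 f).re, fun f => (CE 3 f).im])
    (dψ := ![fun f h => (dS2 f h).re, fun f h => (dS2 f h).im, dS0, fun f h => (dCE 3 f h).re,
      fun f h => (dCE 3 f h).im]) (fun i => ?_) fun i m h0 h1 => ?_
  · fin_cases i
    exacts [fn_S2 Complex.reCLM, fn_S2 Complex.imCLM, fn_S0, fn_CE Complex.reCLM (by norm_num),
      fn_CE Complex.imCLM (by norm_num)]
  · fin_cases i
    exacts [bdd_S2 Complex.reCLM h0 h1, bdd_S2 Complex.imCLM h0 h1, bdd_S0 h0 h1,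
      bdd_CE Complex.reCLM (by norm_num) h0 h1, bdd_CE Complex.imCLM (by norm_num) h0 h1]

/-! ### the coordinates -/

section coord

variable {Φ : Fin (n + 2) → (ℝ → ℝ) → ℝ} {dΦ : Fin (n + 2) → (ℝ → ℝ) → (ℝ → ℝ) → ℝ}

theorem zt_cu (h0 : Φ 0 = X1) (h1 : Φ 1 = X2) (f : ℝ → ℝ) : CST.zt (CST.cu Φ f) = YY (X1 f) (X2 f) := by
  unfold CST.zt CST.cu YY
  rw [h0, h1]

theorem rr_cu (h0 : Φ 0 = X1) (h1 : Φ 1 = X2) (f : ℝ → ℝ) : CST.rr (CST.cu Φ f) = X1 f ^ 2 + X2 f ^ 2 := by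
  unfold CST.rr CST.cu
  rw [h0, h1]

theorem cc_cu (h0 : Φ 0 = X1) (h1 : Φ 1 = X2) (f : ℝ → ℝ) : CST.cc (CST.cu Φ f) = cc (X1 f) (X2 f) := by
  unfold CST.cc cc
  rw [rr_cu h0 h1, sub_sub]

theorem vv_cu (h0 : Φ 0 = X1) (h1 : Φ 1 = X2) (k0 : dΦ 0 = dX1) (k1 : dΦ 1 = dX2) (f h : ℝ → ℝ) :
    CST.vv (CST.cu Φ f) (CST.du dΦ f h) = Fv f h := by
  unfold CST.vv CST.hh CST.ss
  rw [zt_cu h0 h1, cc_cu h0 h1]
  unfold CST.zt CST.cu CST.du Fv vt YY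
  rw [h0, h1, k0, k1]
  apply Complex.ext
  · simp only [Complex.add_re, Complex.mul_re, Complex.ofReal_re, Complex.ofReal_im]
    ring
  · simp only [Complex.add_im, Complex.mul_im, Complex.ofReal_re, Complex.ofReal_im]
    ring

end coord

theorem cj_S2_5 (f : ℝ → ℝ) : CST.cj 2 3 (CST.cu P5 f) = S54.S2 f := rfl

theorem cj_dS2_5 (f h : ℝ → ℝ) : CST.cj 2 3 (CST.du dP5 f h) = dS2 f h := rfl

theorem u_S0_5 (f : ℝ → ℝ) : CST.cu P5 f 4 = S54.S0 f := rfl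

theorem p_dS0_5 (f h : ℝ → ℝ) : CST.du dP5 f h 4 = dS0 f h := rfl

theorem cj_S2_7 (f : ℝ → ℝ) : CST.cj 2 3 (CST.cu P7 f) = S54.S2 f := rfl

theorem cj_dS2_7 (f h : ℝ → ℝ) : CST.cj 2 3 (CST.du dP7 f h) = dS2 f h := rfl

theorem u_S0_7 (f : ℝ → ℝ) : CST.cu P7 f 4 = S54.S0 f := rfl

theorem p_dS0_7 (f h : ℝ → ℝ) : CST.du dP7 f h 4 = dS0 f h := rfl

theorem cj_C3_7 (f : ℝ → ℝ) : CST.cj 5 6 (CST.cu P7 f) = CE 3 f := rfl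

theorem cj_dC3_7 (f h : ℝ → ℝ) : CST.cj 5 6 (CST.du dP7 f h) = dCE 3 f h := rfl

/-- `2 mean (δ h ε²)` -/
def K2 (f h : ℝ → ℝ) : ℂ := 2 * ME 2 (X1 f) (X2 f) fun t => de (X1 f) (X2 f) f t * h t

/-- `2 mean (δ h)` -/
def K0 (f h : ℝ → ℝ) : ℝ := 2 * (ME 0 (X1 f) (X2 f) fun t => de (X1 f) (X2 f) f t * h t).re

theorem dS2_rel (f h : ℝ → ℝ) : dS2 f h = K2 f h + conj (Fv f h) * mS f
    + 2 * Complex.I * (((conj (YY (X1 f) (X2 f)) * Fv f h).im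
      * (1 / (1 + cc (X1 f) (X2 f)) - 1 / (2 * cc (X1 f) (X2 f))) : ℝ) : ℂ) * S54.S2 f := rfl

theorem dS0_rel (f h : ℝ → ℝ) : dS0 f h = K0 f h
    + (1 / cc (X1 f) (X2 f)) * (conj (YY (X1 f) (X2 f) * Fv f h) * S54.S2 f).re := rfl

/-- **the local forms on the functions of the circle** -/
theorem dl5 {Q Z : ℝ → ℝ} {Q' Z' : ℝ} {f : ℝ → ℝ} (hf : Ef f) (hQc : ContDiffOn ℝ 1 Q (Iio 1))
    (hZc : ContDiffOn ℝ 1 Z (Iio 1)) (hQ : HasDerivAt Q Q' (X1 f ^ 2 + X2 f ^ 2))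
    (hZ : HasDerivAt Z Z' (X1 f ^ 2 + X2 f ^ 2)) (h k : ℝ → ℝ) :
    CST.dl (fun i u => fderiv ℝ (CST.gv (CST.gloc Q Z 2 3 4) i) u) (CST.cu P5 f) (CST.du dP5 f h)
        (CST.du dP5 f k) =
      ((Q (X1 f ^ 2 + X2 f ^ 2) : ℂ) * YY (X1 f) (X2 f)
          * (conj (K2 f h) * Fv f k - conj (K2 f k) * Fv f h)).im
        + (2 * cc (X1 f) (X2 f) * Q' - Q (X1 f ^ 2 + X2 f ^ 2) / cc (X1 f) (X2 f))
          * (YY (X1 f) (X2 f) ^ 2 * conj (S54.S2 f)).re * (conj (Fv f h) * Fv f k).im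
        + Z (X1 f ^ 2 + X2 f ^ 2) * (K0 f h * (conj (YY (X1 f) (X2 f)) * Fv f k).im
          - K0 f k * (conj (YY (X1 f) (X2 f)) * Fv f h).im)
        + (Z (X1 f ^ 2 + X2 f ^ 2) / cc (X1 f) (X2 f)) * (YY (X1 f) (X2 f) ^ 2 * conj (S54.S2 f)).re
          * (conj (Fv f h) * Fv f k).im
        + 2 * cc (X1 f) (X2 f) * (Z (X1 f ^ 2 + X2 f ^ 2) + (X1 f ^ 2 + X2 f ^ 2) * Z') * S54.S0 f
          * (conj (Fv f h) * Fv f k).im := by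
  have e0 : P5 0 = X1 := rfl
  have e1 : P5 1 = X2 := rfl
  have d0 : dP5 0 = dX1 := rfl
  have d1 : dP5 1 = dX2 := rfl
  have hu : CST.cu P5 f ∈ CST.OO 3 := sys5.mem hf
  have er := rr_cu e0 e1 f
  have ez := zt_cu e0 e1 f
  have ec := cc_cu e0 e1 f
  have evh := vv_cu e0 e1 d0 d1 f h
  have evk := vv_cu e0 e1 d0 d1 f k
  have key := CST.dl_loc (p := CST.du dP5 f h) (q := CST.du dP5 f k) hu hQc hZc (by rw [er]; exact hQ)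
    (by rw [er]; exact hZ) 2 3 4 (Kp := K2 f h) (Kq := K2 f k) (m := mS f) (kp := K0 f h) (kq := K0 f k)
    (by rw [evh, ez, ec]; rfl) (by rw [evk, ez, ec]; rfl) (by rw [evh, ez, ec]; rfl)
    (by rw [evk, ez, ec]; rfl)
  have ej : CST.ja (CST.cu P5 f) (CST.du dP5 f h) (CST.du dP5 f k) = (conj (Fv f h) * Fv f k).im := by
    unfold CST.ja
    rw [evh, evk]
  rw [key, ej, er, ez, ec, evh, evk]
  rfl

end Pool.Agent.FPX.SYS
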