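import Mathlib
import Pool.Agent.FPX.ARF
import Pool.Agent.FPX.OMB
import Pool.Agent.FPX.OMF
import Pool.Agent.FPX.OMS
import Pool.Agent.FPX.SYS

/-
OM7 (helper11): the closed form with the local terms (`S₂`, `S₀`) and the terms in the third harmonic `C₃`
(linear, `|C₃|²`, `Im (conj C₃ ∇C₃)`), on the system of the seven functionals
`X, Y, Re S₂, Im S₂, S₀, Re C₃, Im C₃` of the map F54: its value at a state, and the area theorem from a pointwise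
certificate.
-/

open MeasureTheory Set Filter Topology Complex
open scoped ENNReal NNReal ContDiff ComplexConjugate

noncomputable section

namespace Pool.Agent.FPX.OM7

open Pool.Agent.FPX Pool.Agent.FPX.UMP Pool.Agent.FPX.UMQ Pool.Agent.FPX.UXA Pool.Agent.EWD
open Pool.Agent.FPX.F54 (X1 X2 dX1 dX2 X_lt X_G1 X_G2 vF sF)
open Pool.Agent.FPX.S54 (dS2 dS0 mS Fv ME YY de)
open Pool.Agent.FPX.OMB (vm vm_int vm_prob bm_ep bm_real)
open Pool.Agent.FPX.CRD (Bm)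
open Pool.Agent.FPX.CST (cu du dl gv gt nu ja zt ss hh OO cj lab tt)
open Pool.Agent.FPX.OMS (rF cF cF_eq Aa Ba Kc ME_vm Kc_meas Kc_le AB_eq)
open Pool.Agent.FPX.SYS (P7 dP7 sys7 CE dCE K2 K0)

/-- the coefficient functions of the form, functions of `r = |ζ|²` -/
structure Cof where
  Q : ℝ → ℝ
  Z : ℝ → ℝ
  P : ℝ → ℝ
  x : ℝ → ℝ
  y : ℝ → ℝ
  g : ℝ → ℝ
  b : ℝ → ℝ

/-- smoothness -/
structure Cof.Sm (F : Cof) : Prop where
  Q : ContDiffOn ℝ 1 F.Q (Iio 1)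
  Z : ContDiffOn ℝ 1 F.Z (Iio 1)
  P : ContDiffOn ℝ 1 F.P (Iio 1)
  x : ContDiffOn ℝ 1 F.x (Iio 1)
  y : ContDiffOn ℝ 1 F.y (Iio 1)
  g : ContDiffOn ℝ 1 F.g (Iio 1)
  b : ContDiffOn ℝ 1 F.b (Iio 1)

def gQ (F : Cof) (u : Fin (5 + 2) → ℝ) : ℂ := (F.Q (CST.rr u) : ℂ) * zt u ^ 1 * conj (cj 2 3 u)

def gZ (F : Cof) (u : Fin (5 + 2) → ℝ) : ℂ := (F.Z (CST.rr u) : ℂ) * conj (zt u) ^ (0 + 1) * ((u 4 : ℝ) : ℂ)

def gP (F : Cof) (u : Fin (5 + 2) → ℝ) : ℂ := (F.P (CST.rr u) : ℂ) * conj (zt u) ^ (2 + 1) * cj 2 3 u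

def gX (F : Cof) (u : Fin (5 + 2) → ℝ) : ℂ := (F.x (CST.rr u) : ℂ) * zt u ^ 2 * conj (cj 5 6 u)

def gY (F : Cof) (u : Fin (5 + 2) → ℝ) : ℂ := (F.y (CST.rr u) : ℂ) * conj (zt u) ^ (3 + 1) * cj 5 6 u

def gG (F : Cof) (u : Fin (5 + 2) → ℝ) : ℂ :=
  (F.g (CST.rr u) : ℂ) * conj (zt u) ^ (0 + 1) * ((normSq (cj 5 6 u) : ℝ) : ℂ)

/-- the function `G` of the form `Im (G v)` -/
def G7 (F : Cof) (u : Fin (5 + 2) → ℝ) : ℂ := gQ F u + (gZ F u + (gP F u + (gX F u + (gY F u + gG F u))))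

variable {F : Cof}

theorem Cof.Sm.cQ (H : F.Sm) : ContDiffOn ℝ 1 (gQ F) (OO 5) :=
  CST.contDiffOn_spa H.Q (CST.contDiff_cjc 2 3).contDiffOn 1

theorem Cof.Sm.cZ (H : F.Sm) : ContDiffOn ℝ 1 (gZ F) (OO 5) :=
  CST.contDiffOn_spb H.Z (CST.contDiff_ul 4).contDiffOn (0 + 1)

theorem Cof.Sm.cP (H : F.Sm) : ContDiffOn ℝ 1 (gP F) (OO 5) :=
  CST.contDiffOn_spb H.P (CST.contDiff_cj 2 3).contDiffOn (2 + 1)

theorem Cof.Sm.cX (H : F.Sm) : ContDiffOn ℝ 1 (gX F) (OO 5) :=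
  CST.contDiffOn_spa H.x (CST.contDiff_cjc 5 6).contDiffOn 2

theorem Cof.Sm.cY (H : F.Sm) : ContDiffOn ℝ 1 (gY F) (OO 5) :=
  CST.contDiffOn_spb H.y (CST.contDiff_cj 5 6).contDiffOn (3 + 1)

theorem Cof.Sm.cG (H : F.Sm) : ContDiffOn ℝ 1 (gG F) (OO 5) :=
  CST.contDiffOn_spb H.g (CST.contDiff_nsq 5 6).contDiffOn (0 + 1)

theorem Cof.Sm.cG7 (H : F.Sm) : ContDiffOn ℝ 1 (G7 F) (OO 5) :=
  H.cQ.add (H.cZ.add (H.cP.add (H.cX.add (H.cY.add H.cG))))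

theorem dl_G7 (H : F.Sm) {u : Fin (5 + 2) → ℝ} (hu : u ∈ OO 5) (p q : Fin (5 + 2) → ℝ) :
    dl (fun i u => fderiv ℝ (gv (G7 F) i) u) u p q =
      dl (fun i u => fderiv ℝ (gv (gQ F) i) u) u p q + (dl (fun i u => fderiv ℝ (gv (gZ F) i) u) u p q
        + (dl (fun i u => fderiv ℝ (gv (gP F) i) u) u p q + (dl (fun i u => fderiv ℝ (gv (gX F) i) u) u p q
        + (dl (fun i u => fderiv ℝ (gv (gY F) i) u) u p q
          + dl (fun i u => fderiv ℝ (gv (gG F) i) u) u p q)))) := by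
  have e1 : G7 F = fun u => gQ F u + (fun u => gZ F u + (gP F u + (gX F u + (gY F u + gG F u)))) u := rfl
  rw [e1, CST.dl_gv_add H.cQ (H.cZ.add (H.cP.add (H.cX.add (H.cY.add H.cG)))) hu,
    CST.dl_gv_add H.cZ (H.cP.add (H.cX.add (H.cY.add H.cG))) hu,
    CST.dl_gv_add H.cP (H.cX.add (H.cY.add H.cG)) hu, CST.dl_gv_add H.cX (H.cY.add H.cG) hu,
    CST.dl_gv_add H.cY H.cG hu]

/-! ### algebra of the mixed terms -/

private theorem tv (z p q : ℂ) : (((conj z * p).im : ℝ) : ℂ) * q - (((conj z * q).im : ℝ) : ℂ) * p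
    = -(z * (((conj p * q).im : ℝ) : ℂ)) := by
  apply Complex.ext <;> simp <;> ring

private theorem rv (z p q : ℂ) : (((conj z * p).re : ℝ) : ℂ) * q - (((conj z * q).re : ℝ) : ℂ) * p
    = I * z * (((conj p * q).im : ℝ) : ℂ) := by
  apply Complex.ext <;> simp <;> ring

private theorem cv (p q : ℂ) : conj p * q - conj q * p = 2 * I * (((conj p * q).im : ℝ) : ℂ) := by
  apply Complex.ext <;> simp <;> ring

private theorem imI (X z : ℂ) (r : ℝ) : (X + I * (r : ℂ) * z).im = X.im + r * z.re := by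
  simp

section Alg

variable (z vp vq : ℂ) (c : ℝ)

/-- the covariant derivative of a functional of spin `s`: main part, `conj v` part and rotation part -/
def cd (s c : ℝ) (z v κ m S : ℂ) : ℂ := κ + conj v * m - s * I * (((conj z * v).im / (2 * c) : ℝ) : ℂ) * S

theorem aQ (φ : ℝ) (κp κq m S : ℂ) (a : ℕ) (s : ℝ) :
    ((φ : ℂ) * z ^ a * (conj (cd s c z vp κp m S) * vq - conj (cd s c z vq κq m S) * vp)).im =
      ((φ : ℂ) * z ^ a * (conj κp * vq - conj κq * vp)).im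
        - s * φ / (2 * c) * (conj z ^ (a + 1) * S).re * (conj vp * vq).im := by
  have T := tv z vp vq
  have e : (φ : ℂ) * z ^ a * (conj (cd s c z vp κp m S) * vq - conj (cd s c z vq κq m S) * vp) =
      (φ : ℂ) * z ^ a * (conj κp * vq - conj κq * vp)
        + I * ((-(s * φ / (2 * c) * (conj vp * vq).im) : ℝ) : ℂ) * (z ^ (a + 1) * conj S) := by
    unfold cd
    simp only [map_add, map_sub, map_mul, conj_I, Complex.conj_ofReal, Complex.conj_conj]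
    push_cast
    rw [pow_succ]
    linear_combination ((φ : ℂ) * z ^ a * s * I * conj S / (2 * c)) * T
  rw [e, imI]
  have e2 : (z ^ (a + 1) * conj S).re = (conj z ^ (a + 1) * S).re := by
    rw [← Complex.conj_re (conj z ^ (a + 1) * S)]
    simp
  rw [e2]
  ring

theorem aP (φ r : ℝ) (hr : z * conj z = (r : ℂ)) (κp κq m S : ℂ) (b : ℕ) (s : ℝ) :
    ((φ : ℂ) * conj z ^ (b + 1) * (cd s c z vp κp m S * vq - cd s c z vq κq m S * vp)).im =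
      ((φ : ℂ) * conj z ^ (b + 1) * (κp * vq - κq * vp)).im
        + 2 * φ * (conj z ^ (b + 1) * m).re * (conj vp * vq).im
        + s * φ * r / (2 * c) * (conj z ^ b * S).re * (conj vp * vq).im := by
  have T := tv z vp vq
  have V := cv vp vq
  have e : (φ : ℂ) * conj z ^ (b + 1) * (cd s c z vp κp m S * vq - cd s c z vq κq m S * vp) =
      (φ : ℂ) * conj z ^ (b + 1) * (κp * vq - κq * vp)
        + I * ((2 * φ * (conj vp * vq).im : ℝ) : ℂ) * (conj z ^ (b + 1) * m)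
        + I * ((s * φ * r / (2 * c) * (conj vp * vq).im : ℝ) : ℂ) * (conj z ^ b * S) := by
    unfold cd
    push_cast
    rw [← hr, pow_succ]
    linear_combination ((φ : ℂ) * (conj z ^ b * conj z) * m) * V
      - ((φ : ℂ) * (conj z ^ b * conj z) * s * I * S / (2 * c)) * T
  rw [e, imI, imI]
  ring

theorem aZ (φ : ℝ) (κp κq : ℝ) (S : ℂ) :
    ((φ : ℂ) * conj z * (((κp + (1 / c) * (conj (z * vp) * S).re : ℝ) : ℂ) * vq
      - ((κq + (1 / c) * (conj (z * vq) * S).re : ℝ) : ℂ) * vp)).im =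
      ((φ : ℂ) * conj z * ((κp : ℂ) * vq - (κq : ℂ) * vp)).im
        + φ / c * (conj z ^ 2 * S).re * (conj vp * vq).im := by
  have R := rv (conj z * S) vp vq
  have e1 : ∀ v : ℂ, (conj (z * v) * S).re = (conj (conj z * S) * v).re := fun v => by
    rw [← Complex.conj_re (conj (conj z * S) * v)]
    simp only [map_mul, Complex.conj_conj]
    ring_nf
  have e : (φ : ℂ) * conj z * (((κp + (1 / c) * (conj (z * vp) * S).re : ℝ) : ℂ) * vq
      - ((κq + (1 / c) * (conj (z * vq) * S).re : ℝ) : ℂ) * vp) =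
      (φ : ℂ) * conj z * ((κp : ℂ) * vq - (κq : ℂ) * vp)
        + I * ((φ / c * (conj vp * vq).im : ℝ) : ℂ) * (conj z ^ 2 * S) := by
    rw [e1, e1]
    push_cast
    linear_combination ((φ : ℂ) * conj z / c) * R
  rw [e, imI]
  ring

theorem aG (φ : ℝ) (κp κq m S : ℂ) (s : ℝ) :
    ((φ : ℂ) * conj z * (((2 * (conj S * cd s c z vp κp m S).re : ℝ) : ℂ) * vq
      - ((2 * (conj S * cd s c z vq κq m S).re : ℝ) : ℂ) * vp)).im =
      ((φ : ℂ) * conj z * (((2 * (conj S * κp).re : ℝ) : ℂ) * vq - ((2 * (conj S * κq).re : ℝ) : ℂ) * vp)).im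
        + 2 * φ * (conj z * (conj S * m)).re * (conj vp * vq).im := by
  have R := rv (conj S * m) vp vq
  have e1 : ∀ v κ : ℂ, (conj S * cd s c z v κ m S).re = (conj S * κ).re + (conj (conj S * m) * v).re := by
    intro v κ
    unfold cd
    generalize (conj z * v).im / (2 * c) = t
    simp
    ring
  have e : (φ : ℂ) * conj z * (((2 * (conj S * cd s c z vp κp m S).re : ℝ) : ℂ) * vq
      - ((2 * (conj S * cd s c z vq κq m S).re : ℝ) : ℂ) * vp) =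
      (φ : ℂ) * conj z * (((2 * (conj S * κp).re : ℝ) : ℂ) * vq - ((2 * (conj S * κq).re : ℝ) : ℂ) * vp)
        + I * ((2 * φ * (conj vp * vq).im : ℝ) : ℂ) * (conj z * (conj S * m)) := by
    rw [e1, e1]
    push_cast
    linear_combination (2 * (φ : ℂ) * conj z) * R
  rw [e, imI]
  ring

end Alg

/-! ### the value at a state -/

/-- `5 conj(ζ) C₅ / (4 c)` -/
def D5 (f : ℝ → ℝ) : ℂ := 5 * conj (YY (X1 f) (X2 f)) * CE 5 f / (4 * (cF f : ℂ))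

/-- `2 mean (h ε³)` -/
def L3 (f h : ℝ → ℝ) : ℂ := C54.Lm 3 (X1 f) (X2 f) h

/-- the covariant derivative of `S₂` -/
def NS (f h : ℝ → ℝ) : ℂ := cd 2 (cF f) (YY (X1 f) (X2 f)) (vF f h) (K2 f h) (mS f) (S54.S2 f)

/-- the covariant derivative of `C₃` -/
def NC (f h : ℝ → ℝ) : ℂ := cd 3 (cF f) (YY (X1 f) (X2 f)) (vF f h) (L3 f h) (D5 f) (CE 3 f)

theorem e0 : P7 0 = X1 := rfl

theorem e1 : P7 1 = X2 := rfl

theorem d0 : dP7 0 = dX1 := rfl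

theorem d1 : dP7 1 = dX2 := rfl

theorem ztu (f : ℝ → ℝ) : CST.zt (cu P7 f) = YY (X1 f) (X2 f) := SYS.zt_cu e0 e1 f

theorem rru (f : ℝ → ℝ) : CST.rr (cu P7 f) = rF f := SYS.rr_cu e0 e1 f

theorem ccu (f : ℝ → ℝ) : CST.cc (cu P7 f) = cF f := (SYS.cc_cu e0 e1 f).trans (cF_eq f)

theorem vvu (f h : ℝ → ℝ) : CST.vv (cu P7 f) (du dP7 f h) = vF f h := SYS.vv_cu e0 e1 d0 d1 f h

theorem hS (f h : ℝ → ℝ) : cj 2 3 (du dP7 f h) = NS f h
    + 2 * I * ((tt (cu P7 f) (du dP7 f h) / (1 + CST.cc (cu P7 f)) : ℝ) : ℂ) * cj 2 3 (cu P7 f) := by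
  rw [SYS.cj_dS2_7, SYS.cj_S2_7, SYS.dS2_rel]
  unfold NS cd tt
  rw [ztu, vvu, ccu, cF_eq]
  have e : Fv f h = vF f h := rfl
  rw [e]
  push_cast
  ring

theorem hC {f : ℝ → ℝ} (hf : Ef f) (h : ℝ → ℝ) : cj 5 6 (du dP7 f h) = NC f h
    + 3 * I * ((tt (cu P7 f) (du dP7 f h) / (1 + CST.cc (cu P7 f)) : ℝ) : ℂ) * cj 5 6 (cu P7 f) := by
  rw [SYS.cj_dC3_7, SYS.cj_C3_7, SYS.dCE_three hf]
  unfold NC cd tt L3 D5
  rw [ztu, vvu, ccu, cF_eq]
  have e : Fv f h = vF f h := rfl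
  rw [e]
  push_cast
  ring

/-- the first order functional of the form -/
def M7 (F : Cof) (f g : ℝ → ℝ) : ℂ :=
  (F.Q (rF f) : ℂ) * YY (X1 f) (X2 f) ^ 1 * conj (K2 f g)
    + (F.Z (rF f) : ℂ) * conj (YY (X1 f) (X2 f)) * ((K0 f g : ℝ) : ℂ)
    + (F.P (rF f) : ℂ) * conj (YY (X1 f) (X2 f)) ^ (2 + 1) * K2 f g
    + (F.x (rF f) : ℂ) * YY (X1 f) (X2 f) ^ 2 * conj (L3 f g)
    + (F.y (rF f) : ℂ) * conj (YY (X1 f) (X2 f)) ^ (3 + 1) * L3 f g
    + (F.g (rF f) : ℂ) * conj (YY (X1 f) (X2 f)) * ((2 * (conj (CE 3 f) * L3 f g).re : ℝ) : ℂ)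

/-- the coefficient of the Jacobian in the form without `b` -/
def W1 (F : Cof) (f : ℝ → ℝ) : ℝ :=
  (2 * cF f * deriv F.Q (rF f) - F.Q (rF f) / cF f + F.Z (rF f) / cF f
      + 2 * cF f * (rF f * deriv F.P (rF f) + 3 * F.P (rF f)) + rF f * F.P (rF f) / cF f)
      * (conj (YY (X1 f) (X2 f)) ^ 2 * S54.S2 f).re
    + 2 * cF f * (rF f * deriv F.Z (rF f) + F.Z (rF f)) * S54.S0 f
    + 2 * F.P (rF f) * (conj (YY (X1 f) (X2 f)) ^ 3 * mS f).re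
    + (2 * cF f * deriv F.x (rF f) - 3 * F.x (rF f) / (2 * cF f)
      + 2 * cF f * (rF f * deriv F.y (rF f) + 4 * F.y (rF f)) + 3 * rF f * F.y (rF f) / (2 * cF f))
      * (conj (YY (X1 f) (X2 f)) ^ 3 * CE 3 f).re
    + 2 * F.y (rF f) * (conj (YY (X1 f) (X2 f)) ^ 4 * D5 f).re
    + 2 * cF f * (rF f * deriv F.g (rF f) + F.g (rF f)) * normSq (CE 3 f)
    + 2 * F.g (rF f) * (conj (YY (X1 f) (X2 f)) * (conj (CE 3 f) * D5 f)).re

theorem jau (f h k : ℝ → ℝ) : ja (cu P7 f) (du dP7 f h) (du dP7 f k) = (conj (vF f h) * vF f k).im := by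
  unfold ja
  rw [vvu, vvu]

theorem val_G7 (H : F.Sm) {f : ℝ → ℝ} (hf : Ef f) (h k : ℝ → ℝ) :
    dl (fun i u => fderiv ℝ (gv (G7 F) i) u) (cu P7 f) (du dP7 f h) (du dP7 f k) =
      (M7 F f h * vF f k - M7 F f k * vF f h).im + W1 F f * (conj (vF f h) * vF f k).im := by
  have hu : cu P7 f ∈ OO 5 := sys7.mem hf
  have hr : rF f < 1 := X_lt hf
  have hz : YY (X1 f) (X2 f) * conj (YY (X1 f) (X2 f)) = ((rF f : ℝ) : ℂ) := by
    rw [Complex.mul_conj]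
    simp only [normSq_apply, YY, rF]
    push_cast
    ring
  have dd : ∀ {φ : ℝ → ℝ}, ContDiffOn ℝ 1 φ (Iio 1) → HasDerivAt φ (deriv φ (rF f)) (CST.rr (cu P7 f)) := by
    intro φ hφ
    rw [rru]
    exact ((hφ.contDiffAt (Iio_mem_nhds hr)).differentiableAt one_ne_zero).hasDerivAt
  have c1 : (1 : ℂ) + ((1 : ℕ) : ℂ) = 2 := by push_cast; norm_num
  have c2 : (1 : ℂ) + ((2 : ℕ) : ℂ) = 3 := by push_cast; norm_num
  have c3 : ((2 : ℕ) : ℂ) = 2 := by push_cast; rfl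
  have c4 : ((3 : ℕ) : ℂ) = 3 := by push_cast; rfl
  have c5 : ((3 : ℝ) : ℂ) = 3 := by push_cast; rfl
  have vQ := CST.dl_fa hu H.Q (dd H.Q) 1 (j := 2) (k := 3) (Np := NS f h) (Nq := NS f k)
    (by rw [c1]; exact hS f h) (by rw [c1]; exact hS f k)
  have vP := CST.dl_fb hu H.P (dd H.P) 2 (j := 2) (k := 3) (Np := NS f h) (Nq := NS f k)
    (by rw [c3]; exact hS f h) (by rw [c3]; exact hS f k)
  have vx := CST.dl_fa hu H.x (dd H.x) 2 (j := 5) (k := 6) (Np := NC f h) (Nq := NC f k)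
    (by rw [c2]; exact hC hf h) (by rw [c2]; exact hC hf k)
  have vy := CST.dl_fb hu H.y (dd H.y) 3 (j := 5) (k := 6) (Np := NC f h) (Nq := NC f k)
    (by rw [c4]; exact hC hf h) (by rw [c4]; exact hC hf k)
  have vg := CST.dl_fn hu H.g (dd H.g) (s := 3) (j := 5) (k := 6) (Np := NC f h) (Nq := NC f k)
    (by rw [c5]; exact hC hf h) (by rw [c5]; exact hC hf k)
  have vZ := CST.dl_f0 hu H.Z (dd H.Z) 4 (p := du dP7 f h) (q := du dP7 f k)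
  rw [dl_G7 H hu]
  change _ = _ at vQ vP vx vy vg vZ
  have s0 : ∀ g, du dP7 f g 4 = K0 f g + (1 / cF f) * (conj (YY (X1 f) (X2 f) * vF f g) * S54.S2 f).re := by
    intro g
    rw [SYS.p_dS0_7, SYS.dS0_rel, cF_eq]
    rfl
  rw [jau, rru, ztu, vvu, vvu, ccu] at vQ vP vx vy vg vZ
  rw [SYS.cj_S2_7] at vQ vP
  rw [SYS.cj_C3_7] at vx vy vg
  rw [s0, s0, SYS.u_S0_7, aZ] at vZ
  unfold NS at vQ vP
  unfold NC at vx vy vg
  rw [aQ] at vQ vx
  rw [aP _ _ _ _ _ _ hz] at vP vy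
  rw [aG] at vg
  have tQ : dl (fun i u => fderiv ℝ (gv (gQ F) i) u) (cu P7 f) (du dP7 f h) (du dP7 f k) = _ := vQ
  have tZ : dl (fun i u => fderiv ℝ (gv (gZ F) i) u) (cu P7 f) (du dP7 f h) (du dP7 f k) = _ := vZ
  have tP : dl (fun i u => fderiv ℝ (gv (gP F) i) u) (cu P7 f) (du dP7 f h) (du dP7 f k) = _ := vP
  have tx : dl (fun i u => fderiv ℝ (gv (gX F) i) u) (cu P7 f) (du dP7 f h) (du dP7 f k) = _ := vx
  have ty : dl (fun i u => fderiv ℝ (gv (gY F) i) u) (cu P7 f) (du dP7 f h) (du dP7 f k) = _ := vy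
  have tg : dl (fun i u => fderiv ℝ (gv (gG F) i) u) (cu P7 f) (du dP7 f h) (du dP7 f k) = _ := vg
  rw [tQ, tZ, tP, tx, ty, tg]
  have q1 : (YY (X1 f) (X2 f) ^ (1 + 1) * conj (S54.S2 f)).re = (conj (YY (X1 f) (X2 f)) ^ 2 * S54.S2 f).re := by
    rw [← Complex.conj_re (conj (YY (X1 f) (X2 f)) ^ 2 * S54.S2 f)]
    simp
  have q2 : (YY (X1 f) (X2 f) ^ (2 + 1) * conj (CE 3 f)).re = (conj (YY (X1 f) (X2 f)) ^ 3 * CE 3 f).re := by
    rw [← Complex.conj_re (conj (YY (X1 f) (X2 f)) ^ 3 * CE 3 f)]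
    simp
  have eM : M7 F f h * vF f k - M7 F f k * vF f h =
      (F.Q (rF f) : ℂ) * YY (X1 f) (X2 f) ^ 1 * (conj (K2 f h) * vF f k - conj (K2 f k) * vF f h)
      + (F.Z (rF f) : ℂ) * conj (YY (X1 f) (X2 f)) * ((K0 f h : ℂ) * vF f k - (K0 f k : ℂ) * vF f h)
      + (F.P (rF f) : ℂ) * conj (YY (X1 f) (X2 f)) ^ (2 + 1) * (K2 f h * vF f k - K2 f k * vF f h)
      + (F.x (rF f) : ℂ) * YY (X1 f) (X2 f) ^ 2 * (conj (L3 f h) * vF f k - conj (L3 f k) * vF f h)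
      + (F.y (rF f) : ℂ) * conj (YY (X1 f) (X2 f)) ^ (3 + 1) * (L3 f h * vF f k - L3 f k * vF f h)
      + (F.g (rF f) : ℂ) * conj (YY (X1 f) (X2 f)) * (((2 * (conj (CE 3 f) * L3 f h).re : ℝ) : ℂ) * vF f k
        - ((2 * (conj (CE 3 f) * L3 f k).re : ℝ) : ℂ) * vF f h) := by
    unfold M7
    ring
  rw [eM]
  simp only [Complex.add_im]
  unfold W1
  rw [q1, q2]
  push_cast
  ring

/-! ### the kernel -/

/-- the kernel of the mixed part -/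
def mk7 (F : Cof) (f : ℝ → ℝ) (t : ℝ) : ℂ :=
  (de (X1 f) (X2 f) f t : ℂ) * ((F.Q (rF f) : ℂ) * YY (X1 f) (X2 f) * conj (C54.ep (X1 f) (X2 f) t) ^ 2
      + (F.Z (rF f) : ℂ) * conj (YY (X1 f) (X2 f))
      + (F.P (rF f) : ℂ) * conj (YY (X1 f) (X2 f)) ^ 3 * C54.ep (X1 f) (X2 f) t ^ 2)
    + (F.x (rF f) : ℂ) * YY (X1 f) (X2 f) ^ 2 * conj (C54.ep (X1 f) (X2 f) t) ^ 3
    + (F.y (rF f) : ℂ) * conj (YY (X1 f) (X2 f)) ^ 4 * C54.ep (X1 f) (X2 f) t ^ 3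
    + 2 * (F.g (rF f) : ℂ) * conj (YY (X1 f) (X2 f))
      * (((conj (CE 3 f) * C54.ep (X1 f) (X2 f) t ^ 3).re : ℝ) : ℂ)

theorem bm_de {f : ℝ → ℝ} (hf : Ef f) : Bm fun t => (de (X1 f) (X2 f) f t : ℂ) := by
  have cde : Continuous fun t => de (X1 f) (X2 f) f t := hf.lip.continuous.sub
    (Real.continuous_arcsin.comp F54B.cont_pr)
  refine bm_real cde.measurable (C := Real.pi) fun t => ?_
  have h1 := (abs_lt.1 (hf.lt t))
  have h2 := Real.neg_pi_div_two_le_arcsin (F54.pr (X1 f) (X2 f) t)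
  have h3 := Real.arcsin_le_pi_div_two (F54.pr (X1 f) (X2 f) t)
  unfold de
  rw [abs_le]
  constructor <;> linarith

theorem bm_pow {X : Type*} [MeasurableSpace X] {g : X → ℂ} (h : Bm g) (n : ℕ) : Bm fun x => g x ^ n := by
  induction n with
  | zero => simpa using Bm.const 1
  | succ n ih =>
    simp only [pow_succ]
    exact ih.mul h

theorem bm_mk {f : ℝ → ℝ} (hf : Ef f) : Bm (mk7 F f) := by
  have bE := bm_ep (X_lt hf)
  have bd := bm_de hf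
  have bE2 := bm_pow bE 2
  have bE3 := bm_pow bE 3
  have bc2 : Bm fun t => conj (C54.ep (X1 f) (X2 f) t) ^ 2 := bm_pow bE.conj 2
  have bc3 : Bm fun t => conj (C54.ep (X1 f) (X2 f) t) ^ 3 := bm_pow bE.conj 3
  have e : mk7 F f = fun t =>
      (de (X1 f) (X2 f) f t : ℂ) * ((F.Q (rF f) : ℂ) * YY (X1 f) (X2 f) * conj (C54.ep (X1 f) (X2 f) t) ^ 2
      + (F.Z (rF f) : ℂ) * conj (YY (X1 f) (X2 f))
      + (F.P (rF f) : ℂ) * conj (YY (X1 f) (X2 f)) ^ 3 * C54.ep (X1 f) (X2 f) t ^ 2)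
    + ((F.x (rF f) : ℂ) * YY (X1 f) (X2 f) ^ 2 + (F.g (rF f) : ℂ) * conj (YY (X1 f) (X2 f)) * CE 3 f)
      * conj (C54.ep (X1 f) (X2 f) t) ^ 3
    + ((F.y (rF f) : ℂ) * conj (YY (X1 f) (X2 f)) ^ 4 + (F.g (rF f) : ℂ) * conj (YY (X1 f) (X2 f))
      * conj (CE 3 f)) * C54.ep (X1 f) (X2 f) t ^ 3 := by
    funext t
    unfold mk7
    have h2 : ∀ z : ℂ, ((z.re : ℝ) : ℂ) = (z + conj z) / 2 := fun z => by
      rw [Complex.re_eq_add_conj]
    rw [h2]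
    simp only [map_mul, map_pow, Complex.conj_conj]
    ring
  rw [e]
  exact ((bd.mul (((Bm.const _).mul bc2).add ((Bm.const _).add ((Bm.const _).mul bE2)) |> fun h => by
    simpa only [add_assoc] using h)).add ((Bm.const _).mul bc3)).add ((Bm.const _).mul bE3)

theorem M7_int {f g : ℝ → ℝ} (hf : Ef f) (hg : Measurable g) (hb : ∀ t, |g t| ≤ 1) :
    M7 F f g = ∫ t, (2 * mk7 F f t) * (g t : ℂ) ∂(vm (X1 f) (X2 f)) := by
  have hX := X_lt hf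
  have := vm_prob hX
  have bE := bm_ep hX
  have bd := bm_de hf
  have bg : Bm fun t => (g t : ℂ) := bm_real hg hb
  have bE3 := bm_pow bE 3
  have b1 : Bm fun t => (de (X1 f) (X2 f) f t : ℂ) * (g t : ℂ) * C54.ep (X1 f) (X2 f) t ^ 2 :=
    (bd.mul bg).mul (bm_pow bE 2)
  have b2 : Bm fun t => (de (X1 f) (X2 f) f t : ℂ) * (g t : ℂ) := bd.mul bg
  have b3 : Bm fun t => (g t : ℂ) * C54.ep (X1 f) (X2 f) t ^ 3 := bg.mul bE3
  have k2 : K2 f g = 2 * ∫ t, (de (X1 f) (X2 f) f t : ℂ) * (g t : ℂ) * C54.ep (X1 f) (X2 f) t ^ 2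
      ∂(vm (X1 f) (X2 f)) := by
    have := ME_vm hX 2 (fun t => de (X1 f) (X2 f) f t * g t)
    push_cast at this
    unfold K2
    rw [this]
  have k0 : ((K0 f g : ℝ) : ℂ) = 2 * ∫ t, (de (X1 f) (X2 f) f t : ℂ) * (g t : ℂ) ∂(vm (X1 f) (X2 f)) := by
    have := ME_vm hX 0 (fun t => de (X1 f) (X2 f) f t * g t)
    have e2 : ME 0 (X1 f) (X2 f) (fun t => de (X1 f) (X2 f) f t * g t) =
        ∫ t, (de (X1 f) (X2 f) f t : ℂ) * (g t : ℂ) ∂(vm (X1 f) (X2 f)) := by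
      push_cast at this
      simpa using this
    have him := S54.ME_zero_im hX (fun t => de (X1 f) (X2 f) f t * g t)
    rw [← e2]
    unfold K0
    apply Complex.ext
    · simp
    · simp [him]
  have k3 : L3 f g = 2 * ∫ t, (g t : ℂ) * C54.ep (X1 f) (X2 f) t ^ 3 ∂(vm (X1 f) (X2 f)) := by
    unfold L3
    rw [S54.Lm_eq hX]
    rw [ME_vm hX 3 g]
  have cj1 : ∀ {φ : ℝ → ℂ}, ∫ t, conj (φ t) ∂(vm (X1 f) (X2 f)) = conj (∫ t, φ t ∂(vm (X1 f) (X2 f))) :=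
    integral_conj
  have e : (fun t => (2 * mk7 F f t) * (g t : ℂ)) = fun t =>
      2 * (F.Q (rF f) : ℂ) * YY (X1 f) (X2 f)
        * conj ((de (X1 f) (X2 f) f t : ℂ) * (g t : ℂ) * C54.ep (X1 f) (X2 f) t ^ 2)
      + (2 * (F.Z (rF f) : ℂ) * conj (YY (X1 f) (X2 f)) * ((de (X1 f) (X2 f) f t : ℂ) * (g t : ℂ))
      + (2 * (F.P (rF f) : ℂ) * conj (YY (X1 f) (X2 f)) ^ 3
        * ((de (X1 f) (X2 f) f t : ℂ) * (g t : ℂ) * C54.ep (X1 f) (X2 f) t ^ 2)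
      + (2 * ((F.x (rF f) : ℂ) * YY (X1 f) (X2 f) ^ 2 + (F.g (rF f) : ℂ) * conj (YY (X1 f) (X2 f)) * CE 3 f)
        * conj ((g t : ℂ) * C54.ep (X1 f) (X2 f) t ^ 3)
      + 2 * ((F.y (rF f) : ℂ) * conj (YY (X1 f) (X2 f)) ^ 4 + (F.g (rF f) : ℂ) * conj (YY (X1 f) (X2 f))
        * conj (CE 3 f)) * ((g t : ℂ) * C54.ep (X1 f) (X2 f) t ^ 3)))) := by
    funext t
    unfold mk7
    have h2 : ∀ z : ℂ, ((z.re : ℝ) : ℂ) = (z + conj z) / 2 := fun z => by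
      rw [Complex.re_eq_add_conj]
    rw [h2]
    simp only [map_mul, map_pow, Complex.conj_conj, Complex.conj_ofReal]
    ring
  rw [e, integral_add ((Bm.const _).mul b1.conj).int, integral_add ((Bm.const _).mul b2).int,
    integral_add ((Bm.const _).mul b1).int, integral_add ((Bm.const _).mul b3.conj).int
    ((Bm.const _).mul b3).int, integral_const_mul, integral_const_mul, integral_const_mul,
    integral_const_mul, integral_const_mul, cj1, cj1]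
  · unfold M7
    rw [k0, k2, k3]
    have h2 : ∀ z : ℂ, ((2 * z.re : ℝ) : ℂ) = z + conj z := fun z => by
      rw [Complex.add_conj]
    rw [h2]
    simp only [map_mul, Complex.conj_conj, map_ofNat]
    ring
  · exact (((Bm.const _).mul b3.conj).add ((Bm.const _).mul b3)).int
  · exact (((Bm.const _).mul b1).add (((Bm.const _).mul b3.conj).add ((Bm.const _).mul b3))).int
  · exact (((Bm.const _).mul b2).add (((Bm.const _).mul b1).add
      (((Bm.const _).mul b3.conj).add ((Bm.const _).mul b3)))).int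

theorem mix {f h k : ℝ → ℝ} (hf : Ef f) (V : Var h k) :
    (M7 F f h * vF f k - M7 F f k * vF f h).im =
      2 * (Aa f h k * ∫ t, mk7 F f t * Kc h k t ∂(vm (X1 f) (X2 f))).re
        - 2 * (Ba f h k * ∫ t, mk7 F f t * conj (Kc h k t) ∂(vm (X1 f) (X2 f))).re := by
  have hX := X_lt hf
  have := vm_prob hX
  rw [M7_int hf V.mesh V.bh, M7_int hf V.mesk V.bk]
  have b2 : Bm fun t => 2 * mk7 F f t := (Bm.const 2).mul (bm_mk hf)
  have key := CST.pol (μ := vm (X1 f) (X2 f)) b2 (bm_real V.mesh V.bh) (bm_real V.mesk V.bk)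
    (fun t => Complex.ofReal_im _) (fun t => Complex.ofReal_im _) (vF f h) (vF f k)
  rw [key]
  have e1 : ∫ t, (2 * mk7 F f t) * ((h t : ℂ) + I * (k t : ℂ)) ∂(vm (X1 f) (X2 f)) =
      2 * ∫ t, mk7 F f t * Kc h k t ∂(vm (X1 f) (X2 f)) := by
    rw [← integral_const_mul]
    congr 1
    funext t
    unfold Kc
    ring
  have e2 : ∫ t, (2 * mk7 F f t) * conj ((h t : ℂ) + I * (k t : ℂ)) ∂(vm (X1 f) (X2 f)) =
      2 * ∫ t, mk7 F f t * conj (Kc h k t) ∂(vm (X1 f) (X2 f)) := by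
    rw [← integral_const_mul]
    congr 1
    funext t
    unfold Kc
    ring
  rw [e1, e2]
  have e3 : ∀ a b : ℂ, (a * (2 * b)).re = 2 * (a * b).re := fun a b => by
    rw [show a * (2 * b) = ((2 : ℝ) : ℂ) * (a * b) by push_cast; ring, Complex.re_ofReal_mul]
  rw [e3, e3]
  rfl

/-! ### the term `Im (conj C₃ ∇C₃)` -/

/-- the part of type `conj K` of `∇C₃`; `R = mean (ε³ conj K)` -/
def Cp (f : ℝ → ℝ) (A B R : ℂ) : ℂ :=
  R + conj B * D5 f - 3 / (4 * (cF f : ℂ)) * (conj (YY (X1 f) (X2 f)) * A - YY (X1 f) (X2 f) * conj B) * CE 3 f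

/-- the part of type `K` of `∇C₃`; `R = mean (ε³ K)` -/
def Cm (f : ℝ → ℝ) (A B R : ℂ) : ℂ :=
  R + conj A * D5 f - 3 / (4 * (cF f : ℂ)) * (conj (YY (X1 f) (X2 f)) * B - YY (X1 f) (X2 f) * conj A) * CE 3 f

/-- the value of the term `Im (conj C₃ ∇C₃)` -/
def bv (F : Cof) (f : ℝ → ℝ) (A B N M : ℂ) : ℝ :=
  2 * F.b (rF f) * (‖N‖ ^ 2 - ‖M‖ ^ 2) - 3 * F.b (rF f) * normSq (CE 3 f) * (‖A‖ ^ 2 - ‖B‖ ^ 2)
    + 2 * cF f * deriv F.b (rF f) * ((conj (YY (X1 f) (X2 f)) * A + YY (X1 f) (X2 f) * conj B)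
      * (CE 3 f * conj N - conj (CE 3 f) * M)).re

theorem L3_vm {f g : ℝ → ℝ} (hf : Ef f) :
    L3 f g = 2 * ∫ t, C54.ep (X1 f) (X2 f) t ^ 3 * (g t : ℂ) ∂(vm (X1 f) (X2 f)) := by
  unfold L3
  rw [S54.Lm_eq (X_lt hf)]
  have := ME_vm (X_lt hf) 3 g
  rw [this]
  congr 1
  refine integral_congr_ae (Eventually.of_forall fun t => ?_)
  exact mul_comm _ _

theorem L3_pm {f h k : ℝ → ℝ} (hf : Ef f) (V : Var h k) :
    (L3 f h - I * L3 f k) / 2 = ∫ t, C54.ep (X1 f) (X2 f) t ^ 3 * conj (Kc h k t) ∂(vm (X1 f) (X2 f)) ∧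
      (L3 f h + I * L3 f k) / 2 = ∫ t, C54.ep (X1 f) (X2 f) t ^ 3 * Kc h k t ∂(vm (X1 f) (X2 f)) := by
  have hX := X_lt hf
  have := vm_prob hX
  have bE3 := bm_pow (bm_ep hX) 3
  have b1 := bE3.mul (bm_real V.mesh V.bh)
  have b2 := bE3.mul (bm_real V.mesk V.bk)
  rw [L3_vm hf, L3_vm hf]
  constructor
  · have e : (fun t => C54.ep (X1 f) (X2 f) t ^ 3 * conj (Kc h k t)) = fun t =>
        C54.ep (X1 f) (X2 f) t ^ 3 * (h t : ℂ) - I * (C54.ep (X1 f) (X2 f) t ^ 3 * (k t : ℂ)) := by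
      funext t
      unfold Kc
      rw [map_add, map_mul, conj_I, Complex.conj_ofReal, Complex.conj_ofReal]
      ring
    rw [e, integral_sub b1.int ((Bm.const I).mul b2).int, integral_const_mul]
    ring
  · have e : (fun t => C54.ep (X1 f) (X2 f) t ^ 3 * Kc h k t) = fun t =>
        C54.ep (X1 f) (X2 f) t ^ 3 * (h t : ℂ) + I * (C54.ep (X1 f) (X2 f) t ^ 3 * (k t : ℂ)) := by
      funext t
      unfold Kc
      ring
    rw [e, integral_add b1.int ((Bm.const I).mul b2).int, integral_const_mul]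
    ring

theorem NC_pm {f h k : ℝ → ℝ} (hf : Ef f) (V : Var h k) :
    (NC f h - I * NC f k) / 2 = Cp f (Aa f h k) (Ba f h k)
        (∫ t, C54.ep (X1 f) (X2 f) t ^ 3 * conj (Kc h k t) ∂(vm (X1 f) (X2 f))) ∧
      (NC f h + I * NC f k) / 2 = Cm f (Aa f h k) (Ba f h k)
        (∫ t, C54.ep (X1 f) (X2 f) t ^ 3 * Kc h k t ∂(vm (X1 f) (X2 f))) := by
  obtain ⟨e1, e2⟩ := L3_pm hf V
  have hc : (cF f : ℂ) ≠ 0 := by
    have : 0 < cF f := Real.sqrt_pos.2 (sub_pos.2 (X_lt hf))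
    exact_mod_cast this.ne'
  have ht : ∀ v : ℂ, (((conj (YY (X1 f) (X2 f)) * v).im / (2 * cF f) : ℝ) : ℂ) =
      (conj (YY (X1 f) (X2 f)) * v - YY (X1 f) (X2 f) * conj v) / (2 * I) / (2 * cF f) := by
    intro v
    push_cast
    rw [Complex.im_eq_sub_conj]
    simp only [map_mul, Complex.conj_conj]
  have c2 : conj (2 : ℂ) = 2 := map_ofNat _ 2
  rw [← e1, ← e2]
  unfold NC cd Cp Cm Aa Ba
  rw [ht, ht]
  simp only [map_div₀, map_add, map_sub, map_mul, conj_I, c2]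
  push_cast
  constructor <;> field_simp <;> ring

theorem val_b (H : F.Sm) {f h k : ℝ → ℝ} (hf : Ef f) (V : Var h k) :
    dl (fun i u => fderiv ℝ (lab 3 F.b 5 6 i) u) (cu P7 f) (du dP7 f h) (du dP7 f k) =
      bv F f (Aa f h k) (Ba f h k)
        (Cp f (Aa f h k) (Ba f h k)
          (∫ t, C54.ep (X1 f) (X2 f) t ^ 3 * conj (Kc h k t) ∂(vm (X1 f) (X2 f))))
        (Cm f (Aa f h k) (Ba f h k)
          (∫ t, C54.ep (X1 f) (X2 f) t ^ 3 * Kc h k t ∂(vm (X1 f) (X2 f)))) := by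
  have hu : cu P7 f ∈ OO 5 := sys7.mem hf
  have hr : rF f < 1 := X_lt hf
  have hb : HasDerivAt F.b (deriv F.b (rF f)) (CST.rr (cu P7 f)) := by
    rw [rru]
    exact ((H.b.contDiffAt (Iio_mem_nhds hr)).differentiableAt one_ne_zero).hasDerivAt
  have c5 : ((3 : ℝ) : ℂ) = 3 := by push_cast; rfl
  rw [CST.dl_lab hu H.b hb (s := 3) (j := 5) (k := 6) (Np := NC f h) (Nq := NC f k)
    (by rw [c5]; exact hC hf h) (by rw [c5]; exact hC hf k)]
  obtain ⟨p1, p2⟩ := NC_pm hf V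
  rw [rru, ccu, ztu, vvu, vvu, jau, SYS.cj_C3_7, CST.pol2, CST.pol3, CST.pol3, p1, p2, Complex.conj_conj,
    Complex.conj_conj]
  unfold bv Aa Ba
  ring

/-! ### the certificate -/

/-- the coefficient of the Jacobian -/
def W7 (W : ℝ → ℝ) (F : Cof) (f : ℝ → ℝ) : ℝ :=
  2 * cF f * W (cF f) - rF f * deriv W (cF f) + W1 F f

/-- **the certificate**: a pointwise inequality for all functions `K` with `|K| ≤ 1` -/
def Cert7 (W : ℝ → ℝ) (F : Cof) (μ T : ℝ) : Prop :=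
  ∀ f, Ef f → ∀ K : ℝ → ℂ, Measurable K → (∀ t, ‖K t‖ ≤ 1) → ∀ A B : ℂ,
    A - sF f * conj B = ∫ t, C54.ep (X1 f) (X2 f) t * conj (K t) ∂(vm (X1 f) (X2 f)) →
    B - sF f * conj A = ∫ t, C54.ep (X1 f) (X2 f) t * K t ∂(vm (X1 f) (X2 f)) →
    W7 W F f * (‖A‖ ^ 2 - ‖B‖ ^ 2)
      + 2 * (A * ∫ t, mk7 F f t * K t ∂(vm (X1 f) (X2 f))).re
      - 2 * (B * ∫ t, mk7 F f t * conj (K t) ∂(vm (X1 f) (X2 f))).re
      + bv F f A B (Cp f A B (∫ t, C54.ep (X1 f) (X2 f) t ^ 3 * conj (K t) ∂(vm (X1 f) (X2 f))))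
          (Cm f A B (∫ t, C54.ep (X1 f) (X2 f) t ^ 3 * K t ∂(vm (X1 f) (X2 f))))
      + 2 * μ * ‖B‖ ^ 2 ≤ T

theorem jab (f h k : ℝ → ℝ) : (conj (vF f h) * vF f k).im = ‖Aa f h k‖ ^ 2 - ‖Ba f h k‖ ^ 2 :=
  CST.pol3 _ _

theorem nub (f h k : ℝ → ℝ) : nu (cu P7 f) (du dP7 f h) (du dP7 f k) = 2 * ‖Ba f h k‖ ^ 2 := by
  unfold nu
  rw [jau, vvu, vvu]
  unfold Ba
  rw [← Complex.normSq_eq_norm_sq]
  generalize vF f h = a
  generalize vF f k = b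
  simp only [Complex.normSq_apply, Complex.mul_im, Complex.mul_re, Complex.conj_re, Complex.conj_im,
    Complex.div_ofNat_re, Complex.div_ofNat_im, Complex.add_re, Complex.add_im, Complex.I_re, Complex.I_im]
  ring

theorem hst_of {W : ℝ → ℝ} (hW : ContDiffOn ℝ 1 W (Ioi 0)) (HF : F.Sm) {μ T : ℝ} (H : Cert7 W F μ T)
    {f h k : ℝ → ℝ} (hf : Ef f) (V : Var h k) :
    dl (fun i u => fderiv ℝ (gv (gt W (G7 F)) i) u) (cu P7 f) (du dP7 f h) (du dP7 f k)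
      + dl (fun i u => fderiv ℝ (lab 3 F.b 5 6 i) u) (cu P7 f) (du dP7 f h) (du dP7 f k)
      + μ * nu (cu P7 f) (du dP7 f h) (du dP7 f k) ≤ T := by
  have hu : cu P7 f ∈ OO 5 := sys7.mem hf
  have hc : 0 < cF f := Real.sqrt_pos.2 (sub_pos.2 (X_lt hf))
  have hW' : HasDerivAt W (deriv W (cF f)) (CST.cc (cu P7 f)) := by
    rw [ccu]
    exact ((hW.contDiffAt (Ioi_mem_nhds hc)).differentiableAt one_ne_zero).hasDerivAt
  rw [CST.dl_gt hW HF.cG7 hu hW', val_G7 HF hf, val_b HF hf V, nub, mix hf V, jau, jab, rru, ccu]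
  obtain ⟨e1, e2⟩ := AB_eq hf V
  have := H f hf (Kc h k) (Kc_meas V) (Kc_le V) _ _ e1 e2
  unfold W7 at this
  linarith

/-! ### the boundary -/

/-- the growth conditions at the boundary -/
structure Cof.Bo (F : Cof) : Prop where
  Q : Tendsto (fun c => F.Q (1 - c ^ 2) * c ^ 2) (𝓝[>] 0) (𝓝 0)
  Z : Tendsto (fun c => F.Z (1 - c ^ 2) * c ^ 2) (𝓝[>] 0) (𝓝 0)
  P : Tendsto (fun c => F.P (1 - c ^ 2) * c ^ 2) (𝓝[>] 0) (𝓝 0)
  x : Tendsto (fun c => F.x (1 - c ^ 2) * c) (𝓝[>] 0) (𝓝 0)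
  y : Tendsto (fun c => F.y (1 - c ^ 2) * c) (𝓝[>] 0) (𝓝 0)
  g : Tendsto (fun c => F.g (1 - c ^ 2) * c ^ 2) (𝓝[>] 0) (𝓝 0)
  b : Tendsto (fun c => F.b (1 - c ^ 2) * c) (𝓝[>] 0) (𝓝 0)

theorem cF_pos {f : ℝ → ℝ} (hf : Ef f) : 0 < cF f := Real.sqrt_pos.2 (sub_pos.2 (X_lt hf))

theorem cF_le {f : ℝ → ℝ} : cF f ≤ 1 := by
  unfold cF
  rw [Real.sqrt_le_one]
  unfold rF
  nlinarith [sq_nonneg (X1 f), sq_nonneg (X2 f)]

theorem small {φ : ℝ → ℝ} {k : ℕ} (H : Tendsto (fun c => φ (1 - c ^ 2) * c ^ k) (𝓝[>] 0) (𝓝 0)) {ε : ℝ}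
    (hε : 0 < ε) : ∃ η : ℝ, 0 < η ∧ ∀ f, Ef f → cF f < η → |φ (rF f)| * cF f ^ k ≤ ε := by
  obtain ⟨a, ha, ha'⟩ := (Metric.tendsto_nhdsWithin_nhds.1 H) ε hε
  refine ⟨a, ha, fun f hf hc => ?_⟩
  have hc0 := cF_pos hf
  have hc2 : cF f ^ 2 = 1 - rF f := Real.sq_sqrt (sub_pos.2 (X_lt hf)).le
  have er : 1 - cF f ^ 2 = rF f := by rw [hc2]; ring
  have q := ha' (mem_Ioi.2 hc0) (by rw [Real.dist_eq, sub_zero, abs_of_pos hc0]; exact hc)
  rw [er, Real.dist_eq, sub_zero, abs_mul, abs_of_pos (pow_pos hc0 k)] at q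
  exact q.le

theorem nz {f : ℝ → ℝ} (hf : Ef f) : ‖YY (X1 f) (X2 f)‖ ≤ 1 := by
  have hr : rF f < 1 := X_lt hf
  have h3 : ‖YY (X1 f) (X2 f)‖ ^ 2 = rF f := by
    rw [← Complex.normSq_eq_norm_sq, Complex.normSq_apply]
    simp only [YY, rF]
    ring
  have h4 : ‖YY (X1 f) (X2 f)‖ ^ 2 ≤ 1 := by rw [h3]; exact hr.le
  exact (sq_le_one_iff₀ (norm_nonneg _)).1 h4

theorem C3_le {f : ℝ → ℝ} (hf : Ef f) : ‖CE 3 f‖ ≤ 22 * cF f := by
  have h1 := S54Z.MM_map_le 3 1 hf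
  rw [cF_eq] at h1
  have e : CE 3 f = S54.MM 3 (fun u : ℝ => u ^ 1) (X1 f) (X2 f) f := by
    rw [SYS.CE_eq hf 3]
    unfold F54.SM
    simp only [pow_one]
    rfl
  rw [e]
  linarith

theorem dC3_le {f h : ℝ → ℝ} (hf : Ef f) (hm : Measurable h) (hb : ∀ t, |h t| ≤ 1) : ‖dCE 3 f h‖ ≤ 632 := by
  have h1 := S54Z.dMM_map_le' 3 0 (Φ := fun u : ℝ => u) (Φ' := fun _ : ℝ => (1 : ℝ)) (fun u => by simp)
    (fun u => by simp) hf hm zero_le_one hb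
  rw [SYS.dCE_eq hf (by norm_num)]
  unfold F54.dSM
  refine h1.trans (le_of_eq ?_)
  norm_num

theorem G7_small (H : F.Bo) {ε : ℝ} (hε : 0 < ε) :
    ∃ η : ℝ, 0 < η ∧ ∀ f, Ef f → CST.cc (cu P7 f) < η → ‖G7 F (cu P7 f)‖ ≤ ε := by
  obtain ⟨a1, p1, q1⟩ := small (k := 2) H.Q (ε := ε / (6 * 121)) (by positivity)
  obtain ⟨a2, p2, q2⟩ := small (k := 2) H.Z (ε := ε / (6 * 121)) (by positivity)
  obtain ⟨a3, p3, q3⟩ := small (k := 2) H.P (ε := ε / (6 * 121)) (by positivity)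
  obtain ⟨a4, p4, q4⟩ := small (k := 1) (by simpa using H.x) (ε := ε / (6 * 22)) (by positivity)
  obtain ⟨a5, p5, q5⟩ := small (k := 1) (by simpa using H.y) (ε := ε / (6 * 22)) (by positivity)
  obtain ⟨a6, p6, q6⟩ := small (k := 2) H.g (ε := ε / (6 * 484)) (by positivity)
  refine ⟨min (min a1 (min a2 a3)) (min a4 (min a5 a6)), by simp only [lt_min_iff]; exact ⟨⟨p1, p2, p3⟩, p4, p5, p6⟩,
    fun f hf hc => ?_⟩
  rw [ccu] at hc
  simp only [lt_min_iff] at hc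
  obtain ⟨⟨c1, c2, c3⟩, c4, c5, c6⟩ := hc
  have hz := nz hf
  have hc0 := cF_pos hf
  have s2 := OMS.S2_le hf
  have s0 := OMS.S0_le hf
  have s3 := C3_le hf
  have hzn : ∀ k : ℕ, ‖YY (X1 f) (X2 f)‖ ^ k ≤ 1 := fun k => pow_le_one₀ (norm_nonneg _) hz
  have b1 : ‖gQ F (cu P7 f)‖ ≤ ε / 6 := by
    unfold gQ
    rw [rru, ztu, SYS.cj_S2_7, norm_mul, norm_mul, norm_pow, Complex.norm_conj, Complex.norm_real,
      Real.norm_eq_abs]
    calc |F.Q (rF f)| * ‖YY (X1 f) (X2 f)‖ ^ 1 * ‖S54.S2 f‖ ≤ |F.Q (rF f)| * 1 * (121 * cF f ^ 2) := by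
          gcongr
          exact hzn 1
      _ = 121 * (|F.Q (rF f)| * cF f ^ 2) := by ring
      _ ≤ 121 * (ε / (6 * 121)) := by
          gcongr
          exact q1 f hf c1
      _ = ε / 6 := by ring
  have b2 : ‖gZ F (cu P7 f)‖ ≤ ε / 6 := by
    unfold gZ
    rw [rru, ztu, SYS.u_S0_7, norm_mul, norm_mul, norm_pow, Complex.norm_conj, Complex.norm_real,
      Complex.norm_real, Real.norm_eq_abs, Real.norm_eq_abs]
    calc |F.Z (rF f)| * ‖YY (X1 f) (X2 f)‖ ^ (0 + 1) * |S54.S0 f| ≤ |F.Z (rF f)| * 1 * (121 * cF f ^ 2) := by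
          gcongr
          exact hzn _
      _ = 121 * (|F.Z (rF f)| * cF f ^ 2) := by ring
      _ ≤ 121 * (ε / (6 * 121)) := by
          gcongr
          exact q2 f hf c2
      _ = ε / 6 := by ring
  have b3 : ‖gP F (cu P7 f)‖ ≤ ε / 6 := by
    unfold gP
    rw [rru, ztu, SYS.cj_S2_7, norm_mul, norm_mul, norm_pow, Complex.norm_conj, Complex.norm_real,
      Real.norm_eq_abs]
    calc |F.P (rF f)| * ‖YY (X1 f) (X2 f)‖ ^ (2 + 1) * ‖S54.S2 f‖ ≤ |F.P (rF f)| * 1 * (121 * cF f ^ 2) := by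
          gcongr
          exact hzn _
      _ = 121 * (|F.P (rF f)| * cF f ^ 2) := by ring
      _ ≤ 121 * (ε / (6 * 121)) := by
          gcongr
          exact q3 f hf c3
      _ = ε / 6 := by ring
  have b4 : ‖gX F (cu P7 f)‖ ≤ ε / 6 := by
    unfold gX
    rw [rru, ztu, SYS.cj_C3_7, norm_mul, norm_mul, norm_pow, Complex.norm_conj, Complex.norm_real,
      Real.norm_eq_abs]
    calc |F.x (rF f)| * ‖YY (X1 f) (X2 f)‖ ^ 2 * ‖CE 3 f‖ ≤ |F.x (rF f)| * 1 * (22 * cF f) := by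
          gcongr
          exact hzn _
      _ = 22 * (|F.x (rF f)| * cF f ^ 1) := by ring
      _ ≤ 22 * (ε / (6 * 22)) := by
          gcongr
          exact q4 f hf c4
      _ = ε / 6 := by ring
  have b5 : ‖gY F (cu P7 f)‖ ≤ ε / 6 := by
    unfold gY
    rw [rru, ztu, SYS.cj_C3_7, norm_mul, norm_mul, norm_pow, Complex.norm_conj, Complex.norm_real,
      Real.norm_eq_abs]
    calc |F.y (rF f)| * ‖YY (X1 f) (X2 f)‖ ^ (3 + 1) * ‖CE 3 f‖ ≤ |F.y (rF f)| * 1 * (22 * cF f) := by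
          gcongr
          exact hzn _
      _ = 22 * (|F.y (rF f)| * cF f ^ 1) := by ring
      _ ≤ 22 * (ε / (6 * 22)) := by
          gcongr
          exact q5 f hf c5
      _ = ε / 6 := by ring
  have b6 : ‖gG F (cu P7 f)‖ ≤ ε / 6 := by
    unfold gG
    rw [rru, ztu, SYS.cj_C3_7, norm_mul, norm_mul, norm_pow, Complex.norm_conj, Complex.norm_real,
      Complex.norm_real, Real.norm_eq_abs, Real.norm_eq_abs, abs_of_nonneg (normSq_nonneg _),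
      Complex.normSq_eq_norm_sq]
    calc |F.g (rF f)| * ‖YY (X1 f) (X2 f)‖ ^ (0 + 1) * ‖CE 3 f‖ ^ 2
        ≤ |F.g (rF f)| * 1 * (22 * cF f) ^ 2 := by
          gcongr
          exact hzn _
      _ = 484 * (|F.g (rF f)| * cF f ^ 2) := by ring
      _ ≤ 484 * (ε / (6 * 484)) := by
          gcongr
          exact q6 f hf c6
      _ = ε / 6 := by ring
  have n1 := norm_add_le (gY F (cu P7 f)) (gG F (cu P7 f))
  have n2 := norm_add_le (gX F (cu P7 f)) (gY F (cu P7 f) + gG F (cu P7 f))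
  have n3 := norm_add_le (gP F (cu P7 f)) (gX F (cu P7 f) + (gY F (cu P7 f) + gG F (cu P7 f)))
  have n4 := norm_add_le (gZ F (cu P7 f)) (gP F (cu P7 f) + (gX F (cu P7 f) + (gY F (cu P7 f) + gG F (cu P7 f))))
  have n5 := norm_add_le (gQ F (cu P7 f)) (gZ F (cu P7 f) + (gP F (cu P7 f) + (gX F (cu P7 f)
    + (gY F (cu P7 f) + gG F (cu P7 f)))))
  unfold G7
  linarith

theorem lab_small (H : F.Bo) {ε : ℝ} (hε : 0 < ε) :
    ∃ η : ℝ, 0 < η ∧ ∀ f h, Ef f → Measurable h → (∀ t, |h t| ≤ 1) → CST.cc (cu P7 f) < η →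
      |∑ i, lab 3 F.b 5 6 i (cu P7 f) * du dP7 f h i| ≤ ε := by
  obtain ⟨a, p, q⟩ := small (k := 1) (by simpa using H.b) (ε := ε / 30000) (by positivity)
  refine ⟨a, p, fun f h hf hm hb hc => ?_⟩
  rw [ccu] at hc
  have hq := q f hf hc
  have hc0 := cF_pos hf
  have hc1 : cF f ≤ 1 := cF_le
  have s3 := C3_le hf
  have sd := dC3_le hf hm hb
  have hz := nz hf
  have hv : ‖vF f h‖ ≤ 7 := by
    have := sys7.norm_le hf hm hb
    rwa [vvu] at this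
  have e : ∑ i, lab 3 F.b 5 6 i (cu P7 f) * du dP7 f h i =
      F.b (rF f) * (conj (CE 3 f) * dCE 3 f h).im + ((CST.phb 3 F.b (rF f) : ℂ)
        * conj (YY (X1 f) (X2 f)) * ((normSq (CE 3 f) : ℝ) : ℂ) * vF f h).im := by
    have e1 : ∀ i, lab 3 F.b 5 6 i (cu P7 f) * du dP7 f h i =
        CST.lab0 F.b 5 6 i (cu P7 f) * du dP7 f h i
          + gv (fun u => (CST.phb 3 F.b (CST.rr u) : ℂ) * conj (zt u) ^ (0 + 1)
            * ((normSq (cj 5 6 u) : ℝ) : ℂ)) i (cu P7 f) * du dP7 f h i := fun i => by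
      unfold lab
      ring
    simp only [e1]
    rw [Finset.sum_add_distrib, CST.sum_gv]
    congr 1
    · have e2 : ∀ i, CST.lab0 F.b 5 6 i (cu P7 f) * du dP7 f h i =
          (if i = 5 then -(F.b (CST.rr (cu P7 f)) * cu P7 f 6) * du dP7 f h i else 0)
            + (if i = 6 then F.b (CST.rr (cu P7 f)) * cu P7 f 5 * du dP7 f h i else 0) := fun i => by
        unfold CST.lab0
        split_ifs <;> ring
      simp only [e2]
      rw [Finset.sum_add_distrib, Finset.sum_ite_eq', Finset.sum_ite_eq']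
      simp only [Finset.mem_univ, if_true]
      rw [rru, ← SYS.cj_C3_7, ← SYS.cj_dC3_7]
      simp only [cj, mul_im, conj_re, conj_im]
      ring
    · rw [rru, ztu, vvu, SYS.cj_C3_7]
      simp
  rw [e]
  have t1 : |F.b (rF f) * (conj (CE 3 f) * dCE 3 f h).im| ≤ |F.b (rF f)| * cF f ^ 1 * 13904 := by
    rw [abs_mul]
    have : |(conj (CE 3 f) * dCE 3 f h).im| ≤ 22 * cF f * 632 := by
      refine (Complex.abs_im_le_norm _).trans ?_
      rw [norm_mul, Complex.norm_conj]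
      exact mul_le_mul s3 sd (norm_nonneg _) (by positivity)
    calc |F.b (rF f)| * |(conj (CE 3 f) * dCE 3 f h).im| ≤ |F.b (rF f)| * (22 * cF f * 632) := by gcongr
      _ = |F.b (rF f)| * cF f ^ 1 * 13904 := by ring
  have t2 : |((CST.phb 3 F.b (rF f) : ℂ) * conj (YY (X1 f) (X2 f)) * ((normSq (CE 3 f) : ℝ) : ℂ) * vF f h).im|
      ≤ |F.b (rF f)| * cF f ^ 1 * 10164 := by
    refine (Complex.abs_im_le_norm _).trans ?_
    rw [norm_mul, norm_mul, norm_mul, Complex.norm_conj, Complex.norm_real, Complex.norm_real,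
      Real.norm_eq_abs, Real.norm_eq_abs, abs_of_nonneg (normSq_nonneg _), Complex.normSq_eq_norm_sq]
    have ph : |CST.phb 3 F.b (rF f)| ≤ 3 * |F.b (rF f)| := by
      unfold CST.phb
      rw [abs_neg, abs_div, abs_mul, abs_of_pos (by norm_num : (0 : ℝ) < 3)]
      have : (1 : ℝ) ≤ |1 + √(1 - rF f)| := by
        rw [abs_of_pos (by positivity)]
        linarith [Real.sqrt_nonneg (1 - rF f)]
      exact div_le_self (by positivity) this
    have s4 : ‖CE 3 f‖ ^ 2 ≤ (22 * cF f) ^ 2 := pow_le_pow_left₀ (norm_nonneg _) s3 2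
    calc |CST.phb 3 F.b (rF f)| * ‖YY (X1 f) (X2 f)‖ * ‖CE 3 f‖ ^ 2 * ‖vF f h‖
        ≤ 3 * |F.b (rF f)| * 1 * (22 * cF f) ^ 2 * 7 := by gcongr
      _ = |F.b (rF f)| * (cF f * cF f) * 10164 := by ring
      _ ≤ |F.b (rF f)| * (cF f * 1) * 10164 := by gcongr
      _ = |F.b (rF f)| * cF f ^ 1 * 10164 := by ring
  have t3 := abs_add_le (F.b (rF f) * (conj (CE 3 f) * dCE 3 f h).im)
    ((CST.phb 3 F.b (rF f) : ℂ) * conj (YY (X1 f) (X2 f)) * ((normSq (CE 3 f) : ℝ) : ℂ) * vF f h).im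
  nlinarith

/-- **the inequality on every surface, from the certificate** -/
theorem raw7 {W : ℝ → ℝ} (hW : ContDiffOn ℝ 1 W (Ioi 0)) (hW0 : ContinuousOn W (Ici 0)) (HF : F.Sm)
    (HB : F.Bo) {μ T : ℝ} (H : Cert7 W F μ T) {e : ℝ} (he : 0 < e) :
    ∃ d : ℝ, 0 < d ∧ ∀ (M : Type) [MetricSpace M] [CompactSpace M] (γ : ℝ → M) (C : Calc M γ), Bd γ →
      ∀ (ρ : ℝ) (m : ℕ), 0 ≤ ρ → ρ < 1 → 2 ≤ m → (1 - ρ) * (Real.pi / 2) + 2 * (Real.pi / m) ≤ d →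
        Integrable (CST.nur C fun i => pull γ ρ m (P7 i)) C.μ ∧
        2 * Real.pi * W 0 - e + μ * ∫ o, CST.nur C (fun i => pull γ ρ m (P7 i)) o ∂C.μ ≤ T * C.vol :=
  CST.raw_le_add sys7 hW hW0 HF.cG7 (fun _ hε => G7_small HB hε)
    (fun i => CST.contDiffOn_lab HF.b 5 6 i) (fun _ hε => lab_small HB hε)
    (fun _ _ _ hf V => hst_of hW HF H hf V) he

/-- **the area bound on every surface, from the certificate** -/
theorem area7 {W : ℝ → ℝ} (hW : ContDiffOn ℝ 1 W (Ioi 0)) (hW0 : ContinuousOn W (Ici 0)) (HF : F.Sm)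
    (HB : F.Bo) {T : ℝ} (H : Cert7 W F 0 T) (M : Type) [MetricSpace M] [CompactSpace M] (γ : ℝ → M)
    (C : Calc M γ) (hγ : Bd γ) : 2 * Real.pi * W 0 ≤ T * C.vol :=
  CST.area_le_add sys7 hW hW0 HF.cG7 (fun _ hε => G7_small HB hε)
    (fun i => CST.contDiffOn_lab HF.b 5 6 i) (fun _ hε => lab_small HB hε)
    (fun f h k hf V => by
      have := hst_of hW HF H hf V
      rwa [zero_mul, add_zero] at this) M γ C hγ

end Pool.Agent.FPX.OM7
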