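import Mathlib
import Pool.Agent.FPX.OM7
import Pool.Agent.FPX.CERQ

/-
OM8 (helper11): the certificate of OM7 is invariant under rotations: it is enough to prove it for the states
with `ζ = r ≥ 0`.
-/

open MeasureTheory Set Filter Topology Complex
open scoped ENNReal NNReal ContDiff ComplexConjugate

noncomputable section

namespace Pool.Agent.FPX.OM7

open Pool.Agent.FPX Pool.Agent.FPX.UMP Pool.Agent.FPX.UMQ Pool.Agent.FPX.UXA Pool.Agent.EWD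
open Pool.Agent.FPX.F54 (X1 X2 dX1 dX2 X_lt X_G1 X_G2 vF sF)
open Pool.Agent.FPX.S54 (dS2 dS0 mS Fv ME YY de Sn)
open Pool.Agent.FPX.OMB (vm vm_int vm_prob bm_ep bm_real)
open Pool.Agent.FPX.CRD (Bm)
open Pool.Agent.FPX.OMS (rF cF cF_eq Aa Ba Kc ME_vm Kc_meas Kc_le AB_eq)
open Pool.Agent.FPX.SYS (CE dCE K2 K0)
open Pool.Agent.FPX.CERQ (pr_rot' ep_rot vm_rot ep_per)

/-- the certificate at one state -/
def CertAt (W : ℝ → ℝ) (F : Cof) (μ T : ℝ) (f : ℝ → ℝ) : Prop :=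
  ∀ K : ℝ → ℂ, Measurable K → (∀ t, ‖K t‖ ≤ 1) → ∀ A B : ℂ,
    A - sF f * conj B = ∫ t, C54.ep (X1 f) (X2 f) t * conj (K t) ∂(vm (X1 f) (X2 f)) →
    B - sF f * conj A = ∫ t, C54.ep (X1 f) (X2 f) t * K t ∂(vm (X1 f) (X2 f)) →
    W7 W F f * (‖A‖ ^ 2 - ‖B‖ ^ 2)
      + 2 * (A * ∫ t, mk7 F f t * K t ∂(vm (X1 f) (X2 f))).re
      - 2 * (B * ∫ t, mk7 F f t * conj (K t) ∂(vm (X1 f) (X2 f))).re
      + bv F f A B (Cp f A B (∫ t, C54.ep (X1 f) (X2 f) t ^ 3 * conj (K t) ∂(vm (X1 f) (X2 f))))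
          (Cm f A B (∫ t, C54.ep (X1 f) (X2 f) t ^ 3 * K t ∂(vm (X1 f) (X2 f))))
      + 2 * μ * ‖B‖ ^ 2 ≤ T

theorem cert_iff {W : ℝ → ℝ} {F : Cof} {μ T : ℝ} : Cert7 W F μ T ↔ ∀ f, Ef f → CertAt W F μ T f := Iff.rfl

/-- the periodic extension of the restriction to `(0, 2π]` -/
def pe (K : ℝ → ℂ) (t : ℝ) : ℂ := K (toIocMod Real.two_pi_pos 0 t)

theorem pe_per (K : ℝ → ℂ) (t : ℝ) : pe K (t + 2 * Real.pi) = pe K t := by
  unfold pe
  rw [toIocMod_add_right]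

theorem pe_eq (K : ℝ → ℂ) {t : ℝ} (ht : t ∈ Ioc 0 (2 * Real.pi)) : pe K t = K t := by
  unfold pe
  rw [(toIocMod_eq_self Real.two_pi_pos).2 (by simpa using ht)]

theorem pe_meas {K : ℝ → ℂ} (hK : Measurable K) : Measurable (pe K) := by
  have e : (fun t : ℝ => toIocMod Real.two_pi_pos 0 t) =
      fun t => t - (⌈t / (2 * Real.pi)⌉ - 1 : ℤ) * (2 * Real.pi) := by
    funext t
    have h1 : toIocDiv Real.two_pi_pos 0 t = ⌈t / (2 * Real.pi)⌉ - 1 := by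
      refine toIocDiv_eq_of_sub_zsmul_mem_Ioc Real.two_pi_pos ?_
      have h2 := Int.ceil_lt_add_one (t / (2 * Real.pi))
      have h3 := Int.le_ceil (t / (2 * Real.pi))
      have hp := Real.two_pi_pos
      rw [zsmul_eq_mul]
      push_cast
      constructor
      · have : (⌈t / (2 * Real.pi)⌉ : ℝ) - 1 < t / (2 * Real.pi) := by linarith
        rw [lt_div_iff₀ hp] at this
        linarith
      · have : t / (2 * Real.pi) * (2 * Real.pi) ≤ (⌈t / (2 * Real.pi)⌉ : ℝ) * (2 * Real.pi) :=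
          mul_le_mul_of_nonneg_right h3 hp.le
        rw [div_mul_cancel₀ _ hp.ne'] at this
        linarith
    rw [toIocMod, h1, zsmul_eq_mul]
  have h2 : Measurable fun t : ℝ => toIocMod Real.two_pi_pos 0 t := by
    rw [e]
    fun_prop
  exact hK.comp h2

theorem vm_pe {x y : ℝ} (K : ℝ → ℂ) (F : ℝ → ℂ → ℂ) :
    ∫ t, F t (K t) ∂(vm x y) = ∫ t, F t (pe K t) ∂(vm x y) := by
  have h1 : vm x y ≪ volume.restrict (Ioc 0 (2 * Real.pi)) := withDensity_absolutelyContinuous _ _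
  refine integral_congr_ae (h1.ae_le ?_)
  filter_upwards [ae_restrict_mem measurableSet_Ioc] with t ht
  rw [pe_eq K ht]

/-- rotation of the harmonics -/
theorem ME_rot {x y r φ : ℝ} (hr0 : 0 ≤ r) (hr1 : r < 1) (hx : x = r * Real.cos φ) (hy : y = r * Real.sin φ)
    {g g' : ℝ → ℝ} (hg : ∀ t, g (t + 2 * Real.pi) = g t) (hg' : ∀ t, g (t + φ) = g' t) (n : ℕ) :
    ME n x y g = Complex.exp (φ * I) ^ n * ME n r 0 g' := by
  have h : x ^ 2 + y ^ 2 < 1 := by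
    rw [CERQ.sq_rot hx hy]
    nlinarith
  have h0 : r ^ 2 + (0 : ℝ) ^ 2 < 1 := by nlinarith
  rw [ME_vm h, ME_vm h0, ← integral_const_mul,
    vm_rot hr0 hr1 hx hy (F := fun t => (g t : ℂ) * C54.ep x y t ^ n) fun t => by rw [hg, ep_per]]
  congr 1
  funext t
  rw [ep_rot hr0 hr1 hx hy, hg', mul_pow]
  ring

end Pool.Agent.FPX.OM7
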