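import Mathlib
import Pool.Agent.FPX.OM8

/-
OM9 (helper11): elimination of `K`, `|K| ≤ 1`, from the certificate of OM7, with free multipliers for the four
linear relations (`A`, `B` and the two parts `N`, `M` of `∇C₃`): by the modulus and by a weight.
-/

open MeasureTheory Set Filter Topology Complex
open scoped ENNReal NNReal ContDiff ComplexConjugate

noncomputable section

namespace Pool.Agent.FPX.OM7

open Pool.Agent.FPX Pool.Agent.FPX.UMP Pool.Agent.FPX.UMQ Pool.Agent.FPX.UXA Pool.Agent.EWD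
open Pool.Agent.FPX.F54 (X1 X2 dX1 dX2 X_lt X_G1 X_G2 vF sF)
open Pool.Agent.FPX.S54 (YY de)
open Pool.Agent.FPX.OMB (vm vm_int vm_prob bm_ep bm_real)
open Pool.Agent.FPX.CRD (Bm)
open Pool.Agent.FPX.OMS (rF cF)
open Pool.Agent.FPX.SYS (CE)

/-- `mean (ε³ conj K)` in terms of the part `N` of `∇C₃` -/
def Rp (f : ℝ → ℝ) (A B N : ℂ) : ℂ :=
  N - conj B * D5 f + 3 / (4 * (cF f : ℂ)) * (conj (YY (X1 f) (X2 f)) * A - YY (X1 f) (X2 f) * conj B) * CE 3 f

/-- `mean (ε³ K)` in terms of the part `M` of `∇C₃` -/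
def Rm (f : ℝ → ℝ) (A B M : ℂ) : ℂ :=
  M - conj A * D5 f + 3 / (4 * (cF f : ℂ)) * (conj (YY (X1 f) (X2 f)) * B - YY (X1 f) (X2 f) * conj A) * CE 3 f

theorem Rp_Cp (f : ℝ → ℝ) (A B R : ℂ) : Rp f A B (Cp f A B R) = R := by
  unfold Rp Cp
  ring

theorem Rm_Cm (f : ℝ → ℝ) (A B R : ℂ) : Rm f A B (Cm f A B R) = R := by
  unfold Rm Cm
  ring

/-- the combination of the functions of the certificate -/
def hm (F : Cof) (f : ℝ → ℝ) (A B α β γ δ : ℂ) (t : ℝ) : ℂ :=
  α * C54.ep (X1 f) (X2 f) t + β * conj (C54.ep (X1 f) (X2 f) t) + γ * C54.ep (X1 f) (X2 f) t ^ 3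
    + δ * conj (C54.ep (X1 f) (X2 f) t ^ 3) + A * mk7 F f t - conj B * conj (mk7 F f t)

/-- the terms without `K` -/
def rest (W : ℝ → ℝ) (F : Cof) (μ : ℝ) (f : ℝ → ℝ) (A B N M α β γ δ : ℂ) : ℝ :=
  W7 W F f * (‖A‖ ^ 2 - ‖B‖ ^ 2) + bv F f A B N M + 2 * μ * ‖B‖ ^ 2
    - 2 * (conj α * conj (B - sF f * conj A) + conj β * (A - sF f * conj B)
      + conj γ * conj (Rm f A B M) + conj δ * Rp f A B N).re

variable {F : Cof} {f : ℝ → ℝ}

theorem bm_hm (hf : Ef f) (A B α β γ δ : ℂ) : Bm (hm F f A B α β γ δ) := by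
  have bE := bm_ep (X_lt hf)
  have bE3 := bm_pow bE 3
  have bm := bm_mk (F := F) hf
  have h1 : Bm fun t => α * C54.ep (X1 f) (X2 f) t + β * conj (C54.ep (X1 f) (X2 f) t)
    + γ * C54.ep (X1 f) (X2 f) t ^ 3 + δ * conj (C54.ep (X1 f) (X2 f) t ^ 3) + A * mk7 F f t
    + (-conj B) * conj (mk7 F f t) :=
    (((((Bm.const α).mul bE).add ((Bm.const β).mul bE.conj)).add ((Bm.const γ).mul bE3)).add
      ((Bm.const δ).mul bE3.conj)).add ((Bm.const A).mul bm) |>.add ((Bm.const (-conj B)).mul bm.conj)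
  have e : hm F f A B α β γ δ = fun t => α * C54.ep (X1 f) (X2 f) t + β * conj (C54.ep (X1 f) (X2 f) t)
    + γ * C54.ep (X1 f) (X2 f) t ^ 3 + δ * conj (C54.ep (X1 f) (X2 f) t ^ 3) + A * mk7 F f t
    + (-conj B) * conj (mk7 F f t) := by
    funext t
    unfold hm
    ring
  rw [e]
  exact h1

/-- **elimination of `K` by the modulus** -/
theorem certAt_mod {W : ℝ → ℝ} {μ T : ℝ} (hf : Ef f)
    (H : ∀ A B N M : ℂ, ∃ α β γ δ : ℂ, rest W F μ f A B N M α β γ δ
      + 2 * ∫ t, ‖hm F f A B α β γ δ t‖ ∂(vm (X1 f) (X2 f)) ≤ T) : CertAt W F μ T f := by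
  intro K hK hK1 A B hA hB
  have hX := X_lt hf
  have := vm_prob hX
  set E : ℝ → ℂ := C54.ep (X1 f) (X2 f) with hE
  set R1 : ℂ := ∫ t, E t ^ 3 * conj (K t) ∂(vm (X1 f) (X2 f)) with hR1
  set R2 : ℂ := ∫ t, E t ^ 3 * K t ∂(vm (X1 f) (X2 f)) with hR2
  obtain ⟨α, β, γ, δ, h⟩ := H A B (Cp f A B R1) (Cm f A B R2)
  have bE : Bm E := bm_ep hX
  have bE3 : Bm fun t => E t ^ 3 := bm_pow bE 3
  have bm : Bm (mk7 F f) := bm_mk hf
  have bK : Bm K := ⟨hK, 1, hK1⟩
  have bh := bm_hm (F := F) hf A B α β γ δ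
  have cj : ∀ φ : ℝ → ℂ, ∫ t, conj (φ t) ∂(vm (X1 f) (X2 f)) = conj (∫ t, φ t ∂(vm (X1 f) (X2 f))) :=
    fun φ => integral_conj
  -- the identity
  have e : ∫ t, conj (K t) * conj (hm F f A B α β γ δ t) ∂(vm (X1 f) (X2 f)) =
      conj α * conj (∫ t, E t * K t ∂(vm (X1 f) (X2 f))) + (conj β * ∫ t, E t * conj (K t) ∂(vm (X1 f) (X2 f))
      + (conj γ * conj R2 + (conj δ * R1 + (conj A * conj (∫ t, mk7 F f t * K t ∂(vm (X1 f) (X2 f)))
      - B * ∫ t, mk7 F f t * conj (K t) ∂(vm (X1 f) (X2 f)))))) := by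
    have e1 : (fun t => conj (K t) * conj (hm F f A B α β γ δ t)) = fun t =>
        conj α * conj (E t * K t) + (conj β * (E t * conj (K t)) + (conj γ * conj (E t ^ 3 * K t)
        + (conj δ * (E t ^ 3 * conj (K t)) + (conj A * conj (mk7 F f t * K t)
        - B * (mk7 F f t * conj (K t)))))) := by
      funext t
      unfold hm
      simp only [map_add, map_sub, map_mul, map_pow, Complex.conj_conj, ← hE]
      ring
    have b1 : Bm fun t => conj α * conj (E t * K t) := (Bm.const _).mul (bE.mul bK).conj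
    have b2 : Bm fun t => conj β * (E t * conj (K t)) := (Bm.const _).mul (bE.mul bK.conj)
    have b3 : Bm fun t => conj γ * conj (E t ^ 3 * K t) := (Bm.const _).mul (bE3.mul bK).conj
    have b4 : Bm fun t => conj δ * (E t ^ 3 * conj (K t)) := (Bm.const _).mul (bE3.mul bK.conj)
    have b5 : Bm fun t => conj A * conj (mk7 F f t * K t) := (Bm.const _).mul (bm.mul bK).conj
    have b6 : Bm fun t => B * (mk7 F f t * conj (K t)) := (Bm.const _).mul (bm.mul bK.conj)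
    have i6 : Integrable (fun t => conj A * conj (mk7 F f t * K t) - B * (mk7 F f t * conj (K t)))
      (vm (X1 f) (X2 f)) := b5.int.sub b6.int
    have i5 : Integrable (fun t => conj δ * (E t ^ 3 * conj (K t)) + (conj A * conj (mk7 F f t * K t)
        - B * (mk7 F f t * conj (K t)))) (vm (X1 f) (X2 f)) := b4.int.add i6
    have i4 : Integrable (fun t => conj γ * conj (E t ^ 3 * K t) + (conj δ * (E t ^ 3 * conj (K t))
        + (conj A * conj (mk7 F f t * K t) - B * (mk7 F f t * conj (K t))))) (vm (X1 f) (X2 f)) :=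
      b3.int.add i5
    have i3 : Integrable (fun t => conj β * (E t * conj (K t)) + (conj γ * conj (E t ^ 3 * K t)
        + (conj δ * (E t ^ 3 * conj (K t)) + (conj A * conj (mk7 F f t * K t)
        - B * (mk7 F f t * conj (K t)))))) (vm (X1 f) (X2 f)) := b2.int.add i4
    rw [e1, integral_add b1.int i3, integral_add b2.int i4, integral_add b3.int i5,
      integral_add b4.int i6, integral_sub b5.int b6.int, integral_const_mul, integral_const_mul,
      integral_const_mul, integral_const_mul, integral_const_mul, integral_const_mul, cj, cj, cj]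
  -- the bound
  have hb : 2 * (∫ t, conj (K t) * conj (hm F f A B α β γ δ t) ∂(vm (X1 f) (X2 f))).re ≤
      2 * ∫ t, ‖hm F f A B α β γ δ t‖ ∂(vm (X1 f) (X2 f)) := by
    have h1 : ‖∫ t, conj (K t) * conj (hm F f A B α β γ δ t) ∂(vm (X1 f) (X2 f))‖ ≤
        ∫ t, ‖hm F f A B α β γ δ t‖ ∂(vm (X1 f) (X2 f)) := by
      refine norm_integral_le_of_norm_le bh.int.norm (Eventually.of_forall fun t => ?_)
      rw [norm_mul, Complex.norm_conj, Complex.norm_conj]
      exact mul_le_of_le_one_left (norm_nonneg _) (hK1 t)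
    have h2 := Complex.re_le_norm (∫ t, conj (K t) * conj (hm F f A B α β γ δ t) ∂(vm (X1 f) (X2 f)))
    linarith
  rw [e] at hb
  unfold rest at h
  rw [Rp_Cp, Rm_Cm, hA, hB] at h
  have c1 : (conj A * conj (∫ t, mk7 F f t * K t ∂(vm (X1 f) (X2 f)))).re =
      (A * ∫ t, mk7 F f t * K t ∂(vm (X1 f) (X2 f))).re := by
    rw [← map_mul, Complex.conj_re]
  simp only [Complex.add_re, Complex.sub_re] at hb h
  rw [c1] at hb
  linarith

/-- **elimination of `K` by a weight** -/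
theorem certAt_wt {W : ℝ → ℝ} {μ T : ℝ} (hf : Ef f)
    (H : ∀ A B N M : ℂ, ∃ α β γ δ : ℂ, ∃ w : ℝ → ℝ, Measurable w ∧ (∃ a b : ℝ, 0 < a ∧ ∀ t, a ≤ w t ∧ w t ≤ b) ∧
      rest W F μ f A B N M α β γ δ + (∫ t, w t ∂(vm (X1 f) (X2 f)))
        + ∫ t, ‖hm F f A B α β γ δ t‖ ^ 2 / w t ∂(vm (X1 f) (X2 f)) ≤ T) : CertAt W F μ T f := by
  refine certAt_mod hf fun A B N M => ?_
  obtain ⟨α, β, γ, δ, w, hw, ⟨a, b, ha, hab⟩, h⟩ := H A B N M
  refine ⟨α, β, γ, δ, ?_⟩
  have hX := X_lt hf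
  have := vm_prob hX
  have bh := bm_hm (F := F) hf A B α β γ δ
  obtain ⟨C, hC⟩ := bh.bdd
  have i1 : Integrable w (vm (X1 f) (X2 f)) := by
    refine Integrable.of_bound hw.aestronglyMeasurable (max |a| |b|) (Eventually.of_forall fun t => ?_)
    rw [Real.norm_eq_abs]
    exact abs_le_max_abs_abs (hab t).1 (hab t).2
  have i2 : Integrable (fun t => ‖hm F f A B α β γ δ t‖ ^ 2 / w t) (vm (X1 f) (X2 f)) := by
    refine Integrable.of_bound ((bh.meas.norm.pow_const 2).div hw).aestronglyMeasurable (C ^ 2 / a)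
      (Eventually.of_forall fun t => ?_)
    have h0 : 0 < w t := lt_of_lt_of_le ha (hab t).1
    rw [Real.norm_eq_abs, abs_of_nonneg (by positivity)]
    exact div_le_div₀ (sq_nonneg _) (pow_le_pow_left₀ (norm_nonneg _) (hC t) 2) ha (hab t).1
  have key : 2 * ∫ t, ‖hm F f A B α β γ δ t‖ ∂(vm (X1 f) (X2 f)) ≤
      (∫ t, w t ∂(vm (X1 f) (X2 f))) + ∫ t, ‖hm F f A B α β γ δ t‖ ^ 2 / w t ∂(vm (X1 f) (X2 f)) := by
    rw [← integral_add i1 i2, ← integral_const_mul]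
    refine integral_mono (bh.int.norm.const_mul 2) (i1.add i2) fun t => ?_
    have h0 : 0 < w t := lt_of_lt_of_le ha (hab t).1
    have e : w t + ‖hm F f A B α β γ δ t‖ ^ 2 / w t - 2 * ‖hm F f A B α β γ δ t‖ =
        (w t - ‖hm F f A B α β γ δ t‖) ^ 2 / w t := by
      field_simp
      ring
    have : 0 ≤ (w t - ‖hm F f A B α β γ δ t‖) ^ 2 / w t := by positivity
    show 2 * ‖hm F f A B α β γ δ t‖ ≤ w t + ‖hm F f A B α β γ δ t‖ ^ 2 / w t
    linarith
  linarith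

end Pool.Agent.FPX.OM7
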