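import Mathlib
import Pool.Agent.FPX.ARX
import Pool.Agent.FPX.OM9

/-
OMX (helper11): the certificate of OM7 for another start map `Φ'`: the deviation `2 |B|²` of F54 is replaced by
`2 |Bx|²`, `Bx` a function of the state and of all first derivatives (of `ζ`, `C₃`, `S₂`, `S₀`); the inequality on
the surface; the elimination of `K` with free multipliers.
-/

open MeasureTheory Set Filter Topology Complex
open scoped ENNReal NNReal ContDiff ComplexConjugate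

noncomputable section

namespace Pool.Agent.FPX.OM7

open Pool.Agent.FPX Pool.Agent.FPX.UMP Pool.Agent.FPX.UMQ Pool.Agent.FPX.UXA Pool.Agent.EWD
open Pool.Agent.FPX.F54 (X1 X2 dX1 dX2 X_lt X_G1 X_G2 vF sF)
open Pool.Agent.FPX.S54 (YY de mS ME)
open Pool.Agent.FPX.OMB (vm vm_int vm_prob bm_ep bm_real)
open Pool.Agent.FPX.CRD (Bm)
open Pool.Agent.FPX.CST (cu du dl gv gt nu ja zt ss hh OO cj lab tt Sys)
open Pool.Agent.FPX.OMS (rF cF cF_eq Aa Ba Kc ME_vm Kc_meas Kc_le AB_eq)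
open Pool.Agent.FPX.SYS (P7 dP7 sys7 CE K2 K0)

/-- the part of type `conj K` of `∇S₂`; `S = mean (δ ε² conj K)` -/
def Sp (f : ℝ → ℝ) (A B S : ℂ) : ℂ :=
  S + conj B * mS f - 1 / (2 * (cF f : ℂ)) * (conj (YY (X1 f) (X2 f)) * A - YY (X1 f) (X2 f) * conj B) * S54.S2 f

/-- the part of type `K` of `∇S₂`; `S = mean (δ ε² K)` -/
def Sm (f : ℝ → ℝ) (A B S : ℂ) : ℂ :=
  S + conj A * mS f - 1 / (2 * (cF f : ℂ)) * (conj (YY (X1 f) (X2 f)) * B - YY (X1 f) (X2 f) * conj A) * S54.S2 f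

/-- `mean (δ ε² conj K)` in terms of the part `S` of `∇S₂` -/
def Sq (f : ℝ → ℝ) (A B S : ℂ) : ℂ :=
  S - conj B * mS f + 1 / (2 * (cF f : ℂ)) * (conj (YY (X1 f) (X2 f)) * A - YY (X1 f) (X2 f) * conj B) * S54.S2 f

/-- `mean (δ ε² K)` in terms of the part `R` of `∇S₂` -/
def Rq (f : ℝ → ℝ) (A B R : ℂ) : ℂ :=
  R - conj A * mS f + 1 / (2 * (cF f : ℂ)) * (conj (YY (X1 f) (X2 f)) * B - YY (X1 f) (X2 f) * conj A) * S54.S2 f

theorem Sq_Sp (f : ℝ → ℝ) (A B S : ℂ) : Sq f A B (Sp f A B S) = S := by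
  unfold Sq Sp
  ring

theorem Rq_Sm (f : ℝ → ℝ) (A B S : ℂ) : Rq f A B (Sm f A B S) = S := by
  unfold Rq Sm
  ring

theorem K2_vm {f : ℝ → ℝ} (hf : Ef f) (g : ℝ → ℝ) : K2 f g =
    2 * ∫ t, ((de (X1 f) (X2 f) f t : ℂ) * C54.ep (X1 f) (X2 f) t ^ 2) * (g t : ℂ) ∂(vm (X1 f) (X2 f)) := by
  have := ME_vm (X_lt hf) 2 (fun t => de (X1 f) (X2 f) f t * g t)
  push_cast at this
  unfold K2
  rw [this]
  congr 1
  refine integral_congr_ae (Eventually.of_forall fun t => ?_)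
  simp only
  ring

theorem K0_vm {f : ℝ → ℝ} (hf : Ef f) (g : ℝ → ℝ) : ((K0 f g : ℝ) : ℂ) =
    2 * ∫ t, (de (X1 f) (X2 f) f t : ℂ) * (g t : ℂ) ∂(vm (X1 f) (X2 f)) := by
  have hX := X_lt hf
  have := ME_vm hX 0 (fun t => de (X1 f) (X2 f) f t * g t)
  have e2 : ME 0 (X1 f) (X2 f) (fun t => de (X1 f) (X2 f) f t * g t) =
      ∫ t, (de (X1 f) (X2 f) f t : ℂ) * (g t : ℂ) ∂(vm (X1 f) (X2 f)) := by
    push_cast at this
    simpa using this
  have him := S54.ME_zero_im hX (fun t => de (X1 f) (X2 f) f t * g t)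
  rw [← e2]
  unfold K0
  apply Complex.ext
  · simp
  · simp [him]

/-- the two parts of a first order functional -/
theorem two_pm {X : Type*} [MeasurableSpace X] {μ : Measure X} [IsFiniteMeasure μ] {φ h k : X → ℂ}
    (bφ : Bm φ) (bh : Bm h) (bk : Bm k) (rh : ∀ x, (h x).im = 0) (rk : ∀ x, (k x).im = 0) :
    (2 * (∫ x, φ x * h x ∂μ) - I * (2 * ∫ x, φ x * k x ∂μ)) / 2 = ∫ x, φ x * conj (h x + I * k x) ∂μ ∧
      (2 * (∫ x, φ x * h x ∂μ) + I * (2 * ∫ x, φ x * k x ∂μ)) / 2 = ∫ x, φ x * (h x + I * k x) ∂μ := by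
  have rc : ∀ z : ℂ, z.im = 0 → conj z = z := fun z hz => Complex.conj_eq_iff_im.2 hz
  have s1 : ∫ x, φ x * (h x + I * k x) ∂μ = (∫ x, φ x * h x ∂μ) + I * ∫ x, φ x * k x ∂μ := by
    rw [← integral_const_mul, ← integral_add (bφ.mul bh).int ((Bm.const I).mul (bφ.mul bk)).int]
    congr 1
    funext x
    ring
  have s2 : ∫ x, φ x * conj (h x + I * k x) ∂μ = (∫ x, φ x * h x ∂μ) - I * ∫ x, φ x * k x ∂μ := by
    rw [← integral_const_mul, ← integral_sub (bφ.mul bh).int ((Bm.const I).mul (bφ.mul bk)).int]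
    congr 1
    funext x
    rw [map_add, map_mul, conj_I, rc _ (rh x), rc _ (rk x)]
    ring
  rw [s1, s2]
  constructor <;> ring

theorem bm_d2 {f : ℝ → ℝ} (hf : Ef f) :
    Bm fun t => (de (X1 f) (X2 f) f t : ℂ) * C54.ep (X1 f) (X2 f) t ^ 2 :=
  (bm_de hf).mul (bm_pow (bm_ep (X_lt hf)) 2)

theorem NS_pm {f h k : ℝ → ℝ} (hf : Ef f) (V : Var h k) :
    (NS f h - I * NS f k) / 2 = Sp f (Aa f h k) (Ba f h k)
        (∫ t, ((de (X1 f) (X2 f) f t : ℂ) * C54.ep (X1 f) (X2 f) t ^ 2) * conj (Kc h k t) ∂(vm (X1 f) (X2 f))) ∧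
      (NS f h + I * NS f k) / 2 = Sm f (Aa f h k) (Ba f h k)
        (∫ t, ((de (X1 f) (X2 f) f t : ℂ) * C54.ep (X1 f) (X2 f) t ^ 2) * Kc h k t ∂(vm (X1 f) (X2 f))) := by
  have hX := X_lt hf
  have := vm_prob hX
  obtain ⟨e1, e2⟩ := two_pm (μ := vm (X1 f) (X2 f)) (bm_d2 hf) (bm_real V.mesh V.bh) (bm_real V.mesk V.bk)
    (fun t => Complex.ofReal_im _) (fun t => Complex.ofReal_im _)
  rw [← K2_vm hf h, ← K2_vm hf k] at e1 e2
  change _ = ∫ t, ((de (X1 f) (X2 f) f t : ℂ) * C54.ep (X1 f) (X2 f) t ^ 2) * conj (Kc h k t)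
    ∂(vm (X1 f) (X2 f)) at e1
  change _ = ∫ t, ((de (X1 f) (X2 f) f t : ℂ) * C54.ep (X1 f) (X2 f) t ^ 2) * Kc h k t
    ∂(vm (X1 f) (X2 f)) at e2
  have hc : (cF f : ℂ) ≠ 0 := by
    exact_mod_cast (cF_pos hf).ne'
  have ht : ∀ v : ℂ, (((conj (YY (X1 f) (X2 f)) * v).im / (2 * cF f) : ℝ) : ℂ) =
      (conj (YY (X1 f) (X2 f)) * v - YY (X1 f) (X2 f) * conj v) / (2 * I) / (2 * cF f) := by
    intro v
    push_cast
    rw [Complex.im_eq_sub_conj]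
    simp only [map_mul, Complex.conj_conj]
  have c2 : conj (2 : ℂ) = 2 := map_ofNat _ 2
  rw [← e1, ← e2]
  unfold NS cd Sp Sm Aa Ba
  rw [ht, ht]
  simp only [map_div₀, map_add, map_sub, map_mul, conj_I, c2]
  push_cast
  constructor <;> field_simp <;> ring

theorem K0_pm {f h k : ℝ → ℝ} (hf : Ef f) (V : Var h k) :
    (((K0 f h : ℝ) : ℂ) + I * ((K0 f k : ℝ) : ℂ)) / 2 =
      ∫ t, (de (X1 f) (X2 f) f t : ℂ) * Kc h k t ∂(vm (X1 f) (X2 f)) := by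
  have hX := X_lt hf
  have := vm_prob hX
  obtain ⟨_, e2⟩ := two_pm (μ := vm (X1 f) (X2 f)) (bm_de hf) (bm_real V.mesh V.bh) (bm_real V.mesk V.bk)
    (fun t => Complex.ofReal_im _) (fun t => Complex.ofReal_im _)
  rw [K0_vm hf h, K0_vm hf k]
  exact e2

/-- the type of the deviations: functions of the state and of `A, B` (parts of `v`), `N, M` (parts of `∇C₃`), `S, R`
(parts of `∇S₂`), `D = mean (δ K)` -/
abbrev Dev := (ℝ → ℝ) → ℂ → ℂ → ℂ → ℂ → ℂ → ℂ → ℂ → ℂ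

/-- the deviation at a function `K` -/
def devK (Bx : Dev) (f : ℝ → ℝ) (K : ℝ → ℂ) (A B : ℂ) : ℂ :=
  Bx f A B (Cp f A B (∫ t, C54.ep (X1 f) (X2 f) t ^ 3 * conj (K t) ∂(vm (X1 f) (X2 f))))
    (Cm f A B (∫ t, C54.ep (X1 f) (X2 f) t ^ 3 * K t ∂(vm (X1 f) (X2 f))))
    (Sp f A B (∫ t, ((de (X1 f) (X2 f) f t : ℂ) * C54.ep (X1 f) (X2 f) t ^ 2) * conj (K t) ∂(vm (X1 f) (X2 f))))
    (Sm f A B (∫ t, ((de (X1 f) (X2 f) f t : ℂ) * C54.ep (X1 f) (X2 f) t ^ 2) * K t ∂(vm (X1 f) (X2 f))))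
    (∫ t, (de (X1 f) (X2 f) f t : ℂ) * K t ∂(vm (X1 f) (X2 f)))

/-- the certificate at one state, with the deviation `Bx` -/
def CertAtX (Bx : Dev) (W : ℝ → ℝ) (F : Cof) (μ T : ℝ) (f : ℝ → ℝ) : Prop :=
  ∀ K : ℝ → ℂ, Measurable K → (∀ t, ‖K t‖ ≤ 1) → ∀ A B : ℂ,
    A - sF f * conj B = ∫ t, C54.ep (X1 f) (X2 f) t * conj (K t) ∂(vm (X1 f) (X2 f)) →
    B - sF f * conj A = ∫ t, C54.ep (X1 f) (X2 f) t * K t ∂(vm (X1 f) (X2 f)) →
    W7 W F f * (‖A‖ ^ 2 - ‖B‖ ^ 2)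
      + 2 * (A * ∫ t, mk7 F f t * K t ∂(vm (X1 f) (X2 f))).re
      - 2 * (B * ∫ t, mk7 F f t * conj (K t) ∂(vm (X1 f) (X2 f))).re
      + bv F f A B (Cp f A B (∫ t, C54.ep (X1 f) (X2 f) t ^ 3 * conj (K t) ∂(vm (X1 f) (X2 f))))
          (Cm f A B (∫ t, C54.ep (X1 f) (X2 f) t ^ 3 * K t ∂(vm (X1 f) (X2 f))))
      + 2 * μ * ‖devK Bx f K A B‖ ^ 2 ≤ T

/-- the certificate with the deviation `Bx` -/
def Cert7X (Bx : Dev) (W : ℝ → ℝ) (F : Cof) (μ T : ℝ) : Prop := ∀ f, Ef f → CertAtX Bx W F μ T f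

/-- F54 itself -/
theorem cert7X_F54 {W : ℝ → ℝ} {F : Cof} {μ T : ℝ} :
    Cert7X (fun _ _ B _ _ _ _ _ => B) W F μ T ↔ Cert7 W F μ T := Iff.rfl

variable {n' : ℕ} {Φ' : Fin (n' + 2) → (ℝ → ℝ) → ℝ} {dΦ' : Fin (n' + 2) → (ℝ → ℝ) → (ℝ → ℝ) → ℝ} {K' L' : ℝ}
variable {F : Cof}

/-- `Bx` is the deviation of the start map `Φ'` -/
def IsDev (Φ' : Fin (n' + 2) → (ℝ → ℝ) → ℝ) (dΦ' : Fin (n' + 2) → (ℝ → ℝ) → (ℝ → ℝ) → ℝ) (Bx : Dev) : Prop :=
  ∀ f h k, Ef f → Var h k → nu (cu Φ' f) (du dΦ' f h) (du dΦ' f k) =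
    2 * ‖Bx f (Aa f h k) (Ba f h k) ((NC f h - I * NC f k) / 2) ((NC f h + I * NC f k) / 2)
      ((NS f h - I * NS f k) / 2) ((NS f h + I * NS f k) / 2)
      ((((K0 f h : ℝ) : ℂ) + I * ((K0 f k : ℝ) : ℂ)) / 2)‖ ^ 2

theorem hstX_of {Bx : Dev} (HD : IsDev Φ' dΦ' Bx) {W : ℝ → ℝ} (hW : ContDiffOn ℝ 1 W (Ioi 0)) (HF : F.Sm)
    {μ T : ℝ} (H : Cert7X Bx W F μ T) {f h k : ℝ → ℝ} (hf : Ef f) (V : Var h k) :
    dl (fun i u => fderiv ℝ (gv (gt W (G7 F)) i) u) (cu P7 f) (du dP7 f h) (du dP7 f k)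
      + dl (fun i u => fderiv ℝ (lab 3 F.b 5 6 i) u) (cu P7 f) (du dP7 f h) (du dP7 f k)
      + μ * nu (cu Φ' f) (du dΦ' f h) (du dΦ' f k) ≤ T := by
  have hu : cu P7 f ∈ OO 5 := sys7.mem hf
  have hc : 0 < cF f := cF_pos hf
  have hW' : HasDerivAt W (deriv W (cF f)) (CST.cc (cu P7 f)) := by
    rw [ccu]
    exact ((hW.contDiffAt (Ioi_mem_nhds hc)).differentiableAt one_ne_zero).hasDerivAt
  rw [CST.dl_gt hW HF.cG7 hu hW', val_G7 HF hf, val_b HF hf V, HD f h k hf V, mix hf V, jau, jab, rru, ccu]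
  obtain ⟨e1, e2⟩ := AB_eq hf V
  have := H f hf (Kc h k) (Kc_meas V) (Kc_le V) _ _ e1 e2
  unfold W7 devK at this
  rw [(NC_pm hf V).1, (NC_pm hf V).2, (NS_pm hf V).1, (NS_pm hf V).2, K0_pm hf V]
  linarith

/-- **the inequality on every surface with the deviation of the start map `Φ'`** -/
theorem raw7X (S' : Sys Φ' dΦ' K' L') {Bx : Dev} (HD : IsDev Φ' dΦ' Bx) {W : ℝ → ℝ}
    (hW : ContDiffOn ℝ 1 W (Ioi 0)) (hW0 : ContinuousOn W (Ici 0)) (HF : F.Sm) (HB : F.Bo) {μ T : ℝ}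
    (H : Cert7X Bx W F μ T) {e : ℝ} (he : 0 < e) :
    ∃ d : ℝ, 0 < d ∧ ∀ (M : Type) [MetricSpace M] [CompactSpace M] (γ : ℝ → M) (C : Calc M γ), Bd γ →
      ∀ (ρ : ℝ) (m : ℕ), 0 ≤ ρ → ρ < 1 → 2 ≤ m → (1 - ρ) * (Real.pi / 2) + 2 * (Real.pi / m) ≤ d →
        Integrable (CST.nur C fun i => pull γ ρ m (Φ' i)) C.μ ∧
        2 * Real.pi * W 0 - e + μ * ∫ o, CST.nur C (fun i => pull γ ρ m (Φ' i)) o ∂C.μ ≤ T * C.vol :=
  CST.raw_le_two sys7 S' hW hW0 HF.cG7 (fun _ hε => G7_small HB hε)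
    (fun i => CST.contDiffOn_lab HF.b 5 6 i) (fun _ hε => lab_small HB hε)
    (fun _ _ _ hf V => hstX_of HD hW HF H hf V) he

/-! ### elimination of `K` -/

/-- the combination of the functions of the certificate -/
def hmX (F : Cof) (f : ℝ → ℝ) (A B α β γ δ κ l ρ : ℂ) (t : ℝ) : ℂ :=
  hm F f A B α β γ δ t + κ * ((de (X1 f) (X2 f) f t : ℂ) * C54.ep (X1 f) (X2 f) t ^ 2)
    + l * conj ((de (X1 f) (X2 f) f t : ℂ) * C54.ep (X1 f) (X2 f) t ^ 2) + ρ * (de (X1 f) (X2 f) f t : ℂ)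

/-- the terms without `K` -/
def restX (Bx : Dev) (W : ℝ → ℝ) (F : Cof) (μ : ℝ) (f : ℝ → ℝ) (A B N M S R D α β γ δ κ l ρ : ℂ) : ℝ :=
  W7 W F f * (‖A‖ ^ 2 - ‖B‖ ^ 2) + bv F f A B N M + 2 * μ * ‖Bx f A B N M S R D‖ ^ 2
    - 2 * (conj α * conj (B - sF f * conj A) + conj β * (A - sF f * conj B)
      + conj γ * conj (Rm f A B M) + conj δ * Rp f A B N + conj κ * conj (Rq f A B R)
      + conj l * Sq f A B S + conj ρ * conj D).re

theorem bm_hmX {f : ℝ → ℝ} (hf : Ef f) (A B α β γ δ κ l ρ : ℂ) : Bm (hmX F f A B α β γ δ κ l ρ) :=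
  (((bm_hm hf A B α β γ δ).add ((Bm.const κ).mul (bm_d2 hf))).add ((Bm.const l).mul (bm_d2 hf).conj)).add
    ((Bm.const ρ).mul (bm_de hf))

/-- **elimination of `K` by the modulus** -/
theorem certAtX_mod {Bx : Dev} {W : ℝ → ℝ} {μ T : ℝ} {f : ℝ → ℝ} (hf : Ef f)
    (H : ∀ A B N M S R D : ℂ, ∃ α β γ δ κ l ρ : ℂ, restX Bx W F μ f A B N M S R D α β γ δ κ l ρ
      + 2 * ∫ t, ‖hmX F f A B α β γ δ κ l ρ t‖ ∂(vm (X1 f) (X2 f)) ≤ T) : CertAtX Bx W F μ T f := by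
  intro K hK hK1 A B hA hB
  have hX := X_lt hf
  have := vm_prob hX
  obtain ⟨E, hE⟩ : ∃ E : ℝ → ℂ, E = C54.ep (X1 f) (X2 f) := ⟨_, rfl⟩
  obtain ⟨d, hd⟩ : ∃ d : ℝ → ℂ, d = fun t => (de (X1 f) (X2 f) f t : ℂ) := ⟨_, rfl⟩
  have hEt : ∀ t, C54.ep (X1 f) (X2 f) t = E t := fun t => by rw [hE]
  have hdt : ∀ t, (de (X1 f) (X2 f) f t : ℂ) = d t := fun t => by rw [hd]
  have cd : ∀ t, conj (d t) = d t := fun t => by
    rw [hd]
    exact Complex.conj_ofReal _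
  unfold devK
  simp only [hEt, hdt] at hA hB ⊢
  set R1 : ℂ := ∫ t, E t ^ 3 * conj (K t) ∂(vm (X1 f) (X2 f)) with hR1
  set R2 : ℂ := ∫ t, E t ^ 3 * K t ∂(vm (X1 f) (X2 f)) with hR2
  set S1 : ℂ := ∫ t, (d t * E t ^ 2) * conj (K t) ∂(vm (X1 f) (X2 f)) with hS1
  set S2' : ℂ := ∫ t, (d t * E t ^ 2) * K t ∂(vm (X1 f) (X2 f)) with hS2
  set D : ℂ := ∫ t, d t * K t ∂(vm (X1 f) (X2 f)) with hD
  obtain ⟨α, β, γ, δ, κ, l, ρ, h⟩ := H A B (Cp f A B R1) (Cm f A B R2) (Sp f A B S1) (Sm f A B S2') D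
  have bE : Bm E := by rw [hE]; exact bm_ep hX
  have bE3 : Bm fun t => E t ^ 3 := bm_pow bE 3
  have bd : Bm d := by rw [hd]; exact bm_de hf
  have bd2 : Bm fun t => d t * E t ^ 2 := bd.mul (bm_pow bE 2)
  have bm : Bm (mk7 F f) := bm_mk hf
  have bK : Bm K := ⟨hK, 1, hK1⟩
  have bh := bm_hmX (F := F) hf A B α β γ δ κ l ρ
  have cj : ∀ φ : ℝ → ℂ, ∫ t, conj (φ t) ∂(vm (X1 f) (X2 f)) = conj (∫ t, φ t ∂(vm (X1 f) (X2 f))) :=
    fun φ => integral_conj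
  -- the identity
  have e : ∫ t, conj (K t) * conj (hmX F f A B α β γ δ κ l ρ t) ∂(vm (X1 f) (X2 f)) =
      conj α * conj (∫ t, E t * K t ∂(vm (X1 f) (X2 f))) + (conj β * ∫ t, E t * conj (K t) ∂(vm (X1 f) (X2 f))
      + (conj γ * conj R2 + (conj δ * R1 + (conj κ * conj S2' + (conj l * S1 + (conj ρ * conj D
      + (conj A * conj (∫ t, mk7 F f t * K t ∂(vm (X1 f) (X2 f)))
      - B * ∫ t, mk7 F f t * conj (K t) ∂(vm (X1 f) (X2 f))))))))) := by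
    have e1 : (fun t => conj (K t) * conj (hmX F f A B α β γ δ κ l ρ t)) = fun t =>
        conj α * conj (E t * K t) + (conj β * (E t * conj (K t)) + (conj γ * conj (E t ^ 3 * K t)
        + (conj δ * (E t ^ 3 * conj (K t)) + (conj κ * conj (d t * E t ^ 2 * K t)
        + (conj l * (d t * E t ^ 2 * conj (K t)) + (conj ρ * conj (d t * K t)
        + (conj A * conj (mk7 F f t * K t) - B * (mk7 F f t * conj (K t))))))))) := by
      funext t
      unfold hmX hm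
      rw [hEt, hdt]
      simp only [map_add, map_sub, map_mul, map_pow, Complex.conj_conj, cd]
      ring
    have b1 : Bm fun t => conj α * conj (E t * K t) := (Bm.const _).mul (bE.mul bK).conj
    have b2 : Bm fun t => conj β * (E t * conj (K t)) := (Bm.const _).mul (bE.mul bK.conj)
    have b3 : Bm fun t => conj γ * conj (E t ^ 3 * K t) := (Bm.const _).mul (bE3.mul bK).conj
    have b4 : Bm fun t => conj δ * (E t ^ 3 * conj (K t)) := (Bm.const _).mul (bE3.mul bK.conj)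
    have b5 : Bm fun t => conj κ * conj (d t * E t ^ 2 * K t) := (Bm.const _).mul (bd2.mul bK).conj
    have b6 : Bm fun t => conj l * (d t * E t ^ 2 * conj (K t)) := (Bm.const _).mul (bd2.mul bK.conj)
    have b7 : Bm fun t => conj ρ * conj (d t * K t) := (Bm.const _).mul (bd.mul bK).conj
    have b8 : Bm fun t => conj A * conj (mk7 F f t * K t) := (Bm.const _).mul (bm.mul bK).conj
    have b9 : Bm fun t => B * (mk7 F f t * conj (K t)) := (Bm.const _).mul (bm.mul bK.conj)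
    have i8 : Integrable (fun t => conj A * conj (mk7 F f t * K t) - B * (mk7 F f t * conj (K t)))
      (vm (X1 f) (X2 f)) := b8.int.sub b9.int
    have i7 : Integrable (fun t => conj ρ * conj (d t * K t) + (conj A * conj (mk7 F f t * K t)
      - B * (mk7 F f t * conj (K t)))) (vm (X1 f) (X2 f)) := b7.int.add i8
    have i6 : Integrable (fun t => conj l * (d t * E t ^ 2 * conj (K t)) + (conj ρ * conj (d t * K t)
      + (conj A * conj (mk7 F f t * K t) - B * (mk7 F f t * conj (K t))))) (vm (X1 f) (X2 f)) :=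
      b6.int.add i7
    have i5 : Integrable (fun t => conj κ * conj (d t * E t ^ 2 * K t)
      + (conj l * (d t * E t ^ 2 * conj (K t)) + (conj ρ * conj (d t * K t)
      + (conj A * conj (mk7 F f t * K t) - B * (mk7 F f t * conj (K t)))))) (vm (X1 f) (X2 f)) :=
      b5.int.add i6
    have i4 : Integrable (fun t => conj δ * (E t ^ 3 * conj (K t)) + (conj κ * conj (d t * E t ^ 2 * K t)
      + (conj l * (d t * E t ^ 2 * conj (K t)) + (conj ρ * conj (d t * K t)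
      + (conj A * conj (mk7 F f t * K t) - B * (mk7 F f t * conj (K t))))))) (vm (X1 f) (X2 f)) :=
      b4.int.add i5
    have i3 : Integrable (fun t => conj γ * conj (E t ^ 3 * K t) + (conj δ * (E t ^ 3 * conj (K t))
      + (conj κ * conj (d t * E t ^ 2 * K t)
      + (conj l * (d t * E t ^ 2 * conj (K t)) + (conj ρ * conj (d t * K t)
      + (conj A * conj (mk7 F f t * K t) - B * (mk7 F f t * conj (K t)))))))) (vm (X1 f) (X2 f)) :=
      b3.int.add i4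
    have i2 : Integrable (fun t => conj β * (E t * conj (K t)) + (conj γ * conj (E t ^ 3 * K t)
      + (conj δ * (E t ^ 3 * conj (K t)) + (conj κ * conj (d t * E t ^ 2 * K t)
      + (conj l * (d t * E t ^ 2 * conj (K t)) + (conj ρ * conj (d t * K t)
      + (conj A * conj (mk7 F f t * K t) - B * (mk7 F f t * conj (K t))))))))) (vm (X1 f) (X2 f)) :=
      b2.int.add i3
    rw [e1, integral_add b1.int i2, integral_add b2.int i3, integral_add b3.int i4,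
      integral_add b4.int i5, integral_add b5.int i6, integral_add b6.int i7, integral_add b7.int i8,
      integral_sub b8.int b9.int, integral_const_mul, integral_const_mul,
      integral_const_mul, integral_const_mul, integral_const_mul, integral_const_mul, integral_const_mul,
      integral_const_mul, integral_const_mul, cj, cj, cj, cj, cj]
  -- the bound
  have hb : 2 * (∫ t, conj (K t) * conj (hmX F f A B α β γ δ κ l ρ t) ∂(vm (X1 f) (X2 f))).re ≤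
      2 * ∫ t, ‖hmX F f A B α β γ δ κ l ρ t‖ ∂(vm (X1 f) (X2 f)) := by
    have h1 : ‖∫ t, conj (K t) * conj (hmX F f A B α β γ δ κ l ρ t) ∂(vm (X1 f) (X2 f))‖ ≤
        ∫ t, ‖hmX F f A B α β γ δ κ l ρ t‖ ∂(vm (X1 f) (X2 f)) := by
      refine norm_integral_le_of_norm_le bh.int.norm (Eventually.of_forall fun t => ?_)
      rw [norm_mul, Complex.norm_conj, Complex.norm_conj]
      exact mul_le_of_le_one_left (norm_nonneg _) (hK1 t)
    have h2 := Complex.re_le_norm (∫ t, conj (K t) * conj (hmX F f A B α β γ δ κ l ρ t) ∂(vm (X1 f) (X2 f)))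
    linarith
  rw [e] at hb
  unfold restX at h
  rw [Rp_Cp, Rm_Cm, Sq_Sp, Rq_Sm, hA, hB] at h
  have c1 : (conj A * conj (∫ t, mk7 F f t * K t ∂(vm (X1 f) (X2 f)))).re =
      (A * ∫ t, mk7 F f t * K t ∂(vm (X1 f) (X2 f))).re := by
    rw [← map_mul, Complex.conj_re]
  simp only [Complex.add_re, Complex.sub_re] at hb h
  rw [c1] at hb
  linarith

/-- **elimination of `K` by a weight** -/
theorem certAtX_wt {Bx : Dev} {W : ℝ → ℝ} {μ T : ℝ} {f : ℝ → ℝ} (hf : Ef f)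
    (H : ∀ A B N M S R D : ℂ, ∃ α β γ δ κ l ρ : ℂ, ∃ w : ℝ → ℝ, Measurable w ∧
      (∃ a b : ℝ, 0 < a ∧ ∀ t, a ≤ w t ∧ w t ≤ b) ∧
      restX Bx W F μ f A B N M S R D α β γ δ κ l ρ + (∫ t, w t ∂(vm (X1 f) (X2 f)))
        + ∫ t, ‖hmX F f A B α β γ δ κ l ρ t‖ ^ 2 / w t ∂(vm (X1 f) (X2 f)) ≤ T) :
    CertAtX Bx W F μ T f := by
  refine certAtX_mod hf fun A B N M S R D => ?_
  obtain ⟨α, β, γ, δ, κ, l, ρ, w, hw, ⟨a, b, ha, hab⟩, h⟩ := H A B N M S R D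
  refine ⟨α, β, γ, δ, κ, l, ρ, ?_⟩
  have hX := X_lt hf
  have := vm_prob hX
  have bh := bm_hmX (F := F) hf A B α β γ δ κ l ρ
  obtain ⟨C, hC⟩ := bh.bdd
  have i1 : Integrable w (vm (X1 f) (X2 f)) := by
    refine Integrable.of_bound hw.aestronglyMeasurable (max |a| |b|) (Eventually.of_forall fun t => ?_)
    rw [Real.norm_eq_abs]
    exact abs_le_max_abs_abs (hab t).1 (hab t).2
  have i2 : Integrable (fun t => ‖hmX F f A B α β γ δ κ l ρ t‖ ^ 2 / w t) (vm (X1 f) (X2 f)) := by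
    refine Integrable.of_bound ((bh.meas.norm.pow_const 2).div hw).aestronglyMeasurable (C ^ 2 / a)
      (Eventually.of_forall fun t => ?_)
    have h0 : 0 < w t := lt_of_lt_of_le ha (hab t).1
    rw [Real.norm_eq_abs, abs_of_nonneg (by positivity)]
    exact div_le_div₀ (sq_nonneg _) (pow_le_pow_left₀ (norm_nonneg _) (hC t) 2) ha (hab t).1
  have key : 2 * ∫ t, ‖hmX F f A B α β γ δ κ l ρ t‖ ∂(vm (X1 f) (X2 f)) ≤
      (∫ t, w t ∂(vm (X1 f) (X2 f))) + ∫ t, ‖hmX F f A B α β γ δ κ l ρ t‖ ^ 2 / w t ∂(vm (X1 f) (X2 f)) := by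
    rw [← integral_add i1 i2, ← integral_const_mul]
    refine integral_mono (bh.int.norm.const_mul 2) (i1.add i2) fun t => ?_
    have h0 : 0 < w t := lt_of_lt_of_le ha (hab t).1
    have e : w t + ‖hmX F f A B α β γ δ κ l ρ t‖ ^ 2 / w t - 2 * ‖hmX F f A B α β γ δ κ l ρ t‖ =
        (w t - ‖hmX F f A B α β γ δ κ l ρ t‖) ^ 2 / w t := by
      field_simp
      ring
    have : 0 ≤ (w t - ‖hmX F f A B α β γ δ κ l ρ t‖) ^ 2 / w t := by positivity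
    show 2 * ‖hmX F f A B α β γ δ κ l ρ t‖ ≤ w t + ‖hmX F f A B α β γ δ κ l ρ t‖ ^ 2 / w t
    linarith
  linarith

end Pool.Agent.FPX.OM7
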