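import Mathlib
import Pool.Agent.FPX.KENK
import Pool.Agent.FPX.FAC0

/-
FAC3 (helper58): the assembly. `StartPh φ X c₀`: near minimal metrics of area below `2 π` carry an odd map of
degree one of the class `c₀` with `∫ φ(ν) < X + e`. `Closing`: every admissible pair is good, with
tolerances which do not depend on the surface. `close_of_closing`: the sharp closing statement.
-/

open MeasureTheory Set Filter Topology
open scoped ENNReal NNReal

noncomputable section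

namespace Pool.Agent.FPX

open Pool.Agent.EWD Pool.Agent.FPM

/-- the start map for the penalty `φ` -/
def StartPh (φ : ℝ → ℝ) (Ee X c₀ : ℝ) : Prop :=
  ∀ e : ℝ, 0 < e → ∃ ε : ℝ, 0 < ε ∧ ∀ (M : Type) [MetricSpace M] [CompactSpace M] [Nonempty M]
    (γ : ℝ → M) (C : Calc M γ), NearM C ε → C.vol < 2 * Real.pi →
    ∃ U : Fin 3 → M → ℝ, KY C 2 Ee U (fun _ => c₀) ∧ ∫ o, jac C U o ∂C.μ = 2 * Real.pi ∧
      Ph C φ U < X + e

theorem StartPh.mono {φ : ℝ → ℝ} {Ee X X' c₀ : ℝ} (h : StartPh φ Ee X c₀) (hX : X ≤ X') :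
    StartPh φ Ee X' c₀ := by
  intro e he
  obtain ⟨ε, hε, h⟩ := h e he
  refine ⟨ε, hε, fun M _ _ _ γ C hC hv => ?_⟩
  obtain ⟨U, h1, h2, h3⟩ := h M γ C hC hv
  exact ⟨U, h1, h2, by linarith⟩

/-- the start map in the class `2, E` -/
def StartE (Ee X c₀ : ℝ) : Prop := StartPh (fun x => x) Ee X c₀

theorem Start.toE {X c₀ : ℝ} (h : Start X c₀) : StartE 1 X c₀ := h

/-- the start map for the penalty `φ`, if `φ(x) ≤ m x` on the range of `ν` -/
theorem StartE.ph {φ : ℝ → ℝ} {Ee X c₀ m : ℝ} (h : StartE Ee X c₀) (hφ : Continuous φ) (hm : 0 < m)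
    (hle : ∀ x, 0 ≤ x → x ≤ 2 * Real.exp c₀ ^ 2 → φ x ≤ m * x) : StartPh φ Ee (m * X) c₀ := by
  intro e he
  obtain ⟨ε, hε, h⟩ := h (e / m) (by positivity)
  refine ⟨ε, hε, fun M _ _ _ γ C hC hv => ?_⟩
  obtain ⟨U, h1, h2, h3⟩ := h M γ C hC hv
  refine ⟨U, h1, h2, ?_⟩
  have i1 : Integrable (fun o => φ (nuC C U o)) C.μ := nuC_cint C h1.sph.lip hφ
  have i2 : Integrable (fun o => nuC C U o) C.μ := nuC_cint C h1.sph.lip continuous_id
  have h4 : Ph C φ U ≤ m * ∫ o, nuC C U o ∂C.μ := by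
    rw [← integral_const_mul]
    refine integral_mono_ae i1 (i2.const_mul m) ?_
    filter_upwards [h1.inW] with o ho
    exact hle _ (nuv_nonneg _ _ _) (nu_le_of_InW h1.sph ho)
  have h3' : ∫ o, nuC C U o ∂C.μ < X + e / m := h3
  have h5 : m * ∫ o, nuC C U o ∂C.μ < m * (X + e / m) := mul_lt_mul_of_pos_left h3' hm
  have h6 : m * (X + e / m) = m * X + e := by
    field_simp
  linarith

/-- the start map for a penalty which is the identity on the range of `ν` -/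
theorem StartE.ph_id {φ : ℝ → ℝ} {Ee X c₀ : ℝ} (h : StartE Ee X c₀) (hφ : Continuous φ)
    (hle : ∀ x, 0 ≤ x → x ≤ 2 * Real.exp c₀ ^ 2 → φ x = x) : StartPh φ Ee X c₀ := by
  have := h.ph hφ one_pos (fun x h0 h1 => by rw [hle x h0 h1, one_mul])
  rwa [one_mul] at this

/-- **every admissible pair is good**; `B` and `ε₂` do not depend on the surface -/
def Closing (φ φ' Wm G G' : ℝ → ℝ) (κ Ee c₀ X σ : ℝ) : Prop :=
  ∃ B ε₂ : ℝ, 0 < B ∧ 0 < ε₂ ∧ ∀ (M : Type) [MetricSpace M] [CompactSpace M] (γ : ℝ → M)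
    (C : Calc M γ), Bd γ → RegAE C → C.vol < 2 * Real.pi → ∀ ε δ : ℝ, 0 ≤ ε → ε ≤ ε₂ → 0 < δ →
    128 * B * ε ≤ δ → IsopO C κ ε → ∀ (εA cm c : ℝ) (v : Fin 3 → M → ℝ),
    AdmK C φ G Ee c₀ X εA cm c v → Good C φ' Wm κ (G' c) Ee c δ ε σ v

/-- **assembly** -/
theorem close_of_closing {φ φ' Wm G G' : ℝ → ℝ} {sφ Lφ κM LG κ m Ee c₀ X₀ X σ : ℝ} (hE : 1 ≤ Ee)
    (P : Pen φ φ' sφ Lφ) (hWm0 : ∀ x, 0 ≤ x → 0 ≤ Wm x) (hWmm : ∀ x y, 0 ≤ x → x ≤ y → Wm x ≤ Wm y)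
    (hG : Cost G G' c₀ κM LG) (hκ : 0 < κ) (hm : 0 < m) (hc₀ : 0 < c₀) (hσ0 : 0 < σ) (hσ : σ < 1)
    (hX0 : 0 < X) (hX : X < 2 * Real.pi)
    (hIso : ∀ (M : Type) [MetricSpace M] [CompactSpace M] (γ : ℝ → M) (C : Calc M γ) (ε : ℝ), 0 < ε →
      NearM C ε → C.vol < 2 * Real.pi → IsopO C κ (m * ε))
    (hS : StartPh φ Ee X₀ c₀) (hXX : X₀ < X) (hC : Closing φ φ' Wm G G' κ Ee c₀ X σ) :
    ∀ δ : ℝ, 0 < δ → Close (2 * Real.pi - δ) := by
  intro δ hδ
  have hpi := Real.pi_pos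
  obtain ⟨ε₁, hε₁, hK⟩ := kend_K P hWm0 hWmm (V := 2 * Real.pi) hE hG hκ (by positivity) hc₀ hσ0 hσ hX0 hX
    (εA := 1) one_pos hδ
  obtain ⟨εS, hεS, hS⟩ := hS (X - X₀) (by linarith)
  obtain ⟨B, ε₂, hB, hε₂, hC⟩ := hC
  set η := min ε₁ (min ε₂ (δ / (1024 * B))) with hη
  have hη0 : 0 < η := lt_min hε₁ (lt_min hε₂ (by positivity))
  refine Close.of_lt (by linarith) ⟨min εS (η / m), lt_min hεS (by positivity), ?_⟩
  intro M _ _ _ γ C hN hv
  obtain ⟨U, hU, hJ, hPh⟩ := hS M γ C (NearM.mono hN (min_le_left _ _)) hv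
  have hm1 : m * min εS (η / m) ≤ η := by
    have := mul_le_mul_of_nonneg_left (min_le_right εS (η / m)) hm.le
    rwa [mul_div_cancel₀ _ hm.ne'] at this
  have hmp : 0 < min εS (η / m) := lt_min hεS (by positivity)
  have hI := hIso M γ C _ hmp hN hv
  have h1 : m * min εS (η / m) ≤ ε₁ := hm1.trans (min_le_left _ _)
  have h2 : m * min εS (η / m) ≤ ε₂ := hm1.trans ((min_le_right _ _).trans (min_le_left _ _))
  have h3 : m * min εS (η / m) ≤ δ / (1024 * B) :=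
    hm1.trans ((min_le_right _ _).trans (min_le_right _ _))
  have h4 : 128 * B * (m * min εS (η / m)) ≤ δ / 8 := by
    have h5 : 128 * B * (m * min εS (η / m)) ≤ 128 * B * (δ / (1024 * B)) :=
      mul_le_mul_of_nonneg_left h3 (by positivity)
    have h6 : 128 * B * (δ / (1024 * B)) = δ / 8 := by
      field_simp
      norm_num
    linarith
  have key := hK M γ C hN.bd hN.regae hv.le (m * min εS (η / m)) (by positivity) h1 hI U hU hJ
    (by linarith) (fun c v hA => hC M γ C hN.bd hN.regae hv (m * min εS (η / m)) (δ / 8) (by positivity)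
      h2 (by positivity) h4 hI _ _ c v hA)
  linarith

end Pool.Agent.FPX
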