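import Mathlib
import Pool.Agent.FPX.UXA
import Pool.Agent.FPX.UMH

/-
XCO (helper76): the start map. From a universal map `(X, Y)` with values in the open disc one gets, for
all fine parameters `ρ`, `n`, an odd Lipschitz map `F` of the surface into the sphere with `∫ J_F = 2π`
that is EXACTLY the map `(X, Y, τ √(1 - X² - Y²))` outside of a thin neighbourhood of the boundary curve
of small area.
-/

open MeasureTheory Set Filter Topology
open scoped ENNReal NNReal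

noncomputable section

namespace Pool.Agent.FPX.XCO

open Pool.Agent.FPX Pool.Agent.FPX.UMP Pool.Agent.FPX.UMQ Pool.Agent.EWD Pool.Agent.FPX.UXA

open Real

/-- the third coordinate -/
def Cf (X Y : (ℝ → ℝ) → ℝ) (f : ℝ → ℝ) : ℝ := √(1 - X f ^ 2 - Y f ^ 2)

/-- the derivative of the third coordinate -/
def dC (X Y : (ℝ → ℝ) → ℝ) (dX dY : (ℝ → ℝ) → (ℝ → ℝ) → ℝ) (f h : ℝ → ℝ) : ℝ :=
  -(X f * dX f h + Y f * dY f h) / Cf X Y f

section
variable {X Y : (ℝ → ℝ) → ℝ} {dX dY : (ℝ → ℝ) → (ℝ → ℝ) → ℝ} {K L : ℝ}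

theorem in_pos (U : UMap X Y dX dY K L) {f : ℝ → ℝ} (hf : Ef f) : 0 < 1 - X f ^ 2 - Y f ^ 2 := by
  have := U.disc f hf
  linarith

theorem c_pos (U : UMap X Y dX dY K L) {f : ℝ → ℝ} (hf : Ef f) : 0 < Cf X Y f :=
  sqrt_pos.2 (in_pos U hf)

theorem c_sq (U : UMap X Y dX dY K L) {f : ℝ → ℝ} (hf : Ef f) : Cf X Y f ^ 2 = 1 - X f ^ 2 - Y f ^ 2 :=
  sq_sqrt (in_pos U hf).le

theorem fC (U : UMap X Y dX dY K L) : Fn (Cf X Y) (dC X Y dX dY) := by
  refine ⟨fun l φ f h1 h2 h3 => ?_, fun φ h x b h1 h2 h3 => ?_⟩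
  · have a := U.fX.tds l φ f h1 h2 h3
    have b := U.fY.tds l φ f h1 h2 h3
    exact ((tendsto_const_nhds.sub (a.pow 2)).sub (b.pow 2)).sqrt
  · have a := U.fX.der φ h x b h1 h2 h3
    have b := U.fY.der φ h x b h1 h2 h3
    have hp := in_pos U h1.ef
    have h4 : HasDerivAt (fun s => 1 - X (φ s) ^ 2 - Y (φ s) ^ 2)
        (-(2 * (X (φ x) * dX (φ x) h + Y (φ x) * dY (φ x) h))) x := by
      refine (((a.pow 2).const_sub 1).sub (b.pow 2)).congr_deriv ?_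
      push_cast
      ring
    have h5 := h4.sqrt hp.ne'
    refine h5.congr_deriv ?_
    unfold dC Cf
    have hs : 0 < √(1 - X (φ x) ^ 2 - Y (φ x) ^ 2) := sqrt_pos.2 hp
    field_simp

theorem bd3 (U : UMap X Y dX dY K L) {f h : ℝ → ℝ} {D : ℝ} (hf : Ef f) (hm : Measurable h)
    (hD : 0 ≤ D) (hh : ∀ t, |h t| ≤ D) :
    dX f h ^ 2 + dY f h ^ 2 + dC X Y dX dY f h ^ 2 ≤ (L * D) ^ 2 := by
  have h1 := U.bd f h D hf hm hD hh
  have h2 := in_pos U hf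
  have h3 := c_sq U hf
  have h4 := c_pos U hf
  unfold dC
  rw [div_pow, neg_sq, h3]
  have e : dX f h ^ 2 + dY f h ^ 2 + (X f * dX f h + Y f * dY f h) ^ 2 / (1 - X f ^ 2 - Y f ^ 2) =
      ((1 - X f ^ 2 - Y f ^ 2) * (dX f h ^ 2 + dY f h ^ 2) + (X f * dX f h + Y f * dY f h) ^ 2) /
        (1 - X f ^ 2 - Y f ^ 2) := by
    field_simp
  rw [e, div_le_iff₀ h2]
  linarith

/-- linear combinations -/
theorem f3 (U : UMap X Y dX dY K L) (p q r : ℝ) : Fn (fun f => p * X f + q * Y f + r * Cf X Y f)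
    (fun f h => p * dX f h + q * dY f h + r * dC X Y dX dY f h) := by
  have hC := fC U
  refine ⟨fun l φ f h1 h2 h3 => ?_, fun φ h x b h1 h2 h3 => ?_⟩
  · exact (((U.fX.tds l φ f h1 h2 h3).const_mul p).add ((U.fY.tds l φ f h1 h2 h3).const_mul q)).add
      ((hC.tds l φ f h1 h2 h3).const_mul r)
  · exact (((U.fX.der φ h x b h1 h2 h3).const_mul p).add ((U.fY.der φ h x b h1 h2 h3).const_mul q)).add
      ((hC.der φ h x b h1 h2 h3).const_mul r)

theorem b3 (U : UMap X Y dX dY K L) {p q r : ℝ} (h1 : p ^ 2 + q ^ 2 + r ^ 2 = 1) (m : ℝ) :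
    Bdd (fun f h => p * dX f h + q * dY f h + r * dC X Y dX dY f h) m L := by
  intro f h D hf _ hm hD hh
  have h2 := bd3 U hf hm hD hh
  refine abs_le_of_sq_le_sq ?_ (mul_nonneg U.L0 hD)
  refine le_trans ?_ h2
  change (p * dX f h + q * dY f h + r * dC X Y dX dY f h) ^ 2 ≤ _
  generalize dX f h = a
  generalize dY f h = b
  generalize dC X Y dX dY f h = c
  have e : a ^ 2 + b ^ 2 + c ^ 2 - (p * a + q * b + r * c) ^ 2 =
      (p * b - q * a) ^ 2 + (p * c - r * a) ^ 2 + (q * c - r * b) ^ 2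
        + (1 - (p ^ 2 + q ^ 2 + r ^ 2)) * (a ^ 2 + b ^ 2 + c ^ 2) := by ring
  rw [h1] at e
  nlinarith [sq_nonneg (p * b - q * a), sq_nonneg (p * c - r * a), sq_nonneg (q * c - r * b)]

/-- **the Lipschitz bound of the vector** -/
theorem vec_lip (U : UMap X Y dX dY K L) {m : ℝ} (hm0 : 0 ≤ m) (hm : m < π / 2)
    {f g : ℝ → ℝ} (hf : Ef f) (hg : Ef g) (hfm : ∀ t, |f t| ≤ m) (hgm : ∀ t, |g t| ≤ m)
    {D : ℝ} (hD : 0 ≤ D) (h : ∀ t, |f t - g t| ≤ D) :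
    (X f - X g) ^ 2 + (Y f - Y g) ^ 2 + (Cf X Y f - Cf X Y g) ^ 2 ≤ (L * D) ^ 2 := by
  set a := X f - X g with ha
  set b := Y f - Y g with hb
  set c := Cf X Y f - Cf X Y g with hc
  set N := √(a ^ 2 + b ^ 2 + c ^ 2) with hN
  have hN2 : N ^ 2 = a ^ 2 + b ^ 2 + c ^ 2 := sq_sqrt (by positivity)
  rcases (sqrt_nonneg (a ^ 2 + b ^ 2 + c ^ 2)).eq_or_lt with h0 | h0
  · have : a ^ 2 + b ^ 2 + c ^ 2 = 0 := by
      rw [← hN2, hN, ← h0]
      norm_num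
    rw [this]
    positivity
  · rw [← hN] at h0
    have h1 : (a / N) ^ 2 + (b / N) ^ 2 + (c / N) ^ 2 = 1 := by
      rw [div_pow, div_pow, div_pow, ← add_div, ← add_div, ← hN2]
      exact div_self (by positivity)
    have h2 := (f3 U (a / N) (b / N) (c / N)).lip (b3 U h1 m) hm0 hm hf hg hfm hgm hD h
    have e : a / N * X f + b / N * Y f + c / N * Cf X Y f - (a / N * X g + b / N * Y g + c / N * Cf X Y g)
        = N := by
      have e1 : a / N * X f + b / N * Y f + c / N * Cf X Y f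
          - (a / N * X g + b / N * Y g + c / N * Cf X Y g) =
          (a * (X f - X g) + b * (Y f - Y g) + c * (Cf X Y f - Cf X Y g)) / N := by ring
      rw [e1, ← ha, ← hb, ← hc, div_eq_iff h0.ne']
      linear_combination -hN2
    rw [e, abs_of_pos h0] at h2
    rw [← hN2]
    exact pow_le_pow_left₀ h0.le h2 2

end

/-- normalisation of vectors -/
theorem nrm3 {a b c a' b' c' n n' r D : ℝ} (hr : 0 < r) (hn : r ≤ n) (hn' : r ≤ n')
    (e : n ^ 2 = a ^ 2 + b ^ 2 + c ^ 2) (e' : n' ^ 2 = a' ^ 2 + b' ^ 2 + c' ^ 2)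
    (hD : (a - a') ^ 2 + (b - b') ^ 2 + (c - c') ^ 2 ≤ D) :
    (a / n - a' / n') ^ 2 + (b / n - b' / n') ^ 2 + (c / n - c' / n') ^ 2 ≤ D / r ^ 2 := by
  have h1 : 0 < n := hr.trans_le hn
  have h2 : 0 < n' := hr.trans_le hn'
  have hD0 : 0 ≤ D := le_trans (by positivity) hD
  have key : n * n' * ((a / n - a' / n') ^ 2 + (b / n - b' / n') ^ 2 + (c / n - c' / n') ^ 2) =
      (a - a') ^ 2 + (b - b') ^ 2 + (c - c') ^ 2 - (n - n') ^ 2 := by
    have t : ∀ u v : ℝ, (u / n - v / n') ^ 2 = u ^ 2 / n ^ 2 - 2 * u * v / (n * n') + v ^ 2 / n' ^ 2 := by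
      intro u v
      field_simp
      ring
    rw [t, t, t]
    have e1 : a ^ 2 / n ^ 2 - 2 * a * a' / (n * n') + a' ^ 2 / n' ^ 2
        + (b ^ 2 / n ^ 2 - 2 * b * b' / (n * n') + b' ^ 2 / n' ^ 2)
        + (c ^ 2 / n ^ 2 - 2 * c * c' / (n * n') + c' ^ 2 / n' ^ 2) =
        (a ^ 2 + b ^ 2 + c ^ 2) / n ^ 2 + (a' ^ 2 + b' ^ 2 + c' ^ 2) / n' ^ 2
          - 2 * (a * a' + b * b' + c * c') / (n * n') := by ring
    rw [e1, ← e, ← e', div_self (by positivity), div_self (by positivity)]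
    field_simp
    linear_combination e + e'
  have h3 : n * n' * ((a / n - a' / n') ^ 2 + (b / n - b' / n') ^ 2 + (c / n - c' / n') ^ 2) ≤ D := by
    rw [key]
    nlinarith [sq_nonneg (n - n')]
  rw [le_div_iff₀ (by positivity)]
  have h4 : r ^ 2 ≤ n * n' := by nlinarith
  have h5 : 0 ≤ (a / n - a' / n') ^ 2 + (b / n - b' / n') ^ 2 + (c / n - c' / n') ^ 2 := by positivity
  nlinarith [mul_le_mul_of_nonneg_left h4 h5]

/-- derivatives of vectors -/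
theorem lim3 {F W : Fin 3 → ℝ → ℝ} {f w : Fin 3 → ℝ} {κ : ℝ}
    (hF : ∀ i, HasDerivAt (F i) (f i) 0) (hW : ∀ i, HasDerivAt (W i) (w i) 0)
    (h : ∀ s, (F 0 s - F 0 0) ^ 2 + (F 1 s - F 1 0) ^ 2 + (F 2 s - F 2 0) ^ 2 ≤
      κ * ((W 0 s - W 0 0) ^ 2 + (W 1 s - W 1 0) ^ 2 + (W 2 s - W 2 0) ^ 2)) :
    f 0 ^ 2 + f 1 ^ 2 + f 2 ^ 2 ≤ κ * (w 0 ^ 2 + w 1 ^ 2 + w 2 ^ 2) := by
  have tF : ∀ i, Tendsto (slope (F i) 0) (𝓝[≠] 0) (𝓝 (f i)) := fun i =>
    hasDerivAt_iff_tendsto_slope.1 (hF i)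
  have tW : ∀ i, Tendsto (slope (W i) 0) (𝓝[≠] 0) (𝓝 (w i)) := fun i =>
    hasDerivAt_iff_tendsto_slope.1 (hW i)
  have t1 := (((tF 0).pow 2).add ((tF 1).pow 2)).add ((tF 2).pow 2)
  have t2 := ((((tW 0).pow 2).add ((tW 1).pow 2)).add ((tW 2).pow 2)).const_mul κ
  refine le_of_tendsto_of_tendsto t1 t2 ?_
  filter_upwards [self_mem_nhdsWithin] with s hs
  have hs0 : s ≠ 0 := hs
  have sl : ∀ G : ℝ → ℝ, slope G 0 s ^ 2 = (G s - G 0) ^ 2 / s ^ 2 := by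
    intro G
    rw [slope_def_field, sub_zero, div_pow]
  rw [sl, sl, sl, sl, sl, sl, ← add_div, ← add_div, ← add_div, ← add_div, mul_div_assoc']
  have : 0 < s ^ 2 := by positivity
  exact div_le_div_of_nonneg_right (h s) this.le

/-- derivatives of a function with a bound of the increments -/
theorem lim1 {u v w : ℝ → ℝ} {a b c κ : ℝ} (hu : HasDerivAt u a 0) (hv : HasDerivAt v b 0)
    (hw : HasDerivAt w c 0) (h : ∀ s, |u s - u 0| ≤ |v s - v 0| + κ * |w s - w 0|) :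
    |a| ≤ |b| + κ * |c| := by
  have t1 := (hasDerivAt_iff_tendsto_slope.1 hu).abs
  have t2 := (hasDerivAt_iff_tendsto_slope.1 hv).abs.add
    ((hasDerivAt_iff_tendsto_slope.1 hw).abs.const_mul κ)
  refine le_of_tendsto_of_tendsto t1 t2 ?_
  filter_upwards [self_mem_nhdsWithin] with s hs
  have hs0 : s ≠ 0 := hs
  have sl : ∀ G : ℝ → ℝ, |slope G 0 s| = |G s - G 0| / |s| := by
    intro G
    rw [slope_def_field, sub_zero, abs_div]
  rw [sl, sl, sl, mul_div_assoc', ← add_div]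
  exact div_le_div_of_nonneg_right (h s) (abs_nonneg _)

variable {M : Type} [MetricSpace M] {γ : ℝ → M}

/-- the cut-off function near the curve -/
def chi (γ : ℝ → M) (d : ℝ) (x : M) : ℝ := max 0 (1 - Metric.infDist x (range γ) / d)

theorem chi_nonneg (d : ℝ) (x : M) : 0 ≤ chi γ d x := le_max_left _ _

theorem chi_le {d : ℝ} (hd : 0 < d) (x : M) : chi γ d x ≤ 1 := by
  unfold chi
  refine max_le zero_le_one ?_
  have : 0 ≤ Metric.infDist x (range γ) / d := div_nonneg Metric.infDist_nonneg hd.le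
  linarith

theorem chi_gam {d : ℝ} (t : ℝ) : chi γ d (γ t) = 1 := by
  unfold chi
  rw [Metric.infDist_zero_of_mem (mem_range_self t)]
  simp

theorem chi_far {d : ℝ} (hd : 0 < d) {x : M} (h : d ≤ Metric.infDist x (range γ)) : chi γ d x = 0 := by
  unfold chi
  apply max_eq_left
  have := (one_le_div hd).2 h
  linarith

theorem chi_sub {d : ℝ} (hd : 0 < d) (x y : M) : |chi γ d x - chi γ d y| ≤ dist x y / d := by
  unfold chi
  rw [max_comm 0, max_comm 0]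
  refine (abs_max_sub_max_le_abs _ _ _).trans ?_
  have e : 1 - Metric.infDist x (range γ) / d - (1 - Metric.infDist y (range γ) / d) =
      -((Metric.infDist x (range γ) - Metric.infDist y (range γ)) / d) := by ring
  rw [e, abs_neg, abs_div, abs_of_pos hd]
  refine div_le_div_of_nonneg_right ?_ hd.le
  have := (Metric.lipschitz_infDist_pt (range γ)).dist_le_mul x y
  simpa [Real.dist_eq] using this

theorem chi_lip {d : ℝ} (hd : 0 < d) : LipschitzWith (toNNReal (1 / d)) (chi γ d) := by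
  refine LipschitzWith.of_dist_le_mul fun x y => ?_
  rw [Real.dist_eq, Real.coe_toNNReal _ (by positivity)]
  refine (chi_sub hd x y).trans (le_of_eq ?_)
  ring

/-- the third coordinate before normalisation -/
def zz (γ : ℝ → M) (η d : ℝ) (c : M → ℝ) (x : M) : ℝ := max 0 (c x - η * chi γ d x)

theorem zz_nonneg (η d : ℝ) (c : M → ℝ) (x : M) : 0 ≤ zz γ η d c x := le_max_left _ _

theorem zz_le {η d : ℝ} (hη : 0 ≤ η) {c : M → ℝ} {x : M} (hc : 0 ≤ c x) : zz γ η d c x ≤ c x := by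
  unfold zz
  refine max_le hc ?_
  have := mul_nonneg hη (chi_nonneg (γ := γ) d x)
  linarith

theorem zz_ge {η d : ℝ} (hη : 0 ≤ η) (hd : 0 < d) (c : M → ℝ) (x : M) : c x - η ≤ zz γ η d c x := by
  unfold zz
  refine le_trans ?_ (le_max_right _ _)
  have := mul_le_mul_of_nonneg_left (chi_le (γ := γ) hd x) hη
  linarith

theorem zz_sub {η d : ℝ} (hη : 0 ≤ η) (c : M → ℝ) (x y : M) :
    |zz γ η d c x - zz γ η d c y| ≤ |c x - c y| + η * |chi γ d x - chi γ d y| := by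
  unfold zz
  rw [max_comm 0, max_comm 0]
  refine (abs_max_sub_max_le_abs _ _ _).trans ?_
  have e : c x - η * chi γ d x - (c y - η * chi γ d y) = (c x - c y) + -(η * (chi γ d x - chi γ d y)) := by
    ring
  rw [e]
  refine (abs_add_le _ _).trans ?_
  rw [abs_neg, abs_mul, abs_of_nonneg hη]

theorem zz_far {η d : ℝ} (hd : 0 < d) {c : M → ℝ} {x : M} (hc : 0 ≤ c x)
    (h : d ≤ Metric.infDist x (range γ)) : zz γ η d c x = c x := by
  unfold zz
  rw [chi_far hd h, mul_zero, sub_zero]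
  exact max_eq_right hc

theorem zz_gam {η d : ℝ} {c : M → ℝ} {t : ℝ} (h : c (γ t) ≤ η) : zz γ η d c (γ t) = 0 := by
  unfold zz
  rw [chi_gam, mul_one]
  apply max_eq_left
  linarith

/-- the vector before normalisation -/
def W3 (γ : ℝ → M) (τ η d : ℝ) (a b c : M → ℝ) : Fin 3 → M → ℝ := ![a, b, fun x => τ * zz γ η d c x]

/-- its norm -/
def N3 (γ : ℝ → M) (η d : ℝ) (a b c : M → ℝ) (x : M) : ℝ := √(a x ^ 2 + b x ^ 2 + zz γ η d c x ^ 2)

/-- the normalised map -/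
def F3 (γ : ℝ → M) (τ η d : ℝ) (a b c : M → ℝ) (k : Fin 3) (x : M) : ℝ :=
  W3 γ τ η d a b c k x / N3 γ η d a b c x

section
variable {a b c : M → ℝ} {τ η d L : ℝ}

theorem n3_ge (hη : 0 ≤ η) (hη1 : η ≤ 1) (hd : 0 < d) {x : M} (hc : 0 ≤ c x)
    (hu : a x ^ 2 + b x ^ 2 + c x ^ 2 = 1) :
    1 - 2 * η ≤ a x ^ 2 + b x ^ 2 + zz γ η d c x ^ 2 := by
  have hc1 : c x ≤ 1 := by nlinarith [sq_nonneg (a x), sq_nonneg (b x)]
  have hz := zz_ge (γ := γ) hη hd c x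
  have hz0 := zz_nonneg (γ := γ) η d c x
  rcases le_total (c x) η with h | h
  · nlinarith
  · nlinarith [mul_nonneg hη (sub_nonneg.2 hc1), pow_le_pow_left₀ (sub_nonneg.2 h) hz 2]

theorem n3_pos (hη : 0 ≤ η) (hη1 : η < 1 / 2) (hd : 0 < d) {x : M} (hc : 0 ≤ c x)
    (hu : a x ^ 2 + b x ^ 2 + c x ^ 2 = 1) : 0 < N3 γ η d a b c x :=
  sqrt_pos.2 (lt_of_lt_of_le (by linarith) (n3_ge hη (by linarith) hd hc hu))

theorem n3_sq (x : M) : N3 γ η d a b c x ^ 2 = a x ^ 2 + b x ^ 2 + zz γ η d c x ^ 2 :=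
  sq_sqrt (by positivity)

theorem n3_sq' (hτ : τ ^ 2 = 1) (x : M) : N3 γ η d a b c x ^ 2 =
    W3 γ τ η d a b c 0 x ^ 2 + W3 γ τ η d a b c 1 x ^ 2 + W3 γ τ η d a b c 2 x ^ 2 := by
  rw [n3_sq]
  change _ = a x ^ 2 + b x ^ 2 + (τ * zz γ η d c x) ^ 2
  rw [mul_pow, hτ, one_mul]

theorem f3_unit (hτ : τ ^ 2 = 1) (hη : 0 ≤ η) (hη1 : η < 1 / 2) (hd : 0 < d) {x : M} (hc : 0 ≤ c x)
    (hu : a x ^ 2 + b x ^ 2 + c x ^ 2 = 1) : ∑ i, F3 γ τ η d a b c i x ^ 2 = 1 := by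
  have h1 := n3_pos (γ := γ) hη hη1 hd hc hu
  rw [Fin.sum_univ_three]
  unfold F3
  rw [div_pow, div_pow, div_pow, ← add_div, ← add_div, ← n3_sq' hτ]
  exact div_self (by positivity)

/-- increments of the normalised map -/
theorem f3_sub (hτ : τ ^ 2 = 1) (hη : 0 ≤ η) (hη1 : η < 1 / 2) (hd : 0 < d) {x y : M}
    (hcx : 0 ≤ c x) (hcy : 0 ≤ c y) (hux : a x ^ 2 + b x ^ 2 + c x ^ 2 = 1)
    (huy : a y ^ 2 + b y ^ 2 + c y ^ 2 = 1) :
    (F3 γ τ η d a b c 0 x - F3 γ τ η d a b c 0 y) ^ 2 + (F3 γ τ η d a b c 1 x - F3 γ τ η d a b c 1 y) ^ 2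
      + (F3 γ τ η d a b c 2 x - F3 γ τ η d a b c 2 y) ^ 2 ≤
    1 / (1 - 2 * η) * ((W3 γ τ η d a b c 0 x - W3 γ τ η d a b c 0 y) ^ 2
      + (W3 γ τ η d a b c 1 x - W3 γ τ η d a b c 1 y) ^ 2
      + (W3 γ τ η d a b c 2 x - W3 γ τ η d a b c 2 y) ^ 2) := by
  have hr : 0 < 1 - 2 * η := by linarith
  have hr2 : √(1 - 2 * η) ^ 2 = 1 - 2 * η := sq_sqrt hr.le
  have key := nrm3 (r := √(1 - 2 * η)) (n := N3 γ η d a b c x) (n' := N3 γ η d a b c y)
    (sqrt_pos.2 hr) (sqrt_le_sqrt (n3_ge hη (by linarith) hd hcx hux))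
    (sqrt_le_sqrt (n3_ge hη (by linarith) hd hcy huy)) (n3_sq' hτ x) (n3_sq' hτ y) le_rfl
  rw [hr2] at key
  unfold F3
  refine key.trans (le_of_eq ?_)
  ring

/-- the increments of the vector before normalisation -/
theorem w3_sub (hτ : τ ^ 2 = 1) (hη : 0 ≤ η) (hd : 0 < d) (hL : 0 ≤ L)
    (h : ∀ x y, (a x - a y) ^ 2 + (b x - b y) ^ 2 + (c x - c y) ^ 2 ≤ (L * dist x y) ^ 2) (x y : M) :
    (W3 γ τ η d a b c 0 x - W3 γ τ η d a b c 0 y) ^ 2
      + (W3 γ τ η d a b c 1 x - W3 γ τ η d a b c 1 y) ^ 2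
      + (W3 γ τ η d a b c 2 x - W3 γ τ η d a b c 2 y) ^ 2 ≤ ((L + η / d) * dist x y) ^ 2 := by
  have h1 := h x y
  change (a x - a y) ^ 2 + (b x - b y) ^ 2 + (τ * zz γ η d c x - τ * zz γ η d c y) ^ 2 ≤ _
  have h2 := zz_sub (γ := γ) (d := d) hη c x y
  have h3 := chi_sub (γ := γ) hd x y
  have hD := dist_nonneg (x := x) (y := y)
  set D := dist x y with hDd
  have h4 : |zz γ η d c x - zz γ η d c y| ≤ |c x - c y| + η / d * D := by
    refine h2.trans ?_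
    have := mul_le_mul_of_nonneg_left h3 hη
    have e : η / d * D = η * (D / d) := by ring
    rw [e]
    linarith
  have h5 : |c x - c y| ≤ L * D := abs_le_of_sq_le_sq (by nlinarith [sq_nonneg (a x - a y), sq_nonneg (b x - b y)])
    (mul_nonneg hL hD)
  have e1 : (τ * zz γ η d c x - τ * zz γ η d c y) ^ 2 = |zz γ η d c x - zz γ η d c y| ^ 2 := by
    rw [← mul_sub, mul_pow, hτ, one_mul, sq_abs]
  rw [e1]
  have h6 : |zz γ η d c x - zz γ η d c y| ^ 2 ≤ (|c x - c y| + η / d * D) ^ 2 :=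
    pow_le_pow_left₀ (abs_nonneg _) h4 2
  have h7 : 0 ≤ η / d * D := by positivity
  have e2 : (c x - c y) ^ 2 = |c x - c y| ^ 2 := (sq_abs _).symm
  rw [e2] at h1
  nlinarith [mul_le_mul_of_nonneg_right h5 h7]

theorem f3_lip (hτ : τ ^ 2 = 1) (hη : 0 ≤ η) (hη1 : η < 1 / 2) (hd : 0 < d) (hL : 0 ≤ L)
    (h : ∀ x y, (a x - a y) ^ 2 + (b x - b y) ^ 2 + (c x - c y) ^ 2 ≤ (L * dist x y) ^ 2)
    (hc : ∀ x, 0 ≤ c x) (hu : ∀ x, a x ^ 2 + b x ^ 2 + c x ^ 2 = 1) (k : Fin 3) :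
    LipschitzWith (toNNReal ((L + η / d) / √(1 - 2 * η))) (F3 γ τ η d a b c k) := by
  have hr : 0 < 1 - 2 * η := by linarith
  refine LipschitzWith.of_dist_le_mul fun x y => ?_
  rw [Real.dist_eq, Real.coe_toNNReal _ (by positivity)]
  refine abs_le_of_sq_le_sq ?_ (by positivity)
  have h1 := f3_sub (γ := γ) hτ hη hη1 hd (hc x) (hc y) (hu x) (hu y)
  have h2 := w3_sub (γ := γ) hτ hη hd hL h x y
  have h3 : ((L + η / d) / √(1 - 2 * η) * dist x y) ^ 2 = 1 / (1 - 2 * η) * ((L + η / d) * dist x y) ^ 2 := by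
    rw [mul_pow, div_pow, sq_sqrt hr.le]
    ring
  rw [h3]
  have h4 := mul_le_mul_of_nonneg_left h2 (by positivity : (0 : ℝ) ≤ 1 / (1 - 2 * η))
  have g0 := sq_nonneg (F3 γ τ η d a b c 0 x - F3 γ τ η d a b c 0 y)
  have g1 := sq_nonneg (F3 γ τ η d a b c 1 x - F3 γ τ η d a b c 1 y)
  have g2 := sq_nonneg (F3 γ τ η d a b c 2 x - F3 γ τ η d a b c 2 y)
  fin_cases k
  · change (F3 γ τ η d a b c 0 x - F3 γ τ η d a b c 0 y) ^ 2 ≤ _
    linarith
  · change (F3 γ τ η d a b c 1 x - F3 γ τ η d a b c 1 y) ^ 2 ≤ _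
    linarith
  · change (F3 γ τ η d a b c 2 x - F3 γ τ η d a b c 2 y) ^ 2 ≤ _
    linarith

/-- outside of the neighbourhood of the curve nothing is changed -/
theorem f3_far (hd : 0 < d) {x : M} (hc : 0 ≤ c x)
    (hu : a x ^ 2 + b x ^ 2 + c x ^ 2 = 1) (h : d ≤ Metric.infDist x (range γ)) (k : Fin 3) :
    F3 γ τ η d a b c k x = (![a, b, fun x => τ * c x] : Fin 3 → M → ℝ) k x := by
  have hN : N3 γ η d a b c x = 1 := by
    unfold N3
    rw [zz_far hd hc h, hu, sqrt_one]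
  unfold F3
  rw [hN, div_one]
  fin_cases k
  · rfl
  · rfl
  · change τ * zz γ η d c x = τ * c x
    rw [zz_far hd hc h]

end

end Pool.Agent.FPX.XCO
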