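import Mathlib
import Pool.Agent.FPX.EYA
import Pool.Agent.FPX.CNU

/-
XNW (helper76): the set `W` of gradients (nuclear norm `≤ Λ`, euclidean norm): reflection, convexity, flat
projection, perturbation, normalisation; the nuclear norm in terms of the complex velocities.
-/

open MeasureTheory Set Filter Topology Complex
open scoped ENNReal NNReal ComplexConjugate

noncomputable section

namespace Pool.Agent.FPX.XCO

open Pool.Agent.FPX Pool.Agent.EWD Pool.Agent.FPX.CNU

variable {Λ E : ℝ} {x y x' y' : E3}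

/-- the reflection (for `τ = -1`) in the horizontal plane -/
def rf (τ : ℝ) (x : E3) : E3 := !₂[x 0, x 1, τ * x 2]

theorem rf0 (τ : ℝ) (x : E3) : rf τ x 0 = x 0 := rfl
theorem rf1 (τ : ℝ) (x : E3) : rf τ x 1 = x 1 := rfl
theorem rf2 (τ : ℝ) (x : E3) : rf τ x 2 = τ * x 2 := rfl

theorem norm_rf {τ : ℝ} (hτ : τ ^ 2 = 1) (x : E3) : ‖rf τ x‖ ^ 2 = ‖x‖ ^ 2 := by
  rw [normsq3, normsq3, rf0, rf1, rf2, mul_pow, hτ, one_mul]

theorem norm_rf' {τ : ℝ} (hτ : τ ^ 2 = 1) (x : E3) : ‖rf τ x‖ = ‖x‖ := by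
  have h := norm_rf hτ x
  exact (sq_eq_sq₀ (norm_nonneg _) (norm_nonneg _)).1 h

theorem rf_rf {τ : ℝ} (hτ : τ ^ 2 = 1) (x : E3) : rf τ (rf τ x) = x := by
  ext i
  fin_cases i
  · rfl
  · rfl
  · change τ * (τ * x 2) = x 2
    rw [← mul_assoc, ← sq, hτ, one_mul]

theorem crs_rf {τ : ℝ} (hτ : τ ^ 2 = 1) (w y : E3) : crs (rf τ w) (rf τ y) = τ • rf τ (crs w y) := by
  ext i
  fin_cases i
  · change w 1 * (τ * y 2) - τ * w 2 * y 1 = τ * (w 1 * y 2 - w 2 * y 1)
    ring
  · change τ * w 2 * y 0 - w 0 * (τ * y 2) = τ * (w 2 * y 0 - w 0 * y 2)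
    ring
  · change w 0 * y 1 - w 1 * y 0 = τ * (τ * (w 0 * y 1 - w 1 * y 0))
    linear_combination (-(w 0 * y 1 - w 1 * y 0)) * hτ

theorem prj_rf {τ : ℝ} (hτ : τ ^ 2 = 1) (w x : E3) : prj (rf τ w) (rf τ x) = rf τ (prj w x) := by
  have e : inner ℝ (rf τ w) (rf τ x) = (inner ℝ w x : ℝ) := by
    rw [inner3, inner3, rf0, rf1, rf2, rf0, rf1, rf2]
    linear_combination w 2 * x 2 * hτ
  unfold prj
  rw [e]
  ext i
  fin_cases i
  · rfl
  · rfl
  · change τ * x 2 - inner ℝ w x * (τ * w 2) = τ * (x 2 - inner ℝ w x * w 2)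
    ring

theorem rf_add (τ : ℝ) (x y : E3) : rf τ (x + y) = rf τ x + rf τ y := by
  ext i
  fin_cases i
  · rfl
  · rfl
  · change τ * (x 2 + y 2) = τ * x 2 + τ * y 2
    ring

theorem rf_smul (τ c : ℝ) (x : E3) : rf τ (c • x) = c • rf τ x := by
  ext i
  fin_cases i
  · rfl
  · rfl
  · change τ * (c * x 2) = c * (τ * x 2)
    ring

theorem InW_rf {τ : ℝ} (hτ : τ = 1 ∨ τ = -1) (h : InW Λ E x y) : InW Λ E (rf τ x) (rf τ y) := by
  have hτ2 : τ ^ 2 = 1 := by rcases hτ with h | h <;> rw [h] <;> norm_num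
  have key : ∀ w : E3, ‖w‖ = 1 → ‖prj w (rf τ x) - crs w (rf τ y)‖ ≤ Λ ∧
      ‖prj w (rf τ x) + crs w (rf τ y)‖ ≤ Λ := by
    intro w hw
    have hw' : ‖rf τ w‖ = 1 := by rw [norm_rf' hτ2, hw]
    have e1 : prj w (rf τ x) = rf τ (prj (rf τ w) x) := by
      have := prj_rf hτ2 (rf τ w) x
      rwa [rf_rf hτ2] at this
    have e2 : crs w (rf τ y) = rf τ (τ • crs (rf τ w) y) := by
      have := crs_rf hτ2 (rf τ w) y
      rw [rf_rf hτ2] at this
      rw [this, rf_smul]
    have e3 : ∀ a b : E3, rf τ a - rf τ b = rf τ (a - b) := fun a b => by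
      rw [sub_eq_add_neg, sub_eq_add_neg, rf_add]
      congr 1
      have := rf_smul τ (-1) b
      rw [neg_one_smul, neg_one_smul] at this
      exact this.symm
    have k1 := h.m _ hw'
    have k2 := h.p _ hw'
    rw [e1, e2]
    constructor
    · rw [e3, norm_rf' hτ2]
      rcases hτ with ht | ht
      · have e4 : τ • crs (rf τ w) y = crs (rf τ w) y := by
          nth_rewrite 1 [ht]
          exact one_smul _ _
        rw [e4]
        exact k1
      · have e4 : τ • crs (rf τ w) y = -crs (rf τ w) y := by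
          nth_rewrite 1 [ht]
          exact neg_one_smul _ _
        rw [e4, sub_neg_eq_add]
        exact k2
    · rw [← rf_add, norm_rf' hτ2]
      rcases hτ with ht | ht
      · have e4 : τ • crs (rf τ w) y = crs (rf τ w) y := by
          nth_rewrite 1 [ht]
          exact one_smul _ _
        rw [e4]
        exact k2
      · have e4 : τ • crs (rf τ w) y = -crs (rf τ w) y := by
          nth_rewrite 1 [ht]
          exact neg_one_smul _ _
        rw [e4, ← sub_eq_add_neg]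
        exact k1
  refine ⟨fun w hw => (key w hw).1, fun w hw => (key w hw).2, ?_⟩
  rw [norm_rf hτ2, norm_rf hτ2]
  exact h.s

theorem InW_avg (h : InW Λ E x y) (h' : InW Λ E x' y') :
    InW Λ E ((1 / 2 : ℝ) • (x + x')) ((1 / 2 : ℝ) • (y + y')) := by
  refine ⟨fun w hw => ?_, fun w hw => ?_, ?_⟩
  · have e : prj w ((1 / 2 : ℝ) • (x + x')) - crs w ((1 / 2 : ℝ) • (y + y')) =
        (1 / 2 : ℝ) • ((prj w x - crs w y) + (prj w x' - crs w y')) := by
      rw [prj_smul, prj_add, crs_smul, crs_add]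
      module
    rw [e, norm_smul, Real.norm_of_nonneg (by norm_num)]
    have := norm_add_le (prj w x - crs w y) (prj w x' - crs w y')
    linarith [h.m w hw, h'.m w hw]
  · have e : prj w ((1 / 2 : ℝ) • (x + x')) + crs w ((1 / 2 : ℝ) • (y + y')) =
        (1 / 2 : ℝ) • ((prj w x + crs w y) + (prj w x' + crs w y')) := by
      rw [prj_smul, prj_add, crs_smul, crs_add]
      module
    rw [e, norm_smul, Real.norm_of_nonneg (by norm_num)]
    have := norm_add_le (prj w x + crs w y) (prj w x' + crs w y')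
    linarith [h.p w hw, h'.p w hw]
  · have e : ∀ a b : E3, ‖(1 / 2 : ℝ) • (a + b)‖ ^ 2 ≤ (‖a‖ ^ 2 + ‖b‖ ^ 2) / 2 := fun a b => by
      rw [norm_smul, Real.norm_of_nonneg (by norm_num), mul_pow]
      have h1 := norm_add_le a b
      have h2 := pow_le_pow_left₀ (norm_nonneg _) h1 2
      nlinarith [sq_nonneg (‖a‖ - ‖b‖)]
    linarith [e x x', e y y', h.s, h'.s]

/-- the flat projection -/
theorem InW_flat (h : InW Λ E x y) : InW Λ E (rf 0 x) (rf 0 y) := by
  have h1 := InW_avg h (InW_rf (τ := -1) (Or.inr rfl) h)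
  have e : ∀ a : E3, (1 / 2 : ℝ) • (a + rf (-1) a) = rf 0 a := fun a => by
    ext i
    fin_cases i
    · change 1 / 2 * (a 0 + a 0) = a 0
      ring
    · change 1 / 2 * (a 1 + a 1) = a 1
      ring
    · change 1 / 2 * (a 2 + -1 * a 2) = 0 * a 2
      ring
  rwa [e, e] at h1

theorem prj_norm_le {w : E3} (hw : ‖w‖ = 1) (s : E3) : ‖prj w s‖ ≤ ‖s‖ := by
  have h := norm_prj_sq hw s
  have h1 := norm_nonneg (prj w s)
  have h2 := norm_nonneg s
  nlinarith [sq_nonneg (inner ℝ w s : ℝ)]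

theorem InW_add (h : InW Λ E x y) (hE : 0 ≤ E) {r : ℝ} (hx : ‖x'‖ ≤ r) (hy : ‖y'‖ ≤ r) :
    InW (Λ + 2 * r) ((√E + r) ^ 2) (x + x') (y + y') := by
  have hr : 0 ≤ r := (norm_nonneg _).trans hx
  have pl : ∀ w : E3, ‖w‖ = 1 → ‖prj w x'‖ + ‖crs w y'‖ ≤ 2 * r := fun w hw => by
    have h1 := prj_norm_le hw x'
    have h2 := norm_crs_le w y'
    rw [hw, one_mul] at h2
    linarith
  refine ⟨fun w hw => ?_, fun w hw => ?_, ?_⟩
  · have e : prj w (x + x') - crs w (y + y') = (prj w x - crs w y) + (prj w x' - crs w y') := by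
      rw [prj_add, crs_add]
      abel
    rw [e]
    have h1 := norm_add_le (prj w x - crs w y) (prj w x' - crs w y')
    have h2 := norm_sub_le (prj w x') (crs w y')
    linarith [h.m w hw, pl w hw]
  · have e : prj w (x + x') + crs w (y + y') = (prj w x + crs w y) + (prj w x' + crs w y') := by
      rw [prj_add, crs_add]
      abel
    rw [e]
    have h1 := norm_add_le (prj w x + crs w y) (prj w x' + crs w y')
    have h2 := norm_add_le (prj w x') (crs w y')
    linarith [h.p w hw, pl w hw]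
  · have h1 : ‖x + x'‖ ≤ ‖x‖ + r := (norm_add_le _ _).trans (by linarith)
    have h2 : ‖y + y'‖ ≤ ‖y‖ + r := (norm_add_le _ _).trans (by linarith)
    have h3 := pow_le_pow_left₀ (norm_nonneg _) h1 2
    have h4 := pow_le_pow_left₀ (norm_nonneg _) h2 2
    have h5 : ‖x‖ + ‖y‖ ≤ 2 * √E := by
      refine abs_le_of_sq_le_sq' ?_ (by positivity) |>.2
      have h6 : (2 * √E) ^ 2 = 4 * E := by
        rw [mul_pow, Real.sq_sqrt hE]
        ring
      rw [h6]
      nlinarith [sq_nonneg (‖x‖ - ‖y‖), h.s]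
    have h6 : (√E + r) ^ 2 = E + 2 * √E * r + r ^ 2 := by
      rw [add_sq, Real.sq_sqrt hE]
    rw [h6]
    nlinarith [h.s, mul_le_mul_of_nonneg_right h5 hr]

/-- normalisation -/
theorem InW_nd (h : InW Λ E x y) (hE : 0 ≤ E) {u : E3} {N : ℝ} (hN : ‖u‖ = N) (hN0 : 0 < N) :
    InW (1 / N * Λ) ((1 / N) ^ 2 * E) (nd u x) (nd u y) := by
  have hΛ : 0 ≤ Λ := (norm_nonneg _).trans (h.m _ (show ‖(!₂[1, 0, 0] : E3)‖ = 1 by
    have : ‖(!₂[1, 0, 0] : E3)‖ ^ 2 = 1 := by
      rw [normsq3]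
      simp
    nlinarith [norm_nonneg (!₂[1, 0, 0] : E3)]))
  have h0 : InW Λ E 0 0 := by
    have c0 : ∀ w : E3, crs w 0 = 0 := fun w => by
      have := crs_smul w 0 0
      simpa using this
    have p0 : ∀ w : E3, prj w 0 = 0 := fun w => by
      have := prj_smul w 0 0
      simpa using this
    refine ⟨fun w _ => ?_, fun w _ => ?_, ?_⟩
    · rw [c0, p0]
      simpa using hΛ
    · rw [c0, p0]
      simpa using hΛ
    · simpa using hE
  have k := nd_W (u := u) (a := x) (b := y) (Z := 0) (x := 0) (y := 0) (Λ := Λ) (E := E) (l := 1)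
    (t := 0) zero_le_one le_rfl (by simpa using h) h0 (N := N) (by simpa using hN) hN0 hE
  simpa using k

/-- the nuclear norm of a tangent pair in terms of the complex velocities -/
theorem InW_of_vel {v a b : E3} (hv : ‖v‖ = 1) (ha : inner ℝ v a = (0 : ℝ)) (hb : inner ℝ v b = (0 : ℝ))
    (hc : 0 < v 2) {N : ℝ} (hN : 0 ≤ N)
    (h1 : (normSq (vel (v 2) (hz v) (hz a)) + normSq (vel (v 2) (hz v) (hz b))) / 2
      - (conj (vel (v 2) (hz v) (hz a)) * vel (v 2) (hz v) (hz b)).im ≤ 2 * N ^ 2)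
    (h2 : (normSq (vel (v 2) (hz v) (hz b)) + normSq (vel (v 2) (hz v) (hz a))) / 2
      - (conj (vel (v 2) (hz v) (hz b)) * vel (v 2) (hz v) (hz a)).im ≤ 2 * N ^ 2)
    (h3 : normSq (vel (v 2) (hz v) (hz a)) + normSq (vel (v 2) (hz v) (hz b)) ≤ 2 * E) :
    InW (2 * N) E a b := by
  have c1 : (1 : ℝ) * v 2 = v 2 := one_mul _
  have ea : normSq (vel (v 2) (hz v) (hz a)) = ‖a‖ ^ 2 := by
    have := vel_vec_sq hv ha (τ := 1) (by norm_num) (by rw [c1]; exact hc)
    rwa [c1] at this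
  have eb : normSq (vel (v 2) (hz v) (hz b)) = ‖b‖ ^ 2 := by
    have := vel_vec_sq hv hb (τ := 1) (by norm_num) (by rw [c1]; exact hc)
    rwa [c1] at this
  have ej : -(conj (vel (v 2) (hz v) (hz a)) * vel (v 2) (hz v) (hz b)).im = inner ℝ v (crs b a) := by
    have := vel_vec_jac hv ha hb (τ := 1) (by norm_num) (by rw [c1]; exact hc)
    rw [c1] at this
    rw [← this]
    ring
  have ej' : -(conj (vel (v 2) (hz v) (hz b)) * vel (v 2) (hz v) (hz a)).im = inner ℝ v (crs a b) := by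
    have := vel_vec_jac hv hb ha (τ := 1) (by norm_num) (by rw [c1]; exact hc)
    rw [c1] at this
    rw [← this]
    ring
  have e1 : inner ℝ a (crs v b) = (inner ℝ v (crs b a) : ℝ) := by
    simp only [inner3, crs0, crs1, crs2]
    ring
  have e2 : inner ℝ v (crs a b) = -(inner ℝ v (crs b a) : ℝ) := inner_crs_swap _ _ _
  have e3 : ‖crs v b‖ ^ 2 = ‖b‖ ^ 2 := norm_crs hv hb
  refine InW.of_perp hv ha hb ?_ ?_ ?_
  · refine abs_le_of_sq_le_sq' ?_ (by positivity) |>.2
    rw [norm_sub_sq_real, e1, e3]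
    rw [ea, eb] at h2
    linarith
  · refine abs_le_of_sq_le_sq' ?_ (by positivity) |>.2
    rw [norm_add_sq_real, e1, e3]
    rw [ea, eb] at h1
    linarith
  · rw [← ea, ← eb]
    exact h3

end Pool.Agent.FPX.XCO
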