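import Mathlib
import Pool.Agent.FPX.XCO
import Pool.Agent.FPX.ARE
import Pool.Agent.FPX.CNU
import Pool.Agent.FPX.XNW
import Pool.Agent.FPX.KIN

/-
XCP (helper76): the start map (continuation of XCO): derivative bound, measure of the neighbourhood of
the curve, and the theorem `start`.
-/

open MeasureTheory Set Filter Topology
open scoped ENNReal NNReal

noncomputable section

namespace Pool.Agent.FPX.XCO

open Pool.Agent.FPX Pool.Agent.FPX.UMP Pool.Agent.FPX.UMQ Pool.Agent.EWD Pool.Agent.FPX.UXA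

open Real

variable {M : Type} [MetricSpace M] {γ : ℝ → M}

/-- the distance to the curve -/
def dg (γ : ℝ → M) (x : M) : ℝ := Metric.infDist x (range γ)

theorem dg_lip (γ : ℝ → M) : LipschitzWith 1 (dg γ) := Metric.lipschitz_infDist_pt (range γ)

/-- functions that agree outside of the neighbourhood have the same gradient there -/
theorem grad_far (C : Calc M γ) {n : ℕ} {F G : Fin n → M → ℝ} {d : ℝ}
    (h : ∀ i x, d < dg γ x → F i x = G i x) :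
    ∀ᵐ o ∂C.μ, d < dg γ (C.pt o) → ∀ i, C.gx (F i) o = C.gx (G i) o ∧ C.gy (F i) o = C.gy (G i) o := by
  filter_upwards [C.ae_has ⟨1, dg_lip γ⟩] with o ho hd i
  constructor
  · have h1 : ∀ᶠ s in 𝓝 (0 : ℝ), d < dg γ (C.px o s) := ho.1.continuousAt.eventually (lt_mem_nhds hd)
    refine Filter.EventuallyEq.deriv_eq ?_
    filter_upwards [h1] with s hs
    exact h i _ hs
  · have h1 : ∀ᶠ s in 𝓝 (0 : ℝ), d < dg γ (C.py o s) := by
      refine ho.2.continuousAt.eventually (lt_mem_nhds ?_)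
      show d < dg γ (C.py o 0)
      rw [C.py_zero]
      exact hd
    refine Filter.EventuallyEq.deriv_eq ?_
    filter_upwards [h1] with s hs
    exact h i _ hs

/-- the neighbourhoods of the curve have small area -/
theorem small (C : Calc M γ) (hγ : Bd γ) (hC : ∀ᵐ o ∂C.μ, C.pt o ∉ range γ) {e : ℝ} (he : 0 < e) :
    ∃ d : ℝ, 0 < d ∧ C.μ {o | dg γ (C.pt o) < d} ≤ ENNReal.ofReal e := by
  have := C.fin
  have hm : AEMeasurable (fun o => dg γ (C.pt o)) C.μ := C.meas_pt ⟨1, dg_lip γ⟩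
  have hcl : IsClosed (range γ) := by
    have h1 : range γ = γ '' Icc 0 (2 * π) := by
      refine subset_antisymm ?_ (image_subset_range _ _)
      rintro _ ⟨t, rfl⟩
      have hp : Function.Periodic γ (2 * π) := hγ.per
      obtain ⟨y, hy, hy'⟩ := hp.exists_mem_Ico₀ two_pi_pos t
      exact ⟨y, Ico_subset_Icc_self hy, hy'.symm⟩
    rw [h1]
    exact (isCompact_Icc.image hγ.lip.continuous).isClosed
  have hz : C.μ {o | dg γ (C.pt o) ≤ 0} = 0 := by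
    refine measure_mono_null ?_ hC
    intro o ho hn
    have h0 : Metric.infDist (C.pt o) (range γ) = 0 := le_antisymm ho Metric.infDist_nonneg
    exact hn ((hcl.mem_iff_infDist_zero (range_nonempty γ)).2 h0)
  have hanti : Antitone fun k : ℕ => {o | dg γ (C.pt o) < 1 / ((k : ℝ) + 1)} := by
    intro j k hjk o ho
    refine lt_of_lt_of_le (mem_ofPred_eq ▸ ho) ?_
    have : (j : ℝ) ≤ k := by exact_mod_cast hjk
    exact one_div_le_one_div_of_le (by positivity) (by linarith)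
  have hi : (⋂ k : ℕ, {o | dg γ (C.pt o) < 1 / ((k : ℝ) + 1)}) = {o | dg γ (C.pt o) ≤ 0} := by
    ext o
    simp only [mem_iInter, mem_ofPred_eq]
    constructor
    · intro h
      refine le_of_forall_pos_lt_add fun ε hε => ?_
      obtain ⟨k, hk⟩ := exists_nat_one_div_lt hε
      have := h k
      linarith
    · intro h k
      exact lt_of_le_of_lt h (by positivity)
  have ht := tendsto_measure_iInter_atTop (μ := C.μ)
    (s := fun k : ℕ => {o | dg γ (C.pt o) < 1 / ((k : ℝ) + 1)})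
    (fun k => nullMeasurableSet_lt hm aemeasurable_const) hanti ⟨0, measure_ne_top _ _⟩
  rw [hi, hz] at ht
  have h0 : (0 : ℝ≥0∞) < ENNReal.ofReal e := ENNReal.ofReal_pos.2 he
  obtain ⟨k, hk⟩ := (ht.eventually (ge_mem_nhds h0)).exists
  exact ⟨1 / ((k : ℝ) + 1), by positivity, hk⟩

section
variable {a b c : M → ℝ} {τ η d L : ℝ}

theorem zz_lip {η d : ℝ} (hη : 0 ≤ η) (hd : 0 < d) {c : M → ℝ} (hc : Lip c) : Lip (zz γ η d c) := by
  obtain ⟨K, hK⟩ := hc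
  refine ⟨K + toNNReal (η / d), LipschitzWith.of_dist_le_mul fun x y => ?_⟩
  rw [Real.dist_eq, NNReal.coe_add, Real.coe_toNNReal _ (by positivity)]
  have h1 := zz_sub (γ := γ) (d := d) hη c x y
  have h2 := hK.dist_le_mul x y
  rw [Real.dist_eq] at h2
  have h3 := mul_le_mul_of_nonneg_left (chi_sub (γ := γ) hd x y) hη
  have e : (↑K + η / d) * dist x y = K * dist x y + η * (dist x y / d) := by ring
  rw [e]
  linarith

theorem w3_lip {η d : ℝ} (hη : 0 ≤ η) (hd : 0 < d) (ha : Lip a) (hb : Lip b) (hc : Lip c) (k : Fin 3) :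
    Lip (W3 γ τ η d a b c k) := by
  fin_cases k
  · exact ha
  · exact hb
  · exact (zz_lip hη hd hc).const_mul τ

/-- the bound of the derivative of the normalised map in one direction -/
theorem dbound2 (hτ : τ ^ 2 = 1) (hη : 0 ≤ η) (hη1 : η < 1 / 2) (hd : 0 < d)
    (hc : ∀ x, 0 ≤ c x) (hu : ∀ x, a x ^ 2 + b x ^ 2 + c x ^ 2 = 1) {p : ℝ → M} {ga gb gc gz gχ : ℝ}
    {gF : Fin 3 → ℝ}
    (h1 : HasDerivAt (fun s => a (p s)) ga 0) (h2 : HasDerivAt (fun s => b (p s)) gb 0)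
    (h3 : HasDerivAt (fun s => c (p s)) gc 0) (h4 : HasDerivAt (fun s => zz γ η d c (p s)) gz 0)
    (h5 : HasDerivAt (fun s => chi γ d (p s)) gχ 0) (hχ : |gχ| ≤ 1 / d)
    (h6 : ∀ i, HasDerivAt (fun s => F3 γ τ η d a b c i (p s)) (gF i) 0)
    (hg : |gc| ≤ L) :
    gF 0 ^ 2 + gF 1 ^ 2 + gF 2 ^ 2 ≤
      1 / (1 - 2 * η) * (ga ^ 2 + gb ^ 2 + gc ^ 2 + (2 * L * (η / d) + (η / d) ^ 2)) := by
  have hr : 0 < 1 - 2 * η := by linarith
  have k1 : |gz| ≤ |gc| + η * |gχ| := lim1 h4 h3 h5 fun s => zz_sub hη c _ _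
  have k2 : |gz| ≤ |gc| + η / d := by
    have := mul_le_mul_of_nonneg_left hχ hη
    have e : η / d = η * (1 / d) := by ring
    rw [e]
    linarith
  have k3 := lim3 (F := fun i s => F3 γ τ η d a b c i (p s)) (W := fun i s => W3 γ τ η d a b c i (p s))
    (f := gF) (w := ![ga, gb, τ * gz]) (κ := 1 / (1 - 2 * η)) h6 (fun i => by
      fin_cases i
      · exact h1
      · exact h2
      · exact h4.const_mul τ) (fun s => f3_sub hτ hη hη1 hd (hc _) (hc _) (hu _) (hu _))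
  refine k3.trans ?_
  change 1 / (1 - 2 * η) * (ga ^ 2 + gb ^ 2 + (τ * gz) ^ 2) ≤ _
  refine mul_le_mul_of_nonneg_left ?_ (by positivity)
  rw [mul_pow, hτ, one_mul]
  have h7 : 0 ≤ η / d := by positivity
  have h8 : |gz| ^ 2 ≤ (|gc| + η / d) ^ 2 := pow_le_pow_left₀ (abs_nonneg _) k2 2
  rw [sq_abs] at h8
  have h10 : |gc| ^ 2 = gc ^ 2 := sq_abs _
  nlinarith [mul_le_mul_of_nonneg_right hg h7]

/-- the bound of the derivative of the normalised map -/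
theorem ae_dbound (C : Calc M γ) (hτ : τ ^ 2 = 1) (hη : 0 ≤ η) (hη1 : η < 1 / 2) (hd : 0 < d) (hL : 0 ≤ L)
    (ha : Lip a) (hb : Lip b) (hcl : Lip c)
    (h : ∀ x y, (a x - a y) ^ 2 + (b x - b y) ^ 2 + (c x - c y) ^ 2 ≤ (L * dist x y) ^ 2)
    (hc : ∀ x, 0 ≤ c x) (hu : ∀ x, a x ^ 2 + b x ^ 2 + c x ^ 2 = 1) {S : ℝ}
    (hg : ∀ᵐ o ∂C.μ, C.gx a o ^ 2 + C.gx b o ^ 2 + C.gx c o ^ 2 ≤ L ^ 2 ∧
      C.gy a o ^ 2 + C.gy b o ^ 2 + C.gy c o ^ 2 ≤ L ^ 2 ∧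
      C.gx a o ^ 2 + C.gx b o ^ 2 + C.gx c o ^ 2 + (C.gy a o ^ 2 + C.gy b o ^ 2 + C.gy c o ^ 2) ≤ S) :
    ∀ᵐ o ∂C.μ, ‖dx C (F3 γ τ η d a b c) o‖ ≤ (L + η / d) / √(1 - 2 * η) ∧
      ‖dy C (F3 γ τ η d a b c) o‖ ≤ (L + η / d) / √(1 - 2 * η) ∧
      ‖dx C (F3 γ τ η d a b c) o‖ ^ 2 + ‖dy C (F3 γ τ η d a b c) o‖ ^ 2 ≤
        1 / (1 - 2 * η) * (S + 2 * (2 * L * (η / d) + (η / d) ^ 2)) := by
  have hr : 0 < 1 - 2 * η := by linarith
  have hF : ∀ k, Lip (F3 γ τ η d a b c k) := fun k => ⟨_, f3_lip hτ hη hη1 hd hL h hc hu k⟩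
  have hF' : ∀ᵐ o ∂C.μ, ∀ k, HasDerivAt (fun s => F3 γ τ η d a b c k (C.px o s))
        (C.gx (F3 γ τ η d a b c k) o) 0 ∧
      HasDerivAt (fun s => F3 γ τ η d a b c k (C.py o s)) (C.gy (F3 γ τ η d a b c k) o) 0 :=
    ae_all_iff.2 fun k => C.ae_has (hF k)
  have hχ := C.ae_grad_le (chi_lip (γ := γ) hd)
  filter_upwards [hF', C.ae_has ha, C.ae_has hb, C.ae_has hcl, C.ae_has (zz_lip (γ := γ) hη hd hcl),
    C.ae_has ⟨_, chi_lip (γ := γ) hd⟩, hχ, hg] with o h1 h2 h3 h4 h5 h6 h7 h8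
  rw [Real.coe_toNNReal _ (by positivity)] at h7
  have e0 : ∀ i, (dx C (F3 γ τ η d a b c) o) i = C.gx (F3 γ τ η d a b c i) o := by
    intro i
    fin_cases i <;> rfl
  have e1 : ∀ i, (dy C (F3 γ τ η d a b c) o) i = C.gy (F3 γ τ η d a b c i) o := by
    intro i
    fin_cases i <;> rfl
  have q1 : C.gx (F3 γ τ η d a b c 0) o ^ 2 + C.gx (F3 γ τ η d a b c 1) o ^ 2
      + C.gx (F3 γ τ η d a b c 2) o ^ 2 ≤ _ :=
    dbound2 (L := L) hτ hη hη1 hd hc hu h2.1 h3.1 h4.1 h5.1 h6.1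
      (abs_le_of_sq_le_sq (by nlinarith [sq_nonneg (C.gy (chi γ d) o)]) (by positivity))
      (fun i => (h1 i).1) (abs_le_of_sq_le_sq (by nlinarith [sq_nonneg (C.gx a o), sq_nonneg (C.gx b o)]) hL)
  have q2 : C.gy (F3 γ τ η d a b c 0) o ^ 2 + C.gy (F3 γ τ η d a b c 1) o ^ 2
      + C.gy (F3 γ τ η d a b c 2) o ^ 2 ≤ _ :=
    dbound2 (L := L) hτ hη hη1 hd hc hu h2.2 h3.2 h4.2 h5.2 h6.2
      (abs_le_of_sq_le_sq (by nlinarith [sq_nonneg (C.gx (chi γ d) o)]) (by positivity))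
      (fun i => (h1 i).2) (abs_le_of_sq_le_sq (by nlinarith [sq_nonneg (C.gy a o), sq_nonneg (C.gy b o)]) hL)
  have h9 : 0 ≤ η / d := by positivity
  have h10 : 0 ≤ 1 / (1 - 2 * η) := by positivity
  have e : ((L + η / d) / √(1 - 2 * η)) ^ 2 = 1 / (1 - 2 * η) * (L + η / d) ^ 2 := by
    rw [div_pow, sq_sqrt hr.le]
    ring
  refine ⟨abs_le_of_sq_le_sq' (a := ‖dx C (F3 γ τ η d a b c) o‖) ?_ (by positivity) |>.2,
    abs_le_of_sq_le_sq' (a := ‖dy C (F3 γ τ η d a b c) o‖) ?_ (by positivity) |>.2, ?_⟩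
  · rw [normsq3, e0, e0, e0, e]
    refine q1.trans (mul_le_mul_of_nonneg_left ?_ h10)
    nlinarith [h8.1]
  · rw [normsq3, e1, e1, e1, e]
    refine q2.trans (mul_le_mul_of_nonneg_left ?_ h10)
    nlinarith [h8.2.1]
  · rw [normsq3, normsq3, e0, e0, e0, e1, e1, e1]
    refine (add_le_add q1 q2).trans ?_
    rw [← mul_add]
    refine mul_le_mul_of_nonneg_left ?_ h10
    nlinarith [h8.2.2]

/-- the derivative of the cut off third coordinate -/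
theorem zz_der {η d : ℝ} {c : M → ℝ} {p : ℝ → M} {gc gz gχ : ℝ}
    (h3 : HasDerivAt (fun s => c (p s)) gc 0) (h4 : HasDerivAt (fun s => zz γ η d c (p s)) gz 0)
    (h5 : HasDerivAt (fun s => chi γ d (p s)) gχ 0) :
    (0 < zz γ η d c (p 0) → gz = gc - η * gχ) ∧ (zz γ η d c (p 0) = 0 → gz = 0) := by
  constructor
  · intro h
    have h6 : HasDerivAt (fun s => c (p s) - η * chi γ d (p s)) (gc - η * gχ) 0 := h3.sub (h5.const_mul η)
    have h7 : 0 < c (p 0) - η * chi γ d (p 0) := by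
      unfold zz at h
      rcases lt_max_iff.1 h with h8 | h8
      · exact absurd h8 (lt_irrefl _)
      · exact h8
    have h8 : ∀ᶠ s in 𝓝 (0 : ℝ), 0 < c (p s) - η * chi γ d (p s) :=
      h6.continuousAt.eventually (lt_mem_nhds h7)
    refine h4.unique (h6.congr_of_eventuallyEq ?_)
    filter_upwards [h8] with s hs
    exact max_eq_right hs.le
  · intro h
    have h6 : IsLocalMin (fun s => zz γ η d c (p s)) 0 := by
      refine Eventually.of_forall fun s => ?_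
      show zz γ η d c (p 0) ≤ zz γ η d c (p s)
      rw [h]
      exact zz_nonneg _ _ _ _
    exact h6.hasDerivAt_eq_zero h4

theorem vv_w3 (hτ : τ ^ 2 = 1) (x : M) : ‖EWD.vv (n := 0) (W3 γ τ η d a b c) x‖ = N3 γ η d a b c x := by
  have h : ‖EWD.vv (n := 0) (W3 γ τ η d a b c) x‖ ^ 2 = N3 γ η d a b c x ^ 2 := by
    rw [n3_sq' hτ]
    exact normsq3 _
  exact (sq_eq_sq₀ (norm_nonneg _) (sqrt_nonneg _)).1 h

/-- the nuclear norm of the derivative of the normalised map -/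
theorem ae_nuc (C : Calc M γ) (hτ' : τ = 1 ∨ τ = -1) (hη : 0 ≤ η) (hη1 : η < 1 / 2) (hd : 0 < d)
    (ha : Lip a) (hb : Lip b) (hcl : Lip c)
    (hc : ∀ x, 0 ≤ c x) (hu : ∀ x, a x ^ 2 + b x ^ 2 + c x ^ 2 = 1) {Λ E : ℝ} (hE : 0 ≤ E) (hΛ : 0 ≤ Λ)
    (hg : ∀ᵐ o ∂C.μ, InW Λ E !₂[C.gx a o, C.gx b o, C.gx c o] !₂[C.gy a o, C.gy b o, C.gy c o]) :
    ∀ᵐ o ∂C.μ, InW ((Λ + 2 * (η / d)) / √(1 - 2 * η)) ((√E + η / d) ^ 2 / (1 - 2 * η))
      (dx C (F3 γ τ η d a b c) o) (dy C (F3 γ τ η d a b c) o) := by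
  have hτ : τ ^ 2 = 1 := by rcases hτ' with h | h <;> rw [h] <;> norm_num
  have hr : 0 < 1 - 2 * η := by linarith
  have hs : 0 < √(1 - 2 * η) := sqrt_pos.2 hr
  have hlW : ∀ k, Lip (W3 γ τ η d a b c k) := w3_lip hη hd ha hb hcl
  have hge : ∀ x, √(1 - 2 * η) ≤ N3 γ η d a b c x := fun x => by
    exact sqrt_le_sqrt (n3_ge (γ := γ) hη (by linarith) hd (hc x) (hu x))
  have hδr : ∀ x, √(1 - 2 * η) / 2 < ‖EWD.vv (n := 0) (W3 γ τ η d a b c) x‖ := fun x => by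
    rw [vv_w3 hτ]
    linarith [hge x]
  have eF : F3 γ τ η d a b c = NV (√(1 - 2 * η) / 2) (W3 γ τ η d a b c) := by
    funext k x
    unfold F3 NV
    rw [max_eq_left (hδr x).le, vv_w3 hτ]
  have hχ := C.ae_grad_le (chi_lip (γ := γ) hd)
  filter_upwards [ae_nv C (by positivity) hlW hδr, C.ae_has hcl, C.ae_has (zz_lip (γ := γ) hη hd hcl),
    C.ae_has ⟨_, chi_lip (γ := γ) hd⟩, hχ, hg] with o h1 h4 h5 h6 h7 h8
  rw [Real.coe_toNNReal _ (by positivity)] at h7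
  have hpt : C.px o 0 = C.pt o := rfl
  have hpt' : C.py o 0 = C.pt o := C.same o
  obtain ⟨x1, x2⟩ := zz_der h4.1 h5.1 h6.1
  obtain ⟨y1, y2⟩ := zz_der h4.2 h5.2 h6.2
  rw [hpt] at x1 x2
  rw [hpt'] at y1 y2
  have egx : C.gx (W3 γ τ η d a b c 2) o = τ * C.gx (zz γ η d c) o := (h5.1.const_mul τ).deriv
  have egy : C.gy (W3 γ τ η d a b c 2) o = τ * C.gy (zz γ η d c) o := (h5.2.const_mul τ).deriv
  have hη' : 0 ≤ η / d := by positivity
  have bχ : |C.gx (chi γ d) o| ≤ 1 / d ∧ |C.gy (chi γ d) o| ≤ 1 / d :=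
    ⟨abs_le_of_sq_le_sq (by nlinarith [sq_nonneg (C.gy (chi γ d) o)]) (by positivity),
      abs_le_of_sq_le_sq (by nlinarith [sq_nonneg (C.gx (chi γ d) o)]) (by positivity)⟩
  have nsm : ∀ g : ℝ, |g| ≤ 1 / d → ‖(!₂[0, 0, -(τ * (η * g))] : E3)‖ ≤ η / d := fun g hg' => by
    refine abs_le_of_sq_le_sq' ?_ hη' |>.2
    rw [normsq3]
    change (0 : ℝ) ^ 2 + 0 ^ 2 + (-(τ * (η * g))) ^ 2 ≤ _
    have e1 : (0 : ℝ) ^ 2 + 0 ^ 2 + (-(τ * (η * g))) ^ 2 = τ ^ 2 * (η * |g|) ^ 2 := by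
      rw [mul_pow η, sq_abs]
      ring
    rw [e1, hτ, one_mul]
    refine pow_le_pow_left₀ (by positivity) ?_ 2
    have := mul_le_mul_of_nonneg_left hg' hη
    rwa [mul_one_div] at this
  have hW : InW (Λ + 2 * (η / d)) ((√E + η / d) ^ 2) (dx C (W3 γ τ η d a b c) o) (dy C (W3 γ τ η d a b c) o) := by
    rcases (zz_nonneg (γ := γ) η d c (C.pt o)).lt_or_eq with hz | hz
    · have k1 := InW_add (InW_rf hτ' h8) hE (nsm _ bχ.1) (nsm _ bχ.2)
      have e1 : rf τ !₂[C.gx a o, C.gx b o, C.gx c o] + !₂[0, 0, -(τ * (η * C.gx (chi γ d) o))] =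
          dx C (W3 γ τ η d a b c) o := by
        ext i
        fin_cases i
        · change C.gx a o + 0 = C.gx a o
          ring
        · change C.gx b o + 0 = C.gx b o
          ring
        · change τ * C.gx c o + -(τ * (η * C.gx (chi γ d) o)) = C.gx (W3 γ τ η d a b c 2) o
          rw [egx, x1 hz]
          ring
      have e2 : rf τ !₂[C.gy a o, C.gy b o, C.gy c o] + !₂[0, 0, -(τ * (η * C.gy (chi γ d) o))] =
          dy C (W3 γ τ η d a b c) o := by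
        ext i
        fin_cases i
        · change C.gy a o + 0 = C.gy a o
          ring
        · change C.gy b o + 0 = C.gy b o
          ring
        · change τ * C.gy c o + -(τ * (η * C.gy (chi γ d) o)) = C.gy (W3 γ τ η d a b c 2) o
          rw [egy, y1 hz]
          ring
      rwa [e1, e2] at k1
    · have k1 := InW_flat h8
      have e1 : rf 0 !₂[C.gx a o, C.gx b o, C.gx c o] = dx C (W3 γ τ η d a b c) o := by
        ext i
        fin_cases i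
        · rfl
        · rfl
        · change 0 * C.gx c o = C.gx (W3 γ τ η d a b c 2) o
          rw [egx, x2 hz.symm]
          ring
      have e2 : rf 0 !₂[C.gy a o, C.gy b o, C.gy c o] = dy C (W3 γ τ η d a b c) o := by
        ext i
        fin_cases i
        · rfl
        · rfl
        · change 0 * C.gy c o = C.gy (W3 γ τ η d a b c 2) o
          rw [egy, y2 hz.symm]
          ring
      rw [e1, e2] at k1
      refine k1.mono (by linarith) ?_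
      calc E = √E ^ 2 := (sq_sqrt hE).symm
        _ ≤ (√E + η / d) ^ 2 := pow_le_pow_left₀ (sqrt_nonneg _) (by linarith) 2
  have hN : ‖at' C (W3 γ τ η d a b c) o‖ = N3 γ η d a b c (C.pt o) := vv_w3 hτ _
  have hN0 : 0 < N3 γ η d a b c (C.pt o) := hs.trans_le (hge _)
  have k2 := InW_nd hW (by positivity) hN hN0
  have ex : dx C (F3 γ τ η d a b c) o = nd (at' C (W3 γ τ η d a b c) o) (dx C (W3 γ τ η d a b c) o) := by
    rw [eF]
    exact h1.2.1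
  have ey : dy C (F3 γ τ η d a b c) o = nd (at' C (W3 γ τ η d a b c) o) (dy C (W3 γ τ η d a b c) o) := by
    rw [eF]
    exact h1.2.2
  rw [ex, ey]
  refine k2.mono ?_ ?_
  · rw [one_div, inv_mul_eq_div]
    exact div_le_div_of_nonneg_left (by positivity) hs (hge _)
  · rw [one_div, inv_pow, inv_mul_eq_div]
    refine div_le_div_of_nonneg_left (by positivity) hr ?_
    have := pow_le_pow_left₀ hs.le (hge (C.pt o)) 2
    rwa [sq_sqrt hr.le] at this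

end

section
variable {X Y : (ℝ → ℝ) → ℝ} {dX dY : (ℝ → ℝ) → (ℝ → ℝ) → ℝ} {K L : ℝ}

/-- the raw map -/
def raw (γ : ℝ → M) (τ ρ : ℝ) (n : ℕ) (X Y : (ℝ → ℝ) → ℝ) : Fin 3 → M → ℝ :=
  ![pull γ ρ n X, pull γ ρ n Y, fun x => τ * pull γ ρ n (Cf X Y) x]

/-- the energy is bounded by `S` -/
def En (X Y : (ℝ → ℝ) → ℝ) (dX dY : (ℝ → ℝ) → (ℝ → ℝ) → ℝ) (S : ℝ) : Prop := ∀ f h k : ℝ → ℝ, Ef f → Var h k →
  dX f h ^ 2 + dY f h ^ 2 + dC X Y dX dY f h ^ 2 + (dX f k ^ 2 + dY f k ^ 2 + dC X Y dX dY f k ^ 2) ≤ S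

theorem en_of_map (U : UMap X Y dX dY K L) : En X Y dX dY (2 * L ^ 2) := fun f h k hf V => by
  have y1 := bd3 U hf V.mesh zero_le_one V.bh
  have y2 := bd3 U hf V.mesk zero_le_one V.bk
  rw [mul_one] at y1 y2
  linarith

/-- the gradients are in the set `W` -/
def NW (X Y : (ℝ → ℝ) → ℝ) (dX dY : (ℝ → ℝ) → (ℝ → ℝ) → ℝ) (Λ E : ℝ) : Prop :=
  ∀ f h k : ℝ → ℝ, Ef f → Var h k →
    InW Λ E !₂[dX f h, dY f h, dC X Y dX dY f h] !₂[dX f k, dY f k, dC X Y dX dY f k]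

theorem NW.en {Λ E : ℝ} (H : NW X Y dX dY Λ E) : En X Y dX dY (2 * E) := fun f h k hf V => by
  have k1 := (H f h k hf V).s
  rw [normsq3, normsq3] at k1
  exact k1

theorem nw_of_en {S : ℝ} (hS : 0 ≤ S) (H : En X Y dX dY S) : NW X Y dX dY (√(S / 2) * 2) (S / 2) :=
  fun f h k hf V => by
  have k1 := InW_of_s (x := !₂[dX f h, dY f h, dC X Y dX dY f h]) (y := !₂[dX f k, dY f k, dC X Y dX dY f k])
    (r := √(S / 2)) (sqrt_nonneg _) (by
      rw [sq_sqrt (by positivity), normsq3, normsq3]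
      have := H f h k hf V
      change dX f h ^ 2 + dY f h ^ 2 + dC X Y dX dY f h ^ 2 + (dX f k ^ 2 + dY f k ^ 2 + dC X Y dX dY f k ^ 2) ≤ _
      linarith)
  rwa [sq_sqrt (by positivity), mul_one] at k1

/-- **the start map** -/
theorem start3 [CompactSpace M] (C : Calc M γ) (hγ : Bd γ) (hC : ∀ᵐ o ∂C.μ, C.pt o ∉ range γ)
    (U : UMap X Y dX dY K L) {Λ E : ℝ} (hΛ : 0 ≤ Λ) (hE : 0 ≤ E) (hNW : NW X Y dX dY Λ E)
    {e : ℝ} (he : 0 < e) :
    ∃ d : ℝ, 0 < d ∧ C.μ {o | dg γ (C.pt o) < 2 * d} ≤ ENNReal.ofReal e ∧ ∃ δ : ℝ, 0 < δ ∧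
      ∀ (ρ : ℝ) (n : ℕ), 0 ≤ ρ → ρ < 1 → 2 ≤ n → (1 - ρ) * (π / 2) + 2 * (π / n) ≤ δ →
        ∃ F : Fin 3 → M → ℝ, Sph γ F ∧ (∀ k, LipschitzWith (toNNReal (L + e)) (F k)) ∧
          (∀ t, F 2 (γ t) = 0) ∧ (∀ x, 0 ≤ -C.sg * F 2 x) ∧
          (∫ t in (0 : ℝ)..(2 * π), kap γ (F 0) (F 1) t) = 2 * π ∧
          (∫ o, jac C F o ∂C.μ) = 2 * π ∧
          (∀ᵐ o ∂C.μ, ‖dx C F o‖ ≤ L + e ∧ ‖dy C F o‖ ≤ L + e ∧
            InW (Λ + e) (E + e) (dx C F o) (dy C F o)) ∧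
          (∀ i x, d ≤ dg γ x → F i x = raw γ (-C.sg) ρ n X Y i x) ∧
          (∀ᵐ o ∂C.μ, d < dg γ (C.pt o) → ∀ i, C.gx (F i) o = C.gx (raw γ (-C.sg) ρ n X Y i) o ∧
            C.gy (F i) o = C.gy (raw γ (-C.sg) ρ n X Y i) o) := by
  have hL := U.L0
  have hK := U.K0
  obtain ⟨d2, hd2, hS⟩ := small C hγ hC he
  set d := d2 / 2 with hdd
  have hd : 0 < d := by positivity
  have hd2' : 2 * d = d2 := by rw [hdd]; ring
  -- the size of the cut-off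
  have t1 : ∀ᶠ η in 𝓝[>] (0 : ℝ), (L + η / d) / √(1 - 2 * η) < L + e := by
    have hc2 : ContinuousAt (fun η : ℝ => (L + η / d) / √(1 - 2 * η)) 0 := by
      refine ContinuousAt.div (by fun_prop) (ContinuousAt.sqrt (by fun_prop)) ?_
      simp
    refine (hc2.eventually_lt_const ?_).filter_mono nhdsWithin_le_nhds
    simp only [mul_zero, sub_zero, sqrt_one, div_one, zero_div, add_zero]
    linarith
  have t2 : ∀ᶠ η in 𝓝[>] (0 : ℝ), η < 1 / 2 :=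
    (eventually_lt_nhds (by norm_num : (0 : ℝ) < 1 / 2)).filter_mono nhdsWithin_le_nhds
  have t3 : ∀ᶠ η in 𝓝[>] (0 : ℝ), (Λ + 2 * (η / d)) / √(1 - 2 * η) < Λ + e := by
    have hc2 : ContinuousAt (fun η : ℝ => (Λ + 2 * (η / d)) / √(1 - 2 * η)) 0 := by
      refine ContinuousAt.div (by fun_prop) (ContinuousAt.sqrt (by fun_prop)) ?_
      simp
    refine (hc2.eventually_lt_const ?_).filter_mono nhdsWithin_le_nhds
    simp only [mul_zero, sub_zero, sqrt_one, div_one, zero_div, add_zero]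
    linarith
  have t4 : ∀ᶠ η in 𝓝[>] (0 : ℝ), (√E + η / d) ^ 2 / (1 - 2 * η) < E + e := by
    have hc2 : ContinuousAt (fun η : ℝ => (√E + η / d) ^ 2 / (1 - 2 * η)) 0 := by
      refine ContinuousAt.div (by fun_prop) (by fun_prop) ?_
      simp
    refine (hc2.eventually_lt_const ?_).filter_mono nhdsWithin_le_nhds
    simp only [mul_zero, sub_zero, div_one, zero_div, add_zero]
    rw [sq_sqrt hE]
    linarith
  obtain ⟨η, h1, h2, h4, h5, h3⟩ := (t1.and (t2.and (t3.and (t4.and self_mem_nhdsWithin)))).exists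
  have hη : 0 < η := h3
  have hτ : (-C.sg) ^ 2 = 1 := by
    rcases C.pm with h | h <;> rw [h] <;> norm_num
  -- the closeness on the boundary
  obtain ⟨δ, hδ, hδ1, hδ2⟩ : ∃ δ : ℝ, 0 < δ ∧ 2 * (K * δ) ≤ η ^ 2 ∧ K * δ * (2 * (L + e) + 2) < 1 := by
    have g1 : 0 < 2 * (L + e) + 2 := by linarith
    refine ⟨min (η ^ 2 / (2 * K + 1)) (1 / ((2 * (L + e) + 2) * (K + 1) + 1)), by positivity, ?_, ?_⟩
    · have h5 := min_le_left (η ^ 2 / (2 * K + 1)) (1 / ((2 * (L + e) + 2) * (K + 1) + 1))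
      calc 2 * (K * _) = 2 * K * min (η ^ 2 / (2 * K + 1)) (1 / ((2 * (L + e) + 2) * (K + 1) + 1)) := by ring
        _ ≤ (2 * K + 1) * (η ^ 2 / (2 * K + 1)) := by
          refine mul_le_mul (by linarith) h5 (by positivity) (by positivity)
        _ = η ^ 2 := by field_simp
    · have h5 := min_le_right (η ^ 2 / (2 * K + 1)) (1 / ((2 * (L + e) + 2) * (K + 1) + 1))
      have h6 : 0 < (2 * (L + e) + 2) * (K + 1) + 1 := by positivity
      calc K * _ * (2 * (L + e) + 2) ≤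
          K * (1 / ((2 * (L + e) + 2) * (K + 1) + 1)) * (2 * (L + e) + 2) := by gcongr
        _ = (K * (2 * (L + e) + 2)) / ((2 * (L + e) + 2) * (K + 1) + 1) := by ring
        _ < 1 := by
          rw [div_lt_one h6]
          nlinarith
  refine ⟨d, hd, by rw [hd2']; exact hS, δ, hδ, fun ρ n hρ hρ1 hn hρn => ?_⟩
  have hn0 : n ≠ 0 := by omega
  set a := pull γ ρ n X with ha
  set b := pull γ ρ n Y with hb
  set c := pull γ ρ n (Cf X Y) with hc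
  have hef : ∀ x, Ef (pf γ ρ n x) := fun x => pf_ef hγ hρ hρ1 hn0 x
  have hm0 : 0 ≤ ρ * (π / 2) := mul_nonneg hρ (by positivity)
  have hm1 : ρ * (π / 2) < π / 2 := by nlinarith [pi_pos]
  have hc0 : ∀ x, 0 < c x := fun x => c_pos U (hef x)
  have hu : ∀ x, a x ^ 2 + b x ^ 2 + c x ^ 2 = 1 := fun x => by
    have h5 : c x ^ 2 = 1 - a x ^ 2 - b x ^ 2 := c_sq U (hef x)
    rw [h5]
    ring
  have hv : ∀ x y, (a x - a y) ^ 2 + (b x - b y) ^ 2 + (c x - c y) ^ 2 ≤ (L * dist x y) ^ 2 :=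
    fun x y => vec_lip U hm0 hm1 (hef x) (hef y) (pf_bd hγ hρ x) (pf_bd hγ hρ y) dist_nonneg
      (pf_sub hρ hρ1.le x y)
  have la : Lip a := ⟨_, pull_lip hγ hρ hρ1 hn0 U.fX hL (U.bX _)⟩
  have lb : Lip b := ⟨_, pull_lip hγ hρ hρ1 hn0 U.fY hL (U.bY _)⟩
  have bC : Bdd (dC X Y dX dY) (ρ * (π / 2)) L := by
    have := b3 U (p := 0) (q := 0) (r := 1) (by norm_num) (ρ * (π / 2))
    simpa using this
  have lc : Lip c := ⟨_, pull_lip hγ hρ hρ1 hn0 (fC U) hL bC⟩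
  -- the boundary values
  have hbd : ∀ t, 1 - K * δ ≤ a (γ t) * cos t + b (γ t) * sin t := fun t =>
    U.bdry _ (hef _) t δ (fun s h => pf_upper hγ hρ hρ1.le hn h) (fun s h => by
      have h6 := pf_lower hγ hρ hρ1.le hn0 h
      linarith)
  have hKδ : 0 ≤ K * δ := by positivity
  have hKδ1 : K * δ < 1 / 2 := by nlinarith
  have hcγ : ∀ t, c (γ t) ≤ η := fun t => by
    have h6 := hbd t
    have h7 : (1 - K * δ) ^ 2 ≤ a (γ t) ^ 2 + b (γ t) ^ 2 := by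
      have h8 := sin_sq_add_cos_sq t
      have h9 : (a (γ t) * cos t + b (γ t) * sin t) ^ 2 ≤ a (γ t) ^ 2 + b (γ t) ^ 2 := by
        have e9 : a (γ t) ^ 2 + b (γ t) ^ 2 - (a (γ t) * cos t + b (γ t) * sin t) ^ 2 =
            (a (γ t) * sin t - b (γ t) * cos t) ^ 2
              + (a (γ t) ^ 2 + b (γ t) ^ 2) * (1 - (sin t ^ 2 + cos t ^ 2)) := by ring
        rw [h8] at e9
        nlinarith [sq_nonneg (a (γ t) * sin t - b (γ t) * cos t)]
      exact (pow_le_pow_left₀ (by linarith) h6 2).trans h9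
    have h10 := hu (γ t)
    refine abs_le_of_sq_le_sq' ?_ hη.le |>.2
    nlinarith
  have hz : ∀ t, F3 γ (-C.sg) η d a b c 2 (γ t) = 0 := fun t => by
    change -C.sg * zz γ η d c (γ t) / N3 γ η d a b c (γ t) = 0
    rw [zz_gam (hcγ t), mul_zero, zero_div]
  have hlip : ∀ k, LipschitzWith (toNNReal (L + e)) (F3 γ (-C.sg) η d a b c k) := fun k =>
    (f3_lip hτ hη.le h2 hd hL hv (fun x => (hc0 x).le) hu k).weaken (toNNReal_le_toNNReal h1.le)
  have oa : OddB γ a := pull_odd hγ hρ hρ1 hn0 U.negX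
  have ob : OddB γ b := pull_odd hγ hρ hρ1 hn0 U.negY
  have hNodd : ∀ t, N3 γ η d a b c (γ (t + π)) = N3 γ η d a b c (γ t) := fun t => by
    unfold N3
    rw [oa t, ob t, zz_gam (hcγ _), zz_gam (hcγ _)]
    simp
  have hSph : Sph γ (F3 γ (-C.sg) η d a b c) := by
    refine ⟨fun k => ⟨_, hlip k⟩, fun x => f3_unit hτ hη.le h2 hd (hc0 x).le (hu x), fun k t => ?_⟩
    unfold F3
    rw [hNodd]
    fin_cases k
    · change a (γ (t + π)) / _ = -(a (γ t) / _)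
      rw [oa t]
      ring
    · change b (γ (t + π)) / _ = -(b (γ t) / _)
      rw [ob t]
      ring
    · change -C.sg * zz γ η d c (γ (t + π)) / _ = -(-C.sg * zz γ η d c (γ t) / _)
      rw [zz_gam (hcγ _), zz_gam (hcγ _)]
      simp
  have hpos : ∀ x, 0 ≤ -C.sg * F3 γ (-C.sg) η d a b c 2 x := fun x => by
    change 0 ≤ -C.sg * (-C.sg * zz γ η d c x / N3 γ η d a b c x)
    have g1 := n3_pos (γ := γ) hη.le h2 hd (hc0 x).le (hu x)
    have g2 := zz_nonneg (γ := γ) η d c x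
    have e2 : -C.sg * (-C.sg * zz γ η d c x / N3 γ η d a b c x) =
        (-C.sg) ^ 2 * (zz γ η d c x / N3 γ η d a b c x) := by ring
    rw [e2, hτ, one_mul]
    positivity
  have hkap : (∫ t in (0 : ℝ)..(2 * π),
      kap γ (F3 γ (-C.sg) η d a b c 0) (F3 γ (-C.sg) η d a b c 1) t) = 2 * π := by
    refine wind_one hγ (hlip 0) (hlip 1) (hSph.odd 0) (hSph.odd 1) (fun t => ?_) (κ := K * δ)
      (fun t => ?_) ?_
    · have g1 := hSph.unit (γ t)
      rw [Fin.sum_univ_three, hz t] at g1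
      linarith
    · have e2 : F3 γ (-C.sg) η d a b c 0 (γ t) * cos t + F3 γ (-C.sg) η d a b c 1 (γ t) * sin t =
          (a (γ t) * cos t + b (γ t) * sin t) / N3 γ η d a b c (γ t) := by
        change a (γ t) / N3 γ η d a b c (γ t) * cos t + b (γ t) / N3 γ η d a b c (γ t) * sin t = _
        ring
      have g1 := n3_pos (γ := γ) hη.le h2 hd (hc0 (γ t)).le (hu (γ t))
      have g2 : N3 γ η d a b c (γ t) ≤ 1 := by
        unfold N3
        rw [sqrt_le_one, zz_gam (hcγ t)]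
        nlinarith [hu (γ t), sq_nonneg (c (γ t))]
      rw [e2, le_div_iff₀ g1]
      calc (1 - K * δ) * N3 γ η d a b c (γ t) ≤ (1 - K * δ) * 1 :=
            mul_le_mul_of_nonneg_left g2 (by linarith)
        _ ≤ _ := by
          rw [mul_one]
          exact hbd t
    · rw [Real.coe_toNNReal _ (by positivity)]
      exact hδ2
  refine ⟨F3 γ (-C.sg) η d a b c, hSph, hlip, hz, hpos, hkap, ?_, ?_, ?_, ?_⟩
  · rw [jac_half C hγ hSph hτ hpos hz, hkap]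
    have hsg : C.sg ^ 2 = 1 := by rwa [neg_sq] at hτ
    linear_combination (2 * π) * hsg
  · have hg : ∀ᵐ o ∂C.μ, InW Λ E !₂[C.gx a o, C.gx b o, C.gx c o] !₂[C.gy a o, C.gy b o, C.gy c o] ∧
        (C.gx a o ^ 2 + C.gx b o ^ 2 + C.gx c o ^ 2 ≤ L ^ 2 ∧
        C.gy a o ^ 2 + C.gy b o ^ 2 + C.gy c o ^ 2 ≤ L ^ 2) := by
      filter_upwards [transfer C hγ hρ hρ1 hn0] with o ho
      obtain ⟨h, k, V, hh⟩ := ho
      have x1 := (hh X dX U.fX).2
      have x2 := (hh Y dY U.fY).2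
      have x3 := (hh _ _ (fC U)).2
      have y1 := bd3 U (hef (C.pt o)) V.mesh zero_le_one V.bh
      have y2 := bd3 U (hef (C.pt o)) V.mesk zero_le_one V.bk
      rw [mul_one] at y1 y2
      rw [ha, hb, hc, x1.1, x1.2, x2.1, x2.2, x3.1, x3.2]
      exact ⟨hNW _ _ _ (hef (C.pt o)) V, y1, y2⟩
    have q1 := ae_dbound (τ := -C.sg) (S := L ^ 2 + L ^ 2) C hτ hη.le h2 hd hL la lb lc hv (fun x => (hc0 x).le) hu
      (hg.mono fun o ho => ⟨ho.2.1, ho.2.2, add_le_add ho.2.1 ho.2.2⟩)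
    have hτ' : -C.sg = 1 ∨ -C.sg = -1 := by
      rcases C.pm with h | h
      · exact Or.inr (by rw [h])
      · exact Or.inl (by rw [h]; norm_num)
    have q2 := ae_nuc (τ := -C.sg) C hτ' hη.le h2 hd la lb lc (fun x => (hc0 x).le) hu hE hΛ
      (hg.mono fun o ho => ho.1)
    filter_upwards [q1, q2] with o ho ho'
    exact ⟨ho.1.trans h1.le, ho.2.1.trans h1.le, ho'.mono h4.le h5.le⟩
  · intro i x hx
    exact f3_far hd (hc0 x).le (hu x) hx i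
  · exact grad_far C fun i x hx => f3_far hd (hc0 x).le (hu x) hx.le i

/-- **the start map** -/
theorem start2 [CompactSpace M] (C : Calc M γ) (hγ : Bd γ) (hC : ∀ᵐ o ∂C.μ, C.pt o ∉ range γ)
    (U : UMap X Y dX dY K L) {S : ℝ} (hS0 : 0 ≤ S) (hS2 : En X Y dX dY S) {e : ℝ} (he : 0 < e) :
    ∃ d : ℝ, 0 < d ∧ C.μ {o | dg γ (C.pt o) < 2 * d} ≤ ENNReal.ofReal e ∧ ∃ δ : ℝ, 0 < δ ∧
      ∀ (ρ : ℝ) (n : ℕ), 0 ≤ ρ → ρ < 1 → 2 ≤ n → (1 - ρ) * (π / 2) + 2 * (π / n) ≤ δ →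
        ∃ F : Fin 3 → M → ℝ, Sph γ F ∧ (∀ k, LipschitzWith (toNNReal (L + e)) (F k)) ∧
          (∀ t, F 2 (γ t) = 0) ∧ (∀ x, 0 ≤ -C.sg * F 2 x) ∧
          (∫ t in (0 : ℝ)..(2 * π), kap γ (F 0) (F 1) t) = 2 * π ∧
          (∫ o, jac C F o ∂C.μ) = 2 * π ∧
          (∀ᵐ o ∂C.μ, ‖dx C F o‖ ≤ L + e ∧ ‖dy C F o‖ ≤ L + e ∧
            ‖dx C F o‖ ^ 2 + ‖dy C F o‖ ^ 2 ≤ S + e) ∧
          (∀ i x, d ≤ dg γ x → F i x = raw γ (-C.sg) ρ n X Y i x) ∧
          (∀ᵐ o ∂C.μ, d < dg γ (C.pt o) → ∀ i, C.gx (F i) o = C.gx (raw γ (-C.sg) ρ n X Y i) o ∧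
            C.gy (F i) o = C.gy (raw γ (-C.sg) ρ n X Y i) o) := by
  obtain ⟨d, hd, h1, δ, hδ, h2⟩ := start3 C hγ hC U (by positivity) (by positivity)
    (nw_of_en hS0 hS2) (half_pos he)
  have hm : C.μ {o | dg γ (C.pt o) < 2 * d} ≤ ENNReal.ofReal e :=
    h1.trans (ENNReal.ofReal_le_ofReal (by linarith))
  refine ⟨d, hd, hm, δ, hδ, fun ρ n hρ hρ1 hn h => ?_⟩
  obtain ⟨F, k1, k2, k3, k4, k5, k6, k7, k8, k9⟩ := h2 ρ n hρ hρ1 hn h
  refine ⟨F, k1, fun k => (k2 k).weaken (toNNReal_le_toNNReal (by linarith)), k3, k4, k5, k6, ?_, k8, k9⟩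
  filter_upwards [k7] with o ho
  have := ho.2.2.s
  exact ⟨ho.1.trans (by linarith), ho.2.1.trans (by linarith), by linarith⟩

/-- **the start map** -/
theorem start [CompactSpace M] (C : Calc M γ) (hγ : Bd γ) (hC : ∀ᵐ o ∂C.μ, C.pt o ∉ range γ)
    (U : UMap X Y dX dY K L) {e : ℝ} (he : 0 < e) :
    ∃ d : ℝ, 0 < d ∧ C.μ {o | dg γ (C.pt o) < 2 * d} ≤ ENNReal.ofReal e ∧ ∃ δ : ℝ, 0 < δ ∧
      ∀ (ρ : ℝ) (n : ℕ), 0 ≤ ρ → ρ < 1 → 2 ≤ n → (1 - ρ) * (π / 2) + 2 * (π / n) ≤ δ →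
        ∃ F : Fin 3 → M → ℝ, Sph γ F ∧ (∀ k, LipschitzWith (toNNReal (L + e)) (F k)) ∧
          (∀ t, F 2 (γ t) = 0) ∧ (∀ x, 0 ≤ -C.sg * F 2 x) ∧
          (∫ t in (0 : ℝ)..(2 * π), kap γ (F 0) (F 1) t) = 2 * π ∧
          (∫ o, jac C F o ∂C.μ) = 2 * π ∧
          (∀ᵐ o ∂C.μ, ‖dx C F o‖ ≤ L + e ∧ ‖dy C F o‖ ≤ L + e) ∧
          (∀ i x, d ≤ dg γ x → F i x = raw γ (-C.sg) ρ n X Y i x) ∧
          (∀ᵐ o ∂C.μ, d < dg γ (C.pt o) → ∀ i, C.gx (F i) o = C.gx (raw γ (-C.sg) ρ n X Y i) o ∧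
            C.gy (F i) o = C.gy (raw γ (-C.sg) ρ n X Y i) o) := by
  obtain ⟨d, hd, h1, δ, hδ, h2⟩ := start2 C hγ hC U (by positivity) (en_of_map U) he
  refine ⟨d, hd, h1, δ, hδ, fun ρ n hρ hρ1 hn h => ?_⟩
  obtain ⟨F, k1, k2, k3, k4, k5, k6, k7, k8, k9⟩ := h2 ρ n hρ hρ1 hn h
  refine ⟨F, k1, k2, k3, k4, k5, k6, ?_, k8, k9⟩
  filter_upwards [k7] with o ho
  exact ⟨ho.1, ho.2.1⟩

end

end Pool.Agent.FPX.XCO
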