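import Mathlib
import Pool.Agent.FPX.XCP
import Pool.Agent.FPX.FAC0

/-
XST (helper76): `Start` from the inequality for the raw map. Outside of a neighbourhood of the curve of
small area the start map of `XCP` is the raw map, and `ν` is the function `nur` of `ARE`.
-/

open MeasureTheory Set Filter Topology Complex
open scoped ENNReal NNReal ComplexConjugate

noncomputable section

namespace Pool.Agent.FPX.XCO

open Pool.Agent.FPX Pool.Agent.FPX.UMP Pool.Agent.FPX.UMQ Pool.Agent.EWD Pool.Agent.FPX.UXA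
  Pool.Agent.FPX.CST Pool.Agent.FPX.CNU Pool.Agent.FPM

variable {M : Type} [MetricSpace M] {γ : ℝ → M} {n : ℕ}

theorem vel_vv {u : Fin (n + 2) → ℝ} (p : Fin (n + 2) → ℝ) :
    vel (CST.cc u) (zt u) (zt p) = CST.vv u p := by
  have h : (conj (zt u) * zt p).re = ss u p := by
    simp [zt, ss, Complex.mul_re]
  unfold vel CST.vv hh
  rw [h, mul_comm (zt u), div_eq_mul_one_div]

variable {Φ : Fin (n + 2) → (ℝ → ℝ) → ℝ} {dΦ : Fin (n + 2) → (ℝ → ℝ) → (ℝ → ℝ) → ℝ} {K L : ℝ}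

/-- `ν` of a map that is the raw map outside of the neighbourhood -/
theorem nu_far (S : Sys Φ dΦ K L) (C : Calc M γ) (hγ : Bd γ) {ρ : ℝ} {m : ℕ} (hρ : 0 ≤ ρ) (hρ1 : ρ < 1)
    (hm : m ≠ 0) {F : Fin 3 → M → ℝ} (hF : Sph γ F) {d : ℝ}
    (h0 : ∀ i x, d ≤ dg γ x → F i x = raw γ (-C.sg) ρ m (Φ 0) (Φ 1) i x)
    (h1 : ∀ᵐ o ∂C.μ, d < dg γ (C.pt o) → ∀ i, C.gx (F i) o = C.gx (raw γ (-C.sg) ρ m (Φ 0) (Φ 1) i) o ∧
      C.gy (F i) o = C.gy (raw γ (-C.sg) ρ m (Φ 0) (Φ 1) i) o) :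
    ∀ᵐ o ∂C.μ, d < dg γ (C.pt o) → nuC C F o = nur C (fun i => pull γ ρ m (Φ i)) o := by
  have hτ : (-C.sg) ^ 2 = 1 := by
    rcases C.pm with h | h <;> rw [h] <;> norm_num
  have hc : ∀ x, 0 < pull γ ρ m (Cf (Φ 0) (Φ 1)) x := fun x => c_pos S.map (pf_ef hγ hρ hρ1 hm x)
  filter_upwards [h1, ae_vel C hF hτ] with o k1 k2 hd
  have g := k1 hd
  have f0 : F 0 (C.pt o) = pull γ ρ m (Φ 0) (C.pt o) := h0 0 _ hd.le
  have f1 : F 1 (C.pt o) = pull γ ρ m (Φ 1) (C.pt o) := h0 1 _ hd.le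
  have f2 : F 2 (C.pt o) = -C.sg * pull γ ρ m (Cf (Φ 0) (Φ 1)) (C.pt o) := h0 2 _ hd.le
  have f3 : -C.sg * F 2 (C.pt o) = pull γ ρ m (Cf (Φ 0) (Φ 1)) (C.pt o) := by
    rw [f2, ← mul_assoc, ← sq, hτ, one_mul]
  have hp : 0 < -C.sg * F 2 (C.pt o) := by
    rw [f3]
    exact hc _
  have gx0 : C.gx (F 0) o = C.gx (pull γ ρ m (Φ 0)) o := (g 0).1
  have gx1 : C.gx (F 1) o = C.gx (pull γ ρ m (Φ 1)) o := (g 1).1
  have gy0 : C.gy (F 0) o = C.gy (pull γ ρ m (Φ 0)) o := (g 0).2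
  have gy1 : C.gy (F 1) o = C.gy (pull γ ρ m (Φ 1)) o := (g 1).2
  set U : Fin (n + 2) → M → ℝ := fun i => pull γ ρ m (Φ i) with hU
  have ec : pull γ ρ m (Cf (Φ 0) (Φ 1)) (C.pt o) = CST.cc (vc U (C.pt o)) := by
    change √(1 - Φ 0 (pf γ ρ m (C.pt o)) ^ 2 - Φ 1 (pf γ ρ m (C.pt o)) ^ 2) =
      √(1 - (Φ 0 (pf γ ρ m (C.pt o)) ^ 2 + Φ 1 (pf γ ρ m (C.pt o)) ^ 2))
    rw [sub_sub]
  have evx : vlx C (-C.sg) F o = CST.vv (vc U (C.pt o)) (CST.vx C U o) := by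
    unfold vlx
    rw [f3, ec, f0, f1, gx0, gx1]
    exact vel_vv (u := vc U (C.pt o)) (CST.vx C U o)
  have evy : vly C (-C.sg) F o = CST.vv (vc U (C.pt o)) (CST.vy C U o) := by
    unfold vly
    rw [f3, ec, f0, f1, gy0, gy1]
    exact vel_vv (u := vc U (C.pt o)) (CST.vy C U o)
  have hn := (k2 hp).2.2.2.2.1
  rw [hn, fB_sq, hτ, one_mul, evx, evy]
  unfold nur CST.ja
  ring

/-- the integral of `ν` -/
theorem int_nu_le [CompactSpace M] (S : Sys Φ dΦ K L) (C : Calc M γ) (hγ : Bd γ) {ρ : ℝ} {m : ℕ}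
    (hρ : 0 ≤ ρ) (hρ1 : ρ < 1) (hm : m ≠ 0) {F : Fin 3 → M → ℝ} (hF : Sph γ F) {d : ℝ} (hd : 0 < d)
    (h0 : ∀ i x, d ≤ dg γ x → F i x = raw γ (-C.sg) ρ m (Φ 0) (Φ 1) i x)
    (h1 : ∀ᵐ o ∂C.μ, d < dg γ (C.pt o) → ∀ i, C.gx (F i) o = C.gx (raw γ (-C.sg) ρ m (Φ 0) (Φ 1) i) o ∧
      C.gy (F i) o = C.gy (raw γ (-C.sg) ρ m (Φ 0) (Φ 1) i) o)
    {B : ℝ} (hB : ∀ᵐ o ∂C.μ, nuC C F o ≤ B)
    (hi : Integrable (nur C fun i => pull γ ρ m (Φ i)) C.μ) :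
    ∫ o, nuC C F o ∂C.μ ≤ ∫ o, nur C (fun i => pull γ ρ m (Φ i)) o ∂C.μ
      + B * C.μ.real {o | dg γ (C.pt o) < 2 * d} := by
  have := C.fin
  have hms : NullMeasurableSet {o | dg γ (C.pt o) < 2 * d} C.μ :=
    nullMeasurableSet_lt (C.meas_pt ⟨1, dg_lip γ⟩) aemeasurable_const
  have hind : Integrable (indicator {o | dg γ (C.pt o) < 2 * d} fun _ => B) C.μ :=
    (integrable_const B).indicator₀ hms
  have e : ∫ o, (nur C (fun i => pull γ ρ m (Φ i)) o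
      + indicator {o | dg γ (C.pt o) < 2 * d} (fun _ => B) o) ∂C.μ =
      ∫ o, nur C (fun i => pull γ ρ m (Φ i)) o ∂C.μ + B * C.μ.real {o | dg γ (C.pt o) < 2 * d} := by
    rw [integral_add hi hind, integral_indicator₀ hms, setIntegral_const, smul_eq_mul, mul_comm B]
  rw [← e]
  refine integral_mono_ae (nuC_cint C hF.lip continuous_id) (hi.add hind) ?_
  filter_upwards [nu_far S C hγ hρ hρ1 hm hF h0 h1, hB] with o k1 k2
  have hn : 0 ≤ nur C (fun i => pull γ ρ m (Φ i)) o := by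
    rcases nur_eq C (fun i => pull γ ρ m (Φ i)) o with h | h <;> rw [h.1] <;> exact nu_nonneg _ _ _
  show nuC C F o ≤ nur C (fun i => pull γ ρ m (Φ i)) o
      + indicator {o | dg γ (C.pt o) < 2 * d} (fun _ => B) o
  by_cases ho : dg γ (C.pt o) < 2 * d
  · rw [indicator_of_mem (show o ∈ {o | dg γ (C.pt o) < 2 * d} from ho)]
    linarith
  · rw [indicator_of_notMem (show o ∉ {o | dg γ (C.pt o) < 2 * d} from ho), add_zero, k1 (by linarith)]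

/-- fine parameters -/
theorem fine {δ : ℝ} (hδ : 0 < δ) : ∃ (ρ : ℝ) (m : ℕ), 0 ≤ ρ ∧ ρ < 1 ∧ 2 ≤ m ∧
    (1 - ρ) * (Real.pi / 2) + 2 * (Real.pi / m) ≤ δ := by
  have hpi := Real.pi_pos
  obtain ⟨m, hm, hm2⟩ : ∃ m : ℕ, 2 ≤ m ∧ 4 * Real.pi / δ ≤ m := by
    obtain ⟨m, hm⟩ := exists_nat_ge (4 * Real.pi / δ)
    exact ⟨max m 2, le_max_right _ _, hm.trans (by exact_mod_cast le_max_left _ _)⟩
  have hm0 : (0 : ℝ) < m := by
    have : 0 < m := by omega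
    exact_mod_cast this
  refine ⟨max 0 (1 - δ / Real.pi), m, le_max_left _ _, max_lt one_pos ?_, hm, ?_⟩
  · have : 0 < δ / Real.pi := by positivity
    linarith
  · have h1 : (1 - max 0 (1 - δ / Real.pi)) * (Real.pi / 2) ≤ δ / 2 := by
      have h2 : 1 - δ / Real.pi ≤ max 0 (1 - δ / Real.pi) := le_max_right _ _
      have h3 : (1 - max 0 (1 - δ / Real.pi)) * (Real.pi / 2) ≤ δ / Real.pi * (Real.pi / 2) :=
        mul_le_mul_of_nonneg_right (by linarith) (by positivity)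
      have h4 : δ / Real.pi * (Real.pi / 2) = δ / 2 := by
        field_simp
      linarith
    have h2 : 2 * (Real.pi / m) ≤ δ / 2 := by
      rw [div_le_iff₀ hδ] at hm2
      rw [mul_div_assoc', div_le_iff₀ hm0]
      linarith
    linarith

/-- the form of the inequality for the raw map -/
def Raw (Φ : Fin (n + 2) → (ℝ → ℝ) → ℝ) (μ w T : ℝ) : Prop :=
  ∀ e : ℝ, 0 < e → ∃ d : ℝ, 0 < d ∧ ∀ (M : Type) [MetricSpace M] [CompactSpace M] (γ : ℝ → M)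
    (C : Calc M γ), Bd γ → ∀ (ρ : ℝ) (m : ℕ), 0 ≤ ρ → ρ < 1 → 2 ≤ m →
      (1 - ρ) * (Real.pi / 2) + 2 * (Real.pi / m) ≤ d →
        Integrable (nur C fun i => pull γ ρ m (Φ i)) C.μ ∧
        2 * Real.pi * w - e + μ * ∫ o, nur C (fun i => pull γ ρ m (Φ i)) o ∂C.μ ≤ T * C.vol

/-- the energy bound in terms of the complex velocity -/
theorem en_iff (S : Sys Φ dΦ K L) {E : ℝ} (H : ∀ f h k : ℝ → ℝ, Ef f → Var h k →
    normSq (CST.vv (cu Φ f) (du dΦ f h)) + normSq (CST.vv (cu Φ f) (du dΦ f k)) ≤ E) :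
    En (Φ 0) (Φ 1) (dΦ 0) (dΦ 1) E := by
  intro f h k hf V
  have hu := S.mem hf
  have e : ∀ g : ℝ → ℝ, dΦ 0 f g ^ 2 + dΦ 1 f g ^ 2 + dC (Φ 0) (Φ 1) (dΦ 0) (dΦ 1) f g ^ 2 =
      normSq (CST.vv (cu Φ f) (du dΦ f g)) := fun g => by
    rw [CST.nsq_vv hu]
    have e1 : CST.cc (cu Φ f) = Cf (Φ 0) (Φ 1) f := by
      change √(1 - (Φ 0 f ^ 2 + Φ 1 f ^ 2)) = √(1 - Φ 0 f ^ 2 - Φ 1 f ^ 2)
      rw [sub_sub]
    rw [e1]
    change _ = dΦ 0 f g ^ 2 + dΦ 1 f g ^ 2 + ((Φ 0 f * dΦ 0 f g + Φ 1 f * dΦ 1 f g) / Cf (Φ 0) (Φ 1) f) ^ 2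
    unfold dC
    rw [neg_div, neg_sq]
  rw [e h, e k]
  exact H f h k hf V

theorem En.nonneg {X Y : (ℝ → ℝ) → ℝ} {dX dY : (ℝ → ℝ) → (ℝ → ℝ) → ℝ} {E : ℝ} (H : En X Y dX dY E) :
    0 ≤ E := by
  have h0 : Ef fun _ : ℝ => (0 : ℝ) := by
    refine ⟨LipschitzWith.const' 0 |>.weaken zero_le_one, fun _ => by simp, fun _ => ?_⟩
    rw [abs_zero]
    positivity
  have hV : Var (fun _ : ℝ => (0 : ℝ)) fun _ : ℝ => (0 : ℝ) :=
    ⟨measurable_const, measurable_const, fun _ => by norm_num⟩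
  refine le_trans ?_ (H _ _ _ h0 hV)
  positivity

/-- **the start map from the inequality for the raw map**; `E` is a bound of `|dF|²` -/
theorem start_of_raw2 (S : Sys Φ dΦ K L) {μ w T : ℝ} (hμ : 0 < μ) (hT : 0 ≤ T) (H : Raw Φ μ w T)
    {E : ℝ} (hE : En (Φ 0) (Φ 1) (dΦ 0) (dΦ 1) E) {c₀ : ℝ} (hc₀ : 0 ≤ c₀) (hL : E < 2 * Real.exp c₀ ^ 2) :
    Start (2 * Real.pi * (T - w) / μ) c₀ := by
  intro e he
  have hpi := Real.pi_pos
  refine ⟨1, one_pos, fun M _ _ _ γ C hN hv => ?_⟩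
  have := C.fin
  have hγ := hN.bd
  set B := 2 * Real.exp c₀ ^ 2 with hB
  have hB0 : 0 < B := by positivity
  obtain ⟨e1, he1, h1, h2⟩ : ∃ e1 : ℝ, 0 < e1 ∧ E + e1 ≤ B ∧ B * e1 ≤ e / 4 := by
    refine ⟨min (B - E) (e / (4 * B)), lt_min (by linarith) (by positivity), ?_, ?_⟩
    · have := min_le_left (B - E) (e / (4 * B))
      linarith
    · have h3 := mul_le_mul_of_nonneg_left (min_le_right (B - E) (e / (4 * B))) hB0.le
      have h4 : B * (e / (4 * B)) = e / 4 := by field_simp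
      linarith
  obtain ⟨d, hd, hS, δ, hδ, hF⟩ := start2 C hγ hN.colb.1 S.map hE.nonneg hE he1
  obtain ⟨d', hd', hR⟩ := H (μ * (e / 4)) (by positivity)
  obtain ⟨ρ, m, hρ, hρ1, hm, hρm⟩ := fine (lt_min hδ hd')
  obtain ⟨F, k1, -, -, -, -, k6, k7, k8, k9⟩ := hF ρ m hρ hρ1 hm (hρm.trans (min_le_left _ _))
  obtain ⟨i1, i2⟩ := hR M γ C hγ ρ m hρ hρ1 hm (hρm.trans (min_le_right _ _))
  have hKY : KY C 2 1 F (fun _ => c₀) := by
    refine KY_start C k1 hc₀ ?_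
    filter_upwards [k7] with o ho
    linarith [ho.2.2]
  refine ⟨F, hKY, k6, ?_⟩
  have g3 := int_nu_le S C hγ hρ hρ1 (by omega) k1 hd k8 k9 hKY.nu_le i1
  have g4 : C.μ.real {o | dg γ (C.pt o) < 2 * d} ≤ e1 := by
    have := ENNReal.toReal_mono ENNReal.ofReal_ne_top hS
    rwa [ENNReal.toReal_ofReal he1.le] at this
  have g5 := mul_le_mul_of_nonneg_left g4 hB0.le
  have g6 : ∫ o, nur C (fun i => pull γ ρ m (Φ i)) o ∂C.μ ≤ 2 * Real.pi * (T - w) / μ + e / 4 := by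
    have g7 : T * C.vol ≤ T * (2 * Real.pi) := mul_le_mul_of_nonneg_left hv.le hT
    have g8 : 2 * Real.pi * (T - w) / μ + e / 4 = (2 * Real.pi * (T - w) + μ * (e / 4)) / μ := by
      field_simp
    rw [g8, le_div_iff₀ hμ]
    linarith
  linarith

/-- near minimal metrics of area below `2 π` carry an odd map of degree one in the class `(2, E)` with the
constant `c₀` and `∫ ν < X + e` -/
def StartN (X E c₀ : ℝ) : Prop :=
  ∀ e : ℝ, 0 < e → ∃ ε : ℝ, 0 < ε ∧ ∀ (M : Type) [MetricSpace M] [CompactSpace M] [Nonempty M]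
    (γ : ℝ → M) (C : Calc M γ), NearM C ε → C.vol < 2 * Real.pi →
    ∃ U : Fin 3 → M → ℝ, KY C 2 E U (fun _ => c₀) ∧ ∫ o, jac C U o ∂C.μ = 2 * Real.pi ∧
      ∫ o, nuC C U o ∂C.μ < X + e

/-- the gradients in the set `W` from the complex velocities: `ν ≤ 2 N²` for both orders of the pair means
`|A|, |B| ≤ N` -/
theorem nw_of_nu (S : Sys Φ dΦ K L) {N E : ℝ} (hN0 : 0 ≤ N)
    (hN : ∀ f h k : ℝ → ℝ, Ef f → Var h k → nu (cu Φ f) (du dΦ f h) (du dΦ f k) ≤ 2 * N ^ 2)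
    (hE : ∀ f h k : ℝ → ℝ, Ef f → Var h k →
      normSq (CST.vv (cu Φ f) (du dΦ f h)) + normSq (CST.vv (cu Φ f) (du dΦ f k)) ≤ 2 * E) :
    NW (Φ 0) (Φ 1) (dΦ 0) (dΦ 1) (2 * N) E := by
  intro f h k hf V
  have V' : Var k h := ⟨V.mesk, V.mesh, fun t => by rw [add_comm]; exact V.sq t⟩
  have hc := c_pos S.map hf
  have hc2 := c_sq S.map hf
  set v : E3 := !₂[Φ 0 f, Φ 1 f, Cf (Φ 0) (Φ 1) f] with hv
  have hv1 : ‖v‖ = 1 := by
    have : ‖v‖ ^ 2 = 1 := by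
      rw [normsq3]
      change Φ 0 f ^ 2 + Φ 1 f ^ 2 + Cf (Φ 0) (Φ 1) f ^ 2 = 1
      rw [hc2]
      ring
    have h0 := norm_nonneg v
    nlinarith
  have tan : ∀ g : ℝ → ℝ, inner ℝ v (!₂[dΦ 0 f g, dΦ 1 f g, dC (Φ 0) (Φ 1) (dΦ 0) (dΦ 1) f g] : E3) = (0 : ℝ) :=
    fun g => by
    rw [inner3]
    change Φ 0 f * dΦ 0 f g + Φ 1 f * dΦ 1 f g + Cf (Φ 0) (Φ 1) f *
      (-(Φ 0 f * dΦ 0 f g + Φ 1 f * dΦ 1 f g) / Cf (Φ 0) (Φ 1) f) = 0
    field_simp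
    ring
  have ec : CST.cc (cu Φ f) = Cf (Φ 0) (Φ 1) f := by
    change √(1 - (Φ 0 f ^ 2 + Φ 1 f ^ 2)) = √(1 - Φ 0 f ^ 2 - Φ 1 f ^ 2)
    rw [sub_sub]
  have ev : ∀ g : ℝ → ℝ, vel (v 2) (CNU.hz v)
      (CNU.hz (!₂[dΦ 0 f g, dΦ 1 f g, dC (Φ 0) (Φ 1) (dΦ 0) (dΦ 1) f g] : E3)) =
      CST.vv (cu Φ f) (du dΦ f g) := fun g => by
    have := vel_vv (u := cu Φ f) (du dΦ f g)
    rw [ec] at this
    exact this
  have n1 := hN f h k hf V
  have n2 := hN f k h hf V'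
  have n3 := hE f h k hf V
  unfold CST.nu CST.ja at n1 n2
  rw [← ev h, ← ev k] at n1 n2 n3
  exact InW_of_vel hv1 (tan h) (tan k) hc hN0 n1 n2 n3

/-- **the start map from the inequality for the raw map**, in the class `(2, E)` -/
theorem start_of_raw3 (S : Sys Φ dΦ K L) {μ w T : ℝ} (hμ : 0 < μ) (hT : 0 ≤ T) (H : Raw Φ μ w T)
    {N E₁ : ℝ} (hN0 : 0 ≤ N) (hE₁ : 0 ≤ E₁) (hNW : NW (Φ 0) (Φ 1) (dΦ 0) (dΦ 1) (2 * N) E₁)
    {E c₀ : ℝ} (hc₀ : 0 ≤ c₀) (hN : N < Real.exp c₀) (hE : E₁ < Real.exp c₀ ^ 2 * E) :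
    StartN (2 * Real.pi * (T - w) / μ) E c₀ := by
  intro e he
  have hpi := Real.pi_pos
  refine ⟨1, one_pos, fun M _ _ _ γ C hNM hv => ?_⟩
  have := C.fin
  have hγ := hNM.bd
  set B := 2 * Real.exp c₀ ^ 2 with hB
  have hB0 : 0 < B := by positivity
  obtain ⟨e1, he1, h1, h2, h3⟩ : ∃ e1 : ℝ, 0 < e1 ∧ 2 * N + e1 ≤ Real.exp c₀ * 2 ∧
      E₁ + e1 ≤ Real.exp c₀ ^ 2 * E ∧ B * e1 ≤ e / 4 := by
    refine ⟨min (min (2 * (Real.exp c₀ - N)) (Real.exp c₀ ^ 2 * E - E₁)) (e / (4 * B)),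
      lt_min (lt_min (by linarith) (by linarith)) (by positivity), ?_, ?_, ?_⟩
    · have := (min_le_left _ (e / (4 * B))).trans
        (min_le_left (2 * (Real.exp c₀ - N)) (Real.exp c₀ ^ 2 * E - E₁))
      linarith
    · have := (min_le_left _ (e / (4 * B))).trans
        (min_le_right (2 * (Real.exp c₀ - N)) (Real.exp c₀ ^ 2 * E - E₁))
      linarith
    · have h3 := mul_le_mul_of_nonneg_left
        (min_le_right (min (2 * (Real.exp c₀ - N)) (Real.exp c₀ ^ 2 * E - E₁)) (e / (4 * B))) hB0.le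
      have h4 : B * (e / (4 * B)) = e / 4 := by field_simp
      linarith
  obtain ⟨d, hd, hS, δ, hδ, hF⟩ := start3 C hγ hNM.colb.1 S.map (by positivity) hE₁ hNW he1
  obtain ⟨d', hd', hR⟩ := H (μ * (e / 4)) (by positivity)
  obtain ⟨ρ, m, hρ, hρ1, hm, hρm⟩ := fine (lt_min hδ hd')
  obtain ⟨F, k1, -, -, -, -, k6, k7, k8, k9⟩ := hF ρ m hρ hρ1 hm (hρm.trans (min_le_left _ _))
  obtain ⟨i1, i2⟩ := hR M γ C hγ ρ m hρ hρ1 hm (hρm.trans (min_le_right _ _))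
  have hKY : KY C 2 E F (fun _ => c₀) := by
    refine ⟨k1, ⟨0, LipschitzWith.const' c₀⟩, fun _ => rfl, fun _ => hc₀, ?_⟩
    filter_upwards [k7] with o ho
    exact ho.2.2.mono h1 h2
  have hnu : ∀ᵐ o ∂C.μ, nuC C F o ≤ B := by
    filter_upwards [hKY.inW] with o ho
    have g1 := ho.m _ (norm_at (C := C) k1 o)
    have g2 : (2 : ℝ) * ‖qm (at' C F o) (dx C F o) (dy C F o)‖ =
        ‖prj (at' C F o) (dx C F o) - crs (at' C F o) (dy C F o)‖ := by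
      unfold qm
      rw [norm_smul]
      norm_num
      ring
    rw [← g2] at g1
    have g3 : ‖qm (at' C F o) (dx C F o) (dy C F o)‖ ≤ Real.exp c₀ := by linarith
    have g4 := pow_le_pow_left₀ (norm_nonneg _) g3 2
    unfold nuC nuv
    linarith
  refine ⟨F, hKY, k6, ?_⟩
  have g3 := int_nu_le S C hγ hρ hρ1 (by omega) k1 hd k8 k9 hnu i1
  have g4 : C.μ.real {o | dg γ (C.pt o) < 2 * d} ≤ e1 := by
    have := ENNReal.toReal_mono ENNReal.ofReal_ne_top hS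
    rwa [ENNReal.toReal_ofReal he1.le] at this
  have g5 := mul_le_mul_of_nonneg_left g4 hB0.le
  have g6 : ∫ o, nur C (fun i => pull γ ρ m (Φ i)) o ∂C.μ ≤ 2 * Real.pi * (T - w) / μ + e / 4 := by
    have g7 : T * C.vol ≤ T * (2 * Real.pi) := mul_le_mul_of_nonneg_left hv.le hT
    have g8 : 2 * Real.pi * (T - w) / μ + e / 4 = (2 * Real.pi * (T - w) + μ * (e / 4)) / μ := by
      field_simp
    rw [g8, le_div_iff₀ hμ]
    linarith
  linarith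

/-- `ν = 2 |B|²` -/
theorem nu_eq_B (u p q : Fin (n + 2) → ℝ) :
    nu u p q = 2 * ‖(CST.vv u p + I * CST.vv u q) / 2‖ ^ 2 := by
  unfold CST.nu CST.ja
  rw [← Complex.normSq_eq_norm_sq]
  generalize CST.vv u p = a
  generalize CST.vv u q = b
  simp only [Complex.normSq_apply, Complex.mul_im, Complex.mul_re, Complex.conj_re, Complex.conj_im,
    Complex.div_ofNat_re, Complex.div_ofNat_im, Complex.add_re, Complex.add_im, Complex.I_re, Complex.I_im]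
  ring

theorem norm_swap (a b : ℂ) : ‖(b + I * a) / 2‖ = ‖(a - I * b) / 2‖ := by
  have e : (b + I * a) / 2 = I * ((a - I * b) / 2) := by
    linear_combination (b / 2) * Complex.I_sq
  rw [e, norm_mul, Complex.norm_I, one_mul]

/-- `|A|, |B| ≤ N` gives the class `(2 N, 2 N²)`; it is enough to bound `|B|` for all pairs -/
theorem nw_of_B (S : Sys Φ dΦ K L) {N : ℝ} (hN0 : 0 ≤ N)
    (hN : ∀ f h k : ℝ → ℝ, Ef f → Var h k →
      ‖(CST.vv (cu Φ f) (du dΦ f h) + I * CST.vv (cu Φ f) (du dΦ f k)) / 2‖ ≤ N) :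
    NW (Φ 0) (Φ 1) (dΦ 0) (dΦ 1) (2 * N) (2 * N ^ 2) := by
  refine nw_of_nu S hN0 (fun f h k hf V => ?_) (fun f h k hf V => ?_)
  · rw [nu_eq_B]
    have := pow_le_pow_left₀ (norm_nonneg _) (hN f h k hf V) 2
    linarith
  · have V' : Var k h := ⟨V.mesk, V.mesh, fun t => by rw [add_comm]; exact V.sq t⟩
    have k1 := pow_le_pow_left₀ (norm_nonneg _) (hN f h k hf V) 2
    have k2 := pow_le_pow_left₀ (norm_nonneg _) (hN f k h hf V') 2
    rw [norm_swap] at k2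
    rw [← Complex.normSq_eq_norm_sq] at k1 k2
    revert k1 k2
    generalize CST.vv (cu Φ f) (du dΦ f h) = a
    generalize CST.vv (cu Φ f) (du dΦ f k) = b
    intro k1 k2
    simp only [Complex.normSq_apply, Complex.mul_im, Complex.mul_re, Complex.div_ofNat_re,
      Complex.div_ofNat_im, Complex.add_re, Complex.add_im, Complex.sub_re, Complex.sub_im,
      Complex.I_re, Complex.I_im] at *
    linarith

/-- **the start map from the inequality for the raw map and `|A|, |B| < e^{c₀}`**, in the class `(2, 2)` -/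
theorem start_of_raw4 (S : Sys Φ dΦ K L) {μ w T : ℝ} (hμ : 0 < μ) (hT : 0 ≤ T) (H : Raw Φ μ w T)
    {N : ℝ} (hN0 : 0 ≤ N) (hN : ∀ f h k : ℝ → ℝ, Ef f → Var h k →
      ‖(CST.vv (cu Φ f) (du dΦ f h) + I * CST.vv (cu Φ f) (du dΦ f k)) / 2‖ ≤ N)
    {c₀ : ℝ} (hc₀ : 0 ≤ c₀) (hN1 : N < Real.exp c₀) :
    StartN (2 * Real.pi * (T - w) / μ) 2 c₀ :=
  start_of_raw3 S hμ hT H hN0 (by positivity) (nw_of_B S hN0 hN) hc₀ hN1 (by
    have := pow_lt_pow_left₀ hN1 hN0 two_ne_zero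
    linarith)

/-- the system of a single map -/
theorem sys_of_map {X Y : (ℝ → ℝ) → ℝ} {dX dY : (ℝ → ℝ) → (ℝ → ℝ) → ℝ} (U : UMap X Y dX dY K L) :
    Sys (n := 0) ![X, Y] ![dX, dY] K L where
  map := U
  fn := fun i => by
    fin_cases i
    · exact U.fX
    · exact U.fY
  bd := fun i m _ _ => by
    fin_cases i
    · exact ⟨L, U.L0, U.bX m⟩
    · exact ⟨L, U.L0, U.bY m⟩

/-- **the start map from the inequality for the raw map** -/
theorem start_of_raw (S : Sys Φ dΦ K L) {μ w T : ℝ} (hμ : 0 < μ) (hT : 0 ≤ T) (H : Raw Φ μ w T)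
    {c₀ : ℝ} (hc₀ : 0 ≤ c₀) (hL : L < Real.exp c₀) :
    Start (2 * Real.pi * (T - w) / μ) c₀ :=
  start_of_raw2 S hμ hT H (en_of_map S.map) hc₀ (by
    have h1 := pow_lt_pow_left₀ hL S.map.L0 two_ne_zero
    linarith)

end Pool.Agent.FPX.XCO
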