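import Mathlib
import Pool.Agent.FPX.XST
import Pool.Agent.FPX.FAC3

/-
XSE (helper76): the start map in the form of FAC3 (`StartE`).
-/

open MeasureTheory Set Filter Topology Complex
open scoped ENNReal NNReal ComplexConjugate

noncomputable section

namespace Pool.Agent.FPX.XCO

open Pool.Agent.FPX Pool.Agent.FPX.UMP Pool.Agent.FPX.UMQ Pool.Agent.EWD Pool.Agent.FPX.UXA
  Pool.Agent.FPX.CST Pool.Agent.FPX.CNU Pool.Agent.FPM

theorem StartN.toE {X E c₀ : ℝ} (h : StartN X E c₀) : FPX.StartE E X c₀ := h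

variable {n : ℕ} {Φ : Fin (n + 2) → (ℝ → ℝ) → ℝ} {dΦ : Fin (n + 2) → (ℝ → ℝ) → (ℝ → ℝ) → ℝ} {K L : ℝ}

/-- **the start map**: the inequality for the raw map and `|A|, |B| ≤ N < e^{c₀}` for all states -/
theorem startE_of_raw (S : Sys Φ dΦ K L) {μ w T : ℝ} (hμ : 0 < μ) (hT : 0 ≤ T) (H : Raw Φ μ w T)
    {N : ℝ} (hN0 : 0 ≤ N) (hN : ∀ f h k : ℝ → ℝ, Ef f → Var h k →
      ‖(CST.vv (cu Φ f) (du dΦ f h) + I * CST.vv (cu Φ f) (du dΦ f k)) / 2‖ ≤ N)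
    {c₀ : ℝ} (hc₀ : 0 ≤ c₀) (hN1 : N < Real.exp c₀) :
    FPX.StartE 2 (2 * Real.pi * (T - w) / μ) c₀ :=
  (start_of_raw4 S hμ hT H hN0 hN hc₀ hN1).toE

end Pool.Agent.FPX.XCO
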