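import Mathlib
import Pool.Agent.FPX.XSE
import Pool.Agent.FPX.ARP
import Pool.Agent.FPX.OMX

/-
XSP (helper66): the start map with a function `φ` of the deviation. `RawP`: the inequality for the raw map with a
continuous function `ψ(ν)` in place of `μ ν`; `startPh_of_raw`: `StartPh` of FAC3 from it, for every continuous `φ`
with `μ φ ≤ ψ` on the range of `ν`. `raw7P`, `raw7XP`: `RawP` from a family of certificates with different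
`(μ, T)` and the same form; `psi2`: two certificates.
-/

open MeasureTheory Set Filter Topology Complex
open scoped ENNReal NNReal ComplexConjugate ContDiff

noncomputable section

namespace Pool.Agent.FPX.XCO

open Pool.Agent.FPX Pool.Agent.FPX.UMP Pool.Agent.FPX.UMQ Pool.Agent.EWD Pool.Agent.FPX.UXA
  Pool.Agent.FPX.CST Pool.Agent.FPX.CNU Pool.Agent.FPM

variable {M : Type} [MetricSpace M] {γ : ℝ → M} {n : ℕ}
variable {Φ : Fin (n + 2) → (ℝ → ℝ) → ℝ} {dΦ : Fin (n + 2) → (ℝ → ℝ) → (ℝ → ℝ) → ℝ} {K L : ℝ}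

/-- the inequality for the raw map with a function `ψ` of the deviation -/
def RawP (Φ : Fin (n + 2) → (ℝ → ℝ) → ℝ) (ψ : ℝ → ℝ) (w T : ℝ) : Prop :=
  ∀ e : ℝ, 0 < e → ∃ d : ℝ, 0 < d ∧ ∀ (M : Type) [MetricSpace M] [CompactSpace M] (γ : ℝ → M)
    (C : Calc M γ), Bd γ → ∀ (ρ : ℝ) (m : ℕ), 0 ≤ ρ → ρ < 1 → 2 ≤ m →
      (1 - ρ) * (Real.pi / 2) + 2 * (Real.pi / m) ≤ d →
        Integrable (fun o => ψ (nur C (fun i => pull γ ρ m (Φ i)) o)) C.μ ∧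
        2 * Real.pi * w - e + ∫ o, ψ (nur C (fun i => pull γ ρ m (Φ i)) o) ∂C.μ ≤ T * C.vol

theorem Raw.toP {μ w T : ℝ} (h : Raw Φ μ w T) : RawP Φ (fun x => μ * x) w T := by
  intro e he
  obtain ⟨d, hd, h⟩ := h e he
  refine ⟨d, hd, fun M _ _ γ C hγ ρ m h0 h1 h2 h3 => ?_⟩
  obtain ⟨i, k⟩ := h M γ C hγ ρ m h0 h1 h2 h3
  refine ⟨i.const_mul μ, ?_⟩
  rwa [integral_const_mul]

theorem nur_nonneg (C : Calc M γ) (U : Fin (n + 2) → M → ℝ) (o : Om) : 0 ≤ nur C U o := by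
  rcases nur_eq C U o with h | h <;> rw [h.1] <;> exact nu_nonneg _ _ _

/-- the integral of `φ(ν)` -/
theorem int_phi_le [CompactSpace M] (S : Sys Φ dΦ K L) (C : Calc M γ) (hγ : Bd γ) {ρ : ℝ} {m : ℕ}
    (hρ : 0 ≤ ρ) (hρ1 : ρ < 1) (hm : m ≠ 0) {F : Fin 3 → M → ℝ} (hF : Sph γ F) {d : ℝ} (hd : 0 < d)
    (h0 : ∀ i x, d ≤ dg γ x → F i x = raw γ (-C.sg) ρ m (Φ 0) (Φ 1) i x)
    (h1 : ∀ᵐ o ∂C.μ, d < dg γ (C.pt o) → ∀ i, C.gx (F i) o = C.gx (raw γ (-C.sg) ρ m (Φ 0) (Φ 1) i) o ∧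
      C.gy (F i) o = C.gy (raw γ (-C.sg) ρ m (Φ 0) (Φ 1) i) o)
    {φ ψ : ℝ → ℝ} (hφ : Continuous φ) {B μ Bφ : ℝ} (hB : ∀ᵐ o ∂C.μ, nuC C F o ≤ B)
    (hBφ : ∀ x, 0 ≤ x → x ≤ B → μ * φ x ≤ Bφ) (hψ0 : ∀ x, 0 ≤ x → 0 ≤ ψ x)
    (hφψ : ∀ x, 0 ≤ x → x ≤ B → μ * φ x ≤ ψ x)
    (hi : Integrable (fun o => ψ (nur C (fun i => pull γ ρ m (Φ i)) o)) C.μ) :
    μ * ∫ o, φ (nuC C F o) ∂C.μ ≤ ∫ o, ψ (nur C (fun i => pull γ ρ m (Φ i)) o) ∂C.μ
      + Bφ * C.μ.real {o | dg γ (C.pt o) < 2 * d} := by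
  have := C.fin
  have hms : NullMeasurableSet {o | dg γ (C.pt o) < 2 * d} C.μ :=
    nullMeasurableSet_lt (C.meas_pt ⟨1, dg_lip γ⟩) aemeasurable_const
  have hind : Integrable (indicator {o | dg γ (C.pt o) < 2 * d} fun _ => Bφ) C.μ :=
    (integrable_const Bφ).indicator₀ hms
  have e : ∫ o, (ψ (nur C (fun i => pull γ ρ m (Φ i)) o)
      + indicator {o | dg γ (C.pt o) < 2 * d} (fun _ => Bφ) o) ∂C.μ =
      ∫ o, ψ (nur C (fun i => pull γ ρ m (Φ i)) o) ∂C.μ + Bφ * C.μ.real {o | dg γ (C.pt o) < 2 * d} := by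
    rw [integral_add hi hind, integral_indicator₀ hms, setIntegral_const, smul_eq_mul, mul_comm Bφ]
  rw [← e, ← integral_const_mul]
  refine integral_mono_ae ((nuC_cint C hF.lip hφ).const_mul μ) (hi.add hind) ?_
  filter_upwards [nu_far S C hγ hρ hρ1 hm hF h0 h1, hB] with o k1 k2
  have hn : 0 ≤ nur C (fun i => pull γ ρ m (Φ i)) o := nur_nonneg C _ o
  have hn2 : 0 ≤ nuC C F o := nuv_nonneg _ _ _
  show μ * φ (nuC C F o) ≤ ψ (nur C (fun i => pull γ ρ m (Φ i)) o)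
      + indicator {o | dg γ (C.pt o) < 2 * d} (fun _ => Bφ) o
  by_cases ho : dg γ (C.pt o) < 2 * d
  · rw [indicator_of_mem (show o ∈ {o | dg γ (C.pt o) < 2 * d} from ho)]
    have := hBφ _ hn2 k2
    have := hψ0 _ hn
    linarith
  · rw [indicator_of_notMem (show o ∉ {o | dg γ (C.pt o) < 2 * d} from ho), add_zero]
    have k3 := k1 (by linarith)
    rw [← k3]
    exact hφψ _ hn2 k2

/-- **the start map for the penalty `φ` from the inequality for the raw map with `ψ(ν)`**, in the class `(2, E)` -/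
theorem startPh_of_raw3 (S : Sys Φ dΦ K L) {φ ψ : ℝ → ℝ} (hφ : Continuous φ) {μ w T : ℝ} (hμ : 0 < μ)
    (hT : 0 ≤ T) (H : RawP Φ ψ w T)
    {N E₁ : ℝ} (hN0 : 0 ≤ N) (hE₁ : 0 ≤ E₁) (hNW : NW (Φ 0) (Φ 1) (dΦ 0) (dΦ 1) (2 * N) E₁)
    {E c₀ : ℝ} (hc₀ : 0 ≤ c₀) (hN : N < Real.exp c₀) (hE : E₁ < Real.exp c₀ ^ 2 * E)
    (hψ0 : ∀ x, 0 ≤ x → 0 ≤ ψ x) (hφψ : ∀ x, 0 ≤ x → x ≤ 2 * Real.exp c₀ ^ 2 → μ * φ x ≤ ψ x) :
    FPX.StartPh φ E (2 * Real.pi * (T - w) / μ) c₀ := by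
  intro e he
  have hpi := Real.pi_pos
  refine ⟨1, one_pos, fun M _ _ _ γ C hNM hv => ?_⟩
  have := C.fin
  have hγ := hNM.bd
  set B := 2 * Real.exp c₀ ^ 2 with hB
  have hB0 : 0 < B := by positivity
  obtain ⟨b, hb⟩ := (isCompact_Icc (a := (0 : ℝ)) (b := B)).exists_bound_of_continuousOn hφ.continuousOn
  have hb0 : 0 ≤ b := (norm_nonneg _).trans (hb 0 ⟨le_rfl, hB0.le⟩)
  have hBφ : ∀ x, 0 ≤ x → x ≤ B → μ * φ x ≤ μ * (b + 1) := fun x h0 h1 => by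
    have h2 := (Real.norm_eq_abs _ ▸ le_abs_self (φ x) : φ x ≤ ‖φ x‖)
    have h3 := hb x ⟨h0, h1⟩
    exact mul_le_mul_of_nonneg_left (by linarith) hμ.le
  have hb1 : 0 < b + 1 := by linarith
  obtain ⟨e1, he1, h1, h2, h3⟩ : ∃ e1 : ℝ, 0 < e1 ∧ 2 * N + e1 ≤ Real.exp c₀ * 2 ∧
      E₁ + e1 ≤ Real.exp c₀ ^ 2 * E ∧ (b + 1) * e1 ≤ e / 4 := by
    refine ⟨min (min (2 * (Real.exp c₀ - N)) (Real.exp c₀ ^ 2 * E - E₁)) (e / (4 * (b + 1))),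
      lt_min (lt_min (by linarith) (by linarith)) (by positivity), ?_, ?_, ?_⟩
    · have := (min_le_left _ (e / (4 * (b + 1)))).trans
        (min_le_left (2 * (Real.exp c₀ - N)) (Real.exp c₀ ^ 2 * E - E₁))
      linarith
    · have := (min_le_left _ (e / (4 * (b + 1)))).trans
        (min_le_right (2 * (Real.exp c₀ - N)) (Real.exp c₀ ^ 2 * E - E₁))
      linarith
    · have h3 := mul_le_mul_of_nonneg_left
        (min_le_right (min (2 * (Real.exp c₀ - N)) (Real.exp c₀ ^ 2 * E - E₁)) (e / (4 * (b + 1)))) hb1.le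
      have h4 : (b + 1) * (e / (4 * (b + 1))) = e / 4 := by field_simp
      linarith
  obtain ⟨d, hd, hS, δ, hδ, hF⟩ := start3 C hγ hNM.colb.1 S.map (by positivity) hE₁ hNW he1
  obtain ⟨d', hd', hR⟩ := H (μ * (e / 4)) (by positivity)
  obtain ⟨ρ, m, hρ, hρ1, hm, hρm⟩ := fine (lt_min hδ hd')
  obtain ⟨F, k1, -, -, -, -, k6, k7, k8, k9⟩ := hF ρ m hρ hρ1 hm (hρm.trans (min_le_left _ _))
  obtain ⟨i1, i2⟩ := hR M γ C hγ ρ m hρ hρ1 hm (hρm.trans (min_le_right _ _))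
  have hKY : KY C 2 E F (fun _ => c₀) := by
    refine ⟨k1, ⟨0, LipschitzWith.const' c₀⟩, fun _ => rfl, fun _ => hc₀, ?_⟩
    filter_upwards [k7] with o ho
    exact ho.2.2.mono h1 h2
  have hnu : ∀ᵐ o ∂C.μ, nuC C F o ≤ B := by
    filter_upwards [hKY.inW] with o ho
    have g1 := ho.m _ (norm_at (C := C) k1 o)
    have g2 : (2 : ℝ) * ‖qm (at' C F o) (dx C F o) (dy C F o)‖ =
        ‖prj (at' C F o) (dx C F o) - crs (at' C F o) (dy C F o)‖ := by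
      unfold qm
      rw [norm_smul]
      norm_num
      ring
    rw [← g2] at g1
    have g3 : ‖qm (at' C F o) (dx C F o) (dy C F o)‖ ≤ Real.exp c₀ := by linarith
    have g4 := pow_le_pow_left₀ (norm_nonneg _) g3 2
    unfold nuC nuv
    linarith
  refine ⟨F, hKY, k6, ?_⟩
  have g3 := int_phi_le S C hγ hρ hρ1 (by omega) k1 hd k8 k9 hφ hnu hBφ hψ0 hφψ i1
  have g4 : C.μ.real {o | dg γ (C.pt o) < 2 * d} ≤ e1 := by
    have := ENNReal.toReal_mono ENNReal.ofReal_ne_top hS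
    rwa [ENNReal.toReal_ofReal he1.le] at this
  have g5 := mul_le_mul_of_nonneg_left (mul_le_mul_of_nonneg_left g4 hb1.le) hμ.le
  have g7 : T * C.vol ≤ T * (2 * Real.pi) := mul_le_mul_of_nonneg_left hv.le hT
  have g9 := mul_le_mul_of_nonneg_left h3 hμ.le
  have g10 : μ * ∫ o, φ (nuC C F o) ∂C.μ ≤ μ * (2 * Real.pi * (T - w) / μ + e / 4 + e / 4) := by
    have g8 : μ * (2 * Real.pi * (T - w) / μ + e / 4 + e / 4) =
        2 * Real.pi * (T - w) + μ * (e / 4) + μ * (e / 4) := by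
      field_simp
    rw [g8]
    linarith
  have g11 := le_of_mul_le_mul_left g10 hμ
  unfold Ph
  linarith

/-- the same in the class `(2, 2)`, from `|A|, |B| ≤ N < e^{c₀}` -/
theorem startPh_of_raw (S : Sys Φ dΦ K L) {φ ψ : ℝ → ℝ} (hφ : Continuous φ) {μ w T : ℝ} (hμ : 0 < μ)
    (hT : 0 ≤ T) (H : RawP Φ ψ w T) {N : ℝ} (hN0 : 0 ≤ N) (hN : ∀ f h k : ℝ → ℝ, Ef f → Var h k →
      ‖(CST.vv (cu Φ f) (du dΦ f h) + I * CST.vv (cu Φ f) (du dΦ f k)) / 2‖ ≤ N)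
    {c₀ : ℝ} (hc₀ : 0 ≤ c₀) (hN1 : N < Real.exp c₀)
    (hψ0 : ∀ x, 0 ≤ x → 0 ≤ ψ x) (hφψ : ∀ x, 0 ≤ x → x ≤ 2 * Real.exp c₀ ^ 2 → μ * φ x ≤ ψ x) :
    FPX.StartPh φ 2 (2 * Real.pi * (T - w) / μ) c₀ :=
  startPh_of_raw3 S hφ hμ hT H hN0 (by positivity) (nw_of_B S hN0 hN) hc₀ hN1 (by
    have := pow_lt_pow_left₀ hN1 hN0 two_ne_zero
    linarith) hψ0 hφψ

/-! ### two certificates -/

/-- the function for two certificates `(μ, T)` and `(μ₂, T + t)` -/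
def psi2 (μ μ₂ t x : ℝ) : ℝ := max (μ * x) (μ₂ * x - t)

theorem psi2_cont (μ μ₂ t : ℝ) : Continuous (psi2 μ μ₂ t) := by
  unfold psi2
  fun_prop

theorem psi2_nonneg {μ μ₂ t : ℝ} (hμ : 0 ≤ μ) {x : ℝ} (hx : 0 ≤ x) : 0 ≤ psi2 μ μ₂ t x :=
  (mul_nonneg hμ hx).trans (le_max_left _ _)

theorem psi2_fam {μ μ₂ t T : ℝ} (x : ℝ) : ∃ i : Bool, psi2 μ μ₂ t x ≤
    (if i then μ₂ else μ) * x + (T - if i then T + t else T) := by
  rcases le_total (μ₂ * x - t) (μ * x) with h | h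
  · refine ⟨false, ?_⟩
    unfold psi2
    rw [max_eq_left h]
    simp
  · refine ⟨true, ?_⟩
    unfold psi2
    rw [max_eq_right h]
    simp only [if_true]
    linarith

end Pool.Agent.FPX.XCO

namespace Pool.Agent.FPX.OM7

open Pool.Agent.FPX Pool.Agent.FPX.UMP Pool.Agent.FPX.UMQ Pool.Agent.FPX.UXA Pool.Agent.EWD
open Pool.Agent.FPX.CST (Sys gv gt lab nu cu du)
open Pool.Agent.FPX.SYS (P7 dP7 sys7)
open Pool.Agent.FPX.XCO (RawP psi2 psi2_fam psi2_cont)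

/-- **a family of certificates with the same form gives the inequality with `ψ(ν)`** -/
theorem raw7P {W : ℝ → ℝ} {F : Cof} (hW : ContDiffOn ℝ 1 W (Ioi 0)) (hW0 : ContinuousOn W (Ici 0)) (HF : F.Sm)
    (HB : F.Bo) {ι : Type*} {μ Ti : ι → ℝ} (H : ∀ i, Cert7 W F (μ i) (Ti i)) {ψ : ℝ → ℝ} (hψ : Continuous ψ)
    {T : ℝ} (h : ∀ x, 0 ≤ x → ∃ i, ψ x ≤ μ i * x + (T - Ti i)) : RawP P7 ψ (W 0) T := fun _ he =>
  CST.raw_le_phi sys7 sys7 hW hW0 HF.cG7 (fun _ hε => G7_small HB hε)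
    (fun i => CST.contDiffOn_lab HF.b 5 6 i) (fun _ hε => lab_small HB hε) hψ
    (fun f h' k hf V => by
      obtain ⟨i, hi⟩ := h _ (CST.nu_nonneg (cu P7 f) (du dP7 f h') (du dP7 f k))
      have := hst_of hW HF (H i) hf V
      linarith) he

/-- two certificates -/
theorem raw7P2 {W : ℝ → ℝ} {F : Cof} (hW : ContDiffOn ℝ 1 W (Ioi 0)) (hW0 : ContinuousOn W (Ici 0)) (HF : F.Sm)
    (HB : F.Bo) {μ μ₂ t T : ℝ} (H : Cert7 W F μ T) (H2 : Cert7 W F μ₂ (T + t)) :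
    RawP P7 (psi2 μ μ₂ t) (W 0) T :=
  raw7P hW hW0 HF HB (ι := Bool) (μ := fun i => if i then μ₂ else μ) (Ti := fun i => if i then T + t else T)
    (fun i => by cases i <;> simpa) (psi2_cont _ _ _) fun x _ => psi2_fam x

variable {n' : ℕ} {Φ' : Fin (n' + 2) → (ℝ → ℝ) → ℝ} {dΦ' : Fin (n' + 2) → (ℝ → ℝ) → (ℝ → ℝ) → ℝ} {K' L' : ℝ}

/-- **the same with the deviation of the start map `Φ'`** -/
theorem raw7XP (S' : Sys Φ' dΦ' K' L') {Bx : Dev} (HD : IsDev Φ' dΦ' Bx) {W : ℝ → ℝ} {F : Cof}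
    (hW : ContDiffOn ℝ 1 W (Ioi 0)) (hW0 : ContinuousOn W (Ici 0)) (HF : F.Sm) (HB : F.Bo) {ι : Type*}
    {μ Ti : ι → ℝ} (H : ∀ i, Cert7X Bx W F (μ i) (Ti i)) {ψ : ℝ → ℝ} (hψ : Continuous ψ)
    {T : ℝ} (h : ∀ x, 0 ≤ x → ∃ i, ψ x ≤ μ i * x + (T - Ti i)) : RawP Φ' ψ (W 0) T := fun _ he =>
  CST.raw_le_phi sys7 S' hW hW0 HF.cG7 (fun _ hε => G7_small HB hε)
    (fun i => CST.contDiffOn_lab HF.b 5 6 i) (fun _ hε => lab_small HB hε) hψ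
    (fun f h' k hf V => by
      obtain ⟨i, hi⟩ := h _ (CST.nu_nonneg (cu Φ' f) (du dΦ' f h') (du dΦ' f k))
      have := hstX_of HD hW HF (H i) hf V
      linarith) he

/-- two certificates with the deviation of the start map -/
theorem raw7XP2 (S' : Sys Φ' dΦ' K' L') {Bx : Dev} (HD : IsDev Φ' dΦ' Bx) {W : ℝ → ℝ} {F : Cof}
    (hW : ContDiffOn ℝ 1 W (Ioi 0)) (hW0 : ContinuousOn W (Ici 0)) (HF : F.Sm) (HB : F.Bo)
    {μ μ₂ t T : ℝ} (H : Cert7X Bx W F μ T) (H2 : Cert7X Bx W F μ₂ (T + t)) :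
    RawP Φ' (psi2 μ μ₂ t) (W 0) T :=
  raw7XP S' HD hW hW0 HF HB (ι := Bool) (μ := fun i => if i then μ₂ else μ)
    (Ti := fun i => if i then T + t else T)
    (fun i => by cases i <;> simpa) (psi2_cont _ _ _) fun x _ => psi2_fam x

end Pool.Agent.FPX.OM7
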