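import Mathlib
import Pool.Agent.FPX.XSP
import Pool.Agent.FPX.PNQ
import Pool.Agent.FPX.FAC0

/-
ASX (helper96): the end of the assembly. `Closes φ c₀ X`: the closing theorem for the penalty `φ` (from any closing
module, `ASC` for the tables). `two_pi_of_rawP`: from the inequality for the raw map (`RawP`, any class of forms,
any function `ψ` of the deviation) and `Closes` to the area of isometric fillings. `psOk`: the Boolean check of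
`μ φ ≤ ψ` for the function `psi2` of two certificates, `phOk` for one certificate, `xsOk` the check of the start
value, `expOk` the check of `N < e^{c₀}`.
-/

open MeasureTheory Set Filter Topology Complex
open scoped ENNReal NNReal ContDiff ComplexConjugate Manifold

noncomputable section

namespace Pool.Agent.FPX.ASX

open Pool.Agent.FPX Pool.Agent.FPX.UMP Pool.Agent.FPX.UMQ Pool.Agent.EWD Pool.Agent.FPX.UXA
  Pool.Agent.FPX.CST Pool.Agent.FPX.CNU Pool.Agent.FPM Pool.Agent.FPX.XCO Pool.Agent.FPX.VTB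

variable {n : ℕ} {Φ : Fin (n + 2) → (ℝ → ℝ) → ℝ} {dΦ : Fin (n + 2) → (ℝ → ℝ) → (ℝ → ℝ) → ℝ} {K L : ℝ}

/-! ### the penalty against an affine function -/

theorem pkG_convex {lφ : List (ℚ × ℚ)} (hφ : qOk 1 lφ = true) : ConvexOn ℝ univ (pkG 0 1 (clQ lφ)) := by
  have hpk : pkOk 1 (clQ lφ) := by simpa using qOk_pkOk lφ 1 hφ
  have hd : ∀ y, HasDerivAt (pkG 0 1 (clQ lφ)) (pkD 0 1 (clQ lφ) y) y := fun y => by
    have h1 := pkJ_hasDerivAt (clQ lφ) 1 (y - 0)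
    have h2 : HasDerivAt (fun y => pkJ 1 (clQ lφ) (y - 0)) (pkI 1 (clQ lφ) (y - 0)) y :=
      HasDerivAt.comp_sub_const y 0 h1
    have h3 : HasDerivAt (fun y : ℝ => 1 * (y - 0)) 1 y := by
      have := ((hasDerivAt_id y).sub_const 0).const_mul (1 : ℝ)
      rwa [mul_one] at this
    exact h3.add h2
  refine Monotone.convexOn_univ_of_deriv (fun y => (hd y).differentiableAt) fun y z hyz => ?_
  rw [(hd y).deriv, (hd z).deriv]
  unfold pkD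
  have := pkI_mono (clQ lφ) 1 hpk (show y - 0 ≤ z - 0 by linarith)
  linarith

theorem pkG_cast (lφ : List (ℚ × ℚ)) (x : ℚ) : pkG 0 1 (clQ lφ) (x : ℝ) = ((qG 0 1 lφ x : ℚ) : ℝ) := by
  have := qG_cast 0 1 lφ x
  simpa using this.symm

/-- `μ φ ≤ a x + b` on an interval from the end points -/
theorem pkG_le_aff {lφ : List (ℚ × ℚ)} (hφ : qOk 1 lφ = true) {μ a b x₀ x₁ : ℚ} (hμ : 0 ≤ μ)
    (h0 : μ * qG 0 1 lφ x₀ ≤ a * x₀ + b) (h1 : μ * qG 0 1 lφ x₁ ≤ a * x₁ + b) {x : ℝ} (hx0 : x₀ ≤ x)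
    (hx1 : x ≤ x₁) : μ * pkG 0 1 (clQ lφ) x ≤ a * x + b := by
  have k0 : (μ : ℝ) * pkG 0 1 (clQ lφ) (x₀ : ℝ) ≤ a * x₀ + b := by
    rw [pkG_cast]
    exact_mod_cast h0
  have k1 : (μ : ℝ) * pkG 0 1 (clQ lφ) (x₁ : ℝ) ≤ a * x₁ + b := by
    rw [pkG_cast]
    exact_mod_cast h1
  have rμ : (0 : ℝ) ≤ μ := by exact_mod_cast hμ
  rcases hx0.eq_or_lt with h | h
  · rw [← h]
    exact k0
  · have hd : (0 : ℝ) < (x₁ : ℝ) - x₀ := by linarith
    have hc := (pkG_convex hφ).2 (mem_univ (x₀ : ℝ)) (mem_univ (x₁ : ℝ))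
      (show (0 : ℝ) ≤ (x₁ - x) / (x₁ - x₀) from div_nonneg (by linarith) hd.le)
      (show (0 : ℝ) ≤ (x - x₀) / (x₁ - x₀) from div_nonneg (by linarith) hd.le)
      (by field_simp; ring)
    simp only [smul_eq_mul] at hc
    have e : ((x₁ : ℝ) - x) / (x₁ - x₀) * x₀ + (x - x₀) / (x₁ - x₀) * x₁ = x := by
      field_simp
      ring
    rw [e] at hc
    have s0 := mul_le_mul_of_nonneg_left k0
      (show (0 : ℝ) ≤ (x₁ - x) / (x₁ - x₀) from div_nonneg (by linarith) hd.le)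
    have s1 := mul_le_mul_of_nonneg_left k1
      (show (0 : ℝ) ≤ (x - x₀) / (x₁ - x₀) from div_nonneg (by linarith) hd.le)
    have s2 := mul_le_mul_of_nonneg_left hc rμ
    have e2 : ((x₁ : ℝ) - x) / (x₁ - x₀) * (a * x₀ + b) + (x - x₀) / (x₁ - x₀) * (a * x₁ + b)
        = a * x + b := by
      field_simp
      ring
    nlinarith

/-- the bound of the range of `ν` -/
theorem range_le {c₀ xm : ℚ} (hc : c₀ ≤ 15) (hx : 2 * eU c₀ ^ 2 ≤ xm) {x : ℝ}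
    (h1 : x ≤ 2 * Real.exp c₀ ^ 2) : x ≤ xm := by
  have e1 : Real.exp (c₀ : ℝ) ≤ (eU c₀ : ℝ) := le_eU hc
  have e2 : (2 : ℝ) * (eU c₀ : ℝ) ^ 2 ≤ xm := by exact_mod_cast hx
  have := pow_le_pow_left₀ (Real.exp_pos (c₀ : ℝ)).le e1 2
  linarith

/-- the check for one certificate: `φ ≤ ms x` on `[0, 2 e^{2 c₀}]` -/
def phOk (ms c₀ xm : ℚ) (lφ : List (ℚ × ℚ)) : Bool :=
  decide (0 < ms ∧ c₀ ≤ 15 ∧ 2 * eU c₀ ^ 2 ≤ xm ∧ qG 0 1 lφ xm ≤ ms * xm)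

/-- the check for two certificates: `μ φ ≤ max (μ x) (μ₂ x - t)` on `[0, 2 e^{2 c₀}]` -/
def psOk (μ μ₂ t c₀ x₁ xm : ℚ) (lφ : List (ℚ × ℚ)) : Bool :=
  decide (0 < μ ∧ 0 ≤ x₁ ∧ c₀ ≤ 15 ∧ 2 * eU c₀ ^ 2 ≤ xm ∧ qG 0 1 lφ x₁ ≤ x₁ ∧
    μ * qG 0 1 lφ x₁ ≤ μ₂ * x₁ - t ∧ μ * qG 0 1 lφ xm ≤ μ₂ * xm - t)

/-- the check of the start value, `w ≤ W 0` -/
def xsOk (μ T w X : ℚ) : Bool := decide (0 < μ ∧ w ≤ T ∧ 2 * 3.141593 * (T - w) < X * μ)

/-- the check of `N < e^{c₀}` -/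
def expOk (N c₀ : ℚ) : Bool := decide (0 ≤ N ∧ 0 ≤ c₀ ∧ N < eL c₀)

theorem qG_zero {lφ : List (ℚ × ℚ)} (hφ : qOk 1 lφ = true) : qG 0 1 lφ 0 = 0 := by
  have hpk : pkOk 1 (clQ lφ) := by simpa using qOk_pkOk lφ 1 hφ
  have k : ((qG 0 1 lφ 0 : ℚ) : ℝ) = 0 := by
    rw [← pkG_cast]
    unfold pkG
    push_cast
    rw [sub_self, mul_zero, zero_add]
    exact pkJ_of_nonpos _ _ hpk le_rfl
  exact_mod_cast k

theorem le_of_phOk {lφ : List (ℚ × ℚ)} (hφ : qOk 1 lφ = true) {ms c₀ xm : ℚ} (h : phOk ms c₀ xm lφ = true)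
    {μ : ℝ} (hμ : 0 < μ) (x : ℝ) (h0 : 0 ≤ x) (h1 : x ≤ 2 * Real.exp c₀ ^ 2) :
    μ / ms * pkG 0 1 (clQ lφ) x ≤ μ * x := by
  obtain ⟨c1, c2, c3, c4⟩ := of_decide_eq_true h
  have r1 : (0 : ℝ) < ms := by exact_mod_cast c1
  have k := pkG_le_aff hφ (μ := 1) (a := ms) (b := 0) (x₀ := 0) (x₁ := xm) zero_le_one
    (by rw [qG_zero hφ]; simp) (by rw [one_mul, add_zero]; exact c4) (by simpa using h0)
    (range_le c2 c3 h1)
  rw [Rat.cast_one, one_mul, Rat.cast_zero, add_zero] at k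
  have := mul_le_mul_of_nonneg_left k (div_pos hμ r1).le
  have e : μ / ms * (ms * x) = μ * x := by field_simp
  rwa [e] at this

theorem le_of_psOk {lφ : List (ℚ × ℚ)} (hφ : qOk 1 lφ = true) {μ μ₂ t c₀ x₁ xm : ℚ}
    (h : psOk μ μ₂ t c₀ x₁ xm lφ = true) (x : ℝ) (h0 : 0 ≤ x) (h1 : x ≤ 2 * Real.exp c₀ ^ 2) :
    μ * pkG 0 1 (clQ lφ) x ≤ psi2 μ μ₂ t x := by
  obtain ⟨c1, c2, c3, c4, c5, c6, c7⟩ := of_decide_eq_true h
  have hx := range_le c3 c4 h1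
  rcases le_total x x₁ with hxx | hxx
  · refine le_trans ?_ (le_max_left _ _)
    have := pkG_le_aff hφ (μ := μ) (a := μ) (b := 0) (x₀ := 0) (x₁ := x₁) c1.le
      (by rw [qG_zero hφ]; simp)
      (by rw [add_zero]; exact mul_le_mul_of_nonneg_left c5 c1.le) (by simpa using h0) hxx
    simpa using this
  · refine le_trans ?_ (le_max_right _ _)
    have := pkG_le_aff hφ (μ := μ) (a := μ₂) (b := -t) (x₀ := x₁) (x₁ := xm) c1.le
      (by rw [← sub_eq_add_neg]; exact c6) (by rw [← sub_eq_add_neg]; exact c7) hxx hx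
    rw [Rat.cast_neg, ← sub_eq_add_neg] at this
    exact this

theorem xs_lt {μ T w X : ℚ} (h : xsOk μ T w X = true) {w' : ℝ} (hw : (w : ℝ) ≤ w') :
    2 * Real.pi * (T - w') / μ < X := by
  obtain ⟨c1, c2, c3⟩ := of_decide_eq_true h
  have r1 : (0 : ℝ) < μ := by exact_mod_cast c1
  have r2 : (w : ℝ) ≤ T := by exact_mod_cast c2
  have r3 : (2 : ℝ) * 3.141593 * ((T : ℝ) - w) < X * μ := by
    have : ((2 * 3.141593 * (T - w) : ℚ) : ℝ) < ((X * μ : ℚ) : ℝ) := by exact_mod_cast c3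
    push_cast at this
    norm_num at this ⊢
    linarith
  rw [div_lt_iff₀ r1]
  have hpi := Real.pi_lt_d6
  have hp0 := Real.pi_pos
  have s1 : 2 * Real.pi * ((T : ℝ) - w') ≤ 2 * Real.pi * ((T : ℝ) - w) :=
    mul_le_mul_of_nonneg_left (by linarith) (by positivity)
  have s2 : 2 * Real.pi * ((T : ℝ) - w) ≤ 2 * 3.141593 * ((T : ℝ) - w) :=
    mul_le_mul_of_nonneg_right (by linarith) (by linarith)
  linarith

theorem exp_lt {N c₀ : ℚ} (h : expOk N c₀ = true) : (0 : ℝ) ≤ N ∧ (0 : ℝ) ≤ c₀ ∧ (N : ℝ) < Real.exp c₀ := by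
  obtain ⟨c1, c2, c3⟩ := of_decide_eq_true h
  have : (N : ℝ) < (eL c₀ : ℝ) := by exact_mod_cast c3
  exact ⟨by exact_mod_cast c1, by exact_mod_cast c2, this.trans_le (eL_le c₀)⟩

/-! ### the result -/

/-- the closing theorem for the penalty `φ`, the constant `c₀` and start values below `X` -/
def Closes (φ : ℝ → ℝ) (c₀ X : ℝ) : Prop :=
  ∀ Xs : ℝ, StartPh φ 2 Xs c₀ → Xs < X → ∀ δ : ℝ, 0 < δ → Close (2 * Real.pi - δ)

/-- **the sharp bound in the form of the hand-in, from the inequality for the raw map and the closing theorem** -/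
theorem two_pi_of_rawP (S : Sys Φ dΦ K L) {φ ψ : ℝ → ℝ} (hφ : Continuous φ) {μ w T : ℝ} (hμ : 0 < μ)
    (hT : 0 ≤ T) (H : RawP Φ ψ w T) {N : ℝ} (hN0 : 0 ≤ N) (hN : ∀ f h k : ℝ → ℝ, Ef f → Var h k →
      ‖(CST.vv (cu Φ f) (du dΦ f h) + I * CST.vv (cu Φ f) (du dΦ f k)) / 2‖ ≤ N)
    {c₀ X : ℝ} (hc₀ : 0 ≤ c₀) (hCl : Closes φ c₀ X) (hN1 : N < Real.exp c₀) (hψ0 : ∀ x, 0 ≤ x → 0 ≤ ψ x)
    (hφψ : ∀ x, 0 ≤ x → x ≤ 2 * Real.exp c₀ ^ 2 → μ * φ x ≤ ψ x)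
    (hXs : 2 * Real.pi * (T - w) / μ < X)
    (M : Type) [MetricSpace M] [CompactSpace M] [ChartedSpace (EuclideanHalfSpace 2) M]
    [Pool.Agent.H74.Surf.RiemannianSpace (𝓡∂ 2) M]
    (horient : Pool.Agent.H74.Surf.Orientable (𝓡∂ 2) M) (σ : Pool.Agent.H74.Surf.S1 → M)
    (hσ : Pool.Agent.H74.Surf.IsometricFilling (𝓡∂ 2) σ) :
    ENNReal.ofReal (2 * Real.pi) ≤ Pool.Agent.H74.Surf.area M :=
  handin_two_pi (hCl _ (startPh_of_raw S hφ hμ hT H hN0 hN hc₀ hN1 hψ0 hφψ) hXs) M horient σ hσ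

/-- **the same for one certificate and the penalty of the table**, all checks Boolean -/
theorem two_pi_of_raw1 (S : Sys Φ dΦ K L) {lφ : List (ℚ × ℚ)} (hφ : qOk 1 lφ = true)
    {μ T w ms xm N c₀ X : ℚ} (hT : 0 ≤ T) {w' : ℝ} (H : RawP Φ (fun x => μ * x) w' T)
    (hN : ∀ f h k : ℝ → ℝ, Ef f → Var h k →
      ‖(CST.vv (cu Φ f) (du dΦ f h) + I * CST.vv (cu Φ f) (du dΦ f k)) / 2‖ ≤ N)
    (hw : (w : ℝ) ≤ w') (hCl : Closes (pkG 0 1 (clQ lφ)) c₀ X) (hxs : xsOk (μ / ms) T w X = true)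
    (hph : phOk ms c₀ xm lφ = true) (hN1 : expOk N c₀ = true)
    (M : Type) [MetricSpace M] [CompactSpace M] [ChartedSpace (EuclideanHalfSpace 2) M]
    [Pool.Agent.H74.Surf.RiemannianSpace (𝓡∂ 2) M]
    (horient : Pool.Agent.H74.Surf.Orientable (𝓡∂ 2) M) (σ : Pool.Agent.H74.Surf.S1 → M)
    (hσ : Pool.Agent.H74.Surf.IsometricFilling (𝓡∂ 2) σ) :
    ENNReal.ofReal (2 * Real.pi) ≤ Pool.Agent.H74.Surf.area M := by
  obtain ⟨q1, -⟩ := of_decide_eq_true hph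
  obtain ⟨q2, -⟩ := of_decide_eq_true hxs
  have q3 : 0 < μ := by
    have := mul_pos q2 q1
    rwa [div_mul_cancel₀ _ q1.ne'] at this
  have r3 : (0 : ℝ) < μ := by exact_mod_cast q3
  have r1 : (0 : ℝ) < ms := by exact_mod_cast q1
  have hx := xs_lt hxs hw
  rw [Rat.cast_div] at hx
  obtain ⟨n1, n2, n3⟩ := exp_lt hN1
  have Pn := pen_pkG (l := clQ lφ) (by simpa using qOk_pkOk lφ 1 hφ)
  exact two_pi_of_rawP S Pn.cont (μ := μ / ms) (div_pos r3 r1) (by exact_mod_cast hT) H n1 hN n2 hCl n3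
    (fun x h0 => mul_nonneg r3.le h0) (fun x h0 h1 => le_of_phOk hφ hph r3 x h0 h1) hx M horient σ hσ

/-- **the same for two certificates and the penalty of the table**, all checks Boolean -/
theorem two_pi_of_raw2 (S : Sys Φ dΦ K L) {lφ : List (ℚ × ℚ)} (hφ : qOk 1 lφ = true)
    {μ μ₂ t T w x₁ xm N c₀ X : ℚ} (hT : 0 ≤ T) {w' : ℝ} (H : RawP Φ (psi2 μ μ₂ t) w' T)
    (hN : ∀ f h k : ℝ → ℝ, Ef f → Var h k →
      ‖(CST.vv (cu Φ f) (du dΦ f h) + I * CST.vv (cu Φ f) (du dΦ f k)) / 2‖ ≤ N)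
    (hw : (w : ℝ) ≤ w') (hCl : Closes (pkG 0 1 (clQ lφ)) c₀ X) (hxs : xsOk μ T w X = true)
    (hps : psOk μ μ₂ t c₀ x₁ xm lφ = true) (hN1 : expOk N c₀ = true)
    (M : Type) [MetricSpace M] [CompactSpace M] [ChartedSpace (EuclideanHalfSpace 2) M]
    [Pool.Agent.H74.Surf.RiemannianSpace (𝓡∂ 2) M]
    (horient : Pool.Agent.H74.Surf.Orientable (𝓡∂ 2) M) (σ : Pool.Agent.H74.Surf.S1 → M)
    (hσ : Pool.Agent.H74.Surf.IsometricFilling (𝓡∂ 2) σ) :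
    ENNReal.ofReal (2 * Real.pi) ≤ Pool.Agent.H74.Surf.area M := by
  obtain ⟨q1, -⟩ := of_decide_eq_true hps
  have r1 : (0 : ℝ) < μ := by exact_mod_cast q1
  obtain ⟨n1, n2, n3⟩ := exp_lt hN1
  have Pn := pen_pkG (l := clQ lφ) (by simpa using qOk_pkOk lφ 1 hφ)
  exact two_pi_of_rawP S Pn.cont r1 (by exact_mod_cast hT) H n1 hN n2 hCl n3
    (fun x h0 => psi2_nonneg r1.le h0) (fun x h0 h1 => le_of_psOk hφ hps x h0 h1) (xs_lt hxs hw) M horient σ hσ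

end Pool.Agent.FPX.ASX
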