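import Mathlib
import Pool.Agent.FPX.CBD

/-
RFD (helper58): fast rows for the closing table. All data are natural numbers in units `10 ^ (-5)`,
internal scale `2 ^ 40`, exponentials by one power; the certificate is that of `VT2` (two accounts).
Definitions only (no analysis), so that data modules do not wait for the rest.
-/

namespace Pool.Agent.FPX.RF

open VTB

/-- lower bound of `2 ^ 40 * exp (t / 2 ^ 30)`, argument in the unit `2 ^ (-30)` -/
def xL0 (t : ℕ) : ℕ :=
  Nat.shiftRight (Nat.pow (Nat.div (Nat.add (Nat.mul (Nat.add (Nat.mul (Nat.add t 3298534883328) t)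
    7253554917687775048237056) t) 7975367974709495237422842361682067456)
    7253554917687775048237056) 1024) 40920

/-- lower bound of `2 ^ 40 * exp (n / 10 ^ 5)` -/
def xL (n : ℕ) : ℕ := xL0 (Nat.div (Nat.mul n 1073741824) 100000)

/-- upper bound of `2 ^ 40 * exp (t / 2 ^ 30)` -/
def xU0 (t : ℕ) : ℕ :=
  Nat.add (Nat.shiftRight (Nat.pow (Nat.add (Nat.div (Nat.add (Nat.mul (Nat.add (Nat.mul (Nat.add
    (Nat.mul (Nat.add (Nat.mul 5 t) 17592186044416) t) 58028439341502200385896448) t)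
    127605887595351923798765477786913079296) t)
    140304157183766680147553743940763169886969524125696)
    127605887595351923798765477786913079296) 1) 1024) 40920) 1

/-- upper bound of `2 ^ 40 * exp (n / 10 ^ 5)` -/
def xU (n : ℕ) : ℕ := xU0 (Nat.add (Nat.div (Nat.mul n 1073741824) 100000) 1)

/-- `Z = 2 ^ 120 * 10 ^ 10` -/
def Z : ℕ := 13292279957849158729038070602803445760000000000

/-- the weight `2 ^ 40 * y` -/
def yv (x : ℕ) : ℕ := Nat.div 1208925819614629174706176 (xU x)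

/-- the lower end of an interval of areas -/
def bn (d B : ℕ) : ℕ := Nat.add (Nat.div (Nat.mul B 1099511627776) (xL d)) 1

/-- the contribution of one triple, `y = yv x`, `B' = bn d B` -/
def cv (FK KI d x s B y B' : ℕ) : ℕ :=
  Nat.add (Nat.mul (Nat.mul d 1099511627776)
    (Nat.sub (Nat.add 120892581961462917470617600000 (Nat.mul (Nat.mul y FK) 100000))
      (Nat.mul (Nat.mul y 1099511627776) (Nat.add 100000 x))))
    (Nat.mul (Nat.mul (Nat.mul (Nat.mul y s) KI) 100000) (Nat.sub B B'))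

/-- one triple `(d, x, s)`, state `(B, acc)` -/
def stp (FK KI NN : ℕ) (h : ℕ × ℕ × ℕ) (a : ℕ × ℕ) : ℕ × ℕ :=
  (bn h.1 a.1, Nat.add a.2 (bif Nat.ble (bn h.1 a.1) a.1 && Nat.ble h.2.2 NN &&
    Nat.ble h.2.1 10000000 && Nat.ble 1 (yv h.2.1) then
      cv FK KI h.1 h.2.1 h.2.2 a.1 (yv h.2.1) (bn h.1 a.1) else Z))

/-- the state after the triples, `B` the upper end of the areas -/
noncomputable def fld (FK KI NN B : ℕ) (js : List (ℕ × ℕ × ℕ)) : ℕ × ℕ :=
  List.rec (B, 0) (fun h _ ih => stp FK KI NN h ih) js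

/-- the pointwise sum at the value `L` -/
noncomputable def gsm (L : ℕ) (js : List (ℕ × ℕ × ℕ)) : ℕ :=
  List.rec 0 (fun h _ ih => Nat.add (Nat.mul (Nat.mul (yv h.2.1) h.1) (Nat.sub L h.2.2)) ih) js

/-- the check at the vertices -/
noncomputable def vck (kS lam mu : ℕ) (js : List (ℕ × ℕ × ℕ)) (V : List (ℕ × ℕ)) : Bool :=
  List.rec true (fun v _ ih => Nat.ble (Nat.add (Nat.mul 2 (gsm v.2 js)) (Nat.mul (Nat.mul kS mu)
    (min (Nat.mul 2 v.1) (Nat.add 200000 v.1)))) (Nat.mul (Nat.mul (Nat.mul 2 kS) lam) v.1) && ih) V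

/-- one cell of the two accounts -/
structure RowN where
  d : ℕ
  l : ℕ
  lam : ℕ
  mu : ℕ
  lG : ℕ
  js : List (ℕ × ℕ × ℕ)

/-- the numbers of one table -/
structure ParN where
  kS : ℕ
  kU : ℕ
  KI : ℕ
  FK : ℕ
  NF : ℕ
  A1 : ℕ
  NN : ℕ
  XN : ℕ
  AD : ℕ
  R4 : ℕ
  KS : ℕ
  c1 : ℕ
  c2 : ℕ

/-- the number and the product on `[w₀, w] × [d₀, t.d]` -/
noncomputable def rowN (p : ParN) (V : List (ℕ × ℕ)) (w0 w d0 : ℕ) (t : RowN) : Bool :=
  (fun al qa xw : ℕ => fun f : ℕ × ℕ =>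
    Nat.ble t.d p.XN && Nat.ble 1 t.l && Nat.ble t.l 1500000 && Nat.ble t.mu t.lam && Nat.ble 1 al &&
    Nat.ble (Nat.mul qa 1099511627776) (Nat.mul al (xL t.lG)) &&
    Nat.blt (Nat.mul (Nat.add (Nat.mul (Nat.mul p.R4 xw) t.l) (Nat.mul p.kU 10000000000))
      (Nat.add (Nat.add (Nat.mul (Nat.mul (Nat.mul p.c1 t.lG) al) qa)
        (Nat.mul (Nat.mul p.c2 10000000000) (Nat.sub 1256638 (Nat.mul 2 al))))
        (Nat.mul (Nat.mul (Nat.mul p.KS xw) al) qa)))
      (Nat.mul (Nat.mul (Nat.mul 12089258196146291747061760000000000 t.l) al) qa) &&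
    Nat.blt (Nat.add (Nat.add (Nat.mul (Nat.mul p.NF f.1) 10995116277760000000000) f.2)
      (Nat.mul (Nat.mul t.lam w) 1329227995784915872903807060280344576))
      (Nat.add Z (Nat.mul (Nat.mul t.mu d0) 1329227995784915872903807060280344576)) &&
    vck p.kS t.lam t.mu t.js V)
    (Nat.sub p.AD t.d) (Nat.sub 1256638 (Nat.sub p.AD t.d)) (Nat.sub p.XN w0)
    (fld p.FK p.KI p.NN (Nat.add (Nat.div (Nat.mul p.A1 (xU t.l)) 100000) 1) t.js)

/-- the cells of the second account -/
noncomputable def rowsNd (p : ParN) (V : List (ℕ × ℕ)) (w0 w : ℕ) : ℕ → List RowN → Bool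
  | _, [] => false
  | d0, t :: l => rowN p V w0 w d0 t && (Nat.ble w t.d || rowsNd p V w0 w t.d l)

/-- the cells of the first account -/
noncomputable def rowsNw (p : ParN) (V : List (ℕ × ℕ)) : ℕ → List (ℕ × List RowN) → Bool
  | _, [] => false
  | w0, t :: l => Nat.ble w0 p.XN && Nat.ble t.1 p.XN && rowsNd p V w0 t.1 (Nat.div w0 2) t.2 &&
      (Nat.ble p.XN t.1 || rowsNw p V t.1 l)

/-- the numbers against the rational parameters -/
def parN (p : Par) (n : ParN) : Bool :=
  decide ((n.kS : ℚ) ≤ p.κ * 1099511627776 ∧ p.κ * 1099511627776 ≤ n.kU ∧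
    1099511627776 ≤ p.κ * n.KI ∧ p.F * 1099511627776 ≤ p.κ * n.FK ∧
    (p.N + p.F / p.b) * 1099511627776 ≤ p.κ * n.NF ∧ p.a1 * 100000 = n.A1 ∧ (n.NN : ℚ) ≤ p.N * 100000 ∧
    p.X * 100000 = n.XN ∧ (p.a1 - p.D) * 100000 = n.AD ∧ 4 * p.ρ * 1099511627776 ≤ n.R4 ∧
    p.K * 1099511627776 ≤ n.KS ∧
    (1 + p.cG / (8 * 3.141592 ^ 2)) / (4 * 3.141592) * 1099511627776 ≤ n.c1 ∧
    p.cG / (16 * 3.141592 ^ 2) * 1099511627776 ≤ n.c2)

/-- the vertices against the rational ones -/
def vnOk : List (ℚ × ℚ) → List (ℕ × ℕ) → Bool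
  | [], [] => true
  | p :: V, n :: U => decide ((n.1 : ℚ) ≤ p.1 * 100000 ∧ p.2 * 100000 ≤ n.2) && vnOk V U
  | _, _ => false

/-- the table: numbers `n`, vertices `U`, value `W2` at `2` -/
noncomputable def tabN (p : Par) (V : List (ℚ × ℚ)) (n : ParN) (U : List (ℕ × ℕ)) (W2 : ℕ)
    (l : List (ℕ × List RowN)) : Bool :=
  parOk p && parN p n && vnOk V U && decide (w2 V * 100000 ≤ W2) && rowsNw n ((200000, W2) :: U) 0 l

/-- packed triples -/
noncomputable def dj (n z : ℕ) : List (ℕ × ℕ × ℕ) :=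
  Nat.rec (motive := fun _ => ℕ → List (ℕ × ℕ × ℕ)) (fun _ => []) (fun _ ih z =>
    (Nat.mod z 16777216, Nat.mod (Nat.div z 16777216) 16777216,
      Nat.mod (Nat.div z 281474976710656) 16777216) :: ih (Nat.div z 4722366482869645213696)) n z

/-- a packed cell (the format of `VTB.decD`): number of triples, `d`, `l`, `lam`, `mu`, `lG`, triples -/
noncomputable def dR (z : ℕ) : RowN :=
  ⟨Nat.mod (Nat.div z 16777216) 16777216, Nat.mod (Nat.div z 281474976710656) 16777216,
    Nat.mod (Nat.div z 4722366482869645213696) 16777216,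
    Nat.mod (Nat.div z 79228162514264337593543950336) 16777216,
    Nat.mod (Nat.div z 1329227995784915872903807060280344576) 16777216,
    dj (Nat.mod z 16777216) (Nat.div z 22300745198530623141535718272648361505980416)⟩

/-- packed triples, digits `2 ^ 24`, `2 ^ 24`, `2 ^ 48` -/
noncomputable def dk (n z : ℕ) : List (ℕ × ℕ × ℕ) :=
  Nat.rec (motive := fun _ => ℕ → List (ℕ × ℕ × ℕ)) (fun _ => []) (fun _ ih z =>
    (Nat.mod z 16777216, Nat.mod (Nat.div z 16777216) 16777216,
      Nat.mod (Nat.div z 281474976710656) 281474976710656) ::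
        ih (Nat.div z 79228162514264337593543950336)) n z

/-- a packed cell: number of triples, `d`, `l`, `lam`, `mu`, `lG` (digits `2 ^ 24`), triples of `dk` -/
noncomputable def rk (z : ℕ) : RowN :=
  ⟨Nat.mod (Nat.div z 16777216) 16777216, Nat.mod (Nat.div z 281474976710656) 16777216,
    Nat.mod (Nat.div z 4722366482869645213696) 16777216,
    Nat.mod (Nat.div z 79228162514264337593543950336) 16777216,
    Nat.mod (Nat.div z 1329227995784915872903807060280344576) 16777216,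
    dk (Nat.mod z 16777216) (Nat.div z 22300745198530623141535718272648361505980416)⟩

end Pool.Agent.FPX.RF
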