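import Mathlib
import Pool.Agent.FPX.CBD
import Pool.Agent.FPX.RFD

/-
CBE (helper58): Boolean check of all polygons for one cell of `c` (no analysis, for the data modules).
-/

namespace Pool.Agent.FPX

open VTB

/-- the data of one cell with image, fast rows (RFD) -/
structure CellN where
  p : Par
  s : ℚ
  xl : ℚ
  xu : ℚ
  n : RF.ParN
  U : List (ℕ × ℕ)
  W2 : ℕ
  rows : List (ℕ × List RF.RowN)

/-- the check of one cell with image, fast rows -/
noncomputable def cellN (κ X σ se B ζ' : ℚ) (lφ : List (ℚ × ℚ)) (q : ℚ × ℚ) (V : List (ℚ × ℚ))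
    (r : ℚ × ℚ × ℚ × ℚ) (d : CellN) : Bool :=
  cellH κ X σ se B ζ' lφ q V r d.p d.s d.xl d.xu &&
    RF.tabN d.p (cutV d.p.N (0, 0) q V) d.n d.U d.W2 d.rows

/-- a table with image, one or two accounts, or two accounts with fast rows -/
inductive CellT where
  | c1 (d : CellD)
  | c2 (d : CellD2)
  | c3 (d : CellN)

/-- the check of one table of either type -/
noncomputable def cellT (κ X σ se B ζ' : ℚ) (lφ : List (ℚ × ℚ)) (q : ℚ × ℚ) (V : List (ℚ × ℚ)) (r : ℚ × ℚ × ℚ × ℚ) :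
    CellT → Bool
  | .c1 d => cellC κ X σ se B ζ' lφ q V r d
  | .c2 d => cellC2 κ X σ se B ζ' lφ q V r d
  | .c3 d => cellN κ X σ se B ζ' lφ q V r d

/-- the checks of the tables with image, polygons `P`, parameters `ζ` (from the second one on) -/
noncomputable def colI (κ X σ se B : ℚ) (lφ : List (ℚ × ℚ)) (r : ℚ × ℚ × ℚ × ℚ) :
    List ℚ → List ((ℚ × ℚ) × List (ℚ × ℚ)) → List CellT → Bool
  | z :: ζ, p :: P, d :: ds => cellT κ X σ se B z lφ p.1 p.2 r d && colI κ X σ se B lφ r ζ P ds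
  | _, [_], [] => true
  | _, _, _ => false

/-- the check of one cell of `c` -/
noncomputable def colOk (κ X σ se B : ℚ) (lφ : List (ℚ × ℚ)) (ζ : List ℚ) (P : List ((ℚ × ℚ) × List (ℚ × ℚ)))
    (r : ℚ × ℚ × ℚ × ℚ) (ds : List CellT) (e : CellE) : Bool :=
  colI κ X σ se B lφ r ζ.tail P ds && cellE κ X σ se B lφ (Pi' P (P.length - 1)).1
    (Pi' P (P.length - 1)).2 r e

end Pool.Agent.FPX
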