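import Mathlib
import Pool.Agent.FPX.KEND

/-
KPW (helper95): the pointwise inequality of scheme K with a convex penalty `φ`, the parameter `τ` of
the certificate adapted to the state, and the extra term `P(e) = (1 - √e)²₊` of small energy.
`kpw_ge`: for `m = 2 φ'(ν)`, `β = |v₋|`, `ν = 2 β²`, `τ = max (min √e 1) (1/2) + t(β) - 1`, `t ≥ 1`,
`t = 1` on `[0, 1]`: `|dη|² - 4 W(ν) |η|² + P(e) - F(ν) ≤ Q_τ - 2 φ'(ν) dν[Θ]` as soon as
`(φ' ν)² ≤ W (C(β) + F)`, `C(β) = β² (3 + 4 μ - 1/t) + 1 - t - 4 μ β`, `μ = 2 φ' - 2`, `t - 1 ≤ μ β`.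
`kpw_id`: the case `φ = id`: `W = ν / (1 + ζ)`, `F = ζ ν`, `t = 1`.
-/

open MeasureTheory Set Filter Topology
open scoped ENNReal NNReal

noncomputable section

namespace Pool.Agent.FPX

open Pool.Agent.EWD

/-- the energy density -/
def enb (a b : E3) : ℝ := (‖a‖ ^ 2 + ‖b‖ ^ 2) / 2

/-- the parameter for small energy -/
def tauE (e : ℝ) : ℝ := max (min (√e) 1) (1 / 2)

/-- the parameter for large negative part -/
def tauB (β : ℝ) : ℝ := (max β 1 + 1) / 2

/-- the parameter of the certificate -/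
def tauP (t : ℝ → ℝ) (v a b : E3) : ℝ := tauE (enb a b) + (t ‖qm v a b‖ - 1)

/-- `P(e)`: equals `(1 - √e)²` on `[1/4, 1]` and vanishes for `e ≥ 1` -/
def PE (e : ℝ) : ℝ := 1 - tauE e + e * (1 - 1 / tauE e)

/-- the certificate -/
def QP (t : ℝ → ℝ) (v a b A B : E3) : ℝ := Qtau (tauP t v a b) v a b A B

/-- the constant of the state -/
def CB (s t β : ℝ) : ℝ := β ^ 2 * (3 + 4 * (2 * s - 2) - 1 / t) + 1 - t - 4 * (2 * s - 2) * β

theorem tauE_ge (e : ℝ) : 1 / 2 ≤ tauE e := le_max_right _ _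

theorem tauE_le (e : ℝ) : tauE e ≤ 1 := max_le (min_le_right _ _) (by norm_num)

theorem tauE_one {e : ℝ} (h : 1 ≤ e) : tauE e = 1 := by
  have h1 : 1 ≤ √e := by
    rw [← Real.sqrt_one]
    exact Real.sqrt_le_sqrt h
  unfold tauE
  rw [min_eq_right h1]
  norm_num

theorem tauB_ge (β : ℝ) : 1 ≤ tauB β := by
  have := le_max_right β 1
  unfold tauB
  linarith

theorem tauB_one {β : ℝ} (h : β ≤ 1) : tauB β = 1 := by
  unfold tauB
  rw [max_eq_right h]
  norm_num

theorem tauP_pos {t : ℝ → ℝ} (ht : ∀ β, 1 ≤ t β) (v a b : E3) : 0 < tauP t v a b := by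
  have h1 := tauE_ge (enb a b)
  have h2 := ht ‖qm v a b‖
  unfold tauP
  linarith

theorem enb_nonneg (a b : E3) : 0 ≤ enb a b := by
  unfold enb
  positivity

theorem PE_nonneg {e : ℝ} (he : 0 ≤ e) : 0 ≤ PE e := by
  have h1 := tauE_ge e
  have h2 := tauE_le e
  have h0 : 0 < tauE e := by linarith
  unfold PE
  by_cases h : e ≤ tauE e
  · have h3 : e * (1 - 1 / tauE e) = -(e / tauE e) * (1 - tauE e) := by
      field_simp
      ring
    have h4 : e / tauE e ≤ 1 := (div_le_one h0).2 h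
    rw [h3]
    nlinarith [mul_nonneg (sub_nonneg.2 h4) (sub_nonneg.2 h2)]
  · -- then `tauE e < e`, so `√e ≤ ...`
    push Not at h
    by_cases h1e : 1 ≤ e
    · rw [tauE_one h1e]
      norm_num
    · exfalso
      push Not at h1e
      have h5 : e ≤ √e := by
        have h6 := Real.sq_sqrt he
        have h7 : √e ≤ 1 := by
          exact (Real.sqrt_le_sqrt h1e.le).trans_eq Real.sqrt_one
        nlinarith [Real.sqrt_nonneg e]
      have h8 : √e ≤ 1 := by
        exact (Real.sqrt_le_sqrt h1e.le).trans_eq Real.sqrt_one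
      have h9 : √e ≤ tauE e := by
        unfold tauE
        rw [min_eq_left h8]
        exact le_max_left _ _
      linarith

/-- `(1 - e)²₊ ≤ 4 P(e)` -/
theorem PE_ge {e : ℝ} (he : 0 ≤ e) : max (1 - e) 0 ^ 2 ≤ 4 * PE e := by
  by_cases h1 : 1 ≤ e
  · have h2 := PE_nonneg he
    rw [max_eq_right (by linarith)]
    linarith
  · push Not at h1
    rw [max_eq_left (by linarith)]
    have hs := Real.sq_sqrt he
    have hs0 := Real.sqrt_nonneg e
    have hs1 : √e ≤ 1 := by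
      exact (Real.sqrt_le_sqrt h1.le).trans_eq Real.sqrt_one
    by_cases h2 : 1 / 2 ≤ √e
    · have h3 : tauE e = √e := by
        unfold tauE
        rw [min_eq_left hs1, max_eq_left h2]
      have h4 : PE e = (1 - √e) ^ 2 := by
        unfold PE
        rw [h3]
        have h5 : √e ≠ 0 := by positivity
        have h6 : e * (1 - 1 / √e) = e - √e := by
          have k1 : e * (1 / √e) = √e := by
            rw [mul_one_div, div_eq_iff h5, ← pow_two, hs]
          rw [mul_sub, mul_one, k1]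
        rw [h6]
        nth_rewrite 2 [← hs]
        ring
      rw [h4]
      have h5 : 1 - e = (1 - √e) * (1 + √e) := by
        nth_rewrite 1 [← hs]
        ring
      rw [h5, mul_pow]
      have h6 : (1 + √e) ^ 2 ≤ 4 := by nlinarith
      nlinarith [sq_nonneg (1 - √e)]
    · push Not at h2
      have h3 : tauE e = 1 / 2 := by
        unfold tauE
        rw [min_eq_left hs1, max_eq_right h2.le]
      have h4 : PE e = 1 / 2 - e := by
        unfold PE
        rw [h3]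
        ring
      rw [h4]
      have h5 : e < 1 / 4 := by nlinarith
      nlinarith

/-- the quadratic certificate minus `m` times the first variation of `ν` -/
theorem KP_id {v a b : E3} (hv : ‖v‖ = 1) (ha : inner ℝ v a = (0 : ℝ)) (hb : inner ℝ v b = (0 : ℝ))
    (T A B : E3) (τ m : ℝ) : Qtau τ v a b A B - m * dnu v a b T A B =
      ‖A - a‖ ^ 2 + ‖B - b‖ ^ 2
        + (3 - 3 * τ + 3 * inner ℝ v (crs b a) - 2 * enb a b - enb a b / τ)
        + 2 * m * inner ℝ v T * nuv v a b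
        + (2 - m) * (4 * inner ℝ (qm v a b) (qm v A B))
        + (τ - 1) * (‖prj v A‖ ^ 2 + ‖prj v B‖ ^ 2)
        + (3 / 2 * τ - 1) * (inner ℝ v A ^ 2 + inner ℝ v B ^ 2) := by
  have h3 : (inner ℝ (a - crs v b) (A - crs v B) : ℝ) = 4 * inner ℝ (qm v a b) (qm v A B) := inner_q ha
  have h4 : inner ℝ (crs v b) (crs v B) =
      (inner ℝ v v * inner ℝ b B - inner ℝ v b * inner ℝ v B : ℝ) := by
    simp only [inner3, crs0, crs1, crs2]
    ring
  have h5 : inner ℝ a (crs v B) = (-inner ℝ (crs v a) B : ℝ) := by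
    simp only [inner3, crs0, crs1, crs2]
    ring
  have h6 : (inner ℝ v v : ℝ) = 1 := inner_self_one hv
  rw [inner_sub_left, inner_sub_right, inner_sub_right, h4, h5, h6, hb] at h3
  have h7 := norm_prj_sq hv A
  have h8 := norm_prj_sq hv B
  have e1 : (inner ℝ A a : ℝ) = inner ℝ a A := real_inner_comm _ _
  have e2 : (inner ℝ B b : ℝ) = inner ℝ b B := real_inner_comm _ _
  have e3 : 1 / (2 * τ) * (‖a‖ ^ 2 + ‖b‖ ^ 2) = enb a b / τ := by
    unfold enb
    rw [one_div, div_div, div_eq_mul_inv, mul_comm]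
  unfold Qtau dnu nuv
  rw [norm_sub_sq_real, norm_sub_sq_real, h7, h8, e1, e2, e3]
  unfold enb
  linear_combination 2 * h3

/-- the quadratic function of `y` -/
theorem kp_quad {s ν W D y : ℝ} (hW : 0 ≤ W) (hD : 0 ≤ D) (hν : 0 ≤ s * ν) (h : (s * ν) ^ 2 ≤ W * D) :
    0 ≤ D - 4 * s * ν * y + 4 * W * y ^ 2 := by
  rcases hW.eq_or_lt with h0 | h0
  · rw [← h0, zero_mul] at h
    have h1 : s * ν = 0 := by nlinarith
    have h2 : 4 * s * ν * y = 4 * (s * ν) * y := by ring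
    rw [← h0, h2, h1]
    linarith
  · have h1 : W * (D - 4 * s * ν * y + 4 * W * y ^ 2) = (2 * W * y - s * ν) ^ 2 + (W * D - (s * ν) ^ 2) := by
      ring
    have h2 : 0 ≤ W * (D - 4 * s * ν * y + 4 * W * y ^ 2) := by
      rw [h1]
      have := sub_nonneg.2 h
      positivity
    exact (mul_nonneg_iff_of_pos_left h0).1 h2

/-- **the pointwise inequality** -/
theorem kpw_ge {φ' W F t : ℝ → ℝ} (t1 : ∀ β, 1 ≤ t β) (t0 : ∀ β, β ≤ 1 → t β = 1)
    (h1 : ∀ β : ℝ, 0 ≤ β → 1 ≤ φ' (2 * β ^ 2))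
    (h2 : ∀ β : ℝ, 0 ≤ β → t β - 1 ≤ (2 * φ' (2 * β ^ 2) - 2) * β)
    (h3 : ∀ β : ℝ, 0 ≤ β → 0 ≤ W (2 * β ^ 2))
    (h4 : ∀ β : ℝ, 0 ≤ β → 0 ≤ CB (φ' (2 * β ^ 2)) (t β) β + F (2 * β ^ 2))
    (h5 : ∀ β : ℝ, 0 ≤ β → (φ' (2 * β ^ 2) * (2 * β ^ 2)) ^ 2 ≤
      W (2 * β ^ 2) * (CB (φ' (2 * β ^ 2)) (t β) β + F (2 * β ^ 2)))
    {v a b A B : E3} (T : E3) (hv : ‖v‖ = 1) (ha : inner ℝ v a = (0 : ℝ))
    (hb : inner ℝ v b = (0 : ℝ)) (hAB : InW 2 1 A B) :
    ‖A - a‖ ^ 2 + ‖B - b‖ ^ 2 - 4 * (W (nuv v a b) * ‖T - v‖ ^ 2) + (PE (enb a b) - F (nuv v a b)) ≤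
      QP t v a b A B - 2 * (φ' (nuv v a b) * dnu v a b T A B) := by
  set β := ‖qm v a b‖ with hβ
  have hβ0 : 0 ≤ β := norm_nonneg _
  have hν : nuv v a b = 2 * β ^ 2 := rfl
  rw [hν]
  set s := φ' (2 * β ^ 2) with hs
  have s1 : 1 ≤ s := h1 β hβ0
  have s2 := h2 β hβ0
  have s3 := h3 β hβ0
  have s4 := h4 β hβ0
  have s5 := h5 β hβ0
  rw [← hs] at s2 s4 s5
  have t1 := t1 β
  have t0 := t0 β
  have hτ : tauP t v a b = tauE (enb a b) + (t β - 1) := rfl
  have hQ : QP t v a b A B = Qtau (tauP t v a b) v a b A B := rfl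
  rw [hQ, hτ]
  generalize t β = t at *
  set e := enb a b with he
  have e0 : 0 ≤ e := enb_nonneg a b
  -- the energy and the Jacobian
  have j1 := jac_pm hv ha hb
  have j2 := norm_pm hv ha hb
  set p := ‖qp v a b‖ with hp
  have j3 : e = p ^ 2 + β ^ 2 := by
    rw [he]
    unfold enb
    rw [j2]
    ring
  have j4 : inner ℝ v (crs b a) = e - 2 * β ^ 2 := by
    rw [j1, j3]
    ring
  -- the negative part of `Θ`
  set x := ‖qm v A B‖ with hx
  have x0 : 0 ≤ x := norm_nonneg _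
  have x1 : x ≤ 1 := by
    have k := hAB.m v hv
    have e1 : (2 : ℝ) * ‖qm v A B‖ = ‖prj v A - crs v B‖ := by
      unfold qm
      rw [norm_smul]
      norm_num
      ring
    rw [← e1] at k
    linarith
  have hc : (inner ℝ (qm v a b) (qm v A B) : ℝ) ≤ β * x := real_inner_le_norm _ _
  set c : ℝ := inner ℝ (qm v a b) (qm v A B) with hcdef
  -- the energies of `Θ`
  set S := ‖prj v A‖ ^ 2 + ‖prj v B‖ ^ 2 with hS
  set w := (inner ℝ v A : ℝ) ^ 2 + (inner ℝ v B : ℝ) ^ 2 with hw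
  have w0 : 0 ≤ w := by positivity
  have hSx : 2 * x ^ 2 ≤ S := by
    have k := norm_pm (X := prj v A) (Y := prj v B) hv (prj_perp hv A) (prj_perp hv B)
    have k2 : qm v (prj v A) (prj v B) = qm v A B := by
      unfold qm
      rw [prj_prj hv, crs_prj]
    rw [k2] at k
    have k3 : 0 ≤ ‖qp v (prj v A) (prj v B)‖ ^ 2 := by positivity
    rw [hS, k]
    linarith
  have hSw : S + w ≤ 2 := by
    have k := hAB.s
    have k1 := norm_prj_sq hv A
    have k2 := norm_prj_sq hv B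
    rw [hS, hw]
    linarith
  -- the height
  set y := ‖T - v‖ with hy
  have y0 : 0 ≤ y := norm_nonneg _
  have hz : 1 - y ≤ (inner ℝ v T : ℝ) := by
    have k1 : (inner ℝ v T : ℝ) = 1 + inner ℝ v (T - v) := by
      rw [inner_sub_right, real_inner_self_eq_norm_sq, hv]
      ring
    have k2 := abs_real_inner_le_norm v (T - v)
    rw [hv, one_mul] at k2
    have k3 := neg_abs_le (inner ℝ v (T - v) : ℝ)
    rw [k1]
    linarith
  have hid := KP_id hv ha hb T A B (tauE e + (t - 1)) (2 * s)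
  have e3 : Qtau (tauE e + (t - 1)) v a b A B - 2 * (s * dnu v a b T A B) =
      Qtau (tauE e + (t - 1)) v a b A B - 2 * s * dnu v a b T A B := by
    ring
  rw [e3, hid, j4, hν]
  have q1 := kp_quad (s := s) (ν := 2 * β ^ 2) (W := W (2 * β ^ 2)) (y := y) s3 s4 (by positivity) s5
  have q2 : 2 * (2 * s) * (1 - y) * (2 * β ^ 2) ≤ 2 * (2 * s) * inner ℝ v T * (2 * β ^ 2) := by
    have h := mul_le_mul_of_nonneg_right (mul_le_mul_of_nonneg_left hz
      (show (0 : ℝ) ≤ 2 * (2 * s) by linarith)) (show (0 : ℝ) ≤ 2 * β ^ 2 by positivity)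
    exact h
  have q3 : (2 - 2 * s) * (4 * (β * x)) ≤ (2 - 2 * s) * (4 * c) := by
    have h6 : 0 ≤ 2 * s - 2 := by linarith
    have h7 := mul_le_mul_of_nonneg_left hc h6
    linarith only [h7]
  -- the two cases
  by_cases hcase : 1 ≤ e
  · -- large energy
    have hE : tauE e = 1 := tauE_one hcase
    have hP : PE e = 0 := by
      unfold PE
      rw [hE]
      norm_num
    rw [hE, hP]
    have hτ2 : (1 : ℝ) + (t - 1) = t := by ring
    rw [hτ2]
    have g1 : β ^ 2 * (1 - 1 / t) ≤ e - e / t := by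
      have k1 : e - e / t = e * (1 - 1 / t) := by ring
      rw [k1]
      have k2 : 0 ≤ 1 - 1 / t := by
        have : 1 / t ≤ 1 := (div_le_one (by linarith)).2 t1
        linarith
      exact mul_le_mul_of_nonneg_right (by rw [j3]; linarith only [sq_nonneg p]) k2
    have g2 : (t - 1) * (2 * x ^ 2) ≤ (t - 1) * S := mul_le_mul_of_nonneg_left hSx (by linarith)
    have g3 : 0 ≤ (3 / 2 * t - 1) * w := mul_nonneg (by linarith) w0
    have g4 : -4 * (2 * s - 2) * β + 2 * (t - 1) ≤ (2 - 2 * s) * (4 * (β * x)) + (t - 1) * (2 * x ^ 2) := by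
      have k : (1 - x) * (-4 * ((2 * s - 2) * β) + 2 * (t - 1) * (1 + x)) ≤ 0 := by
        refine mul_nonpos_of_nonneg_of_nonpos (by linarith) ?_
        have h7 := mul_nonneg (sub_nonneg.2 t1) (sub_nonneg.2 x1)
        linarith only [h7, s2]
      linarith only [k]
    have g5 : CB s t β = β ^ 2 * (3 + 4 * (2 * s - 2) - 1 / t) + 1 - t - 4 * (2 * s - 2) * β := rfl
    rw [g5] at q1
    have g6 : 3 * (e - 2 * β ^ 2) - 2 * e - e / t = (e - e / t) - 6 * β ^ 2 := by ring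
    linarith only [q1, q2, q3, g1, g2, g3, g4, g6]
  · -- small energy
    push Not at hcase
    have hβ1 : β ≤ 1 := by
      have : β ^ 2 ≤ 1 := by
        rw [j3] at hcase
        linarith only [hcase, sq_nonneg p]
      exact (sq_le_one_iff₀ hβ0).1 this
    have ht1 : t = 1 := t0 hβ1
    have hτ2 : tauE e + (t - 1) = tauE e := by
      rw [ht1]
      ring
    rw [hτ2]
    set τ := tauE e with hτdef
    have τ1 : τ ≤ 1 := tauE_le e
    have τ2 : 1 / 2 ≤ τ := tauE_ge e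
    have hP : PE e = 1 - τ + e * (1 - 1 / τ) := rfl
    rw [hP]
    have g2 : (τ - 1) * (2 - w) ≤ (τ - 1) * S := by
      have h6 : S ≤ 2 - w := by linarith only [hSw]
      exact mul_le_mul_of_nonpos_left h6 (by linarith only [τ1])
    have g3 : 0 ≤ τ * w := mul_nonneg (by linarith) w0
    have g4 : -4 * (2 * s - 2) * β ≤ (2 - 2 * s) * (4 * (β * x)) := by
      have h6 : β * x ≤ β := mul_le_of_le_one_right hβ0 x1
      have h7 := mul_nonneg (show (0 : ℝ) ≤ 2 * s - 2 by linarith only [s1]) (sub_nonneg.2 h6)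
      linarith only [h7]
    have g5 : CB s t β = β ^ 2 * (3 + 4 * (2 * s - 2) - 1 / t) + 1 - t - 4 * (2 * s - 2) * β := rfl
    rw [g5, ht1] at q1
    have g6 : e * (1 - 1 / τ) = e - e / τ := by ring
    rw [g6]
    linarith only [q1, q2, q3, g2, g3, g4]

theorem kpw_crs {X : Type} [TopologicalSpace X] {f g : X → E3} (hf : Continuous f)
    (hg : Continuous g) : Continuous fun x => crs (f x) (g x) := by
  have h : ∀ k, Continuous fun x => (crs (f x) (g x)) k := by
    have hc : ∀ {f : X → E3}, Continuous f → ∀ i, Continuous fun x => f x i := fun {f} hf i =>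
      (PiLp.continuous_apply 2 (fun _ : Fin 3 => ℝ) i).comp hf
    intro k
    fin_cases k
    · exact ((hc hf 1).mul (hc hg 2)).sub ((hc hf 2).mul (hc hg 1))
    · exact ((hc hf 2).mul (hc hg 0)).sub ((hc hf 0).mul (hc hg 2))
    · exact ((hc hf 0).mul (hc hg 1)).sub ((hc hf 1).mul (hc hg 0))
  exact (PiLp.continuous_toLp 2 (fun _ : Fin 3 => ℝ)).comp (continuous_pi h)

theorem tauE_cont : Continuous tauE := by
  unfold tauE
  fun_prop

theorem tauB_cont : Continuous tauB := by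
  unfold tauB
  fun_prop

theorem PE_cont : Continuous PE := by
  unfold PE
  have h : ∀ x : ℝ, tauE x ≠ 0 := fun x => by
    have := tauE_ge x
    linarith
  have := tauE_cont
  fun_prop (disch := assumption)

theorem qm_cont5 : Continuous fun q : E3 × E3 × E3 => qm q.1 q.2.1 q.2.2 := by
  unfold qm
  have c1 : Continuous fun q : E3 × E3 × E3 => prj q.1 q.2.1 := prj_cont (by fun_prop) (by fun_prop)
  have c2 : Continuous fun q : E3 × E3 × E3 => crs q.1 q.2.2 := kpw_crs (by fun_prop) (by fun_prop)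
  fun_prop

theorem enb_cont : Continuous fun q : E3 × E3 × E3 => enb q.2.1 q.2.2 := by
  unfold enb
  fun_prop

theorem tauP_cont {t : ℝ → ℝ} (ht : Continuous t) :
    Continuous fun q : E3 × E3 × E3 => tauP t q.1 q.2.1 q.2.2 := by
  unfold tauP
  have h1 : Continuous fun q : E3 × E3 × E3 => tauE (enb q.2.1 q.2.2) := tauE_cont.comp enb_cont
  have h2 : Continuous fun q : E3 × E3 × E3 => t ‖qm q.1 q.2.1 q.2.2‖ := ht.comp qm_cont5.norm
  exact h1.add (h2.sub continuous_const)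

theorem QP_cont {t : ℝ → ℝ} (ht : Continuous t) (t1 : ∀ β, 1 ≤ t β) :
    Continuous fun q : E3 × E3 × E3 × E3 × E3 => QP t q.1 q.2.1 q.2.2.1 q.2.2.2.1 q.2.2.2.2 := by
  unfold QP Qtau
  have c0 : Continuous fun q : E3 × E3 × E3 × E3 × E3 => tauP t q.1 q.2.1 q.2.2.1 :=
    (tauP_cont ht).comp (g := fun q : E3 × E3 × E3 => tauP t q.1 q.2.1 q.2.2)
      (f := fun q : E3 × E3 × E3 × E3 × E3 => (q.1, q.2.1, q.2.2.1)) (by fun_prop)
  have h0 : ∀ q : E3 × E3 × E3 × E3 × E3, 2 * tauP t q.1 q.2.1 q.2.2.1 ≠ 0 := fun q => by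
    have := tauP_pos t1 q.1 q.2.1 q.2.2.1
    positivity
  have c1 : Continuous fun q : E3 × E3 × E3 × E3 × E3 => crs q.2.2.1 q.2.1 := kpw_crs (by fun_prop) (by fun_prop)
  have c2 : Continuous fun q : E3 × E3 × E3 × E3 × E3 => crs q.1 q.2.2.1 := kpw_crs (by fun_prop) (by fun_prop)
  have c3 : Continuous fun q : E3 × E3 × E3 × E3 × E3 => crs q.1 q.2.1 := kpw_crs (by fun_prop) (by fun_prop)
  have c4 : Continuous fun q : E3 × E3 × E3 × E3 × E3 => prj q.1 q.2.2.2.1 := prj_cont (by fun_prop) (by fun_prop)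
  have c5 : Continuous fun q : E3 × E3 × E3 × E3 × E3 => prj q.1 q.2.2.2.2 := prj_cont (by fun_prop) (by fun_prop)
  fun_prop (disch := assumption)

/-- the certificate is a lower bound of the pointwise function -/
theorem QP_low {t : ℝ → ℝ} (t1 : ∀ β, 1 ≤ t β) {v a b : E3} (hv : ‖v‖ = 1)
    (ha : inner ℝ v a = (0 : ℝ)) (hb : inner ℝ v b = (0 : ℝ)) (A B : E3) :
    QLow v a b A B (QP t v a b A B) :=
  QLow_tau hv ha hb A B (tauP_pos t1 v a b)

/-- the extra term of the state -/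
def EP (F : ℝ → ℝ) (v a b : E3) : ℝ := PE (enb a b) - F (nuv v a b)

theorem EP_cont {F : ℝ → ℝ} (hF : Continuous F) :
    Continuous fun q : E3 × E3 × E3 => EP F q.1 q.2.1 q.2.2 := by
  unfold EP nuv
  have h1 : Continuous fun q : E3 × E3 × E3 => PE (enb q.2.1 q.2.2) := PE_cont.comp enb_cont
  have h2 : Continuous fun q : E3 × E3 × E3 => F (2 * ‖qm q.1 q.2.1 q.2.2‖ ^ 2) :=
    hF.comp (by
      have := qm_cont5
      fun_prop)
  exact h1.sub h2

/-- **the case `φ = id`** -/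
theorem kpw_id {ζ : ℝ} (hζ : 0 ≤ ζ) {v a b A B : E3} (T : E3) (hv : ‖v‖ = 1)
    (ha : inner ℝ v a = (0 : ℝ)) (hb : inner ℝ v b = (0 : ℝ)) (hAB : InW 2 1 A B) :
    ‖A - a‖ ^ 2 + ‖B - b‖ ^ 2 - 4 * (nuv v a b / (1 + ζ) * ‖T - v‖ ^ 2)
        + (PE (enb a b) - ζ * nuv v a b) ≤
      QP (fun _ => 1) v a b A B - 2 * (1 * dnu v a b T A B) := by
  have hz : 0 < 1 + ζ := by linarith
  have hC : ∀ β : ℝ, CB 1 1 β = 2 * β ^ 2 := fun β => by
    unfold CB
    ring
  refine kpw_ge (φ' := fun _ => 1) (W := fun x => x / (1 + ζ)) (F := fun x => ζ * x)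
    (t := fun _ => 1) (fun _ => le_rfl) (fun _ _ => rfl) (fun _ _ => le_rfl) (fun β _ => by norm_num)
    (fun β _ => by positivity) (fun β _ => ?_) (fun β _ => ?_) T hv ha hb hAB
  · rw [hC]
    positivity
  · rw [hC]
    apply le_of_eq
    field_simp

end Pool.Agent.FPX
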