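import Mathlib
import Pool.Agent.FPX.EMN
import Pool.Agent.FPX.HRS

/-
VDE (helper56): the interface between the core and the image: on a superlevel set of area `a` the
integral of the Jacobian is at least `a - 2 √(a B) - ∫ ν`, where `B` bounds `∫ (1 - √e)₊²`.
-/

open MeasureTheory Set Filter Topology
open scoped ENNReal NNReal

noncomputable section

namespace Pool.Agent.FPX

open Pool.Agent.EWD Pool.Agent.FPM

variable {M : Type} [MetricSpace M] {γ : ℝ → M}

/-- the defect `(1 - √e)₊` of the energy density -/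
def dfe (C : Calc M γ) (v : Fin 3 → M → ℝ) (o : Om) : ℝ := max 0 (1 - √(S2 C v o / 2))

theorem dfe_nonneg (C : Calc M γ) (v : Fin 3 → M → ℝ) (o : Om) : 0 ≤ dfe C v o := le_max_left _ _

theorem dfe_le (C : Calc M γ) (v : Fin 3 → M → ℝ) (o : Om) : dfe C v o ≤ 1 :=
  max_le zero_le_one (by linarith [Real.sqrt_nonneg (S2 C v o / 2)])

theorem aem_dfe [CompactSpace M] (C : Calc M γ) {v : Fin 3 → M → ℝ} (hv : Sph γ v) :
    AEMeasurable (dfe C v) C.μ := by
  have h1 : AEMeasurable (S2 C v) C.μ := (S2_int C hv.lip).aemeasurable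
  have h2 : AEMeasurable (fun o => 1 - √(S2 C v o / 2)) C.μ := (h1.div_const 2).sqrt.const_sub 1
  exact aemeasurable_const.max h2

theorem int_dfe [CompactSpace M] (C : Calc M γ) {v : Fin 3 → M → ℝ} (hv : Sph γ v) :
    Integrable (dfe C v) C.μ ∧ Integrable (fun o => dfe C v o ^ 2) C.μ := by
  have := C.fin
  constructor
  · refine (integrable_const (1 : ℝ)).mono' (aem_dfe C hv).aestronglyMeasurable (ae_of_all _ fun o => ?_)
    rw [Real.norm_eq_abs, abs_of_nonneg (dfe_nonneg C v o)]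
    exact dfe_le C v o
  · refine (integrable_const (1 : ℝ)).mono' ((aem_dfe C hv).pow_const 2).aestronglyMeasurable
      (ae_of_all _ fun o => ?_)
    rw [Real.norm_eq_abs, abs_of_nonneg (by positivity)]
    exact pow_le_one₀ (dfe_nonneg C v o) (dfe_le C v o)

/-- `1 ≤ e + 2 (1 - √e)₊` -/
theorem one_le_dfe (C : Calc M γ) (v : Fin 3 → M → ℝ) (o : Om) :
    1 ≤ S2 C v o / 2 + 2 * dfe C v o := by
  have h0 : 0 ≤ S2 C v o / 2 := div_nonneg (S2_nonneg C v o) zero_le_two
  have h1 := Real.sq_sqrt h0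
  have h2 := Real.sqrt_nonneg (S2 C v o / 2)
  have h3 : 1 - √(S2 C v o / 2) ≤ dfe C v o := le_max_right _ _
  have h4 := dfe_nonneg C v o
  rcases le_total 1 (√(S2 C v o / 2)) with h | h
  · nlinarith
  · nlinarith

/-- **The Jacobian of a superlevel set**, `B` a bound of the energy defect. -/
theorem jac_sup_ge [CompactSpace M] (C : Calc M γ) {v : Fin 3 → M → ℝ} (hv : Sph γ v) {B : ℝ}
    (hB : ∫ o, dfe C v o ^ 2 ∂C.μ ≤ B) {g : M → ℝ} (hg : Lip g) (s : ℝ) :
    supa C g s - 2 * √(supa C g s * B) - supw C g (nuC C v) s ≤ supw C g (jac C v) s := by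
  have := C.fin
  set A : Set Om := {o | s < |g (C.pt o)|} with hA
  have mA : NullMeasurableSet A C.μ := meas_abs_lt C hg s
  obtain ⟨i1, i2⟩ := int_dfe C hv
  have iJ : Integrable (jac C v) C.μ := jac_int C hv
  have iN : Integrable (nuC C v) C.μ := nuC_cint C hv.lip continuous_id
  have iS : Integrable (S2 C v) C.μ := S2_int C hv.lip
  have ha : supa C g s = ∫ _ in A, (1 : ℝ) ∂C.μ := by
    rw [setIntegral_const, smul_eq_mul, mul_one]
    rfl
  have ha0 : 0 ≤ supa C g s := supa_nonneg C g s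
  have hB0 : 0 ≤ B := (integral_nonneg fun o => sq_nonneg _).trans hB
  -- the energy
  have h1 : supa C g s ≤ (∫ o in A, S2 C v o / 2 ∂C.μ) + 2 * ∫ o in A, dfe C v o ∂C.μ := by
    rw [ha, ← integral_const_mul, ← integral_add (iS.div_const 2).integrableOn
      (i1.const_mul 2).integrableOn]
    exact integral_mono (integrable_const _)
      ((iS.div_const 2).integrableOn.add (i1.const_mul 2).integrableOn) fun o => one_le_dfe C v o
  -- Cauchy-Schwarz
  have h2 : ∫ o in A, dfe C v o ∂C.μ ≤ √(supa C g s * B) := by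
    have hI2 : ∫ o in A, dfe C v o ^ 2 ∂C.μ ≤ B :=
      (setIntegral_le_integral i2 (ae_of_all _ fun o => sq_nonneg _)).trans hB
    set I := ∫ o in A, dfe C v o ∂C.μ with hI
    have hI0 : 0 ≤ I := integral_nonneg fun o => dfe_nonneg C v o
    have key : ∀ r : ℝ, 0 ≤ supa C g s * r ^ 2 - 2 * I * r + B := by
      intro r
      have h3 : 0 ≤ ∫ o in A, (r ^ 2 - 2 * r * dfe C v o + dfe C v o ^ 2) ∂C.μ := by
        refine integral_nonneg fun o => ?_
        change 0 ≤ r ^ 2 - 2 * r * dfe C v o + dfe C v o ^ 2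
        nlinarith [sq_nonneg (r - dfe C v o)]
      have j0 : Integrable (fun _ : Om => r ^ 2) (C.μ.restrict A) := integrable_const _
      have j1 : Integrable (fun o => 2 * r * dfe C v o) (C.μ.restrict A) :=
        (i1.const_mul (2 * r)).integrableOn
      have j2 : Integrable (fun o => dfe C v o ^ 2) (C.μ.restrict A) := i2.integrableOn
      have j3 : Integrable (fun o => r ^ 2 - 2 * r * dfe C v o) (C.μ.restrict A) := j0.sub j1
      rw [integral_add j3 j2, integral_sub j0 j1, integral_const_mul] at h3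
      have e : ∫ _ in A, r ^ 2 ∂C.μ = supa C g s * r ^ 2 := by
        rw [setIntegral_const, smul_eq_mul]
        rfl
      rw [e] at h3
      linarith
    refine Real.le_sqrt_of_sq_le ?_
    rcases ha0.eq_or_lt with h0 | h0
    · rw [← h0, zero_mul]
      by_contra hne
      have hI1 : 0 < I ^ 2 := not_le.1 hne
      have hI2' : 0 < I := by
        rcases hI0.eq_or_lt with h5 | h5
        · rw [← h5] at hI1
          norm_num at hI1
        · exact h5
      have h4 := key ((B + 1) / (2 * I))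
      rw [← h0] at h4
      have e : 2 * I * ((B + 1) / (2 * I)) = B + 1 := by field_simp
      linarith
    · have h4 := key (I / supa C g s)
      have e : supa C g s * (I / supa C g s) ^ 2 - 2 * I * (I / supa C g s) + B =
          B - I ^ 2 / supa C g s := by
        field_simp
        ring
      rw [e] at h4
      have h5 : I ^ 2 / supa C g s ≤ B := by linarith
      rw [div_le_iff₀ h0] at h5
      linarith
  -- `e = ν + J`
  have h3 : ∫ o in A, S2 C v o / 2 ∂C.μ = (∫ o in A, nuC C v o ∂C.μ) + ∫ o in A, jac C v o ∂C.μ := by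
    rw [← integral_add iN.integrableOn iJ.integrableOn]
    refine integral_congr_ae (ae_restrict_of_ae ?_)
    filter_upwards [ae_S2 C hv] with o ho
    rw [ho]
    ring
  have e1 : supw C g (nuC C v) s = ∫ o in A, nuC C v o ∂C.μ := rfl
  have e2 : supw C g (jac C v) s = ∫ o in A, jac C v o ∂C.μ := rfl
  rw [e1, e2]
  linarith

/-- `a - 2 √(a B)` increases for `B ≤ a` -/
theorem sub_sqrt_mono {a₁ a B : ℝ} (hB0 : 0 ≤ B) (hB : B ≤ a₁) (h : a₁ ≤ a) :
    a₁ - 2 * √(a₁ * B) ≤ a - 2 * √(a * B) := by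
  have ha1 : 0 ≤ a₁ := hB0.trans hB
  have ha : 0 ≤ a := ha1.trans h
  rw [Real.sqrt_mul ha1, Real.sqrt_mul ha]
  have h1 := Real.sq_sqrt ha1
  have h2 := Real.sq_sqrt ha
  have h3 : √a₁ ≤ √a := Real.sqrt_le_sqrt h
  have h4 : √B ≤ √a₁ := Real.sqrt_le_sqrt hB
  have h5 := Real.sqrt_nonneg B
  nlinarith [mul_nonneg (sub_nonneg.2 h3) (sub_nonneg.2 h4)]

/-- **The interface `hAl` / `hα` of `hardy_comp`**, with `D = 2 √(a₁ B)`. -/
theorem vde [CompactSpace M] (C : Calc M γ) {v : Fin 3 → M → ℝ} (hv : Sph γ v) {B a₁ : ℝ}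
    (hB : ∫ o, dfe C v o ^ 2 ∂C.μ ≤ B) (hBa : B ≤ a₁) {f : Om → ℝ} (hf : Integrable f C.μ)
    (hfn : ∀ᵐ o ∂C.μ, nuC C v o ≤ f o) {g : M → ℝ} (hg : Lip g) (s : ℝ) (hs : a₁ ≤ supa C g s) :
    a₁ - 2 * √(a₁ * B) - supw C g f s ≤ supw C g (jac C v) s := by
  have hB0 : 0 ≤ B := (integral_nonneg fun o => sq_nonneg _).trans hB
  have h1 := jac_sup_ge C hv hB hg s
  have h2 := sub_sqrt_mono hB0 hBa hs
  have iN : Integrable (nuC C v) C.μ := nuC_cint C hv.lip continuous_id
  have h3 : supw C g (nuC C v) s ≤ supw C g f s :=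
    setIntegral_mono_ae iN.integrableOn hf.integrableOn hfn
  linarith

/-- the same with the integral of `(max 0 (1 - √e))²` -/
theorem vde' [CompactSpace M] (C : Calc M γ) {v : Fin 3 → M → ℝ} (hv : Sph γ v) {B a₁ D : ℝ}
    (hB : ∫ o, max 0 (1 - √(S2 C v o / 2)) ^ 2 ∂C.μ ≤ B) (hBa : B ≤ a₁) (hD : 2 * √(a₁ * B) ≤ D)
    {f : Om → ℝ} (hf : Integrable f C.μ)
    (hfn : ∀ᵐ o ∂C.μ, nuC C v o ≤ f o) {g : M → ℝ} (hg : Lip g) (s : ℝ) (hs : a₁ ≤ supa C g s) :
    a₁ - D - supw C g f s ≤ supw C g (jac C v) s := by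
  have h := vde C hv (B := B) hB hBa hf hfn hg s hs
  linarith

end Pool.Agent.FPX
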