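import Mathlib
import Pool.Agent.FPX.KGC
import Pool.Agent.FPX.HCT
import Pool.Agent.FPX.VNU
import Pool.Agent.FPX.VDE
import Pool.Agent.FPX.KPW

/-
VHT (helper91): the core certificates `VCore` from finitely many cells of the account, each with a
dual certificate of HCT (helper81), outer resistance in closed form (`imG`, VNU).
-/

open MeasureTheory Set Filter Topology
open scoped ENNReal NNReal

noncomputable section

namespace Pool.Agent.FPX

open Pool.Agent.EWD Pool.Agent.FPM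

/-- the dual certificate of HCT on `(0, V]`: lists `β`, `x`, `s` of length `J`, multiplier `lam`;
charge density `4 W (ν)` with `4 W ≤ N`, penalty `φ (ν)` for `ν ∈ [0, ν₁]` (`4 W (ν)` is cut at `N`),
account `Y`, side charge `(b, F)` -/
structure HCell (κ N V Y b F B ν₁ : ℝ) (φ W : ℝ → ℝ) (J : ℕ) (β x s : ℕ → ℝ) (lam : ℝ) : Prop where
  κ0 : 0 < κ
  N0 : 0 ≤ N
  b0 : 0 < b
  F0 : 0 ≤ F
  NB : N ≤ B
  FB : F / b ≤ B
  lam0 : 0 ≤ lam
  β0 : 0 < β 0
  βm : ∀ j < J, β j ≤ β (j + 1)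
  βV : V ≤ β J
  s0 : ∀ j < J, 0 ≤ s j ∧ s j ≤ N
  pt : ∀ ν, 0 ≤ ν → ∑ j ∈ Finset.range J,
    Real.exp (-x j) / κ * Real.log (β (j + 1) / β j) * max (4 * min (W ν) (W ν₁) - s j) 0 ≤ lam * φ ν
  num : (N + F / b) / κ * β 0 + (∑ j ∈ Finset.range J,
      ((1 - Real.exp (-x j) * (1 + x j) + Real.exp (-x j) * F / κ) *
        Real.log (β (j + 1) / β j) + Real.exp (-x j) * s j / κ * (β (j + 1) - β j))) +
    lam * Y < 1

variable {M : Type} [MetricSpace M] {γ : ℝ → M}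

/-- a certificate on a longer interval is one on a shorter interval -/
theorem HwD.mono_V {Lam : ℝ → ℝ} {V V' B : ℝ} {n : ℝ → ℝ} {b f : ℝ} (h : HwD Lam V' B n b f)
    (hV : V ≤ V') : HwD Lam V B n b f := by
  obtain ⟨k, ck, k0, kp, hc⟩ := h.cert
  exact ⟨h.mono, h.zero, h.lip, h.b0, h.f0, h.fb, k, ck, k0, kp, fun a h0 h1 => hc a h0 (h1.trans hV)⟩

/-- the exact charge of the weight on a set `T` with its certificate -/
theorem HCell.core [CompactSpace M] {C : Calc M γ} {κ N V Y b F B ν₁ lam : ℝ} {φ W : ℝ → ℝ} {J : ℕ}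
    {β x s : ℕ → ℝ} (h : HCell κ N V Y b F B ν₁ φ W J β x s lam) {v : Fin 3 → M → ℝ}
    (hφ : Integrable (fun o => φ (nuC C v o)) C.μ)
    (hw : Integrable (wK C W v ν₁) C.μ) (hN : 4 * W ν₁ ≤ N) {T : Set Om} (mT : NullMeasurableSet T C.μ)
    (hT : ∫ o in T, φ (nuC C v o) ∂C.μ ≤ Y) :
    ∃ n : ℝ → ℝ, HwD (fun a => κ * a) V B n b F ∧
      ∀ S, NullMeasurableSet S C.μ → S ⊆ T → 4 * ∫ o in S, wK C W v ν₁ o ∂C.μ ≤ n (C.μ.real S) := by
  have := C.fin
  obtain ⟨n, hD, hq⟩ := hct_main (μ := C.μ) (W := T.indicator fun o => 4 * wK C W v ν₁ o)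
    (φo := T.indicator fun o => φ (nuC C v o)) (N := N) (X := Y) (κ := κ) (lam := lam) (b := b)
    (f := F) (B' := B) h.κ0 h.N0 ((hw.const_mul 4).indicator₀ mT)
    (ae_of_all _ fun o => by
      by_cases ho : o ∈ T
      · rw [indicator_of_mem ho]
        have : wK C W v ν₁ o ≤ W ν₁ := min_le_right _ _
        linarith
      · rw [indicator_of_notMem ho]
        exact h.N0)
    (hφ.indicator₀ mT) (by rw [integral_indicator₀ mT]; exact hT) h.lam0 h.b0 h.F0 h.NB h.FB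
    (J := J) (β := β) (x := x) (s := s) h.β0 h.βm h.s0
    (ae_of_all _ fun o => by
      by_cases ho : o ∈ T
      · simp only [indicator_of_mem ho]
        exact h.pt _ (nuv_nonneg _ _ _)
      · simp only [indicator_of_notMem ho]
        rw [mul_zero]
        refine le_of_eq (Finset.sum_eq_zero fun j hj => ?_)
        have h1 := (h.s0 j (Finset.mem_range.1 hj)).1
        rw [max_eq_right (by linarith), mul_zero])
    h.num
  refine ⟨n, hD.mono_V h.βV, fun S mS hST => ?_⟩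
  have h1 := hq S
  have h2 : ∫ o in S, T.indicator (fun o => 4 * wK C W v ν₁ o) o ∂C.μ =
      4 * ∫ o in S, wK C W v ν₁ o ∂C.μ := by
    rw [← integral_const_mul, ← integral_indicator₀ mS, ← integral_indicator₀ mS]
    refine integral_congr_ae (ae_of_all _ fun o => ?_)
    by_cases ho : o ∈ S
    · simp only [indicator_of_mem ho, indicator_of_mem (hST ho)]
    · simp only [indicator_of_notMem ho]
  rw [h2] at h1
  exact h1

/-- **`VCore` from a finite grid of the account with dual certificates.** Cells `[p i, p (i+1)]`,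
numbers `r i` with `(4 ρ (X - p i) + r i) (imG c (a₁ - D - p i) + imK c A (X - p i)) < 1` and the
certificate on `(0, a₁ exp (κ / r i)]` for the account `p (i+1)`. -/
theorem vcore_cells [CompactSpace M] {C : Calc M γ} {κ N B ρ X a₁ D b F c ν₁ : ℝ} {φ W : ℝ → ℝ}
    {v : Fin 3 → M → ℝ} (hv : VDat C v (fun o => φ (nuC C v o)) (wK C W v ν₁) X ρ)
    (hκ : 0 < κ) (hc : 0 < c) (hD : 0 ≤ D) (hA : 0 < a₁ - D - X)
    (ha : a₁ - D < 2 * Real.pi) (hch : c * imh0 (a₁ - D - X) ≤ 1)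
    (hN : 4 * W ν₁ ≤ N) (hφ0 : ∀ ν, 0 ≤ ν → 0 ≤ φ ν)
    {p : ℕ → ℝ} {n : ℕ} (hn : 0 < n) (p0 : p 0 = 0) (pn : X ≤ p n) (pp : ∀ i, 0 ≤ p i)
    (hnum : ∀ i < n, p i ≤ X → ∃ (r lam : ℝ) (J : ℕ) (β x s : ℕ → ℝ), 0 < r ∧
      HCell κ N (a₁ * Real.exp (κ / r)) (p (i + 1)) b F B ν₁ φ W J β x s lam ∧
      (4 * ρ * (X - p i) + r) *
        (imG c (a₁ - D - p i) + imK c (a₁ - D - X) * (X - p i)) < 1) :
    VCore C (fun o => φ (nuC C v o)) (wK C W v ν₁) (fun a => κ * a) B ρ X (imK c (a₁ - D - X)) a₁ D b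
      F (imG c) := by
  have := C.fin
  have hpi := Real.pi_pos
  have f0 : ∀ o, 0 ≤ φ (nuC C v o) := fun o => hφ0 _ (nuv_nonneg _ _ _)
  have hX : 0 ≤ X := (integral_nonneg f0).trans hv.fX
  have hV := vnum_imG hc hX hD hA ha.le hch
  intro T mT _
  set ω := ∫ o in T, φ (nuC C v o) ∂C.μ with hω
  have ω0 : 0 ≤ ω := integral_nonneg f0
  have ωX : ω ≤ X := (setIntegral_le_integral hv.fint (ae_of_all _ f0)).trans hv.fX
  obtain ⟨i, hi, h1, h2⟩ := grid_mem (ω := ω) (by rw [p0]; exact ω0) (ωX.trans pn) hn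
  obtain ⟨r, lam, J, β, x, s, hr, hcell, hprod⟩ := hnum i hi (h1.trans ωX)
  obtain ⟨nn, hDn, hq⟩ := hcell.core (C := C) (v := v) hv.fint hv.wint hN mT h2
  have hpos : 0 < imG c (a₁ - D - ω) + imK c (a₁ - D - X) * (X - ω) := by
    have h3 := imG_pos hc (α := a₁ - D - ω) (by linarith) (by linarith)
    have h4 : 0 ≤ imK c (a₁ - D - X) * (X - ω) := mul_nonneg hV.K0.le (by linarith)
    linarith
  refine ⟨nn, r, CoreD.of_hwd hκ hV.a0 hr le_rfl hDn, hq, hpos, ?_⟩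
  have k3 := hV.anti (ω := ω) (ω' := p i) (pp i) h1 ωX
  have hρ := hv.ρ0
  have k4 : 4 * ρ * (X - ω) + (min (4 * ρ * ω) (nn a₁) - nn a₁) + r ≤
      4 * ρ * (X - p i) + r := by
    have h5 := min_le_right (4 * ρ * ω) (nn a₁)
    have h6 : 4 * ρ * (X - ω) ≤ 4 * ρ * (X - p i) :=
      mul_le_mul_of_nonneg_left (by linarith) (by positivity)
    linarith
  have k5 : 0 ≤ 4 * ρ * (X - p i) + r := by
    have : 0 ≤ 4 * ρ * (X - p i) := mul_nonneg (by positivity) (by linarith)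
    linarith
  exact (mul_le_mul k4 k3 hpos.le k5).trans_lt hprod

/-- the Jacobian of a superlevel set, `B` a bound of `∫ P(e)` -/
theorem jac_sup_geP [CompactSpace M] (C : Calc M γ) {v : Fin 3 → M → ℝ} (hv : Sph γ v) {B : ℝ}
    (hB : ∫ o, PE (enb (dx C v o) (dy C v o)) ∂C.μ ≤ B) (g : M → ℝ) (s : ℝ) :
    supa C g s - 2 * √(supa C g s * B) - supw C g (nuC C v) s ≤ supw C g (jac C v) s := by
  have := C.fin
  set A : Set Om := {o | s < |g (C.pt o)|} with hA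
  have iJ : Integrable (jac C v) C.μ := jac_int C hv
  have iN : Integrable (nuC C v) C.μ := nuC_cint C hv.lip continuous_id
  have iS : Integrable (S2 C v) C.μ := S2_int C hv.lip
  have hen : ∀ o, enb (dx C v o) (dy C v o) = S2 C v o / 2 := fun o => rfl
  have e0 : ∀ o, 0 ≤ enb (dx C v o) (dy C v o) := fun o => enb_nonneg _ _
  have aE : AEMeasurable (fun o => enb (dx C v o) (dy C v o)) C.μ := by
    simp only [hen]
    exact iS.aemeasurable.div_const 2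
  set f : Om → ℝ := fun o => max (1 - enb (dx C v o) (dy C v o)) 0 with hf
  have f0 : ∀ o, 0 ≤ f o := fun o => le_max_right _ _
  have f1 : ∀ o, f o ≤ 1 := fun o => max_le (by linarith [e0 o]) zero_le_one
  have af : AEMeasurable f C.μ := (aE.const_sub 1).max aemeasurable_const
  have i1 : Integrable f C.μ := by
    refine (integrable_const (1 : ℝ)).mono' af.aestronglyMeasurable (ae_of_all _ fun o => ?_)
    rw [Real.norm_eq_abs, abs_of_nonneg (f0 o)]
    exact f1 o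
  have i2 : Integrable (fun o => f o ^ 2) C.μ := by
    refine (integrable_const (1 : ℝ)).mono' (af.pow_const 2).aestronglyMeasurable
      (ae_of_all _ fun o => ?_)
    rw [Real.norm_eq_abs, abs_of_nonneg (by positivity)]
    exact pow_le_one₀ (f0 o) (f1 o)
  have iP : Integrable (fun o => PE (enb (dx C v o) (dy C v o))) C.μ := by
    refine (integrable_const (1 : ℝ)).mono' ?_ (ae_of_all _ fun o => ?_)
    · exact (PE_cont.measurable.comp_aemeasurable aE).aestronglyMeasurable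
    · rw [Real.norm_eq_abs, abs_of_nonneg (PE_nonneg (e0 o))]
      have h1 := tauE_ge (enb (dx C v o) (dy C v o))
      have h2 := tauE_le (enb (dx C v o) (dy C v o))
      have h3 : enb (dx C v o) (dy C v o) * (1 - 1 / tauE (enb (dx C v o) (dy C v o))) ≤ 0 := by
        refine mul_nonpos_of_nonneg_of_nonpos (e0 o) ?_
        have : 1 ≤ 1 / tauE (enb (dx C v o) (dy C v o)) := by
          rw [le_div_iff₀ (by linarith)]
          linarith
        linarith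
      unfold PE
      linarith
  have hB2 : ∫ o, f o ^ 2 ∂C.μ ≤ 4 * B := by
    have h1 : ∫ o, f o ^ 2 ∂C.μ ≤ ∫ o, 4 * PE (enb (dx C v o) (dy C v o)) ∂C.μ :=
      integral_mono i2 (iP.const_mul 4) fun o => PE_ge (e0 o)
    rw [integral_const_mul] at h1
    linarith
  have ha : supa C g s = ∫ _ in A, (1 : ℝ) ∂C.μ := by
    rw [setIntegral_const, smul_eq_mul, mul_one]
    rfl
  have ha0 : 0 ≤ supa C g s := supa_nonneg C g s
  have hB0 : 0 ≤ B := (integral_nonneg fun o => PE_nonneg (e0 o)).trans hB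
  have h1 : supa C g s ≤ (∫ o in A, S2 C v o / 2 ∂C.μ) + ∫ o in A, f o ∂C.μ := by
    rw [ha, ← integral_add (iS.div_const 2).integrableOn i1.integrableOn]
    refine integral_mono (integrable_const _)
      ((iS.div_const 2).integrableOn.add i1.integrableOn) fun o => ?_
    have : 1 - enb (dx C v o) (dy C v o) ≤ f o := le_max_left _ _
    rw [hen] at this
    change (1 : ℝ) ≤ S2 C v o / 2 + f o
    linarith
  have h2 : ∫ o in A, f o ∂C.μ ≤ 2 * √(supa C g s * B) := by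
    have hI2 : ∫ o in A, f o ^ 2 ∂C.μ ≤ 4 * B :=
      (setIntegral_le_integral i2 (ae_of_all _ fun o => sq_nonneg _)).trans hB2
    set I := ∫ o in A, f o ∂C.μ with hI
    have hI0 : 0 ≤ I := integral_nonneg f0
    have key : ∀ r : ℝ, 0 ≤ supa C g s * r ^ 2 - 2 * I * r + 4 * B := by
      intro r
      have h3 : 0 ≤ ∫ o in A, (r ^ 2 - 2 * r * f o + f o ^ 2) ∂C.μ := by
        refine integral_nonneg fun o => ?_
        change 0 ≤ r ^ 2 - 2 * r * f o + f o ^ 2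
        nlinarith [sq_nonneg (r - f o)]
      have j0 : Integrable (fun _ : Om => r ^ 2) (C.μ.restrict A) := integrable_const _
      have j1 : Integrable (fun o => 2 * r * f o) (C.μ.restrict A) :=
        (i1.const_mul (2 * r)).integrableOn
      have j2 : Integrable (fun o => f o ^ 2) (C.μ.restrict A) := i2.integrableOn
      have j3 : Integrable (fun o => r ^ 2 - 2 * r * f o) (C.μ.restrict A) := j0.sub j1
      rw [integral_add j3 j2, integral_sub j0 j1, integral_const_mul] at h3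
      have e : ∫ _ in A, r ^ 2 ∂C.μ = supa C g s * r ^ 2 := by
        rw [setIntegral_const, smul_eq_mul]
        rfl
      rw [e] at h3
      linarith
    have hsq : I ^ 2 ≤ 4 * (supa C g s * B) := by
      rcases ha0.eq_or_lt with h0 | h0
      · rw [← h0, zero_mul, mul_zero]
        by_contra hne
        have hI1 : 0 < I ^ 2 := not_le.1 hne
        have hI2' : 0 < I := by
          rcases hI0.eq_or_lt with h5 | h5
          · rw [← h5] at hI1
            norm_num at hI1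
          · exact h5
        have h4 := key ((4 * B + 1) / (2 * I))
        rw [← h0] at h4
        have e : 2 * I * ((4 * B + 1) / (2 * I)) = 4 * B + 1 := by field_simp
        linarith
      · have h4 := key (I / supa C g s)
        have e : supa C g s * (I / supa C g s) ^ 2 - 2 * I * (I / supa C g s) + 4 * B =
            4 * B - I ^ 2 / supa C g s := by
          field_simp
          ring
        rw [e] at h4
        have h5 : I ^ 2 / supa C g s ≤ 4 * B := by linarith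
        rw [div_le_iff₀ h0] at h5
        linarith
    have h6 : (I / 2) ^ 2 ≤ supa C g s * B := by nlinarith
    have h7 := Real.le_sqrt_of_sq_le h6
    linarith
  have h3 : ∫ o in A, S2 C v o / 2 ∂C.μ = (∫ o in A, nuC C v o ∂C.μ) + ∫ o in A, jac C v o ∂C.μ := by
    rw [← integral_add iN.integrableOn iJ.integrableOn]
    refine integral_congr_ae (ae_restrict_of_ae ?_)
    filter_upwards [ae_S2 C hv] with o ho
    rw [ho]
    ring
  have e1 : supw C g (nuC C v) s = ∫ o in A, nuC C v o ∂C.μ := rfl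
  have e2 : supw C g (jac C v) s = ∫ o in A, jac C v o ∂C.μ := rfl
  rw [e1, e2]
  linarith

/-- **The interface `hα`**, `B` a bound of `∫ P(e)`, `D ≥ 2 √(a₁ B)`. -/
theorem vdp [CompactSpace M] (C : Calc M γ) {v : Fin 3 → M → ℝ} (hv : Sph γ v) {B a₁ D : ℝ}
    (hB : ∫ o, PE (enb (dx C v o) (dy C v o)) ∂C.μ ≤ B) (hBa : B ≤ a₁) (hD : 2 * √(a₁ * B) ≤ D)
    {f : Om → ℝ} (hf : Integrable f C.μ)
    (hfn : ∀ᵐ o ∂C.μ, nuC C v o ≤ f o) (g : M → ℝ) (s : ℝ) (hs : a₁ ≤ supa C g s) :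
    a₁ - D - supw C g f s ≤ supw C g (jac C v) s := by
  have hB0 : 0 ≤ B := (integral_nonneg fun o => PE_nonneg (enb_nonneg _ _)).trans hB
  have h1 := jac_sup_geP C hv hB g s
  have h2 := sub_sqrt_mono hB0 hBa hs
  have iN : Integrable (nuC C v) C.μ := nuC_cint C hv.lip continuous_id
  have h3 : supw C g (nuC C v) s ≤ supw C g f s :=
    setIntegral_mono_ae iN.integrableOn hf.integrableOn hfn
  linarith

/-- the conditions on the numbers at one `c` and one `ζ`: `X` the account, `Bv` the bound of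
`∫ P(e)`, `N ≥ 4 W (2 e^{2c})`, side charge `(b, F)`, area `a₁` of the core, deficit `D`, parameter
`cG` of `imG`, finite grid `p` of the account -/
structure VTab (κ N B ρ X Bv a₁ D b F cG c k σ s Ee : ℝ) (φ W : ℝ → ℝ) (p : ℕ → ℝ) (n : ℕ) : Prop where
  κ0 : 0 < κ
  cG0 : 0 < cG
  ρ0 : 0 ≤ ρ
  Bv0 : 0 ≤ Bv
  Ba : Bv ≤ a₁
  hD : 2 * √(a₁ * Bv) ≤ D
  hA : 0 < a₁ - D - X
  ha : a₁ - D < 2 * Real.pi
  hch : cG * imh0 (a₁ - D - X) ≤ 1
  Wρ : ∀ x, 0 ≤ x → W x ≤ ρ * φ x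
  hN : 4 * W (2 * Real.exp c ^ 2) ≤ N
  hba : b ≤ a₁
  hb : b ≤ κ * ((σ - s) * (1 - Real.exp (-c))) ^ 2 / (4 * (Lc Ee c) ^ 2)
  hs : 0 < s
  hsσ : s < σ
  hc : 0 < c
  hk : 0 ≤ k
  hkF : k ≤ 2 * (1 - Real.exp (-c)) * F * s ^ 2
  n0 : 0 < n
  p0 : p 0 = 0
  pn : X ≤ p n
  pp : ∀ i, 0 ≤ p i
  cell : ∀ i < n, p i ≤ X → ∃ (r lam : ℝ) (J : ℕ) (β x s : ℕ → ℝ), 0 < r ∧
    HCell κ N (a₁ * Real.exp (κ / r)) (p (i + 1)) b F B (2 * Real.exp c ^ 2) φ W J β x s lam ∧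
    (4 * ρ * (X - p i) + r) *
      (imG cG (a₁ - D - p i) + imK cG (a₁ - D - X) * (X - p i)) < 1

/-- **(H) and (HS) for one admissible pair from one table.** -/
theorem hsv_of_tab [CompactSpace M] (C : Calc M γ) (hγ : Bd γ) (hR : RegAE C) {φ φ' G W Wm : ℝ → ℝ}
    {sφ Lφ Ee c₀ X₀ εA cm c : ℝ} {v : Fin 3 → M → ℝ} (P : Pen φ φ' sφ Lφ)
    (hA : AdmK C φ G Ee c₀ X₀ εA cm c v) (hW : WOk W Wm) {κ ε N B ρ X Bv a₁ D b F cG k σ s δ : ℝ}
    {p : ℕ → ℝ} {n : ℕ} (hX : X₀ - G c ≤ X) (hI : IsopO C κ ε) (hε : 0 ≤ ε)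
    (hBv : ∫ o, PE (enb (dx C v o) (dy C v o)) ∂C.μ ≤ Bv)
    (T : VTab κ N B ρ X Bv a₁ D b F cG c k σ s Ee φ W p n) (hδ : 128 * B * ε ≤ δ) :
    Hv C (wK C W v (2 * Real.exp c ^ 2)) δ ∧ HSv C (wK C W v (2 * Real.exp c ^ 2)) κ k (Lc Ee c) c δ ε σ := by
  have hv := vdat_of_adm C P hA hX hW T.ρ0 T.Wρ
  have f0 : ∀ o, 0 ≤ φ (nuC C v o) := fun o =>
    (nuv_nonneg _ _ _).trans (P.ge _ (nuv_nonneg _ _ _))
  have hX0 : 0 ≤ X := (integral_nonneg f0).trans hv.fX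
  have hD0 : 0 ≤ D := le_trans (by positivity) T.hD
  refine hsv_of_core C hγ hR hv (LevO.of_isop hI) T.κ0 hI hε
    (vnum_imG T.cG0 hX0 hD0 T.hA T.ha.le T.hch) T.hba
    (fun g _ s' _ h => vdp C hA.sph hBv T.Ba T.hD hv.fint hv.fnu g s' h)
    (vcore_cells hv T.κ0 T.cG0 hD0 T.hA T.ha T.hch T.hN
      (fun ν h => h.trans (P.ge ν h)) T.n0 T.p0 T.pn T.pp T.cell) hδ T.hs T.hsσ T.hc T.hk T.hkF T.hb

/-- the numbers of the side condition -/
structure VSide (κ b F c k σ s Ee : ℝ) : Prop where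
  hb : b ≤ κ * ((σ - s) * (1 - Real.exp (-c))) ^ 2 / (4 * (Lc Ee c) ^ 2)
  hs : 0 < s
  hsσ : s < σ
  hc : 0 < c
  hk : 0 ≤ k
  hkF : k ≤ 2 * (1 - Real.exp (-c)) * F * s ^ 2

/-- **(H) and (HS) for one admissible pair without the image of `v`**: one dual certificate on
`(0, V]`, `vol ≤ V`. -/
theorem hsv_plain [CompactSpace M] (C : Calc M γ) {φ φ' G W Wm : ℝ → ℝ}
    {sφ Lφ Ee c₀ X₀ εA cm c : ℝ} {v : Fin 3 → M → ℝ} (P : Pen φ φ' sφ Lφ)
    (hA : AdmK C φ G Ee c₀ X₀ εA cm c v) (hW : WOk W Wm) {κ ε N B X V b F k σ s δ lam : ℝ}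
    (hX : X₀ - G c ≤ X) (hI : IsopO C κ ε) (hε : 0 ≤ ε) (hV : C.vol ≤ V)
    (hN : 4 * W (2 * Real.exp c ^ 2) ≤ N) (hs : VSide κ b F c k σ s Ee) {J : ℕ} {β x t : ℕ → ℝ}
    (T : HCell κ N V X b F B (2 * Real.exp c ^ 2) φ W J β x t lam) (hδ : 128 * B * ε ≤ δ) :
    Hv C (wK C W v (2 * Real.exp c ^ 2)) δ ∧ HSv C (wK C W v (2 * Real.exp c ^ 2)) κ k (Lc Ee c) c δ ε σ := by
  have := C.fin
  obtain ⟨n, hD, hq⟩ := T.core (C := C) (v := v) (nuC_cint C hA.sph.lip P.cont)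
    (wG_int C hW.cont hA.sph.lip _) hN (T := univ) MeasurableSet.univ.nullMeasurableSet (by
      rw [Measure.restrict_univ]
      have h1 : ∫ o, φ (nuC C v o) ∂C.μ = Ph C φ v := rfl
      rw [h1]
      linarith [hA.tot])
  have hq' : ∀ S, NullMeasurableSet S C.μ →
      4 * ∫ o in S, wK C W v (2 * Real.exp c ^ 2) o ∂C.μ ≤ n (C.μ.real S) :=
    fun S mS => hq S mS (subset_univ _)
  have wi : Integrable (wK C W v (2 * Real.exp c ^ 2)) C.μ := wG_int C hW.cont hA.sph.lip _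
  have hB : 2 * B * ε * (8 : ℝ) ^ 2 ≤ δ := by
    have e : 2 * B * ε * (8 : ℝ) ^ 2 = 128 * B * ε := by ring
    rw [e]
    exact hδ
  have h1 : Hv C (wK C W v (2 * Real.exp c ^ 2)) δ := fun g hg ho hb =>
    hwd_le C hD hε (LevO.of_isop hI) hV (by norm_num) hB wi hq' hg ho hb
  refine ⟨h1, HSv_of_f C hs.hs hs.hsσ hs.hc hs.hk hs.hkF T.κ0.le h1 ?_⟩
  intro g hg ho hgb t ht hm
  have hq0 : 0 ≤ 1 - Real.exp (-c) := by
    have : Real.exp (-c) < 1 := by
      rw [← Real.exp_zero]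
      exact Real.exp_lt_exp.mpr (by linarith [hs.hc])
    linarith
  exact hwd_side C hD hε (LevO.of_isop hI) hV (by norm_num) hB wi hq' hg ho hgb
    ((mul_nonneg hs.hs.le hq0).trans ht) (by linarith [hs.hb])

/-- the integral of the spare term, with the account at `c` -/
theorem spare_ge' [CompactSpace M] (C : Calc M γ) {φ G : ℝ → ℝ} {Ee c₀ X₀ εA cm c X : ℝ}
    {v : Fin 3 → M → ℝ} (hA : AdmK C φ G Ee c₀ X₀ εA cm c v) (hX : X₀ - G c ≤ X) (hφ : Continuous φ)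
    {P : E3 → E3 → E3 → ℝ} (hP : Continuous (fun q : E3 × E3 × E3 => P q.1 q.2.1 q.2.2))
    {ζ : ℝ} (hζ : 0 ≤ ζ) (hB : ζ * X ≤ ∫ o, P (at' C v o) (dx C v o) (dy C v o) ∂C.μ) :
    0 ≤ ∫ o, (P (at' C v o) (dx C v o) (dy C v o) -
      ζ * φ (nuv (at' C v o) (dx C v o) (dy C v o))) ∂C.μ := by
  have i1 : Integrable (fun o => P (at' C v o) (dx C v o) (dy C v o)) C.μ := by
    have h : Continuous (fun q : E3 × E3 × E3 × E3 × E3 => P q.1 q.2.1 q.2.2.1) :=
      hP.comp (continuous_fst.prodMk ((continuous_fst.comp continuous_snd).prodMk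
        (continuous_fst.comp (continuous_snd.comp continuous_snd))))
    exact integrable_cont5 C hA.sph hA.sph.lip h
  have i2 : Integrable (fun o => φ (nuv (at' C v o) (dx C v o) (dy C v o))) C.μ :=
    nuC_cint C hA.sph.lip hφ
  rw [integral_sub i1 (i2.const_mul ζ), integral_const_mul]
  have h1 : ∫ o, φ (nuv (at' C v o) (dx C v o) (dy C v o)) ∂C.μ = Ph C φ v := rfl
  rw [h1]
  have h2 := hA.tot
  have h3 : ζ * Ph C φ v ≤ ζ * X := mul_le_mul_of_nonneg_left (by linarith) hζ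
  linarith

/-- **`Good` from the finite list of parameters `ζ`**: the image of `v` for `i < m` (with
`∫ P(e) ≤ ζ (i+1) X`), no image for `i = m`. -/
theorem good_of_tabs [CompactSpace M] (C : Calc M γ) (hγ : Bd γ) (hR : RegAE C)
    {φ φ' G Wm : ℝ → ℝ} {sφ Lφ Ee c₀ X₀ εA cm c : ℝ} {v : Fin 3 → M → ℝ} (P : Pen φ φ' sφ Lφ)
    (hA : AdmK C φ G Ee c₀ X₀ εA cm c v) {κ ε B X δ k σ V : ℝ} (hX : X₀ - G c ≤ X)
    (hI : IsopO C κ ε) (hε : 0 ≤ ε) (hV : C.vol ≤ V) (hδ : 128 * B * ε ≤ δ) {m : ℕ} {ζ : ℕ → ℝ}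
    (ζ0 : ζ 0 = 0) (hζ : ∀ i, i ≤ m → 0 ≤ ζ i) {W : ℕ → ℝ → ℝ}
    {Q : ℕ → E3 → E3 → E3 → E3 → E3 → ℝ} (hW : ∀ i, i ≤ m → WOk (W i) Wm)
    (hQ : ∀ i, i ≤ m → PWE φ' (W i) 1 (fun v a b => PE (enb a b) - ζ i * φ (nuv v a b)) (Q i))
    (hT : ∀ i, i < m → ∃ (N ρ a₁ D b F cG s : ℝ) (p : ℕ → ℝ) (n : ℕ),
      VTab κ N B ρ X (ζ (i + 1) * X) a₁ D b F cG c k σ s Ee φ (W i) p n)
    (hPl : ∃ (N b F s lam : ℝ) (J : ℕ) (β x t : ℕ → ℝ), 4 * W m (2 * Real.exp c ^ 2) ≤ N ∧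
      VSide κ b F c k σ s Ee ∧ HCell κ N V X b F B (2 * Real.exp c ^ 2) φ (W m) J β x t lam) :
    Good C φ' Wm κ k Ee c δ ε σ v := by
  have hPc : Continuous (fun q : E3 × E3 × E3 => PE (enb q.2.1 q.2.2)) := PE_cont.comp enb_cont
  have hB0 : 0 ≤ ∫ o, PE (enb (dx C v o) (dy C v o)) ∂C.μ :=
    integral_nonneg fun o => PE_nonneg (enb_nonneg _ _)
  have hδ0 : 0 ≤ δ := by
    obtain ⟨N, b, F, s, lam, J, β, x, t, -, -, h⟩ := hPl
    have : 0 ≤ B := h.N0.trans h.NB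
    exact le_trans (by positivity) hδ
  obtain ⟨i, hi, h1, h2⟩ := kgd_index (n := m) (ζ := ζ) (X := X)
    (B := ∫ o, PE (enb (dx C v o) (dy C v o)) ∂C.μ) (by rw [ζ0, zero_mul]; exact hB0)
  have hsp := spare_ge' C hA hX P.cont (P := fun _ a b => PE (enb a b)) hPc (hζ i hi) h1
  have key : Hv C (wK C (W i) v (2 * Real.exp c ^ 2)) δ ∧
      HSv C (wK C (W i) v (2 * Real.exp c ^ 2)) κ k (Lc Ee c) c δ ε σ := by
    rcases hi.lt_or_eq with him | him
    · obtain ⟨N, ρ, a₁, D, b, F, cG, s, p, n, T⟩ := hT i him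
      exact hsv_of_tab C hγ hR P hA (hW i hi) hX hI hε (h2.resolve_left him.ne) T hδ
    · obtain ⟨N, b, F, s, lam, J, β, x, t, h3, h4, h5⟩ := hPl
      subst him
      exact hsv_plain C P hA (hW i hi) hX hI hε hV h3 h4 h5 hδ
  refine Good.of_one C (hW i hi) one_pos le_rfl (hQ i hi) (by linarith) key.1 ?_
  rw [div_one]
  exact key.2

end Pool.Agent.FPX
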