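import Mathlib
import Pool.Agent.FPX.VHT
import Pool.Agent.FPX.FAC3
import Pool.Agent.FPX.PNQ

/-
CLN (helper58): `Closing` from a finite rational table. `CellP` is the statement for one interval of `c`
and one parameter `ζ`; `closing_of_cells` assembles them; `cellC` (image of `v` outside, rows of VTC) and
`cellP` (no image, last `ζ`) are the Boolean checks; `closing_of_table` is the result.
-/

open MeasureTheory Set Filter Topology
open scoped ENNReal NNReal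

noncomputable section

namespace Pool.Agent.FPX

open Pool.Agent.EWD Pool.Agent.FPM VTB

/-- the spare term of small energy as a function of the state -/
def spP (_v a b : E3) : ℝ := PE (enb a b)

theorem spP_cont : Continuous (fun q : E3 × E3 × E3 => spP q.1 q.2.1 q.2.2) := PE_cont.comp enb_cont

/-- the spare integral -/
def BP {M : Type} [MetricSpace M] {γ : ℝ → M} (C : Calc M γ) (v : Fin 3 → M → ℝ) : ℝ :=
  ∫ o, spP (at' C v o) (dx C v o) (dy C v o) ∂C.μ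

/-- the inequalities of one cell: `c ∈ [a, b]`, left value of the cost `g`, slope at most `k`, and a
condition `hyp` on the spare integral -/
def CellP (φ G G' W : ℝ → ℝ) (κ Ee c₀ X σ B a b g k : ℝ) (hyp : ℝ → Prop) : Prop :=
  ∀ (M : Type) [MetricSpace M] [CompactSpace M] (γ : ℝ → M) (C : Calc M γ), Bd γ → RegAE C →
    C.vol < 2 * Real.pi → ∀ ε δ : ℝ, 0 ≤ ε → 0 < δ → 128 * B * ε ≤ δ → IsopO C κ ε →
    ∀ (εA cm c : ℝ) (v : Fin 3 → M → ℝ), AdmK C φ G Ee c₀ X εA cm c v → a ≤ c → c ≤ b → g ≤ G c →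
    0 ≤ G' c → G' c ≤ k → hyp (BP C v) →
    Hv C (wK C W v (2 * Real.exp c ^ 2)) δ ∧
      HSv C (wK C W v (2 * Real.exp c ^ 2)) κ (G' c) (Lc Ee c) c δ ε σ

/-- **`Closing` from finitely many cells** -/
theorem closing_of_cells {φ φ' Wm : ℝ → ℝ} {κ Ee c₀ X σ k₀ B : ℝ} {L : List (ℝ × ℝ)}
    (hk : 0 ≤ k₀) (ho : pkOk k₀ L) (hX : X < pkVal 0 k₀ L) (hB : 0 < B)
    (hφ : Continuous φ) (hφ0 : ∀ x, 0 ≤ x → 0 ≤ φ x)
    {n : ℕ} {ζ : ℕ → ℝ} (hζ0 : ζ 0 = 0) (hζ : ∀ i, i ≤ n → 0 ≤ ζ i) {W : ℕ → ℝ → ℝ}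
    {Q : ℕ → E3 → E3 → E3 → E3 → E3 → ℝ} (hW : ∀ i, i ≤ n → WOk (W i) Wm)
    (hQ : ∀ i, i ≤ n → PWE φ' (W i) 1 (fun v a b => PE (enb a b) - ζ i * φ (nuv v a b)) (Q i))
    (hcell : ∀ q ∈ pkCells c₀ 0 k₀ L, q.2.2.1 ≤ X → ∀ i, i ≤ n →
      CellP φ (pkG c₀ k₀ L) (pkD c₀ k₀ L) (W i) κ Ee c₀ X σ B q.1 q.2.1 q.2.2.1 q.2.2.2
        (fun x => i < n → x ≤ ζ (i + 1) * (X - q.2.2.1))) :
    Closing φ φ' Wm (pkG c₀ k₀ L) (pkD c₀ k₀ L) κ Ee c₀ X σ := by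
  refine ⟨B, 1, hB, one_pos, ?_⟩
  intro M _ _ γ C hγ hR hv ε δ hε _ hδ hBε hI εA cm c v hA
  have hG := pk_cost (c₀ := c₀) hk ho
  have hPh : 0 ≤ Ph C φ v := integral_nonneg fun o => hφ0 _ (nuv_nonneg _ _ _)
  have hGX : pkG c₀ k₀ L c ≤ X := by linarith [hA.tot]
  have hBP : 0 ≤ BP C v := integral_nonneg fun _ => PE_nonneg (enb_nonneg _ _)
  rcases pk_locate L c₀ 0 k₀ ho hk hA.hc with ⟨q, hq, q1, q2, q3, q4⟩ | ⟨_, q2⟩
  · rw [zero_add] at q3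
    obtain ⟨i, hi, h1, h2⟩ := kgd_index (n := n) (ζ := ζ) (X := X - q.2.2.1) (B := BP C v)
      (by rw [hζ0, zero_mul]; exact hBP)
    have h3 := spare_ge' C hA (X := X - q.2.2.1) (by linarith) hφ spP_cont (hζ i hi) h1
    obtain ⟨h4, h5⟩ := hcell q hq (q3.trans hGX) i hi M γ C hγ hR hv ε δ hε hδ hBε hI εA cm c v hA
      q1 q2 q3 (hG.nonneg' c hA.hc) q4 (fun hin => h2.resolve_left hin.ne)
    refine Good.of_one C (hW i hi) one_pos le_rfl (hQ i hi) ?_ h4 ?_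
    · have h6 : 0 ≤ ∫ o, (PE (enb (dx C v o) (dy C v o)) -
          ζ i * φ (nuv (at' C v o) (dx C v o) (dy C v o))) ∂C.μ := h3
      linarith
    · rw [div_one]
      exact h5
  · rw [zero_add] at q2
    linarith

/-! ### the cells with image -/

theorem cellC_ok {κ X σ se B ζ' : ℚ} {lφ : List (ℚ × ℚ)} {q : ℚ × ℚ} {V : List (ℚ × ℚ)}
    {r : ℚ × ℚ × ℚ × ℚ} {d : CellD} (hφ : qOk 1 lφ = true) (hV : plOk (0, 0) q V = true)
    (h : cellC κ X σ se B ζ' lφ q V r d = true) {Ee c₀ : ℝ} (hse : √Ee ≤ se) (hζ : 0 ≤ ζ')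
    (hr : r.2.2.1 ≤ X) {G G' : ℝ → ℝ} {hyp : ℝ → Prop}
    (hhyp : ∀ x, hyp x → x ≤ (ζ' : ℝ) * (X - r.2.2.1)) :
    CellP (pkG 0 1 (clQ lφ)) G G' (fun x => plc (0, 0) q V (pkG 0 1 (clQ lφ) x) / 4) κ Ee c₀ X σ B
      r.1 r.2.1 r.2.2.1 r.2.2.2 hyp := by
  intro M _ _ γ C hγ hR hvol ε δ hε hδ hBε hI εA cm c v hA ha hb hg hk0 hk hhy
  simp only [cellC, Bool.and_eq_true] at h
  obtain ⟨⟨h, htab⟩, hcell⟩ := h
  obtain ⟨c1, c2, c3, c4, c5, c6, c7, c8, c9, c10, c11⟩ := of_decide_eq_true h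
  have hB : max (d.p.N : ℝ) (d.p.F / d.p.b) ≤ B :=
    max_le (by exact_mod_cast c10) (by exact_mod_cast c11)
  have hpk := qOk_pkOk lφ 1 hφ
  have P := pen_pkG (l := clQ lφ) (by simpa using hpk)
  set φ := pkG 0 1 (clQ lφ) with hφd
  have hφm : ∀ x y, 0 ≤ x → x ≤ y → φ x ≤ φ y := fun x y _ hxy => by
    have := P.mono x (y - x) (by linarith)
    rwa [add_sub_cancel] at this
  have hφ0 : ∀ x, 0 ≤ x → 0 ≤ φ x := fun x hx => hx.trans (P.ge x hx)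
  set W : ℝ → ℝ := fun x => plc (0, 0) q V (φ x) / 4 with hWd
  have hWok : WOk W W := wok_plc P.cont hφm hφ0 hV fun x _ => le_rfl
  have hq1 : (0 : ℝ) < q.1 := by
    have := (plOk_head hV).1
    simpa using this
  have hρ : ∀ x, 0 ≤ x → W x ≤ (d.p.ρ : ℝ) * φ x := by
    intro x hx
    have h1 := plc_le_slope (q := q) (l := V) (φ x)
    have h2 : (q.2 : ℝ) / q.1 ≤ 4 * d.p.ρ := by
      rw [div_le_iff₀ hq1]
      exact_mod_cast c3
    have h3 := mul_le_mul_of_nonneg_right h2 (hφ0 x hx)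
    change plc (0, 0) q V (φ x) / 4 ≤ _
    linarith
  have hp : parOk d.p = true := by
    rw [tabC, Bool.and_eq_true] at htab
    exact htab.1
  obtain ⟨-, qρ, -⟩ := of_decide_eq_true hp
  have hρ0 : (0 : ℝ) ≤ d.p.ρ := by exact_mod_cast qρ
  have hX' : (X : ℝ) - G c ≤ d.p.X := by
    have : (X : ℝ) - r.2.2.1 ≤ d.p.X := by exact_mod_cast c2
    linarith
  have hv := vdat_of_adm C P hA hX' hWok hρ0 hρ
  -- the bounds of `exp c`
  have e1 : (d.xl : ℝ) ≤ Real.exp c := by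
    have k1 : (d.xl : ℝ) ≤ (eL r.1 : ℝ) := by exact_mod_cast c7
    have k2 := eL_le r.1
    have k3 : Real.exp (r.1 : ℝ) ≤ Real.exp c := Real.exp_le_exp.2 ha
    linarith
  have e2 : Real.exp c ≤ d.xu := by
    have k1 : (eU r.2.1 : ℝ) ≤ d.xu := by exact_mod_cast c8
    have k2 := le_eU (x := r.2.1) c9
    have k3 : Real.exp c ≤ Real.exp (r.2.1 : ℝ) := Real.exp_le_exp.2 hb
    linarith
  have he := Real.exp_pos c
  -- the cut
  have hN : 4 * W (2 * Real.exp c ^ 2) ≤ d.p.N := by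
    have k1 : 2 * Real.exp c ^ 2 ≤ 2 * (d.xu : ℝ) ^ 2 := by
      have := pow_le_pow_left₀ he.le e2 2
      linarith
    have k2 := plc_mono V (0, 0) q hV (hφm _ _ (by positivity) k1)
    have k3 : plc (0, 0) q V (φ (2 * (d.xu : ℝ) ^ 2)) ≤ d.p.N := by
      have k4 := qG_cast 0 1 lφ (2 * d.xu ^ 2)
      have k5 := qpl_cast V (0, 0) q (qG 0 1 lφ (2 * d.xu ^ 2))
      rw [k4] at k5
      push_cast at k5
      rw [hφd, ← k5]
      exact_mod_cast c4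
    change 4 * (plc (0, 0) q V (φ (2 * Real.exp c ^ 2)) / 4) ≤ _
    linarith
  have hwN : ∀ᵐ o ∂C.μ, 4 * wK C W v (2 * Real.exp c ^ 2) o ≤ d.p.N := ae_of_all _ fun o => by
    have : wK C W v (2 * Real.exp c ^ 2) o ≤ W (2 * Real.exp c ^ 2) := min_le_right _ _
    linarith
  have hN0 : (0 : ℚ) ≤ d.p.N := by
    obtain ⟨-, -, -, -, -, -, -, -, -, -, -, q12, -⟩ := of_decide_eq_true hp
    exact q12.le
  have hbel : ∀ᵐ o ∂C.μ, Below (cutV d.p.N (0, 0) q V) (φ (nuC C v o))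
      (4 * wK C W v (2 * Real.exp c ^ 2) o) := ae_of_all _ fun o => by
    refine plc_below V (0, 0) q hV hN0 (by simpa using hφ0 (nuC C v o) (nuv_nonneg _ _ _)) ?_ ?_
    · have : wK C W v (2 * Real.exp c ^ 2) o ≤ W (nuC C v o) := min_le_left _ _
      have e : W (nuC C v o) = plc (0, 0) q V (φ (nuC C v o)) / 4 := rfl
      linarith
    · have : wK C W v (2 * Real.exp c ^ 2) o ≤ W (2 * Real.exp c ^ 2) := min_le_right _ _
      linarith
  -- the deficit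
  have hBP := hhyp _ hhy
  have hD0 : (0 : ℝ) ≤ d.p.D := by
    obtain ⟨-, -, -, -, -, -, -, -, -, -, -, -, q13, -⟩ := of_decide_eq_true hp
    exact_mod_cast q13
  have hBv0 : (0 : ℝ) ≤ (ζ' : ℝ) * (X - r.2.2.1) := by
    have k1 : (0 : ℝ) ≤ ζ' := by exact_mod_cast hζ
    have k2 : (r.2.2.1 : ℝ) ≤ X := by exact_mod_cast hr
    exact mul_nonneg k1 (by linarith)
  have hD : 2 * √((d.p.a1 : ℝ) * ((ζ' : ℝ) * (X - r.2.2.1))) ≤ d.p.D := by
    have k1 : 4 * ((d.p.a1 : ℝ) * ((ζ' : ℝ) * (X - r.2.2.1))) ≤ (d.p.D : ℝ) ^ 2 := by exact_mod_cast c6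
    have k2 : √((d.p.a1 : ℝ) * ((ζ' : ℝ) * (X - r.2.2.1))) ≤ d.p.D / 2 := by
      refine Real.sqrt_le_iff.2 ⟨by linarith, ?_⟩
      have e : ((d.p.D : ℝ) / 2) ^ 2 = (d.p.D : ℝ) ^ 2 / 4 := by ring
      rw [e]
      linarith
    linarith
  have hBa : (ζ' : ℝ) * (X - r.2.2.1) ≤ d.p.a1 := by exact_mod_cast c5
  have hα : ∀ g : M → ℝ, Lip g → ∀ s, 0 ≤ s → (d.p.a1 : ℝ) ≤ supa C g s →
      (d.p.a1 : ℝ) - d.p.D - supw C g (fun o => φ (nuC C v o)) s ≤ supw C g (jac C v) s :=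
    fun g _ s _ hs => vdp C hA.sph (B := (ζ' : ℝ) * (X - r.2.2.1)) hBP hBa hD hv.fint hv.fnu g s hs
  have hI' : IsopO C d.p.κ ε := by rw [c1]; exact hI
  have key := hsv_of_tabC C hγ hR hv hwN hbel hI' hε hα htab (δ := δ) (by
    have := mul_le_mul_of_nonneg_right (mul_le_mul_of_nonneg_left hB (by norm_num : (0 : ℝ) ≤ 128)) hε
    linarith) hcell hse e1 e2 hk0 hk
  rw [c1] at key
  exact key

/-! ### the cells without image -/

/-- the core certificate from one row, on a finite measure space -/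
theorem rowE_core {Ω : Type*} [MeasurableSpace Ω] {μ : Measure Ω} [IsFiniteMeasure μ]
    {κ a1 N b F lam Y : ℚ} {js : List HJ} {V : List (ℚ × ℚ)} (q1 : 0 < κ) (q6 : 0 < a1) (q9 : 0 < b)
    (q11 : 0 ≤ F) (q12 : 0 < N) (k6 : 0 ≤ lam) (k5 : 0 - hT js ≤ 15)
    (k7 : (N + F / b) / κ * (a1 * eU (0 - hT js)) + hsQ κ a1 0 F js + lam * Y < 1)
    (g1 : hjOk N 0 js = true) (g2 : hvOk κ lam js V = true) {W φo : Ω → ℝ}
    (hW : Integrable W μ) (hWN : ∀ᵐ o ∂μ, W o ≤ N) (hφ : Integrable φo μ)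
    (hX : ∫ o, φo o ∂μ ≤ Y) (hB : ∀ᵐ o ∂μ, Below V (φo o) (W o)) {B' : ℝ}
    (hNB : (N : ℝ) ≤ B') (hfB : (F : ℝ) / b ≤ B') :
    ∃ n : ℝ → ℝ, HwD (fun a => κ * a) a1 B' n b F ∧
      ∀ S : Set Ω, ∫ o in S, W o ∂μ ≤ n (μ.real S) := by
  have r1 : (0 : ℝ) < κ := by exact_mod_cast q1
  have r2 : (0 : ℝ) < a1 := by exact_mod_cast q6
  have r3 : (0 : ℝ) < b := by exact_mod_cast q9
  have r4 : (0 : ℝ) ≤ F := by exact_mod_cast q11
  have r5 : (0 : ℝ) < N := by exact_mod_cast q12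
  have r6 : (0 : ℝ) ≤ lam := by exact_mod_cast k6
  have e0 : bj a1 0 js js.length = a1 := by
    unfold bj
    rw [List.drop_length, hT]
    simp
  have e1 : bj a1 0 js 0 = a1 * Real.exp (0 - hT js) := by
    unfold bj
    rw [List.drop_zero]
  have key := hct_main (μ := μ) (W := W) (φo := φo) (N := N) (X := Y) (κ := κ) (lam := lam)
    (b := b) (f := F) (B' := B') r1 r5.le hW hWN hφ hX r6 r3 r4 hNB hfB (J := js.length)
    (β := bj a1 0 js) (x := fun j => ((js.getD j hj0).x : ℝ))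
    (s := fun j => ((js.getD j hj0).s : ℝ)) ?_ ?_ ?_ ?_ ?_
  · rw [e0] at key
    exact key
  · rw [e1]
    positivity
  · intro j hj
    have h1 := bj_ratio (a1 := a1) (l := 0) r2 js hj
    have h2 := (hjOk_get js g1 j hj).1
    have h3 : (0 : ℝ) ≤ ((js.getD j hj0).d : ℝ) := by exact_mod_cast h2
    rw [← h1] at h3
    have p1 : 0 < bj a1 0 js j := by unfold bj; positivity
    have p2 : 0 < bj a1 0 js (j + 1) := by unfold bj; positivity
    rw [Real.log_div p2.ne' p1.ne'] at h3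
    exact (Real.log_le_log_iff p1 p2).1 (by linarith)
  · intro j hj
    obtain ⟨-, h2, h3⟩ := hjOk_get js g1 j hj
    exact ⟨by exact_mod_cast h2, by exact_mod_cast h3⟩
  · filter_upwards [hB] with o ho
    rw [sum_hgR r2 (W o) js]
    exact hgR_below q1 k6 g1 g2 ho
  · have h1 := sum_hsR (κ := κ) (f := F) (l := 0) r2 js
    rw [h1, e1]
    have h2 := hsR_le (f := F) (N := N) (l := 0) q1 q6.le q11 js g1
    have h3 : Real.exp (0 - (hT js : ℝ)) ≤ (eU (0 - hT js) : ℝ) := by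
      have := le_eU (x := 0 - hT js) k5
      push_cast at this
      exact this
    have h4 : ((N : ℝ) + F / b) / κ * (a1 * Real.exp (0 - (hT js : ℝ))) ≤
        (N + F / b) / κ * (a1 * (eU (0 - hT js) : ℝ)) :=
      mul_le_mul_of_nonneg_left (mul_le_mul_of_nonneg_left h3 r2.le) (by positivity)
    have h5 : ((N : ℝ) + F / b) / κ * (a1 * (eU (0 - hT js) : ℝ)) +
        (hsQ κ a1 0 F js : ℝ) + lam * Y < 1 := by exact_mod_cast k7
    push_cast at h2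
    linarith

/-- both inequalities without image -/
theorem hsv_hwd {M : Type} [MetricSpace M] {γ : ℝ → M} (C : Calc M γ) {κ V B ε δ c k L σ s : ℝ}
    {n : ℝ → ℝ} {b F : ℝ} (D : HwD (fun a => κ * a) V B n b F) (hκ : 0 < κ) (hε : 0 ≤ ε)
    (hI : IsopO C κ ε) (hV : C.vol ≤ V) {w : Om → ℝ} (hB : 128 * B * ε ≤ δ) (hw : Integrable w C.μ)
    (hq : ∀ S, NullMeasurableSet S C.μ → 4 * ∫ o in S, w o ∂C.μ ≤ n (C.μ.real S))
    (hs : 0 < s) (hsσ : s < σ) (hc : 0 < c) (hk : 0 ≤ k)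
    (hkf : k ≤ 2 * (1 - Real.exp (-c)) * F * s ^ 2)
    (hb : b ≤ κ * ((σ - s) * (1 - Real.exp (-c))) ^ 2 / (4 * L ^ 2)) :
    Hv C w δ ∧ HSv C w κ k L c δ ε σ := by
  have hL : LevO C (fun a => κ * a) ε := LevO.of_isop hI
  have h1 : Hv C w δ := fun g hg ho hb =>
    hwd_le C D hε hL hV (by norm_num) (by linarith) hw hq hg ho hb
  refine ⟨h1, HSv_of_f C hs hsσ hc hk hkf hκ.le h1 ?_⟩
  intro g hg ho hgb t ht hm
  have hq' : 0 ≤ 1 - Real.exp (-c) := by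
    have : Real.exp (-c) < 1 := by
      rw [← Real.exp_zero]
      exact Real.exp_lt_exp.mpr (by linarith)
    linarith
  exact hwd_side C D hε hL hV (by norm_num) (by linarith) hw hq hg ho hgb
    ((mul_nonneg hs.le hq').trans ht) (by linarith)

theorem cellE_ok {κ X σ se B : ℚ} {lφ : List (ℚ × ℚ)} {q : ℚ × ℚ} {V : List (ℚ × ℚ)}
    {r : ℚ × ℚ × ℚ × ℚ} {d : CellE} (hφ : qOk 1 lφ = true) (hV : plOk (0, 0) q V = true)
    (h : cellE κ X σ se B lφ q V r d = true) {Ee c₀ : ℝ} (hse : √Ee ≤ se) {G G' : ℝ → ℝ} {hyp : ℝ → Prop} :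
    CellP (pkG 0 1 (clQ lφ)) G G' (fun x => plc (0, 0) q V (pkG 0 1 (clQ lφ) x) / 4) κ Ee c₀ X σ B
      r.1 r.2.1 r.2.2.1 r.2.2.2 hyp := by
  intro M _ _ γ C hγ hR hvol ε δ hε hδ hBε hI εA cm c v hA ha hb hg hk0 hk hhy
  have := C.fin
  simp only [cellE, Bool.and_eq_true] at h
  obtain ⟨⟨h, g1⟩, g2⟩ := h
  obtain ⟨c1, c2, c3, c4, c5, c6, c7, c8, c9, c10, c11, c12, c13, c14, c15, c16, c17,
    c18⟩ := of_decide_eq_true h
  have hB : max (d.N : ℝ) (d.F / d.b) ≤ B := max_le (by exact_mod_cast c17) (by exact_mod_cast c18)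
  have hpk := qOk_pkOk lφ 1 hφ
  have P := pen_pkG (l := clQ lφ) (by simpa using hpk)
  set φ := pkG 0 1 (clQ lφ) with hφd
  have hφm : ∀ x y, 0 ≤ x → x ≤ y → φ x ≤ φ y := fun x y _ hxy => by
    have := P.mono x (y - x) (by linarith)
    rwa [add_sub_cancel] at this
  have hφ0 : ∀ x, 0 ≤ x → 0 ≤ φ x := fun x hx => hx.trans (P.ge x hx)
  set W : ℝ → ℝ := fun x => plc (0, 0) q V (φ x) / 4 with hWd
  have hWok : WOk W W := wok_plc P.cont hφm hφ0 hV fun x _ => le_rfl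
  have e1 : (d.xl : ℝ) ≤ Real.exp c := by
    have k1 : (d.xl : ℝ) ≤ (eL r.1 : ℝ) := by exact_mod_cast c9
    have k2 := eL_le r.1
    have k3 : Real.exp (r.1 : ℝ) ≤ Real.exp c := Real.exp_le_exp.2 ha
    linarith
  have e2 : Real.exp c ≤ d.xu := by
    have k1 : (eU r.2.1 : ℝ) ≤ d.xu := by exact_mod_cast c10
    have k2 := le_eU (x := r.2.1) c11
    have k3 : Real.exp c ≤ Real.exp (r.2.1 : ℝ) := Real.exp_le_exp.2 hb
    linarith
  have he := Real.exp_pos c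
  have hN : 4 * W (2 * Real.exp c ^ 2) ≤ d.N := by
    have k1 : 2 * Real.exp c ^ 2 ≤ 2 * (d.xu : ℝ) ^ 2 := by
      have := pow_le_pow_left₀ he.le e2 2
      linarith
    have k2 := plc_mono V (0, 0) q hV (hφm _ _ (by positivity) k1)
    have k3 : plc (0, 0) q V (φ (2 * (d.xu : ℝ) ^ 2)) ≤ d.N := by
      have k4 := qG_cast 0 1 lφ (2 * d.xu ^ 2)
      have k5 := qpl_cast V (0, 0) q (qG 0 1 lφ (2 * d.xu ^ 2))
      rw [k4] at k5
      push_cast at k5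
      rw [hφd, ← k5]
      exact_mod_cast c7
    change 4 * (plc (0, 0) q V (φ (2 * Real.exp c ^ 2)) / 4) ≤ _
    linarith
  have wi : Integrable (wK C W v (2 * Real.exp c ^ 2)) C.μ := wG_int C hWok.cont hA.sph.lip _
  have hY : ∫ o, φ (nuC C v o) ∂C.μ ≤ ((X - r.2.2.1 : ℚ) : ℝ) := by
    have h1 : ∫ o, φ (nuC C v o) ∂C.μ = Ph C φ v := rfl
    rw [h1]
    push_cast
    linarith [hA.tot]
  obtain ⟨n, hD, hq⟩ := rowE_core (μ := C.μ) (a1 := tpi) (Y := X - r.2.2.1) c1 (by norm_num [tpi]) c2 c3 c4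
    c5 (by linarith) c8 g1 g2 (W := fun o => 4 * wK C W v (2 * Real.exp c ^ 2) o)
    (φo := fun o => φ (nuC C v o)) (wi.const_mul 4) (ae_of_all _ fun o => by
      have : wK C W v (2 * Real.exp c ^ 2) o ≤ W (2 * Real.exp c ^ 2) := min_le_right _ _
      linarith) (nuC_cint C hA.sph.lip P.cont) hY (ae_of_all _ fun o => by
      refine plc_below V (0, 0) q hV c4.le (by simpa using hφ0 (nuC C v o) (nuv_nonneg _ _ _)) ?_ ?_
      · have : wK C W v (2 * Real.exp c ^ 2) o ≤ W (nuC C v o) := min_le_left _ _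
        have e : W (nuC C v o) = plc (0, 0) q V (φ (nuC C v o)) / 4 := rfl
        linarith
      · have : wK C W v (2 * Real.exp c ^ 2) o ≤ W (2 * Real.exp c ^ 2) := min_le_right _ _
        linarith) ((le_max_left _ _).trans hB) ((le_max_right _ _).trans hB)
  have r1 : (0 : ℝ) < κ := by exact_mod_cast c1
  have rb : (0 : ℝ) < d.b := by exact_mod_cast c2
  have rF : (0 : ℝ) ≤ d.F := by exact_mod_cast c3
  have u1 : (0 : ℝ) < d.s := by exact_mod_cast c12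
  have u2 : (d.s : ℝ) < σ := by exact_mod_cast c13
  have u3 : (1 : ℝ) < d.xl := by exact_mod_cast c14
  have u6 : (r.2.2.2 : ℝ) ≤ 2 * (1 - 1 / d.xl) * d.F * d.s ^ 2 := by exact_mod_cast c15
  have u7 : (d.b : ℝ) * (8 * (se * d.xu + 1) ^ 2) ≤ κ * ((σ - d.s) * (1 - 1 / d.xl)) ^ 2 := by
    exact_mod_cast c16
  have hx1 : 1 < Real.exp c := u3.trans_le e1
  have hc : 0 < c := by
    rw [← Real.exp_zero] at hx1
    exact Real.exp_lt_exp.1 hx1
  have hq1 : 1 - 1 / (d.xl : ℝ) ≤ 1 - Real.exp (-c) := by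
    rw [Real.exp_neg, ← one_div]
    have : 1 / Real.exp c ≤ 1 / (d.xl : ℝ) := one_div_le_one_div_of_le (by linarith) e1
    linarith
  have hq0 : 0 ≤ 1 - 1 / (d.xl : ℝ) := by
    have : 1 / (d.xl : ℝ) ≤ 1 := by
      rw [div_le_one (by linarith)]
      exact u3.le
    linarith
  have hpi2 : C.vol ≤ ((tpi : ℚ) : ℝ) := by
    have h1 := Real.pi_lt_d6
    have h2 : ((tpi : ℚ) : ℝ) = 6.283186 := by norm_num [tpi]
    rw [h2]
    linarith
  refine hsv_hwd C hD r1 hε hI hpi2 hBε wi (fun S _ => ?_) u1 u2 hc hk0 ?_ ?_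
  · have h1 := hq S
    rwa [integral_const_mul] at h1
  · refine (hk.trans u6).trans ?_
    have h1 : 2 * (1 - 1 / (d.xl : ℝ)) * d.F * d.s ^ 2 = 2 * d.F * d.s ^ 2 * (1 - 1 / (d.xl : ℝ)) := by
      ring
    have h2 : 2 * (1 - Real.exp (-c)) * (d.F : ℝ) * (d.s : ℝ) ^ 2 =
        2 * d.F * d.s ^ 2 * (1 - Real.exp (-c)) := by ring
    rw [h1, h2]
    exact mul_le_mul_of_nonneg_left hq1 (by positivity)
  · have hs0 : 0 ≤ √Ee := Real.sqrt_nonneg _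
    have hsq : (4 : ℝ) * (Lc Ee c) ^ 2 = 8 * (√Ee * Real.exp c + 1) ^ 2 := by
      unfold Lc
      rw [mul_pow, Real.sq_sqrt (by norm_num)]
      ring
    have hp0 : 0 ≤ √Ee * Real.exp c := by positivity
    rw [hsq, le_div_iff₀ (by positivity)]
    have h30 : √Ee * Real.exp c ≤ se * d.xu :=
      mul_le_mul hse e2 (Real.exp_pos c).le (hs0.trans hse)
    have h3 : (√Ee * Real.exp c + 1) ^ 2 ≤ ((se : ℝ) * d.xu + 1) ^ 2 :=
      pow_le_pow_left₀ (by linarith) (by linarith) 2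
    have h4 : (d.b : ℝ) * (8 * (√Ee * Real.exp c + 1) ^ 2) ≤ d.b * (8 * (se * d.xu + 1) ^ 2) :=
      mul_le_mul_of_nonneg_left (by linarith) rb.le
    have h5 : ((σ - d.s) * (1 - 1 / (d.xl : ℝ))) ^ 2 ≤ ((σ - d.s) * (1 - Real.exp (-c))) ^ 2 :=
      pow_le_pow_left₀ (mul_nonneg (by linarith) hq0) (mul_le_mul_of_nonneg_left hq1 (by linarith)) 2
    have h6 := mul_le_mul_of_nonneg_left h5 r1.le
    linarith

/-! ### the result -/

/-- the weight of a polygon -/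
def Wq (lφ : List (ℚ × ℚ)) (q : ℚ × ℚ) (V : List (ℚ × ℚ)) (x : ℝ) : ℝ :=
  plc (0, 0) q V (pkG 0 1 (clQ lφ) x) / 4

/-- **`Closing` from a finite rational table** -/
theorem closing_of_table {κ X σ se c₀ k₀ B R : ℚ} {L lφ : List (ℚ × ℚ)} {m : ℕ} {ζ : ℕ → ℚ}
    {q : ℕ → ℚ × ℚ} {V : ℕ → List (ℚ × ℚ)} {Ee : ℝ}
    (hφ : qOk 1 lφ = true) (hV : ∀ i, i ≤ m → plOk (0, 0) (q i) (V i) = true)
    (hR : ∀ i, i ≤ m → (q i).2 ≤ 4 * R * (q i).1)
    (hk : 0 ≤ k₀) (hL : qOk k₀ L = true) (hX : X < qVal 0 k₀ L) (hB : 0 < B) (hζ0 : ζ 0 = 0)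
    (hζ : ∀ i, i ≤ m → 0 ≤ ζ i) (hse : √Ee ≤ se)
    (hQ : ∀ i, i ≤ m → ∃ Q, PWE (pkD 0 1 (clQ lφ)) (Wq lφ (q i) (V i)) 1
      (fun v a b => PE (enb a b) - ζ i * pkG 0 1 (clQ lφ) (nuv v a b)) Q)
    (hC : ∀ r ∈ qCells c₀ 0 k₀ L, r.2.2.1 ≤ X →
      (∀ i, i < m → ∃ d : CellD, cellC κ X σ se B (ζ (i + 1)) lφ (q i) (V i) r d = true) ∧
      ∃ d : CellE, cellE κ X σ se B lφ (q m) (V m) r d = true) :
    Closing (pkG 0 1 (clQ lφ)) (pkD 0 1 (clQ lφ)) (fun x => R * pkG 0 1 (clQ lφ) x)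
      (pkG c₀ k₀ (clQ L)) (pkD c₀ k₀ (clQ L)) κ Ee c₀ X σ := by
  have hpk : pkOk 1 (clQ lφ) := by simpa using qOk_pkOk lφ 1 hφ
  have P := pen_pkG (l := clQ lφ) hpk
  have hφm : ∀ x y, 0 ≤ x → x ≤ y → pkG 0 1 (clQ lφ) x ≤ pkG 0 1 (clQ lφ) y := fun x y _ hxy => by
    have := P.mono x (y - x) (by linarith)
    rwa [add_sub_cancel] at this
  have hφ0 : ∀ x, 0 ≤ x → 0 ≤ pkG 0 1 (clQ lφ) x := fun x hx => hx.trans (P.ge x hx)
  have hζm : ∀ i, i < m → 0 ≤ ζ (i + 1) := fun i hi => hζ (i + 1) (by omega)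
  choose! Q hQ' using hQ
  refine closing_of_cells (φ' := pkD 0 1 (clQ lφ)) (B := B) (L := clQ L) (n := m)
    (ζ := fun i => (ζ i : ℝ)) (W := fun i => Wq lφ (q i) (V i)) (Q := Q) (by exact_mod_cast hk)
    (qOk_pkOk L k₀ hL) ?_ (by exact_mod_cast hB) P.cont hφ0 (by rw [hζ0]; simp)
    (fun i hi => by exact_mod_cast hζ i hi) (fun i hi => ?_) (fun i hi => hQ' i hi) ?_
  · have h1 : ((X : ℚ) : ℝ) < ((qVal 0 k₀ L : ℚ) : ℝ) := by exact_mod_cast hX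
    rw [qVal_cast] at h1
    simpa using h1
  · refine wok_plc P.cont hφm hφ0 (hV i hi) fun x hx => ?_
    have h1 := plc_le_slope (q := q i) (l := V i) (pkG 0 1 (clQ lφ) x)
    have hq1 : (0 : ℝ) < (q i).1 := by
      have := (plOk_head (hV i hi)).1
      simpa using this
    have h2 : ((q i).2 : ℝ) / (q i).1 ≤ 4 * R := by
      rw [div_le_iff₀ hq1]
      exact_mod_cast hR i hi
    have h3 := mul_le_mul_of_nonneg_right h2 (hφ0 x hx)
    linarith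
  · intro s hs hsX i hi
    obtain ⟨r, hr, e⟩ := qCells_cast L c₀ 0 k₀ s (by simpa using hs)
    subst e
    have hrX : r.2.2.1 ≤ X := by
      have h : ((r.2.2.1 : ℚ) : ℝ) ≤ X := hsX
      exact_mod_cast h
    obtain ⟨h1, h2⟩ := hC r hr hrX
    rcases hi.lt_or_eq with him | him
    · obtain ⟨d, hd⟩ := h1 i him
      exact cellC_ok hφ (hV i hi) hd hse (hζm i him) hrX fun x hx => hx him
    · subst him
      obtain ⟨d, hd⟩ := h2
      exact cellE_ok hφ (hV i hi) hd hse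

/-- a smaller constant -/
theorem isopO_le_kappa {M : Type} [MetricSpace M] {γ : ℝ → M} {C : Calc M γ} {κ κ' ε : ℝ}
    (h : IsopO C κ' ε) (h0 : 0 ≤ κ) (hκ : κ ≤ κ') : IsopO C κ ε := by
  intro g hg ho
  filter_upwards [h g hg ho] with t ht h1
  obtain ⟨h2, h3⟩ := ht h1
  refine ⟨h2, ?_⟩
  rcases le_total 0 ((C.μ {o | t < |g (C.pt o)|}).toReal - ε) with h4 | h4
  · exact (mul_le_mul_of_nonneg_right hκ h4).trans h3
  · exact (mul_nonpos_of_nonneg_of_nonpos h0 h4).trans (sq_nonneg _)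

/-- `φ x ≤ m x` from the right end of the interval -/
theorem pkG_le_of {lφ : List (ℚ × ℚ)} (hφ : qOk 1 lφ = true) {c₀ ms xm : ℚ} (hc : c₀ ≤ 15)
    (hx : 2 * eU c₀ ^ 2 ≤ xm) (hm : qG 0 1 lφ xm ≤ ms * xm) {x : ℝ} (h0 : 0 ≤ x)
    (h1 : x ≤ 2 * Real.exp c₀ ^ 2) : pkG 0 1 (clQ lφ) x ≤ ms * x := by
  have hpk : pkOk 1 (clQ lφ) := by simpa using qOk_pkOk lφ 1 hφ
  have e1 : Real.exp (c₀ : ℝ) ≤ (eU c₀ : ℝ) := le_eU hc
  have e2 : (2 : ℝ) * (eU c₀ : ℝ) ^ 2 ≤ xm := by exact_mod_cast hx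
  have he := Real.exp_pos (c₀ : ℝ)
  have h2 : x ≤ xm := by
    have := pow_le_pow_left₀ he.le e1 2
    linarith
  rcases h0.eq_or_lt with h3 | h3
  · rw [← h3]
    have : pkG 0 1 (clQ lφ) 0 = 0 := by
      unfold pkG
      rw [sub_self, mul_zero, zero_add]
      exact pkJ_of_nonpos _ _ hpk le_rfl
    rw [this, mul_zero]
  · have hd : ∀ y, HasDerivAt (pkG 0 1 (clQ lφ)) (pkD 0 1 (clQ lφ) y) y := fun y => by
      have h1 := pkJ_hasDerivAt (clQ lφ) 1 (y - 0)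
      have h2 : HasDerivAt (fun y => pkJ 1 (clQ lφ) (y - 0)) (pkI 1 (clQ lφ) (y - 0)) y :=
        HasDerivAt.comp_sub_const y 0 h1
      have h3 : HasDerivAt (fun y : ℝ => 1 * (y - 0)) 1 y := by
        have := ((hasDerivAt_id y).sub_const 0).const_mul (1 : ℝ)
        rwa [mul_one] at this
      exact h3.add h2
    have hconv : ConvexOn ℝ univ (pkG 0 1 (clQ lφ)) := by
      refine Monotone.convexOn_univ_of_deriv (fun y => (hd y).differentiableAt) fun y z hyz => ?_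
      rw [(hd y).deriv, (hd z).deriv]
      unfold pkD
      have := pkI_mono (clQ lφ) 1 hpk (show y - 0 ≤ z - 0 by linarith)
      linarith
    have hxm : 0 < (xm : ℝ) := h3.trans_le h2
    have h4 := hconv.2 (mem_univ (xm : ℝ)) (mem_univ (0 : ℝ)) (show (0 : ℝ) ≤ x / xm by positivity)
      (show (0 : ℝ) ≤ 1 - x / xm by rw [sub_nonneg, div_le_one hxm]; exact h2) (by ring)
    simp only [smul_eq_mul, mul_zero, add_zero] at h4
    have e3 : x / xm * xm = x := div_mul_cancel₀ x hxm.ne'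
    have e4 : pkG 0 1 (clQ lφ) 0 = 0 := by
      unfold pkG
      rw [sub_self, mul_zero, zero_add]
      exact pkJ_of_nonpos _ _ hpk le_rfl
    rw [e3, e4, mul_zero, add_zero] at h4
    have h5 : pkG 0 1 (clQ lφ) xm ≤ ms * xm := by
      have h6 : ((qG 0 1 lφ xm : ℚ) : ℝ) ≤ ms * xm := by exact_mod_cast hm
      rw [qG_cast] at h6
      simpa using h6
    have h6 := mul_le_mul_of_nonneg_left h5 (show (0 : ℝ) ≤ x / xm by positivity)
    have e5 : x / xm * (ms * xm) = ms * x := by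
      rw [mul_comm (ms : ℝ) xm, ← mul_assoc, e3]
      ring
    linarith

/-- **The sharp closing statement from the table and the start map.** -/
theorem close_of_table {κ X σ se c₀ k₀ B R ms xm : ℚ} {L lφ : List (ℚ × ℚ)} {m : ℕ} {ζ : ℕ → ℚ}
    {q : ℕ → ℚ × ℚ} {V : ℕ → List (ℚ × ℚ)} {Ee κ' Xs : ℝ} (hE : 1 ≤ Ee)
    (hφ : qOk 1 lφ = true) (hV : ∀ i, i ≤ m → plOk (0, 0) (q i) (V i) = true)
    (hR : ∀ i, i ≤ m → (q i).2 ≤ 4 * R * (q i).1) (hR0 : 0 ≤ R)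
    (hk : 0 ≤ k₀) (hL : qOk k₀ L = true) (hX : X < qVal 0 k₀ L) (hB : 0 < B) (hζ0 : ζ 0 = 0)
    (hζ : ∀ i, i ≤ m → 0 ≤ ζ i) (hse : √Ee ≤ se)
    (hQ : ∀ i, i ≤ m → ∃ Q, PWE (pkD 0 1 (clQ lφ)) (Wq lφ (q i) (V i)) 1
      (fun v a b => PE (enb a b) - ζ i * pkG 0 1 (clQ lφ) (nuv v a b)) Q)
    (hC : ∀ r ∈ qCells c₀ 0 k₀ L, r.2.2.1 ≤ X →
      (∀ i, i < m → ∃ d : CellD, cellC κ X σ se B (ζ (i + 1)) lφ (q i) (V i) r d = true) ∧
      ∃ d : CellE, cellE κ X σ se B lφ (q m) (V m) r d = true)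
    (hκ : 0 < κ) (hκ' : κ ≤ κ') (hc₀ : 0 < c₀) (hσ0 : 0 < σ) (hσ : σ < 1) (hX0 : 0 < X)
    (hX2 : X ≤ 6)
    (hIso : ∀ (M : Type) [MetricSpace M] [CompactSpace M] (γ : ℝ → M) (C : Calc M γ) (ε : ℝ), 0 < ε →
      NearM C ε → C.vol < 2 * Real.pi → IsopO C κ' ε)
    (hms : 0 < ms) (hc15 : c₀ ≤ 15) (hxm : 2 * eU c₀ ^ 2 ≤ xm) (hm : qG 0 1 lφ xm ≤ ms * xm)
    (hS : StartE Ee Xs c₀) (hXs : ms * Xs < X) :
    ∀ δ : ℝ, 0 < δ → Close (2 * Real.pi - δ) := by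
  have hpk : pkOk 1 (clQ lφ) := by simpa using qOk_pkOk lφ 1 hφ
  have P := pen_pkG (l := clQ lφ) hpk
  have hφm : ∀ x y, 0 ≤ x → x ≤ y → pkG 0 1 (clQ lφ) x ≤ pkG 0 1 (clQ lφ) y := fun x y _ hxy => by
    have := P.mono x (y - x) (by linarith)
    rwa [add_sub_cancel] at this
  have hφ0 : ∀ x, 0 ≤ x → 0 ≤ pkG 0 1 (clQ lφ) x := fun x hx => hx.trans (P.ge x hx)
  have rR : (0 : ℝ) ≤ R := by exact_mod_cast hR0
  have rκ : (0 : ℝ) < κ := by exact_mod_cast hκ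
  have hCl := closing_of_table (Ee := Ee) hφ hV hR hk hL hX hB hζ0 hζ hse hQ hC
  have hpi := Real.pi_gt_three
  have hX2' : (X : ℝ) ≤ 6 := by exact_mod_cast hX2
  refine close_of_closing (m := 1) hE P (fun x hx => mul_nonneg rR (hφ0 x hx))
    (fun x y hx hxy => mul_le_mul_of_nonneg_left (hφm x y hx hxy) rR)
    (pk_cost (by exact_mod_cast hk) (qOk_pkOk L k₀ hL)) rκ one_pos (by exact_mod_cast hc₀)
    (by exact_mod_cast hσ0) (by exact_mod_cast hσ) (by exact_mod_cast hX0) (by linarith)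
    (fun M _ _ γ C ε hε hN hv => by
      rw [one_mul]
      exact isopO_le_kappa (hIso M γ C ε hε hN hv) rκ.le hκ')
    (hS.ph P.cont (by exact_mod_cast hms) fun x h0 h1 => pkG_le_of hφ hc15 hxm hm h0 h1) hXs hCl

end Pool.Agent.FPX
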