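import Mathlib
import Pool.Agent.FPX.VDE

/-
VDA (helper99): the interface between the core and the image of `v` with the account
`∫ min (ν, 1 + ν / 2)` instead of `∫ ν` (because `J ≥ -ν / 2`).
-/

open MeasureTheory Set Filter Topology
open scoped ENNReal NNReal

noncomputable section

namespace Pool.Agent.FPX

open Pool.Agent.EWD Pool.Agent.FPM

variable {M : Type} [MetricSpace M] {γ : ℝ → M}

/-- the account of the interface -/
def ac1 (x : ℝ) : ℝ := min x (1 + x / 2)

theorem ac1_le (x : ℝ) : ac1 x ≤ x := min_le_left _ _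

theorem ac1_nonneg {x : ℝ} (h : 0 ≤ x) : 0 ≤ ac1 x := le_min h (by linarith)

theorem ac1_cont : Continuous ac1 := by
  unfold ac1
  fun_prop

/-- `-ν / 2 ≤ J` -/
theorem neg_half_nu_le_jac (C : Calc M γ) {v : Fin 3 → M → ℝ} (hv : Sph γ v) :
    ∀ᵐ o ∂C.μ, -(nuC C v o / 2) ≤ jac C v o := by
  filter_upwards [ae_perp C hv] with o ho
  have h2 := jac_pm (norm_at (C := C) hv o) ho.1 ho.2
  unfold nuC nuv jac
  rw [h2]
  nlinarith [sq_nonneg ‖qp (at' C v o) (dx C v o) (dy C v o)‖]

/-- `1 ≤ J + min (ν, 1 + ν / 2) + 2 (1 - √e)₊` -/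
theorem one_le_ac1 (C : Calc M γ) {v : Fin 3 → M → ℝ} (hv : Sph γ v) :
    ∀ᵐ o ∂C.μ, 1 ≤ jac C v o + ac1 (nuC C v o) + 2 * dfe C v o := by
  filter_upwards [ae_S2 C hv, neg_half_nu_le_jac C hv] with o h1 h2
  have h3 := one_le_dfe C v o
  have h4 := dfe_nonneg C v o
  unfold ac1
  rcases min_choice (nuC C v o) (1 + nuC C v o / 2) with h | h
  · rw [h]
    rw [h1] at h3
    linarith
  · rw [h]
    linarith

/-- **The Jacobian of a superlevel set**, `B` a bound of the energy defect, `f₁` the account. -/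
theorem jac_sup_ge1 [CompactSpace M] (C : Calc M γ) {v : Fin 3 → M → ℝ} (hv : Sph γ v) {B : ℝ}
    (hB : ∫ o, dfe C v o ^ 2 ∂C.μ ≤ B) {f₁ : Om → ℝ} (hf₁ : Integrable f₁ C.μ)
    (h₁ : ∀ᵐ o ∂C.μ, ac1 (nuC C v o) ≤ f₁ o) {g : M → ℝ} (hg : Lip g) (s : ℝ) :
    supa C g s - 2 * √(supa C g s * B) - supw C g f₁ s ≤ supw C g (jac C v) s := by
  have := C.fin
  set A : Set Om := {o | s < |g (C.pt o)|} with hA
  have mA : NullMeasurableSet A C.μ := meas_abs_lt C hg s
  obtain ⟨i1, i2⟩ := int_dfe C hv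
  have iJ : Integrable (jac C v) C.μ := jac_int C hv
  have ha : supa C g s = ∫ _ in A, (1 : ℝ) ∂C.μ := by
    rw [setIntegral_const, smul_eq_mul, mul_one]
    rfl
  have ha0 : 0 ≤ supa C g s := supa_nonneg C g s
  have hB0 : 0 ≤ B := (integral_nonneg fun o => sq_nonneg _).trans hB
  have h1 : supa C g s ≤ (∫ o in A, jac C v o ∂C.μ) + (∫ o in A, f₁ o ∂C.μ) +
      2 * ∫ o in A, dfe C v o ∂C.μ := by
    have j1 : Integrable (fun o => jac C v o + f₁ o) C.μ := iJ.add hf₁
    rw [ha, ← integral_const_mul, ← integral_add iJ.integrableOn hf₁.integrableOn,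
      ← integral_add j1.integrableOn (i1.const_mul 2).integrableOn]
    refine setIntegral_mono_ae (integrable_const _).integrableOn
      (j1.add (i1.const_mul 2)).integrableOn ?_
    filter_upwards [one_le_ac1 C hv, h₁] with o h2 h3
    change 1 ≤ jac C v o + f₁ o + 2 * dfe C v o
    linarith
  -- Cauchy-Schwarz
  have h2 : ∫ o in A, dfe C v o ∂C.μ ≤ √(supa C g s * B) := by
    have hI2 : ∫ o in A, dfe C v o ^ 2 ∂C.μ ≤ B :=
      (setIntegral_le_integral i2 (ae_of_all _ fun o => sq_nonneg _)).trans hB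
    set I := ∫ o in A, dfe C v o ∂C.μ with hI
    have hI0 : 0 ≤ I := integral_nonneg fun o => dfe_nonneg C v o
    have key : ∀ r : ℝ, 0 ≤ supa C g s * r ^ 2 - 2 * I * r + B := by
      intro r
      have h3 : 0 ≤ ∫ o in A, (r ^ 2 - 2 * r * dfe C v o + dfe C v o ^ 2) ∂C.μ := by
        refine integral_nonneg fun o => ?_
        change 0 ≤ r ^ 2 - 2 * r * dfe C v o + dfe C v o ^ 2
        nlinarith [sq_nonneg (r - dfe C v o)]
      have j0 : Integrable (fun _ : Om => r ^ 2) (C.μ.restrict A) := integrable_const _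
      have j1 : Integrable (fun o => 2 * r * dfe C v o) (C.μ.restrict A) :=
        (i1.const_mul (2 * r)).integrableOn
      have j2 : Integrable (fun o => dfe C v o ^ 2) (C.μ.restrict A) := i2.integrableOn
      have j3 : Integrable (fun o => r ^ 2 - 2 * r * dfe C v o) (C.μ.restrict A) := j0.sub j1
      rw [integral_add j3 j2, integral_sub j0 j1, integral_const_mul] at h3
      have e : ∫ _ in A, r ^ 2 ∂C.μ = supa C g s * r ^ 2 := by
        rw [setIntegral_const, smul_eq_mul]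
        rfl
      rw [e] at h3
      linarith
    refine Real.le_sqrt_of_sq_le ?_
    rcases ha0.eq_or_lt with h0 | h0
    · rw [← h0, zero_mul]
      by_contra hne
      have hI1 : 0 < I ^ 2 := not_le.1 hne
      have hI2' : 0 < I := by
        rcases hI0.eq_or_lt with h5 | h5
        · rw [← h5] at hI1
          norm_num at hI1
        · exact h5
      have h4 := key ((B + 1) / (2 * I))
      rw [← h0] at h4
      have e : 2 * I * ((B + 1) / (2 * I)) = B + 1 := by field_simp
      linarith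
    · have h4 := key (I / supa C g s)
      have e : supa C g s * (I / supa C g s) ^ 2 - 2 * I * (I / supa C g s) + B =
          B - I ^ 2 / supa C g s := by
        field_simp
        ring
      rw [e] at h4
      have h5 : I ^ 2 / supa C g s ≤ B := by linarith
      rw [div_le_iff₀ h0] at h5
      linarith
  have e1 : supw C g f₁ s = ∫ o in A, f₁ o ∂C.μ := rfl
  have e2 : supw C g (jac C v) s = ∫ o in A, jac C v o ∂C.μ := rfl
  rw [e1, e2]
  linarith

/-- **The interface with the account `f₁`**, `B` a bound of the energy defect, `2 √(a₁ B) ≤ D`. -/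
theorem vda [CompactSpace M] (C : Calc M γ) {v : Fin 3 → M → ℝ} (hv : Sph γ v) {B a₁ D : ℝ}
    (hB : ∫ o, max 0 (1 - √(S2 C v o / 2)) ^ 2 ∂C.μ ≤ B) (hBa : B ≤ a₁) (hD : 2 * √(a₁ * B) ≤ D)
    {f₁ : Om → ℝ} (hf₁ : Integrable f₁ C.μ) (h₁ : ∀ᵐ o ∂C.μ, ac1 (nuC C v o) ≤ f₁ o)
    {g : M → ℝ} (hg : Lip g) (s : ℝ) (hs : a₁ ≤ supa C g s) :
    a₁ - D - supw C g f₁ s ≤ supw C g (jac C v) s := by
  have hB0 : 0 ≤ B := (integral_nonneg fun o => sq_nonneg _).trans hB
  have h1 := jac_sup_ge1 C hv (B := B) hB hf₁ h₁ hg s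
  have h2 := sub_sqrt_mono hB0 hBa hs
  linarith

end Pool.Agent.FPX
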