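import Mathlib
import Pool.Agent.FPX.VHT
import Pool.Agent.FPX.VDA

/-
VDB (helper99): the interface of VDA with the bound of `∫ P(e)` (after VHT of helper91), account
`ac1 ∘ f` for `ν ≤ f`.
-/

open MeasureTheory Set Filter Topology
open scoped ENNReal NNReal

noncomputable section

namespace Pool.Agent.FPX

open Pool.Agent.EWD Pool.Agent.FPM

variable {M : Type} [MetricSpace M] {γ : ℝ → M}

/-- the Jacobian of a superlevel set, `B` a bound of `∫ P(e)` -/
theorem jac_sup_geP1 [CompactSpace M] (C : Calc M γ) {v : Fin 3 → M → ℝ} (hv : Sph γ v) {B : ℝ}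
    (hB : ∫ o, PE (enb (dx C v o) (dy C v o)) ∂C.μ ≤ B) {f₁ : Om → ℝ} (hf₁ : Integrable f₁ C.μ)
    (h₁ : ∀ᵐ o ∂C.μ, ac1 (nuC C v o) ≤ f₁ o) (g : M → ℝ) (s : ℝ) :
    supa C g s - 2 * √(supa C g s * B) - supw C g f₁ s ≤ supw C g (jac C v) s := by
  have := C.fin
  set A : Set Om := {o | s < |g (C.pt o)|} with hA
  have iJ : Integrable (jac C v) C.μ := jac_int C hv
  have iS : Integrable (S2 C v) C.μ := S2_int C hv.lip
  have hen : ∀ o, enb (dx C v o) (dy C v o) = S2 C v o / 2 := fun o => rfl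
  have e0 : ∀ o, 0 ≤ enb (dx C v o) (dy C v o) := fun o => enb_nonneg _ _
  have aE : AEMeasurable (fun o => enb (dx C v o) (dy C v o)) C.μ := by
    simp only [hen]
    exact iS.aemeasurable.div_const 2
  set f : Om → ℝ := fun o => max (1 - enb (dx C v o) (dy C v o)) 0 with hf
  have f0 : ∀ o, 0 ≤ f o := fun o => le_max_right _ _
  have f1 : ∀ o, f o ≤ 1 := fun o => max_le (by linarith [e0 o]) zero_le_one
  have af : AEMeasurable f C.μ := (aE.const_sub 1).max aemeasurable_const
  have i1 : Integrable f C.μ := by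
    refine (integrable_const (1 : ℝ)).mono' af.aestronglyMeasurable (ae_of_all _ fun o => ?_)
    rw [Real.norm_eq_abs, abs_of_nonneg (f0 o)]
    exact f1 o
  have i2 : Integrable (fun o => f o ^ 2) C.μ := by
    refine (integrable_const (1 : ℝ)).mono' (af.pow_const 2).aestronglyMeasurable
      (ae_of_all _ fun o => ?_)
    rw [Real.norm_eq_abs, abs_of_nonneg (by positivity)]
    exact pow_le_one₀ (f0 o) (f1 o)
  have iP : Integrable (fun o => PE (enb (dx C v o) (dy C v o))) C.μ := by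
    refine (integrable_const (1 : ℝ)).mono' ?_ (ae_of_all _ fun o => ?_)
    · exact (PE_cont.measurable.comp_aemeasurable aE).aestronglyMeasurable
    · rw [Real.norm_eq_abs, abs_of_nonneg (PE_nonneg (e0 o))]
      have h1 := tauE_ge (enb (dx C v o) (dy C v o))
      have h2 := tauE_le (enb (dx C v o) (dy C v o))
      have h3 : enb (dx C v o) (dy C v o) * (1 - 1 / tauE (enb (dx C v o) (dy C v o))) ≤ 0 := by
        refine mul_nonpos_of_nonneg_of_nonpos (e0 o) ?_
        have : 1 ≤ 1 / tauE (enb (dx C v o) (dy C v o)) := by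
          rw [le_div_iff₀ (by linarith)]
          linarith
        linarith
      unfold PE
      linarith
  have hB2 : ∫ o, f o ^ 2 ∂C.μ ≤ 4 * B := by
    have h1 : ∫ o, f o ^ 2 ∂C.μ ≤ ∫ o, 4 * PE (enb (dx C v o) (dy C v o)) ∂C.μ :=
      integral_mono i2 (iP.const_mul 4) fun o => PE_ge (e0 o)
    rw [integral_const_mul] at h1
    linarith
  have ha : supa C g s = ∫ _ in A, (1 : ℝ) ∂C.μ := by
    rw [setIntegral_const, smul_eq_mul, mul_one]
    rfl
  have ha0 : 0 ≤ supa C g s := supa_nonneg C g s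
  have hB0 : 0 ≤ B := (integral_nonneg fun o => PE_nonneg (e0 o)).trans hB
  have h1 : supa C g s ≤ (∫ o in A, jac C v o ∂C.μ) + (∫ o in A, f₁ o ∂C.μ) + ∫ o in A, f o ∂C.μ := by
    have j1 : Integrable (fun o => jac C v o + f₁ o) C.μ := iJ.add hf₁
    rw [ha, ← integral_add iJ.integrableOn hf₁.integrableOn,
      ← integral_add j1.integrableOn i1.integrableOn]
    refine setIntegral_mono_ae (integrable_const _).integrableOn
      (j1.add i1).integrableOn ?_
    filter_upwards [ae_S2 C hv, neg_half_nu_le_jac C hv, h₁] with o g1 g2 g3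
    have g4 : 1 - enb (dx C v o) (dy C v o) ≤ f o := le_max_left _ _
    have g5 := f0 o
    rw [hen] at g4
    change (1 : ℝ) ≤ jac C v o + f₁ o + f o
    unfold ac1 at g3
    rcases min_choice (nuC C v o) (1 + nuC C v o / 2) with h | h
    · rw [h] at g3
      linarith
    · rw [h] at g3
      linarith
  have h2 : ∫ o in A, f o ∂C.μ ≤ 2 * √(supa C g s * B) := by
    have hI2 : ∫ o in A, f o ^ 2 ∂C.μ ≤ 4 * B :=
      (setIntegral_le_integral i2 (ae_of_all _ fun o => sq_nonneg _)).trans hB2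
    set I := ∫ o in A, f o ∂C.μ with hI
    have hI0 : 0 ≤ I := integral_nonneg f0
    have key : ∀ r : ℝ, 0 ≤ supa C g s * r ^ 2 - 2 * I * r + 4 * B := by
      intro r
      have h3 : 0 ≤ ∫ o in A, (r ^ 2 - 2 * r * f o + f o ^ 2) ∂C.μ := by
        refine integral_nonneg fun o => ?_
        change 0 ≤ r ^ 2 - 2 * r * f o + f o ^ 2
        nlinarith [sq_nonneg (r - f o)]
      have j0 : Integrable (fun _ : Om => r ^ 2) (C.μ.restrict A) := integrable_const _
      have j1 : Integrable (fun o => 2 * r * f o) (C.μ.restrict A) :=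
        (i1.const_mul (2 * r)).integrableOn
      have j2 : Integrable (fun o => f o ^ 2) (C.μ.restrict A) := i2.integrableOn
      have j3 : Integrable (fun o => r ^ 2 - 2 * r * f o) (C.μ.restrict A) := j0.sub j1
      rw [integral_add j3 j2, integral_sub j0 j1, integral_const_mul] at h3
      have e : ∫ _ in A, r ^ 2 ∂C.μ = supa C g s * r ^ 2 := by
        rw [setIntegral_const, smul_eq_mul]
        rfl
      rw [e] at h3
      linarith
    have hsq : I ^ 2 ≤ 4 * (supa C g s * B) := by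
      rcases ha0.eq_or_lt with h0 | h0
      · rw [← h0, zero_mul, mul_zero]
        by_contra hne
        have hI1 : 0 < I ^ 2 := not_le.1 hne
        have hI2' : 0 < I := by
          rcases hI0.eq_or_lt with h5 | h5
          · rw [← h5] at hI1
            norm_num at hI1
          · exact h5
        have h4 := key ((4 * B + 1) / (2 * I))
        rw [← h0] at h4
        have e : 2 * I * ((4 * B + 1) / (2 * I)) = 4 * B + 1 := by field_simp
        linarith
      · have h4 := key (I / supa C g s)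
        have e : supa C g s * (I / supa C g s) ^ 2 - 2 * I * (I / supa C g s) + 4 * B =
            4 * B - I ^ 2 / supa C g s := by
          field_simp
          ring
        rw [e] at h4
        have h5 : I ^ 2 / supa C g s ≤ 4 * B := by linarith
        rw [div_le_iff₀ h0] at h5
        linarith
    have h6 : (I / 2) ^ 2 ≤ supa C g s * B := by nlinarith
    have h7 := Real.le_sqrt_of_sq_le h6
    linarith
  have e1 : supw C g f₁ s = ∫ o in A, f₁ o ∂C.μ := rfl
  have e2 : supw C g (jac C v) s = ∫ o in A, jac C v o ∂C.μ := rfl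
  rw [e1, e2]
  linarith

/-- **The interface with the account `f₁`**, `B` a bound of `∫ P(e)`, `D ≥ 2 √(a₁ B)`. -/
theorem vdp1 [CompactSpace M] (C : Calc M γ) {v : Fin 3 → M → ℝ} (hv : Sph γ v) {B a₁ D : ℝ}
    (hB : ∫ o, PE (enb (dx C v o) (dy C v o)) ∂C.μ ≤ B) (hBa : B ≤ a₁) (hD : 2 * √(a₁ * B) ≤ D)
    {f₁ : Om → ℝ} (hf₁ : Integrable f₁ C.μ)
    (h₁ : ∀ᵐ o ∂C.μ, ac1 (nuC C v o) ≤ f₁ o) (g : M → ℝ) (s : ℝ) (hs : a₁ ≤ supa C g s) :
    a₁ - D - supw C g f₁ s ≤ supw C g (jac C v) s := by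
  have hB0 : 0 ≤ B := (integral_nonneg fun o => PE_nonneg (enb_nonneg _ _)).trans hB
  have h1 := jac_sup_geP1 C hv hB hf₁ h₁ g s
  have h2 := sub_sqrt_mono hB0 hBa hs
  linarith

theorem ac1_mono : Monotone ac1 := fun x y h => min_le_min h (by linarith)

theorem half_le_ac1 {x : ℝ} (h : 0 ≤ x) : x / 2 ≤ ac1 x := le_min (by linarith) (by linarith)

theorem ac1_int {Ω : Type*} [MeasurableSpace Ω] {μ : Measure Ω} {f : Ω → ℝ} (hf : Integrable f μ)
    (f0 : ∀ᵐ o ∂μ, 0 ≤ f o) : Integrable (fun o => ac1 (f o)) μ := by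
  refine hf.mono' (ac1_cont.comp_aestronglyMeasurable hf.aestronglyMeasurable) ?_
  filter_upwards [f0] with o ho
  rw [Real.norm_eq_abs, abs_of_nonneg (ac1_nonneg ho)]
  exact ac1_le _

/-- **The interface with the account `ac1 ∘ f`**, `ν ≤ f`. -/
theorem vdp_ac [CompactSpace M] (C : Calc M γ) {v : Fin 3 → M → ℝ} (hv : Sph γ v) {B a₁ D : ℝ}
    (hB : ∫ o, PE (enb (dx C v o) (dy C v o)) ∂C.μ ≤ B) (hBa : B ≤ a₁) (hD : 2 * √(a₁ * B) ≤ D)
    {f : Om → ℝ} (hf : Integrable f C.μ)
    (hfn : ∀ᵐ o ∂C.μ, nuC C v o ≤ f o) (g : M → ℝ) (s : ℝ) (hs : a₁ ≤ supa C g s) :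
    a₁ - D - supw C g (fun o => ac1 (f o)) s ≤ supw C g (jac C v) s := by
  refine vdp1 C hv hB hBa hD (ac1_int hf ?_) ?_ g s hs
  · filter_upwards [hfn] with o ho
    exact (nuv_nonneg _ _ _).trans ho
  · filter_upwards [hfn] with o ho
    exact ac1_mono ho

end Pool.Agent.FPX
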