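import Mathlib
import Pool.Agent.FPX.VHW
import Pool.Agent.FPX.KGC

/-
VHD (helper99): `VHC.hardy_comp` and `VHW.vhw_core` (helper91) with a second account at the interface between
the core and the image of `v`: the deficit of the Jacobian in the core is `∫_T f₁` with `0 ≤ f₁ ≤ f` (e.g.
`f₁ = min ν (1 + ν / 2)`), while the resistance `K (X - ω)` and the weight `ρ (X - ω)` outside still use the
account `ω = ∫_T f`.
-/

open MeasureTheory Set Filter Topology
open scoped ENNReal NNReal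

noncomputable section

namespace Pool.Agent.FPX

open Pool.Agent.EWD Pool.Agent.FPM

variable {M : Type} [MetricSpace M] {γ : ℝ → M}

/-- the outer part, at a crossing level -/
theorem comp_out2 [CompactSpace M] (C : Calc M γ) (hγ : Bd γ) (hR : RegAE C) {v : Fin 3 → M → ℝ}
    (hv : Sph γ v) (hJ : ∫ o, jac C v o ∂C.μ = 2 * Real.pi) {κ ε : ℝ} (hI : IsopO C κ ε)
    {f w : Om → ℝ} (hf : Integrable f C.μ) (hfn : ∀ᵐ o ∂C.μ, nuC C v o ≤ f o)
    {X K lam ρ wB : ℝ} (fX : ∫ o, f o ∂C.μ ≤ X) (hw : Integrable w C.μ)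
    (w0 : ∀ᵐ o ∂C.μ, 0 ≤ w o) (wf : ∀ᵐ o ∂C.μ, w o ≤ ρ * f o) (wb : ∀ᵐ o ∂C.μ, w o ≤ wB)
    (hlam : 0 ≤ lam) (hρ : 0 ≤ ρ) (hK : 0 < K) {a₁ D : ℝ} (hA1 : 0 < a₁ - D - X)
    (haD : a₁ - D ≤ 2 * Real.pi + X) (hX : X < 2 * Real.pi) {G g : ℝ → ℝ}
    (hG : ∀ α, a₁ - D - X ≤ α → α ≤ 2 * Real.pi + X → HasDerivAt G (-g α) α)
    (hg : ∀ α, a₁ - D - X ≤ α → α ≤ 2 * Real.pi + X →
      1 / (α * (4 * Real.pi - α)) ≤ g α - g α ^ 2 / (2 * K))
    (hgK : ∀ α, a₁ - D - X ≤ α → α ≤ a₁ - D → g α ≤ K)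
    (hG0 : ∀ y, 0 ≤ y → y ≤ X → 0 ≤ G (2 * Real.pi + y) + K * y) {δ : ℝ} (hδ : 0 < δ)
    {χ : M → ℝ} (hχ : Lip χ) (oχ : EWD.OddB γ χ) {t : ℝ} (ht : 0 ≤ t)
    {f₁ : Om → ℝ} (hf₁ : Integrable f₁ C.μ) (f₁0 : ∀ᵐ o ∂C.μ, 0 ≤ f₁ o) (f₁f : ∀ᵐ o ∂C.μ, f₁ o ≤ f o)
    (hα : ∀ s, 0 ≤ s → a₁ ≤ supa C χ s → a₁ - D - supw C χ f₁ s ≤ supw C χ (jac C v) s)
    (hc : ∀ s, 0 ≤ s → s < t → a₁ ≤ supa C χ s) :
    t ^ 2 * ((G (a₁ - D - supw C χ f₁ t) + K * (X - supw C χ f t) + δ)⁻¹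
        - lam * ρ * (X - supw C χ f t) - lam * supw C χ w t)
      + lam * ∫ o, min |χ (C.pt o)| t ^ 2 * w o ∂C.μ ≤
      ∫ o in {o | |χ (C.pt o)| < t}, gn C χ o ^ 2 ∂C.μ := by
  have := C.fin
  have hpi := Real.pi_pos
  have f0 : ∀ᵐ o ∂C.μ, 0 ≤ f o := by
    filter_upwards [hfn] with o ho
    exact (nuv_nonneg _ _ _).trans ho
  have hf0 : ∀ s, 0 ≤ supw C χ f s := fun s => setIntegral_nonneg_of_ae f0
  have hfX : ∀ s, supw C χ f s ≤ X := fun s => (setIntegral_le_integral hf f0).trans fX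
  have hX0 : 0 ≤ X := (hf0 0).trans (hfX 0)
  have hd0 : ∀ s, 0 ≤ supw C χ f₁ s := fun s => setIntegral_nonneg_of_ae f₁0
  have hdf : ∀ s, supw C χ f₁ s ≤ supw C χ f s := fun s =>
    setIntegral_mono_ae hf₁.integrableOn hf.integrableOn f₁f
  have hdX : ∀ s, supw C χ f₁ s ≤ X := fun s => (hdf s).trans (hfX s)
  have iG := int_gn_sq C hχ
  set E := ∫ o in {o | |χ (C.pt o)| < t}, gn C χ o ^ 2 ∂C.μ with hE
  have hE0 : 0 ≤ E := integral_nonneg fun o => by positivity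
  set A1 := a₁ - D - X with hA1'
  have hgpos : ∀ α, A1 ≤ α → α ≤ 2 * Real.pi + X → 0 < g α := by
    intro α h1 h2
    have h3 : 0 < 1 / (α * (4 * Real.pi - α)) := by
      have : 0 < α := by linarith
      have : 0 < 4 * Real.pi - α := by linarith
      positivity
    have h4 := hg α h1 h2
    have h5 : 0 ≤ g α ^ 2 / (2 * K) := by positivity
    linarith
  have hGanti : ∀ α β, A1 ≤ α → α ≤ β → β ≤ 2 * Real.pi + X → G β ≤ G α := by
    intro α β h1 h2 h3
    have hmono : AntitoneOn G (Icc A1 (2 * Real.pi + X)) := by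
      refine antitoneOn_of_deriv_nonpos (convex_Icc _ _) ?_ ?_ ?_
      · intro x hx
        exact (hG x hx.1 hx.2).continuousAt.continuousWithinAt
      · intro x hx
        rw [interior_Icc] at hx
        exact (hG x hx.1.le hx.2.le).differentiableAt.differentiableWithinAt
      · intro x hx
        rw [interior_Icc] at hx
        rw [(hG x hx.1.le hx.2.le).deriv]
        have := hgpos x hx.1.le hx.2.le
        linarith
    exact hmono ⟨h1, by linarith⟩ ⟨by linarith, h3⟩ h2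
  have hGK : ∀ α β, A1 ≤ α → α ≤ β → β ≤ a₁ - D → G α + K * α ≤ G β + K * β := by
    intro α β h1 h2 h3
    have hmono : MonotoneOn (fun α => G α + K * α) (Icc A1 (a₁ - D)) := by
      have hd : ∀ x, A1 ≤ x → x ≤ a₁ - D → HasDerivAt (fun α => G α + K * α) (-g x + K * 1) x :=
        fun x h1 h2 => (hG x h1 (h2.trans haD)).add ((hasDerivAt_id x).const_mul K)
      refine monotoneOn_of_deriv_nonneg (convex_Icc _ _) ?_ ?_ ?_
      · intro x hx
        exact (hd x hx.1 hx.2).continuousAt.continuousWithinAt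
      · intro x hx
        rw [interior_Icc] at hx
        exact (hd x hx.1.le hx.2.le).differentiableAt.differentiableWithinAt
      · intro x hx
        rw [interior_Icc] at hx
        rw [(hd x hx.1.le hx.2.le).deriv]
        have := hgK x hx.1.le hx.2.le
        linarith
    exact hmono ⟨h1, by linarith⟩ ⟨by linarith, h3⟩ h2
  set ω := supw C χ f t with hω
  set d₁ := supw C χ f₁ t with hd₁
  set r := G (a₁ - D - d₁) + K * (X - ω) + δ with hr
  set q := lam * ρ * (X - ω) + lam * supw C χ w t with hq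
  have i4 : ∀ s, 0 ≤ s → Integrable (fun o => min |χ (C.pt o)| s ^ 2 * w o) C.μ := fun s hs => by
    refine hw.bdd_mul (c := s ^ 2) ?_ (ae_of_all _ fun o => ?_)
    · exact (((aem_pt C (lip_abs hχ)).min aemeasurable_const).pow_const 2).aestronglyMeasurable
    · rw [Real.norm_eq_abs, abs_pow, abs_of_nonneg (le_min (abs_nonneg _) hs)]
      exact pow_le_pow_left₀ (le_min (abs_nonneg _) hs) (min_le_right _ _) 2
  -- the inequality below the level
  have hlow : ∀ s, 0 ≤ s → s < t → s ^ 2 * (r⁻¹ - q)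
      + lam * ∫ o, min |χ (C.pt o)| s ^ 2 * w o ∂C.μ ≤ E := by
    intro s hs hst
    obtain ⟨h1, h2⟩ := out_robin C hγ hR hv hJ hI hf hfn fX hw w0 wf wb hlam hρ hK hA1 hX hG hg hG0
      hδ hχ oχ hs (fun s' h1 h2 => by
        have h3 := hα s' h1 (hc s' h1 (by linarith))
        have h4 := hdX s'
        linarith)
    have h3 := hα s hs (hc s hs hst)
    have h4 : ω ≤ supw C χ f s := by
      refine setIntegral_mono_set hf.integrableOn (ae_restrict_of_ae f0) ?_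
      exact LE.le.eventuallyLE fun o ho => hst.trans ho
    have h5 := hfX s
    have h5d := hdX s
    have h4d : d₁ ≤ supw C χ f₁ s := by
      refine setIntegral_mono_set hf₁.integrableOn (ae_restrict_of_ae f₁0) ?_
      exact LE.le.eventuallyLE fun o ho => hst.trans ho
    have h4e : supw C χ f₁ s - d₁ ≤ supw C χ f s - ω := by
      have i1 : Integrable (fun o => f o - f₁ o) C.μ := hf.sub hf₁
      have k1 : ∫ o in {o | t < |χ (C.pt o)|}, (f o - f₁ o) ∂C.μ ≤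
          ∫ o in {o | s < |χ (C.pt o)|}, (f o - f₁ o) ∂C.μ := by
        refine setIntegral_mono_set i1.integrableOn (ae_restrict_of_ae ?_) ?_
        · filter_upwards [f₁f] with o ho
          exact sub_nonneg.2 ho
        · exact LE.le.eventuallyLE fun o ho => hst.trans ho
      rw [integral_sub hf.integrableOn hf₁.integrableOn,
        integral_sub hf.integrableOn hf₁.integrableOn] at k1
      rw [hω, hd₁]
      unfold supw
      linarith
    have hsum : supw C χ (jac C v) s ≤ 2 * Real.pi + X := by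
      have iJ : Integrable (jac C v) C.μ := jac_integrable C hv
      have q1 := integral_add_compl₀ (meas_abs_lt C hχ s) iJ
      have q2 := integral_add_compl₀ (meas_abs_lt C hχ s) hf
      have q3 : ∫ o in {o | s < |χ (C.pt o)|}ᶜ, -jac C v o ∂C.μ ≤
          ∫ o in {o | s < |χ (C.pt o)|}ᶜ, f o ∂C.μ := by
        refine setIntegral_mono_ae iJ.neg.integrableOn hf.integrableOn ?_
        filter_upwards [hfn, neg_nu_le_jac C hv] with o h4 h5
        linarith
      rw [integral_neg] at q3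
      have q4 := hf0 s
      unfold supw at q4 ⊢
      linarith
    have h6 := hGanti _ _ (by linarith) h3 hsum
    have h7 := hGK (a₁ - D - supw C χ f₁ s) (a₁ - D - d₁) (by linarith) (by linarith) (by
      have := hd0 t
      linarith)
    have h8 : G (supw C χ (jac C v) s) + K * (X - supw C χ f s) + δ ≤ r := by
      rw [hr]
      have h8' := mul_le_mul_of_nonneg_left h4e hK.le
      linarith
    have h9 : r⁻¹ ≤ (G (supw C χ (jac C v) s) + K * (X - supw C χ f s) + δ)⁻¹ := inv_anti₀ h1 h8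
    have h12 : supw C χ w s - supw C χ w t ≤ ρ * (supw C χ f s - ω) := by
      have mS := meas_abs_lt C hχ s
      have mT := meas_abs_lt C hχ t
      have i1 : Integrable (fun o => ρ * f o - w o) C.μ := (hf.const_mul ρ).sub hw
      have k1 : ∫ o in {o | t < |χ (C.pt o)|}, (ρ * f o - w o) ∂C.μ ≤
          ∫ o in {o | s < |χ (C.pt o)|}, (ρ * f o - w o) ∂C.μ := by
        refine setIntegral_mono_set i1.integrableOn (ae_restrict_of_ae ?_) ?_
        · filter_upwards [wf] with o ho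
          exact sub_nonneg.2 ho
        · exact LE.le.eventuallyLE fun o ho => hst.trans ho
      rw [integral_sub (hf.const_mul ρ).integrableOn hw.integrableOn,
        integral_sub (hf.const_mul ρ).integrableOn hw.integrableOn, integral_const_mul,
        integral_const_mul] at k1
      rw [hω]
      unfold supw
      linarith
    have h13 := mul_le_mul_of_nonneg_left h12 hlam
    have h14 : lam * ρ * (X - supw C χ f s) + lam * supw C χ w s ≤ q := by
      rw [hq]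
      linarith
    have h10 : s ^ 2 * (r⁻¹ - q) ≤
        s ^ 2 * ((G (supw C χ (jac C v) s) + K * (X - supw C χ f s) + δ)⁻¹
          - lam * ρ * (X - supw C χ f s) - lam * supw C χ w s) :=
      mul_le_mul_of_nonneg_left (by linarith) (sq_nonneg s)
    have h11 : ∫ o in {o | |χ (C.pt o)| < s}, gn C χ o ^ 2 ∂C.μ ≤ E := by
      refine setIntegral_mono_set iG.integrableOn (ae_of_all _ fun o => by positivity) ?_
      exact LE.le.eventuallyLE fun o ho => (show |χ (C.pt o)| < s from ho).trans hst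
    linarith
  have e0 : t ^ 2 * (r⁻¹ - lam * ρ * (X - ω) - lam * supw C χ w t) = t ^ 2 * (r⁻¹ - q) := by
    rw [hq]
    ring
  rw [e0]
  rcases ht.lt_or_eq with h0 | h0
  · -- the limit
    set c := |r⁻¹ - q| + lam * ∫ o, w o ∂C.μ with hcd
    have hlim : ∀ s, 0 ≤ s → s < t → t ^ 2 * (r⁻¹ - q)
        + lam * ∫ o, min |χ (C.pt o)| t ^ 2 * w o ∂C.μ ≤ E + (t ^ 2 - s ^ 2) * c := by
      intro s hs hst
      have h1 := hlow s hs hst
      have hts : 0 ≤ t ^ 2 - s ^ 2 := by nlinarith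
      have h2 : (t ^ 2 - s ^ 2) * (r⁻¹ - q) ≤ (t ^ 2 - s ^ 2) * |r⁻¹ - q| :=
        mul_le_mul_of_nonneg_left (le_abs_self _) hts
      have h3 : ∫ o, min |χ (C.pt o)| t ^ 2 * w o ∂C.μ ≤
          ∫ o, (min |χ (C.pt o)| s ^ 2 * w o + (t ^ 2 - s ^ 2) * w o) ∂C.μ := by
        refine integral_mono_ae (i4 t ht) ((i4 s hs).add (hw.const_mul _)) ?_
        filter_upwards [w0] with o hw0
        have h4 : min |χ (C.pt o)| t ^ 2 ≤ min |χ (C.pt o)| s ^ 2 + (t ^ 2 - s ^ 2) := by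
          rcases le_total |χ (C.pt o)| s with h | h
          · rw [min_eq_left h, min_eq_left (h.trans hst.le)]
            linarith
          · rw [min_eq_right h]
            have h5 : min |χ (C.pt o)| t ^ 2 ≤ t ^ 2 :=
              pow_le_pow_left₀ (le_min (abs_nonneg _) ht) (min_le_right _ _) 2
            linarith
        have h5 := mul_le_mul_of_nonneg_right h4 hw0
        linarith
      rw [integral_add (i4 s hs) (hw.const_mul _), integral_const_mul] at h3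
      have h4 := mul_le_mul_of_nonneg_left h3 hlam
      rw [hcd]
      nlinarith
    have h2 : Tendsto (fun s : ℝ => E + (t ^ 2 - s ^ 2) * c) (𝓝[<] t)
        (𝓝 (E + (t ^ 2 - t ^ 2) * c)) :=
      (((tendsto_const_nhds.sub ((continuous_pow 2).tendsto t)).mul_const c).const_add E).mono_left
        nhdsWithin_le_nhds
    have h3 := ge_of_tendsto h2 (b := t ^ 2 * (r⁻¹ - q)
        + lam * ∫ o, min |χ (C.pt o)| t ^ 2 * w o ∂C.μ) (by
      filter_upwards [Ioo_mem_nhdsLT h0] with s hs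
      exact hlim s hs.1.le hs.2)
    simpa using h3
  · have h1 : ∫ o, min |χ (C.pt o)| t ^ 2 * w o ∂C.μ = 0 := by
      have : (fun o => min |χ (C.pt o)| t ^ 2 * w o) = fun _ => 0 := by
        funext o
        rw [← h0, min_eq_right (abs_nonneg _)]
        ring
      rw [this]
      simp
    rw [h1, ← h0]
    simpa using hE0

/-- **The weighted Hardy inequality: profile and charge function in the core, image under `v`
outside, one account `ω = ∫_{t < |g|} f` for both.** -/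
theorem hardy_comp2 [CompactSpace M] (C : Calc M γ) (hγ : Bd γ) (hR : RegAE C)
    {v : Fin 3 → M → ℝ} (hv : Sph γ v) (hJ : ∫ o, jac C v o ∂C.μ = 2 * Real.pi) {κ ε' : ℝ}
    (hI : IsopO C κ ε') {f w w₂ : Om → ℝ} (hf : Integrable f C.μ)
    (hfn : ∀ᵐ o ∂C.μ, nuC C v o ≤ f o) {X K lam ρ wB m₂ : ℝ} (fX : ∫ o, f o ∂C.μ ≤ X)
    (hw : Integrable w C.μ) (w0 : ∀ᵐ o ∂C.μ, 0 ≤ w o) (wf : ∀ᵐ o ∂C.μ, w o ≤ ρ * f o)
    (wb : ∀ᵐ o ∂C.μ, w o ≤ wB) (hw₂ : Integrable w₂ C.μ) (w₂0 : ∀ᵐ o ∂C.μ, 0 ≤ w₂ o)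
    (w₂m : ∫ o, w₂ o ∂C.μ ≤ m₂) (hlam : 0 ≤ lam) (hρ : 0 ≤ ρ) (hK : 0 < K) {a₁ D : ℝ}
    (ha : 0 < a₁) (hA1 : 0 < a₁ - D - X) (haD : a₁ - D ≤ 2 * Real.pi + X) (hX : X < 2 * Real.pi)
    {G gg : ℝ → ℝ}
    (hG : ∀ α, a₁ - D - X ≤ α → α ≤ 2 * Real.pi + X → HasDerivAt G (-gg α) α)
    (hgg : ∀ α, a₁ - D - X ≤ α → α ≤ 2 * Real.pi + X →
      1 / (α * (4 * Real.pi - α)) ≤ gg α - gg α ^ 2 / (2 * K))
    (hgK : ∀ α, a₁ - D - X ≤ α → α ≤ a₁ - D → gg α ≤ K)
    (hG0 : ∀ y, 0 ≤ y → y ≤ X → 0 ≤ G (2 * Real.pi + y) + K * y)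
    {g : M → ℝ} (hg : Lip g) (og : EWD.OddB γ g) {R : ℝ} (hR0 : 0 ≤ R)
    (gR : ∀ᵐ o ∂C.μ, |g (C.pt o)| ≤ R) {ε δ : ℝ} (hε : 0 ≤ ε) (hδ : 0 ≤ δ) {Lam : ℝ → ℝ}
    (hL : ∀ᵐ t : ℝ, 0 < t → DifferentiableAt ℝ (lev C fun x => |g x|) t ∧
      Lam (supa C g t - ε) ≤ deriv (lev C fun x => |g x|) t ^ 2)
    {f₁ : Om → ℝ} (hf₁ : Integrable f₁ C.μ) (f₁0 : ∀ᵐ o ∂C.μ, 0 ≤ f₁ o) (f₁f : ∀ᵐ o ∂C.μ, f₁ o ≤ f o)
    (hα : ∀ s, 0 ≤ s → a₁ ≤ supa C g s → a₁ - D - supw C g f₁ s ≤ supw C g (jac C v) s)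
    (hcert : ∀ t, 0 ≤ t → t ≤ R → supa C g t ≤ a₁ → ∃ n k,
      CoreCert C g (fun o => w o + w₂ o) Lam ε δ lam a₁ t n k ∧
      0 < G (a₁ - D - supw C g f₁ t) + K * (X - supw C g f t) ∧
      (lam * ρ * (X - supw C g f t) + lam * supw C g w t + lam * m₂ + ∫ u in (0 : ℝ)..a₁, k u) *
        (G (a₁ - D - supw C g f₁ t) + K * (X - supw C g f t)) < 1) :
    lam * ∫ o, g (C.pt o) ^ 2 * (w o + w₂ o) ∂C.μ ≤
      ∫ o, gn C g o ^ 2 ∂C.μ + lam * δ * R ^ 2 := by
  have := C.fin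
  have hW : Integrable (fun o => w o + w₂ o) C.μ := hw.add hw₂
  have iG := int_gn_sq C hg
  have hband : ∀ t, (∫ o in {o | t < |g (C.pt o)| ∧ |g (C.pt o)| ≤ R}, gn C g o ^ 2 ∂C.μ) +
      ∫ o in {o | |g (C.pt o)| < t}, gn C g o ^ 2 ∂C.μ ≤ ∫ o, gn C g o ^ 2 ∂C.μ := by
    intro t
    set B := {o | t < |g (C.pt o)|} with hB
    have h1 : ∫ o in {o | t < |g (C.pt o)| ∧ |g (C.pt o)| ≤ R}, gn C g o ^ 2 ∂C.μ ≤
        ∫ o in B, gn C g o ^ 2 ∂C.μ :=
      setIntegral_mono_set iG.integrableOn (ae_of_all _ fun o => sq_nonneg _)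
        (LE.le.eventuallyLE fun o ho => ho.1)
    have h2 : ∫ o in {o | |g (C.pt o)| < t}, gn C g o ^ 2 ∂C.μ ≤ ∫ o in Bᶜ, gn C g o ^ 2 ∂C.μ :=
      setIntegral_mono_set iG.integrableOn (ae_of_all _ fun o => sq_nonneg _)
        (LE.le.eventuallyLE fun o ho => not_lt.2 (le_of_lt (show |g (C.pt o)| < t from ho)))
    have h3 := integral_add_compl₀ (meas_abs_lt C hg t) iG
    linarith
  -- the general step at a level `t`
  have step : ∀ t, 0 ≤ t → t ≤ R → supa C g t ≤ a₁ → (∀ s, 0 ≤ s → s < t → a₁ ≤ supa C g s) →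
      lam * ∫ o, g (C.pt o) ^ 2 * (w o + w₂ o) ∂C.μ ≤
        ∫ o, gn C g o ^ 2 ∂C.μ + lam * δ * R ^ 2 := by
    intro t t0 tR hta hc
    obtain ⟨n, k, hcc, hr0, hr1⟩ := hcert t t0 tR hta
    have h1 := comp_in C hg gR hW t0 tR hlam hε hδ hta hL hcc
    set r0 := G (a₁ - D - supw C g f₁ t) + K * (X - supw C g f t) with hr0'
    set σ := lam * ρ * (X - supw C g f t) + lam * supw C g w t + lam * m₂ +
      ∫ u in (0 : ℝ)..a₁, k u with hσ
    obtain ⟨d, hd0, hd1⟩ : ∃ d, 0 < d ∧ σ * (r0 + d) ≤ 1 := by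
      have hs := abs_nonneg σ
      have h8 : 0 < (1 - σ * r0) / (|σ| + 1) := div_pos (by linarith) (by linarith)
      refine ⟨(1 - σ * r0) / (|σ| + 1), h8, ?_⟩
      have h9 : (|σ| + 1) * ((1 - σ * r0) / (|σ| + 1)) = 1 - σ * r0 := by
        field_simp
      have h10 : σ * ((1 - σ * r0) / (|σ| + 1)) ≤ (|σ| + 1) * ((1 - σ * r0) / (|σ| + 1)) :=
        mul_le_mul_of_nonneg_right (by linarith [le_abs_self σ]) h8.le
      rw [mul_add]
      linarith
    have h2 := comp_out2 C hγ hR hv hJ hI hf hfn fX hw w0 wf wb hlam hρ hK hA1 haD hX hG hgg hgK hG0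
      hd0 hg og t0 hf₁ f₁0 f₁f hα hc
    have h3 : σ ≤ (r0 + d)⁻¹ := by
      rw [← one_div, le_div_iff₀ (by linarith)]
      exact hd1
    have i3 : ∀ {u : Om → ℝ}, Integrable u C.μ → Integrable (fun o => g (C.pt o) ^ 2 * u o) C.μ := by
      intro u hu
      refine hu.bdd_mul (c := R ^ 2) ((aem_pt C hg).pow_const 2).aestronglyMeasurable ?_
      filter_upwards [gR] with o ho
      rw [Real.norm_eq_abs, abs_pow]
      exact pow_le_pow_left₀ (abs_nonneg _) ho 2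
    have i4 : ∀ {u : Om → ℝ}, Integrable u C.μ →
        Integrable (fun o => min |g (C.pt o)| t ^ 2 * u o) C.μ := by
      intro u hu
      refine hu.bdd_mul (c := t ^ 2) ?_ (ae_of_all _ fun o => ?_)
      · exact (((aem_pt C (lip_abs hg)).min aemeasurable_const).pow_const 2).aestronglyMeasurable
      · rw [Real.norm_eq_abs, abs_pow, abs_of_nonneg (le_min (abs_nonneg _) t0)]
        exact pow_le_pow_left₀ (le_min (abs_nonneg _) t0) (min_le_right _ _) 2
    have e6 : ∫ o, (g (C.pt o) ^ 2 - min |g (C.pt o)| t ^ 2) * (w o + w₂ o) ∂C.μ =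
        (∫ o, g (C.pt o) ^ 2 * (w o + w₂ o) ∂C.μ) -
          ((∫ o, min |g (C.pt o)| t ^ 2 * w o ∂C.μ) + ∫ o, min |g (C.pt o)| t ^ 2 * w₂ o ∂C.μ) := by
      have i5 : Integrable (fun o => min |g (C.pt o)| t ^ 2 * w o +
          min |g (C.pt o)| t ^ 2 * w₂ o) C.μ := (i4 hw).add (i4 hw₂)
      rw [← integral_add (i4 hw) (i4 hw₂), ← integral_sub (i3 hW) i5]
      refine integral_congr_ae (ae_of_all _ fun o => ?_)
      ring
    have e7 : ∫ o, min |g (C.pt o)| t ^ 2 * w₂ o ∂C.μ ≤ t ^ 2 * m₂ := by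
      have h3 : ∫ o, min |g (C.pt o)| t ^ 2 * w₂ o ∂C.μ ≤ ∫ o, t ^ 2 * w₂ o ∂C.μ := by
        refine integral_mono_ae (i4 hw₂) (hw₂.const_mul _) ?_
        filter_upwards [w₂0] with o hw0
        exact mul_le_mul_of_nonneg_right (pow_le_pow_left₀ (le_min (abs_nonneg _) t0)
          (min_le_right _ _) 2) hw0
      rw [integral_const_mul] at h3
      exact h3.trans (mul_le_mul_of_nonneg_left w₂m (by positivity))
    rw [e6] at h1
    have h4 := hband t
    have h5 : t ^ 2 * σ ≤ t ^ 2 * (r0 + d)⁻¹ := mul_le_mul_of_nonneg_left h3 (sq_nonneg t)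
    have h6 := mul_le_mul_of_nonneg_left e7 hlam
    rw [hσ] at h5
    nlinarith
  rcases lt_or_ge (supa C g 0) a₁ with h0 | h0
  · exact step 0 le_rfl hR0 h0.le fun s h1 h2 => absurd h2 (not_lt.2 h1)
  · obtain ⟨t, t0, tR, ht1, ht2⟩ := crossing C gR ha h0
    exact step t t0 tR ht1 ht2

/-- **Weighted Hardy inequality with side condition, image of `v` outside.** For every core `T` of
area at most `a₁`: a charge `n` of `4 w` on the subsets of `T`, a core certificate with value `r`, and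
`(4 ρ (X - ω) + (min (4 ρ ω) (n a₁) - n a₁) + r) (G (a₁ - D - ω) + K (X - ω)) < 1` with
`ω = ∫_T f`; the second account `d = ∫_T f₁` enters `G (a₁ - D - d)`. -/
theorem vhw_core2 [CompactSpace M] (C : Calc M γ) (hγ : Bd γ) (hR : RegAE C)
    {v : Fin 3 → M → ℝ} {f w : Om → ℝ} {X ρ : ℝ} (hv : VDat C v f w X ρ) {κ ε B K a₁ D b F : ℝ}
    {Lam : ℝ → ℝ} (hL : LevO C Lam ε) (hI : IsopO C κ ε) (hε : 0 ≤ ε) {G gg : ℝ → ℝ} (hN : VNum X K a₁ D G gg)
    (hba : b ≤ a₁)
    {f₁ : Om → ℝ} (hf₁ : Integrable f₁ C.μ) (f₁0 : ∀ᵐ o ∂C.μ, 0 ≤ f₁ o) (f₁f : ∀ᵐ o ∂C.μ, f₁ o ≤ f o)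
    (hα : ∀ g : M → ℝ, Lip g → ∀ s, 0 ≤ s → a₁ ≤ supa C g s →
      a₁ - D - supw C g f₁ s ≤ supw C g (jac C v) s)
    (hcert : ∀ T, NullMeasurableSet T C.μ → C.μ.real T ≤ a₁ → ∃ (n : ℝ → ℝ) (r : ℝ),
      CoreD Lam a₁ B n b F r ∧
      (∀ S, NullMeasurableSet S C.μ → S ⊆ T → 4 * ∫ o in S, w o ∂C.μ ≤ n (C.μ.real S)) ∧
      0 < G (a₁ - D - ∫ o in T, f₁ o ∂C.μ) + K * (X - ∫ o in T, f o ∂C.μ) ∧
      (4 * ρ * (X - ∫ o in T, f o ∂C.μ) +
          (min (4 * ρ * ∫ o in T, f o ∂C.μ) (n a₁) - n a₁) + r) *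
        (G (a₁ - D - ∫ o in T, f₁ o ∂C.μ) + K * (X - ∫ o in T, f o ∂C.μ)) < 1)
    {R : ℝ} (hR0 : 0 ≤ R) {g : M → ℝ} (hg : Lip g) (og : EWD.OddB γ g) (gR : ∀ x, |g x| ≤ R)
    {t : ℝ} (ht : 0 ≤ t) (hS : b ≤ C.μ.real {o | t < |g (C.pt o)|}) :
    4 * ∫ o, w o * g (C.pt o) ^ 2 ∂C.μ + F * t ^ 2 ≤
      ∫ o, gn C g o ^ 2 ∂C.μ + 2 * B * ε * R ^ 2 := by
  have := C.fin
  obtain ⟨wB, wb⟩ := hv.wb
  have f0 : ∀ᵐ o ∂C.μ, 0 ≤ f o := by
    filter_upwards [hv.fnu] with o ho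
    exact (nuv_nonneg _ _ _).trans ho
  have hf0 : ∀ s, 0 ≤ supw C g f s := fun s => setIntegral_nonneg_of_ae f0
  have hfX : ∀ s, supw C g f s ≤ X := fun s => (setIntegral_le_integral hv.fint f0).trans hv.fX
  have hX0 : 0 ≤ X := (hf0 0).trans (hfX 0)
  -- general facts on the side charge
  obtain ⟨n₀, r₀, D₀, -, -, -⟩ := hcert ∅ MeasurableSet.empty.nullMeasurableSet
    (by simpa using hN.a0.le)
  have hb0 := D₀.b0
  have hF0 := D₀.f0
  have hFb := D₀.fb
  have hFb0 : 0 ≤ F / b := div_nonneg hF0 hb0.le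
  set S := {o | t < |g (C.pt o)|} with hSd
  have mS : NullMeasurableSet S C.μ := meas_abs_lt C hg t
  have hSp : 0 < C.μ.real S := hb0.trans_le hS
  set w₂ : Om → ℝ := S.indicator (fun _ => F / C.μ.real S) with hw₂
  have iw₂ : Integrable w₂ C.μ := (integrable_const _).indicator₀ mS
  have w₂0 : ∀ o, 0 ≤ w₂ o := fun o => indicator_nonneg (fun _ _ => by positivity) o
  have w₂m : ∫ o, w₂ o ∂C.μ ≤ F := by
    rw [hw₂, integral_indicator₀ mS, setIntegral_const, smul_eq_mul]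
    have : C.μ.real S * (F / C.μ.real S) = F := by field_simp
    exact this.le
  have w₂s : ∀ s, supw C g w₂ s ≤ F / b * supa C g s := fun s => by
    have h1 : ∀ o, w₂ o ≤ F / b := fun o => by
      rw [hw₂]
      by_cases ho : o ∈ S
      · rw [indicator_of_mem ho]
        exact div_le_div_of_nonneg_left hF0 hb0 hS
      · rw [indicator_of_notMem ho]
        exact hFb0
    have h2 : ∫ o in {o | s < |g (C.pt o)|}, w₂ o ∂C.μ ≤ ∫ _ in {o | s < |g (C.pt o)|}, F / b ∂C.μ :=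
      integral_mono iw₂.integrableOn (integrable_const _).integrableOn h1
    rw [setIntegral_const, smul_eq_mul] at h2
    have h3 : supa C g s = C.μ.real {o | s < |g (C.pt o)|} := rfl
    have h4 : supw C g w₂ s = ∫ o in {o | s < |g (C.pt o)|}, w₂ o ∂C.μ := rfl
    rw [h3, h4]
    linarith
  have w₂s' : ∀ s, supw C g w₂ s ≤ F := fun s =>
    (setIntegral_le_integral iw₂ (ae_of_all _ w₂0)).trans w₂m
  have key := hardy_comp2 C hγ hR hv.sph hv.deg hI hv.fint hv.fnu (w := fun o => 4 * w o) (w₂ := w₂)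
    (X := X) (K := K) (lam := 1) (ρ := 4 * ρ) (wB := 4 * wB) (m₂ := F) (a₁ := a₁) (D := D) (G := G)
    (gg := gg) (g := g) (R := R) (ε := ε) (δ := 2 * B * ε) (Lam := Lam) hv.fX
    (hv.wint.const_mul 4)
    (by filter_upwards [hv.w0] with o ho; linarith)
    (by filter_upwards [hv.wf] with o ho; linarith)
    (by filter_upwards [wb] with o ho; linarith)
    iw₂ (ae_of_all _ w₂0) w₂m zero_le_one (by linarith [hv.ρ0]) hN.K0 hN.a0 hN.A1 hN.haD hN.hX hN.hG
    hN.hgg hN.hgK hN.hG0 hg og hR0 (ae_of_all _ fun o => gR (C.pt o)) hε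
    (by have : 0 ≤ B := hFb0.trans hFb; positivity) (hL g hg og) hf₁ f₁0 f₁f (hα g hg) (by
      intro t' ht' _ hta
      obtain ⟨n, r, Dn, hq, hp0, hp1⟩ := hcert {o | t' < |g (C.pt o)|} (meas_abs_lt C hg t') hta
      obtain ⟨k, ck, k0, kp, hc, hk⟩ := Dn.cert
      refine ⟨fun a => n a + max 0 (min (F / b * a) F), k, ⟨?_, ?_, ck, k0, kp, ?_, ?_⟩, hp0, ?_⟩
      · intro x y hxy
        exact add_le_add (Dn.mono hxy) (max_le_max le_rfl
          (min_le_min (mul_le_mul_of_nonneg_left hxy hFb0) le_rfl))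
      · intro a ha
        have h1 : min (F / b * a) F ≤ 0 :=
          min_le_of_left_le (mul_nonpos_of_nonneg_of_nonpos hFb0 ha)
        change n a + max 0 (min (F / b * a) F) = 0
        rw [Dn.zero a ha, max_eq_left h1, add_zero]
      · intro s _ hts
        have e1 : supw C g (fun o => 4 * w o + w₂ o) s =
            4 * (∫ o in {o | s < |g (C.pt o)|}, w o ∂C.μ) + supw C g w₂ s := by
          unfold supw
          rw [integral_add (hv.wint.const_mul 4).integrableOn iw₂.integrableOn, integral_const_mul]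
        rw [e1]
        have h1 := hq {o | s < |g (C.pt o)|} (meas_abs_lt C hg s) fun o ho => hts.trans_lt ho
        have h2 := Dn.lip (supa C g s - ε) (supa C g s) (by linarith)
        have h3 : supa C g s = C.μ.real {o | s < |g (C.pt o)|} := rfl
        rw [← h3] at h1
        have h4 : supw C g w₂ s ≤ max 0 (min (F / b * (supa C g s - ε)) F) + F / b * ε := by
          have h5 : 0 ≤ F / b * ε := by positivity
          have h6 := w₂s s
          have h7 := w₂s' s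
          have h8 : min (F / b * (supa C g s - ε)) F ≤ max 0 (min (F / b * (supa C g s - ε)) F) :=
            le_max_right _ _
          rcases min_choice (F / b * (supa C g s - ε)) F with h | h
          · rw [h] at h8 ⊢
            have h9 : F / b * (supa C g s - ε) = F / b * supa C g s - F / b * ε := by ring
            linarith
          · rw [h] at h8 ⊢
            linarith
        have h5 : F / b * ε ≤ B * ε := mul_le_mul_of_nonneg_right hFb hε
        have h6 : B * (supa C g s - (supa C g s - ε)) = B * ε := by ring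
        rw [h6] at h2
        linarith
      · intro a h0 h1
        have h2 : max 0 (min (F / b * a) F) = min (F / b * a) F :=
          max_eq_right (le_min (by positivity) hF0)
        rw [one_mul, h2]
        exact hc a h0 h1
      · have h2 : min (F / b * a₁) F = F := by
          refine min_eq_right ?_
          rw [div_mul_eq_mul_div, le_div_iff₀ hb0]
          exact mul_le_mul_of_nonneg_left hba hF0
        rw [h2] at hk
        have h4 : supw C g (fun o => 4 * w o) t' ≤ n a₁ := by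
          have h5 := hq {o | t' < |g (C.pt o)|} (meas_abs_lt C hg t') le_rfl
          have h6 : n (C.μ.real {o | t' < |g (C.pt o)|}) ≤ n a₁ := Dn.mono hta
          unfold supw
          rw [integral_const_mul]
          linarith
        have h5 : supw C g (fun o => 4 * w o) t' ≤ 4 * ρ * supw C g f t' := by
          have k2 : ∫ o in {o | t' < |g (C.pt o)|}, w o ∂C.μ ≤
              ∫ o in {o | t' < |g (C.pt o)|}, ρ * f o ∂C.μ :=
            setIntegral_mono_ae hv.wint.integrableOn (hv.fint.const_mul ρ).integrableOn hv.wf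
          rw [integral_const_mul] at k2
          unfold supw
          rw [integral_const_mul]
          linarith
        have h6 := le_min h5 h4
        have e4 : supw C g f t' = ∫ o in {o | t' < |g (C.pt o)|}, f o ∂C.μ := rfl
        rw [e4] at h6 ⊢
        have h3 : 1 * (4 * ρ) * (X - ∫ o in {o | t' < |g (C.pt o)|}, f o ∂C.μ) +
            1 * supw C g (fun o => 4 * w o) t' + 1 * F + ∫ u in (0 : ℝ)..a₁, k u ≤
            4 * ρ * (X - ∫ o in {o | t' < |g (C.pt o)|}, f o ∂C.μ) +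
              (min (4 * ρ * ∫ o in {o | t' < |g (C.pt o)|}, f o ∂C.μ) (n a₁) - n a₁) + r := by
          linarith
        exact lt_of_le_of_lt (mul_le_mul_of_nonneg_right h3 hp0.le) hp1)
  have e1 : 1 * ∫ o, g (C.pt o) ^ 2 * (4 * w o + w₂ o) ∂C.μ =
      4 * (∫ o, w o * g (C.pt o) ^ 2 ∂C.μ) + ∫ o, g (C.pt o) ^ 2 * w₂ o ∂C.μ := by
    have i3 : ∀ {u : Om → ℝ}, Integrable u C.μ → Integrable (fun o => g (C.pt o) ^ 2 * u o) C.μ := by
      intro u hu
      refine hu.bdd_mul (c := R ^ 2) ((aem_pt C hg).pow_const 2).aestronglyMeasurable ?_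
      refine ae_of_all _ fun o => ?_
      rw [Real.norm_eq_abs, abs_pow]
      exact pow_le_pow_left₀ (abs_nonneg _) (gR _) 2
    have i5 : Integrable (fun o => w o * g (C.pt o) ^ 2) C.μ :=
      (i3 hv.wint).congr (ae_of_all _ fun o => mul_comm _ _)
    rw [one_mul, ← integral_const_mul, ← integral_add (i5.const_mul 4) (i3 iw₂)]
    refine integral_congr_ae (ae_of_all _ fun o => ?_)
    ring
  have e2 : F * t ^ 2 ≤ ∫ o, g (C.pt o) ^ 2 * w₂ o ∂C.μ := by
    have h1 : ∫ o, S.indicator (fun _ => t ^ 2 * (F / C.μ.real S)) o ∂C.μ ≤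
        ∫ o, g (C.pt o) ^ 2 * w₂ o ∂C.μ := by
      have i3 : Integrable (fun o => g (C.pt o) ^ 2 * w₂ o) C.μ := by
        refine iw₂.bdd_mul (c := R ^ 2) ((aem_pt C hg).pow_const 2).aestronglyMeasurable ?_
        refine ae_of_all _ fun o => ?_
        rw [Real.norm_eq_abs, abs_pow]
        exact pow_le_pow_left₀ (abs_nonneg _) (gR _) 2
      refine integral_mono ((integrable_const _).indicator₀ mS) i3 fun o => ?_
      change S.indicator (fun _ => t ^ 2 * (F / C.μ.real S)) o ≤ g (C.pt o) ^ 2 * w₂ o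
      rw [hw₂]
      by_cases ho : o ∈ S
      · rw [indicator_of_mem ho, indicator_of_mem ho]
        have h2 : t < |g (C.pt o)| := ho
        have h3 : t ^ 2 ≤ g (C.pt o) ^ 2 := by
          rw [← sq_abs (g (C.pt o))]
          exact pow_le_pow_left₀ ht h2.le 2
        exact mul_le_mul_of_nonneg_right h3 (by positivity)
      · rw [indicator_of_notMem ho, indicator_of_notMem ho, mul_zero]
    rw [integral_indicator₀ mS, setIntegral_const, smul_eq_mul] at h1
    have h2 : C.μ.real S * (t ^ 2 * (F / C.μ.real S)) = F * t ^ 2 := by field_simp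
    linarith
  rw [e1] at key
  linarith


/-! ### `Hv` and `HSv` from the conditions on every core set (after helper58) -/

/-- the conditions for every core set `T` -/
def VCore2 (C : Calc M γ) (f f₁ w : Om → ℝ) (Lam : ℝ → ℝ) (B ρ X K a₁ D b F : ℝ) (G : ℝ → ℝ) : Prop :=
  ∀ T, NullMeasurableSet T C.μ → C.μ.real T ≤ a₁ → ∃ (n : ℝ → ℝ) (r : ℝ),
    CoreD Lam a₁ B n b F r ∧
    (∀ S, NullMeasurableSet S C.μ → S ⊆ T → 4 * ∫ o in S, w o ∂C.μ ≤ n (C.μ.real S)) ∧
    0 < G (a₁ - D - ∫ o in T, f₁ o ∂C.μ) + K * (X - ∫ o in T, f o ∂C.μ) ∧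
    (4 * ρ * (X - ∫ o in T, f o ∂C.μ) + (min (4 * ρ * ∫ o in T, f o ∂C.μ) (n a₁) - n a₁) + r) *
      (G (a₁ - D - ∫ o in T, f₁ o ∂C.μ) + K * (X - ∫ o in T, f o ∂C.μ)) < 1

theorem VCore2.drop {C : Calc M γ} {f f₁ w : Om → ℝ} {Lam : ℝ → ℝ} {B ρ X K a₁ D b F : ℝ} {G : ℝ → ℝ}
    (h : VCore2 C f f₁ w Lam B ρ X K a₁ D b F G) (ha : 0 ≤ a₁) {b' : ℝ} (hb' : 0 < b') :
    VCore2 C f f₁ w Lam B ρ X K a₁ D b' 0 G := by
  intro T mT hT
  obtain ⟨n, r, hD, hq, hp0, hp1⟩ := h T mT hT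
  exact ⟨n, r, hD.drop ha hb', hq, hp0, hp1⟩

variable [CompactSpace M]

/-- the inequality without side condition -/
theorem hv_of_core2 (C : Calc M γ) (hγ : Bd γ) (hR : RegAE C) {v : Fin 3 → M → ℝ} {f w : Om → ℝ}
    {X ρ : ℝ} (hv : VDat C v f w X ρ) {κ ε B K a₁ D b F δ : ℝ} {Lam : ℝ → ℝ} (hL : LevO C Lam ε)
    (hI : IsopO C κ ε) (hε : 0 ≤ ε) {G gg : ℝ → ℝ} (hN : VNum X K a₁ D G gg)
    {f₁ : Om → ℝ} (hf₁ : Integrable f₁ C.μ) (f₁0 : ∀ᵐ o ∂C.μ, 0 ≤ f₁ o) (f₁f : ∀ᵐ o ∂C.μ, f₁ o ≤ f o)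
    (hα : ∀ g : M → ℝ, Lip g → ∀ s, 0 ≤ s → a₁ ≤ supa C g s →
      a₁ - D - supw C g f₁ s ≤ supw C g (jac C v) s)
    (hcert : VCore2 C f f₁ w Lam B ρ X K a₁ D b F G) (hδ : 128 * B * ε ≤ δ) : Hv C w δ := by
  intro g hg ho hb
  have := C.fin
  have ha0 := hN.a0
  have hB0 : 0 ≤ B := by
    obtain ⟨n, r, D₀, -, -, -⟩ := hcert ∅ MeasurableSet.empty.nullMeasurableSet
      (by simpa using ha0.le)
    exact (div_nonneg D₀.f0 D₀.b0.le).trans D₀.fb
  rcases eq_or_lt_of_le (measureReal_nonneg (μ := C.μ) (s := {o | 0 < |g (C.pt o)|})) with h0 | h0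
  · -- `g = 0` almost everywhere
    have h1 : ∀ᵐ o ∂C.μ, g (C.pt o) = 0 := by
      have h2 : C.μ {o | 0 < |g (C.pt o)|} = 0 := by
        rw [Measure.real] at h0
        rcases (ENNReal.toReal_eq_zero_iff _).1 h0.symm with h | h
        · exact h
        · exact absurd h (measure_ne_top _ _)
      rw [ae_iff]
      refine measure_mono_null (fun o ho' => ?_) h2
      exact abs_pos.2 ho'
    have h2 : ∫ o, w o * g (C.pt o) ^ 2 ∂C.μ = 0 := by
      rw [← integral_zero Om ℝ (μ := C.μ)]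
      refine integral_congr_ae ?_
      filter_upwards [h1] with o ho'
      rw [ho']
      ring
    rw [h2, mul_zero]
    have h3 : 0 ≤ ∫ o, gn C g o ^ 2 ∂C.μ := integral_nonneg fun o => sq_nonneg _
    have h4 : 0 ≤ 128 * B * ε := by positivity
    linarith
  · set b' := min a₁ (C.μ.real {o | 0 < |g (C.pt o)|}) with hb'
    have hb'0 : 0 < b' := lt_min ha0 h0
    have key := vhw_core2 C hγ hR hv (b := b') (F := 0) hL hI hε hN (min_le_left _ _) hf₁ f₁0 f₁f hα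
      (hcert.drop ha0.le hb'0) (R := 8) (by norm_num) hg ho hb (t := 0) le_rfl (min_le_right _ _)
    have e : 2 * B * ε * (8 : ℝ) ^ 2 = 128 * B * ε := by ring
    rw [e] at key
    linarith

/-- **both inequalities for one admissible pair** -/
theorem hsv_of_core2 (C : Calc M γ) (hγ : Bd γ) (hR : RegAE C) {v : Fin 3 → M → ℝ} {f w : Om → ℝ}
    {X ρ : ℝ} (hv : VDat C v f w X ρ) {κ ε B K a₁ D b F δ c k L σ s : ℝ} {Lam : ℝ → ℝ}
    (hL : LevO C Lam ε)
    (hκ : 0 < κ) (hI : IsopO C κ ε) (hε : 0 ≤ ε) {G gg : ℝ → ℝ} (hN : VNum X K a₁ D G gg)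
    (hba : b ≤ a₁)
    {f₁ : Om → ℝ} (hf₁ : Integrable f₁ C.μ) (f₁0 : ∀ᵐ o ∂C.μ, 0 ≤ f₁ o) (f₁f : ∀ᵐ o ∂C.μ, f₁ o ≤ f o)
    (hα : ∀ g : M → ℝ, Lip g → ∀ s, 0 ≤ s → a₁ ≤ supa C g s →
      a₁ - D - supw C g f₁ s ≤ supw C g (jac C v) s)
    (hcert : VCore2 C f f₁ w Lam B ρ X K a₁ D b F G) (hδ : 128 * B * ε ≤ δ)
    (hs : 0 < s) (hsσ : s < σ) (hc : 0 < c) (hk : 0 ≤ k)
    (hkf : k ≤ 2 * (1 - Real.exp (-c)) * F * s ^ 2)
    (hb : b ≤ κ * ((σ - s) * (1 - Real.exp (-c))) ^ 2 / (4 * L ^ 2)) :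
    Hv C w δ ∧ HSv C w κ k L c δ ε σ := by
  have h1 := hv_of_core2 C hγ hR hv hL hI hε hN hf₁ f₁0 f₁f hα hcert hδ
  refine ⟨h1, HSv_of_f C hs hsσ hc hk hkf hκ.le h1 ?_⟩
  intro g hg ho hgb t ht hm
  have hq : 0 ≤ 1 - Real.exp (-c) := by
    have : Real.exp (-c) < 1 := by
      rw [← Real.exp_zero]
      exact Real.exp_lt_exp.mpr (by linarith)
    linarith
  have key := vhw_core2 C hγ hR hv hL hI hε hN hba hf₁ f₁0 f₁f hα hcert (R := 8) (by norm_num) hg ho hgb
    (t := t) ((mul_nonneg hs.le hq).trans ht) (by linarith)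
  have e : 2 * B * ε * (8 : ℝ) ^ 2 = 128 * B * ε := by ring
  rw [e] at key
  linarith


end Pool.Agent.FPX
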