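import Mathlib
import Pool.Agent.FPX.VTC
import Pool.Agent.FPX.VHD
import Pool.Agent.FPX.VDB

/-
VT2 (helper99): rational tables for two accounts, after `VTC` (helper94): `ω = ∫_T f` (weight and resistance
outside) and `d = ∫_T ac1 ∘ f` (deficit of the Jacobian in the core), `ω / 2 ≤ d ≤ ω`. The cells are
`w₀ ≤ ω ≤ w`, `d₀ ≤ d ≤ d₁`; the certificates of the core use `d₀ ≤ d` with a multiplier `mu ≤ lam`. The
list of vertices `V` is the one of `VTC` (no kink at `2` is needed).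
-/

open MeasureTheory Set Filter Topology
open scoped ENNReal NNReal

noncomputable section

namespace Pool.Agent.FPX.VTB

open Pool.Agent.EWD Pool.Agent.FPM Pool.Agent.FPX

/-- the resistance function decreases -/
theorem _root_.Pool.Agent.FPX.VNum.Ganti {X K a₁ D : ℝ} {G gg : ℝ → ℝ} (h : VNum X K a₁ D G gg)
    {α β : ℝ} (h1 : a₁ - D - X ≤ α) (h2 : α ≤ β) (h3 : β ≤ a₁ - D) : G β ≤ G α := by
  have hpi := Real.pi_pos
  have haD := h.haD
  have hX := h.hX
  have hA1 := h.A1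
  have hK := h.K0
  have hmono : AntitoneOn G (Icc (a₁ - D - X) (a₁ - D)) := by
    refine antitoneOn_of_deriv_nonpos (convex_Icc _ _) ?_ ?_ ?_
    · intro x hx
      exact (h.hG x hx.1 (hx.2.trans haD)).continuousAt.continuousWithinAt
    · intro x hx
      rw [interior_Icc] at hx
      exact (h.hG x hx.1.le (hx.2.le.trans haD)).differentiableAt.differentiableWithinAt
    · intro x hx
      rw [interior_Icc] at hx
      rw [(h.hG x hx.1.le (hx.2.le.trans haD)).deriv]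
      have h4 := h.hgg x hx.1.le (hx.2.le.trans haD)
      have h5 : 0 < 1 / (x * (4 * Real.pi - x)) := by
        have h6 : 0 < x := by linarith [hx.1]
        have h7 : 0 < 4 * Real.pi - x := by linarith [hx.2]
        positivity
      have h6 : 0 ≤ gg x ^ 2 / (2 * K) := by positivity
      linarith
  exact hmono ⟨h1, h2.trans h3⟩ ⟨h1.trans h2, h3⟩ h2

/-- the sum below an affine function at two points of the polygon -/
theorem hgR_line {κ : ℝ} (hκ : 0 < κ) {N l : ℚ} {js : List HJ} (hok : hjOk N l js = true)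
    {α β x₁ x₂ W₁ W₂ W θ : ℝ} (h1 : hgR κ W₁ js ≤ α * x₁ + β) (h2 : hgR κ W₂ js ≤ α * x₂ + β)
    (t0 : 0 ≤ θ) (t1 : θ ≤ 1) (hW : W ≤ (1 - θ) * W₁ + θ * W₂) :
    hgR κ W js ≤ α * ((1 - θ) * x₁ + θ * x₂) + β := by
  have k1 := hgR_conv hκ js hok t0 t1 hW
  have k2 := mul_le_mul_of_nonneg_left h1 (show 0 ≤ 1 - θ by linarith)
  have k3 := mul_le_mul_of_nonneg_left h2 t0
  nlinarith

theorem hgR_mono {κ : ℝ} (hκ : 0 < κ) {N l : ℚ} {js : List HJ} (hok : hjOk N l js = true)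
    {W W' : ℝ} (h : W ≤ W') : hgR κ W js ≤ hgR κ W' js := by
  have := hgR_conv hκ js hok (θ := 0) (p := W') (q := W') le_rfl zero_le_one (W := W) (by linarith)
  linarith

theorem le_foldr_max {α : Type*} (g : α → ℚ) : ∀ (l : List α) (m : ℚ),
    m ≤ l.foldr (fun q m' => max (g q) m') m ∧
      ∀ q ∈ l, g q ≤ l.foldr (fun q m' => max (g q) m') m
  | [], m => by simp
  | a :: l, m => by
    obtain ⟨h1, h2⟩ := le_foldr_max g l m
    rw [List.foldr_cons]
    refine ⟨h1.trans (le_max_right _ _), fun q hq => ?_⟩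
    rcases List.mem_cons.1 hq with rfl | hq
    · exact le_max_left _ _
    · exact (h2 q hq).trans (le_max_right _ _)

theorem ch2_le_w2 {V : List (ℚ × ℚ)} {p q : ℚ × ℚ} (hp : p ∈ V) (hq : q ∈ V) : ch2 p q ≤ w2 V := by
  have key : ∀ (U : List (ℚ × ℚ)), p ∈ U → ch2 p q ≤
      U.foldr (fun p m => V.foldr (fun q m' => max (ch2 p q) m') m) 0 := by
    intro U
    induction U with
    | nil => simp
    | cons a U ih =>
      intro h
      rw [List.foldr_cons]
      rcases List.mem_cons.1 h with rfl | h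
      · exact (le_foldr_max (ch2 p) V _).2 q hq
      · exact (ih h).trans (le_foldr_max (ch2 a) V _).1
  exact key V hp

theorem hgR_below2 {κ lam mu N l : ℚ} (hκ : 0 < κ) (hmu : 0 ≤ mu) (hml : mu ≤ lam) {js : List HJ}
    (hok : hjOk N l js = true) {V : List (ℚ × ℚ)} (hV : hv2 κ lam mu js V = true) {φ W : ℝ}
    (h : Below V φ W) : hgR κ W js ≤ lam * φ - mu * ac1 φ := by
  obtain ⟨p, hp, q, hq, θ, h0, h1, hW, hφ⟩ := h
  have rκ : (0 : ℝ) < κ := by exact_mod_cast hκ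
  have rm : (0 : ℝ) ≤ mu := by exact_mod_cast hmu
  have rl : (mu : ℝ) ≤ lam := by exact_mod_cast hml
  rw [hv2, Bool.and_eq_true, List.all_eq_true] at hV
  obtain ⟨hV, hV2⟩ := hV
  have hV2' : hgQ κ (w2 V) js ≤ 2 * lam - 2 * mu := of_decide_eq_true hV2
  have kv : ∀ p ∈ V, hgR κ p.2 js ≤ lam * p.1 - mu * ac1 p.1 := by
    intro p hp
    have a1 : hgQ κ p.2 js ≤ lam * p.1 - mu * acq p.1 := of_decide_eq_true (hV p hp)
    refine (hgR_le (L := p.2) hκ js hok).trans ?_
    have a2 : ((acq p.1 : ℚ) : ℝ) = ac1 p.1 := by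
      unfold acq ac1
      push_cast
      rfl
    rw [← a2]
    exact_mod_cast a1
  have k2 : hgR κ (w2 V) js ≤ 2 * lam - 2 * mu := by
    refine (hgR_le (L := w2 V) hκ js hok).trans ?_
    exact_mod_cast hV2'
  -- monotonicity in `φ`
  have mono : ∀ x y : ℝ, x ≤ y → lam * x - mu * ac1 x ≤ lam * y - mu * ac1 y := by
    intro x y hxy
    have e1 : ac1 y ≤ ac1 x + (y - x) := by
      unfold ac1
      rcases min_choice x (1 + x / 2) with h | h
      · rw [h]
        exact (min_le_left _ _).trans (by linarith)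
      · rw [h]
        exact (min_le_right _ _).trans (by linarith)
    have e2 := mul_le_mul_of_nonneg_left e1 rm
    have e3 := mul_le_mul_of_nonneg_right rl (show 0 ≤ y - x by linarith)
    nlinarith
  -- the two affine functions
  have lo : ∀ x : ℝ, x ≤ 2 → ac1 x = x := fun x hx => min_eq_left (by linarith)
  have hi : ∀ x : ℝ, 2 ≤ x → ac1 x = 1 + x / 2 := fun x hx => min_eq_right (by linarith)
  have conc1 : ∀ x : ℝ, (lam - mu) * x + 0 ≤ lam * x - mu * ac1 x := by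
    intro x
    have := mul_le_mul_of_nonneg_left (ac1_le x) rm
    linarith
  have conc2 : ∀ x : ℝ, (lam - mu / 2) * x + (-mu) ≤ lam * x - mu * ac1 x := by
    intro x
    have h3 : ac1 x ≤ 1 + x / 2 := min_le_right _ _
    have := mul_le_mul_of_nonneg_left h3 rm
    linarith
  have w2R : ∀ p ∈ V, ∀ q ∈ V, (p.1 : ℝ) ≤ 2 → (2 : ℝ) < q.1 →
      (p.2 : ℝ) + (2 - p.1) / (q.1 - p.1) * (q.2 - p.2) ≤ w2 V := by
    intro p hp q hq h3 h4
    have h3' : p.1 ≤ 2 := by exact_mod_cast h3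
    have h4' : 2 < q.1 := by exact_mod_cast h4
    have h5 := ch2_le_w2 hp hq
    rw [ch2, if_pos ⟨h3', h4'⟩] at h5
    exact_mod_cast h5
  -- the straddling case
  have strad : ∀ p ∈ V, ∀ q ∈ V, (p.1 : ℝ) ≤ 2 → (2 : ℝ) < q.1 → ∀ θ : ℝ, 0 ≤ θ → θ ≤ 1 →
      W ≤ (1 - θ) * p.2 + θ * q.2 →
      hgR κ W js ≤ lam * ((1 - θ) * p.1 + θ * q.1) - mu * ac1 ((1 - θ) * p.1 + θ * q.1) := by
    intro p hp q hq h3 h4 θ h0 h1 hW
    have hd : (0 : ℝ) < q.1 - p.1 := by linarith
    set t : ℝ := (2 - p.1) / (q.1 - p.1) with ht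
    have t0 : 0 ≤ t := div_nonneg (by linarith) hd.le
    have t1 : t < 1 := by
      rw [ht, div_lt_one hd]
      linarith
    have et : t * (q.1 - p.1) = 2 - p.1 := div_mul_cancel₀ _ hd.ne'
    have hw2 := w2R p hp q hq h3 h4
    rw [← ht] at hw2
    set W₂ : ℝ := p.2 + t * (q.2 - p.2) with hW₂
    have kW : hgR κ W₂ js ≤ 2 * lam - 2 * mu := (hgR_mono rκ hok hw2).trans k2
    rcases le_or_gt θ t with hθ | hθ
    · -- between `p` and `2`
      have h5 := kv p hp
      rw [lo _ h3] at h5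
      rcases t0.eq_or_lt with h6 | h6
      · have h7 : θ = 0 := by linarith
        rw [h7] at hW ⊢
        have h8 := hgR_mono rκ hok hW
        have e : (1 - (0 : ℝ)) * p.2 + 0 * q.2 = p.2 := by ring
        have e' : (1 - (0 : ℝ)) * p.1 + 0 * q.1 = p.1 := by ring
        rw [e] at h8
        rw [e']
        have := conc1 p.1
        linarith
      · set s := θ / t with hs
        have s0 : 0 ≤ s := div_nonneg h0 h6.le
        have s1 : s ≤ 1 := by
          rw [hs, div_le_one h6]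
          exact hθ
        have es : s * t = θ := div_mul_cancel₀ _ h6.ne'
        have h8 : W ≤ (1 - s) * p.2 + s * W₂ := by
          refine hW.trans (le_of_eq ?_)
          rw [hW₂]
          linear_combination (p.2 - q.2 : ℝ) * es
        have h9 := hgR_line rκ hok (α := (lam : ℝ) - mu) (β := 0) (x₁ := p.1) (x₂ := 2)
          (by linarith) (by linarith) s0 s1 h8
        refine h9.trans ?_
        have e : (1 - s) * (p.1 : ℝ) + s * 2 = (1 - θ) * p.1 + θ * q.1 := by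
          have : s * (t * (q.1 - p.1)) = s * (2 - p.1) := by rw [et]
          linear_combination (-1 : ℝ) * this + ((q.1 : ℝ) - p.1) * es
        rw [e]
        exact conc1 _
    · -- between `2` and `q`
      have h5 := kv q hq
      rw [hi _ h4.le] at h5
      have h6 : 0 < 1 - t := by linarith
      set s := (θ - t) / (1 - t) with hs
      have s0 : 0 ≤ s := div_nonneg (by linarith) h6.le
      have s1 : s ≤ 1 := by
        rw [hs, div_le_one h6]
        linarith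
      have es : s * (1 - t) = θ - t := div_mul_cancel₀ _ h6.ne'
      have h8 : W ≤ (1 - s) * W₂ + s * q.2 := by
        refine hW.trans (le_of_eq ?_)
        rw [hW₂]
        linear_combination (p.2 - q.2 : ℝ) * es
      have h9 := hgR_line rκ hok (α := (lam : ℝ) - mu / 2) (β := -mu) (x₁ := 2) (x₂ := q.1)
        (by linarith) (by linarith) s0 s1 h8
      refine h9.trans ?_
      have e : (1 - s) * (2 : ℝ) + s * q.1 = (1 - θ) * p.1 + θ * q.1 := by
        have h10 : (2 : ℝ) = p.1 + t * (q.1 - p.1) := by linarith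
        have h11 : (1 - s) * (2 : ℝ) + s * q.1 =
            (1 - s) * (p.1 + t * (q.1 - p.1)) + s * q.1 := by rw [← h10]
        rw [h11]
        linear_combination ((q.1 : ℝ) - p.1) * es
      rw [e]
      exact conc2 _
  have fin : hgR κ W js ≤ lam * ((1 - θ) * p.1 + θ * q.1) - mu * ac1 ((1 - θ) * p.1 + θ * q.1) := by
    have kp := kv p hp
    have kq := kv q hq
    rcases le_or_gt (p.1 : ℝ) 2 with a | a <;> rcases le_or_gt (q.1 : ℝ) 2 with b | b
    · rw [lo _ a] at kp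
      rw [lo _ b] at kq
      refine (hgR_line rκ hok (α := (lam : ℝ) - mu) (β := 0) (by linarith) (by linarith) h0 h1 hW).trans
        (conc1 _)
    · exact strad p hp q hq a b θ h0 h1 hW
    · have := strad q hq p hp b a (1 - θ) (by linarith) (by linarith) (by linarith)
      have e : (1 - (1 - θ)) * (q.1 : ℝ) + (1 - θ) * p.1 = (1 - θ) * p.1 + θ * q.1 := by ring
      rw [e] at this
      exact this
    · rw [hi _ a.le] at kp
      rw [hi _ b.le] at kq
      refine (hgR_line rκ hok (α := (lam : ℝ) - mu / 2) (β := -mu) (by linarith) (by linarith) h0 h1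
        hW).trans (conc2 _)
  exact fin.trans (mono _ _ hφ)

theorem rowsD_ex {p : Par} {V : List (ℚ × ℚ)} {w0 w : ℚ} : ∀ (l : List RowD) {d0 : ℚ},
    rowsD p V w0 w d0 l = true → ∀ d : ℝ, (d0 : ℝ) ≤ d → d ≤ w →
    ∃ (d1 : ℚ) (t : RowD), rowD p V w0 w d1 t = true ∧ (d1 : ℝ) ≤ d ∧ d ≤ t.d
  | [], d0, h, d, h0, h1 => by
    have h2 : w < d0 := of_decide_eq_true h
    have h3 : (w : ℝ) < d0 := by exact_mod_cast h2
    linarith
  | t :: l, d0, h, d, h0, h1 => by
    rw [rowsD, Bool.and_eq_true, Bool.or_eq_true] at h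
    obtain ⟨h2, h3⟩ := h
    rcases le_or_gt d t.d with h4 | h4
    · exact ⟨d0, t, h2, h0, h4⟩
    · rcases h3 with h3 | h3
      · have h5 : w ≤ t.d := of_decide_eq_true h3
        have h6 : (w : ℝ) ≤ t.d := by exact_mod_cast h5
        linarith
      · exact rowsD_ex l h3 d h4.le h1

theorem rowsW_ex {p : Par} {V : List (ℚ × ℚ)} : ∀ (l : List RowW) {w0 : ℚ},
    rowsW p V w0 l = true → ∀ ω : ℝ, (w0 : ℝ) ≤ ω → ω ≤ p.X →
    ∃ (w1 : ℚ) (t : RowW), rowsD p V w1 t.w (w1 / 2) t.ds = true ∧ (w1 : ℝ) ≤ ω ∧ ω ≤ t.w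
  | [], w0, h, ω, h0, h1 => by
    have h2 : p.X < w0 := of_decide_eq_true h
    have h3 : (p.X : ℝ) < w0 := by exact_mod_cast h2
    linarith
  | t :: l, w0, h, ω, h0, h1 => by
    rw [rowsW, Bool.and_eq_true, Bool.or_eq_true] at h
    obtain ⟨h2, h3⟩ := h
    rcases le_or_gt ω t.w with h4 | h4
    · exact ⟨w0, t, h2, h0, h4⟩
    · rcases h3 with h3 | h3
      · have h5 : p.X ≤ t.w := of_decide_eq_true h3
        have h6 : (p.X : ℝ) ≤ t.w := by exact_mod_cast h5
        linarith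
      · exact rowsW_ex l h3 ω h4.le h1

/-- the core certificate from one cell, on a finite measure space -/
theorem rowD_core {Ω : Type*} [MeasurableSpace Ω] {μ : Measure Ω} [IsFiniteMeasure μ] {p : Par}
    {V : List (ℚ × ℚ)} {w0 w d0 : ℚ} {t : RowD} (hp : parOk p = true)
    (h : rowD p V w0 w d0 t = true) {W φo eo : Ω → ℝ}
    (hW : Integrable W μ) (hWN : ∀ᵐ o ∂μ, W o ≤ p.N) (hφ : Integrable φo μ) (he : Integrable eo μ)
    (hX : ∫ o, φo o ∂μ ≤ w) (hd : (d0 : ℝ) ≤ ∫ o, eo o ∂μ)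
    (hB : ∀ᵐ o ∂μ, (W o = 0 ∧ φo o = 0 ∧ eo o = 0) ∨ (Below V (φo o) (W o) ∧ eo o = ac1 (φo o)))
    {B' : ℝ}
    (hNB : (p.N : ℝ) ≤ B') (hfB : (p.F : ℝ) / p.b ≤ B') :
    ∃ n : ℝ → ℝ, HwD (fun a => p.κ * a) (p.a1 * Real.exp t.l) B' n p.b p.F ∧
      ∀ S : Set Ω, ∫ o in S, W o ∂μ ≤ n (μ.real S) := by
  obtain ⟨q1, q2, q3, q4, q5, q6, q7, q8, q9, q10, q11, q12, q13, q14, q15⟩ := of_decide_eq_true hp
  simp only [rowD, Bool.and_eq_true] at h
  obtain ⟨⟨⟨h, g1⟩, g2⟩, -⟩ := h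
  obtain ⟨-, -, -, -, k3, k4, k5, k6m, k6l, k7, -⟩ := of_decide_eq_true h
  have k6 : 0 ≤ t.lam := k6m.trans k6l
  have r1 : (0 : ℝ) < p.κ := by exact_mod_cast q1
  have r2 : (0 : ℝ) < p.a1 := by exact_mod_cast q6
  have r3 : (0 : ℝ) < p.b := by exact_mod_cast q9
  have r4 : (0 : ℝ) ≤ p.F := by exact_mod_cast q11
  have r5 : (0 : ℝ) < p.N := by exact_mod_cast q12
  have r6 : (0 : ℝ) ≤ t.lam := by exact_mod_cast k6
  have r7 : (0 : ℝ) ≤ t.mu := by exact_mod_cast k6m
  have e0 : bj p.a1 t.l t.js t.js.length = p.a1 * Real.exp t.l := by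
    unfold bj
    rw [List.drop_length, hT]
    push_cast
    rw [sub_zero]
  have e1 : bj p.a1 t.l t.js 0 = p.a1 * Real.exp (t.l - hT t.js) := by
    unfold bj
    rw [List.drop_zero]
  have hint : Integrable (fun o => (t.lam : ℝ) * φo o - t.mu * eo o) μ :=
    (hφ.const_mul _).sub (he.const_mul _)
  have hI : ∫ o, ((t.lam : ℝ) * φo o - t.mu * eo o) ∂μ ≤ t.lam * w - t.mu * d0 := by
    rw [integral_sub (hφ.const_mul _) (he.const_mul _), integral_const_mul, integral_const_mul]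
    have k1 := mul_le_mul_of_nonneg_left hX r6
    have k2 := mul_le_mul_of_nonneg_left hd r7
    linarith
  have key := hct_main (μ := μ) (W := W) (φo := fun o => (t.lam : ℝ) * φo o - t.mu * eo o) (N := p.N)
    (X := t.lam * w - t.mu * d0) (κ := p.κ) (lam := 1)
    (b := p.b) (f := p.F) (B' := B') r1 r5.le hW hWN hint hI zero_le_one r3 r4 hNB hfB
    (J := t.js.length)
    (β := bj p.a1 t.l t.js) (x := fun j => ((t.js.getD j hj0).x : ℝ))
    (s := fun j => ((t.js.getD j hj0).s : ℝ)) ?_ ?_ ?_ ?_ ?_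
  · rw [e0] at key
    exact key
  · rw [e1]
    positivity
  · intro j hj
    have h1 := bj_ratio (a1 := p.a1) (l := t.l) r2 t.js hj
    have h2 := (hjOk_get t.js g1 j hj).1
    have h3 : (0 : ℝ) ≤ ((t.js.getD j hj0).d : ℝ) := by exact_mod_cast h2
    rw [← h1] at h3
    have p1 : 0 < bj p.a1 t.l t.js j := by unfold bj; positivity
    have p2 : 0 < bj p.a1 t.l t.js (j + 1) := by unfold bj; positivity
    rw [Real.log_div p2.ne' p1.ne'] at h3
    exact (Real.log_le_log_iff p1 p2).1 (by linarith)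
  · intro j hj
    obtain ⟨-, h2, h3⟩ := hjOk_get t.js g1 j hj
    exact ⟨by exact_mod_cast h2, by exact_mod_cast h3⟩
  · filter_upwards [hB] with o ho
    rw [sum_hgR r2 (W o) t.js, one_mul]
    rcases ho with ⟨h1, h2, h3⟩ | ⟨ho, ho'⟩
    · rw [h1, h2, h3, mul_zero, mul_zero, sub_zero]
      have : ∀ js : List HJ, hjOk p.N t.l js = true → hgR p.κ 0 js = 0 := by
        intro js
        induction js with
        | nil => exact fun _ => rfl
        | cons h js ih =>
          intro hok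
          rw [hjOk, Bool.and_eq_true] at hok
          obtain ⟨h1, h2⟩ := hok
          obtain ⟨a1, a2, a3, a4, a5⟩ := of_decide_eq_true h1
          have b3 : (0 : ℝ) ≤ h.s := by exact_mod_cast a3
          rw [hgR, ih h2, max_eq_right (by linarith)]
          ring
      exact (this t.js g1).le
    · rw [ho']
      exact hgR_below2 q1 k6m k6l g1 g2 ho
  · have h1 := sum_hsR (κ := p.κ) (f := p.F) (l := t.l) r2 t.js
    rw [h1, e1]
    have h2 := hsR_le (f := p.F) (N := p.N) (l := t.l) q1 q6.le q11 t.js g1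
    have h3 : Real.exp ((t.l : ℝ) - hT t.js) ≤ (eU (t.l - hT t.js) : ℝ) := by
      have := le_eU (x := t.l - hT t.js) k5
      push_cast at this
      exact this
    have h4 : ((p.N : ℝ) + p.F / p.b) / p.κ * (p.a1 * Real.exp (t.l - hT t.js)) ≤
        (p.N + p.F / p.b) / p.κ * (p.a1 * (eU (t.l - hT t.js) : ℝ)) :=
      mul_le_mul_of_nonneg_left (mul_le_mul_of_nonneg_left h3 r2.le) (by positivity)
    have h5 : ((p.N : ℝ) + p.F / p.b) / p.κ * (p.a1 * (eU (t.l - hT t.js) : ℝ)) +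
        (hsQ p.κ p.a1 t.l p.F t.js : ℝ) + (t.lam * w - t.mu * d0) < 1 := by exact_mod_cast k7
    linarith

variable {M : Type} [MetricSpace M] {γ : ℝ → M} [CompactSpace M]

omit [CompactSpace M] in
/-- **the certificates for all core sets from one table** -/
theorem vcore2_of_tab (C : Calc M γ) {v : Fin 3 → M → ℝ} {f w : Om → ℝ} {p : Par}
    {V : List (ℚ × ℚ)}
    (hv : VDat C v f w p.X p.ρ) (hwN : ∀ᵐ o ∂C.μ, 4 * w o ≤ p.N)
    (hbel : ∀ᵐ o ∂C.μ, Below V (f o) (4 * w o)) {B : ℝ} (hNB : (p.N : ℝ) ≤ B)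
    (hFB : (p.F : ℝ) / p.b ≤ B) {l : List RowW} (htab : tab2 p V l = true) :
    VCore2 C f (fun o => ac1 (f o)) w (fun a => p.κ * a) B p.ρ p.X p.K p.a1 p.D p.b p.F (imG p.cG) := by
  have := C.fin
  rw [tab2, Bool.and_eq_true] at htab
  obtain ⟨hp, hrows⟩ := htab
  have hN := vnum_of_par hp
  obtain ⟨q1, q2, q3, q4, q5, q6, q7, q8, q9, q10, q11, q12, q13, q14, q15⟩ := of_decide_eq_true hp
  have r1 : (0 : ℝ) < p.κ := by exact_mod_cast q1
  have ra : (0 : ℝ) < p.a1 := by exact_mod_cast q6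
  have r5 : (0 : ℝ) < p.N := by exact_mod_cast q12
  have rρ : (0 : ℝ) ≤ p.ρ := by exact_mod_cast q2
  have rcG : (0 : ℝ) < p.cG := by exact_mod_cast q5
  have rX : (0 : ℝ) < (p.a1 : ℝ) - p.D - p.X := by exact_mod_cast q7
  have r8 : (p.a1 : ℝ) - p.D ≤ 157 / 25 := by
    have : ((157 / 25 : ℚ) : ℝ) = 157 / 25 := by push_cast; ring
    rw [← this]
    exact_mod_cast q8
  have hpi : (3.141592 : ℝ) < Real.pi := Real.pi_gt_d6
  have f0 : ∀ᵐ o ∂C.μ, 0 ≤ f o := by
    filter_upwards [hv.fnu] with o ho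
    exact (nuv_nonneg _ _ _).trans ho
  have hf₁ : Integrable (fun o => ac1 (f o)) C.μ := ac1_int hv.fint f0
  intro T mT hTa
  set ω := ∫ o in T, f o ∂C.μ with hω
  set d := ∫ o in T, ac1 (f o) ∂C.μ with hd
  have h0 : 0 ≤ ω := setIntegral_nonneg_of_ae f0
  have h1 : ω ≤ p.X := (setIntegral_le_integral hv.fint f0).trans hv.fX
  have hdω : d ≤ ω := setIntegral_mono_ae hf₁.integrableOn hv.fint.integrableOn
    (ae_of_all _ fun o => ac1_le _)
  have hcd : ω / 2 ≤ d := by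
    rw [hω, hd, div_eq_inv_mul, ← integral_const_mul]
    refine setIntegral_mono_ae (hv.fint.const_mul _).integrableOn hf₁.integrableOn ?_
    filter_upwards [f0] with o ho
    have := half_le_ac1 ho
    change (2 : ℝ)⁻¹ * f o ≤ ac1 (f o)
    linarith
  have hd0 : 0 ≤ d := le_trans (by linarith) hcd
  obtain ⟨w1, tw, htw, hw1, hw2⟩ := rowsW_ex l hrows ω (by exact_mod_cast h0) h1
  obtain ⟨d1, t, ht, hd1, hd2⟩ := rowsD_ex tw.ds htw d (by
    push_cast
    linarith) (hdω.trans hw2)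
  have ht' := ht
  simp only [rowD, Bool.and_eq_true] at ht'
  obtain ⟨⟨⟨hT1, -⟩, -⟩, gG⟩ := ht'
  obtain ⟨k00, k0, kd0, kdX, k3, k4, k5, k6m, k6l, k7, k8⟩ := of_decide_eq_true hT1
  have rl : (0 : ℝ) < t.l := by exact_mod_cast k3
  have hw0 : (0 : ℝ) ≤ w1 := by exact_mod_cast k00
  have sK : (0 : ℝ) < p.K := by exact_mod_cast q4
  have rdX : (t.d : ℝ) ≤ p.X := by exact_mod_cast kdX
  have rd0 : (0 : ℝ) ≤ t.d := by exact_mod_cast kd0
  -- the core certificate
  obtain ⟨n, hD, hq⟩ := rowD_core (μ := C.μ) hp ht (W := T.indicator fun o => 4 * w o)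
    (φo := T.indicator f) (eo := T.indicator fun o => ac1 (f o)) ((hv.wint.const_mul 4).indicator₀ mT) (by
      filter_upwards [hwN] with o ho
      by_cases h : o ∈ T
      · rw [indicator_of_mem h]
        exact ho
      · rw [indicator_of_notMem h]
        exact r5.le) (hv.fint.indicator₀ mT) (hf₁.indicator₀ mT) (by
      rw [integral_indicator₀ mT]
      exact hw2) (by
      rw [integral_indicator₀ mT]
      exact hd1) (by
      filter_upwards [hbel] with o ho
      by_cases h : o ∈ T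
      · rw [indicator_of_mem h, indicator_of_mem h, indicator_of_mem h]
        exact Or.inr ⟨ho, rfl⟩
      · rw [indicator_of_notMem h, indicator_of_notMem h, indicator_of_notMem h]
        exact Or.inl ⟨rfl, rfl, rfl⟩) hNB hFB
  have hr : (0 : ℝ) < p.κ / t.l := by positivity
  have hV' : (p.a1 : ℝ) * Real.exp (p.κ / (p.κ / t.l)) ≤ p.a1 * Real.exp t.l := by
    rw [div_div_cancel₀ r1.ne']
  have hpos : 0 < imG p.cG (p.a1 - p.D - d) + p.K * (p.X - ω) := by
    have h3 : 0 < imG p.cG (p.a1 - p.D - d) := imG_pos rcG (by linarith) (by linarith)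
    have h4 : 0 ≤ (p.K : ℝ) * (p.X - ω) := mul_nonneg sK.le (by linarith)
    linarith
  refine ⟨n, p.κ / t.l, CoreD.of_hwd r1 ra hr hV' hD, ?_, hpos, ?_⟩
  · intro S mS hST
    refine le_trans (le_of_eq ?_) (hq S)
    rw [← integral_const_mul]
    refine setIntegral_congr_ae₀ mS (ae_of_all _ fun o ho => ?_)
    rw [indicator_of_mem (hST ho)]
  · have h3 : imG p.cG (p.a1 - p.D - d) ≤ imG p.cG (p.a1 - p.D - t.d) :=
      hN.Ganti (by linarith) (by linarith) (by linarith)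
    have h4 : imG p.cG (p.a1 - p.D - t.d) ≤ gUp p.cG (p.a1 - p.D - t.d) t.lG := by
      have := imG_le (c := p.cG) (α := p.a1 - p.D - t.d) q5.le (by linarith) (by linarith) gG
      push_cast at this ⊢
      exact this
    have h4' : (p.K : ℝ) * (p.X - ω) ≤ p.K * (p.X - w1) :=
      mul_le_mul_of_nonneg_left (by linarith) sK.le
    have h5 : imG p.cG (p.a1 - p.D - d) + p.K * (p.X - ω) ≤
        gUp p.cG (p.a1 - p.D - t.d) t.lG + p.K * (p.X - w1) := by linarith
    have h6 : 4 * (p.ρ : ℝ) * (p.X - ω) + (min (4 * p.ρ * ω) (n p.a1) - n p.a1) + p.κ / t.l ≤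
        4 * p.ρ * (p.X - w1) + p.κ / t.l := by
      have h7 := min_le_right (4 * (p.ρ : ℝ) * ω) (n p.a1)
      have h8 : 4 * (p.ρ : ℝ) * (p.X - ω) ≤ 4 * p.ρ * (p.X - w1) :=
        mul_le_mul_of_nonneg_left (by linarith) (by positivity)
      linarith
    have s14 : (0 : ℝ) ≤ 4 * p.ρ * (p.X - w1) + p.κ / t.l := by
      have : (w1 : ℝ) ≤ p.X := by exact_mod_cast k0
      have : 0 ≤ 4 * (p.ρ : ℝ) * (p.X - w1) := mul_nonneg (by positivity) (by linarith)
      linarith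
    have s15 : (4 * (p.ρ : ℝ) * (p.X - w1) + p.κ / t.l) *
        (gUp p.cG (p.a1 - p.D - t.d) t.lG + p.K * (p.X - w1)) < 1 := by exact_mod_cast k8
    exact lt_of_le_of_lt (mul_le_mul_of_nonneg_right h6 hpos.le)
      (lt_of_le_of_lt (mul_le_mul_of_nonneg_left h5 s14) s15)

/-- **both inequalities for one admissible pair, two accounts**: only `hα` and the table differ from
`hsv_of_tabC` -/
theorem hsv_of_tab2 (C : Calc M γ) (hγ : Bd γ) (hR : RegAE C) {v : Fin 3 → M → ℝ} {f w : Om → ℝ}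
    {p : Par} {V : List (ℚ × ℚ)} (hv : VDat C v f w p.X p.ρ) (hwN : ∀ᵐ o ∂C.μ, 4 * w o ≤ p.N)
    (hbel : ∀ᵐ o ∂C.μ, Below V (f o) (4 * w o)) {ε δ : ℝ}
    (hI : IsopO C p.κ ε) (hε : 0 ≤ ε)
    (hα : ∀ g : M → ℝ, Lip g → ∀ s, 0 ≤ s → p.a1 ≤ supa C g s →
      p.a1 - p.D - supw C g (fun o => ac1 (f o)) s ≤ supw C g (jac C v) s)
    {l : List RowW} (htab : tab2 p V l = true) (hδ : 128 * max (p.N : ℝ) (p.F / p.b) * ε ≤ δ)
    {σ s xl xu k se : ℚ} (hcell : cellOk p σ s xl xu k se = true) {Ee : ℝ} (hse : √Ee ≤ se)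
    {c k' : ℝ} (h1 : (xl : ℝ) ≤ Real.exp c)
    (h2 : Real.exp c ≤ xu) (hk : 0 ≤ k') (hk' : k' ≤ k) :
    Hv C w δ ∧ HSv C w p.κ k' (Lc Ee c) c δ ε σ := by
  have htab' := htab
  rw [tab2, Bool.and_eq_true] at htab'
  obtain ⟨hp, -⟩ := htab'
  have hN := vnum_of_par hp
  obtain ⟨q1, -, -, -, -, -, -, -, q9, q10, q11, -, -, -, -⟩ := of_decide_eq_true hp
  obtain ⟨t1, t2, t3, t4, t5, t6, t7⟩ := of_decide_eq_true hcell
  have r1 : (0 : ℝ) < p.κ := by exact_mod_cast q1
  have r10 : (p.b : ℝ) ≤ p.a1 := by exact_mod_cast q10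
  have r9 : (0 : ℝ) < p.b := by exact_mod_cast q9
  have r11 : (0 : ℝ) ≤ p.F := by exact_mod_cast q11
  have u1 : (0 : ℝ) < s := by exact_mod_cast t1
  have u2 : (s : ℝ) < σ := by exact_mod_cast t2
  have u3 : (1 : ℝ) < xl := by exact_mod_cast t3
  have u6 : (k : ℝ) ≤ 2 * (1 - 1 / xl) * p.F * s ^ 2 := by exact_mod_cast t6
  have u7 : (p.b : ℝ) * (8 * (se * xu + 1) ^ 2) ≤ p.κ * ((σ - s) * (1 - 1 / xl)) ^ 2 := by
    exact_mod_cast t7
  have hx1 : 1 < Real.exp c := u3.trans_le h1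
  have hc : 0 < c := by
    rw [← Real.exp_zero] at hx1
    exact Real.exp_lt_exp.1 hx1
  have hq : 1 - 1 / (xl : ℝ) ≤ 1 - Real.exp (-c) := by
    rw [Real.exp_neg, ← one_div]
    have : 1 / Real.exp c ≤ 1 / (xl : ℝ) := one_div_le_one_div_of_le (by linarith) h1
    linarith
  have hq0 : 0 ≤ 1 - 1 / (xl : ℝ) := by
    have : 1 / (xl : ℝ) ≤ 1 := by
      rw [div_le_one (by linarith)]
      exact u3.le
    linarith
  have f0 : ∀ᵐ o ∂C.μ, 0 ≤ f o := by
    filter_upwards [hv.fnu] with o ho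
    exact (nuv_nonneg _ _ _).trans ho
  refine hsv_of_core2 C hγ hR hv (LevO.of_isop hI) r1 hI hε hN r10 (ac1_int hv.fint f0)
    (by
      filter_upwards [f0] with o ho
      exact ac1_nonneg ho) (ae_of_all _ fun o => ac1_le _) hα
    (vcore2_of_tab C hv hwN hbel (le_max_left _ _) (le_max_right _ _) htab) hδ u1 u2 hc hk ?_ ?_
  · refine (hk'.trans u6).trans ?_
    have : 2 * (1 - 1 / (xl : ℝ)) * p.F * s ^ 2 = 2 * p.F * s ^ 2 * (1 - 1 / (xl : ℝ)) := by ring
    rw [this]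
    have : 2 * (1 - Real.exp (-c)) * (p.F : ℝ) * (s : ℝ) ^ 2 =
        2 * p.F * s ^ 2 * (1 - Real.exp (-c)) := by ring
    rw [this]
    exact mul_le_mul_of_nonneg_left hq (by positivity)
  · have hs0 : 0 ≤ √Ee := Real.sqrt_nonneg _
    have hsq : (4 : ℝ) * (Lc Ee c) ^ 2 = 8 * (√Ee * Real.exp c + 1) ^ 2 := by
      unfold Lc
      rw [mul_pow, Real.sq_sqrt (by norm_num)]
      ring
    have hp0 : 0 ≤ √Ee * Real.exp c := by positivity
    rw [hsq, le_div_iff₀ (by positivity)]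
    have h30 : √Ee * Real.exp c ≤ se * xu :=
      mul_le_mul hse h2 (Real.exp_pos c).le (hs0.trans hse)
    have h3 : (√Ee * Real.exp c + 1) ^ 2 ≤ ((se : ℝ) * xu + 1) ^ 2 :=
      pow_le_pow_left₀ (by linarith) (by linarith) 2
    have h4 : (p.b : ℝ) * (8 * (√Ee * Real.exp c + 1) ^ 2) ≤ p.b * (8 * (se * xu + 1) ^ 2) :=
      mul_le_mul_of_nonneg_left (by linarith) r9.le
    have h5 : ((σ - s) * (1 - 1 / (xl : ℝ))) ^ 2 ≤ ((σ - s) * (1 - Real.exp (-c))) ^ 2 :=
      pow_le_pow_left₀ (mul_nonneg (by linarith) hq0) (mul_le_mul_of_nonneg_left hq (by linarith)) 2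
    have h6 := mul_le_mul_of_nonneg_left h5 r1.le
    linarith

/-! ### packed data (as in `VTC`) -/

end Pool.Agent.FPX.VTB
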