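import Mathlib
import Pool.Agent.FPX.CLN
import Pool.Agent.FPX.VT2

/-
CL2 (helper99): the closing theorem of `CLN` (helper58) with two accounts: every cell with image is
certified either by `cellC` (`CLN`) or by `cellC2` (rows of `VT2`).
-/

open MeasureTheory Set Filter Topology
open scoped ENNReal NNReal

noncomputable section

namespace Pool.Agent.FPX

open Pool.Agent.EWD Pool.Agent.FPM VTB

theorem cellC2_ok {κ X σ se B ζ' : ℚ} {lφ : List (ℚ × ℚ)} {q : ℚ × ℚ} {V : List (ℚ × ℚ)}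
    {r : ℚ × ℚ × ℚ × ℚ} {d : CellD2} (hφ : qOk 1 lφ = true) (hV : plOk (0, 0) q V = true)
    (h : cellC2 κ X σ se B ζ' lφ q V r d = true) {Ee c₀ : ℝ} (hse : √Ee ≤ se) (hζ : 0 ≤ ζ')
    (hr : r.2.2.1 ≤ X) {G G' : ℝ → ℝ} {hyp : ℝ → Prop}
    (hhyp : ∀ x, hyp x → x ≤ (ζ' : ℝ) * (X - r.2.2.1)) :
    CellP (pkG 0 1 (clQ lφ)) G G' (fun x => plc (0, 0) q V (pkG 0 1 (clQ lφ) x) / 4) κ Ee c₀ X σ B
      r.1 r.2.1 r.2.2.1 r.2.2.2 hyp := by
  intro M _ _ γ C hγ hR hvol ε δ hε hδ hBε hI εA cm c v hA ha hb hg hk0 hk hhy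
  simp only [cellC2, Bool.and_eq_true] at h
  obtain ⟨⟨h, htab⟩, hcell⟩ := h
  obtain ⟨c1, c2, c3, c4, c5, c6, c7, c8, c9, c10, c11⟩ := of_decide_eq_true h
  have hB : max (d.p.N : ℝ) (d.p.F / d.p.b) ≤ B :=
    max_le (by exact_mod_cast c10) (by exact_mod_cast c11)
  have hpk := qOk_pkOk lφ 1 hφ
  have P := pen_pkG (l := clQ lφ) (by simpa using hpk)
  set φ := pkG 0 1 (clQ lφ) with hφd
  have hφm : ∀ x y, 0 ≤ x → x ≤ y → φ x ≤ φ y := fun x y _ hxy => by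
    have := P.mono x (y - x) (by linarith)
    rwa [add_sub_cancel] at this
  have hφ0 : ∀ x, 0 ≤ x → 0 ≤ φ x := fun x hx => hx.trans (P.ge x hx)
  set W : ℝ → ℝ := fun x => plc (0, 0) q V (φ x) / 4 with hWd
  have hWok : WOk W W := wok_plc P.cont hφm hφ0 hV fun x _ => le_rfl
  have hq1 : (0 : ℝ) < q.1 := by
    have := (plOk_head hV).1
    simpa using this
  have hρ : ∀ x, 0 ≤ x → W x ≤ (d.p.ρ : ℝ) * φ x := by
    intro x hx
    have h1 := plc_le_slope (q := q) (l := V) (φ x)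
    have h2 : (q.2 : ℝ) / q.1 ≤ 4 * d.p.ρ := by
      rw [div_le_iff₀ hq1]
      exact_mod_cast c3
    have h3 := mul_le_mul_of_nonneg_right h2 (hφ0 x hx)
    change plc (0, 0) q V (φ x) / 4 ≤ _
    linarith
  have hp : parOk d.p = true := by
    rw [tab2, Bool.and_eq_true] at htab
    exact htab.1
  obtain ⟨-, qρ, -⟩ := of_decide_eq_true hp
  have hρ0 : (0 : ℝ) ≤ d.p.ρ := by exact_mod_cast qρ
  have hX' : (X : ℝ) - G c ≤ d.p.X := by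
    have : (X : ℝ) - r.2.2.1 ≤ d.p.X := by exact_mod_cast c2
    linarith
  have hv := vdat_of_adm C P hA hX' hWok hρ0 hρ
  -- the bounds of `exp c`
  have e1 : (d.xl : ℝ) ≤ Real.exp c := by
    have k1 : (d.xl : ℝ) ≤ (eL r.1 : ℝ) := by exact_mod_cast c7
    have k2 := eL_le r.1
    have k3 : Real.exp (r.1 : ℝ) ≤ Real.exp c := Real.exp_le_exp.2 ha
    linarith
  have e2 : Real.exp c ≤ d.xu := by
    have k1 : (eU r.2.1 : ℝ) ≤ d.xu := by exact_mod_cast c8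
    have k2 := le_eU (x := r.2.1) c9
    have k3 : Real.exp c ≤ Real.exp (r.2.1 : ℝ) := Real.exp_le_exp.2 hb
    linarith
  have he := Real.exp_pos c
  -- the cut
  have hN : 4 * W (2 * Real.exp c ^ 2) ≤ d.p.N := by
    have k1 : 2 * Real.exp c ^ 2 ≤ 2 * (d.xu : ℝ) ^ 2 := by
      have := pow_le_pow_left₀ he.le e2 2
      linarith
    have k2 := plc_mono V (0, 0) q hV (hφm _ _ (by positivity) k1)
    have k3 : plc (0, 0) q V (φ (2 * (d.xu : ℝ) ^ 2)) ≤ d.p.N := by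
      have k4 := qG_cast 0 1 lφ (2 * d.xu ^ 2)
      have k5 := qpl_cast V (0, 0) q (qG 0 1 lφ (2 * d.xu ^ 2))
      rw [k4] at k5
      push_cast at k5
      rw [hφd, ← k5]
      exact_mod_cast c4
    change 4 * (plc (0, 0) q V (φ (2 * Real.exp c ^ 2)) / 4) ≤ _
    linarith
  have hwN : ∀ᵐ o ∂C.μ, 4 * wK C W v (2 * Real.exp c ^ 2) o ≤ d.p.N := ae_of_all _ fun o => by
    have : wK C W v (2 * Real.exp c ^ 2) o ≤ W (2 * Real.exp c ^ 2) := min_le_right _ _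
    linarith
  have hN0 : (0 : ℚ) ≤ d.p.N := by
    obtain ⟨-, -, -, -, -, -, -, -, -, -, -, q12, -⟩ := of_decide_eq_true hp
    exact q12.le
  have hbel : ∀ᵐ o ∂C.μ, Below (cutV d.p.N (0, 0) q V) (φ (nuC C v o))
      (4 * wK C W v (2 * Real.exp c ^ 2) o) := ae_of_all _ fun o => by
    refine plc_below V (0, 0) q hV hN0 (by simpa using hφ0 (nuC C v o) (nuv_nonneg _ _ _)) ?_ ?_
    · have : wK C W v (2 * Real.exp c ^ 2) o ≤ W (nuC C v o) := min_le_left _ _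
      have e : W (nuC C v o) = plc (0, 0) q V (φ (nuC C v o)) / 4 := rfl
      linarith
    · have : wK C W v (2 * Real.exp c ^ 2) o ≤ W (2 * Real.exp c ^ 2) := min_le_right _ _
      linarith
  -- the deficit
  have hBP := hhyp _ hhy
  have hD0 : (0 : ℝ) ≤ d.p.D := by
    obtain ⟨-, -, -, -, -, -, -, -, -, -, -, -, q13, -⟩ := of_decide_eq_true hp
    exact_mod_cast q13
  have hBv0 : (0 : ℝ) ≤ (ζ' : ℝ) * (X - r.2.2.1) := by
    have k1 : (0 : ℝ) ≤ ζ' := by exact_mod_cast hζ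
    have k2 : (r.2.2.1 : ℝ) ≤ X := by exact_mod_cast hr
    exact mul_nonneg k1 (by linarith)
  have hD : 2 * √((d.p.a1 : ℝ) * ((ζ' : ℝ) * (X - r.2.2.1))) ≤ d.p.D := by
    have k1 : 4 * ((d.p.a1 : ℝ) * ((ζ' : ℝ) * (X - r.2.2.1))) ≤ (d.p.D : ℝ) ^ 2 := by exact_mod_cast c6
    have k2 : √((d.p.a1 : ℝ) * ((ζ' : ℝ) * (X - r.2.2.1))) ≤ d.p.D / 2 := by
      refine Real.sqrt_le_iff.2 ⟨by linarith, ?_⟩
      have e : ((d.p.D : ℝ) / 2) ^ 2 = (d.p.D : ℝ) ^ 2 / 4 := by ring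
      rw [e]
      linarith
    linarith
  have hBa : (ζ' : ℝ) * (X - r.2.2.1) ≤ d.p.a1 := by exact_mod_cast c5
  have hα : ∀ g : M → ℝ, Lip g → ∀ s, 0 ≤ s → (d.p.a1 : ℝ) ≤ supa C g s →
      (d.p.a1 : ℝ) - d.p.D - supw C g (fun o => ac1 (φ (nuC C v o))) s ≤ supw C g (jac C v) s :=
    fun g _ s _ hs => vdp_ac C hA.sph (B := (ζ' : ℝ) * (X - r.2.2.1)) hBP hBa hD hv.fint hv.fnu g s hs
  have hI' : IsopO C d.p.κ ε := by rw [c1]; exact hI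
  have key := hsv_of_tab2 C hγ hR hv hwN hbel hI' hε hα htab (δ := δ) (by
    have := mul_le_mul_of_nonneg_right (mul_le_mul_of_nonneg_left hB (by norm_num : (0 : ℝ) ≤ 128)) hε
    linarith) hcell hse e1 e2 hk0 hk
  rw [c1] at key
  exact key

/-- **`Closing` from a finite rational table**, every cell with image with one or with two accounts -/
theorem closing_of_table2 {κ X σ se c₀ k₀ B R : ℚ} {L lφ : List (ℚ × ℚ)} {m : ℕ} {ζ : ℕ → ℚ}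
    {q : ℕ → ℚ × ℚ} {V : ℕ → List (ℚ × ℚ)} {Ee : ℝ}
    (hφ : qOk 1 lφ = true) (hV : ∀ i, i ≤ m → plOk (0, 0) (q i) (V i) = true)
    (hR : ∀ i, i ≤ m → (q i).2 ≤ 4 * R * (q i).1)
    (hk : 0 ≤ k₀) (hL : qOk k₀ L = true) (hX : X < qVal 0 k₀ L) (hB : 0 < B) (hζ0 : ζ 0 = 0)
    (hζ : ∀ i, i ≤ m → 0 ≤ ζ i) (hse : √Ee ≤ se)
    (hQ : ∀ i, i ≤ m → ∃ Q, PWE (pkD 0 1 (clQ lφ)) (Wq lφ (q i) (V i)) 1
      (fun v a b => PE (enb a b) - ζ i * pkG 0 1 (clQ lφ) (nuv v a b)) Q)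
    (hC : ∀ r ∈ qCells c₀ 0 k₀ L, r.2.2.1 ≤ X →
      (∀ i, i < m → (∃ d : CellD, cellC κ X σ se B (ζ (i + 1)) lφ (q i) (V i) r d = true) ∨
        ∃ d : CellD2, cellC2 κ X σ se B (ζ (i + 1)) lφ (q i) (V i) r d = true) ∧
      ∃ d : CellE, cellE κ X σ se B lφ (q m) (V m) r d = true) :
    Closing (pkG 0 1 (clQ lφ)) (pkD 0 1 (clQ lφ)) (fun x => R * pkG 0 1 (clQ lφ) x)
      (pkG c₀ k₀ (clQ L)) (pkD c₀ k₀ (clQ L)) κ Ee c₀ X σ := by
  have hpk : pkOk 1 (clQ lφ) := by simpa using qOk_pkOk lφ 1 hφ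
  have P := pen_pkG (l := clQ lφ) hpk
  have hφm : ∀ x y, 0 ≤ x → x ≤ y → pkG 0 1 (clQ lφ) x ≤ pkG 0 1 (clQ lφ) y := fun x y _ hxy => by
    have := P.mono x (y - x) (by linarith)
    rwa [add_sub_cancel] at this
  have hφ0 : ∀ x, 0 ≤ x → 0 ≤ pkG 0 1 (clQ lφ) x := fun x hx => hx.trans (P.ge x hx)
  have hζm : ∀ i, i < m → 0 ≤ ζ (i + 1) := fun i hi => hζ (i + 1) (by omega)
  choose! Q hQ' using hQ
  refine closing_of_cells (φ' := pkD 0 1 (clQ lφ)) (B := B) (L := clQ L) (n := m)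
    (ζ := fun i => (ζ i : ℝ)) (W := fun i => Wq lφ (q i) (V i)) (Q := Q) (by exact_mod_cast hk)
    (qOk_pkOk L k₀ hL) ?_ (by exact_mod_cast hB) P.cont hφ0 (by rw [hζ0]; simp)
    (fun i hi => by exact_mod_cast hζ i hi) (fun i hi => ?_) (fun i hi => hQ' i hi) ?_
  · have h1 : ((X : ℚ) : ℝ) < ((qVal 0 k₀ L : ℚ) : ℝ) := by exact_mod_cast hX
    rw [qVal_cast] at h1
    simpa using h1
  · refine wok_plc P.cont hφm hφ0 (hV i hi) fun x hx => ?_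
    have h1 := plc_le_slope (q := q i) (l := V i) (pkG 0 1 (clQ lφ) x)
    have hq1 : (0 : ℝ) < (q i).1 := by
      have := (plOk_head (hV i hi)).1
      simpa using this
    have h2 : ((q i).2 : ℝ) / (q i).1 ≤ 4 * R := by
      rw [div_le_iff₀ hq1]
      exact_mod_cast hR i hi
    have h3 := mul_le_mul_of_nonneg_right h2 (hφ0 x hx)
    linarith
  · intro s hs hsX i hi
    obtain ⟨r, hr, e⟩ := qCells_cast L c₀ 0 k₀ s (by simpa using hs)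
    subst e
    have hrX : r.2.2.1 ≤ X := by
      have h : ((r.2.2.1 : ℚ) : ℝ) ≤ X := hsX
      exact_mod_cast h
    obtain ⟨h1, h2⟩ := hC r hr hrX
    rcases hi.lt_or_eq with him | him
    · rcases h1 i him with ⟨d, hd⟩ | ⟨d, hd⟩
      · exact cellC_ok hφ (hV i hi) hd hse (hζm i him) hrX fun x hx => hx him
      · exact cellC2_ok hφ (hV i hi) hd hse (hζm i him) hrX fun x hx => hx him
    · subst him
      obtain ⟨d, hd⟩ := h2
      exact cellE_ok hφ (hV i hi) hd hse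

/-- **The sharp closing statement from the table and the start map**, one or two accounts. -/
theorem close_of_table2 {κ X σ se c₀ k₀ B R ms xm : ℚ} {L lφ : List (ℚ × ℚ)} {m : ℕ} {ζ : ℕ → ℚ}
    {q : ℕ → ℚ × ℚ} {V : ℕ → List (ℚ × ℚ)} {Ee κ' Xs : ℝ} (hE : 1 ≤ Ee)
    (hφ : qOk 1 lφ = true) (hV : ∀ i, i ≤ m → plOk (0, 0) (q i) (V i) = true)
    (hR : ∀ i, i ≤ m → (q i).2 ≤ 4 * R * (q i).1) (hR0 : 0 ≤ R)
    (hk : 0 ≤ k₀) (hL : qOk k₀ L = true) (hX : X < qVal 0 k₀ L) (hB : 0 < B) (hζ0 : ζ 0 = 0)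
    (hζ : ∀ i, i ≤ m → 0 ≤ ζ i) (hse : √Ee ≤ se)
    (hQ : ∀ i, i ≤ m → ∃ Q, PWE (pkD 0 1 (clQ lφ)) (Wq lφ (q i) (V i)) 1
      (fun v a b => PE (enb a b) - ζ i * pkG 0 1 (clQ lφ) (nuv v a b)) Q)
    (hC : ∀ r ∈ qCells c₀ 0 k₀ L, r.2.2.1 ≤ X →
      (∀ i, i < m → (∃ d : CellD, cellC κ X σ se B (ζ (i + 1)) lφ (q i) (V i) r d = true) ∨
        ∃ d : CellD2, cellC2 κ X σ se B (ζ (i + 1)) lφ (q i) (V i) r d = true) ∧
      ∃ d : CellE, cellE κ X σ se B lφ (q m) (V m) r d = true)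
    (hκ : 0 < κ) (hκ' : κ ≤ κ') (hc₀ : 0 < c₀) (hσ0 : 0 < σ) (hσ : σ < 1) (hX0 : 0 < X)
    (hX2 : X ≤ 6)
    (hIso : ∀ (M : Type) [MetricSpace M] [CompactSpace M] (γ : ℝ → M) (C : Calc M γ) (ε : ℝ), 0 < ε →
      NearM C ε → C.vol < 2 * Real.pi → IsopO C κ' ε)
    (hms : 0 < ms) (hc15 : c₀ ≤ 15) (hxm : 2 * eU c₀ ^ 2 ≤ xm) (hm : qG 0 1 lφ xm ≤ ms * xm)
    (hS : StartE Ee Xs c₀) (hXs : ms * Xs < X) :
    ∀ δ : ℝ, 0 < δ → Close (2 * Real.pi - δ) := by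
  have hpk : pkOk 1 (clQ lφ) := by simpa using qOk_pkOk lφ 1 hφ
  have P := pen_pkG (l := clQ lφ) hpk
  have hφm : ∀ x y, 0 ≤ x → x ≤ y → pkG 0 1 (clQ lφ) x ≤ pkG 0 1 (clQ lφ) y := fun x y _ hxy => by
    have := P.mono x (y - x) (by linarith)
    rwa [add_sub_cancel] at this
  have hφ0 : ∀ x, 0 ≤ x → 0 ≤ pkG 0 1 (clQ lφ) x := fun x hx => hx.trans (P.ge x hx)
  have rR : (0 : ℝ) ≤ R := by exact_mod_cast hR0
  have rκ : (0 : ℝ) < κ := by exact_mod_cast hκ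
  have hCl := closing_of_table2 (Ee := Ee) hφ hV hR hk hL hX hB hζ0 hζ hse hQ hC
  have hpi := Real.pi_gt_three
  have hX2' : (X : ℝ) ≤ 6 := by exact_mod_cast hX2
  refine close_of_closing (m := 1) hE P (fun x hx => mul_nonneg rR (hφ0 x hx))
    (fun x y hx hxy => mul_le_mul_of_nonneg_left (hφm x y hx hxy) rR)
    (pk_cost (by exact_mod_cast hk) (qOk_pkOk L k₀ hL)) rκ one_pos (by exact_mod_cast hc₀)
    (by exact_mod_cast hσ0) (by exact_mod_cast hσ) (by exact_mod_cast hX0) (by linarith)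
    (fun M _ _ γ C ε hε hN hv => by
      rw [one_mul]
      exact isopO_le_kappa (hIso M γ C ε hε hN hv) rκ.le hκ')
    (hS.ph P.cont (by exact_mod_cast hms) fun x h0 h1 => pkG_le_of hφ hc15 hxm hm h0 h1) hXs hCl

end Pool.Agent.FPX
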