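import Mathlib
import Pool.Agent.FPX.CLN
import Pool.Agent.FPM.I58LV

/-
CLF (helper58): the closing from the rational table with the isoperimetric constant `10000 π / 5439`
(ISO58) and a start map for the penalty `φ` (`StartPh`) or for `ν` (`StartE`).
-/

open MeasureTheory Set Filter Topology
open scoped ENNReal NNReal

noncomputable section

namespace Pool.Agent.FPX

open Pool.Agent.EWD Pool.Agent.FPM VTB

/-- **The sharp closing statement from the table (ISO58) and a start map for `φ`.** The list `P` contains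
the polygons of `4 W_i`, the list `ζ` the parameters; the last index has no image. -/
theorem close58 {κ X σ se c₀ k₀ B R : ℚ} {L lφ : List (ℚ × ℚ)} {ζ : List ℚ}
    {P : List ((ℚ × ℚ) × List (ℚ × ℚ))} {Ee Xs : ℝ} (hE : 1 ≤ Ee) (hse : √Ee ≤ se)
    (hd : hdOk κ X σ se c₀ k₀ B R L lφ ζ P = true)
    (hQ : ∀ i, i < P.length → ∃ Q, PWE (pkD 0 1 (clQ lφ)) (Wq lφ (Pi' P i).1 (Pi' P i).2) 1
      (fun v a b => PE (enb a b) - (ζ.getD i 0 : ℚ) * pkG 0 1 (clQ lφ) (nuv v a b)) Q)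
    (hC : ∀ r ∈ qCells c₀ 0 k₀ L, r.2.2.1 ≤ X →
      (∀ i, i + 1 < P.length → ∃ d : CellD,
        cellC κ X σ se B (ζ.getD (i + 1) 0) lφ (Pi' P i).1 (Pi' P i).2 r d = true) ∧
      ∃ d : CellE, cellE κ X σ se B lφ (Pi' P (P.length - 1)).1 (Pi' P (P.length - 1)).2 r d = true)
    (hS : StartPh (pkG 0 1 (clQ lφ)) Ee Xs c₀) (hXs : Xs < X) :
    ∀ δ : ℝ, 0 < δ → Close (2 * Real.pi - δ) := by
  simp only [hdOk, Bool.and_eq_true] at hd
  obtain ⟨⟨⟨⟨h0, h1⟩, h2⟩, h3⟩, h4⟩ := hd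
  obtain ⟨d1, d2, d3, d4, d5, d6, d7, d8, d9, d10, d11, d12, d13, d14⟩ := of_decide_eq_true h0
  have hPl : 0 < P.length := List.length_pos_iff.2 d14
  rw [List.all_eq_true] at h3 h4
  have hζ : ∀ i, 0 ≤ ζ.getD i 0 := fun i => by
    rcases lt_or_ge i ζ.length with hi | hi
    · have e : ζ.getD i 0 = ζ[i] := by simp [hi]
      rw [e]
      exact of_decide_eq_true (h3 _ (List.getElem_mem hi))
    · have e : ζ.getD i 0 = 0 := by simp [hi]
      rw [e]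
  have hPi : ∀ i, i ≤ P.length - 1 → plOk (0, 0) (Pi' P i).1 (Pi' P i).2 = true ∧
      (Pi' P i).1.2 ≤ 4 * R * (Pi' P i).1.1 := fun i hi => by
    have hi' : i < P.length := by omega
    have e : Pi' P i = P[i] := by
      unfold Pi'
      simp [hi']
    have h5 := h4 _ (List.getElem_mem hi')
    rw [Bool.and_eq_true] at h5
    rw [e]
    exact ⟨h5.1, of_decide_eq_true h5.2⟩
  have hpk : pkOk 1 (clQ lφ) := by simpa using qOk_pkOk lφ 1 h1
  have Pn := pen_pkG (l := clQ lφ) hpk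
  have hφm : ∀ x y, 0 ≤ x → x ≤ y → pkG 0 1 (clQ lφ) x ≤ pkG 0 1 (clQ lφ) y := fun x y _ hxy => by
    have := Pn.mono x (y - x) (by linarith)
    rwa [add_sub_cancel] at this
  have hφ0 : ∀ x, 0 ≤ x → 0 ≤ pkG 0 1 (clQ lφ) x := fun x hx => hx.trans (Pn.ge x hx)
  have rR : (0 : ℝ) ≤ R := by exact_mod_cast d10
  have rκ : (0 : ℝ) < κ := by exact_mod_cast d1
  have hCl := closing_of_table (Ee := Ee) (m := P.length - 1) (ζ := fun i => ζ.getD i 0)
    (q := fun i => (Pi' P i).1) (V := fun i => (Pi' P i).2) h1 (fun i hi => (hPi i hi).1)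
    (fun i hi => (hPi i hi).2) d8 h2 d12 d9 d13 (fun i _ => hζ i) hse (fun i hi => hQ i (by omega))
    (fun r hr hrX => ⟨fun i hi => (hC r hr hrX).1 i (by omega), (hC r hr hrX).2⟩)
  have hpi := Real.pi_gt_d6
  have hX2' : (X : ℝ) ≤ 6 := by exact_mod_cast d4
  have hκ' : (κ : ℝ) ≤ 10000 / 5439 * Real.pi := by
    have h5 : (κ : ℝ) ≤ ((5.776 : ℚ) : ℝ) := by exact_mod_cast d2
    have h6 : ((5.776 : ℚ) : ℝ) = 5.776 := by norm_num
    rw [h6] at h5
    linarith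
  refine close_of_closing (m := 1) hE Pn (fun x hx => mul_nonneg rR (hφ0 x hx))
    (fun x y hx hxy => mul_le_mul_of_nonneg_left (hφm x y hx hxy) rR)
    (pk_cost (by exact_mod_cast d8) (qOk_pkOk L k₀ h2)) rκ one_pos (by exact_mod_cast d7)
    (by exact_mod_cast d5) (by exact_mod_cast d6) (by exact_mod_cast d3) (by linarith)
    (fun M _ _ γ C ε hε hN hv => by
      rw [one_mul]
      exact isopO_le_kappa (isopO58 hN.bd hN.regpl hN.colb hε.le hN.nm (by linarith)) rκ.le hκ')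
    hS hXs hCl

/-- the same with a start map for `ν` -/
theorem close58_E {κ X σ se c₀ k₀ B R ms xm : ℚ} {L lφ : List (ℚ × ℚ)} {ζ : List ℚ}
    {P : List ((ℚ × ℚ) × List (ℚ × ℚ))} {Ee Xs : ℝ} (hE : 1 ≤ Ee) (hse : √Ee ≤ se)
    (hd : hdOk κ X σ se c₀ k₀ B R L lφ ζ P = true)
    (hQ : ∀ i, i < P.length → ∃ Q, PWE (pkD 0 1 (clQ lφ)) (Wq lφ (Pi' P i).1 (Pi' P i).2) 1
      (fun v a b => PE (enb a b) - (ζ.getD i 0 : ℚ) * pkG 0 1 (clQ lφ) (nuv v a b)) Q)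
    (hC : ∀ r ∈ qCells c₀ 0 k₀ L, r.2.2.1 ≤ X →
      (∀ i, i + 1 < P.length → ∃ d : CellD,
        cellC κ X σ se B (ζ.getD (i + 1) 0) lφ (Pi' P i).1 (Pi' P i).2 r d = true) ∧
      ∃ d : CellE, cellE κ X σ se B lφ (Pi' P (P.length - 1)).1 (Pi' P (P.length - 1)).2 r d = true)
    (hms : 0 < ms) (hc15 : c₀ ≤ 15) (hxm : 2 * eU c₀ ^ 2 ≤ xm) (hm : qG 0 1 lφ xm ≤ ms * xm)
    (hS : StartE Ee Xs c₀) (hXs : ms * Xs < X) :
    ∀ δ : ℝ, 0 < δ → Close (2 * Real.pi - δ) := by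
  have hφ : qOk 1 lφ = true := by
    simp only [hdOk, Bool.and_eq_true] at hd
    exact hd.1.1.1.2
  have hpk : pkOk 1 (clQ lφ) := by simpa using qOk_pkOk lφ 1 hφ
  have Pn := pen_pkG (l := clQ lφ) hpk
  exact close58 hE hse hd hQ hC
    (hS.ph Pn.cont (by exact_mod_cast hms) fun x h0 h1 => pkG_le_of hφ hc15 hxm hm h0 h1) hXs

end Pool.Agent.FPX
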