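import Mathlib
import Pool.Agent.FPX.VHT

/-
VCE (helper91): the tables of VHT for a whole cell of the parameter `c`: only `q ≤ 1 - e^{-c}` and
`e^c ≤ E` are used.
-/

open MeasureTheory Set Filter Topology
open scoped ENNReal NNReal

noncomputable section

namespace Pool.Agent.FPX

open Pool.Agent.EWD Pool.Agent.FPM

/-- a dual certificate for a larger bound of `ν` -/
theorem HCell.mono_nu {κ N V Y b F B ν₁ ν₁' lam : ℝ} {φ W : ℝ → ℝ} {J : ℕ} {β x s : ℕ → ℝ}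
    (h : HCell κ N V Y b F B ν₁' φ W J β x s lam) (hW : W ν₁ ≤ W ν₁') :
    HCell κ N V Y b F B ν₁ φ W J β x s lam := by
  refine ⟨h.κ0, h.N0, h.b0, h.F0, h.NB, h.FB, h.lam0, h.β0, h.βm, h.βV, h.s0, fun ν hν => ?_, h.num⟩
  refine le_trans (Finset.sum_le_sum fun j hj => ?_) (h.pt ν hν)
  have hβ : ∀ j ≤ J, 0 < β j := by
    intro j
    induction j with
    | zero => exact fun _ => h.β0
    | succ j ih => exact fun hj => (ih (by omega)).trans_le (h.βm j (by omega))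
  have hj' := Finset.mem_range.1 hj
  have h1 : 0 ≤ Real.log (β (j + 1) / β j) := by
    refine Real.log_nonneg ?_
    rw [le_div_iff₀ (hβ j hj'.le)]
    linarith [h.βm j hj']
  have h2 : 0 ≤ Real.exp (-x j) / κ * Real.log (β (j + 1) / β j) := by
    have := h.κ0
    positivity
  refine mul_le_mul_of_nonneg_left (max_le_max ?_ le_rfl) h2
  have h3 : min (W ν) (W ν₁) ≤ min (W ν) (W ν₁') := min_le_min le_rfl hW
  linarith

/-- the side condition on a cell; `se ^ 2` bounds the energy factor of the class -/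
structure VSideE (κ b F q E k σ s se : ℝ) : Prop where
  κ0 : 0 ≤ κ
  q0 : 0 ≤ q
  E0 : 0 ≤ E
  hb : b * (8 * (se * E + 1) ^ 2) ≤ κ * ((σ - s) * q) ^ 2
  hs : 0 < s
  hsσ : s < σ
  F0 : 0 ≤ F
  hkF : k ≤ 2 * q * F * s ^ 2

theorem VSideE.hb' {κ b F q E k σ s se Ee c : ℝ} (h : VSideE κ b F q E k σ s se) (hse : √Ee ≤ se)
    (hq : q ≤ 1 - Real.exp (-c)) (hE : Real.exp c ≤ E) (hb0 : 0 ≤ b) :
    b ≤ κ * ((σ - s) * (1 - Real.exp (-c))) ^ 2 / (4 * (Lc Ee c) ^ 2) := by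
  have he := Real.exp_pos c
  have hs0 : 0 ≤ √Ee := Real.sqrt_nonneg _
  have h2 : (Lc Ee c) ^ 2 = 2 * (√Ee * Real.exp c + 1) ^ 2 := by
    unfold Lc
    rw [mul_pow, Real.sq_sqrt (by norm_num)]
  have hp0 : 0 ≤ √Ee * Real.exp c := by positivity
  rw [h2, le_div_iff₀ (by positivity)]
  have h30 : √Ee * Real.exp c ≤ se * E := mul_le_mul hse hE he.le (hs0.trans hse)
  have h3 : (√Ee * Real.exp c + 1) ^ 2 ≤ (se * E + 1) ^ 2 :=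
    pow_le_pow_left₀ (by positivity) (by linarith) 2
  have h4 : b * (4 * (2 * (√Ee * Real.exp c + 1) ^ 2)) ≤ b * (8 * (se * E + 1) ^ 2) := by
    have := mul_le_mul_of_nonneg_left h3 hb0
    nlinarith
  have hs := h.hsσ
  have h5 : (σ - s) * q ≤ (σ - s) * (1 - Real.exp (-c)) :=
    mul_le_mul_of_nonneg_left hq (by linarith)
  have h6 : 0 ≤ (σ - s) * q := mul_nonneg (by linarith) h.q0
  have h7 : ((σ - s) * q) ^ 2 ≤ ((σ - s) * (1 - Real.exp (-c))) ^ 2 := pow_le_pow_left₀ h6 h5 2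
  have h8 := mul_le_mul_of_nonneg_left h7 h.κ0
  linarith [h.hb]

theorem VSideE.hkF' {κ b F q E k σ s se c k' : ℝ} (h : VSideE κ b F q E k σ s se)
    (hq : q ≤ 1 - Real.exp (-c)) (hk : k' ≤ k) : k' ≤ 2 * (1 - Real.exp (-c)) * F * s ^ 2 := by
  refine (hk.trans h.hkF).trans ?_
  have hF := h.F0
  have h1 : 0 ≤ 2 * F * s ^ 2 := by positivity
  have h2 := mul_le_mul_of_nonneg_left hq h1
  linarith

theorem VSideE.side {κ b F q E k σ s se Ee c k' : ℝ} (h : VSideE κ b F q E k σ s se)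
    (hse : √Ee ≤ se) (hc : 0 < c) (hq : q ≤ 1 - Real.exp (-c)) (hE : Real.exp c ≤ E) (hb0 : 0 ≤ b) (hk0 : 0 ≤ k') (hk : k' ≤ k) :
    VSide κ b F c k' σ s Ee :=
  ⟨h.hb' hse hq hE hb0, h.hs, h.hsσ, hc, hk0, h.hkF' hq hk⟩

/-- the table of one `ζ` on a cell, image of `v` outside -/
structure VTabE (κ N B ρ X Bv a₁ D b F cG q E k σ s se : ℝ) (φ W : ℝ → ℝ) (p : ℕ → ℝ) (n : ℕ) :
    Prop where
  κ0 : 0 < κ
  cG0 : 0 < cG
  ρ0 : 0 ≤ ρ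
  Bv0 : 0 ≤ Bv
  Ba : Bv ≤ a₁
  hD : 4 * (a₁ * Bv) ≤ D ^ 2
  D0 : 0 ≤ D
  hA : 0 < a₁ - D - X
  ha : a₁ - D < 2 * Real.pi
  hch : cG * imh0 (a₁ - D - X) ≤ 1
  Wρ : ∀ x, 0 ≤ x → W x ≤ ρ * φ x
  hN : 4 * W (2 * E ^ 2) ≤ N
  hba : b ≤ a₁
  side : VSideE κ b F q E k σ s se
  n0 : 0 < n
  p0 : p 0 = 0
  pn : X ≤ p n
  pp : ∀ i, 0 ≤ p i
  cell : ∀ i < n, p i ≤ X → ∃ (r lam : ℝ) (J : ℕ) (β x s : ℕ → ℝ), 0 < r ∧
    HCell κ N (a₁ * Real.exp (κ / r)) (p (i + 1)) b F B (2 * E ^ 2) φ W J β x s lam ∧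
    (4 * ρ * (X - p i) + r) *
      (imG cG (a₁ - D - p i) + imK cG (a₁ - D - X) * (X - p i)) < 1

theorem VTabE.tab {κ N B ρ X Bv a₁ D b F cG q E k σ s se Ee c k' : ℝ} {φ W : ℝ → ℝ} {p : ℕ → ℝ}
    {n : ℕ} (h : VTabE κ N B ρ X Bv a₁ D b F cG q E k σ s se φ W p n) (hse : √Ee ≤ se)
    (hW : ∀ x y, 0 ≤ x → x ≤ y → W x ≤ W y) (hc : 0 < c)
    (hq : q ≤ 1 - Real.exp (-c)) (hE : Real.exp c ≤ E) (hX : 0 ≤ X) (hk0 : 0 ≤ k') (hk : k' ≤ k) :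
    VTab κ N B ρ X Bv a₁ D b F cG c k' σ s Ee φ W p n := by
  have he := Real.exp_pos c
  have h1 : 2 * Real.exp c ^ 2 ≤ 2 * E ^ 2 := by
    have := pow_le_pow_left₀ he.le hE 2
    linarith
  have h2 : W (2 * Real.exp c ^ 2) ≤ W (2 * E ^ 2) := hW _ _ (by positivity) h1
  have hb0 : 0 ≤ b := by
    obtain ⟨r, lam, J, β, x, t, -, hcell, -⟩ := h.cell 0 h.n0 (by rw [h.p0]; exact hX)
    exact hcell.b0.le
  refine ⟨h.κ0, h.cG0, h.ρ0, h.Bv0, h.Ba, ?_, h.hA, h.ha, h.hch, h.Wρ, by linarith [h.hN], h.hba,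
    h.side.hb' hse hq hE hb0, h.side.hs, h.side.hsσ, hc, hk0, h.side.hkF' hq hk, h.n0, h.p0, h.pn, h.pp,
    fun i hi hpi => ?_⟩
  · have h3 : a₁ * Bv ≤ (D / 2) ^ 2 := by
      have := h.hD
      nlinarith
    have h4 := Real.sqrt_le_sqrt h3
    rw [Real.sqrt_sq (by linarith [h.D0])] at h4
    linarith
  · obtain ⟨r, lam, J, β, x, t, hr, hcell, hp⟩ := h.cell i hi hpi
    exact ⟨r, lam, J, β, x, t, hr, hcell.mono_nu h2, hp⟩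

variable {M : Type} [MetricSpace M] {γ : ℝ → M}

/-- **`Good` on a cell `[A, A']` of `c` from finite tables.** -/
theorem good_of_cell [CompactSpace M] (C : Calc M γ) (hγ : Bd γ) (hR : RegAE C)
    {φ φ' G Wm : ℝ → ℝ} {sφ Lφ Ee c₀ X₀ εA cm c : ℝ} {v : Fin 3 → M → ℝ} (P : Pen φ φ' sφ Lφ)
    (hA : AdmK C φ G Ee c₀ X₀ εA cm c v) {κ ε B X δ k kc σ V A A' g q E se : ℝ} (hse : √Ee ≤ se)
    (h0 : 0 < A)
    (hcA : A ≤ c) (hcA' : c ≤ A') (hg : g ≤ G c) (hX : X₀ - g ≤ X) (hq : q ≤ 1 - Real.exp (-A))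
    (hE : Real.exp A' ≤ E) (hk0 : 0 ≤ kc) (hk : kc ≤ k)
    (hI : IsopO C κ ε) (hε : 0 ≤ ε) (hV : C.vol ≤ V) (hδ : 128 * B * ε ≤ δ) {m : ℕ} {ζ : ℕ → ℝ}
    (ζ0 : ζ 0 = 0) (hζ : ∀ i, i ≤ m → 0 ≤ ζ i) {W : ℕ → ℝ → ℝ}
    {Q : ℕ → E3 → E3 → E3 → E3 → E3 → ℝ} (hW : ∀ i, i ≤ m → WOk (W i) Wm)
    (hQ : ∀ i, i ≤ m → PWE φ' (W i) 1 (fun v a b => PE (enb a b) - ζ i * φ (nuv v a b)) (Q i))
    (hT : ∀ i, i < m → ∃ (N ρ a₁ D b F cG s : ℝ) (p : ℕ → ℝ) (n : ℕ),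
      VTabE κ N B ρ X (ζ (i + 1) * X) a₁ D b F cG q E k σ s se φ (W i) p n)
    (hPl : ∃ (N b F s lam : ℝ) (J : ℕ) (β x t : ℕ → ℝ), 4 * W m (2 * E ^ 2) ≤ N ∧
      VSideE κ b F q E k σ s se ∧ HCell κ N V X b F B (2 * E ^ 2) φ (W m) J β x t lam) :
    Good C φ' Wm κ kc Ee c δ ε σ v := by
  have hc : 0 < c := h0.trans_le hcA
  have hq' : q ≤ 1 - Real.exp (-c) := by
    have : Real.exp (-c) ≤ Real.exp (-A) := Real.exp_le_exp.2 (by linarith)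
    linarith
  have hE' : Real.exp c ≤ E := (Real.exp_le_exp.2 hcA').trans hE
  have hX' : X₀ - G c ≤ X := by linarith
  have hX0 : 0 ≤ X := by
    have h1 : 0 ≤ Ph C φ v := integral_nonneg fun o =>
      (nuv_nonneg _ _ _).trans (P.ge _ (nuv_nonneg _ _ _))
    linarith [hA.tot]
  have he := Real.exp_pos c
  have h1 : 2 * Real.exp c ^ 2 ≤ 2 * E ^ 2 := by
    have := pow_le_pow_left₀ he.le hE' 2
    linarith
  refine good_of_tabs C hγ hR P hA hX' hI hε hV hδ ζ0 hζ hW hQ (fun i hi => ?_) ?_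
  · obtain ⟨N, ρ, a₁, D, b, F, cG, s, p, n, T⟩ := hT i hi
    exact ⟨N, ρ, a₁, D, b, F, cG, s, p, n, T.tab hse (hW i hi.le).mono hc hq' hE' hX0 hk0 hk⟩
  · obtain ⟨N, b, F, s, lam, J, β, x, t, h3, h4, h5⟩ := hPl
    have h6 : W m (2 * Real.exp c ^ 2) ≤ W m (2 * E ^ 2) := (hW m le_rfl).mono _ _ (by positivity) h1
    exact ⟨N, b, F, s, lam, J, β, x, t, by linarith, h4.side hse hc hq' hE' h5.b0.le hk0 hk,
      h5.mono_nu h6⟩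

end Pool.Agent.FPX
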