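import Mathlib
import Pool.Agent.FPX.CLF
import Pool.Agent.FPX.VCE
import Pool.Agent.FPX.VT2

/-
CLG (helper58): cells of `Closing` with arbitrary tables. `TabS` is what a table has to provide
(`tabS_C`: rows of VTC, `tabS_2`: rows of VT2, two accounts), `cellH` the check of the header,
`cellP_of_vtabE` / `cellP_of_hcell` the cells from the certificates `VTabE`, `HCell` of VCE;
`close58_gen` is the result with one `CellP` per cell and parameter.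
-/

open MeasureTheory Set Filter Topology
open scoped ENNReal NNReal

noncomputable section

namespace Pool.Agent.FPX

open Pool.Agent.EWD Pool.Agent.FPM VTB

/-- what a table has to provide: both inequalities for one pair `(f, w)`, with the account `ac1 ∘ f` -/
def TabS (p : Par) (Vc : List (ℚ × ℚ)) (σ s xl xu k se : ℚ) : Prop :=
  ∀ (M : Type) [MetricSpace M] [CompactSpace M] (γ : ℝ → M) (C : Calc M γ), Bd γ → RegAE C →
    ∀ (v : Fin 3 → M → ℝ) (f w : Om → ℝ), VDat C v f w p.X p.ρ → (∀ᵐ o ∂C.μ, 4 * w o ≤ p.N) →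
    (∀ᵐ o ∂C.μ, Below Vc (f o) (4 * w o)) → ∀ ε δ : ℝ, IsopO C p.κ ε → 0 ≤ ε →
    (∀ g : M → ℝ, Lip g → ∀ t, 0 ≤ t → p.a1 ≤ supa C g t →
      p.a1 - p.D - supw C g (fun o => ac1 (f o)) t ≤ supw C g (jac C v) t) →
    128 * max (p.N : ℝ) (p.F / p.b) * ε ≤ δ →
    cellOk p σ s xl xu k se = true →
    ∀ Ee c k' : ℝ, √Ee ≤ se → (xl : ℝ) ≤ Real.exp c → Real.exp c ≤ xu → 0 ≤ k' → k' ≤ k →
    Hv C w δ ∧ HSv C w p.κ k' (Lc Ee c) c δ ε σ

theorem tabS_2 {p : Par} {Vc : List (ℚ × ℚ)} {l : List RowW} (h : tab2 p Vc l = true)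
    (σ s xl xu k se : ℚ) : TabS p Vc σ s xl xu k se := by
  intro M _ _ γ C hγ hR v f w hv hN hB ε δ hI hε hα hδ hcell Ee c k' hse h1 h2 h3 h4
  exact hsv_of_tab2 C hγ hR hv hN hB hI hε hα h hδ hcell hse h1 h2 h3 h4

theorem tabS_C {p : Par} {Vc : List (ℚ × ℚ)} {l : List RowC} (h : tabC p Vc l = true)
    (σ s xl xu k se : ℚ) : TabS p Vc σ s xl xu k se := by
  intro M _ _ γ C hγ hR v f w hv hN hB ε δ hI hε hα hδ hcell Ee c k' hse h1 h2 h3 h4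
  refine hsv_of_tabC C hγ hR hv hN hB hI hε (fun g hg t ht ha => ?_) h hδ hcell hse h1 h2 h3 h4
  have f0 : ∀ᵐ o ∂C.μ, 0 ≤ f o := by
    filter_upwards [hv.fnu] with o ho
    exact (nuv_nonneg _ _ _).trans ho
  have k1 : supw C g (fun o => ac1 (f o)) t ≤ supw C g f t :=
    setIntegral_mono_ae (ac1_int hv.fint f0).integrableOn hv.fint.integrableOn
      (ae_of_all _ fun o => ac1_le _)
  have k2 := hα g hg t ht ha
  linarith

/-- **one cell from a table of any type** -/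
theorem cellH_ok {κ X σ se B ζ' : ℚ} {lφ : List (ℚ × ℚ)} {q : ℚ × ℚ} {V : List (ℚ × ℚ)}
    {r : ℚ × ℚ × ℚ × ℚ} {p : Par} {s xl xu : ℚ} (hφ : qOk 1 lφ = true) (hV : plOk (0, 0) q V = true)
    (h : cellH κ X σ se B ζ' lφ q V r p s xl xu = true)
    (hT : TabS p (cutV p.N (0, 0) q V) σ s xl xu r.2.2.2 se)
    {Ee c₀ : ℝ} (hse : √Ee ≤ se) (hζ : 0 ≤ ζ')
    (hr : r.2.2.1 ≤ X) {G G' : ℝ → ℝ} {hyp : ℝ → Prop}
    (hhyp : ∀ x, hyp x → x ≤ (ζ' : ℝ) * (X - r.2.2.1)) :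
    CellP (pkG 0 1 (clQ lφ)) G G' (Wq lφ q V) κ Ee c₀ X σ B
      r.1 r.2.1 r.2.2.1 r.2.2.2 hyp := by
  intro M _ _ γ C hγ hR hvol ε δ hε hδ hBε hI εA cm c v hA ha hb hg hk0 hk hhy
  simp only [cellH, Bool.and_eq_true] at h
  obtain ⟨h, hp, hcell⟩ := h
  obtain ⟨c1, c2, c3, c4, c5, c6, c7, c8, c9, c10, c11⟩ := of_decide_eq_true h
  have hB : max (p.N : ℝ) (p.F / p.b) ≤ B :=
    max_le (by exact_mod_cast c10) (by exact_mod_cast c11)
  have hpk := qOk_pkOk lφ 1 hφ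
  have P := pen_pkG (l := clQ lφ) (by simpa using hpk)
  set φ := pkG 0 1 (clQ lφ) with hφd
  have hφm : ∀ x y, 0 ≤ x → x ≤ y → φ x ≤ φ y := fun x y _ hxy => by
    have := P.mono x (y - x) (by linarith)
    rwa [add_sub_cancel] at this
  have hφ0 : ∀ x, 0 ≤ x → 0 ≤ φ x := fun x hx => hx.trans (P.ge x hx)
  set W : ℝ → ℝ := Wq lφ q V with hWd
  have hWe : ∀ x, W x = plc (0, 0) q V (φ x) / 4 := fun x => rfl
  have hWok : WOk W W := wok_plc P.cont hφm hφ0 hV fun x _ => le_rfl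
  have hq1 : (0 : ℝ) < q.1 := by
    have := (plOk_head hV).1
    simpa using this
  have hρ : ∀ x, 0 ≤ x → W x ≤ (p.ρ : ℝ) * φ x := by
    intro x hx
    have h1 := plc_le_slope (q := q) (l := V) (φ x)
    have h2 : (q.2 : ℝ) / q.1 ≤ 4 * p.ρ := by
      rw [div_le_iff₀ hq1]
      exact_mod_cast c3
    have h3 := mul_le_mul_of_nonneg_right h2 (hφ0 x hx)
    rw [hWe]
    linarith
  obtain ⟨-, qρ, -, -, -, -, -, -, -, -, -, q12, q13, -⟩ := of_decide_eq_true hp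
  have hρ0 : (0 : ℝ) ≤ p.ρ := by exact_mod_cast qρ
  have hX' : (X : ℝ) - G c ≤ p.X := by
    have : (X : ℝ) - r.2.2.1 ≤ p.X := by exact_mod_cast c2
    linarith
  have hv := vdat_of_adm C P hA hX' hWok hρ0 hρ
  -- the bounds of `exp c`
  have e1 : (xl : ℝ) ≤ Real.exp c := by
    have k1 : (xl : ℝ) ≤ (eL r.1 : ℝ) := by exact_mod_cast c7
    have k2 := eL_le r.1
    have k3 : Real.exp (r.1 : ℝ) ≤ Real.exp c := Real.exp_le_exp.2 ha
    linarith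
  have e2 : Real.exp c ≤ xu := by
    have k1 : (eU r.2.1 : ℝ) ≤ xu := by exact_mod_cast c8
    have k2 := le_eU (x := r.2.1) c9
    have k3 : Real.exp c ≤ Real.exp (r.2.1 : ℝ) := Real.exp_le_exp.2 hb
    linarith
  have he := Real.exp_pos c
  -- the cut
  have hN : 4 * W (2 * Real.exp c ^ 2) ≤ p.N := by
    have k1 : 2 * Real.exp c ^ 2 ≤ 2 * (xu : ℝ) ^ 2 := by
      have := pow_le_pow_left₀ he.le e2 2
      linarith
    have k2 := plc_mono V (0, 0) q hV (hφm _ _ (by positivity) k1)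
    have k3 : plc (0, 0) q V (φ (2 * (xu : ℝ) ^ 2)) ≤ p.N := by
      have k4 := qG_cast 0 1 lφ (2 * xu ^ 2)
      have k5 := qpl_cast V (0, 0) q (qG 0 1 lφ (2 * xu ^ 2))
      rw [k4] at k5
      push_cast at k5
      rw [hφd, ← k5]
      exact_mod_cast c4
    rw [hWe]
    linarith
  have hwN : ∀ᵐ o ∂C.μ, 4 * wK C W v (2 * Real.exp c ^ 2) o ≤ p.N := ae_of_all _ fun o => by
    have : wK C W v (2 * Real.exp c ^ 2) o ≤ W (2 * Real.exp c ^ 2) := min_le_right _ _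
    linarith
  have hbel : ∀ᵐ o ∂C.μ, Below (cutV p.N (0, 0) q V) (φ (nuC C v o))
      (4 * wK C W v (2 * Real.exp c ^ 2) o) := ae_of_all _ fun o => by
    refine plc_below V (0, 0) q hV q12.le (by simpa using hφ0 (nuC C v o) (nuv_nonneg _ _ _)) ?_ ?_
    · have : wK C W v (2 * Real.exp c ^ 2) o ≤ W (nuC C v o) := min_le_left _ _
      have e : W (nuC C v o) = plc (0, 0) q V (φ (nuC C v o)) / 4 := rfl
      linarith
    · have : wK C W v (2 * Real.exp c ^ 2) o ≤ W (2 * Real.exp c ^ 2) := min_le_right _ _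
      linarith
  -- the deficit
  have hBP := hhyp _ hhy
  have hD0 : (0 : ℝ) ≤ p.D := by exact_mod_cast q13
  have hBv0 : (0 : ℝ) ≤ (ζ' : ℝ) * (X - r.2.2.1) := by
    have k1 : (0 : ℝ) ≤ ζ' := by exact_mod_cast hζ
    have k2 : (r.2.2.1 : ℝ) ≤ X := by exact_mod_cast hr
    exact mul_nonneg k1 (by linarith)
  have hD : 2 * √((p.a1 : ℝ) * ((ζ' : ℝ) * (X - r.2.2.1))) ≤ p.D := by
    have k1 : 4 * ((p.a1 : ℝ) * ((ζ' : ℝ) * (X - r.2.2.1))) ≤ (p.D : ℝ) ^ 2 := by exact_mod_cast c6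
    have k2 : √((p.a1 : ℝ) * ((ζ' : ℝ) * (X - r.2.2.1))) ≤ p.D / 2 := by
      refine Real.sqrt_le_iff.2 ⟨by linarith, ?_⟩
      have e : ((p.D : ℝ) / 2) ^ 2 = (p.D : ℝ) ^ 2 / 4 := by ring
      rw [e]
      linarith
    linarith
  have hBa : (ζ' : ℝ) * (X - r.2.2.1) ≤ p.a1 := by exact_mod_cast c5
  have hα : ∀ g : M → ℝ, Lip g → ∀ t, 0 ≤ t → (p.a1 : ℝ) ≤ supa C g t →
      (p.a1 : ℝ) - p.D - supw C g (fun o => ac1 (φ (nuC C v o))) t ≤ supw C g (jac C v) t :=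
    fun g _ t _ hs => vdp_ac C hA.sph (B := (ζ' : ℝ) * (X - r.2.2.1)) hBP hBa hD hv.fint hv.fnu g t hs
  have hI' : IsopO C p.κ ε := by rw [c1]; exact hI
  have key := hT M γ C hγ hR v (fun o => φ (nuC C v o)) (wK C W v (2 * Real.exp c ^ 2)) hv hwN hbel ε δ
    hI' hε hα (by
      have := mul_le_mul_of_nonneg_right (mul_le_mul_of_nonneg_left hB (by norm_num : (0 : ℝ) ≤ 128)) hε
      linarith) hcell Ee c (G' c) hse e1 e2 hk0 hk
  rw [c1] at key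
  exact key

theorem cell2_ok {κ X σ se B ζ' : ℚ} {lφ : List (ℚ × ℚ)} {q : ℚ × ℚ} {V : List (ℚ × ℚ)}
    {r : ℚ × ℚ × ℚ × ℚ} {d : Cell2} (hφ : qOk 1 lφ = true) (hV : plOk (0, 0) q V = true)
    (h : cell2 κ X σ se B ζ' lφ q V r d = true) {Ee c₀ : ℝ} (hse : √Ee ≤ se) (hζ : 0 ≤ ζ')
    (hr : r.2.2.1 ≤ X) {G G' : ℝ → ℝ} {hyp : ℝ → Prop}
    (hhyp : ∀ x, hyp x → x ≤ (ζ' : ℝ) * (X - r.2.2.1)) :
    CellP (pkG 0 1 (clQ lφ)) G G' (Wq lφ q V) κ Ee c₀ X σ B r.1 r.2.1 r.2.2.1 r.2.2.2 hyp := by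
  rw [cell2, Bool.and_eq_true] at h
  exact cellH_ok hφ hV h.1 (tabS_2 h.2 _ _ _ _ _ _) hse hζ hr hhyp

/-! ### the cells from the real certificates -/

/-- **one cell with image from `VTabE`** -/
theorem cellP_of_vtabE {φ φ' G G' W Wm : ℝ → ℝ} {sφ Lφ Ee c₀ X₀ σ B a b g kc κ N ρ X Bv a₁ D bb F cG q E
    s se : ℝ} {p : ℕ → ℝ} {n : ℕ} (P : Pen φ φ' sφ Lφ) (hW : WOk W Wm) (hse : √Ee ≤ se) (ha : 0 < a)
    (hX : X₀ - g ≤ X) (hq : q ≤ 1 - Real.exp (-a)) (hE : Real.exp b ≤ E)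
    (T : VTabE κ N B ρ X Bv a₁ D bb F cG q E kc σ s se φ W p n) {hyp : ℝ → Prop}
    (hhyp : ∀ x, hyp x → x ≤ Bv) :
    CellP φ G G' W κ Ee c₀ X₀ σ B a b g kc hyp := by
  intro M _ _ γ C hγ hR hvol ε δ hε hδ hBε hI εA cm c v hA hac hcb hg hk0 hk hhy
  have hc : 0 < c := ha.trans_le hac
  have hq' : q ≤ 1 - Real.exp (-c) := by
    have : Real.exp (-c) ≤ Real.exp (-a) := Real.exp_le_exp.2 (by linarith)
    linarith
  have hE' : Real.exp c ≤ E := (Real.exp_le_exp.2 hcb).trans hE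
  have hX' : X₀ - G c ≤ X := by linarith
  have hX0 : 0 ≤ X := by
    have h1 : 0 ≤ Ph C φ v := integral_nonneg fun o =>
      (nuv_nonneg _ _ _).trans (P.ge _ (nuv_nonneg _ _ _))
    linarith [hA.tot]
  exact Pool.Agent.FPX.hsv_of_tab C hγ hR P hA hW hX' hI hε (hhyp _ hhy)
    (T.tab hse hW.mono hc hq' hE' hX0 hk0 hk) hBε

/-- **one cell without image from `HCell`** -/
theorem cellP_of_hcell {φ φ' G G' W Wm : ℝ → ℝ} {sφ Lφ Ee c₀ X₀ σ B a b g kc κ N X bb F q E V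
    s se lam : ℝ} {J : ℕ} {β x t : ℕ → ℝ} (P : Pen φ φ' sφ Lφ) (hW : WOk W Wm) (hse : √Ee ≤ se)
    (ha : 0 < a)
    (hX : X₀ - g ≤ X) (hq : q ≤ 1 - Real.exp (-a)) (hE : Real.exp b ≤ E) (hN : 4 * W (2 * E ^ 2) ≤ N)
    (hV : 2 * Real.pi ≤ V) (hS : VSideE κ bb F q E kc σ s se)
    (T : HCell κ N V X bb F B (2 * E ^ 2) φ W J β x t lam) {hyp : ℝ → Prop} :
    CellP φ G G' W κ Ee c₀ X₀ σ B a b g kc hyp := by
  intro M _ _ γ C hγ hR hvol ε δ hε hδ hBε hI εA cm c v hA hac hcb hg hk0 hk hhy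
  have hc : 0 < c := ha.trans_le hac
  have hq' : q ≤ 1 - Real.exp (-c) := by
    have : Real.exp (-c) ≤ Real.exp (-a) := Real.exp_le_exp.2 (by linarith)
    linarith
  have hE' : Real.exp c ≤ E := (Real.exp_le_exp.2 hcb).trans hE
  have hX' : X₀ - G c ≤ X := by linarith
  have he := Real.exp_pos c
  have h1 : 2 * Real.exp c ^ 2 ≤ 2 * E ^ 2 := by
    have := pow_le_pow_left₀ he.le hE' 2
    linarith
  have h6 : W (2 * Real.exp c ^ 2) ≤ W (2 * E ^ 2) := hW.mono _ _ (by positivity) h1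
  exact hsv_plain C P hA hW hX' hI hε (hvol.le.trans hV) (by linarith)
    (hS.side hse hc hq' hE' T.b0.le hk0 hk) (T.mono_nu h6) hBε

/-! ### the result -/

/-- **`Closing` from one `CellP` per cell and polygon** -/
theorem closing_of_cellP {κ X σ c₀ k₀ B R : ℚ} {L lφ : List (ℚ × ℚ)} {m : ℕ} {ζ : ℕ → ℚ}
    {q : ℕ → ℚ × ℚ} {V : ℕ → List (ℚ × ℚ)} {Ee : ℝ}
    (hφ : qOk 1 lφ = true) (hV : ∀ i, i ≤ m → plOk (0, 0) (q i) (V i) = true)
    (hR : ∀ i, i ≤ m → (q i).2 ≤ 4 * R * (q i).1)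
    (hk : 0 ≤ k₀) (hL : qOk k₀ L = true) (hX : X < qVal 0 k₀ L) (hB : 0 < B) (hζ0 : ζ 0 = 0)
    (hζ : ∀ i, i ≤ m → 0 ≤ ζ i)
    (hQ : ∀ i, i ≤ m → ∃ Q, PWE (pkD 0 1 (clQ lφ)) (Wq lφ (q i) (V i)) 1
      (fun v a b => PE (enb a b) - ζ i * pkG 0 1 (clQ lφ) (nuv v a b)) Q)
    (hC : ∀ r ∈ qCells c₀ 0 k₀ L, r.2.2.1 ≤ X → ∀ i, i ≤ m →
      CellP (pkG 0 1 (clQ lφ)) (pkG c₀ k₀ (clQ L)) (pkD c₀ k₀ (clQ L)) (Wq lφ (q i) (V i)) κ Ee c₀ X σ B
        r.1 r.2.1 r.2.2.1 r.2.2.2 (fun x => i < m → x ≤ (ζ (i + 1) : ℝ) * (X - r.2.2.1))) :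
    Closing (pkG 0 1 (clQ lφ)) (pkD 0 1 (clQ lφ)) (fun x => R * pkG 0 1 (clQ lφ) x)
      (pkG c₀ k₀ (clQ L)) (pkD c₀ k₀ (clQ L)) κ Ee c₀ X σ := by
  have hpk : pkOk 1 (clQ lφ) := by simpa using qOk_pkOk lφ 1 hφ
  have P := pen_pkG (l := clQ lφ) hpk
  have hφm : ∀ x y, 0 ≤ x → x ≤ y → pkG 0 1 (clQ lφ) x ≤ pkG 0 1 (clQ lφ) y := fun x y _ hxy => by
    have := P.mono x (y - x) (by linarith)
    rwa [add_sub_cancel] at this
  have hφ0 : ∀ x, 0 ≤ x → 0 ≤ pkG 0 1 (clQ lφ) x := fun x hx => hx.trans (P.ge x hx)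
  choose! Q hQ' using hQ
  refine closing_of_cells (φ' := pkD 0 1 (clQ lφ)) (B := B) (L := clQ L) (n := m)
    (ζ := fun i => (ζ i : ℝ)) (W := fun i => Wq lφ (q i) (V i)) (Q := Q) (by exact_mod_cast hk)
    (qOk_pkOk L k₀ hL) ?_ (by exact_mod_cast hB) P.cont hφ0 (by rw [hζ0]; simp)
    (fun i hi => by exact_mod_cast hζ i hi) (fun i hi => ?_) (fun i hi => hQ' i hi) ?_
  · have h1 : ((X : ℚ) : ℝ) < ((qVal 0 k₀ L : ℚ) : ℝ) := by exact_mod_cast hX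
    rw [qVal_cast] at h1
    simpa using h1
  · refine wok_plc P.cont hφm hφ0 (hV i hi) fun x hx => ?_
    have h1 := plc_le_slope (q := q i) (l := V i) (pkG 0 1 (clQ lφ) x)
    have hq1 : (0 : ℝ) < (q i).1 := by
      have := (plOk_head (hV i hi)).1
      simpa using this
    have h2 : ((q i).2 : ℝ) / (q i).1 ≤ 4 * R := by
      rw [div_le_iff₀ hq1]
      exact_mod_cast hR i hi
    have h3 := mul_le_mul_of_nonneg_right h2 (hφ0 x hx)
    linarith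
  · intro s hs hsX i hi
    obtain ⟨r, hr, e⟩ := qCells_cast L c₀ 0 k₀ s (by simpa using hs)
    subst e
    have hrX : r.2.2.1 ≤ X := by
      have h : ((r.2.2.1 : ℚ) : ℝ) ≤ X := hsX
      exact_mod_cast h
    exact hC r hr hrX i hi

/-- **The sharp closing statement from one `CellP` per cell and polygon (ISO58).** -/
theorem close58_gen {κ X σ se c₀ k₀ B R : ℚ} {L lφ : List (ℚ × ℚ)} {ζ : List ℚ}
    {P : List ((ℚ × ℚ) × List (ℚ × ℚ))} {Ee Xs : ℝ} (hE : 1 ≤ Ee)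
    (hd : hdOk κ X σ se c₀ k₀ B R L lφ ζ P = true)
    (hQ : ∀ i, i < P.length → ∃ Q, PWE (pkD 0 1 (clQ lφ)) (Wq lφ (Pi' P i).1 (Pi' P i).2) 1
      (fun v a b => PE (enb a b) - (ζ.getD i 0 : ℚ) * pkG 0 1 (clQ lφ) (nuv v a b)) Q)
    (hC : ∀ r ∈ qCells c₀ 0 k₀ L, r.2.2.1 ≤ X → ∀ i, i < P.length →
      CellP (pkG 0 1 (clQ lφ)) (pkG c₀ k₀ (clQ L)) (pkD c₀ k₀ (clQ L))
        (Wq lφ (Pi' P i).1 (Pi' P i).2) κ Ee c₀ X σ B r.1 r.2.1 r.2.2.1 r.2.2.2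
        (fun x => i + 1 < P.length → x ≤ ((ζ.getD (i + 1) 0 : ℚ) : ℝ) * (X - r.2.2.1)))
    (hS : StartPh (pkG 0 1 (clQ lφ)) Ee Xs c₀) (hXs : Xs < X) :
    ∀ δ : ℝ, 0 < δ → Close (2 * Real.pi - δ) := by
  simp only [hdOk, Bool.and_eq_true] at hd
  obtain ⟨⟨⟨⟨h0, h1⟩, h2⟩, h3⟩, h4⟩ := hd
  obtain ⟨d1, d2, d3, d4, d5, d6, d7, d8, d9, d10, d11, d12, d13, d14⟩ := of_decide_eq_true h0
  have hPl : 0 < P.length := List.length_pos_iff.2 d14
  rw [List.all_eq_true] at h3 h4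
  have hζ : ∀ i, 0 ≤ ζ.getD i 0 := fun i => by
    rcases lt_or_ge i ζ.length with hi | hi
    · have e : ζ.getD i 0 = ζ[i] := by simp [hi]
      rw [e]
      exact of_decide_eq_true (h3 _ (List.getElem_mem hi))
    · have e : ζ.getD i 0 = 0 := by simp [hi]
      rw [e]
  have hPi : ∀ i, i ≤ P.length - 1 → plOk (0, 0) (Pi' P i).1 (Pi' P i).2 = true ∧
      (Pi' P i).1.2 ≤ 4 * R * (Pi' P i).1.1 := fun i hi => by
    have hi' : i < P.length := by omega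
    have e : Pi' P i = P[i] := by
      unfold Pi'
      simp [hi']
    have h5 := h4 _ (List.getElem_mem hi')
    rw [Bool.and_eq_true] at h5
    rw [e]
    exact ⟨h5.1, of_decide_eq_true h5.2⟩
  have hpk : pkOk 1 (clQ lφ) := by simpa using qOk_pkOk lφ 1 h1
  have Pn := pen_pkG (l := clQ lφ) hpk
  have hφm : ∀ x y, 0 ≤ x → x ≤ y → pkG 0 1 (clQ lφ) x ≤ pkG 0 1 (clQ lφ) y := fun x y _ hxy => by
    have := Pn.mono x (y - x) (by linarith)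
    rwa [add_sub_cancel] at this
  have hφ0 : ∀ x, 0 ≤ x → 0 ≤ pkG 0 1 (clQ lφ) x := fun x hx => hx.trans (Pn.ge x hx)
  have rR : (0 : ℝ) ≤ R := by exact_mod_cast d10
  have rκ : (0 : ℝ) < κ := by exact_mod_cast d1
  have hCl := closing_of_cellP (Ee := Ee) (κ := κ) (X := X) (σ := σ) (B := B) (m := P.length - 1)
    (ζ := fun i => ζ.getD i 0)
    (q := fun i => (Pi' P i).1) (V := fun i => (Pi' P i).2) h1 (fun i hi => (hPi i hi).1)
    (fun i hi => (hPi i hi).2) d8 h2 d12 d9 d13 (fun i _ => hζ i) (fun i hi => hQ i (by omega))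
    (fun r hr hrX i hi => by
      intro M _ _ γ C hγ hR hvol ε δ hε hδ hBε hI εA cm c v hA ha hb hg hk0 hk hhy
      exact hC r hr hrX i (by omega) M γ C hγ hR hvol ε δ hε hδ hBε hI εA cm c v hA ha hb hg hk0 hk
        fun hi' => hhy (by omega))
  have hpi := Real.pi_gt_d6
  have hX2' : (X : ℝ) ≤ 6 := by exact_mod_cast d4
  have hκ' : (κ : ℝ) ≤ 10000 / 5439 * Real.pi := by
    have h5 : (κ : ℝ) ≤ ((5.776 : ℚ) : ℝ) := by exact_mod_cast d2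
    have h6 : ((5.776 : ℚ) : ℝ) = 5.776 := by norm_num
    rw [h6] at h5
    linarith
  refine close_of_closing (m := 1) hE Pn (fun x hx => mul_nonneg rR (hφ0 x hx))
    (fun x y hx hxy => mul_le_mul_of_nonneg_left (hφm x y hx hxy) rR)
    (pk_cost (by exact_mod_cast d8) (qOk_pkOk L k₀ h2)) rκ one_pos (by exact_mod_cast d7)
    (by exact_mod_cast d5) (by exact_mod_cast d6) (by exact_mod_cast d3) (by linarith)
    (fun M _ _ γ C ε hε hN hv => by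
      rw [one_mul]
      exact isopO_le_kappa (isopO58 hN.bd hN.regpl hN.colb hε.le hN.nm (by linarith)) rκ.le hκ')
    hS hXs hCl

end Pool.Agent.FPX
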