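import Mathlib
import Pool.Agent.FPX.RFD
import Pool.Agent.FPX.VT2
import Pool.Agent.FPX.CLG

/-
RFP (helper58): the fast rows of RFD give the statement `TabS` of CLG.
-/

open MeasureTheory Set Filter Topology
open scoped ENNReal NNReal

noncomputable section

namespace Pool.Agent.FPX.RF

open Pool.Agent.EWD Pool.Agent.FPM Pool.Agent.FPX VTB

/-! ### the exponentials -/

theorem pow_S : (2 : ℝ) ^ 40920 = ((1099511627776 : ℝ) ^ 1023) := by
  have h : (1099511627776 : ℝ) = 2 ^ 40 := by norm_num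
  rw [h, ← pow_mul]

theorem pow_S' : (1099511627776 : ℝ) ^ 1024 = 1099511627776 ^ 1023 * 1099511627776 := pow_succ _ 1023

theorem xL0_le (t : ℕ) : (xL0 t : ℝ) ≤ 1099511627776 * Real.exp ((t : ℝ) / 1073741824) := by
  set T : ℕ := (((t + 3298534883328) * t + 7253554917687775048237056) * t +
    7975367974709495237422842361682067456) / 7253554917687775048237056 with hT
  have e0 : xL0 t = T ^ 1024 >>> 40920 := rfl
  have hS : (0 : ℝ) < 1099511627776 := by norm_num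
  set u : ℝ := (t : ℝ) / 1099511627776 with hu
  have hu0 : 0 ≤ u := by positivity
  have hT1 : (T : ℝ) ≤ 1099511627776 * Real.exp u := by
    have h1 : (T : ℝ) ≤ ((((t + 3298534883328) * t + 7253554917687775048237056) * t +
        7975367974709495237422842361682067456 : ℕ) : ℝ) / ((7253554917687775048237056 : ℕ) : ℝ) :=
      Nat.cast_div_le
    have h2 := Real.sum_le_exp_of_nonneg hu0 4
    simp only [Finset.sum_range_succ, Finset.sum_range_zero, Nat.factorial] at h2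
    have h3 : ((((t + 3298534883328) * t + 7253554917687775048237056) * t +
        7975367974709495237422842361682067456 : ℕ) : ℝ) / ((7253554917687775048237056 : ℕ) : ℝ) =
        1099511627776 * (1 + u + u ^ 2 / 2 + u ^ 3 / 6) := by
      have e : (t : ℝ) = 1099511627776 * u := by rw [hu]; field_simp
      push_cast
      rw [e]
      ring
    rw [h3] at h1
    refine h1.trans (mul_le_mul_of_nonneg_left ?_ hS.le)
    push_cast at h2
    linarith
  rw [e0, Nat.shiftRight_eq_div_pow]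
  have h1 : ((T ^ 1024 / 2 ^ 40920 : ℕ) : ℝ) ≤ ((T ^ 1024 : ℕ) : ℝ) / ((2 ^ 40920 : ℕ) : ℝ) :=
    Nat.cast_div_le
  refine h1.trans ?_
  rw [Nat.cast_pow, Nat.cast_pow, Nat.cast_ofNat, pow_S, div_le_iff₀ (by positivity)]
  have h2 := pow_le_pow_left₀ (Nat.cast_nonneg T) hT1 1024
  refine h2.trans (le_of_eq ?_)
  rw [mul_pow, ← Real.exp_nat_mul]
  have e3 : ((1024 : ℕ) : ℝ) * u = (t : ℝ) / 1073741824 := by
    rw [hu]
    push_cast
    ring
  rw [e3, pow_S']
  generalize (1099511627776 : ℝ) ^ 1023 = q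
  ring

theorem xL_le (n : ℕ) : (xL n : ℝ) ≤ 1099511627776 * Real.exp ((n : ℝ) / 100000) := by
  refine (xL0_le _).trans (mul_le_mul_of_nonneg_left (Real.exp_le_exp.2 ?_) (by norm_num))
  have h : ((n * 1073741824 / 100000 : ℕ) : ℝ) ≤ ((n * 1073741824 : ℕ) : ℝ) / ((100000 : ℕ) : ℝ) :=
    Nat.cast_div_le
  push_cast at h
  have h2 : ((Nat.div (Nat.mul n 1073741824) 100000 : ℕ) : ℝ) ≤ (n : ℝ) * 1073741824 / 100000 := h
  rw [div_le_div_iff₀ (by norm_num) (by norm_num)]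
  linarith

theorem xL0_pos (t : ℕ) : 0 < xL0 t := by
  set T : ℕ := (((t + 3298534883328) * t + 7253554917687775048237056) * t +
    7975367974709495237422842361682067456) / 7253554917687775048237056 with hT
  have e0 : xL0 t = T ^ 1024 >>> 40920 := rfl
  have h1 : 2 ^ 40 ≤ T := by
    rw [hT, Nat.le_div_iff_mul_le (by norm_num)]
    have : 0 ≤ ((t + 3298534883328) * t + 7253554917687775048237056) * t := Nat.zero_le _
    omega
  rw [e0, Nat.shiftRight_eq_div_pow]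
  refine Nat.div_pos ?_ (by positivity)
  calc 2 ^ 40920 ≤ 2 ^ (40 * 1024) := Nat.pow_le_pow_right (by norm_num) (by norm_num)
    _ = (2 ^ 40) ^ 1024 := by rw [pow_mul]
    _ ≤ T ^ 1024 := Nat.pow_le_pow_left h1 _

theorem xL_pos (n : ℕ) : 0 < xL n := xL0_pos _

theorem le_xU0 {t : ℕ} (ht : t ≤ 1099511627776) :
    1099511627776 * Real.exp ((t : ℝ) / 1073741824) ≤ (xU0 t : ℝ) := by
  set A : ℕ := (((5 * t + 17592186044416) * t + 58028439341502200385896448) * t +
    127605887595351923798765477786913079296) * t +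
    140304157183766680147553743940763169886969524125696 with hA
  set T : ℕ := A / 127605887595351923798765477786913079296 + 1 with hT
  have e0 : xU0 t = (T ^ 1024 >>> 40920) + 1 := rfl
  have hS : (0 : ℝ) < 1099511627776 := by norm_num
  set u : ℝ := (t : ℝ) / 1099511627776 with hu
  have hu0 : 0 ≤ u := by positivity
  have hu1 : u ≤ 1 := by
    rw [hu, div_le_one hS]
    exact_mod_cast ht
  have hT1 : 1099511627776 * Real.exp u ≤ (T : ℝ) := by
    have h1 := VTB.div_lt_nat A 127605887595351923798765477786913079296 (by norm_num)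
    have h2 := Real.exp_bound' hu0 hu1 (n := 4) (by norm_num)
    simp only [Finset.sum_range_succ, Finset.sum_range_zero, Nat.factorial] at h2
    have h3 : (A : ℝ) / ((127605887595351923798765477786913079296 : ℕ) : ℝ) =
        1099511627776 * (1 + u + u ^ 2 / 2 + u ^ 3 / 6 + 5 * u ^ 4 / 96) := by
      have e : (t : ℝ) = 1099511627776 * u := by rw [hu]; field_simp
      rw [hA]
      push_cast
      rw [e]
      ring
    rw [h3] at h1
    refine le_trans (mul_le_mul_of_nonneg_left ?_ hS.le) h1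
    push_cast at h2
    refine h2.trans (le_of_eq ?_)
    ring
  rw [e0, Nat.shiftRight_eq_div_pow]
  have h1 := VTB.div_lt_nat (T ^ 1024) (2 ^ 40920) (by positivity)
  refine le_trans ?_ h1
  rw [Nat.cast_pow, Nat.cast_pow, Nat.cast_ofNat, pow_S, le_div_iff₀ (by positivity)]
  have h2 := pow_le_pow_left₀ (by positivity) hT1 1024
  refine le_trans (le_of_eq ?_) h2
  rw [mul_pow, ← Real.exp_nat_mul]
  have e3 : ((1024 : ℕ) : ℝ) * u = (t : ℝ) / 1073741824 := by
    rw [hu]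
    push_cast
    ring
  rw [e3, pow_S']
  generalize (1099511627776 : ℝ) ^ 1023 = q
  ring

theorem le_xU {n : ℕ} (hn : n ≤ 10000000) :
    1099511627776 * Real.exp ((n : ℝ) / 100000) ≤ (xU n : ℝ) := by
  have ht : n * 1073741824 / 100000 + 1 ≤ 1099511627776 := by
    have : n * 1073741824 / 100000 ≤ 10000000 * 1073741824 / 100000 :=
      Nat.div_le_div_right (Nat.mul_le_mul_right _ hn)
    omega
  refine le_trans (mul_le_mul_of_nonneg_left (Real.exp_le_exp.2 ?_) (by norm_num)) (le_xU0 ht)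
  have h := VTB.div_lt_nat (n * 1073741824) 100000 (by norm_num)
  have h2 : (((n * 1073741824 / 100000 + 1 : ℕ)) : ℝ) =
      ((Nat.add (Nat.div (Nat.mul n 1073741824) 100000) 1 : ℕ) : ℝ) := rfl
  rw [← h2]
  rw [div_le_div_iff₀ (by norm_num) (by norm_num)]
  rw [div_le_iff₀ (by norm_num)] at h
  push_cast at h ⊢
  linarith

/-! ### the pointwise inequality -/

/-- a convex nondecreasing function below the line `lam φ - mu ac1 φ` at the vertices -/
theorem below2 {g : ℝ → ℝ} (hg : ∀ W p q θ : ℝ, 0 ≤ θ → θ ≤ 1 → W ≤ (1 - θ) * p + θ * q →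
      g W ≤ (1 - θ) * g p + θ * g q) {lam mu : ℝ} (rm : 0 ≤ mu) (rl : mu ≤ lam) {V : List (ℚ × ℚ)}
    (kv : ∀ p ∈ V, g (p.2 : ℝ) ≤ lam * p.1 - mu * ac1 p.1) (k2 : g (w2 V : ℝ) ≤ 2 * lam - 2 * mu)
    {φ W : ℝ} (h : Below V φ W) : g W ≤ lam * φ - mu * ac1 φ := by
  obtain ⟨p, hp, q, hq, θ, h0, h1, hW, hφ⟩ := h
  have gmono : ∀ {a b : ℝ}, a ≤ b → g a ≤ g b := fun {a b} hab => by
    have := hg a b b 0 le_rfl zero_le_one (by linarith)
    linarith
  have gline : ∀ {α β x₁ x₂ W₁ W₂ W θ : ℝ}, g W₁ ≤ α * x₁ + β → g W₂ ≤ α * x₂ + β → 0 ≤ θ → θ ≤ 1 →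
      W ≤ (1 - θ) * W₁ + θ * W₂ → g W ≤ α * ((1 - θ) * x₁ + θ * x₂) + β := by
    intro α β x₁ x₂ W₁ W₂ W θ h1 h2 t0 t1 hW
    have k1 := hg W W₁ W₂ θ t0 t1 hW
    have k2 := mul_le_mul_of_nonneg_left h1 (show 0 ≤ 1 - θ by linarith)
    have k3 := mul_le_mul_of_nonneg_left h2 t0
    nlinarith
  -- monotonicity in `φ`
  have mono : ∀ x y : ℝ, x ≤ y → lam * x - mu * ac1 x ≤ lam * y - mu * ac1 y := by
    intro x y hxy
    have e1 : ac1 y ≤ ac1 x + (y - x) := by
      unfold ac1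
      rcases min_choice x (1 + x / 2) with h | h
      · rw [h]
        exact (min_le_left _ _).trans (by linarith)
      · rw [h]
        exact (min_le_right _ _).trans (by linarith)
    have e2 := mul_le_mul_of_nonneg_left e1 rm
    have e3 := mul_le_mul_of_nonneg_right rl (show 0 ≤ y - x by linarith)
    nlinarith
  -- the two affine functions
  have lo : ∀ x : ℝ, x ≤ 2 → ac1 x = x := fun x hx => min_eq_left (by linarith)
  have hi : ∀ x : ℝ, 2 ≤ x → ac1 x = 1 + x / 2 := fun x hx => min_eq_right (by linarith)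
  have conc1 : ∀ x : ℝ, (lam - mu) * x + 0 ≤ lam * x - mu * ac1 x := by
    intro x
    have := mul_le_mul_of_nonneg_left (ac1_le x) rm
    linarith
  have conc2 : ∀ x : ℝ, (lam - mu / 2) * x + (-mu) ≤ lam * x - mu * ac1 x := by
    intro x
    have h3 : ac1 x ≤ 1 + x / 2 := min_le_right _ _
    have := mul_le_mul_of_nonneg_left h3 rm
    linarith
  have w2R : ∀ p ∈ V, ∀ q ∈ V, (p.1 : ℝ) ≤ 2 → (2 : ℝ) < q.1 →
      (p.2 : ℝ) + (2 - p.1) / (q.1 - p.1) * (q.2 - p.2) ≤ w2 V := by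
    intro p hp q hq h3 h4
    have h3' : p.1 ≤ 2 := by exact_mod_cast h3
    have h4' : 2 < q.1 := by exact_mod_cast h4
    have h5 := ch2_le_w2 hp hq
    rw [ch2, if_pos ⟨h3', h4'⟩] at h5
    exact_mod_cast h5
  -- the straddling case
  have strad : ∀ p ∈ V, ∀ q ∈ V, (p.1 : ℝ) ≤ 2 → (2 : ℝ) < q.1 → ∀ θ : ℝ, 0 ≤ θ → θ ≤ 1 →
      W ≤ (1 - θ) * p.2 + θ * q.2 →
      g W ≤ lam * ((1 - θ) * p.1 + θ * q.1) - mu * ac1 ((1 - θ) * p.1 + θ * q.1) := by
    intro p hp q hq h3 h4 θ h0 h1 hW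
    have hd : (0 : ℝ) < q.1 - p.1 := by linarith
    set t : ℝ := (2 - p.1) / (q.1 - p.1) with ht
    have t0 : 0 ≤ t := div_nonneg (by linarith) hd.le
    have t1 : t < 1 := by
      rw [ht, div_lt_one hd]
      linarith
    have et : t * (q.1 - p.1) = 2 - p.1 := div_mul_cancel₀ _ hd.ne'
    have hw2 := w2R p hp q hq h3 h4
    rw [← ht] at hw2
    set W₂ : ℝ := p.2 + t * (q.2 - p.2) with hW₂
    have kW : g W₂ ≤ 2 * lam - 2 * mu := (gmono hw2).trans k2
    rcases le_or_gt θ t with hθ | hθ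
    · -- between `p` and `2`
      have h5 := kv p hp
      rw [lo _ h3] at h5
      rcases t0.eq_or_lt with h6 | h6
      · have h7 : θ = 0 := by linarith
        rw [h7] at hW ⊢
        have h8 := gmono hW
        have e : (1 - (0 : ℝ)) * p.2 + 0 * q.2 = p.2 := by ring
        have e' : (1 - (0 : ℝ)) * p.1 + 0 * q.1 = p.1 := by ring
        rw [e] at h8
        rw [e']
        have := conc1 p.1
        linarith
      · set s := θ / t with hs
        have s0 : 0 ≤ s := div_nonneg h0 h6.le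
        have s1 : s ≤ 1 := by
          rw [hs, div_le_one h6]
          exact hθ
        have es : s * t = θ := div_mul_cancel₀ _ h6.ne'
        have h8 : W ≤ (1 - s) * p.2 + s * W₂ := by
          refine hW.trans (le_of_eq ?_)
          rw [hW₂]
          linear_combination (p.2 - q.2 : ℝ) * es
        have h9 := gline (α := (lam : ℝ) - mu) (β := 0) (x₁ := p.1) (x₂ := 2)
          (by linarith) (by linarith) s0 s1 h8
        refine h9.trans ?_
        have e : (1 - s) * (p.1 : ℝ) + s * 2 = (1 - θ) * p.1 + θ * q.1 := by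
          have : s * (t * (q.1 - p.1)) = s * (2 - p.1) := by rw [et]
          linear_combination (-1 : ℝ) * this + ((q.1 : ℝ) - p.1) * es
        rw [e]
        exact conc1 _
    · -- between `2` and `q`
      have h5 := kv q hq
      rw [hi _ h4.le] at h5
      have h6 : 0 < 1 - t := by linarith
      set s := (θ - t) / (1 - t) with hs
      have s0 : 0 ≤ s := div_nonneg (by linarith) h6.le
      have s1 : s ≤ 1 := by
        rw [hs, div_le_one h6]
        linarith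
      have es : s * (1 - t) = θ - t := div_mul_cancel₀ _ h6.ne'
      have h8 : W ≤ (1 - s) * W₂ + s * q.2 := by
        refine hW.trans (le_of_eq ?_)
        rw [hW₂]
        linear_combination (p.2 - q.2 : ℝ) * es
      have h9 := gline (α := (lam : ℝ) - mu / 2) (β := -mu) (x₁ := 2) (x₂ := q.1)
        (by linarith) (by linarith) s0 s1 h8
      refine h9.trans ?_
      have e : (1 - s) * (2 : ℝ) + s * q.1 = (1 - θ) * p.1 + θ * q.1 := by
        have h10 : (2 : ℝ) = p.1 + t * (q.1 - p.1) := by linarith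
        have h11 : (1 - s) * (2 : ℝ) + s * q.1 =
            (1 - s) * (p.1 + t * (q.1 - p.1)) + s * q.1 := by rw [← h10]
        rw [h11]
        linear_combination ((q.1 : ℝ) - p.1) * es
      rw [e]
      exact conc2 _
  have fin : g W ≤ lam * ((1 - θ) * p.1 + θ * q.1) - mu * ac1 ((1 - θ) * p.1 + θ * q.1) := by
    have kp := kv p hp
    have kq := kv q hq
    rcases le_or_gt (p.1 : ℝ) 2 with a | a <;> rcases le_or_gt (q.1 : ℝ) 2 with b | b
    · rw [lo _ a] at kp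
      rw [lo _ b] at kq
      refine (gline (α := (lam : ℝ) - mu) (β := 0) (by linarith) (by linarith) h0 h1 hW).trans
        (conc1 _)
    · exact strad p hp q hq a b θ h0 h1 hW
    · have := strad q hq p hp b a (1 - θ) (by linarith) (by linarith) (by linarith)
      have e : (1 - (1 - θ)) * (q.1 : ℝ) + (1 - θ) * p.1 = (1 - θ) * p.1 + θ * q.1 := by ring
      rw [e] at this
      exact this
    · rw [hi _ a.le] at kp
      rw [hi _ b.le] at kq
      refine (gline (α := (lam : ℝ) - mu / 2) (β := -mu) (by linarith) (by linarith) h0 h1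
        hW).trans (conc2 _)
  exact fin.trans (mono _ _ hφ)

/-! ### the dual certificate -/

/-- the conditions on one triple -/
def gd (NN : ℕ) (h : ℕ × ℕ × ℕ) (B : ℕ) : Prop :=
  bn h.1 B ≤ B ∧ h.2.2 ≤ NN ∧ h.2.1 ≤ 10000000 ∧ 1 ≤ yv h.2.1

theorem bif_lt {a c z : ℕ} {b : Bool} (H : a + (bif b then c else z) < z) :
    b = true ∧ a + (bif b then c else z) = a + c := by
  cases b with
  | true => exact ⟨rfl, rfl⟩
  | false => exact absurd H (Nat.not_lt.2 (Nat.le_add_left _ _))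

theorem flag_iff {x y u v w t : ℕ} {a b : ℕ} (H : (Nat.ble x y && Nat.ble u v && Nat.ble w t &&
    Nat.ble a b) = true) : x ≤ y ∧ u ≤ v ∧ w ≤ t ∧ a ≤ b := by
  simp only [Bool.and_eq_true, Nat.ble_eq] at H
  exact ⟨H.1.1.1, H.1.1.2, H.1.2, H.2⟩

theorem stp_snd {FK KI NN : ℕ} {h : ℕ × ℕ × ℕ} {a : ℕ × ℕ} :
    (stp FK KI NN h a).2 = a.2 + (bif Nat.ble (bn h.1 a.1) a.1 && Nat.ble h.2.2 NN &&
      Nat.ble h.2.1 10000000 && Nat.ble 1 (yv h.2.1) then
      cv FK KI h.1 h.2.1 h.2.2 a.1 (yv h.2.1) (bn h.1 a.1) else Z) := by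
  simp only [stp, Nat.add_eq]

theorem stp_lt {FK KI NN : ℕ} {h : ℕ × ℕ × ℕ} {a : ℕ × ℕ} (H : (stp FK KI NN h a).2 < Z) :
    gd NN h a.1 ∧ (stp FK KI NN h a).2 =
      a.2 + cv FK KI h.1 h.2.1 h.2.2 a.1 (yv h.2.1) (bn h.1 a.1) := by
  rw [stp_snd] at H ⊢
  obtain ⟨h1, h2⟩ := bif_lt H
  exact ⟨flag_iff h1, h2⟩

theorem fld_nil (FK KI NN B : ℕ) : fld FK KI NN B [] = (B, 0) := rfl

theorem fld_cons (FK KI NN B : ℕ) (h : ℕ × ℕ × ℕ) (js : List (ℕ × ℕ × ℕ)) :
    fld FK KI NN B (h :: js) = stp FK KI NN h (fld FK KI NN B js) := rfl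

theorem fld_le (FK KI NN B : ℕ) (h : ℕ × ℕ × ℕ) (js : List (ℕ × ℕ × ℕ)) :
    (fld FK KI NN B js).2 ≤ (fld FK KI NN B (h :: js)).2 := by
  rw [fld_cons, stp_snd]
  exact Nat.le_add_right _ _

theorem yv_le {x : ℕ} (hx : x ≤ 10000000) :
    (yv x : ℝ) / 1099511627776 ≤ Real.exp (-((x : ℝ) / 100000)) := by
  have h1 := le_xU hx
  have he := Real.exp_pos ((x : ℝ) / 100000)
  have hp : (0 : ℝ) < (xU x : ℝ) := lt_of_lt_of_le (by positivity) h1
  have h2 : (yv x : ℝ) ≤ ((1208925819614629174706176 : ℕ) : ℝ) / (xU x : ℝ) := Nat.cast_div_le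
  rw [Real.exp_neg, ← one_div, div_le_iff₀ (by norm_num)]
  refine h2.trans ?_
  rw [div_le_iff₀ hp]
  have h3 := mul_le_mul_of_nonneg_left h1
    (show 0 ≤ 1 / Real.exp ((x : ℝ) / 100000) * 1099511627776 by positivity)
  have e : 1 / Real.exp ((x : ℝ) / 100000) * 1099511627776 *
      (1099511627776 * Real.exp ((x : ℝ) / 100000)) = 1208925819614629174706176 := by
    field_simp
    norm_num
  rw [e] at h3
  push_cast
  exact h3

theorem bn_log {d B : ℕ} (hB : 0 < B) :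
    Real.log ((B : ℝ) / bn d B) ≤ (d : ℝ) / 100000 := by
  have hb0 : 0 < bn d B := Nat.succ_pos _
  have hb : (0 : ℝ) < bn d B := by exact_mod_cast hb0
  have hl : (0 : ℝ) < xL d := by exact_mod_cast xL_pos d
  have h1 : (B : ℝ) * 1099511627776 ≤ bn d B * xL d := by
    have := VTB.div_lt_nat (B * 1099511627776) (xL d) (xL_pos d)
    rw [div_le_iff₀ hl] at this
    push_cast at this
    have e : ((bn d B : ℕ) : ℝ) = (((B * 1099511627776 / xL d + 1 : ℕ)) : ℝ) := rfl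
    rw [e]
    push_cast
    exact this
  rw [Real.log_le_iff_le_exp (by positivity), div_le_iff₀ hb]
  have h2 := mul_le_mul_of_nonneg_left (xL_le d) hb.le
  have h3 : (B : ℝ) * 1099511627776 ≤ (Real.exp ((d : ℝ) / 100000) * bn d B) * 1099511627776 := by
    linarith
  exact le_of_mul_le_mul_right h3 (by norm_num)

theorem sub_ge (a b : ℕ) : (a : ℝ) - b ≤ ((a - b : ℕ) : ℝ) := by
  rw [sub_le_iff_le_add, ← Nat.cast_add]
  exact Nat.cast_le.2 le_tsub_add

theorem cv_ge (FK KI d x s B y B' : ℕ) :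
    (d : ℝ) * 1099511627776 * ((120892581961462917470617600000 + (y : ℝ) * FK * 100000) -
      (y : ℝ) * 1099511627776 * (100000 + x)) +
      (y : ℝ) * s * KI * 100000 * ((B : ℝ) - B') ≤ (cv FK KI d x s B y B' : ℝ) := by
  have e : cv FK KI d x s B y B' = d * 1099511627776 *
      ((120892581961462917470617600000 + y * FK * 100000) - y * 1099511627776 * (100000 + x)) +
      y * s * KI * 100000 * (B - B') := by
    simp only [cv, Nat.add_eq, Nat.mul_eq, Nat.sub_eq]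
  have h1 := sub_ge (120892581961462917470617600000 + y * FK * 100000)
    (y * 1099511627776 * (100000 + x))
  have h2 := sub_ge B B'
  have e1 : ((120892581961462917470617600000 + y * FK * 100000 : ℕ) : ℝ) =
      120892581961462917470617600000 + (y : ℝ) * FK * 100000 := by push_cast; ring
  have e2 : ((y * 1099511627776 * (100000 + x) : ℕ) : ℝ) = (y : ℝ) * 1099511627776 * (100000 + x) := by
    push_cast; ring
  rw [e1, e2] at h1
  rw [e, Nat.cast_add, Nat.cast_mul, Nat.cast_mul, Nat.cast_mul, Nat.cast_mul, Nat.cast_mul,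
    Nat.cast_mul]
  have h3 := mul_le_mul_of_nonneg_left h1 (show (0 : ℝ) ≤ (d : ℝ) * ((1099511627776 : ℕ) : ℝ) by positivity)
  have h4 := mul_le_mul_of_nonneg_left h2
    (show (0 : ℝ) ≤ (y : ℝ) * s * KI * ((100000 : ℕ) : ℝ) by positivity)
  have e3 : ((1099511627776 : ℕ) : ℝ) = 1099511627776 := by norm_num
  have e4 : ((100000 : ℕ) : ℝ) = 100000 := by norm_num
  rw [e3] at h3 ⊢
  rw [e4] at h4 ⊢
  linarith

/-- the values of the certificate -/
def bf (FK KI NN B : ℕ) (js : List (ℕ × ℕ × ℕ)) (j : ℕ) : ℝ :=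
  ((fld FK KI NN B (js.drop j)).1 : ℝ) / 1099511627776

/-- the values of the certificate -/
def xf (js : List (ℕ × ℕ × ℕ)) (j : ℕ) : ℝ :=
  -Real.log ((yv (js.getD j (0, 0, 0)).2.1 : ℝ) / 1099511627776)

/-- the values of the certificate -/
def sf (js : List (ℕ × ℕ × ℕ)) (j : ℕ) : ℝ := ((js.getD j (0, 0, 0)).2.2 : ℝ) / 100000

/-- one term of the number -/
def nt (κ f β' β x s : ℝ) : ℝ :=
  (1 - Real.exp (-x) * (1 + x) + Real.exp (-x) * f / κ) * Real.log (β / β') +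
    Real.exp (-x) * s / κ * (β - β')

theorem nt_le {κ f : ℝ} (hκ : 0 < κ) (hf : 0 ≤ f) {FK KI NN B : ℕ} {h : ℕ × ℕ × ℕ}
    (hFK : f * 1099511627776 ≤ κ * FK) (hKI : 1099511627776 ≤ κ * KI) (hB : 0 < B)
    (hg : gd NN h B) :
    nt κ f ((bn h.1 B : ℝ) / 1099511627776) ((B : ℝ) / 1099511627776)
      (-Real.log ((yv h.2.1 : ℝ) / 1099511627776)) ((h.2.2 : ℝ) / 100000) * Z ≤
      cv FK KI h.1 h.2.1 h.2.2 B (yv h.2.1) (bn h.1 B) := by
  obtain ⟨g1, g2, g3, g4⟩ := hg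
  have hb0 : 0 < bn h.1 B := Nat.succ_pos _
  have hb : (0 : ℝ) < bn h.1 B := by exact_mod_cast hb0
  have rB : (0 : ℝ) < B := by exact_mod_cast hB
  have rbB : (bn h.1 B : ℝ) ≤ B := by exact_mod_cast g1
  set y : ℝ := (yv h.2.1 : ℝ) / 1099511627776 with hy
  have y1 : (1 : ℝ) ≤ yv h.2.1 := by exact_mod_cast g4
  have y0 : 0 < y := by positivity
  have hye := yv_le g3
  have hlog : (h.2.1 : ℝ) / 100000 ≤ -Real.log y := by
    have := Real.log_le_log y0 hye
    rw [Real.log_exp] at this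
    linarith
  have hexp : Real.exp (-(-Real.log y)) = y := by rw [neg_neg, Real.exp_log y0]
  unfold nt
  rw [hexp]
  set x' : ℝ := -Real.log y with hx'
  have hx0 : 0 ≤ x' := le_trans (by positivity) hlog
  have hle1 : y * (1 + x') ≤ 1 := by
    have h1 := Real.add_one_le_exp x'
    have h2 : y * Real.exp x' = 1 := by
      rw [hx', Real.exp_neg, Real.exp_log y0, mul_inv_cancel₀ y0.ne']
    have h3 := mul_le_mul_of_nonneg_left h1 y0.le
    linarith
  have hfk : y * f / κ ≤ y * (FK / 1099511627776) := by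
    rw [div_le_iff₀ hκ]
    have : f ≤ FK / 1099511627776 * κ := by
      rw [div_mul_eq_mul_div, le_div_iff₀ (by norm_num)]
      linarith
    have := mul_le_mul_of_nonneg_left this y0.le
    linarith
  have hyf : 0 ≤ y * f / κ := by positivity
  have hratio : (B : ℝ) / 1099511627776 / ((bn h.1 B : ℝ) / 1099511627776) = B / bn h.1 B := by
    field_simp
  rw [hratio]
  have hlg := bn_log (d := h.1) hB
  have hl0 : 0 ≤ Real.log ((B : ℝ) / bn h.1 B) := Real.log_nonneg (by rw [le_div_iff₀ hb]; linarith)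
  have t1 : (1 - y * (1 + x') + y * f / κ) * Real.log ((B : ℝ) / bn h.1 B) ≤
      (1 - y * (1 + (h.2.1 : ℝ) / 100000) + y * (FK / 1099511627776)) * ((h.1 : ℝ) / 100000) := by
    have k1 : 0 ≤ 1 - y * (1 + x') + y * f / κ := by linarith
    have k2 : 1 - y * (1 + x') + y * f / κ ≤
        1 - y * (1 + (h.2.1 : ℝ) / 100000) + y * (FK / 1099511627776) := by
      have := mul_le_mul_of_nonneg_left hlog y0.le
      linarith
    exact mul_le_mul k2 hlg hl0 (k1.trans k2)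
  have t2 : y * ((h.2.2 : ℝ) / 100000) / κ * ((B : ℝ) / 1099511627776 - (bn h.1 B : ℝ) / 1099511627776) ≤
      y * ((h.2.2 : ℝ) / 100000) * (KI / 1099511627776) *
        ((B : ℝ) / 1099511627776 - (bn h.1 B : ℝ) / 1099511627776) := by
    have k1 : 0 ≤ (B : ℝ) / 1099511627776 - (bn h.1 B : ℝ) / 1099511627776 := by
      rw [← sub_div]
      exact div_nonneg (by linarith) (by norm_num)
    refine mul_le_mul_of_nonneg_right ?_ k1
    rw [div_le_iff₀ hκ]
    have k2 : 1 ≤ (KI : ℝ) / 1099511627776 * κ := by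
      rw [div_mul_eq_mul_div, le_div_iff₀ (by norm_num)]
      linarith
    have k3 : 0 ≤ y * ((h.2.2 : ℝ) / 100000) := by positivity
    have := mul_le_mul_of_nonneg_left k2 k3
    linarith
  have hZ : ((Z : ℕ) : ℝ) = 13292279957849158729038070602803445760000000000 := by
    unfold Z
    norm_num
  have Z0 : (0 : ℝ) < ((Z : ℕ) : ℝ) := by rw [hZ]; norm_num
  refine (mul_le_mul_of_nonneg_right (add_le_add t1 t2) Z0.le).trans ?_
  have k := cv_ge FK KI h.1 h.2.1 h.2.2 B (yv h.2.1) (bn h.1 B)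
  refine le_trans (le_of_eq ?_) k
  rw [hZ, hy]
  ring

theorem fld_pos {FK KI NN B : ℕ} (hB : 0 < B) : ∀ js : List (ℕ × ℕ × ℕ), 0 < (fld FK KI NN B js).1
  | [] => hB
  | _ :: _ => Nat.succ_pos _

theorem sum_nt {κ f : ℝ} (hκ : 0 < κ) (hf : 0 ≤ f) {FK KI NN B : ℕ}
    (hFK : f * 1099511627776 ≤ κ * FK) (hKI : 1099511627776 ≤ κ * KI) (hB : 0 < B) :
    ∀ js : List (ℕ × ℕ × ℕ), (fld FK KI NN B js).2 < Z →
      (∑ j ∈ Finset.range js.length, nt κ f (bf FK KI NN B js j) (bf FK KI NN B js (j + 1)) (xf js j)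
        (sf js j)) * Z ≤ (fld FK KI NN B js).2
  | [], _ => by
    rw [fld_nil]
    simp
  | h :: js, H => by
    have H1 := lt_of_le_of_lt (fld_le FK KI NN B h js) H
    have ih := sum_nt hκ hf hFK hKI hB js H1
    rw [fld_cons] at H
    obtain ⟨g, e⟩ := stp_lt H
    have k := nt_le (f := f) hκ hf hFK hKI (fld_pos hB js) g
    rw [List.length_cons, Finset.sum_range_succ', add_mul, fld_cons, e, Nat.cast_add]
    exact add_le_add ih k

theorem get_fld {FK KI NN B : ℕ} : ∀ js : List (ℕ × ℕ × ℕ), (fld FK KI NN B js).2 < Z →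
    ∀ j < js.length, bf FK KI NN B js j ≤ bf FK KI NN B js (j + 1) ∧ 0 ≤ sf js j ∧
      sf js j ≤ (NN : ℝ) / 100000
  | [], _, j, hj => by simp at hj
  | h :: js, H, 0, _ => by
    rw [fld_cons] at H
    obtain ⟨⟨g1, g2, -, -⟩, -⟩ := stp_lt H
    refine ⟨?_, by unfold sf; positivity, ?_⟩
    · have h1 : ((bn h.1 (fld FK KI NN B js).1 : ℕ) : ℝ) ≤ ((fld FK KI NN B js).1 : ℝ) := by
        exact_mod_cast g1
      exact div_le_div_of_nonneg_right h1 (by norm_num)
    · have h1 : (h.2.2 : ℝ) ≤ NN := by exact_mod_cast g2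
      exact div_le_div_of_nonneg_right h1 (by norm_num)
  | h :: js, H, j + 1, hj =>
    get_fld js (lt_of_le_of_lt (fld_le FK KI NN B h js) H) j (by simpa using hj)

/-- the pointwise sum -/
def hz (κ : ℝ) : List (ℕ × ℕ × ℕ) → ℝ → ℝ
  | [], _ => 0
  | h :: js, W => (yv h.2.1 : ℝ) / 1099511627776 * ((h.1 : ℝ) / 100000) / κ *
      max (W - (h.2.2 : ℝ) / 100000) 0 + hz κ js W

theorem hz_conv {κ : ℝ} (hκ : 0 < κ) : ∀ js : List (ℕ × ℕ × ℕ), ∀ W p q θ : ℝ, 0 ≤ θ → θ ≤ 1 →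
    W ≤ (1 - θ) * p + θ * q → hz κ js W ≤ (1 - θ) * hz κ js p + θ * hz κ js q
  | [], _, _, _, _, _, _, _ => by simp [hz]
  | h :: js, W, p, q, θ, h0, h1, hW => by
    have ih := hz_conv hκ js W p q θ h0 h1 hW
    have hm : max (W - (h.2.2 : ℝ) / 100000) 0 ≤ (1 - θ) * max (p - (h.2.2 : ℝ) / 100000) 0 +
        θ * max (q - (h.2.2 : ℝ) / 100000) 0 := by
      have a1 := le_max_left (p - (h.2.2 : ℝ) / 100000) 0
      have a2 := le_max_right (p - (h.2.2 : ℝ) / 100000) 0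
      have a3 := le_max_left (q - (h.2.2 : ℝ) / 100000) 0
      have a4 := le_max_right (q - (h.2.2 : ℝ) / 100000) 0
      refine max_le ?_ ?_
      · have b1 := mul_le_mul_of_nonneg_left a1 (show 0 ≤ 1 - θ by linarith)
        have b2 := mul_le_mul_of_nonneg_left a3 h0
        linarith
      · have b1 := mul_nonneg (show 0 ≤ 1 - θ by linarith) a2
        have b2 := mul_nonneg h0 a4
        linarith
    have hc : 0 ≤ (yv h.2.1 : ℝ) / 1099511627776 * ((h.1 : ℝ) / 100000) / κ := by positivity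
    have := mul_le_mul_of_nonneg_left hm hc
    rw [hz, hz, hz]
    linarith

theorem sum_hz {κ : ℝ} (hκ : 0 < κ) {FK KI NN B : ℕ} (hB : 0 < B) (W : ℝ) :
    ∀ js : List (ℕ × ℕ × ℕ), (fld FK KI NN B js).2 < Z →
      ∑ j ∈ Finset.range js.length, Real.exp (-xf js j) / κ *
        Real.log (bf FK KI NN B js (j + 1) / bf FK KI NN B js j) * max (W - sf js j) 0 ≤ hz κ js W
  | [], _ => by simp [hz]
  | h :: js, H => by
    have ih := sum_hz hκ hB W js (lt_of_le_of_lt (fld_le FK KI NN B h js) H)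
    rw [fld_cons] at H
    obtain ⟨⟨-, -, -, g4⟩, -⟩ := stp_lt H
    rw [List.length_cons, Finset.sum_range_succ', hz, add_comm]
    refine add_le_add ?_ ih
    have hp := fld_pos (FK := FK) (KI := KI) (NN := NN) hB js
    have hl := bn_log (d := h.1) hp
    have hb : (0 : ℝ) < (bn h.1 (fld FK KI NN B js).1 : ℝ) := by
      exact_mod_cast (Nat.succ_pos _ : 0 < bn h.1 (fld FK KI NN B js).1)
    have y1 : (1 : ℝ) ≤ yv h.2.1 := by exact_mod_cast g4
    have y0 : (0 : ℝ) < (yv h.2.1 : ℝ) / 1099511627776 := by positivity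
    have e1 : Real.exp (-xf (h :: js) 0) = (yv h.2.1 : ℝ) / 1099511627776 := by
      have : xf (h :: js) 0 = -Real.log ((yv h.2.1 : ℝ) / 1099511627776) := rfl
      rw [this, neg_neg, Real.exp_log y0]
    have e2 : bf FK KI NN B (h :: js) (0 + 1) / bf FK KI NN B (h :: js) 0 =
        ((fld FK KI NN B js).1 : ℝ) / (bn h.1 (fld FK KI NN B js).1 : ℝ) := by
      have k1 : bf FK KI NN B (h :: js) (0 + 1) = ((fld FK KI NN B js).1 : ℝ) / 1099511627776 := rfl
      have k2 : bf FK KI NN B (h :: js) 0 =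
        (bn h.1 (fld FK KI NN B js).1 : ℝ) / 1099511627776 := rfl
      rw [k1, k2]
      field_simp
    have e3 : sf (h :: js) 0 = (h.2.2 : ℝ) / 100000 := rfl
    rw [e1, e2, e3]
    have k := mul_le_mul_of_nonneg_left hl
      (show 0 ≤ (yv h.2.1 : ℝ) / 1099511627776 / κ by positivity)
    have k' := mul_le_mul_of_nonneg_right k (le_max_right (W - (h.2.2 : ℝ) / 100000) 0)
    refine k'.trans (le_of_eq ?_)
    ring

theorem gsm_cons (L : ℕ) (h : ℕ × ℕ × ℕ) (js : List (ℕ × ℕ × ℕ)) :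
    gsm L (h :: js) = yv h.2.1 * h.1 * (L - h.2.2) + gsm L js := by
  have : gsm L (h :: js) = Nat.add (Nat.mul (Nat.mul (yv h.2.1) h.1) (Nat.sub L h.2.2)) (gsm L js) := rfl
  rw [this]
  simp only [Nat.add_eq, Nat.mul_eq, Nat.sub_eq]

theorem hz_gsm {κ : ℝ} (hκ : 0 < κ) (L : ℕ) : ∀ js : List (ℕ × ℕ × ℕ),
    hz κ js ((L : ℝ) / 100000) * (10995116277760000000000 * κ) = gsm L js
  | [] => by
    have : gsm L [] = 0 := rfl
    rw [this, hz]
    simp
  | h :: js => by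
    have ih := hz_gsm hκ L js
    rw [gsm_cons, hz, add_mul, ih]
    push_cast
    have hm : max ((L : ℝ) / 100000 - (h.2.2 : ℝ) / 100000) 0 = ((L - h.2.2 : ℕ) : ℝ) / 100000 := by
      rcases le_total h.2.2 L with hl | hl
      · rw [Nat.cast_sub hl, ← sub_div]
        refine max_eq_left (div_nonneg ?_ (by norm_num))
        have : (h.2.2 : ℝ) ≤ L := by exact_mod_cast hl
        linarith
      · rw [Nat.sub_eq_zero_of_le hl, Nat.cast_zero, zero_div, ← sub_div]
        refine max_eq_right ?_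
        have : (L : ℝ) ≤ h.2.2 := by exact_mod_cast hl
        exact div_nonpos_of_nonpos_of_nonneg (by linarith) (by norm_num)
    rw [hm]
    have e : (yv h.2.1 : ℝ) / 1099511627776 * ((h.1 : ℝ) / 100000) / κ *
        (((L - h.2.2 : ℕ) : ℝ) / 100000) * (10995116277760000000000 * κ) =
        (yv h.2.1 : ℝ) * h.1 * ((L - h.2.2 : ℕ) : ℝ) := by
      field_simp
      ring
    rw [e]

theorem vck_mem {kS lam mu : ℕ} {js : List (ℕ × ℕ × ℕ)} : ∀ {V : List (ℕ × ℕ)},
    vck kS lam mu js V = true → ∀ v ∈ V, 2 * gsm v.2 js + kS * mu * min (2 * v.1) (200000 + v.1) ≤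
      2 * kS * lam * v.1
  | [], _, v, hv => by simp at hv
  | u :: V, H, v, hv => by
    have e : vck kS lam mu js (u :: V) = (Nat.ble (Nat.add (Nat.mul 2 (gsm u.2 js))
      (Nat.mul (Nat.mul kS mu) (min (Nat.mul 2 u.1) (Nat.add 200000 u.1))))
      (Nat.mul (Nat.mul (Nat.mul 2 kS) lam) u.1) && vck kS lam mu js V) := rfl
    rw [e, Bool.and_eq_true] at H
    obtain ⟨h1, h2⟩ := H
    rcases List.mem_cons.1 hv with rfl | hv
    · rw [Nat.ble_eq] at h1
      simp only [Nat.add_eq, Nat.mul_eq] at h1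
      exact h1
    · exact vck_mem h2 v hv

theorem vck_real {κ : ℝ} (hκ : 0 < κ) {kS lam mu : ℕ} (hkS : (kS : ℝ) ≤ κ * 1099511627776)
    (hml : mu ≤ lam) {js : List (ℕ × ℕ × ℕ)} {V : List (ℕ × ℕ)} (H : vck kS lam mu js V = true)
    {v : ℕ × ℕ} (hv : v ∈ V) : hz κ js ((v.2 : ℝ) / 100000) ≤
      (lam : ℝ) / 100000 * ((v.1 : ℝ) / 100000) - (mu : ℝ) / 100000 * ac1 ((v.1 : ℝ) / 100000) := by
  have h1 := vck_mem H v hv
  have h2 := hz_gsm hκ v.2 js
  have rm : (mu : ℝ) ≤ lam := by exact_mod_cast hml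
  have rm0 : (0 : ℝ) ≤ mu := Nat.cast_nonneg _
  have rk0 : (0 : ℝ) ≤ kS := Nat.cast_nonneg _
  have rv0 : (0 : ℝ) ≤ (v.1 : ℝ) := Nat.cast_nonneg _
  set mn : ℝ := min (2 * (v.1 : ℝ)) (200000 + v.1) with hmn
  have h1' : 2 * (gsm v.2 js : ℝ) + kS * mu * mn ≤ 2 * kS * lam * v.1 := by
    have : (((2 * gsm v.2 js + kS * mu * min (2 * v.1) (200000 + v.1) : ℕ)) : ℝ) ≤
        ((2 * kS * lam * v.1 : ℕ) : ℝ) := Nat.cast_le.2 h1
    push_cast at this
    exact this
  have hac : ac1 ((v.1 : ℝ) / 100000) = mn / 200000 := by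
    unfold ac1
    rw [hmn, ← min_div_div_right (show (0 : ℝ) ≤ 200000 by norm_num)]
    congr 1
    · ring
    · ring
  rw [hac]
  have hb : 0 ≤ 2 * (lam : ℝ) * v.1 - mu * mn := by
    have k1 : mn ≤ 2 * (v.1 : ℝ) := min_le_left _ _
    have k2 := mul_le_mul_of_nonneg_left k1 rm0
    have k3 := mul_le_mul_of_nonneg_right rm rv0
    linarith
  have k4 := mul_le_mul_of_nonneg_right hkS hb
  have k5 : 2 * (hz κ js ((v.2 : ℝ) / 100000) * (10995116277760000000000 * κ)) ≤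
      κ * 1099511627776 * (2 * (lam : ℝ) * v.1 - mu * mn) := by
    rw [h2]
    linarith
  have hpos : 0 < κ * 21990232555520000000000 := by positivity
  refine le_of_mul_le_mul_right ?_ hpos
  have e1 : ((lam : ℝ) / 100000 * ((v.1 : ℝ) / 100000) - (mu : ℝ) / 100000 * (mn / 200000)) *
      (κ * 21990232555520000000000) = κ * 1099511627776 * (2 * (lam : ℝ) * v.1 - mu * mn) := by ring
  rw [e1]
  linarith

theorem vnOk_get : ∀ {V : List (ℚ × ℚ)} {U : List (ℕ × ℕ)}, vnOk V U = true → ∀ p ∈ V, ∃ n ∈ U,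
    (n.1 : ℝ) ≤ p.1 * 100000 ∧ (p.2 : ℝ) * 100000 ≤ n.2
  | [], _, _, p, hp => by simp at hp
  | _ :: _, [], H, _, _ => by simp [vnOk] at H
  | q :: V, n :: U, H, p, hp => by
    rw [vnOk, Bool.and_eq_true] at H
    obtain ⟨h1, h2⟩ := H
    rcases List.mem_cons.1 hp with rfl | hp
    · obtain ⟨k1, k2⟩ := of_decide_eq_true h1
      exact ⟨n, List.mem_cons_self, by exact_mod_cast k1, by exact_mod_cast k2⟩
    · obtain ⟨m, hm, k⟩ := vnOk_get h2 p hp
      exact ⟨m, List.mem_cons_of_mem _ hm, k⟩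

/-- monotonicity of the bound in `φ` -/
theorem lmono {lam mu : ℝ} (rm : 0 ≤ mu) (rl : mu ≤ lam) {x y : ℝ} (hxy : x ≤ y) :
    lam * x - mu * ac1 x ≤ lam * y - mu * ac1 y := by
  have e1 : ac1 y ≤ ac1 x + (y - x) := by
    unfold ac1
    rcases min_choice x (1 + x / 2) with h | h
    · rw [h]
      exact (min_le_left _ _).trans (by linarith)
    · rw [h]
      exact (min_le_right _ _).trans (by linarith)
  have e2 := mul_le_mul_of_nonneg_left e1 rm
  have e3 := mul_le_mul_of_nonneg_right rl (show 0 ≤ y - x by linarith)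
  nlinarith

/-- the conditions on the numbers -/
theorem rowN_split {p : ParN} {V : List (ℕ × ℕ)} {w0 w d0 : ℕ} {t : RowN}
    (h : rowN p V w0 w d0 t = true) :
    t.d ≤ p.XN ∧ 1 ≤ t.l ∧ t.l ≤ 1500000 ∧ t.mu ≤ t.lam ∧ 1 ≤ p.AD - t.d ∧
    (1256638 - (p.AD - t.d)) * 1099511627776 ≤ (p.AD - t.d) * xL t.lG ∧
    (p.R4 * (p.XN - w0) * t.l + p.kU * 10000000000) *
      (p.c1 * t.lG * (p.AD - t.d) * (1256638 - (p.AD - t.d)) +
        p.c2 * 10000000000 * (1256638 - 2 * (p.AD - t.d)) +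
        p.KS * (p.XN - w0) * (p.AD - t.d) * (1256638 - (p.AD - t.d))) <
      12089258196146291747061760000000000 * t.l * (p.AD - t.d) * (1256638 - (p.AD - t.d)) ∧
    p.NF * (fld p.FK p.KI p.NN (Nat.add (Nat.div (Nat.mul p.A1 (xU t.l)) 100000) 1) t.js).1 *
      10995116277760000000000 +
      (fld p.FK p.KI p.NN (Nat.add (Nat.div (Nat.mul p.A1 (xU t.l)) 100000) 1) t.js).2 +
      t.lam * w * 1329227995784915872903807060280344576 <
      Z + t.mu * d0 * 1329227995784915872903807060280344576 ∧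
    vck p.kS t.lam t.mu t.js V = true := by
  simp only [rowN, Bool.and_eq_true, Nat.ble_eq, Nat.blt_eq, Nat.add_eq, Nat.mul_eq, Nat.sub_eq] at h
  obtain ⟨⟨⟨⟨⟨⟨⟨⟨h1, h2⟩, h3⟩, h4⟩, h5⟩, h6⟩, h7⟩, h8⟩, h9⟩ := h
  exact ⟨h1, h2, h3, h4, h5, h6, h7, h8, h9⟩

/-- the meaning of `parN` -/
structure PR (p : Par) (n : ParN) : Prop where
  kS : (n.kS : ℝ) ≤ p.κ * 1099511627776
  kU : (p.κ : ℝ) * 1099511627776 ≤ n.kU
  KI : (1099511627776 : ℝ) ≤ p.κ * n.KI
  FK : (p.F : ℝ) * 1099511627776 ≤ p.κ * n.FK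
  NF : ((p.N : ℝ) + p.F / p.b) * 1099511627776 ≤ p.κ * n.NF
  A1 : (p.a1 : ℝ) * 100000 = n.A1
  NN : (n.NN : ℝ) ≤ p.N * 100000
  XN : (p.X : ℝ) * 100000 = n.XN
  AD : ((p.a1 : ℝ) - p.D) * 100000 = n.AD
  R4 : 4 * (p.ρ : ℝ) * 1099511627776 ≤ n.R4
  KS : (p.K : ℝ) * 1099511627776 ≤ n.KS
  c1 : (1 + (p.cG : ℝ) / (8 * 3.141592 ^ 2)) / (4 * 3.141592) * 1099511627776 ≤ n.c1
  c2 : (p.cG : ℝ) / (16 * 3.141592 ^ 2) * 1099511627776 ≤ n.c2

theorem parN_real {p : Par} {n : ParN} (h : parN p n = true) : PR p n := by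
  obtain ⟨h1, h2, h3, h4, h5, h6, h7, h8, h9, h10, h11, h12, h13⟩ := of_decide_eq_true h
  refine ⟨by exact_mod_cast h1, by exact_mod_cast h2, by exact_mod_cast h3, by exact_mod_cast h4,
    by exact_mod_cast h5, by exact_mod_cast h6, by exact_mod_cast h7, by exact_mod_cast h8,
    by exact_mod_cast h9, by exact_mod_cast h10, by exact_mod_cast h11, ?_, ?_⟩
  · have := (Rat.cast_le (K := ℝ)).2 h12
    push_cast at this
    exact this
  · have := (Rat.cast_le (K := ℝ)).2 h13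
    push_cast at this
    exact this

/-- the core certificate from one cell, on a finite measure space -/
theorem rowN_core {Ω : Type*} [MeasurableSpace Ω] {μ : Measure Ω} [IsFiniteMeasure μ] {p : Par}
    {n : ParN} {V : List (ℚ × ℚ)} {U : List (ℕ × ℕ)} {W2 w0 w d0 : ℕ} {t : RowN}
    (hp : parOk p = true) (R : PR p n) (hV : vnOk V U = true) (hW2 : w2 V * 100000 ≤ W2)
    (h : rowN n ((200000, W2) :: U) w0 w d0 t = true) {W φo eo : Ω → ℝ}
    (hW : Integrable W μ) (hWN : ∀ᵐ o ∂μ, W o ≤ p.N) (hφ : Integrable φo μ) (he : Integrable eo μ)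
    (hX : ∫ o, φo o ∂μ ≤ (w : ℝ) / 100000) (hd : (d0 : ℝ) / 100000 ≤ ∫ o, eo o ∂μ)
    (hB : ∀ᵐ o ∂μ, (W o = 0 ∧ φo o = 0 ∧ eo o = 0) ∨ (Below V (φo o) (W o) ∧ eo o = ac1 (φo o)))
    {B' : ℝ}
    (hNB : (p.N : ℝ) ≤ B') (hfB : (p.F : ℝ) / p.b ≤ B') :
    ∃ m : ℝ → ℝ, HwD (fun a => p.κ * a) (p.a1 * Real.exp ((t.l : ℝ) / 100000)) B' m p.b p.F ∧
      ∀ S : Set Ω, ∫ o in S, W o ∂μ ≤ m (μ.real S) := by
  obtain ⟨q1, q2, q3, q4, q5, q6, q7, q8, q9, q10, q11, q12, q13, q14, q15⟩ := of_decide_eq_true hp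
  obtain ⟨k1, k2, k3, k4, k5, k6, k7, k8, k9⟩ := rowN_split h
  have r1 : (0 : ℝ) < p.κ := by exact_mod_cast q1
  have r2 : (0 : ℝ) < p.a1 := by exact_mod_cast q6
  have r3 : (0 : ℝ) < p.b := by exact_mod_cast q9
  have r4 : (0 : ℝ) ≤ p.F := by exact_mod_cast q11
  have r5 : (0 : ℝ) < p.N := by exact_mod_cast q12
  have r7 : (0 : ℝ) ≤ (t.mu : ℝ) / 100000 := by positivity
  have r67 : (t.mu : ℝ) / 100000 ≤ (t.lam : ℝ) / 100000 := by
    have : (t.mu : ℝ) ≤ t.lam := by exact_mod_cast k4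
    exact div_le_div_of_nonneg_right this (by norm_num)
  have r6 : (0 : ℝ) ≤ (t.lam : ℝ) / 100000 := by positivity
  set Bt : ℕ := Nat.add (Nat.div (Nat.mul n.A1 (xU t.l)) 100000) 1 with hBt
  have hBt0 : 0 < Bt := Nat.succ_pos _
  have hBte : (p.a1 : ℝ) * Real.exp ((t.l : ℝ) / 100000) ≤ (Bt : ℝ) / 1099511627776 := by
    have a1 := VTB.div_lt_nat (n.A1 * xU t.l) 100000 (by norm_num)
    have a2 : ((n.A1 * xU t.l : ℕ) : ℝ) / ((100000 : ℕ) : ℝ) ≤ (Bt : ℝ) := a1
    have a3 := le_xU (n := t.l) (by omega)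
    have a4 : (0 : ℝ) ≤ n.A1 := Nat.cast_nonneg _
    have a5 := mul_le_mul_of_nonneg_left a3 a4
    rw [le_div_iff₀ (by norm_num)]
    refine le_trans ?_ a2
    rw [Nat.cast_mul, le_div_iff₀ (by norm_num)]
    refine le_trans (le_of_eq ?_) a5
    rw [← R.A1]
    push_cast
    ring
  set S0 : ℕ := (fld n.FK n.KI n.NN Bt t.js).2 with hS0
  set B0 : ℕ := (fld n.FK n.KI n.NN Bt t.js).1 with hB0
  -- the budget
  have heφ : ∫ o, eo o ∂μ ≤ ∫ o, φo o ∂μ := by
    refine integral_mono_ae he hφ ?_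
    filter_upwards [hB] with o ho
    rcases ho with ⟨-, h2, h3⟩ | ⟨-, h3⟩
    · rw [h2, h3]
    · rw [h3]
      exact ac1_le _
  have hdw : (d0 : ℝ) ≤ w := by
    have : (d0 : ℝ) / 100000 ≤ (w : ℝ) / 100000 := hd.trans (heφ.trans hX)
    rw [div_le_div_iff_of_pos_right (by norm_num)] at this
    exact this
  have hmd : (t.mu : ℝ) * d0 ≤ t.lam * w := by
    have : (t.mu : ℝ) ≤ t.lam := by exact_mod_cast k4
    exact mul_le_mul this hdw (Nat.cast_nonneg _) (Nat.cast_nonneg _)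
  have hmd' : t.mu * d0 ≤ t.lam * w := by exact_mod_cast hmd
  have hlt : S0 < Z := by
    have h1 := Nat.mul_le_mul_right 1329227995784915872903807060280344576 hmd'
    have h2 : S0 + t.lam * w * 1329227995784915872903807060280344576 <
        Z + t.mu * d0 * 1329227995784915872903807060280344576 :=
      lt_of_le_of_lt (Nat.add_le_add_right (Nat.le_add_left _ _) _) k8
    have h3 : S0 + t.lam * w * 1329227995784915872903807060280344576 <
        Z + t.lam * w * 1329227995784915872903807060280344576 :=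
      lt_of_lt_of_le h2 (Nat.add_le_add_left h1 _)
    exact Nat.lt_of_add_lt_add_right h3
  have hZ : ((Z : ℕ) : ℝ) = 13292279957849158729038070602803445760000000000 := by
    unfold Z
    norm_num
  have Z0 : (0 : ℝ) < ((Z : ℕ) : ℝ) := by rw [hZ]; norm_num
  have hsum := sum_nt (f := (p.F : ℝ)) r1 r4 R.FK R.KI hBt0 t.js hlt
  have hget := get_fld t.js hlt
  have hB00 : 0 < B0 := fld_pos hBt0 t.js
  have hnf : ((p.N : ℝ) + p.F / p.b) / p.κ ≤ n.NF / 1099511627776 := by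
    rw [div_le_div_iff₀ r1 (by norm_num)]
    linarith [R.NF]
  have hnum : ((p.N : ℝ) + p.F / p.b) / p.κ * bf n.FK n.KI n.NN Bt t.js 0 +
      (∑ j ∈ Finset.range t.js.length, nt p.κ p.F (bf n.FK n.KI n.NN Bt t.js j)
        (bf n.FK n.KI n.NN Bt t.js (j + 1)) (xf t.js j) (sf t.js j)) +
      1 * ((t.lam : ℝ) / 100000 * ((w : ℝ) / 100000) - (t.mu : ℝ) / 100000 * ((d0 : ℝ) / 100000)) < 1 := by
    have b0 : bf n.FK n.KI n.NN Bt t.js 0 = (B0 : ℝ) / 1099511627776 := rfl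
    have h1 : ((p.N : ℝ) + p.F / p.b) / p.κ * bf n.FK n.KI n.NN Bt t.js 0 ≤
        n.NF / 1099511627776 * ((B0 : ℝ) / 1099511627776) := by
      rw [b0]
      exact mul_le_mul_of_nonneg_right hnf (by positivity)
    have h2 : (((n.NF * B0 * 10995116277760000000000 + S0 +
        t.lam * w * 1329227995784915872903807060280344576 : ℕ)) : ℝ) <
        (((Z + t.mu * d0 * 1329227995784915872903807060280344576 : ℕ)) : ℝ) := Nat.cast_lt.2 k8
    rw [Nat.cast_add, Nat.cast_add, Nat.cast_add] at h2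
    have e1 : ((n.NF * B0 * 10995116277760000000000 : ℕ) : ℝ) =
        (n.NF : ℝ) / 1099511627776 * ((B0 : ℝ) / 1099511627776) * Z := by
      rw [hZ]; push_cast; ring
    have e2 : ((t.lam * w * 1329227995784915872903807060280344576 : ℕ) : ℝ) =
        (t.lam : ℝ) / 100000 * ((w : ℝ) / 100000) * Z := by rw [hZ]; push_cast; ring
    have e3 : ((t.mu * d0 * 1329227995784915872903807060280344576 : ℕ) : ℝ) =
        (t.mu : ℝ) / 100000 * ((d0 : ℝ) / 100000) * Z := by rw [hZ]; push_cast; ring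
    rw [e1, e2, e3] at h2
    have h3 := mul_le_mul_of_nonneg_right h1 Z0.le
    refine lt_of_mul_lt_mul_right ?_ Z0.le
    rw [one_mul, one_mul]
    linarith
  have hint : Integrable (fun o => (t.lam : ℝ) / 100000 * φo o - (t.mu : ℝ) / 100000 * eo o) μ :=
    (hφ.const_mul _).sub (he.const_mul _)
  have hI : ∫ o, ((t.lam : ℝ) / 100000 * φo o - (t.mu : ℝ) / 100000 * eo o) ∂μ ≤
      (t.lam : ℝ) / 100000 * ((w : ℝ) / 100000) - (t.mu : ℝ) / 100000 * ((d0 : ℝ) / 100000) := by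
    rw [integral_sub (hφ.const_mul _) (he.const_mul _), integral_const_mul, integral_const_mul]
    have k1 := mul_le_mul_of_nonneg_left hX r6
    have k2 := mul_le_mul_of_nonneg_left hd r7
    linarith
  -- the pointwise inequality
  have hpw : ∀ φ W' : ℝ, Below V φ W' → hz p.κ t.js W' ≤
      (t.lam : ℝ) / 100000 * φ - (t.mu : ℝ) / 100000 * ac1 φ := by
    intro φ W' hb
    have hzm : ∀ {a b : ℝ}, a ≤ b → hz p.κ t.js a ≤ hz p.κ t.js b := fun {a b} hab => by
      have := hz_conv r1 t.js a b b 0 le_rfl zero_le_one (by linarith)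
      linarith
    refine below2 (hz_conv r1 t.js) r7 r67 (fun v hv => ?_) ?_ hb
    · obtain ⟨u, hu, h1, h2⟩ := vnOk_get hV v hv
      have h3 := vck_real r1 R.kS k4 k9 (List.mem_cons_of_mem _ hu)
      have h4 : (v.2 : ℝ) ≤ (u.2 : ℝ) / 100000 := by
        rw [le_div_iff₀ (by norm_num)]
        exact h2
      have h5 : (u.1 : ℝ) / 100000 ≤ v.1 := by
        rw [div_le_iff₀ (by norm_num)]
        exact h1
      exact (hzm h4).trans (h3.trans (lmono r7 r67 h5))
    · have h3 := vck_real r1 R.kS k4 k9 List.mem_cons_self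
      have h4 : ((w2 V : ℚ) : ℝ) ≤ (W2 : ℝ) / 100000 := by
        rw [le_div_iff₀ (by norm_num)]
        exact_mod_cast hW2
      have e2 : (((200000, W2) : ℕ × ℕ).1 : ℝ) / 100000 = 2 := by
        push_cast
        norm_num
      have e3 : ac1 2 = 2 := min_eq_left (by norm_num)
      rw [e2, e3] at h3
      refine (hzm h4).trans (h3.trans (le_of_eq ?_))
      ring
  have hz0 : ∀ js : List (ℕ × ℕ × ℕ), hz p.κ js 0 = 0 := by
    intro js
    induction js with
    | nil => rfl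
    | cons h js ih =>
      rw [hz, ih, max_eq_right, mul_zero, add_zero]
      have : (0 : ℝ) ≤ (h.2.2 : ℝ) / 100000 := by positivity
      linarith
  have key := hct_main (μ := μ) (W := W)
    (φo := fun o => (t.lam : ℝ) / 100000 * φo o - (t.mu : ℝ) / 100000 * eo o) (N := p.N)
    (X := (t.lam : ℝ) / 100000 * ((w : ℝ) / 100000) - (t.mu : ℝ) / 100000 * ((d0 : ℝ) / 100000))
    (κ := p.κ) (lam := 1)
    (b := p.b) (f := p.F) (B' := B') r1 r5.le hW hWN hint hI zero_le_one r3 r4 hNB hfB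
    (J := t.js.length)
    (β := bf n.FK n.KI n.NN Bt t.js) (x := xf t.js) (s := sf t.js) ?_ (fun j hj => (hget j hj).1)
    (fun j hj => ⟨(hget j hj).2.1, (hget j hj).2.2.trans ?_⟩) ?_ hnum
  · obtain ⟨m, hm, hq⟩ := key
    refine ⟨m, hm.mono_V (hBte.trans (le_of_eq ?_)), hq⟩
    unfold bf
    rw [List.drop_length, fld_nil]
  · have : (0 : ℝ) < (B0 : ℝ) / 1099511627776 := by positivity
    exact this
  · rw [div_le_iff₀ (by norm_num)]
    exact R.NN
  · filter_upwards [hB] with o ho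
    refine (sum_hz r1 hBt0 (W o) t.js hlt).trans ?_
    rw [one_mul]
    rcases ho with ⟨h1, h2, h3⟩ | ⟨ho, ho'⟩
    · rw [h1, h2, h3, hz0]
      simp
    · rw [ho']
      exact hpw _ _ ho

/-! ### the numbers of the outer region -/

theorem imG_le_real {c α lG : ℝ} (rc : 0 ≤ c) (ra : 0 < α) (ra2 : α ≤ 157 / 25) (hl0 : 0 ≤ lG)
    (hL : Real.log ((4 * 3.141593 - α) / α) ≤ lG) : imG c α ≤
    (1 + c / (8 * 3.141592 ^ 2)) * (lG / (4 * 3.141592)) +
      c / (16 * 3.141592 ^ 2) * (α⁻¹ - (4 * 3.141593 - α)⁻¹) := by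
  have hpi := Real.pi_pos
  have p1 : (3.141592 : ℝ) < Real.pi := Real.pi_gt_d6
  have p2 : Real.pi < (3.141593 : ℝ) := Real.pi_lt_d6
  have h1 : Real.log (4 * Real.pi - α) - Real.log α ≤ lG := by
    refine le_trans ?_ hL
    rw [Real.log_div (by linarith) ra.ne']
    have : Real.log (4 * Real.pi - α) ≤ Real.log (4 * 3.141593 - α) :=
      Real.log_le_log (by linarith) (by linarith)
    linarith
  have h2 : imL α ≤ lG / (4 * 3.141592) := by
    unfold imL
    have e1 : (1 / (4 * Real.pi)) * (Real.log (4 * Real.pi - α) - Real.log α) ≤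
        (1 / (4 * Real.pi)) * lG := mul_le_mul_of_nonneg_left h1 (by positivity)
    have e2 : (1 / (4 * Real.pi)) * lG ≤ (1 / (4 * 3.141592)) * lG := by
      refine mul_le_mul_of_nonneg_right ?_ hl0
      exact one_div_le_one_div_of_le (by norm_num) (by linarith)
    have e3 : (1 / (4 * 3.141592)) * lG = lG / (4 * 3.141592) := by ring
    linarith
  have h3 : (1 : ℝ) + c / (8 * Real.pi ^ 2) ≤ 1 + c / (8 * 3.141592 ^ 2) := by
    have : c / (8 * Real.pi ^ 2) ≤ c / (8 * 3.141592 ^ 2) := by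
      refine div_le_div_of_nonneg_left rc (by norm_num) ?_
      have := pow_le_pow_left₀ (by norm_num) p1.le 2
      linarith
    linarith
  have h4 : (1 + c / (8 * Real.pi ^ 2)) * imL α ≤
      (1 + c / (8 * 3.141592 ^ 2)) * (lG / (4 * 3.141592)) := by
    have e1 : (1 + c / (8 * Real.pi ^ 2)) * imL α ≤
        (1 + c / (8 * Real.pi ^ 2)) * (lG / (4 * 3.141592)) :=
      mul_le_mul_of_nonneg_left h2 (by positivity)
    have e2 : (1 + c / (8 * Real.pi ^ 2)) * (lG / (4 * 3.141592)) ≤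
        (1 + c / (8 * 3.141592 ^ 2)) * (lG / (4 * 3.141592)) :=
      mul_le_mul_of_nonneg_right h3 (by positivity)
    linarith
  have h5 : α⁻¹ - (4 * Real.pi - α)⁻¹ ≤ α⁻¹ - (4 * 3.141593 - α)⁻¹ := by
    have : (4 * 3.141593 - α)⁻¹ ≤ (4 * Real.pi - α)⁻¹ :=
      inv_anti₀ (by linarith) (by linarith)
    linarith
  have h6 : (0 : ℝ) ≤ α⁻¹ - (4 * 3.141593 - α)⁻¹ := by
    have : (4 * 3.141593 - α)⁻¹ ≤ α⁻¹ := inv_anti₀ ra (by linarith)
    linarith
  have h7 : c / (16 * Real.pi ^ 2) * (α⁻¹ - (4 * Real.pi - α)⁻¹) ≤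
      c / (16 * 3.141592 ^ 2) * (α⁻¹ - (4 * 3.141593 - α)⁻¹) := by
    have e1 := mul_le_mul_of_nonneg_left h5 (show (0 : ℝ) ≤ c / (16 * Real.pi ^ 2) by positivity)
    have e2 : c / (16 * Real.pi ^ 2) ≤ c / (16 * 3.141592 ^ 2) := by
      refine div_le_div_of_nonneg_left rc (by norm_num) ?_
      have := pow_le_pow_left₀ (by norm_num) p1.le 2
      linarith
    exact e1.trans (mul_le_mul_of_nonneg_right e2 h6)
  unfold imG
  linarith

theorem rowN_prod {p : Par} {n : ParN} {V : List (ℕ × ℕ)} {w0 w d0 : ℕ} {t : RowN}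
    (hp : parOk p = true) (R : PR p n) (hw0 : w0 ≤ n.XN) (h : rowN n V w0 w d0 t = true) :
    (0 : ℝ) < (t.l : ℝ) / 100000 ∧ (t.d : ℝ) / 100000 ≤ p.X ∧
    (4 * (p.ρ : ℝ) * (p.X - (w0 : ℝ) / 100000) + p.κ / ((t.l : ℝ) / 100000)) *
      (imG p.cG (p.a1 - p.D - (t.d : ℝ) / 100000) + p.K * (p.X - (w0 : ℝ) / 100000)) < 1 := by
  obtain ⟨q1, q2, q3, q4, q5, q6, q7, q8, q9, q10, q11, q12, q13, q14, q15⟩ := of_decide_eq_true hp
  obtain ⟨k1, k2, k3, k4, k5, k6, k7, k8, k9⟩ := rowN_split h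
  have r1 : (0 : ℝ) < p.κ := by exact_mod_cast q1
  have rρ : (0 : ℝ) ≤ p.ρ := by exact_mod_cast q2
  have rK : (0 : ℝ) < p.K := by exact_mod_cast q4
  have rc : (0 : ℝ) < p.cG := by exact_mod_cast q5
  have r8 : (p.a1 : ℝ) - p.D ≤ 157 / 25 := by
    have : ((157 / 25 : ℚ) : ℝ) = 157 / 25 := by push_cast; ring
    rw [← this]
    exact_mod_cast q8
  have hAD : n.AD ≤ 628000 := by
    have h1 : (n.AD : ℝ) ≤ 628000 := by
      rw [← R.AD]
      linarith
    exact_mod_cast h1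
  set al : ℕ := n.AD - t.d with hal
  set qa : ℕ := 1256638 - al with hqa
  set xw : ℕ := n.XN - w0 with hxw
  have al1 : 1 ≤ al := k5
  have al2 : al ≤ 628000 := (Nat.sub_le _ _).trans hAD
  have cal : (al : ℝ) = n.AD - t.d := by
    rw [hal, Nat.cast_sub (by omega)]
  have cqa : (qa : ℝ) = 1256638 - al := by
    rw [hqa, Nat.cast_sub (by omega)]
    norm_num
  have cxw : (xw : ℝ) = n.XN - w0 := by
    rw [hxw, Nat.cast_sub hw0]
  have c2al : ((1256638 - 2 * al : ℕ) : ℝ) = 1256638 - 2 * al := by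
    rw [Nat.cast_sub (by omega)]
    push_cast
    ring
  have ral : (1 : ℝ) ≤ al := by exact_mod_cast al1
  have ral2 : (al : ℝ) ≤ 628000 := by exact_mod_cast al2
  have rqa : (0 : ℝ) < qa := by rw [cqa]; linarith
  have rl : (1 : ℝ) ≤ t.l := by exact_mod_cast k2
  have rl0 : (0 : ℝ) < (t.l : ℝ) / 100000 := by positivity
  have rxw : (0 : ℝ) ≤ xw := Nat.cast_nonneg _
  have eX : (p.X : ℝ) - (w0 : ℝ) / 100000 = (xw : ℝ) / 100000 := by
    rw [cxw, ← R.XN]
    ring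
  have eα : (p.a1 : ℝ) - p.D - (t.d : ℝ) / 100000 = (al : ℝ) / 100000 := by
    rw [cal, ← R.AD]
    ring
  have hdX : (t.d : ℝ) / 100000 ≤ p.X := by
    have : (t.d : ℝ) ≤ n.XN := by exact_mod_cast k1
    rw [div_le_iff₀ (by norm_num), R.XN]
    exact this
  refine ⟨rl0, hdX, ?_⟩
  rw [eX, eα]
  -- the logarithm
  have hlog : Real.log ((4 * 3.141593 - (al : ℝ) / 100000) / ((al : ℝ) / 100000)) ≤
      (t.lG : ℝ) / 100000 := by
    have h1 : (0 : ℝ) < 4 * 3.141593 - (al : ℝ) / 100000 := by linarith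
    rw [Real.log_le_iff_le_exp (by positivity), div_le_iff₀ (by positivity)]
    have h2 : ((qa * 1099511627776 : ℕ) : ℝ) ≤ ((al * xL t.lG : ℕ) : ℝ) := Nat.cast_le.2 k6
    push_cast at h2
    have h3 := mul_le_mul_of_nonneg_left (xL_le t.lG) (show (0 : ℝ) ≤ al by linarith)
    have h4 : (qa : ℝ) * 1099511627776 ≤
        (Real.exp ((t.lG : ℝ) / 100000) * al) * 1099511627776 := by linarith
    have h5 := le_of_mul_le_mul_right h4 (by norm_num)
    have h6 : 4 * 3.141593 - (al : ℝ) / 100000 ≤ (qa : ℝ) / 100000 := by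
      rw [cqa]
      linarith
    refine h6.trans ?_
    rw [mul_div_assoc']
    exact div_le_div_of_nonneg_right h5 (by norm_num)
  have hG := imG_le_real (c := p.cG) (α := (al : ℝ) / 100000) rc.le (by positivity) (by linarith)
    (by positivity) hlog
  have hG2 : imG p.cG ((al : ℝ) / 100000) ≤
      (n.c1 : ℝ) / 1099511627776 * ((t.lG : ℝ) / 100000) +
        (n.c2 : ℝ) / 1099511627776 * (100000 / al - 100000 / qa) := by
    refine hG.trans (add_le_add ?_ ?_)
    · have h1 : (1 + (p.cG : ℝ) / (8 * 3.141592 ^ 2)) / (4 * 3.141592) ≤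
          (n.c1 : ℝ) / 1099511627776 := by
        rw [le_div_iff₀ (by norm_num)]
        exact R.c1
      have h2 := mul_le_mul_of_nonneg_right h1 (show (0 : ℝ) ≤ (t.lG : ℝ) / 100000 by positivity)
      refine le_trans (le_of_eq ?_) h2
      ring
    · have h1 : (p.cG : ℝ) / (16 * 3.141592 ^ 2) ≤ (n.c2 : ℝ) / 1099511627776 := by
        rw [le_div_iff₀ (by norm_num)]
        exact R.c2
      have h2 : ((al : ℝ) / 100000)⁻¹ - (4 * 3.141593 - (al : ℝ) / 100000)⁻¹ ≤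
          100000 / al - 100000 / qa := by
        have h3 : (100000 : ℝ) / qa ≤ (4 * 3.141593 - (al : ℝ) / 100000)⁻¹ := by
          rw [← one_div, div_le_div_iff₀ rqa (by linarith), cqa]
          linarith
        rw [inv_div]
        linarith
      have h3 : (0 : ℝ) ≤ 100000 / al - 100000 / qa := by
        rw [sub_nonneg]
        refine div_le_div_of_nonneg_left (by norm_num) (by linarith) ?_
        rw [cqa]
        linarith
      have hc0 : (0 : ℝ) ≤ (p.cG : ℝ) / (16 * 3.141592 ^ 2) := by positivity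
      exact (mul_le_mul_of_nonneg_left h2 hc0).trans (mul_le_mul_of_nonneg_right h1 h3)
  -- the product
  have h7 : (((n.R4 * xw * t.l + n.kU * 10000000000) * (n.c1 * t.lG * al * qa +
      n.c2 * 10000000000 * (1256638 - 2 * al) + n.KS * xw * al * qa) : ℕ) : ℝ) <
      ((12089258196146291747061760000000000 * t.l * al * qa : ℕ) : ℝ) := Nat.cast_lt.2 k7
  rw [Nat.cast_mul, Nat.cast_add, Nat.cast_add, Nat.cast_add] at h7
  have e1 : ((n.c2 * 10000000000 * (1256638 - 2 * al) : ℕ) : ℝ) =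
      (n.c2 : ℝ) * 10000000000 * (1256638 - 2 * al) := by
    rw [Nat.cast_mul, c2al]
    push_cast
    ring
  rw [e1] at h7
  set A : ℝ := ((n.R4 * xw * t.l : ℕ) : ℝ) + ((n.kU * 10000000000 : ℕ) : ℝ) with hA
  set G : ℝ := ((n.c1 * t.lG * al * qa : ℕ) : ℝ) + (n.c2 : ℝ) * 10000000000 * (1256638 - 2 * al) +
    ((n.KS * xw * al * qa : ℕ) : ℝ) with hGd
  have D1 : (0 : ℝ) < 1099511627776 * 100000 * t.l := by positivity
  have D2 : (0 : ℝ) < 1099511627776 * 100000 * (al * qa) := by positivity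
  have hX1 : 4 * (p.ρ : ℝ) * ((xw : ℝ) / 100000) + p.κ / ((t.l : ℝ) / 100000) ≤
      A / (1099511627776 * 100000 * t.l) := by
    have h1 : 4 * (p.ρ : ℝ) * ((xw : ℝ) / 100000) ≤ n.R4 / 1099511627776 * ((xw : ℝ) / 100000) := by
      refine mul_le_mul_of_nonneg_right ?_ (by positivity)
      rw [le_div_iff₀ (by norm_num)]
      exact R.R4
    have h2 : (p.κ : ℝ) / ((t.l : ℝ) / 100000) ≤ n.kU / 1099511627776 / ((t.l : ℝ) / 100000) := by
      refine div_le_div_of_nonneg_right ?_ rl0.le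
      rw [le_div_iff₀ (by norm_num)]
      exact R.kU
    refine (add_le_add h1 h2).trans (le_of_eq ?_)
    rw [hA]
    push_cast
    field_simp
    ring
  have hX2 : imG p.cG ((al : ℝ) / 100000) + p.K * ((xw : ℝ) / 100000) ≤
      G / (1099511627776 * 100000 * (al * qa)) := by
    have h1 : (p.K : ℝ) * ((xw : ℝ) / 100000) ≤ n.KS / 1099511627776 * ((xw : ℝ) / 100000) := by
      refine mul_le_mul_of_nonneg_right ?_ (by positivity)
      rw [le_div_iff₀ (by norm_num)]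
      exact R.KS
    refine (add_le_add hG2 h1).trans (le_of_eq ?_)
    have e3 : (1256638 : ℝ) - 2 * al = qa - al := by rw [cqa]; ring
    rw [hGd, e3]
    push_cast
    field_simp
    ring
  have hX10 : 0 ≤ 4 * (p.ρ : ℝ) * ((xw : ℝ) / 100000) + p.κ / ((t.l : ℝ) / 100000) := by positivity
  have hA0 : 0 ≤ A := by rw [hA]; positivity
  have hG0 : 0 ≤ G := by
    have : (0 : ℝ) ≤ 1256638 - 2 * al := by linarith
    rw [hGd]
    positivity
  have hA0' : 0 ≤ A / (1099511627776 * 100000 * t.l) := by positivity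
  have hprod : A / (1099511627776 * 100000 * t.l) * (G / (1099511627776 * 100000 * (al * qa))) < 1 := by
    rw [div_mul_div_comm, div_lt_one (by positivity)]
    refine lt_of_lt_of_le h7 (le_of_eq ?_)
    push_cast
    ring
  have hpos : 0 ≤ G / (1099511627776 * 100000 * (al * qa)) := by positivity
  rcases le_total 0 (imG p.cG ((al : ℝ) / 100000) + p.K * ((xw : ℝ) / 100000)) with hs | hs
  · exact lt_of_le_of_lt (mul_le_mul hX1 hX2 hs hA0') hprod
  · exact lt_of_le_of_lt (mul_nonpos_of_nonneg_of_nonpos hX10 hs) one_pos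

/-! ### the table -/

theorem rowsNd_ex {p : ParN} {V : List (ℕ × ℕ)} {w0 w : ℕ} : ∀ (l : List RowN) {d0 : ℕ},
    rowsNd p V w0 w d0 l = true → ∀ d : ℝ, (d0 : ℝ) / 100000 ≤ d → d ≤ (w : ℝ) / 100000 →
    ∃ (d1 : ℕ) (t : RowN), rowN p V w0 w d1 t = true ∧ (d1 : ℝ) / 100000 ≤ d ∧
      d ≤ (t.d : ℝ) / 100000
  | [], d0, h, d, h0, h1 => by simp [rowsNd] at h
  | t :: l, d0, h, d, h0, h1 => by
    rw [rowsNd, Bool.and_eq_true, Bool.or_eq_true] at h
    obtain ⟨h2, h3⟩ := h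
    rcases le_or_gt d ((t.d : ℝ) / 100000) with h4 | h4
    · exact ⟨d0, t, h2, h0, h4⟩
    · rcases h3 with h3 | h3
      · rw [Nat.ble_eq] at h3
        have h6 : (w : ℝ) / 100000 ≤ (t.d : ℝ) / 100000 :=
          div_le_div_of_nonneg_right (by exact_mod_cast h3) (by norm_num)
        linarith
      · exact rowsNd_ex l h3 d h4.le h1

theorem rowsNw_ex {p : ParN} {V : List (ℕ × ℕ)} : ∀ (l : List (ℕ × List RowN)) {w0 : ℕ},
    rowsNw p V w0 l = true → ∀ ω : ℝ, (w0 : ℝ) / 100000 ≤ ω → ω ≤ (p.XN : ℝ) / 100000 →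
    ∃ (w1 : ℕ) (t : ℕ × List RowN), w1 ≤ p.XN ∧ rowsNd p V w1 t.1 (Nat.div w1 2) t.2 = true ∧
      (w1 : ℝ) / 100000 ≤ ω ∧ ω ≤ (t.1 : ℝ) / 100000
  | [], w0, h, ω, h0, h1 => by simp [rowsNw] at h
  | t :: l, w0, h, ω, h0, h1 => by
    rw [rowsNw, Bool.and_eq_true, Bool.and_eq_true, Bool.and_eq_true, Bool.or_eq_true] at h
    obtain ⟨⟨⟨h5, -⟩, h2⟩, h3⟩ := h
    rw [Nat.ble_eq] at h5
    rcases le_or_gt ω ((t.1 : ℝ) / 100000) with h4 | h4
    · exact ⟨w0, t, h5, h2, h0, h4⟩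
    · rcases h3 with h3 | h3
      · rw [Nat.ble_eq] at h3
        have h6 : (p.XN : ℝ) / 100000 ≤ (t.1 : ℝ) / 100000 :=
          div_le_div_of_nonneg_right (by exact_mod_cast h3) (by norm_num)
        linarith
      · exact rowsNw_ex l h3 ω h4.le h1

variable {M : Type} [MetricSpace M] {γ : ℝ → M}

/-- **the certificates for all core sets from one table** -/
theorem vcore2_of_tabN (C : Calc M γ) {v : Fin 3 → M → ℝ} {f w : Om → ℝ} {p : Par} {n : ParN}
    {V : List (ℚ × ℚ)} {U : List (ℕ × ℕ)} {W2 : ℕ}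
    (hv : VDat C v f w p.X p.ρ) (hwN : ∀ᵐ o ∂C.μ, 4 * w o ≤ p.N)
    (hbel : ∀ᵐ o ∂C.μ, Below V (f o) (4 * w o)) {B : ℝ} (hNB : (p.N : ℝ) ≤ B)
    (hFB : (p.F : ℝ) / p.b ≤ B) {l : List (ℕ × List RowN)} (htab : tabN p V n U W2 l = true) :
    VCore2 C f (fun o => ac1 (f o)) w (fun a => p.κ * a) B p.ρ p.X p.K p.a1 p.D p.b p.F (imG p.cG) := by
  have := C.fin
  simp only [tabN, Bool.and_eq_true] at htab
  obtain ⟨⟨⟨⟨hp, hn⟩, hU⟩, hW2⟩, hrows⟩ := htab
  have R := parN_real hn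
  have hW2' : w2 V * 100000 ≤ W2 := of_decide_eq_true hW2
  have hN := vnum_of_par hp
  obtain ⟨q1, q2, q3, q4, q5, q6, q7, q8, q9, q10, q11, q12, q13, q14, q15⟩ := of_decide_eq_true hp
  have r1 : (0 : ℝ) < p.κ := by exact_mod_cast q1
  have ra : (0 : ℝ) < p.a1 := by exact_mod_cast q6
  have r5 : (0 : ℝ) < p.N := by exact_mod_cast q12
  have rρ : (0 : ℝ) ≤ p.ρ := by exact_mod_cast q2
  have rcG : (0 : ℝ) < p.cG := by exact_mod_cast q5
  have rX : (0 : ℝ) < (p.a1 : ℝ) - p.D - p.X := by exact_mod_cast q7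
  have r8 : (p.a1 : ℝ) - p.D ≤ 157 / 25 := by
    have : ((157 / 25 : ℚ) : ℝ) = 157 / 25 := by push_cast; ring
    rw [← this]
    exact_mod_cast q8
  have hpi : (3.141592 : ℝ) < Real.pi := Real.pi_gt_d6
  have f0 : ∀ᵐ o ∂C.μ, 0 ≤ f o := by
    filter_upwards [hv.fnu] with o ho
    exact (nuv_nonneg _ _ _).trans ho
  have hf₁ : Integrable (fun o => ac1 (f o)) C.μ := ac1_int hv.fint f0
  intro T mT hTa
  set ω := ∫ o in T, f o ∂C.μ with hω
  set d := ∫ o in T, ac1 (f o) ∂C.μ with hd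
  have h0 : 0 ≤ ω := setIntegral_nonneg_of_ae f0
  have h1 : ω ≤ p.X := (setIntegral_le_integral hv.fint f0).trans hv.fX
  have hdω : d ≤ ω := setIntegral_mono_ae hf₁.integrableOn hv.fint.integrableOn
    (ae_of_all _ fun o => ac1_le _)
  have hcd : ω / 2 ≤ d := by
    rw [hω, hd, div_eq_inv_mul, ← integral_const_mul]
    refine setIntegral_mono_ae (hv.fint.const_mul _).integrableOn hf₁.integrableOn ?_
    filter_upwards [f0] with o ho
    have := half_le_ac1 ho
    change (2 : ℝ)⁻¹ * f o ≤ ac1 (f o)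
    linarith
  have hd0 : 0 ≤ d := le_trans (by linarith) hcd
  have hXN : (n.XN : ℝ) / 100000 = p.X := by
    rw [← R.XN]
    ring
  obtain ⟨w1, tw, hw0, htw, hw1, hw2⟩ := rowsNw_ex l hrows ω (by simpa using h0) (by rw [hXN]; exact h1)
  have hdiv : ((Nat.div w1 2 : ℕ) : ℝ) / 100000 ≤ d := by
    have h3 : ((Nat.div w1 2 : ℕ) : ℝ) ≤ (w1 : ℝ) / ((2 : ℕ) : ℝ) := Nat.cast_div_le
    push_cast at h3
    have h4 : ((Nat.div w1 2 : ℕ) : ℝ) / 100000 ≤ (w1 : ℝ) / 2 / 100000 :=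
      div_le_div_of_nonneg_right h3 (by norm_num)
    have h5 : (w1 : ℝ) / 2 / 100000 = (w1 : ℝ) / 100000 / 2 := by ring
    linarith
  obtain ⟨d1, t, ht, hd1, hd2⟩ := rowsNd_ex tw.2 htw d hdiv (hdω.trans hw2)
  obtain ⟨rl, rdX, hprod⟩ := rowN_prod hp R hw0 ht
  have sK : (0 : ℝ) < p.K := by exact_mod_cast q4
  -- the core certificate
  obtain ⟨m, hD, hq⟩ := rowN_core (μ := C.μ) hp R hU hW2' ht (W := T.indicator fun o => 4 * w o)
    (φo := T.indicator f) (eo := T.indicator fun o => ac1 (f o)) ((hv.wint.const_mul 4).indicator₀ mT) (by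
      filter_upwards [hwN] with o ho
      by_cases h : o ∈ T
      · rw [indicator_of_mem h]
        exact ho
      · rw [indicator_of_notMem h]
        exact r5.le) (hv.fint.indicator₀ mT) (hf₁.indicator₀ mT) (by
      rw [integral_indicator₀ mT]
      exact hw2) (by
      rw [integral_indicator₀ mT]
      exact hd1) (by
      filter_upwards [hbel] with o ho
      by_cases h : o ∈ T
      · rw [indicator_of_mem h, indicator_of_mem h, indicator_of_mem h]
        exact Or.inr ⟨ho, rfl⟩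
      · rw [indicator_of_notMem h, indicator_of_notMem h, indicator_of_notMem h]
        exact Or.inl ⟨rfl, rfl, rfl⟩) hNB hFB
  set tl : ℝ := (t.l : ℝ) / 100000 with htl
  have hr : (0 : ℝ) < p.κ / tl := by positivity
  have hV' : (p.a1 : ℝ) * Real.exp (p.κ / (p.κ / tl)) ≤ p.a1 * Real.exp tl := by
    rw [div_div_cancel₀ r1.ne']
  have hpos : 0 < imG p.cG (p.a1 - p.D - d) + p.K * (p.X - ω) := by
    have h3 : 0 < imG p.cG (p.a1 - p.D - d) := imG_pos rcG (by linarith) (by linarith)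
    have h4 : 0 ≤ (p.K : ℝ) * (p.X - ω) := mul_nonneg sK.le (by linarith)
    linarith
  refine ⟨m, p.κ / tl, CoreD.of_hwd r1 ra hr hV' hD, ?_, hpos, ?_⟩
  · intro S mS hST
    refine le_trans (le_of_eq ?_) (hq S)
    rw [← integral_const_mul]
    refine setIntegral_congr_ae₀ mS (ae_of_all _ fun o ho => ?_)
    rw [indicator_of_mem (hST ho)]
  · have h3 : imG p.cG (p.a1 - p.D - d) ≤ imG p.cG (p.a1 - p.D - (t.d : ℝ) / 100000) :=
      hN.Ganti (by linarith) (by linarith) (by linarith)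
    have h4' : (p.K : ℝ) * (p.X - ω) ≤ p.K * (p.X - (w1 : ℝ) / 100000) :=
      mul_le_mul_of_nonneg_left (by linarith) sK.le
    have h5 : imG p.cG (p.a1 - p.D - d) + p.K * (p.X - ω) ≤
        imG p.cG (p.a1 - p.D - (t.d : ℝ) / 100000) + p.K * (p.X - (w1 : ℝ) / 100000) := by linarith
    have h6 : 4 * (p.ρ : ℝ) * (p.X - ω) + (min (4 * p.ρ * ω) (m p.a1) - m p.a1) + p.κ / tl ≤
        4 * p.ρ * (p.X - (w1 : ℝ) / 100000) + p.κ / tl := by
      have h7 := min_le_right (4 * (p.ρ : ℝ) * ω) (m p.a1)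
      have h8 : 4 * (p.ρ : ℝ) * (p.X - ω) ≤ 4 * p.ρ * (p.X - (w1 : ℝ) / 100000) :=
        mul_le_mul_of_nonneg_left (by linarith) (by positivity)
      linarith
    have s14 : (0 : ℝ) ≤ 4 * p.ρ * (p.X - (w1 : ℝ) / 100000) + p.κ / tl := by
      have : 0 ≤ 4 * (p.ρ : ℝ) * (p.X - (w1 : ℝ) / 100000) :=
        mul_nonneg (by positivity) (by linarith)
      linarith
    exact lt_of_le_of_lt (mul_le_mul_of_nonneg_right h6 hpos.le)
      (lt_of_le_of_lt (mul_le_mul_of_nonneg_left h5 s14) hprod)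

/-- both inequalities from `VCore2` (after helper99) -/
theorem hsv_of_vcore2 [CompactSpace M] (C : Calc M γ) (hγ : Bd γ) (hR : RegAE C) {v : Fin 3 → M → ℝ}
    {f w : Om → ℝ}
    {p : Par} (hv : VDat C v f w p.X p.ρ) {ε δ : ℝ} (hI : IsopO C p.κ ε) (hε : 0 ≤ ε)
    (hα : ∀ g : M → ℝ, Lip g → ∀ s, 0 ≤ s → p.a1 ≤ supa C g s →
      p.a1 - p.D - supw C g (fun o => ac1 (f o)) s ≤ supw C g (jac C v) s)
    (hp : parOk p = true)
    (hcore : VCore2 C f (fun o => ac1 (f o)) w (fun a => p.κ * a) (max (p.N : ℝ) (p.F / p.b)) p.ρ p.X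
      p.K p.a1 p.D p.b p.F (imG p.cG)) (hδ : 128 * max (p.N : ℝ) (p.F / p.b) * ε ≤ δ)
    {σ s xl xu k se : ℚ} (hcell : cellOk p σ s xl xu k se = true) {Ee : ℝ} (hse : √Ee ≤ se)
    {c k' : ℝ} (h1 : (xl : ℝ) ≤ Real.exp c)
    (h2 : Real.exp c ≤ xu) (hk : 0 ≤ k') (hk' : k' ≤ k) :
    Hv C w δ ∧ HSv C w p.κ k' (Lc Ee c) c δ ε σ := by
  have hN := vnum_of_par hp
  obtain ⟨q1, -, -, -, -, -, -, -, q9, q10, q11, -, -, -, -⟩ := of_decide_eq_true hp
  obtain ⟨t1, t2, t3, t4, t5, t6, t7⟩ := of_decide_eq_true hcell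
  have r1 : (0 : ℝ) < p.κ := by exact_mod_cast q1
  have r10 : (p.b : ℝ) ≤ p.a1 := by exact_mod_cast q10
  have r9 : (0 : ℝ) < p.b := by exact_mod_cast q9
  have r11 : (0 : ℝ) ≤ p.F := by exact_mod_cast q11
  have u1 : (0 : ℝ) < s := by exact_mod_cast t1
  have u2 : (s : ℝ) < σ := by exact_mod_cast t2
  have u3 : (1 : ℝ) < xl := by exact_mod_cast t3
  have u6 : (k : ℝ) ≤ 2 * (1 - 1 / xl) * p.F * s ^ 2 := by exact_mod_cast t6
  have u7 : (p.b : ℝ) * (8 * (se * xu + 1) ^ 2) ≤ p.κ * ((σ - s) * (1 - 1 / xl)) ^ 2 := by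
    exact_mod_cast t7
  have hx1 : 1 < Real.exp c := u3.trans_le h1
  have hc : 0 < c := by
    rw [← Real.exp_zero] at hx1
    exact Real.exp_lt_exp.1 hx1
  have hq : 1 - 1 / (xl : ℝ) ≤ 1 - Real.exp (-c) := by
    rw [Real.exp_neg, ← one_div]
    have : 1 / Real.exp c ≤ 1 / (xl : ℝ) := one_div_le_one_div_of_le (by linarith) h1
    linarith
  have hq0 : 0 ≤ 1 - 1 / (xl : ℝ) := by
    have : 1 / (xl : ℝ) ≤ 1 := by
      rw [div_le_one (by linarith)]
      exact u3.le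
    linarith
  have f0 : ∀ᵐ o ∂C.μ, 0 ≤ f o := by
    filter_upwards [hv.fnu] with o ho
    exact (nuv_nonneg _ _ _).trans ho
  refine hsv_of_core2 C hγ hR hv (LevO.of_isop hI) r1 hI hε hN r10 (ac1_int hv.fint f0)
    (by
      filter_upwards [f0] with o ho
      exact ac1_nonneg ho) (ae_of_all _ fun o => ac1_le _) hα
    hcore hδ u1 u2 hc hk ?_ ?_
  · refine (hk'.trans u6).trans ?_
    have : 2 * (1 - 1 / (xl : ℝ)) * p.F * s ^ 2 = 2 * p.F * s ^ 2 * (1 - 1 / (xl : ℝ)) := by ring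
    rw [this]
    have : 2 * (1 - Real.exp (-c)) * (p.F : ℝ) * (s : ℝ) ^ 2 =
        2 * p.F * s ^ 2 * (1 - Real.exp (-c)) := by ring
    rw [this]
    exact mul_le_mul_of_nonneg_left hq (by positivity)
  · have hs0 : 0 ≤ √Ee := Real.sqrt_nonneg _
    have hsq : (4 : ℝ) * (Lc Ee c) ^ 2 = 8 * (√Ee * Real.exp c + 1) ^ 2 := by
      unfold Lc
      rw [mul_pow, Real.sq_sqrt (by norm_num)]
      ring
    have hp0 : 0 ≤ √Ee * Real.exp c := by positivity
    rw [hsq, le_div_iff₀ (by positivity)]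
    have h30 : √Ee * Real.exp c ≤ se * xu :=
      mul_le_mul hse h2 (Real.exp_pos c).le (hs0.trans hse)
    have h3 : (√Ee * Real.exp c + 1) ^ 2 ≤ ((se : ℝ) * xu + 1) ^ 2 :=
      pow_le_pow_left₀ (by linarith) (by linarith) 2
    have h4 : (p.b : ℝ) * (8 * (√Ee * Real.exp c + 1) ^ 2) ≤ p.b * (8 * (se * xu + 1) ^ 2) :=
      mul_le_mul_of_nonneg_left (by linarith) r9.le
    have h5 : ((σ - s) * (1 - 1 / (xl : ℝ))) ^ 2 ≤ ((σ - s) * (1 - Real.exp (-c))) ^ 2 :=
      pow_le_pow_left₀ (mul_nonneg (by linarith) hq0) (mul_le_mul_of_nonneg_left hq (by linarith)) 2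
    have h6 := mul_le_mul_of_nonneg_left h5 r1.le
    linarith

/-- **the fast table gives `TabS`** -/
theorem tabS_N {p : Par} {Vc : List (ℚ × ℚ)} {n : ParN} {U : List (ℕ × ℕ)} {W2 : ℕ}
    {l : List (ℕ × List RowN)} (h : tabN p Vc n U W2 l = true)
    (σ s xl xu k se : ℚ) : TabS p Vc σ s xl xu k se := by
  intro M _ _ γ C hγ hR v f w hv hN hB ε δ hI hε hα hδ hcell Ee c k' hse h1 h2 h3 h4
  have hp : parOk p = true := by
    simp only [tabN, Bool.and_eq_true] at h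
    exact h.1.1.1.1
  refine hsv_of_vcore2 C hγ hR hv hI hε hα hp
    (vcore2_of_tabN C hv hN hB (le_max_left _ _) (le_max_right _ _) h) hδ hcell hse h1 h2 h3 h4

end Pool.Agent.FPX.RF
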