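import Mathlib
import Pool.Agent.FPX.CBE
import Pool.Agent.FPX.CLG
import Pool.Agent.FPX.CL2
import Pool.Agent.FPX.RFP

/-
CLH (helper58): the closing statement from the column checks `colOk` (CBE).
-/

open MeasureTheory Set Filter Topology
open scoped ENNReal NNReal

noncomputable section

namespace Pool.Agent.FPX

open Pool.Agent.EWD Pool.Agent.FPM VTB

theorem cellT_ok {κ X σ se B ζ' : ℚ} {lφ : List (ℚ × ℚ)} {q : ℚ × ℚ} {V : List (ℚ × ℚ)}
    {r : ℚ × ℚ × ℚ × ℚ} {d : CellT} (hφ : qOk 1 lφ = true) (hV : plOk (0, 0) q V = true)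
    (h : cellT κ X σ se B ζ' lφ q V r d = true) {Ee c₀ : ℝ} (hse : √Ee ≤ se) (hζ : 0 ≤ ζ')
    (hr : r.2.2.1 ≤ X) {G G' : ℝ → ℝ} {hyp : ℝ → Prop}
    (hhyp : ∀ x, hyp x → x ≤ (ζ' : ℝ) * (X - r.2.2.1)) :
    CellP (pkG 0 1 (clQ lφ)) G G' (Wq lφ q V) κ Ee c₀ X σ B r.1 r.2.1 r.2.2.1 r.2.2.2 hyp := by
  cases d with
  | c1 d => exact cellC_ok hφ hV h hse hζ hr hhyp
  | c2 d => exact cellC2_ok hφ hV h hse hζ hr hhyp
  | c3 d =>
    rw [cellT, cellN, Bool.and_eq_true] at h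
    exact cellH_ok hφ hV h.1 (RF.tabS_N h.2 _ _ _ _ _ _) hse hζ hr hhyp

theorem colI_get {κ X σ se B : ℚ} {lφ : List (ℚ × ℚ)} {r : ℚ × ℚ × ℚ × ℚ} :
    ∀ (ζ : List ℚ) (P : List ((ℚ × ℚ) × List (ℚ × ℚ))) (ds : List CellT),
    colI κ X σ se B lφ r ζ P ds = true → ∀ i, i + 1 < P.length →
    ∃ d : CellT, cellT κ X σ se B (ζ.getD i 0) lφ (Pi' P i).1 (Pi' P i).2 r d = true
  | [], [], [], h, _, _ => by simp [colI] at h
  | [], [], _ :: _, h, _, _ => by simp [colI] at h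
  | _ :: _, [], [], h, _, _ => by simp [colI] at h
  | _ :: _, [], _ :: _, h, _, _ => by simp [colI] at h
  | [], [_], [], _, i, hi => by simp at hi
  | _ :: _, [_], [], _, i, hi => by simp at hi
  | [], [_], _ :: _, h, _, _ => by simp [colI] at h
  | [], _ :: _ :: _, [], h, _, _ => by simp [colI] at h
  | _ :: _, _ :: _ :: _, [], h, _, _ => by simp [colI] at h
  | [], _ :: _ :: _, _ :: _, h, _, _ => by simp [colI] at h
  | z :: ζ, p :: P, d :: ds, h, i, hi => by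
    rw [colI, Bool.and_eq_true] at h
    obtain ⟨h1, h2⟩ := h
    cases i with
    | zero => exact ⟨d, by simpa [Pi'] using h1⟩
    | succ i =>
      obtain ⟨d', h3⟩ := colI_get ζ P ds h2 i (by simpa using hi)
      exact ⟨d', by simpa [Pi'] using h3⟩

/-- **The sharp closing statement from the column checks.** -/
theorem close58_cols {κ X σ se c₀ k₀ B R : ℚ} {L lφ : List (ℚ × ℚ)} {ζ : List ℚ}
    {P : List ((ℚ × ℚ) × List (ℚ × ℚ))} {Ee Xs : ℝ} (hE : 1 ≤ Ee) (hse : √Ee ≤ se)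
    (hd : hdOk κ X σ se c₀ k₀ B R L lφ ζ P = true)
    (hQ : ∀ i, i < P.length → ∃ Q, PWE (pkD 0 1 (clQ lφ)) (Wq lφ (Pi' P i).1 (Pi' P i).2) 1
      (fun v a b => PE (enb a b) - (ζ.getD i 0 : ℚ) * pkG 0 1 (clQ lφ) (nuv v a b)) Q)
    (hC : ∀ r ∈ qCells c₀ 0 k₀ L, r.2.2.1 ≤ X → ∃ ds e, colOk κ X σ se B lφ ζ P r ds e = true)
    (hS : StartPh (pkG 0 1 (clQ lφ)) Ee Xs c₀) (hXs : Xs < X) :
    ∀ δ : ℝ, 0 < δ → Close (2 * Real.pi - δ) := by
  have hd' := hd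
  simp only [hdOk, Bool.and_eq_true] at hd'
  obtain ⟨⟨⟨⟨h0, h1⟩, h2⟩, h3⟩, h4⟩ := hd'
  rw [List.all_eq_true] at h3 h4
  have hζ : ∀ i, 0 ≤ ζ.getD i 0 := fun i => by
    rcases lt_or_ge i ζ.length with hi | hi
    · have e : ζ.getD i 0 = ζ[i] := by simp [hi]
      rw [e]
      exact of_decide_eq_true (h3 _ (List.getElem_mem hi))
    · have e : ζ.getD i 0 = 0 := by simp [hi]
      rw [e]
  have hPi : ∀ i, i < P.length → plOk (0, 0) (Pi' P i).1 (Pi' P i).2 = true := fun i hi => by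
    have e : Pi' P i = P[i] := by
      unfold Pi'
      simp [hi]
    have h5 := h4 _ (List.getElem_mem hi)
    rw [Bool.and_eq_true] at h5
    rw [e]
    exact h5.1
  refine close58_gen hE hd hQ (fun r hr hrX i hi => ?_) hS hXs
  obtain ⟨ds, e, h5⟩ := hC r hr hrX
  rw [colOk, Bool.and_eq_true] at h5
  obtain ⟨h5, h6⟩ := h5
  rcases lt_or_ge (i + 1) P.length with hi' | hi'
  · obtain ⟨d, h7⟩ := colI_get _ _ _ h5 i hi'
    have e : ζ.tail.getD i 0 = ζ.getD (i + 1) 0 := by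
      cases ζ <;> simp
    rw [e] at h7
    exact cellT_ok h1 (hPi i hi) h7 hse (hζ (i + 1)) hrX fun x hx => hx hi'
  · have e : P.length - 1 = i := by omega
    rw [e] at h6
    exact cellE_ok h1 (hPi i hi) h6 hse

end Pool.Agent.FPX
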