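import Mathlib
import Pool.Agent.FPX.ASX
import Pool.Agent.FPX.CLH

/-
ASC (helper96): `Closes` from the tables of CLG and CLH.
-/

open MeasureTheory Set Filter Topology
open scoped ENNReal NNReal

noncomputable section

namespace Pool.Agent.FPX.ASX

open Pool.Agent.FPX Pool.Agent.EWD Pool.Agent.FPM Pool.Agent.FPX.VTB

/-- from one `CellP` per cell and polygon -/
theorem closes_gen {κ X σ se c₀ k₀ B R : ℚ} {L lφ : List (ℚ × ℚ)} {ζ : List ℚ}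
    {P : List ((ℚ × ℚ) × List (ℚ × ℚ))} (hd : hdOk κ X σ se c₀ k₀ B R L lφ ζ P = true)
    (hQ : ∀ i, i < P.length → ∃ Q, PWE (pkD 0 1 (clQ lφ)) (Wq lφ (Pi' P i).1 (Pi' P i).2) 1
      (fun v a b => PE (enb a b) - (ζ.getD i 0 : ℚ) * pkG 0 1 (clQ lφ) (nuv v a b)) Q)
    (hC : ∀ r ∈ qCells c₀ 0 k₀ L, r.2.2.1 ≤ X → ∀ i, i < P.length →
      CellP (pkG 0 1 (clQ lφ)) (pkG c₀ k₀ (clQ L)) (pkD c₀ k₀ (clQ L))
        (Wq lφ (Pi' P i).1 (Pi' P i).2) κ 2 c₀ X σ B r.1 r.2.1 r.2.2.1 r.2.2.2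
        (fun x => i + 1 < P.length → x ≤ ((ζ.getD (i + 1) 0 : ℚ) : ℝ) * (X - r.2.2.1))) :
    Closes (pkG 0 1 (clQ lφ)) c₀ X := fun _ hS hXs => close58_gen one_le_two hd hQ hC hS hXs

/-- from the column checks -/
theorem closes_cols {κ X σ se c₀ k₀ B R : ℚ} {L lφ : List (ℚ × ℚ)} {ζ : List ℚ}
    {P : List ((ℚ × ℚ) × List (ℚ × ℚ))} (hse : 2 ≤ se ^ 2)
    (hd : hdOk κ X σ se c₀ k₀ B R L lφ ζ P = true)
    (hQ : ∀ i, i < P.length → ∃ Q, PWE (pkD 0 1 (clQ lφ)) (Wq lφ (Pi' P i).1 (Pi' P i).2) 1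
      (fun v a b => PE (enb a b) - (ζ.getD i 0 : ℚ) * pkG 0 1 (clQ lφ) (nuv v a b)) Q)
    (hC : ∀ r ∈ qCells c₀ 0 k₀ L, r.2.2.1 ≤ X → ∃ ds e, colOk κ X σ se B lφ ζ P r ds e = true) :
    Closes (pkG 0 1 (clQ lφ)) c₀ X := by
  have h0 : 0 ≤ se := by
    simp only [hdOk, Bool.and_eq_true] at hd
    obtain ⟨⟨⟨⟨h0, -⟩, -⟩, -⟩, -⟩ := hd
    obtain ⟨-, -, -, -, -, -, -, -, -, -, d11, -⟩ := of_decide_eq_true h0
    exact d11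
  have hs : √(2 : ℝ) ≤ se := Real.sqrt_le_iff.2 ⟨by exact_mod_cast h0, by exact_mod_cast hse⟩
  exact fun _ hS hXs => close58_cols one_le_two hs hd hQ hC hS hXs

end Pool.Agent.FPX.ASX
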