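import Mathlib
import Pool.Agent.FPX.FAC3
import Pool.Agent.FPX.FAC0

/-
ASE (helper96): the end of the assembly with a general energy constant `Ee` of the class: `ClosesE`, and the
area of isometric fillings from any start map (`StartPh`) and `ClosesE`.
-/

open MeasureTheory Set Filter Topology
open scoped ENNReal NNReal ContDiff Manifold

noncomputable section

namespace Pool.Agent.FPX.ASX

open Pool.Agent.FPX Pool.Agent.EWD Pool.Agent.FPM

/-- the closing theorem for the penalty `φ`, the class `(2, Ee)`, the constant `c₀` and start values below `X` -/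
def ClosesE (φ : ℝ → ℝ) (Ee c₀ X : ℝ) : Prop :=
  ∀ Xs : ℝ, StartPh φ Ee Xs c₀ → Xs < X → ∀ δ : ℝ, 0 < δ → Close (2 * Real.pi - δ)

/-- **the sharp bound in the form of the hand-in, from a start map and the closing theorem** -/
theorem two_pi_of_start {φ : ℝ → ℝ} {Ee c₀ X Xs : ℝ} (hS : StartPh φ Ee Xs c₀) (hC : ClosesE φ Ee c₀ X)
    (hX : Xs < X) (M : Type) [MetricSpace M] [CompactSpace M] [ChartedSpace (EuclideanHalfSpace 2) M]
    [Pool.Agent.H74.Surf.RiemannianSpace (𝓡∂ 2) M]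
    (horient : Pool.Agent.H74.Surf.Orientable (𝓡∂ 2) M) (σ : Pool.Agent.H74.Surf.S1 → M)
    (hσ : Pool.Agent.H74.Surf.IsometricFilling (𝓡∂ 2) σ) :
    ENNReal.ofReal (2 * Real.pi) ≤ Pool.Agent.H74.Surf.area M :=
  handin_two_pi (hC Xs hS hX) M horient σ hσ

/-- the case `φ = id` from `StartE` -/
theorem two_pi_of_startE {Ee c₀ X Xs : ℝ} (hS : StartE Ee Xs c₀) (hC : ClosesE (fun x => x) Ee c₀ X)
    (hX : Xs < X) (M : Type) [MetricSpace M] [CompactSpace M] [ChartedSpace (EuclideanHalfSpace 2) M]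
    [Pool.Agent.H74.Surf.RiemannianSpace (𝓡∂ 2) M]
    (horient : Pool.Agent.H74.Surf.Orientable (𝓡∂ 2) M) (σ : Pool.Agent.H74.Surf.S1 → M)
    (hσ : Pool.Agent.H74.Surf.IsometricFilling (𝓡∂ 2) σ) :
    ENNReal.ofReal (2 * Real.pi) ≤ Pool.Agent.H74.Surf.area M :=
  two_pi_of_start (φ := fun x => x) hS hC hX M horient σ hσ

end Pool.Agent.FPX.ASX
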