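import Mathlib
import Pool.Agent.FPX.EMK
import Pool.Agent.FPX.DEG

/-
EMK0 (helper30): scheme K0 of the lead (FAC closing). Near-minimisers of `∫ φ(ν) + κ c` over the pairs
`(v, c)`, `dv ∈ e^c W`, tested with arbitrary odd Lipschitz fields `Z` with `dZ ∈ m e^c W`, `|Z| ≤ K`
(error `κ (m + K)`, both signs), and with finite competitors in `e^{c+l} W` (error `κ l`). In terms of
the energy the competitor may have any degree.
-/

open MeasureTheory Set Filter Topology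
open scoped ENNReal NNReal

noncomputable section

namespace Pool.Agent.FPX

open Pool.Agent.EWD

variable {M : Type} [MetricSpace M] {γ : ℝ → M}

theorem InW.smul_abs {Λ E : ℝ} {x y : E3} (h : InW Λ E x y) (r : ℝ) :
    InW (|r| * Λ) (r ^ 2 * E) (r • x) (r • y) := by
  refine ⟨fun w hw => ?_, fun w hw => ?_, ?_⟩
  · rw [prj_smul, crs_smul, ← smul_sub, norm_smul, Real.norm_eq_abs]
    exact mul_le_mul_of_nonneg_left (h.m w hw) (abs_nonneg r)
  · rw [prj_smul, crs_smul, ← smul_add, norm_smul, Real.norm_eq_abs]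
    exact mul_le_mul_of_nonneg_left (h.p w hw) (abs_nonneg r)
  · rw [norm_smul, norm_smul, mul_pow, mul_pow, Real.norm_eq_abs, sq_abs]
    have := mul_le_mul_of_nonneg_left h.s (sq_nonneg r)
    linarith

/-- the test fields of scheme K0 -/
structure TZ0 (C : Calc M γ) (Λ E K r : ℝ) (Z : Fin 3 → M → ℝ) : Prop where
  lip : ∀ k, Lip (Z k)
  odd : ∀ k, OddB γ (Z k)
  bd : ∀ x, ‖vv (n := 0) Z x‖ ≤ K
  inW : ∀ᵐ o ∂C.μ, InW (r * Λ) (r ^ 2 * E) (dx C Z o) (dy C Z o)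

private theorem EMK0_log {u : ℝ} (hu : -(1 / 2) ≤ u) : 1 / (1 + u) ≤ Real.exp (-u + 2 * u ^ 2) := by
  have h0 : 0 < 1 + u := by linarith
  have h1 := Real.one_sub_inv_le_log_of_pos h0
  have h2 : u - 2 * u ^ 2 ≤ 1 - (1 + u)⁻¹ := by
    have e : 1 - (1 + u)⁻¹ = u / (1 + u) := by
      field_simp
      ring
    rw [e, le_div_iff₀ h0]
    nlinarith [mul_nonneg (sq_nonneg u) (show 0 ≤ 1 + 2 * u by linarith)]
  have h3 : u - 2 * u ^ 2 ≤ Real.log (1 + u) := h2.trans h1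
  have h4 : Real.exp (u - 2 * u ^ 2) ≤ 1 + u := by
    calc Real.exp (u - 2 * u ^ 2) ≤ Real.exp (Real.log (1 + u)) := Real.exp_le_exp.mpr h3
      _ = 1 + u := Real.exp_log h0
  have h5 : Real.exp (-u + 2 * u ^ 2) = (Real.exp (u - 2 * u ^ 2))⁻¹ := by
    rw [← Real.exp_neg]
    congr 1
    ring
  rw [h5, one_div]
  exact inv_anti₀ (Real.exp_pos _) h4

/-- the scalar inequality behind the stability -/
private theorem EMK0_scal {c t z N K m : ℝ} (ht : 0 ≤ t) (hz : |z| ≤ K) (htK : t * K ≤ 1 / 2)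
    (hN : 1 + t * z ≤ N) (hm : 0 ≤ m) :
    (Real.exp c + t * (m * Real.exp c)) / N ≤ Real.exp (c + t * (m + K) + 2 * K ^ 2 * t ^ 2) := by
  have hu : |t * z| ≤ 1 / 2 := by
    rw [abs_mul, abs_of_nonneg ht]
    exact (mul_le_mul_of_nonneg_left hz ht).trans htK
  obtain ⟨u1, u2⟩ := abs_le.mp hu
  have h0 : 0 < 1 + t * z := by linarith
  have h1 := EMK0_log u1
  have htm : 0 ≤ t * m := mul_nonneg ht hm
  have e0 : Real.exp c + t * (m * Real.exp c) = Real.exp c * (1 + t * m) := by ring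
  have h2 : Real.exp c * (1 + t * m) ≤ Real.exp (c + t * m) := by
    rw [Real.exp_add]
    refine mul_le_mul_of_nonneg_left ?_ (Real.exp_pos _).le
    have := Real.add_one_le_exp (t * m)
    linarith
  have hp : 0 ≤ Real.exp c * (1 + t * m) := by positivity
  have h3 : Real.exp c * (1 + t * m) / N ≤ Real.exp c * (1 + t * m) / (1 + t * z) :=
    div_le_div_of_nonneg_left hp h0 hN
  have h4 : Real.exp c * (1 + t * m) / (1 + t * z) ≤
      Real.exp (c + t * m) * Real.exp (-(t * z) + 2 * (t * z) ^ 2) := by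
    rw [div_eq_mul_one_div]
    exact mul_le_mul h2 h1 (by positivity) (Real.exp_pos _).le
  rw [e0]
  refine (h3.trans h4).trans ?_
  rw [← Real.exp_add]
  refine Real.exp_le_exp.mpr ?_
  have h5 : -(t * z) ≤ t * K := by
    have := mul_le_mul_of_nonneg_left (abs_le.mp hz).1 ht
    linarith
  have h6 : (t * z) ^ 2 ≤ K ^ 2 * t ^ 2 := by
    rw [mul_pow, mul_comm]
    refine mul_le_mul_of_nonneg_right ?_ (sq_nonneg t)
    rw [← sq_abs z]
    exact pow_le_pow_left₀ (abs_nonneg z) hz 2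
  nlinarith

theorem TZ0.step {C : Calc M γ} {Λ E : ℝ} {v : Fin 3 → M → ℝ} {c : ℝ} (h : KY C Λ E v (fun _ => c))
    (hΛ : 0 ≤ Λ) (hE : 0 ≤ E) {K m : ℝ} (hm : 0 < m) {Z : Fin 3 → M → ℝ}
    (hZ : TZ0 C Λ E K (m * Real.exp c) Z) {t : ℝ} (ht : 0 ≤ t) (htK : t * K ≤ 1 / 2) :
    KY C Λ E (cpt t v Z) (fun _ => c + t * (m + K) + 2 * K ^ 2 * t ^ 2) := by
  have hK : 0 ≤ K := (norm_nonneg _).trans (hZ.bd (γ 0))
  have hc0 : 0 ≤ c := h.nonneg (γ 0)
  refine ⟨cpt_sph h.sph hZ.lip hZ.odd ht hZ.bd htK, lip_const _, fun _ => rfl, fun _ => by positivity, ?_⟩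
  filter_upwards [ae_cpt C h.sph hZ.lip ht hZ.bd htK, h.inW, hZ.inW] with o h3 h4 h5
  rw [h3.2.1, h3.2.2]
  have hn : ‖at' C v o‖ = 1 := norm_at h.sph o
  set z : ℝ := inner ℝ (at' C v o) (at' C Z o) with hz
  have hzK : |z| ≤ K := by
    refine (abs_real_inner_le_norm _ _).trans ?_
    rw [hn, one_mul]
    exact hZ.bd (C.pt o)
  have hN1 : 1 + t * z ≤ ‖at' C v o + t • at' C Z o‖ := by
    have e : inner ℝ (at' C v o) (at' C v o + t • at' C Z o) = 1 + t * z := by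
      rw [inner_add_right, inner_smul_right, inner_self_one hn]
    rw [← e]
    refine (real_inner_le_norm _ _).trans ?_
    rw [hn, one_mul]
  have hu : |t * z| ≤ 1 / 2 := by
    rw [abs_mul, abs_of_nonneg ht]
    exact (mul_le_mul_of_nonneg_left hzK ht).trans htK
  have hN0 : 0 < ‖at' C v o + t • at' C Z o‖ := by
    have := (abs_le.mp hu).1
    linarith
  set r := m * Real.exp c with hr
  have hr0 : 0 < r := mul_pos hm (Real.exp_pos c)
  have h6 := h5.smul_abs (r⁻¹)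
  have e1 : |r⁻¹| * (r * Λ) = Λ := by
    rw [abs_of_pos (inv_pos.mpr hr0), ← mul_assoc, inv_mul_cancel₀ hr0.ne', one_mul]
  have e2 : (r⁻¹) ^ 2 * (r ^ 2 * E) = E := by
    rw [← mul_assoc, ← mul_pow, inv_mul_cancel₀ hr0.ne', one_pow, one_mul]
  rw [e1, e2] at h6
  have e3 : ∀ A : E3, (t * r) • (r⁻¹ • A) = t • A := by
    intro A
    rw [smul_smul, mul_assoc, mul_inv_cancel₀ hr0.ne', mul_one]
  have k := nd_W (u := at' C v o) (Z := r⁻¹ • at' C Z o) (t := t * r) (Real.exp_pos c).le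
    (mul_nonneg ht hr0.le) h4 h6 rfl (by rw [e3]; exact hN0) hE
  rw [e3, e3, e3] at k
  have key := EMK0_scal (c := c) ht hzK htK hN1 hm.le
  rw [← hr] at key
  have q0 : 0 ≤ (Real.exp c + t * r) / ‖at' C v o + t • at' C Z o‖ := by positivity
  refine k.mono (mul_le_mul_of_nonneg_right key hΛ) (mul_le_mul_of_nonneg_right ?_ hE)
  exact pow_le_pow_left₀ q0 key 2

variable [CompactSpace M]

/-- **near-minimisers of `∫ φ(ν) + κ c`**: first variation for all test fields, finite competitors -/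
theorem emk0 (C : Calc M γ) (hγ : Bd γ) (hR : RegAE C) {φ φ' : ℝ → ℝ} {s L : ℝ} (P : Pen φ φ' s L)
    {Λ E : ℝ} (hΛ : 0 ≤ Λ) (hE : 0 ≤ E) {κ c₀ : ℝ} (hκ : 0 < κ)
    {U : Fin 3 → M → ℝ} (hU : KY C Λ E U (fun _ => c₀)) (hUJ : ∫ o, jac C U o ∂C.μ = 2 * Real.pi)
    {X : ℝ} (hUX : Ph C φ U < X) (hX : X < 2 * Real.pi) {K m : ℝ} (hK : 0 ≤ K) (hm : 0 < m)
    {ε : ℝ} (hε : 0 < ε) :
    ∃ (v : Fin 3 → M → ℝ) (c : ℝ), c₀ ≤ c ∧ KY C Λ E v (fun _ => c) ∧
      ∫ o, jac C v o ∂C.μ = 2 * Real.pi ∧ Ph C φ v + κ * (c - c₀) < X ∧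
      (∀ Z : Fin 3 → M → ℝ, TZ0 C Λ E K (m * Real.exp c) Z →
        -ε ≤ ∫ o, φ' (nuC C v o) * dnuC C v Z o ∂C.μ + κ * (m + K)) ∧
      (∀ (v' : Fin 3 → M → ℝ) (l : ℝ), 0 ≤ l → KY C Λ E v' (fun _ => c + l) →
        ∫ o, jac C v' o ∂C.μ = 2 * Real.pi → Ph C φ v ≤ Ph C φ v' + κ * l + ε) := by
  have := C.fin
  have hpi := Real.pi_pos
  have hV : 0 ≤ C.vol := ENNReal.toReal_nonneg
  have n1 : ∀ v : Fin 3 → M → ℝ, 0 ≤ Ph C φ v := fun v =>
    integral_nonneg fun o => (nuv_nonneg _ _ _).trans (P.ge _ (nuv_nonneg _ _ _))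
  have hX0 : 0 ≤ X := (n1 U).trans hUX.le
  have hc₀ : 0 ≤ c₀ := hU.nonneg (γ 0)
  set cm := c₀ + X / κ with hcm
  set R := m * Real.exp cm with hRd
  have hR0 : 0 < R := mul_pos hm (Real.exp_pos _)
  -- the bound of `∫ |dZ|²`
  set KZ := 2 * (R ^ 2 * E) * C.vol with hKZ
  have hKZ0 : 0 ≤ KZ := by positivity
  have hZ2 : ∀ (Z : Fin 3 → M → ℝ) (c : ℝ), c ≤ cm → TZ0 C Λ E K (m * Real.exp c) Z →
      ∫ o, S2 C Z o ∂C.μ ≤ KZ := by
    intro Z c hc hZ
    have hr : m * Real.exp c ≤ R := mul_le_mul_of_nonneg_left (Real.exp_le_exp.mpr hc) hm.le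
    have hr0 : 0 ≤ m * Real.exp c := by positivity
    have h1 : ∀ᵐ o ∂C.μ, S2 C Z o ≤ 2 * (R ^ 2 * E) := by
      filter_upwards [hZ.inW] with o ho
      refine ho.s.trans ?_
      have := mul_le_mul_of_nonneg_right (pow_le_pow_left₀ hr0 hr 2) hE
      linarith
    refine (integral_mono_ae (S2_int C hZ.lip) (integrable_const (2 * (R ^ 2 * E))) h1).trans
      (le_of_eq ?_)
    rw [integral_const, smul_eq_mul, mul_comm]
    rfl
  set c1 := (8 + 64 * K + 120 * K ^ 2) * (8 * Real.pi + KZ) with hc1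
  set c2 := (L * (8 + 8 * K ^ 2) + s * (4 + 62 * K + 120 * K ^ 2)) * (8 * Real.pi + KZ)
    + κ * (2 * K ^ 2) with hc2
  have hs := P.s0
  have hL := P.L0
  have p1 : 0 < c1 := by positivity
  have p2 : 0 ≤ c2 := by positivity
  -- the step
  obtain ⟨t, ht0, ht1, htK, htt, ht2⟩ : ∃ t : ℝ, 0 < t ∧ t ≤ 1 ∧ t * K ≤ 1 / 2 ∧
      t * c1 < 2 * Real.pi - X ∧ t * c2 ≤ ε / 2 := by
    set m' := min 1 (min (1 / (2 * (K + 1))) (min ((2 * Real.pi - X) / (2 * c1)) (ε / (2 * (c2 + 1))))) with hm'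
    have q1 : 0 < 2 * Real.pi - X := by linarith
    have m1 : m' ≤ 1 := min_le_left _ _
    have m2 : m' ≤ 1 / (2 * (K + 1)) := (min_le_right _ _).trans (min_le_left _ _)
    have m3 : m' ≤ (2 * Real.pi - X) / (2 * c1) :=
      ((min_le_right _ _).trans (min_le_right _ _)).trans (min_le_left _ _)
    have m4 : m' ≤ ε / (2 * (c2 + 1)) :=
      ((min_le_right _ _).trans (min_le_right _ _)).trans (min_le_right _ _)
    have m0 : 0 < m' := by
      refine lt_min one_pos (lt_min (by positivity) (lt_min (by positivity) (by positivity)))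
    refine ⟨m', m0, m1, ?_, ?_, ?_⟩
    · rw [le_div_iff₀ (by positivity)] at m2
      nlinarith
    · rw [le_div_iff₀ (by positivity)] at m3
      nlinarith [mul_pos m0 p1]
    · rw [le_div_iff₀ (by positivity)] at m4
      nlinarith
  -- the near-minimiser
  set F : Set ℝ := {r | ∃ (v : Fin 3 → M → ℝ) (c : ℝ), c₀ ≤ c ∧ KY C Λ E v (fun _ => c) ∧
    ∫ o, jac C v o ∂C.μ = 2 * Real.pi ∧ Ph C φ v + κ * (c - c₀) = r} with hF
  have hne : F.Nonempty := ⟨_, U, c₀, le_rfl, hU, hUJ, rfl⟩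
  have hbd : BddBelow F := ⟨0, by
    rintro r ⟨v, c, hc, hv, -, rfl⟩
    exact add_nonneg (n1 v) (mul_nonneg hκ.le (by linarith))⟩
  have hpos : 0 < min (t * ε / 2) (X - Ph C φ U) := lt_min (by positivity) (by linarith)
  obtain ⟨r, ⟨v, c, hc, hv, hvJ, rfl⟩, hr⟩ := Real.lt_sInf_add_pos hne hpos
  have hUm : sInf F ≤ Ph C φ U + κ * (c₀ - c₀) := csInf_le hbd ⟨U, c₀, le_rfl, hU, hUJ, rfl⟩
  have hvX : Ph C φ v + κ * (c - c₀) < X := by
    have := min_le_right (t * ε / 2) (X - Ph C φ U)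
    rw [sub_self, mul_zero, add_zero] at hUm
    linarith
  have h3 := min_le_left (t * ε / 2) (X - Ph C φ U)
  refine ⟨v, c, hc, hv, hvJ, hvX, fun Z hZ => ?_, fun v' l hl hv' hJ' => ?_⟩
  · have hκc : 0 ≤ κ * (c - c₀) := mul_nonneg hκ.le (by linarith)
    have hvX' : Ph C φ v < X := by linarith
    have hccm : c ≤ cm := by
      have h1 : κ * (c - c₀) ≤ X := by linarith [n1 v]
      have h2 : c - c₀ ≤ X / κ := by
        rw [le_div_iff₀ hκ]
        linarith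
      rw [hcm]
      linarith
    have hZZ := hZ2 Z c hccm hZ
    have hdeg := cpt_deg C hγ hR hv.sph hvJ hZ.lip hZ.odd ht0.le ht1 hK hZ.bd htK
      ((nu_le_Ph C P hv.sph.lip).trans hvX'.le) hX hZZ htt
    have hst' := TZ0.step hv hΛ hE hm hZ ht0.le htK
    have q1 : 0 ≤ t * (m + K) := mul_nonneg ht0.le (by linarith)
    have q2 : 0 ≤ 2 * K ^ 2 * t ^ 2 := by positivity
    have h1 : sInf F ≤ Ph C φ (cpt t v Z) + κ * (c + t * (m + K) + 2 * K ^ 2 * t ^ 2 - c₀) :=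
      csInf_le hbd ⟨_, _, by linarith, hst', hdeg, rfl⟩
    have h2 := Ph_cpt C P hv.sph hZ.lip hZ.odd ht0.le ht1 hZ.bd htK
    have h4 := int_S2 C hv.sph
    rw [hvJ] at h4
    have h5 := nu_le_Ph C P hv.sph.lip
    set I := ∫ o, φ' (nuC C v o) * dnuC C v Z o ∂C.μ with hI
    set A := ∫ o, S2 C v o ∂C.μ + ∫ o, S2 C Z o ∂C.μ with hA
    have k1 : (L * (8 + 8 * K ^ 2) + s * (4 + 62 * K + 120 * K ^ 2)) * A ≤
        (L * (8 + 8 * K ^ 2) + s * (4 + 62 * K + 120 * K ^ 2)) * (8 * Real.pi + KZ) := by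
      refine mul_le_mul_of_nonneg_left ?_ (by positivity)
      rw [hA]
      linarith
    have h7 : Ph C φ (cpt t v Z) + κ * (c + t * (m + K) + 2 * K ^ 2 * t ^ 2 - c₀) ≤
        Ph C φ v + κ * (c - c₀) + t * (I + κ * (m + K)) + t ^ 2 * c2 := by
      have k3 := mul_le_mul_of_nonneg_left k1 (sq_nonneg t)
      have e : t ^ 2 * c2 = t ^ 2 * ((L * (8 + 8 * K ^ 2) + s * (4 + 62 * K + 120 * K ^ 2)) *
        (8 * Real.pi + KZ)) + κ * (2 * K ^ 2 * t ^ 2) := by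
        rw [hc2]
        ring
      rw [e]
      linarith
    have h8 : t ^ 2 * c2 ≤ t * (ε / 2) := by
      have : t ^ 2 * c2 = t * (t * c2) := by ring
      rw [this]
      exact mul_le_mul_of_nonneg_left ht2 ht0.le
    have h9 : 0 ≤ t * (I + κ * (m + K) + ε) := by
      have : t * (I + κ * (m + K) + ε) = t * (I + κ * (m + K)) + t * (ε / 2) + t * ε / 2 := by ring
      rw [this]
      linarith
    have h10 := nonneg_of_mul_nonneg_right h9 ht0
    linarith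
  · have h1 : sInf F ≤ Ph C φ v' + κ * (c + l - c₀) :=
      csInf_le hbd ⟨v', c + l, by linarith, hv', hJ', rfl⟩
    have h4 : t * ε / 2 ≤ ε := by nlinarith
    have h5 : κ * (c + l - c₀) = κ * (c - c₀) + κ * l := by ring
    linarith

/-! ### the energy and competitors of any degree -/

/-- the map `-v` -/
def ngm (v : Fin 3 → M → ℝ) (k : Fin 3) (x : M) : ℝ := -v k x

omit [CompactSpace M] in
theorem ngm_at (C : Calc M γ) (v : Fin 3 → M → ℝ) (o : Om) :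
    at' C (ngm v) o = -at' C v o ∧ dx C (ngm v) o = -dx C v o ∧ dy C (ngm v) o = -dy C v o := by
  have h : ∀ k, C.gx (ngm v k) o = -C.gx (v k) o ∧ C.gy (ngm v k) o = -C.gy (v k) o := fun k =>
    ⟨deriv.fun_neg, deriv.fun_neg⟩
  refine ⟨?_, ?_, ?_⟩
  · ext i
    fin_cases i <;> rfl
  · ext i
    fin_cases i
    · exact (h 0).1
    · exact (h 1).1
    · exact (h 2).1
  · ext i
    fin_cases i
    · exact (h 0).2
    · exact (h 1).2
    · exact (h 2).2

omit [CompactSpace M] in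
theorem ngm_KY {C : Calc M γ} {Λ E : ℝ} {v : Fin 3 → M → ℝ} {Y : M → ℝ} (h : KY C Λ E v Y) :
    KY C Λ E (ngm v) Y := by
  refine ⟨⟨fun k => ?_, fun x => ?_, fun k s => ?_⟩, h.lipY, h.evenY, h.nonneg, ?_⟩
  · obtain ⟨L, hL⟩ := h.sph.lip k
    exact ⟨L, hL.neg⟩
  · rw [← h.sph.unit x]
    refine Finset.sum_congr rfl fun i _ => ?_
    unfold ngm
    ring
  · unfold ngm
    rw [h.sph.odd k s]
  · filter_upwards [h.inW] with o ho
    have e := ngm_at C v o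
    rw [e.2.1, e.2.2]
    have := ho.smul_abs (-1)
    simpa using this

omit [CompactSpace M] in
theorem ngm_S2 (C : Calc M γ) (v : Fin 3 → M → ℝ) (o : Om) : S2 C (ngm v) o = S2 C v o := by
  have e := ngm_at C v o
  unfold S2
  rw [e.2.1, e.2.2, norm_neg, norm_neg]

omit [CompactSpace M] in
theorem ngm_jac (C : Calc M γ) (v : Fin 3 → M → ℝ) (o : Om) : jac C (ngm v) o = -jac C v o := by
  have e := ngm_at C v o
  unfold jac
  rw [e.1, e.2.1, e.2.2]
  have h1 : ∀ a b : E3, crs (-a) (-b) = crs a b := by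
    intro a b
    ext i
    fin_cases i
    · change (-a) 1 * (-b) 2 - (-a) 2 * (-b) 1 = crs a b 0
      rw [crs0]
      change (-(a 1)) * (-(b 2)) - (-(a 2)) * (-(b 1)) = _
      ring
    · change (-a) 2 * (-b) 0 - (-a) 0 * (-b) 2 = crs a b 1
      rw [crs1]
      change (-(a 2)) * (-(b 0)) - (-(a 0)) * (-(b 2)) = _
      ring
    · change (-a) 0 * (-b) 1 - (-a) 1 * (-b) 0 = crs a b 2
      rw [crs2]
      change (-(a 0)) * (-(b 1)) - (-(a 1)) * (-(b 0)) = _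
      ring
  rw [h1, inner_neg_left]

theorem S2_ge_jac (C : Calc M γ) {v : Fin 3 → M → ℝ} (hv : Sph γ v) :
    2 * |∫ o, jac C v o ∂C.μ| ≤ ∫ o, S2 C v o ∂C.μ := by
  have h1 : ∀ w : Fin 3 → M → ℝ, Sph γ w → 2 * ∫ o, jac C w o ∂C.μ ≤ ∫ o, S2 C w o ∂C.μ := by
    intro w hw
    have h := int_S2 C hw
    have h0 : 0 ≤ ∫ o, nuC C w o ∂C.μ := integral_nonneg fun o => nuv_nonneg _ _ _
    linarith
  have a := h1 v hv
  have hn : Sph γ (ngm v) := by
    refine ⟨fun k => ?_, fun x => ?_, fun k s => ?_⟩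
    · obtain ⟨L, hL⟩ := hv.lip k
      exact ⟨L, hL.neg⟩
    · rw [← hv.unit x]
      refine Finset.sum_congr rfl fun i _ => ?_
      unfold ngm
      ring
    · unfold ngm
      rw [hv.odd k s]
  have b := h1 (ngm v) hn
  simp only [ngm_jac, ngm_S2, integral_neg] at b
  rcases abs_cases (∫ o, jac C v o ∂C.μ) with ⟨h, -⟩ | ⟨h, -⟩ <;> rw [h] <;> linarith

/-- **every odd competitor, in terms of the energy** (`φ = id`) -/
theorem emk0_energy (C : Calc M γ) (hγ : Bd γ) (hR : RegAE C) {Λ E : ℝ} {v : Fin 3 → M → ℝ} {c X κ ε : ℝ}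
    (hv : KY C Λ E v (fun _ => c)) (hvJ : ∫ o, jac C v o ∂C.μ = 2 * Real.pi)
    (hvX : ∫ o, nuC C v o ∂C.μ ≤ X) (hX : X ≤ 4 * Real.pi) (hκ : 0 ≤ κ) (hε : 0 ≤ ε)
    (hcomp : ∀ (v' : Fin 3 → M → ℝ) (l : ℝ), 0 ≤ l → KY C Λ E v' (fun _ => c + l) →
        ∫ o, jac C v' o ∂C.μ = 2 * Real.pi → Ph C (fun x => x) v ≤ Ph C (fun x => x) v' + κ * l + ε)
    {v' : Fin 3 → M → ℝ} {l : ℝ} (hl : 0 ≤ l) (hv' : KY C Λ E v' (fun _ => c + l)) :
    ∫ o, S2 C v o ∂C.μ ≤ ∫ o, S2 C v' o ∂C.μ + 2 * (κ * l + ε) := by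
  have hpi := Real.pi_pos
  have hκl : 0 ≤ κ * l := mul_nonneg hκ hl
  have h0 := int_S2 C hv.sph
  rw [hvJ] at h0
  obtain ⟨d, hd, hd2⟩ := deg_odd C hγ hR hv'.sph
  have key : ∀ w : Fin 3 → M → ℝ, KY C Λ E w (fun _ => c + l) → ∫ o, jac C w o ∂C.μ = 2 * Real.pi →
      ∫ o, S2 C v o ∂C.μ ≤ ∫ o, S2 C w o ∂C.μ + 2 * (κ * l + ε) := by
    intro w hw hJ
    have h1 := hcomp w l hl hw hJ
    have h2 := int_S2 C hw.sph
    rw [hJ] at h2
    unfold Ph at h1
    rw [h0, h2]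
    linarith
  rcases lt_trichotomy d 0 with h | h | h
  · rcases eq_or_ne d (-1) with h1 | h1
    · have h2 : ∫ o, jac C (ngm v') o ∂C.μ = 2 * Real.pi := by
        simp only [ngm_jac, integral_neg]
        rw [hd2, h1]
        push_cast
        ring
      have h3 := key (ngm v') (ngm_KY hv') h2
      simpa only [ngm_S2] using h3
    · have h2 : d ≤ -3 := by
        obtain ⟨k, hk⟩ := hd
        omega
      have h3 : (d : ℝ) ≤ -3 := by exact_mod_cast h2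
      have h4 := S2_ge_jac C hv'.sph
      rw [hd2] at h4
      have h5 := neg_le_abs (2 * Real.pi * (d : ℝ))
      nlinarith
  · obtain ⟨k, hk⟩ := hd
    omega
  · rcases eq_or_ne d 1 with h1 | h1
    · refine key v' hv' ?_
      rw [hd2, h1]
      push_cast
      ring
    · have h2 : 3 ≤ d := by
        obtain ⟨k, hk⟩ := hd
        omega
      have h3 : (3 : ℝ) ≤ (d : ℝ) := by exact_mod_cast h2
      have h4 := S2_ge_jac C hv'.sph
      rw [hd2] at h4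
      have h5 := le_abs_self (2 * Real.pi * (d : ℝ))
      nlinarith

end Pool.Agent.FPX
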