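import Mathlib
import Pool.Agent.FPX.FAC3
import Pool.Agent.FPX.EMK0

/-
KENP (helper28): the closing with an abstract condition for one admissible pair.

(0) `kenx`, `kenp0`: no cost of the bound `c`, no exceptional set. Every admissible pair `(c, v)` (`Adm0`)
has to satisfy `GoodX` (first variations `FV` of all test fields are available) or `GoodP` (the first
variation of `T` with a multiplier `p ∈ [0, 2]`, which may depend on `T`): `-δ ≤ ∫ q - p ∫ φ'(ν) dν[T]`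
for some integrable `q` with `QLow`. Then `2π ≤ vol + δ`.
(K) `kenp_K`: the scheme with a cost `G c` (near minimisers with exceptional set, `AdmK`), condition
`GoodK`, where the gain `p G'(c) (h - (1 - e⁻ᶜ))` is needed only under the side condition that all
superlevel sets `{s h < |⟨a, T - v⟩|}` are large (hence also `{s h < |T - v|}`, `side_mod`).
(A) `close_of_goodX`, `close_of_goodP`, `close_of_goodK`: the assembly, for one `δ`.
-/

open MeasureTheory Set Filter Topology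
open scoped ENNReal NNReal

noncomputable section

namespace Pool.Agent.FPX

open Pool.Agent.EWD Pool.Agent.FPM

variable {M : Type} [MetricSpace M] {γ : ℝ → M}

/-- admissible pairs without cost -/
structure Adm0 (C : Calc M γ) (φ : ℝ → ℝ) (Ee c₀ X cm c : ℝ) (v : Fin 3 → M → ℝ) : Prop where
  hc : c₀ ≤ c
  hcm : c ≤ cm
  ky : KY C 2 Ee v (fun _ => c)
  deg : ∫ o, jac C v o ∂C.μ = 2 * Real.pi
  tot : Ph C φ v ≤ X

/-- the first variations of all test fields -/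
def FV (C : Calc M γ) (φ' : ℝ → ℝ) (Ee c η : ℝ) (v : Fin 3 → M → ℝ) : Prop :=
  ∀ Z : Fin 3 → M → ℝ, TZ0 C 2 Ee 8 (Real.exp c) Z → -η ≤ ∫ o, φ' (nuC C v o) * dnuC C v Z o ∂C.μ

/-- the condition for one pair, all first variations available -/
def GoodX (C : Calc M γ) (φ' : ℝ → ℝ) (Ee c η δ : ℝ) (v : Fin 3 → M → ℝ) : Prop :=
  FV C φ' Ee c η v → ∀ T : Fin 3 → M → ℝ, Pre γ T → TZ C 2 1 7 T → ∃ q : Om → ℝ,
    Integrable q C.μ ∧
    (∀ᵐ o ∂C.μ, QLow (at' C v o) (dx C v o) (dy C v o) (dx C T o) (dy C T o) (q o)) ∧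
    -δ ≤ ∫ o, q o ∂C.μ

/-- the condition for one pair, multiplier `p` of the first variation of `T` -/
def GoodP (C : Calc M γ) (φ' : ℝ → ℝ) (δ : ℝ) (v : Fin 3 → M → ℝ) : Prop :=
  ∀ T : Fin 3 → M → ℝ, Pre γ T → TZ C 2 1 7 T → ∃ (p : ℝ) (q : Om → ℝ), 0 ≤ p ∧ p ≤ 2 ∧
    Integrable q C.μ ∧
    (∀ᵐ o ∂C.μ, QLow (at' C v o) (dx C v o) (dy C v o) (dx C T o) (dy C T o) (q o)) ∧
    -δ ≤ ∫ o, q o ∂C.μ - p * ∫ o, φ' (nuC C v o) * dnuC C v T o ∂C.μ

/-- the condition for one pair with cost `k = G'(c)` -/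
def GoodK (C : Calc M γ) (φ' : ℝ → ℝ) (κI k Ee c δ ε σ : ℝ) (v : Fin 3 → M → ℝ) : Prop :=
  ∀ T : Fin 3 → M → ℝ, Pre γ T → TZ C 2 1 7 T → ∃ (p : ℝ) (q : Om → ℝ), 0 ≤ p ∧ p ≤ 2 ∧
    Integrable q C.μ ∧
    (∀ᵐ o ∂C.μ, QLow (at' C v o) (dx C v o) (dy C v o) (dx C T o) (dy C T o) (q o)) ∧
    -δ ≤ ∫ o, q o ∂C.μ - p * ∫ o, φ' (nuC C v o) * dnuC C v T o ∂C.μ ∧
    ∀ (a : E3) (h : ℝ), ‖a‖ = 1 → 1 - Real.exp (-c) ≤ h →
      (∀ s, 0 ≤ s → s < σ → κI * ((σ - s) * h) ^ 2 / (4 * Lc Ee c ^ 2) + ε ≤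
        C.μ.real {o | s * h < |gA v T a (C.pt o)|}) →
      p * k * (h - (1 - Real.exp (-c))) - δ ≤
        ∫ o, q o ∂C.μ - p * ∫ o, φ' (nuC C v o) * dnuC C v T o ∂C.μ

/-- `W(2, 1)` fields are test fields -/
theorem TZ.to0 {C : Calc M γ} {T : Fin 3 → M → ℝ} (h : TZ C 2 1 7 T) {Ee c : ℝ} (hE : 1 ≤ Ee)
    (hc : 0 ≤ c) : TZ0 C 2 Ee 8 (Real.exp c) T where
  lip := h.lip
  odd := h.odd
  bd := fun x => (h.bd x).trans (by norm_num)
  inW := by
    have h1 : 1 ≤ Real.exp c := Real.one_le_exp hc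
    filter_upwards [h.inW] with o ho
    refine ho.mono (by linarith) ?_
    have h2 : 1 ≤ Real.exp c ^ 2 := one_le_pow₀ h1
    nlinarith

/-- the modulus form of the side condition -/
theorem side_mod (C : Calc M γ) {v T : Fin 3 → M → ℝ} {a : E3} (ha : ‖a‖ = 1) {t x : ℝ}
    (h : x ≤ C.μ.real {o | t < |gA v T a (C.pt o)|}) :
    x ≤ C.μ.real {o | t < ‖at' C T o - at' C v o‖} := by
  have := C.fin
  refine h.trans (ENNReal.toReal_mono (measure_ne_top _ _) (measure_mono fun o ho => ?_))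
  have ho' : t < |gA v T a (C.pt o)| := ho
  have h1 : gA v T a (C.pt o) = inner ℝ a (at' C (etaK v T) o) := rfl
  have e0 : at' C (etaK v T) o = at' C T o - at' C v o := vv_eta v T (C.pt o)
  rw [h1, e0] at ho'
  have h2 := abs_real_inner_le_norm a (at' C T o - at' C v o)
  rw [ha, one_mul] at h2
  exact ho'.trans_le h2

theorem GoodP.toX {C : Calc M γ} {φ' : ℝ → ℝ} {Ee c η δ : ℝ} {v : Fin 3 → M → ℝ} (hE : 1 ≤ Ee)
    (hc : 0 ≤ c) (hη : 0 ≤ η) (h : GoodP C φ' δ v) : GoodX C φ' Ee c η (δ + 2 * η) v := by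
  intro hF T hT hZ
  obtain ⟨p, q, hp0, hp2, hq, hQ, hle⟩ := h T hT hZ
  refine ⟨q, hq, hQ, ?_⟩
  have h1 := hF T (hZ.to0 hE hc)
  have h2 := mul_le_mul_of_nonneg_left h1 hp0
  have h3 := mul_le_mul_of_nonneg_right hp2 hη
  linarith

variable [CompactSpace M]

/-- **closing without cost**, all first variations available -/
theorem kenx (C : Calc M γ) (hγ : Bd γ) (hR : RegAE C) {φ φ' : ℝ → ℝ} {s L : ℝ} (P : Pen φ φ' s L)
    {Ee c₀ X δ η : ℝ} (hE : 1 ≤ Ee) (hX : X < 2 * Real.pi) (hδ : 0 < δ) (hη : 0 < η)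
    {U : Fin 3 → M → ℝ} (hU : KY C 2 Ee U (fun _ => c₀)) (hUJ : ∫ o, jac C U o ∂C.μ = 2 * Real.pi)
    (hUX : Ph C φ U < X)
    (h : ∀ (c : ℝ) (v : Fin 3 → M → ℝ), Adm0 C φ Ee c₀ X (c₀ + 18 * X / η) c v →
      GoodX C φ' Ee c η δ v) :
    2 * Real.pi ≤ C.vol + δ := by
  have hpi := Real.pi_pos
  have hκ : 0 < η / 18 := by positivity
  obtain ⟨v, c, hc, hv, hvJ, hvX, hvar, -⟩ := emk0 C hγ hR P (Λ := 2) (E := Ee) (by norm_num)
    (by linarith) hκ hU hUJ hUX hX (K := 8) (m := 1) (by norm_num) one_pos (ε := η / 2) (half_pos hη)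
  have n1 : 0 ≤ Ph C φ v := integral_nonneg fun o => (nuv_nonneg _ _ _).trans (P.ge _ (nuv_nonneg _ _ _))
  have hcc : 0 ≤ η / 18 * (c - c₀) := mul_nonneg hκ.le (by linarith)
  have hcm : c ≤ c₀ + 18 * X / η := by
    have h1 : c - c₀ ≤ X / (η / 18) := by
      rw [le_div_iff₀ hκ]
      linarith
    have e : X / (η / 18) = 18 * X / η := by
      field_simp
    linarith
  have hFV : FV C φ' Ee c η v := by
    intro Z hZ
    have h1 := hvar Z (by rw [one_mul]; exact hZ)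
    linarith
  obtain ⟨F, hF, hfl⟩ := fam_of C hγ hR hv.sph (ε := Real.pi / 12 * δ) (by positivity)
  obtain ⟨q, hq, hQ, hle⟩ := h c v ⟨hc, hcm, hv, hvJ, by linarith⟩ hFV F.Th hF
    (Th_TZ C F (Λ := 2) (E := 1) le_rfl le_rfl)
  have h1 := int_QLow_le C hv.sph F hfl hvJ.le hq hQ
  have e : 12 / Real.pi * (Real.pi / 12 * δ) = δ := by
    field_simp
  linarith

/-- **closing without cost**, multiplier `p` -/
theorem kenp0 (C : Calc M γ) (hγ : Bd γ) (hR : RegAE C) {φ φ' : ℝ → ℝ} {s L : ℝ} (P : Pen φ φ' s L)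
    {Ee c₀ X δ : ℝ} (hE : 1 ≤ Ee) (hc₀ : 0 ≤ c₀) (hX : X < 2 * Real.pi) (hδ : 0 < δ)
    {U : Fin 3 → M → ℝ} (hU : KY C 2 Ee U (fun _ => c₀)) (hUJ : ∫ o, jac C U o ∂C.μ = 2 * Real.pi)
    (hUX : Ph C φ U < X)
    (h : ∀ (c : ℝ) (v : Fin 3 → M → ℝ), Adm0 C φ Ee c₀ X (c₀ + 72 * X / δ) c v →
      GoodP C φ' (δ / 2) v) :
    2 * Real.pi ≤ C.vol + δ := by
  refine kenx C hγ hR P hE hX hδ (η := δ / 4) (by positivity) hU hUJ hUX fun c v hA => ?_
  have e : 18 * X / (δ / 4) = 72 * X / δ := by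
    field_simp
    ring
  rw [e] at hA
  have h1 := (h c v hA).toX (Ee := Ee) (c := c) (η := δ / 4) hE (hc₀.trans hA.hc) (by positivity)
  have e2 : δ / 2 + 2 * (δ / 4) = δ := by ring
  rwa [e2] at h1

omit [CompactSpace M] in
/-- **closing of scheme K** with a general cost and the abstract condition `GoodK` -/
theorem kenp_K {φ φ' G G' : ℝ → ℝ} {sφ Lφ κM LG : ℝ} (P : Pen φ φ' sφ Lφ)
    {κI V Ee c₀ X σ εA : ℝ} (hE : 1 ≤ Ee) (hG : Cost G G' c₀ κM LG) (hκI : 0 < κI) (hV0 : 0 < V) (hc₀ : 0 < c₀)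
    (hσ0 : 0 < σ) (hσ : σ < 1) (hX0 : 0 < X) (hX : X < 2 * Real.pi) (hεA : 0 < εA)
    {δ : ℝ} (hδ : 0 < δ) :
    ∃ ε₁ : ℝ, 0 < ε₁ ∧ ∀ (M : Type) [MetricSpace M] [CompactSpace M] (γ : ℝ → M) (C : Calc M γ),
      Bd γ → RegAE C → C.vol ≤ V → ∀ ε : ℝ, 0 ≤ ε → ε ≤ ε₁ → FPM.IsopO C κI ε →
      ∀ U : Fin 3 → M → ℝ, KY C 2 Ee U (fun _ => c₀) → ∫ o, jac C U o ∂C.μ = 2 * Real.pi →
      Ph C φ U < X →
      (∀ (c : ℝ) (v : Fin 3 → M → ℝ), AdmK C φ G Ee c₀ X εA (c₀ + 64 * X / δ) c v →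
        GoodK C φ' κI (G' c) Ee c (δ / 8) ε σ v) →
      2 * Real.pi ≤ C.vol + δ := by
  have hpi := Real.pi_pos
  have hκM := hG.M0
  have hLG := hG.L0
  have hE0 : 0 ≤ Ee := by linarith
  have hsE : 1 ≤ √Ee := by
    rw [← Real.sqrt_one]
    exact Real.sqrt_le_sqrt hE
  -- constants
  set ρ := (1 - σ) / 3 with hρ
  have hρ0 : 0 < ρ := by rw [hρ]; linarith
  obtain ⟨n, hn, hnet⟩ := net_dir (ρ := ρ) hρ0 (by rw [hρ]; linarith)
  have hn' : (0 : ℝ) < n := by exact_mod_cast hn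
  set q₀ := 1 - Real.exp (-c₀) with hq₀
  have hq00 : 0 < q₀ := by
    have : Real.exp (-c₀) < 1 := by
      rw [← Real.exp_zero]
      exact Real.exp_lt_exp.mpr (by linarith)
    rw [hq₀]
    linarith
  set ε₀ := δ / 12 with hε₀
  have hε₀0 : 0 < ε₀ := by positivity
  set κ' := δ / 64 with hκ'
  have hκ'0 : 0 < κ' := by positivity
  have hke : 0 ≤ kEff 7 κM κ' LG := kEff_nonneg hκM hκ'0.le hLG
  set E₁ := Real.exp (c₀ + X / κ') with hE₁
  have hE₁0 : 0 < E₁ := Real.exp_pos _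
  set E₂ := √Ee * E₁ with hE₂
  have hE₂0 : 0 < E₂ := by positivity
  set S := stA V 7 Ee sφ Lφ (kEff 7 κM κ' LG) X ε₀ with hS
  have hS0 : 0 < S := stA_pos hV0.le (by norm_num) hE0 P.s0 P.L0 hke hX hε₀0
  set b2 := 16 * n * (E₂ + 1) ^ 2 * X ^ 2 / (κI * ρ ^ 2 * q₀ ^ 2 * (S * ε₀)) with hb2
  set b3 := X / εA with hb3
  have hb20 : 0 < b2 := by positivity
  have hb30 : 0 < b3 := by positivity
  set β := b2 + b3 with hβ
  have hβ0 : 0 < β := by positivity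
  set θ := S * (ε₀ / 4) / β with hθ
  have hθ0 : 0 < θ := by positivity
  set δ' := δ / (8 * (κM + 1)) with hδ'
  have hδ'0 : 0 < δ' := by positivity
  refine ⟨θ / (2 * n), by positivity, ?_⟩
  intro M _ _ γ C hγ hR hV ε hε0 hε1 hI U hU hUJ hUX hgood
  have := C.fin
  obtain ⟨v, c, c', A, F, hc, hKA, hJ, htot, hPre, hflux, hvar⟩ := kint3 C hγ hR P hE hG hκ'0.le hβ0.le hU
    hUJ hUX hX hε₀0 hV
  have hT := Th_TZ C F (Λ := 2) (E := 1) le_rfl le_rfl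
  have n0 : 0 ≤ Ph C φ v := integral_nonneg fun o => (nuv_nonneg _ _ _).trans (P.ge _ (nuv_nonneg _ _ _))
  have m0 : 0 ≤ C.μ.real A := measureReal_nonneg
  have t1 : 0 ≤ G c := hG.nonneg c hc
  have t2 : 0 ≤ κ' * (c' - c₀) := mul_nonneg hκ'0.le (by linarith only [hc, hKA.le])
  have t3 : 0 ≤ β * C.μ.real A := mul_nonneg hβ0.le m0
  have hXc : Ph C φ v + G c ≤ X := by linarith only [htot, t2, t3]
  have hc'0 : c' ≤ c₀ + X / κ' := by
    have : c' - c₀ ≤ X / κ' := by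
      rw [le_div_iff₀ hκ'0]
      linarith only [htot, t1, t3, n0]
    linarith only [this]
  have hc'E : Real.exp c' ≤ E₁ := Real.exp_le_exp.mpr hc'0
  have hAβ : C.μ.real A ≤ X / β := by
    rw [le_div_iff₀ hβ0]
    linarith only [htot, t1, t2, n0]
  have hE'0 := Real.exp_pos c'
  have hAε : C.μ.real A ≤ εA := by
    refine hAβ.trans ?_
    have h1 : X / β ≤ X / b3 := div_le_div_of_nonneg_left hX0.le hb30 (by
      rw [hβ]
      linarith only [hb20])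
    have h2 : X / b3 = εA := by
      rw [hb3]
      field_simp
    linarith only [h1, h2]
  have hcm : c' ≤ c₀ + 64 * X / δ := by
    have e : X / κ' = 64 * X / δ := by
      rw [hκ']
      field_simp
    linarith only [hc'0, e]
  obtain ⟨p, q₁, hp0, hp2, hq1, hQL, hge0, hside⟩ :=
    hgood c v ⟨hc, hKA.sph, hJ, hXc, c', A, hKA, hAε, hcm⟩ F.Th hPre hT
  have hc0 : 0 < c := by linarith only [hc, hc₀]
  set q := 1 - Real.exp (-c) with hq
  have hqq : q₀ ≤ q := by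
    have : Real.exp (-c) ≤ Real.exp (-c₀) := Real.exp_le_exp.mpr (by linarith only [hc])
    rw [hq, hq₀]
    linarith only [this]
  have hq0 : 0 < q := by linarith only [hqq, hq00]
  -- the choice of d
  set D : Set ℝ := {d | 0 ≤ d ∧ d ≤ 8 ∧ β * C.μ.real (hA C v F.Th c d) ≤ S * (ε₀ / 4)} with hD
  have h8 : (8 : ℝ) ∈ D := by
    refine ⟨by norm_num, le_rfl, ?_⟩
    have : hA C v F.Th c 8 = ∅ := by
      ext o
      simp only [hA, Set.mem_ofPred_eq, mem_empty_iff_false, iff_false, not_lt]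
      have h1 := abs_real_inner_le_norm (at' C v o) (at' C F.Th o)
      rw [norm_at hKA.sph o, one_mul] at h1
      have h2 := neg_abs_le (inner ℝ (at' C v o) (at' C F.Th o) : ℝ)
      have h3 : ‖at' C F.Th o‖ ≤ 7 := hT.bd (C.pt o)
      have h4 : Real.exp (-c) ≤ 1 := by
        have : q = 1 - Real.exp (-c) := rfl
        linarith only [this, hq0]
      linarith only [h1, h2, h3, h4]
    rw [this, measureReal_empty, mul_zero]
    positivity
  obtain ⟨d, hd, hcase⟩ := ken_d h8 (fun d hd => hd.1) hδ'0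
  have hKF1 := hvar d hd.1 hd.2.1 hd.2.2
  have hKF2 := hflux q₁ hq1 hQL
  have hG'0 : 0 ≤ G' c := hG.nonneg' c hc
  obtain ⟨I, hI'⟩ : ∃ I : ℝ, I = ∫ o, φ' (nuC C v o) * dnuC C v F.Th o ∂C.μ := ⟨_, rfl⟩
  rw [← hI'] at hKF1 hge0 hside
  have hKF : ∫ o, q₁ o ∂C.μ - p * I ≤
      3 * (C.vol - 2 * Real.pi) + 3 * ε₀ + p * (G' c * d) + 16 * κ' := by
    have h1 := mul_le_mul_of_nonneg_left hKF1 hp0
    have h2 : p * (8 * κ') ≤ 2 * (8 * κ') := mul_le_mul_of_nonneg_right hp2 (by positivity)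
    have h3 : p * ε₀ ≤ 2 * ε₀ := mul_le_mul_of_nonneg_right hp2 hε₀0.le
    have e : p * (I + G' c * d + 8 * κ') = p * I + p * (G' c * d) + p * (8 * κ') := by ring
    rw [e] at h1
    linarith only [h1, h2, h3, hKF2]
  have e1 : 3 * ε₀ = δ / 4 := by rw [hε₀]; ring
  have e2 : 16 * κ' = δ / 4 := by rw [hκ']; ring
  have e3 : p * (G' c * δ') ≤ δ / 4 := by
    have h1 : G' c * δ' ≤ (κM + 1) * δ' :=
      mul_le_mul_of_nonneg_right (by linarith only [hG.le' c hc]) hδ'0.le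
    have h2 : (κM + 1) * δ' = δ / 8 := by
      rw [hδ']
      field_simp
    have h3 : 0 ≤ G' c * δ' := mul_nonneg hG'0 hδ'0.le
    have h4 : p * (G' c * δ') ≤ 2 * (G' c * δ') := mul_le_mul_of_nonneg_right hp2 h3
    linarith only [h1, h2, h4]
  rcases hcase with hcase | ⟨hdδ, hnot⟩
  · -- no error
    have g4 : p * (G' c * d) ≤ p * (G' c * δ') :=
      mul_le_mul_of_nonneg_left (mul_le_mul_of_nonneg_left hcase.le hG'0) hp0
    linarith only [hKF, hge0, g4, e1, e2, e3, hδ]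
  · -- the side condition
    have hlt : θ < C.μ.real (hA C v F.Th c (d - δ')) := by
      by_contra hcon
      push Not at hcon
      refine hnot ⟨by linarith only [hdδ], by linarith only [hd.2.1, hδ'0], ?_⟩
      rw [hθ, le_div_iff₀ hβ0] at hcon
      linarith only [hcon]
    set qq := √2 * (E₂ + 1) * (X / β) with hqq'
    have s20 : 0 < √(2 : ℝ) := Real.sqrt_pos.2 (by norm_num)
    have sk : 0 < √κI := Real.sqrt_pos.2 hκI
    have hqq0 : 0 < qq := by positivity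
    set B₀ := qq / (√κI * ρ * q₀) with hB₀
    have hB₀0 : 0 < B₀ := by positivity
    have hB₀2 : B₀ ^ 2 ≤ θ / (2 * n) :=
      ken_B hκI hρ0 hq00 hS0 hε₀0 hn' hβ0 (by rw [hβ]; linarith only [hb30])
    have hBn : B₀ ^ 2 + ε ≤ θ / n := by
      have : θ / n = θ / (2 * n) + θ / (2 * n) := by
        rw [← add_div, ← two_mul, mul_div_mul_left _ _ two_ne_zero]
      rw [this]
      exact add_le_add hB₀2 hε1
    obtain ⟨a, ha, hdir⟩ := ken_dirK C (ε₁ := ε) hI hκI hE0 hKA hT hσ (n := n) hnet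
      (d := d - δ') (θ := θ) (B₀ := B₀) (qq := qq) (by linarith only [hdδ]) hc0 hθ0.le hlt hB₀0 hBn
      (by
        have h0 : √Ee * Real.exp c' ≤ E₂ := mul_le_mul_of_nonneg_left hc'E (by linarith only [hsE])
        have h1 : Lc Ee c' ≤ √2 * (E₂ + 1) :=
          mul_le_mul_of_nonneg_left (by linarith only [h0]) s20.le
        exact mul_le_mul h1 hAβ m0 (by positivity))
      (by
        change qq ≤ √κI * ρ * q * B₀
        have h1 : √κI * ρ * q₀ * B₀ = qq := by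
          rw [hB₀]
          exact mul_div_cancel₀ _ (by positivity)
        have h2 : √κI * ρ * q₀ * B₀ ≤ √κI * ρ * q * B₀ :=
          mul_le_mul_of_nonneg_right (mul_le_mul_of_nonneg_left hqq (by positivity)) hB₀0.le
        linarith only [h1, h2])
    have g1 := hside a (q + (d - δ')) ha (by linarith only [hdδ]) hdir
    have g7 : q + (d - δ') - q = d - δ' := by ring
    rw [g7] at g1
    have g9 : p * G' c * (d - δ') = p * (G' c * d) - p * (G' c * δ') := by ring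
    rw [g9] at g1
    linarith only [hKF, g1, e1, e2, e3, hδ]

/-! ### assembly -/

omit [CompactSpace M] in
/-- **the sharp closing statement without cost**, for one `δ` -/
theorem close_of_goodP {φ φ' : ℝ → ℝ} {sφ Lφ Ee c₀ X₀ X δ : ℝ} (hE : 1 ≤ Ee) (P : Pen φ φ' sφ Lφ)
    (hc₀ : 0 ≤ c₀) (hX : X < 2 * Real.pi) (hδ : 0 < δ) (hS : StartPh φ Ee X₀ c₀) (hXX : X₀ < X)
    (hC : ∃ ε₂ : ℝ, 0 < ε₂ ∧ ∀ (M : Type) [MetricSpace M] [CompactSpace M] [Nonempty M] (γ : ℝ → M)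
      (C : Calc M γ) (ε : ℝ), 0 < ε → ε ≤ ε₂ → NearM C ε → C.vol < 2 * Real.pi →
      ∀ (c : ℝ) (v : Fin 3 → M → ℝ), Adm0 C φ Ee c₀ X (c₀ + 72 * X / δ) c v → GoodP C φ' (δ / 2) v) :
    Close (2 * Real.pi - δ) := by
  obtain ⟨εS, hεS, hS⟩ := hS (X - X₀) (by linarith)
  obtain ⟨ε₂, hε₂, hC⟩ := hC
  refine Close.of_lt (by linarith) ⟨min εS ε₂, lt_min hεS hε₂, ?_⟩
  intro M _ _ _ γ C hN hv
  obtain ⟨U, hU, hJ, hPh⟩ := hS M γ C (NearM.mono hN (min_le_left _ _)) hv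
  have key := kenp0 C hN.bd hN.regae P hE hc₀ hX hδ hU hJ (by linarith)
    (hC M γ C _ (lt_min hεS hε₂) (min_le_right _ _) hN hv)
  linarith

omit [CompactSpace M] in
/-- **the sharp closing statement without cost**, all first variations available, for one `δ` -/
theorem close_of_goodX {φ φ' : ℝ → ℝ} {sφ Lφ Ee c₀ X₀ X δ η : ℝ} (hE : 1 ≤ Ee) (P : Pen φ φ' sφ Lφ)
    (hX : X < 2 * Real.pi) (hδ : 0 < δ) (hη : 0 < η) (hS : StartPh φ Ee X₀ c₀)
    (hXX : X₀ < X)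
    (hC : ∃ ε₂ : ℝ, 0 < ε₂ ∧ ∀ (M : Type) [MetricSpace M] [CompactSpace M] [Nonempty M] (γ : ℝ → M)
      (C : Calc M γ) (ε : ℝ), 0 < ε → ε ≤ ε₂ → NearM C ε → C.vol < 2 * Real.pi →
      ∀ (c : ℝ) (v : Fin 3 → M → ℝ), Adm0 C φ Ee c₀ X (c₀ + 18 * X / η) c v →
        GoodX C φ' Ee c η δ v) :
    Close (2 * Real.pi - δ) := by
  obtain ⟨εS, hεS, hS⟩ := hS (X - X₀) (by linarith)
  obtain ⟨ε₂, hε₂, hC⟩ := hC
  refine Close.of_lt (by linarith) ⟨min εS ε₂, lt_min hεS hε₂, ?_⟩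
  intro M _ _ _ γ C hN hv
  obtain ⟨U, hU, hJ, hPh⟩ := hS M γ C (NearM.mono hN (min_le_left _ _)) hv
  have key := kenx C hN.bd hN.regae P hE hX hδ hη hU hJ (by linarith)
    (hC M γ C _ (lt_min hεS hε₂) (min_le_right _ _) hN hv)
  linarith

/-- **every admissible pair is good**, for one `δ`; the tolerances do not depend on the surface -/
def ClosingK (φ φ' G G' : ℝ → ℝ) (κ Ee c₀ X σ δ : ℝ) : Prop :=
  ∃ εA ε₂ : ℝ, 0 < εA ∧ 0 < ε₂ ∧ ∀ (M : Type) [MetricSpace M] [CompactSpace M] [Nonempty M] (γ : ℝ → M)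
    (C : Calc M γ) (ε : ℝ), 0 < ε → ε ≤ ε₂ → NearM C ε → C.vol < 2 * Real.pi →
    ∀ (c : ℝ) (v : Fin 3 → M → ℝ), AdmK C φ G Ee c₀ X εA (c₀ + 64 * X / δ) c v →
      GoodK C φ' κ (G' c) Ee c (δ / 8) ε σ v

omit [CompactSpace M] in
/-- **the sharp closing statement with cost**, for one `δ` -/
theorem close_of_goodK {φ φ' G G' : ℝ → ℝ} {sφ Lφ κM LG κ Ee c₀ X₀ X σ δ : ℝ} (hE : 1 ≤ Ee)
    (P : Pen φ φ' sφ Lφ) (hG : Cost G G' c₀ κM LG) (hκ : 0 < κ) (hc₀ : 0 < c₀) (hσ0 : 0 < σ)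
    (hσ : σ < 1) (hX0 : 0 < X) (hX : X < 2 * Real.pi) (hδ : 0 < δ)
    (hIso : ∀ (M : Type) [MetricSpace M] [CompactSpace M] (γ : ℝ → M) (C : Calc M γ) (ε : ℝ), 0 < ε →
      NearM C ε → C.vol < 2 * Real.pi → IsopO C κ ε)
    (hS : StartPh φ Ee X₀ c₀) (hXX : X₀ < X) (hC : ClosingK φ φ' G G' κ Ee c₀ X σ δ) :
    Close (2 * Real.pi - δ) := by
  have hpi := Real.pi_pos
  obtain ⟨εS, hεS, hS⟩ := hS (X - X₀) (by linarith)
  obtain ⟨εA, ε₂, hεA, hε₂, hC⟩ := hC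
  obtain ⟨ε₁, hε₁, hK⟩ := kenp_K P (V := 2 * Real.pi) hE hG hκ (by positivity) hc₀ hσ0 hσ hX0 hX hεA hδ
  refine Close.of_lt (by linarith) ⟨min εS (min ε₁ ε₂), lt_min hεS (lt_min hε₁ hε₂), ?_⟩
  intro M _ _ _ γ C hN hv
  have h0 : 0 < min εS (min ε₁ ε₂) := lt_min hεS (lt_min hε₁ hε₂)
  obtain ⟨U, hU, hJ, hPh⟩ := hS M γ C (NearM.mono hN (min_le_left _ _)) hv
  have key := hK M γ C hN.bd hN.regae hv.le _ h0.le ((min_le_right _ _).trans (min_le_left _ _))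
    (hIso M γ C _ h0 hN hv) U hU hJ (by linarith)
    (hC M γ C _ h0 ((min_le_right _ _).trans (min_le_right _ _)) hN hv)
  linarith

end Pool.Agent.FPX
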