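import Mathlib
import Pool.Agent.FPX.ASE
import Pool.Agent.FPX.CLH
import Pool.Agent.FPX.KENP
import Pool.Agent.FPM.I58LV

/-
ASF (helper96): `ClosesE` (general energy constant `Ee ≥ 1` of the class) from the tables of CLG and CLH and from
the conditions of KENP; the odd isoperimetric inequality (ISO58) is inside.
-/

open MeasureTheory Set Filter Topology
open scoped ENNReal NNReal

noncomputable section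

namespace Pool.Agent.FPX.ASX

open Pool.Agent.FPX Pool.Agent.EWD Pool.Agent.FPM Pool.Agent.FPX.VTB

/-- from one `CellP` per cell and polygon -/
theorem closesE_gen {κ X σ se c₀ k₀ B R : ℚ} {L lφ : List (ℚ × ℚ)} {ζ : List ℚ}
    {P : List ((ℚ × ℚ) × List (ℚ × ℚ))} {Ee : ℝ} (hE : 1 ≤ Ee)
    (hd : hdOk κ X σ se c₀ k₀ B R L lφ ζ P = true)
    (hQ : ∀ i, i < P.length → ∃ Q, PWE (pkD 0 1 (clQ lφ)) (Wq lφ (Pi' P i).1 (Pi' P i).2) 1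
      (fun v a b => PE (enb a b) - (ζ.getD i 0 : ℚ) * pkG 0 1 (clQ lφ) (nuv v a b)) Q)
    (hC : ∀ r ∈ qCells c₀ 0 k₀ L, r.2.2.1 ≤ X → ∀ i, i < P.length →
      CellP (pkG 0 1 (clQ lφ)) (pkG c₀ k₀ (clQ L)) (pkD c₀ k₀ (clQ L))
        (Wq lφ (Pi' P i).1 (Pi' P i).2) κ Ee c₀ X σ B r.1 r.2.1 r.2.2.1 r.2.2.2
        (fun x => i + 1 < P.length → x ≤ ((ζ.getD (i + 1) 0 : ℚ) : ℝ) * (X - r.2.2.1))) :
    ClosesE (pkG 0 1 (clQ lφ)) Ee c₀ X := fun _ hS hXs => close58_gen hE hd hQ hC hS hXs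

/-- from the column checks -/
theorem closesE_cols {κ X σ se c₀ k₀ B R : ℚ} {L lφ : List (ℚ × ℚ)} {ζ : List ℚ}
    {P : List ((ℚ × ℚ) × List (ℚ × ℚ))} {Ee : ℝ} (hE : 1 ≤ Ee) (hse : √Ee ≤ se)
    (hd : hdOk κ X σ se c₀ k₀ B R L lφ ζ P = true)
    (hQ : ∀ i, i < P.length → ∃ Q, PWE (pkD 0 1 (clQ lφ)) (Wq lφ (Pi' P i).1 (Pi' P i).2) 1
      (fun v a b => PE (enb a b) - (ζ.getD i 0 : ℚ) * pkG 0 1 (clQ lφ) (nuv v a b)) Q)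
    (hC : ∀ r ∈ qCells c₀ 0 k₀ L, r.2.2.1 ≤ X → ∃ ds e, colOk κ X σ se B lφ ζ P r ds e = true) :
    ClosesE (pkG 0 1 (clQ lφ)) Ee c₀ X := fun _ hS hXs => close58_cols hE hse hd hQ hC hS hXs

/-- the odd isoperimetric inequality of near minimal metrics for every constant up to `10000 π / 5439` -/
theorem iso58' {κ : ℝ} (h0 : 0 ≤ κ) (hκ : κ ≤ 10000 / 5439 * Real.pi) (M : Type) [MetricSpace M]
    [CompactSpace M] (γ : ℝ → M) (C : Calc M γ) (ε : ℝ) (hε : 0 < ε) (hN : NearM C ε)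
    (hv : C.vol < 2 * Real.pi) : IsopO C κ ε :=
  isopO_le_kappa (isopO58 hN.bd hN.regpl hN.colb hε.le hN.nm (by linarith [Real.pi_pos])) h0 hκ

/-- **KENP, with cost** -/
theorem closesE_K {φ φ' G G' : ℝ → ℝ} {sφ Lφ κM LG κ Ee c₀ X σ : ℝ} (hE : 1 ≤ Ee) (P : Pen φ φ' sφ Lφ)
    (hG : Cost G G' c₀ κM LG) (hκ : 0 < κ) (hκ' : κ ≤ 10000 / 5439 * Real.pi) (hc₀ : 0 < c₀) (hσ0 : 0 < σ)
    (hσ : σ < 1) (hX0 : 0 < X) (hX : X < 2 * Real.pi)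
    (hC : ∀ δ : ℝ, 0 < δ → ClosingK φ φ' G G' κ Ee c₀ X σ δ) : ClosesE φ Ee c₀ X :=
  fun _ hS hXs δ hδ => close_of_goodK hE P hG hκ hc₀ hσ0 hσ hX0 hX hδ (iso58' hκ.le hκ') hS hXs
    (hC δ hδ)

/-- **KENP, without cost** -/
theorem closesE_P {φ φ' : ℝ → ℝ} {sφ Lφ Ee c₀ X : ℝ} (hE : 1 ≤ Ee) (P : Pen φ φ' sφ Lφ) (hc₀ : 0 ≤ c₀)
    (hX : X < 2 * Real.pi)
    (hC : ∀ δ : ℝ, 0 < δ → ∃ ε₂ : ℝ, 0 < ε₂ ∧ ∀ (M : Type) [MetricSpace M] [CompactSpace M] [Nonempty M]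
      (γ : ℝ → M) (C : Calc M γ) (ε : ℝ), 0 < ε → ε ≤ ε₂ → NearM C ε → C.vol < 2 * Real.pi →
      ∀ (c : ℝ) (v : Fin 3 → M → ℝ), Adm0 C φ Ee c₀ X (c₀ + 72 * X / δ) c v → GoodP C φ' (δ / 2) v) :
    ClosesE φ Ee c₀ X :=
  fun _ hS hXs δ hδ => close_of_goodP hE P hc₀ hX hδ hS hXs (hC δ hδ)

/-- **KENP, without cost, all first variations** -/
theorem closesE_X {φ φ' : ℝ → ℝ} {sφ Lφ Ee c₀ X : ℝ} (hE : 1 ≤ Ee) (P : Pen φ φ' sφ Lφ)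
    (hX : X < 2 * Real.pi)
    (hC : ∀ δ : ℝ, 0 < δ → ∃ η : ℝ, 0 < η ∧ ∃ ε₂ : ℝ, 0 < ε₂ ∧ ∀ (M : Type) [MetricSpace M]
      [CompactSpace M] [Nonempty M] (γ : ℝ → M) (C : Calc M γ) (ε : ℝ), 0 < ε → ε ≤ ε₂ → NearM C ε →
      C.vol < 2 * Real.pi → ∀ (c : ℝ) (v : Fin 3 → M → ℝ), Adm0 C φ Ee c₀ X (c₀ + 18 * X / η) c v →
        GoodX C φ' Ee c η δ v) : ClosesE φ Ee c₀ X := by
  intro _ hS hXs δ hδ
  obtain ⟨η, hη, h⟩ := hC δ hδ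
  exact close_of_goodX hE P hX hδ hη hS hXs h

/-- general closings of FAC3 (`Closing`) -/
theorem closesE_of {φ φ' Wm G G' : ℝ → ℝ} {sφ Lφ κM LG κ Ee c₀ X σ : ℝ} (hE : 1 ≤ Ee)
    (P : Pen φ φ' sφ Lφ) (hWm0 : ∀ x, 0 ≤ x → 0 ≤ Wm x) (hWmm : ∀ x y, 0 ≤ x → x ≤ y → Wm x ≤ Wm y)
    (hG : Cost G G' c₀ κM LG) (hκ : 0 < κ) (hκ' : κ ≤ 10000 / 5439 * Real.pi) (hc₀ : 0 < c₀) (hσ0 : 0 < σ)
    (hσ : σ < 1) (hX0 : 0 < X) (hX : X < 2 * Real.pi) (hC : Closing φ φ' Wm G G' κ Ee c₀ X σ) :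
    ClosesE φ Ee c₀ X := by
  intro Xs hS hXs
  refine close_of_closing (m := 1) hE P hWm0 hWmm hG hκ one_pos hc₀ hσ0 hσ hX0 hX
    (fun M _ _ γ C ε hε hN hv => ?_) hS hXs hC
  rw [one_mul]
  exact iso58' hκ.le hκ' M γ C ε hε hN hv

end Pool.Agent.FPX.ASX
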