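import Mathlib
import Pool.Agent.FPX.OMX

/-
OMG (helper11): the class of forms of OM7 enlarged by the pair `P = conj(C₃) C₅` (helper68) and by the linear
pair of `C₅`: the value at a state, the certificate, the raw inequality (with any start map), the area bound.
-/

open MeasureTheory Set Filter Topology Complex
open scoped ENNReal NNReal ContDiff ComplexConjugate

noncomputable section

namespace Pool.Agent.FPX.OMG

open Pool.Agent.FPX Pool.Agent.FPX.UMP Pool.Agent.FPX.UMQ Pool.Agent.FPX.UXA Pool.Agent.EWD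
open Pool.Agent.FPX.F54 (X1 X2 dX1 dX2 X_lt X_G1 X_G2 vF sF)
open Pool.Agent.FPX.S54 (dS2 dS0 mS Fv ME YY de)
open Pool.Agent.FPX.OMB (vm vm_int vm_prob bm_ep bm_real)
open Pool.Agent.FPX.CRD (Bm)
open Pool.Agent.FPX.OMS (rF cF cF_eq Aa Ba Kc ME_vm Kc_meas Kc_le AB_eq)
open Pool.Agent.FPX.SYS (P7 dP7 sys7 CE dCE K2 K0)
open Pool.Agent.FPX.CST (cu du dl gv gt nu ja zt ss hh OO cj lab tt Sys  isOpen_OO dl_gv dl_gv_add
  contDiffOn_spa contDiffOn_spb contDiff_cj contDiff_cjc)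
open Pool.Agent.FPX.OM7

/-! ### the system -/

/-- `F54`, `S₂`, `S₀`, `C₃`, `C₅` -/
def P9 : Fin (7 + 2) → (ℝ → ℝ) → ℝ :=
  ![X1, X2, fun f => (S54.S2 f).re, fun f => (S54.S2 f).im, S54.S0, fun f => (CE 3 f).re, fun f => (CE 3 f).im,
    fun f => (CE 5 f).re, fun f => (CE 5 f).im]

/-- their derivatives -/
def dP9 : Fin (7 + 2) → (ℝ → ℝ) → (ℝ → ℝ) → ℝ :=
  ![dX1, dX2, fun f h => (dS2 f h).re, fun f h => (dS2 f h).im, dS0, fun f h => (dCE 3 f h).re,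
    fun f h => (dCE 3 f h).im, fun f h => (dCE 5 f h).re, fun f h => (dCE 5 f h).im]

theorem sys9 : Sys P9 dP9 3 7 := by
  refine SYS.sys (n := 7) (ψ := ![fun f => (S54.S2 f).re, fun f => (S54.S2 f).im, S54.S0,
      fun f => (CE 3 f).re, fun f => (CE 3 f).im, fun f => (CE 5 f).re, fun f => (CE 5 f).im])
    (dψ := ![fun f h => (dS2 f h).re, fun f h => (dS2 f h).im, dS0, fun f h => (dCE 3 f h).re,
      fun f h => (dCE 3 f h).im, fun f h => (dCE 5 f h).re, fun f h => (dCE 5 f h).im]) (fun i => ?_)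
      fun i m h0 h1 => ?_
  · fin_cases i
    exacts [SYS.fn_S2 Complex.reCLM, SYS.fn_S2 Complex.imCLM, SYS.fn_S0, SYS.fn_CE Complex.reCLM (by norm_num),
      SYS.fn_CE Complex.imCLM (by norm_num), SYS.fn_CE Complex.reCLM (by norm_num),
      SYS.fn_CE Complex.imCLM (by norm_num)]
  · fin_cases i
    exacts [SYS.bdd_S2 Complex.reCLM h0 h1, SYS.bdd_S2 Complex.imCLM h0 h1, SYS.bdd_S0 h0 h1,
      SYS.bdd_CE Complex.reCLM (by norm_num) h0 h1, SYS.bdd_CE Complex.imCLM (by norm_num) h0 h1,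
      SYS.bdd_CE Complex.reCLM (by norm_num) h0 h1, SYS.bdd_CE Complex.imCLM (by norm_num) h0 h1]

theorem e0 : P9 0 = X1 := rfl

theorem e1 : P9 1 = X2 := rfl

theorem d0 : dP9 0 = dX1 := rfl

theorem d1 : dP9 1 = dX2 := rfl

theorem ztu (f : ℝ → ℝ) : zt (cu P9 f) = YY (X1 f) (X2 f) := SYS.zt_cu e0 e1 f

theorem rru (f : ℝ → ℝ) : CST.rr (cu P9 f) = rF f := SYS.rr_cu e0 e1 f

theorem ccu (f : ℝ → ℝ) : CST.cc (cu P9 f) = cF f := (SYS.cc_cu e0 e1 f).trans (cF_eq f)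

theorem vvu (f h : ℝ → ℝ) : CST.vv (cu P9 f) (du dP9 f h) = vF f h := SYS.vv_cu e0 e1 d0 d1 f h

theorem jau (f h k : ℝ → ℝ) : ja (cu P9 f) (du dP9 f h) (du dP9 f k) = (conj (vF f h) * vF f k).im := by
  unfold ja
  rw [vvu, vvu]

theorem cj3 (f : ℝ → ℝ) : cj 5 6 (cu P9 f) = CE 3 f := rfl

theorem cjd3 (f h : ℝ → ℝ) : cj 5 6 (du dP9 f h) = dCE 3 f h := rfl

theorem cj5 (f : ℝ → ℝ) : cj 7 8 (cu P9 f) = CE 5 f := rfl

theorem cjd5 (f h : ℝ → ℝ) : cj 7 8 (du dP9 f h) = dCE 5 f h := rfl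

/-! ### pull back of the forms on `Fin (5 + 2)` -/

/-- the projection -/
def pr : (Fin (7 + 2) → ℝ) →L[ℝ] (Fin (5 + 2) → ℝ) :=
  ContinuousLinearMap.pi fun i => ContinuousLinearMap.proj (Fin.castLE (by norm_num) i)

theorem pr_ap (u : Fin (7 + 2) → ℝ) (i : Fin (5 + 2)) : pr u i = u (Fin.castLE (by norm_num) i) := rfl

theorem pr_cu (f : ℝ → ℝ) : pr (cu P9 f) = cu P7 f := by
  funext i
  rw [pr_ap]
  fin_cases i <;> rfl

theorem pr_du (f h : ℝ → ℝ) : pr (du dP9 f h) = du dP7 f h := by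
  funext i
  rw [pr_ap]
  fin_cases i <;> rfl

theorem zt_pr (u : Fin (7 + 2) → ℝ) : zt (pr u) = zt u := rfl

theorem rr_pr (u : Fin (7 + 2) → ℝ) : CST.rr (pr u) = CST.rr u := rfl

theorem cc_pr (u : Fin (7 + 2) → ℝ) : CST.cc (pr u) = CST.cc u := rfl

theorem vv_pr (u p : Fin (7 + 2) → ℝ) : CST.vv (pr u) (pr p) = CST.vv u p := rfl

theorem ja_pr (u p q : Fin (7 + 2) → ℝ) : ja (pr u) (pr p) (pr q) = ja u p q := rfl

theorem maps_pr : MapsTo (pr : (Fin (7 + 2) → ℝ) → (Fin (5 + 2) → ℝ)) (OO 7) (OO 5) := fun _ hu => hu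

theorem cd_pr {G : (Fin (5 + 2) → ℝ) → ℂ} (hG : ContDiffOn ℝ 1 G (OO 5)) :
    ContDiffOn ℝ 1 (fun u => G (pr u)) (OO 7) := hG.comp pr.contDiff.contDiffOn maps_pr

theorem dl_pr {G : (Fin (5 + 2) → ℝ) → ℂ} (hG : ContDiffOn ℝ 1 G (OO 5)) {u : Fin (7 + 2) → ℝ} (hu : u ∈ OO 7)
    (p q : Fin (7 + 2) → ℝ) :
    dl (fun i u => fderiv ℝ (gv (fun u => G (pr u)) i) u) u p q =
      dl (fun i u => fderiv ℝ (gv G i) u) (pr u) (pr p) (pr q) := by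
  have hG' : DifferentiableAt ℝ G (pr u) :=
    (hG.contDiffAt (isOpen_OO.mem_nhds (maps_pr hu))).differentiableAt one_ne_zero
  have e : fderiv ℝ (fun u => G (pr u)) u = (fderiv ℝ G (pr u)).comp pr := by
    have := (hG'.hasFDerivAt.comp u pr.hasFDerivAt).fderiv
    exact this
  rw [dl_gv (cd_pr hG) hu, dl_gv hG (maps_pr hu), e]
  rfl

/-! ### the forms -/

/-- coefficients (functions of `|ζ|²`) of the enlarged class -/
structure Cof9 where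
  C : Cof
  p1 : ℝ → ℝ
  p2 : ℝ → ℝ
  x5 : ℝ → ℝ
  y5 : ℝ → ℝ

structure Cof9.Sm (F : Cof9) : Prop where
  C : F.C.Sm
  p1 : ContDiffOn ℝ 1 F.p1 (Iio 1)
  p2 : ContDiffOn ℝ 1 F.p2 (Iio 1)
  x5 : ContDiffOn ℝ 1 F.x5 (Iio 1)
  y5 : ContDiffOn ℝ 1 F.y5 (Iio 1)

variable {F : Cof9}

/-- `C₃ conj C₅` -/
def Pc (u : Fin (7 + 2) → ℝ) : ℂ := cj 5 6 u * conj (cj 7 8 u)

/-- `conj C₃ C₅` -/
def Pp (u : Fin (7 + 2) → ℝ) : ℂ := conj (cj 5 6 u) * cj 7 8 u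

def g1 (F : Cof9) (u : Fin (7 + 2) → ℝ) : ℂ := (F.p1 (CST.rr u) : ℂ) * zt u ^ 1 * Pc u

def g2 (F : Cof9) (u : Fin (7 + 2) → ℝ) : ℂ := (F.p2 (CST.rr u) : ℂ) * conj (zt u) ^ (2 + 1) * Pp u

def g3 (F : Cof9) (u : Fin (7 + 2) → ℝ) : ℂ := (F.x5 (CST.rr u) : ℂ) * zt u ^ 4 * conj (cj 7 8 u)

def g4 (F : Cof9) (u : Fin (7 + 2) → ℝ) : ℂ := (F.y5 (CST.rr u) : ℂ) * conj (zt u) ^ (5 + 1) * cj 7 8 u

/-- the function `G` of the form -/
def G9 (F : Cof9) (u : Fin (7 + 2) → ℝ) : ℂ := G7 F.C (pr u) + (g1 F u + (g2 F u + (g3 F u + g4 F u)))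

theorem cd_Pc : ContDiffOn ℝ 1 Pc (OO 7) := ((contDiff_cj 5 6).mul (contDiff_cjc 7 8)).contDiffOn

theorem cd_Pp : ContDiffOn ℝ 1 Pp (OO 7) := ((contDiff_cjc 5 6).mul (contDiff_cj 7 8)).contDiffOn

theorem Cof9.Sm.c1 (H : F.Sm) : ContDiffOn ℝ 1 (g1 F) (OO 7) := contDiffOn_spa H.p1 cd_Pc 1

theorem Cof9.Sm.c2 (H : F.Sm) : ContDiffOn ℝ 1 (g2 F) (OO 7) := contDiffOn_spb H.p2 cd_Pp (2 + 1)

theorem Cof9.Sm.c3 (H : F.Sm) : ContDiffOn ℝ 1 (g3 F) (OO 7) :=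
  contDiffOn_spa H.x5 (contDiff_cjc 7 8).contDiffOn 4

theorem Cof9.Sm.c4 (H : F.Sm) : ContDiffOn ℝ 1 (g4 F) (OO 7) :=
  contDiffOn_spb H.y5 (contDiff_cj 7 8).contDiffOn (5 + 1)

theorem Cof9.Sm.cG (H : F.Sm) : ContDiffOn ℝ 1 (G9 F) (OO 7) :=
  (cd_pr H.C.cG7).add (H.c1.add (H.c2.add (H.c3.add H.c4)))

theorem dl_G9 (H : F.Sm) {u : Fin (7 + 2) → ℝ} (hu : u ∈ OO 7) (p q : Fin (7 + 2) → ℝ) :
    dl (fun i u => fderiv ℝ (gv (G9 F) i) u) u p q =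
      dl (fun i u => fderiv ℝ (gv (G7 F.C) i) u) (pr u) (pr p) (pr q)
        + (dl (fun i u => fderiv ℝ (gv (g1 F) i) u) u p q + (dl (fun i u => fderiv ℝ (gv (g2 F) i) u) u p q
        + (dl (fun i u => fderiv ℝ (gv (g3 F) i) u) u p q + dl (fun i u => fderiv ℝ (gv (g4 F) i) u) u p q))) := by
  have e1 : G9 F = fun u => (fun u => G7 F.C (pr u)) u + (fun u => g1 F u + (g2 F u + (g3 F u + g4 F u))) u := rfl
  rw [e1, dl_gv_add (cd_pr H.C.cG7) (H.c1.add (H.c2.add (H.c3.add H.c4))) hu,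
    dl_gv_add H.c1 (H.c2.add (H.c3.add H.c4)) hu, dl_gv_add H.c2 (H.c3.add H.c4) hu, dl_gv_add H.c3 H.c4 hu,
    dl_pr H.C.cG7 hu]

/-! ### the covariant derivatives -/

/-- `7 conj(ζ) C₇ / (4 c)` -/
def D7 (f : ℝ → ℝ) : ℂ := 7 * conj (YY (X1 f) (X2 f)) * CE 7 f / (4 * (cF f : ℂ))

/-- `3 ζ C₃ / (4 c)` -/
def E3 (f : ℝ → ℝ) : ℂ := 3 * YY (X1 f) (X2 f) * CE 3 f / (4 * (cF f : ℂ))

/-- `2 mean (h ε⁵)` -/
def L5 (f h : ℝ → ℝ) : ℂ := C54.Lm 5 (X1 f) (X2 f) h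

/-- the covariant derivative of `C₅` -/
def NC5 (f h : ℝ → ℝ) : ℂ :=
  cd 5 (cF f) (YY (X1 f) (X2 f)) (vF f h) (L5 f h - vF f h * E3 f) (D7 f) (CE 5 f)

theorem hC3 {f : ℝ → ℝ} (hf : Ef f) (h : ℝ → ℝ) : cj 5 6 (du dP9 f h) = NC f h
    + 3 * I * ((tt (cu P9 f) (du dP9 f h) / (1 + CST.cc (cu P9 f)) : ℝ) : ℂ) * cj 5 6 (cu P9 f) := hC hf h

theorem hC5 {f : ℝ → ℝ} (hf : Ef f) (h : ℝ → ℝ) : cj 7 8 (du dP9 f h) = NC5 f h
    + 5 * I * ((tt (cu P9 f) (du dP9 f h) / (1 + CST.cc (cu P9 f)) : ℝ) : ℂ) * cj 7 8 (cu P9 f) := by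
  rw [cjd5, cj5]
  have hc0 := S54.cc_pos (X_lt hf)
  have hc' : (S54.cc (X1 f) (X2 f) : ℂ) ≠ 0 := Complex.ofReal_ne_zero.2 hc0.ne'
  unfold dCE NC5 cd tt L5 D7 E3
  have e : vF f h = Fv f h := rfl
  have n1 : (5 : ℕ) - 2 = 3 := rfl
  have n2 : (5 : ℕ) + 2 = 7 := rfl
  rw [ztu, vvu, ccu, ← cF_eq, e, SYS.im_eq, n1, n2]
  push_cast
  field_simp
  ring

/-! ### algebra -/

private theorem cvv (a p q : ℂ) : conj (p * a) * q - conj (q * a) * p =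
    conj a * (2 * I * (((conj p * q).im : ℝ) : ℂ)) := by
  have h : conj p * q - conj q * p = 2 * I * (((conj p * q).im : ℝ) : ℂ) := by
    apply Complex.ext <;> simp <;> ring
  rw [← h, map_mul, map_mul]
  ring

private theorem imr (X Y : ℂ) (r : ℝ) : (X * (Y * (2 * I * (r : ℂ)))).im = 2 * (X * Y).re * r := by
  rw [show X * (Y * (2 * I * (r : ℂ))) = ((2 * r : ℝ) : ℂ) * (I * (X * Y)) by push_cast; ring,
    Complex.im_ofReal_mul, Complex.I_mul_im]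
  ring

/-- the covariant derivative of `conj C₃ C₅`: main part -/
def kP (f h : ℝ → ℝ) : ℂ := conj (L3 f h) * CE 5 f + conj (CE 3 f) * L5 f h

/-- the part of type `v` of `∇ (conj C₃ C₅)` is `ζ rP` -/
def rP (f : ℝ → ℝ) : ℝ := (5 * normSq (CE 5 f) - 3 * normSq (CE 3 f)) / (4 * cF f)

/-- the covariant derivative of `conj C₃ C₅` -/
def NP (f h : ℝ → ℝ) : ℂ := conj (NC f h) * CE 5 f + conj (CE 3 f) * NC5 f h

theorem NP_eq {f : ℝ → ℝ} (hf : Ef f) (h : ℝ → ℝ) : NP f h =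
    cd 2 (cF f) (YY (X1 f) (X2 f)) (vF f h) (kP f h + vF f h * (YY (X1 f) (X2 f) * (rP f : ℂ)))
      (conj (CE 3 f) * D7 f) (conj (CE 3 f) * CE 5 f) := by
  have hc : (cF f : ℂ) ≠ 0 := Complex.ofReal_ne_zero.2 (cF_pos hf).ne'
  unfold NP NC NC5 cd kP rP D5 E3
  simp only [map_add, map_sub, map_mul, conj_I, Complex.conj_ofReal, Complex.conj_conj, map_div₀,
    Complex.conj_ofNat]
  push_cast
  rw [← Complex.mul_conj, ← Complex.mul_conj]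
  field_simp
  ring

theorem fdPp {f : ℝ → ℝ} (hf : Ef f) (h : ℝ → ℝ) : fderiv ℝ Pp (cu P9 f) (du dP9 f h) = NP f h
    + (2 : ℕ) * I * ((tt (cu P9 f) (du dP9 f h) / (1 + CST.cc (cu P9 f)) : ℝ) : ℂ) * Pp (cu P9 f) := by
  have d1 : DifferentiableAt ℝ (fun u : Fin (7 + 2) → ℝ => conj (cj 5 6 u)) (cu P9 f) :=
    ((contDiff_cjc 5 6).contDiffAt).differentiableAt one_ne_zero
  have d2 : DifferentiableAt ℝ (cj 7 8 : (Fin (7 + 2) → ℝ) → ℂ) (cu P9 f) :=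
    ((contDiff_cj 7 8).contDiffAt).differentiableAt one_ne_zero
  have e : fderiv ℝ Pp (cu P9 f) = _ := fderiv_mul d1 d2
  rw [e]
  simp only [_root_.add_apply, _root_.smul_apply, smul_eq_mul]
  rw [CST.fderiv_cj, CST.fderiv_cjc, hC3 hf, hC5 hf]
  unfold NP Pp
  rw [cj3, cj5]
  generalize tt (cu P9 f) (du dP9 f h) / (1 + CST.cc (cu P9 f)) = t
  simp only [map_add, map_mul, conj_I, Complex.conj_ofReal, Complex.conj_ofNat]
  push_cast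
  ring

theorem fdPc {f : ℝ → ℝ} (hf : Ef f) (h : ℝ → ℝ) : fderiv ℝ Pc (cu P9 f) (du dP9 f h) = conj (NP f h)
    - (1 + (1 : ℕ)) * I * ((tt (cu P9 f) (du dP9 f h) / (1 + CST.cc (cu P9 f)) : ℝ) : ℂ) * Pc (cu P9 f) := by
  have d1 : DifferentiableAt ℝ (cj 5 6 : (Fin (7 + 2) → ℝ) → ℂ) (cu P9 f) :=
    ((contDiff_cj 5 6).contDiffAt).differentiableAt one_ne_zero
  have d2 : DifferentiableAt ℝ (fun u : Fin (7 + 2) → ℝ => conj (cj 7 8 u)) (cu P9 f) :=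
    ((contDiff_cjc 7 8).contDiffAt).differentiableAt one_ne_zero
  have e : fderiv ℝ Pc (cu P9 f) = _ := fderiv_mul d1 d2
  rw [e]
  simp only [_root_.add_apply, _root_.smul_apply, smul_eq_mul]
  rw [CST.fderiv_cj, CST.fderiv_cjc, hC3 hf, hC5 hf]
  unfold NP Pc
  rw [cj3, cj5]
  generalize tt (cu P9 f) (du dP9 f h) / (1 + CST.cc (cu P9 f)) = t
  simp only [map_add, map_mul, conj_I, Complex.conj_ofReal, Complex.conj_ofNat, Complex.conj_conj]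
  push_cast
  ring

/-! ### the value at a state -/

/-- the first order functional of the new forms -/
def MP (F : Cof9) (f g : ℝ → ℝ) : ℂ :=
  (F.p1 (rF f) : ℂ) * YY (X1 f) (X2 f) ^ 1 * conj (kP f g)
    + (F.p2 (rF f) : ℂ) * conj (YY (X1 f) (X2 f)) ^ (2 + 1) * kP f g
    + (F.x5 (rF f) : ℂ) * YY (X1 f) (X2 f) ^ 4 * conj (L5 f g)
    + (F.y5 (rF f) : ℂ) * conj (YY (X1 f) (X2 f)) ^ (5 + 1) * L5 f g

/-- the coefficient of the Jacobian of the new forms -/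
def WP (F : Cof9) (f : ℝ → ℝ) : ℝ :=
  (2 * cF f * deriv F.p1 (rF f) - F.p1 (rF f) / cF f + 2 * cF f * (rF f * deriv F.p2 (rF f) + 3 * F.p2 (rF f))
      + rF f * F.p2 (rF f) / cF f) * (conj (YY (X1 f) (X2 f)) ^ 2 * (conj (CE 3 f) * CE 5 f)).re
    + 2 * F.p1 (rF f) * (rF f * rP f)
    + 2 * F.p2 (rF f) * (conj (YY (X1 f) (X2 f)) ^ 3 * (conj (CE 3 f) * D7 f)).re
    + (2 * cF f * deriv F.x5 (rF f) - 5 * F.x5 (rF f) / (2 * cF f)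
      + 2 * cF f * (rF f * deriv F.y5 (rF f) + 6 * F.y5 (rF f)) + 5 * rF f * F.y5 (rF f) / (2 * cF f))
      * (conj (YY (X1 f) (X2 f)) ^ 5 * CE 5 f).re
    - 3 * rF f * F.x5 (rF f) / (2 * cF f) * (conj (YY (X1 f) (X2 f)) ^ 3 * CE 3 f).re
    + 2 * F.y5 (rF f) * (conj (YY (X1 f) (X2 f)) ^ 6 * D7 f).re

theorem zz (f : ℝ → ℝ) : YY (X1 f) (X2 f) * conj (YY (X1 f) (X2 f)) = ((rF f : ℝ) : ℂ) := by
  rw [Complex.mul_conj]
  simp only [normSq_apply, YY, rF]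
  push_cast
  ring

section val

variable (H : F.Sm) {f : ℝ → ℝ} (hf : Ef f) (h k : ℝ → ℝ)

include H hf

omit H in
theorem dd9 {φ : ℝ → ℝ} (hφ : ContDiffOn ℝ 1 φ (Iio 1)) : HasDerivAt φ (deriv φ (rF f)) (CST.rr (cu P9 f)) := by
  rw [rru]
  exact ((hφ.contDiffAt (Iio_mem_nhds (X_lt hf))).differentiableAt one_ne_zero).hasDerivAt

theorem val1 : dl (fun i u => fderiv ℝ (gv (g1 F) i) u) (cu P9 f) (du dP9 f h) (du dP9 f k) =
    ((F.p1 (rF f) : ℂ) * YY (X1 f) (X2 f) ^ 1 * (conj (kP f h) * vF f k - conj (kP f k) * vF f h)).im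
      + ((2 * cF f * deriv F.p1 (rF f) - F.p1 (rF f) / cF f)
          * (conj (YY (X1 f) (X2 f)) ^ 2 * (conj (CE 3 f) * CE 5 f)).re
        + 2 * F.p1 (rF f) * (rF f * rP f)) * (conj (vF f h) * vF f k).im := by
  have hu : cu P9 f ∈ OO 7 := sys9.mem hf
  have v := CST.dl_spa hu H.p1 (dd9 hf H.p1) cd_Pc 1 (Kp := conj (NP f h)) (Kq := conj (NP f k))
    (fdPc hf h) (fdPc hf k)
  have t : dl (fun i u => fderiv ℝ (gv (g1 F) i) u) (cu P9 f) (du dP9 f h) (du dP9 f k) = _ := v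
  rw [t, jau, rru, ztu, vvu, vvu, ccu, NP_eq hf, NP_eq hf, aQ]
  have e1 : (F.p1 (rF f) : ℂ) * YY (X1 f) (X2 f) ^ 1
      * (conj (kP f h + vF f h * (YY (X1 f) (X2 f) * (rP f : ℂ))) * vF f k
        - conj (kP f k + vF f k * (YY (X1 f) (X2 f) * (rP f : ℂ))) * vF f h) =
      (F.p1 (rF f) : ℂ) * YY (X1 f) (X2 f) ^ 1 * (conj (kP f h) * vF f k - conj (kP f k) * vF f h)
        + (F.p1 (rF f) : ℂ) * YY (X1 f) (X2 f) * (conj (YY (X1 f) (X2 f) * (rP f : ℂ))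
          * (2 * I * (((conj (vF f h) * vF f k).im : ℝ) : ℂ))) := by
    rw [← cvv]
    simp only [map_add]
    ring
  rw [e1, Complex.add_im, imr]
  have e2 : ((F.p1 (rF f) : ℂ) * YY (X1 f) (X2 f) * conj (YY (X1 f) (X2 f) * (rP f : ℂ))).re =
      F.p1 (rF f) * (rF f * rP f) := by
    rw [map_mul, Complex.conj_ofReal]
    have : (F.p1 (rF f) : ℂ) * YY (X1 f) (X2 f) * (conj (YY (X1 f) (X2 f)) * (rP f : ℂ)) =
        ((F.p1 (rF f) * (rF f * rP f) : ℝ) : ℂ) := by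
      push_cast
      linear_combination (F.p1 (rF f) : ℂ) * (rP f : ℂ) * zz f
    rw [this, Complex.ofReal_re]
  have e3 : (YY (X1 f) (X2 f) ^ (1 + 1) * Pc (cu P9 f)).re =
      (conj (YY (X1 f) (X2 f)) ^ 2 * (conj (CE 3 f) * CE 5 f)).re := by
    rw [← Complex.conj_re (conj (YY (X1 f) (X2 f)) ^ 2 * (conj (CE 3 f) * CE 5 f))]
    unfold Pc
    rw [cj3, cj5]
    simp only [map_mul, map_pow, Complex.conj_conj]
  rw [e2, e3]
  ring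

theorem val2 : dl (fun i u => fderiv ℝ (gv (g2 F) i) u) (cu P9 f) (du dP9 f h) (du dP9 f k) =
    ((F.p2 (rF f) : ℂ) * conj (YY (X1 f) (X2 f)) ^ (2 + 1) * (kP f h * vF f k - kP f k * vF f h)).im
      + ((2 * cF f * (rF f * deriv F.p2 (rF f) + 3 * F.p2 (rF f)) + rF f * F.p2 (rF f) / cF f)
          * (conj (YY (X1 f) (X2 f)) ^ 2 * (conj (CE 3 f) * CE 5 f)).re
        + 2 * F.p2 (rF f) * (conj (YY (X1 f) (X2 f)) ^ 3 * (conj (CE 3 f) * D7 f)).re)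
        * (conj (vF f h) * vF f k).im := by
  have hu : cu P9 f ∈ OO 7 := sys9.mem hf
  have v := CST.dl_spb hu H.p2 (dd9 hf H.p2) cd_Pp 2 (Kp := NP f h) (Kq := NP f k) (fdPp hf h) (fdPp hf k)
  have t : dl (fun i u => fderiv ℝ (gv (g2 F) i) u) (cu P9 f) (du dP9 f h) (du dP9 f k) = _ := v
  rw [t, jau, rru, ztu, vvu, vvu, ccu, NP_eq hf, NP_eq hf, aP _ _ _ _ _ _ (zz f)]
  have e1 : (F.p2 (rF f) : ℂ) * conj (YY (X1 f) (X2 f)) ^ (2 + 1)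
      * ((kP f h + vF f h * (YY (X1 f) (X2 f) * (rP f : ℂ))) * vF f k
        - (kP f k + vF f k * (YY (X1 f) (X2 f) * (rP f : ℂ))) * vF f h) =
      (F.p2 (rF f) : ℂ) * conj (YY (X1 f) (X2 f)) ^ (2 + 1) * (kP f h * vF f k - kP f k * vF f h) := by
    ring
  have e3 : Pp (cu P9 f) = conj (CE 3 f) * CE 5 f := by
    unfold Pp
    rw [cj3, cj5]
  rw [e1, e3]
  push_cast
  ring

theorem val3 : dl (fun i u => fderiv ℝ (gv (g3 F) i) u) (cu P9 f) (du dP9 f h) (du dP9 f k) =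
    ((F.x5 (rF f) : ℂ) * YY (X1 f) (X2 f) ^ 4 * (conj (L5 f h) * vF f k - conj (L5 f k) * vF f h)).im
      + ((2 * cF f * deriv F.x5 (rF f) - 5 * F.x5 (rF f) / (2 * cF f))
          * (conj (YY (X1 f) (X2 f)) ^ 5 * CE 5 f).re
        - 3 * rF f * F.x5 (rF f) / (2 * cF f) * (conj (YY (X1 f) (X2 f)) ^ 3 * CE 3 f).re)
        * (conj (vF f h) * vF f k).im := by
  have hu : cu P9 f ∈ OO 7 := sys9.mem hf
  have c1 : (1 : ℂ) + ((4 : ℕ) : ℂ) = 5 := by push_cast; norm_num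
  have v := CST.dl_fa hu H.x5 (dd9 hf H.x5) 4 (j := 7) (k := 8) (Np := NC5 f h) (Nq := NC5 f k)
    (by rw [c1]; exact hC5 hf h) (by rw [c1]; exact hC5 hf k)
  have t : dl (fun i u => fderiv ℝ (gv (g3 F) i) u) (cu P9 f) (du dP9 f h) (du dP9 f k) = _ := v
  rw [t, jau, rru, ztu, vvu, vvu, ccu]
  unfold NC5
  rw [aQ]
  have e1 : (F.x5 (rF f) : ℂ) * YY (X1 f) (X2 f) ^ 4
      * (conj (L5 f h - vF f h * E3 f) * vF f k - conj (L5 f k - vF f k * E3 f) * vF f h) =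
      (F.x5 (rF f) : ℂ) * YY (X1 f) (X2 f) ^ 4 * (conj (L5 f h) * vF f k - conj (L5 f k) * vF f h)
        + (-((F.x5 (rF f) : ℂ) * YY (X1 f) (X2 f) ^ 4)) * (conj (E3 f)
          * (2 * I * (((conj (vF f h) * vF f k).im : ℝ) : ℂ))) := by
    rw [← cvv]
    simp only [map_sub]
    ring
  have e2 : (-((F.x5 (rF f) : ℂ) * YY (X1 f) (X2 f) ^ 4) * conj (E3 f)).re =
      -(3 * rF f * F.x5 (rF f) / (4 * cF f)) * (conj (YY (X1 f) (X2 f)) ^ 3 * CE 3 f).re := by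
    have hc : (cF f : ℂ) ≠ 0 := Complex.ofReal_ne_zero.2 (cF_pos hf).ne'
    have e : -((F.x5 (rF f) : ℂ) * YY (X1 f) (X2 f) ^ 4) * conj (E3 f) =
        ((-(3 * rF f * F.x5 (rF f) / (4 * cF f)) : ℝ) : ℂ) * conj (conj (YY (X1 f) (X2 f)) ^ 3 * CE 3 f) := by
      unfold E3
      simp only [map_mul, map_div₀, Complex.conj_ofNat, Complex.conj_ofReal, map_pow, Complex.conj_conj]
      push_cast
      rw [← zz f]
      field_simp
    rw [e, Complex.re_ofReal_mul, Complex.conj_re]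
  have e3 : (YY (X1 f) (X2 f) ^ (4 + 1) * conj (cj 7 8 (cu P9 f))).re =
      (conj (YY (X1 f) (X2 f)) ^ 5 * CE 5 f).re := by
    rw [← Complex.conj_re (conj (YY (X1 f) (X2 f)) ^ 5 * CE 5 f), cj5]
    simp only [map_mul, map_pow, Complex.conj_conj]
  rw [e1, Complex.add_im, imr, e2, e3]
  ring

theorem val4 : dl (fun i u => fderiv ℝ (gv (g4 F) i) u) (cu P9 f) (du dP9 f h) (du dP9 f k) =
    ((F.y5 (rF f) : ℂ) * conj (YY (X1 f) (X2 f)) ^ (5 + 1) * (L5 f h * vF f k - L5 f k * vF f h)).im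
      + ((2 * cF f * (rF f * deriv F.y5 (rF f) + 6 * F.y5 (rF f)) + 5 * rF f * F.y5 (rF f) / (2 * cF f))
          * (conj (YY (X1 f) (X2 f)) ^ 5 * CE 5 f).re
        + 2 * F.y5 (rF f) * (conj (YY (X1 f) (X2 f)) ^ 6 * D7 f).re) * (conj (vF f h) * vF f k).im := by
  have hu : cu P9 f ∈ OO 7 := sys9.mem hf
  have c1 : ((5 : ℕ) : ℂ) = 5 := by push_cast; rfl
  have v := CST.dl_fb hu H.y5 (dd9 hf H.y5) 5 (j := 7) (k := 8) (Np := NC5 f h) (Nq := NC5 f k)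
    (by rw [c1]; exact hC5 hf h) (by rw [c1]; exact hC5 hf k)
  have t : dl (fun i u => fderiv ℝ (gv (g4 F) i) u) (cu P9 f) (du dP9 f h) (du dP9 f k) = _ := v
  rw [t, jau, rru, ztu, vvu, vvu, ccu]
  unfold NC5
  rw [aP _ _ _ _ _ _ (zz f), cj5]
  have e1 : (F.y5 (rF f) : ℂ) * conj (YY (X1 f) (X2 f)) ^ (5 + 1)
      * ((L5 f h - vF f h * E3 f) * vF f k - (L5 f k - vF f k * E3 f) * vF f h) =
      (F.y5 (rF f) : ℂ) * conj (YY (X1 f) (X2 f)) ^ (5 + 1) * (L5 f h * vF f k - L5 f k * vF f h) := by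
    ring
  rw [e1]
  push_cast
  ring

/-- **the value of the form without `b`** -/
theorem val_G9 : dl (fun i u => fderiv ℝ (gv (G9 F) i) u) (cu P9 f) (du dP9 f h) (du dP9 f k) =
    ((M7 F.C f h + MP F f h) * vF f k - (M7 F.C f k + MP F f k) * vF f h).im
      + (W1 F.C f + WP F f) * (conj (vF f h) * vF f k).im := by
  have hu : cu P9 f ∈ OO 7 := sys9.mem hf
  rw [dl_G9 H hu, pr_cu, pr_du, pr_du, val_G7 H.C hf, val1 H hf, val2 H hf, val3 H hf, val4 H hf]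
  have eM : (M7 F.C f h + MP F f h) * vF f k - (M7 F.C f k + MP F f k) * vF f h =
      (M7 F.C f h * vF f k - M7 F.C f k * vF f h)
      + (F.p1 (rF f) : ℂ) * YY (X1 f) (X2 f) ^ 1 * (conj (kP f h) * vF f k - conj (kP f k) * vF f h)
      + (F.p2 (rF f) : ℂ) * conj (YY (X1 f) (X2 f)) ^ (2 + 1) * (kP f h * vF f k - kP f k * vF f h)
      + (F.x5 (rF f) : ℂ) * YY (X1 f) (X2 f) ^ 4 * (conj (L5 f h) * vF f k - conj (L5 f k) * vF f h)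
      + (F.y5 (rF f) : ℂ) * conj (YY (X1 f) (X2 f)) ^ (5 + 1) * (L5 f h * vF f k - L5 f k * vF f h) := by
    unfold MP
    ring
  rw [eM]
  simp only [Complex.add_im]
  unfold WP
  ring

end val

/-! ### the kernel -/

/-- the kernel of the new forms -/
def mkP (F : Cof9) (f : ℝ → ℝ) (t : ℝ) : ℂ :=
  (F.p1 (rF f) : ℂ) * YY (X1 f) (X2 f)
      * (C54.ep (X1 f) (X2 f) t ^ 3 * conj (CE 5 f) + CE 3 f * conj (C54.ep (X1 f) (X2 f) t) ^ 5)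
    + (F.p2 (rF f) : ℂ) * conj (YY (X1 f) (X2 f)) ^ 3
      * (conj (C54.ep (X1 f) (X2 f) t) ^ 3 * CE 5 f + conj (CE 3 f) * C54.ep (X1 f) (X2 f) t ^ 5)
    + (F.x5 (rF f) : ℂ) * YY (X1 f) (X2 f) ^ 4 * conj (C54.ep (X1 f) (X2 f) t) ^ 5
    + (F.y5 (rF f) : ℂ) * conj (YY (X1 f) (X2 f)) ^ 6 * C54.ep (X1 f) (X2 f) t ^ 5

/-- the kernel of the mixed part -/
def mk9 (F : Cof9) (f : ℝ → ℝ) (t : ℝ) : ℂ := mk7 F.C f t + mkP F f t

theorem mkP_eq (F : Cof9) (f : ℝ → ℝ) : mkP F f = fun t =>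
    ((F.p1 (rF f) : ℂ) * YY (X1 f) (X2 f) * conj (CE 5 f)) * C54.ep (X1 f) (X2 f) t ^ 3
    + (((F.p1 (rF f) : ℂ) * YY (X1 f) (X2 f) * CE 3 f + (F.x5 (rF f) : ℂ) * YY (X1 f) (X2 f) ^ 4)
        * conj (C54.ep (X1 f) (X2 f) t) ^ 5
    + (((F.p2 (rF f) : ℂ) * conj (YY (X1 f) (X2 f)) ^ 3 * CE 5 f) * conj (C54.ep (X1 f) (X2 f) t) ^ 3
    + ((F.p2 (rF f) : ℂ) * conj (YY (X1 f) (X2 f)) ^ 3 * conj (CE 3 f)
        + (F.y5 (rF f) : ℂ) * conj (YY (X1 f) (X2 f)) ^ 6) * C54.ep (X1 f) (X2 f) t ^ 5)) := by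
  funext t
  unfold mkP
  ring

theorem bm_mkP {f : ℝ → ℝ} (hf : Ef f) : Bm (mkP F f) := by
  have bE := bm_ep (X_lt hf)
  rw [mkP_eq]
  exact ((Bm.const _).mul (bm_pow bE 3)).add (((Bm.const _).mul (bm_pow bE.conj 5)).add
    (((Bm.const _).mul (bm_pow bE.conj 3)).add ((Bm.const _).mul (bm_pow bE 5))))

theorem bm_mk9 {f : ℝ → ℝ} (hf : Ef f) : Bm (mk9 F f) := (bm_mk hf).add (bm_mkP hf)

theorem L5_vm {f g : ℝ → ℝ} (hf : Ef f) :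
    L5 f g = 2 * ∫ t, C54.ep (X1 f) (X2 f) t ^ 5 * (g t : ℂ) ∂(vm (X1 f) (X2 f)) := by
  unfold L5
  rw [S54.Lm_eq (X_lt hf)]
  have := ME_vm (X_lt hf) 5 g
  rw [this]
  congr 1
  refine integral_congr_ae (Eventually.of_forall fun t => ?_)
  exact mul_comm _ _

/-- the first order functional -/
def M9 (F : Cof9) (f g : ℝ → ℝ) : ℂ := M7 F.C f g + MP F f g

theorem M9_int {f g : ℝ → ℝ} (hf : Ef f) (hg : Measurable g) (hb : ∀ t, |g t| ≤ 1) :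
    M9 F f g = ∫ t, (2 * mk9 F f t) * (g t : ℂ) ∂(vm (X1 f) (X2 f)) := by
  have hX := X_lt hf
  have := vm_prob hX
  have bE := bm_ep hX
  have bg : Bm fun t => (g t : ℂ) := bm_real hg hb
  have b3 : Bm fun t => C54.ep (X1 f) (X2 f) t ^ 3 * (g t : ℂ) := (bm_pow bE 3).mul bg
  have b5 : Bm fun t => C54.ep (X1 f) (X2 f) t ^ 5 * (g t : ℂ) := (bm_pow bE 5).mul bg
  have bm := bm_mk (F := F.C) hf
  have bP := bm_mkP (F := F) hf
  have e0 : (fun t => (2 * mk9 F f t) * (g t : ℂ)) = fun t => (2 * mk7 F.C f t) * (g t : ℂ)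
      + (2 * mkP F f t) * (g t : ℂ) := by
    funext t
    unfold mk9
    ring
  rw [e0, integral_add (((Bm.const 2).mul bm).mul bg).int (((Bm.const 2).mul bP).mul bg).int, ← M7_int hf hg hb]
  unfold M9
  congr 1
  have cj1 : ∀ {φ : ℝ → ℂ}, ∫ t, conj (φ t) ∂(vm (X1 f) (X2 f)) = conj (∫ t, φ t ∂(vm (X1 f) (X2 f))) :=
    integral_conj
  have e : (fun t => (2 * mkP F f t) * (g t : ℂ)) = fun t =>
      (2 * ((F.p1 (rF f) : ℂ) * YY (X1 f) (X2 f) * conj (CE 5 f))) * (C54.ep (X1 f) (X2 f) t ^ 3 * (g t : ℂ))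
      + ((2 * ((F.p1 (rF f) : ℂ) * YY (X1 f) (X2 f) * CE 3 f + (F.x5 (rF f) : ℂ) * YY (X1 f) (X2 f) ^ 4))
        * conj (C54.ep (X1 f) (X2 f) t ^ 5 * (g t : ℂ))
      + ((2 * ((F.p2 (rF f) : ℂ) * conj (YY (X1 f) (X2 f)) ^ 3 * CE 5 f))
        * conj (C54.ep (X1 f) (X2 f) t ^ 3 * (g t : ℂ))
      + (2 * ((F.p2 (rF f) : ℂ) * conj (YY (X1 f) (X2 f)) ^ 3 * conj (CE 3 f)
        + (F.y5 (rF f) : ℂ) * conj (YY (X1 f) (X2 f)) ^ 6)) * (C54.ep (X1 f) (X2 f) t ^ 5 * (g t : ℂ)))) := by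
    funext t
    rw [mkP_eq]
    simp only [map_mul, map_pow, Complex.conj_ofReal]
    ring
  have i1 := ((Bm.const (2 * ((F.p1 (rF f) : ℂ) * YY (X1 f) (X2 f) * conj (CE 5 f)))).mul b3)
  have i2 := ((Bm.const (2 * ((F.p1 (rF f) : ℂ) * YY (X1 f) (X2 f) * CE 3 f
    + (F.x5 (rF f) : ℂ) * YY (X1 f) (X2 f) ^ 4))).mul b5.conj)
  have i3 := ((Bm.const (2 * ((F.p2 (rF f) : ℂ) * conj (YY (X1 f) (X2 f)) ^ 3 * CE 5 f))).mul b3.conj)
  have i4 := ((Bm.const (2 * ((F.p2 (rF f) : ℂ) * conj (YY (X1 f) (X2 f)) ^ 3 * conj (CE 3 f)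
    + (F.y5 (rF f) : ℂ) * conj (YY (X1 f) (X2 f)) ^ 6))).mul b5)
  rw [e, integral_add (μ := vm (X1 f) (X2 f)) i1.int (i2.add (i3.add i4)).int,
    integral_add (μ := vm (X1 f) (X2 f)) i2.int (i3.add i4).int,
    integral_add (μ := vm (X1 f) (X2 f)) i3.int i4.int, integral_const_mul, integral_const_mul,
    integral_const_mul, integral_const_mul, cj1, cj1]
  unfold MP kP
  rw [L3_vm hf, L5_vm hf]
  simp only [map_mul, map_add, Complex.conj_conj, Complex.conj_ofNat]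
  ring

theorem mix9 {f h k : ℝ → ℝ} (hf : Ef f) (V : Var h k) :
    (M9 F f h * vF f k - M9 F f k * vF f h).im =
      2 * (Aa f h k * ∫ t, mk9 F f t * Kc h k t ∂(vm (X1 f) (X2 f))).re
        - 2 * (Ba f h k * ∫ t, mk9 F f t * conj (Kc h k t) ∂(vm (X1 f) (X2 f))).re := by
  have hX := X_lt hf
  have := vm_prob hX
  rw [M9_int hf V.mesh V.bh, M9_int hf V.mesk V.bk]
  have b2 : Bm fun t => 2 * mk9 F f t := (Bm.const 2).mul (bm_mk9 hf)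
  have key := CST.pol (μ := vm (X1 f) (X2 f)) b2 (bm_real V.mesh V.bh) (bm_real V.mesk V.bk)
    (fun t => Complex.ofReal_im _) (fun t => Complex.ofReal_im _) (vF f h) (vF f k)
  rw [key]
  have e1 : ∫ t, (2 * mk9 F f t) * ((h t : ℂ) + I * (k t : ℂ)) ∂(vm (X1 f) (X2 f)) =
      2 * ∫ t, mk9 F f t * Kc h k t ∂(vm (X1 f) (X2 f)) := by
    rw [← integral_const_mul]
    congr 1
    funext t
    unfold Kc
    ring
  have e2 : ∫ t, (2 * mk9 F f t) * conj ((h t : ℂ) + I * (k t : ℂ)) ∂(vm (X1 f) (X2 f)) =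
      2 * ∫ t, mk9 F f t * conj (Kc h k t) ∂(vm (X1 f) (X2 f)) := by
    rw [← integral_const_mul]
    congr 1
    funext t
    unfold Kc
    ring
  rw [e1, e2]
  have e3 : ∀ a b : ℂ, (a * (2 * b)).re = 2 * (a * b).re := fun a b => by
    rw [show a * (2 * b) = ((2 : ℝ) : ℂ) * (a * b) by push_cast; ring, Complex.re_ofReal_mul]
  rw [e3, e3]
  rfl

theorem val_b9 (H : F.Sm) {f h k : ℝ → ℝ} (hf : Ef f) (V : Var h k) :
    dl (fun i u => fderiv ℝ (lab 3 F.C.b 5 6 i) u) (cu P9 f) (du dP9 f h) (du dP9 f k) =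
      bv F.C f (Aa f h k) (Ba f h k)
        (Cp f (Aa f h k) (Ba f h k)
          (∫ t, C54.ep (X1 f) (X2 f) t ^ 3 * conj (Kc h k t) ∂(vm (X1 f) (X2 f))))
        (Cm f (Aa f h k) (Ba f h k)
          (∫ t, C54.ep (X1 f) (X2 f) t ^ 3 * Kc h k t ∂(vm (X1 f) (X2 f)))) := by
  have hu : cu P9 f ∈ OO 7 := sys9.mem hf
  have c5 : ((3 : ℝ) : ℂ) = 3 := by push_cast; rfl
  rw [CST.dl_lab hu H.C.b (dd9 hf H.C.b) (s := 3) (j := 5) (k := 6) (Np := NC f h) (Nq := NC f k)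
    (by rw [c5]; exact hC3 hf h) (by rw [c5]; exact hC3 hf k)]
  obtain ⟨p1, p2⟩ := NC_pm hf V
  rw [rru, ccu, ztu, vvu, vvu, jau, cj3, CST.pol2, CST.pol3, CST.pol3, p1, p2, Complex.conj_conj,
    Complex.conj_conj]
  unfold bv Aa Ba
  ring

/-! ### the certificate -/

/-- the coefficient of the Jacobian -/
def W9 (W : ℝ → ℝ) (F : Cof9) (f : ℝ → ℝ) : ℝ := W7 W F.C f + WP F f

/-- the type of the deviations: any function of the state, `K`, `A`, `B` -/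
abbrev DevK := (ℝ → ℝ) → (ℝ → ℂ) → ℂ → ℂ → ℂ

/-- the certificate at one state -/
def CertAt9 (Bk : DevK) (W : ℝ → ℝ) (F : Cof9) (μ T : ℝ) (f : ℝ → ℝ) : Prop :=
  ∀ K : ℝ → ℂ, Measurable K → (∀ t, ‖K t‖ ≤ 1) → ∀ A B : ℂ,
    A - sF f * conj B = ∫ t, C54.ep (X1 f) (X2 f) t * conj (K t) ∂(vm (X1 f) (X2 f)) →
    B - sF f * conj A = ∫ t, C54.ep (X1 f) (X2 f) t * K t ∂(vm (X1 f) (X2 f)) →
    W9 W F f * (‖A‖ ^ 2 - ‖B‖ ^ 2)
      + 2 * (A * ∫ t, mk9 F f t * K t ∂(vm (X1 f) (X2 f))).re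
      - 2 * (B * ∫ t, mk9 F f t * conj (K t) ∂(vm (X1 f) (X2 f))).re
      + bv F.C f A B (Cp f A B (∫ t, C54.ep (X1 f) (X2 f) t ^ 3 * conj (K t) ∂(vm (X1 f) (X2 f))))
          (Cm f A B (∫ t, C54.ep (X1 f) (X2 f) t ^ 3 * K t ∂(vm (X1 f) (X2 f))))
      + 2 * μ * ‖Bk f K A B‖ ^ 2 ≤ T

/-- the certificate -/
def Cert9 (Bk : DevK) (W : ℝ → ℝ) (F : Cof9) (μ T : ℝ) : Prop := ∀ f, Ef f → CertAt9 Bk W F μ T f

variable {n' : ℕ} {Φ' : Fin (n' + 2) → (ℝ → ℝ) → ℝ} {dΦ' : Fin (n' + 2) → (ℝ → ℝ) → (ℝ → ℝ) → ℝ} {K' L' : ℝ}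

/-- `Bk` is the deviation of the start map `Φ'` -/
def IsDevK (Φ' : Fin (n' + 2) → (ℝ → ℝ) → ℝ) (dΦ' : Fin (n' + 2) → (ℝ → ℝ) → (ℝ → ℝ) → ℝ) (Bk : DevK) : Prop :=
  ∀ f h k, Ef f → Var h k → nu (cu Φ' f) (du dΦ' f h) (du dΦ' f k) =
    2 * ‖Bk f (Kc h k) (Aa f h k) (Ba f h k)‖ ^ 2

theorem isDevK_of {Bx : Dev} (H : IsDev Φ' dΦ' Bx) : IsDevK Φ' dΦ' (devK Bx) := by
  intro f h k hf V
  rw [H f h k hf V, (NC_pm hf V).1, (NC_pm hf V).2, (NS_pm hf V).1, (NS_pm hf V).2, K0_pm hf V]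
  rfl

/-- the deviation of F54 -/
theorem isDevK_F54 : IsDevK P7 dP7 (fun _ _ _ B => B) := fun f h k _ _ => nub f h k

theorem hst9 {Bk : DevK} (HD : IsDevK Φ' dΦ' Bk) {W : ℝ → ℝ} (hW : ContDiffOn ℝ 1 W (Ioi 0)) (HF : F.Sm)
    {μ T : ℝ} (H : Cert9 Bk W F μ T) {f h k : ℝ → ℝ} (hf : Ef f) (V : Var h k) :
    dl (fun i u => fderiv ℝ (gv (gt W (G9 F)) i) u) (cu P9 f) (du dP9 f h) (du dP9 f k)
      + dl (fun i u => fderiv ℝ (lab 3 F.C.b 5 6 i) u) (cu P9 f) (du dP9 f h) (du dP9 f k)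
      + μ * nu (cu Φ' f) (du dΦ' f h) (du dΦ' f k) ≤ T := by
  have hu : cu P9 f ∈ OO 7 := sys9.mem hf
  have hc : 0 < cF f := cF_pos hf
  have hW' : HasDerivAt W (deriv W (cF f)) (CST.cc (cu P9 f)) := by
    rw [ccu]
    exact ((hW.contDiffAt (Ioi_mem_nhds hc)).differentiableAt one_ne_zero).hasDerivAt
  have m := mix9 (F := F) hf V
  unfold M9 at m
  rw [CST.dl_gt hW HF.cG hu hW', val_G9 HF hf, val_b9 HF hf V, HD f h k hf V, m, jau, jab, rru, ccu]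
  obtain ⟨e1, e2⟩ := AB_eq hf V
  have := H f hf (Kc h k) (Kc_meas V) (Kc_le V) _ _ e1 e2
  unfold W9 W7 at this
  linarith

/-! ### the boundary -/

/-- the growth conditions at the boundary -/
structure Cof9.Bo (F : Cof9) : Prop where
  C : F.C.Bo
  p1 : Tendsto (fun c => F.p1 (1 - c ^ 2) * c ^ 2) (𝓝[>] 0) (𝓝 0)
  p2 : Tendsto (fun c => F.p2 (1 - c ^ 2) * c ^ 2) (𝓝[>] 0) (𝓝 0)
  x5 : Tendsto (fun c => F.x5 (1 - c ^ 2) * c) (𝓝[>] 0) (𝓝 0)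
  y5 : Tendsto (fun c => F.y5 (1 - c ^ 2) * c) (𝓝[>] 0) (𝓝 0)

theorem C5_le {f : ℝ → ℝ} (hf : Ef f) : ‖CE 5 f‖ ≤ 22 * cF f := by
  have h1 := S54Z.MM_map_le 5 1 hf
  rw [cF_eq] at h1
  have e : CE 5 f = S54.MM 5 (fun u : ℝ => u ^ 1) (X1 f) (X2 f) f := by
    rw [SYS.CE_eq hf 5]
    unfold F54.SM
    simp only [pow_one]
    rfl
  rw [e]
  linarith

theorem G9_small (H : F.Bo) {ε : ℝ} (hε : 0 < ε) :
    ∃ η : ℝ, 0 < η ∧ ∀ f, Ef f → CST.cc (cu P9 f) < η → ‖G9 F (cu P9 f)‖ ≤ ε := by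
  obtain ⟨a0, q0, r0⟩ := G7_small H.C (ε := ε / 5) (by positivity)
  obtain ⟨a1, p1, q1⟩ := small (k := 2) H.p1 (ε := ε / (5 * 484)) (by positivity)
  obtain ⟨a2, p2, q2⟩ := small (k := 2) H.p2 (ε := ε / (5 * 484)) (by positivity)
  obtain ⟨a3, p3, q3⟩ := small (k := 1) (by simpa using H.x5) (ε := ε / (5 * 22)) (by positivity)
  obtain ⟨a4, p4, q4⟩ := small (k := 1) (by simpa using H.y5) (ε := ε / (5 * 22)) (by positivity)
  refine ⟨min a0 (min (min a1 a2) (min a3 a4)), by simp only [lt_min_iff]; exact ⟨q0, ⟨p1, p2⟩, p3, p4⟩,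
    fun f hf hc => ?_⟩
  rw [ccu] at hc
  simp only [lt_min_iff] at hc
  obtain ⟨c0, ⟨c1, c2⟩, c3, c4⟩ := hc
  have hz := nz hf
  have hc0 := cF_pos hf
  have s3 := C3_le hf
  have s5 := C5_le hf
  have hzn : ∀ k : ℕ, ‖YY (X1 f) (X2 f)‖ ^ k ≤ 1 := fun k => pow_le_one₀ (norm_nonneg _) hz
  have b0 : ‖G7 F.C (pr (cu P9 f))‖ ≤ ε / 5 := by
    rw [pr_cu]
    exact r0 f hf (by rw [OM7.ccu]; exact c0)
  have b1 : ‖g1 F (cu P9 f)‖ ≤ ε / 5 := by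
    unfold g1 Pc
    rw [rru, ztu, cj3, cj5, norm_mul, norm_mul, norm_mul, norm_pow, Complex.norm_conj, Complex.norm_real,
      Real.norm_eq_abs]
    calc |F.p1 (rF f)| * ‖YY (X1 f) (X2 f)‖ ^ 1 * (‖CE 3 f‖ * ‖CE 5 f‖)
        ≤ |F.p1 (rF f)| * 1 * ((22 * cF f) * (22 * cF f)) := by
          gcongr
          exact hzn 1
      _ = 484 * (|F.p1 (rF f)| * cF f ^ 2) := by ring
      _ ≤ 484 * (ε / (5 * 484)) := by
          gcongr
          exact q1 f hf c1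
      _ = ε / 5 := by ring
  have b2 : ‖g2 F (cu P9 f)‖ ≤ ε / 5 := by
    unfold g2 Pp
    rw [rru, ztu, cj3, cj5, norm_mul, norm_mul, norm_mul, norm_pow, Complex.norm_conj, Complex.norm_conj,
      Complex.norm_real, Real.norm_eq_abs]
    calc |F.p2 (rF f)| * ‖YY (X1 f) (X2 f)‖ ^ (2 + 1) * (‖CE 3 f‖ * ‖CE 5 f‖)
        ≤ |F.p2 (rF f)| * 1 * ((22 * cF f) * (22 * cF f)) := by
          gcongr
          exact hzn _
      _ = 484 * (|F.p2 (rF f)| * cF f ^ 2) := by ring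
      _ ≤ 484 * (ε / (5 * 484)) := by
          gcongr
          exact q2 f hf c2
      _ = ε / 5 := by ring
  have b3 : ‖g3 F (cu P9 f)‖ ≤ ε / 5 := by
    unfold g3
    rw [rru, ztu, cj5, norm_mul, norm_mul, norm_pow, Complex.norm_conj, Complex.norm_real, Real.norm_eq_abs]
    calc |F.x5 (rF f)| * ‖YY (X1 f) (X2 f)‖ ^ 4 * ‖CE 5 f‖ ≤ |F.x5 (rF f)| * 1 * (22 * cF f) := by
          gcongr
          exact hzn _
      _ = 22 * (|F.x5 (rF f)| * cF f ^ 1) := by ring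
      _ ≤ 22 * (ε / (5 * 22)) := by
          gcongr
          exact q3 f hf c3
      _ = ε / 5 := by ring
  have b4 : ‖g4 F (cu P9 f)‖ ≤ ε / 5 := by
    unfold g4
    rw [rru, ztu, cj5, norm_mul, norm_mul, norm_pow, Complex.norm_conj, Complex.norm_real, Real.norm_eq_abs]
    calc |F.y5 (rF f)| * ‖YY (X1 f) (X2 f)‖ ^ (5 + 1) * ‖CE 5 f‖ ≤ |F.y5 (rF f)| * 1 * (22 * cF f) := by
          gcongr
          exact hzn _
      _ = 22 * (|F.y5 (rF f)| * cF f ^ 1) := by ring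
      _ ≤ 22 * (ε / (5 * 22)) := by
          gcongr
          exact q4 f hf c4
      _ = ε / 5 := by ring
  have n1 := norm_add_le (g3 F (cu P9 f)) (g4 F (cu P9 f))
  have n2 := norm_add_le (g2 F (cu P9 f)) (g3 F (cu P9 f) + g4 F (cu P9 f))
  have n3 := norm_add_le (g1 F (cu P9 f)) (g2 F (cu P9 f) + (g3 F (cu P9 f) + g4 F (cu P9 f)))
  have n4 := norm_add_le (G7 F.C (pr (cu P9 f))) (g1 F (cu P9 f) + (g2 F (cu P9 f) + (g3 F (cu P9 f)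
    + g4 F (cu P9 f))))
  unfold G9
  linarith

theorem lab_small9 (H : F.Bo) {ε : ℝ} (hε : 0 < ε) :
    ∃ η : ℝ, 0 < η ∧ ∀ f h, Ef f → Measurable h → (∀ t, |h t| ≤ 1) → CST.cc (cu P9 f) < η →
      |∑ i, lab 3 F.C.b 5 6 i (cu P9 f) * du dP9 f h i| ≤ ε := by
  obtain ⟨a, p, q⟩ := lab_small H.C hε
  refine ⟨a, p, fun f h hf hm hb hc => ?_⟩
  have h1 := q f h hf hm hb (by rw [OM7.ccu, ← ccu]; exact hc)
  have key : ∀ {n : ℕ} {Φ : Fin (n + 2) → (ℝ → ℝ) → ℝ} {dΦ : Fin (n + 2) → (ℝ → ℝ) → (ℝ → ℝ) → ℝ}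
      {j k : Fin (n + 2)} (_ : Φ 0 = X1) (_ : Φ 1 = X2) (_ : dΦ 0 = dX1) (_ : dΦ 1 = dX2)
      (_ : cj j k (cu Φ f) = CE 3 f) (_ : cj j k (du dΦ f h) = dCE 3 f h),
      ∑ i, lab 3 F.C.b j k i (cu Φ f) * du dΦ f h i =
      F.C.b (rF f) * (conj (CE 3 f) * dCE 3 f h).im + ((CST.phb 3 F.C.b (rF f) : ℂ)
        * conj (YY (X1 f) (X2 f)) ^ (0 + 1) * ((normSq (CE 3 f) : ℝ) : ℂ) * vF f h).im := by
    intro n Φ dΦ j k h0 h1 k0 k1 hcj hdj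
    have er : CST.rr (cu Φ f) = rF f := SYS.rr_cu h0 h1 f
    have ez : zt (cu Φ f) = YY (X1 f) (X2 f) := SYS.zt_cu h0 h1 f
    have ev : CST.vv (cu Φ f) (du dΦ f h) = vF f h := SYS.vv_cu h0 h1 k0 k1 f h
    have e1 : ∀ i, lab 3 F.C.b j k i (cu Φ f) * du dΦ f h i =
        CST.lab0 F.C.b j k i (cu Φ f) * du dΦ f h i
          + gv (fun u => (CST.phb 3 F.C.b (CST.rr u) : ℂ) * conj (zt u) ^ (0 + 1)
            * ((normSq (cj j k u) : ℝ) : ℂ)) i (cu Φ f) * du dΦ f h i := fun i => by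
      unfold lab
      ring
    simp only [e1]
    rw [Finset.sum_add_distrib, CST.sum_gv]
    congr 1
    · have e2 : ∀ i, CST.lab0 F.C.b j k i (cu Φ f) * du dΦ f h i =
          (if i = j then -(F.C.b (CST.rr (cu Φ f)) * cu Φ f k) * du dΦ f h i else 0)
            + (if i = k then F.C.b (CST.rr (cu Φ f)) * cu Φ f j * du dΦ f h i else 0) := fun i => by
        unfold CST.lab0
        split_ifs <;> ring
      simp only [e2]
      rw [Finset.sum_add_distrib, Finset.sum_ite_eq', Finset.sum_ite_eq']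
      simp only [Finset.mem_univ, if_true]
      rw [er, ← hcj, ← hdj]
      simp only [cj, mul_im, conj_re, conj_im]
      ring
    · rw [er, ez, ev, hcj]
  rw [key (Φ := P7) (dΦ := dP7) rfl rfl rfl rfl rfl rfl] at h1
  rw [key (Φ := P9) (dΦ := dP9) rfl rfl rfl rfl rfl rfl]
  exact h1

/-- **the inequality on every surface with the deviation of the start map `Φ'`** -/
theorem raw9 (S' : Sys Φ' dΦ' K' L') {Bk : DevK} (HD : IsDevK Φ' dΦ' Bk) {W : ℝ → ℝ}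
    (hW : ContDiffOn ℝ 1 W (Ioi 0)) (hW0 : ContinuousOn W (Ici 0)) (HF : F.Sm) (HB : F.Bo) {μ T : ℝ}
    (H : Cert9 Bk W F μ T) {e : ℝ} (he : 0 < e) :
    ∃ d : ℝ, 0 < d ∧ ∀ (M : Type) [MetricSpace M] [CompactSpace M] (γ : ℝ → M) (C : Calc M γ), Bd γ →
      ∀ (ρ : ℝ) (m : ℕ), 0 ≤ ρ → ρ < 1 → 2 ≤ m → (1 - ρ) * (Real.pi / 2) + 2 * (Real.pi / m) ≤ d →
        Integrable (CST.nur C fun i => pull γ ρ m (Φ' i)) C.μ ∧
        2 * Real.pi * W 0 - e + μ * ∫ o, CST.nur C (fun i => pull γ ρ m (Φ' i)) o ∂C.μ ≤ T * C.vol :=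
  CST.raw_le_two sys9 S' hW hW0 HF.cG (fun _ hε => G9_small HB hε)
    (fun i => CST.contDiffOn_lab HF.C.b 5 6 i) (fun _ hε => lab_small9 HB hε)
    (fun _ _ _ hf V => hst9 HD hW HF H hf V) he

/-- **the area bound on every surface, from the certificate** -/
theorem area9 {Bk : DevK} {W : ℝ → ℝ} (hW : ContDiffOn ℝ 1 W (Ioi 0)) (hW0 : ContinuousOn W (Ici 0))
    (HF : F.Sm) (HB : F.Bo) {T : ℝ} (H : Cert9 Bk W F 0 T) (M : Type) [MetricSpace M] [CompactSpace M]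
    (γ : ℝ → M) (C : Calc M γ) (hγ : Bd γ) : 2 * Real.pi * W 0 ≤ T * C.vol := by
  have H' : Cert9 (fun _ _ _ B => B) W F 0 T := by
    intro f hf K hK hK1 A B hA hB
    have := H f hf K hK hK1 A B hA hB
    linarith
  exact CST.area_le_add sys9 hW hW0 HF.cG (fun _ hε => G9_small HB hε)
    (fun i => CST.contDiffOn_lab HF.C.b 5 6 i) (fun _ hε => lab_small9 HB hε)
    (fun f h k hf V => by
      have := hst9 isDevK_F54 hW HF H' hf V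
      rwa [zero_mul, add_zero] at this) M γ C hγ

/-- the old class -/
theorem cert9_of_7X {Bx : Dev} {W : ℝ → ℝ} {F : Cof} {μ T : ℝ} (H : Cert7X Bx W F μ T) :
    Cert9 (devK Bx) W ⟨F, fun _ => 0, fun _ => 0, fun _ => 0, fun _ => 0⟩ μ T := by
  intro f hf K hK hK1 A B hA hB
  have h := H f hf K hK hK1 A B hA hB
  have e1 : mk9 ⟨F, fun _ => 0, fun _ => 0, fun _ => 0, fun _ => 0⟩ f = mk7 F f := by
    funext t
    unfold mk9 mkP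
    simp
  have e2 : W9 W ⟨F, fun _ => 0, fun _ => 0, fun _ => 0, fun _ => 0⟩ f = W7 W F f := by
    unfold W9 WP
    simp
  rw [e1, e2]
  exact h

end Pool.Agent.FPX.OMG
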