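import Mathlib
import Pool.Agent.FPX.OMG
import Pool.Agent.FPX.ARP

/-
OMH (helper11): the class of forms of OMG enlarged by the two forms in `|C₅|²`: `g₅ conj(ζ) |C₅|²` and
`b₅ Im (conj C₅ ∇C₅)`: the value at a state, the certificate, the raw inequality (any start map, any convex
function of the deviation), the area bound.
-/

open MeasureTheory Set Filter Topology Complex
open scoped ENNReal NNReal ContDiff ComplexConjugate

noncomputable section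

namespace Pool.Agent.FPX.OMG

open Pool.Agent.FPX Pool.Agent.FPX.UMP Pool.Agent.FPX.UMQ Pool.Agent.FPX.UXA Pool.Agent.EWD
open Pool.Agent.FPX.F54 (X1 X2 dX1 dX2 X_lt X_G1 X_G2 vF sF)
open Pool.Agent.FPX.S54 (dS2 dS0 mS Fv ME YY de)
open Pool.Agent.FPX.OMB (vm vm_int vm_prob bm_ep bm_real)
open Pool.Agent.FPX.CRD (Bm)
open Pool.Agent.FPX.OMS (rF cF cF_eq Aa Ba Kc ME_vm Kc_meas Kc_le AB_eq)
open Pool.Agent.FPX.SYS (P7 dP7 sys7 CE dCE K2 K0)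
open Pool.Agent.FPX.CST (cu du dl gv gt nu ja zt ss hh OO cj lab tt Sys isOpen_OO dl_gv dl_gv_add
  contDiffOn_spa contDiffOn_spb contDiff_cj contDiff_cjc)
open Pool.Agent.FPX.OM7

/-! ### the forms -/

/-- coefficients (functions of `|ζ|²`) of the class with `|C₅|²` -/
structure CofH where
  F : Cof9
  g5 : ℝ → ℝ
  b5 : ℝ → ℝ

structure CofH.Sm (F : CofH) : Prop where
  c9 : F.F.Sm
  g5 : ContDiffOn ℝ 1 F.g5 (Iio 1)
  b5 : ContDiffOn ℝ 1 F.b5 (Iio 1)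

variable {F : CofH}

def gn (F : CofH) (u : Fin (7 + 2) → ℝ) : ℂ :=
  (F.g5 (CST.rr u) : ℂ) * conj (zt u) ^ (0 + 1) * ((normSq (cj 7 8 u) : ℝ) : ℂ)

/-- the function `G` of the form -/
def GH (F : CofH) (u : Fin (7 + 2) → ℝ) : ℂ := G9 F.F u + gn F u

/-- the additional 1-form -/
def lh (F : CofH) (i : Fin (7 + 2)) (u : Fin (7 + 2) → ℝ) : ℝ := lab 3 F.F.C.b 5 6 i u + lab 5 F.b5 7 8 i u

theorem CofH.Sm.cn (H : F.Sm) : ContDiffOn ℝ 1 (gn F) (OO 7) :=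
  contDiffOn_spb H.g5 (CST.contDiff_nsq 7 8).contDiffOn (0 + 1)

theorem CofH.Sm.cG (H : F.Sm) : ContDiffOn ℝ 1 (GH F) (OO 7) := H.c9.cG.add H.cn

theorem CofH.Sm.cl (H : F.Sm) (i : Fin (7 + 2)) : ContDiffOn ℝ 1 (lh F i) (OO 7) :=
  (CST.contDiffOn_lab H.c9.C.b 5 6 i).add (CST.contDiffOn_lab H.b5 7 8 i)

theorem dl_GH (H : F.Sm) {u : Fin (7 + 2) → ℝ} (hu : u ∈ OO 7) (p q : Fin (7 + 2) → ℝ) :
    dl (fun i u => fderiv ℝ (gv (GH F) i) u) u p q =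
      dl (fun i u => fderiv ℝ (gv (G9 F.F) i) u) u p q + dl (fun i u => fderiv ℝ (gv (gn F) i) u) u p q := by
  have e1 : GH F = fun u => G9 F.F u + gn F u := rfl
  rw [e1, dl_gv_add H.c9.cG H.cn hu]

theorem dl_lh (H : F.Sm) {u : Fin (7 + 2) → ℝ} (hu : u ∈ OO 7) (p q : Fin (7 + 2) → ℝ) :
    dl (fun i u => fderiv ℝ (lh F i) u) u p q =
      dl (fun i u => fderiv ℝ (lab 3 F.F.C.b 5 6 i) u) u p q
        + dl (fun i u => fderiv ℝ (lab 5 F.b5 7 8 i) u) u p q := by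
  have e1 : (fun i u => fderiv ℝ (lh F i) u) = fun (i : Fin (7 + 2)) (u : Fin (7 + 2) → ℝ) =>
      fderiv ℝ (fun u => lab 3 F.F.C.b 5 6 i u + lab 5 F.b5 7 8 i u) u := rfl
  rw [e1]
  exact CST.dl_add (u := u)
    (fun i => ((CST.contDiffOn_lab H.c9.C.b 5 6 i).contDiffAt (isOpen_OO.mem_nhds hu)).differentiableAt
      one_ne_zero)
    (fun i => ((CST.contDiffOn_lab H.b5 7 8 i).contDiffAt (isOpen_OO.mem_nhds hu)).differentiableAt
      one_ne_zero) p q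

/-! ### the value at a state -/

/-- the first order functional of the new form -/
def MN (F : CofH) (f g : ℝ → ℝ) : ℂ :=
  (F.g5 (rF f) : ℂ) * conj (YY (X1 f) (X2 f)) * ((2 * (conj (CE 5 f) * L5 f g).re : ℝ) : ℂ)

/-- the coefficient of the Jacobian of the new form -/
def WN (F : CofH) (f : ℝ → ℝ) : ℝ :=
  2 * cF f * (rF f * deriv F.g5 (rF f) + F.g5 (rF f)) * normSq (CE 5 f)
    + 2 * F.g5 (rF f) * (conj (YY (X1 f) (X2 f)) * (conj (CE 5 f) * D7 f)).re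
    - 2 * F.g5 (rF f) * (YY (X1 f) (X2 f) * (conj (CE 5 f) * E3 f)).re

private theorem rvv (a p q : ℂ) : (((a * p).re : ℝ) : ℂ) * q - (((a * q).re : ℝ) : ℂ) * p =
    I * (((conj p * q).im : ℝ) : ℂ) * conj a := by
  apply Complex.ext <;> simp <;> ring

private theorem imI' (X Y : ℂ) (r : ℝ) : (X * (I * (r : ℂ) * Y)).im = (X * Y).re * r := by
  rw [show X * (I * (r : ℂ) * Y) = ((r : ℝ) : ℂ) * (I * (X * Y)) by ring, Complex.im_ofReal_mul,
    Complex.I_mul_im]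
  ring

theorem valn (H : F.Sm) {f : ℝ → ℝ} (hf : Ef f) (h k : ℝ → ℝ) :
    dl (fun i u => fderiv ℝ (gv (gn F) i) u) (cu P9 f) (du dP9 f h) (du dP9 f k) =
      (MN F f h * vF f k - MN F f k * vF f h).im + WN F f * (conj (vF f h) * vF f k).im := by
  have hu : cu P9 f ∈ OO 7 := sys9.mem hf
  have c5 : ((5 : ℝ) : ℂ) = 5 := by push_cast; rfl
  have v := CST.dl_fn hu H.g5 (dd9 hf H.g5) (s := 5) (j := 7) (k := 8) (Np := NC5 f h) (Nq := NC5 f k)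
    (by rw [c5]; exact hC5 hf h) (by rw [c5]; exact hC5 hf k)
  have t : dl (fun i u => fderiv ℝ (gv (gn F) i) u) (cu P9 f) (du dP9 f h) (du dP9 f k) = _ := v
  rw [t, jau, rru, ztu, vvu, vvu, ccu, cj5]
  unfold NC5
  rw [aG]
  have R := rvv (conj (CE 5 f) * E3 f) (vF f h) (vF f k)
  have s : ∀ g, (conj (CE 5 f) * (L5 f g - vF f g * E3 f)).re =
      (conj (CE 5 f) * L5 f g).re - (conj (CE 5 f) * E3 f * vF f g).re := fun g => by
    rw [← Complex.sub_re]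
    congr 1
    ring
  have e1 : (F.g5 (rF f) : ℂ) * conj (YY (X1 f) (X2 f))
      * (((2 * (conj (CE 5 f) * (L5 f h - vF f h * E3 f)).re : ℝ) : ℂ) * vF f k
        - ((2 * (conj (CE 5 f) * (L5 f k - vF f k * E3 f)).re : ℝ) : ℂ) * vF f h) =
      (MN F f h * vF f k - MN F f k * vF f h)
        + (-(2 * (F.g5 (rF f) : ℂ) * conj (YY (X1 f) (X2 f))))
          * (I * (((conj (vF f h) * vF f k).im : ℝ) : ℂ) * conj (conj (CE 5 f) * E3 f)) := by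
    rw [← R, s, s]
    unfold MN
    push_cast
    ring
  have e2 : (-(2 * (F.g5 (rF f) : ℂ) * conj (YY (X1 f) (X2 f))) * conj (conj (CE 5 f) * E3 f)).re =
      -(2 * F.g5 (rF f) * (YY (X1 f) (X2 f) * (conj (CE 5 f) * E3 f)).re) := by
    have : -(2 * (F.g5 (rF f) : ℂ) * conj (YY (X1 f) (X2 f))) * conj (conj (CE 5 f) * E3 f) =
        ((-(2 * F.g5 (rF f)) : ℝ) : ℂ) * conj (YY (X1 f) (X2 f) * (conj (CE 5 f) * E3 f)) := by
      simp only [map_mul]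
      push_cast
      ring
    rw [this, Complex.re_ofReal_mul, Complex.conj_re]
    ring
  rw [e1, Complex.add_im, imI', e2]
  unfold WN
  ring

/-- **the value of the form without `b`** -/
theorem val_GH (H : F.Sm) {f : ℝ → ℝ} (hf : Ef f) (h k : ℝ → ℝ) :
    dl (fun i u => fderiv ℝ (gv (GH F) i) u) (cu P9 f) (du dP9 f h) (du dP9 f k) =
      ((M9 F.F f h + MN F f h) * vF f k - (M9 F.F f k + MN F f k) * vF f h).im
        + (W1 F.F.C f + WP F.F f + WN F f) * (conj (vF f h) * vF f k).im := by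
  have hu : cu P9 f ∈ OO 7 := sys9.mem hf
  rw [dl_GH H hu, val_G9 H.c9 hf, valn H hf]
  have eM : (M9 F.F f h + MN F f h) * vF f k - (M9 F.F f k + MN F f k) * vF f h =
      ((M7 F.F.C f h + MP F.F f h) * vF f k - (M7 F.F.C f k + MP F.F f k) * vF f h)
        + (MN F f h * vF f k - MN F f k * vF f h) := by
    unfold M9
    ring
  rw [eM, Complex.add_im]
  ring

/-! ### the kernel -/

/-- the kernel of the new form -/
def mkN (F : CofH) (f : ℝ → ℝ) (t : ℝ) : ℂ :=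
  2 * (F.g5 (rF f) : ℂ) * conj (YY (X1 f) (X2 f))
    * (((conj (CE 5 f) * C54.ep (X1 f) (X2 f) t ^ 5).re : ℝ) : ℂ)

/-- the kernel of the mixed part -/
def mkH (F : CofH) (f : ℝ → ℝ) (t : ℝ) : ℂ := mk9 F.F f t + mkN F f t

theorem mkN_eq (F : CofH) (f : ℝ → ℝ) : mkN F f = fun t =>
    ((F.g5 (rF f) : ℂ) * conj (YY (X1 f) (X2 f)) * CE 5 f) * conj (C54.ep (X1 f) (X2 f) t) ^ 5
    + ((F.g5 (rF f) : ℂ) * conj (YY (X1 f) (X2 f)) * conj (CE 5 f)) * C54.ep (X1 f) (X2 f) t ^ 5 := by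
  funext t
  unfold mkN
  rw [Complex.re_eq_add_conj]
  simp only [map_mul, map_pow, Complex.conj_conj]
  ring

theorem bm_mkN {f : ℝ → ℝ} (hf : Ef f) : Bm (mkN F f) := by
  have bE := bm_ep (X_lt hf)
  rw [mkN_eq]
  exact ((Bm.const _).mul (bm_pow bE.conj 5)).add ((Bm.const _).mul (bm_pow bE 5))

theorem bm_mkH {f : ℝ → ℝ} (hf : Ef f) : Bm (mkH F f) := (bm_mk9 hf).add (bm_mkN hf)

/-- the first order functional -/
def MH (F : CofH) (f g : ℝ → ℝ) : ℂ := M9 F.F f g + MN F f g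

theorem MH_int {f g : ℝ → ℝ} (hf : Ef f) (hg : Measurable g) (hb : ∀ t, |g t| ≤ 1) :
    MH F f g = ∫ t, (2 * mkH F f t) * (g t : ℂ) ∂(vm (X1 f) (X2 f)) := by
  have hX := X_lt hf
  have := vm_prob hX
  have bE := bm_ep hX
  have bg : Bm fun t => (g t : ℂ) := bm_real hg hb
  have b5 : Bm fun t => C54.ep (X1 f) (X2 f) t ^ 5 * (g t : ℂ) := (bm_pow bE 5).mul bg
  have bm := bm_mk9 (F := F.F) hf
  have bP := bm_mkN (F := F) hf
  have e0 : (fun t => (2 * mkH F f t) * (g t : ℂ)) = fun t => (2 * mk9 F.F f t) * (g t : ℂ)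
      + (2 * mkN F f t) * (g t : ℂ) := by
    funext t
    unfold mkH
    ring
  rw [e0, integral_add (((Bm.const 2).mul bm).mul bg).int (((Bm.const 2).mul bP).mul bg).int, ← M9_int hf hg hb]
  unfold MH
  congr 1
  have cj1 : ∀ {φ : ℝ → ℂ}, ∫ t, conj (φ t) ∂(vm (X1 f) (X2 f)) = conj (∫ t, φ t ∂(vm (X1 f) (X2 f))) :=
    integral_conj
  have e : (fun t => (2 * mkN F f t) * (g t : ℂ)) = fun t =>
      (2 * ((F.g5 (rF f) : ℂ) * conj (YY (X1 f) (X2 f)) * CE 5 f))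
        * conj (C54.ep (X1 f) (X2 f) t ^ 5 * (g t : ℂ))
      + (2 * ((F.g5 (rF f) : ℂ) * conj (YY (X1 f) (X2 f)) * conj (CE 5 f)))
        * (C54.ep (X1 f) (X2 f) t ^ 5 * (g t : ℂ)) := by
    funext t
    rw [mkN_eq]
    simp only [map_mul, map_pow, Complex.conj_ofReal]
    ring
  have i1 := ((Bm.const (2 * ((F.g5 (rF f) : ℂ) * conj (YY (X1 f) (X2 f)) * CE 5 f))).mul b5.conj)
  have i2 := ((Bm.const (2 * ((F.g5 (rF f) : ℂ) * conj (YY (X1 f) (X2 f)) * conj (CE 5 f)))).mul b5)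
  rw [e, integral_add (μ := vm (X1 f) (X2 f)) i1.int i2.int, integral_const_mul, integral_const_mul, cj1]
  unfold MN
  rw [L5_vm hf, Complex.ofReal_mul, Complex.re_eq_add_conj]
  simp only [map_mul, Complex.conj_conj, Complex.conj_ofNat]
  push_cast
  ring

theorem mixH {f h k : ℝ → ℝ} (hf : Ef f) (V : Var h k) :
    (MH F f h * vF f k - MH F f k * vF f h).im =
      2 * (Aa f h k * ∫ t, mkH F f t * Kc h k t ∂(vm (X1 f) (X2 f))).re
        - 2 * (Ba f h k * ∫ t, mkH F f t * conj (Kc h k t) ∂(vm (X1 f) (X2 f))).re := by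
  have hX := X_lt hf
  have := vm_prob hX
  rw [MH_int hf V.mesh V.bh, MH_int hf V.mesk V.bk]
  have b2 : Bm fun t => 2 * mkH F f t := (Bm.const 2).mul (bm_mkH hf)
  have key := CST.pol (μ := vm (X1 f) (X2 f)) b2 (bm_real V.mesh V.bh) (bm_real V.mesk V.bk)
    (fun t => Complex.ofReal_im _) (fun t => Complex.ofReal_im _) (vF f h) (vF f k)
  rw [key]
  have e1 : ∫ t, (2 * mkH F f t) * ((h t : ℂ) + I * (k t : ℂ)) ∂(vm (X1 f) (X2 f)) =
      2 * ∫ t, mkH F f t * Kc h k t ∂(vm (X1 f) (X2 f)) := by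
    rw [← integral_const_mul]
    congr 1
    funext t
    unfold Kc
    ring
  have e2 : ∫ t, (2 * mkH F f t) * conj ((h t : ℂ) + I * (k t : ℂ)) ∂(vm (X1 f) (X2 f)) =
      2 * ∫ t, mkH F f t * conj (Kc h k t) ∂(vm (X1 f) (X2 f)) := by
    rw [← integral_const_mul]
    congr 1
    funext t
    unfold Kc
    ring
  rw [e1, e2]
  have e3 : ∀ a b : ℂ, (a * (2 * b)).re = 2 * (a * b).re := fun a b => by
    rw [show a * (2 * b) = ((2 : ℝ) : ℂ) * (a * b) by push_cast; ring, Complex.re_ofReal_mul]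
  rw [e3, e3]
  rfl

/-! ### the term `Im (conj C₅ ∇C₅)` -/

/-- the part of type `conj K` of `∇C₅`; `R = mean (ε⁵ conj K)` -/
def Cp5 (f : ℝ → ℝ) (A B R : ℂ) : ℂ :=
  R + conj B * D7 f - A * E3 f
    - 5 / (4 * (cF f : ℂ)) * (conj (YY (X1 f) (X2 f)) * A - YY (X1 f) (X2 f) * conj B) * CE 5 f

/-- the part of type `K` of `∇C₅`; `R = mean (ε⁵ K)` -/
def Cm5 (f : ℝ → ℝ) (A B R : ℂ) : ℂ :=
  R + conj A * D7 f - B * E3 f
    - 5 / (4 * (cF f : ℂ)) * (conj (YY (X1 f) (X2 f)) * B - YY (X1 f) (X2 f) * conj A) * CE 5 f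

/-- the value of the term `Im (conj C₅ ∇C₅)` -/
def bv5 (b : ℝ → ℝ) (f : ℝ → ℝ) (A B N M : ℂ) : ℝ :=
  2 * b (rF f) * (‖N‖ ^ 2 - ‖M‖ ^ 2) - 5 * b (rF f) * normSq (CE 5 f) * (‖A‖ ^ 2 - ‖B‖ ^ 2)
    + 2 * cF f * deriv b (rF f) * ((conj (YY (X1 f) (X2 f)) * A + YY (X1 f) (X2 f) * conj B)
      * (CE 5 f * conj N - conj (CE 5 f) * M)).re

theorem L5_pm {f h k : ℝ → ℝ} (hf : Ef f) (V : Var h k) :
    (L5 f h - I * L5 f k) / 2 = ∫ t, C54.ep (X1 f) (X2 f) t ^ 5 * conj (Kc h k t) ∂(vm (X1 f) (X2 f)) ∧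
      (L5 f h + I * L5 f k) / 2 = ∫ t, C54.ep (X1 f) (X2 f) t ^ 5 * Kc h k t ∂(vm (X1 f) (X2 f)) := by
  have hX := X_lt hf
  have := vm_prob hX
  have bE5 := bm_pow (bm_ep hX) 5
  have b1 := bE5.mul (bm_real V.mesh V.bh)
  have b2 := bE5.mul (bm_real V.mesk V.bk)
  rw [L5_vm hf, L5_vm hf]
  constructor
  · have e : (fun t => C54.ep (X1 f) (X2 f) t ^ 5 * conj (Kc h k t)) = fun t =>
        C54.ep (X1 f) (X2 f) t ^ 5 * (h t : ℂ) - I * (C54.ep (X1 f) (X2 f) t ^ 5 * (k t : ℂ)) := by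
      funext t
      unfold Kc
      rw [map_add, map_mul, conj_I, Complex.conj_ofReal, Complex.conj_ofReal]
      ring
    rw [e, integral_sub b1.int ((Bm.const I).mul b2).int, integral_const_mul]
    ring
  · have e : (fun t => C54.ep (X1 f) (X2 f) t ^ 5 * Kc h k t) = fun t =>
        C54.ep (X1 f) (X2 f) t ^ 5 * (h t : ℂ) + I * (C54.ep (X1 f) (X2 f) t ^ 5 * (k t : ℂ)) := by
      funext t
      unfold Kc
      ring
    rw [e, integral_add b1.int ((Bm.const I).mul b2).int, integral_const_mul]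
    ring

theorem NC5_pm {f h k : ℝ → ℝ} (hf : Ef f) (V : Var h k) :
    (NC5 f h - I * NC5 f k) / 2 = Cp5 f (Aa f h k) (Ba f h k)
        (∫ t, C54.ep (X1 f) (X2 f) t ^ 5 * conj (Kc h k t) ∂(vm (X1 f) (X2 f))) ∧
      (NC5 f h + I * NC5 f k) / 2 = Cm5 f (Aa f h k) (Ba f h k)
        (∫ t, C54.ep (X1 f) (X2 f) t ^ 5 * Kc h k t ∂(vm (X1 f) (X2 f))) := by
  obtain ⟨e1, e2⟩ := L5_pm hf V
  have hc : (cF f : ℂ) ≠ 0 := by
    have : 0 < cF f := Real.sqrt_pos.2 (sub_pos.2 (X_lt hf))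
    exact_mod_cast this.ne'
  have ht : ∀ v : ℂ, (((conj (YY (X1 f) (X2 f)) * v).im / (2 * cF f) : ℝ) : ℂ) =
      (conj (YY (X1 f) (X2 f)) * v - YY (X1 f) (X2 f) * conj v) / (2 * I) / (2 * cF f) := by
    intro v
    push_cast
    rw [Complex.im_eq_sub_conj]
    simp only [map_mul, Complex.conj_conj]
  have c2 : conj (2 : ℂ) = 2 := map_ofNat _ 2
  rw [← e1, ← e2]
  unfold NC5 cd Cp5 Cm5 Aa Ba
  rw [ht, ht]
  generalize E3 f = e3
  generalize D7 f = d7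
  simp only [map_div₀, map_add, map_sub, map_mul, conj_I, c2]
  push_cast
  constructor <;> field_simp <;> ring

theorem val_b5 (H : F.Sm) {f h k : ℝ → ℝ} (hf : Ef f) (V : Var h k) :
    dl (fun i u => fderiv ℝ (lab 5 F.b5 7 8 i) u) (cu P9 f) (du dP9 f h) (du dP9 f k) =
      bv5 F.b5 f (Aa f h k) (Ba f h k)
        (Cp5 f (Aa f h k) (Ba f h k)
          (∫ t, C54.ep (X1 f) (X2 f) t ^ 5 * conj (Kc h k t) ∂(vm (X1 f) (X2 f))))
        (Cm5 f (Aa f h k) (Ba f h k)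
          (∫ t, C54.ep (X1 f) (X2 f) t ^ 5 * Kc h k t ∂(vm (X1 f) (X2 f)))) := by
  have hu : cu P9 f ∈ OO 7 := sys9.mem hf
  have c5 : ((5 : ℝ) : ℂ) = 5 := by push_cast; rfl
  rw [CST.dl_lab hu H.b5 (dd9 hf H.b5) (s := 5) (j := 7) (k := 8) (Np := NC5 f h) (Nq := NC5 f k)
    (by rw [c5]; exact hC5 hf h) (by rw [c5]; exact hC5 hf k)]
  obtain ⟨p1, p2⟩ := NC5_pm hf V
  rw [rru, ccu, ztu, vvu, vvu, jau, cj5, CST.pol2, CST.pol3, CST.pol3, p1, p2, Complex.conj_conj,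
    Complex.conj_conj]
  unfold bv5 Aa Ba
  ring

/-! ### the certificate -/

/-- the coefficient of the Jacobian -/
def WH (W : ℝ → ℝ) (F : CofH) (f : ℝ → ℝ) : ℝ := W9 W F.F f + WN F f

/-- the certificate at one state -/
def CertAtH (Bk : DevK) (W : ℝ → ℝ) (F : CofH) (μ T : ℝ) (f : ℝ → ℝ) : Prop :=
  ∀ K : ℝ → ℂ, Measurable K → (∀ t, ‖K t‖ ≤ 1) → ∀ A B : ℂ,
    A - sF f * conj B = ∫ t, C54.ep (X1 f) (X2 f) t * conj (K t) ∂(vm (X1 f) (X2 f)) →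
    B - sF f * conj A = ∫ t, C54.ep (X1 f) (X2 f) t * K t ∂(vm (X1 f) (X2 f)) →
    WH W F f * (‖A‖ ^ 2 - ‖B‖ ^ 2)
      + 2 * (A * ∫ t, mkH F f t * K t ∂(vm (X1 f) (X2 f))).re
      - 2 * (B * ∫ t, mkH F f t * conj (K t) ∂(vm (X1 f) (X2 f))).re
      + bv F.F.C f A B (Cp f A B (∫ t, C54.ep (X1 f) (X2 f) t ^ 3 * conj (K t) ∂(vm (X1 f) (X2 f))))
          (Cm f A B (∫ t, C54.ep (X1 f) (X2 f) t ^ 3 * K t ∂(vm (X1 f) (X2 f))))
      + bv5 F.b5 f A B (Cp5 f A B (∫ t, C54.ep (X1 f) (X2 f) t ^ 5 * conj (K t) ∂(vm (X1 f) (X2 f))))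
          (Cm5 f A B (∫ t, C54.ep (X1 f) (X2 f) t ^ 5 * K t ∂(vm (X1 f) (X2 f))))
      + 2 * μ * ‖Bk f K A B‖ ^ 2 ≤ T

/-- the certificate -/
def CertH (Bk : DevK) (W : ℝ → ℝ) (F : CofH) (μ T : ℝ) : Prop := ∀ f, Ef f → CertAtH Bk W F μ T f

variable {n' : ℕ} {Φ' : Fin (n' + 2) → (ℝ → ℝ) → ℝ} {dΦ' : Fin (n' + 2) → (ℝ → ℝ) → (ℝ → ℝ) → ℝ} {K' L' : ℝ}

theorem hstH {Bk : DevK} (HD : IsDevK Φ' dΦ' Bk) {W : ℝ → ℝ} (hW : ContDiffOn ℝ 1 W (Ioi 0)) (HF : F.Sm)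
    {μ T : ℝ} (H : CertH Bk W F μ T) {f h k : ℝ → ℝ} (hf : Ef f) (V : Var h k) :
    dl (fun i u => fderiv ℝ (gv (gt W (GH F)) i) u) (cu P9 f) (du dP9 f h) (du dP9 f k)
      + dl (fun i u => fderiv ℝ (lh F i) u) (cu P9 f) (du dP9 f h) (du dP9 f k)
      + μ * nu (cu Φ' f) (du dΦ' f h) (du dΦ' f k) ≤ T := by
  have hu : cu P9 f ∈ OO 7 := sys9.mem hf
  have hc : 0 < cF f := cF_pos hf
  have hW' : HasDerivAt W (deriv W (cF f)) (CST.cc (cu P9 f)) := by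
    rw [ccu]
    exact ((hW.contDiffAt (Ioi_mem_nhds hc)).differentiableAt one_ne_zero).hasDerivAt
  have m := mixH (F := F) hf V
  unfold MH at m
  rw [CST.dl_gt hW HF.cG hu hW', val_GH HF hf, dl_lh HF hu, val_b9 HF.c9 hf V, val_b5 HF hf V, HD f h k hf V, m,
    jau, jab, rru, ccu]
  obtain ⟨e1, e2⟩ := AB_eq hf V
  have := H f hf (Kc h k) (Kc_meas V) (Kc_le V) _ _ e1 e2
  unfold WH W9 W7 at this
  linarith

/-! ### the boundary -/

/-- the growth conditions at the boundary -/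
structure CofH.Bo (F : CofH) : Prop where
  c9 : F.F.Bo
  g5 : Tendsto (fun c => F.g5 (1 - c ^ 2) * c ^ 2) (𝓝[>] 0) (𝓝 0)
  b5 : Tendsto (fun c => F.b5 (1 - c ^ 2) * c) (𝓝[>] 0) (𝓝 0)

theorem dC5_le {f h : ℝ → ℝ} (hf : Ef f) (hm : Measurable h) (hb : ∀ t, |h t| ≤ 1) : ‖dCE 5 f h‖ ≤ 940 := by
  have h1 := S54Z.dMM_map_le' 5 0 (Φ := fun u : ℝ => u) (Φ' := fun _ : ℝ => (1 : ℝ)) (fun u => by simp)
    (fun u => by simp) hf hm zero_le_one hb
  rw [SYS.dCE_eq hf (by norm_num)]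
  unfold F54.dSM
  refine h1.trans (le_of_eq ?_)
  norm_num

theorem GH_small (H : F.Bo) {ε : ℝ} (hε : 0 < ε) :
    ∃ η : ℝ, 0 < η ∧ ∀ f, Ef f → CST.cc (cu P9 f) < η → ‖GH F (cu P9 f)‖ ≤ ε := by
  obtain ⟨a0, q0, r0⟩ := G9_small H.c9 (ε := ε / 2) (by positivity)
  obtain ⟨a1, p1, q1⟩ := small (k := 2) H.g5 (ε := ε / (2 * 484)) (by positivity)
  refine ⟨min a0 a1, lt_min q0 p1, fun f hf hc => ?_⟩
  have c0 := hc.trans_le (min_le_left _ _)
  have c1 := hc.trans_le (min_le_right _ _)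
  rw [ccu] at c1
  have hz := nz hf
  have hc0 := cF_pos hf
  have s5 := C5_le hf
  have hzn : ∀ k : ℕ, ‖YY (X1 f) (X2 f)‖ ^ k ≤ 1 := fun k => pow_le_one₀ (norm_nonneg _) hz
  have b1 : ‖gn F (cu P9 f)‖ ≤ ε / 2 := by
    unfold gn
    rw [rru, ztu, cj5, norm_mul, norm_mul, norm_pow, Complex.norm_conj, Complex.norm_real, Complex.norm_real,
      Real.norm_eq_abs, Real.norm_eq_abs, abs_of_nonneg (normSq_nonneg _), Complex.normSq_eq_norm_sq]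
    have s : ‖CE 5 f‖ ^ 2 ≤ (22 * cF f) ^ 2 := pow_le_pow_left₀ (norm_nonneg _) s5 2
    calc |F.g5 (rF f)| * ‖YY (X1 f) (X2 f)‖ ^ (0 + 1) * ‖CE 5 f‖ ^ 2
        ≤ |F.g5 (rF f)| * 1 * (22 * cF f) ^ 2 := by
          gcongr
          exact hzn _
      _ = 484 * (|F.g5 (rF f)| * cF f ^ 2) := by ring
      _ ≤ 484 * (ε / (2 * 484)) := by
          gcongr
          exact q1 f hf c1
      _ = ε / 2 := by ring
  have n1 := norm_add_le (G9 F.F (cu P9 f)) (gn F (cu P9 f))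
  have := r0 f hf c0
  unfold GH
  linarith

theorem lab_small5 (H : F.Bo) {ε : ℝ} (hε : 0 < ε) :
    ∃ η : ℝ, 0 < η ∧ ∀ f h, Ef f → Measurable h → (∀ t, |h t| ≤ 1) → CST.cc (cu P9 f) < η →
      |∑ i, lab 5 F.b5 7 8 i (cu P9 f) * du dP9 f h i| ≤ ε := by
  obtain ⟨a, p, q⟩ := small (k := 1) (by simpa using H.b5) (ε := ε / 50000) (by positivity)
  refine ⟨a, p, fun f h hf hm hb hc => ?_⟩
  rw [ccu] at hc
  have hq := q f hf hc
  have hc0 := cF_pos hf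
  have hc1 : cF f ≤ 1 := cF_le
  have s3 := C5_le hf
  have sd := dC5_le hf hm hb
  have hz := nz hf
  have hv : ‖vF f h‖ ≤ 7 := by
    have := sys7.norm_le hf hm hb
    rwa [OM7.vvu] at this
  have e : ∑ i, lab 5 F.b5 7 8 i (cu P9 f) * du dP9 f h i =
      F.b5 (rF f) * (conj (CE 5 f) * dCE 5 f h).im + ((CST.phb 5 F.b5 (rF f) : ℂ)
        * conj (YY (X1 f) (X2 f)) * ((normSq (CE 5 f) : ℝ) : ℂ) * vF f h).im := by
    have e1 : ∀ i, lab 5 F.b5 7 8 i (cu P9 f) * du dP9 f h i =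
        CST.lab0 F.b5 7 8 i (cu P9 f) * du dP9 f h i
          + gv (fun u => (CST.phb 5 F.b5 (CST.rr u) : ℂ) * conj (zt u) ^ (0 + 1)
            * ((normSq (cj 7 8 u) : ℝ) : ℂ)) i (cu P9 f) * du dP9 f h i := fun i => by
      unfold lab
      ring
    simp only [e1]
    rw [Finset.sum_add_distrib, CST.sum_gv]
    congr 1
    · have e2 : ∀ i, CST.lab0 F.b5 7 8 i (cu P9 f) * du dP9 f h i =
          (if i = 7 then -(F.b5 (CST.rr (cu P9 f)) * cu P9 f 8) * du dP9 f h i else 0)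
            + (if i = 8 then F.b5 (CST.rr (cu P9 f)) * cu P9 f 7 * du dP9 f h i else 0) := fun i => by
        unfold CST.lab0
        split_ifs <;> ring
      simp only [e2]
      rw [Finset.sum_add_distrib, Finset.sum_ite_eq', Finset.sum_ite_eq']
      simp only [Finset.mem_univ, if_true]
      rw [rru, ← cj5, ← cjd5]
      simp only [cj, mul_im, conj_re, conj_im]
      ring
    · rw [rru, ztu, vvu, cj5]
      simp
  rw [e]
  have t1 : |F.b5 (rF f) * (conj (CE 5 f) * dCE 5 f h).im| ≤ |F.b5 (rF f)| * cF f ^ 1 * 20680 := by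
    rw [abs_mul]
    have : |(conj (CE 5 f) * dCE 5 f h).im| ≤ 22 * cF f * 940 := by
      refine (Complex.abs_im_le_norm _).trans ?_
      rw [norm_mul, Complex.norm_conj]
      exact mul_le_mul s3 sd (norm_nonneg _) (by positivity)
    calc |F.b5 (rF f)| * |(conj (CE 5 f) * dCE 5 f h).im| ≤ |F.b5 (rF f)| * (22 * cF f * 940) := by gcongr
      _ = |F.b5 (rF f)| * cF f ^ 1 * 20680 := by ring
  have t2 : |((CST.phb 5 F.b5 (rF f) : ℂ) * conj (YY (X1 f) (X2 f)) * ((normSq (CE 5 f) : ℝ) : ℂ)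
      * vF f h).im| ≤ |F.b5 (rF f)| * cF f ^ 1 * 16940 := by
    refine (Complex.abs_im_le_norm _).trans ?_
    rw [norm_mul, norm_mul, norm_mul, Complex.norm_conj, Complex.norm_real, Complex.norm_real,
      Real.norm_eq_abs, Real.norm_eq_abs, abs_of_nonneg (normSq_nonneg _), Complex.normSq_eq_norm_sq]
    have ph : |CST.phb 5 F.b5 (rF f)| ≤ 5 * |F.b5 (rF f)| := by
      unfold CST.phb
      rw [abs_neg, abs_div, abs_mul, abs_of_pos (by norm_num : (0 : ℝ) < 5)]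
      have : (1 : ℝ) ≤ |1 + √(1 - rF f)| := by
        rw [abs_of_pos (by positivity)]
        linarith [Real.sqrt_nonneg (1 - rF f)]
      exact div_le_self (by positivity) this
    have s4 : ‖CE 5 f‖ ^ 2 ≤ (22 * cF f) ^ 2 := pow_le_pow_left₀ (norm_nonneg _) s3 2
    calc |CST.phb 5 F.b5 (rF f)| * ‖YY (X1 f) (X2 f)‖ * ‖CE 5 f‖ ^ 2 * ‖vF f h‖
        ≤ 5 * |F.b5 (rF f)| * 1 * (22 * cF f) ^ 2 * 7 := by gcongr
      _ = |F.b5 (rF f)| * (cF f * cF f) * 16940 := by ring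
      _ ≤ |F.b5 (rF f)| * (cF f * 1) * 16940 := by gcongr
      _ = |F.b5 (rF f)| * cF f ^ 1 * 16940 := by ring
  have t3 := abs_add_le (F.b5 (rF f) * (conj (CE 5 f) * dCE 5 f h).im)
    ((CST.phb 5 F.b5 (rF f) : ℂ) * conj (YY (X1 f) (X2 f)) * ((normSq (CE 5 f) : ℝ) : ℂ) * vF f h).im
  nlinarith

theorem lh_small (H : F.Bo) {ε : ℝ} (hε : 0 < ε) :
    ∃ η : ℝ, 0 < η ∧ ∀ f h, Ef f → Measurable h → (∀ t, |h t| ≤ 1) → CST.cc (cu P9 f) < η →
      |∑ i, lh F i (cu P9 f) * du dP9 f h i| ≤ ε := by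
  obtain ⟨a, p, q⟩ := lab_small9 H.c9 (ε := ε / 2) (by positivity)
  obtain ⟨a', p', q'⟩ := lab_small5 H (ε := ε / 2) (by positivity)
  refine ⟨min a a', lt_min p p', fun f h hf hm hb hc => ?_⟩
  have h1 := q f h hf hm hb (hc.trans_le (min_le_left _ _))
  have h2 := q' f h hf hm hb (hc.trans_le (min_le_right _ _))
  have e : ∑ i, lh F i (cu P9 f) * du dP9 f h i = ∑ i, lab 3 F.F.C.b 5 6 i (cu P9 f) * du dP9 f h i
      + ∑ i, lab 5 F.b5 7 8 i (cu P9 f) * du dP9 f h i := by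
    rw [← Finset.sum_add_distrib]
    refine Finset.sum_congr rfl fun i _ => ?_
    unfold lh
    ring
  rw [e]
  have := abs_add_le (∑ i, lab 3 F.F.C.b 5 6 i (cu P9 f) * du dP9 f h i)
    (∑ i, lab 5 F.b5 7 8 i (cu P9 f) * du dP9 f h i)
  linarith

/-- **the inequality on every surface with the deviation of the start map `Φ'`** -/
theorem rawH (S' : Sys Φ' dΦ' K' L') {Bk : DevK} (HD : IsDevK Φ' dΦ' Bk) {W : ℝ → ℝ}
    (hW : ContDiffOn ℝ 1 W (Ioi 0)) (hW0 : ContinuousOn W (Ici 0)) (HF : F.Sm) (HB : F.Bo) {μ T : ℝ}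
    (H : CertH Bk W F μ T) {e : ℝ} (he : 0 < e) :
    ∃ d : ℝ, 0 < d ∧ ∀ (M : Type) [MetricSpace M] [CompactSpace M] (γ : ℝ → M) (C : Calc M γ), Bd γ →
      ∀ (ρ : ℝ) (m : ℕ), 0 ≤ ρ → ρ < 1 → 2 ≤ m → (1 - ρ) * (Real.pi / 2) + 2 * (Real.pi / m) ≤ d →
        Integrable (CST.nur C fun i => pull γ ρ m (Φ' i)) C.μ ∧
        2 * Real.pi * W 0 - e + μ * ∫ o, CST.nur C (fun i => pull γ ρ m (Φ' i)) o ∂C.μ ≤ T * C.vol :=
  CST.raw_le_two sys9 S' hW hW0 HF.cG (fun _ hε => GH_small HB hε)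
    (fun i => HF.cl i) (fun _ hε => lh_small HB hε)
    (fun _ _ _ hf V => hstH HD hW HF H hf V) he

/-- **the same with a function `ψ` of the deviation**, from a family of certificates -/
theorem rawH_phi (S' : Sys Φ' dΦ' K' L') {Bk : DevK} (HD : IsDevK Φ' dΦ' Bk) {W : ℝ → ℝ}
    (hW : ContDiffOn ℝ 1 W (Ioi 0)) (hW0 : ContinuousOn W (Ici 0)) (HF : F.Sm) (HB : F.Bo)
    {ι : Type} {μ T : ι → ℝ} (H : ∀ i, CertH Bk W F (μ i) (T i)) {ψ : ℝ → ℝ} (hψ : Continuous ψ) {T₀ : ℝ}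
    (hψT : ∀ x, 0 ≤ x → ∃ i, ψ x ≤ μ i * x + (T₀ - T i)) {e : ℝ} (he : 0 < e) :
    ∃ d : ℝ, 0 < d ∧ ∀ (M : Type) [MetricSpace M] [CompactSpace M] (γ : ℝ → M) (C : Calc M γ), Bd γ →
      ∀ (ρ : ℝ) (m : ℕ), 0 ≤ ρ → ρ < 1 → 2 ≤ m → (1 - ρ) * (Real.pi / 2) + 2 * (Real.pi / m) ≤ d →
        Integrable (fun o => ψ (CST.nur C (fun i => pull γ ρ m (Φ' i)) o)) C.μ ∧
        2 * Real.pi * W 0 - e + ∫ o, ψ (CST.nur C (fun i => pull γ ρ m (Φ' i)) o) ∂C.μ ≤ T₀ * C.vol :=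
  CST.raw_le_phi sys9 S' hW hW0 HF.cG (fun _ hε => GH_small HB hε)
    (fun i => HF.cl i) (fun _ hε => lh_small HB hε) hψ
    (fun f h k hf V => by
      have hn : 0 ≤ nu (cu Φ' f) (du dΦ' f h) (du dΦ' f k) := by
        rw [HD f h k hf V]
        positivity
      obtain ⟨i, hi⟩ := hψT _ hn
      have := hstH HD hW HF (H i) hf V
      linarith) he

/-- **the area bound on every surface, from the certificate** -/
theorem areaH {Bk : DevK} {W : ℝ → ℝ} (hW : ContDiffOn ℝ 1 W (Ioi 0)) (hW0 : ContinuousOn W (Ici 0))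
    (HF : F.Sm) (HB : F.Bo) {T : ℝ} (H : CertH Bk W F 0 T) (M : Type) [MetricSpace M] [CompactSpace M]
    (γ : ℝ → M) (C : Calc M γ) (hγ : Bd γ) : 2 * Real.pi * W 0 ≤ T * C.vol := by
  have H' : CertH (fun _ _ _ B => B) W F 0 T := by
    intro f hf K hK hK1 A B hA hB
    have := H f hf K hK hK1 A B hA hB
    linarith
  exact CST.area_le_add sys9 hW hW0 HF.cG (fun _ hε => GH_small HB hε)
    (fun i => HF.cl i) (fun _ hε => lh_small HB hε)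
    (fun f h k hf V => by
      have := hstH isDevK_F54 hW HF H' hf V
      rwa [zero_mul, add_zero] at this) M γ C hγ

/-- the class of OMG -/
theorem certH_of_9 {Bk : DevK} {W : ℝ → ℝ} {F : Cof9} {μ T : ℝ} (H : Cert9 Bk W F μ T) :
    CertH Bk W ⟨F, fun _ => 0, fun _ => 0⟩ μ T := by
  intro f hf K hK hK1 A B hA hB
  have h := H f hf K hK hK1 A B hA hB
  have e1 : mkH ⟨F, fun _ => 0, fun _ => 0⟩ f = mk9 F f := by
    funext t
    unfold mkH mkN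
    simp
  have e2 : WH W ⟨F, fun _ => 0, fun _ => 0⟩ f = W9 W F f := by
    unfold WH WN
    simp
  have e3 : ∀ N M : ℂ, bv5 (fun _ => 0) f A B N M = 0 := fun N M => by
    unfold bv5
    simp
  rw [e1, e2, e3]
  linarith

end Pool.Agent.FPX.OMG
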