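import Mathlib
import Pool.Agent.FPX.ASX
import Pool.Agent.FPX.OMH

/-
ASH (helper96): the end of the assembly for the class of forms of OMH (`CertH`; OMG is the case `b5 = g5 = 0`,
`certH_of_9`): `rawP_H` (one certificate), `rawP_H2` (two certificates, `psi2`), the bound of the start map from
the deviation `DevK`, and the final theorems `two_pi_H`, `two_pi_H2`, all checks of numbers Boolean.
-/

open MeasureTheory Set Filter Topology Complex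
open scoped ENNReal NNReal ContDiff ComplexConjugate Manifold

noncomputable section

namespace Pool.Agent.FPX.ASX

open Pool.Agent.FPX Pool.Agent.FPX.UMP Pool.Agent.FPX.UMQ Pool.Agent.EWD Pool.Agent.FPX.UXA
  Pool.Agent.FPM Pool.Agent.FPX.XCO Pool.Agent.FPX.VTB
open Pool.Agent.FPX.F54 (X1 X2)
open Pool.Agent.FPX.OMB (vm)
open Pool.Agent.FPX.OMS (Kc Kc_meas Kc_le AB_eq)
open Pool.Agent.FPX.CST (Sys cu du)
open Pool.Agent.FPX.OMG (DevK IsDevK CofH CertH rawH_phi)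

variable {n' : ℕ} {Φ' : Fin (n' + 2) → (ℝ → ℝ) → ℝ} {dΦ' : Fin (n' + 2) → (ℝ → ℝ) → (ℝ → ℝ) → ℝ} {K' L' : ℝ}

/-- the inequality for the raw map from a family of certificates -/
theorem rawP_Hf (S' : Sys Φ' dΦ' K' L') {Bk : DevK} (HD : IsDevK Φ' dΦ' Bk) {W : ℝ → ℝ} {F : CofH}
    (hW : ContDiffOn ℝ 1 W (Ioi 0)) (hW0 : ContinuousOn W (Ici 0)) (HF : F.Sm) (HB : F.Bo)
    {ι : Type} {μ T : ι → ℝ} (H : ∀ i, CertH Bk W F (μ i) (T i)) {ψ : ℝ → ℝ} (hψ : Continuous ψ) {T₀ : ℝ}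
    (hψT : ∀ x, 0 ≤ x → ∃ i, ψ x ≤ μ i * x + (T₀ - T i)) : RawP Φ' ψ (W 0) T₀ := fun _ he =>
  rawH_phi S' HD hW hW0 HF HB H hψ hψT he

/-- one certificate -/
theorem rawP_H (S' : Sys Φ' dΦ' K' L') {Bk : DevK} (HD : IsDevK Φ' dΦ' Bk) {W : ℝ → ℝ} {F : CofH}
    (hW : ContDiffOn ℝ 1 W (Ioi 0)) (hW0 : ContinuousOn W (Ici 0)) (HF : F.Sm) (HB : F.Bo)
    {μ T : ℝ} (H : CertH Bk W F μ T) : RawP Φ' (fun x => μ * x) (W 0) T :=
  rawP_Hf S' HD hW hW0 HF HB (ι := Unit) (μ := fun _ => μ) (T := fun _ => T) (fun _ => H)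
    (continuous_const.mul continuous_id) fun x _ => ⟨(), by simp⟩

/-- two certificates -/
theorem rawP_H2 (S' : Sys Φ' dΦ' K' L') {Bk : DevK} (HD : IsDevK Φ' dΦ' Bk) {W : ℝ → ℝ} {F : CofH}
    (hW : ContDiffOn ℝ 1 W (Ioi 0)) (hW0 : ContinuousOn W (Ici 0)) (HF : F.Sm) (HB : F.Bo)
    {μ μ₂ t T : ℝ} (H : CertH Bk W F μ T) (H2 : CertH Bk W F μ₂ (T + t)) :
    RawP Φ' (psi2 μ μ₂ t) (W 0) T :=
  rawP_Hf S' HD hW hW0 HF HB (ι := Bool) (μ := fun i => if i then μ₂ else μ)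
    (T := fun i => if i then T + t else T)
    (fun i => by cases i <;> simpa) (psi2_cont _ _ _) fun x _ => psi2_fam x

/-- the constant of the start map from a bound of the deviation -/
theorem nB_of_devK {Bk : DevK} (HD : IsDevK Φ' dΦ' Bk) {N : ℝ} (hN : 0 ≤ N)
    (H : ∀ f, Ef f → ∀ K : ℝ → ℂ, Measurable K → (∀ t, ‖K t‖ ≤ 1) → ∀ A B : ℂ,
      A - F54.sF f * conj B = ∫ t, C54.ep (X1 f) (X2 f) t * conj (K t) ∂(vm (X1 f) (X2 f)) →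
      B - F54.sF f * conj A = ∫ t, C54.ep (X1 f) (X2 f) t * K t ∂(vm (X1 f) (X2 f)) →
      ‖Bk f K A B‖ ≤ N) : ∀ f h k : ℝ → ℝ, Ef f → Var h k →
      ‖(CST.vv (cu Φ' f) (du dΦ' f h) + I * CST.vv (cu Φ' f) (du dΦ' f k)) / 2‖ ≤ N := by
  intro f h k hf V
  refine (sq_le_sq₀ (norm_nonneg _) hN).1 ?_
  have h1 : CST.nu (cu Φ' f) (du dΦ' f h) (du dΦ' f k) =
      2 * ‖(CST.vv (cu Φ' f) (du dΦ' f h) + I * CST.vv (cu Φ' f) (du dΦ' f k)) / 2‖ ^ 2 := by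
    unfold CST.nu CST.ja
    rw [← Complex.normSq_eq_norm_sq]
    generalize CST.vv (cu Φ' f) (du dΦ' f h) = a
    generalize CST.vv (cu Φ' f) (du dΦ' f k) = b
    simp only [Complex.normSq_apply, Complex.mul_im, Complex.mul_re, Complex.conj_re, Complex.conj_im,
      Complex.div_ofNat_re, Complex.div_ofNat_im, Complex.add_re, Complex.add_im, Complex.I_re, Complex.I_im]
    ring
  rw [HD f h k hf V] at h1
  obtain ⟨e1, e2⟩ := AB_eq hf V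
  have h2 := pow_le_pow_left₀ (norm_nonneg _) (H f hf (Kc h k) (Kc_meas V) (Kc_le V) _ _ e1 e2) 2
  linarith

/-- **the sharp bound from one certificate and the closing theorem** -/
theorem two_pi_H (S' : Sys Φ' dΦ' K' L') {Bk : DevK} (HD : IsDevK Φ' dΦ' Bk) {W : ℝ → ℝ} {F : CofH}
    (hW : ContDiffOn ℝ 1 W (Ioi 0)) (hW0 : ContinuousOn W (Ici 0)) (HF : F.Sm) (HB : F.Bo)
    {lφ : List (ℚ × ℚ)} (hφ : qOk 1 lφ = true) {μ T w ms xm N c₀ X : ℚ} (hT : 0 ≤ T)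
    (H : CertH Bk W F μ T) (hN : ∀ f h k : ℝ → ℝ, Ef f → Var h k →
      ‖(CST.vv (cu Φ' f) (du dΦ' f h) + I * CST.vv (cu Φ' f) (du dΦ' f k)) / 2‖ ≤ N)
    (hw : (w : ℝ) ≤ W 0) (hCl : Closes (pkG 0 1 (clQ lφ)) c₀ X) (hxs : xsOk (μ / ms) T w X = true)
    (hph : phOk ms c₀ xm lφ = true) (hN1 : expOk N c₀ = true)
    (M : Type) [MetricSpace M] [CompactSpace M] [ChartedSpace (EuclideanHalfSpace 2) M]
    [Pool.Agent.H74.Surf.RiemannianSpace (𝓡∂ 2) M]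
    (horient : Pool.Agent.H74.Surf.Orientable (𝓡∂ 2) M) (σ : Pool.Agent.H74.Surf.S1 → M)
    (hσ : Pool.Agent.H74.Surf.IsometricFilling (𝓡∂ 2) σ) :
    ENNReal.ofReal (2 * Real.pi) ≤ Pool.Agent.H74.Surf.area M :=
  two_pi_of_raw1 S' hφ hT (rawP_H S' HD hW hW0 HF HB H) hN hw hCl hxs hph hN1 M horient σ hσ

/-- **the sharp bound from two certificates and the closing theorem** -/
theorem two_pi_H2 (S' : Sys Φ' dΦ' K' L') {Bk : DevK} (HD : IsDevK Φ' dΦ' Bk) {W : ℝ → ℝ} {F : CofH}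
    (hW : ContDiffOn ℝ 1 W (Ioi 0)) (hW0 : ContinuousOn W (Ici 0)) (HF : F.Sm) (HB : F.Bo)
    {lφ : List (ℚ × ℚ)} (hφ : qOk 1 lφ = true) {μ μ₂ t T w x₁ xm N c₀ X : ℚ} (hT : 0 ≤ T)
    (H : CertH Bk W F μ T) (H2 : CertH Bk W F μ₂ (T + t)) (hN : ∀ f h k : ℝ → ℝ, Ef f → Var h k →
      ‖(CST.vv (cu Φ' f) (du dΦ' f h) + I * CST.vv (cu Φ' f) (du dΦ' f k)) / 2‖ ≤ N)
    (hw : (w : ℝ) ≤ W 0) (hCl : Closes (pkG 0 1 (clQ lφ)) c₀ X) (hxs : xsOk μ T w X = true)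
    (hps : psOk μ μ₂ t c₀ x₁ xm lφ = true) (hN1 : expOk N c₀ = true)
    (M : Type) [MetricSpace M] [CompactSpace M] [ChartedSpace (EuclideanHalfSpace 2) M]
    [Pool.Agent.H74.Surf.RiemannianSpace (𝓡∂ 2) M]
    (horient : Pool.Agent.H74.Surf.Orientable (𝓡∂ 2) M) (σ : Pool.Agent.H74.Surf.S1 → M)
    (hσ : Pool.Agent.H74.Surf.IsometricFilling (𝓡∂ 2) σ) :
    ENNReal.ofReal (2 * Real.pi) ≤ Pool.Agent.H74.Surf.area M :=
  two_pi_of_raw2 S' hφ hT (rawP_H2 S' HD hW hW0 HF HB H H2) hN hw hCl hxs hps hN1 M horient σ hσ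

end Pool.Agent.FPX.ASX
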