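import Mathlib
import Pool.Agent.FPX.ASH

/-
ASI (helper96): the end of the assembly for the penalty `φ = id` (closing through the modulus, KENP): one
certificate, no condition on the penalty.
-/

open MeasureTheory Set Filter Topology Complex
open scoped ENNReal NNReal ContDiff ComplexConjugate Manifold

noncomputable section

namespace Pool.Agent.FPX.ASX

open Pool.Agent.FPX Pool.Agent.FPX.UMP Pool.Agent.FPX.UMQ Pool.Agent.EWD Pool.Agent.FPX.UXA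
  Pool.Agent.FPM Pool.Agent.FPX.XCO Pool.Agent.FPX.VTB
open Pool.Agent.FPX.CST (Sys cu du)
open Pool.Agent.FPX.OMG (DevK IsDevK CofH CertH)

/-- **the sharp bound from one raw inequality and the closing theorem for `φ = id`**, checks Boolean -/
theorem two_pi_of_rawI {n : ℕ} {Φ : Fin (n + 2) → (ℝ → ℝ) → ℝ}
    {dΦ : Fin (n + 2) → (ℝ → ℝ) → (ℝ → ℝ) → ℝ} {K L : ℝ} (S : Sys Φ dΦ K L)
    {μ T w N c₀ X : ℚ} (hT : 0 ≤ T) {w' : ℝ} (H : RawP Φ (fun x => μ * x) w' T)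
    (hN : ∀ f h k : ℝ → ℝ, Ef f → Var h k →
      ‖(CST.vv (cu Φ f) (du dΦ f h) + I * CST.vv (cu Φ f) (du dΦ f k)) / 2‖ ≤ N)
    (hw : (w : ℝ) ≤ w') (hCl : Closes (fun x => x) c₀ X) (hxs : xsOk μ T w X = true)
    (hN1 : expOk N c₀ = true)
    (M : Type) [MetricSpace M] [CompactSpace M] [ChartedSpace (EuclideanHalfSpace 2) M]
    [Pool.Agent.H74.Surf.RiemannianSpace (𝓡∂ 2) M]
    (horient : Pool.Agent.H74.Surf.Orientable (𝓡∂ 2) M) (σ : Pool.Agent.H74.Surf.S1 → M)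
    (hσ : Pool.Agent.H74.Surf.IsometricFilling (𝓡∂ 2) σ) :
    ENNReal.ofReal (2 * Real.pi) ≤ Pool.Agent.H74.Surf.area M := by
  obtain ⟨q1, -⟩ := of_decide_eq_true hxs
  have r1 : (0 : ℝ) < μ := by exact_mod_cast q1
  obtain ⟨n1, n2, n3⟩ := exp_lt hN1
  exact two_pi_of_rawP S continuous_id r1 (by exact_mod_cast hT) H n1 hN n2 hCl n3
    (fun x h0 => mul_nonneg r1.le h0) (fun x _ _ => le_rfl) (xs_lt hxs hw) M horient σ hσ

variable {n' : ℕ} {Φ' : Fin (n' + 2) → (ℝ → ℝ) → ℝ} {dΦ' : Fin (n' + 2) → (ℝ → ℝ) → (ℝ → ℝ) → ℝ} {K' L' : ℝ}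

/-- **the sharp bound from one certificate and the closing theorem for `φ = id`** -/
theorem two_pi_HI (S' : Sys Φ' dΦ' K' L') {Bk : DevK} (HD : IsDevK Φ' dΦ' Bk) {W : ℝ → ℝ} {F : CofH}
    (hW : ContDiffOn ℝ 1 W (Ioi 0)) (hW0 : ContinuousOn W (Ici 0)) (HF : F.Sm) (HB : F.Bo)
    {μ T w N c₀ X : ℚ} (hT : 0 ≤ T) (H : CertH Bk W F μ T)
    (hN : ∀ f h k : ℝ → ℝ, Ef f → Var h k →
      ‖(CST.vv (cu Φ' f) (du dΦ' f h) + I * CST.vv (cu Φ' f) (du dΦ' f k)) / 2‖ ≤ N)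
    (hw : (w : ℝ) ≤ W 0) (hCl : Closes (fun x => x) c₀ X) (hxs : xsOk μ T w X = true)
    (hN1 : expOk N c₀ = true)
    (M : Type) [MetricSpace M] [CompactSpace M] [ChartedSpace (EuclideanHalfSpace 2) M]
    [Pool.Agent.H74.Surf.RiemannianSpace (𝓡∂ 2) M]
    (horient : Pool.Agent.H74.Surf.Orientable (𝓡∂ 2) M) (σ : Pool.Agent.H74.Surf.S1 → M)
    (hσ : Pool.Agent.H74.Surf.IsometricFilling (𝓡∂ 2) σ) :
    ENNReal.ofReal (2 * Real.pi) ≤ Pool.Agent.H74.Surf.area M :=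
  two_pi_of_rawI S' hT (rawP_H S' HD hW hW0 HF HB H) hN hw hCl hxs hN1 M horient σ hσ

end Pool.Agent.FPX.ASX
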