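import Mathlib
import Pool.Agent.FPX.ASX
import Pool.Agent.FPX.KENP
import Pool.Agent.FPM.I58LV

/-
ASK (helper96): `Closes` from the conditions of KENP (`ClosingK` with cost, `Adm0`/`GoodP`/`GoodX` without cost);
the odd isoperimetric inequality (ISO58) is inside.
-/

open MeasureTheory Set Filter Topology
open scoped ENNReal NNReal

noncomputable section

namespace Pool.Agent.FPX.ASX

open Pool.Agent.FPX Pool.Agent.EWD Pool.Agent.FPM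

/-- the odd isoperimetric inequality of near minimal metrics for every constant up to `10000 π / 5439` -/
theorem iso58 {κ : ℝ} (h0 : 0 ≤ κ) (hκ : κ ≤ 10000 / 5439 * Real.pi) (M : Type) [MetricSpace M]
    [CompactSpace M] (γ : ℝ → M) (C : Calc M γ) (ε : ℝ) (hε : 0 < ε) (hN : NearM C ε)
    (hv : C.vol < 2 * Real.pi) : IsopO C κ ε := by
  have h : IsopO C (10000 / 5439 * Real.pi) ε :=
    isopO58 hN.bd hN.regpl hN.colb hε.le hN.nm (by linarith [Real.pi_pos])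
  intro g hg ho
  filter_upwards [h g hg ho] with t ht h1
  obtain ⟨h2, h3⟩ := ht h1
  refine ⟨h2, ?_⟩
  rcases le_total 0 ((C.μ {o | t < |g (C.pt o)|}).toReal - ε) with h4 | h4
  · exact (mul_le_mul_of_nonneg_right hκ h4).trans h3
  · exact (mul_nonpos_of_nonneg_of_nonpos h0 h4).trans (sq_nonneg _)

/-- **with cost** -/
theorem closes_K {φ φ' G G' : ℝ → ℝ} {sφ Lφ κM LG κ c₀ X σ : ℝ} (P : Pen φ φ' sφ Lφ)
    (hG : Cost G G' c₀ κM LG) (hκ : 0 < κ) (hκ' : κ ≤ 10000 / 5439 * Real.pi) (hc₀ : 0 < c₀) (hσ0 : 0 < σ)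
    (hσ : σ < 1) (hX0 : 0 < X) (hX : X < 2 * Real.pi)
    (hC : ∀ δ : ℝ, 0 < δ → ClosingK φ φ' G G' κ 2 c₀ X σ δ) : Closes φ c₀ X :=
  fun _ hS hXs δ hδ => close_of_goodK one_le_two P hG hκ hc₀ hσ0 hσ hX0 hX hδ (iso58 hκ.le hκ') hS hXs
    (hC δ hδ)

/-- **without cost** -/
theorem closes_P {φ φ' : ℝ → ℝ} {sφ Lφ c₀ X : ℝ} (P : Pen φ φ' sφ Lφ) (hc₀ : 0 ≤ c₀)
    (hX : X < 2 * Real.pi)
    (hC : ∀ δ : ℝ, 0 < δ → ∃ ε₂ : ℝ, 0 < ε₂ ∧ ∀ (M : Type) [MetricSpace M] [CompactSpace M] [Nonempty M]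
      (γ : ℝ → M) (C : Calc M γ) (ε : ℝ), 0 < ε → ε ≤ ε₂ → NearM C ε → C.vol < 2 * Real.pi →
      ∀ (c : ℝ) (v : Fin 3 → M → ℝ), Adm0 C φ 2 c₀ X (c₀ + 72 * X / δ) c v → GoodP C φ' (δ / 2) v) :
    Closes φ c₀ X :=
  fun _ hS hXs δ hδ => close_of_goodP one_le_two P hc₀ hX hδ hS hXs (hC δ hδ)

/-- **without cost, all first variations** -/
theorem closes_X {φ φ' : ℝ → ℝ} {sφ Lφ c₀ X : ℝ} (P : Pen φ φ' sφ Lφ) (hX : X < 2 * Real.pi)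
    (hC : ∀ δ : ℝ, 0 < δ → ∃ η : ℝ, 0 < η ∧ ∃ ε₂ : ℝ, 0 < ε₂ ∧ ∀ (M : Type) [MetricSpace M]
      [CompactSpace M] [Nonempty M] (γ : ℝ → M) (C : Calc M γ) (ε : ℝ), 0 < ε → ε ≤ ε₂ → NearM C ε →
      C.vol < 2 * Real.pi → ∀ (c : ℝ) (v : Fin 3 → M → ℝ), Adm0 C φ 2 c₀ X (c₀ + 18 * X / η) c v →
        GoodX C φ' 2 c η δ v) : Closes φ c₀ X := by
  intro _ hS hXs δ hδ
  obtain ⟨η, hη, h⟩ := hC δ hδ
  exact close_of_goodX one_le_two P hX hδ hη hS hXs h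

end Pool.Agent.FPX.ASX
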