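import Mathlib
import Pool.Agent.FPX.CRD

/-
BTN (helper15): the certificate of OM7 at one state, written as a LINEAR function of a vector of 15 coefficients
(`Ξ` for a state `(ν, D, E)`: probability measure, `D = T δ`, `E = e^{iα}`), so that the set of admissible
coefficient vectors is convex; elimination of `K`; the theorem for a latitude cell.
-/

open MeasureTheory Set Filter Topology Complex
open scoped ENNReal NNReal ComplexConjugate

noncomputable section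

namespace Pool.Agent.FPX.BTN

open Pool.Agent.FPX.CRD (Bm)

variable {X : Type*} [MeasurableSpace X]

/-- the vector of coefficients: `w, k₂, k₀, p, k₃, Y, k₃₃, g, q, z, x, b, b₃, b₄, μ` -/
abbrev CV := Fin 15 → ℝ

section defs

variable (ν : Measure X) (D : X → ℝ) (E : X → ℂ)

/-- `mean (D E³)` -/
def M3 : ℂ := ∫ t, (D t : ℂ) * E t ^ 3 ∂ν

/-- `mean (D E⁵)` -/
def M5 : ℂ := ∫ t, (D t : ℂ) * E t ^ 5 ∂ν

/-- `mean (D²)` -/
def P0 : ℝ := ∫ t, D t ^ 2 ∂ν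

/-- `mean (D² E²)` -/
def P2 : ℂ := ∫ t, (D t : ℂ) ^ 2 * E t ^ 2 ∂ν

/-- `mean (D² E⁴)` -/
def P4 : ℂ := ∫ t, (D t : ℂ) ^ 2 * E t ^ 4 ∂ν

/-- `σ` -/
def sg : ℂ := 3 / 2 * M3 ν D E

/-- `2 Re (A ∫ m K) - 2 Re (B ∫ m conj K)` -/
def pk (m K : X → ℂ) (A B : ℂ) : ℝ :=
  2 * (A * ∫ t, m t * K t ∂ν).re - 2 * (B * ∫ t, m t * conj (K t) ∂ν).re

/-- the part of type `conj K` of `∇C₃` -/
def cp (A B R : ℂ) : ℂ := R + 5 / 2 * conj B * M5 ν D E - 3 / 2 * (A - conj B) * M3 ν D E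

/-- the part of type `K` of `∇C₃` -/
def cm (A B R : ℂ) : ℂ := R + 5 / 2 * conj A * M5 ν D E - 3 / 2 * (B - conj A) * M3 ν D E

/-- the values of the 15 terms; `N`, `M` are the parts of `∇C₃` -/
def ph (K : X → ℂ) (A B N M : ℂ) : Fin 15 → ℝ :=
  ![‖A‖ ^ 2 - ‖B‖ ^ 2,
    (P2 ν D E).re * (‖A‖ ^ 2 - ‖B‖ ^ 2),
    P0 ν D * (‖A‖ ^ 2 - ‖B‖ ^ 2),
    2 * ((P4 ν D E).re - (M3 ν D E).re) * (‖A‖ ^ 2 - ‖B‖ ^ 2) + pk ν (fun t => (D t : ℂ) * E t ^ 2) K A B,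
    (M3 ν D E).re * (‖A‖ ^ 2 - ‖B‖ ^ 2),
    5 * (M5 ν D E).re * (‖A‖ ^ 2 - ‖B‖ ^ 2) + pk ν (fun t => E t ^ 3) K A B,
    ‖M3 ν D E‖ ^ 2 * (‖A‖ ^ 2 - ‖B‖ ^ 2),
    5 / 2 * (conj (M3 ν D E) * M5 ν D E).re * (‖A‖ ^ 2 - ‖B‖ ^ 2)
      + pk ν (fun t => (((conj (M3 ν D E) * E t ^ 3).re : ℝ) : ℂ)) K A B,
    pk ν (fun t => (D t : ℂ) * conj (E t) ^ 2) K A B,
    pk ν (fun t => (D t : ℂ)) K A B,
    pk ν (fun t => conj (E t) ^ 3) K A B,
    2 * (‖N‖ ^ 2 - ‖M‖ ^ 2),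
    -(‖M3 ν D E‖ ^ 2 * (‖A‖ ^ 2 - ‖B‖ ^ 2)),
    ((A + conj B) * (M3 ν D E * conj N - conj (M3 ν D E) * M)).re,
    2 * ‖B‖ ^ 2]

/-- the left side of the certificate -/
def lhs (v : CV) (K : X → ℂ) (A B : ℂ) : ℝ :=
  ∑ i, v i * ph ν D E K A B (cp ν D E A B (∫ t, E t ^ 3 * conj (K t) ∂ν))
    (cm ν D E A B (∫ t, E t ^ 3 * K t ∂ν)) i

/-- **the certificate at one state with the coefficients `v`** -/
def NC (v : CV) (T : ℝ) : Prop :=
  ∀ K : X → ℂ, Measurable K → (∀ t, ‖K t‖ ≤ 1) → ∀ A B : ℂ,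
    A - sg ν D E * conj B = ∫ t, E t * conj (K t) ∂ν → B - sg ν D E * conj A = ∫ t, E t * K t ∂ν →
    lhs ν D E v K A B ≤ T

end defs

variable {ν : Measure X} {D : X → ℝ} {E : X → ℂ}

/-! ### the functional `pk` -/

theorem pk_add [IsFiniteMeasure ν] {m n K : X → ℂ} (hm : Bm m) (hn : Bm n) (hK : Bm K) (A B : ℂ) :
    pk ν (fun t => m t + n t) K A B = pk ν m K A B + pk ν n K A B := by
  unfold pk
  have e1 : ∫ t, (m t + n t) * K t ∂ν = (∫ t, m t * K t ∂ν) + ∫ t, n t * K t ∂ν := by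
    rw [← integral_add (hm.mul hK).int (hn.mul hK).int]
    exact integral_congr_ae (Eventually.of_forall fun t => by ring)
  have e2 : ∫ t, (m t + n t) * conj (K t) ∂ν = (∫ t, m t * conj (K t) ∂ν) + ∫ t, n t * conj (K t) ∂ν := by
    rw [← integral_add (hm.mul hK.conj).int (hn.mul hK.conj).int]
    exact integral_congr_ae (Eventually.of_forall fun t => by ring)
  rw [e1, e2, mul_add, mul_add, Complex.add_re, Complex.add_re]
  ring

theorem pk_smul (c : ℝ) (m K : X → ℂ) (A B : ℂ) :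
    pk ν (fun t => (c : ℂ) * m t) K A B = c * pk ν m K A B := by
  unfold pk
  have e1 : ∫ t, (c : ℂ) * m t * K t ∂ν = (c : ℂ) * ∫ t, m t * K t ∂ν := by
    rw [← integral_const_mul]
    exact integral_congr_ae (Eventually.of_forall fun t => by ring)
  have e2 : ∫ t, (c : ℂ) * m t * conj (K t) ∂ν = (c : ℂ) * ∫ t, m t * conj (K t) ∂ν := by
    rw [← integral_const_mul]
    exact integral_congr_ae (Eventually.of_forall fun t => by ring)
  rw [e1, e2, mul_left_comm, mul_left_comm B, Complex.re_ofReal_mul, Complex.re_ofReal_mul]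
  ring

theorem sum15 (f : Fin 15 → ℝ) : ∑ i, f i = f 0 + f 1 + f 2 + f 3 + f 4 + f 5 + f 6 + f 7 + f 8 + f 9 + f 10
    + f 11 + f 12 + f 13 + f 14 := by
  simp only [Fin.sum_univ_succ, Fin.sum_univ_zero, add_zero]
  have e : ∀ (a b c d e f g h i j k l m n o : ℝ),
      a + (b + (c + (d + (e + (f + (g + (h + (i + (j + (k + (l + (m + (n + o))))))))))))) =
      a + b + c + d + e + f + g + h + i + j + k + l + m + n + o := by
    intros
    ring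
  exact e _ _ _ _ _ _ _ _ _ _ _ _ _ _ _

/-- the left side, written out -/
theorem lhs_eq (v : CV) (K : X → ℂ) (A B : ℂ) : lhs ν D E v K A B =
    (v 0 + v 1 * (P2 ν D E).re + v 2 * P0 ν D + v 3 * (2 * ((P4 ν D E).re - (M3 ν D E).re))
      + v 4 * (M3 ν D E).re + v 5 * (5 * (M5 ν D E).re) + v 6 * ‖M3 ν D E‖ ^ 2
      + v 7 * (5 / 2 * (conj (M3 ν D E) * M5 ν D E).re)) * (‖A‖ ^ 2 - ‖B‖ ^ 2)
    + (v 3 * pk ν (fun t => (D t : ℂ) * E t ^ 2) K A B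
      + (v 8 * pk ν (fun t => (D t : ℂ) * conj (E t) ^ 2) K A B
      + (v 9 * pk ν (fun t => (D t : ℂ)) K A B + (v 10 * pk ν (fun t => conj (E t) ^ 3) K A B
      + (v 5 * pk ν (fun t => E t ^ 3) K A B
      + v 7 * pk ν (fun t => (((conj (M3 ν D E) * E t ^ 3).re : ℝ) : ℂ)) K A B)))))
    + (v 11 * (2 * (‖cp ν D E A B (∫ t, E t ^ 3 * conj (K t) ∂ν)‖ ^ 2
        - ‖cm ν D E A B (∫ t, E t ^ 3 * K t ∂ν)‖ ^ 2))
      + v 12 * -(‖M3 ν D E‖ ^ 2 * (‖A‖ ^ 2 - ‖B‖ ^ 2))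
      + v 13 * ((A + conj B) * (M3 ν D E * conj (cp ν D E A B (∫ t, E t ^ 3 * conj (K t) ∂ν))
        - conj (M3 ν D E) * cm ν D E A B (∫ t, E t ^ 3 * K t ∂ν))).re)
    + v 14 * (2 * ‖B‖ ^ 2) := by
  unfold lhs
  rw [sum15]
  simp only [ph, Matrix.cons_val_zero, Matrix.cons_val_one, Matrix.cons_val]
  ring

/-! ### convexity in the coefficients -/

theorem lhs_add (v w : CV) (K : X → ℂ) (A B : ℂ) :
    lhs ν D E (v + w) K A B = lhs ν D E v K A B + lhs ν D E w K A B := by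
  unfold lhs
  rw [← Finset.sum_add_distrib]
  refine Finset.sum_congr rfl fun i _ => ?_
  rw [Pi.add_apply]
  ring

theorem lhs_smul (c : ℝ) (v : CV) (K : X → ℂ) (A B : ℂ) :
    lhs ν D E (c • v) K A B = c * lhs ν D E v K A B := by
  unfold lhs
  rw [Finset.mul_sum]
  refine Finset.sum_congr rfl fun i _ => ?_
  rw [Pi.smul_apply, smul_eq_mul]
  ring

theorem lhs_sum {ι : Type*} (s : Finset ι) (c : ι → ℝ) (v : ι → CV) (K : X → ℂ) (A B : ℂ) :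
    lhs ν D E (∑ j ∈ s, c j • v j) K A B = ∑ j ∈ s, c j * lhs ν D E (v j) K A B := by
  classical
  induction s using Finset.induction_on with
  | empty => simp [lhs]
  | insert a s ha ih => rw [Finset.sum_insert ha, lhs_add, lhs_smul, ih, Finset.sum_insert ha]

/-- **convexity**: a convex combination of admissible coefficient vectors is admissible -/
theorem NC.comb {ι : Type*} {s : Finset ι} {c : ι → ℝ} {v : ι → CV} {T : ℝ} (hc : ∀ j ∈ s, 0 ≤ c j)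
    (h1 : ∑ j ∈ s, c j = 1) (H : ∀ j ∈ s, NC ν D E (v j) T) : NC ν D E (∑ j ∈ s, c j • v j) T := by
  intro K hK hK1 A B hA hB
  rw [lhs_sum]
  calc ∑ j ∈ s, c j * lhs ν D E (v j) K A B ≤ ∑ j ∈ s, c j * T :=
        Finset.sum_le_sum fun j hj => mul_le_mul_of_nonneg_left (H j hj K hK hK1 A B hA hB) (hc j hj)
    _ = T := by rw [← Finset.sum_mul, h1, one_mul]

/-- different constants `T` -/
theorem NC.combT {ι : Type*} {s : Finset ι} {c : ι → ℝ} {v : ι → CV} {T : ι → ℝ} (hc : ∀ j ∈ s, 0 ≤ c j)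
    (H : ∀ j ∈ s, NC ν D E (v j) (T j)) : NC ν D E (∑ j ∈ s, c j • v j) (∑ j ∈ s, c j * T j) := by
  intro K hK hK1 A B hA hB
  rw [lhs_sum]
  exact Finset.sum_le_sum fun j hj => mul_le_mul_of_nonneg_left (H j hj K hK hK1 A B hA hB) (hc j hj)

/-- the Bernstein weights -/
def bw (n : ℕ) (u : ℝ) (i : ℕ) : ℝ := (n.choose i : ℝ) * u ^ i * (1 - u) ^ (n - i)

theorem bw_nonneg {n : ℕ} {u : ℝ} (h0 : 0 ≤ u) (h1 : u ≤ 1) (i : ℕ) : 0 ≤ bw n u i := by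
  have := sub_nonneg.2 h1
  unfold bw
  positivity

theorem bw_sum (n : ℕ) (u : ℝ) : ∑ i ∈ Finset.range (n + 1), bw n u i = 1 := by
  have h := add_pow u (1 - u) n
  have e : u + (1 - u) = 1 := by ring
  rw [e, one_pow] at h
  rw [h]
  refine Finset.sum_congr rfl fun i _ => ?_
  unfold bw
  ring

/-- **a polynomial curve of coefficient vectors given by its control points** -/
theorem NC.bern {n : ℕ} {u : ℝ} (h0 : 0 ≤ u) (h1 : u ≤ 1) {v : ℕ → CV} {T : ℝ}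
    (H : ∀ j ≤ n, NC ν D E (v j) T) : NC ν D E (∑ j ∈ Finset.range (n + 1), bw n u j • v j) T :=
  NC.comb (fun j _ => bw_nonneg h0 h1 j) (bw_sum n u) fun j hj =>
    H j (Nat.lt_succ_iff.1 (Finset.mem_range.1 hj))

end Pool.Agent.FPX.BTN
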