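import Mathlib
import Pool.Agent.FPX.OM8

/-
OM8R (helper86): the rotation of the certificate `Cert7`: it is enough to check the states with
`X1 f ≥ 0` and `X2 f = 0`.
-/

open MeasureTheory Set Filter Topology Complex
open scoped ENNReal NNReal ContDiff ComplexConjugate

noncomputable section

namespace Pool.Agent.FPX.OM7

open Pool.Agent.FPX Pool.Agent.FPX.UMP Pool.Agent.FPX.UMQ Pool.Agent.FPX.UXA Pool.Agent.EWD
open Pool.Agent.FPX.F54 (X1 X2 dX1 dX2 X_lt X_G1 X_G2 vF sF)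
open Pool.Agent.FPX.S54 (dS2 dS0 mS Fv ME YY de Sn)
open Pool.Agent.FPX.OMB (vm vm_int vm_prob bm_ep bm_real)
open Pool.Agent.FPX.CRD (Bm)
open Pool.Agent.FPX.OMS (rF cF cF_eq Aa Ba Kc ME_vm Kc_meas Kc_le AB_eq)
open Pool.Agent.FPX.SYS (CE dCE K2 K0)
open Pool.Agent.FPX.CERQ (pr_rot' ep_rot vm_rot ep_per)

/-- the data of a rotation of the state `f` to the state `f'` with `ζ = r ≥ 0` -/
structure Rot (f f' : ℝ → ℝ) (φ r : ℝ) (u : ℂ) : Prop where
  hf : Ef f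
  hf' : Ef f'
  sh : ∀ t, f (t + φ) = f' t
  r0 : 0 ≤ r
  r1 : r < 1
  x1 : X1 f' = r
  x2 : X2 f' = 0
  hx : X1 f = r * Real.cos φ
  hy : X2 f = r * Real.sin φ
  hu : u = Complex.exp (φ * I)

variable {f f' : ℝ → ℝ} {φ r : ℝ} {u : ℂ}

theorem exists_Rot (hf : Ef f) : ∃ (f' : ℝ → ℝ) (φ r : ℝ) (u : ℂ), Rot f f' φ r u := by
  obtain ⟨φ, r, hr0, hr1, _, hf', h1', h2', hx, hy⟩ := F54.exists_rot hf
  exact ⟨fun t => f (t + φ), φ, r, Complex.exp (φ * I),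
    ⟨hf, hf', fun _ => rfl, hr0, hr1, h1', h2', hx, hy, rfl⟩⟩

namespace Rot

theorem uu (R : Rot f f' φ r u) : u * conj u = 1 := by
  rw [R.hu, ← Complex.exp_conj, ← Complex.exp_add]
  simp

theorem un (R : Rot f f' φ r u) : ‖u‖ = 1 := by
  rw [R.hu]
  exact Complex.norm_exp_ofReal_mul_I φ

theorem ze (R : Rot f f' φ r u) : YY (X1 f) (X2 f) = u * YY (X1 f') (X2 f') := by
  rw [R.hu, R.x1, R.x2, R.hx, R.hy]
  apply Complex.ext
  · simp only [YY, Complex.mul_re, Complex.exp_ofReal_mul_I_re, Complex.exp_ofReal_mul_I_im]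
    ring
  · simp only [YY, Complex.mul_im, Complex.exp_ofReal_mul_I_re, Complex.exp_ofReal_mul_I_im]
    ring

theorem rr (R : Rot f f' φ r u) : rF f = rF f' := by
  unfold rF
  rw [R.x1, R.x2, R.hx, R.hy]
  linear_combination (r ^ 2) * Real.sin_sq_add_cos_sq φ

theorem cc (R : Rot f f' φ r u) : cF f = cF f' := by
  unfold cF
  rw [R.rr]

theorem dd (R : Rot f f' φ r u) (t : ℝ) : de (X1 f) (X2 f) f (t + φ) = de (X1 f') (X2 f') f' t := by
  unfold de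
  rw [R.sh, pr_rot' R.hx R.hy, R.x1, R.x2]

theorem ee (R : Rot f f' φ r u) (t : ℝ) :
    C54.ep (X1 f) (X2 f) (t + φ) = u * C54.ep (X1 f') (X2 f') t := by
  rw [ep_rot R.r0 R.r1 R.hx R.hy, R.x1, R.x2, R.hu]

theorem dper (R : Rot f f' φ r u) (t : ℝ) :
    de (X1 f) (X2 f) f (t + 2 * Real.pi) = de (X1 f) (X2 f) f t := by
  unfold de F54.pr
  rw [R.hf.per, Real.cos_add_two_pi, Real.sin_add_two_pi]

theorem me (R : Rot f f' φ r u) {g g' : ℝ → ℝ} (hg : ∀ t, g (t + 2 * Real.pi) = g t)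
    (hg' : ∀ t, g (t + φ) = g' t) (n : ℕ) :
    ME n (X1 f) (X2 f) g = u ^ n * ME n (X1 f') (X2 f') g' := by
  rw [ME_rot R.r0 R.r1 R.hx R.hy hg hg' n, R.x1, R.x2, R.hu]

theorem ce (R : Rot f f' φ r u) (n : ℕ) : CE n f = u ^ n * CE n f' := by
  unfold CE
  rw [S54.Cm_eq (X_lt R.hf), S54.Cm_eq (X_lt R.hf'), R.me R.dper R.dd n]
  ring

theorem sn (R : Rot f f' φ r u) (n : ℕ) : Sn n (X1 f) (X2 f) f = u ^ n * Sn n (X1 f') (X2 f') f' := by
  unfold Sn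
  exact R.me (fun t => by rw [R.dper]) (fun t => by rw [R.dd]) n

theorem s2 (R : Rot f f' φ r u) : S54.S2 f = u ^ 2 * S54.S2 f' := R.sn 2

theorem s0 (R : Rot f f' φ r u) : S54.S0 f = S54.S0 f' := by
  unfold S54.S0
  have := R.sn 0
  rw [pow_zero, one_mul] at this
  exact congrArg Complex.re this

theorem cc' (R : Rot f f' φ r u) : S54.cc (X1 f) (X2 f) = S54.cc (X1 f') (X2 f') := by
  unfold S54.cc
  have := R.rr
  unfold rF at this
  congr 1
  linarith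

theorem cu (R : Rot f f' φ r u) : conj u * u = 1 := by
  rw [mul_comm]
  exact R.uu

theorem ms (R : Rot f f' φ r u) : mS f = u ^ 3 * mS f' := by
  unfold mS
  have h3 : ME 3 (X1 f) (X2 f) (de (X1 f) (X2 f) f) = u ^ 3 * ME 3 (X1 f') (X2 f') (de (X1 f') (X2 f') f') :=
    R.me R.dper R.dd 3
  have h4 : Sn 4 (X1 f) (X2 f) f = u ^ 4 * Sn 4 (X1 f') (X2 f') f' := R.sn 4
  rw [h3, h4, R.ze, R.cc', map_mul]
  linear_combination (conj (YY (X1 f') (X2 f')) * u ^ 3 * Sn 4 (X1 f') (X2 f') f'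
    / (S54.cc (X1 f') (X2 f') : ℂ)) * R.cu

theorem d5 (R : Rot f f' φ r u) : D5 f = u ^ 4 * D5 f' := by
  unfold D5
  rw [R.ze, R.ce 5, R.cc, map_mul]
  linear_combination (5 * conj (YY (X1 f') (X2 f')) * u ^ 4 * CE 5 f' / (4 * (cF f' : ℂ))) * R.cu

theorem sf (R : Rot f f' φ r u) : sF f = u ^ 2 * sF f' := by
  have e1 : ∀ g : ℝ → ℝ, sF g = (3 / 4 : ℂ) * (conj (YY (X1 g) (X2 g)) / (C54.ce (X1 g) (X2 g) : ℂ)) * CE 3 g :=
    fun g => rfl
  have e4 : ∀ g : ℝ → ℝ, C54.ce (X1 g) (X2 g) = cF g := fun g => OMS.cF_eq g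
  rw [e1, e1, e4, e4, R.cc, R.ze, R.ce 3, map_mul]
  linear_combination ((3 / 4 : ℂ) * (conj (YY (X1 f') (X2 f')) / (cF f' : ℂ)) * u ^ 2 * CE 3 f') * R.cu

theorem mkr (R : Rot f f' φ r u) (F : Cof) (t : ℝ) : mk7 F f (t + φ) = conj u * mk7 F f' t := by
  have hc := R.cu
  have e1 : conj u ^ 2 * u = conj u := by linear_combination conj u * hc
  have e2 : conj u ^ 3 * u ^ 2 = conj u := by
    linear_combination (conj u ^ 2 * u + conj u) * hc
  have e3 : u ^ 2 * conj u ^ 3 = conj u := by rw [mul_comm]; exact e2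
  have e4 : conj u ^ 4 * u ^ 3 = conj u := by
    linear_combination (conj u ^ 3 * u ^ 2 + conj u ^ 2 * u + conj u) * hc
  have e5 : conj (u ^ 3 * CE 3 f') * (u * C54.ep (X1 f') (X2 f') t) ^ 3
      = conj (CE 3 f') * C54.ep (X1 f') (X2 f') t ^ 3 := by
    rw [map_mul, map_pow]
    linear_combination ((conj u ^ 2 * u ^ 2 + conj u * u + 1) * conj (CE 3 f') * C54.ep (X1 f') (X2 f') t ^ 3) * hc
  unfold mk7
  rw [R.dd, R.ee, R.ze, R.rr, R.ce 3, e5]
  simp only [map_mul]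
  linear_combination ((de (X1 f') (X2 f') f' t : ℂ) * (F.Q (rF f') : ℂ) * YY (X1 f') (X2 f')
      * conj (C54.ep (X1 f') (X2 f') t) ^ 2) * e1
    + ((de (X1 f') (X2 f') f' t : ℂ) * (F.P (rF f') : ℂ) * conj (YY (X1 f') (X2 f')) ^ 3
      * C54.ep (X1 f') (X2 f') t ^ 2) * e2
    + ((F.x (rF f') : ℂ) * YY (X1 f') (X2 f') ^ 2 * conj (C54.ep (X1 f') (X2 f') t) ^ 3) * e3
    + ((F.y (rF f') : ℂ) * conj (YY (X1 f') (X2 f')) ^ 4 * C54.ep (X1 f') (X2 f') t ^ 3) * e4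

theorem cp (R : Rot f f' φ r u) (A B V : ℂ) : Cp f (u * A) (u * B) (u ^ 3 * V) = u ^ 3 * Cp f' A B V := by
  unfold Cp
  rw [R.d5, R.ze, R.ce 3, R.cc]
  simp only [map_mul]
  linear_combination (conj B * u ^ 3 * D5 f' - 3 / (4 * (cF f' : ℂ)) * u ^ 3 * CE 3 f'
    * (conj (YY (X1 f') (X2 f')) * A - YY (X1 f') (X2 f') * conj B)) * R.cu

theorem cm (R : Rot f f' φ r u) (A B V : ℂ) : Cm f (u * A) (u * B) (u ^ 3 * V) = u ^ 3 * Cm f' A B V := by
  unfold Cm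
  rw [R.d5, R.ze, R.ce 3, R.cc]
  simp only [map_mul]
  linear_combination (conj A * u ^ 3 * D5 f' - 3 / (4 * (cF f' : ℂ)) * u ^ 3 * CE 3 f'
    * (conj (YY (X1 f') (X2 f')) * B - YY (X1 f') (X2 f') * conj A)) * R.cu

theorem nn (R : Rot f f' φ r u) (z : ℂ) (n : ℕ) : ‖u ^ n * z‖ = ‖z‖ := by
  rw [norm_mul, norm_pow, R.un, one_pow, one_mul]

theorem nn1 (R : Rot f f' φ r u) (z : ℂ) : ‖u * z‖ = ‖z‖ := by
  rw [norm_mul, R.un, one_mul]

theorem ns (R : Rot f f' φ r u) (z : ℂ) (n : ℕ) : normSq (u ^ n * z) = normSq z := by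
  rw [Complex.normSq_eq_norm_sq, Complex.normSq_eq_norm_sq, R.nn]

theorem bb (R : Rot f f' φ r u) (F : Cof) (A B N M : ℂ) :
    bv F f (u * A) (u * B) (u ^ 3 * N) (u ^ 3 * M) = bv F f' A B N M := by
  unfold bv
  rw [R.nn1, R.nn1, R.nn, R.nn, R.ce 3, R.ns, R.rr, R.cc, R.ze]
  have hc := R.cu
  have e1 : (conj (u * YY (X1 f') (X2 f')) * (u * A) + u * YY (X1 f') (X2 f') * conj (u * B)) =
      conj (YY (X1 f') (X2 f')) * A + YY (X1 f') (X2 f') * conj B := by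
    simp only [map_mul]
    linear_combination (conj (YY (X1 f') (X2 f')) * A + YY (X1 f') (X2 f') * conj B) * hc
  have e2 : (u ^ 3 * CE 3 f' * conj (u ^ 3 * N) - conj (u ^ 3 * CE 3 f') * (u ^ 3 * M)) =
      CE 3 f' * conj N - conj (CE 3 f') * M := by
    simp only [map_mul, map_pow]
    linear_combination ((conj u ^ 2 * u ^ 2 + conj u * u + 1) * (CE 3 f' * conj N - conj (CE 3 f') * M)) * hc
  rw [e1, e2]

theorem w1 (R : Rot f f' φ r u) (F : Cof) : W1 F f = W1 F f' := by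
  have hc := R.cu
  have q2 : conj (u * YY (X1 f') (X2 f')) ^ 2 * (u ^ 2 * S54.S2 f') = conj (YY (X1 f') (X2 f')) ^ 2 * S54.S2 f' := by
    simp only [map_mul]
    linear_combination ((conj u * u + 1) * conj (YY (X1 f') (X2 f')) ^ 2 * S54.S2 f') * hc
  have q3 : ∀ z : ℂ, conj (u * YY (X1 f') (X2 f')) ^ 3 * (u ^ 3 * z) = conj (YY (X1 f') (X2 f')) ^ 3 * z := by
    intro z
    simp only [map_mul]
    linear_combination ((conj u ^ 2 * u ^ 2 + conj u * u + 1) * conj (YY (X1 f') (X2 f')) ^ 3 * z) * hc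
  have q4 : conj (u * YY (X1 f') (X2 f')) ^ 4 * (u ^ 4 * D5 f') = conj (YY (X1 f') (X2 f')) ^ 4 * D5 f' := by
    simp only [map_mul]
    linear_combination ((conj u ^ 3 * u ^ 3 + conj u ^ 2 * u ^ 2 + conj u * u + 1)
      * conj (YY (X1 f') (X2 f')) ^ 4 * D5 f') * hc
  have q5 : conj (u * YY (X1 f') (X2 f')) * (conj (u ^ 3 * CE 3 f') * (u ^ 4 * D5 f')) =
      conj (YY (X1 f') (X2 f')) * (conj (CE 3 f') * D5 f') := by
    simp only [map_mul, map_pow]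
    linear_combination ((conj u ^ 3 * u ^ 3 + conj u ^ 2 * u ^ 2 + conj u * u + 1)
      * (conj (YY (X1 f') (X2 f')) * (conj (CE 3 f') * D5 f'))) * hc
  unfold W1
  rw [R.rr, R.cc, R.ze, R.s2, R.s0, R.ms, R.ce 3, R.d5, R.ns, q2, q3, q3, q4, q5]

theorem w7 (R : Rot f f' φ r u) (W : ℝ → ℝ) (F : Cof) : W7 W F f = W7 W F f' := by
  unfold W7
  rw [R.w1, R.cc, R.rr]

/-- the rotation of the integrals -/
theorem it (R : Rot f f' φ r u) {K : ℝ → ℂ} {G G' : ℝ → ℂ} {c : ℂ}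
    (hG : ∀ t, G (t + 2 * Real.pi) = G t) (hG' : ∀ t, G (t + φ) = c * G' t) :
    ∫ t, G t * K t ∂(vm (X1 f) (X2 f)) = c * ∫ t, G' t * pe K (t + φ) ∂(vm (X1 f') (X2 f')) := by
  rw [vm_pe K fun t z => G t * z, vm_rot R.r0 R.r1 R.hx R.hy (F := fun t => G t * pe K t) fun t => by
    rw [hG, pe_per], R.x1, R.x2, ← integral_const_mul]
  congr 1
  funext t
  rw [hG']
  ring

theorem itc (R : Rot f f' φ r u) {K : ℝ → ℂ} {G G' : ℝ → ℂ} {c : ℂ}
    (hG : ∀ t, G (t + 2 * Real.pi) = G t) (hG' : ∀ t, G (t + φ) = c * G' t) :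
    ∫ t, G t * conj (K t) ∂(vm (X1 f) (X2 f)) =
      c * ∫ t, G' t * conj (pe K (t + φ)) ∂(vm (X1 f') (X2 f')) := by
  rw [vm_pe K fun t z => G t * conj z, vm_rot R.r0 R.r1 R.hx R.hy (F := fun t => G t * conj (pe K t)) fun t => by
    rw [hG, pe_per], R.x1, R.x2, ← integral_const_mul]
  congr 1
  funext t
  rw [hG']
  ring

theorem mper (R : Rot f f' φ r u) (F : Cof) (t : ℝ) : mk7 F f (t + 2 * Real.pi) = mk7 F f t := by
  unfold mk7
  rw [R.dper, ep_per]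

/-- the rotated certificate -/
theorem cert (R : Rot f f' φ r u) {W : ℝ → ℝ} {F : Cof} {μ T : ℝ} (H : CertAt W F μ T f') :
    CertAt W F μ T f := by
  intro K hK hK1 A B hA hB
  have hcu := R.cu
  have huc := R.uu
  have hK' : Measurable fun t => pe K (t + φ) := (pe_meas hK).comp (measurable_id.add_const φ)
  have hK1' : ∀ t, ‖pe K (t + φ)‖ ≤ 1 := fun t => hK1 _
  have eA : u * (conj u * A) = A := by rw [← mul_assoc, huc, one_mul]
  have eB : u * (conj u * B) = B := by rw [← mul_assoc, huc, one_mul]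
  set A' := conj u * A with hA'
  set B' := conj u * B with hB'
  have g3 : ∀ t, C54.ep (X1 f) (X2 f) (t + 2 * Real.pi) ^ 3 = C54.ep (X1 f) (X2 f) t ^ 3 := fun t => by
    rw [ep_per]
  have g3' : ∀ t, C54.ep (X1 f) (X2 f) (t + φ) ^ 3 = u ^ 3 * C54.ep (X1 f') (X2 f') t ^ 3 := fun t => by
    rw [R.ee, mul_pow]
  rw [R.itc (G := fun t => C54.ep (X1 f) (X2 f) t) (ep_per _ _) R.ee] at hA
  rw [R.it (G := fun t => C54.ep (X1 f) (X2 f) t) (ep_per _ _) R.ee] at hB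
  have a1 : A' - sF f' * conj B' = ∫ t, C54.ep (X1 f') (X2 f') t * conj (pe K (t + φ)) ∂(vm (X1 f') (X2 f')) := by
    have h1 : u * (A' - sF f' * conj B') = u *
        ∫ t, C54.ep (X1 f') (X2 f') t * conj (pe K (t + φ)) ∂(vm (X1 f') (X2 f')) := by
      rw [← hA, R.sf, ← eA, ← eB]
      simp only [map_mul]
      linear_combination (u * sF f' * conj B') * huc
    have hu0 : u ≠ 0 := fun h => by rw [h, zero_mul] at huc; exact zero_ne_one huc
    exact mul_left_cancel₀ hu0 h1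
  have a2 : B' - sF f' * conj A' = ∫ t, C54.ep (X1 f') (X2 f') t * pe K (t + φ) ∂(vm (X1 f') (X2 f')) := by
    have h1 : u * (B' - sF f' * conj A') = u *
        ∫ t, C54.ep (X1 f') (X2 f') t * pe K (t + φ) ∂(vm (X1 f') (X2 f')) := by
      rw [← hB, R.sf, ← eA, ← eB]
      simp only [map_mul]
      linear_combination (u * sF f' * conj A') * huc
    have hu0 : u ≠ 0 := fun h => by rw [h, zero_mul] at huc; exact zero_ne_one huc
    exact mul_left_cancel₀ hu0 h1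
  have key := H (fun t => pe K (t + φ)) hK' hK1' A' B' a1 a2
  rw [R.it (G := mk7 F f) (R.mper F) (R.mkr F), R.itc (G := mk7 F f) (R.mper F) (R.mkr F),
    R.itc (G := fun t => C54.ep (X1 f) (X2 f) t ^ 3) g3 g3', R.it (G := fun t => C54.ep (X1 f) (X2 f) t ^ 3) g3 g3',
    ← eA, ← eB, R.cp, R.cm, R.bb, R.nn1, R.nn1, R.w7]
  have r1 : ∀ a z : ℂ, u * a * (conj u * z) = a * z := fun a z => by
    linear_combination (a * z) * hcu
  rw [r1, r1]
  exact key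

end Rot

/-- **the certificate holds if it holds for the states with `ζ ≥ 0`** -/
theorem cert_of_real {W : ℝ → ℝ} {F : Cof} {μ T : ℝ}
    (H : ∀ f, Ef f → 0 ≤ X1 f → X2 f = 0 → CertAt W F μ T f) : Cert7 W F μ T := by
  rw [cert_iff]
  intro f hf
  obtain ⟨f', φ, r, u, R⟩ := exists_Rot hf
  exact R.cert (H f' R.hf' (by rw [R.x1]; exact R.r0) R.x2)

end Pool.Agent.FPX.OM7
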