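import Mathlib
import Pool.Agent.FPX.OM8R
import Pool.Agent.FPX.BTN

/-
BTA (helper15): for a state with `ζ = s > 0` the certificate `CertAt` of OM7/OM8 is the linear certificate
`BTN.NC` with the vector `vec W F μ s c`.
-/

open MeasureTheory Set Filter Topology Complex
open scoped ENNReal NNReal ContDiff ComplexConjugate

noncomputable section

namespace Pool.Agent.FPX.BTN

open Pool.Agent.FPX Pool.Agent.FPX.UMP Pool.Agent.FPX.UMQ Pool.Agent.FPX.UXA Pool.Agent.EWD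
open Pool.Agent.FPX.F54 (X1 X2 dX1 dX2 X_lt X_G1 X_G2 vF sF)
open Pool.Agent.FPX.S54 (dS2 dS0 mS Fv ME YY de Sn)
open Pool.Agent.FPX.OMB (vm vm_int vm_prob bm_ep bm_real)
open Pool.Agent.FPX.CRD (Bm)
open Pool.Agent.FPX.OMS (rF cF cF_eq ME_vm)
open Pool.Agent.FPX.SYS (CE dCE K2 K0)
open Pool.Agent.FPX.OM7 (Cof CertAt W7 W1 mk7 bv Cp Cm D5 bm_de bm_mk bm_pow)
open Pool.Agent.FPX.CERQ (xT)

/-- the coefficient vector of `(W, F, μ)` at `s = |ζ|`, `c = √(1 - s²)` -/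
def vec (W : ℝ → ℝ) (F : Cof) (μ s c : ℝ) : CV :=
  ![2 * c * W c - s ^ 2 * deriv W c,
    c ^ 2 * (2 * c * deriv F.Q (s ^ 2) - F.Q (s ^ 2) / c + F.Z (s ^ 2) / c
      + 2 * c * (s ^ 2 * deriv F.P (s ^ 2) + 3 * F.P (s ^ 2)) + s ^ 2 * F.P (s ^ 2) / c),
    c ^ 2 / s ^ 2 * (2 * c * (s ^ 2 * deriv F.Z (s ^ 2) + F.Z (s ^ 2))),
    c * s ^ 2 * F.P (s ^ 2),
    2 * c * s ^ 2 * (2 * c * deriv F.x (s ^ 2) - 3 * F.x (s ^ 2) / (2 * c)
      + 2 * c * (s ^ 2 * deriv F.y (s ^ 2) + 4 * F.y (s ^ 2)) + 3 * s ^ 2 * F.y (s ^ 2) / (2 * c)),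
    s ^ 4 * F.y (s ^ 2),
    4 * c ^ 2 / s ^ 2 * (2 * c * (s ^ 2 * deriv F.g (s ^ 2) + F.g (s ^ 2))),
    4 * c * F.g (s ^ 2),
    c * F.Q (s ^ 2),
    c * F.Z (s ^ 2),
    s ^ 2 * F.x (s ^ 2),
    F.b (s ^ 2),
    12 * c ^ 2 / s ^ 2 * F.b (s ^ 2),
    4 * c ^ 2 * deriv F.b (s ^ 2),
    μ]

section

variable {f : ℝ → ℝ}

theorem cF_pos' (hf : Ef f) : 0 < cF f := Real.sqrt_pos.2 (sub_pos.2 (X_lt hf))

theorem rF_eq (h2 : X2 f = 0) : rF f = X1 f ^ 2 := by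
  unfold rF
  rw [h2]
  ring

theorem de_eq (hf : Ef f) (hs : 0 < X1 f) (h2 : X2 f = 0) (t : ℝ) :
    de (X1 f) (X2 f) f t = cF f / X1 f * xT f t := by
  have hc := cF_pos' hf
  unfold xT
  rw [rF_eq h2, Real.sqrt_sq hs.le]
  field_simp

theorem YY_eq (h2 : X2 f = 0) : YY (X1 f) (X2 f) = (X1 f : ℂ) := by
  unfold YY
  rw [h2]
  rfl

/-- the measure, `D` and `E` of a state -/
abbrev nf (f : ℝ → ℝ) : Measure ℝ := vm (X1 f) (X2 f)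

abbrev ef (f : ℝ → ℝ) : ℝ → ℂ := C54.ep (X1 f) (X2 f)

theorem ME_eq (hf : Ef f) (hs : 0 < X1 f) (h2 : X2 f = 0) (n : ℕ) :
    ME n (X1 f) (X2 f) (de (X1 f) (X2 f) f) =
      ((cF f / X1 f : ℝ) : ℂ) * ∫ t, (xT f t : ℂ) * ef f t ^ n ∂(nf f) := by
  rw [ME_vm (X_lt hf), ← integral_const_mul]
  congr 1
  funext t
  rw [de_eq hf hs h2]
  push_cast
  ring

theorem Sn_eq (hf : Ef f) (hs : 0 < X1 f) (h2 : X2 f = 0) (n : ℕ) :
    Sn n (X1 f) (X2 f) f = ((cF f / X1 f : ℝ) : ℂ) ^ 2 * ∫ t, (xT f t : ℂ) ^ 2 * ef f t ^ n ∂(nf f) := by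
  unfold Sn
  rw [ME_vm (X_lt hf), ← integral_const_mul]
  congr 1
  funext t
  rw [de_eq hf hs h2]
  push_cast
  ring

theorem CE3 (hf : Ef f) (hs : 0 < X1 f) (h2 : X2 f = 0) :
    CE 3 f = 2 * ((cF f / X1 f : ℝ) : ℂ) * M3 (nf f) (xT f) (ef f) := by
  unfold CE M3
  rw [S54.Cm_eq (X_lt hf), ME_eq hf hs h2]
  ring

theorem CE5 (hf : Ef f) (hs : 0 < X1 f) (h2 : X2 f = 0) :
    CE 5 f = 2 * ((cF f / X1 f : ℝ) : ℂ) * M5 (nf f) (xT f) (ef f) := by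
  unfold CE M5
  rw [S54.Cm_eq (X_lt hf), ME_eq hf hs h2]
  ring

theorem sF_eq (hf : Ef f) (hs : 0 < X1 f) (h2 : X2 f = 0) : sF f = sg (nf f) (xT f) (ef f) := by
  have e1 : sF f = (3 / 4 : ℂ) * (conj (YY (X1 f) (X2 f)) / (C54.ce (X1 f) (X2 f) : ℂ)) * CE 3 f := rfl
  have e4 : C54.ce (X1 f) (X2 f) = cF f := cF_eq f
  have hc : (cF f : ℂ) ≠ 0 := Complex.ofReal_ne_zero.2 (cF_pos' hf).ne'
  have hs' : (X1 f : ℂ) ≠ 0 := Complex.ofReal_ne_zero.2 hs.ne'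
  rw [e1, e4, CE3 hf hs h2, YY_eq h2, Complex.conj_ofReal]
  unfold sg
  push_cast
  field_simp
  ring

theorem D5_eq (hf : Ef f) (hs : 0 < X1 f) (h2 : X2 f = 0) : D5 f = 5 / 2 * M5 (nf f) (xT f) (ef f) := by
  have hc : (cF f : ℂ) ≠ 0 := Complex.ofReal_ne_zero.2 (cF_pos' hf).ne'
  have hs' : (X1 f : ℂ) ≠ 0 := Complex.ofReal_ne_zero.2 hs.ne'
  unfold D5
  rw [CE5 hf hs h2, YY_eq h2, Complex.conj_ofReal]
  push_cast
  field_simp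
  ring

theorem S2_eq (hf : Ef f) (hs : 0 < X1 f) (h2 : X2 f = 0) :
    S54.S2 f = ((cF f / X1 f : ℝ) : ℂ) ^ 2 * P2 (nf f) (xT f) (ef f) := by
  unfold S54.S2 P2
  exact Sn_eq hf hs h2 2

theorem S4_eq (hf : Ef f) (hs : 0 < X1 f) (h2 : X2 f = 0) :
    Sn 4 (X1 f) (X2 f) f = ((cF f / X1 f : ℝ) : ℂ) ^ 2 * P4 (nf f) (xT f) (ef f) := by
  unfold P4
  exact Sn_eq hf hs h2 4

theorem S0_eq (hf : Ef f) (hs : 0 < X1 f) (h2 : X2 f = 0) :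
    S54.S0 f = (cF f / X1 f) ^ 2 * P0 (nf f) (xT f) := by
  have h := Sn_eq hf hs h2 0
  have e : ∫ t, (xT f t : ℂ) ^ 2 * ef f t ^ 0 ∂(nf f) = ((∫ t, xT f t ^ 2 ∂(nf f) : ℝ) : ℂ) := by
    refine Eq.trans ?_ integral_complex_ofReal
    congr 1
    funext t
    push_cast
    ring
  unfold S54.S0 P0
  have h' : Sn 0 (X1 f) (X2 f) f = ((cF f / X1 f : ℝ) : ℂ) ^ 2 * ((∫ t, xT f t ^ 2 ∂(nf f) : ℝ) : ℂ) := by
    rw [← e]
    exact h
  rw [h']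
  norm_cast

theorem mS_eq (hf : Ef f) (hs : 0 < X1 f) (h2 : X2 f = 0) :
    mS f = ((cF f / X1 f : ℝ) : ℂ) * (P4 (nf f) (xT f) (ef f) - M3 (nf f) (xT f) (ef f)) := by
  have hc : (cF f : ℂ) ≠ 0 := Complex.ofReal_ne_zero.2 (cF_pos' hf).ne'
  have hs' : (X1 f : ℂ) ≠ 0 := Complex.ofReal_ne_zero.2 hs.ne'
  have h3 : ME 3 (X1 f) (X2 f) (de (X1 f) (X2 f) f) = ((cF f / X1 f : ℝ) : ℂ) * M3 (nf f) (xT f) (ef f) :=
    ME_eq hf hs h2 3
  unfold mS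
  rw [h3, S4_eq hf hs h2, YY_eq h2, Complex.conj_ofReal, cF_eq]
  push_cast
  field_simp
  ring

/-- the coefficient of the Jacobian -/
theorem W7_eq (W : ℝ → ℝ) (F : Cof) (μ : ℝ) (hf : Ef f) (hs : 0 < X1 f) (h2 : X2 f = 0) :
    W7 W F f = vec W F μ (X1 f) (cF f) 0 + vec W F μ (X1 f) (cF f) 1 * (P2 (nf f) (xT f) (ef f)).re
      + vec W F μ (X1 f) (cF f) 2 * P0 (nf f) (xT f)
      + vec W F μ (X1 f) (cF f) 3 * (2 * ((P4 (nf f) (xT f) (ef f)).re - (M3 (nf f) (xT f) (ef f)).re))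
      + vec W F μ (X1 f) (cF f) 4 * (M3 (nf f) (xT f) (ef f)).re
      + vec W F μ (X1 f) (cF f) 5 * (5 * (M5 (nf f) (xT f) (ef f)).re)
      + vec W F μ (X1 f) (cF f) 6 * ‖M3 (nf f) (xT f) (ef f)‖ ^ 2
      + vec W F μ (X1 f) (cF f) 7 * (5 / 2 * (conj (M3 (nf f) (xT f) (ef f)) * M5 (nf f) (xT f) (ef f)).re) := by
  have hc : cF f ≠ 0 := (cF_pos' hf).ne'
  have hs' : X1 f ≠ 0 := hs.ne'
  unfold W7 W1
  rw [rF_eq h2, S2_eq hf hs h2, S0_eq hf hs h2, mS_eq hf hs h2, CE3 hf hs h2, D5_eq hf hs h2, YY_eq h2,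
    Complex.conj_ofReal]
  generalize P2 (nf f) (xT f) (ef f) = a2
  generalize P4 (nf f) (xT f) (ef f) = a4
  generalize P0 (nf f) (xT f) = a0
  generalize M3 (nf f) (xT f) (ef f) = m3
  generalize M5 (nf f) (xT f) (ef f) = m5
  generalize cF f = c at hc
  generalize X1 f = s at hs'
  have e1 : ((s : ℂ) ^ 2 * (((c / s : ℝ) : ℂ) ^ 2 * a2)).re = c ^ 2 * a2.re := by
    have : (s : ℂ) ^ 2 * (((c / s : ℝ) : ℂ) ^ 2 * a2) = ((c ^ 2 : ℝ) : ℂ) * a2 := by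
      have hs2 : (s : ℂ) ≠ 0 := Complex.ofReal_ne_zero.2 hs'
      push_cast
      field_simp
    rw [this, Complex.re_ofReal_mul]
  have e2 : ((s : ℂ) ^ 3 * (((c / s : ℝ) : ℂ) * (a4 - m3))).re = c * s ^ 2 * (a4.re - m3.re) := by
    have : (s : ℂ) ^ 3 * (((c / s : ℝ) : ℂ) * (a4 - m3)) = ((c * s ^ 2 : ℝ) : ℂ) * (a4 - m3) := by
      have hs2 : (s : ℂ) ≠ 0 := Complex.ofReal_ne_zero.2 hs'
      push_cast
      field_simp
    rw [this, Complex.re_ofReal_mul, Complex.sub_re]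
  have e3 : ((s : ℂ) ^ 3 * (2 * ((c / s : ℝ) : ℂ) * m3)).re = 2 * c * s ^ 2 * m3.re := by
    have : (s : ℂ) ^ 3 * (2 * ((c / s : ℝ) : ℂ) * m3) = ((2 * c * s ^ 2 : ℝ) : ℂ) * m3 := by
      have hs2 : (s : ℂ) ≠ 0 := Complex.ofReal_ne_zero.2 hs'
      push_cast
      field_simp
    rw [this, Complex.re_ofReal_mul]
  have e4 : ((s : ℂ) ^ 4 * (5 / 2 * m5)).re = s ^ 4 * (5 / 2) * m5.re := by
    have : (s : ℂ) ^ 4 * (5 / 2 * m5) = ((s ^ 4 * (5 / 2) : ℝ) : ℂ) * m5 := by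
      push_cast
      ring
    rw [this, Complex.re_ofReal_mul]
  have e5 : normSq (2 * ((c / s : ℝ) : ℂ) * m3) = 4 * c ^ 2 / s ^ 2 * ‖m3‖ ^ 2 := by
    rw [Complex.normSq_mul, Complex.normSq_mul, Complex.normSq_ofReal, Complex.normSq_eq_norm_sq m3]
    have : normSq (2 : ℂ) = 4 := by
      rw [Complex.normSq_eq_norm_sq]
      norm_num
    rw [this]
    field_simp
  have e6 : ((s : ℂ) * (conj (2 * ((c / s : ℝ) : ℂ) * m3) * (5 / 2 * m5))).re =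
      5 * c * (conj m3 * m5).re := by
    have : (s : ℂ) * (conj (2 * ((c / s : ℝ) : ℂ) * m3) * (5 / 2 * m5)) = ((5 * c : ℝ) : ℂ) * (conj m3 * m5) := by
      have hs2 : (s : ℂ) ≠ 0 := Complex.ofReal_ne_zero.2 hs'
      rw [map_mul, map_mul, Complex.conj_ofReal, map_ofNat]
      push_cast
      field_simp
    rw [this, Complex.re_ofReal_mul]
  rw [e1, e2, e3, e4, e5, e6]
  simp only [vec, Matrix.cons_val_zero, Matrix.cons_val_one, Matrix.cons_val]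
  field_simp
  ring

theorem bm_xT (hf : Ef f) (hs : 0 < X1 f) (h2 : X2 f = 0) : Bm fun t => (xT f t : ℂ) := by
  have h := (Bm.const ((X1 f / cF f : ℝ) : ℂ)).mul (bm_de hf)
  have e : (fun t => (xT f t : ℂ)) = fun t => ((X1 f / cF f : ℝ) : ℂ) * (de (X1 f) (X2 f) f t : ℂ) := by
    funext t
    have hc : (cF f : ℂ) ≠ 0 := Complex.ofReal_ne_zero.2 (cF_pos' hf).ne'
    have hs' : (X1 f : ℂ) ≠ 0 := Complex.ofReal_ne_zero.2 hs.ne'
    rw [de_eq hf hs h2]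
    push_cast
    field_simp
  rw [e]
  exact h

/-- the function of the certificate -/
theorem mk7_eq (W : ℝ → ℝ) (F : Cof) (μ : ℝ) (hf : Ef f) (hs : 0 < X1 f) (h2 : X2 f = 0) (t : ℝ) :
    mk7 F f t = (vec W F μ (X1 f) (cF f) 3 : ℂ) * ((xT f t : ℂ) * ef f t ^ 2)
      + ((vec W F μ (X1 f) (cF f) 8 : ℂ) * ((xT f t : ℂ) * conj (ef f t) ^ 2)
      + ((vec W F μ (X1 f) (cF f) 9 : ℂ) * (xT f t : ℂ)
      + ((vec W F μ (X1 f) (cF f) 10 : ℂ) * conj (ef f t) ^ 3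
      + ((vec W F μ (X1 f) (cF f) 5 : ℂ) * ef f t ^ 3
      + (vec W F μ (X1 f) (cF f) 7 : ℂ) *
        (((conj (M3 (nf f) (xT f) (ef f)) * ef f t ^ 3).re : ℝ) : ℂ))))) := by
  have hc : (cF f : ℂ) ≠ 0 := Complex.ofReal_ne_zero.2 (cF_pos' hf).ne'
  have hs' : (X1 f : ℂ) ≠ 0 := Complex.ofReal_ne_zero.2 hs.ne'
  have e1 : (conj (CE 3 f) * ef f t ^ 3).re =
      2 * (cF f / X1 f) * (conj (M3 (nf f) (xT f) (ef f)) * ef f t ^ 3).re := by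
    have : conj (CE 3 f) * ef f t ^ 3 =
        ((2 * (cF f / X1 f) : ℝ) : ℂ) * (conj (M3 (nf f) (xT f) (ef f)) * ef f t ^ 3) := by
      rw [CE3 hf hs h2, map_mul, map_mul, Complex.conj_ofReal, map_ofNat]
      push_cast
      ring
    rw [this, Complex.re_ofReal_mul]
  unfold mk7
  rw [de_eq hf hs h2, YY_eq h2, Complex.conj_ofReal, rF_eq h2, e1]
  simp only [vec, Matrix.cons_val_zero, Matrix.cons_val_one, Matrix.cons_val]
  push_cast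
  field_simp
  ring

theorem bv_eq (W : ℝ → ℝ) (F : Cof) (μ : ℝ) (hf : Ef f) (hs : 0 < X1 f) (h2 : X2 f = 0) (A B N M : ℂ) :
    bv F f A B N M = vec W F μ (X1 f) (cF f) 11 * (2 * (‖N‖ ^ 2 - ‖M‖ ^ 2))
      + vec W F μ (X1 f) (cF f) 12 * -(‖M3 (nf f) (xT f) (ef f)‖ ^ 2 * (‖A‖ ^ 2 - ‖B‖ ^ 2))
      + vec W F μ (X1 f) (cF f) 13 * ((A + conj B) * (M3 (nf f) (xT f) (ef f) * conj N
        - conj (M3 (nf f) (xT f) (ef f)) * M)).re := by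
  have hc : cF f ≠ 0 := (cF_pos' hf).ne'
  have hs' : X1 f ≠ 0 := hs.ne'
  unfold bv
  rw [rF_eq h2, CE3 hf hs h2, YY_eq h2, Complex.conj_ofReal]
  generalize M3 (nf f) (xT f) (ef f) = m3
  generalize cF f = c at hc
  generalize X1 f = s at hs'
  have e5 : normSq (2 * ((c / s : ℝ) : ℂ) * m3) = 4 * c ^ 2 / s ^ 2 * ‖m3‖ ^ 2 := by
    rw [Complex.normSq_mul, Complex.normSq_mul, Complex.normSq_ofReal, Complex.normSq_eq_norm_sq m3]
    have : normSq (2 : ℂ) = 4 := by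
      rw [Complex.normSq_eq_norm_sq]
      norm_num
    rw [this]
    field_simp
  have e6 : ((((s : ℂ) * A + (s : ℂ) * conj B) * (2 * ((c / s : ℝ) : ℂ) * m3 * conj N
      - conj (2 * ((c / s : ℝ) : ℂ) * m3) * M))).re =
      2 * c * ((A + conj B) * (m3 * conj N - conj m3 * M)).re := by
    have : ((s : ℂ) * A + (s : ℂ) * conj B) * (2 * ((c / s : ℝ) : ℂ) * m3 * conj N
      - conj (2 * ((c / s : ℝ) : ℂ) * m3) * M) =
      ((2 * c : ℝ) : ℂ) * ((A + conj B) * (m3 * conj N - conj m3 * M)) := by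
      have hs2 : (s : ℂ) ≠ 0 := Complex.ofReal_ne_zero.2 hs'
      rw [map_mul, map_mul, Complex.conj_ofReal, map_ofNat]
      push_cast
      field_simp
    rw [this, Complex.re_ofReal_mul]
  rw [e5, e6]
  simp only [vec, Matrix.cons_val_zero, Matrix.cons_val_one, Matrix.cons_val]
  field_simp
  ring

theorem Cp_eq (hf : Ef f) (hs : 0 < X1 f) (h2 : X2 f = 0) (A B R : ℂ) :
    Cp f A B R = cp (nf f) (xT f) (ef f) A B R := by
  have hc : (cF f : ℂ) ≠ 0 := Complex.ofReal_ne_zero.2 (cF_pos' hf).ne'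
  have hs' : (X1 f : ℂ) ≠ 0 := Complex.ofReal_ne_zero.2 hs.ne'
  unfold Cp cp
  rw [D5_eq hf hs h2, CE3 hf hs h2, YY_eq h2, Complex.conj_ofReal]
  push_cast
  field_simp
  ring

theorem Cm_eq (hf : Ef f) (hs : 0 < X1 f) (h2 : X2 f = 0) (A B R : ℂ) :
    Cm f A B R = cm (nf f) (xT f) (ef f) A B R := by
  have hc : (cF f : ℂ) ≠ 0 := Complex.ofReal_ne_zero.2 (cF_pos' hf).ne'
  have hs' : (X1 f : ℂ) ≠ 0 := Complex.ofReal_ne_zero.2 hs.ne'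
  unfold Cm cm
  rw [D5_eq hf hs h2, CE3 hf hs h2, YY_eq h2, Complex.conj_ofReal]
  push_cast
  field_simp
  ring

theorem bm_M3 (hf : Ef f) (z : ℂ) : Bm fun t => (((z * ef f t ^ 3).re : ℝ) : ℂ) := by
  have bE := bm_pow (bm_ep (X_lt hf)) 3
  have h := (((Bm.const z).mul bE).add ((Bm.const z).mul bE).conj).mul (Bm.const (1 / 2))
  have e : (fun t => (((z * ef f t ^ 3).re : ℝ) : ℂ)) =
      fun t => (z * ef f t ^ 3 + conj (z * ef f t ^ 3)) * (1 / 2) := by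
    funext t
    rw [Complex.add_conj]
    push_cast
    ring
  rw [e]
  exact h

/-- **the certificate at a state with `ζ > 0` from the linear certificate** -/
theorem certAt_of_NC {W : ℝ → ℝ} {F : Cof} {μ T : ℝ} (hf : Ef f) (hs : 0 < X1 f) (h2 : X2 f = 0)
    (H : NC (nf f) (xT f) (ef f) (vec W F μ (X1 f) (cF f)) T) : CertAt W F μ T f := by
  intro K hK hK1 A B hA hB
  have hX := X_lt hf
  have := vm_prob hX
  rw [sF_eq hf hs h2] at hA hB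
  have h := H K hK hK1 A B hA hB
  have bK : Bm K := ⟨hK, 1, hK1⟩
  have bD := bm_xT hf hs h2
  have bE : Bm (ef f) := bm_ep hX
  have bE2 : Bm fun t => ef f t ^ 2 := bm_pow bE 2
  have bC2 : Bm fun t => conj (ef f t) ^ 2 := bm_pow bE.conj 2
  have bE3 : Bm fun t => ef f t ^ 3 := bm_pow bE 3
  have bC3 : Bm fun t => conj (ef f t) ^ 3 := bm_pow bE.conj 3
  set v := vec W F μ (X1 f) (cF f) with hv
  have b3 : Bm fun t => (v 3 : ℂ) * ((xT f t : ℂ) * ef f t ^ 2) := (Bm.const _).mul (bD.mul bE2)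
  have b8 : Bm fun t => (v 8 : ℂ) * ((xT f t : ℂ) * conj (ef f t) ^ 2) := (Bm.const _).mul (bD.mul bC2)
  have b9 : Bm fun t => (v 9 : ℂ) * (xT f t : ℂ) := (Bm.const _).mul bD
  have b10 : Bm fun t => (v 10 : ℂ) * conj (ef f t) ^ 3 := (Bm.const _).mul bC3
  have b5 : Bm fun t => (v 5 : ℂ) * ef f t ^ 3 := (Bm.const _).mul bE3
  have b7 : Bm fun t => (v 7 : ℂ) * (((conj (M3 (nf f) (xT f) (ef f)) * ef f t ^ 3).re : ℝ) : ℂ) :=
    (Bm.const _).mul (bm_M3 hf _)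
  have e : pk (nf f) (mk7 F f) K A B = v 3 * pk (nf f) (fun t => (xT f t : ℂ) * ef f t ^ 2) K A B
      + (v 8 * pk (nf f) (fun t => (xT f t : ℂ) * conj (ef f t) ^ 2) K A B
      + (v 9 * pk (nf f) (fun t => (xT f t : ℂ)) K A B
      + (v 10 * pk (nf f) (fun t => conj (ef f t) ^ 3) K A B
      + (v 5 * pk (nf f) (fun t => ef f t ^ 3) K A B
      + v 7 * pk (nf f) (fun t => (((conj (M3 (nf f) (xT f) (ef f)) * ef f t ^ 3).re : ℝ) : ℂ)) K A B)))) := by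
    have em : mk7 F f = fun t => (v 3 : ℂ) * ((xT f t : ℂ) * ef f t ^ 2)
      + ((v 8 : ℂ) * ((xT f t : ℂ) * conj (ef f t) ^ 2) + ((v 9 : ℂ) * (xT f t : ℂ)
      + ((v 10 : ℂ) * conj (ef f t) ^ 3 + ((v 5 : ℂ) * ef f t ^ 3
      + (v 7 : ℂ) * (((conj (M3 (nf f) (xT f) (ef f)) * ef f t ^ 3).re : ℝ) : ℂ))))) :=
      funext fun t => mk7_eq W F μ hf hs h2 t
    have c5 := b5.add b7
    have c10 := b10.add c5
    have c9 := b9.add c10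
    have c8 := b8.add c9
    rw [em, pk_add b3 c8 bK, pk_add b8 c9 bK, pk_add b9 c10 bK, pk_add b10 c5 bK, pk_add b5 b7 bK,
      pk_smul, pk_smul, pk_smul, pk_smul, pk_smul, pk_smul]
  have e2 : 2 * (A * ∫ t, mk7 F f t * K t ∂(vm (X1 f) (X2 f))).re
      - 2 * (B * ∫ t, mk7 F f t * conj (K t) ∂(vm (X1 f) (X2 f))).re = pk (nf f) (mk7 F f) K A B := rfl
  rw [Cp_eq hf hs h2, Cm_eq hf hs h2, bv_eq W F μ hf hs h2, W7_eq W F μ hf hs h2, ← hv]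
  have e3 : μ = v 14 := by
    rw [hv]
    rfl
  have h' : lhs (nf f) (xT f) (ef f) v K A B ≤ T := h
  rw [lhs_eq, ← e] at h'
  have e4 : 2 * μ * ‖B‖ ^ 2 = v 14 * (2 * ‖B‖ ^ 2) := by
    rw [← e3]
    ring
  rw [← e2] at h'
  refine le_trans (le_of_eq ?_) h'
  rw [e4]
  ring

end

end Pool.Agent.FPX.BTN
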