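import Mathlib
import Pool.Agent.FPX.BTN

/-
BTE (helper15): elimination of `K`, `|K| ≤ 1`, from the linear certificate `BTN.NC` (abstract version of helper11's
OM9): free multipliers and a weight.
-/

open MeasureTheory Set Filter Topology Complex
open scoped ENNReal NNReal ComplexConjugate

noncomputable section

namespace Pool.Agent.FPX.BTN

open Pool.Agent.FPX.CRD (Bm)

variable {X : Type*} [MeasurableSpace X]

section defs

variable (ν : Measure X) (D : X → ℝ) (E : X → ℂ)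

/-- the function `m` of the certificate -/
def mkv (v : CV) (t : X) : ℂ :=
  (v 3 : ℂ) * ((D t : ℂ) * E t ^ 2) + ((v 8 : ℂ) * ((D t : ℂ) * conj (E t) ^ 2) + ((v 9 : ℂ) * (D t : ℂ)
    + ((v 10 : ℂ) * conj (E t) ^ 3 + ((v 5 : ℂ) * E t ^ 3
    + (v 7 : ℂ) * (((conj (M3 ν D E) * E t ^ 3).re : ℝ) : ℂ)))))

/-- the coefficient of the Jacobian -/
def Wv (v : CV) : ℝ :=
  v 0 + v 1 * (P2 ν D E).re + v 2 * P0 ν D + v 3 * (2 * ((P4 ν D E).re - (M3 ν D E).re))
    + v 4 * (M3 ν D E).re + v 5 * (5 * (M5 ν D E).re) + v 6 * ‖M3 ν D E‖ ^ 2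
    + v 7 * (5 / 2 * (conj (M3 ν D E) * M5 ν D E).re)

/-- the terms with `∇C₃` -/
def bvv (v : CV) (A B N M : ℂ) : ℝ :=
  v 11 * (2 * (‖N‖ ^ 2 - ‖M‖ ^ 2)) + v 12 * -(‖M3 ν D E‖ ^ 2 * (‖A‖ ^ 2 - ‖B‖ ^ 2))
    + v 13 * ((A + conj B) * (M3 ν D E * conj N - conj (M3 ν D E) * M)).re

/-- `mean (E³ conj K)` in terms of `N` -/
def rp (A B N : ℂ) : ℂ := N - 5 / 2 * conj B * M5 ν D E + 3 / 2 * (A - conj B) * M3 ν D E

/-- `mean (E³ K)` in terms of `M` -/
def rm (A B M : ℂ) : ℂ := M - 5 / 2 * conj A * M5 ν D E + 3 / 2 * (B - conj A) * M3 ν D E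

/-- the combination of the functions of the certificate -/
def hv (v : CV) (A B α β γ δ : ℂ) (t : X) : ℂ :=
  α * E t + (β * conj (E t) + (γ * E t ^ 3 + (δ * conj (E t ^ 3) + (A * mkv ν D E v t
    - conj B * conj (mkv ν D E v t)))))

/-- the terms without `K` -/
def restv (v : CV) (A B N M α β γ δ : ℂ) : ℝ :=
  Wv ν D E v * (‖A‖ ^ 2 - ‖B‖ ^ 2) + bvv ν D E v A B N M + v 14 * (2 * ‖B‖ ^ 2)
    - 2 * (conj α * conj (B - sg ν D E * conj A) + conj β * (A - sg ν D E * conj B)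
      + conj γ * conj (rm ν D E A B M) + conj δ * rp ν D E A B N).re

end defs

variable {ν : Measure X} {D : X → ℝ} {E : X → ℂ}

theorem bm_re {g : X → ℂ} (h : Bm g) : Bm fun t => (((g t).re : ℝ) : ℂ) := by
  have h' := (h.add h.conj).mul (Bm.const (1 / 2))
  have e : (fun t => (((g t).re : ℝ) : ℂ)) = fun t => (g t + conj (g t)) * (1 / 2) := by
    funext t
    rw [Complex.add_conj]
    push_cast
    ring
  rw [e]
  exact h'

theorem bm_pw {g : X → ℂ} (h : Bm g) (n : ℕ) : Bm fun x => g x ^ n := by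
  induction n with
  | zero => simpa using Bm.const 1
  | succ n ih =>
    have e : (fun x => g x ^ (n + 1)) = fun x => g x ^ n * g x := by
      funext x
      rw [pow_succ]
    rw [e]
    exact ih.mul h

theorem bm_mkv (bD : Bm fun t => (D t : ℂ)) (bE : Bm E) (v : CV) : Bm (mkv ν D E v) := by
  have bE2 := bm_pw bE 2
  have bE3 := bm_pw bE 3
  have bC2 := bm_pw bE.conj 2
  have bC3 := bm_pw bE.conj 3
  exact ((Bm.const _).mul (bD.mul bE2)).add (((Bm.const _).mul (bD.mul bC2)).add (((Bm.const _).mul bD).add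
    (((Bm.const _).mul bC3).add (((Bm.const _).mul bE3).add ((Bm.const _).mul (bm_re ((Bm.const _).mul bE3)))))))

theorem bm_hv (bD : Bm fun t => (D t : ℂ)) (bE : Bm E) (v : CV) (A B α β γ δ : ℂ) :
    Bm (hv ν D E v A B α β γ δ) := by
  have bE3 := bm_pw bE 3
  have bm := bm_mkv (ν := ν) bD bE v
  have e : hv ν D E v A B α β γ δ = fun t => α * E t + (β * conj (E t) + (γ * E t ^ 3 + (δ * conj (E t ^ 3)
      + (A * mkv ν D E v t + (-conj B) * conj (mkv ν D E v t))))) := by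
    funext t
    unfold hv
    ring
  rw [e]
  exact ((Bm.const _).mul bE).add (((Bm.const _).mul bE.conj).add (((Bm.const _).mul bE3).add
    (((Bm.const _).mul bE3.conj).add (((Bm.const _).mul bm).add ((Bm.const _).mul bm.conj)))))

theorem pk_mkv [IsFiniteMeasure ν] (bD : Bm fun t => (D t : ℂ)) (bE : Bm E) (v : CV) {K : X → ℂ} (bK : Bm K)
    (A B : ℂ) : pk ν (mkv ν D E v) K A B = v 3 * pk ν (fun t => (D t : ℂ) * E t ^ 2) K A B
      + (v 8 * pk ν (fun t => (D t : ℂ) * conj (E t) ^ 2) K A B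
      + (v 9 * pk ν (fun t => (D t : ℂ)) K A B
      + (v 10 * pk ν (fun t => conj (E t) ^ 3) K A B
      + (v 5 * pk ν (fun t => E t ^ 3) K A B
      + v 7 * pk ν (fun t => (((conj (M3 ν D E) * E t ^ 3).re : ℝ) : ℂ)) K A B)))) := by
  have bE2 := bm_pw bE 2
  have bE3 := bm_pw bE 3
  have bC2 := bm_pw bE.conj 2
  have bC3 := bm_pw bE.conj 3
  have b3 : Bm fun t => (v 3 : ℂ) * ((D t : ℂ) * E t ^ 2) := (Bm.const _).mul (bD.mul bE2)
  have b8 : Bm fun t => (v 8 : ℂ) * ((D t : ℂ) * conj (E t) ^ 2) := (Bm.const _).mul (bD.mul bC2)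
  have b9 : Bm fun t => (v 9 : ℂ) * (D t : ℂ) := (Bm.const _).mul bD
  have b10 : Bm fun t => (v 10 : ℂ) * conj (E t) ^ 3 := (Bm.const _).mul bC3
  have b5 : Bm fun t => (v 5 : ℂ) * E t ^ 3 := (Bm.const _).mul bE3
  have b7 : Bm fun t => (v 7 : ℂ) * (((conj (M3 ν D E) * E t ^ 3).re : ℝ) : ℂ) :=
    (Bm.const _).mul (bm_re ((Bm.const _).mul bE3))
  have em : mkv ν D E v = fun t => (v 3 : ℂ) * ((D t : ℂ) * E t ^ 2)
    + ((v 8 : ℂ) * ((D t : ℂ) * conj (E t) ^ 2) + ((v 9 : ℂ) * (D t : ℂ)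
    + ((v 10 : ℂ) * conj (E t) ^ 3 + ((v 5 : ℂ) * E t ^ 3
    + (v 7 : ℂ) * (((conj (M3 ν D E) * E t ^ 3).re : ℝ) : ℂ))))) := rfl
  have c5 := b5.add b7
  have c10 := b10.add c5
  have c9 := b9.add c10
  have c8 := b8.add c9
  rw [em, pk_add b3 c8 bK, pk_add b8 c9 bK, pk_add b9 c10 bK, pk_add b10 c5 bK, pk_add b5 b7 bK,
    pk_smul, pk_smul, pk_smul, pk_smul, pk_smul, pk_smul]

theorem lhs_eq' [IsFiniteMeasure ν] (bD : Bm fun t => (D t : ℂ)) (bE : Bm E) (v : CV) {K : X → ℂ} (bK : Bm K)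
    (A B : ℂ) : lhs ν D E v K A B = Wv ν D E v * (‖A‖ ^ 2 - ‖B‖ ^ 2) + pk ν (mkv ν D E v) K A B
      + bvv ν D E v A B (cp ν D E A B (∫ t, E t ^ 3 * conj (K t) ∂ν)) (cm ν D E A B (∫ t, E t ^ 3 * K t ∂ν))
      + v 14 * (2 * ‖B‖ ^ 2) := by
  rw [lhs_eq, pk_mkv bD bE v bK]
  rfl

theorem rp_cp (A B R : ℂ) : rp ν D E A B (cp ν D E A B R) = R := by
  unfold rp cp
  ring

theorem rm_cm (A B R : ℂ) : rm ν D E A B (cm ν D E A B R) = R := by
  unfold rm cm
  ring

/-- **elimination of `K` by the modulus** -/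
theorem NC_mod [IsFiniteMeasure ν] (bD : Bm fun t => (D t : ℂ)) (bE : Bm E) {v : CV} {T : ℝ}
    (H : ∀ A B N M : ℂ, ∃ α β γ δ : ℂ, restv ν D E v A B N M α β γ δ
      + 2 * ∫ t, ‖hv ν D E v A B α β γ δ t‖ ∂ν ≤ T) : NC ν D E v T := by
  intro K hK hK1 A B hA hB
  set R1 : ℂ := ∫ t, E t ^ 3 * conj (K t) ∂ν with hR1
  set R2 : ℂ := ∫ t, E t ^ 3 * K t ∂ν with hR2
  obtain ⟨α, β, γ, δ, h⟩ := H A B (cp ν D E A B R1) (cm ν D E A B R2)
  have bE3 : Bm fun t => E t ^ 3 := bm_pw bE 3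
  have bm : Bm (mkv ν D E v) := bm_mkv bD bE v
  have bK : Bm K := ⟨hK, 1, hK1⟩
  have bh := bm_hv (ν := ν) bD bE v A B α β γ δ
  have cj : ∀ φ : X → ℂ, ∫ t, conj (φ t) ∂ν = conj (∫ t, φ t ∂ν) := fun φ => integral_conj
  have e : ∫ t, conj (K t) * conj (hv ν D E v A B α β γ δ t) ∂ν =
      conj α * conj (∫ t, E t * K t ∂ν) + (conj β * ∫ t, E t * conj (K t) ∂ν
      + (conj γ * conj R2 + (conj δ * R1 + (conj A * conj (∫ t, mkv ν D E v t * K t ∂ν)
      - B * ∫ t, mkv ν D E v t * conj (K t) ∂ν)))) := by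
    have e1 : (fun t => conj (K t) * conj (hv ν D E v A B α β γ δ t)) = fun t =>
        conj α * conj (E t * K t) + (conj β * (E t * conj (K t)) + (conj γ * conj (E t ^ 3 * K t)
        + (conj δ * (E t ^ 3 * conj (K t)) + (conj A * conj (mkv ν D E v t * K t)
        - B * (mkv ν D E v t * conj (K t)))))) := by
      funext t
      unfold hv
      simp only [map_add, map_sub, map_mul, map_pow, Complex.conj_conj]
      ring
    have b1 : Bm fun t => conj α * conj (E t * K t) := (Bm.const _).mul (bE.mul bK).conj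
    have b2 : Bm fun t => conj β * (E t * conj (K t)) := (Bm.const _).mul (bE.mul bK.conj)
    have b3 : Bm fun t => conj γ * conj (E t ^ 3 * K t) := (Bm.const _).mul (bE3.mul bK).conj
    have b4 : Bm fun t => conj δ * (E t ^ 3 * conj (K t)) := (Bm.const _).mul (bE3.mul bK.conj)
    have b5 : Bm fun t => conj A * conj (mkv ν D E v t * K t) := (Bm.const _).mul (bm.mul bK).conj
    have b6 : Bm fun t => B * (mkv ν D E v t * conj (K t)) := (Bm.const _).mul (bm.mul bK.conj)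
    have i6 : Integrable (fun t => conj A * conj (mkv ν D E v t * K t) - B * (mkv ν D E v t * conj (K t))) ν :=
      b5.int.sub b6.int
    have i5 : Integrable (fun t => conj δ * (E t ^ 3 * conj (K t)) + (conj A * conj (mkv ν D E v t * K t)
        - B * (mkv ν D E v t * conj (K t)))) ν := b4.int.add i6
    have i4 : Integrable (fun t => conj γ * conj (E t ^ 3 * K t) + (conj δ * (E t ^ 3 * conj (K t))
        + (conj A * conj (mkv ν D E v t * K t) - B * (mkv ν D E v t * conj (K t))))) ν := b3.int.add i5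
    have i3 : Integrable (fun t => conj β * (E t * conj (K t)) + (conj γ * conj (E t ^ 3 * K t)
        + (conj δ * (E t ^ 3 * conj (K t)) + (conj A * conj (mkv ν D E v t * K t)
        - B * (mkv ν D E v t * conj (K t)))))) ν := b2.int.add i4
    rw [e1, integral_add b1.int i3, integral_add b2.int i4, integral_add b3.int i5,
      integral_add b4.int i6, integral_sub b5.int b6.int, integral_const_mul, integral_const_mul,
      integral_const_mul, integral_const_mul, integral_const_mul, integral_const_mul, cj, cj, cj]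
  have hb : 2 * (∫ t, conj (K t) * conj (hv ν D E v A B α β γ δ t) ∂ν).re ≤
      2 * ∫ t, ‖hv ν D E v A B α β γ δ t‖ ∂ν := by
    have h1 : ‖∫ t, conj (K t) * conj (hv ν D E v A B α β γ δ t) ∂ν‖ ≤
        ∫ t, ‖hv ν D E v A B α β γ δ t‖ ∂ν := by
      refine norm_integral_le_of_norm_le bh.int.norm (Eventually.of_forall fun t => ?_)
      rw [norm_mul, Complex.norm_conj, Complex.norm_conj]
      exact mul_le_of_le_one_left (norm_nonneg _) (hK1 t)
    have h2 := Complex.re_le_norm (∫ t, conj (K t) * conj (hv ν D E v A B α β γ δ t) ∂ν)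
    linarith
  rw [e] at hb
  unfold restv at h
  rw [rp_cp, rm_cm, hA, hB] at h
  have c1 : (conj A * conj (∫ t, mkv ν D E v t * K t ∂ν)).re = (A * ∫ t, mkv ν D E v t * K t ∂ν).re := by
    rw [← map_mul, Complex.conj_re]
  rw [lhs_eq' bD bE v bK, ← hR1, ← hR2]
  unfold pk
  simp only [Complex.add_re, Complex.sub_re] at hb h
  rw [c1] at hb
  linarith

/-- **elimination of `K` with a reciprocal weight `q`** -/
theorem NC_rw [IsFiniteMeasure ν] (bD : Bm fun t => (D t : ℂ)) (bE : Bm E) {v : CV} {T : ℝ}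
    {q : X → ℝ} (hq : Measurable q) {a b : ℝ} (ha : 0 < a) (hab : ∀ t, a ≤ q t ∧ q t ≤ b)
    (hT : ∫ t, 1 / q t ∂ν ≤ T)
    (H : ∀ A B N M : ℂ, ∃ α β γ δ : ℂ, restv ν D E v A B N M α β γ δ
      + ∫ t, ‖hv ν D E v A B α β γ δ t‖ ^ 2 * q t ∂ν ≤ 0) : NC ν D E v T := by
  refine NC_mod bD bE fun A B N M => ?_
  obtain ⟨α, β, γ, δ, h⟩ := H A B N M
  refine ⟨α, β, γ, δ, ?_⟩
  have bh := bm_hv (ν := ν) bD bE v A B α β γ δ
  obtain ⟨C, hC⟩ := bh.bdd
  have i1 : Integrable (fun t => 1 / q t) ν := by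
    refine Integrable.of_bound (measurable_const.div hq).aestronglyMeasurable (1 / a)
      (Eventually.of_forall fun t => ?_)
    have h0 : 0 < q t := lt_of_lt_of_le ha (hab t).1
    rw [Real.norm_eq_abs, abs_of_nonneg (by positivity)]
    exact one_div_le_one_div_of_le ha (hab t).1
  have i2 : Integrable (fun t => ‖hv ν D E v A B α β γ δ t‖ ^ 2 * q t) ν := by
    refine Integrable.of_bound ((bh.meas.norm.pow_const 2).mul hq).aestronglyMeasurable (C ^ 2 * b)
      (Eventually.of_forall fun t => ?_)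
    have h0 : 0 < q t := lt_of_lt_of_le ha (hab t).1
    rw [Real.norm_eq_abs, abs_of_nonneg (by positivity)]
    exact mul_le_mul (pow_le_pow_left₀ (norm_nonneg _) (hC t) 2) (hab t).2 h0.le (sq_nonneg C)
  have key : 2 * ∫ t, ‖hv ν D E v A B α β γ δ t‖ ∂ν ≤
      (∫ t, 1 / q t ∂ν) + ∫ t, ‖hv ν D E v A B α β γ δ t‖ ^ 2 * q t ∂ν := by
    rw [← integral_add i1 i2, ← integral_const_mul]
    refine integral_mono (bh.int.norm.const_mul 2) (i1.add i2) fun t => ?_
    have h0 : 0 < q t := lt_of_lt_of_le ha (hab t).1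
    have e : 1 / q t + ‖hv ν D E v A B α β γ δ t‖ ^ 2 * q t - 2 * ‖hv ν D E v A B α β γ δ t‖ =
        (1 - ‖hv ν D E v A B α β γ δ t‖ * q t) ^ 2 / q t := by
      field_simp
      ring
    have : 0 ≤ (1 - ‖hv ν D E v A B α β γ δ t‖ * q t) ^ 2 / q t := by positivity
    show 2 * ‖hv ν D E v A B α β γ δ t‖ ≤ 1 / q t + ‖hv ν D E v A B α β γ δ t‖ ^ 2 * q t
    linarith
  linarith

end Pool.Agent.FPX.BTN
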