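import Mathlib
import Pool.Agent.FPX.F54S

/-
PTB (helper90): the sharp pointwise bound for the states of the point `(s, 0)` of the Klein disc.
With `c = √(1 - s²)`, `η = (π / 2) (1 - c)`, `F t = arcsin (s cos t)`, every odd 1-Lipschitz `f` with
`G (s, 0) f = 0` satisfies `|s² sin (f t) - sin η sin (F t)| ≤ (cos η - c) cos (F t)` for all `t`.
Proof: bathtub principle for the closed convex curve `(F, c Λ)`, `Λ = arsinh ((s / c) sin t)`, whose
derivative is `s (-sin α, cos α)`; the arc with a given chord has an explicit length.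
-/

open MeasureTheory Set Filter Topology intervalIntegral

noncomputable section

namespace Pool.Agent.FPX.PTB

open Real
open Pool.Agent.FPX.UMP (Ef)
open Pool.Agent.FPX.F54

/-- `η` -/
def et (s : ℝ) : ℝ := π / 2 * (1 - cc s)

/-- the round state -/
def Fo (s t : ℝ) : ℝ := arcsin (s * cos t)

/-- `Λ` -/
def La (s t : ℝ) : ℝ := arsinh (s * sin t / cc s)

section base

variable {s : ℝ} (h0 : 0 ≤ s) (h1 : s < 1)

include h0 h1

omit h0 h1 in
theorem cosF (t : ℝ) : cos (Fo s t) = W s t := by
  unfold Fo W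
  rw [cos_arcsin]

theorem sinF (t : ℝ) : sin (Fo s t) = s * cos t := by
  unfold Fo
  have h2 := in_pos h0 h1 t
  have h3 : |s * cos t| ≤ 1 := by
    rw [← sq_le_one_iff_abs_le_one]
    linarith
  rw [sin_arcsin (abs_le.1 h3).1 (abs_le.1 h3).2]

omit h0 h1 in
theorem sinhL (t : ℝ) : sinh (La s t) = s * sin t / cc s := by
  unfold La
  rw [sinh_arsinh]

theorem coshL (t : ℝ) : cosh (La s t) = W s t / cc s := by
  unfold La
  have hc := cc_pos h0 h1
  have hW := W_pos h0 h1 t
  rw [cosh_arsinh, sqrt_eq_iff_mul_self_eq (by positivity) (by positivity)]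
  have h2 := W_sq h0 h1 t
  have h3 := cc_sq h0 h1
  have h4 := sin_sq_add_cos_sq t
  field_simp
  linear_combination h3 - h2 + s ^ 2 * h4

theorem ident (a b : ℝ) : s ^ 2 * cos (a - b)
    = cos (Fo s a - Fo s b) - cc s ^ 2 * cosh (La s a - La s b) := by
  have hc := cc_pos h0 h1
  rw [cos_sub, cos_sub, cosh_sub, cosF, cosF, sinF h0 h1, sinF h0 h1, coshL h0 h1,
    coshL h0 h1, sinhL, sinhL]
  field_simp
  ring

theorem dFo (t : ℝ) : HasDerivAt (Fo s) (-(s * SA s t)) t := dg h0 h1 t

theorem dLa (t : ℝ) : HasDerivAt (La s) (s / cc s * CA s t) t := by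
  have hc := cc_pos h0 h1
  have hW := W_pos h0 h1 t
  have e1 : HasDerivAt (fun t => s * sin t / cc s) (s * cos t / cc s) t :=
    ((hasDerivAt_sin t).const_mul s).div_const _
  have e2 := e1.arsinh
  convert! e2 using 1
  have e3 := coshL h0 h1 t
  unfold La at e3
  rw [cosh_arsinh] at e3
  rw [e3]
  unfold CA
  simp only [smul_eq_mul]
  field_simp

omit h0 h1 in
theorem contFo : Continuous (Fo s) := by
  unfold Fo
  fun_prop

theorem contLa : Continuous (La s) := by
  rw [continuous_iff_continuousAt]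
  exact fun t => (dLa h0 h1 t).continuousAt

theorem int_sSA (a b : ℝ) : ∫ t in a..b, s * SA s t = Fo s a - Fo s b := by
  have h2 := contSA h0 h1
  have := integral_eq_sub_of_hasDerivAt (a := a) (b := b) (fun t _ => dFo h0 h1 t)
    ((h2.const_mul s).neg.intervalIntegrable _ _)
  rw [intervalIntegral.integral_neg] at this
  linarith

theorem int_sCA (a b : ℝ) : ∫ t in a..b, s / cc s * CA s t = La s b - La s a := by
  have h2 := contCA h0 h1
  exact integral_eq_sub_of_hasDerivAt (a := a) (b := b) (fun t _ => dLa h0 h1 t)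
    ((h2.const_mul _).intervalIntegrable _ _)

omit h0 h1 in
theorem W_pi (t : ℝ) : W s (t + π) = W s t := by
  unfold W
  rw [cos_add_pi]
  ring_nf

omit h0 h1 in
theorem CA_pi (t : ℝ) : CA s (t + π) = -CA s t := by
  unfold CA
  rw [cos_add_pi, W_pi]
  ring

omit h0 h1 in
theorem SA_pi (t : ℝ) : SA s (t + π) = -SA s t := by
  unfold SA
  rw [sin_add_pi, W_pi]
  ring

omit h0 h1 in
theorem Fo_pi (t : ℝ) : Fo s (t + π) = -Fo s t := by
  unfold Fo
  rw [cos_add_pi, mul_neg, arcsin_neg]

omit h0 h1 in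
theorem La_pi (t : ℝ) : La s (t + π) = -La s t := by
  unfold La
  rw [sin_add_pi, mul_neg, neg_div, arsinh_neg]

omit h0 h1 in
theorem half {G : ℝ → ℝ} (hG : ∀ t, G (t + π) = G t)
    (hi : ∀ a b, IntervalIntegrable G volume a b) (t0 : ℝ) :
    2 * ∫ t in t0..(t0 + π), G t = ∫ t in (0 : ℝ)..(2 * π), G t := by
  have hp : Function.Periodic G π := hG
  have e1 := hp.intervalIntegral_add_eq t0 0
  have e2 := hp.intervalIntegral_add_eq_add 0 π hi
  rw [zero_add] at e1 e2
  rw [show (2 : ℝ) * π = π + π by ring, e2, e1]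
  ring

theorem et_pos (hs : 0 < s) : 0 < et s := by
  have hc := cc_pos h0 h1
  have h2 := cc_sq h0 h1
  have h3 : cc s < 1 := by nlinarith
  have := pi_pos
  unfold et
  apply mul_pos (by positivity)
  linarith

/-- `η < arccos c` -/
theorem et_lt (hs : 0 < s) : et s < arccos (cc s) := by
  have hc := cc_pos h0 h1
  have h2 := cc_sq h0 h1
  have h3 : cc s < 1 := by nlinarith
  have hpi := pi_pos
  have h4 : 0 < π / 2 * cc s := by positivity
  have h5 : π / 2 * cc s < π / 2 := by nlinarith
  have h6 := mul_lt_sin h4 h5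
  have h7 : 2 / π * (π / 2 * cc s) = cc s := by field_simp
  rw [h7] at h6
  have h8 : arcsin (cc s) < π / 2 * cc s := by
    rw [arcsin_lt_iff_lt_sin ⟨by linarith, h3.le⟩ ⟨by linarith, h5.le⟩]
    exact h6
  unfold et arccos
  linarith

theorem cos_et (hs : 0 < s) : cc s < cos (et s) := by
  have hc := cc_pos h0 h1
  have h2 := cc_sq h0 h1
  have h3 : cc s < 1 := by nlinarith
  have h4 := et_lt h0 h1 hs
  have h5 := et_pos h0 h1 hs
  have h6 := cos_lt_cos_of_nonneg_of_le_pi h5.le (arccos_le_pi _) h4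
  rwa [cos_arccos (by linarith) h3.le] at h6

theorem W_ge (t : ℝ) : cc s ≤ W s t := by
  have hc := cc_pos h0 h1
  have hW := W_pos h0 h1 t
  have h2 := W_sq' h0 h1 t
  have h3 := cc_sq h0 h1
  have h4 := sin_sq_add_cos_sq t
  have h5 : cc s ^ 2 ≤ W s t ^ 2 := by
    rw [h2]
    have : 0 ≤ (1 - cc s ^ 2) * sin t ^ 2 := by
      rw [h3]
      nlinarith [sq_nonneg (sin t), sq_nonneg s]
    nlinarith
  exact (pow_le_pow_iff_left₀ hc.le hW.le two_ne_zero).1 h5

theorem W_le (t : ℝ) : W s t ≤ 1 := by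
  have hW := W_pos h0 h1 t
  have h2 := W_sq h0 h1 t
  nlinarith [sq_nonneg (s * cos t)]

/-! ### the multiplier -/

/-- the combination of `cos` and `sin` with the values of `W` at `a` and `b` -/
def qq (s a b t : ℝ) : ℝ := (W s a * sin (b - t) + W s b * sin (t - a)) / sin (b - a)

theorem qq_eq {a b : ℝ} (hab : sin (b - a) ≠ 0) (t : ℝ) : qq s a b t / W s t =
    (W s a * sin b - W s b * sin a) / sin (b - a) / cc s * CA s t
      + (W s b * cos a - W s a * cos b) / sin (b - a) * SA s t := by
  have hc := cc_pos h0 h1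
  have hW := W_pos h0 h1 t
  unfold qq CA SA
  rw [sin_sub b t, sin_sub t a]
  field_simp
  ring

theorem qq_sq {a b : ℝ} (hab : sin (b - a) ≠ 0) (t : ℝ) :
    sin (b - a) ^ 2 * (qq s a b t ^ 2 - W s t ^ 2) =
      2 * (W s a * W s b - (cc s ^ 2 * cos a * cos b + sin a * sin b))
        * (sin (b - t) * sin (t - a)) := by
  have e0 : sin (b - a) * qq s a b t = W s a * sin (b - t) + W s b * sin (t - a) := by
    unfold qq
    field_simp
  have e1 : sin (b - a) * cos t = sin (b - t) * cos a + sin (t - a) * cos b := by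
    rw [sin_sub, sin_sub, sin_sub]
    ring
  have e2 : sin (b - a) * sin t = sin (b - t) * sin a + sin (t - a) * sin b := by
    rw [sin_sub, sin_sub, sin_sub]
    ring
  have h2 := W_sq' h0 h1 t
  have h3 := W_sq' h0 h1 a
  have h4 := W_sq' h0 h1 b
  have e3 : sin (b - a) ^ 2 * W s t ^ 2 = cc s ^ 2 * (sin (b - a) * cos t) ^ 2
      + (sin (b - a) * sin t) ^ 2 := by
    rw [h2]
    ring
  have e4 : sin (b - a) ^ 2 * (qq s a b t ^ 2 - W s t ^ 2)
      = (sin (b - a) * qq s a b t) ^ 2 - sin (b - a) ^ 2 * W s t ^ 2 := by ring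
  rw [e4, e3, e0, e1, e2]
  linear_combination sin (b - t) ^ 2 * h3 + sin (t - a) ^ 2 * h4

theorem gram (a b : ℝ) : 0 ≤ W s a * W s b - (cc s ^ 2 * cos a * cos b + sin a * sin b) := by
  have hWa := W_pos h0 h1 a
  have hWb := W_pos h0 h1 b
  have h3 := W_sq' h0 h1 a
  have h4 := W_sq' h0 h1 b
  have h5 : (cc s ^ 2 * cos a * cos b + sin a * sin b) ^ 2 ≤ (W s a * W s b) ^ 2 := by
    rw [mul_pow, h3, h4]
    nlinarith [sq_nonneg (cc s * (cos a * sin b - sin a * cos b))]
  have h6 := abs_le_of_sq_le_sq h5 (by positivity)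
  linarith [(abs_le.1 h6).2]

theorem qq_ge {a b : ℝ} (hab : 0 < sin (b - a)) {t : ℝ} (ht1 : 0 ≤ sin (b - t))
    (ht2 : 0 ≤ sin (t - a)) : W s t ≤ qq s a b t := by
  have hWa := W_pos h0 h1 a
  have hWb := W_pos h0 h1 b
  have hWt := W_pos h0 h1 t
  have e1 := qq_sq h0 h1 hab.ne' t
  have e2 := gram h0 h1 a b
  have e3 : 0 ≤ qq s a b t := by
    unfold qq
    positivity
  have e4 : 0 ≤ sin (b - a) ^ 2 * (qq s a b t ^ 2 - W s t ^ 2) := by
    rw [e1]
    positivity
  have e5 : 0 ≤ qq s a b t ^ 2 - W s t ^ 2 := by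
    by_contra hneg
    push Not at hneg
    have : sin (b - a) ^ 2 * (qq s a b t ^ 2 - W s t ^ 2) < 0 :=
      mul_neg_of_pos_of_neg (by positivity) hneg
    linarith
  exact (pow_le_pow_iff_left₀ hWt.le e3 two_ne_zero).1 (by linarith)

theorem qq_le {a b : ℝ} (hab : 0 < sin (b - a)) {t : ℝ}
    (ht : sin (b - t) * sin (t - a) ≤ 0) : qq s a b t ≤ W s t := by
  have hWt := W_pos h0 h1 t
  have e1 := qq_sq h0 h1 hab.ne' t
  have e2 := gram h0 h1 a b
  have e4 : sin (b - a) ^ 2 * (qq s a b t ^ 2 - W s t ^ 2) ≤ 0 := by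
    rw [e1]
    exact mul_nonpos_of_nonneg_of_nonpos (by positivity) ht
  have e5 : qq s a b t ^ 2 ≤ W s t ^ 2 := by
    by_contra hneg
    push Not at hneg
    have : 0 < sin (b - a) ^ 2 * (qq s a b t ^ 2 - W s t ^ 2) :=
      mul_pos (by positivity) (by linarith)
    linarith
  exact (abs_le.1 (abs_le_of_sq_le_sq e5 hWt.le)).2

theorem qq_le' {a b : ℝ} (hab : 0 < sin (b - a)) {t : ℝ} (ht1 : sin (b - t) ≤ 0)
    (ht2 : sin (t - a) ≤ 0) : qq s a b t ≤ W s t := by
  have hWa := W_pos h0 h1 a
  have hWb := W_pos h0 h1 b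
  have hWt := W_pos h0 h1 t
  have e3 : qq s a b t ≤ 0 := by
    unfold qq
    apply div_nonpos_of_nonpos_of_nonneg _ hab.le
    have := mul_nonpos_of_nonneg_of_nonpos hWa.le ht1
    have := mul_nonpos_of_nonneg_of_nonpos hWb.le ht2
    linarith
  linarith

/-- the multiplier `1 - q / W` -/
def uu (s a b t : ℝ) : ℝ := 1 - qq s a b t / W s t

theorem cont_uu (a b : ℝ) : Continuous (uu s a b) := by
  have h2 := contW h0 h1
  have h3 : ∀ t, W s t ≠ 0 := fun t => (W_pos h0 h1 t).ne'
  unfold uu qq
  fun_prop (disch := assumption)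

omit h0 h1 in
theorem per_uu (a b : ℝ) : Function.Periodic (uu s a b) (2 * π) := by
  intro t
  have e1 : W s (t + 2 * π) = W s t := by
    unfold W
    rw [cos_add_two_pi]
  have e2 : sin (b - (t + 2 * π)) = sin (b - t) := by
    rw [show b - (t + 2 * π) = b - t - 2 * π by ring, sin_sub_two_pi]
  have e3 : sin (t + 2 * π - a) = sin (t - a) := by
    rw [show t + 2 * π - a = t - a + 2 * π by ring, sin_add_two_pi]
  unfold uu qq
  rw [e1, e2, e3]

theorem uu_np {a b : ℝ} (h2 : a < b) (h3 : b < a + π) {t : ℝ} (ht : t ∈ Icc a b) :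
    uu s a b t ≤ 0 := by
  have hWt := W_pos h0 h1 t
  have hab : 0 < sin (b - a) := sin_pos_of_pos_of_lt_pi (by linarith) (by linarith)
  have e1 : W s t ≤ qq s a b t := qq_ge h0 h1 hab
    (sin_nonneg_of_nonneg_of_le_pi (by linarith [ht.2]) (by linarith [ht.1]))
    (sin_nonneg_of_nonneg_of_le_pi (by linarith [ht.1]) (by linarith [ht.2]))
  unfold uu
  rw [sub_nonpos, le_div_iff₀ hWt]
  linarith

theorem uu_nn {a b : ℝ} (h2 : a < b) (h3 : b < a + π) {t : ℝ} (ht : t ∈ Icc b (a + 2 * π)) :
    0 ≤ uu s a b t := by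
  have hWt := W_pos h0 h1 t
  have hab : 0 < sin (b - a) := sin_pos_of_pos_of_lt_pi (by linarith) (by linarith)
  have e1 : qq s a b t ≤ W s t := by
    rcases le_or_gt t (a + π) with h | h
    · apply qq_le h0 h1 hab
      apply mul_nonpos_of_nonpos_of_nonneg
      · apply sin_nonpos_of_nonpos_of_neg_pi_le <;> linarith [ht.1]
      · apply sin_nonneg_of_nonneg_of_le_pi <;> linarith [ht.1]
    · have e2 : sin (t - a) ≤ 0 := by
        rw [show t - a = t - a - 2 * π + 2 * π by ring, sin_add_two_pi]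
        apply sin_nonpos_of_nonpos_of_neg_pi_le <;> linarith [ht.2]
      rcases le_or_gt (sin (b - t)) 0 with h4 | h4
      · exact qq_le' h0 h1 hab h4 e2
      · apply qq_le h0 h1 hab
        exact mul_nonpos_of_nonneg_of_nonpos h4.le e2
  unfold uu
  rw [sub_nonneg, div_le_iff₀ hWt]
  linarith

/-- the negative part of the multiplier on a half circle -/
theorem int_min {a b : ℝ} (h2 : a < b) (h3 : b < a + π) (t0 : ℝ) :
    ∫ t in a..b, uu s a b t ≤ ∫ t in t0..(t0 + π), min (uu s a b t) 0 := by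
  have hpi := pi_pos
  have cu := cont_uu h0 h1 a b
  have cm : Continuous fun t => min (uu s a b t) 0 := cu.min continuous_const
  have hper : Function.Periodic (fun t => min (uu s a b t) 0) (2 * π) := by
    intro t
    simp only [per_uu a b t]
  have e1 : ∫ t in t0..(t0 + 2 * π), min (uu s a b t) 0
      = ∫ t in a..(a + 2 * π), min (uu s a b t) 0 := hper.intervalIntegral_add_eq t0 a
  have e2 : ∫ t in t0..(t0 + 2 * π), min (uu s a b t) 0
      = (∫ t in t0..(t0 + π), min (uu s a b t) 0)
        + ∫ t in (t0 + π)..(t0 + 2 * π), min (uu s a b t) 0 :=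
    (integral_add_adjacent_intervals (cm.intervalIntegrable _ _) (cm.intervalIntegrable _ _)).symm
  have e3 : ∫ t in a..(a + 2 * π), min (uu s a b t) 0
      = (∫ t in a..b, min (uu s a b t) 0) + ∫ t in b..(a + 2 * π), min (uu s a b t) 0 :=
    (integral_add_adjacent_intervals (cm.intervalIntegrable _ _) (cm.intervalIntegrable _ _)).symm
  have e4 : ∫ t in a..b, min (uu s a b t) 0 = ∫ t in a..b, uu s a b t := by
    apply integral_congr
    intro t ht
    rw [uIcc_of_le h2.le] at ht
    exact min_eq_left (uu_np h0 h1 h2 h3 ht)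
  have e5 : ∫ t in b..(a + 2 * π), min (uu s a b t) 0 = 0 := by
    rw [integral_congr (g := fun _ => (0 : ℝ))]
    · simp
    · intro t ht
      rw [uIcc_of_le (by linarith)] at ht
      exact min_eq_right (uu_nn h0 h1 h2 h3 ht)
  have e6 : ∫ t in (t0 + π)..(t0 + 2 * π), min (uu s a b t) 0 ≤ 0 := by
    have := integral_nonneg (μ := volume) (a := t0 + π) (b := t0 + 2 * π)
      (f := fun t => -min (uu s a b t) 0) (by linarith)
      (fun t _ => neg_nonneg.2 (min_le_right _ _))
    rw [intervalIntegral.integral_neg] at this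
    linarith
  linarith

/-! ### the arc with a given chord -/

omit h0 h1 in
/-- the difference `F (m + l / 2) - F (m - l / 2)` takes all values between its extreme values -/
theorem ivt {l y : ℝ} (hy : |y| ≤ 2 * arcsin (s * sin (l / 2))) (m0 : ℝ)
    (hm : cos (m0 + l / 2) = sin (l / 2) ∧ cos (m0 - l / 2) = -sin (l / 2) ∨
      cos (m0 + l / 2) = -sin (l / 2) ∧ cos (m0 - l / 2) = sin (l / 2)) :
    ∃ m ∈ Icc m0 (m0 + π), Fo s (m + l / 2) - Fo s (m - l / 2) = y := by
  have hpi := pi_pos
  have cF := contFo (s := s)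
  have cD : Continuous fun m => Fo s (m + l / 2) - Fo s (m - l / 2) :=
    (cF.comp (by fun_prop)).sub (cF.comp (by fun_prop))
  have e1 : Fo s (m0 + π + l / 2) - Fo s (m0 + π - l / 2)
      = -(Fo s (m0 + l / 2) - Fo s (m0 - l / 2)) := by
    rw [show m0 + π + l / 2 = m0 + l / 2 + π by ring, show m0 + π - l / 2 = m0 - l / 2 + π by ring,
      Fo_pi, Fo_pi]
    ring
  have hy' := abs_le.1 hy
  rcases hm with ⟨ha, hb⟩ | ⟨ha, hb⟩
  · have e2 : Fo s (m0 + l / 2) - Fo s (m0 - l / 2) = 2 * arcsin (s * sin (l / 2)) := by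
      unfold Fo
      rw [ha, hb, mul_neg, arcsin_neg]
      ring
    have := intermediate_value_Icc' (by linarith : m0 ≤ m0 + π) cD.continuousOn
    obtain ⟨m, h5, h6⟩ := this (show y ∈ Icc _ _ from ⟨by simp only [e1, e2]; linarith [hy'.1],
      by simp only [e2]; linarith [hy'.2]⟩)
    exact ⟨m, h5, h6⟩
  · have e2 : Fo s (m0 + l / 2) - Fo s (m0 - l / 2) = -(2 * arcsin (s * sin (l / 2))) := by
      unfold Fo
      rw [ha, hb, mul_neg, arcsin_neg]
      ring
    have := intermediate_value_Icc (by linarith : m0 ≤ m0 + π) cD.continuousOn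
    obtain ⟨m, h5, h6⟩ := this (show y ∈ Icc _ _ from ⟨by simp only [e2]; linarith [hy'.1],
      by simp only [e1, e2]; linarith [hy'.2]⟩)
    exact ⟨m, h5, h6⟩

/-- the cosine of the length of the arc -/
def ka (s t0 : ℝ) : ℝ := (cos (Fo s t0 + et s) - cc s * W s t0) / s ^ 2

theorem ka_le (hs : 0 < s) (t0 : ℝ) : ka s t0 ≤ 1 := by
  have hc := cc_pos h0 h1
  have h2 := W_ge h0 h1 t0
  have h3 := cc_sq h0 h1
  have h4 := cos_le_one (Fo s t0 + et s)
  unfold ka
  rw [div_le_one (by positivity)]
  nlinarith [mul_le_mul_of_nonneg_left h2 hc.le]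

theorem Fo_le (t : ℝ) : Fo s t ≤ arccos (cc s) := by
  have hc := cc_pos h0 h1
  have h3 := cc_sq h0 h1
  have h2 : arccos (cc s) = arcsin s := by
    rw [arccos_eq_arcsin hc.le, h3, show 1 - (1 - s ^ 2) = s ^ 2 by ring, sqrt_sq h0]
  rw [h2]
  unfold Fo
  apply monotone_arcsin
  have := cos_le_one t
  nlinarith

theorem Fo_ge (t : ℝ) : -arccos (cc s) ≤ Fo s t := by
  have h2 := Fo_le h0 h1 (t + π)
  rw [Fo_pi] at h2
  linarith

theorem ka_gt (hs : 0 < s) (t0 : ℝ) : -1 < ka s t0 := by
  have hpi := pi_pos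
  have hc := cc_pos h0 h1
  have h2 := W_ge h0 h1 t0
  have h3 := cc_sq h0 h1
  have hW := W_le h0 h1 t0
  have h4 := et_lt h0 h1 hs
  have h5 := et_pos h0 h1 hs
  have h6 := Fo_le h0 h1 t0
  have h7 := Fo_ge h0 h1 t0
  have hc1 : cc s ≤ 1 := by nlinarith
  have h8 : arccos (cc s) ≤ π / 2 := arccos_le_pi_div_two.2 hc.le
  have h9 : cos (arccos (cc s)) = cc s := cos_arccos (by linarith) hc1
  unfold ka
  rw [lt_div_iff₀ (by positivity)]
  have hX : cc s * W s t0 ≤ cc s := by nlinarith
  rcases le_or_gt 0 (Fo s t0) with hF | hF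
  · have e1 : cos (Fo s t0 + arccos (cc s)) < cos (Fo s t0 + et s) :=
      cos_lt_cos_of_nonneg_of_le_pi (by linarith) (by linarith) (by linarith)
    have e2 : sin (arccos (cc s)) = s := by
      rw [sin_arccos, h3, show 1 - (1 - s ^ 2) = s ^ 2 by ring, sqrt_sq h0]
    rw [cos_add, cosF, sinF h0 h1, h9, e2] at e1
    have e3 : s * cos t0 ≤ s := by
      have := cos_le_one t0
      nlinarith
    nlinarith [mul_le_mul_of_nonneg_right e3 h0]
  · have e1 : cc s ≤ cos (Fo s t0 + et s) := by
      rw [← h9]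
      rw [← cos_abs (Fo s t0 + et s)]
      apply cos_le_cos_of_nonneg_of_le_pi (abs_nonneg _) (by linarith)
      rw [abs_le]
      constructor <;> linarith
    nlinarith

theorem exists_arc (hs : 0 < s) (t0 : ℝ) (hk : ka s t0 < 1) :
    ∃ a b, a < b ∧ b < a + π ∧ Fo s b - Fo s a = -et s - Fo s t0 ∧ La s b - La s a = -La s t0 ∧
      cos (b - a) = ka s t0 := by
  have hpi := pi_pos
  have hc := cc_pos h0 h1
  have h2 := W_ge h0 h1 t0
  have h3 := cc_sq h0 h1
  have hk1 := ka_gt h0 h1 hs t0
  set l := arccos (ka s t0) with hl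
  have hl0 : 0 < l := arccos_pos.2 hk
  have hlpi : l < π := by
    rcases (arccos_le_pi (ka s t0)).lt_or_eq with h | h
    · exact h
    · rw [arccos_eq_pi] at h
      linarith
  have hcl : cos l = ka s t0 := cos_arccos hk1.le hk.le
  have hsl : 0 < sin (l / 2) := sin_pos_of_pos_of_lt_pi (by linarith) (by linarith)
  have h6 := Fo_le h0 h1 t0
  have h7 := Fo_ge h0 h1 t0
  have h4 := et_lt h0 h1 hs
  have h5 := et_pos h0 h1 hs
  have h8 : arccos (cc s) ≤ π / 2 := arccos_le_pi_div_two.2 hc.le
  have hks : s ^ 2 * ka s t0 = cos (Fo s t0 + et s) - cc s * W s t0 := by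
    unfold ka
    field_simp
  -- the size of the chord
  have hy : |-et s - Fo s t0| ≤ 2 * arcsin (s * sin (l / 2)) := by
    have e1 : |-et s - Fo s t0| = |Fo s t0 + et s| := by
      rw [← abs_neg]
      congr 1
      ring
    rw [e1]
    have e2 : sin (|Fo s t0 + et s| / 2) ≤ s * sin (l / 2) := by
      have e3 : sin (|Fo s t0 + et s| / 2) ^ 2 ≤ (s * sin (l / 2)) ^ 2 := by
        have e4 : cos l = 1 - 2 * sin (l / 2) ^ 2 := by
          have := cos_sq' (l / 2)
          have e5 := cos_two_mul (l / 2)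
          rw [show 2 * (l / 2) = l by ring] at e5
          rw [e5, this]
          ring
        have e6 : cos (Fo s t0 + et s) = 1 - 2 * sin (|Fo s t0 + et s| / 2) ^ 2 := by
          have := cos_sq' (|Fo s t0 + et s| / 2)
          have e5 := cos_two_mul (|Fo s t0 + et s| / 2)
          rw [show 2 * (|Fo s t0 + et s| / 2) = |Fo s t0 + et s| by ring, cos_abs] at e5
          rw [e5, this]
          ring
        have e7 := mul_le_mul_of_nonneg_left h2 hc.le
        rw [hcl] at e4
        rw [e4, e6] at hks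
        nlinarith
      exact (pow_le_pow_iff_left₀ (sin_nonneg_of_nonneg_of_le_pi (by positivity)
        (by
          have : |Fo s t0 + et s| ≤ 2 * π := by
            rw [abs_le]
            constructor <;> linarith
          linarith)) (by positivity) two_ne_zero).1 e3
    have e8 : |Fo s t0 + et s| / 2 ≤ arcsin (s * sin (l / 2)) := by
      rw [le_arcsin_iff_sin_le' ⟨by
        have := abs_nonneg (Fo s t0 + et s)
        linarith, by
        have : |Fo s t0 + et s| < π := by
          rw [abs_lt]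
          constructor <;> linarith
        linarith⟩]
      exact e2
    linarith
  -- consequences of the identity
  have hfin : ∀ m, Fo s (m + l / 2) - Fo s (m - l / 2) = -et s - Fo s t0 →
      |La s (m + l / 2) - La s (m - l / 2)| = |La s t0| := by
    intro m hm
    have e1 := ident h0 h1 (m + l / 2) (m - l / 2)
    rw [hm, show m + l / 2 - (m - l / 2) = l by ring, hcl, hks,
      show -et s - Fo s t0 = -(Fo s t0 + et s) by ring, cos_neg] at e1
    have e2 : cosh (La s (m + l / 2) - La s (m - l / 2)) = cosh (La s t0) := by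
      rw [coshL h0 h1 t0, eq_div_iff hc.ne']
      apply mul_left_cancel₀ hc.ne'
      linear_combination e1
    exact le_antisymm (cosh_le_cosh.1 e2.le) (cosh_le_cosh.1 e2.ge)
  have hmono : ∀ x y, sin x ≤ sin y → La s x ≤ La s y := by
    intro x y hxy
    unfold La
    apply arsinh_le_arsinh.2
    gcongr
  have hdiff : ∀ m, sin (m + l / 2) - sin (m - l / 2) = 2 * cos m * sin (l / 2) := by
    intro m
    rw [sin_add, sin_sub]
    ring
  rcases le_or_gt (La s t0) 0 with hL | hL
  · obtain ⟨m, ⟨hm1, hm2⟩, hm3⟩ := ivt hy (-(π / 2)) (Or.inl ⟨by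
      rw [show -(π / 2) + l / 2 = l / 2 - π / 2 by ring, cos_sub_pi_div_two], by
      rw [show -(π / 2) - l / 2 = -(l / 2 + π / 2) by ring, cos_neg, cos_add_pi_div_two]⟩)
    refine ⟨m - l / 2, m + l / 2, by linarith, by linarith, hm3, ?_, by
      rw [show m + l / 2 - (m - l / 2) = l by ring, hcl]⟩
    have e1 := hfin m hm3
    have e2 : 0 ≤ cos m := cos_nonneg_of_neg_pi_div_two_le_of_le hm1 (by linarith)
    have e3 : La s (m - l / 2) ≤ La s (m + l / 2) := by
      apply hmono
      have := hdiff m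
      have : 0 ≤ 2 * cos m * sin (l / 2) := by positivity
      linarith
    rw [abs_of_nonneg (by linarith), abs_of_nonpos hL] at e1
    exact e1
  · obtain ⟨m, ⟨hm1, hm2⟩, hm3⟩ := ivt hy (π / 2) (Or.inr ⟨by
      rw [show π / 2 + l / 2 = l / 2 + π / 2 by ring, cos_add_pi_div_two], by
      rw [cos_pi_div_two_sub]⟩)
    refine ⟨m - l / 2, m + l / 2, by linarith, by linarith, hm3, ?_, by
      rw [show m + l / 2 - (m - l / 2) = l by ring, hcl]⟩
    have e1 := hfin m hm3
    have e2 : cos m ≤ 0 := cos_nonpos_of_pi_div_two_le_of_le hm1 (by linarith)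
    have e3 : La s (m + l / 2) ≤ La s (m - l / 2) := by
      apply hmono
      have := hdiff m
      have : 0 ≤ 2 * (-cos m) * sin (l / 2) := by
        have : 0 ≤ -cos m := by linarith
        positivity
      linarith
    rw [abs_of_nonpos (by linarith), abs_of_pos hL] at e1
    linarith

/-! ### the state -/

variable {f : ℝ → ℝ} (hf : Ef f)

include hf

omit h0 h1 in
theorem deriv_pi (t : ℝ) : deriv f (t + π) = -deriv f t := by
  have e1 : (fun t => f (t + π)) = fun t => -f t := funext fun t => hf.odd t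
  have e2 : deriv (fun t => f (t + π)) t = deriv f (t + π) := deriv_comp_add_const f π t
  rw [← e2, e1]
  exact deriv.neg

omit h0 h1 in
theorem int_df (t0 : ℝ) : ∫ t in t0..(t0 + π), deriv f t = -2 * f t0 := by
  have e1 := (lip_ac hf.lip t0 (t0 + π)).integral_deriv_eq_sub
  rw [e1, hf.odd]
  ring

theorem int_SAdf (hG1 : G1 s 0 f = 0) (t0 : ℝ) :
    s * ∫ t in t0..(t0 + π), SA s t * deriv f t = -(2 * et s) := by
  have e1 := int_fSA h0 h1 hf hG1
  have e2 := int_SA2 h0 h1
  have e3 := half (G := fun t => SA s t * deriv f t)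
    (fun t => by simp only [SA_pi, deriv_pi hf]; ring)
    (fun a b => int_deriv hf.lip (contSA h0 h1) a b) t0
  rw [e1] at e3
  unfold et
  linear_combination s / 2 * e3 - e2 / 2

theorem int_CAdf (hG2 : G2 s 0 f = 0) (t0 : ℝ) :
    ∫ t in t0..(t0 + π), CA s t * deriv f t = 0 := by
  have c1 := contCA h0 h1
  have c2 := contSA h0 h1
  have c3 := contAP h0 h1
  have e1 := ibpd h0 h1 hf (dCA h0 h1) ((c2.mul c3).neg) CA_two_pi
  have e2 : ∫ t in (0 : ℝ)..(2 * π), -(SA s t * AP s t) * (f t - arcsin (s * cos t)) = 0 := by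
    have := zeroS h0 h1 hG2
    rw [← neg_eq_zero, ← intervalIntegral.integral_neg]
    rw [← this]
    congr 1
    funext t
    ring
  rw [e2] at e1
  have e3 : ∫ t in (0 : ℝ)..(2 * π), CA s t * (s * SA s t) = 0 := by
    apply int_odd
    intro t
    unfold CA SA
    rw [W_refl, cos_two_pi_sub, sin_two_pi_sub]
    ring
  have e4 : (fun t => CA s t * (deriv f t + s * SA s t))
      = fun t => CA s t * deriv f t + CA s t * (s * SA s t) := by
    funext t
    ring
  have n1 : IntervalIntegrable (fun t => CA s t * (s * SA s t)) volume 0 (2 * π) :=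
    (c1.mul (c2.const_mul s)).intervalIntegrable _ _
  rw [e4, intervalIntegral.integral_add (int_deriv hf.lip c1 _ _) n1, e3] at e1
  have e5 := half (G := fun t => CA s t * deriv f t)
    (fun t => by simp only [CA_pi, deriv_pi hf]; ring)
    (fun a b => int_deriv hf.lip c1 a b) t0
  linarith

/-- the bathtub inequality -/
theorem key (hs : 0 < s) (hG1 : G1 s 0 f = 0) (hG2 : G2 s 0 f = 0) {a b t0 : ℝ} (h2 : a < b)
    (h3 : b < a + π) (hF : Fo s b - Fo s a = -et s - Fo s t0) (hL : La s b - La s a = -La s t0) :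
    b - a - π / 2 ≤ f t0 := by
  have hpi := pi_pos
  have hc := cc_pos h0 h1
  have hab : 0 < sin (b - a) := sin_pos_of_pos_of_lt_pi (by linarith) (by linarith)
  have cu := cont_uu h0 h1 a b
  have c1 := contCA h0 h1
  have c2 := contSA h0 h1
  set A : ℝ := (W s a * sin b - W s b * sin a) / sin (b - a) with hA
  set B : ℝ := (W s b * cos a - W s a * cos b) / sin (b - a) with hB
  have eu : ∀ t, uu s a b t = 1 - (A / cc s * CA s t + B * SA s t) := fun t => by
    unfold uu
    rw [qq_eq h0 h1 hab.ne' t]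
  have i1 := int_min h0 h1 h2 h3 t0
  -- the pointwise inequality
  have i2 : ∫ t in t0..(t0 + π), min (uu s a b t) 0
      ≤ ∫ t in t0..(t0 + π), (1 - deriv f t) / 2 * uu s a b t := by
    apply integral_mono_on (by linarith) ((cu.min continuous_const).intervalIntegrable _ _)
    · have e1 : (fun t => (1 - deriv f t) / 2 * uu s a b t)
          = fun t => uu s a b t / 2 - (uu s a b t / 2) * deriv f t := by
        funext t
        ring
      rw [e1]
      exact ((cu.div_const 2).intervalIntegrable _ _).sub (int_deriv hf.lip (cu.div_const 2) _ _)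
    · intro t _
      have e1 := abs_le.1 (abs_deriv hf.lip t)
      rcases le_total (uu s a b t) 0 with h | h
      · rw [min_eq_left h]
        nlinarith [e1.1, e1.2]
      · rw [min_eq_right h]
        have : 0 ≤ (1 - deriv f t) / 2 := by linarith [e1.2]
        positivity
  have j0 := int_df hf t0
  have j1 := int_SAdf h0 h1 hf hG1 t0
  have j2 := int_CAdf h0 h1 hf hG2 t0
  have j3 := int_sSA h0 h1 t0 (t0 + π)
  have j4 := int_sCA h0 h1 t0 (t0 + π)
  have j5 := int_sSA h0 h1 a b
  have j6 := int_sCA h0 h1 a b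
  rw [Fo_pi] at j3
  rw [La_pi] at j4
  rw [intervalIntegral.integral_const_mul] at j3 j4 j5 j6
  have k1 : ∫ t in t0..(t0 + π), (1 - deriv f t) / 2 * uu s a b t
      = 1 / 2 * (π - A / cc s * (∫ t in t0..(t0 + π), CA s t) - B * (∫ t in t0..(t0 + π), SA s t)
        - (∫ t in t0..(t0 + π), deriv f t)
        + A / cc s * (∫ t in t0..(t0 + π), CA s t * deriv f t)
        + B * (∫ t in t0..(t0 + π), SA s t * deriv f t)) := by
    have e1 : (fun t => (1 - deriv f t) / 2 * uu s a b t)
        = fun t => 1 / 2 * ((((1 - A / cc s * CA s t) - B * SA s t) - 1 * deriv f t)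
          + A / cc s * (CA s t * deriv f t) + B * (SA s t * deriv f t)) := by
      funext t
      rw [eu]
      ring
    have n1 : IntervalIntegrable (fun t => 1 * deriv f t) volume t0 (t0 + π) :=
      int_deriv hf.lip continuous_const _ _
    have n2 : IntervalIntegrable (fun t => A / cc s * (CA s t * deriv f t)) volume t0 (t0 + π) :=
      (int_deriv hf.lip c1 _ _).const_mul _
    have n3 : IntervalIntegrable (fun t => B * (SA s t * deriv f t)) volume t0 (t0 + π) :=
      (int_deriv hf.lip c2 _ _).const_mul _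
    have n4 : IntervalIntegrable (fun t => (1 : ℝ) - A / cc s * CA s t) volume t0 (t0 + π) :=
      (continuous_const.sub (c1.const_mul _)).intervalIntegrable _ _
    have n5 : IntervalIntegrable (fun t => B * SA s t) volume t0 (t0 + π) :=
      (c2.const_mul _).intervalIntegrable _ _
    have n6 : IntervalIntegrable (fun t => A / cc s * CA s t) volume t0 (t0 + π) :=
      (c1.const_mul _).intervalIntegrable _ _
    rw [e1, intervalIntegral.integral_const_mul, intervalIntegral.integral_add
      (((n4.sub n5).sub n1).add n2) n3, intervalIntegral.integral_add ((n4.sub n5).sub n1) n2,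
      intervalIntegral.integral_sub (n4.sub n5) n1, intervalIntegral.integral_sub n4 n5,
      intervalIntegral.integral_sub intervalIntegrable_const n6,
      intervalIntegral.integral_const_mul, intervalIntegral.integral_const_mul,
      intervalIntegral.integral_const_mul, intervalIntegral.integral_const_mul,
      intervalIntegral.integral_const_mul, intervalIntegral.integral_const]
    simp only [smul_eq_mul, add_sub_cancel_left]
    ring
  have k2 : ∫ t in a..b, uu s a b t
      = (b - a) - A / cc s * (∫ t in a..b, CA s t) - B * (∫ t in a..b, SA s t) := by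
    have e1 : (fun t => uu s a b t) = fun t => (1 - A / cc s * CA s t) - B * SA s t := by
      funext t
      rw [eu]
      ring
    have n4 : IntervalIntegrable (fun t => (1 : ℝ) - A / cc s * CA s t) volume a b :=
      (continuous_const.sub (c1.const_mul _)).intervalIntegrable _ _
    have n5 : IntervalIntegrable (fun t => B * SA s t) volume a b :=
      (c2.const_mul _).intervalIntegrable _ _
    have n6 : IntervalIntegrable (fun t => A / cc s * CA s t) volume a b :=
      (c1.const_mul _).intervalIntegrable _ _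
    rw [e1, intervalIntegral.integral_sub n4 n5, intervalIntegral.integral_sub
      intervalIntegrable_const n6, intervalIntegral.integral_const_mul,
      intervalIntegral.integral_const_mul, intervalIntegral.integral_const]
    simp only [smul_eq_mul]
    ring
  rw [k1, j0, j2] at i2
  rw [k2] at i1
  -- elimination of the integrals
  have l1 : A / cc s * (∫ t in t0..(t0 + π), CA s t) = A / s * (-La s t0 - La s t0) := by
    rw [← j4]
    field_simp
  have l2 : B * (∫ t in t0..(t0 + π), SA s t) = B / s * (Fo s t0 - -Fo s t0) := by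
    rw [← j3]
    field_simp
  have l3 : A / cc s * (∫ t in a..b, CA s t) = A / s * (La s b - La s a) := by
    rw [← j6]
    field_simp
  have l4 : B * (∫ t in a..b, SA s t) = B / s * (Fo s a - Fo s b) := by
    rw [← j5]
    field_simp
  have l5 : B * (∫ t in t0..(t0 + π), SA s t * deriv f t) = B / s * (-(2 * et s)) := by
    rw [← j1]
    field_simp
  rw [l1, l2, l5] at i2
  rw [l3, l4, hL, show Fo s a - Fo s b = et s + Fo s t0 by linarith] at i1
  have i3 := i1.trans i2
  nlinarith [i3]

/-- the lower bound -/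
theorem lower (hs : 0 < s) (hG1 : G1 s 0 f = 0) (hG2 : G2 s 0 f = 0) (t0 : ℝ) :
    cc s * W s t0 - cos (Fo s t0 + et s) ≤ s ^ 2 * sin (f t0) := by
  have hpi := pi_pos
  have hks : s ^ 2 * ka s t0 = cos (Fo s t0 + et s) - cc s * W s t0 := by
    unfold ka
    field_simp
  have hk1 := ka_gt h0 h1 hs t0
  suffices h : -ka s t0 ≤ sin (f t0) by
    have := mul_le_mul_of_nonneg_left h (sq_nonneg s)
    linarith
  rcases (ka_le h0 h1 hs t0).lt_or_eq with hk | hk
  · obtain ⟨a, b, hab, hba, hF, hL, hco⟩ := exists_arc h0 h1 hs t0 hk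
    have e1 := key h0 h1 hf hs hG1 hG2 hab hba hF hL
    have e2 : sin (b - a - π / 2) = -ka s t0 := by
      rw [sin_sub_pi_div_two, hco]
    rw [← e2]
    have e3 := abs_lt.1 (hf.lt t0)
    exact sin_le_sin_of_le_of_le_pi_div_two (by linarith) e3.2.le e1
  · rw [hk]
    exact neg_one_le_sin _

/-- the sharp pointwise bound -/
theorem bd (hs : 0 < s) (hG1 : G1 s 0 f = 0) (hG2 : G2 s 0 f = 0) (t : ℝ) :
    |s ^ 2 * sin (f t) - sin (et s) * (s * cos t)| ≤ (cos (et s) - cc s) * W s t := by
  have e1 := lower h0 h1 hf hs hG1 hG2 t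
  have e2 := lower h0 h1 hf hs hG1 hG2 (t + π)
  rw [hf.odd, Fo_pi, W_pi, sin_neg, cos_add, cos_neg, sin_neg, cosF, sinF h0 h1] at e2
  rw [cos_add, cosF, sinF h0 h1] at e1
  rw [abs_le]
  constructor <;> linarith

end base

end Pool.Agent.FPX.PTB
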