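import Mathlib
import Pool.Agent.FPX.F54Defs
import Pool.Agent.FPX.F54S

/-
STA (helper50): the covariant frame. The boost of the point `(s, 0)` of the Klein disc to the
origin maps a state `f` (odd, 1-Lipschitz, `|f| < π/2`) to a state `gg s f` of the same kind; the new
angle of the direction `t` is `th s f t`, and `gt s f t = gg s f (th s f t)`.
In null coordinates `θ + g - π/2 = M (t + f - π/2)`, `θ - g + π/2 = M (t - f + π/2)`, where `M` is
the lift of the Moebius map of the circle, `e^(i M) = (e^(iv) - b) / (1 - b e^(iv))`, `b = s / (1 + c)`.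
-/

open MeasureTheory Set Filter Topology

noncomputable section

namespace Pool.Agent.FPX.STA

open Real
open Pool.Agent.FPX.UMP (Ef)
open Pool.Agent.FPX.F54 (cc W CA SA AP cc_sq cc_pos W_pos W_sq')

/-- half angle parameter `s / (1 + c)` -/
def bb (s : ℝ) : ℝ := s / (1 + cc s)

/-- the boost on null directions (lift to the line) -/
def MM (s v : ℝ) : ℝ := v + 2 * arctan (bb s * sin v / (1 - bb s * cos v))

/-- new angle of the direction `t` -/
def th (s : ℝ) (f : ℝ → ℝ) (t : ℝ) : ℝ :=
  (MM s (t + f t - π / 2) + MM s (t - f t + π / 2)) / 2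

/-- new value of the state at the direction `t` -/
def gt (s : ℝ) (f : ℝ → ℝ) (t : ℝ) : ℝ :=
  π / 2 + (MM s (t + f t - π / 2) - MM s (t - f t + π / 2)) / 2

/-- old direction as a function of the new angle -/
def ti (s : ℝ) (f : ℝ → ℝ) : ℝ → ℝ := Function.invFun (th s f)

/-- the boosted state -/
def gg (s : ℝ) (f : ℝ → ℝ) (θ : ℝ) : ℝ := gt s f (ti s f θ)

/-- `|e^(iθ) + s sin g|²` -/
def R2 (s θ g : ℝ) : ℝ := 1 + 2 * s * cos θ * sin g + s ^ 2 * sin g ^ 2

/-- cosine of the visual angle in the new coordinates -/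
def Ca (s θ g : ℝ) : ℝ := (cos θ + s * sin g) / √(R2 s θ g)

/-- sine of the visual angle in the new coordinates -/
def Sa (s θ g : ℝ) : ℝ := sin θ / √(R2 s θ g)

/-- `f - arcsin p` in the new coordinates -/
def De (s θ g : ℝ) : ℝ :=
  arctan ((sin g + s * cos θ) / (cc s * cos g)) - arctan (s / cc s * Ca s θ g)

theorem alg0 {b C S d E : ℝ} (hd : 0 < d) (e1 : E = 1 - 2 * b * C + b ^ 2)
    (e2 : d = 1 - b * C) (e3 : S ^ 2 + C ^ 2 = 1) : 1 + (b * S / d) ^ 2 = E / d ^ 2 := by
  field_simp
  rw [e1, e2]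
  linear_combination b ^ 2 * e3

theorem alg1 {b C S d E : ℝ} (hd : 0 < d) (hE : 0 < E) (e1 : E = 1 - 2 * b * C + b ^ 2)
    (e2 : d = 1 - b * C) (e3 : S ^ 2 + C ^ 2 = 1) :
    1 + 2 * (1 / (E / d ^ 2) * ((b * C * d - b * S * (b * S)) / d ^ 2)) = (1 - b ^ 2) / E := by
  field_simp
  rw [e1, e2]
  linear_combination (-2 * b ^ 2) * e3

theorem alg2 {b C S d E : ℝ} (hd : 0 < d) (hE : 0 < E) (e1 : E = 1 - 2 * b * C + b ^ 2)
    (e2 : d = 1 - b * C) (e3 : S ^ 2 + C ^ 2 = 1) :
    C * ((2 - E / d ^ 2) / (E / d ^ 2)) - S * (2 * (b * S / d) / (E / d ^ 2))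
      = (C * (1 + b ^ 2) - 2 * b) / E := by
  field_simp
  rw [e1, e2]
  linear_combination (-2 * b * (1 - b * C)) * e3

theorem alg3 {b C S d E : ℝ} (hd : 0 < d) (hE : 0 < E) (e1 : E = 1 - 2 * b * C + b ^ 2)
    (e2 : d = 1 - b * C) :
    S * ((2 - E / d ^ 2) / (E / d ^ 2)) + C * (2 * (b * S / d) / (E / d ^ 2))
      = (S * (1 - b ^ 2)) / E := by
  field_simp
  rw [e1, e2]
  ring

section base

variable {s : ℝ} (h0 : 0 ≤ s) (h1 : s < 1)

include h0 h1

theorem bb_sq : bb s ^ 2 * (1 + cc s) = 1 - cc s := by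
  have hc := cc_pos h0 h1
  have h2 := cc_sq h0 h1
  unfold bb
  field_simp
  linarith

theorem bb_mul : bb s * (1 + cc s) = s := by
  have hc := cc_pos h0 h1
  unfold bb
  field_simp

theorem bb_nonneg : 0 ≤ bb s := by
  have hc := cc_pos h0 h1
  unfold bb
  positivity

theorem bb_lt : bb s < 1 := by
  have hc := cc_pos h0 h1
  have := bb_nonneg h0 h1
  unfold bb
  rw [div_lt_one (by linarith)]
  linarith

theorem den_pos (v : ℝ) : 0 < 1 - bb s * cos v := by
  have h2 := bb_nonneg h0 h1
  have h3 := bb_lt h0 h1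
  have h4 := cos_le_one v
  have := mul_le_mul_of_nonneg_left h4 h2
  linarith

theorem one_sub_pos (v : ℝ) : 0 < 1 - s * cos v := by
  have h4 := cos_le_one v
  have := mul_le_mul_of_nonneg_left h4 h0
  linarith

/-- `1 - 2 b cos v + b² = (1 + b²) (1 - s cos v)` -/
theorem den_eq (v : ℝ) : (1 - 2 * bb s * cos v + bb s ^ 2) * (1 + cc s) = 2 * (1 - s * cos v) := by
  have h2 := bb_sq h0 h1
  have h3 := bb_mul h0 h1
  linear_combination h2 - 2 * cos v * h3

theorem one_sub_bb : (1 - bb s ^ 2) * (1 + cc s) = 2 * cc s := by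
  have h2 := bb_sq h0 h1
  linear_combination -h2

theorem dMM (v : ℝ) : HasDerivAt (MM s) (cc s / (1 - s * cos v)) v := by
  have hd := den_pos h0 h1 v
  have hp := one_sub_pos h0 h1 v
  have hc := cc_pos h0 h1
  have e1 : HasDerivAt (fun v => bb s * sin v) (bb s * cos v) v := (hasDerivAt_sin v).const_mul _
  have e2 : HasDerivAt (fun v => 1 - bb s * cos v) (bb s * sin v) v := by
    have := ((hasDerivAt_cos v).const_mul (bb s)).const_sub 1
    convert! this using 1
    ring
  have e3 := ((e1.div e2 hd.ne').arctan.const_mul 2)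
  have e4 := (hasDerivAt_id v).add e3
  convert! e4 using 1
  simp only [Pi.div_apply]
  have h5 := den_eq h0 h1 v
  have h6 := one_sub_bb h0 h1
  have h7 : 0 < 1 - 2 * bb s * cos v + bb s ^ 2 := by nlinarith
  have h8 := alg0 (b := bb s) (C := cos v) (S := sin v) hd rfl rfl (sin_sq_add_cos_sq v)
  rw [h8]
  have h9 : cc s / (1 - s * cos v) = (1 - bb s ^ 2) / (1 - 2 * bb s * cos v + bb s ^ 2) := by
    rw [div_eq_div_iff hp.ne' h7.ne']
    have h10 : 0 < 1 + cc s := by linarith
    have : (cc s * (1 - 2 * bb s * cos v + bb s ^ 2) - (1 - bb s ^ 2) * (1 - s * cos v)) * (1 + cc s) = 0 := by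
      linear_combination cc s * h5 - (1 - s * cos v) * h6
    rcases mul_eq_zero.1 this with h | h
    · linarith
    · linarith
  rw [h9]
  exact (alg1 (b := bb s) (C := cos v) (S := sin v) hd h7 rfl rfl (sin_sq_add_cos_sq v)).symm

theorem contMM : Continuous (MM s) := by
  rw [continuous_iff_continuousAt]
  exact fun v => (dMM h0 h1 v).continuousAt

omit h0 h1 in
theorem MM_two_pi (v : ℝ) : MM s (v + 2 * π) = MM s v + 2 * π := by
  unfold MM
  rw [sin_add_two_pi, cos_add_two_pi]
  ring

theorem cosMM (v : ℝ) : cos (MM s v) = (cos v - s) / (1 - s * cos v) := by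
  have hd := den_pos h0 h1 v
  have hp := one_sub_pos h0 h1 v
  have hc := cc_pos h0 h1
  set u := bb s * sin v / (1 - bb s * cos v) with hu
  have h1u : 0 < 1 + u ^ 2 := by positivity
  have e1 : cos (2 * arctan u) = (1 - u ^ 2) / (1 + u ^ 2) := by
    rw [cos_two_mul, cos_sq_arctan]
    field_simp
    ring
  have e2 : sin (2 * arctan u) = 2 * u / (1 + u ^ 2) := by
    rw [sin_two_mul, sin_arctan, cos_arctan]
    have h2 : √(1 + u ^ 2) ^ 2 = 1 + u ^ 2 := sq_sqrt h1u.le
    have h3 : 0 < √(1 + u ^ 2) := sqrt_pos.2 h1u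
    field_simp
    rw [h2]
  unfold MM
  rw [cos_add, ← hu, e1, e2]
  have h5 := den_eq h0 h1 v
  have h6 := one_sub_bb h0 h1
  have h7 : 0 < 1 - 2 * bb s * cos v + bb s ^ 2 := by nlinarith
  have h8 : 1 + u ^ 2 = (1 - 2 * bb s * cos v + bb s ^ 2) / (1 - bb s * cos v) ^ 2 :=
    alg0 (b := bb s) (C := cos v) (S := sin v) hd rfl rfl (sin_sq_add_cos_sq v)
  have h9 : cos v * ((1 - u ^ 2) / (1 + u ^ 2)) - sin v * (2 * u / (1 + u ^ 2))
      = (cos v * (1 + bb s ^ 2) - 2 * bb s) / (1 - 2 * bb s * cos v + bb s ^ 2) := by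
    have h10 : 1 - u ^ 2 = 2 - (1 + u ^ 2) := by ring
    rw [h10, h8, hu]
    exact alg2 hd h7 rfl rfl (sin_sq_add_cos_sq v)
  rw [h9, div_eq_div_iff h7.ne' hp.ne']
  have h11 : (1 + bb s ^ 2) * (1 + cc s) = 2 := by
    linear_combination bb_sq h0 h1
  have h12 := bb_mul h0 h1
  have h13 : 0 < 1 + cc s := by linarith
  have : ((cos v * (1 + bb s ^ 2) - 2 * bb s) * (1 - s * cos v)
      - (cos v - s) * (1 - 2 * bb s * cos v + bb s ^ 2)) * (1 + cc s) = 0 := by
    linear_combination (1 - s * cos v) * (cos v * h11 - 2 * h12) - (cos v - s) * h5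
  rcases mul_eq_zero.1 this with h | h
  · linarith
  · linarith

theorem sinMM (v : ℝ) : sin (MM s v) = cc s * sin v / (1 - s * cos v) := by
  have hd := den_pos h0 h1 v
  have hp := one_sub_pos h0 h1 v
  have hc := cc_pos h0 h1
  set u := bb s * sin v / (1 - bb s * cos v) with hu
  have h1u : 0 < 1 + u ^ 2 := by positivity
  have e1 : cos (2 * arctan u) = (1 - u ^ 2) / (1 + u ^ 2) := by
    rw [cos_two_mul, cos_sq_arctan]
    field_simp
    ring
  have e2 : sin (2 * arctan u) = 2 * u / (1 + u ^ 2) := by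
    rw [sin_two_mul, sin_arctan, cos_arctan]
    have h2 : √(1 + u ^ 2) ^ 2 = 1 + u ^ 2 := sq_sqrt h1u.le
    have h3 : 0 < √(1 + u ^ 2) := sqrt_pos.2 h1u
    field_simp
    rw [h2]
  unfold MM
  rw [sin_add, ← hu, e1, e2]
  have h5 := den_eq h0 h1 v
  have h6 := one_sub_bb h0 h1
  have h7 : 0 < 1 - 2 * bb s * cos v + bb s ^ 2 := by nlinarith
  have h8 : 1 + u ^ 2 = (1 - 2 * bb s * cos v + bb s ^ 2) / (1 - bb s * cos v) ^ 2 :=
    alg0 (b := bb s) (C := cos v) (S := sin v) hd rfl rfl (sin_sq_add_cos_sq v)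
  have h9 : sin v * ((1 - u ^ 2) / (1 + u ^ 2)) + cos v * (2 * u / (1 + u ^ 2))
      = (sin v * (1 - bb s ^ 2)) / (1 - 2 * bb s * cos v + bb s ^ 2) := by
    have h10 : 1 - u ^ 2 = 2 - (1 + u ^ 2) := by ring
    rw [h10, h8, hu]
    exact alg3 hd h7 rfl rfl
  rw [h9, div_eq_div_iff h7.ne' hp.ne']
  have h13 : 0 < 1 + cc s := by linarith
  have : ((sin v * (1 - bb s ^ 2)) * (1 - s * cos v)
      - (cc s * sin v) * (1 - 2 * bb s * cos v + bb s ^ 2)) * (1 + cc s) = 0 := by
    linear_combination sin v * (1 - s * cos v) * h6 - cc s * sin v * h5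
  rcases mul_eq_zero.1 this with h | h
  · linarith
  · linarith

/-- lower bound of the derivative of `M` -/
theorem MM_lower {a b : ℝ} (hab : a ≤ b) : cc s / (1 + s) * (b - a) ≤ MM s b - MM s a := by
  have hc := cc_pos h0 h1
  have hd : Differentiable ℝ (MM s) := fun v => (dMM h0 h1 v).differentiableAt
  refine Convex.mul_sub_le_image_sub_of_le_deriv convex_univ hd.continuous.continuousOn
    hd.differentiableOn (fun v _ => ?_) a (mem_univ a) b (mem_univ b) hab
  rw [(dMM h0 h1 v).deriv]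
  have hp := one_sub_pos h0 h1 v
  apply div_le_div_of_nonneg_left hc.le hp
  have := neg_one_le_cos v
  nlinarith

/-- upper bound of the derivative of `M` -/
theorem MM_upper {a b : ℝ} (hab : a ≤ b) : MM s b - MM s a ≤ (1 + s) / cc s * (b - a) := by
  have hc := cc_pos h0 h1
  have h2 := cc_sq h0 h1
  have hd : Differentiable ℝ (MM s) := fun v => (dMM h0 h1 v).differentiableAt
  refine Convex.image_sub_le_mul_sub_of_deriv_le convex_univ hd.continuous.continuousOn
    hd.differentiableOn (fun v _ => ?_) a (mem_univ a) b (mem_univ b) hab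
  rw [(dMM h0 h1 v).deriv]
  have hp := one_sub_pos h0 h1 v
  rw [div_le_div_iff₀ hp hc]
  have h3 := cos_le_one v
  have h4 : cc s * cc s = (1 + s) * (1 - s) := by
    rw [← sq, h2]
    ring
  rw [h4]
  apply mul_le_mul_of_nonneg_left _ (by linarith)
  nlinarith

theorem MM_mono {a b : ℝ} (hab : a ≤ b) : MM s a ≤ MM s b := by
  have hc := cc_pos h0 h1
  have h2 := MM_lower h0 h1 hab
  have h3 : 0 ≤ cc s / (1 + s) * (b - a) := mul_nonneg (by positivity) (by linarith)
  linarith

theorem MM_strict {a b : ℝ} (hab : a < b) : MM s a < MM s b := by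
  have hc := cc_pos h0 h1
  have h2 := MM_lower h0 h1 hab.le
  have h3 : 0 < cc s / (1 + s) * (b - a) := mul_pos (by positivity) (by linarith)
  linarith

end base

section map

variable {s : ℝ} (h0 : 0 ≤ s) (h1 : s < 1) {f : ℝ → ℝ} (hf : Ef f)

theorem fabs (hf : Ef f) (a b : ℝ) : |f a - f b| ≤ |a - b| := by
  have := hf.lip.dist_le_mul a b
  simpa [Real.dist_eq] using this

theorem th_pi (hf : Ef f) (t : ℝ) : th s f (t + π) = th s f t + π := by
  unfold th
  rw [hf.odd t]
  have e1 : t + π + -f t - π / 2 = t - f t + π / 2 := by ring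
  have e2 : t + π - -f t + π / 2 = (t + f t - π / 2) + 2 * π := by ring
  rw [e1, e2, MM_two_pi]
  ring

theorem gt_pi (hf : Ef f) (t : ℝ) : gt s f (t + π) = -gt s f t := by
  unfold gt
  rw [hf.odd t]
  have e1 : t + π + -f t - π / 2 = t - f t + π / 2 := by ring
  have e2 : t + π - -f t + π / 2 = (t + f t - π / 2) + 2 * π := by ring
  rw [e1, e2, MM_two_pi]
  ring

theorem inc_p (hf : Ef f) {a b : ℝ} (hab : a ≤ b) : a + f a ≤ b + f b := by
  have := fabs hf b a
  rw [abs_of_nonneg (by linarith : (0 : ℝ) ≤ b - a)] at this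
  have := (abs_le.1 this).1
  linarith

theorem inc_m (hf : Ef f) {a b : ℝ} (hab : a ≤ b) : a - f a ≤ b - f b := by
  have := fabs hf b a
  rw [abs_of_nonneg (by linarith : (0 : ℝ) ≤ b - a)] at this
  have := (abs_le.1 this).2
  linarith

include h0 h1

theorem cont_th (hf : Ef f) : Continuous (th s f) := by
  have h2 := contMM h0 h1
  have h3 := hf.lip.continuous
  unfold th
  fun_prop

theorem cont_gt (hf : Ef f) : Continuous (gt s f) := by
  have h2 := contMM h0 h1
  have h3 := hf.lip.continuous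
  unfold gt
  fun_prop

theorem th_lower (hf : Ef f) {a b : ℝ} (hab : a ≤ b) :
    cc s / (1 + s) * (b - a) ≤ th s f b - th s f a := by
  have h2 := MM_lower h0 h1 (a := a + f a - π / 2) (b := b + f b - π / 2) (by linarith [inc_p hf hab])
  have h3 := MM_lower h0 h1 (a := a - f a + π / 2) (b := b - f b + π / 2) (by linarith [inc_m hf hab])
  unfold th
  linarith

theorem th_upper (hf : Ef f) {a b : ℝ} (hab : a ≤ b) :
    th s f b - th s f a ≤ (1 + s) / cc s * (b - a) := by
  have h2 := MM_upper h0 h1 (a := a + f a - π / 2) (b := b + f b - π / 2) (by linarith [inc_p hf hab])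
  have h3 := MM_upper h0 h1 (a := a - f a + π / 2) (b := b - f b + π / 2) (by linarith [inc_m hf hab])
  unfold th
  linarith

theorem th_strict (hf : Ef f) : StrictMono (th s f) := by
  intro a b hab
  have hc := cc_pos h0 h1
  have h2 := th_lower h0 h1 hf hab.le
  have h3 : 0 < cc s / (1 + s) * (b - a) := mul_pos (by positivity) (by linarith)
  linarith

/-- the new state is 1-Lipschitz in the new angle -/
theorem gt_le (hf : Ef f) {a b : ℝ} (hab : a ≤ b) :
    |gt s f b - gt s f a| ≤ th s f b - th s f a := by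
  have h2 := MM_mono h0 h1 (a := a + f a - π / 2) (b := b + f b - π / 2) (by linarith [inc_p hf hab])
  have h3 := MM_mono h0 h1 (a := a - f a + π / 2) (b := b - f b + π / 2) (by linarith [inc_m hf hab])
  unfold th gt
  rw [abs_le]
  constructor <;> linarith

theorem gt_lt (hf : Ef f) (t : ℝ) : |gt s f t| < π / 2 := by
  have hb := abs_lt.1 (hf.lt t)
  have h2 := MM_strict h0 h1 (a := t + f t - π / 2) (b := t - f t + π / 2) (by linarith)
  have h3 := MM_strict h0 h1 (a := t - f t + π / 2) (b := (t + f t - π / 2) + 2 * π) (by linarith)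
  rw [MM_two_pi] at h3
  unfold gt
  rw [abs_lt]
  constructor <;> linarith

theorem th_surj (hf : Ef f) : Function.Surjective (th s f) := by
  have hc := cc_pos h0 h1
  have hk : 0 < cc s / (1 + s) := by positivity
  refine (cont_th h0 h1 hf).surjective ?_ ?_
  · refine tendsto_atTop_mono' atTop ?_ (tendsto_atTop_add_const_right atTop (th s f 0)
      (tendsto_id.const_mul_atTop hk))
    filter_upwards [eventually_ge_atTop (0 : ℝ)] with t ht
    have := th_lower h0 h1 hf ht
    simp only [id]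
    linarith
  · refine tendsto_atBot_mono' atBot ?_ (tendsto_atBot_add_const_right atBot (th s f 0)
      (tendsto_id.const_mul_atBot hk))
    filter_upwards [eventually_le_atBot (0 : ℝ)] with t ht
    have := th_lower h0 h1 hf ht
    simp only [id]
    linarith

theorem ti_th (hf : Ef f) (t : ℝ) : ti s f (th s f t) = t :=
  Function.leftInverse_invFun (th_strict h0 h1 hf).injective t

theorem th_ti (hf : Ef f) (θ : ℝ) : th s f (ti s f θ) = θ :=
  Function.rightInverse_invFun (th_surj h0 h1 hf) θ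

theorem gg_th (hf : Ef f) (t : ℝ) : gg s f (th s f t) = gt s f t := by
  unfold gg
  rw [ti_th h0 h1 hf]

theorem ti_pi (hf : Ef f) (θ : ℝ) : ti s f (θ + π) = ti s f θ + π := by
  apply (th_strict h0 h1 hf).injective
  rw [th_ti h0 h1 hf, th_pi hf, th_ti h0 h1 hf]

/-- the boosted state is a state -/
theorem gg_Ef (hf : Ef f) : Ef (gg s f) := by
  refine ⟨?_, ?_, ?_⟩
  · refine LipschitzWith.of_dist_le_mul fun a b => ?_
    rw [NNReal.coe_one, one_mul]
    have key : ∀ a b : ℝ, a ≤ b → |gg s f b - gg s f a| ≤ b - a := by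
      intro a b hab
      have h2 : ti s f a ≤ ti s f b := by
        by_contra hcon
        push Not at hcon
        have := th_strict h0 h1 hf hcon
        rw [th_ti h0 h1 hf, th_ti h0 h1 hf] at this
        linarith
      have h3 := gt_le h0 h1 hf h2
      rw [th_ti h0 h1 hf, th_ti h0 h1 hf] at h3
      exact h3
    rcases le_total a b with hab | hab
    · rw [dist_comm (gg s f a), Real.dist_eq, dist_comm a, Real.dist_eq, abs_of_nonneg (by linarith : (0 : ℝ) ≤ b - a)]
      exact key a b hab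
    · rw [Real.dist_eq, Real.dist_eq, abs_of_nonneg (by linarith : (0 : ℝ) ≤ a - b)]
      exact key b a hab
  · intro θ
    unfold gg
    rw [ti_pi h0 h1 hf, gt_pi hf]
  · intro θ
    exact gt_lt h0 h1 hf _

end map

section rel

variable {s : ℝ} (h0 : 0 ≤ s) (h1 : s < 1) {f : ℝ → ℝ}

include h0 h1

theorem E1_pos (a : ℝ) : 0 < 1 - s * sin a := by
  have h4 := sin_le_one a
  have := mul_le_mul_of_nonneg_left h4 h0
  linarith

theorem E2_pos (a : ℝ) : 0 < 1 + s * sin a := by
  have h4 := neg_one_le_sin a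
  have := mul_le_mul_of_nonneg_left h4 h0
  linarith

theorem rel1 (f : ℝ → ℝ) (t : ℝ) :
    sin (th s f t + gt s f t) * (1 - s * sin (t + f t)) = sin (t + f t) - s := by
  have e : th s f t + gt s f t = MM s (t + f t - π / 2) + π / 2 := by
    unfold th gt
    ring
  rw [e, sin_add_pi_div_two, cosMM h0 h1, cos_sub_pi_div_two]
  have := E1_pos h0 h1 (t + f t)
  rw [div_mul_cancel₀ _ this.ne']

theorem rel2 (f : ℝ → ℝ) (t : ℝ) :
    cos (th s f t + gt s f t) * (1 - s * sin (t + f t)) = cc s * cos (t + f t) := by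
  have e : th s f t + gt s f t = MM s (t + f t - π / 2) + π / 2 := by
    unfold th gt
    ring
  rw [e, cos_add_pi_div_two, sinMM h0 h1, cos_sub_pi_div_two, sin_sub_pi_div_two]
  have := E1_pos h0 h1 (t + f t)
  field_simp

theorem rel3 (f : ℝ → ℝ) (t : ℝ) :
    sin (th s f t - gt s f t) * (1 + s * sin (t - f t)) = sin (t - f t) + s := by
  have e : th s f t - gt s f t = MM s (t - f t + π / 2) - π / 2 := by
    unfold th gt
    ring
  rw [e, sin_sub_pi_div_two, cosMM h0 h1, cos_add_pi_div_two]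
  have := E2_pos h0 h1 (t - f t)
  have e2 : 1 - s * -sin (t - f t) = 1 + s * sin (t - f t) := by ring
  rw [e2, neg_mul, div_mul_cancel₀ _ this.ne']
  ring

theorem rel4 (f : ℝ → ℝ) (t : ℝ) :
    cos (th s f t - gt s f t) * (1 + s * sin (t - f t)) = cc s * cos (t - f t) := by
  have e : th s f t - gt s f t = MM s (t - f t + π / 2) - π / 2 := by
    unfold th gt
    ring
  rw [e, cos_sub_pi_div_two, sinMM h0 h1, cos_add_pi_div_two, sin_add_pi_div_two]
  have := E2_pos h0 h1 (t - f t)
  have e2 : 1 - s * -sin (t - f t) = 1 + s * sin (t - f t) := by ring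
  rw [e2]
  field_simp

theorem cg_sq (f : ℝ → ℝ) (t : ℝ) :
    cos (gt s f t) ^ 2 * ((1 - s * sin (t + f t)) * (1 + s * sin (t - f t)))
      = cc s ^ 2 * cos (f t) ^ 2 := by
  have a1 := rel1 h0 h1 f t
  have a2 := rel2 h0 h1 f t
  have a3 := rel3 h0 h1 f t
  have a4 := rel4 h0 h1 f t
  have e1 : cos (2 * gt s f t) = cos (th s f t + gt s f t) * cos (th s f t - gt s f t)
      + sin (th s f t + gt s f t) * sin (th s f t - gt s f t) := by
    rw [← cos_sub]
    congr 1
    ring
  have e2 : cos (2 * f t) = cos (t + f t) * cos (t - f t) + sin (t + f t) * sin (t - f t) := by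
    rw [← cos_sub]
    congr 1
    ring
  rw [cos_two_mul] at e1 e2
  have hc := cc_sq h0 h1
  set E1 := 1 - s * sin (t + f t) with hE1
  set E2 := 1 + s * sin (t - f t) with hE2
  have e3 : 2 * (cos (gt s f t) ^ 2 * (E1 * E2))
      = E1 * E2 + (cos (th s f t + gt s f t) * E1) * (cos (th s f t - gt s f t) * E2)
        + (sin (th s f t + gt s f t) * E1) * (sin (th s f t - gt s f t) * E2) := by
    linear_combination (E1 * E2) * e1
  rw [a1, a2, a3, a4, hE1, hE2] at e3
  have e4 : 2 * (cos (gt s f t) ^ 2 * (E1 * E2)) = 2 * (cc s ^ 2 * cos (f t) ^ 2) := by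
    rw [hE1, hE2, e3]
    linear_combination (-(1 + sin (t + f t) * sin (t - f t))) * hc - cc s ^ 2 * e2
  linarith

theorem sc_g (f : ℝ → ℝ) (t : ℝ) :
    sin (gt s f t) * cos (gt s f t) * ((1 - s * sin (t + f t)) * (1 + s * sin (t - f t)))
      = cc s * cos (f t) * (sin (f t) - s * cos t) := by
  have a1 := rel1 h0 h1 f t
  have a2 := rel2 h0 h1 f t
  have a3 := rel3 h0 h1 f t
  have a4 := rel4 h0 h1 f t
  have e1 : sin (2 * gt s f t) = sin (th s f t + gt s f t) * cos (th s f t - gt s f t)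
      - cos (th s f t + gt s f t) * sin (th s f t - gt s f t) := by
    rw [← sin_sub]
    congr 1
    ring
  have e2 : sin (2 * f t) = sin (t + f t) * cos (t - f t) - cos (t + f t) * sin (t - f t) := by
    rw [← sin_sub]
    congr 1
    ring
  have e5 : cos (t + f t) + cos (t - f t) = 2 * cos t * cos (f t) := by
    rw [cos_add, cos_sub]
    ring
  rw [sin_two_mul] at e1 e2
  set E1 := 1 - s * sin (t + f t) with hE1
  set E2 := 1 + s * sin (t - f t) with hE2
  have e3 : 2 * (sin (gt s f t) * cos (gt s f t) * (E1 * E2))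
      = (sin (th s f t + gt s f t) * E1) * (cos (th s f t - gt s f t) * E2)
        - (cos (th s f t + gt s f t) * E1) * (sin (th s f t - gt s f t) * E2) := by
    linear_combination (E1 * E2) * e1
  rw [a1, a2, a3, a4] at e3
  have e4 : 2 * (sin (gt s f t) * cos (gt s f t) * (E1 * E2))
      = 2 * (cc s * cos (f t) * (sin (f t) - s * cos t)) := by
    rw [e3]
    linear_combination (-cc s) * e2 - cc s * s * e5
  linarith

theorem st_cg (f : ℝ → ℝ) (t : ℝ) :
    sin (th s f t) * cos (gt s f t) * ((1 - s * sin (t + f t)) * (1 + s * sin (t - f t)))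
      = cc s ^ 2 * sin t * cos (f t) := by
  have a1 := rel1 h0 h1 f t
  have a3 := rel3 h0 h1 f t
  have e1 : 2 * (sin (th s f t) * cos (gt s f t))
      = sin (th s f t + gt s f t) + sin (th s f t - gt s f t) := by
    rw [sin_add, sin_sub]
    ring
  have e5 : sin (t + f t) + sin (t - f t) = 2 * sin t * cos (f t) := by
    rw [sin_add, sin_sub]
    ring
  have hc := cc_sq h0 h1
  set E1 := 1 - s * sin (t + f t) with hE1
  set E2 := 1 + s * sin (t - f t) with hE2
  have e3 : 2 * (sin (th s f t) * cos (gt s f t) * (E1 * E2))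
      = (sin (th s f t + gt s f t) * E1) * E2 + (sin (th s f t - gt s f t) * E2) * E1 := by
    linear_combination (E1 * E2) * e1
  rw [a1, a3, hE1, hE2] at e3
  have e4 : 2 * (sin (th s f t) * cos (gt s f t) * (E1 * E2))
      = 2 * (cc s ^ 2 * sin t * cos (f t)) := by
    rw [hE1, hE2, e3]
    linear_combination (-(sin (t + f t) + sin (t - f t))) * hc + cc s ^ 2 * e5
  linarith

theorem ct_cg (f : ℝ → ℝ) (t : ℝ) :
    cos (th s f t) * cos (gt s f t) * ((1 - s * sin (t + f t)) * (1 + s * sin (t - f t)))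
      = cc s * cos (f t) * (cos t - s * sin (f t)) := by
  have a2 := rel2 h0 h1 f t
  have a4 := rel4 h0 h1 f t
  have e1 : 2 * (cos (th s f t) * cos (gt s f t))
      = cos (th s f t + gt s f t) + cos (th s f t - gt s f t) := by
    rw [cos_add, cos_sub]
    ring
  have e5 : cos (t + f t) + cos (t - f t) = 2 * cos t * cos (f t) := by
    rw [cos_add, cos_sub]
    ring
  have e2 : 2 * sin (f t) * cos (f t)
      = sin (t + f t) * cos (t - f t) - cos (t + f t) * sin (t - f t) := by
    rw [← sin_sub, ← sin_two_mul]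
    congr 1
    ring
  set E1 := 1 - s * sin (t + f t) with hE1
  set E2 := 1 + s * sin (t - f t) with hE2
  have e3 : 2 * (cos (th s f t) * cos (gt s f t) * (E1 * E2))
      = (cos (th s f t + gt s f t) * E1) * E2 + (cos (th s f t - gt s f t) * E2) * E1 := by
    linear_combination (E1 * E2) * e1
  rw [a2, a4, hE1, hE2] at e3
  have e4 : 2 * (cos (th s f t) * cos (gt s f t) * (E1 * E2))
      = 2 * (cc s * cos (f t) * (cos t - s * sin (f t))) := by
    rw [hE1, hE2, e3]
    linear_combination cc s * e5 + cc s * s * e2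
  linarith

omit h0 h1 in
theorem cf_pos (hf : Ef f) (t : ℝ) : 0 < cos (f t) := by
  have := abs_lt.1 (hf.lt t)
  exact cos_pos_of_mem_Ioo ⟨by linarith, by linarith⟩

theorem cg_pos (hf : Ef f) (t : ℝ) : 0 < cos (gt s f t) := by
  have := abs_lt.1 (gt_lt h0 h1 hf t)
  exact cos_pos_of_mem_Ioo ⟨by linarith, by linarith⟩

/-- `sin θ / cos g = sin t / cos f` -/
theorem st_eq (hf : Ef f) (t : ℝ) : sin (th s f t) * cos (f t) = sin t * cos (gt s f t) := by
  have hc := cc_pos h0 h1
  have hcf := cf_pos hf t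
  have hcg := cg_pos h0 h1 hf t
  have e1 := cg_sq h0 h1 f t
  have e2 := st_cg h0 h1 f t
  have : (sin (th s f t) * cos (f t) - sin t * cos (gt s f t)) * (cc s ^ 2 * cos (f t)) = 0 := by
    linear_combination (-sin (th s f t)) * e1 + cos (gt s f t) * e2
  rcases mul_eq_zero.1 this with h | h
  · linarith
  · have : 0 < cc s ^ 2 * cos (f t) := by positivity
    linarith

/-- `cos θ / cos g = (cos t - s sin f) / (c cos f)` -/
theorem ct_eq (hf : Ef f) (t : ℝ) :
    cc s * cos (th s f t) * cos (f t) = (cos t - s * sin (f t)) * cos (gt s f t) := by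
  have hc := cc_pos h0 h1
  have hcf := cf_pos hf t
  have e1 := cg_sq h0 h1 f t
  have e2 := ct_cg h0 h1 f t
  have : (cc s * cos (th s f t) * cos (f t) - (cos t - s * sin (f t)) * cos (gt s f t))
      * (cc s * cos (f t)) = 0 := by
    linear_combination (-cos (th s f t)) * e1 + cos (gt s f t) * e2
  rcases mul_eq_zero.1 this with h | h
  · linarith
  · have : 0 < cc s * cos (f t) := by positivity
    linarith

/-- `tan g = (sin f - s cos t) / (c cos f)` -/
theorem sg_eq (hf : Ef f) (t : ℝ) :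
    cc s * sin (gt s f t) * cos (f t) = (sin (f t) - s * cos t) * cos (gt s f t) := by
  have hc := cc_pos h0 h1
  have hcf := cf_pos hf t
  have e1 := cg_sq h0 h1 f t
  have e2 := sc_g h0 h1 f t
  have : (cc s * sin (gt s f t) * cos (f t) - (sin (f t) - s * cos t) * cos (gt s f t))
      * (cc s * cos (f t)) = 0 := by
    linear_combination (-sin (gt s f t)) * e1 + cos (gt s f t) * e2
  rcases mul_eq_zero.1 this with h | h
  · linarith
  · have : 0 < cc s * cos (f t) := by positivity
    linarith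

/-- `cos t / cos f = (cos θ + s sin g) / (c cos g)` -/
theorem ct_inv (hf : Ef f) (t : ℝ) :
    (cos (th s f t) + s * sin (gt s f t)) * cos (f t) = cc s * cos t * cos (gt s f t) := by
  have hc := cc_pos h0 h1
  have hc2 := cc_sq h0 h1
  have e1 := ct_eq h0 h1 hf t
  have e2 := sg_eq h0 h1 hf t
  have : ((cos (th s f t) + s * sin (gt s f t)) * cos (f t) - cc s * cos t * cos (gt s f t))
      * cc s = 0 := by
    linear_combination e1 + s * e2 - cos t * cos (gt s f t) * hc2
  rcases mul_eq_zero.1 this with h | h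
  · linarith
  · linarith

/-- `tan f = (sin g + s cos θ) / (c cos g)` -/
theorem sf_inv (hf : Ef f) (t : ℝ) :
    (sin (gt s f t) + s * cos (th s f t)) * cos (f t) = cc s * sin (f t) * cos (gt s f t) := by
  have hc := cc_pos h0 h1
  have hc2 := cc_sq h0 h1
  have e1 := ct_eq h0 h1 hf t
  have e2 := sg_eq h0 h1 hf t
  have : ((sin (gt s f t) + s * cos (th s f t)) * cos (f t) - cc s * sin (f t) * cos (gt s f t))
      * cc s = 0 := by
    linear_combination s * e1 + e2 - sin (f t) * cos (gt s f t) * hc2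
  rcases mul_eq_zero.1 this with h | h
  · linarith
  · linarith

omit h0 h1 in
theorem R2_eq (θ g : ℝ) : R2 s θ g = (cos θ + s * sin g) ^ 2 + sin θ ^ 2 := by
  have := sin_sq_add_cos_sq θ
  unfold R2
  linear_combination -this

theorem R2_pos (θ g : ℝ) : 0 < R2 s θ g := by
  have h2 : 0 ≤ (s * sin g + cos θ) ^ 2 := sq_nonneg _
  have h3 := sin_sq_add_cos_sq θ
  have h4 : (s * sin g) ^ 2 ≤ s ^ 2 := by
    have := sin_sq_le_one g
    rw [mul_pow]
    nlinarith [sq_nonneg s]
  have h5 : (s * sin g) ^ 2 < 1 := by nlinarith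
  have h6 : R2 s θ g = 1 + 2 * (s * sin g) * cos θ + (s * sin g) ^ 2 := by
    unfold R2
    ring
  rw [h6]
  have h7 : |s * sin g| < 1 := by
    rw [← sq_lt_one_iff_abs_lt_one]
    exact h5
  have h8 := abs_lt.1 h7
  have h9 := cos_le_one θ
  have h10 := neg_one_le_cos θ
  nlinarith [sq_nonneg (1 + s * sin g), sq_nonneg (1 - s * sin g),
    mul_nonneg (by linarith : (0 : ℝ) ≤ 1 + cos θ) (sq_nonneg (1 + s * sin g)),
    mul_nonneg (by linarith : (0 : ℝ) ≤ 1 - cos θ) (sq_nonneg (1 - s * sin g)),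
    mul_pos (by linarith : (0 : ℝ) < 1 - s * sin g) (by linarith : (0 : ℝ) < 1 - s * sin g),
    mul_pos (by linarith : (0 : ℝ) < 1 + s * sin g) (by linarith : (0 : ℝ) < 1 + s * sin g)]

/-- `cos² g (1 - p²) = cos² f R²` -/
theorem WR (hf : Ef f) (t : ℝ) :
    cos (gt s f t) ^ 2 * W s t ^ 2 = cos (f t) ^ 2 * R2 s (th s f t) (gt s f t) := by
  rw [W_sq' h0 h1, R2_eq]
  have e1 := ct_inv h0 h1 hf t
  have e2 := st_eq h0 h1 hf t
  have e3 : cos (f t) ^ 2 * ((cos (th s f t) + s * sin (gt s f t)) ^ 2 + sin (th s f t) ^ 2)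
      = ((cos (th s f t) + s * sin (gt s f t)) * cos (f t)) ^ 2
        + (sin (th s f t) * cos (f t)) ^ 2 := by ring
  rw [e3, e1, e2]
  ring

theorem WR' (hf : Ef f) (t : ℝ) :
    cos (gt s f t) * W s t = cos (f t) * √(R2 s (th s f t) (gt s f t)) := by
  have h2 := WR h0 h1 hf t
  have h3 := R2_pos h0 h1 (th s f t) (gt s f t)
  have hcf := cf_pos hf t
  have hcg := cg_pos h0 h1 hf t
  have hW := W_pos h0 h1 t
  have h4 : (cos (gt s f t) * W s t) ^ 2 = (cos (f t) * √(R2 s (th s f t) (gt s f t))) ^ 2 := by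
    rw [mul_pow, mul_pow, sq_sqrt h3.le, h2]
  exact (pow_left_inj₀ (by positivity) (by positivity) two_ne_zero).1 h4

/-- the cosine of the visual angle -/
theorem CA_eq (hf : Ef f) (t : ℝ) : CA s t = Ca s (th s f t) (gt s f t) := by
  have h2 := WR' h0 h1 hf t
  have h3 := ct_inv h0 h1 hf t
  have hR := sqrt_pos.2 (R2_pos h0 h1 (th s f t) (gt s f t))
  have hW := W_pos h0 h1 t
  have hcf := cf_pos hf t
  have hcg := cg_pos h0 h1 hf t
  unfold CA Ca
  rw [div_eq_div_iff hW.ne' hR.ne']
  have : (cc s * cos t * √(R2 s (th s f t) (gt s f t))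
      - (cos (th s f t) + s * sin (gt s f t)) * W s t) * (cos (gt s f t) * cos (f t)) = 0 := by
    linear_combination (-cc s * cos t * cos (gt s f t)) * h2 - (W s t * cos (gt s f t)) * h3
  rcases mul_eq_zero.1 this with h | h
  · linarith
  · have : 0 < cos (gt s f t) * cos (f t) := by positivity
    linarith

/-- the sine of the visual angle -/
theorem SA_eq (hf : Ef f) (t : ℝ) : SA s t = Sa s (th s f t) (gt s f t) := by
  have h2 := WR' h0 h1 hf t
  have h3 := st_eq h0 h1 hf t
  have hR := sqrt_pos.2 (R2_pos h0 h1 (th s f t) (gt s f t))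
  have hW := W_pos h0 h1 t
  have hcf := cf_pos hf t
  have hcg := cg_pos h0 h1 hf t
  unfold SA Sa
  rw [div_eq_div_iff hW.ne' hR.ne']
  have : (sin t * √(R2 s (th s f t) (gt s f t)) - sin (th s f t) * W s t)
      * (cos (gt s f t) * cos (f t)) = 0 := by
    linear_combination (-sin t * cos (gt s f t)) * h2 - (W s t * cos (gt s f t)) * h3
  rcases mul_eq_zero.1 this with h | h
  · linarith
  · have : 0 < cos (gt s f t) * cos (f t) := by positivity
    linarith

/-- `f - arcsin p` in the new coordinates -/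
theorem De_eq (hf : Ef f) (t : ℝ) :
    f t - arcsin (s * cos t) = De s (th s f t) (gt s f t) := by
  have h3 := sf_inv h0 h1 hf t
  have hcf := cf_pos hf t
  have hcg := cg_pos h0 h1 hf t
  have hc := cc_pos h0 h1
  have hW := W_pos h0 h1 t
  have hl := abs_lt.1 (hf.lt t)
  have e1 : (sin (gt s f t) + s * cos (th s f t)) / (cc s * cos (gt s f t)) = tan (f t) := by
    rw [tan_eq_sin_div_cos, div_eq_div_iff (by positivity) hcf.ne']
    linear_combination h3
  have e2 : s / cc s * Ca s (th s f t) (gt s f t) = s * cos t / W s t := by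
    rw [← CA_eq h0 h1 hf]
    unfold CA
    field_simp
  unfold De
  rw [e1, arctan_tan (by linarith) (by linarith), e2]
  congr 1
  have hp := F54.in_pos h0 h1 t
  rw [arcsin_eq_arctan ⟨by nlinarith, by nlinarith⟩]
  rfl

end rel

end Pool.Agent.FPX.STA
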