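import Mathlib
import Pool.Agent.FPX.PTB
import Pool.Agent.FPX.STA

/-
PTC (helper90): the sharp pointwise bound of PTB in the covariant frame of STA:
`|sin g + ν (cos θ + s sin g)| ≤ κ √(R²)`, `ν = (s² - sin η) / (s c²)`, `κ = (cos η - c) / (s² c)`,
and its consequence `(s² + 2 s / ν - κ² s² / ν²) sin² g ≤ 1`.
-/

open MeasureTheory Set Filter Topology

noncomputable section

namespace Pool.Agent.FPX.PTB

open Real
open Pool.Agent.FPX.UMP (Ef)
open Pool.Agent.FPX.F54 (cc W CA SA AP G1 G2 cc_sq cc_pos W_pos W_sq')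
open Pool.Agent.FPX.STA

/-- `ν` -/
def nup (s : ℝ) : ℝ := (s ^ 2 - sin (et s)) / (s * cc s ^ 2)

/-- `κ` -/
def kap (s : ℝ) : ℝ := (cos (et s) - cc s) / (s ^ 2 * cc s)

variable {s : ℝ} (h0 : 0 ≤ s) (h1 : s < 1)

include h0 h1

theorem kap_pos (hs : 0 < s) : 0 < kap s := by
  have hc := cc_pos h0 h1
  have h2 := cos_et h0 h1 hs
  unfold kap
  apply div_pos (by linarith) (by positivity)

variable {f : ℝ → ℝ} (hf : Ef f)

include hf

theorem bdt (hs : 0 < s) (hG1 : G1 s 0 f = 0) (hG2 : G2 s 0 f = 0) (t : ℝ) :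
    |sin (gt s f t) + nup s * (cos (th s f t) + s * sin (gt s f t))|
      ≤ kap s * √(R2 s (th s f t) (gt s f t)) := by
  have hc := cc_pos h0 h1
  have hcf := cf_pos hf t
  have hcg := cg_pos h0 h1 hf t
  have e1 := bd h0 h1 hf hs hG1 hG2 t
  have e2 := WR' h0 h1 hf t
  have e3 := ct_inv h0 h1 hf t
  have e4 := sg_eq h0 h1 hf t
  set g := gt s f t with hg
  set θ := th s f t with hθ
  have e5 : (s ^ 2 * sin (f t) - sin (et s) * (s * cos t)) * cos g
      = s ^ 2 * cc s * cos (f t) * (sin g + nup s * (cos θ + s * sin g)) := by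
    unfold nup
    field_simp
    linear_combination (-(s * cc s)) * e4 - (s ^ 2 - sin (et s)) * e3
  have e6 : (cos (et s) - cc s) * W s t * cos g
      = s ^ 2 * cc s * cos (f t) * (kap s * √(R2 s θ g)) := by
    unfold kap
    field_simp
    linear_combination (cos (et s) - cc s) * e2
  have e7 : |(s ^ 2 * sin (f t) - sin (et s) * (s * cos t)) * cos g|
      ≤ (cos (et s) - cc s) * W s t * cos g := by
    rw [abs_mul, abs_of_pos hcg]
    exact mul_le_mul_of_nonneg_right e1 hcg.le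
  rw [e5, e6, abs_mul, abs_of_pos (by positivity)] at e7
  exact le_of_mul_le_mul_left e7 (by positivity)

/-- **the sharp pointwise bound in the covariant frame** -/
theorem bdg (hs : 0 < s) (hG1 : G1 s 0 f = 0) (hG2 : G2 s 0 f = 0) (θ : ℝ) :
    |sin (gg s f θ) + nup s * (cos θ + s * sin (gg s f θ))|
      ≤ kap s * √(R2 s θ (gg s f θ)) := by
  have e1 := bdt h0 h1 hf hs hG1 hG2 (ti s f θ)
  rw [th_ti h0 h1 hf] at e1
  exact e1

omit hf in
/-- elimination of the angle -/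
theorem elim (hs : 0 < s) (hnu : 0 < nup s) {X C : ℝ}
    (h : (X + nup s * (C + s * X)) ^ 2 ≤ kap s ^ 2 * (1 + 2 * s * C * X + s ^ 2 * X ^ 2)) :
    (s ^ 2 + 2 * s / nup s - kap s ^ 2 * s ^ 2 / nup s ^ 2) * X ^ 2 ≤ 1 := by
  have hk := kap_pos h0 h1 hs
  set n := nup s with hn
  set k := kap s with hk'
  have e1 : 0 ≤ n ^ 2 * (k ^ 2 * (1 + 2 * s * C * X + s ^ 2 * X ^ 2)
      - (X + n * (C + s * X)) ^ 2) + (n ^ 2 * C - (k ^ 2 * s - (1 + s * n) * n) * X) ^ 2 := by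
    have : 0 ≤ n ^ 2 * (k ^ 2 * (1 + 2 * s * C * X + s ^ 2 * X ^ 2)
      - (X + n * (C + s * X)) ^ 2) := mul_nonneg (sq_nonneg _) (by linarith)
    positivity
  have e2 : n ^ 2 * (k ^ 2 * (1 + 2 * s * C * X + s ^ 2 * X ^ 2)
      - (X + n * (C + s * X)) ^ 2) + (n ^ 2 * C - (k ^ 2 * s - (1 + s * n) * n) * X) ^ 2
      = n ^ 2 * k ^ 2 * (1 - (s ^ 2 + 2 * s / n - k ^ 2 * s ^ 2 / n ^ 2) * X ^ 2) := by
    field_simp
    ring
  rw [e2] at e1
  have e3 : 0 < n ^ 2 * k ^ 2 := by positivity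
  have e4 := nonneg_of_mul_nonneg_right e1 e3
  linarith

/-- the uniform bound of `|sin g|` -/
theorem sup_g (hs : 0 < s) (hnu : 0 < nup s) (hG1 : G1 s 0 f = 0) (hG2 : G2 s 0 f = 0) (θ : ℝ) :
    (s ^ 2 + 2 * s / nup s - kap s ^ 2 * s ^ 2 / nup s ^ 2) * sin (gg s f θ) ^ 2 ≤ 1 := by
  have e1 := bdg h0 h1 hf hs hG1 hG2 θ
  have hk := kap_pos h0 h1 hs
  have e2 := R2_pos h0 h1 θ (gg s f θ)
  apply elim h0 h1 hs hnu (C := cos θ)
  have e3 : (kap s * √(R2 s θ (gg s f θ))) ^ 2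
      = kap s ^ 2 * (1 + 2 * s * cos θ * sin (gg s f θ) + s ^ 2 * sin (gg s f θ) ^ 2) := by
    rw [mul_pow, sq_sqrt e2.le]
    rfl
  rw [← e3]
  exact sq_le_sq' (by linarith [(abs_le.1 e1).1]) (abs_le.1 e1).2

end Pool.Agent.FPX.PTB
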