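import Mathlib
import Pool.Agent.FPX.PTC
import Pool.Agent.H18.Col.Trig

/-
PTN (helper90): numerical bounds of `ν` and `κ` of PTC, for all latitudes, and the uniform
consequences `|sin g| ≤ 0.53` and `|sin g + 0.2338 s (cos θ + s sin g)| ≤ 0.571 R`.
-/

open MeasureTheory Set Filter Topology

noncomputable section

namespace Pool.Agent.FPX.PTB

open Real
open Pool.Agent.FPX.UMP (Ef)
open Pool.Agent.FPX.F54 (cc W CA SA AP G1 G2 cc_sq cc_pos W_pos W_sq')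
open Pool.Agent.FPX.STA
open Pool.Agent.H18.Col (nonneg_of_deriv cos_le_four sin_le_five cos_ge_six)

theorem sin_ge_seven {x : ℝ} (hx : 0 ≤ x) :
    x - x ^ 3 / 6 + x ^ 5 / 120 - x ^ 7 / 5040 ≤ sin x := by
  have := nonneg_of_deriv (f := fun x => sin x - (x - x ^ 3 / 6 + x ^ 5 / 120 - x ^ 7 / 5040))
    (f' := fun x => cos x - (1 - x ^ 2 / 2 + x ^ 4 / 24 - x ^ 6 / 720)) (fun x => by
      have h1 := (hasDerivAt_id x).sub ((hasDerivAt_pow 3 x).div_const 6)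
      have h2 := (hasDerivAt_pow 5 x).div_const 120
      have h4 := (hasDerivAt_pow 7 x).div_const 5040
      have h3 := (Real.hasDerivAt_sin x).sub ((h1.add h2).sub h4)
      exact h3.congr_deriv (by push_cast; ring)) (by simp)
      (fun x _ => by have := cos_ge_six x; linarith) hx
  linarith

theorem cos_le_eight {x : ℝ} (hx : 0 ≤ x) :
    cos x ≤ 1 - x ^ 2 / 2 + x ^ 4 / 24 - x ^ 6 / 720 + x ^ 8 / 40320 := by
  have := nonneg_of_deriv
    (f := fun x => 1 - x ^ 2 / 2 + x ^ 4 / 24 - x ^ 6 / 720 + x ^ 8 / 40320 - cos x)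
    (f' := fun x => sin x - (x - x ^ 3 / 6 + x ^ 5 / 120 - x ^ 7 / 5040)) (fun x => by
      have h1 := ((hasDerivAt_pow 2 x).div_const 2).const_sub 1
      have h2 := (hasDerivAt_pow 4 x).div_const 24
      have h4 := (hasDerivAt_pow 6 x).div_const 720
      have h5 := (hasDerivAt_pow 8 x).div_const 40320
      have h3 := (((h1.add h2).sub h4).add h5).sub (Real.hasDerivAt_cos x)
      exact h3.congr_deriv (by push_cast; ring)) (by simp)
      (fun x hx => by have := sin_ge_seven hx; linarith) hx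
  linarith

/-- numerical bounds of `π² / 4` -/
theorem Abd : 2.46739 < (π / 2) ^ 2 ∧ (π / 2) ^ 2 < 2.46741 := by
  have h1 := pi_gt_d6
  have h2 := pi_lt_d6
  constructor <;> nlinarith

theorem A2bd : 6.08801 < ((π / 2) ^ 2) ^ 2 ∧ ((π / 2) ^ 2) ^ 2 < 6.08812 := by
  have h1 := Abd
  constructor <;> nlinarith [h1.1, h1.2]

theorem A3bd : 15.0214 < ((π / 2) ^ 2) ^ 3 ∧ ((π / 2) ^ 2) ^ 3 < 15.0220 := by
  have h1 := Abd
  have h2 := A2bd
  have e : ((π / 2) ^ 2) ^ 3 = ((π / 2) ^ 2) ^ 2 * (π / 2) ^ 2 := by ring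
  rw [e]
  constructor <;> nlinarith [h1.1, h1.2, h2.1, h2.2]

theorem A4bd : ((π / 2) ^ 2) ^ 4 < 37.067 := by
  have h1 := Abd
  have h2 := A3bd
  have e : ((π / 2) ^ 2) ^ 4 = ((π / 2) ^ 2) ^ 3 * (π / 2) ^ 2 := by ring
  rw [e]
  nlinarith [h1.1, h1.2, h2.1, h2.2]

/-- upper bound of `ν` -/
theorem nU {c : ℝ} (h0 : 0 ≤ c) (h1 : c ≤ 1) :
    1 - c ^ 2 - cos (π / 2 * c) ≤ 0.2338 * c ^ 2 * (1 - c ^ 2) := by
  obtain ⟨a1, a2⟩ := Abd
  obtain ⟨b1, b2⟩ := A2bd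
  obtain ⟨d1, d2⟩ := A3bd
  rcases le_total c 0.94 with h | h
  · have e1 := cos_ge_six (π / 2 * c)
    have hv : c ^ 2 ≤ 0.8836 := by nlinarith
    have e2 : 1 - (π / 2 * c) ^ 2 / 2 + (π / 2 * c) ^ 4 / 24 - (π / 2 * c) ^ 6 / 720
        = 1 - (π / 2) ^ 2 * c ^ 2 / 2 + ((π / 2) ^ 2) ^ 2 * (c ^ 2) ^ 2 / 24
          - ((π / 2) ^ 2) ^ 3 * (c ^ 2) ^ 3 / 720 := by ring
    rw [e2] at e1
    set v := c ^ 2 with hv'
    have hv0 : 0 ≤ v := by positivity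
    have m1 : (π / 2) ^ 2 * v ≤ 2.46741 * v := by nlinarith
    have m2 : 6.08801 * v ^ 2 ≤ ((π / 2) ^ 2) ^ 2 * v ^ 2 :=
      mul_le_mul_of_nonneg_right b1.le (by positivity)
    have m3 : ((π / 2) ^ 2) ^ 3 * v ^ 3 ≤ 15.0220 * v ^ 3 :=
      mul_le_mul_of_nonneg_right d2.le (by positivity)
    have key : 0 ≤ v * ((1.2338 - 2.46741 / 2) + (6.08801 / 24 - 0.2338) * v
        - 15.0220 / 720 * v ^ 2) := by
      apply mul_nonneg hv0
      nlinarith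
    nlinarith
  · have hη : 0 ≤ π / 2 - π / 2 * c := by nlinarith [pi_pos]
    have e1 := sin_ge_sub_cube hη
    rw [sin_pi_div_two_sub] at e1
    have e2 : π / 2 - π / 2 * c - (π / 2 - π / 2 * c) ^ 3 / 6
        = (π / 2) * (1 - c) * (1 - (π / 2) ^ 2 * (1 - c) ^ 2 / 6) := by ring
    rw [e2] at e1
    have e3 : 0.9985 ≤ 1 - (π / 2) ^ 2 * (1 - c) ^ 2 / 6 := by
      have : (1 - c) ^ 2 ≤ 0.0036 := by nlinarith
      nlinarith [sq_nonneg (1 - c)]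
    have h3 := pi_gt_d6
    have e4 : 1.5707 * 0.9985 * (1 - c) ≤ cos (π / 2 * c) := by
      refine le_trans ?_ e1
      have : 1.5707 * 0.9985 ≤ π / 2 * (1 - (π / 2) ^ 2 * (1 - c) ^ 2 / 6) := by nlinarith
      nlinarith
    have e5 : 0 ≤ (1 - c) * (1.5707 * 0.9985 - (1 + c) * (1 - 0.2338 * c ^ 2)) := by
      apply mul_nonneg (by linarith)
      nlinarith [sq_nonneg c]
    nlinarith

theorem polA {c : ℝ} (h : 0.9 ≤ c) (h1 : c ≤ 1) :
    0 ≤ (1 + c) * (1 - (0.2336 - 0.021 * c ^ 2) * c ^ 2) - 1.5708 * (1 - 0.41 * (1 - c) ^ 2) := by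
  obtain ⟨d, hd⟩ : ∃ d, d = 1 - c := ⟨_, rfl⟩
  have hc : c = 1 - d := by linarith
  have hd0 : 0 ≤ d := by linarith
  have hd1 : d ≤ 0.1 := by linarith
  have e : (1 + c) * (1 - (0.2336 - 0.021 * c ^ 2) * c ^ 2) - 1.5708 * (1 - 0.41 * (1 - c) ^ 2)
      = 0.004 - 0.021 * d + 0.045628 * d ^ 2 - 0.0604 * d ^ 3 + 0.126 * d ^ 4
        - 0.021 * d ^ 5 := by
    rw [hc]
    ring
  rw [e]
  have k2 : 0 ≤ d ^ 2 := by positivity
  have k4 : 0 ≤ d ^ 4 := by positivity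
  have k3 : d ^ 3 ≤ 0.001 := (pow_le_pow_left₀ hd0 hd1 3).trans (by norm_num)
  have k5 : d ^ 5 ≤ 0.001 := (pow_le_pow_left₀ hd0 hd1 5).trans (by norm_num)
  linarith

theorem polB {c : ℝ} (h : 0.82 ≤ c) (h1 : c ≤ 1) :
    0 ≤ 0.3372 * c ^ 2 * (1 + c) - 0.5707965 + 1.22 * c * (1 - c) := by
  obtain ⟨d, hd⟩ : ∃ d, d = 1 - c := ⟨_, rfl⟩
  have hc : c = 1 - d := by linarith
  have hd0 : 0 ≤ d := by linarith
  have hd1 : d ≤ 0.18 := by linarith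
  have e : 0.3372 * c ^ 2 * (1 + c) - 0.5707965 + 1.22 * c * (1 - c)
      = 0.1036035 - 0.466 * d + 0.1288 * d ^ 2 - 0.3372 * d ^ 3 := by
    rw [hc]
    ring
  rw [e]
  have k2 : 0 ≤ d ^ 2 := by positivity
  have k3 : d ^ 3 ≤ 0.006 := (pow_le_pow_left₀ hd0 hd1 3).trans (by norm_num)
  linarith

/-- lower bound of `ν` -/
theorem nL {c : ℝ} (h0 : 0 ≤ c) (h1 : c ≤ 1) :
    (0.2336 - 0.021 * c ^ 2) * c ^ 2 * (1 - c ^ 2) ≤ 1 - c ^ 2 - cos (π / 2 * c) := by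
  obtain ⟨a1, a2⟩ := Abd
  obtain ⟨b1, b2⟩ := A2bd
  obtain ⟨d1, d2⟩ := A3bd
  have f1 := A4bd
  have hpi := pi_pos
  rcases le_total c 0.9 with h | h
  · have e1 := cos_le_eight (x := π / 2 * c) (by positivity)
    have hv : c ^ 2 ≤ 0.81 := by nlinarith
    have e2 : 1 - (π / 2 * c) ^ 2 / 2 + (π / 2 * c) ^ 4 / 24 - (π / 2 * c) ^ 6 / 720
          + (π / 2 * c) ^ 8 / 40320
        = 1 - (π / 2) ^ 2 * c ^ 2 / 2 + ((π / 2) ^ 2) ^ 2 * (c ^ 2) ^ 2 / 24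
          - ((π / 2) ^ 2) ^ 3 * (c ^ 2) ^ 3 / 720 + ((π / 2) ^ 2) ^ 4 * (c ^ 2) ^ 4 / 40320 := by
      ring
    rw [e2] at e1
    set v := c ^ 2 with hv'
    have hv0 : 0 ≤ v := by positivity
    have m1 : 2.46739 * v ≤ (π / 2) ^ 2 * v := by nlinarith
    have m2 : ((π / 2) ^ 2) ^ 2 * v ^ 2 ≤ 6.08812 * v ^ 2 :=
      mul_le_mul_of_nonneg_right b2.le (by positivity)
    have m3 : 15.0214 * v ^ 3 ≤ ((π / 2) ^ 2) ^ 3 * v ^ 3 :=
      mul_le_mul_of_nonneg_right d1.le (by positivity)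
    have m4 : ((π / 2) ^ 2) ^ 4 * v ^ 4 ≤ 37.067 * v ^ 4 :=
      mul_le_mul_of_nonneg_right f1.le (by positivity)
    have key : 0 ≤ v * ((2.46739 / 2 - 1.2336) + (0.2336 + 0.021 - 6.08812 / 24) * v
        + (15.0214 / 720 - 0.021) * v ^ 2 - 37.067 / 40320 * v ^ 3) := by
      apply mul_nonneg hv0
      have k1 : v ^ 2 ≤ 0.81 * v := by nlinarith
      have k2 : v ^ 3 ≤ 0.6561 * v := by nlinarith [mul_nonneg hv0 (sq_nonneg v)]
      nlinarith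
    nlinarith
  · have hη : 0 ≤ π / 2 - π / 2 * c := by nlinarith [pi_pos]
    have e1 := sin_le_five hη
    rw [sin_pi_div_two_sub] at e1
    have e2 : π / 2 - π / 2 * c - (π / 2 - π / 2 * c) ^ 3 / 6 + (π / 2 - π / 2 * c) ^ 5 / 120
        = (π / 2) * (1 - c) * (1 - (π / 2) ^ 2 * (1 - c) ^ 2 / 6
          + ((π / 2) ^ 2) ^ 2 * (1 - c) ^ 4 / 120) := by ring
    rw [e2] at e1
    have h3 := pi_lt_d6
    have q0 : (1 - c) ^ 2 ≤ 0.01 := by nlinarith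
    have q1 : (1 - c) ^ 4 ≤ 0.01 * (1 - c) ^ 2 := by nlinarith [sq_nonneg (1 - c)]
    have e3 : 1 - (π / 2) ^ 2 * (1 - c) ^ 2 / 6 + ((π / 2) ^ 2) ^ 2 * (1 - c) ^ 4 / 120
        ≤ 1 - 0.41 * (1 - c) ^ 2 := by
      have w1 : 2.46739 * (1 - c) ^ 2 ≤ (π / 2) ^ 2 * (1 - c) ^ 2 :=
        mul_le_mul_of_nonneg_right a1.le (sq_nonneg _)
      have w2 : ((π / 2) ^ 2) ^ 2 * (1 - c) ^ 4 ≤ 6.08812 * (1 - c) ^ 4 :=
        mul_le_mul_of_nonneg_right b2.le (by positivity)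
      nlinarith [sq_nonneg (1 - c)]
    have e4 : cos (π / 2 * c) ≤ 1.5708 * (1 - c) * (1 - 0.41 * (1 - c) ^ 2) := by
      refine e1.trans ?_
      have w3 : 0 ≤ 1 - 0.41 * (1 - c) ^ 2 := by nlinarith
      have w4 : π / 2 * (1 - c) ≤ 1.5708 * (1 - c) := by nlinarith
      have w5 : 0 ≤ π / 2 * (1 - c) := by
        have : 0 ≤ 1 - c := by linarith
        positivity
      calc _ ≤ π / 2 * (1 - c) * (1 - 0.41 * (1 - c) ^ 2) := mul_le_mul_of_nonneg_left e3 w5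
        _ ≤ _ := mul_le_mul_of_nonneg_right w4 w3
    have e5 : 0 ≤ (1 - c) * ((1 + c) * (1 - (0.2336 - 0.021 * c ^ 2) * c ^ 2)
        - 1.5708 * (1 - 0.41 * (1 - c) ^ 2)) :=
      mul_nonneg (by linarith) (polA h h1)
    have e6 : (1 - c) * ((1 + c) * (1 - (0.2336 - 0.021 * c ^ 2) * c ^ 2)
        - 1.5708 * (1 - 0.41 * (1 - c) ^ 2))
      = 1 - c ^ 2 - (0.2336 - 0.021 * c ^ 2) * c ^ 2 * (1 - c ^ 2)
        - 1.5708 * (1 - c) * (1 - 0.41 * (1 - c) ^ 2) := by ring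
    rw [e6] at e5
    linarith

/-- upper bound of `κ` -/
theorem kU {c : ℝ} (h0 : 0 ≤ c) (h1 : c ≤ 1) :
    sin (π / 2 * c) - c ≤ (0.571 - 0.06 * c ^ 2) * c * (1 - c ^ 2) := by
  obtain ⟨a1, a2⟩ := Abd
  obtain ⟨b1, b2⟩ := A2bd
  have hpi := pi_pos
  have p1 := pi_gt_d6
  have p2 := pi_lt_d6
  rcases le_total c 0.86 with h | h
  · have e1 := sin_le_five (x := π / 2 * c) (by positivity)
    have hv : c ^ 2 ≤ 0.7396 := by nlinarith
    have e2 : π / 2 * c - (π / 2 * c) ^ 3 / 6 + (π / 2 * c) ^ 5 / 120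
        = c * (π / 2 - π / 2 * (π / 2) ^ 2 * c ^ 2 / 6
          + π / 2 * ((π / 2) ^ 2) ^ 2 * (c ^ 2) ^ 2 / 120) := by ring
    rw [e2] at e1
    set v := c ^ 2 with hv'
    have hv0 : 0 ≤ v := by positivity
    have m1 : 3.8757 ≤ π / 2 * (π / 2) ^ 2 := by nlinarith
    have m2 : π / 2 * ((π / 2) ^ 2) ^ 2 ≤ 9.5635 := by nlinarith
    have m3 : 3.8757 * v ≤ π / 2 * (π / 2) ^ 2 * v := mul_le_mul_of_nonneg_right m1 hv0
    have m4 : π / 2 * ((π / 2) ^ 2) ^ 2 * v ^ 2 ≤ 9.5635 * v ^ 2 :=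
      mul_le_mul_of_nonneg_right m2 (by positivity)
    have key : 0 ≤ c * ((1.571 - 1.5707965) + (3.8757 / 6 - 0.631) * v
        + (0.06 - 9.5635 / 120) * v ^ 2) := by
      apply mul_nonneg h0
      nlinarith
    have e3 : c * (π / 2 - π / 2 * (π / 2) ^ 2 * v / 6
          + π / 2 * ((π / 2) ^ 2) ^ 2 * v ^ 2 / 120)
        ≤ c * (1.5707965 - 3.8757 * v / 6 + 9.5635 * v ^ 2 / 120) := by
      apply mul_le_mul_of_nonneg_left _ h0
      linarith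
    have e4 : (0.571 - 0.06 * v) * c * (1 - v) + c
        = c * (1.571 - 0.631 * v + 0.06 * v ^ 2) := by ring
    nlinarith
  · have hη : 0 ≤ π / 2 - π / 2 * c := by nlinarith [pi_pos]
    have e1 := cos_le_four hη
    rw [cos_pi_div_two_sub] at e1
    have e2 : 1 - (π / 2 - π / 2 * c) ^ 2 / 2 + (π / 2 - π / 2 * c) ^ 4 / 24
        = 1 - (π / 2) ^ 2 * (1 - c) ^ 2 / 2 + ((π / 2) ^ 2) ^ 2 * (1 - c) ^ 4 / 24 := by ring
    rw [e2] at e1
    have q0 : (1 - c) ^ 2 ≤ 0.0196 := by nlinarith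
    have q1 : (1 - c) ^ 4 ≤ 0.0196 * (1 - c) ^ 2 := by nlinarith [sq_nonneg (1 - c)]
    have w1 : 2.46739 * (1 - c) ^ 2 ≤ (π / 2) ^ 2 * (1 - c) ^ 2 :=
      mul_le_mul_of_nonneg_right a1.le (sq_nonneg _)
    have w2 : ((π / 2) ^ 2) ^ 2 * (1 - c) ^ 4 ≤ 6.08812 * (1 - c) ^ 4 :=
      mul_le_mul_of_nonneg_right b2.le (by positivity)
    have e3 : sin (π / 2 * c) ≤ 1 - 1.22 * (1 - c) ^ 2 := by nlinarith
    have e5 : 0 ≤ (1 - c) * (1.22 * (1 - c) - 1 + (0.571 - 0.06 * c ^ 2) * c * (1 + c)) := by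
      apply mul_nonneg (by linarith)
      have w6 : 0 ≤ c - 0.86 := by linarith
      have w7 : 0 ≤ 1 - c := by linarith
      nlinarith [mul_nonneg w6 w7, mul_nonneg (mul_nonneg w6 w7) w6,
        mul_nonneg (mul_nonneg w6 w7) w7, mul_nonneg (mul_nonneg w6 w6) w7, sq_nonneg (c - 1),
        mul_nonneg (mul_nonneg (mul_nonneg w6 w6) w7) w7]
    nlinarith

/-- upper bound of `κ - ν / s` -/
theorem knU {c : ℝ} (h0 : 0 ≤ c) (h1 : c ≤ 1) :
    c * sin (π / 2 * c) + cos (π / 2 * c) - 1 ≤ 0.3372 * c ^ 2 * (1 - c ^ 2) := by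
  obtain ⟨a1, a2⟩ := Abd
  obtain ⟨b1, b2⟩ := A2bd
  have hpi := pi_pos
  have p1 := pi_gt_d6
  have p2 := pi_lt_d6
  rcases le_total c 0.82 with h | h
  · have e1 := sin_le_five (x := π / 2 * c) (by positivity)
    have e1' := cos_le_four (x := π / 2 * c) (by positivity)
    have hv : c ^ 2 ≤ 0.6724 := by nlinarith
    have e2 : c * (π / 2 * c - (π / 2 * c) ^ 3 / 6 + (π / 2 * c) ^ 5 / 120)
        + (1 - (π / 2 * c) ^ 2 / 2 + (π / 2 * c) ^ 4 / 24) - 1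
        = c ^ 2 * ((π / 2 - (π / 2) ^ 2 / 2) - (π / 2 * (π / 2) ^ 2 / 6
          - ((π / 2) ^ 2) ^ 2 / 24) * c ^ 2
          + π / 2 * ((π / 2) ^ 2) ^ 2 * (c ^ 2) ^ 2 / 120) := by ring
    have e3 : c * sin (π / 2 * c) ≤ c * (π / 2 * c - (π / 2 * c) ^ 3 / 6 + (π / 2 * c) ^ 5 / 120) :=
      mul_le_mul_of_nonneg_left e1 h0
    set v := c ^ 2 with hv'
    have hv0 : 0 ≤ v := by positivity
    have m1 : 3.8757 ≤ π / 2 * (π / 2) ^ 2 := by nlinarith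
    have m2 : π / 2 * ((π / 2) ^ 2) ^ 2 ≤ 9.5635 := by nlinarith
    have m3 : (3.8757 / 6 - 6.08812 / 24) * v
        ≤ (π / 2 * (π / 2) ^ 2 / 6 - ((π / 2) ^ 2) ^ 2 / 24) * v := by
      apply mul_le_mul_of_nonneg_right _ hv0
      linarith
    have m4 : π / 2 * ((π / 2) ^ 2) ^ 2 * v ^ 2 ≤ 9.5635 * v ^ 2 :=
      mul_le_mul_of_nonneg_right m2 (by positivity)
    have key : 0 ≤ v * ((0.3372 - (1.5707965 - 2.46739 / 2))
        + (3.8757 / 6 - 6.08812 / 24 - 0.3372) * v - 9.5635 / 120 * v ^ 2) := by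
      apply mul_nonneg hv0
      nlinarith
    have e4 : v * ((π / 2 - (π / 2) ^ 2 / 2) - (π / 2 * (π / 2) ^ 2 / 6
          - ((π / 2) ^ 2) ^ 2 / 24) * v + π / 2 * ((π / 2) ^ 2) ^ 2 * v ^ 2 / 120)
        ≤ v * ((1.5707965 - 2.46739 / 2) - (3.8757 / 6 - 6.08812 / 24) * v
          + 9.5635 * v ^ 2 / 120) := by
      apply mul_le_mul_of_nonneg_left _ hv0
      linarith
    nlinarith
  · have hη : 0 ≤ π / 2 - π / 2 * c := by nlinarith [pi_pos]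
    have e1 := cos_le_four hη
    have e1' := sin_le hη
    rw [cos_pi_div_two_sub] at e1
    rw [sin_pi_div_two_sub] at e1'
    have e2 : 1 - (π / 2 - π / 2 * c) ^ 2 / 2 + (π / 2 - π / 2 * c) ^ 4 / 24
        = 1 - (π / 2) ^ 2 * (1 - c) ^ 2 / 2 + ((π / 2) ^ 2) ^ 2 * (1 - c) ^ 4 / 24 := by ring
    rw [e2] at e1
    have q0 : (1 - c) ^ 2 ≤ 0.0324 := by nlinarith
    have q1 : (1 - c) ^ 4 ≤ 0.0324 * (1 - c) ^ 2 := by nlinarith [sq_nonneg (1 - c)]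
    have w1 : 2.46739 * (1 - c) ^ 2 ≤ (π / 2) ^ 2 * (1 - c) ^ 2 :=
      mul_le_mul_of_nonneg_right a1.le (sq_nonneg _)
    have w2 : ((π / 2) ^ 2) ^ 2 * (1 - c) ^ 4 ≤ 6.08812 * (1 - c) ^ 4 :=
      mul_le_mul_of_nonneg_right b2.le (by positivity)
    have e3 : sin (π / 2 * c) ≤ 1 - 1.22 * (1 - c) ^ 2 := by nlinarith
    have e6 : c * sin (π / 2 * c) ≤ c * (1 - 1.22 * (1 - c) ^ 2) :=
      mul_le_mul_of_nonneg_left e3 h0
    have e7 : cos (π / 2 * c) ≤ 1.5707965 * (1 - c) := by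
      refine e1'.trans ?_
      nlinarith
    have e5 : 0 ≤ (1 - c) * (0.3372 * c ^ 2 * (1 + c) - 0.5707965 + 1.22 * c * (1 - c)) :=
      mul_nonneg (by linarith) (polB h h1)
    have e8 : (1 - c) * (0.3372 * c ^ 2 * (1 + c) - 0.5707965 + 1.22 * c * (1 - c))
        = 0.3372 * c ^ 2 * (1 - c ^ 2) + 1 - (1.5707965 * (1 - c)
          + c * (1 - 1.22 * (1 - c) ^ 2)) := by ring
    rw [e8] at e5
    linarith

theorem polC {u : ℝ} (h0 : 0 ≤ u) (h1 : u ≤ 1) :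
    0 ≤ 2 * (0.2336 - 0.021 * u) - (0.571 - 0.06 * u) ^ 2
        - (2.56 + u) * (0.2336 - 0.021 * u) ^ 2 := by
  have e : 2 * (0.2336 - 0.021 * u) - (0.571 - 0.06 * u) ^ 2
        - (2.56 + u) * (0.2336 - 0.021 * u) ^ 2
      = 0.0014624624 - 0.002932288 * u + 0.00508224 * u ^ 2 - 0.000441 * u ^ 3 := by ring
  rw [e]
  have k : u ^ 3 ≤ u ^ 2 := by nlinarith [mul_nonneg (sq_nonneg u) (sub_nonneg.2 h1)]
  nlinarith [sq_nonneg (u - 0.3)]

theorem polD {u n : ℝ} (_h0 : 0 ≤ u) (h1 : u ≤ 1) (hn : n ≤ 0.2338) :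
    (2.56 + u) * (n + (0.2336 - 0.021 * u)) ≤ 2 := by
  have e : n + (0.2336 - 0.021 * u) ≤ 0.4674 := by linarith
  calc _ ≤ (2.56 + u) * 0.4674 := mul_le_mul_of_nonneg_left e (by linarith)
    _ ≤ _ := by linarith

section fin

variable {s : ℝ} (h0 : 0 ≤ s) (h1 : s < 1)

omit h0 h1 in
theorem sin_et : sin (et s) = cos (π / 2 * cc s) := by
  unfold et
  rw [show π / 2 * (1 - cc s) = π / 2 - π / 2 * cc s by ring, sin_pi_div_two_sub]

omit h0 h1 in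
theorem cos_et' : cos (et s) = sin (π / 2 * cc s) := by
  unfold et
  rw [show π / 2 * (1 - cc s) = π / 2 - π / 2 * cc s by ring, cos_pi_div_two_sub]

include h0 h1

theorem cc_lt (hs : 0 < s) : cc s < 1 := by
  have h2 := cc_sq h0 h1
  have hc := cc_pos h0 h1
  nlinarith

theorem nup_le (hs : 0 < s) : nup s ≤ 0.2338 * s := by
  have hc := cc_pos h0 h1
  have hc1 := cc_lt h0 h1 hs
  have h2 := cc_sq h0 h1
  have e1 := nU hc.le hc1.le
  unfold nup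
  rw [sin_et, div_le_iff₀ (by positivity)]
  have e2 : 1 - cc s ^ 2 = s ^ 2 := by linarith
  rw [e2] at e1
  linarith

theorem nup_ge (hs : 0 < s) : (0.2336 - 0.021 * cc s ^ 2) * s ≤ nup s := by
  have hc := cc_pos h0 h1
  have hc1 := cc_lt h0 h1 hs
  have h2 := cc_sq h0 h1
  have e1 := nL hc.le hc1.le
  unfold nup
  rw [sin_et, le_div_iff₀ (by positivity)]
  have e2 : 1 - cc s ^ 2 = s ^ 2 := by linarith
  rw [e2] at e1
  linarith

theorem nup_pos (hs : 0 < s) : 0 < nup s := by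
  have hc := cc_pos h0 h1
  have hc1 := cc_lt h0 h1 hs
  refine lt_of_lt_of_le ?_ (nup_ge h0 h1 hs)
  apply mul_pos _ hs
  nlinarith

theorem kap_le (hs : 0 < s) : kap s ≤ 0.571 - 0.06 * cc s ^ 2 := by
  have hc := cc_pos h0 h1
  have hc1 := cc_lt h0 h1 hs
  have h2 := cc_sq h0 h1
  have e1 := kU hc.le hc1.le
  unfold kap
  rw [cos_et', div_le_iff₀ (by positivity)]
  have e2 : 1 - cc s ^ 2 = s ^ 2 := by linarith
  rw [e2] at e1
  linarith

theorem kn_le (hs : 0 < s) : kap s + (0.2338 * s - nup s) ≤ 0.571 := by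
  have hc := cc_pos h0 h1
  have hc1 := cc_lt h0 h1 hs
  have h2 := cc_sq h0 h1
  have e1 := knU hc.le hc1.le
  have e2 : 1 - cc s ^ 2 = s ^ 2 := by linarith
  have e3 : kap s - nup s / s ≤ 0.3372 := by
    have : kap s - nup s / s = (cc s * sin (π / 2 * cc s) + cos (π / 2 * cc s) - 1)
        / (cc s ^ 2 * s ^ 2) := by
      unfold kap nup
      rw [sin_et, cos_et']
      field_simp
      linear_combination -h2
    rw [this, div_le_iff₀ (by positivity)]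
    rw [e2] at e1
    linarith
  have e4 := nup_le h0 h1 hs
  have e5 : 0.2338 * s - nup s ≤ 0.2338 - nup s / s := by
    have : 0 ≤ 0.2338 - nup s / s := by
      rw [sub_nonneg, div_le_iff₀ hs]
      exact e4
    have e6 : 0.2338 * s - nup s = s * (0.2338 - nup s / s) := by field_simp
    rw [e6]
    nlinarith
  linarith

/-- the bound of the discriminant -/
theorem L_ge (hs : 0 < s) :
    3.56 ≤ s ^ 2 + 2 * s / nup s - kap s ^ 2 * s ^ 2 / nup s ^ 2 := by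
  have hc := cc_pos h0 h1
  have hc1 := cc_lt h0 h1 hs
  have h2 := cc_sq h0 h1
  have hn := nup_pos h0 h1 hs
  have hk := kap_pos h0 h1 hs
  have e1 := nup_ge h0 h1 hs
  have e2 := nup_le h0 h1 hs
  have e3 := kap_le h0 h1 hs
  obtain ⟨n, hn'⟩ : ∃ n, n = nup s / s := ⟨_, rfl⟩
  have hnu : nup s = n * s := by
    rw [hn']
    field_simp
  have hn0 : 0 < n := by
    rw [hn']
    positivity
  have n1 : 0.2336 - 0.021 * cc s ^ 2 ≤ n := by
    rw [hn', le_div_iff₀ hs]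
    exact e1
  have n2 : n ≤ 0.2338 := by
    rw [hn', div_le_iff₀ hs]
    exact e2
  have e4 : s ^ 2 + 2 * s / nup s - kap s ^ 2 * s ^ 2 / nup s ^ 2
      = s ^ 2 + (2 * n - kap s ^ 2) / n ^ 2 := by
    rw [hnu]
    field_simp
    ring
  rw [e4]
  obtain ⟨u, hu⟩ : ∃ u, u = cc s ^ 2 := ⟨_, rfl⟩
  rw [← hu] at n1 e3
  have hs2 : s ^ 2 = 1 - u := by rw [hu]; linarith
  have hu0 : 0 ≤ u := by rw [hu]; positivity
  have hu1 : u ≤ 1 := by rw [hu]; nlinarith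
  have e5 : kap s ^ 2 ≤ (0.571 - 0.06 * u) ^ 2 := pow_le_pow_left₀ hk.le e3 2
  have e6 : (2.56 + u) * n ^ 2 ≤ 2 * n - kap s ^ 2 := by
    obtain ⟨w, hw⟩ : ∃ w, w = n - (0.2336 - 0.021 * u) := ⟨_, rfl⟩
    have hw0 : 0 ≤ w := by linarith
    have hnw : n = 0.2336 - 0.021 * u + w := by linarith
    have e7 := polC hu0 hu1
    have e8 := polD hu0 hu1 n2
    have e9 : 2 * n - (2.56 + u) * n ^ 2 - (2 * (0.2336 - 0.021 * u)
        - (2.56 + u) * (0.2336 - 0.021 * u) ^ 2)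
        = w * (2 - (2.56 + u) * (n + (0.2336 - 0.021 * u))) := by
      rw [hw]
      ring
    have e10 : 0 ≤ w * (2 - (2.56 + u) * (n + (0.2336 - 0.021 * u))) :=
      mul_nonneg hw0 (by linarith)
    linarith
  have e11 : 2.56 + u ≤ (2 * n - kap s ^ 2) / n ^ 2 := by
    rw [le_div_iff₀ (by positivity)]
    exact e6
  rw [hs2]
  linarith

variable {f : ℝ → ℝ} (hf : Ef f)

include hf

/-- the uniform bound `|sin g| ≤ 0.53` -/
theorem sin_g_le (hs : 0 < s) (hG1 : G1 s 0 f = 0) (hG2 : G2 s 0 f = 0) (θ : ℝ) :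
    |sin (gg s f θ)| ≤ 0.53 := by
  have e1 := sup_g h0 h1 hf hs (nup_pos h0 h1 hs) hG1 hG2 θ
  have e2 := L_ge h0 h1 hs
  have e3 : 3.56 * sin (gg s f θ) ^ 2 ≤ 1 :=
    (mul_le_mul_of_nonneg_right e2 (sq_nonneg _)).trans e1
  apply abs_le_of_sq_le_sq _ (by norm_num)
  nlinarith

/-- the pointwise bound with constants that do not depend on the latitude -/
theorem bdg_const (hs : 0 < s) (hG1 : G1 s 0 f = 0) (hG2 : G2 s 0 f = 0) (θ : ℝ) :
    |sin (gg s f θ) + 0.2338 * s * (cos θ + s * sin (gg s f θ))|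
      ≤ 0.571 * √(R2 s θ (gg s f θ)) := by
  have e1 := bdg h0 h1 hf hs hG1 hG2 θ
  have e2 := kn_le h0 h1 hs
  have e3 := nup_le h0 h1 hs
  set X := sin (gg s f θ) with hX
  have hR := R2_pos h0 h1 θ (gg s f θ)
  have e4 : |cos θ + s * X| ≤ √(R2 s θ (gg s f θ)) := by
    apply abs_le_sqrt
    rw [R2_eq]
    nlinarith [sq_nonneg (sin θ)]
  have e5 : X + 0.2338 * s * (cos θ + s * X)
      = (X + nup s * (cos θ + s * X)) + (0.2338 * s - nup s) * (cos θ + s * X) := by ring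
  rw [e5]
  calc _ ≤ |X + nup s * (cos θ + s * X)| + |(0.2338 * s - nup s) * (cos θ + s * X)| :=
        abs_add_le _ _
    _ ≤ kap s * √(R2 s θ (gg s f θ)) + (0.2338 * s - nup s) * √(R2 s θ (gg s f θ)) := by
        apply add_le_add e1
        rw [abs_mul, abs_of_nonneg (by linarith)]
        exact mul_le_mul_of_nonneg_left e4 (by linarith)
    _ = (kap s + (0.2338 * s - nup s)) * √(R2 s θ (gg s f θ)) := by ring
    _ ≤ _ := mul_le_mul_of_nonneg_right e2 (sqrt_nonneg _)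

end fin

end Pool.Agent.FPX.PTB
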