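import Mathlib
import Pool.Agent.FPX.STA

/-
STB (helper50): derivatives of the visual angle and of `f - arcsin p` in the coordinates `(θ, g)` of
the covariant frame, and the Jacobian `c / R²`.
-/

open MeasureTheory Set Filter Topology

noncomputable section

namespace Pool.Agent.FPX.STA

open Real
open Pool.Agent.FPX.F54 (cc cc_sq cc_pos)

/-- `∂α/∂g` -/
def Av (s θ g : ℝ) : ℝ := -(s * cos g * sin θ) / R2 s θ g

/-- `∂α/∂θ` -/
def At (s θ g : ℝ) : ℝ := (1 + s * cos θ * sin g) / R2 s θ g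

/-- `R² - s² sin² θ` -/
def N2 (s θ g : ℝ) : ℝ := R2 s θ g - s ^ 2 * sin θ ^ 2

/-- `∂δ/∂g` -/
def Dv (s θ g : ℝ) : ℝ := cc s * (1 + s * cos θ * sin g) / N2 s θ g
  - s ^ 2 * cc s * sin θ ^ 2 * cos g / (√(R2 s θ g) * N2 s θ g)

/-- `∂δ/∂θ` -/
def Dt (s θ g : ℝ) : ℝ := s * cc s * sin θ / N2 s θ g
  * ((1 + s * cos θ * sin g) / √(R2 s θ g) - cos g)

theorem algh {c S C z r : ℝ} (h : r ^ 2 = C ^ 2 + 2 * z * S - c ^ 2 * S ^ 2) :
    (c ^ 2 * C * r + z * (z - c ^ 2 * S)) * ((r + C) ^ 2 - c ^ 2 * S ^ 2)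
      + 2 * (c * S) * (r + C) * (c * (z * r - C * (z - c ^ 2 * S)))
      = (c ^ 2 * C ^ 2 + z ^ 2) * ((r + C) ^ 2 + c ^ 2 * S ^ 2) := by
  linear_combination (c ^ 2 * C * r + z * (z - c ^ 2 * S) + 2 * c ^ 2 * S * z + 2 * c ^ 2 * C ^ 2
    - (c ^ 2 * C ^ 2 + z ^ 2)) * h

theorem algk {c S C z r N u y : ℝ} (hN : 0 < N) (hrc : 0 < r + C)
    (h : r ^ 2 = C ^ 2 + 2 * z * S - c ^ 2 * S ^ 2) (hN2 : N ^ 2 = c ^ 2 * C ^ 2 + z ^ 2)
    (hy : y = z - c ^ 2 * S) (hu : u = c * S / (r + C)) :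
    (c * C / N * (c * r / N) + z / N * (y / N)) * ((1 - u ^ 2) / (1 + u ^ 2))
      + (z / N * (c * r / N) - c * C / N * (y / N)) * (2 * u / (1 + u ^ 2)) = 1 := by
  have h1u : 0 < 1 + u ^ 2 := by positivity
  have e : u * (r + C) = c * S := by
    rw [hu]
    field_simp
  have e1 : (c ^ 2 * C * r + z * y) * (1 - u ^ 2) + c * (z * r - C * y) * (2 * u)
      = N ^ 2 * (1 + u ^ 2) := by
    have e2 : ((c ^ 2 * C * r + z * y) * (1 - u ^ 2) + c * (z * r - C * y) * (2 * u)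
      - N ^ 2 * (1 + u ^ 2)) * (r + C) ^ 2 = 0 := by
      rw [hN2, hy]
      linear_combination algh h + (-((c ^ 2 * C * r + z * (z - c ^ 2 * S)) + (c ^ 2 * C ^ 2 + z ^ 2))
        * (u * (r + C) + c * S) + 2 * (c * (z * r - C * (z - c ^ 2 * S))) * (r + C)) * e
    rcases mul_eq_zero.1 e2 with h3 | h3
    · linarith
    · have : 0 < (r + C) ^ 2 := by positivity
      linarith
  have e3 : (c * C / N * (c * r / N) + z / N * (y / N)) * ((1 - u ^ 2) / (1 + u ^ 2))
      + (z / N * (c * r / N) - c * C / N * (y / N)) * (2 * u / (1 + u ^ 2))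
      = ((c ^ 2 * C * r + z * y) * (1 - u ^ 2) + c * (z * r - C * y) * (2 * u))
        / (N ^ 2 * (1 + u ^ 2)) := by
    field_simp
  rw [e3, e1]
  exact div_self (by positivity)

theorem R2_cont (s : ℝ) : Continuous fun q : ℝ × ℝ => R2 s q.1 q.2 := by
  unfold R2
  fun_prop

theorem dR2 (s : ℝ) {θ v : ℝ → ℝ} {a b t : ℝ} (hθ : HasDerivAt θ a t) (hv : HasDerivAt v b t) :
    HasDerivAt (fun t => R2 s (θ t) (v t))
      (2 * (cos (v t) * (s * cos (θ t) + s ^ 2 * sin (v t)) * b - s * sin (θ t) * sin (v t) * a)) t := by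
  have e1 := ((hθ.cos.const_mul (2 * s)).mul hv.sin).const_add 1
  have e2 := ((hv.sin.pow 2).const_mul (s ^ 2))
  have e3 := e1.add e2
  convert! e3 using 1
  push_cast
  ring

section base

variable {s : ℝ} (h0 : 0 ≤ s) (h1 : s < 1)

omit h0 h1 in
/-- two forms of `N²` -/
theorem N2_eq1 (θ g : ℝ) : N2 s θ g = (1 + s * cos θ * sin g) ^ 2 - s ^ 2 * sin θ ^ 2 * cos g ^ 2 := by
  unfold N2 R2
  have hg := sin_sq_add_cos_sq g
  have hθ := sin_sq_add_cos_sq θ
  linear_combination (s ^ 2 * sin θ ^ 2) * hg - (s ^ 2 * sin g ^ 2) * hθ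

include h0 h1

theorem N2_eq2 (θ g : ℝ) :
    N2 s θ g = (cc s * cos g) ^ 2 + (sin g + s * cos θ) ^ 2 := by
  unfold N2 R2
  have hg := sin_sq_add_cos_sq g
  have hθ := sin_sq_add_cos_sq θ
  have hc := cc_sq h0 h1
  linear_combination (-(1 - s ^ 2)) * hg - s ^ 2 * hθ - cos g ^ 2 * hc

theorem N2_pos {θ g : ℝ} (hg : 0 < cos g) : 0 < N2 s θ g := by
  have hc := cc_pos h0 h1
  rw [N2_eq2 h0 h1]
  positivity

/-- derivative of the cosine of the visual angle along curves -/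
theorem dCa {θ v : ℝ → ℝ} {a b t : ℝ} (hθ : HasDerivAt θ a t) (hv : HasDerivAt v b t) :
    HasDerivAt (fun t => Ca s (θ t) (v t))
      (-(Sa s (θ t) (v t) * (At s (θ t) (v t) * a + Av s (θ t) (v t) * b))) t := by
  have hR := R2_pos h0 h1 (θ t) (v t)
  have hR' := sqrt_pos.2 hR
  have e1 := hθ.cos.add (hv.sin.const_mul s)
  have e2 := (dR2 s hθ hv).sqrt hR.ne'
  have e3 := e1.div e2 hR'.ne'
  convert! e3 using 1
  have hq := sq_sqrt hR.le
  simp only [Pi.add_apply]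
  unfold Sa At Av
  set r := √(R2 s (θ t) (v t)) with hr
  have hR2 : R2 s (θ t) (v t) = r ^ 2 := hq.symm
  rw [hR2]
  have hs := sin_sq_add_cos_sq (θ t)
  have hrr : r ^ 2 = 1 + 2 * s * cos (θ t) * sin (v t) + s ^ 2 * sin (v t) ^ 2 := by
    rw [← hR2]
    rfl
  field_simp
  rw [hrr]
  linear_combination (s * cos (v t) * b) * hs

/-- derivative of the sine of the visual angle along curves -/
theorem dSa {θ v : ℝ → ℝ} {a b t : ℝ} (hθ : HasDerivAt θ a t) (hv : HasDerivAt v b t) :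
    HasDerivAt (fun t => Sa s (θ t) (v t))
      (Ca s (θ t) (v t) * (At s (θ t) (v t) * a + Av s (θ t) (v t) * b)) t := by
  have hR := R2_pos h0 h1 (θ t) (v t)
  have hR' := sqrt_pos.2 hR
  have e2 := (dR2 s hθ hv).sqrt hR.ne'
  have e3 := hθ.sin.div e2 hR'.ne'
  convert! e3 using 1
  have hq := sq_sqrt hR.le
  unfold Ca At Av
  set r := √(R2 s (θ t) (v t)) with hr
  have hR2 : R2 s (θ t) (v t) = r ^ 2 := hq.symm
  rw [hR2]
  have hs := sin_sq_add_cos_sq (θ t)
  have hrr : r ^ 2 = 1 + 2 * s * cos (θ t) * sin (v t) + s ^ 2 * sin (v t) ^ 2 := by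
    rw [← hR2]
    rfl
  field_simp
  rw [hrr]
  linear_combination (-(s * sin (v t) * a)) * hs

/-- derivative of `f - arcsin p` along curves -/
theorem dDe {θ v : ℝ → ℝ} {a b t : ℝ} (hθ : HasDerivAt θ a t) (hv : HasDerivAt v b t)
    (hg : 0 < cos (v t)) :
    HasDerivAt (fun t => De s (θ t) (v t))
      (Dt s (θ t) (v t) * a + Dv s (θ t) (v t) * b) t := by
  have hc := cc_pos h0 h1
  have hc2 := cc_sq h0 h1
  have hR := R2_pos h0 h1 (θ t) (v t)
  have hR' := sqrt_pos.2 hR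
  have hN := N2_pos h0 h1 (θ := θ t) hg
  have hden : 0 < cc s * cos (v t) := by positivity
  have e1 := (hv.sin.add (hθ.cos.const_mul s)).div (hv.cos.const_mul (cc s)) hden.ne'
  have e2 := e1.arctan
  have e3 := (((dCa h0 h1 hθ hv).const_mul (s / cc s))).arctan
  have e4 := e2.sub e3
  have a1 : 1 + ((sin (v t) + s * cos (θ t)) / (cc s * cos (v t))) ^ 2
      = N2 s (θ t) (v t) / (cc s * cos (v t)) ^ 2 := by
    rw [N2_eq2 h0 h1]
    field_simp
  have a2 : 1 + (s / cc s * Ca s (θ t) (v t)) ^ 2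
      = N2 s (θ t) (v t) / (cc s ^ 2 * R2 s (θ t) (v t)) := by
    have h2 : N2 s (θ t) (v t) = cc s ^ 2 * R2 s (θ t) (v t)
        + s ^ 2 * (cos (θ t) + s * sin (v t)) ^ 2 := by
      have h3 := R2_eq (s := s) (θ t) (v t)
      unfold N2
      linear_combination (-(R2 s (θ t) (v t))) * hc2 + (s ^ 2) * h3
    rw [h2]
    unfold Ca
    rw [mul_pow, div_pow, div_pow, sq_sqrt hR.le]
    field_simp
  have a3 : (fun t => De s (θ t) (v t)) = fun t => arctan ((sin (v t) + s * cos (θ t)) / (cc s * cos (v t)))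
      - arctan (s / cc s * Ca s (θ t) (v t)) := by
    funext t
    rfl
  rw [a3]
  convert! e4 using 1
  simp only [Pi.div_apply, Pi.add_apply]
  rw [a1, a2]
  unfold Dt Dv Sa At Av
  set r := √(R2 s (θ t) (v t)) with hr
  have hR2 : R2 s (θ t) (v t) = r ^ 2 := (sq_sqrt hR.le).symm
  rw [hR2]
  set N := N2 s (θ t) (v t) with hNN
  have hg2 := sin_sq_add_cos_sq (v t)
  field_simp
  linear_combination (-(r * b)) * hg2

/-- `f - arcsin p` by the half angle (helper24) -/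
theorem De_half (θ : ℝ) {g : ℝ} (hg : 0 < cos g) :
    De s θ g = 2 * arctan (cc s * sin g / (√(R2 s θ g) + cos g)) := by
  have hc := cc_pos h0 h1
  have hc2 := cc_sq h0 h1
  have hR := R2_pos h0 h1 θ g
  have hR' := sqrt_pos.2 hR
  have hN := N2_pos h0 h1 (θ := θ) hg
  have hN2 := N2_eq2 h0 h1 θ g
  set r := √(R2 s θ g) with hr
  have hR2 : R2 s θ g = r ^ 2 := (sq_sqrt hR.le).symm
  have hrr : r ^ 2 = 1 + 2 * s * cos θ * sin g + s ^ 2 * sin g ^ 2 := by
    rw [← hR2]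
    rfl
  set N := √(N2 s θ g) with hNd
  have hNp : 0 < N := sqrt_pos.2 hN
  have hNN : N2 s θ g = N ^ 2 := (sq_sqrt hN.le).symm
  have hg2 := sin_sq_add_cos_sq g
  have hθ2 := sin_sq_add_cos_sq θ
  -- values of the four functions
  set a := (sin g + s * cos θ) / (cc s * cos g) with ha
  set b := s / cc s * Ca s θ g with hb
  have a1 : 1 + a ^ 2 = N ^ 2 / (cc s * cos g) ^ 2 := by
    rw [← hNN, hN2, ha]
    field_simp
  have b1 : 1 + b ^ 2 = N ^ 2 / (cc s * r) ^ 2 := by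
    have h2 : N2 s θ g = cc s ^ 2 * R2 s θ g + s ^ 2 * (cos θ + s * sin g) ^ 2 := by
      have h3 := R2_eq (s := s) θ g
      unfold N2
      linear_combination (-(R2 s θ g)) * hc2 + (s ^ 2) * h3
    rw [← hNN, h2, hb]
    unfold Ca
    rw [← hr, hR2]
    field_simp
  have a2 : √(1 + a ^ 2) = N / (cc s * cos g) := by
    rw [a1, ← div_pow, sqrt_sq (by positivity)]
  have b2 : √(1 + b ^ 2) = N / (cc s * r) := by
    rw [b1, ← div_pow, sqrt_sq (by positivity)]
  have ca : cos (arctan a) = cc s * cos g / N := by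
    rw [cos_arctan, a2]
    field_simp
  have sa : sin (arctan a) = (sin g + s * cos θ) / N := by
    rw [sin_arctan, a2, ha]
    field_simp
  have cb : cos (arctan b) = cc s * r / N := by
    rw [cos_arctan, b2]
    field_simp
  have sb : sin (arctan b) = s * (cos θ + s * sin g) / N := by
    rw [sin_arctan, b2, hb]
    unfold Ca
    rw [← hr]
    field_simp
  set u := cc s * sin g / (r + cos g) with hu
  have h1u : 0 < 1 + u ^ 2 := by positivity
  have cu : cos (2 * arctan u) = (1 - u ^ 2) / (1 + u ^ 2) := by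
    rw [cos_two_mul, cos_sq_arctan]
    field_simp
    ring
  have su : sin (2 * arctan u) = 2 * u / (1 + u ^ 2) := by
    rw [sin_two_mul, sin_arctan, cos_arctan]
    have h2 : √(1 + u ^ 2) ^ 2 = 1 + u ^ 2 := sq_sqrt h1u.le
    have h3 : 0 < √(1 + u ^ 2) := sqrt_pos.2 h1u
    field_simp
    rw [h2]
  have key : cos ((arctan a - arctan b) - 2 * arctan u) = 1 := by
    rw [cos_sub, cos_sub, sin_sub, ca, sa, cb, sb, cu, su, hu]
    have hrc : 0 < r + cos g := by positivity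
    have e1 : r ^ 2 = cos g ^ 2 + 2 * (sin g + s * cos θ) * sin g - cc s ^ 2 * sin g ^ 2 := by
      rw [hrr, hc2]
      linear_combination (-1) * hg2
    have e2 : N ^ 2 = cc s ^ 2 * cos g ^ 2 + (sin g + s * cos θ) ^ 2 := by
      rw [← hNN, hN2]
      ring
    have e3 : s * (cos θ + s * sin g) = (sin g + s * cos θ) - cc s ^ 2 * sin g := by
      rw [hc2]
      ring
    exact algk hNp hrc e1 e2 e3 rfl
  have l1 := arctan_lt_pi_div_two a
  have l2 := neg_pi_div_two_lt_arctan a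
  have l3 := arctan_lt_pi_div_two b
  have l4 := neg_pi_div_two_lt_arctan b
  have l5 := arctan_lt_pi_div_two u
  have l6 := neg_pi_div_two_lt_arctan u
  have h := (cos_eq_one_iff_of_lt_of_lt (by linarith) (by linarith)).1 key
  unfold De
  linarith

/-- the Jacobian of `(θ, g) ↦ (δ, α)` -/
theorem jac (θ : ℝ) {g : ℝ} (hg : 0 < cos g) :
    Dv s θ g * At s θ g - Dt s θ g * Av s θ g = cc s / R2 s θ g := by
  have hc := cc_pos h0 h1
  have hR := R2_pos h0 h1 θ g
  have hR' := sqrt_pos.2 hR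
  have hN := N2_pos h0 h1 (θ := θ) hg
  have h1' := N2_eq1 (s := s) θ g
  unfold Dt Dv At Av
  set r := √(R2 s θ g) with hr
  have hR2 : R2 s θ g = r ^ 2 := (sq_sqrt hR.le).symm
  rw [hR2]
  set N := N2 s θ g with hNN
  field_simp
  linear_combination (-r) * h1'

end base

end Pool.Agent.FPX.STA
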