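import Mathlib
import Pool.Agent.FPX.PTN
import Pool.Agent.FPX.STB

/-
PTD (helper90): `|f - arcsin p| ≤ 0.62 c` for every state, at every latitude.
-/

open MeasureTheory Set Filter Topology

noncomputable section

namespace Pool.Agent.FPX.PTB

open Real
open Pool.Agent.FPX.UMP (Ef)
open Pool.Agent.FPX.F54 (cc W CA SA AP G1 G2 cc_sq cc_pos W_pos W_sq')
open Pool.Agent.FPX.STA

theorem cA {D s : ℝ} (hD : D = 4.3844 - 0.3844 * s ^ 2) :
    D * (0.511 + 0.06 * s ^ 2) ≤ 2.2404284 + 0.0666356 * s ^ 2 := by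
  have e : D * (0.511 + 0.06 * s ^ 2)
      = 2.2404284 + 0.0666356 * s ^ 2 - 0.023064 * s ^ 4 := by
    rw [hD]
    ring
  rw [e]
  have : 0 ≤ s ^ 4 := by positivity
  linarith

theorem cB {D s : ℝ} (h0 : 0 ≤ s) (h1 : s ≤ 1) (hD : D = 4.3844 - 0.3844 * s ^ 2) :
    0 ≤ 2.48 + 0.7688 * s - D * (0.511 + 0.06 * s ^ 2) - D * (0.2338 * s) := by
  obtain ⟨r, hr⟩ : ∃ r, r = 1 - s := ⟨_, rfl⟩
  have hs' : s = 1 - r := by linarith
  have hr0 : 0 ≤ r := by linarith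
  have hr1 : r ≤ 1 := by linarith
  have e : 2.48 + 0.7688 * s - D * (0.511 + 0.06 * s ^ 2) - D * (0.2338 * s)
      = 0.0296 + 0.02766976 * r + 0.34136656 * r ^ 2 - 0.18212872 * r ^ 3
        + 0.023064 * r ^ 4 := by
    rw [hD, hs']
    ring
  rw [e]
  have k3 : r ^ 3 ≤ r ^ 2 := by nlinarith [mul_nonneg (sq_nonneg r) (sub_nonneg.2 hr1)]
  have k2 : 0 ≤ r ^ 2 := by positivity
  have k4 : 0 ≤ r ^ 4 := by positivity
  linarith

theorem cC {b w m A R : ℝ} (hA : |A| ≤ R) (h1 : m ≤ 2.48 + w - b) (h2 : w + b - 2.48 ≤ m) :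
    0 ≤ (2.48 - b) * R + (m - w) * A := by
  have e1 : |m - w| ≤ 2.48 - b := abs_le.2 ⟨by linarith, by linarith⟩
  have e2 : |(m - w) * A| ≤ (2.48 - b) * R := by
    rw [abs_mul]
    exact mul_le_mul e1 hA (abs_nonneg _) ((abs_nonneg _).trans e1)
  linarith [neg_abs_le ((m - w) * A)]

/-- the algebraic core -/
theorem core {s c n k X A R g : ℝ} (hs : 0 < s) (hsc : c ^ 2 + s ^ 2 = 1)
    (hR : 0 < R) (hg : 0 < g) (hX : 0 ≤ X) (hXg : X ^ 2 + g ^ 2 = 1)
    (hR2 : R ^ 2 = 1 + 2 * s * X * A - s ^ 2 * X ^ 2) (hA : |A| ≤ R) (hn1 : n ≤ 0.2338 * s)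
    (hn2 : 0.2126 * s ≤ n) (hk : k ≤ 0.511 + 0.06 * s ^ 2) (h : X + n * A ≤ k * R) :
    2 * X ≤ 0.62 * (R + g) := by
  have hs1 : s ≤ 1 := by
    by_contra hcon
    push Not at hcon
    have : 1 < s ^ 2 := by nlinarith
    linarith [sq_nonneg c]
  obtain ⟨D, hD⟩ : ∃ D, D = 4 + 0.3844 * c ^ 2 := ⟨_, rfl⟩
  have hD' : D = 4.3844 - 0.3844 * s ^ 2 := by rw [hD]; linarith
  have hD4 : 4 ≤ D := by
    rw [hD]
    linarith [sq_nonneg c]
  have e1 : D * k ≤ D * (0.511 + 0.06 * s ^ 2) := mul_le_mul_of_nonneg_left hk (by linarith)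
  have e2 : D * n ≤ D * (0.2338 * s) := mul_le_mul_of_nonneg_left hn1 (by linarith)
  have e3 : D * (0.2126 * s) ≤ D * n := mul_le_mul_of_nonneg_left hn2 (by linarith)
  have p1 := cB hs.le hs1 hD'
  have p0 := cA hD'
  have q2 : 4 * (0.2126 * s) ≤ D * (0.2126 * s) :=
    mul_le_mul_of_nonneg_right hD4 (by positivity)
  have s2 : s ^ 2 ≤ 1 := pow_le_one₀ hs.le hs1
  have e7 : 0 ≤ (2.48 - D * (0.511 + 0.06 * s ^ 2)) * R + (D * n - 0.7688 * s) * A :=
    cC hA (by linarith) (by linarith)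
  -- the linear inequality
  have lin : D * X ≤ 2.48 * R - 0.7688 * s * A := by
    have e4 : D * X ≤ D * (k * R - n * A) := mul_le_mul_of_nonneg_left (by linarith) (by linarith)
    have e5 : D * (k * R - n * A) = D * k * R - D * n * A := by ring
    have e6 : D * k * R ≤ D * (0.511 + 0.06 * s ^ 2) * R := mul_le_mul_of_nonneg_right e1 hR.le
    linarith
  -- conclusion
  by_contra hcon
  push Not at hcon
  have f1 : 0.62 * g < 2 * X - 0.62 * R := by linarith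
  have f2 : (0.62 * g) ^ 2 < (2 * X - 0.62 * R) ^ 2 := pow_lt_pow_left₀ f1 (by positivity) two_ne_zero
  have f3 : (2 * X - 0.62 * R) ^ 2 - (0.62 * g) ^ 2
      = X * (D * X - (2.48 * R - 0.7688 * s * A)) := by
    rw [hD]
    linear_combination 0.3844 * hR2 - 0.3844 * X ^ 2 * hsc - 0.3844 * hXg
  have f4 : X * (D * X - (2.48 * R - 0.7688 * s * A)) ≤ 0 :=
    mul_nonpos_of_nonneg_of_nonpos hX (by linarith)
  linarith

theorem abs_arctan_le' (x : ℝ) : |arctan x| ≤ |x| := by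
  have e1 : ∀ y : ℝ, 0 ≤ y → arctan y ≤ y := by
    intro y hy
    have := le_tan (arctan_nonneg.2 hy) (arctan_lt_pi_div_two y)
    rwa [tan_arctan] at this
  rcases le_total 0 x with h | h
  · rw [abs_of_nonneg h, abs_of_nonneg (arctan_nonneg.2 h)]
    exact e1 x h
  · rw [abs_of_nonpos h, abs_of_nonpos (arctan_le_zero.2 h), ← arctan_neg]
    exact e1 _ (by linarith)

variable {s : ℝ} (h0 : 0 ≤ s) (h1 : s < 1) {f : ℝ → ℝ} (hf : Ef f)

include h0 h1 hf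

/-- the bound of the half angle -/
theorem two_sin_le (hs : 0 < s) (hG1 : G1 s 0 f = 0) (hG2 : G2 s 0 f = 0) (t : ℝ) :
    2 * |sin (gt s f t)| ≤ 0.62 * (√(R2 s (th s f t) (gt s f t)) + cos (gt s f t)) := by
  have hc := cc_pos h0 h1
  have h2 := cc_sq h0 h1
  have hcg := cg_pos h0 h1 hf t
  have e1 := abs_le.1 (bdt h0 h1 hf hs hG1 hG2 t)
  have e2 := nup_le h0 h1 hs
  have e3 := nup_ge h0 h1 hs
  have e4 := kap_le h0 h1 hs
  set g := gt s f t with hg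
  set θ := th s f t with hθ
  have hR := R2_pos h0 h1 θ g
  have hR' := sqrt_pos.2 hR
  have hA : |cos θ + s * sin g| ≤ √(R2 s θ g) := by
    apply abs_le_sqrt
    rw [R2_eq]
    nlinarith [sq_nonneg (sin θ)]
  have hR2 : √(R2 s θ g) ^ 2 = 1 + 2 * s * sin g * (cos θ + s * sin g) - s ^ 2 * sin g ^ 2 := by
    rw [sq_sqrt hR.le]
    unfold R2
    ring
  have hn2 : 0.2126 * s ≤ nup s := by
    refine le_trans ?_ e3
    have : cc s ^ 2 ≤ 1 := by nlinarith
    nlinarith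
  have hk : kap s ≤ 0.511 + 0.06 * s ^ 2 := by nlinarith
  have hsc : cc s ^ 2 + s ^ 2 = 1 := by linarith
  rcases le_total 0 (sin g) with h | h
  · rw [abs_of_nonneg h]
    exact core hs hsc hR' hcg h (sin_sq_add_cos_sq g) hR2 hA e2 hn2 hk e1.2
  · rw [abs_of_nonpos h]
    refine core (A := -(cos θ + s * sin g)) (n := nup s) (k := kap s) hs hsc hR' hcg
      (by linarith) ?_ ?_ (by rwa [abs_neg]) e2 hn2 hk (by linarith [e1.1])
    · have := sin_sq_add_cos_sq g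
      linarith [this, neg_sq (sin g)]
    · rw [hR2]
      ring

/-- **`|f - arcsin p| ≤ 0.62 c`** -/
theorem delta_le (hs : 0 < s) (hG1 : G1 s 0 f = 0) (hG2 : G2 s 0 f = 0) (t : ℝ) :
    |f t - arcsin (s * cos t)| ≤ 0.62 * cc s := by
  have hc := cc_pos h0 h1
  have hcg := cg_pos h0 h1 hf t
  have e1 := two_sin_le h0 h1 hf hs hG1 hG2 t
  have hR := sqrt_pos.2 (R2_pos h0 h1 (th s f t) (gt s f t))
  rw [De_eq h0 h1 hf, De_half h0 h1 _ hcg]
  rw [abs_mul, abs_of_pos (by norm_num : (0 : ℝ) < 2)]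
  refine le_trans (mul_le_mul_of_nonneg_left (abs_arctan_le' _) (by norm_num)) ?_
  rw [abs_div, abs_mul, abs_of_pos hc, abs_of_pos (by positivity : 0 < √(R2 s (th s f t) (gt s f t))
    + cos (gt s f t)), ← mul_div_assoc, div_le_iff₀ (by positivity)]
  nlinarith

end Pool.Agent.FPX.PTB
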