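import Mathlib
import Pool.Agent.FPX.PTD

/-
PTE (helper90): the pole `s = 0` (`|f| ≤ π / 6`) and the uniform statements for all `0 ≤ s < 1`.
-/

open MeasureTheory Set Filter Topology

noncomputable section

namespace Pool.Agent.FPX.PTB

open Real
open Pool.Agent.FPX.UMP (Ef)
open Pool.Agent.FPX.F54 (cc W CA SA AP G1 G2 cc_sq cc_pos W_pos W_sq' contCA contSA int_deriv
  int_fSA abs_deriv)
open Pool.Agent.FPX.STA

theorem cc0 : cc 0 = 1 := by simp [cc]

theorem W0 (t : ℝ) : W 0 t = 1 := by simp [W]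

theorem CA0 (t : ℝ) : CA 0 t = cos t := by simp [CA, cc0, W0]

theorem SA0 (t : ℝ) : SA 0 t = sin t := by simp [SA, W0]

theorem gg0 {f : ℝ → ℝ} (hf : Ef f) (θ : ℝ) : gg 0 f θ = f θ := by
  have e1 : ∀ v, MM 0 v = v := fun v => by simp [MM, bb]
  have e2 : ∀ t, th 0 f t = t := fun t => by
    unfold th
    rw [e1, e1]
    ring
  have e3 := gg_th le_rfl one_pos hf θ
  rw [e2] at e3
  rw [e3]
  unfold gt
  rw [e1, e1]
  ring

theorem zero_lower {f : ℝ → ℝ} (hf : Ef f) (hG1 : G1 0 0 f = 0) (hG2 : G2 0 0 f = 0) (t0 : ℝ) :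
    -(π / 6) ≤ f t0 := by
  have hpi := pi_pos
  have h0 : (0 : ℝ) ≤ 0 := le_rfl
  have h1 : (0 : ℝ) < 1 := one_pos
  obtain ⟨a, ha⟩ : ∃ a, a = t0 + π / 3 := ⟨_, rfl⟩
  obtain ⟨b, hb⟩ : ∃ b, b = t0 + 2 * π / 3 := ⟨_, rfl⟩
  have hab : a < b := by rw [ha, hb]; linarith
  have hba : b < a + π := by rw [ha, hb]; linarith
  have hba' : b - a = π / 3 := by rw [ha, hb]; ring
  have i1 := int_min h0 h1 hab hba t0
  have cu := cont_uu h0 h1 a b
  have i2 : ∫ t in t0..(t0 + π), min (uu 0 a b t) 0
      ≤ ∫ t in t0..(t0 + π), (1 - deriv f t) / 2 * uu 0 a b t := by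
    apply intervalIntegral.integral_mono_on (by linarith)
      ((cu.min continuous_const).intervalIntegrable _ _)
    · have e1 : (fun t => (1 - deriv f t) / 2 * uu 0 a b t)
          = fun t => uu 0 a b t / 2 - (uu 0 a b t / 2) * deriv f t := by
        funext t
        ring
      rw [e1]
      exact ((cu.div_const 2).intervalIntegrable _ _).sub (int_deriv hf.lip (cu.div_const 2) _ _)
    · intro t _
      have e1 := abs_le.1 (abs_deriv hf.lip t)
      rcases le_total (uu 0 a b t) 0 with h | h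
      · rw [min_eq_left h]
        nlinarith [e1.1, e1.2]
      · rw [min_eq_right h]
        have : 0 ≤ (1 - deriv f t) / 2 := by linarith [e1.2]
        positivity
  -- the multiplier
  obtain ⟨k, hk⟩ : ∃ k, k = 1 / sin (π / 3) := ⟨_, rfl⟩
  have hs3 : 0 < sin (π / 3) := sin_pos_of_pos_of_lt_pi (by linarith) (by linarith)
  have eu : ∀ t, uu 0 a b t = 1 - k * cos (t - (t0 + π / 2)) := by
    intro t
    unfold uu qq
    rw [W0, W0, W0, hba', hk, ha, hb]
    have e1 : sin (t0 + 2 * π / 3 - t) + sin (t - (t0 + π / 3)) = cos (t - (t0 + π / 2)) := by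
      rw [show t0 + 2 * π / 3 - t = π / 6 - (t - (t0 + π / 2)) by ring,
        show t - (t0 + π / 3) = π / 6 + (t - (t0 + π / 2)) by ring, sin_sub, sin_add, sin_pi_div_six]
      ring
    rw [one_mul, one_mul, e1]
    ring
  have j0 := int_df hf t0
  have j1 : ∫ t in t0..(t0 + π), sin t * deriv f t = 0 := by
    have e3 := half (G := fun t => SA 0 t * deriv f t)
      (fun t => by simp only [SA_pi, deriv_pi hf]; ring)
      (fun a b => int_deriv hf.lip (contSA h0 h1) a b) t0
    rw [int_fSA h0 h1 hf hG1] at e3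
    simp only [SA0] at e3
    linarith
  have j2 : ∫ t in t0..(t0 + π), cos t * deriv f t = 0 := by
    have := int_CAdf h0 h1 hf hG2 t0
    simp only [CA0] at this
    exact this
  have k1 : ∫ t in t0..(t0 + π), (1 - deriv f t) / 2 * uu 0 a b t
      = 1 / 2 * (π - k * 2 + 2 * f t0) := by
    have e1 : (fun t => (1 - deriv f t) / 2 * uu 0 a b t)
        = fun t => 1 / 2 * ((((1 : ℝ) - k * cos (t - (t0 + π / 2))) - 1 * deriv f t)
          + k * cos (t0 + π / 2) * (cos t * deriv f t)
          + k * sin (t0 + π / 2) * (sin t * deriv f t)) := by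
      funext t
      rw [eu, cos_sub]
      ring
    have n1 : IntervalIntegrable (fun t => 1 * deriv f t) volume t0 (t0 + π) :=
      int_deriv hf.lip continuous_const _ _
    have n2 : IntervalIntegrable (fun t => k * cos (t0 + π / 2) * (cos t * deriv f t)) volume t0
        (t0 + π) := (int_deriv hf.lip continuous_cos _ _).const_mul _
    have n3 : IntervalIntegrable (fun t => k * sin (t0 + π / 2) * (sin t * deriv f t)) volume t0
        (t0 + π) := (int_deriv hf.lip continuous_sin _ _).const_mul _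
    have c4 : Continuous fun t => k * cos (t - (t0 + π / 2)) := by fun_prop
    have n5 : IntervalIntegrable (fun t => k * cos (t - (t0 + π / 2))) volume t0 (t0 + π) :=
      c4.intervalIntegrable _ _
    have n4 : IntervalIntegrable (fun t => (1 : ℝ) - k * cos (t - (t0 + π / 2))) volume t0
        (t0 + π) := intervalIntegrable_const.sub n5
    have e5 : ∫ t in t0..(t0 + π), cos (t - (t0 + π / 2)) = 2 := by
      rw [intervalIntegral.integral_comp_sub_right (fun t => cos t), integral_cos,
        show t0 + π - (t0 + π / 2) = π / 2 by ring, show t0 - (t0 + π / 2) = -(π / 2) by ring,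
        sin_neg, sin_pi_div_two]
      norm_num
    rw [e1, intervalIntegral.integral_const_mul, intervalIntegral.integral_add
      ((n4.sub n1).add n2) n3, intervalIntegral.integral_add (n4.sub n1) n2,
      intervalIntegral.integral_sub n4 n1,
      intervalIntegral.integral_sub intervalIntegrable_const n5,
      intervalIntegral.integral_const_mul, intervalIntegral.integral_const_mul,
      intervalIntegral.integral_const_mul, intervalIntegral.integral_const_mul,
      intervalIntegral.integral_const, e5, j0, j1, j2]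
    simp only [smul_eq_mul, add_sub_cancel_left]
    ring
  have k2 : ∫ t in a..b, uu 0 a b t = π / 3 - k := by
    have e1 : (fun t => uu 0 a b t) = fun t => (1 : ℝ) - k * cos (t - (t0 + π / 2)) := by
      funext t
      rw [eu]
    have c4 : Continuous fun t => k * cos (t - (t0 + π / 2)) := by fun_prop
    have n5 : IntervalIntegrable (fun t => k * cos (t - (t0 + π / 2))) volume a b :=
      c4.intervalIntegrable _ _
    have e5 : ∫ t in a..b, cos (t - (t0 + π / 2)) = 1 := by
      rw [intervalIntegral.integral_comp_sub_right (fun t => cos t), integral_cos, ha, hb,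
        show t0 + 2 * π / 3 - (t0 + π / 2) = π / 6 by ring,
        show t0 + π / 3 - (t0 + π / 2) = -(π / 6) by ring,
        sin_neg, sin_pi_div_six]
      norm_num
    rw [e1, intervalIntegral.integral_sub intervalIntegrable_const n5,
      intervalIntegral.integral_const_mul, intervalIntegral.integral_const, e5, hba']
    simp only [smul_eq_mul]
    ring
  rw [k1] at i2
  rw [k2] at i1
  linarith

theorem zero_bd {f : ℝ → ℝ} (hf : Ef f) (hG1 : G1 0 0 f = 0) (hG2 : G2 0 0 f = 0) (t : ℝ) :
    |f t| ≤ π / 6 := by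
  have e1 := zero_lower hf hG1 hG2 t
  have e2 := zero_lower hf hG1 hG2 (t + π)
  rw [hf.odd] at e2
  rw [abs_le]
  constructor <;> linarith

variable {s : ℝ} (h0 : 0 ≤ s) (h1 : s < 1) {f : ℝ → ℝ} (hf : Ef f)

include h0 h1 hf

/-- **`|sin g| ≤ 0.53` for all states** -/
theorem sin_g_bd (hG1 : G1 s 0 f = 0) (hG2 : G2 s 0 f = 0) (θ : ℝ) : |sin (gg s f θ)| ≤ 0.53 := by
  rcases h0.lt_or_eq with hs | hs
  · exact sin_g_le h0 h1 hf hs hG1 hG2 θ
  · subst hs
    rw [gg0 hf]
    refine abs_sin_le_abs.trans ((zero_bd hf hG1 hG2 θ).trans ?_)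
    linarith [pi_lt_d2]

/-- **`|g| ≤ 0.56` for all states** -/
theorem g_bd (hG1 : G1 s 0 f = 0) (hG2 : G2 s 0 f = 0) (θ : ℝ) : |gg s f θ| ≤ 0.56 := by
  have e1 := sin_g_bd h0 h1 hf hG1 hG2 θ
  have e2 := (gg_Ef h0 h1 hf).lt θ
  have hpi := pi_gt_three
  have e3 : |sin (gg s f θ)| = sin |gg s f θ| := by
    rcases le_total 0 (gg s f θ) with h | h
    · rw [abs_of_nonneg h] at e2 ⊢
      exact abs_of_nonneg (sin_nonneg_of_nonneg_of_le_pi h (by linarith))
    · rw [abs_of_nonpos h] at e2 ⊢
      rw [sin_neg]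
      exact abs_of_nonpos (sin_nonpos_of_nonpos_of_neg_pi_le h (by linarith))
  by_contra hcon
  push Not at hcon
  have e4 : sin 0.56 < sin |gg s f θ| :=
    sin_lt_sin_of_lt_of_le_pi_div_two (by linarith) e2.le hcon
  have e5 := sin_ge_sub_cube (x := 0.56) (by norm_num)
  rw [e3] at e1
  norm_num at e5
  linarith

/-- **`|f - arcsin p| ≤ 0.62 c` for all states** -/
theorem delta_bd (hG1 : G1 s 0 f = 0) (hG2 : G2 s 0 f = 0) (t : ℝ) :
    |f t - arcsin (s * cos t)| ≤ 0.62 * cc s := by
  rcases h0.lt_or_eq with hs | hs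
  · exact delta_le h0 h1 hf hs hG1 hG2 t
  · subst hs
    rw [zero_mul, arcsin_zero, sub_zero, cc0]
    refine (zero_bd hf hG1 hG2 t).trans ?_
    linarith [pi_lt_d2]

end Pool.Agent.FPX.PTB
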