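import Mathlib
import Pool.Agent.FPX.BTA
import Pool.Agent.FPX.BTE
import Pool.Agent.FPX.ALY
import Pool.Agent.FPX.PTE

/-
BTC (helper15): the linear certificate in the visual angle. Condition `RW` (elimination of `K` with a reciprocal
weight `q (e^{ia}, X a)`) on the class `St s'` at the control points of a polynomial curve of coefficient vectors
gives the certificate for all states of a latitude cell.
-/

open MeasureTheory Set Filter Topology Real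
open scoped NNReal ComplexConjugate

noncomputable section

namespace Pool.Agent.FPX.BTN

open Pool.Agent.FPX.ALX
open Pool.Agent.FPX.UMP (Ef)
open Pool.Agent.FPX.F54 (X1 X2 X_lt X_G1 X_G2 G1 G2 kk pr)
open Pool.Agent.FPX.S54 (de)
open Pool.Agent.FPX.OMB (vm vm_int vm_prob)
open Pool.Agent.FPX.OMS (rF cF)
open Pool.Agent.FPX.CERQ (xT Er sr)
open Pool.Agent.FPX.OM7 (Cof CertAt)
open Pool.Agent.FPX.CRD (Bm)

/-- the normalised measure of the visual angle -/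
def va : Measure ℝ := ENNReal.ofReal (2 * π)⁻¹ • volume.restrict (Ioc 0 (2 * π))

/-- the direction `e^{ia}` -/
def e1 (a : ℝ) : ℂ := Complex.exp (a * Complex.I)

theorem int_va {F : Type*} [NormedAddCommGroup F] [NormedSpace ℝ F] (G : ℝ → F) :
    ∫ a, G a ∂va = (2 * π)⁻¹ • ∫ a in (0 : ℝ)..(2 * π), G a := by
  unfold va
  rw [integral_smul_measure, intervalIntegral.integral_of_le (by positivity),
    ENNReal.toReal_ofReal (by positivity)]

instance va_prob : IsProbabilityMeasure va := by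
  refine ⟨?_⟩
  unfold va
  rw [Measure.smul_apply, Measure.restrict_apply_univ, Real.volume_Ioc, smul_eq_mul,
    ← ENNReal.ofReal_mul (by positivity)]
  have : (2 * π)⁻¹ * (2 * π - 0) = 1 := by
    rw [sub_zero]
    exact inv_mul_cancel₀ (by positivity)
  rw [this, ENNReal.ofReal_one]

theorem e1_cont : Continuous e1 := by
  unfold e1
  fun_prop

theorem norm_e1 (a : ℝ) : ‖e1 a‖ = 1 := Complex.norm_exp_ofReal_mul_I a

variable {f : ℝ → ℝ}

/-- integrals over the two frames -/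
theorem tr_C (hf : Ef f) (h0 : 0 ≤ X1 f) (h2 : X2 f = 0) {Φ : ℂ → ℝ → ℂ}
    (hΦ : Continuous fun p : ℂ × ℝ => Φ p.1 p.2) :
    ∫ t, Φ (ef f t) (xT f t) ∂(nf f) = ∫ a, Φ (e1 a) (Xa (X1 f) f a) ∂va := by
  have h := ALY.vm_mean hf h0 h2 hΦ
  rw [int_va, Complex.real_smul]
  have e : ∫ t, Φ (ef f t) (xT f t) ∂(nf f) = ∫ t, Φ (Er f t) (xT f t) ∂(vm (X1 f) 0) := by
    unfold Er
    rw [nf, ef, h2]
  rw [e, h]
  rfl

theorem tr_R (hf : Ef f) (h0 : 0 ≤ X1 f) (h2 : X2 f = 0) {Φ : ℂ → ℝ → ℝ}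
    (hΦ : Continuous fun p : ℂ × ℝ => Φ p.1 p.2) :
    ∫ t, Φ (ef f t) (xT f t) ∂(nf f) = ∫ a, Φ (e1 a) (Xa (X1 f) f a) ∂va := by
  have h := ALY.vm_meanR hf h0 h2 hΦ
  rw [int_va, smul_eq_mul]
  have e : ∫ t, Φ (ef f t) (xT f t) ∂(nf f) = ∫ t, Φ (Er f t) (xT f t) ∂(vm (X1 f) 0) := by
    unfold Er
    rw [nf, ef, h2]
  rw [e, h]
  rfl

theorem tM3 (hf : Ef f) (h0 : 0 ≤ X1 f) (h2 : X2 f = 0) :
    M3 (nf f) (xT f) (ef f) = M3 va (Xa (X1 f) f) e1 :=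
  tr_C hf h0 h2 (Φ := fun e x => (x : ℂ) * e ^ 3) (by fun_prop)

theorem tM5 (hf : Ef f) (h0 : 0 ≤ X1 f) (h2 : X2 f = 0) :
    M5 (nf f) (xT f) (ef f) = M5 va (Xa (X1 f) f) e1 :=
  tr_C hf h0 h2 (Φ := fun e x => (x : ℂ) * e ^ 5) (by fun_prop)

theorem tP0 (hf : Ef f) (h0 : 0 ≤ X1 f) (h2 : X2 f = 0) : P0 (nf f) (xT f) = P0 va (Xa (X1 f) f) :=
  tr_R hf h0 h2 (Φ := fun _ x => x ^ 2) (by fun_prop)

theorem tP2 (hf : Ef f) (h0 : 0 ≤ X1 f) (h2 : X2 f = 0) :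
    P2 (nf f) (xT f) (ef f) = P2 va (Xa (X1 f) f) e1 :=
  tr_C hf h0 h2 (Φ := fun e x => (x : ℂ) ^ 2 * e ^ 2) (by fun_prop)

theorem tP4 (hf : Ef f) (h0 : 0 ≤ X1 f) (h2 : X2 f = 0) :
    P4 (nf f) (xT f) (ef f) = P4 va (Xa (X1 f) f) e1 :=
  tr_C hf h0 h2 (Φ := fun e x => (x : ℂ) ^ 2 * e ^ 4) (by fun_prop)

theorem t_rest (hf : Ef f) (h0 : 0 ≤ X1 f) (h2 : X2 f = 0) (v : CV) (A B N M α β γ δ : ℂ) :
    restv (nf f) (xT f) (ef f) v A B N M α β γ δ = restv va (Xa (X1 f) f) e1 v A B N M α β γ δ := by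
  unfold restv Wv bvv rp rm sg
  rw [tM3 hf h0 h2, tM5 hf h0 h2, tP0 hf h0 h2, tP2 hf h0 h2, tP4 hf h0 h2]

/-- the function `h` as a function of the direction and of `x` -/
def hfn (v : CV) (m : ℂ) (A B α β γ δ : ℂ) (e : ℂ) (x : ℝ) : ℂ :=
  α * e + (β * conj e + (γ * e ^ 3 + (δ * conj (e ^ 3)
    + (A * ((v 3 : ℂ) * ((x : ℂ) * e ^ 2) + ((v 8 : ℂ) * ((x : ℂ) * conj e ^ 2) + ((v 9 : ℂ) * (x : ℂ)
      + ((v 10 : ℂ) * conj e ^ 3 + ((v 5 : ℂ) * e ^ 3 + (v 7 : ℂ) * (((conj m * e ^ 3).re : ℝ) : ℂ))))))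
    - conj B * conj ((v 3 : ℂ) * ((x : ℂ) * e ^ 2) + ((v 8 : ℂ) * ((x : ℂ) * conj e ^ 2) + ((v 9 : ℂ) * (x : ℂ)
      + ((v 10 : ℂ) * conj e ^ 3 + ((v 5 : ℂ) * e ^ 3 + (v 7 : ℂ) * (((conj m * e ^ 3).re : ℝ) : ℂ))))))))))

theorem hfn_eq {X : Type*} [MeasurableSpace X] (ν : Measure X) (D : X → ℝ) (E : X → ℂ) (v : CV)
    (A B α β γ δ : ℂ) (t : X) : hv ν D E v A B α β γ δ t = hfn v (M3 ν D E) A B α β γ δ (E t) (D t) := rfl

theorem hfn_cont (v : CV) (m A B α β γ δ : ℂ) :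
    Continuous fun p : ℂ × ℝ => hfn v m A B α β γ δ p.1 p.2 := by
  unfold hfn
  have c1 : Continuous fun p : ℂ × ℝ => conj p.1 := Complex.continuous_conj.comp continuous_fst
  have c2 : Continuous fun p : ℂ × ℝ => (p.2 : ℂ) := Complex.continuous_ofReal.comp continuous_snd
  have c3 : Continuous fun p : ℂ × ℝ => (((conj m * p.1 ^ 3).re : ℝ) : ℂ) :=
    Complex.continuous_ofReal.comp (Complex.continuous_re.comp (continuous_const.mul (continuous_fst.pow 3)))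
  have c4 : Continuous fun p : ℂ × ℝ => (v 3 : ℂ) * ((p.2 : ℂ) * p.1 ^ 2) + ((v 8 : ℂ) * ((p.2 : ℂ) * conj p.1 ^ 2)
      + ((v 9 : ℂ) * (p.2 : ℂ) + ((v 10 : ℂ) * conj p.1 ^ 3 + ((v 5 : ℂ) * p.1 ^ 3
      + (v 7 : ℂ) * (((conj m * p.1 ^ 3).re : ℝ) : ℂ))))) :=
    (continuous_const.mul (c2.mul (continuous_fst.pow 2))).add ((continuous_const.mul (c2.mul (c1.pow 2))).add
      ((continuous_const.mul c2).add ((continuous_const.mul (c1.pow 3)).add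
      ((continuous_const.mul (continuous_fst.pow 3)).add (continuous_const.mul c3)))))
  exact (continuous_const.mul continuous_fst).add ((continuous_const.mul c1).add
    ((continuous_const.mul (continuous_fst.pow 3)).add ((continuous_const.mul
      (Complex.continuous_conj.comp (continuous_fst.pow 3))).add ((continuous_const.mul c4).sub
      (continuous_const.mul (Complex.continuous_conj.comp c4))))))

/-- **the condition at a coefficient vector**: a continuous reciprocal weight `q` of the direction and of `x`, positive for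
`|e| = 1`, `|x| ≤ 1`, and multipliers -/
def RW {X : Type*} [MeasurableSpace X] (ν : Measure X) (D : X → ℝ) (E : X → ℂ) (v : CV) (T : ℝ) : Prop :=
  ∃ q : ℂ → ℝ → ℝ, Continuous (fun p : ℂ × ℝ => q p.1 p.2) ∧ (∀ e x, ‖e‖ = 1 → |x| ≤ 1 → 0 < q e x) ∧
    ∫ t, 1 / q (E t) (D t) ∂ν ≤ T ∧
    ∀ A B N M : ℂ, ∃ α β γ δ : ℂ, restv ν D E v A B N M α β γ δ
      + ∫ t, ‖hv ν D E v A B α β γ δ t‖ ^ 2 * q (E t) (D t) ∂ν ≤ 0

theorem q_bounds {q : ℂ → ℝ → ℝ} (hq : Continuous (fun p : ℂ × ℝ => q p.1 p.2))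
    (hp : ∀ e x, ‖e‖ = 1 → |x| ≤ 1 → 0 < q e x) :
    ∃ a b : ℝ, 0 < a ∧ ∀ e x, ‖e‖ = 1 → |x| ≤ 1 → a ≤ q e x ∧ q e x ≤ b := by
  have hc : IsCompact (Metric.sphere (0 : ℂ) 1 ×ˢ Metric.closedBall (0 : ℝ) 1) :=
    (isCompact_sphere 0 1).prod (isCompact_closedBall 0 1)
  have hne : (Metric.sphere (0 : ℂ) 1 ×ˢ Metric.closedBall (0 : ℝ) 1).Nonempty :=
    ⟨(1, 0), by simp⟩
  obtain ⟨p, hp1, hp2⟩ := hc.exists_isMinOn hne hq.continuousOn
  obtain ⟨r, hr1, hr2⟩ := hc.exists_isMaxOn hne hq.continuousOn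
  refine ⟨q p.1 p.2, q r.1 r.2, ?_, fun e x he hx => ?_⟩
  · obtain ⟨h1, h2⟩ := hp1
    exact hp _ _ (by simpa using h1) (by simpa using h2)
  · have hm : (e, x) ∈ Metric.sphere (0 : ℂ) 1 ×ˢ Metric.closedBall (0 : ℝ) 1 :=
      ⟨by simpa using he, by simpa using hx⟩
    exact ⟨hp2 hm, hr2 hm⟩

theorem NC_of_RW {X : Type*} [MeasurableSpace X] {ν : Measure X} [IsFiniteMeasure ν] {D : X → ℝ} {E : X → ℂ}
    (mD : Measurable D) (mE : Measurable E) (hD : ∀ t, |D t| ≤ 1) (hE : ∀ t, ‖E t‖ = 1) {v : CV} {T : ℝ}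
    (H : RW ν D E v T) : NC ν D E v T := by
  obtain ⟨q, hq, hp, hT, h⟩ := H
  obtain ⟨a, b, ha, hab⟩ := q_bounds hq hp
  have bD : Bm fun t => (D t : ℂ) := ⟨Complex.measurable_ofReal.comp mD, 1, fun t => by
    rw [Complex.norm_real]
    exact hD t⟩
  have bE : Bm E := ⟨mE, 1, fun t => (hE t).le⟩
  exact NC_rw bD bE (q := fun t => q (E t) (D t)) (hq.measurable.comp (mE.prodMk mD)) ha
    (fun t => hab _ _ (hE t) (hD t)) hT h

/-- the condition in the visual angle gives the condition for the state -/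
theorem RW_tr (hf : Ef f) (h0 : 0 ≤ X1 f) (h2 : X2 f = 0) (hx : ∀ t, |xT f t| ≤ 1) {v : CV} {T : ℝ}
    (H : RW va (Xa (X1 f) f) e1 v T) : RW (nf f) (xT f) (ef f) v T := by
  obtain ⟨q, hq, hp, hT, h⟩ := H
  -- a continuous weight that is positive everywhere
  obtain ⟨a, b, ha, hab⟩ := q_bounds hq hp
  set Q : ℂ → ℝ → ℝ := fun e x => max a (q e x) with hQ
  have cQ : Continuous fun p : ℂ × ℝ => Q p.1 p.2 := continuous_const.max hq
  have pQ : ∀ e x, 0 < Q e x := fun e x => lt_of_lt_of_le ha (le_max_left _ _)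
  have eQ : ∀ e x, ‖e‖ = 1 → |x| ≤ 1 → Q e x = q e x := fun e x he hx => max_eq_right (hab e x he hx).1
  have hXa : ∀ a, |Xa (X1 f) f a| ≤ 1 := fun a => by
    rw [← ALY.xT_tA hf h0 h2]
    exact hx _
  have hE : ∀ t, ‖ef f t‖ = 1 := fun t => C54.norm_ep (X_lt hf) t
  refine ⟨Q, cQ, fun e x _ _ => pQ e x, ?_, fun A B N M => ?_⟩
  · have c : Continuous fun p : ℂ × ℝ => 1 / Q p.1 p.2 := continuous_const.div cQ fun p => (pQ _ _).ne'
    rw [tr_R hf h0 h2 (Φ := fun e x => 1 / Q e x) c]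
    refine le_trans (le_of_eq ?_) hT
    congr 1
    funext a
    rw [eQ _ _ (norm_e1 a) (hXa a)]
  · obtain ⟨α, β, γ, δ, k⟩ := h A B N M
    refine ⟨α, β, γ, δ, ?_⟩
    have c : Continuous fun p : ℂ × ℝ => ‖hfn v (M3 va (Xa (X1 f) f) e1) A B α β γ δ p.1 p.2‖ ^ 2 * Q p.1 p.2 :=
      ((hfn_cont v _ A B α β γ δ).norm.pow 2).mul cQ
    rw [t_rest hf h0 h2]
    simp only [hfn_eq] at k ⊢
    rw [tM3 hf h0 h2,
      tr_R hf h0 h2 (Φ := fun e x => ‖hfn v (M3 va (Xa (X1 f) f) e1) A B α β γ δ e x‖ ^ 2 * Q e x) c]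
    refine le_trans (le_of_eq ?_) k
    congr 2
    funext a
    rw [eQ _ _ (norm_e1 a) (hXa a)]

/-- `|x| ≤ 0.62 s` -/
theorem xT_bd (hf : Ef f) (h0 : 0 ≤ X1 f) (h2 : X2 f = 0) (t : ℝ) : |xT f t| ≤ 31 / 50 * X1 f := by
  have h1 := ALY.s_lt hf h0 h2
  have g1 := X_G1 hf
  have g2 := X_G2 hf
  rw [h2] at g1 g2
  have h := PTB.delta_bd h0 h1 hf g1 g2 t
  have hc : 0 < cF f := cF_pos' hf
  have e : F54.cc (X1 f) = cF f := by
    unfold F54.cc cF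
    rw [rF_eq h2]
  have ed : de (X1 f) (X2 f) f t = f t - arcsin (X1 f * cos t) := by
    unfold de
    rw [h2, ALY.pr_s]
  unfold xT
  rw [rF_eq h2, Real.sqrt_sq h0, ed, abs_mul, abs_of_nonneg (by positivity)]
  rw [e] at h
  calc X1 f / cF f * |f t - arcsin (X1 f * cos t)| ≤ X1 f / cF f * (0.62 * cF f) := by gcongr
    _ = 31 / 50 * X1 f := by
        field_simp
        norm_num
        ring

theorem xT_le (hf : Ef f) (h0 : 0 ≤ X1 f) (h2 : X2 f = 0) (t : ℝ) : |xT f t| ≤ 1 := by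
  have := xT_bd hf h0 h2 t
  have := ALY.s_lt hf h0 h2
  linarith

theorem Xa_bd (hf : Ef f) (h0 : 0 ≤ X1 f) (h2 : X2 f = 0) (a : ℝ) : |Xa (X1 f) f a| ≤ 31 / 50 * X1 f := by
  rw [← ALY.xT_tA hf h0 h2]
  exact xT_bd hf h0 h2 _

/-- **the certificate at a state with `ζ > 0` from the condition in the visual angle** -/
theorem certAt_of_RW {W : ℝ → ℝ} {F : Cof} {μ T : ℝ} (hf : Ef f) (hs : 0 < X1 f) (h2 : X2 f = 0)
    (H : RW va (Xa (X1 f) f) e1 (vec W F μ (X1 f) (cF f)) T) : CertAt W F μ T f := by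
  have := vm_prob (X_lt hf)
  have hx := xT_le hf hs.le h2
  refine certAt_of_NC hf hs h2 (NC_of_RW ?_ ?_ hx ?_ (RW_tr hf hs.le h2 hx H))
  · exact (CERQ.cont_xT hf).measurable
  · exact (C54.cont_ep (X_lt hf)).measurable
  · exact fun t => C54.norm_ep (X_lt hf) t

/-- **a latitude cell**: the coefficient vector of `f` is on a polynomial curve with the control points `v j`; the condition
holds at every control point for all functions of the class `St s'`, `s ≤ s'`, with a property `P` of the state -/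
theorem cell {W : ℝ → ℝ} {F : Cof} {μ T : ℝ} (hf : Ef f) (hs : 0 < X1 f) (h2 : X2 f = 0)
    {s' : ℝ} (hs' : X1 f ≤ s') (h1 : s' ≤ 1) {P : (ℝ → ℝ) → Prop} (hP : P (Xa (X1 f) f))
    {n : ℕ} {u : ℝ} (u0 : 0 ≤ u) (u1 : u ≤ 1) {v : ℕ → CV}
    (hv : vec W F μ (X1 f) (cF f) = ∑ j ∈ Finset.range (n + 1), bw n u j • v j)
    (H : ∀ j ≤ n, ∀ X, St s' X → (∀ a, |X a| ≤ 31 / 50 * s') → P X → RW va X e1 (v j) T) : CertAt W F μ T f := by
  have := vm_prob (X_lt hf)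
  have hx := xT_le hf hs.le h2
  have hS := (ALY.st hf hs.le h2).mono hs.le hs' h1
  have hb : ∀ a, |Xa (X1 f) f a| ≤ 31 / 50 * s' := fun a => (Xa_bd hf hs.le h2 a).trans (by linarith)
  refine certAt_of_NC hf hs h2 ?_
  rw [hv]
  refine NC.bern u0 u1 fun j hj => NC_of_RW ?_ ?_ hx ?_ (RW_tr hf hs.le h2 hx (H j hj _ hS hb hP))
  · exact (CERQ.cont_xT hf).measurable
  · exact (C54.cont_ep (X_lt hf)).measurable
  · exact fun t => C54.norm_ep (X_lt hf) t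

end Pool.Agent.FPX.BTN
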