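import Mathlib
import Pool.Agent.FPX.BTC

/-
BTG (helper15): GENERIC version of BTN / BTE / BTC / BTX: a certificate which is affine in a vector of coefficients
`v` (and convex in the coefficients `u` of the deviation of the start map), for arbitrary finite families of moments,
test functions, kernels and terms. Convexity, elimination of `K`, passage to the visual angle, latitude cells.
-/

open MeasureTheory Set Filter Topology Real
open scoped NNReal ComplexConjugate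

noncomputable section

set_option linter.unusedSectionVars false

namespace Pool.Agent.FPX.BTG

open Pool.Agent.FPX.CRD (Bm)
open Pool.Agent.FPX.ALX
open Pool.Agent.FPX.BTN (va e1 nf ef)
open Pool.Agent.FPX.UMP (Ef)
open Pool.Agent.FPX.F54 (X1 X2 X_lt X_G1 X_G2)
open Pool.Agent.FPX.OMB (vm vm_int vm_prob)
open Pool.Agent.FPX.CERQ (xT)

/-- a class of certificates: moments `g j = mean (g_j (E, D))`, test functions `ρ l`, kernels `κ i`, terms `θ i` and terms
`ψ q` of the deviation (functions of the moments, of `A, B` and of the integrals `∫ ρ_l K`, `∫ ρ_l conj K`), `σ` -/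
structure Cls (J L I Q : Type) where
  g : J → ℂ → ℝ → ℂ
  ρ : L → ℂ → ℝ → ℂ
  κ : I → (J → ℂ) → ℂ → ℝ → ℂ
  θ : I → (J → ℂ) → ℂ → ℂ → (L → ℂ) → (L → ℂ) → ℝ
  ψ : Q → (J → ℂ) → ℂ → ℂ → (L → ℂ) → (L → ℂ) → ℂ
  σ : (J → ℂ) → ℂ
  cg : ∀ j, Continuous fun p : ℂ × ℝ => g j p.1 p.2
  cρ : ∀ l, Continuous fun p : ℂ × ℝ => ρ l p.1 p.2
  cκ : ∀ i m, Continuous fun p : ℂ × ℝ => κ i m p.1 p.2

variable {J L I Q : Type} [Fintype L] [Fintype I] [Fintype Q] (C : Cls J L I Q)
variable {X : Type*} [MeasurableSpace X]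

/-- a state: probability measure, `|D| ≤ 1`, `|E| = 1` -/
structure Sta (ν : Measure X) (D : X → ℝ) (E : X → ℂ) : Prop where
  pr : IsProbabilityMeasure ν
  mD : Measurable D
  mE : Measurable E
  hD : ∀ t, |D t| ≤ 1
  hE : ∀ t, ‖E t‖ = 1

section defs

/-- the kernel -/
def ker (v : I → ℝ) (m : J → ℂ) (e : ℂ) (x : ℝ) : ℂ := ∑ i, (v i : ℂ) * C.κ i m e x

/-- the terms without the kernel -/
def tht (v : I → ℝ) (m : J → ℂ) (A B : ℂ) (a b : L → ℂ) : ℝ := ∑ i, v i * C.θ i m A B a b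

/-- the deviation -/
def dev (u : Q → ℝ) (m : J → ℂ) (A B : ℂ) (a b : L → ℂ) : ℂ := ∑ q, (u q : ℂ) * C.ψ q m A B a b

variable (ν : Measure X) (D : X → ℝ) (E : X → ℂ)

/-- the moments -/
def mo (j : J) : ℂ := ∫ t, C.g j (E t) (D t) ∂ν

/-- `∫ ρ_l K` -/
def aK (K : X → ℂ) (l : L) : ℂ := ∫ t, C.ρ l (E t) (D t) * K t ∂ν

/-- `∫ ρ_l conj K` -/
def bK (K : X → ℂ) (l : L) : ℂ := ∫ t, C.ρ l (E t) (D t) * conj (K t) ∂ν

/-- the left side of the certificate -/
def lh (v : I → ℝ) (u : Q → ℝ) (μ : ℝ) (K : X → ℂ) (A B : ℂ) : ℝ :=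
  tht C v (mo C ν D E) A B (aK C ν D E K) (bK C ν D E K)
    + 2 * (A * ∫ t, ker C v (mo C ν D E) (E t) (D t) * K t ∂ν).re
    - 2 * (B * ∫ t, ker C v (mo C ν D E) (E t) (D t) * conj (K t) ∂ν).re
    + 2 * μ * ‖dev C u (mo C ν D E) A B (aK C ν D E K) (bK C ν D E K)‖ ^ 2

/-- **the certificate at one state** -/
def NC (v : I → ℝ) (u : Q → ℝ) (μ T : ℝ) : Prop :=
  ∀ K : X → ℂ, Measurable K → (∀ t, ‖K t‖ ≤ 1) → ∀ A B : ℂ,
    A - C.σ (mo C ν D E) * conj B = ∫ t, E t * conj (K t) ∂ν →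
    B - C.σ (mo C ν D E) * conj A = ∫ t, E t * K t ∂ν → lh C ν D E v u μ K A B ≤ T

/-- the combination of the functions of the certificate, as a function of the direction and of `x` -/
def hh (v : I → ℝ) (m : J → ℂ) (A B α β : ℂ) (γ δ : L → ℂ) (e : ℂ) (x : ℝ) : ℂ :=
  α * e + β * conj e + ∑ l, (γ l * C.ρ l e x + δ l * conj (C.ρ l e x)) + A * ker C v m e x
    - conj B * conj (ker C v m e x)

/-- the terms without `K` -/
def rst (v : I → ℝ) (u : Q → ℝ) (μ : ℝ) (m : J → ℂ) (A B : ℂ) (a b : L → ℂ) (α β : ℂ) (γ δ : L → ℂ) : ℝ :=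
  tht C v m A B a b + 2 * μ * ‖dev C u m A B a b‖ ^ 2
    - 2 * (conj α * conj (B - C.σ m * conj A) + conj β * (A - C.σ m * conj B)
      + ∑ l, (conj (γ l) * conj (a l) + conj (δ l) * b l)).re

/-- **the condition at a coefficient vector** (elimination of `K` with a reciprocal weight `q`) -/
def RW (v : I → ℝ) (u : Q → ℝ) (μ T : ℝ) : Prop :=
  ∃ q : ℂ → ℝ → ℝ, Continuous (fun p : ℂ × ℝ => q p.1 p.2) ∧ (∀ e x, ‖e‖ = 1 → |x| ≤ 1 → 0 < q e x) ∧
    ∫ t, 1 / q (E t) (D t) ∂ν ≤ T ∧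
    ∀ (A B : ℂ) (a b : L → ℂ), ∃ (α β : ℂ) (γ δ : L → ℂ), rst C v u μ (mo C ν D E) A B a b α β γ δ
      + ∫ t, ‖hh C v (mo C ν D E) A B α β γ δ (E t) (D t)‖ ^ 2 * q (E t) (D t) ∂ν ≤ 0

end defs

variable {C} {ν : Measure X} {D : X → ℝ} {E : X → ℂ}

/-! ### convexity -/

section conv

variable {κ : Type*} {S : Finset κ} {c : κ → ℝ} {v : κ → I → ℝ} {u : κ → Q → ℝ}

theorem ker_sum (m : J → ℂ) (e : ℂ) (x : ℝ) :
    ker C (∑ j ∈ S, c j • v j) m e x = ∑ j ∈ S, (c j : ℂ) * ker C (v j) m e x := by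
  unfold ker
  simp only [Finset.mul_sum]
  rw [Finset.sum_comm]
  refine Finset.sum_congr rfl fun i _ => ?_
  rw [Finset.sum_apply]
  simp only [Pi.smul_apply, smul_eq_mul]
  push_cast
  rw [Finset.sum_mul]
  exact Finset.sum_congr rfl fun j _ => by ring

theorem tht_sum (m : J → ℂ) (A B : ℂ) (a b : L → ℂ) :
    tht C (∑ j ∈ S, c j • v j) m A B a b = ∑ j ∈ S, c j * tht C (v j) m A B a b := by
  unfold tht
  simp only [Finset.mul_sum]
  rw [Finset.sum_comm]
  refine Finset.sum_congr rfl fun i _ => ?_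
  rw [Finset.sum_apply]
  simp only [Pi.smul_apply, smul_eq_mul]
  rw [Finset.sum_mul]
  exact Finset.sum_congr rfl fun j _ => by ring

theorem dev_sum (m : J → ℂ) (A B : ℂ) (a b : L → ℂ) :
    dev C (∑ j ∈ S, c j • u j) m A B a b = ∑ j ∈ S, (c j : ℂ) * dev C (u j) m A B a b := by
  unfold dev
  simp only [Finset.mul_sum]
  rw [Finset.sum_comm]
  refine Finset.sum_congr rfl fun i _ => ?_
  rw [Finset.sum_apply]
  simp only [Pi.smul_apply, smul_eq_mul]
  push_cast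
  rw [Finset.sum_mul]
  exact Finset.sum_congr rfl fun j _ => by ring

theorem norm_sq_conv (hc : ∀ j ∈ S, 0 ≤ c j) (h1 : ∑ j ∈ S, c j = 1)
    (z : κ → ℂ) : ‖∑ j ∈ S, (c j : ℂ) * z j‖ ^ 2 ≤ ∑ j ∈ S, c j * ‖z j‖ ^ 2 := by
  have h := (even_two.convexOn_pow (𝕜 := ℝ)).map_sum_le (t := S) (w := c) (p := fun j => ‖z j‖) hc h1
    (fun j _ => mem_univ _)
  simp only [smul_eq_mul] at h
  refine le_trans (pow_le_pow_left₀ (norm_nonneg _) ?_ 2) h
  refine (norm_sum_le _ _).trans (Finset.sum_le_sum fun j hj => ?_)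
  rw [norm_mul, Complex.norm_real, Real.norm_eq_abs, abs_of_nonneg (hc j hj)]

end conv

/-! ### bounded functions -/

/-- a continuous function is bounded for `|e| = 1`, `|x| ≤ 1` -/
theorem bd_of_cont {Φ : ℂ → ℝ → ℂ} (h : Continuous fun p : ℂ × ℝ => Φ p.1 p.2) :
    ∃ M : ℝ, ∀ e x, ‖e‖ = 1 → |x| ≤ 1 → ‖Φ e x‖ ≤ M := by
  have hc : IsCompact (Metric.sphere (0 : ℂ) 1 ×ˢ Metric.closedBall (0 : ℝ) 1) :=
    (isCompact_sphere 0 1).prod (isCompact_closedBall 0 1)
  have hne : (Metric.sphere (0 : ℂ) 1 ×ˢ Metric.closedBall (0 : ℝ) 1).Nonempty := ⟨(1, 0), by simp⟩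
  obtain ⟨r, hr1, hr2⟩ := hc.exists_isMaxOn hne h.norm.continuousOn
  refine ⟨‖Φ r.1 r.2‖, fun e x he hx => ?_⟩
  have hm : (e, x) ∈ Metric.sphere (0 : ℂ) 1 ×ˢ Metric.closedBall (0 : ℝ) 1 :=
    ⟨by simpa using he, by simpa using hx⟩
  exact hr2 hm

theorem Sta.bm (H : Sta ν D E) {Φ : ℂ → ℝ → ℂ} (h : Continuous fun p : ℂ × ℝ => Φ p.1 p.2) :
    Bm fun t => Φ (E t) (D t) := by
  obtain ⟨M, hM⟩ := bd_of_cont h
  exact ⟨h.measurable.comp (H.mE.prodMk H.mD), M, fun t => hM _ _ (H.hE t) (H.hD t)⟩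

theorem ker_cont (v : I → ℝ) (m : J → ℂ) : Continuous fun p : ℂ × ℝ => ker C v m p.1 p.2 :=
  continuous_finsetSum _ fun i _ => continuous_const.mul (C.cκ i m)

theorem hh_cont (v : I → ℝ) (m : J → ℂ) (A B α β : ℂ) (γ δ : L → ℂ) :
    Continuous fun p : ℂ × ℝ => hh C v m A B α β γ δ p.1 p.2 := by
  have c1 : Continuous fun p : ℂ × ℝ => conj p.1 := Complex.continuous_conj.comp continuous_fst
  have ck := ker_cont (C := C) v m
  exact ((((continuous_const.mul continuous_fst).add (continuous_const.mul c1)).add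
    (continuous_finsetSum _ fun l _ => (continuous_const.mul (C.cρ l)).add
      (continuous_const.mul (Complex.continuous_conj.comp (C.cρ l))))).add (continuous_const.mul ck)).sub
    (continuous_const.mul (Complex.continuous_conj.comp ck))

/-- **convexity in the coefficients** -/
theorem NC.comb (H : Sta ν D E) {κ : Type*} {S : Finset κ} {c : κ → ℝ} (hc : ∀ j ∈ S, 0 ≤ c j)
    (h1 : ∑ j ∈ S, c j = 1) {v : κ → I → ℝ} {u : κ → Q → ℝ} {μ T : ℝ} (hμ : 0 ≤ μ)
    (h : ∀ j ∈ S, NC C ν D E (v j) (u j) μ T) :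
    NC C ν D E (∑ j ∈ S, c j • v j) (∑ j ∈ S, c j • u j) μ T := by
  have := H.pr
  intro K hK hK1 A B hA hB
  have bmK : Bm K := ⟨hK, 1, hK1⟩
  set m := mo C ν D E with hm
  have hsum : ∀ (K' : X → ℂ), Bm K' → ∫ t, ker C (∑ j ∈ S, c j • v j) m (E t) (D t) * K' t ∂ν =
      ∑ j ∈ S, (c j : ℂ) * ∫ t, ker C (v j) m (E t) (D t) * K' t ∂ν := by
    intro K' b'
    have e : (fun t => ker C (∑ j ∈ S, c j • v j) m (E t) (D t) * K' t) =
        fun t => ∑ j ∈ S, (c j : ℂ) * (ker C (v j) m (E t) (D t) * K' t) := by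
      funext t
      rw [ker_sum, Finset.sum_mul]
      exact Finset.sum_congr rfl fun j _ => by ring
    rw [e, integral_finsetSum]
    · exact Finset.sum_congr rfl fun j _ => integral_const_mul _ _
    · exact fun j _ => ((Bm.const _).mul ((H.bm (ker_cont (v j) m)).mul b')).int
  have key : ∑ j ∈ S, c j * lh C ν D E (v j) (u j) μ K A B ≤ T := by
    calc _ ≤ ∑ j ∈ S, c j * T :=
        Finset.sum_le_sum fun j hj => mul_le_mul_of_nonneg_left (h j hj K hK hK1 A B hA hB) (hc j hj)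
      _ = T := by rw [← Finset.sum_mul, h1, one_mul]
  have e2 : ∀ (Z : ℂ) (y : κ → ℂ), 2 * (Z * ∑ j ∈ S, (c j : ℂ) * y j).re = ∑ j ∈ S, c j * (2 * (Z * y j).re) := by
    intro Z y
    rw [Finset.mul_sum, Complex.re_sum, Finset.mul_sum]
    refine Finset.sum_congr rfl fun j _ => ?_
    rw [mul_left_comm, Complex.re_ofReal_mul]
    ring
  refine le_trans ?_ key
  unfold lh
  rw [← hm, hsum K bmK, hsum (fun t => conj (K t)) bmK.conj, tht_sum, dev_sum, e2, e2]
  have h2 := norm_sq_conv hc h1 (fun j => dev C (u j) m A B (aK C ν D E K) (bK C ν D E K))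
  have h3 := mul_le_mul_of_nonneg_left h2 (show (0 : ℝ) ≤ 2 * μ by linarith)
  rw [Finset.mul_sum] at h3
  have e3 : ∑ j ∈ S, c j * (tht C (v j) m A B (aK C ν D E K) (bK C ν D E K)
      + 2 * (A * ∫ t, ker C (v j) m (E t) (D t) * K t ∂ν).re
      - 2 * (B * ∫ t, ker C (v j) m (E t) (D t) * conj (K t) ∂ν).re
      + 2 * μ * ‖dev C (u j) m A B (aK C ν D E K) (bK C ν D E K)‖ ^ 2) =
      ∑ j ∈ S, c j * tht C (v j) m A B (aK C ν D E K) (bK C ν D E K)
      + ∑ j ∈ S, c j * (2 * (A * ∫ t, ker C (v j) m (E t) (D t) * K t ∂ν).re)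
      - ∑ j ∈ S, c j * (2 * (B * ∫ t, ker C (v j) m (E t) (D t) * conj (K t) ∂ν).re)
      + ∑ j ∈ S, 2 * μ * (c j * ‖dev C (u j) m A B (aK C ν D E K) (bK C ν D E K)‖ ^ 2) := by
    rw [← Finset.sum_add_distrib, ← Finset.sum_sub_distrib, ← Finset.sum_add_distrib]
    exact Finset.sum_congr rfl fun j _ => by ring
  rw [e3]
  linarith

/-! ### elimination of `K` -/

/-- **elimination of `K` by the modulus** -/
theorem NC_mod (H : Sta ν D E) {v : I → ℝ} {u : Q → ℝ} {μ T : ℝ}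
    (h : ∀ (A B : ℂ) (a b : L → ℂ), ∃ (α β : ℂ) (γ δ : L → ℂ), rst C v u μ (mo C ν D E) A B a b α β γ δ
      + 2 * ∫ t, ‖hh C v (mo C ν D E) A B α β γ δ (E t) (D t)‖ ∂ν ≤ T) : NC C ν D E v u μ T := by
  have := H.pr
  intro K hK hK1 A B hA hB
  set m := mo C ν D E with hm
  obtain ⟨α, β, γ, δ, h'⟩ := h A B (aK C ν D E K) (bK C ν D E K)
  have bmK : Bm K := ⟨hK, 1, hK1⟩
  have bh : Bm fun t => hh C v m A B α β γ δ (E t) (D t) := H.bm (hh_cont v m A B α β γ δ)
  have bk : Bm fun t => ker C v m (E t) (D t) := H.bm (ker_cont v m)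
  have bE : Bm E := ⟨H.mE, 1, fun t => (H.hE t).le⟩
  have bρ : ∀ l, Bm fun t => C.ρ l (E t) (D t) := fun l => H.bm (C.cρ l)
  have cj : ∀ φ : X → ℂ, ∫ t, conj (φ t) ∂ν = conj (∫ t, φ t ∂ν) := fun φ => integral_conj
  have e : ∫ t, conj (K t) * conj (hh C v m A B α β γ δ (E t) (D t)) ∂ν =
      conj α * conj (∫ t, E t * K t ∂ν) + (conj β * ∫ t, E t * conj (K t) ∂ν
      + (∑ l, (conj (γ l) * conj (aK C ν D E K l) + conj (δ l) * bK C ν D E K l)
      + (conj A * conj (∫ t, ker C v m (E t) (D t) * K t ∂ν)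
      - B * ∫ t, ker C v m (E t) (D t) * conj (K t) ∂ν))) := by
    have e1 : (fun t => conj (K t) * conj (hh C v m A B α β γ δ (E t) (D t))) = fun t =>
        conj α * conj (E t * K t) + (conj β * (E t * conj (K t))
        + (∑ l, (conj (γ l) * conj (C.ρ l (E t) (D t) * K t) + conj (δ l) * (C.ρ l (E t) (D t) * conj (K t)))
        + (conj A * conj (ker C v m (E t) (D t) * K t) - B * (ker C v m (E t) (D t) * conj (K t))))) := by
      funext t
      unfold hh
      simp only [map_add, map_sub, map_mul, map_sum, Complex.conj_conj]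
      have : conj (K t) * ∑ l, (conj (γ l) * conj (C.ρ l (E t) (D t)) + conj (δ l) * C.ρ l (E t) (D t)) =
          ∑ l, (conj (γ l) * (conj (C.ρ l (E t) (D t)) * conj (K t)) + conj (δ l) * (C.ρ l (E t) (D t) * conj (K t))) := by
        rw [Finset.mul_sum]
        exact Finset.sum_congr rfl fun l _ => by ring
      rw [← this]
      ring
    have b1 : Bm fun t => conj α * conj (E t * K t) := (Bm.const _).mul (bE.mul bmK).conj
    have b2 : Bm fun t => conj β * (E t * conj (K t)) := (Bm.const _).mul (bE.mul bmK.conj)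
    have b3 : ∀ l, Bm fun t => conj (γ l) * conj (C.ρ l (E t) (D t) * K t)
        + conj (δ l) * (C.ρ l (E t) (D t) * conj (K t)) := fun l =>
      ((Bm.const _).mul ((bρ l).mul bmK).conj).add ((Bm.const _).mul ((bρ l).mul bmK.conj))
    have b5 : Bm fun t => conj A * conj (ker C v m (E t) (D t) * K t) := (Bm.const _).mul (bk.mul bmK).conj
    have b6 : Bm fun t => B * (ker C v m (E t) (D t) * conj (K t)) := (Bm.const _).mul (bk.mul bmK.conj)
    have i4 : Integrable (fun t => conj A * conj (ker C v m (E t) (D t) * K t)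
        - B * (ker C v m (E t) (D t) * conj (K t))) ν := b5.int.sub b6.int
    have i3 : Integrable (fun t => ∑ l, (conj (γ l) * conj (C.ρ l (E t) (D t) * K t)
        + conj (δ l) * (C.ρ l (E t) (D t) * conj (K t)))) ν := integrable_finsetSum _ fun l _ => (b3 l).int
    have i34 : Integrable (fun t => ∑ l, (conj (γ l) * conj (C.ρ l (E t) (D t) * K t)
        + conj (δ l) * (C.ρ l (E t) (D t) * conj (K t)))
        + (conj A * conj (ker C v m (E t) (D t) * K t) - B * (ker C v m (E t) (D t) * conj (K t)))) ν :=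
      i3.add i4
    have i234 : Integrable (fun t => conj β * (E t * conj (K t))
        + (∑ l, (conj (γ l) * conj (C.ρ l (E t) (D t) * K t) + conj (δ l) * (C.ρ l (E t) (D t) * conj (K t)))
        + (conj A * conj (ker C v m (E t) (D t) * K t) - B * (ker C v m (E t) (D t) * conj (K t))))) ν :=
      b2.int.add i34
    rw [e1, integral_add b1.int i234, integral_add b2.int i34,
      integral_add i3 i4, integral_finsetSum _ fun l _ => (b3 l).int, integral_sub b5.int b6.int,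
      integral_const_mul, integral_const_mul, integral_const_mul, integral_const_mul, cj, cj]
    have e3 : ∀ l, ∫ t, (conj (γ l) * conj (C.ρ l (E t) (D t) * K t)
        + conj (δ l) * (C.ρ l (E t) (D t) * conj (K t))) ∂ν =
        conj (γ l) * conj (aK C ν D E K l) + conj (δ l) * bK C ν D E K l := by
      intro l
      have b31 : Bm fun t => conj (γ l) * conj (C.ρ l (E t) (D t) * K t) :=
        (Bm.const _).mul ((bρ l).mul bmK).conj
      have b32 : Bm fun t => conj (δ l) * (C.ρ l (E t) (D t) * conj (K t)) :=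
        (Bm.const _).mul ((bρ l).mul bmK.conj)
      rw [integral_add b31.int b32.int, integral_const_mul, integral_const_mul, cj]
      rfl
    rw [Finset.sum_congr rfl fun l _ => e3 l]
  have hb : 2 * (∫ t, conj (K t) * conj (hh C v m A B α β γ δ (E t) (D t)) ∂ν).re ≤
      2 * ∫ t, ‖hh C v m A B α β γ δ (E t) (D t)‖ ∂ν := by
    have h1 : ‖∫ t, conj (K t) * conj (hh C v m A B α β γ δ (E t) (D t)) ∂ν‖ ≤
        ∫ t, ‖hh C v m A B α β γ δ (E t) (D t)‖ ∂ν := by
      refine norm_integral_le_of_norm_le bh.int.norm (Eventually.of_forall fun t => ?_)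
      rw [norm_mul, Complex.norm_conj, Complex.norm_conj]
      exact mul_le_of_le_one_left (norm_nonneg _) (hK1 t)
    have h2 := Complex.re_le_norm (∫ t, conj (K t) * conj (hh C v m A B α β γ δ (E t) (D t)) ∂ν)
    linarith
  rw [e] at hb
  unfold rst at h'
  rw [hA, hB] at h'
  have c1 : (conj A * conj (∫ t, ker C v m (E t) (D t) * K t ∂ν)).re =
      (A * ∫ t, ker C v m (E t) (D t) * K t ∂ν).re := by
    rw [← map_mul, Complex.conj_re]
  unfold lh
  rw [← hm]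
  simp only [Complex.add_re, Complex.sub_re] at hb h'
  rw [c1] at hb
  linarith

/-- **elimination of `K` with a reciprocal weight** -/
theorem NC_of_RW (H : Sta ν D E) {v : I → ℝ} {u : Q → ℝ} {μ T : ℝ} (h : RW C ν D E v u μ T) :
    NC C ν D E v u μ T := by
  have := H.pr
  obtain ⟨q, hq, hp, hT, h⟩ := h
  obtain ⟨a0, b0, ha0, hab⟩ := BTN.q_bounds hq hp
  refine NC_mod H fun A B a b => ?_
  obtain ⟨α, β, γ, δ, h'⟩ := h A B a b
  refine ⟨α, β, γ, δ, ?_⟩
  set m := mo C ν D E with hm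
  have bh : Bm fun t => hh C v m A B α β γ δ (E t) (D t) := H.bm (hh_cont v m A B α β γ δ)
  obtain ⟨M, hM⟩ := bh.bdd
  have mq : Measurable fun t => q (E t) (D t) := hq.measurable.comp (H.mE.prodMk H.mD)
  have hab' : ∀ t, a0 ≤ q (E t) (D t) ∧ q (E t) (D t) ≤ b0 := fun t => hab _ _ (H.hE t) (H.hD t)
  have i1 : Integrable (fun t => 1 / q (E t) (D t)) ν := by
    refine Integrable.of_bound (measurable_const.div mq).aestronglyMeasurable (1 / a0)
      (Eventually.of_forall fun t => ?_)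
    have h0 : 0 < q (E t) (D t) := lt_of_lt_of_le ha0 (hab' t).1
    rw [Real.norm_eq_abs, abs_of_nonneg (by positivity)]
    exact one_div_le_one_div_of_le ha0 (hab' t).1
  have i2 : Integrable (fun t => ‖hh C v m A B α β γ δ (E t) (D t)‖ ^ 2 * q (E t) (D t)) ν := by
    refine Integrable.of_bound ((bh.meas.norm.pow_const 2).mul mq).aestronglyMeasurable (M ^ 2 * b0)
      (Eventually.of_forall fun t => ?_)
    have h0 : 0 < q (E t) (D t) := lt_of_lt_of_le ha0 (hab' t).1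
    rw [Real.norm_eq_abs, abs_of_nonneg (by positivity)]
    exact mul_le_mul (pow_le_pow_left₀ (norm_nonneg _) (hM t) 2) (hab' t).2 h0.le (sq_nonneg M)
  have key : 2 * ∫ t, ‖hh C v m A B α β γ δ (E t) (D t)‖ ∂ν ≤
      (∫ t, 1 / q (E t) (D t) ∂ν) + ∫ t, ‖hh C v m A B α β γ δ (E t) (D t)‖ ^ 2 * q (E t) (D t) ∂ν := by
    rw [← integral_add i1 i2, ← integral_const_mul]
    refine integral_mono (bh.int.norm.const_mul 2) (i1.add i2) fun t => ?_
    have h0 : 0 < q (E t) (D t) := lt_of_lt_of_le ha0 (hab' t).1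
    have e : 1 / q (E t) (D t) + ‖hh C v m A B α β γ δ (E t) (D t)‖ ^ 2 * q (E t) (D t)
        - 2 * ‖hh C v m A B α β γ δ (E t) (D t)‖ =
        (1 - ‖hh C v m A B α β γ δ (E t) (D t)‖ * q (E t) (D t)) ^ 2 / q (E t) (D t) := by
      field_simp
      ring
    have : 0 ≤ (1 - ‖hh C v m A B α β γ δ (E t) (D t)‖ * q (E t) (D t)) ^ 2 / q (E t) (D t) := by positivity
    show 2 * ‖hh C v m A B α β γ δ (E t) (D t)‖ ≤
      1 / q (E t) (D t) + ‖hh C v m A B α β γ δ (E t) (D t)‖ ^ 2 * q (E t) (D t)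
    linarith
  linarith

/-! ### states and the visual angle -/

variable {f : ℝ → ℝ}

theorem sta (hf : Ef f) (h0 : 0 ≤ X1 f) (h2 : X2 f = 0) : Sta (nf f) (xT f) (ef f) where
  pr := vm_prob (X_lt hf)
  mD := (CERQ.cont_xT hf).measurable
  mE := (C54.cont_ep (X_lt hf)).measurable
  hD := BTN.xT_le hf h0 h2
  hE := fun t => C54.norm_ep (X_lt hf) t

theorem t_mo (hf : Ef f) (h0 : 0 ≤ X1 f) (h2 : X2 f = 0) :
    mo C (nf f) (xT f) (ef f) = mo C va (Xa (X1 f) f) e1 := by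
  funext j
  exact BTN.tr_C hf h0 h2 (Φ := fun e x => C.g j e x) (C.cg j)

/-- the condition in the visual angle gives the condition for the state -/
theorem RW_tr (hf : Ef f) (h0 : 0 ≤ X1 f) (h2 : X2 f = 0) {v : I → ℝ} {u : Q → ℝ} {μ T : ℝ}
    (H : RW C va (Xa (X1 f) f) e1 v u μ T) : RW C (nf f) (xT f) (ef f) v u μ T := by
  obtain ⟨q, hq, hp, hT, h⟩ := H
  obtain ⟨a, b, ha, hab⟩ := BTN.q_bounds hq hp
  set R : ℂ → ℝ → ℝ := fun e x => max a (q e x) with hR
  have cR : Continuous fun p : ℂ × ℝ => R p.1 p.2 := continuous_const.max hq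
  have pR : ∀ e x, 0 < R e x := fun e x => lt_of_lt_of_le ha (le_max_left _ _)
  have eR : ∀ e x, ‖e‖ = 1 → |x| ≤ 1 → R e x = q e x := fun e x he hx => max_eq_right (hab e x he hx).1
  have hXa : ∀ a, |Xa (X1 f) f a| ≤ 1 := fun a => by
    rw [← ALY.xT_tA hf h0 h2]
    exact BTN.xT_le hf h0 h2 _
  refine ⟨R, cR, fun e x _ _ => pR e x, ?_, fun A B a' b' => ?_⟩
  · have c : Continuous fun p : ℂ × ℝ => 1 / R p.1 p.2 := continuous_const.div cR fun p => (pR _ _).ne'
    rw [BTN.tr_R hf h0 h2 (Φ := fun e x => 1 / R e x) c]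
    refine le_trans (le_of_eq ?_) hT
    congr 1
    funext a
    rw [eR _ _ (BTN.norm_e1 a) (hXa a)]
  · obtain ⟨α, β, γ, δ, k⟩ := h A B a' b'
    refine ⟨α, β, γ, δ, ?_⟩
    rw [t_mo hf h0 h2]
    have c : Continuous fun p : ℂ × ℝ =>
        ‖hh C v (mo C va (Xa (X1 f) f) e1) A B α β γ δ p.1 p.2‖ ^ 2 * R p.1 p.2 :=
      ((hh_cont v _ A B α β γ δ).norm.pow 2).mul cR
    rw [BTN.tr_R hf h0 h2 (Φ := fun e x => ‖hh C v (mo C va (Xa (X1 f) f) e1) A B α β γ δ e x‖ ^ 2 * R e x) c]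
    refine le_trans (le_of_eq ?_) k
    congr 2
    funext a
    rw [eR _ _ (BTN.norm_e1 a) (hXa a)]

/-- **a latitude cell**: the condition on the class `St s'` at the control points `(v j, u j)` gives the certificate at all
states with `ζ ∈ [0, s']` whose coefficient vector is a convex combination of the control points -/
theorem cell (hf : Ef f) (h0 : 0 ≤ X1 f) (h2 : X2 f = 0) {μ T : ℝ} (hμ : 0 ≤ μ) {s' : ℝ} (hs' : X1 f ≤ s')
    (h1 : s' ≤ 1) {P : (ℝ → ℝ) → Prop} (hP : P (Xa (X1 f) f)) {κ : Type*} {S : Finset κ} {c : κ → ℝ}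
    {v : κ → I → ℝ} {u : κ → Q → ℝ} (hc : ∀ j ∈ S, 0 ≤ c j) (hc1 : ∑ j ∈ S, c j = 1) {v0 : I → ℝ} {u0 : Q → ℝ}
    (hv : v0 = ∑ j ∈ S, c j • v j) (hu : u0 = ∑ j ∈ S, c j • u j)
    (H : ∀ j ∈ S, ∀ X, St s' X → (∀ a, |X a| ≤ 31 / 50 * s') → P X → RW C va X e1 (v j) (u j) μ T) :
    NC C (nf f) (xT f) (ef f) v0 u0 μ T := by
  have hS := (ALY.st hf h0 h2).mono h0 hs' h1
  have hb : ∀ a, |Xa (X1 f) f a| ≤ 31 / 50 * s' := fun a => (BTN.Xa_bd hf h0 h2 a).trans (by linarith)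
  rw [hv, hu]
  exact NC.comb (sta hf h0 h2) hc hc1 hμ fun j hj =>
    NC_of_RW (sta hf h0 h2) (RW_tr hf h0 h2 (H j hj _ hS hb hP))

end Pool.Agent.FPX.BTG
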