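import Mathlib
import Pool.Agent.FPX.BTG

/-
BTI (helper15): the class with the forms of OM7 and OMG (`conj C₃ C₅`, `C₅`) as an instance of BTG.
-/

open MeasureTheory Set Filter Topology Complex
open scoped ComplexConjugate

noncomputable section

set_option linter.unusedSectionVars false

namespace Pool.Agent.FPX.BTI

open Pool.Agent.FPX.BTG (Cls mo aK bK tht ker dev lh)

/-- the vector of coefficients: `w, k₂, k₀, p, k₃, Y, k₃₃, g, q, z, x, b, b₃, b₄, μ`, then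
`a₁ = 2 c p₁, a₂ = 2 c s² p₂, a₃ = s⁴ x₅, a₄ = s⁶ y₅, a₅ (of Re conj r₃ r₅), a₆ (of Re r₅)` -/
abbrev V9 := Fin 21 → ℝ

/-- the moments `r₃, r₅, r₇, q₀, q₂, q₄` -/
abbrev M9 := Fin 6 → ℂ

/-- the terms of the deviation: functions of the moments and of `A, B, N, M, S, R, G` -/
abbrev Psi9 (Q : Type) := Q → M9 → ℂ → ℂ → ℂ → ℂ → ℂ → ℂ → ℂ → ℂ

/-- the functions of the moments -/
def g9 : Fin 6 → ℂ → ℝ → ℂ :=
  ![fun e x => (x : ℂ) * e ^ 3, fun e x => (x : ℂ) * e ^ 5, fun e x => (x : ℂ) * e ^ 7,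
    fun _ x => (x : ℂ) ^ 2, fun e x => (x : ℂ) ^ 2 * e ^ 2, fun e x => (x : ℂ) ^ 2 * e ^ 4]

/-- the test functions `E³, x E², x` -/
def ρ9 : Fin 3 → ℂ → ℝ → ℂ :=
  ![fun e _ => e ^ 3, fun e x => (x : ℂ) * e ^ 2, fun _ x => (x : ℂ)]

/-- the kernels -/
def κ9 : Fin 21 → M9 → ℂ → ℝ → ℂ :=
  ![fun _ _ _ => 0, fun _ _ _ => 0, fun _ _ _ => 0,
    fun _ e x => (x : ℂ) * e ^ 2, fun _ _ _ => 0, fun _ e _ => e ^ 3, fun _ _ _ => 0,
    fun m e _ => (((conj (m 0) * e ^ 3).re : ℝ) : ℂ),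
    fun _ e x => (x : ℂ) * conj e ^ 2, fun _ _ x => (x : ℂ), fun _ e _ => conj e ^ 3,
    fun _ _ _ => 0, fun _ _ _ => 0, fun _ _ _ => 0, fun _ _ _ => 0,
    fun m e _ => conj (m 1) * e ^ 3 + m 0 * conj e ^ 5,
    fun m e _ => m 1 * conj e ^ 3 + conj (m 0) * e ^ 5,
    fun _ e _ => conj e ^ 5, fun _ e _ => e ^ 5, fun _ _ _ => 0, fun _ _ _ => 0]

/-- the part of type `conj K` of `∇C₃` -/
def n9 (m : M9) (A B R : ℂ) : ℂ := R + 5 / 2 * conj B * m 1 - 3 / 2 * (A - conj B) * m 0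

/-- the part of type `K` of `∇C₃` -/
def m9 (m : M9) (A B R : ℂ) : ℂ := R + 5 / 2 * conj A * m 1 - 3 / 2 * (B - conj A) * m 0

/-- the part of type `conj K` of `(s/c) ∇S₂` -/
def s9 (m : M9) (A B S : ℂ) : ℂ := S + conj B * (m 5 - m 0) - 1 / 2 * (A - conj B) * m 4

/-- the part of type `K` of `(s/c) ∇S₂` -/
def r9 (m : M9) (A B S : ℂ) : ℂ := S + conj A * (m 5 - m 0) - 1 / 2 * (B - conj A) * m 4

/-- the terms without the kernel; `N`, `M` are the parts of `∇C₃` -/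
def θ9' (m : M9) (A B N M : ℂ) : Fin 21 → ℝ :=
  ![‖A‖ ^ 2 - ‖B‖ ^ 2,
    (m 4).re * (‖A‖ ^ 2 - ‖B‖ ^ 2),
    (m 3).re * (‖A‖ ^ 2 - ‖B‖ ^ 2),
    2 * ((m 5).re - (m 0).re) * (‖A‖ ^ 2 - ‖B‖ ^ 2),
    (m 0).re * (‖A‖ ^ 2 - ‖B‖ ^ 2),
    5 * (m 1).re * (‖A‖ ^ 2 - ‖B‖ ^ 2),
    ‖m 0‖ ^ 2 * (‖A‖ ^ 2 - ‖B‖ ^ 2),
    5 / 2 * (conj (m 0) * m 1).re * (‖A‖ ^ 2 - ‖B‖ ^ 2),
    0, 0, 0,
    2 * (‖N‖ ^ 2 - ‖M‖ ^ 2),
    -(‖m 0‖ ^ 2 * (‖A‖ ^ 2 - ‖B‖ ^ 2)),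
    ((A + conj B) * (m 0 * conj N - conj (m 0) * M)).re,
    2 * ‖B‖ ^ 2,
    (5 * ‖m 1‖ ^ 2 - 3 * ‖m 0‖ ^ 2) * (‖A‖ ^ 2 - ‖B‖ ^ 2),
    7 * (conj (m 0) * m 2).re * (‖A‖ ^ 2 - ‖B‖ ^ 2),
    -3 * (m 0).re * (‖A‖ ^ 2 - ‖B‖ ^ 2),
    7 * (m 2).re * (‖A‖ ^ 2 - ‖B‖ ^ 2),
    (conj (m 0) * m 1).re * (‖A‖ ^ 2 - ‖B‖ ^ 2),
    (m 1).re * (‖A‖ ^ 2 - ‖B‖ ^ 2)]

theorem c_re {Φ : ℂ → ℝ → ℂ} (h : Continuous fun p : ℂ × ℝ => Φ p.1 p.2) :
    Continuous fun p : ℂ × ℝ => (((Φ p.1 p.2).re : ℝ) : ℂ) :=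
  Complex.continuous_ofReal.comp (Complex.continuous_re.comp h)

/-- **the class** -/
def C9 {Q : Type} (Ψ : Psi9 Q) : Cls (Fin 6) (Fin 3) (Fin 21) Q where
  g := g9
  ρ := ρ9
  κ := κ9
  θ := fun i m A B a b => θ9' m A B (n9 m A B (b 0)) (m9 m A B (a 0)) i
  ψ := fun q m A B a b => Ψ q m A B (n9 m A B (b 0)) (m9 m A B (a 0)) (s9 m A B (b 1)) (r9 m A B (a 1)) (a 2)
  σ := fun m => 3 / 2 * m 0
  cg := by
    intro j
    have c2 : Continuous fun p : ℂ × ℝ => (p.2 : ℂ) := Complex.continuous_ofReal.comp continuous_snd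
    fin_cases j
    · exact c2.mul (continuous_fst.pow 3)
    · exact c2.mul (continuous_fst.pow 5)
    · exact c2.mul (continuous_fst.pow 7)
    · exact c2.pow 2
    · exact (c2.pow 2).mul (continuous_fst.pow 2)
    · exact (c2.pow 2).mul (continuous_fst.pow 4)
  cρ := by
    intro j
    have c2 : Continuous fun p : ℂ × ℝ => (p.2 : ℂ) := Complex.continuous_ofReal.comp continuous_snd
    fin_cases j
    · exact continuous_fst.pow 3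
    · exact c2.mul (continuous_fst.pow 2)
    · exact c2
  cκ := by
    intro j m
    have c1 : Continuous fun p : ℂ × ℝ => conj p.1 := Complex.continuous_conj.comp continuous_fst
    have c2 : Continuous fun p : ℂ × ℝ => (p.2 : ℂ) := Complex.continuous_ofReal.comp continuous_snd
    have c3 : Continuous fun p : ℂ × ℝ => (((conj (m 0) * p.1 ^ 3).re : ℝ) : ℂ) :=
      Complex.continuous_ofReal.comp (Complex.continuous_re.comp (continuous_const.mul (continuous_fst.pow 3)))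
    fin_cases j
    · exact continuous_const
    · exact continuous_const
    · exact continuous_const
    · exact c2.mul (continuous_fst.pow 2)
    · exact continuous_const
    · exact continuous_fst.pow 3
    · exact continuous_const
    · exact c3
    · exact c2.mul (c1.pow 2)
    · exact c2
    · exact c1.pow 3
    · exact continuous_const
    · exact continuous_const
    · exact continuous_const
    · exact continuous_const
    · exact (continuous_const.mul (continuous_fst.pow 3)).add (continuous_const.mul (c1.pow 5))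
    · exact (continuous_const.mul (c1.pow 3)).add (continuous_const.mul (continuous_fst.pow 5))
    · exact c1.pow 5
    · exact continuous_fst.pow 5
    · exact continuous_const
    · exact continuous_const

theorem sum21 {M : Type*} [AddCommMonoid M] (f : Fin 21 → M) : ∑ i, f i =
    f 0 + (f 1 + (f 2 + (f 3 + (f 4 + (f 5 + (f 6 + (f 7 + (f 8 + (f 9 + (f 10 + (f 11 + (f 12 + (f 13
    + (f 14 + (f 15 + (f 16 + (f 17 + (f 18 + (f 19 + f 20))))))))))))))))))) := by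
  simp only [Fin.sum_univ_succ, Fin.sum_univ_zero, add_zero]
  rfl

/-- the coefficient of the Jacobian -/
def om9 (v : V9) (m : M9) : ℝ :=
  v 0 + v 1 * (m 4).re + v 2 * (m 3).re + v 3 * (2 * ((m 5).re - (m 0).re)) + v 4 * (m 0).re
    + v 5 * (5 * (m 1).re) + v 6 * ‖m 0‖ ^ 2 + v 7 * (5 / 2 * (conj (m 0) * m 1).re)
    + v 15 * (5 * ‖m 1‖ ^ 2 - 3 * ‖m 0‖ ^ 2) + v 16 * (7 * (conj (m 0) * m 2).re) + v 17 * (-3 * (m 0).re)
    + v 18 * (7 * (m 2).re) + v 19 * (conj (m 0) * m 1).re + v 20 * (m 1).re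

/-- the terms with `∇C₃` -/
def bb9 (v : V9) (m : M9) (A B N M : ℂ) : ℝ :=
  v 11 * (2 * (‖N‖ ^ 2 - ‖M‖ ^ 2)) + v 12 * -(‖m 0‖ ^ 2 * (‖A‖ ^ 2 - ‖B‖ ^ 2))
    + v 13 * ((A + conj B) * (m 0 * conj N - conj (m 0) * M)).re

/-- the kernel -/
def ke9 (v : V9) (m : M9) (e : ℂ) (x : ℝ) : ℂ :=
  (x : ℂ) * ((v 8 : ℂ) * conj e ^ 2 + (v 9 : ℂ) + (v 3 : ℂ) * e ^ 2)
    + ((v 10 : ℂ) + (v 16 : ℂ) * m 1) * conj e ^ 3 + ((v 5 : ℂ) + (v 15 : ℂ) * conj (m 1)) * e ^ 3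
    + (v 7 : ℂ) * (((conj (m 0) * e ^ 3).re : ℝ) : ℂ)
    + ((v 17 : ℂ) + (v 15 : ℂ) * m 0) * conj e ^ 5 + ((v 18 : ℂ) + (v 16 : ℂ) * conj (m 0)) * e ^ 5

section

variable {Q : Type} [Fintype Q] (Ψ : Psi9 Q)

theorem ker9 (v : V9) (m : M9) (e : ℂ) (x : ℝ) : ker (C9 Ψ) v m e x = ke9 v m e x := by
  unfold BTG.ker ke9
  rw [sum21]
  simp only [C9, κ9, Matrix.cons_val_zero, Matrix.cons_val_one, Matrix.cons_val]
  ring

theorem tht9 (v : V9) (m : M9) (A B : ℂ) (a b : Fin 3 → ℂ) : tht (C9 Ψ) v m A B a b =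
    om9 v m * (‖A‖ ^ 2 - ‖B‖ ^ 2) + bb9 v m A B (n9 m A B (b 0)) (m9 m A B (a 0)) + v 14 * (2 * ‖B‖ ^ 2) := by
  unfold tht om9 bb9
  rw [sum21]
  simp only [C9, θ9', Matrix.cons_val_zero, Matrix.cons_val_one, Matrix.cons_val]
  ring

/-- the deviation in terms of `N, M, S, R, G` -/
def dev9 (u : Q → ℝ) (m : M9) (A B N M S R G : ℂ) : ℂ := ∑ q, (u q : ℂ) * Ψ q m A B N M S R G

/-! ### the explicit condition -/

open Pool.Agent.FPX.BTN (va e1)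
open Pool.Agent.FPX.ALX

/-- the moments of a function on the visual circle -/
def mX (X : ℝ → ℝ) : M9 := mo (C9 Ψ) va X e1

/-- the combination of the functions of the certificate -/
def h9 (v : V9) (m : M9) (A B α β γ δ κ l ρ ρ' : ℂ) (e : ℂ) (x : ℝ) : ℂ :=
  α * e + β * conj e + γ * e ^ 3 + δ * conj (e ^ 3) + κ * ((x : ℂ) * e ^ 2) + l * conj ((x : ℂ) * e ^ 2)
    + (ρ + ρ') * (x : ℂ) + A * ke9 v m e x - conj B * conj (ke9 v m e x)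

/-- the terms without `K` -/
def rst9 (v : V9) (u : Q → ℝ) (μ : ℝ) (m : M9) (A B N M S R G G' α β γ δ κ l ρ ρ' : ℂ) : ℝ :=
  om9 v m * (‖A‖ ^ 2 - ‖B‖ ^ 2) + bb9 v m A B N M + v 14 * (2 * ‖B‖ ^ 2)
    + 2 * μ * ‖dev9 Ψ u m A B N M S R G‖ ^ 2
    - 2 * (conj α * conj (B - 3 / 2 * m 0 * conj A) + conj β * (A - 3 / 2 * m 0 * conj B)
      + conj γ * conj (M - 5 / 2 * conj A * m 1 + 3 / 2 * (B - conj A) * m 0)
      + conj δ * (N - 5 / 2 * conj B * m 1 + 3 / 2 * (A - conj B) * m 0)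
      + conj κ * conj (R - conj A * (m 5 - m 0) + 1 / 2 * (B - conj A) * m 4)
      + conj l * (S - conj B * (m 5 - m 0) + 1 / 2 * (A - conj B) * m 4)
      + conj ρ * conj G + conj ρ' * G').re

theorem RW9 {X : Type*} [MeasurableSpace X] {ν : Measure X} {D : X → ℝ} {E : X → ℂ} {v : V9} {u : Q → ℝ}
    {μ T : ℝ} {q : ℂ → ℝ → ℝ} (hq : Continuous (fun p : ℂ × ℝ => q p.1 p.2))
    (hp : ∀ e x, ‖e‖ = 1 → |x| ≤ 1 → 0 < q e x) (hT : ∫ t, 1 / q (E t) (D t) ∂ν ≤ T)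
    (H : ∀ A B N M S R G G' : ℂ, ∃ α β γ δ κ l ρ ρ' : ℂ,
      rst9 Ψ v u μ (mo (C9 Ψ) ν D E) A B N M S R G G' α β γ δ κ l ρ ρ'
        + ∫ t, ‖h9 v (mo (C9 Ψ) ν D E) A B α β γ δ κ l ρ ρ' (E t) (D t)‖ ^ 2 * q (E t) (D t) ∂ν ≤ 0) :
    BTG.RW (C9 Ψ) ν D E v u μ T := by
  refine ⟨q, hq, hp, hT, fun A B a b => ?_⟩
  set m := mo (C9 Ψ) ν D E with hm
  obtain ⟨α, β, γ, δ, κ, l, ρ, ρ', h⟩ := H A B (n9 m A B (b 0)) (m9 m A B (a 0)) (s9 m A B (b 1))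
    (r9 m A B (a 1)) (a 2) (b 2)
  refine ⟨α, β, ![γ, κ, ρ], ![δ, l, ρ'], ?_⟩
  have e1 : ∀ t, BTG.hh (C9 Ψ) v m A B α β ![γ, κ, ρ] ![δ, l, ρ'] (E t) (D t) =
      h9 v m A B α β γ δ κ l ρ ρ' (E t) (D t) := by
    intro t
    unfold BTG.hh h9
    rw [ker9, Fin.sum_univ_three]
    simp only [C9, ρ9, Matrix.cons_val_zero, Matrix.cons_val_one, Matrix.cons_val, Complex.conj_ofReal]
    ring
  have e2 : BTG.rst (C9 Ψ) v u μ m A B a b α β ![γ, κ, ρ] ![δ, l, ρ'] =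
      rst9 Ψ v u μ m A B (n9 m A B (b 0)) (m9 m A B (a 0)) (s9 m A B (b 1))
        (r9 m A B (a 1)) (a 2) (b 2) α β γ δ κ l ρ ρ' := by
    unfold BTG.rst rst9
    rw [tht9, Fin.sum_univ_three]
    have i1 : (n9 m A B (b 0)) - 5 / 2 * conj B * m 1 + 3 / 2 * (A - conj B) * m 0 = b 0 := by
      unfold n9
      ring
    have i2 : (m9 m A B (a 0)) - 5 / 2 * conj A * m 1 + 3 / 2 * (B - conj A) * m 0 = a 0 := by
      unfold m9
      ring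
    have i3 : (r9 m A B (a 1)) - conj A * (m 5 - m 0) + 1 / 2 * (B - conj A) * m 4 = a 1 := by
      unfold r9
      ring
    have i4 : (s9 m A B (b 1)) - conj B * (m 5 - m 0) + 1 / 2 * (A - conj B) * m 4 = b 1 := by
      unfold s9
      ring
    rw [i1, i2, i3, i4]
    have e3 : BTG.dev (C9 Ψ) u m A B a b = dev9 Ψ u m A B (n9 m A B (b 0)) (m9 m A B (a 0)) (s9 m A B (b 1))
        (r9 m A B (a 1)) (a 2) := rfl
    rw [e3]
    simp only [C9, Matrix.cons_val_zero, Matrix.cons_val_one, Matrix.cons_val]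
    congr 2
    congr 1
    ring
  simp only [e1, e2]
  exact h

end

end Pool.Agent.FPX.BTI
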