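import Mathlib
import Pool.Agent.FPX.OMX
import Pool.Agent.FPX.OM8R

/-
OM8X (helper86): the rotation of the certificate `Cert7X` of another start map.
-/

open MeasureTheory Set Filter Topology Complex
open scoped ENNReal NNReal ContDiff ComplexConjugate

noncomputable section

namespace Pool.Agent.FPX.OM7

open Pool.Agent.FPX Pool.Agent.FPX.UMP Pool.Agent.FPX.UMQ Pool.Agent.FPX.UXA Pool.Agent.EWD
open Pool.Agent.FPX.F54 (X1 X2 dX1 dX2 X_lt X_G1 X_G2 vF sF)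
open Pool.Agent.FPX.S54 (mS ME YY de Sn)
open Pool.Agent.FPX.OMB (vm vm_int vm_prob bm_ep bm_real)
open Pool.Agent.FPX.OMS (rF cF cF_eq Aa Ba Kc ME_vm Kc_meas Kc_le AB_eq)
open Pool.Agent.FPX.SYS (CE dCE K2 K0)
open Pool.Agent.FPX.CERQ (ep_per)

variable {f f' : ℝ → ℝ} {φ r : ℝ} {u : ℂ}

namespace Rot

theorem sp (R : Rot f f' φ r u) (A B V : ℂ) : Sp f (u * A) (u * B) (u ^ 2 * V) = u ^ 2 * Sp f' A B V := by
  unfold Sp
  rw [R.ms, R.ze, R.s2, R.cc]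
  simp only [map_mul]
  linear_combination (conj B * u ^ 2 * mS f' - 1 / (2 * (cF f' : ℂ)) * u ^ 2 * S54.S2 f'
    * (conj (YY (X1 f') (X2 f')) * A - YY (X1 f') (X2 f') * conj B)) * R.cu

theorem sm (R : Rot f f' φ r u) (A B V : ℂ) : Sm f (u * A) (u * B) (u ^ 2 * V) = u ^ 2 * Sm f' A B V := by
  unfold Sm
  rw [R.ms, R.ze, R.s2, R.cc]
  simp only [map_mul]
  linear_combination (conj A * u ^ 2 * mS f' - 1 / (2 * (cF f' : ℂ)) * u ^ 2 * S54.S2 f'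
    * (conj (YY (X1 f') (X2 f')) * B - YY (X1 f') (X2 f') * conj A)) * R.cu

end Rot

/-- rotation covariance of a deviation -/
def RotDev (Bx : Dev) : Prop :=
  ∀ (f f' : ℝ → ℝ) (φ r : ℝ) (u : ℂ), Rot f f' φ r u → ∀ A B N M S R D : ℂ,
    ‖Bx f (u * A) (u * B) (u ^ 3 * N) (u ^ 3 * M) (u ^ 2 * S) (u ^ 2 * R) D‖ = ‖Bx f' A B N M S R D‖

theorem rotDev_F54 : RotDev fun _ _ B _ _ _ _ _ => B :=
  fun _ _ _ _ _ R _ B _ _ _ _ _ => R.nn1 B

namespace Rot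

/-- the rotated deviation -/
theorem dev (R : Rot f f' φ r u) {Bx : Dev} (HR : RotDev Bx) (K : ℝ → ℂ) (A B : ℂ) :
    ‖devK Bx f K (u * A) (u * B)‖ = ‖devK Bx f' (fun t => pe K (t + φ)) A B‖ := by
  have g3 : ∀ t, C54.ep (X1 f) (X2 f) (t + 2 * Real.pi) ^ 3 = C54.ep (X1 f) (X2 f) t ^ 3 := fun t => by
    rw [ep_per]
  have g3' : ∀ t, C54.ep (X1 f) (X2 f) (t + φ) ^ 3 = u ^ 3 * C54.ep (X1 f') (X2 f') t ^ 3 := fun t => by
    rw [R.ee, mul_pow]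
  have g2 : ∀ t, (de (X1 f) (X2 f) f (t + 2 * Real.pi) : ℂ) * C54.ep (X1 f) (X2 f) (t + 2 * Real.pi) ^ 2 =
      (de (X1 f) (X2 f) f t : ℂ) * C54.ep (X1 f) (X2 f) t ^ 2 := fun t => by rw [ep_per, R.dper]
  have g2' : ∀ t, (de (X1 f) (X2 f) f (t + φ) : ℂ) * C54.ep (X1 f) (X2 f) (t + φ) ^ 2 =
      u ^ 2 * ((de (X1 f') (X2 f') f' t : ℂ) * C54.ep (X1 f') (X2 f') t ^ 2) := fun t => by
    rw [R.ee, R.dd, mul_pow]
    ring
  have g1 : ∀ t, (de (X1 f) (X2 f) f (t + 2 * Real.pi) : ℂ) = (de (X1 f) (X2 f) f t : ℂ) := fun t => by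
    rw [R.dper]
  have g1' : ∀ t, (de (X1 f) (X2 f) f (t + φ) : ℂ) = 1 * (de (X1 f') (X2 f') f' t : ℂ) := fun t => by
    rw [R.dd, one_mul]
  unfold devK
  rw [R.itc (G := fun t => C54.ep (X1 f) (X2 f) t ^ 3) g3 g3',
    R.it (G := fun t => C54.ep (X1 f) (X2 f) t ^ 3) g3 g3',
    R.itc (G := fun t => (de (X1 f) (X2 f) f t : ℂ) * C54.ep (X1 f) (X2 f) t ^ 2) g2 g2',
    R.it (G := fun t => (de (X1 f) (X2 f) f t : ℂ) * C54.ep (X1 f) (X2 f) t ^ 2) g2 g2',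
    R.it (G := fun t => (de (X1 f) (X2 f) f t : ℂ)) g1 g1', R.cp, R.cm, R.sp, R.sm, one_mul]
  exact HR f f' φ r u R _ _ _ _ _ _ _

/-- the rotated certificate of another start map -/
theorem certX (R : Rot f f' φ r u) {Bx : Dev} (HR : RotDev Bx) {W : ℝ → ℝ} {F : Cof} {μ T : ℝ}
    (H : CertAtX Bx W F μ T f') : CertAtX Bx W F μ T f := by
  intro K hK hK1 A B hA hB
  have hcu := R.cu
  have huc := R.uu
  have hK' : Measurable fun t => pe K (t + φ) := (pe_meas hK).comp (measurable_id.add_const φ)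
  have hK1' : ∀ t, ‖pe K (t + φ)‖ ≤ 1 := fun t => hK1 _
  obtain ⟨A', eA⟩ : ∃ A', A = u * A' := ⟨conj u * A, by rw [← mul_assoc, huc, one_mul]⟩
  obtain ⟨B', eB⟩ : ∃ B', B = u * B' := ⟨conj u * B, by rw [← mul_assoc, huc, one_mul]⟩
  have g3 : ∀ t, C54.ep (X1 f) (X2 f) (t + 2 * Real.pi) ^ 3 = C54.ep (X1 f) (X2 f) t ^ 3 := fun t => by
    rw [ep_per]
  have g3' : ∀ t, C54.ep (X1 f) (X2 f) (t + φ) ^ 3 = u ^ 3 * C54.ep (X1 f') (X2 f') t ^ 3 := fun t => by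
    rw [R.ee, mul_pow]
  rw [R.itc (G := fun t => C54.ep (X1 f) (X2 f) t) (ep_per _ _) R.ee] at hA
  rw [R.it (G := fun t => C54.ep (X1 f) (X2 f) t) (ep_per _ _) R.ee] at hB
  have hu0 : u ≠ 0 := fun h => by rw [h, zero_mul] at huc; exact zero_ne_one huc
  have a1 : A' - sF f' * conj B' = ∫ t, C54.ep (X1 f') (X2 f') t * conj (pe K (t + φ)) ∂(vm (X1 f') (X2 f')) := by
    refine mul_left_cancel₀ hu0 ?_
    rw [← hA, R.sf, eA, eB]
    simp only [map_mul]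
    linear_combination (u * sF f' * conj B') * huc
  have a2 : B' - sF f' * conj A' = ∫ t, C54.ep (X1 f') (X2 f') t * pe K (t + φ) ∂(vm (X1 f') (X2 f')) := by
    refine mul_left_cancel₀ hu0 ?_
    rw [← hB, R.sf, eA, eB]
    simp only [map_mul]
    linear_combination (u * sF f' * conj A') * huc
  have key := H (fun t => pe K (t + φ)) hK' hK1' A' B' a1 a2
  rw [← R.dev HR K A' B'] at key
  rw [eA, eB, R.it (G := mk7 F f) (R.mper F) (R.mkr F), R.itc (G := mk7 F f) (R.mper F) (R.mkr F),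
    R.itc (G := fun t => C54.ep (X1 f) (X2 f) t ^ 3) g3 g3', R.it (G := fun t => C54.ep (X1 f) (X2 f) t ^ 3) g3 g3',
    R.cp, R.cm, R.bb, R.nn1, R.nn1, R.w7]
  have r1 : ∀ a z : ℂ, u * a * (conj u * z) = a * z := fun a z => by
    linear_combination (a * z) * hcu
  rw [r1, r1]
  exact key

end Rot

/-- **the certificate `Cert7X` holds if it holds for the states with `ζ ≥ 0`** -/
theorem cert_of_realX {Bx : Dev} (HR : RotDev Bx) {W : ℝ → ℝ} {F : Cof} {μ T : ℝ}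
    (H : ∀ f, Ef f → 0 ≤ X1 f → X2 f = 0 → CertAtX Bx W F μ T f) : Cert7X Bx W F μ T := by
  intro f hf
  obtain ⟨f', φ, r, u, R⟩ := exists_Rot hf
  exact R.certX HR (H f' R.hf' (by rw [R.x1]; exact R.r0) R.x2)

end Pool.Agent.FPX.OM7
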