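import Mathlib
import Pool.Agent.FPX.OM9

/-
OMP (helper11): the certificate of OM7 from Parseval's inequality (weight 1), explicit: one Hermitian inequality
in `A, B, N, M` for every state.
-/

open MeasureTheory Set Filter Topology Complex
open scoped ENNReal NNReal ContDiff ComplexConjugate

noncomputable section

namespace Pool.Agent.FPX.OM7

open Pool.Agent.FPX Pool.Agent.FPX.UMP Pool.Agent.FPX.UMQ Pool.Agent.FPX.UXA Pool.Agent.EWD
open Pool.Agent.FPX.F54 (X1 X2 dX1 dX2 X_lt X_G1 X_G2 vF sF)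
open Pool.Agent.FPX.S54 (YY de)
open Pool.Agent.FPX.OMB (vm vm_int vm_prob bm_ep bm_real)
open Pool.Agent.FPX.CRD (Bm)
open Pool.Agent.FPX.OMS (rF cF)
open Pool.Agent.FPX.SYS (CE)

section par

variable {X : Type*} [MeasurableSpace X] {μ : Measure X} [IsFiniteMeasure μ]

theorem bm_nsq {g : X → ℂ} (bg : Bm g) : Integrable (fun x => ‖g x‖ ^ 2) μ := by
  obtain ⟨C, hC⟩ := bg.bdd
  refine Integrable.of_bound (bg.meas.norm.pow_const 2).aestronglyMeasurable (C ^ 2)
    (Eventually.of_forall fun x => ?_)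
  rw [Real.norm_eq_abs, abs_of_nonneg (by positivity)]
  exact pow_le_pow_left₀ (norm_nonneg _) (hC x) 2

/-- adding a multiple of a unit function -/
theorem par1 {e g : X → ℂ} (be : Bm e) (bg : Bm g) (h1 : ∫ x, e x * conj (e x) ∂μ = 1) (c : ℂ) :
    ∫ x, ‖c * e x + g x‖ ^ 2 ∂μ = ‖c + ∫ x, g x * conj (e x) ∂μ‖ ^ 2 - ‖∫ x, g x * conj (e x) ∂μ‖ ^ 2
      + ∫ x, ‖g x‖ ^ 2 ∂μ := by
  have n2 : ∀ z : ℂ, ((‖z‖ ^ 2 : ℝ) : ℂ) = z * conj z := fun z => by
    rw [Complex.mul_conj, Complex.normSq_eq_norm_sq]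
  have k : ∀ {f : X → ℂ}, ((∫ x, ‖f x‖ ^ 2 ∂μ : ℝ) : ℂ) = ∫ x, f x * conj (f x) ∂μ := by
    intro f
    rw [← integral_complex_ofReal]
    exact integral_congr_ae (Eventually.of_forall fun x => n2 _)
  apply Complex.ofReal_injective
  push_cast [k]
  have e1 : (fun x => (c * e x + g x) * conj (c * e x + g x)) = fun x =>
      (c * conj c) * (e x * conj (e x)) + (c * conj (g x * conj (e x)) + (conj c * (g x * conj (e x))
        + g x * conj (g x))) := by
    funext x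
    simp only [map_add, map_mul, Complex.conj_conj]
    ring
  have b1 : Bm fun x => (c * conj c) * (e x * conj (e x)) := (Bm.const _).mul (be.mul be.conj)
  have b2 : Bm fun x => c * conj (g x * conj (e x)) := (Bm.const _).mul (bg.mul be.conj).conj
  have b3 : Bm fun x => conj c * (g x * conj (e x)) := (Bm.const _).mul (bg.mul be.conj)
  have b4 : Bm fun x => g x * conj (g x) := bg.mul bg.conj
  have i3 : Integrable (fun x => conj c * (g x * conj (e x)) + g x * conj (g x)) μ := b3.int.add b4.int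
  have i2 : Integrable (fun x => c * conj (g x * conj (e x)) + (conj c * (g x * conj (e x))
        + g x * conj (g x))) μ := b2.int.add i3
  have cj : ∀ φ : X → ℂ, ∫ x, conj (φ x) ∂μ = conj (∫ x, φ x ∂μ) := fun φ => integral_conj
  rw [e1, integral_add b1.int i2, integral_add b2.int i3, integral_add b3.int b4.int, integral_const_mul,
    integral_const_mul, integral_const_mul, h1, cj]
  have m1 := n2 (c + ∫ x, g x * conj (e x) ∂μ)
  have m2 := n2 (∫ x, g x * conj (e x) ∂μ)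
  push_cast at m1 m2
  rw [m1, m2]
  simp only [map_add]
  ring

end par

variable {F : Cof} {f : ℝ → ℝ}

/-- the visual measure of a state and its harmonics -/
theorem int_E {f : ℝ → ℝ} (hf : Ef f) {n : ℕ} (hn : n ≠ 0) :
    ∫ t, C54.ep (X1 f) (X2 f) t ^ n ∂(vm (X1 f) (X2 f)) = 0 := by
  have h := X_lt hf
  rw [vm_int h]
  have e : (fun t => C54.ep (X1 f) (X2 f) t ^ n * (C54.al (X1 f) (X2 f) t : ℂ)) =
      fun t => C54.kz n (X1 f) (X2 f) t := by
    funext t
    rw [C54.kz, zpow_natCast]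
    ring
  rw [e, C54.int_kz h (by exact_mod_cast hn), mul_zero]

/-- `mean (m conj ε^j)` and `mean (m ε^j)` of the kernel `m` -/
def mc (F : Cof) (f : ℝ → ℝ) (j : ℕ) : ℂ :=
  ∫ t, mk7 F f t * conj (C54.ep (X1 f) (X2 f) t ^ j) ∂(vm (X1 f) (X2 f))

def me (F : Cof) (f : ℝ → ℝ) (j : ℕ) : ℂ :=
  ∫ t, mk7 F f t * C54.ep (X1 f) (X2 f) t ^ j ∂(vm (X1 f) (X2 f))

/-- `mean |m|²` -/
def mn (F : Cof) (f : ℝ → ℝ) : ℝ := ∫ t, ‖mk7 F f t‖ ^ 2 ∂(vm (X1 f) (X2 f))

/-- `mean m²` -/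
def mq (F : Cof) (f : ℝ → ℝ) : ℂ := ∫ t, mk7 F f t ^ 2 ∂(vm (X1 f) (X2 f))

/-- **Parseval**: the certificate from one Hermitian inequality -/
theorem certAt_par {W : ℝ → ℝ} {μ : ℝ} (hf : Ef f)
    (H : ∀ A B N M : ℂ, W7 W F f * (‖A‖ ^ 2 - ‖B‖ ^ 2) + bv F f A B N M + 2 * μ * ‖B‖ ^ 2
      + (‖A‖ ^ 2 + ‖B‖ ^ 2) * mn F f - 2 * (A * B * mq F f).re ≤
        ‖conj (B - sF f * conj A) - (A * mc F f 1 - conj B * conj (me F f 1))‖ ^ 2
        + ‖(A - sF f * conj B) - (A * me F f 1 - conj B * conj (mc F f 1))‖ ^ 2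
        + ‖conj (Rm f A B M) - (A * mc F f 3 - conj B * conj (me F f 3))‖ ^ 2
        + ‖Rp f A B N - (A * me F f 3 - conj B * conj (mc F f 3))‖ ^ 2) : CertAt W F μ 1 f := by
  refine certAt_wt hf fun A B N M => ?_
  have hX := X_lt hf
  have := vm_prob hX
  have bE := bm_ep hX
  obtain ⟨E, hE⟩ : ∃ E : ℝ → ℂ, E = C54.ep (X1 f) (X2 f) := ⟨_, rfl⟩
  have hEt : ∀ t, C54.ep (X1 f) (X2 f) t = E t := fun t => by rw [hE]
  have bm : Bm (mk7 F f) := bm_mk hf
  rw [← hE] at bE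
  have bE3 : Bm fun t => E t ^ 3 := bm_pow bE 3
  have hE1 : ∀ t, E t * conj (E t) = 1 := fun t => by
    rw [hE, Complex.mul_conj, Complex.normSq_eq_norm_sq, C54.norm_ep hX t]
    simp
  have o : ∀ n : ℕ, n ≠ 0 → ∫ t, E t ^ n ∂(vm (X1 f) (X2 f)) = 0 := fun n hn => by
    rw [hE]
    exact int_E hf hn
  have cj : ∀ φ : ℝ → ℂ, ∫ t, conj (φ t) ∂(vm (X1 f) (X2 f)) = conj (∫ t, φ t ∂(vm (X1 f) (X2 f))) :=
    fun φ => integral_conj
  have o' : ∀ n : ℕ, n ≠ 0 → ∫ t, conj (E t ^ n) ∂(vm (X1 f) (X2 f)) = 0 := fun n hn => by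
    rw [cj, o n hn, map_zero]
  have one : ∫ _t : ℝ, (1 : ℂ) ∂(vm (X1 f) (X2 f)) = 1 := by simp
  -- the projections of `g = A m - conj B conj m`
  set g : ℝ → ℂ := fun t => A * mk7 F f t - conj B * conj (mk7 F f t) with hg
  have bg : Bm g := by
    have e : g = fun t => A * mk7 F f t + (-conj B) * conj (mk7 F f t) := by
      funext t
      simp only [hg]
      ring
    rw [e]
    exact ((Bm.const _).mul bm).add ((Bm.const _).mul bm.conj)
  have pj : ∀ {φ : ℝ → ℂ}, Bm φ → ∫ t, g t * φ t ∂(vm (X1 f) (X2 f)) =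
      A * (∫ t, mk7 F f t * φ t ∂(vm (X1 f) (X2 f)))
        - conj B * conj (∫ t, mk7 F f t * conj (φ t) ∂(vm (X1 f) (X2 f))) := by
    intro φ bφ
    rw [← cj, ← integral_const_mul, ← integral_const_mul,
      ← integral_sub ((Bm.const A).mul (bm.mul bφ)).int ((Bm.const (conj B)).mul (bm.mul bφ.conj).conj).int]
    congr 1
    funext t
    simp only [hg, map_mul, Complex.conj_conj]
    ring
  have p1 : ∫ t, g t * conj (E t) ∂(vm (X1 f) (X2 f)) = A * mc F f 1 - conj B * conj (me F f 1) := by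
    rw [pj bE.conj]
    unfold mc me
    simp only [pow_one, Complex.conj_conj, hEt]
  have p2 : ∫ t, g t * E t ∂(vm (X1 f) (X2 f)) = A * me F f 1 - conj B * conj (mc F f 1) := by
    rw [pj bE]
    unfold mc me
    simp only [pow_one, hEt]
  have p3 : ∫ t, g t * conj (E t ^ 3) ∂(vm (X1 f) (X2 f)) = A * mc F f 3 - conj B * conj (me F f 3) := by
    rw [pj bE3.conj]
    unfold mc me
    simp only [Complex.conj_conj, hEt]
  have p4 : ∫ t, g t * E t ^ 3 ∂(vm (X1 f) (X2 f)) = A * me F f 3 - conj B * conj (mc F f 3) := by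
    rw [pj bE3]
    unfold mc me
    simp only [hEt]
  have ng : ∫ t, ‖g t‖ ^ 2 ∂(vm (X1 f) (X2 f)) = (‖A‖ ^ 2 + ‖B‖ ^ 2) * mn F f - 2 * (A * B * mq F f).re := by
    have e1 : (fun t => ‖g t‖ ^ 2) = fun t => (‖A‖ ^ 2 + ‖B‖ ^ 2) * ‖mk7 F f t‖ ^ 2
        - 2 * (A * B * mk7 F f t ^ 2).re := by
      funext t
      simp only [hg]
      rw [← Complex.normSq_eq_norm_sq, ← Complex.normSq_eq_norm_sq, ← Complex.normSq_eq_norm_sq,
        ← Complex.normSq_eq_norm_sq]
      generalize mk7 F f t = m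
      simp only [normSq_apply, mul_re, mul_im, sub_re, sub_im, conj_re, conj_im, pow_two]
      ring
    have b2 : Bm fun t => A * B * mk7 F f t ^ 2 := (Bm.const _).mul (bm_pow bm 2)
    have i2 : Integrable (fun t => 2 * (A * B * mk7 F f t ^ 2).re) (vm (X1 f) (X2 f)) :=
      b2.int.re.const_mul 2
    rw [e1, integral_sub ((bm_nsq bm).const_mul _) i2, integral_const_mul, integral_const_mul]
    unfold mn mq
    congr 2
    rw [show (∫ t, (A * B * mk7 F f t ^ 2).re ∂(vm (X1 f) (X2 f))) =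
      (∫ t, A * B * mk7 F f t ^ 2 ∂(vm (X1 f) (X2 f))).re from integral_re b2.int, integral_const_mul]
  -- the multipliers
  set α : ℂ := conj (B - sF f * conj A) - (A * mc F f 1 - conj B * conj (me F f 1)) with hα
  set β : ℂ := (A - sF f * conj B) - (A * me F f 1 - conj B * conj (mc F f 1)) with hβ
  set γ : ℂ := conj (Rm f A B M) - (A * mc F f 3 - conj B * conj (me F f 3)) with hγ
  set δ : ℂ := Rp f A B N - (A * me F f 3 - conj B * conj (mc F f 3)) with hδ
  refine ⟨α, β, γ, δ, fun _ => 1, measurable_const, ⟨1, 1, one_pos, fun _ => ⟨le_rfl, le_rfl⟩⟩, ?_⟩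
  have E13 : ∀ t, E t ^ 3 * conj (E t ^ 3) = 1 := fun t => by
    rw [map_pow, ← mul_pow, hE1, one_pow]
  -- the norm of `h`
  set g4 : ℝ → ℂ := fun t => δ * conj (E t ^ 3) + g t with hg4
  set g3 : ℝ → ℂ := fun t => γ * E t ^ 3 + g4 t with hg3
  set g2 : ℝ → ℂ := fun t => β * conj (E t) + g3 t with hg2
  have bg4 : Bm g4 := ((Bm.const δ).mul bE3.conj).add bg
  have bg3 : Bm g3 := ((Bm.const γ).mul bE3).add bg4
  have bg2 : Bm g2 := ((Bm.const β).mul bE.conj).add bg3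
  have u1 : ∫ t, E t * conj (E t) ∂(vm (X1 f) (X2 f)) = 1 := by simp only [hE1]; exact one
  have u2 : ∫ t, conj (E t) * conj (conj (E t)) ∂(vm (X1 f) (X2 f)) = 1 := by
    rw [← u1]
    congr 1
    funext t
    rw [Complex.conj_conj, mul_comm]
  have u3 : ∫ t, E t ^ 3 * conj (E t ^ 3) ∂(vm (X1 f) (X2 f)) = 1 := by simp only [E13]; exact one
  have u4 : ∫ t, conj (E t ^ 3) * conj (conj (E t ^ 3)) ∂(vm (X1 f) (X2 f)) = 1 := by
    rw [← u3]
    congr 1
    funext t
    rw [Complex.conj_conj, mul_comm]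
  have eh : (fun t => ‖hm F f A B α β γ δ t‖ ^ 2 / (1 : ℝ)) = fun t => ‖α * E t + g2 t‖ ^ 2 := by
    funext t
    simp only [hg2, hg3, hg4, hg, hm, hEt, div_one]
    congr 2
    ring
  have q1 := par1 (μ := vm (X1 f) (X2 f)) bE bg2 u1 α
  have q2 := par1 (μ := vm (X1 f) (X2 f)) bE.conj bg3 u2 β
  have q3 := par1 (μ := vm (X1 f) (X2 f)) bE3 bg4 u3 γ
  have q4 := par1 (μ := vm (X1 f) (X2 f)) bE3.conj bg u4 δ
  -- orthogonality
  have z1 : ∫ t, g4 t * conj (E t ^ 3) ∂(vm (X1 f) (X2 f)) = A * mc F f 3 - conj B * conj (me F f 3) := by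
    have e : (fun t => g4 t * conj (E t ^ 3)) = fun t => δ * conj (E t ^ 6) + g t * conj (E t ^ 3) := by
      funext t
      simp only [hg4, map_pow]
      ring
    rw [e, integral_add ((Bm.const δ).mul (bm_pow bE 6).conj).int (bg.mul bE3.conj).int,
      integral_const_mul, o' 6 (by norm_num), mul_zero, zero_add, p3]
  have z2 : ∫ t, g3 t * conj (conj (E t)) ∂(vm (X1 f) (X2 f)) = A * me F f 1 - conj B * conj (mc F f 1) := by
    have e : (fun t => g3 t * conj (conj (E t))) = fun t => γ * E t ^ 4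
        + (δ * conj (E t ^ 2) + g t * E t) := by
      funext t
      simp only [hg3, hg4, Complex.conj_conj, map_pow]
      linear_combination (δ * conj (E t) ^ 2) * hE1 t
    have i2 : Integrable (fun t => δ * conj (E t ^ 2) + g t * E t) (vm (X1 f) (X2 f)) :=
      ((Bm.const δ).mul (bm_pow bE 2).conj).int.add (bg.mul bE).int
    rw [e, integral_add ((Bm.const γ).mul (bm_pow bE 4)).int i2,
      integral_add ((Bm.const δ).mul (bm_pow bE 2).conj).int (bg.mul bE).int, integral_const_mul,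
      integral_const_mul, o 4 (by norm_num), o' 2 (by norm_num), mul_zero, mul_zero, zero_add, zero_add, p2]
  have z3 : ∫ t, g2 t * conj (E t) ∂(vm (X1 f) (X2 f)) = A * mc F f 1 - conj B * conj (me F f 1) := by
    have e : (fun t => g2 t * conj (E t)) = fun t => β * conj (E t ^ 2) + (γ * E t ^ 2
        + (δ * conj (E t ^ 4) + g t * conj (E t))) := by
      funext t
      simp only [hg2, hg3, hg4, map_pow]
      linear_combination (γ * E t ^ 2) * hE1 t
    have i3 : Integrable (fun t => δ * conj (E t ^ 4) + g t * conj (E t)) (vm (X1 f) (X2 f)) :=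
      ((Bm.const δ).mul (bm_pow bE 4).conj).int.add (bg.mul bE.conj).int
    have i2 : Integrable (fun t => γ * E t ^ 2 + (δ * conj (E t ^ 4) + g t * conj (E t)))
      (vm (X1 f) (X2 f)) := ((Bm.const γ).mul (bm_pow bE 2)).int.add i3
    rw [e, integral_add ((Bm.const β).mul (bm_pow bE 2).conj).int i2,
      integral_add ((Bm.const γ).mul (bm_pow bE 2)).int i3,
      integral_add ((Bm.const δ).mul (bm_pow bE 4).conj).int (bg.mul bE.conj).int, integral_const_mul,
      integral_const_mul, integral_const_mul, o 2 (by norm_num), o' 2 (by norm_num), o' 4 (by norm_num),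
      mul_zero, mul_zero, mul_zero, zero_add, zero_add, zero_add, p1]
  have z4 : ∫ t, g t * conj (conj (E t ^ 3)) ∂(vm (X1 f) (X2 f)) = A * me F f 3 - conj B * conj (mc F f 3) := by
    simp only [Complex.conj_conj]
    exact p4
  rw [z3] at q1
  rw [z2] at q2
  rw [z1] at q3
  rw [z4] at q4
  have q1' : ∫ t, ‖α * E t + g2 t‖ ^ 2 ∂(vm (X1 f) (X2 f)) = _ := q1
  have q2' : ∫ t, ‖g2 t‖ ^ 2 ∂(vm (X1 f) (X2 f)) = _ := q2
  have q3' : ∫ t, ‖g3 t‖ ^ 2 ∂(vm (X1 f) (X2 f)) = _ := q3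
  have q4' : ∫ t, ‖g4 t‖ ^ 2 ∂(vm (X1 f) (X2 f)) = _ := q4
  rw [eh, q1', q2', q3', q4', ng]
  have h := H A B N M
  have i1 : ∫ _t : ℝ, (1 : ℝ) ∂(vm (X1 f) (X2 f)) = 1 := by simp
  rw [i1]
  unfold rest
  -- squares
  have sq : ∀ z w : ℂ, ‖(z - w) + w‖ ^ 2 - ‖w‖ ^ 2 - 2 * (conj (z - w) * z).re = -‖z - w‖ ^ 2 := by
    intro z w
    rw [← Complex.normSq_eq_norm_sq, ← Complex.normSq_eq_norm_sq, ← Complex.normSq_eq_norm_sq]
    simp only [normSq_apply, mul_re, sub_re, sub_im, conj_re, conj_im, add_re, add_im]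
    ring
  have s1 := sq (conj (B - sF f * conj A)) (A * mc F f 1 - conj B * conj (me F f 1))
  have s2 := sq (A - sF f * conj B) (A * me F f 1 - conj B * conj (mc F f 1))
  have s3 := sq (conj (Rm f A B M)) (A * mc F f 3 - conj B * conj (me F f 3))
  have s4 := sq (Rp f A B N) (A * me F f 3 - conj B * conj (mc F f 3))
  rw [← hα] at s1 h
  rw [← hβ] at s2 h
  rw [← hγ] at s3 h
  rw [← hδ] at s4 h
  simp only [Complex.add_re]
  linarith

end Pool.Agent.FPX.OM7
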