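import Mathlib
import Pool.Agent.FPX.OMP

/-
OMW (helper11): the certificate of OM7 from Parseval's inequality with a weight `w`: explicit Gram form.
-/

open MeasureTheory Set Filter Topology Complex
open scoped ENNReal NNReal ContDiff ComplexConjugate

noncomputable section

namespace Pool.Agent.FPX.OM7

open Pool.Agent.FPX Pool.Agent.FPX.UMP Pool.Agent.FPX.UMQ Pool.Agent.FPX.UXA Pool.Agent.EWD
open Pool.Agent.FPX.F54 (X1 X2 dX1 dX2 X_lt X_G1 X_G2 vF sF)
open Pool.Agent.FPX.S54 (YY de)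
open Pool.Agent.FPX.OMB (vm vm_int vm_prob bm_ep bm_real)
open Pool.Agent.FPX.CRD (Bm)
open Pool.Agent.FPX.OMS (rF cF)
open Pool.Agent.FPX.SYS (CE)

section gram

variable {X : Type*} [MeasurableSpace X] {μ : Measure X} [IsFiniteMeasure μ]

/-- the square of a combination with a real weight -/
theorem gram {n : ℕ} {e : Fin n → X → ℂ} (be : ∀ i, Bm (e i)) {g v : X → ℂ} (bg : Bm g) (bv : Bm v)
    (hv : ∀ x, (v x).im = 0) (c : Fin n → ℂ) :
    ∫ x, v x * (((∑ i, c i * e i x) + g x) * conj ((∑ i, c i * e i x) + g x)) ∂μ =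
      (∑ i, ∑ j, c i * conj (c j) * ∫ x, v x * (e i x * conj (e j x)) ∂μ)
        + ((∑ i, c i * conj (∫ x, v x * (g x * conj (e i x)) ∂μ))
        + ((∑ i, conj (c i) * ∫ x, v x * (g x * conj (e i x)) ∂μ) + ∫ x, v x * (g x * conj (g x)) ∂μ)) := by
  have rc : ∀ x, conj (v x) = v x := fun x => Complex.conj_eq_iff_im.2 (hv x)
  have cj : ∀ φ : X → ℂ, ∫ x, conj (φ x) ∂μ = conj (∫ x, φ x ∂μ) := fun φ => integral_conj
  have e1 : (fun x => v x * (((∑ i, c i * e i x) + g x) * conj ((∑ i, c i * e i x) + g x))) = fun x =>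
      (∑ i, ∑ j, c i * conj (c j) * (v x * (e i x * conj (e j x))))
        + ((∑ i, c i * conj (v x * (g x * conj (e i x)))) + ((∑ i, conj (c i) * (v x * (g x * conj (e i x))))
          + v x * (g x * conj (g x)))) := by
    funext x
    have h1 : (∑ i, ∑ j, c i * conj (c j) * (v x * (e i x * conj (e j x)))) =
        v x * ((∑ i, c i * e i x) * conj (∑ i, c i * e i x)) := by
      rw [map_sum, Finset.sum_mul_sum, Finset.mul_sum]
      refine Finset.sum_congr rfl fun i _ => ?_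
      rw [Finset.mul_sum]
      refine Finset.sum_congr rfl fun j _ => ?_
      rw [map_mul]
      ring
    have h2 : (∑ i, c i * conj (v x * (g x * conj (e i x)))) = v x * ((∑ i, c i * e i x) * conj (g x)) := by
      rw [Finset.sum_mul, Finset.mul_sum]
      refine Finset.sum_congr rfl fun i _ => ?_
      simp only [map_mul, Complex.conj_conj, rc]
      ring
    have h3 : (∑ i, conj (c i) * (v x * (g x * conj (e i x)))) = v x * (g x * conj (∑ i, c i * e i x)) := by
      rw [map_sum, Finset.mul_sum, Finset.mul_sum]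
      refine Finset.sum_congr rfl fun i _ => ?_
      rw [map_mul]
      ring
    rw [h1, h2, h3, map_add]
    ring
  have bij : ∀ i j, Bm fun x => c i * conj (c j) * (v x * (e i x * conj (e j x))) := fun i j =>
    (Bm.const _).mul (bv.mul ((be i).mul (be j).conj))
  have bi : ∀ i, Bm fun x => c i * conj (v x * (g x * conj (e i x))) := fun i =>
    (Bm.const _).mul (bv.mul (bg.mul (be i).conj)).conj
  have bi' : ∀ i, Bm fun x => conj (c i) * (v x * (g x * conj (e i x))) := fun i =>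
    (Bm.const _).mul (bv.mul (bg.mul (be i).conj))
  have bgg : Bm fun x => v x * (g x * conj (g x)) := bv.mul (bg.mul bg.conj)
  have s1 : Integrable (fun x => ∑ i, ∑ j, c i * conj (c j) * (v x * (e i x * conj (e j x)))) μ :=
    integrable_finsetSum _ fun i _ => integrable_finsetSum _ fun j _ => (bij i j).int
  have s2 : Integrable (fun x => ∑ i, c i * conj (v x * (g x * conj (e i x)))) μ :=
    integrable_finsetSum _ fun i _ => (bi i).int
  have s3 : Integrable (fun x => ∑ i, conj (c i) * (v x * (g x * conj (e i x)))) μ :=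
    integrable_finsetSum _ fun i _ => (bi' i).int
  have s4 : Integrable (fun x => (∑ i, conj (c i) * (v x * (g x * conj (e i x)))) + v x * (g x * conj (g x))) μ :=
    s3.add bgg.int
  have s5 : Integrable (fun x => (∑ i, c i * conj (v x * (g x * conj (e i x))))
      + ((∑ i, conj (c i) * (v x * (g x * conj (e i x)))) + v x * (g x * conj (g x)))) μ := s2.add s4
  rw [e1, integral_add s1 s5, integral_add s2 s4, integral_add s3 bgg.int,
    integral_finsetSum _ fun i _ => integrable_finsetSum _ fun j _ => (bij i j).int,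
    integral_finsetSum _ fun i _ => (bi i).int, integral_finsetSum _ fun i _ => (bi' i).int]
  congr 1
  · refine Finset.sum_congr rfl fun i _ => ?_
    rw [integral_finsetSum _ fun j _ => (bij i j).int]
    refine Finset.sum_congr rfl fun j _ => ?_
    rw [integral_const_mul]
  · congr 1
    · refine Finset.sum_congr rfl fun i _ => ?_
      rw [integral_const_mul, cj]
    · congr 1
      refine Finset.sum_congr rfl fun i _ => ?_
      rw [integral_const_mul]

end gram

variable {F : Cof} {f : ℝ → ℝ}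

/-- the functions `ε, conj ε, ε³, conj ε³` of a state -/
def ef (f : ℝ → ℝ) : Fin 4 → ℝ → ℂ :=
  ![fun t => C54.ep (X1 f) (X2 f) t, fun t => conj (C54.ep (X1 f) (X2 f) t),
    fun t => C54.ep (X1 f) (X2 f) t ^ 3, fun t => conj (C54.ep (X1 f) (X2 f) t ^ 3)]

/-- the values of the four relations -/
def rf (f : ℝ → ℝ) (A B N M : ℂ) : Fin 4 → ℂ :=
  ![conj (B - sF f * conj A), A - sF f * conj B, conj (Rm f A B M), Rp f A B N]

/-- the Gram matrix of `ef` with the weight `1 / w` -/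
def Gw (f w : ℝ → ℝ) (i j : Fin 4) : ℂ := ∫ t, ((w t)⁻¹ : ℝ) * (ef f i t * conj (ef f j t)) ∂(vm (X1 f) (X2 f))

/-- `mean (m conj e_i / w)` -/
def mw (F : Cof) (f w : ℝ → ℝ) (i : Fin 4) : ℂ :=
  ∫ t, ((w t)⁻¹ : ℝ) * (mk7 F f t * conj (ef f i t)) ∂(vm (X1 f) (X2 f))

/-- `mean (m e_i / w)` -/
def mw' (F : Cof) (f w : ℝ → ℝ) (i : Fin 4) : ℂ :=
  ∫ t, ((w t)⁻¹ : ℝ) * (mk7 F f t * ef f i t) ∂(vm (X1 f) (X2 f))

/-- `mean (|m|² / w)` -/
def mnw (F : Cof) (f w : ℝ → ℝ) : ℝ := ∫ t, ‖mk7 F f t‖ ^ 2 / w t ∂(vm (X1 f) (X2 f))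

/-- `mean (m² / w)` -/
def mqw (F : Cof) (f w : ℝ → ℝ) : ℂ := ∫ t, ((w t)⁻¹ : ℝ) * mk7 F f t ^ 2 ∂(vm (X1 f) (X2 f))

/-- `mean (g conj e_i / w)`, `g = A m - conj B conj m` -/
def pw (F : Cof) (f w : ℝ → ℝ) (A B : ℂ) (i : Fin 4) : ℂ := A * mw F f w i - conj B * conj (mw' F f w i)

/-- **weighted Parseval**, explicit -/
theorem certAt_gram {W : ℝ → ℝ} {μ T : ℝ} (hf : Ef f) {w : ℝ → ℝ} (hw : Measurable w) {a b : ℝ} (ha : 0 < a)
    (hab : ∀ t, a ≤ w t ∧ w t ≤ b)
    (H : ∀ A B N M : ℂ, ∃ c : Fin 4 → ℂ, W7 W F f * (‖A‖ ^ 2 - ‖B‖ ^ 2) + bv F f A B N M + 2 * μ * ‖B‖ ^ 2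
      + (∫ t, w t ∂(vm (X1 f) (X2 f)))
      + ((‖A‖ ^ 2 + ‖B‖ ^ 2) * mnw F f w - 2 * (A * B * mqw F f w).re)
      + (∑ i, ∑ j, c i * conj (c j) * Gw f w i j).re
      + 2 * (∑ i, conj (c i) * (pw F f w A B i - rf f A B N M i)).re ≤ T) : CertAt W F μ T f := by
  refine certAt_wt hf fun A B N M => ?_
  obtain ⟨c, h⟩ := H A B N M
  refine ⟨c 0, c 1, c 2, c 3, w, hw, ⟨a, b, ha, hab⟩, ?_⟩
  have hX := X_lt hf
  have := vm_prob hX
  have bE := bm_ep hX
  have bE3 := bm_pow bE 3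
  have bm : Bm (mk7 F f) := bm_mk hf
  have be : ∀ i, Bm (ef f i) := by
    intro i
    fin_cases i
    · exact bE
    · exact bE.conj
    · exact bE3
    · exact bE3.conj
  have h0 : ∀ t, 0 < w t := fun t => lt_of_lt_of_le ha (hab t).1
  have bv' : Bm fun t => (((w t)⁻¹ : ℝ) : ℂ) := by
    refine bm_real hw.inv (C := a⁻¹) fun t => ?_
    rw [abs_of_pos (inv_pos.2 (h0 t))]
    exact inv_anti₀ ha (hab t).1
  set g : ℝ → ℂ := fun t => A * mk7 F f t - conj B * conj (mk7 F f t) with hg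
  have bg : Bm g := by
    have e : g = fun t => A * mk7 F f t + (-conj B) * conj (mk7 F f t) := by
      funext t
      simp only [hg]
      ring
    rw [e]
    exact ((Bm.const _).mul bm).add ((Bm.const _).mul bm.conj)
  have cj : ∀ φ : ℝ → ℂ, ∫ t, conj (φ t) ∂(vm (X1 f) (X2 f)) = conj (∫ t, φ t ∂(vm (X1 f) (X2 f))) :=
    fun φ => integral_conj
  have G := gram (μ := vm (X1 f) (X2 f)) be bg bv' (fun t => Complex.ofReal_im _) c
  have hh : ∀ t, (∑ i, c i * ef f i t) + g t = hm F f A B (c 0) (c 1) (c 2) (c 3) t := fun t => by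
    simp only [Fin.sum_univ_four, hg, hm, ef]
    simp
    ring
  simp only [hh] at G
  have n2 : ∀ z : ℂ, ((‖z‖ ^ 2 : ℝ) : ℂ) = z * conj z := fun z => by
    rw [Complex.mul_conj, Complex.normSq_eq_norm_sq]
  have LH : ((∫ t, ‖hm F f A B (c 0) (c 1) (c 2) (c 3) t‖ ^ 2 / w t ∂(vm (X1 f) (X2 f)) : ℝ) : ℂ) =
      ∫ t, (((w t)⁻¹ : ℝ) : ℂ) * (hm F f A B (c 0) (c 1) (c 2) (c 3) t
        * conj (hm F f A B (c 0) (c 1) (c 2) (c 3) t)) ∂(vm (X1 f) (X2 f)) := by
    rw [← integral_complex_ofReal]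
    refine integral_congr_ae (Eventually.of_forall fun t => ?_)
    simp only
    rw [← n2, ← Complex.ofReal_mul, div_eq_mul_inv, mul_comm]
  have P : ∀ i, ∫ t, (((w t)⁻¹ : ℝ) : ℂ) * (g t * conj (ef f i t)) ∂(vm (X1 f) (X2 f)) = pw F f w A B i := by
    intro i
    unfold pw mw mw'
    rw [← cj, ← integral_const_mul, ← integral_const_mul,
      ← integral_sub ((Bm.const A).mul (bv'.mul (bm.mul (be i).conj))).int
        ((Bm.const (conj B)).mul (bv'.mul (bm.mul (be i))).conj).int]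
    congr 1
    funext t
    simp only [hg, map_mul, Complex.conj_ofReal]
    ring
  have NG : (∫ t, (((w t)⁻¹ : ℝ) : ℂ) * (g t * conj (g t)) ∂(vm (X1 f) (X2 f))).re =
      (‖A‖ ^ 2 + ‖B‖ ^ 2) * mnw F f w - 2 * (A * B * mqw F f w).re := by
    have b2 : Bm fun t => A * B * ((((w t)⁻¹ : ℝ) : ℂ) * mk7 F f t ^ 2) :=
      (Bm.const _).mul (bv'.mul (bm_pow bm 2))
    have i1 : Integrable (fun t => ‖mk7 F f t‖ ^ 2 / w t) (vm (X1 f) (X2 f)) := by
      obtain ⟨C, hC⟩ := bm.bdd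
      refine Integrable.of_bound ((bm.meas.norm.pow_const 2).div hw).aestronglyMeasurable (C ^ 2 / a)
        (Eventually.of_forall fun t => ?_)
      have := h0 t
      rw [Real.norm_eq_abs, abs_of_nonneg (by positivity)]
      exact div_le_div₀ (sq_nonneg _) (pow_le_pow_left₀ (norm_nonneg _) (hC t) 2) ha (hab t).1
    have i2 : Integrable (fun t => 2 * (A * B * ((((w t)⁻¹ : ℝ) : ℂ) * mk7 F f t ^ 2)).re) (vm (X1 f) (X2 f)) :=
      b2.int.re.const_mul 2
    have e0 : (∫ t, (((w t)⁻¹ : ℝ) : ℂ) * (g t * conj (g t)) ∂(vm (X1 f) (X2 f))).re =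
        ∫ t, ((((w t)⁻¹ : ℝ) : ℂ) * (g t * conj (g t))).re ∂(vm (X1 f) (X2 f)) :=
      (integral_re (bv'.mul (bg.mul bg.conj)).int).symm
    have e1 : (fun t => ((((w t)⁻¹ : ℝ) : ℂ) * (g t * conj (g t))).re) = fun t =>
        (‖A‖ ^ 2 + ‖B‖ ^ 2) * (‖mk7 F f t‖ ^ 2 / w t)
          - 2 * (A * B * ((((w t)⁻¹ : ℝ) : ℂ) * mk7 F f t ^ 2)).re := by
      funext t
      simp only [hg]
      rw [← Complex.normSq_eq_norm_sq, ← Complex.normSq_eq_norm_sq, ← Complex.normSq_eq_norm_sq,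
        div_eq_mul_inv]
      generalize mk7 F f t = m
      generalize (w t)⁻¹ = r
      simp only [normSq_apply, mul_re, mul_im, sub_re, sub_im, conj_re, conj_im, pow_two, ofReal_re,
        ofReal_im]
      ring
    rw [e0, e1, integral_sub (i1.const_mul _) i2, integral_const_mul, integral_const_mul]
    unfold mnw mqw
    congr 2
    rw [show (∫ t, (A * B * ((((w t)⁻¹ : ℝ) : ℂ) * mk7 F f t ^ 2)).re ∂(vm (X1 f) (X2 f))) =
      (∫ t, A * B * ((((w t)⁻¹ : ℝ) : ℂ) * mk7 F f t ^ 2) ∂(vm (X1 f) (X2 f))).re from integral_re b2.int,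
      integral_const_mul]
  have R1 : ∫ t, ‖hm F f A B (c 0) (c 1) (c 2) (c 3) t‖ ^ 2 / w t ∂(vm (X1 f) (X2 f)) =
      (∑ i, ∑ j, c i * conj (c j) * Gw f w i j).re + 2 * (∑ i, conj (c i) * pw F f w A B i).re
        + ((‖A‖ ^ 2 + ‖B‖ ^ 2) * mnw F f w - 2 * (A * B * mqw F f w).re) := by
    have e := congrArg Complex.re LH
    rw [Complex.ofReal_re, G] at e
    simp only [P] at e
    rw [e]
    simp only [Complex.add_re, NG]
    have e2 : (∑ i, c i * conj (pw F f w A B i)).re = (∑ i, conj (c i) * pw F f w A B i).re := by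
      rw [← Complex.conj_re (∑ i, conj (c i) * pw F f w A B i), map_sum]
      simp only [map_mul, Complex.conj_conj]
    rw [e2]
    unfold Gw
    ring
  rw [R1]
  unfold rest
  have e3 : (∑ i, conj (c i) * (pw F f w A B i - rf f A B N M i)).re =
      (∑ i, conj (c i) * pw F f w A B i).re - (conj (c 0) * conj (B - sF f * conj A)
        + conj (c 1) * (A - sF f * conj B) + conj (c 2) * conj (Rm f A B M) + conj (c 3) * Rp f A B N).re := by
    rw [← Complex.sub_re]
    congr 1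
    simp only [mul_sub, Finset.sum_sub_distrib]
    congr 1
    simp only [Fin.sum_univ_four, rf]
    simp
    ring
  rw [e3] at h
  linarith

end Pool.Agent.FPX.OM7
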