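import Mathlib
import Pool.Agent.FPX.OM8X
import Pool.Agent.FPX.OMW

/-
OMR (helper86): the certificates `Cert7`, `Cert7X` in the REAL FRAME: states with `ζ = s ≥ 0`, `x = s δ / c`,
`E = e^{iα}`; all coefficients and state functionals of OM7, OM9, OMX in this frame.
-/

open MeasureTheory Set Filter Topology Complex
open scoped ENNReal NNReal ContDiff ComplexConjugate

noncomputable section

namespace Pool.Agent.FPX.OMR

open Pool.Agent.FPX Pool.Agent.FPX.UMP Pool.Agent.FPX.UMQ Pool.Agent.FPX.UXA Pool.Agent.EWD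
open Pool.Agent.FPX.F54 (X1 X2 X_lt sF)
open Pool.Agent.FPX.S54 (mS ME YY de Sn)
open Pool.Agent.FPX.OMB (vm vm_int vm_prob bm_ep bm_real)
open Pool.Agent.FPX.CRD (Bm)
open Pool.Agent.FPX.OMS (rF cF cF_eq ME_vm)
open Pool.Agent.FPX.SYS (CE)
open Pool.Agent.FPX.OM7

/-- `x = s δ / c` -/
def xR (f : ℝ → ℝ) (t : ℝ) : ℝ := X1 f / cF f * de (X1 f) 0 f t

/-- `E = e^{iα}` -/
def eR (f : ℝ → ℝ) (t : ℝ) : ℂ := C54.ep (X1 f) 0 t

/-- the visual measure (a probability measure) -/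
def vR (f : ℝ → ℝ) : Measure ℝ := vm (X1 f) 0

/-- `mean (x E³)` -/
def r3 (f : ℝ → ℝ) : ℂ := ∫ t, (xR f t : ℂ) * eR f t ^ 3 ∂(vR f)

/-- `mean (x E⁵)` -/
def r5 (f : ℝ → ℝ) : ℂ := ∫ t, (xR f t : ℂ) * eR f t ^ 5 ∂(vR f)

/-- `mean (x²)` -/
def q0 (f : ℝ → ℝ) : ℝ := ∫ t, xR f t ^ 2 ∂(vR f)

/-- `mean (x² E²)` -/
def q2 (f : ℝ → ℝ) : ℂ := ∫ t, (xR f t : ℂ) ^ 2 * eR f t ^ 2 ∂(vR f)

/-- `mean (x² E⁴)` -/
def q4 (f : ℝ → ℝ) : ℂ := ∫ t, (xR f t : ℂ) ^ 2 * eR f t ^ 4 ∂(vR f)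

/-- a state with `ζ = X1 f ≥ 0` -/
structure Re (f : ℝ → ℝ) : Prop where
  hf : Ef f
  h0 : 0 ≤ X1 f
  h2 : X2 f = 0

/-- the kernel `m` in the real frame:
`x (c Q E⁻² + c Z + c s² P E²) + s² X E⁻³ + s⁴ Y E³ + 4 c g Re (conj r₃ E³)` -/
def mR (F : Cof) (f : ℝ → ℝ) (t : ℝ) : ℂ :=
  (xR f t : ℂ) * (((cF f * F.Q (rF f) : ℝ) : ℂ) * conj (eR f t) ^ 2 + ((cF f * F.Z (rF f) : ℝ) : ℂ)
      + ((cF f * rF f * F.P (rF f) : ℝ) : ℂ) * eR f t ^ 2)
    + ((rF f * F.x (rF f) : ℝ) : ℂ) * conj (eR f t) ^ 3 + ((rF f ^ 2 * F.y (rF f) : ℝ) : ℂ) * eR f t ^ 3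
    + ((4 * cF f * F.g (rF f) * (conj (r3 f) * eR f t ^ 3).re : ℝ) : ℂ)

/-- the coefficient of `|A|² - |B|²` in the real frame -/
def W7R (W : ℝ → ℝ) (F : Cof) (f : ℝ → ℝ) : ℝ :=
  2 * cF f * W (cF f) - rF f * deriv W (cF f)
    + cF f * (2 * cF f ^ 2 * deriv F.Q (rF f) - F.Q (rF f) + F.Z (rF f)
      + 2 * cF f ^ 2 * (rF f * deriv F.P (rF f) + 3 * F.P (rF f)) + rF f * F.P (rF f)) * (q2 f).re
    + 2 * cF f * (rF f * deriv F.Z (rF f) + F.Z (rF f)) * S54.S0 f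
    + 2 * F.P (rF f) * cF f * rF f * (q4 f - r3 f).re
    + rF f * (4 * cF f ^ 2 * deriv F.x (rF f) - 3 * F.x (rF f)
      + 4 * cF f ^ 2 * (rF f * deriv F.y (rF f) + 4 * F.y (rF f)) + 3 * rF f * F.y (rF f)) * (r3 f).re
    + 5 * F.y (rF f) * rF f ^ 2 * (r5 f).re
    + 2 * cF f * (rF f * deriv F.g (rF f) + F.g (rF f)) * normSq (CE 3 f)
    + 10 * cF f * F.g (rF f) * (conj (r3 f) * r5 f).re

/-- the value of the term `Im (conj C₃ ∇C₃)` in the real frame -/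
def bR (F : Cof) (f : ℝ → ℝ) (A B N M : ℂ) : ℝ :=
  2 * F.b (rF f) * (‖N‖ ^ 2 - ‖M‖ ^ 2) - 3 * F.b (rF f) * normSq (CE 3 f) * (‖A‖ ^ 2 - ‖B‖ ^ 2)
    + 4 * cF f ^ 2 * deriv F.b (rF f) * ((A + conj B) * (r3 f * conj N - conj (r3 f) * M)).re

/-- `mean (E³ conj K)` in terms of the part `N` of `∇C₃` -/
def RpR (f : ℝ → ℝ) (A B N : ℂ) : ℂ := N - 5 / 2 * conj B * r5 f + 3 / 2 * (A - conj B) * r3 f

/-- `mean (E³ K)` in terms of the part `M` of `∇C₃` -/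
def RmR (f : ℝ → ℝ) (A B M : ℂ) : ℂ := M - 5 / 2 * conj A * r5 f + 3 / 2 * (B - conj A) * r3 f

/-- the combination of the functions of the certificate -/
def hR (F : Cof) (f : ℝ → ℝ) (A B α β γ δ : ℂ) (t : ℝ) : ℂ :=
  α * eR f t + β * conj (eR f t) + γ * eR f t ^ 3 + δ * conj (eR f t ^ 3) + A * mR F f t
    - conj B * conj (mR F f t)

/-- the terms without `K` -/
def restR (W : ℝ → ℝ) (F : Cof) (μ : ℝ) (f : ℝ → ℝ) (A B N M α β γ δ : ℂ) : ℝ :=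
  W7R W F f * (‖A‖ ^ 2 - ‖B‖ ^ 2) + bR F f A B N M + 2 * μ * ‖B‖ ^ 2
    - 2 * (conj α * conj (B - 3 / 2 * r3 f * conj A) + conj β * (A - 3 / 2 * r3 f * conj B)
      + conj γ * conj (RmR f A B M) + conj δ * RpR f A B N).re

namespace Re

variable {f : ℝ → ℝ}

theorem lt (H : Re f) : X1 f ^ 2 + (0 : ℝ) ^ 2 < 1 := by
  have := X_lt H.hf
  rwa [H.h2] at this

theorem lt1 (H : Re f) : X1 f < 1 := by
  have := H.lt
  nlinarith [H.h0]

theorem prob (H : Re f) : IsProbabilityMeasure (vR f) := vm_prob H.lt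

theorem rr (H : Re f) : rF f = X1 f ^ 2 := by
  unfold rF
  rw [H.h2]
  ring

theorem c0 (H : Re f) : 0 < cF f := cF_pos H.hf

theorem cC (H : Re f) : (cF f : ℂ) ≠ 0 := Complex.ofReal_ne_zero.2 H.c0.ne'

theorem c2 (H : Re f) : cF f ^ 2 = 1 - X1 f ^ 2 := by
  rw [← H.rr]
  exact Real.sq_sqrt (sub_pos.2 (X_lt H.hf)).le

theorem zz (H : Re f) : YY (X1 f) (X2 f) = (X1 f : ℂ) := by
  rw [H.h2]
  rfl

theorem vv (H : Re f) : vm (X1 f) (X2 f) = vR f := by rw [H.h2]; rfl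

theorem ee (H : Re f) (t : ℝ) : C54.ep (X1 f) (X2 f) t = eR f t := by rw [H.h2]; rfl

theorem dd (H : Re f) (t : ℝ) : X1 f * de (X1 f) (X2 f) f t = cF f * xR f t := by
  rw [H.h2]
  unfold xR
  have := H.c0.ne'
  field_simp

theorem ddC (H : Re f) (t : ℝ) : (X1 f : ℂ) * (de (X1 f) (X2 f) f t : ℂ) = cF f * (xR f t : ℂ) := by
  exact_mod_cast congrArg (fun z : ℝ => (z : ℂ)) (H.dd t)

/-- the harmonics -/
theorem me (H : Re f) (n : ℕ) (g : ℝ → ℝ) : ME n (X1 f) (X2 f) g = ∫ t, (g t : ℂ) * eR f t ^ n ∂(vR f) := by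
  rw [H.h2]
  exact ME_vm H.lt n g

theorem ce (H : Re f) (n : ℕ) : (X1 f : ℂ) * CE n f = 2 * cF f * ∫ t, (xR f t : ℂ) * eR f t ^ n ∂(vR f) := by
  have e : (X1 f : ℂ) * ∫ t, (de (X1 f) (X2 f) f t : ℂ) * eR f t ^ n ∂(vR f) =
      cF f * ∫ t, (xR f t : ℂ) * eR f t ^ n ∂(vR f) := by
    rw [← integral_const_mul, ← integral_const_mul]
    congr 1
    funext t
    rw [← mul_assoc, H.ddC, mul_assoc]
  unfold CE
  rw [S54.Cm_eq (X_lt H.hf), H.me n]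
  linear_combination 2 * e

theorem c3 (H : Re f) : (X1 f : ℂ) * CE 3 f = 2 * cF f * r3 f := H.ce 3

theorem c5 (H : Re f) : (X1 f : ℂ) * CE 5 f = 2 * cF f * r5 f := H.ce 5

theorem sn (H : Re f) (n : ℕ) : (X1 f : ℂ) ^ 2 * Sn n (X1 f) (X2 f) f =
    (cF f : ℂ) ^ 2 * ∫ t, (xR f t : ℂ) ^ 2 * eR f t ^ n ∂(vR f) := by
  unfold Sn
  rw [H.me n, ← integral_const_mul, ← integral_const_mul]
  congr 1
  funext t
  have := H.ddC t
  push_cast
  linear_combination (eR f t ^ n * ((X1 f : ℂ) * (de (X1 f) (X2 f) f t : ℂ) + cF f * (xR f t : ℂ))) * this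

theorem s2 (H : Re f) : (X1 f : ℂ) ^ 2 * S54.S2 f = (cF f : ℂ) ^ 2 * q2 f := H.sn 2

theorem s4 (H : Re f) : (X1 f : ℂ) ^ 2 * Sn 4 (X1 f) (X2 f) f = (cF f : ℂ) ^ 2 * q4 f := H.sn 4

theorem s0 (H : Re f) : X1 f ^ 2 * S54.S0 f = cF f ^ 2 * q0 f := by
  have h := congrArg Complex.re (H.sn 0)
  have e : ∫ t, (xR f t : ℂ) ^ 2 * eR f t ^ 0 ∂(vR f) = ((q0 f : ℝ) : ℂ) := by
    unfold q0
    rw [← integral_complex_ofReal]
    congr 1
    funext t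
    push_cast
    ring
  rw [e] at h
  have e1 : (X1 f : ℂ) ^ 2 = ((X1 f ^ 2 : ℝ) : ℂ) := by push_cast; rfl
  have e2 : (cF f : ℂ) ^ 2 = ((cF f ^ 2 : ℝ) : ℂ) := by push_cast; rfl
  rw [e1, e2, Complex.re_ofReal_mul, Complex.re_ofReal_mul, Complex.ofReal_re] at h
  exact h

/-- `σ = (3/2) mean (x E³)` -/
theorem sf (H : Re f) : sF f = 3 / 2 * r3 f := by
  have e1 : sF f = (3 / 4 : ℂ) * (conj (YY (X1 f) (X2 f)) / (C54.ce (X1 f) (X2 f) : ℂ)) * CE 3 f := rfl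
  have e4 : C54.ce (X1 f) (X2 f) = cF f := OMS.cF_eq f
  have hc := H.cC
  rw [e1, e4, H.zz, Complex.conj_ofReal]
  field_simp
  linear_combination (2 : ℂ) * H.c3

theorem d5 (H : Re f) : D5 f = 5 / 2 * r5 f := by
  have hc := H.cC
  unfold D5
  rw [H.zz, Complex.conj_ofReal]
  field_simp
  linear_combination (2 : ℂ) * H.c5

theorem ms (H : Re f) : (X1 f : ℂ) * mS f = cF f * (q4 f - r3 f) := by
  have hc := H.cC
  have e3 : ME 3 (X1 f) (X2 f) (de (X1 f) (X2 f) f) = CE 3 f / 2 := by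
    unfold CE
    rw [S54.Cm_eq (X_lt H.hf)]
    push_cast
    ring
  have e4 : S54.cc (X1 f) (X2 f) = cF f := OMS.cF_eq f
  unfold mS
  rw [e3, e4, H.zz, Complex.conj_ofReal]
  field_simp
  linear_combination (-(cF f : ℂ)) * H.c3 + 2 * H.s4

theorem cs (H : Re f) : X1 f ^ 2 * normSq (CE 3 f) = 4 * cF f ^ 2 * normSq (r3 f) := by
  have h := congrArg normSq H.c3
  have e : (2 : ℂ) * (cF f : ℂ) = ((2 * cF f : ℝ) : ℂ) := by push_cast; rfl
  rw [e, map_mul, map_mul, normSq_ofReal, normSq_ofReal] at h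
  linarith

theorem mkr (H : Re f) (F : Cof) (t : ℝ) : mk7 F f t = mR F f t := by
  have hc := H.cC
  have hrC : ((rF f : ℝ) : ℂ) = (X1 f : ℂ) ^ 2 := by
    rw [H.rr]
    push_cast
    rfl
  have h3 : conj (X1 f : ℂ) * (((conj (CE 3 f) * eR f t ^ 3).re : ℝ) : ℂ) =
      (((2 * cF f) * (conj (r3 f) * eR f t ^ 3).re : ℝ) : ℂ) := by
    have h := congrArg (fun z => (conj z * eR f t ^ 3).re) H.c3
    have e : (2 : ℂ) * (cF f : ℂ) = ((2 * cF f : ℝ) : ℂ) := by push_cast; rfl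
    simp only [e, map_mul, Complex.conj_ofReal, mul_assoc (((X1 f : ℝ) : ℂ)),
      mul_assoc (((2 * cF f : ℝ) : ℂ)), Complex.re_ofReal_mul] at h
    rw [Complex.conj_ofReal, ← Complex.ofReal_mul, h]
  unfold mk7 mR
  rw [H.zz, H.ee]
  have hd := H.ddC t
  rw [Complex.conj_ofReal] at h3 ⊢
  push_cast
  rw [hrC]
  push_cast at h3
  linear_combination ((F.Q (rF f) : ℂ) * conj (eR f t) ^ 2 + (F.Z (rF f) : ℂ)
    + (F.P (rF f) : ℂ) * (X1 f : ℂ) ^ 2 * eR f t ^ 2) * hd + 2 * (F.g (rF f) : ℂ) * h3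

theorem w7 (H : Re f) (W : ℝ → ℝ) (F : Cof) : W7 W F f = W7R W F f := by
  have hcR := H.c0.ne'
  have hc2 : (cF f : ℂ) ^ 2 = ((cF f ^ 2 : ℝ) : ℂ) := by push_cast; rfl
  have t2 : (conj (YY (X1 f) (X2 f)) ^ 2 * S54.S2 f).re = cF f ^ 2 * (q2 f).re := by
    rw [H.zz, Complex.conj_ofReal, H.s2, hc2, Complex.re_ofReal_mul]
  have t3 : (conj (YY (X1 f) (X2 f)) ^ 3 * mS f).re = rF f * cF f * (q4 f - r3 f).re := by
    have e : (X1 f : ℂ) ^ 3 * mS f = ((X1 f ^ 2 * cF f : ℝ) : ℂ) * (q4 f - r3 f) := by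
      push_cast
      linear_combination ((X1 f : ℂ) ^ 2) * H.ms
    rw [H.zz, Complex.conj_ofReal, e, Complex.re_ofReal_mul, H.rr]
  have t4 : (conj (YY (X1 f) (X2 f)) ^ 3 * CE 3 f).re = 2 * cF f * rF f * (r3 f).re := by
    have e : (X1 f : ℂ) ^ 3 * CE 3 f = ((2 * cF f * X1 f ^ 2 : ℝ) : ℂ) * r3 f := by
      push_cast
      linear_combination ((X1 f : ℂ) ^ 2) * H.c3
    rw [H.zz, Complex.conj_ofReal, e, Complex.re_ofReal_mul, H.rr]
  have t5 : (conj (YY (X1 f) (X2 f)) ^ 4 * D5 f).re = 5 / 2 * rF f ^ 2 * (r5 f).re := by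
    have e : (X1 f : ℂ) ^ 4 * D5 f = ((5 / 2 * (X1 f ^ 2) ^ 2 : ℝ) : ℂ) * r5 f := by
      rw [H.d5]
      push_cast
      ring
    rw [H.zz, Complex.conj_ofReal, e, Complex.re_ofReal_mul, H.rr]
  have t6 : (conj (YY (X1 f) (X2 f)) * (conj (CE 3 f) * D5 f)).re = 5 * cF f * (conj (r3 f) * r5 f).re := by
    have h := congrArg conj H.c3
    simp only [map_mul, Complex.conj_ofReal, map_ofNat] at h
    have e : (X1 f : ℂ) * (conj (CE 3 f) * D5 f) = ((5 * cF f : ℝ) : ℂ) * (conj (r3 f) * r5 f) := by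
      rw [H.d5]
      push_cast
      linear_combination (5 / 2 * r5 f) * h
    rw [H.zz, Complex.conj_ofReal, e, Complex.re_ofReal_mul]
  unfold W7 W1 W7R
  rw [t2, t3, t4, t5, t6]
  field_simp
  ring

theorem bb (H : Re f) (F : Cof) (A B N M : ℂ) : bv F f A B N M = bR F f A B N M := by
  have h := congrArg conj H.c3
  simp only [map_mul, Complex.conj_ofReal, map_ofNat] at h
  have e : (conj (YY (X1 f) (X2 f)) * A + YY (X1 f) (X2 f) * conj B)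
      * (CE 3 f * conj N - conj (CE 3 f) * M) =
      ((2 * cF f : ℝ) : ℂ) * ((A + conj B) * (r3 f * conj N - conj (r3 f) * M)) := by
    rw [H.zz, Complex.conj_ofReal]
    push_cast
    linear_combination ((A + conj B) * conj N) * H.c3 - ((A + conj B) * M) * h
  unfold bv bR
  rw [e, Complex.re_ofReal_mul]
  ring

theorem rp (H : Re f) (A B N : ℂ) : Rp f A B N = RpR f A B N := by
  have hc := H.cC
  unfold Rp RpR
  rw [H.d5, H.zz, Complex.conj_ofReal]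
  field_simp
  linear_combination (6 * (A - conj B)) * H.c3

theorem rm (H : Re f) (A B M : ℂ) : Rm f A B M = RmR f A B M := by
  have hc := H.cC
  unfold Rm RmR
  rw [H.d5, H.zz, Complex.conj_ofReal]
  field_simp
  linear_combination (6 * (B - conj A)) * H.c3

theorem hh (H : Re f) (F : Cof) (A B α β γ δ : ℂ) (t : ℝ) : hm F f A B α β γ δ t = hR F f A B α β γ δ t := by
  unfold hm hR
  rw [H.ee, H.mkr]

theorem rest (H : Re f) (W : ℝ → ℝ) (F : Cof) (μ : ℝ) (A B N M α β γ δ : ℂ) :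
    OM7.rest W F μ f A B N M α β γ δ = restR W F μ f A B N M α β γ δ := by
  unfold OM7.rest restR
  rw [H.w7, H.bb, H.sf, H.rp, H.rm]

/-! ### the state in the real frame -/

theorem ne1 (H : Re f) (t : ℝ) : ‖eR f t‖ = 1 := C54.norm_ep H.lt t

theorem eec (H : Re f) (t : ℝ) : eR f t * conj (eR f t) = 1 := by
  rw [Complex.mul_conj, Complex.normSq_eq_norm_sq, H.ne1]
  simp

theorem cte (H : Re f) : Continuous (eR f) := C54.cont_ep H.lt

theorem ctx (H : Re f) : Continuous (xR f) := by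
  unfold xR de
  exact continuous_const.mul (H.hf.lip.continuous.sub (Real.continuous_arcsin.comp F54B.cont_pr))

/-- the harmonics have mean zero -/
theorem en (H : Re f) {n : ℕ} (hn : n ≠ 0) : ∫ t, eR f t ^ n ∂(vR f) = 0 := by
  have := int_E H.hf hn
  rw [H.vv] at this
  simpa only [H.ee] using this

/-- `mean (x E) = 0` -/
theorem x1 (H : Re f) : ∫ t, (xR f t : ℂ) * eR f t ∂(vR f) = 0 := by
  have h := H.me 1 (de (X1 f) (X2 f) f)
  rw [Nat.cast_one, S54.ME_one_F H.hf] at h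
  have e : (cF f : ℂ) * ∫ t, (xR f t : ℂ) * eR f t ∂(vR f) =
      (X1 f : ℂ) * ∫ t, (de (X1 f) (X2 f) f t : ℂ) * eR f t ^ 1 ∂(vR f) := by
    rw [← integral_const_mul, ← integral_const_mul]
    congr 1
    funext t
    rw [← mul_assoc, ← mul_assoc, H.ddC, pow_one]
  rw [← h, mul_zero] at e
  exact (mul_eq_zero.1 e).resolve_left H.cC

theorem xe (H : Re f) (t : ℝ) : xR f t = X1 f / F54.cc (X1 f) * (f t - Real.arcsin (X1 f * Real.cos t)) := by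
  unfold xR de F54.pr F54.cc cF
  rw [H.rr]
  ring_nf

theorem cce (H : Re f) : F54.cc (X1 f) = cF f := by
  unfold F54.cc cF
  rw [H.rr]

/-- `E = CA + i SA` -/
theorem ece (H : Re f) (t : ℝ) : eR f t = ⟨F54.CA (X1 f) t, F54.SA (X1 f) t⟩ := by
  have h := F54.EE_shift H.lt (r := X1 f) (φ := 0) (by simp) (by simp) H.h0 t
  rw [add_zero, Complex.ofReal_zero, zero_mul, Complex.exp_zero, one_mul] at h
  have hw : C54.wt (X1 f) 0 t = F54.W (X1 f) t := by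
    unfold C54.wt F54.W F54.pr
    congr 2
    ring
  unfold eR C54.ep F54.CA F54.SA
  rw [h, hw]
  apply Complex.ext
  · rw [Complex.div_ofReal_re]
  · rw [Complex.div_ofReal_im]

theorem ale (_H : Re f) (t : ℝ) : C54.al (X1 f) 0 t = F54.AP (X1 f) t := by
  have hw : C54.wt (X1 f) 0 t = F54.W (X1 f) t := by
    unfold C54.wt F54.W F54.pr
    congr 2
    ring
  have hc : C54.ce (X1 f) 0 = F54.cc (X1 f) := by
    unfold C54.ce F54.cc
    congr 1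
    ring
  unfold C54.al F54.AP
  rw [hw, hc]

/-- the visual measure in the variable `t` -/
theorem vint (H : Re f) (g : ℝ → ℂ) : ∫ t, g t ∂(vR f) =
    (1 / (2 * Real.pi) : ℝ) * ∫ t in (0 : ℝ)..(2 * Real.pi), g t * (F54.AP (X1 f) t : ℂ) := by
  unfold vR
  rw [vm_int H.lt]
  simp only [H.ale]

theorem vintR (H : Re f) (g : ℝ → ℝ) : ∫ t, g t ∂(vR f) =
    1 / (2 * Real.pi) * ∫ t in (0 : ℝ)..(2 * Real.pi), g t * F54.AP (X1 f) t := by
  have h := H.vint fun t => (g t : ℂ)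
  rw [integral_complex_ofReal] at h
  have e : (fun t => (g t : ℂ) * (F54.AP (X1 f) t : ℂ)) = fun t => ((g t * F54.AP (X1 f) t : ℝ) : ℂ) := by
    funext t
    push_cast
    rfl
  rw [e, intervalIntegral.integral_ofReal] at h
  exact_mod_cast h

end Re

/-! ### closers of `Cert7` -/

section close

variable {W : ℝ → ℝ} {F : Cof} {μ T : ℝ}

/-- **`Cert7` in the real frame, elimination by the modulus** -/
theorem cert7_mod (H : ∀ f, Re f → ∀ A B N M : ℂ, ∃ α β γ δ : ℂ, restR W F μ f A B N M α β γ δ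
    + 2 * ∫ t, ‖hR F f A B α β γ δ t‖ ∂(vR f) ≤ T) : Cert7 W F μ T := by
  refine cert_of_real fun f hf h0 h2 => certAt_mod hf fun A B N M => ?_
  have R : Re f := ⟨hf, h0, h2⟩
  obtain ⟨α, β, γ, δ, h⟩ := H f R A B N M
  refine ⟨α, β, γ, δ, ?_⟩
  rw [R.rest, R.vv]
  simpa only [R.hh] using h

/-- **`Cert7` in the real frame, elimination by a weight** -/
theorem cert7_wt (H : ∀ f, Re f → ∀ A B N M : ℂ, ∃ α β γ δ : ℂ, ∃ w : ℝ → ℝ, Measurable w ∧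
    (∃ a b : ℝ, 0 < a ∧ ∀ t, a ≤ w t ∧ w t ≤ b) ∧ restR W F μ f A B N M α β γ δ + (∫ t, w t ∂(vR f))
      + ∫ t, ‖hR F f A B α β γ δ t‖ ^ 2 / w t ∂(vR f) ≤ T) : Cert7 W F μ T := by
  refine cert_of_real fun f hf h0 h2 => certAt_wt hf fun A B N M => ?_
  have R : Re f := ⟨hf, h0, h2⟩
  obtain ⟨α, β, γ, δ, w, hw, hab, h⟩ := H f R A B N M
  refine ⟨α, β, γ, δ, w, hw, hab, ?_⟩
  rw [R.rest, R.vv]
  simpa only [R.hh] using h

/-- `mean (m conj E^j)`, `mean (m E^j)`, `mean |m|²`, `mean m²` -/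
def mcR (F : Cof) (f : ℝ → ℝ) (j : ℕ) : ℂ := ∫ t, mR F f t * conj (eR f t ^ j) ∂(vR f)

def meR (F : Cof) (f : ℝ → ℝ) (j : ℕ) : ℂ := ∫ t, mR F f t * eR f t ^ j ∂(vR f)

def mnR (F : Cof) (f : ℝ → ℝ) : ℝ := ∫ t, ‖mR F f t‖ ^ 2 ∂(vR f)

def mqR (F : Cof) (f : ℝ → ℝ) : ℂ := ∫ t, mR F f t ^ 2 ∂(vR f)

/-- **`Cert7` in the real frame from Parseval** -/
theorem cert7_par (H : ∀ f, Re f → ∀ A B N M : ℂ,
    W7R W F f * (‖A‖ ^ 2 - ‖B‖ ^ 2) + bR F f A B N M + 2 * μ * ‖B‖ ^ 2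
      + (‖A‖ ^ 2 + ‖B‖ ^ 2) * mnR F f - 2 * (A * B * mqR F f).re ≤
        ‖conj (B - 3 / 2 * r3 f * conj A) - (A * mcR F f 1 - conj B * conj (meR F f 1))‖ ^ 2
        + ‖(A - 3 / 2 * r3 f * conj B) - (A * meR F f 1 - conj B * conj (mcR F f 1))‖ ^ 2
        + ‖conj (RmR f A B M) - (A * mcR F f 3 - conj B * conj (meR F f 3))‖ ^ 2
        + ‖RpR f A B N - (A * meR F f 3 - conj B * conj (mcR F f 3))‖ ^ 2) : Cert7 W F μ 1 := by
  refine cert_of_real fun f hf h0 h2 => certAt_par hf fun A B N M => ?_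
  have R : Re f := ⟨hf, h0, h2⟩
  have h := H f R A B N M
  have e1 : ∀ j, mc F f j = mcR F f j := fun j => by
    unfold mc mcR
    rw [R.vv]
    simp only [R.mkr, R.ee]
  have e2 : ∀ j, OM7.me F f j = meR F f j := fun j => by
    unfold OM7.me meR
    rw [R.vv]
    simp only [R.mkr, R.ee]
  have e3 : OM7.mn F f = mnR F f := by
    unfold OM7.mn mnR
    rw [R.vv]
    simp only [R.mkr]
  have e4 : OM7.mq F f = mqR F f := by
    unfold OM7.mq mqR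
    rw [R.vv]
    simp only [R.mkr]
  rw [e1, e1, e2, e2, e3, e4, R.w7, R.bb, R.sf, R.rp, R.rm]
  exact h

/-- the functions `E, conj E, E³, conj E³` -/
def efR (f : ℝ → ℝ) : Fin 4 → ℝ → ℂ :=
  ![fun t => eR f t, fun t => conj (eR f t), fun t => eR f t ^ 3, fun t => conj (eR f t ^ 3)]

/-- the values of the four relations -/
def rfR (f : ℝ → ℝ) (A B N M : ℂ) : Fin 4 → ℂ :=
  ![conj (B - 3 / 2 * r3 f * conj A), A - 3 / 2 * r3 f * conj B, conj (RmR f A B M), RpR f A B N]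

/-- the Gram matrix of `efR` with the weight `1 / w` -/
def GwR (f w : ℝ → ℝ) (i j : Fin 4) : ℂ := ∫ t, ((w t)⁻¹ : ℝ) * (efR f i t * conj (efR f j t)) ∂(vR f)

/-- `mean (g conj e_i / w)`, `g = A m - conj B conj m` -/
def pwR (F : Cof) (f w : ℝ → ℝ) (A B : ℂ) (i : Fin 4) : ℂ :=
  A * (∫ t, ((w t)⁻¹ : ℝ) * (mR F f t * conj (efR f i t)) ∂(vR f))
    - conj B * conj (∫ t, ((w t)⁻¹ : ℝ) * (mR F f t * efR f i t) ∂(vR f))

/-- **`Cert7` in the real frame from Parseval with a weight** -/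
theorem cert7_gram (H : ∀ f, Re f → ∃ w : ℝ → ℝ, Measurable w ∧ (∃ a b : ℝ, 0 < a ∧ ∀ t, a ≤ w t ∧ w t ≤ b) ∧
    ∀ A B N M : ℂ, ∃ c : Fin 4 → ℂ, W7R W F f * (‖A‖ ^ 2 - ‖B‖ ^ 2) + bR F f A B N M + 2 * μ * ‖B‖ ^ 2
      + (∫ t, w t ∂(vR f))
      + ((‖A‖ ^ 2 + ‖B‖ ^ 2) * (∫ t, ‖mR F f t‖ ^ 2 / w t ∂(vR f))
        - 2 * (A * B * ∫ t, ((w t)⁻¹ : ℝ) * mR F f t ^ 2 ∂(vR f)).re)
      + (∑ i, ∑ j, c i * conj (c j) * GwR f w i j).re
      + 2 * (∑ i, conj (c i) * (pwR F f w A B i - rfR f A B N M i)).re ≤ T) : Cert7 W F μ T := by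
  refine cert_of_real fun f hf h0 h2 => ?_
  have R : Re f := ⟨hf, h0, h2⟩
  obtain ⟨w, hw, ⟨a, b, ha, hab⟩, h⟩ := H f R
  refine certAt_gram hf hw ha hab fun A B N M => ?_
  obtain ⟨c, hc⟩ := h A B N M
  refine ⟨c, ?_⟩
  have e0 : ∀ i t, ef f i t = efR f i t := by
    intro i t
    fin_cases i <;> simp [ef, efR, R.ee]
  have e1 : ∀ i j, Gw f w i j = GwR f w i j := fun i j => by
    unfold Gw GwR
    rw [R.vv]
    simp only [e0]
  have e2 : ∀ i, pw F f w A B i = pwR F f w A B i := fun i => by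
    unfold pw mw mw' pwR
    rw [R.vv]
    simp only [e0, R.mkr]
  have e3 : ∀ i, rf f A B N M i = rfR f A B N M i := fun i => by
    fin_cases i <;> simp [rf, rfR, R.sf, R.rp, R.rm]
  have e4 : mnw F f w = ∫ t, ‖mR F f t‖ ^ 2 / w t ∂(vR f) := by
    unfold mnw
    rw [R.vv]
    simp only [R.mkr]
  have e5 : mqw F f w = ∫ t, ((w t)⁻¹ : ℝ) * mR F f t ^ 2 ∂(vR f) := by
    unfold mqw
    rw [R.vv]
    simp only [R.mkr]
  simp only [e1, e2, e3, e4, e5, R.w7, R.bb, R.vv]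
  exact hc

/-! ### closers of `Cert7X` -/

/-- `(s/c) mean (δ E² conj K)` in terms of `S' = (s/c) S` -/
def SqR (f : ℝ → ℝ) (A B S : ℂ) : ℂ := S - conj B * (q4 f - r3 f) + 1 / 2 * (A - conj B) * q2 f

/-- `(s/c) mean (δ E² K)` in terms of `R' = (s/c) R` -/
def RqR (f : ℝ → ℝ) (A B R : ℂ) : ℂ := R - conj A * (q4 f - r3 f) + 1 / 2 * (B - conj A) * q2 f

/-- `s / c` -/
def tR (f : ℝ → ℝ) : ℂ := ((X1 f / cF f : ℝ) : ℂ)

/-- the combination of the functions of the certificate: the last three are `x E²`, `conj (x E²)`, `x` -/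
def hXR (F : Cof) (f : ℝ → ℝ) (A B α β γ δ κ l ρ : ℂ) (t : ℝ) : ℂ :=
  hR F f A B α β γ δ t + κ * ((xR f t : ℂ) * eR f t ^ 2) + l * conj ((xR f t : ℂ) * eR f t ^ 2)
    + ρ * (xR f t : ℂ)

/-- the terms without `K` -/
def restXR (Bx : Dev) (W : ℝ → ℝ) (F : Cof) (μ : ℝ) (f : ℝ → ℝ) (A B N M S R D α β γ δ κ l ρ : ℂ) : ℝ :=
  W7R W F f * (‖A‖ ^ 2 - ‖B‖ ^ 2) + bR F f A B N M + 2 * μ * ‖Bx f A B N M S R D‖ ^ 2
    - 2 * (conj α * conj (B - 3 / 2 * r3 f * conj A) + conj β * (A - 3 / 2 * r3 f * conj B)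
      + conj γ * conj (RmR f A B M) + conj δ * RpR f A B N + conj κ * conj (RqR f A B (tR f * R))
      + conj l * SqR f A B (tR f * S) + conj ρ * conj (tR f * D)).re

theorem Re.tt {f : ℝ → ℝ} (H : Re f) (t : ℝ) : tR f * (de (X1 f) (X2 f) f t : ℂ) = (xR f t : ℂ) := by
  unfold tR xR
  rw [H.h2]
  push_cast
  rfl

theorem Re.tq {f : ℝ → ℝ} (H : Re f) (A B R : ℂ) : tR f * Rq f A B R = RqR f A B (tR f * R) := by
  have hc := H.cC
  unfold tR Rq RqR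
  rw [H.zz, Complex.conj_ofReal]
  push_cast
  field_simp
  linear_combination (-(2 * (cF f : ℂ)) * conj A) * H.ms + (B - conj A) * H.s2

theorem Re.ts {f : ℝ → ℝ} (H : Re f) (A B S : ℂ) : tR f * Sq f A B S = SqR f A B (tR f * S) := by
  have hc := H.cC
  unfold tR Sq SqR
  rw [H.zz, Complex.conj_ofReal]
  push_cast
  field_simp
  linear_combination (-(2 * (cF f : ℂ)) * conj B) * H.ms + (A - conj B) * H.s2

theorem Re.restX {f : ℝ → ℝ} (H : Re f) (Bx : Dev) (A B N M S R D α β γ δ κ l ρ : ℂ) :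
    OM7.restX Bx W F μ f A B N M S R D α β γ δ (tR f * κ) (tR f * l) (tR f * ρ) =
      restXR Bx W F μ f A B N M S R D α β γ δ κ l ρ := by
  have tc : conj (tR f) = tR f := by
    unfold tR
    exact Complex.conj_ofReal _
  have e1 : conj (tR f * κ) * conj (Rq f A B R) = conj κ * conj (RqR f A B (tR f * R)) := by
    rw [← H.tq]
    simp only [map_mul]
    ring
  have e2 : conj (tR f * l) * Sq f A B S = conj l * SqR f A B (tR f * S) := by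
    rw [← H.ts, map_mul, tc]
    ring
  have e3 : conj (tR f * ρ) * conj D = conj ρ * conj (tR f * D) := by
    simp only [map_mul]
    ring
  unfold OM7.restX restXR
  rw [e1, e2, e3, H.w7, H.bb, H.sf, H.rp, H.rm]

theorem Re.hX {f : ℝ → ℝ} (H : Re f) (A B α β γ δ κ l ρ : ℂ) (t : ℝ) :
    hmX F f A B α β γ δ (tR f * κ) (tR f * l) (tR f * ρ) t = hXR F f A B α β γ δ κ l ρ t := by
  have tc : conj (tR f) = tR f := by
    unfold tR
    exact Complex.conj_ofReal _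
  have h := H.tt t
  have h' : conj (tR f * ((de (X1 f) (X2 f) f t : ℂ) * eR f t ^ 2)) = conj ((xR f t : ℂ) * eR f t ^ 2) := by
    rw [← mul_assoc, h]
  rw [map_mul, tc] at h'
  unfold hmX hXR
  rw [H.hh, H.ee]
  linear_combination (κ * eR f t ^ 2 + ρ) * h + l * h'

/-- **`Cert7X` in the real frame, elimination by the modulus** -/
theorem cert7X_mod {Bx : Dev} (HR : RotDev Bx) (H : ∀ f, Re f → ∀ A B N M S R D : ℂ,
    ∃ α β γ δ κ l ρ : ℂ, restXR Bx W F μ f A B N M S R D α β γ δ κ l ρ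
      + 2 * ∫ t, ‖hXR F f A B α β γ δ κ l ρ t‖ ∂(vR f) ≤ T) : Cert7X Bx W F μ T := by
  refine cert_of_realX HR fun f hf h0 h2 => certAtX_mod hf fun A B N M S R D => ?_
  have Q : Re f := ⟨hf, h0, h2⟩
  obtain ⟨α, β, γ, δ, κ, l, ρ, h⟩ := H f Q A B N M S R D
  refine ⟨α, β, γ, δ, tR f * κ, tR f * l, tR f * ρ, ?_⟩
  rw [Q.restX, Q.vv]
  simpa only [Q.hX] using h

/-- **`Cert7X` in the real frame, elimination by a weight** -/
theorem cert7X_wt {Bx : Dev} (HR : RotDev Bx) (H : ∀ f, Re f → ∀ A B N M S R D : ℂ,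
    ∃ α β γ δ κ l ρ : ℂ, ∃ w : ℝ → ℝ, Measurable w ∧ (∃ a b : ℝ, 0 < a ∧ ∀ t, a ≤ w t ∧ w t ≤ b) ∧
      restXR Bx W F μ f A B N M S R D α β γ δ κ l ρ + (∫ t, w t ∂(vR f))
      + ∫ t, ‖hXR F f A B α β γ δ κ l ρ t‖ ^ 2 / w t ∂(vR f) ≤ T) : Cert7X Bx W F μ T := by
  refine cert_of_realX HR fun f hf h0 h2 => certAtX_wt hf fun A B N M S R D => ?_
  have Q : Re f := ⟨hf, h0, h2⟩
  obtain ⟨α, β, γ, δ, κ, l, ρ, w, hw, hab, h⟩ := H f Q A B N M S R D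
  refine ⟨α, β, γ, δ, tR f * κ, tR f * l, tR f * ρ, w, hw, hab, ?_⟩
  rw [Q.restX, Q.vv]
  simpa only [Q.hX] using h

end close

end Pool.Agent.FPX.OMR
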