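import Mathlib
import Pool.Agent.FPX.BTC
import Pool.Agent.FPX.OMR

/-
BTX (helper15): the linear certificate with another deviation `B' = ∑ u_i Ψ_i` (start map `F'`): convexity in the
coefficients `(v, u)`, elimination of `K`, latitude cells with arbitrary convex weights.
-/

open MeasureTheory Set Filter Topology Real
open scoped NNReal ComplexConjugate

noncomputable section

namespace Pool.Agent.FPX.BTN

open Pool.Agent.FPX.CRD (Bm)
open Pool.Agent.FPX.ALX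

/-! ### cells with arbitrary weights, class `Cert7` -/

section cellW

open Pool.Agent.FPX.UMP (Ef)
open Pool.Agent.FPX.F54 (X1 X2 X_lt X_G1 X_G2)
open Pool.Agent.FPX.OMB (vm vm_int vm_prob)
open Pool.Agent.FPX.OMS (rF cF)
open Pool.Agent.FPX.CERQ (xT Er sr)
open Pool.Agent.FPX.OM7 (Cof CertAt)

variable {f : ℝ → ℝ}

/-- **a latitude cell with arbitrary convex weights** (for example rational Bernstein weights) -/
theorem cellW {W : ℝ → ℝ} {F : Cof} {μ T : ℝ} (hf : Ef f) (hs : 0 < X1 f) (h2 : X2 f = 0)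
    {s' : ℝ} (hs' : X1 f ≤ s') (h1 : s' ≤ 1) {P : (ℝ → ℝ) → Prop} (hP : P (Xa (X1 f) f))
    {ι : Type*} {σ : Finset ι} {c : ι → ℝ} {v : ι → CV} (hc : ∀ j ∈ σ, 0 ≤ c j) (hc1 : ∑ j ∈ σ, c j = 1)
    (hv : vec W F μ (X1 f) (cF f) = ∑ j ∈ σ, c j • v j)
    (H : ∀ j ∈ σ, ∀ X, St s' X → (∀ a, |X a| ≤ 31 / 50 * s') → P X → RW va X e1 (v j) T) : CertAt W F μ T f := by
  have := vm_prob (X_lt hf)
  have hx := xT_le hf hs.le h2
  have hS := (ALY.st hf hs.le h2).mono hs.le hs' h1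
  have hb : ∀ a, |Xa (X1 f) f a| ≤ 31 / 50 * s' := fun a => (Xa_bd hf hs.le h2 a).trans (by linarith)
  refine certAt_of_NC hf hs h2 ?_
  rw [hv]
  refine NC.comb hc hc1 fun j hj => NC_of_RW ?_ ?_ hx ?_ (RW_tr hf hs.le h2 hx (H j hj _ hS hb hP))
  · exact (CERQ.cont_xT hf).measurable
  · exact (C54.cont_ep (X_lt hf)).measurable
  · exact fun t => C54.norm_ep (X_lt hf) t

end cellW

/-! ### rational Bernstein weights -/

/-- a polynomial of degree `≤ n` divided by a positive one: convex weights -/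
theorem ratW {n : ℕ} {u : ℝ} (h0 : 0 ≤ u) (h1 : u ≤ 1) {w : ℕ → ℝ} (hw : ∀ j ≤ n, 0 ≤ w j) {S : ℝ} (hS : 0 < S)
    (hSw : S = ∑ j ∈ Finset.range (n + 1), bw n u j * w j) :
    (∀ j ∈ Finset.range (n + 1), 0 ≤ bw n u j * w j / S) ∧ ∑ j ∈ Finset.range (n + 1), bw n u j * w j / S = 1 := by
  refine ⟨fun j hj => ?_, ?_⟩
  · exact div_nonneg (mul_nonneg (bw_nonneg h0 h1 j) (hw j (Nat.lt_succ_iff.1 (Finset.mem_range.1 hj)))) hS.le
  · rw [← Finset.sum_div, ← hSw, div_self hS.ne']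

/-- a curve `v` with `S v = ∑ bw_j n_j`, `S = ∑ bw_j w_j` has the control points `n_j / w_j` -/
theorem ratV {n : ℕ} {u : ℝ} {w : ℕ → ℝ} (hw : ∀ j ≤ n, 0 < w j) {S : ℝ} (hS : 0 < S) {v : CV} {nv : ℕ → CV}
    (hv : S • v = ∑ j ∈ Finset.range (n + 1), bw n u j • nv j) :
    v = ∑ j ∈ Finset.range (n + 1), (bw n u j * w j / S) • ((w j)⁻¹ • nv j) := by
  have h : v = S⁻¹ • ∑ j ∈ Finset.range (n + 1), bw n u j • nv j := by
    rw [← hv, smul_smul, inv_mul_cancel₀ hS.ne', one_smul]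
  rw [h, Finset.smul_sum]
  refine Finset.sum_congr rfl fun j hj => ?_
  have hj' := hw j (Nat.lt_succ_iff.1 (Finset.mem_range.1 hj))
  rw [smul_smul, smul_smul]
  congr 1
  field_simp

/-! ### other deviations -/

/-- the moments of a state -/
structure Mom where
  m3 : ℂ
  m5 : ℂ
  p0 : ℝ
  p2 : ℂ
  p4 : ℂ

/-- the type of the terms of the deviation: functions of the moments and of `A, B` (parts of `v`), `N, M` (parts of
`∇C₃`), `S, R` (parts of `∇S₂`, times `s / c`), `D = mean (x K)` -/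
abbrev Psi (ι : Type) := ι → Mom → ℂ → ℂ → ℂ → ℂ → ℂ → ℂ → ℂ → ℂ

/-- the value of the deviation -/
def devV {ι : Type} [Fintype ι] (Ψ : Psi ι) (u : ι → ℝ) (m : Mom) (A B N M S R G : ℂ) : ℂ :=
  ∑ i, (u i : ℂ) * Ψ i m A B N M S R G

variable {X : Type*} [MeasurableSpace X] {ι : Type} [Fintype ι]

section defs

variable (ν : Measure X) (D : X → ℝ) (E : X → ℂ)

/-- the moments of `(ν, D, E)` -/
def mom : Mom := ⟨M3 ν D E, M5 ν D E, P0 ν D, P2 ν D E, P4 ν D E⟩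

/-- the part of type `conj K` of `(s/c) ∇S₂` -/
def sp (A B S : ℂ) : ℂ := S + conj B * (P4 ν D E - M3 ν D E) - 1 / 2 * (A - conj B) * P2 ν D E

/-- the part of type `K` of `(s/c) ∇S₂` -/
def sm (A B S : ℂ) : ℂ := S + conj A * (P4 ν D E - M3 ν D E) - 1 / 2 * (B - conj A) * P2 ν D E

/-- `mean (D E² conj K)` -/
def sq (A B S : ℂ) : ℂ := S - conj B * (P4 ν D E - M3 ν D E) + 1 / 2 * (A - conj B) * P2 ν D E

/-- `mean (D E² K)` -/
def rq (A B R : ℂ) : ℂ := R - conj A * (P4 ν D E - M3 ν D E) + 1 / 2 * (B - conj A) * P2 ν D E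

/-- the deviation at `K` -/
def devN (Ψ : Psi ι) (u : ι → ℝ) (K : X → ℂ) (A B : ℂ) : ℂ :=
  devV Ψ u (mom ν D E) A B (cp ν D E A B (∫ t, E t ^ 3 * conj (K t) ∂ν)) (cm ν D E A B (∫ t, E t ^ 3 * K t ∂ν))
    (sp ν D E A B (∫ t, ((D t : ℂ) * E t ^ 2) * conj (K t) ∂ν))
    (sm ν D E A B (∫ t, ((D t : ℂ) * E t ^ 2) * K t ∂ν)) (∫ t, (D t : ℂ) * K t ∂ν)

/-- **the certificate at one state with the coefficients `v` and the deviation `u`** -/
def NCX (Ψ : Psi ι) (v : CV) (u : ι → ℝ) (μ T : ℝ) : Prop :=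
  ∀ K : X → ℂ, Measurable K → (∀ t, ‖K t‖ ≤ 1) → ∀ A B : ℂ,
    A - sg ν D E * conj B = ∫ t, E t * conj (K t) ∂ν → B - sg ν D E * conj A = ∫ t, E t * K t ∂ν →
    lhs ν D E v K A B + 2 * μ * ‖devN ν D E Ψ u K A B‖ ^ 2 ≤ T

/-- the combination of the functions of the certificate -/
def hvX (v : CV) (A B α β γ δ κ l ρ : ℂ) (t : X) : ℂ :=
  hv ν D E v A B α β γ δ t + κ * ((D t : ℂ) * E t ^ 2) + l * conj ((D t : ℂ) * E t ^ 2) + ρ * (D t : ℂ)

/-- the terms without `K` -/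
def restvX (Ψ : Psi ι) (v : CV) (u : ι → ℝ) (μ : ℝ) (A B N M S R G α β γ δ κ l ρ : ℂ) : ℝ :=
  restv ν D E v A B N M α β γ δ + 2 * μ * ‖devV Ψ u (mom ν D E) A B N M S R G‖ ^ 2
    - 2 * (conj κ * conj (rq ν D E A B R) + conj l * sq ν D E A B S + conj ρ * conj G).re

end defs

variable {ν : Measure X} {D : X → ℝ} {E : X → ℂ}

theorem sq_sp (A B S : ℂ) : sq ν D E A B (sp ν D E A B S) = S := by
  unfold sq sp
  ring

theorem rq_sm (A B S : ℂ) : rq ν D E A B (sm ν D E A B S) = S := by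
  unfold rq sm
  ring

/-! ### convexity -/

theorem devV_sum {κ : Type*} (σ : Finset κ) (c : κ → ℝ) (Ψ : Psi ι) (u : κ → ι → ℝ) (m : Mom)
    (A B N M S R G : ℂ) : devV Ψ (∑ j ∈ σ, c j • u j) m A B N M S R G =
      ∑ j ∈ σ, (c j : ℂ) * devV Ψ (u j) m A B N M S R G := by
  unfold devV
  simp only [Finset.mul_sum]
  rw [Finset.sum_comm]
  refine Finset.sum_congr rfl fun i _ => ?_
  rw [Finset.sum_apply]
  simp only [Pi.smul_apply, smul_eq_mul]
  push_cast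
  rw [Finset.sum_mul]
  refine Finset.sum_congr rfl fun j _ => ?_
  ring

theorem norm_sq_conv {κ : Type*} {σ : Finset κ} {c : κ → ℝ} (hc : ∀ j ∈ σ, 0 ≤ c j) (h1 : ∑ j ∈ σ, c j = 1)
    (z : κ → ℂ) : ‖∑ j ∈ σ, (c j : ℂ) * z j‖ ^ 2 ≤ ∑ j ∈ σ, c j * ‖z j‖ ^ 2 := by
  have h := (even_two.convexOn_pow (𝕜 := ℝ)).map_sum_le (t := σ) (w := c) (p := fun j => ‖z j‖) hc h1
    (fun j _ => mem_univ _)
  simp only [smul_eq_mul] at h
  refine le_trans (pow_le_pow_left₀ (norm_nonneg _) ?_ 2) h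
  refine (norm_sum_le _ _).trans (Finset.sum_le_sum fun j hj => ?_)
  rw [norm_mul, Complex.norm_real, Real.norm_eq_abs, abs_of_nonneg (hc j hj)]

/-- **convexity in the coefficients** -/
theorem NCX.comb {κ : Type*} {σ : Finset κ} {c : κ → ℝ} (hc : ∀ j ∈ σ, 0 ≤ c j) (h1 : ∑ j ∈ σ, c j = 1)
    {Ψ : Psi ι} {v : κ → CV} {u : κ → ι → ℝ} {μ T : ℝ} (hμ : 0 ≤ μ)
    (H : ∀ j ∈ σ, NCX ν D E Ψ (v j) (u j) μ T) :
    NCX ν D E Ψ (∑ j ∈ σ, c j • v j) (∑ j ∈ σ, c j • u j) μ T := by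
  intro K hK hK1 A B hA hB
  rw [lhs_sum]
  unfold devN
  rw [devV_sum]
  have h2 := norm_sq_conv hc h1 (fun j => devV Ψ (u j) (mom ν D E) A B
    (cp ν D E A B (∫ t, E t ^ 3 * conj (K t) ∂ν)) (cm ν D E A B (∫ t, E t ^ 3 * K t ∂ν))
    (sp ν D E A B (∫ t, ((D t : ℂ) * E t ^ 2) * conj (K t) ∂ν))
    (sm ν D E A B (∫ t, ((D t : ℂ) * E t ^ 2) * K t ∂ν)) (∫ t, (D t : ℂ) * K t ∂ν))
  have h3 : ∑ j ∈ σ, c j * (lhs ν D E (v j) K A B + 2 * μ * ‖devN ν D E Ψ (u j) K A B‖ ^ 2) ≤ T := by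
    calc _ ≤ ∑ j ∈ σ, c j * T :=
        Finset.sum_le_sum fun j hj => mul_le_mul_of_nonneg_left (H j hj K hK hK1 A B hA hB) (hc j hj)
      _ = T := by rw [← Finset.sum_mul, h1, one_mul]
  have h4 : ∑ j ∈ σ, c j * (lhs ν D E (v j) K A B + 2 * μ * ‖devN ν D E Ψ (u j) K A B‖ ^ 2) =
      ∑ j ∈ σ, c j * lhs ν D E (v j) K A B + 2 * μ * ∑ j ∈ σ, c j * ‖devN ν D E Ψ (u j) K A B‖ ^ 2 := by
    rw [Finset.mul_sum, ← Finset.sum_add_distrib]
    refine Finset.sum_congr rfl fun j _ => ?_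
    ring
  rw [h4] at h3
  unfold devN at h3
  have h5 := mul_le_mul_of_nonneg_left h2 (show (0 : ℝ) ≤ 2 * μ by linarith)
  linarith

/-! ### elimination of `K` -/

theorem bm_hvX (bD : Bm fun t => (D t : ℂ)) (bE : Bm E) (v : CV) (A B α β γ δ κ l ρ : ℂ) :
    Bm (hvX ν D E v A B α β γ δ κ l ρ) := by
  have b2 : Bm fun t => (D t : ℂ) * E t ^ 2 := bD.mul (bm_pw bE 2)
  exact (((bm_hv bD bE v A B α β γ δ).add ((Bm.const κ).mul b2)).add ((Bm.const l).mul b2.conj)).add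
    ((Bm.const ρ).mul bD)

/-- **elimination of `K` by the modulus** -/
theorem NCX_mod [IsFiniteMeasure ν] (bD : Bm fun t => (D t : ℂ)) (bE : Bm E) {Ψ : Psi ι} {v : CV} {u : ι → ℝ}
    {μ T : ℝ} (H : ∀ A B N M S R G : ℂ, ∃ α β γ δ κ l ρ : ℂ, restvX ν D E Ψ v u μ A B N M S R G α β γ δ κ l ρ
      + 2 * ∫ t, ‖hvX ν D E v A B α β γ δ κ l ρ t‖ ∂ν ≤ T) : NCX ν D E Ψ v u μ T := by
  intro K hK hK1 A B hA hB
  set R1 : ℂ := ∫ t, E t ^ 3 * conj (K t) ∂ν with hR1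
  set R2 : ℂ := ∫ t, E t ^ 3 * K t ∂ν with hR2
  set S1 : ℂ := ∫ t, ((D t : ℂ) * E t ^ 2) * conj (K t) ∂ν with hS1
  set S2' : ℂ := ∫ t, ((D t : ℂ) * E t ^ 2) * K t ∂ν with hS2
  set G : ℂ := ∫ t, (D t : ℂ) * K t ∂ν with hG
  obtain ⟨α, β, γ, δ, κ, l, ρ, h⟩ :=
    H A B (cp ν D E A B R1) (cm ν D E A B R2) (sp ν D E A B S1) (sm ν D E A B S2') G
  have bE3 : Bm fun t => E t ^ 3 := bm_pw bE 3
  have b22 : Bm fun t => (D t : ℂ) * E t ^ 2 := bD.mul (bm_pw bE 2)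
  have bm : Bm (mkv ν D E v) := bm_mkv bD bE v
  have bK : Bm K := ⟨hK, 1, hK1⟩
  have bh := bm_hvX (ν := ν) bD bE v A B α β γ δ κ l ρ
  have cj : ∀ φ : X → ℂ, ∫ t, conj (φ t) ∂ν = conj (∫ t, φ t ∂ν) := fun φ => integral_conj
  have e : ∫ t, conj (K t) * conj (hvX ν D E v A B α β γ δ κ l ρ t) ∂ν =
      conj α * conj (∫ t, E t * K t ∂ν) + (conj β * ∫ t, E t * conj (K t) ∂ν
      + (conj γ * conj R2 + (conj δ * R1 + (conj κ * conj S2' + (conj l * S1 + (conj ρ * conj G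
      + (conj A * conj (∫ t, mkv ν D E v t * K t ∂ν) - B * ∫ t, mkv ν D E v t * conj (K t) ∂ν))))))) := by
    have e1 : (fun t => conj (K t) * conj (hvX ν D E v A B α β γ δ κ l ρ t)) = fun t =>
        conj α * conj (E t * K t) + (conj β * (E t * conj (K t)) + (conj γ * conj (E t ^ 3 * K t)
        + (conj δ * (E t ^ 3 * conj (K t)) + (conj κ * conj ((D t : ℂ) * E t ^ 2 * K t)
        + (conj l * ((D t : ℂ) * E t ^ 2 * conj (K t)) + (conj ρ * conj ((D t : ℂ) * K t)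
        + (conj A * conj (mkv ν D E v t * K t) - B * (mkv ν D E v t * conj (K t))))))))) := by
      funext t
      unfold hvX hv
      simp only [map_add, map_sub, map_mul, map_pow, Complex.conj_conj, Complex.conj_ofReal]
      ring
    have b1 : Bm fun t => conj α * conj (E t * K t) := (Bm.const _).mul (bE.mul bK).conj
    have b2 : Bm fun t => conj β * (E t * conj (K t)) := (Bm.const _).mul (bE.mul bK.conj)
    have b3 : Bm fun t => conj γ * conj (E t ^ 3 * K t) := (Bm.const _).mul (bE3.mul bK).conj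
    have b4 : Bm fun t => conj δ * (E t ^ 3 * conj (K t)) := (Bm.const _).mul (bE3.mul bK.conj)
    have b5 : Bm fun t => conj κ * conj ((D t : ℂ) * E t ^ 2 * K t) := (Bm.const _).mul (b22.mul bK).conj
    have b6 : Bm fun t => conj l * ((D t : ℂ) * E t ^ 2 * conj (K t)) := (Bm.const _).mul (b22.mul bK.conj)
    have b7 : Bm fun t => conj ρ * conj ((D t : ℂ) * K t) := (Bm.const _).mul (bD.mul bK).conj
    have b8 : Bm fun t => conj A * conj (mkv ν D E v t * K t) := (Bm.const _).mul (bm.mul bK).conj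
    have b9 : Bm fun t => B * (mkv ν D E v t * conj (K t)) := (Bm.const _).mul (bm.mul bK.conj)
    have i8 : Integrable (fun t => conj A * conj (mkv ν D E v t * K t) - B * (mkv ν D E v t * conj (K t))) ν :=
      b8.int.sub b9.int
    have i7 : Integrable (fun t => conj ρ * conj ((D t : ℂ) * K t) + (conj A * conj (mkv ν D E v t * K t)
      - B * (mkv ν D E v t * conj (K t)))) ν := b7.int.add i8
    have i6 : Integrable (fun t => conj l * ((D t : ℂ) * E t ^ 2 * conj (K t)) + (conj ρ * conj ((D t : ℂ) * K t)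
      + (conj A * conj (mkv ν D E v t * K t) - B * (mkv ν D E v t * conj (K t))))) ν := b6.int.add i7
    have i5 : Integrable (fun t => conj κ * conj ((D t : ℂ) * E t ^ 2 * K t)
      + (conj l * ((D t : ℂ) * E t ^ 2 * conj (K t)) + (conj ρ * conj ((D t : ℂ) * K t)
      + (conj A * conj (mkv ν D E v t * K t) - B * (mkv ν D E v t * conj (K t)))))) ν := b5.int.add i6
    have i4 : Integrable (fun t => conj δ * (E t ^ 3 * conj (K t)) + (conj κ * conj ((D t : ℂ) * E t ^ 2 * K t)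
      + (conj l * ((D t : ℂ) * E t ^ 2 * conj (K t)) + (conj ρ * conj ((D t : ℂ) * K t)
      + (conj A * conj (mkv ν D E v t * K t) - B * (mkv ν D E v t * conj (K t))))))) ν := b4.int.add i5
    have i3 : Integrable (fun t => conj γ * conj (E t ^ 3 * K t) + (conj δ * (E t ^ 3 * conj (K t))
      + (conj κ * conj ((D t : ℂ) * E t ^ 2 * K t)
      + (conj l * ((D t : ℂ) * E t ^ 2 * conj (K t)) + (conj ρ * conj ((D t : ℂ) * K t)
      + (conj A * conj (mkv ν D E v t * K t) - B * (mkv ν D E v t * conj (K t)))))))) ν := b3.int.add i4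
    have i2 : Integrable (fun t => conj β * (E t * conj (K t)) + (conj γ * conj (E t ^ 3 * K t)
      + (conj δ * (E t ^ 3 * conj (K t)) + (conj κ * conj ((D t : ℂ) * E t ^ 2 * K t)
      + (conj l * ((D t : ℂ) * E t ^ 2 * conj (K t)) + (conj ρ * conj ((D t : ℂ) * K t)
      + (conj A * conj (mkv ν D E v t * K t) - B * (mkv ν D E v t * conj (K t))))))))) ν := b2.int.add i3
    rw [e1, integral_add b1.int i2, integral_add b2.int i3, integral_add b3.int i4,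
      integral_add b4.int i5, integral_add b5.int i6, integral_add b6.int i7, integral_add b7.int i8,
      integral_sub b8.int b9.int, integral_const_mul, integral_const_mul, integral_const_mul, integral_const_mul,
      integral_const_mul, integral_const_mul, integral_const_mul, integral_const_mul, integral_const_mul,
      cj, cj, cj, cj, cj]
  have hb : 2 * (∫ t, conj (K t) * conj (hvX ν D E v A B α β γ δ κ l ρ t) ∂ν).re ≤
      2 * ∫ t, ‖hvX ν D E v A B α β γ δ κ l ρ t‖ ∂ν := by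
    have h1 : ‖∫ t, conj (K t) * conj (hvX ν D E v A B α β γ δ κ l ρ t) ∂ν‖ ≤
        ∫ t, ‖hvX ν D E v A B α β γ δ κ l ρ t‖ ∂ν := by
      refine norm_integral_le_of_norm_le bh.int.norm (Eventually.of_forall fun t => ?_)
      rw [norm_mul, Complex.norm_conj, Complex.norm_conj]
      exact mul_le_of_le_one_left (norm_nonneg _) (hK1 t)
    have h2 := Complex.re_le_norm (∫ t, conj (K t) * conj (hvX ν D E v A B α β γ δ κ l ρ t) ∂ν)
    linarith
  rw [e] at hb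
  unfold restvX restv at h
  rw [rp_cp, rm_cm, sq_sp, rq_sm, hA, hB] at h
  have c1 : (conj A * conj (∫ t, mkv ν D E v t * K t ∂ν)).re = (A * ∫ t, mkv ν D E v t * K t ∂ν).re := by
    rw [← map_mul, Complex.conj_re]
  rw [lhs_eq' bD bE v bK, ← hR1, ← hR2]
  unfold pk devN
  rw [← hR1, ← hR2, ← hS1, ← hS2, ← hG]
  simp only [Complex.add_re, Complex.sub_re] at hb h
  rw [c1] at hb
  linarith

/-- **elimination of `K` with a reciprocal weight `q`** -/
theorem NCX_rw [IsFiniteMeasure ν] (bD : Bm fun t => (D t : ℂ)) (bE : Bm E) {Ψ : Psi ι} {v : CV} {u : ι → ℝ}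
    {μ T : ℝ} {q : X → ℝ} (hq : Measurable q) {a b : ℝ} (ha : 0 < a) (hab : ∀ t, a ≤ q t ∧ q t ≤ b)
    (hT : ∫ t, 1 / q t ∂ν ≤ T)
    (H : ∀ A B N M S R G : ℂ, ∃ α β γ δ κ l ρ : ℂ, restvX ν D E Ψ v u μ A B N M S R G α β γ δ κ l ρ
      + ∫ t, ‖hvX ν D E v A B α β γ δ κ l ρ t‖ ^ 2 * q t ∂ν ≤ 0) : NCX ν D E Ψ v u μ T := by
  refine NCX_mod bD bE fun A B N M S R G => ?_
  obtain ⟨α, β, γ, δ, κ, l, ρ, h⟩ := H A B N M S R G
  refine ⟨α, β, γ, δ, κ, l, ρ, ?_⟩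
  have bh := bm_hvX (ν := ν) bD bE v A B α β γ δ κ l ρ
  obtain ⟨C, hC⟩ := bh.bdd
  have i1 : Integrable (fun t => 1 / q t) ν := by
    refine Integrable.of_bound (measurable_const.div hq).aestronglyMeasurable (1 / a)
      (Eventually.of_forall fun t => ?_)
    have h0 : 0 < q t := lt_of_lt_of_le ha (hab t).1
    rw [Real.norm_eq_abs, abs_of_nonneg (by positivity)]
    exact one_div_le_one_div_of_le ha (hab t).1
  have i2 : Integrable (fun t => ‖hvX ν D E v A B α β γ δ κ l ρ t‖ ^ 2 * q t) ν := by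
    refine Integrable.of_bound ((bh.meas.norm.pow_const 2).mul hq).aestronglyMeasurable (C ^ 2 * b)
      (Eventually.of_forall fun t => ?_)
    have h0 : 0 < q t := lt_of_lt_of_le ha (hab t).1
    rw [Real.norm_eq_abs, abs_of_nonneg (by positivity)]
    exact mul_le_mul (pow_le_pow_left₀ (norm_nonneg _) (hC t) 2) (hab t).2 h0.le (sq_nonneg C)
  have key : 2 * ∫ t, ‖hvX ν D E v A B α β γ δ κ l ρ t‖ ∂ν ≤
      (∫ t, 1 / q t ∂ν) + ∫ t, ‖hvX ν D E v A B α β γ δ κ l ρ t‖ ^ 2 * q t ∂ν := by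
    rw [← integral_add i1 i2, ← integral_const_mul]
    refine integral_mono (bh.int.norm.const_mul 2) (i1.add i2) fun t => ?_
    have h0 : 0 < q t := lt_of_lt_of_le ha (hab t).1
    have e : 1 / q t + ‖hvX ν D E v A B α β γ δ κ l ρ t‖ ^ 2 * q t - 2 * ‖hvX ν D E v A B α β γ δ κ l ρ t‖ =
        (1 - ‖hvX ν D E v A B α β γ δ κ l ρ t‖ * q t) ^ 2 / q t := by
      field_simp
      ring
    have : 0 ≤ (1 - ‖hvX ν D E v A B α β γ δ κ l ρ t‖ * q t) ^ 2 / q t := by positivity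
    show 2 * ‖hvX ν D E v A B α β γ δ κ l ρ t‖ ≤ 1 / q t + ‖hvX ν D E v A B α β γ δ κ l ρ t‖ ^ 2 * q t
    linarith
  linarith

/-- **the condition at a coefficient vector with the deviation `u`** -/
def RWX (ν : Measure X) (D : X → ℝ) (E : X → ℂ) (Ψ : Psi ι) (v : CV) (u : ι → ℝ) (μ T : ℝ) : Prop :=
  ∃ q : ℂ → ℝ → ℝ, Continuous (fun p : ℂ × ℝ => q p.1 p.2) ∧ (∀ e x, ‖e‖ = 1 → |x| ≤ 1 → 0 < q e x) ∧
    ∫ t, 1 / q (E t) (D t) ∂ν ≤ T ∧
    ∀ A B N M S R G : ℂ, ∃ α β γ δ κ l ρ : ℂ, restvX ν D E Ψ v u μ A B N M S R G α β γ δ κ l ρ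
      + ∫ t, ‖hvX ν D E v A B α β γ δ κ l ρ t‖ ^ 2 * q (E t) (D t) ∂ν ≤ 0

theorem NCX_of_RWX [IsFiniteMeasure ν] (mD : Measurable D) (mE : Measurable E) (hD : ∀ t, |D t| ≤ 1)
    (hE : ∀ t, ‖E t‖ = 1) {Ψ : Psi ι} {v : CV} {u : ι → ℝ} {μ T : ℝ} (H : RWX ν D E Ψ v u μ T) :
    NCX ν D E Ψ v u μ T := by
  obtain ⟨q, hq, hp, hT, h⟩ := H
  obtain ⟨a, b, ha, hab⟩ := q_bounds hq hp
  have bD : Bm fun t => (D t : ℂ) := ⟨Complex.measurable_ofReal.comp mD, 1, fun t => by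
    rw [Complex.norm_real]
    exact hD t⟩
  have bE : Bm E := ⟨mE, 1, fun t => (hE t).le⟩
  exact NCX_rw bD bE (q := fun t => q (E t) (D t)) (hq.measurable.comp (mE.prodMk mD)) ha
    (fun t => hab _ _ (hE t) (hD t)) hT h

end Pool.Agent.FPX.BTN
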