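import Mathlib
import Pool.Agent.FPX.BTI
import Pool.Agent.FPX.BTX

/-
BTJ (helper15): perturbation of the coefficient vector. A priori bounds for the terms of the class `C9`: if the vector
`v'` is close to `v`, the certificate at `v` with `T` gives the certificate at `v'` with `T + η`, `η = ∑ |v'_i - v_i| C_i`.
So quadratic control points (three per latitude cell) are enough for arbitrary coefficient functions.
-/

open MeasureTheory Set Filter Topology Complex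
open scoped ComplexConjugate

noncomputable section

set_option linter.unusedSectionVars false

namespace Pool.Agent.FPX.BTG

open Pool.Agent.FPX.CRD (Bm)

variable {J L I Q : Type} [Fintype L] [Fintype I] [Fintype Q] {C : Cls J L I Q}
variable {X : Type*} [MeasurableSpace X] {ν : Measure X} {D : X → ℝ} {E : X → ℂ}

/-- the terms of the certificate -/
def ph (C : Cls J L I Q) (ν : Measure X) (D : X → ℝ) (E : X → ℂ) (i : I) (K : X → ℂ) (A B : ℂ) : ℝ :=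
  C.θ i (mo C ν D E) A B (aK C ν D E K) (bK C ν D E K)
    + 2 * (A * ∫ t, C.κ i (mo C ν D E) (E t) (D t) * K t ∂ν).re
    - 2 * (B * ∫ t, C.κ i (mo C ν D E) (E t) (D t) * conj (K t) ∂ν).re

theorem lh_eq (H : Sta ν D E) (v : I → ℝ) (u : Q → ℝ) (μ : ℝ) {K : X → ℂ} (hK : Measurable K)
    (hK1 : ∀ t, ‖K t‖ ≤ 1) (A B : ℂ) : lh C ν D E v u μ K A B = (∑ i, v i * ph C ν D E i K A B)
      + 2 * μ * ‖dev C u (mo C ν D E) A B (aK C ν D E K) (bK C ν D E K)‖ ^ 2 := by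
  have := H.pr
  have bmK : Bm K := ⟨hK, 1, hK1⟩
  have hsum : ∀ (K' : X → ℂ), Bm K' → ∫ t, ker C v (mo C ν D E) (E t) (D t) * K' t ∂ν =
      ∑ i, (v i : ℂ) * ∫ t, C.κ i (mo C ν D E) (E t) (D t) * K' t ∂ν := by
    intro K' b'
    have e : (fun t => ker C v (mo C ν D E) (E t) (D t) * K' t) =
        fun t => ∑ i, (v i : ℂ) * (C.κ i (mo C ν D E) (E t) (D t) * K' t) := by
      funext t
      unfold ker
      rw [Finset.sum_mul]
      exact Finset.sum_congr rfl fun j _ => by ring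
    rw [e, integral_finsetSum]
    · exact Finset.sum_congr rfl fun j _ => integral_const_mul _ _
    · exact fun j _ => ((Bm.const _).mul ((H.bm (C.cκ j _)).mul b')).int
  have e2 : ∀ (Z : ℂ) (y : I → ℂ), 2 * (Z * ∑ i, (v i : ℂ) * y i).re = ∑ i, v i * (2 * (Z * y i).re) := by
    intro Z y
    rw [Finset.mul_sum, Complex.re_sum, Finset.mul_sum]
    refine Finset.sum_congr rfl fun j _ => ?_
    rw [mul_left_comm, Complex.re_ofReal_mul]
    ring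
  unfold lh
  rw [hsum K bmK, hsum (fun t => conj (K t)) bmK.conj, e2, e2]
  unfold tht
  rw [← Finset.sum_add_distrib, ← Finset.sum_sub_distrib]
  congr 1
  refine Finset.sum_congr rfl fun i _ => ?_
  unfold ph
  ring

/-- **perturbation of the coefficients** -/
theorem NC.near (H : Sta ν D E) {v v' : I → ℝ} {u u' : Q → ℝ} {μ T η : ℝ} {c : I → ℝ} {ζ : ℝ} (hμ : 0 ≤ μ)
    (h : NC C ν D E v u μ T)
    (hc : ∀ K : X → ℂ, Measurable K → (∀ t, ‖K t‖ ≤ 1) → ∀ A B : ℂ,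
      A - C.σ (mo C ν D E) * conj B = ∫ t, E t * conj (K t) ∂ν →
      B - C.σ (mo C ν D E) * conj A = ∫ t, E t * K t ∂ν → (∀ i, |ph C ν D E i K A B| ≤ c i) ∧
        ‖dev C u' (mo C ν D E) A B (aK C ν D E K) (bK C ν D E K)‖ ^ 2 ≤
          ‖dev C u (mo C ν D E) A B (aK C ν D E K) (bK C ν D E K)‖ ^ 2 + ζ)
    (hη : ∑ i, |v' i - v i| * c i + 2 * μ * ζ ≤ η) : NC C ν D E v' u' μ (T + η) := by
  intro K hK hK1 A B hA hB
  obtain ⟨h1, h2⟩ := hc K hK hK1 A B hA hB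
  have h0 := h K hK hK1 A B hA hB
  rw [lh_eq H v u μ hK hK1] at h0
  rw [lh_eq H v' u' μ hK hK1]
  have h3 : ∑ i, v' i * ph C ν D E i K A B ≤ (∑ i, v i * ph C ν D E i K A B) + ∑ i, |v' i - v i| * c i := by
    rw [← Finset.sum_add_distrib]
    refine Finset.sum_le_sum fun i _ => ?_
    have a1 : (v' i - v i) * ph C ν D E i K A B ≤ |v' i - v i| * c i := by
      calc _ ≤ |(v' i - v i) * ph C ν D E i K A B| := le_abs_self _
        _ = |v' i - v i| * |ph C ν D E i K A B| := abs_mul _ _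
        _ ≤ |v' i - v i| * c i := mul_le_mul_of_nonneg_left (h1 i) (abs_nonneg _)
    linarith
  have h4 := mul_le_mul_of_nonneg_left h2 (show (0 : ℝ) ≤ 2 * μ by linarith)
  linarith

end Pool.Agent.FPX.BTG

namespace Pool.Agent.FPX.BTI

open Pool.Agent.FPX.BTG (Sta Cls mo aK bK dev)
open Pool.Agent.FPX.CRD (Bm)

variable {Q : Type} [Fintype Q] {Ψ : Psi9 Q}
variable {X : Type*} [MeasurableSpace X] {ν : Measure X} {D : X → ℝ} {E : X → ℂ}

/-- the bounds of the terms -/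
def c9 : Fin 21 → ℝ := ![3, 1, 1, 8, 1, 15, 1, 3, 4, 4, 7, 50, 1, 8, 6, 11, 9, 9, 18, 1, 2]

theorem nI [IsProbabilityMeasure ν] {φ : X → ℂ} {c : ℝ} (h : ∀ t, ‖φ t‖ ≤ c) : ‖∫ t, φ t ∂ν‖ ≤ c := by
  have := norm_integral_le_of_norm_le_const (μ := ν) (Eventually.of_forall h)
  simpa using this

/-- a priori bounds of `A, B` -/
theorem AB_le [IsProbabilityMeasure ν] (hE : ∀ t, ‖E t‖ = 1) {K : X → ℂ} (hK1 : ∀ t, ‖K t‖ ≤ 1) {A B σ : ℂ}
    (hσ : ‖σ‖ ≤ 3 / 8) (hA : A - σ * conj B = ∫ t, E t * conj (K t) ∂ν)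
    (hB : B - σ * conj A = ∫ t, E t * K t ∂ν) : ‖A‖ ≤ 8 / 5 ∧ ‖B‖ ≤ 8 / 5 := by
  have h1 : ‖∫ t, E t * conj (K t) ∂ν‖ ≤ 1 := nI fun t => by
    rw [norm_mul, hE, one_mul, Complex.norm_conj]
    exact hK1 t
  have h2 : ‖∫ t, E t * K t ∂ν‖ ≤ 1 := nI fun t => by
    rw [norm_mul, hE, one_mul]
    exact hK1 t
  have a1 : ‖A‖ ≤ 1 + 3 / 8 * ‖B‖ := by
    have e : A = (A - σ * conj B) + σ * conj B := by ring
    calc ‖A‖ = ‖(A - σ * conj B) + σ * conj B‖ := by rw [← e]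
      _ ≤ ‖A - σ * conj B‖ + ‖σ * conj B‖ := norm_add_le _ _
      _ ≤ 1 + 3 / 8 * ‖B‖ := by
        rw [hA, norm_mul, Complex.norm_conj]
        gcongr
  have a2 : ‖B‖ ≤ 1 + 3 / 8 * ‖A‖ := by
    have e : B = (B - σ * conj A) + σ * conj A := by ring
    calc ‖B‖ = ‖(B - σ * conj A) + σ * conj A‖ := by rw [← e]
      _ ≤ ‖B - σ * conj A‖ + ‖σ * conj A‖ := norm_add_le _ _
      _ ≤ 1 + 3 / 8 * ‖A‖ := by
        rw [hB, norm_mul, Complex.norm_conj]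
        gcongr
  constructor <;> linarith

theorem pkb [IsProbabilityMeasure ν] {K φ : X → ℂ} (hK1 : ∀ t, ‖K t‖ ≤ 1) {A B : ℂ} (hA : ‖A‖ ≤ 8 / 5)
    (hB : ‖B‖ ≤ 8 / 5) {k : ℝ} (hk : 0 ≤ k) (hφ : ∀ t, ‖φ t‖ ≤ k) :
    |2 * (A * ∫ t, φ t * K t ∂ν).re - 2 * (B * ∫ t, φ t * conj (K t) ∂ν).re| ≤ 32 / 5 * k := by
  have h1 : ‖∫ t, φ t * K t ∂ν‖ ≤ k := nI fun t => by
    rw [norm_mul]
    calc ‖φ t‖ * ‖K t‖ ≤ k * 1 := mul_le_mul (hφ t) (hK1 t) (norm_nonneg _) hk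
      _ = k := mul_one k
  have h2 : ‖∫ t, φ t * conj (K t) ∂ν‖ ≤ k := nI fun t => by
    rw [norm_mul, Complex.norm_conj]
    calc ‖φ t‖ * ‖K t‖ ≤ k * 1 := mul_le_mul (hφ t) (hK1 t) (norm_nonneg _) hk
      _ = k := mul_one k
  have h3 : |(A * ∫ t, φ t * K t ∂ν).re| ≤ 8 / 5 * k :=
    (Complex.abs_re_le_norm _).trans (by
      rw [norm_mul]
      exact mul_le_mul hA h1 (norm_nonneg _) (by norm_num))
  have h4 : |(B * ∫ t, φ t * conj (K t) ∂ν).re| ≤ 8 / 5 * k :=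
    (Complex.abs_re_le_norm _).trans (by
      rw [norm_mul]
      exact mul_le_mul hB h2 (norm_nonneg _) (by norm_num))
  rw [abs_le] at h3 h4 ⊢
  constructor <;> linarith [h3.1, h3.2, h4.1, h4.2]

theorem J_le {A B : ℂ} (hA : ‖A‖ ≤ 8 / 5) (hB : ‖B‖ ≤ 8 / 5) : |‖A‖ ^ 2 - ‖B‖ ^ 2| ≤ 64 / 25 := by
  have := norm_nonneg A
  have := norm_nonneg B
  rw [abs_le]
  constructor <;> nlinarith

/-- products with the Jacobian -/
theorem mJ {A B : ℂ} (hA : ‖A‖ ≤ 8 / 5) (hB : ‖B‖ ≤ 8 / 5) {x k : ℝ} (hx : |x| ≤ k) :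
    |x * (‖A‖ ^ 2 - ‖B‖ ^ 2)| ≤ 64 / 25 * k := by
  rw [abs_mul]
  have := J_le hA hB
  have h0 := abs_nonneg x
  calc |x| * |‖A‖ ^ 2 - ‖B‖ ^ 2| ≤ k * (64 / 25) := mul_le_mul hx this (abs_nonneg _) (h0.trans hx)
    _ = _ := by ring

theorem reb {z : ℂ} {k : ℝ} (h : ‖z‖ ≤ k) : |z.re| ≤ k := (Complex.abs_re_le_norm z).trans h

theorem ab2 {x y a b : ℝ} (hx : |x| ≤ a) (hy : |y| ≤ b) {z c : ℝ} (hz : z = x + y) (hc : a + b ≤ c) : |z| ≤ c := by
  rw [hz]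
  exact ((abs_add_le x y).trans (add_le_add hx hy)).trans hc

/-- a state with small moments -/
structure Sml (Ψ : Psi9 Q) (ν : Measure X) (D : X → ℝ) (E : X → ℂ) : Prop extends Sta ν D E where
  hx : ∀ t, |D t| ≤ 31 / 50
  h3 : ‖mo (C9 Ψ) ν D E 0‖ ≤ 1 / 4

section

variable (H : Sml Ψ ν D E)

include H

theorem Sml.m1 : ‖mo (C9 Ψ) ν D E 1‖ ≤ 31 / 50 := by
  have := H.pr
  refine nI fun t => ?_
  show ‖(D t : ℂ) * E t ^ 5‖ ≤ 31 / 50
  rw [norm_mul, norm_pow, H.hE, one_pow, mul_one, Complex.norm_real]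
  exact H.hx t

theorem Sml.m2 : ‖mo (C9 Ψ) ν D E 2‖ ≤ 31 / 50 := by
  have := H.pr
  refine nI fun t => ?_
  show ‖(D t : ℂ) * E t ^ 7‖ ≤ 31 / 50
  rw [norm_mul, norm_pow, H.hE, one_pow, mul_one, Complex.norm_real]
  exact H.hx t

theorem Sml.m3 : ‖mo (C9 Ψ) ν D E 3‖ ≤ (31 / 50) ^ 2 := by
  have := H.pr
  refine nI fun t => ?_
  show ‖(D t : ℂ) ^ 2‖ ≤ (31 / 50) ^ 2
  rw [norm_pow, Complex.norm_real]
  exact pow_le_pow_left₀ (norm_nonneg _) (H.hx t) 2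

theorem Sml.m4 : ‖mo (C9 Ψ) ν D E 4‖ ≤ (31 / 50) ^ 2 := by
  have := H.pr
  refine nI fun t => ?_
  show ‖(D t : ℂ) ^ 2 * E t ^ 2‖ ≤ (31 / 50) ^ 2
  rw [norm_mul, norm_pow, norm_pow, H.hE, one_pow, mul_one, Complex.norm_real]
  exact pow_le_pow_left₀ (norm_nonneg _) (H.hx t) 2

theorem Sml.m5 : ‖mo (C9 Ψ) ν D E 5‖ ≤ (31 / 50) ^ 2 := by
  have := H.pr
  refine nI fun t => ?_
  show ‖(D t : ℂ) ^ 2 * E t ^ 4‖ ≤ (31 / 50) ^ 2
  rw [norm_mul, norm_pow, norm_pow, H.hE, one_pow, mul_one, Complex.norm_real]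
  exact pow_le_pow_left₀ (norm_nonneg _) (H.hx t) 2

/-- **a priori bounds of the terms** -/
theorem Sml.ph_le {K : X → ℂ} (hK1 : ∀ t, ‖K t‖ ≤ 1) {A B : ℂ} (hA : ‖A‖ ≤ 8 / 5)
    (hB : ‖B‖ ≤ 8 / 5) (i : Fin 21) : |BTG.ph (C9 Ψ) ν D E i K A B| ≤ c9 i := by
  have := H.pr
  have h0 := H.h3
  have h1 := H.m1
  have h2 := H.m2
  have h3 := H.m3
  have h4 := H.m4
  have h5 := H.m5
  have hE := H.hE
  have hE' : ∀ t, ‖conj (E t)‖ = 1 := fun t => by rw [Complex.norm_conj, hE]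
  have hx : ∀ t, ‖(D t : ℂ)‖ ≤ 31 / 50 := fun t => by
    rw [Complex.norm_real]
    exact H.hx t
  have ha : ‖aK (C9 Ψ) ν D E K 0‖ ≤ 1 := nI fun t => by
    show ‖E t ^ 3 * K t‖ ≤ 1
    rw [norm_mul, norm_pow, hE, one_pow, one_mul]
    exact hK1 t
  have hb : ‖bK (C9 Ψ) ν D E K 0‖ ≤ 1 := nI fun t => by
    show ‖E t ^ 3 * conj (K t)‖ ≤ 1
    rw [norm_mul, norm_pow, hE, one_pow, one_mul, Complex.norm_conj]
    exact hK1 t
  have z0 : (2 * (A * ∫ t, (0 : ℂ) * K t ∂ν).re - 2 * (B * ∫ t, (0 : ℂ) * conj (K t) ∂ν).re) = 0 := by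
    simp
  have hph : ∀ (θ : ℝ) (κ : X → ℂ) (k a c : ℝ), 0 ≤ k → (∀ t, ‖κ t‖ ≤ k) → |θ| ≤ a → a + 32 / 5 * k ≤ c →
      |θ + 2 * (A * ∫ t, κ t * K t ∂ν).re - 2 * (B * ∫ t, κ t * conj (K t) ∂ν).re| ≤ c := by
    intro θ κ k a c hk hκ hθ hc
    exact ab2 hθ (pkb hK1 hA hB hk hκ) (by ring) hc
  have hth : ∀ (θ c : ℝ), |θ| ≤ c →
      |θ + 2 * (A * ∫ t, (0 : ℂ) * K t ∂ν).re - 2 * (B * ∫ t, (0 : ℂ) * conj (K t) ∂ν).re| ≤ c := by
    intro θ c h
    rw [add_sub_assoc, z0, add_zero]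
    exact h
  set m := mo (C9 Ψ) ν D E with hm
  have hN : ‖n9 m A B (bK (C9 Ψ) ν D E K 0)‖ ≤ 117 / 25 := by
    unfold n9
    have t1 : ‖5 / 2 * conj B * m 1‖ ≤ 5 / 2 * (8 / 5) * (31 / 50) := by
      rw [norm_mul, norm_mul, Complex.norm_conj]
      have : ‖(5 / 2 : ℂ)‖ = 5 / 2 := by norm_num
      rw [this]
      gcongr
    have t2 : ‖3 / 2 * (A - conj B) * m 0‖ ≤ 3 / 2 * (16 / 5) * (1 / 4) := by
      rw [norm_mul, norm_mul]
      have : ‖(3 / 2 : ℂ)‖ = 3 / 2 := by norm_num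
      rw [this]
      have : ‖A - conj B‖ ≤ 16 / 5 := (norm_sub_le _ _).trans (by
        rw [Complex.norm_conj]
        linarith)
      gcongr
    calc _ ≤ ‖bK (C9 Ψ) ν D E K 0 + 5 / 2 * conj B * m 1‖ + ‖3 / 2 * (A - conj B) * m 0‖ := norm_sub_le _ _
      _ ≤ (‖bK (C9 Ψ) ν D E K 0‖ + ‖5 / 2 * conj B * m 1‖) + ‖3 / 2 * (A - conj B) * m 0‖ := by
        gcongr
        exact norm_add_le _ _
      _ ≤ 117 / 25 := by linarith
  have hM : ‖m9 m A B (aK (C9 Ψ) ν D E K 0)‖ ≤ 117 / 25 := by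
    unfold m9
    have t1 : ‖5 / 2 * conj A * m 1‖ ≤ 5 / 2 * (8 / 5) * (31 / 50) := by
      rw [norm_mul, norm_mul, Complex.norm_conj]
      have : ‖(5 / 2 : ℂ)‖ = 5 / 2 := by norm_num
      rw [this]
      gcongr
    have t2 : ‖3 / 2 * (B - conj A) * m 0‖ ≤ 3 / 2 * (16 / 5) * (1 / 4) := by
      rw [norm_mul, norm_mul]
      have : ‖(3 / 2 : ℂ)‖ = 3 / 2 := by norm_num
      rw [this]
      have : ‖B - conj A‖ ≤ 16 / 5 := (norm_sub_le _ _).trans (by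
        rw [Complex.norm_conj]
        linarith)
      gcongr
    calc _ ≤ ‖aK (C9 Ψ) ν D E K 0 + 5 / 2 * conj A * m 1‖ + ‖3 / 2 * (B - conj A) * m 0‖ := norm_sub_le _ _
      _ ≤ (‖aK (C9 Ψ) ν D E K 0‖ + ‖5 / 2 * conj A * m 1‖) + ‖3 / 2 * (B - conj A) * m 0‖ := by
        gcongr
        exact norm_add_le _ _
      _ ≤ 117 / 25 := by linarith
  have n0 := norm_nonneg (m 0)
  have n1 := norm_nonneg (m 1)
  have hxE : ∀ (n : ℕ) t, ‖(D t : ℂ) * E t ^ n‖ ≤ 31 / 50 := fun n t => by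
    rw [norm_mul, norm_pow, hE, one_pow, mul_one]
    exact hx t
  have hxE' : ∀ (n : ℕ) t, ‖(D t : ℂ) * conj (E t) ^ n‖ ≤ 31 / 50 := fun n t => by
    rw [norm_mul, norm_pow, hE', one_pow, mul_one]
    exact hx t
  have hmE : ∀ (z : ℂ) (n : ℕ) t, ‖z * E t ^ n‖ = ‖z‖ := fun z n t => by
    rw [norm_mul, norm_pow, hE, one_pow, mul_one]
  have hmE' : ∀ (z : ℂ) (n : ℕ) t, ‖z * conj (E t) ^ n‖ = ‖z‖ := fun z n t => by
    rw [norm_mul, norm_pow, hE', one_pow, mul_one]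
  have p03 : ‖m 0‖ ^ 2 ≤ 1 / 16 := by nlinarith
  have p13 : ‖m 1‖ ^ 2 ≤ (31 / 50) ^ 2 := by nlinarith
  have q01 : ‖conj (m 0) * m 1‖ ≤ 1 / 4 * (31 / 50) := by
    rw [norm_mul, Complex.norm_conj]
    exact mul_le_mul h0 h1 n1 (by norm_num)
  have q02 : ‖conj (m 0) * m 2‖ ≤ 1 / 4 * (31 / 50) := by
    rw [norm_mul, Complex.norm_conj]
    exact mul_le_mul h0 h2 (norm_nonneg _) (by norm_num)
  fin_cases i
  · exact hth _ _ ((J_le hA hB).trans (by norm_num [c9]))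
  · exact hth _ _ ((mJ hA hB (reb h4)).trans (by norm_num [c9]))
  · exact hth _ _ ((mJ hA hB (reb h3)).trans (by norm_num [c9]))
  · refine hph _ (fun t => (D t : ℂ) * E t ^ 2) (31 / 50) (64 / 25 * (2 * ((31 / 50) ^ 2 + 1 / 4))) _
      (by norm_num) (hxE 2) (mJ hA hB ?_) (by norm_num [c9])
    rw [abs_mul, abs_two]
    have := abs_sub (m 5).re (m 0).re
    have := reb h5
    have := reb h0
    linarith
  · exact hth _ _ ((mJ hA hB (reb h0)).trans (by norm_num [c9]))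
  · refine hph _ (fun t => E t ^ 3) 1 (64 / 25 * (5 * (31 / 50))) _ (by norm_num)
      (fun t => by rw [norm_pow, hE, one_pow]) (mJ hA hB ?_) (by norm_num [c9])
    rw [abs_mul, abs_of_pos (by norm_num : (0 : ℝ) < 5)]
    have := reb h1
    linarith
  · refine hth _ _ ((mJ hA hB (k := 1 / 16) ?_).trans (by norm_num [c9]))
    rw [abs_of_nonneg (sq_nonneg _)]
    exact p03
  · refine hph _ (fun t => (((conj (m 0) * E t ^ 3).re : ℝ) : ℂ)) (1 / 4)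
      (64 / 25 * (5 / 2 * (1 / 4 * (31 / 50)))) _ (by norm_num) (fun t => ?_) (mJ hA hB ?_) (by norm_num [c9])
    · rw [Complex.norm_real, Real.norm_eq_abs]
      refine reb ?_
      rw [hmE, Complex.norm_conj]
      exact h0
    · rw [abs_mul, abs_of_pos (by norm_num : (0 : ℝ) < 5 / 2)]
      have := reb q01
      linarith
  · exact hph 0 (fun t => (D t : ℂ) * conj (E t) ^ 2) (31 / 50) 0 _ (by norm_num) (hxE' 2) (by simp)
      (by norm_num [c9])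
  · exact hph 0 (fun t => (D t : ℂ)) (31 / 50) 0 _ (by norm_num) hx (by simp) (by norm_num [c9])
  · exact hph 0 (fun t => conj (E t) ^ 3) 1 0 _ (by norm_num)
      (fun t => by rw [norm_pow, hE', one_pow]) (by simp) (by norm_num [c9])
  · refine hth _ _ ?_
    show |2 * (‖n9 m A B (bK (C9 Ψ) ν D E K 0)‖ ^ 2 - ‖m9 m A B (aK (C9 Ψ) ν D E K 0)‖ ^ 2)| ≤ 50
    have a1 := norm_nonneg (n9 m A B (bK (C9 Ψ) ν D E K 0))
    have a2 := norm_nonneg (m9 m A B (aK (C9 Ψ) ν D E K 0))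
    rw [abs_le]
    constructor <;> nlinarith
  · refine hth _ _ ?_
    show |-(‖m 0‖ ^ 2 * (‖A‖ ^ 2 - ‖B‖ ^ 2))| ≤ 1
    rw [abs_neg]
    refine (mJ hA hB (k := 1 / 16) ?_).trans (by norm_num)
    rw [abs_of_nonneg (sq_nonneg _)]
    exact p03
  · refine hth _ _ (reb ?_)
    show ‖(A + conj B) * (m 0 * conj (n9 m A B (bK (C9 Ψ) ν D E K 0))
      - conj (m 0) * m9 m A B (aK (C9 Ψ) ν D E K 0))‖ ≤ 8
    rw [norm_mul]
    have a1 : ‖A + conj B‖ ≤ 16 / 5 := (norm_add_le _ _).trans (by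
      rw [Complex.norm_conj]
      linarith)
    have a2 : ‖m 0 * conj (n9 m A B (bK (C9 Ψ) ν D E K 0)) - conj (m 0) * m9 m A B (aK (C9 Ψ) ν D E K 0)‖
        ≤ 1 / 4 * (117 / 25) + 1 / 4 * (117 / 25) := by
      refine (norm_sub_le _ _).trans (add_le_add ?_ ?_)
      · rw [norm_mul, Complex.norm_conj]
        exact mul_le_mul h0 hN (norm_nonneg _) (by norm_num)
      · rw [norm_mul, Complex.norm_conj]
        exact mul_le_mul h0 hM (norm_nonneg _) (by norm_num)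
    calc _ ≤ 16 / 5 * (1 / 4 * (117 / 25) + 1 / 4 * (117 / 25)) :=
          mul_le_mul a1 a2 (norm_nonneg _) (by norm_num)
      _ ≤ 8 := by norm_num
  · refine hth _ _ ?_
    show |2 * ‖B‖ ^ 2| ≤ 6
    have := norm_nonneg B
    rw [abs_of_nonneg (by positivity)]
    nlinarith
  · refine hph _ (fun t => conj (m 1) * E t ^ 3 + m 0 * conj (E t) ^ 5) (31 / 50 + 1 / 4)
      (64 / 25 * (5 * (31 / 50) ^ 2)) _ (by norm_num) (fun t => ?_) (mJ hA hB ?_) (by norm_num [c9])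
    · refine (norm_add_le _ _).trans (add_le_add ?_ ?_)
      · rw [hmE, Complex.norm_conj]
        exact h1
      · rw [hmE']
        exact h0
    · rw [abs_le]
      constructor <;> nlinarith [sq_nonneg ‖m 0‖, sq_nonneg ‖m 1‖]
  · refine hph _ (fun t => m 1 * conj (E t) ^ 3 + conj (m 0) * E t ^ 5) (31 / 50 + 1 / 4)
      (64 / 25 * (7 * (1 / 4 * (31 / 50)))) _ (by norm_num) (fun t => ?_) (mJ hA hB ?_) (by norm_num [c9])
    · refine (norm_add_le _ _).trans (add_le_add ?_ ?_)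
      · rw [hmE']
        exact h1
      · rw [hmE, Complex.norm_conj]
        exact h0
    · rw [abs_mul, abs_of_pos (by norm_num : (0 : ℝ) < 7)]
      have := reb q02
      linarith
  · refine hph _ (fun t => conj (E t) ^ 5) 1 (64 / 25 * (3 * (1 / 4))) _ (by norm_num)
      (fun t => by rw [norm_pow, hE', one_pow]) (mJ hA hB ?_) (by norm_num [c9])
    rw [abs_mul, abs_of_neg (by norm_num : (-3 : ℝ) < 0)]
    have := reb h0
    linarith
  · refine hph _ (fun t => E t ^ 5) 1 (64 / 25 * (7 * (31 / 50))) _ (by norm_num)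
      (fun t => by rw [norm_pow, hE, one_pow]) (mJ hA hB ?_) (by norm_num [c9])
    rw [abs_mul, abs_of_pos (by norm_num : (0 : ℝ) < 7)]
    have := reb h2
    linarith
  · exact hth _ _ ((mJ hA hB (reb q01)).trans (by norm_num [c9]))
  · exact hth _ _ ((mJ hA hB (reb h1)).trans (by norm_num [c9]))

end

end Pool.Agent.FPX.BTI
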