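import Mathlib
import Pool.Agent.FPX.C54B
import Pool.Agent.FPX.UMP1

/-
HJC (helper65): helper24's calibration (Hamilton-Jacobi) lemma for local functionals of a state in the
visual frame. State at the point `(s, 0)`, `0 ≤ s < 1`: `E = (c cos t + i sin t) / w = e^{iα}`,
`dα = (c / w²) dt`, `x = (s / c) (f - arcsin (s cos t))`. The class of states is
`-s / (1 + s sin α) ≤ dx/dα ≤ s / (1 - s sin α)`. If `K (cos α, sin α, x)` is of class C¹ and
`(1 - s S) G + s K_x ≤ 0`, `(1 + s S) G - s K_x ≤ 0` with `G = L + C K_S - S K_C` at all points of the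
curve then `∫ L dα ≤ 0`.
-/

open MeasureTheory Set Filter Topology Real intervalIntegral
open Pool.Agent.FPX.UMP (Ef)
open Pool.Agent.FPX.F54 Pool.Agent.FPX.F54B Pool.Agent.FPX.C54
open scoped ComplexConjugate NNReal

noncomputable section

namespace Pool.Agent.FPX.HJC

/-- `cos α` -/
def Ca (s t : ℝ) : ℝ := ce s 0 * cos t / wt s 0 t

/-- `sin α` -/
def Sa (s t : ℝ) : ℝ := sin t / wt s 0 t

/-- `x = T δ` -/
def xs (s : ℝ) (f : ℝ → ℝ) (t : ℝ) : ℝ := s / ce s 0 * (f t - arcsin (pr s 0 t))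

section geo

variable {s : ℝ} (h0 : 0 ≤ s) (h1 : s < 1)

include h0 h1

theorem hs : s ^ 2 + (0 : ℝ) ^ 2 < 1 := by nlinarith

theorem ce2 : ce s 0 ^ 2 = 1 - s ^ 2 := by
  rw [ce_sq (hs h0 h1)]
  ring

theorem cpos : 0 < ce s 0 := ce_pos (hs h0 h1)

theorem wpos (t : ℝ) : 0 < wt s 0 t := wt_pos (hs h0 h1) t

omit h0 h1 in
theorem pr_eq (t : ℝ) : pr s 0 t = s * cos t := by
  unfold pr
  ring

theorem w2 (t : ℝ) : wt s 0 t ^ 2 = 1 - s ^ 2 * cos t ^ 2 := by
  rw [wt_sq (hs h0 h1), pr_eq]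
  ring

/-- the frame -/
theorem ep_eq (t : ℝ) : ep s 0 t = ⟨Ca s t, Sa s t⟩ := by
  have hw := wpos h0 h1 t
  have hc := cpos h0 h1
  have hc2 := ce2 h0 h1
  have e : EE s 0 t = ⟨ce s 0 * cos t, sin t⟩ := by
    apply Complex.ext
    · simp only [EE, pr_eq]
      field_simp
      linear_combination (-cos t) * hc2
    · simp only [EE]
      ring
  unfold ep
  rw [e]
  apply Complex.ext
  · rw [Complex.div_ofReal_re]
    rfl
  · rw [Complex.div_ofReal_im]
    rfl

theorem CS (t : ℝ) : Ca s t ^ 2 + Sa s t ^ 2 = 1 := by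
  have hw := wpos h0 h1 t
  unfold Ca Sa
  rw [div_pow, div_pow, ← add_div, div_eq_iff (pow_pos hw 2).ne', w2 h0 h1, mul_pow, ce2 h0 h1]
  linear_combination sin_sq_add_cos_sq t

theorem der_CS (t : ℝ) : HasDerivAt (Ca s) (-(al s 0 t * Sa s t)) t ∧
    HasDerivAt (Sa s) (al s 0 t * Ca s t) t := by
  have h := der_ep (hs h0 h1) t
  have e : (fun t => ep s 0 t) = fun t => (⟨Ca s t, Sa s t⟩ : ℂ) := funext fun t => ep_eq h0 h1 t
  rw [e, ep_eq h0 h1 t] at h
  constructor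
  · have h2 := (Complex.reCLM.hasFDerivAt.comp_hasDerivAt t h)
    refine h2.congr_deriv ?_
    simp [Complex.mul_re, Complex.mul_im]
  · have h2 := (Complex.imCLM.hasFDerivAt.comp_hasDerivAt t h)
    refine h2.congr_deriv ?_
    simp [Complex.mul_re, Complex.mul_im]

/-- `dα/dt = (1 - s² S²) / c` -/
theorem al_eq (t : ℝ) : ce s 0 * al s 0 t = 1 - s ^ 2 * Sa s t ^ 2 := by
  have hw := wpos h0 h1 t
  have hc := cpos h0 h1
  unfold al Sa
  rw [mul_div_assoc', div_pow, mul_div_assoc', eq_sub_iff_add_eq, ← add_div,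
    div_eq_iff (pow_pos hw 2).ne', w2 h0 h1]
  linear_combination ce2 h0 h1 + s ^ 2 * sin_sq_add_cos_sq t

/-- derivative of `arcsin (s cos t)` -/
theorem der_as (t : ℝ) : HasDerivAt (fun t => arcsin (pr s 0 t)) (-(s * Sa s t)) t := by
  have hw := wpos h0 h1 t
  have h2 : HasDerivAt (fun t => pr s 0 t) (-(s * sin t)) t := by
    have e : (fun t => pr s 0 t) = fun t => s * cos t := funext fun t => pr_eq t
    rw [e]
    refine ((hasDerivAt_cos t).const_mul s).congr_deriv ?_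
    ring
  have h3 : pr s 0 t ^ 2 < 1 := pr_sq_lt (hs h0 h1) t
  have h4 : -1 < pr s 0 t := by nlinarith
  have h5 : pr s 0 t < 1 := by nlinarith
  refine ((hasDerivAt_arcsin h4.ne' h5.ne).comp t h2).congr_deriv ?_
  unfold Sa wt
  ring

/-- derivative of `x` -/
theorem der_xs {f : ℝ → ℝ} {f' t : ℝ} (hf : HasDerivAt f f' t) :
    HasDerivAt (xs s f) (s / ce s 0 * (f' + s * Sa s t)) t := by
  refine ((hf.sub (der_as h0 h1 t)).const_mul (s / ce s 0)).congr_deriv ?_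
  ring

end geo

section main

variable {s : ℝ} (h0 : 0 ≤ s) (h1 : s < 1) {f : ℝ → ℝ} (hf : Ef f)
  {K K1 K2 K3 L : ℝ → ℝ → ℝ → ℝ} (hK : ContDiff ℝ 1 fun p : ℝ × ℝ × ℝ => K p.1 p.2.1 p.2.2)
  (d1 : ∀ C S x, HasDerivAt (fun C => K C S x) (K1 C S x) C)
  (d2 : ∀ C S x, HasDerivAt (fun S => K C S x) (K2 C S x) S)
  (d3 : ∀ C S x, HasDerivAt (fun x => K C S x) (K3 C S x) x)

include hK d1 d2 d3

/-- chain rule -/
theorem chain {u v z : ℝ → ℝ} {u' v' z' t : ℝ} (hu : HasDerivAt u u' t) (hv : HasDerivAt v v' t)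
    (hz : HasDerivAt z z' t) : HasDerivAt (fun t => K (u t) (v t) (z t))
      (u' * K1 (u t) (v t) (z t) + v' * K2 (u t) (v t) (z t) + z' * K3 (u t) (v t) (z t)) t := by
  have hd := (hK.differentiable (by norm_num)) (u t, v t, z t)
  have hc : HasDerivAt (fun t => (u t, v t, z t)) (u', v', z') t := hu.prodMk (hv.prodMk hz)
  have h := (hd.hasFDerivAt).comp_hasDerivAt t hc
  refine h.congr_deriv ?_
  set D := fderiv ℝ (fun p : ℝ × ℝ × ℝ => K p.1 p.2.1 p.2.2) (u t, v t, z t) with hD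
  have e1 : D (1, 0, 0) = K1 (u t) (v t) (z t) := by
    have a : HasDerivAt (fun C : ℝ => (C, v t, z t)) ((1 : ℝ), (0 : ℝ), (0 : ℝ)) (u t) :=
      (hasDerivAt_id _).prodMk ((hasDerivAt_const _ _).prodMk (hasDerivAt_const _ _))
    have b : HasDerivAt (fun C => K C (v t) (z t)) (D (1, 0, 0)) (u t) :=
      HasFDerivAt.comp_hasDerivAt (f := fun C => (C, v t, z t)) (u t) hd.hasFDerivAt a
    exact b.unique (d1 (u t) (v t) (z t))
  have e2 : D (0, 1, 0) = K2 (u t) (v t) (z t) := by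
    have a : HasDerivAt (fun S : ℝ => (u t, S, z t)) ((0 : ℝ), (1 : ℝ), (0 : ℝ)) (v t) :=
      (hasDerivAt_const _ _).prodMk ((hasDerivAt_id _).prodMk (hasDerivAt_const _ _))
    have b : HasDerivAt (fun S => K (u t) S (z t)) (D (0, 1, 0)) (v t) :=
      HasFDerivAt.comp_hasDerivAt (f := fun S => (u t, S, z t)) (v t) hd.hasFDerivAt a
    exact b.unique (d2 (u t) (v t) (z t))
  have e3 : D (0, 0, 1) = K3 (u t) (v t) (z t) := by
    have a : HasDerivAt (fun x : ℝ => (u t, v t, x)) ((0 : ℝ), (0 : ℝ), (1 : ℝ)) (z t) :=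
      (hasDerivAt_const _ _).prodMk ((hasDerivAt_const _ _).prodMk (hasDerivAt_id _))
    have b : HasDerivAt (fun x => K (u t) (v t) x) (D (0, 0, 1)) (z t) :=
      HasFDerivAt.comp_hasDerivAt (f := fun x => (u t, v t, x)) (z t) hd.hasFDerivAt a
    exact b.unique (d3 (u t) (v t) (z t))
  have e : ((u', v', z') : ℝ × ℝ × ℝ) = u' • (1, 0, 0) + v' • (0, 1, 0) + z' • (0, 0, 1) := by
    ext <;> simp
  rw [e, map_add, map_add, map_smul, map_smul, map_smul, e1, e2, e3]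
  simp only [smul_eq_mul]

include h0 h1 hf

omit hf hK d1 d2 d3 in
theorem Sa_le (t : ℝ) : |Sa s t| ≤ 1 := by
  have := CS h0 h1 t
  exact abs_le_one_iff_mul_self_le_one.2 (by nlinarith [sq_nonneg (Ca s t)])

omit hf hK d1 d2 d3 in
theorem Ca_le (t : ℝ) : |Ca s t| ≤ 1 := by
  have := CS h0 h1 t
  exact abs_le_one_iff_mul_self_le_one.2 (by nlinarith [sq_nonneg (Sa s t)])

omit hf hK d1 d2 d3 in
theorem al_le (t : ℝ) : |al s 0 t| ≤ 1 / ce s 0 := by
  have hc := cpos h0 h1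
  rw [abs_of_pos (al_pos (hs h0 h1) t), le_div_iff₀ hc, mul_comm, al_eq h0 h1]
  nlinarith [sq_nonneg (s * Sa s t)]

omit hf hK d1 d2 d3 in
theorem lip_C : LipschitzWith (toNNReal (1 / ce s 0)) (Ca s) := by
  have hc := cpos h0 h1
  refine lipschitzWith_of_nnnorm_deriv_le (fun t => (der_CS h0 h1 t).1.differentiableAt) fun t => ?_
  rw [(der_CS h0 h1 t).1.deriv, ← NNReal.coe_le_coe, coe_nnnorm, Real.coe_toNNReal _ (by positivity),
    norm_neg, norm_mul, Real.norm_eq_abs, Real.norm_eq_abs]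
  calc |al s 0 t| * |Sa s t| ≤ 1 / ce s 0 * 1 :=
        mul_le_mul (al_le h0 h1 t) (Sa_le h0 h1 t) (abs_nonneg _) (by positivity)
    _ = _ := mul_one _

omit hf hK d1 d2 d3 in
theorem lip_S : LipschitzWith (toNNReal (1 / ce s 0)) (Sa s) := by
  have hc := cpos h0 h1
  refine lipschitzWith_of_nnnorm_deriv_le (fun t => (der_CS h0 h1 t).2.differentiableAt) fun t => ?_
  rw [(der_CS h0 h1 t).2.deriv, ← NNReal.coe_le_coe, coe_nnnorm, Real.coe_toNNReal _ (by positivity),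
    norm_mul, Real.norm_eq_abs, Real.norm_eq_abs]
  calc |al s 0 t| * |Ca s t| ≤ 1 / ce s 0 * 1 :=
        mul_le_mul (al_le h0 h1 t) (Ca_le h0 h1 t) (abs_nonneg _) (by positivity)
    _ = _ := mul_one _

omit hf hK d1 d2 d3 in
theorem lip_as : LipschitzWith 1 fun t => arcsin (pr s 0 t) := by
  refine lipschitzWith_of_nnnorm_deriv_le (fun t => (der_as h0 h1 t).differentiableAt) fun t => ?_
  rw [(der_as h0 h1 t).deriv, ← NNReal.coe_le_coe, coe_nnnorm, norm_neg, norm_mul, Real.norm_eq_abs,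
    Real.norm_eq_abs, abs_of_nonneg h0]
  calc s * |Sa s t| ≤ 1 * 1 := mul_le_mul h1.le (Sa_le h0 h1 t) (abs_nonneg _) zero_le_one
    _ = _ := by simp

omit hK d1 d2 d3 in
theorem lip_xs : ∃ C, LipschitzWith C (xs s f) := by
  have h := (hf.lip.sub (lip_as h0 h1))
  exact ⟨_, (lipschitzWith_smul (s / ce s 0)).comp h⟩

omit d1 d2 d3 in
/-- the potential along the curve -/
theorem ac_pot : AbsolutelyContinuousOnInterval (fun t => K (Ca s t) (Sa s t) (xs s f t)) 0 (2 * π) := by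
  obtain ⟨C, hC⟩ := lip_xs h0 h1 hf
  have l1 : LocallyLipschitz fun t => (Ca s t, Sa s t, xs s f t) :=
    ((lip_C h0 h1).prodMk ((lip_S h0 h1).prodMk hC)).locallyLipschitz
  have l2 := (hK.locallyLipschitz).comp l1
  obtain ⟨D, hD⟩ := LocallyLipschitzOn.exists_lipschitzOnWith_of_compact (isCompact_uIcc (a := (0 : ℝ))
    (b := 2 * π)) (l2.locallyLipschitzOn)
  exact hD.absolutelyContinuousOnInterval

theorem hj_int (hL : Continuous fun p : ℝ × ℝ × ℝ => L p.1 p.2.1 p.2.2)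
    (H1 : ∀ t, (1 - s * Sa s t) * (L (Ca s t) (Sa s t) (xs s f t)
      + (Ca s t * K2 (Ca s t) (Sa s t) (xs s f t) - Sa s t * K1 (Ca s t) (Sa s t) (xs s f t)))
      + s * K3 (Ca s t) (Sa s t) (xs s f t) ≤ 0)
    (H2 : ∀ t, (1 + s * Sa s t) * (L (Ca s t) (Sa s t) (xs s f t)
      + (Ca s t * K2 (Ca s t) (Sa s t) (xs s f t) - Sa s t * K1 (Ca s t) (Sa s t) (xs s f t)))
      - s * K3 (Ca s t) (Sa s t) (xs s f t) ≤ 0) :
    ∫ t in (0 : ℝ)..(2 * π), L (Ca s t) (Sa s t) (xs s f t) * al s 0 t ≤ 0 := by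
  have hc := cpos h0 h1
  have hac := ac_pot h0 h1 hf hK
  have hper : K (Ca s (2 * π)) (Sa s (2 * π)) (xs s f (2 * π)) = K (Ca s 0) (Sa s 0) (xs s f 0) := by
    have e1 : Ca s (2 * π) = Ca s 0 := by
      unfold Ca wt pr
      simp
    have e2 : Sa s (2 * π) = Sa s 0 := by
      unfold Sa wt pr
      simp
    have e3 : xs s f (2 * π) = xs s f 0 := by
      have := hf.per 0
      rw [zero_add] at this
      unfold xs pr
      rw [this]
      simp
    rw [e1, e2, e3]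
  have hI := hac.integral_deriv_eq_sub
  rw [hper, sub_self] at hI
  have cC : Continuous (Ca s) := (lip_C h0 h1).continuous
  have cS : Continuous (Sa s) := (lip_S h0 h1).continuous
  obtain ⟨D, hD⟩ := lip_xs h0 h1 hf
  have cx : Continuous (xs s f) := hD.continuous
  have cL : Continuous fun t => L (Ca s t) (Sa s t) (xs s f t) * al s 0 t :=
    (hL.comp (cC.prodMk (cS.prodMk cx))).mul (C54.cont_al (hs h0 h1))
  have e : ∫ t in (0 : ℝ)..(2 * π), L (Ca s t) (Sa s t) (xs s f t) * al s 0 t =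
      ∫ t in (0 : ℝ)..(2 * π), (L (Ca s t) (Sa s t) (xs s f t) * al s 0 t
        + deriv (fun t => K (Ca s t) (Sa s t) (xs s f t)) t) := by
    rw [intervalIntegral.integral_add (cL.intervalIntegrable _ _) hac.intervalIntegrable_deriv, hI,
      add_zero]
  rw [e]
  have hnn : 0 ≤ ∫ t in (0 : ℝ)..(2 * π), -(L (Ca s t) (Sa s t) (xs s f t) * al s 0 t
        + deriv (fun t => K (Ca s t) (Sa s t) (xs s f t)) t) := by
    refine intervalIntegral.integral_nonneg_of_ae (by positivity) ?_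
    filter_upwards [hf.lip.ae_differentiableAt_real] with t ht
    have hft : |deriv f t| ≤ 1 := by
      have := norm_deriv_le_of_lipschitz (x₀ := t) hf.lip
      simpa using this
    have hd := chain hK d1 d2 d3 (der_CS h0 h1 t).1 (der_CS h0 h1 t).2 (der_xs h0 h1 ht.hasDerivAt)
    rw [hd.deriv]
    have ha := al_eq h0 h1 t
    have hS := abs_le.1 (Sa_le h0 h1 t)
    have g1 := H1 t
    have g2 := H2 t
    set S := Sa s t
    set C := Ca s t
    set G := L C S (xs s f t) + (C * K2 C S (xs s f t) - S * K1 C S (xs s f t)) with hG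
    set k3 := K3 C S (xs s f t)
    set p := deriv f t
    have hp := abs_le.1 hft
    have hS1 : 0 ≤ 1 + s * S := by nlinarith
    have hS2 : 0 ≤ 1 - s * S := by nlinarith
    have key : ce s 0 * (L C S (xs s f t) * al s 0 t + (-(al s 0 t * S) * K1 C S (xs s f t)
        + al s 0 t * C * K2 C S (xs s f t) + s / ce s 0 * (p + s * S) * k3))
        = (1 + p) / 2 * ((1 + s * S) * ((1 - s * S) * G + s * k3))
          + (1 - p) / 2 * ((1 - s * S) * ((1 + s * S) * G - s * k3)) := by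
      have e1 : ce s 0 * (s / ce s 0 * (p + s * S) * k3) = s * (p + s * S) * k3 := by
        field_simp
      rw [mul_add, mul_add, e1, hG]
      linear_combination (L C S (xs s f t) + (C * K2 C S (xs s f t) - S * K1 C S (xs s f t))) * ha
    have m1 : (1 + p) / 2 * ((1 + s * S) * ((1 - s * S) * G + s * k3)) ≤ 0 :=
      mul_nonpos_of_nonneg_of_nonpos (by linarith) (mul_nonpos_of_nonneg_of_nonpos hS1 g1)
    have m2 : (1 - p) / 2 * ((1 - s * S) * ((1 + s * S) * G - s * k3)) ≤ 0 :=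
      mul_nonpos_of_nonneg_of_nonpos (by linarith) (mul_nonpos_of_nonneg_of_nonpos hS2 g2)
    have m3 : ce s 0 * (L C S (xs s f t) * al s 0 t + (-(al s 0 t * S) * K1 C S (xs s f t)
        + al s 0 t * C * K2 C S (xs s f t) + s / ce s 0 * (p + s * S) * k3)) ≤ 0 := by
      rw [key]
      linarith
    have m4 := nonpos_of_mul_nonpos_right m3 hc
    simp only [Pi.zero_apply]
    linarith
  rw [intervalIntegral.integral_neg] at hnn
  linarith

/-- the two conditions at `s = 1` imply those at every `s` -/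
theorem hj_one (hL : Continuous fun p : ℝ × ℝ × ℝ => L p.1 p.2.1 p.2.2)
    (H1 : ∀ t, (1 - Sa s t) * (L (Ca s t) (Sa s t) (xs s f t)
      + (Ca s t * K2 (Ca s t) (Sa s t) (xs s f t) - Sa s t * K1 (Ca s t) (Sa s t) (xs s f t)))
      + K3 (Ca s t) (Sa s t) (xs s f t) ≤ 0)
    (H2 : ∀ t, (1 + Sa s t) * (L (Ca s t) (Sa s t) (xs s f t)
      + (Ca s t * K2 (Ca s t) (Sa s t) (xs s f t) - Sa s t * K1 (Ca s t) (Sa s t) (xs s f t)))
      - K3 (Ca s t) (Sa s t) (xs s f t) ≤ 0) :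
    ∫ t in (0 : ℝ)..(2 * π), L (Ca s t) (Sa s t) (xs s f t) * al s 0 t ≤ 0 := by
  refine hj_int h0 h1 hf hK d1 d2 d3 hL (fun t => ?_) (fun t => ?_)
  · have g1 := H1 t
    have g2 := H2 t
    nlinarith
  · have g1 := H1 t
    have g2 := H2 t
    nlinarith

/-- the same with conditions on the set `|x| ≤ b` of the cylinder -/
theorem hj_cyl {b : ℝ} (hL : Continuous fun p : ℝ × ℝ × ℝ => L p.1 p.2.1 p.2.2)
    (hb : ∀ t, |xs s f t| ≤ b)
    (H1 : ∀ C S x, C ^ 2 + S ^ 2 = 1 → |x| ≤ b →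
      (1 - S) * (L C S x + (C * K2 C S x - S * K1 C S x)) + K3 C S x ≤ 0)
    (H2 : ∀ C S x, C ^ 2 + S ^ 2 = 1 → |x| ≤ b →
      (1 + S) * (L C S x + (C * K2 C S x - S * K1 C S x)) - K3 C S x ≤ 0) :
    ∫ t in (0 : ℝ)..(2 * π), L (Ca s t) (Sa s t) (xs s f t) * al s 0 t ≤ 0 :=
  hj_one h0 h1 hf hK d1 d2 d3 hL (fun t => H1 _ _ _ (CS h0 h1 t) (hb t))
    (fun t => H2 _ _ _ (CS h0 h1 t) (hb t))

end main

end Pool.Agent.FPX.HJC
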