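import Mathlib
import Pool.Agent.FPX.CERQ
import Pool.Agent.FPX.HJC

/-
SIG (helper8): `|σ| ≤ 9/25` for every state of the map F54, by the calibration lemma of `HJC` with a potential linear
in `x` and a majorant affine in the direction.
-/

open MeasureTheory Set Filter Topology Real
open scoped ComplexConjugate

noncomputable section

namespace Pool.Agent.FPX.SIG

open Pool.Agent.FPX Pool.Agent.FPX.HJC
open Pool.Agent.FPX.UMP (Ef)
open Pool.Agent.FPX.F54 (X1 X2 X_lt sF pr)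
open Pool.Agent.FPX.C54 (ep al ce wt kz int_kz int_al int_kz_zero cont_ep cont_al al_pos)

/-! ### the algebraic inequality -/

/-- the majorant -/
def qf (c d C S : ℝ) : ℝ :=
  18 / 25 - 3 / 50 * (1 - 2 * S ^ 2) + 51 / 100 * (c * (2 * C * S) - d * (1 - 2 * S ^ 2))
    - 21 / 100 * (c * (4 * C * S * (1 - 2 * S ^ 2)) - d * (1 - 8 * S ^ 2 + 8 * S ^ 4))

/-- the potential divided by `x / 3` -/
def kf (c d C S : ℝ) : ℝ :=
  c * (C * (1 - 4 * S ^ 2)) + d * (3 * S - 4 * S ^ 3) - 43 / 100 * (c * C + d * S) - 149 / 100 * S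

theorem poly {S : ℝ} (h1 : -1 ≤ S) (h2 : S ≤ 1) :
    0 ≤ 207 / 10000 - 153 / 2500 * S - 543 / 10000 * S ^ 2 + 219 / 1250 * S ^ 3 + 273 / 2500 * S ^ 4
      - 18 / 625 * S ^ 5 + 9 / 625 * S ^ 6 := by
  have q2 : S ^ 2 ≤ 1 := by nlinarith
  have p2 : 0 ≤ S ^ 2 := sq_nonneg S
  have p4 : 0 ≤ S ^ 4 := by positivity
  have q4 : S ^ 4 ≤ 1 := by nlinarith
  have p6 : 0 ≤ S ^ 6 := by positivity
  have q6 : S ^ 6 ≤ 1 := by nlinarith
  have a3 : |S ^ 3| ≤ 1 := by
    rw [abs_pow]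
    exact pow_le_one₀ (abs_nonneg _) (abs_le.2 ⟨h1, h2⟩)
  have a5 : |S ^ 5| ≤ 1 := by
    rw [abs_pow]
    exact pow_le_one₀ (abs_nonneg _) (abs_le.2 ⟨h1, h2⟩)
  have hA := sq_nonneg (-(1 / 1250) - 1071 / 5000 * S + 441 / 2500 * S ^ 2 + 571 / 1250 * S ^ 3)
  have hB := mul_nonneg (sub_nonneg.2 q2) (sq_nonneg (-(357 / 2500) + 431 / 2000 * S + 551 / 1250 * S ^ 2))
  have b3 := abs_le.1 a3
  have b5 := abs_le.1 a5
  nlinarith [hA, hB, b3.1, b3.2, b5.1, b5.2]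

theorem main_ineq {c d C S : ℝ} (hc : c ^ 2 + d ^ 2 = 1) (hC : C ^ 2 + S ^ 2 = 1) :
    kf c d C S ≤ (1 - S) * qf c d C S := by
  have h1 : -1 ≤ S := by nlinarith [sq_nonneg C]
  have h2 : S ≤ 1 := by nlinarith [sq_nonneg C]
  set P := (1 - S) * (18 / 25 - 3 / 50 * (1 - 2 * S ^ 2)) + 149 / 100 * S with hP
  set w1 := (1 - 4 * S ^ 2) - 43 / 100 - (1 - S) * (51 / 50 * S - 21 / 25 * S * (1 - 2 * S ^ 2)) with hw1
  set w2 := (3 * S - 4 * S ^ 3) - 43 / 100 * S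
    + (1 - S) * (51 / 100 * (1 - 2 * S ^ 2) - 21 / 100 * (1 - 8 * S ^ 2 + 8 * S ^ 4)) with hw2
  have e : (1 - S) * qf c d C S - kf c d C S = P - (c * (C * w1) + d * w2) := by
    rw [hP, hw1, hw2, qf, kf]
    ring
  have hP0 : 0 ≤ P := by
    have e2 : P = 7 / 100 + (1 + S) * (83 / 100 + 12 / 100 * (S - 1) - 12 / 100 * (S ^ 2 - S + 1)) := by
      rw [hP]
      ring
    rw [e2]
    have : 0 ≤ 83 / 100 + 12 / 100 * (S - 1) - 12 / 100 * (S ^ 2 - S + 1) := by nlinarith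
    have := mul_nonneg (by linarith : (0 : ℝ) ≤ 1 + S) this
    linarith
  have hW : (C * w1) ^ 2 + w2 ^ 2 ≤ P ^ 2 := by
    have e3 : (C * w1) ^ 2 = (1 - S ^ 2) * w1 ^ 2 := by
      rw [mul_pow]
      congr 1
      linarith
    rw [e3]
    have := poly h1 h2
    have e4 : P ^ 2 - ((1 - S ^ 2) * w1 ^ 2 + w2 ^ 2) = 207 / 10000 - 153 / 2500 * S - 543 / 10000 * S ^ 2
        + 219 / 1250 * S ^ 3 + 273 / 2500 * S ^ 4 - 18 / 625 * S ^ 5 + 9 / 625 * S ^ 6 := by
      rw [hP, hw1, hw2]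
      ring
    linarith
  have h3 : (c * (C * w1) + d * w2) ^ 2 ≤ P ^ 2 := by
    have e5 : (c * (C * w1) + d * w2) ^ 2 + (c * w2 - d * (C * w1)) ^ 2
        = (c ^ 2 + d ^ 2) * ((C * w1) ^ 2 + w2 ^ 2) := by ring
    rw [hc, one_mul] at e5
    exact (le_add_of_nonneg_right (sq_nonneg _)).trans (e5.le.trans hW)
  have h4 := abs_le_of_sq_le_sq h3 hP0
  have h5 := (abs_le.1 h4).2
  linarith

theorem main_ineq' {c d C S : ℝ} (hc : c ^ 2 + d ^ 2 = 1) (hC : C ^ 2 + S ^ 2 = 1) :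
    -kf c d C S ≤ (1 + S) * qf c d C S := by
  have h := main_ineq (C := -C) (S := -S) hc (by linarith)
  have e1 : kf c d (-C) (-S) = -kf c d C S := by
    unfold kf
    ring
  have e2 : qf c d (-C) (-S) = qf c d C S := by
    unfold qf
    ring
  rw [e1, e2] at h
  linarith

/-- a complex number with all its real projections bounded -/
theorem norm_le_of {z : ℂ} {b : ℝ} (h : ∀ c d : ℝ, c ^ 2 + d ^ 2 = 1 → c * z.im - d * z.re ≤ b) : ‖z‖ ≤ b := by
  by_cases hz : z = 0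
  · have := h 1 0 (by norm_num)
    simp [hz] at this ⊢
    exact this
  have hn : 0 < ‖z‖ := norm_pos_iff.2 hz
  have h2 : z.re ^ 2 + z.im ^ 2 = ‖z‖ ^ 2 := by
    rw [← Complex.normSq_eq_norm_sq, Complex.normSq_apply]
    ring
  have := h (z.im / ‖z‖) (-z.re / ‖z‖) (by
    rw [div_pow, div_pow, ← add_div, div_eq_one_iff_eq (by positivity)]
    linarith)
  have e : z.im / ‖z‖ * z.im - -z.re / ‖z‖ * z.re = ‖z‖ := by
    rw [div_mul_eq_mul_div, div_mul_eq_mul_div, ← sub_div, div_eq_iff hn.ne']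
    linarith
  linarith

/-! ### the state `(s, 0)` -/

section st

variable {s : ℝ} (h0 : 0 ≤ s) (h1 : s < 1) {f : ℝ → ℝ} (hf : Ef f)

include h0 h1

/-- the moments of `x` -/
def Mx (s : ℝ) (n : ℕ) (f : ℝ → ℝ) : ℂ :=
  ∫ t in (0 : ℝ)..(2 * π), (xs s f t : ℂ) * (ep s 0 t ^ n * (al s 0 t : ℂ))

omit h0 h1 in
theorem cont_xs (hf : Ef f) : Continuous (xs s f) := by
  unfold xs
  exact continuous_const.mul (hf.lip.continuous.sub (continuous_arcsin.comp F54B.cont_pr))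

theorem e3_eq (t : ℝ) : (ep s 0 t ^ 3).re = Ca s t * (1 - 4 * Sa s t ^ 2) ∧
    (ep s 0 t ^ 3).im = 3 * Sa s t - 4 * Sa s t ^ 3 := by
  have h := CS h0 h1 t
  rw [ep_eq h0 h1 t]
  generalize Ca s t = C at *
  generalize Sa s t = S at *
  have hC : C ^ 2 = 1 - S ^ 2 := by linarith
  constructor
  · simp only [pow_succ, pow_zero, one_mul, Complex.mul_re, Complex.mul_im]
    linear_combination C * hC
  · simp only [pow_succ, pow_zero, one_mul, Complex.mul_re, Complex.mul_im]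
    linear_combination 3 * S * hC

theorem e2_eq (t : ℝ) : (ep s 0 t ^ 2).re = 1 - 2 * Sa s t ^ 2 ∧
    (ep s 0 t ^ 2).im = 2 * Ca s t * Sa s t := by
  have h := CS h0 h1 t
  rw [ep_eq h0 h1 t]
  generalize Ca s t = C at *
  generalize Sa s t = S at *
  have hC : C ^ 2 = 1 - S ^ 2 := by linarith
  constructor
  · simp only [pow_succ, pow_zero, one_mul, Complex.mul_re]
    linear_combination hC
  · simp only [pow_succ, pow_zero, one_mul, Complex.mul_im]
    ring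

theorem e4_eq (t : ℝ) : (ep s 0 t ^ 4).re = 1 - 8 * Sa s t ^ 2 + 8 * Sa s t ^ 4 ∧
    (ep s 0 t ^ 4).im = 4 * Ca s t * Sa s t * (1 - 2 * Sa s t ^ 2) := by
  have h := CS h0 h1 t
  obtain ⟨a, b⟩ := e2_eq h0 h1 t
  have e : ep s 0 t ^ 4 = ep s 0 t ^ 2 * ep s 0 t ^ 2 := by ring
  rw [e, Complex.mul_re, Complex.mul_im, a, b]
  generalize Ca s t = C at *
  generalize Sa s t = S at *
  have hC : C ^ 2 = 1 - S ^ 2 := by linarith
  constructor
  · linear_combination (-4 * S ^ 2) * hC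
  · ring

/-- the integral of the calibration function -/
theorem int_L (hf : Ef f) (c d : ℝ) :
    ∫ t in (0 : ℝ)..(2 * π), (xs s f t * (c * (3 * Sa s t - 4 * Sa s t ^ 3) - d * (Ca s t * (1 - 4 * Sa s t ^ 2))
      + 43 / 300 * (d * Ca s t - c * Sa s t) + 149 / 300 * Ca s t) - qf c d (Ca s t) (Sa s t) / 3) * al s 0 t =
      (c * (Mx s 3 f).im - d * (Mx s 3 f).re) + 43 / 300 * (d * (Mx s 1 f).re - c * (Mx s 1 f).im)
        + 149 / 300 * (Mx s 1 f).re - 12 * π / 25 := by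
  have hs := HJC.hs h0 h1
  have cx := cont_xs (s := s) hf
  have ce' := cont_ep hs
  have ca := cont_al hs
  have cM : ∀ n : ℕ, Continuous fun t => (xs s f t : ℂ) * (ep s 0 t ^ n * (al s 0 t : ℂ)) := fun n =>
    (Complex.continuous_ofReal.comp cx).mul ((ce'.pow n).mul (Complex.continuous_ofReal.comp ca))
  have cK : ∀ n : ℤ, Continuous fun t => kz n s 0 t := fun n => C54.cont_kz hs n
  have re : ∀ (g : ℝ → ℂ), Continuous g → ∫ t in (0 : ℝ)..(2 * π), (g t).re = (∫ t in (0 : ℝ)..(2 * π), g t).re :=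
    fun g hg => Complex.reCLM.intervalIntegral_comp_comm (hg.intervalIntegrable 0 (2 * π))
  set z3 : ℂ := ⟨-d, -c⟩ with hz3
  set z1 : ℂ := ⟨43 / 300 * d + 149 / 300, 43 / 300 * c⟩ with hz1
  set y2 : ℂ := ⟨-3 / 50 - 51 / 100 * d, -(51 / 100 * c)⟩ with hy2
  set y4 : ℂ := ⟨21 / 100 * d, 21 / 100 * c⟩ with hy4
  set g : ℝ → ℂ := fun t => z3 * ((xs s f t : ℂ) * (ep s 0 t ^ 3 * (al s 0 t : ℂ)))
    + z1 * ((xs s f t : ℂ) * (ep s 0 t ^ 1 * (al s 0 t : ℂ)))
    - ((1 / 3 : ℝ) : ℂ) * (((18 / 25 : ℝ) : ℂ) * kz 0 s 0 t + y2 * kz 2 s 0 t + y4 * kz 4 s 0 t) with hg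
  have e : ∀ t, (xs s f t * (c * (3 * Sa s t - 4 * Sa s t ^ 3) - d * (Ca s t * (1 - 4 * Sa s t ^ 2))
      + 43 / 300 * (d * Ca s t - c * Sa s t) + 149 / 300 * Ca s t) - qf c d (Ca s t) (Sa s t) / 3) * al s 0 t =
      (g t).re := by
    intro t
    obtain ⟨a2, b2⟩ := e2_eq h0 h1 t
    obtain ⟨a3, b3⟩ := e3_eq h0 h1 t
    obtain ⟨a4, b4⟩ := e4_eq h0 h1 t
    have k0 : kz 0 s 0 t = (al s 0 t : ℂ) := by simp [kz]
    have k2 : kz 2 s 0 t = (al s 0 t : ℂ) * ep s 0 t ^ 2 := by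
      unfold kz
      norm_cast
    have k4 : kz 4 s 0 t = (al s 0 t : ℂ) * ep s 0 t ^ 4 := by
      unfold kz
      norm_cast
    have a1 : (ep s 0 t ^ 1).re = Ca s t := by rw [pow_one, ep_eq h0 h1]
    have b1 : (ep s 0 t ^ 1).im = Sa s t := by rw [pow_one, ep_eq h0 h1]
    simp only [hg, k0, k2, k4, hz3, hz1, hy2, hy4, Complex.sub_re, Complex.add_re, Complex.mul_re,
      Complex.mul_im, Complex.add_im, Complex.ofReal_re, Complex.ofReal_im, a1, b1, a2, b2, a3, b3, a4, b4]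
    unfold qf
    ring
  have cg : Continuous g := by
    refine ((continuous_const.mul (cM 3)).add (continuous_const.mul (cM 1))).sub (continuous_const.mul ?_)
    exact ((continuous_const.mul (cK 0)).add (continuous_const.mul (cK 2))).add (continuous_const.mul (cK 4))
  rw [intervalIntegral.integral_congr fun t _ => e t, re g cg]
  have i : ∀ {h : ℝ → ℂ}, Continuous h → IntervalIntegrable h volume 0 (2 * π) := fun hh =>
    hh.intervalIntegrable _ _
  have eg : ∫ t in (0 : ℝ)..(2 * π), g t = z3 * Mx s 3 f + z1 * Mx s 1 f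
      - ((1 / 3 : ℝ) : ℂ) * (((18 / 25 : ℝ) : ℂ) * (2 * π) + y2 * 0 + y4 * 0) := by
    have c3 : Continuous fun t => z3 * ((xs s f t : ℂ) * (ep s 0 t ^ 3 * (al s 0 t : ℂ))) :=
      continuous_const.mul (cM 3)
    have c1 : Continuous fun t => z1 * ((xs s f t : ℂ) * (ep s 0 t ^ 1 * (al s 0 t : ℂ))) :=
      continuous_const.mul (cM 1)
    have c31 : Continuous fun t => z3 * ((xs s f t : ℂ) * (ep s 0 t ^ 3 * (al s 0 t : ℂ)))
        + z1 * ((xs s f t : ℂ) * (ep s 0 t ^ 1 * (al s 0 t : ℂ))) := c3.add c1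
    have d0 : Continuous fun t => ((18 / 25 : ℝ) : ℂ) * kz 0 s 0 t := continuous_const.mul (cK 0)
    have d2 : Continuous fun t => y2 * kz 2 s 0 t := continuous_const.mul (cK 2)
    have d4 : Continuous fun t => y4 * kz 4 s 0 t := continuous_const.mul (cK 4)
    have d02 : Continuous fun t => ((18 / 25 : ℝ) : ℂ) * kz 0 s 0 t + y2 * kz 2 s 0 t := d0.add d2
    have dd : Continuous fun t => ((1 / 3 : ℝ) : ℂ) * (((18 / 25 : ℝ) : ℂ) * kz 0 s 0 t + y2 * kz 2 s 0 t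
        + y4 * kz 4 s 0 t) := continuous_const.mul (d02.add d4)
    simp only [hg]
    rw [intervalIntegral.integral_sub (i c31) (i dd), intervalIntegral.integral_add (i c3) (i c1),
      intervalIntegral.integral_const_mul, intervalIntegral.integral_const_mul,
      intervalIntegral.integral_const_mul, intervalIntegral.integral_add (i d02) (i d4),
      intervalIntegral.integral_add (i d0) (i d2), intervalIntegral.integral_const_mul,
      intervalIntegral.integral_const_mul, intervalIntegral.integral_const_mul, int_kz_zero hs,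
      int_kz hs (by norm_num), int_kz hs (by norm_num)]
    rfl
  rw [eg]
  simp only [hz3, hz1, hy2, hy4, Complex.sub_re, Complex.add_re, Complex.mul_re, Complex.mul_im,
    Complex.ofReal_re, Complex.ofReal_im, mul_zero, add_zero, Complex.re_ofNat, Complex.im_ofNat]
  ring

/-- the bound of the third moment -/
theorem M3_le (hf : Ef f) (hM : Mx s 1 f = 0) : ‖Mx s 3 f‖ ≤ 12 * π / 25 := by
  refine norm_le_of fun c d hcd => ?_
  set K : ℝ → ℝ → ℝ → ℝ := fun C S x => x / 3 * kf c d C S with hK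
  set K1 : ℝ → ℝ → ℝ → ℝ := fun C S x => x / 3 * (c * (1 - 4 * S ^ 2) - 43 / 100 * c) with hK1
  set K2 : ℝ → ℝ → ℝ → ℝ := fun C S x => x / 3 * (c * (C * (-(8 * S))) + d * (3 - 12 * S ^ 2) - 43 / 100 * d
    - 149 / 100) with hK2
  set K3 : ℝ → ℝ → ℝ → ℝ := fun C S x => 1 / 3 * kf c d C S with hK3
  set L : ℝ → ℝ → ℝ → ℝ := fun C S x => -(C * K2 C S x - S * K1 C S x) - qf c d C S / 3 with hL
  have main := hj_one h0 h1 hf (K := K) (K1 := K1) (K2 := K2) (K3 := K3) (L := L) ?_ ?_ ?_ ?_ ?_ ?_ ?_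
  · have e : ∀ t, L (Ca s t) (Sa s t) (xs s f t) * al s 0 t =
        (xs s f t * (c * (3 * Sa s t - 4 * Sa s t ^ 3) - d * (Ca s t * (1 - 4 * Sa s t ^ 2))
      + 43 / 300 * (d * Ca s t - c * Sa s t) + 149 / 300 * Ca s t) - qf c d (Ca s t) (Sa s t) / 3) * al s 0 t := by
      intro t
      have h := CS h0 h1 t
      congr 1
      simp only [hL, hK1, hK2]
      have hC : Ca s t ^ 2 = 1 - Sa s t ^ 2 := by linarith
      linear_combination (xs s f t / 3 * (8 * c * Sa s t)) * hC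
    rw [intervalIntegral.integral_congr fun t _ => e t, int_L h0 h1 hf, hM] at main
    simp only [Complex.zero_re, Complex.zero_im, mul_zero, sub_zero, add_zero] at main
    linarith
  · simp only [hK, kf]
    fun_prop
  · intro C S x
    simp only [hK, hK1, kf]
    have := (((((hasDerivAt_id C).mul_const (1 - 4 * S ^ 2)).const_mul c).add_const (d * (3 * S - 4 * S ^ 3))).sub
      (((((hasDerivAt_id C).const_mul c).add_const (d * S)).const_mul (43 / 100)))).sub_const (149 / 100 * S)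
    refine (this.const_mul (x / 3)).congr_deriv ?_
    ring
  · intro C S x
    simp only [hK, hK2, kf]
    have hS2 := (hasDerivAt_pow 2 S)
    have hS3 := (hasDerivAt_pow 3 S)
    have := ((((((hS2.const_mul 4).const_sub 1).const_mul C).const_mul c).add
      ((((hasDerivAt_id S).const_mul 3).sub (hS3.const_mul 4)).const_mul d)).sub
      ((((hasDerivAt_id S).const_mul d).const_add (c * C)).const_mul (43 / 100))).sub
        ((hasDerivAt_id S).const_mul (149 / 100))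
    refine (this.const_mul (x / 3)).congr_deriv ?_
    ring
  · intro C S x
    simp only [hK, hK3]
    refine (((hasDerivAt_id x).div_const 3).mul_const (kf c d C S)).congr_deriv ?_
    ring
  · simp only [hL, hK1, hK2, qf]
    fun_prop
  · intro t
    have h := main_ineq hcd (CS h0 h1 t)
    simp only [hL, hK3]
    nlinarith
  · intro t
    have h := main_ineq' hcd (CS h0 h1 t)
    simp only [hL, hK3]
    nlinarith

theorem sg_le (hf : Ef f) (hM : C54.Cm 1 s 0 f = 0) : ‖F54.sg s 0 f‖ ≤ 9 / 25 := by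
  have hs := HJC.hs h0 h1
  have hc := cpos h0 h1
  have e : ∀ n : ℕ, Mx s n f = ((s / ce s 0 * π : ℝ) : ℂ) * C54.Cm n s 0 f := by
    intro n
    unfold Mx C54.Cm
    have e1 : ∀ t, (xs s f t : ℂ) * (ep s 0 t ^ n * (al s 0 t : ℂ)) =
        ((s / ce s 0 : ℝ) : ℂ) * (((f t - arcsin (pr s 0 t) : ℝ) : ℂ) * C54.KK n s 0 t) := by
      intro t
      rw [C54.KK_eq hs]
      unfold xs
      push_cast
      ring
    rw [intervalIntegral.integral_congr fun t _ => e1 t, intervalIntegral.integral_const_mul]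
    have : (π : ℂ) ≠ 0 := by exact_mod_cast pi_ne_zero
    push_cast
    field_simp
  have h3 := M3_le h0 h1 hf (by rw [e 1, hM, mul_zero])
  rw [e 3, norm_mul, Complex.norm_real, Real.norm_eq_abs, abs_of_nonneg (by positivity)] at h3
  have e2 : F54.sg s 0 f = (3 / 4 : ℂ) * (conj (⟨s, 0⟩ : ℂ) / (ce s 0 : ℂ)) * C54.Cm 3 s 0 f := rfl
  have e3 : ‖(⟨s, 0⟩ : ℂ)‖ = s := by
    have : (⟨s, 0⟩ : ℂ) = (s : ℂ) := rfl
    rw [this, Complex.norm_real, Real.norm_eq_abs, abs_of_nonneg h0]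
  have e4 : ‖(3 / 4 : ℂ)‖ = 3 / 4 := by norm_num
  have e6 : ‖conj (⟨s, 0⟩ : ℂ) / (ce s 0 : ℂ)‖ = s / ce s 0 := by
    rw [norm_div, RCLike.norm_conj, e3, Complex.norm_real, Real.norm_eq_abs, abs_of_pos hc]
  rw [e2, norm_mul, norm_mul, e6, e4]
  have hπ := pi_pos
  have e5 : s / ce s 0 * π * ‖C54.Cm 3 s 0 f‖ = π * (s / ce s 0 * ‖C54.Cm 3 s 0 f‖) := by ring
  rw [e5] at h3
  have h4 : s / ce s 0 * ‖C54.Cm 3 s 0 f‖ ≤ 12 / 25 := by
    refine le_of_mul_le_mul_left (h3.trans (le_of_eq ?_)) hπ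
    ring
  linarith

end st

/-- **the bound of `σ`** -/
theorem sF_le {f : ℝ → ℝ} (hf : Ef f) : ‖sF f‖ ≤ 9 / 25 := by
  obtain ⟨φ, r, hr0, hr1, hrs, hf', h1', h2', hx, hy⟩ := F54.exists_rot hf
  set f' : ℝ → ℝ := fun t => f (t + φ) with hf'def
  set x := X1 f with hxd
  set y := X2 f with hyd
  have hX : x ^ 2 + y ^ 2 < 1 := X_lt hf
  have hs := HJC.hs hr0 hr1
  obtain ⟨u, hu⟩ : ∃ u : ℂ, u = Complex.exp (φ * Complex.I) := ⟨_, rfl⟩
  have hun : ‖u‖ = 1 := by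
    rw [hu]
    exact Complex.norm_exp_ofReal_mul_I φ
  have hc1 : C54.Cm 1 r 0 f' = 0 := by
    have := F54.CF_one hf'
    rwa [h1', h2'] at this
  have key := sg_le hr0 hr1 hf' hc1
  have e1 : C54.Cm 3 x y f = u ^ 3 * C54.Cm 3 r 0 f' := by
    rw [S54.Cm_eq hX 3 f, OMS.ME_vm hX 3, S54.Cm_eq hs 3 f', OMS.ME_vm hs 3,
      CERQ.vm_rot hr0 hr1 hx hy]
    · have e0 : u ^ 3 * (2 * ∫ t, (S54.de r 0 f' t : ℂ) * ep r 0 t ^ 3 ∂(OMB.vm r 0)) =
          2 * ∫ t, u ^ 3 * ((S54.de r 0 f' t : ℂ) * ep r 0 t ^ 3) ∂(OMB.vm r 0) := by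
        rw [integral_const_mul]
        ring
      rw [e0]
      congr 1
      refine integral_congr_ae (Eventually.of_forall fun t => ?_)
      simp only
      have a1 : S54.de x y f (t + φ) = S54.de r 0 f' t := by
        unfold S54.de
        rw [CERQ.pr_rot' hx hy]
      rw [a1, CERQ.ep_rot hr0 hr1 hx hy, ← hu]

      ring
    · intro t
      have a2 : S54.de x y f (t + 2 * π) = S54.de x y f t := by
        unfold S54.de F54.pr
        rw [hf.per, cos_add_two_pi, sin_add_two_pi]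
      rw [a2, CERQ.ep_per]
  have e2 : sF f = (3 / 4 : ℂ) * (conj (⟨x, y⟩ : ℂ) / (C54.ce x y : ℂ)) * C54.Cm 3 x y f := rfl
  have e3 : F54.sg r 0 f' = (3 / 4 : ℂ) * (conj (⟨r, 0⟩ : ℂ) / (C54.ce r 0 : ℂ)) * C54.Cm 3 r 0 f' := rfl
  have e4 : ‖(⟨x, y⟩ : ℂ)‖ = ‖(⟨r, 0⟩ : ℂ)‖ := by
    have n : ∀ a b : ℝ, ‖(⟨a, b⟩ : ℂ)‖ = √(a ^ 2 + b ^ 2) := fun a b => by
      rw [Complex.norm_def, Complex.normSq_mk]
      congr 1
      ring
    rw [n, n, CERQ.sq_rot hx hy]
    congr 1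
    ring
  rw [e3] at key
  rw [e2, e1]
  refine le_trans (le_of_eq ?_) key
  have e5 : ‖conj (⟨x, y⟩ : ℂ) / (ce x y : ℂ)‖ = ‖conj (⟨r, 0⟩ : ℂ) / (ce r 0 : ℂ)‖ := by
    rw [norm_div, norm_div, RCLike.norm_conj, RCLike.norm_conj, e4, CERQ.ce_rot hx hy]
  rw [norm_mul, norm_mul, norm_mul, norm_mul, norm_mul, e5, norm_pow, hun, one_pow, one_mul]

end Pool.Agent.FPX.SIG
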