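import Mathlib
import Pool.Agent.FPX.BTJ
import Pool.Agent.FPX.SIG

/-
BTK (helper15): latitude cells for the class `C9` with approximate control points (quadratic Bernstein control points plus a
small remainder of the coefficient vector).
-/

open MeasureTheory Set Filter Topology Real
open scoped ComplexConjugate

noncomputable section

set_option linter.unusedSectionVars false

namespace Pool.Agent.FPX.BTI

open Pool.Agent.FPX.BTG (Sta Cls mo aK bK dev)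
open Pool.Agent.FPX.CRD (Bm)
open Pool.Agent.FPX.ALX
open Pool.Agent.FPX.BTN (va e1 nf ef bw)
open Pool.Agent.FPX.UMP (Ef)
open Pool.Agent.FPX.F54 (X1 X2 X_lt X_G1 X_G2)
open Pool.Agent.FPX.CERQ (xT)

variable {Q : Type} [Fintype Q] {Ψ : Psi9 Q} {f : ℝ → ℝ}

theorem mo0 (hf : Ef f) (h0 : 0 ≤ X1 f) (h2 : X2 f = 0) :
    ‖mo (C9 Ψ) (nf f) (xT f) (ef f) 0‖ ≤ 1 / 4 := by
  have e : mo (C9 Ψ) (nf f) (xT f) (ef f) 0 = BTN.M3 (nf f) (xT f) (ef f) := rfl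
  rw [e]
  rcases h0.lt_or_eq with hs | hs
  · have h := SIG.sF_le hf
    rw [BTN.sF_eq hf hs h2] at h
    unfold BTN.sg at h
    rw [norm_mul] at h
    have : ‖(3 / 2 : ℂ)‖ = 3 / 2 := by norm_num
    rw [this] at h
    linarith
  · have hx : ∀ t, xT f t = 0 := fun t => by
      have h := BTN.xT_bd hf h0 h2 t
      rw [← hs, mul_zero] at h
      exact abs_nonpos_iff.1 h
    unfold BTN.M3
    simp only [hx, Complex.ofReal_zero, zero_mul, integral_zero, norm_zero]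
    norm_num

theorem sml (hf : Ef f) (h0 : 0 ≤ X1 f) (h2 : X2 f = 0) : Sml Ψ (nf f) (xT f) (ef f) where
  toSta := BTG.sta hf h0 h2
  hx := fun t => (BTN.xT_bd hf h0 h2 t).trans (by
    have := ALY.s_lt hf h0 h2
    linarith)
  h3 := mo0 hf h0 h2

/-- the deviation for close coefficients -/
theorem dev_near {X : Type*} [MeasurableSpace X] {ν : Measure X} {D : X → ℝ} {E : X → ℂ} {u u' : Q → ℝ}
    {A B : ℂ} {K : X → ℂ} {d : Q → ℝ}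
    (hd : ∀ q, ‖(C9 Ψ).ψ q (mo (C9 Ψ) ν D E) A B (aK (C9 Ψ) ν D E K) (bK (C9 Ψ) ν D E K)‖ ≤ d q)
    {δ U : ℝ} (hδ : ∑ q, |u' q - u q| * d q ≤ δ) (hU : ∑ q, |u q| * d q ≤ U) :
    ‖dev (C9 Ψ) u' (mo (C9 Ψ) ν D E) A B (aK (C9 Ψ) ν D E K) (bK (C9 Ψ) ν D E K)‖ ^ 2 ≤
      ‖dev (C9 Ψ) u (mo (C9 Ψ) ν D E) A B (aK (C9 Ψ) ν D E K) (bK (C9 Ψ) ν D E K)‖ ^ 2 + δ * (2 * U + δ) := by
  unfold dev
  set y : Q → ℂ := fun q => (C9 Ψ).ψ q (mo (C9 Ψ) ν D E) A B (aK (C9 Ψ) ν D E K) (bK (C9 Ψ) ν D E K) with hy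
  have a1 : ‖∑ q, (u q : ℂ) * y q‖ ≤ U := by
    refine ((norm_sum_le _ _).trans (Finset.sum_le_sum fun q _ => ?_)).trans hU
    rw [norm_mul, Complex.norm_real, Real.norm_eq_abs]
    exact mul_le_mul_of_nonneg_left (hd q) (abs_nonneg _)
  have a2 : ‖∑ q, ((u' q - u q : ℝ) : ℂ) * y q‖ ≤ δ := by
    refine ((norm_sum_le _ _).trans (Finset.sum_le_sum fun q _ => ?_)).trans hδ
    rw [norm_mul, Complex.norm_real, Real.norm_eq_abs]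
    exact mul_le_mul_of_nonneg_left (hd q) (abs_nonneg _)
  have e : ∑ q, (u' q : ℂ) * y q = ∑ q, (u q : ℂ) * y q + ∑ q, ((u' q - u q : ℝ) : ℂ) * y q := by
    rw [← Finset.sum_add_distrib]
    refine Finset.sum_congr rfl fun q _ => ?_
    push_cast
    ring
  have h := norm_add_le (∑ q, (u q : ℂ) * y q) (∑ q, ((u' q - u q : ℝ) : ℂ) * y q)
  rw [← e] at h
  have n0 := norm_nonneg (∑ q, (u' q : ℂ) * y q)
  have n1 := norm_nonneg (∑ q, (u q : ℂ) * y q)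
  have n2 := norm_nonneg (∑ q, ((u' q - u q : ℝ) : ℂ) * y q)
  have hδ0 : 0 ≤ δ := n2.trans a2
  calc ‖∑ q, (u' q : ℂ) * y q‖ ^ 2 ≤ (‖∑ q, (u q : ℂ) * y q‖ + δ) ^ 2 :=
        pow_le_pow_left₀ n0 (by linarith) 2
    _ = ‖∑ q, (u q : ℂ) * y q‖ ^ 2 + δ * (2 * ‖∑ q, (u q : ℂ) * y q‖ + δ) := by ring
    _ ≤ _ := by
      have : δ * (2 * ‖∑ q, (u q : ℂ) * y q‖ + δ) ≤ δ * (2 * U + δ) :=
        mul_le_mul_of_nonneg_left (by linarith) hδ0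
      linarith

/-- a priori bounds of the terms of the deviation -/
def PsiLe (Ψ : Psi9 Q) (d : Q → ℝ) : Prop :=
  ∀ (m : M9) (A B N M S R G : ℂ), ‖m 0‖ ≤ 1 / 4 → ‖m 3‖ ≤ (31 / 50) ^ 2 → ‖m 4‖ ≤ (31 / 50) ^ 2 →
    ‖m 5‖ ≤ (31 / 50) ^ 2 → ‖A‖ ≤ 8 / 5 → ‖B‖ ≤ 8 / 5 → ‖N‖ ≤ 117 / 25 → ‖M‖ ≤ 117 / 25 → ‖S‖ ≤ 3 → ‖R‖ ≤ 3 →
    ‖G‖ ≤ 31 / 50 → ∀ q, ‖Ψ q m A B N M S R G‖ ≤ d q

section

variable {X : Type*} [MeasurableSpace X] {ν : Measure X} {D : X → ℝ} {E : X → ℂ}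

theorem nm {m : M9} {A B R : ℂ} (h0 : ‖m 0‖ ≤ 1 / 4) (h1 : ‖m 1‖ ≤ 31 / 50) (hA : ‖A‖ ≤ 8 / 5)
    (hB : ‖B‖ ≤ 8 / 5) (hR : ‖R‖ ≤ 1) : ‖n9 m A B R‖ ≤ 117 / 25 ∧ ‖m9 m A B R‖ ≤ 117 / 25 := by
  have n0 := norm_nonneg (m 0)
  have n1 := norm_nonneg (m 1)
  have key : ∀ P S : ℂ, ‖P‖ ≤ 8 / 5 → ‖S‖ ≤ 8 / 5 →
      ‖R + 5 / 2 * conj P * m 1 - 3 / 2 * (S - conj P) * m 0‖ ≤ 117 / 25 := by
    intro P S hP hS
    have t1 : ‖5 / 2 * conj P * m 1‖ ≤ 5 / 2 * (8 / 5) * (31 / 50) := by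
      rw [norm_mul, norm_mul, Complex.norm_conj]
      have : ‖(5 / 2 : ℂ)‖ = 5 / 2 := by norm_num
      rw [this]
      gcongr
    have t2 : ‖3 / 2 * (S - conj P) * m 0‖ ≤ 3 / 2 * (16 / 5) * (1 / 4) := by
      rw [norm_mul, norm_mul]
      have : ‖(3 / 2 : ℂ)‖ = 3 / 2 := by norm_num
      rw [this]
      have : ‖S - conj P‖ ≤ 16 / 5 := (norm_sub_le _ _).trans (by
        rw [Complex.norm_conj]
        linarith)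
      gcongr
    calc _ ≤ ‖R + 5 / 2 * conj P * m 1‖ + ‖3 / 2 * (S - conj P) * m 0‖ := norm_sub_le _ _
      _ ≤ (‖R‖ + ‖5 / 2 * conj P * m 1‖) + ‖3 / 2 * (S - conj P) * m 0‖ := by
        gcongr
        exact norm_add_le _ _
      _ ≤ 117 / 25 := by linarith
  exact ⟨key B A hB hA, key A B hA hB⟩

theorem sr {m : M9} {A B R : ℂ} (h0 : ‖m 0‖ ≤ 1 / 4) (h4 : ‖m 4‖ ≤ (31 / 50) ^ 2) (h5 : ‖m 5‖ ≤ (31 / 50) ^ 2)
    (hA : ‖A‖ ≤ 8 / 5) (hB : ‖B‖ ≤ 8 / 5) (hR : ‖R‖ ≤ 31 / 50) : ‖s9 m A B R‖ ≤ 3 ∧ ‖r9 m A B R‖ ≤ 3 := by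
  have n0 := norm_nonneg (m 0)
  have key : ∀ P S : ℂ, ‖P‖ ≤ 8 / 5 → ‖S‖ ≤ 8 / 5 →
      ‖R + conj P * (m 5 - m 0) - 1 / 2 * (S - conj P) * m 4‖ ≤ 3 := by
    intro P S hP hS
    have t1 : ‖conj P * (m 5 - m 0)‖ ≤ 8 / 5 * ((31 / 50) ^ 2 + 1 / 4) := by
      rw [norm_mul, Complex.norm_conj]
      have : ‖m 5 - m 0‖ ≤ (31 / 50) ^ 2 + 1 / 4 := (norm_sub_le _ _).trans (add_le_add h5 h0)
      gcongr
    have t2 : ‖1 / 2 * (S - conj P) * m 4‖ ≤ 1 / 2 * (16 / 5) * (31 / 50) ^ 2 := by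
      rw [norm_mul, norm_mul]
      have : ‖(1 / 2 : ℂ)‖ = 1 / 2 := by norm_num
      rw [this]
      have : ‖S - conj P‖ ≤ 16 / 5 := (norm_sub_le _ _).trans (by
        rw [Complex.norm_conj]
        linarith)
      gcongr
    calc _ ≤ ‖R + conj P * (m 5 - m 0)‖ + ‖1 / 2 * (S - conj P) * m 4‖ := norm_sub_le _ _
      _ ≤ (‖R‖ + ‖conj P * (m 5 - m 0)‖) + ‖1 / 2 * (S - conj P) * m 4‖ := by
        gcongr
        exact norm_add_le _ _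
      _ ≤ 3 := by
        have e1 : (8 : ℝ) / 5 * ((31 / 50) ^ 2 + 1 / 4) + 1 / 2 * (16 / 5) * (31 / 50) ^ 2 + 31 / 50 ≤ 3 := by
          norm_num
        linarith
  exact ⟨key B A hB hA, key A B hA hB⟩

/-- **perturbation of the coefficients for the class `C9`** -/
theorem NC_near (H : Sml Ψ ν D E) {v v' : V9} {u u' : Q → ℝ} {μ T : ℝ} (hμ : 0 ≤ μ) {d : Q → ℝ}
    (hΨ : PsiLe Ψ d) (h : BTG.NC (C9 Ψ) ν D E v u μ T) {δ U η : ℝ} (hδ : ∑ q, |u' q - u q| * d q ≤ δ)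
    (hU : ∑ q, |u q| * d q ≤ U) (hη : ∑ i, |v' i - v i| * c9 i + 2 * μ * (δ * (2 * U + δ)) ≤ η) :
    BTG.NC (C9 Ψ) ν D E v' u' μ (T + η) := by
  refine BTG.NC.near H.toSta hμ h (fun K hK hK1 A B hA hB => ?_) hη
  have := H.pr
  have hσ : ‖(C9 Ψ).σ (mo (C9 Ψ) ν D E)‖ ≤ 3 / 8 := by
    show ‖3 / 2 * mo (C9 Ψ) ν D E 0‖ ≤ 3 / 8
    rw [norm_mul]
    have h3 := H.h3
    have : ‖(3 / 2 : ℂ)‖ = 3 / 2 := by norm_num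
    rw [this]
    linarith
  obtain ⟨a, b⟩ := AB_le H.hE hK1 hσ hA hB
  have hx : ∀ t, ‖(D t : ℂ)‖ ≤ 31 / 50 := fun t => by
    rw [Complex.norm_real]
    exact H.hx t
  have hk : ∀ (φ : X → ℂ) (c : ℝ), 0 ≤ c → (∀ t, ‖φ t‖ ≤ c) → ‖∫ t, φ t * K t ∂ν‖ ≤ c ∧
      ‖∫ t, φ t * conj (K t) ∂ν‖ ≤ c := by
    intro φ c hc hφ
    refine ⟨nI fun t => ?_, nI fun t => ?_⟩
    · rw [norm_mul]
      calc ‖φ t‖ * ‖K t‖ ≤ c * 1 := mul_le_mul (hφ t) (hK1 t) (norm_nonneg _) hc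
        _ = c := mul_one c
    · rw [norm_mul, Complex.norm_conj]
      calc ‖φ t‖ * ‖K t‖ ≤ c * 1 := mul_le_mul (hφ t) (hK1 t) (norm_nonneg _) hc
        _ = c := mul_one c
  have k3 := hk (fun t => E t ^ 3) 1 zero_le_one fun t => by rw [norm_pow, H.hE, one_pow]
  have k2 := hk (fun t => (D t : ℂ) * E t ^ 2) (31 / 50) (by norm_num) fun t => by
    rw [norm_mul, norm_pow, H.hE, one_pow, mul_one]
    exact hx t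
  have k0 := hk (fun t => (D t : ℂ)) (31 / 50) (by norm_num) hx
  refine ⟨fun i => H.ph_le hK1 a b i, dev_near (fun q => ?_) hδ hU⟩
  exact hΨ _ A B _ _ _ _ _ H.h3 H.m3 H.m4 H.m5 a b (nm H.h3 H.m1 a b k3.2).1 (nm H.h3 H.m1 a b k3.1).2
    (sr H.h3 H.m4 H.m5 a b k2.2).1 (sr H.h3 H.m4 H.m5 a b k2.1).2 k0.1 q

end

/-- **a latitude cell with approximate control points** -/
theorem cell9 (hf : Ef f) (h0 : 0 ≤ X1 f) (h2 : X2 f = 0) {μ T : ℝ} (hμ : 0 ≤ μ) {s' : ℝ} (hs' : X1 f ≤ s')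
    (h1 : s' ≤ 1) {P : (ℝ → ℝ) → Prop} (hP : P (Xa (X1 f) f)) {κ : Type*} {S : Finset κ} {c : κ → ℝ}
    {v : κ → V9} {u : κ → Q → ℝ} (hc : ∀ j ∈ S, 0 ≤ c j) (hc1 : ∑ j ∈ S, c j = 1)
    (H : ∀ j ∈ S, ∀ X, St s' X → (∀ a, |X a| ≤ 31 / 50 * s') → P X → BTG.RW (C9 Ψ) va X e1 (v j) (u j) μ T)
    {v0 : V9} {u0 : Q → ℝ} {d : Q → ℝ} (hΨ : PsiLe Ψ d) {δ U η : ℝ}
    (hδ : ∑ q, |u0 q - (∑ j ∈ S, c j • u j) q| * d q ≤ δ) (hU : ∑ q, |(∑ j ∈ S, c j • u j) q| * d q ≤ U)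
    (hη : ∑ i, |v0 i - (∑ j ∈ S, c j • v j) i| * c9 i + 2 * μ * (δ * (2 * U + δ)) ≤ η) :
    BTG.NC (C9 Ψ) (nf f) (xT f) (ef f) v0 u0 μ (T + η) :=
  NC_near (sml hf h0 h2) hμ hΨ (BTG.cell hf h0 h2 hμ hs' h1 hP hc hc1 rfl rfl H) hδ hU hη

end Pool.Agent.FPX.BTI
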