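import Mathlib
import Pool.Agent.FPX.BTX

/-
BTY (helper15): latitude cells for the certificate `Cert7X` (start map with deviation `Bx`).
-/

open MeasureTheory Set Filter Topology Real
open scoped NNReal ComplexConjugate

noncomputable section

namespace Pool.Agent.FPX.BTN

open Pool.Agent.FPX.CRD (Bm)
open Pool.Agent.FPX.ALX
open Pool.Agent.FPX.UMP (Ef)
open Pool.Agent.FPX.UMQ
open Pool.Agent.FPX.F54 (X1 X2 X_lt X_G1 X_G2 sF)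
open Pool.Agent.FPX.S54 (de mS)
open Pool.Agent.FPX.OMB (vm vm_int vm_prob bm_ep)
open Pool.Agent.FPX.OMS (rF cF)
open Pool.Agent.FPX.CERQ (xT Er sr)
open Pool.Agent.FPX.OM7 (Cof CertAt CertAtX Cert7X Dev devK Sp Sm Cp Cm mk7 bv W7 bm_de bm_pow)

variable {ι : Type} [Fintype ι] {f : ℝ → ℝ}

/-- the deviation `Bx` in the real frame is `∑ u_i Ψ_i` -/
def IsLin (Bx : Dev) (Ψ : Psi ι) (u : ι → ℝ) (f : ℝ → ℝ) : Prop :=
  ∀ A B N M S R G : ℂ, Bx f A B N M S R G = devV Ψ u (mom (nf f) (xT f) (ef f)) A B N M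
    (((X1 f / cF f : ℝ) : ℂ) * S) (((X1 f / cF f : ℝ) : ℂ) * R) (((X1 f / cF f : ℝ) : ℂ) * G)

theorem t_de (hf : Ef f) (hs : 0 < X1 f) (h2 : X2 f = 0) (t : ℝ) :
    ((X1 f / cF f : ℝ) : ℂ) * (de (X1 f) (X2 f) f t : ℂ) = (xT f t : ℂ) := by
  have hc : (cF f : ℂ) ≠ 0 := Complex.ofReal_ne_zero.2 (cF_pos' hf).ne'
  have hs' : (X1 f : ℂ) ≠ 0 := Complex.ofReal_ne_zero.2 hs.ne'
  rw [de_eq hf hs h2]
  push_cast
  field_simp

theorem t_Sp (hf : Ef f) (hs : 0 < X1 f) (h2 : X2 f = 0) (A B S : ℂ) :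
    ((X1 f / cF f : ℝ) : ℂ) * Sp f A B S = sp (nf f) (xT f) (ef f) A B (((X1 f / cF f : ℝ) : ℂ) * S) := by
  have hc : (cF f : ℂ) ≠ 0 := Complex.ofReal_ne_zero.2 (cF_pos' hf).ne'
  have hs' : (X1 f : ℂ) ≠ 0 := Complex.ofReal_ne_zero.2 hs.ne'
  unfold Sp sp
  rw [mS_eq hf hs h2, S2_eq hf hs h2, YY_eq h2, Complex.conj_ofReal]
  push_cast
  field_simp

theorem t_Sm (hf : Ef f) (hs : 0 < X1 f) (h2 : X2 f = 0) (A B S : ℂ) :
    ((X1 f / cF f : ℝ) : ℂ) * Sm f A B S = sm (nf f) (xT f) (ef f) A B (((X1 f / cF f : ℝ) : ℂ) * S) := by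
  have hc : (cF f : ℂ) ≠ 0 := Complex.ofReal_ne_zero.2 (cF_pos' hf).ne'
  have hs' : (X1 f : ℂ) ≠ 0 := Complex.ofReal_ne_zero.2 hs.ne'
  unfold Sm sm
  rw [mS_eq hf hs h2, S2_eq hf hs h2, YY_eq h2, Complex.conj_ofReal]
  push_cast
  field_simp

theorem t_int (hf : Ef f) (hs : 0 < X1 f) (h2 : X2 f = 0) (g : ℝ → ℂ) :
    ((X1 f / cF f : ℝ) : ℂ) * ∫ t, (de (X1 f) (X2 f) f t : ℂ) * g t ∂(nf f) = ∫ t, (xT f t : ℂ) * g t ∂(nf f) := by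
  rw [← integral_const_mul]
  congr 1
  funext t
  rw [← mul_assoc, t_de hf hs h2]

/-- the left side of the certificate in the real frame -/
theorem lhs_vec (W : ℝ → ℝ) (F : Cof) (μ : ℝ) (hf : Ef f) (hs : 0 < X1 f) (h2 : X2 f = 0) {K : ℝ → ℂ}
    (hK : Measurable K) (hK1 : ∀ t, ‖K t‖ ≤ 1) (A B : ℂ) :
    lhs (nf f) (xT f) (ef f) (vec W F μ (X1 f) (cF f)) K A B =
    W7 W F f * (‖A‖ ^ 2 - ‖B‖ ^ 2)
      + 2 * (A * ∫ t, mk7 F f t * K t ∂(vm (X1 f) (X2 f))).re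
      - 2 * (B * ∫ t, mk7 F f t * conj (K t) ∂(vm (X1 f) (X2 f))).re
      + bv F f A B (Cp f A B (∫ t, C54.ep (X1 f) (X2 f) t ^ 3 * conj (K t) ∂(vm (X1 f) (X2 f))))
          (Cm f A B (∫ t, C54.ep (X1 f) (X2 f) t ^ 3 * K t ∂(vm (X1 f) (X2 f)))) + 2 * μ * ‖B‖ ^ 2 := by
  have hX := X_lt hf
  have := vm_prob hX
  have bK : Bm K := ⟨hK, 1, hK1⟩
  have bD := bm_xT hf hs h2
  have bE : Bm (ef f) := bm_ep hX
  have bE2 : Bm fun t => ef f t ^ 2 := bm_pow bE 2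
  have bC2 : Bm fun t => conj (ef f t) ^ 2 := bm_pow bE.conj 2
  have bE3 : Bm fun t => ef f t ^ 3 := bm_pow bE 3
  have bC3 : Bm fun t => conj (ef f t) ^ 3 := bm_pow bE.conj 3
  set v := vec W F μ (X1 f) (cF f) with hv
  have b3 : Bm fun t => (v 3 : ℂ) * ((xT f t : ℂ) * ef f t ^ 2) := (Bm.const _).mul (bD.mul bE2)
  have b8 : Bm fun t => (v 8 : ℂ) * ((xT f t : ℂ) * conj (ef f t) ^ 2) := (Bm.const _).mul (bD.mul bC2)
  have b9 : Bm fun t => (v 9 : ℂ) * (xT f t : ℂ) := (Bm.const _).mul bD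
  have b10 : Bm fun t => (v 10 : ℂ) * conj (ef f t) ^ 3 := (Bm.const _).mul bC3
  have b5 : Bm fun t => (v 5 : ℂ) * ef f t ^ 3 := (Bm.const _).mul bE3
  have b7 : Bm fun t => (v 7 : ℂ) * (((conj (M3 (nf f) (xT f) (ef f)) * ef f t ^ 3).re : ℝ) : ℂ) :=
    (Bm.const _).mul (bm_M3 hf _)
  have e : pk (nf f) (mk7 F f) K A B = v 3 * pk (nf f) (fun t => (xT f t : ℂ) * ef f t ^ 2) K A B
      + (v 8 * pk (nf f) (fun t => (xT f t : ℂ) * conj (ef f t) ^ 2) K A B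
      + (v 9 * pk (nf f) (fun t => (xT f t : ℂ)) K A B
      + (v 10 * pk (nf f) (fun t => conj (ef f t) ^ 3) K A B
      + (v 5 * pk (nf f) (fun t => ef f t ^ 3) K A B
      + v 7 * pk (nf f) (fun t => (((conj (M3 (nf f) (xT f) (ef f)) * ef f t ^ 3).re : ℝ) : ℂ)) K A B)))) := by
    have em : mk7 F f = fun t => (v 3 : ℂ) * ((xT f t : ℂ) * ef f t ^ 2)
      + ((v 8 : ℂ) * ((xT f t : ℂ) * conj (ef f t) ^ 2) + ((v 9 : ℂ) * (xT f t : ℂ)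
      + ((v 10 : ℂ) * conj (ef f t) ^ 3 + ((v 5 : ℂ) * ef f t ^ 3
      + (v 7 : ℂ) * (((conj (M3 (nf f) (xT f) (ef f)) * ef f t ^ 3).re : ℝ) : ℂ))))) :=
      funext fun t => mk7_eq W F μ hf hs h2 t
    have c5 := b5.add b7
    have c10 := b10.add c5
    have c9 := b9.add c10
    have c8 := b8.add c9
    rw [em, pk_add b3 c8 bK, pk_add b8 c9 bK, pk_add b9 c10 bK, pk_add b10 c5 bK, pk_add b5 b7 bK,
      pk_smul, pk_smul, pk_smul, pk_smul, pk_smul, pk_smul]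
  have e2 : 2 * (A * ∫ t, mk7 F f t * K t ∂(vm (X1 f) (X2 f))).re
      - 2 * (B * ∫ t, mk7 F f t * conj (K t) ∂(vm (X1 f) (X2 f))).re = pk (nf f) (mk7 F f) K A B := rfl
  rw [Cp_eq hf hs h2, Cm_eq hf hs h2, bv_eq W F μ hf hs h2, W7_eq W F μ hf hs h2, ← hv]
  have e3 : μ = v 14 := by
    rw [hv]
    rfl
  rw [lhs_eq, ← e]
  have e4 : 2 * μ * ‖B‖ ^ 2 = v 14 * (2 * ‖B‖ ^ 2) := by
    rw [← e3]
    ring
  rw [← e2, e4]
  ring

/-- **the certificate at a state with `ζ > 0` and another deviation** -/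
theorem certAtX_of_NCX {Bx : Dev} {Ψ : Psi ι} {u : ι → ℝ} {W : ℝ → ℝ} {F : Cof} {μ T : ℝ} (hf : Ef f)
    (hs : 0 < X1 f) (h2 : X2 f = 0) (HB : IsLin Bx Ψ u f)
    (H : NCX (nf f) (xT f) (ef f) Ψ (vec W F 0 (X1 f) (cF f)) u μ T) : CertAtX Bx W F μ T f := by
  intro K hK hK1 A B hA hB
  have hd : devK Bx f K A B = devN (nf f) (xT f) (ef f) Ψ u K A B := by
    unfold devK devN
    rw [HB, Cp_eq hf hs h2, Cm_eq hf hs h2, t_Sp hf hs h2, t_Sm hf hs h2]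
    have e1 : ((X1 f / cF f : ℝ) : ℂ) * ∫ t, ((de (X1 f) (X2 f) f t : ℂ) * C54.ep (X1 f) (X2 f) t ^ 2)
        * conj (K t) ∂(vm (X1 f) (X2 f)) = ∫ t, ((xT f t : ℂ) * ef f t ^ 2) * conj (K t) ∂(nf f) := by
      have := t_int hf hs h2 (fun t => ef f t ^ 2 * conj (K t))
      simp only [← mul_assoc] at this
      exact this
    have e2 : ((X1 f / cF f : ℝ) : ℂ) * ∫ t, ((de (X1 f) (X2 f) f t : ℂ) * C54.ep (X1 f) (X2 f) t ^ 2)
        * K t ∂(vm (X1 f) (X2 f)) = ∫ t, ((xT f t : ℂ) * ef f t ^ 2) * K t ∂(nf f) := by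
      have := t_int hf hs h2 (fun t => ef f t ^ 2 * K t)
      simp only [← mul_assoc] at this
      exact this
    rw [e1, e2, t_int hf hs h2 K]
  rw [sF_eq hf hs h2] at hA hB
  have h := H K hK hK1 A B hA hB
  rw [hd]
  rw [lhs_vec W F 0 hf hs h2 hK hK1 A B] at h
  linarith

/-! ### the visual angle -/

theorem t_restX (hf : Ef f) (h0 : 0 ≤ X1 f) (h2 : X2 f = 0) (Ψ : Psi ι) (v : CV) (u : ι → ℝ) (μ : ℝ)
    (A B N M S R G α β γ δ κ l ρ : ℂ) :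
    restvX (nf f) (xT f) (ef f) Ψ v u μ A B N M S R G α β γ δ κ l ρ =
      restvX va (Xa (X1 f) f) e1 Ψ v u μ A B N M S R G α β γ δ κ l ρ := by
  unfold restvX rq sq mom
  rw [t_rest hf h0 h2, tM3 hf h0 h2, tM5 hf h0 h2, tP0 hf h0 h2, tP2 hf h0 h2, tP4 hf h0 h2]

/-- the function `h` as a function of the direction and of `x` -/
def hfnX (v : CV) (m : ℂ) (A B α β γ δ κ l ρ : ℂ) (e : ℂ) (x : ℝ) : ℂ :=
  hfn v m A B α β γ δ e x + κ * ((x : ℂ) * e ^ 2) + l * conj ((x : ℂ) * e ^ 2) + ρ * (x : ℂ)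

theorem hfnX_eq {X : Type*} [MeasurableSpace X] (ν : Measure X) (D : X → ℝ) (E : X → ℂ) (v : CV)
    (A B α β γ δ κ l ρ : ℂ) (t : X) : hvX ν D E v A B α β γ δ κ l ρ t =
      hfnX v (M3 ν D E) A B α β γ δ κ l ρ (E t) (D t) := rfl

theorem hfnX_cont (v : CV) (m A B α β γ δ κ l ρ : ℂ) :
    Continuous fun p : ℂ × ℝ => hfnX v m A B α β γ δ κ l ρ p.1 p.2 := by
  have c2 : Continuous fun p : ℂ × ℝ => (p.2 : ℂ) := Complex.continuous_ofReal.comp continuous_snd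
  have c3 : Continuous fun p : ℂ × ℝ => (p.2 : ℂ) * p.1 ^ 2 := c2.mul (continuous_fst.pow 2)
  exact (((hfn_cont v m A B α β γ δ).add (continuous_const.mul c3)).add
    (continuous_const.mul (Complex.continuous_conj.comp c3))).add (continuous_const.mul c2)

/-- the condition in the visual angle gives the condition for the state -/
theorem RWX_tr (hf : Ef f) (h0 : 0 ≤ X1 f) (h2 : X2 f = 0) (hx : ∀ t, |xT f t| ≤ 1) {Ψ : Psi ι} {v : CV}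
    {u : ι → ℝ} {μ T : ℝ} (H : RWX va (Xa (X1 f) f) e1 Ψ v u μ T) :
    RWX (nf f) (xT f) (ef f) Ψ v u μ T := by
  obtain ⟨q, hq, hp, hT, h⟩ := H
  obtain ⟨a, b, ha, hab⟩ := q_bounds hq hp
  set Q : ℂ → ℝ → ℝ := fun e x => max a (q e x) with hQ
  have cQ : Continuous fun p : ℂ × ℝ => Q p.1 p.2 := continuous_const.max hq
  have pQ : ∀ e x, 0 < Q e x := fun e x => lt_of_lt_of_le ha (le_max_left _ _)
  have eQ : ∀ e x, ‖e‖ = 1 → |x| ≤ 1 → Q e x = q e x := fun e x he hx => max_eq_right (hab e x he hx).1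
  have hXa : ∀ a, |Xa (X1 f) f a| ≤ 1 := fun a => by
    rw [← ALY.xT_tA hf h0 h2]
    exact hx _
  refine ⟨Q, cQ, fun e x _ _ => pQ e x, ?_, fun A B N M S R G => ?_⟩
  · have c : Continuous fun p : ℂ × ℝ => 1 / Q p.1 p.2 := continuous_const.div cQ fun p => (pQ _ _).ne'
    rw [tr_R hf h0 h2 (Φ := fun e x => 1 / Q e x) c]
    refine le_trans (le_of_eq ?_) hT
    congr 1
    funext a
    rw [eQ _ _ (norm_e1 a) (hXa a)]
  · obtain ⟨α, β, γ, δ, κ, l, ρ, k⟩ := h A B N M S R G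
    refine ⟨α, β, γ, δ, κ, l, ρ, ?_⟩
    have c : Continuous fun p : ℂ × ℝ =>
        ‖hfnX v (M3 va (Xa (X1 f) f) e1) A B α β γ δ κ l ρ p.1 p.2‖ ^ 2 * Q p.1 p.2 :=
      ((hfnX_cont v _ A B α β γ δ κ l ρ).norm.pow 2).mul cQ
    rw [t_restX hf h0 h2]
    simp only [hfnX_eq] at k ⊢
    rw [tM3 hf h0 h2,
      tr_R hf h0 h2 (Φ := fun e x => ‖hfnX v (M3 va (Xa (X1 f) f) e1) A B α β γ δ κ l ρ e x‖ ^ 2 * Q e x) c]
    refine le_trans (le_of_eq ?_) k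
    congr 2
    funext a
    rw [eQ _ _ (norm_e1 a) (hXa a)]

/-- **a latitude cell for `Cert7X`** -/
theorem cellX {Bx : Dev} {Ψ : Psi ι} {W : ℝ → ℝ} {F : Cof} {μ T : ℝ} (hμ : 0 ≤ μ) (hf : Ef f)
    (hs : 0 < X1 f) (h2 : X2 f = 0) {s' : ℝ} (hs' : X1 f ≤ s') (h1 : s' ≤ 1) {P : (ℝ → ℝ) → Prop}
    (hP : P (Xa (X1 f) f)) {κ : Type*} {σ : Finset κ} {c : κ → ℝ} {v : κ → CV} {u : κ → ι → ℝ}
    (hc : ∀ j ∈ σ, 0 ≤ c j) (hc1 : ∑ j ∈ σ, c j = 1)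
    (hv : vec W F 0 (X1 f) (cF f) = ∑ j ∈ σ, c j • v j) (HB : IsLin Bx Ψ (∑ j ∈ σ, c j • u j) f)
    (H : ∀ j ∈ σ, ∀ X, St s' X → (∀ a, |X a| ≤ 31 / 50 * s') → P X → RWX va X e1 Ψ (v j) (u j) μ T) :
    CertAtX Bx W F μ T f := by
  have := vm_prob (X_lt hf)
  have hx := xT_le hf hs.le h2
  have hS := (ALY.st hf hs.le h2).mono hs.le hs' h1
  have hb : ∀ a, |Xa (X1 f) f a| ≤ 31 / 50 * s' := fun a => (Xa_bd hf hs.le h2 a).trans (by linarith)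
  refine certAtX_of_NCX hf hs h2 HB ?_
  rw [hv]
  refine NCX.comb hc hc1 hμ fun j hj => NCX_of_RWX ?_ ?_ hx ?_ (RWX_tr hf hs.le h2 hx (H j hj _ hS hb hP))
  · exact (CERQ.cont_xT hf).measurable
  · exact (C54.cont_ep (X_lt hf)).measurable
  · exact fun t => C54.norm_ep (X_lt hf) t

end Pool.Agent.FPX.BTN
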