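import Mathlib
import Pool.Agent.FPX.OMG
import Pool.Agent.FPX.OMR

/-
OMGR (helper86): the certificate `Cert9` of OMG: the rotation to the states with `ζ = X1 f ≥ 0`, the REAL FRAME of
all its coefficients, elimination of `K` in this frame.
-/

open MeasureTheory Set Filter Topology Complex
open scoped ENNReal NNReal ContDiff ComplexConjugate

noncomputable section

namespace Pool.Agent.FPX.OM7

open Pool.Agent.FPX Pool.Agent.FPX.UMP Pool.Agent.FPX.UMQ Pool.Agent.FPX.UXA Pool.Agent.EWD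
open Pool.Agent.FPX.F54 (X1 X2 X_lt sF)
open Pool.Agent.FPX.S54 (mS ME YY de Sn)
open Pool.Agent.FPX.OMB (vm vm_int vm_prob bm_ep bm_real)
open Pool.Agent.FPX.OMS (rF cF cF_eq ME_vm)
open Pool.Agent.FPX.SYS (CE)
open Pool.Agent.FPX.CERQ (ep_per)
open Pool.Agent.FPX.OMG

namespace Rot

variable {f f' : ℝ → ℝ} {φ r : ℝ} {u : ℂ}

theorem d7 (R : Rot f f' φ r u) : D7 f = u ^ 6 * D7 f' := by
  unfold D7
  rw [R.ze, R.ce 7, R.cc, map_mul]
  linear_combination (7 * conj (YY (X1 f') (X2 f')) * u ^ 6 * CE 7 f' / (4 * (cF f' : ℂ))) * R.cu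

/-- powers of a unit number -/
theorem pw (R : Rot f f' φ r u) (m n : ℕ) (z : ℂ) : u ^ m * (conj u ^ (m + n) * z) = conj u ^ n * z := by
  have h : u ^ m * conj u ^ m = 1 := by rw [← mul_pow, R.uu, one_pow]
  rw [pow_add]
  linear_combination (conj u ^ n * z) * h

theorem mk9r (R : Rot f f' φ r u) (F : Cof9) (t : ℝ) : mk9 F f (t + φ) = conj u * mk9 F f' t := by
  have hc := R.uu
  have e1 : u ^ 4 * conj u ^ 5 = conj u := by
    have h : u ^ 4 * conj u ^ 4 = 1 := by rw [← mul_pow, hc, one_pow]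
    linear_combination conj u * h
  have e2 : conj u ^ 6 * u ^ 5 = conj u := by
    have h : u ^ 5 * conj u ^ 5 = 1 := by rw [← mul_pow, hc, one_pow]
    linear_combination conj u * h
  unfold mk9 mkP
  rw [R.mkr, R.ee, R.ze, R.rr, R.ce 3, R.ce 5]
  simp only [map_mul, map_pow]
  linear_combination ((F.p1 (rF f') : ℂ) * YY (X1 f') (X2 f') * (C54.ep (X1 f') (X2 f') t ^ 3 * conj (CE 5 f')
      + CE 3 f' * conj (C54.ep (X1 f') (X2 f') t) ^ 5)
      + (F.x5 (rF f') : ℂ) * YY (X1 f') (X2 f') ^ 4 * conj (C54.ep (X1 f') (X2 f') t) ^ 5) * e1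
    + ((F.p2 (rF f') : ℂ) * conj (YY (X1 f') (X2 f')) ^ 3 * (conj (C54.ep (X1 f') (X2 f') t) ^ 3 * CE 5 f'
      + conj (CE 3 f') * C54.ep (X1 f') (X2 f') t ^ 5)
      + (F.y5 (rF f') : ℂ) * conj (YY (X1 f') (X2 f')) ^ 6 * C54.ep (X1 f') (X2 f') t ^ 5) * e2

theorem wp (R : Rot f f' φ r u) (F : Cof9) : WP F f = WP F f' := by
  have hc := R.uu
  have hn : ∀ n : ℕ, conj u ^ n * u ^ n = 1 := fun n => by rw [← mul_pow, mul_comm (conj u), hc, one_pow]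
  have q2 : conj (u * YY (X1 f') (X2 f')) ^ 2 * (conj (u ^ 3 * CE 3 f') * (u ^ 5 * CE 5 f')) =
      conj (YY (X1 f') (X2 f')) ^ 2 * (conj (CE 3 f') * CE 5 f') := by
    simp only [map_mul, map_pow]
    linear_combination (conj (YY (X1 f') (X2 f')) ^ 2 * (conj (CE 3 f') * CE 5 f')) * hn 5
  have q3 : conj (u * YY (X1 f') (X2 f')) ^ 3 * (conj (u ^ 3 * CE 3 f') * (u ^ 6 * D7 f')) =
      conj (YY (X1 f') (X2 f')) ^ 3 * (conj (CE 3 f') * D7 f') := by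
    simp only [map_mul, map_pow]
    linear_combination (conj (YY (X1 f') (X2 f')) ^ 3 * (conj (CE 3 f') * D7 f')) * hn 6
  have q5 : conj (u * YY (X1 f') (X2 f')) ^ 5 * (u ^ 5 * CE 5 f') = conj (YY (X1 f') (X2 f')) ^ 5 * CE 5 f' := by
    simp only [map_mul]
    linear_combination (conj (YY (X1 f') (X2 f')) ^ 5 * CE 5 f') * hn 5
  have q4 : conj (u * YY (X1 f') (X2 f')) ^ 3 * (u ^ 3 * CE 3 f') = conj (YY (X1 f') (X2 f')) ^ 3 * CE 3 f' := by
    simp only [map_mul]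
    linear_combination (conj (YY (X1 f') (X2 f')) ^ 3 * CE 3 f') * hn 3
  have q6 : conj (u * YY (X1 f') (X2 f')) ^ 6 * (u ^ 6 * D7 f') = conj (YY (X1 f') (X2 f')) ^ 6 * D7 f' := by
    simp only [map_mul]
    linear_combination (conj (YY (X1 f') (X2 f')) ^ 6 * D7 f') * hn 6
  unfold WP rP
  rw [R.rr, R.cc, R.ze, R.ce 3, R.ce 5, R.d7, R.ns, R.ns, q2, q3, q4, q5, q6]

theorem w9 (R : Rot f f' φ r u) (W : ℝ → ℝ) (F : Cof9) : W9 W F f = W9 W F f' := by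
  unfold W9
  rw [R.w7, R.wp]

theorem m9per (R : Rot f f' φ r u) (F : Cof9) (t : ℝ) : mk9 F f (t + 2 * Real.pi) = mk9 F f t := by
  unfold mk9 mkP
  rw [R.mper, ep_per]

end Rot

/-- rotation covariance of a deviation -/
def RotK (Bk : DevK) : Prop :=
  ∀ (f f' : ℝ → ℝ) (φ r : ℝ) (u : ℂ), Rot f f' φ r u → ∀ K : ℝ → ℂ, Measurable K → (∀ t, ‖K t‖ ≤ 1) →
    ∀ A B : ℂ, ‖Bk f K (u * A) (u * B)‖ = ‖Bk f' (fun t => pe K (t + φ)) A B‖

theorem rotK_devK {Bx : Dev} (HR : RotDev Bx) : RotK (devK Bx) :=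
  fun _ _ _ _ _ R K _ _ A B => R.dev HR K A B

theorem rotK_F54 : RotK fun _ _ _ B => B :=
  fun _ _ _ _ _ R _ _ _ _ B => R.nn1 B

namespace Rot

variable {f f' : ℝ → ℝ} {φ r : ℝ} {u : ℂ}

/-- the rotated certificate -/
theorem cert9 (R : Rot f f' φ r u) {Bk : DevK} (HR : RotK Bk) {W : ℝ → ℝ} {F : Cof9} {μ T : ℝ}
    (H : CertAt9 Bk W F μ T f') : CertAt9 Bk W F μ T f := by
  intro K hK hK1 A B hA hB
  have hcu := R.cu
  have huc := R.uu
  have hK' : Measurable fun t => pe K (t + φ) := (pe_meas hK).comp (measurable_id.add_const φ)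
  have hK1' : ∀ t, ‖pe K (t + φ)‖ ≤ 1 := fun t => hK1 _
  obtain ⟨A', eA⟩ : ∃ A', A = u * A' := ⟨conj u * A, by rw [← mul_assoc, huc, one_mul]⟩
  obtain ⟨B', eB⟩ : ∃ B', B = u * B' := ⟨conj u * B, by rw [← mul_assoc, huc, one_mul]⟩
  have g3 : ∀ t, C54.ep (X1 f) (X2 f) (t + 2 * Real.pi) ^ 3 = C54.ep (X1 f) (X2 f) t ^ 3 := fun t => by
    rw [ep_per]
  have g3' : ∀ t, C54.ep (X1 f) (X2 f) (t + φ) ^ 3 = u ^ 3 * C54.ep (X1 f') (X2 f') t ^ 3 := fun t => by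
    rw [R.ee, mul_pow]
  rw [R.itc (G := fun t => C54.ep (X1 f) (X2 f) t) (ep_per _ _) R.ee] at hA
  rw [R.it (G := fun t => C54.ep (X1 f) (X2 f) t) (ep_per _ _) R.ee] at hB
  have hu0 : u ≠ 0 := fun h => by rw [h, zero_mul] at huc; exact zero_ne_one huc
  have a1 : A' - sF f' * conj B' = ∫ t, C54.ep (X1 f') (X2 f') t * conj (pe K (t + φ)) ∂(vm (X1 f') (X2 f')) := by
    refine mul_left_cancel₀ hu0 ?_
    rw [← hA, R.sf, eA, eB]
    simp only [map_mul]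
    linear_combination (u * sF f' * conj B') * huc
  have a2 : B' - sF f' * conj A' = ∫ t, C54.ep (X1 f') (X2 f') t * pe K (t + φ) ∂(vm (X1 f') (X2 f')) := by
    refine mul_left_cancel₀ hu0 ?_
    rw [← hB, R.sf, eA, eB]
    simp only [map_mul]
    linear_combination (u * sF f' * conj A') * huc
  have key := H (fun t => pe K (t + φ)) hK' hK1' A' B' a1 a2
  rw [← HR f f' φ r u R K hK hK1 A' B'] at key
  rw [eA, eB, R.it (G := mk9 F f) (R.m9per F) (R.mk9r F), R.itc (G := mk9 F f) (R.m9per F) (R.mk9r F),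
    R.itc (G := fun t => C54.ep (X1 f) (X2 f) t ^ 3) g3 g3', R.it (G := fun t => C54.ep (X1 f) (X2 f) t ^ 3) g3 g3',
    R.cp, R.cm, R.bb, R.nn1, R.nn1, R.w9]
  have r1 : ∀ a z : ℂ, u * a * (conj u * z) = a * z := fun a z => by
    linear_combination (a * z) * hcu
  rw [r1, r1]
  exact key

end Rot

/-- **the certificate `Cert9` holds if it holds for the states with `ζ ≥ 0`** -/
theorem cert9_of_real {Bk : DevK} (HR : RotK Bk) {W : ℝ → ℝ} {F : Cof9} {μ T : ℝ}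
    (H : ∀ f, Ef f → 0 ≤ X1 f → X2 f = 0 → CertAt9 Bk W F μ T f) : Cert9 Bk W F μ T := by
  intro f hf
  obtain ⟨f', φ, r, u, R⟩ := exists_Rot hf
  exact R.cert9 HR (H f' R.hf' (by rw [R.x1]; exact R.r0) R.x2)

end Pool.Agent.FPX.OM7

namespace Pool.Agent.FPX.OMR

open Pool.Agent.FPX Pool.Agent.FPX.UMP Pool.Agent.FPX.UMQ Pool.Agent.FPX.UXA Pool.Agent.EWD
open Pool.Agent.FPX.F54 (X1 X2 X_lt sF)
open Pool.Agent.FPX.S54 (mS ME YY de Sn)
open Pool.Agent.FPX.OMB (vm vm_int vm_prob bm_ep bm_real)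
open Pool.Agent.FPX.CRD (Bm)
open Pool.Agent.FPX.OMS (rF cF cF_eq ME_vm)
open Pool.Agent.FPX.SYS (CE)
open Pool.Agent.FPX.OM7 Pool.Agent.FPX.OMG

/-- `mean (x E⁷)` -/
def r7 (f : ℝ → ℝ) : ℂ := ∫ t, (xR f t : ℂ) * eR f t ^ 7 ∂(vR f)

/-- the kernel `m` of `Cert9` in the real frame -/
def mR9 (F : Cof9) (f : ℝ → ℝ) (t : ℝ) : ℂ :=
  mR F.C f t
    + ((2 * cF f * F.p1 (rF f) : ℝ) : ℂ) * (conj (r5 f) * eR f t ^ 3 + r3 f * conj (eR f t) ^ 5)
    + ((2 * cF f * rF f * F.p2 (rF f) : ℝ) : ℂ) * (r5 f * conj (eR f t) ^ 3 + conj (r3 f) * eR f t ^ 5)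
    + ((rF f ^ 2 * F.x5 (rF f) : ℝ) : ℂ) * conj (eR f t) ^ 5 + ((rF f ^ 3 * F.y5 (rF f) : ℝ) : ℂ) * eR f t ^ 5

/-- the new terms of the coefficient of `|A|² - |B|²` in the real frame -/
def WPR (F : Cof9) (f : ℝ → ℝ) : ℝ :=
  4 * cF f * (2 * cF f ^ 2 * deriv F.p1 (rF f) - F.p1 (rF f)
      + 2 * cF f ^ 2 * (rF f * deriv F.p2 (rF f) + 3 * F.p2 (rF f)) + rF f * F.p2 (rF f))
      * (conj (r3 f) * r5 f).re
    + 2 * cF f * F.p1 (rF f) * (5 * normSq (r5 f) - 3 * normSq (r3 f))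
    + 14 * cF f * rF f * F.p2 (rF f) * (conj (r3 f) * r7 f).re
    + rF f ^ 2 * (4 * cF f ^ 2 * deriv F.x5 (rF f) - 5 * F.x5 (rF f)
      + 4 * cF f ^ 2 * (rF f * deriv F.y5 (rF f) + 6 * F.y5 (rF f)) + 5 * rF f * F.y5 (rF f)) * (r5 f).re
    - 3 * rF f ^ 2 * F.x5 (rF f) * (r3 f).re
    + 7 * rF f ^ 3 * F.y5 (rF f) * (r7 f).re

/-- the coefficient of `|A|² - |B|²` in the real frame -/
def W9R (W : ℝ → ℝ) (F : Cof9) (f : ℝ → ℝ) : ℝ := W7R W F.C f + WPR F f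

/-- the combination of the functions of the certificate: the last three are `x E²`, `conj (x E²)`, `x` -/
def h9R (F : Cof9) (f : ℝ → ℝ) (A B α β γ δ κ l ρ : ℂ) (t : ℝ) : ℂ :=
  α * eR f t + β * conj (eR f t) + γ * eR f t ^ 3 + δ * conj (eR f t ^ 3) + A * mR9 F f t
    - conj B * conj (mR9 F f t) + κ * ((xR f t : ℂ) * eR f t ^ 2) + l * conj ((xR f t : ℂ) * eR f t ^ 2)
    + ρ * (xR f t : ℂ)

/-- the terms without `K` -/
def rest9R (Bx : Dev) (W : ℝ → ℝ) (F : Cof9) (μ : ℝ) (f : ℝ → ℝ) (A B N M S R D α β γ δ κ l ρ : ℂ) : ℝ :=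
  W9R W F f * (‖A‖ ^ 2 - ‖B‖ ^ 2) + bR F.C f A B N M + 2 * μ * ‖Bx f A B N M S R D‖ ^ 2
    - 2 * (conj α * conj (B - 3 / 2 * r3 f * conj A) + conj β * (A - 3 / 2 * r3 f * conj B)
      + conj γ * conj (RmR f A B M) + conj δ * RpR f A B N + conj κ * conj (RqR f A B (tR f * R))
      + conj l * SqR f A B (tR f * S) + conj ρ * conj (tR f * D)).re

namespace Re

variable {f : ℝ → ℝ}

theorem c7 (H : Re f) : (X1 f : ℂ) * CE 7 f = 2 * cF f * r7 f := H.ce 7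

theorem d7 (H : Re f) : D7 f = 7 / 2 * r7 f := by
  have hc := H.cC
  unfold D7
  rw [H.zz, Complex.conj_ofReal]
  field_simp
  linear_combination (2 : ℂ) * H.c7

theorem c5s (H : Re f) : X1 f ^ 2 * normSq (CE 5 f) = 4 * cF f ^ 2 * normSq (r5 f) := by
  have h := congrArg normSq H.c5
  have e : (2 : ℂ) * (cF f : ℂ) = ((2 * cF f : ℝ) : ℂ) := by push_cast; rfl
  rw [e, map_mul, map_mul, normSq_ofReal, normSq_ofReal] at h
  linarith

theorem rC (H : Re f) : ((rF f : ℝ) : ℂ) = (X1 f : ℂ) ^ 2 := by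
  rw [H.rr]
  push_cast
  rfl

theorem mk9e (H : Re f) (F : Cof9) (t : ℝ) : mk9 F f t = mR9 F f t := by
  have h3 := congrArg conj H.c3
  have h5 := congrArg conj H.c5
  simp only [map_mul, Complex.conj_ofReal, map_ofNat] at h3 h5
  unfold mk9 mkP mR9
  rw [H.mkr, H.zz, H.ee, Complex.conj_ofReal]
  push_cast
  rw [H.rC]
  linear_combination ((F.p1 (rF f) : ℂ) * eR f t ^ 3) * h5 + ((F.p1 (rF f) : ℂ) * conj (eR f t) ^ 5) * H.c3
    + ((F.p2 (rF f) : ℂ) * (X1 f : ℂ) ^ 2 * conj (eR f t) ^ 3) * H.c5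
    + ((F.p2 (rF f) : ℂ) * (X1 f : ℂ) ^ 2 * eR f t ^ 5) * h3

theorem wpe (H : Re f) (F : Cof9) : WP F f = WPR F f := by
  have hcR := H.c0.ne'
  have h3 := congrArg conj H.c3
  simp only [map_mul, Complex.conj_ofReal, map_ofNat] at h3
  have t2 : (conj (YY (X1 f) (X2 f)) ^ 2 * (conj (CE 3 f) * CE 5 f)).re =
      4 * cF f ^ 2 * (conj (r3 f) * r5 f).re := by
    have e : (X1 f : ℂ) ^ 2 * (conj (CE 3 f) * CE 5 f) = ((4 * cF f ^ 2 : ℝ) : ℂ) * (conj (r3 f) * r5 f) := by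
      push_cast
      linear_combination ((X1 f : ℂ) * CE 5 f) * h3 + (2 * (cF f : ℂ) * conj (r3 f)) * H.c5
    rw [H.zz, Complex.conj_ofReal, e, Complex.re_ofReal_mul]
  have t3 : (conj (YY (X1 f) (X2 f)) ^ 3 * (conj (CE 3 f) * D7 f)).re =
      7 * cF f * rF f * (conj (r3 f) * r7 f).re := by
    have e : (X1 f : ℂ) ^ 3 * (conj (CE 3 f) * D7 f) =
        ((7 * cF f * X1 f ^ 2 : ℝ) : ℂ) * (conj (r3 f) * r7 f) := by
      rw [H.d7]
      push_cast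
      linear_combination (7 / 2 * (X1 f : ℂ) ^ 2 * r7 f) * h3
    rw [H.zz, Complex.conj_ofReal, e, Complex.re_ofReal_mul, H.rr]
  have t4 : (conj (YY (X1 f) (X2 f)) ^ 3 * CE 3 f).re = 2 * cF f * rF f * (r3 f).re := by
    have e : (X1 f : ℂ) ^ 3 * CE 3 f = ((2 * cF f * X1 f ^ 2 : ℝ) : ℂ) * r3 f := by
      push_cast
      linear_combination ((X1 f : ℂ) ^ 2) * H.c3
    rw [H.zz, Complex.conj_ofReal, e, Complex.re_ofReal_mul, H.rr]
  have t5 : (conj (YY (X1 f) (X2 f)) ^ 5 * CE 5 f).re = 2 * cF f * rF f ^ 2 * (r5 f).re := by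
    have e : (X1 f : ℂ) ^ 5 * CE 5 f = ((2 * cF f * (X1 f ^ 2) ^ 2 : ℝ) : ℂ) * r5 f := by
      push_cast
      linear_combination ((X1 f : ℂ) ^ 4) * H.c5
    rw [H.zz, Complex.conj_ofReal, e, Complex.re_ofReal_mul, H.rr]
  have t7 : (conj (YY (X1 f) (X2 f)) ^ 6 * D7 f).re = 7 / 2 * rF f ^ 3 * (r7 f).re := by
    have e : (X1 f : ℂ) ^ 6 * D7 f = ((7 / 2 * (X1 f ^ 2) ^ 3 : ℝ) : ℂ) * r7 f := by
      rw [H.d7]
      push_cast
      ring
    rw [H.zz, Complex.conj_ofReal, e, Complex.re_ofReal_mul, H.rr]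
  have s5 := H.c5s
  have s3 := H.cs
  rw [← H.rr] at s5 s3
  have t6 : rF f * (5 * normSq (CE 5 f) - 3 * normSq (CE 3 f)) =
      4 * cF f ^ 2 * (5 * normSq (r5 f) - 3 * normSq (r3 f)) := by linarith
  have t6' : rF f * rP f = cF f * (5 * normSq (r5 f) - 3 * normSq (r3 f)) := by
    unfold rP
    rw [← mul_div_assoc, t6]
    field_simp
  unfold WP WPR
  rw [t2, t3, t4, t5, t7, t6']
  field_simp
  ring

theorem w9e (H : Re f) (W : ℝ → ℝ) (F : Cof9) : W9 W F f = W9R W F f := by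
  unfold W9 W9R
  rw [H.w7, H.wpe]

end Re

/-! ### elimination of `K` -/

section elim

variable {X : Type*} [MeasurableSpace X] {ν : Measure X} [IsFiniteMeasure ν]

/-- **elimination of `K` by the modulus, any list of test functions** -/
theorem elimG {n : ℕ} {g : Fin n → X → ℂ} (bg : ∀ i, Bm (g i)) {m : X → ℂ} (bm : Bm m) {K : X → ℂ}
    (hK : Measurable K) (hK1 : ∀ t, ‖K t‖ ≤ 1) (a : Fin n → ℂ) (A B : ℂ) :
    2 * (A * ∫ t, m t * K t ∂ν).re - 2 * (B * ∫ t, m t * conj (K t) ∂ν).re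
      + 2 * (∑ i, conj (a i) * conj (∫ t, g i t * K t ∂ν)).re ≤
      2 * ∫ t, ‖(∑ i, a i * g i t) + A * m t - conj B * conj (m t)‖ ∂ν := by
  have bK : Bm K := ⟨hK, 1, hK1⟩
  have cj : ∀ φ : X → ℂ, ∫ t, conj (φ t) ∂ν = conj (∫ t, φ t ∂ν) := fun φ => integral_conj
  have bi : ∀ i, Bm fun t => conj (a i) * conj (g i t * K t) := fun i =>
    (Bm.const _).mul ((bg i).mul bK).conj
  have bA : Bm fun t => conj A * conj (m t * K t) := (Bm.const _).mul (bm.mul bK).conj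
  have bB : Bm fun t => B * (m t * conj (K t)) := (Bm.const _).mul (bm.mul bK.conj)
  have e : ∫ t, conj (K t) * conj ((∑ i, a i * g i t) + A * m t - conj B * conj (m t)) ∂ν =
      (∑ i, conj (a i) * conj (∫ t, g i t * K t ∂ν)) + (conj A * conj (∫ t, m t * K t ∂ν)
        - B * ∫ t, m t * conj (K t) ∂ν) := by
    have e1 : (fun t => conj (K t) * conj ((∑ i, a i * g i t) + A * m t - conj B * conj (m t))) = fun t =>
        (∑ i, conj (a i) * conj (g i t * K t)) + (conj A * conj (m t * K t) - B * (m t * conj (K t))) := by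
      funext t
      simp only [map_add, map_sub, map_mul, map_sum, Complex.conj_conj]
      have e2 : ∑ i, conj (a i) * (conj (g i t) * conj (K t)) = (∑ i, conj (a i) * conj (g i t)) * conj (K t) := by
        rw [Finset.sum_mul]
        exact Finset.sum_congr rfl fun i _ => by ring
      rw [e2]
      ring
    have i1 : Integrable (fun t => ∑ i, conj (a i) * conj (g i t * K t)) ν :=
      integrable_finsetSum _ fun i _ => (bi i).int
    have i2 : Integrable (fun t => conj A * conj (m t * K t) - B * (m t * conj (K t))) ν :=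
      bA.int.sub bB.int
    rw [e1, integral_add i1 i2, integral_finsetSum _ fun i _ => (bi i).int, integral_sub bA.int bB.int,
      integral_const_mul, integral_const_mul, cj]
    congr 1
    refine Finset.sum_congr rfl fun i _ => ?_
    rw [integral_const_mul, cj]
  have hb : ‖∫ t, conj (K t) * conj ((∑ i, a i * g i t) + A * m t - conj B * conj (m t)) ∂ν‖ ≤
      ∫ t, ‖(∑ i, a i * g i t) + A * m t - conj B * conj (m t)‖ ∂ν := by
    have i1 : Integrable (fun t => (∑ i, a i * g i t) + A * m t - conj B * conj (m t)) ν :=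
      ((integrable_finsetSum _ fun i _ => ((Bm.const (a i)).mul (bg i)).int).add
        ((Bm.const A).mul bm).int).sub ((Bm.const (conj B)).mul bm.conj).int
    refine norm_integral_le_of_norm_le i1.norm (Eventually.of_forall fun t => ?_)
    rw [norm_mul, Complex.norm_conj, Complex.norm_conj]
    exact mul_le_of_le_one_left (norm_nonneg _) (hK1 t)
  have h2 := Complex.re_le_norm (∫ t, conj (K t) * conj ((∑ i, a i * g i t) + A * m t - conj B * conj (m t)) ∂ν)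
  have c1 : (conj A * conj (∫ t, m t * K t ∂ν)).re = (A * ∫ t, m t * K t ∂ν).re := by
    rw [← map_mul, Complex.conj_re]
  rw [e] at h2 hb
  rw [Complex.add_re, Complex.sub_re, c1] at h2
  linarith

end elim

/-! ### closers of `Cert9` -/

namespace Re

variable {f : ℝ → ℝ}

theorem bE (H : Re f) : Bm (eR f) := bm_ep H.lt

theorem bx (H : Re f) : Bm fun t => (xR f t : ℂ) := by
  have h : (fun t => (xR f t : ℂ)) = fun t => ((X1 f / cF f : ℝ) : ℂ) * (de (X1 f) (X2 f) f t : ℂ) := by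
    funext t
    unfold xR
    rw [H.h2]
    push_cast
    rfl
  rw [h]
  exact (Bm.const _).mul (bm_de H.hf)

theorem bmR (H : Re f) (F : Cof) : Bm (mR F f) := by
  have h : mR F f = mk7 F f := funext fun t => (H.mkr F t).symm
  rw [h]
  exact bm_mk H.hf

theorem bm9 (H : Re f) (F : Cof9) : Bm (mR9 F f) := by
  have b3 := bm_pow H.bE 3
  have b5 := bm_pow H.bE 5
  have c3 := bm_pow H.bE.conj 3
  have c5 := bm_pow H.bE.conj 5
  exact (((((H.bmR F.C).add ((Bm.const _).mul (((Bm.const (conj (r5 f))).mul b3).add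
    ((Bm.const (r3 f)).mul c5)))).add ((Bm.const _).mul (((Bm.const (r5 f)).mul c3).add
    ((Bm.const (conj (r3 f))).mul b5)))).add ((Bm.const _).mul c5)).add ((Bm.const _).mul b5))

theorem bh9 (H : Re f) (F : Cof9) (A B α β γ δ κ l ρ : ℂ) : Bm (h9R F f A B α β γ δ κ l ρ) := by
  have b3 := bm_pow H.bE 3
  have b2 := H.bx.mul (bm_pow H.bE 2)
  have h : h9R F f A B α β γ δ κ l ρ = fun t => α * eR f t + β * conj (eR f t) + γ * eR f t ^ 3
      + δ * conj (eR f t ^ 3) + A * mR9 F f t + (-conj B) * conj (mR9 F f t)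
      + κ * ((xR f t : ℂ) * eR f t ^ 2) + l * conj ((xR f t : ℂ) * eR f t ^ 2) + ρ * (xR f t : ℂ) := by
    funext t
    unfold h9R
    ring
  rw [h]
  exact ((((((((Bm.const α).mul H.bE).add ((Bm.const β).mul H.bE.conj)).add ((Bm.const γ).mul b3)).add
    ((Bm.const δ).mul b3.conj)).add ((Bm.const A).mul (H.bm9 F))).add ((Bm.const (-conj B)).mul
    (H.bm9 F).conj)).add ((Bm.const κ).mul b2)).add ((Bm.const l).mul b2.conj) |>.add ((Bm.const ρ).mul H.bx)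

/-- the seven test functions -/
def gR (f : ℝ → ℝ) : Fin 7 → ℝ → ℂ :=
  ![fun t => eR f t, fun t => conj (eR f t), fun t => eR f t ^ 3, fun t => conj (eR f t ^ 3),
    fun t => (xR f t : ℂ) * eR f t ^ 2, fun t => conj ((xR f t : ℂ) * eR f t ^ 2), fun t => (xR f t : ℂ)]

/-- **one state of `Cert9` in the real frame, elimination by the modulus** -/
theorem certAt9_mod (H : Re f) {Bx : Dev} {W : ℝ → ℝ} {F : Cof9} {μ T : ℝ}
    (h : ∀ A B N M S R D : ℂ, ∃ α β γ δ κ l ρ : ℂ, rest9R Bx W F μ f A B N M S R D α β γ δ κ l ρ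
      + 2 * ∫ t, ‖h9R F f A B α β γ δ κ l ρ t‖ ∂(vR f) ≤ T) : CertAt9 (devK Bx) W F μ T f := by
  intro K hK hK1 A B hA hB
  have := H.prob
  obtain ⟨R1, hR1⟩ : ∃ z : ℂ, z = ∫ t, eR f t ^ 3 * conj (K t) ∂(vR f) := ⟨_, rfl⟩
  obtain ⟨R2, hR2⟩ : ∃ z : ℂ, z = ∫ t, eR f t ^ 3 * K t ∂(vR f) := ⟨_, rfl⟩
  obtain ⟨S1, hS1⟩ : ∃ z : ℂ, z = ∫ t, ((de (X1 f) (X2 f) f t : ℂ) * eR f t ^ 2) * conj (K t) ∂(vR f) := ⟨_, rfl⟩
  obtain ⟨S2, hS2⟩ : ∃ z : ℂ, z = ∫ t, ((de (X1 f) (X2 f) f t : ℂ) * eR f t ^ 2) * K t ∂(vR f) := ⟨_, rfl⟩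
  obtain ⟨D, hD⟩ : ∃ z : ℂ, z = ∫ t, (de (X1 f) (X2 f) f t : ℂ) * K t ∂(vR f) := ⟨_, rfl⟩
  rw [H.vv] at hA hB
  simp only [H.ee] at hA hB
  unfold devK
  simp only [H.vv, H.ee, H.mk9e, ← hR1, ← hR2, ← hS1, ← hS2, ← hD]
  obtain ⟨α, β, γ, δ, κ, l, ρ, q⟩ := h A B (Cp f A B R1) (Cm f A B R2) (Sp f A B S1) (Sm f A B S2) D
  have bE := H.bE
  have b3 := bm_pow bE 3
  have b2 := H.bx.mul (bm_pow bE 2)
  have bg : ∀ i, Bm (gR f i) := by
    intro i
    fin_cases i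
    exacts [bE, bE.conj, b3, b3.conj, b2, b2.conj, H.bx]
  have key := elimG (ν := vR f) bg (H.bm9 F) hK hK1 ![α, β, γ, δ, κ, l, ρ] A B
  have eh : ∀ t, (∑ i, (![α, β, γ, δ, κ, l, ρ] : Fin 7 → ℂ) i * gR f i t) + A * mR9 F f t
      - conj B * conj (mR9 F f t) = h9R F f A B α β γ δ κ l ρ t := by
    intro t
    simp only [Fin.sum_univ_succ, gR, Fin.sum_univ_zero, Matrix.cons_val_zero, Matrix.cons_val_succ, h9R]
    ring
  simp only [eh] at key
  have cj : ∀ φ : ℝ → ℂ, ∫ t, conj (φ t) ∂(vR f) = conj (∫ t, φ t ∂(vR f)) := fun φ => integral_conj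
  have cc : ∀ g : ℝ → ℂ, conj (∫ t, conj (g t) * K t ∂(vR f)) = ∫ t, g t * conj (K t) ∂(vR f) := by
    intro g
    rw [← cj]
    congr 1
    funext t
    rw [map_mul, Complex.conj_conj]
  have x2 : ∀ g : ℝ → ℂ, ∫ t, ((xR f t : ℂ) * eR f t ^ 2) * g t ∂(vR f) =
      tR f * ∫ t, ((de (X1 f) (X2 f) f t : ℂ) * eR f t ^ 2) * g t ∂(vR f) := by
    intro g
    rw [← integral_const_mul]
    congr 1
    funext t
    rw [← H.tt t]
    ring
  have x0 : ∫ t, (xR f t : ℂ) * K t ∂(vR f) = tR f * D := by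
    rw [hD, ← integral_const_mul]
    congr 1
    funext t
    rw [← H.tt t]
    ring
  have es : ∑ i, conj ((![α, β, γ, δ, κ, l, ρ] : Fin 7 → ℂ) i) * conj (∫ t, gR f i t * K t ∂(vR f)) =
      conj α * conj (B - 3 / 2 * r3 f * conj A) + conj β * (A - 3 / 2 * r3 f * conj B)
      + conj γ * conj R2 + conj δ * R1 + conj κ * conj (tR f * S2)
      + conj l * (tR f * S1) + conj ρ * conj (tR f * D) := by
    have a5 : conj (∫ t, conj ((xR f t : ℂ) * eR f t ^ 2) * K t ∂(vR f)) = tR f * S1 := by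
      rw [cc, x2, hS1]
    simp only [Fin.sum_univ_succ, gR, Fin.sum_univ_zero, Matrix.cons_val_zero, Matrix.cons_val_succ]
    rw [cc, cc (fun t => eR f t ^ 3), a5, x2, x0, ← hA, ← hB, ← hR1, ← hR2, ← hS2, H.sf]
    ring
  rw [es] at key
  unfold rest9R at q
  have t1 : RqR f A B (tR f * Sm f A B S2) = tR f * S2 := by rw [← H.tq, Rq_Sm]
  have t2 : SqR f A B (tR f * Sp f A B S1) = tR f * S1 := by rw [← H.ts, Sq_Sp]
  have t3 : RpR f A B (Cp f A B R1) = R1 := by rw [← H.rp, Rp_Cp]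
  have t4 : RmR f A B (Cm f A B R2) = R2 := by rw [← H.rm, Rm_Cm]
  rw [t1, t2, t3, t4, ← H.bb, ← H.w9e] at q
  linarith

/-- **one state of `Cert9` in the real frame, elimination by a weight** -/
theorem certAt9_wt (H : Re f) {Bx : Dev} {W : ℝ → ℝ} {F : Cof9} {μ T : ℝ}
    (h : ∀ A B N M S R D : ℂ, ∃ α β γ δ κ l ρ : ℂ, ∃ w : ℝ → ℝ, Measurable w ∧
      (∃ a b : ℝ, 0 < a ∧ ∀ t, a ≤ w t ∧ w t ≤ b) ∧ rest9R Bx W F μ f A B N M S R D α β γ δ κ l ρ
      + (∫ t, w t ∂(vR f)) + ∫ t, ‖h9R F f A B α β γ δ κ l ρ t‖ ^ 2 / w t ∂(vR f) ≤ T) :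
    CertAt9 (devK Bx) W F μ T f := by
  refine H.certAt9_mod fun A B N M S R D => ?_
  obtain ⟨α, β, γ, δ, κ, l, ρ, w, hw, ⟨a, b, ha, hab⟩, q⟩ := h A B N M S R D
  refine ⟨α, β, γ, δ, κ, l, ρ, ?_⟩
  have := H.prob
  have bh := H.bh9 F A B α β γ δ κ l ρ
  obtain ⟨C, hC⟩ := bh.bdd
  have i1 : Integrable w (vR f) := by
    refine Integrable.of_bound hw.aestronglyMeasurable (max |a| |b|) (Eventually.of_forall fun t => ?_)
    rw [Real.norm_eq_abs]
    exact abs_le_max_abs_abs (hab t).1 (hab t).2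
  have i2 : Integrable (fun t => ‖h9R F f A B α β γ δ κ l ρ t‖ ^ 2 / w t) (vR f) := by
    refine Integrable.of_bound ((bh.meas.norm.pow_const 2).div hw).aestronglyMeasurable (C ^ 2 / a)
      (Eventually.of_forall fun t => ?_)
    have h0 : 0 < w t := lt_of_lt_of_le ha (hab t).1
    rw [Real.norm_eq_abs, abs_of_nonneg (by positivity)]
    exact div_le_div₀ (sq_nonneg _) (pow_le_pow_left₀ (norm_nonneg _) (hC t) 2) ha (hab t).1
  have key : 2 * ∫ t, ‖h9R F f A B α β γ δ κ l ρ t‖ ∂(vR f) ≤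
      (∫ t, w t ∂(vR f)) + ∫ t, ‖h9R F f A B α β γ δ κ l ρ t‖ ^ 2 / w t ∂(vR f) := by
    rw [← integral_add i1 i2, ← integral_const_mul]
    refine integral_mono (bh.int.norm.const_mul 2) (i1.add i2) fun t => ?_
    have h0 : 0 < w t := lt_of_lt_of_le ha (hab t).1
    have e : w t + ‖h9R F f A B α β γ δ κ l ρ t‖ ^ 2 / w t - 2 * ‖h9R F f A B α β γ δ κ l ρ t‖ =
        (w t - ‖h9R F f A B α β γ δ κ l ρ t‖) ^ 2 / w t := by
      field_simp
      ring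
    have : 0 ≤ (w t - ‖h9R F f A B α β γ δ κ l ρ t‖) ^ 2 / w t := by positivity
    show 2 * ‖h9R F f A B α β γ δ κ l ρ t‖ ≤ w t + ‖h9R F f A B α β γ δ κ l ρ t‖ ^ 2 / w t
    linarith
  linarith

end Re

section close

variable {W : ℝ → ℝ} {F : Cof9} {μ T : ℝ}

/-- **`Cert9` in the real frame, elimination by the modulus** -/
theorem cert9X_mod {Bx : Dev} (HR : RotDev Bx) (H : ∀ f, Re f → ∀ A B N M S R D : ℂ,
    ∃ α β γ δ κ l ρ : ℂ, rest9R Bx W F μ f A B N M S R D α β γ δ κ l ρ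
      + 2 * ∫ t, ‖h9R F f A B α β γ δ κ l ρ t‖ ∂(vR f) ≤ T) : Cert9 (devK Bx) W F μ T :=
  cert9_of_real (rotK_devK HR) fun f hf h0 h2 => Re.certAt9_mod ⟨hf, h0, h2⟩ (H f ⟨hf, h0, h2⟩)

/-- **`Cert9` in the real frame, elimination by a weight** -/
theorem cert9X_wt {Bx : Dev} (HR : RotDev Bx) (H : ∀ f, Re f → ∀ A B N M S R D : ℂ,
    ∃ α β γ δ κ l ρ : ℂ, ∃ w : ℝ → ℝ, Measurable w ∧ (∃ a b : ℝ, 0 < a ∧ ∀ t, a ≤ w t ∧ w t ≤ b) ∧
      rest9R Bx W F μ f A B N M S R D α β γ δ κ l ρ + (∫ t, w t ∂(vR f))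
      + ∫ t, ‖h9R F f A B α β γ δ κ l ρ t‖ ^ 2 / w t ∂(vR f) ≤ T) : Cert9 (devK Bx) W F μ T :=
  cert9_of_real (rotK_devK HR) fun f hf h0 h2 => Re.certAt9_wt ⟨hf, h0, h2⟩ (H f ⟨hf, h0, h2⟩)

end close

end Pool.Agent.FPX.OMR
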