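import Mathlib
import Pool.Agent.FPX.BTK
import Pool.Agent.FPX.BTY
import Pool.Agent.FPX.OMGR

/-
BTL (helper15): the certificate `CertAt9` (OMG) at a state with `ζ = s > 0` is the certificate `BTG.NC (C9 Ψ)` at the
coefficient vector `vec9`.
-/

open MeasureTheory Set Filter Topology Complex
open scoped ComplexConjugate

noncomputable section

set_option linter.unusedSectionVars false

namespace Pool.Agent.FPX.BTI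

open Pool.Agent.FPX.BTG (Sta Cls mo aK bK dev)
open Pool.Agent.FPX.CRD (Bm)
open Pool.Agent.FPX.BTN (va e1 nf ef bw)
open Pool.Agent.FPX.UMP (Ef)
open Pool.Agent.FPX.UMQ
open Pool.Agent.FPX.F54 (X1 X2 X_lt X_G1 X_G2 sF)
open Pool.Agent.FPX.S54 (de)
open Pool.Agent.FPX.OMB (vm vm_int vm_prob)
open Pool.Agent.FPX.OMS (rF cF)
open Pool.Agent.FPX.CERQ (xT)
open Pool.Agent.FPX.OM7 (Cp Cm W7 mk7 bv)
open Pool.Agent.FPX.OMG (Cof9 mk9 W9 WP mkP CertAt9 Cert9 DevK)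
open Pool.Agent.FPX.OMR (Re xR eR vR r3 r5 r7 WPR mR mR9)

/-- the coefficient vector of `(W, F, μ)` at `s = |ζ|`, `c = √(1 - s²)` -/
def vec9 (W : ℝ → ℝ) (F : Cof9) (μ s c : ℝ) : V9 :=
  ![BTN.vec W F.C μ s c 0, BTN.vec W F.C μ s c 1, BTN.vec W F.C μ s c 2, BTN.vec W F.C μ s c 3,
    BTN.vec W F.C μ s c 4, BTN.vec W F.C μ s c 5, BTN.vec W F.C μ s c 6, BTN.vec W F.C μ s c 7,
    BTN.vec W F.C μ s c 8, BTN.vec W F.C μ s c 9, BTN.vec W F.C μ s c 10, BTN.vec W F.C μ s c 11,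
    BTN.vec W F.C μ s c 12, BTN.vec W F.C μ s c 13, BTN.vec W F.C μ s c 14,
    2 * c * F.p1 (s ^ 2), 2 * c * s ^ 2 * F.p2 (s ^ 2), s ^ 4 * F.x5 (s ^ 2), s ^ 6 * F.y5 (s ^ 2),
    4 * c * (2 * c ^ 2 * deriv F.p1 (s ^ 2) - F.p1 (s ^ 2)
      + 2 * c ^ 2 * (s ^ 2 * deriv F.p2 (s ^ 2) + 3 * F.p2 (s ^ 2)) + s ^ 2 * F.p2 (s ^ 2)),
    s ^ 4 * (4 * c ^ 2 * deriv F.x5 (s ^ 2) - 5 * F.x5 (s ^ 2)
      + 4 * c ^ 2 * (s ^ 2 * deriv F.y5 (s ^ 2) + 6 * F.y5 (s ^ 2)) + 5 * s ^ 2 * F.y5 (s ^ 2))]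

section

variable {Q : Type} [Fintype Q] {Ψ : Psi9 Q} {f : ℝ → ℝ}

theorem xR_eq (_hf : Ef f) (h0 : 0 ≤ X1 f) (h2 : X2 f = 0) : xR f = xT f := by
  funext t
  unfold xR xT
  rw [BTN.rF_eq h2, Real.sqrt_sq h0, h2]

theorem eR_eq (h2 : X2 f = 0) : eR f = ef f := by
  unfold eR
  rw [ef, h2]

theorem vR_eq (h2 : X2 f = 0) : vR f = nf f := by
  unfold vR
  rw [nf, h2]

theorem r3_eq (hf : Ef f) (h0 : 0 ≤ X1 f) (h2 : X2 f = 0) : r3 f = mo (C9 Ψ) (nf f) (xT f) (ef f) 0 := by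
  unfold r3
  rw [xR_eq hf h0 h2, eR_eq h2, vR_eq h2]
  rfl

theorem r5_eq (hf : Ef f) (h0 : 0 ≤ X1 f) (h2 : X2 f = 0) : r5 f = mo (C9 Ψ) (nf f) (xT f) (ef f) 1 := by
  unfold r5
  rw [xR_eq hf h0 h2, eR_eq h2, vR_eq h2]
  rfl

theorem r7_eq (hf : Ef f) (h0 : 0 ≤ X1 f) (h2 : X2 f = 0) : r7 f = mo (C9 Ψ) (nf f) (xT f) (ef f) 2 := by
  unfold r7
  rw [xR_eq hf h0 h2, eR_eq h2, vR_eq h2]
  rfl

theorem P0_eq' {f : ℝ → ℝ} : BTN.P0 (nf f) (xT f) = (mo (C9 Ψ) (nf f) (xT f) (ef f) 3).re := by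
  have e : ∫ t, (xT f t : ℂ) ^ 2 ∂(nf f) = ((∫ t, xT f t ^ 2 ∂(nf f) : ℝ) : ℂ) := by
    refine Eq.trans ?_ integral_complex_ofReal
    congr 1
    funext t
    push_cast
    ring
  show BTN.P0 (nf f) (xT f) = (∫ t, (xT f t : ℂ) ^ 2 ∂(nf f)).re
  rw [e, Complex.ofReal_re]
  rfl

/-- the coefficient of the Jacobian -/
theorem W9_eq (W : ℝ → ℝ) (F : Cof9) (μ : ℝ) (hf : Ef f) (hs : 0 < X1 f) (h2 : X2 f = 0) :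
    W9 W F f = om9 (vec9 W F μ (X1 f) (cF f)) (mo (C9 Ψ) (nf f) (xT f) (ef f)) := by
  have H : Re f := ⟨hf, hs.le, h2⟩
  unfold W9
  rw [BTN.W7_eq W F.C μ hf hs h2, H.wpe]
  unfold WPR
  rw [r3_eq (Ψ := Ψ) hf hs.le h2, r5_eq (Ψ := Ψ) hf hs.le h2, r7_eq (Ψ := Ψ) hf hs.le h2,
    P0_eq' (Ψ := Ψ) (f := f)]
  unfold om9
  rw [BTN.rF_eq h2]
  have e3 : BTN.M3 (nf f) (xT f) (ef f) = mo (C9 Ψ) (nf f) (xT f) (ef f) 0 := rfl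
  have e5 : BTN.M5 (nf f) (xT f) (ef f) = mo (C9 Ψ) (nf f) (xT f) (ef f) 1 := rfl
  have p2 : BTN.P2 (nf f) (xT f) (ef f) = mo (C9 Ψ) (nf f) (xT f) (ef f) 4 := rfl
  have p4 : BTN.P4 (nf f) (xT f) (ef f) = mo (C9 Ψ) (nf f) (xT f) (ef f) 5 := rfl
  rw [e3, e5, p2, p4]
  simp only [vec9, Matrix.cons_val_zero, Matrix.cons_val_one, Matrix.cons_val, Complex.normSq_eq_norm_sq]
  ring

/-- the kernel -/
theorem mk9_eq (W : ℝ → ℝ) (F : Cof9) (μ : ℝ) (hf : Ef f) (hs : 0 < X1 f) (h2 : X2 f = 0) (t : ℝ) :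
    mk9 F f t = ke9 (vec9 W F μ (X1 f) (cF f)) (mo (C9 Ψ) (nf f) (xT f) (ef f)) (ef f t) (xT f t) := by
  have H : Re f := ⟨hf, hs.le, h2⟩
  rw [H.mk9e]
  unfold mR9 mR ke9
  rw [r3_eq (Ψ := Ψ) hf hs.le h2, r5_eq (Ψ := Ψ) hf hs.le h2, BTN.rF_eq h2, xR_eq hf hs.le h2, eR_eq h2]
  simp only [vec9, BTN.vec, Matrix.cons_val_zero, Matrix.cons_val_one, Matrix.cons_val]
  push_cast
  ring

theorem n9_eq (A B : ℂ) (K : ℝ → ℂ) : n9 (mo (C9 Ψ) (nf f) (xT f) (ef f)) A B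
    (bK (C9 Ψ) (nf f) (xT f) (ef f) K 0) =
      BTN.cp (nf f) (xT f) (ef f) A B (∫ t, C54.ep (X1 f) (X2 f) t ^ 3 * conj (K t) ∂(vm (X1 f) (X2 f))) := rfl

theorem m9_eq (A B : ℂ) (K : ℝ → ℂ) : m9 (mo (C9 Ψ) (nf f) (xT f) (ef f)) A B
    (aK (C9 Ψ) (nf f) (xT f) (ef f) K 0) =
      BTN.cm (nf f) (xT f) (ef f) A B (∫ t, C54.ep (X1 f) (X2 f) t ^ 3 * K t ∂(vm (X1 f) (X2 f))) := rfl

theorem bb9_eq (W : ℝ → ℝ) (F : Cof9) (μ : ℝ) (hf : Ef f) (hs : 0 < X1 f) (h2 : X2 f = 0) (A B N M : ℂ) :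
    bv F.C f A B N M = bb9 (vec9 W F μ (X1 f) (cF f)) (mo (C9 Ψ) (nf f) (xT f) (ef f)) A B N M := by
  rw [BTN.bv_eq W F.C μ hf hs h2]
  unfold bb9
  have e3 : BTN.M3 (nf f) (xT f) (ef f) = mo (C9 Ψ) (nf f) (xT f) (ef f) 0 := rfl
  rw [e3]
  simp only [vec9, Matrix.cons_val]

theorem v9_14 (W : ℝ → ℝ) (F : Cof9) (μ s c : ℝ) : vec9 W F μ s c 14 = μ := by
  simp only [vec9, BTN.vec, Matrix.cons_val_zero, Matrix.cons_val_one, Matrix.cons_val]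

/-- the left side of the certificate -/
theorem lh9_eq (W : ℝ → ℝ) (F : Cof9) (u : Q → ℝ) (μ : ℝ) (hf : Ef f) (hs : 0 < X1 f) (h2 : X2 f = 0)
    (K : ℝ → ℂ) (A B : ℂ) :
    BTG.lh (C9 Ψ) (nf f) (xT f) (ef f) (vec9 W F 0 (X1 f) (cF f)) u μ K A B =
      W9 W F f * (‖A‖ ^ 2 - ‖B‖ ^ 2)
      + 2 * (A * ∫ t, mk9 F f t * K t ∂(vm (X1 f) (X2 f))).re
      - 2 * (B * ∫ t, mk9 F f t * conj (K t) ∂(vm (X1 f) (X2 f))).re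
      + bv F.C f A B (Cp f A B (∫ t, C54.ep (X1 f) (X2 f) t ^ 3 * conj (K t) ∂(vm (X1 f) (X2 f))))
          (Cm f A B (∫ t, C54.ep (X1 f) (X2 f) t ^ 3 * K t ∂(vm (X1 f) (X2 f))))
      + 2 * μ * ‖dev (C9 Ψ) u (mo (C9 Ψ) (nf f) (xT f) (ef f)) A B (aK (C9 Ψ) (nf f) (xT f) (ef f) K)
        (bK (C9 Ψ) (nf f) (xT f) (ef f) K)‖ ^ 2 := by
  have e1 : ∀ t, BTG.ker (C9 Ψ) (vec9 W F 0 (X1 f) (cF f)) (mo (C9 Ψ) (nf f) (xT f) (ef f)) (ef f t) (xT f t) =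
      mk9 F f t := fun t => by
    rw [ker9, ← mk9_eq W F 0 hf hs h2]
  unfold BTG.lh
  rw [tht9, ← W9_eq (Ψ := Ψ) W F 0 hf hs h2, ← bb9_eq (Ψ := Ψ) W F 0 hf hs h2, v9_14, n9_eq, m9_eq,
    BTN.Cp_eq hf hs h2, BTN.Cm_eq hf hs h2]
  simp only [e1]
  ring

/-- **the certificate `CertAt9` from the certificate of the class `C9`** -/
theorem certAt9_of_NC {Bk : DevK} {W : ℝ → ℝ} {F : Cof9} {u : Q → ℝ} {μ T : ℝ} (hμ : 0 ≤ μ) (hf : Ef f)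
    (hs : 0 < X1 f) (h2 : X2 f = 0)
    (HB : ∀ K : ℝ → ℂ, Measurable K → (∀ t, ‖K t‖ ≤ 1) → ∀ A B : ℂ, ‖Bk f K A B‖ ≤
      ‖dev (C9 Ψ) u (mo (C9 Ψ) (nf f) (xT f) (ef f)) A B (aK (C9 Ψ) (nf f) (xT f) (ef f) K)
        (bK (C9 Ψ) (nf f) (xT f) (ef f) K)‖)
    (H : BTG.NC (C9 Ψ) (nf f) (xT f) (ef f) (vec9 W F 0 (X1 f) (cF f)) u μ T) : CertAt9 Bk W F μ T f := by
  intro K hK hK1 A B hA hB
  rw [BTN.sF_eq hf hs h2] at hA hB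
  have h := H K hK hK1 A B hA hB
  rw [lh9_eq W F u μ hf hs h2 K A B] at h
  have h3 := mul_le_mul_of_nonneg_left (pow_le_pow_left₀ (norm_nonneg _) (HB K hK hK1 A B) 2)
    (show (0 : ℝ) ≤ 2 * μ by linarith)
  linarith

/-- the deviation `Bx` of a start map in the real frame, bounded by `∑ u_q Ψ_q` -/
def DevLe (Bx : OM7.Dev) (Ψ : Psi9 Q) (u : Q → ℝ) (f : ℝ → ℝ) : Prop :=
  ∀ A B N M S R G : ℂ, ‖Bx f A B N M S R G‖ ≤ ‖dev9 Ψ u (mo (C9 Ψ) (nf f) (xT f) (ef f)) A B N M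
    (((X1 f / cF f : ℝ) : ℂ) * S) (((X1 f / cF f : ℝ) : ℂ) * R) (((X1 f / cF f : ℝ) : ℂ) * G)‖

theorem devK_le {Bx : OM7.Dev} {u : Q → ℝ} (hf : Ef f) (hs : 0 < X1 f) (h2 : X2 f = 0)
    (HB : DevLe Bx Ψ u f) (K : ℝ → ℂ) (A B : ℂ) : ‖OM7.devK Bx f K A B‖ ≤
      ‖dev (C9 Ψ) u (mo (C9 Ψ) (nf f) (xT f) (ef f)) A B (aK (C9 Ψ) (nf f) (xT f) (ef f) K)
        (bK (C9 Ψ) (nf f) (xT f) (ef f) K)‖ := by
  unfold OM7.devK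
  refine (HB _ _ _ _ _ _ _).trans (le_of_eq ?_)
  rw [BTN.Cp_eq hf hs h2, BTN.Cm_eq hf hs h2, BTN.t_Sp hf hs h2, BTN.t_Sm hf hs h2]
  have e1 : ((X1 f / cF f : ℝ) : ℂ) * ∫ t, ((de (X1 f) (X2 f) f t : ℂ) * C54.ep (X1 f) (X2 f) t ^ 2)
      * conj (K t) ∂(vm (X1 f) (X2 f)) = bK (C9 Ψ) (nf f) (xT f) (ef f) K 1 := by
    have := BTN.t_int hf hs h2 (fun t => ef f t ^ 2 * conj (K t))
    simp only [← mul_assoc] at this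
    exact this
  have e2 : ((X1 f / cF f : ℝ) : ℂ) * ∫ t, ((de (X1 f) (X2 f) f t : ℂ) * C54.ep (X1 f) (X2 f) t ^ 2)
      * K t ∂(vm (X1 f) (X2 f)) = aK (C9 Ψ) (nf f) (xT f) (ef f) K 1 := by
    have := BTN.t_int hf hs h2 (fun t => ef f t ^ 2 * K t)
    simp only [← mul_assoc] at this
    exact this
  have e3 : ((X1 f / cF f : ℝ) : ℂ) * ∫ t, (de (X1 f) (X2 f) f t : ℂ) * K t ∂(vm (X1 f) (X2 f)) =
      aK (C9 Ψ) (nf f) (xT f) (ef f) K 2 := BTN.t_int hf hs h2 K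
  rw [e1, e2, e3]
  rfl

/-- **the certificate `CertAt9 (devK Bx)` from the certificate of the class `C9`** -/
theorem certAt9X_of_NC {Bx : OM7.Dev} {W : ℝ → ℝ} {F : Cof9} {u : Q → ℝ} {μ T : ℝ} (hμ : 0 ≤ μ) (hf : Ef f)
    (hs : 0 < X1 f) (h2 : X2 f = 0) (HB : DevLe Bx Ψ u f)
    (H : BTG.NC (C9 Ψ) (nf f) (xT f) (ef f) (vec9 W F 0 (X1 f) (cF f)) u μ T) :
    CertAt9 (OM7.devK Bx) W F μ T f :=
  certAt9_of_NC hμ hf hs h2 (fun K _ _ A B => devK_le hf hs h2 HB K A B) H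

end

end Pool.Agent.FPX.BTI
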