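import Mathlib
import Pool.Agent.FPX.BTK

/-
BTV (helper15): the VERTEX PRINCIPLE for the weight (helper14). The reciprocal weight may be replaced by a finite convex family
`(lam k, q k)` (`lam` depends on the state, for example the barycentric coordinates of `σ` in a triangle): only the weighted
sum of the conditions is needed, so multipliers `Λ (σ - σ_k)` cancel.
-/

open MeasureTheory Set Filter Topology Real
open scoped NNReal ComplexConjugate

noncomputable section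

set_option linter.unusedSectionVars false

namespace Pool.Agent.FPX.BTG

open Pool.Agent.FPX.CRD (Bm)
open Pool.Agent.FPX.ALX
open Pool.Agent.FPX.BTN (va e1 nf ef)
open Pool.Agent.FPX.UMP (Ef)
open Pool.Agent.FPX.F54 (X1 X2 X_lt X_G1 X_G2)
open Pool.Agent.FPX.CERQ (xT)

variable {J L I Q : Type} [Fintype L] [Fintype I] [Fintype Q] {C : Cls J L I Q}
variable {X : Type*} [MeasurableSpace X] {ν : Measure X} {D : X → ℝ} {E : X → ℂ}

/-- the bound of the certificate by the modulus, for given multipliers -/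
theorem lh_le (H : Sta ν D E) {v : I → ℝ} {u : Q → ℝ} {μ : ℝ} {K : X → ℂ} (hK : Measurable K)
    (hK1 : ∀ t, ‖K t‖ ≤ 1) {A B : ℂ} (hA : A - C.σ (mo C ν D E) * conj B = ∫ t, E t * conj (K t) ∂ν)
    (hB : B - C.σ (mo C ν D E) * conj A = ∫ t, E t * K t ∂ν) (α β : ℂ) (γ δ : L → ℂ) :
    lh C ν D E v u μ K A B ≤ rst C v u μ (mo C ν D E) A B (aK C ν D E K) (bK C ν D E K) α β γ δ
      + 2 * ∫ t, ‖hh C v (mo C ν D E) A B α β γ δ (E t) (D t)‖ ∂ν := by
  have := H.pr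
  set m := mo C ν D E with hm
  have bmK : Bm K := ⟨hK, 1, hK1⟩
  have bh : Bm fun t => hh C v m A B α β γ δ (E t) (D t) := H.bm (hh_cont v m A B α β γ δ)
  have bk : Bm fun t => ker C v m (E t) (D t) := H.bm (ker_cont v m)
  have bE : Bm E := ⟨H.mE, 1, fun t => (H.hE t).le⟩
  have bρ : ∀ l, Bm fun t => C.ρ l (E t) (D t) := fun l => H.bm (C.cρ l)
  have cj : ∀ φ : X → ℂ, ∫ t, conj (φ t) ∂ν = conj (∫ t, φ t ∂ν) := fun φ => integral_conj
  have e : ∫ t, conj (K t) * conj (hh C v m A B α β γ δ (E t) (D t)) ∂ν =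
      conj α * conj (∫ t, E t * K t ∂ν) + (conj β * ∫ t, E t * conj (K t) ∂ν
      + (∑ l, (conj (γ l) * conj (aK C ν D E K l) + conj (δ l) * bK C ν D E K l)
      + (conj A * conj (∫ t, ker C v m (E t) (D t) * K t ∂ν)
      - B * ∫ t, ker C v m (E t) (D t) * conj (K t) ∂ν))) := by
    have e1 : (fun t => conj (K t) * conj (hh C v m A B α β γ δ (E t) (D t))) = fun t =>
        conj α * conj (E t * K t) + (conj β * (E t * conj (K t))
        + (∑ l, (conj (γ l) * conj (C.ρ l (E t) (D t) * K t) + conj (δ l) * (C.ρ l (E t) (D t) * conj (K t)))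
        + (conj A * conj (ker C v m (E t) (D t) * K t) - B * (ker C v m (E t) (D t) * conj (K t))))) := by
      funext t
      unfold hh
      simp only [map_add, map_sub, map_mul, map_sum, Complex.conj_conj]
      have : conj (K t) * ∑ l, (conj (γ l) * conj (C.ρ l (E t) (D t)) + conj (δ l) * C.ρ l (E t) (D t)) =
          ∑ l, (conj (γ l) * (conj (C.ρ l (E t) (D t)) * conj (K t)) + conj (δ l) * (C.ρ l (E t) (D t) * conj (K t))) := by
        rw [Finset.mul_sum]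
        exact Finset.sum_congr rfl fun l _ => by ring
      rw [← this]
      ring
    have b1 : Bm fun t => conj α * conj (E t * K t) := (Bm.const _).mul (bE.mul bmK).conj
    have b2 : Bm fun t => conj β * (E t * conj (K t)) := (Bm.const _).mul (bE.mul bmK.conj)
    have b3 : ∀ l, Bm fun t => conj (γ l) * conj (C.ρ l (E t) (D t) * K t)
        + conj (δ l) * (C.ρ l (E t) (D t) * conj (K t)) := fun l =>
      ((Bm.const _).mul ((bρ l).mul bmK).conj).add ((Bm.const _).mul ((bρ l).mul bmK.conj))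
    have b5 : Bm fun t => conj A * conj (ker C v m (E t) (D t) * K t) := (Bm.const _).mul (bk.mul bmK).conj
    have b6 : Bm fun t => B * (ker C v m (E t) (D t) * conj (K t)) := (Bm.const _).mul (bk.mul bmK.conj)
    have i4 : Integrable (fun t => conj A * conj (ker C v m (E t) (D t) * K t)
        - B * (ker C v m (E t) (D t) * conj (K t))) ν := b5.int.sub b6.int
    have i3 : Integrable (fun t => ∑ l, (conj (γ l) * conj (C.ρ l (E t) (D t) * K t)
        + conj (δ l) * (C.ρ l (E t) (D t) * conj (K t)))) ν := integrable_finsetSum _ fun l _ => (b3 l).int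
    have i34 : Integrable (fun t => ∑ l, (conj (γ l) * conj (C.ρ l (E t) (D t) * K t)
        + conj (δ l) * (C.ρ l (E t) (D t) * conj (K t)))
        + (conj A * conj (ker C v m (E t) (D t) * K t) - B * (ker C v m (E t) (D t) * conj (K t)))) ν :=
      i3.add i4
    have i234 : Integrable (fun t => conj β * (E t * conj (K t))
        + (∑ l, (conj (γ l) * conj (C.ρ l (E t) (D t) * K t) + conj (δ l) * (C.ρ l (E t) (D t) * conj (K t)))
        + (conj A * conj (ker C v m (E t) (D t) * K t) - B * (ker C v m (E t) (D t) * conj (K t))))) ν :=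
      b2.int.add i34
    rw [e1, integral_add b1.int i234, integral_add b2.int i34,
      integral_add i3 i4, integral_finsetSum _ fun l _ => (b3 l).int, integral_sub b5.int b6.int,
      integral_const_mul, integral_const_mul, integral_const_mul, integral_const_mul, cj, cj]
    have e3 : ∀ l, ∫ t, (conj (γ l) * conj (C.ρ l (E t) (D t) * K t)
        + conj (δ l) * (C.ρ l (E t) (D t) * conj (K t))) ∂ν =
        conj (γ l) * conj (aK C ν D E K l) + conj (δ l) * bK C ν D E K l := by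
      intro l
      have b31 : Bm fun t => conj (γ l) * conj (C.ρ l (E t) (D t) * K t) :=
        (Bm.const _).mul ((bρ l).mul bmK).conj
      have b32 : Bm fun t => conj (δ l) * (C.ρ l (E t) (D t) * conj (K t)) :=
        (Bm.const _).mul ((bρ l).mul bmK.conj)
      rw [integral_add b31.int b32.int, integral_const_mul, integral_const_mul, cj]
      rfl
    rw [Finset.sum_congr rfl fun l _ => e3 l]
  have hb : 2 * (∫ t, conj (K t) * conj (hh C v m A B α β γ δ (E t) (D t)) ∂ν).re ≤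
      2 * ∫ t, ‖hh C v m A B α β γ δ (E t) (D t)‖ ∂ν := by
    have h1 : ‖∫ t, conj (K t) * conj (hh C v m A B α β γ δ (E t) (D t)) ∂ν‖ ≤
        ∫ t, ‖hh C v m A B α β γ δ (E t) (D t)‖ ∂ν := by
      refine norm_integral_le_of_norm_le bh.int.norm (Eventually.of_forall fun t => ?_)
      rw [norm_mul, Complex.norm_conj, Complex.norm_conj]
      exact mul_le_of_le_one_left (norm_nonneg _) (hK1 t)
    have h2 := Complex.re_le_norm (∫ t, conj (K t) * conj (hh C v m A B α β γ δ (E t) (D t)) ∂ν)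
    linarith
  rw [e] at hb
  have c1 : (conj A * conj (∫ t, ker C v m (E t) (D t) * K t ∂ν)).re =
      (A * ∫ t, ker C v m (E t) (D t) * K t ∂ν).re := by
    rw [← map_mul, Complex.conj_re]
  unfold lh rst
  rw [← hm, hA, hB]
  simp only [Complex.add_re, Complex.sub_re] at hb ⊢
  rw [c1] at hb
  linarith

/-- `2 ∫ |h| ≤ ∫ 1/q + ∫ |h|² q` -/
theorem two_int_le (H : Sta ν D E) {q : ℂ → ℝ → ℝ} (hq : Continuous (fun p : ℂ × ℝ => q p.1 p.2))
    (hp : ∀ e x, ‖e‖ = 1 → |x| ≤ 1 → 0 < q e x) {h : ℂ → ℝ → ℂ} (ch : Continuous fun p : ℂ × ℝ => h p.1 p.2) :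
    2 * ∫ t, ‖h (E t) (D t)‖ ∂ν ≤ (∫ t, 1 / q (E t) (D t) ∂ν) + ∫ t, ‖h (E t) (D t)‖ ^ 2 * q (E t) (D t) ∂ν := by
  have := H.pr
  obtain ⟨a0, b0, ha0, hab⟩ := BTN.q_bounds hq hp
  have bh : Bm fun t => h (E t) (D t) := H.bm ch
  obtain ⟨M, hM⟩ := bh.bdd
  have mq : Measurable fun t => q (E t) (D t) := hq.measurable.comp (H.mE.prodMk H.mD)
  have hab' : ∀ t, a0 ≤ q (E t) (D t) ∧ q (E t) (D t) ≤ b0 := fun t => hab _ _ (H.hE t) (H.hD t)
  have i1 : Integrable (fun t => 1 / q (E t) (D t)) ν := by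
    refine Integrable.of_bound (measurable_const.div mq).aestronglyMeasurable (1 / a0)
      (Eventually.of_forall fun t => ?_)
    have h0 : 0 < q (E t) (D t) := lt_of_lt_of_le ha0 (hab' t).1
    rw [Real.norm_eq_abs, abs_of_nonneg (by positivity)]
    exact one_div_le_one_div_of_le ha0 (hab' t).1
  have i2 : Integrable (fun t => ‖h (E t) (D t)‖ ^ 2 * q (E t) (D t)) ν := by
    refine Integrable.of_bound ((bh.meas.norm.pow_const 2).mul mq).aestronglyMeasurable (M ^ 2 * b0)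
      (Eventually.of_forall fun t => ?_)
    have h0 : 0 < q (E t) (D t) := lt_of_lt_of_le ha0 (hab' t).1
    rw [Real.norm_eq_abs, abs_of_nonneg (by positivity)]
    exact mul_le_mul (pow_le_pow_left₀ (norm_nonneg _) (hM t) 2) (hab' t).2 h0.le (sq_nonneg M)
  rw [← integral_add i1 i2, ← integral_const_mul]
  refine integral_mono (bh.int.norm.const_mul 2) (i1.add i2) fun t => ?_
  have h0 : 0 < q (E t) (D t) := lt_of_lt_of_le ha0 (hab' t).1
  have e : 1 / q (E t) (D t) + ‖h (E t) (D t)‖ ^ 2 * q (E t) (D t) - 2 * ‖h (E t) (D t)‖ =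
      (1 - ‖h (E t) (D t)‖ * q (E t) (D t)) ^ 2 / q (E t) (D t) := by
    field_simp
    ring
  have : 0 ≤ (1 - ‖h (E t) (D t)‖ * q (E t) (D t)) ^ 2 / q (E t) (D t) := by positivity
  show 2 * ‖h (E t) (D t)‖ ≤ 1 / q (E t) (D t) + ‖h (E t) (D t)‖ ^ 2 * q (E t) (D t)
  linarith

/-- a finite convex family of reciprocal weights -/
structure Fam (R : Finset ℕ) (lam : ℕ → ℝ) (q : ℕ → ℂ → ℝ → ℝ) : Prop where
  h0 : ∀ k ∈ R, 0 ≤ lam k
  h1 : ∑ k ∈ R, lam k = 1
  hq : ∀ k ∈ R, Continuous (fun p : ℂ × ℝ => q k p.1 p.2)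
  hp : ∀ k ∈ R, ∀ e x, ‖e‖ = 1 → |x| ≤ 1 → 0 < q k e x

/-- **the vertex condition at a coefficient vector** -/
def RWV (C : Cls J L I Q) (ν : Measure X) (D : X → ℝ) (E : X → ℂ) (v : I → ℝ) (u : Q → ℝ) (μ T : ℝ) : Prop :=
  ∃ (R : Finset ℕ) (lam : ℕ → ℝ) (q : ℕ → ℂ → ℝ → ℝ), Fam R lam q ∧
    ∑ k ∈ R, lam k * ∫ t, 1 / q k (E t) (D t) ∂ν ≤ T ∧
    ∀ (A B : ℂ) (a b : L → ℂ), ∃ (α β : ℕ → ℂ) (γ δ : ℕ → L → ℂ),
      ∑ k ∈ R, lam k * (rst C v u μ (mo C ν D E) A B a b (α k) (β k) (γ k) (δ k)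
        + ∫ t, ‖hh C v (mo C ν D E) A B (α k) (β k) (γ k) (δ k) (E t) (D t)‖ ^ 2 * q k (E t) (D t) ∂ν) ≤ 0

theorem NC_of_RWV (H : Sta ν D E) {v : I → ℝ} {u : Q → ℝ} {μ T : ℝ} (h : RWV C ν D E v u μ T) :
    NC C ν D E v u μ T := by
  obtain ⟨R, lam, q, F, hT, h⟩ := h
  intro K hK hK1 A B hA hB
  obtain ⟨α, β, γ, δ, h⟩ := h A B (aK C ν D E K) (bK C ν D E K)
  have key : ∀ k ∈ R, lam k * lh C ν D E v u μ K A B ≤ lam k * (∫ t, 1 / q k (E t) (D t) ∂ν)
      + lam k * (rst C v u μ (mo C ν D E) A B (aK C ν D E K) (bK C ν D E K) (α k) (β k) (γ k) (δ k)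
        + ∫ t, ‖hh C v (mo C ν D E) A B (α k) (β k) (γ k) (δ k) (E t) (D t)‖ ^ 2 * q k (E t) (D t) ∂ν) := by
    intro k hk
    have a1 := lh_le (v := v) (u := u) (μ := μ) H hK hK1 hA hB (α k) (β k) (γ k) (δ k)
    have a2 := two_int_le H (F.hq k hk) (F.hp k hk)
      (hh_cont (C := C) v (mo C ν D E) A B (α k) (β k) (γ k) (δ k))
    rw [← mul_add]
    exact mul_le_mul_of_nonneg_left (by linarith) (F.h0 k hk)
  have s := Finset.sum_le_sum key
  rw [← Finset.sum_mul, F.h1, one_mul, Finset.sum_add_distrib] at s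
  linarith

variable {f : ℝ → ℝ}

/-- the vertex condition in the visual angle gives the vertex condition for the state -/
theorem RWV_tr (hf : Ef f) (h0 : 0 ≤ X1 f) (h2 : X2 f = 0) {v : I → ℝ} {u : Q → ℝ} {μ T : ℝ}
    (H : RWV C va (Xa (X1 f) f) e1 v u μ T) : RWV C (nf f) (xT f) (ef f) v u μ T := by
  obtain ⟨R, lam, q, F, hT, h⟩ := H
  have hb : ∀ k ∈ R, ∃ a : ℝ, 0 < a ∧ ∀ e x, ‖e‖ = 1 → |x| ≤ 1 → a ≤ q k e x := by
    intro k hk
    obtain ⟨a, b, ha, hab⟩ := BTN.q_bounds (F.hq k hk) (F.hp k hk)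
    exact ⟨a, ha, fun e x he hx => (hab e x he hx).1⟩
  choose! a ha hab using hb
  set P : ℕ → ℂ → ℝ → ℝ := fun k e x => max (a k) (q k e x) with hP
  have cP : ∀ k ∈ R, Continuous fun p : ℂ × ℝ => P k p.1 p.2 := fun k hk => continuous_const.max (F.hq k hk)
  have pP : ∀ k ∈ R, ∀ e x, 0 < P k e x := fun k hk e x => lt_of_lt_of_le (ha k hk) (le_max_left _ _)
  have eP : ∀ k ∈ R, ∀ e x, ‖e‖ = 1 → |x| ≤ 1 → P k e x = q k e x := fun k hk e x he hx =>
    max_eq_right (hab k hk e x he hx)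
  have hXa : ∀ a, |Xa (X1 f) f a| ≤ 1 := fun a => by
    rw [← ALY.xT_tA hf h0 h2]
    exact BTN.xT_le hf h0 h2 _
  refine ⟨R, lam, P, ⟨F.h0, F.h1, cP, fun k hk e x _ _ => pP k hk e x⟩, ?_, fun A B a' b' => ?_⟩
  · refine le_trans (le_of_eq (Finset.sum_congr rfl fun k hk => ?_)) hT
    have c : Continuous fun p : ℂ × ℝ => 1 / P k p.1 p.2 :=
      continuous_const.div (cP k hk) fun p => (pP k hk _ _).ne'
    rw [BTN.tr_R hf h0 h2 (Φ := fun e x => 1 / P k e x) c]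
    congr 2
    funext t
    rw [eP k hk _ _ (BTN.norm_e1 t) (hXa t)]
  · obtain ⟨α, β, γ, δ, h'⟩ := h A B a' b'
    refine ⟨α, β, γ, δ, le_trans (le_of_eq (Finset.sum_congr rfl fun k hk => ?_)) h'⟩
    rw [t_mo hf h0 h2]
    have c : Continuous fun p : ℂ × ℝ =>
        ‖hh C v (mo C va (Xa (X1 f) f) e1) A B (α k) (β k) (γ k) (δ k) p.1 p.2‖ ^ 2 * P k p.1 p.2 :=
      ((hh_cont v _ A B _ _ _ _).norm.pow 2).mul (cP k hk)
    rw [BTN.tr_R hf h0 h2 (Φ := fun e x =>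
      ‖hh C v (mo C va (Xa (X1 f) f) e1) A B (α k) (β k) (γ k) (δ k) e x‖ ^ 2 * P k e x) c]
    congr 3
    funext t
    rw [eP k hk _ _ (BTN.norm_e1 t) (hXa t)]

/-- **a latitude cell, vertex version** -/
theorem cellV (hf : Ef f) (h0 : 0 ≤ X1 f) (h2 : X2 f = 0) {μ T : ℝ} (hμ : 0 ≤ μ) {s' : ℝ} (hs' : X1 f ≤ s')
    (h1 : s' ≤ 1) {P : (ℝ → ℝ) → Prop} (hP : P (Xa (X1 f) f)) {κ : Type*} {S : Finset κ} {c : κ → ℝ}
    {v : κ → I → ℝ} {u : κ → Q → ℝ} (hc : ∀ j ∈ S, 0 ≤ c j) (hc1 : ∑ j ∈ S, c j = 1) {v0 : I → ℝ} {u0 : Q → ℝ}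
    (hv : v0 = ∑ j ∈ S, c j • v j) (hu : u0 = ∑ j ∈ S, c j • u j)
    (H : ∀ j ∈ S, ∀ X, St s' X → (∀ a, |X a| ≤ 31 / 50 * s') → P X → RWV C va X e1 (v j) (u j) μ T) :
    NC C (nf f) (xT f) (ef f) v0 u0 μ T := by
  have hS := (ALY.st hf h0 h2).mono h0 hs' h1
  have hb : ∀ a, |Xa (X1 f) f a| ≤ 31 / 50 * s' := fun a => (BTN.Xa_bd hf h0 h2 a).trans (by linarith)
  rw [hv, hu]
  exact NC.comb (sta hf h0 h2) hc hc1 hμ fun j hj =>
    NC_of_RWV (sta hf h0 h2) (RWV_tr hf h0 h2 (H j hj _ hS hb hP))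

end Pool.Agent.FPX.BTG
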