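import Mathlib
import Pool.Agent.FPX.BTL
import Pool.Agent.FPX.BTV

/-
ASM (helper86): assembly of the certificate `Cert9` from latitude cells. A cell `[a, b]` of `c = √(1 - |ζ|²)` is settled by
the certificates at finitely many control points (Bernstein weights in `c`) and a bound of the remainder of the
coefficient vectors; the cells cover `[0, 1]`.
-/

open MeasureTheory Set Filter Topology Complex
open scoped ComplexConjugate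

noncomputable section

set_option linter.unusedSectionVars false

namespace Pool.Agent.FPX.ASM

open Pool.Agent.FPX.BTG (Sta Cls mo aK bK dev NC RW RWV)
open Pool.Agent.FPX.BTI
open Pool.Agent.FPX.ALX
open Pool.Agent.FPX.BTN (va e1 nf ef bw)
open Pool.Agent.FPX.UMP (Ef)
open Pool.Agent.FPX.F54 (X1 X2 X_lt sF)
open Pool.Agent.FPX.OMS (rF cF)
open Pool.Agent.FPX.CERQ (xT)
open Pool.Agent.FPX.OM7 (RotDev devK Cert7X CertAtX)
open Pool.Agent.FPX.OMG (Cof9 CertAt9 Cert9 DevK)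
open Pool.Agent.FPX.OMR (Re)

variable {Q : Type} [Fintype Q] {Ψ : Psi9 Q} {Bx : OM7.Dev} {W : ℝ → ℝ} {F : Cof9} {μ T : ℝ}

/-! ### control points -/

/-- the certificate of the class `C9 Ψ` holds at the coefficient vectors `(v, u τ)`, `|τ| ≤ τ₀`, for all states with
`ζ ∈ [0, s']` -/
def CtlOK (Ψ : Psi9 Q) (μ T τ₀ s' : ℝ) (v : V9) (u : ℂ → Q → ℝ) : Prop :=
  ∀ τ : ℂ, ‖τ‖ ≤ τ₀ → ∀ f, Re f → X1 f ≤ s' → NC (C9 Ψ) (nf f) (xT f) (ef f) v (u τ) μ T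

theorem ctl_of_RW {τ₀ s' : ℝ} (h1 : s' ≤ 1) {v : V9} {u : ℂ → Q → ℝ}
    (H : ∀ X, St s' X → (∀ a, |X a| ≤ 31 / 50 * s') → ∀ τ : ℂ, ‖τ‖ ≤ τ₀ → RW (C9 Ψ) va X e1 v (u τ) μ T) :
    CtlOK Ψ μ T τ₀ s' v u := by
  intro τ hτ f R hs
  have hS := (ALY.st R.hf R.h0 R.h2).mono R.h0 hs h1
  have hb : ∀ a, |Xa (X1 f) f a| ≤ 31 / 50 * s' := fun a => (BTN.Xa_bd R.hf R.h0 R.h2 a).trans (by linarith)
  exact BTG.NC_of_RW (BTG.sta R.hf R.h0 R.h2) (BTG.RW_tr R.hf R.h0 R.h2 (H _ hS hb τ hτ))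

theorem ctl_of_RWV {τ₀ s' : ℝ} (h1 : s' ≤ 1) {v : V9} {u : ℂ → Q → ℝ}
    (H : ∀ X, St s' X → (∀ a, |X a| ≤ 31 / 50 * s') → ∀ τ : ℂ, ‖τ‖ ≤ τ₀ → RWV (C9 Ψ) va X e1 v (u τ) μ T) :
    CtlOK Ψ μ T τ₀ s' v u := by
  intro τ hτ f R hs
  have hS := (ALY.st R.hf R.h0 R.h2).mono R.h0 hs h1
  have hb : ∀ a, |Xa (X1 f) f a| ≤ 31 / 50 * s' := fun a => (BTN.Xa_bd R.hf R.h0 R.h2 a).trans (by linarith)
  exact BTG.NC_of_RWV (BTG.sta R.hf R.h0 R.h2) (BTG.RWV_tr R.hf R.h0 R.h2 (H _ hS hb τ hτ))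

/-- a smaller class of states -/
theorem CtlOK.mono {τ₀ τ₁ s' s'' T' : ℝ} {v : V9} {u : ℂ → Q → ℝ} (H : CtlOK Ψ μ T τ₀ s' v u) (hs : s'' ≤ s')
    (hτ : τ₁ ≤ τ₀) (hT : T ≤ T') : CtlOK Ψ μ T' τ₁ s'' v u := fun τ h f R h' K hK hK1 A B hA hB =>
  (H τ (h.trans hτ) f R (h'.trans hs) K hK hK1 A B hA hB).trans hT

/-! ### the remainder -/

/-- the vector `v` is close to the combination of the control points `v j`, the vector `u` to that of the `u j`: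
costs at most `η` -/
def NearC (μ : ℝ) (d : Q → ℝ) (n : ℕ) (t : ℝ) (v : ℕ → V9) (u : ℕ → Q → ℝ) (v0 : V9) (u0 : Q → ℝ) (η : ℝ) : Prop :=
  ∃ δ U : ℝ, ∑ q, |u0 q - (∑ j ∈ Finset.range (n + 1), bw n t j • u j) q| * d q ≤ δ ∧
    ∑ q, |(∑ j ∈ Finset.range (n + 1), bw n t j • u j) q| * d q ≤ U ∧
    ∑ i, |v0 i - (∑ j ∈ Finset.range (n + 1), bw n t j • v j) i| * c9 i + 2 * μ * (δ * (2 * U + δ)) ≤ η

/-- **the certificate at a state from the control points** -/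
theorem nc_of_ctl {f : ℝ → ℝ} (R : Re f) (hμ : 0 ≤ μ) {τ₀ s' : ℝ} (hs : X1 f ≤ s') {n : ℕ} {t : ℝ} (h0 : 0 ≤ t)
    (h1 : t ≤ 1) {v : ℕ → V9} {u : ℕ → ℂ → Q → ℝ} (H : ∀ j ≤ n, CtlOK Ψ μ T τ₀ s' (v j) (u j)) {d : Q → ℝ}
    (hΨ : PsiLe Ψ d) {τ : ℂ} (hτ : ‖τ‖ ≤ τ₀) {v0 : V9} {u0 : Q → ℝ} {η : ℝ}
    (hN : NearC μ d n t v (fun j => u j τ) v0 u0 η) : NC (C9 Ψ) (nf f) (xT f) (ef f) v0 u0 μ (T + η) := by
  obtain ⟨δ, U, h2, h3, h4⟩ := hN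
  refine NC_near (sml R.hf R.h0 R.h2) hμ hΨ (NC.comb (BTG.sta R.hf R.h0 R.h2)
    (fun j _ => BTN.bw_nonneg h0 h1 j) (BTN.bw_sum n t) hμ fun j hj => ?_) h2 h3 h4
  exact H j (Nat.lt_succ_iff.1 (Finset.mem_range.1 hj)) τ hτ f R hs

/-! ### cells -/

/-- the certificate holds at all states with `ζ ≥ 0` and `c ∈ [a, b]` -/
def CellOK (Bx : OM7.Dev) (W : ℝ → ℝ) (F : Cof9) (μ T a b : ℝ) : Prop :=
  ∀ f, Re f → a ≤ cF f → cF f ≤ b → CertAt9 (devK Bx) W F μ T f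

theorem certAt9_le {Bk : DevK} {f : ℝ → ℝ} {T' : ℝ} (h : CertAt9 Bk W F μ T f) (hT : T ≤ T') :
    CertAt9 Bk W F μ T' f := fun K hK hK1 A B hA hB => (h K hK hK1 A B hA hB).trans hT

theorem CellOK.mono {T' a b a' b' : ℝ} (H : CellOK Bx W F μ T a b) (ha : a ≤ a') (hb : b' ≤ b) (hT : T ≤ T') :
    CellOK Bx W F μ T' a' b' := fun f R h1 h2 => certAt9_le (H f R (ha.trans h1) (h2.trans hb)) hT

theorem s_sq {f : ℝ → ℝ} (R : Re f) : X1 f ^ 2 + cF f ^ 2 = 1 := by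
  have := R.c2
  linarith

theorem s_le {f : ℝ → ℝ} (R : Re f) {a s' : ℝ} (ha : 0 ≤ a) (h : a ≤ cF f) (hs0 : 0 ≤ s') (hs : 1 - a ^ 2 ≤ s' ^ 2) :
    X1 f ≤ s' := by
  have h1 := s_sq R
  have h2 : a ^ 2 ≤ cF f ^ 2 := pow_le_pow_left₀ ha h 2
  exact (sq_le_sq₀ R.h0 hs0).1 (by linarith)

theorem s_pos {f : ℝ → ℝ} (R : Re f) {b : ℝ} (hb : b < 1) (h : cF f ≤ b) : 0 < X1 f := by
  have h1 := s_sq R
  have h2 := R.c0
  rcases R.h0.lt_or_eq with h3 | h3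
  · exact h3
  · rw [← h3] at h1
    nlinarith

/-- **a latitude cell away from the pole** -/
theorem cell_mid {a b s' τ₀ η T' : ℝ} (hμ : 0 ≤ μ) (ha : 0 ≤ a) (hab : a < b) (hb : b < 1) (hs0 : 0 ≤ s')
    (hs : 1 - a ^ 2 ≤ s' ^ 2) {n : ℕ} {v : ℕ → V9} {u : ℕ → ℂ → Q → ℝ}
    (H : ∀ j ≤ n, CtlOK Ψ μ T τ₀ s' (v j) (u j)) {d : Q → ℝ} (hΨ : PsiLe Ψ d) {uf : ℝ → ℝ → ℂ → Q → ℝ}
    (hB : ∀ f, Re f → 0 < X1 f → a ≤ cF f → cF f ≤ b → ∃ τ, ‖τ‖ ≤ τ₀ ∧ DevLe Bx Ψ (uf (X1 f) (cF f) τ) f)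
    (hN : ∀ s c : ℝ, ∀ τ : ℂ, 0 < s → s ^ 2 + c ^ 2 = 1 → a ≤ c → c ≤ b → ‖τ‖ ≤ τ₀ →
      NearC μ d n ((c - a) / (b - a)) v (fun j => u j τ) (vec9 W F 0 s c) (uf s c τ) η) (hT : T + η ≤ T') :
    CellOK Bx W F μ T' a b := by
  intro f R h1 h2
  have hp := s_pos R hb h2
  obtain ⟨τ, hτ, hD⟩ := hB f R hp h1 h2
  have hba : 0 < b - a := sub_pos.2 hab
  refine certAt9_le (certAt9X_of_NC hμ R.hf hp R.h2 hD ?_) hT
  exact nc_of_ctl R hμ (s_le R ha h1 hs0 hs) (div_nonneg (sub_nonneg.2 h1) hba.le)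
    ((div_le_one hba).2 (by linarith)) H hΨ hτ (hN _ _ τ hp (s_sq R) h1 h2 hτ)

/-! ### the cells cover all latitudes -/

theorem exists_cell {n : ℕ} {p : ℕ → ℝ} {c : ℝ} (h0 : p 0 ≤ c) (h1 : c ≤ p n) (hn : 0 < n) :
    ∃ i < n, p i ≤ c ∧ c ≤ p (i + 1) := by
  induction n with
  | zero => exact absurd hn (lt_irrefl _)
  | succ n ih =>
    rcases le_total c (p n) with h | h
    · rcases Nat.eq_zero_or_pos n with h2 | h2
      · subst h2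
        exact ⟨0, Nat.succ_pos _, h0, h1⟩
      · obtain ⟨i, hi, h3, h4⟩ := ih h h2
        exact ⟨i, Nat.lt_succ_of_lt hi, h3, h4⟩
    · exact ⟨n, Nat.lt_succ_self n, h, h1⟩

/-- **the certificate from the cells** -/
theorem cert9_of_cells (HR : RotDev Bx) {n : ℕ} {p : ℕ → ℝ} (hn : 0 < n) (h0 : p 0 ≤ 0) (h1 : 1 ≤ p n)
    (H : ∀ i < n, CellOK Bx W F μ T (p i) (p (i + 1))) : Cert9 (devK Bx) W F μ T := by
  refine OM7.cert9_of_real (OM7.rotK_devK HR) fun f hf hx h2 => ?_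
  have R : Re f := ⟨hf, hx, h2⟩
  have hc0 := R.c0
  have hc1 : cF f ≤ 1 := OM7.cF_le
  obtain ⟨i, hi, h3, h4⟩ := exists_cell (p := p) (c := cF f) (by linarith) (by linarith) hn
  exact H i hi f R h3 h4

/-- the same with a list of cut points -/
theorem cert9_of_list (HR : RotDev Bx) (L : List ℝ) {a b : ℝ} (h0 : a ≤ 0) (h1 : 1 ≤ b)
    (H : List.IsChain (fun x y => CellOK Bx W F μ T x y) (a :: (L ++ [b]))) : Cert9 (devK Bx) W F μ T := by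
  refine OM7.cert9_of_real (OM7.rotK_devK HR) fun f hf hx h2 => ?_
  have R : Re f := ⟨hf, hx, h2⟩
  have hc0 := R.c0
  have hc1 : cF f ≤ 1 := OM7.cF_le
  have key : ∀ (L : List ℝ) (a : ℝ), a ≤ cF f →
      List.IsChain (fun x y => CellOK Bx W F μ T x y) (a :: (L ++ [b])) → CertAt9 (devK Bx) W F μ T f := by
    intro L
    induction L with
    | nil =>
      intro a ha h
      rw [List.nil_append, List.isChain_cons_cons] at h
      exact h.1 f R ha (by linarith)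
    | cons x L ih =>
      intro a ha h
      rw [List.cons_append, List.isChain_cons_cons] at h
      rcases le_total (cF f) x with hx | hx
      · exact h.1 f R ha hx
      · exact ih x hx h.2
  exact key L a (by linarith) H

/-! ### the certificate of OM7 -/

/-- the coefficient functions of OM7 in the larger class -/
def c9of (F : OM7.Cof) : Cof9 := ⟨F, fun _ => 0, fun _ => 0, fun _ => 0, fun _ => 0⟩

theorem cert7X_of_9 {F : OM7.Cof} (H : Cert9 (devK Bx) W (c9of F) μ T) : Cert7X Bx W F μ T := by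
  intro f hf K hK hK1 A B hA hB
  have h := H f hf K hK hK1 A B hA hB
  have e1 : ∀ t, OMG.mk9 (c9of F) f t = OM7.mk7 F f t := fun t => by
    unfold OMG.mk9 OMG.mkP c9of
    simp
  have e2 : OMG.W9 W (c9of F) f = OM7.W7 W F f := by
    unfold OMG.W9 OMG.WP c9of
    simp
  rw [e2] at h
  simp only [e1] at h
  exact h

end Pool.Agent.FPX.ASM
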