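import Mathlib
import Pool.Agent.FPX.BTN

/-
BTQ (helper15): polynomials with rational coefficients (lists) and the kernel-checkable comparison of a rational function
`P(c)/S(c)` on a cell `[a, b]` with the quadratic Bernstein polynomial of three control values.
-/

open Set

noncomputable section

namespace Pool.Agent.FPX.BTQ

open Pool.Agent.FPX.BTN (bw)

/-- value of a polynomial (coefficients in increasing order) -/
def pe (l : List ℚ) (x : ℝ) : ℝ := l.foldr (fun a r => (a : ℝ) + x * r) 0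

@[simp] theorem pe_nil (x : ℝ) : pe [] x = 0 := rfl

@[simp] theorem pe_cons (a : ℚ) (l : List ℚ) (x : ℝ) : pe (a :: l) x = a + x * pe l x := rfl

/-- sum -/
def padd : List ℚ → List ℚ → List ℚ
  | [], l => l
  | a :: l, [] => a :: l
  | a :: l, b :: l' => (a + b) :: padd l l'

theorem pe_padd (l l' : List ℚ) (x : ℝ) : pe (padd l l') x = pe l x + pe l' x := by
  induction l generalizing l' with
  | nil => simp [padd]
  | cons a l ih =>
    cases l' with
    | nil => simp [padd]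
    | cons b l' =>
      simp only [padd, pe_cons, ih]
      push_cast
      ring

/-- multiple -/
def psm (r : ℚ) (l : List ℚ) : List ℚ := l.map fun a => r * a

theorem pe_psm (r : ℚ) (l : List ℚ) (x : ℝ) : pe (psm r l) x = r * pe l x := by
  induction l with
  | nil => simp [psm]
  | cons a l ih =>
    have : psm r (a :: l) = (r * a) :: psm r l := rfl
    rw [this, pe_cons, pe_cons, ih]
    push_cast
    ring

/-- product -/
def pmul : List ℚ → List ℚ → List ℚ
  | [], _ => []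
  | a :: l, l' => padd (psm a l') (0 :: pmul l l')

theorem pe_pmul (l l' : List ℚ) (x : ℝ) : pe (pmul l l') x = pe l x * pe l' x := by
  induction l with
  | nil => simp [pmul]
  | cons a l ih =>
    simp only [pmul, pe_padd, pe_psm, pe_cons, ih]
    push_cast
    ring

/-- `P (m + h τ)` -/
def pcomp (l : List ℚ) (m h : ℚ) : List ℚ := l.foldr (fun a r => padd [a] (pmul [m, h] r)) []

theorem pe_pcomp (l : List ℚ) (m h : ℚ) (x : ℝ) : pe (pcomp l m h) x = pe l (m + h * x) := by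
  induction l with
  | nil => simp [pcomp]
  | cons a l ih =>
    have : pcomp (a :: l) m h = padd [a] (pmul [m, h] (pcomp l m h)) := rfl
    rw [this, pe_padd, pe_pmul, ih]
    simp only [pe_cons, pe_nil]
    ring

/-- the sum of the absolute values of the coefficients -/
def n1 (l : List ℚ) : ℚ := l.foldr (fun a r => |a| + r) 0

theorem n1_nonneg (l : List ℚ) : 0 ≤ n1 l := by
  induction l with
  | nil => exact le_rfl
  | cons a l ih =>
    have : n1 (a :: l) = |a| + n1 l := rfl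
    rw [this]
    positivity

theorem abs_pe_le (l : List ℚ) {x : ℝ} (hx : |x| ≤ 1) : |pe l x| ≤ n1 l := by
  induction l with
  | nil => simp [n1]
  | cons a l ih =>
    have : n1 (a :: l) = |a| + n1 l := rfl
    rw [this, pe_cons]
    push_cast
    refine (abs_add_le _ _).trans ?_
    rw [abs_mul]
    have h1 : |x| * |pe l x| ≤ 1 * (n1 l : ℝ) := mul_le_mul hx ih (abs_nonneg _) zero_le_one
    linarith

/-- a lower bound on `[-1, 1]` -/
def lb (l : List ℚ) : ℚ := match l with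
  | [] => 0
  | a :: l => a - n1 l

theorem lb_le (l : List ℚ) {x : ℝ} (hx : |x| ≤ 1) : (lb l : ℝ) ≤ pe l x := by
  cases l with
  | nil => simp [lb]
  | cons a l =>
    have h := abs_pe_le l hx
    rw [pe_cons]
    have h1 : |x * pe l x| ≤ n1 l := by
      rw [abs_mul]
      have := mul_le_mul hx h (abs_nonneg _) zero_le_one
      linarith
    have h2 := neg_le_of_abs_le h1
    show ((a - n1 l : ℚ) : ℝ) ≤ _
    push_cast
    linarith

/-- the quadratic Bernstein polynomial in `τ = 2 t - 1` -/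
def qd (v0 v1 v2 : ℚ) : List ℚ := [(v0 + 2 * v1 + v2) / 4, (v2 - v0) / 2, (v0 - 2 * v1 + v2) / 4]

/-- the Bernstein combination of three numbers -/
def b3 (t v0 v1 v2 : ℝ) : ℝ := bw 2 t 0 * v0 + bw 2 t 1 * v1 + bw 2 t 2 * v2

theorem b3_eq (t v0 v1 v2 : ℝ) : b3 t v0 v1 v2 = (1 - t) ^ 2 * v0 + 2 * t * (1 - t) * v1 + t ^ 2 * v2 := by
  unfold b3 bw
  norm_num [Nat.choose]

theorem pe_qd (v0 v1 v2 : ℚ) (x : ℝ) : pe (qd v0 v1 v2) x = b3 ((1 + x) / 2) v0 v1 v2 := by
  rw [b3_eq]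
  unfold qd
  simp only [pe_cons, pe_nil]
  push_cast
  ring

/-- **the check of one component on the cell `[a, b]`** -/
def chk1 (P S : List ℚ) (a b v0 v1 v2 ε : ℚ) : Bool :=
  let m := (a + b) / 2
  let h := (b - a) / 2
  let S' := pcomp S m h
  let R := padd (pcomp P m h) (psm (-1) (pmul S' (qd v0 v1 v2)))
  decide (0 < lb S') && decide (n1 R ≤ ε * lb S')

theorem chk1_sound {P S : List ℚ} {a b v0 v1 v2 ε : ℚ} (hab : a < b) (H : chk1 P S a b v0 v1 v2 ε = true) {c y : ℝ}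
    (hc : c ∈ Icc (a : ℝ) b) (hy : pe S c * y = pe P c) :
    |y - b3 ((c - a) / (b - a)) v0 v1 v2| ≤ ε := by
  unfold chk1 at H
  simp only [Bool.and_eq_true, decide_eq_true_eq] at H
  obtain ⟨h1, h2⟩ := H
  have hab' : (a : ℝ) < b := by exact_mod_cast hab
  set x : ℝ := (2 * c - a - b) / (b - a) with hx
  have hx1 : |x| ≤ 1 := by
    rw [hx, abs_div, abs_of_pos (sub_pos.2 hab'), div_le_one (sub_pos.2 hab'), abs_le]
    constructor <;> linarith [hc.1, hc.2]
  have hcx : (((a + b) / 2 : ℚ) : ℝ) + (((b - a) / 2 : ℚ) : ℝ) * x = c := by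
    rw [hx]
    have : (b : ℝ) - a ≠ 0 := (sub_pos.2 hab').ne'
    push_cast
    field_simp
    ring
  have ht : (c - a) / (b - a) = (1 + x) / 2 := by
    rw [hx]
    have : (b : ℝ) - a ≠ 0 := (sub_pos.2 hab').ne'
    field_simp
    ring
  rw [ht, ← pe_qd]
  have e1 := pe_pcomp P ((a + b) / 2) ((b - a) / 2) x
  have e2 := pe_pcomp S ((a + b) / 2) ((b - a) / 2) x
  rw [hcx] at e1 e2
  have l1 := lb_le (pcomp S ((a + b) / 2) ((b - a) / 2)) hx1
  rw [e2] at l1
  have h1' : (0 : ℝ) < lb (pcomp S ((a + b) / 2) ((b - a) / 2)) := by exact_mod_cast h1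
  have hS : 0 < pe S c := lt_of_lt_of_le h1' l1
  have b1 := abs_pe_le (padd (pcomp P ((a + b) / 2) ((b - a) / 2)) (psm (-1)
    (pmul (pcomp S ((a + b) / 2) ((b - a) / 2)) (qd v0 v1 v2)))) hx1
  rw [pe_padd, pe_psm, pe_pmul, e1, e2, ← hy] at b1
  have h2' : ((n1 (padd (pcomp P ((a + b) / 2) ((b - a) / 2)) (psm (-1)
    (pmul (pcomp S ((a + b) / 2) ((b - a) / 2)) (qd v0 v1 v2)))) : ℚ) : ℝ) ≤
      ε * lb (pcomp S ((a + b) / 2) ((b - a) / 2)) := by exact_mod_cast h2
  have b2 : |pe S c * (y - pe (qd v0 v1 v2) x)| ≤ ε * lb (pcomp S ((a + b) / 2) ((b - a) / 2)) := by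
    have e : pe S c * (y - pe (qd v0 v1 v2) x) =
        pe S c * y + ((-1 : ℚ) : ℝ) * (pe S c * pe (qd v0 v1 v2) x) := by
      push_cast
      ring
    rw [e]
    exact b1.trans h2'
  rw [abs_mul, abs_of_pos hS] at b2
  have hε : (0 : ℝ) ≤ ε := by
    have h0 : (0 : ℝ) ≤ ε * lb (pcomp S ((a + b) / 2) ((b - a) / 2)) :=
      (mul_nonneg hS.le (abs_nonneg _)).trans b2
    by_contra hcon
    push Not at hcon
    nlinarith
  have b3' : pe S c * |y - pe (qd v0 v1 v2) x| ≤ pe S c * ε := by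
    refine b2.trans ?_
    rw [mul_comm]
    exact mul_le_mul_of_nonneg_right l1 hε
  exact le_of_mul_le_mul_left b3' hS

/-! ### vectors -/

/-- the control points as real vectors -/
def cv {n : ℕ} (V : Fin 3 → Fin n → ℚ) (j : ℕ) : Fin n → ℝ := fun i => if h : j < 3 then (V ⟨j, h⟩ i : ℝ) else 0

/-- the parameter in the cell -/
def tt (a b : ℚ) (c : ℝ) : ℝ := (c - a) / (b - a)

theorem tt_mem {a b : ℚ} (hab : a < b) {c : ℝ} (hc : c ∈ Icc (a : ℝ) b) : 0 ≤ tt a b c ∧ tt a b c ≤ 1 := by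
  have hab' : (a : ℝ) < b := by exact_mod_cast hab
  unfold tt
  constructor
  · exact div_nonneg (sub_nonneg.2 hc.1) (sub_nonneg.2 hab'.le)
  · rw [div_le_one (sub_pos.2 hab')]
    linarith [hc.2]

theorem sum3_apply {n : ℕ} (V : Fin 3 → Fin n → ℚ) (t : ℝ) (i : Fin n) :
    (∑ j ∈ Finset.range 3, bw 2 t j • cv V j) i = b3 t (V 0 i) (V 1 i) (V 2 i) := by
  rw [Finset.sum_apply]
  simp only [Finset.sum_range_succ, Finset.sum_range_zero, zero_add, Pi.smul_apply, smul_eq_mul]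
  have h0 : cv V 0 i = V 0 i := rfl
  have h1 : cv V 1 i = V 1 i := rfl
  have h2 : cv V 2 i = V 2 i := rfl
  rw [h0, h1, h2]
  rfl

/-- **the check of a vector on the cell `[a, b]`** with weights `w` of the components -/
def chk {n : ℕ} (P S : Fin n → List ℚ) (a b : ℚ) (V : Fin 3 → Fin n → ℚ) (e w : Fin n → ℚ) (η : ℚ) : Bool :=
  decide (∀ i, chk1 (P i) (S i) a b (V 0 i) (V 1 i) (V 2 i) (e i) = true ∧ 0 ≤ w i) &&
    decide ((List.finRange n).foldr (fun i r => e i * w i + r) 0 ≤ η)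

theorem foldr_eq {n : ℕ} (f : Fin n → ℚ) : (List.finRange n).foldr (fun i r => f i + r) 0 = ∑ i, f i := by
  rw [Fin.sum_univ_def, List.sum_eq_foldr, List.foldr_map]

theorem chk_sound {n : ℕ} {P S : Fin n → List ℚ} {a b : ℚ} (hab : a < b) {V : Fin 3 → Fin n → ℚ}
    {e w : Fin n → ℚ} {η : ℚ} (H : chk P S a b V e w η = true) {c : ℝ} (hc : c ∈ Icc (a : ℝ) b) {v : Fin n → ℝ}
    (hv : ∀ i, pe (S i) c * v i = pe (P i) c) :
    ∑ i, |v i - (∑ j ∈ Finset.range 3, bw 2 (tt a b c) j • cv V j) i| * (w i : ℝ) ≤ η := by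
  unfold chk at H
  simp only [Bool.and_eq_true, decide_eq_true_eq] at H
  obtain ⟨h1, h2⟩ := H
  rw [foldr_eq] at h2
  have h2' : (∑ i, (e i : ℝ) * (w i : ℝ)) ≤ η := by exact_mod_cast h2
  refine (Finset.sum_le_sum fun i _ => ?_).trans h2'
  obtain ⟨h3, h4⟩ := h1 i
  rw [sum3_apply]
  have h5 : (0 : ℝ) ≤ w i := by exact_mod_cast h4
  exact mul_le_mul_of_nonneg_right (chk1_sound hab h3 hc (hv i)) h5

/-- a bound of the combination by the control points -/
def chkU {n : ℕ} (V : Fin 3 → Fin n → ℚ) (w : Fin n → ℚ) (U : ℚ) : Bool :=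
  decide (∀ i, 0 ≤ w i) &&
    decide ((List.finRange n).foldr (fun i r => max |V 0 i| (max |V 1 i| |V 2 i|) * w i + r) 0 ≤ U)

theorem chkU_sound {n : ℕ} {V : Fin 3 → Fin n → ℚ} {w : Fin n → ℚ} {U : ℚ} (H : chkU V w U = true) {t : ℝ}
    (h0 : 0 ≤ t) (h1 : t ≤ 1) : ∑ i, |(∑ j ∈ Finset.range 3, bw 2 t j • cv V j) i| * (w i : ℝ) ≤ U := by
  unfold chkU at H
  simp only [Bool.and_eq_true, decide_eq_true_eq] at H
  obtain ⟨hw, h2⟩ := H
  rw [foldr_eq] at h2
  have h2' : (∑ i, (max |(V 0 i : ℝ)| (max |(V 1 i : ℝ)| |(V 2 i : ℝ)|)) * (w i : ℝ)) ≤ U := by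
    exact_mod_cast h2
  refine (Finset.sum_le_sum fun i _ => ?_).trans h2'
  rw [sum3_apply]
  have h5 : (0 : ℝ) ≤ w i := by exact_mod_cast hw i
  refine mul_le_mul_of_nonneg_right ?_ h5
  set M := max |(V 0 i : ℝ)| (max |(V 1 i : ℝ)| |(V 2 i : ℝ)|) with hM
  have m0 : |(V 0 i : ℝ)| ≤ M := le_max_left _ _
  have m1 : |(V 1 i : ℝ)| ≤ M := (le_max_left _ _).trans (le_max_right _ _)
  have m2 : |(V 2 i : ℝ)| ≤ M := (le_max_right _ _).trans (le_max_right _ _)
  rw [b3_eq]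
  have a0 : 0 ≤ (1 - t) ^ 2 := sq_nonneg _
  have a1 : 0 ≤ 2 * t * (1 - t) := by
    have := sub_nonneg.2 h1
    positivity
  have a2 : 0 ≤ t ^ 2 := sq_nonneg _
  rw [abs_le] at m0 m1 m2 ⊢
  constructor <;> nlinarith

end Pool.Agent.FPX.BTQ
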