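import Mathlib
import Pool.Agent.FPX.BTY

/-
BTP (helper69): THE POLE CELL. In the coefficient vector `BTN.vec W F μ s c` only the coefficients of
`S₀ = c² P₀ / s²` and of `|C₃|² = 4 c² |M₃|² / s²` are singular at `s = 0`. Under two sign conditions on the
coefficient functions the certificate at a state with `0 ≤ s ≤ s₁` (the pole `s = 0` included) follows from the
linear certificate with the FROZEN vector `vecP` (`1 / s²` replaced by `1 / s₁²`, `μ` by `μ + η / 2`).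
-/

open MeasureTheory Set Filter Topology Real
open scoped NNReal ComplexConjugate

noncomputable section

namespace Pool.Agent.FPX.BTN

open Pool.Agent.FPX.CRD (Bm)
open Pool.Agent.FPX.ALX
open Pool.Agent.FPX.UMP (Ef)
open Pool.Agent.FPX.UMQ
open Pool.Agent.FPX.F54 (X1 X2 X_lt X_G1 X_G2 sF)
open Pool.Agent.FPX.S54 (de mS ME YY Sn)
open Pool.Agent.FPX.OMB (vm vm_int vm_prob bm_ep)
open Pool.Agent.FPX.OMS (rF cF)
open Pool.Agent.FPX.CERQ (xT Er sr)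
open Pool.Agent.FPX.SYS (CE)
open Pool.Agent.FPX.OM7 (Cof CertAt CertAtX Cert7X Dev devK Sp Sm Cp Cm mk7 bv W7 bm_de bm_pow)
open Pool.Agent.FPX.OMR (xR eR vR r3 r5 q0 q4 mR W7R bR Re)

/-- **the frozen coefficient vector**: as `vec W F (μ + η / 2) s c`, with `s₁` instead of `s` in the coefficients of
`P₀`, `|M₃|²` -/
def vecP (W : ℝ → ℝ) (F : Cof) (μ η s₁ s c : ℝ) : CV :=
  ![2 * c * W c - s ^ 2 * deriv W c,
    c ^ 2 * (2 * c * deriv F.Q (s ^ 2) - F.Q (s ^ 2) / c + F.Z (s ^ 2) / c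
      + 2 * c * (s ^ 2 * deriv F.P (s ^ 2) + 3 * F.P (s ^ 2)) + s ^ 2 * F.P (s ^ 2) / c),
    c ^ 2 / s₁ ^ 2 * (2 * c * (s ^ 2 * deriv F.Z (s ^ 2) + F.Z (s ^ 2))),
    c * s ^ 2 * F.P (s ^ 2),
    2 * c * s ^ 2 * (2 * c * deriv F.x (s ^ 2) - 3 * F.x (s ^ 2) / (2 * c)
      + 2 * c * (s ^ 2 * deriv F.y (s ^ 2) + 4 * F.y (s ^ 2)) + 3 * s ^ 2 * F.y (s ^ 2) / (2 * c)),
    s ^ 4 * F.y (s ^ 2),
    4 * c ^ 2 / s₁ ^ 2 * (2 * c * (s ^ 2 * deriv F.g (s ^ 2) + F.g (s ^ 2))),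
    4 * c * F.g (s ^ 2),
    c * F.Q (s ^ 2),
    c * F.Z (s ^ 2),
    s ^ 2 * F.x (s ^ 2),
    F.b (s ^ 2),
    12 * c ^ 2 / s₁ ^ 2 * F.b (s ^ 2),
    4 * c ^ 2 * deriv F.b (s ^ 2),
    μ + η / 2]

/-- the coefficient of `S₀` -/
def pa (F : Cof) (s c : ℝ) : ℝ := 2 * c * (s ^ 2 * deriv F.Z (s ^ 2) + F.Z (s ^ 2))

/-- the coefficient of `|C₃|²` -/
def pg (F : Cof) (s c : ℝ) : ℝ :=
  2 * c * (s ^ 2 * deriv F.g (s ^ 2) + F.g (s ^ 2)) - 3 * F.b (s ^ 2)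

/-- **the conditions on the coefficient functions at one latitude** -/
structure PolC (F : Cof) (η s c : ℝ) : Prop where
  ha : pa F s c ≤ 0
  hg : pa F s c + 2 * pg F s c ≤ 0
  hη : -pa F s c * (31 / 50 * c) ^ 2 ≤ η
  hη' : -(pa F s c + 2 * pg F s c) * (31 / 50 * c) ^ 2 ≤ η

variable {f : ℝ → ℝ}

/-! ### the state in the two frames -/

theorem xT_xR (H : Re f) (t : ℝ) : xT f t = xR f t := by
  unfold xT xR
  rw [H.rr, Real.sqrt_sq H.h0, H.h2]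

theorem xT_fun (H : Re f) : xT f = xR f := funext fun t => xT_xR H t

theorem ef_fun (H : Re f) : ef f = eR f := funext fun t => H.ee t

theorem nf_fun (H : Re f) : nf f = vR f := H.vv

theorem rM3 (H : Re f) : M3 (nf f) (xT f) (ef f) = r3 f := by
  rw [nf_fun H, xT_fun H, ef_fun H]
  rfl

theorem rM5 (H : Re f) : M5 (nf f) (xT f) (ef f) = r5 f := by
  rw [nf_fun H, xT_fun H, ef_fun H]
  rfl

theorem rP0 (H : Re f) : P0 (nf f) (xT f) = q0 f := by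
  rw [nf_fun H, xT_fun H]
  rfl

theorem rP2 (H : Re f) : P2 (nf f) (xT f) (ef f) = OMR.q2 f := by
  rw [nf_fun H, xT_fun H, ef_fun H]
  rfl

theorem rP4 (H : Re f) : P4 (nf f) (xT f) (ef f) = q4 f := by
  rw [nf_fun H, xT_fun H, ef_fun H]
  rfl

/-! ### the two inequalities for `S₀`, `C₃` -/

theorem S0_mean (H : Re f) : S54.S0 f = ∫ t, de (X1 f) (X2 f) f t ^ 2 ∂(vR f) := by
  have h := H.me 0 (fun t => de (X1 f) (X2 f) f t ^ 2)
  have e : ∫ t, ((de (X1 f) (X2 f) f t ^ 2 : ℝ) : ℂ) * eR f t ^ 0 ∂(vR f) =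
      ((∫ t, de (X1 f) (X2 f) f t ^ 2 ∂(vR f) : ℝ) : ℂ) := by
    rw [← integral_complex_ofReal]
    congr 1
    funext t
    rw [pow_zero, mul_one]
  rw [e] at h
  have h' : Sn 0 (X1 f) (X2 f) f = ((∫ t, de (X1 f) (X2 f) f t ^ 2 ∂(vR f) : ℝ) : ℂ) := h
  unfold S54.S0
  rw [h', Complex.ofReal_re]

theorem C3_mean (H : Re f) : CE 3 f = 2 * ∫ t, (de (X1 f) (X2 f) f t : ℂ) * eR f t ^ 3 ∂(vR f) := by
  unfold CE
  rw [S54.Cm_eq (X_lt H.hf), H.me 3]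

/-- `|mean (g E³)|² ≤ mean (g²) / 2` for a real function `g` -/
theorem bessel3 (H : Re f) {g : ℝ → ℝ} (hg : Bm fun t => (g t : ℂ)) :
    2 * ‖∫ t, (g t : ℂ) * eR f t ^ 3 ∂(vR f)‖ ^ 2 ≤ ∫ t, g t ^ 2 ∂(vR f) := by
  have := H.prob
  have bE : Bm (eR f) := ⟨H.cte.measurable, 1, fun t => (H.ne1 t).le⟩
  have bE3 : Bm fun t => eR f t ^ 3 := bm_pow bE 3
  have bE6 : Bm fun t => eR f t ^ 6 := bm_pow bE 6
  set z : ℂ := ∫ t, (g t : ℂ) * eR f t ^ 3 ∂(vR f) with hz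
  have bp : Bm fun t => (((conj z * eR f t ^ 3).re : ℝ) : ℂ) := bm_re ((Bm.const _).mul bE3)
  -- mean of `g Re (conj z E³)`
  have i1 : ∫ t, g t * (conj z * eR f t ^ 3).re ∂(vR f) = ‖z‖ ^ 2 := by
    have h1 : ∫ t, conj z * ((g t : ℂ) * eR f t ^ 3) ∂(vR f) = conj z * z := integral_const_mul _ _
    have h2 := congrArg Complex.re h1
    have i : Integrable (fun t => conj z * ((g t : ℂ) * eR f t ^ 3)) (vR f) := ((Bm.const _).mul (hg.mul bE3)).int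
    rw [← RCLike.re_eq_complex_re, ← integral_re i] at h2
    have e1 : ∀ t, RCLike.re (conj z * ((g t : ℂ) * eR f t ^ 3)) = g t * (conj z * eR f t ^ 3).re := by
      intro t
      rw [RCLike.re_eq_complex_re, mul_left_comm, Complex.re_ofReal_mul]
    simp only [e1] at h2
    rw [h2, RCLike.re_eq_complex_re, mul_comm, Complex.mul_conj, Complex.ofReal_re, Complex.normSq_eq_norm_sq]
  -- mean of `(Re (conj z E³))²`
  have i2 : ∫ t, (conj z * eR f t ^ 3).re ^ 2 ∂(vR f) = ‖z‖ ^ 2 / 2 := by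
    have e1 : ∀ t, (conj z * eR f t ^ 3).re ^ 2 = ‖z‖ ^ 2 / 2 + RCLike.re (conj z ^ 2 / 2 * eR f t ^ 6) := by
      intro t
      have n3 : ‖conj z * eR f t ^ 3‖ ^ 2 = ‖z‖ ^ 2 := by
        rw [norm_mul, norm_pow, H.ne1, one_pow, mul_one, Complex.norm_conj]
      have e2 : conj z ^ 2 / 2 * eR f t ^ 6 = (conj z * eR f t ^ 3) ^ 2 / 2 := by ring
      rw [e2, RCLike.re_eq_complex_re]
      generalize conj z * eR f t ^ 3 = w at n3
      rw [← n3, ← Complex.normSq_eq_norm_sq, Complex.normSq_apply]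
      have e3 : (w ^ 2 / 2).re = (w.re * w.re - w.im * w.im) / 2 := by
        have : (w ^ 2 / 2) = w ^ 2 * ((1 / 2 : ℝ) : ℂ) := by
          push_cast
          ring
        rw [this, Complex.mul_re, Complex.ofReal_re, Complex.ofReal_im, mul_zero, sub_zero, pow_two, Complex.mul_re]
        ring
      rw [e3]
      ring
    have i : Integrable (fun t => conj z ^ 2 / 2 * eR f t ^ 6) (vR f) := ((Bm.const _).mul bE6).int
    simp only [e1]
    rw [integral_add (integrable_const _) i.re, integral_re i, integral_const_mul, H.en (by norm_num), mul_zero,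
      map_zero, add_zero, integral_const]
    simp
  have ig : Integrable (fun t => g t ^ 2) (vR f) := by
    have h := (hg.mul hg).int (μ := vR f)
    have h2 := h.re
    refine h2.congr (Eventually.of_forall fun t => ?_)
    show RCLike.re ((g t : ℂ) * (g t : ℂ)) = g t ^ 2
    rw [RCLike.re_eq_complex_re, ← Complex.ofReal_mul, Complex.ofReal_re, pow_two]
  have ip : Integrable (fun t => (conj z * eR f t ^ 3).re ^ 2) (vR f) := by
    have h2 := ((bp.mul bp).int (μ := vR f)).re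
    refine h2.congr (Eventually.of_forall fun t => ?_)
    show RCLike.re ((((conj z * eR f t ^ 3).re : ℝ) : ℂ) * (((conj z * eR f t ^ 3).re : ℝ) : ℂ)) =
      (conj z * eR f t ^ 3).re ^ 2
    rw [RCLike.re_eq_complex_re, ← Complex.ofReal_mul, Complex.ofReal_re, pow_two]
  have igp : Integrable (fun t => g t * (conj z * eR f t ^ 3).re) (vR f) := by
    have h2 := ((hg.mul bp).int (μ := vR f)).re
    refine h2.congr (Eventually.of_forall fun t => ?_)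
    show RCLike.re ((g t : ℂ) * (((conj z * eR f t ^ 3).re : ℝ) : ℂ)) = g t * (conj z * eR f t ^ 3).re
    rw [RCLike.re_eq_complex_re, ← Complex.ofReal_mul, Complex.ofReal_re]
  have key : 0 ≤ ∫ t, (g t - 2 * (conj z * eR f t ^ 3).re) ^ 2 ∂(vR f) := integral_nonneg fun t => sq_nonneg _
  have e : ∫ t, (g t - 2 * (conj z * eR f t ^ 3).re) ^ 2 ∂(vR f) =
      (∫ t, g t ^ 2 ∂(vR f)) - 4 * (∫ t, g t * (conj z * eR f t ^ 3).re ∂(vR f))
        + 4 * ∫ t, (conj z * eR f t ^ 3).re ^ 2 ∂(vR f) := by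
    have i3 : Integrable (fun t => g t ^ 2 - 4 * (g t * (conj z * eR f t ^ 3).re)) (vR f) :=
      ig.sub (igp.const_mul 4)
    rw [← integral_const_mul, ← integral_const_mul, ← integral_sub ig (igp.const_mul 4),
      ← integral_add i3 (ip.const_mul 4)]
    exact integral_congr_ae (Eventually.of_forall fun t => by ring)
  rw [e, i1, i2] at key
  linarith

/-- `|C₃|² ≤ 2 S₀` -/
theorem C3_le (H : Re f) : Complex.normSq (CE 3 f) ≤ 2 * S54.S0 f := by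
  have b := bm_de H.hf
  have h := bessel3 H b
  rw [C3_mean H, S0_mean H, Complex.normSq_eq_norm_sq, norm_mul]
  have : ‖(2 : ℂ)‖ = 2 := by norm_num
  rw [this]
  nlinarith

theorem de_bd (H : Re f) (t : ℝ) : |de (X1 f) (X2 f) f t| ≤ 31 / 50 * cF f := by
  have h1 := H.lt1
  have g1 := X_G1 H.hf
  have g2 := X_G2 H.hf
  rw [H.h2] at g1 g2
  have h := PTB.delta_bd H.h0 h1 H.hf g1 g2 t
  have ed : de (X1 f) (X2 f) f t = f t - arcsin (X1 f * cos t) := by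
    unfold de
    rw [H.h2, ALY.pr_s]
  rw [H.cce] at h
  rw [ed]
  norm_num at h ⊢
  exact h

/-- `S₀ ≤ (0.62 c)²` -/
theorem S0_le (H : Re f) : S54.S0 f ≤ (31 / 50 * cF f) ^ 2 := by
  have := H.prob
  rw [S0_mean H]
  have h : ∫ t, de (X1 f) (X2 f) f t ^ 2 ∂(vR f) ≤ ∫ _t, (31 / 50 * cF f) ^ 2 ∂(vR f) := by
    refine integral_mono_of_nonneg (Eventually.of_forall fun t => sq_nonneg _) (integrable_const _)
      (Eventually.of_forall fun t => ?_)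
    exact sq_le_sq' (by linarith [(abs_le.1 (de_bd H t)).1]) (abs_le.1 (de_bd H t)).2
  rw [integral_const] at h
  simpa using h

theorem S0_nonneg (H : Re f) : 0 ≤ S54.S0 f := by
  rw [S0_mean H]
  exact integral_nonneg fun t => sq_nonneg _

/-- **the singular terms** -/
theorem sing_le (H : Re f) {a g η s₁ : ℝ} (ha : a ≤ 0) (hg : a + 2 * g ≤ 0) (h1 : -a * (31 / 50 * cF f) ^ 2 ≤ η)
    (h2 : -(a + 2 * g) * (31 / 50 * cF f) ^ 2 ≤ η) (hs : 0 < s₁) (hs1 : X1 f ≤ s₁) (A B : ℂ) :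
    (a * S54.S0 f + g * Complex.normSq (CE 3 f)) * (‖A‖ ^ 2 - ‖B‖ ^ 2) ≤
      cF f ^ 2 / s₁ ^ 2 * (a * q0 f + 4 * g * ‖r3 f‖ ^ 2) * (‖A‖ ^ 2 - ‖B‖ ^ 2) + η * ‖B‖ ^ 2 := by
  have hc := H.c0
  have e1 := H.s0
  have e2 := H.cs
  have hC := C3_le H
  have hS := S0_le H
  have hS0 := S0_nonneg H
  have hC0 := Complex.normSq_nonneg (CE 3 f)
  rw [Complex.normSq_eq_norm_sq (r3 f)] at e2
  set S := S54.S0 f
  set N := Complex.normSq (CE 3 f)
  set β := a * S + g * N with hβ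
  -- the frozen bracket is `(s² / s₁²) β`
  have e3 : cF f ^ 2 / s₁ ^ 2 * (a * q0 f + 4 * g * ‖r3 f‖ ^ 2) = X1 f ^ 2 / s₁ ^ 2 * β := by
    rw [hβ]
    field_simp
    linear_combination (-a) * e1 - g * e2
  rw [e3]
  have hβ0 : β ≤ 0 := by
    rcases le_total g 0 with h | h
    · nlinarith
    · nlinarith
  have hβ1 : -β ≤ η := by
    rcases le_total g 0 with h | h
    · have : -β ≤ -(a + 2 * g) * S := by nlinarith
      have : -(a + 2 * g) * S ≤ -(a + 2 * g) * (31 / 50 * cF f) ^ 2 :=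
        mul_le_mul_of_nonneg_left hS (by linarith)
      linarith
    · have : -β ≤ -a * S := by nlinarith
      have : -a * S ≤ -a * (31 / 50 * cF f) ^ 2 := mul_le_mul_of_nonneg_left hS (by linarith)
      linarith
  have hr : X1 f ^ 2 / s₁ ^ 2 ≤ 1 := by
    rw [div_le_one (by positivity)]
    exact pow_le_pow_left₀ H.h0 hs1 2
  have hr0 : 0 ≤ X1 f ^ 2 / s₁ ^ 2 := by positivity
  set ρ := X1 f ^ 2 / s₁ ^ 2
  have hB : 0 ≤ ‖B‖ ^ 2 := sq_nonneg _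
  have hA : 0 ≤ ‖A‖ ^ 2 := sq_nonneg _
  have h3 : 0 ≤ (1 - ρ) * (-β) := mul_nonneg (by linarith) (by linarith)
  have h4 : (1 - ρ) * (-β) ≤ η := by nlinarith
  nlinarith [mul_nonneg h3 hA, mul_le_mul_of_nonneg_right h4 hB]

/-! ### the left side of the certificate -/

theorem mkv_vecP (H : Re f) (W : ℝ → ℝ) (F : Cof) (μ η s₁ t : ℝ) :
    mk7 F f t = mkv (nf f) (xT f) (ef f) (vecP W F μ η s₁ (X1 f) (cF f)) t := by
  rw [H.mkr]
  unfold mR mkv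
  rw [rM3 H, H.rr, xT_xR H, ef_fun H]
  simp only [vecP, Matrix.cons_val]
  push_cast
  ring

theorem Cp_eqR (H : Re f) (A B R : ℂ) : Cp f A B R = cp (nf f) (xT f) (ef f) A B R := by
  have hc := H.cC
  unfold Cp cp
  rw [H.d5, H.zz, Complex.conj_ofReal, rM3 H, rM5 H]
  field_simp
  linear_combination (-(6 * (A - conj B))) * H.c3

theorem Cm_eqR (H : Re f) (A B R : ℂ) : Cm f A B R = cm (nf f) (xT f) (ef f) A B R := by
  have hc := H.cC
  unfold Cm cm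
  rw [H.d5, H.zz, Complex.conj_ofReal, rM3 H, rM5 H]
  field_simp
  linear_combination (-(6 * (B - conj A))) * H.c3

/-- **the left side of the certificate is at most the linear form at the frozen vector** -/
theorem left_le {W : ℝ → ℝ} {F : Cof} {μ η s₁ : ℝ} (H : Re f) (hs : 0 < s₁) (hs1 : X1 f ≤ s₁)
    (P : PolC F η (X1 f) (cF f)) {K : ℝ → ℂ} (hK : Measurable K) (hK1 : ∀ t, ‖K t‖ ≤ 1) (A B : ℂ) :
    W7 W F f * (‖A‖ ^ 2 - ‖B‖ ^ 2)
      + 2 * (A * ∫ t, mk7 F f t * K t ∂(vm (X1 f) (X2 f))).re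
      - 2 * (B * ∫ t, mk7 F f t * conj (K t) ∂(vm (X1 f) (X2 f))).re
      + bv F f A B (Cp f A B (∫ t, C54.ep (X1 f) (X2 f) t ^ 3 * conj (K t) ∂(vm (X1 f) (X2 f))))
          (Cm f A B (∫ t, C54.ep (X1 f) (X2 f) t ^ 3 * K t ∂(vm (X1 f) (X2 f)))) + 2 * μ * ‖B‖ ^ 2 ≤
    lhs (nf f) (xT f) (ef f) (vecP W F μ η s₁ (X1 f) (cF f)) K A B := by
  have hX := X_lt H.hf
  have := vm_prob hX
  have bK : Bm K := ⟨hK, 1, hK1⟩
  have bD : Bm fun t => (xT f t : ℂ) := by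
    rw [xT_fun H]
    exact ⟨Complex.measurable_ofReal.comp H.ctx.measurable, 1, fun t => by
      rw [Complex.norm_real, ← xT_xR H]
      exact xT_le H.hf H.h0 H.h2 t⟩
  have bE : Bm (ef f) := bm_ep hX
  rw [lhs_eq' bD bE _ bK]
  have em : mk7 F f = mkv (nf f) (xT f) (ef f) (vecP W F μ η s₁ (X1 f) (cF f)) :=
    funext fun t => mkv_vecP H W F μ η s₁ t
  have e2 : 2 * (A * ∫ t, mk7 F f t * K t ∂(vm (X1 f) (X2 f))).re
      - 2 * (B * ∫ t, mk7 F f t * conj (K t) ∂(vm (X1 f) (X2 f))).re =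
      pk (nf f) (mkv (nf f) (xT f) (ef f) (vecP W F μ η s₁ (X1 f) (cF f))) K A B := by
    rw [← em]
    rfl
  have hS := sing_le H P.ha P.hg P.hη P.hη' hs hs1 A B
  rw [← e2, ← Cp_eqR H, ← Cm_eqR H]
  have eE3 : (fun t => C54.ep (X1 f) (X2 f) t ^ 3 * conj (K t)) = fun t => ef f t ^ 3 * conj (K t) := rfl
  rw [H.w7, H.bb]
  unfold W7R bR Wv bvv
  rw [rM3 H, rM5 H, rP0 H, rP2 H, rP4 H, H.rr]
  simp only [vecP, Matrix.cons_val_zero, Matrix.cons_val_one, Matrix.cons_val]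
  unfold pa pg at hS
  have hc := H.c0.ne'
  have q1 : cF f ^ 2 * (2 * cF f * deriv F.Q (X1 f ^ 2) - F.Q (X1 f ^ 2) / cF f + F.Z (X1 f ^ 2) / cF f
      + 2 * cF f * (X1 f ^ 2 * deriv F.P (X1 f ^ 2) + 3 * F.P (X1 f ^ 2)) + X1 f ^ 2 * F.P (X1 f ^ 2) / cF f) =
      cF f * (2 * cF f ^ 2 * deriv F.Q (X1 f ^ 2) - F.Q (X1 f ^ 2) + F.Z (X1 f ^ 2)
      + 2 * cF f ^ 2 * (X1 f ^ 2 * deriv F.P (X1 f ^ 2) + 3 * F.P (X1 f ^ 2)) + X1 f ^ 2 * F.P (X1 f ^ 2)) := by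
    field_simp
  have q4' : 2 * cF f * X1 f ^ 2 * (2 * cF f * deriv F.x (X1 f ^ 2) - 3 * F.x (X1 f ^ 2) / (2 * cF f)
      + 2 * cF f * (X1 f ^ 2 * deriv F.y (X1 f ^ 2) + 4 * F.y (X1 f ^ 2))
      + 3 * X1 f ^ 2 * F.y (X1 f ^ 2) / (2 * cF f)) =
      X1 f ^ 2 * (4 * cF f ^ 2 * deriv F.x (X1 f ^ 2) - 3 * F.x (X1 f ^ 2)
      + 4 * cF f ^ 2 * (X1 f ^ 2 * deriv F.y (X1 f ^ 2) + 4 * F.y (X1 f ^ 2)) + 3 * X1 f ^ 2 * F.y (X1 f ^ 2)) := by
    field_simp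
    ring
  rw [q1, q4', Complex.sub_re]
  have q6 : 4 * cF f ^ 2 / s₁ ^ 2 = 4 * (cF f ^ 2 / s₁ ^ 2) := by ring
  have q12 : 12 * cF f ^ 2 / s₁ ^ 2 = 12 * (cF f ^ 2 / s₁ ^ 2) := by ring
  rw [q6, q12]
  refine le_of_sub_nonneg ?_
  have hS' := sub_nonneg.2 hS
  refine le_trans hS' (le_of_eq ?_)
  ring

/-- **the certificate at a state of the pole cell from the linear certificate at the frozen vector** -/
theorem certAt_of_NCP {W : ℝ → ℝ} {F : Cof} {μ η s₁ T : ℝ} (H : Re f) (hs : 0 < s₁) (hs1 : X1 f ≤ s₁)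
    (P : PolC F η (X1 f) (cF f)) (h : NC (nf f) (xT f) (ef f) (vecP W F μ η s₁ (X1 f) (cF f)) T) :
    CertAt W F μ T f := by
  intro K hK hK1 A B hA hB
  rw [H.sf] at hA hB
  refine (left_le H hs hs1 P hK hK1 A B).trans (h K hK hK1 A B ?_ ?_)
  · unfold sg
    rw [rM3 H]
    exact hA
  · unfold sg
    rw [rM3 H]
    exact hB

/-! ### another deviation -/

variable {ι : Type} [Fintype ι]

theorem t_SpR (H : Re f) (A B S : ℂ) :
    ((X1 f / cF f : ℝ) : ℂ) * Sp f A B S = sp (nf f) (xT f) (ef f) A B (((X1 f / cF f : ℝ) : ℂ) * S) := by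
  have hc := H.cC
  unfold Sp sp
  rw [rP4 H, rM3 H, rP2 H, H.zz, Complex.conj_ofReal]
  push_cast
  field_simp
  linear_combination (2 * (cF f : ℂ) * conj B) * H.ms - (A - conj B) * H.s2

theorem t_SmR (H : Re f) (A B S : ℂ) :
    ((X1 f / cF f : ℝ) : ℂ) * Sm f A B S = sm (nf f) (xT f) (ef f) A B (((X1 f / cF f : ℝ) : ℂ) * S) := by
  have hc := H.cC
  unfold Sm sm
  rw [rP4 H, rM3 H, rP2 H, H.zz, Complex.conj_ofReal]
  push_cast
  field_simp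
  linear_combination (2 * (cF f : ℂ) * conj A) * H.ms - (B - conj A) * H.s2

theorem t_intR (H : Re f) (g : ℝ → ℂ) :
    ((X1 f / cF f : ℝ) : ℂ) * ∫ t, (de (X1 f) (X2 f) f t : ℂ) * g t ∂(nf f) = ∫ t, (xT f t : ℂ) * g t ∂(nf f) := by
  rw [← integral_const_mul]
  congr 1
  funext t
  rw [xT_xR H, ← mul_assoc]
  congr 1
  exact H.tt t

theorem devK_devN {Bx : Dev} {Ψ : Psi ι} {u : ι → ℝ} (H : Re f) (HB : IsLin Bx Ψ u f) (K : ℝ → ℂ) (A B : ℂ) :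
    devK Bx f K A B = devN (nf f) (xT f) (ef f) Ψ u K A B := by
  unfold devK devN
  rw [HB, Cp_eqR H, Cm_eqR H, t_SpR H, t_SmR H]
  have e1 : ((X1 f / cF f : ℝ) : ℂ) * ∫ t, ((de (X1 f) (X2 f) f t : ℂ) * C54.ep (X1 f) (X2 f) t ^ 2)
      * conj (K t) ∂(vm (X1 f) (X2 f)) = ∫ t, ((xT f t : ℂ) * ef f t ^ 2) * conj (K t) ∂(nf f) := by
    have := t_intR H (fun t => ef f t ^ 2 * conj (K t))
    simp only [← mul_assoc] at this
    exact this
  have e2 : ((X1 f / cF f : ℝ) : ℂ) * ∫ t, ((de (X1 f) (X2 f) f t : ℂ) * C54.ep (X1 f) (X2 f) t ^ 2)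
      * K t ∂(vm (X1 f) (X2 f)) = ∫ t, ((xT f t : ℂ) * ef f t ^ 2) * K t ∂(nf f) := by
    have := t_intR H (fun t => ef f t ^ 2 * K t)
    simp only [← mul_assoc] at this
    exact this
  rw [e1, e2, t_intR H K]

/-- **the certificate with another deviation at a state of the pole cell** -/
theorem certAtX_of_NCXP {Bx : Dev} {Ψ : Psi ι} {u : ι → ℝ} {W : ℝ → ℝ} {F : Cof} {μ η s₁ T : ℝ} (H : Re f)
    (hs : 0 < s₁) (hs1 : X1 f ≤ s₁) (P : PolC F η (X1 f) (cF f)) (HB : IsLin Bx Ψ u f)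
    (h : NCX (nf f) (xT f) (ef f) Ψ (vecP W F 0 η s₁ (X1 f) (cF f)) u μ T) : CertAtX Bx W F μ T f := by
  intro K hK hK1 A B hA hB
  rw [H.sf] at hA hB
  have h1 := left_le (W := W) (μ := 0) H hs hs1 P hK hK1 A B
  have h2 := h K hK hK1 A B (by unfold sg; rw [rM3 H]; exact hA) (by unfold sg; rw [rM3 H]; exact hB)
  rw [← devK_devN H HB] at h2
  linarith

/-! ### the pole cell -/

/-- `NC` for a state with `s ≥ 0` from the condition in the visual angle -/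
theorem NC_of_RWva (H : Re f) {v : CV} {T : ℝ} (h : RW va (Xa (X1 f) f) e1 v T) :
    NC (nf f) (xT f) (ef f) v T := by
  have := vm_prob (X_lt H.hf)
  have hx := xT_le H.hf H.h0 H.h2
  exact NC_of_RW (CERQ.cont_xT H.hf).measurable (C54.cont_ep (X_lt H.hf)).measurable hx
    (fun t => C54.norm_ep (X_lt H.hf) t) (RW_tr H.hf H.h0 H.h2 hx h)

theorem NCX_of_RWXva {Ψ : Psi ι} {u : ι → ℝ} (H : Re f) {v : CV} {μ T : ℝ}
    (h : RWX va (Xa (X1 f) f) e1 Ψ v u μ T) : NCX (nf f) (xT f) (ef f) Ψ v u μ T := by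
  have := vm_prob (X_lt H.hf)
  have hx := xT_le H.hf H.h0 H.h2
  exact NCX_of_RWX (CERQ.cont_xT H.hf).measurable (C54.cont_ep (X_lt H.hf)).measurable hx
    (fun t => C54.norm_ep (X_lt H.hf) t) (RWX_tr H.hf H.h0 H.h2 hx h)

/-- **the pole cell, class `Cert7`**: the frozen vector of `f` is a convex combination of control points `v j`; the condition
holds at every control point for all functions of the class `St s'`, `X1 f ≤ s'`. The pole `X1 f = 0` is included. -/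
theorem cellP {W : ℝ → ℝ} {F : Cof} {μ η s₁ T : ℝ} (H : Re f) (hs : 0 < s₁) (hs1 : X1 f ≤ s₁)
    (Q : PolC F η (X1 f) (cF f)) {s' : ℝ} (hs' : X1 f ≤ s') (h1 : s' ≤ 1) {P : (ℝ → ℝ) → Prop}
    (hP : P (Xa (X1 f) f)) {κ : Type*} {σ : Finset κ} {c : κ → ℝ} {v : κ → CV} (hc : ∀ j ∈ σ, 0 ≤ c j)
    (hc1 : ∑ j ∈ σ, c j = 1) (hv : vecP W F μ η s₁ (X1 f) (cF f) = ∑ j ∈ σ, c j • v j)
    (h : ∀ j ∈ σ, ∀ X, St s' X → (∀ a, |X a| ≤ 31 / 50 * s') → P X → RW va X e1 (v j) T) : CertAt W F μ T f := by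
  have hS := (ALY.st H.hf H.h0 H.h2).mono H.h0 hs' h1
  have hb : ∀ a, |Xa (X1 f) f a| ≤ 31 / 50 * s' := fun a => (Xa_bd H.hf H.h0 H.h2 a).trans (by linarith)
  refine certAt_of_NCP H hs hs1 Q ?_
  rw [hv]
  exact NC.comb hc hc1 fun j hj => NC_of_RWva H (h j hj _ hS hb hP)

/-- **the pole cell, class `Cert7X`** -/
theorem cellXP {Bx : Dev} {Ψ : Psi ι} {W : ℝ → ℝ} {F : Cof} {μ η s₁ T : ℝ} (hμ : 0 ≤ μ) (H : Re f) (hs : 0 < s₁)
    (hs1 : X1 f ≤ s₁) (Q : PolC F η (X1 f) (cF f)) {s' : ℝ} (hs' : X1 f ≤ s') (h1 : s' ≤ 1)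
    {P : (ℝ → ℝ) → Prop} (hP : P (Xa (X1 f) f)) {κ : Type*} {σ : Finset κ} {c : κ → ℝ} {v : κ → CV}
    {u : κ → ι → ℝ} (hc : ∀ j ∈ σ, 0 ≤ c j) (hc1 : ∑ j ∈ σ, c j = 1)
    (hv : vecP W F 0 η s₁ (X1 f) (cF f) = ∑ j ∈ σ, c j • v j) (HB : IsLin Bx Ψ (∑ j ∈ σ, c j • u j) f)
    (h : ∀ j ∈ σ, ∀ X, St s' X → (∀ a, |X a| ≤ 31 / 50 * s') → P X → RWX va X e1 Ψ (v j) (u j) μ T) :
    CertAtX Bx W F μ T f := by
  have hS := (ALY.st H.hf H.h0 H.h2).mono H.h0 hs' h1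
  have hb : ∀ a, |Xa (X1 f) f a| ≤ 31 / 50 * s' := fun a => (Xa_bd H.hf H.h0 H.h2 a).trans (by linarith)
  refine certAtX_of_NCXP H hs hs1 Q HB ?_
  rw [hv]
  exact NCX.comb hc hc1 hμ fun j hj => NCX_of_RWXva H (h j hj _ hS hb hP)

end Pool.Agent.FPX.BTN
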