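import Mathlib
import Pool.Agent.FPX.BTL
import Pool.Agent.FPX.BTP

/-
BTP9 (helper69): THE POLE CELL for the class `Cert9` (forms of OM7 and `conj C₃ C₅`, `C₅`). The certificate at a state with
`0 ≤ s ≤ s₁` (the pole included) follows from `BTG.NC (C9 Ψ)` at the frozen vector `vec9P`.
-/

open MeasureTheory Set Filter Topology Complex
open scoped ComplexConjugate

noncomputable section

set_option linter.unusedSectionVars false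

namespace Pool.Agent.FPX.BTI

open Pool.Agent.FPX.BTG (Sta Cls mo aK bK dev)
open Pool.Agent.FPX.CRD (Bm)
open Pool.Agent.FPX.ALX
open Pool.Agent.FPX.BTN (va e1 nf ef bw vecP PolC)
open Pool.Agent.FPX.UMP (Ef)
open Pool.Agent.FPX.UMQ
open Pool.Agent.FPX.F54 (X1 X2 X_lt X_G1 X_G2 sF)
open Pool.Agent.FPX.S54 (de)
open Pool.Agent.FPX.OMB (vm vm_int vm_prob)
open Pool.Agent.FPX.OMS (rF cF)
open Pool.Agent.FPX.CERQ (xT)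
open Pool.Agent.FPX.OM7 (Cp Cm W7 mk7 bv)
open Pool.Agent.FPX.OMG (Cof9 mk9 W9 WP mkP CertAt9 Cert9 DevK)
open Pool.Agent.FPX.OMR (Re xR eR vR r3 r5 r7 q0 WPR W7R bR mR mR9)

/-- **the frozen coefficient vector** of the class `C9` -/
def vec9P (W : ℝ → ℝ) (F : Cof9) (μ η s₁ s c : ℝ) : V9 :=
  ![vecP W F.C μ η s₁ s c 0, vecP W F.C μ η s₁ s c 1, vecP W F.C μ η s₁ s c 2, vecP W F.C μ η s₁ s c 3,
    vecP W F.C μ η s₁ s c 4, vecP W F.C μ η s₁ s c 5, vecP W F.C μ η s₁ s c 6, vecP W F.C μ η s₁ s c 7,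
    vecP W F.C μ η s₁ s c 8, vecP W F.C μ η s₁ s c 9, vecP W F.C μ η s₁ s c 10, vecP W F.C μ η s₁ s c 11,
    vecP W F.C μ η s₁ s c 12, vecP W F.C μ η s₁ s c 13, vecP W F.C μ η s₁ s c 14,
    2 * c * F.p1 (s ^ 2), 2 * c * s ^ 2 * F.p2 (s ^ 2), s ^ 4 * F.x5 (s ^ 2), s ^ 6 * F.y5 (s ^ 2),
    4 * c * (2 * c ^ 2 * deriv F.p1 (s ^ 2) - F.p1 (s ^ 2)
      + 2 * c ^ 2 * (s ^ 2 * deriv F.p2 (s ^ 2) + 3 * F.p2 (s ^ 2)) + s ^ 2 * F.p2 (s ^ 2)),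
    s ^ 4 * (4 * c ^ 2 * deriv F.x5 (s ^ 2) - 5 * F.x5 (s ^ 2)
      + 4 * c ^ 2 * (s ^ 2 * deriv F.y5 (s ^ 2) + 6 * F.y5 (s ^ 2)) + 5 * s ^ 2 * F.y5 (s ^ 2))]

section

variable {Q : Type} [Fintype Q] {Ψ : Psi9 Q} {f : ℝ → ℝ}

theorem mo3_re (H : Re f) : (mo (C9 Ψ) (nf f) (xT f) (ef f) 3).re = q0 f := by
  rw [← P0_eq' (Ψ := Ψ) (f := f), BTN.rP0 H]

theorem mo4 (H : Re f) : mo (C9 Ψ) (nf f) (xT f) (ef f) 4 = OMR.q2 f := by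
  have e : BTN.P2 (nf f) (xT f) (ef f) = mo (C9 Ψ) (nf f) (xT f) (ef f) 4 := rfl
  rw [← e, BTN.rP2 H]

theorem mo5 (H : Re f) : mo (C9 Ψ) (nf f) (xT f) (ef f) 5 = OMR.q4 f := by
  have e : BTN.P4 (nf f) (xT f) (ef f) = mo (C9 Ψ) (nf f) (xT f) (ef f) 5 := rfl
  rw [← e, BTN.rP4 H]

theorem mk9_P (H : Re f) (W : ℝ → ℝ) (F : Cof9) (μ η s₁ t : ℝ) :
    mk9 F f t = ke9 (vec9P W F μ η s₁ (X1 f) (cF f)) (mo (C9 Ψ) (nf f) (xT f) (ef f)) (ef f t) (xT f t) := by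
  rw [H.mk9e]
  unfold mR9 mR ke9
  rw [r3_eq (Ψ := Ψ) H.hf H.h0 H.h2, r5_eq (Ψ := Ψ) H.hf H.h0 H.h2, H.rr, xR_eq H.hf H.h0 H.h2, eR_eq H.h2]
  simp only [vec9P, vecP, Matrix.cons_val_zero, Matrix.cons_val_one, Matrix.cons_val]
  push_cast
  ring

theorem v9P_14 (W : ℝ → ℝ) (F : Cof9) (μ η s₁ s c : ℝ) : vec9P W F μ η s₁ s c 14 = μ + η / 2 := by
  simp only [vec9P, vecP, Matrix.cons_val_zero, Matrix.cons_val_one, Matrix.cons_val]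

/-- the coefficient of the Jacobian and the terms with `∇C₃` -/
theorem om9_P {W : ℝ → ℝ} {F : Cof9} {μ η s₁ : ℝ} (H : Re f) (A B N M : ℂ) :
    W9 W F f * (‖A‖ ^ 2 - ‖B‖ ^ 2) + bv F.C f A B N M =
      om9 (vec9P W F μ η s₁ (X1 f) (cF f)) (mo (C9 Ψ) (nf f) (xT f) (ef f)) * (‖A‖ ^ 2 - ‖B‖ ^ 2)
      + bb9 (vec9P W F μ η s₁ (X1 f) (cF f)) (mo (C9 Ψ) (nf f) (xT f) (ef f)) A B N M
      + ((BTN.pa F.C (X1 f) (cF f) * S54.S0 f + BTN.pg F.C (X1 f) (cF f) * Complex.normSq (SYS.CE 3 f))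
          * (‖A‖ ^ 2 - ‖B‖ ^ 2)
        - cF f ^ 2 / s₁ ^ 2 * (BTN.pa F.C (X1 f) (cF f) * q0 f + 4 * BTN.pg F.C (X1 f) (cF f) * ‖r3 f‖ ^ 2)
          * (‖A‖ ^ 2 - ‖B‖ ^ 2)) := by
  have hc := H.c0.ne'
  unfold W9
  rw [H.w7, H.wpe, H.bb]
  unfold om9 bb9
  rw [mo3_re H, mo4 H, mo5 H, ← r3_eq (Ψ := Ψ) H.hf H.h0 H.h2, ← r5_eq (Ψ := Ψ) H.hf H.h0 H.h2,
    ← r7_eq (Ψ := Ψ) H.hf H.h0 H.h2]
  unfold W7R WPR bR BTN.pa BTN.pg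
  rw [H.rr]
  simp only [vec9P, vecP, Matrix.cons_val_zero, Matrix.cons_val_one, Matrix.cons_val]
  have q1 : cF f ^ 2 * (2 * cF f * deriv F.C.Q (X1 f ^ 2) - F.C.Q (X1 f ^ 2) / cF f + F.C.Z (X1 f ^ 2) / cF f
      + 2 * cF f * (X1 f ^ 2 * deriv F.C.P (X1 f ^ 2) + 3 * F.C.P (X1 f ^ 2)) + X1 f ^ 2 * F.C.P (X1 f ^ 2) / cF f) =
      cF f * (2 * cF f ^ 2 * deriv F.C.Q (X1 f ^ 2) - F.C.Q (X1 f ^ 2) + F.C.Z (X1 f ^ 2)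
      + 2 * cF f ^ 2 * (X1 f ^ 2 * deriv F.C.P (X1 f ^ 2) + 3 * F.C.P (X1 f ^ 2)) + X1 f ^ 2 * F.C.P (X1 f ^ 2)) := by
    field_simp
  have q4' : 2 * cF f * X1 f ^ 2 * (2 * cF f * deriv F.C.x (X1 f ^ 2) - 3 * F.C.x (X1 f ^ 2) / (2 * cF f)
      + 2 * cF f * (X1 f ^ 2 * deriv F.C.y (X1 f ^ 2) + 4 * F.C.y (X1 f ^ 2))
      + 3 * X1 f ^ 2 * F.C.y (X1 f ^ 2) / (2 * cF f)) =
      X1 f ^ 2 * (4 * cF f ^ 2 * deriv F.C.x (X1 f ^ 2) - 3 * F.C.x (X1 f ^ 2)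
      + 4 * cF f ^ 2 * (X1 f ^ 2 * deriv F.C.y (X1 f ^ 2) + 4 * F.C.y (X1 f ^ 2))
      + 3 * X1 f ^ 2 * F.C.y (X1 f ^ 2)) := by
    field_simp
    ring
  have q6 : 4 * cF f ^ 2 / s₁ ^ 2 = 4 * (cF f ^ 2 / s₁ ^ 2) := by ring
  have q12 : 12 * cF f ^ 2 / s₁ ^ 2 = 12 * (cF f ^ 2 / s₁ ^ 2) := by ring
  rw [q1, q4', q6, q12, Complex.sub_re, Complex.normSq_eq_norm_sq (r3 f), Complex.normSq_eq_norm_sq (r5 f)]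
  ring

/-- **the left side of the certificate is at most the form of the class `C9` at the frozen vector** -/
theorem left9_le {W : ℝ → ℝ} {F : Cof9} {η s₁ : ℝ} (H : Re f) (hs : 0 < s₁) (hs1 : X1 f ≤ s₁)
    (P : PolC F.C η (X1 f) (cF f)) (u : Q → ℝ) (μ : ℝ) (K : ℝ → ℂ) (A B : ℂ) :
    W9 W F f * (‖A‖ ^ 2 - ‖B‖ ^ 2)
      + 2 * (A * ∫ t, mk9 F f t * K t ∂(vm (X1 f) (X2 f))).re
      - 2 * (B * ∫ t, mk9 F f t * conj (K t) ∂(vm (X1 f) (X2 f))).re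
      + bv F.C f A B (Cp f A B (∫ t, C54.ep (X1 f) (X2 f) t ^ 3 * conj (K t) ∂(vm (X1 f) (X2 f))))
          (Cm f A B (∫ t, C54.ep (X1 f) (X2 f) t ^ 3 * K t ∂(vm (X1 f) (X2 f))))
      + 2 * μ * ‖dev (C9 Ψ) u (mo (C9 Ψ) (nf f) (xT f) (ef f)) A B (aK (C9 Ψ) (nf f) (xT f) (ef f) K)
        (bK (C9 Ψ) (nf f) (xT f) (ef f) K)‖ ^ 2 ≤
    BTG.lh (C9 Ψ) (nf f) (xT f) (ef f) (vec9P W F 0 η s₁ (X1 f) (cF f)) u μ K A B := by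
  have hS := BTN.sing_le H P.ha P.hg P.hη P.hη' hs hs1 A B
  have e1 : ∀ t, BTG.ker (C9 Ψ) (vec9P W F 0 η s₁ (X1 f) (cF f)) (mo (C9 Ψ) (nf f) (xT f) (ef f)) (ef f t)
      (xT f t) = mk9 F f t := fun t => by
    rw [ker9, ← mk9_P H W F 0 η s₁]
  have h := om9_P (Ψ := Ψ) (W := W) (F := F) (μ := 0) (η := η) (s₁ := s₁) H A B
    (BTN.cp (nf f) (xT f) (ef f) A B (∫ t, C54.ep (X1 f) (X2 f) t ^ 3 * conj (K t) ∂(vm (X1 f) (X2 f))))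
    (BTN.cm (nf f) (xT f) (ef f) A B (∫ t, C54.ep (X1 f) (X2 f) t ^ 3 * K t ∂(vm (X1 f) (X2 f))))
  unfold BTG.lh
  rw [tht9, v9P_14, n9_eq, m9_eq, BTN.Cp_eqR H, BTN.Cm_eqR H]
  simp only [e1]
  rw [zero_add]
  have e2 : η / 2 * (2 * ‖B‖ ^ 2) = η * ‖B‖ ^ 2 := by ring
  rw [e2]
  linarith

/-- **the certificate `CertAt9` at a state of the pole cell** -/
theorem certAt9_of_NCP {Bk : DevK} {W : ℝ → ℝ} {F : Cof9} {u : Q → ℝ} {μ η s₁ T : ℝ} (hμ : 0 ≤ μ) (H : Re f)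
    (hs : 0 < s₁) (hs1 : X1 f ≤ s₁) (P : PolC F.C η (X1 f) (cF f))
    (HB : ∀ K : ℝ → ℂ, Measurable K → (∀ t, ‖K t‖ ≤ 1) → ∀ A B : ℂ, ‖Bk f K A B‖ ≤
      ‖dev (C9 Ψ) u (mo (C9 Ψ) (nf f) (xT f) (ef f)) A B (aK (C9 Ψ) (nf f) (xT f) (ef f) K)
        (bK (C9 Ψ) (nf f) (xT f) (ef f) K)‖)
    (h : BTG.NC (C9 Ψ) (nf f) (xT f) (ef f) (vec9P W F 0 η s₁ (X1 f) (cF f)) u μ T) :
    CertAt9 Bk W F μ T f := by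
  intro K hK hK1 A B hA hB
  rw [H.sf, r3_eq (Ψ := Ψ) H.hf H.h0 H.h2] at hA hB
  have h1 := left9_le (Ψ := Ψ) (W := W) (F := F) H hs hs1 P u μ K A B
  have h2 := h K hK hK1 A B hA hB
  have h3 := mul_le_mul_of_nonneg_left (pow_le_pow_left₀ (norm_nonneg _) (HB K hK hK1 A B) 2)
    (show (0 : ℝ) ≤ 2 * μ by linarith)
  linarith

/-- the deviation, states with `s ≥ 0` -/
theorem devK_leR {Bx : OM7.Dev} {u : Q → ℝ} (H : Re f) (HB : DevLe Bx Ψ u f) (K : ℝ → ℂ) (A B : ℂ) :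
    ‖OM7.devK Bx f K A B‖ ≤
      ‖dev (C9 Ψ) u (mo (C9 Ψ) (nf f) (xT f) (ef f)) A B (aK (C9 Ψ) (nf f) (xT f) (ef f) K)
        (bK (C9 Ψ) (nf f) (xT f) (ef f) K)‖ := by
  unfold OM7.devK
  refine (HB _ _ _ _ _ _ _).trans (le_of_eq ?_)
  rw [BTN.Cp_eqR H, BTN.Cm_eqR H, BTN.t_SpR H, BTN.t_SmR H]
  have e1 : ((X1 f / cF f : ℝ) : ℂ) * ∫ t, ((de (X1 f) (X2 f) f t : ℂ) * C54.ep (X1 f) (X2 f) t ^ 2)
      * conj (K t) ∂(vm (X1 f) (X2 f)) = bK (C9 Ψ) (nf f) (xT f) (ef f) K 1 := by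
    have := BTN.t_intR H (fun t => ef f t ^ 2 * conj (K t))
    simp only [← mul_assoc] at this
    exact this
  have e2 : ((X1 f / cF f : ℝ) : ℂ) * ∫ t, ((de (X1 f) (X2 f) f t : ℂ) * C54.ep (X1 f) (X2 f) t ^ 2)
      * K t ∂(vm (X1 f) (X2 f)) = aK (C9 Ψ) (nf f) (xT f) (ef f) K 1 := by
    have := BTN.t_intR H (fun t => ef f t ^ 2 * K t)
    simp only [← mul_assoc] at this
    exact this
  have e3 : ((X1 f / cF f : ℝ) : ℂ) * ∫ t, (de (X1 f) (X2 f) f t : ℂ) * K t ∂(vm (X1 f) (X2 f)) =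
      aK (C9 Ψ) (nf f) (xT f) (ef f) K 2 := BTN.t_intR H K
  rw [e1, e2, e3]
  rfl

/-- **the certificate `CertAt9 (devK Bx)` at a state of the pole cell** -/
theorem certAt9X_of_NCP {Bx : OM7.Dev} {W : ℝ → ℝ} {F : Cof9} {u : Q → ℝ} {μ η s₁ T : ℝ} (hμ : 0 ≤ μ)
    (H : Re f) (hs : 0 < s₁) (hs1 : X1 f ≤ s₁) (P : PolC F.C η (X1 f) (cF f)) (HB : DevLe Bx Ψ u f)
    (h : BTG.NC (C9 Ψ) (nf f) (xT f) (ef f) (vec9P W F 0 η s₁ (X1 f) (cF f)) u μ T) :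
    CertAt9 (OM7.devK Bx) W F μ T f :=
  certAt9_of_NCP hμ H hs hs1 P (fun K _ _ A B => devK_leR H HB K A B) h

/-- **the pole cell, class `Cert9`** (control points as in `BTG.cell`) -/
theorem cell9P {Bx : OM7.Dev} {W : ℝ → ℝ} {F : Cof9} {μ η s₁ T : ℝ} (hμ : 0 ≤ μ) (H : Re f) (hs : 0 < s₁)
    (hs1 : X1 f ≤ s₁) (P : PolC F.C η (X1 f) (cF f)) {s' : ℝ} (hs' : X1 f ≤ s') (h1 : s' ≤ 1)
    {R : (ℝ → ℝ) → Prop} (hR : R (Xa (X1 f) f)) {κ : Type*} {S : Finset κ} {c : κ → ℝ} {v : κ → V9}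
    {u : κ → Q → ℝ} (hc : ∀ j ∈ S, 0 ≤ c j) (hc1 : ∑ j ∈ S, c j = 1)
    (hv : vec9P W F 0 η s₁ (X1 f) (cF f) = ∑ j ∈ S, c j • v j) (HB : DevLe Bx Ψ (∑ j ∈ S, c j • u j) f)
    (h : ∀ j ∈ S, ∀ X, St s' X → (∀ a, |X a| ≤ 31 / 50 * s') → R X → BTG.RW (C9 Ψ) va X e1 (v j) (u j) μ T) :
    CertAt9 (OM7.devK Bx) W F μ T f :=
  certAt9X_of_NCP hμ H hs hs1 P HB (BTG.cell H.hf H.h0 H.h2 hμ hs' h1 hR hc hc1 hv rfl h)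

/-- **the pole cell with approximate control points** (as `cell9`) -/
theorem cell9P' {Bx : OM7.Dev} {W : ℝ → ℝ} {F : Cof9} {μ η s₁ T : ℝ} (hμ : 0 ≤ μ) (H : Re f) (hs : 0 < s₁)
    (hs1 : X1 f ≤ s₁) (P : PolC F.C η (X1 f) (cF f)) {s' : ℝ} (hs' : X1 f ≤ s') (h1 : s' ≤ 1)
    {R : (ℝ → ℝ) → Prop} (hR : R (Xa (X1 f) f)) {κ : Type*} {S : Finset κ} {c : κ → ℝ} {v : κ → V9}
    {u : κ → Q → ℝ} (hc : ∀ j ∈ S, 0 ≤ c j) (hc1 : ∑ j ∈ S, c j = 1)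
    (h : ∀ j ∈ S, ∀ X, St s' X → (∀ a, |X a| ≤ 31 / 50 * s') → R X → BTG.RW (C9 Ψ) va X e1 (v j) (u j) μ T)
    {u0 : Q → ℝ} (HB : DevLe Bx Ψ u0 f) {d : Q → ℝ} (hΨ : PsiLe Ψ d) {δ U θ : ℝ}
    (hδ : ∑ q, |u0 q - (∑ j ∈ S, c j • u j) q| * d q ≤ δ) (hU : ∑ q, |(∑ j ∈ S, c j • u j) q| * d q ≤ U)
    (hθ : ∑ i, |vec9P W F 0 η s₁ (X1 f) (cF f) i - (∑ j ∈ S, c j • v j) i| * c9 i
      + 2 * μ * (δ * (2 * U + δ)) ≤ θ) :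
    CertAt9 (OM7.devK Bx) W F μ (T + θ) f :=
  certAt9X_of_NCP hμ H hs hs1 P HB (cell9 H.hf H.h0 H.h2 hμ hs' h1 hR hc hc1 h hΨ hδ hU hθ)

end

end Pool.Agent.FPX.BTI
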