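import Mathlib
import Pool.Agent.FPX.BTP9

/-
BTR (helper69): EVERY LATITUDE CELL WITH POLYNOMIAL COEFFICIENT VECTORS. Since the bracket of the two singular coefficients is
`≤ 0`, the factor `1 / s²` may be replaced by any number `ρ ≥ 0` with `s² ρ ≤ 1` (a polynomial minorant of `1 / (1 - c²)` on
a cell, `ρ = 1 / s₁²` on the pole cell): `vecR`, `vec9R`. The price is `η ‖B‖²`, `η = (1 - s² ρ) (0.62 c)² max`.
-/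

open MeasureTheory Set Filter Topology Real
open scoped NNReal ComplexConjugate

noncomputable section

set_option linter.unusedSectionVars false

namespace Pool.Agent.FPX.BTN

open Pool.Agent.FPX.CRD (Bm)
open Pool.Agent.FPX.ALX
open Pool.Agent.FPX.UMP (Ef)
open Pool.Agent.FPX.UMQ
open Pool.Agent.FPX.F54 (X1 X2 X_lt X_G1 X_G2 sF)
open Pool.Agent.FPX.S54 (de mS ME YY Sn)
open Pool.Agent.FPX.OMB (vm vm_int vm_prob bm_ep)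
open Pool.Agent.FPX.OMS (rF cF)
open Pool.Agent.FPX.CERQ (xT Er sr)
open Pool.Agent.FPX.SYS (CE)
open Pool.Agent.FPX.OM7 (Cof CertAt CertAtX Cert7X Dev devK Sp Sm Cp Cm mk7 bv W7 bm_de bm_pow)
open Pool.Agent.FPX.OMR (xR eR vR r3 r5 q0 q4 mR W7R bR Re)

/-- the coefficient vector of `(W, F, μ + η / 2)` with `ρ` in place of `1 / s²` in the coefficients of `P₀`, `|M₃|²` -/
def vecR (W : ℝ → ℝ) (F : Cof) (μ η ρ s c : ℝ) : CV :=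
  ![2 * c * W c - s ^ 2 * deriv W c,
    c ^ 2 * (2 * c * deriv F.Q (s ^ 2) - F.Q (s ^ 2) / c + F.Z (s ^ 2) / c
      + 2 * c * (s ^ 2 * deriv F.P (s ^ 2) + 3 * F.P (s ^ 2)) + s ^ 2 * F.P (s ^ 2) / c),
    c ^ 2 * ρ * pa F s c,
    c * s ^ 2 * F.P (s ^ 2),
    2 * c * s ^ 2 * (2 * c * deriv F.x (s ^ 2) - 3 * F.x (s ^ 2) / (2 * c)
      + 2 * c * (s ^ 2 * deriv F.y (s ^ 2) + 4 * F.y (s ^ 2)) + 3 * s ^ 2 * F.y (s ^ 2) / (2 * c)),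
    s ^ 4 * F.y (s ^ 2),
    4 * c ^ 2 * ρ * (2 * c * (s ^ 2 * deriv F.g (s ^ 2) + F.g (s ^ 2))),
    4 * c * F.g (s ^ 2),
    c * F.Q (s ^ 2),
    c * F.Z (s ^ 2),
    s ^ 2 * F.x (s ^ 2),
    F.b (s ^ 2),
    12 * c ^ 2 * ρ * F.b (s ^ 2),
    4 * c ^ 2 * deriv F.b (s ^ 2),
    μ + η / 2]

/-- **the conditions on the coefficient functions and on `ρ` at one latitude** -/
structure PolR (F : Cof) (η ρ s c : ℝ) : Prop where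
  ha : pa F s c ≤ 0
  hg : pa F s c + 2 * pg F s c ≤ 0
  h0 : 0 ≤ ρ
  h1 : s ^ 2 * ρ ≤ 1
  hη : (1 - s ^ 2 * ρ) * (-pa F s c * (31 / 50 * c) ^ 2) ≤ η
  hη' : (1 - s ^ 2 * ρ) * (-(pa F s c + 2 * pg F s c) * (31 / 50 * c) ^ 2) ≤ η

variable {f : ℝ → ℝ}

/-- **the singular terms** -/
theorem sing_leR (H : Re f) {a g η ρ : ℝ} (ha : a ≤ 0) (hg : a + 2 * g ≤ 0) (_h0 : 0 ≤ ρ) (h1 : X1 f ^ 2 * ρ ≤ 1)
    (hη : (1 - X1 f ^ 2 * ρ) * (-a * (31 / 50 * cF f) ^ 2) ≤ η)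
    (hη' : (1 - X1 f ^ 2 * ρ) * (-(a + 2 * g) * (31 / 50 * cF f) ^ 2) ≤ η) (A B : ℂ) :
    (a * S54.S0 f + g * Complex.normSq (CE 3 f)) * (‖A‖ ^ 2 - ‖B‖ ^ 2) ≤
      cF f ^ 2 * ρ * (a * q0 f + 4 * g * ‖r3 f‖ ^ 2) * (‖A‖ ^ 2 - ‖B‖ ^ 2) + η * ‖B‖ ^ 2 := by
  have hc := H.c0
  have e1 := H.s0
  have e2 := H.cs
  have hC := C3_le H
  have hS := S0_le H
  have hS0 := S0_nonneg H
  have hC0 := Complex.normSq_nonneg (CE 3 f)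
  rw [Complex.normSq_eq_norm_sq (r3 f)] at e2
  set S := S54.S0 f
  set N := Complex.normSq (CE 3 f)
  set β := a * S + g * N with hβ
  have e3 : cF f ^ 2 * ρ * (a * q0 f + 4 * g * ‖r3 f‖ ^ 2) = X1 f ^ 2 * ρ * β := by
    rw [hβ]
    linear_combination (-(ρ * a)) * e1 - ρ * g * e2
  rw [e3]
  have hβ0 : β ≤ 0 := by
    rcases le_total g 0 with h | h
    · nlinarith
    · nlinarith
  set τ := X1 f ^ 2 * ρ
  have hτ : 0 ≤ 1 - τ := sub_nonneg.2 h1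
  have h4 : (1 - τ) * (-β) ≤ η := by
    rcases le_total g 0 with h | h
    · have k1 : -β ≤ -(a + 2 * g) * S := by nlinarith
      have k2 : -(a + 2 * g) * S ≤ -(a + 2 * g) * (31 / 50 * cF f) ^ 2 :=
        mul_le_mul_of_nonneg_left hS (by linarith)
      exact (mul_le_mul_of_nonneg_left (k1.trans k2) hτ).trans hη'
    · have k1 : -β ≤ -a * S := by nlinarith
      have k2 : -a * S ≤ -a * (31 / 50 * cF f) ^ 2 := mul_le_mul_of_nonneg_left hS (by linarith)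
      exact (mul_le_mul_of_nonneg_left (k1.trans k2) hτ).trans hη
  have hB : 0 ≤ ‖B‖ ^ 2 := sq_nonneg _
  have hA : 0 ≤ ‖A‖ ^ 2 := sq_nonneg _
  have h3 : 0 ≤ (1 - τ) * (-β) := mul_nonneg hτ (by linarith)
  nlinarith [mul_nonneg h3 hA, mul_le_mul_of_nonneg_right h4 hB]

/-! ### class `Cert7`, `Cert7X` -/

theorem mkv_vecR (H : Re f) (W : ℝ → ℝ) (F : Cof) (μ η ρ t : ℝ) :
    mk7 F f t = mkv (nf f) (xT f) (ef f) (vecR W F μ η ρ (X1 f) (cF f)) t := by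
  rw [H.mkr]
  unfold mR mkv
  rw [rM3 H, H.rr, xT_xR H, ef_fun H]
  simp only [vecR, Matrix.cons_val]
  push_cast
  ring

/-- **the left side of the certificate is at most the linear form at the vector `vecR`** -/
theorem left_leR {W : ℝ → ℝ} {F : Cof} {μ η ρ : ℝ} (H : Re f) (P : PolR F η ρ (X1 f) (cF f)) {K : ℝ → ℂ}
    (hK : Measurable K) (hK1 : ∀ t, ‖K t‖ ≤ 1) (A B : ℂ) :
    W7 W F f * (‖A‖ ^ 2 - ‖B‖ ^ 2)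
      + 2 * (A * ∫ t, mk7 F f t * K t ∂(vm (X1 f) (X2 f))).re
      - 2 * (B * ∫ t, mk7 F f t * conj (K t) ∂(vm (X1 f) (X2 f))).re
      + bv F f A B (Cp f A B (∫ t, C54.ep (X1 f) (X2 f) t ^ 3 * conj (K t) ∂(vm (X1 f) (X2 f))))
          (Cm f A B (∫ t, C54.ep (X1 f) (X2 f) t ^ 3 * K t ∂(vm (X1 f) (X2 f)))) + 2 * μ * ‖B‖ ^ 2 ≤
    lhs (nf f) (xT f) (ef f) (vecR W F μ η ρ (X1 f) (cF f)) K A B := by
  have hX := X_lt H.hf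
  have := vm_prob hX
  have bK : Bm K := ⟨hK, 1, hK1⟩
  have bD : Bm fun t => (xT f t : ℂ) := by
    rw [xT_fun H]
    exact ⟨Complex.measurable_ofReal.comp H.ctx.measurable, 1, fun t => by
      rw [Complex.norm_real, ← xT_xR H]
      exact xT_le H.hf H.h0 H.h2 t⟩
  have bE : Bm (ef f) := bm_ep hX
  rw [lhs_eq' bD bE _ bK]
  have em : mk7 F f = mkv (nf f) (xT f) (ef f) (vecR W F μ η ρ (X1 f) (cF f)) :=
    funext fun t => mkv_vecR H W F μ η ρ t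
  have e2 : 2 * (A * ∫ t, mk7 F f t * K t ∂(vm (X1 f) (X2 f))).re
      - 2 * (B * ∫ t, mk7 F f t * conj (K t) ∂(vm (X1 f) (X2 f))).re =
      pk (nf f) (mkv (nf f) (xT f) (ef f) (vecR W F μ η ρ (X1 f) (cF f))) K A B := by
    rw [← em]
    rfl
  have hS := sing_leR H P.ha P.hg P.h0 P.h1 P.hη P.hη' A B
  rw [← e2, ← Cp_eqR H, ← Cm_eqR H]
  rw [H.w7, H.bb]
  unfold W7R bR Wv bvv
  rw [rM3 H, rM5 H, rP0 H, rP2 H, rP4 H, H.rr]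
  simp only [vecR, Matrix.cons_val_zero, Matrix.cons_val_one, Matrix.cons_val]
  unfold pa pg at hS
  unfold pa
  have hc := H.c0.ne'
  have q1 : cF f ^ 2 * (2 * cF f * deriv F.Q (X1 f ^ 2) - F.Q (X1 f ^ 2) / cF f + F.Z (X1 f ^ 2) / cF f
      + 2 * cF f * (X1 f ^ 2 * deriv F.P (X1 f ^ 2) + 3 * F.P (X1 f ^ 2)) + X1 f ^ 2 * F.P (X1 f ^ 2) / cF f) =
      cF f * (2 * cF f ^ 2 * deriv F.Q (X1 f ^ 2) - F.Q (X1 f ^ 2) + F.Z (X1 f ^ 2)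
      + 2 * cF f ^ 2 * (X1 f ^ 2 * deriv F.P (X1 f ^ 2) + 3 * F.P (X1 f ^ 2)) + X1 f ^ 2 * F.P (X1 f ^ 2)) := by
    field_simp
  have q4' : 2 * cF f * X1 f ^ 2 * (2 * cF f * deriv F.x (X1 f ^ 2) - 3 * F.x (X1 f ^ 2) / (2 * cF f)
      + 2 * cF f * (X1 f ^ 2 * deriv F.y (X1 f ^ 2) + 4 * F.y (X1 f ^ 2))
      + 3 * X1 f ^ 2 * F.y (X1 f ^ 2) / (2 * cF f)) =
      X1 f ^ 2 * (4 * cF f ^ 2 * deriv F.x (X1 f ^ 2) - 3 * F.x (X1 f ^ 2)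
      + 4 * cF f ^ 2 * (X1 f ^ 2 * deriv F.y (X1 f ^ 2) + 4 * F.y (X1 f ^ 2)) + 3 * X1 f ^ 2 * F.y (X1 f ^ 2)) := by
    field_simp
    ring
  rw [q1, q4', Complex.sub_re]
  refine le_of_sub_nonneg ?_
  have hS' := sub_nonneg.2 hS
  refine le_trans hS' (le_of_eq ?_)
  ring

/-- **the certificate from the linear certificate at `vecR`**, all states with `s ≥ 0` -/
theorem certAt_of_NCR {W : ℝ → ℝ} {F : Cof} {μ η ρ T : ℝ} (H : Re f) (P : PolR F η ρ (X1 f) (cF f))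
    (h : NC (nf f) (xT f) (ef f) (vecR W F μ η ρ (X1 f) (cF f)) T) : CertAt W F μ T f := by
  intro K hK hK1 A B hA hB
  rw [H.sf] at hA hB
  refine (left_leR H P hK hK1 A B).trans (h K hK hK1 A B ?_ ?_)
  · unfold sg
    rw [rM3 H]
    exact hA
  · unfold sg
    rw [rM3 H]
    exact hB

/-- the same with another deviation -/
theorem certAtX_of_NCXR {ι : Type} [Fintype ι] {Bx : Dev} {Ψ : Psi ι} {u : ι → ℝ} {W : ℝ → ℝ} {F : Cof}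
    {μ η ρ T : ℝ} (H : Re f) (P : PolR F η ρ (X1 f) (cF f)) (HB : IsLin Bx Ψ u f)
    (h : NCX (nf f) (xT f) (ef f) Ψ (vecR W F 0 η ρ (X1 f) (cF f)) u μ T) : CertAtX Bx W F μ T f := by
  intro K hK hK1 A B hA hB
  rw [H.sf] at hA hB
  have h1 := left_leR (W := W) (μ := 0) H P hK hK1 A B
  have h2 := h K hK hK1 A B (by unfold sg; rw [rM3 H]; exact hA) (by unfold sg; rw [rM3 H]; exact hB)
  rw [← devK_devN H HB] at h2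
  linarith

end Pool.Agent.FPX.BTN

namespace Pool.Agent.FPX.BTI

open Pool.Agent.FPX.BTG (Sta Cls mo aK bK dev)
open Pool.Agent.FPX.CRD (Bm)
open Pool.Agent.FPX.ALX
open Pool.Agent.FPX.BTN (va e1 nf ef bw vecR PolR)
open Pool.Agent.FPX.UMP (Ef)
open Pool.Agent.FPX.UMQ
open Pool.Agent.FPX.F54 (X1 X2 X_lt X_G1 X_G2 sF)
open Pool.Agent.FPX.S54 (de)
open Pool.Agent.FPX.OMB (vm vm_int vm_prob)
open Pool.Agent.FPX.OMS (rF cF)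
open Pool.Agent.FPX.CERQ (xT)
open Pool.Agent.FPX.OM7 (Cp Cm W7 mk7 bv)
open Pool.Agent.FPX.OMG (Cof9 mk9 W9 WP mkP CertAt9 Cert9 DevK)
open Pool.Agent.FPX.OMR (Re xR eR vR r3 r5 r7 q0 WPR W7R bR mR mR9)

/-- the coefficient vector of the class `C9` with `ρ` in place of `1 / s²` -/
def vec9R (W : ℝ → ℝ) (F : Cof9) (μ η ρ s c : ℝ) : V9 :=
  ![vecR W F.C μ η ρ s c 0, vecR W F.C μ η ρ s c 1, vecR W F.C μ η ρ s c 2, vecR W F.C μ η ρ s c 3,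
    vecR W F.C μ η ρ s c 4, vecR W F.C μ η ρ s c 5, vecR W F.C μ η ρ s c 6, vecR W F.C μ η ρ s c 7,
    vecR W F.C μ η ρ s c 8, vecR W F.C μ η ρ s c 9, vecR W F.C μ η ρ s c 10, vecR W F.C μ η ρ s c 11,
    vecR W F.C μ η ρ s c 12, vecR W F.C μ η ρ s c 13, vecR W F.C μ η ρ s c 14,
    2 * c * F.p1 (s ^ 2), 2 * c * s ^ 2 * F.p2 (s ^ 2), s ^ 4 * F.x5 (s ^ 2), s ^ 6 * F.y5 (s ^ 2),
    4 * c * (2 * c ^ 2 * deriv F.p1 (s ^ 2) - F.p1 (s ^ 2)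
      + 2 * c ^ 2 * (s ^ 2 * deriv F.p2 (s ^ 2) + 3 * F.p2 (s ^ 2)) + s ^ 2 * F.p2 (s ^ 2)),
    s ^ 4 * (4 * c ^ 2 * deriv F.x5 (s ^ 2) - 5 * F.x5 (s ^ 2)
      + 4 * c ^ 2 * (s ^ 2 * deriv F.y5 (s ^ 2) + 6 * F.y5 (s ^ 2)) + 5 * s ^ 2 * F.y5 (s ^ 2))]

section

variable {Q : Type} [Fintype Q] {Ψ : Psi9 Q} {f : ℝ → ℝ}

theorem mk9_R (H : Re f) (W : ℝ → ℝ) (F : Cof9) (μ η ρ t : ℝ) :
    mk9 F f t = ke9 (vec9R W F μ η ρ (X1 f) (cF f)) (mo (C9 Ψ) (nf f) (xT f) (ef f)) (ef f t) (xT f t) := by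
  rw [H.mk9e]
  unfold mR9 mR ke9
  rw [r3_eq (Ψ := Ψ) H.hf H.h0 H.h2, r5_eq (Ψ := Ψ) H.hf H.h0 H.h2, H.rr, xR_eq H.hf H.h0 H.h2, eR_eq H.h2]
  simp only [vec9R, vecR, Matrix.cons_val_zero, Matrix.cons_val_one, Matrix.cons_val]
  push_cast
  ring

theorem v9R_14 (W : ℝ → ℝ) (F : Cof9) (μ η ρ s c : ℝ) : vec9R W F μ η ρ s c 14 = μ + η / 2 := by
  simp only [vec9R, vecR, Matrix.cons_val_zero, Matrix.cons_val_one, Matrix.cons_val]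

/-- the coefficient of the Jacobian and the terms with `∇C₃` -/
theorem om9_R {W : ℝ → ℝ} {F : Cof9} {μ η ρ : ℝ} (H : Re f) (A B N M : ℂ) :
    W9 W F f * (‖A‖ ^ 2 - ‖B‖ ^ 2) + bv F.C f A B N M =
      om9 (vec9R W F μ η ρ (X1 f) (cF f)) (mo (C9 Ψ) (nf f) (xT f) (ef f)) * (‖A‖ ^ 2 - ‖B‖ ^ 2)
      + bb9 (vec9R W F μ η ρ (X1 f) (cF f)) (mo (C9 Ψ) (nf f) (xT f) (ef f)) A B N M
      + ((BTN.pa F.C (X1 f) (cF f) * S54.S0 f + BTN.pg F.C (X1 f) (cF f) * Complex.normSq (SYS.CE 3 f))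
          * (‖A‖ ^ 2 - ‖B‖ ^ 2)
        - cF f ^ 2 * ρ * (BTN.pa F.C (X1 f) (cF f) * q0 f + 4 * BTN.pg F.C (X1 f) (cF f) * ‖r3 f‖ ^ 2)
          * (‖A‖ ^ 2 - ‖B‖ ^ 2)) := by
  have hc := H.c0.ne'
  unfold W9
  rw [H.w7, H.wpe, H.bb]
  unfold om9 bb9
  rw [mo3_re H, mo4 H, mo5 H, ← r3_eq (Ψ := Ψ) H.hf H.h0 H.h2, ← r5_eq (Ψ := Ψ) H.hf H.h0 H.h2,
    ← r7_eq (Ψ := Ψ) H.hf H.h0 H.h2]
  unfold W7R WPR bR
  rw [H.rr]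
  simp only [vec9R, vecR, Matrix.cons_val_zero, Matrix.cons_val_one, Matrix.cons_val]
  unfold BTN.pa BTN.pg
  have q1 : cF f ^ 2 * (2 * cF f * deriv F.C.Q (X1 f ^ 2) - F.C.Q (X1 f ^ 2) / cF f + F.C.Z (X1 f ^ 2) / cF f
      + 2 * cF f * (X1 f ^ 2 * deriv F.C.P (X1 f ^ 2) + 3 * F.C.P (X1 f ^ 2)) + X1 f ^ 2 * F.C.P (X1 f ^ 2) / cF f) =
      cF f * (2 * cF f ^ 2 * deriv F.C.Q (X1 f ^ 2) - F.C.Q (X1 f ^ 2) + F.C.Z (X1 f ^ 2)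
      + 2 * cF f ^ 2 * (X1 f ^ 2 * deriv F.C.P (X1 f ^ 2) + 3 * F.C.P (X1 f ^ 2)) + X1 f ^ 2 * F.C.P (X1 f ^ 2)) := by
    field_simp
  have q4' : 2 * cF f * X1 f ^ 2 * (2 * cF f * deriv F.C.x (X1 f ^ 2) - 3 * F.C.x (X1 f ^ 2) / (2 * cF f)
      + 2 * cF f * (X1 f ^ 2 * deriv F.C.y (X1 f ^ 2) + 4 * F.C.y (X1 f ^ 2))
      + 3 * X1 f ^ 2 * F.C.y (X1 f ^ 2) / (2 * cF f)) =
      X1 f ^ 2 * (4 * cF f ^ 2 * deriv F.C.x (X1 f ^ 2) - 3 * F.C.x (X1 f ^ 2)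
      + 4 * cF f ^ 2 * (X1 f ^ 2 * deriv F.C.y (X1 f ^ 2) + 4 * F.C.y (X1 f ^ 2))
      + 3 * X1 f ^ 2 * F.C.y (X1 f ^ 2)) := by
    field_simp
    ring
  rw [q1, q4', Complex.sub_re, Complex.normSq_eq_norm_sq (r3 f), Complex.normSq_eq_norm_sq (r5 f)]
  ring

/-- **the left side of the certificate is at most the form of the class `C9` at the vector `vec9R`** -/
theorem left9_leR {W : ℝ → ℝ} {F : Cof9} {η ρ : ℝ} (H : Re f) (P : PolR F.C η ρ (X1 f) (cF f)) (u : Q → ℝ)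
    (μ : ℝ) (K : ℝ → ℂ) (A B : ℂ) :
    W9 W F f * (‖A‖ ^ 2 - ‖B‖ ^ 2)
      + 2 * (A * ∫ t, mk9 F f t * K t ∂(vm (X1 f) (X2 f))).re
      - 2 * (B * ∫ t, mk9 F f t * conj (K t) ∂(vm (X1 f) (X2 f))).re
      + bv F.C f A B (Cp f A B (∫ t, C54.ep (X1 f) (X2 f) t ^ 3 * conj (K t) ∂(vm (X1 f) (X2 f))))
          (Cm f A B (∫ t, C54.ep (X1 f) (X2 f) t ^ 3 * K t ∂(vm (X1 f) (X2 f))))
      + 2 * μ * ‖dev (C9 Ψ) u (mo (C9 Ψ) (nf f) (xT f) (ef f)) A B (aK (C9 Ψ) (nf f) (xT f) (ef f) K)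
        (bK (C9 Ψ) (nf f) (xT f) (ef f) K)‖ ^ 2 ≤
    BTG.lh (C9 Ψ) (nf f) (xT f) (ef f) (vec9R W F 0 η ρ (X1 f) (cF f)) u μ K A B := by
  have hS := BTN.sing_leR H P.ha P.hg P.h0 P.h1 P.hη P.hη' A B
  have e1 : ∀ t, BTG.ker (C9 Ψ) (vec9R W F 0 η ρ (X1 f) (cF f)) (mo (C9 Ψ) (nf f) (xT f) (ef f)) (ef f t)
      (xT f t) = mk9 F f t := fun t => by
    rw [ker9, ← mk9_R H W F 0 η ρ]
  have h := om9_R (Ψ := Ψ) (W := W) (F := F) (μ := 0) (η := η) (ρ := ρ) H A B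
    (BTN.cp (nf f) (xT f) (ef f) A B (∫ t, C54.ep (X1 f) (X2 f) t ^ 3 * conj (K t) ∂(vm (X1 f) (X2 f))))
    (BTN.cm (nf f) (xT f) (ef f) A B (∫ t, C54.ep (X1 f) (X2 f) t ^ 3 * K t ∂(vm (X1 f) (X2 f))))
  unfold BTG.lh
  rw [tht9, v9R_14, n9_eq, m9_eq, BTN.Cp_eqR H, BTN.Cm_eqR H]
  simp only [e1]
  rw [zero_add]
  have e2 : η / 2 * (2 * ‖B‖ ^ 2) = η * ‖B‖ ^ 2 := by ring
  rw [e2]
  linarith

/-- **the certificate `CertAt9` from the class `C9` at `vec9R`**, all states with `s ≥ 0` -/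
theorem certAt9_of_NCR {Bk : DevK} {W : ℝ → ℝ} {F : Cof9} {u : Q → ℝ} {μ η ρ T : ℝ} (hμ : 0 ≤ μ) (H : Re f)
    (P : PolR F.C η ρ (X1 f) (cF f))
    (HB : ∀ K : ℝ → ℂ, Measurable K → (∀ t, ‖K t‖ ≤ 1) → ∀ A B : ℂ, ‖Bk f K A B‖ ≤
      ‖dev (C9 Ψ) u (mo (C9 Ψ) (nf f) (xT f) (ef f)) A B (aK (C9 Ψ) (nf f) (xT f) (ef f) K)
        (bK (C9 Ψ) (nf f) (xT f) (ef f) K)‖)
    (h : BTG.NC (C9 Ψ) (nf f) (xT f) (ef f) (vec9R W F 0 η ρ (X1 f) (cF f)) u μ T) :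
    CertAt9 Bk W F μ T f := by
  intro K hK hK1 A B hA hB
  rw [H.sf, r3_eq (Ψ := Ψ) H.hf H.h0 H.h2] at hA hB
  have h1 := left9_leR (Ψ := Ψ) (W := W) (F := F) H P u μ K A B
  have h2 := h K hK hK1 A B hA hB
  have h3 := mul_le_mul_of_nonneg_left (pow_le_pow_left₀ (norm_nonneg _) (HB K hK hK1 A B) 2)
    (show (0 : ℝ) ≤ 2 * μ by linarith)
  linarith

theorem certAt9X_of_NCR {Bx : OM7.Dev} {W : ℝ → ℝ} {F : Cof9} {u : Q → ℝ} {μ η ρ T : ℝ} (hμ : 0 ≤ μ)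
    (H : Re f) (P : PolR F.C η ρ (X1 f) (cF f)) (HB : DevLe Bx Ψ u f)
    (h : BTG.NC (C9 Ψ) (nf f) (xT f) (ef f) (vec9R W F 0 η ρ (X1 f) (cF f)) u μ T) :
    CertAt9 (OM7.devK Bx) W F μ T f :=
  certAt9_of_NCR hμ H P (fun K _ _ A B => devK_leR H HB K A B) h

/-- **a latitude cell (the pole may be in it), class `Cert9`**: exact control points -/
theorem cell9R {Bx : OM7.Dev} {W : ℝ → ℝ} {F : Cof9} {μ η ρ T : ℝ} (hμ : 0 ≤ μ) (H : Re f)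
    (P : PolR F.C η ρ (X1 f) (cF f)) {s' : ℝ} (hs' : X1 f ≤ s') (h1 : s' ≤ 1)
    {R : (ℝ → ℝ) → Prop} (hR : R (Xa (X1 f) f)) {κ : Type*} {S : Finset κ} {c : κ → ℝ} {v : κ → V9}
    {u : κ → Q → ℝ} (hc : ∀ j ∈ S, 0 ≤ c j) (hc1 : ∑ j ∈ S, c j = 1)
    (hv : vec9R W F 0 η ρ (X1 f) (cF f) = ∑ j ∈ S, c j • v j) (HB : DevLe Bx Ψ (∑ j ∈ S, c j • u j) f)
    (h : ∀ j ∈ S, ∀ X, St s' X → (∀ a, |X a| ≤ 31 / 50 * s') → R X → BTG.RW (C9 Ψ) va X e1 (v j) (u j) μ T) :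
    CertAt9 (OM7.devK Bx) W F μ T f :=
  certAt9X_of_NCR hμ H P HB (BTG.cell H.hf H.h0 H.h2 hμ hs' h1 hR hc hc1 hv rfl h)

/-- **a latitude cell (the pole may be in it), class `Cert9`**: approximate control points -/
theorem cell9R' {Bx : OM7.Dev} {W : ℝ → ℝ} {F : Cof9} {μ η ρ T : ℝ} (hμ : 0 ≤ μ) (H : Re f)
    (P : PolR F.C η ρ (X1 f) (cF f)) {s' : ℝ} (hs' : X1 f ≤ s') (h1 : s' ≤ 1)
    {R : (ℝ → ℝ) → Prop} (hR : R (Xa (X1 f) f)) {κ : Type*} {S : Finset κ} {c : κ → ℝ} {v : κ → V9}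
    {u : κ → Q → ℝ} (hc : ∀ j ∈ S, 0 ≤ c j) (hc1 : ∑ j ∈ S, c j = 1)
    (h : ∀ j ∈ S, ∀ X, St s' X → (∀ a, |X a| ≤ 31 / 50 * s') → R X → BTG.RW (C9 Ψ) va X e1 (v j) (u j) μ T)
    {u0 : Q → ℝ} (HB : DevLe Bx Ψ u0 f) {d : Q → ℝ} (hΨ : PsiLe Ψ d) {δ U θ : ℝ}
    (hδ : ∑ q, |u0 q - (∑ j ∈ S, c j • u j) q| * d q ≤ δ) (hU : ∑ q, |(∑ j ∈ S, c j • u j) q| * d q ≤ U)
    (hθ : ∑ i, |vec9R W F 0 η ρ (X1 f) (cF f) i - (∑ j ∈ S, c j • v j) i| * c9 i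
      + 2 * μ * (δ * (2 * U + δ)) ≤ θ) :
    CertAt9 (OM7.devK Bx) W F μ (T + θ) f :=
  certAt9X_of_NCR hμ H P HB (cell9 H.hf H.h0 H.h2 hμ hs' h1 hR hc hc1 h hΨ hδ hU hθ)

end

end Pool.Agent.FPX.BTI
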