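import Mathlib
import Pool.Agent.FPX.BTQ
import Pool.Agent.FPX.BTR

/-
BTS (helper69): kernel check of the conditions `PolR` of BTR on a latitude cell `[a, b]` (in `c`): all data are polynomials in `c`
with rational coefficients: `A = c² pa`, `G = c² (pa + 2 pg)`, `R = ρ`.
-/

open Set

noncomputable section

namespace Pool.Agent.FPX.BTS

open Pool.Agent.FPX.BTQ
open Pool.Agent.FPX.BTN (pa pg PolR)

/-- `0 ≤ P` on `[a, b]` -/
def nn (P : List ℚ) (a b : ℚ) : Bool := decide (0 ≤ lb (pcomp P ((a + b) / 2) ((b - a) / 2)))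

theorem nn_sound {P : List ℚ} {a b : ℚ} (hab : a < b) (H : nn P a b = true) {c : ℝ} (hc : c ∈ Icc (a : ℝ) b) :
    0 ≤ pe P c := by
  unfold nn at H
  simp only [decide_eq_true_eq] at H
  have hab' : (a : ℝ) < b := by exact_mod_cast hab
  set x : ℝ := (2 * c - a - b) / (b - a) with hx
  have hx1 : |x| ≤ 1 := by
    rw [hx, abs_div, abs_of_pos (sub_pos.2 hab'), div_le_one (sub_pos.2 hab'), abs_le]
    constructor <;> linarith [hc.1, hc.2]
  have hcx : (((a + b) / 2 : ℚ) : ℝ) + (((b - a) / 2 : ℚ) : ℝ) * x = c := by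
    rw [hx]
    have : (b : ℝ) - a ≠ 0 := (sub_pos.2 hab').ne'
    push_cast
    field_simp
    ring
  have e := pe_pcomp P ((a + b) / 2) ((b - a) / 2) x
  rw [hcx] at e
  have l := lb_le (pcomp P ((a + b) / 2) ((b - a) / 2)) hx1
  rw [e] at l
  have h : (0 : ℝ) ≤ lb (pcomp P ((a + b) / 2) ((b - a) / 2)) := by exact_mod_cast H
  exact h.trans l

/-- `0 ≤ P` on `[a, b]`, with `n` bisections -/
def nnb (P : List ℚ) (a b : ℚ) : ℕ → Bool
  | 0 => nn P a b
  | n + 1 => nn P a b || (nnb P a ((a + b) / 2) n && nnb P ((a + b) / 2) b n)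

theorem nnb_sound {P : List ℚ} : ∀ (n : ℕ) {a b : ℚ}, a < b → nnb P a b n = true → ∀ {c : ℝ},
    c ∈ Icc (a : ℝ) b → 0 ≤ pe P c := by
  intro n
  induction n with
  | zero => exact fun hab H _ hc => nn_sound hab H hc
  | succ n ih =>
    intro a b hab H c hc
    unfold nnb at H
    rw [Bool.or_eq_true, Bool.and_eq_true] at H
    rcases H with H | ⟨H1, H2⟩
    · exact nn_sound hab H hc
    · have m1 : a < (a + b) / 2 := by linarith
      have m2 : (a + b) / 2 < b := by linarith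
      rcases le_total c (((a + b) / 2 : ℚ) : ℝ) with h | h
      · exact ih m1 H1 ⟨hc.1, h⟩
      · exact ih m2 H2 ⟨h, hc.2⟩

/-- `1 - (1 - c²) ρ` -/
def one_sub (R : List ℚ) : List ℚ := padd [1] (psm (-1) (pmul [1, 0, -1] R))

theorem pe_one_sub (R : List ℚ) (c : ℝ) : pe (one_sub R) c = 1 - (1 - c ^ 2) * pe R c := by
  unfold one_sub
  rw [pe_padd, pe_psm, pe_pmul]
  simp only [pe_cons, pe_nil]
  push_cast
  ring

/-- the check of the conditions `PolR` -/
def chkP (A G R : List ℚ) (a b η : ℚ) (n : ℕ) : Bool :=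
  decide (a < b) && decide (0 < a) && nnb (psm (-1) A) a b n && nnb (psm (-1) G) a b n && nnb R a b n
    && nnb (one_sub R) a b n
    && nnb (padd [η] (psm ((31 / 50) ^ 2) (pmul (one_sub R) A))) a b n
    && nnb (padd [η] (psm ((31 / 50) ^ 2) (pmul (one_sub R) G))) a b n

/-- **the conditions `PolR` from the kernel check** -/
theorem polR_of {A G R : List ℚ} {a b η : ℚ} {n : ℕ} (H : chkP A G R a b η n = true) {F : OM7.Cof} {s c : ℝ}
    (hc : c ∈ Icc (a : ℝ) b) (hs : s ^ 2 = 1 - c ^ 2) (hA : pe A c = c ^ 2 * pa F s c)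
    (hG : pe G c = c ^ 2 * (pa F s c + 2 * pg F s c)) : PolR F η (pe R c) s c := by
  unfold chkP at H
  simp only [Bool.and_eq_true, decide_eq_true_eq] at H
  obtain ⟨⟨⟨⟨⟨⟨⟨hab, ha⟩, h1⟩, h2⟩, h3⟩, h4⟩, h5⟩, h6⟩ := H
  have ha' : (0 : ℝ) < a := by exact_mod_cast ha
  have hc0 : 0 < c := lt_of_lt_of_le ha' hc.1
  have hc2 : 0 < c ^ 2 := by positivity
  have k1 := nnb_sound n hab h1 hc
  have k2 := nnb_sound n hab h2 hc
  have k3 := nnb_sound n hab h3 hc
  have k4 := nnb_sound n hab h4 hc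
  have k5 := nnb_sound n hab h5 hc
  have k6 := nnb_sound n hab h6 hc
  rw [pe_psm, hA] at k1
  rw [pe_psm, hG] at k2
  rw [pe_one_sub] at k4
  rw [pe_padd, pe_psm, pe_pmul, pe_one_sub, hA] at k5
  rw [pe_padd, pe_psm, pe_pmul, pe_one_sub, hG] at k6
  simp only [pe_cons, pe_nil] at k5 k6
  push_cast at k1 k2 k5 k6
  have p1 : pa F s c ≤ 0 := by
    by_contra hcon
    push Not at hcon
    nlinarith [mul_pos hc2 hcon]
  have p2 : pa F s c + 2 * pg F s c ≤ 0 := by
    by_contra hcon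
    push Not at hcon
    nlinarith [mul_pos hc2 hcon]
  exact ⟨p1, p2, k3, by rw [hs]; linarith, by rw [hs]; linarith, by rw [hs]; linarith⟩

end Pool.Agent.FPX.BTS
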