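import Mathlib
import Pool.Agent.FPX.BTK
import Pool.Agent.FPX.BTV

/-
BTM (helper15): scaling of the certificate, latitude cells with vertex weights, the fixed list `Psi8` of the terms of the
deviation of the start map `xi8` and its a priori bounds.
-/

open MeasureTheory Set Filter Topology Real
open scoped ComplexConjugate

noncomputable section

set_option linter.unusedSectionVars false

namespace Pool.Agent.FPX.BTG

variable {J L I Q : Type} [Fintype L] [Fintype I] [Fintype Q] {C : Cls J L I Q}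
variable {X : Type*} [MeasurableSpace X] {ν : Measure X} {D : X → ℝ} {E : X → ℂ}

theorem ker_smul (r : ℝ) (v : I → ℝ) (m : J → ℂ) (e : ℂ) (x : ℝ) :
    ker C (r • v) m e x = (r : ℂ) * ker C v m e x := by
  unfold ker
  rw [Finset.mul_sum]
  refine Finset.sum_congr rfl fun i _ => ?_
  rw [Pi.smul_apply, smul_eq_mul]
  push_cast
  ring

theorem tht_smul (r : ℝ) (v : I → ℝ) (m : J → ℂ) (A B : ℂ) (a b : L → ℂ) :
    tht C (r • v) m A B a b = r * tht C v m A B a b := by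
  unfold tht
  rw [Finset.mul_sum]
  refine Finset.sum_congr rfl fun i _ => ?_
  rw [Pi.smul_apply, smul_eq_mul]
  ring

/-- **scaling** -/
theorem NC.scale {v : I → ℝ} {u : Q → ℝ} {μ T r : ℝ} (hr : 0 < r) (h : NC C ν D E v u μ T) :
    NC C ν D E (r • v) u (r * μ) (r * T) := by
  intro K hK hK1 A B hA hB
  have h' := mul_le_mul_of_nonneg_left (h K hK hK1 A B hA hB) hr.le
  refine le_trans (le_of_eq ?_) h'
  unfold lh
  rw [tht_smul]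
  simp only [ker_smul, mul_assoc]
  rw [integral_const_mul, integral_const_mul, mul_left_comm A, mul_left_comm B, Complex.re_ofReal_mul,
    Complex.re_ofReal_mul]
  ring

/-- the certificate with `T` from the certificate with `1` at the scaled vector -/
theorem NC.unscale {v : I → ℝ} {u : Q → ℝ} {μ T : ℝ} (hT : 0 < T) (h : NC C ν D E (T⁻¹ • v) u (μ / T) 1) :
    NC C ν D E v u μ T := by
  have h' := h.scale hT
  rwa [smul_smul, mul_inv_cancel₀ hT.ne', one_smul, mul_div_cancel₀ _ hT.ne', mul_one] at h'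

end Pool.Agent.FPX.BTG

namespace Pool.Agent.FPX.BTI

open Pool.Agent.FPX.BTG (Sta Cls mo aK bK dev)
open Pool.Agent.FPX.CRD (Bm)
open Pool.Agent.FPX.ALX
open Pool.Agent.FPX.BTN (va e1 nf ef bw)
open Pool.Agent.FPX.UMP (Ef)
open Pool.Agent.FPX.F54 (X1 X2 X_lt X_G1 X_G2)
open Pool.Agent.FPX.CERQ (xT)

/-- **a latitude cell with approximate control points, vertex version** -/
theorem cell9V {Q : Type} [Fintype Q] {Ψ : Psi9 Q} {f : ℝ → ℝ} (hf : Ef f) (h0 : 0 ≤ X1 f) (h2 : X2 f = 0)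
    {μ T : ℝ} (hμ : 0 ≤ μ) {s' : ℝ} (hs' : X1 f ≤ s')
    (h1 : s' ≤ 1) {P : (ℝ → ℝ) → Prop} (hP : P (Xa (X1 f) f)) {κ : Type*} {S : Finset κ} {c : κ → ℝ}
    {v : κ → V9} {u : κ → Q → ℝ} (hc : ∀ j ∈ S, 0 ≤ c j) (hc1 : ∑ j ∈ S, c j = 1)
    (H : ∀ j ∈ S, ∀ X, St s' X → (∀ a, |X a| ≤ 31 / 50 * s') → P X → BTG.RWV (C9 Ψ) va X e1 (v j) (u j) μ T)
    {v0 : V9} {u0 : Q → ℝ} {d : Q → ℝ} (hΨ : PsiLe Ψ d) {δ U η : ℝ}
    (hδ : ∑ q, |u0 q - (∑ j ∈ S, c j • u j) q| * d q ≤ δ) (hU : ∑ q, |(∑ j ∈ S, c j • u j) q| * d q ≤ U)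
    (hη : ∑ i, |v0 i - (∑ j ∈ S, c j • v j) i| * c9 i + 2 * μ * (δ * (2 * U + δ)) ≤ η) :
    BTG.NC (C9 Ψ) (nf f) (xT f) (ef f) v0 u0 μ (T + η) :=
  NC_near (sml hf h0 h2) hμ hΨ (BTG.cellV hf h0 h2 hμ hs' h1 hP hc hc1 rfl rfl H) hδ hU hη

/-- a latitude cell, the certificates at the control points given as `NC` for the states of the class -/
theorem cell9N {Q : Type} [Fintype Q] {Ψ : Psi9 Q} {f : ℝ → ℝ} (hf : Ef f) (h0 : 0 ≤ X1 f) (h2 : X2 f = 0)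
    {μ T : ℝ} (hμ : 0 ≤ μ) {κ : Type*} {S : Finset κ} {c : κ → ℝ}
    {v : κ → V9} {u : κ → Q → ℝ} (hc : ∀ j ∈ S, 0 ≤ c j) (hc1 : ∑ j ∈ S, c j = 1)
    (H : ∀ j ∈ S, BTG.NC (C9 Ψ) (nf f) (xT f) (ef f) (v j) (u j) μ T)
    {v0 : V9} {u0 : Q → ℝ} {d : Q → ℝ} (hΨ : PsiLe Ψ d) {δ U η : ℝ}
    (hδ : ∑ q, |u0 q - (∑ j ∈ S, c j • u j) q| * d q ≤ δ) (hU : ∑ q, |(∑ j ∈ S, c j • u j) q| * d q ≤ U)
    (hη : ∑ i, |v0 i - (∑ j ∈ S, c j • v j) i| * c9 i + 2 * μ * (δ * (2 * U + δ)) ≤ η) :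
    BTG.NC (C9 Ψ) (nf f) (xT f) (ef f) v0 u0 μ (T + η) :=
  NC_near (sml hf h0 h2) hμ hΨ (BTG.NC.comb (BTG.sta hf h0 h2) hc hc1 hμ H) hδ hU hη

/-! ### the terms of the deviation of `xi8` -/

/-- the monomials `r₃, conj r₃, |r₃|², r₃², conj r₃², q₂, q₀, conj q₂` -/
def mn8 (m : M9) : Fin 8 → ℂ :=
  ![m 0, conj (m 0), m 0 * conj (m 0), m 0 ^ 2, conj (m 0) ^ 2, m 4, m 3, conj (m 4)]

/-- the terms of the deviation of the start map `xi8` -/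
def Psi8 : Psi9 (Fin 28) :=
  ![fun _ _ B _ _ _ _ _ => B,
    fun m _ B _ _ _ _ _ => B * mn8 m 0, fun m _ B _ _ _ _ _ => B * mn8 m 1,
    fun m _ B _ _ _ _ _ => B * mn8 m 2, fun m _ B _ _ _ _ _ => B * mn8 m 3,
    fun m _ B _ _ _ _ _ => B * mn8 m 4, fun m _ B _ _ _ _ _ => B * mn8 m 5,
    fun m _ B _ _ _ _ _ => B * mn8 m 6, fun m _ B _ _ _ _ _ => B * mn8 m 7,
    fun m A _ _ _ _ _ _ => conj A * mn8 m 0, fun m A _ _ _ _ _ _ => conj A * mn8 m 1,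
    fun m A _ _ _ _ _ _ => conj A * mn8 m 2, fun m A _ _ _ _ _ _ => conj A * mn8 m 3,
    fun m A _ _ _ _ _ _ => conj A * mn8 m 4, fun m A _ _ _ _ _ _ => conj A * mn8 m 5,
    fun m A _ _ _ _ _ _ => conj A * mn8 m 6, fun m A _ _ _ _ _ _ => conj A * mn8 m 7,
    fun _ _ _ _ M _ _ _ => M, fun m _ _ _ M _ _ _ => conj (m 0) * M, fun m _ _ _ M _ _ _ => m 0 * M,
    fun _ _ _ N _ _ _ _ => conj N, fun m _ _ N _ _ _ _ => m 0 * conj N,
    fun m _ _ N _ _ _ _ => conj (m 0) * conj N,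
    fun _ _ _ _ _ _ R _ => R, fun _ _ _ _ _ S _ _ => conj S, fun _ _ _ _ _ _ _ G => G,
    fun _ A _ _ _ _ _ _ => conj A, fun _ A _ _ _ _ _ _ => Complex.I * conj A]

/-- their a priori bounds -/
def d8 : Fin 28 → ℝ :=
  ![8 / 5, 2 / 5, 2 / 5, 1 / 10, 1 / 10, 1 / 10, 5 / 8, 5 / 8, 5 / 8, 2 / 5, 2 / 5, 1 / 10, 1 / 10, 1 / 10,
    5 / 8, 5 / 8, 5 / 8, 5, 6 / 5, 6 / 5, 5, 6 / 5, 6 / 5, 3, 3, 1, 8 / 5, 8 / 5]

theorem psiLe8 : PsiLe Psi8 d8 := by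
  intro m A B N M S R G h0 h3 h4 _h5 hA hB hN hM hS hR hG q
  have n0 := norm_nonneg (m 0)
  have key : ∀ (Z y : ℂ) (k c : ℝ), ‖Z‖ ≤ 8 / 5 → ‖y‖ ≤ k → 8 / 5 * k ≤ c → ‖Z * y‖ ≤ c := by
    intro Z y k c hZ hy hc
    rw [norm_mul]
    exact (mul_le_mul hZ hy (norm_nonneg _) (by norm_num)).trans hc
  have key2 : ∀ (Z y : ℂ), ‖Z‖ ≤ 1 / 4 → ‖y‖ ≤ 117 / 25 → ‖Z * y‖ ≤ 6 / 5 := by
    intro Z y hZ hy
    rw [norm_mul]
    exact (mul_le_mul hZ hy (norm_nonneg _) (by norm_num)).trans (by norm_num)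
  have hA' : ‖conj A‖ ≤ 8 / 5 := by rwa [Complex.norm_conj]
  have hN' : ‖conj N‖ ≤ 117 / 25 := by rwa [Complex.norm_conj]
  have c0 : ‖conj (m 0)‖ ≤ 1 / 4 := by rwa [Complex.norm_conj]
  have c4 : ‖conj (m 4)‖ ≤ (31 / 50) ^ 2 := by rwa [Complex.norm_conj]
  have e1 : ‖m 0 * conj (m 0)‖ ≤ 1 / 16 := by
    rw [norm_mul, Complex.norm_conj]
    nlinarith
  have e2 : ‖m 0 ^ 2‖ ≤ 1 / 16 := by
    rw [norm_pow]
    nlinarith
  have e3 : ‖conj (m 0) ^ 2‖ ≤ 1 / 16 := by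
    rw [norm_pow, Complex.norm_conj]
    nlinarith
  fin_cases q
  · exact hB
  · exact key B (m 0) (1 / 4) _ hB h0 (by norm_num [d8])
  · exact key B (conj (m 0)) (1 / 4) _ hB c0 (by norm_num [d8])
  · exact key B (m 0 * conj (m 0)) (1 / 16) _ hB e1 (by norm_num [d8])
  · exact key B (m 0 ^ 2) (1 / 16) _ hB e2 (by norm_num [d8])
  · exact key B (conj (m 0) ^ 2) (1 / 16) _ hB e3 (by norm_num [d8])
  · exact key B (m 4) ((31 / 50) ^ 2) _ hB h4 (by norm_num [d8])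
  · exact key B (m 3) ((31 / 50) ^ 2) _ hB h3 (by norm_num [d8])
  · exact key B (conj (m 4)) ((31 / 50) ^ 2) _ hB c4 (by norm_num [d8])
  · exact key (conj A) (m 0) (1 / 4) _ hA' h0 (by norm_num [d8])
  · exact key (conj A) (conj (m 0)) (1 / 4) _ hA' c0 (by norm_num [d8])
  · exact key (conj A) (m 0 * conj (m 0)) (1 / 16) _ hA' e1 (by norm_num [d8])
  · exact key (conj A) (m 0 ^ 2) (1 / 16) _ hA' e2 (by norm_num [d8])
  · exact key (conj A) (conj (m 0) ^ 2) (1 / 16) _ hA' e3 (by norm_num [d8])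
  · exact key (conj A) (m 4) ((31 / 50) ^ 2) _ hA' h4 (by norm_num [d8])
  · exact key (conj A) (m 3) ((31 / 50) ^ 2) _ hA' h3 (by norm_num [d8])
  · exact key (conj A) (conj (m 4)) ((31 / 50) ^ 2) _ hA' c4 (by norm_num [d8])
  · exact hM.trans (by norm_num [d8])
  · exact key2 (conj (m 0)) M c0 hM
  · exact key2 (m 0) M h0 hM
  · exact hN'.trans (by norm_num [d8])
  · exact key2 (m 0) (conj N) h0 hN'
  · exact key2 (conj (m 0)) (conj N) c0 hN'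
  · exact hR
  · show ‖conj S‖ ≤ 3
    rwa [Complex.norm_conj]
  · exact hG.trans (by norm_num [d8])
  · exact hA'
  · show ‖Complex.I * conj A‖ ≤ 8 / 5
    rw [norm_mul, Complex.norm_I, one_mul]
    exact hA'

end Pool.Agent.FPX.BTI
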