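import Mathlib
import Pool.Agent.FPX.SYS
import Pool.Agent.FPX.S54Z

/-
XIM (helper22): the start map `F' = dir (y + ξ)`, `y = F54 f`, `ξ` a tangent vector at `y` given by a
functional with values in the smooth frame.  Real coordinates: `y = (x, y, c)`, `ξ = (a, b)`,
`ρ = x a + y b`, `P = (x + a - x ρ/(1+c), y + b - y ρ/(1+c), c - ρ)`, `N = √(1 + a² + b²) = |P|`,
`F' = P / N`.
-/

open MeasureTheory Set Filter Topology
open scoped ENNReal NNReal ComplexConjugate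

noncomputable section

namespace Pool.Agent.FPX.XIM

open Real Pool.Agent.FPX.UMP Pool.Agent.FPX.UMQ Pool.Agent.FPX.UXA
open Pool.Agent.FPX.F54 (pr X1 X2 dX1 dX2 X_lt umap)
open Pool.Agent.FPX.S54 (cc YY vt Fv)

/-- `N = √(1 + |ξ|²)` -/
def NN (a b : ℝ) : ℝ := √(1 + a ^ 2 + b ^ 2)

def P1 (x y a b : ℝ) : ℝ := x + a - x * (x * a + y * b) / (1 + cc x y)
def P2 (x y a b : ℝ) : ℝ := y + b - y * (x * a + y * b) / (1 + cc x y)
def P3 (x y a b : ℝ) : ℝ := cc x y - (x * a + y * b)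

/-- derivative of `c` -/
def dc (x y x' y' : ℝ) : ℝ := -((x * x' + y * y') / cc x y)

/-- derivative of `ρ` -/
def dr (x y a b x' y' a' b' : ℝ) : ℝ := x' * a + x * a' + (y' * b + y * b')

def dP1 (x y a b x' y' a' b' : ℝ) : ℝ :=
  x' + a' - (x' * (x * a + y * b) + x * dr x y a b x' y' a' b') / (1 + cc x y)
    + x * (x * a + y * b) * dc x y x' y' / (1 + cc x y) ^ 2
def dP2 (x y a b x' y' a' b' : ℝ) : ℝ :=
  y' + b' - (y' * (x * a + y * b) + y * dr x y a b x' y' a' b') / (1 + cc x y)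
    + y * (x * a + y * b) * dc x y x' y' / (1 + cc x y) ^ 2
def dP3 (x y a b x' y' a' b' : ℝ) : ℝ := dc x y x' y' - dr x y a b x' y' a' b'

theorem NN_sq (a b : ℝ) : NN a b ^ 2 = 1 + a ^ 2 + b ^ 2 := Real.sq_sqrt (by positivity)

theorem NN_pos (a b : ℝ) : 0 < NN a b := Real.sqrt_pos.2 (by positivity)

theorem one_le_NN (a b : ℝ) : 1 ≤ NN a b := by
  have h := NN_sq a b
  nlinarith [NN_pos a b, sq_nonneg a, sq_nonneg b]

theorem cc_nonneg (x y : ℝ) : 0 ≤ cc x y := Real.sqrt_nonneg _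

theorem cc_le_one (x y : ℝ) : cc x y ≤ 1 := C54Z.ce_le_one x y

/-- `|P|² = 1 + |ξ|²` -/
theorem P_sq {x y : ℝ} (h : x ^ 2 + y ^ 2 < 1) (a b : ℝ) :
    P1 x y a b ^ 2 + P2 x y a b ^ 2 + P3 x y a b ^ 2 = NN a b ^ 2 := by
  have hc := S54.cc_sq h
  have hc0 := S54.cc_pos h
  rw [NN_sq]
  unfold P1 P2 P3
  generalize cc x y = c at *
  have hc1 : 1 + c ≠ 0 := by positivity
  have e : (x + a - x * (x * a + y * b) / (1 + c)) ^ 2 + (y + b - y * (x * a + y * b) / (1 + c)) ^ 2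
      + (c - (x * a + y * b)) ^ 2 - (1 + a ^ 2 + b ^ 2)
      = (x ^ 2 + y ^ 2 + c ^ 2 - 1) * (1 - (x * a + y * b) / (1 + c)) ^ 2 := by
    field_simp
    ring
  have e2 : x ^ 2 + y ^ 2 + c ^ 2 - 1 = 0 := by linarith
  rw [e2, zero_mul] at e
  linarith

/-- `⟨P, y⟩ = 1` -/
theorem P_dot {x y : ℝ} (h : x ^ 2 + y ^ 2 < 1) (a b : ℝ) :
    x * P1 x y a b + y * P2 x y a b + cc x y * P3 x y a b = 1 := by
  have hc := S54.cc_sq h
  have hc0 := S54.cc_pos h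
  unfold P1 P2 P3
  generalize cc x y = c at *
  have hc1 : 1 + c ≠ 0 := by positivity
  field_simp
  linear_combination (1 + c - (x * a + y * b)) * hc

/-- `⟨P, dP⟩ = ⟨ξ, dξ⟩` -/
theorem P_dP {x y : ℝ} (h : x ^ 2 + y ^ 2 < 1) (a b x' y' a' b' : ℝ) :
    P1 x y a b * dP1 x y a b x' y' a' b' + P2 x y a b * dP2 x y a b x' y' a' b'
      + P3 x y a b * dP3 x y a b x' y' a' b' = a * a' + b * b' := by
  have hc := S54.cc_sq h
  have hc0 := S54.cc_pos h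
  have hd : cc x y * dc x y x' y' = -(x * x' + y * y') := by
    unfold dc
    field_simp
  unfold P1 P2 P3 dP1 dP2 dP3
  generalize dc x y x' y' = c' at *
  generalize cc x y = c at *
  unfold dr
  have hc1 : 1 + c ≠ 0 := by positivity
  have e : (x + a - x * (x * a + y * b) / (1 + c)) * (x' + a' - (x' * (x * a + y * b)
        + x * (x' * a + x * a' + (y' * b + y * b'))) / (1 + c) + x * (x * a + y * b) * c' / (1 + c) ^ 2)
      + (y + b - y * (x * a + y * b) / (1 + c)) * (y' + b' - (y' * (x * a + y * b)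
        + y * (x' * a + x * a' + (y' * b + y * b'))) / (1 + c) + y * (x * a + y * b) * c' / (1 + c) ^ 2)
      + (c - (x * a + y * b)) * (c' - (x' * a + x * a' + (y' * b + y * b'))) - (a * a' + b * b')
      = (x * x' + y * y' + c * c') * (1 - (x * a + y * b) / (1 + c)) ^ 2
        + (x ^ 2 + y ^ 2 + c ^ 2 - 1) * ((1 - (x * a + y * b) / (1 + c))
          * (-(x' * a + x * a' + (y' * b + y * b')) / (1 + c) + (x * a + y * b) * c' / (1 + c) ^ 2)) := by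
    field_simp
    ring
  have e1 : x * x' + y * y' + c * c' = 0 := by linarith
  have e2 : x ^ 2 + y ^ 2 + c ^ 2 - 1 = 0 := by linarith
  rw [e1, e2, zero_mul, zero_mul] at e
  linarith

/-! ### continuity and derivatives of the coordinates -/

theorem cont_cc : Continuous fun q : ℝ × ℝ × ℝ × ℝ => cc q.1 q.2.1 := by
  unfold cc
  fun_prop

theorem cont_NN : Continuous fun q : ℝ × ℝ × ℝ × ℝ => NN q.2.2.1 q.2.2.2 := by
  unfold NN
  fun_prop

theorem cont_P1 : Continuous fun q : ℝ × ℝ × ℝ × ℝ => P1 q.1 q.2.1 q.2.2.1 q.2.2.2 := by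
  unfold P1
  refine Continuous.sub (by fun_prop) (Continuous.div (by fun_prop) (continuous_const.add cont_cc)
    fun q => (add_pos_of_pos_of_nonneg one_pos (cc_nonneg q.1 q.2.1)).ne')

theorem cont_P2 : Continuous fun q : ℝ × ℝ × ℝ × ℝ => P2 q.1 q.2.1 q.2.2.1 q.2.2.2 := by
  unfold P2
  refine Continuous.sub (by fun_prop) (Continuous.div (by fun_prop) (continuous_const.add cont_cc)
    fun q => (add_pos_of_pos_of_nonneg one_pos (cc_nonneg q.1 q.2.1)).ne')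

theorem cont_Q1 : Continuous fun q : ℝ × ℝ × ℝ × ℝ =>
    P1 q.1 q.2.1 q.2.2.1 q.2.2.2 / NN q.2.2.1 q.2.2.2 :=
  cont_P1.div cont_NN fun _ => (NN_pos _ _).ne'

theorem cont_Q2 : Continuous fun q : ℝ × ℝ × ℝ × ℝ =>
    P2 q.1 q.2.1 q.2.2.1 q.2.2.2 / NN q.2.2.1 q.2.2.2 :=
  cont_P2.div cont_NN fun _ => (NN_pos _ _).ne'

section deriv

variable {X Y a b : ℝ → ℝ} {X' Y' a' b' s : ℝ}

theorem der_NN (ha : HasDerivAt a a' s) (hb : HasDerivAt b b' s) :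
    HasDerivAt (fun s => NN (a s) (b s)) ((a s * a' + b s * b') / NN (a s) (b s)) s := by
  have h1 : HasDerivAt (fun s => 1 + a s ^ 2 + b s ^ 2) (2 * a s * a' + 2 * b s * b') s := by
    have := ((ha.pow 2).const_add 1).add (hb.pow 2)
    refine this.congr_deriv ?_
    simp
  have h2 := h1.sqrt (by positivity)
  refine h2.congr_deriv ?_
  have h3 : √(1 + a s ^ 2 + b s ^ 2) ≠ 0 := (NN_pos (a s) (b s)).ne'
  unfold NN
  field_simp

theorem der_rh (hX : HasDerivAt X X' s) (hY : HasDerivAt Y Y' s) (ha : HasDerivAt a a' s)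
    (hb : HasDerivAt b b' s) : HasDerivAt (fun s => X s * a s + Y s * b s)
      (dr (X s) (Y s) (a s) (b s) X' Y' a' b') s := (hX.mul ha).add (hY.mul hb)

theorem der_P1 (hX : HasDerivAt X X' s) (hY : HasDerivAt Y Y' s) (ha : HasDerivAt a a' s)
    (hb : HasDerivAt b b' s) (h : X s ^ 2 + Y s ^ 2 < 1) :
    HasDerivAt (fun s => P1 (X s) (Y s) (a s) (b s)) (dP1 (X s) (Y s) (a s) (b s) X' Y' a' b') s := by
  have hc := S54.der_cc hX hY h
  have hp : 1 + cc (X s) (Y s) ≠ 0 := by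
    have := cc_nonneg (X s) (Y s)
    positivity
  have h1 := (hX.add ha).sub ((hX.mul (der_rh hX hY ha hb)).div (hc.const_add 1) hp)
  refine h1.congr_deriv ?_
  simp only [Pi.mul_apply]
  unfold dP1 dc
  field_simp
  ring

theorem der_P2 (hX : HasDerivAt X X' s) (hY : HasDerivAt Y Y' s) (ha : HasDerivAt a a' s)
    (hb : HasDerivAt b b' s) (h : X s ^ 2 + Y s ^ 2 < 1) :
    HasDerivAt (fun s => P2 (X s) (Y s) (a s) (b s)) (dP2 (X s) (Y s) (a s) (b s) X' Y' a' b') s := by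
  have hc := S54.der_cc hX hY h
  have hp : 1 + cc (X s) (Y s) ≠ 0 := by
    have := cc_nonneg (X s) (Y s)
    positivity
  have h1 := (hY.add hb).sub ((hY.mul (der_rh hX hY ha hb)).div (hc.const_add 1) hp)
  refine h1.congr_deriv ?_
  simp only [Pi.mul_apply]
  unfold dP2 dc
  field_simp
  ring

theorem der_P3 (hX : HasDerivAt X X' s) (hY : HasDerivAt Y Y' s) (ha : HasDerivAt a a' s)
    (hb : HasDerivAt b b' s) (h : X s ^ 2 + Y s ^ 2 < 1) :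
    HasDerivAt (fun s => P3 (X s) (Y s) (a s) (b s)) (dP3 (X s) (Y s) (a s) (b s) X' Y' a' b') s :=
  (S54.der_cc hX hY h).sub (der_rh hX hY ha hb)

/-- derivative of a quotient by `N` -/
theorem der_quot {P : ℝ → ℝ} {P' : ℝ} (hP : HasDerivAt P P' s) (ha : HasDerivAt a a' s)
    (hb : HasDerivAt b b' s) : HasDerivAt (fun s => P s / NN (a s) (b s))
      (P' / NN (a s) (b s) - P s * (a s * a' + b s * b') / NN (a s) (b s) ^ 3) s := by
  have hN := NN_pos (a s) (b s)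
  have h1 := hP.div (der_NN ha hb) hN.ne'
  refine h1.congr_deriv ?_
  field_simp

end deriv

/-! ### the map -/

/-- the coordinates of `F' = dir (F54 f + ξ f)` -/
def Xi1 (ξ : (ℝ → ℝ) → ℂ) (f : ℝ → ℝ) : ℝ := P1 (X1 f) (X2 f) (ξ f).re (ξ f).im / NN (ξ f).re (ξ f).im
def Xi2 (ξ : (ℝ → ℝ) → ℂ) (f : ℝ → ℝ) : ℝ := P2 (X1 f) (X2 f) (ξ f).re (ξ f).im / NN (ξ f).re (ξ f).im
def Xi3 (ξ : (ℝ → ℝ) → ℂ) (f : ℝ → ℝ) : ℝ := P3 (X1 f) (X2 f) (ξ f).re (ξ f).im / NN (ξ f).re (ξ f).im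

/-- their derivatives -/
def dXi1 (ξ : (ℝ → ℝ) → ℂ) (dξ : (ℝ → ℝ) → (ℝ → ℝ) → ℂ) (f h : ℝ → ℝ) : ℝ :=
  dP1 (X1 f) (X2 f) (ξ f).re (ξ f).im (dX1 f h) (dX2 f h) (dξ f h).re (dξ f h).im / NN (ξ f).re (ξ f).im
    - P1 (X1 f) (X2 f) (ξ f).re (ξ f).im * ((ξ f).re * (dξ f h).re + (ξ f).im * (dξ f h).im)
      / NN (ξ f).re (ξ f).im ^ 3
def dXi2 (ξ : (ℝ → ℝ) → ℂ) (dξ : (ℝ → ℝ) → (ℝ → ℝ) → ℂ) (f h : ℝ → ℝ) : ℝ :=
  dP2 (X1 f) (X2 f) (ξ f).re (ξ f).im (dX1 f h) (dX2 f h) (dξ f h).re (dξ f h).im / NN (ξ f).re (ξ f).im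
    - P2 (X1 f) (X2 f) (ξ f).re (ξ f).im * ((ξ f).re * (dξ f h).re + (ξ f).im * (dξ f h).im)
      / NN (ξ f).re (ξ f).im ^ 3
def dXi3 (ξ : (ℝ → ℝ) → ℂ) (dξ : (ℝ → ℝ) → (ℝ → ℝ) → ℂ) (f h : ℝ → ℝ) : ℝ :=
  dP3 (X1 f) (X2 f) (ξ f).re (ξ f).im (dX1 f h) (dX2 f h) (dξ f h).re (dξ f h).im / NN (ξ f).re (ξ f).im
    - P3 (X1 f) (X2 f) (ξ f).re (ξ f).im * ((ξ f).re * (dξ f h).re + (ξ f).im * (dξ f h).im)
      / NN (ξ f).re (ξ f).im ^ 3

/-- a moment: a complex functional of size `O(c)` with bounded derivative -/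
structure Mo (Z : (ℝ → ℝ) → ℂ) (dZ : (ℝ → ℝ) → (ℝ → ℝ) → ℂ) (A B : ℝ) : Prop where
  re : Fn (fun f => (Z f).re) fun f h => (dZ f h).re
  im : Fn (fun f => (Z f).im) fun f h => (dZ f h).im
  A0 : 0 ≤ A
  B0 : 0 ≤ B
  le : ∀ f, Ef f → ‖Z f‖ ≤ A * cc (X1 f) (X2 f)
  bd : ∀ (f h : ℝ → ℝ) (D : ℝ), Ef f → Measurable h → 0 ≤ D → (∀ t, |h t| ≤ D) → ‖dZ f h‖ ≤ B * D

/-- an admissible displacement -/
structure Disp (ξ : (ℝ → ℝ) → ℂ) (dξ : (ℝ → ℝ) → (ℝ → ℝ) → ℂ) (A B : ℝ) : Prop extends Mo ξ dξ A B where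
  neg : ∀ f, Ef f → ξ (fun t => -f t) = -ξ f
  pos : ∀ f, Ef f → (conj (YY (X1 f) (X2 f)) * ξ f).re < cc (X1 f) (X2 f)

theorem rh_eq (x y : ℝ) (z : ℂ) : (conj (YY x y) * z).re = x * z.re + y * z.im := by
  simp only [YY, Complex.mul_re, Complex.conj_re, Complex.conj_im]
  ring

section map

variable {ξ : (ℝ → ℝ) → ℂ} {dξ : (ℝ → ℝ) → (ℝ → ℝ) → ℂ} {A B : ℝ}

/-- `|F'| = 1` -/
theorem Xi_sq {f : ℝ → ℝ} (hf : Ef f) : Xi1 ξ f ^ 2 + Xi2 ξ f ^ 2 + Xi3 ξ f ^ 2 = 1 := by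
  have h := P_sq (X_lt hf) (ξ f).re (ξ f).im
  have hN := NN_pos (ξ f).re (ξ f).im
  unfold Xi1 Xi2 Xi3
  rw [div_pow, div_pow, div_pow, ← add_div, ← add_div, h]
  field_simp

theorem Xi3_pos (H : Disp ξ dξ A B) {f : ℝ → ℝ} (hf : Ef f) : 0 < Xi3 ξ f := by
  have h := H.pos f hf
  rw [rh_eq] at h
  exact div_pos (by unfold P3; linarith) (NN_pos _ _)

/-- `c' = P₃ / N` -/
theorem cc_Xi (H : Disp ξ dξ A B) {f : ℝ → ℝ} (hf : Ef f) : cc (Xi1 ξ f) (Xi2 ξ f) = Xi3 ξ f := by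
  have h := Xi_sq (ξ := ξ) hf
  have h3 := Xi3_pos H hf
  unfold cc
  rw [show 1 - Xi1 ξ f ^ 2 - Xi2 ξ f ^ 2 = Xi3 ξ f ^ 2 by linarith, Real.sqrt_sq h3.le]

/-- `⟨F', dF'⟩ = 0` -/
theorem Xi_dXi {f : ℝ → ℝ} (hf : Ef f) (h : ℝ → ℝ) :
    Xi1 ξ f * dXi1 ξ dξ f h + Xi2 ξ f * dXi2 ξ dξ f h = -(Xi3 ξ f * dXi3 ξ dξ f h) := by
  have h1 := P_sq (X_lt hf) (ξ f).re (ξ f).im
  have h2 := P_dP (X_lt hf) (ξ f).re (ξ f).im (dX1 f h) (dX2 f h) (dξ f h).re (dξ f h).im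
  have hN := NN_pos (ξ f).re (ξ f).im
  unfold Xi1 Xi2 Xi3 dXi1 dXi2 dXi3
  generalize NN (ξ f).re (ξ f).im = n at *
  generalize dP1 (X1 f) (X2 f) (ξ f).re (ξ f).im (dX1 f h) (dX2 f h) (dξ f h).re (dξ f h).im = d1 at *
  generalize dP2 (X1 f) (X2 f) (ξ f).re (ξ f).im (dX1 f h) (dX2 f h) (dξ f h).re (dξ f h).im = d2 at *
  generalize dP3 (X1 f) (X2 f) (ξ f).re (ξ f).im (dX1 f h) (dX2 f h) (dξ f h).re (dξ f h).im = d3 at *
  generalize P1 (X1 f) (X2 f) (ξ f).re (ξ f).im = p1 at *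
  generalize P2 (X1 f) (X2 f) (ξ f).re (ξ f).im = p2 at *
  generalize P3 (X1 f) (X2 f) (ξ f).re (ξ f).im = p3 at *
  generalize (ξ f).re * (dξ f h).re + (ξ f).im * (dξ f h).im = m at *
  field_simp
  linear_combination n ^ 2 * h2 - m * h1

/-! ### bounds -/

/-- the horizontal part of `dP` -/
theorem dPh_eq (x y a b x' y' a' b' : ℝ) : (⟨dP1 x y a b x' y' a' b', dP2 x y a b x' y' a' b'⟩ : ℂ)
    = YY x' y' + YY a' b' - (((x * a + y * b : ℝ) : ℂ) * YY x' y'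
      + ((dr x y a b x' y' a' b' : ℝ) : ℂ) * YY x y) / ((1 + cc x y : ℝ) : ℂ)
      + (((x * a + y * b) * dc x y x' y' / (1 + cc x y) ^ 2 : ℝ) : ℂ) * YY x y := by
  have h : ∀ (u : ℂ) (r : ℝ), u / (r : ℂ) = ⟨u.re / r, u.im / r⟩ := fun u r => by
    apply Complex.ext <;> simp
  rw [h]
  apply Complex.ext
  · simp only [YY, dP1, Complex.add_re, Complex.sub_re, Complex.re_ofReal_mul]
    ring
  · simp only [YY, dP2, Complex.add_im, Complex.sub_im, Complex.im_ofReal_mul]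
    ring

theorem norm_YY {x y : ℝ} (h : x ^ 2 + y ^ 2 < 1) : ‖YY x y‖ ≤ 1 := C54Z.norm_Y h

theorem norm_YY_sq (x y : ℝ) : ‖YY x y‖ ^ 2 = x ^ 2 + y ^ 2 := by
  rw [← Complex.normSq_eq_norm_sq]
  unfold YY
  rw [Complex.normSq_mk]
  ring

theorem dot_le (x y a b : ℝ) : |x * a + y * b| ≤ ‖YY x y‖ * ‖YY a b‖ := by
  have h1 := norm_YY_sq x y
  have h2 := norm_YY_sq a b
  refine abs_le_of_sq_le_sq ?_ (by positivity)
  rw [mul_pow, h1, h2]
  nlinarith [sq_nonneg (x * b - y * a)]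

theorem vel_le {x y : ℝ} (h : x ^ 2 + y ^ 2 < 1) (x' y' : ℝ) :
    ‖YY x' y'‖ ≤ ‖vt x y x' y'‖ ∧ |dc x y x' y'| ≤ ‖vt x y x' y'‖ := by
  have h1 := S54Z.norm_vt h x' y'
  have h2 := norm_YY_sq x' y'
  have hc := S54.cc_sq h
  have hc0 := S54.cc_pos h
  have h3 : dc x y x' y' ^ 2 = (x * x' + y * y') ^ 2 / (1 - x ^ 2 - y ^ 2) := by
    unfold dc
    rw [neg_sq, div_pow, hc]
  have h4 : 0 ≤ (x * x' + y * y') ^ 2 / (1 - x ^ 2 - y ^ 2) :=
    div_nonneg (sq_nonneg _) (by linarith)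
  constructor
  · exact (sq_le_sq₀ (norm_nonneg _) (norm_nonneg _)).1 (by rw [h2]; linarith)
  · exact abs_le_of_sq_le_sq (by nlinarith [sq_nonneg x', sq_nonneg y']) (norm_nonneg _)

/-- **bound of `dP`** -/
theorem dP_le {x y : ℝ} (h : x ^ 2 + y ^ 2 < 1) (a b x' y' a' b' : ℝ) {V E A : ℝ}
    (hV : ‖vt x y x' y'‖ ≤ V) (hE : ‖YY a' b'‖ ≤ E) (hA : ‖YY a b‖ ≤ A) :
    ‖(⟨dP1 x y a b x' y' a' b', dP2 x y a b x' y' a' b'⟩ : ℂ)‖ ≤ V * (1 + 3 * A) + 2 * E ∧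
      |dP3 x y a b x' y' a' b'| ≤ V * (1 + A) + E := by
  obtain ⟨h1, h2⟩ := vel_le h x' y'
  have hz := norm_YY h
  have hz0 := norm_nonneg (YY x y)
  have hV0 : 0 ≤ V := (norm_nonneg _).trans hV
  have hE0 : 0 ≤ E := (norm_nonneg _).trans hE
  have hA0 : 0 ≤ A := (norm_nonneg _).trans hA
  have g1 : ‖YY x' y'‖ ≤ V := h1.trans hV
  have g2 : |dc x y x' y'| ≤ V := h2.trans hV
  have g3 : |x * a + y * b| ≤ A := by
    refine (dot_le x y a b).trans ?_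
    have := mul_le_mul hz hA (norm_nonneg _) zero_le_one
    linarith
  have g4 : |dr x y a b x' y' a' b'| ≤ V * A + E := by
    have e : dr x y a b x' y' a' b' = (x' * a + y' * b) + (x * a' + y * b') := by
      unfold dr
      ring
    rw [e]
    refine (abs_add_le _ _).trans (add_le_add ?_ ?_)
    · exact (dot_le x' y' a b).trans (mul_le_mul g1 hA (norm_nonneg _) hV0)
    · refine (dot_le x y a' b').trans ?_
      have := mul_le_mul hz hE (norm_nonneg _) zero_le_one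
      linarith
  have hc := cc_nonneg x y
  have hc1 : (1 : ℝ) ≤ 1 + cc x y := by linarith
  have hc2 : (1 : ℝ) ≤ (1 + cc x y) ^ 2 := one_le_pow₀ hc1
  constructor
  · rw [dPh_eq]
    have k1 : ‖(((x * a + y * b : ℝ) : ℂ) * YY x' y'
        + ((dr x y a b x' y' a' b' : ℝ) : ℂ) * YY x y) / ((1 + cc x y : ℝ) : ℂ)‖ ≤ A * V + (V * A + E) := by
      rw [norm_div, Complex.norm_real, Real.norm_eq_abs, abs_of_pos (by linarith)]
      refine (div_le_self (norm_nonneg _) hc1).trans ((norm_add_le _ _).trans (add_le_add ?_ ?_))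
      · rw [norm_mul, Complex.norm_real, Real.norm_eq_abs]
        exact mul_le_mul g3 g1 (norm_nonneg _) hA0
      · rw [norm_mul, Complex.norm_real, Real.norm_eq_abs]
        have := mul_le_mul g4 hz hz0 (by positivity)
        linarith
    have k2 : ‖(((x * a + y * b) * dc x y x' y' / (1 + cc x y) ^ 2 : ℝ) : ℂ) * YY x y‖ ≤ A * V := by
      rw [norm_mul, Complex.norm_real, Real.norm_eq_abs, abs_div, abs_mul,
        abs_of_pos (by positivity : 0 < (1 + cc x y) ^ 2)]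
      have e1 : |x * a + y * b| * |dc x y x' y'| / (1 + cc x y) ^ 2 ≤ A * V :=
        (div_le_self (by positivity) hc2).trans (mul_le_mul g3 g2 (abs_nonneg _) hA0)
      have := mul_le_mul e1 hz hz0 (by positivity)
      linarith
    refine (norm_add_le _ _).trans ((add_le_add ((norm_sub_le _ _).trans (add_le_add
      ((norm_add_le _ _).trans (add_le_add g1 hE)) k1)) k2).trans (le_of_eq ?_))
    ring
  · unfold dP3
    refine (abs_sub _ _).trans ?_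
    linarith

theorem YY_re_im (z : ℂ) : YY z.re z.im = z := rfl

/-- the bound of `dF'` -/
theorem dXi_le (H : Disp ξ dξ A B) {f h : ℝ → ℝ} {D : ℝ} (hf : Ef f) (hm : Measurable h) (hD : 0 ≤ D)
    (hh : ∀ t, |h t| ≤ D) : dXi1 ξ dξ f h ^ 2 + dXi2 ξ dξ f h ^ 2 + dXi3 ξ dξ f h ^ 2
      ≤ ((14 + 28 * A + 5 * B) * D) ^ 2 := by
  have hx := X_lt hf
  have hV := S54Z.vt_le hf hm hD hh
  have hE := H.bd f h D hf hm hD hh
  have hA : ‖ξ f‖ ≤ A := (H.le f hf).trans (by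
    have := mul_le_mul_of_nonneg_left (cc_le_one (X1 f) (X2 f)) H.A0
    linarith)
  have hE' : ‖YY (dξ f h).re (dξ f h).im‖ ≤ B * D := by rw [YY_re_im]; exact hE
  have hA' : ‖YY (ξ f).re (ξ f).im‖ ≤ A := by rw [YY_re_im]; exact hA
  obtain ⟨b1, b2⟩ := dP_le hx (ξ f).re (ξ f).im (dX1 f h) (dX2 f h) (dξ f h).re (dξ f h).im hV hE' hA'
  have hP := P_sq hx (ξ f).re (ξ f).im
  have hN := NN_pos (ξ f).re (ξ f).im
  have hN1 := one_le_NN (ξ f).re (ξ f).im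
  have hN2 := NN_sq (ξ f).re (ξ f).im
  have hm1 : |(ξ f).re * (dξ f h).re + (ξ f).im * (dξ f h).im| ≤ NN (ξ f).re (ξ f).im * (B * D) := by
    refine (dot_le _ _ _ _).trans (mul_le_mul ?_ hE' (norm_nonneg _) hN.le)
    refine (sq_le_sq₀ (norm_nonneg _) hN.le).1 ?_
    rw [norm_YY_sq, hN2]
    linarith
  have hBD : 0 ≤ B * D := mul_nonneg H.B0 hD
  have hA0 := H.A0
  unfold dXi1 dXi2 dXi3
  generalize NN (ξ f).re (ξ f).im = n at *
  generalize dP1 (X1 f) (X2 f) (ξ f).re (ξ f).im (dX1 f h) (dX2 f h) (dξ f h).re (dξ f h).im = d1 at *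
  generalize dP2 (X1 f) (X2 f) (ξ f).re (ξ f).im (dX1 f h) (dX2 f h) (dξ f h).re (dξ f h).im = d2 at *
  generalize dP3 (X1 f) (X2 f) (ξ f).re (ξ f).im (dX1 f h) (dX2 f h) (dξ f h).re (dξ f h).im = d3 at *
  generalize P1 (X1 f) (X2 f) (ξ f).re (ξ f).im = p1 at *
  generalize P2 (X1 f) (X2 f) (ξ f).re (ξ f).im = p2 at *
  generalize P3 (X1 f) (X2 f) (ξ f).re (ξ f).im = p3 at *
  generalize (ξ f).re * (dξ f h).re + (ξ f).im * (dξ f h).im = m at *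
  have hm3 : |m / n ^ 3| ≤ B * D / n := by
    rw [abs_div, abs_of_pos (by positivity : 0 < n ^ 3)]
    rw [div_le_div_iff₀ (by positivity) hN]
    have h1 : 1 ≤ n ^ 2 := one_le_pow₀ hN1
    have h2 : |m| * n ≤ n * (B * D) * n := mul_le_mul_of_nonneg_right hm1 hN.le
    have h3 : n * (B * D) * n ≤ B * D * n ^ 3 := by
      have : n * (B * D) * n = B * D * n ^ 2 := by ring
      rw [this]
      exact mul_le_mul_of_nonneg_left (pow_le_pow_right₀ hN1 (by norm_num)) hBD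
    linarith
  have hph : ‖(⟨p1, p2⟩ : ℂ)‖ ≤ n := by
    refine (sq_le_sq₀ (norm_nonneg _) hN.le).1 ?_
    have := norm_YY_sq p1 p2
    unfold YY at this
    rw [this]
    nlinarith [sq_nonneg p3]
  have hp3 : |p3| ≤ n := abs_le_of_sq_le_sq (by nlinarith [sq_nonneg p1, sq_nonneg p2]) hN.le
  have c1 : ‖(⟨d1 / n - p1 * m / n ^ 3, d2 / n - p2 * m / n ^ 3⟩ : ℂ)‖ ≤ 7 * D * (1 + 3 * A) + 3 * (B * D) := by
    have e : (⟨d1 / n - p1 * m / n ^ 3, d2 / n - p2 * m / n ^ 3⟩ : ℂ)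
        = ((1 / n : ℝ) : ℂ) * ⟨d1, d2⟩ - ((m / n ^ 3 : ℝ) : ℂ) * ⟨p1, p2⟩ := by
      apply Complex.ext
      · simp only [Complex.sub_re, Complex.re_ofReal_mul]
        ring
      · simp only [Complex.sub_im, Complex.im_ofReal_mul]
        ring
    rw [e]
    refine (norm_sub_le _ _).trans ?_
    rw [norm_mul, norm_mul, Complex.norm_real, Complex.norm_real, Real.norm_eq_abs, Real.norm_eq_abs,
      abs_of_pos (by positivity : 0 < 1 / n)]
    have e1 : 1 / n * ‖(⟨d1, d2⟩ : ℂ)‖ ≤ ‖(⟨d1, d2⟩ : ℂ)‖ := by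
      have : 1 / n ≤ 1 := by
        rw [div_le_one hN]
        exact hN1
      have := mul_le_mul_of_nonneg_right this (norm_nonneg (⟨d1, d2⟩ : ℂ))
      linarith
    have e2 : |m / n ^ 3| * ‖(⟨p1, p2⟩ : ℂ)‖ ≤ B * D := by
      refine (mul_le_mul hm3 hph (norm_nonneg _) (by positivity)).trans (le_of_eq ?_)
      field_simp
    linarith
  have c2 : |d3 / n - p3 * m / n ^ 3| ≤ 7 * D * (1 + A) + 2 * (B * D) := by
    have e : d3 / n - p3 * m / n ^ 3 = 1 / n * d3 - m / n ^ 3 * p3 := by ring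
    rw [e]
    refine (abs_sub _ _).trans ?_
    rw [abs_mul, abs_mul, abs_of_pos (by positivity : 0 < 1 / n)]
    have e1 : 1 / n * |d3| ≤ |d3| := by
      have : 1 / n ≤ 1 := by
        rw [div_le_one hN]
        exact hN1
      have := mul_le_mul_of_nonneg_right this (abs_nonneg d3)
      linarith
    have e2 : |m / n ^ 3| * |p3| ≤ B * D := by
      refine (mul_le_mul hm3 hp3 (abs_nonneg _) (by positivity)).trans (le_of_eq ?_)
      field_simp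
    linarith
  have c3 := norm_YY_sq (d1 / n - p1 * m / n ^ 3) (d2 / n - p2 * m / n ^ 3)
  unfold YY at c3
  rw [← c3, ← sq_abs (d3 / n - p3 * m / n ^ 3)]
  have q1 := norm_nonneg (⟨d1 / n - p1 * m / n ^ 3, d2 / n - p2 * m / n ^ 3⟩ : ℂ)
  have q2 := abs_nonneg (d3 / n - p3 * m / n ^ 3)
  generalize ‖(⟨d1 / n - p1 * m / n ^ 3, d2 / n - p2 * m / n ^ 3⟩ : ℂ)‖ = u at *
  generalize |d3 / n - p3 * m / n ^ 3| = w at *
  have q3 : u + w ≤ (14 + 28 * A + 5 * B) * D := by nlinarith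
  calc u ^ 2 + w ^ 2 ≤ (u + w) ^ 2 := by nlinarith [mul_nonneg q1 q2]
    _ ≤ _ := pow_le_pow_left₀ (by positivity) q3 2

theorem cs3 (a b c x y z : ℝ) :
    (a * x + b * y + c * z) ^ 2 ≤ (a ^ 2 + b ^ 2 + c ^ 2) * (x ^ 2 + y ^ 2 + z ^ 2) := by
  nlinarith [sq_nonneg (a * y - b * x), sq_nonneg (a * z - c * x), sq_nonneg (b * z - c * y)]

theorem cs2 (a b x y : ℝ) : (a * x + b * y) ^ 2 ≤ (a ^ 2 + b ^ 2) * (x ^ 2 + y ^ 2) := by
  nlinarith [sq_nonneg (a * y - b * x)]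

/-- two unit vectors near a third one -/
theorem near {x y c g1 g2 g3 C S A q n : ℝ} (hy : x ^ 2 + y ^ 2 + c ^ 2 = 1)
    (hg : g1 ^ 2 + g2 ^ 2 + g3 ^ 2 = 1) (hCS : C ^ 2 + S ^ 2 = 1) (hA : 0 ≤ A)
    (hn : 1 ≤ n) (hn2 : n ^ 2 ≤ 1 + (A * c) ^ 2) (hgy : n * (x * g1 + y * g2 + c * g3) = 1)
    (hq : x * C + y * S = 1 - q) : 1 - (1 + A) ^ 2 * q ≤ g1 * C + g2 * S := by
  have hn0 : 0 < n := by linarith
  have hr : (x * C + y * S) ^ 2 ≤ x ^ 2 + y ^ 2 := by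
    have := cs2 x y C S
    rw [hCS, mul_one] at this
    exact this
  have h0 : 0 ≤ q := by
    have h1 : (x * C + y * S) ^ 2 ≤ 1 ^ 2 := by
      have := sq_nonneg c
      linarith
    have := (abs_le_of_sq_le_sq' h1 zero_le_one).2
    linarith
  have h1 : c ^ 2 ≤ 2 * q := by
    rw [hq] at hr
    have := sq_nonneg q
    linarith
  have h2 : 2 - 2 * (x * g1 + y * g2 + c * g3) ≤ A ^ 2 * (2 * q) := by
    have e : x * g1 + y * g2 + c * g3 = 1 / n := by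
      field_simp
      linarith
    rw [e]
    have e2 : 2 - 2 * (1 / n) ≤ n ^ 2 - 1 := by
      rw [show 2 - 2 * (1 / n) = (2 * n - 2) / n by field_simp, div_le_iff₀ hn0]
      have : 0 ≤ (n - 1) * ((n - 1) * (n + 2)) :=
        mul_nonneg (by linarith) (mul_nonneg (by linarith) (by linarith))
      linarith
    have e3 : (A * c) ^ 2 ≤ A ^ 2 * (2 * q) := by
      rw [mul_pow]
      exact mul_le_mul_of_nonneg_left h1 (sq_nonneg A)
    linarith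
  -- `u = g - y`, `w = y - e`
  have hu : (g1 - x) ^ 2 + (g2 - y) ^ 2 + (g3 - c) ^ 2 ≤ A ^ 2 * (2 * q) := by
    have : (g1 - x) ^ 2 + (g2 - y) ^ 2 + (g3 - c) ^ 2 = 2 - 2 * (x * g1 + y * g2 + c * g3) := by
      linear_combination hy + hg
    linarith
  have hw : (x - C) ^ 2 + (y - S) ^ 2 + c ^ 2 = 2 * q := by
    linear_combination hy + hCS - 2 * hq
  have huw : (g1 - x) * (x - C) + (g2 - y) * (y - S) + (g3 - c) * c ≤ A * (2 * q) := by
    have cs := cs3 (g1 - x) (g2 - y) (g3 - c) (x - C) (y - S) c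
    rw [hw] at cs
    have h3 := mul_le_mul_of_nonneg_right hu (by linarith : 0 ≤ 2 * q)
    have h4 : ((g1 - x) * (x - C) + (g2 - y) * (y - S) + (g3 - c) * c) ^ 2 ≤ (A * (2 * q)) ^ 2 := by
      refine cs.trans (h3.trans (le_of_eq ?_))
      ring
    exact (abs_le_of_sq_le_sq' h4 (by positivity)).2
  have h5 : (g1 - C) ^ 2 + (g2 - S) ^ 2 + g3 ^ 2 ≤ (1 + A) ^ 2 * (2 * q) := by
    have : (g1 - C) ^ 2 + (g2 - S) ^ 2 + g3 ^ 2 = ((g1 - x) ^ 2 + (g2 - y) ^ 2 + (g3 - c) ^ 2)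
        + 2 * ((g1 - x) * (x - C) + (g2 - y) * (y - S) + (g3 - c) * c)
        + ((x - C) ^ 2 + (y - S) ^ 2 + c ^ 2) := by ring
    rw [this, hw]
    linarith
  have h6 : (g1 - C) ^ 2 + (g2 - S) ^ 2 + g3 ^ 2 = 2 - 2 * (g1 * C + g2 * S) := by
    linear_combination hg + hCS
  linarith

/-- the boundary estimate -/
theorem bdry (H : Disp ξ dξ A B) {f : ℝ → ℝ} (hf : Ef f) {s d : ℝ} (h : 1 - 3 * d ≤ X1 f * cos s + X2 f * sin s) :
    1 - 3 * (1 + A) ^ 2 * d ≤ Xi1 ξ f * cos s + Xi2 ξ f * sin s := by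
  have hx := X_lt hf
  have hc := S54.cc_sq hx
  have hc0 := S54.cc_pos hx
  have hN := NN_pos (ξ f).re (ξ f).im
  have hN1 := one_le_NN (ξ f).re (ξ f).im
  have hN2 := NN_sq (ξ f).re (ξ f).im
  have h1 := Xi_sq (ξ := ξ) hf
  have h2 := P_dot hx (ξ f).re (ξ f).im
  have h3 : NN (ξ f).re (ξ f).im ^ 2 ≤ 1 + (A * cc (X1 f) (X2 f)) ^ 2 := by
    rw [hN2]
    have e1 := norm_YY_sq (ξ f).re (ξ f).im
    rw [YY_re_im] at e1
    have e2 := pow_le_pow_left₀ (norm_nonneg (ξ f)) (H.le f hf) 2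
    linarith
  have h4 : NN (ξ f).re (ξ f).im * (X1 f * Xi1 ξ f + X2 f * Xi2 ξ f + cc (X1 f) (X2 f) * Xi3 ξ f) = 1 := by
    unfold Xi1 Xi2 Xi3
    rw [← h2]
    field_simp
  have h5 := near (x := X1 f) (y := X2 f) (c := cc (X1 f) (X2 f)) (g1 := Xi1 ξ f) (g2 := Xi2 ξ f)
    (g3 := Xi3 ξ f) (C := cos s) (S := sin s) (A := A) (q := 1 - (X1 f * cos s + X2 f * sin s))
    (n := NN (ξ f).re (ξ f).im) (by linarith) h1 (by rw [add_comm]; exact sin_sq_add_cos_sq s)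
    H.A0 hN1 h3 h4 (by ring)
  have h6 : (1 + A) ^ 2 * (1 - (X1 f * cos s + X2 f * sin s)) ≤ (1 + A) ^ 2 * (3 * d) :=
    mul_le_mul_of_nonneg_left (by linarith) (sq_nonneg _)
  linarith

theorem neg_P (x y a b : ℝ) : P1 (-x) (-y) (-a) (-b) = -P1 x y a b ∧ P2 (-x) (-y) (-a) (-b) = -P2 x y a b
    ∧ NN (-a) (-b) = NN a b := by
  have e : cc (-x) (-y) = cc x y := by
    unfold cc
    rw [neg_sq, neg_sq]
  refine ⟨?_, ?_, ?_⟩
  · unfold P1
    rw [e]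
    ring
  · unfold P2
    rw [e]
    ring
  · unfold NN
    rw [neg_sq, neg_sq]

theorem fn_Xi1 (H : Disp ξ dξ A B) : Fn (Xi1 ξ) (dXi1 ξ dξ) where
  tds := by
    intro l φ f h1 h2 h3
    have a1 := umap.fX.tds l φ f h1 h2 h3
    have a2 := umap.fY.tds l φ f h1 h2 h3
    have a3 := H.re.tds l φ f h1 h2 h3
    have a4 := H.im.tds l φ f h1 h2 h3
    have a5 := a1.prodMk_nhds (a2.prodMk_nhds (a3.prodMk_nhds a4))
    have a6 := (cont_Q1.tendsto (X1 f, X2 f, (ξ f).re, (ξ f).im)).comp a5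
    exact a6
  der := by
    intro φ h x b hc hb he
    have a1 := umap.fX.der φ h x b hc hb he
    have a2 := umap.fY.der φ h x b hc hb he
    have a3 := H.re.der φ h x b hc hb he
    have a4 := H.im.der φ h x b hc hb he
    have a5 := der_P1 a1 a2 a3 a4 (X_lt hc.ef)
    have a6 := der_quot a5 a3 a4
    exact a6

theorem fn_Xi2 (H : Disp ξ dξ A B) : Fn (Xi2 ξ) (dXi2 ξ dξ) where
  tds := by
    intro l φ f h1 h2 h3
    have a1 := umap.fX.tds l φ f h1 h2 h3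
    have a2 := umap.fY.tds l φ f h1 h2 h3
    have a3 := H.re.tds l φ f h1 h2 h3
    have a4 := H.im.tds l φ f h1 h2 h3
    have a5 := a1.prodMk_nhds (a2.prodMk_nhds (a3.prodMk_nhds a4))
    have a6 := (cont_Q2.tendsto (X1 f, X2 f, (ξ f).re, (ξ f).im)).comp a5
    exact a6
  der := by
    intro φ h x b hc hb he
    have a1 := umap.fX.der φ h x b hc hb he
    have a2 := umap.fY.der φ h x b hc hb he
    have a3 := H.re.der φ h x b hc hb he
    have a4 := H.im.der φ h x b hc hb he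
    have a5 := der_P2 a1 a2 a3 a4 (X_lt hc.ef)
    have a6 := der_quot a5 a3 a4
    exact a6

/-- **`F'` is a universal map** -/
theorem Disp.umap (H : Disp ξ dξ A B) : UMap (Xi1 ξ) (Xi2 ξ) (dXi1 ξ dξ) (dXi2 ξ dξ)
    (3 * (1 + A) ^ 2) (14 + 28 * A + 5 * B) where
  fX := fn_Xi1 H
  fY := fn_Xi2 H
  disc := fun f hf => by
    have h1 := Xi_sq (ξ := ξ) hf
    have h2 := Xi3_pos H hf
    nlinarith
  negX := fun f hf => by
    unfold Xi1
    rw [(F54.X_neg hf).1, (F54.X_neg hf).2, H.neg f hf, Complex.neg_re, Complex.neg_im,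
      (neg_P _ _ _ _).1, (neg_P (X1 f) (X2 f) _ _).2.2, neg_div]
  negY := fun f hf => by
    unfold Xi2
    rw [(F54.X_neg hf).1, (F54.X_neg hf).2, H.neg f hf, Complex.neg_re, Complex.neg_im,
      (neg_P _ _ _ _).2.1, (neg_P (X1 f) (X2 f) _ _).2.2, neg_div]
  K0 := by positivity
  L0 := by
    have := H.A0
    have := H.B0
    positivity
  bdry := fun f hf s d hup hlo => bdry H hf (by
    have := Pool.Agent.FPX.F54.umap.bdry f hf s d hup hlo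
    exact this)
  bd := fun f h D hf hm hD hh => by
    have h1 := Xi_sq (ξ := ξ) hf
    have h2 := Xi_dXi (ξ := ξ) (dξ := dξ) hf h
    have h3 := dXi_le H hf hm hD hh
    have e : 1 - Xi1 ξ f ^ 2 - Xi2 ξ f ^ 2 = Xi3 ξ f ^ 2 := by linarith
    rw [e, h2]
    have := mul_le_mul_of_nonneg_left h3 (sq_nonneg (Xi3 ξ f))
    nlinarith

/-- the system of the two coordinates of `F'` -/
theorem Disp.sys (H : Disp ξ dξ A B) : CST.Sys (n := 0) ![Xi1 ξ, Xi2 ξ] ![dXi1 ξ dξ, dXi2 ξ dξ]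
    (3 * (1 + A) ^ 2) (14 + 28 * A + 5 * B) where
  map := H.umap
  fn := fun i => by
    fin_cases i
    exacts [H.umap.fX, H.umap.fY]
  bd := fun i => by
    fin_cases i
    · exact fun m _ _ => ⟨_, H.umap.L0, H.umap.bX m⟩
    · exact fun m _ _ => ⟨_, H.umap.L0, H.umap.bY m⟩

end map

end Pool.Agent.FPX.XIM
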