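import Mathlib
import Pool.Agent.FPX.XIM

/-
XIC (helper22): calculus of displacements: complex functionals, multipliers, moments, products, quotients
by `c`, and the displacements built from `C₃`, `S₂`, `S₀`.
-/

open MeasureTheory Set Filter Topology
open scoped ENNReal NNReal ComplexConjugate

noncomputable section

namespace Pool.Agent.FPX.XIM

open Real Pool.Agent.FPX.UMP Pool.Agent.FPX.UMQ Pool.Agent.FPX.UXA
open Pool.Agent.FPX.F54 (pr X1 X2 dX1 dX2 X_lt X_G1 X_G2 umap)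
open Pool.Agent.FPX.S54 (cc YY vt Fv ME de Sn dS2 dS0)
open Pool.Agent.FPX.SYS (CE dCE SE dSE)

/-- a complex functional that is continuous and differentiable along curves -/
structure CF (Z : (ℝ → ℝ) → ℂ) (dZ : (ℝ → ℝ) → (ℝ → ℝ) → ℂ) : Prop where
  re : Fn (fun f => (Z f).re) fun f h => (dZ f h).re
  im : Fn (fun f => (Z f).im) fun f h => (dZ f h).im

namespace CF

variable {Z Z₁ Z₂ : (ℝ → ℝ) → ℂ} {dZ dZ₁ dZ₂ : (ℝ → ℝ) → (ℝ → ℝ) → ℂ}

theorem tds (H : CF Z dZ) {l : Filter ℝ} {φ : ℝ → ℝ → ℝ} {f : ℝ → ℝ} (h1 : ∀ᶠ i in l, Ef (φ i))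
    (h2 : Ef f) (h3 : ∀ ε : ℝ, 0 < ε → ∀ᶠ i in l, ∀ t, |φ i t - f t| ≤ ε) :
    Tendsto (fun i => Z (φ i)) l (𝓝 (Z f)) := by
  have a1 := H.re.tds l φ f h1 h2 h3
  have a2 := H.im.tds l φ f h1 h2 h3
  have a3 := ((Complex.continuous_ofReal.tendsto _).comp a1).add
    (((Complex.continuous_ofReal.tendsto _).comp a2).mul_const Complex.I)
  have e : ∀ z : ℂ, (z.re : ℂ) + (z.im : ℂ) * Complex.I = z := Complex.re_add_im
  simp only [Function.comp_def, e] at a3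
  exact a3

theorem der (H : CF Z dZ) {φ : ℝ → ℝ → ℝ} {h : ℝ → ℝ} {x b : ℝ} (hc : Crv φ h x) (hb : ∀ t, |h t| ≤ b)
    (he : ∀ᶠ s in 𝓝 x, Ef (φ s)) : HasDerivAt (fun s => Z (φ s)) (dZ (φ x) h) x :=
  S54.hasDerivAt_mk (H.re.der φ h x b hc hb he) (H.im.der φ h x b hc hb he)

/-- a functional that is continuous and differentiable -/
theorem of (h1 : ∀ (l : Filter ℝ) (φ : ℝ → ℝ → ℝ) (f : ℝ → ℝ), (∀ᶠ i in l, Ef (φ i)) → Ef f →
      (∀ ε : ℝ, 0 < ε → ∀ᶠ i in l, ∀ t, |φ i t - f t| ≤ ε) → Tendsto (fun i => Z (φ i)) l (𝓝 (Z f)))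
    (h2 : ∀ (φ : ℝ → ℝ → ℝ) (h : ℝ → ℝ) (x b : ℝ), Crv φ h x → (∀ t, |h t| ≤ b) →
      (∀ᶠ s in 𝓝 x, Ef (φ s)) → HasDerivAt (fun s => Z (φ s)) (dZ (φ x) h) x) : CF Z dZ where
  re := ⟨fun l φ f a b c => (Complex.continuous_re.tendsto _).comp (h1 l φ f a b c),
    fun φ h x b c d e => Complex.reCLM.hasFDerivAt.comp_hasDerivAt x (h2 φ h x b c d e)⟩
  im := ⟨fun l φ f a b c => (Complex.continuous_im.tendsto _).comp (h1 l φ f a b c),
    fun φ h x b c d e => Complex.imCLM.hasFDerivAt.comp_hasDerivAt x (h2 φ h x b c d e)⟩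

theorem add (H : CF Z₁ dZ₁) (H' : CF Z₂ dZ₂) :
    CF (fun f => Z₁ f + Z₂ f) (fun f h => dZ₁ f h + dZ₂ f h) :=
  of (fun _ _ _ a b c => (H.tds a b c).add (H'.tds a b c))
    fun _ _ _ _ a b c => (H.der a b c).add (H'.der a b c)

theorem mul (H : CF Z₁ dZ₁) (H' : CF Z₂ dZ₂) :
    CF (fun f => Z₁ f * Z₂ f) (fun f h => dZ₁ f h * Z₂ f + Z₁ f * dZ₂ f h) :=
  of (fun _ _ _ a b c => (H.tds a b c).mul (H'.tds a b c))
    fun _ _ _ _ a b c => (H.der a b c).mul (H'.der a b c)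

theorem cj (H : CF Z dZ) : CF (fun f => conj (Z f)) (fun f h => conj (dZ f h)) :=
  of (fun _ _ _ a b c => (Complex.continuous_conj.tendsto _).comp (H.tds a b c))
    fun _ _ _ _ a b c => (H.der a b c).star

theorem congr (H : CF Z dZ) (h1 : ∀ f, Ef f → Z f = Z₁ f) (h2 : ∀ f h, Ef f → dZ f h = dZ₁ f h) :
    CF Z₁ dZ₁ where
  re := SYS.fn_congr H.re (fun f hf => by rw [h1 f hf]) fun f h hf => by rw [h2 f h hf]
  im := SYS.fn_congr H.im (fun f hf => by rw [h1 f hf]) fun f h hf => by rw [h2 f h hf]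

end CF

/-! ### the coordinates -/

def zf (f : ℝ → ℝ) : ℂ := YY (X1 f) (X2 f)
def dzf (f h : ℝ → ℝ) : ℂ := YY (dX1 f h) (dX2 f h)

/-- third coordinate of F54 -/
def cf (f : ℝ → ℝ) : ℝ := cc (X1 f) (X2 f)
def dcf (f h : ℝ → ℝ) : ℝ := dc (X1 f) (X2 f) (dX1 f h) (dX2 f h)

theorem cf_pos {f : ℝ → ℝ} (hf : Ef f) : 0 < cf f := S54.cc_pos (X_lt hf)

theorem cf_le_one (f : ℝ → ℝ) : cf f ≤ 1 := cc_le_one _ _

theorem cf_zf {f : ℝ → ℝ} (hf : Ef f) : ‖zf f‖ ^ 2 + cf f ^ 2 = 1 := by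
  have h1 := norm_YY_sq (X1 f) (X2 f)
  have h2 := S54.cc_sq (X_lt hf)
  unfold zf cf
  rw [h1, h2]
  ring

theorem cfun_zf : CF zf dzf where
  re := umap.fX
  im := umap.fY

/-- a real function of `c` -/
theorem fn_rad {κ κ' : ℝ → ℝ} (hκ : ∀ c, 0 < c → HasDerivAt κ (κ' c) c) :
    Fn (fun f => κ (cf f)) (fun f h => κ' (cf f) * dcf f h) where
  tds := by
    intro l φ f h1 h2 h3
    have a1 := umap.fX.tds l φ f h1 h2 h3
    have a2 := umap.fY.tds l φ f h1 h2 h3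
    have a3 : Tendsto (fun i => cf (φ i)) l (𝓝 (cf f)) := by
      unfold cf cc
      exact (((tendsto_const_nhds.sub (a1.pow 2)).sub (a2.pow 2)).sqrt)
    exact ((hκ _ (cf_pos h2)).continuousAt.tendsto).comp a3
  der := by
    intro φ h x b hc hb he
    have a1 := umap.fX.der φ h x b hc hb he
    have a2 := umap.fY.der φ h x b hc hb he
    have a3 := S54.der_cc a1 a2 (X_lt hc.ef)
    exact (hκ _ (cf_pos hc.ef)).comp x a3

theorem cf_rad {κ κ' : ℝ → ℝ} (hκ : ∀ c, 0 < c → HasDerivAt κ (κ' c) c) :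
    CF (fun f => ((κ (cf f) : ℝ) : ℂ)) (fun f h => ((κ' (cf f) * dcf f h : ℝ) : ℂ)) :=
  CF.of (fun l φ f a b c => (Complex.continuous_ofReal.tendsto _).comp ((fn_rad hκ).tds l φ f a b c))
    fun φ h x b c d e => ((fn_rad hκ).der φ h x b c d e).ofReal_comp

/-! ### multipliers -/

/-- a bounded multiplier with bounded derivative -/
structure Mu (g : (ℝ → ℝ) → ℂ) (dg : (ℝ → ℝ) → (ℝ → ℝ) → ℂ) (G G' : ℝ) : Prop where
  cf : CF g dg
  G0 : 0 ≤ G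
  G0' : 0 ≤ G'
  le : ∀ f, Ef f → ‖g f‖ ≤ G
  bd : ∀ (f h : ℝ → ℝ) (D : ℝ), Ef f → Measurable h → 0 ≤ D → (∀ t, |h t| ≤ D) → ‖dg f h‖ ≤ G' * D

theorem vel_f {f h : ℝ → ℝ} {D : ℝ} (hf : Ef f) (hm : Measurable h) (hD : 0 ≤ D) (hh : ∀ t, |h t| ≤ D) :
    ‖dzf f h‖ ≤ 7 * D ∧ |dcf f h| ≤ 7 * D := by
  have h1 := S54Z.vt_le hf hm hD hh
  obtain ⟨h2, h3⟩ := vel_le (X_lt hf) (dX1 f h) (dX2 f h)
  exact ⟨h2.trans h1, h3.trans h1⟩

theorem mu_zf : Mu zf dzf 1 7 where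
  cf := cfun_zf
  G0 := zero_le_one
  G0' := by norm_num
  le := fun f hf => norm_YY (X_lt hf)
  bd := fun _ _ _ hf hm hD hh => (vel_f hf hm hD hh).1

theorem mu_rad {κ κ' : ℝ → ℝ} {G G' : ℝ} (hκ : ∀ c, 0 < c → HasDerivAt κ (κ' c) c) (h0 : 0 ≤ G)
    (h0' : 0 ≤ G') (h1 : ∀ c, 0 < c → c ≤ 1 → |κ c| ≤ G) (h2 : ∀ c, 0 < c → c ≤ 1 → |κ' c| ≤ G') :
    Mu (fun f => ((κ (cf f) : ℝ) : ℂ)) (fun f h => ((κ' (cf f) * dcf f h : ℝ) : ℂ)) G (7 * G') where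
  cf := cf_rad hκ
  G0 := h0
  G0' := by positivity
  le := fun f hf => by
    rw [Complex.norm_real, Real.norm_eq_abs]
    exact h1 _ (cf_pos hf) (cf_le_one f)
  bd := fun f h D hf hm hD hh => by
    rw [Complex.norm_real, Real.norm_eq_abs, abs_mul]
    refine (mul_le_mul (h2 _ (cf_pos hf) (cf_le_one f)) (vel_f hf hm hD hh).2 (abs_nonneg _) h0').trans
      (le_of_eq ?_)
    ring

namespace Mu

variable {g₁ g₂ : (ℝ → ℝ) → ℂ} {dg₁ dg₂ : (ℝ → ℝ) → (ℝ → ℝ) → ℂ} {G₁ G₁' G₂ G₂' : ℝ}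

theorem mul (H : Mu g₁ dg₁ G₁ G₁') (H' : Mu g₂ dg₂ G₂ G₂') :
    Mu (fun f => g₁ f * g₂ f) (fun f h => dg₁ f h * g₂ f + g₁ f * dg₂ f h) (G₁ * G₂)
      (G₁' * G₂ + G₁ * G₂') where
  cf := H.cf.mul H'.cf
  G0 := mul_nonneg H.G0 H'.G0
  G0' := add_nonneg (mul_nonneg H.G0' H'.G0) (mul_nonneg H.G0 H'.G0')
  le := fun f hf => by
    rw [norm_mul]
    exact mul_le_mul (H.le f hf) (H'.le f hf) (norm_nonneg _) H.G0
  bd := fun f h D hf hm hD hh => by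
    refine (norm_add_le _ _).trans ?_
    rw [norm_mul, norm_mul]
    have e1 := mul_le_mul (H.bd f h D hf hm hD hh) (H'.le f hf) (norm_nonneg _) (mul_nonneg H.G0' hD)
    have e2 := mul_le_mul (H.le f hf) (H'.bd f h D hf hm hD hh) (norm_nonneg _) H.G0
    nlinarith

theorem cj (H : Mu g₁ dg₁ G₁ G₁') : Mu (fun f => conj (g₁ f)) (fun f h => conj (dg₁ f h)) G₁ G₁' where
  cf := H.cf.cj
  G0 := H.G0
  G0' := H.G0'
  le := fun f hf => by rw [Complex.norm_conj]; exact H.le f hf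
  bd := fun f h D hf hm hD hh => by rw [Complex.norm_conj]; exact H.bd f h D hf hm hD hh

end Mu

/-- powers of `ζ` -/
theorem mu_pow (n : ℕ) : Mu (fun f => zf f ^ n) (fun f h => (n : ℂ) * zf f ^ (n - 1) * dzf f h) 1 (7 * n) where
  cf := CF.of (fun _ _ _ a b c => (cfun_zf.tds a b c).pow n)
    fun _ _ _ _ a b c => (cfun_zf.der a b c).pow n
  G0 := zero_le_one
  G0' := by positivity
  le := fun f hf => by
    rw [norm_pow]
    exact pow_le_one₀ (norm_nonneg _) (norm_YY (X_lt hf))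
  bd := fun f h D hf hm hD hh => by
    rw [norm_mul, norm_mul, norm_pow, Complex.norm_natCast]
    have e1 : ‖zf f‖ ^ (n - 1) ≤ 1 := pow_le_one₀ (norm_nonneg _) (norm_YY (X_lt hf))
    have e2 := (vel_f hf hm hD hh).1
    have e3 : (n : ℝ) * ‖zf f‖ ^ (n - 1) ≤ n := by
      have := mul_le_mul_of_nonneg_left e1 (Nat.cast_nonneg (α := ℝ) n)
      linarith
    refine (mul_le_mul e3 e2 (norm_nonneg _) (Nat.cast_nonneg n)).trans (le_of_eq ?_)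
    ring

/-! ### moments -/

namespace Mo

variable {Z Z₁ Z₂ g : (ℝ → ℝ) → ℂ} {dZ dZ₁ dZ₂ dg : (ℝ → ℝ) → (ℝ → ℝ) → ℂ} {A B A₁ A₂ B₁ B₂ G G' : ℝ}

theorem cf (H : Mo Z dZ A B) : CF Z dZ := ⟨H.re, H.im⟩

theorem of_cf (H : CF Z dZ) (hA : 0 ≤ A) (hB : 0 ≤ B) (h1 : ∀ f, Ef f → ‖Z f‖ ≤ A * XIM.cf f)
    (h2 : ∀ (f h : ℝ → ℝ) (D : ℝ), Ef f → Measurable h → 0 ≤ D → (∀ t, |h t| ≤ D) → ‖dZ f h‖ ≤ B * D) :
    Mo Z dZ A B := ⟨H.re, H.im, hA, hB, h1, h2⟩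

theorem le_one (H : Mo Z dZ A B) {f : ℝ → ℝ} (hf : Ef f) : ‖Z f‖ ≤ A :=
  (H.le f hf).trans (by
    have := mul_le_mul_of_nonneg_left (cf_le_one f) H.A0
    unfold XIM.cf at this
    linarith)

theorem add (H : Mo Z₁ dZ₁ A₁ B₁) (H' : Mo Z₂ dZ₂ A₂ B₂) :
    Mo (fun f => Z₁ f + Z₂ f) (fun f h => dZ₁ f h + dZ₂ f h) (A₁ + A₂) (B₁ + B₂) :=
  of_cf (H.cf.add H'.cf) (add_nonneg H.A0 H'.A0) (add_nonneg H.B0 H'.B0)
    (fun f hf => by
      rw [add_mul]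
      exact (norm_add_le _ _).trans (add_le_add (H.le f hf) (H'.le f hf)))
    fun f h D hf hm hD hh => by
      rw [add_mul]
      exact (norm_add_le _ _).trans (add_le_add (H.bd f h D hf hm hD hh) (H'.bd f h D hf hm hD hh))

theorem cj (H : Mo Z dZ A B) : Mo (fun f => conj (Z f)) (fun f h => conj (dZ f h)) A B :=
  of_cf H.cf.cj H.A0 H.B0 (fun f hf => by rw [Complex.norm_conj]; exact H.le f hf)
    fun f h D hf hm hD hh => by rw [Complex.norm_conj]; exact H.bd f h D hf hm hD hh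

/-- multiplication by a multiplier -/
theorem mulf (H' : Mu g dg G G') (H : Mo Z dZ A B) :
    Mo (fun f => g f * Z f) (fun f h => dg f h * Z f + g f * dZ f h) (G * A) (G' * A + G * B) :=
  of_cf (H'.cf.mul H.cf) (mul_nonneg H'.G0 H.A0)
    (add_nonneg (mul_nonneg H'.G0' H.A0) (mul_nonneg H'.G0 H.B0))
    (fun f hf => by
      rw [norm_mul, mul_assoc]
      exact mul_le_mul (H'.le f hf) (H.le f hf) (norm_nonneg _) H'.G0)
    fun f h D hf hm hD hh => by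
      refine (norm_add_le _ _).trans ?_
      rw [norm_mul, norm_mul]
      have e1 := mul_le_mul (H'.bd f h D hf hm hD hh) (H.le_one hf) (norm_nonneg _) (mul_nonneg H'.G0' hD)
      have e2 := mul_le_mul (H'.le f hf) (H.bd f h D hf hm hD hh) (norm_nonneg _) H'.G0
      nlinarith

end Mo

/-- division by `c` -/
theorem cf_div {Z : (ℝ → ℝ) → ℂ} {dZ : (ℝ → ℝ) → (ℝ → ℝ) → ℂ} (H : CF Z dZ) :
    CF (fun f => Z f / (cf f : ℂ)) (fun f h => dZ f h / (cf f : ℂ) - Z f * (dcf f h : ℂ) / (cf f : ℂ) ^ 2) := by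
  have h1 : CF (fun f => ((cf f : ℝ) : ℂ)) (fun f h => ((1 * dcf f h : ℝ) : ℂ)) :=
    cf_rad (κ := fun c => c) (κ' := fun _ => 1) fun c _ => hasDerivAt_id c
  refine CF.of (fun l φ f a b c => ?_) fun φ h x b c d e => ?_
  · exact (H.tds a b c).div (h1.tds a b c) (Complex.ofReal_ne_zero.2 (cf_pos b).ne')
  · have h2 := (H.der c d e).div (h1.der c d e) (Complex.ofReal_ne_zero.2 (cf_pos c.ef).ne')
    refine h2.congr_deriv ?_
    have h3 : (cf (φ x) : ℂ) ≠ 0 := Complex.ofReal_ne_zero.2 (cf_pos c.ef).ne'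
    rw [one_mul]
    field_simp

/-- a functional of size `O(c²)` with derivative of size `O(c)` -/
structure Mo2 (Z : (ℝ → ℝ) → ℂ) (dZ : (ℝ → ℝ) → (ℝ → ℝ) → ℂ) (A B : ℝ) : Prop where
  cf : CF Z dZ
  A0 : 0 ≤ A
  B0 : 0 ≤ B
  le : ∀ f, Ef f → ‖Z f‖ ≤ A * XIM.cf f ^ 2
  bd : ∀ (f h : ℝ → ℝ) (D : ℝ), Ef f → Measurable h → 0 ≤ D → (∀ t, |h t| ≤ D) →
    ‖dZ f h‖ ≤ B * XIM.cf f * D

theorem Mo.mul {Z₁ Z₂ : (ℝ → ℝ) → ℂ} {dZ₁ dZ₂ : (ℝ → ℝ) → (ℝ → ℝ) → ℂ} {A₁ A₂ B₁ B₂ : ℝ}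
    (H : Mo Z₁ dZ₁ A₁ B₁) (H' : Mo Z₂ dZ₂ A₂ B₂) :
    Mo2 (fun f => Z₁ f * Z₂ f) (fun f h => dZ₁ f h * Z₂ f + Z₁ f * dZ₂ f h) (A₁ * A₂)
      (B₁ * A₂ + A₁ * B₂) where
  cf := H.cf.mul H'.cf
  A0 := mul_nonneg H.A0 H'.A0
  B0 := add_nonneg (mul_nonneg H.B0 H'.A0) (mul_nonneg H.A0 H'.B0)
  le := fun f hf => by
    rw [norm_mul]
    have h0 := (cf_pos hf).le
    refine (mul_le_mul (H.le f hf) (H'.le f hf) (norm_nonneg _) (mul_nonneg H.A0 h0)).trans (le_of_eq ?_)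
    unfold XIM.cf
    ring
  bd := fun f h D hf hm hD hh => by
    have h0 := (cf_pos hf).le
    refine (norm_add_le _ _).trans ?_
    rw [norm_mul, norm_mul]
    have e1 := mul_le_mul (H.bd f h D hf hm hD hh) (H'.le f hf) (norm_nonneg _) (mul_nonneg H.B0 hD)
    have e2 := mul_le_mul (H.le f hf) (H'.bd f h D hf hm hD hh) (norm_nonneg _) (mul_nonneg H.A0 h0)
    refine (add_le_add e1 e2).trans (le_of_eq ?_)
    unfold XIM.cf
    ring

namespace Mo2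

variable {Z Z₁ Z₂ g : (ℝ → ℝ) → ℂ} {dZ dZ₁ dZ₂ dg : (ℝ → ℝ) → (ℝ → ℝ) → ℂ} {A B A₁ A₂ B₁ B₂ G G' : ℝ}

theorem add (H : Mo2 Z₁ dZ₁ A₁ B₁) (H' : Mo2 Z₂ dZ₂ A₂ B₂) :
    Mo2 (fun f => Z₁ f + Z₂ f) (fun f h => dZ₁ f h + dZ₂ f h) (A₁ + A₂) (B₁ + B₂) where
  cf := H.cf.add H'.cf
  A0 := add_nonneg H.A0 H'.A0
  B0 := add_nonneg H.B0 H'.B0
  le := fun f hf => by
    rw [add_mul]
    exact (norm_add_le _ _).trans (add_le_add (H.le f hf) (H'.le f hf))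
  bd := fun f h D hf hm hD hh => by
    rw [add_mul, add_mul]
    exact (norm_add_le _ _).trans (add_le_add (H.bd f h D hf hm hD hh) (H'.bd f h D hf hm hD hh))

theorem cj (H : Mo2 Z dZ A B) : Mo2 (fun f => conj (Z f)) (fun f h => conj (dZ f h)) A B where
  cf := H.cf.cj
  A0 := H.A0
  B0 := H.B0
  le := fun f hf => by rw [Complex.norm_conj]; exact H.le f hf
  bd := fun f h D hf hm hD hh => by rw [Complex.norm_conj]; exact H.bd f h D hf hm hD hh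

theorem mulf (H' : Mu g dg G G') (H : Mo2 Z dZ A B) :
    Mo2 (fun f => g f * Z f) (fun f h => dg f h * Z f + g f * dZ f h) (G * A) (G' * A + G * B) where
  cf := H'.cf.mul H.cf
  A0 := mul_nonneg H'.G0 H.A0
  B0 := add_nonneg (mul_nonneg H'.G0' H.A0) (mul_nonneg H'.G0 H.B0)
  le := fun f hf => by
    rw [norm_mul, mul_assoc]
    exact mul_le_mul (H'.le f hf) (H.le f hf) (norm_nonneg _) H'.G0
  bd := fun f h D hf hm hD hh => by
    have h0 := (cf_pos hf).le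
    have h1 := cf_le_one f
    refine (norm_add_le _ _).trans ?_
    rw [norm_mul, norm_mul]
    have e1 := mul_le_mul (H'.bd f h D hf hm hD hh) (H.le f hf) (norm_nonneg _) (mul_nonneg H'.G0' hD)
    have e2 := mul_le_mul (H'.le f hf) (H.bd f h D hf hm hD hh) (norm_nonneg _) H'.G0
    have e3 : G' * D * (A * XIM.cf f ^ 2) ≤ G' * D * (A * XIM.cf f) := by
      refine mul_le_mul_of_nonneg_left (mul_le_mul_of_nonneg_left ?_ H.A0) (mul_nonneg H'.G0' hD)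
      nlinarith
    refine (add_le_add (e1.trans e3) e2).trans (le_of_eq ?_)
    ring

/-- the quotient by `c` is a moment -/
theorem divc (H : Mo2 Z dZ A B) :
    Mo (fun f => Z f / (XIM.cf f : ℂ))
      (fun f h => dZ f h / (XIM.cf f : ℂ) - Z f * (dcf f h : ℂ) / (XIM.cf f : ℂ) ^ 2) A (B + 7 * A) := by
  refine Mo.of_cf (cf_div H.cf) H.A0 (by have := H.A0; have := H.B0; positivity) (fun f hf => ?_)
    fun f h D hf hm hD hh => ?_
  · have h0 := cf_pos hf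
    rw [norm_div, Complex.norm_real, Real.norm_eq_abs, abs_of_pos h0, div_le_iff₀ h0]
    refine (H.le f hf).trans (le_of_eq ?_)
    ring
  · have h0 := cf_pos hf
    refine (norm_sub_le _ _).trans ?_
    rw [norm_div, norm_div, norm_mul, norm_pow, Complex.norm_real, Complex.norm_real, Real.norm_eq_abs,
      Real.norm_eq_abs, abs_of_pos h0]
    have e1 : ‖dZ f h‖ / XIM.cf f ≤ B * D := by
      rw [div_le_iff₀ h0]
      refine (H.bd f h D hf hm hD hh).trans (le_of_eq ?_)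
      ring
    have e2 : ‖Z f‖ * |dcf f h| / XIM.cf f ^ 2 ≤ A * (7 * D) := by
      rw [div_le_iff₀ (by positivity)]
      refine (mul_le_mul (H.le f hf) (vel_f hf hm hD hh).2 (abs_nonneg _)
        (mul_nonneg H.A0 (by positivity))).trans (le_of_eq ?_)
      ring
    linarith

end Mo2

/-! ### the moments `C₃`, `S₂`, `S₀` -/

/-- `C_m`, `m ≥ 2` -/
theorem mo_CE {m : ℕ} (hm : 2 ≤ m) : Mo (CE m) (dCE m) 22 (16 + 154 * ((m : ℝ) + 1)) := by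
  refine Mo.of_cf ⟨SYS.fn_CE Complex.reCLM hm, SYS.fn_CE Complex.imCLM hm⟩ (by norm_num) (by positivity)
    (fun f hf => C54Z.Cm_le (X_lt hf) hf (X_G1 hf) (X_G2 hf) m) fun f h D hf hmm hD hh => ?_
  rw [SYS.dCE_eq hf hm]
  have h1 := S54Z.dMM_map_le' (m : ℤ) 0 (Φ := fun u : ℝ => u) (Φ' := fun _ : ℝ => (1 : ℝ))
    (fun u => by simp) (fun u => by simp) hf hmm hD hh
  refine h1.trans (le_of_eq ?_)
  have e : |(((m : ℕ) : ℤ) : ℝ)| = (m : ℝ) := by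
    rw [Int.cast_natCast, abs_of_nonneg (Nat.cast_nonneg m)]
  rw [e]
  push_cast
  ring

/-- `S_n` -/
theorem mo2_SE (n : ℤ) : Mo2 (SE n) (dSE n) 121 (11 * (16 + 77 * (|(n : ℝ)| + 1))) where
  cf := ⟨SYS.fn_SE Complex.reCLM n, SYS.fn_SE Complex.imCLM n⟩
  A0 := by norm_num
  B0 := by positivity
  le := fun f hf => by
    rw [SYS.SE_eq, norm_mul, Complex.norm_real, Real.norm_eq_abs]
    have h1 := S54Z.MM_map_le n 2 hf
    have h2 : ‖F54.SM n (fun u : ℝ => u ^ 2) f‖ ≤ 2 * (11 * cc (X1 f) (X2 f)) ^ 2 := h1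
    rw [abs_of_pos (by norm_num : (0 : ℝ) < 1 / 2)]
    unfold cf
    nlinarith
  bd := fun f h D hf hmm hD hh => by
    rw [SYS.dSE_eq, norm_mul, Complex.norm_real, Real.norm_eq_abs,
      abs_of_pos (by norm_num : (0 : ℝ) < 1 / 2)]
    have h1 := S54Z.dMM_map_le n 1 (Φ := fun u : ℝ => u ^ 2) (Φ' := fun u : ℝ => 2 * u)
      (fun u => by norm_num) (fun u => by norm_num) hf hmm hD hh
    have h2 : ‖F54.dSM n (fun u : ℝ => u ^ 2) (fun u : ℝ => 2 * u) f h‖ ≤ _ := h1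
    have h3 := mul_le_mul_of_nonneg_left h2 (by norm_num : (0 : ℝ) ≤ 1 / 2)
    refine h3.trans (le_of_eq ?_)
    unfold cf
    push_cast
    ring

/-- `S₂` in helper29's notation -/
theorem mo2_S2 : Mo2 S54.S2 dS2 121 (11 * (16 + 77 * 3)) where
  cf := ⟨SYS.fn_S2 Complex.reCLM, SYS.fn_S2 Complex.imCLM⟩
  A0 := by norm_num
  B0 := by norm_num
  le := fun f hf => (mo2_SE 2).le f hf
  bd := fun f h D hf hmm hD hh => by
    rw [← SYS.dS2_eq hf]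
    refine ((mo2_SE 2).bd f h D hf hmm hD hh).trans (le_of_eq ?_)
    norm_num

/-- `S₀` as a complex functional -/
theorem mo2_S0 : Mo2 (fun f => ((S54.S0 f : ℝ) : ℂ)) (fun f h => ((dS0 f h : ℝ) : ℂ)) 121 (11 * (16 + 77)) where
  cf := CF.of (fun l φ f a b c => (Complex.continuous_ofReal.tendsto _).comp (SYS.fn_S0.tds l φ f a b c))
    fun φ h x b c d e => (SYS.fn_S0.der φ h x b c d e).ofReal_comp
  A0 := by norm_num
  B0 := by norm_num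
  le := fun f hf => by
    rw [Complex.norm_real, Real.norm_eq_abs]
    exact (Complex.abs_re_le_norm (SE 0 f)).trans ((mo2_SE 0).le f hf)
  bd := fun f h D hf hmm hD hh => by
    rw [Complex.norm_real, Real.norm_eq_abs, ← SYS.dS0_eq hf]
    refine (Complex.abs_re_le_norm _).trans (((mo2_SE 0).bd f h D hf hmm hD hh).trans (le_of_eq ?_))
    norm_num

end Pool.Agent.FPX.XIM
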