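import Mathlib
import Pool.Agent.FPX.XIC

/-
XID (helper22): parity and size of the moments, and the displacement with eight terms
`κ₀ conj ζ² C₃ + κ₁ ζ⁴ conj C₃ + (κ₂ ζ |C₃|² + κ₃ conj ζ⁵ C₃² + κ₄ ζ⁷ conj C₃² + κ₅ conj ζ S₂ + κ₆ ζ S₀
+ κ₇ ζ³ conj S₂) / c`.
-/

open MeasureTheory Set Filter Topology
open scoped ENNReal NNReal ComplexConjugate

noncomputable section

namespace Pool.Agent.FPX.XIM

open Real Pool.Agent.FPX.UMP Pool.Agent.FPX.UMQ Pool.Agent.FPX.UXA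
open Pool.Agent.FPX.F54 (pr X1 X2 dX1 dX2 X_lt X_G1 X_G2 umap)
open Pool.Agent.FPX.S54 (cc wv YY EE KK vt Fv ME de Sn dS2 dS0)
open Pool.Agent.FPX.SYS (CE dCE SE dSE)

/-! ### parity -/

theorem pr_neg (x y t : ℝ) : pr (-x) (-y) t = -pr x y t := by
  unfold pr
  ring

theorem cc_neg (x y : ℝ) : cc (-x) (-y) = cc x y := by
  unfold cc
  rw [neg_sq, neg_sq]

theorem KK_neg' (n : ℤ) (x y t : ℝ) : KK n (-x) (-y) t = KK n x y t := by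
  have h1 : wv (-x) (-y) t = wv x y t := by
    unfold wv
    rw [pr_neg, neg_sq]
  have h2 : EE (-x) (-y) t = EE x y t := by
    unfold EE
    rw [pr_neg, cc_neg]
    simp only [neg_mul_neg]
  unfold KK
  rw [h1, h2, cc_neg]

theorem de_neg (x y : ℝ) (f : ℝ → ℝ) (t : ℝ) : de (-x) (-y) (fun t => -f t) t = -de x y f t := by
  unfold de
  rw [pr_neg, arcsin_neg]
  ring

theorem zf_neg {f : ℝ → ℝ} (hf : Ef f) : zf (fun t => -f t) = -zf f := by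
  unfold zf YY
  rw [(F54.X_neg hf).1, (F54.X_neg hf).2]
  rfl

theorem cf_neg {f : ℝ → ℝ} (hf : Ef f) : cf (fun t => -f t) = cf f := by
  unfold cf
  rw [(F54.X_neg hf).1, (F54.X_neg hf).2, cc_neg]

theorem SE_neg {f : ℝ → ℝ} (hf : Ef f) (n : ℤ) : SE n (fun t => -f t) = SE n f := by
  unfold SE Sn ME
  rw [(F54.X_neg hf).1, (F54.X_neg hf).2]
  congr 1
  refine intervalIntegral.integral_congr fun t _ => ?_
  simp only [KK_neg', de_neg, neg_sq]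

theorem S2_neg {f : ℝ → ℝ} (hf : Ef f) : S54.S2 (fun t => -f t) = S54.S2 f := SE_neg hf 2

theorem S0_neg {f : ℝ → ℝ} (hf : Ef f) : S54.S0 (fun t => -f t) = S54.S0 f :=
  congrArg Complex.re (SE_neg hf 0)

theorem CE_neg {f : ℝ → ℝ} (hf : Ef f) (m : ℕ) : CE m (fun t => -f t) = -CE m f := by
  have hE : Ef fun t => -f t := F54.Ef_neg hf
  rw [SYS.CE_ME hE, SYS.CE_ME hf]
  unfold ME
  rw [(F54.X_neg hf).1, (F54.X_neg hf).2, ← mul_neg, ← mul_neg, ← intervalIntegral.integral_neg]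
  congr 2
  refine intervalIntegral.integral_congr fun t _ => ?_
  simp only [KK_neg', de_neg]
  push_cast
  ring

/-! ### size -/

/-- the density -/
def dn (x y t : ℝ) : ℝ := cc x y / wv x y t ^ 2

theorem dn_pos {x y : ℝ} (h : x ^ 2 + y ^ 2 < 1) (t : ℝ) : 0 < dn x y t :=
  div_pos (S54.cc_pos h) (pow_pos (S54.wv_pos h t) 2)

theorem norm_KK' (n : ℤ) {x y : ℝ} (h : x ^ 2 + y ^ 2 < 1) (t : ℝ) : ‖KK n x y t‖ = dn x y t := by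
  rw [S54Z.norm_KK n h]
  unfold dn
  rw [S54.wv_sq h]
  rfl

theorem KK_zero (x y t : ℝ) : KK 0 x y t = (dn x y t : ℂ) := by
  unfold KK dn
  rw [zpow_zero, mul_one]

theorem cont_dn {x y : ℝ} (h : x ^ 2 + y ^ 2 < 1) : Continuous fun t => dn x y t := by
  have h1 : Continuous fun t => (KK 0 x y t).re := Complex.continuous_re.comp (S54.cont_KK_t 0 h)
  simpa only [KK_zero, Complex.ofReal_re] using h1

theorem int_dn {x y : ℝ} (h : x ^ 2 + y ^ 2 < 1) : ∫ t in (0 : ℝ)..(2 * π), dn x y t = 2 * π := by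
  have h1 := C54.int_al h
  exact h1

theorem cont_de {x y : ℝ} {f : ℝ → ℝ} (hf : Ef f) : Continuous (de x y f) := by
  unfold de pr
  exact hf.cont.sub (continuous_arcsin.comp (by fun_prop))

/-- the norm of a mean -/
theorem norm_ME_le (n : ℤ) {x y : ℝ} (h : x ^ 2 + y ^ 2 < 1) (g : ℝ → ℝ) :
    ‖ME n x y g‖ ≤ 1 / (2 * π) * ∫ t in (0 : ℝ)..(2 * π), |g t| * dn x y t := by
  unfold ME
  have hπ := pi_pos
  rw [norm_mul]
  have e1 : ‖(1 / (2 * (π : ℂ)))‖ = 1 / (2 * π) := by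
    have : (1 / (2 * (π : ℂ))) = ((1 / (2 * π) : ℝ) : ℂ) := by push_cast; ring
    rw [this, Complex.norm_real, Real.norm_eq_abs, abs_of_pos (by positivity)]
  rw [e1]
  refine mul_le_mul_of_nonneg_left ?_ (by positivity)
  refine (intervalIntegral.norm_integral_le_integral_norm (by positivity)).trans (le_of_eq ?_)
  refine intervalIntegral.integral_congr fun t _ => ?_
  change ‖((g t : ℝ) : ℂ) * KK n x y t‖ = _
  rw [norm_mul, norm_KK' n h, Complex.norm_real, Real.norm_eq_abs]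

theorem S0_eq (f : ℝ → ℝ) :
    S54.S0 f = 1 / (2 * π) * ∫ t in (0 : ℝ)..(2 * π), de (X1 f) (X2 f) f t ^ 2 * dn (X1 f) (X2 f) t := by
  unfold S54.S0 Sn ME
  have e : ∀ t, ((de (X1 f) (X2 f) f t ^ 2 : ℝ) : ℂ) * KK 0 (X1 f) (X2 f) t
      = ((de (X1 f) (X2 f) f t ^ 2 * dn (X1 f) (X2 f) t : ℝ) : ℂ) := fun t => by
    rw [KK_zero]
    push_cast
    ring
  simp only [e]
  rw [intervalIntegral.integral_ofReal]
  have e2 : (1 / (2 * (π : ℂ))) = ((1 / (2 * π) : ℝ) : ℂ) := by push_cast; ring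
  rw [e2, ← Complex.ofReal_mul, Complex.ofReal_re]

theorem S0_nonneg {f : ℝ → ℝ} (hf : Ef f) : 0 ≤ S54.S0 f := by
  rw [S0_eq]
  have hπ := pi_pos
  refine mul_nonneg (by positivity) (intervalIntegral.integral_nonneg (by positivity) fun t _ => ?_)
  exact mul_nonneg (sq_nonneg _) (dn_pos (X_lt hf) t).le

/-- `|S_n| ≤ S₀` -/
theorem norm_SE_le {f : ℝ → ℝ} (hf : Ef f) (n : ℤ) : ‖SE n f‖ ≤ S54.S0 f := by
  have h1 := norm_ME_le n (X_lt hf) fun t => de (X1 f) (X2 f) f t ^ 2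
  rw [S0_eq]
  refine h1.trans (le_of_eq ?_)
  congr 1
  refine intervalIntegral.integral_congr fun t _ => ?_
  rw [abs_of_nonneg (sq_nonneg (de (X1 f) (X2 f) f t))]

theorem norm_S2_le {f : ℝ → ℝ} (hf : Ef f) : ‖S54.S2 f‖ ≤ S54.S0 f := norm_SE_le hf 2

/-- `|C_m| ≤ λ + S₀ / λ` -/
theorem norm_CE_aux {f : ℝ → ℝ} (hf : Ef f) (m : ℕ) {l : ℝ} (hl : 0 < l) :
    ‖CE m f‖ ≤ l + S54.S0 f / l := by
  have hx := X_lt hf
  have hπ := pi_pos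
  rw [SYS.CE_ME hf, norm_mul, Complex.norm_ofNat]
  have h1 := norm_ME_le (m : ℤ) hx (de (X1 f) (X2 f) f)
  have h2 : ∫ t in (0 : ℝ)..(2 * π), |de (X1 f) (X2 f) f t| * dn (X1 f) (X2 f) t
      ≤ ∫ t in (0 : ℝ)..(2 * π), (l / 2 * dn (X1 f) (X2 f) t
        + 1 / (2 * l) * (de (X1 f) (X2 f) f t ^ 2 * dn (X1 f) (X2 f) t)) := by
    refine intervalIntegral.integral_mono_on (by positivity) ?_ ?_ fun t _ => ?_
    · exact ((cont_de hf).abs.mul (cont_dn hx)).intervalIntegrable _ _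
    · exact ((continuous_const.mul (cont_dn hx)).add (continuous_const.mul
        (((cont_de hf).pow 2).mul (cont_dn hx)))).intervalIntegrable _ _
    · have e1 : |de (X1 f) (X2 f) f t| ≤ l / 2 + 1 / (2 * l) * de (X1 f) (X2 f) f t ^ 2 := by
        have e2 : l / 2 + 1 / (2 * l) * de (X1 f) (X2 f) f t ^ 2 - |de (X1 f) (X2 f) f t|
            = (l - |de (X1 f) (X2 f) f t|) ^ 2 / (2 * l) := by
          rw [← sq_abs (de (X1 f) (X2 f) f t)]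
          field_simp
          ring
        have e3 : 0 ≤ (l - |de (X1 f) (X2 f) f t|) ^ 2 / (2 * l) := by positivity
        linarith
      have := mul_le_mul_of_nonneg_right e1 (dn_pos hx t).le
      linarith
  have i1 : IntervalIntegrable (fun t => l / 2 * dn (X1 f) (X2 f) t) volume 0 (2 * π) :=
    (continuous_const.mul (cont_dn hx)).intervalIntegrable _ _
  have i2 : IntervalIntegrable (fun t => 1 / (2 * l) * (de (X1 f) (X2 f) f t ^ 2 * dn (X1 f) (X2 f) t))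
      volume 0 (2 * π) :=
    (continuous_const.mul (((cont_de hf).pow 2).mul (cont_dn hx))).intervalIntegrable _ _
  rw [intervalIntegral.integral_add i1 i2, intervalIntegral.integral_const_mul,
    intervalIntegral.integral_const_mul, int_dn hx] at h2
  have h3 := S0_eq f
  have h4 : ∫ t in (0 : ℝ)..(2 * π), de (X1 f) (X2 f) f t ^ 2 * dn (X1 f) (X2 f) t = 2 * π * S54.S0 f := by
    rw [h3]
    field_simp
  rw [h4] at h2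
  have h5 := mul_le_mul_of_nonneg_left h2 (by positivity : 0 ≤ 1 / (2 * π))
  have h6 : 1 / (2 * π) * (l / 2 * (2 * π) + 1 / (2 * l) * (2 * π * S54.S0 f)) = l / 2 + S54.S0 f / (2 * l) := by
    field_simp
  rw [h6] at h5
  have h7 : S54.S0 f / l = 2 * (S54.S0 f / (2 * l)) := by field_simp
  rw [h7]
  linarith

/-- **`|C_m|² ≤ 4 S₀`** -/
theorem norm_CE_sq {f : ℝ → ℝ} (hf : Ef f) (m : ℕ) : ‖CE m f‖ ^ 2 ≤ 4 * S54.S0 f := by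
  have h0 := S0_nonneg hf
  have h : ‖CE m f‖ ≤ 2 * √(S54.S0 f) := by
    refine le_of_forall_pos_le_add fun ε hε => ?_
    have hs := Real.sqrt_nonneg (S54.S0 f)
    have hl : 0 < √(S54.S0 f) + ε := by linarith
    have h1 := norm_CE_aux hf m hl
    have h2 : S54.S0 f / (√(S54.S0 f) + ε) ≤ √(S54.S0 f) := by
      rw [div_le_iff₀ hl]
      have := Real.mul_self_sqrt h0
      nlinarith
    linarith
  calc ‖CE m f‖ ^ 2 ≤ (2 * √(S54.S0 f)) ^ 2 := pow_le_pow_left₀ (norm_nonneg _) h 2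
    _ = 4 * S54.S0 f := by rw [mul_pow, Real.sq_sqrt h0]; norm_num

theorem norm_CE_le {f : ℝ → ℝ} (hf : Ef f) (m : ℕ) {r : ℝ} (hr : 0 ≤ r) (h : S54.S0 f ≤ r ^ 2 * cf f ^ 2) :
    ‖CE m f‖ ≤ 2 * r * cf f := by
  have h1 := norm_CE_sq hf m
  have h2 := cf_pos hf
  refine (sq_le_sq₀ (norm_nonneg _) (by positivity)).1 ?_
  nlinarith

/-! ### the displacement -/

/-- a function of `c` with bounds -/
structure Rad (κ κ' : ℝ → ℝ) (G G' : ℝ) : Prop where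
  der : ∀ c, 0 < c → HasDerivAt κ (κ' c) c
  G0 : 0 ≤ G
  G0' : 0 ≤ G'
  le : ∀ c, 0 < c → c ≤ 1 → |κ c| ≤ G
  le' : ∀ c, 0 < c → c ≤ 1 → |κ' c| ≤ G'

theorem rad_of_cont {κ κ' : ℝ → ℝ} (h : ∀ c, HasDerivAt κ (κ' c) c) (hc : Continuous κ') :
    ∃ G G', Rad κ κ' G G' := by
  have h0 : Continuous κ := continuous_iff_continuousAt.2 fun c => (h c).continuousAt
  obtain ⟨G, hG⟩ := (isCompact_Icc (a := (0 : ℝ)) (b := 1)).exists_bound_of_continuousOn h0.continuousOn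
  obtain ⟨G', hG'⟩ := (isCompact_Icc (a := (0 : ℝ)) (b := 1)).exists_bound_of_continuousOn hc.continuousOn
  have e : (1 : ℝ) ∈ Icc (0 : ℝ) 1 := ⟨zero_le_one, le_rfl⟩
  exact ⟨G, G', fun c _ => h c, (norm_nonneg _).trans (hG 1 e), (norm_nonneg _).trans (hG' 1 e),
    fun c h1 h2 => hG c ⟨h1.le, h2⟩, fun c h1 h2 => hG' c ⟨h1.le, h2⟩⟩

/-- `κ(c) ζ^a conj (ζ^b)` -/
def g8 (κ : ℝ → ℝ) (a b : ℕ) (f : ℝ → ℝ) : ℂ := ((κ (cf f) : ℝ) : ℂ) * (zf f ^ a * conj (zf f ^ b))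

def dg8 (κ κ' : ℝ → ℝ) (a b : ℕ) (f h : ℝ → ℝ) : ℂ :=
  ((κ' (cf f) * dcf f h : ℝ) : ℂ) * (zf f ^ a * conj (zf f ^ b))
    + ((κ (cf f) : ℝ) : ℂ) * ((a : ℂ) * zf f ^ (a - 1) * dzf f h * conj (zf f ^ b)
      + zf f ^ a * conj ((b : ℂ) * zf f ^ (b - 1) * dzf f h))

theorem mu_g8 {κ κ' : ℝ → ℝ} {G G' : ℝ} (H : Rad κ κ' G G') (a b : ℕ) :
    Mu (g8 κ a b) (dg8 κ κ' a b) (G * (1 * 1)) (7 * G' * (1 * 1) + G * (7 * a * 1 + 1 * (7 * b))) :=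
  (mu_rad H.der H.G0 H.G0' H.le H.le').mul ((mu_pow a).mul (mu_pow b).cj)

/-- the last six terms, before division by `c` -/
def q8 (κ : Fin 8 → ℝ → ℝ) (f : ℝ → ℝ) : ℂ :=
  g8 (κ 2) 1 0 f * (CE 3 f * conj (CE 3 f)) + g8 (κ 3) 0 5 f * (CE 3 f * CE 3 f)
    + g8 (κ 4) 7 0 f * (conj (CE 3 f) * conj (CE 3 f)) + g8 (κ 5) 0 1 f * S54.S2 f
    + g8 (κ 6) 1 0 f * ((S54.S0 f : ℝ) : ℂ) + g8 (κ 7) 3 0 f * conj (S54.S2 f)

def dq8 (κ κ' : Fin 8 → ℝ → ℝ) (f h : ℝ → ℝ) : ℂ :=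
  (dg8 (κ 2) (κ' 2) 1 0 f h * (CE 3 f * conj (CE 3 f))
      + g8 (κ 2) 1 0 f * (dCE 3 f h * conj (CE 3 f) + CE 3 f * conj (dCE 3 f h)))
    + (dg8 (κ 3) (κ' 3) 0 5 f h * (CE 3 f * CE 3 f)
      + g8 (κ 3) 0 5 f * (dCE 3 f h * CE 3 f + CE 3 f * dCE 3 f h))
    + (dg8 (κ 4) (κ' 4) 7 0 f h * (conj (CE 3 f) * conj (CE 3 f))
      + g8 (κ 4) 7 0 f * (conj (dCE 3 f h) * conj (CE 3 f) + conj (CE 3 f) * conj (dCE 3 f h)))
    + (dg8 (κ 5) (κ' 5) 0 1 f h * S54.S2 f + g8 (κ 5) 0 1 f * dS2 f h)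
    + (dg8 (κ 6) (κ' 6) 1 0 f h * ((S54.S0 f : ℝ) : ℂ) + g8 (κ 6) 1 0 f * ((dS0 f h : ℝ) : ℂ))
    + (dg8 (κ 7) (κ' 7) 3 0 f h * conj (S54.S2 f) + g8 (κ 7) 3 0 f * conj (dS2 f h))

/-- **the displacement with eight terms** -/
def xi8 (κ : Fin 8 → ℝ → ℝ) (f : ℝ → ℝ) : ℂ :=
  g8 (κ 0) 0 2 f * CE 3 f + g8 (κ 1) 4 0 f * conj (CE 3 f) + q8 κ f / (cf f : ℂ)

def dxi8 (κ κ' : Fin 8 → ℝ → ℝ) (f h : ℝ → ℝ) : ℂ :=
  (dg8 (κ 0) (κ' 0) 0 2 f h * CE 3 f + g8 (κ 0) 0 2 f * dCE 3 f h)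
    + (dg8 (κ 1) (κ' 1) 4 0 f h * conj (CE 3 f) + g8 (κ 1) 4 0 f * conj (dCE 3 f h))
    + (dq8 κ κ' f h / (cf f : ℂ) - q8 κ f * (dcf f h : ℂ) / (cf f : ℂ) ^ 2)

section eight

variable {κ κ' : Fin 8 → ℝ → ℝ} {G G' : Fin 8 → ℝ}

theorem mo_xi8 (H : ∀ j, Rad (κ j) (κ' j) (G j) (G' j)) : ∃ A B, Mo (xi8 κ) (dxi8 κ κ') A B := by
  have C := mo_CE (m := 3) (by norm_num)
  have c0 := Mo.mulf (mu_g8 (H 0) 0 2) C
  have c1 := Mo.mulf (mu_g8 (H 1) 4 0) C.cj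
  have c2 := Mo2.mulf (mu_g8 (H 2) 1 0) (C.mul C.cj)
  have c3 := Mo2.mulf (mu_g8 (H 3) 0 5) (C.mul C)
  have c4 := Mo2.mulf (mu_g8 (H 4) 7 0) (C.cj.mul C.cj)
  have c5 := Mo2.mulf (mu_g8 (H 5) 0 1) mo2_S2
  have c6 := Mo2.mulf (mu_g8 (H 6) 1 0) mo2_S0
  have c7 := Mo2.mulf (mu_g8 (H 7) 3 0) mo2_S2.cj
  have c8 := ((((c2.add c3).add c4).add c5).add c6).add c7
  exact ⟨_, _, (c0.add c1).add c8.divc⟩

theorem g8_neg (κ : ℝ → ℝ) (a b : ℕ) {f : ℝ → ℝ} (hf : Ef f) :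
    g8 κ a b (fun t => -f t) = (-1) ^ (a + b) * g8 κ a b f := by
  unfold g8
  rw [zf_neg hf, cf_neg hf, map_pow, map_pow, map_neg, neg_pow, neg_pow (conj (zf f)), pow_add]
  ring

theorem xi8_neg (κ : Fin 8 → ℝ → ℝ) {f : ℝ → ℝ} (hf : Ef f) : xi8 κ (fun t => -f t) = -xi8 κ f := by
  unfold xi8 q8
  simp only [g8_neg _ _ _ hf, CE_neg hf, S2_neg hf, S0_neg hf, cf_neg hf, map_neg]
  norm_num
  ring

/-- **an admissible displacement** -/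
theorem disp_xi8 (H : ∀ j, Rad (κ j) (κ' j) (G j) (G' j)) {A : ℝ} (hA0 : 0 ≤ A) (hA1 : A ≤ 1)
    (hle : ∀ f, Ef f → ‖xi8 κ f‖ ≤ A * cf f) : ∃ B, Disp (xi8 κ) (dxi8 κ κ') A B := by
  obtain ⟨A', B, M⟩ := mo_xi8 H
  refine ⟨B, ⟨⟨M.re, M.im, hA0, M.B0, hle, M.bd⟩, fun f hf => xi8_neg κ hf, fun f hf => ?_⟩⟩
  have h1 := hle f hf
  have h2 := cf_pos hf
  have h3 := cf_zf hf
  have h4 : ‖zf f‖ < 1 := by
    refine lt_of_pow_lt_pow_left₀ 2 zero_le_one ?_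
    rw [one_pow]
    nlinarith [pow_pos h2 2]
  have h5 : ‖xi8 κ f‖ ≤ cf f := by nlinarith
  have h6 : (conj (YY (X1 f) (X2 f)) * xi8 κ f).re ≤ ‖zf f‖ * ‖xi8 κ f‖ := by
    refine (Complex.re_le_norm _).trans (le_of_eq ?_)
    rw [norm_mul, Complex.norm_conj]
    rfl
  have h7 : ‖zf f‖ * ‖xi8 κ f‖ ≤ ‖zf f‖ * cf f := mul_le_mul_of_nonneg_left h5 (norm_nonneg _)
  have h8 : ‖zf f‖ * cf f < 1 * cf f := mul_lt_mul_of_pos_right h4 h2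
  have h9 : cf f = cc (X1 f) (X2 f) := rfl
  linarith

/-- the size of the displacement, `s = |ζ|` -/
def W8 (κ : Fin 8 → ℝ → ℝ) (q r s c : ℝ) : ℝ :=
  |κ 0 c| * s ^ 2 * q + |κ 1 c| * s ^ 4 * q
    + (|κ 2 c| * s * q ^ 2 + |κ 3 c| * s ^ 5 * q ^ 2 + |κ 4 c| * s ^ 7 * q ^ 2
      + |κ 5 c| * s * r ^ 2 + |κ 6 c| * s * r ^ 2 + |κ 7 c| * s ^ 3 * r ^ 2)

theorem norm_g8 (κ : ℝ → ℝ) (a b : ℕ) (f : ℝ → ℝ) : ‖g8 κ a b f‖ = |κ (cf f)| * ‖zf f‖ ^ (a + b) := by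
  unfold g8
  rw [norm_mul, norm_mul, Complex.norm_conj, norm_pow, norm_pow, Complex.norm_real, Real.norm_eq_abs,
    pow_add]

/-- **size of the displacement when `|C₃| ≤ q c` and `S₀ ≤ r² c²`** -/
theorem norm_xi8_le {f : ℝ → ℝ} (hf : Ef f) {q r : ℝ} (hq : 0 ≤ q) (hC : ‖CE 3 f‖ ≤ q * cf f)
    (h : S54.S0 f ≤ r ^ 2 * cf f ^ 2) : ‖xi8 κ f‖ ≤ W8 κ q r ‖zf f‖ (cf f) * cf f := by
  have hc := cf_pos hf
  have hS2 := (norm_S2_le hf).trans h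
  have hS0 : ‖((S54.S0 f : ℝ) : ℂ)‖ ≤ r ^ 2 * cf f ^ 2 := by
    rw [Complex.norm_real, Real.norm_eq_abs, abs_of_nonneg (S0_nonneg hf)]
    exact h
  have hz := norm_nonneg (zf f)
  have hC2 : ‖CE 3 f‖ * ‖CE 3 f‖ ≤ q ^ 2 * cf f ^ 2 := by
    refine (mul_le_mul hC hC (norm_nonneg _) (by positivity)).trans (le_of_eq ?_)
    ring
  have b0 : ‖g8 (κ 0) 0 2 f * CE 3 f‖ ≤ |κ 0 (cf f)| * ‖zf f‖ ^ 2 * q * cf f := by
    rw [norm_mul, norm_g8]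
    refine (mul_le_mul_of_nonneg_left hC (by positivity)).trans (le_of_eq ?_)
    ring
  have b1 : ‖g8 (κ 1) 4 0 f * conj (CE 3 f)‖ ≤ |κ 1 (cf f)| * ‖zf f‖ ^ 4 * q * cf f := by
    rw [norm_mul, norm_g8, Complex.norm_conj]
    refine (mul_le_mul_of_nonneg_left hC (by positivity)).trans (le_of_eq ?_)
    ring
  have b2 : ‖g8 (κ 2) 1 0 f * (CE 3 f * conj (CE 3 f))‖
      ≤ |κ 2 (cf f)| * ‖zf f‖ * q ^ 2 * cf f ^ 2 := by
    rw [norm_mul, norm_g8, norm_mul, Complex.norm_conj]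
    refine (mul_le_mul_of_nonneg_left hC2 (by positivity)).trans (le_of_eq ?_)
    ring
  have b3 : ‖g8 (κ 3) 0 5 f * (CE 3 f * CE 3 f)‖
      ≤ |κ 3 (cf f)| * ‖zf f‖ ^ 5 * q ^ 2 * cf f ^ 2 := by
    rw [norm_mul, norm_g8, norm_mul]
    refine (mul_le_mul_of_nonneg_left hC2 (by positivity)).trans (le_of_eq ?_)
    ring
  have b4 : ‖g8 (κ 4) 7 0 f * (conj (CE 3 f) * conj (CE 3 f))‖
      ≤ |κ 4 (cf f)| * ‖zf f‖ ^ 7 * q ^ 2 * cf f ^ 2 := by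
    rw [norm_mul, norm_g8, norm_mul, Complex.norm_conj]
    refine (mul_le_mul_of_nonneg_left hC2 (by positivity)).trans (le_of_eq ?_)
    ring
  have b5 : ‖g8 (κ 5) 0 1 f * S54.S2 f‖ ≤ |κ 5 (cf f)| * ‖zf f‖ * r ^ 2 * cf f ^ 2 := by
    rw [norm_mul, norm_g8]
    refine (mul_le_mul_of_nonneg_left hS2 (by positivity)).trans (le_of_eq ?_)
    ring
  have b6 : ‖g8 (κ 6) 1 0 f * ((S54.S0 f : ℝ) : ℂ)‖ ≤ |κ 6 (cf f)| * ‖zf f‖ * r ^ 2 * cf f ^ 2 := by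
    rw [norm_mul, norm_g8]
    refine (mul_le_mul_of_nonneg_left hS0 (by positivity)).trans (le_of_eq ?_)
    ring
  have b7 : ‖g8 (κ 7) 3 0 f * conj (S54.S2 f)‖ ≤ |κ 7 (cf f)| * ‖zf f‖ ^ 3 * r ^ 2 * cf f ^ 2 := by
    rw [norm_mul, norm_g8, Complex.norm_conj]
    refine (mul_le_mul_of_nonneg_left hS2 (by positivity)).trans (le_of_eq ?_)
    ring
  have bq : ‖q8 κ f‖ ≤ (|κ 2 (cf f)| * ‖zf f‖ * q ^ 2 + |κ 3 (cf f)| * ‖zf f‖ ^ 5 * q ^ 2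
      + |κ 4 (cf f)| * ‖zf f‖ ^ 7 * q ^ 2 + |κ 5 (cf f)| * ‖zf f‖ * r ^ 2
      + |κ 6 (cf f)| * ‖zf f‖ * r ^ 2 + |κ 7 (cf f)| * ‖zf f‖ ^ 3 * r ^ 2) * cf f ^ 2 := by
    unfold q8
    refine (norm_add_le _ _).trans ((add_le_add ((norm_add_le _ _).trans (add_le_add
      ((norm_add_le _ _).trans (add_le_add ((norm_add_le _ _).trans (add_le_add
      ((norm_add_le _ _).trans (add_le_add b2 b3)) b4)) b5)) b6)) b7).trans (le_of_eq ?_))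
    ring
  have bq2 : ‖q8 κ f / (cf f : ℂ)‖ ≤ (|κ 2 (cf f)| * ‖zf f‖ * q ^ 2
      + |κ 3 (cf f)| * ‖zf f‖ ^ 5 * q ^ 2 + |κ 4 (cf f)| * ‖zf f‖ ^ 7 * q ^ 2
      + |κ 5 (cf f)| * ‖zf f‖ * r ^ 2 + |κ 6 (cf f)| * ‖zf f‖ * r ^ 2
      + |κ 7 (cf f)| * ‖zf f‖ ^ 3 * r ^ 2) * cf f := by
    rw [norm_div, Complex.norm_real, Real.norm_eq_abs, abs_of_pos hc, div_le_iff₀ hc]
    refine bq.trans (le_of_eq ?_)
    ring
  unfold xi8 W8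
  refine (norm_add_le _ _).trans ((add_le_add ((norm_add_le _ _).trans (add_le_add b0 b1)) bq2).trans
    (le_of_eq ?_))
  ring

end eight

end Pool.Agent.FPX.XIM
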