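import Mathlib
import Pool.Agent.FPX.XID

/-
XIU (helper22): the STEREOGRAPHIC start map `F' = ((1 - |ξ|²/4) y + ξ) / (1 + |ξ|²/4)`, `y = F54 f`, `ξ` a
tangent vector at `y`.  With `P = y + ξ` of XIM and `q = |ξ|²/4`: `F' = (P - q y) / (1 + q)`.
-/

open MeasureTheory Set Filter Topology
open scoped ENNReal NNReal ComplexConjugate

noncomputable section

namespace Pool.Agent.FPX.XIM

open Real Pool.Agent.FPX.UMP Pool.Agent.FPX.UMQ Pool.Agent.FPX.UXA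
open Pool.Agent.FPX.F54 (pr X1 X2 dX1 dX2 X_lt umap)
open Pool.Agent.FPX.S54 (cc YY vt Fv)

/-- `q = |ξ|²/4` -/
def qq (a b : ℝ) : ℝ := (a ^ 2 + b ^ 2) / 4

def T1 (x y a b : ℝ) : ℝ := P1 x y a b - qq a b * x
def T2 (x y a b : ℝ) : ℝ := P2 x y a b - qq a b * y
def T3 (x y a b : ℝ) : ℝ := P3 x y a b - qq a b * cc x y

/-- derivative of `q` -/
def dq (a b a' b' : ℝ) : ℝ := (a * a' + b * b') / 2

def dT1 (x y a b x' y' a' b' : ℝ) : ℝ := dP1 x y a b x' y' a' b' - (dq a b a' b' * x + qq a b * x')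
def dT2 (x y a b x' y' a' b' : ℝ) : ℝ := dP2 x y a b x' y' a' b' - (dq a b a' b' * y + qq a b * y')
def dT3 (x y a b x' y' a' b' : ℝ) : ℝ :=
  dP3 x y a b x' y' a' b' - (dq a b a' b' * cc x y + qq a b * dc x y x' y')

theorem qq_nonneg (a b : ℝ) : 0 ≤ qq a b := by
  unfold qq
  positivity

theorem one_qq_pos (a b : ℝ) : 0 < 1 + qq a b := by
  have := qq_nonneg a b
  linarith

/-- `|T|² = (1 + q)²` -/
theorem T_sq {x y : ℝ} (h : x ^ 2 + y ^ 2 < 1) (a b : ℝ) :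
    T1 x y a b ^ 2 + T2 x y a b ^ 2 + T3 x y a b ^ 2 = (1 + qq a b) ^ 2 := by
  have h1 := P_sq h a b
  have h2 := P_dot h a b
  have h3 := NN_sq a b
  have hc := S54.cc_sq h
  unfold T1 T2 T3
  have h4 : 4 * qq a b = a ^ 2 + b ^ 2 := by
    unfold qq
    ring
  linear_combination h1 - 2 * qq a b * h2 + qq a b ^ 2 * hc + h3 - h4

/-- `⟨T, y⟩ = 1 - q` -/
theorem T_dot {x y : ℝ} (h : x ^ 2 + y ^ 2 < 1) (a b : ℝ) :
    x * T1 x y a b + y * T2 x y a b + cc x y * T3 x y a b = 1 - qq a b := by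
  have h2 := P_dot h a b
  have hc := S54.cc_sq h
  unfold T1 T2 T3
  linear_combination h2 - qq a b * hc

/-- `⟨dP, y⟩ + ⟨P, dy⟩ = 0` -/
theorem P_dy {x y : ℝ} (h : x ^ 2 + y ^ 2 < 1) (a b x' y' a' b' : ℝ) :
    (x * dP1 x y a b x' y' a' b' + y * dP2 x y a b x' y' a' b' + cc x y * dP3 x y a b x' y' a' b')
      + (x' * P1 x y a b + y' * P2 x y a b + dc x y x' y' * P3 x y a b) = 0 := by
  have hc := S54.cc_sq h
  have hc0 := S54.cc_pos h
  have hd : cc x y * dc x y x' y' = -(x * x' + y * y') := by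
    unfold dc
    field_simp
  unfold P1 P2 P3 dP1 dP2 dP3
  generalize dc x y x' y' = c' at *
  generalize cc x y = c at *
  unfold dr
  have hc1 : 1 + c ≠ 0 := by positivity
  have e1 : x * x' + y * y' + c * c' = 0 := by linarith
  have e2 : x ^ 2 + y ^ 2 + c ^ 2 - 1 = 0 := by linarith
  have e : (x * (x' + a' - (x' * (x * a + y * b)
        + x * (x' * a + x * a' + (y' * b + y * b'))) / (1 + c) + x * (x * a + y * b) * c' / (1 + c) ^ 2)
      + y * (y' + b' - (y' * (x * a + y * b)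
        + y * (x' * a + x * a' + (y' * b + y * b'))) / (1 + c) + y * (x * a + y * b) * c' / (1 + c) ^ 2)
      + c * (c' - (x' * a + x * a' + (y' * b + y * b'))))
      + (x' * (x + a - x * (x * a + y * b) / (1 + c)) + y' * (y + b - y * (x * a + y * b) / (1 + c))
        + c' * (c - (x * a + y * b)))
      = (x * x' + y * y' + c * c') * (2 - 2 * (x * a + y * b) / (1 + c))
        + (x ^ 2 + y ^ 2 + c ^ 2 - 1) * (-(x' * a + x * a' + (y' * b + y * b')) / (1 + c)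
          + (x * a + y * b) * c' / (1 + c) ^ 2) := by
    field_simp
    ring
  rw [e, e1, e2]
  ring

/-- `⟨T, dT⟩ = (1 + q) dq` -/
theorem T_dT {x y : ℝ} (h : x ^ 2 + y ^ 2 < 1) (a b x' y' a' b' : ℝ) :
    T1 x y a b * dT1 x y a b x' y' a' b' + T2 x y a b * dT2 x y a b x' y' a' b'
      + T3 x y a b * dT3 x y a b x' y' a' b' = (1 + qq a b) * dq a b a' b' := by
  have h1 := P_dP h a b x' y' a' b'
  have h2 := P_dy h a b x' y' a' b'
  have h3 := P_dot h a b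
  have hc := S54.cc_sq h
  have hc0 := S54.cc_pos h
  have hd : cc x y * dc x y x' y' = -(x * x' + y * y') := by
    unfold dc
    field_simp
  have h4 : 2 * dq a b a' b' = a * a' + b * b' := by
    unfold dq
    ring
  unfold T1 T2 T3 dT1 dT2 dT3
  linear_combination h1 - qq a b * h2 - dq a b a' b' * h3 + qq a b * dq a b a' b' * hc
    + qq a b ^ 2 * hd - h4

/-! ### continuity and derivatives -/

theorem cont_T1 : Continuous fun q : ℝ × ℝ × ℝ × ℝ =>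
    T1 q.1 q.2.1 q.2.2.1 q.2.2.2 / (1 + qq q.2.2.1 q.2.2.2) := by
  refine Continuous.div ?_ (by unfold qq; fun_prop) fun _ => (one_qq_pos _ _).ne'
  unfold T1
  exact cont_P1.sub (by unfold qq; fun_prop)

theorem cont_T2 : Continuous fun q : ℝ × ℝ × ℝ × ℝ =>
    T2 q.1 q.2.1 q.2.2.1 q.2.2.2 / (1 + qq q.2.2.1 q.2.2.2) := by
  refine Continuous.div ?_ (by unfold qq; fun_prop) fun _ => (one_qq_pos _ _).ne'
  unfold T2
  exact cont_P2.sub (by unfold qq; fun_prop)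

section deriv

variable {X Y a b : ℝ → ℝ} {X' Y' a' b' s : ℝ}

theorem der_qq (ha : HasDerivAt a a' s) (hb : HasDerivAt b b' s) :
    HasDerivAt (fun s => qq (a s) (b s)) (dq (a s) (b s) a' b') s := by
  have := ((ha.pow 2).add (hb.pow 2)).div_const 4
  refine this.congr_deriv ?_
  unfold dq
  simp
  ring

theorem der_T1 (hX : HasDerivAt X X' s) (hY : HasDerivAt Y Y' s) (ha : HasDerivAt a a' s)
    (hb : HasDerivAt b b' s) (h : X s ^ 2 + Y s ^ 2 < 1) :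
    HasDerivAt (fun s => T1 (X s) (Y s) (a s) (b s)) (dT1 (X s) (Y s) (a s) (b s) X' Y' a' b') s :=
  (der_P1 hX hY ha hb h).sub ((der_qq ha hb).mul hX)

theorem der_T2 (hX : HasDerivAt X X' s) (hY : HasDerivAt Y Y' s) (ha : HasDerivAt a a' s)
    (hb : HasDerivAt b b' s) (h : X s ^ 2 + Y s ^ 2 < 1) :
    HasDerivAt (fun s => T2 (X s) (Y s) (a s) (b s)) (dT2 (X s) (Y s) (a s) (b s) X' Y' a' b') s :=
  (der_P2 hX hY ha hb h).sub ((der_qq ha hb).mul hY)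

theorem der_T3 (hX : HasDerivAt X X' s) (hY : HasDerivAt Y Y' s) (ha : HasDerivAt a a' s)
    (hb : HasDerivAt b b' s) (h : X s ^ 2 + Y s ^ 2 < 1) :
    HasDerivAt (fun s => T3 (X s) (Y s) (a s) (b s)) (dT3 (X s) (Y s) (a s) (b s) X' Y' a' b') s :=
  (der_P3 hX hY ha hb h).sub ((der_qq ha hb).mul (S54.der_cc hX hY h))

/-- derivative of a quotient by `1 + q` -/
theorem der_quo {P : ℝ → ℝ} {P' : ℝ} (hP : HasDerivAt P P' s) (ha : HasDerivAt a a' s)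
    (hb : HasDerivAt b b' s) : HasDerivAt (fun s => P s / (1 + qq (a s) (b s)))
      (P' / (1 + qq (a s) (b s)) - P s * dq (a s) (b s) a' b' / (1 + qq (a s) (b s)) ^ 2) s := by
  have hN := one_qq_pos (a s) (b s)
  have h1 := hP.div ((der_qq ha hb).const_add 1) hN.ne'
  refine h1.congr_deriv ?_
  field_simp

end deriv

/-! ### the map -/

/-- the coordinates of the stereographic `F'` -/
def St1 (ξ : (ℝ → ℝ) → ℂ) (f : ℝ → ℝ) : ℝ :=
  T1 (X1 f) (X2 f) (ξ f).re (ξ f).im / (1 + qq (ξ f).re (ξ f).im)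
def St2 (ξ : (ℝ → ℝ) → ℂ) (f : ℝ → ℝ) : ℝ :=
  T2 (X1 f) (X2 f) (ξ f).re (ξ f).im / (1 + qq (ξ f).re (ξ f).im)
def St3 (ξ : (ℝ → ℝ) → ℂ) (f : ℝ → ℝ) : ℝ :=
  T3 (X1 f) (X2 f) (ξ f).re (ξ f).im / (1 + qq (ξ f).re (ξ f).im)

/-- their derivatives -/
def dSt1 (ξ : (ℝ → ℝ) → ℂ) (dξ : (ℝ → ℝ) → (ℝ → ℝ) → ℂ) (f h : ℝ → ℝ) : ℝ :=
  dT1 (X1 f) (X2 f) (ξ f).re (ξ f).im (dX1 f h) (dX2 f h) (dξ f h).re (dξ f h).im
      / (1 + qq (ξ f).re (ξ f).im)
    - T1 (X1 f) (X2 f) (ξ f).re (ξ f).im * dq (ξ f).re (ξ f).im (dξ f h).re (dξ f h).im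
      / (1 + qq (ξ f).re (ξ f).im) ^ 2
def dSt2 (ξ : (ℝ → ℝ) → ℂ) (dξ : (ℝ → ℝ) → (ℝ → ℝ) → ℂ) (f h : ℝ → ℝ) : ℝ :=
  dT2 (X1 f) (X2 f) (ξ f).re (ξ f).im (dX1 f h) (dX2 f h) (dξ f h).re (dξ f h).im
      / (1 + qq (ξ f).re (ξ f).im)
    - T2 (X1 f) (X2 f) (ξ f).re (ξ f).im * dq (ξ f).re (ξ f).im (dξ f h).re (dξ f h).im
      / (1 + qq (ξ f).re (ξ f).im) ^ 2
def dSt3 (ξ : (ℝ → ℝ) → ℂ) (dξ : (ℝ → ℝ) → (ℝ → ℝ) → ℂ) (f h : ℝ → ℝ) : ℝ :=
  dT3 (X1 f) (X2 f) (ξ f).re (ξ f).im (dX1 f h) (dX2 f h) (dξ f h).re (dξ f h).im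
      / (1 + qq (ξ f).re (ξ f).im)
    - T3 (X1 f) (X2 f) (ξ f).re (ξ f).im * dq (ξ f).re (ξ f).im (dξ f h).re (dξ f h).im
      / (1 + qq (ξ f).re (ξ f).im) ^ 2

theorem qq_eq (z : ℂ) : qq z.re z.im = ‖z‖ ^ 2 / 4 := by
  unfold qq
  rw [← Complex.normSq_eq_norm_sq, Complex.normSq_apply]
  ring

/-- an admissible displacement for the stereographic map -/
structure DispS (ξ : (ℝ → ℝ) → ℂ) (dξ : (ℝ → ℝ) → (ℝ → ℝ) → ℂ) (A B : ℝ) : Prop extends Mo ξ dξ A B where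
  neg : ∀ f, Ef f → ξ (fun t => -f t) = -ξ f
  pos : ∀ f, Ef f → (conj (YY (X1 f) (X2 f)) * ξ f).re < cc (X1 f) (X2 f) * (1 - ‖ξ f‖ ^ 2 / 4)

section map

variable {ξ : (ℝ → ℝ) → ℂ} {dξ : (ℝ → ℝ) → (ℝ → ℝ) → ℂ} {A B : ℝ}

/-- `|F'| = 1` -/
theorem St_sq {f : ℝ → ℝ} (hf : Ef f) : St1 ξ f ^ 2 + St2 ξ f ^ 2 + St3 ξ f ^ 2 = 1 := by
  have h := T_sq (X_lt hf) (ξ f).re (ξ f).im
  have hN := one_qq_pos (ξ f).re (ξ f).im
  unfold St1 St2 St3
  rw [div_pow, div_pow, div_pow, ← add_div, ← add_div, h]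
  field_simp

theorem St3_pos (H : DispS ξ dξ A B) {f : ℝ → ℝ} (hf : Ef f) : 0 < St3 ξ f := by
  have h := H.pos f hf
  rw [rh_eq, ← qq_eq] at h
  refine div_pos ?_ (one_qq_pos _ _)
  unfold T3 P3
  linarith

/-- `c' = T₃ / (1 + q)` -/
theorem cc_St (H : DispS ξ dξ A B) {f : ℝ → ℝ} (hf : Ef f) : cc (St1 ξ f) (St2 ξ f) = St3 ξ f := by
  have h := St_sq (ξ := ξ) hf
  have h3 := St3_pos H hf
  unfold cc
  rw [show 1 - St1 ξ f ^ 2 - St2 ξ f ^ 2 = St3 ξ f ^ 2 by linarith, Real.sqrt_sq h3.le]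

/-- `⟨F', dF'⟩ = 0` -/
theorem St_dSt {f : ℝ → ℝ} (hf : Ef f) (h : ℝ → ℝ) :
    St1 ξ f * dSt1 ξ dξ f h + St2 ξ f * dSt2 ξ dξ f h = -(St3 ξ f * dSt3 ξ dξ f h) := by
  have h1 := T_sq (X_lt hf) (ξ f).re (ξ f).im
  have h2 := T_dT (X_lt hf) (ξ f).re (ξ f).im (dX1 f h) (dX2 f h) (dξ f h).re (dξ f h).im
  have hN := one_qq_pos (ξ f).re (ξ f).im
  unfold St1 St2 St3 dSt1 dSt2 dSt3
  generalize dT1 (X1 f) (X2 f) (ξ f).re (ξ f).im (dX1 f h) (dX2 f h) (dξ f h).re (dξ f h).im = d1 at *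
  generalize dT2 (X1 f) (X2 f) (ξ f).re (ξ f).im (dX1 f h) (dX2 f h) (dξ f h).re (dξ f h).im = d2 at *
  generalize dT3 (X1 f) (X2 f) (ξ f).re (ξ f).im (dX1 f h) (dX2 f h) (dξ f h).re (dξ f h).im = d3 at *
  generalize T1 (X1 f) (X2 f) (ξ f).re (ξ f).im = p1 at *
  generalize T2 (X1 f) (X2 f) (ξ f).re (ξ f).im = p2 at *
  generalize T3 (X1 f) (X2 f) (ξ f).re (ξ f).im = p3 at *
  generalize dq (ξ f).re (ξ f).im (dξ f h).re (dξ f h).im = m at *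
  generalize 1 + qq (ξ f).re (ξ f).im = n at *
  field_simp
  linear_combination n * h2 - m * h1

/-- **bound of `dT`** -/
theorem dT_le {x y : ℝ} (h : x ^ 2 + y ^ 2 < 1) (a b x' y' a' b' : ℝ) {V E A : ℝ}
    (hV : ‖vt x y x' y'‖ ≤ V) (hE : ‖YY a' b'‖ ≤ E) (hA : ‖YY a b‖ ≤ A) :
    ‖(⟨dT1 x y a b x' y' a' b', dT2 x y a b x' y' a' b'⟩ : ℂ)‖
        ≤ V * (1 + 3 * A) + 2 * E + (A * E / 2 + A ^ 2 / 4 * V) ∧
      |dT3 x y a b x' y' a' b'| ≤ V * (1 + A) + E + (A * E / 2 + A ^ 2 / 4 * V) ∧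
      |dq a b a' b'| ≤ A * E / 2 := by
  obtain ⟨b1, b2⟩ := dP_le h a b x' y' a' b' hV hE hA
  obtain ⟨v1, v2⟩ := vel_le h x' y'
  have hV0 : 0 ≤ V := (norm_nonneg _).trans hV
  have hE0 : 0 ≤ E := (norm_nonneg _).trans hE
  have hA0 : 0 ≤ A := (norm_nonneg _).trans hA
  have hq0 := qq_nonneg a b
  have hq : qq a b ≤ A ^ 2 / 4 := by
    have h1 := norm_YY_sq a b
    have h2 := pow_le_pow_left₀ (norm_nonneg _) hA 2
    unfold qq
    linarith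
  have hm1 : |dq a b a' b'| ≤ A * E / 2 := by
    unfold dq
    rw [abs_div, abs_of_pos (by norm_num : (0 : ℝ) < 2)]
    have := (dot_le a b a' b').trans (mul_le_mul hA hE (norm_nonneg _) hA0)
    linarith
  have hz := norm_YY h
  have hcc := cc_le_one x y
  have hcc0 := cc_nonneg x y
  have g1 : ‖YY x' y'‖ ≤ V := v1.trans hV
  have g2 : |dc x y x' y'| ≤ V := v2.trans hV
  refine ⟨?_, ?_, hm1⟩
  · have e : (⟨dT1 x y a b x' y' a' b', dT2 x y a b x' y' a' b'⟩ : ℂ)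
        = (⟨dP1 x y a b x' y' a' b', dP2 x y a b x' y' a' b'⟩ : ℂ)
          - (((dq a b a' b' : ℝ) : ℂ) * YY x y + ((qq a b : ℝ) : ℂ) * YY x' y') := by
      apply Complex.ext
      · simp only [Complex.sub_re, Complex.add_re, Complex.re_ofReal_mul, YY, dT1]
      · simp only [Complex.sub_im, Complex.add_im, Complex.im_ofReal_mul, YY, dT2]
    rw [e]
    refine (norm_sub_le _ _).trans (add_le_add b1 ((norm_add_le _ _).trans (add_le_add ?_ ?_)))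
    · rw [norm_mul, Complex.norm_real, Real.norm_eq_abs]
      have := mul_le_mul hm1 hz (norm_nonneg _) (by positivity)
      linarith
    · rw [norm_mul, Complex.norm_real, Real.norm_eq_abs, abs_of_nonneg hq0]
      exact mul_le_mul hq g1 (norm_nonneg _) (by positivity)
  · unfold dT3
    refine (abs_sub _ _).trans (add_le_add b2 ((abs_add_le _ _).trans (add_le_add ?_ ?_)))
    · rw [abs_mul, abs_of_nonneg hcc0]
      have := mul_le_mul hm1 hcc hcc0 (by positivity)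
      linarith
    · rw [abs_mul, abs_of_nonneg hq0]
      exact mul_le_mul hq g2 (abs_nonneg _) (by positivity)

theorem quo_le {d1 d2 d3 p1 p2 p3 m n M U1 U3 : ℝ} (hn1 : 1 ≤ n) (hT : p1 ^ 2 + p2 ^ 2 + p3 ^ 2 = n ^ 2)
    (hm : |m| ≤ M) (e1 : ‖(⟨d1, d2⟩ : ℂ)‖ ≤ U1) (e3 : |d3| ≤ U3) :
    (d1 / n - p1 * m / n ^ 2) ^ 2 + (d2 / n - p2 * m / n ^ 2) ^ 2 + (d3 / n - p3 * m / n ^ 2) ^ 2
      ≤ (U1 + U3 + 2 * M) ^ 2 := by
  have hN : 0 < n := by linarith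
  have hM : 0 ≤ M := (abs_nonneg _).trans hm
  have hph : ‖(⟨p1, p2⟩ : ℂ)‖ ≤ n := by
    refine (sq_le_sq₀ (norm_nonneg _) hN.le).1 ?_
    have := norm_YY_sq p1 p2
    unfold YY at this
    rw [this]
    nlinarith [sq_nonneg p3]
  have hp3 : |p3| ≤ n := abs_le_of_sq_le_sq (by nlinarith [sq_nonneg p1, sq_nonneg p2]) hN.le
  have hmn : |m / n ^ 2| * n ≤ M := by
    rw [abs_div, abs_of_pos (by positivity : 0 < n ^ 2)]
    have h1 : |m| / n ^ 2 * n = |m| / n := by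
      field_simp
    rw [h1]
    exact (div_le_self (abs_nonneg _) hn1).trans hm
  have hinv : 1 / n ≤ 1 := by
    rw [div_le_one hN]
    exact hn1
  have c1 : ‖(⟨d1 / n - p1 * m / n ^ 2, d2 / n - p2 * m / n ^ 2⟩ : ℂ)‖ ≤ U1 + M := by
    have e : (⟨d1 / n - p1 * m / n ^ 2, d2 / n - p2 * m / n ^ 2⟩ : ℂ)
        = ((1 / n : ℝ) : ℂ) * ⟨d1, d2⟩ - ((m / n ^ 2 : ℝ) : ℂ) * ⟨p1, p2⟩ := by
      apply Complex.ext
      · simp only [Complex.sub_re, Complex.re_ofReal_mul]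
        ring
      · simp only [Complex.sub_im, Complex.im_ofReal_mul]
        ring
    rw [e]
    refine (norm_sub_le _ _).trans (add_le_add ?_ ?_)
    · rw [norm_mul, Complex.norm_real, Real.norm_eq_abs, abs_of_pos (by positivity : 0 < 1 / n)]
      have := mul_le_mul_of_nonneg_right hinv (norm_nonneg (⟨d1, d2⟩ : ℂ))
      linarith
    · rw [norm_mul, Complex.norm_real, Real.norm_eq_abs]
      exact (mul_le_mul_of_nonneg_left hph (abs_nonneg _)).trans hmn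
  have c2 : |d3 / n - p3 * m / n ^ 2| ≤ U3 + M := by
    have e : d3 / n - p3 * m / n ^ 2 = 1 / n * d3 - m / n ^ 2 * p3 := by ring
    rw [e]
    refine (abs_sub _ _).trans (add_le_add ?_ ?_)
    · rw [abs_mul, abs_of_pos (by positivity : 0 < 1 / n)]
      have := mul_le_mul_of_nonneg_right hinv (abs_nonneg d3)
      linarith
    · rw [abs_mul]
      exact (mul_le_mul_of_nonneg_left hp3 (abs_nonneg _)).trans hmn
  have c3 := norm_YY_sq (d1 / n - p1 * m / n ^ 2) (d2 / n - p2 * m / n ^ 2)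
  unfold YY at c3
  rw [← c3, ← sq_abs (d3 / n - p3 * m / n ^ 2)]
  have q1 := norm_nonneg (⟨d1 / n - p1 * m / n ^ 2, d2 / n - p2 * m / n ^ 2⟩ : ℂ)
  have q2 := abs_nonneg (d3 / n - p3 * m / n ^ 2)
  generalize ‖(⟨d1 / n - p1 * m / n ^ 2, d2 / n - p2 * m / n ^ 2⟩ : ℂ)‖ = u at *
  generalize |d3 / n - p3 * m / n ^ 2| = w at *
  calc u ^ 2 + w ^ 2 ≤ (u + w) ^ 2 := by nlinarith [mul_nonneg q1 q2]
    _ ≤ _ := pow_le_pow_left₀ (by positivity) (by linarith) 2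

/-- the bound of `dF'` -/
theorem dSt_le (H : DispS ξ dξ A B) {f h : ℝ → ℝ} {D : ℝ} (hf : Ef f) (hm : Measurable h) (hD : 0 ≤ D)
    (hh : ∀ t, |h t| ≤ D) : dSt1 ξ dξ f h ^ 2 + dSt2 ξ dξ f h ^ 2 + dSt3 ξ dξ f h ^ 2
      ≤ ((14 + 28 * A + 4 * A ^ 2 + 3 * B + 2 * A * B) * D) ^ 2 := by
  have hx := X_lt hf
  have hA0 := H.A0
  have hB0 := H.B0
  have hV := S54Z.vt_le hf hm hD hh
  have hE := H.bd f h D hf hm hD hh
  have hA : ‖ξ f‖ ≤ A := (H.le f hf).trans (by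
    have := mul_le_mul_of_nonneg_left (cc_le_one (X1 f) (X2 f)) hA0
    linarith)
  have hE' : ‖YY (dξ f h).re (dξ f h).im‖ ≤ B * D := by rw [YY_re_im]; exact hE
  have hA' : ‖YY (ξ f).re (ξ f).im‖ ≤ A := by rw [YY_re_im]; exact hA
  obtain ⟨e1, e3, em⟩ := dT_le hx (ξ f).re (ξ f).im (dX1 f h) (dX2 f h) (dξ f h).re (dξ f h).im hV hE' hA'
  have hn1 : 1 ≤ 1 + qq (ξ f).re (ξ f).im := by linarith [qq_nonneg (ξ f).re (ξ f).im]
  refine (quo_le hn1 (T_sq hx (ξ f).re (ξ f).im) em e1 e3).trans (pow_le_pow_left₀ (by positivity) ?_ 2)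
  have : 0 ≤ A ^ 2 * D := by positivity
  nlinarith

/-- two unit vectors near a third one -/
theorem near2 {x y c g1 g2 g3 C S A q : ℝ} (hy : x ^ 2 + y ^ 2 + c ^ 2 = 1)
    (hg : g1 ^ 2 + g2 ^ 2 + g3 ^ 2 = 1) (hCS : C ^ 2 + S ^ 2 = 1) (hA : 0 ≤ A)
    (hgy : 2 - 2 * (x * g1 + y * g2 + c * g3) ≤ (A * c) ^ 2)
    (hq : x * C + y * S = 1 - q) : 1 - (1 + A) ^ 2 * q ≤ g1 * C + g2 * S := by
  have hr : (x * C + y * S) ^ 2 ≤ x ^ 2 + y ^ 2 := by
    have := cs2 x y C S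
    rw [hCS, mul_one] at this
    exact this
  have h0 : 0 ≤ q := by
    have h1 : (x * C + y * S) ^ 2 ≤ 1 ^ 2 := by
      have := sq_nonneg c
      linarith
    have := (abs_le_of_sq_le_sq' h1 zero_le_one).2
    linarith
  have h1 : c ^ 2 ≤ 2 * q := by
    rw [hq] at hr
    have := sq_nonneg q
    linarith
  have h2 : 2 - 2 * (x * g1 + y * g2 + c * g3) ≤ A ^ 2 * (2 * q) := by
    have e3 : (A * c) ^ 2 ≤ A ^ 2 * (2 * q) := by
      rw [mul_pow]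
      exact mul_le_mul_of_nonneg_left h1 (sq_nonneg A)
    linarith
  have hu : (g1 - x) ^ 2 + (g2 - y) ^ 2 + (g3 - c) ^ 2 ≤ A ^ 2 * (2 * q) := by
    have : (g1 - x) ^ 2 + (g2 - y) ^ 2 + (g3 - c) ^ 2 = 2 - 2 * (x * g1 + y * g2 + c * g3) := by
      linear_combination hy + hg
    linarith
  have hw : (x - C) ^ 2 + (y - S) ^ 2 + c ^ 2 = 2 * q := by
    linear_combination hy + hCS - 2 * hq
  have huw : (g1 - x) * (x - C) + (g2 - y) * (y - S) + (g3 - c) * c ≤ A * (2 * q) := by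
    have cs := cs3 (g1 - x) (g2 - y) (g3 - c) (x - C) (y - S) c
    rw [hw] at cs
    have h3 := mul_le_mul_of_nonneg_right hu (by linarith : 0 ≤ 2 * q)
    have h4 : ((g1 - x) * (x - C) + (g2 - y) * (y - S) + (g3 - c) * c) ^ 2 ≤ (A * (2 * q)) ^ 2 := by
      refine cs.trans (h3.trans (le_of_eq ?_))
      ring
    exact (abs_le_of_sq_le_sq' h4 (by positivity)).2
  have h5 : (g1 - C) ^ 2 + (g2 - S) ^ 2 + g3 ^ 2 ≤ (1 + A) ^ 2 * (2 * q) := by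
    have : (g1 - C) ^ 2 + (g2 - S) ^ 2 + g3 ^ 2 = ((g1 - x) ^ 2 + (g2 - y) ^ 2 + (g3 - c) ^ 2)
        + 2 * ((g1 - x) * (x - C) + (g2 - y) * (y - S) + (g3 - c) * c)
        + ((x - C) ^ 2 + (y - S) ^ 2 + c ^ 2) := by ring
    rw [this, hw]
    linarith
  have h6 : (g1 - C) ^ 2 + (g2 - S) ^ 2 + g3 ^ 2 = 2 - 2 * (g1 * C + g2 * S) := by
    linear_combination hg + hCS
  linarith

/-- the boundary estimate -/
theorem bdryS (H : DispS ξ dξ A B) {f : ℝ → ℝ} (hf : Ef f) {s d : ℝ}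
    (h : 1 - 3 * d ≤ X1 f * cos s + X2 f * sin s) :
    1 - 3 * (1 + A) ^ 2 * d ≤ St1 ξ f * cos s + St2 ξ f * sin s := by
  have hx := X_lt hf
  have hc := S54.cc_sq hx
  have hN := one_qq_pos (ξ f).re (ξ f).im
  have hq0 := qq_nonneg (ξ f).re (ξ f).im
  have h1 := St_sq (ξ := ξ) hf
  have h2 := T_dot hx (ξ f).re (ξ f).im
  have h4 : X1 f * St1 ξ f + X2 f * St2 ξ f + cc (X1 f) (X2 f) * St3 ξ f
      = (1 - qq (ξ f).re (ξ f).im) / (1 + qq (ξ f).re (ξ f).im) := by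
    unfold St1 St2 St3
    rw [← h2]
    ring
  have h3 : 2 - 2 * (X1 f * St1 ξ f + X2 f * St2 ξ f + cc (X1 f) (X2 f) * St3 ξ f)
      ≤ (A * cc (X1 f) (X2 f)) ^ 2 := by
    rw [h4]
    have e1 : 2 - 2 * ((1 - qq (ξ f).re (ξ f).im) / (1 + qq (ξ f).re (ξ f).im))
        = 4 * qq (ξ f).re (ξ f).im / (1 + qq (ξ f).re (ξ f).im) := by
      field_simp
      ring
    rw [e1]
    refine (div_le_self (by positivity) (by linarith)).trans ?_
    rw [qq_eq]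
    have := pow_le_pow_left₀ (norm_nonneg (ξ f)) (H.le f hf) 2
    linarith
  have h5 := near2 (x := X1 f) (y := X2 f) (c := cc (X1 f) (X2 f)) (g1 := St1 ξ f) (g2 := St2 ξ f)
    (g3 := St3 ξ f) (C := cos s) (S := sin s) (A := A) (q := 1 - (X1 f * cos s + X2 f * sin s))
    (by linarith) h1 (by rw [add_comm]; exact sin_sq_add_cos_sq s) H.A0 h3 (by ring)
  have h6 : (1 + A) ^ 2 * (1 - (X1 f * cos s + X2 f * sin s)) ≤ (1 + A) ^ 2 * (3 * d) :=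
    mul_le_mul_of_nonneg_left (by linarith) (sq_nonneg _)
  linarith

theorem neg_T (x y a b : ℝ) : T1 (-x) (-y) (-a) (-b) = -T1 x y a b ∧ T2 (-x) (-y) (-a) (-b) = -T2 x y a b
    ∧ qq (-a) (-b) = qq a b := by
  obtain ⟨h1, h2, _⟩ := neg_P x y a b
  have h3 : qq (-a) (-b) = qq a b := by
    unfold qq
    rw [neg_sq, neg_sq]
  refine ⟨?_, ?_, h3⟩
  · unfold T1
    rw [h1, h3]
    ring
  · unfold T2
    rw [h2, h3]
    ring

theorem fn_St1 (H : DispS ξ dξ A B) : Fn (St1 ξ) (dSt1 ξ dξ) where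
  tds := by
    intro l φ f h1 h2 h3
    have a1 := umap.fX.tds l φ f h1 h2 h3
    have a2 := umap.fY.tds l φ f h1 h2 h3
    have a3 := H.re.tds l φ f h1 h2 h3
    have a4 := H.im.tds l φ f h1 h2 h3
    have a5 := a1.prodMk_nhds (a2.prodMk_nhds (a3.prodMk_nhds a4))
    have a6 := (cont_T1.tendsto (X1 f, X2 f, (ξ f).re, (ξ f).im)).comp a5
    exact a6
  der := by
    intro φ h x b hc hb he
    have a1 := umap.fX.der φ h x b hc hb he
    have a2 := umap.fY.der φ h x b hc hb he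
    have a3 := H.re.der φ h x b hc hb he
    have a4 := H.im.der φ h x b hc hb he
    have a5 := der_T1 a1 a2 a3 a4 (X_lt hc.ef)
    have a6 := der_quo a5 a3 a4
    exact a6

theorem fn_St2 (H : DispS ξ dξ A B) : Fn (St2 ξ) (dSt2 ξ dξ) where
  tds := by
    intro l φ f h1 h2 h3
    have a1 := umap.fX.tds l φ f h1 h2 h3
    have a2 := umap.fY.tds l φ f h1 h2 h3
    have a3 := H.re.tds l φ f h1 h2 h3
    have a4 := H.im.tds l φ f h1 h2 h3
    have a5 := a1.prodMk_nhds (a2.prodMk_nhds (a3.prodMk_nhds a4))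
    have a6 := (cont_T2.tendsto (X1 f, X2 f, (ξ f).re, (ξ f).im)).comp a5
    exact a6
  der := by
    intro φ h x b hc hb he
    have a1 := umap.fX.der φ h x b hc hb he
    have a2 := umap.fY.der φ h x b hc hb he
    have a3 := H.re.der φ h x b hc hb he
    have a4 := H.im.der φ h x b hc hb he
    have a5 := der_T2 a1 a2 a3 a4 (X_lt hc.ef)
    have a6 := der_quo a5 a3 a4
    exact a6

/-- **the stereographic `F'` is a universal map** -/
theorem DispS.umap (H : DispS ξ dξ A B) : UMap (St1 ξ) (St2 ξ) (dSt1 ξ dξ) (dSt2 ξ dξ)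
    (3 * (1 + A) ^ 2) (14 + 28 * A + 4 * A ^ 2 + 3 * B + 2 * A * B) where
  fX := fn_St1 H
  fY := fn_St2 H
  disc := fun f hf => by
    have h1 := St_sq (ξ := ξ) hf
    have h2 := St3_pos H hf
    nlinarith
  negX := fun f hf => by
    unfold St1
    rw [(F54.X_neg hf).1, (F54.X_neg hf).2, H.neg f hf, Complex.neg_re, Complex.neg_im,
      (neg_T _ _ _ _).1, (neg_T (X1 f) (X2 f) _ _).2.2, neg_div]
  negY := fun f hf => by
    unfold St2
    rw [(F54.X_neg hf).1, (F54.X_neg hf).2, H.neg f hf, Complex.neg_re, Complex.neg_im,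
      (neg_T _ _ _ _).2.1, (neg_T (X1 f) (X2 f) _ _).2.2, neg_div]
  K0 := by positivity
  L0 := by
    have := H.A0
    have := H.B0
    positivity
  bdry := fun f hf s d hup hlo => bdryS H hf (by
    have := Pool.Agent.FPX.F54.umap.bdry f hf s d hup hlo
    exact this)
  bd := fun f h D hf hm hD hh => by
    have h1 := St_sq (ξ := ξ) hf
    have h2 := St_dSt (ξ := ξ) (dξ := dξ) hf h
    have h3 := dSt_le H hf hm hD hh
    have e : 1 - St1 ξ f ^ 2 - St2 ξ f ^ 2 = St3 ξ f ^ 2 := by linarith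
    rw [e, h2]
    have := mul_le_mul_of_nonneg_left h3 (sq_nonneg (St3 ξ f))
    nlinarith

/-- the system of the two coordinates of the stereographic `F'` -/
theorem DispS.sys (H : DispS ξ dξ A B) : CST.Sys (n := 0) ![St1 ξ, St2 ξ] ![dSt1 ξ dξ, dSt2 ξ dξ]
    (3 * (1 + A) ^ 2) (14 + 28 * A + 4 * A ^ 2 + 3 * B + 2 * A * B) where
  map := H.umap
  fn := fun i => by
    fin_cases i
    exacts [H.umap.fX, H.umap.fY]
  bd := fun i => by
    fin_cases i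
    · exact fun m _ _ => ⟨_, H.umap.L0, H.umap.bX m⟩
    · exact fun m _ _ => ⟨_, H.umap.L0, H.umap.bY m⟩

end map

/-! ### instances -/

/-- odd moment of size at most `c` ⇒ admissible -/
theorem Mo.dispS {ξ : (ℝ → ℝ) → ℂ} {dξ : (ℝ → ℝ) → (ℝ → ℝ) → ℂ} {A B : ℝ} (M : Mo ξ dξ A B) (hA1 : A ≤ 1)
    (hn : ∀ f, Ef f → ξ (fun t => -f t) = -ξ f) : DispS ξ dξ A B := by
  refine ⟨M, hn, fun f hf => ?_⟩
  have hx := X_lt hf
  have h1 := M.le f hf
  have h2 := S54.cc_pos hx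
  have h3 := S54.cc_sq hx
  have h4 := norm_YY_sq (X1 f) (X2 f)
  have h5 : ‖ξ f‖ ≤ cc (X1 f) (X2 f) := by nlinarith
  have h6 : (conj (YY (X1 f) (X2 f)) * ξ f).re ≤ ‖YY (X1 f) (X2 f)‖ * cc (X1 f) (X2 f) := by
    refine (Complex.re_le_norm _).trans ?_
    rw [norm_mul, Complex.norm_conj]
    exact mul_le_mul_of_nonneg_left h5 (norm_nonneg _)
  have h7 := norm_nonneg (YY (X1 f) (X2 f))
  have h8 : ‖ξ f‖ ^ 2 ≤ cc (X1 f) (X2 f) ^ 2 := pow_le_pow_left₀ (norm_nonneg _) h5 2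
  refine h6.trans_lt ?_
  rw [mul_comm]
  refine mul_lt_mul_of_pos_left ?_ h2
  generalize cc (X1 f) (X2 f) = c at *
  generalize ‖YY (X1 f) (X2 f)‖ = s at *
  have h9 : s ≤ 1 - c ^ 2 / 2 := by
    have h10 : s ^ 2 = 1 - c ^ 2 := by linarith
    have h11 : c ^ 2 ≤ 1 := by nlinarith
    refine (sq_le_sq₀ h7 (by linarith)).1 ?_
    nlinarith [sq_nonneg (c ^ 2)]
  nlinarith [pow_pos h2 2]

/-- **the eight term displacement is admissible for the stereographic map** -/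
theorem dispS_xi8 {κ κ' : Fin 8 → ℝ → ℝ} {G G' : Fin 8 → ℝ} (H : ∀ j, Rad (κ j) (κ' j) (G j) (G' j)) {A : ℝ}
    (hA0 : 0 ≤ A) (hA1 : A ≤ 1) (hle : ∀ f, Ef f → ‖xi8 κ f‖ ≤ A * cf f) :
    ∃ B, DispS (xi8 κ) (dxi8 κ κ') A B := by
  obtain ⟨A', B, M⟩ := mo_xi8 H
  exact ⟨B, Mo.dispS ⟨M.re, M.im, hA0, M.B0, hle, M.bd⟩ hA1 fun f hf => xi8_neg κ hf⟩

end Pool.Agent.FPX.XIM
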