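import Mathlib
import Pool.Agent.FPX.XIU
import Pool.Agent.FPX.OMX
import Pool.Agent.FPX.CNU

/-
XIP (helper47): the velocity of the stereographic start map `F' = ((1 - |ξ|²/4) y + ξ) / (1 + |ξ|²/4)` of `XIU`,
`y = F54 f`, in terms of the velocity `v` of `y` and of the covariant derivative `N` of the displacement `ξ`:
`V' = (v + N + ξ²/4 conj v) / (1 + |ξ|²/4)` up to a rotation; the calculus of covariant derivatives; the deviation
(`IsDev`) of this map for every displacement whose covariant derivative is a linear form in `v`, `∇C₃`, `∇S₂`,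
`mean (δ h)`, and for the displacement with eight terms `xi8` of `XID`.
-/

open MeasureTheory Set Filter Topology Complex
open scoped ENNReal NNReal ContDiff ComplexConjugate

noncomputable section

namespace Pool.Agent.FPX.XIP

/-- the scalar product -/
def ip (a b : ℂ) : ℝ := (conj a * b).re

/-- the wedge product -/
def wd (a b : ℂ) : ℝ := (conj a * b).im

theorem ip_eq (a b : ℂ) : ip a b = a.re * b.re + a.im * b.im := by
  simp [ip]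

theorem wd_eq (a b : ℂ) : wd a b = a.re * b.im - a.im * b.re := by
  simp [wd]
  ring

/-- the horizontal part of the vector `(a, α)` of the smooth frame at `(ζ, c)` -/
def Hh (c : ℝ) (ζ a : ℂ) (α : ℝ) : ℂ := a - ζ * ((ip ζ a / (1 + c) : ℝ) : ℂ) + ζ * (α : ℂ)

/-- the vertical part of the vector `(a, α)` of the smooth frame at `(ζ, c)` -/
def Hv (c : ℝ) (ζ a : ℂ) (α : ℝ) : ℝ := α * c - ip ζ a

section Frame

variable {c : ℝ} {ζ : ℂ}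

/-- the frame is orthonormal -/
theorem H_iso (hc : 0 < c) (h : ζ.re ^ 2 + ζ.im ^ 2 + c ^ 2 = 1) (a b : ℂ) (α β : ℝ) :
    ip (Hh c ζ a α) (Hh c ζ b β) + Hv c ζ a α * Hv c ζ b β = ip a b + α * β := by
  have hc1 : 1 + c ≠ 0 := by positivity
  obtain ⟨x, y⟩ := ζ
  obtain ⟨a1, a2⟩ := a
  obtain ⟨b1, b2⟩ := b
  simp only at h
  simp only [Hh, Hv, ip_eq, Complex.add_re, Complex.add_im, Complex.sub_re, Complex.sub_im, Complex.mul_re,
    Complex.mul_im, Complex.ofReal_re, Complex.ofReal_im, mul_zero, sub_zero, zero_add]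
  field_simp
  linear_combination ((x * a1 + y * a2) * (x * b1 + y * b2) - (1 + c) * (α * (x * b1 + y * b2)
    + β * (x * a1 + y * a2)) + α * β * (1 + c) ^ 2) * h

/-- the orientation of the frame -/
theorem H_wd (hc : 0 < c) (h : ζ.re ^ 2 + ζ.im ^ 2 + c ^ 2 = 1) (a b : ℂ) (α β : ℝ) :
    wd (Hh c ζ a α) (Hh c ζ b β) = c * wd a b + α * wd ζ b - β * wd ζ a := by
  have hc1 : 1 + c ≠ 0 := by positivity
  obtain ⟨x, y⟩ := ζ
  obtain ⟨a1, a2⟩ := a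
  obtain ⟨b1, b2⟩ := b
  simp only at h
  simp only [Hh, ip_eq, wd_eq, Complex.add_re, Complex.add_im, Complex.sub_re, Complex.sub_im,
    Complex.mul_re, Complex.mul_im, Complex.ofReal_re, Complex.ofReal_im, mul_zero, sub_zero,
    zero_add]
  field_simp
  linear_combination (-(a1 * b2 - a2 * b1) * (1 + c)) * h

/-- `⟨dζ, X⟩ + ⟨ζ, dX⟩ = c ⟨X, v⟩ + ⟨ζ, N⟩` -/
theorem ip_der (hc : 0 < c) (h : ζ.re ^ 2 + ζ.im ^ 2 + c ^ 2 = 1) (v X N : ℂ) :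
    ip (v - ζ * ((ip ζ v / (1 + c) : ℝ) : ℂ)) X
        + ip ζ (N + I * ((wd ζ v / (1 + c) : ℝ) : ℂ) * X) = c * ip X v + ip ζ N := by
  have hc1 : 1 + c ≠ 0 := by positivity
  obtain ⟨x, y⟩ := ζ
  obtain ⟨v1, v2⟩ := v
  obtain ⟨X1, X2⟩ := X
  obtain ⟨n1, n2⟩ := N
  simp only at h
  simp only [ip_eq, wd_eq, Complex.add_re, Complex.add_im, Complex.sub_re, Complex.sub_im,
    Complex.mul_re, Complex.mul_im, Complex.ofReal_re, Complex.ofReal_im, Complex.I_re, Complex.I_im,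
    mul_zero, sub_zero, zero_add, zero_mul, one_mul, zero_sub]
  field_simp
  linear_combination (-(X1 * v1 + X2 * v2)) * h

/-- the derivative of the vector `(X, χ)` of the smooth frame -/
theorem H_der (hc : 0 < c) (h : ζ.re ^ 2 + ζ.im ^ 2 + c ^ 2 = 1) {v dζ X dX N : ℂ} {χ dχ dc : ℝ}
    (hζ : dζ = v - ζ * ((ip ζ v / (1 + c) : ℝ) : ℂ)) (hdc : dc = -ip ζ v)
    (hN : dX = N + I * ((wd ζ v / (1 + c) : ℝ) : ℂ) * X) :
    dX - dζ * ((ip ζ X / (1 + c) : ℝ) : ℂ)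
        - ζ * (((ip dζ X + ip ζ dX) / (1 + c) - ip ζ X * dc / (1 + c) ^ 2 : ℝ) : ℂ)
        + (dζ * (χ : ℂ) + ζ * (dχ : ℂ)) = Hh c ζ (N + χ * v) (dχ - ip X v) ∧
      dχ * c + χ * dc - (ip dζ X + ip ζ dX) = Hv c ζ (N + χ * v) (dχ - ip X v) := by
  have hc1 : 1 + c ≠ 0 := by positivity
  have e := ip_der hc h v X N
  rw [← hζ, ← hN] at e
  rw [e]
  have e2 : ip ζ (N + χ * v) = ip ζ N + χ * ip ζ v := by
    simp only [ip_eq, Complex.add_re, Complex.add_im, Complex.mul_re, Complex.mul_im, Complex.ofReal_re,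
      Complex.ofReal_im]
    ring
  have e3 : ζ * ((ip X v : ℝ) : ℂ) = v * ((ip ζ X : ℝ) : ℂ) - I * ((wd ζ v : ℝ) : ℂ) * X := by
    obtain ⟨x, y⟩ := ζ
    obtain ⟨v1, v2⟩ := v
    obtain ⟨X1, X2⟩ := X
    apply Complex.ext <;> simp [ip_eq, wd_eq] <;> ring
  constructor
  · rw [hN, hζ, hdc]
    unfold Hh
    rw [e2]
    generalize ip X v = b at *
    generalize ip ζ X = s at *
    generalize ip ζ v = p at *
    generalize wd ζ v = t at *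
    generalize ip ζ N = m at *
    have hc2 : (1 + (c : ℂ)) ≠ 0 := by exact_mod_cast hc1
    push_cast
    field_simp
    linear_combination (1 + (c : ℂ)) * e3
  · rw [hdc]
    unfold Hv
    rw [e2]
    ring

/-- the velocity of a unit vector `(X, χ)` of the frame, transported to the frame -/
def Tv (X : ℂ) (χ : ℝ) (a : ℂ) (α : ℝ) : ℂ := a - X * ((α / (1 + χ) : ℝ) : ℂ)

theorem Tv_sq {X : ℂ} {χ : ℝ} (hχ : 0 < 1 + χ) (hX : X.re ^ 2 + X.im ^ 2 + χ ^ 2 = 1) {a : ℂ} {α : ℝ}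
    (ha : ip X a + χ * α = 0) : normSq (Tv X χ a α) = normSq a + α ^ 2 := by
  have h1 : 1 + χ ≠ 0 := hχ.ne'
  obtain ⟨x, y⟩ := X
  obtain ⟨a1, a2⟩ := a
  simp only [ip_eq] at ha hX
  simp only [Tv, normSq_apply, Complex.sub_re, Complex.sub_im, Complex.mul_re, Complex.mul_im,
    Complex.ofReal_re, Complex.ofReal_im, mul_zero, sub_zero, zero_add]
  field_simp
  linear_combination α ^ 2 * hX - 2 * α * (1 + χ) * ha

theorem Tv_wd {X : ℂ} {χ : ℝ} (hχ : 0 < 1 + χ) (hX : X.re ^ 2 + X.im ^ 2 + χ ^ 2 = 1) {a b : ℂ} {α β : ℝ}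
    (ha : ip X a + χ * α = 0) (hb : ip X b + χ * β = 0) (c : ℝ) (ζ : ℂ) :
    c * wd a b + α * wd ζ b - β * wd ζ a = (χ * c - ip ζ X) * wd (Tv X χ a α) (Tv X χ b β) := by
  have h1 : 1 + χ ≠ 0 := hχ.ne'
  obtain ⟨x, y⟩ := X
  obtain ⟨a1, a2⟩ := a
  obtain ⟨b1, b2⟩ := b
  obtain ⟨z, w⟩ := ζ
  simp only [ip_eq] at ha hb hX
  -- the wedge product of the transported vectors
  have e1 : wd (Tv ⟨x, y⟩ χ ⟨a1, a2⟩ α) (Tv ⟨x, y⟩ χ ⟨b1, b2⟩ β) =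
      (a1 * b2 - a2 * b1) - (β * (a1 * y - a2 * x) + α * (x * b2 - y * b1)) / (1 + χ) := by
    simp only [Tv, wd_eq, Complex.sub_re, Complex.sub_im, Complex.mul_re, Complex.mul_im,
      Complex.ofReal_re, Complex.ofReal_im, mul_zero, sub_zero, zero_add]
    field_simp
    ring
  rw [e1]
  simp only [ip_eq, wd_eq]
  set Y := β * (a1 * y - a2 * x) + α * (x * b2 - y * b1) with hY
  have e2 : χ * Y = -(x ^ 2 + y ^ 2) * (a1 * b2 - a2 * b1) := by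
    rw [hY]
    linear_combination (a1 * y - a2 * x) * hb + (x * b2 - y * b1) * ha
  have e3 : (a1 * b2 - a2 * b1) = χ * ((a1 * b2 - a2 * b1) - Y / (1 + χ)) := by
    field_simp
    linear_combination (-(a1 * b2 - a2 * b1)) * hX + e2
  have e4 : α * (z * b2 - w * b1) - β * (z * a2 - w * a1) =
      -(z * x + w * y) * (χ * (a1 * b2 - a2 * b1) - Y) := by
    rw [hY]
    linear_combination (-(α * (z * b2 - w * b1) - β * (z * a2 - w * a1))) * hX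
      + (χ * (z * b2 - w * b1) + (x * w - y * z) * β) * ha - (χ * (z * a2 - w * a1) + (x * w - y * z) * α) * hb
  have e5 : χ * (a1 * b2 - a2 * b1) - Y = (a1 * b2 - a2 * b1) - Y / (1 + χ) := by
    field_simp
    linear_combination (a1 * b2 - a2 * b1) * hX - e2
  rw [e5] at e4
  linear_combination c * e3 + e4

end Frame


/-! ### the direction of `y + ξ` -/

section Dir

variable {c : ℝ} {ζ : ℂ}

/-- `⟨ξ, iξ⟩ = 0`: the scalar product with the derivative and with the covariant derivative -/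
theorem ip_rot (ξ N : ℂ) (t : ℝ) : ip ξ (N + I * (t : ℂ) * ξ) = ip ξ N := by
  simp only [ip_eq, Complex.add_re, Complex.add_im, Complex.mul_re, Complex.mul_im, Complex.ofReal_re,
    Complex.ofReal_im, Complex.I_re, Complex.I_im]
  ring

theorem ip_add (a b d : ℂ) : ip a (b + d) = ip a b + ip a d := by
  simp only [ip_eq, Complex.add_re, Complex.add_im]
  ring

theorem ip_smul (a b : ℂ) (r : ℝ) : ip a (b * (r : ℂ)) = r * ip a b := by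
  simp only [ip_eq, Complex.mul_re, Complex.mul_im, Complex.ofReal_re, Complex.ofReal_im]
  ring

theorem ip_smul' (a b : ℂ) (r : ℝ) : ip (a * (r : ℂ)) b = r * ip a b := by
  simp only [ip_eq, Complex.mul_re, Complex.mul_im, Complex.ofReal_re, Complex.ofReal_im]
  ring

theorem ip_self (a : ℂ) : ip a a = normSq a := by
  rw [ip_eq, normSq_apply]

/-- `1 + |ξ|²/4` -/
def qp (ξ : ℂ) : ℝ := 1 + normSq ξ / 4

theorem qp_pos (ξ : ℂ) : 0 < qp ξ := by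
  unfold qp
  have := normSq_nonneg ξ
  positivity

/-- the velocity of `((1 - |ξ|²/4) y + ξ) / (1 + |ξ|²/4)`, up to a rotation -/
def VS (ξ v N : ℂ) : ℂ := (v + N + ξ ^ 2 / 4 * conj v) / (qp ξ : ℂ)

/-- `ξ² conj v = 2 ξ ⟨ξ, v⟩ - |ξ|² v` -/
theorem sq_conj (ξ v : ℂ) : ξ ^ 2 * conj v = 2 * ξ * ((ip ξ v : ℝ) : ℂ) - ((normSq ξ : ℝ) : ℂ) * v := by
  have h1 : ((normSq ξ : ℝ) : ℂ) = ξ * conj ξ := (mul_conj ξ).symm
  have h2 : ((ip ξ v : ℝ) : ℂ) = (conj ξ * v + ξ * conj v) / 2 := by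
    unfold ip
    rw [re_eq_add_conj]
    simp
  rw [h1, h2]
  ring

/-- the stereographic map: the derivative is tangent, and its transport to the frame at `y` -/
theorem st_tv {p : ℝ} {ξ : ℂ} (hξ : p = qp ξ) (v N : ℂ) :
    ip (ξ * ((1 / p : ℝ) : ℂ)) ((N * ((1 / p : ℝ) : ℂ) - ξ * ((ip ξ N / 2 / p ^ 2 : ℝ) : ℂ))
        + ((2 / p - 1 : ℝ) : ℂ) * v) + (2 / p - 1) * (-(ip ξ N / p ^ 2) - ip (ξ * ((1 / p : ℝ) : ℂ)) v) = 0 ∧
      Tv (ξ * ((1 / p : ℝ) : ℂ)) (2 / p - 1)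
        ((N * ((1 / p : ℝ) : ℂ) - ξ * ((ip ξ N / 2 / p ^ 2 : ℝ) : ℂ)) + ((2 / p - 1 : ℝ) : ℂ) * v)
        (-(ip ξ N / p ^ 2) - ip (ξ * ((1 / p : ℝ) : ℂ)) v) = VS ξ v N := by
  have hp : 0 < p := by
    rw [hξ]
    exact qp_pos ξ
  have hp0 : p ≠ 0 := hp.ne'
  have hn : normSq ξ = 4 * (p - 1) := by
    rw [hξ]
    unfold qp
    ring
  have e1 : ip (ξ * ((1 / p : ℝ) : ℂ)) ((N * ((1 / p : ℝ) : ℂ) - ξ * ((ip ξ N / 2 / p ^ 2 : ℝ) : ℂ))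
      + ((2 / p - 1 : ℝ) : ℂ) * v) =
      1 / p * (1 / p * ip ξ N - ip ξ N / 2 / p ^ 2 * normSq ξ + (2 / p - 1) * ip ξ v) := by
    rw [ip_smul', ip_add, mul_comm ((2 / p - 1 : ℝ) : ℂ) v, ip_smul, ← ip_self]
    have : N * ((1 / p : ℝ) : ℂ) - ξ * ((ip ξ N / 2 / p ^ 2 : ℝ) : ℂ) =
        N * ((1 / p : ℝ) : ℂ) + ξ * ((-(ip ξ N / 2 / p ^ 2) : ℝ) : ℂ) := by
      push_cast
      ring
    rw [this, ip_add, ip_smul, ip_smul]
    ring
  have e4 : ξ ^ 2 / 4 * conj v = (2 * ξ * ((ip ξ v : ℝ) : ℂ) - ((4 * (p - 1) : ℝ) : ℂ) * v) / 4 := by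
    rw [div_mul_eq_mul_div, sq_conj, hn]
  constructor
  · rw [e1, ip_smul', hn]
    field_simp
    ring
  · rw [ip_smul']
    unfold Tv VS
    rw [e4, ← hξ]
    generalize ip ξ N = m
    generalize ip ξ v = l
    have h2 : (p : ℂ) ≠ 0 := by exact_mod_cast hp0
    have h3 : (-(m / p ^ 2) - 1 / p * l) / (1 + (2 / p - 1)) = -(m + l * p) / (2 * p) := by
      have h4 : 1 + (2 / p - 1) = 2 / p := by ring
      rw [h4]
      field_simp
      ring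
    rw [h3]
    push_cast
    field_simp
    ring

end Dir

/-! ### the spin calculus -/

/-- `dZ = N + s i (ζ ∧ v) / (1 + c) Z` : `N` is the covariant derivative of a quantity `Z` of spin `s` -/
def Cv (c : ℝ) (ζ v : ℂ) (s : ℤ) (Z dZ N : ℂ) : Prop :=
  dZ = N + (s : ℂ) * I * ((wd ζ v / (1 + c) : ℝ) : ℂ) * Z

namespace Cv

variable {c : ℝ} {ζ v : ℂ} {s s' : ℤ} {Z Z' dZ dZ' N N' : ℂ}

theorem spin (h : Cv c ζ v s Z dZ N) (hs : s = s') : Cv c ζ v s' Z dZ N := hs ▸ h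

theorem eq1 (h : Cv c ζ v 1 Z dZ N) : dZ = N + I * ((wd ζ v / (1 + c) : ℝ) : ℂ) * Z := by
  unfold Cv at h
  rw [h]
  push_cast
  ring

theorem add (h : Cv c ζ v s Z dZ N) (h' : Cv c ζ v s Z' dZ' N') : Cv c ζ v s (Z + Z') (dZ + dZ') (N + N') := by
  unfold Cv at *
  rw [h, h']
  ring

theorem mul (h : Cv c ζ v s Z dZ N) (h' : Cv c ζ v s' Z' dZ' N') :
    Cv c ζ v (s + s') (Z * Z') (dZ * Z' + Z * dZ') (N * Z' + Z * N') := by
  unfold Cv at *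
  rw [h, h']
  push_cast
  ring

theorem cj (h : Cv c ζ v s Z dZ N) : Cv c ζ v (-s) (conj Z) (conj dZ) (conj N) := by
  unfold Cv at *
  rw [h]
  have : conj (s : ℂ) = (s : ℂ) := by
    rw [← ofReal_intCast, conj_ofReal]
  simp only [map_add, map_mul, conj_I, conj_ofReal, this]
  push_cast
  ring

theorem real (r r' : ℝ) : Cv c ζ v 0 (r : ℂ) (r' : ℂ) (r' : ℂ) := by
  unfold Cv
  simp

theorem zeta (hc : 0 < c) (h : ζ.re ^ 2 + ζ.im ^ 2 + c ^ 2 = 1) {dζ : ℂ}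
    (hζ : dζ = v - ζ * ((ip ζ v / (1 + c) : ℝ) : ℂ)) : Cv c ζ v 1 ζ dζ (c * v) := by
  have hc1 : 1 + c ≠ 0 := by positivity
  have hc2 : (1 + (c : ℂ)) ≠ 0 := by exact_mod_cast hc1
  have e1 : ζ * conj ζ = ((1 - c ^ 2 : ℝ) : ℂ) := by
    rw [mul_conj, normSq_apply]
    congr 1
    linarith
  have e2 : ((ip ζ v : ℝ) : ℂ) + I * ((wd ζ v : ℝ) : ℂ) = conj ζ * v := by
    apply Complex.ext <;> simp [ip, wd]
  unfold Cv
  rw [hζ]
  push_cast at e1 ⊢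
  field_simp
  linear_combination (-ζ) * e2 + (-v) * e1

theorem pow (h : Cv c ζ v 1 Z dZ N) (n : ℕ) :
    Cv c ζ v n (Z ^ n) ((n : ℂ) * Z ^ (n - 1) * dZ) ((n : ℂ) * Z ^ (n - 1) * N) := by
  unfold Cv at *
  rw [h]
  rcases n with _ | n
  · simp
  · push_cast
    rw [pow_succ]
    ring

theorem divc (h : Cv c ζ v s Z dZ N) (dc : ℝ) :
    Cv c ζ v s (Z / (c : ℂ)) (dZ / (c : ℂ) - Z * (dc : ℂ) / (c : ℂ) ^ 2)
      (N / (c : ℂ) - Z * (dc : ℂ) / (c : ℂ) ^ 2) := by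
  unfold Cv at *
  rw [h]
  ring

end Cv

/-- the coefficients of `v` and `conj v` in the covariant derivative of `κ ζ^a conj ζ^b` -/
def gv (k k' c : ℝ) (ζ : ℂ) (a b : ℕ) : ℂ :=
  -(k' : ℂ) * (conj ζ / 2) * (ζ ^ a * conj (ζ ^ b)) + k * (a * ζ ^ (a - 1) * c * conj (ζ ^ b))

def gw (k k' c : ℝ) (ζ : ℂ) (a b : ℕ) : ℂ :=
  -(k' : ℂ) * (ζ / 2) * (ζ ^ a * conj (ζ ^ b)) + k * (ζ ^ a * conj (b * ζ ^ (b - 1)) * c)

theorem ip_cx (ζ v : ℂ) : ((ip ζ v : ℝ) : ℂ) = (conj ζ * v + ζ * conj v) / 2 := by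
  unfold ip
  rw [re_eq_add_conj]
  simp

theorem cv_g (k k' c : ℝ) (ζ v dζ : ℂ) (hc : 0 < c) (h : ζ.re ^ 2 + ζ.im ^ 2 + c ^ 2 = 1)
    (hζ : dζ = v - ζ * ((ip ζ v / (1 + c) : ℝ) : ℂ)) (a b : ℕ) :
    Cv c ζ v ((a : ℤ) - b) ((k : ℂ) * (ζ ^ a * conj (ζ ^ b)))
      (((k' * -ip ζ v : ℝ) : ℂ) * (ζ ^ a * conj (ζ ^ b))
        + (k : ℂ) * ((a : ℂ) * ζ ^ (a - 1) * dζ * conj (ζ ^ b) + ζ ^ a * conj ((b : ℂ) * ζ ^ (b - 1) * dζ)))
      (gv k k' c ζ a b * v + gw k k' c ζ a b * conj v) := by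
  have z := Cv.zeta hc h hζ
  have H := (Cv.real (c := c) (ζ := ζ) (v := v) k (k' * -ip ζ v)).mul ((z.pow a).mul (z.pow b).cj)
  have e : ((k' * -ip ζ v : ℝ) : ℂ) * (ζ ^ a * conj (ζ ^ b))
      + (k : ℂ) * ((a : ℂ) * ζ ^ (a - 1) * (c * v) * conj (ζ ^ b)
        + ζ ^ a * conj ((b : ℂ) * ζ ^ (b - 1) * (c * v)))
      = gv k k' c ζ a b * v + gw k k' c ζ a b * conj v := by
    unfold gv gw
    push_cast
    rw [ip_cx]
    simp only [map_mul, conj_ofReal]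
    ring
  rw [← e]
  exact H.spin (by ring)

/-! ### the velocities in the coordinates of the disc -/

section Coord

open Pool.Agent.FPX.CST

variable {n : ℕ} {u p q : Fin (n + 2) → ℝ}

theorem vel_vv (u p : Fin (n + 2) → ℝ) : CNU.vel (CST.cc u) (zt u) (zt p) = CST.vv u p := by
  have h : (conj (zt u) * zt p).re = ss u p := by
    simp [zt, ss, Complex.mul_re]
  unfold CNU.vel CST.vv hh
  rw [h, mul_comm (zt u), div_eq_mul_one_div]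

/-- `ν = 2 |B|²` -/
theorem dev_eq (a b : ℂ) : (normSq a + normSq b) / 2 - (conj a * b).im = 2 * ‖(a + I * b) / 2‖ ^ 2 := by
  rw [← Complex.normSq_eq_norm_sq]
  simp only [Complex.normSq_apply, Complex.mul_im, Complex.mul_re, Complex.conj_re, Complex.conj_im,
    Complex.div_ofNat_re, Complex.div_ofNat_im, Complex.add_re, Complex.add_im, Complex.I_re, Complex.I_im]
  ring

theorem nu_dev (u p q : Fin (n + 2) → ℝ) : nu u p q = 2 * ‖(vv u p + I * vv u q) / 2‖ ^ 2 := dev_eq _ _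

theorem ja_dev (u p q : Fin (n + 2) → ℝ) :
    ja u p q = ‖(vv u p - I * vv u q) / 2‖ ^ 2 - ‖(vv u p + I * vv u q) / 2‖ ^ 2 := pol3 _ _

/-- **the velocities of a unit vector `(X, χ)` of the smooth frame at `(ζ, c)`** -/
theorem unit_vv {c : ℝ} {ζ X : ℂ} {χ : ℝ} (hc : 0 < c) (h : ζ.re ^ 2 + ζ.im ^ 2 + c ^ 2 = 1)
    (hX : X.re ^ 2 + X.im ^ 2 + χ ^ 2 = 1) (hχ : 0 < 1 + χ) (hpos : 0 < Hv c ζ X χ) (hu : zt u = Hh c ζ X χ)
    {a b : ℂ} {α β : ℝ} (ha : ip X a + χ * α = 0) (hb : ip X b + χ * β = 0) (hp : zt p = Hh c ζ a α)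
    (hq : zt q = Hh c ζ b β) :
    normSq (vv u p) = normSq (Tv X χ a α) ∧ ja u p q = wd (Tv X χ a α) (Tv X χ b β) := by
  have e0 := H_iso hc h X X χ χ
  rw [ip_eq, ip_eq] at e0
  have e1 : (zt u).re ^ 2 + (zt u).im ^ 2 + Hv c ζ X χ ^ 2 = 1 := by
    rw [hu]
    linarith
  have e2 : CST.cc u = Hv c ζ X χ := by
    unfold CST.cc
    have : 1 - CST.rr u = Hv c ζ X χ ^ 2 := by
      have e3 : CST.rr u = (zt u).re ^ 2 + (zt u).im ^ 2 := rfl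
      rw [e3]
      linarith
    rw [this, Real.sqrt_sq hpos.le]
  constructor
  · rw [← vel_vv, e2, CNU.vel_sq hpos e1]
    have i1 := H_iso hc h X a χ α
    rw [ha] at i1
    rw [← hu, ← hp, ip_eq] at i1
    have i2 : ((zt u).re * (zt p).re + (zt u).im * (zt p).im) / Hv c ζ X χ = -Hv c ζ a α := by
      rw [div_eq_iff hpos.ne']
      linarith
    rw [i2, Tv_sq hχ hX ha]
    have i3 := H_iso hc h a a α α
    rw [← hp, ip_eq, ip_self] at i3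
    linarith
  · unfold ja
    rw [← vel_vv, ← vel_vv, e2, CNU.vel_wedge hpos e1, div_eq_iff hpos.ne']
    have i1 := H_wd hc h a b α β
    rw [Tv_wd hχ hX ha hb c ζ, ← hp, ← hq] at i1
    have i2 : (conj (zt p) * zt q).im = wd (zt p) (zt q) := rfl
    rw [i2, i1]
    unfold Hv
    ring

end Coord

/-! ### the displaced map -/

open Pool.Agent.FPX.UMP Pool.Agent.FPX.UMQ Pool.Agent.FPX.UXA Pool.Agent.EWD
open Pool.Agent.FPX.F54 (X1 X2 dX1 dX2 X_lt vF sF)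
open Pool.Agent.FPX.S54 (YY vt Fv mS dS2 dS0)
open Pool.Agent.FPX.CST (cu du nu ja zt vv)
open Pool.Agent.FPX.OMS (cF cF_eq Aa Ba)
open Pool.Agent.FPX.SYS (CE dCE K2 K0)
open Pool.Agent.FPX.OM7 (NC NS cd D5 L3 IsDev Dev)
open Pool.Agent.FPX.XIM (zf cf dzf dcf cf_pos St1 St2 dSt1 dSt2 T1 T2 dT1 dT2 dq P1 P2 dP1 dP2 dr DispS
  g8 dg8 q8 dq8 xi8 dxi8)

theorem zf_sq {f : ℝ → ℝ} (hf : Ef f) : (zf f).re ^ 2 + (zf f).im ^ 2 + cf f ^ 2 = 1 := by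
  have h2 := S54.cc_sq (X_lt hf)
  unfold cf
  rw [h2]
  change X1 f ^ 2 + X2 f ^ 2 + _ = 1
  ring

/-- `⟨ζ, v⟩ = ⟨ζ, dζ⟩ / c` -/
theorem ip_vF {f : ℝ → ℝ} (hf : Ef f) (h : ℝ → ℝ) :
    ip (zf f) (vF f h) = (X1 f * dX1 f h + X2 f * dX2 f h) / cf f := by
  have h2 := zf_sq hf
  have hc := cf_pos hf
  have e : vF f h = vt (X1 f) (X2 f) (dX1 f h) (dX2 f h) := rfl
  rw [e, ip_eq]
  unfold vt
  change X1 f * (dX1 f h + X1 f * (X1 f * dX1 f h + X2 f * dX2 f h) / (cf f * (1 + cf f)))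
    + X2 f * (dX2 f h + X2 f * (X1 f * dX1 f h + X2 f * dX2 f h) / (cf f * (1 + cf f))) = _
  change X1 f ^ 2 + X2 f ^ 2 + cf f ^ 2 = 1 at h2
  field_simp
  linear_combination (X1 f * dX1 f h + X2 f * dX2 f h) * h2

theorem dzf_eq {f : ℝ → ℝ} (hf : Ef f) (h : ℝ → ℝ) :
    dzf f h = vF f h - zf f * ((ip (zf f) (vF f h) / (1 + cf f) : ℝ) : ℂ) := by
  have hc := cf_pos hf
  rw [ip_vF hf]
  have e : vF f h = vt (X1 f) (X2 f) (dX1 f h) (dX2 f h) := rfl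
  rw [e]
  apply Complex.ext
  · rw [Complex.sub_re, Complex.re_mul_ofReal]
    change dX1 f h = (dX1 f h + X1 f * (X1 f * dX1 f h + X2 f * dX2 f h) / (cf f * (1 + cf f)))
      - X1 f * ((X1 f * dX1 f h + X2 f * dX2 f h) / cf f / (1 + cf f))
    field_simp
    ring
  · rw [Complex.sub_im, Complex.im_mul_ofReal]
    change dX2 f h = (dX2 f h + X2 f * (X1 f * dX1 f h + X2 f * dX2 f h) / (cf f * (1 + cf f)))
      - X2 f * ((X1 f * dX1 f h + X2 f * dX2 f h) / cf f / (1 + cf f))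
    field_simp
    ring

theorem dcf_eq {f : ℝ → ℝ} (hf : Ef f) (h : ℝ → ℝ) : dcf f h = -ip (zf f) (vF f h) := by
  rw [ip_vF hf]
  rfl

section Map

variable {ξ : (ℝ → ℝ) → ℂ} {dξ : (ℝ → ℝ) → (ℝ → ℝ) → ℂ}

theorem qp_eq (z : ℂ) : qp z = 1 + (z.re ^ 2 + z.im ^ 2) / 4 := by
  unfold qp
  rw [normSq_apply]
  ring

/-- the value of the displaced map in the frame -/
theorem zt_St (ξ : (ℝ → ℝ) → ℂ) (f : ℝ → ℝ) {p : ℝ} (hp : p = qp (ξ f)) :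
    zt (n := 0) (cu (n := 0) ![St1 ξ, St2 ξ] f) = Hh (cf f) (zf f) (ξ f * ((1 / p : ℝ) : ℂ))
      (2 / p - 1) := by
  have hp' : p = 1 + ((ξ f).re ^ 2 + (ξ f).im ^ 2) / 4 := by rw [hp, qp_eq]
  have hp0 : p ≠ 0 := by
    rw [hp]
    exact (qp_pos _).ne'
  have hc : 1 + cf f ≠ 0 := by
    have := XIM.cc_nonneg (X1 f) (X2 f)
    change 0 ≤ cf f at this
    positivity
  have hp2 : ((ξ f).re ^ 2 + (ξ f).im ^ 2) / 4 = p - 1 := by
    rw [hp']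
    ring
  apply Complex.ext
  · change St1 ξ f = _
    unfold St1 Hh T1 P1 XIM.qq
    rw [ip_eq]
    simp only [Complex.add_re, Complex.sub_re, Complex.re_mul_ofReal, Complex.im_mul_ofReal]
    change (X1 f + (ξ f).re - X1 f * (X1 f * (ξ f).re + X2 f * (ξ f).im) / (1 + cf f)
        - ((ξ f).re ^ 2 + (ξ f).im ^ 2) / 4 * X1 f) / (1 + ((ξ f).re ^ 2 + (ξ f).im ^ 2) / 4) =
      (ξ f).re * (1 / p) - X1 f * ((X1 f * ((ξ f).re * (1 / p)) + X2 f * ((ξ f).im * (1 / p))) / (1 + cf f))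
        + X1 f * (2 / p - 1)
    rw [hp2, add_sub_cancel]
    field_simp
    ring
  · change St2 ξ f = _
    unfold St2 Hh T2 P2 XIM.qq
    rw [ip_eq]
    simp only [Complex.add_im, Complex.sub_im, Complex.re_mul_ofReal, Complex.im_mul_ofReal]
    change (X2 f + (ξ f).im - X2 f * (X1 f * (ξ f).re + X2 f * (ξ f).im) / (1 + cf f)
        - ((ξ f).re ^ 2 + (ξ f).im ^ 2) / 4 * X2 f) / (1 + ((ξ f).re ^ 2 + (ξ f).im ^ 2) / 4) =
      (ξ f).im * (1 / p) - X2 f * ((X1 f * ((ξ f).re * (1 / p)) + X2 f * ((ξ f).im * (1 / p))) / (1 + cf f))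
        + X2 f * (2 / p - 1)
    rw [hp2, add_sub_cancel]
    field_simp
    ring

/-- the derivative of the displaced map in the frame -/
theorem zt_dSt {f : ℝ → ℝ} (hf : Ef f) (h : ℝ → ℝ) {N : ℂ}
    (hN : dξ f h = N + I * ((wd (zf f) (vF f h) / (1 + cf f) : ℝ) : ℂ) * ξ f) {p : ℝ}
    (hp : p = qp (ξ f)) :
    zt (n := 0) (du (n := 0) ![dSt1 ξ dξ, dSt2 ξ dξ] f h) = Hh (cf f) (zf f)
      ((N * ((1 / p : ℝ) : ℂ) - ξ f * ((ip (ξ f) N / 2 / p ^ 2 : ℝ) : ℂ)) + ((2 / p - 1 : ℝ) : ℂ) * vF f h)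
      (-(ip (ξ f) N / p ^ 2) - ip (ξ f * ((1 / p : ℝ) : ℂ)) (vF f h)) := by
  have hc := cf_pos hf
  have hsq := zf_sq hf
  have hp' : p = 1 + ((ξ f).re ^ 2 + (ξ f).im ^ 2) / 4 := by rw [hp, qp_eq]
  have hp0 : p ≠ 0 := by
    rw [hp]
    exact (qp_pos _).ne'
  have hm : ip (ξ f) N = ip (ξ f) (dξ f h) := by
    rw [hN]
    exact (ip_rot _ _ _).symm
  have hN' : dξ f h * ((1 / p : ℝ) : ℂ) - ξ f * ((ip (ξ f) N / 2 / p ^ 2 : ℝ) : ℂ) =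
      (N * ((1 / p : ℝ) : ℂ) - ξ f * ((ip (ξ f) N / 2 / p ^ 2 : ℝ) : ℂ))
        + I * ((wd (zf f) (vF f h) / (1 + cf f) : ℝ) : ℂ) * (ξ f * ((1 / p : ℝ) : ℂ)) := by
    rw [hN]
    ring
  have e := (H_der (X := ξ f * ((1 / p : ℝ) : ℂ)) (χ := 2 / p - 1) (dχ := -(ip (ξ f) N / p ^ 2)) hc hsq
    (dzf_eq hf h) (dcf_eq hf h) hN').1
  rw [← e, hm]
  clear e hN' hm hN hsq
  have hc1 : 1 + cf f ≠ 0 := by positivity
  apply Complex.ext
  · change dSt1 ξ dξ f h = _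
    unfold dSt1 dT1 T1 dP1 P1 dr dq XIM.qq
    simp only [ip_eq, Complex.add_re, Complex.sub_re, Complex.sub_im, Complex.re_mul_ofReal,
      Complex.im_mul_ofReal]
    change (dX1 f h + (dξ f h).re - (dX1 f h * (X1 f * (ξ f).re + X2 f * (ξ f).im) + X1 f *
        (dX1 f h * (ξ f).re + X1 f * (dξ f h).re + (dX2 f h * (ξ f).im + X2 f * (dξ f h).im))) / (1 + cf f)
        + X1 f * (X1 f * (ξ f).re + X2 f * (ξ f).im) * dcf f h / (1 + cf f) ^ 2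
        - (((ξ f).re * (dξ f h).re + (ξ f).im * (dξ f h).im) / 2 * X1 f + (((ξ f).re ^ 2 + (ξ f).im ^ 2) / 4) * dX1 f h))
        / (1 + (((ξ f).re ^ 2 + (ξ f).im ^ 2) / 4))
        - (X1 f + (ξ f).re - X1 f * (X1 f * (ξ f).re + X2 f * (ξ f).im) / (1 + cf f) - (((ξ f).re ^ 2 + (ξ f).im ^ 2) / 4) * X1 f)
          * (((ξ f).re * (dξ f h).re + (ξ f).im * (dξ f h).im) / 2) / (1 + (((ξ f).re ^ 2 + (ξ f).im ^ 2) / 4)) ^ 2 =
      (dξ f h).re * (1 / p) - (ξ f).re * (((ξ f).re * (dξ f h).re + (ξ f).im * (dξ f h).im) / 2 / p ^ 2)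
        - dX1 f h * ((X1 f * ((ξ f).re * (1 / p)) + X2 f * ((ξ f).im * (1 / p))) / (1 + cf f))
        - X1 f * ((dX1 f h * ((ξ f).re * (1 / p)) + dX2 f h * ((ξ f).im * (1 / p))
          + (X1 f * ((dξ f h).re * (1 / p) - (ξ f).re * (((ξ f).re * (dξ f h).re + (ξ f).im * (dξ f h).im) / 2 / p ^ 2))
          + X2 f * ((dξ f h).im * (1 / p) - (ξ f).im * (((ξ f).re * (dξ f h).re + (ξ f).im * (dξ f h).im) / 2 / p ^ 2)))) / (1 + cf f)
          - (X1 f * ((ξ f).re * (1 / p)) + X2 f * ((ξ f).im * (1 / p))) * dcf f h / (1 + cf f) ^ 2)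
        + (dX1 f h * (2 / p - 1) + X1 f * -(((ξ f).re * (dξ f h).re + (ξ f).im * (dξ f h).im) / p ^ 2))
    have hp2 : ((ξ f).re ^ 2 + (ξ f).im ^ 2) / 4 = p - 1 := by
      rw [hp']
      ring
    rw [hp2, add_sub_cancel]
    generalize X1 f = x
    generalize X2 f = y
    generalize dX1 f h = x'
    generalize dX2 f h = y'
    generalize dcf f h = c'
    generalize cf f = c at *
    generalize (ξ f).re = a
    generalize (ξ f).im = b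
    generalize (dξ f h).re = a'
    generalize (dξ f h).im = b'
    field_simp
    ring
  · change dSt2 ξ dξ f h = _
    unfold dSt2 dT2 T2 dP2 P2 dr dq XIM.qq
    simp only [ip_eq, Complex.add_im, Complex.sub_re, Complex.sub_im, Complex.re_mul_ofReal,
      Complex.im_mul_ofReal]
    change (dX2 f h + (dξ f h).im - (dX2 f h * (X1 f * (ξ f).re + X2 f * (ξ f).im) + X2 f *
        (dX1 f h * (ξ f).re + X1 f * (dξ f h).re + (dX2 f h * (ξ f).im + X2 f * (dξ f h).im))) / (1 + cf f)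
        + X2 f * (X1 f * (ξ f).re + X2 f * (ξ f).im) * dcf f h / (1 + cf f) ^ 2
        - (((ξ f).re * (dξ f h).re + (ξ f).im * (dξ f h).im) / 2 * X2 f + (((ξ f).re ^ 2 + (ξ f).im ^ 2) / 4) * dX2 f h))
        / (1 + (((ξ f).re ^ 2 + (ξ f).im ^ 2) / 4))
        - (X2 f + (ξ f).im - X2 f * (X1 f * (ξ f).re + X2 f * (ξ f).im) / (1 + cf f) - (((ξ f).re ^ 2 + (ξ f).im ^ 2) / 4) * X2 f)
          * (((ξ f).re * (dξ f h).re + (ξ f).im * (dξ f h).im) / 2) / (1 + (((ξ f).re ^ 2 + (ξ f).im ^ 2) / 4)) ^ 2 =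
      (dξ f h).im * (1 / p) - (ξ f).im * (((ξ f).re * (dξ f h).re + (ξ f).im * (dξ f h).im) / 2 / p ^ 2)
        - dX2 f h * ((X1 f * ((ξ f).re * (1 / p)) + X2 f * ((ξ f).im * (1 / p))) / (1 + cf f))
        - X2 f * ((dX1 f h * ((ξ f).re * (1 / p)) + dX2 f h * ((ξ f).im * (1 / p))
          + (X1 f * ((dξ f h).re * (1 / p) - (ξ f).re * (((ξ f).re * (dξ f h).re + (ξ f).im * (dξ f h).im) / 2 / p ^ 2))
          + X2 f * ((dξ f h).im * (1 / p) - (ξ f).im * (((ξ f).re * (dξ f h).re + (ξ f).im * (dξ f h).im) / 2 / p ^ 2)))) / (1 + cf f)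
          - (X1 f * ((ξ f).re * (1 / p)) + X2 f * ((ξ f).im * (1 / p))) * dcf f h / (1 + cf f) ^ 2)
        + (dX2 f h * (2 / p - 1) + X2 f * -(((ξ f).re * (dξ f h).re + (ξ f).im * (dξ f h).im) / p ^ 2))
    have hp2 : ((ξ f).re ^ 2 + (ξ f).im ^ 2) / 4 = p - 1 := by
      rw [hp']
      ring
    rw [hp2, add_sub_cancel]
    generalize X1 f = x
    generalize X2 f = y
    generalize dX1 f h = x'
    generalize dX2 f h = y'
    generalize dcf f h = c'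
    generalize cf f = c at *
    generalize (ξ f).re = a
    generalize (ξ f).im = b
    generalize (dξ f h).re = a'
    generalize (dξ f h).im = b'
    field_simp
    ring

/-- **the velocities of the stereographic map** -/
theorem st_vv {f : ℝ → ℝ} (hf : Ef f) (hpos : (conj (YY (X1 f) (X2 f)) * ξ f).re <
      S54.cc (X1 f) (X2 f) * (1 - ‖ξ f‖ ^ 2 / 4)) {h k : ℝ → ℝ} {N M : ℂ}
    (hN : dξ f h = N + I * ((wd (zf f) (vF f h) / (1 + cf f) : ℝ) : ℂ) * ξ f)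
    (hM : dξ f k = M + I * ((wd (zf f) (vF f k) / (1 + cf f) : ℝ) : ℂ) * ξ f) :
    normSq (vv (n := 0) (cu (n := 0) ![St1 ξ, St2 ξ] f) (du (n := 0) ![dSt1 ξ dξ, dSt2 ξ dξ] f h)) =
        normSq (VS (ξ f) (vF f h) N) ∧
      ja (n := 0) (cu (n := 0) ![St1 ξ, St2 ξ] f) (du (n := 0) ![dSt1 ξ dξ, dSt2 ξ dξ] f h)
        (du (n := 0) ![dSt1 ξ dξ, dSt2 ξ dξ] f k) = wd (VS (ξ f) (vF f h) N) (VS (ξ f) (vF f k) M) := by
  have hc := cf_pos hf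
  have hsq := zf_sq hf
  obtain ⟨p, hp⟩ : ∃ p, p = qp (ξ f) := ⟨_, rfl⟩
  have hp0 : 0 < p := by
    rw [hp]
    exact qp_pos _
  have hn : normSq (ξ f) = 4 * (p - 1) := by
    rw [hp]
    unfold qp
    ring
  obtain ⟨t1, t2⟩ := st_tv hp (vF f h) N
  obtain ⟨t3, t4⟩ := st_tv hp (vF f k) M
  have hX : (ξ f * ((1 / p : ℝ) : ℂ)).re ^ 2 + (ξ f * ((1 / p : ℝ) : ℂ)).im ^ 2 + (2 / p - 1) ^ 2 = 1 := by
    rw [Complex.re_mul_ofReal, Complex.im_mul_ofReal]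
    rw [normSq_apply] at hn
    field_simp
    linarith
  have hv : 0 < Hv (cf f) (zf f) (ξ f * ((1 / p : ℝ) : ℂ)) (2 / p - 1) := by
    unfold Hv
    rw [ip_smul]
    rw [← Complex.normSq_eq_norm_sq, hn] at hpos
    have h1 : 0 < 1 / p * (cf f * (2 - p) - ip (zf f) (ξ f)) := by
      refine mul_pos (by positivity) (sub_pos.2 ?_)
      have e : cf f * (2 - p) = S54.cc (X1 f) (X2 f) * (1 - 4 * (p - 1) / 4) := by
        change _ = cf f * _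
        ring
      rw [e]
      exact hpos
    have h2 : (2 / p - 1) * cf f - 1 / p * ip (zf f) (ξ f) = 1 / p * (cf f * (2 - p) - ip (zf f) (ξ f)) := by
      field_simp
    rw [h2]
    exact h1
  have hχ : 0 < 1 + (2 / p - 1) := by
    have : 1 + (2 / p - 1) = 2 / p := by ring
    rw [this]
    positivity
  have key := unit_vv hc hsq hX hχ hv (zt_St ξ f hp) t1 t3 (zt_dSt hf h hN hp) (zt_dSt hf k hM hp)
  rw [t2, t4] at key
  exact key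

end Map

/-! ### the covariant derivatives of the moments -/

theorem cv_C3 {f : ℝ → ℝ} (hf : Ef f) (h : ℝ → ℝ) :
    Cv (cf f) (zf f) (vF f h) 3 (CE 3 f) (dCE 3 f h) (NC f h) := by
  have hc := cf_pos hf
  have hc1 : (cf f : ℂ) ≠ 0 := Complex.ofReal_ne_zero.2 hc.ne'
  have hc2 : (1 + (cf f : ℂ)) ≠ 0 := by
    have : (1 + cf f) ≠ 0 := by positivity
    exact_mod_cast this
  have e := SYS.dCE_three hf h
  unfold Cv
  rw [e]
  unfold NC cd L3 D5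
  rw [← cF_eq]
  change _ + conj (vF f h) * (5 * conj (zf f) * CE 5 f / (4 * (cf f : ℂ))) + 3 * I *
      (((wd (zf f) (vF f h)) * (1 / (1 + cf f) - 1 / (2 * cf f)) : ℝ) : ℂ) * CE 3 f =
    (_ + conj (vF f h) * (5 * conj (zf f) * CE 5 f / (4 * (cf f : ℂ))) -
      ((3 : ℝ) : ℂ) * I * ((wd (zf f) (vF f h) / (2 * cf f) : ℝ) : ℂ) * CE 3 f)
      + ((3 : ℤ) : ℂ) * I * ((wd (zf f) (vF f h) / (1 + cf f) : ℝ) : ℂ) * CE 3 f
  push_cast
  field_simp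
  ring

theorem cv_S2 {f : ℝ → ℝ} (hf : Ef f) (h : ℝ → ℝ) :
    Cv (cf f) (zf f) (vF f h) 2 (S54.S2 f) (dS2 f h) (NS f h) := by
  have hc := cf_pos hf
  have hc1 : (cf f : ℂ) ≠ 0 := Complex.ofReal_ne_zero.2 hc.ne'
  have hc2 : (1 + (cf f : ℂ)) ≠ 0 := by
    have : (1 + cf f) ≠ 0 := by positivity
    exact_mod_cast this
  unfold Cv
  rw [SYS.dS2_rel]
  unfold NS cd
  rw [← cF_eq]
  change _ + conj (vF f h) * mS f + 2 * I *
      (((wd (zf f) (vF f h)) * (1 / (1 + cf f) - 1 / (2 * cf f)) : ℝ) : ℂ) * S54.S2 f =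
    (_ + conj (vF f h) * mS f - ((2 : ℝ) : ℂ) * I * ((wd (zf f) (vF f h) / (2 * cf f) : ℝ) : ℂ) * S54.S2 f)
      + ((2 : ℤ) : ℂ) * I * ((wd (zf f) (vF f h) / (1 + cf f) : ℝ) : ℂ) * S54.S2 f
  push_cast
  field_simp
  ring

/-- the derivative of `S₀` -/
def N0 (f h : ℝ → ℝ) : ℂ := ((K0 f h : ℝ) : ℂ)
  + (conj (zf f) * S54.S2 f * conj (vF f h) + zf f * conj (S54.S2 f) * vF f h) / (2 * (cf f : ℂ))

theorem cv_S0 (f h : ℝ → ℝ) :
    Cv (cf f) (zf f) (vF f h) 0 ((S54.S0 f : ℝ) : ℂ) ((dS0 f h : ℝ) : ℂ) (N0 f h) := by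
  have e : ((dS0 f h : ℝ) : ℂ) = N0 f h := by
    rw [SYS.dS0_rel]
    unfold N0
    change ((K0 f h + 1 / cf f * (conj (zf f * vF f h) * S54.S2 f).re : ℝ) : ℂ) = _
    push_cast
    rw [re_eq_add_conj]
    simp only [map_mul, Complex.conj_conj]
    ring
  unfold Cv
  rw [e]
  push_cast
  ring

theorem cv_g8 {f : ℝ → ℝ} (hf : Ef f) (h : ℝ → ℝ) (κ κ' : ℝ → ℝ) (a b : ℕ) :
    Cv (cf f) (zf f) (vF f h) ((a : ℤ) - b) (g8 κ a b f) (dg8 κ κ' a b f h)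
      (gv (κ (cf f)) (κ' (cf f)) (cf f) (zf f) a b * vF f h
        + gw (κ (cf f)) (κ' (cf f)) (cf f) (zf f) a b * conj (vF f h)) := by
  have := cv_g (κ (cf f)) (κ' (cf f)) (cf f) (zf f) (vF f h) (dzf f h) (cf_pos hf) (zf_sq hf) (dzf_eq hf h) a b
  rw [← dcf_eq hf h] at this
  exact this

/-! ### linear forms -/

/-- a linear form in seven variables -/
def L7 (l : Fin 7 → ℂ) (x0 x1 x2 x3 x4 x5 x6 : ℂ) : ℂ :=
  l 0 * x0 + l 1 * x1 + l 2 * x2 + l 3 * x3 + l 4 * x4 + l 5 * x5 + l 6 * x6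

/-- the covariant derivative with the coefficients `l` -/
def Nf (l : (ℝ → ℝ) → Fin 7 → ℂ) (f h : ℝ → ℝ) : ℂ :=
  L7 (l f) (vF f h) (conj (vF f h)) (NC f h) (conj (NC f h)) (NS f h) (conj (NS f h)) ((K0 f h : ℝ) : ℂ)

/-- the part of type `conj K` -/
def Np (l : (ℝ → ℝ) → Fin 7 → ℂ) (f : ℝ → ℝ) (A B N M S R D : ℂ) : ℂ :=
  L7 (l f) A (conj B) N (conj M) S (conj R) (conj D)

/-- the part of type `K` -/
def Nm (l : (ℝ → ℝ) → Fin 7 → ℂ) (f : ℝ → ℝ) (A B N M S R D : ℂ) : ℂ :=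
  L7 (l f) B (conj A) M (conj N) R (conj S) D

theorem Nf_pm (l : (ℝ → ℝ) → Fin 7 → ℂ) (f h k : ℝ → ℝ) :
    (Nf l f h - I * Nf l f k) / 2 = Np l f (Aa f h k) (Ba f h k) ((NC f h - I * NC f k) / 2)
        ((NC f h + I * NC f k) / 2) ((NS f h - I * NS f k) / 2) ((NS f h + I * NS f k) / 2)
        ((((K0 f h : ℝ) : ℂ) + I * ((K0 f k : ℝ) : ℂ)) / 2) ∧
      (Nf l f h + I * Nf l f k) / 2 = Nm l f (Aa f h k) (Ba f h k) ((NC f h - I * NC f k) / 2)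
        ((NC f h + I * NC f k) / 2) ((NS f h - I * NS f k) / 2) ((NS f h + I * NS f k) / 2)
        ((((K0 f h : ℝ) : ℂ) + I * ((K0 f k : ℝ) : ℂ)) / 2) := by
  have c2 : conj (2 : ℂ) = 2 := map_ofNat _ 2
  unfold Nf Np Nm L7 Aa Ba
  simp only [map_div₀, map_add, map_sub, map_mul, conj_I, c2, Complex.conj_ofReal]
  constructor <;> ring

/-- the covariant derivative of the displacement `ξ` has the coefficients `l` -/
def HasL (ξ : (ℝ → ℝ) → ℂ) (dξ : (ℝ → ℝ) → (ℝ → ℝ) → ℂ) (l : (ℝ → ℝ) → Fin 7 → ℂ) : Prop :=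
  ∀ f h, Ef f → Cv (cf f) (zf f) (vF f h) 1 (ξ f) (dξ f h) (Nf l f h)

/-- the deviation of the stereographic map -/
def Bst (ξ : (ℝ → ℝ) → ℂ) (l : (ℝ → ℝ) → Fin 7 → ℂ) : Dev := fun f A B N M S R D =>
  (B + Nm l f A B N M S R D + ξ f ^ 2 / 4 * conj A) / (qp (ξ f) : ℂ)

/-- the other part of the derivative of the stereographic map -/
def Ast (ξ : (ℝ → ℝ) → ℂ) (l : (ℝ → ℝ) → Fin 7 → ℂ) : Dev := fun f A B N M S R D =>
  (A + Np l f A B N M S R D + ξ f ^ 2 / 4 * conj B) / (qp (ξ f) : ℂ)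

section Dev

variable {ξ : (ℝ → ℝ) → ℂ} {dξ : (ℝ → ℝ) → (ℝ → ℝ) → ℂ} {l : (ℝ → ℝ) → Fin 7 → ℂ}

theorem VS_pm (f h k : ℝ → ℝ) :
    (VS (ξ f) (vF f h) (Nf l f h) - I * VS (ξ f) (vF f k) (Nf l f k)) / 2 =
        Ast ξ l f (Aa f h k) (Ba f h k) ((NC f h - I * NC f k) / 2) ((NC f h + I * NC f k) / 2)
          ((NS f h - I * NS f k) / 2) ((NS f h + I * NS f k) / 2)
          ((((K0 f h : ℝ) : ℂ) + I * ((K0 f k : ℝ) : ℂ)) / 2) ∧
      (VS (ξ f) (vF f h) (Nf l f h) + I * VS (ξ f) (vF f k) (Nf l f k)) / 2 =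
        Bst ξ l f (Aa f h k) (Ba f h k) ((NC f h - I * NC f k) / 2) ((NC f h + I * NC f k) / 2)
          ((NS f h - I * NS f k) / 2) ((NS f h + I * NS f k) / 2)
          ((((K0 f h : ℝ) : ℂ) + I * ((K0 f k : ℝ) : ℂ)) / 2) := by
  obtain ⟨e1, e2⟩ := Nf_pm l f h k
  have c2 : conj (2 : ℂ) = 2 := map_ofNat _ 2
  unfold Ast Bst
  rw [← e1, ← e2]
  unfold VS Aa Ba
  simp only [map_div₀, map_add, map_sub, map_mul, conj_I, c2]
  constructor <;> ring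

/-- **the deviation of the stereographic map** -/
theorem isDev_st {A' B' : ℝ} (DS : DispS ξ dξ A' B') (H : HasL ξ dξ l) :
    IsDev (n' := 0) ![St1 ξ, St2 ξ] ![dSt1 ξ dξ, dSt2 ξ dξ] (Bst ξ l) := by
  intro f h k hf V
  have k1 := st_vv hf (DS.pos f hf) (H f h hf).eq1 (H f k hf).eq1
  have k2 := st_vv hf (DS.pos f hf) (H f k hf).eq1 (H f h hf).eq1
  unfold nu
  rw [k1.1, k2.1, k1.2]
  have e := dev_eq (VS (ξ f) (vF f h) (Nf l f h)) (VS (ξ f) (vF f k) (Nf l f k))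
  unfold wd
  rw [e, (VS_pm f h k).2]

/-- the Jacobian of the stereographic map -/
theorem jac_st {A' B' : ℝ} (DS : DispS ξ dξ A' B') (H : HasL ξ dξ l) {f : ℝ → ℝ} (hf : Ef f)
    (h k : ℝ → ℝ) :
    ja (n := 0) (cu (n := 0) ![St1 ξ, St2 ξ] f) (du (n := 0) ![dSt1 ξ dξ, dSt2 ξ dξ] f h)
        (du (n := 0) ![dSt1 ξ dξ, dSt2 ξ dξ] f k) =
      ‖Ast ξ l f (Aa f h k) (Ba f h k) ((NC f h - I * NC f k) / 2) ((NC f h + I * NC f k) / 2)
          ((NS f h - I * NS f k) / 2) ((NS f h + I * NS f k) / 2)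
          ((((K0 f h : ℝ) : ℂ) + I * ((K0 f k : ℝ) : ℂ)) / 2)‖ ^ 2 -
      ‖Bst ξ l f (Aa f h k) (Ba f h k) ((NC f h - I * NC f k) / 2) ((NC f h + I * NC f k) / 2)
          ((NS f h - I * NS f k) / 2) ((NS f h + I * NS f k) / 2)
          ((((K0 f h : ℝ) : ℂ) + I * ((K0 f k : ℝ) : ℂ)) / 2)‖ ^ 2 := by
  have k1 := st_vv hf (DS.pos f hf) (H f h hf).eq1 (H f k hf).eq1
  rw [k1.2, ← (VS_pm f h k).1, ← (VS_pm f h k).2]
  exact CST.pol3 _ _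

/-- the norm of the deviation part of the velocities, for every map with deviation `Bx` -/
theorem nrm_dev {n' : ℕ} {Φ' : Fin (n' + 2) → (ℝ → ℝ) → ℝ} {dΦ' : Fin (n' + 2) → (ℝ → ℝ) → (ℝ → ℝ) → ℝ}
    {Bx : Dev} (HD : IsDev Φ' dΦ' Bx) {f h k : ℝ → ℝ} (hf : Ef f) (V : Var h k) :
    ‖(vv (cu Φ' f) (du dΦ' f h) + I * vv (cu Φ' f) (du dΦ' f k)) / 2‖ =
      ‖Bx f (Aa f h k) (Ba f h k) ((NC f h - I * NC f k) / 2) ((NC f h + I * NC f k) / 2)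
        ((NS f h - I * NS f k) / 2) ((NS f h + I * NS f k) / 2)
        ((((K0 f h : ℝ) : ℂ) + I * ((K0 f k : ℝ) : ℂ)) / 2)‖ := by
  have h1 := HD f h k hf V
  rw [nu_dev] at h1
  exact (pow_left_inj₀ (norm_nonneg _) (norm_nonneg _) two_ne_zero).1 (by linarith)

end Dev

/-! ### the displacement with eight terms -/

/-- the coefficients of the covariant derivative of `κ(c) ζ^a conj ζ^b` -/
def gv8 (κ κ' : ℝ → ℝ) (a b : ℕ) (f : ℝ → ℝ) : ℂ := gv (κ (cf f)) (κ' (cf f)) (cf f) (zf f) a b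

def gw8 (κ κ' : ℝ → ℝ) (a b : ℕ) (f : ℝ → ℝ) : ℂ := gw (κ (cf f)) (κ' (cf f)) (cf f) (zf f) a b

/-- the coefficients of the covariant derivative of `xi8` -/
def l8 (κ κ' : Fin 8 → ℝ → ℝ) (f : ℝ → ℝ) : Fin 7 → ℂ := ![
  gv8 (κ 0) (κ' 0) 0 2 f * CE 3 f + gv8 (κ 1) (κ' 1) 4 0 f * conj (CE 3 f)
    + (gv8 (κ 2) (κ' 2) 1 0 f * (CE 3 f * conj (CE 3 f)) + gv8 (κ 3) (κ' 3) 0 5 f * (CE 3 f * CE 3 f)
      + gv8 (κ 4) (κ' 4) 7 0 f * (conj (CE 3 f) * conj (CE 3 f)) + gv8 (κ 5) (κ' 5) 0 1 f * S54.S2 f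
      + gv8 (κ 6) (κ' 6) 1 0 f * ((S54.S0 f : ℝ) : ℂ) + gv8 (κ 7) (κ' 7) 3 0 f * conj (S54.S2 f)
      + g8 (κ 6) 1 0 f * (zf f * conj (S54.S2 f) / (2 * (cf f : ℂ)))) / (cf f : ℂ)
    + q8 κ f * (conj (zf f) / 2) / (cf f : ℂ) ^ 2,
  gw8 (κ 0) (κ' 0) 0 2 f * CE 3 f + gw8 (κ 1) (κ' 1) 4 0 f * conj (CE 3 f)
    + (gw8 (κ 2) (κ' 2) 1 0 f * (CE 3 f * conj (CE 3 f)) + gw8 (κ 3) (κ' 3) 0 5 f * (CE 3 f * CE 3 f)
      + gw8 (κ 4) (κ' 4) 7 0 f * (conj (CE 3 f) * conj (CE 3 f)) + gw8 (κ 5) (κ' 5) 0 1 f * S54.S2 f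
      + gw8 (κ 6) (κ' 6) 1 0 f * ((S54.S0 f : ℝ) : ℂ) + gw8 (κ 7) (κ' 7) 3 0 f * conj (S54.S2 f)
      + g8 (κ 6) 1 0 f * (conj (zf f) * S54.S2 f / (2 * (cf f : ℂ)))) / (cf f : ℂ)
    + q8 κ f * (zf f / 2) / (cf f : ℂ) ^ 2,
  g8 (κ 0) 0 2 f + (g8 (κ 2) 1 0 f * conj (CE 3 f) + 2 * g8 (κ 3) 0 5 f * CE 3 f) / (cf f : ℂ),
  g8 (κ 1) 4 0 f + (g8 (κ 2) 1 0 f * CE 3 f + 2 * g8 (κ 4) 7 0 f * conj (CE 3 f)) / (cf f : ℂ),
  g8 (κ 5) 0 1 f / (cf f : ℂ),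
  g8 (κ 7) 3 0 f / (cf f : ℂ),
  g8 (κ 6) 1 0 f / (cf f : ℂ)]

/-- **the covariant derivative of `xi8`** -/
theorem hasL_xi8 (κ κ' : Fin 8 → ℝ → ℝ) : HasL (xi8 κ) (dxi8 κ κ') (l8 κ κ') := by
  intro f h hf
  have hc := cf_pos hf
  have hc1 : (cf f : ℂ) ≠ 0 := Complex.ofReal_ne_zero.2 hc.ne'
  have C := cv_C3 hf h
  have S := cv_S2 hf h
  have S0 := cv_S0 f h
  have t0 := ((cv_g8 hf h (κ 0) (κ' 0) 0 2).mul C).spin (s' := 1) (by norm_num)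
  have t1 := ((cv_g8 hf h (κ 1) (κ' 1) 4 0).mul C.cj).spin (s' := 1) (by norm_num)
  have t2 := ((cv_g8 hf h (κ 2) (κ' 2) 1 0).mul (C.mul C.cj)).spin (s' := 1) (by norm_num)
  have t3 := ((cv_g8 hf h (κ 3) (κ' 3) 0 5).mul (C.mul C)).spin (s' := 1) (by norm_num)
  have t4 := ((cv_g8 hf h (κ 4) (κ' 4) 7 0).mul (C.cj.mul C.cj)).spin (s' := 1) (by norm_num)
  have t5 := ((cv_g8 hf h (κ 5) (κ' 5) 0 1).mul S).spin (s' := 1) (by norm_num)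
  have t6 := ((cv_g8 hf h (κ 6) (κ' 6) 1 0).mul S0).spin (s' := 1) (by norm_num)
  have t7 := ((cv_g8 hf h (κ 7) (κ' 7) 3 0).mul S.cj).spin (s' := 1) (by norm_num)
  have tq := ((((t2.add t3).add t4).add t5).add t6).add t7
  have t := (t0.add t1).add (tq.divc (dcf f h))
  unfold Cv at t ⊢
  have e : dxi8 κ κ' f h = _ := t
  rw [e]
  congr 1
  rw [dcf_eq hf h]
  clear e t tq t0 t1 t2 t3 t4 t5 t6 t7 C S S0
  unfold Nf L7 l8 N0 q8 gv8 gw8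
  rw [Complex.ofReal_neg, ip_cx]
  simp only [Matrix.cons_val]
  generalize gv (κ 0 (cf f)) (κ' 0 (cf f)) (cf f) (zf f) 0 2 = v0
  generalize gw (κ 0 (cf f)) (κ' 0 (cf f)) (cf f) (zf f) 0 2 = w0
  generalize gv (κ 1 (cf f)) (κ' 1 (cf f)) (cf f) (zf f) 4 0 = v1
  generalize gw (κ 1 (cf f)) (κ' 1 (cf f)) (cf f) (zf f) 4 0 = w1
  generalize gv (κ 2 (cf f)) (κ' 2 (cf f)) (cf f) (zf f) 1 0 = v2
  generalize gw (κ 2 (cf f)) (κ' 2 (cf f)) (cf f) (zf f) 1 0 = w2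
  generalize gv (κ 3 (cf f)) (κ' 3 (cf f)) (cf f) (zf f) 0 5 = v3
  generalize gw (κ 3 (cf f)) (κ' 3 (cf f)) (cf f) (zf f) 0 5 = w3
  generalize gv (κ 4 (cf f)) (κ' 4 (cf f)) (cf f) (zf f) 7 0 = v4
  generalize gw (κ 4 (cf f)) (κ' 4 (cf f)) (cf f) (zf f) 7 0 = w4
  generalize gv (κ 5 (cf f)) (κ' 5 (cf f)) (cf f) (zf f) 0 1 = v5
  generalize gw (κ 5 (cf f)) (κ' 5 (cf f)) (cf f) (zf f) 0 1 = w5
  generalize gv (κ 6 (cf f)) (κ' 6 (cf f)) (cf f) (zf f) 1 0 = v6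
  generalize gw (κ 6 (cf f)) (κ' 6 (cf f)) (cf f) (zf f) 1 0 = w6
  generalize gv (κ 7 (cf f)) (κ' 7 (cf f)) (cf f) (zf f) 3 0 = v7
  generalize gw (κ 7 (cf f)) (κ' 7 (cf f)) (cf f) (zf f) 3 0 = w7
  generalize g8 (κ 0) 0 2 f = g0
  generalize g8 (κ 1) 4 0 f = g1
  generalize g8 (κ 2) 1 0 f = g2
  generalize g8 (κ 3) 0 5 f = g3
  generalize g8 (κ 4) 7 0 f = g4
  generalize g8 (κ 5) 0 1 f = g5
  generalize g8 (κ 6) 1 0 f = g6
  generalize g8 (κ 7) 3 0 f = g7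
  generalize conj (CE 3 f) = cb
  generalize CE 3 f = cx
  generalize conj (S54.S2 f) = sb
  generalize S54.S2 f = sx
  generalize ((S54.S0 f : ℝ) : ℂ) = s0
  generalize conj (vF f h) = vb
  generalize vF f h = v
  generalize conj (NC f h) = nb
  generalize NC f h = nx
  generalize conj (NS f h) = mb
  generalize NS f h = mx
  generalize ((K0 f h : ℝ) : ℂ) = k0
  generalize conj (zf f) = zb
  generalize zf f = z
  generalize (cf f : ℂ) = c at *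
  field_simp
  ring

/-- the deviation of the stereographic map of `xi8` -/
def B8 (κ κ' : Fin 8 → ℝ → ℝ) : Dev := Bst (xi8 κ) (l8 κ κ')

/-- the other part of the derivative of the stereographic map of `xi8` -/
def A8 (κ κ' : Fin 8 → ℝ → ℝ) : Dev := Ast (xi8 κ) (l8 κ κ')

/-- **the deviation of the stereographic start map with eight terms** -/
theorem isDev_xi8 {κ κ' : Fin 8 → ℝ → ℝ} {A' B' : ℝ} (DS : DispS (xi8 κ) (dxi8 κ κ') A' B') :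
    IsDev (n' := 0) ![St1 (xi8 κ), St2 (xi8 κ)] ![dSt1 (xi8 κ) (dxi8 κ κ'), dSt2 (xi8 κ) (dxi8 κ κ')]
      (B8 κ κ') :=
  isDev_st DS (hasL_xi8 κ κ')

end Pool.Agent.FPX.XIP
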