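import Mathlib
import Pool.Agent.FPX.XIP
import Pool.Agent.FPX.BTL
import Pool.Agent.FPX.BTM

/-
XIQ (helper47): the deviation of the stereographic start map with eight terms: rotation covariance, real frame
(the list `Psi8` and the vector `u8` of helper15's class `C9`), a priori bounds.
-/

open MeasureTheory Set Filter Topology Complex
open scoped ENNReal NNReal ContDiff ComplexConjugate

noncomputable section

namespace Pool.Agent.FPX.XIP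

open Pool.Agent.FPX Pool.Agent.FPX.UMP Pool.Agent.FPX.UMQ Pool.Agent.FPX.UXA Pool.Agent.EWD
open Pool.Agent.FPX.F54 (X1 X2 X_lt sF)
open Pool.Agent.FPX.S54 (YY)
open Pool.Agent.FPX.OMS (rF cF cF_eq)
open Pool.Agent.FPX.SYS (CE)
open Pool.Agent.FPX.OM7 (Rot RotDev Dev)
open Pool.Agent.FPX.XIM (zf cf cf_pos xi8 q8 g8 dxi8)

/-! ### rotations -/

section Rot

variable {f f' : ℝ → ℝ} {φ r : ℝ} {u : ℂ}

theorem rot_u0 (R : Rot f f' φ r u) : u ≠ 0 := fun h => by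
  have := R.uu
  rw [h, zero_mul] at this
  exact zero_ne_one this

theorem rot_cu (R : Rot f f' φ r u) : conj u = u⁻¹ :=
  eq_inv_of_mul_eq_one_right R.uu

theorem rot_zf (R : Rot f f' φ r u) : zf f = u * zf f' := R.ze

theorem rot_cf (R : Rot f f' φ r u) : cf f = cf f' := by
  have e : ∀ g, cf g = cF g := fun g => cF_eq g
  rw [e, e, R.cc]

theorem rot_g8 (R : Rot f f' φ r u) (κ : ℝ → ℝ) (a b : ℕ) :
    g8 κ a b f = u ^ a * (u⁻¹) ^ b * g8 κ a b f' := by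
  unfold g8
  rw [rot_zf R, rot_cf R]
  simp only [map_pow, map_mul, rot_cu R]
  ring

theorem rot_xi8 (R : Rot f f' φ r u) (κ : Fin 8 → ℝ → ℝ) : xi8 κ f = u * xi8 κ f' := by
  have hu := rot_u0 R
  have hc : (cf f' : ℂ) ≠ 0 := Complex.ofReal_ne_zero.2 (cf_pos R.hf').ne'
  unfold xi8 q8
  rw [R.ce, R.s2, R.s0, rot_cf R]
  simp only [rot_g8 R, map_pow, map_mul, rot_cu R]
  field_simp


theorem rot_gv8 (R : Rot f f' φ r u) (κ κ' : ℝ → ℝ) (a b : ℕ) :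
    gv8 κ κ' a b f = u ^ a * (u⁻¹) ^ (b + 1) * gv8 κ κ' a b f' := by
  have hu := rot_u0 R
  unfold gv8 gv
  rw [rot_zf R, rot_cf R]
  simp only [map_pow, map_mul, rot_cu R]
  rcases a with _ | n
  · simp only [pow_zero, Nat.cast_zero, zero_mul, mul_zero, add_zero, one_mul, pow_succ]
    ring
  · have e : u ^ (n + 1) * u⁻¹ ^ (b + 1) = u ^ n * u⁻¹ ^ b := by
      rw [pow_succ, pow_succ]
      field_simp
    rw [e]
    have e2 : u⁻¹ * (u ^ (n + 1)) = u ^ n := by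
      rw [pow_succ]
      field_simp
    simp only [Nat.add_sub_cancel]
    have e3 : (u * zf f') ^ (n + 1) = u ^ (n + 1) * zf f' ^ (n + 1) := mul_pow _ _ _
    have e4 : (u * zf f') ^ n = u ^ n * zf f' ^ n := mul_pow _ _ _
    have e5 : (u⁻¹ * conj (zf f')) ^ b = u⁻¹ ^ b * conj (zf f') ^ b := mul_pow _ _ _
    rw [e3, e4, e5]
    linear_combination (-((κ' (cf f') : ℝ) : ℂ) * (conj (zf f') / 2) * (zf f' ^ (n + 1))
      * (u⁻¹ ^ b * conj (zf f') ^ b)) * e2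

theorem rot_gw8 (R : Rot f f' φ r u) (κ κ' : ℝ → ℝ) (a b : ℕ) :
    gw8 κ κ' a b f = u ^ (a + 1) * (u⁻¹) ^ b * gw8 κ κ' a b f' := by
  have hu := rot_u0 R
  unfold gw8 gw
  rw [rot_zf R, rot_cf R]
  have cN : ∀ n : ℕ, conj (n : ℂ) = (n : ℂ) := fun n => Complex.conj_natCast n
  simp only [map_pow, map_mul, rot_cu R, cN]
  rcases b with _ | n
  · simp only [pow_zero, Nat.cast_zero, zero_mul, mul_zero, add_zero, mul_one, pow_succ]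
    ring
  · have e : u ^ (a + 1) * u⁻¹ ^ (n + 1) = u ^ a * u⁻¹ ^ n := by
      rw [pow_succ, pow_succ]
      field_simp
    rw [e]
    have e2 : u * (u⁻¹ ^ (n + 1)) = u⁻¹ ^ n := by
      rw [pow_succ]
      field_simp
    simp only [Nat.add_sub_cancel]
    have e3 : (u⁻¹ * conj (zf f')) ^ (n + 1) = u⁻¹ ^ (n + 1) * conj (zf f') ^ (n + 1) := mul_pow _ _ _
    have e4 : (u⁻¹ * conj (zf f')) ^ n = u⁻¹ ^ n * conj (zf f') ^ n := mul_pow _ _ _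
    have e5 : (u * zf f') ^ a = u ^ a * zf f' ^ a := mul_pow _ _ _
    rw [e3, e4, e5]
    linear_combination (-((κ' (cf f') : ℝ) : ℂ) * (zf f' / 2) * (conj (zf f') ^ (n + 1))
      * (u ^ a * zf f' ^ a)) * e2

theorem rot_l8 (R : Rot f f' φ r u) (κ κ' : Fin 8 → ℝ → ℝ) :
    l8 κ κ' f 0 = l8 κ κ' f' 0 ∧ l8 κ κ' f 1 = u ^ 2 * l8 κ κ' f' 1 ∧ l8 κ κ' f 2 = u⁻¹ ^ 2 * l8 κ κ' f' 2 ∧
      l8 κ κ' f 3 = u ^ 4 * l8 κ κ' f' 3 ∧ l8 κ κ' f 4 = u⁻¹ * l8 κ κ' f' 4 ∧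
      l8 κ κ' f 5 = u ^ 3 * l8 κ κ' f' 5 ∧ l8 κ κ' f 6 = u * l8 κ κ' f' 6 := by
  have hu := rot_u0 R
  have hc : (cf f' : ℂ) ≠ 0 := Complex.ofReal_ne_zero.2 (cf_pos R.hf').ne'
  unfold l8 q8
  simp only [Matrix.cons_val_zero, Matrix.cons_val_one, Matrix.cons_val]
  rw [R.ce, R.s2, R.s0, rot_cf R, rot_zf R]
  simp only [rot_g8 R, rot_gv8 R, rot_gw8 R, map_pow, map_mul, rot_cu R, Nat.reduceAdd, zero_add, inv_pow]
  refine ⟨?_, ?_, ?_, ?_, ?_, ?_, ?_⟩ <;> field_simp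

/-- the part of type `K`, rotated -/
theorem rot_Nm (R : Rot f f' φ r u) (κ κ' : Fin 8 → ℝ → ℝ) (A B N M S T D : ℂ) :
    Nm (l8 κ κ') f (u * A) (u * B) (u ^ 3 * N) (u ^ 3 * M) (u ^ 2 * S) (u ^ 2 * T) D =
      u * Nm (l8 κ κ') f' A B N M S T D := by
  have hu := rot_u0 R
  obtain ⟨h0, h1, h2, h3, h4, h5, h6⟩ := rot_l8 R κ κ'
  unfold Nm L7
  rw [h0, h1, h2, h3, h4, h5, h6]
  simp only [map_pow, map_mul, rot_cu R]
  field_simp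

/-- **rotation covariance of the deviation of the stereographic map** -/
theorem rotDev_B8 (κ κ' : Fin 8 → ℝ → ℝ) : RotDev (B8 κ κ') := by
  intro f f' φ r u R A B N M S T D
  have hu := rot_u0 R
  unfold B8 Bst
  rw [rot_Nm R, rot_xi8 R]
  have e : qp (u * xi8 κ f') = qp (xi8 κ f') := by
    unfold qp
    rw [map_mul, Complex.normSq_eq_norm_sq u, R.un, one_pow, one_mul]
  have e2 : (u * xi8 κ f') ^ 2 / 4 * conj (u * A) = u * (xi8 κ f' ^ 2 / 4 * conj A) := by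
    rw [map_mul, rot_cu R]
    field_simp
  rw [e, e2]
  have e3 : (u * B + u * Nm (l8 κ κ') f' A B N M S T D + u * (xi8 κ f' ^ 2 / 4 * conj A)) / (qp (xi8 κ f') : ℂ)
      = u * ((B + Nm (l8 κ κ') f' A B N M S T D + xi8 κ f' ^ 2 / 4 * conj A) / (qp (xi8 κ f') : ℂ)) := by
    ring
  rw [e3, R.nn1]

end Rot

end Pool.Agent.FPX.XIP

namespace Pool.Agent.FPX.BTI

open Pool.Agent.FPX.BTG (Sta Cls mo aK bK dev)
open Pool.Agent.FPX.BTN (va e1 nf ef bw)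
open Pool.Agent.FPX.UMP (Ef)
open Pool.Agent.FPX.UMQ
open Pool.Agent.FPX.F54 (X1 X2 X_lt)
open Pool.Agent.FPX.OMS (rF cF cF_eq)
open Pool.Agent.FPX.CERQ (xT)
open Pool.Agent.FPX.SYS (CE)
open Pool.Agent.FPX.OMR (Re)
open Pool.Agent.FPX.XIM (zf cf cf_pos xi8 q8 g8 dxi8)
open Pool.Agent.FPX.XIP

/-! ### the list of the terms and the coefficients -/

/-- the coefficients `κ_j` of the start map: `κ₂, κ₅, κ₆` are divisible by `s² = 1 - c²` -/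
def kap (k : Fin 8 → ℝ → ℝ) : Fin 8 → ℝ → ℝ :=
  ![k 0, k 1, fun c => (1 - c ^ 2) * k 2 c, k 3, k 4, fun c => (1 - c ^ 2) * k 5 c,
    fun c => (1 - c ^ 2) * k 6 c, k 7]

/-- their derivatives -/
def dkap (k k' : Fin 8 → ℝ → ℝ) : Fin 8 → ℝ → ℝ :=
  ![k' 0, k' 1, fun c => (1 - c ^ 2) * k' 2 c - 2 * c * k 2 c, k' 3, k' 4,
    fun c => (1 - c ^ 2) * k' 5 c - 2 * c * k 5 c, fun c => (1 - c ^ 2) * k' 6 c - 2 * c * k 6 c, k' 7]

/-- **the coefficients of the deviation in the real frame** -/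
def u8 (k k' : Fin 8 → ℝ → ℝ) (s c : ℝ) (τ : ℂ) : Fin 28 → ℝ :=
  ![1,
    -(c * s ^ 2 * k' 0 c),
    -(c * s ^ 4 * k' 1 c) + 8 * c ^ 2 * s ^ 2 * k 1 c,
    -(2 * c * s ^ 2 * k' 2 c) + 8 * c ^ 2 * k 2 c + 2 * s ^ 2 * k 2 c,
    -(2 * c * s ^ 4 * k' 3 c) + 2 * s ^ 4 * k 3 c,
    -(2 * c * s ^ 6 * k' 4 c) + 28 * c ^ 2 * s ^ 4 * k 4 c + 2 * s ^ 6 * k 4 c,
    -(c * s ^ 2 * k' 5 c / 2) + c ^ 2 * k 5 c + s ^ 2 * k 5 c / 2,
    -(c * s ^ 2 * k' 6 c / 2) + 2 * c ^ 2 * k 6 c + s ^ 2 * k 6 c / 2,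
    -(c * s ^ 2 * k' 7 c / 2) + 3 * c ^ 2 * k 7 c + s ^ 2 * (k 6 c + k 7 c) / 2,
    -(c * s ^ 2 * k' 0 c) + 4 * c ^ 2 * k 0 c,
    -(c * s ^ 4 * k' 1 c),
    -(2 * c * s ^ 2 * k' 2 c) + 4 * c ^ 2 * k 2 c + 2 * s ^ 2 * k 2 c,
    -(2 * c * s ^ 4 * k' 3 c) + 20 * c ^ 2 * s ^ 2 * k 3 c + 2 * s ^ 4 * k 3 c + c ^ 2 * s ^ 2 * k 0 c ^ 2,
    -(2 * c * s ^ 6 * k' 4 c) + 2 * s ^ 6 * k 4 c,
    -(c * s ^ 2 * k' 5 c / 2) + 2 * c ^ 2 * k 5 c + s ^ 2 * (k 5 c + k 6 c) / 2,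
    -(c * s ^ 2 * k' 6 c / 2) + c ^ 2 * k 6 c + s ^ 2 * k 6 c / 2,
    -(c * s ^ 2 * k' 7 c / 2) + s ^ 2 * k 7 c / 2,
    s ^ 2 * k 0 c,
    2 * s ^ 2 * k 2 c,
    4 * s ^ 4 * k 3 c,
    s ^ 4 * k 1 c,
    2 * s ^ 2 * k 2 c,
    4 * s ^ 6 * k 4 c,
    s ^ 2 * k 5 c,
    s ^ 2 * k 7 c,
    s ^ 2 * k 6 c,
    τ.re, τ.im]

/-- the remainder `ξ² / 4 - (c s κ₀)² r₃²` -/
def tau8 (k : Fin 8 → ℝ → ℝ) (f : ℝ → ℝ) (r3 : ℂ) : ℂ :=
  xi8 (kap k) f ^ 2 / 4 - ((cF f * X1 f * k 0 (cF f) : ℝ) : ℂ) ^ 2 * r3 ^ 2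

theorem sum28 {M : Type*} [AddCommMonoid M] (f : Fin 28 → M) : ∑ i, f i =
    f 0 + (f 1 + (f 2 + (f 3 + (f 4 + (f 5 + (f 6 + (f 7 + (f 8 + (f 9 + (f 10 + (f 11 + (f 12 + (f 13
    + (f 14 + (f 15 + (f 16 + (f 17 + (f 18 + (f 19 + (f 20 + (f 21 + (f 22 + (f 23 + (f 24 + (f 25
    + (f 26 + f 27)))))))))))))))))))))))))) := by
  simp only [Fin.sum_univ_succ, Fin.sum_univ_zero, add_zero]
  rfl

section

variable {f : ℝ → ℝ} {k k' : Fin 8 → ℝ → ℝ} {m : M9}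

/-- the values of the harmonics in the real frame -/
structure Mm (f : ℝ → ℝ) (m : M9) : Prop where
  h3 : (X1 f : ℂ) * CE 3 f = 2 * cF f * m 0
  h2 : (X1 f : ℂ) ^ 2 * S54.S2 f = (cF f : ℂ) ^ 2 * m 4
  h0 : (X1 f : ℂ) ^ 2 * ((S54.S0 f : ℝ) : ℂ) = (cF f : ℂ) ^ 2 * m 3

theorem mm_mo {Q : Type} [Fintype Q] (Ψ : Psi9 Q) (H : Re f) : Mm f (mo (C9 Ψ) (nf f) (xT f) (ef f)) := by
  refine ⟨?_, ?_, ?_⟩
  · rw [← r3_eq H.hf H.h0 H.h2]
    exact H.c3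
  · rw [H.s2]
    congr 1
    unfold OMR.q2
    rw [xR_eq H.hf H.h0 H.h2, eR_eq H.h2, vR_eq H.h2]
    rfl
  · have h := congrArg (fun z : ℝ => (z : ℂ)) H.s0
    have e : mo (C9 Ψ) (nf f) (xT f) (ef f) 3 = ((OMR.q0 f : ℝ) : ℂ) := by
      unfold OMR.q0
      rw [xR_eq H.hf H.h0 H.h2, vR_eq H.h2, ← integral_complex_ofReal]
      show ∫ t, (xT f t : ℂ) ^ 2 ∂(nf f) = _
      congr 1
      funext t
      push_cast
      ring
    rw [e]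
    push_cast at h
    exact h


/-- the start map in the real frame -/
theorem re_xi8 (H : Re f) (hs : 0 < X1 f) (E : Mm f m) :
    xi8 (kap k) f = 2 * cF f * X1 f * k 0 (cF f) * m 0 + 2 * cF f * X1 f ^ 3 * k 1 (cF f) * conj (m 0)
      + (4 * cF f * X1 f * k 2 (cF f) * (m 0 * conj (m 0)) + 4 * cF f * X1 f ^ 3 * k 3 (cF f) * m 0 ^ 2
        + 4 * cF f * X1 f ^ 5 * k 4 (cF f) * conj (m 0) ^ 2 + cF f * X1 f * k 5 (cF f) * m 4
        + cF f * X1 f * k 6 (cF f) * m 3 + cF f * X1 f * k 7 (cF f) * conj (m 4)) := by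
  have hz : (X1 f : ℂ) ≠ 0 := Complex.ofReal_ne_zero.2 hs.ne'
  have hc : (cF f : ℂ) ≠ 0 := H.cC
  have ec : cf f = cF f := cF_eq f
  have ez : zf f = (X1 f : ℂ) := H.zz
  have es : (1 : ℝ) - cF f ^ 2 = X1 f ^ 2 := by
    rw [H.c2]
    ring
  have e3 : CE 3 f = 2 * cF f / X1 f * m 0 := by
    rw [div_mul_eq_mul_div, eq_div_iff hz, mul_comm]
    exact E.h3
  have e2 : S54.S2 f = (cF f : ℂ) ^ 2 / X1 f ^ 2 * m 4 := by
    rw [div_mul_eq_mul_div, eq_div_iff (pow_ne_zero 2 hz), mul_comm]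
    exact E.h2
  have e0 : ((S54.S0 f : ℝ) : ℂ) = (cF f : ℂ) ^ 2 / X1 f ^ 2 * m 3 := by
    rw [div_mul_eq_mul_div, eq_div_iff (pow_ne_zero 2 hz), mul_comm]
    exact E.h0
  unfold xi8 q8 g8 kap
  simp only [Matrix.cons_val_zero, Matrix.cons_val_one, Matrix.cons_val]
  rw [ec, ez, e3, e2, e0, es]
  simp only [map_mul, map_div₀, map_pow, Complex.conj_ofReal, map_ofNat]
  push_cast
  field_simp
  ring

/-- the coefficients of the covariant derivative in the real frame -/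
theorem re_l8 (H : Re f) (hs : 0 < X1 f) (E : Mm f m) (τ : ℂ) :
    l8 (kap k) (dkap k k') f 0 = (u8 k k' (X1 f) (cF f) τ 1 : ℂ) * m 0
        + (u8 k k' (X1 f) (cF f) τ 2 : ℂ) * conj (m 0)
        + (u8 k k' (X1 f) (cF f) τ 3 : ℂ) * (m 0 * conj (m 0)) + (u8 k k' (X1 f) (cF f) τ 4 : ℂ) * m 0 ^ 2
        + (u8 k k' (X1 f) (cF f) τ 5 : ℂ) * conj (m 0) ^ 2 + (u8 k k' (X1 f) (cF f) τ 6 : ℂ) * m 4
        + (u8 k k' (X1 f) (cF f) τ 7 : ℂ) * m 3 + (u8 k k' (X1 f) (cF f) τ 8 : ℂ) * conj (m 4) ∧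
      l8 (kap k) (dkap k k') f 1 + ((cF f * X1 f * k 0 (cF f) : ℝ) : ℂ) ^ 2 * m 0 ^ 2 =
        (u8 k k' (X1 f) (cF f) τ 9 : ℂ) * m 0
        + (u8 k k' (X1 f) (cF f) τ 10 : ℂ) * conj (m 0)
        + (u8 k k' (X1 f) (cF f) τ 11 : ℂ) * (m 0 * conj (m 0)) + (u8 k k' (X1 f) (cF f) τ 12 : ℂ) * m 0 ^ 2
        + (u8 k k' (X1 f) (cF f) τ 13 : ℂ) * conj (m 0) ^ 2 + (u8 k k' (X1 f) (cF f) τ 14 : ℂ) * m 4
        + (u8 k k' (X1 f) (cF f) τ 15 : ℂ) * m 3 + (u8 k k' (X1 f) (cF f) τ 16 : ℂ) * conj (m 4) ∧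
      l8 (kap k) (dkap k k') f 2 = (u8 k k' (X1 f) (cF f) τ 17 : ℂ)
        + (u8 k k' (X1 f) (cF f) τ 18 : ℂ) * conj (m 0) + (u8 k k' (X1 f) (cF f) τ 19 : ℂ) * m 0 ∧
      l8 (kap k) (dkap k k') f 3 = (u8 k k' (X1 f) (cF f) τ 20 : ℂ)
        + (u8 k k' (X1 f) (cF f) τ 21 : ℂ) * m 0 + (u8 k k' (X1 f) (cF f) τ 22 : ℂ) * conj (m 0) ∧
      l8 (kap k) (dkap k k') f 4 = (u8 k k' (X1 f) (cF f) τ 23 : ℂ) * ((X1 f / cF f : ℝ) : ℂ) ∧
      l8 (kap k) (dkap k k') f 5 = (u8 k k' (X1 f) (cF f) τ 24 : ℂ) * ((X1 f / cF f : ℝ) : ℂ) ∧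
      l8 (kap k) (dkap k k') f 6 = (u8 k k' (X1 f) (cF f) τ 25 : ℂ) * ((X1 f / cF f : ℝ) : ℂ) := by
  have hz : (X1 f : ℂ) ≠ 0 := Complex.ofReal_ne_zero.2 hs.ne'
  have hc : (cF f : ℂ) ≠ 0 := H.cC
  have ec : cf f = cF f := cF_eq f
  have ez : zf f = (X1 f : ℂ) := H.zz
  have es : (1 : ℝ) - cF f ^ 2 = X1 f ^ 2 := by
    rw [H.c2]
    ring
  have e3 : CE 3 f = 2 * cF f / X1 f * m 0 := by
    rw [div_mul_eq_mul_div, eq_div_iff hz, mul_comm]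
    exact E.h3
  have e2 : S54.S2 f = (cF f : ℂ) ^ 2 / X1 f ^ 2 * m 4 := by
    rw [div_mul_eq_mul_div, eq_div_iff (pow_ne_zero 2 hz), mul_comm]
    exact E.h2
  have e0 : ((S54.S0 f : ℝ) : ℂ) = (cF f : ℂ) ^ 2 / X1 f ^ 2 * m 3 := by
    rw [div_mul_eq_mul_div, eq_div_iff (pow_ne_zero 2 hz), mul_comm]
    exact E.h0
  unfold l8 gv8 gw8 gv gw q8 g8 kap dkap u8
  simp only [Matrix.cons_val_zero, Matrix.cons_val_one, Matrix.cons_val]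
  rw [ec, ez, e3, e2, e0, es]
  simp only [map_mul, map_div₀, map_pow, Complex.conj_ofReal, map_ofNat, Nat.cast_zero, Nat.cast_one,
    Nat.cast_ofNat, map_zero, map_one]
  generalize k 0 (cF f) = k0
  generalize k 1 (cF f) = k1
  generalize k 2 (cF f) = k2
  generalize k 3 (cF f) = k3
  generalize k 4 (cF f) = k4
  generalize k 5 (cF f) = k5
  generalize k 6 (cF f) = k6
  generalize k 7 (cF f) = k7
  generalize k' 0 (cF f) = d0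
  generalize k' 1 (cF f) = d1
  generalize k' 2 (cF f) = d2
  generalize k' 3 (cF f) = d3
  generalize k' 4 (cF f) = d4
  generalize k' 5 (cF f) = d5
  generalize k' 6 (cF f) = d6
  generalize k' 7 (cF f) = d7
  push_cast
  generalize (cF f : ℂ) = c at *
  generalize (X1 f : ℂ) = z at *
  generalize conj (m 0) = mb
  generalize m 0 = m0
  generalize conj (m 4) = nb
  generalize m 4 = m4
  generalize m 3 = m3
  clear e3 e2 e0 es ez ec E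
  refine ⟨?_, ?_, ?_, ?_, ?_, ?_, ?_⟩ <;> (field_simp; try ring)

/-- the pole: all the coefficients vanish -/
theorem z_l8 (H : Re f) (h : X1 f = 0) : xi8 (kap k) f = 0 ∧ ∀ i, l8 (kap k) (dkap k k') f i = 0 := by
  have ec : cf f = cF f := cF_eq f
  have ez : zf f = 0 := by
    have e : zf f = (X1 f : ℂ) := H.zz
    rw [e, h, Complex.ofReal_zero]
  have es : (1 : ℝ) - cF f ^ 2 = 0 := by
    rw [H.c2, h]
    ring
  constructor
  · unfold xi8 q8 g8 kap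
    simp only [Matrix.cons_val_zero, Matrix.cons_val_one, Matrix.cons_val]
    rw [ec, ez, es]
    simp
  · intro i
    unfold l8 gv8 gw8 gv gw q8 g8 kap dkap
    fin_cases i <;>
      simp [ec, ez, es]

theorem xT_zero (H : Re f) (h : X1 f = 0) (t : ℝ) : xT f t = 0 := by
  have h1 := BTN.xT_bd H.hf H.h0 H.h2 t
  rw [h, mul_zero] at h1
  exact abs_nonpos_iff.1 h1

theorem z_mo {Q : Type} (Ψ : Psi9 Q) (H : Re f) (h : X1 f = 0) (i : Fin 6) :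
    mo (C9 Ψ) (nf f) (xT f) (ef f) i = 0 := by
  unfold BTG.mo
  fin_cases i <;> simp [C9, g9, xT_zero H h]

theorem nst_le (ξ : (ℝ → ℝ) → ℂ) (l : (ℝ → ℝ) → Fin 7 → ℂ) (f : ℝ → ℝ) (A B N M S R D : ℂ) :
    ‖Bst ξ l f A B N M S R D‖ ≤ ‖B + Nm l f A B N M S R D + ξ f ^ 2 / 4 * conj A‖ := by
  unfold Bst
  rw [norm_div, Complex.norm_real, Real.norm_eq_abs, abs_of_pos (qp_pos _)]
  refine div_le_self (norm_nonneg _) ?_
  have := Complex.normSq_nonneg (ξ f)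
  show (1 : ℝ) ≤ 1 + Complex.normSq (ξ f) / 4
  linarith

/-- **the deviation of the stereographic map of `xi8` in the real frame** -/
theorem devLe_B8 (H : Re f) (k k' : Fin 8 → ℝ → ℝ) : DevLe (B8 (kap k) (dkap k k')) Psi8
    (u8 k k' (X1 f) (cF f) (tau8 k f (mo (C9 Psi8) (nf f) (xT f) (ef f) 0))) f := by
  intro A B N M S R D
  have hE := mm_mo Psi8 H
  set m := mo (C9 Psi8) (nf f) (xT f) (ef f) with hm
  refine (nst_le _ _ _ _ _ _ _ _ _ _).trans (le_of_eq ?_)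
  have eτ : (((tau8 k f (m 0)).re : ℝ) : ℂ) * conj A + (((tau8 k f (m 0)).im : ℝ) : ℂ) * (I * conj A) =
      tau8 k f (m 0) * conj A := by
    have := Complex.re_add_im (tau8 k f (m 0))
    linear_combination conj A * this
  congr 1
  unfold dev9
  rw [sum28]
  have u0 : u8 k k' (X1 f) (cF f) (tau8 k f (m 0)) 0 = 1 := rfl
  have u26 : u8 k k' (X1 f) (cF f) (tau8 k f (m 0)) 26 = (tau8 k f (m 0)).re := rfl
  have u27 : u8 k k' (X1 f) (cF f) (tau8 k f (m 0)) 27 = (tau8 k f (m 0)).im := rfl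
  rw [u0, u26, u27]
  unfold Nm L7
  simp only [Psi8, mn8, Matrix.cons_val_zero, Matrix.cons_val_one, Matrix.cons_val, map_mul, Complex.conj_ofReal,
    Complex.ofReal_one]
  rcases H.h0.lt_or_eq with hs | hs
  · obtain ⟨h0, h1, h2, h3, h4, h5, h6⟩ := re_l8 (k' := k') (k := k) H hs hE (tau8 k f (m 0))
    have h1' := eq_sub_of_add_eq h1
    rw [h0, h1', h2, h3, h4, h5, h6]
    have et : xi8 (kap k) f ^ 2 / 4 = tau8 k f (m 0) + ((cF f * X1 f * k 0 (cF f) : ℝ) : ℂ) ^ 2 * m 0 ^ 2 := by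
      unfold tau8
      ring
    rw [et]
    linear_combination -eτ
  · obtain ⟨hx, hl⟩ := z_l8 (k := k) (k' := k') H hs.symm
    have hm0 : ∀ i, m i = 0 := fun i => z_mo Psi8 H hs.symm i
    have et : tau8 k f 0 = 0 := by
      unfold tau8
      rw [hx]
      ring
    have u17 : u8 k k' (X1 f) (cF f) (tau8 k f (m 0)) 17 = X1 f ^ 2 * k 0 (cF f) := rfl
    have u20 : u8 k k' (X1 f) (cF f) (tau8 k f (m 0)) 20 = X1 f ^ 4 * k 1 (cF f) := rfl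
    rw [u17, u20]
    simp only [hl, hx, hm0, et, ← hs]
    simp

end

/-! ### the remainder -/

/-- the bound of the remainder from `|r₃| ≤ r`, `|q₀|, |q₂| ≤ q` -/
def pb8 (k : Fin 8 → ℝ → ℝ) (s c r q : ℝ) : ℝ :=
  2 * c * s ^ 3 * |k 1 c| * r + 4 * c * s * |k 2 c| * r ^ 2 + 4 * c * s ^ 3 * |k 3 c| * r ^ 2
    + 4 * c * s ^ 5 * |k 4 c| * r ^ 2 + c * s * |k 5 c| * q + c * s * |k 6 c| * q + c * s * |k 7 c| * q

theorem tau8_le {f : ℝ → ℝ} (H : Re f) (k : Fin 8 → ℝ → ℝ) {m : M9} (E : Mm f m) {r q : ℝ} (hr : ‖m 0‖ ≤ r)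
    (hq2 : ‖m 4‖ ≤ q) (hq0 : ‖m 3‖ ≤ q) (hm : X1 f = 0 → m 0 = 0) : ‖tau8 k f (m 0)‖ ≤
      pb8 k (X1 f) (cF f) r q * (4 * cF f * X1 f * |k 0 (cF f)| * r + pb8 k (X1 f) (cF f) r q) / 4 := by
  have hr0 : 0 ≤ r := (norm_nonneg _).trans hr
  have hq0' : 0 ≤ q := (norm_nonneg _).trans hq0
  have hc := H.c0.le
  have h0 := H.h0
  have hp : 0 ≤ pb8 k (X1 f) (cF f) r q := by
    unfold pb8
    positivity
  rcases h0.lt_or_eq with hs | hs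
  · set ρ : ℂ := 2 * cF f * X1 f ^ 3 * k 1 (cF f) * conj (m 0)
      + (4 * cF f * X1 f * k 2 (cF f) * (m 0 * conj (m 0)) + 4 * cF f * X1 f ^ 3 * k 3 (cF f) * m 0 ^ 2
        + 4 * cF f * X1 f ^ 5 * k 4 (cF f) * conj (m 0) ^ 2 + cF f * X1 f * k 5 (cF f) * m 4
        + cF f * X1 f * k 6 (cF f) * m 3 + cF f * X1 f * k 7 (cF f) * conj (m 4)) with hρ
    have e : tau8 k f (m 0) = ρ * (2 * (2 * cF f * X1 f * k 0 (cF f) * m 0) + ρ) / 4 := by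
      unfold tau8
      rw [re_xi8 H hs E, hρ]
      push_cast
      ring
    have nr : ∀ x : ℝ, ‖(x : ℂ)‖ = |x| := fun x => Complex.norm_real x
    have ac : |cF f| = cF f := abs_of_nonneg hc
    have as : |X1 f| = X1 f := abs_of_nonneg h0
    have n2 : ‖(2 : ℂ)‖ = 2 := by norm_num
    have n4 : ‖(4 : ℂ)‖ = 4 := by norm_num
    have n00 := norm_nonneg (m 0)
    have hr2 : ‖m 0‖ ^ 2 ≤ r ^ 2 := pow_le_pow_left₀ n00 hr 2
    have b1 : ‖(2 : ℂ) * cF f * X1 f ^ 3 * k 1 (cF f) * conj (m 0)‖ ≤ 2 * cF f * X1 f ^ 3 * |k 1 (cF f)| * r := by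
      simp only [norm_mul, norm_pow, nr, ac, as, n2, Complex.norm_conj]
      gcongr
    have b2 : ‖(4 : ℂ) * cF f * X1 f * k 2 (cF f) * (m 0 * conj (m 0))‖ ≤
        4 * cF f * X1 f * |k 2 (cF f)| * r ^ 2 := by
      simp only [norm_mul, nr, ac, as, n4, Complex.norm_conj]
      rw [← pow_two]
      gcongr
    have b3 : ‖(4 : ℂ) * cF f * X1 f ^ 3 * k 3 (cF f) * m 0 ^ 2‖ ≤ 4 * cF f * X1 f ^ 3 * |k 3 (cF f)| * r ^ 2 := by
      simp only [norm_mul, norm_pow, nr, ac, as, n4]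
      gcongr
    have b4 : ‖(4 : ℂ) * cF f * X1 f ^ 5 * k 4 (cF f) * conj (m 0) ^ 2‖ ≤
        4 * cF f * X1 f ^ 5 * |k 4 (cF f)| * r ^ 2 := by
      simp only [norm_mul, norm_pow, nr, ac, as, n4, Complex.norm_conj]
      gcongr
    have b5 : ‖(cF f : ℂ) * X1 f * k 5 (cF f) * m 4‖ ≤ cF f * X1 f * |k 5 (cF f)| * q := by
      simp only [norm_mul, nr, ac, as]
      gcongr
    have b6 : ‖(cF f : ℂ) * X1 f * k 6 (cF f) * m 3‖ ≤ cF f * X1 f * |k 6 (cF f)| * q := by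
      simp only [norm_mul, nr, ac, as]
      gcongr
    have b7 : ‖(cF f : ℂ) * X1 f * k 7 (cF f) * conj (m 4)‖ ≤ cF f * X1 f * |k 7 (cF f)| * q := by
      simp only [norm_mul, nr, ac, as, Complex.norm_conj]
      gcongr
    have bρ : ‖ρ‖ ≤ pb8 k (X1 f) (cF f) r q := by
      rw [hρ]
      refine (norm_add_le _ _).trans ?_
      refine (add_le_add b1 ((norm_add_le _ _).trans (add_le_add ((norm_add_le _ _).trans (add_le_add
        ((norm_add_le _ _).trans (add_le_add ((norm_add_le _ _).trans (add_le_add ((norm_add_le _ _).trans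
        (add_le_add b2 b3)) b4)) b5)) b6)) b7))).trans (le_of_eq ?_)
      unfold pb8
      ring
    have b8 : ‖(2 : ℂ) * (2 * cF f * X1 f * k 0 (cF f) * m 0)‖ ≤ 4 * cF f * X1 f * |k 0 (cF f)| * r := by
      simp only [norm_mul, nr, ac, as, n2]
      calc 2 * (2 * cF f * X1 f * |k 0 (cF f)| * ‖m 0‖) = 4 * cF f * X1 f * |k 0 (cF f)| * ‖m 0‖ := by ring
        _ ≤ _ := by gcongr
    rw [e, norm_div, norm_mul, n4]
    have b9 := (norm_add_le ((2 : ℂ) * (2 * cF f * X1 f * k 0 (cF f) * m 0)) ρ).trans (add_le_add b8 bρ)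
    gcongr
  · have et : tau8 k f (m 0) = 0 := by
      unfold tau8
      rw [(z_l8 (k := k) (k' := k) H hs.symm).1, hm hs.symm]
      ring
    rw [et, norm_zero]
    positivity

/-- the remainder at a state -/
theorem tau8_mo {f : ℝ → ℝ} (H : Re f) (k : Fin 8 → ℝ → ℝ) {Q : Type} [Fintype Q] (Ψ : Psi9 Q) {r q : ℝ}
    (hr : ‖mo (C9 Ψ) (nf f) (xT f) (ef f) 0‖ ≤ r) (hq0 : ‖mo (C9 Ψ) (nf f) (xT f) (ef f) 3‖ ≤ q)
    (hq2 : ‖mo (C9 Ψ) (nf f) (xT f) (ef f) 4‖ ≤ q) : ‖tau8 k f (mo (C9 Ψ) (nf f) (xT f) (ef f) 0)‖ ≤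
      pb8 k (X1 f) (cF f) r q * (4 * cF f * X1 f * |k 0 (cF f)| * r + pb8 k (X1 f) (cF f) r q) / 4 :=
  tau8_le H k (mm_mo Ψ H) hr hq2 hq0 fun h => z_mo Ψ H h 0

end Pool.Agent.FPX.BTI
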