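import Mathlib
import Pool.Agent.FPX.BTS
import Pool.Agent.FPX.XIQ

/-
CEL (helper15): ONE LATITUDE CELL of the certificate `Cert9` with the start map `xi8`, all coefficient functions polynomials
in `c` with rational coefficients. Data: the polynomials, the cell `[a, b]`, three rational control vectors; one Boolean;
hypothesis: the certificates `BTG.RW` at the three control vectors for the states of the class.
-/

open MeasureTheory Set Filter Topology Complex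
open scoped ComplexConjugate

noncomputable section

set_option linter.unusedSectionVars false

namespace Pool.Agent.FPX.CEL

open Pool.Agent.FPX.BTQ
open Pool.Agent.FPX.BTG (Sta Cls mo aK bK dev)
open Pool.Agent.FPX.ALX
open Pool.Agent.FPX.BTN (va e1 nf ef bw vecR PolR pa pg)
open Pool.Agent.FPX.UMP (Ef)
open Pool.Agent.FPX.F54 (X1 X2 X_lt X_G1 X_G2 sF)
open Pool.Agent.FPX.OMS (rF cF)
open Pool.Agent.FPX.CERQ (xT)
open Pool.Agent.FPX.OMG (Cof9 CertAt9)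
open Pool.Agent.FPX.OMR (Re)
open Pool.Agent.FPX.BTI
open Pool.Agent.FPX.XIP (B8)

/-! ### polynomials -/

/-- the derivative -/
def pd : List ℚ → List ℚ
  | [] => []
  | _ :: l => padd l (0 :: pd l)

theorem hasDerivAt_pe (l : List ℚ) (x : ℝ) : HasDerivAt (pe l) (pe (pd l) x) x := by
  induction l with
  | nil => exact hasDerivAt_const x (0 : ℝ)
  | cons a l ih =>
    have h : HasDerivAt (fun y => (a : ℝ) + y * pe l y) (1 * pe l x + x * pe (pd l) x) x :=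
      ((hasDerivAt_id x).mul ih).const_add (a : ℝ)
    have e : (fun y => (a : ℝ) + y * pe l y) = pe (a :: l) := rfl
    rw [e] at h
    refine h.congr_deriv ?_
    show 1 * pe l x + x * pe (pd l) x = pe (padd l (0 :: pd l)) x
    rw [pe_padd, pe_cons]
    push_cast
    ring

/-- `(1 - c²) ^ b` -/
def mons : ℕ → List ℚ
  | 0 => [1]
  | b + 1 => pmul [1, 0, -1] (mons b)

/-- `c ^ a (1 - c²) ^ b` -/
def mon : ℕ → ℕ → List ℚ
  | 0, b => mons b
  | a + 1, b => 0 :: mon a b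

theorem pe_mon (a b : ℕ) (c : ℝ) : pe (mon a b) c = c ^ a * (1 - c ^ 2) ^ b := by
  induction a with
  | zero =>
    induction b with
    | zero => simp [mon, mons]
    | succ b ih =>
      rw [mon] at ih ⊢
      rw [mons, pe_pmul, ih]
      simp only [pe_cons, pe_nil]
      push_cast
      ring
  | succ a ih =>
    rw [mon, pe_cons, ih]
    push_cast
    ring

/-- `∑ r c ^ a (1 - c²) ^ b P` -/
def lin : List (ℚ × ℕ × ℕ × List ℚ) → List ℚ
  | [] => []
  | (r, a, b, l) :: L => padd (psm r (pmul (mon a b) l)) (lin L)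

@[simp] theorem pe_lin_nil (c : ℝ) : pe (lin []) c = 0 := rfl

@[simp] theorem pe_lin_cons (r : ℚ) (a b : ℕ) (l : List ℚ) (L : List (ℚ × ℕ × ℕ × List ℚ)) (c : ℝ) :
    pe (lin ((r, a, b, l) :: L)) c = r * (c ^ a * (1 - c ^ 2) ^ b * pe l c) + pe (lin L) c := by
  rw [lin, pe_padd, pe_psm, pe_pmul, pe_mon]

/-! ### the coefficient functions -/

/-- `P(c)` as a function of `s² = 1 - c²` -/
def pln (l : List ℚ) (r : ℝ) : ℝ := pe l (√(1 - r))

/-- `P(c) / c` as a function of `s² = 1 - c²` -/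
def hat (l : List ℚ) (r : ℝ) : ℝ := pe l (√(1 - r)) / √(1 - r)

theorem sqrt_c {c : ℝ} (hc : 0 < c) : √(1 - (1 - c ^ 2)) = c := by
  rw [sub_sub_cancel]
  exact Real.sqrt_sq hc.le

theorem pln_eq (l : List ℚ) {c : ℝ} (hc : 0 < c) : pln l (1 - c ^ 2) = pe l c := by
  unfold pln
  rw [sqrt_c hc]

theorem hat_eq (l : List ℚ) {c : ℝ} (hc : 0 < c) : hat l (1 - c ^ 2) = pe l c / c := by
  unfold hat
  rw [sqrt_c hc]

theorem hasDerivAt_sq {c : ℝ} (hc : 0 < c) : HasDerivAt (fun r : ℝ => √(1 - r)) (-1 / (2 * c)) (1 - c ^ 2) := by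
  have h : HasDerivAt (fun r : ℝ => 1 - r) (-1) (1 - c ^ 2) := (hasDerivAt_id _).const_sub 1
  have h2 : (1 : ℝ) - (1 - c ^ 2) ≠ 0 := by
    rw [sub_sub_cancel]
    positivity
  have := h.sqrt h2
  rwa [sqrt_c hc] at this

theorem deriv_pln (l : List ℚ) {c : ℝ} (hc : 0 < c) :
    deriv (pln l) (1 - c ^ 2) = -(pe (pd l) c) / (2 * c) := by
  have h := hasDerivAt_sq hc
  have h1 : HasDerivAt (pe l) (pe (pd l) (√(1 - (1 - c ^ 2)))) (√(1 - (1 - c ^ 2))) := hasDerivAt_pe l _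
  have h2 : HasDerivAt (pln l) _ (1 - c ^ 2) := h1.comp (1 - c ^ 2) h
  rw [h2.deriv, sqrt_c hc]
  ring

theorem deriv_hat (l : List ℚ) {c : ℝ} (hc : 0 < c) :
    deriv (hat l) (1 - c ^ 2) = -(pe (pd l) c / c - pe l c / c ^ 2) / (2 * c) := by
  have h := hasDerivAt_sq hc
  have h1 : HasDerivAt (pe l) (pe (pd l) (√(1 - (1 - c ^ 2)))) (√(1 - (1 - c ^ 2))) := hasDerivAt_pe l _
  have h2 : HasDerivAt (pln l) (pe (pd l) (√(1 - (1 - c ^ 2))) * (-1 / (2 * c))) (1 - c ^ 2) :=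
    h1.comp (1 - c ^ 2) h
  have h3 : √(1 - (1 - c ^ 2)) ≠ 0 := by
    rw [sqrt_c hc]
    exact hc.ne'
  have h4 : HasDerivAt (hat l) _ (1 - c ^ 2) := h2.div h h3
  rw [h4.deriv]
  unfold pln
  rw [sqrt_c hc]
  field_simp
  ring

/-- the data of the coefficient functions: `c Q, c Z, c P, x, y, c g, b, c p₁, c p₂` and `k₀, …, k₇` are polynomials in
`c` -/
structure Dat where
  q : List ℚ
  z : List ℚ
  p : List ℚ
  x : List ℚ
  y : List ℚ
  g : List ℚ
  b : List ℚ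
  p1 : List ℚ
  p2 : List ℚ
  k : Fin 8 → List ℚ

/-- the coefficient functions of the form -/
def Dat.cof (D : Dat) : Cof9 where
  C := { Q := hat D.q, Z := hat D.z, P := hat D.p, x := pln D.x, y := pln D.y, g := hat D.g, b := pln D.b }
  p1 := hat D.p1
  p2 := hat D.p2
  x5 := fun _ => 0
  y5 := fun _ => 0

/-- the coefficient functions of the start map -/
def Dat.kk (D : Dat) (j : Fin 8) (c : ℝ) : ℝ := pe (D.k j) c

/-- their derivatives -/
def Dat.kk' (D : Dat) (j : Fin 8) (c : ℝ) : ℝ := pe (pd (D.k j)) c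

/-- `c² pa` -/
def Dat.pA (D : Dat) : List ℚ := lin [(1, 0, 1, D.z), (-1, 1, 1, pd D.z), (2, 2, 0, D.z)]

/-- `c² pg` -/
def Dat.pG (D : Dat) : List ℚ := lin [(1, 0, 1, D.g), (-1, 1, 1, pd D.g), (2, 2, 0, D.g), (-3, 2, 0, D.b)]

/-- the components of the vector `vec9R` as polynomials in `c` (`w` the weight, `R` the substitute of `1 / s²`) -/
def Dat.vp (D : Dat) (w R : List ℚ) (η : ℚ) : Fin 21 → List ℚ :=
  ![w,
    lin [(-1, 1, 0, pd D.q), (1, 0, 0, D.z), (2, 0, 1, D.p), (-1, 1, 1, pd D.p), (6, 2, 0, D.p)],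
    pmul R D.pA,
    lin [(1, 0, 1, D.p)],
    lin [(-2, 1, 1, pd D.x), (-3, 0, 1, D.x), (-2, 1, 2, pd D.y), (16, 2, 1, D.y), (3, 0, 2, D.y)],
    lin [(1, 0, 2, D.y)],
    pmul R (lin [(4, 0, 1, D.g), (-4, 1, 1, pd D.g), (8, 2, 0, D.g)]),
    lin [(4, 0, 0, D.g)],
    D.q,
    D.z,
    lin [(1, 0, 1, D.x)],
    D.b,
    pmul R (lin [(12, 2, 0, D.b)]),
    lin [(-2, 1, 0, pd D.b)],
    [η / 2],
    lin [(2, 0, 0, D.p1)],
    lin [(2, 0, 1, D.p2)],
    [],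
    [],
    lin [(-4, 1, 0, pd D.p1), (-4, 1, 1, pd D.p2), (8, 0, 1, D.p2), (24, 2, 0, D.p2)],
    []]

/-- the components of `u8` as polynomials in `c` (without the remainder) -/
def Dat.up (D : Dat) : Fin 28 → List ℚ :=
  ![[1],
    lin [(-1, 1, 1, pd (D.k 0))],
    lin [(-1, 1, 2, pd (D.k 1)), (8, 2, 1, D.k 1)],
    lin [(-2, 1, 1, pd (D.k 2)), (8, 2, 0, D.k 2), (2, 0, 1, D.k 2)],
    lin [(-2, 1, 2, pd (D.k 3)), (2, 0, 2, D.k 3)],
    lin [(-2, 1, 3, pd (D.k 4)), (28, 2, 2, D.k 4), (2, 0, 3, D.k 4)],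
    lin [(-1 / 2, 1, 1, pd (D.k 5)), (1, 2, 0, D.k 5), (1 / 2, 0, 1, D.k 5)],
    lin [(-1 / 2, 1, 1, pd (D.k 6)), (2, 2, 0, D.k 6), (1 / 2, 0, 1, D.k 6)],
    lin [(-1 / 2, 1, 1, pd (D.k 7)), (3, 2, 0, D.k 7), (1 / 2, 0, 1, D.k 6), (1 / 2, 0, 1, D.k 7)],
    lin [(-1, 1, 1, pd (D.k 0)), (4, 2, 0, D.k 0)],
    lin [(-1, 1, 2, pd (D.k 1))],
    lin [(-2, 1, 1, pd (D.k 2)), (4, 2, 0, D.k 2), (2, 0, 1, D.k 2)],
    lin [(-2, 1, 2, pd (D.k 3)), (20, 2, 1, D.k 3), (2, 0, 2, D.k 3), (1, 2, 1, pmul (D.k 0) (D.k 0))],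
    lin [(-2, 1, 3, pd (D.k 4)), (2, 0, 3, D.k 4)],
    lin [(-1 / 2, 1, 1, pd (D.k 5)), (2, 2, 0, D.k 5), (1 / 2, 0, 1, D.k 5), (1 / 2, 0, 1, D.k 6)],
    lin [(-1 / 2, 1, 1, pd (D.k 6)), (1, 2, 0, D.k 6), (1 / 2, 0, 1, D.k 6)],
    lin [(-1 / 2, 1, 1, pd (D.k 7)), (1 / 2, 0, 1, D.k 7)],
    lin [(1, 0, 1, D.k 0)],
    lin [(2, 0, 1, D.k 2)],
    lin [(4, 0, 2, D.k 3)],
    lin [(1, 0, 2, D.k 1)],
    lin [(2, 0, 1, D.k 2)],
    lin [(4, 0, 3, D.k 4)],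
    lin [(1, 0, 1, D.k 5)],
    lin [(1, 0, 1, D.k 7)],
    lin [(1, 0, 1, D.k 6)],
    [],
    []]

variable {D : Dat}

theorem pA_eq {s c : ℝ} (hc : 0 < c) (hs : s ^ 2 = 1 - c ^ 2) : pe D.pA c = c ^ 2 * pa D.cof.C s c := by
  unfold Dat.pA pa
  simp only [Dat.cof, hs, hat_eq _ hc, deriv_hat _ hc, pe_lin_cons, pe_lin_nil]
  push_cast
  field_simp
  ring

theorem pG_eq {s c : ℝ} (hc : 0 < c) (hs : s ^ 2 = 1 - c ^ 2) : pe D.pG c = c ^ 2 * pg D.cof.C s c := by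
  unfold Dat.pG pg
  simp only [Dat.cof, hs, hat_eq _ hc, deriv_hat _ hc, pln_eq _ hc, pe_lin_cons, pe_lin_nil]
  push_cast
  field_simp
  ring

/-- **the vector `vec9R` is polynomial in `c`** -/
theorem vp_eq {W : ℝ → ℝ} {w R : List ℚ} {η : ℚ} {s c : ℝ} (hc : 0 < c) (hs : s ^ 2 = 1 - c ^ 2)
    (hW : 2 * c * W c - s ^ 2 * deriv W c = pe w c) (i : Fin 21) :
    vec9R W D.cof 0 η (pe R c) s c i = pe (D.vp w R η i) c := by
  have h4 : s ^ 4 = (1 - c ^ 2) ^ 2 := by rw [← hs]; ring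
  have h6 : s ^ 6 = (1 - c ^ 2) ^ 3 := by rw [← hs]; ring
  have hA := pA_eq (D := D) hc hs
  unfold vec9R Dat.vp vecR
  fin_cases i
  · simp only [Fin.zero_eta, Matrix.cons_val_zero]
    exact hW
  · simp only [Fin.reduceFinMk, Matrix.cons_val_zero, Matrix.cons_val_one, Matrix.cons_val]
    simp only [Dat.cof, hs, hat_eq _ hc, deriv_hat _ hc, pe_lin_cons, pe_lin_nil]
    push_cast
    field_simp
    ring
  · simp only [Fin.reduceFinMk, Matrix.cons_val_zero, Matrix.cons_val_one, Matrix.cons_val]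
    rw [pe_pmul, hA]
    ring
  · simp only [Fin.reduceFinMk, Matrix.cons_val_zero, Matrix.cons_val_one, Matrix.cons_val]
    simp only [Dat.cof, hs, hat_eq _ hc, pe_lin_cons, pe_lin_nil]
    push_cast
    field_simp
    ring
  · simp only [Fin.reduceFinMk, Matrix.cons_val_zero, Matrix.cons_val_one, Matrix.cons_val]
    simp only [Dat.cof, hs, pln_eq _ hc, deriv_pln _ hc, pe_lin_cons, pe_lin_nil]
    push_cast
    field_simp
    ring
  · simp only [Fin.reduceFinMk, Matrix.cons_val_zero, Matrix.cons_val_one, Matrix.cons_val]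
    simp only [Dat.cof, hs, h4, pln_eq _ hc, pe_lin_cons, pe_lin_nil]
    push_cast
    ring
  · simp only [Fin.reduceFinMk, Matrix.cons_val_zero, Matrix.cons_val_one, Matrix.cons_val]
    rw [pe_pmul]
    simp only [Dat.cof, hs, hat_eq _ hc, deriv_hat _ hc, pe_lin_cons, pe_lin_nil]
    push_cast
    field_simp
    ring
  · simp only [Fin.reduceFinMk, Matrix.cons_val_zero, Matrix.cons_val_one, Matrix.cons_val]
    simp only [Dat.cof, hs, hat_eq _ hc, pe_lin_cons, pe_lin_nil]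
    push_cast
    field_simp
    ring
  · simp only [Fin.reduceFinMk, Matrix.cons_val_zero, Matrix.cons_val_one, Matrix.cons_val]
    simp only [Dat.cof, hs, hat_eq _ hc]
    field_simp
  · simp only [Fin.reduceFinMk, Matrix.cons_val_zero, Matrix.cons_val_one, Matrix.cons_val]
    simp only [Dat.cof, hs, hat_eq _ hc]
    field_simp
  · simp only [Fin.reduceFinMk, Matrix.cons_val_zero, Matrix.cons_val_one, Matrix.cons_val]
    simp only [Dat.cof, hs, pln_eq _ hc, pe_lin_cons, pe_lin_nil]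
    push_cast
    ring
  · simp only [Fin.reduceFinMk, Matrix.cons_val_zero, Matrix.cons_val_one, Matrix.cons_val]
    simp only [Dat.cof, hs, pln_eq _ hc]
  · simp only [Fin.reduceFinMk, Matrix.cons_val_zero, Matrix.cons_val_one, Matrix.cons_val]
    rw [pe_pmul]
    simp only [Dat.cof, hs, pln_eq _ hc, pe_lin_cons, pe_lin_nil]
    push_cast
    ring
  · simp only [Fin.reduceFinMk, Matrix.cons_val_zero, Matrix.cons_val_one, Matrix.cons_val]
    simp only [Dat.cof, hs, deriv_pln _ hc, pe_lin_cons, pe_lin_nil]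
    push_cast
    field_simp
    ring
  · simp only [Fin.reduceFinMk, Matrix.cons_val_zero, Matrix.cons_val_one, Matrix.cons_val]
    simp only [pe_cons, pe_nil]
    push_cast
    ring
  · simp only [Fin.reduceFinMk, Matrix.cons_val_zero, Matrix.cons_val_one, Matrix.cons_val]
    simp only [Dat.cof, hs, hat_eq _ hc, pe_lin_cons, pe_lin_nil]
    push_cast
    field_simp
    ring
  · simp only [Fin.reduceFinMk, Matrix.cons_val_zero, Matrix.cons_val_one, Matrix.cons_val]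
    simp only [Dat.cof, hs, hat_eq _ hc, pe_lin_cons, pe_lin_nil]
    push_cast
    field_simp
    ring
  · simp only [Fin.reduceFinMk, Matrix.cons_val_zero, Matrix.cons_val_one, Matrix.cons_val]
    simp [Dat.cof]
  · simp only [Fin.reduceFinMk, Matrix.cons_val_zero, Matrix.cons_val_one, Matrix.cons_val]
    simp [Dat.cof]
  · simp only [Fin.reduceFinMk, Matrix.cons_val_zero, Matrix.cons_val_one, Matrix.cons_val]
    simp only [Dat.cof, hs, hat_eq _ hc, deriv_hat _ hc, pe_lin_cons, pe_lin_nil]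
    push_cast
    field_simp
    ring
  · simp only [Fin.reduceFinMk, Matrix.cons_val_zero, Matrix.cons_val_one, Matrix.cons_val]
    simp [Dat.cof]

/-- the vector `U` with the remainder in the last two components -/
def uT (U : Fin 28 → ℚ) (τ : ℂ) : Fin 28 → ℝ := fun q => if q = 26 then τ.re else if q = 27 then τ.im else U q

/-- **the vector `u8` is polynomial in `c`** -/
theorem up_eq {s c : ℝ} (hs : s ^ 2 = 1 - c ^ 2) (τ : ℂ) (q : Fin 28) (h26 : q ≠ 26) (h27 : q ≠ 27) :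
    u8 D.kk D.kk' s c τ q = pe (D.up q) c := by
  have h4 : s ^ 4 = (1 - c ^ 2) ^ 2 := by rw [← hs]; ring
  have h6 : s ^ 6 = (1 - c ^ 2) ^ 3 := by rw [← hs]; ring
  fin_cases q
  · show (1 : ℝ) = pe [1] c
    simp
  iterate 25
    · simp only [u8, Dat.up, Dat.kk, Dat.kk', hs, h4, h6, pe_lin_cons, pe_lin_nil, pe_pmul, Fin.reduceFinMk,
        Matrix.cons_val_one, Matrix.cons_val]
      push_cast
      ring
  · exact absurd rfl h26
  · exact absurd rfl h27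

/-! ### the check -/

/-- the cell coordinate -/
theorem cell_x {a b : ℚ} (hab : a < b) {c : ℝ} (hc : c ∈ Icc (a : ℝ) b) : ∃ x : ℝ, |x| ≤ 1 ∧
    (((a + b) / 2 : ℚ) : ℝ) + (((b - a) / 2 : ℚ) : ℝ) * x = c ∧ tt a b c = (1 + x) / 2 := by
  have hab' : (a : ℝ) < b := by exact_mod_cast hab
  have hne : (b : ℝ) - a ≠ 0 := (sub_pos.2 hab').ne'
  refine ⟨(2 * c - a - b) / (b - a), ?_, ?_, ?_⟩
  · rw [abs_div, abs_of_pos (sub_pos.2 hab'), div_le_one (sub_pos.2 hab'), abs_le]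
    constructor <;> linarith [hc.1, hc.2]
  · push_cast
    field_simp
    ring
  · unfold tt
    field_simp
    ring

/-- the weighted distance of the polynomials `P` from `r` times the quadratic polynomials of the control vectors -/
def dst {n : ℕ} (P : Fin n → List ℚ) (a b r : ℚ) (V : Fin 3 → Fin n → ℚ) (w : Fin n → ℚ) : ℚ :=
  (List.finRange n).foldr (fun i y =>
    n1 (padd (pcomp (P i) ((a + b) / 2) ((b - a) / 2)) (psm (-r) (qd (V 0 i) (V 1 i) (V 2 i)))) * w i + y) 0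

theorem dst_sound {n : ℕ} {P : Fin n → List ℚ} {a b r : ℚ} {V : Fin 3 → Fin n → ℚ} {w : Fin n → ℚ} (hab : a < b)
    (hw : ∀ i, 0 ≤ w i) {c : ℝ} (hc : c ∈ Icc (a : ℝ) b) :
    ∑ i, |pe (P i) c - r * b3 (tt a b c) (V 0 i) (V 1 i) (V 2 i)| * (w i : ℝ) ≤ dst P a b r V w := by
  obtain ⟨x, hx, hcx, ht⟩ := cell_x hab hc
  unfold dst
  rw [foldr_eq (fun i => n1 (padd (pcomp (P i) ((a + b) / 2) ((b - a) / 2))
    (psm (-r) (qd (V 0 i) (V 1 i) (V 2 i)))) * w i)]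
  push_cast
  refine Finset.sum_le_sum fun i _ => ?_
  have h5 : (0 : ℝ) ≤ w i := by exact_mod_cast hw i
  refine mul_le_mul_of_nonneg_right ?_ h5
  have h := abs_pe_le (padd (pcomp (P i) ((a + b) / 2) ((b - a) / 2)) (psm (-r) (qd (V 0 i) (V 1 i) (V 2 i)))) hx
  rw [pe_padd, pe_psm, pe_pcomp, hcx, pe_qd, ← ht] at h
  refine le_trans (le_of_eq ?_) h
  congr 1
  push_cast
  ring

/-- the weighted size of the control vectors -/
def siz {n : ℕ} (V : Fin 3 → Fin n → ℚ) (w : Fin n → ℚ) : ℚ :=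
  (List.finRange n).foldr (fun i y => max |V 0 i| (max |V 1 i| |V 2 i|) * w i + y) 0

theorem siz_sound {n : ℕ} {V : Fin 3 → Fin n → ℚ} {w : Fin n → ℚ} (hw : ∀ i, 0 ≤ w i) {t : ℝ}
    (h0 : 0 ≤ t) (h1 : t ≤ 1) : ∑ i, |b3 t (V 0 i) (V 1 i) (V 2 i)| * (w i : ℝ) ≤ siz V w := by
  have h : chkU V w (siz V w) = true := by
    unfold chkU siz
    simp only [Bool.and_eq_true, decide_eq_true_eq]
    exact ⟨hw, le_rfl⟩
  have := chkU_sound h h0 h1
  simpa only [sum3_apply] using this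

/-- the weights of the components of the vector, `c9` -/
def c9q : Fin 21 → ℚ := ![3, 1, 1, 8, 1, 15, 1, 3, 4, 4, 7, 50, 1, 8, 6, 11, 9, 9, 18, 1, 2]

theorem c9q_eq (i : Fin 21) : ((c9q i : ℚ) : ℝ) = c9 i := by
  fin_cases i <;> simp [c9q, c9]

theorem c9q_nonneg (i : Fin 21) : 0 ≤ c9q i := by
  revert i
  decide

/-- the weights of the terms of the deviation, `d8` -/
def d8q : Fin 28 → ℚ :=
  ![8 / 5, 2 / 5, 2 / 5, 1 / 10, 1 / 10, 1 / 10, 5 / 8, 5 / 8, 5 / 8, 2 / 5, 2 / 5, 1 / 10, 1 / 10, 1 / 10,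
    5 / 8, 5 / 8, 5 / 8, 5, 6 / 5, 6 / 5, 5, 6 / 5, 6 / 5, 3, 3, 1, 8 / 5, 8 / 5]

theorem d8q_eq (i : Fin 28) : ((d8q i : ℚ) : ℝ) = d8 i := by
  fin_cases i <;> simp [d8q, d8]

theorem d8q_nonneg (i : Fin 28) : 0 ≤ d8q i := by
  revert i
  decide +kernel

/-- the check of the conditions `PolR` on `(a, b]`, `0 ≤ a` -/
def chkR (A G R : List ℚ) (a b η : ℚ) (n : ℕ) : Bool :=
  BTS.nnb (psm (-1) A) a b n && (BTS.nnb (psm (-1) G) a b n && (BTS.nnb R a b n && (BTS.nnb (BTS.one_sub R) a b n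
    && (BTS.nnb (padd [η] (psm ((31 / 50) ^ 2) (pmul (BTS.one_sub R) A))) a b n
    && BTS.nnb (padd [η] (psm ((31 / 50) ^ 2) (pmul (BTS.one_sub R) G))) a b n))))

theorem polR_of' {A G R : List ℚ} {a b η : ℚ} {n : ℕ} (hab : a < b) (H : chkR A G R a b η n = true) {F : OM7.Cof}
    {s c : ℝ} (hc : c ∈ Icc (a : ℝ) b) (hc0 : 0 < c) (hs : s ^ 2 = 1 - c ^ 2) (hA : pe A c = c ^ 2 * pa F s c)
    (hG : pe G c = c ^ 2 * (pa F s c + 2 * pg F s c)) : PolR F η (pe R c) s c := by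
  unfold chkR at H
  simp only [Bool.and_eq_true] at H
  obtain ⟨h1, h2, h3, h4, h5, h6⟩ := H
  have hc2 : 0 < c ^ 2 := by positivity
  have k1 := BTS.nnb_sound n hab h1 hc
  have k2 := BTS.nnb_sound n hab h2 hc
  have k3 := BTS.nnb_sound n hab h3 hc
  have k4 := BTS.nnb_sound n hab h4 hc
  have k5 := BTS.nnb_sound n hab h5 hc
  have k6 := BTS.nnb_sound n hab h6 hc
  rw [pe_psm, hA] at k1
  rw [pe_psm, hG] at k2
  rw [BTS.pe_one_sub] at k4
  rw [pe_padd, pe_psm, pe_pmul, BTS.pe_one_sub, hA] at k5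
  rw [pe_padd, pe_psm, pe_pmul, BTS.pe_one_sub, hG] at k6
  simp only [pe_cons, pe_nil] at k5 k6
  push_cast at k1 k2 k5 k6
  have p1 : pa F s c ≤ 0 := by
    by_contra hcon
    push Not at hcon
    nlinarith [mul_pos hc2 hcon]
  have p2 : pa F s c + 2 * pg F s c ≤ 0 := by
    by_contra hcon
    push Not at hcon
    nlinarith [mul_pos hc2 hcon]
  exact ⟨p1, p2, k3, by rw [hs]; linarith, by rw [hs]; linarith, by rw [hs]; linarith⟩

/-- **the data of a latitude cell**: the interval `[a, b]` of `c`, the scale `r`, the weight `w`, the substitute `R` of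
`1 / s²` with the price `η`, the number `n` of bisections, the bound `τ` of the remainder, the control vectors -/
structure Cell where
  a : ℚ
  b : ℚ
  r : ℚ
  w : List ℚ
  R : List ℚ
  η : ℚ
  n : ℕ
  τ : ℚ
  V : Fin 3 → Fin 21 → ℚ
  U : Fin 3 → Fin 28 → ℚ

/-- the total error of the cell -/
def Cell.err (D : Dat) (C : Cell) (μ : ℚ) : ℚ :=
  dst (D.vp C.w C.R C.η) C.a C.b C.r C.V c9q
    + 2 * μ * (dst D.up C.a C.b 1 C.U d8q * (2 * (siz C.U d8q + 16 / 5 * C.τ) + dst D.up C.a C.b 1 C.U d8q))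

/-- **the check of a cell** -/
def Cell.ok (D : Dat) (C : Cell) (μ T : ℚ) : Bool :=
  decide (0 ≤ C.a) && (decide (C.a < C.b) && (decide (0 < C.r) && (decide (0 < μ)
    && (decide (C.r + C.err D μ ≤ T) && chkR D.pA (padd D.pA (psm 2 D.pG)) C.R C.a C.b C.η C.n))))

theorem sum28' (f : Fin 28 → ℝ) : ∑ i, f i = ∑ i, (if i = 26 ∨ i = 27 then 0 else f i) + (f 26 + f 27) := by
  have e : ∑ i, f i = ∑ i : Fin 28, ((if i = 26 ∨ i = 27 then 0 else f i) + if i = 26 ∨ i = 27 then f i else 0) := by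
    refine Finset.sum_congr rfl fun i _ => ?_
    split_ifs <;> simp
  rw [e, Finset.sum_add_distrib]
  congr 1
  rw [BTI.sum28]
  simp

/-- **one latitude cell**: the certificate from the certificates at the three control vectors -/
theorem cell_NC {C : Cell} {μ T : ℚ} (H : C.ok D μ T = true) {W : ℝ → ℝ} {f : ℝ → ℝ} (hf : Re f)
    (hc : cF f ∈ Icc (C.a : ℝ) C.b) (hW : 2 * cF f * W (cF f) - X1 f ^ 2 * deriv W (cF f) = pe C.w (cF f))
    (hτ : ‖tau8 D.kk f (mo (C9 Psi8) (nf f) (xT f) (ef f) 0)‖ ≤ C.τ)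
    (h : ∀ j : Fin 3, BTG.NC (C9 Psi8) (nf f) (xT f) (ef f) (fun i => ((C.V j i : ℚ) : ℝ))
      (uT (C.U j) (tau8 D.kk f (mo (C9 Psi8) (nf f) (xT f) (ef f) 0))) ((μ / C.r : ℚ) : ℝ) 1) :
    CertAt9 (OM7.devK (B8 (kap D.kk) (dkap D.kk D.kk'))) W D.cof μ T f := by
  unfold Cell.ok at H
  simp only [Bool.and_eq_true, decide_eq_true_eq] at H
  obtain ⟨_ha, hab, hr, hμ, hT, hP⟩ := H
  have hc0 := hf.c0
  have hs : X1 f ^ 2 = 1 - cF f ^ 2 := by
    have := hf.c2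
    linarith
  have hr' : (0 : ℝ) < C.r := by exact_mod_cast hr
  have hμ' : (0 : ℝ) < μ := by exact_mod_cast hμ
  have hpol : PolR D.cof.C C.η (pe C.R (cF f)) (X1 f) (cF f) := by
    refine polR_of' hab hP hc hc0 hs (pA_eq hc0 hs) ?_
    rw [pe_padd, pe_psm, pA_eq hc0 hs, pG_eq hc0 hs]
    push_cast
    ring
  set τ := tau8 D.kk f (mo (C9 Psi8) (nf f) (xT f) (ef f) 0) with hτdef
  obtain ⟨ht0, ht1⟩ := tt_mem hab hc
  set t := tt C.a C.b (cF f) with ht
  set u : ℕ → Fin 28 → ℝ := fun j => if h : j < 3 then uT (C.U ⟨j, h⟩) τ else 0 with hu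
  have h1 : BTG.NC (C9 Psi8) (nf f) (xT f) (ef f) (∑ j ∈ Finset.range 3, bw 2 t j • cv C.V j)
      (∑ j ∈ Finset.range 3, bw 2 t j • u j) ((μ / C.r : ℚ) : ℝ) 1 := by
    refine BTG.NC.comb (BTG.sta hf.hf hf.h0 hf.h2) (fun j _ => BTN.bw_nonneg ht0 ht1 j) (BTN.bw_sum 2 t)
      (by push_cast; positivity) fun j hj => ?_
    have hj3 : j < 3 := Finset.mem_range.1 hj
    have e1 : cv C.V j = fun i => ((C.V ⟨j, hj3⟩ i : ℚ) : ℝ) := by
      funext i
      unfold cv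
      rw [dif_pos hj3]
    have e2 : u j = uT (C.U ⟨j, hj3⟩) τ := by
      rw [hu]
      show (if h : j < 3 then uT (C.U ⟨j, h⟩) τ else 0) = _
      rw [dif_pos hj3]
    rw [e1, e2]
    exact h ⟨j, hj3⟩
  have h2 := h1.scale hr'
  have e3 : (C.r : ℝ) * ((μ / C.r : ℚ) : ℝ) = μ := by
    push_cast
    field_simp
  rw [e3, mul_one] at h2
  have eu : ∀ q, (∑ j ∈ Finset.range 3, bw 2 t j • u j) q =
      if q = 26 then τ.re else if q = 27 then τ.im else b3 t (C.U 0 q) (C.U 1 q) (C.U 2 q) := by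
    intro q
    rw [Finset.sum_apply]
    simp only [Finset.sum_range_succ, Finset.sum_range_zero, zero_add, Pi.smul_apply, smul_eq_mul]
    have g0 : u 0 q = uT (C.U 0) τ q := rfl
    have g1 : u 1 q = uT (C.U 1) τ q := rfl
    have g2 : u 2 q = uT (C.U 2) τ q := rfl
    rw [g0, g1, g2]
    have hb := BTN.bw_sum 2 t
    simp only [Finset.sum_range_succ, Finset.sum_range_zero, zero_add] at hb
    unfold uT
    split_ifs
    · rw [← add_mul, ← add_mul, hb, one_mul]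
    · rw [← add_mul, ← add_mul, hb, one_mul]
    · rfl
  have hτ0 : (0 : ℝ) ≤ C.τ := (norm_nonneg _).trans hτ
  have hre : |τ.re| ≤ C.τ := (Complex.abs_re_le_norm τ).trans hτ
  have him : |τ.im| ≤ C.τ := (Complex.abs_im_le_norm τ).trans hτ
  have hδ : ∑ q, |u8 D.kk D.kk' (X1 f) (cF f) τ q - (∑ j ∈ Finset.range 3, bw 2 t j • u j) q| * d8 q ≤
      dst D.up C.a C.b 1 C.U d8q := by
    refine le_trans (Finset.sum_le_sum fun q _ => ?_) (dst_sound (P := D.up) (r := 1) (V := C.U) hab d8q_nonneg hc)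
    rw [eu, d8q_eq]
    have hd : (0 : ℝ) ≤ d8 q := by
      rw [← d8q_eq]
      exact_mod_cast d8q_nonneg q
    refine mul_le_mul_of_nonneg_right ?_ hd
    split_ifs with h26 h27
    · rw [h26]
      have : u8 D.kk D.kk' (X1 f) (cF f) τ 26 = τ.re := rfl
      rw [this, sub_self, abs_zero]
      exact abs_nonneg _
    · rw [h27]
      have : u8 D.kk D.kk' (X1 f) (cF f) τ 27 = τ.im := rfl
      rw [this, sub_self, abs_zero]
      exact abs_nonneg _
    · rw [up_eq hs τ q h26 h27]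
      push_cast
      rw [one_mul]
  have hU : ∑ q, |(∑ j ∈ Finset.range 3, bw 2 t j • u j) q| * d8 q ≤ ((siz C.U d8q + 16 / 5 * C.τ : ℚ) : ℝ) := by
    rw [sum28']
    have k1 : ∑ i : Fin 28, (if i = 26 ∨ i = 27 then 0 else |(∑ j ∈ Finset.range 3, bw 2 t j • u j) i| * d8 i) ≤
        (siz C.U d8q : ℝ) := by
      refine le_trans (Finset.sum_le_sum fun q _ => ?_) (siz_sound (V := C.U) d8q_nonneg ht0 ht1)
      rw [eu, d8q_eq]
      have hd : (0 : ℝ) ≤ d8 q := by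
        rw [← d8q_eq]
        exact_mod_cast d8q_nonneg q
      split_ifs with h1 h2 h3
      · positivity
      · exact absurd (Or.inl h2) h1
      · exact absurd (Or.inr h3) h1
      · exact le_rfl
    have k2 : |(∑ j ∈ Finset.range 3, bw 2 t j • u j) 26| * d8 26 ≤ C.τ * (8 / 5) := by
      rw [eu, if_pos rfl]
      have : d8 26 = 8 / 5 := rfl
      rw [this]
      exact mul_le_mul_of_nonneg_right hre (by norm_num)
    have k3 : |(∑ j ∈ Finset.range 3, bw 2 t j • u j) 27| * d8 27 ≤ C.τ * (8 / 5) := by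
      rw [eu, if_neg (by decide), if_pos rfl]
      have : d8 27 = 8 / 5 := rfl
      rw [this]
      exact mul_le_mul_of_nonneg_right him (by norm_num)
    push_cast
    linarith
  have hv : ∑ i, |vec9R W D.cof 0 C.η (pe C.R (cF f)) (X1 f) (cF f) i
      - ((C.r : ℝ) • ∑ j ∈ Finset.range 3, bw 2 t j • cv C.V j) i| * c9 i ≤
      dst (D.vp C.w C.R C.η) C.a C.b C.r C.V c9q := by
    refine le_trans (Finset.sum_le_sum fun i _ => ?_)
      (dst_sound (P := D.vp C.w C.R C.η) (r := C.r) (V := C.V) hab c9q_nonneg hc)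
    rw [Pi.smul_apply, smul_eq_mul, sum3_apply, c9q_eq, vp_eq hc0 hs hW]
  have hη : ∑ i, |vec9R W D.cof 0 C.η (pe C.R (cF f)) (X1 f) (cF f) i
      - ((C.r : ℝ) • ∑ j ∈ Finset.range 3, bw 2 t j • cv C.V j) i| * c9 i
      + 2 * (μ : ℝ) * ((dst D.up C.a C.b 1 C.U d8q : ℝ) * (2 * ((siz C.U d8q + 16 / 5 * C.τ : ℚ) : ℝ)
        + (dst D.up C.a C.b 1 C.U d8q : ℝ))) ≤ ((C.err D μ : ℚ) : ℝ) := by
    unfold Cell.err
    push_cast at hv ⊢
    linarith
  have h3 := NC_near (sml hf.hf hf.h0 hf.h2) hμ'.le psiLe8 h2 hδ hU hη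
  have h4 := certAt9X_of_NCR hμ'.le hf hpol (devLe_B8 hf D.kk D.kk') h3
  intro K hK hK1 A B hA hB
  refine (h4 K hK hK1 A B hA hB).trans ?_
  exact_mod_cast hT

/-- **one latitude cell**: the certificate from the certificates at the three control vectors for the states of the
class -/
theorem cell_RW {C : Cell} {μ T : ℚ} (H : C.ok D μ T = true) {W : ℝ → ℝ} {f : ℝ → ℝ} (hf : Re f)
    (hc : cF f ∈ Icc (C.a : ℝ) C.b) (hW : 2 * cF f * W (cF f) - X1 f ^ 2 * deriv W (cF f) = pe C.w (cF f))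
    (hτ : ‖tau8 D.kk f (mo (C9 Psi8) (nf f) (xT f) (ef f) 0)‖ ≤ C.τ) {s' : ℝ} (hs' : X1 f ≤ s') (h1 : s' ≤ 1)
    {P : (ℝ → ℝ) → Prop} (hP : P (Xa (X1 f) f))
    (h : ∀ j : Fin 3, ∀ τ : ℂ, ‖τ‖ ≤ C.τ → ∀ X, St s' X → (∀ a, |X a| ≤ 31 / 50 * s') → P X →
      BTG.RW (C9 Psi8) va X e1 (fun i => ((C.V j i : ℚ) : ℝ)) (uT (C.U j) τ) ((μ / C.r : ℚ) : ℝ) 1) :
    CertAt9 (OM7.devK (B8 (kap D.kk) (dkap D.kk D.kk'))) W D.cof μ T f := by
  have hS := (ALY.st hf.hf hf.h0 hf.h2).mono hf.h0 hs' h1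
  have hb : ∀ a, |Xa (X1 f) f a| ≤ 31 / 50 * s' := fun a => (BTN.Xa_bd hf.hf hf.h0 hf.h2 a).trans (by linarith)
  exact cell_NC H hf hc hW hτ fun j => BTG.NC_of_RW (BTG.sta hf.hf hf.h0 hf.h2)
    (BTG.RW_tr hf.hf hf.h0 hf.h2 (h j _ hτ _ hS hb hP))

end Pool.Agent.FPX.CEL
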