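import Mathlib
import Pool.Agent.FPX.BTQ

/-
WPP (helper86): the function `W` of the certificates from a continuous piecewise polynomial weight `w` with rational
coefficients: `2 c W - (1 - c²) W' = w` for `c > -1`, `W` is `C¹`, `W(0) = ∫₀¹ w` is a rational number; the weight on
each cell.
-/

open MeasureTheory Set Filter Topology

noncomputable section

namespace Pool.Agent.FPX.WPP

open Pool.Agent.FPX.BTQ (pe pe_nil pe_cons padd pe_padd)

/-! ### polynomials -/

theorem contDiff_pe (l : List ℚ) : ContDiff ℝ ⊤ (pe l) := by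
  induction l with
  | nil => exact contDiff_const
  | cons a l ih => exact contDiff_const.add (contDiff_id.mul ih)

theorem continuous_pe (l : List ℚ) : Continuous (pe l) := (contDiff_pe l).continuous

/-- the value at a rational number -/
def pq (l : List ℚ) (x : ℚ) : ℚ := l.foldr (fun a r => a + x * r) 0

theorem pe_pq (l : List ℚ) (x : ℚ) : pe l (x : ℝ) = ((pq l x : ℚ) : ℝ) := by
  induction l with
  | nil => simp [pq]
  | cons a l ih =>
    have : pq (a :: l) x = a + x * pq l x := rfl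
    rw [this, pe_cons, ih]
    push_cast
    ring

/-- the coefficients divided by `k + 1, k + 2, …` -/
def pin : ℕ → List ℚ → List ℚ
  | _, [] => []
  | k, a :: l => (a / ((k : ℚ) + 1)) :: pin (k + 1) l

theorem hasDerivAt_pin (k : ℕ) (l : List ℚ) (x : ℝ) :
    HasDerivAt (fun x => x ^ (k + 1) * pe (pin k l) x) (x ^ k * pe l x) x := by
  induction l generalizing k with
  | nil =>
    have e : (fun x : ℝ => x ^ (k + 1) * pe (pin k []) x) = fun _ => 0 := by
      funext y
      simp [pin]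
    rw [e, pe_nil, mul_zero]
    exact hasDerivAt_const x (0 : ℝ)
  | cons a l ih =>
    have e : (fun x : ℝ => x ^ (k + 1) * pe (pin k (a :: l)) x)
        = fun x => (a : ℝ) / ((k : ℝ) + 1) * x ^ (k + 1) + x ^ (k + 1 + 1) * pe (pin (k + 1) l) x := by
      funext y
      rw [pin, pe_cons]
      push_cast
      ring
    rw [e]
    have h1 : HasDerivAt (fun x : ℝ => (a : ℝ) / ((k : ℝ) + 1) * x ^ (k + 1))
        ((a : ℝ) / ((k : ℝ) + 1) * (((k + 1 : ℕ) : ℝ) * x ^ k)) x := (hasDerivAt_pow (k + 1) x).const_mul _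
    refine (h1.add (ih (k + 1))).congr_deriv ?_
    have hk : (k : ℝ) + 1 ≠ 0 := by positivity
    rw [pe_cons]
    push_cast
    field_simp
    ring

/-- the primitive -/
def pI (l : List ℚ) : List ℚ := 0 :: pin 0 l

theorem hasDerivAt_pI (l : List ℚ) (x : ℝ) : HasDerivAt (pe (pI l)) (pe l x) x := by
  have h := hasDerivAt_pin 0 l x
  have e : (fun x : ℝ => x ^ (0 + 1) * pe (pin 0 l) x) = pe (pI l) := by
    funext y
    rw [pI, pe_cons]
    push_cast
    ring
  rw [e, pow_zero, one_mul] at h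
  exact h

theorem int_pe (l : List ℚ) (a b : ℝ) : ∫ t in a..b, pe l t = pe (pI l) b - pe (pI l) a :=
  intervalIntegral.integral_eq_sub_of_hasDerivAt (fun x _ => hasDerivAt_pI l x)
    ((continuous_pe l).intervalIntegrable _ _)

/-- the quotient `(P(1) - P(c)) / (1 - c)` -/
def dv : List ℚ → List ℚ
  | [] => []
  | _ :: l => padd l (dv l)

theorem dv_mul (l : List ℚ) (c : ℝ) : (1 - c) * pe (dv l) c = pe l 1 - pe l c := by
  induction l with
  | nil => simp [dv]
  | cons a l ih =>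
    rw [dv, pe_padd, pe_cons, pe_cons, mul_add, ih]
    ring

/-! ### the function `W` -/

/-- the integral of `w - P` from `c` to `1` -/
def Wn (w : ℝ → ℝ) (m : List ℚ) (c : ℝ) : ℝ := ∫ t in c..1, (w t - pe m t)

/-- the function `W` -/
def Wp (w : ℝ → ℝ) (m : List ℚ) (c : ℝ) : ℝ := pe (dv (pI m)) c / (1 + c) + Wn w m c / (1 - c ^ 2)

/-- the hypothesis on the weight: continuous and equal to the polynomial `m` on `[c₁, ∞)` -/
structure Wt (w : ℝ → ℝ) (m : List ℚ) (c₁ : ℝ) : Prop where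
  cont : Continuous w
  lt : c₁ < 1
  eq : ∀ c, c₁ ≤ c → w c = pe m c

variable {w : ℝ → ℝ} {m : List ℚ} {c₁ : ℝ}

theorem hasDerivAt_Wn (h : Wt w m c₁) (c : ℝ) : HasDerivAt (Wn w m) (-(w c - pe m c)) c := by
  have hc : Continuous fun t => w t - pe m t := h.cont.sub (continuous_pe m)
  exact intervalIntegral.integral_hasDerivAt_left (hc.intervalIntegrable _ _)
    hc.stronglyMeasurable.stronglyMeasurableAtFilter hc.continuousAt

theorem contDiff_Wn (h : Wt w m c₁) : ContDiff ℝ 1 (Wn w m) := by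
  rw [contDiff_one_iff_deriv]
  refine ⟨fun c => (hasDerivAt_Wn h c).differentiableAt, ?_⟩
  have e : deriv (Wn w m) = fun c => -(w c - pe m c) := funext fun c => (hasDerivAt_Wn h c).deriv
  rw [e]
  exact (h.cont.sub (continuous_pe m)).neg

theorem Wn_zero (h : Wt w m c₁) {c : ℝ} (hc : c₁ ≤ c) : Wn w m c = 0 := by
  unfold Wn
  have : ∫ t in c..1, (w t - pe m t) = ∫ _t in c..1, (0 : ℝ) := by
    refine intervalIntegral.integral_congr fun t ht => ?_
    have h2 : c₁ ≤ t := by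
      rcases le_total c 1 with h3 | h3
      · rw [uIcc_of_le h3] at ht
        exact hc.trans ht.1
      · rw [uIcc_of_ge h3] at ht
        exact h.lt.le.trans ht.1
    show w t - pe m t = 0
    rw [h.eq t h2, sub_self]
  rw [this, intervalIntegral.integral_zero]

theorem Wp_eq (h : Wt w m c₁) {c : ℝ} (hc : c₁ ≤ c) : Wp w m c = pe (dv (pI m)) c / (1 + c) := by
  unfold Wp
  rw [Wn_zero h hc, zero_div, add_zero]

theorem Wp_ev (h : Wt w m c₁) {c : ℝ} (hc : c₁ < c) : Wp w m =ᶠ[𝓝 c] fun c => pe (dv (pI m)) c / (1 + c) := by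
  filter_upwards [lt_mem_nhds hc] with t ht
  exact Wp_eq h ht.le

theorem contDiffAt_dv (m : List ℚ) {c : ℝ} (hc : -1 < c) :
    ContDiffAt ℝ 1 (fun c : ℝ => pe (dv (pI m)) c / (1 + c)) c :=
  (((contDiff_pe _).of_le le_top).contDiffAt).div (contDiffAt_const.add contDiffAt_id) (by
    have : 0 < 1 + c := by linarith
    exact this.ne')

theorem contDiffAt_Wp (h : Wt w m c₁) {c : ℝ} (hc : -1 < c) : ContDiffAt ℝ 1 (Wp w m) c := by
  have h1 := contDiffAt_dv m hc
  rcases lt_or_ge c₁ c with h2 | h2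
  · exact h1.congr_of_eventuallyEq (Wp_ev h h2)
  · refine h1.add ((contDiff_Wn h).contDiffAt.div (contDiffAt_const.sub (contDiffAt_id.pow 2)) ?_)
    have h3 : c < 1 := h2.trans_lt h.lt
    show (1 : ℝ) - c ^ 2 ≠ 0
    nlinarith

/-- `W` is of class `C¹` -/
theorem contDiffOn_Wp (h : Wt w m c₁) : ContDiffOn ℝ 1 (Wp w m) (Ioi 0) := fun c hc =>
  (contDiffAt_Wp h (by have : (0 : ℝ) < c := hc; linarith)).contDiffWithinAt

theorem continuousOn_Wp (h : Wt w m c₁) : ContinuousOn (Wp w m) (Ici 0) := fun c hc =>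
  (contDiffAt_Wp h (by have : (0 : ℝ) ≤ c := hc; linarith)).continuousAt.continuousWithinAt

theorem hasDerivAt_dv (m : List ℚ) {c : ℝ} (hc : -1 < c) : ∃ d : ℝ,
    HasDerivAt (fun c : ℝ => pe (dv (pI m)) c / (1 + c)) d c ∧
    2 * c * (pe (dv (pI m)) c / (1 + c)) - (1 - c ^ 2) * d = pe m c := by
  have h0 : 0 < 1 + c := by linarith
  obtain ⟨d, hd⟩ : ∃ d, HasDerivAt (fun c : ℝ => pe (dv (pI m)) c / (1 + c)) d c :=
    ⟨_, ((contDiffAt_dv m hc).differentiableAt one_ne_zero).hasDerivAt⟩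
  refine ⟨d, hd, ?_⟩
  have h1 : HasDerivAt (fun c : ℝ => (1 - c ^ 2) * (pe (dv (pI m)) c / (1 + c)))
      (-(2 * c) * (pe (dv (pI m)) c / (1 + c)) + (1 - c ^ 2) * d) c := by
    have h2 : HasDerivAt (fun c : ℝ => 1 - c ^ 2) (-(2 * c)) c := by
      have := (hasDerivAt_pow 2 c).const_sub 1
      refine this.congr_deriv ?_
      push_cast
      ring
    exact h2.mul hd
  have h3 : HasDerivAt (fun c : ℝ => pe (pI m) 1 - pe (pI m) c) (-(pe m c)) c := (hasDerivAt_pI m c).const_sub _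
  have e : (fun c : ℝ => (1 - c ^ 2) * (pe (dv (pI m)) c / (1 + c))) =ᶠ[𝓝 c] fun c => pe (pI m) 1 - pe (pI m) c := by
    filter_upwards [lt_mem_nhds hc] with t ht
    rw [← dv_mul]
    have : 1 + t ≠ 0 := by
      have : 0 < 1 + t := by linarith
      exact this.ne'
    field_simp
    ring
  have h4 := (h1.congr_of_eventuallyEq e.symm).unique h3
  linarith

/-- **the equation of `W`** -/
theorem Wp_eqn (h : Wt w m c₁) {c : ℝ} (hc : -1 < c) :
    2 * c * Wp w m c - (1 - c ^ 2) * deriv (Wp w m) c = w c := by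
  have h0 : 0 < 1 + c := by linarith
  obtain ⟨d, hd, he⟩ := hasDerivAt_dv m hc
  rcases lt_or_ge c₁ c with h1 | h1
  · rw [(Wp_ev h h1).deriv_eq, hd.deriv, Wp_eq h h1.le, he, h.eq c h1.le]
  · have h2 : c < 1 := h1.trans_lt h.lt
    have h3 : 0 < 1 - c ^ 2 := by nlinarith
    have d2 := (hasDerivAt_Wn h c).div ((hasDerivAt_pow 2 c).const_sub 1) h3.ne'
    have d3 : HasDerivAt (Wp w m) _ c := hd.add d2
    rw [d3.deriv]
    unfold Wp
    have key : 2 * c * (Wn w m c / (1 - c ^ 2)) - (1 - c ^ 2) *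
        ((-(w c - pe m c) * (1 - c ^ 2) - Wn w m c * -(((2 : ℕ) : ℝ) * c ^ (2 - 1))) / (1 - c ^ 2) ^ 2)
        = w c - pe m c := by
      push_cast
      field_simp
      ring
    linarith

/-- **the value at zero** -/
theorem Wp_zero (h : Wt w m c₁) : Wp w m 0 = ∫ t in (0 : ℝ)..1, w t := by
  unfold Wp Wn
  rw [intervalIntegral.integral_sub (h.cont.intervalIntegrable _ _) ((continuous_pe m).intervalIntegrable _ _),
    int_pe]
  have := dv_mul (pI m) 0
  rw [sub_zero, one_mul] at this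
  rw [this]
  ring

/-! ### piecewise polynomial weights -/

/-- the function with the pieces `l` for `c ≤ b` and the last piece `m` -/
def pw : List (ℚ × List ℚ) → List ℚ → ℝ → ℝ
  | [], m, c => pe m c
  | p :: L, m, c => if c ≤ (p.1 : ℝ) then pe p.2 c else pw L m c

/-- the first piece -/
def hd : List (ℚ × List ℚ) → List ℚ → List ℚ
  | [], m => m
  | p :: _, _ => p.2

/-- the nodes increase and stay below `1`, the pieces agree at the nodes -/
def okW : ℚ → List (ℚ × List ℚ) → List ℚ → Bool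
  | a, [], _ => decide (a < 1)
  | a, p :: L, m => decide (a < p.1) && (decide (pq p.2 p.1 = pq (hd L m) p.1) && okW p.1 L m)

theorem okW_cons {a : ℚ} {p : ℚ × List ℚ} {L : List (ℚ × List ℚ)} {m : List ℚ} :
    okW a (p :: L) m = true ↔ a < p.1 ∧ pq p.2 p.1 = pq (hd L m) p.1 ∧ okW p.1 L m = true := by
  simp only [okW, Bool.and_eq_true, decide_eq_true_eq]

theorem okW_lt {a : ℚ} {L : List (ℚ × List ℚ)} {m : List ℚ} (H : okW a L m = true) : a < 1 := by
  induction L generalizing a with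
  | nil => simpa [okW] using H
  | cons p L ih =>
    obtain ⟨h1, _, h3⟩ := okW_cons.1 H
    exact h1.trans (ih h3)

theorem pw_hd {a : ℚ} {L : List (ℚ × List ℚ)} {m : List ℚ} (H : okW a L m = true) :
    pw L m (a : ℝ) = pe (hd L m) (a : ℝ) := by
  cases L with
  | nil => rfl
  | cons p L =>
    obtain ⟨h1, _, _⟩ := okW_cons.1 H
    have : (a : ℝ) ≤ (p.1 : ℝ) := by exact_mod_cast h1.le
    rw [pw, if_pos this, hd]

theorem pw_node {a : ℚ} {p : ℚ × List ℚ} {L : List (ℚ × List ℚ)} {m : List ℚ} (H : okW a (p :: L) m = true) :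
    pe p.2 (p.1 : ℝ) = pw L m (p.1 : ℝ) := by
  obtain ⟨_, h2, h3⟩ := okW_cons.1 H
  rw [pw_hd h3, pe_pq, pe_pq, h2]

/-- the weight is continuous -/
theorem continuous_pw {a : ℚ} {L : List (ℚ × List ℚ)} {m : List ℚ} (H : okW a L m = true) : Continuous (pw L m) := by
  induction L generalizing a with
  | nil => exact continuous_pe m
  | cons p L ih =>
    obtain ⟨_, _, h3⟩ := okW_cons.1 H
    have : Continuous fun c : ℝ => if c ≤ (p.1 : ℝ) then pe p.2 c else pw L m c :=
      Continuous.if_le (continuous_pe p.2) (ih h3) continuous_id continuous_const (fun x hx => by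
        have hx' : x = (p.1 : ℝ) := hx
        rw [hx']
        exact pw_node H)
    exact this

theorem pw_ge {a : ℚ} {p : ℚ × List ℚ} {L : List (ℚ × List ℚ)} {m : List ℚ} (H : okW a (p :: L) m = true) {c : ℝ}
    (h : (p.1 : ℝ) ≤ c) : pw (p :: L) m c = pw L m c := by
  rw [pw]
  rcases h.lt_or_eq with h1 | h1
  · rw [if_neg (not_le.2 h1)]
  · rw [← h1, if_pos le_rfl]
    exact pw_node H

/-- the last node -/
def ln : ℚ → List (ℚ × List ℚ) → ℚ
  | a, [] => a
  | _, p :: L => ln p.1 L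

theorem ln_ge {a : ℚ} {L : List (ℚ × List ℚ)} {m : List ℚ} (H : okW a L m = true) : a ≤ ln a L := by
  induction L generalizing a with
  | nil => exact le_rfl
  | cons p L ih =>
    obtain ⟨h1, _, h3⟩ := okW_cons.1 H
    exact h1.le.trans (ih h3)

theorem ln_lt {a : ℚ} {L : List (ℚ × List ℚ)} {m : List ℚ} (H : okW a L m = true) : ln a L < 1 := by
  induction L generalizing a with
  | nil => exact okW_lt H
  | cons p L ih => exact ih (okW_cons.1 H).2.2

theorem pw_last {a : ℚ} {L : List (ℚ × List ℚ)} {m : List ℚ} (H : okW a L m = true) {c : ℝ}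
    (h : ((ln a L : ℚ) : ℝ) ≤ c) : pw L m c = pe m c := by
  induction L generalizing a with
  | nil => rfl
  | cons p L ih =>
    obtain ⟨_, _, h3⟩ := okW_cons.1 H
    have h4 : (p.1 : ℝ) ≤ ((ln p.1 L : ℚ) : ℝ) := by exact_mod_cast ln_ge h3
    rw [pw_ge H (h4.trans h)]
    exact ih h3 h

/-- the hypothesis on the weight -/
theorem wt_pw {a : ℚ} {L : List (ℚ × List ℚ)} {m : List ℚ} (H : okW a L m = true) :
    Wt (pw L m) m ((ln a L : ℚ) : ℝ) where
  cont := continuous_pw H
  lt := by exact_mod_cast ln_lt H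
  eq := fun _ h => pw_last H h

/-- the integral from `a` to `1` -/
def iW : ℚ → List (ℚ × List ℚ) → List ℚ → ℚ
  | a, [], m => pq (pI m) 1 - pq (pI m) a
  | a, p :: L, m => pq (pI p.2) p.1 - pq (pI p.2) a + iW p.1 L m

theorem int_pw {a : ℚ} {L : List (ℚ × List ℚ)} {m : List ℚ} (H : okW a L m = true) :
    ∫ t in (a : ℝ)..1, pw L m t = ((iW a L m : ℚ) : ℝ) := by
  induction L generalizing a with
  | nil =>
    have e : ∫ t in (a : ℝ)..1, pw [] m t = ∫ t in (a : ℝ)..1, pe m t := rfl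
    rw [e, int_pe, iW, pe_pq]
    have := pe_pq (pI m) 1
    push_cast at this ⊢
    rw [this]
  | cons p L ih =>
    obtain ⟨h1, _, h3⟩ := okW_cons.1 H
    have h1' : (a : ℝ) ≤ (p.1 : ℝ) := by exact_mod_cast h1.le
    have h4 : (p.1 : ℝ) ≤ 1 := by exact_mod_cast (okW_lt h3).le
    have hc := continuous_pw H
    rw [← intervalIntegral.integral_add_adjacent_intervals (hc.intervalIntegrable (a : ℝ) (p.1 : ℝ))
      (hc.intervalIntegrable (p.1 : ℝ) 1)]
    have e1 : ∫ t in (a : ℝ)..(p.1 : ℝ), pw (p :: L) m t = ∫ t in (a : ℝ)..(p.1 : ℝ), pe p.2 t := by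
      refine intervalIntegral.integral_congr fun t ht => ?_
      rw [uIcc_of_le h1'] at ht
      show pw (p :: L) m t = pe p.2 t
      rw [pw, if_pos ht.2]
    have e2 : ∫ t in (p.1 : ℝ)..(1 : ℝ), pw (p :: L) m t = ∫ t in (p.1 : ℝ)..(1 : ℝ), pw L m t := by
      refine intervalIntegral.integral_congr fun t ht => ?_
      rw [uIcc_of_le h4] at ht
      exact pw_ge H ht.1
    rw [e1, e2, int_pe, ih h3, iW, pe_pq, pe_pq]
    push_cast
    ring

/-- **the value at zero of the piecewise polynomial weight** -/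
theorem Wp_pw_zero {L : List (ℚ × List ℚ)} {m : List ℚ} (H : okW 0 L m = true) :
    Wp (pw L m) m 0 = ((iW 0 L m : ℚ) : ℝ) := by
  rw [Wp_zero (wt_pw H), ← int_pw H]
  push_cast
  rfl

/-! ### cells -/

/-- the property `P` of the cell `[a, b]` and its piece, for all cells -/
def AllC (P : ℚ → ℚ → List ℚ → Prop) : ℚ → List (ℚ × List ℚ) → List ℚ → Prop
  | a, [], m => P a 1 m
  | a, p :: L, m => P a p.1 p.2 ∧ AllC P p.1 L m

theorem AllC.mono {P P' : ℚ → ℚ → List ℚ → Prop} (h : ∀ a b l, P a b l → P' a b l) {a : ℚ}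
    {L : List (ℚ × List ℚ)} {m : List ℚ} (H : AllC P a L m) : AllC P' a L m := by
  induction L generalizing a with
  | nil => exact h _ _ _ H
  | cons p L ih => exact ⟨h _ _ _ H.1, ih H.2⟩

/-- **every point is in a cell** -/
theorem exists_cell {P : ℚ → ℚ → List ℚ → Prop} {a : ℚ} {L : List (ℚ × List ℚ)} {m : List ℚ}
    (H : AllC P a L m) (hk : okW a L m = true) {c : ℝ} (h0 : (a : ℝ) ≤ c) (h1 : c ≤ 1) :
    ∃ (x y : ℚ) (l : List ℚ), P x y l ∧ a ≤ x ∧ x < y ∧ y ≤ 1 ∧ (x : ℝ) ≤ c ∧ c ≤ (y : ℝ) ∧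
      ∀ t : ℝ, (x : ℝ) ≤ t → t ≤ (y : ℝ) → pw L m t = pe l t := by
  induction L generalizing a with
  | nil => exact ⟨a, 1, m, H, le_rfl, okW_lt hk, le_rfl, h0, by push_cast; exact h1, fun _ _ _ => rfl⟩
  | cons p L ih =>
    obtain ⟨h2, _, h4⟩ := okW_cons.1 hk
    rcases le_total c (p.1 : ℝ) with h5 | h5
    · exact ⟨a, p.1, p.2, H.1, le_rfl, h2, (okW_lt h4).le, h0, h5, fun t _ ht => by rw [pw, if_pos ht]⟩
    · obtain ⟨x, y, l, k1, k2, k3, k4, k5, k6, k7⟩ := ih H.2 h4 h5
      refine ⟨x, y, l, k1, h2.le.trans k2, k3, k4, k5, k6, fun t ht ht' => ?_⟩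
      have : (p.1 : ℝ) ≤ t := le_trans (by exact_mod_cast k2) ht
      rw [pw_ge hk this]
      exact k7 t ht ht'

end Pool.Agent.FPX.WPP
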