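import Mathlib
import Pool.Agent.FPX.ASM
import Pool.Agent.FPX.CEL
import Pool.Agent.FPX.WPP

/-
ASL (helper86): the certificate `Cert9` from the list of latitude cells: polynomial weight on each cell, continuous at
the nodes; one certificate per cell (`CellW`), and the cell theorem of CEL in this form.
-/

open MeasureTheory Set Filter Topology Complex
open scoped ComplexConjugate

noncomputable section

set_option linter.unusedSectionVars false

namespace Pool.Agent.FPX.ASL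

open Pool.Agent.FPX.BTQ (pe)
open Pool.Agent.FPX.BTG (mo)
open Pool.Agent.FPX.BTI
open Pool.Agent.FPX.ALX
open Pool.Agent.FPX.BTN (va e1 nf ef)
open Pool.Agent.FPX.F54 (X1)
open Pool.Agent.FPX.OMS (cF)
open Pool.Agent.FPX.CERQ (xT)
open Pool.Agent.FPX.OM7 (RotDev devK)
open Pool.Agent.FPX.OMG (Cof9 CertAt9 Cert9 DevK)
open Pool.Agent.FPX.OMR (Re)
open Pool.Agent.FPX.XIP (B8)
open Pool.Agent.FPX.CEL (Dat Cell uT)
open Pool.Agent.FPX.ASM (CellOK)
open Pool.Agent.FPX.WPP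

variable {Bx : OM7.Dev} {F : Cof9} {μ T : ℝ}

/-- the certificate on the cell `[a, b]` for every function `W` with the polynomial weight `l` on the cell -/
def CellW (Bx : OM7.Dev) (F : Cof9) (μ T : ℝ) (a b : ℚ) (l : List ℚ) : Prop :=
  ∀ W : ℝ → ℝ, (∀ c : ℝ, 0 < c → (a : ℝ) ≤ c → c ≤ (b : ℝ) → 2 * c * W c - (1 - c ^ 2) * deriv W c = pe l c) →
    CellOK Bx W F μ T a b

/-- the function `W` of the assembly -/
def WL (L : List (ℚ × List ℚ)) (m : List ℚ) : ℝ → ℝ := Wp (pw L m) m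

theorem contDiffOn_WL {L : List (ℚ × List ℚ)} {m : List ℚ} (hk : okW 0 L m = true) :
    ContDiffOn ℝ 1 (WL L m) (Ioi 0) := contDiffOn_Wp (wt_pw hk)

theorem continuousOn_WL {L : List (ℚ × List ℚ)} {m : List ℚ} (hk : okW 0 L m = true) :
    ContinuousOn (WL L m) (Ici 0) := continuousOn_Wp (wt_pw hk)

theorem WL_zero {L : List (ℚ × List ℚ)} {m : List ℚ} (hk : okW 0 L m = true) :
    WL L m 0 = ((iW 0 L m : ℚ) : ℝ) := Wp_pw_zero hk

theorem WL_ge {L : List (ℚ × List ℚ)} {m : List ℚ} {w : ℚ} (hk : okW 0 L m = true) (hw : w ≤ iW 0 L m) :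
    (w : ℝ) ≤ WL L m 0 := by
  rw [WL_zero hk]
  exact_mod_cast hw

/-- **the certificate from the list of cells** -/
theorem cert9_of_list (HR : RotDev Bx) {L : List (ℚ × List ℚ)} {m : List ℚ} (hk : okW 0 L m = true)
    (H : AllC (CellW Bx F μ T) 0 L m) : Cert9 (devK Bx) (WL L m) F μ T := by
  refine OM7.cert9_of_real (OM7.rotK_devK HR) fun f hf hx h2 => ?_
  have R : Re f := ⟨hf, hx, h2⟩
  have hc0 := R.c0
  have hc1 : cF f ≤ 1 := OM7.cF_le
  obtain ⟨x, y, l, h, h3, h4, h5, h6, h7, h8⟩ := exists_cell H hk (c := cF f) (by push_cast; exact hc0.le) hc1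
  refine h _ (fun c k0 k1 k2 => ?_) f R h6 h7
  rw [WL, Wp_eqn (wt_pw hk) (by linarith)]
  exact h8 c k1 k2

/-! ### any class of certificates -/

/-- the property `P` of `(W, f)` at all states of the cell, for every function `W` with the polynomial weight `l` -/
def CellG (P : (ℝ → ℝ) → (ℝ → ℝ) → Prop) (a b : ℚ) (l : List ℚ) : Prop :=
  ∀ W : ℝ → ℝ, (∀ c : ℝ, 0 < c → (a : ℝ) ≤ c → c ≤ (b : ℝ) → 2 * c * W c - (1 - c ^ 2) * deriv W c = pe l c) →
    ∀ f, Re f → (a : ℝ) ≤ cF f → cF f ≤ (b : ℝ) → P W f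

theorem CellW.toG {a b : ℚ} {l : List ℚ} (H : CellW Bx F μ T a b l) :
    CellG (fun W f => CertAt9 (devK Bx) W F μ T f) a b l := fun W hW f R h1 h2 => H W hW f R h1 h2

/-- **a property of all states in the real frame from the list of cells** -/
theorem real_of_list {P : (ℝ → ℝ) → (ℝ → ℝ) → Prop} {L : List (ℚ × List ℚ)} {m : List ℚ} (hk : okW 0 L m = true)
    (H : AllC (CellG P) 0 L m) (f : ℝ → ℝ) (R : Re f) : P (WL L m) f := by
  have hc0 := R.c0
  have hc1 : cF f ≤ 1 := OM7.cF_le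
  obtain ⟨x, y, l, h, h3, h4, h5, h6, h7, h8⟩ := exists_cell H hk (c := cF f) (by push_cast; exact hc0.le) hc1
  refine h _ (fun c k0 k1 k2 => ?_) f R h6 h7
  rw [WL, Wp_eqn (wt_pw hk) (by linarith)]
  exact h8 c k1 k2

/-! ### the cell theorem of CEL -/

/-- the certificate at a control vector for all states of the class `s'` -/
def Ctl (s' τ μ : ℚ) (V : Fin 21 → ℚ) (U : Fin 28 → ℚ) : Prop :=
  ∀ t : ℂ, ‖t‖ ≤ (τ : ℝ) → ∀ X, St (s' : ℝ) X → (∀ a, |X a| ≤ 31 / 50 * (s' : ℝ)) →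
    BTG.RW (C9 Psi8) va X e1 (fun i => ((V i : ℚ) : ℝ)) (uT U t) (μ : ℝ) 1

/-- a smaller class -/
theorem Ctl.mono {s' s'' τ τ' μ : ℚ} {V : Fin 21 → ℚ} {U : Fin 28 → ℚ} (H : Ctl s' τ μ V U) (h0 : 0 ≤ s'')
    (hs : s'' ≤ s') (h1 : s' ≤ 1) (hτ : τ' ≤ τ) : Ctl s'' τ' μ V U := by
  intro t ht X hX hb
  have hs' : (s'' : ℝ) ≤ s' := by exact_mod_cast hs
  have hτ' : (τ' : ℝ) ≤ τ := by exact_mod_cast hτ
  have h0' : (0 : ℝ) ≤ s'' := by exact_mod_cast h0
  have h1' : (s' : ℝ) ≤ 1 := by exact_mod_cast h1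
  exact H t (ht.trans hτ') X (hX.mono h0' hs' h1') fun a => (hb a).trans (by linarith)

/-- the bound of the remainder of the start map on the cell -/
def TauB (D : Dat) (a b τ : ℚ) : Prop := ∀ f, Re f → (a : ℝ) ≤ cF f → cF f ≤ (b : ℝ) →
  ‖BTI.tau8 D.kk f (mo (C9 Psi8) (nf f) (xT f) (ef f) 0)‖ ≤ (τ : ℝ)

/-- **the cell theorem**: `CellW` from the Boolean check and the certificates at the control vectors -/
theorem cellW {D : Dat} {C : Cell} {μ T s' : ℚ} (hC : C.ok D μ T = true) (hτ : TauB D C.a C.b C.τ) (h0 : 0 ≤ s')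
    (h1 : s' ≤ 1) (hs : 1 - C.a ^ 2 ≤ s' ^ 2) (H : ∀ j : Fin 3, Ctl s' C.τ (μ / C.r) (C.V j) (C.U j)) :
    CellW (B8 (BTI.kap D.kk) (BTI.dkap D.kk D.kk')) D.cof μ T C.a C.b C.w := by
  intro W hW f R ha hb
  have ha0 : (0 : ℚ) ≤ C.a := by
    unfold Cell.ok at hC
    simp only [Bool.and_eq_true, decide_eq_true_eq] at hC
    exact hC.1
  have hs2 : (1 : ℝ) - (C.a : ℝ) ^ 2 ≤ (s' : ℝ) ^ 2 := by exact_mod_cast hs
  have hle : X1 f ≤ (s' : ℝ) := ASM.s_le R (by exact_mod_cast ha0) ha (by exact_mod_cast h0) hs2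
  have hs : X1 f ^ 2 = 1 - cF f ^ 2 := by
    have := R.c2
    linarith
  refine CEL.cell_RW (P := fun _ => True) hC R ⟨ha, hb⟩ ?_ (hτ f R ha hb) hle (by exact_mod_cast h1) trivial
    fun j t ht X hX hX1 _ => H j t ht X hX hX1
  rw [hs]
  exact hW _ R.c0 ha hb

end Pool.Agent.FPX.ASL
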