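import Mathlib
import Pool.Agent.FPX.CEL

/-
CEN (helper15): ONE LATITUDE CELL, general degree `n` of the control polygon, Young's inequality for the deviation
(`μ (1 + ε)` at the control vectors), exact factor `1 / s²` away from the pole (`okE`), polynomial substitute `ρ` near the
pole (`okP`).
-/

open MeasureTheory Set Filter Topology Complex
open scoped ComplexConjugate

noncomputable section

set_option linter.unusedSectionVars false

namespace Pool.Agent.FPX.BTG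

variable {J L I Q : Type} [Fintype L] [Fintype I] [Fintype Q] {C : Cls J L I Q}
variable {X : Type*} [MeasurableSpace X] {ν : Measure X} {D : X → ℝ} {E : X → ℂ}

/-- the deviation for close coefficients, Young's inequality -/
theorem dev_young {u u' : Q → ℝ} {m : J → ℂ} {A B : ℂ} {a b : L → ℂ} {d : Q → ℝ}
    (hd : ∀ q, ‖C.ψ q m A B a b‖ ≤ d q) {δ ε : ℝ} (hε : 0 < ε) (hδ : ∑ q, |u' q - u q| * d q ≤ δ) :
    ‖dev C u' m A B a b‖ ^ 2 ≤ (1 + ε) * ‖dev C u m A B a b‖ ^ 2 + (1 + 1 / ε) * δ ^ 2 := by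
  unfold dev
  set y : Q → ℂ := fun q => C.ψ q m A B a b with hy
  have a2 : ‖∑ q, ((u' q - u q : ℝ) : ℂ) * y q‖ ≤ δ := by
    refine ((norm_sum_le _ _).trans (Finset.sum_le_sum fun q _ => ?_)).trans hδ
    rw [norm_mul, Complex.norm_real, Real.norm_eq_abs]
    exact mul_le_mul_of_nonneg_left (hd q) (abs_nonneg _)
  have e : ∑ q, (u' q : ℂ) * y q = ∑ q, (u q : ℂ) * y q + ∑ q, ((u' q - u q : ℝ) : ℂ) * y q := by
    rw [← Finset.sum_add_distrib]
    refine Finset.sum_congr rfl fun q _ => ?_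
    push_cast
    ring
  have h := norm_add_le (∑ q, (u q : ℂ) * y q) (∑ q, ((u' q - u q : ℝ) : ℂ) * y q)
  rw [← e] at h
  have n0 := norm_nonneg (∑ q, (u' q : ℂ) * y q)
  have n1 := norm_nonneg (∑ q, (u q : ℂ) * y q)
  have n2 := norm_nonneg (∑ q, ((u' q - u q : ℝ) : ℂ) * y q)
  have hδ0 : 0 ≤ δ := n2.trans a2
  set p := ‖∑ q, (u q : ℂ) * y q‖
  have h1 : ‖∑ q, (u' q : ℂ) * y q‖ ^ 2 ≤ (p + δ) ^ 2 := pow_le_pow_left₀ n0 (by linarith) 2
  have h2 : 2 * p * δ ≤ ε * p ^ 2 + 1 / ε * δ ^ 2 := by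
    have h3 : 0 ≤ (ε * p - δ) ^ 2 / ε := by positivity
    have h4 : (ε * p - δ) ^ 2 / ε = ε * p ^ 2 - 2 * p * δ + 1 / ε * δ ^ 2 := by
      field_simp
      ring
    linarith
  linarith [h1, h2, (by ring : (p + δ) ^ 2 = p ^ 2 + 2 * p * δ + δ ^ 2),
    (by ring : (1 + ε) * p ^ 2 = p ^ 2 + ε * p ^ 2), (by ring : (1 + 1 / ε) * δ ^ 2 = δ ^ 2 + 1 / ε * δ ^ 2)]

/-- **perturbation of the coefficients**, the deviation with Young's inequality -/
theorem NC.nearE (H : Sta ν D E) {v v' : I → ℝ} {u u' : Q → ℝ} {μ T η ε δ : ℝ} {c : I → ℝ} {d : Q → ℝ} (hμ : 0 ≤ μ)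
    (hε : 0 < ε) (h : NC C ν D E v u (μ * (1 + ε)) T)
    (hc : ∀ K : X → ℂ, Measurable K → (∀ t, ‖K t‖ ≤ 1) → ∀ A B : ℂ,
      A - C.σ (mo C ν D E) * conj B = ∫ t, E t * conj (K t) ∂ν →
      B - C.σ (mo C ν D E) * conj A = ∫ t, E t * K t ∂ν → (∀ i, |ph C ν D E i K A B| ≤ c i) ∧
        ∀ q, ‖C.ψ q (mo C ν D E) A B (aK C ν D E K) (bK C ν D E K)‖ ≤ d q)
    (hδ : ∑ q, |u' q - u q| * d q ≤ δ)
    (hη : ∑ i, |v' i - v i| * c i + 2 * μ * ((1 + 1 / ε) * δ ^ 2) ≤ η) : NC C ν D E v' u' μ (T + η) := by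
  intro K hK hK1 A B hA hB
  obtain ⟨h1, h2'⟩ := hc K hK hK1 A B hA hB
  have h2 := dev_young (u := u) (u' := u') h2' hε hδ
  have h0 := h K hK hK1 A B hA hB
  rw [lh_eq H v u _ hK hK1] at h0
  rw [lh_eq H v' u' μ hK hK1]
  have h3 : ∑ i, v' i * ph C ν D E i K A B ≤ (∑ i, v i * ph C ν D E i K A B) + ∑ i, |v' i - v i| * c i := by
    rw [← Finset.sum_add_distrib]
    refine Finset.sum_le_sum fun i _ => ?_
    have a1 : (v' i - v i) * ph C ν D E i K A B ≤ |v' i - v i| * c i := by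
      calc _ ≤ |(v' i - v i) * ph C ν D E i K A B| := le_abs_self _
        _ = |v' i - v i| * |ph C ν D E i K A B| := abs_mul _ _
        _ ≤ |v' i - v i| * c i := mul_le_mul_of_nonneg_left (h1 i) (abs_nonneg _)
    linarith
  have h4 := mul_le_mul_of_nonneg_left h2 (show (0 : ℝ) ≤ 2 * μ by linarith)
  have e4 : 2 * μ * ((1 + ε) * ‖dev C u (mo C ν D E) A B (aK C ν D E K) (bK C ν D E K)‖ ^ 2
      + (1 + 1 / ε) * δ ^ 2) = 2 * (μ * (1 + ε)) * ‖dev C u (mo C ν D E) A B (aK C ν D E K) (bK C ν D E K)‖ ^ 2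
      + 2 * μ * ((1 + 1 / ε) * δ ^ 2) := by ring
  linarith

/-- monotonicity in `T` -/
theorem NC.mono {v : I → ℝ} {u : Q → ℝ} {μ T T' : ℝ} (h : NC C ν D E v u μ T) (hT : T ≤ T') :
    NC C ν D E v u μ T' := fun K hK hK1 A B hA hB => (h K hK hK1 A B hA hB).trans hT

end Pool.Agent.FPX.BTG

namespace Pool.Agent.FPX.BTI

open Pool.Agent.FPX.BTG (Sta Cls mo aK bK dev)

section

variable {Q : Type} [Fintype Q] {Ψ : Psi9 Q}
variable {X : Type*} [MeasurableSpace X] {ν : Measure X} {D : X → ℝ} {E : X → ℂ}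

/-- the a priori bounds of all terms -/
theorem apr (H : Sml Ψ ν D E) {d : Q → ℝ} (hΨ : PsiLe Ψ d) (K : X → ℂ) (hK1 : ∀ t, ‖K t‖ ≤ 1) (A B : ℂ)
    (hA : A - (C9 Ψ).σ (mo (C9 Ψ) ν D E) * conj B = ∫ t, E t * conj (K t) ∂ν)
    (hB : B - (C9 Ψ).σ (mo (C9 Ψ) ν D E) * conj A = ∫ t, E t * K t ∂ν) :
    (∀ i, |BTG.ph (C9 Ψ) ν D E i K A B| ≤ c9 i) ∧
      ∀ q, ‖(C9 Ψ).ψ q (mo (C9 Ψ) ν D E) A B (aK (C9 Ψ) ν D E K) (bK (C9 Ψ) ν D E K)‖ ≤ d q := by
  have := H.pr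
  have hσ : ‖(C9 Ψ).σ (mo (C9 Ψ) ν D E)‖ ≤ 3 / 8 := by
    show ‖3 / 2 * mo (C9 Ψ) ν D E 0‖ ≤ 3 / 8
    rw [norm_mul]
    have h3 := H.h3
    have : ‖(3 / 2 : ℂ)‖ = 3 / 2 := by norm_num
    rw [this]
    linarith
  obtain ⟨a, b⟩ := AB_le H.hE hK1 hσ hA hB
  have hx : ∀ t, ‖(D t : ℂ)‖ ≤ 31 / 50 := fun t => by
    rw [Complex.norm_real]
    exact H.hx t
  have hk : ∀ (φ : X → ℂ) (c : ℝ), 0 ≤ c → (∀ t, ‖φ t‖ ≤ c) → ‖∫ t, φ t * K t ∂ν‖ ≤ c ∧
      ‖∫ t, φ t * conj (K t) ∂ν‖ ≤ c := by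
    intro φ c hc hφ
    refine ⟨nI fun t => ?_, nI fun t => ?_⟩
    · rw [norm_mul]
      calc ‖φ t‖ * ‖K t‖ ≤ c * 1 := mul_le_mul (hφ t) (hK1 t) (norm_nonneg _) hc
        _ = c := mul_one c
    · rw [norm_mul, Complex.norm_conj]
      calc ‖φ t‖ * ‖K t‖ ≤ c * 1 := mul_le_mul (hφ t) (hK1 t) (norm_nonneg _) hc
        _ = c := mul_one c
  have k3 := hk (fun t => E t ^ 3) 1 zero_le_one fun t => by rw [norm_pow, H.hE, one_pow]
  have k2 := hk (fun t => (D t : ℂ) * E t ^ 2) (31 / 50) (by norm_num) fun t => by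
    rw [norm_mul, norm_pow, H.hE, one_pow, mul_one]
    exact hx t
  have k0 := hk (fun t => (D t : ℂ)) (31 / 50) (by norm_num) hx
  refine ⟨fun i => H.ph_le hK1 a b i, fun q => ?_⟩
  exact hΨ _ A B _ _ _ _ _ H.h3 H.m3 H.m4 H.m5 a b (nm H.h3 H.m1 a b k3.2).1 (nm H.h3 H.m1 a b k3.1).2
    (sr H.h3 H.m4 H.m5 a b k2.2).1 (sr H.h3 H.m4 H.m5 a b k2.1).2 k0.1 q

/-- **perturbation of the coefficients for the class `C9`**, Young's inequality for the deviation -/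
theorem NC_nearE (H : Sml Ψ ν D E) {v v' : V9} {u u' : Q → ℝ} {μ T ε : ℝ} (hμ : 0 ≤ μ) (hε : 0 < ε) {d : Q → ℝ}
    (hΨ : PsiLe Ψ d) (h : BTG.NC (C9 Ψ) ν D E v u (μ * (1 + ε)) T) {δ η : ℝ} (hδ : ∑ q, |u' q - u q| * d q ≤ δ)
    (hη : ∑ i, |v' i - v i| * c9 i + 2 * μ * ((1 + 1 / ε) * δ ^ 2) ≤ η) :
    BTG.NC (C9 Ψ) ν D E v' u' μ (T + η) :=
  BTG.NC.nearE H.toSta hμ hε h (fun K _ hK1 A B hA hB => apr H hΨ K hK1 A B hA hB) hδ hη

end

end Pool.Agent.FPX.BTI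

namespace Pool.Agent.FPX.CEL

open Pool.Agent.FPX.BTQ
open Pool.Agent.FPX.BTG (Sta Cls mo aK bK dev)
open Pool.Agent.FPX.ALX
open Pool.Agent.FPX.BTN (va e1 nf ef bw vecR PolR pa pg)
open Pool.Agent.FPX.UMP (Ef)
open Pool.Agent.FPX.F54 (X1 X2 X_lt X_G1 X_G2 sF)
open Pool.Agent.FPX.OMS (rF cF)
open Pool.Agent.FPX.CERQ (xT)
open Pool.Agent.FPX.OMG (Cof9 CertAt9)
open Pool.Agent.FPX.OMR (Re)
open Pool.Agent.FPX.BTI
open Pool.Agent.FPX.XIP (B8)

variable {D : Dat}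

/-! ### the vector with an arbitrary factor in place of `1 / s²` -/

/-- the components of `vec9R` as polynomials in `c`, without the factor `ρ` of the components `2, 6, 12` -/
def Dat.vq (D : Dat) (w : List ℚ) (η : ℚ) : Fin 21 → List ℚ :=
  ![w,
    lin [(-1, 1, 0, pd D.q), (1, 0, 0, D.z), (2, 0, 1, D.p), (-1, 1, 1, pd D.p), (6, 2, 0, D.p)],
    D.pA,
    lin [(1, 0, 1, D.p)],
    lin [(-2, 1, 1, pd D.x), (-3, 0, 1, D.x), (-2, 1, 2, pd D.y), (16, 2, 1, D.y), (3, 0, 2, D.y)],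
    lin [(1, 0, 2, D.y)],
    lin [(4, 0, 1, D.g), (-4, 1, 1, pd D.g), (8, 2, 0, D.g)],
    lin [(4, 0, 0, D.g)],
    D.q,
    D.z,
    lin [(1, 0, 1, D.x)],
    D.b,
    lin [(12, 2, 0, D.b)],
    lin [(-2, 1, 0, pd D.b)],
    [η / 2],
    lin [(2, 0, 0, D.p1)],
    lin [(2, 0, 1, D.p2)],
    [],
    [],
    lin [(-4, 1, 0, pd D.p1), (-4, 1, 1, pd D.p2), (8, 0, 1, D.p2), (24, 2, 0, D.p2)],
    []]

/-- the components with the factor `ρ` -/
def sg (i : Fin 21) : Bool := i == 2 || (i == 6 || i == 12)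

theorem vq_eq {W : ℝ → ℝ} {w : List ℚ} {η : ℚ} {ρ s c : ℝ} (hc : 0 < c) (hs : s ^ 2 = 1 - c ^ 2)
    (hW : 2 * c * W c - s ^ 2 * deriv W c = pe w c) (i : Fin 21) :
    vec9R W D.cof 0 η ρ s c i = (if sg i = true then ρ else 1) * pe (D.vq w η i) c := by
  have h := vp_eq (D := D) (R := []) (w := w) (η := η) (W := W) hc hs hW
  have hA := pA_eq (D := D) hc hs
  have key : ∀ j : Fin 21, sg j = false → vec9R W D.cof 0 η ρ s c j = vec9R W D.cof 0 η (pe [] c) s c j ∧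
      D.vp w [] η j = D.vq w η j := by
    intro j hj
    unfold vec9R vecR Dat.vp Dat.vq
    fin_cases j
    pick_goal 3
    · exact absurd hj (by decide)
    pick_goal 6
    · exact absurd hj (by decide)
    pick_goal 11
    · exact absurd hj (by decide)
    all_goals
      constructor <;>
        simp only [Fin.zero_eta, Fin.mk_one, Fin.reduceFinMk, Matrix.cons_val_zero, Matrix.cons_val_one,
          Matrix.cons_val]
  by_cases hi : sg i = true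
  · rw [if_pos hi]
    have hi3 : i = 2 ∨ i = 6 ∨ i = 12 := by
      unfold sg at hi
      simp only [Bool.or_eq_true, beq_iff_eq] at hi
      exact hi
    rcases hi3 with h1 | h1 | h1
    · rw [h1]
      have e1 : vec9R W D.cof 0 η ρ s c 2 = c ^ 2 * ρ * pa D.cof.C s c := by
        simp only [vec9R, vecR, Matrix.cons_val]
      have e2 : D.vq w η 2 = D.pA := by
        simp only [Dat.vq, Matrix.cons_val]
      rw [e1, e2, hA]
      ring
    · rw [h1]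
      have e1 : vec9R W D.cof 0 η ρ s c 6 =
          4 * c ^ 2 * ρ * (2 * c * (s ^ 2 * deriv D.cof.C.g (s ^ 2) + D.cof.C.g (s ^ 2))) := by
        simp only [vec9R, vecR, Matrix.cons_val]
      have e2 : D.vq w η 6 = lin [(4, 0, 1, D.g), (-4, 1, 1, pd D.g), (8, 2, 0, D.g)] := by
        simp only [Dat.vq, Matrix.cons_val]
      rw [e1, e2]
      simp only [Dat.cof, hs, hat_eq _ hc, deriv_hat _ hc, pe_lin_cons, pe_lin_nil]
      push_cast
      field_simp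
      ring
    · rw [h1]
      have e1 : vec9R W D.cof 0 η ρ s c 12 = 12 * c ^ 2 * ρ * D.cof.C.b (s ^ 2) := by
        simp only [vec9R, vecR, Matrix.cons_val]
      have e2 : D.vq w η 12 = lin [(12, 2, 0, D.b)] := by
        simp only [Dat.vq, Matrix.cons_val]
      rw [e1, e2]
      simp only [Dat.cof, hs, pln_eq _ hc, pe_lin_cons, pe_lin_nil]
      push_cast
      ring
  · rw [if_neg hi, one_mul]
    have hi' : sg i = false := by simpa using hi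
    obtain ⟨e1, e2⟩ := key i hi'
    rw [e1, h i, e2]

theorem vec9_R {W : ℝ → ℝ} {F : Cof9} {s c : ℝ} (i : Fin 21) :
    vec9 W F 0 s c i = vec9R W F 0 0 (1 / s ^ 2) s c i := by
  unfold vec9 vec9R BTN.vec vecR pa
  fin_cases i <;>
    simp only [Fin.zero_eta, Fin.mk_one, Fin.reduceFinMk, Matrix.cons_val_zero, Matrix.cons_val_one,
      Matrix.cons_val]
  · ring
  · ring
  · ring
  · ring

/-! ### Bernstein polynomials of degree `n` -/

/-- powers -/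
def pw (l : List ℚ) : ℕ → List ℚ
  | 0 => [1]
  | n + 1 => pmul l (pw l n)

theorem pe_pw (l : List ℚ) (n : ℕ) (x : ℝ) : pe (pw l n) x = pe l x ^ n := by
  induction n with
  | zero => simp [pw]
  | succ n ih => rw [pw, pe_pmul, ih, pow_succ, mul_comm]

/-- the Bernstein basis in `x = 2 t - 1` -/
def bas (n j : ℕ) : List ℚ := psm ((n.choose j : ℚ) / 2 ^ n) (pmul (pw [1, 1] j) (pw [1, -1] (n - j)))

theorem pe_bas {n j : ℕ} (hj : j ≤ n) (x : ℝ) : pe (bas n j) x = bw n ((1 + x) / 2) j := by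
  unfold bas bw
  rw [pe_psm, pe_pmul, pe_pw, pe_pw]
  simp only [pe_cons, pe_nil]
  have e1 : 1 - (1 + x) / 2 = (1 - x) / 2 := by ring
  have e2 : (2 : ℝ) ^ n = 2 ^ j * 2 ^ (n - j) := by rw [← pow_add, Nat.add_sub_cancel' hj]
  rw [e1, div_pow, div_pow]
  push_cast
  rw [e2]
  field_simp
  ring

/-- the combination of the first `k` basis polynomials -/
def bern (n : ℕ) (V : ℕ → ℚ) : ℕ → List ℚ
  | 0 => []
  | k + 1 => padd (bern n V k) (psm (V k) (bas n k))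

theorem pe_bern {n : ℕ} (V : ℕ → ℚ) {k : ℕ} (hk : k ≤ n + 1) (x : ℝ) :
    pe (bern n V k) x = ∑ j ∈ Finset.range k, bw n ((1 + x) / 2) j * V j := by
  induction k with
  | zero => rfl
  | succ k ih =>
    rw [bern, pe_padd, pe_psm, ih (by omega), Finset.sum_range_succ, pe_bas (by omega)]
    ring

/-- the weighted distance of the functions `P / S` from `r` times the control polygon -/
def dstn {m : ℕ} (n : ℕ) (P S : Fin m → List ℚ) (a b r : ℚ) (V : ℕ → Fin m → ℚ) (w : Fin m → ℚ) : ℚ :=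
  (List.finRange m).foldr (fun i y =>
    n1 (padd (pcomp (P i) ((a + b) / 2) ((b - a) / 2))
      (psm (-r) (pmul (pcomp (S i) ((a + b) / 2) ((b - a) / 2)) (bern n (fun j => V j i) (n + 1)))))
      / lb (pcomp (S i) ((a + b) / 2) ((b - a) / 2)) * w i + y) 0

/-- the denominators are positive -/
def pos {m : ℕ} (S : Fin m → List ℚ) (a b : ℚ) : Bool :=
  decide (∀ i, 0 < lb (pcomp (S i) ((a + b) / 2) ((b - a) / 2)))

theorem dstn_sound {m n : ℕ} {P S : Fin m → List ℚ} {a b r : ℚ} {V : ℕ → Fin m → ℚ} {w : Fin m → ℚ} (hab : a < b)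
    (hw : ∀ i, 0 ≤ w i) (hS : pos S a b = true) {c : ℝ} (hc : c ∈ Icc (a : ℝ) b) {v : Fin m → ℝ}
    (hv : ∀ i, pe (S i) c * v i = pe (P i) c) :
    ∑ i, |v i - r * ∑ j ∈ Finset.range (n + 1), bw n (tt a b c) j * V j i| * (w i : ℝ) ≤ dstn n P S a b r V w := by
  obtain ⟨x, hx, hcx, ht⟩ := cell_x hab hc
  unfold pos at hS
  simp only [decide_eq_true_eq] at hS
  unfold dstn
  rw [foldr_eq (fun i => n1 (padd (pcomp (P i) ((a + b) / 2) ((b - a) / 2))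
      (psm (-r) (pmul (pcomp (S i) ((a + b) / 2) ((b - a) / 2)) (bern n (fun j => V j i) (n + 1)))))
      / lb (pcomp (S i) ((a + b) / 2) ((b - a) / 2)) * w i)]
  push_cast
  refine Finset.sum_le_sum fun i _ => ?_
  have h5 : (0 : ℝ) ≤ w i := by exact_mod_cast hw i
  refine mul_le_mul_of_nonneg_right ?_ h5
  set L := lb (pcomp (S i) ((a + b) / 2) ((b - a) / 2)) with hL
  have hL0 : (0 : ℝ) < L := by exact_mod_cast hS i
  have hl := lb_le (pcomp (S i) ((a + b) / 2) ((b - a) / 2)) hx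
  rw [pe_pcomp, hcx] at hl
  have hS0 : 0 < pe (S i) c := hL0.trans_le hl
  have h := abs_pe_le (padd (pcomp (P i) ((a + b) / 2) ((b - a) / 2))
      (psm (-r) (pmul (pcomp (S i) ((a + b) / 2) ((b - a) / 2)) (bern n (fun j => V j i) (n + 1))))) hx
  rw [pe_padd, pe_psm, pe_pmul, pe_pcomp, pe_pcomp, hcx, pe_bern _ le_rfl, ← ht, ← hv i] at h
  rw [le_div_iff₀ hL0]
  set y := v i - r * ∑ j ∈ Finset.range (n + 1), bw n (tt a b c) j * (V j i : ℝ) with hy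
  have e : pe (S i) c * v i + ((-r : ℚ) : ℝ) * (pe (S i) c *
      ∑ j ∈ Finset.range (n + 1), bw n (tt a b c) j * ((V j i : ℚ) : ℝ)) = pe (S i) c * y := by
    rw [hy]
    push_cast
    ring
  rw [e, abs_mul, abs_of_pos hS0] at h
  calc |y| * L ≤ |y| * pe (S i) c := mul_le_mul_of_nonneg_left hl (abs_nonneg _)
    _ = pe (S i) c * |y| := mul_comm _ _
    _ ≤ _ := h

/-- **the data of a latitude cell**: the degree `n`, the interval `[a, b]` of `c`, the scale `r`, Young's constant `ε`, the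
weight `w`, the substitute `R` of `1 / s²` with the price `η` and the number `nb` of bisections (only near the pole), the
bound `τ` of the remainder, the control vectors `V j`, `U j`, `j ≤ n` -/
structure CellN where
  n : ℕ
  a : ℚ
  b : ℚ
  r : ℚ
  ε : ℚ
  w : List ℚ
  R : List ℚ
  η : ℚ
  nb : ℕ
  τ : ℚ
  V : ℕ → Fin 21 → ℚ
  U : ℕ → Fin 28 → ℚ

/-- the factor of the components `2, 6, 12` -/
def s2 (i : Fin 21) : List ℚ := if sg i = true then [1, 0, -1] else [1]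

/-- constant denominators -/
def s1 {m : ℕ} (_ : Fin m) : List ℚ := [1]

/-- the error of the deviation -/
def CellN.dl (D : Dat) (C : CellN) : ℚ := dstn C.n D.up s1 C.a C.b 1 C.U d8q

/-- the total error of the cell, exact factor `1 / s²` -/
def CellN.errE (D : Dat) (C : CellN) (μ : ℚ) : ℚ :=
  dstn C.n (D.vq C.w 0) s2 C.a C.b C.r C.V c9q + 2 * μ * ((1 + 1 / C.ε) * C.dl D ^ 2)

/-- the total error of the cell, with `ρ` -/
def CellN.errP (D : Dat) (C : CellN) (μ : ℚ) : ℚ :=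
  dstn C.n (D.vp C.w C.R C.η) s1 C.a C.b C.r C.V c9q + 2 * μ * ((1 + 1 / C.ε) * C.dl D ^ 2)

/-- the checks of the numbers -/
def CellN.num (C : CellN) (μ : ℚ) : Bool :=
  decide (0 ≤ C.a) && (decide (C.a < C.b) && (decide (0 < C.r) && (decide (0 < μ) && decide (0 < C.ε))))

/-- **the check of a cell, exact factor `1 / s²`** (`b < 1`) -/
def CellN.okE (D : Dat) (C : CellN) (μ T : ℚ) : Bool :=
  C.num μ && (decide (C.b < 1) && (pos s2 C.a C.b && decide (C.r + C.errE D μ ≤ T)))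

/-- **the check of a cell with `ρ`** -/
def CellN.okP (D : Dat) (C : CellN) (μ T : ℚ) : Bool :=
  C.num μ && (decide (C.r + C.errP D μ ≤ T) && chkR D.pA (padd D.pA (psm 2 D.pG)) C.R C.a C.b C.η C.nb)

/-- the control vectors with the remainder -/
def CellN.ut (C : CellN) (τ : ℂ) (j : ℕ) : Fin 28 → ℝ := uT (C.U j) τ

theorem comb_u {C : CellN} {t : ℝ} (τ : ℂ) (q : Fin 28) :
    (∑ j ∈ Finset.range (C.n + 1), bw C.n t j • C.ut τ j) q =
      if q = 26 then τ.re else if q = 27 then τ.im else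
        ∑ j ∈ Finset.range (C.n + 1), bw C.n t j * ((C.U j q : ℚ) : ℝ) := by
  rw [Finset.sum_apply]
  simp only [Pi.smul_apply, smul_eq_mul]
  unfold CellN.ut uT
  split_ifs
  · rw [← Finset.sum_mul, BTN.bw_sum, one_mul]
  · rw [← Finset.sum_mul, BTN.bw_sum, one_mul]
  · rfl

theorem s1_pos {m : ℕ} (a b : ℚ) : pos (s1 : Fin m → List ℚ) a b = true := by
  unfold pos
  simp only [decide_eq_true_eq]
  intro i
  simp [s1, pcomp, padd, pmul, psm, lb, n1]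

theorem dl_sound {C : CellN} (hab : C.a < C.b) {s c : ℝ} (hc : c ∈ Icc (C.a : ℝ) C.b) (hs : s ^ 2 = 1 - c ^ 2)
    (τ : ℂ) : ∑ q, |u8 D.kk D.kk' s c τ q
      - (∑ j ∈ Finset.range (C.n + 1), bw C.n (tt C.a C.b c) j • C.ut τ j) q| * d8 q ≤ ((C.dl D : ℚ) : ℝ) := by
  refine le_trans (Finset.sum_le_sum fun q _ => ?_) (dstn_sound (P := D.up) (S := s1) (r := 1) (V := C.U)
    (n := C.n) (v := fun q => pe (D.up q) c) hab d8q_nonneg (s1_pos _ _) hc (fun q => by simp [s1]))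
  rw [comb_u, d8q_eq]
  have hd : (0 : ℝ) ≤ d8 q := by
    rw [← d8q_eq]
    exact_mod_cast d8q_nonneg q
  refine mul_le_mul_of_nonneg_right ?_ hd
  split_ifs with h26 h27
  · rw [h26]
    have : u8 D.kk D.kk' s c τ 26 = τ.re := rfl
    rw [this, sub_self, abs_zero]
    exact abs_nonneg _
  · rw [h27]
    have : u8 D.kk D.kk' s c τ 27 = τ.im := rfl
    rw [this, sub_self, abs_zero]
    exact abs_nonneg _
  · rw [up_eq hs τ q h26 h27]
    push_cast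
    rw [one_mul]

/-- the combination of the control certificates -/
theorem comb_NC {C : CellN} {μ : ℚ} (hnum : C.num μ = true) {f : ℝ → ℝ} (hf : Re f)
    (hc : cF f ∈ Icc (C.a : ℝ) C.b) {τ : ℂ}
    (h : ∀ j ≤ C.n, BTG.NC (C9 Psi8) (nf f) (xT f) (ef f) (fun i => ((C.V j i : ℚ) : ℝ)) (uT (C.U j) τ)
      ((μ * (1 + C.ε) / C.r : ℚ) : ℝ) 1) :
    BTG.NC (C9 Psi8) (nf f) (xT f) (ef f)
      ((C.r : ℝ) • ∑ j ∈ Finset.range (C.n + 1), bw C.n (tt C.a C.b (cF f)) j • (fun i => ((C.V j i : ℚ) : ℝ)))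
      (∑ j ∈ Finset.range (C.n + 1), bw C.n (tt C.a C.b (cF f)) j • C.ut τ j) ((μ : ℝ) * (1 + C.ε)) C.r := by
  unfold CellN.num at hnum
  simp only [Bool.and_eq_true, decide_eq_true_eq] at hnum
  obtain ⟨_ha, hab, hr, hμ, hε⟩ := hnum
  have hr' : (0 : ℝ) < C.r := by exact_mod_cast hr
  have hμ' : (0 : ℝ) < μ := by exact_mod_cast hμ
  have hε' : (0 : ℝ) < C.ε := by exact_mod_cast hε
  obtain ⟨ht0, ht1⟩ := tt_mem hab hc
  have h1 := BTG.NC.comb (C := C9 Psi8) (BTG.sta hf.hf hf.h0 hf.h2) (S := Finset.range (C.n + 1))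
    (c := bw C.n (tt C.a C.b (cF f))) (v := fun j i => ((C.V j i : ℚ) : ℝ)) (u := fun j => C.ut τ j)
    (μ := ((μ * (1 + C.ε) / C.r : ℚ) : ℝ)) (T := 1)
    (fun j _ => BTN.bw_nonneg ht0 ht1 j) (BTN.bw_sum C.n _) (by push_cast; positivity)
    fun j hj => h j (Nat.lt_succ_iff.1 (Finset.mem_range.1 hj))
  have h2 := h1.scale hr'
  have e3 : (C.r : ℝ) * ((μ * (1 + C.ε) / C.r : ℚ) : ℝ) = (μ : ℝ) * (1 + C.ε) := by
    push_cast
    field_simp
  rw [e3, mul_one] at h2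
  exact h2

/-- **one latitude cell, exact factor `1 / s²`** -/
theorem cellE_NC {C : CellN} {μ T : ℚ} (H : C.okE D μ T = true) {W : ℝ → ℝ} {f : ℝ → ℝ} (hf : Re f)
    (hc : cF f ∈ Icc (C.a : ℝ) C.b) (hW : 2 * cF f * W (cF f) - X1 f ^ 2 * deriv W (cF f) = pe C.w (cF f))
    (h : ∀ j ≤ C.n, BTG.NC (C9 Psi8) (nf f) (xT f) (ef f) (fun i => ((C.V j i : ℚ) : ℝ))
      (uT (C.U j) (tau8 D.kk f (mo (C9 Psi8) (nf f) (xT f) (ef f) 0))) ((μ * (1 + C.ε) / C.r : ℚ) : ℝ) 1) :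
    CertAt9 (OM7.devK (B8 (kap D.kk) (dkap D.kk D.kk'))) W D.cof μ T f := by
  unfold CellN.okE at H
  simp only [Bool.and_eq_true, decide_eq_true_eq] at H
  obtain ⟨hnum, hb1, hpos, hT⟩ := H
  have h2 := comb_NC hnum hf hc h
  unfold CellN.num at hnum
  simp only [Bool.and_eq_true, decide_eq_true_eq] at hnum
  obtain ⟨_ha, hab, hr, hμ, hε⟩ := hnum
  have hc0 := hf.c0
  have hs : X1 f ^ 2 = 1 - cF f ^ 2 := by
    have := hf.c2
    linarith
  have hμ' : (0 : ℝ) < μ := by exact_mod_cast hμ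
  have hε' : (0 : ℝ) < C.ε := by exact_mod_cast hε
  have hb1' : (C.b : ℝ) < 1 := by exact_mod_cast hb1
  have hc1 : cF f < 1 := hc.2.trans_lt hb1'
  have hs0 : 0 < X1 f := by
    rcases hf.h0.lt_or_eq with h | h
    · exact h
    · rw [← h] at hs
      nlinarith
  have hv : ∑ i, |vec9 W D.cof 0 (X1 f) (cF f) i
      - ((C.r : ℝ) • ∑ j ∈ Finset.range (C.n + 1), bw C.n (tt C.a C.b (cF f)) j •
        (fun i => ((C.V j i : ℚ) : ℝ))) i| * c9 i ≤
      ((dstn C.n (D.vq C.w 0) s2 C.a C.b C.r C.V c9q : ℚ) : ℝ) := by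
    refine le_trans (Finset.sum_le_sum fun i _ => le_of_eq ?_)
      (dstn_sound (P := D.vq C.w 0) (S := s2) (r := C.r) (V := C.V) (n := C.n)
        (v := fun i => vec9 W D.cof 0 (X1 f) (cF f) i) hab c9q_nonneg hpos hc (fun i => ?_))
    · rw [Pi.smul_apply, smul_eq_mul, Finset.sum_apply, c9q_eq]
      simp only [Pi.smul_apply, smul_eq_mul]
    · have e := vq_eq (D := D) (W := W) (w := C.w) (η := 0) (ρ := 1 / X1 f ^ 2) hc0 hs hW i
      push_cast at e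
      rw [vec9_R, e]
      unfold s2
      split_ifs with hi
      · simp only [pe_cons, pe_nil]
        push_cast
        have hne : X1 f ^ 2 ≠ 0 := by positivity
        have e1 : (1 : ℝ) + cF f * (0 + cF f * (-1 + cF f * 0)) = X1 f ^ 2 := by
          rw [hs]
          ring
        rw [e1]
        field_simp
      · simp
  have h3 := NC_nearE (sml hf.hf hf.h0 hf.h2) hμ'.le hε' psiLe8 h2 (dl_sound (D := D) hab hc hs _)
    (η := ((C.errE D μ : ℚ) : ℝ)) (by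
      unfold CellN.errE
      push_cast at hv ⊢
      linarith)
  have h4 := certAt9X_of_NC hμ'.le hf.hf hs0 hf.h2 (devLe_B8 hf D.kk D.kk') h3
  intro K hK hK1 A B hA hB
  refine (h4 K hK hK1 A B hA hB).trans ?_
  exact_mod_cast hT

/-- **one latitude cell with `ρ`** (the pole may be in it) -/
theorem cellP_NC {C : CellN} {μ T : ℚ} (H : C.okP D μ T = true) {W : ℝ → ℝ} {f : ℝ → ℝ} (hf : Re f)
    (hc : cF f ∈ Icc (C.a : ℝ) C.b) (hW : 2 * cF f * W (cF f) - X1 f ^ 2 * deriv W (cF f) = pe C.w (cF f))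
    (h : ∀ j ≤ C.n, BTG.NC (C9 Psi8) (nf f) (xT f) (ef f) (fun i => ((C.V j i : ℚ) : ℝ))
      (uT (C.U j) (tau8 D.kk f (mo (C9 Psi8) (nf f) (xT f) (ef f) 0))) ((μ * (1 + C.ε) / C.r : ℚ) : ℝ) 1) :
    CertAt9 (OM7.devK (B8 (kap D.kk) (dkap D.kk D.kk'))) W D.cof μ T f := by
  unfold CellN.okP at H
  simp only [Bool.and_eq_true, decide_eq_true_eq] at H
  obtain ⟨hnum, hT, hP⟩ := H
  have h2 := comb_NC hnum hf hc h
  unfold CellN.num at hnum
  simp only [Bool.and_eq_true, decide_eq_true_eq] at hnum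
  obtain ⟨_ha, hab, hr, hμ, hε⟩ := hnum
  have hc0 := hf.c0
  have hs : X1 f ^ 2 = 1 - cF f ^ 2 := by
    have := hf.c2
    linarith
  have hμ' : (0 : ℝ) < μ := by exact_mod_cast hμ
  have hε' : (0 : ℝ) < C.ε := by exact_mod_cast hε
  have hpol : PolR D.cof.C C.η (pe C.R (cF f)) (X1 f) (cF f) := by
    refine polR_of' hab hP hc hc0 hs (pA_eq hc0 hs) ?_
    rw [pe_padd, pe_psm, pA_eq hc0 hs, pG_eq hc0 hs]
    push_cast
    ring
  have hv : ∑ i, |vec9R W D.cof 0 C.η (pe C.R (cF f)) (X1 f) (cF f) i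
      - ((C.r : ℝ) • ∑ j ∈ Finset.range (C.n + 1), bw C.n (tt C.a C.b (cF f)) j •
        (fun i => ((C.V j i : ℚ) : ℝ))) i| * c9 i ≤
      ((dstn C.n (D.vp C.w C.R C.η) s1 C.a C.b C.r C.V c9q : ℚ) : ℝ) := by
    refine le_trans (Finset.sum_le_sum fun i _ => le_of_eq ?_)
      (dstn_sound (P := D.vp C.w C.R C.η) (S := s1) (r := C.r) (V := C.V) (n := C.n)
        (v := fun i => vec9R W D.cof 0 C.η (pe C.R (cF f)) (X1 f) (cF f) i) hab c9q_nonneg (s1_pos _ _) hc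
        (fun i => ?_))
    · rw [Pi.smul_apply, smul_eq_mul, Finset.sum_apply, c9q_eq]
      simp only [Pi.smul_apply, smul_eq_mul]
    · rw [vp_eq hc0 hs hW]
      simp [s1]
  have h3 := NC_nearE (sml hf.hf hf.h0 hf.h2) hμ'.le hε' psiLe8 h2 (dl_sound (D := D) hab hc hs _)
    (η := ((C.errP D μ : ℚ) : ℝ)) (by
      unfold CellN.errP
      push_cast at hv ⊢
      linarith)
  have h4 := certAt9X_of_NCR hμ'.le hf hpol (devLe_B8 hf D.kk D.kk') h3
  intro K hK hK1 A B hA hB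
  refine (h4 K hK hK1 A B hA hB).trans ?_
  exact_mod_cast hT

/-- **the hypothesis at a control point**: the certificates for all states of the class `St s'` with the property `P` and all
remainders `|τ| ≤ τm` -/
def CRW (P : (ℝ → ℝ) → Prop) (s' : ℝ) (V : Fin 21 → ℚ) (U : Fin 28 → ℚ) (μ τm : ℚ) : Prop :=
  ∀ τ : ℂ, ‖τ‖ ≤ τm → ∀ X, St s' X → (∀ a, |X a| ≤ 31 / 50 * s') → P X →
    BTG.RW (C9 Psi8) va X e1 (fun i => ((V i : ℚ) : ℝ)) (uT U τ) (μ : ℝ) 1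

theorem CRW.mono {P : (ℝ → ℝ) → Prop} {s' s'' : ℝ} {V : Fin 21 → ℚ} {U : Fin 28 → ℚ} {μ τm τm' : ℚ}
    (h : CRW P s'' V U μ τm') (h0 : 0 ≤ s') (hs : s' ≤ s'') (h1 : s'' ≤ 1) (hτ : τm ≤ τm') : CRW P s' V U μ τm :=
  fun τ ht X hX hb hP => h τ (ht.trans (by exact_mod_cast hτ)) X (hX.mono h0 hs h1)
    (fun a => (hb a).trans (by linarith)) hP

theorem nc_of_crw {P : (ℝ → ℝ) → Prop} {s' : ℝ} {V : Fin 21 → ℚ} {U : Fin 28 → ℚ} {μ τm : ℚ}
    (h : CRW P s' V U μ τm) {f : ℝ → ℝ} (hf : Re f) (hs' : X1 f ≤ s') (h1 : s' ≤ 1) (hP : P (Xa (X1 f) f)) {τ : ℂ}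
    (hτ : ‖τ‖ ≤ τm) : BTG.NC (C9 Psi8) (nf f) (xT f) (ef f) (fun i => ((V i : ℚ) : ℝ)) (uT U τ) (μ : ℝ) 1 := by
  have hS := (ALY.st hf.hf hf.h0 hf.h2).mono hf.h0 hs' h1
  have hb : ∀ a, |Xa (X1 f) f a| ≤ 31 / 50 * s' := fun a => (BTN.Xa_bd hf.hf hf.h0 hf.h2 a).trans (by linarith)
  exact BTG.NC_of_RW (BTG.sta hf.hf hf.h0 hf.h2) (BTG.RW_tr hf.hf hf.h0 hf.h2 (h _ hτ _ hS hb hP))

/-- **one latitude cell**, exact factor `1 / s²` -/
theorem cellE {C : CellN} {μ T : ℚ} (H : C.okE D μ T = true) {W : ℝ → ℝ} {f : ℝ → ℝ} (hf : Re f)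
    (hc : cF f ∈ Icc (C.a : ℝ) C.b) (hW : 2 * cF f * W (cF f) - X1 f ^ 2 * deriv W (cF f) = pe C.w (cF f))
    (hτ : ‖tau8 D.kk f (mo (C9 Psi8) (nf f) (xT f) (ef f) 0)‖ ≤ C.τ) {s' : ℝ} (hs' : X1 f ≤ s') (h1 : s' ≤ 1)
    {P : (ℝ → ℝ) → Prop} (hP : P (Xa (X1 f) f))
    (h : ∀ j ≤ C.n, CRW P s' (C.V j) (C.U j) (μ * (1 + C.ε) / C.r) C.τ) :
    CertAt9 (OM7.devK (B8 (kap D.kk) (dkap D.kk D.kk'))) W D.cof μ T f :=
  cellE_NC H hf hc hW fun j hj => nc_of_crw (h j hj) hf hs' h1 hP hτ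

/-- **one latitude cell**, with `ρ` -/
theorem cellP {C : CellN} {μ T : ℚ} (H : C.okP D μ T = true) {W : ℝ → ℝ} {f : ℝ → ℝ} (hf : Re f)
    (hc : cF f ∈ Icc (C.a : ℝ) C.b) (hW : 2 * cF f * W (cF f) - X1 f ^ 2 * deriv W (cF f) = pe C.w (cF f))
    (hτ : ‖tau8 D.kk f (mo (C9 Psi8) (nf f) (xT f) (ef f) 0)‖ ≤ C.τ) {s' : ℝ} (hs' : X1 f ≤ s') (h1 : s' ≤ 1)
    {P : (ℝ → ℝ) → Prop} (hP : P (Xa (X1 f) f))
    (h : ∀ j ≤ C.n, CRW P s' (C.V j) (C.U j) (μ * (1 + C.ε) / C.r) C.τ) :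
    CertAt9 (OM7.devK (B8 (kap D.kk) (dkap D.kk D.kk'))) W D.cof μ T f :=
  cellP_NC H hf hc hW fun j hj => nc_of_crw (h j hj) hf hs' h1 hP hτ

end Pool.Agent.FPX.CEL
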