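import Mathlib
import Pool.Agent.FPX.ASL
import Pool.Agent.FPX.CEN

/-
ASN (helper86): the cells of CEN (general degree, exact factor `1 / s²` or `ρ`) in the form of the list theorem of ASL.
-/

open MeasureTheory Set Filter Topology Complex
open scoped ComplexConjugate

noncomputable section

namespace Pool.Agent.FPX.ASL

open Pool.Agent.FPX.BTQ (pe)
open Pool.Agent.FPX.BTG (mo)
open Pool.Agent.FPX.BTI
open Pool.Agent.FPX.ALX
open Pool.Agent.FPX.BTN (va e1 nf ef)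
open Pool.Agent.FPX.F54 (X1)
open Pool.Agent.FPX.OMS (cF)
open Pool.Agent.FPX.CERQ (xT)
open Pool.Agent.FPX.OMG (CertAt9)
open Pool.Agent.FPX.OMR (Re)
open Pool.Agent.FPX.XIP (B8)
open Pool.Agent.FPX.CEL (Dat CellN uT CRW)

/-- the states of the cell have the property `P` -/
def CelP (P : (ℝ → ℝ) → Prop) (a b : ℚ) : Prop := ∀ f, Re f → (a : ℝ) ≤ cF f → cF f ≤ (b : ℝ) → P (Xa (X1 f) f)

theorem celP_true (a b : ℚ) : CelP (fun _ => True) a b := fun _ _ _ _ => trivial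

theorem s_facts {f : ℝ → ℝ} (R : Re f) {a s' : ℚ} (h0 : 0 ≤ s') (ha0 : 0 ≤ a) (hs : 1 - a ^ 2 ≤ s' ^ 2)
    (ha : (a : ℝ) ≤ cF f) : X1 f ≤ (s' : ℝ) ∧ X1 f ^ 2 = 1 - cF f ^ 2 := by
  have hs2 : (1 : ℝ) - (a : ℝ) ^ 2 ≤ (s' : ℝ) ^ 2 := by exact_mod_cast hs
  refine ⟨ASM.s_le R (by exact_mod_cast ha0) ha (by exact_mod_cast h0) hs2, ?_⟩
  have := R.c2
  linarith

/-- **the cell theorem**, exact factor `1 / s²` -/
theorem cellE {D : Dat} {C : CellN} {μ T s' : ℚ} {P : (ℝ → ℝ) → Prop} (hC : C.okE D μ T = true)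
    (hτ : TauB D C.a C.b C.τ) (hP : CelP P C.a C.b) (h0 : 0 ≤ s') (h1 : s' ≤ 1) (hs : 1 - C.a ^ 2 ≤ s' ^ 2)
    (H : ∀ j ≤ C.n, CRW P (s' : ℝ) (C.V j) (C.U j) (μ * (1 + C.ε) / C.r) C.τ) :
    CellW (B8 (kap D.kk) (dkap D.kk D.kk')) D.cof μ T C.a C.b C.w := by
  intro W hW f R ha hb
  have ha0 : (0 : ℚ) ≤ C.a := by
    have h := hC
    unfold CellN.okE CellN.num at h
    simp only [Bool.and_eq_true, decide_eq_true_eq] at h
    exact h.1.1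
  obtain ⟨hle, e⟩ := s_facts R h0 ha0 hs ha
  refine CEL.cellE hC R ⟨ha, hb⟩ ?_ (hτ f R ha hb) hle (by exact_mod_cast h1) (hP f R ha hb) H
  rw [e]
  exact hW _ R.c0 ha hb

/-- **the cell theorem**, with `ρ` -/
theorem cellP {D : Dat} {C : CellN} {μ T s' : ℚ} {P : (ℝ → ℝ) → Prop} (hC : C.okP D μ T = true)
    (hτ : TauB D C.a C.b C.τ) (hP : CelP P C.a C.b) (h0 : 0 ≤ s') (h1 : s' ≤ 1) (hs : 1 - C.a ^ 2 ≤ s' ^ 2)
    (H : ∀ j ≤ C.n, CRW P (s' : ℝ) (C.V j) (C.U j) (μ * (1 + C.ε) / C.r) C.τ) :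
    CellW (B8 (kap D.kk) (dkap D.kk D.kk')) D.cof μ T C.a C.b C.w := by
  intro W hW f R ha hb
  have ha0 : (0 : ℚ) ≤ C.a := by
    have h := hC
    unfold CellN.okP CellN.num at h
    simp only [Bool.and_eq_true, decide_eq_true_eq] at h
    exact h.1.1
  obtain ⟨hle, e⟩ := s_facts R h0 ha0 hs ha
  refine CEL.cellP hC R ⟨ha, hb⟩ ?_ (hτ f R ha hb) hle (by exact_mod_cast h1) (hP f R ha hb) H
  rw [e]
  exact hW _ R.c0 ha hb

end Pool.Agent.FPX.ASL
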