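import Mathlib
import Pool.Agent.FPX.ASL

/-
ASR (helper86): a row of the certificate whose latitude cells are finer than the pieces of the weight: the function
`W = WL L m` of the pieces `L`, `m`, and a second list `N`, `n` of cells, each cell inside one piece and with its polynomial.
-/

open MeasureTheory Set Filter Topology

noncomputable section

namespace Pool.Agent.FPX.ASL

open Pool.Agent.FPX.BTQ (pe)
open Pool.Agent.FPX.OMS (cF)
open Pool.Agent.FPX.OM7 (RotDev devK)
open Pool.Agent.FPX.OMG (Cof9 CertAt9 Cert9 DevK)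
open Pool.Agent.FPX.OMR (Re)
open Pool.Agent.FPX.WPP

/-- the cell `[a, b]` with the polynomial `l` is inside a piece of the weight (first node `x`) -/
def sub : ℚ → List (ℚ × List ℚ) → List ℚ → ℚ → ℚ → List ℚ → Bool
  | x, [], m, a, b, l => decide (x ≤ a) && (decide (b ≤ 1) && decide (l = m))
  | x, p :: L, m, a, b, l => (decide (x ≤ a) && (decide (b ≤ p.1) && decide (l = p.2))) || sub p.1 L m a b l

theorem sub_le {x : ℚ} {L : List (ℚ × List ℚ)} {m : List ℚ} {a b : ℚ} {l : List ℚ} (hk : okW x L m = true)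
    (h : sub x L m a b l = true) : x ≤ a := by
  induction L generalizing x with
  | nil =>
    simp only [sub, Bool.and_eq_true, decide_eq_true_eq] at h
    exact h.1
  | cons p L ih =>
    obtain ⟨h1, _, h3⟩ := okW_cons.1 hk
    simp only [sub, Bool.or_eq_true, Bool.and_eq_true, decide_eq_true_eq] at h
    rcases h with h | h
    · exact h.1
    · exact h1.le.trans (ih h3 h)

/-- the weight on the cell -/
theorem pw_sub {x : ℚ} {L : List (ℚ × List ℚ)} {m : List ℚ} {a b : ℚ} {l : List ℚ} (hk : okW x L m = true)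
    (h : sub x L m a b l = true) {c : ℝ} (ha : (a : ℝ) ≤ c) (hb : c ≤ (b : ℝ)) : pw L m c = pe l c := by
  induction L generalizing x with
  | nil =>
    simp only [sub, Bool.and_eq_true, decide_eq_true_eq] at h
    rw [h.2.2]
    rfl
  | cons p L ih =>
    obtain ⟨_, _, h3⟩ := okW_cons.1 hk
    simp only [sub, Bool.or_eq_true, Bool.and_eq_true, decide_eq_true_eq] at h
    rcases h with h | h
    · have : c ≤ (p.1 : ℝ) := hb.trans (by exact_mod_cast h.2.1)
      rw [pw, if_pos this, h.2.2]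
    · have h4 := sub_le h3 h
      have h5 : (p.1 : ℝ) ≤ c := le_trans (by exact_mod_cast h4) ha
      rw [pw_ge hk h5]
      exact ih h3 h

/-- every cell of the second list is inside a piece -/
def subs (L : List (ℚ × List ℚ)) (m : List ℚ) : ℚ → List (ℚ × List ℚ) → List ℚ → Bool
  | a, [], n => sub 0 L m a 1 n
  | a, p :: N, n => sub 0 L m a p.1 p.2 && subs L m p.1 N n

/-- every point is in a cell of the second list -/
theorem exists_sub {P : ℚ → ℚ → List ℚ → Prop} {L : List (ℚ × List ℚ)} {m : List ℚ} (hk : okW 0 L m = true)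
    {a : ℚ} {N : List (ℚ × List ℚ)} {n : List ℚ} (hs : subs L m a N n = true) (H : AllC P a N n) {c : ℝ}
    (h0 : (a : ℝ) ≤ c) (h1 : c ≤ 1) : ∃ (x y : ℚ) (l : List ℚ), P x y l ∧ (x : ℝ) ≤ c ∧ c ≤ (y : ℝ) ∧
      ∀ t : ℝ, (x : ℝ) ≤ t → t ≤ (y : ℝ) → pw L m t = pe l t := by
  induction N generalizing a with
  | nil => exact ⟨a, 1, n, H, h0, by push_cast; exact h1, fun t k1 k2 => pw_sub hk hs k1 k2⟩
  | cons p N ih =>
    simp only [subs, Bool.and_eq_true] at hs
    rcases le_total c (p.1 : ℝ) with h5 | h5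
    · exact ⟨a, p.1, p.2, H.1, h0, h5, fun t k1 k2 => pw_sub hk hs.1 k1 k2⟩
    · exact ih hs.2 H.2 h5

/-- **a property of all states in the real frame**, cells finer than the pieces of the weight -/
theorem real_of_sub {P : (ℝ → ℝ) → (ℝ → ℝ) → Prop} {L : List (ℚ × List ℚ)} {m : List ℚ} (hk : okW 0 L m = true)
    {N : List (ℚ × List ℚ)} {n : List ℚ} (hs : subs L m 0 N n = true) (H : AllC (CellG P) 0 N n) (f : ℝ → ℝ)
    (R : Re f) : P (WL L m) f := by
  have hc0 := R.c0
  have hc1 : cF f ≤ 1 := OM7.cF_le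
  obtain ⟨x, y, l, h, h6, h7, h8⟩ := exists_sub hk hs H (c := cF f) (by push_cast; exact hc0.le) hc1
  refine h _ (fun c k0 k1 k2 => ?_) f R h6 h7
  rw [WL, Wp_eqn (wt_pw hk) (by linarith)]
  exact h8 c k1 k2

/-- the same for `Cert9` -/
theorem cert9_of_sub {Bx : OM7.Dev} {F : Cof9} {μ T : ℝ} (HR : RotDev Bx) {L : List (ℚ × List ℚ)} {m : List ℚ}
    (hk : okW 0 L m = true) {N : List (ℚ × List ℚ)} {n : List ℚ} (hs : subs L m 0 N n = true)
    (H : AllC (CellW Bx F μ T) 0 N n) : Cert9 (devK Bx) (WL L m) F μ T := by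
  refine OM7.cert9_of_real (OM7.rotK_devK HR) fun f hf hx h2 => ?_
  exact real_of_sub (P := fun W f => CertAt9 (devK Bx) W F μ T f) hk hs (H.mono fun a b l h => h.toG) f
    ⟨hf, hx, h2⟩

end Pool.Agent.FPX.ASL
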