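import Pool.Agent.FPX.NOT

/-
AVI (helper39): the interface of the scheme of cell averages. A state is replaced by its averages `z i` over
`N` cells and the averages `A i` of its square.
-/

set_option autoImplicit false

noncomputable section

namespace Pool.Agent.FPX.AVI

open Pool.Agent.FPX.NOT (Gq)

/-- bound of the variance in a cell: a constant; a product of two neighbouring increments -/
inductive VK
  | cst (c : ℚ)
  | up (c : ℚ)
  | dn (c : ℚ)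

/-- the data -/
structure AD where
  N : ℕ
  xm : ℚ
  Lt : ℕ → ℚ
  Ht : ℕ → ℚ
  a : ℕ → ℕ → Gq
  e : ℕ → ℚ
  V : ℕ → VK

/-- the two nonnegative increments -/
def AD.q (D : AD) (z : ℕ → ℝ) (i : ℕ) : ℝ := D.Lt i + (z (i + 1) - z i)

def AD.p (D : AD) (z : ℕ → ℝ) (i : ℕ) : ℝ := D.Ht i - (z (i + 1) - z i)

/-- the bound of the variance in the cell `i` -/
def AD.Vv (D : AD) (z : ℕ → ℝ) (i : ℕ) : ℝ :=
  match D.V i with
  | .cst c => c
  | .up c => D.q z (i - 1) * D.q z i + c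
  | .dn c => (if i = 0 then D.q z (D.N - 1) else D.p z (i - 1)) * D.p z i + c

/-- the nodal value of the harmonic `n` -/
def AD.w (D : AD) (n : ℕ) (z : ℕ → ℝ) : ℂ := ∑ i ∈ Finset.range D.N, (D.a n i).toC * (z i : ℂ)

/-- a state and its averages -/
structure Av (D : AD) (u Z : ℤ → ℂ) (z A : ℕ → ℝ) : Prop where
  last : z D.N = -z 0
  lo : ∀ i < D.N, 0 ≤ D.q z i
  hi : ∀ i < D.N, 0 ≤ D.p z i
  bd : ∀ i, |z i| ≤ D.xm
  one : ‖D.w 1 z‖ ≤ D.e 1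
  lin : ∀ n : ℕ, n = 3 ∨ n = 5 ∨ n = 7 ∨ n = 9 → ‖u n - D.w n z‖ ≤ D.e n
  A0 : ∀ i < D.N, z i ^ 2 ≤ A i
  A1 : ∀ i < D.N, A i ≤ z i ^ 2 + D.Vv z i
  quad : ∀ n : ℕ, n = 0 ∨ n = 2 ∨ n = 4 ∨ n = 6 ∨ n = 8 → ‖Z n - D.w n A‖ ≤ D.e n

end Pool.Agent.FPX.AVI
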