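import Pool.Agent.FPX.CAB

/-
AVL (helper39): moments from cell averages, with half the constant: the phase is compared with a multiple
`lam` of its mean, and the two values at the ends of a cell are cancelled between neighbouring cells.
-/

open MeasureTheory Set Filter Topology Real
open scoped NNReal ComplexConjugate
open Pool.Agent.FPX.NOD (pt Fp Grid)
open Pool.Agent.FPX.ALX (St)
open Pool.Agent.FPX.SQD (ph)
open Pool.Agent.FPX.CAV

noncomputable section

namespace Pool.Agent.FPX.AVL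

/-- the factor -/
def lam (y : ℝ) : ℝ := 1 + y ^ 2 / 4

theorem cell_sq {y T : ℝ} (hy : 0 ≤ y) (hy2 : y ≤ 3 / 5) (hT : |T| ≤ 1) :
    (cos (y * T) - lam y * cos y) ^ 2 + (sin (y * T) - lam y * (T * sin y)) ^ 2
      ≤ (y ^ 2 / 4 * (1 + 2 * y ^ 2)) ^ 2 := by
  have hyT : |y * T| ≤ y := by
    rw [abs_mul, abs_of_nonneg hy]
    exact mul_le_of_le_one_right hy hT
  have hy1 : |y| ≤ 1 := by
    rw [abs_of_nonneg hy]
    linarith
  have c1 := Real.cos_bound (x := y * T) (hyT.trans (by linarith))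
  have c2 := Real.cos_bound (x := y) hy1
  have s1 := Real.sin_bound (x := y * T) (hyT.trans (by linarith))
  have s2 := Real.sin_bound (x := y) hy1
  have p4 : |y * T| ^ 4 ≤ y ^ 4 := pow_le_pow_left₀ (abs_nonneg _) hyT 4
  have q4 : |y| ^ 4 = y ^ 4 := by rw [abs_of_nonneg hy]
  have p5 : |y * T| ^ 5 ≤ y ^ 5 := pow_le_pow_left₀ (abs_nonneg _) hyT 5
  have q5 : |y| ^ 5 = y ^ 5 := by rw [abs_of_nonneg hy]
  rw [q4] at c2
  rw [q5] at s2
  have c1' : |cos (y * T) - (1 - (y * T) ^ 2 / 2)| ≤ y ^ 4 * (5 / 96) := c1.trans (by nlinarith)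
  have hy4 : 0 ≤ y ^ 4 := by positivity
  have h54 : y ^ 5 ≤ 3 / 5 * y ^ 4 := by nlinarith
  have s1' : |sin (y * T) - (y * T - (y * T) ^ 3 / 6)| ≤ y ^ 4 * (5 / 96) := s1.trans (by nlinarith)
  have s2' : |sin y - (y - y ^ 3 / 6)| ≤ y ^ 4 * (5 / 96) := s2.trans (by nlinarith)
  have hy3 : 0 ≤ y ^ 3 := by positivity
  have hyy : y ^ 2 ≤ 9 / 25 := by nlinarith
  have T2 : T ^ 2 ≤ 1 := by
    rw [← sq_abs]
    exact pow_le_one₀ (abs_nonneg _) hT
  have T0 : 0 ≤ T ^ 2 := sq_nonneg _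
  have hl1 : lam y ≤ 109 / 100 := by
    unfold lam
    linarith
  have hl0 : 0 ≤ lam y := by
    unfold lam
    positivity
  -- the cosine
  have hA : |cos (y * T) - lam y * cos y| ≤ y ^ 2 / 4 + y ^ 4 / 4 := by
    have e : cos (y * T) - lam y * cos y = (y ^ 2 / 4 * (1 - 2 * T ^ 2) + y ^ 4 / 8)
        + (cos (y * T) - (1 - (y * T) ^ 2 / 2)) + -(lam y * (cos y - (1 - y ^ 2 / 2))) := by
      unfold lam
      ring
    rw [e]
    have t1 : |y ^ 2 / 4 * (1 - 2 * T ^ 2) + y ^ 4 / 8| ≤ y ^ 2 / 4 + y ^ 4 / 8 := by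
      rw [abs_le]
      constructor <;> nlinarith [sq_nonneg y, mul_nonneg (sq_nonneg y) T0]
    have t2 : |-(lam y * (cos y - (1 - y ^ 2 / 2)))| ≤ 109 / 100 * (y ^ 4 * (5 / 96)) := by
      rw [abs_neg, abs_mul, abs_of_nonneg hl0]
      exact mul_le_mul hl1 c2 (abs_nonneg _) (by norm_num)
    refine (abs_add_three _ _ _).trans ((add_le_add (add_le_add t1 c1') t2).trans ?_)
    nlinarith
  have hB : |sin (y * T) - lam y * (T * sin y)| ≤ y ^ 3 / 3 := by
    have e : sin (y * T) - lam y * (T * sin y) = y ^ 3 * (T * (-(T ^ 2 / 6) - 1 / 12 + y ^ 2 / 24))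
        + (sin (y * T) - (y * T - (y * T) ^ 3 / 6)) + -(lam y * T * (sin y - (y - y ^ 3 / 6))) := by
      unfold lam
      ring
    rw [e]
    have t1 : |y ^ 3 * (T * (-(T ^ 2 / 6) - 1 / 12 + y ^ 2 / 24))| ≤ y ^ 3 / 4 := by
      rw [abs_mul, abs_mul, abs_of_nonneg hy3]
      have k1 : |(-(T ^ 2 / 6) - 1 / 12 + y ^ 2 / 24)| ≤ 1 / 4 := by
        rw [abs_le]
        constructor <;> nlinarith [sq_nonneg y]
      have k2 : |T| * |(-(T ^ 2 / 6) - 1 / 12 + y ^ 2 / 24)| ≤ 1 * (1 / 4) :=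
        mul_le_mul hT k1 (abs_nonneg _) zero_le_one
      nlinarith
    have t2 : |-(lam y * T * (sin y - (y - y ^ 3 / 6)))| ≤ 109 / 100 * 1 * (y ^ 4 * (5 / 96)) := by
      rw [abs_neg, abs_mul, abs_mul, abs_of_nonneg hl0]
      exact mul_le_mul (mul_le_mul hl1 hT (abs_nonneg _) (by norm_num)) s2' (abs_nonneg _) (by norm_num)
    refine (abs_add_three _ _ _).trans ((add_le_add (add_le_add t1 s1') t2).trans ?_)
    have : y ^ 4 ≤ 3 / 5 * y ^ 3 := by nlinarith
    nlinarith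
  have hA2 := pow_le_pow_left₀ (abs_nonneg _) hA 2
  have hB2 := pow_le_pow_left₀ (abs_nonneg _) hB 2
  rw [sq_abs] at hA2 hB2
  refine (add_le_add hA2 hB2).trans ?_
  have e : (y ^ 2 / 4 * (1 + 2 * y ^ 2)) ^ 2 - ((y ^ 2 / 4 + y ^ 4 / 4) ^ 2 + (y ^ 3 / 3) ^ 2)
      = y ^ 6 * (1 / 72 + 3 / 16 * y ^ 2) := by ring
  have : 0 ≤ y ^ 6 * (1 / 72 + 3 / 16 * y ^ 2) := by positivity
  linarith

theorem exp_cell {y : ℝ} (hy : 0 ≤ y) (hy2 : y ≤ 3 / 5) (α : ℝ) {v : ℝ} (h0 : 0 ≤ v) (h1 : v ≤ 1) :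
    ‖Complex.exp (((α + 2 * y * v : ℝ) : ℂ) * Complex.I) - (lam y : ℂ)
      * (((1 - v : ℝ) : ℂ) * Complex.exp ((α : ℂ) * Complex.I)
        + (v : ℂ) * Complex.exp (((α + 2 * y : ℝ) : ℂ) * Complex.I))‖ ≤ y ^ 2 / 4 * (1 + 2 * y ^ 2) := by
  have e1 : Complex.exp (((α + 2 * y * v : ℝ) : ℂ) * Complex.I)
      = Complex.exp (((α + y : ℝ) : ℂ) * Complex.I) * Complex.exp (((y * (2 * v - 1) : ℝ) : ℂ) * Complex.I) := by
    rw [← Complex.exp_add]
    congr 1
    push_cast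
    ring
  have e2 : Complex.exp ((α : ℂ) * Complex.I)
      = Complex.exp (((α + y : ℝ) : ℂ) * Complex.I) * Complex.exp (((-y : ℝ) : ℂ) * Complex.I) := by
    rw [← Complex.exp_add]
    congr 1
    push_cast
    ring
  have e3 : Complex.exp (((α + 2 * y : ℝ) : ℂ) * Complex.I)
      = Complex.exp (((α + y : ℝ) : ℂ) * Complex.I) * Complex.exp (((y : ℝ) : ℂ) * Complex.I) := by
    rw [← Complex.exp_add]
    congr 1
    push_cast
    ring
  have e : Complex.exp (((α + 2 * y * v : ℝ) : ℂ) * Complex.I) - (lam y : ℂ)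
      * (((1 - v : ℝ) : ℂ) * Complex.exp ((α : ℂ) * Complex.I)
        + (v : ℂ) * Complex.exp (((α + 2 * y : ℝ) : ℂ) * Complex.I))
      = Complex.exp (((α + y : ℝ) : ℂ) * Complex.I) * (⟨cos (y * (2 * v - 1)) - lam y * cos y,
        sin (y * (2 * v - 1)) - lam y * ((2 * v - 1) * sin y)⟩ : ℂ) := by
    rw [e1, e2, e3]
    have k : Complex.exp (((y * (2 * v - 1) : ℝ) : ℂ) * Complex.I) - (lam y : ℂ)
        * (((1 - v : ℝ) : ℂ) * Complex.exp (((-y : ℝ) : ℂ) * Complex.I)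
          + (v : ℂ) * Complex.exp (((y : ℝ) : ℂ) * Complex.I)) = (⟨cos (y * (2 * v - 1)) - lam y * cos y,
        sin (y * (2 * v - 1)) - lam y * ((2 * v - 1) * sin y)⟩ : ℂ) := by
      apply Complex.ext
      · simp only [Complex.sub_re, Complex.re_ofReal_mul, Complex.add_re, Complex.exp_ofReal_mul_I_re, cos_neg]
        ring
      · simp only [Complex.sub_im, Complex.im_ofReal_mul, Complex.add_im, Complex.exp_ofReal_mul_I_im, sin_neg]
        ring
    rw [← k]
    ring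
  rw [e, norm_mul, Complex.norm_exp_ofReal_mul_I, one_mul]
  have hT : |2 * v - 1| ≤ 1 := by
    rw [abs_le]
    constructor <;> linarith
  have k := cell_sq hy hy2 hT
  have k2 : ‖(⟨cos (y * (2 * v - 1)) - lam y * cos y,
        sin (y * (2 * v - 1)) - lam y * ((2 * v - 1) * sin y)⟩ : ℂ)‖ ^ 2 ≤ (y ^ 2 / 4 * (1 + 2 * y ^ 2)) ^ 2 := by
    rw [← Complex.normSq_eq_norm_sq, Complex.normSq_apply]
    refine (le_of_eq ?_).trans k
    ring
  exact (abs_le_of_sq_le_sq' k2 (by positivity)).2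

/-- integration by parts -/
theorem ibp {P p : ℝ → ℂ} (hP : ∀ v, HasDerivAt P (p v) v) (hp : Continuous p) {Z : ℝ → ℝ} {K : ℝ≥0}
    (hZ : LipschitzWith K Z) : ∫ v in (0 : ℝ)..1, p v * (Z v : ℂ)
      = P 1 * (Z 1 : ℂ) - P 0 * (Z 0 : ℂ) - ∫ v in (0 : ℝ)..1, P v * ((deriv Z v : ℝ) : ℂ) := by
  have cP : Continuous P := continuous_iff_continuousAt.2 fun v => (hP v).continuousAt
  have cZ := hZ.continuous
  have cZ' : Continuous fun v => (Z v : ℂ) := Complex.continuous_ofReal.comp cZ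
  have a1 : AbsolutelyContinuousOnInterval Z 0 1 :=
    (hZ.lipschitzOnWith (s := uIcc 0 1)).absolutelyContinuousOnInterval
  have iZ : IntervalIntegrable (deriv Z) volume 0 1 := a1.intervalIntegrable_deriv
  have iZc : IntervalIntegrable (fun v => ((deriv Z v : ℝ) : ℂ)) volume 0 1 := ⟨iZ.1.ofReal, iZ.2.ofReal⟩
  have i1 : IntervalIntegrable (fun v => p v * (Z v : ℂ)) volume 0 1 := (hp.mul cZ').intervalIntegrable _ _
  have i2 : IntervalIntegrable (fun v => P v * ((deriv Z v : ℝ) : ℂ)) volume 0 1 :=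
    iZc.continuousOn_mul cP.continuousOn
  -- real version
  have main : ∀ g g' : ℝ → ℝ, (∀ v, HasDerivAt g (g' v) v) → Continuous g' →
      ∫ v in (0 : ℝ)..1, g' v * Z v = g 1 * Z 1 - g 0 * Z 0 - ∫ v in (0 : ℝ)..1, g v * deriv Z v := by
    intro g g' hg hc
    have dg : deriv g = g' := funext fun v => (hg v).deriv
    have cg : ContDiff ℝ 1 g := by
      rw [contDiff_one_iff_deriv]
      exact ⟨fun v => (hg v).differentiableAt, by rwa [dg]⟩
    have a2 : AbsolutelyContinuousOnInterval g 0 1 := cg.contDiffOn.absolutelyContinuousOnInterval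
    have h3 := a2.integral_mul_deriv_eq_deriv_mul a1
    rw [dg] at h3
    rw [h3]
    ring
  have re1 := main (fun v => (P v).re) (fun v => (p v).re)
    (fun v => Complex.reCLM.hasFDerivAt.comp_hasDerivAt v (hP v)) (Complex.continuous_re.comp hp)
  have im1 := main (fun v => (P v).im) (fun v => (p v).im)
    (fun v => Complex.imCLM.hasFDerivAt.comp_hasDerivAt v (hP v)) (Complex.continuous_im.comp hp)
  have r1 : (∫ v in (0 : ℝ)..1, p v * (Z v : ℂ)).re = ∫ v in (0 : ℝ)..1, (p v).re * Z v := by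
    have := Complex.reCLM.intervalIntegral_comp_comm i1
    simp only [Complex.reCLM_apply, Complex.re_mul_ofReal] at this
    rw [← this]
  have r2 : (∫ v in (0 : ℝ)..1, P v * ((deriv Z v : ℝ) : ℂ)).re = ∫ v in (0 : ℝ)..1, (P v).re * deriv Z v := by
    have := Complex.reCLM.intervalIntegral_comp_comm i2
    simp only [Complex.reCLM_apply, Complex.re_mul_ofReal] at this
    rw [← this]
  have r3 : (∫ v in (0 : ℝ)..1, p v * (Z v : ℂ)).im = ∫ v in (0 : ℝ)..1, (p v).im * Z v := by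
    have := Complex.imCLM.intervalIntegral_comp_comm i1
    simp only [Complex.imCLM_apply, Complex.im_mul_ofReal] at this
    rw [← this]
  have r4 : (∫ v in (0 : ℝ)..1, P v * ((deriv Z v : ℝ) : ℂ)).im = ∫ v in (0 : ℝ)..1, (P v).im * deriv Z v := by
    have := Complex.imCLM.intervalIntegral_comp_comm i2
    simp only [Complex.imCLM_apply, Complex.im_mul_ofReal] at this
    rw [← this]
  apply Complex.ext
  · rw [Complex.sub_re, Complex.sub_re, Complex.re_mul_ofReal, Complex.re_mul_ofReal, r1, r2, re1]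
  · rw [Complex.sub_im, Complex.sub_im, Complex.im_mul_ofReal, Complex.im_mul_ofReal, r3, r4, im1]

/-- one cell -/
theorem cell_av {y : ℝ} (hy : 0 < y) (hy2 : y ≤ 3 / 5) (α : ℝ) {Z : ℝ → ℝ} {K : ℝ≥0} (hZ : LipschitzWith K Z) :
    ‖(∫ v in (0 : ℝ)..1, Complex.exp (((α + 2 * y * v : ℝ) : ℂ) * Complex.I) * (Z v : ℂ))
      - (lam y : ℂ) * ((∫ v in (0 : ℝ)..1, Complex.exp (((α + 2 * y * v : ℝ) : ℂ) * Complex.I))
        * ((∫ v in (0 : ℝ)..1, Z v : ℝ) : ℂ))
      - (1 - (lam y : ℂ)) / (2 * Complex.I * y) * (Complex.exp (((α + 2 * y : ℝ) : ℂ) * Complex.I) * (Z 1 : ℂ)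
        - Complex.exp ((α : ℂ) * Complex.I) * (Z 0 : ℂ))‖
      ≤ y / 8 * (1 + 2 * y ^ 2) * ∫ v in (0 : ℝ)..1, |deriv Z v| := by
  have hyc : (y : ℂ) ≠ 0 := by exact_mod_cast hy.ne'
  have hk : (2 * Complex.I * (y : ℂ)) ≠ 0 := by simp [hyc]
  have cZ := hZ.continuous
  have cZ' : Continuous fun v => (Z v : ℂ) := Complex.continuous_ofReal.comp cZ
  set f : ℝ → ℂ := fun v => Complex.exp (((α + 2 * y * v : ℝ) : ℂ) * Complex.I) with hf
  have cf : Continuous f := by
    rw [hf]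
    fun_prop
  have df : ∀ v, HasDerivAt f (2 * Complex.I * y * f v) v := by
    intro v
    have k1 : HasDerivAt (fun v : ℝ => ((α + 2 * y * v : ℝ) : ℂ) * Complex.I) (((2 * y * 1 : ℝ) : ℂ) * Complex.I) v := by
      have k0 : HasDerivAt (fun v : ℝ => α + 2 * y * v) (2 * y * 1) v :=
        ((hasDerivAt_id v).const_mul (2 * y)).const_add α
      exact k0.ofReal_comp.mul_const _
    refine k1.cexp.congr_deriv ?_
    rw [hf]
    push_cast
    ring
  have f0 : f 0 = Complex.exp ((α : ℂ) * Complex.I) := by simp [hf]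
  have f1 : f 1 = Complex.exp (((α + 2 * y : ℝ) : ℂ) * Complex.I) := by simp [hf]
  have hc : ∫ v in (0 : ℝ)..1, f v = (f 1 - f 0) / (2 * Complex.I * y) := by
    have k := intervalIntegral.integral_eq_sub_of_hasDerivAt (f := fun v => f v / (2 * Complex.I * y))
      (f' := f) (a := 0) (b := 1) (fun v _ => ?_) (cf.intervalIntegrable _ _)
    · rw [k]
      ring
    · refine ((df v).div_const (2 * Complex.I * y)).congr_deriv ?_
      field_simp
  set P : ℝ → ℂ := fun v => (f v - (lam y : ℂ) * (((1 - v : ℝ) : ℂ) * f 0 + (v : ℂ) * f 1)) / (2 * Complex.I * y)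
    with hPd
  have dP : ∀ v, HasDerivAt P (f v - (lam y : ℂ) * ((f 1 - f 0) / (2 * Complex.I * y))) v := by
    intro v
    have k1 : HasDerivAt (fun v : ℝ => ((1 - v : ℝ) : ℂ) * f 0 + (v : ℂ) * f 1) (-f 0 + f 1) v := by
      have a1 : HasDerivAt (fun v : ℝ => ((1 - v : ℝ) : ℂ)) ((-1 : ℝ) : ℂ) v := by
        have : HasDerivAt (fun v : ℝ => 1 - v) (-1) v := by
          simpa using (hasDerivAt_id v).const_sub 1
        exact this.ofReal_comp
      have a2 : HasDerivAt (fun v : ℝ => (v : ℂ)) ((1 : ℝ) : ℂ) v := (hasDerivAt_id v).ofReal_comp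
      refine ((a1.mul_const (f 0)).add (a2.mul_const (f 1))).congr_deriv ?_
      push_cast
      ring
    refine (((df v).sub (k1.const_mul (lam y : ℂ))).div_const (2 * Complex.I * y)).congr_deriv ?_
    field_simp
    ring
  have cp : Continuous fun v => f v - (lam y : ℂ) * ((f 1 - f 0) / (2 * Complex.I * y)) := by fun_prop
  have h := ibp dP cp hZ
  have e1 : ∫ v in (0 : ℝ)..1, (f v - (lam y : ℂ) * ((f 1 - f 0) / (2 * Complex.I * y))) * (Z v : ℂ)
      = (∫ v in (0 : ℝ)..1, f v * (Z v : ℂ)) - (lam y : ℂ) * ((∫ v in (0 : ℝ)..1, f v)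
        * ((∫ v in (0 : ℝ)..1, Z v : ℝ) : ℂ)) := by
    have i1 : IntervalIntegrable (fun v => f v * (Z v : ℂ)) volume 0 1 := (cf.mul cZ').intervalIntegrable _ _
    have i2 : IntervalIntegrable (fun v => ((lam y : ℂ) * ((f 1 - f 0) / (2 * Complex.I * y))) * (Z v : ℂ)) volume 0 1 :=
      (cZ'.const_mul _).intervalIntegrable _ _
    simp only [sub_mul (f _)]
    rw [intervalIntegral.integral_sub i1 i2, intervalIntegral.integral_const_mul, hc,
      intervalIntegral.integral_ofReal]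
    ring
  have P1 : P 1 = (1 - (lam y : ℂ)) / (2 * Complex.I * y) * f 1 := by
    rw [hPd]
    simp only
    push_cast
    ring
  have P0 : P 0 = (1 - (lam y : ℂ)) / (2 * Complex.I * y) * f 0 := by
    rw [hPd]
    simp only
    push_cast
    ring
  have e2 : (∫ v in (0 : ℝ)..1, f v * (Z v : ℂ)) - (lam y : ℂ) * ((∫ v in (0 : ℝ)..1, f v)
        * ((∫ v in (0 : ℝ)..1, Z v : ℝ) : ℂ)) - (1 - (lam y : ℂ)) / (2 * Complex.I * y) * (f 1 * (Z 1 : ℂ) - f 0 * (Z 0 : ℂ))
      = -∫ v in (0 : ℝ)..1, P v * ((deriv Z v : ℝ) : ℂ) := by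
    rw [← e1, h, P1, P0]
    ring
  rw [← f0, ← f1, e2, norm_neg]
  have a1 : AbsolutelyContinuousOnInterval Z 0 1 :=
    (hZ.lipschitzOnWith (s := uIcc 0 1)).absolutelyContinuousOnInterval
  have iZ : IntervalIntegrable (deriv Z) volume 0 1 := a1.intervalIntegrable_deriv
  have k := intervalIntegral.norm_integral_le_of_norm_le (μ := volume) (f := fun v => P v * ((deriv Z v : ℝ) : ℂ))
    (g := fun v => y / 8 * (1 + 2 * y ^ 2) * |deriv Z v|) zero_le_one (Eventually.of_forall fun v hv => ?_)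
    (iZ.abs.const_mul _)
  · rw [intervalIntegral.integral_const_mul] at k
    exact k
  · rw [norm_mul, Complex.norm_real, Real.norm_eq_abs]
    refine mul_le_mul_of_nonneg_right ?_ (abs_nonneg _)
    have k1 := exp_cell hy.le hy2 α hv.1.le hv.2
    rw [hPd]
    simp only
    rw [norm_div, f0, f1]
    have e3 : ‖(2 * Complex.I * (y : ℂ))‖ = 2 * y := by
      rw [norm_mul, norm_mul, Complex.norm_I, Complex.norm_real, Real.norm_eq_abs, abs_of_pos hy]
      norm_num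
    rw [e3, div_le_iff₀ (by positivity)]
    refine k1.trans (le_of_eq ?_)
    ring

section grid

variable {N : ℕ} {r : ℕ → ℝ}

/-- **moments from cell averages**, general form -/
theorem gen_lam {W : ℝ → ℝ} {K : ℝ≥0} (hW : LipschitzWith K W) {m : ℕ} (hm : 0 < m)
    (hp : ∀ a, ph m (a + π) * (W (a + π) : ℂ) = ph m a * (W a : ℂ)) (hN : 0 < N)
    (hr : ∀ i, r i = -(1 / 2) + (i : ℝ) / N) {y : ℝ} (hyd : y = m * π / (2 * N)) (hy2 : y ≤ 3 / 5)
    {T : ℝ} (hT : ∫ a in (-(π / 2))..(π / 2), |deriv W a| ≤ T) :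
    ‖((1 / (2 * π) : ℝ) : ℂ) * (∫ a in (0 : ℝ)..(2 * π), ph m a * (W a : ℂ))
      - ((lam y * (1 / N) : ℝ) : ℂ) * ∑ i ∈ Finset.range N, pm m r i * ((∫ v in (0 : ℝ)..1, W (pt r i v) : ℝ) : ℂ)‖
      ≤ y / (8 * N) * (1 + 2 * y ^ 2) * T := by
  have hpi := pi_pos
  have hN' : (0 : ℝ) < N := by exact_mod_cast hN
  have hm' : (0 : ℝ) < m := by exact_mod_cast hm
  have hy : 0 < y := by
    rw [hyd]
    positivity
  have G := grid_of hN hr
  have cW : Continuous fun a => (W a : ℂ) := Complex.continuous_ofReal.comp hW.continuous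
  have cF : Continuous fun a => ph m a * (W a : ℂ) := (SQD.cont_ph m).mul cW
  -- values at the nodes
  set g : ℕ → ℂ := fun i => ph m (π * r i) * (W (π * r i) : ℂ) with hg
  have hptz : ∀ i, pt r i 0 = π * r i := fun i => by unfold pt; ring
  have hpto : ∀ i, pt r i 1 = π * r (i + 1) := fun i => by unfold pt; ring
  have hph : ∀ i v, ph m (pt r i v) = Complex.exp (((m * (π * r i) + 2 * y * v : ℝ) : ℂ) * Complex.I) := by
    intro i v
    unfold ph pt
    rw [dr_eq hr, hyd]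
    congr 1
    have : (N : ℂ) ≠ 0 := by exact_mod_cast hN'.ne'
    push_cast
    field_simp
  have tel : ∑ i ∈ Finset.range N, (g (i + 1) - g i) = 0 := by
    rw [Finset.sum_range_sub, hg]
    simp only
    rw [G.last, G.zero]
    have := hp (-(π / 2))
    rw [show -(π / 2) + π = π / 2 by ring] at this
    rw [show π * (1 / 2) = π / 2 by ring, show π * -(1 / 2) = -(π / 2) by ring, this, sub_self]
  have e0 : (1 / (2 * π) : ℝ) * (∫ a in (0 : ℝ)..(2 * π), ph m a * (W a : ℂ))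
      - ((lam y * (1 / N) : ℝ) : ℂ) * ∑ i ∈ Finset.range N, pm m r i * ((∫ v in (0 : ℝ)..1, W (pt r i v) : ℝ) : ℂ)
      = ∑ i ∈ Finset.range N, ((1 / N : ℝ) : ℂ) * ((∫ v in (0 : ℝ)..1, ph m (pt r i v) * (W (pt r i v) : ℂ))
        - (lam y : ℂ) * (pm m r i * ((∫ v in (0 : ℝ)..1, W (pt r i v) : ℝ) : ℂ))
        - (1 - (lam y : ℂ)) / (2 * Complex.I * y) * (g (i + 1) - g i)) := by
    simp only [mul_sub (((1 / N : ℝ) : ℂ))]
    rw [Finset.sum_sub_distrib, Finset.sum_sub_distrib]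
    have e1 : ∑ i ∈ Finset.range N, ((1 / N : ℝ) : ℂ) * ((1 - (lam y : ℂ)) / (2 * Complex.I * y) * (g (i + 1) - g i))
        = 0 := by
      rw [← Finset.mul_sum, ← Finset.mul_sum, tel]
      ring
    rw [e1, sub_zero, NOD.mean_cells cF hp G, Finset.mul_sum]
    congr 1
    · exact Finset.sum_congr rfl fun i _ => by rw [dr_eq hr]
    · refine Finset.sum_congr rfl fun i _ => ?_
      push_cast
      ring
  rw [e0]
  have key : ∀ i ∈ Finset.range N, ‖((1 / N : ℝ) : ℂ) * ((∫ v in (0 : ℝ)..1, ph m (pt r i v) * (W (pt r i v) : ℂ))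
        - (lam y : ℂ) * (pm m r i * ((∫ v in (0 : ℝ)..1, W (pt r i v) : ℝ) : ℂ))
        - (1 - (lam y : ℂ)) / (2 * Complex.I * y) * (g (i + 1) - g i))‖
      ≤ y / (8 * N) * (1 + 2 * y ^ 2) * ∫ a in (π * r i)..(π * r (i + 1)), |deriv W a| := by
    intro i _
    rw [norm_mul, Complex.norm_real, Real.norm_eq_abs, abs_of_pos (by positivity)]
    have hZ : LipschitzWith (K * ⟨π / N, by positivity⟩) fun v => W (pt r i v) := by
      refine hW.comp (LipschitzWith.of_dist_le_mul fun x y => ?_)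
      rw [Real.dist_eq, Real.dist_eq]
      have e : pt r i x - pt r i y = π / N * (x - y) := by
        unfold pt
        rw [dr_eq hr]
        ring
      rw [e, abs_mul, abs_of_pos (by positivity)]
      rfl
    have h := cell_av hy hy2 (m * (π * r i)) hZ
    rw [tv_cell hr] at h
    have q1 : ∀ v, Complex.exp (((m * (π * r i) + 2 * y * v : ℝ) : ℂ) * Complex.I) = ph m (pt r i v) :=
      fun v => (hph i v).symm
    have q2 : Complex.exp (((m * (π * r i) + 2 * y : ℝ) : ℂ) * Complex.I) = ph m (π * r (i + 1)) := by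
      rw [← hpto, hph, mul_one]
    have q3 : Complex.exp (((m * (π * r i) : ℝ) : ℂ) * Complex.I) = ph m (π * r i) := by
      have := hph i 0
      rw [mul_zero, add_zero, hptz] at this
      exact this.symm
    simp only [q1, q2, q3, hptz, hpto] at h
    have h2 := mul_le_mul_of_nonneg_left h (by positivity : (0 : ℝ) ≤ 1 / N)
    refine (le_of_eq ?_).trans (h2.trans (le_of_eq ?_))
    · rfl
    · field_simp
  refine (norm_sum_le _ _).trans ((Finset.sum_le_sum key).trans ?_)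
  rw [← Finset.mul_sum]
  refine mul_le_mul_of_nonneg_left ?_ (by positivity)
  have hi : ∀ a b, IntervalIntegrable (fun t => |deriv W t|) volume a b := fun a b =>
    ((hW.lipschitzOnWith (s := uIcc a b)).absolutelyContinuousOnInterval).intervalIntegrable_deriv.abs
  have e2 := intervalIntegral.sum_integral_adjacent_intervals (a := fun i => π * r i) (n := N)
    (f := fun t => |deriv W t|) (μ := volume) fun i _ => hi _ _
  rw [G.zero, G.last, show π * -(1 / 2) = -(π / 2) by ring, show π * (1 / 2) = π / 2 by ring] at e2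
  rw [e2]
  exact hT

/-- the mean itself -/
theorem gen_zero {W : ℝ → ℝ} {K : ℝ≥0} (hW : LipschitzWith K W) (hp : ∀ a, W (a + π) = W a) (hN : 0 < N)
    (hr : ∀ i, r i = -(1 / 2) + (i : ℝ) / N) :
    ((1 / (2 * π) : ℝ) : ℂ) * (∫ a in (0 : ℝ)..(2 * π), ph 0 a * (W a : ℂ))
      = ((1 / N : ℝ) : ℂ) * ∑ i ∈ Finset.range N, ((∫ v in (0 : ℝ)..1, W (pt r i v) : ℝ) : ℂ) := by
  have G := grid_of hN hr
  have cW : Continuous fun a => (W a : ℂ) := Complex.continuous_ofReal.comp hW.continuous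
  have cF : Continuous fun a => ph 0 a * (W a : ℂ) := (SQD.cont_ph 0).mul cW
  have p0 : ∀ a, ph 0 a = 1 := fun a => by simp [ph]
  rw [NOD.mean_cells cF (fun a => by rw [p0, p0, hp]) G, Finset.mul_sum]
  refine Finset.sum_congr rfl fun i _ => ?_
  rw [dr_eq hr]
  congr 1
  rw [← intervalIntegral.integral_ofReal]
  refine intervalIntegral.integral_congr fun v _ => ?_
  simp only [p0, one_mul]

variable {s : ℝ} {X : ℝ → ℝ}

/-- **linear moments from cell averages** -/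
theorem lin_lam (hX : St s X) (h0 : 0 ≤ s) (h1 : s ≤ 1) {xm : ℝ} (hb : ∀ a, |X a| ≤ xm) {m : ℕ} (hm : Odd m)
    (hN : 0 < N) (hr : ∀ i, r i = -(1 / 2) + (i : ℝ) / N) {y : ℝ} (hyd : y = m * π / (2 * N)) (hy2 : y ≤ 3 / 5) :
    ‖((1 / (2 * π) : ℝ) : ℂ) * (∫ a in (0 : ℝ)..(2 * π), ph m a * (X a : ℂ))
      - ((lam y * (1 / N) : ℝ) : ℂ) * ∑ i ∈ Finset.range N, pm m r i * (av X r i : ℂ)‖
      ≤ y / (8 * N) * (1 + 2 * y ^ 2) * (4 + 2 * xm) := by
  obtain ⟨K, hK⟩ := hX.lip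
  exact gen_lam hK hm.pos (fun a => by rw [SQD.ph_odd hm, hX.anti]; push_cast; ring) hN hr hyd hy2
    (tv_le hX h0 h1 hb)

/-- lipschitz bound of the square -/
theorem lip_sq (hX : St s X) {xm : ℝ} (hb : ∀ a, |X a| ≤ xm) : ∃ K, LipschitzWith K fun a => X a ^ 2 := by
  obtain ⟨K, hK⟩ := hX.lip
  have hxm : 0 ≤ xm := (abs_nonneg _).trans (hb 0)
  refine ⟨Real.toNNReal (2 * xm) * K, LipschitzWith.of_dist_le_mul fun x y => ?_⟩
  rw [Real.dist_eq, show X x ^ 2 - X y ^ 2 = (X x + X y) * (X x - X y) by ring, abs_mul]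
  have k1 : |X x + X y| ≤ 2 * xm := by
    refine (abs_add_le _ _).trans ?_
    linarith [hb x, hb y]
  have k2 : |X x - X y| ≤ K * |x - y| := by
    have := hK.dist_le_mul x y
    rwa [Real.dist_eq, Real.dist_eq] at this
  have := mul_le_mul k1 k2 (abs_nonneg _) (by positivity)
  refine this.trans (le_of_eq ?_)
  rw [Real.dist_eq, NNReal.coe_mul, Real.coe_toNNReal _ (by positivity)]
  ring

/-- total variation of the square -/
theorem tv_sq (hX : St s X) (h0 : 0 ≤ s) (h1 : s ≤ 1) {xm : ℝ} (hb : ∀ a, |X a| ≤ xm) :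
    ∫ a in (-(π / 2))..(π / 2), |deriv (fun a => X a ^ 2) a| ≤ 2 * xm * (4 + 2 * xm) := by
  obtain ⟨K, hK⟩ := hX.lip
  obtain ⟨K2, hW⟩ := lip_sq hX hb
  have hxm : 0 ≤ xm := (abs_nonneg _).trans (hb 0)
  have hi : ∀ a b, IntervalIntegrable (fun t => |deriv (fun a => X a ^ 2) t|) volume a b := fun a b =>
    ((hW.lipschitzOnWith (s := uIcc a b)).absolutelyContinuousOnInterval).intervalIntegrable_deriv.abs
  have hd : ∀ᵐ a, |deriv (fun a => X a ^ 2) a| ≤ 2 * xm * |deriv X a| := by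
    filter_upwards [hK.ae_differentiableAt_real] with a ha
    have : deriv (fun a => X a ^ 2) a = 2 * X a * deriv X a := by
      have := (ha.hasDerivAt.fun_pow 2).deriv
      simpa using this
    rw [this, abs_mul, abs_mul, abs_two]
    exact mul_le_mul_of_nonneg_right (by linarith [hb a]) (abs_nonneg _)
  have hle : -(π / 2) ≤ π / 2 := by linarith [pi_pos]
  have k := intervalIntegral.integral_mono_ae hle (hi _ _) ((abs_int hX (-(π / 2)) (π / 2)).const_mul (2 * xm)) hd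
  rw [intervalIntegral.integral_const_mul] at k
  exact k.trans (mul_le_mul_of_nonneg_left (tv_le hX h0 h1 hb) (by positivity))

/-- **quadratic moments from the cell averages of the square** -/
theorem sq_lam (hX : St s X) (h0 : 0 ≤ s) (h1 : s ≤ 1) {xm : ℝ} (hb : ∀ a, |X a| ≤ xm) {m : ℕ} (hm : Even m)
    (hm0 : 0 < m) (hN : 0 < N) (hr : ∀ i, r i = -(1 / 2) + (i : ℝ) / N) {y : ℝ} (hyd : y = m * π / (2 * N))
    (hy2 : y ≤ 3 / 5) :
    ‖((1 / (2 * π) : ℝ) : ℂ) * (∫ a in (0 : ℝ)..(2 * π), ph m a * ((X a ^ 2 : ℝ) : ℂ))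
      - ((lam y * (1 / N) : ℝ) : ℂ) * ∑ i ∈ Finset.range N, pm m r i * ((∫ v in (0 : ℝ)..1, X (pt r i v) ^ 2 : ℝ) : ℂ)‖
      ≤ y / (8 * N) * (1 + 2 * y ^ 2) * (2 * xm * (4 + 2 * xm)) := by
  obtain ⟨K2, hW⟩ := lip_sq hX hb
  exact gen_lam hW hm0 (fun a => by rw [SQD.ph_even hm, hX.anti, neg_sq]) hN hr hyd hy2 (tv_sq hX h0 h1 hb)

/-- the mean of the square -/
theorem sq_zero (hX : St s X) {xm : ℝ} (hb : ∀ a, |X a| ≤ xm) (hN : 0 < N)
    (hr : ∀ i, r i = -(1 / 2) + (i : ℝ) / N) :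
    ((1 / (2 * π) : ℝ) : ℂ) * (∫ a in (0 : ℝ)..(2 * π), ph 0 a * ((X a ^ 2 : ℝ) : ℂ))
      = ((1 / N : ℝ) : ℂ) * ∑ i ∈ Finset.range N, ((∫ v in (0 : ℝ)..1, X (pt r i v) ^ 2 : ℝ) : ℂ) := by
  obtain ⟨K2, hW⟩ := lip_sq hX hb
  exact gen_zero hW (fun a => by rw [hX.anti, neg_sq]) hN hr

end grid

end Pool.Agent.FPX.AVL
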