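import Mathlib
import Pool.Agent.FPX.BTE

/-
BRG (helper84): elimination of `K` by Parseval for the linear certificate `BTN.NC` (abstract state: probability
measure, real function `x`, unit function `E`): explicit Hermitian form in `(A, conj B)`, polynomial of degree two
in `x` (moments `r₃, r₅, q₀, q₂, q₄`).
-/

open MeasureTheory Set Filter Topology Complex
open scoped ENNReal NNReal ContDiff ComplexConjugate

noncomputable section

namespace Pool.Agent.FPX.BRG

open Pool.Agent.FPX.CRD (Bm)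
open Pool.Agent.FPX.BTN (CV NC M3 M5 P0 P2 P4 sg mkv Wv bvv rp rm hv restv NC_rw)

theorem bm_pow {X : Type*} [MeasurableSpace X] {g : X → ℂ} (h : Bm g) (n : ℕ) : Bm fun x => g x ^ n := by
  obtain ⟨C, hC⟩ := h.bdd
  exact ⟨h.meas.pow_const n, C ^ n, fun x => by rw [norm_pow]; exact pow_le_pow_left₀ (norm_nonneg _) (hC x) n⟩

section gram

variable {X : Type*} [MeasurableSpace X] {μ : Measure X} [IsFiniteMeasure μ]

/-- the square of a combination with a real weight -/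
theorem gram {n : ℕ} {e : Fin n → X → ℂ} (be : ∀ i, Bm (e i)) {g v : X → ℂ} (bg : Bm g) (bv : Bm v)
    (hv : ∀ x, (v x).im = 0) (c : Fin n → ℂ) :
    ∫ x, v x * (((∑ i, c i * e i x) + g x) * conj ((∑ i, c i * e i x) + g x)) ∂μ =
      (∑ i, ∑ j, c i * conj (c j) * ∫ x, v x * (e i x * conj (e j x)) ∂μ)
        + ((∑ i, c i * conj (∫ x, v x * (g x * conj (e i x)) ∂μ))
        + ((∑ i, conj (c i) * ∫ x, v x * (g x * conj (e i x)) ∂μ) + ∫ x, v x * (g x * conj (g x)) ∂μ)) := by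
  have rc : ∀ x, conj (v x) = v x := fun x => Complex.conj_eq_iff_im.2 (hv x)
  have cj : ∀ φ : X → ℂ, ∫ x, conj (φ x) ∂μ = conj (∫ x, φ x ∂μ) := fun φ => integral_conj
  have e1 : (fun x => v x * (((∑ i, c i * e i x) + g x) * conj ((∑ i, c i * e i x) + g x))) = fun x =>
      (∑ i, ∑ j, c i * conj (c j) * (v x * (e i x * conj (e j x))))
        + ((∑ i, c i * conj (v x * (g x * conj (e i x)))) + ((∑ i, conj (c i) * (v x * (g x * conj (e i x))))
          + v x * (g x * conj (g x)))) := by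
    funext x
    have h1 : (∑ i, ∑ j, c i * conj (c j) * (v x * (e i x * conj (e j x)))) =
        v x * ((∑ i, c i * e i x) * conj (∑ i, c i * e i x)) := by
      rw [map_sum, Finset.sum_mul_sum, Finset.mul_sum]
      refine Finset.sum_congr rfl fun i _ => ?_
      rw [Finset.mul_sum]
      refine Finset.sum_congr rfl fun j _ => ?_
      rw [map_mul]
      ring
    have h2 : (∑ i, c i * conj (v x * (g x * conj (e i x)))) = v x * ((∑ i, c i * e i x) * conj (g x)) := by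
      rw [Finset.sum_mul, Finset.mul_sum]
      refine Finset.sum_congr rfl fun i _ => ?_
      simp only [map_mul, Complex.conj_conj, rc]
      ring
    have h3 : (∑ i, conj (c i) * (v x * (g x * conj (e i x)))) = v x * (g x * conj (∑ i, c i * e i x)) := by
      rw [map_sum, Finset.mul_sum, Finset.mul_sum]
      refine Finset.sum_congr rfl fun i _ => ?_
      rw [map_mul]
      ring
    rw [h1, h2, h3, map_add]
    ring
  have bij : ∀ i j, Bm fun x => c i * conj (c j) * (v x * (e i x * conj (e j x))) := fun i j =>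
    (Bm.const _).mul (bv.mul ((be i).mul (be j).conj))
  have bi : ∀ i, Bm fun x => c i * conj (v x * (g x * conj (e i x))) := fun i =>
    (Bm.const _).mul (bv.mul (bg.mul (be i).conj)).conj
  have bi' : ∀ i, Bm fun x => conj (c i) * (v x * (g x * conj (e i x))) := fun i =>
    (Bm.const _).mul (bv.mul (bg.mul (be i).conj))
  have bgg : Bm fun x => v x * (g x * conj (g x)) := bv.mul (bg.mul bg.conj)
  have s1 : Integrable (fun x => ∑ i, ∑ j, c i * conj (c j) * (v x * (e i x * conj (e j x)))) μ :=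
    integrable_finsetSum _ fun i _ => integrable_finsetSum _ fun j _ => (bij i j).int
  have s2 : Integrable (fun x => ∑ i, c i * conj (v x * (g x * conj (e i x)))) μ :=
    integrable_finsetSum _ fun i _ => (bi i).int
  have s3 : Integrable (fun x => ∑ i, conj (c i) * (v x * (g x * conj (e i x)))) μ :=
    integrable_finsetSum _ fun i _ => (bi' i).int
  have s4 : Integrable (fun x => (∑ i, conj (c i) * (v x * (g x * conj (e i x)))) + v x * (g x * conj (g x))) μ :=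
    s3.add bgg.int
  have s5 : Integrable (fun x => (∑ i, c i * conj (v x * (g x * conj (e i x))))
      + ((∑ i, conj (c i) * (v x * (g x * conj (e i x)))) + v x * (g x * conj (g x)))) μ := s2.add s4
  rw [e1, integral_add s1 s5, integral_add s2 s4, integral_add s3 bgg.int,
    integral_finsetSum _ fun i _ => integrable_finsetSum _ fun j _ => (bij i j).int,
    integral_finsetSum _ fun i _ => (bi i).int, integral_finsetSum _ fun i _ => (bi' i).int]
  congr 1
  · refine Finset.sum_congr rfl fun i _ => ?_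
    rw [integral_finsetSum _ fun j _ => (bij i j).int]
    refine Finset.sum_congr rfl fun j _ => ?_
    rw [integral_const_mul]
  · congr 1
    · refine Finset.sum_congr rfl fun i _ => ?_
      rw [integral_const_mul, cj]
    · congr 1
      refine Finset.sum_congr rfl fun i _ => ?_
      rw [integral_const_mul]

end gram

variable {Ω : Type*} [MeasurableSpace Ω]

/-- a frame -/
structure Fr (ν : Measure Ω) (x : Ω → ℝ) (E : Ω → ℂ) : Prop where
  pr : IsProbabilityMeasure ν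
  bx : Bm fun t => (x t : ℂ)
  bE : Bm E
  nE : ∀ t, E t * conj (E t) = 1
  en : ∀ n : ℕ, n ≠ 0 → ∫ t, E t ^ n ∂ν = 0
  x1 : ∫ t, (x t : ℂ) * E t ∂ν = 0

/-- `mean (x E^n)` -/
def Rn (n : ℕ) (ν : Measure Ω) (x : Ω → ℝ) (E : Ω → ℂ) : ℂ := ∫ t, (x t : ℂ) * E t ^ n ∂ν

/-- `mean (x²)` -/
def Q0 (ν : Measure Ω) (x : Ω → ℝ) : ℝ := ∫ t, x t ^ 2 ∂ν

/-- `mean (x² E^n)` -/
def Qn (n : ℕ) (ν : Measure Ω) (x : Ω → ℝ) (E : Ω → ℂ) : ℂ := ∫ t, (x t : ℂ) ^ 2 * E t ^ n ∂ν

/-- the kernel `x (q conj E² + z + p E²) + c conj E³ + d E³` -/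
def mv (q z p : ℝ) (c d : ℂ) (x : Ω → ℝ) (E : Ω → ℂ) (t : Ω) : ℂ :=
  (x t : ℂ) * (q * conj (E t) ^ 2 + z + p * E t ^ 2) + c * conj (E t) ^ 3 + d * E t ^ 3

section lin

variable {ν : Measure Ω} [IsFiniteMeasure ν]

theorem lin {n : ℕ} (c : Fin n → ℂ) {φ : Fin n → Ω → ℂ} (b : ∀ i, Bm (φ i)) :
    ∫ t, (∑ i, c i * φ i t) ∂ν = ∑ i, c i * ∫ t, φ i t ∂ν := by
  rw [integral_finsetSum _ fun i _ => ((Bm.const (c i)).mul (b i)).int]
  refine Finset.sum_congr rfl fun i _ => ?_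
  rw [integral_const_mul]

omit [IsFiniteMeasure ν] in
theorem cj (φ : Ω → ℂ) : ∫ t, conj (φ t) ∂ν = conj (∫ t, φ t ∂ν) := integral_conj

theorem bessel_gen {n : ℕ} {e : Fin n → Ω → ℂ} (be : ∀ i, Bm (e i)) {g : Ω → ℂ} (bg : Bm g)
    (ho : ∀ i j, ∫ t, e i t * conj (e j t) ∂ν = if i = j then 1 else 0) :
    ∑ i, ‖∫ t, g t * conj (e i t) ∂ν‖ ^ 2 ≤ ∫ t, ‖g t‖ ^ 2 ∂ν := by
  have n2 : ∀ w : ℂ, ((‖w‖ ^ 2 : ℝ) : ℂ) = w * conj w := fun w => by
    rw [Complex.mul_conj, Complex.normSq_eq_norm_sq]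
  have k : ∀ {f : Ω → ℂ}, ((∫ t, ‖f t‖ ^ 2 ∂ν : ℝ) : ℂ) = ∫ t, f t * conj (f t) ∂ν := by
    intro f
    rw [← integral_complex_ofReal]
    exact integral_congr_ae (Eventually.of_forall fun t => n2 _)
  have G := gram (μ := ν) be bg (Bm.const 1) (fun _ => Complex.one_im)
    (fun i => -∫ t, g t * conj (e i t) ∂ν)
  simp only [one_mul, ho, mul_ite, mul_one, mul_zero, Finset.sum_ite_eq, Finset.mem_univ, if_true] at G
  rw [← k, ← k] at G
  have h0 : 0 ≤ ∫ t, ‖(∑ i, -(∫ t, g t * conj (e i t) ∂ν) * e i t) + g t‖ ^ 2 ∂ν :=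
    integral_nonneg fun t => by positivity
  have h1 : (∑ i, (-∫ t, g t * conj (e i t) ∂ν) * conj (-∫ t, g t * conj (e i t) ∂ν)) +
      ((∑ i, (-∫ t, g t * conj (e i t) ∂ν) * conj (∫ t, g t * conj (e i t) ∂ν))
      + (∑ i, conj (-∫ t, g t * conj (e i t) ∂ν) * ∫ t, g t * conj (e i t) ∂ν)) =
      ((-∑ i, ‖∫ t, g t * conj (e i t) ∂ν‖ ^ 2 : ℝ) : ℂ) := by
    rw [← Finset.sum_add_distrib, ← Finset.sum_add_distrib, Complex.ofReal_neg, Complex.ofReal_sum,
      ← Finset.sum_neg_distrib]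
    refine Finset.sum_congr rfl fun i _ => ?_
    rw [n2, map_neg]
    ring
  have h2 : ((∫ t, ‖(∑ i, -(∫ t, g t * conj (e i t) ∂ν) * e i t) + g t‖ ^ 2 ∂ν : ℝ) : ℂ) =
      ((-∑ i, ‖∫ t, g t * conj (e i t) ∂ν‖ ^ 2 : ℝ) : ℂ) + ((∫ t, ‖g t‖ ^ 2 ∂ν : ℝ) : ℂ) := by
    rw [G, ← h1]
    ring
  have h3 : ∫ t, ‖(∑ i, -(∫ t, g t * conj (e i t) ∂ν) * e i t) + g t‖ ^ 2 ∂ν =
      (-∑ i, ‖∫ t, g t * conj (e i t) ∂ν‖ ^ 2) + ∫ t, ‖g t‖ ^ 2 ∂ν := by
    exact_mod_cast h2
  linarith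

end lin

namespace Fr

variable {ν : Measure Ω} {x : Ω → ℝ} {E : Ω → ℂ} (H : Fr ν x E)
include H

theorem bxn (n : ℕ) : Bm fun t => (x t : ℂ) * E t ^ n := H.bx.mul (bm_pow H.bE n)

theorem bxx (n : ℕ) : Bm fun t => (x t : ℂ) ^ 2 * E t ^ n := (bm_pow H.bx 2).mul (bm_pow H.bE n)

theorem bn (n : ℕ) : Bm fun t => E t ^ n := bm_pow H.bE n

theorem bmv (q z p : ℝ) (c d : ℂ) : Bm (mv q z p c d x E) := by
  have b1 : Bm fun t => (q : ℂ) * conj (E t) ^ 2 + z + p * E t ^ 2 :=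
    (((Bm.const _).mul (bm_pow H.bE.conj 2)).add (Bm.const _)).add ((Bm.const _).mul (bm_pow H.bE 2))
  exact ((H.bx.mul b1).add ((Bm.const c).mul (bm_pow H.bE.conj 3))).add ((Bm.const d).mul (bm_pow H.bE 3))

theorem cjx (n : ℕ) : ∫ t, conj ((x t : ℂ) * E t ^ n) ∂ν = conj (Rn n ν x E) := cj _

theorem cje {n : ℕ} (hn : n ≠ 0) : ∫ t, conj (E t ^ n) ∂ν = 0 := by
  rw [cj, H.en n hn, map_zero]

theorem r1 : Rn 1 ν x E = 0 := by
  unfold Rn
  simp only [pow_one]
  exact H.x1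

/-- the five families of functions of a combination -/
theorem int_lin (a1 a2 a3 a4 a5 a6 b1 b2 b3 b4 b5 b6 e0 e2 e3 e4 e5 s0 s2 s3 s4 s5 : ℂ) :
    ∫ t, (a1 * ((x t : ℂ) * E t ^ 1) + a2 * conj ((x t : ℂ) * E t ^ 1) + a3 * ((x t : ℂ) * E t ^ 3)
      + a4 * conj ((x t : ℂ) * E t ^ 3) + a5 * ((x t : ℂ) * E t ^ 5) + a6 * conj ((x t : ℂ) * E t ^ 5)
      + (b1 * E t ^ 2 + b2 * conj (E t ^ 2) + b3 * E t ^ 4 + b4 * conj (E t ^ 4) + b5 * E t ^ 6
        + b6 * conj (E t ^ 6)) + e0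
      + (s0 * ((x t : ℂ) ^ 2 * E t ^ 0) + s2 * ((x t : ℂ) ^ 2 * E t ^ 2) + s3 * conj ((x t : ℂ) ^ 2 * E t ^ 2)
        + s4 * ((x t : ℂ) ^ 2 * E t ^ 4) + s5 * conj ((x t : ℂ) ^ 2 * E t ^ 4))
      + (e2 + e3 + e4 + e5)) ∂ν =
      a3 * Rn 3 ν x E + a4 * conj (Rn 3 ν x E) + a5 * Rn 5 ν x E + a6 * conj (Rn 5 ν x E) + e0
      + (s0 * Qn 0 ν x E + s2 * Qn 2 ν x E + s3 * conj (Qn 2 ν x E) + s4 * Qn 4 ν x E
        + s5 * conj (Qn 4 ν x E)) + (e2 + e3 + e4 + e5) := by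
  have := H.pr
  let c : Fin 18 → ℂ := ![a1, a2, a3, a4, a5, a6, b1, b2, b3, b4, b5, b6, e0 + (e2 + e3 + e4 + e5), s0, s2, s3,
    s4, s5]
  let φ : Fin 18 → Ω → ℂ := ![fun t => (x t : ℂ) * E t ^ 1, fun t => conj ((x t : ℂ) * E t ^ 1),
    fun t => (x t : ℂ) * E t ^ 3, fun t => conj ((x t : ℂ) * E t ^ 3), fun t => (x t : ℂ) * E t ^ 5,
    fun t => conj ((x t : ℂ) * E t ^ 5), fun t => E t ^ 2, fun t => conj (E t ^ 2), fun t => E t ^ 4,
    fun t => conj (E t ^ 4), fun t => E t ^ 6, fun t => conj (E t ^ 6), fun _ => 1,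
    fun t => (x t : ℂ) ^ 2 * E t ^ 0, fun t => (x t : ℂ) ^ 2 * E t ^ 2,
    fun t => conj ((x t : ℂ) ^ 2 * E t ^ 2), fun t => (x t : ℂ) ^ 2 * E t ^ 4,
    fun t => conj ((x t : ℂ) ^ 2 * E t ^ 4)]
  have b : ∀ i, Bm (φ i) := by
    intro i
    fin_cases i
    · exact H.bxn 1
    · exact (H.bxn 1).conj
    · exact H.bxn 3
    · exact (H.bxn 3).conj
    · exact H.bxn 5
    · exact (H.bxn 5).conj
    · exact H.bn 2
    · exact (H.bn 2).conj
    · exact H.bn 4
    · exact (H.bn 4).conj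
    · exact H.bn 6
    · exact (H.bn 6).conj
    · exact Bm.const 1
    · exact H.bxx 0
    · exact H.bxx 2
    · exact (H.bxx 2).conj
    · exact H.bxx 4
    · exact (H.bxx 4).conj
  have L := lin (ν := ν) c b
  have e : (fun t => ∑ i, c i * φ i t) = fun t => (a1 * ((x t : ℂ) * E t ^ 1) + a2 * conj ((x t : ℂ) * E t ^ 1)
      + a3 * ((x t : ℂ) * E t ^ 3)
      + a4 * conj ((x t : ℂ) * E t ^ 3) + a5 * ((x t : ℂ) * E t ^ 5) + a6 * conj ((x t : ℂ) * E t ^ 5)
      + (b1 * E t ^ 2 + b2 * conj (E t ^ 2) + b3 * E t ^ 4 + b4 * conj (E t ^ 4) + b5 * E t ^ 6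
        + b6 * conj (E t ^ 6)) + e0
      + (s0 * ((x t : ℂ) ^ 2 * E t ^ 0) + s2 * ((x t : ℂ) ^ 2 * E t ^ 2) + s3 * conj ((x t : ℂ) ^ 2 * E t ^ 2)
        + s4 * ((x t : ℂ) ^ 2 * E t ^ 4) + s5 * conj ((x t : ℂ) ^ 2 * E t ^ 4))
      + (e2 + e3 + e4 + e5)) := by
    funext t
    simp [Fin.sum_univ_succ, c, φ]
    ring
  rw [e] at L
  rw [L]
  have one : ∫ _t : Ω, (1 : ℂ) ∂ν = 1 := by simp
  have v : ∀ i, ∫ t, φ i t ∂ν = (![Rn 1 ν x E, conj (Rn 1 ν x E), Rn 3 ν x E, conj (Rn 3 ν x E), Rn 5 ν x E,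
      conj (Rn 5 ν x E), 0, 0, 0, 0, 0, 0, 1, Qn 0 ν x E, Qn 2 ν x E, conj (Qn 2 ν x E), Qn 4 ν x E,
      conj (Qn 4 ν x E)] : Fin 18 → ℂ) i := by
    intro i
    fin_cases i
    · rfl
    · exact cj _
    · rfl
    · exact cj _
    · rfl
    · exact cj _
    · exact H.en 2 (by norm_num)
    · exact H.cje (by norm_num)
    · exact H.en 4 (by norm_num)
    · exact H.cje (by norm_num)
    · exact H.en 6 (by norm_num)
    · exact H.cje (by norm_num)
    · exact one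
    · rfl
    · rfl
    · exact cj _
    · rfl
    · exact cj _
  simp only [v, H.r1]
  simp [Fin.sum_univ_succ, c]
  ring

theorem m1 (q z p : ℝ) (c d : ℂ) : ∫ t, mv q z p c d x E t * E t ∂ν = p * Rn 3 ν x E := by
  have L := H.int_lin z q p 0 0 0 0 c d 0 0 0 0 0 0 0 0 0 0 0 0 0
  simp only [zero_mul, add_zero, zero_add] at L
  rw [← L]
  refine integral_congr_ae (Eventually.of_forall fun t => ?_)
  have h := H.nE t
  simp only [mv, map_mul, map_pow, Complex.conj_ofReal]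
  linear_combination ((x t : ℂ) * q * conj (E t) + c * conj (E t) ^ 2) * h

theorem m1c (q z p : ℝ) (c d : ℂ) : ∫ t, mv q z p c d x E t * conj (E t) ∂ν = q * conj (Rn 3 ν x E) := by
  have L := H.int_lin p z 0 q 0 0 d 0 0 c 0 0 0 0 0 0 0 0 0 0 0 0
  simp only [zero_mul, add_zero, zero_add] at L
  rw [← L]
  refine integral_congr_ae (Eventually.of_forall fun t => ?_)
  have h := H.nE t
  simp only [mv, map_mul, map_pow, Complex.conj_ofReal]
  linear_combination ((x t : ℂ) * p * E t + d * E t ^ 2) * h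

theorem m3 (q z p : ℝ) (c d : ℂ) : ∫ t, mv q z p c d x E t * E t ^ 3 ∂ν =
    z * Rn 3 ν x E + p * Rn 5 ν x E + c := by
  have L := H.int_lin q 0 z 0 p 0 0 0 0 0 d 0 c 0 0 0 0 0 0 0 0 0
  simp only [zero_mul, add_zero, zero_add] at L
  rw [← L]
  refine integral_congr_ae (Eventually.of_forall fun t => ?_)
  have h := H.nE t
  simp only [mv, map_mul, map_pow, Complex.conj_ofReal]
  linear_combination ((x t : ℂ) * q * E t * (E t * conj (E t) + 1)
    + c * ((E t * conj (E t)) ^ 2 + E t * conj (E t) + 1)) * h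

theorem m3c (q z p : ℝ) (c d : ℂ) : ∫ t, mv q z p c d x E t * conj (E t ^ 3) ∂ν =
    z * conj (Rn 3 ν x E) + q * conj (Rn 5 ν x E) + d := by
  have L := H.int_lin 0 p 0 z 0 q 0 0 0 0 0 c d 0 0 0 0 0 0 0 0 0
  simp only [zero_mul, add_zero, zero_add] at L
  rw [← L]
  refine integral_congr_ae (Eventually.of_forall fun t => ?_)
  have h := H.nE t
  simp only [mv, map_mul, map_pow, Complex.conj_ofReal]
  linear_combination ((x t : ℂ) * p * conj (E t) * (E t * conj (E t) + 1)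
    + d * ((E t * conj (E t)) ^ 2 + E t * conj (E t) + 1)) * h

theorem mm (q z p : ℝ) (c d : ℂ) : ∫ t, mv q z p c d x E t * conj (mv q z p c d x E t) ∂ν =
    ((q ^ 2 + z ^ 2 + p ^ 2 : ℝ) : ℂ) * Qn 0 ν x E + ((z * (q + p) : ℝ) : ℂ) * (Qn 2 ν x E + conj (Qn 2 ν x E))
      + ((q * p : ℝ) : ℂ) * (Qn 4 ν x E + conj (Qn 4 ν x E)) + (c * conj c + d * conj d)
      + (conj c * (z * Rn 3 ν x E + p * Rn 5 ν x E) + c * (z * conj (Rn 3 ν x E) + p * conj (Rn 5 ν x E)))
      + (d * (q * Rn 5 ν x E + z * Rn 3 ν x E) + conj d * (q * conj (Rn 5 ν x E) + z * conj (Rn 3 ν x E))) := by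
  have L := H.int_lin (q * conj c + p * d) (p * conj d + q * c) (z * conj c + z * d) (z * conj d + z * c)
    (p * conj c + q * d) (q * conj d + p * c) 0 0 0 0 (d * conj c) (c * conj d) (c * conj c + d * conj d) 0 0 0 0
    ((q ^ 2 + z ^ 2 + p ^ 2 : ℝ) : ℂ) ((z * (q + p) : ℝ) : ℂ) ((z * (q + p) : ℝ) : ℂ) ((q * p : ℝ) : ℂ)
    ((q * p : ℝ) : ℂ)
  simp only [zero_mul, add_zero, zero_add] at L
  refine (integral_congr_ae (Eventually.of_forall fun t => ?_)).trans (L.trans ?_)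
  · have h := H.nE t
    simp only [mv, map_mul, map_pow, map_add, Complex.conj_ofReal, Complex.conj_conj]
    push_cast
    linear_combination (((x t : ℂ) ^ 2 * (q ^ 2 + p ^ 2) + (x t : ℂ) * (q * conj c * E t + p * conj d * conj (E t)
      + q * c * conj (E t) + p * d * E t)) * (E t * conj (E t) + 1)
      + (c * conj c + d * conj d) * ((E t * conj (E t)) ^ 2 + E t * conj (E t) + 1)) * h
  · ring

theorem mmq (q z p : ℝ) (c d : ℂ) : ∫ t, mv q z p c d x E t ^ 2 ∂ν =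
    q ^ 2 * conj (Qn 4 ν x E) + (z ^ 2 + 2 * p * q) * Qn 0 ν x E + p ^ 2 * Qn 4 ν x E
      + 2 * q * z * conj (Qn 2 ν x E) + 2 * z * p * Qn 2 ν x E
      + 2 * c * (q * conj (Rn 5 ν x E) + z * conj (Rn 3 ν x E)) + 2 * d * (z * Rn 3 ν x E + p * Rn 5 ν x E)
      + 2 * c * d := by
  have L := H.int_lin (2 * q * d) (2 * p * c) (2 * z * d) (2 * z * c) (2 * p * d) (2 * q * c) 0 0 0 0 (d ^ 2)
    (c ^ 2) (2 * c * d) 0 0 0 0 (z ^ 2 + 2 * p * q) (2 * z * p) (2 * q * z) (p ^ 2) (q ^ 2)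
  simp only [zero_mul, add_zero, zero_add] at L
  refine (integral_congr_ae (Eventually.of_forall fun t => ?_)).trans (L.trans ?_)
  · have h := H.nE t
    simp only [mv, map_mul, map_pow, Complex.conj_ofReal]
    linear_combination ((2 * (x t : ℂ) ^ 2 * p * q + 2 * (x t : ℂ) * (q * d * E t + p * c * conj (E t)))
      * (E t * conj (E t) + 1) + 2 * c * d * ((E t * conj (E t)) ^ 2 + E t * conj (E t) + 1)) * h
  · ring

/-! ### Bessel's inequality for the four harmonics -/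

theorem bessel {g : Ω → ℂ} (bg : Bm g) :
    ‖∫ t, g t * conj (E t) ∂ν‖ ^ 2 + ‖∫ t, g t * E t ∂ν‖ ^ 2 + ‖∫ t, g t * conj (E t ^ 3) ∂ν‖ ^ 2
      + ‖∫ t, g t * E t ^ 3 ∂ν‖ ^ 2 ≤ ∫ t, ‖g t‖ ^ 2 ∂ν := by
  have := H.pr
  have one : ∫ _t : Ω, (1 : ℂ) ∂ν = 1 := by simp
  have e2 := H.en 2 (by norm_num)
  have e4 := H.en 4 (by norm_num)
  have e6 := H.en 6 (by norm_num)
  have f2 := H.cje (n := 2) (by norm_num)
  have f4 := H.cje (n := 4) (by norm_num)
  have f6 := H.cje (n := 6) (by norm_num)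
  have cg : ∀ {φ ψ : Ω → ℂ} {w : ℂ}, (∀ t, φ t = ψ t) → ∫ t, ψ t ∂ν = w → ∫ t, φ t ∂ν = w := by
    intro φ ψ w h1 h2
    rw [← h2]
    exact integral_congr_ae (Eventually.of_forall h1)
  have B := bessel_gen (ν := ν) (e := ![fun t => E t, fun t => conj (E t), fun t => E t ^ 3,
    fun t => conj (E t ^ 3)]) (by
      intro i
      fin_cases i
      · exact H.bE
      · exact H.bE.conj
      · exact H.bn 3
      · exact (H.bn 3).conj) bg (by
      intro i j
      fin_cases i <;> fin_cases j <;> simp only [Fin.zero_eta, Fin.mk_one, Fin.reduceFinMk, Matrix.cons_val,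
        Matrix.cons_val_zero, Matrix.cons_val_one, map_pow, Complex.conj_conj, Fin.reduceEq, if_true, if_false]
      · exact cg (fun t => H.nE t) one
      · exact cg (ψ := fun t => E t ^ 2) (fun t => by ring) e2
      · exact cg (ψ := fun t => conj (E t ^ 2)) (fun t => by
          rw [map_pow]; linear_combination (conj (E t) ^ 2) * H.nE t) f2
      · exact cg (ψ := fun t => E t ^ 4) (fun t => by ring) e4
      · exact cg (ψ := fun t => conj (E t ^ 2)) (fun t => by rw [map_pow]; ring) f2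
      · exact cg (ψ := fun _ => 1) (fun t => by linear_combination H.nE t) one
      · exact cg (ψ := fun t => conj (E t ^ 4)) (fun t => by rw [map_pow]; ring) f4
      · exact cg (ψ := fun t => E t ^ 2) (fun t => by linear_combination (E t ^ 2) * H.nE t) e2
      · exact cg (ψ := fun t => E t ^ 2) (fun t => by linear_combination (E t ^ 2) * H.nE t) e2
      · exact cg (ψ := fun t => E t ^ 4) (fun t => by ring) e4
      · exact cg (ψ := fun _ => 1) (fun t => by
          linear_combination ((E t * conj (E t)) ^ 2 + E t * conj (E t) + 1) * H.nE t) one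
      · exact cg (ψ := fun t => E t ^ 6) (fun t => by ring) e6
      · exact cg (ψ := fun t => conj (E t ^ 4)) (fun t => by rw [map_pow]; ring) f4
      · exact cg (ψ := fun t => conj (E t ^ 2)) (fun t => by
          rw [map_pow]; linear_combination (conj (E t) ^ 2) * H.nE t) f2
      · exact cg (ψ := fun t => conj (E t ^ 6)) (fun t => by rw [map_pow]; ring) f6
      · exact cg (ψ := fun _ => 1) (fun t => by
          linear_combination ((E t * conj (E t)) ^ 2 + E t * conj (E t) + 1) * H.nE t) one)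
  simp only [Fin.sum_univ_four, Matrix.cons_val_zero, Matrix.cons_val_one, Matrix.cons_val, Complex.conj_conj]
    at B
  exact B

end Fr

/-! ### the form in `(A, conj B)` -/

/-- the form in `(z₁, z₂) = (A, conj B)`; `om` the coefficient of the Jacobian, `b`, `b'` the coefficients of
`2 (|N|² - |M|²)` and `Re ((A + conj B) (r₃ conj N - conj r₃ M))`, `c`, `d` the coefficients of `conj E³`, `E³` in
the kernel -/
def HV (om q z p b b' mu : ℝ) (c d r3 r5 q2 q4 : ℂ) (q0 : ℝ) (z1 z2 : ℂ) : ℝ :=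
  -om * (‖z1‖ ^ 2 - ‖z2‖ ^ 2) - 2 * mu * ‖z2‖ ^ 2
    + ‖z1 - (p * z1 + (3 / 2 - q) * z2) * r3‖ ^ 2 + ‖z2 - ((3 / 2 + q) * z1 - p * z2) * conj r3‖ ^ 2
    + ‖-(5 / 2) * r5 * z2 + 3 / 2 * r3 * (z1 - z2) - z1 * (z * r3 + p * r5 + c)
        + z2 * (q * r5 + z * r3 + conj d)‖ ^ 2
    - ‖-(5 / 2) * r5 * z2 + 3 / 2 * r3 * (z1 - z2) - z1 * (z * r3 + p * r5 + c)
        + z2 * (q * r5 + z * r3 + conj d) - b' / 2 * (z1 + z2) * r3‖ ^ 2 / (1 - 2 * b)
    + ‖-(5 / 2) * conj r5 * z1 + 3 / 2 * conj r3 * (z2 - z1) - z1 * (z * conj r3 + q * conj r5 + d)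
        + z2 * (z * conj r3 + p * conj r5 + conj c)‖ ^ 2
    - ‖-(5 / 2) * conj r5 * z1 + 3 / 2 * conj r3 * (z2 - z1) - z1 * (z * conj r3 + q * conj r5 + d)
        + z2 * (z * conj r3 + p * conj r5 + conj c) + b' / 2 * (z1 + z2) * conj r3‖ ^ 2 / (1 + 2 * b)
    - (‖z1‖ ^ 2 + ‖z2‖ ^ 2) * ((q ^ 2 + z ^ 2 + p ^ 2) * q0 + 2 * (z * (q + p)) * q2.re + 2 * (q * p) * q4.re
        + ‖c‖ ^ 2 + ‖d‖ ^ 2 + 2 * (conj c * (z * r3 + p * r5)).re + 2 * (d * (q * r5 + z * r3)).re)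
    + 2 * (z1 * conj z2 * (q ^ 2 * conj q4 + (z ^ 2 + 2 * p * q) * q0 + p ^ 2 * q4 + 2 * q * z * conj q2
        + 2 * z * p * q2 + 2 * c * (q * conj r5 + z * conj r3) + 2 * d * (z * r3 + p * r5) + 2 * c * d)).re

section main

variable {ν : Measure Ω} {x : Ω → ℝ} {E : Ω → ℂ}

theorem kmk (v : CV) (t : Ω) : mkv ν x E v t =
    mv (v 8) (v 9) (v 3) (v 10 + v 7 / 2 * M3 ν x E) (v 5 + v 7 / 2 * conj (M3 ν x E)) x E t := by
  have h : ∀ w : ℂ, ((w.re : ℝ) : ℂ) = (w + conj w) / 2 := fun w => by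
    rw [Complex.add_conj]
    push_cast
    ring
  unfold mkv mv
  rw [h]
  simp only [map_mul, map_pow, Complex.conj_conj]
  ring

/-- the square of a combination of the four harmonics and of the kernel -/
theorem Fr.int_sq (H : Fr ν x E) (q z p : ℝ) (c d A B α β γ δ : ℂ) :
    ∫ t, ‖α * E t + (β * conj (E t) + (γ * E t ^ 3 + (δ * conj (E t ^ 3) + (A * mv q z p c d x E t
      - conj B * conj (mv q z p c d x E t)))))‖ ^ 2 ∂ν =
      ‖α‖ ^ 2 + ‖β‖ ^ 2 + ‖γ‖ ^ 2 + ‖δ‖ ^ 2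
      + 2 * (conj α * ((q * A - p * conj B) * conj (Rn 3 ν x E))).re
      + 2 * (conj β * ((p * A - q * conj B) * Rn 3 ν x E)).re
      + 2 * (conj γ * (A * (z * conj (Rn 3 ν x E) + q * conj (Rn 5 ν x E) + d)
          - conj B * (z * conj (Rn 3 ν x E) + p * conj (Rn 5 ν x E) + conj c))).re
      + 2 * (conj δ * (A * (z * Rn 3 ν x E + p * Rn 5 ν x E + c)
          - conj B * (z * Rn 3 ν x E + q * Rn 5 ν x E + conj d))).re
      + (‖A‖ ^ 2 + ‖B‖ ^ 2) * (∫ t, mv q z p c d x E t * conj (mv q z p c d x E t) ∂ν).re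
      - 2 * (A * B * ∫ t, mv q z p c d x E t ^ 2 ∂ν).re := by
  have := H.pr
  have n2 : ∀ w : ℂ, ((‖w‖ ^ 2 : ℝ) : ℂ) = w * conj w := fun w => by
    rw [Complex.mul_conj, Complex.normSq_eq_norm_sq]
  have bm := H.bmv q z p c d
  set m : Ω → ℂ := mv q z p c d x E with hm
  have bG : Bm fun t => A * m t + (-conj B) * conj (m t) := ((Bm.const A).mul bm).add ((Bm.const _).mul bm.conj)
  set e : Fin 4 → Ω → ℂ := ![fun t => E t, fun t => conj (E t), fun t => E t ^ 3, fun t => conj (E t ^ 3)] with he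
  have be : ∀ i, Bm (e i) := by
    intro i
    fin_cases i
    · exact H.bE
    · exact H.bE.conj
    · exact H.bn 3
    · exact (H.bn 3).conj
  have G := gram (μ := ν) be bG (Bm.const 1) (fun _ => Complex.one_im) ![α, β, γ, δ]
  have one : ∫ _t : Ω, (1 : ℂ) ∂ν = 1 := by simp
  have e2 := H.en 2 (by norm_num)
  have e4 := H.en 4 (by norm_num)
  have e6 := H.en 6 (by norm_num)
  have f2 := H.cje (n := 2) (by norm_num)
  have f4 := H.cje (n := 4) (by norm_num)
  have f6 := H.cje (n := 6) (by norm_num)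
  have cg : ∀ {φ ψ : Ω → ℂ} {w : ℂ}, (∀ t, φ t = ψ t) → ∫ t, ψ t ∂ν = w → ∫ t, φ t ∂ν = w := by
    intro φ ψ w h1 h2
    rw [← h2]
    exact integral_congr_ae (Eventually.of_forall h1)
  have ho : ∀ i j, ∫ t, (1 : ℂ) * (e i t * conj (e j t)) ∂ν = if i = j then 1 else 0 := by
    intro i j
    fin_cases i <;> fin_cases j <;> simp only [he, Fin.zero_eta, Fin.mk_one, Fin.reduceFinMk, Matrix.cons_val,
      Matrix.cons_val_zero, Matrix.cons_val_one, map_pow, Complex.conj_conj, Fin.reduceEq, if_true, if_false, one_mul]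
    · exact cg (fun t => H.nE t) one
    · exact cg (ψ := fun t => E t ^ 2) (fun t => by ring) e2
    · exact cg (ψ := fun t => conj (E t ^ 2)) (fun t => by
        rw [map_pow]; linear_combination (conj (E t) ^ 2) * H.nE t) f2
    · exact cg (ψ := fun t => E t ^ 4) (fun t => by ring) e4
    · exact cg (ψ := fun t => conj (E t ^ 2)) (fun t => by rw [map_pow]; ring) f2
    · exact cg (ψ := fun _ => 1) (fun t => by linear_combination H.nE t) one
    · exact cg (ψ := fun t => conj (E t ^ 4)) (fun t => by rw [map_pow]; ring) f4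
    · exact cg (ψ := fun t => E t ^ 2) (fun t => by linear_combination (E t ^ 2) * H.nE t) e2
    · exact cg (ψ := fun t => E t ^ 2) (fun t => by linear_combination (E t ^ 2) * H.nE t) e2
    · exact cg (ψ := fun t => E t ^ 4) (fun t => by ring) e4
    · exact cg (ψ := fun _ => 1) (fun t => by
        linear_combination ((E t * conj (E t)) ^ 2 + E t * conj (E t) + 1) * H.nE t) one
    · exact cg (ψ := fun t => E t ^ 6) (fun t => by ring) e6
    · exact cg (ψ := fun t => conj (E t ^ 4)) (fun t => by rw [map_pow]; ring) f4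
    · exact cg (ψ := fun t => conj (E t ^ 2)) (fun t => by
        rw [map_pow]; linear_combination (conj (E t) ^ 2) * H.nE t) f2
    · exact cg (ψ := fun t => conj (E t ^ 6)) (fun t => by rw [map_pow]; ring) f6
    · exact cg (ψ := fun _ => 1) (fun t => by
        linear_combination ((E t * conj (E t)) ^ 2 + E t * conj (E t) + 1) * H.nE t) one
  simp only [ho, mul_ite, mul_one, mul_zero, Finset.sum_ite_eq, Finset.mem_univ, if_true] at G
  -- the products with `G`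
  have h1 := H.m1 q z p c d
  have h1c := H.m1c q z p c d
  have h3 := H.m3 q z p c d
  have h3c := H.m3c q z p c d
  rw [← hm] at h1 h1c h3 h3c
  have lin2 : ∀ {φ : Ω → ℂ}, Bm φ → ∫ t, (1 : ℂ) * ((A * m t + (-conj B) * conj (m t)) * φ t) ∂ν =
      A * (∫ t, m t * φ t ∂ν) - conj B * conj (∫ t, m t * conj (φ t) ∂ν) := by
    intro φ bφ
    rw [← cj, ← integral_const_mul, ← integral_const_mul, ← integral_sub ((Bm.const A).mul (bm.mul bφ)).int
      ((Bm.const (conj B)).mul (bm.mul bφ.conj).conj).int]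
    refine integral_congr_ae (Eventually.of_forall fun t => ?_)
    simp only [map_mul, Complex.conj_conj]
    ring
  have g0 : ∫ t, (1 : ℂ) * ((A * m t + (-conj B) * conj (m t)) * conj (E t)) ∂ν =
      (q * A - p * conj B) * conj (Rn 3 ν x E) := by
    rw [lin2 H.bE.conj, h1c]
    simp only [Complex.conj_conj]
    rw [h1, map_mul, Complex.conj_ofReal]
    ring
  have g1 : ∫ t, (1 : ℂ) * ((A * m t + (-conj B) * conj (m t)) * E t) ∂ν =
      (p * A - q * conj B) * Rn 3 ν x E := by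
    rw [lin2 H.bE, h1, h1c, map_mul, Complex.conj_ofReal, Complex.conj_conj]
    ring
  have g2 : ∫ t, (1 : ℂ) * ((A * m t + (-conj B) * conj (m t)) * conj (E t ^ 3)) ∂ν =
      A * (z * conj (Rn 3 ν x E) + q * conj (Rn 5 ν x E) + d)
          - conj B * (z * conj (Rn 3 ν x E) + p * conj (Rn 5 ν x E) + conj c) := by
    rw [lin2 (H.bn 3).conj, h3c]
    simp only [Complex.conj_conj]
    rw [h3]
    simp only [map_add, map_mul, Complex.conj_ofReal]
  have g3 : ∫ t, (1 : ℂ) * ((A * m t + (-conj B) * conj (m t)) * E t ^ 3) ∂ν =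
      A * (z * Rn 3 ν x E + p * Rn 5 ν x E + c)
          - conj B * (z * Rn 3 ν x E + q * Rn 5 ν x E + conj d) := by
    rw [lin2 (H.bn 3), h3, h3c]
    simp only [map_add, map_mul, Complex.conj_ofReal, Complex.conj_conj]
  have gg : ∫ t, (1 : ℂ) * ((A * m t + (-conj B) * conj (m t)) * conj (A * m t + (-conj B) * conj (m t))) ∂ν =
      (A * conj A + B * conj B) * (∫ t, m t * conj (m t) ∂ν) - (A * B * (∫ t, m t ^ 2 ∂ν)
        + conj (A * B * ∫ t, m t ^ 2 ∂ν)) := by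
    rw [map_mul conj (A * B), ← cj, ← integral_const_mul, ← integral_const_mul, ← integral_const_mul,
      ← integral_add ((Bm.const (A * B)).mul (bm_pow bm 2)).int
        ((Bm.const (conj (A * B))).mul (bm_pow bm 2).conj).int,
      ← integral_sub ((Bm.const _).mul (bm.mul bm.conj)).int
        (((Bm.const (A * B)).mul (bm_pow bm 2)).add ((Bm.const (conj (A * B))).mul (bm_pow bm 2).conj)).int]
    refine integral_congr_ae (Eventually.of_forall fun t => ?_)
    simp only [map_mul, map_add, map_neg, map_pow, Complex.conj_conj]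
    ring
  have k : ((∫ t, ‖α * E t + (β * conj (E t) + (γ * E t ^ 3 + (δ * conj (E t ^ 3) + (A * m t
      - conj B * conj (m t)))))‖ ^ 2 ∂ν : ℝ) : ℂ) =
      ∫ t, (1 : ℂ) * (((∑ i, ![α, β, γ, δ] i * e i t) + (A * m t + (-conj B) * conj (m t)))
        * conj ((∑ i, ![α, β, γ, δ] i * e i t) + (A * m t + (-conj B) * conj (m t)))) ∂ν := by
    rw [← integral_complex_ofReal]
    refine integral_congr_ae (Eventually.of_forall fun t => ?_)
    simp only
    rw [n2, one_mul]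
    have : (∑ i, ![α, β, γ, δ] i * e i t) + (A * m t + (-conj B) * conj (m t)) =
        α * E t + (β * conj (E t) + (γ * E t ^ 3 + (δ * conj (E t ^ 3) + (A * m t
      - conj B * conj (m t))))) := by
      simp only [Fin.sum_univ_four, he, Matrix.cons_val_zero, Matrix.cons_val_one, Matrix.cons_val]
      ring
    rw [this]
  rw [G, gg] at k
  simp only [Fin.sum_univ_four, he, Matrix.cons_val_zero, Matrix.cons_val_one, Matrix.cons_val,
    Complex.conj_conj] at k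
  rw [g0, g1, g2, g3] at k
  have kr := congrArg Complex.re k
  rw [Complex.ofReal_re] at kr
  rw [kr]
  have sq : ∀ w : ℂ, ‖w‖ ^ 2 = w.re * w.re + w.im * w.im := fun w => by
    rw [← Complex.normSq_eq_norm_sq, Complex.normSq_apply]
  have mmi : (∫ t, m t * conj (m t) ∂ν).im = 0 := by
    have : ∫ t, m t * conj (m t) ∂ν = ((∫ t, ‖m t‖ ^ 2 ∂ν : ℝ) : ℂ) := by
      rw [← integral_complex_ofReal]
      exact integral_congr_ae (Eventually.of_forall fun t => (n2 _).symm)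
    rw [this, Complex.ofReal_im]
  rw [sq α, sq β, sq γ, sq δ, sq A, sq B]
  generalize (∫ t, m t * conj (m t) ∂ν) = MM at *
  generalize (∫ t, m t ^ 2 ∂ν) = MQ
  generalize ((q * A - p * conj B) * conj (Rn 3 ν x E)) = w0
  generalize ((p * A - q * conj B) * Rn 3 ν x E) = w1
  generalize A * (z * conj (Rn 3 ν x E) + q * conj (Rn 5 ν x E) + d)
          - conj B * (z * conj (Rn 3 ν x E) + p * conj (Rn 5 ν x E) + conj c) = w2
  generalize A * (z * Rn 3 ν x E + p * Rn 5 ν x E + c)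
          - conj B * (z * Rn 3 ν x E + q * Rn 5 ν x E + conj d) = w3
  simp only [Complex.add_re, Complex.sub_re, Complex.mul_re, Complex.mul_im, Complex.conj_re, Complex.conj_im,
    Complex.add_im, mmi]
  ring

/-- the form of the certificate at the vector `v` for the state `(ν, x, E)` -/
def HVv (ν : Measure Ω) (x : Ω → ℝ) (E : Ω → ℂ) (v : CV) (z1 z2 : ℂ) : ℝ :=
  HV (Wv ν x E v - v 12 * ‖M3 ν x E‖ ^ 2) (v 8) (v 9) (v 3) (v 11) (v 13) (v 14)
    (v 10 + v 7 / 2 * M3 ν x E) (v 5 + v 7 / 2 * conj (M3 ν x E)) (M3 ν x E) (M5 ν x E) (P2 ν x E) (P4 ν x E)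
    (P0 ν x) z1 z2

theorem sq_re (w : ℂ) : ‖w‖ ^ 2 = w.re * w.re + w.im * w.im := by
  rw [← Complex.normSq_eq_norm_sq, Complex.normSq_apply]

/-- completing the square: `t |N|² + 2 Re (conj N u) + |u|² / t ≥ 0` -/
theorem csq {t : ℝ} (ht : 0 < t) (N u : ℂ) : 0 ≤ t * ‖N‖ ^ 2 + 2 * (conj N * u).re + ‖u‖ ^ 2 / t := by
  have h : t * ‖N‖ ^ 2 + 2 * (conj N * u).re + ‖u‖ ^ 2 / t = ‖(t : ℂ) * N + u‖ ^ 2 / t := by
    rw [sq_re, sq_re, sq_re]
    simp only [Complex.mul_re, Complex.conj_re, Complex.conj_im, Complex.add_re, Complex.add_im,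
      Complex.mul_im, Complex.ofReal_re, Complex.ofReal_im]
    field_simp
    ring
  rw [h]
  positivity

/-- **elimination of `K` by Parseval, of `N`, `M` by completing squares** -/
theorem Fr.par_le (H : Fr ν x E) {v : CV} (h1 : 2 * v 11 < 1) (h2 : -1 < 2 * v 11)
    (h : ∀ z1 z2, 0 ≤ HVv ν x E v z1 z2) (A B N M : ℂ) :
    ∃ α β γ δ : ℂ, restv ν x E v A B N M α β γ δ + ∫ t, ‖hv ν x E v A B α β γ δ t‖ ^ 2 ∂ν ≤ 0 := by
  set q : ℝ := v 8 with hq
  set z : ℝ := v 9 with hz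
  set p : ℝ := v 3 with hp
  set c : ℂ := v 10 + v 7 / 2 * M3 ν x E with hc
  set d : ℂ := v 5 + v 7 / 2 * conj (M3 ν x E) with hd
  have r3 : Rn 3 ν x E = M3 ν x E := rfl
  have r5 : Rn 5 ν x E = M5 ν x E := rfl
  have q2 : Qn 2 ν x E = P2 ν x E := rfl
  have q4 : Qn 4 ν x E = P4 ν x E := rfl
  have q0 : Qn 0 ν x E = (P0 ν x : ℂ) := by
    unfold Qn P0
    rw [← integral_complex_ofReal]
    refine integral_congr_ae (Eventually.of_forall fun t => ?_)
    simp
  have S := fun α β γ δ => H.int_sq q z p c d A B α β γ δ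
  have MM := H.mm q z p c d
  have MQ := H.mmq q z p c d
  rw [r3, r5, q2, q4, q0] at MM MQ
  simp only [r3, r5] at S
  have Z := h A (conj B)
  unfold HVv at Z
  rw [← hq, ← hz, ← hp, ← hc, ← hd] at Z
  -- the multipliers
  set P1 : ℂ := A - (p * A + (3 / 2 - q) * conj B) * M3 ν x E with hP1
  set P2' : ℂ := conj B - ((3 / 2 + q) * A - p * conj B) * conj (M3 ν x E) with hP2
  set Pp : ℂ := -(5 / 2) * M5 ν x E * conj B + 3 / 2 * M3 ν x E * (A - conj B)
    - A * (z * M3 ν x E + p * M5 ν x E + c) + conj B * (q * M5 ν x E + z * M3 ν x E + conj d) with hPp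
  set Pm : ℂ := -(5 / 2) * conj (M5 ν x E) * A + 3 / 2 * conj (M3 ν x E) * (conj B - A)
    - A * (z * conj (M3 ν x E) + q * conj (M5 ν x E) + d)
    + conj B * (z * conj (M3 ν x E) + p * conj (M5 ν x E) + conj c) with hPm
  set w0 : ℂ := (q * A - p * conj B) * conj (M3 ν x E) with hw0
  set w1 : ℂ := (p * A - q * conj B) * M3 ν x E with hw1
  set w2 : ℂ := A * (z * conj (M3 ν x E) + q * conj (M5 ν x E) + d)
          - conj B * (z * conj (M3 ν x E) + p * conj (M5 ν x E) + conj c) with hw2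
  set w3 : ℂ := A * (z * M3 ν x E + p * M5 ν x E + c)
          - conj B * (z * M3 ν x E + q * M5 ν x E + conj d) with hw3
  refine ⟨P2', P1, conj M + Pm, N + Pp, ?_⟩
  have ek : (fun t => ‖hv ν x E v A B P2' P1 (conj M + Pm) (N + Pp) t‖ ^ 2) = fun t =>
      ‖P2' * E t + (P1 * conj (E t) + ((conj M + Pm) * E t ^ 3 + ((N + Pp) * conj (E t ^ 3)
        + (A * mv q z p c d x E t - conj B * conj (mv q z p c d x E t)))))‖ ^ 2 := by
    funext t
    unfold hv
    rw [kmk]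
  have e0 : conj (B - sg ν x E * conj A) = P2' + w0 := by
    rw [hP2, hw0]
    unfold sg
    simp only [map_sub, map_mul, map_div₀, Complex.conj_conj, Complex.conj_ofNat]
    ring
  have e1 : A - sg ν x E * conj B = P1 + w1 := by
    rw [hP1, hw1]
    unfold sg
    ring
  have e2 : conj (rm ν x E A B M) = conj M + Pm + w2 := by
    rw [hPm, hw2]
    unfold rm
    simp only [map_sub, map_add, map_mul, map_div₀, Complex.conj_conj, Complex.conj_ofNat]
    ring
  have e3 : rp ν x E A B N = N + Pp + w3 := by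
    rw [hPp, hw3]
    unfold rp
    ring
  rw [ek, S]
  unfold restv
  rw [e0, e1, e2, e3]
  have c1 := csq (t := 1 - 2 * v 11) (by linarith) N (Pp - v 13 / 2 * (A + conj B) * M3 ν x E)
  have c2 := csq (t := 1 + 2 * v 11) (by linarith) (conj M) (Pm + v 13 / 2 * (A + conj B) * conj (M3 ν x E))
  unfold HV at Z
  rw [← hP1, ← hP2, ← hPp, ← hPm] at Z
  have hMN : (∫ t, mv q z p c d x E t * conj (mv q z p c d x E t) ∂ν).re =
      (q ^ 2 + z ^ 2 + p ^ 2) * P0 ν x + 2 * (z * (q + p)) * (P2 ν x E).re + 2 * (q * p) * (P4 ν x E).re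
        + ‖c‖ ^ 2 + ‖d‖ ^ 2 + 2 * (conj c * (z * M3 ν x E + p * M5 ν x E)).re
        + 2 * (d * (q * M5 ν x E + z * M3 ν x E)).re := by
    rw [MM, sq_re c, sq_re d]
    simp only [Complex.add_re, Complex.mul_re, Complex.mul_im, Complex.add_im, Complex.conj_re, Complex.conj_im,
      Complex.ofReal_re, Complex.ofReal_im]
    ring
  rw [hMN]
  have hMQ : 2 * (A * B * ∫ t, mv q z p c d x E t ^ 2 ∂ν).re =
      2 * (A * conj (conj B) * (q ^ 2 * conj (P4 ν x E) + (z ^ 2 + 2 * p * q) * P0 ν x + p ^ 2 * P4 ν x E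
        + 2 * q * z * conj (P2 ν x E) + 2 * z * p * P2 ν x E
        + 2 * c * (q * conj (M5 ν x E) + z * conj (M3 ν x E)) + 2 * d * (z * M3 ν x E + p * M5 ν x E)
        + 2 * c * d)).re := by
    rw [MQ, Complex.conj_conj]
  rw [hMQ]
  have hB : ‖conj B‖ ^ 2 = ‖B‖ ^ 2 := by rw [Complex.norm_conj]
  rw [hB] at Z
  unfold bvv
  generalize (A * conj (conj B) * (q ^ 2 * conj (P4 ν x E) + (z ^ 2 + 2 * p * q) * P0 ν x + p ^ 2 * P4 ν x E
        + 2 * q * z * conj (P2 ν x E) + 2 * z * p * P2 ν x E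
        + 2 * c * (q * conj (M5 ν x E) + z * conj (M3 ν x E)) + 2 * d * (z * M3 ν x E + p * M5 ν x E)
        + 2 * c * d)).re = T1 at Z ⊢
  generalize ((q ^ 2 + z ^ 2 + p ^ 2) * P0 ν x + 2 * (z * (q + p)) * (P2 ν x E).re
        + 2 * (q * p) * (P4 ν x E).re
        + ‖c‖ ^ 2 + ‖d‖ ^ 2 + 2 * (conj c * (z * M3 ν x E + p * M5 ν x E)).re
        + 2 * (d * (q * M5 ν x E + z * M3 ν x E)).re) = T2 at Z ⊢
  have cc : ‖conj M‖ ^ 2 = ‖M‖ ^ 2 := by rw [Complex.norm_conj]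
  rw [cc] at c2
  have k1 : ‖P2'‖ ^ 2 + 2 * (conj P2' * w0).re - 2 * (conj P2' * (P2' + w0)).re = -‖P2'‖ ^ 2 := by
    rw [sq_re]
    simp only [Complex.mul_re, Complex.add_re, Complex.add_im, Complex.conj_re, Complex.conj_im]
    ring
  have k2 : ‖P1‖ ^ 2 + 2 * (conj P1 * w1).re - 2 * (conj P1 * (P1 + w1)).re = -‖P1‖ ^ 2 := by
    rw [sq_re]
    simp only [Complex.mul_re, Complex.add_re, Complex.add_im, Complex.conj_re, Complex.conj_im]
    ring
  have k3 : ‖conj M + Pm‖ ^ 2 + 2 * (conj (conj M + Pm) * w2).re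
      - 2 * (conj (conj M + Pm) * (conj M + Pm + w2)).re = -‖M‖ ^ 2 - ‖Pm‖ ^ 2 - 2 * (conj (conj M) * Pm).re := by
    rw [sq_re, sq_re, sq_re]
    simp only [Complex.mul_re, Complex.add_re, Complex.add_im, Complex.conj_re, Complex.conj_im, map_add,
      Complex.conj_conj]
    ring
  have k4 : ‖N + Pp‖ ^ 2 + 2 * (conj (N + Pp) * w3).re
      - 2 * (conj (N + Pp) * (N + Pp + w3)).re = -‖N‖ ^ 2 - ‖Pp‖ ^ 2 - 2 * (conj N * Pp).re := by
    rw [sq_re, sq_re, sq_re]
    simp only [Complex.mul_re, Complex.add_re, Complex.add_im, Complex.conj_re, Complex.conj_im, map_add]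
    ring
  have k5 : v 13 * ((A + conj B) * (M3 ν x E * conj N - conj (M3 ν x E) * M)).re =
      2 * (conj N * (v 13 / 2 * (A + conj B) * M3 ν x E)).re
      - 2 * (conj (conj M) * (v 13 / 2 * (A + conj B) * conj (M3 ν x E))).re := by
    have : ((v 13 / 2 : ℝ) : ℂ) = (v 13 : ℂ) / 2 := by push_cast; rfl
    rw [← this]
    simp only [Complex.mul_re, Complex.mul_im, Complex.add_re, Complex.add_im, Complex.sub_re, Complex.sub_im,
      Complex.conj_re, Complex.conj_im, Complex.ofReal_re, Complex.ofReal_im]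
    ring
  rw [k5]
  rw [mul_sub, Complex.sub_re] at c1
  rw [mul_add, Complex.add_re] at c2
  simp only [Complex.add_re] at k1 k2 k3 k4 ⊢
  linarith

/-- **the linear certificate from the form** -/
theorem Fr.NC_of_HV (H : Fr ν x E) {v : CV} (h1 : 2 * v 11 < 1) (h2 : -1 < 2 * v 11)
    (h : ∀ z1 z2, 0 ≤ HVv ν x E v z1 z2) : NC ν x E v 1 := by
  have := H.pr
  refine NC_rw H.bx H.bE (q := fun _ => 1) measurable_const one_pos (fun _ => ⟨le_rfl, le_rfl⟩) (by simp)
    fun A B N M => ?_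
  obtain ⟨α, β, γ, δ, k⟩ := H.par_le h1 h2 h A B N M
  exact ⟨α, β, γ, δ, by simpa using k⟩

end main

end Pool.Agent.FPX.BRG
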