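import Mathlib
import Pool.Agent.FPX.BRG
import Pool.Agent.FPX.BTC

/-
BRH (helper84): the frame of the visual angle, and the condition `RW` of `BTC` from the form `HVv`.
-/

open MeasureTheory Set Filter Topology Complex
open scoped ENNReal NNReal ContDiff ComplexConjugate

noncomputable section

namespace Pool.Agent.FPX.BRG

open Pool.Agent.FPX.CRD (Bm)
open Pool.Agent.FPX.ALX (St)
open Pool.Agent.FPX.BTN (CV NC RW va e1 int_va e1_cont norm_e1)

theorem e1_pow (n : ℕ) (a : ℝ) : e1 a ^ n = Complex.exp ((n * a : ℝ) * Complex.I) := by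
  unfold e1
  rw [← Complex.exp_nat_mul]
  congr 1
  push_cast
  ring

theorem int_e1 {n : ℕ} (hn : n ≠ 0) : ∫ a, e1 a ^ n ∂va = 0 := by
  rw [int_va]
  have h : ∫ a in (0 : ℝ)..(2 * Real.pi), e1 a ^ n = 0 := by
    have hn' : (n : ℂ) * Complex.I ≠ 0 := mul_ne_zero (by exact_mod_cast hn) Complex.I_ne_zero
    have e : ∀ a : ℝ, e1 a ^ n = Complex.exp ((n : ℂ) * Complex.I * a) := fun a => by
      rw [e1_pow]
      congr 1
      push_cast
      ring
    simp only [e]
    rw [integral_exp_mul_complex hn']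
    have e2 : Complex.exp ((n : ℂ) * Complex.I * ((2 * Real.pi : ℝ) : ℂ)) = 1 := by
      rw [Complex.exp_eq_one_iff]
      exact ⟨n, by push_cast; ring⟩
    rw [e2]
    simp
  rw [h, smul_zero]

/-- **the frame of the visual angle** -/
theorem fr_va {s : ℝ} {X : ℝ → ℝ} (hX : St s X) (hb : ∀ a, |X a| ≤ 1) : Fr va X e1 where
  pr := inferInstance
  bx := ⟨Complex.measurable_ofReal.comp hX.cont.measurable, 1, fun a => by
    rw [Complex.norm_real]
    exact hb a⟩
  bE := ⟨e1_cont.measurable, 1, fun a => (norm_e1 a).le⟩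
  nE a := by rw [Complex.mul_conj, Complex.normSq_eq_norm_sq, norm_e1]; norm_num
  en n hn := int_e1 hn
  x1 := by
    have e : ∀ a, (X a : ℂ) * e1 a = ((X a * Real.cos a : ℝ) : ℂ) + ((X a * Real.sin a : ℝ) : ℂ) * Complex.I :=
      fun a => by
        unfold e1
        rw [Complex.exp_mul_I]
        push_cast
        ring
    rw [int_va]
    have i1 : IntervalIntegrable (fun a => ((X a * Real.cos a : ℝ) : ℂ)) volume 0 (2 * Real.pi) :=
      (Complex.continuous_ofReal.comp (hX.cont.mul Real.continuous_cos)).intervalIntegrable _ _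
    have i2 : IntervalIntegrable (fun a => ((X a * Real.sin a : ℝ) : ℂ) * Complex.I) volume 0 (2 * Real.pi) :=
      ((Complex.continuous_ofReal.comp (hX.cont.mul Real.continuous_sin)).mul continuous_const).intervalIntegrable _ _
    simp only [e]
    rw [intervalIntegral.integral_add i1 i2, intervalIntegral.integral_mul_const, intervalIntegral.integral_ofReal,
      intervalIntegral.integral_ofReal, hX.mc, hX.ms]
    simp

/-- **the condition of `BTC` from the form** (weight `1`) -/
theorem RW_of_HV {s : ℝ} {X : ℝ → ℝ} (hX : St s X) (hb : ∀ a, |X a| ≤ 1) {v : CV} (h1 : 2 * v 11 < 1)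
    (h2 : -1 < 2 * v 11) (h : ∀ z1 z2, 0 ≤ HVv va X e1 v z1 z2) : RW va X e1 v 1 :=
  ⟨fun _ _ => 1, continuous_const, fun _ _ _ _ => one_pos, by simp, fun A B N M => by
    obtain ⟨α, β, γ, δ, k⟩ := (fr_va hX hb).par_le h1 h2 h A B N M
    exact ⟨α, β, γ, δ, by simpa using k⟩⟩

end Pool.Agent.FPX.BRG
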