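import Mathlib
import Pool.Agent.FPX.BRG

/-
BRX (helper84): generic Fourier calculus for the elimination of `K`: rational lists for linear forms in
`Y = z_a · mean (x E^n)`, Hermitian forms as sums of rank one terms plus `z_a conj z_b mean (x² E^n)`;
the weighted square integral of `Σ a_j E^j + x Σ b_l E^l`; elimination of one free variable.
-/

open MeasureTheory Set Filter Topology Complex
open scoped ENNReal NNReal ContDiff ComplexConjugate

noncomputable section

namespace Pool.Agent.FPX.BRG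

open Pool.Agent.FPX.CRD (Bm)

variable {Ω : Type*} [MeasurableSpace Ω]

/-! ### lists -/

/-- a linear form in the variables `z_a u_n`, `u_0 = 1` -/
abbrev Lf := List (ℚ × ℕ × ℤ)

/-- a Hermitian form: a sum of terms `c ℓ conj ℓ'` -/
abbrev Tf := List (ℚ × Lf × Lf)

/-- the part `c z_a conj z_b Z_n` -/
abbrev Qf := List (ℚ × ℕ × ℕ × ℤ)

/-- a linear form in the `z_a` -/
abbrev Bf := List (ℚ × ℕ)

def ev (z : ℕ → ℂ) (u : ℤ → ℂ) (l : Lf) : ℂ := (l.map fun t => (t.1 : ℂ) * (z t.2.1 * u t.2.2)).sum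

def e2 (z : ℕ → ℂ) (u : ℤ → ℂ) (T : Tf) : ℂ :=
  (T.map fun t => (t.1 : ℂ) * (ev z u t.2.1 * conj (ev z u t.2.2))).sum

def eq2 (z : ℕ → ℂ) (Z : ℤ → ℂ) (q : Qf) : ℂ :=
  (q.map fun t => (t.1 : ℂ) * (z t.2.1 * conj (z t.2.2.1) * Z t.2.2.2)).sum

def bev (z : ℕ → ℂ) (b : Bf) : ℂ := (b.map fun t => (t.1 : ℂ) * z t.2).sum

/-- multiplication of a linear form in `z` by `u_n` -/
def sh (b : Bf) (n : ℤ) : Lf := b.map fun t => (t.1, t.2, n)

variable {z : ℕ → ℂ} {u Z : ℤ → ℂ}

@[simp] theorem ev_nil : ev z u [] = 0 := rfl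
@[simp] theorem ev_cons (t : ℚ × ℕ × ℤ) (l : Lf) : ev z u (t :: l) = (t.1 : ℂ) * (z t.2.1 * u t.2.2) + ev z u l := by
  simp [ev]
@[simp] theorem ev_append (l l' : Lf) : ev z u (l ++ l') = ev z u l + ev z u l' := by simp [ev]
@[simp] theorem e2_nil : e2 z u [] = 0 := rfl
@[simp] theorem e2_cons (t : ℚ × Lf × Lf) (l : Tf) :
    e2 z u (t :: l) = (t.1 : ℂ) * (ev z u t.2.1 * conj (ev z u t.2.2)) + e2 z u l := by simp [e2]
@[simp] theorem e2_append (l l' : Tf) : e2 z u (l ++ l') = e2 z u l + e2 z u l' := by simp [e2]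
@[simp] theorem eq2_nil : eq2 z Z [] = 0 := rfl
@[simp] theorem eq2_cons (t : ℚ × ℕ × ℕ × ℤ) (l : Qf) :
    eq2 z Z (t :: l) = (t.1 : ℂ) * (z t.2.1 * conj (z t.2.2.1) * Z t.2.2.2) + eq2 z Z l := by simp [eq2]
@[simp] theorem eq2_append (l l' : Qf) : eq2 z Z (l ++ l') = eq2 z Z l + eq2 z Z l' := by simp [eq2]
@[simp] theorem bev_nil : bev z [] = 0 := rfl
@[simp] theorem bev_cons (t : ℚ × ℕ) (l : Bf) : bev z (t :: l) = (t.1 : ℂ) * z t.2 + bev z l := by simp [bev]

theorem ev_sh (b : Bf) (n : ℤ) : ev z u (sh b n) = bev z b * u n := by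
  induction b with
  | nil => simp [sh]
  | cons t l ih =>
    have : sh (t :: l) n = (t.1, t.2, n) :: sh l n := rfl
    rw [this, ev_cons, ih, bev_cons]
    ring

theorem e2_flatMap {α : Type*} (l : List α) (f : α → Tf) : e2 z u (l.flatMap f) = (l.map fun a => e2 z u (f a)).sum := by
  induction l with
  | nil => rfl
  | cons a l ih => simp [ih]

theorem e2_map {α : Type*} (l : List α) (f : α → ℚ × Lf × Lf) : e2 z u (l.map f) =
    (l.map fun a => ((f a).1 : ℂ) * (ev z u (f a).2.1 * conj (ev z u (f a).2.2))).sum := by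
  simp [e2, Function.comp_def]

theorem eq2_flatMap {α : Type*} (l : List α) (f : α → Qf) :
    eq2 z Z (l.flatMap f) = (l.map fun a => eq2 z Z (f a)).sum := by
  induction l with
  | nil => rfl
  | cons a l ih => simp [ih]

/-! ### products of exponential polynomials -/

/-- `mean (x^r E^n)` -/
def Zr (r : ℕ) (ν : Measure Ω) (x : Ω → ℝ) (E : Ω → ℂ) (n : ℤ) : ℂ := ∫ t, (x t : ℂ) ^ r * E t ^ n ∂ν

/-- exponential polynomial -/
def pe (P : List (ℤ × ℂ)) (e : ℂ) : ℂ := (P.map fun p => p.2 * e ^ p.1).sum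

theorem pe_cons (p : ℤ × ℂ) (P : List (ℤ × ℂ)) (e : ℂ) : pe (p :: P) e = p.2 * e ^ p.1 + pe P e := by
  simp [pe]

section fr

variable {ν : Measure Ω} {x : Ω → ℝ} {E : Ω → ℂ} (H : Fr ν x E)
include H

theorem Fr.ne (t : Ω) : E t ≠ 0 := fun h => by
  have := H.nE t
  rw [h, zero_mul] at this
  exact zero_ne_one this

theorem Fr.cinv (t : Ω) : conj (E t) = (E t)⁻¹ := eq_inv_of_mul_eq_one_right (H.nE t)

theorem Fr.norm1 (t : Ω) : ‖E t‖ = 1 := by
  have h := H.nE t
  rw [Complex.mul_conj, Complex.normSq_eq_norm_sq] at h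
  have h2 : ‖E t‖ ^ 2 = 1 := by exact_mod_cast h
  nlinarith [norm_nonneg (E t)]

theorem Fr.czp (t : Ω) (n : ℤ) : conj (E t ^ n) = E t ^ (-n) := by
  rw [map_zpow₀, H.cinv, inv_zpow']

theorem Fr.bz (n : ℤ) : Bm fun t => E t ^ n := by
  refine ⟨?_, 1, fun t => ?_⟩
  · rcases n with m | m
    · simpa using H.bE.meas.pow_const m
    · have h := (H.bE.meas.pow_const (m + 1)).inv
      simp only [zpow_negSucc]
      exact h
  · rw [norm_zpow, H.norm1, one_zpow]

theorem Fr.bpe (P : List (ℤ × ℂ)) : Bm fun t => pe P (E t) := by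
  induction P with
  | nil => exact Bm.const 0
  | cons p P ih =>
    simp only [pe_cons]
    exact ((Bm.const _).mul (H.bz _)).add ih

theorem Fr.ipq (r : ℕ) (k : ℤ) (P Q : List (ℤ × ℂ)) :
    ∫ t, (x t : ℂ) ^ r * E t ^ k * (pe P (E t) * conj (pe Q (E t))) ∂ν =
      (P.map fun p => (Q.map fun q => p.2 * conj q.2 * Zr r ν x E (p.1 - q.1 + k)).sum).sum := by
  have := H.pr
  have bx : Bm fun t => (x t : ℂ) ^ r := bm_pow H.bx r
  induction P with
  | nil => simp [pe]
  | cons p P ih =>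
    have e : (fun t => (x t : ℂ) ^ r * E t ^ k * (pe (p :: P) (E t) * conj (pe Q (E t)))) = fun t =>
        (x t : ℂ) ^ r * E t ^ k * (p.2 * E t ^ p.1 * conj (pe Q (E t)))
          + (x t : ℂ) ^ r * E t ^ k * (pe P (E t) * conj (pe Q (E t))) := by
      funext t
      rw [pe_cons]
      ring
    rw [e, integral_add ((bx.mul (H.bz k)).mul (((Bm.const _).mul (H.bz _)).mul (H.bpe Q).conj)).int
      ((bx.mul (H.bz k)).mul ((H.bpe P).mul (H.bpe Q).conj)).int, ih, List.map_cons, List.sum_cons]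
    congr 1
    clear ih e
    induction Q with
    | nil => simp [pe]
    | cons q Q ih =>
      have e : (fun t => (x t : ℂ) ^ r * E t ^ k * (p.2 * E t ^ p.1 * conj (pe (q :: Q) (E t)))) = fun t =>
          p.2 * conj q.2 * ((x t : ℂ) ^ r * E t ^ (p.1 - q.1 + k))
            + (x t : ℂ) ^ r * E t ^ k * (p.2 * E t ^ p.1 * conj (pe Q (E t))) := by
        funext t
        have h := H.ne t
        rw [pe_cons, map_add, map_mul, H.czp, zpow_add₀ h, zpow_sub₀ h, zpow_neg]
        field_simp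
      rw [e, integral_add ((Bm.const _).mul (bx.mul (H.bz _))).int
        ((bx.mul (H.bz k)).mul (((Bm.const _).mul (H.bz _)).mul (H.bpe Q).conj)).int, ih,
        integral_const_mul, List.map_cons, List.sum_cons]
      rfl

theorem Fr.z0 (n : ℤ) : Zr 0 ν x E n = if n = 0 then 1 else 0 := by
  have := H.pr
  unfold Zr
  split_ifs with h
  · simp [h]
  · simp only [pow_zero, one_mul]
    rcases n with m | m
    · have hm : m ≠ 0 := fun e => h (by simp [e])
      simpa using H.en m hm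
    · have e : (fun t => E t ^ Int.negSucc m) = fun t => conj (E t ^ (m + 1)) := by
        funext t
        rw [zpow_negSucc, map_pow, H.cinv, inv_pow]
      rw [e]
      exact H.cje (by omega)

theorem Fr.z1p : Zr 1 ν x E 1 = 0 := by
  unfold Zr
  simpa using H.x1

theorem Fr.z1m : Zr 1 ν x E (-1) = 0 := by
  unfold Zr
  have e : (fun t => (x t : ℂ) ^ 1 * E t ^ (-1 : ℤ)) = fun t => conj ((x t : ℂ) * E t) := by
    funext t
    rw [map_mul, Complex.conj_ofReal, H.cinv, zpow_neg_one, pow_one]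
  rw [e, cj, H.x1, map_zero]

theorem Fr.zc (r : ℕ) (n : ℤ) : Zr r ν x E (-n) = conj (Zr r ν x E n) := by
  unfold Zr
  rw [← cj]
  refine integral_congr_ae (Eventually.of_forall fun t => ?_)
  simp only [map_mul, map_pow, Complex.conj_ofReal, H.czp]

/-- the modes: `0 ↦ 1`, `n ↦ mean (x E^n)` -/
def vl (ν : Measure Ω) (x : Ω → ℝ) (E : Ω → ℂ) (n : ℤ) : ℂ := if n = 0 then 1 else Zr 1 ν x E n

end fr

/-- a kernel: harmonics with coefficients linear in `Y`, and `x` times harmonics with coefficients linear in `z` -/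
structure Kr where
  A : List (ℤ × Lf)
  B : List (ℤ × Bf)

def Kr.pA (k : Kr) (z : ℕ → ℂ) (u : ℤ → ℂ) : List (ℤ × ℂ) := k.A.map fun p => (p.1, ev z u p.2)
def Kr.pB (k : Kr) (z : ℕ → ℂ) : List (ℤ × ℂ) := k.B.map fun p => (p.1, bev z p.2)

/-- the function `Σ a_j e^j + x Σ b_l e^l` -/
def Kr.f (k : Kr) (z : ℕ → ℂ) (u : ℤ → ℂ) (e : ℂ) (x : ℝ) : ℂ := pe (k.pA z u) e + x * pe (k.pB z) e

/-- rank one terms of `mean (E^m |f|²)` -/
def Kr.T (k : Kr) (m : ℤ) : Tf :=
  (k.A.flatMap fun p => k.A.flatMap fun q => if p.1 - q.1 + m = 0 then [(1, p.2, q.2)] else [])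
  ++ ((k.A.flatMap fun p => k.B.flatMap fun q =>
      if q.1 - p.1 - m = 1 ∨ q.1 - p.1 - m = -1 then [] else [(1, p.2, sh q.2 (q.1 - p.1 - m))])
  ++ (k.B.flatMap fun p => k.A.flatMap fun q =>
      if p.1 - q.1 + m = 1 ∨ p.1 - q.1 + m = -1 then [] else [(1, sh p.2 (p.1 - q.1 + m), q.2)]))

/-- the part with `x²` of `mean (E^m |f|²)` -/
def Kr.Q (k : Kr) (m : ℤ) : Qf :=
  k.B.flatMap fun p => k.B.flatMap fun q => p.2.flatMap fun s => q.2.map fun t => (s.1 * t.1, s.2, t.2, p.1 - q.1 + m)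

/-- parity: `A` has odd and `B` even harmonics -/
def Kr.par (k : Kr) : Bool := (k.A.all fun p => p.1 % 2 = 1) && (k.B.all fun p => p.1 % 2 = 0)

theorem eq2_prod (b b' : Bf) (n : ℤ) : eq2 z Z (b.flatMap fun s => b'.map fun t => (s.1 * t.1, s.2, t.2, n)) =
    bev z b * conj (bev z b') * Z n := by
  have h1 : ∀ (s : ℚ × ℕ), eq2 z Z (b'.map fun t => (s.1 * t.1, s.2, t.2, n)) =
      (s.1 : ℂ) * z s.2 * conj (bev z b') * Z n := by
    intro s
    induction b' with
    | nil => simp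
    | cons t b' ih =>
      rw [List.map_cons, eq2_cons, ih, bev_cons, map_add, map_mul]
      have : conj ((t.1 : ℚ) : ℂ) = ((t.1 : ℚ) : ℂ) := map_ratCast _ _
      rw [this]
      push_cast
      ring
  rw [eq2_flatMap]
  simp only [h1]
  induction b with
  | nil => simp
  | cons s b ih =>
    rw [List.map_cons, List.sum_cons, ih, bev_cons]
    ring

section fr2

variable {ν : Measure Ω} {x : Ω → ℝ} {E : Ω → ℂ} (H : Fr ν x E)
include H

theorem Fr.vl_odd {n : ℤ} (hn : n % 2 = 1) : vl ν x E n = Zr 1 ν x E n := by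
  unfold vl
  rw [if_neg]
  intro h
  rw [h] at hn
  norm_num at hn

theorem Fr.vl_neg (n : ℤ) : vl ν x E (-n) = conj (vl ν x E n) := by
  unfold vl
  by_cases h : n = 0
  · simp [h]
  · rw [if_neg h, if_neg (by omega), H.zc]

/-- **the square integral with the factor `E^m`** -/
theorem Fr.int_f (k : Kr) (hk : k.par = true) {m : ℤ} (hm : m % 2 = 0) (z : ℕ → ℂ) :
    ∫ t, E t ^ m * (k.f z (vl ν x E) (E t) (x t) * conj (k.f z (vl ν x E) (E t) (x t))) ∂ν =
      e2 z (vl ν x E) (k.T m) + eq2 z (Zr 2 ν x E) (k.Q m) := by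
  have := H.pr
  set u := vl ν x E with hu
  set PA := k.pA z u with hPA
  set PB := k.pB z with hPB
  have b1 : Bm fun t => pe PA (E t) := H.bpe _
  have b2 : Bm fun t => pe PB (E t) := H.bpe _
  have e : (fun t => E t ^ m * (k.f z u (E t) (x t) * conj (k.f z u (E t) (x t)))) = fun t =>
      (x t : ℂ) ^ 0 * E t ^ m * (pe PA (E t) * conj (pe PA (E t)))
      + ((x t : ℂ) ^ 1 * E t ^ m * (pe PA (E t) * conj (pe PB (E t)))
      + ((x t : ℂ) ^ 1 * E t ^ m * (pe PB (E t) * conj (pe PA (E t)))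
      + (x t : ℂ) ^ 2 * E t ^ m * (pe PB (E t) * conj (pe PB (E t))))) := by
    funext t
    unfold Kr.f
    rw [map_add, map_mul, Complex.conj_ofReal]
    ring
  have bb : ∀ r (P Q : List (ℤ × ℂ)), Bm fun t => (x t : ℂ) ^ r * E t ^ m * (pe P (E t) * conj (pe Q (E t))) :=
    fun r P Q => ((bm_pow H.bx r).mul (H.bz m)).mul ((H.bpe P).mul (H.bpe Q).conj)
  rw [e, integral_add (bb _ _ _).int ((bb _ _ _).add ((bb _ _ _).add (bb _ _ _))).int,
    integral_add (bb _ _ _).int ((bb _ _ _).add (bb _ _ _)).int,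
    integral_add (bb _ _ _).int (bb _ _ _).int, H.ipq, H.ipq, H.ipq, H.ipq]
  unfold Kr.par at hk
  rw [Bool.and_eq_true, List.all_eq_true, List.all_eq_true] at hk
  obtain ⟨hA, hB⟩ := hk
  have oA : ∀ p ∈ k.A, p.1 % 2 = 1 := fun p hp => by simpa using hA p hp
  have oB : ∀ p ∈ k.B, p.1 % 2 = 0 := fun p hp => by simpa using hB p hp
  have mp : ∀ {α : Type} (l : List α) (f g : α → ℂ), (∀ a ∈ l, f a = g a) → (l.map f).sum = (l.map g).sum :=
    fun l f g h => by rw [List.map_congr_left h]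
  -- the four parts
  have t1 : (PA.map fun p => (PA.map fun q => p.2 * conj q.2 * Zr 0 ν x E (p.1 - q.1 + m)).sum).sum =
      e2 z u (k.A.flatMap fun p => k.A.flatMap fun q => if p.1 - q.1 + m = 0 then [(1, p.2, q.2)] else []) := by
    rw [e2_flatMap, hPA]
    unfold Kr.pA
    rw [List.map_map]
    refine mp _ _ _ fun p hp => ?_
    rw [e2_flatMap]
    simp only [Function.comp_apply, List.map_map]
    refine mp _ _ _ fun q hq => ?_
    simp only [Function.comp_apply]
    rw [H.z0]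
    split_ifs <;> simp
  have t2 : (PA.map fun p => (PB.map fun q => p.2 * conj q.2 * Zr 1 ν x E (p.1 - q.1 + m)).sum).sum =
      e2 z u (k.A.flatMap fun p => k.B.flatMap fun q =>
        if q.1 - p.1 - m = 1 ∨ q.1 - p.1 - m = -1 then [] else [(1, p.2, sh q.2 (q.1 - p.1 - m))]) := by
    rw [e2_flatMap, hPA, hPB]
    unfold Kr.pA Kr.pB
    rw [List.map_map]
    refine mp _ _ _ fun p hp => ?_
    rw [e2_flatMap]
    simp only [Function.comp_apply, List.map_map]
    refine mp _ _ _ fun q hq => ?_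
    simp only [Function.comp_apply]
    have h1 : p.1 - q.1 + m = -(q.1 - p.1 - m) := by ring
    have h2 : (q.1 - p.1 - m) % 2 = 1 := by
      have := oA p hp
      have := oB q hq
      omega
    rw [h1, H.zc]
    split_ifs with h3
    · rcases h3 with h3 | h3 <;> rw [h3]
      · rw [H.z1p]; simp
      · rw [H.z1m]; simp
    · rw [e2_cons, e2_nil, ev_sh, hu, H.vl_odd h2, map_mul]
      simp
      ring
  have t3 : (PB.map fun p => (PA.map fun q => p.2 * conj q.2 * Zr 1 ν x E (p.1 - q.1 + m)).sum).sum =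
      e2 z u (k.B.flatMap fun p => k.A.flatMap fun q =>
      if p.1 - q.1 + m = 1 ∨ p.1 - q.1 + m = -1 then [] else [(1, sh p.2 (p.1 - q.1 + m), q.2)]) := by
    rw [e2_flatMap, hPA, hPB]
    unfold Kr.pA Kr.pB
    rw [List.map_map]
    refine mp _ _ _ fun p hp => ?_
    rw [e2_flatMap]
    simp only [Function.comp_apply, List.map_map]
    refine mp _ _ _ fun q hq => ?_
    simp only [Function.comp_apply]
    have h2 : (p.1 - q.1 + m) % 2 = 1 := by
      have := oA q hq
      have := oB p hp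
      omega
    split_ifs with h3
    · rcases h3 with h3 | h3 <;> rw [h3]
      · rw [H.z1p]; simp
      · rw [H.z1m]; simp
    · rw [e2_cons, e2_nil, ev_sh, hu, H.vl_odd h2]
      simp
      ring
  have t4 : (PB.map fun p => (PB.map fun q => p.2 * conj q.2 * Zr 2 ν x E (p.1 - q.1 + m)).sum).sum =
      eq2 z (Zr 2 ν x E) (k.Q m) := by
    unfold Kr.Q
    rw [eq2_flatMap, hPB]
    unfold Kr.pB
    rw [List.map_map]
    refine mp _ _ _ fun p hp => ?_
    rw [eq2_flatMap]
    simp only [Function.comp_apply, List.map_map]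
    refine mp _ _ _ fun q hq => ?_
    simp only [Function.comp_apply]
    rw [eq2_prod]
  rw [t1, t2, t3, t4]
  unfold Kr.T
  rw [e2_append, e2_append]
  ring

end fr2

/-! ### operations on forms -/

def smL (c : ℚ) (l : Lf) : Lf := l.map fun t => (c * t.1, t.2)
def smT (c : ℚ) (T : Tf) : Tf := T.map fun t => (c * t.1, t.2)
def smQ (c : ℚ) (q : Qf) : Qf := q.map fun t => (c * t.1, t.2)

theorem ev_smL (c : ℚ) (l : Lf) : ev z u (smL c l) = (c : ℂ) * ev z u l := by
  induction l with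
  | nil => simp [smL]
  | cons t l ih =>
    have : smL c (t :: l) = (c * t.1, t.2) :: smL c l := rfl
    rw [this, ev_cons, ih, ev_cons]
    push_cast
    ring

theorem e2_smT (c : ℚ) (T : Tf) : e2 z u (smT c T) = (c : ℂ) * e2 z u T := by
  induction T with
  | nil => simp [smT]
  | cons t l ih =>
    have : smT c (t :: l) = (c * t.1, t.2) :: smT c l := rfl
    rw [this, e2_cons, ih, e2_cons]
    push_cast
    ring

theorem eq2_smQ (c : ℚ) (q : Qf) : eq2 z Z (smQ c q) = (c : ℂ) * eq2 z Z q := by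
  induction q with
  | nil => simp [smQ]
  | cons t l ih =>
    have : smQ c (t :: l) = (c * t.1, t.2) :: smQ c l := rfl
    rw [this, eq2_cons, ih, eq2_cons]
    push_cast
    ring

/-! ### weights -/

/-- a weight: a Laurent polynomial in `e` -/
abbrev Wl := List (ℚ × ℤ)

def we (w : Wl) (e : ℂ) : ℂ := (w.map fun p => (p.1 : ℂ) * e ^ p.2).sum

def Kr.TW (w : Wl) (k : Kr) : Tf := w.flatMap fun p => smT p.1 (k.T p.2)
def Kr.QW (w : Wl) (k : Kr) : Qf := w.flatMap fun p => smQ p.1 (k.Q p.2)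

def Wl.ev (w : Wl) : Bool := w.all fun p => p.2 % 2 = 0

theorem pe_cont (P : List (ℤ × ℂ)) {e : ℂ} (he : e ≠ 0) : ContinuousAt (pe P) e := by
  induction P with
  | nil => exact continuousAt_const
  | cons p P ih =>
    have h : ContinuousAt (fun e => p.2 * e ^ p.1 + pe P e) e :=
      (continuousAt_const.mul (continuousAt_zpow₀ e p.1 (Or.inl he))).add ih
    exact h.congr (Eventually.of_forall fun e => (pe_cons p P e).symm)

section fr3

variable {ν : Measure Ω} {x : Ω → ℝ} {E : Ω → ℂ} (H : Fr ν x E)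
include H

theorem Fr.bf (k : Kr) (z : ℕ → ℂ) (u : ℤ → ℂ) : Bm fun t => k.f z u (E t) (x t) :=
  (H.bpe _).add (H.bx.mul (H.bpe _))

theorem Fr.bwe (w : Wl) : Bm fun t => we w (E t) := by
  induction w with
  | nil => exact Bm.const 0
  | cons p w ih =>
    have : (fun t => we (p :: w) (E t)) = fun t => (p.1 : ℂ) * E t ^ p.2 + we w (E t) := by
      funext t
      simp [we]
    rw [this]
    exact ((Bm.const _).mul (H.bz _)).add ih

theorem Fr.int_w (k : Kr) (hk : k.par = true) (w : Wl) (hw : w.ev = true) (z : ℕ → ℂ) :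
    ∫ t, we w (E t) * (k.f z (vl ν x E) (E t) (x t) * conj (k.f z (vl ν x E) (E t) (x t))) ∂ν =
      e2 z (vl ν x E) (k.TW w) + eq2 z (Zr 2 ν x E) (k.QW w) := by
  have := H.pr
  have bk := (H.bf k z (vl ν x E)).mul (H.bf k z (vl ν x E)).conj
  induction w with
  | nil => simp [we, Kr.TW, Kr.QW]
  | cons p w ih =>
    unfold Wl.ev at hw
    rw [List.all_cons, Bool.and_eq_true] at hw
    have h1 : p.2 % 2 = 0 := by simpa using hw.1
    have e : (fun t => we (p :: w) (E t) * (k.f z (vl ν x E) (E t) (x t) * conj (k.f z (vl ν x E) (E t) (x t)))) =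
        fun t => (p.1 : ℂ) * (E t ^ p.2 * (k.f z (vl ν x E) (E t) (x t) * conj (k.f z (vl ν x E) (E t) (x t))))
        + we w (E t) * (k.f z (vl ν x E) (E t) (x t) * conj (k.f z (vl ν x E) (E t) (x t))) := by
      funext t
      simp [we]
      ring
    rw [e, integral_add ((Bm.const _).mul ((H.bz _).mul bk)).int ((H.bwe w).mul bk).int, integral_const_mul,
      H.int_f k hk h1, ih hw.2]
    have t1 : k.TW (p :: w) = smT p.1 (k.T p.2) ++ k.TW w := rfl
    have t2 : k.QW (p :: w) = smQ p.1 (k.Q p.2) ++ k.QW w := rfl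
    rw [t1, t2, e2_append, eq2_append, e2_smT, eq2_smQ]
    ring

/-- **the weighted square integral** -/
theorem Fr.int_wr (k : Kr) (hk : k.par = true) (w : Wl) (hw : w.ev = true)
    (hr : ∀ e : ℂ, ‖e‖ = 1 → (we w e).im = 0) (z : ℕ → ℂ) :
    ∫ t, ‖k.f z (vl ν x E) (E t) (x t)‖ ^ 2 * (we w (E t)).re ∂ν =
      (e2 z (vl ν x E) (k.TW w) + eq2 z (Zr 2 ν x E) (k.QW w)).re := by
  rw [← H.int_w k hk w hw z]
  have n2 : ∀ w : ℂ, ((‖w‖ ^ 2 : ℝ) : ℂ) = w * conj w := fun w => by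
    rw [Complex.mul_conj, Complex.normSq_eq_norm_sq]
  have e : ∫ t, we w (E t) * (k.f z (vl ν x E) (E t) (x t) * conj (k.f z (vl ν x E) (E t) (x t))) ∂ν =
      ((∫ t, ‖k.f z (vl ν x E) (E t) (x t)‖ ^ 2 * (we w (E t)).re ∂ν : ℝ) : ℂ) := by
    rw [← integral_complex_ofReal]
    refine integral_congr_ae (Eventually.of_forall fun t => ?_)
    have h1 : we w (E t) = (((we w (E t)).re : ℝ) : ℂ) := by
      apply Complex.ext
      · rw [Complex.ofReal_re]
      · rw [Complex.ofReal_im, hr _ (H.norm1 t)]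
    simp only
    rw [← n2]
    conv_lhs => rw [h1]
    push_cast
    ring
  rw [e, Complex.ofReal_re]

end fr3

/-! ### the form of the certificate -/

/-- constraints with their multipliers: harmonic, right side, multiplier -/
abbrev Cl := List (ℤ × Lf × Lf)

/-- the kernel with the multipliers -/
def Cl.kr (C : Cl) (k : Kr) : Kr := ⟨C.map (fun c => (c.1, c.2.2)) ++ k.A, k.B⟩

/-- rank one terms of `-(form without K) + 2 Re (conj multiplier · right side) - weighted square integral` -/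
def FT (TQ : Tf) (C : Cl) (k : Kr) (w : Wl) : Tf :=
  smT (-1) TQ ++ C.map (fun c => (2, c.2.2, c.2.1)) ++ smT (-1) ((C.kr k).TW w)

def FQ (QQ : Qf) (C : Cl) (k : Kr) (w : Wl) : Qf := smQ (-1) QQ ++ smQ (-1) ((C.kr k).QW w)

theorem Cl.f_eq (C : Cl) (k : Kr) (z : ℕ → ℂ) (u : ℤ → ℂ) (e : ℂ) (x : ℝ) :
    (C.kr k).f z u e x = (C.map fun c => ev z u c.2.2 * e ^ c.1).sum + k.f z u e x := by
  unfold Kr.f Cl.kr Kr.pA Kr.pB pe
  simp only [List.map_append, List.sum_append, List.map_map]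
  rw [add_assoc]
  rfl

theorem e2_C (C : Cl) : e2 z u (C.map fun c => ((2 : ℚ), c.2.2, c.2.1)) =
    2 * (C.map fun c => ev z u c.2.2 * conj (ev z u c.2.1)).sum := by
  induction C with
  | nil => simp
  | cons c C ih =>
    rw [List.map_cons, e2_cons, ih, List.map_cons, List.sum_cons]
    push_cast
    ring

/-- **the value of the form** -/
theorem Fr.F_eq {ν : Measure Ω} {x : Ω → ℝ} {E : Ω → ℂ} (H : Fr ν x E) (TQ : Tf) (QQ : Qf) (C : Cl) (k : Kr)
    (hk : (C.kr k).par = true) (w : Wl) (hw : w.ev = true) (hr : ∀ e : ℂ, ‖e‖ = 1 → (we w e).im = 0) (z : ℕ → ℂ) :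
    (e2 z (vl ν x E) (FT TQ C k w) + eq2 z (Zr 2 ν x E) (FQ QQ C k w)).re =
      -((e2 z (vl ν x E) TQ + eq2 z (Zr 2 ν x E) QQ).re
        - 2 * ((C.map fun c => ev z (vl ν x E) c.2.2 * conj (ev z (vl ν x E) c.2.1)).sum).re
        + ∫ t, ‖(C.kr k).f z (vl ν x E) (E t) (x t)‖ ^ 2 * (we w (E t)).re ∂ν) := by
  rw [H.int_wr _ hk w hw hr z]
  unfold FT FQ
  rw [e2_append, e2_append, eq2_append, e2_smT, e2_smT, eq2_smQ, eq2_smQ, e2_C]
  simp only [Complex.add_re, Complex.mul_re]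
  push_cast
  norm_num
  ring

/-! ### elimination of one free variable -/

/-- coefficient of `z_i` -/
def cf (i : ℕ) (l : Lf) : ℚ := (l.map fun t => if t.2.1 = i then t.1 else 0).sum

/-- the rest -/
def rs (i : ℕ) (l : Lf) : Lf := l.filter fun t => t.2.1 ≠ i

/-- in `l` the variable `z_i` occurs only in the mode `0` -/
def ok1 (i : ℕ) (l : Lf) : Bool := l.all fun t => t.2.1 ≠ i || t.2.2 = 0

theorem ev_split (h0 : u 0 = 1) {i : ℕ} {l : Lf} (h : ok1 i l = true) :
    ev z u l = (cf i l : ℂ) * z i + ev z u (rs i l) := by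
  induction l with
  | nil => simp [cf, rs]
  | cons t l ih =>
    unfold ok1 at h
    rw [List.all_cons, Bool.and_eq_true] at h
    have h2 := ih h.2
    have hc : cf i (t :: l) = (if t.2.1 = i then t.1 else 0) + cf i l := by simp [cf]
    rw [ev_cons, h2, hc]
    by_cases ht : t.2.1 = i
    · have h3 : t.2.2 = 0 := by
        have := h.1
        simp only [ht, ne_eq, not_true_eq_false, decide_false, Bool.false_or, decide_eq_true_eq] at this
        exact this
      have hr : rs i (t :: l) = rs i l := by simp [rs, ht]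
      rw [hr, if_pos ht, ht, h3, h0]
      push_cast
      ring
    · have hr : rs i (t :: l) = t :: rs i l := by simp [rs, ht]
      rw [hr, if_neg ht, ev_cons]
      push_cast
      ring

/-- coefficient of `|z_i|²` -/
def lam (i : ℕ) (T : Tf) : ℚ := (T.map fun t => t.1 * cf i t.2.1 * cf i t.2.2).sum

/-- half of the coefficient of `conj z_i` -/
def lin1 (i : ℕ) (T : Tf) : Lf :=
  T.flatMap fun t => smL (t.1 / 2 * cf i t.2.2) (rs i t.2.1) ++ smL (t.1 / 2 * cf i t.2.1) (rs i t.2.2)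

/-- the rest -/
def rsT (i : ℕ) (T : Tf) : Tf := T.map fun t => (t.1, rs i t.2.1, rs i t.2.2)

def okT (i : ℕ) (T : Tf) : Bool := T.all fun t => ok1 i t.2.1 && ok1 i t.2.2

theorem e2_split (h0 : u 0 = 1) {i : ℕ} {T : Tf} (h : okT i T = true) :
    (e2 z u T).re = (lam i T : ℝ) * ‖z i‖ ^ 2 + 2 * (conj (z i) * ev z u (lin1 i T)).re
      + (e2 z u (rsT i T)).re := by
  induction T with
  | nil => simp [lam, lin1, rsT]
  | cons t T ih =>
    unfold okT at h
    rw [List.all_cons, Bool.and_eq_true, Bool.and_eq_true] at h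
    have h2 := ih h.2
    have l1 : lam i (t :: T) = t.1 * cf i t.2.1 * cf i t.2.2 + lam i T := by simp [lam]
    have l2 : lin1 i (t :: T) = (smL (t.1 / 2 * cf i t.2.2) (rs i t.2.1)
      ++ smL (t.1 / 2 * cf i t.2.1) (rs i t.2.2)) ++ lin1 i T := rfl
    have l3 : rsT i (t :: T) = (t.1, rs i t.2.1, rs i t.2.2) :: rsT i T := rfl
    rw [e2_cons, Complex.add_re, h2, l1, l2, l3, e2_cons, ev_append, ev_append, ev_smL, ev_smL,
      ev_split h0 h.1.1, ev_split h0 h.1.2, sq_re]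
    generalize ev z u (rs i t.2.1) = y1
    generalize ev z u (rs i t.2.2) = y2
    generalize ev z u (lin1 i T) = y3
    have r1 : ∀ q : ℚ, ((q : ℂ)).re = (q : ℝ) := fun q => Complex.ratCast_re q
    have r2 : ∀ q : ℚ, ((q : ℂ)).im = 0 := fun q => Complex.ratCast_im q
    have r3 : ∀ q : ℚ, conj ((q : ℂ)) = (q : ℂ) := fun q => map_ratCast _ q
    push_cast
    simp only [Complex.add_re, Complex.mul_re, Complex.conj_re, Complex.conj_im, Complex.add_im, Complex.mul_im,
      map_add, map_mul, r1, r2, r3, Complex.div_ofNat_re, Complex.div_ofNat_im]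
    ring

/-- elimination of `z_i` -/
def elim (i : ℕ) (κ : ℚ) (T : Tf) : Tf := (-κ, lin1 i T, lin1 i T) :: rsT i T

/-- **elimination of a free variable** -/
theorem elim_le (h0 : u 0 = 1) {i : ℕ} {κ : ℚ} {T : Tf} (h : okT i T = true) (hκ : 0 ≤ κ) (h1 : 1 ≤ κ * lam i T) :
    (e2 z u (elim i κ T)).re ≤ (e2 z u T).re := by
  rw [e2_split h0 h]
  unfold elim
  rw [e2_cons, Complex.add_re]
  have hl : (0 : ℝ) < (lam i T : ℝ) := by
    have : (0 : ℚ) < lam i T := by
      by_contra hh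
      have := mul_nonpos_of_nonneg_of_nonpos hκ (not_lt.1 hh)
      linarith
    exact_mod_cast this
  have c := csq hl (z i) (ev z u (lin1 i T))
  have h2 : (1 : ℝ) ≤ (κ : ℝ) * (lam i T : ℝ) := by exact_mod_cast h1
  have h3 : ‖ev z u (lin1 i T)‖ ^ 2 / (lam i T : ℝ) ≤ (κ : ℝ) * ‖ev z u (lin1 i T)‖ ^ 2 := by
    rw [div_le_iff₀ hl]
    nlinarith [sq_nonneg ‖ev z u (lin1 i T)‖]
  have h4 : (((-κ : ℚ) : ℂ) * (ev z u (lin1 i T) * conj (ev z u (lin1 i T)))).re =
      -(κ : ℝ) * ‖ev z u (lin1 i T)‖ ^ 2 := by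
    rw [Complex.mul_conj, Complex.normSq_eq_norm_sq]
    have : (((-κ : ℚ) : ℂ) * ((‖ev z u (lin1 i T)‖ ^ 2 : ℝ) : ℂ)) =
        ((-(κ : ℝ) * ‖ev z u (lin1 i T)‖ ^ 2 : ℝ) : ℂ) := by push_cast; ring
    rw [this, Complex.ofReal_re]
  rw [h4]
  linarith

end Pool.Agent.FPX.BRG
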