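import Pool.Agent.FPX.CAR
import Pool.Agent.FPX.AVL
import Pool.Agent.FPX.BRH
import Pool.Agent.FPX.BRX

/-
AVS (helper39): the averages of a state of `St s`: total variation from the majorants, the errors of all
moments, the record `Avg` of the facts used by the certificates.
-/

set_option autoImplicit false

open MeasureTheory Set Filter Topology Real
open scoped NNReal ComplexConjugate

noncomputable section

namespace Pool.Agent.FPX.AVS

open Pool.Agent.FPX.CAV Pool.Agent.FPX.NOD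
open Pool.Agent.FPX.ALX (St)
open Pool.Agent.FPX.SQD (ph)
open Pool.Agent.FPX.NOT (Gq)

/-! ### the geometric part of the data -/

/-- the geometric checks of a class -/
structure Geo (D : CD) : Prop where
  N1 : 1 < D.N
  s0 : 0 < D.s
  s1 : D.s ≤ 1
  hxm : 31 / 50 * D.s ≤ D.xm
  maj : ∀ i < D.N, D.u i = true → Maj D.s (ru D.N) i (D.H i) (D.H' i)
  mnj : ∀ i < D.N, D.w i = true → Mnj D.s (ru D.N) i (D.L i) (D.L' i)
  hup : ∀ i < D.N, D.okU i ∨ 2 * D.xm ≤ D.hb i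
  hlo : ∀ i < D.N, D.okW i ∨ 2 * D.xm ≤ D.lb i
  var : ∀ i < D.N, D.okV i

/-- the same record with empty trigonometric data -/
def triv (D : CD) : CD where
  N := D.N
  s := D.s
  xm := D.xm
  u := D.u
  w := D.w
  H := D.H
  H' := D.H'
  L := D.L
  L' := D.L'
  hb := D.hb
  lb := D.lb
  ty := D.ty
  vc := D.vc
  r1 := fun _ => 0
  i1 := fun _ => 0
  r3 := fun _ => 0
  i3 := fun _ => 0
  r4 := fun _ => 0
  i4 := fun _ => 0
  η := 1
  e1 := 3927 / 1250 / (8 * D.N ^ 2) * (4 + 2 * D.xm) + 1 * D.xm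
  e3 := 3 * (3927 / 1250) / (8 * D.N ^ 2) * (4 + 2 * D.xm) + 1 * D.xm
  e4 := 4 * (3927 / 1250) / (8 * D.N ^ 2) * (2 * D.xm * (4 + 2 * D.xm)) + 1 * D.xm ^ 2

theorem norm_ph (m : ℕ) (a : ℝ) : ‖ph m a‖ = 1 := by
  unfold ph
  rw [show (m : ℂ) * (a : ℂ) * Complex.I = ((m * a : ℝ) : ℂ) * Complex.I by push_cast; ring]
  exact Complex.norm_exp_ofReal_mul_I _

theorem norm_pm (m : ℕ) (r : ℕ → ℝ) (i : ℕ) : ‖pm m r i‖ ≤ 1 := by
  unfold pm
  have := intervalIntegral.norm_integral_le_of_norm_le_const (a := (0 : ℝ)) (b := 1)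
    (f := fun v => ph m (pt r i v)) (C := 1) fun v _ => (norm_ph m _).le
  simpa using this

variable {D : CD}

theorem Geo.ok (hG : Geo D) : (triv D).Ok where
  N1 := hG.N1
  s0 := hG.s0
  s1 := hG.s1
  hxm := hG.hxm
  maj := hG.maj
  mnj := hG.mnj
  hup := hG.hup
  hlo := hG.hlo
  var := hG.var
  t1 := fun i _ => by simpa [triv] using norm_pm 1 _ i
  t3 := fun i _ => by simpa [triv] using norm_pm 3 _ i
  t4 := fun i _ => by simpa [triv] using norm_pm 4 _ i
  n4 := fun i _ => by simp [triv]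
  he1 := le_refl _
  he3 := le_refl _
  he4 := le_refl _

/-- Cauchy -/
theorem sq_mean {f : ℝ → ℝ} (hf : Continuous f) :
    (∫ v in (0 : ℝ)..1, f v) ^ 2 ≤ ∫ v in (0 : ℝ)..1, f v ^ 2 := by
  obtain ⟨m, hm⟩ : ∃ m : ℝ, m = ∫ v in (0 : ℝ)..1, f v := ⟨_, rfl⟩
  have h0 : 0 ≤ ∫ v in (0 : ℝ)..1, (f v - m) ^ 2 :=
    intervalIntegral.integral_nonneg zero_le_one fun _ _ => sq_nonneg _
  have e2 : ∀ v, (f v - m) ^ 2 = f v ^ 2 - (2 * m) * f v + m ^ 2 := fun v => by ring
  simp only [e2] at h0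
  rw [intervalIntegral.integral_add (ii (by fun_prop) _ _) (ii (by fun_prop) _ _),
    intervalIntegral.integral_sub (ii (by fun_prop) _ _) (ii (by fun_prop) _ _),
    intervalIntegral.integral_const_mul, int_const1, ← hm] at h0
  rw [← hm]
  linarith

/-! ### total variation -/

/-- a cell with an upper bound of the slopes -/
theorem tv_up {Z : ℝ → ℝ} {K : ℝ≥0} (hZ : LipschitzWith K Z) {H H' : ℝ}
    (inc : ∀ x y, 0 ≤ x → x ≤ y → y ≤ 1 → Z y - Z x ≤ PH H H' y - PH H H' x)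
    (nn : ∀ v, 0 ≤ v → v ≤ 1 → 0 ≤ H + H' * (v - 1 / 2)) :
    ∫ v in (0 : ℝ)..1, |deriv Z v| ≤ 2 * H - (Z 1 - Z 0) := by
  have a1 : AbsolutelyContinuousOnInterval Z 0 1 :=
    (hZ.lipschitzOnWith (s := uIcc 0 1)).absolutelyContinuousOnInterval
  have iZ : IntervalIntegrable (deriv Z) volume 0 1 := a1.intervalIntegrable_deriv
  have hd : ∀ v, HasDerivAt (PH H H') (H + H' * (v - 1 / 2)) v := by
    intro v
    have h1 := (hasDerivAt_id v).const_mul H
    have h2 := (((hasDerivAt_id v).sub (hasDerivAt_pow 2 v))).const_mul (H' / 2)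
    have h3 := h1.sub h2
    refine (h3.congr_deriv ?_).congr_of_eventuallyEq (Eventually.of_forall fun w => ?_)
    · simp
      ring
    · simp only [PH, id, Pi.sub_apply]
      ring
  have mono : MonotoneOn (fun v => PH H H' v - Z v) (Icc 0 1) := by
    intro x hx y hy hxy
    have := inc x y hx.1 hxy hy.2
    simp only
    linarith
  have c1 : Continuous fun v : ℝ => 2 * (H + H' * (v - 1 / 2)) := by fun_prop
  have i1 : IntervalIntegrable (fun v : ℝ => 2 * (H + H' * (v - 1 / 2))) volume 0 1 := c1.intervalIntegrable _ _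
  have e1 : ∫ v in (0 : ℝ)..1, (2 * (H + H' * (v - 1 / 2)) - deriv Z v) = 2 * H - (Z 1 - Z 0) := by
    rw [intervalIntegral.integral_sub i1 iZ, a1.integral_deriv_eq_sub]
    congr 1
    have h2 : ∀ v ∈ uIcc (0 : ℝ) 1, HasDerivAt (fun v => 2 * PH H H' v) (2 * (H + H' * (v - 1 / 2))) v :=
      fun v _ => (hd v).const_mul 2
    rw [intervalIntegral.integral_eq_sub_of_hasDerivAt h2 i1, PH_one, PH_zero]
    ring
  rw [← e1]
  refine intervalIntegral.integral_mono_ae_restrict zero_le_one iZ.abs (i1.sub iZ) ?_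
  have hae : ∀ᵐ v ∂(volume.restrict (Icc (0 : ℝ) 1)), v ∈ Ioo (0 : ℝ) 1 := by
    rw [← Measure.restrict_congr_set Ioo_ae_eq_Icc]
    exact ae_restrict_mem measurableSet_Ioo
  filter_upwards [hae, ae_restrict_of_ae hZ.ae_differentiableAt_real] with v hv hdv
  have h0 := mono.derivWithin_nonneg (x := v)
  have hg : HasDerivAt (fun v => PH H H' v - Z v) (H + H' * (v - 1 / 2) - deriv Z v) v := (hd v).sub hdv.hasDerivAt
  rw [derivWithin_of_mem_nhds (Icc_mem_nhds hv.1 hv.2), hg.deriv] at h0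
  have h1 := nn v hv.1.le hv.2.le
  rcases abs_cases (deriv Z v) with ⟨e, _⟩ | ⟨e, _⟩ <;> rw [e] <;> linarith

/-- a cell with a lower bound of the slopes -/
theorem tv_lo {Z : ℝ → ℝ} {K : ℝ≥0} (hZ : LipschitzWith K Z) {H H' : ℝ}
    (inc : ∀ x y, 0 ≤ x → x ≤ y → y ≤ 1 → -(PH H H' y - PH H H' x) ≤ Z y - Z x)
    (nn : ∀ v, 0 ≤ v → v ≤ 1 → 0 ≤ H + H' * (v - 1 / 2)) :
    ∫ v in (0 : ℝ)..1, |deriv Z v| ≤ 2 * H + (Z 1 - Z 0) := by
  have h := tv_up (Z := fun v => -Z v) (K := K) hZ.neg (H := H) (H' := H')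
    (fun x y a b c => by have := inc x y a b c; linarith) nn
  have e : ∀ v, |deriv (fun v => -Z v) v| = |deriv Z v| := fun v => by
    rw [deriv.fun_neg, abs_neg]
  simp only [e] at h
  linarith

/-- the sum of the majorants: upper ones in the cells `i < M`, lower ones in the others -/
def tvb (D : CD) (M : ℕ) : ℚ := 2 * (∑ i ∈ Finset.range D.N, if i < M then D.H i else D.L i) + 2 * D.xm

section state

variable {X : ℝ → ℝ}

/-- **total variation from the majorants** -/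
theorem Geo.tv (hG : Geo D) (hX : St D.s X) (hb : ∀ a, |X a| ≤ 0.62 * (D.s : ℝ)) {M : ℕ} (hM : M ≤ D.N)
    (hu : ∀ i < M, D.u i = true) (hw : ∀ i < D.N, M ≤ i → D.w i = true) :
    ∫ a in (-(π / 2))..(π / 2), |deriv X a| ≤ ((tvb D M : ℚ) : ℝ) := by
  have hN : 0 < D.N := lt_trans one_pos hG.N1
  have hN' : (0 : ℝ) < D.N := by exact_mod_cast hN
  have hO := hG.ok
  have hX' : St (triv D).s X := hX
  have hb' : ∀ a, |X a| ≤ 0.62 * ((triv D).s : ℝ) := hb
  obtain ⟨K, hK⟩ := hX.lip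
  have G := ru_grid hN
  have hp := pi_pos
  have hi : ∀ a b, IntervalIntegrable (fun t => |deriv X t|) volume a b := fun a b =>
    ((hK.lipschitzOnWith (s := uIcc a b)).absolutelyContinuousOnInterval).intervalIntegrable_deriv.abs
  have e2 := intervalIntegral.sum_integral_adjacent_intervals (a := fun i => π * ru D.N i) (n := D.N)
    (f := fun t => |deriv X t|) (μ := volume) fun i _ => hi _ _
  rw [G.zero, G.last, show π * -(1 / 2) = -(π / 2) by ring, show π * (1 / 2) = π / 2 by ring] at e2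
  rw [← e2]
  have hZ : ∀ i, LipschitzWith (K * ⟨π / D.N, by positivity⟩) fun v => X (pt (ru D.N) i v) := fun i => by
    refine hK.comp (LipschitzWith.of_dist_le_mul fun x y => ?_)
    rw [Real.dist_eq, Real.dist_eq]
    have e : pt (ru D.N) i x - pt (ru D.N) i y = π / D.N * (x - y) := by
      unfold pt
      rw [dr_eq (r := ru D.N) (N := D.N) (fun _ => rfl)]
      ring
    rw [e, abs_mul, abs_of_pos (by positivity)]
    rfl
  have key : ∀ i ∈ Finset.range D.N, ∫ a in (π * ru D.N i)..(π * ru D.N (i + 1)), |deriv X a|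
      ≤ 2 * (((if i < M then D.H i else D.L i : ℚ) : ℝ)) - (if i < M then 1 else -1)
        * (X (π * ru D.N (i + 1)) - X (π * ru D.N i)) := by
    intro i hi'
    have hiN := Finset.mem_range.1 hi'
    rw [← tv_cell (N := D.N) (r := ru D.N) (fun _ => rfl) i]
    by_cases h : i < M
    · have hl := CD.Ok.ub hO hX' hiN (hu i h)
      have := tv_up (hZ i) hl.inc hl.nn
      rw [pt_one, pt_zero] at this
      have this' : ∫ v in (0 : ℝ)..1, |deriv (fun v => X (pt (ru D.N) i v)) v|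
          ≤ 2 * (D.H i : ℝ) - (X (π * ru D.N (i + 1)) - X (π * ru D.N i)) := this
      rw [if_pos h, if_pos h, one_mul]
      exact this'
    · have hl := CD.Ok.lb hO hX' hiN (hw i hiN (not_lt.1 h))
      have := tv_lo (hZ i) hl.inc hl.nn
      rw [pt_one, pt_zero] at this
      have this' : ∫ v in (0 : ℝ)..1, |deriv (fun v => X (pt (ru D.N) i v)) v|
          ≤ 2 * (D.L i : ℝ) + (X (π * ru D.N (i + 1)) - X (π * ru D.N i)) := this
      rw [if_neg h, if_neg h]
      linarith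
  refine (Finset.sum_le_sum key).trans ?_
  rw [Finset.sum_sub_distrib, ← Finset.mul_sum]
  have tel : ∑ i ∈ Finset.range D.N, (if i < M then (1 : ℝ) else -1) * (X (π * ru D.N (i + 1)) - X (π * ru D.N i))
      = 2 * X (π * ru D.N M) - X (π * ru D.N 0) - X (π * ru D.N D.N) := by
    have h1 : ∀ n, n ≤ D.N → ∑ i ∈ Finset.range n, (if i < M then (1 : ℝ) else -1) * (X (π * ru D.N (i + 1)) - X (π * ru D.N i))
        = if n ≤ M then X (π * ru D.N n) - X (π * ru D.N 0)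
          else 2 * X (π * ru D.N M) - X (π * ru D.N 0) - X (π * ru D.N n) := by
      intro n
      induction n with
      | zero => intro _; simp
      | succ n ih =>
        intro hn
        rw [Finset.sum_range_succ, ih (by omega)]
        by_cases h : n < M
        · rw [if_pos (by omega), if_pos h, if_pos (by omega)]
          ring
        · rw [if_neg h, if_neg (by omega : ¬ n + 1 ≤ M)]
          by_cases h2 : n ≤ M
          · have : n = M := by omega
            rw [if_pos h2, this]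
            ring
          · rw [if_neg h2]
            ring
    rw [h1 D.N le_rfl]
    by_cases h : D.N ≤ M
    · have : M = D.N := le_antisymm hM h
      rw [if_pos h, this]
      ring
    · rw [if_neg h]
  rw [tel]
  have hend : X (π * ru D.N D.N) = -X (π * ru D.N 0) := by
    rw [G.last, G.zero]
    have := hX.anti (π * -(1 / 2))
    rw [show π * -(1 / 2) + π = π * (1 / 2) by ring] at this
    exact this
  rw [hend]
  have hx := (abs_le.1 (CD.Ok.bx hO hb' (π * ru D.N M))).1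
  have hx' : -(D.xm : ℝ) ≤ X (π * ru D.N M) := hx
  unfold tvb
  push_cast
  have e3 : (∑ i ∈ Finset.range D.N, (((if i < M then D.H i else D.L i : ℚ) : ℝ)))
      = ∑ i ∈ Finset.range D.N, (if i < M then (D.H i : ℝ) else (D.L i : ℝ)) := by
    refine Finset.sum_congr rfl fun i _ => ?_
    split_ifs <;> rfl
  rw [e3]
  linarith

/-! ### the moments of the certificate bridge -/

open Pool.Agent.FPX.BTN (va e1)
open Pool.Agent.FPX.BRG (vl Zr fr_va)

theorem Zr_va (r n : ℕ) : Zr r va X e1 (n : ℤ)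
    = ((1 / (2 * π) : ℝ) : ℂ) * ∫ a in (0 : ℝ)..(2 * π), ph n a * ((X a ^ r : ℝ) : ℂ) := by
  unfold Zr
  rw [BTN.int_va, Complex.real_smul]
  congr 1
  · rw [one_div]
  · refine intervalIntegral.integral_congr fun a _ => ?_
    simp only [zpow_natCast]
    have : e1 a ^ n = ph n a := by
      unfold e1 ph
      rw [← Complex.exp_nat_mul]
      congr 1
      ring
    rw [this]
    push_cast
    ring

/-- the trigonometric data: `a n i` approximates `lam / N` times the mean of `e^{i n α}` over the cell -/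
structure Trg (N : ℕ) (a : ℕ → ℕ → Gq) (η : ℕ → ℚ) : Prop where
  zero : ∀ i < N, a 0 i = ⟨1 / N, 0⟩
  pos : ∀ n : ℕ, 1 ≤ n → n ≤ 9 → ∀ i < N,
    ‖((AVL.lam (n * π / (2 * N)) * (1 / N) : ℝ) : ℂ) * pm n (ru N) i - (a n i).toC‖ ≤ η n

/-- the moment of the averages -/
def wm (N : ℕ) (a : ℕ → ℕ → Gq) (n : ℕ) (z : ℕ → ℝ) : ℂ := ∑ i ∈ Finset.range N, (a n i).toC * (z i : ℂ)

/-- upper bound of `n π / (2 N)` -/
def yq (N n : ℕ) : ℚ := n * (3927 / 1250) / (2 * N)

/-- the checks of the errors -/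
structure Err (D : CD) (M : ℕ) (η e : ℕ → ℚ) : Prop where
  hM : M ≤ D.N
  hu : ∀ i < M, D.u i = true
  hw : ∀ i < D.N, M ≤ i → D.w i = true
  small : yq D.N 9 ≤ 3 / 5
  odd : ∀ n, n = 1 ∨ n = 3 ∨ n = 5 ∨ n = 7 ∨ n = 9 →
    yq D.N n / (8 * D.N) * (1 + 2 * yq D.N n ^ 2) * tvb D M + D.N * (η n * D.xm) ≤ e n
  even : ∀ n, n = 2 ∨ n = 4 ∨ n = 6 ∨ n = 8 →
    yq D.N n / (8 * D.N) * (1 + 2 * yq D.N n ^ 2) * (2 * D.xm * tvb D M) + D.N * (η n * D.xm ^ 2) ≤ e n

/-- a state and its averages -/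
structure Avg (D : CD) (a : ℕ → ℕ → Gq) (e : ℕ → ℚ) (u Z : ℤ → ℂ) (z A : ℕ → ℝ) : Prop where
  last : z D.N = -z 0
  hi : ∀ i < D.N, z (i + 1) - z i ≤ D.hb i
  lo : ∀ i < D.N, -(D.lb i : ℝ) ≤ z (i + 1) - z i
  bd : ∀ i, |z i| ≤ D.xm
  one : ‖wm D.N a 1 z‖ ≤ e 1
  lin : ∀ n : ℕ, n = 3 ∨ n = 5 ∨ n = 7 ∨ n = 9 → ‖u n - wm D.N a n z‖ ≤ e n
  A0 : ∀ i < D.N, z i ^ 2 ≤ A i
  A1 : ∀ i < D.N, A i ≤ z i ^ 2 + D.VB z i
  zero : Z 0 = wm D.N a 0 A
  quad : ∀ n : ℕ, n = 2 ∨ n = 4 ∨ n = 6 ∨ n = 8 → ‖Z n - wm D.N a n A‖ ≤ e n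

theorem pi_le : π ≤ 3927 / 1250 := by
  have := Real.pi_lt_d4
  norm_num at this ⊢
  linarith

theorem y_le {N n : ℕ} : n * π / (2 * N) ≤ ((yq N n : ℚ) : ℝ) := by
  unfold yq
  push_cast
  have := pi_le
  gcongr

/-- the error of a moment -/
theorem mom_err {N n : ℕ} (hN : 0 < N) {a : ℕ → ℕ → Gq} {η : ℚ} {m : ℂ} {x : ℕ → ℝ} {C T b : ℝ}
    (h1 : ‖m - ((AVL.lam (n * π / (2 * N)) * (1 / N) : ℝ) : ℂ) * ∑ i ∈ Finset.range N, pm n (ru N) i * (x i : ℂ)‖
      ≤ n * π / (2 * N) / (8 * N) * (1 + 2 * (n * π / (2 * N)) ^ 2) * T) (hT0 : 0 ≤ T) (hTC : T ≤ C)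
    (ht : ∀ i < N, ‖((AVL.lam (n * π / (2 * N)) * (1 / N) : ℝ) : ℂ) * pm n (ru N) i - (a n i).toC‖ ≤ η)
    (hx : ∀ i, |x i| ≤ b) :
    ‖m - wm N a n x‖ ≤ ((yq N n : ℚ) : ℝ) / (8 * N) * (1 + 2 * ((yq N n : ℚ) : ℝ) ^ 2) * C + N * (η * b) := by
  have hN' : (0 : ℝ) < N := by exact_mod_cast hN
  have hp := pi_pos
  have hη : (0 : ℝ) ≤ η := (norm_nonneg _).trans (ht 0 hN)
  set y : ℝ := n * π / (2 * N) with hy
  have hy0 : 0 ≤ y := by positivity
  have hyq : y ≤ ((yq N n : ℚ) : ℝ) := y_le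
  obtain ⟨L, hL⟩ : ∃ L : ℂ, L = ((AVL.lam y * (1 / N) : ℝ) : ℂ) := ⟨_, rfl⟩
  rw [← hL] at h1 ht
  have k2 : ‖L * (∑ i ∈ Finset.range N, pm n (ru N) i * (x i : ℂ)) - wm N a n x‖ ≤ N * (η * b) := by
    unfold wm
    rw [Finset.mul_sum, ← Finset.sum_sub_distrib]
    have h2 : ∀ i ∈ Finset.range N, ‖L * (pm n (ru N) i * (x i : ℂ)) - (a n i).toC * (x i : ℂ)‖ ≤ η * b := by
      intro i hi
      have e : L * (pm n (ru N) i * (x i : ℂ)) - (a n i).toC * (x i : ℂ)
          = (L * pm n (ru N) i - (a n i).toC) * (x i : ℂ) := by ring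
      rw [e, norm_mul, Complex.norm_real, Real.norm_eq_abs]
      exact mul_le_mul (ht i (Finset.mem_range.1 hi)) (hx i) (abs_nonneg _) hη
    refine (norm_sum_le _ _).trans ((Finset.sum_le_sum h2).trans (le_of_eq ?_))
    rw [Finset.sum_const, Finset.card_range, nsmul_eq_mul]
  have k1 : y / (8 * N) * (1 + 2 * y ^ 2) * T ≤ ((yq N n : ℚ) : ℝ) / (8 * N) * (1 + 2 * ((yq N n : ℚ) : ℝ) ^ 2) * C := by
    have : 0 ≤ ((yq N n : ℚ) : ℝ) := hy0.trans hyq
    gcongr
  have e : m - wm N a n x = (m - L * (∑ i ∈ Finset.range N, pm n (ru N) i * (x i : ℂ)))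
      + (L * (∑ i ∈ Finset.range N, pm n (ru N) i * (x i : ℂ)) - wm N a n x) := by ring
  rw [e]
  exact (norm_add_le _ _).trans (add_le_add (h1.trans k1) k2)

theorem y_mono {N n : ℕ} (hn : n ≤ 9) (h : yq N 9 ≤ 3 / 5) : n * π / (2 * N) ≤ 3 / 5 := by
  have h1 : (yq N n : ℚ) ≤ yq N 9 := by
    unfold yq
    have : (n : ℚ) ≤ ((9 : ℕ) : ℚ) := by exact_mod_cast hn
    gcongr
  have h2 : ((yq N n : ℚ) : ℝ) ≤ ((3 / 5 : ℚ) : ℝ) := by exact_mod_cast h1.trans h
  have h3 : (((3 / 5 : ℚ) : ℝ)) = 3 / 5 := by norm_num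
  rw [h3] at h2
  exact y_le.trans h2

/-- **a state and its averages** -/
theorem avg_of {D : CD} (hG : Geo D) {M : ℕ} {a : ℕ → ℕ → Gq} {η e : ℕ → ℚ} (hT : Trg D.N a η)
    (hE : Err D M η e) {X : ℝ → ℝ} (hX : St D.s X) (hb : ∀ a, |X a| ≤ 0.62 * (D.s : ℝ)) :
    ∃ z A : ℕ → ℝ, Avg D a e (vl va X e1) (Zr 2 va X e1) z A := by
  have hN : 0 < D.N := lt_trans one_pos hG.N1
  have hN' : (0 : ℝ) < D.N := by exact_mod_cast hN
  have hO := hG.ok
  have hX' : St (triv D).s X := hX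
  have hb' : ∀ a, |X a| ≤ 0.62 * ((triv D).s : ℝ) := hb
  have hxb : ∀ a, |X a| ≤ (D.xm : ℝ) := CD.Ok.bx hO hb'
  have hx0 : (0 : ℝ) ≤ D.xm := (abs_nonneg _).trans (hxb 0)
  obtain ⟨K, hK⟩ := hX.lip
  obtain ⟨K2, hK2⟩ := AVL.lip_sq hX hxb
  have htv := hG.tv hX hb hE.hM hE.hu hE.hw
  have hle : -(π / 2) ≤ π / 2 := by linarith [pi_pos]
  have htv0 : 0 ≤ ∫ a in (-(π / 2))..(π / 2), |deriv X a| :=
    intervalIntegral.integral_nonneg hle fun _ _ => abs_nonneg _
  have hadm := CD.Ok.adm hO hX' hb'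
  set z : ℕ → ℝ := av X (ru D.N) with hz
  set A : ℕ → ℝ := fun i => ∫ v in (0 : ℝ)..1, X (pt (ru D.N) i v) ^ 2 with hA
  have hzb : ∀ i, |z i| ≤ (D.xm : ℝ) := CD.Ok.av_abs hO hX' hb'
  have hAb : ∀ i, |A i| ≤ (D.xm : ℝ) ^ 2 := CD.Ok.sq_abs hO hX' hb'
  -- linear moments
  have lin : ∀ n : ℕ, n = 1 ∨ n = 3 ∨ n = 5 ∨ n = 7 ∨ n = 9 → ‖Zr 1 va X e1 n - wm D.N a n z‖ ≤ (e n : ℝ) := by
    intro n hn
    have hodd : Odd n := by rcases hn with rfl | rfl | rfl | rfl | rfl <;> decide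
    have h1n : 1 ≤ n := hodd.pos
    have h9 : n ≤ 9 := by rcases hn with rfl | rfl | rfl | rfl | rfl <;> norm_num
    have k := AVL.gen_lam hK hodd.pos (fun a => by rw [SQD.ph_odd hodd, hX.anti]; push_cast; ring) hN
      (r := ru D.N) (fun _ => rfl) rfl (y_mono h9 hE.small) le_rfl
    have e1 : Zr 1 va X e1 n = ((1 / (2 * π) : ℝ) : ℂ) * ∫ a in (0 : ℝ)..(2 * π), ph n a * (X a : ℂ) := by
      rw [Zr_va]
      simp only [pow_one]
    rw [← e1] at k
    have k2 := mom_err hN (x := z) k htv0 htv (fun i hi => hT.pos n h1n h9 i hi) hzb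
    have k3 : ((yq D.N n / (8 * D.N) * (1 + 2 * yq D.N n ^ 2) * tvb D M + D.N * (η n * D.xm) : ℚ) : ℝ) ≤ e n := by
      exact_mod_cast hE.odd n hn
    push_cast at k3
    exact k2.trans k3
  have htv2 : ∫ a in (-(π / 2))..(π / 2), |deriv (fun a => X a ^ 2) a| ≤ 2 * D.xm * ((tvb D M : ℚ) : ℝ) := by
    have hi : ∀ a b, IntervalIntegrable (fun t => |deriv (fun a => X a ^ 2) t|) volume a b := fun a b =>
      ((hK2.lipschitzOnWith (s := uIcc a b)).absolutelyContinuousOnInterval).intervalIntegrable_deriv.abs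
    have hd : ∀ᵐ a, |deriv (fun a => X a ^ 2) a| ≤ 2 * D.xm * |deriv X a| := by
      filter_upwards [hK.ae_differentiableAt_real] with a ha
      have : deriv (fun a => X a ^ 2) a = 2 * X a * deriv X a := by
        have := (ha.hasDerivAt.fun_pow 2).deriv
        simpa using this
      rw [this, abs_mul, abs_mul, abs_two]
      exact mul_le_mul_of_nonneg_right (by linarith [hxb a]) (abs_nonneg _)
    have k := intervalIntegral.integral_mono_ae hle (hi _ _)
      ((abs_int hX (-(π / 2)) (π / 2)).const_mul (2 * (D.xm : ℝ))) hd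
    rw [intervalIntegral.integral_const_mul] at k
    exact k.trans (mul_le_mul_of_nonneg_left htv (by positivity))
  have htv20 : 0 ≤ ∫ a in (-(π / 2))..(π / 2), |deriv (fun a => X a ^ 2) a| :=
    intervalIntegral.integral_nonneg hle fun _ _ => abs_nonneg _
  refine ⟨z, A, ?_⟩
  refine
    { last := hadm.last
      hi := hadm.hi
      lo := hadm.lo
      bd := hzb
      one := ?_
      lin := fun n hn => ?_
      A0 := fun i _ => ?_
      A1 := fun i hi => ?_
      zero := ?_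
      quad := fun n hn => ?_ }
  · have k := lin 1 (Or.inl rfl)
    have k0 := (fr_va hX (fun a => ?_)).z1p
    · have e0 : Zr 1 va X e1 ((1 : ℕ) : ℤ) = 0 := by exact_mod_cast k0
      rw [e0, zero_sub, norm_neg] at k
      exact k
    · have h1 : (D.s : ℝ) ≤ 1 := by exact_mod_cast hG.s1
      have h2 := hb a
      linarith
  · have k := lin n (by rcases hn with h | h | h | h <;> simp [h])
    have hne : (n : ℤ) ≠ 0 := by rcases hn with h | h | h | h <;> simp [h]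
    have e1 : vl va X e1 (n : ℤ) = Zr 1 va X e1 n := by
      unfold vl
      rw [if_neg hne]
    rw [e1]
    exact k
  · exact sq_mean (CD.cont_cell hX D.N i)
  · have k := CD.Ok.var_le hO hX' (i := i) hi
    have k' : A i - z i ^ 2 ≤ D.VB z i := k
    linarith
  · have k := AVL.sq_zero hX hxb hN (r := ru D.N) (fun _ => rfl)
    have q1 : Zr 2 va X e1 ((0 : ℕ) : ℤ) = ((1 / (2 * π) : ℝ) : ℂ) * ∫ a in (0 : ℝ)..(2 * π), ph 0 a * ((X a ^ 2 : ℝ) : ℂ) :=
      Zr_va 2 0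
    have q2 : Zr 2 va X e1 0 = ((1 / D.N : ℝ) : ℂ) * ∑ i ∈ Finset.range D.N, ((A i : ℝ) : ℂ) := by
      rw [← k, ← q1]
      rfl
    rw [q2, Finset.mul_sum]
    refine Finset.sum_congr rfl fun i hi => ?_
    rw [hT.zero i (Finset.mem_range.1 hi)]
    congr 1
    apply Complex.ext <;> simp [Gq.toC]
  · have heven : Even n := by rcases hn with rfl | rfl | rfl | rfl <;> decide
    have h0n : 0 < n := by rcases hn with rfl | rfl | rfl | rfl <;> norm_num
    have h9 : n ≤ 9 := by rcases hn with rfl | rfl | rfl | rfl <;> norm_num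
    have k := AVL.gen_lam hK2 h0n (fun a => by rw [SQD.ph_even heven, hX.anti, neg_sq]) hN
      (r := ru D.N) (fun _ => rfl) rfl (y_mono h9 hE.small) le_rfl
    rw [← Zr_va] at k
    have k2 := mom_err hN (x := A) k htv20 htv2 (fun i hi => hT.pos n h0n h9 i hi) hAb
    have k3 : ((yq D.N n / (8 * D.N) * (1 + 2 * yq D.N n ^ 2) * (2 * D.xm * tvb D M) + D.N * (η n * D.xm ^ 2) : ℚ) : ℝ)
        ≤ e n := by
      exact_mod_cast hE.even n hn
    push_cast at k3
    exact k2.trans k3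

end state

/-! ### Booleans -/

/-- the geometric checks from helper42's and helper88's Booleans -/
theorem geo_of {Z : CZ} (h0 : Z.G.chk0 = true) (hs : Z.G.chkSl = true) (hG : Z.chkG = true) (hC : Z.chkC = true)
    (hN : 1 < Z.G.N) : Geo Z.cd := by
  have hB := NOX.GD.bas h0
  have hC' : ∀ i < Z.G.N, (Z.cd.bU i = true ∨ 2 * Z.cd.xm ≤ Z.cd.hb i) ∧ (Z.cd.bW i = true ∨ 2 * Z.cd.xm ≤ Z.cd.lb i) ∧
      Z.cd.bV i = true := fun i hi => by
    have := CZ.all_range hC hi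
    simp only [Bool.and_eq_true, Bool.or_eq_true, decide_eq_true_eq] at this
    exact ⟨this.1.1.1, this.1.1.2, this.1.2⟩
  exact
    { N1 := hN
      s0 := hB.s0
      s1 := hB.s1
      hxm := hB.xm
      maj := fun i hi hu => CZ.maj_ok hB hs hG hi hu
      mnj := fun i hi hw => CZ.mnj_ok hB hs hG hi hw
      hup := fun i hi => (hC' i hi).1.imp CD.okU_of id
      hlo := fun i hi => (hC' i hi).2.1.imp CD.okW_of id
      var := fun i hi => CD.okV_of (hC' i hi).2.2 }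

/-- the check of the errors -/
def errB (D : CD) (M : ℕ) (η e : ℕ → ℚ) : Bool :=
  Nat.ble M D.N && (((List.range D.N).all fun i => if i < M then D.u i else D.w i) &&
    (decide (yq D.N 9 ≤ 3 / 5) && (([1, 3, 5, 7, 9].all fun n =>
      decide (yq D.N n / (8 * D.N) * (1 + 2 * yq D.N n ^ 2) * tvb D M + D.N * (η n * D.xm) ≤ e n)) &&
      [2, 4, 6, 8].all fun n =>
        decide (yq D.N n / (8 * D.N) * (1 + 2 * yq D.N n ^ 2) * (2 * D.xm * tvb D M) + D.N * (η n * D.xm ^ 2) ≤ e n))))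

theorem err_of {D : CD} {M : ℕ} {η e : ℕ → ℚ} (h : errB D M η e = true) : Err D M η e := by
  simp only [errB, Bool.and_eq_true, Nat.ble_eq, List.all_eq_true, decide_eq_true_eq, List.mem_range] at h
  obtain ⟨h1, h2, h3, h4, h5⟩ := h
  refine ⟨h1, fun i hi => ?_, fun i hi hM => ?_, h3, fun n hn => h4 n (by simpa using hn), fun n hn => h5 n (by simpa using hn)⟩
  · have := h2 i (lt_of_lt_of_le hi h1)
    rwa [if_pos hi] at this
  · have := h2 i hi
    rwa [if_neg (not_lt.2 hM)] at this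

end Pool.Agent.FPX.AVS
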