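import Pool.Agent.FPX.AVS

/-
AVT (helper39): AVS with a parameter `R`: the moments of a state up to the harmonic `R` (odd) from its cell averages.
-/

set_option autoImplicit false

open MeasureTheory Set Filter Topology Real
open scoped NNReal ComplexConjugate

noncomputable section

namespace Pool.Agent.FPX.AVT

open Pool.Agent.FPX.CAV Pool.Agent.FPX.NOD
open Pool.Agent.FPX.ALX (St)
open Pool.Agent.FPX.SQD (ph)
open Pool.Agent.FPX.NOT (Gq)
open Pool.Agent.FPX.BTN (va e1)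
open Pool.Agent.FPX.BRG (vl Zr fr_va)
open Pool.Agent.FPX.AVS hiding Trg Err Avg y_mono avg_of errB err_of

/-- the trigonometric data up to the harmonic `R` -/
structure Trg (R N : ℕ) (a : ℕ → ℕ → Gq) (η : ℕ → ℚ) : Prop where
  zero : ∀ i < N, a 0 i = ⟨1 / N, 0⟩
  pos : ∀ n : ℕ, 1 ≤ n → n ≤ R → ∀ i < N,
    ‖((AVL.lam (n * π / (2 * N)) * (1 / N) : ℝ) : ℂ) * pm n (ru N) i - (a n i).toC‖ ≤ η n

theorem Trg.mono {R R' N : ℕ} {a : ℕ → ℕ → Gq} {η : ℕ → ℚ} (h : Trg R' N a η) (hR : R ≤ R') : Trg R N a η :=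
  ⟨h.zero, fun n h1 h2 => h.pos n h1 (h2.trans hR)⟩

/-- the checks of the errors -/
structure Err (R : ℕ) (D : CD) (M : ℕ) (η e : ℕ → ℚ) : Prop where
  hM : M ≤ D.N
  hu : ∀ i < M, D.u i = true
  hw : ∀ i < D.N, M ≤ i → D.w i = true
  small : yq D.N R ≤ 3 / 5
  odd : ∀ n, 1 ≤ n → n ≤ R → n % 2 = 1 →
    yq D.N n / (8 * D.N) * (1 + 2 * yq D.N n ^ 2) * tvb D M + D.N * (η n * D.xm) ≤ e n
  even : ∀ n, 1 ≤ n → n ≤ R → n % 2 = 0 →
    yq D.N n / (8 * D.N) * (1 + 2 * yq D.N n ^ 2) * (2 * D.xm * tvb D M) + D.N * (η n * D.xm ^ 2) ≤ e n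

/-- a state and its averages -/
structure Avg (R : ℕ) (D : CD) (a : ℕ → ℕ → Gq) (e : ℕ → ℚ) (u Z : ℤ → ℂ) (z A : ℕ → ℝ) : Prop where
  last : z D.N = -z 0
  hi : ∀ i < D.N, z (i + 1) - z i ≤ D.hb i
  lo : ∀ i < D.N, -(D.lb i : ℝ) ≤ z (i + 1) - z i
  bd : ∀ i, |z i| ≤ D.xm
  one : ‖wm D.N a 1 z‖ ≤ e 1
  lin : ∀ n : ℕ, 1 < n → n ≤ R → n % 2 = 1 → ‖u n - wm D.N a n z‖ ≤ e n
  A0 : ∀ i < D.N, z i ^ 2 ≤ A i
  A1 : ∀ i < D.N, A i ≤ z i ^ 2 + D.VB z i
  zero : Z 0 = wm D.N a 0 A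
  quad : ∀ n : ℕ, 1 ≤ n → n ≤ R → n % 2 = 0 → ‖Z n - wm D.N a n A‖ ≤ e n

section state

variable {X : ℝ → ℝ}

theorem y_mono {R N n : ℕ} (hn : n ≤ R) (h : yq N R ≤ 3 / 5) : n * π / (2 * N) ≤ 3 / 5 := by
  have h1 : (yq N n : ℚ) ≤ yq N R := by
    unfold yq
    have : (n : ℚ) ≤ ((R : ℕ) : ℚ) := by exact_mod_cast hn
    gcongr
  have h2 : ((yq N n : ℚ) : ℝ) ≤ ((3 / 5 : ℚ) : ℝ) := by exact_mod_cast h1.trans h
  have h3 : (((3 / 5 : ℚ) : ℝ)) = 3 / 5 := by norm_num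
  rw [h3] at h2
  exact y_le.trans h2

/-- **a state and its averages** -/
theorem avg_of {R : ℕ} (hR : 1 ≤ R) {D : CD} (hG : Geo D) {M : ℕ} {a : ℕ → ℕ → Gq} {η e : ℕ → ℚ}
    (hT : Trg R D.N a η) (hE : Err R D M η e) (hX : St D.s X) (hb : ∀ a, |X a| ≤ 0.62 * (D.s : ℝ)) :
    ∃ z A : ℕ → ℝ, Avg R D a e (vl va X e1) (Zr 2 va X e1) z A := by
  have hN : 0 < D.N := lt_trans one_pos hG.N1
  have hN' : (0 : ℝ) < D.N := by exact_mod_cast hN
  have hO := hG.ok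
  have hX' : St (triv D).s X := hX
  have hb' : ∀ a, |X a| ≤ 0.62 * ((triv D).s : ℝ) := hb
  have hxb : ∀ a, |X a| ≤ (D.xm : ℝ) := CD.Ok.bx hO hb'
  have hx0 : (0 : ℝ) ≤ D.xm := (abs_nonneg _).trans (hxb 0)
  obtain ⟨K, hK⟩ := hX.lip
  obtain ⟨K2, hK2⟩ := AVL.lip_sq hX hxb
  have htv := hG.tv hX hb hE.hM hE.hu hE.hw
  have hle : -(π / 2) ≤ π / 2 := by linarith [pi_pos]
  have htv0 : 0 ≤ ∫ a in (-(π / 2))..(π / 2), |deriv X a| :=
    intervalIntegral.integral_nonneg hle fun _ _ => abs_nonneg _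
  have hadm := CD.Ok.adm hO hX' hb'
  set z : ℕ → ℝ := av X (ru D.N) with hz
  set A : ℕ → ℝ := fun i => ∫ v in (0 : ℝ)..1, X (pt (ru D.N) i v) ^ 2 with hA
  have hzb : ∀ i, |z i| ≤ (D.xm : ℝ) := CD.Ok.av_abs hO hX' hb'
  have hAb : ∀ i, |A i| ≤ (D.xm : ℝ) ^ 2 := CD.Ok.sq_abs hO hX' hb'
  -- linear moments
  have lin : ∀ n : ℕ, 1 ≤ n → n ≤ R → n % 2 = 1 → ‖Zr 1 va X e1 n - wm D.N a n z‖ ≤ (e n : ℝ) := by
    intro n h1n h9 h2n
    have hodd : Odd n := Nat.odd_iff.2 h2n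
    have k := AVL.gen_lam hK hodd.pos (fun a => by rw [SQD.ph_odd hodd, hX.anti]; push_cast; ring) hN
      (r := ru D.N) (fun _ => rfl) rfl (y_mono h9 hE.small) le_rfl
    have e1 : Zr 1 va X e1 n = ((1 / (2 * π) : ℝ) : ℂ) * ∫ a in (0 : ℝ)..(2 * π), ph n a * (X a : ℂ) := by
      rw [Zr_va]
      simp only [pow_one]
    rw [← e1] at k
    have k2 := mom_err hN (x := z) k htv0 htv (fun i hi => hT.pos n h1n h9 i hi) hzb
    have k3 : ((yq D.N n / (8 * D.N) * (1 + 2 * yq D.N n ^ 2) * tvb D M + D.N * (η n * D.xm) : ℚ) : ℝ) ≤ e n := by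
      exact_mod_cast hE.odd n h1n h9 h2n
    push_cast at k3
    exact k2.trans k3
  have htv2 : ∫ a in (-(π / 2))..(π / 2), |deriv (fun a => X a ^ 2) a| ≤ 2 * D.xm * ((tvb D M : ℚ) : ℝ) := by
    have hi : ∀ a b, IntervalIntegrable (fun t => |deriv (fun a => X a ^ 2) t|) volume a b := fun a b =>
      ((hK2.lipschitzOnWith (s := uIcc a b)).absolutelyContinuousOnInterval).intervalIntegrable_deriv.abs
    have hd : ∀ᵐ a, |deriv (fun a => X a ^ 2) a| ≤ 2 * D.xm * |deriv X a| := by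
      filter_upwards [hK.ae_differentiableAt_real] with a ha
      have : deriv (fun a => X a ^ 2) a = 2 * X a * deriv X a := by
        have := (ha.hasDerivAt.fun_pow 2).deriv
        simpa using this
      rw [this, abs_mul, abs_mul, abs_two]
      exact mul_le_mul_of_nonneg_right (by linarith [hxb a]) (abs_nonneg _)
    have k := intervalIntegral.integral_mono_ae hle (hi _ _)
      ((abs_int hX (-(π / 2)) (π / 2)).const_mul (2 * (D.xm : ℝ))) hd
    rw [intervalIntegral.integral_const_mul] at k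
    exact k.trans (mul_le_mul_of_nonneg_left htv (by positivity))
  have htv20 : 0 ≤ ∫ a in (-(π / 2))..(π / 2), |deriv (fun a => X a ^ 2) a| :=
    intervalIntegral.integral_nonneg hle fun _ _ => abs_nonneg _
  refine ⟨z, A, ?_⟩
  refine
    { last := hadm.last
      hi := hadm.hi
      lo := hadm.lo
      bd := hzb
      one := ?_
      lin := fun n h1 h9 h2 => ?_
      A0 := fun i _ => ?_
      A1 := fun i hi => ?_
      zero := ?_
      quad := fun n h1 h9 h2 => ?_ }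
  · have k := lin 1 le_rfl hR rfl
    have k0 := (fr_va hX (fun a => ?_)).z1p
    · have e0 : Zr 1 va X e1 ((1 : ℕ) : ℤ) = 0 := by exact_mod_cast k0
      rw [e0, zero_sub, norm_neg] at k
      exact k
    · have h1 : (D.s : ℝ) ≤ 1 := by exact_mod_cast hG.s1
      have h2 := hb a
      linarith
  · have k := lin n h1.le h9 h2
    have hne : (n : ℤ) ≠ 0 := by
      have : 0 < n := by omega
      exact_mod_cast this.ne'
    have e1 : vl va X e1 (n : ℤ) = Zr 1 va X e1 n := by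
      unfold vl
      rw [if_neg hne]
    rw [e1]
    exact k
  · exact sq_mean (CD.cont_cell hX D.N i)
  · have k := CD.Ok.var_le hO hX' (i := i) hi
    have k' : A i - z i ^ 2 ≤ D.VB z i := k
    linarith
  · have k := AVL.sq_zero hX hxb hN (r := ru D.N) (fun _ => rfl)
    have q1 : Zr 2 va X e1 ((0 : ℕ) : ℤ) = ((1 / (2 * π) : ℝ) : ℂ) * ∫ a in (0 : ℝ)..(2 * π), ph 0 a * ((X a ^ 2 : ℝ) : ℂ) :=
      Zr_va 2 0
    have q2 : Zr 2 va X e1 0 = ((1 / D.N : ℝ) : ℂ) * ∑ i ∈ Finset.range D.N, ((A i : ℝ) : ℂ) := by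
      rw [← k, ← q1]
      rfl
    rw [q2, Finset.mul_sum]
    refine Finset.sum_congr rfl fun i hi => ?_
    rw [hT.zero i (Finset.mem_range.1 hi)]
    congr 1
    apply Complex.ext <;> simp [Gq.toC]
  · have heven : Even n := Nat.even_iff.2 h2
    have k := AVL.gen_lam hK2 (m := n) (by omega) (fun a => by rw [SQD.ph_even heven, hX.anti, neg_sq]) hN
      (r := ru D.N) (fun _ => rfl) rfl (y_mono h9 hE.small) le_rfl
    rw [← Zr_va] at k
    have k2 := mom_err hN (x := A) k htv20 htv2 (fun i hi => hT.pos n h1 h9 i hi) hAb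
    have k3 : ((yq D.N n / (8 * D.N) * (1 + 2 * yq D.N n ^ 2) * (2 * D.xm * tvb D M) + D.N * (η n * D.xm ^ 2) : ℚ) : ℝ)
        ≤ e n := by
      exact_mod_cast hE.even n h1 h9 h2
    push_cast at k3
    exact k2.trans k3

end state

/-- the check of the errors -/
def errB (R : ℕ) (D : CD) (M : ℕ) (η e : ℕ → ℚ) : Bool :=
  Nat.ble M D.N && (((List.range D.N).all fun i => if i < M then D.u i else D.w i) &&
    (decide (yq D.N R ≤ 3 / 5) && ((List.range R).all fun k =>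
      if k % 2 = 0 then
        decide (yq D.N (k + 1) / (8 * D.N) * (1 + 2 * yq D.N (k + 1) ^ 2) * tvb D M + D.N * (η (k + 1) * D.xm) ≤ e (k + 1))
      else
        decide (yq D.N (k + 1) / (8 * D.N) * (1 + 2 * yq D.N (k + 1) ^ 2) * (2 * D.xm * tvb D M)
          + D.N * (η (k + 1) * D.xm ^ 2) ≤ e (k + 1)))))

theorem err_of {R : ℕ} {D : CD} {M : ℕ} {η e : ℕ → ℚ} (h : errB R D M η e = true) : Err R D M η e := by
  simp only [errB, Bool.and_eq_true, Nat.ble_eq, List.all_eq_true, decide_eq_true_eq, List.mem_range] at h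
  obtain ⟨h1, h2, h3, h4⟩ := h
  refine ⟨h1, fun i hi => ?_, fun i hi hM => ?_, h3, fun n h5 h6 h7 => ?_, fun n h5 h6 h7 => ?_⟩
  · have := h2 i (lt_of_lt_of_le hi h1)
    rwa [if_pos hi] at this
  · have := h2 i hi
    rwa [if_neg (not_lt.2 hM)] at this
  · obtain ⟨k, rfl⟩ : ∃ k, n = k + 1 := ⟨n - 1, by omega⟩
    have := h4 k (by omega)
    rw [if_pos (by omega : k % 2 = 0), decide_eq_true_eq] at this
    exact this
  · obtain ⟨k, rfl⟩ : ∃ k, n = k + 1 := ⟨n - 1, by omega⟩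
    have := h4 k (by omega)
    rw [if_neg (by omega : ¬ k % 2 = 0), decide_eq_true_eq] at this
    exact this

end Pool.Agent.FPX.AVT
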