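import Mathlib

/-! Scalar step for the ring member (AZR, STEP 5). -/

namespace Pool.Agent.FPX.AZS

/-- mean of the fourth power of the anticonformal part -/
noncomputable def E4 (X U T : ℝ) : ℝ :=
  145/81*X^2 + 94/81*U^2 + 35/648*T^2 + 220/81*(X*U) + 47/81*(X*T) + 40/81*(U*T)

/-- mean of sin^2 cos^2 times the square of the anticonformal part -/
noncomputable def E2 (X U T : ℝ) : ℝ := 5/72*X + U/18 + 5/288*T

theorem E4_nonneg (X U T : ℝ) : 0 ≤ E4 X U T := by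
  unfold E4
  nlinarith [sq_nonneg (X + 22/29*U + 47/290*T), sq_nonneg (U + 1/5*T), sq_nonneg T, sq_nonneg U]

theorem E2_nonneg {X U T : ℝ} (hX : 0 ≤ X) (hT : 0 ≤ T) (hU : U^2 ≤ X*T) : 0 ≤ E2 X U T := by
  unfold E2
  have h1 : |U| ≤ X + T/4 := by
    apply abs_le_of_sq_le_sq _ (by positivity)
    nlinarith [sq_nonneg (X - T/4), mul_nonneg hX hT]
  have h2 := (abs_le.1 h1).1
  linarith

theorem box1a {X U c : ℝ} (hX0 : 0 ≤ X) (hX : X ≤ (3/100)) (hc : c^2 ≤ (21/50))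
    (hU : U^2 ≤ X*(1-c^2)) :
    0 ≤ (3/2 + 8/5*(1-c))*X + U + (43/50) - 3/4*(1-c^2) - 2/3*c^2
      - 21/10*(4/5)^2*E4 X U (1-c^2) - 32/9*(4/5)^2*c^2*E2 X U (1-c^2) := by
  have q0 : 0 ≤ c^2 * ((21/50) - c^2) := mul_nonneg (sq_nonneg c) (by linarith)
  have Ha : 0 ≤ (15394/3375)*((3/2 + 8/5*(1-c))*0 + (43/50) - 3/4*(1-c^2) - 2/3*c^2 - (168/125)*(145/81*0^2 + 35/648*(1-c^2)^2 + 47/81*(0*(1-c^2))) - (512/225)*c^2*(5/72*0 + 5/288*(1-c^2)) - (27/10)*(0*(1-c^2))) - ((1 - (448/675)*(1-c^2) - (256/2025)*c^2) - (2464/675)*0)^2 := by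
    nlinarith [q0, sq_nonneg c, sq_nonneg (c - 0)]
  have Hb : 0 ≤ (15394/3375)*((3/2 + 8/5*(1-c))*(3/100) + (43/50) - 3/4*(1-c^2) - 2/3*c^2 - (168/125)*(145/81*(3/100)^2 + 35/648*(1-c^2)^2 + 47/81*((3/100)*(1-c^2))) - (512/225)*c^2*(5/72*(3/100) + 5/288*(1-c^2)) - (27/10)*((3/100)*(1-c^2))) - ((1 - (448/675)*(1-c^2) - (256/2025)*c^2) - (2464/675)*(3/100))^2 := by
    nlinarith [q0, sq_nonneg c, sq_nonneg (c - (123/1000))]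
  have H : 0 ≤ (15394/3375)*((3/2 + 8/5*(1-c))*X + (43/50) - 3/4*(1-c^2) - 2/3*c^2 - (168/125)*(145/81*X^2 + 35/648*(1-c^2)^2 + 47/81*(X*(1-c^2))) - (512/225)*c^2*(5/72*X + 5/288*(1-c^2)) - (27/10)*(X*(1-c^2))) - ((1 - (448/675)*(1-c^2) - (256/2025)*c^2) - (2464/675)*X)^2 := by
    have e1 := mul_nonneg (sub_nonneg.2 hX) Ha
    have e2 := mul_nonneg (sub_nonneg.2 hX0) Hb
    have e3 := mul_nonneg (mul_nonneg (sub_nonneg.2 hX0) (sub_nonneg.2 hX)) (by norm_num : (0:ℝ) ≤ (1537676/2109375))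
    have e4 : (3/100) * ((15394/3375)*((3/2 + 8/5*(1-c))*X + (43/50) - 3/4*(1-c^2) - 2/3*c^2 - (168/125)*(145/81*X^2 + 35/648*(1-c^2)^2 + 47/81*(X*(1-c^2))) - (512/225)*c^2*(5/72*X + 5/288*(1-c^2)) - (27/10)*(X*(1-c^2))) - ((1 - (448/675)*(1-c^2) - (256/2025)*c^2) - (2464/675)*X)^2) = ((3/100) - X) * ((15394/3375)*((3/2 + 8/5*(1-c))*0 + (43/50) - 3/4*(1-c^2) - 2/3*c^2 - (168/125)*(145/81*0^2 + 35/648*(1-c^2)^2 + 47/81*(0*(1-c^2))) - (512/225)*c^2*(5/72*0 + 5/288*(1-c^2)) - (27/10)*(0*(1-c^2))) - ((1 - (448/675)*(1-c^2) - (256/2025)*c^2) - (2464/675)*0)^2) + (X - 0) * ((15394/3375)*((3/2 + 8/5*(1-c))*(3/100) + (43/50) - 3/4*(1-c^2) - 2/3*c^2 - (168/125)*(145/81*(3/100)^2 + 35/648*(1-c^2)^2 + 47/81*((3/100)*(1-c^2))) - (512/225)*c^2*(5/72*(3/100) + 5/288*(1-c^2)) - (27/10)*((3/100)*(1-c^2))) - ((1 - (448/675)*(1-c^2) - (256/2025)*c^2)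 - (2464/675)*(3/100))^2) + (X - 0) * ((3/100) - X) * (1537676/2109375) := by ring
    nlinarith [e1, e2, e3, e4]
  unfold E4 E2
  nlinarith [H, sq_nonneg ((7697/3375)*U + (1 - (448/675)*(1-c^2) - (256/2025)*c^2) - (2464/675)*X), hU]

theorem box1b {X U c : ℝ} (hX0 : (1/50) ≤ X) (hX : X ≤ (1/10)) (hc : c^2 ≤ (21/50))
    (hU : U^2 ≤ X*(1-c^2)) :
    0 ≤ (3/2 + 8/5*(1-c))*X + U + (43/50) - 3/4*(1-c^2) - 2/3*c^2
      - 21/10*(4/5)^2*E4 X U (1-c^2) - 32/9*(4/5)^2*c^2*E2 X U (1-c^2) := by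
  have q0 : 0 ≤ c^2 * ((21/50) - c^2) := mul_nonneg (sq_nonneg c) (by linarith)
  have Ha : 0 ≤ (8644/3375)*((3/2 + 8/5*(1-c))*(1/50) + (43/50) - 3/4*(1-c^2) - 2/3*c^2 - (168/125)*(145/81*(1/50)^2 + 35/648*(1-c^2)^2 + 47/81*((1/50)*(1-c^2))) - (512/225)*c^2*(5/72*(1/50) + 5/288*(1-c^2)) - (11/5)*((1/50)*(1-c^2))) - ((1 - (448/675)*(1-c^2) - (256/2025)*c^2) - (2464/675)*(1/50))^2 := by
    nlinarith [q0, sq_nonneg c, sq_nonneg (c - (217/1000))]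
  have Hb : 0 ≤ (8644/3375)*((3/2 + 8/5*(1-c))*(1/10) + (43/50) - 3/4*(1-c^2) - 2/3*c^2 - (168/125)*(145/81*(1/10)^2 + 35/648*(1-c^2)^2 + 47/81*((1/10)*(1-c^2))) - (512/225)*c^2*(5/72*(1/10) + 5/288*(1-c^2)) - (11/5)*((1/10)*(1-c^2))) - ((1 - (448/675)*(1-c^2) - (256/2025)*c^2) - (2464/675)*(1/10))^2 := by
    nlinarith [q0, sq_nonneg c, sq_nonneg (c - (19/100))]
  have H : 0 ≤ (8644/3375)*((3/2 + 8/5*(1-c))*X + (43/50) - 3/4*(1-c^2) - 2/3*c^2 - (168/125)*(145/81*X^2 + 35/648*(1-c^2)^2 + 47/81*(X*(1-c^2))) - (512/225)*c^2*(5/72*X + 5/288*(1-c^2)) - (11/5)*(X*(1-c^2))) - ((1 - (448/675)*(1-c^2) - (256/2025)*c^2) - (2464/675)*X)^2 := by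
    have e1 := mul_nonneg (sub_nonneg.2 hX) Ha
    have e2 := mul_nonneg (sub_nonneg.2 hX0) Hb
    have e3 := mul_nonneg (mul_nonneg (sub_nonneg.2 hX0) (sub_nonneg.2 hX)) (by norm_num : (0:ℝ) ≤ (9865408/6328125))
    have e4 : (2/25) * ((8644/3375)*((3/2 + 8/5*(1-c))*X + (43/50) - 3/4*(1-c^2) - 2/3*c^2 - (168/125)*(145/81*X^2 + 35/648*(1-c^2)^2 + 47/81*(X*(1-c^2))) - (512/225)*c^2*(5/72*X + 5/288*(1-c^2)) - (11/5)*(X*(1-c^2))) - ((1 - (448/675)*(1-c^2) - (256/2025)*c^2) - (2464/675)*X)^2) = ((1/10) - X) * ((8644/3375)*((3/2 + 8/5*(1-c))*(1/50) + (43/50) - 3/4*(1-c^2) - 2/3*c^2 - (168/125)*(145/81*(1/50)^2 + 35/648*(1-c^2)^2 + 47/81*((1/50)*(1-c^2))) - (512/225)*c^2*(5/72*(1/50) + 5/288*(1-c^2)) - (11/5)*((1/50)*(1-c^2))) - ((1 - (448/675)*(1-c^2) - (256/2025)*c^2) - (2464/675)*(1/50))^2) + (X - (1/50)) * ((8644/3375)*((3/2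 + 8/5*(1-c))*(1/10) + (43/50) - 3/4*(1-c^2) - 2/3*c^2 - (168/125)*(145/81*(1/10)^2 + 35/648*(1-c^2)^2 + 47/81*((1/10)*(1-c^2))) - (512/225)*c^2*(5/72*(1/10) + 5/288*(1-c^2)) - (11/5)*((1/10)*(1-c^2))) - ((1 - (448/675)*(1-c^2) - (256/2025)*c^2) - (2464/675)*(1/10))^2) + (X - (1/50)) * ((1/10) - X) * (9865408/6328125) := by ring
    nlinarith [e1, e2, e3, e4]
  unfold E4 E2
  nlinarith [H, sq_nonneg ((4322/3375)*U + (1 - (448/675)*(1-c^2) - (256/2025)*c^2) - (2464/675)*X), hU]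

theorem box2a {X U c : ℝ} (hX0 : 0 ≤ X) (hX : X ≤ (3/100)) (hc : c^2 ≤ (3/10))
    (hU : U^2 ≤ X*(1-c^2)) :
    0 ≤ (3/2 + 8/5*(1-c))*X + U + (9/10) - 3/4*(1-c^2) - 2/3*c^2
      - 21/10*(9/10)^2*E4 X U (1-c^2) - 32/9*(9/10)^2*c^2*E2 X U (1-c^2) := by
  have q0 : 0 ≤ c^2 * ((3/10) - c^2) := mul_nonneg (sq_nonneg c) (by linarith)
  have Ha : 0 ≤ (363/125)*((3/2 + 8/5*(1-c))*0 + (9/10) - 3/4*(1-c^2) - 2/3*c^2 - (1701/1000)*(145/81*0^2 + 35/648*(1-c^2)^2 + 47/81*(0*(1-c^2))) - (72/25)*c^2*(5/72*0 + 5/288*(1-c^2)) - (27/10)*(0*(1-c^2))) - ((1 - (21/25)*(1-c^2) - (4/25)*c^2) - (231/50)*0)^2 := by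
    nlinarith [q0, sq_nonneg c, sq_nonneg (c - 0)]
  have Hb : 0 ≤ (363/125)*((3/2 + 8/5*(1-c))*(3/100) + (9/10) - 3/4*(1-c^2) - 2/3*c^2 - (1701/1000)*(145/81*(3/100)^2 + 35/648*(1-c^2)^2 + 47/81*((3/100)*(1-c^2))) - (72/25)*c^2*(5/72*(3/100) + 5/288*(1-c^2)) - (27/10)*((3/100)*(1-c^2))) - ((1 - (21/25)*(1-c^2) - (4/25)*c^2) - (231/50)*(3/100))^2 := by
    nlinarith [q0, sq_nonneg c, sq_nonneg (c - (19/200))]
  have H : 0 ≤ (363/125)*((3/2 + 8/5*(1-c))*X + (9/10) - 3/4*(1-c^2) - 2/3*c^2 - (1701/1000)*(145/81*X^2 + 35/648*(1-c^2)^2 + 47/81*(X*(1-c^2))) - (72/25)*c^2*(5/72*X + 5/288*(1-c^2)) - (27/10)*(X*(1-c^2))) - ((1 - (21/25)*(1-c^2) - (4/25)*c^2) - (231/50)*X)^2 := by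
    have e1 := mul_nonneg (sub_nonneg.2 hX) Ha
    have e2 := mul_nonneg (sub_nonneg.2 hX0) Hb
    have e3 := mul_nonneg (mul_nonneg (sub_nonneg.2 hX0) (sub_nonneg.2 hX)) (by norm_num : (0:ℝ) ≤ (2264031/2500000))
    have e4 : (3/100) * ((363/125)*((3/2 + 8/5*(1-c))*X + (9/10) - 3/4*(1-c^2) - 2/3*c^2 - (1701/1000)*(145/81*X^2 + 35/648*(1-c^2)^2 + 47/81*(X*(1-c^2))) - (72/25)*c^2*(5/72*X + 5/288*(1-c^2)) - (27/10)*(X*(1-c^2))) - ((1 - (21/25)*(1-c^2) - (4/25)*c^2) - (231/50)*X)^2) = ((3/100) - X) * ((363/125)*((3/2 + 8/5*(1-c))*0 + (9/10) - 3/4*(1-c^2) - 2/3*c^2 - (1701/1000)*(145/81*0^2 + 35/648*(1-c^2)^2 + 47/81*(0*(1-c^2))) - (72/25)*c^2*(5/72*0 + 5/288*(1-c^2)) - (27/10)*(0*(1-c^2))) - ((1 - (21/25)*(1-c^2) - (4/25)*c^2) - (231/50)*0)^2) + (X - 0) * ((363/125)*((3/2 + 8/5*(1-c))*(3/100) + (9/10) - 3/4*(1-c^2) - 2/3*c^2 -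 (1701/1000)*(145/81*(3/100)^2 + 35/648*(1-c^2)^2 + 47/81*((3/100)*(1-c^2))) - (72/25)*c^2*(5/72*(3/100) + 5/288*(1-c^2)) - (27/10)*((3/100)*(1-c^2))) - ((1 - (21/25)*(1-c^2) - (4/25)*c^2) - (231/50)*(3/100))^2) + (X - 0) * ((3/100) - X) * (2264031/2500000) := by ring
    nlinarith [e1, e2, e3, e4]
  unfold E4 E2
  nlinarith [H, sq_nonneg ((363/250)*U + (1 - (21/25)*(1-c^2) - (4/25)*c^2) - (231/50)*X), hU]

theorem box2b {X U c : ℝ} (hX0 : (1/50) ≤ X) (hX : X ≤ (69/1000)) (hc : c^2 ≤ (3/10))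
    (hU : U^2 ≤ X*(1-c^2)) :
    0 ≤ (3/2 + 8/5*(1-c))*X + U + (9/10) - 3/4*(1-c^2) - 2/3*c^2
      - 21/10*(9/10)^2*E4 X U (1-c^2) - 32/9*(9/10)^2*c^2*E2 X U (1-c^2) := by
  have q0 : 0 ≤ c^2 * ((3/10) - c^2) := mul_nonneg (sq_nonneg c) (by linarith)
  have Ha : 0 ≤ (163/125)*((3/2 + 8/5*(1-c))*(1/50) + (9/10) - 3/4*(1-c^2) - 2/3*c^2 - (1701/1000)*(145/81*(1/50)^2 + 35/648*(1-c^2)^2 + 47/81*((1/50)*(1-c^2))) - (72/25)*c^2*(5/72*(1/50) + 5/288*(1-c^2)) - (23/10)*((1/50)*(1-c^2))) - ((1 - (21/25)*(1-c^2) - (4/25)*c^2) - (231/50)*(1/50))^2 := by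
    nlinarith [q0, sq_nonneg c, sq_nonneg (c - (179/1000))]
  have Hb : 0 ≤ (163/125)*((3/2 + 8/5*(1-c))*(69/1000) + (9/10) - 3/4*(1-c^2) - 2/3*c^2 - (1701/1000)*(145/81*(69/1000)^2 + 35/648*(1-c^2)^2 + 47/81*((69/1000)*(1-c^2))) - (72/25)*c^2*(5/72*(69/1000) + 5/288*(1-c^2)) - (23/10)*((69/1000)*(1-c^2))) - ((1 - (21/25)*(1-c^2) - (4/25)*c^2) - (231/50)*(69/1000))^2 := by
    nlinarith [q0, sq_nonneg c, sq_nonneg (c - (29/250))]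
  have H : 0 ≤ (163/125)*((3/2 + 8/5*(1-c))*X + (9/10) - 3/4*(1-c^2) - 2/3*c^2 - (1701/1000)*(145/81*X^2 + 35/648*(1-c^2)^2 + 47/81*(X*(1-c^2))) - (72/25)*c^2*(5/72*X + 5/288*(1-c^2)) - (23/10)*(X*(1-c^2))) - ((1 - (21/25)*(1-c^2) - (4/25)*c^2) - (231/50)*X)^2 := by
    have e1 := mul_nonneg (sub_nonneg.2 hX) Ha
    have e2 := mul_nonneg (sub_nonneg.2 hX0) Hb
    have e3 := mul_nonneg (mul_nonneg (sub_nonneg.2 hX0) (sub_nonneg.2 hX)) (by norm_num : (0:ℝ) ≤ (31010973/25000000))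
    have e4 : (49/1000) * ((163/125)*((3/2 + 8/5*(1-c))*X + (9/10) - 3/4*(1-c^2) - 2/3*c^2 - (1701/1000)*(145/81*X^2 + 35/648*(1-c^2)^2 + 47/81*(X*(1-c^2))) - (72/25)*c^2*(5/72*X + 5/288*(1-c^2)) - (23/10)*(X*(1-c^2))) - ((1 - (21/25)*(1-c^2) - (4/25)*c^2) - (231/50)*X)^2) = ((69/1000) - X) * ((163/125)*((3/2 + 8/5*(1-c))*(1/50) + (9/10) - 3/4*(1-c^2) - 2/3*c^2 - (1701/1000)*(145/81*(1/50)^2 + 35/648*(1-c^2)^2 + 47/81*((1/50)*(1-c^2))) - (72/25)*c^2*(5/72*(1/50) + 5/288*(1-c^2)) - (23/10)*((1/50)*(1-c^2))) - ((1 - (21/25)*(1-c^2) - (4/25)*c^2) - (231/50)*(1/50))^2) + (X - (1/50)) * ((163/125)*((3/2 + 8/5*(1-c))*(69/1000) + (9/10) - 3/4*(1-c^2) - 2/3*c^2 - (1701/1000)*(145/81*(69/1000)^2 + 35/648*(1-c^2)^2 + 47/81*((69/1000)*(1-c^2))) - (72/25)*c^2*(5/72*(69/1000) + 5/288*(1-c^2)) - (23/10)*((69/1000)*(1-c^2))) - ((1 - (21/25)*(1-c^2)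 - (4/25)*c^2) - (231/50)*(69/1000))^2) + (X - (1/50)) * ((69/1000) - X) * (31010973/25000000) := by ring
    nlinarith [e1, e2, e3, e4]
  unfold E4 E2
  nlinarith [H, sq_nonneg ((163/250)*U + (1 - (21/25)*(1-c^2) - (4/25)*c^2) - (231/50)*X), hU]

theorem box3a {X U c : ℝ} (hX0 : 0 ≤ X) (hX : X ≤ (33/1000)) (hc : c^2 ≤ (3/20))
    (hU : U^2 ≤ X*(1-c^2)) :
    0 ≤ (3/2 + 8/5*(1-c))*X + U + (19/20) - 3/4*(1-c^2) - 2/3*c^2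
      - 21/10*1^2*E4 X U (1-c^2) - 32/9*1^2*c^2*E2 X U (1-c^2) := by
  have q0 : 0 ≤ c^2 * ((3/20) - c^2) := mul_nonneg (sq_nonneg c) (by linarith)
  have Ha : 0 ≤ (142/135)*((3/2 + 8/5*(1-c))*0 + (19/20) - 3/4*(1-c^2) - 2/3*c^2 - (21/10)*(145/81*0^2 + 35/648*(1-c^2)^2 + 47/81*(0*(1-c^2))) - (32/9)*c^2*(5/72*0 + 5/288*(1-c^2)) - (27/10)*(0*(1-c^2))) - ((1 - (28/27)*(1-c^2) - (16/81)*c^2) - (154/27)*0)^2 := by
    nlinarith [q0, sq_nonneg c, sq_nonneg (c - 0)]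
  have Hb : 0 ≤ (142/135)*((3/2 + 8/5*(1-c))*(33/1000) + (19/20) - 3/4*(1-c^2) - 2/3*c^2 - (21/10)*(145/81*(33/1000)^2 + 35/648*(1-c^2)^2 + 47/81*((33/1000)*(1-c^2))) - (32/9)*c^2*(5/72*(33/1000) + 5/288*(1-c^2)) - (27/10)*((33/1000)*(1-c^2))) - ((1 - (28/27)*(1-c^2) - (16/81)*c^2) - (154/27)*(33/1000))^2 := by
    nlinarith [q0, sq_nonneg c, sq_nonneg (c - (43/1000))]
  have H : 0 ≤ (142/135)*((3/2 + 8/5*(1-c))*X + (19/20) - 3/4*(1-c^2) - 2/3*c^2 - (21/10)*(145/81*X^2 + 35/648*(1-c^2)^2 + 47/81*(X*(1-c^2))) - (32/9)*c^2*(5/72*X + 5/288*(1-c^2)) - (27/10)*(X*(1-c^2))) - ((1 - (28/27)*(1-c^2) - (16/81)*c^2) - (154/27)*X)^2 := by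
    have e1 := mul_nonneg (sub_nonneg.2 hX) Ha
    have e2 := mul_nonneg (sub_nonneg.2 hX0) Hb
    have e3 := mul_nonneg (mul_nonneg (sub_nonneg.2 hX0) (sub_nonneg.2 hX)) (by norm_num : (0:ℝ) ≤ (162547/135000))
    have e4 : (33/1000) * ((142/135)*((3/2 + 8/5*(1-c))*X + (19/20) - 3/4*(1-c^2) - 2/3*c^2 - (21/10)*(145/81*X^2 + 35/648*(1-c^2)^2 + 47/81*(X*(1-c^2))) - (32/9)*c^2*(5/72*X + 5/288*(1-c^2)) - (27/10)*(X*(1-c^2))) - ((1 - (28/27)*(1-c^2) - (16/81)*c^2) - (154/27)*X)^2) = ((33/1000) - X) * ((142/135)*((3/2 + 8/5*(1-c))*0 + (19/20) - 3/4*(1-c^2) - 2/3*c^2 - (21/10)*(145/81*0^2 + 35/648*(1-c^2)^2 + 47/81*(0*(1-c^2))) - (32/9)*c^2*(5/72*0 + 5/288*(1-c^2)) - (27/10)*(0*(1-c^2))) - ((1 - (28/27)*(1-c^2) - (16/81)*c^2) - (154/27)*0)^2) + (X - 0) * ((142/135)*((3/2 + 8/5*(1-c))*(33/1000) + (19/20) - 3/4*(1-c^2) - 2/3*c^2 -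 (21/10)*(145/81*(33/1000)^2 + 35/648*(1-c^2)^2 + 47/81*((33/1000)*(1-c^2))) - (32/9)*c^2*(5/72*(33/1000) + 5/288*(1-c^2)) - (27/10)*((33/1000)*(1-c^2))) - ((1 - (28/27)*(1-c^2) - (16/81)*c^2) - (154/27)*(33/1000))^2) + (X - 0) * ((33/1000) - X) * (162547/135000) := by ring
    nlinarith [e1, e2, e3, e4]
  unfold E4 E2
  nlinarith [H, sq_nonneg ((71/135)*U + (1 - (28/27)*(1-c^2) - (16/81)*c^2) - (154/27)*X), hU]

/-- the lower bound (I) minus the quartic terms, normalised by y = 1 -/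
noncomputable def PI (y0 b0 X U c : ℝ) : ℝ :=
  (3/2 + 8/5*(1-c))*X + U + b0 - 3/4*(1-c^2) - 2/3*c^2
      - 21/10*y0^2*E4 X U (1-c^2) - 32/9*y0^2*c^2*E2 X U (1-c^2)

/-- a pair (y0, b0) is admissible -/
def Good (y0 b0 : ℝ) : Prop := ∀ X U c : ℝ, 0 ≤ X → U^2 ≤ X*(1-c^2) → c^2 ≤ 1 →
  8/5*(1-c)*X + b0 - (1-c^2) - 2/3*c^2 < 0 → 0 ≤ PI y0 b0 X U c

theorem c_le {c : ℝ} (h : c^2 ≤ 1) : 0 ≤ 1 - c := by
  have := (abs_le.1 ((sq_le_one_iff_abs_le_one c).1 h)).2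
  linarith

theorem good1 : Good (4/5) (43/50) := by
  intro X U c hX hU hc h
  have hc1 := c_le hc
  have h0 : 0 ≤ 8/5*(1-c)*X := by positivity
  have hcc : c^2 ≤ 21/50 := by linarith
  have hXm : X ≤ 1/10 := by
    by_contra hx
    have hx' : 1/10 ≤ X := (not_le.1 hx).le
    nlinarith [mul_le_mul_of_nonneg_left hx' hc1, sq_nonneg (c - 6/25)]
  unfold PI
  rcases le_total X (3/100) with h1 | h1
  · exact box1a hX h1 hcc hU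
  · exact box1b (by linarith) hXm hcc hU

theorem good2 : Good (9/10) (9/10) := by
  intro X U c hX hU hc h
  have hc1 := c_le hc
  have h0 : 0 ≤ 8/5*(1-c)*X := by positivity
  have hcc : c^2 ≤ 3/10 := by linarith
  have hXm : X ≤ 69/1000 := by
    by_contra hx
    have hx' : 69/1000 ≤ X := (not_le.1 hx).le
    nlinarith [mul_le_mul_of_nonneg_left hx' hc1, sq_nonneg (c - 83/500)]
  unfold PI
  rcases le_total X (3/100) with h1 | h1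
  · exact box2a hX h1 hcc hU
  · exact box2b (by linarith) hXm hcc hU

theorem good3 : Good 1 (19/20) := by
  intro X U c hX hU hc h
  have hc1 := c_le hc
  have h0 : 0 ≤ 8/5*(1-c)*X := by positivity
  have hcc : c^2 ≤ 3/20 := by linarith
  have hXm : X ≤ 33/1000 := by
    by_contra hx
    have hx' : 33/1000 ≤ X := (not_le.1 hx).le
    nlinarith [mul_le_mul_of_nonneg_left hx' hc1, sq_nonneg (c - 79/1000)]
  unfold PI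
  exact box3a hX hXm hcc hU

/-- STEP 5: Q = |q|^2, V = <q, f>, C = -<v, e>, S^2 = 1 - C^2. -/
theorem step5 {y0 b0 : ℝ} (hg : Good y0 b0) {ρ y Q V C : ℝ} (hρ : 1/5 ≤ ρ) (hy0 : 0 ≤ y)
    (hy : y ≤ y0) (hC : C^2 ≤ 1) (hQ : 0 ≤ Q) (hV : V^2 ≤ Q*(1-C^2)) :
    0 ≤ 8*ρ*(1-C)*Q + y^2*(b0 - (1-C^2) - 2/3*C^2) ∨
    21/10*E4 Q (y*V) (y^2*(1-C^2)) + 32/9*y^2*C^2*E2 Q (y*V) (y^2*(1-C^2))
      ≤ (3/2 + 8*ρ*(1-C))*Q + y*V + y^2*(b0 - 3/4*(1-C^2) - 2/3*C^2) := by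
  have hc1 := c_le hC
  have hT : 0 ≤ 1 - C^2 := by linarith
  have hmon : 8/5*(1-C)*Q ≤ 8*ρ*(1-C)*Q := by
    have : 0 ≤ (ρ - 1/5) * ((1-C)*Q) := mul_nonneg (by linarith) (mul_nonneg hc1 hQ)
    nlinarith
  rcases eq_or_lt_of_le hy0 with h0 | h0
  · left
    have : 0 ≤ 8/5*(1-C)*Q := by positivity
    rw [← h0]; nlinarith
  · have hyne : y ≠ 0 := h0.ne'
    obtain ⟨X, hXd⟩ : ∃ X, X = Q / y^2 := ⟨_, rfl⟩
    obtain ⟨U, hUd⟩ : ∃ U, U = V / y := ⟨_, rfl⟩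
    have hQX : Q = y^2 * X := by rw [hXd]; field_simp
    have hVU : V = y * U := by rw [hUd]; field_simp
    have hX : 0 ≤ X := by rw [hXd]; positivity
    have hy2 : 0 < y^2 := by positivity
    have hU : U^2 ≤ X*(1-C^2) := by
      have h1 : y^2 * U^2 ≤ y^2 * (X*(1-C^2)) := by
        have := hV; rw [hQX, hVU] at this; nlinarith
      exact le_of_mul_le_mul_left h1 hy2
    rcases lt_or_ge (8/5*(1-C)*X + b0 - (1-C^2) - 2/3*C^2) 0 with h | h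
    · right
      have key := hg X U C hX hU hC h
      unfold PI at key
      have e4 := E4_nonneg X U (1-C^2)
      have e2 := E2_nonneg hX hT hU
      have hyy : y^2 ≤ y0^2 := by nlinarith
      have r4 : E4 Q (y*V) (y^2*(1-C^2)) = y^2*(y^2*E4 X U (1-C^2)) := by
        rw [hQX, hVU]; unfold E4; ring
      have r2 : E2 Q (y*V) (y^2*(1-C^2)) = y^2*E2 X U (1-C^2) := by
        rw [hQX, hVU]; unfold E2; ring
      have s4 : y^2*(y^2*E4 X U (1-C^2)) ≤ y^2*(y0^2*E4 X U (1-C^2)) :=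
        mul_le_mul_of_nonneg_left (mul_le_mul_of_nonneg_right hyy e4) hy2.le
      have s2 : y^2*C^2*(y^2*E2 X U (1-C^2)) ≤ y^2*(y0^2*C^2*E2 X U (1-C^2)) := by
        have : 0 ≤ (y0^2 - y^2)*(y^2*(C^2*E2 X U (1-C^2))) :=
          mul_nonneg (by linarith) (mul_nonneg hy2.le (mul_nonneg (sq_nonneg C) e2))
        nlinarith
      have k2 := mul_nonneg hy2.le key
      rw [r4, r2]
      have hq : y*V = y^2*U := by rw [hVU]; ring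
      have h5 : 8/5*(1-C)*Q = y^2*(8/5*(1-C)*X) := by rw [hQX]; ring
      have h6 : 3/2*Q = y^2*(3/2*X) := by rw [hQX]; ring
      rw [hq]
      nlinarith [k2, s4, s2, hmon, h5, h6]
    · left
      have h5 : 8/5*(1-C)*Q = y^2*(8/5*(1-C)*X) := by rw [hQX]; ring
      have := mul_nonneg hy2.le h
      nlinarith [hmon, h5, this]

end Pool.Agent.FPX.AZS
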