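import Mathlib
import Pool.Agent.FPX.Defs
import Pool.Agent.FPX.SPH
import Pool.Agent.FPX.VEC
import Pool.Agent.FPX.MOM
import Pool.Agent.FPX.INT
import Pool.Agent.FPX.EXD
import Pool.Agent.FPX.QLW
import Pool.Agent.FPX.ANG

/-
FPX, LCF (helper69): the closed form of helper57 for the exact dual inequality. In polar angles
`(12/π) E|T_p|` is `6` times the mean of `|a0 + a1 ζ + a2 ζ²|`, and the bound
`16 x ≤ 5 + 15 x² - 5 x⁴ + x⁶` with Parseval gives an explicit estimate.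
-/

open MeasureTheory Set Filter Topology
open scoped ENNReal NNReal

noncomputable section

namespace Pool.Agent.FPX

open Pool.Agent.EWD

/-! ### the polynomial bound -/

theorem p3_le {r τ : ℝ} (hr : 0 ≤ r) (hτ : 0 < τ) :
    r ≤ τ * (5 / 16 + 15 / 16 * (r ^ 2 / τ ^ 2) - 5 / 16 * (r ^ 4 / τ ^ 4) + 1 / 16 * (r ^ 6 / τ ^ 6)) := by
  set x := r / τ with hx
  have hx0 : 0 ≤ x := by positivity
  have h1 : 0 ≤ (x - 1) ^ 4 * (x ^ 2 + 4 * x + 5) := by positivity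
  have h2 : (x - 1) ^ 4 * (x ^ 2 + 4 * x + 5) = x ^ 6 - 5 * x ^ 4 + 15 * x ^ 2 - 16 * x + 5 := by
    ring
  have h3 : r = τ * x := by
    rw [hx]
    field_simp
  have e2 : r ^ 2 / τ ^ 2 = x ^ 2 := by rw [hx, div_pow]
  have e4 : r ^ 4 / τ ^ 4 = x ^ 4 := by rw [hx, div_pow]
  have e6 : r ^ 6 / τ ^ 6 = x ^ 6 := by rw [hx, div_pow]
  rw [e2, e4, e6]
  calc r = τ * x := h3
    _ ≤ _ := mul_le_mul_of_nonneg_left (by linarith) hτ.le

/-! ### trigonometric polynomials in the azimuth -/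

/-- `a + b ζ + c ζ²` at `ζ = exp (i β)` -/
def zz (a b c : ℂ) (β : ℝ) : ℂ :=
  a + b * Complex.exp (β * Complex.I) + c * Complex.exp (β * Complex.I) ^ 2

theorem zz_cont (a b c : ℂ) : Continuous (zz a b c) := by
  unfold zz
  fun_prop

private def cf1 (a b c : ℂ) (k : ℕ) : ℂ := if k = 0 then a else if k = 1 then b else c

private def cf2 (a b c : ℂ) (k : ℕ) : ℂ :=
  if k = 0 then a ^ 2 else if k = 1 then 2 * (a * b) else if k = 2 then 2 * (a * c) + b ^ 2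
  else if k = 3 then 2 * (b * c) else c ^ 2

private def cf3 (a b c : ℂ) (k : ℕ) : ℂ :=
  if k = 0 then a ^ 3 else if k = 1 then 3 * (a ^ 2 * b) else if k = 2 then 3 * (a * (a * c + b ^ 2))
  else if k = 3 then b * (6 * (a * c) + b ^ 2) else if k = 4 then 3 * (c * (a * c + b ^ 2))
  else if k = 5 then 3 * (b * c ^ 2) else c ^ 3

private theorem exp_nat (k : ℕ) (β : ℝ) :
    Complex.exp ((k : ℂ) * β * Complex.I) = Complex.exp (β * Complex.I) ^ k := by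
  rw [← Complex.exp_nat_mul]
  congr 1
  ring

theorem par1 (a b c : ℂ) : ∫ β in (-Real.pi)..Real.pi, ‖zz a b c β‖ ^ 2 =
    2 * Real.pi * (‖a‖ ^ 2 + ‖b‖ ^ 2 + ‖c‖ ^ 2) := by
  have h := parseval 3 (cf1 a b c)
  simp only [exp_nat] at h
  have e1 : ∀ β : ℝ, ∑ k ∈ Finset.range 3, cf1 a b c k * Complex.exp (β * Complex.I) ^ k =
      zz a b c β := by
    intro β
    simp only [Finset.sum_range_succ, Finset.sum_range_zero, cf1, zz]
    norm_num
  simp only [e1] at h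
  rw [h]
  simp only [Finset.sum_range_succ, Finset.sum_range_zero, cf1]
  norm_num

theorem par2 (a b c : ℂ) : ∫ β in (-Real.pi)..Real.pi, ‖zz a b c β‖ ^ 4 =
    2 * Real.pi * (‖a‖ ^ 4 + 4 * (‖a‖ ^ 2 * ‖b‖ ^ 2) + ‖2 * (a * c) + b ^ 2‖ ^ 2
      + 4 * (‖b‖ ^ 2 * ‖c‖ ^ 2) + ‖c‖ ^ 4) := by
  have h := parseval 5 (cf2 a b c)
  simp only [exp_nat] at h
  have e1 : ∀ β : ℝ, ∑ k ∈ Finset.range 5, cf2 a b c k * Complex.exp (β * Complex.I) ^ k =
      zz a b c β ^ 2 := by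
    intro β
    simp only [Finset.sum_range_succ, Finset.sum_range_zero, cf2, zz]
    norm_num
    ring
  have e2 : ∀ β : ℝ, ‖zz a b c β ^ 2‖ ^ 2 = ‖zz a b c β‖ ^ 4 := by
    intro β
    rw [norm_pow]
    ring
  simp only [e1, e2] at h
  rw [h]
  simp only [Finset.sum_range_succ, Finset.sum_range_zero, cf2]
  norm_num
  ring

theorem par3 (a b c : ℂ) : ∫ β in (-Real.pi)..Real.pi, ‖zz a b c β‖ ^ 6 =
    2 * Real.pi * (‖a‖ ^ 6 + 9 * (‖a‖ ^ 4 * ‖b‖ ^ 2) + 9 * (‖a‖ ^ 2 * ‖a * c + b ^ 2‖ ^ 2)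
      + ‖b‖ ^ 2 * ‖6 * (a * c) + b ^ 2‖ ^ 2 + 9 * (‖c‖ ^ 2 * ‖a * c + b ^ 2‖ ^ 2)
      + 9 * (‖b‖ ^ 2 * ‖c‖ ^ 4) + ‖c‖ ^ 6) := by
  have h := parseval 7 (cf3 a b c)
  simp only [exp_nat] at h
  have e1 : ∀ β : ℝ, ∑ k ∈ Finset.range 7, cf3 a b c k * Complex.exp (β * Complex.I) ^ k =
      zz a b c β ^ 3 := by
    intro β
    simp only [Finset.sum_range_succ, Finset.sum_range_zero, cf3, zz]
    norm_num
    ring
  have e2 : ∀ β : ℝ, ‖zz a b c β ^ 3‖ ^ 2 = ‖zz a b c β‖ ^ 6 := by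
    intro β
    rw [norm_pow]
    ring
  simp only [e1, e2] at h
  rw [h]
  simp only [Finset.sum_range_succ, Finset.sum_range_zero, cf3]
  norm_num
  ring

private theorem nsq_add (z w : ℂ) (k : ℝ) : ‖(k : ℂ) * z + w‖ ^ 2 =
    k ^ 2 * ‖z‖ ^ 2 + ‖w‖ ^ 2 + 2 * k * (z * (starRingEnd ℂ) w).re := by
  rw [← Complex.normSq_eq_norm_sq, ← Complex.normSq_eq_norm_sq, ← Complex.normSq_eq_norm_sq,
    Complex.normSq_add, Complex.normSq_mul, Complex.normSq_ofReal]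
  have : ((k : ℂ) * z * (starRingEnd ℂ) w).re = k * (z * (starRingEnd ℂ) w).re := by
    rw [mul_assoc, Complex.re_ofReal_mul]
  rw [this]
  ring

/-! ### the average over the polar angle -/

private theorem cosm (k : ℕ) : ∫ t in (0 : ℝ)..Real.pi, Real.cos (2 * t) ^ (k + 2) =
    ((k : ℝ) + 1) / (k + 2) * ∫ t in (0 : ℝ)..Real.pi, Real.cos (2 * t) ^ k := by
  have h : ∀ j : ℕ, ∫ t in (0 : ℝ)..Real.pi, Real.cos (2 * t) ^ j =
      (1 / 2 : ℝ) * ∫ x in (0 : ℝ)..(2 * Real.pi), Real.cos x ^ j := by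
    intro j
    have := intervalIntegral.integral_comp_mul_left (a := 0) (b := Real.pi)
      (fun x => Real.cos x ^ j) (two_ne_zero' ℝ)
    rw [this]
    simp
  rw [h, h, integral_cos_pow]
  simp
  ring

theorem cosm0 : ∫ t in (0 : ℝ)..Real.pi, Real.cos (2 * t) ^ 0 = Real.pi := by
  simp

theorem cosm1 : ∫ t in (0 : ℝ)..Real.pi, Real.cos (2 * t) ^ 1 = 0 := by
  have := intervalIntegral.integral_comp_mul_left (a := 0) (b := Real.pi)
      (fun x => Real.cos x) (two_ne_zero' ℝ)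
  simp only [pow_one]
  rw [this]
  simp

theorem cosm2 : ∫ t in (0 : ℝ)..Real.pi, Real.cos (2 * t) ^ 2 = Real.pi / 2 := by
  rw [cosm 0, cosm0]
  norm_num
  ring

theorem cosm3 : ∫ t in (0 : ℝ)..Real.pi, Real.cos (2 * t) ^ 3 = 0 := by
  rw [cosm 1, cosm1, mul_zero]

theorem cosm4 : ∫ t in (0 : ℝ)..Real.pi, Real.cos (2 * t) ^ 4 = 3 * Real.pi / 8 := by
  rw [cosm 2, cosm2]
  norm_num
  ring

theorem cosm5 : ∫ t in (0 : ℝ)..Real.pi, Real.cos (2 * t) ^ 5 = 0 := by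
  rw [cosm 3, cosm3, mul_zero]

theorem cosm6 : ∫ t in (0 : ℝ)..Real.pi, Real.cos (2 * t) ^ 6 = 5 * Real.pi / 16 := by
  rw [cosm 4, cosm4]
  norm_num
  ring

/-- integral of a polynomial of degree six in `cos 2t` -/
theorem int_cpoly (c0 c1 c2 c3 c4 c5 c6 : ℝ) : ∫ t in (0 : ℝ)..Real.pi,
    (c0 + c1 * Real.cos (2 * t) + c2 * Real.cos (2 * t) ^ 2 + c3 * Real.cos (2 * t) ^ 3
      + c4 * Real.cos (2 * t) ^ 4 + c5 * Real.cos (2 * t) ^ 5 + c6 * Real.cos (2 * t) ^ 6) =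
    Real.pi * (c0 + c2 / 2 + 3 * c4 / 8 + 5 * c6 / 16) := by
  have hi : ∀ (c : ℝ) (k : ℕ), IntervalIntegrable (fun t : ℝ => c * Real.cos (2 * t) ^ k) volume 0
      Real.pi := fun c k => Continuous.intervalIntegrable (by fun_prop) _ _
  have e : ∀ t : ℝ, c0 + c1 * Real.cos (2 * t) + c2 * Real.cos (2 * t) ^ 2 +
      c3 * Real.cos (2 * t) ^ 3 + c4 * Real.cos (2 * t) ^ 4 + c5 * Real.cos (2 * t) ^ 5
      + c6 * Real.cos (2 * t) ^ 6 = ∑ k ∈ Finset.range 7, (fun k : ℕ => if k = 0 then c0 else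
        if k = 1 then c1 else if k = 2 then c2 else if k = 3 then c3 else if k = 4 then c4 else
        if k = 5 then c5 else c6) k * Real.cos (2 * t) ^ k := by
    intro t
    simp only [Finset.sum_range_succ, Finset.sum_range_zero]
    norm_num
  simp_rw [e]
  rw [intervalIntegral.integral_finsetSum (fun k _ => hi _ k)]
  simp only [intervalIntegral.integral_const_mul, Finset.sum_range_succ, Finset.sum_range_zero]
  rw [cosm0, cosm1, cosm2, cosm3, cosm4, cosm5, cosm6]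
  norm_num
  ring

/-! ### the angular form of `L1` -/

private def e3v : E3 := !₂[0, 0, 1]

private theorem in_e3 (p : E3) : inner ℝ e3v p = p 2 := by
  rw [inner3]
  simp [e3v]

/-- the three coefficients -/
def ca0 (n0 n1 k0 k1 m0 m1 l0 l1 t : ℝ) : ℂ :=
  ⟨((n0 - Real.sin t ^ 2 * k0) - (m1 - Real.sin t ^ 2 * l1)) / 2,
    ((n1 - Real.sin t ^ 2 * k1) + (m0 - Real.sin t ^ 2 * l0)) / 2⟩

def ca1 (k2 l2 t : ℝ) : ℂ := ⟨-(Real.sin t * Real.cos t * k2), -(Real.sin t * Real.cos t * l2)⟩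

def ca2 (n0 n1 k0 k1 m0 m1 l0 l1 t : ℝ) : ℂ :=
  ⟨((n0 - Real.sin t ^ 2 * k0) + (m1 - Real.sin t ^ 2 * l1)) / 2,
    ((m0 - Real.sin t ^ 2 * l0) - (n1 - Real.sin t ^ 2 * k1)) / 2⟩

private theorem norm_zz (X X' : ℝ) (a b c : ℂ) (β : ℝ)
    (h : ((X : ℂ) + X' * Complex.I) = a * (Real.cos β - Real.sin β * Complex.I) + b +
      c * (Real.cos β + Real.sin β * Complex.I)) : ‖zz a b c β‖ = √(X ^ 2 + X' ^ 2) := by
  have he : Complex.exp (β * Complex.I) = Real.cos β + Real.sin β * Complex.I := by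
    rw [Complex.exp_mul_I, Complex.ofReal_cos, Complex.ofReal_sin]
  have hcs : ((Real.cos β : ℝ) : ℂ) ^ 2 + ((Real.sin β : ℝ) : ℂ) ^ 2 = 1 := by
    have := Real.cos_sq_add_sin_sq β
    exact_mod_cast this
  have h1 : zz a b c β = Complex.exp (β * Complex.I) * ((X : ℂ) + X' * Complex.I) := by
    unfold zz
    rw [h, he]
    linear_combination (-a) * hcs + (a * (Real.sin β : ℂ) ^ 2) * Complex.I_sq
  rw [h1, norm_mul, Complex.norm_exp_ofReal_mul_I, one_mul, Complex.norm_add_mul_I]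

private theorem zz_id (n0 n1 k0 k1 k2 m0 m1 l0 l1 l2 s c cb sb : ℝ) :
    ((((n0 - s ^ 2 * k0) * cb + (n1 - s ^ 2 * k1) * sb - s * c * k2 : ℝ) : ℂ) +
      (((m0 - s ^ 2 * l0) * cb + (m1 - s ^ 2 * l1) * sb - s * c * l2 : ℝ) : ℂ) * Complex.I) =
    (⟨((n0 - s ^ 2 * k0) - (m1 - s ^ 2 * l1)) / 2, ((n1 - s ^ 2 * k1) + (m0 - s ^ 2 * l0)) / 2⟩ : ℂ)
      * ((cb : ℂ) - (sb : ℂ) * Complex.I) + ⟨-(s * c * k2), -(s * c * l2)⟩ +
    (⟨((n0 - s ^ 2 * k0) + (m1 - s ^ 2 * l1)) / 2, ((m0 - s ^ 2 * l0) - (n1 - s ^ 2 * k1)) / 2⟩ : ℂ)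
      * ((cb : ℂ) + (sb : ℂ) * Complex.I) := by
  apply Complex.ext
  · simp only [Complex.add_re, Complex.mul_re, Complex.sub_re, Complex.ofReal_re, Complex.ofReal_im,
      Complex.I_re, Complex.I_im, Complex.add_im, Complex.mul_im, Complex.sub_im]
    ring
  · simp only [Complex.add_re, Complex.mul_re, Complex.sub_re, Complex.ofReal_re, Complex.ofReal_im,
      Complex.I_re, Complex.I_im, Complex.add_im, Complex.mul_im, Complex.sub_im]
    ring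

private theorem L1_e3 {N N' K K' : E3} (hN : N 2 = 0) (hN' : N' 2 = 0) :
    4 * Real.pi * L1 e3v N N' K K' = ∫ t in (0 : ℝ)..Real.pi, ∫ β in (-Real.pi)..Real.pi,
      ‖zz (ca0 (N 0) (N 1) (K 0) (K 1) (N' 0) (N' 1) (K' 0) (K' 1) t) (ca1 (K 2) (K' 2) t)
        (ca2 (N 0) (N 1) (K 0) (K 1) (N' 0) (N' 1) (K' 0) (K' 1) t) β‖ := by
  unfold L1
  refine int_ang (Tn_meas _ _ _ _ _) (Tn_nonneg _ _ _ _ _) ?_ ?_
  · unfold zz ca0 ca1 ca2
    have hmk : ∀ f g : ℝ × ℝ → ℝ, Continuous f → Continuous g →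
        Continuous (fun q => (⟨f q, g q⟩ : ℂ)) := by
      intro f g hf hg
      have : (fun q => (⟨f q, g q⟩ : ℂ)) = fun q => (f q : ℂ) + (g q : ℂ) * Complex.I := by
        funext q
        exact Complex.mk_eq_add_mul_I _ _
      rw [this]
      fun_prop
    refine continuous_norm.comp ?_
    refine Continuous.add (Continuous.add ?_ (Continuous.mul ?_ (by fun_prop)))
      (Continuous.mul ?_ (by fun_prop))
    · exact hmk _ _ (by fun_prop) (by fun_prop)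
    · exact hmk _ _ (by fun_prop) (by fun_prop)
    · exact hmk _ _ (by fun_prop) (by fun_prop)
  · intro t ht β
    have hs : 0 < Real.sin t := Real.sin_pos_of_pos_of_lt_pi ht.1 ht.2
    have h1 : sq2 e3v (ap t β) = Real.sin t ^ 2 := by
      unfold sq2
      rw [in_e3, ap2]
      have := Real.sin_sq_add_cos_sq t
      linarith
    set X : ℝ := (N 0 - Real.sin t ^ 2 * K 0) * Real.cos β + (N 1 - Real.sin t ^ 2 * K 1) * Real.sin β
      - Real.sin t * Real.cos t * K 2 with hX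
    set X' : ℝ := (N' 0 - Real.sin t ^ 2 * K' 0) * Real.cos β
      + (N' 1 - Real.sin t ^ 2 * K' 1) * Real.sin β - Real.sin t * Real.cos t * K' 2 with hX'
    rw [norm_zz X X']
    · unfold Tn
      rw [h1, inner3, inner3, inner3, inner3, ap0, ap1, ap2, hN, hN']
      have e1 : X ^ 2 + X' ^ 2 = Real.sin t ^ 2 *
          (((Real.sin t * Real.cos β * N 0 + Real.sin t * Real.sin β * N 1 + Real.cos t * 0) /
            Real.sin t ^ 2 - (Real.sin t * Real.cos β * K 0 + Real.sin t * Real.sin β * K 1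
              + Real.cos t * K 2)) ^ 2 +
          ((Real.sin t * Real.cos β * N' 0 + Real.sin t * Real.sin β * N' 1 + Real.cos t * 0) /
            Real.sin t ^ 2 - (Real.sin t * Real.cos β * K' 0 + Real.sin t * Real.sin β * K' 1
              + Real.cos t * K' 2)) ^ 2) := by
        rw [hX, hX']
        field_simp
        ring
      rw [e1, Real.sqrt_mul (by positivity), Real.sqrt_sq hs.le]
    · exact zz_id _ _ _ _ _ _ _ _ _ _ _ _ _ _

private theorem tn_rot (R : E3 ≃ₗᵢ[ℝ] E3) (v N N' K K' p : E3) :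
    Tn (R v) (R N) (R N') (R K) (R K') (R p) = Tn v N N' K K' p := by
  unfold Tn sq2
  simp only [R.inner_map_map]

/-- `(12/π) L1` as the mean of `|a0 + a1 ζ + a2 ζ²|` over two angles -/
theorem L1_ang {m n v N N' K K' : E3} (h : Frm m n v) (hN : inner ℝ v N = (0 : ℝ))
    (hN' : inner ℝ v N' = (0 : ℝ)) :
    4 * Real.pi * L1 v N N' K K' = ∫ t in (0 : ℝ)..Real.pi, ∫ β in (-Real.pi)..Real.pi,
      ‖zz (ca0 (inner ℝ m N) (inner ℝ n N) (inner ℝ m K) (inner ℝ n K) (inner ℝ m N') (inner ℝ n N')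
          (inner ℝ m K') (inner ℝ n K') t) (ca1 (inner ℝ v K) (inner ℝ v K') t)
        (ca2 (inner ℝ m N) (inner ℝ n N) (inner ℝ m K) (inner ℝ n K) (inner ℝ m N') (inner ℝ n N')
          (inner ℝ m K') (inner ℝ n K') t) β‖ := by
  obtain ⟨R, hR⟩ := h.iso
  have hv : R v = e3v := by
    ext i
    fin_cases i
    · exact (hR v).1.trans h.mv
    · exact (hR v).2.1.trans h.nv
    · exact (hR v).2.2.trans (inner_self_one h.v1)
  have e1 : L1 v N N' K K' = L1 e3v (R N) (R N') (R K) (R K') := by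
    unfold L1
    rw [← hv]
    exact (integral_congr_ae (Eventually.of_forall fun p => (tn_rot R v N N' K K' p).symm)).trans
      ((mp_rot R).integral_comp R.toHomeomorph.measurableEmbedding
        (fun q => Tn (R v) (R N) (R N') (R K) (R K') q))
  rw [e1, L1_e3 ((hR N).2.2.trans hN) ((hR N').2.2.trans hN')]
  simp only [(hR _).1, (hR _).2.1, (hR _).2.2]

/-! ### the moments of the pattern `a0`, `sin 2t · w`, `(c0 + c1 cos 2t) · y`: `P = ‖a0‖²`, `W = ‖w‖²`,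
`Y = ‖y‖²`, `x = Re (a0 y conj w²)` -/

def M1 (P W Y c0 c1 : ℝ) : ℝ :=
  P + (1/2) * W + Y * c0 ^ 2 + (1/2) * Y * c1 ^ 2

def M2 (P W Y x c0 c1 : ℝ) : ℝ :=
  P ^ 2 + 2 * P * W + 4 * P * Y * c0 ^ 2 + 2 * P * Y * c1 ^ 2 + (3/8) * W ^ 2 + 2 * W * Y * c0
    ^ 2 + (1/2) * W * Y * c1 ^ 2 + Y ^ 2 * c0 ^ 4 + 3 * Y ^ 2 * c0 ^ 2 * c1 ^ 2 + (3/8) * Y ^ 2
    * c1 ^ 4 + 2 * x * c0

def M3 (P W Y x c0 c1 : ℝ) : ℝ :=
  P ^ 3 + (9/2) * P ^ 2 * W + 9 * P ^ 2 * Y * c0 ^ 2 + (9/2) * P ^ 2 * Y * c1 ^ 2 + (27/8) * P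
    * W ^ 2 + 18 * P * W * Y * c0 ^ 2 + (9/2) * P * W * Y * c1 ^ 2 + 9 * P * Y ^ 2 * c0 ^ 4 + 27
    * P * Y ^ 2 * c0 ^ 2 * c1 ^ 2 + (27/8) * P * Y ^ 2 * c1 ^ 4 + 9 * P * x * c0 + (5/16) * W ^
    3 + (27/8) * W ^ 2 * Y * c0 ^ 2 + (9/16) * W ^ 2 * Y * c1 ^ 2 + (9/2) * W * Y ^ 2 * c0 ^ 4 +
    (27/4) * W * Y ^ 2 * c0 ^ 2 * c1 ^ 2 + (9/16) * W * Y ^ 2 * c1 ^ 4 + (9/2) * W * x * c0 + Y
    ^ 3 * c0 ^ 6 + (15/2) * Y ^ 3 * c0 ^ 4 * c1 ^ 2 + (45/8) * Y ^ 3 * c0 ^ 2 * c1 ^ 4 + (5/16)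
    * Y ^ 3 * c1 ^ 6 + 9 * Y * x * c0 ^ 3 + (27/4) * Y * x * c0 * c1 ^ 2

/-- the Parseval sum as a function of the polar angle -/
def PS1 (P W Y c0 c1 t : ℝ) : ℝ :=
  P + W * (1 - Real.cos (2 * t) ^ 2) + Y * (c0 + c1 * Real.cos (2 * t)) ^ 2

theorem PS1_int (P W Y c0 c1 : ℝ) :
    ∫ t in (0 : ℝ)..Real.pi, PS1 P W Y c0 c1 t = Real.pi * M1 P W Y c0 c1 := by
  have h := int_cpoly (P + W + Y * c0 ^ 2)
    (2 * Y * c0 * c1)
    (- W + Y * c1 ^ 2)
    (0)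
    (0)
    (0)
    (0)
  refine (intervalIntegral.integral_congr fun t _ => ?_).trans (h.trans ?_)
  · show PS1 P W Y c0 c1 t = _
    unfold PS1
    ring
  · unfold M1
    ring

/-- the Parseval sum as a function of the polar angle -/
def PS2 (P W Y x c0 c1 t : ℝ) : ℝ :=
  P ^ 2 + 4 * (P * (W * (1 - Real.cos (2 * t) ^ 2))) +
      (4 * (P * (Y * (c0 + c1 * Real.cos (2 * t)) ^ 2)) + W ^ 2 * (1 - Real.cos (2 * t) ^ 2) ^ 2 +
        4 * (x * (c0 + c1 * Real.cos (2 * t)) * (1 - Real.cos (2 * t) ^ 2))) +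
      4 * (W * (1 - Real.cos (2 * t) ^ 2) * (Y * (c0 + c1 * Real.cos (2 * t)) ^ 2)) +
      Y ^ 2 * (c0 + c1 * Real.cos (2 * t)) ^ 4

theorem PS2_int (P W Y x c0 c1 : ℝ) :
    ∫ t in (0 : ℝ)..Real.pi, PS2 P W Y x c0 c1 t = Real.pi * M2 P W Y x c0 c1 := by
  have h := int_cpoly (P ^ 2 + 4 * P * W + 4 * P * Y * c0 ^ 2 + W ^ 2 + 4 * W * Y * c0 ^ 2 + Y ^ 2 * c0 ^ 4 + 4 * x
      * c0)
    (8 * P * Y * c0 * c1 + 8 * W * Y * c0 * c1 + 4 * Y ^ 2 * c0 ^ 3 * c1 + 4 * x * c1)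
    (- 4 * P * W + 4 * P * Y * c1 ^ 2 - 2 * W ^ 2 - 4 * W * Y * c0 ^ 2 + 4 * W * Y * c1 ^ 2 + 6 *
      Y ^ 2 * c0 ^ 2 * c1 ^ 2 - 4 * x * c0)
    (- 8 * W * Y * c0 * c1 + 4 * Y ^ 2 * c0 * c1 ^ 3 - 4 * x * c1)
    (W ^ 2 - 4 * W * Y * c1 ^ 2 + Y ^ 2 * c1 ^ 4)
    (0)
    (0)
  refine (intervalIntegral.integral_congr fun t _ => ?_).trans (h.trans ?_)
  · show PS2 P W Y x c0 c1 t = _
    unfold PS2
    ring
  · unfold M2
    ring

/-- the Parseval sum as a function of the polar angle -/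
def PS3 (P W Y x c0 c1 t : ℝ) : ℝ :=
  P ^ 3 + 9 * (P ^ 2 * (W * (1 - Real.cos (2 * t) ^ 2))) +
      9 * (P * (P * (Y * (c0 + c1 * Real.cos (2 * t)) ^ 2) + W ^ 2 * (1 - Real.cos (2 * t) ^ 2) ^ 2 +
        2 * (x * (c0 + c1 * Real.cos (2 * t)) * (1 - Real.cos (2 * t) ^ 2)))) +
      W * (1 - Real.cos (2 * t) ^ 2) * (36 * (P * (Y * (c0 + c1 * Real.cos (2 * t)) ^ 2)) +
        W ^ 2 * (1 - Real.cos (2 * t) ^ 2) ^ 2 +
        12 * (x * (c0 + c1 * Real.cos (2 * t)) * (1 - Real.cos (2 * t) ^ 2))) +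
      9 * (Y * (c0 + c1 * Real.cos (2 * t)) ^ 2 * (P * (Y * (c0 + c1 * Real.cos (2 * t)) ^ 2) +
        W ^ 2 * (1 - Real.cos (2 * t) ^ 2) ^ 2 +
        2 * (x * (c0 + c1 * Real.cos (2 * t)) * (1 - Real.cos (2 * t) ^ 2)))) +
      9 * (W * (1 - Real.cos (2 * t) ^ 2) * (Y ^ 2 * (c0 + c1 * Real.cos (2 * t)) ^ 4)) +
      Y ^ 3 * (c0 + c1 * Real.cos (2 * t)) ^ 6

theorem PS3_int (P W Y x c0 c1 : ℝ) :
    ∫ t in (0 : ℝ)..Real.pi, PS3 P W Y x c0 c1 t = Real.pi * M3 P W Y x c0 c1 := by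
  have h := int_cpoly (P ^ 3 + 9 * P ^ 2 * W + 9 * P ^ 2 * Y * c0 ^ 2 + 9 * P * W ^ 2 + 36 * P * W * Y * c0 ^ 2 + 9
      * P * Y ^ 2 * c0 ^ 4 + 18 * P * x * c0 + W ^ 3 + 9 * W ^ 2 * Y * c0 ^ 2 + 9 * W * Y ^ 2 * c0
      ^ 4 + 12 * W * x * c0 + Y ^ 3 * c0 ^ 6 + 18 * Y * x * c0 ^ 3)
    (18 * P ^ 2 * Y * c0 * c1 + 72 * P * W * Y * c0 * c1 + 36 * P * Y ^ 2 * c0 ^ 3 * c1 + 18 * P
      * x * c1 + 18 * W ^ 2 * Y * c0 * c1 + 36 * W * Y ^ 2 * c0 ^ 3 * c1 + 12 * W * x * c1 + 6 * Y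
      ^ 3 * c0 ^ 5 * c1 + 54 * Y * x * c0 ^ 2 * c1)
    (- 9 * P ^ 2 * W + 9 * P ^ 2 * Y * c1 ^ 2 - 18 * P * W ^ 2 - 36 * P * W * Y * c0 ^ 2 + 36 * P
      * W * Y * c1 ^ 2 + 54 * P * Y ^ 2 * c0 ^ 2 * c1 ^ 2 - 18 * P * x * c0 - 3 * W ^ 3 - 18 * W ^
      2 * Y * c0 ^ 2 + 9 * W ^ 2 * Y * c1 ^ 2 - 9 * W * Y ^ 2 * c0 ^ 4 + 54 * W * Y ^ 2 * c0 ^ 2 *
      c1 ^ 2 - 24 * W * x * c0 + 15 * Y ^ 3 * c0 ^ 4 * c1 ^ 2 - 18 * Y * x * c0 ^ 3 + 54 * Y * x *
      c0 * c1 ^ 2)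
    (- 72 * P * W * Y * c0 * c1 + 36 * P * Y ^ 2 * c0 * c1 ^ 3 - 18 * P * x * c1 - 36 * W ^ 2 * Y
      * c0 * c1 - 36 * W * Y ^ 2 * c0 ^ 3 * c1 + 36 * W * Y ^ 2 * c0 * c1 ^ 3 - 24 * W * x * c1 +
      20 * Y ^ 3 * c0 ^ 3 * c1 ^ 3 - 54 * Y * x * c0 ^ 2 * c1 + 18 * Y * x * c1 ^ 3)
    (9 * P * W ^ 2 - 36 * P * W * Y * c1 ^ 2 + 9 * P * Y ^ 2 * c1 ^ 4 + 3 * W ^ 3 + 9 * W ^ 2 * Y
      * c0 ^ 2 - 18 * W ^ 2 * Y * c1 ^ 2 - 54 * W * Y ^ 2 * c0 ^ 2 * c1 ^ 2 + 9 * W * Y ^ 2 * c1 ^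
      4 + 12 * W * x * c0 + 15 * Y ^ 3 * c0 ^ 2 * c1 ^ 4 - 54 * Y * x * c0 * c1 ^ 2)
    (18 * W ^ 2 * Y * c0 * c1 - 36 * W * Y ^ 2 * c0 * c1 ^ 3 + 12 * W * x * c1 + 6 * Y ^ 3 * c0 *
      c1 ^ 5 - 18 * Y * x * c1 ^ 3)
    (- W ^ 3 + 9 * W ^ 2 * Y * c1 ^ 2 - 9 * W * Y ^ 2 * c1 ^ 4 + Y ^ 3 * c1 ^ 6)
  refine (intervalIntegral.integral_congr fun t _ => ?_).trans (h.trans ?_)
  · show PS3 P W Y x c0 c1 t = _
    unfold PS3
    ring
  · unfold M3
    ring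

/-! ### the bound of the double integral -/

private theorem sin2_sq (t : ℝ) : Real.sin (2 * t) ^ 2 = 1 - Real.cos (2 * t) ^ 2 := by
  have := Real.sin_sq_add_cos_sq (2 * t)
  linarith

/-- the bound by the polynomial of degree three, integrated over both angles -/
theorem zz_p3 (a w y : ℂ) (c0 c1 : ℝ) {τ : ℝ} (hτ : 0 < τ) :
    ∫ t in (0 : ℝ)..Real.pi, ∫ β in (-Real.pi)..Real.pi,
      ‖zz a (((Real.sin (2 * t) : ℝ) : ℂ) * w) (((c0 + c1 * Real.cos (2 * t) : ℝ) : ℂ) * y) β‖ ≤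
    2 * Real.pi ^ 2 * (τ * (5 / 16
      + 15 / 16 * (M1 (‖a‖ ^ 2) (‖w‖ ^ 2) (‖y‖ ^ 2) c0 c1 / τ ^ 2)
      - 5 / 16 * (M2 (‖a‖ ^ 2) (‖w‖ ^ 2) (‖y‖ ^ 2) ((a * y * (starRingEnd ℂ) (w ^ 2)).re) c0 c1 / τ ^ 4)
      + 1 / 16 * (M3 (‖a‖ ^ 2) (‖w‖ ^ 2) (‖y‖ ^ 2) ((a * y * (starRingEnd ℂ) (w ^ 2)).re) c0 c1
        / τ ^ 6))) := by
  have hpi := Real.pi_pos
  set P := ‖a‖ ^ 2 with hP
  set W := ‖w‖ ^ 2 with hW
  set Y := ‖y‖ ^ 2 with hY
  set x := (a * y * (starRingEnd ℂ) (w ^ 2)).re with hx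
  set b : ℝ → ℂ := fun t => ((Real.sin (2 * t) : ℝ) : ℂ) * w with hb
  set c : ℝ → ℂ := fun t => ((c0 + c1 * Real.cos (2 * t) : ℝ) : ℂ) * y with hc
  have nb : ∀ t, ‖b t‖ ^ 2 = W * (1 - Real.cos (2 * t) ^ 2) := by
    intro t
    rw [hb]
    simp only
    rw [norm_mul, Complex.norm_real, mul_pow, Real.norm_eq_abs, sq_abs, sin2_sq]
    ring
  have nc : ∀ t, ‖c t‖ ^ 2 = Y * (c0 + c1 * Real.cos (2 * t)) ^ 2 := by
    intro t
    rw [hc]
    simp only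
    rw [norm_mul, Complex.norm_real, mul_pow, Real.norm_eq_abs, sq_abs]
    ring
  have nx : ∀ t, (a * c t * (starRingEnd ℂ) (b t ^ 2)).re =
      x * (c0 + c1 * Real.cos (2 * t)) * (1 - Real.cos (2 * t) ^ 2) := by
    intro t
    have e : a * c t * (starRingEnd ℂ) (b t ^ 2) =
        (((c0 + c1 * Real.cos (2 * t)) * Real.sin (2 * t) ^ 2 : ℝ) : ℂ) *
          (a * y * (starRingEnd ℂ) (w ^ 2)) := by
      rw [hb, hc]
      simp only
      rw [mul_pow, map_mul, ← Complex.ofReal_pow, Complex.conj_ofReal]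
      push_cast
      ring
    rw [e, Complex.re_ofReal_mul, sin2_sq, ← hx]
    ring
  have nk : ∀ (k : ℝ) (t : ℝ), ‖(k : ℂ) * (a * c t) + b t ^ 2‖ ^ 2 = k ^ 2 * (P * (Y *
      (c0 + c1 * Real.cos (2 * t)) ^ 2)) + W ^ 2 * (1 - Real.cos (2 * t) ^ 2) ^ 2 +
      2 * k * (x * (c0 + c1 * Real.cos (2 * t)) * (1 - Real.cos (2 * t) ^ 2)) := by
    intro k t
    rw [nsq_add, nx, norm_mul, mul_pow, nc, ← hP]
    have : ‖b t ^ 2‖ ^ 2 = (‖b t‖ ^ 2) ^ 2 := by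
      rw [norm_pow]
    rw [this, nb]
    ring
  have q1 : ∀ t, ∫ β in (-Real.pi)..Real.pi, ‖zz a (b t) (c t) β‖ ^ 2 =
      2 * Real.pi * PS1 P W Y c0 c1 t := by
    intro t
    rw [par1, nb, nc]
    rfl
  have q2 : ∀ t, ∫ β in (-Real.pi)..Real.pi, ‖zz a (b t) (c t) β‖ ^ 4 =
      2 * Real.pi * PS2 P W Y x c0 c1 t := by
    intro t
    have h1 := nk 2 t
    rw [Complex.ofReal_ofNat] at h1
    rw [par2, h1]
    have h4 : ‖a‖ ^ 4 = P ^ 2 := by rw [hP]; ring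
    have h5 : ‖c t‖ ^ 4 = (‖c t‖ ^ 2) ^ 2 := by ring
    rw [h4, h5, nb, nc]
    unfold PS2
    ring
  have q3 : ∀ t, ∫ β in (-Real.pi)..Real.pi, ‖zz a (b t) (c t) β‖ ^ 6 =
      2 * Real.pi * PS3 P W Y x c0 c1 t := by
    intro t
    have h1 := nk 1 t
    have h6 := nk 6 t
    rw [Complex.ofReal_ofNat] at h6
    rw [Complex.ofReal_one, one_mul] at h1
    rw [par3, h1, h6]
    have h4 : ‖a‖ ^ 4 = P ^ 2 := by rw [hP]; ring
    have h4' : ‖a‖ ^ 6 = P ^ 3 := by rw [hP]; ring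
    have h5 : ‖c t‖ ^ 4 = (‖c t‖ ^ 2) ^ 2 := by ring
    have h7 : ‖c t‖ ^ 6 = (‖c t‖ ^ 2) ^ 3 := by ring
    rw [h4, h4', h5, h7, nb, nc, ← hP]
    unfold PS3
    ring
  have hbc : Continuous b := by
    rw [hb]
    fun_prop
  have hcc : Continuous c := by
    rw [hc]
    fun_prop
  have hzc : Continuous (fun q : ℝ × ℝ => zz a (b q.1) (c q.1) q.2) := by
    unfold zz
    fun_prop
  -- the inner bound
  have hin : ∀ t, ∫ β in (-Real.pi)..Real.pi, ‖zz a (b t) (c t) β‖ ≤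
      2 * Real.pi * (τ * (5 / 16 + 15 / 16 * (PS1 P W Y c0 c1 t / τ ^ 2)
        - 5 / 16 * (PS2 P W Y x c0 c1 t / τ ^ 4) + 1 / 16 * (PS3 P W Y x c0 c1 t / τ ^ 6))) := by
    intro t
    have hz : Continuous (fun β => ‖zz a (b t) (c t) β‖) := (zz_cont _ _ _).norm
    have hi : ∀ k : ℕ, IntervalIntegrable (fun β => ‖zz a (b t) (c t) β‖ ^ k) volume (-Real.pi)
        Real.pi := fun k => (hz.pow k).intervalIntegrable _ _
    have hi' : ∀ (r : ℝ) (k : ℕ), IntervalIntegrable (fun β => r * (‖zz a (b t) (c t) β‖ ^ k / τ ^ k))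
        volume (-Real.pi) Real.pi := by
      intro r k
      exact ((hi k).div_const _).const_mul _
    have h1 : ∫ β in (-Real.pi)..Real.pi, ‖zz a (b t) (c t) β‖ ≤
        ∫ β in (-Real.pi)..Real.pi, τ * (5 / 16 + 15 / 16 * (‖zz a (b t) (c t) β‖ ^ 2 / τ ^ 2)
          - 5 / 16 * (‖zz a (b t) (c t) β‖ ^ 4 / τ ^ 4)
          + 1 / 16 * (‖zz a (b t) (c t) β‖ ^ 6 / τ ^ 6)) := by
      refine intervalIntegral.integral_mono_on (by linarith) (hz.intervalIntegrable _ _) ?_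
        fun β _ => p3_le (norm_nonneg _) hτ
      exact (((intervalIntegrable_const.add (hi' _ 2)).sub (hi' _ 4)).add (hi' _ 6)).const_mul _
    refine h1.trans (le_of_eq ?_)
    rw [intervalIntegral.integral_const_mul, intervalIntegral.integral_add
      ((intervalIntegrable_const.add (hi' _ 2)).sub (hi' _ 4)) (hi' _ 6),
      intervalIntegral.integral_sub (intervalIntegrable_const.add (hi' _ 2)) (hi' _ 4),
      intervalIntegral.integral_add intervalIntegrable_const (hi' _ 2),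
      intervalIntegral.integral_const_mul, intervalIntegral.integral_const_mul,
      intervalIntegral.integral_const_mul, intervalIntegral.integral_div,
      intervalIntegral.integral_div, intervalIntegral.integral_div, intervalIntegral.integral_div,
      q1, q2, q3, intervalIntegral.integral_const]
    rw [smul_eq_mul]
    ring
  have hP1 : Continuous (PS1 P W Y c0 c1) := by
    unfold PS1
    fun_prop
  have hP2 : Continuous (PS2 P W Y x c0 c1) := by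
    unfold PS2
    fun_prop
  have hP3 : Continuous (PS3 P W Y x c0 c1) := by
    unfold PS3
    fun_prop
  have hout : ∫ t in (0 : ℝ)..Real.pi, ∫ β in (-Real.pi)..Real.pi, ‖zz a (b t) (c t) β‖ ≤
      ∫ t in (0 : ℝ)..Real.pi, 2 * Real.pi * (τ * (5 / 16 + 15 / 16 * (PS1 P W Y c0 c1 t / τ ^ 2)
        - 5 / 16 * (PS2 P W Y x c0 c1 t / τ ^ 4) + 1 / 16 * (PS3 P W Y x c0 c1 t / τ ^ 6))) := by
    refine intervalIntegral.integral_mono_on hpi.le ?_ (Continuous.intervalIntegrable (by fun_prop) _ _)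
      fun t _ => hin t
    refine Continuous.intervalIntegrable ?_ _ _
    exact intervalIntegral.continuous_parametric_intervalIntegral_of_continuous'
      (f := fun t β => ‖zz a (b t) (c t) β‖) (by
        unfold Function.uncurry
        exact hzc.norm) _ _
  refine hout.trans (le_of_eq ?_)
  have i1 : IntervalIntegrable (fun t => 15 / 16 * (PS1 P W Y c0 c1 t / τ ^ 2)) volume 0 Real.pi :=
    Continuous.intervalIntegrable (by fun_prop) _ _
  have i2 : IntervalIntegrable (fun t => 5 / 16 * (PS2 P W Y x c0 c1 t / τ ^ 4)) volume 0 Real.pi :=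
    Continuous.intervalIntegrable (by fun_prop) _ _
  have i3 : IntervalIntegrable (fun t => 1 / 16 * (PS3 P W Y x c0 c1 t / τ ^ 6)) volume 0 Real.pi :=
    Continuous.intervalIntegrable (by fun_prop) _ _
  rw [intervalIntegral.integral_const_mul, intervalIntegral.integral_const_mul,
    intervalIntegral.integral_add ((intervalIntegrable_const.add i1).sub i2) i3,
    intervalIntegral.integral_sub (intervalIntegrable_const.add i1) i2,
    intervalIntegral.integral_add intervalIntegrable_const i1,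
    intervalIntegral.integral_const_mul, intervalIntegral.integral_const_mul,
    intervalIntegral.integral_const_mul, intervalIntegral.integral_div,
    intervalIntegral.integral_div, intervalIntegral.integral_div, intervalIntegral.integral_div,
    PS1_int, PS2_int, PS3_int, intervalIntegral.integral_const, smul_eq_mul]
  ring

/-! ### frames adapted to `v` -/

theorem exists_frm {v : E3} (hv : ‖v‖ = 1) : ∃ m : E3, Frm m (crs v m) v := by
  have h1 : v 0 ^ 2 + v 1 ^ 2 + v 2 ^ 2 = 1 := by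
    rw [← normsq3, hv, one_pow]
  have key : ∀ e : E3, ‖e‖ = 1 → (inner ℝ v e : ℝ) ^ 2 < 1 → ∃ m : E3, Frm m (crs v m) v := by
    intro e he hve
    have h2 : ‖prj v e‖ ^ 2 = 1 - (inner ℝ v e : ℝ) ^ 2 := by
      have := norm_prj_sq hv e
      rw [he, one_pow] at this
      linarith
    have hpos : 0 < ‖prj v e‖ := by
      by_contra h
      have : ‖prj v e‖ = 0 := le_antisymm (not_lt.1 h) (norm_nonneg _)
      rw [this] at h2
      nlinarith
    set m : E3 := (‖prj v e‖⁻¹ : ℝ) • prj v e with hm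
    have hm1 : ‖m‖ = 1 := by
      rw [hm, norm_smul, norm_inv, norm_norm, inv_mul_cancel₀ hpos.ne']
    have hmv : inner ℝ v m = (0 : ℝ) := by
      rw [hm, inner_smul_right, prj_perp hv, mul_zero]
    refine ⟨m, hm1, ?_, hv, ?_, ?_, ?_⟩
    · have := norm_crs hv hmv
      rw [hm1, one_pow] at this
      nlinarith [norm_nonneg (crs v m)]
    · exact inner_crs_right v m
    · rw [real_inner_comm]
      exact hmv
    · rw [real_inner_comm]
      exact inner_crs_left v m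
  by_cases h : (v 0) ^ 2 < 1
  · refine key !₂[1, 0, 0] ?_ ?_
    · have : ‖(!₂[1, 0, 0] : E3)‖ ^ 2 = 1 := by
        rw [normsq3]
        simp
      nlinarith [norm_nonneg (!₂[1, 0, 0] : E3)]
    · rw [inner3]
      simpa using h
  · refine key !₂[0, 1, 0] ?_ ?_
    · have : ‖(!₂[0, 1, 0] : E3)‖ ^ 2 = 1 := by
        rw [normsq3]
        simp
      nlinarith [norm_nonneg (!₂[0, 1, 0] : E3)]
    · have h3 : v 1 ^ 2 < 1 := by nlinarith [sq_nonneg (v 2)]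
      rw [inner3]
      simpa using h3

/-- norms in an adapted frame -/
private theorem frm_norm {m n v a : E3} (h : Frm m n v) (ha : inner ℝ v a = (0 : ℝ)) :
    ‖a‖ ^ 2 = (inner ℝ m a : ℝ) ^ 2 + (inner ℝ n a : ℝ) ^ 2 := by
  obtain ⟨R, hR⟩ := h.iso
  have h1 : ‖a‖ ^ 2 = ‖R a‖ ^ 2 := by rw [R.norm_map]
  rw [h1, normsq3, (hR a).1, (hR a).2.1, (hR a).2.2, ha]
  ring

/-- triple products in an adapted frame -/
private theorem frm_crs {m v a : E3} (h : Frm m (crs v m) v) (ha : inner ℝ v a = (0 : ℝ)) :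
    inner ℝ m (crs v a) = -(inner ℝ (crs v m) a : ℝ) ∧ inner ℝ (crs v m) (crs v a) = (inner ℝ m a : ℝ) := by
  have hvm : inner ℝ v m = (0 : ℝ) := by
    rw [real_inner_comm]
    exact h.mv
  have hv1 : v 0 ^ 2 + v 1 ^ 2 + v 2 ^ 2 = 1 := by
    rw [← normsq3, h.v1, one_pow]
  rw [inner3] at ha hvm
  constructor
  · rw [inner3, inner3]
    simp only [crs0, crs1, crs2]
    ring
  · rw [inner3, inner3]
    simp only [crs0, crs1, crs2]
    linear_combination (m 0 * a 0 + m 1 * a 1 + m 2 * a 2) * hv1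
      - (m 0 * v 0 + m 1 * v 1 + m 2 * v 2) * ha

/-! ### the closed form -/

/-- the bound: six times the mean over the two angles -/
def Lam3 (P W Y x c0 c1 τ : ℝ) : ℝ :=
  6 * τ * (5 / 16 + 15 / 16 * (M1 P W Y c0 c1 / τ ^ 2) - 5 / 16 * (M2 P W Y x c0 c1 / τ ^ 4)
    + 1 / 16 * (M3 P W Y x c0 c1 / τ ^ 6))

/-- the cross term of the vertical and the tangential parts in an adapted frame -/
def xx (m n v a b : E3) (κ κ' : ℝ) : ℝ :=
  (((⟨inner ℝ m (qp v a b), inner ℝ n (qp v a b)⟩ : ℂ) * ⟨-inner ℝ m (qm v a b), inner ℝ n (qm v a b)⟩) *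
    (starRingEnd ℂ) ((⟨-κ / 2, -κ' / 2⟩ : ℂ) ^ 2)).re

theorem L1_closed_gen {m v a b : E3} (h : Frm m (crs v m) v) (ha : inner ℝ v a = (0 : ℝ))
    (hb : inner ℝ v b = (0 : ℝ)) (lam κ κ' : ℝ) {τ : ℝ} (hτ : 0 < τ) :
    12 / Real.pi * L1 v (crs v b) (-crs v a) (-(lam • qm v a b) + κ • v)
      (-(lam • crs v (qm v a b)) + κ' • v) ≤
    Lam3 (‖qp v a b‖ ^ 2) ((κ ^ 2 + κ' ^ 2) / 4) (‖qm v a b‖ ^ 2) (xx m (crs v m) v a b κ κ')
      (1 - lam / 2) (lam / 2) τ := by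
  have hpi := Real.pi_pos
  have hv := h.v1
  set n := crs v m with hn
  have oN : inner ℝ v (crs v b) = (0 : ℝ) := inner_crs_left v b
  have oN' : inner ℝ v (-crs v a) = (0 : ℝ) := by
    rw [inner_neg_right, inner_crs_left, neg_zero]
  set q := qm v a b with hq
  set q' := qp v a b with hq'
  have qv : inner ℝ v q = (0 : ℝ) := by
    rw [hq]
    unfold qm
    rw [inner_smul_right, inner_sub_right, prj_perp hv, inner_crs_left]
    ring
  have qv' : inner ℝ v q' = (0 : ℝ) := by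
    rw [hq']
    unfold qp
    rw [inner_smul_right, inner_add_right, prj_perp hv, inner_crs_left]
    ring
  -- coordinates
  have ca := frm_crs (hn ▸ h) ha
  have cb := frm_crs (hn ▸ h) hb
  have cq := frm_crs (hn ▸ h) qv
  rw [← hn] at ca cb cq
  have em : inner ℝ m q = (1 / 2 : ℝ) * (inner ℝ m a + inner ℝ n b) := by
    rw [hq]
    unfold qm
    rw [inner_smul_right, inner_sub_right, prj_of_perp ha, cb.1]
    ring
  have en : inner ℝ n q = (1 / 2 : ℝ) * (inner ℝ n a - inner ℝ m b) := by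
    rw [hq]
    unfold qm
    rw [inner_smul_right, inner_sub_right, prj_of_perp ha, cb.2]
  have pm : inner ℝ m q' = (1 / 2 : ℝ) * (inner ℝ m a - inner ℝ n b) := by
    rw [hq']
    unfold qp
    rw [inner_smul_right, inner_add_right, prj_of_perp ha, cb.1]
    ring
  have pn : inner ℝ n q' = (1 / 2 : ℝ) * (inner ℝ n a + inner ℝ m b) := by
    rw [hq']
    unfold qp
    rw [inner_smul_right, inner_add_right, prj_of_perp ha, cb.2]
  have kv : ∀ (X : E3) (k : ℝ), inner ℝ v X = (0 : ℝ) →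
      inner ℝ m (-(lam • X) + k • v) = -(lam * inner ℝ m X : ℝ) ∧
      inner ℝ n (-(lam • X) + k • v) = -(lam * inner ℝ n X : ℝ) ∧
      inner ℝ v (-(lam • X) + k • v) = k := by
    intro X k hX
    refine ⟨?_, ?_, ?_⟩
    · rw [inner_add_right, inner_neg_right, inner_smul_right, inner_smul_right, h.mv]
      ring
    · rw [inner_add_right, inner_neg_right, inner_smul_right, inner_smul_right, h.nv]
      ring
    · rw [inner_add_right, inner_neg_right, inner_smul_right, inner_smul_right, hX,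
        inner_self_one hv]
      ring
  have k1 := kv q κ qv
  have k2 := kv (crs v q) κ' (inner_crs_left v q)
  have e := L1_ang h oN oN' (K := -(lam • q) + κ • v) (K' := -(lam • crs v q) + κ' • v)
  rw [k1.1, k1.2.1, k1.2.2, k2.1, k2.2.1, k2.2.2, cq.1, cq.2, inner_neg_right, inner_neg_right,
    cb.1, cb.2, ca.1, ca.2] at e
  set A : ℂ := ⟨inner ℝ m q', inner ℝ n q'⟩ with hA
  set Yc : ℂ := ⟨-inner ℝ m q, inner ℝ n q⟩ with hY
  set Wc : ℂ := ⟨-κ / 2, -κ' / 2⟩ with hW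
  have f0 : ∀ t, ca0 (-(inner ℝ n b : ℝ)) (inner ℝ m b) (-(lam * inner ℝ m q)) (-(lam * inner ℝ n q))
      (- -(inner ℝ n a : ℝ)) (-(inner ℝ m a : ℝ)) (-(lam * -(inner ℝ n q : ℝ)))
      (-(lam * inner ℝ m q)) t = A := by
    intro t
    unfold ca0
    rw [hA, pm, pn]
    apply Complex.ext
    · simp only
      ring
    · simp only
      ring
  have f1 : ∀ t, ca1 κ κ' t = ((Real.sin (2 * t) : ℝ) : ℂ) * Wc := by
    intro t
    unfold ca1
    rw [hW, Real.sin_two_mul]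
    apply Complex.ext
    · simp only [Complex.mul_re, Complex.ofReal_re, Complex.ofReal_im]
      ring
    · simp only [Complex.mul_im, Complex.ofReal_re, Complex.ofReal_im]
      ring
  have f2 : ∀ t, ca2 (-(inner ℝ n b : ℝ)) (inner ℝ m b) (-(lam * inner ℝ m q)) (-(lam * inner ℝ n q))
      (- -(inner ℝ n a : ℝ)) (-(inner ℝ m a : ℝ)) (-(lam * -(inner ℝ n q : ℝ)))
      (-(lam * inner ℝ m q)) t =
      (((1 - lam / 2) + lam / 2 * Real.cos (2 * t) : ℝ) : ℂ) * Yc := by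
    intro t
    have hc : Real.cos (2 * t) = 1 - 2 * Real.sin t ^ 2 := by
      have := Real.cos_sq' t
      rw [Real.cos_two_mul, this]
      ring
    unfold ca2
    rw [hY, hc]
    apply Complex.ext
    · simp only [Complex.mul_re, Complex.ofReal_re, Complex.ofReal_im]
      rw [em, en]
      ring
    · simp only [Complex.mul_im, Complex.ofReal_re, Complex.ofReal_im]
      rw [em, en]
      ring
  simp only [f0, f1, f2] at e
  have hz := zz_p3 A Wc Yc (1 - lam / 2) (lam / 2) hτ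
  rw [← e] at hz
  have nA : ‖A‖ ^ 2 = ‖q'‖ ^ 2 := by
    rw [← Complex.normSq_eq_norm_sq, hA, Complex.normSq_mk, frm_norm h qv']
    ring
  have nY : ‖Yc‖ ^ 2 = ‖q‖ ^ 2 := by
    rw [← Complex.normSq_eq_norm_sq, hY, Complex.normSq_mk, frm_norm h qv]
    ring
  have nW : ‖Wc‖ ^ 2 = (κ ^ 2 + κ' ^ 2) / 4 := by
    rw [← Complex.normSq_eq_norm_sq, hW, Complex.normSq_mk]
    ring
  rw [nA, nY, nW] at hz
  have hx : (A * Yc * (starRingEnd ℂ) (Wc ^ 2)).re = xx m n v a b κ κ' := by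
    rw [hA, hY, hW]
    rfl
  rw [hx] at hz
  unfold Lam3
  have h3 := mul_le_mul_of_nonneg_left hz (show (0 : ℝ) ≤ 3 / Real.pi ^ 2 by positivity)
  have e1 : 3 / Real.pi ^ 2 * (4 * Real.pi * L1 v (crs v b) (-crs v a) (-(lam • q) + κ • v)
      (-(lam • crs v q) + κ' • v)) = 12 / Real.pi * L1 v (crs v b) (-crs v a) (-(lam • q) + κ • v)
      (-(lam • crs v q) + κ' • v) := by
    field_simp
    ring
  rw [e1] at h3
  refine h3.trans (le_of_eq ?_)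
  field_simp
  ring

private theorem M2_x (P W Y x y : ℝ) : M2 P W Y x 0 1 = M2 P W Y y 0 1 := by
  unfold M2
  ring

private theorem M3_x (P W Y x y : ℝ) : M3 P W Y x 0 1 = M3 P W Y y 0 1 := by
  unfold M3
  ring

/-- the closed form at `K = - 2 qm + κ v` -/
theorem L1_closed {v a b : E3} (hv : ‖v‖ = 1) (ha : inner ℝ v a = (0 : ℝ))
    (hb : inner ℝ v b = (0 : ℝ)) (κ κ' : ℝ) {τ : ℝ} (hτ : 0 < τ) :
    12 / Real.pi * L1 v (crs v b) (-crs v a) (-((2 : ℝ) • qm v a b) + κ • v)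
      (-((2 : ℝ) • crs v (qm v a b)) + κ' • v) ≤
    Lam3 (‖qp v a b‖ ^ 2) ((κ ^ 2 + κ' ^ 2) / 4) (‖qm v a b‖ ^ 2) 0 0 1 τ := by
  obtain ⟨m, h⟩ := exists_frm hv
  refine (L1_closed_gen h ha hb 2 κ κ' hτ).trans (le_of_eq ?_)
  have e1 : (1 : ℝ) - 2 / 2 = 0 := by norm_num
  have e2 : (2 : ℝ) / 2 = 1 := by norm_num
  rw [e1, e2]
  unfold Lam3
  rw [M2_x _ _ _ _ 0, M3_x _ _ _ _ 0]

/-- the closed form without vertical part, any multiple of the anticonformal part -/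
theorem L1_closed0 {v a b : E3} (hv : ‖v‖ = 1) (ha : inner ℝ v a = (0 : ℝ))
    (hb : inner ℝ v b = (0 : ℝ)) (lam : ℝ) {τ : ℝ} (hτ : 0 < τ) :
    12 / Real.pi * L1 v (crs v b) (-crs v a) (-(lam • qm v a b)) (-(lam • crs v (qm v a b))) ≤
    Lam3 (‖qp v a b‖ ^ 2) 0 (‖qm v a b‖ ^ 2) 0 (1 - lam / 2) (lam / 2) τ := by
  obtain ⟨m, h⟩ := exists_frm hv
  have h1 := L1_closed_gen h ha hb lam 0 0 hτ
  rw [zero_smul, add_zero, add_zero] at h1
  refine h1.trans (le_of_eq ?_)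
  have e1 : ((0 : ℝ) ^ 2 + 0 ^ 2) / 4 = 0 := by norm_num
  have e2 : xx m (crs v m) v a b 0 0 = 0 := by
    unfold xx
    have : (⟨-0 / 2, -0 / 2⟩ : ℂ) = 0 := by
      apply Complex.ext <;> simp
    rw [this]
    simp
  rw [e1, e2]

private theorem pair_qm {v a b : E3} (hv : ‖v‖ = 1) (A B : E3) :
    inner ℝ A (qm v a b) + inner ℝ B (crs v (qm v a b)) = 2 * (inner ℝ (qm v A B) (qm v a b) : ℝ) := by
  have qv : inner ℝ v (qm v a b) = (0 : ℝ) := by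
    unfold qm
    rw [inner_smul_right, inner_sub_right, prj_perp hv, inner_crs_left]
    ring
  set q := qm v a b
  have e1 : inner ℝ (prj v A) q = (inner ℝ A q : ℝ) := by
    unfold prj
    rw [inner_sub_left, inner_smul_left, qv]
    simp
  have e2 : inner ℝ (crs v B) q = -(inner ℝ B (crs v q) : ℝ) := by
    rw [inner3, inner3]
    simp only [crs0, crs1, crs2]
    ring
  have e3 : inner ℝ (qm v A B) q = (1 / 2 : ℝ) * (inner ℝ A q + inner ℝ B (crs v q)) := by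
    rw [show qm v A B = (1 / 2 : ℝ) • (prj v A - crs v B) from rfl, real_inner_smul_left,
      inner_sub_left, e1, e2]
    ring
  rw [e3]
  ring

/-- the certificate at `p = 3/2` with a vertical part -/
theorem QLow_closed {v a b : E3} (hv : ‖v‖ = 1) (ha : inner ℝ v a = (0 : ℝ))
    (hb : inner ℝ v b = (0 : ℝ)) (A B : E3) (κ κ' : ℝ) {τ : ℝ} (hτ : 0 < τ) :
    QLow v a b A B (3 + 3 * (‖qp v a b‖ ^ 2 - ‖qm v a b‖ ^ 2)
      + 6 * inner ℝ (qm v A B) (qm v a b) - (3 / 2) * (κ * inner ℝ v A + κ' * inner ℝ v B)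
      - Lam3 (‖qp v a b‖ ^ 2) ((κ ^ 2 + κ' ^ 2) / 4) (‖qm v a b‖ ^ 2) 0 0 1 τ) := by
  refine ⟨-((2 : ℝ) • qm v a b) + κ • v, -((2 : ℝ) • crs v (qm v a b)) + κ' • v, ?_⟩
  have h1 := L1_closed hv ha hb κ κ' hτ
  have h2 := jac_pm hv ha hb
  have h3 := pair_qm (a := a) (b := b) hv A B
  have e1 : inner ℝ A (-((2 : ℝ) • qm v a b) + κ • v) + inner ℝ B (-((2 : ℝ) • crs v (qm v a b)) + κ' • v)
      = -(4 * inner ℝ (qm v A B) (qm v a b)) + (κ * inner ℝ v A + κ' * inner ℝ v B) := by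
    rw [inner_add_right, inner_add_right, inner_neg_right, inner_neg_right, inner_smul_right,
      inner_smul_right, inner_smul_right, inner_smul_right, real_inner_comm v A,
      real_inner_comm v B]
    linarith
  rw [e1, h2]
  linarith

/-- the certificate without vertical part, any multiple -/
theorem QLow_closed0 {v a b : E3} (hv : ‖v‖ = 1) (ha : inner ℝ v a = (0 : ℝ))
    (hb : inner ℝ v b = (0 : ℝ)) (A B : E3) (lam : ℝ) {τ : ℝ} (hτ : 0 < τ) :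
    QLow v a b A B (3 + 3 * (‖qp v a b‖ ^ 2 - ‖qm v a b‖ ^ 2)
      + 3 * lam * inner ℝ (qm v A B) (qm v a b)
      - Lam3 (‖qp v a b‖ ^ 2) 0 (‖qm v a b‖ ^ 2) 0 (1 - lam / 2) (lam / 2) τ) := by
  refine ⟨-(lam • qm v a b), -(lam • crs v (qm v a b)), ?_⟩
  have h1 := L1_closed0 hv ha hb lam hτ
  have h2 := jac_pm hv ha hb
  have h3 := pair_qm (a := a) (b := b) hv A B
  have e1 : inner ℝ A (-(lam • qm v a b)) + inner ℝ B (-(lam • crs v (qm v a b)))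
      = -(2 * lam * inner ℝ (qm v A B) (qm v a b)) := by
    rw [inner_neg_right, inner_neg_right, inner_smul_right, inner_smul_right]
    linear_combination (-lam) * h3
  rw [e1, h2]
  linarith

end Pool.Agent.FPX
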