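import Mathlib
import Pool.Agent.FPX.LCF

/-! Ring member (AZR), STEPS 1 and 2: the mean over a circle of `|a + b ζ + c ζ²|` with the
coefficient of `|c|²` halved. -/

open MeasureTheory Set

noncomputable section

namespace Pool.Agent.FPX.AZT

/-! ### STEP 2 -/

theorem sc_low {p d : ℝ} (hp : 0 ≤ p) (hp1 : p^3 ≤ 3/4) (hd : 0 ≤ d) (hdp : d ≤ p^2) :
    0 ≤ 3*(1-p)^2 - d*(3/2-2*p^2) + 1/10*d^2 := by
  have hp2 : p ≤ 91/100 := by
    by_contra h
    have h' : 91/100 < p := not_le.1 h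
    have h2 : (91/100)*(91/100) < p*p := by nlinarith
    have h3 : (91/100)*((91/100)*(91/100)) < p*(p*p) := by nlinarith
    nlinarith
  rcases le_total (3/2-2*p^2) 0 with h | h
  · nlinarith [mul_nonneg hd (neg_nonneg.2 h), sq_nonneg (1-p), sq_nonneg d]
  rcases le_total (11/5*p^2) (3/2) with h2 | h2
  · -- decreasing in d
    have h3 : 0 ≤ (p^2 - d)*((3/2-2*p^2) - 1/10*(d+p^2)) :=
      mul_nonneg (by linarith) (by nlinarith)
    have h4 : 0 ≤ 3 - 6*p + 3/2*p^2 + 21/10*p^4 := by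
      nlinarith [sq_nonneg (p^2 - 29/50), sq_nonneg (p - 19/25)]
    nlinarith [h3, h4]
  · have h7 : 3/2 - 2*p^2 ≤ 3/22 := by linarith
    have hpu : p ≤ 87/100 := by
      by_contra h'
      have h'' : 87/100 < p := not_le.1 h'
      nlinarith
    have h8 : (3/2-2*p^2)^2 ≤ (3/22)^2 := by nlinarith
    have h9 : (13/100)^2 ≤ (1-p)^2 := by nlinarith
    nlinarith [sq_nonneg (d - 5*(3/2-2*p^2))]

/-- STEP 2, multiplied by `p³` -/
theorem sc_main {p d m : ℝ} (hp : 0 ≤ p) (hd : 0 ≤ d) (hm : 0 ≤ m) (hmd : m + d ≤ p^2) :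
    0 ≤ 3*p^3*(1-p)^2 + 3/2*d*p^2*(1-p) + d^2*(21/10*p^3-3/2) + m*d*(2*p^3-3/2) := by
  have p2 : 0 ≤ p^2 := sq_nonneg p
  have p3 : 0 ≤ p^3 := by positivity
  rcases le_total (3/4) (p^3) with h | h
  · have hm' : 0 ≤ m*d*(2*p^3-3/2) := mul_nonneg (mul_nonneg hm hd) (by linarith)
    rcases le_total p 1 with h1 | h1
    · have e1 : 0 ≤ 3*p^3*(1-p)^2 := by positivity
      have e2 : 0 ≤ 3/2*d*p^2*(1-p) := mul_nonneg (by positivity) (by linarith)
      have e3 : 0 ≤ d^2*(21/10*p^3-3/2) := mul_nonneg (sq_nonneg d) (by linarith)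
      linarith
    · -- discriminant
      have hA : 0 < 21/10*p^3 - 3/2 := by linarith
      have hp4 : 9/4*p ≤ 12*(21/10*p^3 - 3/2) := by
        have : 1 ≤ p^2 := by nlinarith
        have h3 : p ≤ p^3 := by nlinarith
        nlinarith
      -- 4 A (A d^2 + B d + C) = (2 A d + B)^2 + 4 A C - B^2
      have hC : 0 ≤ 4*(21/10*p^3-3/2)*(3*p^3*(1-p)^2) - (3/2*p^2*(1-p))^2 := by
        have e : 4*(21/10*p^3-3/2)*(3*p^3*(1-p)^2) - (3/2*p^2*(1-p))^2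
            = (p^3*(1-p)^2)*(12*(21/10*p^3-3/2) - 9/4*p) := by ring
        rw [e]
        exact mul_nonneg (mul_nonneg p3 (sq_nonneg _)) (by linarith)
      have key : 0 ≤ 4*(21/10*p^3-3/2)*(3*p^3*(1-p)^2 + 3/2*d*p^2*(1-p) + d^2*(21/10*p^3-3/2)) := by
        nlinarith [sq_nonneg (2*(21/10*p^3-3/2)*d + 3/2*p^2*(1-p))]
      have key2 := nonneg_of_mul_nonneg_right key (by linarith : 0 < 4*(21/10*p^3-3/2))
      linarith
  · have h1 : (p^2 - d)*d*(2*p^3-3/2) ≤ m*d*(2*p^3-3/2) := by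
      have : 0 ≤ ((p^2-d) - m)*d*(3/2 - 2*p^3) :=
        mul_nonneg (mul_nonneg (by linarith) hd) (by linarith)
      nlinarith
    have h2 := mul_nonneg p3 (sc_low hp h hd (by linarith))
    nlinarith [h1, h2]

/-- STEP 2 -/
theorem sc_step2 {p d m : ℝ} (hp : 0 < p) (hd : 0 ≤ d) (hm : 0 ≤ m) (hmd : m + d ≤ p^2) :
    6*p - 3/2*((p^2-m-d)*d)/p^3 ≤ 3 + 3*p^2 - 3/2*d + 21/10*d^2 + 2*m*d := by
  have p3 : 0 < p^3 := by positivity
  have h := sc_main hp.le hd hm hmd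
  rw [sub_le_iff_le_add, ← sub_le_iff_le_add', le_div_iff₀ p3]
  nlinarith [h]

/-! ### STEP 1 -/

/-- `√(x + y) + √(x - y) ≤ 2 √x (1 - y²/(8 x²))` -/
theorem sqrt_two {p y : ℝ} (hp : 0 < p) (hy : |y| ≤ p^2) :
    √(p^2 + y) + √(p^2 - y) ≤ 2*p - y^2/(4*p^3) := by
  obtain ⟨h1, h2⟩ := abs_le.1 hy
  have a0 : 0 ≤ p^2 + y := by linarith
  have b0 : 0 ≤ p^2 - y := by linarith
  have p3 : 0 < p^3 := by positivity
  have hy2 : y^2 ≤ p^4 := by nlinarith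
  have hR : 0 ≤ 2*p - y^2/(4*p^3) := by
    rw [sub_nonneg, div_le_iff₀ (by positivity)]
    nlinarith [sq_nonneg (p^2)]
  refine le_of_sq_le_sq ?_ hR
  have e1 : (√(p^2 + y) + √(p^2 - y))^2 = 2*p^2 + 2*√((p^2+y)*(p^2-y)) := by
    rw [Real.sqrt_mul a0, add_sq, Real.sq_sqrt a0, Real.sq_sqrt b0]; ring
  have e2 : √((p^2+y)*(p^2-y)) ≤ p^2 - y^2/(2*p^2) := by
    have h0 : 0 ≤ p^2 - y^2/(2*p^2) := by
      rw [sub_nonneg, div_le_iff₀ (by positivity)]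
      nlinarith [sq_nonneg (p^2)]
    rw [show p^2 - y^2/(2*p^2) = √((p^2 - y^2/(2*p^2))^2) from (Real.sqrt_sq h0).symm]
    apply Real.sqrt_le_sqrt
    have : (p^2 - y^2/(2*p^2))^2 = p^4 - y^2 + (y^2/(2*p^2))^2 := by
      field_simp; ring
    rw [this]
    nlinarith [sq_nonneg (y^2/(2*p^2))]
  have e3 : (2*p - y^2/(4*p^3))^2 = 4*p^2 - y^2/p^2 + (y^2/(4*p^3))^2 := by
    field_simp; ring
  have e4 : y^2/p^2 = 2*(y^2/(2*p^2)) := by field_simp
  rw [e1, e3]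
  nlinarith [sq_nonneg (y^2/(4*p^3)), e2, e4]

theorem sqn (z : ℂ) : ‖z‖^2 = z.re^2 + z.im^2 := by
  rw [Complex.sq_norm, Complex.normSq_apply]; ring

theorem two_le {x y s : ℝ} (h : x^2 + y^2 ≤ 2*s) : x + y ≤ 2*√s := by
  have h1 : (x+y)^2 ≤ 4*s := by nlinarith [sq_nonneg (x-y)]
  have h2 : x + y ≤ √(4*s) := Real.le_sqrt_of_sq_le h1
  have h3 : √(4*s) = 2*√s := by
    rw [show (4:ℝ)*s = 2^2*s by ring, Real.sqrt_mul (by positivity), Real.sqrt_sq (by norm_num)]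
  linarith

theorem four (a B C : ℂ) {p : ℝ} (hp : 0 < p) (hP : ‖a‖^2 + ‖B‖^2 + ‖C‖^2 = p^2) :
    ‖a+B+C‖ + ‖a-B+C‖ + (‖a+Complex.I*B-C‖ + ‖a-Complex.I*B-C‖)
      ≤ 4*p - (2*(a.re*C.re + a.im*C.im))^2/(2*p^3) := by
  obtain ⟨h, hh⟩ : ∃ h, h = 2*(a.re*C.re + a.im*C.im) := ⟨_, rfl⟩
  rw [← hh]
  rw [sqn, sqn, sqn] at hP
  have h1 : ‖a+B+C‖ + ‖a-B+C‖ ≤ 2*√(p^2 + h) := by
    apply two_le
    rw [sqn, sqn]
    simp only [Complex.add_re, Complex.add_im, Complex.sub_re, Complex.sub_im]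
    nlinarith
  have h2 : ‖a+Complex.I*B-C‖ + ‖a-Complex.I*B-C‖ ≤ 2*√(p^2 - h) := by
    apply two_le
    rw [sqn, sqn]
    simp only [Complex.add_re, Complex.add_im, Complex.sub_re, Complex.sub_im, Complex.mul_re,
      Complex.mul_im, Complex.I_re, Complex.I_im]
    nlinarith
  have hy : |h| ≤ p^2 := by
    rw [abs_le]
    constructor <;>
    nlinarith [sq_nonneg (a.re + C.re), sq_nonneg (a.im + C.im), sq_nonneg (a.re - C.re),
      sq_nonneg (a.im - C.im), sq_nonneg B.re, sq_nonneg B.im]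
  have h3 := sqrt_two hp hy
  have h4 : h^2/(2*p^3) = 2*(h^2/(4*p^3)) := by field_simp; ring
  rw [h4]
  linarith

/-- eight points on the circle -/
theorem eight (a b c w : ℂ) (hw : ‖w‖ = 1) {e : ℂ} (he : e^2 = Complex.I) (he1 : ‖e‖ = 1)
    {p : ℝ} (hp : 0 < p) (hP : ‖a‖^2 + ‖b‖^2 + ‖c‖^2 = p^2) :
    (‖a+b*w+c*w^2‖ + ‖a+b*(-w)+c*(-w)^2‖ +
      (‖a+b*(Complex.I*w)+c*(Complex.I*w)^2‖ + ‖a+b*(-(Complex.I*w))+c*(-(Complex.I*w))^2‖)) +
    (‖a+b*(e*w)+c*(e*w)^2‖ + ‖a+b*(-(e*w))+c*(-(e*w))^2‖ +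
      (‖a+b*(Complex.I*(e*w))+c*(Complex.I*(e*w))^2‖ +
        ‖a+b*(-(Complex.I*(e*w)))+c*(-(Complex.I*(e*w)))^2‖))
      ≤ 8*p - 2*(‖a‖^2*‖c‖^2)/p^3 := by
  have k1 := four a (b*w) (c*w^2) hp (by simpa [norm_mul, norm_pow, hw] using hP)
  have k2 := four a (b*(e*w)) (c*(e*w)^2) hp (by simpa [norm_mul, norm_pow, hw, he1] using hP)
  have e1 : a+b*(-w)+c*(-w)^2 = a - b*w + c*w^2 := by ring
  have e2 : a+b*(Complex.I*w)+c*(Complex.I*w)^2 = a + Complex.I*(b*w) - c*w^2 := by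
    rw [mul_pow, Complex.I_sq]; ring
  have e3 : a+b*(-(Complex.I*w))+c*(-(Complex.I*w))^2 = a - Complex.I*(b*w) - c*w^2 := by
    rw [neg_sq, mul_pow, Complex.I_sq]; ring
  have e4 : a+b*(-(e*w))+c*(-(e*w))^2 = a - b*(e*w) + c*(e*w)^2 := by ring
  have e5 : a+b*(Complex.I*(e*w))+c*(Complex.I*(e*w))^2
      = a + Complex.I*(b*(e*w)) - c*(e*w)^2 := by
    rw [mul_pow Complex.I, Complex.I_sq]; ring
  have e6 : a+b*(-(Complex.I*(e*w)))+c*(-(Complex.I*(e*w)))^2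
      = a - Complex.I*(b*(e*w)) - c*(e*w)^2 := by
    rw [neg_sq, mul_pow Complex.I, Complex.I_sq]; ring
  rw [e1, e2, e3, e4, e5, e6]
  have hc : c*(e*w)^2 = Complex.I*(c*w^2) := by rw [mul_pow, he]; ring
  have hre : (c*(e*w)^2).re = -(c*w^2).im := by
    rw [hc]; simp
  have him : (c*(e*w)^2).im = (c*w^2).re := by
    rw [hc]; simp
  rw [hre, him] at k2
  have hn : (c*w^2).re^2 + (c*w^2).im^2 = ‖c‖^2 := by
    rw [← sqn, norm_mul, norm_pow, hw]; ring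
  have ha : a.re^2 + a.im^2 = ‖a‖^2 := (sqn a).symm
  have key : (2*(a.re*(c*w^2).re + a.im*(c*w^2).im))^2/(2*p^3)
      + (2*(a.re*(-(c*w^2).im) + a.im*(c*w^2).re))^2/(2*p^3) = 2*(‖a‖^2*‖c‖^2)/p^3 := by
    rw [← hn, ← ha]; field_simp; ring
  linarith

/-! ### the circle -/

open Pool.Agent.FPX in
theorem zz_shift (a b c : ℂ) (β s : ℝ) : zz a b c (β + s) =
    a + b*(Complex.exp (s*Complex.I)*Complex.exp (β*Complex.I))
      + c*(Complex.exp (s*Complex.I)*Complex.exp (β*Complex.I))^2 := by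
  unfold zz
  have : Complex.exp (((β + s : ℝ) : ℂ)*Complex.I)
      = Complex.exp (s*Complex.I)*Complex.exp (β*Complex.I) := by
    rw [← Complex.exp_add]; congr 1; push_cast; ring
  rw [this]

open Pool.Agent.FPX in
theorem zz_per (a b c : ℂ) : Function.Periodic (fun β : ℝ => ‖zz a b c β‖) (2*Real.pi) := by
  intro β
  show ‖zz a b c (β + 2*Real.pi)‖ = ‖zz a b c β‖
  rw [zz_shift]
  have : Complex.exp (((2*Real.pi : ℝ) : ℂ)*Complex.I) = 1 := by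
    rw [Complex.exp_eq_one_iff]; exact ⟨1, by push_cast; ring⟩
  rw [this, one_mul]
  rfl

open Pool.Agent.FPX in
theorem int_shift (a b c : ℂ) (s : ℝ) :
    ∫ β in (-Real.pi)..Real.pi, ‖zz a b c (β + s)‖ = ∫ β in (-Real.pi)..Real.pi, ‖zz a b c β‖ := by
  rw [intervalIntegral.integral_comp_add_right (fun β => ‖zz a b c β‖) s]
  have h := (zz_per a b c).intervalIntegral_add_eq (-Real.pi + s) (-Real.pi)
  rw [show -Real.pi + s + 2*Real.pi = Real.pi + s by ring,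
    show -Real.pi + 2*Real.pi = Real.pi by ring] at h
  exact h

open Pool.Agent.FPX in
theorem circ_le (a b c : ℂ) {p : ℝ} (hp : 0 < p) (hP : ‖a‖^2 + ‖b‖^2 + ‖c‖^2 = p^2) :
    8 * ∫ β in (-Real.pi)..Real.pi, ‖zz a b c β‖ ≤ 2*Real.pi*(8*p - 2*(‖a‖^2*‖c‖^2)/p^3) := by
  obtain ⟨e, he⟩ : ∃ e, e = Complex.exp (((Real.pi/4 : ℝ) : ℂ)*Complex.I) := ⟨_, rfl⟩
  have he2 : e^2 = Complex.I := by
    rw [he, ← Complex.exp_nat_mul]
    have : ((2:ℕ):ℂ)*(((Real.pi/4 : ℝ) : ℂ)*Complex.I) = (Real.pi/2)*Complex.I := by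
      push_cast; ring
    rw [this, Complex.exp_pi_div_two_mul_I]
  have he1 : ‖e‖ = 1 := by rw [he]; exact Complex.norm_exp_ofReal_mul_I _
  have s1 : Complex.exp (((Real.pi : ℝ) : ℂ)*Complex.I) = -1 := Complex.exp_pi_mul_I
  have s2 : Complex.exp (((Real.pi/2 : ℝ) : ℂ)*Complex.I) = Complex.I := by
    push_cast; exact Complex.exp_pi_div_two_mul_I
  have s3 : Complex.exp (((Real.pi + Real.pi/2 : ℝ) : ℂ)*Complex.I) = -Complex.I := by
    rw [Complex.ofReal_add, add_mul, Complex.exp_add, s1, s2]; ring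
  have s4 : Complex.exp (((Real.pi/4 + Real.pi : ℝ) : ℂ)*Complex.I) = -e := by
    rw [Complex.ofReal_add, add_mul, Complex.exp_add, s1, ← he]; ring
  have s5 : Complex.exp (((Real.pi/4 + Real.pi/2 : ℝ) : ℂ)*Complex.I) = Complex.I*e := by
    rw [Complex.ofReal_add, add_mul, Complex.exp_add, s2, ← he]; ring
  have s6 : Complex.exp (((Real.pi/4 + (Real.pi + Real.pi/2) : ℝ) : ℂ)*Complex.I)
      = -(Complex.I*e) := by
    rw [Complex.ofReal_add, add_mul, Complex.exp_add, s3, ← he]; ring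
  have hcont : ∀ s : ℝ, Continuous fun β : ℝ => ‖zz a b c (β + s)‖ := fun s =>
    ((zz_cont a b c).comp (continuous_id.add continuous_const)).norm
  have hint : ∀ s : ℝ, IntervalIntegrable (fun β : ℝ => ‖zz a b c (β + s)‖) volume
      (-Real.pi) Real.pi := fun s => (hcont s).intervalIntegrable _ _
  have hsum : ∫ β in (-Real.pi)..Real.pi,
      (‖zz a b c (β + 0)‖ + ‖zz a b c (β + Real.pi)‖ +
        (‖zz a b c (β + Real.pi/2)‖ + ‖zz a b c (β + (Real.pi + Real.pi/2))‖) +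
      (‖zz a b c (β + Real.pi/4)‖ + ‖zz a b c (β + (Real.pi/4 + Real.pi))‖ +
        (‖zz a b c (β + (Real.pi/4 + Real.pi/2))‖ +
          ‖zz a b c (β + (Real.pi/4 + (Real.pi + Real.pi/2)))‖)))
      = 8 * ∫ β in (-Real.pi)..Real.pi, ‖zz a b c β‖ := by
    rw [intervalIntegral.integral_add (((hint _).add (hint _)).add ((hint _).add (hint _)))
        (((hint _).add (hint _)).add ((hint _).add (hint _))),
      intervalIntegral.integral_add ((hint _).add (hint _)) ((hint _).add (hint _)),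
      intervalIntegral.integral_add ((hint _).add (hint _)) ((hint _).add (hint _)),
      intervalIntegral.integral_add (hint _) (hint _),
      intervalIntegral.integral_add (hint _) (hint _),
      intervalIntegral.integral_add (hint _) (hint _),
      intervalIntegral.integral_add (hint _) (hint _)]
    simp only [int_shift]
    ring
  rw [← hsum]
  have hle : ∀ β ∈ Icc (-Real.pi) Real.pi,
      (‖zz a b c (β + 0)‖ + ‖zz a b c (β + Real.pi)‖ +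
        (‖zz a b c (β + Real.pi/2)‖ + ‖zz a b c (β + (Real.pi + Real.pi/2))‖) +
      (‖zz a b c (β + Real.pi/4)‖ + ‖zz a b c (β + (Real.pi/4 + Real.pi))‖ +
        (‖zz a b c (β + (Real.pi/4 + Real.pi/2))‖ +
          ‖zz a b c (β + (Real.pi/4 + (Real.pi + Real.pi/2)))‖)))
      ≤ 8*p - 2*(‖a‖^2*‖c‖^2)/p^3 := by
    intro β _
    have h := eight a b c (Complex.exp (β*Complex.I)) (Complex.norm_exp_ofReal_mul_I β) he2 he1 hp hP
    rw [zz_shift a b c β 0, zz_shift a b c β Real.pi, zz_shift a b c β (Real.pi/2),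
      zz_shift a b c β (Real.pi + Real.pi/2), zz_shift a b c β (Real.pi/4),
      zz_shift a b c β (Real.pi/4 + Real.pi), zz_shift a b c β (Real.pi/4 + Real.pi/2),
      zz_shift a b c β (Real.pi/4 + (Real.pi + Real.pi/2)), s1, s2, s3, s4, s5, s6, ← he]
    have t0 : Complex.exp (((0:ℝ):ℂ)*Complex.I)*Complex.exp (β*Complex.I)
        = Complex.exp (β*Complex.I) := by simp
    have t1 : (-1:ℂ)*Complex.exp (β*Complex.I) = -Complex.exp (β*Complex.I) := by ring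
    have t3 : -Complex.I*Complex.exp (β*Complex.I) = -(Complex.I*Complex.exp (β*Complex.I)) := by
      ring
    have t4 : -e*Complex.exp (β*Complex.I) = -(e*Complex.exp (β*Complex.I)) := by ring
    have t5 : Complex.I*e*Complex.exp (β*Complex.I) = Complex.I*(e*Complex.exp (β*Complex.I)) := by
      ring
    have t6 : -(Complex.I*e)*Complex.exp (β*Complex.I)
        = -(Complex.I*(e*Complex.exp (β*Complex.I))) := by ring
    rw [t0, t1, t3, t4, t5, t6]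
    exact h
  have hpi : -Real.pi ≤ Real.pi := by linarith [Real.pi_pos]
  have hm := intervalIntegral.integral_mono_on hpi
    (((hint 0).add (hint _)).add ((hint _).add (hint _)) |>.add
      (((hint _).add (hint _)).add ((hint _).add (hint _)))) intervalIntegrable_const hle
  refine hm.trans (le_of_eq ?_)
  rw [intervalIntegral.integral_const, smul_eq_mul]
  ring

open Pool.Agent.FPX in
/-- the mean over the circle: the coefficient of `‖c‖²` is halved -/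
theorem ring_circ (a b c : ℂ) :
    6 * ∫ β in (-Real.pi)..Real.pi, ‖zz a b c β‖ ≤
      2*Real.pi*(3 + 3*‖a‖^2 + 3*‖b‖^2 + 3/2*‖c‖^2 + 21/10*(‖c‖^2)^2 + 2*‖b‖^2*‖c‖^2) := by
  rcases eq_or_lt_of_le (by positivity : 0 ≤ ‖a‖^2 + ‖b‖^2 + ‖c‖^2) with h | h
  · have ha : ‖a‖ = 0 := by nlinarith [sq_nonneg ‖a‖, sq_nonneg ‖b‖, sq_nonneg ‖c‖, norm_nonneg a]
    have hb : ‖b‖ = 0 := by nlinarith [sq_nonneg ‖a‖, sq_nonneg ‖b‖, sq_nonneg ‖c‖, norm_nonneg b]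
    have hc : ‖c‖ = 0 := by nlinarith [sq_nonneg ‖a‖, sq_nonneg ‖b‖, sq_nonneg ‖c‖, norm_nonneg c]
    rw [norm_eq_zero] at ha hb hc
    have hz : ∀ β : ℝ, ‖zz a b c β‖ = 0 := by intro β; simp [zz, ha, hb, hc]
    simp only [hz, intervalIntegral.integral_zero, mul_zero]
    have := Real.pi_pos
    positivity
  · obtain ⟨p, hp, hP⟩ : ∃ p : ℝ, 0 < p ∧ ‖a‖^2 + ‖b‖^2 + ‖c‖^2 = p^2 :=
      ⟨√(‖a‖^2 + ‖b‖^2 + ‖c‖^2), Real.sqrt_pos.2 h, (Real.sq_sqrt h.le).symm⟩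
    have h1 := circ_le a b c hp hP
    have h2 := sc_step2 hp (sq_nonneg ‖c‖) (sq_nonneg ‖b‖) (by nlinarith [sq_nonneg ‖a‖])
    have h3 : p^2 - ‖b‖^2 - ‖c‖^2 = ‖a‖^2 := by linarith
    rw [h3] at h2
    have hpi := Real.pi_pos
    have h4 : 8*p - 2*(‖a‖^2*‖c‖^2)/p^3 = 4/3*(6*p - 3/2*(‖a‖^2*‖c‖^2)/p^3) := by ring
    rw [h4] at h1
    have h5 := mul_le_mul_of_nonneg_left h2 (by positivity : 0 ≤ 2*Real.pi)
    rw [← hP] at h5
    nlinarith [h1, h5]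

end Pool.Agent.FPX.AZT
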