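import Mathlib
import Pool.Agent.FPX.LCF
import Pool.Agent.FPX.AZT

/-! Ring member (AZR), STEP 3: the closed form of the improved bound of `(12/π) L1`. -/

open MeasureTheory Set Filter Topology

noncomputable section

namespace Pool.Agent.FPX.AZV

open Pool.Agent.EWD Pool.Agent.FPX

/-- integral of a polynomial of degree four in `sin² t` -/
theorem int_spoly (c0 c1 c2 c3 c4 : ℝ) : ∫ t in (0 : ℝ)..Real.pi,
    (c0 + c1 * Real.sin t ^ 2 + c2 * (Real.sin t ^ 2) ^ 2 + c3 * (Real.sin t ^ 2) ^ 3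
      + c4 * (Real.sin t ^ 2) ^ 4) =
    Real.pi * (c0 + c1 / 2 + 3 * c2 / 8 + 5 * c3 / 16 + 35 * c4 / 128) := by
  have h := int_cpoly (c0 + c1/2 + c2/4 + c3/8 + c4/16) (-(c1/2) - c2/2 - 3*c3/8 - c4/4)
    (c2/4 + 3*c3/8 + 3*c4/8) (-(c3/8) - c4/4) (c4/16) 0 0
  refine (intervalIntegral.integral_congr fun t _ => ?_).trans (h.trans ?_)
  · have e : Real.sin t ^ 2 = (1 - Real.cos (2*t))/2 := by
      rw [Real.cos_two_mul]
      have := Real.sin_sq_add_cos_sq t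
      linarith
    simp only [e]
    ring
  · ring

/-- mean of the squared coefficient `a - s² k` -/
def mom2 (a k : E3) : ℝ := ‖a‖ ^ 2 - inner ℝ a k + 3 / 8 * ‖k‖ ^ 2

/-- mean of `‖a - s² k‖⁴` -/
def mom4 (a k : E3) : ℝ :=
  (‖a‖ ^ 2) ^ 2 + 3 / 8 * (2 * inner ℝ a k) ^ 2 + 35 / 128 * (‖k‖ ^ 2) ^ 2
    - ‖a‖ ^ 2 * (2 * inner ℝ a k) + 3 / 4 * (‖a‖ ^ 2 * ‖k‖ ^ 2)
    - 5 / 8 * ((2 * inner ℝ a k) * ‖k‖ ^ 2)

/-- mean of `s² c² ‖a - s² k‖²` -/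
def momc (a k : E3) : ℝ := ‖a‖ ^ 2 / 8 - 2 * inner ℝ a k / 16 + 5 * ‖k‖ ^ 2 / 128

/-- the circle bound with the coefficients `A`, `B`, `D` -/
def CircB (A B D : ℝ) : Prop := ∀ a b c : ℂ, 6 * ∫ β in (-Real.pi)..Real.pi, ‖zz a b c β‖ ≤
  2 * Real.pi * (3 + 3 * ‖a‖ ^ 2 + 3 * ‖b‖ ^ 2 + A * ‖c‖ ^ 2 + B * (‖c‖ ^ 2) ^ 2
    + D * ‖b‖ ^ 2 * ‖c‖ ^ 2)

theorem circB_ring : CircB (3/2) (21/10) 2 := AZT.ring_circ

theorem circB_base : CircB 3 0 0 := by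
  intro a b c
  have hz : Continuous (fun β => ‖zz a b c β‖) := (zz_cont _ _ _).norm
  have hpi := Real.pi_pos
  have h1 : ∫ β in (-Real.pi)..Real.pi, ‖zz a b c β‖ ≤
      ∫ β in (-Real.pi)..Real.pi, (1/2 + 1/2 * ‖zz a b c β‖ ^ 2) := by
    refine intervalIntegral.integral_mono_on (by linarith) (hz.intervalIntegrable _ _)
      (Continuous.intervalIntegrable (by fun_prop) _ _) fun β _ => ?_
    nlinarith [sq_nonneg (‖zz a b c β‖ - 1)]
  have hi : IntervalIntegrable (fun β => 1/2 * ‖zz a b c β‖ ^ 2) volume (-Real.pi) Real.pi :=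
    Continuous.intervalIntegrable (by fun_prop) _ _
  rw [intervalIntegral.integral_add intervalIntegrable_const hi,
    intervalIntegral.integral_const_mul, par1,
    intervalIntegral.integral_const, smul_eq_mul] at h1
  nlinarith [h1]

theorem crs_cmp {m v : E3} (h : Frm m (crs v m) v) (Y : E3) :
    (inner ℝ m (crs v Y) : ℝ) = -inner ℝ (crs v m) Y ∧
    (inner ℝ (crs v m) (crs v Y) : ℝ) = inner ℝ m Y := by
  have hv1 : v 0 ^ 2 + v 1 ^ 2 + v 2 ^ 2 = 1 := by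
    rw [← normsq3, h.v1, one_pow]
  have hmv : inner ℝ m v = (0 : ℝ) := h.mv
  rw [inner3] at hmv
  constructor
  · rw [inner3, inner3]
    simp only [crs0, crs1, crs2]
    ring
  · rw [inner3, inner3]
    simp only [crs0, crs1, crs2]
    linear_combination (m 0 * Y 0 + m 1 * Y 1 + m 2 * Y 2) * hv1
      - (v 0 * Y 0 + v 1 * Y 1 + v 2 * Y 2) * hmv

/-- components in an adapted frame -/
theorem cmp {m v : E3} (h : Frm m (crs v m) v) (X Y : E3) :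
    (inner ℝ m (qp v X Y) : ℝ) = (inner ℝ m X - inner ℝ (crs v m) Y) / 2 ∧
    (inner ℝ (crs v m) (qp v X Y) : ℝ) = (inner ℝ (crs v m) X + inner ℝ m Y) / 2 ∧
    (inner ℝ m (qm v X Y) : ℝ) = (inner ℝ m X + inner ℝ (crs v m) Y) / 2 ∧
    (inner ℝ (crs v m) (qm v X Y) : ℝ) = (inner ℝ (crs v m) X - inner ℝ m Y) / 2 := by
  have hmv : inner ℝ m v = (0 : ℝ) := h.mv
  have hnv : inner ℝ (crs v m) v = (0 : ℝ) := h.nv
  have c1 := (crs_cmp h Y).1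
  have c2 := (crs_cmp h Y).2
  unfold qp qm prj
  simp only [inner_smul_right, inner_add_right, inner_sub_right, hmv, hnv, c1, c2]
  refine ⟨by ring, by ring, by ring, by ring⟩

theorem perp_p {v : E3} (hv : ‖v‖ = 1) (X Y : E3) :
    (inner ℝ v (qp v X Y) : ℝ) = 0 ∧ (inner ℝ v (qm v X Y) : ℝ) = 0 := by
  unfold qp qm
  simp only [inner_smul_right, inner_add_right, inner_sub_right, prj_perp hv, inner_crs_left]
  simp

theorem frm_inner {m n v x y : E3} (h : Frm m n v) (hx : inner ℝ v x = (0 : ℝ)) :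
    (inner ℝ x y : ℝ) = inner ℝ m x * inner ℝ m y + inner ℝ n x * inner ℝ n y := by
  obtain ⟨R, hR⟩ := h.iso
  have h1 : (inner ℝ x y : ℝ) = inner ℝ (R x) (R y) := by rw [R.inner_map_map]
  rw [h1, inner3, (hR x).1, (hR x).2.1, (hR x).2.2, (hR y).1, (hR y).2.1, (hR y).2.2, hx]
  ring

/-- STEP 3 for any circle bound -/
theorem L1_circ {A B D : ℝ} (hC : CircB A B D) {v a b : E3} (hv : ‖v‖ = 1) (K K' : E3) :
    12 / Real.pi * L1 v (crs v b) (-crs v a) K K' ≤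
      3 + 3 * mom2 (qp v a b) (qp v K K') + 3 / 8 * (inner ℝ v K ^ 2 + inner ℝ v K' ^ 2)
      + A * mom2 (qm v a b) (-qm v K K') + B * mom4 (qm v a b) (-qm v K K')
      + D * (inner ℝ v K ^ 2 + inner ℝ v K' ^ 2) * momc (qm v a b) (-qm v K K') := by
  have hpi := Real.pi_pos
  obtain ⟨m, hF⟩ := exists_frm hv
  obtain ⟨n, hn⟩ : ∃ n, n = crs v m := ⟨_, rfl⟩
  rw [← hn] at hF
  have oN : inner ℝ v (crs v b) = (0 : ℝ) := inner_crs_left v b
  have oN' : inner ℝ v (-crs v a) = (0 : ℝ) := by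
    rw [inner_neg_right, inner_crs_left, neg_zero]
  have hang := L1_ang (K := K) (K' := K') hF oN oN'
  have hFc : Frm m (crs v m) v := hn ▸ hF
  obtain ⟨b1, b2⟩ := crs_cmp hFc b
  obtain ⟨a1, a2⟩ := crs_cmp hFc a
  obtain ⟨p1, p2, q1, q2⟩ := cmp hFc a b
  obtain ⟨k1, k2, l1, l2⟩ := cmp hFc K K'
  rw [← hn] at b1 b2 a1 a2 p1 p2 q1 q2 k1 k2 l1 l2
  have ip : ∀ X : E3, (inner ℝ (qp v a b) X : ℝ)
      = inner ℝ m (qp v a b) * inner ℝ m X + inner ℝ n (qp v a b) * inner ℝ n X :=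
    fun X => frm_inner hF (perp_p hv a b).1
  have iq : ∀ X : E3, (inner ℝ (qm v a b) X : ℝ)
      = inner ℝ m (qm v a b) * inner ℝ m X + inner ℝ n (qm v a b) * inner ℝ n X :=
    fun X => frm_inner hF (perp_p hv a b).2
  have ik : ∀ X : E3, (inner ℝ (qp v K K') X : ℝ)
      = inner ℝ m (qp v K K') * inner ℝ m X + inner ℝ n (qp v K K') * inner ℝ n X :=
    fun X => frm_inner hF (perp_p hv K K').1
  have il : ∀ X : E3, (inner ℝ (qm v K K') X : ℝ)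
      = inner ℝ m (qm v K K') * inner ℝ m X + inner ℝ n (qm v K K') * inner ℝ n X :=
    fun X => frm_inner hF (perp_p hv K K').2
  obtain ⟨f0, hf0⟩ : ∃ f : ℝ → ℂ, f = ca0 (inner ℝ m (crs v b)) (inner ℝ n (crs v b))
    (inner ℝ m K) (inner ℝ n K) (inner ℝ m (-crs v a)) (inner ℝ n (-crs v a)) (inner ℝ m K')
    (inner ℝ n K') := ⟨_, rfl⟩
  obtain ⟨f1, hf1⟩ : ∃ f : ℝ → ℂ, f = ca1 (inner ℝ v K) (inner ℝ v K') := ⟨_, rfl⟩
  obtain ⟨f2, hf2⟩ : ∃ f : ℝ → ℂ, f = ca2 (inner ℝ m (crs v b)) (inner ℝ n (crs v b))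
    (inner ℝ m K) (inner ℝ n K) (inner ℝ m (-crs v a)) (inner ℝ n (-crs v a)) (inner ℝ m K')
    (inner ℝ n K') := ⟨_, rfl⟩
  rw [← hf0, ← hf1, ← hf2] at hang
  have n0 : ∀ t, ‖f0 t‖ ^ 2 = ‖qp v a b‖ ^ 2 - 2 * inner ℝ (qp v a b) (qp v K K') * Real.sin t ^ 2
      + ‖qp v K K'‖ ^ 2 * (Real.sin t ^ 2) ^ 2 := by
    intro t
    rw [hf0, AZT.sqn, ← real_inner_self_eq_norm_sq, ← real_inner_self_eq_norm_sq, ip, ip, ik,
      p1, p2, k1, k2]
    simp only [ca0, inner_neg_right, a1, a2, b1, b2]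
    ring
  have n1 : ∀ t, ‖f1 t‖ ^ 2 = (inner ℝ v K ^ 2 + inner ℝ v K' ^ 2) *
      (Real.sin t ^ 2 - (Real.sin t ^ 2) ^ 2) := by
    intro t
    have e : Real.cos t ^ 2 = 1 - Real.sin t ^ 2 := by
      have := Real.sin_sq_add_cos_sq t
      linarith
    rw [hf1, AZT.sqn]
    simp only [ca1]
    have : (-(Real.sin t * Real.cos t * inner ℝ v K)) ^ 2
        + (-(Real.sin t * Real.cos t * inner ℝ v K')) ^ 2
        = Real.sin t ^ 2 * Real.cos t ^ 2 * (inner ℝ v K ^ 2 + inner ℝ v K' ^ 2) := by ring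
    rw [this, e]
    ring
  have n2 : ∀ t, ‖f2 t‖ ^ 2 = ‖qm v a b‖ ^ 2 - 2 * inner ℝ (qm v a b) (-qm v K K') * Real.sin t ^ 2
      + ‖-qm v K K'‖ ^ 2 * (Real.sin t ^ 2) ^ 2 := by
    intro t
    rw [hf2, AZT.sqn, norm_neg, inner_neg_right, ← real_inner_self_eq_norm_sq,
      ← real_inner_self_eq_norm_sq, iq, iq, il, q1, q2, l1, l2]
    simp only [ca2, inner_neg_right, a1, a2, b1, b2, l1, l2]
    ring
  have c0 : Continuous f0 := by
    have e : f0 = fun t => (((f0 t).re : ℝ) : ℂ) + ((f0 t).im : ℝ) * Complex.I := by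
      funext t; exact (Complex.re_add_im (f0 t)).symm
    rw [e, hf0]
    simp only [ca0]
    fun_prop
  have c1 : Continuous f1 := by
    have e : f1 = fun t => (((f1 t).re : ℝ) : ℂ) + ((f1 t).im : ℝ) * Complex.I := by
      funext t; exact (Complex.re_add_im (f1 t)).symm
    rw [e, hf1]
    simp only [ca1]
    fun_prop
  have c2 : Continuous f2 := by
    have e : f2 = fun t => (((f2 t).re : ℝ) : ℂ) + ((f2 t).im : ℝ) * Complex.I := by
      funext t; exact (Complex.re_add_im (f2 t)).symm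
    rw [e, hf2]
    simp only [ca2]
    fun_prop
  obtain ⟨w, hw⟩ : ∃ w, w = (inner ℝ v K ^ 2 + inner ℝ v K' ^ 2 : ℝ) := ⟨_, rfl⟩
  obtain ⟨P, hP⟩ : ∃ P, P = ‖qp v a b‖ ^ 2 := ⟨_, rfl⟩
  obtain ⟨PK, hPK⟩ : ∃ P, P = (inner ℝ (qp v a b) (qp v K K') : ℝ) := ⟨_, rfl⟩
  obtain ⟨PP', hPP⟩ : ∃ P, P = ‖qp v K K'‖ ^ 2 := ⟨_, rfl⟩
  obtain ⟨Q, hQ⟩ : ∃ P, P = ‖qm v a b‖ ^ 2 := ⟨_, rfl⟩
  obtain ⟨QK, hQK⟩ : ∃ P, P = (inner ℝ (qm v a b) (-qm v K K') : ℝ) := ⟨_, rfl⟩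
  obtain ⟨QQ, hQQ⟩ : ∃ P, P = ‖-qm v K K'‖ ^ 2 := ⟨_, rfl⟩
  rw [← hP, ← hPK, ← hPP] at n0
  rw [← hw] at n1
  rw [← hQ, ← hQK, ← hQQ] at n2
  unfold mom2 mom4 momc
  rw [← hP, ← hPK, ← hPP, ← hw, ← hQ, ← hQK, ← hQQ]
  have hout : ∫ t in (0 : ℝ)..Real.pi, ∫ β in (-Real.pi)..Real.pi, ‖zz (f0 t) (f1 t) (f2 t) β‖ ≤
      ∫ t in (0 : ℝ)..Real.pi, 2 * Real.pi / 6 *
        ((3 + 3*P + A*Q + B*Q^2) + (-(6*PK) + 3*w - 2*A*QK - 4*B*Q*QK + D*w*Q) * Real.sin t ^ 2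
        + (3*PP' - 3*w + A*QQ + B*(4*QK^2 + 2*Q*QQ) + D*w*(-(2*QK) - Q)) * (Real.sin t ^ 2) ^ 2
        + (-(4*B*QK*QQ) + D*w*(QQ + 2*QK)) * (Real.sin t ^ 2) ^ 3
        + (B*QQ^2 - D*w*QQ) * (Real.sin t ^ 2) ^ 4) := by
    refine intervalIntegral.integral_mono_on hpi.le ?_
      (Continuous.intervalIntegrable (by fun_prop) _ _) fun t _ => ?_
    · refine Continuous.intervalIntegrable ?_ _ _
      refine intervalIntegral.continuous_parametric_intervalIntegral_of_continuous'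
        (f := fun t β => ‖zz (f0 t) (f1 t) (f2 t) β‖) ?_ _ _
      unfold Function.uncurry
      refine continuous_norm.comp ?_
      unfold zz
      have d0 : Continuous fun x : ℝ × ℝ => f0 x.1 := c0.comp continuous_fst
      have d1 : Continuous fun x : ℝ × ℝ => f1 x.1 := c1.comp continuous_fst
      have d2 : Continuous fun x : ℝ × ℝ => f2 x.1 := c2.comp continuous_fst
      fun_prop
    · have h := hC (f0 t) (f1 t) (f2 t)
      rw [n0, n1, n2] at h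
      nlinarith [h]
  rw [intervalIntegral.integral_const_mul, int_spoly] at hout
  rw [← hang] at hout
  have h12 : 12 / Real.pi * L1 v (crs v b) (-crs v a) K K'
      = 3 / Real.pi ^ 2 * (4 * Real.pi * L1 v (crs v b) (-crs v a) K K') := by
    field_simp
    ring
  rw [h12]
  refine (mul_le_mul_of_nonneg_left hout (by positivity)).trans (le_of_eq ?_)
  field_simp
  ring

end Pool.Agent.FPX.AZV
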