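import Mathlib
import Pool.Agent.FPX.AZV
import Pool.Agent.FPX.AZS
import Pool.Agent.FPX.EMA

/-! Ring member (AZR), STEP 4: the member `(A, B, b) = (0, 1, b0)`. -/

open MeasureTheory Set Filter Topology

noncomputable section

namespace Pool.Agent.FPX.AZV

open Pool.Agent.EWD Pool.Agent.FPX

/-- the choice of `K` -/
def aK (v a b g : E3) : E3 := -((8/3 : ℝ) • qm v a b) - (4/3 : ℝ) • g

/-- the choice of `K'` -/
def aK' (v a b g : E3) : E3 := -((8/3 : ℝ) • crs v (qm v a b)) - (4/3 : ℝ) • g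

theorem inner_aK {v : E3} (hv : ‖v‖ = 1) (a b g : E3) :
    (inner ℝ v (aK v a b g) : ℝ) = -(4/3 * inner ℝ v g) := by
  unfold aK
  rw [inner_sub_right, inner_neg_right, inner_smul_right, inner_smul_right, (perp_p hv a b).2]
  ring

theorem inner_aK' (v a b g : E3) :
    (inner ℝ v (aK' v a b g) : ℝ) = -(4/3 * inner ℝ v g) := by
  unfold aK'
  rw [inner_sub_right, inner_neg_right, inner_smul_right, inner_smul_right, inner_crs_left]
  ring

theorem prj_aK {v : E3} (hv : ‖v‖ = 1) (a b g : E3) :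
    prj v (aK v a b g) = -((8/3 : ℝ) • qm v a b) - (4/3 : ℝ) • prj v g := by
  have h := (perp_p hv a b).2
  unfold aK prj
  rw [inner_sub_right, inner_neg_right, inner_smul_right, inner_smul_right, h]
  module

theorem crs_aK' {v : E3} (hv : ‖v‖ = 1) (a b g : E3) :
    crs v (aK' v a b g) = (8/3 : ℝ) • qm v a b - (4/3 : ℝ) • crs v g := by
  have h := (perp_p hv a b).2
  unfold aK'
  rw [crs_sub, crs_neg, crs_smul, crs_smul, crs_crs hv, prj_of_perp h]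
  module

theorem qm_aK {v : E3} (hv : ‖v‖ = 1) (a b g g' : E3) :
    -qm v (aK v a b g) (aK' v a b g') = (8/3 : ℝ) • qm v a b + (4/3 : ℝ) • qm v g g' := by
  conv_lhs => rw [qm, prj_aK hv, crs_aK' hv]
  conv_rhs => rw [qm.eq_def v g g']
  module

theorem qp_aK {v : E3} (hv : ‖v‖ = 1) (a b g g' : E3) :
    qp v (aK v a b g) (aK' v a b g') = -((4/3 : ℝ) • qp v g g') := by
  conv_lhs => rw [qp, prj_aK hv, crs_aK' hv]
  conv_rhs => rw [qp.eq_def v g g']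
  module

/-- pairing with the anticonformal part -/
theorem pair_q {v : E3} (hv : ‖v‖ = 1) (a b X Y : E3) :
    (inner ℝ X (qm v a b) : ℝ) + inner ℝ Y (crs v (qm v a b)) = 2 * inner ℝ (qm v a b) (qm v X Y) := by
  obtain ⟨m, hF⟩ := exists_frm hv
  have hq := (perp_p hv a b).2
  have h1 := frm_inner hF hq (y := X)
  have h2 := frm_inner hF (inner_crs_left v (qm v a b)) (y := Y)
  have h3 := frm_inner hF hq (y := qm v X Y)
  rw [(cmp hF X Y).2.2.1, (cmp hF X Y).2.2.2] at h3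
  rw [(crs_cmp hF (qm v a b)).1, (crs_cmp hF (qm v a b)).2] at h2
  rw [real_inner_comm (qm v a b) X, h1, real_inner_comm (crs v (qm v a b)) Y, h2, h3]
  ring

/-- pairing of derivatives -/
theorem pair_d {v a b : E3} (hv : ‖v‖ = 1) (ha : inner ℝ v a = (0 : ℝ)) (hb : inner ℝ v b = (0 : ℝ))
    (g g' : E3) : (inner ℝ g a : ℝ) + inner ℝ g' b =
      2 * (inner ℝ (qp v a b) (qp v g g') + inner ℝ (qm v a b) (qm v g g')) := by
  obtain ⟨m, hF⟩ := exists_frm hv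
  have h1 := frm_inner hF ha (y := g)
  have h2 := frm_inner hF hb (y := g')
  have h3 := frm_inner hF (perp_p hv a b).1 (y := qp v g g')
  have h4 := frm_inner hF (perp_p hv a b).2 (y := qm v g g')
  rw [(cmp hF g g').2.2.1, (cmp hF g g').2.2.2, (cmp hF a b).2.2.1, (cmp hF a b).2.2.2] at h4
  rw [(cmp hF g g').1, (cmp hF g g').2.1, (cmp hF a b).1, (cmp hF a b).2.1] at h3
  rw [real_inner_comm a g, h1, real_inner_comm b g', h2, h3, h4]
  ring

/-- the value of the form at `aK`, `aK'` -/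
def VZ (A B D : ℝ) (v a b X Y g g' : E3) : ℝ :=
  8 * inner ℝ (qm v a b) (qm v X Y) + 2 * (inner ℝ g (X - a) + inner ℝ g' (Y - b))
    - (3 + A) * ‖qm v a b‖ ^ 2 + (4 - 4/3 * A) * inner ℝ (qm v a b) (qm v g g')
    - 2 * ‖qp v g g'‖ ^ 2 - 2/3 * A * ‖qm v g g'‖ ^ 2
    - 2/3 * (inner ℝ v g ^ 2 + inner ℝ v g' ^ 2)
    - B * mom4 (qm v a b) ((8/3 : ℝ) • qm v a b + (4/3 : ℝ) • qm v g g')
    - 16/9 * D * (inner ℝ v g ^ 2 + inner ℝ v g' ^ 2) *
        momc (qm v a b) ((8/3 : ℝ) • qm v a b + (4/3 : ℝ) • qm v g g')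

/-- STEP 4 for any circle bound and any `g`, `g'` -/
theorem vz_low {A B D : ℝ} (hC : CircB A B D) {v a b : E3} (hv : ‖v‖ = 1)
    (ha : inner ℝ v a = (0 : ℝ)) (hb : inner ℝ v b = (0 : ℝ)) (X Y g g' : E3) :
    QLow v a b X Y (VZ A B D v a b X Y g g') := by
  refine ⟨aK v a b g, aK' v a b g', ?_⟩
  have h := L1_circ hC (a := a) (b := b) hv (aK v a b g) (aK' v a b g')
  rw [qm_aK hv, qp_aK hv, inner_aK hv, inner_aK'] at h
  have hq := pair_q hv a b X Y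
  have hd := pair_d hv ha hb g g'
  have hJ := jac_pm hv ha hb
  have e1 : (inner ℝ X (aK v a b g) : ℝ) = -(8/3 * inner ℝ X (qm v a b)) - 4/3 * inner ℝ g X := by
    unfold aK
    rw [inner_sub_right, inner_neg_right, inner_smul_right, inner_smul_right, real_inner_comm X g]
  have e2 : (inner ℝ Y (aK' v a b g') : ℝ)
      = -(8/3 * inner ℝ Y (crs v (qm v a b))) - 4/3 * inner ℝ g' Y := by
    unfold aK'
    rw [inner_sub_right, inner_neg_right, inner_smul_right, inner_smul_right, real_inner_comm Y g']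
  rw [e1, e2, hJ]
  unfold VZ
  rw [inner_sub_right, inner_sub_right]
  have m1 : mom2 (qp v a b) (-((4/3 : ℝ) • qp v g g')) = ‖qp v a b‖ ^ 2
      + 4/3 * inner ℝ (qp v a b) (qp v g g') + 2/3 * ‖qp v g g'‖ ^ 2 := by
    unfold mom2
    rw [inner_neg_right, inner_smul_right, norm_neg, norm_smul, mul_pow]
    norm_num
    ring
  have m2 : mom2 (qm v a b) ((8/3 : ℝ) • qm v a b + (4/3 : ℝ) • qm v g g') = ‖qm v a b‖ ^ 2
      + 4/3 * inner ℝ (qm v a b) (qm v g g') + 2/3 * ‖qm v g g'‖ ^ 2 := by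
    unfold mom2
    rw [norm_add_sq_real, inner_add_right, inner_smul_right, inner_smul_right, inner_smul_right,
      real_inner_smul_left, norm_smul, norm_smul, mul_pow, mul_pow, real_inner_self_eq_norm_sq]
    norm_num
    ring
  rw [m1, m2] at h
  nlinarith [h, hq, hd]

/-! ### the direction `u` -/

theorem frm_norm' {m n v x : E3} (h : Frm m n v) (hx : inner ℝ v x = (0 : ℝ)) :
    ‖x‖ ^ 2 = (inner ℝ m x : ℝ) ^ 2 + (inner ℝ n x : ℝ) ^ 2 := by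
  rw [← real_inner_self_eq_norm_sq, frm_inner h hx]
  ring

theorem frm_par {m n v : E3} (h : Frm m n v) (x : E3) :
    ‖x‖ ^ 2 = (inner ℝ m x : ℝ) ^ 2 + (inner ℝ n x : ℝ) ^ 2 + (inner ℝ v x : ℝ) ^ 2 := by
  obtain ⟨R, hR⟩ := h.iso
  have h1 : ‖x‖ ^ 2 = ‖R x‖ ^ 2 := by rw [R.norm_map]
  rw [h1, normsq3, (hR x).1, (hR x).2.1, (hR x).2.2]

theorem dir_norm {v u : E3} (hv : ‖v‖ = 1) (hu : ‖u‖ = 1) {c1 c2 : ℝ} (hc : c1 ^ 2 + c2 ^ 2 = 1) :
    ‖qp v (c1 • u) (c2 • u)‖ ^ 2 = (1 - inner ℝ v u ^ 2) / 4 ∧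
    ‖qm v (c1 • u) (c2 • u)‖ ^ 2 = (1 - inner ℝ v u ^ 2) / 4 := by
  obtain ⟨m, hF⟩ := exists_frm hv
  have hp := frm_par hF u
  rw [hu] at hp
  have h1 := frm_norm' hF (perp_p hv (c1 • u) (c2 • u)).1
  have h2 := frm_norm' hF (perp_p hv (c1 • u) (c2 • u)).2
  obtain ⟨p1, p2, q1, q2⟩ := cmp hF (c1 • u) (c2 • u)
  rw [p1, p2] at h1
  rw [q1, q2] at h2
  simp only [inner_smul_right] at h1 h2
  rw [h1, h2]
  have hp' : (inner ℝ m u : ℝ) ^ 2 + (inner ℝ (crs v m) u : ℝ) ^ 2 = 1 - inner ℝ v u ^ 2 := by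
    linarith
  constructor
  · linear_combination ((inner ℝ m u : ℝ) ^ 2 + (inner ℝ (crs v m) u : ℝ) ^ 2) / 4 * hc + hp' / 4
  · linear_combination ((inner ℝ m u : ℝ) ^ 2 + (inner ℝ (crs v m) u : ℝ) ^ 2) / 4 * hc + hp' / 4

theorem mk_eq (q F : E3) (y : ℝ) :
    (inner ℝ q ((8/3 : ℝ) • q + (4/3 : ℝ) • (y • F)) : ℝ) =
      8/3 * ‖q‖ ^ 2 + 4/3 * (y * inner ℝ q F) ∧
    ‖(8/3 : ℝ) • q + (4/3 : ℝ) • (y • F)‖ ^ 2 =
      64/9 * ‖q‖ ^ 2 + 64/9 * (y * inner ℝ q F) + 16/9 * (y ^ 2 * ‖F‖ ^ 2) := by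
  constructor
  · rw [inner_add_right, inner_smul_right, inner_smul_right, inner_smul_right,
      real_inner_self_eq_norm_sq]
  · rw [norm_add_sq_real, real_inner_smul_left, inner_smul_right, inner_smul_right, norm_smul,
      norm_smul, norm_smul, mul_pow, mul_pow, mul_pow]
    simp only [Real.norm_eq_abs, sq_abs]
    ring

theorem mom4_eq (q F : E3) (y : ℝ) :
    mom4 q ((8/3 : ℝ) • q + (4/3 : ℝ) • (y • F)) =
      AZS.E4 (‖q‖ ^ 2) (y * (2 * inner ℝ q F)) (y ^ 2 * (4 * ‖F‖ ^ 2)) := by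
  unfold mom4 AZS.E4
  rw [(mk_eq q F y).1, (mk_eq q F y).2]
  ring

theorem momc_eq (q F : E3) (y : ℝ) :
    momc q ((8/3 : ℝ) • q + (4/3 : ℝ) • (y • F)) =
      AZS.E2 (‖q‖ ^ 2) (y * (2 * inner ℝ q F)) (y ^ 2 * (4 * ‖F‖ ^ 2)) := by
  unfold momc AZS.E2
  rw [(mk_eq q F y).1, (mk_eq q F y).2]
  ring

/-- the two values; one of them is large enough -/
def VM (v a b X Y g g' : E3) : ℝ :=
  max (VZ 3 0 0 v a b X Y g g') (VZ (3/2) (21/10) 2 v a b X Y g g')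

theorem vm_low {v a b : E3} (hv : ‖v‖ = 1) (ha : inner ℝ v a = (0 : ℝ)) (hb : inner ℝ v b = (0 : ℝ))
    (X Y g g' : E3) : QLow v a b X Y (VM v a b X Y g g') := by
  unfold VM
  rcases le_total (VZ 3 0 0 v a b X Y g g') (VZ (3/2) (21/10) 2 v a b X Y g g') with h | h
  · rw [max_eq_right h]; exact vz_low circB_ring hv ha hb X Y g g'
  · rw [max_eq_left h]; exact vz_low circB_base hv ha hb X Y g g'

/-- **the ring member**, fixed directions -/
theorem vm_ring {y0 b0 : ℝ} (hg : AZS.Good y0 b0) {v a b X Y T u : E3} {h y z c1 c2 : ℝ}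
    (hv : ‖v‖ = 1) (hu : ‖u‖ = 1) (hT : T - v = h • u) (hh : 1 / 5 ≤ h) (h0 : 0 ≤ y) (hy : y ≤ y0)
    (hc : c1 ^ 2 + c2 ^ 2 = 1) (hz : c1 * inner ℝ u (X - a) + c2 * inner ℝ u (Y - b) = z) :
    2 * y * z + (1 - 4 * h) * nuv v a b - b0 * y ^ 2 ≤
      VM v a b X Y (y • (c1 • u)) (y • (c2 • u)) - 2 * dnu v a b T X Y := by
  obtain ⟨F, hF⟩ : ∃ F, F = qm v (c1 • u) (c2 • u) := ⟨_, rfl⟩
  obtain ⟨C, hC⟩ : ∃ C, C = -(inner ℝ v u : ℝ) := ⟨_, rfl⟩
  obtain ⟨q, hq⟩ : ∃ q, q = qm v a b := ⟨_, rfl⟩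
  have hdir := dir_norm hv hu hc
  have hC2 : (inner ℝ v u : ℝ) ^ 2 = C ^ 2 := by rw [hC]; ring
  rw [hC2, ← hF] at hdir
  have hF2 : 4 * ‖F‖ ^ 2 = 1 - C ^ 2 := by rw [hdir.2]; ring
  have hCle : C ^ 2 ≤ 1 := by nlinarith [sq_nonneg ‖F‖]
  have hTv : (inner ℝ v T : ℝ) = 1 - h * C := by
    have : T = v + h • u := by rw [← hT]; abel
    rw [this, inner_add_right, inner_smul_right, inner_self_one hv, hC]
    ring
  have hV : (2 * inner ℝ q F : ℝ) ^ 2 ≤ ‖q‖ ^ 2 * (1 - C ^ 2) := by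
    rw [← hF2]
    have := abs_real_inner_le_norm q F
    have h2 : (inner ℝ q F : ℝ) ^ 2 ≤ (‖q‖ * ‖F‖) ^ 2 := by
      rw [← sq_abs]
      exact pow_le_pow_left₀ (abs_nonneg _) this 2
    nlinarith
  have hstep := AZS.step5 hg (ρ := h) (y := y) (Q := ‖q‖ ^ 2) (V := 2 * inner ℝ q F) (C := C) hh h0
    hy hCle (sq_nonneg _) hV
  have hpair : (inner ℝ (y • (c1 • u)) (X - a) : ℝ) + inner ℝ (y • (c2 • u)) (Y - b) = y * z := by
    rw [← hz]
    simp only [real_inner_smul_left]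
    ring
  have hvg : (inner ℝ v (y • (c1 • u)) : ℝ) ^ 2 + (inner ℝ v (y • (c2 • u)) : ℝ) ^ 2
      = y ^ 2 * C ^ 2 := by
    simp only [inner_smul_right]
    rw [← hC2]
    linear_combination (y ^ 2 * inner ℝ v u ^ 2) * hc
  have hqm : qm v (y • (c1 • u)) (y • (c2 • u)) = y • F := by rw [qm_smul, hF]
  have hqp : ‖qp v (y • (c1 • u)) (y • (c2 • u))‖ ^ 2 = y ^ 2 * (1 - C ^ 2) / 4 := by
    rw [qp_smul, norm_smul, mul_pow, hdir.1, Real.norm_eq_abs, sq_abs]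
    ring
  have hqF : ‖y • F‖ ^ 2 = y ^ 2 * (1 - C ^ 2) / 4 := by
    rw [norm_smul, mul_pow, Real.norm_eq_abs, sq_abs, ← hF2]
    ring
  have hd : 2 * dnu v a b T X Y = 8 * inner ℝ q (qm v X Y) - 8 * (1 - h * C) * ‖q‖ ^ 2 := by
    unfold dnu
    rw [hTv, ← hq]
    ring
  have hnu : nuv v a b = 2 * ‖q‖ ^ 2 := by rw [hq]; rfl
  rw [hd, hnu]
  rcases hstep with hs | hs
  · have h1 : VZ 3 0 0 v a b X Y (y • (c1 • u)) (y • (c2 • u)) ≤
      VM v a b X Y (y • (c1 • u)) (y • (c2 • u)) := le_max_left _ _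
    have h2 : VZ 3 0 0 v a b X Y (y • (c1 • u)) (y • (c2 • u)) =
        8 * inner ℝ q (qm v X Y) + 2 * (y * z) - 6 * ‖q‖ ^ 2 - y ^ 2 * (1 - C ^ 2)
          - 2/3 * (y ^ 2 * C ^ 2) := by
      unfold VZ
      rw [hpair, hvg, hqm, hqp, hqF, ← hq]
      ring
    rw [h2] at h1
    nlinarith [h1, hs]
  · have h1 : VZ (3/2) (21/10) 2 v a b X Y (y • (c1 • u)) (y • (c2 • u)) ≤
      VM v a b X Y (y • (c1 • u)) (y • (c2 • u)) := le_max_right _ _
    have h2 : VZ (3/2) (21/10) 2 v a b X Y (y • (c1 • u)) (y • (c2 • u)) =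
        8 * inner ℝ q (qm v X Y) + 2 * (y * z) - 9/2 * ‖q‖ ^ 2 + y * (2 * inner ℝ q F)
          - 3/4 * (y ^ 2 * (1 - C ^ 2)) - 2/3 * (y ^ 2 * C ^ 2)
          - 21/10 * AZS.E4 (‖q‖ ^ 2) (y * (2 * inner ℝ q F)) (y ^ 2 * (1 - C ^ 2))
          - 32/9 * y ^ 2 * C ^ 2 * AZS.E2 (‖q‖ ^ 2) (y * (2 * inner ℝ q F))
            (y ^ 2 * (1 - C ^ 2)) := by
      unfold VZ
      rw [hpair, hvg, hqm, hqp, hqF, ← hq, mom4_eq, momc_eq, hF2, inner_smul_right]
      ring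
    rw [h2] at h1
    nlinarith [h1, hs]

/-! ### the certificate -/

/-- the continuous certificate -/
def QZ (v a b X Y : E3) : ℝ :=
  sSup ((fun w : E3 × E3 => VM v a b X Y w.1 w.2) '' Metric.closedBall 0 2)

theorem prj_cont' {α : Type*} [TopologicalSpace α] {f g : α → E3} (hf : Continuous f)
    (hg : Continuous g) : Continuous fun x => prj (f x) (g x) := by
  unfold prj
  fun_prop

theorem crs_cont' {α : Type*} [TopologicalSpace α] {f g : α → E3} (hf : Continuous f)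
    (hg : Continuous g) : Continuous fun x => crs (f x) (g x) := by
  unfold crs
  fun_prop

theorem qm_cont' {α : Type*} [TopologicalSpace α] {f g h : α → E3} (hf : Continuous f)
    (hg : Continuous g) (hh : Continuous h) : Continuous fun x => qm (f x) (g x) (h x) := by
  unfold qm
  exact ((prj_cont' hf hg).sub (crs_cont' hf hh)).const_smul (1 / 2 : ℝ)

theorem qp_cont' {α : Type*} [TopologicalSpace α] {f g h : α → E3} (hf : Continuous f)
    (hg : Continuous g) (hh : Continuous h) : Continuous fun x => qp (f x) (g x) (h x) := by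
  unfold qp
  exact ((prj_cont' hf hg).add (crs_cont' hf hh)).const_smul (1 / 2 : ℝ)

theorem VZ_cont (A B D : ℝ) : Continuous fun q : (E3 × E3 × E3 × E3 × E3) × (E3 × E3) =>
    VZ A B D q.1.1 q.1.2.1 q.1.2.2.1 q.1.2.2.2.1 q.1.2.2.2.2 q.2.1 q.2.2 := by
  have c1 : Continuous fun q : (E3 × E3 × E3 × E3 × E3) × (E3 × E3) =>
      qm q.1.1 q.1.2.1 q.1.2.2.1 := qm_cont' (by fun_prop) (by fun_prop) (by fun_prop)
  have c2 : Continuous fun q : (E3 × E3 × E3 × E3 × E3) × (E3 × E3) =>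
      qm q.1.1 q.1.2.2.2.1 q.1.2.2.2.2 := qm_cont' (by fun_prop) (by fun_prop) (by fun_prop)
  have c3 : Continuous fun q : (E3 × E3 × E3 × E3 × E3) × (E3 × E3) =>
      qm q.1.1 q.2.1 q.2.2 := qm_cont' (by fun_prop) (by fun_prop) (by fun_prop)
  have c4 : Continuous fun q : (E3 × E3 × E3 × E3 × E3) × (E3 × E3) =>
      qp q.1.1 q.2.1 q.2.2 := qp_cont' (by fun_prop) (by fun_prop) (by fun_prop)
  unfold VZ mom4 momc
  fun_prop

theorem VM_cont : Continuous fun q : (E3 × E3 × E3 × E3 × E3) × (E3 × E3) =>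
    VM q.1.1 q.1.2.1 q.1.2.2.1 q.1.2.2.2.1 q.1.2.2.2.2 q.2.1 q.2.2 :=
  (VZ_cont 3 0 0).max (VZ_cont (3/2) (21/10) 2)

theorem QZ_cont : Continuous fun q : E3 × E3 × E3 × E3 × E3 =>
    QZ q.1 q.2.1 q.2.2.1 q.2.2.2.1 q.2.2.2.2 := by
  have hK : IsCompact (Metric.closedBall (0 : E3 × E3) 2) := isCompact_closedBall _ _
  exact hK.continuous_sSup (f := fun (q : E3 × E3 × E3 × E3 × E3) (w : E3 × E3) =>
    VM q.1 q.2.1 q.2.2.1 q.2.2.2.1 q.2.2.2.2 w.1 w.2) VM_cont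

theorem QZ_at (v a b X Y : E3) : Continuous fun w : E3 × E3 => VM v a b X Y w.1 w.2 := by
  have hf : Continuous fun w : E3 × E3 => (((v, a, b, X, Y) : E3 × E3 × E3 × E3 × E3), w) :=
    Continuous.prodMk continuous_const continuous_id
  have h := Continuous.comp (g := fun q : (E3 × E3 × E3 × E3 × E3) × (E3 × E3) =>
    VM q.1.1 q.1.2.1 q.1.2.2.1 q.1.2.2.2.1 q.1.2.2.2.2 q.2.1 q.2.2) VM_cont hf
  exact h

theorem QZ_ge (v a b X Y : E3) {g g' : E3} (hg : ‖g‖ ≤ 2) (hg' : ‖g'‖ ≤ 2) :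
    VM v a b X Y g g' ≤ QZ v a b X Y := by
  have hK : IsCompact (Metric.closedBall (0 : E3 × E3) 2) := isCompact_closedBall _ _
  have hb := (hK.image (QZ_at v a b X Y)).bddAbove
  refine le_csSup hb ⟨(g, g'), ?_, rfl⟩
  rw [mem_closedBall_zero_iff]
  exact max_le hg hg'

theorem QZ_low {v a b : E3} (hv : ‖v‖ = 1) (ha : inner ℝ v a = (0 : ℝ)) (hb : inner ℝ v b = (0 : ℝ))
    (X Y : E3) : QLow v a b X Y (QZ v a b X Y) := by
  have hK : IsCompact (Metric.closedBall (0 : E3 × E3) 2) := isCompact_closedBall _ _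
  have hne : (Metric.closedBall (0 : E3 × E3) 2).Nonempty := ⟨0, by simp⟩
  obtain ⟨w, _, hw⟩ := hK.exists_sSup_image_eq hne (QZ_at v a b X Y).continuousOn
  unfold QZ
  rw [hw]
  exact vm_low hv ha hb X Y w.1 w.2

/-- **the ring member** -/
theorem QZ_ring {y0 b0 : ℝ} (hg : AZS.Good y0 b0) (hy1 : y0 ≤ 1) {v a b X Y T u : E3} {h y z : ℝ}
    (hv : ‖v‖ = 1) (hu : ‖u‖ = 1) (hT : T - v = h • u) (hh : 1 / 5 ≤ h) (hy : |y| ≤ y0)
    (hz : z ^ 2 = inner ℝ u (X - a) ^ 2 + inner ℝ u (Y - b) ^ 2) :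
    2 * y * z + (1 - 4 * h) * nuv v a b - b0 * y ^ 2 ≤ QZ v a b X Y - 2 * dnu v a b T X Y := by
  -- reduction to `0 ≤ y`
  have key : ∀ y z : ℝ, 0 ≤ y → y ≤ y0 → z ^ 2 = inner ℝ u (X - a) ^ 2 + inner ℝ u (Y - b) ^ 2 →
      2 * y * z + (1 - 4 * h) * nuv v a b - b0 * y ^ 2 ≤
        QZ v a b X Y - 2 * dnu v a b T X Y := by
    intro y z h0 hy hz
    obtain ⟨c1, c2, hc, hcz⟩ : ∃ c1 c2 : ℝ, c1 ^ 2 + c2 ^ 2 = 1 ∧
        c1 * inner ℝ u (X - a) + c2 * inner ℝ u (Y - b) = z := by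
      rcases eq_or_ne z 0 with h0 | h0
      · refine ⟨1, 0, by norm_num, ?_⟩
        rw [h0] at hz
        have : (inner ℝ u (X - a) : ℝ) = 0 := by
          have h1 : (inner ℝ u (X - a) : ℝ) ^ 2 = 0 := by
            nlinarith [sq_nonneg (inner ℝ u (X - a) : ℝ), sq_nonneg (inner ℝ u (Y - b) : ℝ)]
          exact pow_eq_zero_iff (two_ne_zero) |>.1 h1
        rw [this, h0]
        ring
      · refine ⟨inner ℝ u (X - a) / z, inner ℝ u (Y - b) / z, ?_, ?_⟩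
        · field_simp
          linarith
        · field_simp
          linarith
    have h1 := vm_ring hg (X := X) (Y := Y) (a := a) (b := b) hv hu hT hh h0 hy hc hcz
    have hc1 : |c1| ≤ 1 := by
      rw [← sq_le_one_iff_abs_le_one]; nlinarith [sq_nonneg c2]
    have hc2 : |c2| ≤ 1 := by
      rw [← sq_le_one_iff_abs_le_one]; nlinarith [sq_nonneg c1]
    have hn : ∀ c : ℝ, |c| ≤ 1 → ‖y • (c • u)‖ ≤ 2 := by
      intro c hc
      rw [norm_smul, norm_smul, hu, mul_one, Real.norm_eq_abs, Real.norm_eq_abs, abs_of_nonneg h0]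
      nlinarith [abs_nonneg c]
    have h2 := QZ_ge v a b X Y (hn c1 hc1) (hn c2 hc2)
    linarith
  rcases le_total 0 y with h0 | h0
  · exact key y z h0 (by rwa [abs_of_nonneg h0] at hy) hz
  · have h1 := key (-y) (-z) (by linarith) (by rwa [abs_of_nonpos h0] at hy) (by rw [neg_sq, hz])
    nlinarith [h1]

end Pool.Agent.FPX.AZV
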