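import Mathlib
import Pool.Agent.FPX.Defs
import Pool.Agent.FPX.VEC

/-
CRT: the pointwise criterion for the inequality (EX**). `Qf v a b A B ≥ 0` at a point, where
`a, b` are the derivatives of the map `v` into the sphere and `A, B` the derivatives of `Θ`.
For rotationally symmetric projections `v = Π(Θ)` the form splits into two copies of a form in three
variables (`crit_rot`).
-/

open MeasureTheory Set Filter Topology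
open scoped ENNReal NNReal

noncomputable section

namespace Pool.Agent.FPX

open Pool.Agent.EWD

/-- the pointwise form of (EX**), with the Jacobian `⟨v, b × a⟩` -/
def Qf (v a b A B : E3) : ℝ :=
  3 * inner ℝ v (crs b a) - 3 / 2 * (‖a‖ ^ 2 + ‖b‖ ^ 2)
    + (‖A - (inner ℝ v A : ℝ) • v - crs v b‖ ^ 2 + ‖B - (inner ℝ v B : ℝ) • v + crs v a‖ ^ 2)
    + 3 / 2 * (inner ℝ v A ^ 2 + inner ℝ v B ^ 2)

/-- the form in three variables -/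
def CQ3 (p₁ p₂ l x y z : ℝ) : ℝ :=
  (1 - p₁ ^ 2 / 2) * x ^ 2 + (1 - p₂ ^ 2 / 2) * y ^ 2 + (3 / 2 - l ^ 2 / 2) * z ^ 2
    + (3 * p₁ * p₂ - 2 * p₁ - 2 * p₂) * x * y - p₁ * l * x * z + (3 * p₂ * l - 2 * l) * y * z

theorem inner_add3 (x a b : E3) : inner ℝ x (a + b) = (inner ℝ x a + inner ℝ x b : ℝ) :=
  inner_add_right x a b

/-- Parseval in the frame `e₁, e₂, e₁ × e₂` -/
theorem crt_parseval {e₁ e₂ : E3} (h1 : inner ℝ e₁ e₁ = (1 : ℝ)) (h2 : inner ℝ e₂ e₂ = (1 : ℝ))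
    (h12 : inner ℝ e₁ e₂ = (0 : ℝ)) (X : E3) :
    ‖X‖ ^ 2 = inner ℝ e₁ X ^ 2 + inner ℝ e₂ X ^ 2 + inner ℝ (crs e₁ e₂) X ^ 2 := by
  rw [decomp h1 h2 h12 X, real_inner_comm (crs e₁ e₂) X]

theorem crs_frame₁ {e₁ e₂ : E3} (h1 : inner ℝ e₁ e₁ = (1 : ℝ))
    (h12 : inner ℝ e₁ e₂ = (0 : ℝ)) (X : E3) :
    inner ℝ e₁ (crs (crs e₁ e₂) X) = -(inner ℝ e₂ X : ℝ) := by
  have : inner ℝ e₁ (crs (crs e₁ e₂) X) = (inner ℝ e₁ e₂ * inner ℝ e₁ X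
      - inner ℝ e₁ e₁ * inner ℝ e₂ X : ℝ) := by
    simp only [inner3, crs0, crs1, crs2]
    ring
  rw [this, h12, h1]
  ring

theorem crs_frame₂ {e₁ e₂ : E3} (h2 : inner ℝ e₂ e₂ = (1 : ℝ))
    (h12 : inner ℝ e₁ e₂ = (0 : ℝ)) (X : E3) :
    inner ℝ e₂ (crs (crs e₁ e₂) X) = (inner ℝ e₁ X : ℝ) := by
  have : inner ℝ e₂ (crs (crs e₁ e₂) X) = (inner ℝ e₂ e₂ * inner ℝ e₁ X
      - inner ℝ e₁ e₂ * inner ℝ e₂ X : ℝ) := by
    simp only [inner3, crs0, crs1, crs2]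
    ring
  rw [this, h12, h2]
  ring

/-- the form in the frame -/
theorem Qf_frame {e₁ e₂ : E3} (h1 : inner ℝ e₁ e₁ = (1 : ℝ)) (h2 : inner ℝ e₂ e₂ = (1 : ℝ))
    (h12 : inner ℝ e₁ e₂ = (0 : ℝ)) {a b : E3} (ha : inner ℝ (crs e₁ e₂) a = (0 : ℝ))
    (hb : inner ℝ (crs e₁ e₂) b = (0 : ℝ)) (A B : E3) :
    Qf (crs e₁ e₂) a b A B =
      3 * (inner ℝ e₁ b * inner ℝ e₂ a - inner ℝ e₂ b * inner ℝ e₁ a)
      - 3 / 2 * (inner ℝ e₁ a ^ 2 + inner ℝ e₂ a ^ 2 + (inner ℝ e₁ b ^ 2 + inner ℝ e₂ b ^ 2))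
      + ((inner ℝ e₁ A + inner ℝ e₂ b) ^ 2 + (inner ℝ e₂ A - inner ℝ e₁ b) ^ 2
        + ((inner ℝ e₁ B - inner ℝ e₂ a) ^ 2 + (inner ℝ e₂ B + inner ℝ e₁ a) ^ 2))
      + 3 / 2 * (inner ℝ (crs e₁ e₂) A ^ 2 + inner ℝ (crs e₁ e₂) B ^ 2) := by
  have hv : inner ℝ (crs e₁ e₂) (crs e₁ e₂) = (1 : ℝ) := by
    rw [real_inner_self_eq_norm_sq, norm_crs_one h1 h2 h12]
    norm_num
  have n1 : inner ℝ e₁ (crs e₁ e₂) = (0 : ℝ) := inner_crs_left _ _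
  have n2 : inner ℝ e₂ (crs e₁ e₂) = (0 : ℝ) := inner_crs_right _ _
  have n3 : ∀ X : E3, inner ℝ (crs e₁ e₂) (crs (crs e₁ e₂) X) = (0 : ℝ) :=
    fun X => inner_crs_left _ _
  unfold Qf
  rw [crt_parseval h1 h2 h12 a, crt_parseval h1 h2 h12 b, ha, hb,
    crt_parseval h1 h2 h12 (A - (inner ℝ (crs e₁ e₂) A : ℝ) • crs e₁ e₂ - crs (crs e₁ e₂) b),
    crt_parseval h1 h2 h12 (B - (inner ℝ (crs e₁ e₂) B : ℝ) • crs e₁ e₂ + crs (crs e₁ e₂) a)]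
  have hJ : inner ℝ (crs e₁ e₂) (crs b a) = (inner ℝ e₁ b * inner ℝ e₂ a
      - inner ℝ e₂ b * inner ℝ e₁ a : ℝ) := by
    rw [← binet]
  rw [hJ]
  simp only [inner_sub_right, inner_add_right, inner_smul_right, crs_frame₁ h1 h12,
    crs_frame₂ h2 h12, n1, n2, n3, hv]
  ring

/-- **The criterion for rotationally symmetric projections.** -/
theorem crit_rot {e₁ e₂ : E3} (h1 : inner ℝ e₁ e₁ = (1 : ℝ)) (h2 : inner ℝ e₂ e₂ = (1 : ℝ))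
    (h12 : inner ℝ e₁ e₂ = (0 : ℝ)) {p₁ p₂ l : ℝ} (hM : ∀ x y z : ℝ, 0 ≤ CQ3 p₁ p₂ l x y z)
    {a b A B : E3}
    (ha : a = (p₁ * inner ℝ e₁ A + l * inner ℝ (crs e₁ e₂) A) • e₁ + (p₂ * inner ℝ e₂ A) • e₂)
    (hb : b = (p₁ * inner ℝ e₁ B + l * inner ℝ (crs e₁ e₂) B) • e₁ + (p₂ * inner ℝ e₂ B) • e₂) :
    0 ≤ Qf (crs e₁ e₂) a b A B := by
  have n1 : inner ℝ (crs e₁ e₂) e₁ = (0 : ℝ) := by rw [real_inner_comm]; exact inner_crs_left _ _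
  have n2 : inner ℝ (crs e₁ e₂) e₂ = (0 : ℝ) := by rw [real_inner_comm]; exact inner_crs_right _ _
  have h21 : inner ℝ e₂ e₁ = (0 : ℝ) := by rw [real_inner_comm]; exact h12
  have ha3 : inner ℝ (crs e₁ e₂) a = (0 : ℝ) := by
    rw [ha, inner_add_right, inner_smul_right, inner_smul_right, n1, n2]
    ring
  have hb3 : inner ℝ (crs e₁ e₂) b = (0 : ℝ) := by
    rw [hb, inner_add_right, inner_smul_right, inner_smul_right, n1, n2]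
    ring
  have a1 : inner ℝ e₁ a = (p₁ * inner ℝ e₁ A + l * inner ℝ (crs e₁ e₂) A : ℝ) := by
    rw [ha, inner_add_right, inner_smul_right, inner_smul_right, h1, h12]
    ring
  have a2 : inner ℝ e₂ a = (p₂ * inner ℝ e₂ A : ℝ) := by
    rw [ha, inner_add_right, inner_smul_right, inner_smul_right, h21, h2]
    ring
  have b1 : inner ℝ e₁ b = (p₁ * inner ℝ e₁ B + l * inner ℝ (crs e₁ e₂) B : ℝ) := by
    rw [hb, inner_add_right, inner_smul_right, inner_smul_right, h1, h12]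
    ring
  have b2 : inner ℝ e₂ b = (p₂ * inner ℝ e₂ B : ℝ) := by
    rw [hb, inner_add_right, inner_smul_right, inner_smul_right, h21, h2]
    ring
  rw [Qf_frame h1 h2 h12 ha3 hb3, a1, a2, b1, b2]
  have q1 := hM (inner ℝ e₁ A) (-inner ℝ e₂ B) (inner ℝ (crs e₁ e₂) A)
  have q2 := hM (inner ℝ e₁ B) (inner ℝ e₂ A) (inner ℝ (crs e₁ e₂) B)
  refine le_of_le_of_eq (add_nonneg q1 q2) ?_
  unfold CQ3
  ring

/-- the radial projection: `p₁ = p₂ = 1 / R`, `l = 0` -/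
theorem CQ3_radial {R : ℝ} (hR : √3 - 1 ≤ R) (x y z : ℝ) : 0 ≤ CQ3 (1 / R) (1 / R) 0 x y z := by
  have h3 : (1.7 : ℝ) < √3 := by
    rw [show (1.7 : ℝ) = √(1.7 ^ 2) by rw [Real.sqrt_sq (by norm_num)]]
    exact Real.sqrt_lt_sqrt (by norm_num) (by norm_num)
  have hR0 : 0 < R := by linarith
  have hs : √3 ^ 2 = 3 := Real.sq_sqrt (by norm_num)
  have hR2 : 0 ≤ R ^ 2 + 2 * R - 2 := by nlinarith
  have e : CQ3 (1 / R) (1 / R) 0 x y z =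
      ((R ^ 2 - 1 / 2) * (x ^ 2 + y ^ 2) + (3 - 4 * R) * (x * y)) / R ^ 2 + 3 / 2 * z ^ 2 := by
    unfold CQ3
    field_simp
    ring
  rw [e]
  refine add_nonneg (div_nonneg ?_ (sq_nonneg R)) (by positivity)
  -- `(R² - 1/2)(x² + y²) + (3 - 4R) x y`, eigenvalues `R² + 1 - 2R` and `R² - 2 + 2R` (halved sums)
  have e2 : (R ^ 2 - 1 / 2) * (x ^ 2 + y ^ 2) + (3 - 4 * R) * (x * y)
      = (R - 1) ^ 2 / 2 * (x + y) ^ 2 + (R ^ 2 + 2 * R - 2) / 2 * (x - y) ^ 2 := by ring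
  rw [e2]
  have := sq_nonneg (R - 1)
  positivity

/-- the vertical projection: `p₁ = p₂ = 1`, `l = k` with `k² ≤ 3 / 2` -/
theorem CQ3_vertical {k : ℝ} (hk : k ^ 2 ≤ 3 / 2) (x y z : ℝ) : 0 ≤ CQ3 1 1 k x y z := by
  have e : CQ3 1 1 k x y z = 1 / 2 * (x - y - k * z) ^ 2 + (3 / 2 - k ^ 2) * z ^ 2 := by
    unfold CQ3
    ring
  rw [e]
  have : 0 ≤ 3 / 2 - k ^ 2 := by linarith
  positivity

/-- from the pointwise form to the integrand of (EX**) -/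
theorem integrand_le {v a b A B : E3} (h : 0 ≤ Qf v a b A B) :
    3 + (3 / 2) * (‖a‖ ^ 2 + ‖b‖ ^ 2)
      - (‖A - (inner ℝ v A : ℝ) • v - crs v b‖ ^ 2 + ‖B - (inner ℝ v B : ℝ) • v + crs v a‖ ^ 2)
      - (3 / 2) * (inner ℝ v A ^ 2 + inner ℝ v B ^ 2) ≤ 3 + 3 * inner ℝ v (crs b a) := by
  unfold Qf at h
  linarith

end Pool.Agent.FPX
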