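import Mathlib
import Pool.Agent.FPX.KPW
import Pool.Agent.FPX.CRT

/-
MDQ (helper89): pointwise inequalities of the modulus closing. `v` is a unit vector, `a`, `b` its
derivatives, `A`, `B` the derivatives of the field `T`, `h = ‖T - v‖`, `u` a unit vector with
`T - v = h u`, `p` the constant multiplier of the first variation of `ν`, `τ = 1 + δ`.
`mdq_base`: the exact form of `Q_τ - p dν[T]` without the conformal part.
`MD v a b A B T p q`: for some `τ > 0`, `q ≤ Q_τ - p dν[T]`.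
`mdq_iso`: `q = kl |dη|² + (S - (2 - p + δ)² / (1 - kl + δ)) ν - 3 δ - 2 p h ν`.
`mdq_dir`: `q = (1 - ε) |dh|² + (1 - d) (|dη|² - |dh|²) + k ν - 3 δ - 2 p h ν`, for all directions `u`,
as soon as one cubic inequality in `c ∈ [-1, 1]` holds.
For `δ = 0` and energy less than one, `P(e)` can be added.
-/

open MeasureTheory Set Filter Topology
open scoped ENNReal NNReal

noncomputable section

namespace Pool.Agent.FPX

open Pool.Agent.EWD

/-! ### the frame -/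

section frame

variable {v e : E3}

private theorem MDQ_inner (hv : ‖v‖ = 1) (he : inner ℝ e e = (1 : ℝ)) (hve : inner ℝ v e = (0 : ℝ))
    (X Y : E3) : (inner ℝ X Y : ℝ) = inner ℝ v X * inner ℝ v Y + inner ℝ e X * inner ℝ e Y +
      inner ℝ (crs v e) X * inner ℝ (crs v e) Y := by
  have hvv := inner_self_one hv
  have h1 := crt_parseval hvv he hve (X + Y)
  have h2 := crt_parseval hvv he hve X
  have h3 := crt_parseval hvv he hve Y
  rw [norm_add_sq_real, inner_add_right, inner_add_right, inner_add_right] at h1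
  nlinarith

private theorem MDQ_crs1 (X : E3) : (inner ℝ e (crs v X) : ℝ) = -inner ℝ (crs v e) X := by
  simp only [inner3, crs0, crs1, crs2]
  ring

private theorem MDQ_crs2 (hv : ‖v‖ = 1) (hve : inner ℝ v e = (0 : ℝ)) (X : E3) :
    (inner ℝ (crs v e) (crs v X) : ℝ) = inner ℝ e X := by
  have : (inner ℝ (crs v e) (crs v X) : ℝ) = inner ℝ v v * inner ℝ e X - inner ℝ v e * inner ℝ v X := by
    simp only [inner3, crs0, crs1, crs2]
    ring
  rw [this, inner_self_one hv, hve]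
  ring

private theorem MDQ_qe (hve : inner ℝ v e = (0 : ℝ)) (X Y : E3) :
    (inner ℝ e (qm v X Y) : ℝ) = (inner ℝ e X + inner ℝ (crs v e) Y) / 2 := by
  unfold qm prj
  rw [inner_smul_right, inner_sub_right, inner_sub_right, inner_smul_right, MDQ_crs1,
    real_inner_comm v e, hve]
  ring

private theorem MDQ_qf (hv : ‖v‖ = 1) (hve : inner ℝ v e = (0 : ℝ)) (X Y : E3) :
    (inner ℝ (crs v e) (qm v X Y) : ℝ) = (inner ℝ (crs v e) X - inner ℝ e Y) / 2 := by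
  unfold qm prj
  rw [inner_smul_right, inner_sub_right, inner_sub_right, inner_smul_right, MDQ_crs2 hv hve,
    real_inner_comm v (crs v e), inner_crs_left]
  ring

theorem mdq_perp {v : E3} (hv : ‖v‖ = 1) (X Y : E3) : inner ℝ v (qm v X Y) = (0 : ℝ) := by
  unfold qm
  rw [inner_smul_right, inner_sub_right, prj_perp hv, inner_crs_left]
  ring

/-- a unit vector in the plane of `v` and `u` -/
theorem mdq_frame {v u : E3} (hv : ‖v‖ = 1) (hu : ‖u‖ = 1) : ∃ (e : E3) (s c : ℝ),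
    inner ℝ e e = (1 : ℝ) ∧ inner ℝ v e = (0 : ℝ) ∧ s ^ 2 + c ^ 2 = 1 ∧ c = -inner ℝ v u ∧
      u = s • e - c • v := by
  have hvv := inner_self_one hv
  have huu := inner_self_one hu
  by_cases h : prj v u = 0
  · obtain ⟨e, h1, h2⟩ := exists_perp1 v
    refine ⟨e, 0, -inner ℝ v u, h1, h2, ?_, rfl, ?_⟩
    · have h3 := norm_prj_sq hv u
      rw [h, norm_zero, hu] at h3
      nlinarith
    · unfold prj at h
      rw [zero_smul, zero_sub, neg_smul, neg_neg]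
      exact sub_eq_zero.1 h
  · have hn : 0 < ‖prj v u‖ := norm_pos_iff.2 h
    refine ⟨(1 / ‖prj v u‖) • prj v u, ‖prj v u‖, -inner ℝ v u, ?_, ?_, ?_, rfl, ?_⟩
    · rw [inner_smul_left, inner_smul_right, real_inner_self_eq_norm_sq]
      simp only [map_div₀, map_one, conj_trivial]
      field_simp
    · rw [inner_smul_right, prj_perp hv, mul_zero]
    · have h3 := norm_prj_sq hv u
      rw [hu] at h3
      nlinarith
    · rw [smul_smul, mul_one_div, div_self hn.ne', one_smul, neg_smul, sub_neg_eq_add]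
      unfold prj
      abel

end frame

/-! ### the scalar form -/

/-- the numerator of the reduced form -/
def mdN (ε d ω c : ℝ) : ℝ := ε * d + ω * (ε * (1 - c ^ 2) + d * c ^ 2)

/-- the coefficient of the square of the normal derivative -/
def mdD (ε d ω c : ℝ) : ℝ := ε * c ^ 2 + d * (1 - c ^ 2) + ω

/-- the form in four variables -/
theorem mdq_scal {ε d ω δ z K c s : ℝ} (hε : 0 ≤ ε) (hd : 0 < d) (hω : 0 < ω) (hδ : 0 ≤ δ)
    (hK : 0 ≤ K) (hcs : s ^ 2 + c ^ 2 = 1)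
    (hc : z ^ 2 * (mdN ε d ω c + d * mdD ε d ω c) ≤
      K * (δ / 2 * (mdN ε d ω c + d * mdD ε d ω c) + d * mdN ε d ω c)) (x w y b : ℝ) :
    0 ≤ ε * (s * x - c * w) ^ 2 + d * (c * x + s * w) ^ 2 + d * y ^ 2 + ω * w ^ 2 +
      δ / 2 * (x + y) ^ 2 + 2 * z * (b * (x + y)) + K * b ^ 2 := by
  have hs : 1 - c ^ 2 = s ^ 2 := by linarith
  have hc1 : c ^ 2 ≤ 1 := by nlinarith [sq_nonneg s]
  set N := mdN ε d ω c with hN
  set D := mdD ε d ω c with hD
  have hN' : N = ε * d + ω * (ε * s ^ 2 + d * c ^ 2) := by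
    rw [hN]
    unfold mdN
    rw [hs]
  have hD' : D = ε * c ^ 2 + d * s ^ 2 + ω := by
    rw [hD]
    unfold mdD
    rw [hs]
  have hD0 : 0 < D := by
    rw [hD']
    positivity
  have hN0 : 0 ≤ N := by
    rw [hN']
    positivity
  have hM0 : 0 < N + d * D := by positivity
  set q := ε * (s * x - c * w) ^ 2 + d * (c * x + s * w) ^ 2 + ω * w ^ 2 with hq
  have e1 : D * q - N * x ^ 2 = (D * w + (d - ε) * (c * s) * x) ^ 2 := by
    rw [hq, hD', hN']
    have h4 : s ^ 2 = 1 - c ^ 2 := by linarith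
    have h5 : s ^ 4 = (1 - c ^ 2) ^ 2 := by
      rw [← h4]
      ring
    ring_nf
    rw [h5, h4]
    ring
  have h1 : N * x ^ 2 ≤ D * q := by nlinarith [sq_nonneg (D * w + (d - ε) * (c * s) * x)]
  have h2 : N * (d * D) * (x + y) ^ 2 ≤ (N + d * D) * (N * x ^ 2 + d * D * y ^ 2) := by
    nlinarith [sq_nonneg (N * x - d * D * y)]
  have h3 : (N + d * D) * (N * x ^ 2 + d * D * y ^ 2) ≤ (N + d * D) * (D * (q + d * y ^ 2)) := by
    refine mul_le_mul_of_nonneg_left ?_ hM0.le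
    nlinarith
  have h4 : N * d * (x + y) ^ 2 ≤ (N + d * D) * (q + d * y ^ 2) := by
    refine le_of_mul_le_mul_left ?_ hD0
    calc D * (N * d * (x + y) ^ 2) = N * (d * D) * (x + y) ^ 2 := by ring
      _ ≤ _ := h2.trans h3
      _ = D * ((N + d * D) * (q + d * y ^ 2)) := by ring
  set P := δ / 2 * (N + d * D) + d * N with hP
  have hP0 : 0 ≤ P := by positivity
  have h5 : 0 ≤ P * (x + y) ^ 2 + 2 * z * (N + d * D) * (b * (x + y)) + K * (N + d * D) * b ^ 2 := by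
    rcases hP0.eq_or_lt with h0 | h0
    · rw [← h0, mul_zero] at hc
      have hz : z = 0 := by
        have : z ^ 2 ≤ 0 := by
          by_contra hcon
          push Not at hcon
          have := mul_pos hcon hM0
          linarith
        exact pow_eq_zero_iff (two_ne_zero) |>.1 (le_antisymm this (sq_nonneg z))
      rw [hz, ← h0]
      have : 0 ≤ K * (N + d * D) * b ^ 2 := by positivity
      linarith
    · refine (mul_nonneg_iff_of_pos_left h0).1 ?_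
      have e2 : P * (P * (x + y) ^ 2 + 2 * z * (N + d * D) * (b * (x + y)) + K * (N + d * D) * b ^ 2) =
          (P * (x + y) + z * (N + d * D) * b) ^ 2 + (N + d * D) * b ^ 2 * (K * P - z ^ 2 * (N + d * D)) := by
        ring
      rw [e2]
      have : 0 ≤ K * P - z ^ 2 * (N + d * D) := by linarith
      positivity
  refine (mul_nonneg_iff_of_pos_left hM0).1 ?_
  have e3 : (N + d * D) * (ε * (s * x - c * w) ^ 2 + d * (c * x + s * w) ^ 2 + d * y ^ 2 + ω * w ^ 2 +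
      δ / 2 * (x + y) ^ 2 + 2 * z * (b * (x + y)) + K * b ^ 2) = (N + d * D) * (q + d * y ^ 2) +
      (δ / 2 * (N + d * D)) * (x + y) ^ 2 + 2 * z * (N + d * D) * (b * (x + y)) +
      K * (N + d * D) * b ^ 2 := by
    rw [hq]
    ring
  rw [e3]
  have e4 : P * (x + y) ^ 2 = δ / 2 * (N + d * D) * (x + y) ^ 2 + N * d * (x + y) ^ 2 := by
    rw [hP]
    ring
  rw [e4] at h5
  linarith

/-- the form in vectors -/
theorem mdq_vec {v u β : E3} (hv : ‖v‖ = 1) (hu : ‖u‖ = 1) (hβ : inner ℝ v β = (0 : ℝ))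
    {ε d ω δ z K : ℝ} (hε : 0 ≤ ε) (hd : 0 < d) (hω : 0 < ω) (hδ : 0 ≤ δ) (hK : 0 ≤ K)
    (hc : z ^ 2 * (mdN ε d ω (inner ℝ v u) + d * mdD ε d ω (inner ℝ v u)) ≤
      K * (δ / 2 * (mdN ε d ω (inner ℝ v u) + d * mdD ε d ω (inner ℝ v u)) +
        d * mdN ε d ω (inner ℝ v u))) (X Y : E3) :
    (1 - ε) * (inner ℝ u X ^ 2 + inner ℝ u Y ^ 2) + (1 - d) * (‖X‖ ^ 2 + ‖Y‖ ^ 2 -
        (inner ℝ u X ^ 2 + inner ℝ u Y ^ 2)) ≤
      ‖X‖ ^ 2 + ‖Y‖ ^ 2 + ω * (inner ℝ v X ^ 2 + inner ℝ v Y ^ 2) + 2 * δ * ‖qm v X Y‖ ^ 2 +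
        4 * z * inner ℝ β (qm v X Y) + K * ‖β‖ ^ 2 := by
  obtain ⟨e, s, c, he, hve, hcs, hc', hu'⟩ := mdq_frame hv hu
  have hvv := inner_self_one hv
  have hm : ∀ r : ℝ, mdN ε d ω (-r) = mdN ε d ω r ∧ mdD ε d ω (-r) = mdD ε d ω r := fun r => by
    unfold mdN mdD
    constructor <;> ring
  rw [← (hm (inner ℝ v u)).1, ← (hm (inner ℝ v u)).2, ← hc'] at hc
  have n1 := crt_parseval hvv he hve X
  have n2 := crt_parseval hvv he hve Y
  have n3 := crt_parseval hvv he hve (qm v X Y)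
  have n4 := crt_parseval hvv he hve β
  have i1 := MDQ_inner hv he hve β (qm v X Y)
  rw [mdq_perp hv, MDQ_qe hve, MDQ_qf hv hve] at n3 i1
  rw [hβ] at n4 i1
  have g1 : (inner ℝ u X : ℝ) = s * inner ℝ e X - c * inner ℝ v X := by
    rw [hu', inner_sub_left, real_inner_smul_left, real_inner_smul_left]
  have g2 : (inner ℝ u Y : ℝ) = s * inner ℝ e Y - c * inner ℝ v Y := by
    rw [hu', inner_sub_left, real_inner_smul_left, real_inner_smul_left]
  have k1 := mdq_scal hε hd hω hδ hK hcs hc (inner ℝ e X) (inner ℝ v X) (inner ℝ (crs v e) Y)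
    (inner ℝ e β)
  have k2 := mdq_scal hε hd hω hδ hK hcs hc (inner ℝ e Y) (inner ℝ v Y) (-inner ℝ (crs v e) X)
    (-inner ℝ (crs v e) β)
  rw [g1, g2, n1, n2, n3, n4, i1]
  generalize (inner ℝ e X : ℝ) = x1 at *
  generalize (inner ℝ v X : ℝ) = x2 at *
  generalize (inner ℝ (crs v e) X : ℝ) = x3 at *
  generalize (inner ℝ e Y : ℝ) = y1 at *
  generalize (inner ℝ v Y : ℝ) = y2 at *
  generalize (inner ℝ (crs v e) Y : ℝ) = y3 at *
  generalize (inner ℝ e β : ℝ) = b1 at *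
  generalize (inner ℝ (crs v e) β : ℝ) = b2 at *
  have r1 : (c * x1 + s * x2) ^ 2 = x1 ^ 2 + x2 ^ 2 - (s * x1 - c * x2) ^ 2 := by
    linear_combination (x1 ^ 2 + x2 ^ 2) * hcs
  have r2 : (c * y1 + s * y2) ^ 2 = y1 ^ 2 + y2 ^ 2 - (s * y1 - c * y2) ^ 2 := by
    linear_combination (y1 ^ 2 + y2 ^ 2) * hcs
  rw [r1] at k1
  rw [r2] at k2
  have k3 := add_nonneg k1 k2
  refine le_of_sub_nonneg (k3.trans_eq ?_)
  ring

/-! ### the certificates -/

theorem qm_sub (v A B a b : E3) : qm v (A - a) (B - b) = qm v A B - qm v a b := by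
  unfold qm
  rw [prj_sub, crs_sub]
  module

/-- the certificate with `τ = 1 + δ`, without the conformal part -/
theorem mdq_base {v a b : E3} (hv : ‖v‖ = 1) (ha : inner ℝ v a = (0 : ℝ)) (hb : inner ℝ v b = (0 : ℝ))
    (T A B : E3) {δ : ℝ} (hδ : 0 ≤ δ) (p : ℝ) :
    ‖A - a‖ ^ 2 + ‖B - b‖ ^ 2 + (1 / 2 + 3 / 2 * δ) * (inner ℝ v (A - a) ^ 2 + inner ℝ v (B - b) ^ 2) +
        2 * δ * ‖qm v (A - a) (B - b)‖ ^ 2 +
        4 * (2 - p + δ) * inner ℝ (qm v a b) (qm v (A - a) (B - b)) +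
        (1 + δ + δ / (2 * (1 + δ))) * nuv v a b - 3 * δ + 2 * p * inner ℝ v (T - v) * nuv v a b ≤
      Qtau (1 + δ) v a b A B - p * dnu v a b T A B := by
  rw [KP_id hv ha hb T A B (1 + δ) p]
  have h1δ : 0 < 1 + δ := by linarith
  have j1 := jac_pm hv ha hb
  have j2 := norm_pm hv ha hb
  have j3 := norm_pm (X := prj v A) (Y := prj v B) hv (prj_perp hv A) (prj_perp hv B)
  have k2 : qm v (prj v A) (prj v B) = qm v A B := by
    unfold qm
    rw [prj_prj hv, crs_prj]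
  rw [k2] at j3
  have e1 : (inner ℝ v (A - a) : ℝ) = inner ℝ v A := by rw [inner_sub_right, ha, sub_zero]
  have e2 : (inner ℝ v (B - b) : ℝ) = inner ℝ v B := by rw [inner_sub_right, hb, sub_zero]
  have e3 : (inner ℝ v (T - v) : ℝ) = inner ℝ v T - 1 := by
    rw [inner_sub_right, real_inner_self_eq_norm_sq, hv]
    norm_num
  have e4 : qm v A B = qm v a b + qm v (A - a) (B - b) := by
    rw [qm_sub]
    abel
  have j4 : ‖prj v A‖ ^ 2 + ‖prj v B‖ ^ 2 ≥ 2 * ‖qm v a b‖ ^ 2 +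
      4 * inner ℝ (qm v a b) (qm v (A - a) (B - b)) + 2 * ‖qm v (A - a) (B - b)‖ ^ 2 := by
    rw [j3, e4, norm_add_sq_real]
    have : 0 ≤ ‖qp v (prj v A) (prj v B)‖ ^ 2 := by positivity
    linarith
  have j5 := mul_le_mul_of_nonneg_left j4.le hδ
  have j6 : enb a b = ‖qp v a b‖ ^ 2 + ‖qm v a b‖ ^ 2 := by
    unfold enb
    rw [j2]
    ring
  have j7 : (inner ℝ (qm v a b) (qm v A B) : ℝ) = ‖qm v a b‖ ^ 2 +
      inner ℝ (qm v a b) (qm v (A - a) (B - b)) := by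
    rw [e4, inner_add_right, real_inner_self_eq_norm_sq]
  have j8 : ‖qm v a b‖ ^ 2 * (1 - 1 / (1 + δ)) ≤ enb a b * (1 - 1 / (1 + δ)) := by
    have : 0 ≤ 1 - 1 / (1 + δ) := by
      have : 1 / (1 + δ) ≤ 1 := (div_le_one h1δ).2 (by linarith)
      linarith
    refine mul_le_mul_of_nonneg_right ?_ this
    rw [j6]
    nlinarith [sq_nonneg ‖qp v a b‖]
  have j9 : inner ℝ v (crs b a) = enb a b - 2 * ‖qm v a b‖ ^ 2 := by
    rw [j1, j6]
    ring
  have j10 : δ / (2 * (1 + δ)) * (2 * ‖qm v a b‖ ^ 2) = ‖qm v a b‖ ^ 2 * (1 - 1 / (1 + δ)) := by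
    field_simp
    ring
  rw [e1, e2, e3, j7, j9]
  unfold nuv
  have j11 : (1 + δ + δ / (2 * (1 + δ))) * (2 * ‖qm v a b‖ ^ 2) = (1 + δ) * (2 * ‖qm v a b‖ ^ 2) +
      ‖qm v a b‖ ^ 2 * (1 - 1 / (1 + δ)) := by
    rw [← j10]
    ring
  rw [j11]
  have j12 : enb a b / (1 + δ) = enb a b - enb a b * (1 - 1 / (1 + δ)) := by ring
  rw [j12]
  nlinarith

/-- the certificate for small energy -/
theorem mdq_small {v a b A B : E3} (T : E3) (hv : ‖v‖ = 1) (ha : inner ℝ v a = (0 : ℝ))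
    (hb : inner ℝ v b = (0 : ℝ)) (hAB : InW 2 1 A B) (p : ℝ) :
    ‖A - a‖ ^ 2 + ‖B - b‖ ^ 2 + 1 / 4 * (inner ℝ v (A - a) ^ 2 + inner ℝ v (B - b) ^ 2) +
        4 * (2 - p) * inner ℝ (qm v a b) (qm v (A - a) (B - b)) +
        nuv v a b + PE (enb a b) + 2 * p * inner ℝ v (T - v) * nuv v a b ≤
      Qtau (tauE (enb a b)) v a b A B - p * dnu v a b T A B := by
  rw [KP_id hv ha hb T A B (tauE (enb a b)) p]
  have j1 := jac_pm hv ha hb
  have j2 := norm_pm hv ha hb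
  have e1 : (inner ℝ v (A - a) : ℝ) = inner ℝ v A := by rw [inner_sub_right, ha, sub_zero]
  have e2 : (inner ℝ v (B - b) : ℝ) = inner ℝ v B := by rw [inner_sub_right, hb, sub_zero]
  have e3 : (inner ℝ v (T - v) : ℝ) = inner ℝ v T - 1 := by
    rw [inner_sub_right, real_inner_self_eq_norm_sq, hv]
    norm_num
  have e4 : qm v A B = qm v a b + qm v (A - a) (B - b) := by
    rw [qm_sub]
    abel
  have j6 : enb a b = ‖qp v a b‖ ^ 2 + ‖qm v a b‖ ^ 2 := by
    unfold enb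
    rw [j2]
    ring
  have j7 : (inner ℝ (qm v a b) (qm v A B) : ℝ) = ‖qm v a b‖ ^ 2 +
      inner ℝ (qm v a b) (qm v (A - a) (B - b)) := by
    rw [e4, inner_add_right, real_inner_self_eq_norm_sq]
  have j9 : inner ℝ v (crs b a) = enb a b - 2 * ‖qm v a b‖ ^ 2 := by
    rw [j1, j6]
    ring
  rw [e1, e2, e3, j7, j9]
  unfold nuv PE
  have t1 := tauE_ge (enb a b)
  have t2 := tauE_le (enb a b)
  set τ := tauE (enb a b)
  have hSw : ‖prj v A‖ ^ 2 + ‖prj v B‖ ^ 2 + (inner ℝ v A ^ 2 + inner ℝ v B ^ 2) ≤ 2 := by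
    have k := hAB.s
    have k1 := norm_prj_sq hv A
    have k2 := norm_prj_sq hv B
    linarith
  set S := ‖prj v A‖ ^ 2 + ‖prj v B‖ ^ 2
  have w0 : 0 ≤ (inner ℝ v A : ℝ) ^ 2 + inner ℝ v B ^ 2 := by positivity
  set w := (inner ℝ v A : ℝ) ^ 2 + inner ℝ v B ^ 2
  have g2 : (τ - 1) * (2 - w) ≤ (τ - 1) * S := by
    have : S ≤ 2 - w := by linarith
    nlinarith
  have g3 : 0 ≤ (τ / 2 - 1 / 4) * w := mul_nonneg (by linarith) w0
  have g6 : enb a b * (1 - 1 / τ) = enb a b - enb a b / τ := by ring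
  rw [g6]
  nlinarith

/-! ### `p = 2` -/

/-- the credit with `τ = 1 + δ` -/
def psd (δ x : ℝ) : ℝ := (1 + 3 / 2 * (δ / (1 + δ))) * x - 3 * δ

/-- the credit of a list -/
def PSI (l : List ℝ) (x : ℝ) : ℝ := l.foldr (fun δ m => max (psd δ x) m) x

/-- the certificate of a list -/
def QM (l : List ℝ) (v a b A B : E3) : ℝ :=
  l.foldr (fun δ m => max (Qtau (1 + δ) v a b A B) m) (QP (fun _ => 1) v a b A B)

theorem QP_one (v a b A B : E3) : QP (fun _ => 1) v a b A B = Qtau (tauE (enb a b)) v a b A B := by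
  unfold QP tauP
  rw [sub_self, add_zero]

theorem QM_base (l : List ℝ) (v a b A B : E3) :
    Qtau (tauE (enb a b)) v a b A B ≤ QM l v a b A B := by
  induction l with
  | nil => exact (QP_one v a b A B).ge
  | cons δ l ih => exact ih.trans (le_max_right _ _)

theorem QM_mem {l : List ℝ} {δ : ℝ} (h : δ ∈ l) (v a b A B : E3) :
    Qtau (1 + δ) v a b A B ≤ QM l v a b A B := by
  induction l with
  | nil => cases h
  | cons δ' l ih =>
    rcases List.mem_cons.1 h with h | h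
    · rw [h]
      exact le_max_left _ _
    · exact (ih h).trans (le_max_right _ _)

theorem QM_cases (l : List ℝ) (v a b A B : E3) :
    QM l v a b A B = Qtau (tauE (enb a b)) v a b A B ∨ ∃ δ ∈ l, QM l v a b A B = Qtau (1 + δ) v a b A B := by
  induction l with
  | nil => exact Or.inl (QP_one v a b A B)
  | cons δ l ih =>
    rcases le_total (Qtau (1 + δ) v a b A B) (QM l v a b A B) with h | h
    · have e : QM (δ :: l) v a b A B = QM l v a b A B := max_eq_right h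
      rw [e]
      rcases ih with ih | ⟨δ', h1, h2⟩
      · exact Or.inl ih
      · exact Or.inr ⟨δ', List.mem_cons_of_mem _ h1, h2⟩
    · exact Or.inr ⟨δ, List.mem_cons_self, max_eq_left h⟩

/-- the certificate is a lower bound of the pointwise function -/
theorem QM_low {l : List ℝ} (hl : ∀ δ ∈ l, 0 ≤ δ) {v a b : E3} (hv : ‖v‖ = 1)
    (ha : inner ℝ v a = (0 : ℝ)) (hb : inner ℝ v b = (0 : ℝ)) (A B : E3) :
    QLow v a b A B (QM l v a b A B) := by
  rcases QM_cases l v a b A B with h | ⟨δ, h1, h2⟩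
  · rw [h]
    exact QLow_tau hv ha hb A B (by linarith [tauE_ge (enb a b)])
  · rw [h2]
    exact QLow_tau hv ha hb A B (by linarith [hl δ h1])

theorem Qtau_cont (τ : ℝ) :
    Continuous fun q : E3 × E3 × E3 × E3 × E3 => Qtau τ q.1 q.2.1 q.2.2.1 q.2.2.2.1 q.2.2.2.2 := by
  unfold Qtau
  have c1 : Continuous fun q : E3 × E3 × E3 × E3 × E3 => crs q.2.2.1 q.2.1 := kpw_crs (by fun_prop) (by fun_prop)
  have c2 : Continuous fun q : E3 × E3 × E3 × E3 × E3 => crs q.1 q.2.2.1 := kpw_crs (by fun_prop) (by fun_prop)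
  have c3 : Continuous fun q : E3 × E3 × E3 × E3 × E3 => crs q.1 q.2.1 := kpw_crs (by fun_prop) (by fun_prop)
  have c4 : Continuous fun q : E3 × E3 × E3 × E3 × E3 => prj q.1 q.2.2.2.1 := prj_cont (by fun_prop) (by fun_prop)
  have c5 : Continuous fun q : E3 × E3 × E3 × E3 × E3 => prj q.1 q.2.2.2.2 := prj_cont (by fun_prop) (by fun_prop)
  fun_prop

theorem QM_cont (l : List ℝ) :
    Continuous fun q : E3 × E3 × E3 × E3 × E3 => QM l q.1 q.2.1 q.2.2.1 q.2.2.2.1 q.2.2.2.2 := by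
  induction l with
  | nil => exact QP_cont continuous_const fun _ => le_rfl
  | cons δ l ih => exact (Qtau_cont (1 + δ)).max ih

theorem PSI_ge (l : List ℝ) (x : ℝ) : x ≤ PSI l x := by
  induction l with
  | nil => exact le_rfl
  | cons δ l ih => exact ih.trans (le_max_right _ _)

theorem PSI_cases (l : List ℝ) (x : ℝ) : PSI l x = x ∨ ∃ δ ∈ l, PSI l x = psd δ x := by
  induction l with
  | nil => exact Or.inl rfl
  | cons δ l ih =>
    rcases le_total (psd δ x) (PSI l x) with h | h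
    · have e : PSI (δ :: l) x = PSI l x := max_eq_right h
      rw [e]
      rcases ih with ih | ⟨δ', h1, h2⟩
      · exact Or.inl ih
      · exact Or.inr ⟨δ', List.mem_cons_of_mem _ h1, h2⟩
    · exact Or.inr ⟨δ, List.mem_cons_self, max_eq_left h⟩

theorem PSI_cont (l : List ℝ) : Continuous (PSI l) := by
  induction l with
  | nil => exact continuous_id
  | cons δ l ih =>
    have h : Continuous (psd δ) := by
      unfold psd
      fun_prop
    exact h.max ih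

/-- **everywhere**: the full gradient, no credit -/
theorem mdq_all (l : List ℝ) {v a b A B : E3} (T : E3) (hv : ‖v‖ = 1) (ha : inner ℝ v a = (0 : ℝ))
    (hb : inner ℝ v b = (0 : ℝ)) (hAB : InW 2 1 A B) :
    ‖A - a‖ ^ 2 + ‖B - b‖ ^ 2 + (1 - 4 * ‖T - v‖) * nuv v a b + PE (enb a b) ≤
      QM l v a b A B - 2 * dnu v a b T A B := by
  have h1 := mdq_small T hv ha hb hAB 2
  have h2 := QM_base l v a b A B
  have h3 : -‖T - v‖ ≤ (inner ℝ v (T - v) : ℝ) := by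
    have k := abs_real_inner_le_norm v (T - v)
    rw [hv, one_mul] at k
    have := neg_abs_le (inner ℝ v (T - v) : ℝ)
    linarith
  have h4 := mul_le_mul_of_nonneg_right h3 (nuv_nonneg v a b)
  have h5 : 0 ≤ (inner ℝ v (A - a) : ℝ) ^ 2 + inner ℝ v (B - b) ^ 2 := by positivity
  nlinarith

/-- the scalar inequality of the directions -/
theorem mdq_sc {δ h c : ℝ} (h0 : 0 ≤ δ) (h5 : δ ≤ 5) (hh : 1 / 4 ≤ h) (hc : c ^ 2 ≤ 1) :
    δ ^ 2 * (mdN 0 1 (1 / 2 + 3 / 2 * δ) c + 1 * mdD 0 1 (1 / 2 + 3 / 2 * δ) c) ≤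
      (2 * (δ ^ 2 / (1 + δ)) + 8 * h * (1 + c)) *
        (δ / 2 * (mdN 0 1 (1 / 2 + 3 / 2 * δ) c + 1 * mdD 0 1 (1 / 2 + 3 / 2 * δ) c) +
          1 * mdN 0 1 (1 / 2 + 3 / 2 * δ) c) := by
  have h1δ : 0 < 1 + δ := by linarith
  have hc1 : -1 ≤ c := by nlinarith
  have hc2 : c ≤ 1 := by nlinarith
  unfold mdN mdD
  set ω := 1 / 2 + 3 / 2 * δ with hω
  have e1 : (0 : ℝ) * 1 + ω * (0 * (1 - c ^ 2) + 1 * c ^ 2) = ω * c ^ 2 := by ring
  have e2 : (0 : ℝ) * c ^ 2 + 1 * (1 - c ^ 2) + ω = 1 - c ^ 2 + ω := by ring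
  rw [e1, e2]
  have key : δ ^ 2 * (1 - c) * (1 + ω) ≤
      8 * h * (1 + δ) * (δ / 2 * (ω * c ^ 2 + 1 * (1 - c ^ 2 + ω)) + 1 * (ω * c ^ 2)) := by
    have k0 : 0 ≤ δ / 2 * (ω * c ^ 2 + 1 * (1 - c ^ 2 + ω)) + 1 * (ω * c ^ 2) := by
      have : 0 ≤ ω := by rw [hω]; linarith
      have : 0 ≤ 1 - c ^ 2 := by linarith
      positivity
    have k1 : δ ^ 2 * (1 - c) * (1 + ω) ≤
        2 * (1 + δ) * (δ / 2 * (ω * c ^ 2 + 1 * (1 - c ^ 2 + ω)) + 1 * (ω * c ^ 2)) := by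
      rw [hω]
      have d3 : δ ^ 3 ≤ 4 * δ ^ 2 + 20 / 3 * δ + 8 / 3 := by nlinarith [mul_nonneg h0 h0]
      -- the quadratic function of `c`
      have q1 : 0 ≤ 3 / 2 * δ * (1 + δ) + 3 / 2 * δ ^ 2 * (1 + δ) * c +
          (1 + δ) * (3 / 2 * δ ^ 2 + 5 / 2 * δ + 1) * c ^ 2 := by
        have q2 : 0 ≤ 3 / 2 * δ + 3 / 2 * δ ^ 2 * c + (3 / 2 * δ ^ 2 + 5 / 2 * δ + 1) * c ^ 2 := by
          rcases h0.eq_or_lt with h | h
          · rw [← h]
            nlinarith [sq_nonneg c]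
          · have q3 : 0 ≤ 4 * (3 / 2 * δ) * (3 / 2 * δ + 3 / 2 * δ ^ 2 * c +
                (3 / 2 * δ ^ 2 + 5 / 2 * δ + 1) * c ^ 2) := by
              have e : 4 * (3 / 2 * δ) * (3 / 2 * δ + 3 / 2 * δ ^ 2 * c +
                (3 / 2 * δ ^ 2 + 5 / 2 * δ + 1) * c ^ 2) = (3 * δ + 3 / 2 * δ ^ 2 * c) ^ 2 +
                9 / 4 * δ * (4 * δ ^ 2 + 20 / 3 * δ + 8 / 3 - δ ^ 3) * c ^ 2 := by ring
              rw [e]
              have : 0 ≤ 4 * δ ^ 2 + 20 / 3 * δ + 8 / 3 - δ ^ 3 := by linarith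
              positivity
            exact (mul_nonneg_iff_of_pos_left (by positivity)).1 q3
        have : 3 / 2 * δ * (1 + δ) + 3 / 2 * δ ^ 2 * (1 + δ) * c +
          (1 + δ) * (3 / 2 * δ ^ 2 + 5 / 2 * δ + 1) * c ^ 2 = (1 + δ) * (3 / 2 * δ + 3 / 2 * δ ^ 2 * c +
            (3 / 2 * δ ^ 2 + 5 / 2 * δ + 1) * c ^ 2) := by ring
        rw [this]
        exact mul_nonneg h1δ.le q2
      refine le_of_sub_nonneg (q1.trans_eq ?_)
      ring
    refine k1.trans ?_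
    have : 2 * (1 + δ) ≤ 8 * h * (1 + δ) := mul_le_mul_of_nonneg_right (by linarith) h1δ.le
    exact mul_le_mul_of_nonneg_right this k0
  have key2 := mul_le_mul_of_nonneg_left key (show (0 : ℝ) ≤ 1 + c by linarith)
  have e3 : 2 * (δ ^ 2 / (1 + δ)) = 2 * δ ^ 2 / (1 + δ) := by ring
  refine le_of_mul_le_mul_left ?_ h1δ
  have e4 : (1 + δ) * ((2 * (δ ^ 2 / (1 + δ)) + 8 * h * (1 + c)) *
      (δ / 2 * (ω * c ^ 2 + 1 * (1 - c ^ 2 + ω)) + 1 * (ω * c ^ 2))) =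
      (2 * δ ^ 2 + 8 * h * (1 + c) * (1 + δ)) *
      (δ / 2 * (ω * c ^ 2 + 1 * (1 - c ^ 2 + ω)) + 1 * (ω * c ^ 2)) := by
    rw [e3]
    field_simp
  rw [e4]
  nlinarith

/-- one `τ = 1 + δ`: the radial derivative with coefficient one, all directions -/
theorem mdq_dir {v a b T u : E3} (A B : E3) {δ h : ℝ} (hv : ‖v‖ = 1) (ha : inner ℝ v a = (0 : ℝ))
    (hb : inner ℝ v b = (0 : ℝ)) (hu : ‖u‖ = 1) (hT : T - v = h • u) (hh : 1 / 4 ≤ h)
    (h0 : 0 ≤ δ) (h5 : δ ≤ 5) :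
    inner ℝ u (A - a) ^ 2 + inner ℝ u (B - b) ^ 2 + psd δ (nuv v a b) - 4 * h * nuv v a b ≤
      Qtau (1 + δ) v a b A B - 2 * dnu v a b T A B := by
  have h1δ : 0 < 1 + δ := by linarith
  have hc : (inner ℝ v u : ℝ) ^ 2 ≤ 1 := by
    have k := abs_real_inner_le_norm v u
    rw [hv, hu, one_mul] at k
    nlinarith [abs_nonneg (inner ℝ v u : ℝ), sq_abs (inner ℝ v u : ℝ)]
  have hc1 : -1 ≤ (inner ℝ v u : ℝ) := by nlinarith
  have hβ := mdq_perp hv a b
  have hsc := mdq_sc h0 h5 hh hc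
  have k1 := mdq_vec hv hu hβ le_rfl one_pos (show (0 : ℝ) < 1 / 2 + 3 / 2 * δ by linarith) h0
    (K := 2 * (δ ^ 2 / (1 + δ)) + 8 * h * (1 + inner ℝ v u))
    (by have : 0 ≤ 8 * h * (1 + (inner ℝ v u : ℝ)) := by
          have := mul_nonneg (show (0 : ℝ) ≤ 8 * h by linarith) (show (0 : ℝ) ≤ 1 + inner ℝ v u by linarith)
          exact this
        positivity) hsc (A - a) (B - b)
  have k2 := mdq_base hv ha hb T A B h0 2
  have e1 : (inner ℝ v (T - v) : ℝ) = h * inner ℝ v u := by rw [hT, inner_smul_right]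
  rw [e1] at k2
  have e2 : (2 : ℝ) - 2 + δ = δ := by ring
  rw [e2] at k2
  have e3 : (2 * (δ ^ 2 / (1 + δ)) + 8 * h * (1 + inner ℝ v u)) * ‖qm v a b‖ ^ 2 =
      (δ ^ 2 / (1 + δ) + 4 * h * (1 + inner ℝ v u)) * nuv v a b := by
    unfold nuv
    ring
  rw [e3] at k1
  have e4 : 1 + δ + δ / (2 * (1 + δ)) - δ ^ 2 / (1 + δ) = 1 + 3 / 2 * (δ / (1 + δ)) := by
    field_simp
    ring
  unfold psd
  rw [← e4]
  nlinarith

theorem G_le_E {u : E3} (hu : ‖u‖ = 1) (X Y : E3) :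
    (inner ℝ u X : ℝ) ^ 2 + inner ℝ u Y ^ 2 ≤ ‖X‖ ^ 2 + ‖Y‖ ^ 2 := by
  have h1 := norm_prj_sq hu X
  have h2 := norm_prj_sq hu Y
  nlinarith [sq_nonneg ‖prj u X‖, sq_nonneg ‖prj u Y‖]

theorem PE_one {e : ℝ} (h : 1 ≤ e) : PE e = 0 := by
  unfold PE
  rw [tauE_one h]
  norm_num

theorem nuv_le_enb {v a b : E3} (hv : ‖v‖ = 1) (ha : inner ℝ v a = (0 : ℝ))
    (hb : inner ℝ v b = (0 : ℝ)) : nuv v a b ≤ 2 * enb a b := by
  have j2 := norm_pm hv ha hb
  unfold nuv enb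
  rw [j2]
  nlinarith [sq_nonneg ‖qp v a b‖]

/-- **on `{h ≥ 1/4}`**: the radial derivative and the full credit -/
theorem mdq_rad {l : List ℝ} (hl : ∀ δ ∈ l, 0 ≤ δ ∧ δ ≤ 5) {v a b A B T u : E3} {h : ℝ}
    (hv : ‖v‖ = 1) (ha : inner ℝ v a = (0 : ℝ)) (hb : inner ℝ v b = (0 : ℝ)) (hAB : InW 2 1 A B)
    (hu : ‖u‖ = 1) (hT : T - v = h • u) (hh : 1 / 4 ≤ h) :
    inner ℝ u (A - a) ^ 2 + inner ℝ u (B - b) ^ 2 + PSI l (nuv v a b) - 4 * h * nuv v a b +
        PE (enb a b) ≤ QM l v a b A B - 2 * dnu v a b T A B := by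
  have hn : ‖T - v‖ = h := by
    rw [hT, norm_smul, hu, mul_one, Real.norm_eq_abs, abs_of_nonneg (by linarith)]
  have k1 := mdq_all l T hv ha hb hAB
  rw [hn] at k1
  have k2 := G_le_E hu (A - a) (B - b)
  rcases PSI_cases l (nuv v a b) with h1 | ⟨δ, h1, h2⟩
  · rw [h1]
    linarith
  · rw [h2]
    obtain ⟨d1, d2⟩ := hl δ h1
    by_cases he : 1 ≤ enb a b
    · rw [PE_one he]
      have k3 := mdq_dir A B hv ha hb hu hT hh d1 d2
      have k4 := QM_mem h1 v a b A B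
      linarith
    · push Not at he
      have k5 := nuv_le_enb hv ha hb
      have h1δ : 0 < 1 + δ := by linarith
      have k6 : psd δ (nuv v a b) ≤ nuv v a b := by
        have e : psd δ (nuv v a b) = nuv v a b - 3 / 2 * δ / (1 + δ) * (2 * (1 + δ) - nuv v a b) := by
          unfold psd
          field_simp
          ring
        rw [e]
        have : 0 ≤ 3 / 2 * δ / (1 + δ) * (2 * (1 + δ) - nuv v a b) :=
          mul_nonneg (by positivity) (by linarith)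
        linarith
      linarith

/-- **the modulus form**: `r` is the coefficient of the part of the gradient which is left -/
theorem mdq_core {l : List ℝ} (hl : ∀ δ ∈ l, 0 ≤ δ ∧ δ ≤ 5) {v a b A B T u : E3} {h r : ℝ}
    (hv : ‖v‖ = 1) (ha : inner ℝ v a = (0 : ℝ)) (hb : inner ℝ v b = (0 : ℝ)) (hAB : InW 2 1 A B)
    (hu : ‖u‖ = 1) (hT : T - v = h • u) (hh : 1 / 4 ≤ h) (r0 : 0 ≤ r) (r1 : r ≤ 1) :
    inner ℝ u (A - a) ^ 2 + inner ℝ u (B - b) ^ 2 +
        r * (‖A - a‖ ^ 2 + ‖B - b‖ ^ 2 - (inner ℝ u (A - a) ^ 2 + inner ℝ u (B - b) ^ 2)) +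
        (1 - r) * PSI l (nuv v a b) + r * nuv v a b - 4 * h * nuv v a b + PE (enb a b) ≤
      QM l v a b A B - 2 * dnu v a b T A B := by
  have hn : ‖T - v‖ = h := by
    rw [hT, norm_smul, hu, mul_one, Real.norm_eq_abs, abs_of_nonneg (by linarith)]
  have k1 := mdq_all l T hv ha hb hAB
  rw [hn] at k1
  have k2 := mdq_rad hl hv ha hb hAB hu hT hh
  have k3 := mul_le_mul_of_nonneg_left k1 r0
  have k4 := mul_le_mul_of_nonneg_left k2 (show 0 ≤ 1 - r by linarith)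
  nlinarith

end Pool.Agent.FPX
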