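import Mathlib
import Pool.Agent.FPX.MDQ
import Pool.Agent.FPX.TRS
import Pool.Agent.FPX.KIN

/-
MDR (helper89): the pointwise inequalities of the modulus closing on the surface. `ρ = |T - v|` is
`umod (eta v T)`.
`ae_mod`: for a.e. `o` the vectors `at' T - at' v`, `dx T - dx v`, `dy T - dy v` in terms of `ρ`,
`gn C ρ` and `Gη`.
`mod_all`, `mod_core`: `mdq_all` and `mdq_core` on the surface.
-/

open MeasureTheory Set Filter Topology
open scoped ENNReal NNReal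

noncomputable section

namespace Pool.Agent.FPX

open Pool.Agent.EWD Pool.Agent.FPM

variable {M : Type} [MetricSpace M] {γ : ℝ → M}

/-- the field `T - v` -/
def eta (v T : Fin 3 → M → ℝ) (k : Fin 3) (x : M) : ℝ := T k x - v k x

theorem lip_eta {v T : Fin 3 → M → ℝ} (hv : ∀ k, Lip (v k)) (hT : ∀ k, Lip (T k)) (k : Fin 3) :
    Lip (eta v T k) := (hT k).sub (hv k)

omit [MetricSpace M] in
theorem odd_eta {v T : Fin 3 → M → ℝ} (hv : ∀ k, Pool.Agent.FPM.OddB γ (v k))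
    (hT : ∀ k, Pool.Agent.FPM.OddB γ (T k)) (k : Fin 3) : Pool.Agent.FPM.OddB γ (eta v T k) := by
  intro s
  unfold eta
  rw [hv k s, hT k s]
  ring

/-- the modulus at a point -/
theorem umod_at (C : Calc M γ) (v T : Fin 3 → M → ℝ) (o : Om) :
    ‖at' C T o - at' C v o‖ = umod (eta v T) (C.pt o) := by
  rw [umod_eq, EuclideanSpace.norm_eq, EuclideanSpace.norm_eq]
  congr 1

theorem ae_mod (C : Calc M γ) {v T : Fin 3 → M → ℝ} (hv : ∀ k, Lip (v k)) (hT : ∀ k, Lip (T k)) :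
    ∀ᵐ o ∂C.μ, ‖dx C T o - dx C v o‖ ^ 2 + ‖dy C T o - dy C v o‖ ^ 2 = Gη C (eta v T) o ∧
      (0 < umod (eta v T) (C.pt o) → ∃ u : E3, ‖u‖ = 1 ∧
        at' C T o - at' C v o = umod (eta v T) (C.pt o) • u ∧
        inner ℝ u (dx C T o - dx C v o) ^ 2 + inner ℝ u (dy C T o - dy C v o) ^ 2 =
          gn C (umod (eta v T)) o ^ 2) := by
  have h1 : ∀ᵐ o ∂C.μ, ∀ k, C.gx (eta v T k) o = C.gx (T k) o - C.gx (v k) o ∧
      C.gy (eta v T k) o = C.gy (T k) o - C.gy (v k) o := by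
    refine ae_all_iff.2 fun k => ?_
    filter_upwards [C.ae_has (hT k), C.ae_has (hv k)] with o a1 a2
    exact ⟨(a1.1.sub a2.1).deriv, (a1.2.sub a2.2).deriv⟩
  filter_upwards [h1, ae_umod C (lip_eta hv hT)] with o ho hu
  have e : ∀ k, (dx C T o - dx C v o) k = C.gx (eta v T k) o := by
    intro k
    rw [(ho k).1]
    fin_cases k <;> rfl
  have e' : ∀ k, (dy C T o - dy C v o) k = C.gy (eta v T k) o := by
    intro k
    rw [(ho k).2]
    fin_cases k <;> rfl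
  have e'' : ∀ k, (at' C T o - at' C v o) k = eta v T k (C.pt o) := by
    intro k
    fin_cases k <;> rfl
  refine ⟨?_, fun hp => ?_⟩
  · rw [normsq3, normsq3, e, e, e, e', e', e']
    unfold Gη
    rw [Fin.sum_univ_three]
    ring
  · set ρ := umod (eta v T) (C.pt o) with hρ
    have hn : ‖at' C T o - at' C v o‖ = ρ := umod_at C v T o
    refine ⟨(1 / ρ) • (at' C T o - at' C v o), ?_, ?_, ?_⟩
    · rw [norm_smul, hn, Real.norm_eq_abs, abs_of_pos (by positivity)]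
      field_simp
    · rw [smul_smul, mul_one_div, div_self hp.ne', one_smul]
    · rw [real_inner_smul_left, real_inner_smul_left, inner3, inner3, e'', e'', e'', e, e, e, e', e', e']
      rw [Fin.sum_univ_three, Fin.sum_univ_three] at hu
      rw [← hu.1, ← hu.2, gn_sq']
      field_simp

/-- the certificate on the surface -/
def QMC (C : Calc M γ) (l : List ℝ) (v T : Fin 3 → M → ℝ) (o : Om) : ℝ :=
  QM l (at' C v o) (dx C v o) (dy C v o) (dx C T o) (dy C T o)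

theorem QMC_cint [CompactSpace M] (C : Calc M γ) (l : List ℝ) {v T : Fin 3 → M → ℝ} (hv : Sph γ v)
    (hT : ∀ k, Lip (T k)) : Integrable (QMC C l v T) C.μ :=
  integrable_cont5 C hv hT (Φ := fun q => QM l q.1 q.2.1 q.2.2.1 q.2.2.2.1 q.2.2.2.2) (QM_cont l)

theorem QMC_low (C : Calc M γ) {l : List ℝ} (hl : ∀ δ ∈ l, 0 ≤ δ) {v T : Fin 3 → M → ℝ}
    (hv : Sph γ v) : ∀ᵐ o ∂C.μ,
    QLow (at' C v o) (dx C v o) (dy C v o) (dx C T o) (dy C T o) (QMC C l v T o) := by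
  filter_upwards [ae_perp C hv] with o ho
  exact QM_low hl (norm_at hv o) ho.1 ho.2 _ _

/-- **everywhere** -/
theorem mod_all (C : Calc M γ) (l : List ℝ) {v T : Fin 3 → M → ℝ} (hv : Sph γ v) {K : ℝ}
    (hT : TZ C 2 1 K T) : ∀ᵐ o ∂C.μ,
    Gη C (eta v T) o + (1 - 4 * umod (eta v T) (C.pt o)) * nuC C v o + PE (enb (dx C v o) (dy C v o)) ≤
      QMC C l v T o - 2 * dnuC C v T o := by
  filter_upwards [ae_perp C hv, ae_mod C hv.lip hT.lip, hT.inW] with o h1 h2 h3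
  have h4 := mdq_all l (at' C T o) (norm_at hv o) h1.1 h1.2 h3
  rw [h2.1, umod_at] at h4
  exact h4

/-- **on `{ρ ≥ 1/4}`** -/
theorem mod_core (C : Calc M γ) {l : List ℝ} (hl : ∀ δ ∈ l, 0 ≤ δ ∧ δ ≤ 5) {v T : Fin 3 → M → ℝ}
    (hv : Sph γ v) {K : ℝ} (hT : TZ C 2 1 K T) : ∀ᵐ o ∂C.μ, 1 / 4 ≤ umod (eta v T) (C.pt o) →
    ∀ r : ℝ, 0 ≤ r → r ≤ 1 →
    gn C (umod (eta v T)) o ^ 2 + r * (Gη C (eta v T) o - gn C (umod (eta v T)) o ^ 2) +
        (1 - r) * PSI l (nuC C v o) + r * nuC C v o - 4 * umod (eta v T) (C.pt o) * nuC C v o +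
        PE (enb (dx C v o) (dy C v o)) ≤
      QMC C l v T o - 2 * dnuC C v T o := by
  filter_upwards [ae_perp C hv, ae_mod C hv.lip hT.lip, hT.inW] with o h1 h2 h3 hρ r r0 r1
  obtain ⟨u, hu, hu1, hu2⟩ := h2.2 (by linarith)
  have h4 := mdq_core hl (norm_at hv o) h1.1 h1.2 h3 hu hu1 hρ r0 r1
  rw [hu2, h2.1] at h4
  exact h4

end Pool.Agent.FPX
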