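import Mathlib
import Pool.Agent.FPX.MDR

/-
MDS (helper89): the pointwise inequality of the modulus closing with the reserve `θ (|dη|² - |dρ|²)`
inside the certificate. For `τ = 1 + δ` the credit is
`psr θ δ ν = (1 + δ + δ / (2 (1 + δ)) - δ² / (1 - θ + δ)) ν - 3 δ` (`psd` for `θ = 0`).
-/

open MeasureTheory Set Filter Topology
open scoped ENNReal NNReal

noncomputable section

namespace Pool.Agent.FPX

open Pool.Agent.EWD Pool.Agent.FPM

/-- the credit with `τ = 1 + δ` and the reserve `θ` -/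
def psr (θ δ x : ℝ) : ℝ := (1 + δ + δ / (2 * (1 + δ)) - δ ^ 2 / (1 - θ + δ)) * x - 3 * δ

/-- the credit of a list -/
def PSR (θ : ℝ) (l : List ℝ) (x : ℝ) : ℝ := l.foldr (fun δ m => max (psr θ δ x) m) x

theorem PSR_ge (θ : ℝ) (l : List ℝ) (x : ℝ) : x ≤ PSR θ l x := by
  induction l with
  | nil => exact le_rfl
  | cons δ l ih => exact ih.trans (le_max_right _ _)

theorem PSR_mem {θ : ℝ} {l : List ℝ} {δ : ℝ} (h : δ ∈ l) (x : ℝ) : psr θ δ x ≤ PSR θ l x := by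
  induction l with
  | nil => cases h
  | cons δ' l ih =>
    rcases List.mem_cons.1 h with h | h
    · rw [h]
      exact le_max_left _ _
    · exact (ih h).trans (le_max_right _ _)

theorem PSR_cases (θ : ℝ) (l : List ℝ) (x : ℝ) : PSR θ l x = x ∨ ∃ δ ∈ l, PSR θ l x = psr θ δ x := by
  induction l with
  | nil => exact Or.inl rfl
  | cons δ l ih =>
    rcases le_total (psr θ δ x) (PSR θ l x) with h | h
    · have e : PSR θ (δ :: l) x = PSR θ l x := max_eq_right h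
      rw [e]
      rcases ih with ih | ⟨δ', h1, h2⟩
      · exact Or.inl ih
      · exact Or.inr ⟨δ', List.mem_cons_of_mem _ h1, h2⟩
    · exact Or.inr ⟨δ, List.mem_cons_self, max_eq_left h⟩

/-- without reserve -/
theorem psr_zero {δ : ℝ} (hδ : 0 ≤ δ) (x : ℝ) : psr 0 δ x = psd δ x := by
  have h1 : 0 < 1 + δ := by linarith
  unfold psr psd
  rw [sub_zero]
  field_simp
  ring

/-- the scalar inequality of the directions with reserve -/
theorem mds_sc {δ d h c : ℝ} (h0 : 0 ≤ δ) (h5 : δ ≤ 5) (hd : 0 < d) (hd1 : d ≤ 1) (hh : 1 / 4 ≤ h)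
    (hc : c ^ 2 ≤ 1) :
    δ ^ 2 * (mdN 0 d (1 / 2 + 3 / 2 * δ) c + d * mdD 0 d (1 / 2 + 3 / 2 * δ) c) ≤
      (2 * (δ ^ 2 / (d + δ)) + 8 * h * (1 + c)) *
        (δ / 2 * (mdN 0 d (1 / 2 + 3 / 2 * δ) c + d * mdD 0 d (1 / 2 + 3 / 2 * δ) c) +
          d * mdN 0 d (1 / 2 + 3 / 2 * δ) c) := by
  have h1δ : 0 < d + δ := by linarith
  have hc1 : -1 ≤ c := by nlinarith
  have hc2 : c ≤ 1 := by nlinarith
  unfold mdN mdD
  set ω := 1 / 2 + 3 / 2 * δ with hω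
  have hω0 : 0 < ω := by rw [hω]; linarith
  have e1 : (0 : ℝ) * d + ω * (0 * (1 - c ^ 2) + d * c ^ 2) = ω * d * c ^ 2 := by ring
  have e2 : (0 : ℝ) * c ^ 2 + d * (1 - c ^ 2) + ω = d * (1 - c ^ 2) + ω := by ring
  rw [e1, e2]
  -- the discriminant
  have g0 : 0 ≤ δ * (6 - 8 * d - d ^ 2) + 14 * d + 2 := by
    rcases le_total 0 (6 - 8 * d - d ^ 2) with h | h
    · have := mul_nonneg h0 h
      linarith
    · have := mul_le_mul_of_nonpos_right h5 h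
      nlinarith
  have g1 : δ ^ 3 * d * (1 / 2 + 3 / 2 * δ + d) ≤
      4 * (d + δ) * (3 / 2 * δ ^ 2 + 1 / 2 * δ + 2 * δ * d + d) := by
    have k1 := mul_nonneg (sq_nonneg δ) g0
    have k2 : 0 ≤ 3 / 2 * d * δ ^ 3 * (5 - δ) := by
      have : 0 ≤ 5 - δ := by linarith
      positivity
    have k3 : 0 ≤ δ * (6 * d + 8 * d ^ 2) + 4 * d ^ 2 := by positivity
    nlinarith
  have g2 : δ ^ 4 * d ^ 2 * (ω + d) ^ 2 ≤ 4 * (δ * (ω + d) * (d + δ * (1 - d))) *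
      ((d + δ) * (δ * ω - δ * d + 2 * ω * d)) := by
    have k1 : δ * ω - δ * d + 2 * ω * d = 3 / 2 * δ ^ 2 + 1 / 2 * δ + 2 * δ * d + d := by
      rw [hω]
      ring
    rw [k1]
    have k2 : 0 ≤ δ * (1 - d) := mul_nonneg h0 (by linarith)
    have k3 : 0 ≤ (d + δ) * (3 / 2 * δ ^ 2 + 1 / 2 * δ + 2 * δ * d + d) := by positivity
    have k4 : 0 ≤ δ * (ω + d) := by positivity
    have k5 := mul_le_mul_of_nonneg_left g1 (show 0 ≤ δ * (ω + d) * d by positivity)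
    have k6 : 0 ≤ 4 * (δ * (ω + d) * (δ * (1 - d))) *
      ((d + δ) * (3 / 2 * δ ^ 2 + 1 / 2 * δ + 2 * δ * d + d)) := by positivity
    have k7 : δ ^ 4 * d ^ 2 * (ω + d) ^ 2 = δ * (ω + d) * d * (δ ^ 3 * d * (1 / 2 + 3 / 2 * δ + d)) := by
      rw [hω]
      ring
    rw [k7]
    refine k5.trans ?_
    refine le_of_sub_nonneg (k6.trans_eq ?_)
    ring
  have g3 : 0 ≤ δ * (ω + d) * (d + δ * (1 - d)) + c ^ 2 * ((d + δ) * (δ * ω - δ * d + 2 * ω * d)) +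
      c * (δ ^ 2 * d * (ω + d)) := by
    rcases h0.eq_or_lt with h | h
    · rw [← h]
      have : 0 ≤ c ^ 2 * (d * (2 * ω * d)) := by positivity
      linarith
    · have hA : 0 < δ * (ω + d) * (d + δ * (1 - d)) := by
        have : 0 ≤ δ * (1 - d) := mul_nonneg h0 (by linarith)
        positivity
      refine (mul_nonneg_iff_of_pos_left (show 0 < 4 * (δ * (ω + d) * (d + δ * (1 - d))) by
        positivity)).1 ?_
      have k1 : 0 ≤ c ^ 2 * (4 * (δ * (ω + d) * (d + δ * (1 - d))) *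
        ((d + δ) * (δ * ω - δ * d + 2 * ω * d)) - δ ^ 4 * d ^ 2 * (ω + d) ^ 2) :=
        mul_nonneg (sq_nonneg c) (by linarith)
      have k2 := sq_nonneg (2 * (δ * (ω + d) * (d + δ * (1 - d))) + c * (δ ^ 2 * d * (ω + d)))
      refine (add_nonneg k1 k2).trans_eq ?_
      ring
  have key : δ ^ 2 * d * (1 - c) * (ω + d) ≤
      8 * h * (d + δ) * (δ / 2 * (ω * c ^ 2 + (d * (1 - c ^ 2) + ω)) + ω * d * c ^ 2) := by
    have hs : 0 ≤ 1 - c ^ 2 := by linarith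
    have k0 : 0 ≤ δ / 2 * (ω * c ^ 2 + (d * (1 - c ^ 2) + ω)) + ω * d * c ^ 2 := by positivity
    have k1 : δ ^ 2 * d * (1 - c) * (ω + d) ≤
        2 * (d + δ) * (δ / 2 * (ω * c ^ 2 + (d * (1 - c ^ 2) + ω)) + ω * d * c ^ 2) := by
      refine le_of_sub_nonneg (g3.trans_eq ?_)
      ring
    refine k1.trans ?_
    have : 2 * (d + δ) ≤ 8 * h * (d + δ) := mul_le_mul_of_nonneg_right (by linarith) h1δ.le
    exact mul_le_mul_of_nonneg_right this k0
  have key2 := mul_le_mul_of_nonneg_left key (show (0 : ℝ) ≤ d * (1 + c) by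
    have : 0 ≤ 1 + c := by linarith
    positivity)
  refine le_of_mul_le_mul_left ?_ h1δ
  have e4 : (d + δ) * ((2 * (δ ^ 2 / (d + δ)) + 8 * h * (1 + c)) *
      (δ / 2 * (ω * d * c ^ 2 + d * (d * (1 - c ^ 2) + ω)) + d * (ω * d * c ^ 2))) =
      (2 * δ ^ 2 + 8 * h * (1 + c) * (d + δ)) *
      (δ / 2 * (ω * d * c ^ 2 + d * (d * (1 - c ^ 2) + ω)) + d * (ω * d * c ^ 2)) := by
    field_simp
  rw [e4]
  refine le_of_sub_nonneg ((sub_nonneg.2 key2).trans_eq ?_)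
  ring

/-- one `τ = 1 + δ` with the reserve `θ` -/
theorem mds_dir {v a b T u : E3} (A B : E3) {δ h θ : ℝ} (hv : ‖v‖ = 1) (ha : inner ℝ v a = (0 : ℝ))
    (hb : inner ℝ v b = (0 : ℝ)) (hu : ‖u‖ = 1) (hT : T - v = h • u) (hh : 1 / 4 ≤ h)
    (h0 : 0 ≤ δ) (h5 : δ ≤ 5) (t0 : 0 ≤ θ) (t1 : θ < 1) :
    inner ℝ u (A - a) ^ 2 + inner ℝ u (B - b) ^ 2 +
        θ * (‖A - a‖ ^ 2 + ‖B - b‖ ^ 2 - (inner ℝ u (A - a) ^ 2 + inner ℝ u (B - b) ^ 2)) +
        psr θ δ (nuv v a b) - 4 * h * nuv v a b ≤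
      Qtau (1 + δ) v a b A B - 2 * dnu v a b T A B := by
  have h1δ : 0 < 1 - θ + δ := by linarith
  have hc : (inner ℝ v u : ℝ) ^ 2 ≤ 1 := by
    have k := abs_real_inner_le_norm v u
    rw [hv, hu, one_mul] at k
    nlinarith [abs_nonneg (inner ℝ v u : ℝ), sq_abs (inner ℝ v u : ℝ)]
  have hc1 : -1 ≤ (inner ℝ v u : ℝ) := by nlinarith
  have hβ := mdq_perp hv a b
  have hsc := mds_sc h0 h5 (show 0 < 1 - θ by linarith) (by linarith) hh hc
  have k1 := mdq_vec hv hu hβ le_rfl (show 0 < 1 - θ by linarith)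
    (show (0 : ℝ) < 1 / 2 + 3 / 2 * δ by linarith) h0
    (K := 2 * (δ ^ 2 / (1 - θ + δ)) + 8 * h * (1 + inner ℝ v u))
    (by have : 0 ≤ 8 * h * (1 + (inner ℝ v u : ℝ)) := by
          have := mul_nonneg (show (0 : ℝ) ≤ 8 * h by linarith) (show (0 : ℝ) ≤ 1 + inner ℝ v u by linarith)
          exact this
        positivity) hsc (A - a) (B - b)
  have k2 := mdq_base hv ha hb T A B h0 2
  have e1 : (inner ℝ v (T - v) : ℝ) = h * inner ℝ v u := by rw [hT, inner_smul_right]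
  rw [e1] at k2
  have e2 : (2 : ℝ) - 2 + δ = δ := by ring
  rw [e2] at k2
  have e3 : (2 * (δ ^ 2 / (1 - θ + δ)) + 8 * h * (1 + inner ℝ v u)) * ‖qm v a b‖ ^ 2 =
      (δ ^ 2 / (1 - θ + δ) + 4 * h * (1 + inner ℝ v u)) * nuv v a b := by
    unfold nuv
    ring
  rw [e3] at k1
  unfold psr
  nlinarith

/-- **on `{h ≥ 1/4}`**: the radial derivative, the reserve `θ` and the credit of a list -/
theorem mds_core {l : List ℝ} (hl : ∀ δ ∈ l, 0 ≤ δ ∧ δ ≤ 5) {v a b A B T u : E3} {h θ : ℝ}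
    (hv : ‖v‖ = 1) (ha : inner ℝ v a = (0 : ℝ)) (hb : inner ℝ v b = (0 : ℝ)) (hAB : InW 2 1 A B)
    (hu : ‖u‖ = 1) (hT : T - v = h • u) (hh : 1 / 4 ≤ h) (t0 : 0 ≤ θ) (t1 : θ < 1) :
    inner ℝ u (A - a) ^ 2 + inner ℝ u (B - b) ^ 2 +
        θ * (‖A - a‖ ^ 2 + ‖B - b‖ ^ 2 - (inner ℝ u (A - a) ^ 2 + inner ℝ u (B - b) ^ 2)) +
        PSR θ l (nuv v a b) - 4 * h * nuv v a b + PE (enb a b) ≤
      QM l v a b A B - 2 * dnu v a b T A B := by
  have hn : ‖T - v‖ = h := by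
    rw [hT, norm_smul, hu, mul_one, Real.norm_eq_abs, abs_of_nonneg (by linarith)]
  have k1 := mdq_all l T hv ha hb hAB
  rw [hn] at k1
  have k2 := G_le_E hu (A - a) (B - b)
  have k0 : θ * (‖A - a‖ ^ 2 + ‖B - b‖ ^ 2 - (inner ℝ u (A - a) ^ 2 + inner ℝ u (B - b) ^ 2)) ≤
      1 * (‖A - a‖ ^ 2 + ‖B - b‖ ^ 2 - (inner ℝ u (A - a) ^ 2 + inner ℝ u (B - b) ^ 2)) :=
    mul_le_mul_of_nonneg_right t1.le (by linarith)
  rcases PSR_cases θ l (nuv v a b) with h1 | ⟨δ, h1, h2⟩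
  · rw [h1]
    linarith
  · rw [h2]
    obtain ⟨d1, d2⟩ := hl δ h1
    by_cases he : 1 ≤ enb a b
    · rw [PE_one he]
      have k3 := mds_dir A B hv ha hb hu hT hh d1 d2 t0 t1
      have k4 := QM_mem h1 v a b A B
      linarith
    · push Not at he
      have k5 := nuv_le_enb hv ha hb
      have k5' := nuv_nonneg v a b
      have p1 : 0 < 1 + δ := by linarith
      have p2 : 0 < 1 - θ + δ := by linarith
      have k6 : psr θ δ (nuv v a b) ≤ nuv v a b := by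
        have e1 : δ / (2 * (1 + δ)) ≤ δ / 2 := by
          rw [div_le_div_iff₀ (by positivity) (by positivity)]
          nlinarith
        have e2 : δ - δ ^ 2 / (1 - θ + δ) ≤ δ := by
          have : 0 ≤ δ ^ 2 / (1 - θ + δ) := by positivity
          linarith
        have e3 : (δ + δ / (2 * (1 + δ)) - δ ^ 2 / (1 - θ + δ)) ≤ 3 / 2 * δ := by linarith
        have e4 := mul_le_mul_of_nonneg_right e3 k5'
        have e5 : 3 / 2 * δ * nuv v a b ≤ 3 / 2 * δ * 2 :=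
          mul_le_mul_of_nonneg_left (by linarith) (by positivity)
        have e6 : psr θ δ (nuv v a b) = nuv v a b +
            (δ + δ / (2 * (1 + δ)) - δ ^ 2 / (1 - θ + δ)) * nuv v a b - 3 * δ := by
          unfold psr
          ring
        rw [e6]
        linarith
      linarith

variable {M : Type} [MetricSpace M] {γ : ℝ → M}

/-- **on `{ρ ≥ 1/4}`** on the surface, with the reserve inside -/
theorem mod_res (C : Calc M γ) {l : List ℝ} (hl : ∀ δ ∈ l, 0 ≤ δ ∧ δ ≤ 5) {v T : Fin 3 → M → ℝ}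
    (hv : Sph γ v) {K : ℝ} (hT : TZ C 2 1 K T) : ∀ᵐ o ∂C.μ, 1 / 4 ≤ umod (eta v T) (C.pt o) →
    ∀ θ : ℝ, 0 ≤ θ → θ < 1 →
    gn C (umod (eta v T)) o ^ 2 + θ * (Gη C (eta v T) o - gn C (umod (eta v T)) o ^ 2) +
        PSR θ l (nuC C v o) - 4 * umod (eta v T) (C.pt o) * nuC C v o +
        PE (enb (dx C v o) (dy C v o)) ≤
      QMC C l v T o - 2 * dnuC C v T o := by
  filter_upwards [ae_perp C hv, ae_mod C hv.lip hT.lip, hT.inW] with o h1 h2 h3 hρ θ t0 t1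
  obtain ⟨u, hu, hu1, hu2⟩ := h2.2 (by linarith)
  have h4 := mds_core hl (norm_at hv o) h1.1 h1.2 h3 hu hu1 hρ t0 t1
  rw [hu2, h2.1] at h4
  exact h4

end Pool.Agent.FPX
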