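import Mathlib
import Pool.Agent.FPX.CBD

/-
SWB (helper29): all computable definitions of the table of polar weights (SWL, SWT, SWU, SWZ) in one file
without analysis, so that the data modules do not wait for the rest.
-/

namespace Pool.Agent.FPX.SWL

open Pool.Agent.FPX

/-! ### polynomials as lists -/

/-- sum -/
def addL : List ℚ → List ℚ → List ℚ
  | [], q => q
  | a :: p, [] => a :: p
  | a :: p, b :: q => (a + b) :: addL p q

/-- multiple -/
def smL (r : ℚ) : List ℚ → List ℚ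
  | [] => []
  | a :: p => r * a :: smL r p

/-- product -/
def mulL : List ℚ → List ℚ → List ℚ
  | [], _ => []
  | a :: p, q => addL (smL a q) (0 :: mulL p q)

/-- the polynomial `p (m + x)` -/
def shL (m : ℚ) : List ℚ → List ℚ
  | [] => []
  | a :: p => addL (a :: shL m p) (smL m (shL m p))

/-- the sum of the absolute values -/
def abL (r : ℚ) : List ℚ → ℚ
  | [] => 0
  | a :: p => |a| + r * abL r p

/-- a lower bound on `[-r, r]` -/
def lbL (r : ℚ) : List ℚ → ℚ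
  | [] => 0
  | a :: p => a - r * abL r p

/-- check on one interval -/
def nnC (p : List ℚ) (lo hi : ℚ) : Bool :=
  decide (0 ≤ lbL ((hi - lo) / 2) (shL ((lo + hi) / 2) p))

/-- check with bisection -/
def nnR (p : List ℚ) : ℕ → ℚ → ℚ → Bool
  | 0, lo, hi => nnC p lo hi
  | n + 1, lo, hi => nnC p lo hi || (nnR p n lo ((lo + hi) / 2) && nnR p n ((lo + hi) / 2) hi)

/-! ### averages -/

/-- the moments of `cos 2t` -/
def mom : ℕ → ℚ
  | 0 => 1
  | 1 => 0
  | n + 2 => (n + 1) / (n + 2) * mom n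

/-- the average of `c ^ n p (c)` -/
def avL : ℕ → List ℚ → ℚ
  | _, [] => 0
  | n, a :: p => a * mom n + avL (n + 1) p

/-- `ω sin²` -/
def wS (ω : List ℚ) : List ℚ := mulL [1 / 2, -1 / 2] ω

/-- `ω sin⁴` -/
def wSS (ω : List ℚ) : List ℚ := mulL [1 / 4, -1 / 2, 1 / 4] ω

/-- `ω sin² cos²` -/
def wSC (ω : List ℚ) : List ℚ := mulL [1 / 4, 0, -1 / 4] ω

/-- the check -/
def swOk (n : ℕ) (τ ω : List ℚ) : Bool :=
  nnR (addL [-1 / 100] ω) n (-1) 1 && nnR (addL [-1] (mulL τ ω)) n (-1) 1 &&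
    decide (0 < avL 0 (wSS ω)) && decide (0 < avL 0 (wSC ω))

/-! ### the penalty on a cell as a polynomial -/

/-- `(x - a)₊` for `x ≥ lo` -/
def posL (a lo : ℚ) : List ℚ := if a ≤ lo then [-a, 1] else []

/-- `pkI` -/
def polI (lo : ℚ) : ℚ → ℚ → List (ℚ × ℚ) → List ℚ
  | _, _, [] => []
  | a, k, (h, k') :: l => addL (smL ((k' - k) / h) (addL (posL a lo) (smL (-1) (posL (a + h) lo))))
      (polI lo (a + h) k' l)

/-- `pkJ` -/
def polJ (lo : ℚ) : ℚ → ℚ → List (ℚ × ℚ) → List ℚ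
  | _, _, [] => []
  | a, k, (h, k') :: l => addL (smL ((k' - k) / h / 2) (addL (mulL (posL a lo) (posL a lo))
      (smL (-1) (mulL (posL (a + h) lo) (posL (a + h) lo))))) (polJ lo (a + h) k' l)

/-- the derivative of the penalty -/
def sP (l : List (ℚ × ℚ)) (lo : ℚ) : List ℚ := addL [1] (polI lo 0 1 l)

/-- the penalty -/
def phP (l : List (ℚ × ℚ)) (lo : ℚ) : List ℚ := addL [0, 1] (polJ lo 0 1 l)

/-- check: no node inside the cell -/
def ndC (lo hi : ℚ) : ℚ → List (ℚ × ℚ) → Bool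
  | a, [] => decide (a ≤ lo ∨ hi ≤ a)
  | a, (h, _) :: l => decide (a ≤ lo ∨ hi ≤ a) && ndC lo hi (a + h) l

/-- check: all nodes are at most `lo` -/
def ndU (lo : ℚ) : ℚ → List (ℚ × ℚ) → Bool
  | a, [] => decide (a ≤ lo)
  | a, (h, _) :: l => decide (a ≤ lo) && ndU lo (a + h) l

/-- the last two vertices -/
def lastE : ℚ × ℚ → ℚ × ℚ → List (ℚ × ℚ) → (ℚ × ℚ) × (ℚ × ℚ)
  | p, q, [] => (p, q)
  | _, q, r :: l => lastE q r l

/-! ### the weights -/

/-- the averages -/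
def aH (w : List ℚ × List ℚ) : ℚ := avL 0 w.1
def aI (w : List ℚ × List ℚ) : ℚ := avL 0 w.2
def aJ (w : List ℚ × List ℚ) : ℚ := avL 0 (wS w.2)
def aK (w : List ℚ × List ℚ) : ℚ := avL 0 (wSS w.2)
def aL (w : List ℚ × List ℚ) : ℚ := avL 0 (wSC w.2)

/-- the check of a weight -/
def wtC (w : List ℚ × List ℚ) : Bool :=
  swOk 9 w.1 w.2 && decide (0 < 3 / (4 * aK w) - 2) && decide (0 ≤ 3 / (16 * aL w) - 1) &&
    decide (0 ≤ 3 * (1 - aI w) + 3 * aJ w ^ 2 / aK w - 2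
      - (3 * aJ w / aK w - 4) ^ 2 / (4 * (3 / (4 * aK w) - 2)))

/-- the check of a weight for small energy -/
def wtD (w : List ℚ × List ℚ) : Bool :=
  swOk 9 w.1 w.2 && decide (0 < 3 / (4 * aK w) - 2) && decide (0 ≤ 3 / (16 * aL w) - 1)

/-- `fbw` as a polynomial -/
def fbP (w : List ℚ × List ℚ) (s : List ℚ) : List ℚ :=
  addL (smL 8 s) (addL [3 * aJ w ^ 2 / aK w - 3 * (1 + aI w) - 2]
    (smL (-(1 / (4 * (3 / (4 * aK w) - 2)))) (mulL (addL [3 * aJ w / aK w + 4] (smL (-8) s))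
      (addL [3 * aJ w / aK w + 4] (smL (-8) s)))))

/-- the bound as a polynomial -/
def fP (w : List ℚ × List ℚ) (s ph : List ℚ) (ζ : ℚ) : List ℚ :=
  addL [3 * (1 - aH w)] (addL (mulL [0, 1 / 2] (fbP w s)) (smL ζ ph))

/-- the main polynomial, `4 W ≥ c0 + c1 φ` -/
def mP (w : List ℚ × List ℚ) (s ph : List ℚ) (ζ c0 c1 : ℚ) : List ℚ :=
  addL (mulL (addL [c0] (smL c1 ph)) (fP w s ph ζ)) (smL (-4) (mulL (mulL [0, 1] s) (mulL [0, 1] s)))

/-- the conformal coefficient -/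
def aA (w : List ℚ × List ℚ) : ℚ :=
  3 * (1 - aI w) + 3 * aJ w ^ 2 / aK w - 2 - (3 * aJ w / aK w - 4) ^ 2 / (4 * (3 / (4 * aK w) - 2))

/-- the polynomial `1 + x/2 - 2 R`, `R` the chord of the rational lower bounds of the root -/
def bP (lo hi r1 r2 : ℚ) : List ℚ :=
  [1 - 2 * (r1 - (r2 - r1) / (hi - lo) * lo), 1 / 2 - 2 * ((r2 - r1) / (hi - lo))]

/-- `f` at `P² = 0` minus the bound of the spare term -/
def gA (w : List ℚ × List ℚ) (s ph : List ℚ) (ζ lo hi r1 r2 : ℚ) : List ℚ :=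
  addL (fP w s ph ζ) (smL (-1) (bP lo hi r1 r2))

/-- `f` at `P² = 1 - x/2` -/
def gB (w : List ℚ × List ℚ) (s ph : List ℚ) (ζ : ℚ) : List ℚ :=
  addL (fP w s ph ζ) [aA w, -(aA w) / 2]

/-- the main polynomial -/
def mG (g : List ℚ) (s ph : List ℚ) (c0 c1 : ℚ) : List ℚ :=
  addL (mulL (addL [c0] (smL c1 ph)) g) (smL (-4) (mulL (mulL [0, 1] s) (mulL [0, 1] s)))

/-! ### cells -/

/-- the check of a cell -/
def ceC (l : List (ℚ × ℚ)) (q : ℚ × ℚ) (V : List (ℚ × ℚ)) (ζ : ℚ) (w : List ℚ × List ℚ) (lo hi : ℚ) :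
    Bool :=
  let a := qG 0 1 l lo
  let b := qG 0 1 l hi
  let wa := qpl (0, 0) q V a
  let wb := qpl (0, 0) q V b
  let c1 := (wb - wa) / (b - a)
  let s := sP l lo
  let ph := phP l lo
  ndC lo hi 0 l && decide (a < b) && nnR (fP w s ph ζ) 4 lo hi &&
    nnR (mP w s ph ζ (wa - c1 * a) c1) 4 lo hi

/-- the check of the last cell -/
def ceU (l : List (ℚ × ℚ)) (q : ℚ × ℚ) (V : List (ℚ × ℚ)) (ζ : ℚ) (w : List ℚ × List ℚ) (lo : ℚ) :
    Bool :=
  let E := lastE (0, 0) q V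
  let c1 := (E.2.2 - E.1.2) / (E.2.1 - E.1.1)
  let s := sP l lo
  let ph := phP l lo
  ndU lo 0 l && decide (E.1.1 ≤ qG 0 1 l lo) && (shL lo (fP w s ph ζ)).all (fun c => decide (0 ≤ c)) &&
    (shL lo (mP w s ph ζ (E.1.2 - c1 * E.1.1) c1)).all (fun c => decide (0 ≤ c))

/-- the check of the cells: weights `ws`, cells `(x_hi, index)`, the index of the last weight -/
def tbC (l : List (ℚ × ℚ)) (q : ℚ × ℚ) (V : List (ℚ × ℚ)) (ζ : ℚ) (ws : List (List ℚ × List ℚ))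
    (last : ℕ) : ℚ → List (ℚ × ℕ) → Bool
  | lo, [] => ceU l q V ζ (ws.getD last ([], [])) lo
  | lo, (hi, i) :: c => ceC l q V ζ (ws.getD i ([], [])) lo hi && tbC l q V ζ ws last hi c

/-- all weights are admissible -/
def wsC (ws : List (List ℚ × List ℚ)) : Bool := ws.all wtC

/-- all weights for small energy are admissible -/
def usC (us : List (List ℚ × List ℚ)) : Bool := us.all wtD

/-- all indices are admissible -/
def ixC (n : ℕ) (last : ℕ) (c : List (ℚ × ℕ)) : Bool :=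
  decide (last < n) && c.all fun r => decide (r.2 < n)

/-- the check of the low part: no node of the penalty below `ν₀ ≥ 2` except `0` with value `1` -/
def loC (l : List (ℚ × ℚ)) (q : ℚ × ℚ) (V : List (ℚ × ℚ)) (ζ ν₀ : ℚ) : Bool :=
  decide (2 ≤ ν₀ ∧ 0 ≤ ζ ∧ qI 1 l ν₀ = 0 ∧ 4 * ν₀ ≤ qpl (0, 0) q V ν₀ * (1 + ζ))

/-- the check of the low part -/
def loL (l : List (ℚ × ℚ)) (q : ℚ × ℚ) (V : List (ℚ × ℚ)) (ζ ν₀ : ℚ) : Bool :=
  decide (0 < ν₀ ∧ 0 ≤ ζ ∧ qI 1 l ν₀ = 0 ∧ 4 * ν₀ ≤ qpl (0, 0) q V ν₀ * (1 + ζ))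

/-- the check of a cell below `2`: weight `w` for energy `≥ 1`, weight `u` for energy `≤ 1` -/
def ceL (l : List (ℚ × ℚ)) (q : ℚ × ℚ) (V : List (ℚ × ℚ)) (ζ : ℚ) (w u : List ℚ × List ℚ)
    (lo hi r1 r2 : ℚ) : Bool :=
  let a := qG 0 1 l lo
  let b := qG 0 1 l hi
  let wa := qpl (0, 0) q V a
  let wb := qpl (0, 0) q V b
  let c1 := (wb - wa) / (b - a)
  let c0 := wa - c1 * a
  let s := sP l lo
  let ph := phP l lo
  ndC lo hi 0 l && decide (a < b) && decide (1 / 2 ≤ lo ∧ lo < hi ∧ hi ≤ 2 ∧ 0 ≤ r1 ∧ 0 ≤ r2 ∧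
    r1 ^ 2 ≤ lo / 2 ∧ r2 ^ 2 ≤ hi / 2) &&
    nnR (gB w s ph ζ) 4 lo hi && nnR (mG (gB w s ph ζ) s ph c0 c1) 4 lo hi &&
    nnR (gB u s ph ζ) 4 lo hi && nnR (mG (gB u s ph ζ) s ph c0 c1) 4 lo hi &&
    nnR (gA u s ph ζ lo hi r1 r2) 4 lo hi && nnR (mG (gA u s ph ζ lo hi r1 r2) s ph c0 c1) 4 lo hi

/-- cells below `2`: `(hi, r2, index for energy ≥ 1, index for energy ≤ 1)`, then the cells of `tbC` -/
def tbL (l : List (ℚ × ℚ)) (q : ℚ × ℚ) (V : List (ℚ × ℚ)) (ζ : ℚ) (ws us : List (List ℚ × List ℚ))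
    (last : ℕ) (c : List (ℚ × ℕ)) : ℚ → ℚ → List (ℚ × ℚ × ℕ × ℕ) → Bool
  | lo, _, [] => decide (2 ≤ lo) && tbC l q V ζ ws last lo c
  | lo, r1, (hi, r2, i, j) :: L => ceL l q V ζ (ws.getD i ([], [])) (us.getD j ([], [])) lo hi r1 r2 &&
      tbL l q V ζ ws us last c hi r2 L

/-- all indices are admissible -/
def ixL (n m : ℕ) (L : List (ℚ × ℚ × ℕ × ℕ)) : Bool := L.all fun r => decide (r.2.2.1 < n ∧ r.2.2.2 < m)

/-! ### integer weights: forced evaluation -/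

/-- forced evaluation of a natural number -/
noncomputable def fN {β : Type} (n : ℕ) (k : ℕ → β) : β :=
  @Nat.rec (fun _ => β) (k 0) (fun m _ => k (Nat.succ m)) n

/-- forced evaluation of a list of natural numbers -/
noncomputable def fL {β : Type} (l : List ℕ) : (List ℕ → β) → β :=
  @List.rec ℕ (fun _ => (List ℕ → β) → β) (fun k => k [])
   (fun a _ f k => fN a (fun a => f (fun l => k (a :: l)))) l

/-- `[a + q₀, q₀ + q₁, …, q_n]` -/
noncomputable def stN (q : List ℕ) : ℕ → List ℕ :=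
  @List.rec ℕ (fun _ => ℕ → List ℕ) (fun a => [a])
    (fun b _ f a => fN (Nat.add a b) (fun c => c :: f b)) q

/-- Taylor shift by one -/
noncomputable def shN (p : List ℕ) : List ℕ :=
  @List.rec ℕ (fun _ => List ℕ) [] (fun a _ r => stN r a) p

/-- reverse -/
noncomputable def rvN (p : List ℕ) : List ℕ → List ℕ :=
  @List.rec ℕ (fun _ => List ℕ → List ℕ) (fun r => r) (fun a _ f r => f (a :: r)) p

/-- coefficientwise comparison `N ≤ P` -/
noncomputable def geN (P : List ℕ) : List ℕ → Bool :=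
  @List.rec ℕ (fun _ => List ℕ → Bool)
    (fun N => @List.rec ℕ (fun _ => Bool) true (fun _ _ _ => false) N)
    (fun a _ f N => @List.rec ℕ (fun _ => Bool) false (fun b N _ => and (Nat.ble b a) (f N)) N) P

/-- the recursive check of `N ≤ P` on the quadrant -/
noncomputable def ckN (n : ℕ) : List ℕ → List ℕ → Bool :=
  @Nat.rec (fun _ => List ℕ → List ℕ → Bool) (fun P N => geN P N)
    (fun _ f P N => or (geN P N)
      (and (fL (shN P) fun P1 => fL (shN N) fun N1 => f P1 N1)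
        (fL (shN (rvN P [])) fun P2 => fL (shN (rvN N [])) fun N2 => f P2 N2))) n

/-- `c B + [a + N₀, P₀ + N₁, …, P_{m-1}]` -/
def mxN (c : ℕ) : List ℕ → ℕ → List ℕ → List ℕ → List ℕ
  | [], _, _, _ => []
  | b :: B, a, [], _ => (c * b + a) :: mxN c B 0 [] []
  | b :: B, a, _ :: _, [] => (c * b + a) :: mxN c B 0 [] []
  | b :: B, a, p :: P, n :: N => (c * b + (a + n)) :: mxN c B p P N

/-- the homogeneous form of a polynomial on `[-1, 1]`: positive part, negative part, `(u + v) ^ n` -/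
noncomputable def trZ (p : List ℤ) : (List ℕ → List ℕ → List ℕ → Bool) → Bool :=
  @List.rec ℤ (fun _ => (List ℕ → List ℕ → List ℕ → Bool) → Bool) (fun k => k [] [] [1])
    (fun a _ f k => f (fun P N B => fL (mxN a.toNat B 0 P N) fun P' => fL (mxN (-a).toNat B 0 N P)
      fun N' => fL (stN B 0) fun B' => k P' N' B')) p

/-- nonnegativity on `[-1, 1]` -/
noncomputable def ckZ (p : List ℤ) : Bool := trZ p fun P N _ => ckN 24 P N

/-- sum -/
def addZ : List ℤ → List ℤ → List ℤ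
  | [], q => q
  | a :: p, [] => a :: p
  | a :: p, b :: q => (a + b) :: addZ p q

/-- multiple -/
def smZ (r : ℤ) : List ℤ → List ℤ
  | [] => []
  | a :: p => r * a :: smZ r p

/-- product -/
def mulZ : List ℤ → List ℤ → List ℤ
  | [], _ => []
  | a :: p, q => addZ (smZ a q) (0 :: mulZ p q)

/-- rational coefficients -/
def dvZ (S : ℕ) : List ℤ → List ℚ
  | [] => []
  | a :: p => mkRat a S :: dvZ S p

/-- a weight with integer coefficients over the common denominator `S` -/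
def wq (S : ℕ) (w : List ℤ × List ℤ) : List ℚ × List ℚ := (dvZ S w.1, dvZ S w.2)

/-- positivity of the weight -/
noncomputable def zOk (S : ℕ) (w : List ℤ × List ℤ) : Bool :=
  decide (0 < S) && (ckZ (addZ [-(S : ℤ)] (smZ 1000 w.2)) &&
    ckZ (addZ [-((S : ℤ) * S)] (mulZ w.1 w.2)))

/-- the check of a weight -/
noncomputable def wtZ (S : ℕ) (w : List ℤ × List ℤ) : Bool :=
  zOk S w && (decide (0 < aK (wq S w)) && (decide (0 < aL (wq S w)) &&
    (decide (0 < 3 / (4 * aK (wq S w)) - 2) && (decide (0 ≤ 3 / (16 * aL (wq S w)) - 1) &&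
    decide (0 ≤ aA (wq S w))))))

/-- the check of a weight for small energy -/
noncomputable def wtY (S : ℕ) (w : List ℤ × List ℤ) : Bool :=
  zOk S w && (decide (0 < aK (wq S w)) && (decide (0 < aL (wq S w)) &&
    (decide (0 < 3 / (4 * aK (wq S w)) - 2) && decide (0 ≤ 3 / (16 * aL (wq S w)) - 1))))

end Pool.Agent.FPX.SWL
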