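import Mathlib
import Pool.Agent.FPX.SWB

/-
FPX, SWC (helper29): the check of integer weights with a variable depth of the subdivision (light file).
-/

namespace Pool.Agent.FPX.SWL

open Pool.Agent.FPX

/-- nonnegativity on `[-1, 1]`, depth `n` -/
noncomputable def ckM (n : ℕ) (p : List ℤ) : Bool := trZ p fun P N _ => ckN n P N

/-- the weight is positive and `1 ≤ τ ω` -/
noncomputable def zOm (n S : ℕ) (w : List ℤ × List ℤ) : Bool :=
  decide (0 < S) && (ckM n (addZ [-(S : ℤ)] (smZ 1000 w.2)) &&
    (ckM n (addZ [-((S : ℤ) * S)] (mulZ w.1 w.2)) &&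
    (decide (0 < aK (wq S w)) && decide (0 < aL (wq S w)))))

end Pool.Agent.FPX.SWL
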