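import Mathlib
import Pool.Agent.FPX.KENK
import Pool.Agent.FPX.KPW

/-
PWM (helper95): assembly of pointwise certificates. `PWP Ec φ' W Ex S Q`: `Q` is continuous, a lower bound
(`QLow`) at all states, and the pointwise inequality of scheme K (cost `φ'`, weight `W`, spare term `Ex`)
holds at the states of the set `S`. `PWP.max`, `PWP.sup`: the maximum of finitely many certificates serves the
union of the sets. `PWP.id`: the certificate of KPW serves all states with `ν ≤ ν₀` if `φ' = 1` there.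
`PWE_of_low`: the assembly for a cost with `φ' = 1` on `[0, ν₀]`, `ν₀ ≥ 2`: only the states with `ν > ν₀` are
left, and there the spare term of small energy vanishes.
-/

open MeasureTheory Set Filter Topology
open scoped ENNReal NNReal

noncomputable section

namespace Pool.Agent.FPX

open Pool.Agent.EWD

/-- a certificate for the states of the set `S` -/
structure PWP (Ec : ℝ) (φ' W : ℝ → ℝ) (l : ℝ) (Ex : E3 → E3 → E3 → ℝ) (S : E3 → E3 → E3 → Prop)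
    (Q : E3 → E3 → E3 → E3 → E3 → ℝ) : Prop where
  cont : Continuous (fun q : E3 × E3 × E3 × E3 × E3 => Q q.1 q.2.1 q.2.2.1 q.2.2.2.1 q.2.2.2.2)
  low : ∀ v a b A B : E3, ‖v‖ = 1 → inner ℝ v a = (0 : ℝ) → inner ℝ v b = (0 : ℝ) → InW 2 Ec A B →
    QLow v a b A B (Q v a b A B)
  ineq : ∀ v a b T A B : E3, ‖v‖ = 1 → inner ℝ v a = (0 : ℝ) → inner ℝ v b = (0 : ℝ) → InW 2 Ec A B →
    S v a b →
    l * (‖A - a‖ ^ 2 + ‖B - b‖ ^ 2 - 4 * (W (nuv v a b) * ‖T - v‖ ^ 2)) + Ex v a b ≤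
      Q v a b A B - 2 * (φ' (nuv v a b) * dnu v a b T A B)

theorem QLow.max {v a b A B : E3} {q q' : ℝ} (h : QLow v a b A B q) (h' : QLow v a b A B q') :
    QLow v a b A B (max q q') := by
  rcases le_total q q' with h1 | h1
  · rw [max_eq_right h1]
    exact h'
  · rw [max_eq_left h1]
    exact h

variable {Ec l : ℝ} {φ' W : ℝ → ℝ} {Ex : E3 → E3 → E3 → ℝ}

theorem PWP.mono {S S' : E3 → E3 → E3 → Prop} {Q : E3 → E3 → E3 → E3 → E3 → ℝ}
    (h : PWP Ec φ' W l Ex S Q) (hS : ∀ v a b, S' v a b → S v a b) : PWP Ec φ' W l Ex S' Q :=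
  ⟨h.cont, h.low, fun v a b T A B hv ha hb hA hs => h.ineq v a b T A B hv ha hb hA (hS v a b hs)⟩

theorem PWP.max {S S' : E3 → E3 → E3 → Prop} {Q Q' : E3 → E3 → E3 → E3 → E3 → ℝ}
    (h : PWP Ec φ' W l Ex S Q) (h' : PWP Ec φ' W l Ex S' Q') :
    PWP Ec φ' W l Ex (fun v a b => S v a b ∨ S' v a b)
      (fun v a b A B => Max.max (Q v a b A B) (Q' v a b A B)) := by
  refine ⟨h.cont.max h'.cont, fun v a b A B hv ha hb hA => (h.low v a b A B hv ha hb hA).max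
    (h'.low v a b A B hv ha hb hA), fun v a b T A B hv ha hb hA hs => ?_⟩
  rcases hs with hs | hs
  · have h1 := h.ineq v a b T A B hv ha hb hA hs
    have h2 := le_max_left (Q v a b A B) (Q' v a b A B)
    linarith
  · have h1 := h'.ineq v a b T A B hv ha hb hA hs
    have h2 := le_max_right (Q v a b A B) (Q' v a b A B)
    linarith

/-- the maximum of a finite list of certificates -/
theorem PWP.sup {n : ℕ} {S : ℕ → E3 → E3 → E3 → Prop} {Q : ℕ → E3 → E3 → E3 → E3 → E3 → ℝ}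
    (h : ∀ i, i ≤ n → PWP Ec φ' W l Ex (S i) (Q i)) :
    ∃ R : E3 → E3 → E3 → E3 → E3 → ℝ, PWP Ec φ' W l Ex (fun v a b => ∃ i, i ≤ n ∧ S i v a b) R := by
  induction n with
  | zero =>
    refine ⟨Q 0, (h 0 le_rfl).mono fun v a b hs => ?_⟩
    obtain ⟨i, hi, hs⟩ := hs
    have : i = 0 := by omega
    subst this
    exact hs
  | succ n ih =>
    obtain ⟨R, hR⟩ := ih fun i hi => h i (by omega)
    refine ⟨_, (hR.max (h (n + 1) le_rfl)).mono fun v a b hs => ?_⟩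
    obtain ⟨i, hi, hs⟩ := hs
    rcases Nat.lt_or_ge n i with h1 | h1
    · have : i = n + 1 := by omega
      subst this
      exact Or.inr hs
    · exact Or.inl ⟨i, h1, hs⟩

/-- change of cost, weight and spare term on the set `S` -/
theorem PWP.congr {φ₁ W₁ : ℝ → ℝ} {Ex₁ : E3 → E3 → E3 → ℝ} {S : E3 → E3 → E3 → Prop}
    {Q : E3 → E3 → E3 → E3 → E3 → ℝ} (h : PWP Ec φ' W l Ex S Q) (hl : 0 ≤ l)
    (h1 : ∀ v a b, ‖v‖ = 1 → inner ℝ v a = (0 : ℝ) → inner ℝ v b = (0 : ℝ) → S v a b →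
      φ₁ (nuv v a b) = φ' (nuv v a b))
    (h2 : ∀ v a b, ‖v‖ = 1 → inner ℝ v a = (0 : ℝ) → inner ℝ v b = (0 : ℝ) → S v a b →
      W (nuv v a b) ≤ W₁ (nuv v a b))
    (h3 : ∀ v a b, ‖v‖ = 1 → inner ℝ v a = (0 : ℝ) → inner ℝ v b = (0 : ℝ) → S v a b →
      Ex₁ v a b ≤ Ex v a b) :
    PWP Ec φ₁ W₁ l Ex₁ S Q := by
  refine ⟨h.cont, h.low, fun v a b T A B hv ha hb hA hs => ?_⟩
  have k := h.ineq v a b T A B hv ha hb hA hs
  rw [h1 v a b hv ha hb hs]
  have k2 := h2 v a b hv ha hb hs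
  have k3 := h3 v a b hv ha hb hs
  have k4 : l * (‖A - a‖ ^ 2 + ‖B - b‖ ^ 2 - 4 * (W₁ (nuv v a b) * ‖T - v‖ ^ 2)) ≤
      l * (‖A - a‖ ^ 2 + ‖B - b‖ ^ 2 - 4 * (W (nuv v a b) * ‖T - v‖ ^ 2)) := by
    refine mul_le_mul_of_nonneg_left ?_ hl
    have := mul_le_mul_of_nonneg_right k2 (sq_nonneg ‖T - v‖)
    linarith
  linarith

/-- the spare term of small energy minus the tax `F` -/
theorem PWP.id {W F : ℝ → ℝ} {ν₀ : ℝ} (h1 : ∀ x, 0 ≤ x → x ≤ ν₀ → φ' x = 1)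
    (h2 : ∀ x, 0 ≤ x → x ≤ ν₀ → 0 ≤ W x) (h3 : ∀ x, 0 ≤ x → x ≤ ν₀ → 0 ≤ F x)
    (h4 : ∀ x, 0 ≤ x → x ≤ ν₀ → x ^ 2 ≤ W x * (x + F x)) :
    PWP 1 φ' W 1 (fun v a b => PE (enb a b) - F (nuv v a b)) (fun v a b => nuv v a b ≤ ν₀)
      (QP fun _ => 1) := by
  refine ⟨QP_cont continuous_const fun _ => le_rfl, fun v a b A B hv ha hb _ =>
    QP_low (fun _ => le_rfl) hv ha hb A B, fun v a b T A B hv ha hb hA hs => ?_⟩
  have hν : 0 ≤ nuv v a b := by
    unfold nuv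
    positivity
  -- extend the data beyond `ν₀`
  have key := kpw_ge (φ' := fun _ => 1) (W := fun x => if x ≤ ν₀ then W x else x)
    (F := fun x => if x ≤ ν₀ then F x else 0) (t := fun _ => 1)
    (fun _ => le_rfl) (fun _ _ => rfl) (fun _ _ => le_rfl)
    (fun β hβ => by norm_num)
    (fun β hβ => by
      have h0 : 0 ≤ 2 * β ^ 2 := by positivity
      change 0 ≤ if 2 * β ^ 2 ≤ ν₀ then W (2 * β ^ 2) else 2 * β ^ 2
      split_ifs with h
      · exact h2 _ h0 h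
      · exact h0)
    (fun β hβ => by
      have h0 : 0 ≤ 2 * β ^ 2 := by positivity
      have h5 : CB 1 1 β = 2 * β ^ 2 := by
        unfold CB
        ring
      change 0 ≤ CB 1 1 β + if 2 * β ^ 2 ≤ ν₀ then F (2 * β ^ 2) else 0
      rw [h5]
      split_ifs with h
      · have := h3 _ h0 h
        linarith
      · linarith)
    (fun β hβ => by
      have h0 : 0 ≤ 2 * β ^ 2 := by positivity
      have h5 : CB 1 1 β = 2 * β ^ 2 := by
        unfold CB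
        ring
      change (1 * (2 * β ^ 2)) ^ 2 ≤ (if 2 * β ^ 2 ≤ ν₀ then W (2 * β ^ 2) else 2 * β ^ 2) *
        (CB 1 1 β + if 2 * β ^ 2 ≤ ν₀ then F (2 * β ^ 2) else 0)
      rw [h5]
      split_ifs with h
      · have := h4 _ h0 h
        linarith
      · nlinarith)
    T hv ha hb hA
  have hs' : nuv v a b ≤ ν₀ := hs
  simp only [if_pos hs'] at key
  rw [one_mul, h1 _ hν hs']
  exact key

/-- **the assembly**: `φ' = 1` and `W = x / (1 + ζ)` up to `ν₀ ≥ 2`; beyond `ν₀` any certificates without spare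
term, with the tax `ζ φ` -/
theorem PWE_of_low {φ φ' W : ℝ → ℝ} {ν₀ ζ : ℝ} (hν₀ : 2 ≤ ν₀) (hζ : 0 ≤ ζ) (hφ : Continuous φ)
    (φ0 : ∀ x, 0 ≤ x → x ≤ ν₀ → x ≤ φ x) (h1 : ∀ x, 0 ≤ x → x ≤ ν₀ → φ' x = 1)
    (h2 : ∀ x, 0 ≤ x → x ≤ ν₀ → x / (1 + ζ) ≤ W x)
    {n : ℕ} {S : ℕ → E3 → E3 → E3 → Prop} {Q : ℕ → E3 → E3 → E3 → E3 → E3 → ℝ}
    (h : ∀ i, i ≤ n → PWP 1 φ' W 1 (fun v a b => -(ζ * φ (nuv v a b))) (S i) (Q i))
    (hS : ∀ v a b, ‖v‖ = 1 → inner ℝ v a = (0 : ℝ) → inner ℝ v b = (0 : ℝ) → ν₀ < nuv v a b →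
      ∃ i, i ≤ n ∧ S i v a b) :
    ∃ R, PWE φ' W 1 (fun v a b => PE (enb a b) - ζ * φ (nuv v a b)) R := by
  have hz : 0 < 1 + ζ := by linarith
  have p1 : PWP 1 φ' W 1 (fun v a b => PE (enb a b) - ζ * φ (nuv v a b)) (fun v a b => nuv v a b ≤ ν₀)
      (QP fun _ => 1) := by
    refine (PWP.id (φ' := φ') (W := W) (F := fun x => ζ * x) (ν₀ := ν₀) h1 (fun x hx hx' => ?_)
      (fun x hx _ => mul_nonneg hζ hx) (fun x hx hx' => ?_)).congr zero_le_one (fun _ _ _ _ _ _ _ => rfl)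
      (fun _ _ _ _ _ _ _ => le_rfl) (fun v a b _ _ _ hs => ?_)
    · exact (div_nonneg hx hz.le).trans (h2 x hx hx')
    · have k := h2 x hx hx'
      have k1 : x ≤ W x * (1 + ζ) := (div_le_iff₀ hz).1 k
      have k2 := mul_le_mul_of_nonneg_right k1 hx
      nlinarith
    · have hν : 0 ≤ nuv v a b := by
        unfold nuv
        positivity
      have := mul_le_mul_of_nonneg_left (φ0 _ hν hs) hζ
      change PE (enb a b) - ζ * φ (nuv v a b) ≤ PE (enb a b) - ζ * nuv v a b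
      linarith
  have p2 : ∀ i, i ≤ n → PWP 1 φ' W 1 (fun v a b => PE (enb a b) - ζ * φ (nuv v a b))
      (fun v a b => ‖v‖ = 1 ∧ inner ℝ v a = (0 : ℝ) ∧ inner ℝ v b = (0 : ℝ) ∧ ν₀ < nuv v a b ∧ S i v a b)
      (Q i) := by
    intro i hi
    refine ((h i hi).mono fun v a b hs => hs.2.2.2.2).congr zero_le_one (fun _ _ _ _ _ _ _ => rfl)
      (fun _ _ _ _ _ _ _ => le_rfl) (fun v a b hv ha hb hs => ?_)
    have hβ : 1 ≤ enb a b := by
      have j2 := norm_pm hv ha hb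
      have hν := hs.2.2.2.1
      unfold nuv at hν
      unfold enb
      rw [j2]
      nlinarith [sq_nonneg ‖qp v a b‖]
    have hP : PE (enb a b) = 0 := by
      unfold PE
      rw [tauE_one hβ]
      norm_num
    change PE (enb a b) - ζ * φ (nuv v a b) ≤ -(ζ * φ (nuv v a b))
    rw [hP]
    linarith
  obtain ⟨R, hR⟩ := PWP.sup p2
  have hM := p1.max hR
  have hcont : Continuous fun q : E3 × E3 × E3 =>
      PE (enb q.2.1 q.2.2) - ζ * φ (nuv q.1 q.2.1 q.2.2) := by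
    have c1 : Continuous fun q : E3 × E3 × E3 => PE (enb q.2.1 q.2.2) := PE_cont.comp enb_cont
    have c2 : Continuous fun q : E3 × E3 × E3 => nuv q.1 q.2.1 q.2.2 := by
      unfold nuv
      exact continuous_const.mul (qm_cont5.norm.pow 2)
    exact c1.sub (continuous_const.mul (hφ.comp c2))
  refine ⟨_, hcont, hM.cont, fun v a b T A B hv ha hb hA => ⟨hM.low v a b A B hv ha hb hA,
    hM.ineq v a b T A B hv ha hb hA ?_⟩⟩
  rcases le_or_gt (nuv v a b) ν₀ with h5 | h5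
  · exact Or.inl h5
  · obtain ⟨i, hi, hs⟩ := hS v a b hv ha hb h5
    exact Or.inr ⟨i, hi, hv, ha, hb, h5, hs⟩

end Pool.Agent.FPX
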