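import Mathlib
import Pool.Agent.FPX.LCF
import Pool.Agent.FPX.KENK

/-
FPX, QSW (helper29): lower bounds of the pointwise function of the dual inequality with weights which
depend on the polar angle `t` between `p` and `v`: `|Y| ≤ (τ(t) + ω(t) |Y|²) / 2` if `1 ≤ τ ω`. Only
five averages over `t` enter: `h = ⟨τ⟩`, `i = ⟨ω⟩`, `j = ⟨ω s²⟩`, `k = ⟨ω s⁴⟩`, `l = ⟨ω s² c²⟩`, `s = sin t`,
`c = cos t`. The result is a quadratic form in the derivatives `A`, `B` of `Θ`.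
-/

open MeasureTheory Set Filter Topology
open scoped ENNReal NNReal

noncomputable section

namespace Pool.Agent.FPX

open Pool.Agent.EWD

/-- admissible weights and their averages -/
structure SW (h i j k l : ℝ) : Prop where
  ex : ∃ τ ω : ℝ → ℝ, Continuous τ ∧ Continuous ω ∧ (∀ t, 0 < ω t) ∧ (∀ t, 1 ≤ τ t * ω t) ∧
    ∫ t in (0 : ℝ)..Real.pi, τ t = Real.pi * h ∧ ∫ t in (0 : ℝ)..Real.pi, ω t = Real.pi * i ∧
    ∫ t in (0 : ℝ)..Real.pi, ω t * Real.sin t ^ 2 = Real.pi * j ∧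
    ∫ t in (0 : ℝ)..Real.pi, ω t * Real.sin t ^ 4 = Real.pi * k ∧
    ∫ t in (0 : ℝ)..Real.pi, ω t * (Real.sin t ^ 2 * Real.cos t ^ 2) = Real.pi * l
  k0 : 0 < k
  l0 : 0 < l

private theorem qsw_pt {T W r : ℝ} (hW : 0 < W) (h : 1 ≤ T * W) (hr : 0 ≤ r) :
    r ≤ (T + W * r ^ 2) / 2 := by
  have h1 : 0 ≤ (W * r - 1) ^ 2 := sq_nonneg _
  have h2 : W * (2 * r) ≤ W * (T + W * r ^ 2) := by nlinarith
  have h3 := le_of_mul_le_mul_left h2 hW
  linarith

private theorem nsq_mk (x y : ℝ) : ‖(⟨x, y⟩ : ℂ)‖ ^ 2 = x ^ 2 + y ^ 2 := by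
  rw [← Complex.normSq_eq_norm_sq, Complex.normSq_mk]
  ring

/-- the sum of the squares of the three coefficients -/
private theorem qsw_sum (n0 n1 k0 k1 k2 m0 m1 l0 l1 l2 t : ℝ) :
    ‖ca0 n0 n1 k0 k1 m0 m1 l0 l1 t‖ ^ 2 + ‖ca1 k2 l2 t‖ ^ 2 + ‖ca2 n0 n1 k0 k1 m0 m1 l0 l1 t‖ ^ 2 =
      (1 / 2) * (n0 ^ 2 + n1 ^ 2 + m0 ^ 2 + m1 ^ 2)
      - (n0 * k0 + n1 * k1 + m0 * l0 + m1 * l1) * Real.sin t ^ 2
      + (1 / 2) * (k0 ^ 2 + k1 ^ 2 + l0 ^ 2 + l1 ^ 2) * Real.sin t ^ 4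
      + (k2 ^ 2 + l2 ^ 2) * (Real.sin t ^ 2 * Real.cos t ^ 2) := by
  unfold ca0 ca1 ca2
  rw [nsq_mk, nsq_mk, nsq_mk]
  ring

/-- the bound of `E |T_p|` -/
theorem L1_sw {v N N' : E3} (hv : ‖v‖ = 1) (hN : inner ℝ v N = (0 : ℝ)) (hN' : inner ℝ v N' = (0 : ℝ))
    (K K' : E3) {h i j k l : ℝ} (H : SW h i j k l) :
    12 / Real.pi * L1 v N N' K K' ≤ 3 * h + (3 / 2) * i * (‖N‖ ^ 2 + ‖N'‖ ^ 2)
      - 3 * j * (inner ℝ N K + inner ℝ N' K')
      + (3 / 2) * k * ((‖K‖ ^ 2 - inner ℝ v K ^ 2) + (‖K'‖ ^ 2 - inner ℝ v K' ^ 2))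
      + 3 * l * (inner ℝ v K ^ 2 + inner ℝ v K' ^ 2) := by
  obtain ⟨m, F⟩ := exists_frm hv
  obtain ⟨τ, ω, cτ, cω, ω0, τω, e1, e2, e3, e4, e5⟩ := H.ex
  set n := crs v m with hn
  have hF := F
  obtain ⟨R, hR⟩ := hF.iso
  have dec : ∀ X Y : E3, inner ℝ X Y = inner ℝ m X * inner ℝ m Y + inner ℝ n X * inner ℝ n Y
      + inner ℝ v X * inner ℝ v Y := by
    intro X Y
    rw [← R.inner_map_map X Y, inner3, (hR X).1, (hR X).2.1, (hR X).2.2, (hR Y).1, (hR Y).2.1,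
      (hR Y).2.2]
  have e := L1_ang F hN hN' (K := K) (K' := K')
  set n0 : ℝ := inner ℝ m N with hn0
  set n1 : ℝ := inner ℝ n N with hn1
  set m0 : ℝ := inner ℝ m N' with hm0
  set m1 : ℝ := inner ℝ n N' with hm1
  set k0 : ℝ := inner ℝ m K with hk0
  set k1 : ℝ := inner ℝ n K with hk1
  set k2 : ℝ := inner ℝ v K with hk2
  set l0 : ℝ := inner ℝ m K' with hl0
  set l1 : ℝ := inner ℝ n K' with hl1
  set l2 : ℝ := inner ℝ v K' with hl2
  have hmk : ∀ f g : ℝ → ℝ, Continuous f → Continuous g → Continuous (fun q => (⟨f q, g q⟩ : ℂ)) := by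
    intro f g hf hg
    have : (fun q => (⟨f q, g q⟩ : ℂ)) = fun q => (f q : ℂ) + (g q : ℂ) * Complex.I := by
      funext q
      exact Complex.mk_eq_add_mul_I _ _
    rw [this]
    fun_prop
  have c0 : Continuous (fun t => ca0 n0 n1 k0 k1 m0 m1 l0 l1 t) := by
    unfold ca0
    exact hmk _ _ (by fun_prop) (by fun_prop)
  have c1 : Continuous (fun t => ca1 k2 l2 t) := by
    unfold ca1
    exact hmk _ _ (by fun_prop) (by fun_prop)
  have c2 : Continuous (fun t => ca2 n0 n1 k0 k1 m0 m1 l0 l1 t) := by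
    unfold ca2
    exact hmk _ _ (by fun_prop) (by fun_prop)
  -- the inner integral
  have hin : ∀ t : ℝ, ∫ β in (-Real.pi)..Real.pi, ‖zz (ca0 n0 n1 k0 k1 m0 m1 l0 l1 t) (ca1 k2 l2 t)
      (ca2 n0 n1 k0 k1 m0 m1 l0 l1 t) β‖ ≤ Real.pi * (τ t + ω t *
        ((1 / 2) * (n0 ^ 2 + n1 ^ 2 + m0 ^ 2 + m1 ^ 2)
      - (n0 * k0 + n1 * k1 + m0 * l0 + m1 * l1) * Real.sin t ^ 2
      + (1 / 2) * (k0 ^ 2 + k1 ^ 2 + l0 ^ 2 + l1 ^ 2) * Real.sin t ^ 4
      + (k2 ^ 2 + l2 ^ 2) * (Real.sin t ^ 2 * Real.cos t ^ 2))) := by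
    intro t
    set a := ca0 n0 n1 k0 k1 m0 m1 l0 l1 t with ha
    set b := ca1 k2 l2 t with hb
    set c := ca2 n0 n1 k0 k1 m0 m1 l0 l1 t with hc
    have hz := zz_cont a b c
    have h1 : ∫ β in (-Real.pi)..Real.pi, ‖zz a b c β‖ ≤
        ∫ β in (-Real.pi)..Real.pi, (τ t + ω t * ‖zz a b c β‖ ^ 2) / 2 := by
      refine intervalIntegral.integral_mono_on (by linarith [Real.pi_pos])
        (Continuous.intervalIntegrable (by fun_prop) _ _)
        (Continuous.intervalIntegrable (by fun_prop) _ _) ?_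
      intro β _
      exact qsw_pt (ω0 t) (τω t) (norm_nonneg _)
    refine h1.trans (le_of_eq ?_)
    have h2 : ∀ β : ℝ, (τ t + ω t * ‖zz a b c β‖ ^ 2) / 2 = τ t / 2 + ω t / 2 * ‖zz a b c β‖ ^ 2 := by
      intro β
      ring
    simp_rw [h2]
    rw [intervalIntegral.integral_add (Continuous.intervalIntegrable (by fun_prop) _ _)
      (Continuous.intervalIntegrable (by fun_prop) _ _), intervalIntegral.integral_const,
      intervalIntegral.integral_const_mul, par1, ha, hb, hc, qsw_sum]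
    simp only [smul_eq_mul]
    ring
  have hcont : Continuous (fun t => ∫ β in (-Real.pi)..Real.pi,
      ‖zz (ca0 n0 n1 k0 k1 m0 m1 l0 l1 t) (ca1 k2 l2 t) (ca2 n0 n1 k0 k1 m0 m1 l0 l1 t) β‖) := by
    refine intervalIntegral.continuous_parametric_intervalIntegral_of_continuous' ?_ _ _
    unfold zz
    fun_prop
  have hcr : Continuous (fun t => Real.pi * (τ t + ω t *
        ((1 / 2) * (n0 ^ 2 + n1 ^ 2 + m0 ^ 2 + m1 ^ 2)
      - (n0 * k0 + n1 * k1 + m0 * l0 + m1 * l1) * Real.sin t ^ 2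
      + (1 / 2) * (k0 ^ 2 + k1 ^ 2 + l0 ^ 2 + l1 ^ 2) * Real.sin t ^ 4
      + (k2 ^ 2 + l2 ^ 2) * (Real.sin t ^ 2 * Real.cos t ^ 2)))) := by fun_prop
  have hint := intervalIntegral.integral_mono_on (μ := volume) (a := (0 : ℝ)) (b := Real.pi) Real.pi_pos.le
    (hcont.intervalIntegrable _ _) (hcr.intervalIntegrable _ _) (fun t _ => hin t)
  rw [← e] at hint
  have hsp : ∫ t in (0 : ℝ)..Real.pi, Real.pi * (τ t + ω t *
        ((1 / 2) * (n0 ^ 2 + n1 ^ 2 + m0 ^ 2 + m1 ^ 2)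
      - (n0 * k0 + n1 * k1 + m0 * l0 + m1 * l1) * Real.sin t ^ 2
      + (1 / 2) * (k0 ^ 2 + k1 ^ 2 + l0 ^ 2 + l1 ^ 2) * Real.sin t ^ 4
      + (k2 ^ 2 + l2 ^ 2) * (Real.sin t ^ 2 * Real.cos t ^ 2))) =
      Real.pi * (Real.pi * h + (1 / 2) * (n0 ^ 2 + n1 ^ 2 + m0 ^ 2 + m1 ^ 2) * (Real.pi * i)
        - (n0 * k0 + n1 * k1 + m0 * l0 + m1 * l1) * (Real.pi * j)
        + (1 / 2) * (k0 ^ 2 + k1 ^ 2 + l0 ^ 2 + l1 ^ 2) * (Real.pi * k)
        + (k2 ^ 2 + l2 ^ 2) * (Real.pi * l)) := by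
    rw [intervalIntegral.integral_const_mul]
    congr 1
    rw [← e1, ← e2, ← e3, ← e4, ← e5]
    have hh : ∀ t : ℝ, τ t + ω t *
        ((1 / 2) * (n0 ^ 2 + n1 ^ 2 + m0 ^ 2 + m1 ^ 2)
      - (n0 * k0 + n1 * k1 + m0 * l0 + m1 * l1) * Real.sin t ^ 2
      + (1 / 2) * (k0 ^ 2 + k1 ^ 2 + l0 ^ 2 + l1 ^ 2) * Real.sin t ^ 4
      + (k2 ^ 2 + l2 ^ 2) * (Real.sin t ^ 2 * Real.cos t ^ 2)) =
        (((τ t + (1 / 2) * (n0 ^ 2 + n1 ^ 2 + m0 ^ 2 + m1 ^ 2) * ω t)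
        + (-(n0 * k0 + n1 * k1 + m0 * l0 + m1 * l1)) * (ω t * Real.sin t ^ 2))
        + (1 / 2) * (k0 ^ 2 + k1 ^ 2 + l0 ^ 2 + l1 ^ 2) * (ω t * Real.sin t ^ 4))
        + (k2 ^ 2 + l2 ^ 2) * (ω t * (Real.sin t ^ 2 * Real.cos t ^ 2)) := by
      intro t
      ring
    simp_rw [hh]
    rw [intervalIntegral.integral_add (Continuous.intervalIntegrable (by fun_prop) _ _)
      (Continuous.intervalIntegrable (by fun_prop) _ _),
      intervalIntegral.integral_add (Continuous.intervalIntegrable (by fun_prop) _ _)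
      (Continuous.intervalIntegrable (by fun_prop) _ _),
      intervalIntegral.integral_add (Continuous.intervalIntegrable (by fun_prop) _ _)
      (Continuous.intervalIntegrable (by fun_prop) _ _),
      intervalIntegral.integral_add (Continuous.intervalIntegrable (by fun_prop) _ _)
      (Continuous.intervalIntegrable (by fun_prop) _ _),
      intervalIntegral.integral_const_mul, intervalIntegral.integral_const_mul,
      intervalIntegral.integral_const_mul, intervalIntegral.integral_const_mul]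
    ring
  rw [hsp] at hint
  have hpi := Real.pi_pos
  have sq1 : ‖N‖ ^ 2 = n0 ^ 2 + n1 ^ 2 := by
    rw [← real_inner_self_eq_norm_sq, dec N N, hN]
    ring
  have sq2' : ‖N'‖ ^ 2 = m0 ^ 2 + m1 ^ 2 := by
    rw [← real_inner_self_eq_norm_sq, dec N' N', hN']
    ring
  have sq3 : ‖K‖ ^ 2 = k0 ^ 2 + k1 ^ 2 + k2 ^ 2 := by
    rw [← real_inner_self_eq_norm_sq, dec K K]
    ring
  have sq4 : ‖K'‖ ^ 2 = l0 ^ 2 + l1 ^ 2 + l2 ^ 2 := by
    rw [← real_inner_self_eq_norm_sq, dec K' K']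
    ring
  have sq5 : inner ℝ N K = n0 * k0 + n1 * k1 := by
    rw [dec N K, hN]
    ring
  have sq6 : inner ℝ N' K' = m0 * l0 + m1 * l1 := by
    rw [dec N' K', hN']
    ring
  rw [sq1, sq2', sq3, sq4, sq5, sq6]
  have h3 := mul_le_mul_of_nonneg_left hint (show (0 : ℝ) ≤ 3 / Real.pi ^ 2 by positivity)
  have q1 : 3 / Real.pi ^ 2 * (4 * Real.pi * L1 v N N' K K') = 12 / Real.pi * L1 v N N' K K' := by
    field_simp
    ring
  rw [q1] at h3
  refine h3.trans (le_of_eq ?_)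
  field_simp
  ring

/-- the certificate -/
def Qsw (h i j k l : ℝ) (v a b A B : E3) : ℝ :=
  3 - 3 * h + 3 * inner ℝ v (crs b a) - (3 / 2) * i * (‖a‖ ^ 2 + ‖b‖ ^ 2)
    + 3 / (2 * k) * (j ^ 2 * (‖a‖ ^ 2 + ‖b‖ ^ 2) - j * (inner ℝ (crs v b) A - inner ℝ (crs v a) B)
      + (1 / 4) * (‖prj v A‖ ^ 2 + ‖prj v B‖ ^ 2))
    + 3 / (16 * l) * (inner ℝ v A ^ 2 + inner ℝ v B ^ 2)

theorem QLow_sw {v a b : E3} (hv : ‖v‖ = 1) (ha : inner ℝ v a = (0 : ℝ)) (hb : inner ℝ v b = (0 : ℝ))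
    (A B : E3) {h i j k l : ℝ} (H : SW h i j k l) : QLow v a b A B (Qsw h i j k l v a b A B) := by
  have oN : inner ℝ v (crs v b) = (0 : ℝ) := inner_crs_left v b
  have oN' : inner ℝ v (-crs v a) = (0 : ℝ) := by
    rw [inner_neg_right, inner_crs_left, neg_zero]
  have hk := H.k0
  have hl := H.l0
  have key : ∀ N A : E3, inner ℝ v N = (0 : ℝ) → ∃ K : E3,
      (3 / 2) * i * ‖N‖ ^ 2 - 3 * j * inner ℝ N K + (3 / 2) * k * (‖K‖ ^ 2 - inner ℝ v K ^ 2)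
        + 3 * l * inner ℝ v K ^ 2 + (3 / 2) * inner ℝ A K =
      (3 / 2) * i * ‖N‖ ^ 2 - 3 / (2 * k) * (j ^ 2 * ‖N‖ ^ 2 - j * inner ℝ N A + (1 / 4) * ‖prj v A‖ ^ 2)
        - 3 / (16 * l) * inner ℝ v A ^ 2 := by
    intro N A hN
    set P := prj v A with hP
    set w : ℝ := inner ℝ v A with hw
    have hA : A = P + w • v := by
      rw [hP, hw]
      unfold prj
      abel
    have hvP : inner ℝ v P = (0 : ℝ) := prj_perp hv A
    refine ⟨(1 / k) • (j • N - (1 / 2 : ℝ) • P) - (w / (4 * l)) • v, ?_⟩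
    set K := (1 / k) • (j • N - (1 / 2 : ℝ) • P) - (w / (4 * l)) • v with hK
    have hvv := inner_self_one hv
    have k1 : inner ℝ v K = -(w / (4 * l)) := by
      rw [hK, inner_sub_right, inner_smul_right, inner_smul_right, inner_sub_right,
        inner_smul_right, inner_smul_right, hN, hvP, hvv]
      ring
    have k2 : inner ℝ N K = (1 / k) * (j * ‖N‖ ^ 2 - (1 / 2) * inner ℝ N P) := by
      rw [hK, inner_sub_right, inner_smul_right, inner_smul_right, inner_sub_right,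
        inner_smul_right, inner_smul_right, real_inner_self_eq_norm_sq, real_inner_comm v N, hN]
      ring
    have k3 : ‖K‖ ^ 2 = (1 / k) ^ 2 * ‖j • N - (1 / 2 : ℝ) • P‖ ^ 2 + (w / (4 * l)) ^ 2 := by
      rw [hK, norm_sub_sq_real, norm_smul, norm_smul, inner_smul_left, inner_smul_right,
        inner_sub_left, inner_smul_left, inner_smul_left, real_inner_comm v N, real_inner_comm v P,
        hN, hvP, hv, Real.norm_eq_abs, Real.norm_eq_abs, mul_pow, mul_one, sq_abs, sq_abs]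
      simp
    have k4 : ‖j • N - (1 / 2 : ℝ) • P‖ ^ 2 = j ^ 2 * ‖N‖ ^ 2 - j * inner ℝ N P + (1 / 4) * ‖P‖ ^ 2 := by
      rw [norm_sub_sq_real, inner_smul_right, inner_smul_left, norm_smul, norm_smul, mul_pow, mul_pow,
        Real.norm_eq_abs, Real.norm_eq_abs, sq_abs, sq_abs]
      simp only [conj_trivial]
      ring
    have k5 : inner ℝ A K = (1 / k) * (j * inner ℝ N P - (1 / 2) * ‖P‖ ^ 2) - w ^ 2 / (4 * l) := by
      have e1 : inner ℝ P K = (1 / k) * (j * inner ℝ N P - (1 / 2) * ‖P‖ ^ 2) := by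
        rw [hK, inner_sub_right, inner_smul_right, inner_smul_right, inner_sub_right,
          inner_smul_right, inner_smul_right, real_inner_self_eq_norm_sq, real_inner_comm v P, hvP,
          real_inner_comm N P]
        ring
      nth_rewrite 1 [hA]
      rw [inner_add_left, real_inner_smul_left, e1, k1]
      ring
    have k6 : inner ℝ N A = inner ℝ N P := by
      nth_rewrite 1 [hA]
      rw [inner_add_right, inner_smul_right, real_inner_comm v N, hN]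
      ring
    rw [k1, k2, k3, k4, k5, k6]
    field_simp
    ring
  obtain ⟨K, hK⟩ := key (crs v b) A oN
  obtain ⟨K', hK'⟩ := key (-crs v a) B oN'
  refine ⟨K, K', ?_⟩
  have h1 := L1_sw hv oN oN' K K' H
  have n1 : ‖crs v b‖ ^ 2 = ‖b‖ ^ 2 := norm_crs hv hb
  have n2 : ‖-crs v a‖ ^ 2 = ‖a‖ ^ 2 := by
    rw [norm_neg, norm_crs hv ha]
  rw [n1] at hK h1
  rw [n2] at hK' h1
  simp only [inner_neg_left] at hK' h1
  unfold Qsw
  linarith

theorem Qsw_cont {h i j k l : ℝ} :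
    Continuous fun q : E3 × E3 × E3 × E3 × E3 => Qsw h i j k l q.1 q.2.1 q.2.2.1 q.2.2.2.1 q.2.2.2.2 := by
  unfold Qsw
  have hc : ∀ {f : E3 × E3 × E3 × E3 × E3 → E3}, Continuous f → ∀ i, Continuous fun x => f x i :=
    fun {f} hf i => (PiLp.continuous_apply 2 (fun _ : Fin 3 => ℝ) i).comp hf
  have hcrs : ∀ {f g : E3 × E3 × E3 × E3 × E3 → E3}, Continuous f → Continuous g →
      Continuous fun x => crs (f x) (g x) := by
    intro f g hf hg
    have h : ∀ k, Continuous fun x => (crs (f x) (g x)) k := by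
      intro k
      fin_cases k
      · exact ((hc hf 1).mul (hc hg 2)).sub ((hc hf 2).mul (hc hg 1))
      · exact ((hc hf 2).mul (hc hg 0)).sub ((hc hf 0).mul (hc hg 2))
      · exact ((hc hf 0).mul (hc hg 1)).sub ((hc hf 1).mul (hc hg 0))
    exact (PiLp.continuous_toLp 2 (fun _ : Fin 3 => ℝ)).comp (continuous_pi h)
  have c1 : Continuous fun q : E3 × E3 × E3 × E3 × E3 => crs q.2.2.1 q.2.1 := hcrs (by fun_prop) (by fun_prop)
  have c2 : Continuous fun q : E3 × E3 × E3 × E3 × E3 => crs q.1 q.2.2.1 := hcrs (by fun_prop) (by fun_prop)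
  have c3 : Continuous fun q : E3 × E3 × E3 × E3 × E3 => crs q.1 q.2.1 := hcrs (by fun_prop) (by fun_prop)
  have c4 : Continuous fun q : E3 × E3 × E3 × E3 × E3 => prj q.1 q.2.2.2.1 := by
    unfold prj
    fun_prop
  have c5 : Continuous fun q : E3 × E3 × E3 × E3 × E3 => prj q.1 q.2.2.2.2 := by
    unfold prj
    fun_prop
  fun_prop

end Pool.Agent.FPX
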