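import Mathlib
import Pool.Agent.FPX.QSW
import Pool.Agent.FPX.PWM

/-
FPX, PWS (helper29): the pointwise inequality of scheme K from the certificates `Qsw` (weights which depend
on the polar angle), with a multiplier `ρ` for the energy of `Θ`. One state may use any certificate of a finite
list (`Qmx` = maximum).
-/

open MeasureTheory Set Filter Topology
open scoped ENNReal NNReal

noncomputable section

namespace Pool.Agent.FPX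

open Pool.Agent.EWD

/-- the coefficient of the squares -/
def e0w (k ρ m : ℝ) : ℝ := 3 / (4 * k) - 2 * m + 2 * ρ

/-- the coefficient of the conformal part -/
def faw (i j k ρ m : ℝ) : ℝ :=
  3 * (1 - i) + 3 * j ^ 2 / k - 2 * m - (3 * j / k - 4 * m) ^ 2 / (4 * e0w k ρ m)

/-- the coefficient of the anticonformal part -/
def fbw (i j k ρ m s : ℝ) : ℝ :=
  8 * s - 3 * (1 + i) + 3 * j ^ 2 / k - 2 * m - (3 * j / k + 4 * m - 8 * s) ^ 2 / (4 * e0w k ρ m)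

/-- the bound -/
def fsw (h i j k ρ m s P2 q2 : ℝ) : ℝ :=
  3 * (1 - h) - 2 * ρ + faw i j k ρ m * P2 + fbw i j k ρ m s * q2

theorem inner_p {v a b x y : E3} (hv : ‖v‖ = 1) (ha : inner ℝ v a = (0 : ℝ)) :
    (inner ℝ (a + crs v b) (x + crs v y) : ℝ) = 4 * inner ℝ (qp v a b) (qp v x y) := by
  have hvq : inner ℝ v (a + crs v b) = (0 : ℝ) := by
    rw [inner_add_right, ha, inner_crs_left]
    ring
  have e : x + crs v y = (2 : ℝ) • qp v x y + (inner ℝ v x : ℝ) • v := by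
    unfold qp prj
    rw [smul_smul]
    norm_num
    abel
  have e2 : a + crs v b = (2 : ℝ) • qp v a b := by
    unfold qp
    rw [prj_of_perp ha, smul_smul]
    norm_num
  rw [e, inner_add_right, inner_smul_right, inner_smul_right, real_inner_comm v (a + crs v b), hvq,
    e2, inner_smul_left]
  simp only [conj_trivial]
  ring

/-- a quadratic function of a vector -/
theorem vq_ge {e g : ℝ} (he : 0 < e) (x c : E3) :
    -(g ^ 2 / (4 * e)) * ‖x‖ ^ 2 ≤ e * ‖c‖ ^ 2 + g * inner ℝ x c := by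
  have h : 0 ≤ e * ‖c + (g / (2 * e)) • x‖ ^ 2 := by positivity
  rw [norm_add_sq_real, inner_smul_right, norm_smul, mul_pow, Real.norm_eq_abs, sq_abs,
    real_inner_comm x c] at h
  have h2 : e * (‖c‖ ^ 2 + 2 * (g / (2 * e) * inner ℝ x c) + (g / (2 * e)) ^ 2 * ‖x‖ ^ 2) =
      e * ‖c‖ ^ 2 + g * inner ℝ x c + g ^ 2 / (4 * e) * ‖x‖ ^ 2 := by
    field_simp
    ring
  rw [h2] at h
  linarith

/-- **the pointwise inequality from one certificate** -/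
theorem sw_ge {h i j k l ρ m s W E : ℝ} (hk : 0 < k) (hl : 0 < l) (hρ : 0 ≤ ρ) (hs : 0 ≤ s)
    (hW : 0 ≤ m * W) (he : 0 < e0w k ρ m) (hw : 0 ≤ 3 / (16 * l) - m + ρ)
    {v a b A B : E3} (T : E3) (hv : ‖v‖ = 1) (ha : inner ℝ v a = (0 : ℝ))
    (hb : inner ℝ v b = (0 : ℝ)) (hAB : ‖A‖ ^ 2 + ‖B‖ ^ 2 ≤ 2)
    (h0 : 0 ≤ fsw h i j k ρ m s (‖qp v a b‖ ^ 2) (‖qm v a b‖ ^ 2) - E)
    (h1 : (s * nuv v a b) ^ 2 ≤
      m * W * (fsw h i j k ρ m s (‖qp v a b‖ ^ 2) (‖qm v a b‖ ^ 2) - E)) :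
    m * (‖A - a‖ ^ 2 + ‖B - b‖ ^ 2 - 4 * (W * ‖T - v‖ ^ 2)) + E ≤
      Qsw h i j k l v a b A B - 2 * (s * dnu v a b T A B) := by
  set p := qp v a b with hp
  set q := qm v a b with hq
  set c := qp v A B with hc
  set d := qm v A B with hd
  -- identities
  have j1 := jac_pm hv ha hb
  have j2 := norm_pm hv ha hb
  rw [← hp, ← hq] at j1 j2
  have hν : nuv v a b = 2 * ‖q‖ ^ 2 := rfl
  have hS : ‖prj v A‖ ^ 2 + ‖prj v B‖ ^ 2 = 2 * ‖c‖ ^ 2 + 2 * ‖d‖ ^ 2 := by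
    have k := norm_pm (X := prj v A) (Y := prj v B) hv (prj_perp hv A) (prj_perp hv B)
    have k2 : qm v (prj v A) (prj v B) = qm v A B := by
      unfold qm
      rw [prj_prj hv, crs_prj]
    have k3 : qp v (prj v A) (prj v B) = qp v A B := by
      unfold qp
      rw [prj_prj hv, crs_prj]
    rw [k2, k3] at k
    exact k
  set w : ℝ := (inner ℝ v A : ℝ) ^ 2 + (inner ℝ v B : ℝ) ^ 2 with hw'
  have w0 : 0 ≤ w := by positivity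
  have hn1 := norm_prj_sq hv A
  have hn2 := norm_prj_sq hv B
  have h4 : inner ℝ (crs v b) (crs v B) =
      (inner ℝ v v * inner ℝ b B - inner ℝ v b * inner ℝ v B : ℝ) := by
    simp only [inner3, crs0, crs1, crs2]
    ring
  have h5 : inner ℝ a (crs v B) = (-inner ℝ (crs v a) B : ℝ) := by
    simp only [inner3, crs0, crs1, crs2]
    ring
  have h6 : (inner ℝ v v : ℝ) = 1 := inner_self_one hv
  have hm : (inner ℝ (a - crs v b) (A - crs v B) : ℝ) = 4 * inner ℝ q d := inner_q ha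
  have hpp : (inner ℝ (a + crs v b) (A + crs v B) : ℝ) = 4 * inner ℝ p c := inner_p hv ha
  rw [inner_sub_left, inner_sub_right, inner_sub_right, h4, h5, h6, hb] at hm
  rw [inner_add_left, inner_add_right, inner_add_right, h4, h5, h6, hb] at hpp
  have x1 : (inner ℝ a A : ℝ) + inner ℝ b B = 2 * inner ℝ p c + 2 * inner ℝ q d := by linarith
  have x2 : (inner ℝ (crs v b) A : ℝ) - inner ℝ (crs v a) B = 2 * inner ℝ p c - 2 * inner ℝ q d := by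
    linarith
  have e1 : (inner ℝ A a : ℝ) = inner ℝ a A := real_inner_comm _ _
  have e2 : (inner ℝ B b : ℝ) = inner ℝ b B := real_inner_comm _ _
  -- the height
  set y := ‖T - v‖ with hy
  have y0 : 0 ≤ y := norm_nonneg _
  have hz : 1 - y ≤ (inner ℝ v T : ℝ) := by
    have k1 : (inner ℝ v T : ℝ) = 1 + inner ℝ v (T - v) := by
      rw [inner_sub_right, real_inner_self_eq_norm_sq, hv]
      ring
    have k2 := abs_real_inner_le_norm v (T - v)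
    rw [hv, one_mul] at k2
    have k3 := neg_abs_le (inner ℝ v (T - v) : ℝ)
    rw [k1]
    linarith
  have q0 : 0 ≤ ‖q‖ ^ 2 := by positivity
  have q1 := kp_quad (s := s) (ν := nuv v a b) (W := m * W) (y := y) hW h0
    (mul_nonneg hs (nuv_nonneg _ _ _)) h1
  rw [hν] at q1
  have q2 : 8 * s * ‖q‖ ^ 2 * (1 - y) ≤ 8 * s * ‖q‖ ^ 2 * inner ℝ v T :=
    mul_le_mul_of_nonneg_left hz (by positivity)
  -- the squares
  have r1 := vq_ge (g := -(3 * j / k - 4 * m)) he p c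
  have r2 := vq_ge (g := 3 * j / k + 4 * m - 8 * s) he q d
  have r3 : 0 ≤ (3 / (16 * l) - m + ρ) * w := mul_nonneg hw w0
  have r4 : 0 ≤ ρ * (2 - (2 * ‖c‖ ^ 2 + 2 * ‖d‖ ^ 2 + w)) := by
    refine mul_nonneg hρ ?_
    rw [hn1, hn2] at hAB
    linarith
  have hlhs : ‖A - a‖ ^ 2 + ‖B - b‖ ^ 2 = 2 * ‖c‖ ^ 2 + 2 * ‖d‖ ^ 2 + w
      - 2 * (2 * inner ℝ p c + 2 * inner ℝ q d) + (2 * ‖p‖ ^ 2 + 2 * ‖q‖ ^ 2) := by
    rw [norm_sub_sq_real, norm_sub_sq_real, hn1, hn2, e1, e2, ← x1, ← hS, ← j2]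
    ring
  have hQ : Qsw h i j k l v a b A B = 3 - 3 * h + 3 * (‖p‖ ^ 2 - ‖q‖ ^ 2)
      - 3 / 2 * i * (2 * ‖p‖ ^ 2 + 2 * ‖q‖ ^ 2)
      + 3 / (2 * k) * (j ^ 2 * (2 * ‖p‖ ^ 2 + 2 * ‖q‖ ^ 2) - j * (2 * inner ℝ p c - 2 * inner ℝ q d)
        + (1 / 4) * (2 * ‖c‖ ^ 2 + 2 * ‖d‖ ^ 2)) + 3 / (16 * l) * w := by
    unfold Qsw
    rw [j1, j2, x2, hS]
  have hdn : dnu v a b T A B = 4 * (inner ℝ q d - inner ℝ v T * ‖q‖ ^ 2) := rfl
  rw [hlhs, hQ, hdn]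
  unfold fsw faw fbw at q1
  unfold e0w at q1 r1 r2
  have k1 : 3 / (2 * k) * (j ^ 2 * (2 * ‖p‖ ^ 2 + 2 * ‖q‖ ^ 2)
      - j * (2 * inner ℝ p c - 2 * inner ℝ q d) + (1 / 4) * (2 * ‖c‖ ^ 2 + 2 * ‖d‖ ^ 2)) =
      3 * j ^ 2 / k * ‖p‖ ^ 2 + 3 * j ^ 2 / k * ‖q‖ ^ 2 - 3 * j / k * inner ℝ p c
        + 3 * j / k * inner ℝ q d + 3 / (4 * k) * ‖c‖ ^ 2 + 3 / (4 * k) * ‖d‖ ^ 2 := by
    field_simp
    ring
  rw [k1]
  have k2 : (-(3 * j / k - 4 * m)) ^ 2 = (3 * j / k - 4 * m) ^ 2 := by ring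
  rw [k2] at r1
  generalize (3 * j / k - 4 * m) ^ 2 / (4 * (3 / (4 * k) - 2 * m + 2 * ρ)) = g1 at *
  generalize (3 * j / k + 4 * m - 8 * s) ^ 2 / (4 * (3 / (4 * k) - 2 * m + 2 * ρ)) = g2 at *
  generalize 3 * j ^ 2 / k = u1 at *
  generalize 3 * j / k = u2 at *
  generalize 3 / (4 * k) = u3 at *
  generalize 3 / (16 * l) = u4 at *
  linear_combination q1 + q2 + r1 + r2 + r3 + r4

/-- the certificate on a set of states -/
theorem PWP.sw {φ' W : ℝ → ℝ} {m : ℝ} {Ex : E3 → E3 → E3 → ℝ} {S : E3 → E3 → E3 → Prop}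
    {h i j k l ρ : ℝ} (H : SW h i j k l) (hρ : 0 ≤ ρ) (he : 0 < e0w k ρ m)
    (hw : 0 ≤ 3 / (16 * l) - m + ρ)
    (hS : ∀ v a b : E3, ‖v‖ = 1 → inner ℝ v a = (0 : ℝ) → inner ℝ v b = (0 : ℝ) → S v a b →
      0 ≤ φ' (nuv v a b) ∧ 0 ≤ m * W (nuv v a b) ∧
      0 ≤ fsw h i j k ρ m (φ' (nuv v a b)) (‖qp v a b‖ ^ 2) (‖qm v a b‖ ^ 2) - Ex v a b ∧
      (φ' (nuv v a b) * nuv v a b) ^ 2 ≤ m * W (nuv v a b) *
        (fsw h i j k ρ m (φ' (nuv v a b)) (‖qp v a b‖ ^ 2) (‖qm v a b‖ ^ 2) - Ex v a b)) :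
    PWP 1 φ' W m Ex S (Qsw h i j k l) := by
  refine ⟨Qsw_cont, fun v a b A B hv ha hb _ => QLow_sw hv ha hb A B H,
    fun v a b T A B hv ha hb hA hs => ?_⟩
  obtain ⟨h1, h2, h3, h4⟩ := hS v a b hv ha hb hs
  exact sw_ge H.k0 H.l0 hρ h1 h2 he hw T hv ha hb (by linarith [hA.s]) h3 h4

/-- the certificate for an interval of `ν`, tax `ζ φ` -/
theorem PWP.sw_iv {φ φ' W : ℝ → ℝ} {m ζ x₁ x₂ : ℝ} {h i j k l ρ : ℝ} (H : SW h i j k l) (hρ : 0 ≤ ρ)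
    (he : 0 < e0w k ρ m) (hw : 0 ≤ 3 / (16 * l) - m + ρ) (ha : 0 ≤ faw i j k ρ m)
    (h1 : ∀ x, x₁ ≤ x → x ≤ x₂ → 0 ≤ x → 0 ≤ φ' x ∧ 0 ≤ m * W x ∧
      0 ≤ 3 * (1 - h) - 2 * ρ + fbw i j k ρ m (φ' x) * (x / 2) + ζ * φ x ∧
      (φ' x * x) ^ 2 ≤ m * W x *
        (3 * (1 - h) - 2 * ρ + fbw i j k ρ m (φ' x) * (x / 2) + ζ * φ x)) :
    PWP 1 φ' W m (fun v a b => -(ζ * φ (nuv v a b))) (fun v a b => x₁ ≤ nuv v a b ∧ nuv v a b ≤ x₂)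
      (Qsw h i j k l) := by
  refine PWP.sw H hρ he hw fun v a b _ _ _ hs => ?_
  obtain ⟨g1, g2, g3, g4⟩ := h1 _ hs.1 hs.2 (nuv_nonneg _ _ _)
  have hx : ‖qm v a b‖ ^ 2 = nuv v a b / 2 := by
    unfold nuv
    ring
  have hle : 3 * (1 - h) - 2 * ρ + fbw i j k ρ m (φ' (nuv v a b)) * (nuv v a b / 2) + ζ * φ (nuv v a b) ≤
      fsw h i j k ρ m (φ' (nuv v a b)) (‖qp v a b‖ ^ 2) (‖qm v a b‖ ^ 2) - -(ζ * φ (nuv v a b)) := by
    unfold fsw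
    rw [hx]
    have := mul_nonneg ha (sq_nonneg ‖qp v a b‖)
    linarith
  exact ⟨g1, g2, g3.trans hle, g4.trans (mul_le_mul_of_nonneg_left hle g2)⟩

/-- the certificate beyond `x₁`, tax `ζ φ` -/
theorem PWP.sw_ge {φ φ' W : ℝ → ℝ} {m ζ x₁ : ℝ} {h i j k l ρ : ℝ} (H : SW h i j k l) (hρ : 0 ≤ ρ)
    (he : 0 < e0w k ρ m) (hw : 0 ≤ 3 / (16 * l) - m + ρ) (ha : 0 ≤ faw i j k ρ m)
    (h1 : ∀ x, x₁ ≤ x → 0 ≤ x → 0 ≤ φ' x ∧ 0 ≤ m * W x ∧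
      0 ≤ 3 * (1 - h) - 2 * ρ + fbw i j k ρ m (φ' x) * (x / 2) + ζ * φ x ∧
      (φ' x * x) ^ 2 ≤ m * W x *
        (3 * (1 - h) - 2 * ρ + fbw i j k ρ m (φ' x) * (x / 2) + ζ * φ x)) :
    PWP 1 φ' W m (fun v a b => -(ζ * φ (nuv v a b))) (fun v a b => x₁ ≤ nuv v a b)
      (Qsw h i j k l) := by
  refine PWP.sw H hρ he hw fun v a b _ _ _ hs => ?_
  obtain ⟨g1, g2, g3, g4⟩ := h1 _ hs (nuv_nonneg _ _ _)
  have hx : ‖qm v a b‖ ^ 2 = nuv v a b / 2 := by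
    unfold nuv
    ring
  have hle : 3 * (1 - h) - 2 * ρ + fbw i j k ρ m (φ' (nuv v a b)) * (nuv v a b / 2) + ζ * φ (nuv v a b) ≤
      fsw h i j k ρ m (φ' (nuv v a b)) (‖qp v a b‖ ^ 2) (‖qm v a b‖ ^ 2) - -(ζ * φ (nuv v a b)) := by
    unfold fsw
    rw [hx]
    have := mul_nonneg ha (sq_nonneg ‖qp v a b‖)
    linarith
  exact ⟨g1, g2, g3.trans hle, g4.trans (mul_le_mul_of_nonneg_left hle g2)⟩

end Pool.Agent.FPX
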