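import Mathlib
import Pool.Agent.FPX.QSW
import Pool.Agent.FPX.SWB

/-
FPX, SWL (helper29): admissible weights from polynomials in `c = cos 2t` with rational coefficients (lists of
coefficients, constant term first). `swOk τ ω = true` is a finite check of `ω > 0` and `1 ≤ τ ω` on `[-1, 1]`;
`sw_of` gives `SW` with the rational averages. The computable definitions are in SWB.
-/

open MeasureTheory Set Filter Topology
open scoped ENNReal NNReal

noncomputable section

namespace Pool.Agent.FPX.SWL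

open Pool.Agent.EWD Pool.Agent.FPX

/-! ### polynomials as lists -/

/-- the value of a polynomial -/
def evL : List ℚ → ℝ → ℝ
  | [], _ => 0
  | a :: p, x => a + x * evL p x

theorem evL_add : ∀ (p q : List ℚ) (x : ℝ), evL (addL p q) x = evL p x + evL q x
  | [], q, x => by simp [addL, evL]
  | a :: p, [], x => by simp [addL, evL]
  | a :: p, b :: q, x => by
    simp only [addL, evL, evL_add p q x]
    push_cast
    ring

theorem evL_sm (r : ℚ) : ∀ (p : List ℚ) (x : ℝ), evL (smL r p) x = r * evL p x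
  | [], x => by simp [smL, evL]
  | a :: p, x => by
    simp only [smL, evL, evL_sm r p x]
    push_cast
    ring

theorem evL_mul : ∀ (p q : List ℚ) (x : ℝ), evL (mulL p q) x = evL p x * evL q x
  | [], q, x => by simp [mulL, evL]
  | a :: p, q, x => by
    simp only [mulL, evL_add, evL_sm, evL, evL_mul p q x]
    push_cast
    ring

theorem evL_sh (m : ℚ) : ∀ (p : List ℚ) (x : ℝ), evL (shL m p) x = evL p (m + x)
  | [], x => by simp [shL, evL]
  | a :: p, x => by
    simp only [shL, evL_add, evL_sm, evL, evL_sh m p x]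
    ring

theorem abL_nonneg {r : ℚ} (hr : 0 ≤ r) : ∀ p : List ℚ, 0 ≤ abL r p
  | [] => le_rfl
  | a :: p => by
    simp only [abL]
    have := abL_nonneg hr p
    positivity

theorem evL_abs {r : ℚ} {x : ℝ} (hx : |x| ≤ r) : ∀ p : List ℚ, |evL p x| ≤ abL r p
  | [] => by simp [evL, abL]
  | a :: p => by
    simp only [evL, abL]
    have h1 := evL_abs hx p
    have h2 := abs_add_le (a : ℝ) (x * evL p x)
    have h3 : |x * evL p x| ≤ r * abL r p := by
      rw [abs_mul]
      exact mul_le_mul hx h1 (abs_nonneg _) ((abs_nonneg x).trans hx)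
    push_cast
    linarith

theorem lbL_le {r : ℚ} {x : ℝ} (hx : |x| ≤ r) : ∀ p : List ℚ, (lbL r p : ℝ) ≤ evL p x
  | [] => by simp [evL, lbL]
  | a :: p => by
    simp only [evL, lbL]
    have h1 := evL_abs hx p
    have h3 : |x * evL p x| ≤ r * abL r p := by
      rw [abs_mul]
      exact mul_le_mul hx h1 (abs_nonneg _) ((abs_nonneg x).trans hx)
    have h4 := neg_abs_le (x * evL p x)
    push_cast
    linarith

theorem nnC_ok {p : List ℚ} {lo hi : ℚ} (h : nnC p lo hi = true) {x : ℝ} (h1 : lo ≤ x) (h2 : x ≤ hi) :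
    0 ≤ evL p x := by
  have h0 : 0 ≤ lbL ((hi - lo) / 2) (shL ((lo + hi) / 2) p) := of_decide_eq_true h
  have hx : |x - ((lo + hi) / 2 : ℚ)| ≤ (((hi - lo) / 2 : ℚ) : ℝ) := by
    push_cast
    rw [abs_le]
    constructor <;> linarith
  have h3 := lbL_le hx (shL ((lo + hi) / 2) p)
  rw [evL_sh] at h3
  have e : (((lo + hi) / 2 : ℚ) : ℝ) + (x - ((lo + hi) / 2 : ℚ)) = x := by ring
  rw [e] at h3
  have h4 : (0 : ℝ) ≤ (lbL ((hi - lo) / 2) (shL ((lo + hi) / 2) p) : ℝ) := by exact_mod_cast h0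
  linarith

theorem nnR_ok {p : List ℚ} : ∀ (n : ℕ) {lo hi : ℚ}, nnR p n lo hi = true → ∀ {x : ℝ}, lo ≤ x →
    x ≤ hi → 0 ≤ evL p x
  | 0, _, _, h, _, h1, h2 => nnC_ok h h1 h2
  | n + 1, lo, hi, h, x, h1, h2 => by
    rw [nnR, Bool.or_eq_true, Bool.and_eq_true] at h
    rcases h with h | h
    · exact nnC_ok h h1 h2
    · rcases le_total x (((lo + hi) / 2 : ℚ) : ℝ) with h3 | h3
      · exact nnR_ok n h.1 h1 h3
      · exact nnR_ok n h.2 h3 h2

/-! ### averages -/

theorem mom_int : ∀ n : ℕ, ∫ t in (0 : ℝ)..Real.pi, Real.cos (2 * t) ^ n = Real.pi * mom n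
  | 0 => by simp [mom]
  | 1 => by
    rw [mom]
    have := intervalIntegral.integral_comp_mul_left (a := 0) (b := Real.pi)
      (fun x => Real.cos x) (two_ne_zero' ℝ)
    simp only [pow_one]
    rw [this]
    simp
  | n + 2 => by
    have h : ∀ j : ℕ, ∫ t in (0 : ℝ)..Real.pi, Real.cos (2 * t) ^ j =
        (1 / 2 : ℝ) * ∫ x in (0 : ℝ)..(2 * Real.pi), Real.cos x ^ j := by
      intro j
      have := intervalIntegral.integral_comp_mul_left (a := 0) (b := Real.pi)
        (fun x => Real.cos x ^ j) (two_ne_zero' ℝ)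
      rw [this]
      simp
    have ih := mom_int n
    rw [h] at ih
    rw [h, integral_cos_pow, mom]
    push_cast
    simp only [Real.sin_two_pi, Real.sin_zero, mul_zero, sub_self, zero_div, zero_add]
    linear_combination ((n : ℝ) + 1) / (n + 2) * ih

theorem evL_cont : ∀ p : List ℚ, Continuous fun x => evL p x
  | [] => by
    simp only [evL]
    exact continuous_const
  | a :: p => by
    have := evL_cont p
    simp only [evL]
    fun_prop

theorem avL_int : ∀ (p : List ℚ) (n : ℕ), ∫ t in (0 : ℝ)..Real.pi,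
    Real.cos (2 * t) ^ n * evL p (Real.cos (2 * t)) = Real.pi * avL n p
  | [], n => by simp [evL, avL]
  | a :: p, n => by
    have ih := avL_int p (n + 1)
    have hc := evL_cont p
    have e : ∀ t : ℝ, Real.cos (2 * t) ^ n * evL (a :: p) (Real.cos (2 * t)) =
        a * Real.cos (2 * t) ^ n + Real.cos (2 * t) ^ (n + 1) * evL p (Real.cos (2 * t)) := by
      intro t
      simp only [evL]
      ring
    simp_rw [e]
    rw [intervalIntegral.integral_add (Continuous.intervalIntegrable (by fun_prop) _ _)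
      (Continuous.intervalIntegrable (by fun_prop) _ _), ih, intervalIntegral.integral_const_mul,
      mom_int, avL]
    push_cast
    ring

theorem avL_int0 (p : List ℚ) : ∫ t in (0 : ℝ)..Real.pi, evL p (Real.cos (2 * t)) =
    Real.pi * avL 0 p := by
  have := avL_int p 0
  simp only [pow_zero, one_mul] at this
  exact this

/-- **weights from polynomials** -/
theorem sw_of_real {τ ω : List ℚ} (H1 : ∀ x : ℝ, -1 ≤ x → x ≤ 1 → 0 < evL ω x)
    (H2 : ∀ x : ℝ, -1 ≤ x → x ≤ 1 → 1 ≤ evL τ x * evL ω x) (h3 : 0 < avL 0 (wSS ω))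
    (h4 : 0 < avL 0 (wSC ω)) :
    SW (avL 0 τ) (avL 0 ω) (avL 0 (wS ω)) (avL 0 (wSS ω)) (avL 0 (wSC ω)) := by
  have cτ := evL_cont τ
  have cω := evL_cont ω
  have hc : ∀ t : ℝ, -1 ≤ Real.cos (2 * t) ∧ Real.cos (2 * t) ≤ 1 := by
    intro t
    exact ⟨Real.neg_one_le_cos _, Real.cos_le_one _⟩
  have hs : ∀ t : ℝ, Real.sin t ^ 2 = (1 - Real.cos (2 * t)) / 2 := by
    intro t
    have h1 := Real.sin_sq_add_cos_sq t
    rw [Real.cos_two_mul]
    linarith
  have hcc : ∀ t : ℝ, Real.cos t ^ 2 = (1 + Real.cos (2 * t)) / 2 := by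
    intro t
    rw [Real.cos_two_mul]
    ring
  refine ⟨⟨fun t => evL τ (Real.cos (2 * t)), fun t => evL ω (Real.cos (2 * t)), by fun_prop,
    by fun_prop, fun t => H1 _ (hc t).1 (hc t).2, fun t => H2 _ (hc t).1 (hc t).2, avL_int0 τ,
    avL_int0 ω, ?_, ?_, ?_⟩, ?_, ?_⟩
  · rw [← avL_int0 (wS ω)]
    refine intervalIntegral.integral_congr fun t _ => ?_
    simp only [wS, evL_mul, evL]
    rw [hs]
    push_cast
    ring
  · rw [← avL_int0 (wSS ω)]
    refine intervalIntegral.integral_congr fun t _ => ?_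
    simp only [wSS, evL_mul, evL]
    rw [show Real.sin t ^ 4 = (Real.sin t ^ 2) ^ 2 by ring, hs]
    push_cast
    ring
  · rw [← avL_int0 (wSC ω)]
    refine intervalIntegral.integral_congr fun t _ => ?_
    simp only [wSC, evL_mul, evL]
    rw [hs, hcc]
    push_cast
    ring
  · exact_mod_cast h3
  · exact_mod_cast h4

theorem sw_of {n : ℕ} {τ ω : List ℚ} (H : swOk n τ ω = true) :
    SW (avL 0 τ) (avL 0 ω) (avL 0 (wS ω)) (avL 0 (wSS ω)) (avL 0 (wSC ω)) := by
  rw [swOk, Bool.and_eq_true, Bool.and_eq_true, Bool.and_eq_true] at H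
  obtain ⟨⟨⟨H1, H2⟩, H3⟩, H4⟩ := H
  have e1 : ((-1 : ℚ) : ℝ) = -1 := by norm_num
  have e2 : ((1 : ℚ) : ℝ) = 1 := by norm_num
  refine sw_of_real (fun x hx hx' => ?_) (fun x hx hx' => ?_) (of_decide_eq_true H3)
    (of_decide_eq_true H4)
  · have h := nnR_ok n H1 (x := x) (by rw [e1]; exact hx) (by rw [e2]; exact hx')
    rw [evL_add] at h
    simp only [evL] at h
    push_cast at h
    linarith
  · have h := nnR_ok n H2 (x := x) (by rw [e1]; exact hx) (by rw [e2]; exact hx')
    rw [evL_add, evL_mul] at h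
    simp only [evL] at h
    push_cast at h
    linarith

end Pool.Agent.FPX.SWL
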