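import Mathlib
import Pool.Agent.FPX.SWL
import Pool.Agent.FPX.PWS

/-
FPX, SWZ (helper29): the admissible weights `WtP`, `WtQ`, and the fast check of weights with integer
coefficients: the polynomial on `[-1, 1]` is written as a form in `u, v ≥ 0` and subdivided by integer Taylor
shifts (`ckZ`).
-/

open MeasureTheory Set Filter Topology
open scoped ENNReal NNReal

noncomputable section

namespace Pool.Agent.FPX.SWL

open Pool.Agent.EWD Pool.Agent.FPX

/-! ### admissible weights -/

theorem aA_cast (w : List ℚ × List ℚ) : ((aA w : ℚ) : ℝ) = faw (aI w) (aJ w) (aK w) 0 1 := by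
  unfold aA faw e0w
  push_cast
  have e : (3 : ℝ) / (4 * (aK w : ℝ)) - 2 * 1 + 2 * 0 = 3 / (4 * (aK w : ℝ)) - 2 := by ring
  rw [e, mul_one, mul_one]

/-- an admissible weight -/
def WtP (w : List ℚ × List ℚ) : Prop :=
  SW (aH w) (aI w) (aJ w) (aK w) (aL w) ∧ 0 < e0w (aK w) 0 1 ∧
    (0 : ℝ) ≤ 3 / (16 * (aL w : ℝ)) - 1 + 0 ∧ 0 ≤ faw (aI w) (aJ w) (aK w) 0 1

/-- an admissible weight for small energy -/
def WtQ (w : List ℚ × List ℚ) : Prop :=
  SW (aH w) (aI w) (aJ w) (aK w) (aL w) ∧ 0 < e0w (aK w) 0 1 ∧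
    (0 : ℝ) ≤ 3 / (16 * (aL w : ℝ)) - 1 + 0

theorem e0_cast {w : List ℚ × List ℚ} (h : 0 < 3 / (4 * aK w) - 2) : 0 < e0w (aK w) 0 1 := by
  have k : ((0 : ℚ) : ℝ) < ((3 / (4 * aK w) - 2 : ℚ) : ℝ) := by exact_mod_cast h
  push_cast at k
  unfold e0w
  linarith

theorem aL_cast {w : List ℚ × List ℚ} (h : 0 ≤ 3 / (16 * aL w) - 1) :
    (0 : ℝ) ≤ 3 / (16 * (aL w : ℝ)) - 1 + 0 := by
  have k : ((0 : ℚ) : ℝ) ≤ ((3 / (16 * aL w) - 1 : ℚ) : ℝ) := by exact_mod_cast h
  push_cast at k
  linarith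

theorem wtC_ok {w : List ℚ × List ℚ} (h : wtC w = true) : WtP w := by
  rw [wtC, Bool.and_eq_true, Bool.and_eq_true, Bool.and_eq_true] at h
  obtain ⟨⟨⟨h1, h2⟩, h3⟩, h4⟩ := h
  refine ⟨sw_of h1, e0_cast (of_decide_eq_true h2), aL_cast (of_decide_eq_true h3), ?_⟩
  rw [← aA_cast]
  have h5 : 0 ≤ aA w := of_decide_eq_true h4
  exact_mod_cast h5

theorem wtD_ok {w : List ℚ × List ℚ} (h : wtD w = true) : WtQ w := by
  rw [wtD, Bool.and_eq_true, Bool.and_eq_true] at h
  obtain ⟨⟨h1, h2⟩, h3⟩ := h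
  exact ⟨sw_of h1, e0_cast (of_decide_eq_true h2), aL_cast (of_decide_eq_true h3)⟩

/-! ### forced evaluation -/

theorem fN_eq {β : Type} (n : ℕ) (k : ℕ → β) : fN n k = k n := by
  cases n <;> rfl

theorem fL_eq {β : Type} (l : List ℕ) (k : List ℕ → β) : fL l k = k l := by
  induction l generalizing k with
  | nil => rfl
  | cons a l ih =>
    have : fL (a :: l) k = fN a (fun a => fL l (fun l => k (a :: l))) := rfl
    rw [this, fN_eq, ih]

/-! ### forms -/

/-- the homogeneous value `∑ c_i u ^ (n - i) v ^ i` -/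
def hv : List ℕ → ℝ → ℝ → ℝ
  | [], _, _ => 0
  | a :: p, u, v => a * u ^ p.length + v * hv p u v

theorem stN_nil (a : ℕ) : stN [] a = [a] := rfl

theorem stN_cons (b : ℕ) (q : List ℕ) (a : ℕ) : stN (b :: q) a = (a + b) :: stN q b := by
  have : stN (b :: q) a = fN (a + b) (fun c => c :: stN q b) := rfl
  rw [this, fN_eq]

theorem shN_cons (a : ℕ) (p : List ℕ) : shN (a :: p) = stN (shN p) a := rfl

theorem stN_length : ∀ (q : List ℕ) (a : ℕ), (stN q a).length = q.length + 1
  | [], _ => rfl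
  | b :: q, a => by rw [stN_cons, List.length_cons, stN_length q b, List.length_cons]

theorem shN_length : ∀ p : List ℕ, (shN p).length = p.length
  | [] => rfl
  | a :: p => by rw [shN_cons, stN_length, shN_length p, List.length_cons]

theorem hv_st : ∀ (q : List ℕ) (a : ℕ) (u v : ℝ), hv (stN q a) u v = a * u ^ q.length + (u + v) * hv q u v
  | [], a, u, v => by
    rw [stN_nil]
    simp [hv]
  | b :: q, a, u, v => by
    rw [stN_cons]
    simp only [hv, stN_length, List.length_cons, hv_st q b u v]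
    push_cast
    ring

theorem hv_sh : ∀ (p : List ℕ) (u v : ℝ), hv (shN p) u v = hv p u (u + v)
  | [], _, _ => rfl
  | a :: p, u, v => by
    rw [shN_cons, hv_st, hv_sh p, shN_length]
    simp only [hv]

theorem rvN_eq : ∀ (p r : List ℕ), rvN p r = p.reverse ++ r
  | [], r => rfl
  | a :: p, r => by
    have : rvN (a :: p) r = rvN p (a :: r) := rfl
    rw [this, rvN_eq p, List.reverse_cons, List.append_assoc]
    rfl

theorem hv_app : ∀ (p : List ℕ) (a : ℕ) (u v : ℝ), hv (p ++ [a]) u v = u * hv p u v + a * v ^ p.length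
  | [], a, u, v => by simp [hv]
  | b :: p, a, u, v => by
    rw [List.cons_append]
    simp only [hv, hv_app p a u v, List.length_append, List.length_cons, List.length_nil]
    ring

theorem hv_rev : ∀ (p : List ℕ) (u v : ℝ), hv (rvN p []) u v = hv p v u
  | [], _, _ => rfl
  | a :: p, u, v => by
    have ih := hv_rev p u v
    rw [rvN_eq, List.append_nil] at ih ⊢
    rw [List.reverse_cons, hv_app, ih, List.length_reverse]
    simp only [hv]
    ring

theorem geN_ok : ∀ (P N : List ℕ), geN P N = true → P.length = N.length ∧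
    ∀ u v : ℝ, 0 ≤ u → 0 ≤ v → hv N u v ≤ hv P u v
  | [], [], _ => ⟨rfl, fun _ _ _ _ => le_rfl⟩
  | [], _ :: _, h => absurd h (by simp [geN])
  | _ :: _, [], h => absurd h (by simp [geN])
  | a :: P, b :: N, h => by
    have e : geN (a :: P) (b :: N) = and (Nat.ble b a) (geN P N) := rfl
    rw [e, Bool.and_eq_true] at h
    obtain ⟨h1, h2⟩ := geN_ok P N h.2
    have h3 : b ≤ a := Nat.le_of_ble_eq_true h.1
    refine ⟨by simp [h1], fun u v hu hv' => ?_⟩
    simp only [hv]
    have h4 := mul_le_mul_of_nonneg_left (h2 u v hu hv') hv'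
    have h5 : (b : ℝ) * u ^ N.length ≤ a * u ^ P.length := by
      rw [h1]
      exact mul_le_mul_of_nonneg_right (by exact_mod_cast h3) (by positivity)
    linarith

theorem ckN_ok : ∀ (n : ℕ) (P N : List ℕ), ckN n P N = true →
    ∀ u v : ℝ, 0 ≤ u → 0 ≤ v → hv N u v ≤ hv P u v
  | 0, P, N, h, u, v, hu, hv' => (geN_ok P N h).2 u v hu hv'
  | n + 1, P, N, h, u, v, hu, hv' => by
    have e : ckN (n + 1) P N = or (geN P N)
      (and (fL (shN P) fun P1 => fL (shN N) fun N1 => ckN n P1 N1)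
        (fL (shN (rvN P [])) fun P2 => fL (shN (rvN N [])) fun N2 => ckN n P2 N2)) := rfl
    rw [e, fL_eq, fL_eq, fL_eq, fL_eq, Bool.or_eq_true, Bool.and_eq_true] at h
    rcases h with h | ⟨h1, h2⟩
    · exact (geN_ok P N h).2 u v hu hv'
    · rcases le_total u v with h3 | h3
      · have k := ckN_ok n _ _ h1 u (v - u) hu (by linarith)
        rw [hv_sh, hv_sh] at k
        rwa [show u + (v - u) = v by ring] at k
      · have k := ckN_ok n _ _ h2 v (u - v) hv' (by linarith)
        rw [hv_sh, hv_sh, hv_rev, hv_rev] at k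
        rwa [show v + (u - v) = u by ring] at k

/-! ### the transformation -/

theorem mxN_length (c : ℕ) : ∀ (B : List ℕ) (a : ℕ) (P N : List ℕ), (mxN c B a P N).length = B.length
  | [], _, _, _ => rfl
  | b :: B, a, [], _ => by rw [mxN, List.length_cons, mxN_length c B, List.length_cons]
  | b :: B, a, _ :: _, [] => by rw [mxN, List.length_cons, mxN_length c B, List.length_cons]
  | b :: B, a, p :: P, n :: N => by rw [mxN, List.length_cons, mxN_length c B, List.length_cons]

theorem hv_mx (c : ℕ) : ∀ (P N B : List ℕ) (a : ℕ) (u v : ℝ), N.length = P.length →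
    B.length = P.length + 1 →
    hv (mxN c B a P N) u v = c * hv B u v + a * u ^ P.length + v * hv P u v + u * hv N u v
  | [], [], [b], a, u, v, _, _ => by
    simp only [mxN, hv, List.length_nil]
    push_cast
    ring
  | [], [], [], a, u, v, _, h2 => by simp at h2
  | [], [], _ :: _ :: _, a, u, v, _, h2 => by simp at h2
  | [], _ :: _, _, a, u, v, h1, _ => by simp at h1
  | _ :: _, [], _, a, u, v, h1, _ => by simp at h1
  | _ :: _, _ :: _, [], a, u, v, _, h2 => by simp at h2
  | p :: P, n :: N, b :: B, a, u, v, h1, h2 => by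
    have h1' : N.length = P.length := by simpa using h1
    have h2' : B.length = P.length + 1 := by simpa using h2
    have ih := hv_mx c P N B p u v h1' h2'
    rw [mxN]
    simp only [hv, mxN_length, ih, h1', h2', List.length_cons]
    push_cast
    ring

/-- integer polynomials -/
def evZ : List ℤ → ℝ → ℝ
  | [], _ => 0
  | a :: p, x => a + x * evZ p x

/-- the value of the transformation -/
theorem trZ_ok : ∀ (p : List ℤ) (k : List ℕ → List ℕ → List ℕ → Bool), ∃ P N B : List ℕ,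
    trZ p k = k P N B ∧ P.length = p.length ∧ N.length = p.length ∧ B.length = p.length + 1 ∧
    ∀ x : ℝ, hv B (1 - x) (1 + x) = 2 ^ p.length ∧
      2 * (hv P (1 - x) (1 + x) - hv N (1 - x) (1 + x)) = 2 ^ p.length * evZ p x
  | [], k => ⟨[], [], [1], rfl, rfl, rfl, rfl, fun x => ⟨by simp [hv], by simp [hv, evZ]⟩⟩
  | a :: p, k => by
    obtain ⟨P, N, B, e, h1, h2, h3, h4⟩ := trZ_ok p (fun P N B => fL (mxN a.toNat B 0 P N) fun P' =>
      fL (mxN (-a).toNat B 0 N P) fun N' => fL (stN B 0) fun B' => k P' N' B')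
    refine ⟨mxN a.toNat B 0 P N, mxN (-a).toNat B 0 N P, stN B 0, ?_, ?_, ?_, ?_, fun x => ?_⟩
    · have e1 : trZ (a :: p) k = trZ p (fun P N B => fL (mxN a.toNat B 0 P N) fun P' =>
        fL (mxN (-a).toNat B 0 N P) fun N' => fL (stN B 0) fun B' => k P' N' B') := rfl
      rw [e1, e, fL_eq, fL_eq, fL_eq]
    · rw [mxN_length, h3, List.length_cons]
    · rw [mxN_length, h3, List.length_cons]
    · rw [stN_length, h3, List.length_cons]
    · obtain ⟨g1, g2⟩ := h4 x
      have q1 := hv_mx a.toNat P N B 0 (1 - x) (1 + x) (by rw [h1, h2]) (by rw [h3, h1])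
      have q2 := hv_mx (-a).toNat N P B 0 (1 - x) (1 + x) (by rw [h1, h2]) (by rw [h3, h2])
      refine ⟨?_, ?_⟩
      · rw [hv_st, g1, List.length_cons]
        push_cast
        ring
      · rw [q1, q2, g1, List.length_cons]
        have e2 : ((a.toNat : ℝ) - ((-a).toNat : ℝ)) = a := by
          have h := Int.toNat_sub_toNat_neg a
          exact_mod_cast h
        simp only [evZ]
        have e3 : (a.toNat : ℝ) = a + ((-a).toNat : ℝ) := by linarith
        rw [e3]
        push_cast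
        rw [pow_succ]
        linear_combination (2 * x) * g2

theorem ckZ_ok {p : List ℤ} (h : ckZ p = true) {x : ℝ} (h1 : -1 ≤ x) (h2 : x ≤ 1) : 0 ≤ evZ p x := by
  obtain ⟨P, N, B, e, -, -, -, h4⟩ := trZ_ok p (fun P N _ => ckN 24 P N)
  have e1 : ckZ p = trZ p (fun P N _ => ckN 24 P N) := rfl
  rw [e1, e] at h
  have k := ckN_ok 24 P N h (1 - x) (1 + x) (by linarith) (by linarith)
  have g := (h4 x).2
  have h5 : (0 : ℝ) < 2 ^ p.length := by positivity
  by_contra hc
  push Not at hc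
  have := mul_neg_of_pos_of_neg h5 hc
  linarith

/-! ### integer polynomials -/

theorem evZ_add : ∀ (p q : List ℤ) (x : ℝ), evZ (addZ p q) x = evZ p x + evZ q x
  | [], q, x => by simp [addZ, evZ]
  | a :: p, [], x => by simp [addZ, evZ]
  | a :: p, b :: q, x => by
    simp only [addZ, evZ, evZ_add p q x]
    push_cast
    ring

theorem evZ_sm (r : ℤ) : ∀ (p : List ℤ) (x : ℝ), evZ (smZ r p) x = r * evZ p x
  | [], x => by simp [smZ, evZ]
  | a :: p, x => by
    simp only [smZ, evZ, evZ_sm r p x]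
    push_cast
    ring

theorem evZ_mul : ∀ (p q : List ℤ) (x : ℝ), evZ (mulZ p q) x = evZ p x * evZ q x
  | [], q, x => by simp [mulZ, evZ]
  | a :: p, q, x => by
    simp only [mulZ, evZ_add, evZ_sm, evZ, evZ_mul p q x]
    push_cast
    ring

theorem evL_dv (S : ℕ) : ∀ (p : List ℤ) (x : ℝ), evL (dvZ S p) x = evZ p x / S
  | [], x => by simp [dvZ, evL, evZ]
  | a :: p, x => by
    simp only [dvZ, evL, evZ, evL_dv S p x]
    rw [Rat.mkRat_eq_div]
    push_cast
    ring

theorem zOk_ok {S : ℕ} {w : List ℤ × List ℤ} (h : zOk S w = true) :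
    (∀ x : ℝ, -1 ≤ x → x ≤ 1 → 0 < evL (wq S w).2 x) ∧
    (∀ x : ℝ, -1 ≤ x → x ≤ 1 → 1 ≤ evL (wq S w).1 x * evL (wq S w).2 x) := by
  rw [zOk, Bool.and_eq_true, Bool.and_eq_true] at h
  obtain ⟨h0, h1, h2⟩ := h
  have hS : (0 : ℝ) < S := by exact_mod_cast of_decide_eq_true h0
  refine ⟨fun x x1 x2 => ?_, fun x x1 x2 => ?_⟩
  · have k := ckZ_ok h1 x1 x2
    rw [evZ_add, evZ_sm] at k
    simp only [evZ] at k
    push_cast at k
    unfold wq
    rw [evL_dv]
    refine div_pos ?_ hS
    linarith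
  · have k := ckZ_ok h2 x1 x2
    rw [evZ_add, evZ_mul] at k
    simp only [evZ] at k
    push_cast at k
    unfold wq
    rw [evL_dv, evL_dv, div_mul_div_comm, le_div_iff₀ (by positivity)]
    linarith

/-- **the fast check of a weight** -/
theorem wtZ_ok {S : ℕ} {w : List ℤ × List ℤ} (h : wtZ S w = true) : WtP (wq S w) := by
  rw [wtZ, Bool.and_eq_true, Bool.and_eq_true, Bool.and_eq_true, Bool.and_eq_true,
    Bool.and_eq_true] at h
  obtain ⟨h1, h2, h3, h4, h5, h6⟩ := h
  obtain ⟨k1, k2⟩ := zOk_ok h1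
  refine ⟨sw_of_real k1 k2 (of_decide_eq_true h2) (of_decide_eq_true h3), e0_cast (of_decide_eq_true h4),
    aL_cast (of_decide_eq_true h5), ?_⟩
  rw [← aA_cast]
  exact_mod_cast of_decide_eq_true h6

theorem wtY_ok {S : ℕ} {w : List ℤ × List ℤ} (h : wtY S w = true) : WtQ (wq S w) := by
  rw [wtY, Bool.and_eq_true, Bool.and_eq_true, Bool.and_eq_true, Bool.and_eq_true] at h
  obtain ⟨h1, h2, h3, h4, h5⟩ := h
  obtain ⟨k1, k2⟩ := zOk_ok h1
  exact ⟨sw_of_real k1 k2 (of_decide_eq_true h2) (of_decide_eq_true h3),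
    e0_cast (of_decide_eq_true h4), aL_cast (of_decide_eq_true h5)⟩

end Pool.Agent.FPX.SWL
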