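import Mathlib
import Pool.Agent.FPX.SWC
import Pool.Agent.FPX.SWZ

/-
FPX, SWD (helper29): soundness of the check `zOm` of integer weights.
-/

open MeasureTheory Set Filter Topology
open scoped ENNReal NNReal

noncomputable section

namespace Pool.Agent.FPX.SWL

open Pool.Agent.EWD Pool.Agent.FPX

theorem ckM_ok {n : ℕ} {p : List ℤ} (h : ckM n p = true) {x : ℝ} (h1 : -1 ≤ x) (h2 : x ≤ 1) :
    0 ≤ evZ p x := by
  obtain ⟨P, N, B, e, -, -, -, h4⟩ := trZ_ok p (fun P N _ => ckN n P N)
  have e1 : ckM n p = trZ p (fun P N _ => ckN n P N) := rfl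
  rw [e1, e] at h
  have k := ckN_ok n P N h (1 - x) (1 + x) (by linarith) (by linarith)
  have g := (h4 x).2
  have h5 : (0 : ℝ) < 2 ^ p.length := by positivity
  by_contra hc
  push Not at hc
  have := mul_neg_of_pos_of_neg h5 hc
  linarith

/-- **the averages of a checked weight are admissible** -/
theorem zOm_ok {n S : ℕ} {w : List ℤ × List ℤ} (h : zOm n S w = true) :
    SW (aH (wq S w)) (aI (wq S w)) (aJ (wq S w)) (aK (wq S w)) (aL (wq S w)) := by
  rw [zOm, Bool.and_eq_true, Bool.and_eq_true, Bool.and_eq_true, Bool.and_eq_true] at h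
  obtain ⟨h0, h1, h2, h3, h4⟩ := h
  have hS : (0 : ℝ) < S := by exact_mod_cast of_decide_eq_true h0
  refine sw_of_real (fun x x1 x2 => ?_) (fun x x1 x2 => ?_) (of_decide_eq_true h3) (of_decide_eq_true h4)
  · have k := ckM_ok h1 x1 x2
    rw [evZ_add, evZ_sm] at k
    simp only [evZ] at k
    push_cast at k
    unfold wq
    rw [evL_dv]
    refine div_pos ?_ hS
    linarith
  · have k := ckM_ok h2 x1 x2
    rw [evZ_add, evZ_mul] at k
    simp only [evZ] at k
    push_cast at k
    unfold wq
    rw [evL_dv, evL_dv, div_mul_div_comm, le_div_iff₀ (by positivity)]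
    linarith

end Pool.Agent.FPX.SWL
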