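import Mathlib
import Pool.Agent.FPX.SWZ
import Pool.Agent.FPX.PWS
import Pool.Agent.FPX.PNQ

/-
FPX, SWT (helper29): the table of polar weights. Data: the nodes `l` of the penalty (`pkG`, `pkD`), the
polygon `V` of `4 W` as a function of `φ`, the tax `ζ`, polynomial weights and a list of cells
`[x_lo, x_hi]` with the index of the weight. `tabS = true` is a finite rational check; `tabS_ok` gives `PWE`.
-/

open MeasureTheory Set Filter Topology
open scoped ENNReal NNReal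

noncomputable section

namespace Pool.Agent.FPX.SWL

open Pool.Agent.EWD Pool.Agent.FPX

/-! ### the penalty on a cell as a polynomial -/

theorem posL_ev {a lo : ℚ} {x : ℝ} (h : a ≤ lo ∨ x ≤ a) (h1 : lo ≤ x) :
    evL (posL a lo) x = pkP (x - a) := by
  unfold posL
  split_ifs with h2
  · have h3 : (a : ℝ) ≤ lo := by exact_mod_cast h2
    rw [pkP_of_nonneg (by linarith)]
    simp only [evL]
    push_cast
    ring
  · have h3 : x ≤ a := h.resolve_left h2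
    rw [pkP_of_nonpos (by linarith)]
    rfl

/-- no node inside the cell -/
def NdOk (lo : ℚ) (x : ℝ) : ℚ → List (ℚ × ℚ) → Prop
  | a, [] => a ≤ lo ∨ x ≤ a
  | a, (h, _) :: l => (a ≤ lo ∨ x ≤ a) ∧ NdOk lo x (a + h) l

theorem NdOk.head {lo : ℚ} {x : ℝ} {a : ℚ} {l : List (ℚ × ℚ)} (h : NdOk lo x a l) :
    a ≤ lo ∨ x ≤ a := by
  cases l with
  | nil => exact h
  | cons q l => exact h.1

theorem polI_ev {lo : ℚ} {x : ℝ} (h1 : lo ≤ x) : ∀ (l : List (ℚ × ℚ)) (a k : ℚ), NdOk lo x a l →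
    evL (polI lo a k l) x = pkI k (clQ l) (x - a)
  | [], _, _, _ => rfl
  | (h, k') :: l, a, k, ho => by
    have ih := polI_ev h1 l (a + h) k' ho.2
    have e : clQ ((h, k') :: l) = ((h : ℝ), (k' : ℝ)) :: clQ l := rfl
    have p1 := posL_ev ho.1 h1
    have p2 := posL_ev ho.2.head h1
    rw [e]
    simp only [polI, evL_add, evL_sm, pkI, ih, p1, p2]
    push_cast
    rw [show x - (a + h) = x - a - h by ring]
    ring

theorem polJ_ev {lo : ℚ} {x : ℝ} (h1 : lo ≤ x) : ∀ (l : List (ℚ × ℚ)) (a k : ℚ), NdOk lo x a l →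
    evL (polJ lo a k l) x = pkJ k (clQ l) (x - a)
  | [], _, _, _ => rfl
  | (h, k') :: l, a, k, ho => by
    have ih := polJ_ev h1 l (a + h) k' ho.2
    have e : clQ ((h, k') :: l) = ((h : ℝ), (k' : ℝ)) :: clQ l := rfl
    have p1 := posL_ev ho.1 h1
    have p2 := posL_ev ho.2.head h1
    rw [e]
    simp only [polJ, evL_add, evL_sm, evL_mul, pkJ, ih, p1, p2]
    push_cast
    rw [show x - (a + h) = x - a - h by ring]
    ring

theorem sP_ev {l : List (ℚ × ℚ)} {lo : ℚ} {x : ℝ} (h1 : lo ≤ x) (ho : NdOk lo x 0 l) :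
    evL (sP l lo) x = pkD 0 1 (clQ l) x := by
  have := polI_ev h1 l 0 1 ho
  unfold sP pkD
  rw [evL_add, this]
  simp only [evL]
  push_cast
  ring

theorem phP_ev {l : List (ℚ × ℚ)} {lo : ℚ} {x : ℝ} (h1 : lo ≤ x) (ho : NdOk lo x 0 l) :
    evL (phP l lo) x = pkG 0 1 (clQ l) x := by
  have := polJ_ev h1 l 0 1 ho
  unfold phP pkG
  rw [evL_add, this]
  simp only [evL]
  push_cast
  ring

theorem ndC_ok {lo hi : ℚ} {x : ℝ} (hx : x ≤ hi) : ∀ (l : List (ℚ × ℚ)) (a : ℚ), ndC lo hi a l = true →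
    NdOk lo x a l
  | [], a, h => by
    have h1 : a ≤ lo ∨ hi ≤ a := of_decide_eq_true h
    exact h1.imp id fun h2 => hx.trans (by exact_mod_cast h2)
  | (h', k') :: l, a, h => by
    rw [ndC, Bool.and_eq_true] at h
    have h1 : a ≤ lo ∨ hi ≤ a := of_decide_eq_true h.1
    exact ⟨h1.imp id fun h2 => hx.trans (by exact_mod_cast h2), ndC_ok hx l (a + h') h.2⟩

theorem ndU_ok {lo : ℚ} {x : ℝ} : ∀ (l : List (ℚ × ℚ)) (a : ℚ), ndU lo a l = true → NdOk lo x a l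
  | [], a, h => Or.inl (of_decide_eq_true h)
  | (h', k') :: l, a, h => by
    rw [ndU, Bool.and_eq_true] at h
    exact ⟨Or.inl (of_decide_eq_true h.1), ndU_ok l (a + h') h.2⟩

/-! ### the polygon -/

theorem ln2_aff (p q : ℚ × ℚ) : ConcaveOn ℝ univ (ln2 p q) := by
  refine ⟨convex_univ, fun x _ y _ a b ha hb hab => le_of_eq ?_⟩
  simp only [ln2, smul_eq_mul]
  have e : a = 1 - b := by linarith
  rw [e]
  ring

theorem plc_conc : ∀ (l : List (ℚ × ℚ)) (p q : ℚ × ℚ), ConcaveOn ℝ univ (plc p q l)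
  | [], p, q => ln2_aff p q
  | r :: l, p, q => (ln2_aff p q).inf (plc_conc l q r)

/-- a concave function lies above its chord -/
theorem chord_le {f : ℝ → ℝ} (hf : ConcaveOn ℝ univ f) {a b x : ℝ} (hab : a < b) (h1 : a ≤ x)
    (h2 : x ≤ b) : f a + (f b - f a) / (b - a) * (x - a) ≤ f x := by
  have hba : 0 < b - a := by linarith
  have h3 := hf.2 (mem_univ a) (mem_univ b) (show 0 ≤ (b - x) / (b - a) by
    exact div_nonneg (by linarith) hba.le) (show 0 ≤ (x - a) / (b - a) by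
    exact div_nonneg (by linarith) hba.le) (by field_simp; ring)
  simp only [smul_eq_mul] at h3
  have e1 : (b - x) / (b - a) * a + (x - a) / (b - a) * b = x := by
    field_simp
    ring
  rw [e1] at h3
  refine le_trans (le_of_eq ?_) h3
  field_simp
  ring

theorem lastE_ge : ∀ (l : List (ℚ × ℚ)) (p q : ℚ × ℚ), plOk p q l = true → (p.1 : ℝ) ≤ (lastE p q l).1.1
  | [], _, _, _ => le_rfl
  | r :: l, p, q, h => by
    have h1 := plOk_head h
    rw [plOk, Bool.and_eq_true] at h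
    have h2 := lastE_ge l q r h.2
    rw [lastE]
    linarith

theorem plc_last : ∀ (l : List (ℚ × ℚ)) (p q : ℚ × ℚ), plOk p q l = true → ∀ {y : ℝ},
    ((lastE p q l).1.1 : ℝ) ≤ y → plc p q l y = ln2 (lastE p q l).1 (lastE p q l).2 y
  | [], _, _, _, _, _ => rfl
  | r :: l, p, q, h, y, hy => by
    have h' := h
    rw [plOk, Bool.and_eq_true] at h'
    have h2 := lastE_ge l q r h'.2
    rw [lastE] at hy ⊢
    rw [plc_right h (by linarith), plc_last l q r h'.2 hy]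

/-! ### the weights -/

theorem fbP_ev (w : List ℚ × List ℚ) (s : List ℚ) (x : ℝ) :
    evL (fbP w s) x = fbw (aI w) (aJ w) (aK w) 0 1 (evL s x) := by
  unfold fbP fbw e0w
  simp only [evL_add, evL_sm, evL_mul, evL]
  push_cast
  have e : (3 : ℝ) / (4 * (aK w : ℝ)) - 2 * 1 + 2 * 0 = 3 / (4 * (aK w : ℝ)) - 2 := by ring
  rw [e]
  ring

theorem fP_ev (w : List ℚ × List ℚ) (s ph : List ℚ) (ζ : ℚ) (x : ℝ) :
    evL (fP w s ph ζ) x = 3 * (1 - (aH w : ℝ)) - 2 * 0 +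
      fbw (aI w) (aJ w) (aK w) 0 1 (evL s x) * (x / 2) + ζ * evL ph x := by
  unfold fP
  simp only [evL_add, evL_sm, evL_mul, fbP_ev, evL]
  push_cast
  ring

theorem mP_ev (w : List ℚ × List ℚ) (s ph : List ℚ) (ζ c0 c1 : ℚ) (x : ℝ) :
    evL (mP w s ph ζ c0 c1) x = (c0 + c1 * evL ph x) * evL (fP w s ph ζ) x
      - 4 * (evL s x * x) ^ 2 := by
  unfold mP
  simp only [evL_add, evL_sm, evL_mul, evL]
  push_cast
  ring

/-! ### one cell -/

theorem ev_all : ∀ (p : List ℚ), p.all (fun c => decide (0 ≤ c)) = true → ∀ {x : ℝ}, 0 ≤ x →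
    0 ≤ evL p x
  | [], _, _, _ => le_rfl
  | a :: p, h, x, hx => by
    rw [List.all_cons, Bool.and_eq_true] at h
    have h1 : 0 ≤ a := of_decide_eq_true h.1
    have h2 := ev_all p h.2 hx
    have h3 : (0 : ℝ) ≤ a := by exact_mod_cast h1
    rw [evL]
    positivity

theorem ev_sh_all {p : List ℚ} {lo : ℚ} (h : (shL lo p).all (fun c => decide (0 ≤ c)) = true) {x : ℝ}
    (hx : lo ≤ x) : 0 ≤ evL p x := by
  have h1 := ev_all _ h (x := x - lo) (by linarith)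
  rw [evL_sh] at h1
  have e : (lo : ℝ) + (x - lo) = x := by ring
  rwa [e] at h1

variable {l : List (ℚ × ℚ)} {q : ℚ × ℚ} {V : List (ℚ × ℚ)} {ζ : ℚ} {w : List ℚ × List ℚ}

/-- the weight -/
def wF (l : List (ℚ × ℚ)) (q : ℚ × ℚ) (V : List (ℚ × ℚ)) (x : ℝ) : ℝ :=
  plc (0, 0) q V (pkG 0 1 (clQ l) x) / 4

/-- the spare term -/
def tX (l : List (ℚ × ℚ)) (ζ : ℚ) (v a b : E3) : ℝ := -((ζ : ℝ) * pkG 0 1 (clQ l) (nuv v a b))

theorem ok1 (ho : qOk 1 l = true) : pkOk 1 (clQ l) := by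
  have := qOk_pkOk l 1 ho
  rwa [Rat.cast_one] at this

theorem pk_mono (ho : qOk 1 l = true) {x y : ℝ} (h : x ≤ y) :
    pkG 0 1 (clQ l) x ≤ pkG 0 1 (clQ l) y := by
  have := (pen_pkG (ok1 ho)).mono x (y - x) (by linarith)
  have e : x + (y - x) = y := by ring
  rwa [e] at this

theorem ceC_ok (ho : qOk 1 l = true) (hV : plOk (0, 0) q V = true) (hw : WtP w) {lo hi : ℚ}
    (h : ceC l q V ζ w lo hi = true) : PWP 1 (pkD 0 1 (clQ l)) (wF l q V) 1 (tX l ζ)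
      (fun v a b => (lo : ℝ) ≤ nuv v a b ∧ nuv v a b ≤ hi)
      (Qsw (aH w) (aI w) (aJ w) (aK w) (aL w)) := by
  obtain ⟨HS, w1, w2, w3⟩ := hw
  simp only [ceC, Bool.and_eq_true] at h
  obtain ⟨⟨⟨h1, h2⟩, h3⟩, h4⟩ := h
  have hab : qG 0 1 l lo < qG 0 1 l hi := of_decide_eq_true h2
  have hP := pen_pkG (ok1 ho)
  refine PWP.sw_iv (φ := pkG 0 1 (clQ l)) HS le_rfl w1 w2 w3 fun x x1 x2 x0 => ?_
  have nd := ndC_ok x2 l 0 h1
  have es := sP_ev x1 nd
  have ep := phP_ev x1 nd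
  have g3 := nnR_ok 4 h3 x1 x2
  have g4 := nnR_ok 4 h4 x1 x2
  rw [fP_ev, es, ep] at g3
  rw [mP_ev, fP_ev, es, ep] at g4
  -- the polygon
  have ea : ((qG 0 1 l lo : ℚ) : ℝ) = pkG 0 1 (clQ l) lo := by
    have := qG_cast 0 1 l lo
    push_cast at this
    exact this
  have eb : ((qG 0 1 l hi : ℚ) : ℝ) = pkG 0 1 (clQ l) hi := by
    have := qG_cast 0 1 l hi
    push_cast at this
    exact this
  have hab' : ((qG 0 1 l lo : ℚ) : ℝ) < (qG 0 1 l hi : ℚ) := by exact_mod_cast hab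
  have k := chord_le (plc_conc V (0, 0) q) hab' (x := pkG 0 1 (clQ l) x)
    (by rw [ea]; exact pk_mono ho x1) (by rw [eb]; exact pk_mono ho x2)
  have ca := qpl_cast V (0, 0) q (qG 0 1 l lo)
  have cb := qpl_cast V (0, 0) q (qG 0 1 l hi)
  rw [← ca, ← cb] at k
  have hWl : 4 * wF l q V x = plc (0, 0) q V (pkG 0 1 (clQ l) x) := by
    unfold wF
    ring
  have φ0 : 0 ≤ pkG 0 1 (clQ l) x := x0.trans (hP.ge x x0)
  have hpl : 0 ≤ plc (0, 0) q V (pkG 0 1 (clQ l) x) := by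
    have h1 := plc_ge V (0, 0) q hV (x := pkG 0 1 (clQ l) x) (by simpa using φ0)
    simpa using h1
  refine ⟨zero_le_one.trans (hP.ge' x x0), by linarith, g3, ?_⟩
  push_cast at g4
  set f := 3 * (1 - (aH w : ℝ)) - 2 * 0 + fbw (aI w) (aJ w) (aK w) 0 1 (pkD 0 1 (clQ l) x) * (x / 2)
    + ζ * pkG 0 1 (clQ l) x with hf
  have k2 : (qpl (0, 0) q V (qG 0 1 l lo) : ℝ) -
      ((qpl (0, 0) q V (qG 0 1 l hi) : ℝ) - qpl (0, 0) q V (qG 0 1 l lo)) /
        ((qG 0 1 l hi : ℝ) - qG 0 1 l lo) * (qG 0 1 l lo : ℝ) +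
      ((qpl (0, 0) q V (qG 0 1 l hi) : ℝ) - qpl (0, 0) q V (qG 0 1 l lo)) /
        ((qG 0 1 l hi : ℝ) - qG 0 1 l lo) * pkG 0 1 (clQ l) x ≤ 4 * wF l q V x := by
    rw [hWl]
    linarith
  have k3 := mul_le_mul_of_nonneg_right k2 g3
  linarith

theorem ceU_ok (ho : qOk 1 l = true) (hV : plOk (0, 0) q V = true) (hw : WtP w) {lo : ℚ}
    (h : ceU l q V ζ w lo = true) : PWP 1 (pkD 0 1 (clQ l)) (wF l q V) 1 (tX l ζ)
      (fun v a b => (lo : ℝ) ≤ nuv v a b) (Qsw (aH w) (aI w) (aJ w) (aK w) (aL w)) := by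
  obtain ⟨HS, w1, w2, w3⟩ := hw
  simp only [ceU, Bool.and_eq_true] at h
  obtain ⟨⟨⟨h1, h2⟩, h3⟩, h4⟩ := h
  have hE : (lastE (0, 0) q V).1.1 ≤ qG 0 1 l lo := of_decide_eq_true h2
  have hP := pen_pkG (ok1 ho)
  refine PWP.sw_ge (φ := pkG 0 1 (clQ l)) HS le_rfl w1 w2 w3 fun x x1 x0 => ?_
  have nd : NdOk lo x 0 l := ndU_ok l 0 h1
  have es := sP_ev x1 nd
  have ep := phP_ev x1 nd
  have g3 := ev_sh_all h3 x1
  have g4 := ev_sh_all h4 x1
  rw [fP_ev, es, ep] at g3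
  rw [mP_ev, fP_ev, es, ep] at g4
  have ea : ((qG 0 1 l lo : ℚ) : ℝ) = pkG 0 1 (clQ l) lo := by
    have := qG_cast 0 1 l lo
    push_cast at this
    exact this
  have hE' : ((lastE (0, 0) q V).1.1 : ℝ) ≤ pkG 0 1 (clQ l) x := by
    have h5 : ((lastE (0, 0) q V).1.1 : ℝ) ≤ (qG 0 1 l lo : ℚ) := by exact_mod_cast hE
    rw [ea] at h5
    exact h5.trans (pk_mono ho x1)
  have k := plc_last V (0, 0) q hV hE'
  have hWl : 4 * wF l q V x = plc (0, 0) q V (pkG 0 1 (clQ l) x) := by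
    unfold wF
    ring
  have φ0 : 0 ≤ pkG 0 1 (clQ l) x := x0.trans (hP.ge x x0)
  have hpl : 0 ≤ plc (0, 0) q V (pkG 0 1 (clQ l) x) := by
    have h1 := plc_ge V (0, 0) q hV (x := pkG 0 1 (clQ l) x) (by simpa using φ0)
    simpa using h1
  refine ⟨zero_le_one.trans (hP.ge' x x0), by linarith, g3, ?_⟩
  push_cast at g4
  set f := 3 * (1 - (aH w : ℝ)) - 2 * 0 + fbw (aI w) (aJ w) (aK w) 0 1 (pkD 0 1 (clQ l) x) * (x / 2)
    + ζ * pkG 0 1 (clQ l) x with hf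
  have k2 : 4 * wF l q V x = ((lastE (0, 0) q V).1.2 : ℝ) -
      (((lastE (0, 0) q V).2.2 : ℝ) - (lastE (0, 0) q V).1.2) /
        (((lastE (0, 0) q V).2.1 : ℝ) - (lastE (0, 0) q V).1.1) * ((lastE (0, 0) q V).1.1 : ℝ) +
      (((lastE (0, 0) q V).2.2 : ℝ) - (lastE (0, 0) q V).1.2) /
        (((lastE (0, 0) q V).2.1 : ℝ) - (lastE (0, 0) q V).1.1) * pkG 0 1 (clQ l) x := by
    rw [hWl, k]
    unfold ln2
    ring
  rw [← k2] at g4
  linarith

/-! ### the table -/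

theorem wsC_ok {ws : List (List ℚ × List ℚ)} (h : wsC ws = true) : ∀ w ∈ ws, WtP w :=
  fun w hw => wtC_ok (List.all_eq_true.1 h w hw)

theorem getD_ok {ws : List (List ℚ × List ℚ)} (h : ∀ w ∈ ws, WtP w) {i : ℕ} (hi : i < ws.length) :
    WtP (ws.getD i ([], [])) := by
  rw [List.getD_eq_getElem _ _ hi]
  exact h _ (List.getElem_mem hi)

theorem tbC_ok (ho : qOk 1 l = true) (hV : plOk (0, 0) q V = true) {ws : List (List ℚ × List ℚ)}
    (hw : ∀ w ∈ ws, WtP w) {last : ℕ} : ∀ (c : List (ℚ × ℕ)) (lo : ℚ), ixC ws.length last c = true →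
    tbC l q V ζ ws last lo c = true →
    ∃ R, PWP 1 (pkD 0 1 (clQ l)) (wF l q V) 1 (tX l ζ) (fun v a b => (lo : ℝ) ≤ nuv v a b) R
  | [], lo, hi, h => by
    rw [ixC, Bool.and_eq_true] at hi
    exact ⟨_, ceU_ok ho hV (getD_ok hw (of_decide_eq_true hi.1)) h⟩
  | (x, i) :: c, lo, hi, h => by
    rw [ixC, Bool.and_eq_true, List.all_cons, Bool.and_eq_true] at hi
    rw [tbC, Bool.and_eq_true] at h
    have h1 := ceC_ok ho hV (getD_ok hw (of_decide_eq_true hi.2.1)) h.1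
    obtain ⟨R, hR⟩ := tbC_ok ho hV hw c x (by
      rw [ixC, Bool.and_eq_true]
      exact ⟨hi.1, hi.2.2⟩) h.2
    refine ⟨_, (h1.max hR).mono fun v a b hs => ?_⟩
    rcases le_total (nuv v a b) x with h5 | h5
    · exact Or.inl ⟨hs, h5⟩
    · exact Or.inr h5

/-- **the table gives the pointwise inequality** -/
theorem tabS_ok {ν₀ : ℚ} {ws : List (List ℚ × List ℚ)} {last : ℕ} {c : List (ℚ × ℕ)}
    (ho : qOk 1 l = true) (hV : plOk (0, 0) q V = true) (hw : ∀ w ∈ ws, WtP w)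
    (hi : ixC ws.length last c = true) (hl : loC l q V ζ ν₀ = true)
    (h : tbC l q V ζ ws last ν₀ c = true) :
    ∃ Q, PWE (pkD 0 1 (clQ l)) (fun x => plc (0, 0) q V (pkG 0 1 (clQ l) x) / 4) 1
      (fun v a b => PE (enb a b) - ζ * pkG 0 1 (clQ l) (nuv v a b)) Q := by
  obtain ⟨R, hR⟩ := tbC_ok ho hV hw c ν₀ hi h
  obtain ⟨h1, h2, h3, h4⟩ := of_decide_eq_true hl
  have hP := pen_pkG (ok1 ho)
  have hν : (2 : ℝ) ≤ ν₀ := by exact_mod_cast h1
  have hζ : (0 : ℝ) ≤ ζ := by exact_mod_cast h2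
  have hI0 : pkI 1 (clQ l) ν₀ = 0 := by
    have := qI_cast l 1 ν₀
    rw [h3] at this
    push_cast at this
    exact this.symm
  have hI : ∀ x : ℝ, x ≤ ν₀ → pkI 1 (clQ l) x = 0 := fun x hx => by
    have k1 := pkI_mono (clQ l) 1 (ok1 ho) hx
    have k2 := pkI_nonneg (clQ l) 1 x (ok1 ho)
    linarith
  have hD : ∀ x : ℝ, 0 ≤ x → x ≤ ν₀ → pkD 0 1 (clQ l) x = 1 := fun x _ hx => by
    unfold pkD
    rw [sub_zero, hI x hx]
    ring
  -- the penalty is the identity up to `ν₀`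
  have hG : ∀ x : ℝ, 0 ≤ x → x ≤ ν₀ → pkG 0 1 (clQ l) x = x := fun x x0 hx => by
    have g1 := hP.ge x x0
    have g2 := hP.quad x (-x) x0
    have hd : ∀ y, HasDerivAt (pkG 0 1 (clQ l)) (pkD 0 1 (clQ l) y) y := fun y => by
      have h1 := pkJ_hasDerivAt (clQ l) 1 (y - 0)
      have h2 : HasDerivAt (fun y => pkJ 1 (clQ l) (y - 0)) (pkI 1 (clQ l) (y - 0)) y :=
        HasDerivAt.comp_sub_const y 0 h1
      have h3 : HasDerivAt (fun y : ℝ => 1 * (y - 0)) 1 y := by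
        have := ((hasDerivAt_id y).sub_const 0).const_mul (1 : ℝ)
        rwa [mul_one] at this
      exact h3.add h2
    have g0 : pkG 0 1 (clQ l) 0 = 0 := by
      have := pkJ_of_nonpos (clQ l) 1 (x := 0) (ok1 ho) le_rfl
      unfold pkG
      rw [sub_zero, this]
      ring
    rcases eq_or_lt_of_le x0 with h0 | h0
    · rw [← h0, g0]
    · obtain ⟨y, hy, e⟩ := exists_hasDerivAt_eq_slope (pkG 0 1 (clQ l)) (pkD 0 1 (clQ l)) h0
        (continuous_iff_continuousAt.2 fun y => (hd y).continuousAt).continuousOn fun y _ => hd y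
      rw [hD y hy.1.le (by linarith [hy.2]), g0, sub_zero, sub_zero] at e
      field_simp at e
      linarith
  refine PWE_of_low (ν₀ := ν₀) (n := 0) (S := fun _ v a b => (ν₀ : ℝ) ≤ nuv v a b) (Q := fun _ => R)
    hν hζ hP.cont (fun x x0 _ => hP.ge x x0) hD (fun x x0 hx => ?_) (fun i _ => hR)
    (fun v a b _ _ _ h5 => ⟨0, le_rfl, h5.le⟩)
  -- the weight below `ν₀`
  have hνp : (0 : ℝ) < ν₀ := by linarith
  have k := chord_le (plc_conc V (0, 0) q) hνp x0 hx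
  have k0 : 0 ≤ plc (0, 0) q V 0 := by
    have h1 := plc_ge V (0, 0) q hV (x := 0) (by simp)
    simpa using h1
  have k4 : 4 * (ν₀ : ℝ) ≤ plc (0, 0) q V ν₀ * (1 + ζ) := by
    rw [← qpl_cast]
    exact_mod_cast h4
  rw [hG x x0 hx, div_le_div_iff₀ (by linarith) (by norm_num)]
  have hz : (0 : ℝ) < 1 + ζ := by linarith
  have k5 : x / ν₀ * plc (0, 0) q V ν₀ ≤ plc (0, 0) q V x := by
    refine le_trans ?_ k
    have h6 : (0 : ℝ) ≤ (1 - x / ν₀) * plc (0, 0) q V 0 := by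
      refine mul_nonneg ?_ k0
      have := (div_le_one hνp).2 hx
      linarith
    have e : plc (0, 0) q V 0 + (plc (0, 0) q V ν₀ - plc (0, 0) q V 0) / ((ν₀ : ℝ) - 0) * (x - 0) =
        x / ν₀ * plc (0, 0) q V ν₀ + (1 - x / ν₀) * plc (0, 0) q V 0 := by
      rw [sub_zero, sub_zero]
      field_simp
      ring
    rw [e]
    linarith
  have k6 := mul_le_mul_of_nonneg_right k5 hz.le
  have k7 : x * 4 ≤ x / ν₀ * plc (0, 0) q V ν₀ * (1 + ζ) := by
    have h7 := mul_le_mul_of_nonneg_left k4 (div_nonneg x0 hνp.le)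
    have hne : (ν₀ : ℝ) ≠ 0 := hνp.ne'
    have e : x / (ν₀ : ℝ) * (4 * ν₀) = x * 4 := by
      rw [div_mul_eq_mul_div, div_eq_iff hne]
      ring
    rw [e] at h7
    linarith
  linarith

end Pool.Agent.FPX.SWL
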