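import Mathlib
import Pool.Agent.FPX.SWT

/-
FPX, SWU (helper29): the table of polar weights for a penalty with `φ' > 1` already below `ν = 2`, with the
spare term `PE` of small energy. A cell `[lo, hi]` below `2` uses one weight for the states of energy `≥ 1` and
one weight for the states of energy `≤ 1`. `tabU_ok` gives `PWE`.
-/

open MeasureTheory Set Filter Topology
open scoped ENNReal NNReal

noncomputable section

namespace Pool.Agent.FPX.SWL

open Pool.Agent.EWD Pool.Agent.FPX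

/-! ### the spare term -/

theorem PE_mid {e : ℝ} (h1 : 1 / 4 ≤ e) (h2 : e ≤ 1) : PE e = 1 + e - 2 * √e := by
  have h0 : 0 ≤ e := by linarith
  have hs := Real.sq_sqrt h0
  have s0 : 0 ≤ √e := Real.sqrt_nonneg e
  have s1 : √e ≤ 1 := by
    exact (Real.sqrt_le_sqrt h2).trans_eq Real.sqrt_one
  have s2 : 1 / 2 ≤ √e := by
    by_contra hc
    push Not at hc
    nlinarith
  have h3 : tauE e = √e := by
    unfold tauE
    rw [min_eq_left s1, max_eq_left s2]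
  unfold PE
  rw [h3]
  have h5 : √e ≠ 0 := by linarith
  have k1 : e * (1 / √e) = √e := by
    rw [mul_one_div, div_eq_iff h5, ← pow_two, hs]
  rw [mul_sub, mul_one, k1]
  ring

/-- the bound of the spare term on the segment `[y, 1]` by its value at `y` -/
theorem PE_seg {y e r t : ℝ} (hy : 1 / 4 ≤ y) (hye : y ≤ e) (he : e ≤ 1) (hr : r ^ 2 ≤ y)
    (ht : e - y = t * (1 - y)) (ht0 : 0 ≤ t) (ht1 : t ≤ 1) :
    PE e ≤ (1 - t) * (1 + y - 2 * r) := by
  have h0 : 0 ≤ y := by linarith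
  rw [PE_mid (by linarith) he]
  have hy1 := Real.sq_sqrt h0
  have hr1 : r ≤ √y := Real.le_sqrt_of_sq_le hr
  have sy1 : √y ≤ 1 := (Real.sqrt_le_sqrt (show y ≤ 1 by linarith)).trans_eq Real.sqrt_one
  have h1 : (1 - t) * √y + t ≤ √e := by
    refine Real.le_sqrt_of_sq_le ?_
    have e1 : e = (1 - t) * y + t := by linarith
    rw [e1]
    have : ((1 - t) * √y + t) ^ 2 = (1 - t) * √y ^ 2 + t - t * (1 - t) * (1 - √y) ^ 2 := by ring
    rw [this, hy1]
    have := mul_nonneg (mul_nonneg ht0 (sub_nonneg.2 ht1)) (sq_nonneg (1 - √y))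
    linarith
  have h2 : (1 - t) * r ≤ (1 - t) * √y := mul_le_mul_of_nonneg_left hr1 (by linarith)
  have e1 : e = (1 - t) * y + t := by linarith
  rw [e1] at h1 ⊢
  linarith

theorem mG_ev (g : List ℚ) (s ph : List ℚ) (c0 c1 : ℚ) (x : ℝ) :
    evL (mG g s ph c0 c1) x = (c0 + c1 * evL ph x) * evL g x - 4 * (evL s x * x) ^ 2 := by
  unfold mG
  simp only [evL_add, evL_sm, evL_mul, evL]
  push_cast
  ring

theorem gB_ev (w : List ℚ × List ℚ) (s ph : List ℚ) (ζ : ℚ) (x : ℝ) :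
    evL (gB w s ph ζ) x = evL (fP w s ph ζ) x + faw (aI w) (aJ w) (aK w) 0 1 * (1 - x / 2) := by
  unfold gB
  rw [evL_add, ← aA_cast]
  simp only [evL]
  push_cast
  ring

theorem gA_ev (w : List ℚ × List ℚ) (s ph : List ℚ) (ζ lo hi r1 r2 : ℚ) (x : ℝ) :
    evL (gA w s ph ζ lo hi r1 r2) x = evL (fP w s ph ζ) x -
      (1 + x / 2 - 2 * (r1 + (r2 - r1) / (hi - lo) * (x - lo))) := by
  unfold gA bP
  simp only [evL_add, evL_sm, evL]
  push_cast
  ring

variable {l : List (ℚ × ℚ)} {q : ℚ × ℚ} {V : List (ℚ × ℚ)} {ζ : ℚ} {w : List ℚ × List ℚ}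

/-- the spare term with tax -/
def tE (l : List (ℚ × ℚ)) (ζ : ℚ) (v a b : E3) : ℝ :=
  PE (enb a b) - (ζ : ℝ) * pkG 0 1 (clQ l) (nuv v a b)

/-- the polygon on a cell -/
theorem wF_ge (ho : qOk 1 l = true) {lo hi : ℚ} (hab : qG 0 1 l lo < qG 0 1 l hi) {x : ℝ} (x1 : lo ≤ x)
    (x2 : x ≤ hi) :
    let a := qG 0 1 l lo
    let b := qG 0 1 l hi
    let wa := qpl (0, 0) q V a
    let wb := qpl (0, 0) q V b
    ((wa - (wb - wa) / (b - a) * a : ℚ) : ℝ) + ((wb - wa) / (b - a) : ℚ) * pkG 0 1 (clQ l) x ≤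
      4 * wF l q V x := by
  intro a b wa wb
  have ea : ((a : ℚ) : ℝ) = pkG 0 1 (clQ l) lo := by
    have := qG_cast 0 1 l lo
    push_cast at this
    exact this
  have eb : ((b : ℚ) : ℝ) = pkG 0 1 (clQ l) hi := by
    have := qG_cast 0 1 l hi
    push_cast at this
    exact this
  have hab' : (a : ℝ) < b := by exact_mod_cast hab
  have k := chord_le (plc_conc V (0, 0) q) hab' (x := pkG 0 1 (clQ l) x)
    (by rw [ea]; exact pk_mono ho x1) (by rw [eb]; exact pk_mono ho x2)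
  have ca := qpl_cast V (0, 0) q a
  have cb := qpl_cast V (0, 0) q b
  rw [← ca, ← cb] at k
  have hWl : 4 * wF l q V x = plc (0, 0) q V (pkG 0 1 (clQ l) x) := by
    unfold wF
    ring
  rw [hWl]
  change _ ≤ _
  push_cast
  linarith

theorem wF_nonneg (ho : qOk 1 l = true) (hV : plOk (0, 0) q V = true) {x : ℝ} (x0 : 0 ≤ x) :
    0 ≤ wF l q V x := by
  have hP := pen_pkG (ok1 ho)
  have φ0 : 0 ≤ pkG 0 1 (clQ l) x := x0.trans (hP.ge x x0)
  have h1 := plc_ge V (0, 0) q hV (x := pkG 0 1 (clQ l) x) (by simpa using φ0)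
  unfold wF
  have h2 : (0 : ℝ) ≤ plc (0, 0) q V (pkG 0 1 (clQ l) x) := by simpa using h1
  linarith

theorem enb_eq {v a b : E3} (hv : ‖v‖ = 1) (ha : inner ℝ v a = (0 : ℝ)) (hb : inner ℝ v b = (0 : ℝ)) :
    enb a b = ‖qp v a b‖ ^ 2 + nuv v a b / 2 := by
  have j2 := norm_pm hv ha hb
  unfold enb nuv
  rw [j2]
  ring

theorem fsw_eq (h i j k s x P : ℝ) : fsw h i j k 0 1 s P (x / 2) =
    3 * (1 - h) - 2 * 0 + fbw i j k 0 1 s * (x / 2) + faw i j k 0 1 * P := by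
  unfold fsw
  ring

theorem ceL_ok (ho : qOk 1 l = true) (hV : plOk (0, 0) q V = true) {u : List ℚ × List ℚ}
    (hw : WtP w) (hu : WtQ u) {lo hi r1 r2 : ℚ}
    (h : ceL l q V ζ w u lo hi r1 r2 = true) :
    PWP 1 (pkD 0 1 (clQ l)) (wF l q V) 1 (tE l ζ)
      (fun v a b => ‖v‖ = 1 ∧ inner ℝ v a = (0 : ℝ) ∧ inner ℝ v b = (0 : ℝ) ∧
        (lo : ℝ) ≤ nuv v a b ∧ nuv v a b ≤ hi)
      (fun v a b A B => max (Qsw (aH w) (aI w) (aJ w) (aK w) (aL w) v a b A B)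
        (Qsw (aH u) (aI u) (aJ u) (aK u) (aL u) v a b A B)) := by
  obtain ⟨HS, w1, w2, w3⟩ := hw
  obtain ⟨HU, u1, u2⟩ := hu
  simp only [ceL, Bool.and_eq_true] at h
  obtain ⟨⟨⟨⟨⟨⟨⟨⟨h1, h2⟩, h3⟩, hb1⟩, hb2⟩, hb3⟩, hb4⟩, ha1⟩, ha2⟩ := h
  have hab : qG 0 1 l lo < qG 0 1 l hi := of_decide_eq_true h2
  obtain ⟨g1, g2, g3, g4, g5, g6, g7⟩ := of_decide_eq_true h3
  have hP := pen_pkG (ok1 ho)
  have g1' : (1 : ℝ) / 2 ≤ lo := by
    have : ((1 / 2 : ℚ) : ℝ) ≤ lo := by exact_mod_cast g1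
    push_cast at this
    exact this
  have g2' : (lo : ℝ) < hi := by exact_mod_cast g2
  have g3' : (hi : ℝ) ≤ 2 := by exact_mod_cast g3
  -- the values
  have main : ∀ x : ℝ, lo ≤ x → x ≤ hi →
      (∀ g : List ℚ, nnR g 4 lo hi = true → nnR (mG g (sP l lo) (phP l lo)
        (qpl (0, 0) q V (qG 0 1 l lo) - (qpl (0, 0) q V (qG 0 1 l hi) - qpl (0, 0) q V (qG 0 1 l lo)) /
          (qG 0 1 l hi - qG 0 1 l lo) * qG 0 1 l lo)
        ((qpl (0, 0) q V (qG 0 1 l hi) - qpl (0, 0) q V (qG 0 1 l lo)) /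
          (qG 0 1 l hi - qG 0 1 l lo))) 4 lo hi = true →
        0 ≤ evL g x ∧ (pkD 0 1 (clQ l) x * x) ^ 2 ≤ wF l q V x * evL g x) := by
    intro x x1 x2 g k1 k2
    have nd := ndC_ok x2 l 0 h1
    have es := sP_ev x1 nd
    have ep := phP_ev x1 nd
    have k3 := nnR_ok 4 k1 x1 x2
    have k4 := nnR_ok 4 k2 x1 x2
    rw [mG_ev, es, ep] at k4
    have k5 := wF_ge (q := q) (V := V) ho hab x1 x2
    dsimp only at k5
    have k6 := mul_le_mul_of_nonneg_right k5 k3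
    exact ⟨k3, by linarith⟩
  have x0 : ∀ x : ℝ, lo ≤ x → 0 ≤ x := fun x hx => by linarith
  -- energy at least one
  have p1 : PWP 1 (pkD 0 1 (clQ l)) (wF l q V) 1 (tE l ζ)
      (fun v a b => (lo : ℝ) ≤ nuv v a b ∧ nuv v a b ≤ hi ∧ 1 ≤ enb a b)
      (Qsw (aH w) (aI w) (aJ w) (aK w) (aL w)) := by
    refine PWP.sw HS le_rfl w1 w2 fun v a b hv ha hb hs => ?_
    obtain ⟨s1, s2, s3⟩ := hs
    obtain ⟨k1, k2⟩ := main _ s1 s2 _ hb1 hb2
    have nd := ndC_ok s2 l 0 h1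
    have es := sP_ev s1 nd
    have ep := phP_ev s1 nd
    have hx : ‖qm v a b‖ ^ 2 = nuv v a b / 2 := by
      unfold nuv
      ring
    have he := enb_eq hv ha hb
    have hle : evL (gB w (sP l lo) (phP l lo) ζ) (nuv v a b) ≤
        fsw (aH w) (aI w) (aJ w) (aK w) 0 1 (pkD 0 1 (clQ l) (nuv v a b)) (‖qp v a b‖ ^ 2)
          (‖qm v a b‖ ^ 2) - tE l ζ v a b := by
      rw [gB_ev, fP_ev, es, ep, hx, fsw_eq]
      unfold tE
      have hPE : PE (enb a b) = 0 := by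
        unfold PE
        rw [tauE_one s3]
        norm_num
      rw [hPE]
      have := mul_le_mul_of_nonneg_left (show 1 - nuv v a b / 2 ≤ ‖qp v a b‖ ^ 2 by linarith) w3
      linarith
    have hW := wF_nonneg ho hV (nuv_nonneg v a b)
    refine ⟨zero_le_one.trans (hP.ge' _ (nuv_nonneg v a b)), by linarith, k1.trans hle, ?_⟩
    rw [one_mul]
    exact k2.trans (mul_le_mul_of_nonneg_left hle hW)
  -- energy at most one
  have p2 : PWP 1 (pkD 0 1 (clQ l)) (wF l q V) 1 (tE l ζ)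
      (fun v a b => (lo : ℝ) ≤ nuv v a b ∧ nuv v a b ≤ hi ∧ enb a b ≤ 1)
      (Qsw (aH u) (aI u) (aJ u) (aK u) (aL u)) := by
    refine PWP.sw HU le_rfl u1 u2 fun v a b hv ha hb hs => ?_
    obtain ⟨s1, s2, s3⟩ := hs
    obtain ⟨k1, k2⟩ := main _ s1 s2 _ hb3 hb4
    obtain ⟨k3, k4⟩ := main _ s1 s2 _ ha1 ha2
    have nd := ndC_ok s2 l 0 h1
    have es := sP_ev s1 nd
    have ep := phP_ev s1 nd
    have hx : ‖qm v a b‖ ^ 2 = nuv v a b / 2 := by
      unfold nuv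
      ring
    have he := enb_eq hv ha hb
    set x := nuv v a b with hxdef
    set P := ‖qp v a b‖ ^ 2 with hPdef
    have P0 : 0 ≤ P := by positivity
    have hW := wF_nonneg (q := q) (V := V) ho hV (nuv_nonneg v a b)
    -- the parameter of the segment
    obtain ⟨t, t0, t1, ht⟩ : ∃ t : ℝ, 0 ≤ t ∧ t ≤ 1 ∧ P = t * (1 - x / 2) := by
      rcases eq_or_lt_of_le (show x ≤ 2 by linarith) with h5 | h5
      · refine ⟨0, le_rfl, zero_le_one, ?_⟩
        rw [h5] at he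
        linarith
      · have h6 : 0 < 1 - x / 2 := by linarith
        refine ⟨P / (1 - x / 2), by positivity, ?_, ?_⟩
        · rw [div_le_one h6]
          linarith
        · field_simp
    -- the root
    set u' := (x - lo) / (hi - lo) with hu'
    have hd : (0 : ℝ) < hi - lo := by linarith
    have u0 : 0 ≤ u' := div_nonneg (by linarith) hd.le
    have u1' : u' ≤ 1 := by
      rw [hu', div_le_one hd]
      linarith
    set r := (r1 : ℝ) + (r2 - r1) / (hi - lo) * (x - lo) with hr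
    have hr' : r = (1 - u') * r1 + u' * r2 := by
      rw [hr, hu']
      ring
    have hr2 : r ^ 2 ≤ x / 2 := by
      have q1 : (r1 : ℝ) ^ 2 ≤ lo / 2 := by
        have : ((r1 ^ 2 : ℚ) : ℝ) ≤ ((lo / 2 : ℚ) : ℝ) := by exact_mod_cast g6
        push_cast at this
        exact this
      have q2 : (r2 : ℝ) ^ 2 ≤ hi / 2 := by
        have : ((r2 ^ 2 : ℚ) : ℝ) ≤ ((hi / 2 : ℚ) : ℝ) := by exact_mod_cast g7
        push_cast at this
        exact this
      have q3 : r ^ 2 ≤ (1 - u') * r1 ^ 2 + u' * r2 ^ 2 := by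
        rw [hr']
        have : 0 ≤ u' * (1 - u') * ((r1 : ℝ) - r2) ^ 2 :=
          mul_nonneg (mul_nonneg u0 (by linarith)) (sq_nonneg _)
        nlinarith
      have q4 : (1 - u') * (lo / 2) + u' * (hi / 2) = x / 2 := by
        rw [hu']
        field_simp
        ring
      have q5 := mul_le_mul_of_nonneg_left q1 (show 0 ≤ 1 - u' by linarith)
      have q6 := mul_le_mul_of_nonneg_left q2 u0
      linarith
    have hseg := PE_seg (y := x / 2) (e := enb a b) (r := r) (t := t) (by linarith) (by linarith) s3 hr2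
      (by linarith) t0 t1
    rw [gB_ev, fP_ev, es, ep] at k1 k2
    rw [gA_ev, fP_ev, es, ep, ← hr] at k3 k4
    set F := 3 * (1 - (aH u : ℝ)) - 2 * 0 + fbw (aI u) (aJ u) (aK u) 0 1 (pkD 0 1 (clQ l) x) * (x / 2)
      + ζ * pkG 0 1 (clQ l) x with hF
    have hle : (1 - t) * (F - (1 + x / 2 - 2 * r)) + t * (F + faw (aI u) (aJ u) (aK u) 0 1 * (1 - x / 2)) ≤
        fsw (aH u) (aI u) (aJ u) (aK u) 0 1 (pkD 0 1 (clQ l) x) P (‖qm v a b‖ ^ 2) - tE l ζ v a b := by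
      rw [hx, fsw_eq]
      unfold tE
      rw [← hxdef, ht]
      linarith
    refine ⟨zero_le_one.trans (hP.ge' _ (nuv_nonneg v a b)), by linarith, ?_, ?_⟩
    · refine le_trans ?_ hle
      have := mul_nonneg (show 0 ≤ 1 - t by linarith) k3
      have := mul_nonneg t0 k1
      linarith
    · rw [one_mul]
      refine le_trans ?_ (mul_le_mul_of_nonneg_left hle hW)
      have m1 := mul_le_mul_of_nonneg_left k4 (show 0 ≤ 1 - t by linarith)
      have m2 := mul_le_mul_of_nonneg_left k2 t0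
      linarith
  refine (p1.max p2).mono fun v a b hs => ?_
  rcases le_total 1 (enb a b) with h5 | h5
  · exact Or.inl ⟨hs.2.2.2.1, hs.2.2.2.2, h5⟩
  · exact Or.inr ⟨hs.2.2.2.1, hs.2.2.2.2, h5⟩

/-! ### the table -/

theorem usC_ok {us : List (List ℚ × List ℚ)} (h : usC us = true) : ∀ w ∈ us, WtQ w :=
  fun w hw => wtD_ok (List.all_eq_true.1 h w hw)

theorem getD_ok' {us : List (List ℚ × List ℚ)} (h : ∀ w ∈ us, WtQ w) {i : ℕ} (hi : i < us.length) :
    WtQ (us.getD i ([], [])) := by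
  rw [List.getD_eq_getElem _ _ hi]
  exact h _ (List.getElem_mem hi)

theorem tbL_ok (ho : qOk 1 l = true) (hV : plOk (0, 0) q V = true) {ws us : List (List ℚ × List ℚ)}
    (hw : ∀ w ∈ ws, WtP w) (hu : ∀ u ∈ us, WtQ u) {last : ℕ} {c : List (ℚ × ℕ)}
    (hi : ixC ws.length last c = true) : ∀ (L : List (ℚ × ℚ × ℕ × ℕ)) (lo r1 : ℚ),
    ixL ws.length us.length L = true → tbL l q V ζ ws us last c lo r1 L = true →
    ∃ R, PWP 1 (pkD 0 1 (clQ l)) (wF l q V) 1 (tE l ζ)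
      (fun v a b => ‖v‖ = 1 ∧ inner ℝ v a = (0 : ℝ) ∧ inner ℝ v b = (0 : ℝ) ∧ (lo : ℝ) ≤ nuv v a b) R
  | [], lo, r1, _, h => by
    rw [tbL, Bool.and_eq_true] at h
    have h2 : (2 : ℚ) ≤ lo := of_decide_eq_true h.1
    have h2' : (2 : ℝ) ≤ lo := by exact_mod_cast h2
    obtain ⟨R, hR⟩ := tbC_ok ho hV hw c lo hi h.2
    refine ⟨R, (hR.mono (S' := fun v a b => ‖v‖ = 1 ∧ inner ℝ v a = (0 : ℝ) ∧
      inner ℝ v b = (0 : ℝ) ∧ (lo : ℝ) ≤ nuv v a b) fun v a b hs => hs.2.2.2).congr zero_le_one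
      (fun _ _ _ _ _ _ _ => rfl) (fun _ _ _ _ _ _ _ => le_rfl) (fun v a b hv ha hb hs => ?_)⟩
    have he := enb_eq hv ha hb
    have hβ : 1 ≤ enb a b := by
      have hν := hs.2.2.2
      have : 0 ≤ ‖qp v a b‖ ^ 2 := by positivity
      linarith
    unfold tE tX
    have hP : PE (enb a b) = 0 := by
      unfold PE
      rw [tauE_one hβ]
      norm_num
    rw [hP]
    linarith
  | (hi', r2, i, j) :: L, lo, r1, hx, h => by
    rw [tbL, Bool.and_eq_true] at h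
    rw [ixL, List.all_cons, Bool.and_eq_true] at hx
    obtain ⟨x1, x2⟩ := of_decide_eq_true hx.1
    have h1 := ceL_ok ho hV (getD_ok hw x1) (getD_ok' hu x2) h.1
    obtain ⟨R, hR⟩ := tbL_ok ho hV hw hu hi L hi' r2 hx.2 h.2
    refine ⟨_, (h1.max hR).mono fun v a b hs => ?_⟩
    obtain ⟨s1, s2, s3, s4⟩ := hs
    rcases le_total (nuv v a b) hi' with h5 | h5
    · exact Or.inl ⟨s1, s2, s3, s4, h5⟩
    · exact Or.inr ⟨s1, s2, s3, h5⟩

/-- the facts of the low part -/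
theorem low_part {ν₀ : ℚ} (ho : qOk 1 l = true) (hV : plOk (0, 0) q V = true)
    (hl : loL l q V ζ ν₀ = true) :
    (∀ x : ℝ, 0 ≤ x → x ≤ ν₀ → pkD 0 1 (clQ l) x = 1) ∧
    (∀ x : ℝ, 0 ≤ x → x ≤ ν₀ → pkG 0 1 (clQ l) x = x) ∧
    (∀ x : ℝ, 0 ≤ x → x ≤ ν₀ → x / (1 + ζ) ≤ wF l q V x) := by
  obtain ⟨h1, h2, h3, h4⟩ := of_decide_eq_true hl
  have hP := pen_pkG (ok1 ho)
  have hνp : (0 : ℝ) < ν₀ := by exact_mod_cast h1
  have hζ : (0 : ℝ) ≤ ζ := by exact_mod_cast h2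
  have hI0 : pkI 1 (clQ l) ν₀ = 0 := by
    have := qI_cast l 1 ν₀
    rw [h3] at this
    push_cast at this
    exact this.symm
  have hI : ∀ x : ℝ, x ≤ ν₀ → pkI 1 (clQ l) x = 0 := fun x hx => by
    have k1 := pkI_mono (clQ l) 1 (ok1 ho) hx
    have k2 := pkI_nonneg (clQ l) 1 x (ok1 ho)
    linarith
  have hD : ∀ x : ℝ, 0 ≤ x → x ≤ ν₀ → pkD 0 1 (clQ l) x = 1 := fun x _ hx => by
    unfold pkD
    rw [sub_zero, hI x hx]
    ring
  have hG : ∀ x : ℝ, 0 ≤ x → x ≤ ν₀ → pkG 0 1 (clQ l) x = x := fun x x0 hx => by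
    have hd : ∀ y, HasDerivAt (pkG 0 1 (clQ l)) (pkD 0 1 (clQ l) y) y := fun y => by
      have h1 := pkJ_hasDerivAt (clQ l) 1 (y - 0)
      have h2 : HasDerivAt (fun y => pkJ 1 (clQ l) (y - 0)) (pkI 1 (clQ l) (y - 0)) y :=
        HasDerivAt.comp_sub_const y 0 h1
      have h3 : HasDerivAt (fun y : ℝ => 1 * (y - 0)) 1 y := by
        have := ((hasDerivAt_id y).sub_const 0).const_mul (1 : ℝ)
        rwa [mul_one] at this
      exact h3.add h2
    have g0 : pkG 0 1 (clQ l) 0 = 0 := by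
      have := pkJ_of_nonpos (clQ l) 1 (x := 0) (ok1 ho) le_rfl
      unfold pkG
      rw [sub_zero, this]
      ring
    rcases eq_or_lt_of_le x0 with h0 | h0
    · rw [← h0, g0]
    · obtain ⟨y, hy, e⟩ := exists_hasDerivAt_eq_slope (pkG 0 1 (clQ l)) (pkD 0 1 (clQ l)) h0
        (continuous_iff_continuousAt.2 fun y => (hd y).continuousAt).continuousOn fun y _ => hd y
      rw [hD y hy.1.le (by linarith [hy.2]), g0, sub_zero, sub_zero] at e
      field_simp at e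
      linarith
  refine ⟨hD, hG, fun x x0 hx => ?_⟩
  have k := chord_le (plc_conc V (0, 0) q) hνp x0 hx
  have k0 : 0 ≤ plc (0, 0) q V 0 := by
    have h1 := plc_ge V (0, 0) q hV (x := 0) (by simp)
    simpa using h1
  have k4 : 4 * (ν₀ : ℝ) ≤ plc (0, 0) q V ν₀ * (1 + ζ) := by
    rw [← qpl_cast]
    exact_mod_cast h4
  unfold wF
  rw [hG x x0 hx, div_le_div_iff₀ (by linarith) (by norm_num)]
  have hz : (0 : ℝ) < 1 + ζ := by linarith
  have k5 : x / ν₀ * plc (0, 0) q V ν₀ ≤ plc (0, 0) q V x := by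
    refine le_trans ?_ k
    have h6 : (0 : ℝ) ≤ (1 - x / ν₀) * plc (0, 0) q V 0 := by
      refine mul_nonneg ?_ k0
      have := (div_le_one hνp).2 hx
      linarith
    have e : plc (0, 0) q V 0 + (plc (0, 0) q V ν₀ - plc (0, 0) q V 0) / ((ν₀ : ℝ) - 0) * (x - 0) =
        x / ν₀ * plc (0, 0) q V ν₀ + (1 - x / ν₀) * plc (0, 0) q V 0 := by
      rw [sub_zero, sub_zero]
      field_simp
      ring
    rw [e]
    linarith
  have k6 := mul_le_mul_of_nonneg_right k5 hz.le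
  have k7 : x * 4 ≤ x / ν₀ * plc (0, 0) q V ν₀ * (1 + ζ) := by
    have h7 := mul_le_mul_of_nonneg_left k4 (div_nonneg x0 hνp.le)
    have hne : (ν₀ : ℝ) ≠ 0 := hνp.ne'
    have e : x / (ν₀ : ℝ) * (4 * ν₀) = x * 4 := by
      rw [div_mul_eq_mul_div, div_eq_iff hne]
      ring
    rw [e] at h7
    linarith
  linarith

/-- **the table gives the pointwise inequality, with the spare term** -/
theorem tabU_ok {ν₀ r0 : ℚ} {ws us : List (List ℚ × List ℚ)} {last : ℕ} {c : List (ℚ × ℕ)}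
    {L : List (ℚ × ℚ × ℕ × ℕ)} (ho : qOk 1 l = true) (hV : plOk (0, 0) q V = true)
    (hw : ∀ w ∈ ws, WtP w) (hu : ∀ u ∈ us, WtQ u) (hi : ixC ws.length last c = true)
    (hL : ixL ws.length us.length L = true) (hl : loL l q V ζ ν₀ = true)
    (h : tbL l q V ζ ws us last c ν₀ r0 L = true) :
    ∃ Q, PWE (pkD 0 1 (clQ l)) (fun x => plc (0, 0) q V (pkG 0 1 (clQ l) x) / 4) 1
      (fun v a b => PE (enb a b) - ζ * pkG 0 1 (clQ l) (nuv v a b)) Q := by
  obtain ⟨R, hR⟩ := tbL_ok ho hV hw hu hi L ν₀ r0 hL h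
  obtain ⟨hD, hG, hW⟩ := low_part ho hV hl
  obtain ⟨h1, h2, -, -⟩ := of_decide_eq_true hl
  have hνp : (0 : ℝ) < ν₀ := by exact_mod_cast h1
  have hζ : (0 : ℝ) ≤ ζ := by exact_mod_cast h2
  have hz : (0 : ℝ) < 1 + ζ := by linarith
  have hP := pen_pkG (ok1 ho)
  have p1 : PWP 1 (pkD 0 1 (clQ l)) (wF l q V) 1 (tE l ζ) (fun v a b => nuv v a b ≤ ν₀)
      (QP fun _ => 1) := by
    refine (PWP.id (φ' := pkD 0 1 (clQ l)) (W := wF l q V) (F := fun x => (ζ : ℝ) * x) (ν₀ := ν₀) hD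
      (fun x hx hx' => ?_) (fun x hx _ => mul_nonneg hζ hx) (fun x hx hx' => ?_)).congr zero_le_one
      (fun _ _ _ _ _ _ _ => rfl) (fun _ _ _ _ _ _ _ => le_rfl) (fun v a b _ _ _ hs => ?_)
    · exact (div_nonneg hx hz.le).trans (hW x hx hx')
    · have k := hW x hx hx'
      have k1 : x ≤ wF l q V x * (1 + ζ) := (div_le_iff₀ hz).1 k
      have k2 := mul_le_mul_of_nonneg_right k1 hx
      nlinarith
    · unfold tE
      rw [hG _ (nuv_nonneg v a b) hs]
  have hM := p1.max hR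
  have hcont : Continuous fun q : E3 × E3 × E3 =>
      PE (enb q.2.1 q.2.2) - ζ * pkG 0 1 (clQ l) (nuv q.1 q.2.1 q.2.2) := by
    have c1 : Continuous fun q : E3 × E3 × E3 => PE (enb q.2.1 q.2.2) := PE_cont.comp enb_cont
    have c2 : Continuous fun q : E3 × E3 × E3 => nuv q.1 q.2.1 q.2.2 := by
      unfold nuv
      exact continuous_const.mul (qm_cont5.norm.pow 2)
    exact c1.sub (continuous_const.mul (hP.cont.comp c2))
  refine ⟨_, hcont, hM.cont, fun v a b T A B hv ha hb hA => ⟨hM.low v a b A B hv ha hb hA,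
    hM.ineq v a b T A B hv ha hb hA ?_⟩⟩
  rcases le_total (nuv v a b) ν₀ with h5 | h5
  · exact Or.inl h5
  · exact Or.inr ⟨hv, ha, hb, h5⟩

end Pool.Agent.FPX.SWL
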