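import Mathlib
import Pool.Agent.FPX.PWS
import Pool.Agent.FPX.SWU
import Pool.Agent.FPX.MDQ

/-
FPX, SWM (helper29): the pointwise inequality of the modulus closing (`p = 2`) from the polar weights: a bound
which is linear in the level `ρ = |T - v|` and in the derivative of `ρ`. `sw_mod0` is exact in the derivatives
of `T`; `sw_aff` is the affine bound `A + B ν - b y²`. `MCQ Q ψ`: the properties of a certificate `Q` with
credit `ψ` which the modulus closing uses; `mcq_tau`: the list of helper89, `mcq_w`: a list of polar weights.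
-/

open MeasureTheory Set Filter Topology
open scoped ENNReal NNReal

noncomputable section

namespace Pool.Agent.FPX

open Pool.Agent.EWD

/-- the slope of the potential -/
def bmw (i j k : ℝ) : ℝ := (5 - 3 * i + 16 * j - 64 * k / 3) / 2

/-- `⟨crs v x, crs v y⟩` -/
theorem inner_crs2 (v x y : E3) : (inner ℝ (crs v x) (crs v y) : ℝ) =
    inner ℝ v v * inner ℝ x y - inner ℝ v x * inner ℝ v y := by
  simp only [inner3, crs0, crs1, crs2]
  ring

/-- tangential pairing -/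
theorem pair_t {v x y w : E3} (hv : ‖v‖ = 1) (hw : inner ℝ v w = (0 : ℝ)) (r s : ℝ) :
    r * (inner ℝ x w : ℝ) + s * inner ℝ y w =
      inner ℝ (qp v x y) (r • w + s • crs v w) + inner ℝ (qm v x y) (r • w - s • crs v w) := by
  have h1 : (inner ℝ v v : ℝ) = 1 := inner_self_one hv
  have e1 : qp v x y + qm v x y = prj v x := by
    unfold qp qm
    rw [← smul_add]
    have : prj v x + crs v y + (prj v x - crs v y) = (2 : ℝ) • prj v x := by
      rw [two_smul]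
      abel
    rw [this, smul_smul]
    norm_num
  have e2 : qp v x y - qm v x y = crs v y := by
    unfold qp qm
    rw [← smul_sub]
    have : prj v x + crs v y - (prj v x - crs v y) = (2 : ℝ) • crs v y := by
      rw [two_smul]
      abel
    rw [this, smul_smul]
    norm_num
  have h2 : (inner ℝ (prj v x) w : ℝ) = inner ℝ x w := by
    unfold prj
    rw [inner_sub_left, inner_smul_left, hw]
    simp
  have h3 : (inner ℝ (crs v y) (crs v w) : ℝ) = inner ℝ y w := by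
    rw [inner_crs2, h1, hw]
    ring
  have h4 : (inner ℝ (qp v x y) w : ℝ) + inner ℝ (qm v x y) w = inner ℝ x w := by
    rw [← inner_add_left, e1, h2]
  have h5 : (inner ℝ (qp v x y) (crs v w) : ℝ) - inner ℝ (qm v x y) (crs v w) = inner ℝ y w := by
    rw [← inner_sub_left, e2, h3]
  rw [inner_add_right, inner_sub_right, inner_smul_right, inner_smul_right, inner_smul_right,
    inner_smul_right]
  linear_combination -r * h4 - s * h5

theorem norm_g {v w : E3} (hv : ‖v‖ = 1) (hw : inner ℝ v w = (0 : ℝ)) (r s : ℝ) :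
    ‖r • w + s • crs v w‖ ^ 2 = (r ^ 2 + s ^ 2) * ‖w‖ ^ 2 ∧
      ‖r • w - s • crs v w‖ ^ 2 = (r ^ 2 + s ^ 2) * ‖w‖ ^ 2 := by
  have h1 : (inner ℝ w (crs v w) : ℝ) = 0 := inner_crs_right v w
  have h2 : ‖crs v w‖ ^ 2 = ‖w‖ ^ 2 := by
    rw [norm_crs_sq, hv, hw]
    ring
  constructor
  · rw [norm_add_sq_real, norm_smul, norm_smul, mul_pow, mul_pow, inner_smul_left, inner_smul_right,
      h1, h2, Real.norm_eq_abs, Real.norm_eq_abs, sq_abs, sq_abs]
    simp only [conj_trivial]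
    ring
  · rw [norm_sub_sq_real, norm_smul, norm_smul, mul_pow, mul_pow, inner_smul_left, inner_smul_right,
      h1, h2, Real.norm_eq_abs, Real.norm_eq_abs, sq_abs, sq_abs]
    simp only [conj_trivial]
    ring

/-- **the pointwise inequality, exact in the derivatives of `T`** -/
theorem sw_mod0 {h i j k l : ℝ} (hk : 0 < k) (hl : 0 < l) {v a b e : E3} (A B : E3) (ρ r s : ℝ)
    (hv : ‖v‖ = 1) (ha : inner ℝ v a = (0 : ℝ)) (hb : inner ℝ v b = (0 : ℝ)) :
    let w := prj v e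
    let g := r • w + s • crs v w
    let g' := r • w - s • crs v w
    let z : ℝ := inner ℝ v e
    2 * (r * inner ℝ (A - a) e + s * inner ℝ (B - b) e) + (3 * (1 - h) + 3 * (1 - i) * ‖qp v a b‖ ^ 2
      + 2 * bmw i j k * ‖qm v a b‖ ^ 2 + 8 * ρ * (1 + z) * ‖qm v a b‖ ^ 2
      - 2 * (2 * j - 1) * inner ℝ (qp v a b) g - 2 * (16 * k / 3 - 2 * j - 1) * inner ℝ (qm v a b) g'
      - (16 * l / 3) * z ^ 2 * (r ^ 2 + s ^ 2) - (4 * k / 3) * (‖g‖ ^ 2 + ‖g'‖ ^ 2)) ≤
      Qsw h i j k l v a b A B - 2 * dnu v a b (v + ρ • e) A B + 4 * ρ * nuv v a b := by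
  intro w g g' z
  have hvw : inner ℝ v w = (0 : ℝ) := prj_perp hv e
  have he : e = w + z • v := by
    change e = prj v e + (inner ℝ v e : ℝ) • v
    unfold prj
    abel
  set p := qp v a b with hp
  set q := qm v a b with hq
  set c := qp v A B with hc
  set d := qm v A B with hd
  have j1 := jac_pm hv ha hb
  have j2 := norm_pm hv ha hb
  rw [← hp, ← hq] at j1 j2
  have hν : nuv v a b = 2 * ‖q‖ ^ 2 := rfl
  have hS : ‖prj v A‖ ^ 2 + ‖prj v B‖ ^ 2 = 2 * ‖c‖ ^ 2 + 2 * ‖d‖ ^ 2 := by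
    have k := norm_pm (X := prj v A) (Y := prj v B) hv (prj_perp hv A) (prj_perp hv B)
    have k2 : qm v (prj v A) (prj v B) = qm v A B := by
      unfold qm
      rw [prj_prj hv, crs_prj]
    have k3 : qp v (prj v A) (prj v B) = qp v A B := by
      unfold qp
      rw [prj_prj hv, crs_prj]
    rw [k2, k3] at k
    exact k
  set wA : ℝ := (inner ℝ v A : ℝ) with hwA
  set wB : ℝ := (inner ℝ v B : ℝ) with hwB
  have h4 : inner ℝ (crs v b) (crs v B) =
      (inner ℝ v v * inner ℝ b B - inner ℝ v b * inner ℝ v B : ℝ) := inner_crs2 v b B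
  have h5 : inner ℝ a (crs v B) = (-inner ℝ (crs v a) B : ℝ) := by
    simp only [inner3, crs0, crs1, crs2]
    ring
  have h6 : (inner ℝ v v : ℝ) = 1 := inner_self_one hv
  have hm : (inner ℝ (a - crs v b) (A - crs v B) : ℝ) = 4 * inner ℝ q d := inner_q ha
  have hpp : (inner ℝ (a + crs v b) (A + crs v B) : ℝ) = 4 * inner ℝ p c := inner_p hv ha
  rw [inner_sub_left, inner_sub_right, inner_sub_right, h4, h5, h6, hb] at hm
  rw [inner_add_left, inner_add_right, inner_add_right, h4, h5, h6, hb] at hpp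
  have x2 : (inner ℝ (crs v b) A : ℝ) - inner ℝ (crs v a) B = 2 * inner ℝ p c - 2 * inner ℝ q d := by
    linarith
  -- the level
  have hvT : (inner ℝ v (v + ρ • e) : ℝ) = 1 + ρ * z := by
    rw [inner_add_right, inner_smul_right, h6]
  -- the derivative of the level
  have t1 : r * (inner ℝ A w : ℝ) + s * inner ℝ B w = inner ℝ c g + inner ℝ d g' := pair_t hv hvw r s
  have t2 : r * (inner ℝ a w : ℝ) + s * inner ℝ b w = inner ℝ p g + inner ℝ q g' := pair_t hv hvw r s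
  have t3 : r * (inner ℝ (A - a) e : ℝ) + s * inner ℝ (B - b) e =
      z * (r * wA + s * wB) + inner ℝ c g + inner ℝ d g' - inner ℝ p g - inner ℝ q g' := by
    have u1 : (inner ℝ (A - a) e : ℝ) = inner ℝ A w - inner ℝ a w + z * wA := by
      rw [he, inner_add_right, inner_smul_right, inner_sub_left, inner_sub_left,
        real_inner_comm v A, real_inner_comm v a, ha]
      ring
    have u2 : (inner ℝ (B - b) e : ℝ) = inner ℝ B w - inner ℝ b w + z * wB := by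
      rw [he, inner_add_right, inner_smul_right, inner_sub_left, inner_sub_left,
        real_inner_comm v B, real_inner_comm v b, hb]
      ring
    rw [u1, u2]
    linear_combination t1 - t2
  -- the squares
  have hk4 : (0 : ℝ) < 3 / (4 * k) := by positivity
  have r1 := vq_ge (g := -1) hk4 ((3 * j / k) • p + (2 : ℝ) • g) c
  have r2 := vq_ge (g := -1) hk4 ((8 - 3 * j / k) • q + (2 : ℝ) • g') d
  rw [norm_add_sq_real, norm_smul, norm_smul, mul_pow, mul_pow, Real.norm_eq_abs, Real.norm_eq_abs,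
    sq_abs, sq_abs, inner_smul_left, inner_smul_right, inner_add_left, inner_smul_left,
    inner_smul_left, real_inner_comm c g] at r1
  rw [norm_add_sq_real, norm_smul, norm_smul, mul_pow, mul_pow, Real.norm_eq_abs, Real.norm_eq_abs,
    sq_abs, sq_abs, inner_smul_left, inner_smul_right, inner_add_left, inner_smul_left,
    inner_smul_left, real_inner_comm d g'] at r2
  simp only [conj_trivial] at r1 r2
  have r3 : 0 ≤ 3 / (16 * l) * ((wA - 16 * l / 3 * z * r) ^ 2 + (wB - 16 * l / 3 * z * s) ^ 2) := by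
    positivity
  have hQ : Qsw h i j k l v a b A B = 3 - 3 * h + 3 * (‖p‖ ^ 2 - ‖q‖ ^ 2)
      - 3 / 2 * i * (2 * ‖p‖ ^ 2 + 2 * ‖q‖ ^ 2)
      + 3 / (2 * k) * (j ^ 2 * (2 * ‖p‖ ^ 2 + 2 * ‖q‖ ^ 2) - j * (2 * inner ℝ p c - 2 * inner ℝ q d)
        + (1 / 4) * (2 * ‖c‖ ^ 2 + 2 * ‖d‖ ^ 2)) + 3 / (16 * l) * (wA ^ 2 + wB ^ 2) := by
    unfold Qsw
    rw [j1, j2, x2, hS]
  have hdn : dnu v a b (v + ρ • e) A B = 4 * (inner ℝ q d - (1 + ρ * z) * ‖q‖ ^ 2) := by
    rw [← hvT]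
    rfl
  rw [hQ, hdn, hν, t3]
  unfold bmw
  have k0 : k ≠ 0 := hk.ne'
  have l0 : l ≠ 0 := hl.ne'
  have e1 : (-1 : ℝ) ^ 2 / (4 * (3 / (4 * k))) = k / 3 := by
    field_simp
  rw [e1] at r1 r2
  have f1 : (3 * j / k) ^ 2 * ‖p‖ ^ 2 * (k / 3) = 3 * j ^ 2 / k * ‖p‖ ^ 2 := by
    field_simp
  have f2 : (8 - 3 * j / k) ^ 2 * ‖q‖ ^ 2 * (k / 3) =
      (64 * k / 3 - 16 * j + 3 * j ^ 2 / k) * ‖q‖ ^ 2 := by
    field_simp
    ring
  have f3 : 3 / (16 * l) * ((wA - 16 * l / 3 * z * r) ^ 2 + (wB - 16 * l / 3 * z * s) ^ 2) =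
      3 / (16 * l) * (wA ^ 2 + wB ^ 2) - 2 * z * (r * wA + s * wB)
        + 16 * l / 3 * z ^ 2 * (r ^ 2 + s ^ 2) := by
    field_simp
    ring
  have f4 : 3 / (2 * k) * (j ^ 2 * (2 * ‖p‖ ^ 2 + 2 * ‖q‖ ^ 2)
      - j * (2 * inner ℝ p c - 2 * inner ℝ q d) + (1 / 4) * (2 * ‖c‖ ^ 2 + 2 * ‖d‖ ^ 2)) =
      3 * j ^ 2 / k * ‖p‖ ^ 2 + 3 * j ^ 2 / k * ‖q‖ ^ 2 - 3 * j / k * inner ℝ p c
        + 3 * j / k * inner ℝ q d + 3 / (4 * k) * ‖c‖ ^ 2 + 3 / (4 * k) * ‖d‖ ^ 2 := by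
    field_simp
    ring
  have f5 : 2 * (3 * j / k * (2 * inner ℝ p g)) * (k / 3) = (4 * j * inner ℝ p g : ℝ) := by
    field_simp
    ring
  have f6 : 2 * ((8 - 3 * j / k) * (2 * inner ℝ q g')) * (k / 3) =
      ((32 * k / 3 - 4 * j) * inner ℝ q g' : ℝ) := by
    field_simp
    ring
  rw [f3] at r3
  rw [f4]
  linear_combination r1 + r2 + r3 + f1 + f2 + f5 + f6

/-- **the affine bound** at all levels `ρ ≥ ρ₀`, for all directions; `C` is a reserve for the conformal part -/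
theorem sw_aff {h i j k l : ℝ} (hk : 0 < k) (hl : 0 < l) {ρ₀ δ Z C β : ℝ} (hρ₀ : 0 < ρ₀) (hδ0 : 0 < δ)
    (hi : C < 3 * (1 - i)) (hδ : 8 * k / 3 - 16 * l / 3 + (2 * j - 1) ^ 2 / (3 * (1 - i) - C) ≤ δ)
    (hZ : (16 * k / 3 - 2 * j - 1) ^ 2 = 8 * ρ₀ * Z)
    (hβ : Z ^ 2 ≤ 4 * δ * (β - 16 * l / 3 - δ - Z)) {v a b e : E3} (A B : E3) {ρ : ℝ} (r s : ℝ)
    (hv : ‖v‖ = 1) (ha : inner ℝ v a = (0 : ℝ)) (hb : inner ℝ v b = (0 : ℝ)) (he : ‖e‖ = 1)
    (hρ : ρ₀ ≤ ρ) :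
    2 * (r * inner ℝ e (A - a) + s * inner ℝ e (B - b)) + 3 * (1 - h) + bmw i j k * nuv v a b
      + C * ‖qp v a b‖ ^ 2 - β * (r ^ 2 + s ^ 2) ≤
      Qsw h i j k l v a b A B - 2 * dnu v a b (v + ρ • e) A B + 4 * ρ * nuv v a b := by
  have h0 := sw_mod0 (h := h) (i := i) (j := j) (e := e) hk hl A B ρ r s hv ha hb
  simp only at h0
  have hw : inner ℝ v (prj v e) = (0 : ℝ) := prj_perp hv e
  obtain ⟨n1, n2⟩ := norm_g hv hw r s
  have n3 := norm_prj_sq hv e
  rw [he, one_pow] at n3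
  have hz : (inner ℝ v e : ℝ) ^ 2 ≤ 1 := by nlinarith [sq_nonneg ‖prj v e‖]
  have n4 : ‖prj v e‖ ^ 2 = 1 - inner ℝ v e ^ 2 := by linarith
  rw [n4] at n1 n2
  rw [n1, n2] at h0
  have hm : 0 < 3 * (1 - i) - C := by linarith
  have f1 := vq_ge (g := -(2 * (2 * j - 1))) hm (r • prj v e + s • crs v (prj v e)) (qp v a b)
  rw [n1, real_inner_comm (qp v a b)] at f1
  have hν : nuv v a b = 2 * ‖qm v a b‖ ^ 2 := rfl
  rw [hν]
  rw [hν] at h0
  set z : ℝ := (inner ℝ v e : ℝ) with hzd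
  have z1 : -1 ≤ z := by nlinarith
  have z2 : z ≤ 1 := by nlinarith
  have hZ0 : 0 ≤ Z := by nlinarith [sq_nonneg (16 * k / 3 - 2 * j - 1)]
  have Y0 : 0 ≤ r ^ 2 + s ^ 2 := by positivity
  have f2 : -(Z * (1 - z) * (r ^ 2 + s ^ 2)) ≤ 8 * ρ * (1 + z) * ‖qm v a b‖ ^ 2 -
      2 * (16 * k / 3 - 2 * j - 1) * inner ℝ (qm v a b) (r • prj v e - s • crs v (prj v e)) := by
    rcases z1.eq_or_lt with hz' | hz'
    · have e0 : ‖r • prj v e - s • crs v (prj v e)‖ ^ 2 = 0 := by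
        rw [n2, ← hz']
        ring
      have e1 : r • prj v e - s • crs v (prj v e) = 0 := by
        rw [← norm_eq_zero]
        exact pow_eq_zero_iff (two_ne_zero) |>.1 e0
      rw [e1, inner_zero_right, ← hz']
      have : 0 ≤ Z * (1 - -1) * (r ^ 2 + s ^ 2) := by positivity
      linarith
    · have h1z : 0 < 1 + z := by linarith
      have hm2 : 0 < 8 * ρ₀ * (1 + z) := by positivity
      have f3 := vq_ge (g := -(2 * (16 * k / 3 - 2 * j - 1))) hm2
        (r • prj v e - s • crs v (prj v e)) (qm v a b)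
      rw [n2, real_inner_comm (qm v a b)] at f3
      have e1 : (-(2 * (16 * k / 3 - 2 * j - 1))) ^ 2 / (4 * (8 * ρ₀ * (1 + z))) *
          ((r ^ 2 + s ^ 2) * (1 - z ^ 2)) = Z * (1 - z) * (r ^ 2 + s ^ 2) := by
        have e2 : (-(2 * (16 * k / 3 - 2 * j - 1))) ^ 2 = 4 * (8 * ρ₀ * Z) := by
          rw [← hZ]
          ring
        rw [e2]
        field_simp
        ring
      have e3 : 8 * ρ₀ * (1 + z) * ‖qm v a b‖ ^ 2 ≤ 8 * ρ * (1 + z) * ‖qm v a b‖ ^ 2 := by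
        have : 8 * ρ₀ * (1 + z) ≤ 8 * ρ * (1 + z) :=
          mul_le_mul_of_nonneg_right (by linarith) h1z.le
        exact mul_le_mul_of_nonneg_right this (sq_nonneg _)
      rw [neg_mul] at f3
      rw [e1] at f3
      linarith
  have e4 : (-(2 * (2 * j - 1))) ^ 2 / (4 * (3 * (1 - i) - C)) = (2 * j - 1) ^ 2 / (3 * (1 - i) - C) := by
    field_simp
    ring
  rw [e4] at f1
  have hzz : 0 ≤ 1 - z ^ 2 := by linarith
  have f5 : (8 * k / 3 + (2 * j - 1) ^ 2 / (3 * (1 - i) - C)) * ((r ^ 2 + s ^ 2) * (1 - z ^ 2)) ≤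
      (δ + 16 * l / 3) * ((r ^ 2 + s ^ 2) * (1 - z ^ 2)) :=
    mul_le_mul_of_nonneg_right (by linarith) (by positivity)
  have f6 : 0 ≤ β - 16 * l / 3 - δ * (1 - z ^ 2) - Z * (1 - z) := by
    have e5 : 4 * δ * (β - 16 * l / 3 - δ * (1 - z ^ 2) - Z * (1 - z)) =
        (4 * δ * (β - 16 * l / 3 - δ - Z) - Z ^ 2) + (2 * δ * z + Z) ^ 2 := by ring
    refine (mul_nonneg_iff_of_pos_left (show 0 < 4 * δ by positivity)).1 ?_
    rw [e5]
    have := sq_nonneg (2 * δ * z + Z)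
    linarith
  have f7 := mul_nonneg f6 Y0
  have e6 : r * (inner ℝ e (A - a) : ℝ) + s * inner ℝ e (B - b) =
      r * inner ℝ (A - a) e + s * inner ℝ (B - b) e := by
    rw [real_inner_comm e (A - a), real_inner_comm e (B - b)]
  rw [e6]
  linear_combination h0 + f1 + f2 + f5 + f7

/-! ### certificates -/

/-- the properties of a certificate `Q` with credit `ψ` -/
structure MCQ (Q : E3 → E3 → E3 → E3 → E3 → ℝ) (ψ : ℝ → ℝ) : Prop where
  cont : Continuous fun q : E3 × E3 × E3 × E3 × E3 => Q q.1 q.2.1 q.2.2.1 q.2.2.2.1 q.2.2.2.2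
  low : ∀ v a b A B : E3, ‖v‖ = 1 → inner ℝ v a = (0 : ℝ) → inner ℝ v b = (0 : ℝ) →
    QLow v a b A B (Q v a b A B)
  all : ∀ v a b A B T : E3, ‖v‖ = 1 → inner ℝ v a = (0 : ℝ) → inner ℝ v b = (0 : ℝ) → InW 2 1 A B →
    ‖A - a‖ ^ 2 + ‖B - b‖ ^ 2 + (1 - 4 * ‖T - v‖) * nuv v a b + PE (enb a b) ≤
      Q v a b A B - 2 * dnu v a b T A B
  rad : ∀ (v a b A B T u : E3) (h : ℝ), ‖v‖ = 1 → inner ℝ v a = (0 : ℝ) → inner ℝ v b = (0 : ℝ) →
    InW 2 1 A B → ‖u‖ = 1 → T - v = h • u → 1 / 4 ≤ h →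
    inner ℝ u (A - a) ^ 2 + inner ℝ u (B - b) ^ 2 + ψ (nuv v a b) - 4 * h * nuv v a b +
        PE (enb a b) ≤ Q v a b A B - 2 * dnu v a b T A B
  psi : ∀ x, x ≤ ψ x
  pcont : Continuous ψ

/-- **the modulus form**: `r` is the coefficient of the part of the gradient which is left -/
theorem MCQ.core {Q : E3 → E3 → E3 → E3 → E3 → ℝ} {ψ : ℝ → ℝ} (H : MCQ Q ψ) {v a b A B T u : E3} {h r : ℝ}
    (hv : ‖v‖ = 1) (ha : inner ℝ v a = (0 : ℝ)) (hb : inner ℝ v b = (0 : ℝ)) (hAB : InW 2 1 A B)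
    (hu : ‖u‖ = 1) (hT : T - v = h • u) (hh : 1 / 4 ≤ h) (r0 : 0 ≤ r) (r1 : r ≤ 1) :
    inner ℝ u (A - a) ^ 2 + inner ℝ u (B - b) ^ 2 +
        r * (‖A - a‖ ^ 2 + ‖B - b‖ ^ 2 - (inner ℝ u (A - a) ^ 2 + inner ℝ u (B - b) ^ 2)) +
        (1 - r) * ψ (nuv v a b) + r * nuv v a b - 4 * h * nuv v a b + PE (enb a b) ≤
      Q v a b A B - 2 * dnu v a b T A B := by
  have hn : ‖T - v‖ = h := by
    rw [hT, norm_smul, hu, mul_one, Real.norm_eq_abs, abs_of_nonneg (by linarith)]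
  have k1 := H.all v a b A B T hv ha hb hAB
  rw [hn] at k1
  have k2 := H.rad v a b A B T u h hv ha hb hAB hu hT hh
  have k3 := mul_le_mul_of_nonneg_left k1 r0
  have k4 := mul_le_mul_of_nonneg_left k2 (show 0 ≤ 1 - r by linarith)
  nlinarith

/-- the list of constant weights -/
theorem mcq_tau {l : List ℝ} (hl : ∀ δ ∈ l, 0 ≤ δ ∧ δ ≤ 5) : MCQ (QM l) (PSI l) where
  cont := QM_cont l
  low := fun _ _ _ A B hv ha hb => QM_low (fun δ h => (hl δ h).1) hv ha hb A B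
  all := fun _ _ _ _ _ T hv ha hb hAB => mdq_all l T hv ha hb hAB
  rad := fun _ _ _ _ _ _ _ _ hv ha hb hAB hu hT hh => mdq_rad hl hv ha hb hAB hu hT hh
  psi := PSI_ge l
  pcont := PSI_cont l

/-! ### a list of polar weights -/

/-- a weight with its line `A + B ν`; the line is below `ν` for `ν ≤ 2 s²` -/
structure MW where
  /-- `⟨τ⟩` -/
  h : ℝ
  /-- `⟨ω⟩` -/
  i : ℝ
  /-- `⟨ω s²⟩` -/
  j : ℝ
  /-- `⟨ω s⁴⟩` -/
  k : ℝ
  /-- `⟨ω s² c²⟩` -/
  l : ℝ
  /-- the line -/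
  A : ℝ
  /-- the slope -/
  B : ℝ
  /-- the root of half the crossing point -/
  s : ℝ

/-- the conditions -/
structure MW.Ok (m : MW) : Prop where
  sw : SW m.h m.i m.j m.k m.l
  i1 : m.i < 1
  tl : ∃ δ : ℝ, 0 < δ ∧ 8 * m.k / 3 - 16 * m.l / 3 + (2 * m.j - 1) ^ 2 / (3 * (1 - m.i)) ≤ δ ∧
    ((16 * m.k / 3 - 2 * m.j - 1) ^ 2 / 2) ^ 2 ≤
      4 * δ * (1 - 16 * m.l / 3 - δ - (16 * m.k / 3 - 2 * m.j - 1) ^ 2 / 2)
  s0 : 1 / 2 ≤ m.s
  s1 : m.s ≤ 1
  hA : m.A + (1 - m.s) ^ 2 ≤ 3 * (1 - m.h)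
  hB : m.B ≤ bmw m.i m.j m.k
  hB1 : 1 ≤ m.B
  hc : m.A + 2 * (m.B - 1) * m.s ^ 2 ≤ 0

/-- the certificate of a list -/
def QW (L : List MW) (v a b A B : E3) : ℝ :=
  L.foldr (fun m q => max (Qsw m.h m.i m.j m.k m.l v a b A B) q) (QP (fun _ => 1) v a b A B)

/-- the credit of a list -/
def PSW (L : List MW) (x : ℝ) : ℝ := L.foldr (fun m q => max (m.A + m.B * x) q) x

theorem QW_base (L : List MW) (v a b A B : E3) : Qtau (tauE (enb a b)) v a b A B ≤ QW L v a b A B := by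
  induction L with
  | nil => exact (QP_one v a b A B).ge
  | cons m L ih => exact ih.trans (le_max_right _ _)

theorem QW_mem {L : List MW} {m : MW} (h : m ∈ L) (v a b A B : E3) :
    Qsw m.h m.i m.j m.k m.l v a b A B ≤ QW L v a b A B := by
  induction L with
  | nil => cases h
  | cons m' L ih =>
    rcases List.mem_cons.1 h with h | h
    · rw [h]
      exact le_max_left _ _
    · exact (ih h).trans (le_max_right _ _)

theorem QW_low {L : List MW} (hL : ∀ m ∈ L, m.Ok) {v a b : E3} (hv : ‖v‖ = 1)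
    (ha : inner ℝ v a = (0 : ℝ)) (hb : inner ℝ v b = (0 : ℝ)) (A B : E3) :
    QLow v a b A B (QW L v a b A B) := by
  induction L with
  | nil =>
    have h : QW [] v a b A B = Qtau (tauE (enb a b)) v a b A B := QP_one v a b A B
    rw [h]
    exact QLow_tau hv ha hb A B (by linarith [tauE_ge (enb a b)])
  | cons m L ih =>
    exact QLow.max (QLow_sw hv ha hb A B (hL m List.mem_cons_self).sw)
      (ih fun m' h => hL m' (List.mem_cons_of_mem _ h))

theorem QW_cont (L : List MW) :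
    Continuous fun q : E3 × E3 × E3 × E3 × E3 => QW L q.1 q.2.1 q.2.2.1 q.2.2.2.1 q.2.2.2.2 := by
  induction L with
  | nil => exact QP_cont continuous_const fun _ => le_rfl
  | cons m L ih => exact Qsw_cont.max ih

theorem PSW_ge (L : List MW) (x : ℝ) : x ≤ PSW L x := by
  induction L with
  | nil => exact le_rfl
  | cons m L ih => exact ih.trans (le_max_right _ _)

theorem PSW_cases (L : List MW) (x : ℝ) : PSW L x = x ∨ ∃ m ∈ L, PSW L x = m.A + m.B * x := by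
  induction L with
  | nil => exact Or.inl rfl
  | cons m L ih =>
    rcases le_total (m.A + m.B * x) (PSW L x) with h | h
    · have e : PSW (m :: L) x = PSW L x := max_eq_right h
      rw [e]
      rcases ih with ih | ⟨m', h1, h2⟩
      · exact Or.inl ih
      · exact Or.inr ⟨m', List.mem_cons_of_mem _ h1, h2⟩
    · exact Or.inr ⟨m, List.mem_cons_self, max_eq_left h⟩

theorem PSW_cont (L : List MW) : Continuous (PSW L) := by
  induction L with
  | nil => exact continuous_id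
  | cons m L ih =>
    have h : Continuous fun x : ℝ => m.A + m.B * x := by fun_prop
    exact h.max ih

/-- **everywhere** -/
theorem QW_all (L : List MW) {v a b A B : E3} (T : E3) (hv : ‖v‖ = 1) (ha : inner ℝ v a = (0 : ℝ))
    (hb : inner ℝ v b = (0 : ℝ)) (hAB : InW 2 1 A B) :
    ‖A - a‖ ^ 2 + ‖B - b‖ ^ 2 + (1 - 4 * ‖T - v‖) * nuv v a b + PE (enb a b) ≤
      QW L v a b A B - 2 * dnu v a b T A B := by
  have h1 := mdq_all [] T hv ha hb hAB
  have h2 := QW_base L v a b A B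
  have h3 : QM [] v a b A B = Qtau (tauE (enb a b)) v a b A B := QP_one v a b A B
  rw [h3] at h1
  linarith

theorem PE_le_sq {e s : ℝ} (h0 : 1 / 2 ≤ s) (h1 : s ≤ 1) (he : s ^ 2 ≤ e) : PE e ≤ (1 - s) ^ 2 := by
  rcases le_or_gt 1 e with h | h
  · rw [PE_one h]
    positivity
  · have hs : s ≤ √e := Real.le_sqrt_of_sq_le he
    have h4 : √e ≤ 1 := Real.sqrt_le_one.2 h.le
    have h5 : √e ^ 2 = e := Real.sq_sqrt (by nlinarith)
    rw [SWL.PE_mid (by nlinarith) h.le]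
    nlinarith

/-- one weight: the radial derivative with coefficient one, all directions -/
theorem MW.Ok.dir {m : MW} (H : m.Ok) {v a b T u : E3} (A B : E3) {h : ℝ} (hv : ‖v‖ = 1)
    (ha : inner ℝ v a = (0 : ℝ)) (hb : inner ℝ v b = (0 : ℝ)) (hu : ‖u‖ = 1) (hT : T - v = h • u)
    (hh : 1 / 4 ≤ h) :
    inner ℝ u (A - a) ^ 2 + inner ℝ u (B - b) ^ 2 + 3 * (1 - m.h) + bmw m.i m.j m.k * nuv v a b
      - 4 * h * nuv v a b ≤ Qsw m.h m.i m.j m.k m.l v a b A B - 2 * dnu v a b T A B := by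
  obtain ⟨δ, d0, d1, d2⟩ := H.tl
  have hTe : T = v + h • u := by
    rw [← hT]
    abel
  have k := sw_aff (h := m.h) (i := m.i) (j := m.j) (C := 0) (β := 1) (ρ₀ := 1 / 4)
    (Z := (16 * m.k / 3 - 2 * m.j - 1) ^ 2 / 2) H.sw.k0 H.sw.l0 (by norm_num) d0
    (by linarith [H.i1]) (by rw [sub_zero]; exact d1) (by ring) d2 A B
    (inner ℝ u (A - a)) (inner ℝ u (B - b)) hv ha hb hu hh
  rw [← hTe] at k
  nlinarith

/-- **on `{h ≥ 1/4}`** -/
theorem QW_rad {L : List MW} (hL : ∀ m ∈ L, m.Ok) {v a b A B T u : E3} {h : ℝ}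
    (hv : ‖v‖ = 1) (ha : inner ℝ v a = (0 : ℝ)) (hb : inner ℝ v b = (0 : ℝ)) (hAB : InW 2 1 A B)
    (hu : ‖u‖ = 1) (hT : T - v = h • u) (hh : 1 / 4 ≤ h) :
    inner ℝ u (A - a) ^ 2 + inner ℝ u (B - b) ^ 2 + PSW L (nuv v a b) - 4 * h * nuv v a b +
        PE (enb a b) ≤ QW L v a b A B - 2 * dnu v a b T A B := by
  have hn : ‖T - v‖ = h := by
    rw [hT, norm_smul, hu, mul_one, Real.norm_eq_abs, abs_of_nonneg (by linarith)]
  have k1 := QW_all L T hv ha hb hAB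
  rw [hn] at k1
  have k2 := G_le_E hu (A - a) (B - b)
  have ν0 := nuv_nonneg v a b
  rcases PSW_cases L (nuv v a b) with h1 | ⟨m, h1, h2⟩
  · rw [h1]
    linarith
  · rw [h2]
    have H := hL m h1
    rcases le_or_gt (m.A + m.B * nuv v a b) (nuv v a b) with h3 | h3
    · linarith
    · have k3 := H.dir A B hv ha hb hu hT hh
      have k4 := QW_mem h1 v a b A B
      have k5 : 2 * m.s ^ 2 < nuv v a b := by
        have h4 := H.hc
        have h5 := H.hB1
        by_contra hc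
        push Not at hc
        have h6 : (m.B - 1) * nuv v a b ≤ (m.B - 1) * (2 * m.s ^ 2) :=
          mul_le_mul_of_nonneg_left hc (by linarith)
        linarith
      have k6 := nuv_le_enb hv ha hb
      have k7 := PE_le_sq H.s0 H.s1 (show m.s ^ 2 ≤ enb a b by linarith)
      have k8 : m.B * nuv v a b ≤ bmw m.i m.j m.k * nuv v a b := mul_le_mul_of_nonneg_right H.hB ν0
      have k9 := H.hA
      linarith

/-- **the list of polar weights** -/
theorem mcq_w {L : List MW} (hL : ∀ m ∈ L, m.Ok) : MCQ (QW L) (PSW L) where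
  cont := QW_cont L
  low := fun _ _ _ A B hv ha hb => QW_low hL hv ha hb A B
  all := fun _ _ _ _ _ T hv ha hb hAB => QW_all L T hv ha hb hAB
  rad := fun _ _ _ _ _ _ _ _ hv ha hb hAB hu hT hh => QW_rad hL hv ha hb hAB hu hT hh
  psi := PSW_ge L
  pcont := PSW_cont L

end Pool.Agent.FPX
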