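import Mathlib
import Pool.Agent.FPX.SWM
import Pool.Agent.FPX.MDR

/-
FPX, SWN (helper29): a certificate `MCQ Q ψ` of the modulus closing on the surface: `QC C Q v T` is
integrable, a lower bound of the pointwise function almost everywhere (`MCQ.ae_low`), and satisfies the two
inequalities `MCQ.mod_all` (everywhere) and `MCQ.mod_core` (where `ρ = |T - v| ≥ 1/4`).
-/

open MeasureTheory Set Filter Topology
open scoped ENNReal NNReal

noncomputable section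

namespace Pool.Agent.FPX

open Pool.Agent.EWD Pool.Agent.FPM

variable {M : Type} [MetricSpace M] {γ : ℝ → M}

/-- the certificate on the surface -/
def QC (C : Calc M γ) (Q : E3 → E3 → E3 → E3 → E3 → ℝ) (v T : Fin 3 → M → ℝ) (o : Om) : ℝ :=
  Q (at' C v o) (dx C v o) (dy C v o) (dx C T o) (dy C T o)

theorem QC_tau (C : Calc M γ) (l : List ℝ) (v T : Fin 3 → M → ℝ) : QC C (QM l) v T = QMC C l v T := rfl

variable {Q : E3 → E3 → E3 → E3 → E3 → ℝ} {ψ : ℝ → ℝ}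

theorem MCQ.cint [CompactSpace M] (H : MCQ Q ψ) (C : Calc M γ) {v T : Fin 3 → M → ℝ} (hv : Sph γ v)
    (hT : ∀ k, Lip (T k)) : Integrable (QC C Q v T) C.μ :=
  integrable_cont5 C hv hT (Φ := fun q => Q q.1 q.2.1 q.2.2.1 q.2.2.2.1 q.2.2.2.2) H.cont

theorem MCQ.ae_low (H : MCQ Q ψ) (C : Calc M γ) {v T : Fin 3 → M → ℝ} (hv : Sph γ v) :
    ∀ᵐ o ∂C.μ, QLow (at' C v o) (dx C v o) (dy C v o) (dx C T o) (dy C T o) (QC C Q v T o) := by
  filter_upwards [ae_perp C hv] with o ho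
  exact H.low _ _ _ _ _ (norm_at hv o) ho.1 ho.2

/-- **everywhere** -/
theorem MCQ.mod_all (H : MCQ Q ψ) (C : Calc M γ) {v T : Fin 3 → M → ℝ} (hv : Sph γ v) {K : ℝ}
    (hT : TZ C 2 1 K T) : ∀ᵐ o ∂C.μ,
    Gη C (eta v T) o + (1 - 4 * umod (eta v T) (C.pt o)) * nuC C v o + PE (enb (dx C v o) (dy C v o)) ≤
      QC C Q v T o - 2 * dnuC C v T o := by
  filter_upwards [ae_perp C hv, ae_mod C hv.lip hT.lip, hT.inW] with o h1 h2 h3
  have h4 := H.all _ _ _ _ _ (at' C T o) (norm_at hv o) h1.1 h1.2 h3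
  rw [h2.1, umod_at] at h4
  exact h4

/-- **on `{ρ ≥ 1/4}`** -/
theorem MCQ.mod_core (H : MCQ Q ψ) (C : Calc M γ) {v T : Fin 3 → M → ℝ}
    (hv : Sph γ v) {K : ℝ} (hT : TZ C 2 1 K T) : ∀ᵐ o ∂C.μ, 1 / 4 ≤ umod (eta v T) (C.pt o) →
    ∀ r : ℝ, 0 ≤ r → r ≤ 1 →
    gn C (umod (eta v T)) o ^ 2 + r * (Gη C (eta v T) o - gn C (umod (eta v T)) o ^ 2) +
        (1 - r) * ψ (nuC C v o) + r * nuC C v o - 4 * umod (eta v T) (C.pt o) * nuC C v o +
        PE (enb (dx C v o) (dy C v o)) ≤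
      QC C Q v T o - 2 * dnuC C v T o := by
  filter_upwards [ae_perp C hv, ae_mod C hv.lip hT.lip, hT.inW] with o h1 h2 h3 hρ r r0 r1
  obtain ⟨u, hu, hu1, hu2⟩ := h2.2 (by linarith)
  have h4 := H.core (norm_at hv o) h1.1 h1.2 h3 hu hu1 hρ r0 r1
  rw [hu2, h2.1] at h4
  exact h4

end Pool.Agent.FPX
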