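import Mathlib
import Pool.Agent.FPX.SWC

/-
FPX, SWP (helper89): the computable definitions of SWS (members with reserve, rational data), light file.
`WA`: averages of a weight; `wa S w` computes them from integer weights; `MQ`: a member; `mlOk ρ θ av Λ`:
the list `Λ` of members is valid for the levels `≥ ρ` with the reserve `θ`.
-/

namespace Pool.Agent.FPX

/-- the four Bernstein coefficients of a cubic polynomial on `[x, y]` are nonnegative -/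
def bernOk (p₀ p₁ p₂ p₃ x y : ℚ) : Bool :=
  decide (0 ≤ p₀ + x * (p₁ + x * (p₂ + x * p₃))) &&
  decide (0 ≤ p₀ + x * (p₁ + x * (p₂ + x * p₃)) + (y - x) * (p₁ + x * (2 * p₂ + 3 * x * p₃)) / 3) &&
  decide (0 ≤ p₀ + y * (p₁ + y * (p₂ + y * p₃)) - (y - x) * (p₁ + y * (2 * p₂ + 3 * y * p₃)) / 3) &&
  decide (0 ≤ p₀ + y * (p₁ + y * (p₂ + y * p₃)))

/-- a cubic polynomial is nonnegative on `[-1, 1]`, `2 n` pieces -/
def cubOk (p₀ p₁ p₂ p₃ : ℚ) (n : ℕ) : Bool :=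
  (List.range (2 * n)).all fun i => bernOk p₀ p₁ p₂ p₃ ((i : ℚ) / n - 1) (((i + 1 : ℕ) : ℚ) / n - 1)

/-- a cubic polynomial is nonnegative on `[-1, 1]`: it is `-p₃ (1 - c) (c - d)²` and a quadratic polynomial -/
def dblOk (p₀ p₁ p₂ p₃ d : ℚ) : Bool :=
  let q₀ := p₀ + p₃ * d ^ 2
  let q₁ := p₁ - p₃ * (2 * d + d ^ 2)
  let q₂ := p₂ + p₃ * (1 + 2 * d)
  decide (p₃ ≤ 0) && ((decide (0 < q₂) && decide (q₁ ^ 2 ≤ 4 * q₀ * q₂)) ||
    (decide (0 ≤ q₀ - q₁ + q₂) && decide (0 ≤ q₀ - q₂) && decide (0 ≤ q₀ + q₁ + q₂)))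

/-- the side conditions; `d` is the position of the double root -/
def swdOk (e f r β zp zq Ka κ αp ρ d : ℚ) : Bool :=
  decide (0 ≤ Ka) && decide (0 ≤ αp) && decide ((e * zp) ^ 2 ≤ 4 * αp * Ka) &&
  decide (0 < (e - 2 * r) / 4 - αp) && decide (0 < f - r) && decide (r ≤ β) &&
  decide (0 < e * zq ^ 2 + κ) && decide (0 ≤ ρ) &&
  decide (0 < (e - 2 * r) * (e * zq ^ 2 + κ) - (e * zq) ^ 2) &&
  (let k0 := e * zq ^ 2 + κ + 8 * ρ
   let k1 := 8 * ρ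
   let l0 := (e - 2 * r) * k0 - (e * zq) ^ 2
   let l1 := (e - 2 * r) * k1
   let w := 1 / (4 * ((e - 2 * r) / 4 - αp))
   let g0 := l0 * w + k0
   let g1 := l1 * w + k1
   let h0 := l0 / (f - r)
   let h1 := l1 / (f - r)
   let p0 := l0 - (β - r) * g0
   let p1 := -l1 + (β - r) * g1
   let p2 := -((β - r) * (h0 - g0))
   let p3 := -((β - r) * (g1 - h1))
   dblOk p0 p1 p2 p3 d || cubOk p0 p1 p2 p3 8)

/-- the averages of a weight -/
structure WA where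
  h : ℚ
  i : ℚ
  j : ℚ
  k : ℚ
  l : ℚ

/-- a member with rational data: index of the weight, credit `A + B ν + c |p|² - b y²`, parameters -/
structure MQ where
  ix : ℕ
  A : ℚ
  B : ℚ
  b : ℚ
  c : ℚ
  s : ℚ
  κ : ℚ
  α : ℚ
  d : ℚ

/-- the conditions of a member -/
def mqOk (ρ θ : ℚ) (a : WA) (t : MQ) : Bool :=
  decide (0 < t.b) && decide (t.A ≤ 3 * (1 - a.h)) &&
  decide (t.B ≤ (5 - 3 * a.i + 16 * a.j - 64 * a.k / 3 - t.κ) / 2) &&
  swdOk (3 / (4 * a.k)) (3 / (16 * a.l)) θ (1 / t.b) (2 * a.j - 1) (2 * a.j + 1 - 16 * a.k / 3)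
    (3 * (1 - a.i) + 3 / (4 * a.k) * (2 * a.j - 1) ^ 2 - t.c) t.κ t.α ρ t.d

/-- the conditions of a list of members for the levels `≥ ρ` and the reserve `θ` -/
def mlOk (ρ θ : ℚ) (av : List WA) (Λ : List MQ) : Bool :=
  decide (0 ≤ ρ) && (decide (θ ≤ 1) && Λ.all fun t => decide (t.ix < av.length) &&
    mqOk ρ θ (av.getD t.ix ⟨0, 0, 0, 0, 0⟩) t)

/-- the averages of an integer weight with the common denominator `S` -/
def wa (S : ℕ) (w : List ℤ × List ℤ) : WA :=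
  ⟨SWL.aH (SWL.wq S w), SWL.aI (SWL.wq S w), SWL.aJ (SWL.wq S w), SWL.aK (SWL.wq S w), SWL.aL (SWL.wq S w)⟩

end Pool.Agent.FPX
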