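import Mathlib
import Pool.Agent.FPX.PWS
import Pool.Agent.FPX.MDR

/-
SWR (helper89): the pointwise inequality of the modulus closing from one certificate `Qsw` (29's weights
which depend on the polar angle), with the reserve `r (|dη|² - |dρ|²)` inside, for all directions of `η`.
`e = 3/(4k)`, `f = 3/(16l)`, `zp = 2j - 1`, `zq = 2j + 1 - 16k/3`. Conclusion:
`β |dρ|² + r (|dη|² - |dρ|²) + 3 (1 - h) + (5 - 3i + 16j - 64k/3 - κ) ν / 2 - 4 ρ ν ≤ Qsw - 2 dν`.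
The condition is one cubic inequality in `c ∈ [-1, 1]`.
-/

open MeasureTheory Set Filter Topology
open scoped ENNReal NNReal

noncomputable section

namespace Pool.Agent.FPX

open Pool.Agent.EWD Pool.Agent.FPM

/-- Cauchy-Schwarz with three weights -/
theorem swr_cs {P Q R : ℝ} (hP : 0 < P) (hQ : 0 < Q) (hR : 0 < R) (α β γ u v w : ℝ) :
    (α * u + β * v + γ * w) ^ 2 ≤
      (P * u ^ 2 + Q * v ^ 2 + R * w ^ 2) * (α ^ 2 / P + β ^ 2 / Q + γ ^ 2 / R) := by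
  have e : (P * u ^ 2 + Q * v ^ 2 + R * w ^ 2) * (α ^ 2 / P + β ^ 2 / Q + γ ^ 2 / R) -
      (α * u + β * v + γ * w) ^ 2 = (P * β * u - Q * α * v) ^ 2 / (P * Q) +
        (P * γ * u - R * α * w) ^ 2 / (P * R) + (Q * γ * v - R * β * w) ^ 2 / (Q * R) := by
    field_simp
    ring
  have h : 0 ≤ (P * β * u - Q * α * v) ^ 2 / (P * Q) +
        (P * γ * u - R * α * w) ^ 2 / (P * R) + (Q * γ * v - R * β * w) ^ 2 / (Q * R) := by positivity
  linarith

/-- the form in five variables -/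
theorem swr_scal {e f r β zp zq Ka K αp L c s : ℝ} (hK : 0 < K) (hKa : 0 ≤ Ka) (hαp : 0 ≤ αp)
    (hp : (e * zp) ^ 2 ≤ 4 * αp * Ka) (hA : 0 < (e - 2 * r) / 4 - αp) (hf : 0 < f - r)
    (hL : L = (e - 2 * r) * K - (e * zq) ^ 2) (hL0 : 0 < L) (hβ : r ≤ β)
    (hc : (β - r) * (s ^ 2 / (4 * ((e - 2 * r) / 4 - αp)) + s ^ 2 * K / L + c ^ 2 / (f - r)) ≤ 1)
    (x w y a b : ℝ) :
    β * (s * x - c * w) ^ 2 + r * (x ^ 2 + w ^ 2 + y ^ 2 - (s * x - c * w) ^ 2) ≤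
      e / 2 * (x ^ 2 + y ^ 2) + f * w ^ 2 - e * zp * (a * (x - y)) + e * zq * (b * (x + y)) +
        Ka * a ^ 2 + K * b ^ 2 := by
  set A := (e - 2 * r) / 4 - αp with hA'
  have h1 : 0 ≤ αp * (x - y) ^ 2 - e * zp * (a * (x - y)) + Ka * a ^ 2 := by
    rcases hαp.eq_or_lt with h0 | h0
    · have hz : e * zp = 0 := by
        have : (e * zp) ^ 2 ≤ 0 := by
          rw [← h0] at hp
          linarith
        exact pow_eq_zero_iff (two_ne_zero) |>.1 (le_antisymm this (sq_nonneg _))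
      rw [hz, ← h0]
      have : 0 ≤ Ka * a ^ 2 := by positivity
      linarith
    · refine (mul_nonneg_iff_of_pos_left (show 0 < 4 * αp by positivity)).1 ?_
      have k1 : 0 ≤ (4 * αp * Ka - (e * zp) ^ 2) * a ^ 2 := mul_nonneg (by linarith) (sq_nonneg a)
      have k2 := sq_nonneg (2 * αp * (x - y) - e * zp * a)
      refine (add_nonneg k1 k2).trans_eq ?_
      ring
  have h2 : 0 ≤ K * (K * b ^ 2 + e * zq * (b * (x + y))) + (e * zq) ^ 2 / 4 * (x + y) ^ 2 := by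
    refine (sq_nonneg (K * b + e * zq * (x + y) / 2)).trans_eq ?_
    ring
  have h3 := swr_cs (show 0 < K * A by positivity) (show 0 < L / 4 by positivity)
    (show 0 < K * (f - r) by positivity) (s / 2) (s / 2) (-c) (x - y) (x + y) w
  have e3 : s / 2 * (x - y) + s / 2 * (x + y) + -c * w = s * x - c * w := by ring
  rw [e3] at h3
  have e4 : (s / 2) ^ 2 / (K * A) + (s / 2) ^ 2 / (L / 4) + (-c) ^ 2 / (K * (f - r)) =
      (s ^ 2 / (4 * A) + s ^ 2 * K / L + c ^ 2 / (f - r)) / K := by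
    field_simp
    ring
  rw [e4] at h3
  set S := s ^ 2 / (4 * A) + s ^ 2 * K / L + c ^ 2 / (f - r) with hS
  set N := K * A * (x - y) ^ 2 + L / 4 * (x + y) ^ 2 + K * (f - r) * w ^ 2 with hN
  have hN0 : 0 ≤ N := by positivity
  have h4 : K * ((β - r) * (s * x - c * w) ^ 2) ≤ N := by
    have k1 := mul_le_mul_of_nonneg_left h3 (mul_nonneg hK.le (show 0 ≤ β - r by linarith))
    have k2 : K * (β - r) * (N * (S / K)) = N * ((β - r) * S) := by
      field_simp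
    rw [k2] at k1
    have k3 : N * ((β - r) * S) ≤ N * 1 := mul_le_mul_of_nonneg_left hc hN0
    calc K * ((β - r) * (s * x - c * w) ^ 2) = K * (β - r) * (s * x - c * w) ^ 2 := by ring
      _ ≤ _ := k1
      _ ≤ N := by linarith
  refine le_of_mul_le_mul_left ?_ hK
  have h5 := mul_nonneg hK.le h1
  have e5 : N = K * ((e - 2 * r) / 4 * ((x - y) ^ 2 + (x + y) ^ 2)) - K * (αp * (x - y) ^ 2) -
      (e * zq) ^ 2 / 4 * (x + y) ^ 2 + K * (f - r) * w ^ 2 := by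
    rw [hN, hL, hA']
    ring
  rw [e5] at h4
  refine le_of_sub_nonneg ((add_nonneg (add_nonneg (sub_nonneg.2 h4) h5) h2).trans_eq ?_)
  ring

section vec

variable {v e : E3}

private theorem SWR_inner (hv : ‖v‖ = 1) (he : inner ℝ e e = (1 : ℝ)) (hve : inner ℝ v e = (0 : ℝ))
    (X Y : E3) : (inner ℝ X Y : ℝ) = inner ℝ v X * inner ℝ v Y + inner ℝ e X * inner ℝ e Y +
      inner ℝ (crs v e) X * inner ℝ (crs v e) Y := by
  have hvv := inner_self_one hv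
  have h1 := crt_parseval hvv he hve (X + Y)
  have h2 := crt_parseval hvv he hve X
  have h3 := crt_parseval hvv he hve Y
  rw [norm_add_sq_real, inner_add_right, inner_add_right, inner_add_right] at h1
  nlinarith

private theorem SWR_crs1 (X : E3) : (inner ℝ e (crs v X) : ℝ) = -inner ℝ (crs v e) X := by
  simp only [inner3, crs0, crs1, crs2]
  ring

private theorem SWR_crs2 (hv : ‖v‖ = 1) (hve : inner ℝ v e = (0 : ℝ)) (X : E3) :
    (inner ℝ (crs v e) (crs v X) : ℝ) = inner ℝ e X := by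
  have : (inner ℝ (crs v e) (crs v X) : ℝ) = inner ℝ v v * inner ℝ e X - inner ℝ v e * inner ℝ v X := by
    simp only [inner3, crs0, crs1, crs2]
    ring
  rw [this, inner_self_one hv, hve]
  ring

private theorem SWR_qe (hve : inner ℝ v e = (0 : ℝ)) (X Y : E3) :
    (inner ℝ e (qm v X Y) : ℝ) = (inner ℝ e X + inner ℝ (crs v e) Y) / 2 := by
  unfold qm prj
  rw [inner_smul_right, inner_sub_right, inner_sub_right, inner_smul_right, SWR_crs1,
    real_inner_comm v e, hve]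
  ring

private theorem SWR_qf (hv : ‖v‖ = 1) (hve : inner ℝ v e = (0 : ℝ)) (X Y : E3) :
    (inner ℝ (crs v e) (qm v X Y) : ℝ) = (inner ℝ (crs v e) X - inner ℝ e Y) / 2 := by
  unfold qm prj
  rw [inner_smul_right, inner_sub_right, inner_sub_right, inner_smul_right, SWR_crs2 hv hve,
    real_inner_comm v (crs v e), inner_crs_left]
  ring

private theorem SWR_pe (hve : inner ℝ v e = (0 : ℝ)) (X Y : E3) :
    (inner ℝ e (qp v X Y) : ℝ) = (inner ℝ e X - inner ℝ (crs v e) Y) / 2 := by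
  unfold qp prj
  rw [inner_smul_right, inner_add_right, inner_sub_right, inner_smul_right, SWR_crs1,
    real_inner_comm v e, hve]
  ring

private theorem SWR_pf (hv : ‖v‖ = 1) (hve : inner ℝ v e = (0 : ℝ)) (X Y : E3) :
    (inner ℝ (crs v e) (qp v X Y) : ℝ) = (inner ℝ (crs v e) X + inner ℝ e Y) / 2 := by
  unfold qp prj
  rw [inner_smul_right, inner_add_right, inner_sub_right, inner_smul_right, SWR_crs2 hv hve,
    real_inner_comm v (crs v e), inner_crs_left]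
  ring

theorem qp_perp' {v : E3} (hv : ‖v‖ = 1) (X Y : E3) : inner ℝ v (qp v X Y) = (0 : ℝ) := by
  unfold qp
  rw [inner_smul_right, inner_add_right, prj_perp hv, inner_crs_left]
  ring

theorem qp_sub (v A B a b : E3) : qp v (A - a) (B - b) = qp v A B - qp v a b := by
  unfold qp
  rw [prj_sub, crs_sub]
  module

end vec

/-- the scalar data of one member -/
structure SWD (e f r β zp zq Ka κ αp ρ : ℝ) : Prop where
  Ka0 : 0 ≤ Ka
  αp0 : 0 ≤ αp
  hp : (e * zp) ^ 2 ≤ 4 * αp * Ka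
  hA : 0 < (e - 2 * r) / 4 - αp
  hf : 0 < f - r
  hβ : r ≤ β
  hK : 0 < e * zq ^ 2 + κ
  hρ : 0 ≤ ρ
  hL : 0 < (e - 2 * r) * (e * zq ^ 2 + κ) - (e * zq) ^ 2
  hc : ∀ c : ℝ, c ^ 2 ≤ 1 → (β - r) *
    ((1 - c ^ 2) / (4 * ((e - 2 * r) / 4 - αp)) * ((e - 2 * r) * (e * zq ^ 2 + κ + 8 * ρ * (1 - c)) - (e * zq) ^ 2)
      + (1 - c ^ 2) * (e * zq ^ 2 + κ + 8 * ρ * (1 - c)) +
      c ^ 2 / (f - r) * ((e - 2 * r) * (e * zq ^ 2 + κ + 8 * ρ * (1 - c)) - (e * zq) ^ 2)) ≤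
    (e - 2 * r) * (e * zq ^ 2 + κ + 8 * ρ * (1 - c)) - (e * zq) ^ 2

/-- the form in vectors -/
theorem swr_vec {e f r β zp zq Ka κ αp ρ : ℝ} (D : SWD e f r β zp zq Ka κ αp ρ) {v u p q : E3}
    (hv : ‖v‖ = 1) (hu : ‖u‖ = 1) (hp : inner ℝ v p = (0 : ℝ)) (hq : inner ℝ v q = (0 : ℝ)) (X Y : E3) :
    β * (inner ℝ u X ^ 2 + inner ℝ u Y ^ 2) + r * (‖X‖ ^ 2 + ‖Y‖ ^ 2 -
        (inner ℝ u X ^ 2 + inner ℝ u Y ^ 2)) ≤
      e * ‖qp v X Y‖ ^ 2 - 2 * (e * zp) * inner ℝ p (qp v X Y) + Ka * ‖p‖ ^ 2 +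
        e * ‖qm v X Y‖ ^ 2 + 2 * (e * zq) * inner ℝ q (qm v X Y) +
        (e * zq ^ 2 + κ + 8 * ρ * (1 + inner ℝ v u)) * ‖q‖ ^ 2 +
        f * (inner ℝ v X ^ 2 + inner ℝ v Y ^ 2) := by
  obtain ⟨ee, s, c, he, hve, hcs, hc', hu'⟩ := mdq_frame hv hu
  have hvv := inner_self_one hv
  have hc1 : c ^ 2 ≤ 1 := by nlinarith [sq_nonneg s]
  have hcm : c ≤ 1 := by nlinarith
  have e0 : (inner ℝ v u : ℝ) = -c := by rw [hc']; ring
  rw [e0]
  set K := e * zq ^ 2 + κ + 8 * ρ * (1 + -c) with hK'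
  have hρ0 : 0 ≤ 8 * ρ * (1 + -c) := mul_nonneg (by linarith [D.hρ]) (by linarith)
  have hK0 : 0 < K := by
    rw [hK']
    linarith [D.hK]
  have he2 : 0 < e - 2 * r := by linarith [D.hA, D.αp0]
  have hL0 : 0 < (e - 2 * r) * K - (e * zq) ^ 2 := by
    have := mul_le_mul_of_nonneg_left (show e * zq ^ 2 + κ ≤ K by rw [hK']; linarith) he2.le
    linarith [D.hL]
  have hcond : (β - r) * (s ^ 2 / (4 * ((e - 2 * r) / 4 - αp)) +
      s ^ 2 * K / ((e - 2 * r) * K - (e * zq) ^ 2) + c ^ 2 / (f - r)) ≤ 1 := by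
    have h := D.hc c hc1
    have e1 : e * zq ^ 2 + κ + 8 * ρ * (1 - c) = K := by
      rw [hK']
      ring
    have e2 : 1 - c ^ 2 = s ^ 2 := by linarith
    rw [e1, e2] at h
    generalize (e - 2 * r) * K - (e * zq) ^ 2 = L at h hL0 ⊢
    refine le_of_mul_le_mul_right ?_ hL0
    rw [one_mul]
    refine le_trans (le_of_eq ?_) h
    have k1 : s ^ 2 * K / L * L = s ^ 2 * K := div_mul_cancel₀ _ hL0.ne'
    calc (β - r) * (s ^ 2 / (4 * ((e - 2 * r) / 4 - αp)) + s ^ 2 * K / L + c ^ 2 / (f - r)) * L =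
        (β - r) * (s ^ 2 / (4 * ((e - 2 * r) / 4 - αp)) * L + s ^ 2 * K / L * L +
          c ^ 2 / (f - r) * L) := by ring
      _ = _ := by rw [k1]
  have n1 := crt_parseval hvv he hve X
  have n2 := crt_parseval hvv he hve Y
  have n3 := crt_parseval hvv he hve (qm v X Y)
  have n3' := crt_parseval hvv he hve (qp v X Y)
  have n4 := crt_parseval hvv he hve q
  have n4' := crt_parseval hvv he hve p
  have i1 := SWR_inner hv he hve q (qm v X Y)
  have i2 := SWR_inner hv he hve p (qp v X Y)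
  rw [mdq_perp hv, SWR_qe hve, SWR_qf hv hve] at n3 i1
  rw [qp_perp' hv, SWR_pe hve, SWR_pf hv hve] at n3' i2
  rw [hq] at n4 i1
  rw [hp] at n4' i2
  have g1 : (inner ℝ u X : ℝ) = s * inner ℝ ee X - c * inner ℝ v X := by
    rw [hu', inner_sub_left, real_inner_smul_left, real_inner_smul_left]
  have g2 : (inner ℝ u Y : ℝ) = s * inner ℝ ee Y - c * inner ℝ v Y := by
    rw [hu', inner_sub_left, real_inner_smul_left, real_inner_smul_left]
  have k1 := swr_scal hK0 D.Ka0 D.αp0 D.hp D.hA D.hf rfl hL0 D.hβ hcond (inner ℝ ee X)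
    (inner ℝ v X) (inner ℝ (crs v ee) Y) (inner ℝ ee p) (inner ℝ ee q)
  have k2 := swr_scal hK0 D.Ka0 D.αp0 D.hp D.hA D.hf rfl hL0 D.hβ hcond (inner ℝ ee Y)
    (inner ℝ v Y) (-inner ℝ (crs v ee) X) (inner ℝ (crs v ee) p) (-inner ℝ (crs v ee) q)
  rw [g1, g2, n1, n2, n3, n3', n4, n4', i1, i2]
  generalize (inner ℝ ee X : ℝ) = x1 at *
  generalize (inner ℝ v X : ℝ) = x2 at *
  generalize (inner ℝ (crs v ee) X : ℝ) = x3 at *
  generalize (inner ℝ ee Y : ℝ) = y1 at *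
  generalize (inner ℝ v Y : ℝ) = y2 at *
  generalize (inner ℝ (crs v ee) Y : ℝ) = y3 at *
  generalize (inner ℝ ee q : ℝ) = b1 at *
  generalize (inner ℝ (crs v ee) q : ℝ) = b2 at *
  generalize (inner ℝ ee p : ℝ) = a1 at *
  generalize (inner ℝ (crs v ee) p : ℝ) = a2 at *
  clear_value K
  refine le_of_sub_nonneg ((add_nonneg (sub_nonneg.2 k1) (sub_nonneg.2 k2)).trans_eq ?_)
  ring

/-- **one certificate of 29's family, with reserve, all directions** -/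
theorem swr_ge {h i j k l r β κ αp ρ₀ ρ : ℝ} (hk : 0 < k)
    (D : SWD (3 / (4 * k)) (3 / (16 * l)) r β (2 * j - 1) (2 * j + 1 - 16 * k / 3)
      (3 * (1 - i) + 3 / (4 * k) * (2 * j - 1) ^ 2) κ αp ρ₀) (hρ : ρ₀ ≤ ρ)
    {v a b T u : E3} (A B : E3) (hv : ‖v‖ = 1) (ha : inner ℝ v a = (0 : ℝ))
    (hb : inner ℝ v b = (0 : ℝ)) (hu : ‖u‖ = 1) (hT : T - v = ρ • u) :
    β * (inner ℝ u (A - a) ^ 2 + inner ℝ u (B - b) ^ 2) +
        r * (‖A - a‖ ^ 2 + ‖B - b‖ ^ 2 - (inner ℝ u (A - a) ^ 2 + inner ℝ u (B - b) ^ 2)) +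
        3 * (1 - h) + (5 - 3 * i + 16 * j - 64 * k / 3 - κ) / 2 * nuv v a b -
        4 * ρ * nuv v a b ≤
      Qsw h i j k l v a b A B - 2 * dnu v a b T A B := by
  have k00 := swr_vec D hv hu (qp_perp' hv a b) (mdq_perp hv a b) (A - a) (B - b)
  have hvu : -1 ≤ (inner ℝ v u : ℝ) := by
    have k1 := abs_real_inner_le_norm v u
    rw [hv, hu, one_mul] at k1
    exact (abs_le.1 k1).1
  have hm0 : (3 / (4 * k) * (2 * j + 1 - 16 * k / 3) ^ 2 + κ + 8 * ρ₀ * (1 + inner ℝ v u)) *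
      ‖qm v a b‖ ^ 2 ≤ (3 / (4 * k) * (2 * j + 1 - 16 * k / 3) ^ 2 + κ + 8 * ρ * (1 + inner ℝ v u)) *
      ‖qm v a b‖ ^ 2 := by
    refine mul_le_mul_of_nonneg_right ?_ (sq_nonneg _)
    have := mul_le_mul_of_nonneg_right (show 8 * ρ₀ ≤ 8 * ρ by linarith)
      (show 0 ≤ 1 + (inner ℝ v u : ℝ) by linarith)
    linarith
  have k0 := k00.trans (add_le_add_left (add_le_add_right hm0 _) _)
  set p := qp v a b with hp
  set q := qm v a b with hq
  -- identities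
  have j1 := jac_pm hv ha hb
  have j2 := norm_pm hv ha hb
  rw [← hp, ← hq] at j1 j2
  have hν : nuv v a b = 2 * ‖q‖ ^ 2 := rfl
  have hS : ‖prj v A‖ ^ 2 + ‖prj v B‖ ^ 2 = 2 * ‖qp v A B‖ ^ 2 + 2 * ‖qm v A B‖ ^ 2 := by
    have k := norm_pm (X := prj v A) (Y := prj v B) hv (prj_perp hv A) (prj_perp hv B)
    have k2 : qm v (prj v A) (prj v B) = qm v A B := by
      unfold qm
      rw [prj_prj hv, crs_prj]
    have k3 : qp v (prj v A) (prj v B) = qp v A B := by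
      unfold qp
      rw [prj_prj hv, crs_prj]
    rw [k2, k3] at k
    exact k
  have h4 : inner ℝ (crs v b) (crs v B) =
      (inner ℝ v v * inner ℝ b B - inner ℝ v b * inner ℝ v B : ℝ) := by
    simp only [inner3, crs0, crs1, crs2]
    ring
  have h5 : inner ℝ a (crs v B) = (-inner ℝ (crs v a) B : ℝ) := by
    simp only [inner3, crs0, crs1, crs2]
    ring
  have h6 : (inner ℝ v v : ℝ) = 1 := inner_self_one hv
  have hm : (inner ℝ (a - crs v b) (A - crs v B) : ℝ) = 4 * inner ℝ q (qm v A B) := inner_q ha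
  have hpp : (inner ℝ (a + crs v b) (A + crs v B) : ℝ) = 4 * inner ℝ p (qp v A B) := inner_p hv ha
  rw [inner_sub_left, inner_sub_right, inner_sub_right, h4, h5, h6, hb] at hm
  rw [inner_add_left, inner_add_right, inner_add_right, h4, h5, h6, hb] at hpp
  have x2 : (inner ℝ (crs v b) A : ℝ) - inner ℝ (crs v a) B =
      2 * inner ℝ p (qp v A B) - 2 * inner ℝ q (qm v A B) := by
    linarith
  have ec : qp v A B = p + qp v (A - a) (B - b) := by
    rw [qp_sub]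
    abel
  have ed : qm v A B = q + qm v (A - a) (B - b) := by
    rw [qm_sub]
    abel
  set c := qp v (A - a) (B - b) with hc
  set d := qm v (A - a) (B - b) with hd
  have y1 : (inner ℝ p (qp v A B) : ℝ) = ‖p‖ ^ 2 + inner ℝ p c := by
    rw [ec, inner_add_right, real_inner_self_eq_norm_sq]
  have y2 : (inner ℝ q (qm v A B) : ℝ) = ‖q‖ ^ 2 + inner ℝ q d := by
    rw [ed, inner_add_right, real_inner_self_eq_norm_sq]
  have y3 : ‖qp v A B‖ ^ 2 = ‖p‖ ^ 2 + 2 * inner ℝ p c + ‖c‖ ^ 2 := by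
    rw [ec, norm_add_sq_real]
  have y4 : ‖qm v A B‖ ^ 2 = ‖q‖ ^ 2 + 2 * inner ℝ q d + ‖d‖ ^ 2 := by
    rw [ed, norm_add_sq_real]
  have e1 : (inner ℝ v (A - a) : ℝ) = inner ℝ v A := by rw [inner_sub_right, ha, sub_zero]
  have e2 : (inner ℝ v (B - b) : ℝ) = inner ℝ v B := by rw [inner_sub_right, hb, sub_zero]
  rw [e1, e2] at k0
  have hz : (inner ℝ v T : ℝ) = 1 + ρ * inner ℝ v u := by
    have k1 : T = v + ρ • u := by
      rw [← hT]
      abel
    rw [k1, inner_add_right, inner_smul_right, h6]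
  have hQ : Qsw h i j k l v a b A B = 3 - 3 * h + 3 * (‖p‖ ^ 2 - ‖q‖ ^ 2)
      - 3 / 2 * i * (2 * ‖p‖ ^ 2 + 2 * ‖q‖ ^ 2)
      + 3 / (2 * k) * (j ^ 2 * (2 * ‖p‖ ^ 2 + 2 * ‖q‖ ^ 2)
        - j * (2 * (‖p‖ ^ 2 + inner ℝ p c) - 2 * (‖q‖ ^ 2 + inner ℝ q d))
        + (1 / 4) * (2 * (‖p‖ ^ 2 + 2 * inner ℝ p c + ‖c‖ ^ 2) +
          2 * (‖q‖ ^ 2 + 2 * inner ℝ q d + ‖d‖ ^ 2)))
      + 3 / (16 * l) * (inner ℝ v A ^ 2 + inner ℝ v B ^ 2) := by
    unfold Qsw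
    rw [j1, j2, x2, hS, y1, y2, y3, y4]
  have hdn : dnu v a b T A B = 4 * (inner ℝ q (qm v A B) - inner ℝ v T * ‖q‖ ^ 2) := rfl
  rw [hQ, hdn, y2, hz, hν]
  have hk' : 3 / (4 * k) * k = 3 / 4 := by
    field_simp
  have k1 : 3 / (2 * k) = 2 * (3 / (4 * k)) := by
    field_simp
    ring
  rw [k1]
  set e := 3 / (4 * k) with he
  refine le_of_sub_nonneg ((sub_nonneg.2 k0).trans_eq ?_)
  have k2 : e * (16 * k / 3) = 4 := by
    linear_combination (16 / 3) * hk'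
  have k3 : e * (16 * k / 3) ^ 2 = 64 * k / 3 := by
    linear_combination (16 * k / 3) * k2
  linear_combination (-2 * inner ℝ q d - 2 * (2 * j + 1) * ‖q‖ ^ 2) * k2 + ‖q‖ ^ 2 * k3

variable {M : Type} [MetricSpace M] {γ : ℝ → M}

/-- **on the surface**: one certificate, with reserve, on `{ρ ≥ ρ₀}` -/
theorem mod_sw (C : Calc M γ) {h i j k l : ℝ} (hk : 0 < k) {v T : Fin 3 → M → ℝ} (hv : Sph γ v)
    (hT : ∀ m, Lip (T m)) : ∀ᵐ o ∂C.μ, ∀ r β κ αp ρ₀ : ℝ,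
    SWD (3 / (4 * k)) (3 / (16 * l)) r β (2 * j - 1) (2 * j + 1 - 16 * k / 3)
      (3 * (1 - i) + 3 / (4 * k) * (2 * j - 1) ^ 2) κ αp ρ₀ →
    0 < umod (eta v T) (C.pt o) → ρ₀ ≤ umod (eta v T) (C.pt o) →
    β * gn C (umod (eta v T)) o ^ 2 + r * (Gη C (eta v T) o - gn C (umod (eta v T)) o ^ 2) +
        3 * (1 - h) + (5 - 3 * i + 16 * j - 64 * k / 3 - κ) / 2 * nuC C v o -
        4 * umod (eta v T) (C.pt o) * nuC C v o ≤
      Qsw h i j k l (at' C v o) (dx C v o) (dy C v o) (dx C T o) (dy C T o) - 2 * dnuC C v T o := by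
  filter_upwards [ae_perp C hv, ae_mod C hv.lip hT] with o h1 h2 r β κ αp ρ₀ D hp hρ
  obtain ⟨u, hu, hu1, hu2⟩ := h2.2 hp
  have h4 := swr_ge (h := h) hk D hρ (dx C T o) (dy C T o) (norm_at hv o) h1.1 h1.2 hu hu1
  rw [hu2, h2.1] at h4
  exact h4

end Pool.Agent.FPX
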