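import Mathlib
import Pool.Agent.FPX.SWN
import Pool.Agent.FPX.SWR
import Pool.Agent.FPX.MDS
import Pool.Agent.FPX.S7O
import Pool.Agent.FPX.SWD
import Pool.Agent.FPX.SWP

/-
SWS (helper89): members with reserve. `p = qp`, `q = qm` of the state, `ν = 2 |q|²`, `e = |p|² + |q|²`,
`opn = |p| + |q|`. `MCR Q ρ₀ θ Ψ`: for all `y` and all states with `ρ ≥ ρ₀`
`2 y |dρ| + θ (|dη|² - |dρ|²) + Ψ y |p| |q| - 4 ρ ν ≤ Q - 2 dν`.
`MCR.mix`: linear interpolation in `θ`. `MT`: one weight with the credit `A + B ν + c |p|² - b y²`.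
`mcr_t`: one certificate `QW L`, and for every `θ` a list of members (`mcr_tp`: with `P(e)`).
`MT.w_le`: the reserve `c |p|²` pays `w (opn² - J - ν) = 2 w |p| |q|`.
`mcr_q`: the list of members from the Boolean `mlOk` of SWP (rational numbers).
-/

open MeasureTheory Set Filter Topology
open scoped ENNReal NNReal

noncomputable section

namespace Pool.Agent.FPX

open Pool.Agent.EWD Pool.Agent.FPM

/-- one weight with the reserve `r` and the reserve `c` for the conformal part of the state -/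
theorem swr_geC {h i j k l r β κ αp ρ₀ ρ c : ℝ} (hk : 0 < k)
    (D : SWD (3 / (4 * k)) (3 / (16 * l)) r β (2 * j - 1) (2 * j + 1 - 16 * k / 3)
      (3 * (1 - i) + 3 / (4 * k) * (2 * j - 1) ^ 2 - c) κ αp ρ₀) (hρ : ρ₀ ≤ ρ)
    {v a b T u : E3} (A B : E3) (hv : ‖v‖ = 1) (ha : inner ℝ v a = (0 : ℝ))
    (hb : inner ℝ v b = (0 : ℝ)) (hu : ‖u‖ = 1) (hT : T - v = ρ • u) :
    β * (inner ℝ u (A - a) ^ 2 + inner ℝ u (B - b) ^ 2) +
        r * (‖A - a‖ ^ 2 + ‖B - b‖ ^ 2 - (inner ℝ u (A - a) ^ 2 + inner ℝ u (B - b) ^ 2)) +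
        3 * (1 - h) + (5 - 3 * i + 16 * j - 64 * k / 3 - κ) / 2 * nuv v a b +
        c * ‖qp v a b‖ ^ 2 - 4 * ρ * nuv v a b ≤
      Qsw h i j k l v a b A B - 2 * dnu v a b T A B := by
  -- the weight with `i` replaced by `i + c / 3`
  have hi : 3 * (1 - i) + 3 / (4 * k) * (2 * j - 1) ^ 2 - c =
      3 * (1 - (i + c / 3)) + 3 / (4 * k) * (2 * j - 1) ^ 2 := by ring
  rw [hi] at D
  have h1 := swr_ge (h := h) hk D hρ A B hv ha hb hu hT
  have j2 := norm_pm hv ha hb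
  have h2 : Qsw h (i + c / 3) j k l v a b A B = Qsw h i j k l v a b A B -
      c * ‖qp v a b‖ ^ 2 - c / 2 * nuv v a b := by
    unfold Qsw nuv
    rw [j2]
    ring
  rw [h2] at h1
  have : (5 - 3 * (i + c / 3) + 16 * j - 64 * k / 3 - κ) / 2 * nuv v a b =
      (5 - 3 * i + 16 * j - 64 * k / 3 - κ) / 2 * nuv v a b - c / 2 * nuv v a b := by ring
  rw [this] at h1
  linarith

theorem enb_pq {v a b : E3} (hv : ‖v‖ = 1) (ha : inner ℝ v a = (0 : ℝ)) (hb : inner ℝ v b = (0 : ℝ)) :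
    enb a b = ‖qp v a b‖ ^ 2 + ‖qm v a b‖ ^ 2 := by
  have j2 := norm_pm hv ha hb
  unfold enb
  rw [j2]
  ring

/-! ### certificates with reserve -/

/-- the credit `Ψ y |p| |q|` with the reserve `θ` -/
structure MCR (Q : E3 → E3 → E3 → E3 → E3 → ℝ) (ρ₀ θ : ℝ) (Ψ : ℝ → ℝ → ℝ → ℝ) : Prop where
  rad : ∀ (v a b A B T u : E3) (h y z : ℝ), ‖v‖ = 1 → inner ℝ v a = (0 : ℝ) → inner ℝ v b = (0 : ℝ) →
    InW 2 1 A B → ‖u‖ = 1 → T - v = h • u → ρ₀ ≤ h →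
    z ^ 2 = inner ℝ u (A - a) ^ 2 + inner ℝ u (B - b) ^ 2 →
    2 * y * z + θ * (‖A - a‖ ^ 2 + ‖B - b‖ ^ 2 - z ^ 2) + Ψ y ‖qp v a b‖ ‖qm v a b‖ -
      4 * h * nuv v a b ≤ Q v a b A B - 2 * dnu v a b T A B

section mcr

variable {Q : E3 → E3 → E3 → E3 → E3 → ℝ} {ψ : ℝ → ℝ} {Ψ Ψ' : ℝ → ℝ → ℝ → ℝ} {ρ₀ θ θ' : ℝ}

/-- radial coefficient one, no reserve -/
theorem MCQ.zero (H : MCQ Q ψ) :
    MCR Q (1 / 4) 0 fun y p q => ψ (2 * q ^ 2) + PE (p ^ 2 + q ^ 2) - y ^ 2 where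
  rad := fun v a b A B T u h y z hv ha hb hAB hu hT hh hz => by
    have h1 := H.rad v a b A B T u h hv ha hb hAB hu hT hh
    rw [enb_pq hv ha hb] at h1
    have h2 : nuv v a b = 2 * ‖qm v a b‖ ^ 2 := rfl
    rw [h2] at h1 ⊢
    nlinarith [sq_nonneg (y - z)]

/-- the base member -/
theorem MCQ.base (H : MCQ Q ψ) (hρ : 0 ≤ ρ₀) (t1 : θ ≤ 1) :
    MCR Q ρ₀ θ fun y p q => 2 * q ^ 2 + PE (p ^ 2 + q ^ 2) - y ^ 2 where
  rad := fun v a b A B T u h y z hv ha hb hAB hu hT hh hz => by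
    have h1 := H.all v a b A B T hv ha hb hAB
    have hn : ‖T - v‖ = h := by
      rw [hT, norm_smul, hu, mul_one, Real.norm_eq_abs, abs_of_nonneg (by linarith)]
    rw [hn, enb_pq hv ha hb] at h1
    have h2 : nuv v a b = 2 * ‖qm v a b‖ ^ 2 := rfl
    rw [h2] at h1 ⊢
    have k2 := G_le_E hu (A - a) (B - b)
    rw [← hz] at k2
    have k3 := mul_le_mul_of_nonneg_right t1 (sub_nonneg.2 k2)
    nlinarith [sq_nonneg (y - z)]

/-- **linear interpolation in `θ`** -/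
theorem MCR.mix (H : MCR Q ρ₀ θ Ψ) (H' : MCR Q ρ₀ θ' Ψ') {s : ℝ} (h0 : 0 ≤ s) (h1 : s ≤ 1) :
    MCR Q ρ₀ ((1 - s) * θ + s * θ') fun y p q => (1 - s) * Ψ y p q + s * Ψ' y p q where
  rad := fun v a b A B T u h y z hv ha hb hAB hu hT hh hz => by
    have k1 := mul_le_mul_of_nonneg_left (H.rad v a b A B T u h y z hv ha hb hAB hu hT hh hz)
      (show 0 ≤ 1 - s by linarith)
    have k2 := mul_le_mul_of_nonneg_left (H'.rad v a b A B T u h y z hv ha hb hAB hu hT hh hz) h0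
    linarith

theorem MCR.mono {ρ₁ : ℝ} (H : MCR Q ρ₀ θ Ψ) (hρ : ρ₀ ≤ ρ₁) (ht : θ' ≤ θ)
    (hΨ : ∀ y p q, 0 ≤ p → 0 ≤ q → Ψ' y p q ≤ Ψ y p q) : MCR Q ρ₁ θ' Ψ' where
  rad := fun v a b A B T u h y z hv ha hb hAB hu hT hh hz => by
    have k1 := H.rad v a b A B T u h y z hv ha hb hAB hu hT (hρ.trans hh) hz
    have k2 := G_le_E hu (A - a) (B - b)
    rw [← hz] at k2
    have k3 := mul_le_mul_of_nonneg_right ht (sub_nonneg.2 k2)
    have k4 := hΨ y _ _ (norm_nonneg (qp v a b)) (norm_nonneg (qm v a b))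
    linarith

theorem MCR.max (H : MCR Q ρ₀ θ Ψ) (H' : MCR Q ρ₀ θ Ψ') :
    MCR Q ρ₀ θ fun y p q => Max.max (Ψ y p q) (Ψ' y p q) where
  rad := fun v a b A B T u h y z hv ha hb hAB hu hT hh hz => by
    have k1 := H.rad v a b A B T u h y z hv ha hb hAB hu hT hh hz
    have k2 := H'.rad v a b A B T u h y z hv ha hb hAB hu hT hh hz
    rcases le_total (Ψ y ‖qp v a b‖ ‖qm v a b‖) (Ψ' y ‖qp v a b‖ ‖qm v a b‖) with h3 | h3
    · rw [max_eq_right h3]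
      exact k2
    · rw [max_eq_left h3]
      exact k1

/-- the norms of the two parts of `dv` -/
def pnC {M : Type} [MetricSpace M] {γ : ℝ → M} (C : Calc M γ) (v : Fin 3 → M → ℝ) (o : Om) : ℝ :=
  ‖qp (at' C v o) (dx C v o) (dy C v o)‖

/-- the norms of the two parts of `dv` -/
def qnC {M : Type} [MetricSpace M] {γ : ℝ → M} (C : Calc M γ) (v : Fin 3 → M → ℝ) (o : Om) : ℝ :=
  ‖qm (at' C v o) (dx C v o) (dy C v o)‖

section surf

variable {M : Type} [MetricSpace M] {γ : ℝ → M}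

theorem pnC_nonneg (C : Calc M γ) (v : Fin 3 → M → ℝ) (o : Om) : 0 ≤ pnC C v o := norm_nonneg _

theorem qnC_nonneg (C : Calc M γ) (v : Fin 3 → M → ℝ) (o : Om) : 0 ≤ qnC C v o := norm_nonneg _

theorem nuC_q (C : Calc M γ) (v : Fin 3 → M → ℝ) (o : Om) : nuC C v o = 2 * qnC C v o ^ 2 := rfl

theorem opn_pq (C : Calc M γ) (v : Fin 3 → M → ℝ) (o : Om) : opn C v o = pnC C v o + qnC C v o := rfl

/-- `J = |p|² - |q|²`, `e = |p|² + |q|²`, `opn² - J - ν = 2 |p| |q|` -/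
theorem ae_pq (C : Calc M γ) {v : Fin 3 → M → ℝ} (hv : Sph γ v) : ∀ᵐ o ∂C.μ,
    jac C v o = pnC C v o ^ 2 - qnC C v o ^ 2 ∧
    enb (dx C v o) (dy C v o) = pnC C v o ^ 2 + qnC C v o ^ 2 ∧
    opn C v o ^ 2 - jac C v o - nuC C v o = 2 * pnC C v o * qnC C v o := by
  filter_upwards [ae_perp C hv] with o h1
  have j1 : jac C v o = pnC C v o ^ 2 - qnC C v o ^ 2 := jac_pm (norm_at hv o) h1.1 h1.2
  have j2 : enb (dx C v o) (dy C v o) = pnC C v o ^ 2 + qnC C v o ^ 2 := enb_pq (norm_at hv o) h1.1 h1.2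
  refine ⟨j1, j2, ?_⟩
  rw [j1, nuC_q, opn_pq]
  ring

/-- **on the surface** -/
theorem MCR.mod (H : MCR Q ρ₀ θ Ψ) (hρ₀ : 0 < ρ₀) (C : Calc M γ) {v T : Fin 3 → M → ℝ} (hv : Sph γ v)
    {K : ℝ} (hT : TZ C 2 1 K T) : ∀ᵐ o ∂C.μ, ρ₀ ≤ umod (eta v T) (C.pt o) → ∀ y : ℝ,
    2 * y * gn C (umod (eta v T)) o + θ * (Gη C (eta v T) o - gn C (umod (eta v T)) o ^ 2) +
        Ψ y (pnC C v o) (qnC C v o) - 4 * umod (eta v T) (C.pt o) * nuC C v o ≤
      QC C Q v T o - 2 * dnuC C v T o := by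
  filter_upwards [ae_perp C hv, ae_mod C hv.lip hT.lip, hT.inW] with o h1 h2 h3 hρ y
  obtain ⟨u, hu, hu1, hu2⟩ := h2.2 (by linarith)
  have h4 := H.rad _ _ _ _ _ _ u _ y _ (norm_at hv o) h1.1 h1.2 h3 hu hu1 hρ hu2.symm
  rw [h2.1] at h4
  exact h4

end surf

/-- the lists of constant weights -/
theorem mcr_tau {l : List ℝ} (hl : ∀ δ ∈ l, 0 ≤ δ ∧ δ ≤ 5) {θ : ℝ} (t0 : 0 ≤ θ) (t1 : θ < 1) :
    MCR (QM l) (1 / 4) θ fun y p q => PSR θ l (2 * q ^ 2) + PE (p ^ 2 + q ^ 2) - y ^ 2 where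
  rad := fun v a b A B T u h y z hv ha hb hAB hu hT hh hz => by
    have h1 := mds_core hl hv ha hb hAB hu hT hh t0 t1
    rw [enb_pq hv ha hb] at h1
    have h2 : nuv v a b = 2 * ‖qm v a b‖ ^ 2 := rfl
    rw [h2] at h1 ⊢
    nlinarith [sq_nonneg (y - z)]

end mcr

/-! ### lists of polar weights -/

/-- a member: the weight `m` (only `h i j k l` are used), the credit `A + B ν + c |p|² - b y²`; with `P(e)`
where `e ≥ s²` -/
structure MT where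
  m : MW
  A : ℝ
  B : ℝ
  b : ℝ
  c : ℝ
  s : ℝ

/-- the conditions of a member with the reserve `θ` for the levels `ρ ≥ ρ₀` -/
structure MT.Ok (ρ₀ θ : ℝ) (t : MT) : Prop where
  wd : ∃ κ αp : ℝ, SWD (3 / (4 * t.m.k)) (3 / (16 * t.m.l)) θ (1 / t.b) (2 * t.m.j - 1)
      (2 * t.m.j + 1 - 16 * t.m.k / 3)
      (3 * (1 - t.m.i) + 3 / (4 * t.m.k) * (2 * t.m.j - 1) ^ 2 - t.c) κ αp ρ₀ ∧
    t.B ≤ (5 - 3 * t.m.i + 16 * t.m.j - 64 * t.m.k / 3 - κ) / 2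
  b0 : 0 < t.b
  hA : t.A ≤ 3 * (1 - t.m.h)

/-- the weights are admissible -/
def MW.Sw (m : MW) : Prop := SW m.h m.i m.j m.k m.l

/-- the credit of a member -/
def MT.P (t : MT) (y p q : ℝ) : ℝ := t.A + t.B * (2 * q ^ 2) + t.c * p ^ 2 - t.b * y ^ 2

/-- the member pays `2 w |p| |q|` from its reserve `c |p|²` -/
theorem MT.w_le {t : MT} {w : ℝ} (hc : 0 < t.c) (y p q : ℝ) :
    t.A + (t.B - w ^ 2 / (2 * t.c)) * (2 * q ^ 2) + w * (2 * p * q) - t.b * y ^ 2 ≤ t.P y p q := by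
  have h1 : 0 ≤ t.c * (p - w * q / t.c) ^ 2 := by positivity
  have h2 : t.c * (p - w * q / t.c) ^ 2 = t.c * p ^ 2 - w * (2 * p * q) + w ^ 2 / (2 * t.c) * (2 * q ^ 2) := by
    field_simp
    ring
  unfold MT.P
  linarith

/-- the pointwise inequality of one member -/
theorem MT.Ok.dir {ρ₀ θ : ℝ} {t : MT} (H : t.Ok ρ₀ θ) (hk : 0 < t.m.k) {v a b T u : E3} {h : ℝ} (A B : E3)
    (hv : ‖v‖ = 1) (ha : inner ℝ v a = (0 : ℝ)) (hb : inner ℝ v b = (0 : ℝ)) (hu : ‖u‖ = 1)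
    (hT : T - v = h • u) (hh : ρ₀ ≤ h) {z : ℝ} (y : ℝ)
    (hz : z ^ 2 = inner ℝ u (A - a) ^ 2 + inner ℝ u (B - b) ^ 2) :
    2 * y * z + θ * (‖A - a‖ ^ 2 + ‖B - b‖ ^ 2 - z ^ 2) + t.P y ‖qp v a b‖ ‖qm v a b‖ -
      4 * h * nuv v a b ≤ Qsw t.m.h t.m.i t.m.j t.m.k t.m.l v a b A B - 2 * dnu v a b T A B := by
  obtain ⟨κ, αp, D, hB⟩ := H.wd
  have k3 := swr_geC (h := t.m.h) hk D hh A B hv ha hb hu hT
  rw [← hz] at k3
  have h2 : nuv v a b = 2 * ‖qm v a b‖ ^ 2 := rfl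
  have k4 := mul_le_mul_of_nonneg_right hB (show 0 ≤ 2 * ‖qm v a b‖ ^ 2 by positivity)
  have b0 := H.b0
  have k5 : 2 * y * z ≤ 1 / t.b * z ^ 2 + t.b * y ^ 2 := by
    have e : 1 / t.b * z ^ 2 + t.b * y ^ 2 - 2 * y * z = (z - t.b * y) ^ 2 / t.b := by
      field_simp
      ring
    have : 0 ≤ (z - t.b * y) ^ 2 / t.b := by positivity
    linarith
  have k6 := H.hA
  rw [h2] at k3 ⊢
  unfold MT.P
  linarith

theorem QW_low' {L : List MW} (hL : ∀ m ∈ L, m.Sw) {v a b : E3} (hv : ‖v‖ = 1)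
    (ha : inner ℝ v a = (0 : ℝ)) (hb : inner ℝ v b = (0 : ℝ)) (A B : E3) :
    QLow v a b A B (QW L v a b A B) := by
  induction L with
  | nil =>
    have e : QW [] v a b A B = Qtau (tauE (enb a b)) v a b A B := QP_one v a b A B
    rw [e]
    exact QLow_tau hv ha hb A B (by linarith [tauE_ge (enb a b)])
  | cons m L ih =>
    have h1 := ih fun m' h' => hL m' (List.mem_cons_of_mem _ h')
    have h2 := QLow_sw hv ha hb A B (hL m List.mem_cons_self)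
    have e : QW (m :: L) v a b A B = max (Qsw m.h m.i m.j m.k m.l v a b A B) (QW L v a b A B) := rfl
    rw [e]
    rcases le_total (Qsw m.h m.i m.j m.k m.l v a b A B) (QW L v a b A B) with h | h
    · rw [max_eq_right h]
      exact h1
    · rw [max_eq_left h]
      exact h2

/-- the properties of `QW L` which do not depend on the reserve -/
theorem mcq_w' {L : List MW} (hL : ∀ m ∈ L, m.Sw) : MCQ (QW L) fun x => x where
  cont := QW_cont L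
  low := fun _ _ _ A B hv ha hb => QW_low' hL hv ha hb A B
  all := fun _ _ _ _ _ T hv ha hb hAB => QW_all L T hv ha hb hAB
  rad := fun v a b A B T u h hv ha hb hAB hu hT hh => by
    have k1 := QW_all L T hv ha hb hAB
    have hn : ‖T - v‖ = h := by
      rw [hT, norm_smul, hu, mul_one, Real.norm_eq_abs, abs_of_nonneg (by linarith)]
    rw [hn] at k1
    have k2 := G_le_E hu (A - a) (B - b)
    linarith
  psi := fun _ => le_rfl
  pcont := continuous_id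

/-- one member -/
theorem mcr_one {L : List MW} (hL : ∀ m ∈ L, m.Sw) {ρ₀ θ : ℝ} {t : MT} (hm : t.m ∈ L)
    (H : t.Ok ρ₀ θ) : MCR (QW L) ρ₀ θ t.P where
  rad := fun v a b A B T u h y z hv ha hb hAB hu hT hh hz => by
    have k1 := H.dir (hL _ hm).k0 A B hv ha hb hu hT hh y hz
    have k2 := QW_mem hm v a b A B
    linarith

/-- one member with `P(e)` -/
theorem mcr_onep {L : List MW} (hL : ∀ m ∈ L, m.Sw) {ρ₀ θ : ℝ} (hρ : 0 ≤ ρ₀) (t1 : θ ≤ 1) {t : MT}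
    (hm : t.m ∈ L) (H : t.Ok ρ₀ θ) (s0 : 1 / 2 ≤ t.s) (s1 : t.s ≤ 1) :
    MCR (QW L) ρ₀ θ fun y p q => PE (p ^ 2 + q ^ 2) +
      if t.s ^ 2 ≤ p ^ 2 + q ^ 2 then t.P y p q - (1 - t.s) ^ 2 else 2 * q ^ 2 - y ^ 2 where
  rad := fun v a b A B T u h y z hv ha hb hAB hu hT hh hz => by
    split_ifs with he
    · have k1 := H.dir (hL _ hm).k0 A B hv ha hb hu hT hh y hz
      have k2 := QW_mem hm v a b A B
      have k3 := PE_le_sq s0 s1 he
      linarith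
    · have k1 := ((mcq_w' hL).base hρ t1).rad v a b A B T u h y z hv ha hb hAB hu hT hh hz
      linarith

/-- the credit of a list of members -/
def PST (Λ : List MT) (y p q : ℝ) : ℝ := Λ.foldr (fun t x => max (t.P y p q) x) (2 * q ^ 2 - y ^ 2)

/-- the credit of a list of members with `P(e)` -/
def PSP (Λ : List MT) (y p q : ℝ) : ℝ := Λ.foldr
  (fun t x => max (if t.s ^ 2 ≤ p ^ 2 + q ^ 2 then t.P y p q - (1 - t.s) ^ 2 else 2 * q ^ 2 - y ^ 2) x)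
  (2 * q ^ 2 - y ^ 2)

theorem PST_mem {Λ : List MT} {t : MT} (h : t ∈ Λ) (y p q : ℝ) : t.P y p q ≤ PST Λ y p q := by
  induction Λ with
  | nil => simp at h
  | cons t' Λ ih =>
    have e : PST (t' :: Λ) y p q = max (t'.P y p q) (PST Λ y p q) := rfl
    rw [e]
    rcases List.mem_cons.1 h with h | h
    · rw [h]
      exact le_max_left _ _
    · exact (ih h).trans (le_max_right _ _)

theorem PST_base (Λ : List MT) (y p q : ℝ) : 2 * q ^ 2 - y ^ 2 ≤ PST Λ y p q := by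
  induction Λ with
  | nil => exact le_rfl
  | cons t' Λ ih => exact ih.trans (le_max_right _ _)

theorem PSP_base (Λ : List MT) (y p q : ℝ) : 2 * q ^ 2 - y ^ 2 ≤ PSP Λ y p q := by
  induction Λ with
  | nil => exact le_rfl
  | cons t' Λ ih => exact ih.trans (le_max_right _ _)

theorem PSP_mem {Λ : List MT} {t : MT} (h : t ∈ Λ) (y p q : ℝ) (he : t.s ^ 2 ≤ p ^ 2 + q ^ 2) :
    t.P y p q - (1 - t.s) ^ 2 ≤ PSP Λ y p q := by
  induction Λ with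
  | nil => simp at h
  | cons t' Λ ih =>
    have e : PSP (t' :: Λ) y p q = max (if t'.s ^ 2 ≤ p ^ 2 + q ^ 2 then t'.P y p q - (1 - t'.s) ^ 2
      else 2 * q ^ 2 - y ^ 2) (PSP Λ y p q) := rfl
    rw [e]
    rcases List.mem_cons.1 h with h | h
    · rw [h] at he ⊢
      rw [if_pos he]
      exact le_max_left _ _
    · exact (ih h).trans (le_max_right _ _)

/-- **one certificate for all reserves** -/
theorem mcr_t {L : List MW} (hL : ∀ m ∈ L, m.Sw) {ρ₀ θ : ℝ} (hρ : 0 ≤ ρ₀) (t1 : θ ≤ 1) {Λ : List MT}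
    (hm : ∀ t ∈ Λ, t.m ∈ L) (hR : ∀ t ∈ Λ, t.Ok ρ₀ θ) : MCR (QW L) ρ₀ θ (PST Λ) := by
  induction Λ with
  | nil =>
    refine ((mcq_w' hL).base hρ t1).mono le_rfl le_rfl fun y p q hp hq => ?_
    have h1 : PST [] y p q = 2 * q ^ 2 - y ^ 2 := rfl
    have h2 := PE_nonneg (show 0 ≤ p ^ 2 + q ^ 2 by positivity)
    linarith
  | cons t Λ ih =>
    have h1 := ih (fun t' h' => hm t' (List.mem_cons_of_mem _ h'))
      fun t' h' => hR t' (List.mem_cons_of_mem _ h')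
    exact (mcr_one hL (hm t List.mem_cons_self) (hR t List.mem_cons_self)).max h1

/-- **one certificate for all reserves, with `P(e)`** -/
theorem mcr_tp {L : List MW} (hL : ∀ m ∈ L, m.Sw) {ρ₀ θ : ℝ} (hρ : 0 ≤ ρ₀) (t1 : θ ≤ 1) {Λ : List MT}
    (hm : ∀ t ∈ Λ, t.m ∈ L) (hR : ∀ t ∈ Λ, t.Ok ρ₀ θ) (hs : ∀ t ∈ Λ, 1 / 2 ≤ t.s ∧ t.s ≤ 1) :
    MCR (QW L) ρ₀ θ fun y p q => PE (p ^ 2 + q ^ 2) + PSP Λ y p q := by
  induction Λ with
  | nil =>
    refine ((mcq_w' hL).base hρ t1).mono le_rfl le_rfl fun y p q hp hq => ?_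
    have h1 : PSP [] y p q = 2 * q ^ 2 - y ^ 2 := rfl
    linarith
  | cons t Λ ih =>
    have h1 := ih (fun t' h' => hm t' (List.mem_cons_of_mem _ h'))
      (fun t' h' => hR t' (List.mem_cons_of_mem _ h')) fun t' h' => hs t' (List.mem_cons_of_mem _ h')
    refine ((mcr_onep hL hρ t1 (hm t List.mem_cons_self) (hR t List.mem_cons_self)
      (hs t List.mem_cons_self).1 (hs t List.mem_cons_self).2).max h1).mono le_rfl le_rfl
      fun y p q hp hq => ?_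
    have e : PSP (t :: Λ) y p q = Max.max (if t.s ^ 2 ≤ p ^ 2 + q ^ 2 then t.P y p q - (1 - t.s) ^ 2
      else 2 * q ^ 2 - y ^ 2) (PSP Λ y p q) := rfl
    rw [e, ← max_add_add_left]

/-! ### the side conditions as a Boolean -/

theorem bernOk_sound {p₀ p₁ p₂ p₃ x y : ℚ} (h : bernOk p₀ p₁ p₂ p₃ x y = true) {c : ℝ}
    (h1 : (x : ℝ) ≤ c) (h2 : c ≤ y) : 0 ≤ (p₀ : ℝ) + p₁ * c + p₂ * c ^ 2 + p₃ * c ^ 3 := by
  unfold bernOk at h
  simp only [Bool.and_eq_true, decide_eq_true_eq] at h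
  obtain ⟨⟨⟨b0, b1⟩, b2⟩, b3⟩ := h
  have b0' : (0 : ℝ) ≤ p₀ + x * (p₁ + x * (p₂ + x * p₃)) := by exact_mod_cast b0
  have b1' : (0 : ℝ) ≤ p₀ + x * (p₁ + x * (p₂ + x * p₃)) +
      (y - x) * (p₁ + x * (2 * p₂ + 3 * x * p₃)) / 3 := by exact_mod_cast b1
  have b2' : (0 : ℝ) ≤ p₀ + y * (p₁ + y * (p₂ + y * p₃)) -
      (y - x) * (p₁ + y * (2 * p₂ + 3 * y * p₃)) / 3 := by exact_mod_cast b2
  have b3' : (0 : ℝ) ≤ p₀ + y * (p₁ + y * (p₂ + y * p₃)) := by exact_mod_cast b3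
  rcases (h1.trans h2).eq_or_lt with he | he
  · have hc : c = x := le_antisymm (h2.trans_eq he.symm) h1
    rw [hc]
    refine b0'.trans_eq ?_
    ring
  · have hd : (0 : ℝ) < y - x := sub_pos.2 he
    refine (mul_nonneg_iff_of_pos_left (show 0 < ((y : ℝ) - x) ^ 3 by positivity)).1 ?_
    have u0 : 0 ≤ (y : ℝ) - c := by linarith
    have v0 : 0 ≤ c - (x : ℝ) := by linarith
    have m0 := mul_nonneg b0' (show 0 ≤ ((y : ℝ) - c) ^ 3 by positivity)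
    have m1 := mul_nonneg b1' (show 0 ≤ 3 * (((y : ℝ) - c) ^ 2 * (c - x)) by positivity)
    have m2 := mul_nonneg b2' (show 0 ≤ 3 * (((y : ℝ) - c) * (c - x) ^ 2) by positivity)
    have m3 := mul_nonneg b3' (show 0 ≤ (c - (x : ℝ)) ^ 3 by positivity)
    refine (add_nonneg (add_nonneg (add_nonneg m0 m1) m2) m3).trans_eq ?_
    ring

theorem cubOk_sound {p₀ p₁ p₂ p₃ : ℚ} {n : ℕ} (hn : 0 < n) (h : cubOk p₀ p₁ p₂ p₃ n = true) {c : ℝ}
    (hc : c ^ 2 ≤ 1) : 0 ≤ (p₀ : ℝ) + p₁ * c + p₂ * c ^ 2 + p₃ * c ^ 3 := by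
  have h1 : -1 ≤ c := by nlinarith
  have h2 : c ≤ 1 := by nlinarith
  have hn' : (0 : ℝ) < n := by exact_mod_cast hn
  unfold cubOk at h
  rw [List.all_eq_true] at h
  rcases h2.eq_or_lt with he | he
  · have h3 := h (2 * n - 1) (List.mem_range.2 (by omega))
    refine bernOk_sound h3 ?_ ?_
    · have e : ((2 * n - 1 : ℕ) : ℝ) = 2 * n - 1 := by
        rw [Nat.cast_sub (by omega)]
        push_cast
        ring
      push_cast
      rw [e, he, sub_le_iff_le_add, div_le_iff₀ hn']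
      linarith
    · have e : 2 * n - 1 + 1 = 2 * n := by omega
      rw [e, he]
      push_cast
      rw [mul_div_assoc, div_self hn'.ne']
      norm_num
  · set i := ⌊(c + 1) * n⌋₊ with hi
    have h0 : 0 ≤ (c + 1) * n := mul_nonneg (by linarith) hn'.le
    have hlt : i < 2 * n := by
      rw [hi, Nat.floor_lt h0]
      push_cast
      nlinarith
    have h3 := h i (List.mem_range.2 hlt)
    have f1 := Nat.floor_le h0
    have f2 := Nat.lt_floor_add_one ((c + 1) * n)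
    rw [← hi] at f1 f2
    refine bernOk_sound h3 ?_ ?_
    · push_cast
      rw [sub_le_iff_le_add, div_le_iff₀ hn']
      exact f1
    · push_cast
      rw [le_sub_iff_add_le, le_div_iff₀ hn']
      exact f2.le

theorem dblOk_sound {p₀ p₁ p₂ p₃ d : ℚ} (h : dblOk p₀ p₁ p₂ p₃ d = true) {c : ℝ} (hc : c ^ 2 ≤ 1) :
    0 ≤ (p₀ : ℝ) + p₁ * c + p₂ * c ^ 2 + p₃ * c ^ 3 := by
  unfold dblOk at h
  simp only [Bool.and_eq_true, Bool.or_eq_true, decide_eq_true_eq] at h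
  obtain ⟨h0, h1⟩ := h
  have c1 : c ≤ 1 := by nlinarith
  have c0 : -1 ≤ c := by nlinarith
  set q₀ := p₀ + p₃ * d ^ 2 with e0
  set q₁ := p₁ - p₃ * (2 * d + d ^ 2) with e1
  set q₂ := p₂ + p₃ * (1 + 2 * d) with e2
  have h0' : (p₃ : ℝ) ≤ 0 := by exact_mod_cast h0
  have f0 : (q₀ : ℝ) = p₀ + p₃ * d ^ 2 := by rw [e0]; push_cast; ring
  have f1 : (q₁ : ℝ) = p₁ - p₃ * (2 * d + d ^ 2) := by rw [e1]; push_cast; ring
  have f2 : (q₂ : ℝ) = p₂ + p₃ * (1 + 2 * d) := by rw [e2]; push_cast; ring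
  have k1 : 0 ≤ -(p₃ : ℝ) * ((1 - c) * (c - d) ^ 2) :=
    mul_nonneg (by linarith) (mul_nonneg (by linarith) (sq_nonneg _))
  have k2 : 0 ≤ (q₀ : ℝ) + q₁ * c + q₂ * c ^ 2 := by
    rcases h1 with ⟨g1, g2⟩ | ⟨⟨g1, g2⟩, g3⟩
    · have g1' : (0 : ℝ) < q₂ := by exact_mod_cast g1
      have g2' : (q₁ : ℝ) ^ 2 ≤ 4 * q₀ * q₂ := by exact_mod_cast g2
      have : 0 ≤ 4 * (q₂ : ℝ) * ((q₀ : ℝ) + q₁ * c + q₂ * c ^ 2) := by
        have := sq_nonneg (2 * (q₂ : ℝ) * c + q₁)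
        nlinarith
      exact (mul_nonneg_iff_of_pos_left (show 0 < 4 * (q₂ : ℝ) by positivity)).1 this
    · have g1' : (0 : ℝ) ≤ q₀ - q₁ + q₂ := by exact_mod_cast g1
      have g2' : (0 : ℝ) ≤ q₀ - q₂ := by exact_mod_cast g2
      have g3' : (0 : ℝ) ≤ q₀ + q₁ + q₂ := by exact_mod_cast g3
      have m1 := mul_nonneg g1' (sq_nonneg (1 - c))
      have m2 := mul_nonneg g2' (mul_nonneg (show 0 ≤ 1 - c by linarith) (show 0 ≤ 1 + c by linarith))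
      have m3 := mul_nonneg g3' (sq_nonneg (1 + c))
      linarith
  have e : (p₀ : ℝ) + p₁ * c + p₂ * c ^ 2 + p₃ * c ^ 3 =
      -(p₃ : ℝ) * ((1 - c) * (c - d) ^ 2) + (q₀ + q₁ * c + q₂ * c ^ 2) := by
    rw [f0, f1, f2]
    ring
  rw [e]
  exact add_nonneg k1 k2

theorem swdOk_sound {e f r β zp zq Ka κ αp ρ d : ℚ}
    (h : swdOk e f r β zp zq Ka κ αp ρ d = true) :
    SWD (e : ℝ) f r β zp zq Ka κ αp ρ := by
  unfold swdOk at h
  simp only [Bool.and_eq_true, Bool.or_eq_true, decide_eq_true_eq] at h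
  obtain ⟨⟨⟨⟨⟨⟨⟨⟨⟨a1, a2⟩, a3⟩, a4⟩, a5⟩, a6⟩, a7⟩, a8⟩, a9⟩, a11⟩ := h
  refine ⟨by exact_mod_cast a1, by exact_mod_cast a2, by exact_mod_cast a3, by exact_mod_cast a4,
    by exact_mod_cast a5, by exact_mod_cast a6, by exact_mod_cast a7, by exact_mod_cast a8,
    by exact_mod_cast a9, fun c hc => ?_⟩
  have h := a11.elim (fun h => dblOk_sound h hc) fun h => cubOk_sound (Nat.succ_pos 7) h hc
  push_cast at h
  rw [← sub_nonneg]
  refine h.trans_eq ?_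
  ring

/-- the weight -/
def WA.mw (a : WA) : MW := ⟨a.h, a.i, a.j, a.k, a.l, 0, 1, 1⟩

/-- the member -/
def MQ.mt (av : List WA) (t : MQ) : MT := ⟨(av.getD t.ix ⟨0, 0, 0, 0, 0⟩).mw, t.A, t.B, t.b, t.c, t.s⟩

theorem mqOk_sound {ρ θ : ℚ} {a : WA} {t : MQ} (h : mqOk ρ θ a t = true) (s : ℝ) :
    MT.Ok (ρ : ℝ) (θ : ℝ) ⟨a.mw, t.A, t.B, t.b, t.c, s⟩ := by
  unfold mqOk at h
  simp only [Bool.and_eq_true, decide_eq_true_eq] at h
  obtain ⟨⟨⟨a1, a2⟩, a3⟩, a4⟩ := h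
  have D := swdOk_sound a4
  push_cast at D
  have b3 : (t.B : ℝ) ≤ (5 - 3 * a.i + 16 * a.j - 64 * a.k / 3 - t.κ) / 2 := by exact_mod_cast a3
  have b1 : (0 : ℝ) < t.b := by exact_mod_cast a1
  have b2 : (t.A : ℝ) ≤ 3 * (1 - a.h) := by exact_mod_cast a2
  exact ⟨⟨t.κ, t.α, D, b3⟩, b1, b2⟩

/-- the averages of a checked integer weight -/
theorem wa_sw {n S : ℕ} {w : List ℤ × List ℤ} (h : SWL.zOm n S w = true) : (wa S w).mw.Sw :=
  SWL.zOm_ok h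

/-- **the list of members with rational data** -/
theorem mcr_q {av : List WA} (hS : ∀ a ∈ av, a.mw.Sw) {ρ θ : ℚ} {Λ : List MQ}
    (h : mlOk ρ θ av Λ = true) : MCR (QW (av.map WA.mw)) ρ θ (PST (Λ.map (MQ.mt av))) := by
  unfold mlOk at h
  rw [Bool.and_eq_true, Bool.and_eq_true, decide_eq_true_eq, decide_eq_true_eq, List.all_eq_true] at h
  obtain ⟨h0, h1, h2⟩ := h
  have hS' : ∀ m ∈ av.map WA.mw, m.Sw := fun m hm => by
    obtain ⟨a, ha, e⟩ := List.mem_map.1 hm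
    rw [← e]
    exact hS a ha
  have hix : ∀ t ∈ Λ, t.ix < av.length := fun t ht => by
    have := h2 t ht
    rw [Bool.and_eq_true, decide_eq_true_eq] at this
    exact this.1
  refine mcr_t hS' (by exact_mod_cast h0) (by exact_mod_cast h1) (fun t' ht => ?_) fun t' ht => ?_
  · obtain ⟨t, ht, e⟩ := List.mem_map.1 ht
    rw [← e]
    have e2 : (MQ.mt av t).m = (av.getD t.ix ⟨0, 0, 0, 0, 0⟩).mw := rfl
    rw [e2, List.getD_eq_getElem _ _ (hix t ht)]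
    exact List.mem_map_of_mem (List.getElem_mem _)
  · obtain ⟨t, ht, e⟩ := List.mem_map.1 ht
    rw [← e]
    have := h2 t ht
    rw [Bool.and_eq_true] at this
    exact mqOk_sound this.2 _

end Pool.Agent.FPX
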