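import Mathlib
import Pool.Agent.FPX.AZW
import Pool.Agent.FPX.SWS

/-! The ring member as a part of the certificate: `max Q QZ` keeps `MCQ` and `MCR`, and carries the
ring credit `2 y gn - b0 y²` for `|y| ≤ y0`. -/

open MeasureTheory Set Filter Topology

noncomputable section

namespace Pool.Agent.FPX.AZV

open Pool.Agent.EWD Pool.Agent.FPM Pool.Agent.FPX

/-- the certificate with the ring member -/
def QR (Q : E3 → E3 → E3 → E3 → E3 → ℝ) (v a b X Y : E3) : ℝ := max (Q v a b X Y) (QZ v a b X Y)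

theorem QR_ge (Q : E3 → E3 → E3 → E3 → E3 → ℝ) (v a b X Y : E3) : Q v a b X Y ≤ QR Q v a b X Y :=
  le_max_left _ _

theorem QR_geZ (Q : E3 → E3 → E3 → E3 → E3 → ℝ) (v a b X Y : E3) : QZ v a b X Y ≤ QR Q v a b X Y :=
  le_max_right _ _

variable {Q : E3 → E3 → E3 → E3 → E3 → ℝ} {ψ : ℝ → ℝ} {Ψ : ℝ → ℝ → ℝ → ℝ} {ρ₀ θ y0 b0 : ℝ}

theorem mcq_sup (H : MCQ Q ψ) : MCQ (QR Q) ψ where
  cont := H.cont.max QZ_cont
  low := fun v a b A B hv ha hb => by
    unfold QR
    rcases le_total (Q v a b A B) (QZ v a b A B) with h | h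
    · rw [max_eq_right h]; exact QZ_low hv ha hb A B
    · rw [max_eq_left h]; exact H.low v a b A B hv ha hb
  all := fun v a b A B T hv ha hb hAB => by
    have h := H.all v a b A B T hv ha hb hAB
    have := QR_ge Q v a b A B
    linarith
  rad := fun v a b A B T u h hv ha hb hAB hu hT hh => by
    have h := H.rad v a b A B T u h hv ha hb hAB hu hT hh
    have := QR_ge Q v a b A B
    linarith
  psi := H.psi
  pcont := H.pcont

theorem mcr_sup (H : MCR Q ρ₀ θ Ψ) : MCR (QR Q) ρ₀ θ Ψ where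
  rad := fun v a b A B T u h y z hv ha hb hAB hu hT hh hz => by
    have h := H.rad v a b A B T u h y z hv ha hb hAB hu hT hh hz
    have := QR_ge Q v a b A B
    linarith

/-- **the ring member** in the format `MCR` -/
theorem mcr_ring (H : MCQ Q ψ) (hg : AZS.Good y0 b0) (hy1 : y0 ≤ 1) (hρ : 1 / 5 ≤ ρ₀) :
    MCR (QR Q) ρ₀ 0 fun y _ q => 2 * q ^ 2 - (if |y| ≤ y0 then b0 else 1) * y ^ 2 where
  rad := fun v a b A B T u h y z hv ha hb hAB hu hT hh hz => by
    have hn : nuv v a b = 2 * ‖qm v a b‖ ^ 2 := rfl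
    by_cases hy : |y| ≤ y0
    · have h1 := QZ_ring hg hy1 (X := A) (Y := B) (a := a) (b := b) hv hu hT (hρ.trans hh) hy hz
      have h2 := QR_geZ Q v a b A B
      simp only [if_pos hy]
      rw [← hn]
      nlinarith
    · have h1 := (mcr_sup (H.base (ρ₀ := ρ₀) (θ := 0) (by linarith) (by norm_num))).rad v a b A B T u
        h y z hv ha hb hAB hu hT hh hz
      have h2 : 0 ≤ PE (‖qp v a b‖ ^ 2 + ‖qm v a b‖ ^ 2) := PE_nonneg (by positivity)
      simp only [if_neg hy]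
      linarith

/-- the share `θ` of the perpendicular energy, by convexity with the base member -/
theorem mcr_share (H : MCQ Q ψ) (hg : AZS.Good y0 b0) (hy1 : y0 ≤ 1) (hρ : 1 / 5 ≤ ρ₀)
    (hb0 : 0 < b0) (h0 : 0 ≤ θ) (h1 : θ ≤ 1) :
    MCR (QR Q) ρ₀ θ fun y _ q => 2 * q ^ 2 -
      (if |y| ≤ (1 - θ + θ * b0) * y0 then b0 / (1 - θ + θ * b0) else 1) * y ^ 2 where
  rad := fun v a b A B T u h y z hv ha hb hAB hu hT hh hz => by
    have hn : nuv v a b = 2 * ‖qm v a b‖ ^ 2 := rfl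
    have hPE : 0 ≤ PE (‖qp v a b‖ ^ 2 + ‖qm v a b‖ ^ 2) := PE_nonneg (by positivity)
    have hbb := (mcr_sup (H.base (ρ₀ := ρ₀) (θ := 1) (by linarith) le_rfl)).rad v a b A B T u
      h
    have hE := G_le_E hu (A - a) (B - b)
    rw [← hz] at hE
    by_cases hy : |y| ≤ (1 - θ + θ * b0) * y0
    · simp only [if_pos hy]
      have hD : 0 < 1 - θ + θ * b0 := by
        rcases eq_or_lt_of_le h0 with h | h
        · rw [← h]; norm_num
        · have := mul_pos h hb0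
          linarith
      obtain ⟨w, hw⟩ : ∃ w, w = y / (1 - θ + θ * b0) := ⟨_, rfl⟩
      have hyw : y = (1 - θ + θ * b0) * w := by rw [hw]; field_simp
      have hwy : |w| ≤ y0 := by
        rw [hw, abs_div, abs_of_pos hD, div_le_iff₀ hD]
        linarith
      have k1 := QZ_ring hg hy1 (X := A) (Y := B) (a := a) (b := b) hv hu hT (hρ.trans hh) hwy hz
      have k1' := QR_geZ Q v a b A B
      have k2 := hbb (b0 * w) z hv ha hb hAB hu hT hh hz
      have e1 : b0 / (1 - θ + θ * b0) * y ^ 2 = b0 * (1 - θ + θ * b0) * w ^ 2 := by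
        rw [hyw]; field_simp
      rw [e1, hyw, ← hn]
      rw [← hn] at k2
      have m1 := mul_le_mul_of_nonneg_left (k1.trans (sub_le_sub_right k1' _)) (by linarith : 0 ≤ 1 - θ)
      have m2 := mul_le_mul_of_nonneg_left k2 h0
      have m3 := mul_nonneg h0 hPE
      nlinarith [m1, m2, m3]
    · simp only [if_neg hy]
      have k2 := hbb y z hv ha hb hAB hu hT hh hz
      have m3 : 0 ≤ (1 - θ) * (‖A - a‖ ^ 2 + ‖B - b‖ ^ 2 - z ^ 2) :=
        mul_nonneg (by linarith) (by linarith)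
      nlinarith [k2, m3]

section surf

variable {M : Type} [MetricSpace M] {γ : ℝ → M}

/-- **the ring member on the surface** -/
theorem ring_mod (H : MCQ Q ψ) (hg : AZS.Good y0 b0) (hy1 : y0 ≤ 1) (C : Calc M γ)
    {v T : Fin 3 → M → ℝ} (hv : Sph γ v) {K : ℝ} (hT : TZ C 2 1 K T) :
    ∀ᵐ o ∂C.μ, 1 / 5 ≤ umod (eta v T) (C.pt o) → ∀ y : ℝ, 0 ≤ y → y ≤ y0 →
      2 * y * gn C (umod (eta v T)) o - b0 * y ^ 2 +
          (1 - 4 * umod (eta v T) (C.pt o)) * nuC C v o ≤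
        QC C (QR Q) v T o - 2 * dnuC C v T o := by
  filter_upwards [(mcr_ring H hg hy1 le_rfl).mod (by norm_num) C hv hT] with o h1 h2 y h3 h4
  have h5 := h1 h2 y
  have h6 : |y| ≤ y0 := by rwa [abs_of_nonneg h3]
  simp only [if_pos h6] at h5
  have h7 : nuC C v o = 2 * qnC C v o ^ 2 := rfl
  rw [h7] at h5 ⊢
  linarith

/-- in the form of `ext_ring` (with the factor `W = 0`, `c₀ = 1`, `p = 2`) -/
theorem ring_hP (H : MCQ Q ψ) (C : Calc M γ) {v T : Fin 3 → M → ℝ} (hv : Sph γ v) {K : ℝ}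
    (hT : TZ C 2 1 K T) : ∀ y0 b0 : ℝ, AZS.Good y0 b0 ∧ y0 ≤ 1 →
      ∀ᵐ o ∂C.μ, 1 / 5 ≤ umod (eta v T) (C.pt o) → ∀ y, 0 ≤ y → y ≤ y0 →
        2 * y * gn C (umod (eta v T)) o - b0 * y ^ 2 + 0 +
            (1 - 2 * 2 * umod (eta v T) (C.pt o)) * nuC C v o ≤
          QC C (QR Q) v T o - 2 * dnuC C v T o := by
  intro y0 b0 h
  filter_upwards [ring_mod H h.1 h.2 C hv hT] with o h1 h2 y h3 h4
  have h5 := h1 h2 y h3 h4
  norm_num
  linarith

end surf

end Pool.Agent.FPX.AZV
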