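import Mathlib
import Pool.Agent.FPX.AZY

/-! The ring member with a level parameter: `GoodL ρ₁ y0 b0` gives the member `(y0, b0)` on the
levels `≥ ρ₁`, for the same certificate `QZ`. -/

open MeasureTheory Set Filter Topology

noncomputable section

namespace Pool.Agent.FPX.AZS

/-- the lower bound, normalised by `y = 1`, level `ρ₁` -/
def PIL (ρ1 y0 b0 X U c : ℝ) : ℝ :=
  (3/2 + 8*ρ1*(1-c))*X + U + b0 - 3/4*(1-c^2) - 2/3*c^2
      - 21/10*y0^2*E4 X U (1-c^2) - 32/9*y0^2*c^2*E2 X U (1-c^2)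

/-- a pair `(y0, b0)` is admissible for the levels `≥ ρ₁` -/
def GoodL (ρ1 y0 b0 : ℝ) : Prop := ∀ X U c : ℝ, 0 ≤ X → U^2 ≤ X*(1-c^2) → c^2 ≤ 1 →
  8*ρ1*(1-c)*X + b0 - (1-c^2) - 2/3*c^2 < 0 → 0 ≤ PIL ρ1 y0 b0 X U c

theorem goodL_of {y0 b0 : ℝ} (h : Good y0 b0) : GoodL (1/5) y0 b0 := by
  intro X U c hX hU hc h1
  have h2 := h X U c hX hU hc (by linarith)
  unfold PI at h2
  unfold PIL
  linarith

theorem GoodL.mono {ρ1 ρ2 y0 b0 : ℝ} (hg : GoodL ρ1 y0 b0) (h : ρ1 ≤ ρ2) : GoodL ρ2 y0 b0 := by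
  intro X U c hX hU hc h1
  have hc1 := c_le hc
  have hm : 0 ≤ (ρ2 - ρ1) * ((1-c)*X) := mul_nonneg (by linarith) (mul_nonneg hc1 hX)
  have h2 := hg X U c hX hU hc (by nlinarith)
  unfold PIL at h2 ⊢
  nlinarith

theorem GoodL.b_mono {ρ1 y0 b0 b1 : ℝ} (hg : GoodL ρ1 y0 b0) (h : b0 ≤ b1) : GoodL ρ1 y0 b1 := by
  intro X U c hX hU hc h1
  have h2 := hg X U c hX hU hc (by linarith)
  unfold PIL at h2 ⊢
  linarith

theorem GoodL.y_mono {ρ1 y0 y1 b0 : ℝ} (hg : GoodL ρ1 y0 b0) (h0 : 0 ≤ y1) (h : y1 ≤ y0) :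
    GoodL ρ1 y1 b0 := by
  intro X U c hX hU hc h1
  have h2 := hg X U c hX hU hc h1
  have e4 := E4_nonneg X U (1-c^2)
  have e2 := E2_nonneg hX (by linarith : 0 ≤ 1 - c^2) hU
  have hyy : y1^2 ≤ y0^2 := by nlinarith
  have m1 := mul_nonneg (sub_nonneg.2 hyy) e4
  have m2 := mul_nonneg (sub_nonneg.2 hyy) (mul_nonneg (sq_nonneg c) e2)
  unfold PIL at h2 ⊢
  nlinarith

/-- STEP 5 with a level -/
theorem step5L {ρ1 y0 b0 : ℝ} (hg : GoodL ρ1 y0 b0) {ρ y Q V C : ℝ} (h1 : 0 ≤ ρ1) (hρ : ρ1 ≤ ρ)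
    (hy0 : 0 ≤ y) (hy : y ≤ y0) (hC : C^2 ≤ 1) (hQ : 0 ≤ Q) (hV : V^2 ≤ Q*(1-C^2)) :
    0 ≤ 8*ρ*(1-C)*Q + y^2*(b0 - (1-C^2) - 2/3*C^2) ∨
    21/10*E4 Q (y*V) (y^2*(1-C^2)) + 32/9*y^2*C^2*E2 Q (y*V) (y^2*(1-C^2))
      ≤ (3/2 + 8*ρ*(1-C))*Q + y*V + y^2*(b0 - 3/4*(1-C^2) - 2/3*C^2) := by
  have hc1 := c_le hC
  have hT : 0 ≤ 1 - C^2 := by linarith
  have hmon : 8*ρ1*(1-C)*Q ≤ 8*ρ*(1-C)*Q := by
    have : 0 ≤ (ρ - ρ1) * ((1-C)*Q) := mul_nonneg (by linarith) (mul_nonneg hc1 hQ)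
    nlinarith
  rcases eq_or_lt_of_le hy0 with h0 | h0
  · left
    have : 0 ≤ 8*ρ1*(1-C)*Q := by positivity
    rw [← h0]; nlinarith
  · have hyne : y ≠ 0 := h0.ne'
    obtain ⟨X, hXd⟩ : ∃ X, X = Q / y^2 := ⟨_, rfl⟩
    obtain ⟨U, hUd⟩ : ∃ U, U = V / y := ⟨_, rfl⟩
    have hQX : Q = y^2 * X := by rw [hXd]; field_simp
    have hVU : V = y * U := by rw [hUd]; field_simp
    have hX : 0 ≤ X := by rw [hXd]; positivity
    have hy2 : 0 < y^2 := by positivity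
    have hU : U^2 ≤ X*(1-C^2) := by
      have h1 : y^2 * U^2 ≤ y^2 * (X*(1-C^2)) := by
        have := hV; rw [hQX, hVU] at this; nlinarith
      exact le_of_mul_le_mul_left h1 hy2
    rcases lt_or_ge (8*ρ1*(1-C)*X + b0 - (1-C^2) - 2/3*C^2) 0 with h | h
    · right
      have key := hg X U C hX hU hC h
      unfold PIL at key
      have e4 := E4_nonneg X U (1-C^2)
      have e2 := E2_nonneg hX hT hU
      have hyy : y^2 ≤ y0^2 := by nlinarith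
      have r4 : E4 Q (y*V) (y^2*(1-C^2)) = y^2*(y^2*E4 X U (1-C^2)) := by
        rw [hQX, hVU]; unfold E4; ring
      have r2 : E2 Q (y*V) (y^2*(1-C^2)) = y^2*E2 X U (1-C^2) := by
        rw [hQX, hVU]; unfold E2; ring
      have s4 : y^2*(y^2*E4 X U (1-C^2)) ≤ y^2*(y0^2*E4 X U (1-C^2)) :=
        mul_le_mul_of_nonneg_left (mul_le_mul_of_nonneg_right hyy e4) hy2.le
      have s2 : y^2*C^2*(y^2*E2 X U (1-C^2)) ≤ y^2*(y0^2*C^2*E2 X U (1-C^2)) := by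
        have : 0 ≤ (y0^2 - y^2)*(y^2*(C^2*E2 X U (1-C^2))) :=
          mul_nonneg (by linarith) (mul_nonneg hy2.le (mul_nonneg (sq_nonneg C) e2))
        nlinarith
      have k2 := mul_nonneg hy2.le key
      rw [r4, r2]
      have hq : y*V = y^2*U := by rw [hVU]; ring
      have h5 : 8*ρ1*(1-C)*Q = y^2*(8*ρ1*(1-C)*X) := by rw [hQX]; ring
      have h6 : 3/2*Q = y^2*(3/2*X) := by rw [hQX]; ring
      rw [hq]
      nlinarith [k2, s4, s2, hmon, h5, h6]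
    · left
      have h5 : 8*ρ1*(1-C)*Q = y^2*(8*ρ1*(1-C)*X) := by rw [hQX]; ring
      have := mul_nonneg hy2.le h
      nlinarith [hmon, h5, this]

end Pool.Agent.FPX.AZS

namespace Pool.Agent.FPX.AZV

open Pool.Agent.EWD Pool.Agent.FPM Pool.Agent.FPX

/-- **the ring member with a level**, fixed directions -/
theorem vm_ringL {ρ1 y0 b0 : ℝ} (hg : AZS.GoodL ρ1 y0 b0) (hρ1 : 0 ≤ ρ1) {v a b X Y T u : E3}
    {h y z c1 c2 : ℝ} (hv : ‖v‖ = 1) (hu : ‖u‖ = 1) (hT : T - v = h • u) (hh : ρ1 ≤ h)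
    (h0 : 0 ≤ y) (hy : y ≤ y0) (hc : c1 ^ 2 + c2 ^ 2 = 1)
    (hz : c1 * inner ℝ u (X - a) + c2 * inner ℝ u (Y - b) = z) :
    2 * y * z + (1 - 4 * h) * nuv v a b - b0 * y ^ 2 ≤
      VM v a b X Y (y • (c1 • u)) (y • (c2 • u)) - 2 * dnu v a b T X Y := by
  obtain ⟨F, hF⟩ : ∃ F, F = qm v (c1 • u) (c2 • u) := ⟨_, rfl⟩
  obtain ⟨C, hC⟩ : ∃ C, C = -(inner ℝ v u : ℝ) := ⟨_, rfl⟩
  obtain ⟨q, hq⟩ : ∃ q, q = qm v a b := ⟨_, rfl⟩
  have hdir := dir_norm hv hu hc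
  have hC2 : (inner ℝ v u : ℝ) ^ 2 = C ^ 2 := by rw [hC]; ring
  rw [hC2, ← hF] at hdir
  have hF2 : 4 * ‖F‖ ^ 2 = 1 - C ^ 2 := by rw [hdir.2]; ring
  have hCle : C ^ 2 ≤ 1 := by nlinarith [sq_nonneg ‖F‖]
  have hTv : (inner ℝ v T : ℝ) = 1 - h * C := by
    have : T = v + h • u := by rw [← hT]; abel
    rw [this, inner_add_right, inner_smul_right, inner_self_one hv, hC]
    ring
  have hV : (2 * inner ℝ q F : ℝ) ^ 2 ≤ ‖q‖ ^ 2 * (1 - C ^ 2) := by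
    rw [← hF2]
    have := abs_real_inner_le_norm q F
    have h2 : (inner ℝ q F : ℝ) ^ 2 ≤ (‖q‖ * ‖F‖) ^ 2 := by
      rw [← sq_abs]
      exact pow_le_pow_left₀ (abs_nonneg _) this 2
    nlinarith
  have hstep := AZS.step5L hg (ρ := h) (y := y) (Q := ‖q‖ ^ 2) (V := 2 * inner ℝ q F) (C := C)
    hρ1 hh h0 hy hCle (sq_nonneg _) hV
  have hpair : (inner ℝ (y • (c1 • u)) (X - a) : ℝ) + inner ℝ (y • (c2 • u)) (Y - b) = y * z := by
    rw [← hz]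
    simp only [real_inner_smul_left]
    ring
  have hvg : (inner ℝ v (y • (c1 • u)) : ℝ) ^ 2 + (inner ℝ v (y • (c2 • u)) : ℝ) ^ 2
      = y ^ 2 * C ^ 2 := by
    simp only [inner_smul_right]
    rw [← hC2]
    linear_combination (y ^ 2 * inner ℝ v u ^ 2) * hc
  have hqm : qm v (y • (c1 • u)) (y • (c2 • u)) = y • F := by rw [qm_smul, hF]
  have hqp : ‖qp v (y • (c1 • u)) (y • (c2 • u))‖ ^ 2 = y ^ 2 * (1 - C ^ 2) / 4 := by
    rw [qp_smul, norm_smul, mul_pow, hdir.1, Real.norm_eq_abs, sq_abs]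
    ring
  have hqF : ‖y • F‖ ^ 2 = y ^ 2 * (1 - C ^ 2) / 4 := by
    rw [norm_smul, mul_pow, Real.norm_eq_abs, sq_abs, ← hF2]
    ring
  have hd : 2 * dnu v a b T X Y = 8 * inner ℝ q (qm v X Y) - 8 * (1 - h * C) * ‖q‖ ^ 2 := by
    unfold dnu
    rw [hTv, ← hq]
    ring
  have hnu : nuv v a b = 2 * ‖q‖ ^ 2 := by rw [hq]; rfl
  rw [hd, hnu]
  rcases hstep with hs | hs
  · have h1 : VZ 3 0 0 v a b X Y (y • (c1 • u)) (y • (c2 • u)) ≤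
      VM v a b X Y (y • (c1 • u)) (y • (c2 • u)) := le_max_left _ _
    have h2 : VZ 3 0 0 v a b X Y (y • (c1 • u)) (y • (c2 • u)) =
        8 * inner ℝ q (qm v X Y) + 2 * (y * z) - 6 * ‖q‖ ^ 2 - y ^ 2 * (1 - C ^ 2)
          - 2/3 * (y ^ 2 * C ^ 2) := by
      unfold VZ
      rw [hpair, hvg, hqm, hqp, hqF, ← hq]
      ring
    rw [h2] at h1
    nlinarith [h1, hs]
  · have h1 : VZ (3/2) (21/10) 2 v a b X Y (y • (c1 • u)) (y • (c2 • u)) ≤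
      VM v a b X Y (y • (c1 • u)) (y • (c2 • u)) := le_max_right _ _
    have h2 : VZ (3/2) (21/10) 2 v a b X Y (y • (c1 • u)) (y • (c2 • u)) =
        8 * inner ℝ q (qm v X Y) + 2 * (y * z) - 9/2 * ‖q‖ ^ 2 + y * (2 * inner ℝ q F)
          - 3/4 * (y ^ 2 * (1 - C ^ 2)) - 2/3 * (y ^ 2 * C ^ 2)
          - 21/10 * AZS.E4 (‖q‖ ^ 2) (y * (2 * inner ℝ q F)) (y ^ 2 * (1 - C ^ 2))
          - 32/9 * y ^ 2 * C ^ 2 * AZS.E2 (‖q‖ ^ 2) (y * (2 * inner ℝ q F))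
            (y ^ 2 * (1 - C ^ 2)) := by
      unfold VZ
      rw [hpair, hvg, hqm, hqp, hqF, ← hq, mom4_eq, momc_eq, hF2, inner_smul_right]
      ring
    rw [h2] at h1
    nlinarith [h1, hs]

/-- the two unit coefficients of `z` -/
theorem exists_cc {p q z : ℝ} (hz : z ^ 2 = p ^ 2 + q ^ 2) :
    ∃ c1 c2 : ℝ, c1 ^ 2 + c2 ^ 2 = 1 ∧ c1 * p + c2 * q = z := by
  rcases eq_or_ne z 0 with h0 | h0
  · refine ⟨1, 0, by norm_num, ?_⟩
    rw [h0] at hz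
    have : p = 0 := by
      have h1 : p ^ 2 = 0 := by nlinarith [sq_nonneg p, sq_nonneg q]
      exact pow_eq_zero_iff (two_ne_zero) |>.1 h1
    rw [this, h0]
    ring
  · refine ⟨p / z, q / z, ?_, ?_⟩
    · field_simp
      linarith
    · field_simp
      linarith

/-- **the ring member with a level** -/
theorem QZ_ringL {ρ1 y0 b0 : ℝ} (hg : AZS.GoodL ρ1 y0 b0) (hρ1 : 0 ≤ ρ1) (hy1 : y0 ≤ 2)
    {v a b X Y T u : E3} {h y z : ℝ} (hv : ‖v‖ = 1) (hu : ‖u‖ = 1) (hT : T - v = h • u)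
    (hh : ρ1 ≤ h) (hy : |y| ≤ y0)
    (hz : z ^ 2 = inner ℝ u (X - a) ^ 2 + inner ℝ u (Y - b) ^ 2) :
    2 * y * z + (1 - 4 * h) * nuv v a b - b0 * y ^ 2 ≤ QZ v a b X Y - 2 * dnu v a b T X Y := by
  have key : ∀ y z : ℝ, 0 ≤ y → y ≤ y0 → z ^ 2 = inner ℝ u (X - a) ^ 2 + inner ℝ u (Y - b) ^ 2 →
      2 * y * z + (1 - 4 * h) * nuv v a b - b0 * y ^ 2 ≤
        QZ v a b X Y - 2 * dnu v a b T X Y := by
    intro y z h0 hy hz
    obtain ⟨c1, c2, hc, hcz⟩ := exists_cc hz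
    have h1 := vm_ringL hg hρ1 (X := X) (Y := Y) (a := a) (b := b) hv hu hT hh h0 hy hc hcz
    have hc1 : |c1| ≤ 1 := by
      rw [← sq_le_one_iff_abs_le_one]; nlinarith [sq_nonneg c2]
    have hc2 : |c2| ≤ 1 := by
      rw [← sq_le_one_iff_abs_le_one]; nlinarith [sq_nonneg c1]
    have hn : ∀ c : ℝ, |c| ≤ 1 → ‖y • (c • u)‖ ≤ 2 := by
      intro c hc
      rw [norm_smul, norm_smul, hu, mul_one, Real.norm_eq_abs, Real.norm_eq_abs, abs_of_nonneg h0]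
      nlinarith [abs_nonneg c]
    have h2 := QZ_ge v a b X Y (hn c1 hc1) (hn c2 hc2)
    linarith
  rcases le_total 0 y with h0 | h0
  · exact key y z h0 (by rwa [abs_of_nonneg h0] at hy) hz
  · have h1 := key (-y) (-z) (by linarith) (by rwa [abs_of_nonpos h0] at hy) (by rw [neg_sq, hz])
    nlinarith [h1]

variable {Q : E3 → E3 → E3 → E3 → E3 → ℝ} {ψ : ℝ → ℝ} {Ψ : ℝ → ℝ → ℝ → ℝ} {ρ₀ θ y0 b0 : ℝ}

/-- **the ring member with a level** in the format `MCR` -/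
theorem mcr_ringL (H : MCQ Q ψ) (h0 : 0 ≤ ρ₀) (hg : AZS.GoodL ρ₀ y0 b0) (hy1 : y0 ≤ 2) :
    MCR (QR Q) ρ₀ 0 fun y _ q => 2 * q ^ 2 - (if |y| ≤ y0 then b0 else 1) * y ^ 2 where
  rad := fun v a b A B T u h y z hv ha hb hAB hu hT hh hz => by
    have hn : nuv v a b = 2 * ‖qm v a b‖ ^ 2 := rfl
    by_cases hy : |y| ≤ y0
    · have h1 := QZ_ringL hg h0 hy1 (X := A) (Y := B) (a := a) (b := b) hv hu hT hh hy hz
      have h2 := QR_geZ Q v a b A B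
      simp only [if_pos hy]
      rw [← hn]
      nlinarith
    · have h1 := (mcr_sup (H.base (ρ₀ := ρ₀) (θ := 0) h0 (by norm_num))).rad v a b A B T u
        h y z hv ha hb hAB hu hT hh hz
      have h2 : 0 ≤ PE (‖qp v a b‖ ^ 2 + ‖qm v a b‖ ^ 2) := PE_nonneg (by positivity)
      simp only [if_neg hy]
      linarith

/-- the share `θ` of the perpendicular energy, by convexity with the base member -/
theorem mcr_shareL (H : MCQ Q ψ) (hρ0 : 0 ≤ ρ₀) (hg : AZS.GoodL ρ₀ y0 b0) (hy1 : y0 ≤ 2)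
    (hb0 : 0 < b0) (h0 : 0 ≤ θ) (h1 : θ ≤ 1) :
    MCR (QR Q) ρ₀ θ fun y _ q => 2 * q ^ 2 -
      (if |y| ≤ (1 - θ + θ * b0) * y0 then b0 / (1 - θ + θ * b0) else 1) * y ^ 2 where
  rad := fun v a b A B T u h y z hv ha hb hAB hu hT hh hz => by
    have hn : nuv v a b = 2 * ‖qm v a b‖ ^ 2 := rfl
    have hPE : 0 ≤ PE (‖qp v a b‖ ^ 2 + ‖qm v a b‖ ^ 2) := PE_nonneg (by positivity)
    have hbb := (mcr_sup (H.base (ρ₀ := ρ₀) (θ := 1) hρ0 le_rfl)).rad v a b A B T u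
      h
    have hE := G_le_E hu (A - a) (B - b)
    rw [← hz] at hE
    by_cases hy : |y| ≤ (1 - θ + θ * b0) * y0
    · simp only [if_pos hy]
      have hD : 0 < 1 - θ + θ * b0 := by
        rcases eq_or_lt_of_le h0 with h | h
        · rw [← h]; norm_num
        · have := mul_pos h hb0
          linarith
      obtain ⟨w, hw⟩ : ∃ w, w = y / (1 - θ + θ * b0) := ⟨_, rfl⟩
      have hyw : y = (1 - θ + θ * b0) * w := by rw [hw]; field_simp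
      have hwy : |w| ≤ y0 := by
        rw [hw, abs_div, abs_of_pos hD, div_le_iff₀ hD]
        linarith
      have k1 := QZ_ringL hg hρ0 hy1 (X := A) (Y := B) (a := a) (b := b) hv hu hT hh hwy hz
      have k1' := QR_geZ Q v a b A B
      have k2 := hbb (b0 * w) z hv ha hb hAB hu hT hh hz
      have e1 : b0 / (1 - θ + θ * b0) * y ^ 2 = b0 * (1 - θ + θ * b0) * w ^ 2 := by
        rw [hyw]; field_simp
      rw [e1, hyw, ← hn]
      rw [← hn] at k2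
      have m1 := mul_le_mul_of_nonneg_left (k1.trans (sub_le_sub_right k1' _)) (by linarith : 0 ≤ 1 - θ)
      have m2 := mul_le_mul_of_nonneg_left k2 h0
      have m3 := mul_nonneg h0 hPE
      nlinarith [m1, m2, m3]
    · simp only [if_neg hy]
      have k2 := hbb y z hv ha hb hAB hu hT hh hz
      have m3 : 0 ≤ (1 - θ) * (‖A - a‖ ^ 2 + ‖B - b‖ ^ 2 - z ^ 2) :=
        mul_nonneg (by linarith) (by linarith)
      nlinarith [k2, m3]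

section surf

variable {M : Type} [MetricSpace M] {γ : ℝ → M}

/-- **the ring member with a level on the surface** -/
theorem ringL_mod (H : MCQ Q ψ) (h0 : 0 < ρ₀) (hg : AZS.GoodL ρ₀ y0 b0) (hy1 : y0 ≤ 2) (C : Calc M γ)
    {v T : Fin 3 → M → ℝ} (hv : Sph γ v) {K : ℝ} (hT : TZ C 2 1 K T) :
    ∀ᵐ o ∂C.μ, ρ₀ ≤ umod (eta v T) (C.pt o) → ∀ y : ℝ, 0 ≤ y → y ≤ y0 →
      2 * y * gn C (umod (eta v T)) o - b0 * y ^ 2 +
          (1 - 4 * umod (eta v T) (C.pt o)) * nuC C v o ≤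
        QC C (QR Q) v T o - 2 * dnuC C v T o := by
  filter_upwards [(mcr_ringL H h0.le hg hy1).mod h0 C hv hT] with o h1 h2 y h3 h4
  have h5 := h1 h2 y
  have h6 : |y| ≤ y0 := by rwa [abs_of_nonneg h3]
  simp only [if_pos h6] at h5
  have h7 : nuC C v o = 2 * qnC C v o ^ 2 := rfl
  rw [h7] at h5 ⊢
  linarith

/-- in the form of `ext_ring` (with the factor `W = 0`, `c₀ = 1`, `p = 2`), all members at once -/
theorem ringL_hP (H : MCQ Q ψ) {cm : ℝ} (h0 : 0 < cm) (C : Calc M γ) {v T : Fin 3 → M → ℝ}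
    (hv : Sph γ v) {K : ℝ} (hT : TZ C 2 1 K T) : ∀ y0 b0 : ℝ, AZS.GoodL cm y0 b0 ∧ y0 ≤ 2 →
      ∀ᵐ o ∂C.μ, cm ≤ umod (eta v T) (C.pt o) → ∀ y, 0 ≤ y → y ≤ y0 →
        2 * y * gn C (umod (eta v T)) o - b0 * y ^ 2 + 0 +
            (1 - 2 * 2 * umod (eta v T) (C.pt o)) * nuC C v o ≤
          QC C (QR Q) v T o - 2 * dnuC C v T o := by
  intro y0 b0 h
  filter_upwards [ringL_mod H h0 h.1 h.2 C hv hT] with o h1 h2 y h3 h4
  have h5 := h1 h2 y h3 h4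
  norm_num
  linarith

end surf

end Pool.Agent.FPX.AZV
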