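import Mathlib
import Pool.Agent.FPX.AZX

/-! Direct ring members with reserve `θ`: the inequality in three real variables (`GoodT`) gives the
member `(y0, b0)` with the share `θ` of the perpendicular part, on the levels `≥ ρ₁`. -/

open MeasureTheory Set Filter Topology

noncomputable section

namespace Pool.Agent.FPX.AZS

/-- the form of the ring certificate (normalised) -/
def GR (θ ρ1 y0 b0 x f m w C : ℝ) : ℝ :=
  (3/2 + 8*ρ1*(1-C))*x^2 + x*f + f^2/4 - 21/10*y0^2*E4 (x^2) (x*f) (f^2)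
    + (1/3 - 32/9*y0^2*E2 (x^2) (x*f) (f^2))*w^2 + (1-θ)/θ*(f^2/2+m^2/2+w^2-1) - (1-b0)

/-- the form of the base certificate (normalised) -/
def GB (θ ρ1 b0 x f m w C : ℝ) : ℝ :=
  8*ρ1*(1-C)*x^2 + (1-θ)/θ^2*(f^2/2+m^2/2+w^2-1) + (w-(1-θ)*C)^2/(3*θ^2) - (1-b0)

/-- the pair `(y0, b0)` is admissible for the reserve `θ` on the levels `≥ ρ₁` -/
def GoodT (θ ρ1 y0 b0 : ℝ) : Prop := ∀ x f m w C S : ℝ, 0 ≤ f → 0 ≤ m → 0 ≤ w → 0 ≤ C → 0 ≤ S →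
  S^2 + C^2 = 1 → 1 ≤ S*(f+m)/2 + C*w → GB θ ρ1 b0 x f m w C < 0 → 0 ≤ GR θ ρ1 y0 b0 x f m w C

/-- the form as a function of `U` -/
def FU (θ ρ1 y0 b0 X U f m w C : ℝ) : ℝ :=
  (3/2 + 8*ρ1*(1-C))*X + U + f^2/4 - 21/10*y0^2*E4 X U (f^2)
    + (1/3 - 32/9*y0^2*E2 X U (f^2))*w^2 + (1-θ)/θ*(f^2/2+m^2/2+w^2-1) - (1-b0)

theorem FU_conc {θ ρ1 y0 b0 X U f m w C a : ℝ} (ha : 0 ≤ a) (hU : |U| ≤ a)
    (h1 : 0 ≤ FU θ ρ1 y0 b0 X a f m w C) (h2 : 0 ≤ FU θ ρ1 y0 b0 X (-a) f m w C) :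
    0 ≤ FU θ ρ1 y0 b0 X U f m w C := by
  obtain ⟨u1, u2⟩ := abs_le.1 hU
  rcases ha.eq_or_lt with h | h
  · have : U = a := by rw [← h] at u1 u2 ⊢; linarith
    rw [this]
    exact h1
  · have e : 2*a*FU θ ρ1 y0 b0 X U f m w C = (a+U)*FU θ ρ1 y0 b0 X a f m w C
        + (a-U)*FU θ ρ1 y0 b0 X (-a) f m w C + 2*a*(21/10*y0^2*(94/81))*((a-U)*(a+U)) := by
      unfold FU E4 E2
      ring
    have p1 := mul_nonneg (by linarith : 0 ≤ a+U) h1
    have p2 := mul_nonneg (by linarith : 0 ≤ a-U) h2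
    have p3 : 0 ≤ 2*a*(21/10*y0^2*(94/81))*((a-U)*(a+U)) :=
      mul_nonneg (by positivity) (mul_nonneg (by linarith) (by linarith))
    have p4 : 0 ≤ 2*a*FU θ ρ1 y0 b0 X U f m w C := by rw [e]; linarith
    exact nonneg_of_mul_nonneg_right p4 (by linarith)

/-- the scaled statement; `k = ‖q‖`, `f = 2 ‖qm‖`, `m = 2 ‖qp‖`, `w² = W` -/
theorem step5T {θ ρ1 y0 b0 : ℝ} (hg : GoodT θ ρ1 y0 b0) {ρ y k U f m w C S : ℝ} (h1 : 0 ≤ ρ1)
    (hρ : ρ1 ≤ ρ) (hy0 : 0 < y) (hy : y ≤ y0) (hk : 0 ≤ k) (hf : 0 ≤ f) (hm : 0 ≤ m) (hw : 0 ≤ w)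
    (hS : 0 ≤ S) (hSC : S^2 + C^2 = 1) (hU : |U| ≤ k*f) (hy1 : y ≤ S*(f+m)/2 + |C| *w) :
    0 ≤ 8*ρ*(1-C)*k^2 + (1-θ)/θ^2*(f^2/2+m^2/2+w^2-y^2) + (w-(1-θ)*(y*|C|))^2/(3*θ^2)
        - (1-b0)*y^2 ∨
    0 ≤ (3/2 + 8*ρ*(1-C))*k^2 + U + f^2/4 - 21/10*E4 (k^2) U (f^2)
        + (1/3 - 32/9*E2 (k^2) U (f^2))*w^2 + (1-θ)/θ*(f^2/2+m^2/2+w^2-y^2) - (1-b0)*y^2 := by
  have hyn : y ≠ 0 := hy0.ne'
  have hy2 : 0 < y^2 := by positivity
  obtain ⟨k', hk'⟩ : ∃ k', k' = k / y := ⟨_, rfl⟩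
  obtain ⟨f', hf'⟩ : ∃ k', k' = f / y := ⟨_, rfl⟩
  obtain ⟨m', hm'⟩ : ∃ k', k' = m / y := ⟨_, rfl⟩
  obtain ⟨w', hw'⟩ : ∃ k', k' = w / y := ⟨_, rfl⟩
  obtain ⟨U', hU'⟩ : ∃ k', k' = U / y^2 := ⟨_, rfl⟩
  have ek : k = y*k' := by rw [hk']; field_simp
  have ef : f = y*f' := by rw [hf']; field_simp
  have em : m = y*m' := by rw [hm']; field_simp
  have ew : w = y*w' := by rw [hw']; field_simp
  have eU : U = y^2*U' := by rw [hU']; field_simp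
  have k0 : 0 ≤ k' := by rw [hk']; positivity
  have f0 : 0 ≤ f' := by rw [hf']; positivity
  have m0 : 0 ≤ m' := by rw [hm']; positivity
  have w0 : 0 ≤ w' := by rw [hw']; positivity
  have hCC : C^2 ≤ 1 := by nlinarith [sq_nonneg S]
  have hc1 : |C| ≤ 1 := (sq_le_one_iff_abs_le_one C).1 hCC
  have hU2 : |U'| ≤ k'*f' := by
    have : |U| = y^2*|U'| := by rw [eU, abs_mul, abs_of_pos hy2]
    rw [this, ek, ef] at hU
    have e : y*k'*(y*f') = y^2*(k'*f') := by ring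
    rw [e] at hU
    exact le_of_mul_le_mul_left hU hy2
  have hc : 1 ≤ S*(f'+m')/2 + |C| *w' := by
    rw [ef, em, ew] at hy1
    have e : S*(y*f'+y*m')/2 + |C| *(y*w') = y*(S*(f'+m')/2 + |C| *w') := by ring
    rw [e] at hy1
    exact le_of_mul_le_mul_left (by linarith) hy0
  have hSC' : S^2 + |C| ^ 2 = 1 := by rw [sq_abs]; exact hSC
  have hmon : 8*ρ1*(1-|C|)*k'^2 ≤ 8*ρ*(1-C)*k'^2 := by
    have a1 : 0 ≤ (ρ-ρ1)*((1-|C|)*k'^2) :=
      mul_nonneg (by linarith) (mul_nonneg (by linarith) (sq_nonneg _))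
    have a2 : 0 ≤ ρ*((|C|-C)*k'^2) :=
      mul_nonneg (by linarith) (mul_nonneg (by linarith [le_abs_self C]) (sq_nonneg _))
    nlinarith
  rcases lt_or_ge (GB θ ρ1 b0 k' f' m' w' |C|) 0 with h | h
  · right
    have g1 := hg k' f' m' w' |C| S f0 m0 w0 (abs_nonneg _) hS hSC' hc h
    have h' : GB θ ρ1 b0 (-k') f' m' w' |C| < 0 := by
      unfold GB at h ⊢
      rw [neg_sq]
      exact h
    have g2 := hg (-k') f' m' w' |C| S f0 m0 w0 (abs_nonneg _) hS hSC' hc h'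
    have r1 : FU θ ρ1 y0 b0 (k'^2) (k'*f') f' m' w' |C| = GR θ ρ1 y0 b0 k' f' m' w' |C| := rfl
    have r2 : FU θ ρ1 y0 b0 (k'^2) (-(k'*f')) f' m' w' |C| = GR θ ρ1 y0 b0 (-k') f' m' w' |C| := by
      unfold FU GR
      rw [neg_sq, neg_mul]
    have key := FU_conc (by positivity) hU2 (r1 ▸ g1) (r2 ▸ g2)
    have e4 := E4_nonneg (k'^2) U' (f'^2)
    have hU3 : U'^2 ≤ k'^2*f'^2 := by
      have h3 := pow_le_pow_left₀ (abs_nonneg _) hU2 2
      rw [sq_abs] at h3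
      linarith [h3, mul_pow k' f' 2]
    have e2 := E2_nonneg (sq_nonneg k') (sq_nonneg f') hU3
    have hyy : y^2 ≤ y0^2 := by nlinarith
    have q4 : E4 (k^2) U (f^2) = y^2*(y^2*E4 (k'^2) U' (f'^2)) := by
      rw [ek, eU, ef]; unfold E4; ring
    have q2 : E2 (k^2) U (f^2) = y^2*E2 (k'^2) U' (f'^2) := by
      rw [ek, eU, ef]; unfold E2; ring
    have s4 : y^2*(y^2*E4 (k'^2) U' (f'^2)) ≤ y^2*(y0^2*E4 (k'^2) U' (f'^2)) :=
      mul_le_mul_of_nonneg_left (mul_le_mul_of_nonneg_right hyy e4) hy2.le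
    have s2 : y^2*(E2 (k'^2) U' (f'^2)*(y^2*w'^2)) ≤ y0^2*(E2 (k'^2) U' (f'^2)*(y^2*w'^2)) :=
      mul_le_mul_of_nonneg_right hyy (mul_nonneg e2 (by positivity))
    have kk := mul_nonneg hy2.le key
    have mm := mul_le_mul_of_nonneg_left hmon hy2.le
    unfold FU at kk
    rw [q4, q2, ek, eU, ef, em, ew]
    have t1 : (1-θ)/θ*((y*f')^2/2+(y*m')^2/2+(y*w')^2-y^2)
        = y^2*((1-θ)/θ*(f'^2/2+m'^2/2+w'^2-1)) := by ring
    rw [t1]
    nlinarith [kk, s4, s2, mm]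
  · left
    have kk := mul_nonneg hy2.le h
    have mm := mul_le_mul_of_nonneg_left hmon hy2.le
    unfold GB at kk
    rw [ek, ef, em, ew]
    have t1 : (1-θ)/θ^2*((y*f')^2/2+(y*m')^2/2+(y*w')^2-y^2)
        = y^2*((1-θ)/θ^2*(f'^2/2+m'^2/2+w'^2-1)) := by ring
    have t2 : (y*w'-(1-θ)*(y*|C|))^2/(3*θ^2) = y^2*((w'-(1-θ)*|C|)^2/(3*θ^2)) := by ring
    rw [t1, t2]
    nlinarith [kk, mm]

end Pool.Agent.FPX.AZS

namespace Pool.Agent.FPX.AZV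

open Pool.Agent.EWD Pool.Agent.FPM Pool.Agent.FPX

theorem frm_full {m n v : E3} (h : Frm m n v) (x y : E3) :
    (inner ℝ x y : ℝ) = inner ℝ m x * inner ℝ m y + inner ℝ n x * inner ℝ n y
      + inner ℝ v x * inner ℝ v y := by
  obtain ⟨R, hR⟩ := h.iso
  have h1 : (inner ℝ x y : ℝ) = inner ℝ (R x) (R y) := by rw [R.inner_map_map]
  rw [h1, inner3, (hR x).1, (hR x).2.1, (hR x).2.2, (hR y).1, (hR y).2.1, (hR y).2.2]

/-- the pairing of two arbitrary pairs of vectors -/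
theorem pair_gen {v : E3} (hv : ‖v‖ = 1) (X Y g g' : E3) :
    (inner ℝ X g : ℝ) + inner ℝ Y g' =
      2 * (inner ℝ (qp v X Y) (qp v g g') + inner ℝ (qm v X Y) (qm v g g'))
        + (inner ℝ v X * inner ℝ v g + inner ℝ v Y * inner ℝ v g') := by
  obtain ⟨m, hF⟩ := exists_frm hv
  have h1 := frm_full hF X g
  have h2 := frm_full hF Y g'
  have h3 := frm_inner hF (perp_p hv X Y).1 (y := qp v g g')
  have h4 := frm_inner hF (perp_p hv X Y).2 (y := qm v g g')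
  rw [(cmp hF g g').2.2.1, (cmp hF g g').2.2.2, (cmp hF X Y).2.2.1, (cmp hF X Y).2.2.2] at h4
  rw [(cmp hF g g').1, (cmp hF g g').2.1, (cmp hF X Y).1, (cmp hF X Y).2.1] at h3
  rw [h1, h2, h3, h4]
  ring

/-- the total norm -/
theorem norm_gen {v : E3} (hv : ‖v‖ = 1) (g g' : E3) :
    ‖g‖ ^ 2 + ‖g'‖ ^ 2 = 2 * ‖qp v g g'‖ ^ 2 + 2 * ‖qm v g g'‖ ^ 2
      + (inner ℝ v g ^ 2 + inner ℝ v g' ^ 2) := by
  have h := pair_gen hv g g' g g'
  simp only [real_inner_self_eq_norm_sq] at h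
  rw [h]
  ring

theorem mom4_eqF (q G : E3) :
    mom4 q ((8/3 : ℝ) • q + (4/3 : ℝ) • G) =
      AZS.E4 (‖q‖ ^ 2) (2 * inner ℝ q G) ((2 * ‖G‖) ^ 2) := by
  have h := mom4_eq q G 1
  rw [one_smul] at h
  rw [h]
  congr 1 <;> ring

theorem momc_eqF (q G : E3) :
    momc q ((8/3 : ℝ) • q + (4/3 : ℝ) • G) =
      AZS.E2 (‖q‖ ^ 2) (2 * inner ℝ q G) ((2 * ‖G‖) ^ 2) := by
  have h := momc_eq q G 1
  rw [one_smul] at h
  rw [h]
  congr 1 <;> ring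

theorem cs2 {a b c d : ℝ} (h : a ^ 2 + b ^ 2 = 1) : |a * c + b * d| ≤ √(c ^ 2 + d ^ 2) := by
  refine Real.abs_le_sqrt ?_
  nlinarith [sq_nonneg (a * d - b * c)]

/-- **the direct ring member**, fixed directions, small perpendicular part -/
theorem vm_ringT {θ ρ1 y0 b0 : ℝ} (hg : AZS.GoodT θ ρ1 y0 b0) (hρ1 : 0 ≤ ρ1) (ht0 : 0 < θ)
    (ht1 : θ ≤ 1) {v a b X Y T u : E3} {h y z c1 c2 : ℝ} (hv : ‖v‖ = 1) (hu : ‖u‖ = 1) (hT : T - v = h • u)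
    (hh : ρ1 ≤ h) (h0 : 0 < y) (hy : y ≤ y0) (hc : c1 ^ 2 + c2 ^ 2 = 1)
    (hz : c1 * inner ℝ u (X - a) + c2 * inner ℝ u (Y - b) = z)
    (hzz : z ^ 2 = inner ℝ u (X - a) ^ 2 + inner ℝ u (Y - b) ^ 2) {e1 e2 : E3}
    (he1 : e1 = (X - a) - (inner ℝ u (X - a) : ℝ) • u)
    (he2 : e2 = (Y - b) - (inner ℝ u (Y - b) : ℝ) • u) :
    2 * y * z + θ * (‖X - a‖ ^ 2 + ‖Y - b‖ ^ 2 - z ^ 2) + (1 - 4 * h) * nuv v a b - b0 * y ^ 2 ≤
      max (VM v a b X Y (y • (c1 • u) + θ • e1) (y • (c2 • u) + θ • e2))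
        (VM v a b X Y (y • (c1 • u) + e1) (y • (c2 • u) + e2)) - 2 * dnu v a b T X Y := by
  obtain ⟨q, hq⟩ : ∃ q, q = qm v a b := ⟨_, rfl⟩
  obtain ⟨C, hC⟩ : ∃ C, C = -(inner ℝ v u : ℝ) := ⟨_, rfl⟩
  obtain ⟨D, hD⟩ : ∃ D, D = X - a := ⟨_, rfl⟩
  obtain ⟨D', hD'⟩ : ∃ D, D = Y - b := ⟨_, rfl⟩
  obtain ⟨P, hP⟩ : ∃ P, P = ‖X - a‖ ^ 2 + ‖Y - b‖ ^ 2 - z ^ 2 := ⟨_, rfl⟩
  have huu : (inner ℝ u u : ℝ) = 1 := inner_self_one hu
  -- the perpendicular parts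
  have p1 : (inner ℝ u e1 : ℝ) = 0 := by
    rw [he1, inner_sub_right, inner_smul_right, huu, mul_one, sub_self]
  have p2 : (inner ℝ u e2 : ℝ) = 0 := by
    rw [he2, inner_sub_right, inner_smul_right, huu, mul_one, sub_self]
  have n1 : (inner ℝ e1 (X - a) : ℝ) = ‖e1‖ ^ 2 := by
    have : X - a = e1 + (inner ℝ u (X - a) : ℝ) • u := by rw [he1]; abel
    conv_lhs => rw [this]
    rw [inner_add_right, inner_smul_right, real_inner_comm u e1, p1, mul_zero, add_zero,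
      real_inner_self_eq_norm_sq]
  have n2 : (inner ℝ e2 (Y - b) : ℝ) = ‖e2‖ ^ 2 := by
    have : Y - b = e2 + (inner ℝ u (Y - b) : ℝ) • u := by rw [he2]; abel
    conv_lhs => rw [this]
    rw [inner_add_right, inner_smul_right, real_inner_comm u e2, p2, mul_zero, add_zero,
      real_inner_self_eq_norm_sq]
  have m1 : ‖e1‖ ^ 2 = ‖X - a‖ ^ 2 - inner ℝ u (X - a) ^ 2 := by
    rw [← n1, he1, inner_sub_left, real_inner_smul_left, real_inner_self_eq_norm_sq]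
    ring
  have m2 : ‖e2‖ ^ 2 = ‖Y - b‖ ^ 2 - inner ℝ u (Y - b) ^ 2 := by
    rw [← n2, he2, inner_sub_left, real_inner_smul_left, real_inner_self_eq_norm_sq]
    ring
  have hPe : P = ‖e1‖ ^ 2 + ‖e2‖ ^ 2 := by rw [hP, m1, m2, hzz]; ring
  -- the pair for the parameter `τ`
  have hpair : ∀ τ : ℝ, (inner ℝ (y • (c1 • u) + τ • e1) (X - a) : ℝ)
      + inner ℝ (y • (c2 • u) + τ • e2) (Y - b) = y * z + τ * P := by
    intro τ
    rw [inner_add_left, inner_add_left, real_inner_smul_left, real_inner_smul_left,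
      real_inner_smul_left, real_inner_smul_left, real_inner_smul_left, real_inner_smul_left, n1, n2,
      ← hz, hPe]
    ring
  have hnorm : ∀ τ : ℝ, ‖y • (c1 • u) + τ • e1‖ ^ 2 + ‖y • (c2 • u) + τ • e2‖ ^ 2
      = y ^ 2 + τ ^ 2 * P := by
    intro τ
    rw [norm_add_sq_real, norm_add_sq_real, hPe]
    simp only [norm_smul, real_inner_smul_left, inner_smul_right, p1, p2, hu, Real.norm_eq_abs,
      mul_pow, sq_abs]
    linear_combination y ^ 2 * hc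
  have hur : ∀ τ : ℝ, (inner ℝ (c1 • u) (y • (c1 • u) + τ • e1) : ℝ)
      + inner ℝ (c2 • u) (y • (c2 • u) + τ • e2) = y := by
    intro τ
    simp only [real_inner_smul_left, inner_add_right, inner_smul_right, p1, p2, huu]
    linear_combination y * hc
  obtain ⟨g, hgd⟩ : ∃ g, g = y • (c1 • u) + θ • e1 := ⟨_, rfl⟩
  obtain ⟨g', hgd'⟩ : ∃ g, g = y • (c2 • u) + θ • e2 := ⟨_, rfl⟩
  have hpg := hpair θ
  have hng := hnorm θ
  have hug := hur θ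
  have hpb := hpair 1
  have hnb := hnorm 1
  rw [one_smul, one_smul] at hpb hnb
  rw [← hgd, ← hgd'] at hpg hng hug
  obtain ⟨f, hf⟩ : ∃ f, f = 2 * ‖qm v g g'‖ := ⟨_, rfl⟩
  obtain ⟨m, hm⟩ : ∃ f, f = 2 * ‖qp v g g'‖ := ⟨_, rfl⟩
  obtain ⟨W, hW⟩ : ∃ W, W = (inner ℝ v g : ℝ) ^ 2 + (inner ℝ v g' : ℝ) ^ 2 := ⟨_, rfl⟩
  obtain ⟨w, hw⟩ : ∃ w, w = √W := ⟨_, rfl⟩
  have W0 : 0 ≤ W := by rw [hW]; positivity
  have hw2 : w ^ 2 = W := by rw [hw, Real.sq_sqrt W0]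
  have hdir := dir_norm hv hu hc
  have hC2 : (inner ℝ v u : ℝ) ^ 2 = C ^ 2 := by rw [hC]; ring
  rw [hC2] at hdir
  obtain ⟨S, hS⟩ : ∃ S, S = 2 * ‖qm v (c1 • u) (c2 • u)‖ := ⟨_, rfl⟩
  have hS0 : 0 ≤ S := by rw [hS]; positivity
  have hSC : S ^ 2 + C ^ 2 = 1 := by rw [hS, mul_pow, hdir.2]; ring
  have hSp : 2 * ‖qp v (c1 • u) (c2 • u)‖ = S := by
    have : (2 * ‖qp v (c1 • u) (c2 • u)‖) ^ 2 = S ^ 2 := by
      rw [hS, mul_pow, mul_pow, hdir.1, hdir.2]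
    exact (pow_left_inj₀ (by positivity) hS0 two_ne_zero).1 this
  have hNN : f ^ 2 / 2 + m ^ 2 / 2 + w ^ 2 - y ^ 2 = θ ^ 2 * P := by
    have h1 := norm_gen hv g g'
    rw [hng, ← hW] at h1
    rw [hf, hm, hw2]
    linarith
  -- the constraint
  have hcon : y ≤ S * (f + m) / 2 + |C| * w := by
    have h1 := pair_gen hv (c1 • u) (c2 • u) g g'
    rw [hug] at h1
    have h2 := real_inner_le_norm (qp v (c1 • u) (c2 • u)) (qp v g g')
    have h3 := real_inner_le_norm (qm v (c1 • u) (c2 • u)) (qm v g g')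
    have h4 : (inner ℝ v (c1 • u) * inner ℝ v g + inner ℝ v (c2 • u) * inner ℝ v g' : ℝ) ≤
        |C| * w := by
      have e : (inner ℝ v (c1 • u) * inner ℝ v g + inner ℝ v (c2 • u) * inner ℝ v g' : ℝ)
          = -C * (c1 * inner ℝ v g + c2 * inner ℝ v g') := by
        rw [inner_smul_right, inner_smul_right, hC]
        ring
      rw [e]
      refine (le_abs_self _).trans ?_
      rw [abs_mul, abs_neg, hw, hW]
      exact mul_le_mul_of_nonneg_left (cs2 hc) (abs_nonneg _)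
    rw [h1, hf, hm]
    have h5 : ‖qp v (c1 • u) (c2 • u)‖ = S / 2 := by linarith
    have h6 : ‖qm v (c1 • u) (c2 • u)‖ = S / 2 := by linarith
    rw [h5] at h2
    rw [h6] at h3
    linarith [h2, h3, h4]
  have hUb : |2 * (inner ℝ q (qm v g g') : ℝ)| ≤ ‖q‖ * f := by
    rw [abs_mul, hf, abs_of_pos (by norm_num : (0 : ℝ) < 2)]
    have := abs_real_inner_le_norm q (qm v g g')
    nlinarith
  have hstep := AZS.step5T hg (ρ := h) (y := y) (k := ‖q‖) (U := 2 * inner ℝ q (qm v g g')) (f := f)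
    (m := m) (w := w) (C := C) (S := S) hρ1 hh h0 hy (norm_nonneg _) (by rw [hf]; positivity)
    (by rw [hm]; positivity) (by rw [hw]; positivity) hS0 hSC hUb hcon
  rw [hNN] at hstep
  have hTv : (inner ℝ v T : ℝ) = 1 - h * C := by
    have : T = v + h • u := by rw [← hT]; abel
    rw [this, inner_add_right, inner_smul_right, inner_self_one hv, hC]
    ring
  have hd : 2 * dnu v a b T X Y = 8 * inner ℝ q (qm v X Y) - 8 * (1 - h * C) * ‖q‖ ^ 2 := by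
    unfold dnu
    rw [hTv, ← hq]
    ring
  have hnu : nuv v a b = 2 * ‖q‖ ^ 2 := by rw [hq]; rfl
  have hqpn : 2 * ‖qp v g g'‖ ^ 2 = m ^ 2 / 2 := by rw [hm]; ring
  have hqmn : ‖qm v g g'‖ ^ 2 = f ^ 2 / 4 := by rw [hf]; ring
  rw [hd, hnu, ← hP, ← hgd, ← hgd']
  rcases hstep with hs | hs
  · -- base certificate at `τ = 1`
    have hle := (le_max_left (VZ 3 0 0 v a b X Y (y • (c1 • u) + e1) (y • (c2 • u) + e2))
      (VZ (3/2) (21/10) 2 v a b X Y (y • (c1 • u) + e1) (y • (c2 • u) + e2))).trans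
      (le_max_right (VM v a b X Y g g') (VM v a b X Y (y • (c1 • u) + e1) (y • (c2 • u) + e2)))
    obtain ⟨G, hG⟩ : ∃ g, g = y • (c1 • u) + e1 := ⟨_, rfl⟩
    obtain ⟨G', hG'⟩ : ∃ g, g = y • (c2 • u) + e2 := ⟨_, rfl⟩
    rw [← hG, ← hG'] at hpb hnb hle ⊢
    have hN2 := norm_gen hv G G'
    rw [hnb] at hN2
    -- the radial part of the base value
    have hrad : (w - (1 - θ) * (y * |C|)) ^ 2 / (3 * θ ^ 2) ≤
        1/3 * (inner ℝ v G ^ 2 + inner ℝ v G' ^ 2) := by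
      have g1 : (inner ℝ v g : ℝ) = θ * inner ℝ v G - (1 - θ) * y * c1 * C := by
        rw [hgd, hG, hC]
        simp only [inner_add_right, inner_smul_right]
        ring
      have g2 : (inner ℝ v g' : ℝ) = θ * inner ℝ v G' - (1 - θ) * y * c2 * C := by
        rw [hgd', hG', hC]
        simp only [inner_add_right, inner_smul_right]
        ring
      have g3 : θ ^ 2 * (inner ℝ v G ^ 2 + inner ℝ v G' ^ 2) =
          w ^ 2 + 2 * ((1 - θ) * y * C) * (c1 * inner ℝ v g + c2 * inner ℝ v g')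
            + ((1 - θ) * y * C) ^ 2 := by
        rw [hw2, hW, g1, g2]
        linear_combination (((1 - θ) * y * C) ^ 2) * hc
      have g4 : -(|(1 - θ) * y * C| * w) ≤ ((1 - θ) * y * C) * (c1 * inner ℝ v g + c2 * inner ℝ v g') := by
        refine (abs_le.1 (?_ : |((1 - θ) * y * C) * (c1 * inner ℝ v g + c2 * inner ℝ v g')| ≤ _)).1
        rw [abs_mul, hw, hW]
        exact mul_le_mul_of_nonneg_left (cs2 hc) (abs_nonneg _)
      have eK : |(1 - θ) * y * C| = (1 - θ) * (y * |C|) := by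
        rw [abs_mul, abs_mul, abs_of_pos h0, abs_of_nonneg (by linarith : 0 ≤ 1 - θ)]
        ring
      rw [eK] at g4
      have g5 : (w - (1 - θ) * (y * |C|)) ^ 2 ≤ θ ^ 2 * (inner ℝ v G ^ 2 + inner ℝ v G' ^ 2) := by
        rw [g3]
        have e1 : ((1 - θ) * (y * |C|)) ^ 2 = ((1 - θ) * y * C) ^ 2 := by
          rw [mul_pow, mul_pow, sq_abs]; ring
        have e2 : (w - (1 - θ) * (y * |C|)) ^ 2 = w ^ 2 - 2 * ((1 - θ) * (y * |C|) * w)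
          + ((1 - θ) * (y * |C|)) ^ 2 := by ring
        rw [e2, e1]
        linarith [g4]
      rw [div_le_iff₀ (by positivity)]
      linarith [g5]
    have h2 : VZ 3 0 0 v a b X Y G G' =
        8 * inner ℝ q (qm v X Y) + 2 * (y * z + 1 * P) - 6 * ‖q‖ ^ 2
          - (2 * ‖qp v G G'‖ ^ 2 + 2 * ‖qm v G G'‖ ^ 2)
          - 2/3 * (inner ℝ v G ^ 2 + inner ℝ v G' ^ 2) := by
      unfold VZ
      rw [hpb, ← hq]
      ring
    rw [h2] at hle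
    have e3 : (1 - θ) / θ ^ 2 * (θ ^ 2 * P) = (1 - θ) * P := by field_simp
    rw [e3] at hs
    linarith [hle, hs, hrad, hN2]
  · have hle := (le_max_right (VZ 3 0 0 v a b X Y g g')
      (VZ (3/2) (21/10) 2 v a b X Y g g')).trans
      (le_max_left (VM v a b X Y g g') (VM v a b X Y (y • (c1 • u) + e1) (y • (c2 • u) + e2)))
    have h2 : VZ (3/2) (21/10) 2 v a b X Y g g' =
        8 * inner ℝ q (qm v X Y) + 2 * (y * z + θ * P) - 9/2 * ‖q‖ ^ 2 + 2 * inner ℝ q (qm v g g')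
          - m ^ 2 / 2 - f ^ 2 / 4 - 2/3 * w ^ 2
          - 21/10 * AZS.E4 (‖q‖ ^ 2) (2 * inner ℝ q (qm v g g')) (f ^ 2)
          - 32/9 * w ^ 2 * AZS.E2 (‖q‖ ^ 2) (2 * inner ℝ q (qm v g g')) (f ^ 2) := by
      unfold VZ
      rw [hpg, ← hq, mom4_eqF, momc_eqF, ← hf, ← hW, ← hw2, hqpn, hqmn]
      ring
    rw [h2] at hle
    have e3 : (1 - θ) / θ * (θ ^ 2 * P) = (1 - θ) * (θ * P) := by field_simp
    rw [e3] at hs
    linarith [hle, hs, hNN]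

variable {Q : E3 → E3 → E3 → E3 → E3 → ℝ} {ψ : ℝ → ℝ} {ρ₀ θ y0 b0 : ℝ}

/-- **the direct ring member** -/
theorem QR_ringT (H : MCQ Q ψ) (hg : AZS.GoodT θ ρ₀ y0 b0) (hρ1 : 0 ≤ ρ₀) (ht0 : 0 < θ) (ht1 : θ < 1)
    (hb0 : θ ≤ b0) (hb1 : b0 ≤ 1) (hy1 : y0 ≤ 1) {v a b X Y T u : E3} {h y z : ℝ} (hv : ‖v‖ = 1)
    (ha : inner ℝ v a = (0 : ℝ)) (hb : inner ℝ v b = (0 : ℝ)) (hXY : InW 2 1 X Y) (hu : ‖u‖ = 1)
    (hT : T - v = h • u) (hh : ρ₀ ≤ h) (hy : |y| ≤ y0)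
    (hz : z ^ 2 = inner ℝ u (X - a) ^ 2 + inner ℝ u (Y - b) ^ 2) :
    2 * y * z + θ * (‖X - a‖ ^ 2 + ‖Y - b‖ ^ 2 - z ^ 2) + (1 - 4 * h) * nuv v a b - b0 * y ^ 2 ≤
      QR Q v a b X Y - 2 * dnu v a b T X Y := by
  have hE := G_le_E hu (X - a) (Y - b)
  obtain ⟨P, hP⟩ : ∃ P, P = ‖X - a‖ ^ 2 + ‖Y - b‖ ^ 2 - z ^ 2 := ⟨_, rfl⟩
  have P0 : 0 ≤ P := by rw [hP, hz]; linarith
  have hn : ‖T - v‖ = h := by
    rw [hT, norm_smul, hu, mul_one, Real.norm_eq_abs, abs_of_nonneg (by linarith)]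
  have hbase := H.all v a b X Y T hv ha hb hXY
  rw [hn] at hbase
  have hPE : 0 ≤ PE (enb a b) := PE_nonneg (enb_nonneg _ _)
  rw [← hP]
  have key : ∀ y z : ℝ, 0 ≤ y → y ≤ y0 → z ^ 2 = inner ℝ u (X - a) ^ 2 + inner ℝ u (Y - b) ^ 2 →
      P = ‖X - a‖ ^ 2 + ‖Y - b‖ ^ 2 - z ^ 2 →
      2 * y * z + θ * P + (1 - 4 * h) * nuv v a b - b0 * y ^ 2 ≤
        QR Q v a b X Y - 2 * dnu v a b T X Y := by
    intro y z h0 hy hz hP
    rcases le_or_gt ((1 - b0) * y ^ 2) ((1 - θ) * P) with hc | hc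
    · have h1 := QR_ge Q v a b X Y
      have h2 := sq_nonneg (y - z)
      nlinarith [hbase, h1, h2, hc, hPE]
    · have hyp : 0 < y := by
        rcases h0.eq_or_lt with h | h
        · exfalso
          rw [← h] at hc
          have := mul_nonneg (by linarith : 0 ≤ 1 - θ) P0
          linarith
        · exact h
      have hP1 : P ≤ 1 := by
        have h1 : (1 - θ) * P < (1 - θ) * 1 := by
          have h2 : (1 - b0) * y ^ 2 ≤ (1 - θ) * 1 := by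
            have h3 : y ^ 2 ≤ 1 := by nlinarith
            have h4 := mul_le_mul (by linarith : 1 - b0 ≤ 1 - θ) h3 (sq_nonneg y) (by linarith)
            exact h4
          exact hc.trans_le h2
        exact (lt_of_mul_lt_mul_left h1 (by linarith)).le
      obtain ⟨c1, c2, hc, hcz⟩ := exists_cc hz
      obtain ⟨e1, he1⟩ : ∃ e, e = (X - a) - (inner ℝ u (X - a) : ℝ) • u := ⟨_, rfl⟩
      obtain ⟨e2, he2⟩ : ∃ e, e = (Y - b) - (inner ℝ u (Y - b) : ℝ) • u := ⟨_, rfl⟩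
      have huu : (inner ℝ u u : ℝ) = 1 := inner_self_one hu
      have nn : ∀ D : E3, ‖D - (inner ℝ u D : ℝ) • u‖ ^ 2 = ‖D‖ ^ 2 - inner ℝ u D ^ 2 := by
        intro D
        rw [norm_sub_sq_real, inner_smul_right, norm_smul, hu, mul_one, Real.norm_eq_abs, sq_abs,
          real_inner_comm u D]
        ring
      have m1 := nn (X - a)
      have m2 := nn (Y - b)
      rw [← he1] at m1
      rw [← he2] at m2
      have s1 : ‖e1‖ ≤ 1 := by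
        have : ‖e1‖ ^ 2 ≤ 1 := by nlinarith [sq_nonneg ‖e2‖]
        exact (sq_le_one_iff_abs_le_one _).1 this |>.trans' (le_abs_self _)
      have s2 : ‖e2‖ ≤ 1 := by
        have : ‖e2‖ ^ 2 ≤ 1 := by nlinarith [sq_nonneg ‖e1‖]
        exact (sq_le_one_iff_abs_le_one _).1 this |>.trans' (le_abs_self _)
      have hc1 : |c1| ≤ 1 := by
        rw [← sq_le_one_iff_abs_le_one]; nlinarith [sq_nonneg c2]
      have hc2 : |c2| ≤ 1 := by
        rw [← sq_le_one_iff_abs_le_one]; nlinarith [sq_nonneg c1]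
      have hn : ∀ (c τ : ℝ) (e : E3), |c| ≤ 1 → 0 ≤ τ → τ ≤ 1 → ‖e‖ ≤ 1 →
          ‖y • (c • u) + τ • e‖ ≤ 2 := by
        intro c τ e hc t0 t1 he
        refine (norm_add_le _ _).trans ?_
        rw [norm_smul, norm_smul, norm_smul, hu, mul_one, Real.norm_eq_abs, Real.norm_eq_abs,
          Real.norm_eq_abs, abs_of_nonneg h0, abs_of_nonneg t0]
        have a1 : y * |c| ≤ 1 * 1 := mul_le_mul (by linarith) hc (abs_nonneg _) zero_le_one
        have a2 : τ * ‖e‖ ≤ 1 * 1 := mul_le_mul t1 he (norm_nonneg _) zero_le_one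
        linarith
      have h1 := vm_ringT hg hρ1 ht0 ht1.le hv hu hT hh hyp hy hc hcz hz he1 he2
      have h2 := QZ_ge v a b X Y (hn c1 θ e1 hc1 ht0.le ht1.le s1) (hn c2 θ e2 hc2 ht0.le ht1.le s2)
      have h3 := QZ_ge v a b X Y (hn c1 1 e1 hc1 zero_le_one le_rfl s1)
        (hn c2 1 e2 hc2 zero_le_one le_rfl s2)
      rw [one_smul, one_smul] at h3
      have h4 := max_le h2 h3
      have h5 := QR_geZ Q v a b X Y
      rw [← hP] at h1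
      linarith
  rcases le_total 0 y with h0 | h0
  · exact key y z h0 (by rwa [abs_of_nonneg h0] at hy) hz hP
  · have h1 := key (-y) (-z) (by linarith) (by rwa [abs_of_nonpos h0] at hy) (by rw [neg_sq, hz])
      (by rw [neg_sq, hP])
    nlinarith [h1]

/-- **the direct ring member** in the format `MCR` -/
theorem mcr_ringT (H : MCQ Q ψ) (hρ1 : 0 ≤ ρ₀) (ht0 : 0 < θ) (ht1 : θ < 1) (hb0 : θ ≤ b0)
    (hb1 : b0 ≤ 1) (hy1 : y0 ≤ 1) (hg : AZS.GoodT θ ρ₀ y0 b0) :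
    MCR (QR Q) ρ₀ θ fun y _ q => 2 * q ^ 2 - (if |y| ≤ y0 then b0 else 1) * y ^ 2 where
  rad := fun v a b A B T u h y z hv ha hb hAB hu hT hh hz => by
    have hn : nuv v a b = 2 * ‖qm v a b‖ ^ 2 := rfl
    by_cases hy : |y| ≤ y0
    · have h1 := QR_ringT H hg hρ1 ht0 ht1 hb0 hb1 hy1 hv ha hb hAB hu hT hh hy hz
      simp only [if_pos hy]
      rw [← hn]
      linarith
    · have h1 := (mcr_sup (H.base (ρ₀ := ρ₀) (θ := θ) hρ1 ht1.le)).rad v a b A B T u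
        h y z hv ha hb hAB hu hT hh hz
      have h2 : 0 ≤ PE (‖qp v a b‖ ^ 2 + ‖qm v a b‖ ^ 2) := PE_nonneg (by positivity)
      simp only [if_neg hy]
      linarith

end Pool.Agent.FPX.AZV
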