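import Mathlib
import Pool.Agent.FPX.AZX

/-! The ring members in the form needed by the core glue (CRY): `MCR Q cr 0` with
`Q = max (QW L) QZ`. -/

open MeasureTheory Set Filter Topology

noncomputable section

namespace Pool.Agent.FPX.AZV

open Pool.Agent.EWD Pool.Agent.FPM Pool.Agent.FPX

variable {Q : E3 → E3 → E3 → E3 → E3 → ℝ} {ψ : ℝ → ℝ} {ρ₀ y0 b0 : ℝ}

/-- a ring member, one-sided in `y` -/
theorem mcr_ring1 (H : MCQ Q ψ) (h0 : 0 ≤ ρ₀) (hg : AZS.GoodL ρ₀ y0 b0) (hy1 : y0 ≤ 2) :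
    MCR (QR Q) ρ₀ 0 fun y _ q => 2 * q ^ 2 - (if 0 ≤ y ∧ y ≤ y0 then b0 * y ^ 2 else y ^ 2) where
  rad := fun v a b A B T u h y z hv ha hb hAB hu hT hh hz => by
    have hn : nuv v a b = 2 * ‖qm v a b‖ ^ 2 := rfl
    by_cases hy : 0 ≤ y ∧ y ≤ y0
    · have h1 := QZ_ringL hg h0 hy1 (X := A) (Y := B) (a := a) (b := b) hv hu hT hh
        (by rw [abs_of_nonneg hy.1]; exact hy.2) hz
      have h2 := QR_geZ Q v a b A B
      simp only [if_pos hy]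
      rw [← hn]
      linarith
    · have h1 := (mcr_sup (H.base (ρ₀ := ρ₀) (θ := 0) h0 (by norm_num))).rad v a b A B T u
        h y z hv ha hb hAB hu hT hh hz
      have h2 : 0 ≤ PE (‖qp v a b‖ ^ 2 + ‖qm v a b‖ ^ 2) := PE_nonneg (by positivity)
      simp only [if_neg hy]
      linarith

/-- the certificate of a list of weights together with the ring member -/
theorem mcq_lz {L : List MW} (hL : ∀ m ∈ L, m.Sw) : MCQ (QR (QW L)) fun x => x := mcq_sup (mcq_w' hL)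

/-- all ring members at once -/
theorem mcr_rings {L : List MW} (hL : ∀ m ∈ L, m.Sw) (h0 : 0 ≤ ρ₀) : ∀ y0 b0 : ℝ,
    AZS.GoodL ρ₀ y0 b0 ∧ y0 ≤ 2 → MCR (QR (QW L)) ρ₀ 0 fun y _ q =>
      2 * q ^ 2 - (if 0 ≤ y ∧ y ≤ y0 then b0 * y ^ 2 else y ^ 2) :=
  fun _ _ h => mcr_ring1 (mcq_w' hL) h0 h.1 h.2

end Pool.Agent.FPX.AZV
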