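import Mathlib

/-
AZP (helper95): the scalar inequality of the ring member (helper93's step 5).
`Q = |q|²`, `U = ⟨q, f⟩`, `|f|² = 1 - c²`; `r`, `w` the moments of `D = -q + s² (8/3 q + 2/3 y f)`.
-/

noncomputable section

namespace Pool.Agent.FPX

/-- `E |D|⁴` -/
def azF (Q r w : ℝ) : ℝ :=
  Q ^ 2 + 3 / 2 * r ^ 2 + 35 / 128 * w ^ 2 - 2 * Q * r + 3 / 4 * Q * w - 5 / 4 * r * w

theorem azF_nonneg (Q r w : ℝ) : 0 ≤ azF Q r w := by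
  have h : azF Q r w = (Q - r + 3 / 8 * w) ^ 2 + 1 / 2 * (r - w / 2) ^ 2 + w ^ 2 / 128 := by
    unfold azF
    ring
  rw [h]
  positivity

theorem azF_eq (X U c : ℝ) :
    azF X ((8 * X + 2 * U) / 3) ((64 * X + 32 * U + 4 * (1 - c ^ 2)) / 9) =
      (145 * X ^ 2 + 220 * X * U + 47 * X * (1 - c ^ 2) + 94 * U ^ 2 + 40 * U * (1 - c ^ 2) +
        35 / 8 * (1 - c ^ 2) ^ 2) / 81 := by
  unfold azF
  ring

/-- the member inequality at `y = y₀`, normalised -/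
def azH (α g b X U c : ℝ) : ℝ :=
  (3 / 2 + 8 / 5 * (1 - c)) * X + U + b - 3 / 4 * (1 - c ^ 2) - 2 / 3 * c ^ 2 -
    α * ((145 * X ^ 2 + 220 * X * U + 47 * X * (1 - c ^ 2) + 94 * U ^ 2 + 40 * U * (1 - c ^ 2) +
        35 / 8 * (1 - c ^ 2) ^ 2) / 81) -
    g * c ^ 2 * (5 / 72 * X + U / 18 + 5 / 288 * (1 - c ^ 2))

/-- reduction to the boundary `U = ± p (1 - c²/2)` -/
theorem azH_red {α g b X U c p : ℝ} (hα : 0 ≤ α) (hp : 0 ≤ p) (hX : X = p ^ 2) (hc : c ^ 2 ≤ 1)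
    (hU : U ^ 2 ≤ X * (1 - c ^ 2))
    (h1 : 0 ≤ (3 / 2 + 8 / 5 * (1 - c)) * p ^ 2 + b - 3 / 4 * (1 - c ^ 2) - 2 / 3 * c ^ 2 -
      α * ((145 * p ^ 4 + 141 * p ^ 2 * (1 - c ^ 2) + 35 / 8 * (1 - c ^ 2) ^ 2) / 81) -
      g * c ^ 2 * (5 / 72 * p ^ 2 + 5 / 288 * (1 - c ^ 2)) +
      (1 - α * (220 * p ^ 2 + 40 * (1 - c ^ 2)) / 81 - g * c ^ 2 / 18) * (p * (1 - c ^ 2 / 2)))
    (h2 : 0 ≤ (3 / 2 + 8 / 5 * (1 - c)) * p ^ 2 + b - 3 / 4 * (1 - c ^ 2) - 2 / 3 * c ^ 2 -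
      α * ((145 * p ^ 4 + 141 * p ^ 2 * (1 - c ^ 2) + 35 / 8 * (1 - c ^ 2) ^ 2) / 81) -
      g * c ^ 2 * (5 / 72 * p ^ 2 + 5 / 288 * (1 - c ^ 2)) -
      (1 - α * (220 * p ^ 2 + 40 * (1 - c ^ 2)) / 81 - g * c ^ 2 / 18) * (p * (1 - c ^ 2 / 2))) :
    0 ≤ azH α g b X U c := by
  have hM : |U| ≤ p * (1 - c ^ 2 / 2) := by
    refine abs_le_of_sq_le_sq ?_ (mul_nonneg hp (by linarith))
    refine hU.trans ?_
    rw [hX, mul_pow]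
    refine mul_le_mul_of_nonneg_left ?_ (sq_nonneg p)
    nlinarith [sq_nonneg (c ^ 2)]
  obtain ⟨hM1, hM2⟩ := abs_le.1 hM
  set A := (1 - α * (220 * p ^ 2 + 40 * (1 - c ^ 2)) / 81 - g * c ^ 2 / 18) with hA
  set M := p * (1 - c ^ 2 / 2) with hMd
  have hlin : 0 ≤ (3 / 2 + 8 / 5 * (1 - c)) * p ^ 2 + b - 3 / 4 * (1 - c ^ 2) - 2 / 3 * c ^ 2 -
      α * ((145 * p ^ 4 + 141 * p ^ 2 * (1 - c ^ 2) + 35 / 8 * (1 - c ^ 2) ^ 2) / 81) -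
      g * c ^ 2 * (5 / 72 * p ^ 2 + 5 / 288 * (1 - c ^ 2)) + A * U := by
    rcases le_total 0 A with h | h
    · have := mul_le_mul_of_nonneg_left hM1 h
      linarith
    · have := mul_le_mul_of_nonpos_left hM2 h
      linarith
  have h3 : α * 94 * U ^ 2 / 81 ≤ α * 94 * (p ^ 2 * (1 - c ^ 2)) / 81 := by
    rw [← hX]
    have := mul_le_mul_of_nonneg_left hU hα
    linarith
  have h4 : azH α g b X U c = (3 / 2 + 8 / 5 * (1 - c)) * p ^ 2 + b - 3 / 4 * (1 - c ^ 2) -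
      2 / 3 * c ^ 2 -
      α * ((145 * p ^ 4 + 141 * p ^ 2 * (1 - c ^ 2) + 35 / 8 * (1 - c ^ 2) ^ 2) / 81) -
      g * c ^ 2 * (5 / 72 * p ^ 2 + 5 / 288 * (1 - c ^ 2)) + A * U +
      (α * 94 * (p ^ 2 * (1 - c ^ 2)) / 81 - α * 94 * U ^ 2 / 81) := by
    rw [hX, hA]
    unfold azH
    ring
  rw [h4]
  linarith

theorem azq_0m {p c : ℝ} (hp : 0 ≤ p) (h2 : p ^ 2 ≤ 1 / 10) (hc : c ^ 2 ≤ 21 / 50) :
    0 ≤ ((101/2700) - (227/675) * p + (1711/2250) * p ^ 2 + (2464/675) * p ^ 3 - (1624/675) * p ^ 4) - (8 / 5) * p ^ 2 * c + c ^ 2 * ((1531/8100) - (299/810) * p + (22088/10125) * p ^ 2 - (1232/675) * p ^ 3) + c ^ 4 * (-(67/2025) + (544/2025) * p) := by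
  have hp1 : p ≤ 317 / 1000 := by nlinarith
  have hc0 := sq_nonneg c
  have hp3 : 0 ≤ p ^ 3 := pow_nonneg hp 3
  have hd : 0 ≤ 317 / 1000 - p := by linarith
  have hu : 64 / 15 * p ^ 4 ≤ (101/2700) - (227/675) * p + (1711/2250) * p ^ 2 + (2464/675) * p ^ 3 - (1624/675) * p ^ 4 := by
    nlinarith [mul_nonneg hp (sq_nonneg (p - 13 / 100)), sq_nonneg (p - 13 / 100), mul_nonneg hp3 hd, mul_nonneg (mul_nonneg hp hd) hd, mul_nonneg hp hd, mul_nonneg (mul_nonneg hp hp) hd]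
  have hk : 3 / 20 ≤ (1531/8100) - (299/810) * p + (22088/10125) * p ^ 2 - (1232/675) * p ^ 3 + c ^ 2 * (-(67/2025) + (544/2025) * p) := by
    nlinarith [mul_nonneg hc0 hp, mul_nonneg (sub_nonneg.2 hc) hp, mul_nonneg hp hd, hp3, mul_nonneg (mul_nonneg hp hp) hd, sq_nonneg (p - 1 / 10)]
  have hs : (3 / 20) * c ^ 2 - (8 / 5) * p ^ 2 * c + 64 / 15 * p ^ 4 = (3 / 20) * (c - 16 / 3 * p ^ 2) ^ 2 := by ring
  have hs0 : 0 ≤ (3 / 20) * c ^ 2 - (8 / 5) * p ^ 2 * c + 64 / 15 * p ^ 4 := by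
    rw [hs]
    positivity
  have h5 := mul_nonneg hc0 (sub_nonneg.2 hk)
  have e : ((101/2700) - (227/675) * p + (1711/2250) * p ^ 2 + (2464/675) * p ^ 3 - (1624/675) * p ^ 4) - (8 / 5) * p ^ 2 * c + c ^ 2 * ((1531/8100) - (299/810) * p + (22088/10125) * p ^ 2 - (1232/675) * p ^ 3) + c ^ 4 * (-(67/2025) + (544/2025) * p) =
      ((101/2700) - (227/675) * p + (1711/2250) * p ^ 2 + (2464/675) * p ^ 3 - (1624/675) * p ^ 4 - 64 / 15 * p ^ 4) + ((3 / 20) * c ^ 2 - (8 / 5) * p ^ 2 * c + 64 / 15 * p ^ 4) +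
      c ^ 2 * ((1531/8100) - (299/810) * p + (22088/10125) * p ^ 2 - (1232/675) * p ^ 3 + c ^ 2 * (-(67/2025) + (544/2025) * p) - 3 / 20) := by ring
  rw [e]
  linarith

theorem azq_0p {p c : ℝ} (hp : 0 ≤ p) (h2 : p ^ 2 ≤ 1 / 10) (hc : c ^ 2 ≤ 21 / 50) :
    0 ≤ ((101/2700) + (227/675) * p + (1711/2250) * p ^ 2 - (2464/675) * p ^ 3 - (1624/675) * p ^ 4) - (8 / 5) * p ^ 2 * c + c ^ 2 * ((1531/8100) + (299/810) * p + (22088/10125) * p ^ 2 + (1232/675) * p ^ 3) + c ^ 4 * (-(67/2025) - (544/2025) * p) := by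
  have hp1 : p ≤ 317 / 1000 := by nlinarith
  have hc0 := sq_nonneg c
  have hp3 : 0 ≤ p ^ 3 := pow_nonneg hp 3
  have hd : 0 ≤ 317 / 1000 - p := by linarith
  have hu : 64 / 15 * p ^ 4 ≤ (101/2700) + (227/675) * p + (1711/2250) * p ^ 2 - (2464/675) * p ^ 3 - (1624/675) * p ^ 4 := by
    nlinarith [mul_nonneg hp (sq_nonneg (p - 13 / 100)), sq_nonneg (p - 13 / 100), mul_nonneg hp3 hd, mul_nonneg (mul_nonneg hp hd) hd, mul_nonneg hp hd, mul_nonneg (mul_nonneg hp hp) hd]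
  have hk : 3 / 20 ≤ (1531/8100) + (299/810) * p + (22088/10125) * p ^ 2 + (1232/675) * p ^ 3 + c ^ 2 * (-(67/2025) - (544/2025) * p) := by
    nlinarith [mul_nonneg hc0 hp, mul_nonneg (sub_nonneg.2 hc) hp, mul_nonneg hp hd, hp3, mul_nonneg (mul_nonneg hp hp) hd, sq_nonneg (p - 1 / 10)]
  have hs : (3 / 20) * c ^ 2 - (8 / 5) * p ^ 2 * c + 64 / 15 * p ^ 4 = (3 / 20) * (c - 16 / 3 * p ^ 2) ^ 2 := by ring
  have hs0 : 0 ≤ (3 / 20) * c ^ 2 - (8 / 5) * p ^ 2 * c + 64 / 15 * p ^ 4 := by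
    rw [hs]
    positivity
  have h5 := mul_nonneg hc0 (sub_nonneg.2 hk)
  have e : ((101/2700) + (227/675) * p + (1711/2250) * p ^ 2 - (2464/675) * p ^ 3 - (1624/675) * p ^ 4) - (8 / 5) * p ^ 2 * c + c ^ 2 * ((1531/8100) + (299/810) * p + (22088/10125) * p ^ 2 + (1232/675) * p ^ 3) + c ^ 4 * (-(67/2025) - (544/2025) * p) =
      ((101/2700) + (227/675) * p + (1711/2250) * p ^ 2 - (2464/675) * p ^ 3 - (1624/675) * p ^ 4 - 64 / 15 * p ^ 4) + ((3 / 20) * c ^ 2 - (8 / 5) * p ^ 2 * c + 64 / 15 * p ^ 4) +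
      c ^ 2 * ((1531/8100) + (299/810) * p + (22088/10125) * p ^ 2 + (1232/675) * p ^ 3 + c ^ 2 * (-(67/2025) - (544/2025) * p) - 3 / 20) := by ring
  rw [e]
  linarith

theorem azq_1m {p c : ℝ} (hp : 0 ≤ p) (h2 : p ^ 2 ≤ 681 / 10000) (hc : c ^ 2 ≤ 3 / 10) :
    0 ≤ ((93/1600) - (4/25) * p + (139/1000) * p ^ 2 + (231/50) * p ^ 3 - (609/200) * p ^ 4) - (8 / 5) * p ^ 2 * c + c ^ 2 * ((521/2400) - (3/5) * p + (2761/1000) * p ^ 2 - (231/100) * p ^ 3) + c ^ 4 * (-(67/1600) + (17/50) * p) := by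
  have hp1 : p ≤ 261 / 1000 := by nlinarith
  have hc0 := sq_nonneg c
  have hp3 : 0 ≤ p ^ 3 := pow_nonneg hp 3
  have hd : 0 ≤ 261 / 1000 - p := by linarith
  have hu : 64 / 17 * p ^ 4 ≤ (93/1600) - (4/25) * p + (139/1000) * p ^ 2 + (231/50) * p ^ 3 - (609/200) * p ^ 4 := by
    nlinarith [mul_nonneg hp (sq_nonneg (p - 13 / 100)), sq_nonneg (p - 13 / 100), mul_nonneg hp3 hd, mul_nonneg (mul_nonneg hp hd) hd, mul_nonneg hp hd, mul_nonneg (mul_nonneg hp hp) hd]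
  have hk : 17 / 100 ≤ (521/2400) - (3/5) * p + (2761/1000) * p ^ 2 - (231/100) * p ^ 3 + c ^ 2 * (-(67/1600) + (17/50) * p) := by
    nlinarith [mul_nonneg hc0 hp, mul_nonneg (sub_nonneg.2 hc) hp, mul_nonneg hp hd, hp3, mul_nonneg (mul_nonneg hp hp) hd, sq_nonneg (p - 1 / 10)]
  have hs : (17 / 100) * c ^ 2 - (8 / 5) * p ^ 2 * c + 64 / 17 * p ^ 4 = (17 / 100) * (c - 80 / 17 * p ^ 2) ^ 2 := by ring
  have hs0 : 0 ≤ (17 / 100) * c ^ 2 - (8 / 5) * p ^ 2 * c + 64 / 17 * p ^ 4 := by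
    rw [hs]
    positivity
  have h5 := mul_nonneg hc0 (sub_nonneg.2 hk)
  have e : ((93/1600) - (4/25) * p + (139/1000) * p ^ 2 + (231/50) * p ^ 3 - (609/200) * p ^ 4) - (8 / 5) * p ^ 2 * c + c ^ 2 * ((521/2400) - (3/5) * p + (2761/1000) * p ^ 2 - (231/100) * p ^ 3) + c ^ 4 * (-(67/1600) + (17/50) * p) =
      ((93/1600) - (4/25) * p + (139/1000) * p ^ 2 + (231/50) * p ^ 3 - (609/200) * p ^ 4 - 64 / 17 * p ^ 4) + ((17 / 100) * c ^ 2 - (8 / 5) * p ^ 2 * c + 64 / 17 * p ^ 4) +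
      c ^ 2 * ((521/2400) - (3/5) * p + (2761/1000) * p ^ 2 - (231/100) * p ^ 3 + c ^ 2 * (-(67/1600) + (17/50) * p) - 17 / 100) := by ring
  rw [e]
  linarith

theorem azq_1p {p c : ℝ} (hp : 0 ≤ p) (h2 : p ^ 2 ≤ 681 / 10000) (hc : c ^ 2 ≤ 3 / 10) :
    0 ≤ ((93/1600) + (4/25) * p + (139/1000) * p ^ 2 - (231/50) * p ^ 3 - (609/200) * p ^ 4) - (8 / 5) * p ^ 2 * c + c ^ 2 * ((521/2400) + (3/5) * p + (2761/1000) * p ^ 2 + (231/100) * p ^ 3) + c ^ 4 * (-(67/1600) - (17/50) * p) := by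
  have hp1 : p ≤ 261 / 1000 := by nlinarith
  have hc0 := sq_nonneg c
  have hp3 : 0 ≤ p ^ 3 := pow_nonneg hp 3
  have hd : 0 ≤ 261 / 1000 - p := by linarith
  have hu : 32 / 105 * p ^ 3 ≤ (93/1600) + (4/25) * p + (139/1000) * p ^ 2 - (231/50) * p ^ 3 - (609/200) * p ^ 4 := by
    nlinarith [mul_nonneg hp (sq_nonneg (p - 13 / 100)), sq_nonneg (p - 13 / 100), mul_nonneg hp3 hd, mul_nonneg (mul_nonneg hp hd) hd, mul_nonneg hp hd, mul_nonneg (mul_nonneg hp hp) hd]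
  have hk : 21 / 10 * p ≤ (521/2400) + (3/5) * p + (2761/1000) * p ^ 2 + (231/100) * p ^ 3 + c ^ 2 * (-(67/1600) - (17/50) * p) := by
    nlinarith [mul_nonneg hc0 hp, mul_nonneg (sub_nonneg.2 hc) hp, mul_nonneg hp hd, hp3, mul_nonneg (mul_nonneg hp hp) hd, sq_nonneg (p - 1 / 10)]
  have hs : (21 / 10 * p) * c ^ 2 - (8 / 5) * p ^ 2 * c + 32 / 105 * p ^ 3 = (21 / 10) * p * (c - 8 / 21 * p) ^ 2 := by ring
  have hs0 : 0 ≤ (21 / 10 * p) * c ^ 2 - (8 / 5) * p ^ 2 * c + 32 / 105 * p ^ 3 := by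
    rw [hs]
    positivity
  have h5 := mul_nonneg hc0 (sub_nonneg.2 hk)
  have e : ((93/1600) + (4/25) * p + (139/1000) * p ^ 2 - (231/50) * p ^ 3 - (609/200) * p ^ 4) - (8 / 5) * p ^ 2 * c + c ^ 2 * ((521/2400) + (3/5) * p + (2761/1000) * p ^ 2 + (231/100) * p ^ 3) + c ^ 4 * (-(67/1600) - (17/50) * p) =
      ((93/1600) + (4/25) * p + (139/1000) * p ^ 2 - (231/50) * p ^ 3 - (609/200) * p ^ 4 - 32 / 105 * p ^ 3) + ((21 / 10 * p) * c ^ 2 - (8 / 5) * p ^ 2 * c + 32 / 105 * p ^ 3) +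
      c ^ 2 * ((521/2400) + (3/5) * p + (2761/1000) * p ^ 2 + (231/100) * p ^ 3 + c ^ 2 * (-(67/1600) - (17/50) * p) - 21 / 10 * p) := by ring
  rw [e]
  linarith

theorem azq_2m {p c : ℝ} (hp : 0 ≤ p) (h2 : p ^ 2 ≤ 326 / 10000) (hc : c ^ 2 ≤ 3 / 20) :
    0 ≤ ((187/2160) + (1/27) * p - (5/9) * p ^ 2 + (154/27) * p ^ 3 - (203/54) * p ^ 4) - (8 / 5) * p ^ 2 * c + c ^ 2 * ((161/648) - (139/162) * p + (2761/810) * p ^ 2 - (77/27) * p ^ 3) + c ^ 4 * (-(67/1296) + (34/81) * p) := by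
  have hp1 : p ≤ 181 / 1000 := by nlinarith
  have hc0 := sq_nonneg c
  have hp3 : 0 ≤ p ^ 3 := pow_nonneg hp 3
  have hd : 0 ≤ 181 / 1000 - p := by linarith
  have hu : 32 / 9 * p ^ 4 ≤ (187/2160) + (1/27) * p - (5/9) * p ^ 2 + (154/27) * p ^ 3 - (203/54) * p ^ 4 := by
    nlinarith [mul_nonneg hp (sq_nonneg (p - 13 / 100)), sq_nonneg (p - 13 / 100), mul_nonneg hp3 hd, mul_nonneg (mul_nonneg hp hd) hd, mul_nonneg hp hd, mul_nonneg (mul_nonneg hp hp) hd]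
  have hk : 9 / 50 ≤ (161/648) - (139/162) * p + (2761/810) * p ^ 2 - (77/27) * p ^ 3 + c ^ 2 * (-(67/1296) + (34/81) * p) := by
    nlinarith [mul_nonneg hc0 hp, mul_nonneg (sub_nonneg.2 hc) hp, mul_nonneg hp hd, hp3, mul_nonneg (mul_nonneg hp hp) hd, sq_nonneg (p - 1 / 10)]
  have hs : (9 / 50) * c ^ 2 - (8 / 5) * p ^ 2 * c + 32 / 9 * p ^ 4 = (9 / 50) * (c - 40 / 9 * p ^ 2) ^ 2 := by ring
  have hs0 : 0 ≤ (9 / 50) * c ^ 2 - (8 / 5) * p ^ 2 * c + 32 / 9 * p ^ 4 := by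
    rw [hs]
    positivity
  have h5 := mul_nonneg hc0 (sub_nonneg.2 hk)
  have e : ((187/2160) + (1/27) * p - (5/9) * p ^ 2 + (154/27) * p ^ 3 - (203/54) * p ^ 4) - (8 / 5) * p ^ 2 * c + c ^ 2 * ((161/648) - (139/162) * p + (2761/810) * p ^ 2 - (77/27) * p ^ 3) + c ^ 4 * (-(67/1296) + (34/81) * p) =
      ((187/2160) + (1/27) * p - (5/9) * p ^ 2 + (154/27) * p ^ 3 - (203/54) * p ^ 4 - 32 / 9 * p ^ 4) + ((9 / 50) * c ^ 2 - (8 / 5) * p ^ 2 * c + 32 / 9 * p ^ 4) +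
      c ^ 2 * ((161/648) - (139/162) * p + (2761/810) * p ^ 2 - (77/27) * p ^ 3 + c ^ 2 * (-(67/1296) + (34/81) * p) - 9 / 50) := by ring
  rw [e]
  linarith

theorem azq_2p {p c : ℝ} (hp : 0 ≤ p) (h2 : p ^ 2 ≤ 326 / 10000) (hc : c ^ 2 ≤ 3 / 20) :
    0 ≤ ((187/2160) - (1/27) * p - (5/9) * p ^ 2 - (154/27) * p ^ 3 - (203/54) * p ^ 4) - (8 / 5) * p ^ 2 * c + c ^ 2 * ((161/648) + (139/162) * p + (2761/810) * p ^ 2 + (77/27) * p ^ 3) + c ^ 4 * (-(67/1296) - (34/81) * p) := by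
  have hp1 : p ≤ 181 / 1000 := by nlinarith
  have hc0 := sq_nonneg c
  have hp3 : 0 ≤ p ^ 3 := pow_nonneg hp 3
  have hd : 0 ≤ 181 / 1000 - p := by linarith
  have hu : 8 / 3 * p ^ 4 ≤ (187/2160) - (1/27) * p - (5/9) * p ^ 2 - (154/27) * p ^ 3 - (203/54) * p ^ 4 := by
    nlinarith [mul_nonneg hp (sq_nonneg (p - 13 / 100)), sq_nonneg (p - 13 / 100), mul_nonneg hp3 hd, mul_nonneg (mul_nonneg hp hd) hd, mul_nonneg hp hd, mul_nonneg (mul_nonneg hp hp) hd]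
  have hk : 6 / 25 ≤ (161/648) + (139/162) * p + (2761/810) * p ^ 2 + (77/27) * p ^ 3 + c ^ 2 * (-(67/1296) - (34/81) * p) := by
    nlinarith [mul_nonneg hc0 hp, mul_nonneg (sub_nonneg.2 hc) hp, mul_nonneg hp hd, hp3, mul_nonneg (mul_nonneg hp hp) hd, sq_nonneg (p - 1 / 10)]
  have hs : (6 / 25) * c ^ 2 - (8 / 5) * p ^ 2 * c + 8 / 3 * p ^ 4 = (6 / 25) * (c - 10 / 3 * p ^ 2) ^ 2 := by ring
  have hs0 : 0 ≤ (6 / 25) * c ^ 2 - (8 / 5) * p ^ 2 * c + 8 / 3 * p ^ 4 := by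
    rw [hs]
    positivity
  have h5 := mul_nonneg hc0 (sub_nonneg.2 hk)
  have e : ((187/2160) - (1/27) * p - (5/9) * p ^ 2 - (154/27) * p ^ 3 - (203/54) * p ^ 4) - (8 / 5) * p ^ 2 * c + c ^ 2 * ((161/648) + (139/162) * p + (2761/810) * p ^ 2 + (77/27) * p ^ 3) + c ^ 4 * (-(67/1296) - (34/81) * p) =
      ((187/2160) - (1/27) * p - (5/9) * p ^ 2 - (154/27) * p ^ 3 - (203/54) * p ^ 4 - 8 / 3 * p ^ 4) + ((6 / 25) * c ^ 2 - (8 / 5) * p ^ 2 * c + 8 / 3 * p ^ 4) +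
      c ^ 2 * ((161/648) + (139/162) * p + (2761/810) * p ^ 2 + (77/27) * p ^ 3 + c ^ 2 * (-(67/1296) - (34/81) * p) - 6 / 25) := by ring
  rw [e]
  linarith


/-- (y₀, b₀) = (4/5, 43/50) -/
theorem azH_0 {X U c : ℝ} (hX : 0 ≤ X) (hc : c ^ 2 ≤ 1) (hU : U ^ 2 ≤ X * (1 - c ^ 2))
    (h : 8 / 5 * (1 - c) * X + (43 / 50 - (1 - c ^ 2) - 2 / 3 * c ^ 2) < 0) :
    0 ≤ azH (21 / 10 * (4 / 5) ^ 2) (32 / 9 * (4 / 5) ^ 2) (43 / 50) X U c := by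
  have hc1 : c ≤ 1 := by nlinarith
  have hc2 : c ^ 2 ≤ 21 / 50 := by nlinarith [mul_nonneg (sub_nonneg.2 hc1) hX]
  have hX1 : X ≤ 1 / 10 := by
    by_contra hcon
    push Not at hcon
    nlinarith [mul_nonneg (sub_nonneg.2 hc1) (sub_nonneg.2 hcon.le), sq_nonneg (c - 6 / 25)]
  have hp := Real.sqrt_nonneg X
  have hp2 : X = √X ^ 2 := (Real.sq_sqrt hX).symm
  refine azH_red (by norm_num) hp hp2 hc hU ?_ ?_
  · have := azq_0p hp (by rw [← hp2]; exact hX1) hc2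
    refine this.trans (le_of_eq ?_)
    ring
  · have := azq_0m hp (by rw [← hp2]; exact hX1) hc2
    refine this.trans (le_of_eq ?_)
    ring

/-- (y₀, b₀) = (9/10, 9/10) -/
theorem azH_1 {X U c : ℝ} (hX : 0 ≤ X) (hc : c ^ 2 ≤ 1) (hU : U ^ 2 ≤ X * (1 - c ^ 2))
    (h : 8 / 5 * (1 - c) * X + (9 / 10 - (1 - c ^ 2) - 2 / 3 * c ^ 2) < 0) :
    0 ≤ azH (21 / 10 * (9 / 10) ^ 2) (32 / 9 * (9 / 10) ^ 2) (9 / 10) X U c := by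
  have hc1 : c ≤ 1 := by nlinarith
  have hc2 : c ^ 2 ≤ 3 / 10 := by nlinarith [mul_nonneg (sub_nonneg.2 hc1) hX]
  have hX1 : X ≤ 681 / 10000 := by
    by_contra hcon
    push Not at hcon
    nlinarith [mul_nonneg (sub_nonneg.2 hc1) (sub_nonneg.2 hcon.le), sq_nonneg (c - 16344 / 100000)]
  have hp := Real.sqrt_nonneg X
  have hp2 : X = √X ^ 2 := (Real.sq_sqrt hX).symm
  refine azH_red (by norm_num) hp hp2 hc hU ?_ ?_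
  · have := azq_1p hp (by rw [← hp2]; exact hX1) hc2
    refine this.trans (le_of_eq ?_)
    ring
  · have := azq_1m hp (by rw [← hp2]; exact hX1) hc2
    refine this.trans (le_of_eq ?_)
    ring

/-- (y₀, b₀) = (1, 19/20) -/
theorem azH_2 {X U c : ℝ} (hX : 0 ≤ X) (hc : c ^ 2 ≤ 1) (hU : U ^ 2 ≤ X * (1 - c ^ 2))
    (h : 8 / 5 * (1 - c) * X + (19 / 20 - (1 - c ^ 2) - 2 / 3 * c ^ 2) < 0) :
    0 ≤ azH (21 / 10 * 1 ^ 2) (32 / 9 * 1 ^ 2) (19 / 20) X U c := by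
  have hc1 : c ≤ 1 := by nlinarith
  have hc2 : c ^ 2 ≤ 3 / 20 := by nlinarith [mul_nonneg (sub_nonneg.2 hc1) hX]
  have hX1 : X ≤ 326 / 10000 := by
    by_contra hcon
    push Not at hcon
    nlinarith [mul_nonneg (sub_nonneg.2 hc1) (sub_nonneg.2 hcon.le), sq_nonneg (c - 7824 / 100000)]
  have hp := Real.sqrt_nonneg X
  have hp2 : X = √X ^ 2 := (Real.sq_sqrt hX).symm
  refine azH_red (by norm_num) hp hp2 hc hU ?_ ?_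
  · have := azq_2p hp (by rw [← hp2]; exact hX1) hc2
    refine this.trans (le_of_eq ?_)
    ring
  · have := azq_2m hp (by rw [← hp2]; exact hX1) hc2
    refine this.trans (le_of_eq ?_)
    ring

/-- the admissible pairs `(y₀, b₀)` -/
def AzPair (y0 b0 : ℝ) : Prop :=
  (y0 = 4 / 5 ∧ b0 = 43 / 50) ∨ (y0 = 9 / 10 ∧ b0 = 9 / 10) ∨ (y0 = 1 ∧ b0 = 19 / 20)

theorem azH_pair {y0 b0 X U c : ℝ} (hp : AzPair y0 b0) (hX : 0 ≤ X) (hc : c ^ 2 ≤ 1)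
    (hU : U ^ 2 ≤ X * (1 - c ^ 2))
    (h : 8 / 5 * (1 - c) * X + (b0 - (1 - c ^ 2) - 2 / 3 * c ^ 2) < 0) :
    0 ≤ azH (21 / 10 * y0 ^ 2) (32 / 9 * y0 ^ 2) b0 X U c := by
  rcases hp with ⟨rfl, rfl⟩ | ⟨rfl, rfl⟩ | ⟨rfl, rfl⟩
  · exact azH_0 hX hc hU h
  · exact azH_1 hX hc hU h
  · exact azH_2 hX hc hU h

theorem azE2_nonneg {X U s : ℝ} (hX : 0 ≤ X) (hs : 0 ≤ s) (hU : U ^ 2 ≤ X * s) :
    0 ≤ 5 / 72 * X + U / 18 + 5 / 288 * s := by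
  have h1 : (U / 18) ^ 2 ≤ (5 / 72 * X + 5 / 288 * s) ^ 2 := by
    nlinarith [sq_nonneg (X - s / 4), mul_nonneg hX hs]
  have h2 := abs_le_of_sq_le_sq h1 (by positivity)
  have h3 := (abs_le.1 h2).1
  linarith

/-- **the scalar alternative of the ring member** -/
theorem az_alt {y0 b0 ρ y Q U c : ℝ} (hp : AzPair y0 b0) (hy : 0 ≤ y) (hy0 : y ≤ y0)
    (hρ : 1 / 5 ≤ ρ) (hQ : 0 ≤ Q) (hU : U ^ 2 ≤ Q * (1 - c ^ 2)) (hc : c ^ 2 ≤ 1) :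
    0 ≤ 8 * ρ * (1 - c) * Q + y ^ 2 * (b0 - (1 - c ^ 2) - 2 / 3 * c ^ 2) ∨
    21 / 10 * azF Q ((8 * Q + 2 * y * U) / 3) ((64 * Q + 32 * y * U + 4 * y ^ 2 * (1 - c ^ 2)) / 9) +
      32 / 9 * y ^ 2 * c ^ 2 * (Q / 8 - (8 * Q + 2 * y * U) / 3 / 8 +
        5 * ((64 * Q + 32 * y * U + 4 * y ^ 2 * (1 - c ^ 2)) / 9) / 128) ≤
      (3 / 2 + 8 * ρ * (1 - c)) * Q + y * U + y ^ 2 * (b0 - 3 / 4 * (1 - c ^ 2) - 2 / 3 * c ^ 2) := by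
  have hc1 : c ≤ 1 := by nlinarith
  have hcQ : 0 ≤ (1 - c) * Q := mul_nonneg (sub_nonneg.2 hc1) hQ
  rcases hy.eq_or_lt with h0 | h0
  · left
    subst h0
    have := mul_nonneg (by linarith : 0 ≤ 8 * ρ) hcQ
    nlinarith
  by_cases hII : 0 ≤ 8 * ρ * (1 - c) * Q + y ^ 2 * (b0 - (1 - c ^ 2) - 2 / 3 * c ^ 2)
  · exact Or.inl hII
  right
  push Not at hII
  have hy2 : 0 < y ^ 2 := by positivity
  set X := Q / y ^ 2 with hXd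
  set V := U / y with hVd
  have hQX : Q = y ^ 2 * X := by rw [hXd]; field_simp
  have hUV : U = y * V := by rw [hVd]; field_simp
  have hX : 0 ≤ X := div_nonneg hQ hy2.le
  have hV : V ^ 2 ≤ X * (1 - c ^ 2) := by
    rw [hVd, hXd, div_pow, div_mul_eq_mul_div]
    exact div_le_div_of_nonneg_right hU hy2.le
  have hrho : 8 / 5 * ((1 - c) * Q) ≤ 8 * ρ * ((1 - c) * Q) :=
    mul_le_mul_of_nonneg_right (by linarith) hcQ
  have h1 : 8 / 5 * (1 - c) * X + (b0 - (1 - c ^ 2) - 2 / 3 * c ^ 2) < 0 := by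
    by_contra hcon
    push Not at hcon
    have := mul_nonneg hy2.le hcon
    have e : y ^ 2 * (8 / 5 * (1 - c) * X + (b0 - (1 - c ^ 2) - 2 / 3 * c ^ 2)) =
        8 / 5 * ((1 - c) * (y ^ 2 * X)) + y ^ 2 * (b0 - (1 - c ^ 2) - 2 / 3 * c ^ 2) := by ring
    rw [e, ← hQX] at this
    linarith
  have h2 := azH_pair hp hX hc hV h1
  have hF0 := azF_nonneg X ((8 * X + 2 * V) / 3) ((64 * X + 32 * V + 4 * (1 - c ^ 2)) / 9)
  have hE0 := azE2_nonneg hX (by linarith : 0 ≤ 1 - c ^ 2) hV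
  have hyy : y ^ 2 ≤ y0 ^ 2 := by
    exact pow_le_pow_left₀ hy hy0 2
  have e1 : azF Q ((8 * Q + 2 * y * U) / 3)
      ((64 * Q + 32 * y * U + 4 * y ^ 2 * (1 - c ^ 2)) / 9) =
      y ^ 2 * (y ^ 2 * azF X ((8 * X + 2 * V) / 3) ((64 * X + 32 * V + 4 * (1 - c ^ 2)) / 9)) := by
    rw [hQX, hUV]
    unfold azF
    ring
  have e2 : Q / 8 - (8 * Q + 2 * y * U) / 3 / 8 +
      5 * ((64 * Q + 32 * y * U + 4 * y ^ 2 * (1 - c ^ 2)) / 9) / 128 =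
      y ^ 2 * (5 / 72 * X + V / 18 + 5 / 288 * (1 - c ^ 2)) := by
    rw [hQX, hUV]
    ring
  have h3 : y ^ 2 * azF X ((8 * X + 2 * V) / 3) ((64 * X + 32 * V + 4 * (1 - c ^ 2)) / 9) ≤
      y0 ^ 2 * azF X ((8 * X + 2 * V) / 3) ((64 * X + 32 * V + 4 * (1 - c ^ 2)) / 9) :=
    mul_le_mul_of_nonneg_right hyy hF0
  have h4 : y ^ 2 * (c ^ 2 * (5 / 72 * X + V / 18 + 5 / 288 * (1 - c ^ 2))) ≤
      y0 ^ 2 * (c ^ 2 * (5 / 72 * X + V / 18 + 5 / 288 * (1 - c ^ 2))) :=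
    mul_le_mul_of_nonneg_right hyy (mul_nonneg (sq_nonneg c) hE0)
  have h5 : 0 ≤ (3 / 2 + 8 / 5 * (1 - c)) * X + V + b0 - 3 / 4 * (1 - c ^ 2) - 2 / 3 * c ^ 2 -
      21 / 10 * (y0 ^ 2 * azF X ((8 * X + 2 * V) / 3) ((64 * X + 32 * V + 4 * (1 - c ^ 2)) / 9)) -
      32 / 9 * (y0 ^ 2 * (c ^ 2 * (5 / 72 * X + V / 18 + 5 / 288 * (1 - c ^ 2)))) := by
    rw [azF_eq]
    refine h2.trans (le_of_eq ?_)
    unfold azH
    ring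
  have h6 := mul_nonneg hy2.le (h5.trans (by linarith : _ ≤
    (3 / 2 + 8 / 5 * (1 - c)) * X + V + b0 - 3 / 4 * (1 - c ^ 2) - 2 / 3 * c ^ 2 -
      21 / 10 * (y ^ 2 * azF X ((8 * X + 2 * V) / 3) ((64 * X + 32 * V + 4 * (1 - c ^ 2)) / 9)) -
      32 / 9 * (y ^ 2 * (c ^ 2 * (5 / 72 * X + V / 18 + 5 / 288 * (1 - c ^ 2))))))
  rw [e1, e2]
  have e3 : y ^ 2 * ((3 / 2 + 8 / 5 * (1 - c)) * X + V + b0 - 3 / 4 * (1 - c ^ 2) - 2 / 3 * c ^ 2 -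
      21 / 10 * (y ^ 2 * azF X ((8 * X + 2 * V) / 3) ((64 * X + 32 * V + 4 * (1 - c ^ 2)) / 9)) -
      32 / 9 * (y ^ 2 * (c ^ 2 * (5 / 72 * X + V / 18 + 5 / 288 * (1 - c ^ 2))))) =
      3 / 2 * Q + 8 / 5 * ((1 - c) * Q) + y * U +
        y ^ 2 * (b0 - 3 / 4 * (1 - c ^ 2) - 2 / 3 * c ^ 2) -
      (21 / 10 * (y ^ 2 * (y ^ 2 * azF X ((8 * X + 2 * V) / 3)
        ((64 * X + 32 * V + 4 * (1 - c ^ 2)) / 9))) +
      32 / 9 * y ^ 2 * c ^ 2 * (y ^ 2 * (5 / 72 * X + V / 18 + 5 / 288 * (1 - c ^ 2)))) := by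
    rw [hQX, hUV]
    ring
  rw [e3] at h6
  have e4 : (3 / 2 + 8 * ρ * (1 - c)) * Q = 3 / 2 * Q + 8 * ρ * ((1 - c) * Q) := by ring
  rw [e4]
  linarith

end Pool.Agent.FPX
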