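import Mathlib
import Pool.Agent.FPX.AZS

/-
AZQ (helper95): the scalar inequality of the ring member on the levels `≥ ρ₁` (helper56's `GoodL`),
pairs `(y₀, b₀)` for `ρ₁ = 1/4`.
-/

noncomputable section

namespace Pool.Agent.FPX.AZS

/-- the member inequality at `y = y₀`, normalised, level `R/8` -/
def azT (R α g b X U c : ℝ) : ℝ :=
  (3 / 2 + R * (1 - c)) * X + U + b - 3 / 4 * (1 - c ^ 2) - 2 / 3 * c ^ 2 -
    α * ((145 * X ^ 2 + 220 * X * U + 47 * X * (1 - c ^ 2) + 94 * U ^ 2 + 40 * U * (1 - c ^ 2) +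
        35 / 8 * (1 - c ^ 2) ^ 2) / 81) -
    g * c ^ 2 * (5 / 72 * X + U / 18 + 5 / 288 * (1 - c ^ 2))

/-- reduction to the boundary `U = ± p (1 - c²/2)` -/
theorem azT_red {R α g b X U c p : ℝ} (hα : 0 ≤ α) (hp : 0 ≤ p) (hX : X = p ^ 2) (hc : c ^ 2 ≤ 1)
    (hU : U ^ 2 ≤ X * (1 - c ^ 2))
    (h1 : 0 ≤ (3 / 2 + R * (1 - c)) * p ^ 2 + b - 3 / 4 * (1 - c ^ 2) - 2 / 3 * c ^ 2 -
      α * ((145 * p ^ 4 + 141 * p ^ 2 * (1 - c ^ 2) + 35 / 8 * (1 - c ^ 2) ^ 2) / 81) -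
      g * c ^ 2 * (5 / 72 * p ^ 2 + 5 / 288 * (1 - c ^ 2)) +
      (1 - α * (220 * p ^ 2 + 40 * (1 - c ^ 2)) / 81 - g * c ^ 2 / 18) * (p * (1 - c ^ 2 / 2)))
    (h2 : 0 ≤ (3 / 2 + R * (1 - c)) * p ^ 2 + b - 3 / 4 * (1 - c ^ 2) - 2 / 3 * c ^ 2 -
      α * ((145 * p ^ 4 + 141 * p ^ 2 * (1 - c ^ 2) + 35 / 8 * (1 - c ^ 2) ^ 2) / 81) -
      g * c ^ 2 * (5 / 72 * p ^ 2 + 5 / 288 * (1 - c ^ 2)) -
      (1 - α * (220 * p ^ 2 + 40 * (1 - c ^ 2)) / 81 - g * c ^ 2 / 18) * (p * (1 - c ^ 2 / 2))) :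
    0 ≤ azT R α g b X U c := by
  have hM : |U| ≤ p * (1 - c ^ 2 / 2) := by
    refine abs_le_of_sq_le_sq ?_ (mul_nonneg hp (by linarith))
    refine hU.trans ?_
    rw [hX, mul_pow]
    refine mul_le_mul_of_nonneg_left ?_ (sq_nonneg p)
    nlinarith [sq_nonneg (c ^ 2)]
  obtain ⟨hM1, hM2⟩ := abs_le.1 hM
  set A := (1 - α * (220 * p ^ 2 + 40 * (1 - c ^ 2)) / 81 - g * c ^ 2 / 18) with hA
  set M := p * (1 - c ^ 2 / 2) with hMd
  have hlin : 0 ≤ (3 / 2 + R * (1 - c)) * p ^ 2 + b - 3 / 4 * (1 - c ^ 2) - 2 / 3 * c ^ 2 -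
      α * ((145 * p ^ 4 + 141 * p ^ 2 * (1 - c ^ 2) + 35 / 8 * (1 - c ^ 2) ^ 2) / 81) -
      g * c ^ 2 * (5 / 72 * p ^ 2 + 5 / 288 * (1 - c ^ 2)) + A * U := by
    rcases le_total 0 A with h | h
    · have := mul_le_mul_of_nonneg_left hM1 h
      linarith
    · have := mul_le_mul_of_nonpos_left hM2 h
      linarith
  have h3 : α * 94 * U ^ 2 / 81 ≤ α * 94 * (p ^ 2 * (1 - c ^ 2)) / 81 := by
    rw [← hX]
    have := mul_le_mul_of_nonneg_left hU hα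
    linarith
  have h4 : azT R α g b X U c = (3 / 2 + R * (1 - c)) * p ^ 2 + b - 3 / 4 * (1 - c ^ 2) -
      2 / 3 * c ^ 2 -
      α * ((145 * p ^ 4 + 141 * p ^ 2 * (1 - c ^ 2) + 35 / 8 * (1 - c ^ 2) ^ 2) / 81) -
      g * c ^ 2 * (5 / 72 * p ^ 2 + 5 / 288 * (1 - c ^ 2)) + A * U +
      (α * 94 * (p ^ 2 * (1 - c ^ 2)) / 81 - α * 94 * U ^ 2 / 81) := by
    rw [hX, hA]
    unfold azT
    ring
  rw [h4]
  linarith

theorem azT_eq (R y b X U c : ℝ) : azT R (21 / 10 * y ^ 2) (32 / 9 * y ^ 2) b X U c =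
    (3/2 + R*(1-c))*X + U + b - 3/4*(1-c^2) - 2/3*c^2
      - 21/10*y^2*E4 X U (1-c^2) - 32/9*y^2*c^2*E2 X U (1-c^2) := by
  unfold azT E4 E2
  ring

theorem azr_am {p c : ℝ} (hp : 0 ≤ p) (h2 : p ^ 2 ≤ 431 / 5000) (hc : c ^ 2 ≤ 9 / 20) :
    0 ≤ ((3119 / 172800) - (677 / 2700) * p + (30919 / 36000) * p ^ 2 + (22253 / 5400) * p ^ 3 - (58667 / 21600) * p ^ 4) - (2) * p ^ 2 * c + c ^ 2 * ((52523 / 259200) - (1559 / 3240) * p + (797929 / 324000) * p ^ 2 - (22253 / 10800) * p ^ 3) + c ^ 4 * (-(19363 / 518400) + (4913 / 16200) * p) := by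
  have hp1 : p ≤ 147 / 500 := by nlinarith
  have hc0 := sq_nonneg c
  have hp3 : 0 ≤ p ^ 3 := pow_nonneg hp 3
  have hd : 0 ≤ 147 / 500 - p := by linarith
  have hu : (100 / 17) * p ^ 4 ≤ (3119 / 172800) - (677 / 2700) * p + (30919 / 36000) * p ^ 2 + (22253 / 5400) * p ^ 3 - (58667 / 21600) * p ^ 4 := by
    nlinarith [mul_nonneg hp (sq_nonneg (p - 1 / 10)), sq_nonneg (p - 1 / 10), mul_nonneg hp3 hd, mul_nonneg (mul_nonneg hp hd) hd, mul_nonneg hp hd, mul_nonneg (mul_nonneg hp hp) hd]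
  have hk : (17 / 100) ≤ (52523 / 259200) - (1559 / 3240) * p + (797929 / 324000) * p ^ 2 - (22253 / 10800) * p ^ 3 + c ^ 2 * (-(19363 / 518400) + (4913 / 16200) * p) := by
    nlinarith [mul_nonneg hc0 hp, mul_nonneg (sub_nonneg.2 hc) hp, mul_nonneg hp hd, hp3, mul_nonneg (mul_nonneg hp hp) hd, sq_nonneg (p - 1 / 10), mul_nonneg hp (sq_nonneg (p - 1 / 5)), sq_nonneg (p - 1 / 5)]
  have hs : (17 / 100) * c ^ 2 - (2) * p ^ 2 * c + (100 / 17) * p ^ 4 = (17 / 100) * (c - (100 / 17) * p ^ 2) ^ 2 := by ring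
  have hs0 : 0 ≤ (17 / 100) * c ^ 2 - (2) * p ^ 2 * c + (100 / 17) * p ^ 4 := by
    rw [hs]
    positivity
  have h5 := mul_nonneg hc0 (sub_nonneg.2 hk)
  have e : ((3119 / 172800) - (677 / 2700) * p + (30919 / 36000) * p ^ 2 + (22253 / 5400) * p ^ 3 - (58667 / 21600) * p ^ 4) - (2) * p ^ 2 * c + c ^ 2 * ((52523 / 259200) - (1559 / 3240) * p + (797929 / 324000) * p ^ 2 - (22253 / 10800) * p ^ 3) + c ^ 4 * (-(19363 / 518400) + (4913 / 16200) * p) =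
      ((3119 / 172800) - (677 / 2700) * p + (30919 / 36000) * p ^ 2 + (22253 / 5400) * p ^ 3 - (58667 / 21600) * p ^ 4 - (100 / 17) * p ^ 4) + ((17 / 100) * c ^ 2 - (2) * p ^ 2 * c + (100 / 17) * p ^ 4) +
      c ^ 2 * ((52523 / 259200) - (1559 / 3240) * p + (797929 / 324000) * p ^ 2 - (22253 / 10800) * p ^ 3 + c ^ 2 * (-(19363 / 518400) + (4913 / 16200) * p) - (17 / 100)) := by ring
  rw [e]
  linarith

theorem azr_ap {p c : ℝ} (hp : 0 ≤ p) (h2 : p ^ 2 ≤ 431 / 5000) (hc : c ^ 2 ≤ 9 / 20) :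
    0 ≤ ((3119 / 172800) + (677 / 2700) * p + (30919 / 36000) * p ^ 2 - (22253 / 5400) * p ^ 3 - (58667 / 21600) * p ^ 4) - (2) * p ^ 2 * c + c ^ 2 * ((52523 / 259200) + (1559 / 3240) * p + (797929 / 324000) * p ^ 2 + (22253 / 10800) * p ^ 3) + c ^ 4 * (-(19363 / 518400) - (4913 / 16200) * p) := by
  have hp1 : p ≤ 147 / 500 := by nlinarith
  have hc0 := sq_nonneg c
  have hp3 : 0 ≤ p ^ 3 := pow_nonneg hp 3
  have hd : 0 ≤ 147 / 500 - p := by linarith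
  have hu : (50 / 89) * p ^ 3 ≤ (3119 / 172800) + (677 / 2700) * p + (30919 / 36000) * p ^ 2 - (22253 / 5400) * p ^ 3 - (58667 / 21600) * p ^ 4 := by
    nlinarith [mul_nonneg hp (sq_nonneg (p - 0)), sq_nonneg (p - 0), mul_nonneg hp3 hd, mul_nonneg (mul_nonneg hp hd) hd, mul_nonneg hp hd, mul_nonneg (mul_nonneg hp hp) hd]
  have hk : ((89 / 50) * p) ≤ (52523 / 259200) + (1559 / 3240) * p + (797929 / 324000) * p ^ 2 + (22253 / 10800) * p ^ 3 + c ^ 2 * (-(19363 / 518400) - (4913 / 16200) * p) := by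
    nlinarith [mul_nonneg hc0 hp, mul_nonneg (sub_nonneg.2 hc) hp, mul_nonneg hp hd, hp3, mul_nonneg (mul_nonneg hp hp) hd, sq_nonneg (p - 1 / 10), mul_nonneg hp (sq_nonneg (p - 1 / 5)), sq_nonneg (p - 1 / 5)]
  have hs : ((89 / 50) * p) * c ^ 2 - (2) * p ^ 2 * c + (50 / 89) * p ^ 3 = (89 / 50) * p * (c - (50 / 89) * p) ^ 2 := by ring
  have hs0 : 0 ≤ ((89 / 50) * p) * c ^ 2 - (2) * p ^ 2 * c + (50 / 89) * p ^ 3 := by
    rw [hs]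
    positivity
  have h5 := mul_nonneg hc0 (sub_nonneg.2 hk)
  have e : ((3119 / 172800) + (677 / 2700) * p + (30919 / 36000) * p ^ 2 - (22253 / 5400) * p ^ 3 - (58667 / 21600) * p ^ 4) - (2) * p ^ 2 * c + c ^ 2 * ((52523 / 259200) + (1559 / 3240) * p + (797929 / 324000) * p ^ 2 + (22253 / 10800) * p ^ 3) + c ^ 4 * (-(19363 / 518400) - (4913 / 16200) * p) =
      ((3119 / 172800) + (677 / 2700) * p + (30919 / 36000) * p ^ 2 - (22253 / 5400) * p ^ 3 - (58667 / 21600) * p ^ 4 - (50 / 89) * p ^ 3) + (((89 / 50) * p) * c ^ 2 - (2) * p ^ 2 * c + (50 / 89) * p ^ 3) +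
      c ^ 2 * ((52523 / 259200) + (1559 / 3240) * p + (797929 / 324000) * p ^ 2 + (22253 / 10800) * p ^ 3 + c ^ 2 * (-(19363 / 518400) - (4913 / 16200) * p) - ((89 / 50) * p)) := by ring
  rw [e]
  linarith

/-- ρ₁ = 1 / 4, (y₀, b₀) = (17 / 20, 17 / 20) -/
theorem azl_a {X U c : ℝ} (hX : 0 ≤ X) (hU : U ^ 2 ≤ X * (1 - c ^ 2)) (hc : c ^ 2 ≤ 1)
    (h : 8 * (1 / 4) * (1 - c) * X + 17 / 20 - (1 - c ^ 2) - 2 / 3 * c ^ 2 < 0) :
    0 ≤ (3/2 + 8*(1 / 4)*(1-c))*X + U + 17 / 20 - 3/4*(1-c^2) - 2/3*c^2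
      - 21/10*(17 / 20)^2*E4 X U (1-c^2) - 32/9*(17 / 20)^2*c^2*E2 X U (1-c^2) := by
  have hc1 : c ≤ 1 := by nlinarith
  have hc2 : c ^ 2 ≤ 9 / 20 := by nlinarith [mul_nonneg (sub_nonneg.2 hc1) hX]
  have hX1 : X ≤ 431 / 5000 := by
    by_contra hcon
    push Not at hcon
    nlinarith [mul_nonneg (sub_nonneg.2 hc1) (sub_nonneg.2 hcon.le), sq_nonneg (c - 1293 / 5000)]
  have hp := Real.sqrt_nonneg X
  have hp2 : X = √X ^ 2 := (Real.sq_sqrt hX).symm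
  rw [← azT_eq]
  refine azT_red (by norm_num) hp hp2 hc hU ?_ ?_
  · have := azr_ap hp (by rw [← hp2]; exact hX1) hc2
    refine this.trans (le_of_eq ?_)
    ring
  · have := azr_am hp (by rw [← hp2]; exact hX1) hc2
    refine this.trans (le_of_eq ?_)
    ring

theorem azr_bm {p c : ℝ} (hp : 0 ≤ p) (h2 : p ^ 2 ≤ 199 / 2500) (hc : c ^ 2 ≤ 21 / 50) :
    0 ≤ ((16007 / 691200) - (89 / 432) * p + (4039 / 5760) * p ^ 2 + (3773 / 864) * p ^ 3 - (9947 / 3456) * p ^ 4) - (2) * p ^ 2 * c + c ^ 2 * ((8699 / 41472) - (1399 / 2592) * p + (135289 / 51840) * p ^ 2 - (3773 / 1728) * p ^ 3) + c ^ 4 * (-(3283 / 82944) + (833 / 2592) * p) := by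
  have hp1 : p ≤ 283 / 1000 := by nlinarith
  have hc0 := sq_nonneg c
  have hp3 : 0 ≤ p ^ 3 := pow_nonneg hp 3
  have hd : 0 ≤ 283 / 1000 - p := by linarith
  have hu : (40 / 7) * p ^ 4 ≤ (16007 / 691200) - (89 / 432) * p + (4039 / 5760) * p ^ 2 + (3773 / 864) * p ^ 3 - (9947 / 3456) * p ^ 4 := by
    nlinarith [mul_nonneg hp (sq_nonneg (p - 9 / 100)), sq_nonneg (p - 9 / 100), mul_nonneg hp3 hd, mul_nonneg (mul_nonneg hp hd) hd, mul_nonneg hp hd, mul_nonneg (mul_nonneg hp hp) hd]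
  have hk : (7 / 40) ≤ (8699 / 41472) - (1399 / 2592) * p + (135289 / 51840) * p ^ 2 - (3773 / 1728) * p ^ 3 + c ^ 2 * (-(3283 / 82944) + (833 / 2592) * p) := by
    nlinarith [mul_nonneg hc0 hp, mul_nonneg (sub_nonneg.2 hc) hp, mul_nonneg hp hd, hp3, mul_nonneg (mul_nonneg hp hp) hd, sq_nonneg (p - 1 / 10), mul_nonneg hp (sq_nonneg (p - 1 / 5)), sq_nonneg (p - 1 / 5)]
  have hs : (7 / 40) * c ^ 2 - (2) * p ^ 2 * c + (40 / 7) * p ^ 4 = (7 / 40) * (c - (40 / 7) * p ^ 2) ^ 2 := by ring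
  have hs0 : 0 ≤ (7 / 40) * c ^ 2 - (2) * p ^ 2 * c + (40 / 7) * p ^ 4 := by
    rw [hs]
    positivity
  have h5 := mul_nonneg hc0 (sub_nonneg.2 hk)
  have e : ((16007 / 691200) - (89 / 432) * p + (4039 / 5760) * p ^ 2 + (3773 / 864) * p ^ 3 - (9947 / 3456) * p ^ 4) - (2) * p ^ 2 * c + c ^ 2 * ((8699 / 41472) - (1399 / 2592) * p + (135289 / 51840) * p ^ 2 - (3773 / 1728) * p ^ 3) + c ^ 4 * (-(3283 / 82944) + (833 / 2592) * p) =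
      ((16007 / 691200) - (89 / 432) * p + (4039 / 5760) * p ^ 2 + (3773 / 864) * p ^ 3 - (9947 / 3456) * p ^ 4 - (40 / 7) * p ^ 4) + ((7 / 40) * c ^ 2 - (2) * p ^ 2 * c + (40 / 7) * p ^ 4) +
      c ^ 2 * ((8699 / 41472) - (1399 / 2592) * p + (135289 / 51840) * p ^ 2 - (3773 / 1728) * p ^ 3 + c ^ 2 * (-(3283 / 82944) + (833 / 2592) * p) - (7 / 40)) := by ring
  rw [e]
  linarith

theorem azr_bp {p c : ℝ} (hp : 0 ≤ p) (h2 : p ^ 2 ≤ 199 / 2500) (hc : c ^ 2 ≤ 21 / 50) :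
    0 ≤ ((16007 / 691200) + (89 / 432) * p + (4039 / 5760) * p ^ 2 - (3773 / 864) * p ^ 3 - (9947 / 3456) * p ^ 4) - (2) * p ^ 2 * c + c ^ 2 * ((8699 / 41472) + (1399 / 2592) * p + (135289 / 51840) * p ^ 2 + (3773 / 1728) * p ^ 3) + c ^ 4 * (-(3283 / 82944) - (833 / 2592) * p) := by
  have hp1 : p ≤ 283 / 1000 := by nlinarith
  have hc0 := sq_nonneg c
  have hp3 : 0 ≤ p ^ 3 := pow_nonneg hp 3
  have hd : 0 ≤ 283 / 1000 - p := by linarith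
  have hu : (25 / 48) * p ^ 3 ≤ (16007 / 691200) + (89 / 432) * p + (4039 / 5760) * p ^ 2 - (3773 / 864) * p ^ 3 - (9947 / 3456) * p ^ 4 := by
    nlinarith [mul_nonneg hp (sq_nonneg (p - 7 / 25)), sq_nonneg (p - 7 / 25), mul_nonneg hp3 hd, mul_nonneg (mul_nonneg hp hd) hd, mul_nonneg hp hd, mul_nonneg (mul_nonneg hp hp) hd]
  have hk : ((48 / 25) * p) ≤ (8699 / 41472) + (1399 / 2592) * p + (135289 / 51840) * p ^ 2 + (3773 / 1728) * p ^ 3 + c ^ 2 * (-(3283 / 82944) - (833 / 2592) * p) := by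
    nlinarith [mul_nonneg hc0 hp, mul_nonneg (sub_nonneg.2 hc) hp, mul_nonneg hp hd, hp3, mul_nonneg (mul_nonneg hp hp) hd, sq_nonneg (p - 1 / 10), mul_nonneg hp (sq_nonneg (p - 1 / 5)), sq_nonneg (p - 1 / 5)]
  have hs : ((48 / 25) * p) * c ^ 2 - (2) * p ^ 2 * c + (25 / 48) * p ^ 3 = (48 / 25) * p * (c - (25 / 48) * p) ^ 2 := by ring
  have hs0 : 0 ≤ ((48 / 25) * p) * c ^ 2 - (2) * p ^ 2 * c + (25 / 48) * p ^ 3 := by
    rw [hs]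
    positivity
  have h5 := mul_nonneg hc0 (sub_nonneg.2 hk)
  have e : ((16007 / 691200) + (89 / 432) * p + (4039 / 5760) * p ^ 2 - (3773 / 864) * p ^ 3 - (9947 / 3456) * p ^ 4) - (2) * p ^ 2 * c + c ^ 2 * ((8699 / 41472) + (1399 / 2592) * p + (135289 / 51840) * p ^ 2 + (3773 / 1728) * p ^ 3) + c ^ 4 * (-(3283 / 82944) - (833 / 2592) * p) =
      ((16007 / 691200) + (89 / 432) * p + (4039 / 5760) * p ^ 2 - (3773 / 864) * p ^ 3 - (9947 / 3456) * p ^ 4 - (25 / 48) * p ^ 3) + (((48 / 25) * p) * c ^ 2 - (2) * p ^ 2 * c + (25 / 48) * p ^ 3) +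
      c ^ 2 * ((8699 / 41472) + (1399 / 2592) * p + (135289 / 51840) * p ^ 2 + (3773 / 1728) * p ^ 3 + c ^ 2 * (-(3283 / 82944) - (833 / 2592) * p) - ((48 / 25) * p)) := by ring
  rw [e]
  linarith

/-- ρ₁ = 1 / 4, (y₀, b₀) = (7 / 8, 43 / 50) -/
theorem azl_b {X U c : ℝ} (hX : 0 ≤ X) (hU : U ^ 2 ≤ X * (1 - c ^ 2)) (hc : c ^ 2 ≤ 1)
    (h : 8 * (1 / 4) * (1 - c) * X + 43 / 50 - (1 - c ^ 2) - 2 / 3 * c ^ 2 < 0) :
    0 ≤ (3/2 + 8*(1 / 4)*(1-c))*X + U + 43 / 50 - 3/4*(1-c^2) - 2/3*c^2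
      - 21/10*(7 / 8)^2*E4 X U (1-c^2) - 32/9*(7 / 8)^2*c^2*E2 X U (1-c^2) := by
  have hc1 : c ≤ 1 := by nlinarith
  have hc2 : c ^ 2 ≤ 21 / 50 := by nlinarith [mul_nonneg (sub_nonneg.2 hc1) hX]
  have hX1 : X ≤ 199 / 2500 := by
    by_contra hcon
    push Not at hcon
    nlinarith [mul_nonneg (sub_nonneg.2 hc1) (sub_nonneg.2 hcon.le), sq_nonneg (c - 597 / 2500)]
  have hp := Real.sqrt_nonneg X
  have hp2 : X = √X ^ 2 := (Real.sq_sqrt hX).symm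
  rw [← azT_eq]
  refine azT_red (by norm_num) hp hp2 hc hU ?_ ?_
  · have := azr_bp hp (by rw [← hp2]; exact hX1) hc2
    refine this.trans (le_of_eq ?_)
    ring
  · have := azr_bm hp (by rw [← hp2]; exact hX1) hc2
    refine this.trans (le_of_eq ?_)
    ring

theorem azr_cm {p c : ℝ} (hp : 0 ≤ p) (h2 : p ^ 2 ≤ 699 / 10000) (hc : c ^ 2 ≤ 3 / 8) :
    0 ≤ ((53 / 1600) - (4 / 25) * p + (539 / 1000) * p ^ 2 + (231 / 50) * p ^ 3 - (609 / 200) * p ^ 4) - (2) * p ^ 2 * c + c ^ 2 * ((521 / 2400) - (3 / 5) * p + (2761 / 1000) * p ^ 2 - (231 / 100) * p ^ 3) + c ^ 4 * (-(67 / 1600) + (17 / 50) * p) := by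
  have hp1 : p ≤ 53 / 200 := by nlinarith
  have hc0 := sq_nonneg c
  have hp3 : 0 ≤ p ^ 3 := pow_nonneg hp 3
  have hd : 0 ≤ 53 / 200 - p := by linarith
  have hu : (40 / 7) * p ^ 4 ≤ (53 / 1600) - (4 / 25) * p + (539 / 1000) * p ^ 2 + (231 / 50) * p ^ 3 - (609 / 200) * p ^ 4 := by
    nlinarith [mul_nonneg hp (sq_nonneg (p - 2 / 25)), sq_nonneg (p - 2 / 25), mul_nonneg hp3 hd, mul_nonneg (mul_nonneg hp hd) hd, mul_nonneg hp hd, mul_nonneg (mul_nonneg hp hp) hd]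
  have hk : (7 / 40) ≤ (521 / 2400) - (3 / 5) * p + (2761 / 1000) * p ^ 2 - (231 / 100) * p ^ 3 + c ^ 2 * (-(67 / 1600) + (17 / 50) * p) := by
    nlinarith [mul_nonneg hc0 hp, mul_nonneg (sub_nonneg.2 hc) hp, mul_nonneg hp hd, hp3, mul_nonneg (mul_nonneg hp hp) hd, sq_nonneg (p - 1 / 10), mul_nonneg hp (sq_nonneg (p - 1 / 5)), sq_nonneg (p - 1 / 5)]
  have hs : (7 / 40) * c ^ 2 - (2) * p ^ 2 * c + (40 / 7) * p ^ 4 = (7 / 40) * (c - (40 / 7) * p ^ 2) ^ 2 := by ring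
  have hs0 : 0 ≤ (7 / 40) * c ^ 2 - (2) * p ^ 2 * c + (40 / 7) * p ^ 4 := by
    rw [hs]
    positivity
  have h5 := mul_nonneg hc0 (sub_nonneg.2 hk)
  have e : ((53 / 1600) - (4 / 25) * p + (539 / 1000) * p ^ 2 + (231 / 50) * p ^ 3 - (609 / 200) * p ^ 4) - (2) * p ^ 2 * c + c ^ 2 * ((521 / 2400) - (3 / 5) * p + (2761 / 1000) * p ^ 2 - (231 / 100) * p ^ 3) + c ^ 4 * (-(67 / 1600) + (17 / 50) * p) =
      ((53 / 1600) - (4 / 25) * p + (539 / 1000) * p ^ 2 + (231 / 50) * p ^ 3 - (609 / 200) * p ^ 4 - (40 / 7) * p ^ 4) + ((7 / 40) * c ^ 2 - (2) * p ^ 2 * c + (40 / 7) * p ^ 4) +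
      c ^ 2 * ((521 / 2400) - (3 / 5) * p + (2761 / 1000) * p ^ 2 - (231 / 100) * p ^ 3 + c ^ 2 * (-(67 / 1600) + (17 / 50) * p) - (7 / 40)) := by ring
  rw [e]
  linarith

theorem azr_cp {p c : ℝ} (hp : 0 ≤ p) (h2 : p ^ 2 ≤ 699 / 10000) (hc : c ^ 2 ≤ 3 / 8) :
    0 ≤ ((53 / 1600) + (4 / 25) * p + (539 / 1000) * p ^ 2 - (231 / 50) * p ^ 3 - (609 / 200) * p ^ 4) - (2) * p ^ 2 * c + c ^ 2 * ((521 / 2400) + (3 / 5) * p + (2761 / 1000) * p ^ 2 + (231 / 100) * p ^ 3) + c ^ 4 * (-(67 / 1600) - (17 / 50) * p) := by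
  have hp1 : p ≤ 53 / 200 := by nlinarith
  have hc0 := sq_nonneg c
  have hp3 : 0 ≤ p ^ 3 := pow_nonneg hp 3
  have hd : 0 ≤ 53 / 200 - p := by linarith
  have hu : (50 / 103) * p ^ 3 ≤ (53 / 1600) + (4 / 25) * p + (539 / 1000) * p ^ 2 - (231 / 50) * p ^ 3 - (609 / 200) * p ^ 4 := by
    nlinarith [mul_nonneg hp (sq_nonneg (p - 13 / 50)), sq_nonneg (p - 13 / 50), mul_nonneg hp3 hd, mul_nonneg (mul_nonneg hp hd) hd, mul_nonneg hp hd, mul_nonneg (mul_nonneg hp hp) hd]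
  have hk : ((103 / 50) * p) ≤ (521 / 2400) + (3 / 5) * p + (2761 / 1000) * p ^ 2 + (231 / 100) * p ^ 3 + c ^ 2 * (-(67 / 1600) - (17 / 50) * p) := by
    nlinarith [mul_nonneg hc0 hp, mul_nonneg (sub_nonneg.2 hc) hp, mul_nonneg hp hd, hp3, mul_nonneg (mul_nonneg hp hp) hd, sq_nonneg (p - 1 / 10), mul_nonneg hp (sq_nonneg (p - 1 / 5)), sq_nonneg (p - 1 / 5)]
  have hs : ((103 / 50) * p) * c ^ 2 - (2) * p ^ 2 * c + (50 / 103) * p ^ 3 = (103 / 50) * p * (c - (50 / 103) * p) ^ 2 := by ring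
  have hs0 : 0 ≤ ((103 / 50) * p) * c ^ 2 - (2) * p ^ 2 * c + (50 / 103) * p ^ 3 := by
    rw [hs]
    positivity
  have h5 := mul_nonneg hc0 (sub_nonneg.2 hk)
  have e : ((53 / 1600) + (4 / 25) * p + (539 / 1000) * p ^ 2 - (231 / 50) * p ^ 3 - (609 / 200) * p ^ 4) - (2) * p ^ 2 * c + c ^ 2 * ((521 / 2400) + (3 / 5) * p + (2761 / 1000) * p ^ 2 + (231 / 100) * p ^ 3) + c ^ 4 * (-(67 / 1600) - (17 / 50) * p) =
      ((53 / 1600) + (4 / 25) * p + (539 / 1000) * p ^ 2 - (231 / 50) * p ^ 3 - (609 / 200) * p ^ 4 - (50 / 103) * p ^ 3) + (((103 / 50) * p) * c ^ 2 - (2) * p ^ 2 * c + (50 / 103) * p ^ 3) +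
      c ^ 2 * ((521 / 2400) + (3 / 5) * p + (2761 / 1000) * p ^ 2 + (231 / 100) * p ^ 3 + c ^ 2 * (-(67 / 1600) - (17 / 50) * p) - ((103 / 50) * p)) := by ring
  rw [e]
  linarith

/-- ρ₁ = 1 / 4, (y₀, b₀) = (9 / 10, 7 / 8) -/
theorem azl_c {X U c : ℝ} (hX : 0 ≤ X) (hU : U ^ 2 ≤ X * (1 - c ^ 2)) (hc : c ^ 2 ≤ 1)
    (h : 8 * (1 / 4) * (1 - c) * X + 7 / 8 - (1 - c ^ 2) - 2 / 3 * c ^ 2 < 0) :
    0 ≤ (3/2 + 8*(1 / 4)*(1-c))*X + U + 7 / 8 - 3/4*(1-c^2) - 2/3*c^2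
      - 21/10*(9 / 10)^2*E4 X U (1-c^2) - 32/9*(9 / 10)^2*c^2*E2 X U (1-c^2) := by
  have hc1 : c ≤ 1 := by nlinarith
  have hc2 : c ^ 2 ≤ 3 / 8 := by nlinarith [mul_nonneg (sub_nonneg.2 hc1) hX]
  have hX1 : X ≤ 699 / 10000 := by
    by_contra hcon
    push Not at hcon
    nlinarith [mul_nonneg (sub_nonneg.2 hc1) (sub_nonneg.2 hcon.le), sq_nonneg (c - 2097 / 10000)]
  have hp := Real.sqrt_nonneg X
  have hp2 : X = √X ^ 2 := (Real.sq_sqrt hX).symm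
  rw [← azT_eq]
  refine azT_red (by norm_num) hp hp2 hc hU ?_ ?_
  · have := azr_cp hp (by rw [← hp2]; exact hX1) hc2
    refine this.trans (le_of_eq ?_)
    ring
  · have := azr_cm hp (by rw [← hp2]; exact hX1) hc2
    refine this.trans (le_of_eq ?_)
    ring

theorem azr_dm {p c : ℝ} (hp : 0 ≤ p) (h2 : p ^ 2 ≤ 243 / 5000) (hc : c ^ 2 ≤ 27 / 100) :
    0 ≤ ((9959 / 172800) - (173 / 2700) * p + (7231 / 36000) * p ^ 2 + (27797 / 5400) * p ^ 3 - (73283 / 21600) * p ^ 4) - (2) * p ^ 2 * c + c ^ 2 * ((60227 / 259200) - (2351 / 3240) * p + (996721 / 324000) * p ^ 2 - (27797 / 10800) * p ^ 3) + c ^ 4 * (-(24187 / 518400) + (6137 / 16200) * p) := by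
  have hp1 : p ≤ 221 / 1000 := by nlinarith
  have hc0 := sq_nonneg c
  have hp3 : 0 ≤ p ^ 3 := pow_nonneg hp 3
  have hd : 0 ≤ 221 / 1000 - p := by linarith
  have hu : (50 / 9) * p ^ 4 ≤ (9959 / 172800) - (173 / 2700) * p + (7231 / 36000) * p ^ 2 + (27797 / 5400) * p ^ 3 - (73283 / 21600) * p ^ 4 := by
    nlinarith [mul_nonneg hp (sq_nonneg (p - 3 / 50)), sq_nonneg (p - 3 / 50), mul_nonneg hp3 hd, mul_nonneg (mul_nonneg hp hd) hd, mul_nonneg hp hd, mul_nonneg (mul_nonneg hp hp) hd]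
  have hk : (9 / 50) ≤ (60227 / 259200) - (2351 / 3240) * p + (996721 / 324000) * p ^ 2 - (27797 / 10800) * p ^ 3 + c ^ 2 * (-(24187 / 518400) + (6137 / 16200) * p) := by
    nlinarith [mul_nonneg hc0 hp, mul_nonneg (sub_nonneg.2 hc) hp, mul_nonneg hp hd, hp3, mul_nonneg (mul_nonneg hp hp) hd, sq_nonneg (p - 1 / 10), mul_nonneg hp (sq_nonneg (p - 1 / 5)), sq_nonneg (p - 1 / 5)]
  have hs : (9 / 50) * c ^ 2 - (2) * p ^ 2 * c + (50 / 9) * p ^ 4 = (9 / 50) * (c - (50 / 9) * p ^ 2) ^ 2 := by ring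
  have hs0 : 0 ≤ (9 / 50) * c ^ 2 - (2) * p ^ 2 * c + (50 / 9) * p ^ 4 := by
    rw [hs]
    positivity
  have h5 := mul_nonneg hc0 (sub_nonneg.2 hk)
  have e : ((9959 / 172800) - (173 / 2700) * p + (7231 / 36000) * p ^ 2 + (27797 / 5400) * p ^ 3 - (73283 / 21600) * p ^ 4) - (2) * p ^ 2 * c + c ^ 2 * ((60227 / 259200) - (2351 / 3240) * p + (996721 / 324000) * p ^ 2 - (27797 / 10800) * p ^ 3) + c ^ 4 * (-(24187 / 518400) + (6137 / 16200) * p) =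
      ((9959 / 172800) - (173 / 2700) * p + (7231 / 36000) * p ^ 2 + (27797 / 5400) * p ^ 3 - (73283 / 21600) * p ^ 4 - (50 / 9) * p ^ 4) + ((9 / 50) * c ^ 2 - (2) * p ^ 2 * c + (50 / 9) * p ^ 4) +
      c ^ 2 * ((60227 / 259200) - (2351 / 3240) * p + (996721 / 324000) * p ^ 2 - (27797 / 10800) * p ^ 3 + c ^ 2 * (-(24187 / 518400) + (6137 / 16200) * p) - (9 / 50)) := by ring
  rw [e]
  linarith

theorem azr_dp {p c : ℝ} (hp : 0 ≤ p) (h2 : p ^ 2 ≤ 243 / 5000) (hc : c ^ 2 ≤ 27 / 100) :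
    0 ≤ ((9959 / 172800) + (173 / 2700) * p + (7231 / 36000) * p ^ 2 - (27797 / 5400) * p ^ 3 - (73283 / 21600) * p ^ 4) - (2) * p ^ 2 * c + c ^ 2 * ((60227 / 259200) + (2351 / 3240) * p + (996721 / 324000) * p ^ 2 + (27797 / 10800) * p ^ 3) + c ^ 4 * (-(24187 / 518400) - (6137 / 16200) * p) := by
  have hp1 : p ≤ 221 / 1000 := by nlinarith
  have hc0 := sq_nonneg c
  have hp3 : 0 ≤ p ^ 3 := pow_nonneg hp 3
  have hd : 0 ≤ 221 / 1000 - p := by linarith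
  have hu : (50 / 119) * p ^ 3 ≤ (9959 / 172800) + (173 / 2700) * p + (7231 / 36000) * p ^ 2 - (27797 / 5400) * p ^ 3 - (73283 / 21600) * p ^ 4 := by
    nlinarith [mul_nonneg hp (sq_nonneg (p - 11 / 50)), sq_nonneg (p - 11 / 50), mul_nonneg hp3 hd, mul_nonneg (mul_nonneg hp hd) hd, mul_nonneg hp hd, mul_nonneg (mul_nonneg hp hp) hd]
  have hk : ((119 / 50) * p) ≤ (60227 / 259200) + (2351 / 3240) * p + (996721 / 324000) * p ^ 2 + (27797 / 10800) * p ^ 3 + c ^ 2 * (-(24187 / 518400) - (6137 / 16200) * p) := by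
    nlinarith [mul_nonneg hc0 hp, mul_nonneg (sub_nonneg.2 hc) hp, mul_nonneg hp hd, hp3, mul_nonneg (mul_nonneg hp hp) hd, sq_nonneg (p - 1 / 10), mul_nonneg hp (sq_nonneg (p - 1 / 5)), sq_nonneg (p - 1 / 5)]
  have hs : ((119 / 50) * p) * c ^ 2 - (2) * p ^ 2 * c + (50 / 119) * p ^ 3 = (119 / 50) * p * (c - (50 / 119) * p) ^ 2 := by ring
  have hs0 : 0 ≤ ((119 / 50) * p) * c ^ 2 - (2) * p ^ 2 * c + (50 / 119) * p ^ 3 := by
    rw [hs]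
    positivity
  have h5 := mul_nonneg hc0 (sub_nonneg.2 hk)
  have e : ((9959 / 172800) + (173 / 2700) * p + (7231 / 36000) * p ^ 2 - (27797 / 5400) * p ^ 3 - (73283 / 21600) * p ^ 4) - (2) * p ^ 2 * c + c ^ 2 * ((60227 / 259200) + (2351 / 3240) * p + (996721 / 324000) * p ^ 2 + (27797 / 10800) * p ^ 3) + c ^ 4 * (-(24187 / 518400) - (6137 / 16200) * p) =
      ((9959 / 172800) + (173 / 2700) * p + (7231 / 36000) * p ^ 2 - (27797 / 5400) * p ^ 3 - (73283 / 21600) * p ^ 4 - (50 / 119) * p ^ 3) + (((119 / 50) * p) * c ^ 2 - (2) * p ^ 2 * c + (50 / 119) * p ^ 3) +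
      c ^ 2 * ((60227 / 259200) + (2351 / 3240) * p + (996721 / 324000) * p ^ 2 + (27797 / 10800) * p ^ 3 + c ^ 2 * (-(24187 / 518400) - (6137 / 16200) * p) - ((119 / 50) * p)) := by ring
  rw [e]
  linarith

/-- ρ₁ = 1 / 4, (y₀, b₀) = (19 / 20, 91 / 100) -/
theorem azl_d {X U c : ℝ} (hX : 0 ≤ X) (hU : U ^ 2 ≤ X * (1 - c ^ 2)) (hc : c ^ 2 ≤ 1)
    (h : 8 * (1 / 4) * (1 - c) * X + 91 / 100 - (1 - c ^ 2) - 2 / 3 * c ^ 2 < 0) :
    0 ≤ (3/2 + 8*(1 / 4)*(1-c))*X + U + 91 / 100 - 3/4*(1-c^2) - 2/3*c^2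
      - 21/10*(19 / 20)^2*E4 X U (1-c^2) - 32/9*(19 / 20)^2*c^2*E2 X U (1-c^2) := by
  have hc1 : c ≤ 1 := by nlinarith
  have hc2 : c ^ 2 ≤ 27 / 100 := by nlinarith [mul_nonneg (sub_nonneg.2 hc1) hX]
  have hX1 : X ≤ 243 / 5000 := by
    by_contra hcon
    push Not at hcon
    nlinarith [mul_nonneg (sub_nonneg.2 hc1) (sub_nonneg.2 hcon.le), sq_nonneg (c - 729 / 5000)]
  have hp := Real.sqrt_nonneg X
  have hp2 : X = √X ^ 2 := (Real.sq_sqrt hX).symm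
  rw [← azT_eq]
  refine azT_red (by norm_num) hp hp2 hc hU ?_ ?_
  · have := azr_dp hp (by rw [← hp2]; exact hX1) hc2
    refine this.trans (le_of_eq ?_)
    ring
  · have := azr_dm hp (by rw [← hp2]; exact hX1) hc2
    refine this.trans (le_of_eq ?_)
    ring

end Pool.Agent.FPX.AZS
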