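import Mathlib
import Pool.Agent.FPX.AZQ
import Pool.Agent.FPX.AZX

/-
AZR (helper95): ring members on the levels at least `1/4` (scalar parts in AZQ).
-/

noncomputable section

namespace Pool.Agent.FPX.AZS

theorem good4_a : GoodL (1 / 4) (17 / 20) (17 / 20) := fun X U c h1 h2 h3 h4 => by
  unfold PIL
  exact azl_a h1 h2 h3 h4

theorem good4_b : GoodL (1 / 4) (7 / 8) (43 / 50) := fun X U c h1 h2 h3 h4 => by
  unfold PIL
  exact azl_b h1 h2 h3 h4

theorem good4_c : GoodL (1 / 4) (9 / 10) (7 / 8) := fun X U c h1 h2 h3 h4 => by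
  unfold PIL
  exact azl_c h1 h2 h3 h4

theorem good4_d : GoodL (1 / 4) (19 / 20) (91 / 100) := fun X U c h1 h2 h3 h4 => by
  unfold PIL
  exact azl_d h1 h2 h3 h4

end Pool.Agent.FPX.AZS
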