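import Mathlib
import Pool.Agent.FPX.BRX
import Pool.Agent.FPX.BTI

/-
BRY (helper84): the class of BTI (OM7 + `conj C₃ C₅` + `C₅`, any deviation of the start map with constant coefficients
of `∫ x E² K`, `∫ x conj E² K`, `∫ x K`): the condition `BTG.RW` from an explicit form with RATIONAL coefficients in
`Y = z_a mean(x E^n)`, `z_a conj z_b mean (x² E^n)`; components `z₀ = A`, `z₁ = conj B`, `z₂` = dual variable of the
deviation, `z₃ = N`, `z₄ = conj M`.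
-/

open MeasureTheory Set Filter Topology Complex
open scoped ENNReal NNReal ContDiff ComplexConjugate

noncomputable section

namespace Pool.Agent.FPX.BRG

open Pool.Agent.FPX.CRD (Bm)
open Pool.Agent.FPX.BTG (mo)
open Pool.Agent.FPX.BTI

variable {Ω : Type*} [MeasurableSpace Ω]

/-- the deviation: terms `c u_n conj (z_a u_n')`, `c conj z_a Z_n`, and the coefficients of `R`, `conj S`, `G` -/
structure Dv where
  D : List (ℚ × ℤ × ℕ × ℤ)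
  Q : List (ℚ × ℕ × ℤ)
  r : ℚ
  s : ℚ
  g : ℚ

def Dv.val (d : Dv) (z : ℕ → ℂ) (u Z : ℤ → ℂ) (S R G : ℂ) : ℂ :=
  (d.D.map fun t => (t.1 : ℂ) * (u t.2.1 * conj (z t.2.2.1 * u t.2.2.2))).sum
    + (d.Q.map fun t => (t.1 : ℂ) * (conj (z t.2.1) * Z t.2.2)).sum + d.r * R + d.s * conj S + d.g * G

/-- the form without `K`: rank one terms (`t1`, `t3`: for the term `τ conj A` of the deviation) -/
def tq9 (v : Fin 21 → ℚ) (im t1 t3 : ℚ) (d : Dv) : Tf :=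
  [(t1, [(1, 0, 0)], [(1, 0, 0)]), (t3, [(1, 2, 0)], [(1, 2, 0)]), (v 0, [(1, 0, 0)], [(1, 0, 0)]), (-v 0, [(1, 1, 0)], [(1, 1, 0)]),
   (-2 * v 3 + v 4 - 3 * v 17, [(1, 0, 3)], [(1, 0, 0)]), (-(-2 * v 3 + v 4 - 3 * v 17), [(1, 1, 3)], [(1, 1, 0)]),
   (5 * v 5 + v 20, [(1, 0, 5)], [(1, 0, 0)]), (-(5 * v 5 + v 20), [(1, 1, 5)], [(1, 1, 0)]),
   (7 * v 18, [(1, 0, 7)], [(1, 0, 0)]), (-(7 * v 18), [(1, 1, 7)], [(1, 1, 0)]),
   (v 6 - 3 * v 15 - v 12, [(1, 0, 3)], [(1, 0, 3)]), (-(v 6 - 3 * v 15 - v 12), [(1, 1, 3)], [(1, 1, 3)]),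
   (5 / 2 * v 7 + v 19, [(1, 0, 5)], [(1, 0, 3)]), (-(5 / 2 * v 7 + v 19), [(1, 1, 5)], [(1, 1, 3)]),
   (5 * v 15, [(1, 0, 5)], [(1, 0, 5)]), (-(5 * v 15), [(1, 1, 5)], [(1, 1, 5)]),
   (7 * v 16, [(1, 0, 7)], [(1, 0, 3)]), (-(7 * v 16), [(1, 1, 7)], [(1, 1, 3)]),
   (2 * v 11, [(1, 3, 0)], [(1, 3, 0)]), (-2 * v 11, [(1, 4, 0)], [(1, 4, 0)]),
   (v 13, [(1, 0, 3), (1, 1, 3)], [(1, 3, 0)]), (-v 13, [(1, 0, -3), (1, 1, -3)], [(1, 4, 0)]),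
   (2 * v 14, [(1, 1, 0)], [(1, 1, 0)]),
   (-im, [(1, 2, 0)], [(1, 2, 0)]),
   (-2 * d.r, [(1, 2, 3)], [(1, 0, 0)]), (-2 * d.s, [(1, 2, -3)], [(1, 1, 0)])]
  ++ d.D.map fun t => (2 * t.1, [(1, 2, t.2.1)], [(1, t.2.2.1, t.2.2.2)])

/-- the form without `K`: terms with `x²` -/
def qq9 (v : Fin 21 → ℚ) (d : Dv) : Qf :=
  [(v 1, 0, 0, 2), (-v 1, 1, 1, 2), (v 2, 0, 0, 0), (-v 2, 1, 1, 0), (2 * v 3, 0, 0, 4), (-2 * v 3, 1, 1, 4),
   (2 * d.r, 2, 0, 4), (d.r, 2, 0, 2), (-d.r, 2, 1, 2),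
   (2 * d.s, 2, 1, -4), (-d.s, 2, 0, -2), (d.s, 2, 1, -2)]
  ++ d.Q.map fun t => (2 * t.1, 2, t.2.1, t.2.2)

/-- the kernel -/
def kr9 (v : Fin 21 → ℚ) (d : Dv) : Kr where
  A := [(3, [(v 5, 0, 0), (v 7 / 2, 0, -3), (v 15, 0, -5), (-v 10, 1, 0), (-v 7 / 2, 1, -3), (-v 16, 1, -5)]),
    (-3, [(v 10, 0, 0), (v 7 / 2, 0, 3), (v 16, 0, 5), (-v 5, 1, 0), (-v 7 / 2, 1, 3), (-v 15, 1, 5)]),
    (5, [(v 18, 0, 0), (v 16, 0, -3), (-v 17, 1, 0), (-v 15, 1, -3)]),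
    (-5, [(v 17, 0, 0), (v 15, 0, 3), (-v 18, 1, 0), (-v 16, 1, 3)])]
  B := [(-2, [(v 8, 0), (-v 3, 1), (d.s, 2)]), (0, [(v 9, 0), (-v 9, 1), (d.g, 2)]), (2, [(v 3, 0), (-v 8, 1), (d.r, 2)])]

/-- the right sides of the constraints on the harmonics `1, -1, 3, -3` -/
def c9 : List (ℤ × Lf) :=
  [(1, [(1, 1, 0), (-3 / 2, 0, -3)]), (-1, [(1, 0, 0), (-3 / 2, 1, 3)]),
   (3, [(1, 4, 0), (-5 / 2, 0, -5), (3 / 2, 1, -3), (-3 / 2, 0, -3)]),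
   (-3, [(1, 3, 0), (-5 / 2, 1, 5), (3 / 2, 0, 3), (-3 / 2, 1, 3)])]

/-- constraints and multipliers -/
def cl9 (m1 m2 m3 m4 : Lf) : Cl :=
  [(1, [(1, 1, 0), (-3 / 2, 0, -3)], m1), (-1, [(1, 0, 0), (-3 / 2, 1, 3)], m2),
   (3, [(1, 4, 0), (-5 / 2, 0, -5), (3 / 2, 1, -3), (-3 / 2, 0, -3)], m3),
   (-3, [(1, 3, 0), (-5 / 2, 1, 5), (3 / 2, 0, 3), (-3 / 2, 1, 3)], m4)]

/-- a real weight `Σ c_k Re e^{2k}` -/
abbrev Wr := List (ℚ × ℕ)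

def Wr.t (p : ℚ × ℕ) : Wl := if p.2 = 0 then [(p.1, (0 : ℤ))] else [(p.1 / 2, 2 * (p.2 : ℤ)), (p.1 / 2, -(2 * (p.2 : ℤ)))]

def Wr.L (w : Wr) : Wl := w.flatMap Wr.t

def qr (w : Wr) (e : ℂ) : ℝ := (w.map fun p => (p.1 : ℝ) * (e ^ (2 * p.2)).re).sum

theorem qr_cons (p : ℚ × ℕ) (w : Wr) (e : ℂ) : qr (p :: w) e = (p.1 : ℝ) * (e ^ (2 * p.2)).re + qr w e := by
  simp [qr]

theorem we_append (w w' : Wl) (e : ℂ) : we (w ++ w') e = we w e + we w' e := by simp [we]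

theorem we_L (w : Wr) {e : ℂ} (he : ‖e‖ = 1) : we w.L e = ((qr w e : ℝ) : ℂ) := by
  have he' : e * conj e = 1 := by rw [Complex.mul_conj, Complex.normSq_eq_norm_sq, he]; norm_num
  have hi : e⁻¹ = conj e := (eq_inv_of_mul_eq_one_right he').symm
  induction w with
  | nil => simp [Wr.L, we, qr]
  | cons p w ih =>
    have : Wr.L (p :: w) = Wr.t p ++ Wr.L w := rfl
    rw [this, we_append, ih, qr_cons]
    unfold Wr.t
    by_cases h : p.2 = 0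
    · rw [if_pos h, h]
      simp [we]
    · rw [if_neg h]
      have e1 : e ^ (-(2 * (p.2 : ℤ))) = conj (e ^ (2 * p.2)) := by
        rw [zpow_neg, map_pow, ← hi, inv_pow]
        norm_cast
      have e2 : e ^ (2 * (p.2 : ℤ)) = e ^ (2 * p.2) := by norm_cast
      have e3 : ((((e ^ (2 * p.2)).re : ℝ)) : ℂ) = (e ^ (2 * p.2) + conj (e ^ (2 * p.2))) / 2 := by
        rw [Complex.add_conj]
        push_cast
        ring
      simp only [we, List.map_cons, List.map_nil, List.sum_cons, List.sum_nil, e1, e2]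
      push_cast
      rw [e3]
      ring

theorem qr_cont (w : Wr) : Continuous (qr w) := by
  induction w with
  | nil => exact continuous_const
  | cons p w ih =>
    have : qr (p :: w) = fun e => (p.1 : ℝ) * (e ^ (2 * p.2)).re + qr w e := funext fun e => qr_cons p w e
    rw [this]
    exact (continuous_const.mul (Complex.continuous_re.comp (continuous_pow _))).add ih

theorem L_ev (w : Wr) : w.L.ev = true := by
  induction w with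
  | nil => rfl
  | cons p w ih =>
    have : Wr.L (p :: w) = Wr.t p ++ Wr.L w := rfl
    unfold Wl.ev at ih ⊢
    rw [this, List.all_append, ih, Bool.and_true]
    unfold Wr.t
    split_ifs
    · simp
    · simp only [List.all_cons, List.all_nil, Bool.and_true, Bool.and_eq_true, decide_eq_true_eq]
      omega

/-- the form: rank one terms -/
def F9T (v : Fin 21 → ℚ) (im t1 t3 : ℚ) (d : Dv) (m1 m2 m3 m4 : Lf) (w : Wr) : Tf :=
  FT (tq9 v im t1 t3 d) (cl9 m1 m2 m3 m4) (kr9 v d) w.L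

/-- the form: terms with `x²` -/
def F9Q (v : Fin 21 → ℚ) (d : Dv) (m1 m2 m3 m4 : Lf) (w : Wr) : Qf :=
  FQ (qq9 v d) (cl9 m1 m2 m3 m4) (kr9 v d) w.L

theorem par9 (v : Fin 21 → ℚ) (d : Dv) (m1 m2 m3 m4 : Lf) : ((cl9 m1 m2 m3 m4).kr (kr9 v d)).par = true := by
  simp [Kr.par, Cl.kr, cl9, kr9]

section main

variable {Q : Type} [Fintype Q] {Ψ : Psi9 Q} {ν : Measure Ω} {x : Ω → ℝ} {E : Ω → ℂ}

/-- the variables -/
def zz (A B z N M : ℂ) : ℕ → ℂ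
  | 0 => A
  | 1 => conj B
  | 2 => z
  | 3 => N
  | 4 => conj M
  | _ => 0

theorem mo_vl {n : ℕ} (hn : n ≠ 0) : vl ν x E (n : ℤ) = ∫ t, (x t : ℂ) * E t ^ n ∂ν := by
  unfold vl Zr
  rw [if_neg (by exact_mod_cast hn)]
  simp

theorem e2_D (D : List (ℚ × ℤ × ℕ × ℤ)) (z : ℕ → ℂ) (u : ℤ → ℂ) :
    e2 z u (D.map fun t => (2 * t.1, [((1 : ℚ), (2 : ℕ), t.2.1)], [((1 : ℚ), t.2.2.1, t.2.2.2)])) =
      2 * (z 2 * (D.map fun t => (t.1 : ℂ) * (u t.2.1 * conj (z t.2.2.1 * u t.2.2.2))).sum) := by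
  induction D with
  | nil => simp
  | cons t D ih =>
    rw [List.map_cons, e2_cons, ih, List.map_cons, List.sum_cons]
    simp only [ev_cons, ev_nil, add_zero]
    push_cast
    ring

theorem eq2_Q (L : List (ℚ × ℕ × ℤ)) (z : ℕ → ℂ) (Z : ℤ → ℂ) :
    eq2 z Z (L.map fun t => (2 * t.1, (2 : ℕ), t.2.1, t.2.2)) =
      2 * (z 2 * (L.map fun t => (t.1 : ℂ) * (conj (z t.2.1) * Z t.2.2)).sum) := by
  induction L with
  | nil => simp
  | cons t L ih =>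
    rw [List.map_cons, eq2_cons, ih, List.map_cons, List.sum_cons]
    push_cast
    ring

/-- **the condition `RW` for any reciprocal weight** -/
theorem RW9_of_q (H : Fr ν x E) {v : Fin 21 → ℚ} {u : Q → ℝ} {μ im : ℚ} (hμ : 0 < μ) (him : im * (2 * μ) ≤ 1)
    {d : Dv} {τ : ℂ} (hd : ∀ A B z N M S R G : ℂ, dev9 Ψ u (mo (C9 Ψ) ν x E) A B N M S R G =
      d.val (zz A B z N M) (vl ν x E) (Zr 2 ν x E) S R G + τ * conj A)
    {t1 t3 : ℚ} (ht1 : 0 ≤ t1) (ht3 : 0 ≤ t3) (hτ : ‖τ‖ ^ 2 ≤ t1 * t3)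
    {q : ℂ → ℝ → ℝ} (hq : Continuous (fun p : ℂ × ℝ => q p.1 p.2))
    (hp : ∀ e x, ‖e‖ = 1 → |x| ≤ 1 → 0 < q e x) {T : ℝ} (hT : ∫ t, 1 / q (E t) (x t) ∂ν ≤ T) {m1 m2 m3 m4 : Lf}
    (h : ∀ z : ℕ → ℂ, (e2 z (vl ν x E) (tq9 v im t1 t3 d) + eq2 z (Zr 2 ν x E) (qq9 v d)).re
        - 2 * (((cl9 m1 m2 m3 m4).map fun c => BRG.ev z (vl ν x E) c.2.2 * conj (BRG.ev z (vl ν x E) c.2.1)).sum).re
        + ∫ t, ‖((cl9 m1 m2 m3 m4).kr (kr9 v d)).f z (vl ν x E) (E t) (x t)‖ ^ 2 * q (E t) (x t) ∂ν ≤ 0) :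
    BTG.RW (C9 Ψ) ν x E (fun i => ((v i : ℚ) : ℝ)) u μ T := by
  refine RW9 Ψ hq hp hT fun A B N M S R G G' => ?_
  set m := mo (C9 Ψ) ν x E with hm
  set dv := dev9 Ψ u m A B N M S R G with hdv
  set z3 : ℂ := 2 * μ * conj dv with hz3
  set zv := zz A B z3 N M with hzv
  have F := h zv
  set U := vl ν x E with hU
  set Z := Zr 2 ν x E with hZ
  have u0 : U 0 = 1 := by rw [hU]; simp [vl]
  have n3 : U (-3) = conj (U 3) := H.vl_neg 3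
  have n5 : U (-5) = conj (U 5) := H.vl_neg 5
  have y2 : Z (-2) = conj (Z 2) := H.zc 2 2
  have y4 : Z (-4) = conj (Z 4) := H.zc 2 4
  have e0 : m 0 = U 3 := (mo_vl (n := 3) (by norm_num)).symm
  have e1 : m 1 = U 5 := (mo_vl (n := 5) (by norm_num)).symm
  have e2' : m 2 = U 7 := (mo_vl (n := 7) (by norm_num)).symm
  have mz : ∀ n : ℕ, Z (n : ℤ) = ∫ t, (x t : ℂ) ^ 2 * E t ^ n ∂ν := fun n => by
    rw [hZ]
    unfold Zr
    simp
  have e3 : m 3 = Z 0 := by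
    have := mz 0
    simp only [Nat.cast_zero, pow_zero, mul_one] at this
    rw [this]
    rfl
  have e4 : m 4 = Z 2 := (mz 2).symm
  have e5 : m 5 = Z 4 := (mz 4).symm
  -- the kernel
  have hker : ∀ t, ((cl9 m1 m2 m3 m4).kr (kr9 v d)).f zv U (E t) (x t) =
      h9 (fun i => ((v i : ℚ) : ℝ)) m A B (BRG.ev zv U m1) (BRG.ev zv U m2) (BRG.ev zv U m3) (BRG.ev zv U m4)
        (d.r * z3) (d.s * z3) (d.g * z3) 0 (E t) (x t) := by
    intro t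
    rw [Cl.f_eq]
    have hn := H.ne t
    have p1 : E t ^ (-1 : ℤ) = conj (E t) := by rw [zpow_neg_one, H.cinv]
    have p3 : E t ^ (-3 : ℤ) = conj (E t) ^ 3 := by rw [zpow_neg, H.cinv, inv_pow]; norm_cast
    have p5 : E t ^ (-5 : ℤ) = conj (E t) ^ 5 := by rw [zpow_neg, H.cinv, inv_pow]; norm_cast
    have p2 : E t ^ (-2 : ℤ) = conj (E t) ^ 2 := by rw [zpow_neg, H.cinv, inv_pow]; norm_cast
    have q3 : E t ^ (3 : ℤ) = E t ^ 3 := by norm_cast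
    have q5 : E t ^ (5 : ℤ) = E t ^ 5 := by norm_cast
    have q2 : E t ^ (2 : ℤ) = E t ^ 2 := by norm_cast
    have hre : ∀ w : ℂ, ((w.re : ℝ) : ℂ) = (w + conj w) / 2 := fun w => by
      rw [Complex.add_conj]
      push_cast
      ring
    unfold h9 ke9
    rw [e0, e1, hre]
    simp only [Kr.f, Kr.pA, Kr.pB, cl9, kr9, pe, BRG.ev, bev, List.map_cons, List.map_nil, List.sum_cons,
      List.sum_nil, p1, p2, p3, p5, q2, q3, q5, zpow_zero, zpow_one, n3, n5, u0, hzv, zz, map_add, map_mul, map_pow,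
      Complex.conj_ofReal, Complex.conj_conj, map_div₀, Complex.conj_ofNat]
    push_cast
    ring
  simp only [hker] at F
  refine ⟨BRG.ev zv U m1, BRG.ev zv U m2, BRG.ev zv U m3, BRG.ev zv U m4, d.r * z3, d.s * z3, d.g * z3, 0, ?_⟩
  -- the deviation
  have hμ' : (0 : ℝ) < (μ : ℝ) := by exact_mod_cast hμ
  have hdv' := hd A B z3 N M S R G
  rw [← hdv, ← hzv] at hdv'
  unfold Dv.val at hdv'
  have key : 2 * (μ : ℝ) * ‖dv‖ ^ 2 ≤ 2 * (z3 * dv).re - (im : ℝ) * ‖z3‖ ^ 2 := by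
    have h1 : (z3 * dv).re = 2 * (μ : ℝ) * ‖dv‖ ^ 2 := by
      have : z3 * dv = ((2 * (μ : ℝ) * ‖dv‖ ^ 2 : ℝ) : ℂ) := by
        rw [hz3, mul_assoc, mul_comm (conj dv), Complex.mul_conj, Complex.normSq_eq_norm_sq]
        push_cast
        ring
      rw [this, Complex.ofReal_re]
    have h2 : ‖z3‖ ^ 2 = 4 * (μ : ℝ) ^ 2 * ‖dv‖ ^ 2 := by
      rw [hz3, norm_mul, norm_mul, Complex.norm_conj]
      have a1 : ‖(2 : ℂ)‖ = 2 := by norm_num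
      have a2 : ‖((μ : ℚ) : ℂ)‖ = (μ : ℝ) := by
        rw [show ((μ : ℚ) : ℂ) = (((μ : ℚ) : ℝ) : ℂ) by push_cast; rfl, Complex.norm_real, Real.norm_eq_abs,
          abs_of_pos hμ']
      rw [a1, a2]
      ring
    rw [h1, h2]
    have h3 : (im : ℝ) * (2 * μ) ≤ 1 := by exact_mod_cast him
    have h4 : 0 ≤ 2 * (μ : ℝ) * ‖dv‖ ^ 2 := by positivity
    nlinarith
  set DD : ℂ := (d.D.map fun t => (t.1 : ℂ) * (U t.2.1 * conj (zv t.2.2.1 * U t.2.2.2))).sum with hDD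
  set QS : ℂ := (d.Q.map fun t => (t.1 : ℂ) * (conj (zv t.2.1) * Z t.2.2)).sum with hQS
  have ET := e2_D d.D zv U
  have EQ := eq2_Q d.Q zv Z
  rw [← hDD] at ET
  rw [← hQS] at EQ
  have z2 : zv 2 = z3 := rfl
  rw [z2] at ET EQ
  rw [hdv'] at key
  have hττ : 2 * (z3 * (τ * conj A)).re ≤ (t1 : ℝ) * ‖A‖ ^ 2 + (t3 : ℝ) * ‖z3‖ ^ 2 := by
    have h1 : (z3 * (τ * conj A)).re ≤ ‖z3‖ * (‖τ‖ * ‖A‖) := by
      refine (Complex.re_le_norm _).trans ?_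
      rw [norm_mul z3, norm_mul τ, Complex.norm_conj]
    have b1 : (0 : ℝ) ≤ (t1 : ℝ) := by exact_mod_cast ht1
    have b3 : (0 : ℝ) ≤ (t3 : ℝ) := by exact_mod_cast ht3
    have h2 : ‖τ‖ ≤ Real.sqrt t1 * Real.sqrt t3 := by
      rw [← Real.sqrt_mul b1]
      exact Real.le_sqrt_of_sq_le hτ
    have h3 : ‖z3‖ * (‖τ‖ * ‖A‖) ≤ ‖z3‖ * (Real.sqrt t1 * Real.sqrt t3 * ‖A‖) := by gcongr
    have h4 := Real.sq_sqrt b1
    have h5 := Real.sq_sqrt b3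
    nlinarith [sq_nonneg (Real.sqrt t1 * ‖A‖ - Real.sqrt t3 * ‖z3‖)]
  refine le_trans ?_ F
  refine add_le_add ?_ le_rfl
  unfold rst9
  rw [← hdv, hdv']
  rw [sq_re A, sq_re z3] at hττ
  unfold tq9 qq9
  rw [e2_append, eq2_append, ET, EQ]
  clear_value z3
  simp only [cl9, List.map_cons, List.map_nil, List.sum_cons, List.sum_nil, e2_cons, e2_nil, eq2_cons, eq2_nil,
    ev_cons, ev_nil, hzv, zz, n3, n5, y2, y4, u0, e0, e1, e2', e3, e4, e5, om9, bb9]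
  clear_value DD QS
  generalize BRG.ev (zz A B z3 N M) U m1 = a1
  generalize BRG.ev (zz A B z3 N M) U m2 = a2
  generalize BRG.ev (zz A B z3 N M) U m3 = a3
  generalize BRG.ev (zz A B z3 N M) U m4 = a4
  have cr : ∀ q : ℚ, ((q : ℂ)).re = (q : ℝ) := fun q => Complex.ratCast_re q
  have ci : ∀ q : ℚ, ((q : ℂ)).im = 0 := fun q => Complex.ratCast_im q
  generalize hT : (z3 * (τ * conj A)).re = tt at hττ
  have key' : 2 * (μ : ℝ) * ‖DD + QS + (d.r : ℂ) * R + (d.s : ℂ) * conj S + (d.g : ℂ) * G + τ * conj A‖ ^ 2 ≤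
      2 * tt + 2 * ((z3.re * DD.re - z3.im * DD.im) + (z3.re * QS.re - z3.im * QS.im)
        + (d.r : ℝ) * (z3.re * R.re - z3.im * R.im) + (d.s : ℝ) * (z3.re * S.re + z3.im * S.im)
        + (d.g : ℝ) * (z3.re * G.re - z3.im * G.im)) - (im : ℝ) * (z3.re * z3.re + z3.im * z3.im) := by
    refine key.trans (le_of_eq ?_)
    rw [sq_re z3, mul_add, Complex.add_re, hT]
    simp only [Complex.add_re, Complex.mul_re, Complex.add_im, Complex.mul_im, Complex.conj_re, Complex.conj_im,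
      cr, ci]
    ring
  generalize ‖DD + QS + (d.r : ℂ) * R + (d.s : ℂ) * conj S + (d.g : ℂ) * G + τ * conj A‖ ^ 2 = dn at key' ⊢
  have Z0 : (Z 0).im = 0 := by
    have h := H.zc 2 0
    rw [neg_zero] at h
    have := congrArg Complex.im h
    rw [Complex.conj_im] at this
    rw [hZ]
    linarith
  simp only [sq_re, Complex.add_re, Complex.mul_re, Complex.add_im, Complex.mul_im, Complex.conj_re, Complex.conj_im,
    Complex.sub_re, Complex.sub_im, cr, ci, Z0, map_mul, map_add, map_sub, map_zero, Complex.div_ofNat_re,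
    Complex.div_ofNat_im, Complex.one_re, Complex.one_im, Complex.zero_re, Complex.zero_im, Complex.re_ofNat,
    Complex.im_ofNat, Complex.conj_conj, Rat.cast_neg, Rat.cast_mul, Rat.cast_add, Rat.cast_sub, Rat.cast_div,
    Rat.cast_ofNat, Rat.cast_one, Complex.neg_re, Complex.neg_im]
  linarith

/-- **the condition `RW` from the form** -/
theorem RW9_of_F (H : Fr ν x E) {v : Fin 21 → ℚ} {u : Q → ℝ} {μ im : ℚ} (hμ : 0 < μ) (him : im * (2 * μ) ≤ 1)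
    {d : Dv} {τ : ℂ} (hd : ∀ A B z N M S R G : ℂ, dev9 Ψ u (mo (C9 Ψ) ν x E) A B N M S R G =
      d.val (zz A B z N M) (vl ν x E) (Zr 2 ν x E) S R G + τ * conj A)
    {t1 t3 : ℚ} (ht1 : 0 ≤ t1) (ht3 : 0 ≤ t3) (hτ : ‖τ‖ ^ 2 ≤ t1 * t3)
    {w : Wr} (hp : ∀ e : ℂ, ‖e‖ = 1 → 0 < qr w e) {T : ℝ} (hT : ∫ t, 1 / qr w (E t) ∂ν ≤ T) {m1 m2 m3 m4 : Lf}
    (h : ∀ z : ℕ → ℂ, 0 ≤ (e2 z (vl ν x E) (F9T v im t1 t3 d m1 m2 m3 m4 w)
      + eq2 z (Zr 2 ν x E) (F9Q v d m1 m2 m3 m4 w)).re) :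
    BTG.RW (C9 Ψ) ν x E (fun i => ((v i : ℚ) : ℝ)) u μ T := by
  refine RW9_of_q (q := fun e _ => qr w e) (m1 := m1) (m2 := m2) (m3 := m3) (m4 := m4) H hμ him hd ht1 ht3 hτ
    ((qr_cont w).comp continuous_fst) (fun e _ he _ => hp e he) hT fun z => ?_
  have F := h z
  have hr : ∀ e : ℂ, ‖e‖ = 1 → (we w.L e).im = 0 := fun e he => by rw [we_L w he, Complex.ofReal_im]
  unfold F9T F9Q at F
  rw [H.F_eq _ _ _ _ (par9 v d m1 m2 m3 m4) _ (L_ev w) hr] at F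
  have hI : ∫ t, ‖((cl9 m1 m2 m3 m4).kr (kr9 v d)).f z (vl ν x E) (E t) (x t)‖ ^ 2 * (we w.L (E t)).re ∂ν =
      ∫ t, ‖((cl9 m1 m2 m3 m4).kr (kr9 v d)).f z (vl ν x E) (E t) (x t)‖ ^ 2 * qr w (E t) ∂ν := by
    refine integral_congr_ae (Eventually.of_forall fun t => ?_)
    simp only
    rw [we_L w (H.norm1 t), Complex.ofReal_re]
  rw [hI] at F
  linarith

end main

end Pool.Agent.FPX.BRG
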