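import Mathlib
import Pool.Agent.FPX.BRY
import Pool.Agent.FPX.BRH

/-
BRZ (helper84): the final lists: Parseval multipliers (optimal for the weight `1`), elimination of `N` and `conj M`,
the state class in the visual angle.
-/

open MeasureTheory Set Filter Topology Complex
open scoped ENNReal NNReal ContDiff ComplexConjugate

noncomputable section

namespace Pool.Agent.FPX.BRG

open Pool.Agent.FPX.ALX (St)
open Pool.Agent.FPX.BTN (va e1)
open Pool.Agent.FPX.BTG (mo)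
open Pool.Agent.FPX.BTI

/-- the coefficients of `x conj E²`, `x`, `x E²` in the kernel -/
def bm9 (v : Fin 21 → ℚ) (d : Dv) : Bf := [(v 8, 0), (-v 3, 1), (d.s, 2)]
def b09 (v : Fin 21 → ℚ) (d : Dv) : Bf := [(v 9, 0), (-v 9, 1), (d.g, 2)]
def bp9 (v : Fin 21 → ℚ) (d : Dv) : Bf := [(v 3, 0), (-v 8, 1), (d.r, 2)]

/-- the optimal multipliers for the weight `1` -/
def pm1 (v : Fin 21 → ℚ) (d : Dv) : Lf := [(1, 1, 0), (-3 / 2, 0, -3)] ++ smL (-1) (sh (bm9 v d) (-3))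
def pm2 (v : Fin 21 → ℚ) (d : Dv) : Lf := [(1, 0, 0), (-3 / 2, 1, 3)] ++ smL (-1) (sh (bp9 v d) 3)
def pm3 (v : Fin 21 → ℚ) (d : Dv) : Lf :=
  [(1, 4, 0), (-5 / 2, 0, -5), (3 / 2, 1, -3), (-3 / 2, 0, -3)]
    ++ smL (-1) ([(v 5, 0, 0), (v 7 / 2, 0, -3), (v 15, 0, -5), (-v 10, 1, 0), (-v 7 / 2, 1, -3), (-v 16, 1, -5)]
      ++ sh (b09 v d) (-3) ++ sh (bm9 v d) (-5))
def pm4 (v : Fin 21 → ℚ) (d : Dv) : Lf :=
  [(1, 3, 0), (-5 / 2, 1, 5), (3 / 2, 0, 3), (-3 / 2, 1, 3)]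
    ++ smL (-1) ([(v 10, 0, 0), (v 7 / 2, 0, 3), (v 16, 0, 5), (-v 5, 1, 0), (-v 7 / 2, 1, 3), (-v 15, 1, 5)]
      ++ sh (b09 v d) 3 ++ sh (bp9 v d) 5)

/-- merging equal indices of a linear form -/
def ins (c : ℚ) (i : ℕ × ℤ) : Lf → Lf
  | [] => [(c, i)]
  | t :: l => if t.2 = i then (t.1 + c, i) :: l else t :: ins c i l

def mrg : Lf → Lf
  | [] => []
  | t :: l => ins t.1 t.2 (mrg l)

/-- removing zeros -/
def cln (l : Lf) : Lf := l.filter fun t => t.1 ≠ 0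

def mrgT (T : Tf) : Tf := (T.map fun t => (t.1, cln (mrg t.2.1), cln (mrg t.2.2))).filter fun t =>
  t.1 ≠ 0 && (!t.2.1.isEmpty && !t.2.2.isEmpty)

theorem ev_ins (z : ℕ → ℂ) (u : ℤ → ℂ) (c : ℚ) (i : ℕ × ℤ) (l : Lf) :
    BRG.ev z u (ins c i l) = (c : ℂ) * (z i.1 * u i.2) + BRG.ev z u l := by
  induction l with
  | nil => simp [ins]
  | cons t l ih =>
    unfold ins
    split_ifs with h
    · rw [ev_cons, ev_cons]
      simp only
      rw [← h]
      push_cast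
      ring
    · rw [ev_cons, ih, ev_cons]
      ring

theorem ev_mrg (z : ℕ → ℂ) (u : ℤ → ℂ) (l : Lf) : BRG.ev z u (mrg l) = BRG.ev z u l := by
  induction l with
  | nil => rfl
  | cons t l ih =>
    unfold mrg
    rw [ev_ins, ih, ev_cons]

theorem ev_cln (z : ℕ → ℂ) (u : ℤ → ℂ) (l : Lf) : BRG.ev z u (cln l) = BRG.ev z u l := by
  induction l with
  | nil => rfl
  | cons t l ih =>
    by_cases h : t.1 = 0
    · have : cln (t :: l) = cln l := by simp [cln, h]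
      rw [this, ih, ev_cons, h]
      simp
    · have : cln (t :: l) = t :: cln l := by simp [cln, h]
      rw [this, ev_cons, ih, ev_cons]

theorem e2_mrgT (z : ℕ → ℂ) (u : ℤ → ℂ) (T : Tf) : e2 z u (mrgT T) = e2 z u T := by
  induction T with
  | nil => rfl
  | cons t T ih =>
    have h0 : BRG.ev z u (cln (mrg t.2.1)) = BRG.ev z u t.2.1 := by rw [ev_cln, ev_mrg]
    have h1 : BRG.ev z u (cln (mrg t.2.2)) = BRG.ev z u t.2.2 := by rw [ev_cln, ev_mrg]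
    have e : mrgT (t :: T) = (if (decide (t.1 ≠ 0) && (!(cln (mrg t.2.1)).isEmpty && !(cln (mrg t.2.2)).isEmpty)) = true
        then [(t.1, cln (mrg t.2.1), cln (mrg t.2.2))] else []) ++ mrgT T := by
      unfold mrgT
      rw [List.map_cons, List.filter_cons]
      split_ifs <;> rfl
    rw [e, e2_append, ih, e2_cons]
    congr 1
    split_ifs with h
    · rw [e2_cons, e2_nil, add_zero, h0, h1]
    · rw [e2_nil]
      simp only [Bool.and_eq_true, decide_eq_true_eq, Bool.not_eq_true', not_and_or, not_not] at h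
      rcases h with h | h | h
      · rw [h]
        simp
      · rw [← h0]
        have : cln (mrg t.2.1) = [] := by simpa using h
        rw [this]
        simp
      · rw [← h1]
        have : cln (mrg t.2.2) = [] := by simpa using h
        rw [this]
        simp

/-- the rank one terms before the eliminations -/
def PT0 (v : Fin 21 → ℚ) (im t1 t3 : ℚ) (d : Dv) : Tf :=
  mrgT (F9T v im t1 t3 d (pm1 v d) (pm2 v d) (pm3 v d) (pm4 v d) [(1, 0)])

/-- **the rank one terms**: components `0, 1, 2`; `k3`, `k4` the constants of the eliminations of `N`, `conj M` -/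
def PT (v : Fin 21 → ℚ) (im t1 t3 : ℚ) (d : Dv) (k3 k4 : ℚ) : Tf :=
  mrgT (elim 4 k4 (elim 3 k3 (PT0 v im t1 t3 d)))

/-- **the terms with `x²`** -/
def PQ (v : Fin 21 → ℚ) (d : Dv) : Qf := F9Q v d (pm1 v d) (pm2 v d) (pm3 v d) (pm4 v d) [(1, 0)]

/-- the conditions on the constants of the eliminations -/
def Pok (v : Fin 21 → ℚ) (im t1 t3 : ℚ) (d : Dv) (k3 k4 : ℚ) : Bool :=
  okT 3 (PT0 v im t1 t3 d) && (0 ≤ k3 && (1 ≤ k3 * lam 3 (PT0 v im t1 t3 d) &&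
    (okT 4 (elim 3 k3 (PT0 v im t1 t3 d)) && (0 ≤ k4 && 1 ≤ k4 * lam 4 (elim 3 k3 (PT0 v im t1 t3 d))))))

/-- **`RW` for the class `St s` from the form** (weight `1`, deviation of the start map `d`) -/
theorem RW_of_PT {Q : Type} [Fintype Q] {Ψ : Psi9 Q} {s : ℝ} {X : ℝ → ℝ} (hX : St s X) (hb : ∀ a, |X a| ≤ 1)
    {v : Fin 21 → ℚ} {u : Q → ℝ} {μ im : ℚ} (hμ : 0 < μ) (him : im * (2 * μ) ≤ 1)
    {d : Dv} {τ : ℂ} (hd : ∀ A B z N M S R G : ℂ, dev9 Ψ u (mo (C9 Ψ) va X e1) A B N M S R G =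
      d.val (zz A B z N M) (vl va X e1) (Zr 2 va X e1) S R G + τ * conj A)
    {t1 t3 : ℚ} (ht1 : 0 ≤ t1) (ht3 : 0 ≤ t3) (hτ : ‖τ‖ ^ 2 ≤ t1 * t3) {k3 k4 : ℚ}
    (hk : Pok v im t1 t3 d k3 k4 = true)
    (h : ∀ z : ℕ → ℂ, 0 ≤ (e2 z (vl va X e1) (PT v im t1 t3 d k3 k4) + eq2 z (Zr 2 va X e1) (PQ v d)).re) :
    BTG.RW (C9 Ψ) va X e1 (fun i => ((v i : ℚ) : ℝ)) u μ 1 := by
  have H := fr_va hX hb
  have u0 : vl va X e1 0 = 1 := by simp [vl]
  unfold Pok at hk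
  simp only [Bool.and_eq_true, decide_eq_true_eq] at hk
  obtain ⟨o3, p3, q3, o4, p4, q4⟩ := hk
  have w1 : ∀ e : ℂ, qr [(1, 0)] e = 1 := fun e => by simp [qr]
  refine RW9_of_F (m1 := pm1 v d) (m2 := pm2 v d) (m3 := pm3 v d) (m4 := pm4 v d) (w := [(1, 0)]) H hμ him hd
    ht1 ht3 hτ (fun e _ => by rw [w1]; exact one_pos) (by simp only [w1]; simp) fun z => ?_
  have h' := h z
  rw [Complex.add_re] at h' ⊢
  have i4 := elim_le (z := z) u0 o4 p4 q4
  have i3 := elim_le (z := z) u0 o3 p3 q3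
  unfold PT at h'
  rw [e2_mrgT] at h'
  have e0 : e2 z (vl va X e1) (PT0 v im t1 t3 d) = e2 z (vl va X e1)
      (F9T v im t1 t3 d (pm1 v d) (pm2 v d) (pm3 v d) (pm4 v d) [(1, 0)]) := by
    unfold PT0
    rw [e2_mrgT]
  rw [e0] at i3
  have e5 : PQ v d = F9Q v d (pm1 v d) (pm2 v d) (pm3 v d) (pm4 v d) [(1, 0)] := rfl
  rw [e5] at h'
  linarith

/-- no deviation -/
def d0 : Dv := ⟨[], [], 0, 0, 0⟩

end Pool.Agent.FPX.BRG
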