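import Mathlib
import Pool.Agent.FPX.BRZ
import Pool.Agent.FPX.BTM

/-
BR8 (helper84): the list `Psi8` of the terms of the deviation of `xi8` in the format of BRY; the final conditions for
the class `C9 Psi8`, and for no deviation (two components).
-/

open MeasureTheory Set Filter Topology Complex
open scoped ENNReal NNReal ContDiff ComplexConjugate

noncomputable section

namespace Pool.Agent.FPX.BRG

open Pool.Agent.FPX.ALX (St)
open Pool.Agent.FPX.BTN (va e1)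
open Pool.Agent.FPX.BTG (mo)
open Pool.Agent.FPX.BTI

variable {Ω : Type*} [MeasurableSpace Ω]

/-- the deviation of `xi8` with the coefficients `U` (the slots `26, 27` are not used) -/
def dv8 (U : Fin 28 → ℚ) : Dv where
  D := [(U 0, 0, 1, 0), (U 1, 3, 1, 0), (U 2, -3, 1, 0), (U 3, 3, 1, 3), (U 4, 3, 1, -3), (U 5, -3, 1, 3),
    (U 9, 3, 0, 0), (U 10, -3, 0, 0), (U 11, 3, 0, 3), (U 12, 3, 0, -3), (U 13, -3, 0, 3),
    (U 17, 0, 4, 0), (U 18, -3, 4, 0), (U 19, 3, 4, 0), (U 20, 0, 3, 0), (U 21, 3, 3, 0), (U 22, -3, 3, 0)]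
  Q := [(U 6, 1, 2), (U 7, 1, 0), (U 8, 1, -2), (U 14, 0, 2), (U 15, 0, 0), (U 16, 0, -2)]
  r := U 23
  s := U 24
  g := U 25

/-- the real coefficient vector with `τ` in the slots `26, 27` -/
def ut (U : Fin 28 → ℚ) (τ : ℂ) : Fin 28 → ℝ := fun i =>
  if i = 26 then τ.re else if i = 27 then τ.im else ((U i : ℚ) : ℝ)

theorem sum28 {M : Type*} [AddCommMonoid M] (f : Fin 28 → M) : ∑ i, f i =
    f 0 + (f 1 + (f 2 + (f 3 + (f 4 + (f 5 + (f 6 + (f 7 + (f 8 + (f 9 + (f 10 + (f 11 + (f 12 + (f 13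
    + (f 14 + (f 15 + (f 16 + (f 17 + (f 18 + (f 19 + (f 20 + (f 21 + (f 22 + (f 23 + (f 24 + (f 25
    + (f 26 + f 27)))))))))))))))))))))))))) := by
  simp only [Fin.sum_univ_succ, Fin.sum_univ_zero, add_zero]
  rfl

theorem hd8 {ν : Measure Ω} {x : Ω → ℝ} {E : Ω → ℂ} (H : Fr ν x E) (U : Fin 28 → ℚ) (τ : ℂ)
    (A B z N M S R G : ℂ) : dev9 Psi8 (ut U τ) (mo (C9 Psi8) ν x E) A B N M S R G =
      (dv8 U).val (zz A B z N M) (vl ν x E) (Zr 2 ν x E) S R G + τ * conj A := by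
  have e0 : mo (C9 Psi8) ν x E 0 = vl ν x E 3 := (mo_vl (n := 3) (by norm_num)).symm
  have mz : ∀ n : ℕ, Zr 2 ν x E (n : ℤ) = ∫ t, (x t : ℂ) ^ 2 * E t ^ n ∂ν := fun n => by
    unfold Zr
    simp
  have e3 : mo (C9 Psi8) ν x E 3 = Zr 2 ν x E 0 := by
    have := mz 0
    simp only [Nat.cast_zero, pow_zero, mul_one] at this
    rw [this]
    rfl
  have e4 : mo (C9 Psi8) ν x E 4 = Zr 2 ν x E 2 := (mz 2).symm
  have u0 : vl ν x E 0 = 1 := by simp [vl]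
  have n3 : vl ν x E (-3) = conj (vl ν x E 3) := H.vl_neg 3
  have y2 : Zr 2 ν x E (-2) = conj (Zr 2 ν x E 2) := H.zc 2 2
  have hτ : τ = (τ.re : ℂ) + (τ.im : ℂ) * Complex.I := (Complex.re_add_im τ).symm
  generalize mo (C9 Psi8) ν x E = m at e0 e3 e4 ⊢
  unfold dev9
  rw [sum28]
  simp only [Psi8, mn8, ut, Dv.val, dv8, Matrix.cons_val_zero, Matrix.cons_val_one, Matrix.cons_val, List.map_cons,
    List.map_nil, List.sum_cons, List.sum_nil, zz, e0, e3, e4, u0, n3, y2, Fin.reduceEq, if_true, if_false,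
    Complex.ofReal_ratCast, map_mul, map_one, Complex.conj_conj]
  conv_rhs => rw [hτ]
  ring

/-- **`RW` for `xi8` from the form** -/
theorem RW_of_PT8 {s : ℝ} {X : ℝ → ℝ} (hX : St s X) (hb : ∀ a, |X a| ≤ 1) {v : Fin 21 → ℚ} {U : Fin 28 → ℚ}
    {μ im : ℚ} (hμ : 0 < μ) (him : im * (2 * μ) ≤ 1) {τ : ℂ} {t1 t3 : ℚ} (ht1 : 0 ≤ t1) (ht3 : 0 ≤ t3)
    (hτ : ‖τ‖ ^ 2 ≤ t1 * t3) {k3 k4 : ℚ} (hk : Pok v im t1 t3 (dv8 U) k3 k4 = true)
    (h : ∀ z : ℕ → ℂ, 0 ≤ (e2 z (vl va X e1) (PT v im t1 t3 (dv8 U) k3 k4)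
      + eq2 z (Zr 2 va X e1) (PQ v (dv8 U))).re) :
    BTG.RW (C9 Psi8) va X e1 (fun i => ((v i : ℚ) : ℝ)) (ut U τ) μ 1 :=
  RW_of_PT hX hb hμ him (hd8 (fr_va hX hb) U τ) ht1 ht3 hτ hk h

end Pool.Agent.FPX.BRG
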