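import Mathlib
import Pool.Agent.FPX.BR8

/-
BRP (helper25): the condition `RW` for the Poisson weight `1 / q = (1 - t²) / (1 + t² - 2 t Re e²)`, of mean `1`.
`MW t` are the optimal multipliers for this weight; `PTW`, `PQW` are the lists of the form after the eliminations
(the same types as `PT`, `PQ`).
-/

open MeasureTheory Set Filter Topology Complex
open scoped ENNReal NNReal ContDiff ComplexConjugate

noncomputable section

namespace Pool.Agent.FPX.BRG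

open Pool.Agent.FPX.CRD (Bm)
open Pool.Agent.FPX.ALX (St)
open Pool.Agent.FPX.BTN (va e1)
open Pool.Agent.FPX.BTG (mo)
open Pool.Agent.FPX.BTI

section poisson

variable {Ω : Type*} [MeasurableSpace Ω] {ν : Measure Ω} {x : Ω → ℝ} {E : Ω → ℂ}

/-- the Poisson weight: `q = ((1 + t²) - 2 t Re e²) / (1 - t²)` -/
def wP (t : ℚ) : Wr := [((1 + t ^ 2) / (1 - t ^ 2), 0), (-2 * t / (1 - t ^ 2), 1)]

theorem qr_wP (t : ℚ) (e : ℂ) :
    qr (wP t) e = (1 + (t : ℝ) ^ 2) / (1 - (t : ℝ) ^ 2) + -2 * t / (1 - (t : ℝ) ^ 2) * (e ^ 2).re := by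
  unfold qr wP
  simp only [List.map_cons, List.map_nil, List.sum_cons, List.sum_nil, mul_zero, pow_zero, mul_one,
    Complex.one_re, add_zero]
  push_cast
  ring

variable {r : ℝ}

theorem den_pos (hr : |r| < 1) {z : ℂ} (hz : ‖z‖ = 1) : 0 < 1 + r ^ 2 - 2 * r * z.re := by
  have h1 : |z.re| ≤ 1 := hz ▸ Complex.abs_re_le_norm z
  have h2 := abs_le.1 h1
  have h3 := abs_lt.1 hr
  have h4 : |r * z.re| ≤ |r| := by
    rw [abs_mul]
    nlinarith [abs_nonneg r]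
  have h5 := (abs_le.1 h4).2
  have h6 : r ^ 2 = |r| ^ 2 := (sq_abs r).symm
  have h7 : 0 < (1 - |r|) ^ 2 := by
    have : 0 < 1 - |r| := by linarith
    positivity
  nlinarith

theorem qr_wP_pos {t : ℚ} (ht : |(t : ℝ)| < 1) {e : ℂ} (he : ‖e‖ = 1) : 0 < qr (wP t) e := by
  rw [qr_wP]
  have h1 : 0 < 1 - (t : ℝ) ^ 2 := by
    have := sq_abs (t : ℝ)
    nlinarith [abs_nonneg (t : ℝ)]
  have h2 : ‖e ^ 2‖ = 1 := by rw [norm_pow, he, one_pow]
  have h3 := den_pos ht h2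
  have : (1 + (t : ℝ) ^ 2) / (1 - (t : ℝ) ^ 2) + -2 * t / (1 - (t : ℝ) ^ 2) * (e ^ 2).re
      = (1 + (t : ℝ) ^ 2 - 2 * t * (e ^ 2).re) / (1 - (t : ℝ) ^ 2) := by
    field_simp
    ring
  rw [this]
  positivity

/-- the function `1 / (1 - r e²)` -/
def gP (r : ℝ) (E : Ω → ℂ) (t : Ω) : ℂ := 1 / (1 - (r : ℂ) * E t ^ 2)

theorem gP_ne (H : Fr ν x E) (hr : |r| < 1) (t : Ω) : 1 - (r : ℂ) * E t ^ 2 ≠ 0 := by
  intro h
  have h1 : ‖(r : ℂ) * E t ^ 2‖ = |r| := by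
    rw [norm_mul, norm_pow, H.norm1 t, one_pow, mul_one, Complex.norm_real, Real.norm_eq_abs]
  have h2 : (r : ℂ) * E t ^ 2 = 1 := by linear_combination -h
  rw [h2, norm_one] at h1
  linarith

theorem gP_le (H : Fr ν x E) (hr : |r| < 1) (t : Ω) : ‖gP r E t‖ ≤ 1 / (1 - |r|) := by
  have h1 : ‖(r : ℂ) * E t ^ 2‖ = |r| := by
    rw [norm_mul, norm_pow, H.norm1 t, one_pow, mul_one, Complex.norm_real, Real.norm_eq_abs]
  have h2 : 1 - |r| ≤ ‖1 - (r : ℂ) * E t ^ 2‖ := by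
    have := norm_sub_norm_le (1 : ℂ) ((r : ℂ) * E t ^ 2)
    rwa [norm_one, h1] at this
  unfold gP
  rw [norm_div, norm_one]
  exact one_div_le_one_div_of_le (by linarith) h2

theorem gP_bm (H : Fr ν x E) (hr : |r| < 1) : Bm (gP r E) :=
  ⟨measurable_const.div (measurable_const.sub (measurable_const.mul (H.bE.meas.pow_const 2))),
    1 / (1 - |r|), gP_le H hr⟩

theorem pow_bm (H : Fr ν x E) (n : ℕ) : Bm fun t => E t ^ n := by
  obtain ⟨C, hC⟩ := H.bE.bdd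
  exact ⟨H.bE.meas.pow_const n, C ^ n, fun t => by rw [norm_pow]; exact pow_le_pow_left₀ (norm_nonneg _) (hC t) n⟩

/-- `∫ E^{2n+2} / (1 - r E²) = r ∫ E^{2n+4} / (1 - r E²)` -/
theorem int_rec (H : Fr ν x E) (hr : |r| < 1) (n : ℕ) :
    ∫ t, E t ^ (2 * n + 2) * gP r E t ∂ν = (r : ℂ) * ∫ t, E t ^ (2 * (n + 1) + 2) * gP r E t ∂ν := by
  have := H.pr
  have b1 : Integrable (fun t => E t ^ (2 * n + 2)) ν := (pow_bm H _).int
  have b2 : Integrable (fun t => E t ^ (2 * (n + 1) + 2) * gP r E t) ν := ((pow_bm H _).mul (gP_bm H hr)).int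
  have e0 : ∫ t, E t ^ (2 * n + 2) ∂ν = 0 := H.en _ (by omega)
  have e : (fun t => E t ^ (2 * n + 2) * gP r E t) =
      fun t => E t ^ (2 * n + 2) + (r : ℂ) * (E t ^ (2 * (n + 1) + 2) * gP r E t) := by
    funext t
    have hne := gP_ne H hr t
    unfold gP
    field_simp
    ring
  rw [e, integral_add b1 (b2.const_mul _), e0, zero_add, integral_const_mul]

theorem int_pow (H : Fr ν x E) (hr : |r| < 1) (n : ℕ) :
    ∫ t, E t ^ 2 * gP r E t ∂ν = (r : ℂ) ^ n * ∫ t, E t ^ (2 * n + 2) * gP r E t ∂ν := by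
  induction n with
  | zero => simp
  | succ n ih => rw [ih, int_rec H hr n]; ring

theorem int_zero (H : Fr ν x E) (hr : |r| < 1) : ∫ t, E t ^ 2 * gP r E t ∂ν = 0 := by
  have := H.pr
  have hb : ∀ n : ℕ, ‖∫ t, E t ^ 2 * gP r E t ∂ν‖ ≤ |r| ^ n * (1 / (1 - |r|)) := fun n => by
    rw [int_pow H hr n, norm_mul, norm_pow, Complex.norm_real, Real.norm_eq_abs]
    refine mul_le_mul_of_nonneg_left ?_ (by positivity)
    have := norm_integral_le_of_norm_le_const (μ := ν) (C := 1 / (1 - |r|))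
      (f := fun t => E t ^ (2 * n + 2) * gP r E t) (Eventually.of_forall fun t => by
        rw [norm_mul, norm_pow, H.norm1 t, one_pow, one_mul]
        exact gP_le H hr t)
    simpa using this
  have hl : Tendsto (fun n : ℕ => |r| ^ n * (1 / (1 - |r|))) atTop (𝓝 (0 * (1 / (1 - |r|)))) :=
    (tendsto_pow_atTop_nhds_zero_of_lt_one (abs_nonneg r) hr).mul_const _
  rw [zero_mul] at hl
  have h0 : ‖∫ t, E t ^ 2 * gP r E t ∂ν‖ ≤ 0 := ge_of_tendsto hl (Eventually.of_forall hb)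
  exact norm_le_zero_iff.1 h0

/-- **the mean of the Poisson weight is `1`** -/
theorem int_wP (H : Fr ν x E) {t : ℚ} (ht : |(t : ℝ)| < 1) : ∫ o, 1 / qr (wP t) (E o) ∂ν = 1 := by
  have := H.pr
  have h1 : 0 < 1 - (t : ℝ) ^ 2 := by
    have := sq_abs (t : ℝ)
    nlinarith [abs_nonneg (t : ℝ)]
  have e : (fun o => ((1 / qr (wP t) (E o) : ℝ))) =
      fun o => 1 + 2 * (((t : ℝ) : ℂ) * (E o ^ 2 * gP (t : ℝ) E o)).re := by
    funext o
    have hne := gP_ne H ht o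
    have hn : ‖E o ^ 2‖ = 1 := by rw [norm_pow, H.norm1 o, one_pow]
    have hd := den_pos ht hn
    set w : ℂ := E o ^ 2 with hw
    set s : ℝ := (t : ℝ) with hs
    have hq : qr (wP t) (E o) = (1 + s ^ 2 - 2 * s * w.re) / (1 - s ^ 2) := by
      rw [qr_wP, ← hw, ← hs]
      field_simp
      ring
    have hw1 : w.re ^ 2 + w.im ^ 2 = 1 := by
      have : Complex.normSq w = 1 := by rw [Complex.normSq_eq_norm_sq, hn, one_pow]
      rw [Complex.normSq_apply] at this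
      nlinarith
    have hg : ((s : ℂ) * (w * gP s E o)).re = (s * w.re - s ^ 2) / (1 + s ^ 2 - 2 * s * w.re) := by
      have h2 : (1 : ℂ) - (s : ℂ) * w ≠ 0 := hne
      have h3 : gP s E o = conj (1 - (s : ℂ) * w) / ((1 + s ^ 2 - 2 * s * w.re : ℝ) : ℂ) := by
        have h4 : ((1 + s ^ 2 - 2 * s * w.re : ℝ) : ℂ) = (1 - (s : ℂ) * w) * conj (1 - (s : ℂ) * w) := by
          rw [Complex.mul_conj, Complex.normSq_apply]
          simp only [Complex.sub_re, Complex.one_re, Complex.mul_re, Complex.ofReal_re, Complex.ofReal_im,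
            Complex.sub_im, Complex.one_im, Complex.mul_im, zero_mul, sub_zero, add_zero]
          congr 1
          nlinarith
        have h5 : conj (1 - (s : ℂ) * w) ≠ 0 := by
          intro h
          apply h2
          have := congrArg conj h
          simpa using this
        rw [h4]
        unfold gP
        rw [← hw]
        field_simp
      rw [h3, ← mul_div_assoc, ← mul_div_assoc, Complex.div_ofReal_re]
      congr 1
      simp only [map_sub, map_one, map_mul, Complex.conj_ofReal, Complex.mul_re, Complex.mul_im, Complex.ofReal_re,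
        Complex.ofReal_im, Complex.sub_re, Complex.sub_im, Complex.one_re, Complex.one_im, Complex.conj_re,
        Complex.conj_im]
      nlinarith
    have hd' : 1 + s ^ 2 - 2 * s * w.re ≠ 0 := hd.ne'
    have key : (s * w.re - s ^ 2) / (1 + s ^ 2 - 2 * s * w.re) * (1 + s ^ 2 - 2 * s * w.re) = s * w.re - s ^ 2 :=
      div_mul_cancel₀ _ hd'
    rw [hq, hg, one_div_div, div_eq_iff hd']
    linear_combination (-2) * key
  have hI : Integrable (fun o => ((t : ℝ) : ℂ) * (E o ^ 2 * gP (t : ℝ) E o)) ν :=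
    (((pow_bm H 2).mul (gP_bm H ht)).int).const_mul _
  have e2 : ∫ o, (((t : ℝ) : ℂ) * (E o ^ 2 * gP (t : ℝ) E o)).re ∂ν = 0 := by
    have h := integral_re hI
    have h0 : ∫ o, ((t : ℝ) : ℂ) * (E o ^ 2 * gP (t : ℝ) E o) ∂ν = 0 := by
      rw [integral_const_mul, int_zero H ht, mul_zero]
    rw [h0] at h
    simpa using h
  have hR : Integrable (fun o => (((t : ℝ) : ℂ) * (E o ^ 2 * gP (t : ℝ) E o)).re) ν := hI.re
  rw [e, integral_add (integrable_const _) (hR.const_mul 2), integral_const_mul, e2]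
  simp

end poisson

/-! ### the lists -/

/-- the coefficient of `e^j` in the kernel, after projection -/
def kh (k : Kr) (j : ℤ) : Lf :=
  (k.A.flatMap fun p => if p.1 = j then p.2 else [])
    ++ k.B.flatMap fun p => if p.1 - j = 1 ∨ p.1 - j = -1 then [] else sh p.2 (p.1 - j)

/-- the right side of the constraint with the harmonic `2 j - 3` -/
def rhW : ℕ → Lf
  | 0 => [(1, 3, 0), (-5 / 2, 1, 5), (3 / 2, 0, 3), (-3 / 2, 1, 3)]
  | 1 => [(1, 0, 0), (-3 / 2, 1, 3)]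
  | 2 => [(1, 1, 0), (-3 / 2, 0, -3)]
  | _ => [(1, 4, 0), (-5 / 2, 0, -5), (3 / 2, 1, -3), (-3 / 2, 0, -3)]

/-- `1 + t² + .. + t^{2n}` -/
def Dn (t : ℚ) : ℕ → ℚ
  | 0 => 1
  | n + 1 => 1 + t ^ 2 * Dn t n

/-- the inverse of the tridiagonal matrix `1 + t²`, `-t` of size `4` -/
def inW (t : ℚ) (i j : ℕ) : ℚ := t ^ (max i j - min i j) * Dn t (min i j) * Dn t (3 - max i j) / Dn t 4

/-- the right side of the linear system of the multipliers -/
def rW (v : Fin 21 → ℚ) (d : Dv) (t : ℚ) (j : ℕ) : Lf :=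
  smL (1 - t ^ 2) (rhW j) ++ smL (-(1 + t ^ 2)) (kh (kr9 v d) (2 * j - 3))
    ++ smL t (kh (kr9 v d) (2 * j - 1) ++ kh (kr9 v d) (2 * j - 5))

/-- **the optimal multipliers for the Poisson weight**, harmonic `2 i - 3` -/
def mW (v : Fin 21 → ℚ) (d : Dv) (t : ℚ) (i : ℕ) : Lf :=
  cln (mrg ((List.range 4).flatMap fun j => smL (inW t i j) (rW v d t j)))

/-- the rank one terms before the eliminations -/
def PTW0 (v : Fin 21 → ℚ) (im t1 t3 : ℚ) (d : Dv) (t : ℚ) : Tf :=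
  mrgT (F9T v im t1 t3 d (mW v d t 2) (mW v d t 1) (mW v d t 3) (mW v d t 0) (wP t))

/-- **the rank one terms**: components `0, 1, 2` -/
def PTW (v : Fin 21 → ℚ) (im t1 t3 : ℚ) (d : Dv) (t k3 k4 : ℚ) : Tf :=
  mrgT (elim 4 k4 (elim 3 k3 (PTW0 v im t1 t3 d t)))

/-- **the terms with `x²`** -/
def PQW (v : Fin 21 → ℚ) (d : Dv) (t : ℚ) : Qf :=
  F9Q v d (mW v d t 2) (mW v d t 1) (mW v d t 3) (mW v d t 0) (wP t)

/-- the conditions on the constants of the eliminations -/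
def PokW (v : Fin 21 → ℚ) (im t1 t3 : ℚ) (d : Dv) (t k3 k4 : ℚ) : Bool :=
  okT 3 (PTW0 v im t1 t3 d t) && (0 ≤ k3 && (1 ≤ k3 * lam 3 (PTW0 v im t1 t3 d t) &&
    (okT 4 (elim 3 k3 (PTW0 v im t1 t3 d t)) && (0 ≤ k4 && 1 ≤ k4 * lam 4 (elim 3 k3 (PTW0 v im t1 t3 d t))))))

/-- **`RW` for the class `St s` from the form, Poisson weight of parameter `t`** -/
theorem RW_of_PTW {Q : Type} [Fintype Q] {Ψ : Psi9 Q} {s : ℝ} {X : ℝ → ℝ} (hX : St s X) (hb : ∀ a, |X a| ≤ 1)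
    {v : Fin 21 → ℚ} {u : Q → ℝ} {μ im : ℚ} (hμ : 0 < μ) (him : im * (2 * μ) ≤ 1)
    {d : Dv} {τ : ℂ} (hd : ∀ A B z N M S R G : ℂ, dev9 Ψ u (mo (C9 Ψ) va X e1) A B N M S R G =
      d.val (zz A B z N M) (vl va X e1) (Zr 2 va X e1) S R G + τ * conj A)
    {t1 t3 : ℚ} (ht1 : 0 ≤ t1) (ht3 : 0 ≤ t3) (hτ : ‖τ‖ ^ 2 ≤ t1 * t3) {t : ℚ} (ht : |t| < 1) {k3 k4 : ℚ}
    (hk : PokW v im t1 t3 d t k3 k4 = true)
    (h : ∀ z : ℕ → ℂ, 0 ≤ (e2 z (vl va X e1) (PTW v im t1 t3 d t k3 k4)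
      + eq2 z (Zr 2 va X e1) (PQW v d t)).re) :
    BTG.RW (C9 Ψ) va X e1 (fun i => ((v i : ℚ) : ℝ)) u μ 1 := by
  have H := fr_va hX hb
  have u0 : vl va X e1 0 = 1 := by simp [vl]
  have ht' : |(t : ℝ)| < 1 := by exact_mod_cast ht
  unfold PokW at hk
  simp only [Bool.and_eq_true, decide_eq_true_eq] at hk
  obtain ⟨o3, p3, q3, o4, p4, q4⟩ := hk
  refine RW9_of_F (m1 := mW v d t 2) (m2 := mW v d t 1) (m3 := mW v d t 3) (m4 := mW v d t 0) (w := wP t) H hμ him hd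
    ht1 ht3 hτ (fun e he => qr_wP_pos ht' he) (int_wP H ht').le fun z => ?_
  have h' := h z
  rw [Complex.add_re] at h' ⊢
  have i4 := elim_le (z := z) u0 o4 p4 q4
  have i3 := elim_le (z := z) u0 o3 p3 q3
  unfold PTW at h'
  rw [e2_mrgT] at h'
  have e0 : e2 z (vl va X e1) (PTW0 v im t1 t3 d t) = e2 z (vl va X e1)
      (F9T v im t1 t3 d (mW v d t 2) (mW v d t 1) (mW v d t 3) (mW v d t 0) (wP t)) := by
    unfold PTW0
    rw [e2_mrgT]
  rw [e0] at i3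
  have e5 : PQW v d t = F9Q v d (mW v d t 2) (mW v d t 1) (mW v d t 3) (mW v d t 0) (wP t) := rfl
  rw [e5] at h'
  linarith

/-- **`RW` for `xi8` from the form, Poisson weight** -/
theorem RW_of_PTW8 {s : ℝ} {X : ℝ → ℝ} (hX : St s X) (hb : ∀ a, |X a| ≤ 1) {v : Fin 21 → ℚ} {U : Fin 28 → ℚ}
    {μ im : ℚ} (hμ : 0 < μ) (him : im * (2 * μ) ≤ 1) {τ : ℂ} {t1 t3 : ℚ} (ht1 : 0 ≤ t1) (ht3 : 0 ≤ t3)
    (hτ : ‖τ‖ ^ 2 ≤ t1 * t3) {t : ℚ} (ht : |t| < 1) {k3 k4 : ℚ} (hk : PokW v im t1 t3 (dv8 U) t k3 k4 = true)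
    (h : ∀ z : ℕ → ℂ, 0 ≤ (e2 z (vl va X e1) (PTW v im t1 t3 (dv8 U) t k3 k4)
      + eq2 z (Zr 2 va X e1) (PQW v (dv8 U) t)).re) :
    BTG.RW (C9 Psi8) va X e1 (fun i => ((v i : ℚ) : ℝ)) (ut U τ) μ 1 :=
  RW_of_PTW hX hb hμ him (hd8 (fr_va hX hb) U τ) ht1 ht3 hτ ht hk h

end Pool.Agent.FPX.BRG
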