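import Mathlib
import Pool.Agent.FPX.BRP

/-
BRE (helper98): the condition `RW` of BRY with any majorant `(e, f)` of the term `τ conj A` of the deviation (lists of
rank one terms and of terms with `x²` in the components `0` and `2`): state dependent bounds of `τ`.
-/

open MeasureTheory Set Filter Topology Complex
open scoped ENNReal NNReal ContDiff ComplexConjugate

noncomputable section

namespace Pool.Agent.FPX.BRG

open Pool.Agent.FPX.CRD (Bm)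
open Pool.Agent.FPX.ALX (St)
open Pool.Agent.FPX.BTN (va e1)
open Pool.Agent.FPX.BTG (mo)
open Pool.Agent.FPX.BTI

section main

variable {Ω : Type*} [MeasurableSpace Ω] {Q : Type} [Fintype Q] {Ψ : Psi9 Q} {ν : Measure Ω} {x : Ω → ℝ} {E : Ω → ℂ}

/-- **the condition `RW` for any reciprocal weight; any majorant of the term `τ conj A` of the deviation** -/
theorem RW9_of_qE (H : Fr ν x E) {v : Fin 21 → ℚ} {u : Q → ℝ} {μ im : ℚ} (hμ : 0 < μ) (him : im * (2 * μ) ≤ 1)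
    {d : Dv} {τ : ℂ} (hd : ∀ A B z N M S R G : ℂ, dev9 Ψ u (mo (C9 Ψ) ν x E) A B N M S R G =
      d.val (zz A B z N M) (vl ν x E) (Zr 2 ν x E) S R G + τ * conj A)
    {e : Tf} {f : Qf} (hE : ∀ z : ℕ → ℂ, 2 * (z 2 * (τ * conj (z 0))).re ≤
      (e2 z (vl ν x E) e + eq2 z (Zr 2 ν x E) f).re)
    {q : ℂ → ℝ → ℝ} (hq : Continuous (fun p : ℂ × ℝ => q p.1 p.2))
    (hp : ∀ e x, ‖e‖ = 1 → |x| ≤ 1 → 0 < q e x) {T : ℝ} (hT : ∫ t, 1 / q (E t) (x t) ∂ν ≤ T) {m1 m2 m3 m4 : Lf}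
    (h : ∀ z : ℕ → ℂ, (e2 z (vl ν x E) e + eq2 z (Zr 2 ν x E) f).re
        + (e2 z (vl ν x E) (tq9 v im 0 0 d) + eq2 z (Zr 2 ν x E) (qq9 v d)).re
        - 2 * (((cl9 m1 m2 m3 m4).map fun c => BRG.ev z (vl ν x E) c.2.2 * conj (BRG.ev z (vl ν x E) c.2.1)).sum).re
        + ∫ t, ‖((cl9 m1 m2 m3 m4).kr (kr9 v d)).f z (vl ν x E) (E t) (x t)‖ ^ 2 * q (E t) (x t) ∂ν ≤ 0) :
    BTG.RW (C9 Ψ) ν x E (fun i => ((v i : ℚ) : ℝ)) u μ T := by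
  refine RW9 Ψ hq hp hT fun A B N M S R G G' => ?_
  set m := mo (C9 Ψ) ν x E with hm
  set dv := dev9 Ψ u m A B N M S R G with hdv
  set z3 : ℂ := 2 * μ * conj dv with hz3
  set zv := zz A B z3 N M with hzv
  have F := h zv
  set U := vl ν x E with hU
  set Z := Zr 2 ν x E with hZ
  have u0 : U 0 = 1 := by rw [hU]; simp [vl]
  have n3 : U (-3) = conj (U 3) := H.vl_neg 3
  have n5 : U (-5) = conj (U 5) := H.vl_neg 5
  have y2 : Z (-2) = conj (Z 2) := H.zc 2 2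
  have y4 : Z (-4) = conj (Z 4) := H.zc 2 4
  have e0 : m 0 = U 3 := (mo_vl (n := 3) (by norm_num)).symm
  have e1 : m 1 = U 5 := (mo_vl (n := 5) (by norm_num)).symm
  have e2' : m 2 = U 7 := (mo_vl (n := 7) (by norm_num)).symm
  have mz : ∀ n : ℕ, Z (n : ℤ) = ∫ t, (x t : ℂ) ^ 2 * E t ^ n ∂ν := fun n => by
    rw [hZ]
    unfold Zr
    simp
  have e3 : m 3 = Z 0 := by
    have := mz 0
    simp only [Nat.cast_zero, pow_zero, mul_one] at this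
    rw [this]
    rfl
  have e4 : m 4 = Z 2 := (mz 2).symm
  have e5 : m 5 = Z 4 := (mz 4).symm
  -- the kernel
  have hker : ∀ t, ((cl9 m1 m2 m3 m4).kr (kr9 v d)).f zv U (E t) (x t) =
      h9 (fun i => ((v i : ℚ) : ℝ)) m A B (BRG.ev zv U m1) (BRG.ev zv U m2) (BRG.ev zv U m3) (BRG.ev zv U m4)
        (d.r * z3) (d.s * z3) (d.g * z3) 0 (E t) (x t) := by
    intro t
    rw [Cl.f_eq]
    have hn := H.ne t
    have p1 : E t ^ (-1 : ℤ) = conj (E t) := by rw [zpow_neg_one, H.cinv]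
    have p3 : E t ^ (-3 : ℤ) = conj (E t) ^ 3 := by rw [zpow_neg, H.cinv, inv_pow]; norm_cast
    have p5 : E t ^ (-5 : ℤ) = conj (E t) ^ 5 := by rw [zpow_neg, H.cinv, inv_pow]; norm_cast
    have p2 : E t ^ (-2 : ℤ) = conj (E t) ^ 2 := by rw [zpow_neg, H.cinv, inv_pow]; norm_cast
    have q3 : E t ^ (3 : ℤ) = E t ^ 3 := by norm_cast
    have q5 : E t ^ (5 : ℤ) = E t ^ 5 := by norm_cast
    have q2 : E t ^ (2 : ℤ) = E t ^ 2 := by norm_cast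
    have hre : ∀ w : ℂ, ((w.re : ℝ) : ℂ) = (w + conj w) / 2 := fun w => by
      rw [Complex.add_conj]
      push_cast
      ring
    unfold h9 ke9
    rw [e0, e1, hre]
    simp only [Kr.f, Kr.pA, Kr.pB, cl9, kr9, pe, BRG.ev, bev, List.map_cons, List.map_nil, List.sum_cons,
      List.sum_nil, p1, p2, p3, p5, q2, q3, q5, zpow_zero, zpow_one, n3, n5, u0, hzv, zz, map_add, map_mul, map_pow,
      Complex.conj_ofReal, Complex.conj_conj, map_div₀, Complex.conj_ofNat]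
    push_cast
    ring
  simp only [hker] at F
  refine ⟨BRG.ev zv U m1, BRG.ev zv U m2, BRG.ev zv U m3, BRG.ev zv U m4, d.r * z3, d.s * z3, d.g * z3, 0, ?_⟩
  -- the deviation
  have hμ' : (0 : ℝ) < (μ : ℝ) := by exact_mod_cast hμ
  have hdv' := hd A B z3 N M S R G
  rw [← hdv, ← hzv] at hdv'
  unfold Dv.val at hdv'
  have key : 2 * (μ : ℝ) * ‖dv‖ ^ 2 ≤ 2 * (z3 * dv).re - (im : ℝ) * ‖z3‖ ^ 2 := by
    have h1 : (z3 * dv).re = 2 * (μ : ℝ) * ‖dv‖ ^ 2 := by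
      have : z3 * dv = ((2 * (μ : ℝ) * ‖dv‖ ^ 2 : ℝ) : ℂ) := by
        rw [hz3, mul_assoc, mul_comm (conj dv), Complex.mul_conj, Complex.normSq_eq_norm_sq]
        push_cast
        ring
      rw [this, Complex.ofReal_re]
    have h2 : ‖z3‖ ^ 2 = 4 * (μ : ℝ) ^ 2 * ‖dv‖ ^ 2 := by
      rw [hz3, norm_mul, norm_mul, Complex.norm_conj]
      have a1 : ‖(2 : ℂ)‖ = 2 := by norm_num
      have a2 : ‖((μ : ℚ) : ℂ)‖ = (μ : ℝ) := by
        rw [show ((μ : ℚ) : ℂ) = (((μ : ℚ) : ℝ) : ℂ) by push_cast; rfl, Complex.norm_real, Real.norm_eq_abs,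
          abs_of_pos hμ']
      rw [a1, a2]
      ring
    rw [h1, h2]
    have h3 : (im : ℝ) * (2 * μ) ≤ 1 := by exact_mod_cast him
    have h4 : 0 ≤ 2 * (μ : ℝ) * ‖dv‖ ^ 2 := by positivity
    nlinarith
  set DD : ℂ := (d.D.map fun t => (t.1 : ℂ) * (U t.2.1 * conj (zv t.2.2.1 * U t.2.2.2))).sum with hDD
  set QS : ℂ := (d.Q.map fun t => (t.1 : ℂ) * (conj (zv t.2.1) * Z t.2.2)).sum with hQS
  have ET := e2_D d.D zv U
  have EQ := eq2_Q d.Q zv Z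
  rw [← hDD] at ET
  rw [← hQS] at EQ
  have z2 : zv 2 = z3 := rfl
  rw [z2] at ET EQ
  rw [hdv'] at key
  have hττ : 2 * (z3 * (τ * conj A)).re ≤ (e2 zv U e + eq2 zv Z f).re := hE zv
  obtain ⟨ex, hex⟩ : ∃ r : ℝ, r = (e2 zv U e + eq2 zv Z f).re := ⟨_, rfl⟩
  rw [← hex] at hττ F
  refine le_trans ?_ F
  refine add_le_add ?_ le_rfl
  unfold rst9
  rw [← hdv, hdv']
  unfold tq9 qq9
  rw [e2_append, eq2_append, ET, EQ]
  clear_value z3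
  simp only [cl9, List.map_cons, List.map_nil, List.sum_cons, List.sum_nil, e2_cons, e2_nil, eq2_cons, eq2_nil,
    ev_cons, ev_nil, hzv, zz, n3, n5, y2, y4, u0, e0, e1, e2', e3, e4, e5, om9, bb9]
  clear_value DD QS
  generalize BRG.ev (zz A B z3 N M) U m1 = a1
  generalize BRG.ev (zz A B z3 N M) U m2 = a2
  generalize BRG.ev (zz A B z3 N M) U m3 = a3
  generalize BRG.ev (zz A B z3 N M) U m4 = a4
  have cr : ∀ q : ℚ, ((q : ℂ)).re = (q : ℝ) := fun q => Complex.ratCast_re q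
  have ci : ∀ q : ℚ, ((q : ℂ)).im = 0 := fun q => Complex.ratCast_im q
  generalize hT : (z3 * (τ * conj A)).re = tt at hττ
  have key' : 2 * (μ : ℝ) * ‖DD + QS + (d.r : ℂ) * R + (d.s : ℂ) * conj S + (d.g : ℂ) * G + τ * conj A‖ ^ 2 ≤
      2 * tt + 2 * ((z3.re * DD.re - z3.im * DD.im) + (z3.re * QS.re - z3.im * QS.im)
        + (d.r : ℝ) * (z3.re * R.re - z3.im * R.im) + (d.s : ℝ) * (z3.re * S.re + z3.im * S.im)
        + (d.g : ℝ) * (z3.re * G.re - z3.im * G.im)) - (im : ℝ) * (z3.re * z3.re + z3.im * z3.im) := by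
    refine key.trans (le_of_eq ?_)
    rw [sq_re z3, mul_add, Complex.add_re, hT]
    simp only [Complex.add_re, Complex.mul_re, Complex.add_im, Complex.mul_im, Complex.conj_re, Complex.conj_im,
      cr, ci]
    ring
  generalize ‖DD + QS + (d.r : ℂ) * R + (d.s : ℂ) * conj S + (d.g : ℂ) * G + τ * conj A‖ ^ 2 = dn at key' ⊢
  have Z0 : (Z 0).im = 0 := by
    have h := H.zc 2 0
    rw [neg_zero] at h
    have := congrArg Complex.im h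
    rw [Complex.conj_im] at this
    rw [hZ]
    linarith
  simp only [sq_re, Complex.add_re, Complex.mul_re, Complex.add_im, Complex.mul_im, Complex.conj_re, Complex.conj_im,
    Complex.sub_re, Complex.sub_im, cr, ci, Z0, map_mul, map_add, map_sub, map_zero, Complex.div_ofNat_re,
    Complex.div_ofNat_im, Complex.one_re, Complex.one_im, Complex.zero_re, Complex.zero_im, Complex.re_ofNat,
    Complex.im_ofNat, Complex.conj_conj, Rat.cast_neg, Rat.cast_mul, Rat.cast_add, Rat.cast_sub, Rat.cast_div,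
    Rat.cast_ofNat, Rat.cast_one, Complex.neg_re, Complex.neg_im]
  linarith

/-- **the condition `RW` from the form, any majorant of `τ conj A`** -/
theorem RW9_of_FE (H : Fr ν x E) {v : Fin 21 → ℚ} {u : Q → ℝ} {μ im : ℚ} (hμ : 0 < μ) (him : im * (2 * μ) ≤ 1)
    {d : Dv} {τ : ℂ} (hd : ∀ A B z N M S R G : ℂ, dev9 Ψ u (mo (C9 Ψ) ν x E) A B N M S R G =
      d.val (zz A B z N M) (vl ν x E) (Zr 2 ν x E) S R G + τ * conj A)
    {e : Tf} {f : Qf} (hE : ∀ z : ℕ → ℂ, 2 * (z 2 * (τ * conj (z 0))).re ≤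
      (e2 z (vl ν x E) e + eq2 z (Zr 2 ν x E) f).re)
    {w : Wr} (hp : ∀ e : ℂ, ‖e‖ = 1 → 0 < qr w e) {T : ℝ} (hT : ∫ t, 1 / qr w (E t) ∂ν ≤ T) {m1 m2 m3 m4 : Lf}
    (h : ∀ z : ℕ → ℂ, (e2 z (vl ν x E) e + eq2 z (Zr 2 ν x E) f).re ≤
      (e2 z (vl ν x E) (F9T v im 0 0 d m1 m2 m3 m4 w) + eq2 z (Zr 2 ν x E) (F9Q v d m1 m2 m3 m4 w)).re) :
    BTG.RW (C9 Ψ) ν x E (fun i => ((v i : ℚ) : ℝ)) u μ T := by
  refine RW9_of_qE (q := fun e _ => qr w e) (m1 := m1) (m2 := m2) (m3 := m3) (m4 := m4) H hμ him hd hE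
    ((qr_cont w).comp continuous_fst) (fun e _ he _ => hp e he) hT fun z => ?_
  have F := h z
  have hr : ∀ e : ℂ, ‖e‖ = 1 → (we w.L e).im = 0 := fun e he => by rw [we_L w he, Complex.ofReal_im]
  unfold F9T F9Q at F
  rw [H.F_eq _ _ _ _ (par9 v d m1 m2 m3 m4) _ (L_ev w) hr] at F
  have hI : ∫ t, ‖((cl9 m1 m2 m3 m4).kr (kr9 v d)).f z (vl ν x E) (E t) (x t)‖ ^ 2 * (we w.L (E t)).re ∂ν =
      ∫ t, ‖((cl9 m1 m2 m3 m4).kr (kr9 v d)).f z (vl ν x E) (E t) (x t)‖ ^ 2 * qr w (E t) ∂ν := by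
    refine integral_congr_ae (Eventually.of_forall fun t => ?_)
    simp only
    rw [we_L w (H.norm1 t), Complex.ofReal_re]
  rw [hI] at F
  linarith

end main

/-! ### the majorants -/

/-- the bound `Σ α_n |u_n|` of the linear part of the start map: list of `(n, α_n, T_n)` -/
abbrev Ly := List (ℤ × ℚ × ℚ)

def Ly.sum (L : Ly) (u : ℤ → ℂ) : ℝ := (L.map fun t => (t.2.1 : ℝ) * ‖u t.1‖).sum

/-- the majorant for `|τ| ≤ (Σ α_n |u_n| + β q₀) q₀`, `q₀ ≤ Q`: rank one terms -/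
def eY (L : Ly) : Tf := L.map fun t => (t.2.2, [(1, 2, t.1)], [(1, 2, t.1)])

/-- terms with `x²` -/
def fY (S1 W1 : ℚ) : Qf := [(S1, 2, 2, 0), (W1, 0, 0, 0)]

/-- `Σ α_n² / T_n` -/
def cY : Ly → ℚ
  | [] => 0
  | t :: L => t.2.1 ^ 2 / t.2.2 + cY L

/-- the conditions -/
def okY (L : Ly) (be Q S1 W1 : ℚ) : Bool :=
  (L.all fun t => decide (0 < t.2.2)) && (decide (0 < S1) && decide (cY L * Q + be ^ 2 * Q ^ 2 / S1 ≤ W1))

theorem eY_re (z : ℕ → ℂ) (u : ℤ → ℂ) (L : Ly) :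
    (e2 z u (eY L)).re = (L.map fun t => (t.2.2 : ℝ) * (‖z 2‖ * ‖u t.1‖) ^ 2).sum := by
  induction L with
  | nil => simp [eY]
  | cons t L ih =>
    have h : ((t.2.2 : ℚ) : ℂ) * ((((1 : ℚ) : ℂ) * (z 2 * u t.1)) * conj (((1 : ℚ) : ℂ) * (z 2 * u t.1)))
        = (((t.2.2 : ℝ) * (‖z 2‖ * ‖u t.1‖) ^ 2 : ℝ) : ℂ) := by
      rw [Complex.mul_conj, Complex.normSq_eq_norm_sq, norm_mul, norm_mul]
      push_cast
      simp
    unfold eY at ih ⊢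
    rw [List.map_cons, e2_cons, Complex.add_re, ih, List.map_cons, List.sum_cons]
    simp only [ev_cons, ev_nil, add_zero]
    rw [h, Complex.ofReal_re]

theorem fY_re (z : ℕ → ℂ) {Z : ℤ → ℂ} {q : ℝ} (hq : Z 0 = (q : ℂ)) (S1 W1 : ℚ) : (eq2 z Z (fY S1 W1)).re =
    (S1 : ℝ) * (‖z 2‖ ^ 2 * q) + (W1 : ℝ) * (‖z 0‖ ^ 2 * q) := by
  unfold fY
  simp only [eq2_cons, eq2_nil, add_zero]
  have h : ∀ (c : ℚ) (w : ℂ), ((c : ℚ) : ℂ) * (w * conj w * Z 0) = (((c : ℝ) * (‖w‖ ^ 2 * q) : ℝ) : ℂ) := by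
    intro c w
    rw [Complex.mul_conj, Complex.normSq_eq_norm_sq, hq]
    push_cast
    ring
  rw [h, h, ← Complex.ofReal_add, Complex.ofReal_re]

/-- Young's inequality for one linear term -/
theorem young1 {a b r q Q al T : ℝ} (hq : 0 ≤ q) (hQ : q ≤ Q) (hT : 0 < T) :
    2 * (b * (al * r * q) * a) ≤ T * (b * r) ^ 2 + al ^ 2 / T * Q * (a ^ 2 * q) := by
  have h1 : 2 * (b * (al * r * q) * a) ≤ T * (b * r) ^ 2 + al ^ 2 / T * q * (a ^ 2 * q) := by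
    have : 0 ≤ T * (b * r - al * q * a / T) ^ 2 := by positivity
    have e : T * (b * r - al * q * a / T) ^ 2 = T * (b * r) ^ 2 - 2 * (b * (al * r * q) * a)
        + al ^ 2 / T * q * (a ^ 2 * q) := by
      field_simp
      ring
    linarith
  have h2 : al ^ 2 / T * q * (a ^ 2 * q) ≤ al ^ 2 / T * Q * (a ^ 2 * q) := by gcongr
  linarith

theorem youngL {a b q Q : ℝ} (hq : 0 ≤ q) (hQ : q ≤ Q) (u : ℤ → ℂ) : ∀ {L : Ly}, (∀ t ∈ L, 0 < t.2.2) →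
    2 * (b * (L.sum u * q) * a) ≤ (L.map fun t => (t.2.2 : ℝ) * (b * ‖u t.1‖) ^ 2).sum + (cY L : ℝ) * Q * (a ^ 2 * q)
  | [], _ => by simp [Ly.sum, cY]
  | t :: L, h => by
    have h1 := youngL (a := a) (b := b) hq hQ u (L := L) fun s hs => h s (List.mem_cons_of_mem _ hs)
    have hT : (0 : ℝ) < t.2.2 := by exact_mod_cast h t (by simp)
    have h2 := young1 (a := a) (b := b) (r := ‖u t.1‖) (al := (t.2.1 : ℝ)) hq hQ hT
    have e1 : Ly.sum (t :: L) u = (t.2.1 : ℝ) * ‖u t.1‖ + Ly.sum L u := by simp [Ly.sum]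
    have e2 : ((cY (t :: L) : ℚ) : ℝ) = (t.2.1 : ℝ) ^ 2 / t.2.2 + cY L := by
      rw [cY]
      push_cast
      ring
    rw [e1, e2, List.map_cons, List.sum_cons]
    have e3 : 2 * (b * (((t.2.1 : ℝ) * ‖u t.1‖ + Ly.sum L u) * q) * a)
        = 2 * (b * ((t.2.1 : ℝ) * ‖u t.1‖ * q) * a) + 2 * (b * (Ly.sum L u * q) * a) := by ring
    rw [e3]
    linarith

/-- **the state dependent majorant** -/
theorem hE_Y {u Z : ℤ → ℂ} {τ : ℂ} {q : ℝ} (hZ : Z 0 = (q : ℂ)) (hq : 0 ≤ q) {L : Ly} {be Q S1 W1 : ℚ} (hQ : q ≤ Q)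
    (hk : okY L be Q S1 W1 = true) (hτ : ‖τ‖ ≤ (L.sum u + be * q) * q) (z : ℕ → ℂ) :
    2 * (z 2 * (τ * conj (z 0))).re ≤ (e2 z u (eY L) + eq2 z Z (fY S1 W1)).re := by
  unfold okY at hk
  simp only [Bool.and_eq_true, decide_eq_true_eq, List.all_eq_true] at hk
  obtain ⟨hL, hS, hW⟩ := hk
  rw [Complex.add_re, eY_re, fY_re z hZ]
  have h1 : (z 2 * (τ * conj (z 0))).re ≤ ‖z 2‖ * ((L.sum u + be * q) * q) * ‖z 0‖ := by
    refine (Complex.re_le_norm _).trans ?_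
    rw [norm_mul, norm_mul, Complex.norm_conj, ← mul_assoc]
    gcongr
  have hS' : (0 : ℝ) < S1 := by exact_mod_cast hS
  have hW' : (cY L : ℝ) * Q + (be : ℝ) ^ 2 * Q ^ 2 / S1 ≤ W1 := by exact_mod_cast hW
  have hQ0 : (0 : ℝ) ≤ Q := hq.trans hQ
  have k1 := youngL (a := ‖z 0‖) (b := ‖z 2‖) hq hQ u hL
  have k2 : 2 * (‖z 2‖ * (be * q * q) * ‖z 0‖) ≤ S1 * (‖z 2‖ ^ 2 * q)
      + (be : ℝ) ^ 2 * Q ^ 2 / S1 * (‖z 0‖ ^ 2 * q) := by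
    have h3 : 2 * (‖z 2‖ * (be * q * q) * ‖z 0‖) ≤ S1 * (‖z 2‖ ^ 2 * q)
        + (be : ℝ) ^ 2 * q ^ 2 / S1 * (‖z 0‖ ^ 2 * q) := by
      have : 0 ≤ (S1 : ℝ) * (‖z 2‖ - be * q * ‖z 0‖ / S1) ^ 2 * q := by positivity
      have e : (S1 : ℝ) * (‖z 2‖ - be * q * ‖z 0‖ / S1) ^ 2 * q = S1 * (‖z 2‖ ^ 2 * q)
          - 2 * (‖z 2‖ * (be * q * q) * ‖z 0‖) + (be : ℝ) ^ 2 * q ^ 2 / S1 * (‖z 0‖ ^ 2 * q) := by
        field_simp
        ring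
      linarith
    have h4 : (be : ℝ) ^ 2 * q ^ 2 / S1 * (‖z 0‖ ^ 2 * q) ≤ (be : ℝ) ^ 2 * Q ^ 2 / S1 * (‖z 0‖ ^ 2 * q) := by
      gcongr
    linarith
  have k3 : ((cY L : ℝ) * Q + (be : ℝ) ^ 2 * Q ^ 2 / S1) * (‖z 0‖ ^ 2 * q) ≤ W1 * (‖z 0‖ ^ 2 * q) :=
    mul_le_mul_of_nonneg_right hW' (by positivity)
  nlinarith

/-- `mean (x²)` -/
theorem Fr.z2 {Ω : Type*} [MeasurableSpace Ω] {ν : Measure Ω} {x : Ω → ℝ} {E : Ω → ℂ} (H : Fr ν x E) :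
    Zr 2 ν x E 0 = (((Zr 2 ν x E 0).re : ℝ) : ℂ) ∧ 0 ≤ (Zr 2 ν x E 0).re := by
  have Zc : conj (Zr 2 ν x E 0) = Zr 2 ν x E 0 := by
    have := H.zc 2 0
    rw [neg_zero] at this
    exact this.symm
  refine ⟨(Complex.conj_eq_iff_re.1 Zc).symm, ?_⟩
  have e : Zr 2 ν x E 0 = ((∫ a, x a ^ 2 ∂ν : ℝ) : ℂ) := by
    unfold Zr
    rw [← integral_complex_ofReal]
    refine integral_congr_ae (Eventually.of_forall fun a => ?_)
    simp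
  rw [e, Complex.ofReal_re]
  exact integral_nonneg fun a => sq_nonneg _

/-- the constant majorant, `|τ|² ≤ t₁ t₃` -/
theorem hE_C {u Z : ℤ → ℂ} (hu : u 0 = 1) {τ : ℂ} {t1 t3 : ℚ} (ht1 : 0 ≤ t1) (ht3 : 0 ≤ t3)
    (hτ : ‖τ‖ ^ 2 ≤ t1 * t3) (z : ℕ → ℂ) : 2 * (z 2 * (τ * conj (z 0))).re ≤
      (e2 z u [(t1, [(1, 0, 0)], [(1, 0, 0)]), (t3, [(1, 2, 0)], [(1, 2, 0)])] + eq2 z Z []).re := by
  have b1 : (0 : ℝ) ≤ (t1 : ℝ) := by exact_mod_cast ht1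
  have b3 : (0 : ℝ) ≤ (t3 : ℝ) := by exact_mod_cast ht3
  have h1 : (z 2 * (τ * conj (z 0))).re ≤ ‖z 2‖ * (‖τ‖ * ‖z 0‖) := by
    refine (Complex.re_le_norm _).trans ?_
    rw [norm_mul, norm_mul, Complex.norm_conj]
  have h2 : ‖τ‖ ≤ Real.sqrt t1 * Real.sqrt t3 := by
    rw [← Real.sqrt_mul b1]
    exact Real.le_sqrt_of_sq_le hτ
  have h3 : ‖z 2‖ * (‖τ‖ * ‖z 0‖) ≤ ‖z 2‖ * (Real.sqrt t1 * Real.sqrt t3 * ‖z 0‖) := by gcongr
  have h4 := Real.sq_sqrt b1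
  have h5 := Real.sq_sqrt b3
  have e : (e2 z u [(t1, [(1, 0, 0)], [(1, 0, 0)]), (t3, [(1, 2, 0)], [(1, 2, 0)])] + eq2 z Z []).re
      = (t1 : ℝ) * ‖z 0‖ ^ 2 + (t3 : ℝ) * ‖z 2‖ ^ 2 := by
    simp only [e2_cons, e2_nil, ev_cons, ev_nil, eq2_nil, add_zero, hu]
    have h : ∀ (c : ℚ) (w : ℂ), ((c : ℚ) : ℂ) * ((((1 : ℚ) : ℂ) * (w * 1)) * conj (((1 : ℚ) : ℂ) * (w * 1)))
        = (((c : ℝ) * ‖w‖ ^ 2 : ℝ) : ℂ) := by
      intro c w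
      rw [Complex.mul_conj, Complex.normSq_eq_norm_sq]
      push_cast
      simp
    rw [h, h, ← Complex.ofReal_add, Complex.ofReal_re]
  rw [e]
  nlinarith [sq_nonneg (Real.sqrt t1 * ‖z 0‖ - Real.sqrt t3 * ‖z 2‖)]

/-! ### the lists after the eliminations -/

/-- **`RW` for the class `St s` from the form, weight `1`, any majorant of `τ conj A`** -/
theorem RW_of_PTE {Q : Type} [Fintype Q] {Ψ : Psi9 Q} {s : ℝ} {X : ℝ → ℝ} (hX : St s X) (hb : ∀ a, |X a| ≤ 1)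
    {v : Fin 21 → ℚ} {u : Q → ℝ} {μ im : ℚ} (hμ : 0 < μ) (him : im * (2 * μ) ≤ 1)
    {d : Dv} {τ : ℂ} (hd : ∀ A B z N M S R G : ℂ, dev9 Ψ u (mo (C9 Ψ) va X e1) A B N M S R G =
      d.val (zz A B z N M) (vl va X e1) (Zr 2 va X e1) S R G + τ * conj A)
    {e : Tf} {f : Qf} (hE : ∀ z : ℕ → ℂ, 2 * (z 2 * (τ * conj (z 0))).re ≤
      (e2 z (vl va X e1) e + eq2 z (Zr 2 va X e1) f).re) {k3 k4 : ℚ}
    (hk : Pok v im 0 0 d k3 k4 = true)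
    (h : ∀ z : ℕ → ℂ, 0 ≤ (e2 z (vl va X e1) (PT v im 0 0 d k3 k4 ++ smT (-1) e)
      + eq2 z (Zr 2 va X e1) (PQ v d ++ smQ (-1) f)).re) :
    BTG.RW (C9 Ψ) va X e1 (fun i => ((v i : ℚ) : ℝ)) u μ 1 := by
  have H := fr_va hX hb
  have u0 : vl va X e1 0 = 1 := by simp [vl]
  unfold Pok at hk
  simp only [Bool.and_eq_true, decide_eq_true_eq] at hk
  obtain ⟨o3, p3, q3, o4, p4, q4⟩ := hk
  have w1 : ∀ e : ℂ, qr [(1, 0)] e = 1 := fun e => by simp [qr]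
  refine RW9_of_FE (m1 := pm1 v d) (m2 := pm2 v d) (m3 := pm3 v d) (m4 := pm4 v d) (w := [(1, 0)]) H hμ him hd
    hE (fun e _ => by rw [w1]; exact one_pos) (by simp only [w1]; simp) fun z => ?_
  have h' := h z
  rw [e2_append, eq2_append, e2_smT, eq2_smQ] at h'
  have i4 := elim_le (z := z) u0 o4 p4 q4
  have i3 := elim_le (z := z) u0 o3 p3 q3
  unfold PT at h'
  rw [e2_mrgT] at h'
  have e0 : e2 z (vl va X e1) (PT0 v im 0 0 d) = e2 z (vl va X e1)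
      (F9T v im 0 0 d (pm1 v d) (pm2 v d) (pm3 v d) (pm4 v d) [(1, 0)]) := by
    unfold PT0
    rw [e2_mrgT]
  rw [e0] at i3
  have e5 : PQ v d = F9Q v d (pm1 v d) (pm2 v d) (pm3 v d) (pm4 v d) [(1, 0)] := rfl
  rw [e5] at h'
  simp only [Complex.add_re, Rat.cast_neg, Rat.cast_one, neg_mul, one_mul, Complex.neg_re] at h' ⊢
  linarith

/-- **`RW` for the class `St s` from the form, Poisson weight, any majorant of `τ conj A`** -/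
theorem RW_of_PTWE {Q : Type} [Fintype Q] {Ψ : Psi9 Q} {s : ℝ} {X : ℝ → ℝ} (hX : St s X) (hb : ∀ a, |X a| ≤ 1)
    {v : Fin 21 → ℚ} {u : Q → ℝ} {μ im : ℚ} (hμ : 0 < μ) (him : im * (2 * μ) ≤ 1)
    {d : Dv} {τ : ℂ} (hd : ∀ A B z N M S R G : ℂ, dev9 Ψ u (mo (C9 Ψ) va X e1) A B N M S R G =
      d.val (zz A B z N M) (vl va X e1) (Zr 2 va X e1) S R G + τ * conj A)
    {e : Tf} {f : Qf} (hE : ∀ z : ℕ → ℂ, 2 * (z 2 * (τ * conj (z 0))).re ≤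
      (e2 z (vl va X e1) e + eq2 z (Zr 2 va X e1) f).re) {t : ℚ} (ht : |t| < 1) {k3 k4 : ℚ}
    (hk : PokW v im 0 0 d t k3 k4 = true)
    (h : ∀ z : ℕ → ℂ, 0 ≤ (e2 z (vl va X e1) (PTW v im 0 0 d t k3 k4 ++ smT (-1) e)
      + eq2 z (Zr 2 va X e1) (PQW v d t ++ smQ (-1) f)).re) :
    BTG.RW (C9 Ψ) va X e1 (fun i => ((v i : ℚ) : ℝ)) u μ 1 := by
  have H := fr_va hX hb
  have u0 : vl va X e1 0 = 1 := by simp [vl]
  have ht' : |(t : ℝ)| < 1 := by exact_mod_cast ht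
  unfold PokW at hk
  simp only [Bool.and_eq_true, decide_eq_true_eq] at hk
  obtain ⟨o3, p3, q3, o4, p4, q4⟩ := hk
  refine RW9_of_FE (m1 := mW v d t 2) (m2 := mW v d t 1) (m3 := mW v d t 3) (m4 := mW v d t 0) (w := wP t) H hμ him
    hd hE (fun e he => qr_wP_pos ht' he) (int_wP H ht').le fun z => ?_
  have h' := h z
  rw [e2_append, eq2_append, e2_smT, eq2_smQ] at h'
  have i4 := elim_le (z := z) u0 o4 p4 q4
  have i3 := elim_le (z := z) u0 o3 p3 q3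
  unfold PTW at h'
  rw [e2_mrgT] at h'
  have e0 : e2 z (vl va X e1) (PTW0 v im 0 0 d t) = e2 z (vl va X e1)
      (F9T v im 0 0 d (mW v d t 2) (mW v d t 1) (mW v d t 3) (mW v d t 0) (wP t)) := by
    unfold PTW0
    rw [e2_mrgT]
  rw [e0] at i3
  have e5 : PQW v d t = F9Q v d (mW v d t 2) (mW v d t 1) (mW v d t 3) (mW v d t 0) (wP t) := rfl
  rw [e5] at h'
  simp only [Complex.add_re, Rat.cast_neg, Rat.cast_one, neg_mul, one_mul, Complex.neg_re] at h' ⊢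
  linarith

/-- **`RW` for `xi8`, weight `1`, `|τ| ≤ (Σ α_n |u_n| + β q₀) q₀`** -/
theorem RW_of_PT8Y {s : ℝ} {X : ℝ → ℝ} (hX : St s X) (hb : ∀ a, |X a| ≤ 1) {v : Fin 21 → ℚ} {U : Fin 28 → ℚ}
    {μ im : ℚ} (hμ : 0 < μ) (him : im * (2 * μ) ≤ 1) {τ : ℂ} {L : Ly} {be Qb S1 W1 : ℚ}
    (hQ : (Zr 2 va X e1 0).re ≤ Qb) (hY : okY L be Qb S1 W1 = true)
    (hτ : ‖τ‖ ≤ (L.sum (vl va X e1) + be * (Zr 2 va X e1 0).re) * (Zr 2 va X e1 0).re)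
    {k3 k4 : ℚ} (hk : Pok v im 0 0 (dv8 U) k3 k4 = true)
    (h : ∀ z : ℕ → ℂ, 0 ≤ (e2 z (vl va X e1) (PT v im 0 0 (dv8 U) k3 k4 ++ smT (-1) (eY L))
      + eq2 z (Zr 2 va X e1) (PQ v (dv8 U) ++ smQ (-1) (fY S1 W1))).re) :
    BTG.RW (C9 Psi8) va X e1 (fun i => ((v i : ℚ) : ℝ)) (ut U τ) μ 1 := by
  have H := fr_va hX hb
  exact RW_of_PTE hX hb hμ him (hd8 H U τ) (hE_Y H.z2.1 H.z2.2 hQ hY hτ) hk h

/-- **`RW` for `xi8`, Poisson weight, `|τ| ≤ (Σ α_n |u_n| + β q₀) q₀`** -/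
theorem RW_of_PTW8Y {s : ℝ} {X : ℝ → ℝ} (hX : St s X) (hb : ∀ a, |X a| ≤ 1) {v : Fin 21 → ℚ} {U : Fin 28 → ℚ}
    {μ im : ℚ} (hμ : 0 < μ) (him : im * (2 * μ) ≤ 1) {τ : ℂ} {L : Ly} {be Qb S1 W1 : ℚ}
    (hQ : (Zr 2 va X e1 0).re ≤ Qb) (hY : okY L be Qb S1 W1 = true)
    (hτ : ‖τ‖ ≤ (L.sum (vl va X e1) + be * (Zr 2 va X e1 0).re) * (Zr 2 va X e1 0).re)
    {t : ℚ} (ht : |t| < 1) {k3 k4 : ℚ} (hk : PokW v im 0 0 (dv8 U) t k3 k4 = true)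
    (h : ∀ z : ℕ → ℂ, 0 ≤ (e2 z (vl va X e1) (PTW v im 0 0 (dv8 U) t k3 k4 ++ smT (-1) (eY L))
      + eq2 z (Zr 2 va X e1) (PQW v (dv8 U) t ++ smQ (-1) (fY S1 W1))).re) :
    BTG.RW (C9 Psi8) va X e1 (fun i => ((v i : ℚ) : ℝ)) (ut U τ) μ 1 := by
  have H := fr_va hX hb
  exact RW_of_PTWE hX hb hμ him (hd8 H U τ) (hE_Y H.z2.1 H.z2.2 hQ hY hτ) ht hk h

end Pool.Agent.FPX.BRG
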