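import Mathlib
import Pool.Agent.FPX.BRP

/-
BRP2 (helper98): the two-parameter weight `1 / q`, `q = κ |1 + a e² + b e⁴|²`, `|a| + |b| < 1`, with
`κ = (1 + b) / ((1 - b) ((1 + b)² - a²))`, so that the mean of `1 / q` is `1`.
-/

open MeasureTheory Set Filter Topology Complex
open scoped ENNReal NNReal ContDiff ComplexConjugate

noncomputable section

namespace Pool.Agent.FPX.BRG

open Pool.Agent.FPX.CRD (Bm)

variable {Ω : Type*} [MeasurableSpace Ω] {ν : Measure Ω} {x : Ω → ℝ} {E : Ω → ℂ}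

/-- the constant `κ` -/
def kap2 (a b : ℚ) : ℚ := (1 + b) / ((1 - b) * ((1 + b) ^ 2 - a ^ 2))

/-- the weight `q = κ |1 + a e² + b e⁴|²` -/
def wP2 (a b : ℚ) : Wr :=
  [(kap2 a b * (1 + a ^ 2 + b ^ 2), 0), (kap2 a b * (2 * (a + a * b)), 1), (kap2 a b * (2 * b), 2)]

/-- `1 / (1 + a e² + b e⁴)` -/
def gQ (a b : ℝ) (E : Ω → ℂ) (t : Ω) : ℂ := 1 / (1 + (a : ℂ) * E t ^ 2 + (b : ℂ) * (E t ^ 2) ^ 2)

theorem pQ_ge {a b : ℝ} {w : ℂ} (hw : ‖w‖ = 1) : 1 - (|a| + |b|) ≤ ‖1 + (a : ℂ) * w + (b : ℂ) * w ^ 2‖ := by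
  have h1 : ‖(a : ℂ) * w‖ = |a| := by rw [norm_mul, hw, mul_one, Complex.norm_real, Real.norm_eq_abs]
  have h2 : ‖(b : ℂ) * w ^ 2‖ = |b| := by
    rw [norm_mul, norm_pow, hw, one_pow, mul_one, Complex.norm_real, Real.norm_eq_abs]
  have h3 := norm_add_le (1 + (a : ℂ) * w + (b : ℂ) * w ^ 2) (-((a : ℂ) * w + (b : ℂ) * w ^ 2))
  have h4 : 1 + (a : ℂ) * w + (b : ℂ) * w ^ 2 + -((a : ℂ) * w + (b : ℂ) * w ^ 2) = 1 := by ring
  rw [h4, norm_one, norm_neg] at h3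
  have h5 := norm_add_le ((a : ℂ) * w) ((b : ℂ) * w ^ 2)
  rw [h1, h2] at h5
  linarith

theorem pQ_ne {a b : ℝ} (h : |a| + |b| < 1) {w : ℂ} (hw : ‖w‖ = 1) : 1 + (a : ℂ) * w + (b : ℂ) * w ^ 2 ≠ 0 := by
  intro h0
  have := pQ_ge (a := a) (b := b) hw
  rw [h0, norm_zero] at this
  linarith

theorem nw (H : Fr ν x E) (t : Ω) : ‖E t ^ 2‖ = 1 := by rw [norm_pow, H.norm1 t, one_pow]

theorem gQ_le (H : Fr ν x E) {a b : ℝ} (h : |a| + |b| < 1) (t : Ω) : ‖gQ a b E t‖ ≤ 1 / (1 - (|a| + |b|)) := by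
  unfold gQ
  rw [norm_div, norm_one]
  exact one_div_le_one_div_of_le (by linarith) (pQ_ge (nw H t))

theorem gQ_bm (H : Fr ν x E) {a b : ℝ} (h : |a| + |b| < 1) : Bm (gQ a b E) :=
  ⟨measurable_const.div (((measurable_const.add (measurable_const.mul (H.bE.meas.pow_const 2)))).add
    (measurable_const.mul ((H.bE.meas.pow_const 2).pow_const 2))), 1 / (1 - (|a| + |b|)), gQ_le H h⟩

/-- the recursion of the integrals -/
theorem intQ_rec (H : Fr ν x E) {a b : ℝ} (h : |a| + |b| < 1) (n : ℕ) :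
    ∫ t, E t ^ (2 * n + 2) * gQ a b E t ∂ν = -((a : ℂ) * ∫ t, E t ^ (2 * (n + 1) + 2) * gQ a b E t ∂ν
      + (b : ℂ) * ∫ t, E t ^ (2 * (n + 2) + 2) * gQ a b E t ∂ν) := by
  have := H.pr
  have b1 : Integrable (fun t => E t ^ (2 * n + 2)) ν := (pow_bm H _).int
  have b2 : Integrable (fun t => E t ^ (2 * (n + 1) + 2) * gQ a b E t) ν := ((pow_bm H _).mul (gQ_bm H h)).int
  have b3 : Integrable (fun t => E t ^ (2 * (n + 2) + 2) * gQ a b E t) ν := ((pow_bm H _).mul (gQ_bm H h)).int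
  have e0 : ∫ t, E t ^ (2 * n + 2) ∂ν = 0 := H.en _ (by omega)
  have e : (fun t => E t ^ (2 * n + 2) * gQ a b E t) =
      fun t => E t ^ (2 * n + 2) - ((a : ℂ) * (E t ^ (2 * (n + 1) + 2) * gQ a b E t)
        + (b : ℂ) * (E t ^ (2 * (n + 2) + 2) * gQ a b E t)) := by
    funext t
    have hg : gQ a b E t * (1 + (a : ℂ) * E t ^ 2 + (b : ℂ) * (E t ^ 2) ^ 2) = 1 :=
      one_div_mul_cancel (pQ_ne h (nw H t))
    linear_combination (E t ^ (2 * n + 2)) * hg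
  have I2 : Integrable (fun t => (a : ℂ) * (E t ^ (2 * (n + 1) + 2) * gQ a b E t)) ν := b2.const_mul _
  have I3 : Integrable (fun t => (b : ℂ) * (E t ^ (2 * (n + 2) + 2) * gQ a b E t)) ν := b3.const_mul _
  have I4 : Integrable (fun t => (a : ℂ) * (E t ^ (2 * (n + 1) + 2) * gQ a b E t)
      + (b : ℂ) * (E t ^ (2 * (n + 2) + 2) * gQ a b E t)) ν := I2.add I3
  rw [e, integral_sub b1 I4, e0, zero_sub, integral_add I2 I3, integral_const_mul, integral_const_mul]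

theorem intQ_le (H : Fr ν x E) {a b : ℝ} (h : |a| + |b| < 1) (m : ℕ) : ∀ n : ℕ,
    ‖∫ t, E t ^ (2 * n + 2) * gQ a b E t ∂ν‖ ≤ (|a| + |b|) ^ m * (1 / (1 - (|a| + |b|))) := by
  have := H.pr
  induction m with
  | zero =>
    intro n
    have := norm_integral_le_of_norm_le_const (μ := ν) (C := 1 / (1 - (|a| + |b|)))
      (f := fun t => E t ^ (2 * n + 2) * gQ a b E t) (Eventually.of_forall fun t => by
        rw [norm_mul, norm_pow, H.norm1 t, one_pow, one_mul]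
        exact gQ_le H h t)
    simpa using this
  | succ m ih =>
    intro n
    rw [intQ_rec H h n, norm_neg]
    refine (norm_add_le _ _).trans ?_
    rw [norm_mul, norm_mul, Complex.norm_real, Complex.norm_real, Real.norm_eq_abs, Real.norm_eq_abs]
    have h1 := mul_le_mul_of_nonneg_left (ih (n + 1)) (abs_nonneg a)
    have h2 := mul_le_mul_of_nonneg_left (ih (n + 2)) (abs_nonneg b)
    rw [pow_succ]
    linarith

theorem intQ_zero (H : Fr ν x E) {a b : ℝ} (h : |a| + |b| < 1) (n : ℕ) :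
    ∫ t, E t ^ (2 * n + 2) * gQ a b E t ∂ν = 0 := by
  have hl : Tendsto (fun m : ℕ => (|a| + |b|) ^ m * (1 / (1 - (|a| + |b|)))) atTop
      (𝓝 (0 * (1 / (1 - (|a| + |b|))))) :=
    (tendsto_pow_atTop_nhds_zero_of_lt_one (by positivity) h).mul_const _
  rw [zero_mul] at hl
  have h0 : ‖∫ t, E t ^ (2 * n + 2) * gQ a b E t ∂ν‖ ≤ 0 :=
    ge_of_tendsto hl (Eventually.of_forall fun m => intQ_le H h m n)
  exact norm_le_zero_iff.1 h0

section alg

variable {a b : ℝ}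

theorem den2 (h : |a| + |b| < 1) : 0 < 1 + b ∧ 0 < 1 - b ∧ 0 < (1 + b) ^ 2 - a ^ 2 := by
  have h1 := abs_le.1 (le_refl |a|)
  have h2 := abs_le.1 (le_refl |b|)
  have h3 := abs_nonneg a
  have h4 := abs_nonneg b
  refine ⟨by linarith, by linarith, ?_⟩
  have : (1 + b) ^ 2 - a ^ 2 = (1 + b - a) * (1 + b + a) := by ring
  rw [this]
  exact mul_pos (by linarith) (by linarith)

/-- `|1 + a w + b w²|²` on the circle -/
theorem nsq (w : ℂ) (hw : w.re ^ 2 + w.im ^ 2 = 1) :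
    Complex.normSq (1 + (a : ℂ) * w + (b : ℂ) * w ^ 2) =
      1 + a ^ 2 + b ^ 2 + 2 * (a + a * b) * w.re + 2 * b * (w ^ 2).re := by
  rw [Complex.normSq_apply]
  simp only [Complex.add_re, Complex.add_im, Complex.one_re, Complex.one_im, Complex.mul_re, Complex.mul_im,
    Complex.ofReal_re, Complex.ofReal_im, pow_two]
  have e1 : w.im * w.im = 1 - w.re * w.re := by nlinarith
  linear_combination (a ^ 2 + b ^ 2 * (w.re * w.re + w.im * w.im + 1) + 2 * a * b * w.re) * hw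

/-- the identity `|p|² - 2 Re ((a / (1 + b) w + b w²) conj p) = 1 / κ` -/
theorem idQ (hb : 1 + b ≠ 0) (w : ℂ) (hw : w.re ^ 2 + w.im ^ 2 = 1) :
    2 * ((((a / (1 + b) : ℝ) : ℂ) * w + (b : ℂ) * w ^ 2) * conj (1 + (a : ℂ) * w + (b : ℂ) * w ^ 2)).re
      = 1 + a ^ 2 + b ^ 2 + 2 * (a + a * b) * w.re + 2 * b * (w ^ 2).re
        - (1 - b) * ((1 + b) ^ 2 - a ^ 2) / (1 + b) := by
  obtain ⟨c, hc⟩ : ∃ c : ℝ, c = a / (1 + b) := ⟨_, rfl⟩
  have ha : a = c * (1 + b) := by rw [hc]; field_simp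
  rw [← hc]
  have e : (1 - b) * ((1 + b) ^ 2 - a ^ 2) / (1 + b) = (1 - b) * (1 + b - c ^ 2 * (1 + b)) := by
    rw [ha]
    field_simp
  rw [e]
  simp only [map_add, map_one, map_mul, Complex.conj_ofReal, Complex.add_re, Complex.add_im, Complex.one_re,
    Complex.one_im, Complex.mul_re, Complex.mul_im, Complex.ofReal_re, Complex.ofReal_im, Complex.conj_re,
    Complex.conj_im, pow_two]
  rw [ha]
  linear_combination (2 * c ^ 2 * (1 + b) + 2 * b ^ 2 * (w.re * w.re + w.im * w.im + 1)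
    + 2 * (c * b + b * (c * (1 + b))) * w.re) * hw

end alg

theorem qr_wP2 (a b : ℚ) (e : ℂ) : qr (wP2 a b) e = (kap2 a b : ℝ)
    * (1 + (a : ℝ) ^ 2 + (b : ℝ) ^ 2 + 2 * ((a : ℝ) + a * b) * (e ^ 2).re + 2 * b * ((e ^ 2) ^ 2).re) := by
  unfold qr wP2
  simp only [List.map_cons, List.map_nil, List.sum_cons, List.sum_nil, mul_zero, pow_zero, mul_one,
    Complex.one_re, add_zero]
  rw [show (e ^ 2) ^ 2 = e ^ (2 * 2) by rw [← pow_mul]]
  push_cast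
  ring

theorem kap2_pos {a b : ℚ} (h : |(a : ℝ)| + |(b : ℝ)| < 1) : (0 : ℝ) < kap2 a b := by
  obtain ⟨h1, h2, h3⟩ := den2 h
  unfold kap2
  push_cast
  positivity

theorem w1 {e : ℂ} (he : ‖e‖ = 1) : (e ^ 2).re ^ 2 + (e ^ 2).im ^ 2 = 1 := by
  have : Complex.normSq (e ^ 2) = 1 := by rw [Complex.normSq_eq_norm_sq, norm_pow, he]; norm_num
  rw [Complex.normSq_apply] at this
  nlinarith

theorem qr_wP2_pos {a b : ℚ} (h : |(a : ℝ)| + |(b : ℝ)| < 1) {e : ℂ} (he : ‖e‖ = 1) : 0 < qr (wP2 a b) e := by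
  rw [qr_wP2, ← nsq (a := (a : ℝ)) (b := (b : ℝ)) _ (w1 he)]
  have hn : ‖e ^ 2‖ = 1 := by rw [norm_pow, he, one_pow]
  exact mul_pos (kap2_pos h) (Complex.normSq_pos.2 (pQ_ne h hn))

/-- **the mean of the weight is `1`** -/
theorem int_wP2 (H : Fr ν x E) {a b : ℚ} (h : |(a : ℝ)| + |(b : ℝ)| < 1) :
    ∫ o, 1 / qr (wP2 a b) (E o) ∂ν = 1 := by
  have := H.pr
  obtain ⟨d1, d2, d3⟩ := den2 h
  set c : ℝ := (a : ℝ) / (1 + b) with hc
  have e : (fun o => ((1 / qr (wP2 a b) (E o) : ℝ))) = fun o => 1 - 2 * (((c : ℝ) : ℂ)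
      * (E o ^ (2 * 0 + 2) * gQ a b E o) + ((b : ℝ) : ℂ) * (E o ^ (2 * 1 + 2) * gQ a b E o)).re := by
    funext o
    set w : ℂ := E o ^ 2 with hw
    have hn : ‖w‖ = 1 := nw H o
    have hw1 : w.re ^ 2 + w.im ^ 2 = 1 := w1 (H.norm1 o)
    have hp : 1 + ((a : ℝ) : ℂ) * w + ((b : ℝ) : ℂ) * w ^ 2 ≠ 0 := pQ_ne h hn
    have hN := nsq (a := (a : ℝ)) (b := (b : ℝ)) w hw1
    have hI := idQ (a := (a : ℝ)) (b := (b : ℝ)) d1.ne' w hw1
    rw [← hc] at hI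
    set p : ℂ := 1 + ((a : ℝ) : ℂ) * w + ((b : ℝ) : ℂ) * w ^ 2 with hpd
    have hpos : 0 < Complex.normSq p := Complex.normSq_pos.2 hp
    have hg : gQ a b E o = conj p / ((Complex.normSq p : ℝ) : ℂ) := by
      unfold gQ
      rw [← hw, ← hpd, Complex.normSq_eq_conj_mul_self]
      have hcp : conj p ≠ 0 := fun h => hp (by simpa using congrArg conj h)
      field_simp
    have hs : ((c : ℝ) : ℂ) * (E o ^ (2 * 0 + 2) * gQ a b E o) + ((b : ℝ) : ℂ) * (E o ^ (2 * 1 + 2) * gQ a b E o)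
        = ((((c : ℝ) : ℂ) * w + ((b : ℝ) : ℂ) * w ^ 2) * conj p) / ((Complex.normSq p : ℝ) : ℂ) := by
      rw [hg, hw]
      ring
    rw [hs, Complex.div_ofReal_re, qr_wP2, ← hw, ← hN]
    have hk : (kap2 a b : ℝ) = (1 + b) / ((1 - b) * ((1 + b) ^ 2 - a ^ 2)) := by
      unfold kap2
      push_cast
      rfl
    have hq : ((((c : ℝ) : ℂ) * w + ((b : ℝ) : ℂ) * w ^ 2) * conj p).re
        = (Complex.normSq p - (1 - b) * ((1 + b) ^ 2 - a ^ 2) / (1 + b)) / 2 := by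
      rw [hN]
      linarith
    rw [hq, hk]
    have d1' := d1.ne'
    have d2' := d2.ne'
    have d3' := d3.ne'
    have hn' := hpos.ne'
    field_simp
    ring
  have hJ : ∀ (r : ℝ) (n : ℕ), Integrable (fun o => ((r : ℝ) : ℂ) * (E o ^ (2 * n + 2) * gQ a b E o)) ν := fun r n =>
    (((pow_bm H _).mul (gQ_bm H h)).int).const_mul _
  have hI : Integrable (fun o => ((c : ℝ) : ℂ) * (E o ^ (2 * 0 + 2) * gQ a b E o)
      + ((b : ℝ) : ℂ) * (E o ^ (2 * 1 + 2) * gQ a b E o)) ν := (hJ _ _).add (hJ _ _)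
  have e2 : ∫ o, (((c : ℝ) : ℂ) * (E o ^ (2 * 0 + 2) * gQ a b E o)
      + ((b : ℝ) : ℂ) * (E o ^ (2 * 1 + 2) * gQ a b E o)).re ∂ν = 0 := by
    have h1 := integral_re hI
    have h0 : ∫ o, (((c : ℝ) : ℂ) * (E o ^ (2 * 0 + 2) * gQ a b E o)
        + ((b : ℝ) : ℂ) * (E o ^ (2 * 1 + 2) * gQ a b E o)) ∂ν = 0 := by
      rw [integral_add (hJ _ _) (hJ _ _), integral_const_mul, integral_const_mul, intQ_zero H h, intQ_zero H h,
        mul_zero, mul_zero, add_zero]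
    rw [h0] at h1
    simpa using h1
  have hR : Integrable (fun o => (((c : ℝ) : ℂ) * (E o ^ (2 * 0 + 2) * gQ a b E o)
      + ((b : ℝ) : ℂ) * (E o ^ (2 * 1 + 2) * gQ a b E o)).re) ν := hI.re
  rw [e, integral_sub (integrable_const _) (hR.const_mul 2), integral_const_mul, e2]
  simp

end Pool.Agent.FPX.BRG
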