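import Mathlib
import Pool.Agent.FPX.BRZ

/-
BRU (helper84): state dependent weights. For `h = h₀ (1 + y) + g` one has
`|h|² / (1 + y) = |h₀|² (1 + y) + 2 Re (conj h₀ g) + |g|² / (1 + y)`, with `y` a real trigonometric polynomial whose
coefficients are moments of the state, `h₀` independent of the state: quadratic in the state apart from the
denominator in front of `|g|²`, which is replaced by a combination of trigonometric polynomials `p_k`.
-/

open MeasureTheory Set Filter Topology Complex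
open scoped ENNReal NNReal ContDiff ComplexConjugate

noncomputable section

namespace Pool.Agent.FPX.BRG

open Pool.Agent.FPX.CRD (Bm)
open Pool.Agent.FPX.ALX (St)
open Pool.Agent.FPX.BTN (va e1)
open Pool.Agent.FPX.BTG (mo)
open Pool.Agent.FPX.BTI

variable {Ω : Type*} [MeasurableSpace Ω]

/-- a real function `Σ c Re (u_n e^f)` -/
abbrev Yr := List (ℚ × ℤ × ℕ)

/-- a Laurent polynomial `Σ c u_n e^f` -/
abbrev Yl := List (ℚ × ℤ × ℤ)

def yr (u : ℤ → ℂ) (y : Yr) (e : ℂ) : ℝ := (y.map fun t => (t.1 : ℝ) * (u t.2.1 * e ^ t.2.2).re).sum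

def yl (u : ℤ → ℂ) (y : Yl) (e : ℂ) : ℂ := (y.map fun t => (t.1 : ℂ) * (u t.2.1 * e ^ t.2.2)).sum

/-- symmetrisation -/
def ys (y : Yr) : Yl := y.flatMap fun t => [(t.1 / 2, t.2.1, (t.2.2 : ℤ)), (t.1 / 2, -t.2.1, -(t.2.2 : ℤ))]

/-- even frequencies, nonzero; the modes odd or `0` -/
def Yr.ok (y : Yr) : Bool := y.all fun t => t.2.2 % 2 = 0 && t.2.2 ≠ 0

theorem yl_append (u : ℤ → ℂ) (y y' : Yl) (e : ℂ) : yl u (y ++ y') e = yl u y e + yl u y' e := by simp [yl]

theorem yl_ys {u : ℤ → ℂ} (hu : ∀ n, u (-n) = conj (u n)) (y : Yr) {e : ℂ} (he : ‖e‖ = 1) :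
    yl u (ys y) e = ((yr u y e : ℝ) : ℂ) := by
  have he' : e * conj e = 1 := by rw [Complex.mul_conj, Complex.normSq_eq_norm_sq, he]; norm_num
  have hi : e⁻¹ = conj e := (eq_inv_of_mul_eq_one_right he').symm
  induction y with
  | nil => simp [ys, yl, yr]
  | cons t y ih =>
    have e0 : ys (t :: y) = [(t.1 / 2, t.2.1, (t.2.2 : ℤ)), (t.1 / 2, -t.2.1, -(t.2.2 : ℤ))] ++ ys y := rfl
    have e1 : yr u (t :: y) e = (t.1 : ℝ) * (u t.2.1 * e ^ t.2.2).re + yr u y e := by simp [yr]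
    rw [e0, yl_append, ih, e1]
    have e2 : e ^ (-(t.2.2 : ℤ)) = conj (e ^ t.2.2) := by
      rw [zpow_neg, map_pow, ← hi, inv_pow]
      norm_cast
    have e3 : ((((u t.2.1 * e ^ t.2.2).re : ℝ)) : ℂ) = (u t.2.1 * e ^ t.2.2 + conj (u t.2.1 * e ^ t.2.2)) / 2 := by
      rw [Complex.add_conj]
      push_cast
      ring
    simp only [yl, List.map_cons, List.map_nil, List.sum_cons, List.sum_nil, hu, e2, zpow_natCast]
    push_cast
    rw [e3, map_mul]
    ring

theorem yr_cont (u : ℤ → ℂ) (y : Yr) : Continuous (yr u y) := by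
  induction y with
  | nil => exact continuous_const
  | cons t y ih =>
    have : yr u (t :: y) = fun e => (t.1 : ℝ) * (u t.2.1 * e ^ t.2.2).re + yr u y e := by
      funext e
      simp [yr]
    rw [this]
    exact (continuous_const.mul (Complex.continuous_re.comp (continuous_const.mul (continuous_pow _)))).add ih

/-- the state independent part -/
abbrev A0l := List (ℤ × Bf)

def smB (c : ℚ) (b : Bf) : Bf := b.map fun t => (c * t.1, t.2)

theorem bev_smB (c : ℚ) (b : Bf) (z : ℕ → ℂ) : bev z (smB c b) = (c : ℂ) * bev z b := by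
  induction b with
  | nil => simp [smB]
  | cons t b ih =>
    have : smB c (t :: b) = (c * t.1, t.2) :: smB c b := rfl
    rw [this, bev_cons, ih, bev_cons]
    push_cast
    ring

/-- the value of the state independent part -/
def A0l.f (A : A0l) (z : ℕ → ℂ) (e : ℂ) : ℂ := pe (A.map fun p => (p.1, bev z p.2)) e

/-- `g = h - h₀ (1 + y)` -/
def gk (k : Kr) (A : A0l) (y : Yl) : Kr :=
  ⟨k.A ++ (A.map (fun p => (p.1, sh (smB (-1) p.2) 0))
    ++ A.flatMap fun p => y.map fun t => (p.1 + t.2.2, sh (smB (-t.1) p.2) t.2.1)), k.B⟩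

theorem pe_append (P Q : List (ℤ × ℂ)) (e : ℂ) : pe (P ++ Q) e = pe P e + pe Q e := by simp [pe]

theorem gk_f (k : Kr) (A : A0l) (y : Yl) (z : ℕ → ℂ) {u : ℤ → ℂ} (u0 : u 0 = 1) {e : ℂ} (he : e ≠ 0) (x : ℝ) :
    (gk k A y).f z u e x = k.f z u e x - A.f z e * (1 + yl u y e) := by
  have h1 : pe ((A.map (fun p => (p.1, sh (smB (-1) p.2) 0))).map fun p => (p.1, BRG.ev z u p.2)) e = -A.f z e := by
    unfold A0l.f
    induction A with
    | nil => simp [pe]
    | cons p A ih =>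
      simp only [List.map_cons, pe_cons] at ih ⊢
      rw [ih, ev_sh, bev_smB, u0]
      push_cast
      ring
  have h2 : pe ((A.flatMap fun p => y.map fun t => (p.1 + t.2.2, sh (smB (-t.1) p.2) t.2.1)).map
      fun p => (p.1, BRG.ev z u p.2)) e = -A.f z e * yl u y e := by
    clear h1
    unfold A0l.f
    induction A with
    | nil => simp [pe]
    | cons p A ih =>
      rw [List.flatMap_cons, List.map_append, pe_append, ih, List.map_cons, pe_cons]
      have h3 : pe ((y.map fun t => (p.1 + t.2.2, sh (smB (-t.1) p.2) t.2.1)).map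
          fun p => (p.1, BRG.ev z u p.2)) e = -(bev z p.2 * e ^ p.1) * yl u y e := by
        clear ih
        induction y with
        | nil => simp [pe, yl]
        | cons t y ih =>
          simp only [List.map_cons, pe_cons] at ih ⊢
          rw [ih, ev_sh, bev_smB, zpow_add₀ he]
          simp only [yl, List.map_cons, List.sum_cons]
          push_cast
          ring
      rw [h3]
      ring
  have h3 : (gk k A y).f z u e x = pe (k.pA z u) e
      + (pe ((A.map (fun p => (p.1, sh (smB (-1) p.2) 0))).map fun p => (p.1, BRG.ev z u p.2)) e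
        + pe ((A.flatMap fun p => y.map fun t => (p.1 + t.2.2, sh (smB (-t.1) p.2) t.2.1)).map
          fun p => (p.1, BRG.ev z u p.2)) e) + x * pe (k.pB z) e := by
    unfold Kr.f Kr.pA gk Kr.pB
    simp only [List.map_append, pe_append]
  rw [h3, h1, h2]
  unfold Kr.f
  ring

/-- rank one terms of `mean (|h₀|² (1 + y))` -/
def T00 (A : A0l) (y : Yl) : Tf :=
  (A.flatMap fun p => A.flatMap fun q => if p.1 - q.1 + 0 = 0 then [(1, sh p.2 0, sh q.2 0)] else [])
  ++ y.flatMap fun t => A.flatMap fun p => A.flatMap fun q =>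
      if p.1 - q.1 + t.2.2 = 0 then [(t.1, sh p.2 t.2.1, sh q.2 0)] else []

/-- rank one terms of `2 mean (g conj h₀)` -/
def T01 (g : Kr) (A : A0l) : Tf :=
  (g.A.flatMap fun p => A.flatMap fun q => if p.1 - q.1 + 0 = 0 then [(2, p.2, sh q.2 0)] else [])
  ++ (g.B.flatMap fun p => A.flatMap fun q =>
      if p.1 - q.1 + 0 = 1 ∨ p.1 - q.1 + 0 = -1 then [] else [(2, sh p.2 (p.1 - q.1 + 0), sh q.2 0)])

def A0l.par (A : A0l) : Bool := A.all fun p => p.1 % 2 = 1

section fr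

variable {ν : Measure Ω} {x : Ω → ℝ} {E : Ω → ℂ} (H : Fr ν x E)
include H

theorem Fr.bA (A : A0l) (z : ℕ → ℂ) : Bm fun t => A.f z (E t) := H.bpe _

theorem Fr.byl (y : Yl) (u : ℤ → ℂ) : Bm fun t => yl u y (E t) := by
  induction y with
  | nil => exact Bm.const 0
  | cons p y ih =>
    have : (fun t => yl u (p :: y) (E t)) = fun t => (p.1 : ℂ) * (u p.2.1 * E t ^ p.2.2) + yl u y (E t) := by
      funext t
      simp [yl]
    rw [this]
    exact ((Bm.const _).mul ((Bm.const _).mul (H.bz _))).add ih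

theorem Fr.int_h0k (A : A0l) (z : ℕ → ℂ) (m : ℤ) : ∫ t, E t ^ m * (A.f z (E t) * conj (A.f z (E t))) ∂ν =
    (A.map fun p => (A.map fun q => bev z p.2 * conj (bev z q.2) * (if p.1 - q.1 + m = 0 then 1 else 0)).sum).sum := by
  have h := H.ipq 0 m (A.map fun p => (p.1, bev z p.2)) (A.map fun p => (p.1, bev z p.2))
  simp only [pow_zero, one_mul, List.map_map] at h
  unfold A0l.f
  rw [h]
  congr 1
  refine List.map_congr_left fun p _ => ?_
  simp only [Function.comp_apply]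
  congr 1
  refine List.map_congr_left fun q _ => ?_
  simp only [Function.comp_apply]
  rw [H.z0]

theorem Fr.int_T00 (A : A0l) (y : Yl) (z : ℕ → ℂ) :
    ∫ t, (1 + yl (vl ν x E) y (E t)) * (A.f z (E t) * conj (A.f z (E t))) ∂ν = e2 z (vl ν x E) (T00 A y) := by
  have := H.pr
  have u0 : vl ν x E 0 = 1 := by simp [vl]
  have bA := (H.bA A z).mul (H.bA A z).conj
  have g1 : ∀ m : ℤ, ∀ c : ℚ, ∀ n : ℤ, e2 z (vl ν x E) (A.flatMap fun p => A.flatMap fun q =>
      if p.1 - q.1 + m = 0 then [(c, sh p.2 n, sh q.2 0)] else []) =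
      (c : ℂ) * vl ν x E n * ∫ t, E t ^ m * (A.f z (E t) * conj (A.f z (E t))) ∂ν := by
    intro m c n
    rw [H.int_h0k, e2_flatMap, ← List.sum_map_mul_left]
    congr 1
    refine List.map_congr_left fun p _ => ?_
    rw [e2_flatMap, ← List.sum_map_mul_left]
    congr 1
    refine List.map_congr_left fun q _ => ?_
    split_ifs
    · rw [e2_cons, e2_nil, ev_sh, ev_sh, u0]
      simp
      ring
    · simp
  have h0 : ∫ t, (1 + yl (vl ν x E) y (E t)) * (A.f z (E t) * conj (A.f z (E t))) ∂ν =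
      (∫ t, E t ^ (0 : ℤ) * (A.f z (E t) * conj (A.f z (E t))) ∂ν)
        + ∫ t, yl (vl ν x E) y (E t) * (A.f z (E t) * conj (A.f z (E t))) ∂ν := by
    rw [← integral_add ((H.bz 0).mul bA).int ((H.byl y _).mul bA).int]
    refine integral_congr_ae (Eventually.of_forall fun t => ?_)
    simp only [zpow_zero]
    ring
  rw [h0]
  unfold T00
  rw [e2_append, g1 0 1 0, u0]
  congr 1
  · simp
  · induction y with
    | nil => simp [yl]
    | cons t y ih =>
      have e1 : ∫ s, yl (vl ν x E) (t :: y) (E s) * (A.f z (E s) * conj (A.f z (E s))) ∂ν =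
          (t.1 : ℂ) * vl ν x E t.2.1 * (∫ s, E s ^ t.2.2 * (A.f z (E s) * conj (A.f z (E s))) ∂ν)
          + ∫ s, yl (vl ν x E) y (E s) * (A.f z (E s) * conj (A.f z (E s))) ∂ν := by
        rw [← integral_const_mul, ← integral_add ((Bm.const _).mul ((H.bz _).mul bA)).int ((H.byl y _).mul bA).int]
        refine integral_congr_ae (Eventually.of_forall fun s => ?_)
        simp only [yl, List.map_cons, List.sum_cons]
        ring
      have h0' : ∫ t, (1 + yl (vl ν x E) y (E t)) * (A.f z (E t) * conj (A.f z (E t))) ∂ν =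
          (∫ t, E t ^ (0 : ℤ) * (A.f z (E t) * conj (A.f z (E t))) ∂ν)
            + ∫ t, yl (vl ν x E) y (E t) * (A.f z (E t) * conj (A.f z (E t))) ∂ν := by
        rw [← integral_add ((H.bz 0).mul bA).int ((H.byl y _).mul bA).int]
        refine integral_congr_ae (Eventually.of_forall fun t => ?_)
        simp only [zpow_zero]
        ring
      rw [e1, ih h0', List.flatMap_cons, e2_append, g1 t.2.2 t.1 t.2.1]

theorem Fr.int_T01 (g : Kr) (hg : g.par = true) (A : A0l) (hA : A.par = true) (z : ℕ → ℂ) :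
    2 * ∫ t, g.f z (vl ν x E) (E t) (x t) * conj (A.f z (E t)) ∂ν = e2 z (vl ν x E) (T01 g A) := by
  have := H.pr
  have u0 : vl ν x E 0 = 1 := by simp [vl]
  have ha := H.ipq 0 0 (g.pA z (vl ν x E)) (A.map fun p => (p.1, bev z p.2))
  have hb := H.ipq 1 0 (g.pB z) (A.map fun p => (p.1, bev z p.2))
  have e0 : ∫ t, g.f z (vl ν x E) (E t) (x t) * conj (A.f z (E t)) ∂ν =
      (∫ t, (x t : ℂ) ^ 0 * E t ^ (0 : ℤ) * (pe (g.pA z (vl ν x E)) (E t)
        * conj (pe (A.map fun p => (p.1, bev z p.2)) (E t))) ∂ν)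
      + ∫ t, (x t : ℂ) ^ 1 * E t ^ (0 : ℤ) * (pe (g.pB z) (E t)
        * conj (pe (A.map fun p => (p.1, bev z p.2)) (E t))) ∂ν := by
    rw [← integral_add (((bm_pow H.bx 0).mul (H.bz 0)).mul ((H.bpe _).mul (H.bpe _).conj)).int
      (((bm_pow H.bx 1).mul (H.bz 0)).mul ((H.bpe _).mul (H.bpe _).conj)).int]
    refine integral_congr_ae (Eventually.of_forall fun t => ?_)
    simp only [zpow_zero, pow_zero, pow_one, Kr.f, A0l.f]
    ring
  rw [e0, ha, hb]
  unfold Kr.par at hg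
  rw [Bool.and_eq_true, List.all_eq_true, List.all_eq_true] at hg
  obtain ⟨hgA, hgB⟩ := hg
  unfold A0l.par at hA
  rw [List.all_eq_true] at hA
  have oA : ∀ p ∈ A, p.1 % 2 = 1 := fun p hp => by simpa using hA p hp
  have oB : ∀ p ∈ g.B, p.1 % 2 = 0 := fun p hp => by simpa using hgB p hp
  have mp : ∀ {α : Type} (l : List α) (f h : α → ℂ), (∀ a ∈ l, 2 * f a = h a) → 2 * (l.map f).sum = (l.map h).sum :=
    fun l f h hh => by
      rw [← List.sum_map_mul_left]
      congr 1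
      exact List.map_congr_left hh
  unfold T01
  rw [e2_append, mul_add]
  congr 1
  · rw [e2_flatMap]
    unfold Kr.pA
    rw [List.map_map]
    refine mp _ _ _ fun p hp => ?_
    rw [e2_flatMap]
    simp only [Function.comp_apply, List.map_map]
    refine mp _ _ _ fun q hq => ?_
    simp only [Function.comp_apply]
    rw [H.z0]
    split_ifs
    · rw [e2_cons, e2_nil, ev_sh, u0]
      simp
    · simp
  · rw [e2_flatMap]
    unfold Kr.pB
    rw [List.map_map]
    refine mp _ _ _ fun p hp => ?_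
    rw [e2_flatMap]
    simp only [Function.comp_apply, List.map_map]
    refine mp _ _ _ fun q hq => ?_
    simp only [Function.comp_apply]
    have h2 : (p.1 - q.1 + 0) % 2 = 1 := by
      have := oA q hq
      have := oB p hp
      omega
    split_ifs with h3
    · rcases h3 with h3 | h3 <;> rw [h3]
      · rw [H.z1p]; simp
      · rw [H.z1m]; simp
    · rw [e2_cons, e2_nil, ev_sh, ev_sh, u0, H.vl_odd h2]
      simp
      ring

/-- **the split** -/
theorem Fr.split (k : Kr) (A : A0l) (y : Yr) (hg : (gk k A (ys y)).par = true) (hA : A.par = true)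
    (z : ℕ → ℂ) {P : ℂ → ℝ} (hP : Bm fun t => ((P (E t) : ℝ) : ℂ))
    {δ : ℝ} (hδ : 0 < δ) (h1 : ∀ t, δ ≤ 1 + yr (vl ν x E) y (E t))
    (h2 : ∀ t, 1 ≤ P (E t) * (1 + yr (vl ν x E) y (E t))) :
    ∫ t, ‖k.f z (vl ν x E) (E t) (x t)‖ ^ 2 * (1 / (1 + yr (vl ν x E) y (E t))) ∂ν ≤
      (e2 z (vl ν x E) (T00 A (ys y)) + e2 z (vl ν x E) (T01 (gk k A (ys y)) A)).re
      + ∫ t, ‖(gk k A (ys y)).f z (vl ν x E) (E t) (x t)‖ ^ 2 * P (E t) ∂ν := by
  have := H.pr
  have u0 : vl ν x E 0 = 1 := by simp [vl]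
  set u := vl ν x E with hu
  set g := gk k A (ys y) with hgd
  have bg := H.bf g z u
  have bA := H.bA A z
  have by1 := H.byl (ys y) u
  have hyl : ∀ t, yl u (ys y) (E t) = ((yr u y (E t) : ℝ) : ℂ) := fun t => yl_ys H.vl_neg y (H.norm1 t)
  have n2 : ∀ w : ℂ, ‖w‖ ^ 2 = (w * conj w).re := fun w => by
    rw [Complex.mul_conj, Complex.normSq_eq_norm_sq, Complex.ofReal_re]
  -- the two integrals
  have i1 := H.int_T00 A (ys y) z
  have i2 := H.int_T01 g hg A hA z
  rw [← hu] at i1 i2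
  rw [← i1, ← i2]
  -- pointwise
  have pw : ∀ t, ‖k.f z u (E t) (x t)‖ ^ 2 * (1 / (1 + yr u y (E t))) ≤
      ((1 + yl u (ys y) (E t)) * (A.f z (E t) * conj (A.f z (E t)))).re
      + 2 * (g.f z u (E t) (x t) * conj (A.f z (E t))).re + ‖g.f z u (E t) (x t)‖ ^ 2 * P (E t) := by
    intro t
    have hf : k.f z u (E t) (x t) = A.f z (E t) * (1 + ((yr u y (E t) : ℝ) : ℂ)) + g.f z u (E t) (x t) := by
      rw [hgd, gk_f k A (ys y) z u0 (H.ne t), hyl]
      ring
    rw [hyl, hf]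
    have p1 := h1 t
    have p2 := h2 t
    generalize A.f z (E t) = a
    generalize g.f z u (E t) (x t) = b
    generalize yr u y (E t) = r at *
    generalize P (E t) = c at *
    have hr : 0 < 1 + r := lt_of_lt_of_le hδ p1
    have e1 : ‖a * (1 + (r : ℂ)) + b‖ ^ 2 * (1 / (1 + r)) =
        (1 + r) * ‖a‖ ^ 2 + 2 * (b * conj a).re + ‖b‖ ^ 2 * (1 / (1 + r)) := by
      rw [sq_re, sq_re, sq_re]
      simp only [Complex.add_re, Complex.mul_re, Complex.add_im, Complex.mul_im, Complex.conj_re, Complex.conj_im,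
        Complex.ofReal_re, Complex.ofReal_im, Complex.one_re, Complex.one_im]
      field_simp
      ring
    have e2 : ((1 + (r : ℂ)) * (a * conj a)).re = (1 + r) * ‖a‖ ^ 2 := by
      rw [Complex.mul_conj, Complex.normSq_eq_norm_sq]
      have : (1 + (r : ℂ)) * ((‖a‖ ^ 2 : ℝ) : ℂ) = (((1 + r) * ‖a‖ ^ 2 : ℝ) : ℂ) := by push_cast; ring
      rw [this, Complex.ofReal_re]
    rw [e1, e2]
    have e3 : 1 / (1 + r) ≤ c := by
      rw [div_le_iff₀ hr]
      exact p2
    have := mul_le_mul_of_nonneg_left e3 (sq_nonneg ‖b‖)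
    linarith
  -- integrability
  have bw1 : Bm fun t => (1 + yl u (ys y) (E t)) * (A.f z (E t) * conj (A.f z (E t))) :=
    ((Bm.const 1).add by1).mul (bA.mul bA.conj)
  have bw2 : Bm fun t => g.f z u (E t) (x t) * conj (A.f z (E t)) := bg.mul bA.conj
  have bw3 : Bm fun t => (((‖g.f z u (E t) (x t)‖ ^ 2 : ℝ) : ℂ)) * ((P (E t) : ℝ) : ℂ) := by
    have e : (fun t => (((‖g.f z u (E t) (x t)‖ ^ 2 : ℝ) : ℂ)) * ((P (E t) : ℝ) : ℂ)) = fun t =>
        (g.f z u (E t) (x t) * conj (g.f z u (E t) (x t))) * ((P (E t) : ℝ) : ℂ) := by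
      funext t
      rw [Complex.mul_conj, Complex.normSq_eq_norm_sq]
    rw [e]
    exact (bg.mul bg.conj).mul hP
  have i3 : Integrable (fun t => ‖g.f z u (E t) (x t)‖ ^ 2 * P (E t)) ν := by
    have h := (bw3.int (μ := ν)).re
    refine h.congr (Eventually.of_forall fun t => ?_)
    simp only
    rw [← Complex.ofReal_mul]
    exact Complex.ofReal_re _
  have j1 : Integrable (fun t => ((1 + yl u (ys y) (E t)) * (A.f z (E t) * conj (A.f z (E t)))).re) ν :=
    (bw1.int (μ := ν)).re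
  have j2 : Integrable (fun t => (g.f z u (E t) (x t) * conj (A.f z (E t))).re) ν := (bw2.int (μ := ν)).re
  have r1 : ∫ t, ((1 + yl u (ys y) (E t)) * (A.f z (E t) * conj (A.f z (E t)))).re ∂ν =
      (∫ t, (1 + yl u (ys y) (E t)) * (A.f z (E t) * conj (A.f z (E t))) ∂ν).re := integral_re (bw1.int (μ := ν))
  have r2 : ∫ t, (g.f z u (E t) (x t) * conj (A.f z (E t))).re ∂ν =
      (∫ t, g.f z u (E t) (x t) * conj (A.f z (E t)) ∂ν).re := integral_re (bw2.int (μ := ν))
  have key : ∫ t, ‖k.f z u (E t) (x t)‖ ^ 2 * (1 / (1 + yr u y (E t))) ∂ν ≤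
      ∫ t, (((1 + yl u (ys y) (E t)) * (A.f z (E t) * conj (A.f z (E t)))).re
      + 2 * (g.f z u (E t) (x t) * conj (A.f z (E t))).re + ‖g.f z u (E t) (x t)‖ ^ 2 * P (E t)) ∂ν := by
    refine integral_mono_of_nonneg (Eventually.of_forall fun t => ?_) ((j1.add (j2.const_mul 2)).add i3)
      (Eventually.of_forall pw)
    have : 0 < 1 + yr u y (E t) := lt_of_lt_of_le hδ (h1 t)
    positivity
  refine key.trans (le_of_eq ?_)
  have e5 : ∫ t, (((1 + yl u (ys y) (E t)) * (A.f z (E t) * conj (A.f z (E t)))).re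
      + 2 * (g.f z u (E t) (x t) * conj (A.f z (E t))).re + ‖g.f z u (E t) (x t)‖ ^ 2 * P (E t)) ∂ν =
      (∫ t, ((1 + yl u (ys y) (E t)) * (A.f z (E t) * conj (A.f z (E t)))).re ∂ν)
      + 2 * (∫ t, (g.f z u (E t) (x t) * conj (A.f z (E t))).re ∂ν)
      + ∫ t, ‖g.f z u (E t) (x t)‖ ^ 2 * P (E t) ∂ν := by
    have j12 : Integrable (fun t => ((1 + yl u (ys y) (E t)) * (A.f z (E t) * conj (A.f z (E t)))).re
        + 2 * (g.f z u (E t) (x t) * conj (A.f z (E t))).re) ν := j1.add (j2.const_mul 2)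
    rw [integral_add j12 i3, integral_add j1 (j2.const_mul 2), integral_const_mul]
  rw [e5, r1, r2, Complex.add_re]
  have : (2 * ∫ t, g.f z u (E t) (x t) * conj (A.f z (E t)) ∂ν).re =
      2 * (∫ t, g.f z u (E t) (x t) * conj (A.f z (E t)) ∂ν).re := by
    rw [Complex.mul_re]
    norm_num
  rw [this]

/-- `∫ ‖f‖² Re w` -/
theorem Fr.int_re (k : Kr) (hk : k.par = true) (w : Wl) (hw : w.ev = true) (z : ℕ → ℂ) :
    ∫ t, ‖k.f z (vl ν x E) (E t) (x t)‖ ^ 2 * (we w (E t)).re ∂ν =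
      (e2 z (vl ν x E) (k.TW w) + eq2 z (Zr 2 ν x E) (k.QW w)).re := by
  have := H.pr
  rw [← H.int_w k hk w hw z]
  have b : Bm fun t => we w (E t) * (k.f z (vl ν x E) (E t) (x t) * conj (k.f z (vl ν x E) (E t) (x t))) :=
    (H.bwe w).mul ((H.bf _ _ _).mul (H.bf _ _ _).conj)
  have r : ∫ t, (we w (E t) * (k.f z (vl ν x E) (E t) (x t) * conj (k.f z (vl ν x E) (E t) (x t)))).re ∂ν =
      (∫ t, we w (E t) * (k.f z (vl ν x E) (E t) (x t) * conj (k.f z (vl ν x E) (E t) (x t))) ∂ν).re :=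
    integral_re (b.int (μ := ν))
  rw [← r]
  refine integral_congr_ae (Eventually.of_forall fun t => ?_)
  simp only
  rw [Complex.mul_conj, Complex.normSq_eq_norm_sq, Complex.re_mul_ofReal, mul_comm]

/-- `∫ ‖f‖² Im w` -/
theorem Fr.int_im (k : Kr) (hk : k.par = true) (w : Wl) (hw : w.ev = true) (z : ℕ → ℂ) :
    ∫ t, ‖k.f z (vl ν x E) (E t) (x t)‖ ^ 2 * (we w (E t)).im ∂ν =
      (e2 z (vl ν x E) (k.TW w) + eq2 z (Zr 2 ν x E) (k.QW w)).im := by
  have := H.pr
  rw [← H.int_w k hk w hw z]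
  have b : Bm fun t => we w (E t) * (k.f z (vl ν x E) (E t) (x t) * conj (k.f z (vl ν x E) (E t) (x t))) :=
    (H.bwe w).mul ((H.bf _ _ _).mul (H.bf _ _ _).conj)
  have r : ∫ t, (we w (E t) * (k.f z (vl ν x E) (E t) (x t) * conj (k.f z (vl ν x E) (E t) (x t)))).im ∂ν =
      (∫ t, we w (E t) * (k.f z (vl ν x E) (E t) (x t) * conj (k.f z (vl ν x E) (E t) (x t))) ∂ν).im :=
    integral_im (b.int (μ := ν))
  rw [← r]
  refine integral_congr_ae (Eventually.of_forall fun t => ?_)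
  simp only
  rw [Complex.mul_conj, Complex.normSq_eq_norm_sq, Complex.im_mul_ofReal, mul_comm]

/-- the mean of the weight is `1` -/
theorem Fr.int_y (y : Yr) (hy : y.ok = true) (u : ℤ → ℂ) : ∫ t, (1 + yr u y (E t)) ∂ν = 1 := by
  have := H.pr
  have h : ∫ t, yr u y (E t) ∂ν = 0 ∧ Integrable (fun t => yr u y (E t)) ν := by
    induction y with
    | nil => simp [yr]
    | cons p y ih =>
      unfold Yr.ok at hy ih
      rw [List.all_cons, Bool.and_eq_true] at hy
      have h1 : p.2.2 ≠ 0 := by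
        have := hy.1
        simp only [Bool.and_eq_true, decide_eq_true_eq] at this
        exact this.2
      obtain ⟨i1, i2⟩ := ih hy.2
      have b : Bm fun t => u p.2.1 * E t ^ p.2.2 := (Bm.const _).mul (bm_pow H.bE _)
      have j : Integrable (fun t => (u p.2.1 * E t ^ p.2.2).re) ν := (b.int (μ := ν)).re
      have e : (fun t => yr u (p :: y) (E t)) = fun t => (p.1 : ℝ) * (u p.2.1 * E t ^ p.2.2).re + yr u y (E t) := by
        funext t
        simp [yr]
      have r : ∫ t, (u p.2.1 * E t ^ p.2.2).re ∂ν = (∫ t, u p.2.1 * E t ^ p.2.2 ∂ν).re :=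
        integral_re (b.int (μ := ν))
      rw [e]
      refine ⟨?_, (j.const_mul _).add i2⟩
      rw [integral_add (j.const_mul _) i2, integral_const_mul, r, integral_const_mul, H.en _ h1, i1]
      simp
  rw [integral_add (integrable_const _) h.2, h.1]
  simp

end fr

section main

variable {Q : Type} [Fintype Q] {Ψ : Psi9 Q} {ν : Measure Ω} {x : Ω → ℝ} {E : Ω → ℂ}

/-- the part of the form without the denominator: rank one terms -/
def TCU (v : Fin 21 → ℚ) (im t1 t3 : ℚ) (d : Dv) (m1 m2 m3 m4 : Lf) (A : A0l) (y : Yr) : Tf :=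
  smT (-1) (tq9 v im t1 t3 d) ++ (cl9 m1 m2 m3 m4).map (fun c => (2, c.2.2, c.2.1))
    ++ smT (-1) (T00 A (ys y) ++ T01 (gk ((cl9 m1 m2 m3 m4).kr (kr9 v d)) A (ys y)) A)

/-- the kernel `g` -/
def gU (v : Fin 21 → ℚ) (d : Dv) (m1 m2 m3 m4 : Lf) (A : A0l) (y : Yr) : Kr :=
  gk ((cl9 m1 m2 m3 m4).kr (kr9 v d)) A (ys y)

/-- **the condition `RW` for the weight `1 + y`, `P ≥ 1 / (1 + y)`** -/
theorem RW9_of_U (H : Fr ν x E) {v : Fin 21 → ℚ} {u : Q → ℝ} {μ im : ℚ} (hμ : 0 < μ) (him : im * (2 * μ) ≤ 1)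
    {d : Dv} {τ : ℂ} (hd : ∀ A B z N M S R G : ℂ, dev9 Ψ u (mo (C9 Ψ) ν x E) A B N M S R G =
      d.val (zz A B z N M) (vl ν x E) (Zr 2 ν x E) S R G + τ * conj A)
    {t1 t3 : ℚ} (ht1 : 0 ≤ t1) (ht3 : 0 ≤ t3) (hτ : ‖τ‖ ^ 2 ≤ t1 * t3) {m1 m2 m3 m4 : Lf}
    {A : A0l} (hA : A.par = true) {y : Yr} (hy : y.ok = true) (hg : (gU v d m1 m2 m3 m4 A y).par = true)
    {δ : ℝ} (hδ : 0 < δ) (h1 : ∀ e : ℂ, ‖e‖ = 1 → δ ≤ 1 + yr (vl ν x E) y e)
    {P : ℂ → ℝ} (hP : Bm fun t => ((P (E t) : ℝ) : ℂ))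
    (h2 : ∀ e : ℂ, ‖e‖ = 1 → 1 ≤ P e * (1 + yr (vl ν x E) y e))
    (h : ∀ z : ℕ → ℂ, ∫ t, ‖(gU v d m1 m2 m3 m4 A y).f z (vl ν x E) (E t) (x t)‖ ^ 2 * P (E t) ∂ν ≤
      (e2 z (vl ν x E) (TCU v im t1 t3 d m1 m2 m3 m4 A y) + eq2 z (Zr 2 ν x E) (smQ (-1) (qq9 v d))).re) :
    BTG.RW (C9 Ψ) ν x E (fun i => ((v i : ℚ) : ℝ)) u μ 1 := by
  have := H.pr
  have hq1 : ∀ e : ℂ, ‖e‖ = 1 → max δ (1 + yr (vl ν x E) y e) = 1 + yr (vl ν x E) y e := fun e he =>
    max_eq_right (h1 e he)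
  have hmx : ∀ e : ℂ, 0 < max δ (1 + yr (vl ν x E) y e) := fun e => lt_of_lt_of_le hδ (le_max_left _ _)
  refine RW9_of_q (q := fun e _ => 1 / max δ (1 + yr (vl ν x E) y e)) (m1 := m1) (m2 := m2) (m3 := m3) (m4 := m4)
    H hμ him hd ht1 ht3 hτ ?_ (fun e _ _ _ => one_div_pos.2 (hmx e)) (le_of_eq ?_) fun z => ?_
  · have c : Continuous fun p : ℂ × ℝ => max δ (1 + yr (vl ν x E) y p.1) :=
      continuous_const.max (continuous_const.add ((yr_cont _ _).comp continuous_fst))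
    exact continuous_const.div c fun p => (hmx p.1).ne'
  · refine (integral_congr_ae (Eventually.of_forall fun t => ?_)).trans (H.int_y y hy (vl ν x E))
    exact (one_div_one_div _).trans (hq1 _ (H.norm1 t))
  · have F := h z
    have hs := H.split ((cl9 m1 m2 m3 m4).kr (kr9 v d)) A y hg hA z hP hδ (fun t => h1 _ (H.norm1 t))
      (fun t => h2 _ (H.norm1 t))
    have e : ∫ t, ‖((cl9 m1 m2 m3 m4).kr (kr9 v d)).f z (vl ν x E) (E t) (x t)‖ ^ 2
        * (1 / max δ (1 + yr (vl ν x E) y (E t))) ∂ν =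
        ∫ t, ‖((cl9 m1 m2 m3 m4).kr (kr9 v d)).f z (vl ν x E) (E t) (x t)‖ ^ 2
        * (1 / (1 + yr (vl ν x E) y (E t))) ∂ν := by
      refine integral_congr_ae (Eventually.of_forall fun t => ?_)
      simp only
      rw [hq1 _ (H.norm1 t)]
    rw [e]
    unfold gU at F
    unfold TCU at F
    rw [e2_append, e2_append, e2_smT, e2_smT, e2_append, eq2_smQ, e2_C] at F
    have c1 : ((((-1 : ℚ) : ℚ)) : ℂ) = -1 := by push_cast; rfl
    rw [c1] at F
    have d2 : ∀ w : ℂ, (2 * w).re = 2 * w.re := fun w => by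
      rw [Complex.mul_re]
      norm_num
    have dn : ∀ w : ℂ, (-1 * w).re = -w.re := fun w => by
      rw [neg_one_mul, Complex.neg_re]
    simp only [Complex.add_re, d2, dn] at F hs ⊢
    linarith

end main

end Pool.Agent.FPX.BRG
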