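import Mathlib
import Pool.Agent.FPX.BRU

/-
BRV (helper84): the final lists with the weight `1 + m Re E² + t Re (conj r₃ E⁴)`:
version 1 with a state independent majorant `p₀ - p₁ Re E²` of the reciprocal weight, version 2 with the exact
majorant `c₀ - c₁ y` (affine in `r₃`, `r₃` in the convex hull of points `ρ_k`).
-/

open MeasureTheory Set Filter Topology Complex
open scoped ENNReal NNReal ContDiff ComplexConjugate

noncomputable section

namespace Pool.Agent.FPX.BRG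

open Pool.Agent.FPX.CRD (Bm)
open Pool.Agent.FPX.ALX (St)
open Pool.Agent.FPX.BTN (va e1)
open Pool.Agent.FPX.BTG (mo)
open Pool.Agent.FPX.BTI

variable {Ω : Type*} [MeasurableSpace Ω]

/-! ### data -/

/-- the weight -/
def yw (m t : ℚ) : Yr := [(m, 0, 2), (t, -3, 4)]

theorem yw_ok (m t : ℚ) : (yw m t).ok = true := by
  simp [yw, Yr.ok]

/-- the state independent part of the multiplier function -/
def A9 (v : Fin 21 → ℚ) : A0l :=
  [(-1, [(1, 0)]), (1, [(1, 1)]), (5, [(v 18, 0), (-v 17, 1)]), (-5, [(v 17, 0), (-v 18, 1)])]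

theorem A9_par (v : Fin 21 → ℚ) : (A9 v).par = true := by
  simp [A9, A0l.par]

/-- Fourier coefficient of a kernel -/
def fc (k : Kr) (c : ℤ) : Lf :=
  (k.A.flatMap fun p => if p.1 = c then p.2 else [])
    ++ k.B.flatMap fun p => if p.1 - c = 1 ∨ p.1 - c = -1 then [] else sh p.2 (p.1 - c)

/-- the parts of first order of the right sides of the constraints -/
def r9 : ℤ → Lf
  | 1 => [(-3 / 2, 0, -3)]
  | -1 => [(-3 / 2, 1, 3)]
  | 3 => [(1, 4, 0), (-5 / 2, 0, -5), (3 / 2, 1, -3), (-3 / 2, 0, -3)]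
  | -3 => [(1, 3, 0), (-5 / 2, 1, 5), (3 / 2, 0, 3), (-3 / 2, 1, 3)]
  | _ => []

/-- merging equal indices and removing zeros -/
def cm (l : Lf) : Lf := cln (mrg l)

/-- the multiplier of the harmonic `c`: nearly optimal (`γ₀`, `γ₁`: the reciprocal of the Toeplitz matrix) -/
def mu9 (v : Fin 21 → ℚ) (d : Dv) (m t g0 g1 : ℚ) (c : ℤ) : Lf :=
  cm (smL g0 (r9 c) ++ (smL g1 (r9 (c + 2) ++ r9 (c - 2)
    ++ (if c = 3 then fc (gk (kr9 v d) (A9 v) (ys (yw m t))) 5 else [])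
    ++ (if c = -3 then fc (gk (kr9 v d) (A9 v) (ys (yw m t))) (-5) else []))
    ++ smL (-1) (fc (gk (kr9 v d) (A9 v) (ys (yw m t))) c)))

/-- the kernel `g` -/
def g9U (v : Fin 21 → ℚ) (d : Dv) (m t g0 g1 : ℚ) : Kr :=
  gU v d (mu9 v d m t g0 g1 1) (mu9 v d m t g0 g1 (-1)) (mu9 v d m t g0 g1 3) (mu9 v d m t g0 g1 (-3)) (A9 v) (yw m t)

/-- merging equal harmonics -/
def insA (c : ℤ) (l : Lf) : List (ℤ × Lf) → List (ℤ × Lf)
  | [] => [(c, l)]
  | p :: L => if p.1 = c then (c, p.2 ++ l) :: L else p :: insA c l L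

def mrgA : List (ℤ × Lf) → List (ℤ × Lf)
  | [] => []
  | p :: L => insA p.1 p.2 (mrgA L)

def cmK (k : Kr) : Kr := ⟨(mrgA k.A).map fun p => (p.1, cm p.2), k.B⟩

theorem ev_cm (z : ℕ → ℂ) (u : ℤ → ℂ) (l : Lf) : BRG.ev z u (cm l) = BRG.ev z u l := by
  unfold cm
  rw [ev_cln, ev_mrg]

theorem pe_insA (z : ℕ → ℂ) (u : ℤ → ℂ) (c : ℤ) (l : Lf) (L : List (ℤ × Lf)) (e : ℂ) :
    pe ((insA c l L).map fun p => (p.1, BRG.ev z u p.2)) e =
      BRG.ev z u l * e ^ c + pe (L.map fun p => (p.1, BRG.ev z u p.2)) e := by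
  induction L with
  | nil => simp [insA, pe]
  | cons p L ih =>
    unfold insA
    split_ifs with h
    · simp only [List.map_cons, pe_cons, ev_append]
      rw [h]
      ring
    · simp only [List.map_cons, pe_cons]
      rw [ih]
      ring

theorem pe_mrgA (z : ℕ → ℂ) (u : ℤ → ℂ) (L : List (ℤ × Lf)) (e : ℂ) :
    pe ((mrgA L).map fun p => (p.1, BRG.ev z u p.2)) e = pe (L.map fun p => (p.1, BRG.ev z u p.2)) e := by
  induction L with
  | nil => rfl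
  | cons p L ih =>
    unfold mrgA
    rw [pe_insA, ih, List.map_cons, pe_cons]

theorem cmK_f (k : Kr) (z : ℕ → ℂ) (u : ℤ → ℂ) (e : ℂ) (x : ℝ) : (cmK k).f z u e x = k.f z u e x := by
  have h : pe ((cmK k).pA z u) e = pe (k.pA z u) e := by
    unfold cmK Kr.pA
    simp only [List.map_map]
    rw [← pe_mrgA z u k.A e]
    congr 1
    refine List.map_congr_left fun p _ => ?_
    simp only [Function.comp_apply, ev_cm]
  unfold Kr.f
  rw [h]
  rfl

theorem insA_par {c : ℤ} (l : Lf) {L : List (ℤ × Lf)} (hc : c % 2 = 1) (hL : ∀ p ∈ L, p.1 % 2 = 1) :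
    ∀ p ∈ insA c l L, p.1 % 2 = 1 := by
  induction L with
  | nil => simpa [insA] using hc
  | cons q L ih =>
    unfold insA
    split_ifs with h
    · intro p hp
      rcases List.mem_cons.1 hp with rfl | hp
      · exact hc
      · exact hL p (List.mem_cons_of_mem _ hp)
    · intro p hp
      rcases List.mem_cons.1 hp with rfl | hp
      · exact hL _ (List.mem_cons_self)
      · exact ih (fun p hp => hL p (List.mem_cons_of_mem _ hp)) p hp

theorem mrgA_par {L : List (ℤ × Lf)} (hL : ∀ p ∈ L, p.1 % 2 = 1) : ∀ p ∈ mrgA L, p.1 % 2 = 1 := by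
  induction L with
  | nil => simp [mrgA]
  | cons q L ih =>
    unfold mrgA
    exact insA_par _ (hL q List.mem_cons_self) (ih fun p hp => hL p (List.mem_cons_of_mem _ hp))

theorem cmK_par {k : Kr} (hk : k.par = true) : (cmK k).par = true := by
  unfold Kr.par at hk ⊢
  rw [Bool.and_eq_true, List.all_eq_true, List.all_eq_true] at hk ⊢
  refine ⟨fun p hp => ?_, hk.2⟩
  unfold cmK at hp
  simp only [List.mem_map] at hp
  obtain ⟨q, hq, rfl⟩ := hp
  have := mrgA_par (L := k.A) (fun p hp => by simpa using hk.1 p hp) q hq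
  simpa using this

theorem gk_par {k : Kr} {A : A0l} {y : Yr} (hk : k.par = true) (hA : A.par = true) (hy : y.ok = true) :
    (gk k A (ys y)).par = true := by
  unfold Kr.par at hk ⊢
  rw [Bool.and_eq_true, List.all_eq_true, List.all_eq_true] at hk ⊢
  unfold A0l.par at hA
  rw [List.all_eq_true] at hA
  unfold Yr.ok at hy
  rw [List.all_eq_true] at hy
  refine ⟨fun p hp => ?_, hk.2⟩
  unfold gk at hp
  simp only [List.mem_append, List.mem_map, List.mem_flatMap] at hp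
  rcases hp with hp | ⟨q, hq, rfl⟩ | ⟨q, hq, t, ht, rfl⟩
  · exact hk.1 p hp
  · simpa using hA q hq
  · unfold ys at ht
    rw [List.mem_flatMap] at ht
    obtain ⟨r, hr, ht⟩ := ht
    have h1 := hA q hq
    have h2 := hy r hr
    simp only [Bool.and_eq_true, decide_eq_true_eq] at h1 h2
    simp only [List.mem_cons, List.not_mem_nil, or_false] at ht
    rcases ht with rfl | rfl <;> simp only [decide_eq_true_eq] <;> omega

theorem g9U_par (v : Fin 21 → ℚ) (d : Dv) (m t g0 g1 : ℚ) : (g9U v d m t g0 g1).par = true :=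
  gk_par (par9 _ _ _ _ _ _) (A9_par v) (yw_ok m t)

/-- the common part of the form: rank one terms -/
def T9U (v : Fin 21 → ℚ) (im t1 t3 : ℚ) (d : Dv) (m t g0 g1 : ℚ) : Tf :=
  TCU v im t1 t3 d (mu9 v d m t g0 g1 1) (mu9 v d m t g0 g1 (-1)) (mu9 v d m t g0 g1 3) (mu9 v d m t g0 g1 (-3))
    (A9 v) (yw m t)

/-! ### the weight -/

theorem yw_bd {u : ℤ → ℂ} (h0 : u 0 = 1) {m t R : ℚ} (hR : ‖u (-3)‖ ≤ R) {e : ℂ} (he : ‖e‖ = 1) :
    |yr u (yw m t) e| ≤ |(m : ℝ)| + |(t : ℝ)| * R ∧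
      |yr u (yw m t) e - m * (e ^ 2).re| ≤ |(t : ℝ)| * R ∧ |(e ^ 2).re| ≤ 1 := by
  have h1 : yr u (yw m t) e = m * (e ^ 2).re + t * (u (-3) * e ^ 4).re := by
    simp [yr, yw, h0]
  have h2 : |(e ^ 2).re| ≤ 1 := by
    refine (Complex.abs_re_le_norm _).trans ?_
    rw [norm_pow, he, one_pow]
  have h3 : |(u (-3) * e ^ 4).re| ≤ R := by
    refine (Complex.abs_re_le_norm _).trans ?_
    rw [norm_mul, norm_pow, he, one_pow, mul_one]
    exact hR
  have h4 : |(t : ℝ) * (u (-3) * e ^ 4).re| ≤ |(t : ℝ)| * R := by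
    rw [abs_mul]
    exact mul_le_mul_of_nonneg_left h3 (abs_nonneg _)
  have h5 : |(m : ℝ) * (e ^ 2).re| ≤ |(m : ℝ)| := by
    rw [abs_mul]
    have := mul_le_mul_of_nonneg_left h2 (abs_nonneg (m : ℝ))
    linarith
  refine ⟨?_, ?_, h2⟩
  · rw [h1]
    exact (abs_add_le _ _).trans (add_le_add h5 h4)
  · rw [h1, add_sub_cancel_left]
    exact h4

/-! ### version 1 -/

/-- the rank one terms before the eliminations -/
def PU0 (v : Fin 21 → ℚ) (im t1 t3 : ℚ) (d : Dv) (m t g0 g1 p0 p1 : ℚ) : Tf :=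
  mrgT (T9U v im t1 t3 d m t g0 g1 ++ smT (-1) ((cmK (g9U v d m t g0 g1)).TW [(p0, 0), (-p1, 2)]))

/-- **the rank one terms**: components `0, 1, 2` -/
def PU (v : Fin 21 → ℚ) (im t1 t3 : ℚ) (d : Dv) (m t g0 g1 p0 p1 k3 k4 : ℚ) : Tf :=
  mrgT (elim 4 k4 (elim 3 k3 (PU0 v im t1 t3 d m t g0 g1 p0 p1)))

/-- **the terms with `x²`** -/
def PUQ (v : Fin 21 → ℚ) (d : Dv) (p0 p1 : ℚ) : Qf :=
  smQ (-1) (qq9 v d) ++ smQ (-1) ((kr9 v d).QW [(p0, 0), (-p1, 2)])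

def PUok (v : Fin 21 → ℚ) (im t1 t3 : ℚ) (d : Dv) (m t g0 g1 p0 p1 k3 k4 : ℚ) : Bool :=
  okT 3 (PU0 v im t1 t3 d m t g0 g1 p0 p1) && (0 ≤ k3 && (1 ≤ k3 * lam 3 (PU0 v im t1 t3 d m t g0 g1 p0 p1) &&
    (okT 4 (elim 3 k3 (PU0 v im t1 t3 d m t g0 g1 p0 p1)) &&
      (0 ≤ k4 && 1 ≤ k4 * lam 4 (elim 3 k3 (PU0 v im t1 t3 d m t g0 g1 p0 p1))))))

/-- conditions on the weight: `a + |t| R ≤ 1`, `(p₀ - p₁ c) (a + m c) ≥ 1` for `|c| ≤ 1` -/
def Wok (m t R a p0 p1 : ℚ) : Bool :=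
  a + |t| * R ≤ 1 && (|m| < a && (0 ≤ p1 * m && (1 ≤ (p0 - p1) * (a + m) && 1 ≤ (p0 + p1) * (a - m))))

theorem cmK_B (k : Kr) : (cmK k).B = k.B := rfl
theorem gk_B (k : Kr) (A : A0l) (y : Yl) : (gk k A y).B = k.B := rfl
theorem Ckr_B (C : Cl) (k : Kr) : (C.kr k).B = k.B := rfl

theorem g9U_B (v : Fin 21 → ℚ) (d : Dv) (m t g0 g1 : ℚ) : (cmK (g9U v d m t g0 g1)).B = (kr9 v d).B := by
  rw [cmK_B]
  unfold g9U gU
  rw [gk_B, Ckr_B]

theorem QW_B {k k' : Kr} (h : k.B = k'.B) (w : Wl) : k.QW w = k'.QW w := by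
  unfold Kr.QW Kr.Q
  rw [h]

/-- **`RW` with the weight `1 + m Re E² + t Re (conj r₃ E⁴)`, version 1** -/
theorem RW_of_PU {Q : Type} [Fintype Q] {Ψ : Psi9 Q} {s : ℝ} {X : ℝ → ℝ} (hX : St s X) (hb : ∀ a, |X a| ≤ 1)
    {v : Fin 21 → ℚ} {u : Q → ℝ} {μ im : ℚ} (hμ : 0 < μ) (him : im * (2 * μ) ≤ 1)
    {d : Dv} {τ : ℂ} (hd : ∀ A B z N M S R G : ℂ, dev9 Ψ u (mo (C9 Ψ) va X e1) A B N M S R G =
      d.val (zz A B z N M) (vl va X e1) (Zr 2 va X e1) S R G + τ * conj A)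
    {t1 t3 : ℚ} (ht1 : 0 ≤ t1) (ht3 : 0 ≤ t3) (hτ : ‖τ‖ ^ 2 ≤ t1 * t3)
    {m t R a p0 p1 g0 g1 k3 k4 : ℚ} (hR : ‖vl va X e1 3‖ ≤ R) (hw : Wok m t R a p0 p1 = true)
    (hk : PUok v im t1 t3 d m t g0 g1 p0 p1 k3 k4 = true)
    (h : ∀ z : ℕ → ℂ, 0 ≤ (e2 z (vl va X e1) (PU v im t1 t3 d m t g0 g1 p0 p1 k3 k4)
      + eq2 z (Zr 2 va X e1) (PUQ v d p0 p1)).re) :
    BTG.RW (C9 Ψ) va X e1 (fun i => ((v i : ℚ) : ℝ)) u μ 1 := by
  have H := fr_va hX hb
  have u0 : vl va X e1 0 = 1 := by simp [vl]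
  have hR' : ‖vl va X e1 (-3)‖ ≤ R := by rw [H.vl_neg 3, Complex.norm_conj]; exact hR
  unfold PUok at hk
  unfold Wok at hw
  simp only [Bool.and_eq_true, decide_eq_true_eq] at hk hw
  obtain ⟨o3, b3, q3, o4, b4, q4⟩ := hk
  obtain ⟨w1, w2, w3, w4, w5⟩ := hw
  have w1' : (a : ℝ) + |(t : ℝ)| * R ≤ 1 := by exact_mod_cast w1
  have w2' : |(m : ℝ)| < (a : ℝ) := by exact_mod_cast w2
  have w3' : (0 : ℝ) ≤ (p1 : ℝ) * m := by exact_mod_cast w3
  have w4' : (1 : ℝ) ≤ ((p0 : ℝ) - p1) * (a + m) := by exact_mod_cast w4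
  have w5' : (1 : ℝ) ≤ ((p0 : ℝ) + p1) * (a - m) := by exact_mod_cast w5
  have hm := abs_lt.1 w2'
  have hP : ∀ e : ℂ, (we [(p0, 0), (-p1, 2)] e).re = p0 - p1 * (e ^ 2).re := by
    intro e
    have e2' : e ^ (2 : ℤ) = e ^ 2 := by norm_cast
    simp only [we, List.map_cons, List.map_nil, List.sum_cons, List.sum_nil, add_zero, zpow_zero, mul_one,
      Complex.add_re, Complex.mul_re, Complex.ratCast_re, Complex.ratCast_im, zero_mul, sub_zero, Rat.cast_neg,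
      Complex.neg_re, Complex.neg_im, neg_zero, e2']
    ring
  refine RW9_of_U (m1 := mu9 v d m t g0 g1 1) (m2 := mu9 v d m t g0 g1 (-1)) (m3 := mu9 v d m t g0 g1 3)
    (m4 := mu9 v d m t g0 g1 (-3)) (y := yw m t) (A := A9 v) (P := fun e => (we [(p0, 0), (-p1, 2)] e).re)
    (δ := (a : ℝ) - |(m : ℝ)|) H hμ him hd ht1 ht3 hτ (A9_par v) (yw_ok m t) (g9U_par v d m t g0 g1)
    (sub_pos.2 w2') (fun e he => ?_) ?_ (fun e he => ?_) fun z => ?_
  · have := (yw_bd (m := m) (t := t) u0 hR' he).1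
    have := (abs_le.1 this).1
    linarith
  · exact ⟨Complex.continuous_ofReal.measurable.comp (Complex.measurable_re.comp (H.bwe _).meas), by
      obtain ⟨C, hC⟩ := (H.bwe [(p0, 0), (-p1, 2)]).2
      exact ⟨C, fun t => by
        rw [Complex.norm_real]
        exact (Complex.abs_re_le_norm _).trans (hC t)⟩⟩
  · obtain ⟨_, y2, y3⟩ := yw_bd (m := m) (t := t) u0 hR' he
    rw [hP]
    have y2' := (abs_le.1 y2).1
    have y3' := abs_le.1 y3
    set c := (e ^ 2).re with hc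
    have hl : (a : ℝ) + m * c ≤ 1 + yr (vl va X e1) (yw m t) e := by linarith
    have hp0 : 0 ≤ (p0 : ℝ) - p1 * c := by
      have i1 : (0 : ℝ) < a + m := by linarith [hm.1]
      have i2 : (0 : ℝ) < a - m := by linarith [hm.2]
      have j1 : (0 : ℝ) ≤ (p0 : ℝ) - p1 := by
        by_contra hh
        have := mul_neg_of_neg_of_pos (not_le.1 hh) i1
        linarith
      have j2 : (0 : ℝ) ≤ (p0 : ℝ) + p1 := by
        by_contra hh
        have := mul_neg_of_neg_of_pos (not_le.1 hh) i2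
        linarith
      have k1 := mul_nonneg j1 (by linarith [y3'.1] : (0 : ℝ) ≤ 1 + c)
      have k2 := mul_nonneg j2 (by linarith [y3'.2] : (0 : ℝ) ≤ 1 - c)
      nlinarith
    have hm2 : ((p0 : ℝ) - p1 * c) * (a + m * c) ≥ 1 := by
      have k1 := mul_nonneg w3' (mul_nonneg (by linarith [y3'.1] : (0 : ℝ) ≤ 1 + c) (by linarith [y3'.2] : (0 : ℝ) ≤ 1 - c))
      have l1 := mul_nonneg (sub_nonneg.2 w4') (by linarith [y3'.1] : (0 : ℝ) ≤ 1 + c)
      have l2 := mul_nonneg (sub_nonneg.2 w5') (by linarith [y3'.2] : (0 : ℝ) ≤ 1 - c)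
      nlinarith
    exact hm2.le.trans (mul_le_mul_of_nonneg_left hl hp0)
  · have h' := h z
    have i4 := elim_le (z := z) u0 o4 b4 q4
    have i3 := elim_le (z := z) u0 o3 b3 q3
    rw [Complex.add_re] at h' ⊢
    unfold PU at h'
    rw [e2_mrgT] at h'
    have e0 : e2 z (vl va X e1) (PU0 v im t1 t3 d m t g0 g1 p0 p1) = e2 z (vl va X e1)
        (T9U v im t1 t3 d m t g0 g1 ++ smT (-1) ((cmK (g9U v d m t g0 g1)).TW [(p0, 0), (-p1, 2)])) := by
      unfold PU0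
      rw [e2_mrgT]
    rw [e0, e2_append, Complex.add_re, e2_smT] at i3
    have hI := H.int_re (cmK (g9U v d m t g0 g1)) (cmK_par (g9U_par v d m t g0 g1)) [(p0, 0), (-p1, 2)]
      (by simp [Wl.ev]) z
    simp only [cmK_f] at hI
    rw [QW_B (g9U_B v d m t g0 g1)] at hI
    unfold PUQ at h'
    rw [eq2_append, eq2_smQ, eq2_smQ] at h'
    rw [eq2_smQ]
    have dn : ∀ w : ℂ, ((((-1 : ℚ)) : ℂ) * w).re = -w.re := fun w => by
      push_cast
      rw [neg_one_mul, Complex.neg_re]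
    simp only [Complex.add_re, dn] at h' i3 hI ⊢
    have hg : (fun t' => ‖(gU v d (mu9 v d m t g0 g1 1) (mu9 v d m t g0 g1 (-1)) (mu9 v d m t g0 g1 3)
        (mu9 v d m t g0 g1 (-3)) (A9 v) (yw m t)).f z (vl va X e1) (e1 t') (X t')‖ ^ 2
          * (we [(p0, 0), (-p1, 2)] (e1 t')).re) = fun t' =>
        ‖(g9U v d m t g0 g1).f z (vl va X e1) (e1 t') (X t')‖ ^ 2 * (we [(p0, 0), (-p1, 2)] (e1 t')).re := rfl
    rw [hg, hI]
    have ht : T9U v im t1 t3 d m t g0 g1 = TCU v im t1 t3 d (mu9 v d m t g0 g1 1) (mu9 v d m t g0 g1 (-1))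
      (mu9 v d m t g0 g1 3) (mu9 v d m t g0 g1 (-3)) (A9 v) (yw m t) := rfl
    rw [ht] at i3
    linarith

end Pool.Agent.FPX.BRG
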