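import Mathlib
import Pool.Agent.FPX.BRV

/-
BRW (helper84): the final lists with the weight `1 + m Re E² + t Re (conj r₃ E⁴)`, version 2: the majorant
`A₀ - A₁ Re E² - (B₀ - B₁ Re E²) t Re (conj r₃ E⁴)` of the reciprocal weight; the form is affine in the place `ρ = r₃`
of this majorant, `r₃` in the convex hull of points `ρ_k`.
-/

open MeasureTheory Set Filter Topology Complex
open scoped ENNReal NNReal ContDiff ComplexConjugate

noncomputable section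

namespace Pool.Agent.FPX.BRG

open Pool.Agent.FPX.CRD (Bm)
open Pool.Agent.FPX.ALX (St)
open Pool.Agent.FPX.BTN (va e1)
open Pool.Agent.FPX.BTG (mo)
open Pool.Agent.FPX.BTI

variable {Ω : Type*} [MeasurableSpace Ω] {z : ℕ → ℂ} {u Z : ℤ → ℂ}

/-! ### elimination for a form `Re T + Im T'` -/

/-- half of the coefficient of `conj z_i` in `Im` -/
def linI (i : ℕ) (T : Tf) : Lf :=
  T.flatMap fun t => smL (t.1 / 2 * cf i t.2.2) (rs i t.2.1) ++ smL (-(t.1 / 2 * cf i t.2.1)) (rs i t.2.2)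

theorem e2_splitI (h0 : u 0 = 1) {i : ℕ} {T : Tf} (h : okT i T = true) :
    (e2 z u T).im = 2 * (conj (z i) * ev z u (linI i T)).im + (e2 z u (rsT i T)).im := by
  induction T with
  | nil => simp [linI, rsT]
  | cons t T ih =>
    unfold okT at h
    rw [List.all_cons, Bool.and_eq_true, Bool.and_eq_true] at h
    have h2 := ih h.2
    have l2 : linI i (t :: T) = (smL (t.1 / 2 * cf i t.2.2) (rs i t.2.1)
      ++ smL (-(t.1 / 2 * cf i t.2.1)) (rs i t.2.2)) ++ linI i T := rfl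
    have l3 : rsT i (t :: T) = (t.1, rs i t.2.1, rs i t.2.2) :: rsT i T := rfl
    rw [e2_cons, Complex.add_im, h2, l2, l3, e2_cons, ev_append, ev_append, ev_smL, ev_smL,
      ev_split h0 h.1.1, ev_split h0 h.1.2]
    generalize ev z u (rs i t.2.1) = y1
    generalize ev z u (rs i t.2.2) = y2
    generalize ev z u (linI i T) = y3
    have r1 : ∀ q : ℚ, ((q : ℂ)).re = (q : ℝ) := fun q => Complex.ratCast_re q
    have r2 : ∀ q : ℚ, ((q : ℂ)).im = 0 := fun q => Complex.ratCast_im q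
    have r3 : ∀ q : ℚ, conj ((q : ℂ)) = (q : ℂ) := fun q => map_ratCast _ q
    push_cast
    simp only [Complex.add_re, Complex.mul_re, Complex.conj_re, Complex.conj_im, Complex.add_im, Complex.mul_im,
      map_add, map_mul, r1, r2, r3, Complex.div_ofNat_re, Complex.div_ofNat_im, Complex.neg_re, Complex.neg_im]
    ring

def elR (i : ℕ) (κ : ℚ) (T T' : Tf) : Tf :=
  (-κ, lin1 i T, lin1 i T) :: (-κ, linI i T', linI i T') :: rsT i T

def elI (i : ℕ) (κ : ℚ) (T T' : Tf) : Tf := (-2 * κ, linI i T', lin1 i T) :: rsT i T'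

theorem el_le (h0 : u 0 = 1) {i : ℕ} {κ : ℚ} {T T' : Tf} (h : okT i T = true) (h' : okT i T' = true) (hκ : 0 ≤ κ)
    (h1 : 1 ≤ κ * lam i T) :
    (e2 z u (elR i κ T T')).re + (e2 z u (elI i κ T T')).im ≤ (e2 z u T).re + (e2 z u T').im := by
  rw [e2_split h0 h, e2_splitI h0 h']
  unfold elR elI
  rw [e2_cons, e2_cons, e2_cons]
  have hl : (0 : ℝ) < (lam i T : ℝ) := by
    have : (0 : ℚ) < lam i T := by
      by_contra hh
      have := mul_nonpos_of_nonneg_of_nonpos hκ (not_lt.1 hh)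
      linarith
    exact_mod_cast this
  set a := ev z u (lin1 i T) with ha
  set b := ev z u (linI i T') with hb
  have c := csq hl (z i) (a - Complex.I * b)
  have h2 : (1 : ℝ) ≤ (κ : ℝ) * (lam i T : ℝ) := by exact_mod_cast h1
  have h3 : ‖a - Complex.I * b‖ ^ 2 / (lam i T : ℝ) ≤ (κ : ℝ) * ‖a - Complex.I * b‖ ^ 2 := by
    rw [div_le_iff₀ hl]
    nlinarith [sq_nonneg ‖a - Complex.I * b‖]
  have h4 : (conj (z i) * (a - Complex.I * b)).re = (conj (z i) * a).re + (conj (z i) * b).im := by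
    simp only [Complex.mul_re, Complex.sub_re, Complex.sub_im, Complex.mul_im, Complex.I_re, Complex.I_im,
      Complex.conj_re, Complex.conj_im]
    ring
  have r1 : ((κ : ℂ)).re = (κ : ℝ) := Complex.ratCast_re κ
  have r2 : ((κ : ℂ)).im = 0 := Complex.ratCast_im κ
  have h5 : (((-κ : ℚ) : ℂ) * (a * conj a) + (((-κ : ℚ) : ℂ) * (b * conj b))).re
      + (((-2 * κ : ℚ) : ℂ) * (b * conj a)).im = -(κ : ℝ) * ‖a - Complex.I * b‖ ^ 2 := by
    rw [sq_re]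
    push_cast
    simp only [Complex.add_re, Complex.mul_re, Complex.sub_re, Complex.sub_im, Complex.mul_im, Complex.I_re,
      Complex.I_im, Complex.conj_re, Complex.conj_im, Complex.neg_re, Complex.neg_im, r1, r2, Complex.re_ofNat,
      Complex.im_ofNat]
    ring
  rw [h4] at c
  simp only [Complex.add_re, Complex.add_im] at h5 ⊢
  linarith

/-! ### the lists -/

/-- the weight in front of `t Re (conj ρ E⁴)`, times `E⁴` -/
def wB (B0 B1 : ℚ) : Wl := [(B0, 4), (-B1 / 2, 6), (-B1 / 2, 2)]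

/-- parameters of the weight: `m, t`, of the multipliers: `γ₀, γ₁`, of the majorant: `A₀, A₁, B₀, B₁` -/
structure Wp where
  m : ℚ
  t : ℚ
  g0 : ℚ
  g1 : ℚ
  A0 : ℚ
  A1 : ℚ
  B0 : ℚ
  B1 : ℚ

/-- multipliers of `u₃ - ρ`: `Λ = Σ c z_a conj z_b` -/
abbrev Lm := List (ℚ × ℕ × ℕ)

def Lm.v (L : Lm) (z : ℕ → ℂ) : ℂ := (L.map fun t => (t.1 : ℂ) * (z t.2.1 * conj (z t.2.2))).sum

/-- `-2 Re Λ (u₃ - ρ)`, `ρ = x + i y`: real part list -/
def Lm.R (L : Lm) (x : ℚ) : Tf :=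
  L.flatMap fun t => [(-2 * t.1, [(1, t.2.1, 3)], [(1, t.2.2, 0)]), (2 * x * t.1, [(1, t.2.1, 0)], [(1, t.2.2, 0)])]

def Lm.I (L : Lm) (y : ℚ) : Tf := L.map fun t => (-2 * y * t.1, [(1, t.2.1, 0)], [(1, t.2.2, 0)])

theorem Lm.eq (L : Lm) (x y : ℚ) (z : ℕ → ℂ) (h0 : u 0 = 1) :
    (e2 z u (L.R x)).re + (e2 z u (L.I y)).im = -2 * (L.v z * (u 3 - (x + y * Complex.I))).re := by
  induction L with
  | nil => simp [Lm.R, Lm.I, Lm.v]
  | cons t L ih =>
    have e1 : Lm.R (t :: L) x = [(-2 * t.1, [(1, t.2.1, 3)], [(1, t.2.2, 0)]),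
      (2 * x * t.1, [(1, t.2.1, 0)], [(1, t.2.2, 0)])] ++ Lm.R L x := rfl
    have e2' : Lm.I (t :: L) y = (-2 * y * t.1, [(1, t.2.1, 0)], [(1, t.2.2, 0)]) :: Lm.I L y := rfl
    have e3 : Lm.v (t :: L) z = (t.1 : ℂ) * (z t.2.1 * conj (z t.2.2)) + Lm.v L z := by simp [Lm.v]
    rw [e1, e2', e3, e2_append, e2_cons, e2_cons, e2_nil, e2_cons, add_mul, Complex.add_re (_ * _), mul_add, ← ih]
    simp only [ev_cons, ev_nil, add_zero, h0, Rat.cast_one, one_mul, mul_one]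
    generalize z t.2.1 = a
    generalize conj (z t.2.2) = b
    have r1 : ∀ q : ℚ, ((q : ℂ)).re = (q : ℝ) := fun q => Complex.ratCast_re q
    have r2 : ∀ q : ℚ, ((q : ℂ)).im = 0 := fun q => Complex.ratCast_im q
    push_cast
    simp only [Complex.add_re, Complex.mul_re, Complex.sub_re, Complex.sub_im, Complex.mul_im, Complex.I_re,
      Complex.I_im, Complex.neg_re, Complex.neg_im, Complex.add_im, r1, r2, Complex.re_ofNat, Complex.im_ofNat]
    ring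

variable (v : Fin 21 → ℚ) (im t1 t3 : ℚ) (d : Dv) (w : Wp) (L : Lm) (x y k3 k4 : ℚ)

/-- the rank one terms before the eliminations: real part -/
def R0 : Tf :=
  mrgT (T9U v im t1 t3 d w.m w.t w.g0 w.g1 ++ (smT (-1) ((cmK (g9U v d w.m w.t w.g0 w.g1)).TW [(w.A0, 0), (-w.A1, 2)])
    ++ (smT (w.t * x) ((cmK (g9U v d w.m w.t w.g0 w.g1)).TW (wB w.B0 w.B1)) ++ L.R x)))

/-- the rank one terms before the eliminations: imaginary part -/
def I0 : Tf := mrgT (smT (w.t * y) ((cmK (g9U v d w.m w.t w.g0 w.g1)).TW (wB w.B0 w.B1)) ++ L.I y)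

/-- after the elimination of `N` -/
def R1 : Tf := elR 3 k3 (R0 v im t1 t3 d w L x) (I0 v d w L y)
def I1 : Tf := elI 3 k3 (R0 v im t1 t3 d w L x) (I0 v d w L y)

/-- **the rank one terms, real part** -/
def VR : Tf := mrgT (elR 4 k4 (R1 v im t1 t3 d w L x y k3) (I1 v im t1 t3 d w L x y k3))

/-- **the rank one terms, imaginary part** -/
def VI : Tf := mrgT (elI 4 k4 (R1 v im t1 t3 d w L x y k3) (I1 v im t1 t3 d w L x y k3))

/-- **the terms with `x²`, real part** -/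
def VQR : Qf := smQ (-1) (qq9 v d) ++ (smQ (-1) ((kr9 v d).QW [(w.A0, 0), (-w.A1, 2)])
  ++ smQ (w.t * x) ((kr9 v d).QW (wB w.B0 w.B1)))

/-- **the terms with `x²`, imaginary part** -/
def VQI : Qf := smQ (w.t * y) ((kr9 v d).QW (wB w.B0 w.B1))

def Vok : Bool :=
  okT 3 (R0 v im t1 t3 d w L x) && (okT 3 (I0 v d w L y) && (0 ≤ k3 && (1 ≤ k3 * lam 3 (R0 v im t1 t3 d w L x) &&
    (okT 4 (R1 v im t1 t3 d w L x y k3) && (okT 4 (I1 v im t1 t3 d w L x y k3) &&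
      (0 ≤ k4 && 1 ≤ k4 * lam 4 (R1 v im t1 t3 d w L x y k3)))))))

/-- conditions on the weight and its majorant: exact at the four corners, `Y ≥ |t| R` -/
def Wok2 (R Y : ℚ) : Bool :=
  |w.t| * R ≤ Y && (|w.m| + Y < 1 && (|w.B1| ≤ w.B0 && (0 ≤ (w.A1 - w.B1 * Y) * w.m && (0 ≤ (w.A1 + w.B1 * Y) * w.m &&
    (1 ≤ (w.A0 - w.A1 - (w.B0 - w.B1) * Y) * (1 + w.m + Y) && (1 ≤ (w.A0 - w.A1 + (w.B0 - w.B1) * Y) * (1 + w.m - Y) &&
    (1 ≤ (w.A0 + w.A1 - (w.B0 + w.B1) * Y) * (1 - w.m + Y) &&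
      1 ≤ (w.A0 + w.A1 + (w.B0 + w.B1) * Y) * (1 - w.m - Y))))))))

/-- the majorant -/
theorem maj {m A0 A1 B0 B1 Y c t : ℝ} (hc : |c| ≤ 1) (ht : |t| ≤ Y) (hB : |B1| ≤ B0)
    (h1 : 0 ≤ (A1 - B1 * Y) * m) (h2 : 0 ≤ (A1 + B1 * Y) * m)
    (h3 : 1 ≤ (A0 - A1 - (B0 - B1) * Y) * (1 + m + Y)) (h4 : 1 ≤ (A0 - A1 + (B0 - B1) * Y) * (1 + m - Y))
    (h5 : 1 ≤ (A0 + A1 - (B0 + B1) * Y) * (1 - m + Y)) (h6 : 1 ≤ (A0 + A1 + (B0 + B1) * Y) * (1 - m - Y)) :
    1 ≤ (A0 - A1 * c - (B0 - B1 * c) * t) * (1 + m * c + t) := by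
  have c1 := abs_le.1 hc
  have t1 := abs_le.1 ht
  have b1 := abs_le.1 hB
  have p : (0 : ℝ) ≤ 1 + c := by linarith [c1.1]
  have q : (0 : ℝ) ≤ 1 - c := by linarith [c1.2]
  -- the two ends in t
  have e1 : 1 ≤ (A0 - A1 * c - (B0 - B1 * c) * Y) * (1 + m * c + Y) := by
    have k1 := mul_nonneg (sub_nonneg.2 h3) p
    have k2 := mul_nonneg (sub_nonneg.2 h5) q
    have k3 := mul_nonneg h1 (mul_nonneg p q)
    nlinarith
  have e2 : 1 ≤ (A0 - A1 * c + (B0 - B1 * c) * Y) * (1 + m * c - Y) := by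
    have k1 := mul_nonneg (sub_nonneg.2 h4) p
    have k2 := mul_nonneg (sub_nonneg.2 h6) q
    have k3 := mul_nonneg h2 (mul_nonneg p q)
    nlinarith
  have hb : 0 ≤ B0 - B1 * c := by
    have k1 := mul_nonneg (by linarith [b1.2] : (0 : ℝ) ≤ B0 - B1) p
    have k2 := mul_nonneg (by linarith [b1.1] : (0 : ℝ) ≤ B0 + B1) q
    nlinarith
  have hY : 0 ≤ Y := (abs_nonneg _).trans ht
  rcases hY.eq_or_lt with hY | hY
  · have : t = 0 := by
      rw [← hY] at ht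
      exact abs_nonpos_iff.1 ht
    rw [← hY] at e1
    rw [this]
    linarith
  · set a := A0 - A1 * c with ha
    set b := B0 - B1 * c with hb'
    set g := 1 + m * c with hg
    have k1 := mul_nonneg (sub_nonneg.2 e1) (by linarith [t1.1] : (0 : ℝ) ≤ Y + t)
    have k2 := mul_nonneg (sub_nonneg.2 e2) (by linarith [t1.2] : (0 : ℝ) ≤ Y - t)
    have k3 := mul_nonneg (mul_nonneg hb (by linarith [t1.1] : (0 : ℝ) ≤ Y + t)) (by linarith [t1.2] : (0 : ℝ) ≤ Y - t)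
    have k4 : 0 ≤ Y * (2 * ((a - b * t) * (g + t) - 1)) := by nlinarith
    have := nonneg_of_mul_nonneg_right k4 hY
    linarith

theorem weB {B0 B1 : ℚ} {e : ℂ} (he : ‖e‖ = 1) : we (wB B0 B1) e = (((B0 : ℝ) - B1 * (e ^ 2).re : ℝ) : ℂ) * e ^ 4 := by
  have he' : e * conj e = 1 := by rw [Complex.mul_conj, Complex.normSq_eq_norm_sq, he]; norm_num
  have h4 : e ^ (4 : ℤ) = e ^ 4 := by norm_cast
  have h6 : e ^ (6 : ℤ) = e ^ 6 := by norm_cast
  have h2 : e ^ (2 : ℤ) = e ^ 2 := by norm_cast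
  have h3 : ((((e ^ 2).re : ℝ)) : ℂ) = (e ^ 2 + conj (e ^ 2)) / 2 := by
    rw [Complex.add_conj]
    push_cast
    ring
  have h5 : e ^ 4 * conj (e ^ 2) = e ^ 2 := by
    rw [map_pow]
    calc e ^ 4 * conj e ^ 2 = e ^ 2 * (e * conj e) ^ 2 := by ring
      _ = e ^ 2 := by rw [he']; ring
  simp only [wB, we, List.map_cons, List.map_nil, List.sum_cons, List.sum_nil, h2, h4, h6]
  push_cast
  rw [h3]
  linear_combination (B1 / 2 : ℂ) * h5

theorem weA {A0 A1 : ℚ} (e : ℂ) : (we [(A0, 0), (-A1, 2)] e).re = A0 - A1 * (e ^ 2).re := by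
  have e2' : e ^ (2 : ℤ) = e ^ 2 := by norm_cast
  simp only [we, List.map_cons, List.map_nil, List.sum_cons, List.sum_nil, add_zero, zpow_zero, mul_one,
    Complex.add_re, Complex.mul_re, Complex.ratCast_re, Complex.ratCast_im, zero_mul, sub_zero, Rat.cast_neg,
    Complex.neg_re, Complex.neg_im, neg_zero, e2']
  ring

/-- **the eliminations** -/
theorem V_le (h0 : u 0 = 1) (hk : Vok v im t1 t3 d w L x y k3 k4 = true) (z : ℕ → ℂ) :
    (e2 z u (VR v im t1 t3 d w L x y k3 k4)).re + (e2 z u (VI v im t1 t3 d w L x y k3 k4)).im ≤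
      (e2 z u (R0 v im t1 t3 d w L x)).re + (e2 z u (I0 v d w L y)).im := by
  unfold Vok at hk
  simp only [Bool.and_eq_true, decide_eq_true_eq] at hk
  obtain ⟨a1, a2, a3, a4, a5, a6, a7, a8⟩ := hk
  unfold VR VI
  rw [e2_mrgT, e2_mrgT]
  refine (el_le h0 a5 a6 a7 a8).trans ?_
  unfold R1 I1
  exact el_le h0 a1 a2 a3 a4

/-- **`RW` with the weight `1 + m Re E² + t Re (conj r₃ E⁴)`, version 2** -/
theorem RW_of_V {Q : Type} [Fintype Q] {Ψ : Psi9 Q} {s : ℝ} {X : ℝ → ℝ} (hX : St s X) (hb : ∀ a, |X a| ≤ 1)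
    {v : Fin 21 → ℚ} {u : Q → ℝ} {μ im : ℚ} (hμ : 0 < μ) (him : im * (2 * μ) ≤ 1)
    {d : Dv} {τ : ℂ} (hd : ∀ A B z N M S R G : ℂ, dev9 Ψ u (mo (C9 Ψ) va X e1) A B N M S R G =
      d.val (zz A B z N M) (vl va X e1) (Zr 2 va X e1) S R G + τ * conj A)
    {t1 t3 : ℚ} (ht1 : 0 ≤ t1) (ht3 : 0 ≤ t3) (hτ : ‖τ‖ ^ 2 ≤ t1 * t3) {w : Wp} {R Y : ℚ}
    (hR : ‖vl va X e1 3‖ ≤ R) (hw : Wok2 w R Y = true)
    {n : ℕ} {ρ : Fin n → ℚ × ℚ} {lm : Fin n → ℝ} (hl : ∀ k, 0 ≤ lm k) (hl1 : ∑ k, lm k = 1)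
    (hlx : ∑ k, lm k * ((ρ k).1 : ℝ) = (vl va X e1 3).re) (hly : ∑ k, lm k * ((ρ k).2 : ℝ) = (vl va X e1 3).im)
    {L : Lm} {k3 k4 : Fin n → ℚ} (hk : ∀ k, Vok v im t1 t3 d w L (ρ k).1 (ρ k).2 (k3 k) (k4 k) = true)
    (h : ∀ (k : Fin n) (z : ℕ → ℂ), 0 ≤ (e2 z (vl va X e1) (VR v im t1 t3 d w L (ρ k).1 (ρ k).2 (k3 k) (k4 k))
        + eq2 z (Zr 2 va X e1) (VQR v d w (ρ k).1)).re
      + (e2 z (vl va X e1) (VI v im t1 t3 d w L (ρ k).1 (ρ k).2 (k3 k) (k4 k))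
        + eq2 z (Zr 2 va X e1) (VQI v d w (ρ k).2)).im) :
    BTG.RW (C9 Ψ) va X e1 (fun i => ((v i : ℚ) : ℝ)) u μ 1 := by
  have H := fr_va hX hb
  have u0 : vl va X e1 0 = 1 := by simp [vl]
  have hn3 : vl va X e1 (-3) = conj (vl va X e1 3) := H.vl_neg 3
  have hR' : ‖vl va X e1 (-3)‖ ≤ R := by rw [hn3, Complex.norm_conj]; exact hR
  unfold Wok2 at hw
  simp only [Bool.and_eq_true, decide_eq_true_eq] at hw
  obtain ⟨w1, w2, w3, w4, w5, w6, w7, w8, w9⟩ := hw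
  have w1' : |(w.t : ℝ)| * R ≤ Y := by exact_mod_cast w1
  have w2' : |(w.m : ℝ)| + (Y : ℝ) < 1 := by exact_mod_cast w2
  have w3' : |(w.B1 : ℝ)| ≤ (w.B0 : ℝ) := by exact_mod_cast w3
  have w4' : (0 : ℝ) ≤ ((w.A1 : ℝ) - w.B1 * Y) * w.m := by exact_mod_cast w4
  have w5' : (0 : ℝ) ≤ ((w.A1 : ℝ) + w.B1 * Y) * w.m := by exact_mod_cast w5
  have w6' : (1 : ℝ) ≤ ((w.A0 : ℝ) - w.A1 - (w.B0 - w.B1) * Y) * (1 + w.m + Y) := by exact_mod_cast w6
  have w7' : (1 : ℝ) ≤ ((w.A0 : ℝ) - w.A1 + (w.B0 - w.B1) * Y) * (1 + w.m - Y) := by exact_mod_cast w7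
  have w8' : (1 : ℝ) ≤ ((w.A0 : ℝ) + w.A1 - (w.B0 + w.B1) * Y) * (1 - w.m + Y) := by exact_mod_cast w8
  have w9' : (1 : ℝ) ≤ ((w.A0 : ℝ) + w.A1 + (w.B0 + w.B1) * Y) * (1 - w.m - Y) := by exact_mod_cast w9
  set r := vl va X e1 3 with hr
  set P : ℂ → ℝ := fun e => (we [(w.A0, 0), (-w.A1, 2)] e).re - w.t * (conj r * we (wB w.B0 w.B1) e).re with hPd
  have bA := H.bwe [(w.A0, 0), (-w.A1, 2)]
  have bB := H.bwe (wB w.B0 w.B1)
  have bre : ∀ {f : ℝ → ℂ}, Bm f → Bm fun t => (((f t).re : ℝ) : ℂ) := fun {f} hf =>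
    ⟨Complex.continuous_ofReal.measurable.comp (Complex.measurable_re.comp hf.meas), by
      obtain ⟨C, hC⟩ := hf.2
      exact ⟨C, fun t => by
        rw [Complex.norm_real]
        exact (Complex.abs_re_le_norm _).trans (hC t)⟩⟩
  have hP : Bm fun t => ((P (e1 t) : ℝ) : ℂ) := by
    have e : (fun t => ((P (e1 t) : ℝ) : ℂ)) = fun t => (((we [(w.A0, 0), (-w.A1, 2)] (e1 t)).re : ℝ) : ℂ)
        + (((-(w.t : ℝ) : ℝ)) : ℂ) * (((conj r * we (wB w.B0 w.B1) (e1 t)).re : ℝ) : ℂ) := by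
      funext t
      rw [hPd]
      push_cast
      ring
    rw [e]
    exact (bre bA).add ((Bm.const _).mul (bre ((Bm.const (conj r)).mul bB)))
  refine RW9_of_U (m1 := mu9 v d w.m w.t w.g0 w.g1 1) (m2 := mu9 v d w.m w.t w.g0 w.g1 (-1))
    (m3 := mu9 v d w.m w.t w.g0 w.g1 3) (m4 := mu9 v d w.m w.t w.g0 w.g1 (-3)) (y := yw w.m w.t) (A := A9 v) (P := P)
    (δ := 1 - |(w.m : ℝ)| - Y) H hμ him hd ht1 ht3 hτ (A9_par v) (yw_ok w.m w.t) (g9U_par v d w.m w.t w.g0 w.g1)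
    (by linarith) (fun e he => ?_) hP (fun e he => ?_) fun z => ?_
  · have := (yw_bd (m := w.m) (t := w.t) u0 hR' he).1
    have := (abs_le.1 this).1
    linarith
  · obtain ⟨_, _, y3⟩ := yw_bd (m := w.m) (t := w.t) u0 hR' he
    have hy : yr (vl va X e1) (yw w.m w.t) e = w.m * (e ^ 2).re + w.t * (conj r * e ^ 4).re := by
      simp [yr, yw, u0, hn3]
    have ht : |(w.t : ℝ) * (conj r * e ^ 4).re| ≤ Y := by
      rw [abs_mul]
      refine (mul_le_mul_of_nonneg_left ((Complex.abs_re_le_norm _).trans ?_) (abs_nonneg _)).trans w1'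
      rw [norm_mul, norm_pow, he, one_pow, mul_one, Complex.norm_conj]
      exact hR
    have hPe : P e = w.A0 - w.A1 * (e ^ 2).re - (w.B0 - w.B1 * (e ^ 2).re) * (w.t * (conj r * e ^ 4).re) := by
      rw [hPd]
      simp only
      rw [weA, weB he]
      have : ∀ q : ℝ, (conj r * (((q : ℝ) : ℂ) * e ^ 4)).re = q * (conj r * e ^ 4).re := fun q => by
        rw [← Complex.re_ofReal_mul]
        congr 1
        ring
      rw [this]
      ring
    rw [hPe, hy]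
    have := maj (m := (w.m : ℝ)) (A0 := (w.A0 : ℝ)) (A1 := (w.A1 : ℝ)) (B0 := (w.B0 : ℝ)) (B1 := (w.B1 : ℝ))
      y3 ht w3' w4' w5' w6' w7' w8' w9'
    linarith
  · set G := cmK (g9U v d w.m w.t w.g0 w.g1) with hG
    have hGp : G.par = true := cmK_par (g9U_par v d w.m w.t w.g0 w.g1)
    have hGf : ∀ t, (gU v d (mu9 v d w.m w.t w.g0 w.g1 1) (mu9 v d w.m w.t w.g0 w.g1 (-1))
        (mu9 v d w.m w.t w.g0 w.g1 3) (mu9 v d w.m w.t w.g0 w.g1 (-3)) (A9 v) (yw w.m w.t)).f z (vl va X e1)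
          (e1 t) (X t) = G.f z (vl va X e1) (e1 t) (X t) := fun t => by
      rw [hG, cmK_f]
      rfl
    simp only [hGf]
    have iA := H.int_re G hGp [(w.A0, 0), (-w.A1, 2)] (by simp [Wl.ev]) z
    have iBr := H.int_re G hGp (wB w.B0 w.B1) (by simp [Wl.ev, wB]) z
    have iBi := H.int_im G hGp (wB w.B0 w.B1) (by simp [Wl.ev, wB]) z
    set f := fun t => G.f z (vl va X e1) (e1 t) (X t) with hf
    have bf : Bm f := H.bf G z _
    have := H.pr
    have bn : Bm fun t => ((‖f t‖ ^ 2 : ℝ) : ℂ) := by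
      have e : (fun t => ((‖f t‖ ^ 2 : ℝ) : ℂ)) = fun t => f t * conj (f t) := by
        funext t
        rw [Complex.mul_conj, Complex.normSq_eq_norm_sq]
      rw [e]
      exact bf.mul bf.conj
    have jr : ∀ {g : ℝ → ℝ}, Bm (fun t => ((g t : ℝ) : ℂ)) → Integrable (fun t => ‖f t‖ ^ 2 * g t) va := by
      intro g hg
      have h1 : Integrable (fun t => (((‖f t‖ ^ 2 : ℝ) : ℂ) * ((g t : ℝ) : ℂ)).re) va := ((bn.mul hg).int (μ := va)).re
      refine h1.congr (Eventually.of_forall fun t => ?_)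
      simp only
      rw [← Complex.ofReal_mul, Complex.ofReal_re]
    have bim : Bm fun t => (((we (wB w.B0 w.B1) (e1 t)).im : ℝ) : ℂ) :=
      ⟨Complex.continuous_ofReal.measurable.comp (Complex.measurable_im.comp bB.meas), by
        obtain ⟨C, hC⟩ := bB.2
        exact ⟨C, fun t => by
          rw [Complex.norm_real]
          exact (Complex.abs_im_le_norm _).trans (hC t)⟩⟩
    have j1 := jr (bre bA)
    have j2 := jr (bre bB)
    have j3 := jr bim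
    have hint : ∫ t, ‖f t‖ ^ 2 * P (e1 t) ∂va = (∫ t, ‖f t‖ ^ 2 * (we [(w.A0, 0), (-w.A1, 2)] (e1 t)).re ∂va)
        - w.t * (r.re * (∫ t, ‖f t‖ ^ 2 * (we (wB w.B0 w.B1) (e1 t)).re ∂va)
          + r.im * ∫ t, ‖f t‖ ^ 2 * (we (wB w.B0 w.B1) (e1 t)).im ∂va) := by
      have j23 : Integrable (fun t => w.t * (r.re * (‖f t‖ ^ 2 * (we (wB w.B0 w.B1) (e1 t)).re)
          + r.im * (‖f t‖ ^ 2 * (we (wB w.B0 w.B1) (e1 t)).im))) va :=
        ((j2.const_mul r.re).add (j3.const_mul r.im)).const_mul _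
      rw [← integral_const_mul, ← integral_const_mul, ← integral_add (j2.const_mul _) (j3.const_mul _),
        ← integral_const_mul, ← integral_sub j1 j23]
      refine integral_congr_ae (Eventually.of_forall fun t => ?_)
      simp only [hPd, Complex.mul_re, Complex.conj_re, Complex.conj_im]
      ring
    rw [hint, iA, iBr, iBi]
    -- the forms at the points
    have key : ∀ k, 0 ≤ (e2 z (vl va X e1) (T9U v im t1 t3 d w.m w.t w.g0 w.g1)
          + eq2 z (Zr 2 va X e1) (smQ (-1) (qq9 v d))).re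
        - (e2 z (vl va X e1) (G.TW [(w.A0, 0), (-w.A1, 2)]) + eq2 z (Zr 2 va X e1) (G.QW [(w.A0, 0), (-w.A1, 2)])).re
        + w.t * ((ρ k).1 * (e2 z (vl va X e1) (G.TW (wB w.B0 w.B1)) + eq2 z (Zr 2 va X e1) (G.QW (wB w.B0 w.B1))).re
          + (ρ k).2 * (e2 z (vl va X e1) (G.TW (wB w.B0 w.B1)) + eq2 z (Zr 2 va X e1) (G.QW (wB w.B0 w.B1))).im)
        + -2 * (L.v z * (r - ((ρ k).1 + (ρ k).2 * Complex.I))).re := by
      intro k
      have h' := h k z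
      have hv := V_le v im t1 t3 d w L (ρ k).1 (ρ k).2 (k3 k) (k4 k) u0 (hk k) z
      have hB : ∀ ww : Wl, G.QW ww = (kr9 v d).QW ww := fun ww => QW_B (g9U_B v d w.m w.t w.g0 w.g1) ww
      have hLe := Lm.eq (u := vl va X e1) L (ρ k).1 (ρ k).2 z u0
      rw [← hLe]
      unfold R0 I0 at hv
      rw [e2_mrgT, e2_mrgT, e2_append, e2_append, e2_append, e2_append, e2_smT, e2_smT, e2_smT] at hv
      unfold VQR VQI at h'
      rw [eq2_append, eq2_append, eq2_smQ, eq2_smQ, eq2_smQ, eq2_smQ] at h'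
      rw [hB, hB, eq2_smQ]
      have dn : ∀ w : ℂ, ((((-1 : ℚ)) : ℂ) * w).re = -w.re := fun w => by
        push_cast
        rw [neg_one_mul, Complex.neg_re]
      have dq : ∀ (a b : ℚ) (w : ℂ), (((a * b : ℚ) : ℂ) * w).re = (a : ℝ) * b * w.re := fun a b w => by
        have : (((a * b : ℚ)) : ℂ) = (((a : ℝ) * b : ℝ) : ℂ) := by push_cast; ring
        rw [this, Complex.re_ofReal_mul]
      have di : ∀ (a b : ℚ) (w : ℂ), (((a * b : ℚ) : ℂ) * w).im = (a : ℝ) * b * w.im := fun a b w => by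
        have : (((a * b : ℚ)) : ℂ) = (((a : ℝ) * b : ℝ) : ℂ) := by push_cast; ring
        rw [this, Complex.im_ofReal_mul]
      simp only [Complex.add_re, Complex.add_im, dn, dq, di] at h' hv ⊢
      linarith
    -- the combination
    have hs : 0 ≤ ∑ k, lm k * ((e2 z (vl va X e1) (T9U v im t1 t3 d w.m w.t w.g0 w.g1)
          + eq2 z (Zr 2 va X e1) (smQ (-1) (qq9 v d))).re
        - (e2 z (vl va X e1) (G.TW [(w.A0, 0), (-w.A1, 2)]) + eq2 z (Zr 2 va X e1) (G.QW [(w.A0, 0), (-w.A1, 2)])).re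
        + w.t * ((ρ k).1 * (e2 z (vl va X e1) (G.TW (wB w.B0 w.B1)) + eq2 z (Zr 2 va X e1) (G.QW (wB w.B0 w.B1))).re
          + (ρ k).2 * (e2 z (vl va X e1) (G.TW (wB w.B0 w.B1)) + eq2 z (Zr 2 va X e1) (G.QW (wB w.B0 w.B1))).im)
        + -2 * (L.v z * (r - ((ρ k).1 + (ρ k).2 * Complex.I))).re) :=
      Finset.sum_nonneg fun k _ => mul_nonneg (hl k) (key k)
    have ht : TCU v im t1 t3 d (mu9 v d w.m w.t w.g0 w.g1 1) (mu9 v d w.m w.t w.g0 w.g1 (-1))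
      (mu9 v d w.m w.t w.g0 w.g1 3) (mu9 v d w.m w.t w.g0 w.g1 (-3)) (A9 v) (yw w.m w.t) =
        T9U v im t1 t3 d w.m w.t w.g0 w.g1 := rfl
    rw [ht]
    generalize (e2 z (vl va X e1) (T9U v im t1 t3 d w.m w.t w.g0 w.g1)
          + eq2 z (Zr 2 va X e1) (smQ (-1) (qq9 v d))).re = C at hs ⊢
    generalize (e2 z (vl va X e1) (G.TW [(w.A0, 0), (-w.A1, 2)])
      + eq2 z (Zr 2 va X e1) (G.QW [(w.A0, 0), (-w.A1, 2)])).re = IA at hs ⊢
    generalize (e2 z (vl va X e1) (G.TW (wB w.B0 w.B1)) + eq2 z (Zr 2 va X e1) (G.QW (wB w.B0 w.B1))) = IB at hs ⊢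
    have hsum : ∑ k, lm k * (C - IA + w.t * ((ρ k).1 * IB.re + (ρ k).2 * IB.im)
        + -2 * (L.v z * (r - ((ρ k).1 + (ρ k).2 * Complex.I))).re) = C - IA + w.t * (r.re * IB.re + r.im * IB.im) := by
      have e : ∀ k, lm k * (C - IA + w.t * ((ρ k).1 * IB.re + (ρ k).2 * IB.im)
          + -2 * (L.v z * (r - ((ρ k).1 + (ρ k).2 * Complex.I))).re) =
          lm k * (C - IA - 2 * (L.v z * r).re) + (lm k * ((ρ k).1 : ℝ)) * (w.t * IB.re + 2 * (L.v z).re)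
            + (lm k * ((ρ k).2 : ℝ)) * (w.t * IB.im - 2 * (L.v z).im) := by
        intro k
        have r1 : ∀ q : ℚ, ((q : ℂ)).re = (q : ℝ) := fun q => Complex.ratCast_re q
        have r2 : ∀ q : ℚ, ((q : ℂ)).im = 0 := fun q => Complex.ratCast_im q
        simp only [Complex.mul_re, Complex.sub_re, Complex.sub_im, Complex.add_re, Complex.add_im, Complex.mul_im,
          Complex.I_re, Complex.I_im, r1, r2]
        ring
      simp only [e]
      rw [Finset.sum_add_distrib, Finset.sum_add_distrib, ← Finset.sum_mul, ← Finset.sum_mul, ← Finset.sum_mul,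
        hl1, hlx, hly]
      simp only [Complex.mul_re]
      ring
    rw [hsum] at hs
    linarith

end Pool.Agent.FPX.BRG
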