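import Mathlib
import Pool.Agent.FPX.BTG

/-
BU1 (helper15): the class with the forms of OM7, OMG and OMH (`|C₅|²`, `Im conj C₅ ∇C₅`) and the test function `E⁵` as an
instance of BTG.
-/

open MeasureTheory Set Filter Topology Complex
open scoped ComplexConjugate

noncomputable section

set_option linter.unusedSectionVars false

namespace Pool.Agent.FPX.BU

open Pool.Agent.FPX.BTG (Cls mo aK bK tht ker dev lh)

/-- the vector of coefficients: `w, k₂, k₀, p, k₃, Y, k₃₃, g, q, z, x, b, b₃, b₄, μ`, then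
`a₁ = 2 c p₁, a₂ = 2 c s² p₂, a₃ = s⁴ x₅, a₄ = s⁶ y₅, a₅ (of Re conj r₃ r₅), a₆ (of Re r₅)`, then
`4 c g₅, (8 c³/s²)(s² g₅' + g₅), b₅, (20 c²/s²) b₅, 4 c² b₅'` -/
abbrev V26 := Fin 26 → ℝ

/-- the moments `r₃, r₅, r₇, q₀, q₂, q₄` -/
abbrev M9 := Fin 6 → ℂ

/-- the terms of the deviation: functions of the moments and of `A, B, N, M, S, R, G, N₅, M₅` -/
abbrev PsiH (Q : Type) := Q → M9 → ℂ → ℂ → ℂ → ℂ → ℂ → ℂ → ℂ → ℂ → ℂ → ℂ

/-- the functions of the moments -/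
def g9 : Fin 6 → ℂ → ℝ → ℂ :=
  ![fun e x => (x : ℂ) * e ^ 3, fun e x => (x : ℂ) * e ^ 5, fun e x => (x : ℂ) * e ^ 7,
    fun _ x => (x : ℂ) ^ 2, fun e x => (x : ℂ) ^ 2 * e ^ 2, fun e x => (x : ℂ) ^ 2 * e ^ 4]

/-- the test functions `E³, x E², x, E⁵` -/
def ρH : Fin 4 → ℂ → ℝ → ℂ :=
  ![fun e _ => e ^ 3, fun e x => (x : ℂ) * e ^ 2, fun _ x => (x : ℂ), fun e _ => e ^ 5]

/-- the kernels -/
def κH : Fin 26 → M9 → ℂ → ℝ → ℂ :=
  ![fun _ _ _ => 0, fun _ _ _ => 0, fun _ _ _ => 0,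
    fun _ e x => (x : ℂ) * e ^ 2, fun _ _ _ => 0, fun _ e _ => e ^ 3, fun _ _ _ => 0,
    fun m e _ => (((conj (m 0) * e ^ 3).re : ℝ) : ℂ),
    fun _ e x => (x : ℂ) * conj e ^ 2, fun _ _ x => (x : ℂ), fun _ e _ => conj e ^ 3,
    fun _ _ _ => 0, fun _ _ _ => 0, fun _ _ _ => 0, fun _ _ _ => 0,
    fun m e _ => conj (m 1) * e ^ 3 + m 0 * conj e ^ 5,
    fun m e _ => m 1 * conj e ^ 3 + conj (m 0) * e ^ 5,
    fun _ e _ => conj e ^ 5, fun _ e _ => e ^ 5, fun _ _ _ => 0, fun _ _ _ => 0,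
    fun m e _ => (((conj (m 1) * e ^ 5).re : ℝ) : ℂ), fun _ _ _ => 0, fun _ _ _ => 0, fun _ _ _ => 0,
    fun _ _ _ => 0]

/-- the part of type `conj K` of `∇C₃` -/
def n9 (m : M9) (A B R : ℂ) : ℂ := R + 5 / 2 * conj B * m 1 - 3 / 2 * (A - conj B) * m 0

/-- the part of type `K` of `∇C₃` -/
def m9 (m : M9) (A B R : ℂ) : ℂ := R + 5 / 2 * conj A * m 1 - 3 / 2 * (B - conj A) * m 0

/-- the part of type `conj K` of `(s/c) ∇S₂` -/
def s9 (m : M9) (A B S : ℂ) : ℂ := S + conj B * (m 5 - m 0) - 1 / 2 * (A - conj B) * m 4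

/-- the part of type `K` of `(s/c) ∇S₂` -/
def r9 (m : M9) (A B S : ℂ) : ℂ := S + conj A * (m 5 - m 0) - 1 / 2 * (B - conj A) * m 4

/-- the part of type `conj K` of `∇C₅` -/
def n5 (m : M9) (A B R : ℂ) : ℂ :=
  R + 7 / 2 * conj B * m 2 - 3 / 2 * A * m 0 - 5 / 2 * (A - conj B) * m 1

/-- the part of type `K` of `∇C₅` -/
def m5 (m : M9) (A B R : ℂ) : ℂ :=
  R + 7 / 2 * conj A * m 2 - 3 / 2 * B * m 0 - 5 / 2 * (B - conj A) * m 1

/-- the terms without the kernel; `N`, `M` are the parts of `∇C₃`, `P`, `R` those of `∇C₅` -/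
def θH' (m : M9) (A B N M P R : ℂ) : Fin 26 → ℝ :=
  ![‖A‖ ^ 2 - ‖B‖ ^ 2,
    (m 4).re * (‖A‖ ^ 2 - ‖B‖ ^ 2),
    (m 3).re * (‖A‖ ^ 2 - ‖B‖ ^ 2),
    2 * ((m 5).re - (m 0).re) * (‖A‖ ^ 2 - ‖B‖ ^ 2),
    (m 0).re * (‖A‖ ^ 2 - ‖B‖ ^ 2),
    5 * (m 1).re * (‖A‖ ^ 2 - ‖B‖ ^ 2),
    ‖m 0‖ ^ 2 * (‖A‖ ^ 2 - ‖B‖ ^ 2),
    5 / 2 * (conj (m 0) * m 1).re * (‖A‖ ^ 2 - ‖B‖ ^ 2),
    0, 0, 0,
    2 * (‖N‖ ^ 2 - ‖M‖ ^ 2),
    -(‖m 0‖ ^ 2 * (‖A‖ ^ 2 - ‖B‖ ^ 2)),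
    ((A + conj B) * (m 0 * conj N - conj (m 0) * M)).re,
    2 * ‖B‖ ^ 2,
    (5 * ‖m 1‖ ^ 2 - 3 * ‖m 0‖ ^ 2) * (‖A‖ ^ 2 - ‖B‖ ^ 2),
    7 * (conj (m 0) * m 2).re * (‖A‖ ^ 2 - ‖B‖ ^ 2),
    -3 * (m 0).re * (‖A‖ ^ 2 - ‖B‖ ^ 2),
    7 * (m 2).re * (‖A‖ ^ 2 - ‖B‖ ^ 2),
    (conj (m 0) * m 1).re * (‖A‖ ^ 2 - ‖B‖ ^ 2),
    (m 1).re * (‖A‖ ^ 2 - ‖B‖ ^ 2),
    1 / 2 * (7 * (conj (m 1) * m 2).re - 3 * (conj (m 0) * m 1).re) * (‖A‖ ^ 2 - ‖B‖ ^ 2),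
    ‖m 1‖ ^ 2 * (‖A‖ ^ 2 - ‖B‖ ^ 2),
    2 * (‖P‖ ^ 2 - ‖R‖ ^ 2),
    -(‖m 1‖ ^ 2 * (‖A‖ ^ 2 - ‖B‖ ^ 2)),
    ((A + conj B) * (m 1 * conj P - conj (m 1) * R)).re]

theorem c_re {Φ : ℂ → ℝ → ℂ} (h : Continuous fun p : ℂ × ℝ => Φ p.1 p.2) :
    Continuous fun p : ℂ × ℝ => (((Φ p.1 p.2).re : ℝ) : ℂ) :=
  Complex.continuous_ofReal.comp (Complex.continuous_re.comp h)

/-- **the class** -/
def CH {Q : Type} (Ψ : PsiH Q) : Cls (Fin 6) (Fin 4) (Fin 26) Q where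
  g := g9
  ρ := ρH
  κ := κH
  θ := fun i m A B a b => θH' m A B (n9 m A B (b 0)) (m9 m A B (a 0)) (n5 m A B (b 3)) (m5 m A B (a 3)) i
  ψ := fun q m A B a b => Ψ q m A B (n9 m A B (b 0)) (m9 m A B (a 0)) (s9 m A B (b 1)) (r9 m A B (a 1)) (a 2)
    (n5 m A B (b 3)) (m5 m A B (a 3))
  σ := fun m => 3 / 2 * m 0
  cg := by
    intro j
    have c2 : Continuous fun p : ℂ × ℝ => (p.2 : ℂ) := Complex.continuous_ofReal.comp continuous_snd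
    fin_cases j
    · exact c2.mul (continuous_fst.pow 3)
    · exact c2.mul (continuous_fst.pow 5)
    · exact c2.mul (continuous_fst.pow 7)
    · exact c2.pow 2
    · exact (c2.pow 2).mul (continuous_fst.pow 2)
    · exact (c2.pow 2).mul (continuous_fst.pow 4)
  cρ := by
    intro j
    have c2 : Continuous fun p : ℂ × ℝ => (p.2 : ℂ) := Complex.continuous_ofReal.comp continuous_snd
    fin_cases j
    · exact continuous_fst.pow 3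
    · exact c2.mul (continuous_fst.pow 2)
    · exact c2
    · exact continuous_fst.pow 5
  cκ := by
    intro j m
    have c1 : Continuous fun p : ℂ × ℝ => conj p.1 := Complex.continuous_conj.comp continuous_fst
    have c2 : Continuous fun p : ℂ × ℝ => (p.2 : ℂ) := Complex.continuous_ofReal.comp continuous_snd
    have c3 : Continuous fun p : ℂ × ℝ => (((conj (m 0) * p.1 ^ 3).re : ℝ) : ℂ) :=
      Complex.continuous_ofReal.comp (Complex.continuous_re.comp (continuous_const.mul (continuous_fst.pow 3)))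
    fin_cases j
    · exact continuous_const
    · exact continuous_const
    · exact continuous_const
    · exact c2.mul (continuous_fst.pow 2)
    · exact continuous_const
    · exact continuous_fst.pow 3
    · exact continuous_const
    · exact c3
    · exact c2.mul (c1.pow 2)
    · exact c2
    · exact c1.pow 3
    · exact continuous_const
    · exact continuous_const
    · exact continuous_const
    · exact continuous_const
    · exact (continuous_const.mul (continuous_fst.pow 3)).add (continuous_const.mul (c1.pow 5))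
    · exact (continuous_const.mul (c1.pow 3)).add (continuous_const.mul (continuous_fst.pow 5))
    · exact c1.pow 5
    · exact continuous_fst.pow 5
    · exact continuous_const
    · exact continuous_const
    · exact Complex.continuous_ofReal.comp
        (Complex.continuous_re.comp (continuous_const.mul (continuous_fst.pow 5)))
    · exact continuous_const
    · exact continuous_const
    · exact continuous_const
    · exact continuous_const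

theorem sum26 {M : Type*} [AddCommMonoid M] (f : Fin 26 → M) : ∑ i, f i =
    f 0 + (f 1 + (f 2 + (f 3 + (f 4 + (f 5 + (f 6 + (f 7 + (f 8 + (f 9 + (f 10 + (f 11 + (f 12 + (f 13
    + (f 14 + (f 15 + (f 16 + (f 17 + (f 18 + (f 19 + (f 20 + (f 21 + (f 22 + (f 23 + (f 24
    + f 25)))))))))))))))))))))))) := by
  simp only [Fin.sum_univ_succ, Fin.sum_univ_zero, add_zero]
  rfl

/-- the coefficient of the Jacobian -/
def omH (v : V26) (m : M9) : ℝ :=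
  v 0 + v 1 * (m 4).re + v 2 * (m 3).re + v 3 * (2 * ((m 5).re - (m 0).re)) + v 4 * (m 0).re
    + v 5 * (5 * (m 1).re) + v 6 * ‖m 0‖ ^ 2 + v 7 * (5 / 2 * (conj (m 0) * m 1).re)
    + v 15 * (5 * ‖m 1‖ ^ 2 - 3 * ‖m 0‖ ^ 2) + v 16 * (7 * (conj (m 0) * m 2).re) + v 17 * (-3 * (m 0).re)
    + v 18 * (7 * (m 2).re) + v 19 * (conj (m 0) * m 1).re + v 20 * (m 1).re
    + v 21 * (1 / 2 * (7 * (conj (m 1) * m 2).re - 3 * (conj (m 0) * m 1).re)) + v 22 * ‖m 1‖ ^ 2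

/-- the terms with `∇C₃` -/
def bbH (v : V26) (m : M9) (A B N M : ℂ) : ℝ :=
  v 11 * (2 * (‖N‖ ^ 2 - ‖M‖ ^ 2)) + v 12 * -(‖m 0‖ ^ 2 * (‖A‖ ^ 2 - ‖B‖ ^ 2))
    + v 13 * ((A + conj B) * (m 0 * conj N - conj (m 0) * M)).re

/-- the terms with `∇C₅` -/
def b5H (v : V26) (m : M9) (A B P R : ℂ) : ℝ :=
  v 23 * (2 * (‖P‖ ^ 2 - ‖R‖ ^ 2)) + v 24 * -(‖m 1‖ ^ 2 * (‖A‖ ^ 2 - ‖B‖ ^ 2))
    + v 25 * ((A + conj B) * (m 1 * conj P - conj (m 1) * R)).re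

/-- the kernel -/
def keH (v : V26) (m : M9) (e : ℂ) (x : ℝ) : ℂ :=
  (x : ℂ) * ((v 8 : ℂ) * conj e ^ 2 + (v 9 : ℂ) + (v 3 : ℂ) * e ^ 2)
    + ((v 10 : ℂ) + (v 16 : ℂ) * m 1) * conj e ^ 3 + ((v 5 : ℂ) + (v 15 : ℂ) * conj (m 1)) * e ^ 3
    + (v 7 : ℂ) * (((conj (m 0) * e ^ 3).re : ℝ) : ℂ)
    + ((v 17 : ℂ) + (v 15 : ℂ) * m 0) * conj e ^ 5 + ((v 18 : ℂ) + (v 16 : ℂ) * conj (m 0)) * e ^ 5
    + (v 21 : ℂ) * (((conj (m 1) * e ^ 5).re : ℝ) : ℂ)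

section

variable {Q : Type} [Fintype Q] (Ψ : PsiH Q)

theorem kerH (v : V26) (m : M9) (e : ℂ) (x : ℝ) : ker (CH Ψ) v m e x = keH v m e x := by
  unfold BTG.ker keH
  rw [sum26]
  simp only [CH, κH, Matrix.cons_val_zero, Matrix.cons_val_one, Matrix.cons_val]
  ring

theorem thtH (v : V26) (m : M9) (A B : ℂ) (a b : Fin 4 → ℂ) : tht (CH Ψ) v m A B a b =
    omH v m * (‖A‖ ^ 2 - ‖B‖ ^ 2) + bbH v m A B (n9 m A B (b 0)) (m9 m A B (a 0))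
      + b5H v m A B (n5 m A B (b 3)) (m5 m A B (a 3)) + v 14 * (2 * ‖B‖ ^ 2) := by
  unfold tht omH bbH b5H
  rw [sum26]
  simp only [CH, θH', Matrix.cons_val_zero, Matrix.cons_val_one, Matrix.cons_val]
  ring

/-- the deviation in terms of `N, M, S, R, G, N₅, M₅` -/
def devH (u : Q → ℝ) (m : M9) (A B N M S R G P O : ℂ) : ℂ := ∑ q, (u q : ℂ) * Ψ q m A B N M S R G P O

end

end Pool.Agent.FPX.BU
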