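import Mathlib
import Pool.Agent.FPX.BTM
import Pool.Agent.FPX.BU1

/-
BU2 (helper15): perturbation of the coefficient vector and latitude cells for the class `CH` (as BTJ, BTK).
-/

open MeasureTheory Set Filter Topology Complex
open scoped ComplexConjugate

noncomputable section

set_option linter.unusedSectionVars false

namespace Pool.Agent.FPX.BU

open Pool.Agent.FPX.BTG (Sta Cls mo aK bK dev)
open Pool.Agent.FPX.BTI (nI AB_le pkb J_le mJ reb ab2)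
open Pool.Agent.FPX.CRD (Bm)
open Pool.Agent.FPX.ALX
open Pool.Agent.FPX.BTN (va e1 nf ef bw)
open Pool.Agent.FPX.UMP (Ef)
open Pool.Agent.FPX.F54 (X1 X2 X_lt X_G1 X_G2)
open Pool.Agent.FPX.CERQ (xT)

variable {Q : Type} [Fintype Q] {Ψ : PsiH Q}
variable {X : Type*} [MeasurableSpace X] {ν : Measure X} {D : X → ℝ} {E : X → ℂ}

/-- the bounds of the terms -/
def cH : Fin 26 → ℝ :=
  ![3, 1, 1, 8, 1, 15, 1, 3, 4, 4, 7, 50, 1, 8, 6, 11, 9, 9, 18, 1, 2, 9, 1, 210, 1, 41]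

theorem nm5 {m : M9} {A B R : ℂ} (h0 : ‖m 0‖ ≤ 1 / 4) (h1 : ‖m 1‖ ≤ 31 / 50) (h2 : ‖m 2‖ ≤ 31 / 50)
    (hA : ‖A‖ ≤ 8 / 5) (hB : ‖B‖ ≤ 8 / 5) (hR : ‖R‖ ≤ 1) :
    ‖n5 m A B R‖ ≤ 101 / 10 ∧ ‖m5 m A B R‖ ≤ 101 / 10 := by
  have n0 := norm_nonneg (m 0)
  have n1 := norm_nonneg (m 1)
  have n2 := norm_nonneg (m 2)
  have key : ∀ P S : ℂ, ‖P‖ ≤ 8 / 5 → ‖S‖ ≤ 8 / 5 →
      ‖R + 7 / 2 * conj P * m 2 - 3 / 2 * S * m 0 - 5 / 2 * (S - conj P) * m 1‖ ≤ 101 / 10 := by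
    intro P S hP hS
    have t1 : ‖7 / 2 * conj P * m 2‖ ≤ 7 / 2 * (8 / 5) * (31 / 50) := by
      rw [norm_mul, norm_mul, Complex.norm_conj]
      have : ‖(7 / 2 : ℂ)‖ = 7 / 2 := by norm_num
      rw [this]
      gcongr
    have t2 : ‖3 / 2 * S * m 0‖ ≤ 3 / 2 * (8 / 5) * (1 / 4) := by
      rw [norm_mul, norm_mul]
      have : ‖(3 / 2 : ℂ)‖ = 3 / 2 := by norm_num
      rw [this]
      gcongr
    have t3 : ‖5 / 2 * (S - conj P) * m 1‖ ≤ 5 / 2 * (16 / 5) * (31 / 50) := by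
      rw [norm_mul, norm_mul]
      have : ‖(5 / 2 : ℂ)‖ = 5 / 2 := by norm_num
      rw [this]
      have : ‖S - conj P‖ ≤ 16 / 5 := (norm_sub_le _ _).trans (by
        rw [Complex.norm_conj]
        linarith)
      gcongr
    have u1 := norm_sub_le (R + 7 / 2 * conj P * m 2 - 3 / 2 * S * m 0) (5 / 2 * (S - conj P) * m 1)
    have u2 := norm_sub_le (R + 7 / 2 * conj P * m 2) (3 / 2 * S * m 0)
    have u3 := norm_add_le R (7 / 2 * conj P * m 2)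
    linarith
  exact ⟨key B A hB hA, key A B hA hB⟩

/-- a state with small moments -/
structure Sml (Ψ : PsiH Q) (ν : Measure X) (D : X → ℝ) (E : X → ℂ) : Prop extends Sta ν D E where
  hx : ∀ t, |D t| ≤ 31 / 50
  h3 : ‖mo (CH Ψ) ν D E 0‖ ≤ 1 / 4

section

variable (H : Sml Ψ ν D E)

include H

theorem Sml.m1 : ‖mo (CH Ψ) ν D E 1‖ ≤ 31 / 50 := by
  have := H.pr
  refine nI fun t => ?_
  show ‖(D t : ℂ) * E t ^ 5‖ ≤ 31 / 50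
  rw [norm_mul, norm_pow, H.hE, one_pow, mul_one, Complex.norm_real]
  exact H.hx t

theorem Sml.m2 : ‖mo (CH Ψ) ν D E 2‖ ≤ 31 / 50 := by
  have := H.pr
  refine nI fun t => ?_
  show ‖(D t : ℂ) * E t ^ 7‖ ≤ 31 / 50
  rw [norm_mul, norm_pow, H.hE, one_pow, mul_one, Complex.norm_real]
  exact H.hx t

theorem Sml.m3 : ‖mo (CH Ψ) ν D E 3‖ ≤ (31 / 50) ^ 2 := by
  have := H.pr
  refine nI fun t => ?_
  show ‖(D t : ℂ) ^ 2‖ ≤ (31 / 50) ^ 2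
  rw [norm_pow, Complex.norm_real]
  exact pow_le_pow_left₀ (norm_nonneg _) (H.hx t) 2

theorem Sml.m4 : ‖mo (CH Ψ) ν D E 4‖ ≤ (31 / 50) ^ 2 := by
  have := H.pr
  refine nI fun t => ?_
  show ‖(D t : ℂ) ^ 2 * E t ^ 2‖ ≤ (31 / 50) ^ 2
  rw [norm_mul, norm_pow, norm_pow, H.hE, one_pow, mul_one, Complex.norm_real]
  exact pow_le_pow_left₀ (norm_nonneg _) (H.hx t) 2

theorem Sml.m5 : ‖mo (CH Ψ) ν D E 5‖ ≤ (31 / 50) ^ 2 := by
  have := H.pr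
  refine nI fun t => ?_
  show ‖(D t : ℂ) ^ 2 * E t ^ 4‖ ≤ (31 / 50) ^ 2
  rw [norm_mul, norm_pow, norm_pow, H.hE, one_pow, mul_one, Complex.norm_real]
  exact pow_le_pow_left₀ (norm_nonneg _) (H.hx t) 2

/-- **a priori bounds of the terms** -/
theorem Sml.ph_le {K : X → ℂ} (hK1 : ∀ t, ‖K t‖ ≤ 1) {A B : ℂ} (hA : ‖A‖ ≤ 8 / 5)
    (hB : ‖B‖ ≤ 8 / 5) (i : Fin 26) : |BTG.ph (CH Ψ) ν D E i K A B| ≤ cH i := by
  have := H.pr
  have h0 := H.h3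
  have h1 := H.m1
  have h2 := H.m2
  have h3 := H.m3
  have h4 := H.m4
  have h5 := H.m5
  have hE := H.hE
  have hE' : ∀ t, ‖conj (E t)‖ = 1 := fun t => by rw [Complex.norm_conj, hE]
  have hx : ∀ t, ‖(D t : ℂ)‖ ≤ 31 / 50 := fun t => by
    rw [Complex.norm_real]
    exact H.hx t
  have ha : ‖aK (CH Ψ) ν D E K 0‖ ≤ 1 := nI fun t => by
    show ‖E t ^ 3 * K t‖ ≤ 1
    rw [norm_mul, norm_pow, hE, one_pow, one_mul]
    exact hK1 t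
  have hb : ‖bK (CH Ψ) ν D E K 0‖ ≤ 1 := nI fun t => by
    show ‖E t ^ 3 * conj (K t)‖ ≤ 1
    rw [norm_mul, norm_pow, hE, one_pow, one_mul, Complex.norm_conj]
    exact hK1 t
  have z0 : (2 * (A * ∫ t, (0 : ℂ) * K t ∂ν).re - 2 * (B * ∫ t, (0 : ℂ) * conj (K t) ∂ν).re) = 0 := by
    simp
  have hph : ∀ (θ : ℝ) (κ : X → ℂ) (k a c : ℝ), 0 ≤ k → (∀ t, ‖κ t‖ ≤ k) → |θ| ≤ a → a + 32 / 5 * k ≤ c →
      |θ + 2 * (A * ∫ t, κ t * K t ∂ν).re - 2 * (B * ∫ t, κ t * conj (K t) ∂ν).re| ≤ c := by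
    intro θ κ k a c hk hκ hθ hc
    exact ab2 hθ (pkb hK1 hA hB hk hκ) (by ring) hc
  have hth : ∀ (θ c : ℝ), |θ| ≤ c →
      |θ + 2 * (A * ∫ t, (0 : ℂ) * K t ∂ν).re - 2 * (B * ∫ t, (0 : ℂ) * conj (K t) ∂ν).re| ≤ c := by
    intro θ c h
    rw [add_sub_assoc, z0, add_zero]
    exact h
  set m := mo (CH Ψ) ν D E with hm
  have hN : ‖n9 m A B (bK (CH Ψ) ν D E K 0)‖ ≤ 117 / 25 := by
    unfold n9
    have t1 : ‖5 / 2 * conj B * m 1‖ ≤ 5 / 2 * (8 / 5) * (31 / 50) := by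
      rw [norm_mul, norm_mul, Complex.norm_conj]
      have : ‖(5 / 2 : ℂ)‖ = 5 / 2 := by norm_num
      rw [this]
      gcongr
    have t2 : ‖3 / 2 * (A - conj B) * m 0‖ ≤ 3 / 2 * (16 / 5) * (1 / 4) := by
      rw [norm_mul, norm_mul]
      have : ‖(3 / 2 : ℂ)‖ = 3 / 2 := by norm_num
      rw [this]
      have : ‖A - conj B‖ ≤ 16 / 5 := (norm_sub_le _ _).trans (by
        rw [Complex.norm_conj]
        linarith)
      gcongr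
    calc _ ≤ ‖bK (CH Ψ) ν D E K 0 + 5 / 2 * conj B * m 1‖ + ‖3 / 2 * (A - conj B) * m 0‖ := norm_sub_le _ _
      _ ≤ (‖bK (CH Ψ) ν D E K 0‖ + ‖5 / 2 * conj B * m 1‖) + ‖3 / 2 * (A - conj B) * m 0‖ := by
        gcongr
        exact norm_add_le _ _
      _ ≤ 117 / 25 := by linarith
  have hM : ‖m9 m A B (aK (CH Ψ) ν D E K 0)‖ ≤ 117 / 25 := by
    unfold m9
    have t1 : ‖5 / 2 * conj A * m 1‖ ≤ 5 / 2 * (8 / 5) * (31 / 50) := by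
      rw [norm_mul, norm_mul, Complex.norm_conj]
      have : ‖(5 / 2 : ℂ)‖ = 5 / 2 := by norm_num
      rw [this]
      gcongr
    have t2 : ‖3 / 2 * (B - conj A) * m 0‖ ≤ 3 / 2 * (16 / 5) * (1 / 4) := by
      rw [norm_mul, norm_mul]
      have : ‖(3 / 2 : ℂ)‖ = 3 / 2 := by norm_num
      rw [this]
      have : ‖B - conj A‖ ≤ 16 / 5 := (norm_sub_le _ _).trans (by
        rw [Complex.norm_conj]
        linarith)
      gcongr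
    calc _ ≤ ‖aK (CH Ψ) ν D E K 0 + 5 / 2 * conj A * m 1‖ + ‖3 / 2 * (B - conj A) * m 0‖ := norm_sub_le _ _
      _ ≤ (‖aK (CH Ψ) ν D E K 0‖ + ‖5 / 2 * conj A * m 1‖) + ‖3 / 2 * (B - conj A) * m 0‖ := by
        gcongr
        exact norm_add_le _ _
      _ ≤ 117 / 25 := by linarith
  have ha5 : ‖aK (CH Ψ) ν D E K 3‖ ≤ 1 := nI fun t => by
    show ‖E t ^ 5 * K t‖ ≤ 1
    rw [norm_mul, norm_pow, hE, one_pow, one_mul]
    exact hK1 t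
  have hb5 : ‖bK (CH Ψ) ν D E K 3‖ ≤ 1 := nI fun t => by
    show ‖E t ^ 5 * conj (K t)‖ ≤ 1
    rw [norm_mul, norm_pow, hE, one_pow, one_mul, Complex.norm_conj]
    exact hK1 t
  have hN5 := (nm5 h0 h1 h2 hA hB hb5).1
  have hM5 := (nm5 h0 h1 h2 hA hB ha5).2
  have n0 := norm_nonneg (m 0)
  have n1 := norm_nonneg (m 1)
  have hxE : ∀ (n : ℕ) t, ‖(D t : ℂ) * E t ^ n‖ ≤ 31 / 50 := fun n t => by
    rw [norm_mul, norm_pow, hE, one_pow, mul_one]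
    exact hx t
  have hxE' : ∀ (n : ℕ) t, ‖(D t : ℂ) * conj (E t) ^ n‖ ≤ 31 / 50 := fun n t => by
    rw [norm_mul, norm_pow, hE', one_pow, mul_one]
    exact hx t
  have hmE : ∀ (z : ℂ) (n : ℕ) t, ‖z * E t ^ n‖ = ‖z‖ := fun z n t => by
    rw [norm_mul, norm_pow, hE, one_pow, mul_one]
  have hmE' : ∀ (z : ℂ) (n : ℕ) t, ‖z * conj (E t) ^ n‖ = ‖z‖ := fun z n t => by
    rw [norm_mul, norm_pow, hE', one_pow, mul_one]
  have p03 : ‖m 0‖ ^ 2 ≤ 1 / 16 := by nlinarith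
  have p13 : ‖m 1‖ ^ 2 ≤ (31 / 50) ^ 2 := by nlinarith
  have q01 : ‖conj (m 0) * m 1‖ ≤ 1 / 4 * (31 / 50) := by
    rw [norm_mul, Complex.norm_conj]
    exact mul_le_mul h0 h1 n1 (by norm_num)
  have q02 : ‖conj (m 0) * m 2‖ ≤ 1 / 4 * (31 / 50) := by
    rw [norm_mul, Complex.norm_conj]
    exact mul_le_mul h0 h2 (norm_nonneg _) (by norm_num)
  fin_cases i
  · exact hth _ _ ((J_le hA hB).trans (by norm_num [cH]))
  · exact hth _ _ ((mJ hA hB (reb h4)).trans (by norm_num [cH]))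
  · exact hth _ _ ((mJ hA hB (reb h3)).trans (by norm_num [cH]))
  · refine hph _ (fun t => (D t : ℂ) * E t ^ 2) (31 / 50) (64 / 25 * (2 * ((31 / 50) ^ 2 + 1 / 4))) _
      (by norm_num) (hxE 2) (mJ hA hB ?_) (by norm_num [cH])
    rw [abs_mul, abs_two]
    have := abs_sub (m 5).re (m 0).re
    have := reb h5
    have := reb h0
    linarith
  · exact hth _ _ ((mJ hA hB (reb h0)).trans (by norm_num [cH]))
  · refine hph _ (fun t => E t ^ 3) 1 (64 / 25 * (5 * (31 / 50))) _ (by norm_num)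
      (fun t => by rw [norm_pow, hE, one_pow]) (mJ hA hB ?_) (by norm_num [cH])
    rw [abs_mul, abs_of_pos (by norm_num : (0 : ℝ) < 5)]
    have := reb h1
    linarith
  · refine hth _ _ ((mJ hA hB (k := 1 / 16) ?_).trans (by norm_num [cH]))
    rw [abs_of_nonneg (sq_nonneg _)]
    exact p03
  · refine hph _ (fun t => (((conj (m 0) * E t ^ 3).re : ℝ) : ℂ)) (1 / 4)
      (64 / 25 * (5 / 2 * (1 / 4 * (31 / 50)))) _ (by norm_num) (fun t => ?_) (mJ hA hB ?_) (by norm_num [cH])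
    · rw [Complex.norm_real, Real.norm_eq_abs]
      refine reb ?_
      rw [hmE, Complex.norm_conj]
      exact h0
    · rw [abs_mul, abs_of_pos (by norm_num : (0 : ℝ) < 5 / 2)]
      have := reb q01
      linarith
  · exact hph 0 (fun t => (D t : ℂ) * conj (E t) ^ 2) (31 / 50) 0 _ (by norm_num) (hxE' 2) (by simp)
      (by norm_num [cH])
  · exact hph 0 (fun t => (D t : ℂ)) (31 / 50) 0 _ (by norm_num) hx (by simp) (by norm_num [cH])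
  · exact hph 0 (fun t => conj (E t) ^ 3) 1 0 _ (by norm_num)
      (fun t => by rw [norm_pow, hE', one_pow]) (by simp) (by norm_num [cH])
  · refine hth _ _ ?_
    show |2 * (‖n9 m A B (bK (CH Ψ) ν D E K 0)‖ ^ 2 - ‖m9 m A B (aK (CH Ψ) ν D E K 0)‖ ^ 2)| ≤ 50
    have a1 := norm_nonneg (n9 m A B (bK (CH Ψ) ν D E K 0))
    have a2 := norm_nonneg (m9 m A B (aK (CH Ψ) ν D E K 0))
    rw [abs_le]
    constructor <;> nlinarith
  · refine hth _ _ ?_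
    show |-(‖m 0‖ ^ 2 * (‖A‖ ^ 2 - ‖B‖ ^ 2))| ≤ 1
    rw [abs_neg]
    refine (mJ hA hB (k := 1 / 16) ?_).trans (by norm_num)
    rw [abs_of_nonneg (sq_nonneg _)]
    exact p03
  · refine hth _ _ (reb ?_)
    show ‖(A + conj B) * (m 0 * conj (n9 m A B (bK (CH Ψ) ν D E K 0))
      - conj (m 0) * m9 m A B (aK (CH Ψ) ν D E K 0))‖ ≤ 8
    rw [norm_mul]
    have a1 : ‖A + conj B‖ ≤ 16 / 5 := (norm_add_le _ _).trans (by
      rw [Complex.norm_conj]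
      linarith)
    have a2 : ‖m 0 * conj (n9 m A B (bK (CH Ψ) ν D E K 0)) - conj (m 0) * m9 m A B (aK (CH Ψ) ν D E K 0)‖
        ≤ 1 / 4 * (117 / 25) + 1 / 4 * (117 / 25) := by
      refine (norm_sub_le _ _).trans (add_le_add ?_ ?_)
      · rw [norm_mul, Complex.norm_conj]
        exact mul_le_mul h0 hN (norm_nonneg _) (by norm_num)
      · rw [norm_mul, Complex.norm_conj]
        exact mul_le_mul h0 hM (norm_nonneg _) (by norm_num)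
    calc _ ≤ 16 / 5 * (1 / 4 * (117 / 25) + 1 / 4 * (117 / 25)) :=
          mul_le_mul a1 a2 (norm_nonneg _) (by norm_num)
      _ ≤ 8 := by norm_num
  · refine hth _ _ ?_
    show |2 * ‖B‖ ^ 2| ≤ 6
    have := norm_nonneg B
    rw [abs_of_nonneg (by positivity)]
    nlinarith
  · refine hph _ (fun t => conj (m 1) * E t ^ 3 + m 0 * conj (E t) ^ 5) (31 / 50 + 1 / 4)
      (64 / 25 * (5 * (31 / 50) ^ 2)) _ (by norm_num) (fun t => ?_) (mJ hA hB ?_) (by norm_num [cH])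
    · refine (norm_add_le _ _).trans (add_le_add ?_ ?_)
      · rw [hmE, Complex.norm_conj]
        exact h1
      · rw [hmE']
        exact h0
    · rw [abs_le]
      constructor <;> nlinarith [sq_nonneg ‖m 0‖, sq_nonneg ‖m 1‖]
  · refine hph _ (fun t => m 1 * conj (E t) ^ 3 + conj (m 0) * E t ^ 5) (31 / 50 + 1 / 4)
      (64 / 25 * (7 * (1 / 4 * (31 / 50)))) _ (by norm_num) (fun t => ?_) (mJ hA hB ?_) (by norm_num [cH])
    · refine (norm_add_le _ _).trans (add_le_add ?_ ?_)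
      · rw [hmE']
        exact h1
      · rw [hmE, Complex.norm_conj]
        exact h0
    · rw [abs_mul, abs_of_pos (by norm_num : (0 : ℝ) < 7)]
      have := reb q02
      linarith
  · refine hph _ (fun t => conj (E t) ^ 5) 1 (64 / 25 * (3 * (1 / 4))) _ (by norm_num)
      (fun t => by rw [norm_pow, hE', one_pow]) (mJ hA hB ?_) (by norm_num [cH])
    rw [abs_mul, abs_of_neg (by norm_num : (-3 : ℝ) < 0)]
    have := reb h0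
    linarith
  · refine hph _ (fun t => E t ^ 5) 1 (64 / 25 * (7 * (31 / 50))) _ (by norm_num)
      (fun t => by rw [norm_pow, hE, one_pow]) (mJ hA hB ?_) (by norm_num [cH])
    rw [abs_mul, abs_of_pos (by norm_num : (0 : ℝ) < 7)]
    have := reb h2
    linarith
  · exact hth _ _ ((mJ hA hB (reb q01)).trans (by norm_num [cH]))
  · exact hth _ _ ((mJ hA hB (reb h1)).trans (by norm_num [cH]))
  · refine hph _ (fun t => (((conj (m 1) * E t ^ 5).re : ℝ) : ℂ)) (31 / 50)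
      (64 / 25 * (1 / 2 * (7 * ((31 / 50) ^ 2) + 3 * (1 / 4 * (31 / 50))))) _ (by norm_num) (fun t => ?_)
      (mJ hA hB ?_) (by norm_num [cH])
    · rw [Complex.norm_real, Real.norm_eq_abs]
      refine reb ?_
      rw [hmE, Complex.norm_conj]
      exact h1
    · have q12 : ‖conj (m 1) * m 2‖ ≤ (31 / 50) ^ 2 := by
        rw [norm_mul, Complex.norm_conj, sq]
        exact mul_le_mul h1 h2 (norm_nonneg _) (by norm_num)
      have r1 := reb q12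
      have r2 := reb q01
      rw [abs_le] at r1 r2 ⊢
      constructor <;> linarith [r1.1, r1.2, r2.1, r2.2]
  · refine hth _ _ ((mJ hA hB (k := (31 / 50) ^ 2) ?_).trans (by norm_num [cH]))
    rw [abs_of_nonneg (sq_nonneg _)]
    exact p13
  · refine hth _ _ ?_
    show |2 * (‖n5 m A B (bK (CH Ψ) ν D E K 3)‖ ^ 2 - ‖BU.m5 m A B (aK (CH Ψ) ν D E K 3)‖ ^ 2)| ≤ 210
    have a1 := norm_nonneg (n5 m A B (bK (CH Ψ) ν D E K 3))
    have a2 := norm_nonneg (BU.m5 m A B (aK (CH Ψ) ν D E K 3))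
    rw [abs_le]
    constructor <;> nlinarith
  · refine hth _ _ ?_
    show |-(‖m 1‖ ^ 2 * (‖A‖ ^ 2 - ‖B‖ ^ 2))| ≤ 1
    rw [abs_neg]
    refine (mJ hA hB (k := (31 / 50) ^ 2) ?_).trans (by norm_num)
    rw [abs_of_nonneg (sq_nonneg _)]
    exact p13
  · refine hth _ _ (reb ?_)
    show ‖(A + conj B) * (m 1 * conj (n5 m A B (bK (CH Ψ) ν D E K 3))
      - conj (m 1) * BU.m5 m A B (aK (CH Ψ) ν D E K 3))‖ ≤ 41
    rw [norm_mul]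
    have a1 : ‖A + conj B‖ ≤ 16 / 5 := (norm_add_le _ _).trans (by
      rw [Complex.norm_conj]
      linarith)
    have a2 : ‖m 1 * conj (n5 m A B (bK (CH Ψ) ν D E K 3)) - conj (m 1) * BU.m5 m A B (aK (CH Ψ) ν D E K 3)‖
        ≤ 31 / 50 * (101 / 10) + 31 / 50 * (101 / 10) := by
      refine (norm_sub_le _ _).trans (add_le_add ?_ ?_)
      · rw [norm_mul, Complex.norm_conj]
        exact mul_le_mul h1 hN5 (norm_nonneg _) (by norm_num)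
      · rw [norm_mul, Complex.norm_conj]
        exact mul_le_mul h1 hM5 (norm_nonneg _) (by norm_num)
    calc _ ≤ 16 / 5 * (31 / 50 * (101 / 10) + 31 / 50 * (101 / 10)) :=
          mul_le_mul a1 a2 (norm_nonneg _) (by norm_num)
      _ ≤ 41 := by norm_num

end


theorem mo0 {f : ℝ → ℝ} (hf : Ef f) (h0 : 0 ≤ X1 f) (h2 : X2 f = 0) :
    ‖mo (CH Ψ) (nf f) (xT f) (ef f) 0‖ ≤ 1 / 4 := by
  have e : mo (CH Ψ) (nf f) (xT f) (ef f) 0 = BTN.M3 (nf f) (xT f) (ef f) := rfl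
  rw [e]
  rcases h0.lt_or_eq with hs | hs
  · have h := SIG.sF_le hf
    rw [BTN.sF_eq hf hs h2] at h
    unfold BTN.sg at h
    rw [norm_mul] at h
    have : ‖(3 / 2 : ℂ)‖ = 3 / 2 := by norm_num
    rw [this] at h
    linarith
  · have hx : ∀ t, xT f t = 0 := fun t => by
      have h := BTN.xT_bd hf h0 h2 t
      rw [← hs, mul_zero] at h
      exact abs_nonpos_iff.1 h
    unfold BTN.M3
    simp only [hx, Complex.ofReal_zero, zero_mul, integral_zero, norm_zero]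
    norm_num

theorem sml {f : ℝ → ℝ} (hf : Ef f) (h0 : 0 ≤ X1 f) (h2 : X2 f = 0) : Sml Ψ (nf f) (xT f) (ef f) where
  toSta := BTG.sta hf h0 h2
  hx := fun t => (BTN.xT_bd hf h0 h2 t).trans (by
    have := ALY.s_lt hf h0 h2
    linarith)
  h3 := mo0 hf h0 h2

/-- the deviation for close coefficients -/
theorem dev_near {X : Type*} [MeasurableSpace X] {ν : Measure X} {D : X → ℝ} {E : X → ℂ} {u u' : Q → ℝ}
    {A B : ℂ} {K : X → ℂ} {d : Q → ℝ}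
    (hd : ∀ q, ‖(CH Ψ).ψ q (mo (CH Ψ) ν D E) A B (aK (CH Ψ) ν D E K) (bK (CH Ψ) ν D E K)‖ ≤ d q)
    {δ U : ℝ} (hδ : ∑ q, |u' q - u q| * d q ≤ δ) (hU : ∑ q, |u q| * d q ≤ U) :
    ‖dev (CH Ψ) u' (mo (CH Ψ) ν D E) A B (aK (CH Ψ) ν D E K) (bK (CH Ψ) ν D E K)‖ ^ 2 ≤
      ‖dev (CH Ψ) u (mo (CH Ψ) ν D E) A B (aK (CH Ψ) ν D E K) (bK (CH Ψ) ν D E K)‖ ^ 2 + δ * (2 * U + δ) := by
  unfold dev
  set y : Q → ℂ := fun q => (CH Ψ).ψ q (mo (CH Ψ) ν D E) A B (aK (CH Ψ) ν D E K) (bK (CH Ψ) ν D E K) with hy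
  have a1 : ‖∑ q, (u q : ℂ) * y q‖ ≤ U := by
    refine ((norm_sum_le _ _).trans (Finset.sum_le_sum fun q _ => ?_)).trans hU
    rw [norm_mul, Complex.norm_real, Real.norm_eq_abs]
    exact mul_le_mul_of_nonneg_left (hd q) (abs_nonneg _)
  have a2 : ‖∑ q, ((u' q - u q : ℝ) : ℂ) * y q‖ ≤ δ := by
    refine ((norm_sum_le _ _).trans (Finset.sum_le_sum fun q _ => ?_)).trans hδ
    rw [norm_mul, Complex.norm_real, Real.norm_eq_abs]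
    exact mul_le_mul_of_nonneg_left (hd q) (abs_nonneg _)
  have e : ∑ q, (u' q : ℂ) * y q = ∑ q, (u q : ℂ) * y q + ∑ q, ((u' q - u q : ℝ) : ℂ) * y q := by
    rw [← Finset.sum_add_distrib]
    refine Finset.sum_congr rfl fun q _ => ?_
    push_cast
    ring
  have h := norm_add_le (∑ q, (u q : ℂ) * y q) (∑ q, ((u' q - u q : ℝ) : ℂ) * y q)
  rw [← e] at h
  have n0 := norm_nonneg (∑ q, (u' q : ℂ) * y q)
  have n1 := norm_nonneg (∑ q, (u q : ℂ) * y q)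
  have n2 := norm_nonneg (∑ q, ((u' q - u q : ℝ) : ℂ) * y q)
  have hδ0 : 0 ≤ δ := n2.trans a2
  calc ‖∑ q, (u' q : ℂ) * y q‖ ^ 2 ≤ (‖∑ q, (u q : ℂ) * y q‖ + δ) ^ 2 :=
        pow_le_pow_left₀ n0 (by linarith) 2
    _ = ‖∑ q, (u q : ℂ) * y q‖ ^ 2 + δ * (2 * ‖∑ q, (u q : ℂ) * y q‖ + δ) := by ring
    _ ≤ _ := by
      have : δ * (2 * ‖∑ q, (u q : ℂ) * y q‖ + δ) ≤ δ * (2 * U + δ) :=
        mul_le_mul_of_nonneg_left (by linarith) hδ0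
      linarith

/-- a priori bounds of the terms of the deviation -/
def PsiLe (Ψ : PsiH Q) (d : Q → ℝ) : Prop :=
  ∀ (m : M9) (A B N M S R G P O : ℂ), ‖m 0‖ ≤ 1 / 4 → ‖m 1‖ ≤ 31 / 50 → ‖m 2‖ ≤ 31 / 50 →
    ‖m 3‖ ≤ (31 / 50) ^ 2 → ‖m 4‖ ≤ (31 / 50) ^ 2 →
    ‖m 5‖ ≤ (31 / 50) ^ 2 → ‖A‖ ≤ 8 / 5 → ‖B‖ ≤ 8 / 5 → ‖N‖ ≤ 117 / 25 → ‖M‖ ≤ 117 / 25 → ‖S‖ ≤ 3 → ‖R‖ ≤ 3 →
    ‖G‖ ≤ 31 / 50 → ‖P‖ ≤ 101 / 10 → ‖O‖ ≤ 101 / 10 → ∀ q, ‖Ψ q m A B N M S R G P O‖ ≤ d q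

section

variable {X : Type*} [MeasurableSpace X] {ν : Measure X} {D : X → ℝ} {E : X → ℂ}

theorem nm {m : M9} {A B R : ℂ} (h0 : ‖m 0‖ ≤ 1 / 4) (h1 : ‖m 1‖ ≤ 31 / 50) (hA : ‖A‖ ≤ 8 / 5)
    (hB : ‖B‖ ≤ 8 / 5) (hR : ‖R‖ ≤ 1) : ‖n9 m A B R‖ ≤ 117 / 25 ∧ ‖m9 m A B R‖ ≤ 117 / 25 := by
  have n0 := norm_nonneg (m 0)
  have n1 := norm_nonneg (m 1)
  have key : ∀ P S : ℂ, ‖P‖ ≤ 8 / 5 → ‖S‖ ≤ 8 / 5 →
      ‖R + 5 / 2 * conj P * m 1 - 3 / 2 * (S - conj P) * m 0‖ ≤ 117 / 25 := by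
    intro P S hP hS
    have t1 : ‖5 / 2 * conj P * m 1‖ ≤ 5 / 2 * (8 / 5) * (31 / 50) := by
      rw [norm_mul, norm_mul, Complex.norm_conj]
      have : ‖(5 / 2 : ℂ)‖ = 5 / 2 := by norm_num
      rw [this]
      gcongr
    have t2 : ‖3 / 2 * (S - conj P) * m 0‖ ≤ 3 / 2 * (16 / 5) * (1 / 4) := by
      rw [norm_mul, norm_mul]
      have : ‖(3 / 2 : ℂ)‖ = 3 / 2 := by norm_num
      rw [this]
      have : ‖S - conj P‖ ≤ 16 / 5 := (norm_sub_le _ _).trans (by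
        rw [Complex.norm_conj]
        linarith)
      gcongr
    calc _ ≤ ‖R + 5 / 2 * conj P * m 1‖ + ‖3 / 2 * (S - conj P) * m 0‖ := norm_sub_le _ _
      _ ≤ (‖R‖ + ‖5 / 2 * conj P * m 1‖) + ‖3 / 2 * (S - conj P) * m 0‖ := by
        gcongr
        exact norm_add_le _ _
      _ ≤ 117 / 25 := by linarith
  exact ⟨key B A hB hA, key A B hA hB⟩

theorem sr {m : M9} {A B R : ℂ} (h0 : ‖m 0‖ ≤ 1 / 4) (h4 : ‖m 4‖ ≤ (31 / 50) ^ 2) (h5 : ‖m 5‖ ≤ (31 / 50) ^ 2)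
    (hA : ‖A‖ ≤ 8 / 5) (hB : ‖B‖ ≤ 8 / 5) (hR : ‖R‖ ≤ 31 / 50) : ‖s9 m A B R‖ ≤ 3 ∧ ‖r9 m A B R‖ ≤ 3 := by
  have n0 := norm_nonneg (m 0)
  have key : ∀ P S : ℂ, ‖P‖ ≤ 8 / 5 → ‖S‖ ≤ 8 / 5 →
      ‖R + conj P * (m 5 - m 0) - 1 / 2 * (S - conj P) * m 4‖ ≤ 3 := by
    intro P S hP hS
    have t1 : ‖conj P * (m 5 - m 0)‖ ≤ 8 / 5 * ((31 / 50) ^ 2 + 1 / 4) := by
      rw [norm_mul, Complex.norm_conj]
      have : ‖m 5 - m 0‖ ≤ (31 / 50) ^ 2 + 1 / 4 := (norm_sub_le _ _).trans (add_le_add h5 h0)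
      gcongr
    have t2 : ‖1 / 2 * (S - conj P) * m 4‖ ≤ 1 / 2 * (16 / 5) * (31 / 50) ^ 2 := by
      rw [norm_mul, norm_mul]
      have : ‖(1 / 2 : ℂ)‖ = 1 / 2 := by norm_num
      rw [this]
      have : ‖S - conj P‖ ≤ 16 / 5 := (norm_sub_le _ _).trans (by
        rw [Complex.norm_conj]
        linarith)
      gcongr
    calc _ ≤ ‖R + conj P * (m 5 - m 0)‖ + ‖1 / 2 * (S - conj P) * m 4‖ := norm_sub_le _ _
      _ ≤ (‖R‖ + ‖conj P * (m 5 - m 0)‖) + ‖1 / 2 * (S - conj P) * m 4‖ := by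
        gcongr
        exact norm_add_le _ _
      _ ≤ 3 := by
        have e1 : (8 : ℝ) / 5 * ((31 / 50) ^ 2 + 1 / 4) + 1 / 2 * (16 / 5) * (31 / 50) ^ 2 + 31 / 50 ≤ 3 := by
          norm_num
        linarith
  exact ⟨key B A hB hA, key A B hA hB⟩

/-- **perturbation of the coefficients for the class `CH`** -/
theorem NC_near (H : Sml Ψ ν D E) {v v' : V26} {u u' : Q → ℝ} {μ T : ℝ} (hμ : 0 ≤ μ) {d : Q → ℝ}
    (hΨ : PsiLe Ψ d) (h : BTG.NC (CH Ψ) ν D E v u μ T) {δ U η : ℝ} (hδ : ∑ q, |u' q - u q| * d q ≤ δ)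
    (hU : ∑ q, |u q| * d q ≤ U) (hη : ∑ i, |v' i - v i| * cH i + 2 * μ * (δ * (2 * U + δ)) ≤ η) :
    BTG.NC (CH Ψ) ν D E v' u' μ (T + η) := by
  refine BTG.NC.near H.toSta hμ h (fun K hK hK1 A B hA hB => ?_) hη
  have := H.pr
  have hσ : ‖(CH Ψ).σ (mo (CH Ψ) ν D E)‖ ≤ 3 / 8 := by
    show ‖3 / 2 * mo (CH Ψ) ν D E 0‖ ≤ 3 / 8
    rw [norm_mul]
    have h3 := H.h3
    have : ‖(3 / 2 : ℂ)‖ = 3 / 2 := by norm_num
    rw [this]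
    linarith
  obtain ⟨a, b⟩ := AB_le H.hE hK1 hσ hA hB
  have hx : ∀ t, ‖(D t : ℂ)‖ ≤ 31 / 50 := fun t => by
    rw [Complex.norm_real]
    exact H.hx t
  have hk : ∀ (φ : X → ℂ) (c : ℝ), 0 ≤ c → (∀ t, ‖φ t‖ ≤ c) → ‖∫ t, φ t * K t ∂ν‖ ≤ c ∧
      ‖∫ t, φ t * conj (K t) ∂ν‖ ≤ c := by
    intro φ c hc hφ
    refine ⟨nI fun t => ?_, nI fun t => ?_⟩
    · rw [norm_mul]
      calc ‖φ t‖ * ‖K t‖ ≤ c * 1 := mul_le_mul (hφ t) (hK1 t) (norm_nonneg _) hc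
        _ = c := mul_one c
    · rw [norm_mul, Complex.norm_conj]
      calc ‖φ t‖ * ‖K t‖ ≤ c * 1 := mul_le_mul (hφ t) (hK1 t) (norm_nonneg _) hc
        _ = c := mul_one c
  have k3 := hk (fun t => E t ^ 3) 1 zero_le_one fun t => by rw [norm_pow, H.hE, one_pow]
  have k2 := hk (fun t => (D t : ℂ) * E t ^ 2) (31 / 50) (by norm_num) fun t => by
    rw [norm_mul, norm_pow, H.hE, one_pow, mul_one]
    exact hx t
  have k0 := hk (fun t => (D t : ℂ)) (31 / 50) (by norm_num) hx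
  refine ⟨fun i => H.ph_le hK1 a b i, dev_near (fun q => ?_) hδ hU⟩
  have k5 := hk (fun t => E t ^ 5) 1 zero_le_one fun t => by rw [norm_pow, H.hE, one_pow]
  exact hΨ _ A B _ _ _ _ _ _ _ H.h3 H.m1 H.m2 H.m3 H.m4 H.m5 a b (nm H.h3 H.m1 a b k3.2).1
    (nm H.h3 H.m1 a b k3.1).2 (sr H.h3 H.m4 H.m5 a b k2.2).1 (sr H.h3 H.m4 H.m5 a b k2.1).2 k0.1
    (nm5 H.h3 H.m1 H.m2 a b k5.2).1 (nm5 H.h3 H.m1 H.m2 a b k5.1).2 q

end

/-- **a latitude cell with approximate control points** -/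
theorem cellH {f : ℝ → ℝ} (hf : Ef f) (h0 : 0 ≤ X1 f) (h2 : X2 f = 0) {μ T : ℝ} (hμ : 0 ≤ μ) {s' : ℝ} (hs' : X1 f ≤ s')
    (h1 : s' ≤ 1) {P : (ℝ → ℝ) → Prop} (hP : P (Xa (X1 f) f)) {κ : Type*} {S : Finset κ} {c : κ → ℝ}
    {v : κ → V26} {u : κ → Q → ℝ} (hc : ∀ j ∈ S, 0 ≤ c j) (hc1 : ∑ j ∈ S, c j = 1)
    (H : ∀ j ∈ S, ∀ X, St s' X → (∀ a, |X a| ≤ 31 / 50 * s') → P X → BTG.RW (CH Ψ) va X e1 (v j) (u j) μ T)
    {v0 : V26} {u0 : Q → ℝ} {d : Q → ℝ} (hΨ : PsiLe Ψ d) {δ U η : ℝ}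
    (hδ : ∑ q, |u0 q - (∑ j ∈ S, c j • u j) q| * d q ≤ δ) (hU : ∑ q, |(∑ j ∈ S, c j • u j) q| * d q ≤ U)
    (hη : ∑ i, |v0 i - (∑ j ∈ S, c j • v j) i| * cH i + 2 * μ * (δ * (2 * U + δ)) ≤ η) :
    BTG.NC (CH Ψ) (nf f) (xT f) (ef f) v0 u0 μ (T + η) :=
  NC_near (sml hf h0 h2) hμ hΨ (BTG.cell hf h0 h2 hμ hs' h1 hP hc hc1 rfl rfl H) hδ hU hη


/-- **a latitude cell with approximate control points, vertex version** -/
theorem cellHV {Q : Type} [Fintype Q] {Ψ : PsiH Q} {f : ℝ → ℝ} (hf : Ef f) (h0 : 0 ≤ X1 f) (h2 : X2 f = 0)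
    {μ T : ℝ} (hμ : 0 ≤ μ) {s' : ℝ} (hs' : X1 f ≤ s')
    (h1 : s' ≤ 1) {P : (ℝ → ℝ) → Prop} (hP : P (Xa (X1 f) f)) {κ : Type*} {S : Finset κ} {c : κ → ℝ}
    {v : κ → V26} {u : κ → Q → ℝ} (hc : ∀ j ∈ S, 0 ≤ c j) (hc1 : ∑ j ∈ S, c j = 1)
    (H : ∀ j ∈ S, ∀ X, St s' X → (∀ a, |X a| ≤ 31 / 50 * s') → P X → BTG.RWV (CH Ψ) va X e1 (v j) (u j) μ T)
    {v0 : V26} {u0 : Q → ℝ} {d : Q → ℝ} (hΨ : PsiLe Ψ d) {δ U η : ℝ}
    (hδ : ∑ q, |u0 q - (∑ j ∈ S, c j • u j) q| * d q ≤ δ) (hU : ∑ q, |(∑ j ∈ S, c j • u j) q| * d q ≤ U)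
    (hη : ∑ i, |v0 i - (∑ j ∈ S, c j • v j) i| * cH i + 2 * μ * (δ * (2 * U + δ)) ≤ η) :
    BTG.NC (CH Ψ) (nf f) (xT f) (ef f) v0 u0 μ (T + η) :=
  NC_near (sml hf h0 h2) hμ hΨ (BTG.cellV hf h0 h2 hμ hs' h1 hP hc hc1 rfl rfl H) hδ hU hη

/-- a latitude cell, the certificates at the control points given as `NC` for the states of the class -/
theorem cellHN {Q : Type} [Fintype Q] {Ψ : PsiH Q} {f : ℝ → ℝ} (hf : Ef f) (h0 : 0 ≤ X1 f) (h2 : X2 f = 0)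
    {μ T : ℝ} (hμ : 0 ≤ μ) {κ : Type*} {S : Finset κ} {c : κ → ℝ}
    {v : κ → V26} {u : κ → Q → ℝ} (hc : ∀ j ∈ S, 0 ≤ c j) (hc1 : ∑ j ∈ S, c j = 1)
    (H : ∀ j ∈ S, BTG.NC (CH Ψ) (nf f) (xT f) (ef f) (v j) (u j) μ T)
    {v0 : V26} {u0 : Q → ℝ} {d : Q → ℝ} (hΨ : PsiLe Ψ d) {δ U η : ℝ}
    (hδ : ∑ q, |u0 q - (∑ j ∈ S, c j • u j) q| * d q ≤ δ) (hU : ∑ q, |(∑ j ∈ S, c j • u j) q| * d q ≤ U)
    (hη : ∑ i, |v0 i - (∑ j ∈ S, c j • v j) i| * cH i + 2 * μ * (δ * (2 * U + δ)) ≤ η) :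
    BTG.NC (CH Ψ) (nf f) (xT f) (ef f) v0 u0 μ (T + η) :=
  NC_near (sml hf h0 h2) hμ hΨ (BTG.NC.comb (BTG.sta hf h0 h2) hc hc1 hμ H) hδ hU hη


end Pool.Agent.FPX.BU
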