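import Mathlib
import Pool.Agent.FPX.BU2
import Pool.Agent.FPX.BTL
import Pool.Agent.FPX.BTM
import Pool.Agent.FPX.OMH

/-
BU3 (helper15): the certificates `CertAtH`, `CertAt9` (OMH, OMG) at a state with `ζ = s > 0` from the certificate of the
class `CH`; the list `Psi12` of the terms of the deviation of the start map `xi12`.
-/

open MeasureTheory Set Filter Topology Complex
open scoped ComplexConjugate

noncomputable section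

set_option linter.unusedSectionVars false

namespace Pool.Agent.FPX.BU

open Pool.Agent.FPX.BTG (Sta Cls mo aK bK dev)
open Pool.Agent.FPX.CRD (Bm)
open Pool.Agent.FPX.BTN (va e1 nf ef bw)
open Pool.Agent.FPX.UMP (Ef)
open Pool.Agent.FPX.UMQ
open Pool.Agent.FPX.F54 (X1 X2 X_lt X_G1 X_G2 sF)
open Pool.Agent.FPX.S54 (de YY)
open Pool.Agent.FPX.SYS (CE)
open Pool.Agent.FPX.OMB (vm vm_int vm_prob)
open Pool.Agent.FPX.OMS (rF cF)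
open Pool.Agent.FPX.CERQ (xT)
open Pool.Agent.FPX.OM7 (Cp Cm Sp Sm W7 mk7 bv)
open Pool.Agent.FPX.OMG (Cof9 mk9 W9 WP mkP CertAt9 Cert9 DevK D7 E3 CofH MH WN mkN mkH WH CertAtH CertH Cp5 Cm5 bv5)
open Pool.Agent.FPX.OMR (Re xR eR vR r3 r5 r7 WPR mR mR9)
open Pool.Agent.FPX.BTI (vec9 om9 ke9 bb9 C9 V9 Psi9)

/-! ### lifting of the class `C9` -/

/-- the terms of a class `C9` as terms of a class `CH` -/
def liH {Q : Type} (Ψ : Psi9 Q) : PsiH Q := fun q m A B N M S R G _ _ => Ψ q m A B N M S R G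

theorem PsiLe.li {Q : Type} {Ψ : Psi9 Q} {d : Q → ℝ} (h : BTI.PsiLe Ψ d) : PsiLe (liH Ψ) d :=
  fun m A B N M S R G _ _ h0 _ _ h3 h4 h5 hA hB hN hM hS hR hG _ _ q =>
    h m A B N M S R G h0 h3 h4 h5 hA hB hN hM hS hR hG q

/-! ### the vector -/

/-- the coefficient vector of `(W, F, μ)` at `s = |ζ|`, `c = √(1 - s²)` -/
def vecH (W : ℝ → ℝ) (F : CofH) (μ s c : ℝ) : V26 :=
  ![vec9 W F.F μ s c 0, vec9 W F.F μ s c 1, vec9 W F.F μ s c 2, vec9 W F.F μ s c 3, vec9 W F.F μ s c 4,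
    vec9 W F.F μ s c 5, vec9 W F.F μ s c 6, vec9 W F.F μ s c 7, vec9 W F.F μ s c 8, vec9 W F.F μ s c 9,
    vec9 W F.F μ s c 10, vec9 W F.F μ s c 11, vec9 W F.F μ s c 12, vec9 W F.F μ s c 13, vec9 W F.F μ s c 14,
    vec9 W F.F μ s c 15, vec9 W F.F μ s c 16, vec9 W F.F μ s c 17, vec9 W F.F μ s c 18, vec9 W F.F μ s c 19,
    vec9 W F.F μ s c 20,
    4 * c * F.g5 (s ^ 2), 8 * c ^ 3 / s ^ 2 * (s ^ 2 * deriv F.g5 (s ^ 2) + F.g5 (s ^ 2)), F.b5 (s ^ 2),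
    20 * c ^ 2 / s ^ 2 * F.b5 (s ^ 2), 4 * c ^ 2 * deriv F.b5 (s ^ 2)]

/-- the vector of the class `C9` as a vector of the class `CH` -/
def emb (v : V9) : V26 :=
  ![v 0, v 1, v 2, v 3, v 4, v 5, v 6, v 7, v 8, v 9, v 10, v 11, v 12, v 13, v 14, v 15, v 16, v 17, v 18, v 19,
    v 20, 0, 0, 0, 0, 0]

theorem vecH_zero (W : ℝ → ℝ) (F : Cof9) (μ s c : ℝ) :
    vecH W ⟨F, fun _ => 0, fun _ => 0⟩ μ s c = emb (vec9 W F μ s c) := by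
  unfold vecH emb
  simp

section

variable {Q : Type} [Fintype Q] {Ψ : PsiH Q} {f : ℝ → ℝ}

theorem mo_li {X : Type*} [MeasurableSpace X] (ν : Measure X) (D : X → ℝ) (E : X → ℂ) {Q' : Type}
    (Ψ' : Psi9 Q') : mo (CH Ψ) ν D E = mo (C9 Ψ') ν D E := rfl

/-- the zero list -/
def Ψ0 : Psi9 (Fin 0) := fun q => q.elim0

theorem e3 (H : Re f) : E3 f = 3 / 2 * r3 f := by
  have hc := H.cC
  unfold E3
  rw [H.zz]
  field_simp
  linear_combination (2 : ℂ) * H.c3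

theorem re_of (hf : Ef f) (hs : 0 < X1 f) (h2 : X2 f = 0) : Re f := ⟨hf, hs.le, h2⟩

theorem s5 (hf : Ef f) (hs : 0 < X1 f) (h2 : X2 f = 0) :
    normSq (CE 5 f) = 4 * cF f ^ 2 / X1 f ^ 2 * ‖mo (CH Ψ) (nf f) (xT f) (ef f) 1‖ ^ 2 := by
  have H := re_of hf hs h2
  have h := H.c5s
  rw [BTI.r5_eq (Ψ := Ψ0) hf hs.le h2, Complex.normSq_eq_norm_sq (mo _ _ _ _ _)] at h
  have hs2 : X1 f ^ 2 ≠ 0 := by positivity
  rw [mo_li (Ψ := Ψ) _ _ _ Ψ0, div_mul_eq_mul_div, eq_div_iff hs2]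
  linarith

theorem WN_eq (F : CofH) (W : ℝ → ℝ) (μ : ℝ) (hf : Ef f) (hs : 0 < X1 f) (h2 : X2 f = 0) :
    WN F f = vecH W F μ (X1 f) (cF f) 21 * (1 / 2 * (7 * (conj (mo (CH Ψ) (nf f) (xT f) (ef f) 1)
        * mo (CH Ψ) (nf f) (xT f) (ef f) 2).re
        - 3 * (conj (mo (CH Ψ) (nf f) (xT f) (ef f) 0) * mo (CH Ψ) (nf f) (xT f) (ef f) 1).re))
      + vecH W F μ (X1 f) (cF f) 22 * ‖mo (CH Ψ) (nf f) (xT f) (ef f) 1‖ ^ 2 := by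
  have H := re_of hf hs h2
  have h5 := congrArg conj H.c5
  simp only [map_mul, Complex.conj_ofReal, map_ofNat] at h5
  have a1 : (conj (YY (X1 f) (X2 f)) * (conj (CE 5 f) * D7 f)).re = 7 * cF f * (conj (r5 f) * r7 f).re := by
    have e : (X1 f : ℂ) * (conj (CE 5 f) * D7 f) = ((7 * cF f : ℝ) : ℂ) * (conj (r5 f) * r7 f) := by
      rw [H.d7]
      push_cast
      linear_combination (7 / 2 * r7 f) * h5
    rw [H.zz, Complex.conj_ofReal, e, Complex.re_ofReal_mul]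
  have a2 : (YY (X1 f) (X2 f) * (conj (CE 5 f) * E3 f)).re = 3 * cF f * (conj (r3 f) * r5 f).re := by
    have e : (X1 f : ℂ) * (conj (CE 5 f) * E3 f) = ((3 * cF f : ℝ) : ℂ) * (conj (r5 f) * r3 f) := by
      rw [e3 H]
      push_cast
      linear_combination (3 / 2 * r3 f) * h5
    have e' : (conj (r5 f) * r3 f).re = (conj (r3 f) * r5 f).re := by
      simp only [Complex.mul_re, Complex.conj_re, Complex.conj_im]
      ring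
    rw [H.zz, e, Complex.re_ofReal_mul, e']
  unfold WN
  rw [a1, a2, s5 (Ψ := Ψ) hf hs h2, BTI.r3_eq (Ψ := Ψ0) hf hs.le h2, BTI.r5_eq (Ψ := Ψ0) hf hs.le h2,
    BTI.r7_eq (Ψ := Ψ0) hf hs.le h2, mo_li (Ψ := Ψ) _ _ _ Ψ0, BTN.rF_eq h2]
  simp only [vecH, Matrix.cons_val]
  have hs2 : X1 f ^ 2 ≠ 0 := by positivity
  field_simp
  ring

/-- the first 21 components -/
theorem vecH_9 (W : ℝ → ℝ) (F : CofH) (μ s c : ℝ) (m : M9) :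
    omH (vecH W F μ s c) m = om9 (vec9 W F.F μ s c) m
      + vecH W F μ s c 21 * (1 / 2 * (7 * (conj (m 1) * m 2).re - 3 * (conj (m 0) * m 1).re))
      + vecH W F μ s c 22 * ‖m 1‖ ^ 2 := by
  unfold omH om9
  simp only [vecH, Matrix.cons_val_zero, Matrix.cons_val_one, Matrix.cons_val]

/-- the coefficient of the Jacobian -/
theorem WH_eq (F : CofH) (W : ℝ → ℝ) (μ : ℝ) (hf : Ef f) (hs : 0 < X1 f) (h2 : X2 f = 0) :
    WH W F f = omH (vecH W F μ (X1 f) (cF f)) (mo (CH Ψ) (nf f) (xT f) (ef f)) := by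
  unfold WH
  rw [vecH_9, WN_eq (Ψ := Ψ) F W μ hf hs h2, BTI.W9_eq (Ψ := Ψ0) W F.F μ hf hs h2, mo_li (Ψ := Ψ) _ _ _ Ψ0]
  ring

/-- the kernel -/
theorem mkH_eq (F : CofH) (W : ℝ → ℝ) (μ : ℝ) (hf : Ef f) (hs : 0 < X1 f) (h2 : X2 f = 0) (t : ℝ) :
    mkH F f t = keH (vecH W F μ (X1 f) (cF f)) (mo (CH Ψ) (nf f) (xT f) (ef f)) (ef f t) (xT f t) := by
  have H := re_of hf hs h2
  have h5 : ((X1 f : ℝ) : ℂ) * (((conj (CE 5 f) * eR f t ^ 5).re : ℝ) : ℂ) =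
      (((2 * cF f) * (conj (r5 f) * eR f t ^ 5).re : ℝ) : ℂ) := by
    have h := congrArg (fun z => (conj z * eR f t ^ 5).re) H.c5
    have e : (2 : ℂ) * (cF f : ℂ) = ((2 * cF f : ℝ) : ℂ) := by push_cast; rfl
    simp only [e, map_mul, Complex.conj_ofReal, mul_assoc (((X1 f : ℝ) : ℂ)),
      mul_assoc (((2 * cF f : ℝ) : ℂ)), Complex.re_ofReal_mul] at h
    rw [← Complex.ofReal_mul, h]
  unfold mkH mkN
  rw [BTI.mk9_eq (Ψ := Ψ0) W F.F μ hf hs h2, H.zz, H.ee, Complex.conj_ofReal, mul_assoc, h5,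
    BTI.r5_eq (Ψ := Ψ0) hf hs.le h2, BTI.eR_eq h2, BTN.rF_eq h2, mo_li (Ψ := Ψ) _ _ _ Ψ0]
  unfold ke9 keH
  simp only [vecH, Matrix.cons_val_zero, Matrix.cons_val_one, Matrix.cons_val]
  push_cast
  ring

theorem n9_eq (A B : ℂ) (K : ℝ → ℂ) : n9 (mo (CH Ψ) (nf f) (xT f) (ef f)) A B
    (bK (CH Ψ) (nf f) (xT f) (ef f) K 0) =
      BTN.cp (nf f) (xT f) (ef f) A B (∫ t, C54.ep (X1 f) (X2 f) t ^ 3 * conj (K t) ∂(vm (X1 f) (X2 f))) := rfl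

theorem m9_eq (A B : ℂ) (K : ℝ → ℂ) : m9 (mo (CH Ψ) (nf f) (xT f) (ef f)) A B
    (aK (CH Ψ) (nf f) (xT f) (ef f) K 0) =
      BTN.cm (nf f) (xT f) (ef f) A B (∫ t, C54.ep (X1 f) (X2 f) t ^ 3 * K t ∂(vm (X1 f) (X2 f))) := rfl

/-- the terms with `∇C₃` -/
theorem bbH_eq (F : CofH) (W : ℝ → ℝ) (μ : ℝ) (hf : Ef f) (hs : 0 < X1 f) (h2 : X2 f = 0) (A B N M : ℂ) :
    bv F.F.C f A B N M = bbH (vecH W F μ (X1 f) (cF f)) (mo (CH Ψ) (nf f) (xT f) (ef f)) A B N M := by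
  rw [BTI.bb9_eq (Ψ := Ψ0) W F.F μ hf hs h2, mo_li (Ψ := Ψ) _ _ _ Ψ0]
  unfold bb9 bbH
  simp only [vecH, Matrix.cons_val]

/-- the parts of `∇C₅` -/
theorem Cp5_eq (hf : Ef f) (hs : 0 < X1 f) (h2 : X2 f = 0) (A B R : ℂ) :
    Cp5 f A B R = n5 (mo (CH Ψ) (nf f) (xT f) (ef f)) A B R := by
  have H := re_of hf hs h2
  have hc := H.cC
  unfold Cp5 n5
  rw [H.d7, e3 H, H.zz, Complex.conj_ofReal, mo_li (Ψ := Ψ) _ _ _ Ψ0, ← BTI.r3_eq (Ψ := Ψ0) hf hs.le h2,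
    ← BTI.r5_eq (Ψ := Ψ0) hf hs.le h2, ← BTI.r7_eq (Ψ := Ψ0) hf hs.le h2]
  field_simp
  linear_combination (-10 * (A - conj B)) * H.c5

theorem Cm5_eq (hf : Ef f) (hs : 0 < X1 f) (h2 : X2 f = 0) (A B R : ℂ) :
    Cm5 f A B R = m5 (mo (CH Ψ) (nf f) (xT f) (ef f)) A B R := by
  have H := re_of hf hs h2
  have hc := H.cC
  unfold Cm5 m5
  rw [H.d7, e3 H, H.zz, Complex.conj_ofReal, mo_li (Ψ := Ψ) _ _ _ Ψ0, ← BTI.r3_eq (Ψ := Ψ0) hf hs.le h2,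
    ← BTI.r5_eq (Ψ := Ψ0) hf hs.le h2, ← BTI.r7_eq (Ψ := Ψ0) hf hs.le h2]
  field_simp
  linear_combination (-10 * (B - conj A)) * H.c5

/-- the terms with `∇C₅` -/
theorem b5H_eq (F : CofH) (W : ℝ → ℝ) (μ : ℝ) (hf : Ef f) (hs : 0 < X1 f) (h2 : X2 f = 0) (A B N M : ℂ) :
    bv5 F.b5 f A B N M = b5H (vecH W F μ (X1 f) (cF f)) (mo (CH Ψ) (nf f) (xT f) (ef f)) A B N M := by
  have H := re_of hf hs h2
  have h := congrArg conj H.c5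
  simp only [map_mul, Complex.conj_ofReal, map_ofNat] at h
  have e : (conj (YY (X1 f) (X2 f)) * A + YY (X1 f) (X2 f) * conj B)
      * (CE 5 f * conj N - conj (CE 5 f) * M) =
      ((2 * cF f : ℝ) : ℂ) * ((A + conj B) * (r5 f * conj N - conj (r5 f) * M)) := by
    rw [H.zz, Complex.conj_ofReal]
    push_cast
    linear_combination ((A + conj B) * conj N) * H.c5 - ((A + conj B) * M) * h
  unfold bv5 b5H
  rw [e, Complex.re_ofReal_mul, s5 (Ψ := Ψ) hf hs h2, BTI.r5_eq (Ψ := Ψ0) hf hs.le h2,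
    mo_li (Ψ := Ψ) _ _ _ Ψ0, BTN.rF_eq h2]
  simp only [vecH, Matrix.cons_val]
  have hs2 : X1 f ^ 2 ≠ 0 := by positivity
  field_simp
  ring

theorem vH_14 (W : ℝ → ℝ) (F : CofH) (μ s c : ℝ) : vecH W F μ s c 14 = μ := by
  simp only [vecH, Matrix.cons_val, BTI.v9_14]

/-- the left side of the certificate -/
theorem lhH_eq (W : ℝ → ℝ) (F : CofH) (u : Q → ℝ) (μ : ℝ) (hf : Ef f) (hs : 0 < X1 f) (h2 : X2 f = 0)
    (K : ℝ → ℂ) (A B : ℂ) :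
    BTG.lh (CH Ψ) (nf f) (xT f) (ef f) (vecH W F 0 (X1 f) (cF f)) u μ K A B =
      WH W F f * (‖A‖ ^ 2 - ‖B‖ ^ 2)
      + 2 * (A * ∫ t, mkH F f t * K t ∂(vm (X1 f) (X2 f))).re
      - 2 * (B * ∫ t, mkH F f t * conj (K t) ∂(vm (X1 f) (X2 f))).re
      + bv F.F.C f A B (Cp f A B (∫ t, C54.ep (X1 f) (X2 f) t ^ 3 * conj (K t) ∂(vm (X1 f) (X2 f))))
          (Cm f A B (∫ t, C54.ep (X1 f) (X2 f) t ^ 3 * K t ∂(vm (X1 f) (X2 f))))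
      + bv5 F.b5 f A B (Cp5 f A B (∫ t, C54.ep (X1 f) (X2 f) t ^ 5 * conj (K t) ∂(vm (X1 f) (X2 f))))
          (Cm5 f A B (∫ t, C54.ep (X1 f) (X2 f) t ^ 5 * K t ∂(vm (X1 f) (X2 f))))
      + 2 * μ * ‖dev (CH Ψ) u (mo (CH Ψ) (nf f) (xT f) (ef f)) A B (aK (CH Ψ) (nf f) (xT f) (ef f) K)
        (bK (CH Ψ) (nf f) (xT f) (ef f) K)‖ ^ 2 := by
  have e1 : ∀ t, BTG.ker (CH Ψ) (vecH W F 0 (X1 f) (cF f)) (mo (CH Ψ) (nf f) (xT f) (ef f)) (ef f t) (xT f t) =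
      mkH F f t := fun t => by
    rw [kerH, ← mkH_eq F W 0 hf hs h2]
  have e5 : n5 (mo (CH Ψ) (nf f) (xT f) (ef f)) A B (bK (CH Ψ) (nf f) (xT f) (ef f) K 3) =
      Cp5 f A B (∫ t, C54.ep (X1 f) (X2 f) t ^ 5 * conj (K t) ∂(vm (X1 f) (X2 f))) := by
    rw [Cp5_eq (Ψ := Ψ) hf hs h2]
    rfl
  have e5' : m5 (mo (CH Ψ) (nf f) (xT f) (ef f)) A B (aK (CH Ψ) (nf f) (xT f) (ef f) K 3) =
      Cm5 f A B (∫ t, C54.ep (X1 f) (X2 f) t ^ 5 * K t ∂(vm (X1 f) (X2 f))) := by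
    rw [Cm5_eq (Ψ := Ψ) hf hs h2]
    rfl
  unfold BTG.lh
  rw [thtH, ← WH_eq (Ψ := Ψ) F W 0 hf hs h2, ← bbH_eq (Ψ := Ψ) F W 0 hf hs h2, ← b5H_eq (Ψ := Ψ) F W 0 hf hs h2,
    vH_14, n9_eq, m9_eq, e5, e5', BTN.Cp_eq hf hs h2, BTN.Cm_eq hf hs h2]
  simp only [e1]
  ring

/-- **the certificate `CertAtH` from the certificate of the class `CH`** -/
theorem certAtH_of_NC {Bk : DevK} {W : ℝ → ℝ} {F : CofH} {u : Q → ℝ} {μ T : ℝ} (hμ : 0 ≤ μ) (hf : Ef f)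
    (hs : 0 < X1 f) (h2 : X2 f = 0)
    (HB : ∀ K : ℝ → ℂ, Measurable K → (∀ t, ‖K t‖ ≤ 1) → ∀ A B : ℂ, ‖Bk f K A B‖ ≤
      ‖dev (CH Ψ) u (mo (CH Ψ) (nf f) (xT f) (ef f)) A B (aK (CH Ψ) (nf f) (xT f) (ef f) K)
        (bK (CH Ψ) (nf f) (xT f) (ef f) K)‖)
    (H : BTG.NC (CH Ψ) (nf f) (xT f) (ef f) (vecH W F 0 (X1 f) (cF f)) u μ T) : CertAtH Bk W F μ T f := by
  intro K hK hK1 A B hA hB
  rw [BTN.sF_eq hf hs h2] at hA hB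
  have h := H K hK hK1 A B hA hB
  rw [lhH_eq W F u μ hf hs h2 K A B] at h
  have h3 := mul_le_mul_of_nonneg_left (pow_le_pow_left₀ (norm_nonneg _) (HB K hK hK1 A B) 2)
    (show (0 : ℝ) ≤ 2 * μ by linarith)
  linarith

/-- the certificate of the class OMG from the one of the class OMH -/
theorem certAt9_of_H {Bk : DevK} {W : ℝ → ℝ} {F : Cof9} {μ T : ℝ}
    (H : CertAtH Bk W ⟨F, fun _ => 0, fun _ => 0⟩ μ T f) : CertAt9 Bk W F μ T f := by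
  intro K hK hK1 A B hA hB
  have h := H K hK hK1 A B hA hB
  have e1 : mkH ⟨F, fun _ => 0, fun _ => 0⟩ f = mk9 F f := by
    funext t
    unfold mkH mkN
    simp
  have e2 : WH W ⟨F, fun _ => 0, fun _ => 0⟩ f = W9 W F f := by
    unfold WH WN
    simp
  have e3 : ∀ N M : ℂ, bv5 (fun _ => 0) f A B N M = 0 := fun N M => by
    unfold bv5
    simp
  rw [e1, e2, e3] at h
  linarith

/-- **the certificate `CertAt9` from the certificate of the class `CH`** -/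
theorem certAt9_of_NCH {Bk : DevK} {W : ℝ → ℝ} {F : Cof9} {u : Q → ℝ} {μ T : ℝ} (hμ : 0 ≤ μ) (hf : Ef f)
    (hs : 0 < X1 f) (h2 : X2 f = 0)
    (HB : ∀ K : ℝ → ℂ, Measurable K → (∀ t, ‖K t‖ ≤ 1) → ∀ A B : ℂ, ‖Bk f K A B‖ ≤
      ‖dev (CH Ψ) u (mo (CH Ψ) (nf f) (xT f) (ef f)) A B (aK (CH Ψ) (nf f) (xT f) (ef f) K)
        (bK (CH Ψ) (nf f) (xT f) (ef f) K)‖)
    (H : BTG.NC (CH Ψ) (nf f) (xT f) (ef f) (emb (vec9 W F 0 (X1 f) (cF f))) u μ T) : CertAt9 Bk W F μ T f := by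
  refine certAt9_of_H (certAtH_of_NC (Ψ := Ψ) (u := u) hμ hf hs h2 HB ?_)
  rw [vecH_zero]
  exact H

/-! ### deviations with the parts of `∇C₅` -/

/-- deviations which use the parts of `∇C₃`, `∇S₂`, `∇C₅`: functions of `f, A, B, N, M, S, R, G, N₅, M₅` -/
abbrev Dev5 := (ℝ → ℝ) → ℂ → ℂ → ℂ → ℂ → ℂ → ℂ → ℂ → ℂ → ℂ → ℂ

/-- the deviation as a function of the kernel -/
def devK5 (Bx : Dev5) : DevK := fun f K A B =>
  Bx f A B (Cp f A B (∫ t, C54.ep (X1 f) (X2 f) t ^ 3 * conj (K t) ∂(vm (X1 f) (X2 f))))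
    (Cm f A B (∫ t, C54.ep (X1 f) (X2 f) t ^ 3 * K t ∂(vm (X1 f) (X2 f))))
    (Sp f A B (∫ t, ((de (X1 f) (X2 f) f t : ℂ) * C54.ep (X1 f) (X2 f) t ^ 2) * conj (K t)
      ∂(vm (X1 f) (X2 f))))
    (Sm f A B (∫ t, ((de (X1 f) (X2 f) f t : ℂ) * C54.ep (X1 f) (X2 f) t ^ 2) * K t
      ∂(vm (X1 f) (X2 f))))
    (∫ t, (de (X1 f) (X2 f) f t : ℂ) * K t ∂(vm (X1 f) (X2 f)))
    (Cp5 f A B (∫ t, C54.ep (X1 f) (X2 f) t ^ 5 * conj (K t) ∂(vm (X1 f) (X2 f))))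
    (Cm5 f A B (∫ t, C54.ep (X1 f) (X2 f) t ^ 5 * K t ∂(vm (X1 f) (X2 f))))

/-- the deviation `Bx` of a start map in the real frame, bounded by `∑ u_q Ψ_q` -/
def DevLe5 (Bx : Dev5) (Ψ : PsiH Q) (u : Q → ℝ) (f : ℝ → ℝ) : Prop :=
  ∀ A B N M S R G P O : ℂ, ‖Bx f A B N M S R G P O‖ ≤ ‖devH Ψ u (mo (CH Ψ) (nf f) (xT f) (ef f)) A B N M
    (((X1 f / cF f : ℝ) : ℂ) * S) (((X1 f / cF f : ℝ) : ℂ) * R) (((X1 f / cF f : ℝ) : ℂ) * G) P O‖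

theorem devK5_le {Bx : Dev5} {u : Q → ℝ} (hf : Ef f) (hs : 0 < X1 f) (h2 : X2 f = 0)
    (HB : DevLe5 Bx Ψ u f) (K : ℝ → ℂ) (A B : ℂ) : ‖devK5 Bx f K A B‖ ≤
      ‖dev (CH Ψ) u (mo (CH Ψ) (nf f) (xT f) (ef f)) A B (aK (CH Ψ) (nf f) (xT f) (ef f) K)
        (bK (CH Ψ) (nf f) (xT f) (ef f) K)‖ := by
  unfold devK5
  refine (HB _ _ _ _ _ _ _ _ _).trans (le_of_eq ?_)
  rw [BTN.Cp_eq hf hs h2, BTN.Cm_eq hf hs h2, BTN.t_Sp hf hs h2, BTN.t_Sm hf hs h2,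
    Cp5_eq (Ψ := Ψ) hf hs h2, Cm5_eq (Ψ := Ψ) hf hs h2]
  have e1 : ((X1 f / cF f : ℝ) : ℂ) * ∫ t, ((de (X1 f) (X2 f) f t : ℂ) * C54.ep (X1 f) (X2 f) t ^ 2)
      * conj (K t) ∂(vm (X1 f) (X2 f)) = bK (CH Ψ) (nf f) (xT f) (ef f) K 1 := by
    have := BTN.t_int hf hs h2 (fun t => ef f t ^ 2 * conj (K t))
    simp only [← mul_assoc] at this
    exact this
  have e2 : ((X1 f / cF f : ℝ) : ℂ) * ∫ t, ((de (X1 f) (X2 f) f t : ℂ) * C54.ep (X1 f) (X2 f) t ^ 2)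
      * K t ∂(vm (X1 f) (X2 f)) = aK (CH Ψ) (nf f) (xT f) (ef f) K 1 := by
    have := BTN.t_int hf hs h2 (fun t => ef f t ^ 2 * K t)
    simp only [← mul_assoc] at this
    exact this
  have e3 : ((X1 f / cF f : ℝ) : ℂ) * ∫ t, (de (X1 f) (X2 f) f t : ℂ) * K t ∂(vm (X1 f) (X2 f)) =
      aK (CH Ψ) (nf f) (xT f) (ef f) K 2 := BTN.t_int hf hs h2 K
  rw [e1, e2, e3]
  rfl

/-- **the certificate `CertAtH (devK5 Bx)` from the certificate of the class `CH`** -/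
theorem certAtHX_of_NC {Bx : Dev5} {W : ℝ → ℝ} {F : CofH} {u : Q → ℝ} {μ T : ℝ} (hμ : 0 ≤ μ) (hf : Ef f)
    (hs : 0 < X1 f) (h2 : X2 f = 0) (HB : DevLe5 Bx Ψ u f)
    (H : BTG.NC (CH Ψ) (nf f) (xT f) (ef f) (vecH W F 0 (X1 f) (cF f)) u μ T) :
    CertAtH (devK5 Bx) W F μ T f :=
  certAtH_of_NC hμ hf hs h2 (fun K _ _ A B => devK5_le hf hs h2 HB K A B) H

/-- **the certificate `CertAt9 (devK5 Bx)` from the certificate of the class `CH`** -/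
theorem certAt9X_of_NCH {Bx : Dev5} {W : ℝ → ℝ} {F : Cof9} {u : Q → ℝ} {μ T : ℝ} (hμ : 0 ≤ μ) (hf : Ef f)
    (hs : 0 < X1 f) (h2 : X2 f = 0) (HB : DevLe5 Bx Ψ u f)
    (H : BTG.NC (CH Ψ) (nf f) (xT f) (ef f) (emb (vec9 W F 0 (X1 f) (cF f))) u μ T) :
    CertAt9 (devK5 Bx) W F μ T f :=
  certAt9_of_NCH hμ hf hs h2 (fun K _ _ A B => devK5_le hf hs h2 HB K A B) H

end

/-! ### the terms of the deviation of `xi12` -/

/-- the terms of the deviation of the start map `xi12`: those of `xi8`, then `B · {r₅, conj r₅, r₃ conj r₅, conj r₃ r₅}`,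
`conj A ·` the same, `conj r₅ M, r₅ conj N, M₅, conj r₃ M₅, conj N₅, r₃ conj N₅` -/
def Psi12 : PsiH (Fin 42) :=
  ![liH BTI.Psi8 0, liH BTI.Psi8 1, liH BTI.Psi8 2, liH BTI.Psi8 3, liH BTI.Psi8 4, liH BTI.Psi8 5,
    liH BTI.Psi8 6, liH BTI.Psi8 7, liH BTI.Psi8 8, liH BTI.Psi8 9, liH BTI.Psi8 10, liH BTI.Psi8 11,
    liH BTI.Psi8 12, liH BTI.Psi8 13, liH BTI.Psi8 14, liH BTI.Psi8 15, liH BTI.Psi8 16, liH BTI.Psi8 17,
    liH BTI.Psi8 18, liH BTI.Psi8 19, liH BTI.Psi8 20, liH BTI.Psi8 21, liH BTI.Psi8 22, liH BTI.Psi8 23,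
    liH BTI.Psi8 24, liH BTI.Psi8 25, liH BTI.Psi8 26, liH BTI.Psi8 27,
    fun m _ B _ _ _ _ _ _ _ => B * m 1, fun m _ B _ _ _ _ _ _ _ => B * conj (m 1),
    fun m _ B _ _ _ _ _ _ _ => B * (m 0 * conj (m 1)), fun m _ B _ _ _ _ _ _ _ => B * (conj (m 0) * m 1),
    fun m A _ _ _ _ _ _ _ _ => conj A * m 1, fun m A _ _ _ _ _ _ _ _ => conj A * conj (m 1),
    fun m A _ _ _ _ _ _ _ _ => conj A * (m 0 * conj (m 1)),
    fun m A _ _ _ _ _ _ _ _ => conj A * (conj (m 0) * m 1),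
    fun m _ _ _ M _ _ _ _ _ => conj (m 1) * M, fun m _ _ N _ _ _ _ _ _ => m 1 * conj N,
    fun _ _ _ _ _ _ _ _ _ O => O, fun m _ _ _ _ _ _ _ _ O => conj (m 0) * O,
    fun _ _ _ _ _ _ _ _ P _ => conj P, fun m _ _ _ _ _ _ _ P _ => m 0 * conj P]

/-- their a priori bounds -/
def d12 : Fin 42 → ℝ :=
  ![8 / 5, 2 / 5, 2 / 5, 1 / 10, 1 / 10, 1 / 10, 5 / 8, 5 / 8, 5 / 8, 2 / 5, 2 / 5, 1 / 10, 1 / 10, 1 / 10,
    5 / 8, 5 / 8, 5 / 8, 5, 6 / 5, 6 / 5, 5, 6 / 5, 6 / 5, 3, 3, 1, 8 / 5, 8 / 5,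
    1, 1, 1 / 4, 1 / 4, 1, 1, 1 / 4, 1 / 4, 3, 3, 101 / 10, 101 / 40, 101 / 10, 101 / 40]

theorem psiLe12 : PsiLe Psi12 d12 := by
  intro m A B N M S R G P O h0 h1 h2 h3 h4 h5 hA hB hN hM hS hR hG hP hO q
  have n0 := norm_nonneg (m 0)
  have n1 := norm_nonneg (m 1)
  have H8 := BTI.psiLe8 m A B N M S R G h0 h3 h4 h5 hA hB hN hM hS hR hG
  have key : ∀ (Z y : ℂ) (a b c : ℝ), ‖Z‖ ≤ a → ‖y‖ ≤ b → 0 ≤ a → a * b ≤ c → ‖Z * y‖ ≤ c := by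
    intro Z y a b c hZ hy ha hc
    rw [norm_mul]
    exact (mul_le_mul hZ hy (norm_nonneg _) ha).trans hc
  have hA' : ‖conj A‖ ≤ 8 / 5 := by rwa [Complex.norm_conj]
  have hN' : ‖conj N‖ ≤ 117 / 25 := by rwa [Complex.norm_conj]
  have hP' : ‖conj P‖ ≤ 101 / 10 := by rwa [Complex.norm_conj]
  have c0 : ‖conj (m 0)‖ ≤ 1 / 4 := by rwa [Complex.norm_conj]
  have c1 : ‖conj (m 1)‖ ≤ 31 / 50 := by rwa [Complex.norm_conj]
  have e1 : ‖m 0 * conj (m 1)‖ ≤ 31 / 200 := key _ _ (1 / 4) (31 / 50) _ h0 c1 (by norm_num) (by norm_num)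
  have e2 : ‖conj (m 0) * m 1‖ ≤ 31 / 200 := key _ _ (1 / 4) (31 / 50) _ c0 h1 (by norm_num) (by norm_num)
  fin_cases q
  · exact H8 0
  · exact H8 1
  · exact H8 2
  · exact H8 3
  · exact H8 4
  · exact H8 5
  · exact H8 6
  · exact H8 7
  · exact H8 8
  · exact H8 9
  · exact H8 10
  · exact H8 11
  · exact H8 12
  · exact H8 13
  · exact H8 14
  · exact H8 15
  · exact H8 16
  · exact H8 17
  · exact H8 18
  · exact H8 19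
  · exact H8 20
  · exact H8 21
  · exact H8 22
  · exact H8 23
  · exact H8 24
  · exact H8 25
  · exact H8 26
  · exact H8 27
  · exact key B (m 1) (8 / 5) (31 / 50) _ hB h1 (by norm_num) (by norm_num [d12])
  · exact key B (conj (m 1)) (8 / 5) (31 / 50) _ hB c1 (by norm_num) (by norm_num [d12])
  · exact key B (m 0 * conj (m 1)) (8 / 5) (31 / 200) _ hB e1 (by norm_num) (by norm_num [d12])
  · exact key B (conj (m 0) * m 1) (8 / 5) (31 / 200) _ hB e2 (by norm_num) (by norm_num [d12])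
  · exact key (conj A) (m 1) (8 / 5) (31 / 50) _ hA' h1 (by norm_num) (by norm_num [d12])
  · exact key (conj A) (conj (m 1)) (8 / 5) (31 / 50) _ hA' c1 (by norm_num) (by norm_num [d12])
  · exact key (conj A) (m 0 * conj (m 1)) (8 / 5) (31 / 200) _ hA' e1 (by norm_num) (by norm_num [d12])
  · exact key (conj A) (conj (m 0) * m 1) (8 / 5) (31 / 200) _ hA' e2 (by norm_num) (by norm_num [d12])
  · exact key (conj (m 1)) M (31 / 50) (117 / 25) _ c1 hM (by norm_num) (by norm_num [d12])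
  · exact key (m 1) (conj N) (31 / 50) (117 / 25) _ h1 hN' (by norm_num) (by norm_num [d12])
  · exact hO
  · exact key (conj (m 0)) O (1 / 4) (101 / 10) _ c0 hO (by norm_num) (by norm_num [d12])
  · exact hP'
  · exact key (m 0) (conj P) (1 / 4) (101 / 10) _ h0 hP' (by norm_num) (by norm_num [d12])

end Pool.Agent.FPX.BU
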