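import Mathlib
import Pool.Agent.FPX.BTR
import Pool.Agent.FPX.BU3

/-
BUP (helper69): THE POLE CELL (and all cells with polynomial coefficient vectors) FOR THE CLASS `CH`: the factor `1 / s²` of the
singular coefficients (`S₀`, `|C₃|²`, `|C₅|²`) is replaced by `ρ ≥ 0`, `s² ρ ≤ 1` (see BTR). Bessel: `|C₃|² + |C₅|² ≤ 2 S₀`.
-/

open MeasureTheory Set Filter Topology Complex
open scoped NNReal ComplexConjugate

noncomputable section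

set_option linter.unusedSectionVars false

namespace Pool.Agent.FPX.BU

open Pool.Agent.FPX.BTG (Sta Cls mo aK bK dev)
open Pool.Agent.FPX.CRD (Bm)
open Pool.Agent.FPX.ALX
open Pool.Agent.FPX.BTN (va e1 nf ef bw pa pg PolR)
open Pool.Agent.FPX.UMP (Ef)
open Pool.Agent.FPX.UMQ
open Pool.Agent.FPX.F54 (X1 X2 X_lt X_G1 X_G2 sF)
open Pool.Agent.FPX.S54 (de YY)
open Pool.Agent.FPX.SYS (CE)
open Pool.Agent.FPX.OMB (vm vm_int vm_prob)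
open Pool.Agent.FPX.OMS (rF cF)
open Pool.Agent.FPX.CERQ (xT)
open Pool.Agent.FPX.OM7 (Cp Cm Sp Sm W7 mk7 bv bm_de bm_pow)
open Pool.Agent.FPX.OMG (Cof9 mk9 W9 WP mkP CertAt9 Cert9 DevK D7 E3 CofH MH WN mkN mkH WH CertAtH CertH Cp5 Cm5 bv5)
open Pool.Agent.FPX.OMR (Re xR eR vR r3 r5 r7 q0 WPR mR mR9)
open Pool.Agent.FPX.BTI (vec9 vec9R om9 ke9 bb9 C9 V9 Psi9)

variable {f : ℝ → ℝ}

/-! ### two harmonics -/

theorem bes_n (H : Re f) {g : ℝ → ℝ} (hg : Bm fun t => (g t : ℂ)) {n : ℕ} (hn : n ≠ 0) {z : ℂ}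
    (hz : z = ∫ t, (g t : ℂ) * eR f t ^ n ∂(vR f)) :
    ∫ t, (g t - 2 * (conj z * eR f t ^ n).re) ^ 2 ∂(vR f) = (∫ t, g t ^ 2 ∂(vR f)) - 2 * ‖z‖ ^ 2 := by
  have := H.prob
  have bE : Bm (eR f) := ⟨H.cte.measurable, 1, fun t => (H.ne1 t).le⟩
  have bEn : Bm fun t => eR f t ^ n := bm_pow bE n
  have bE2 : Bm fun t => eR f t ^ (2 * n) := bm_pow bE (2 * n)
  have bp : Bm fun t => (((conj z * eR f t ^ n).re : ℝ) : ℂ) := BTN.bm_re ((Bm.const _).mul bEn)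
  have i1 : ∫ t, g t * (conj z * eR f t ^ n).re ∂(vR f) = ‖z‖ ^ 2 := by
    have h1 : ∫ t, conj z * ((g t : ℂ) * eR f t ^ n) ∂(vR f) = conj z * z := by
      rw [hz]
      exact integral_const_mul _ _
    have h2 := congrArg Complex.re h1
    have i : Integrable (fun t => conj z * ((g t : ℂ) * eR f t ^ n)) (vR f) :=
      ((Bm.const _).mul (hg.mul bEn)).int
    rw [← RCLike.re_eq_complex_re, ← integral_re i] at h2
    have e1 : ∀ t, RCLike.re (conj z * ((g t : ℂ) * eR f t ^ n)) = g t * (conj z * eR f t ^ n).re := by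
      intro t
      rw [RCLike.re_eq_complex_re, mul_left_comm, Complex.re_ofReal_mul]
    simp only [e1] at h2
    rw [h2, RCLike.re_eq_complex_re, mul_comm, Complex.mul_conj, Complex.ofReal_re, Complex.normSq_eq_norm_sq]
  have i2 : ∫ t, (conj z * eR f t ^ n).re ^ 2 ∂(vR f) = ‖z‖ ^ 2 / 2 := by
    have e1 : ∀ t, (conj z * eR f t ^ n).re ^ 2 =
        ‖z‖ ^ 2 / 2 + RCLike.re (conj z ^ 2 / 2 * eR f t ^ (2 * n)) := by
      intro t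
      have n3 : ‖conj z * eR f t ^ n‖ ^ 2 = ‖z‖ ^ 2 := by
        rw [norm_mul, norm_pow, H.ne1, one_pow, mul_one, Complex.norm_conj]
      have e2 : conj z ^ 2 / 2 * eR f t ^ (2 * n) = (conj z * eR f t ^ n) ^ 2 / 2 := by ring
      rw [e2, RCLike.re_eq_complex_re]
      generalize conj z * eR f t ^ n = w at n3
      rw [← n3, ← Complex.normSq_eq_norm_sq, Complex.normSq_apply]
      have e3 : (w ^ 2 / 2).re = (w.re * w.re - w.im * w.im) / 2 := by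
        have : (w ^ 2 / 2) = w ^ 2 * ((1 / 2 : ℝ) : ℂ) := by
          push_cast
          ring
        rw [this, Complex.mul_re, Complex.ofReal_re, Complex.ofReal_im, mul_zero, sub_zero, pow_two, Complex.mul_re]
        ring
      rw [e3]
      ring
    have i : Integrable (fun t => conj z ^ 2 / 2 * eR f t ^ (2 * n)) (vR f) := ((Bm.const _).mul bE2).int
    simp only [e1]
    rw [integral_add (integrable_const _) i.re, integral_re i, integral_const_mul, H.en (by omega), mul_zero,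
      map_zero, add_zero, integral_const]
    simp
  have ig : Integrable (fun t => g t ^ 2) (vR f) := by
    have h := (hg.mul hg).int (μ := vR f)
    have h2 := h.re
    refine h2.congr (Eventually.of_forall fun t => ?_)
    show RCLike.re ((g t : ℂ) * (g t : ℂ)) = g t ^ 2
    rw [RCLike.re_eq_complex_re, ← Complex.ofReal_mul, Complex.ofReal_re, pow_two]
  have ip : Integrable (fun t => (conj z * eR f t ^ n).re ^ 2) (vR f) := by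
    have h2 := ((bp.mul bp).int (μ := vR f)).re
    refine h2.congr (Eventually.of_forall fun t => ?_)
    show RCLike.re ((((conj z * eR f t ^ n).re : ℝ) : ℂ) * (((conj z * eR f t ^ n).re : ℝ) : ℂ)) =
      (conj z * eR f t ^ n).re ^ 2
    rw [RCLike.re_eq_complex_re, ← Complex.ofReal_mul, Complex.ofReal_re, pow_two]
  have igp : Integrable (fun t => g t * (conj z * eR f t ^ n).re) (vR f) := by
    have h2 := ((hg.mul bp).int (μ := vR f)).re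
    refine h2.congr (Eventually.of_forall fun t => ?_)
    show RCLike.re ((g t : ℂ) * (((conj z * eR f t ^ n).re : ℝ) : ℂ)) = g t * (conj z * eR f t ^ n).re
    rw [RCLike.re_eq_complex_re, ← Complex.ofReal_mul, Complex.ofReal_re]
  have e : ∫ t, (g t - 2 * (conj z * eR f t ^ n).re) ^ 2 ∂(vR f) =
      (∫ t, g t ^ 2 ∂(vR f)) - 4 * (∫ t, g t * (conj z * eR f t ^ n).re ∂(vR f))
        + 4 * ∫ t, (conj z * eR f t ^ n).re ^ 2 ∂(vR f) := by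
    have i3 : Integrable (fun t => g t ^ 2 - 4 * (g t * (conj z * eR f t ^ n).re)) (vR f) :=
      ig.sub (igp.const_mul 4)
    rw [← integral_const_mul, ← integral_const_mul, ← integral_sub ig (igp.const_mul 4),
      ← integral_add i3 (ip.const_mul 4)]
    exact integral_congr_ae (Eventually.of_forall fun t => by ring)
  rw [e, i1, i2]
  ring

/-- `|mean (g E³)|² + |mean (g E⁵)|² ≤ mean (g²) / 2` for a real function `g` -/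
theorem bessel35 (H : Re f) {g : ℝ → ℝ} (hg : Bm fun t => (g t : ℂ)) :
    2 * ‖∫ t, (g t : ℂ) * eR f t ^ 3 ∂(vR f)‖ ^ 2 + 2 * ‖∫ t, (g t : ℂ) * eR f t ^ 5 ∂(vR f)‖ ^ 2 ≤
      ∫ t, g t ^ 2 ∂(vR f) := by
  have := H.prob
  have bE : Bm (eR f) := ⟨H.cte.measurable, 1, fun t => (H.ne1 t).le⟩
  set z : ℂ := ∫ t, (g t : ℂ) * eR f t ^ 5 ∂(vR f) with hz
  have bp : Bm fun t => (((conj z * eR f t ^ 5).re : ℝ) : ℂ) := BTN.bm_re ((Bm.const _).mul (bm_pow bE 5))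
  have bg : Bm fun t => ((g t - 2 * (conj z * eR f t ^ 5).re : ℝ) : ℂ) := by
    have h : Bm fun t => (g t : ℂ) + (-2) * (((conj z * eR f t ^ 5).re : ℝ) : ℂ) :=
      hg.add ((Bm.const _).mul bp)
    refine (congrArg Bm (funext fun t => ?_)).mp h
    push_cast
    ring
  have h1 := BTN.bessel3 H bg
  have h2 := bes_n H hg (n := 5) (by norm_num) hz
  rw [h2] at h1
  have e : ∫ t, ((g t - 2 * (conj z * eR f t ^ 5).re : ℝ) : ℂ) * eR f t ^ 3 ∂(vR f) =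
      ∫ t, (g t : ℂ) * eR f t ^ 3 ∂(vR f) := by
    have e1 : ∀ t, ((g t - 2 * (conj z * eR f t ^ 5).re : ℝ) : ℂ) * eR f t ^ 3 =
        (g t : ℂ) * eR f t ^ 3 - (conj z * eR f t ^ 8 + z * conj (eR f t ^ 2)) := by
      intro t
      have h := H.eec t
      have hr : (((conj z * eR f t ^ 5).re : ℝ) : ℂ) = (conj z * eR f t ^ 5 + z * conj (eR f t) ^ 5) / 2 := by
        rw [Complex.re_eq_add_conj]
        simp only [map_mul, map_pow, Complex.conj_conj]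
      rw [Complex.ofReal_sub, Complex.ofReal_mul, hr, map_pow]
      have h3 : eR f t ^ 3 * conj (eR f t) ^ 3 = 1 := by rw [← mul_pow, h, one_pow]
      push_cast
      linear_combination (-(z * conj (eR f t) ^ 2)) * h3
    simp only [e1]
    have i1 : Integrable (fun t => (g t : ℂ) * eR f t ^ 3) (vR f) := (hg.mul (bm_pow bE 3)).int
    have i2 : Integrable (fun t => conj z * eR f t ^ 8) (vR f) := ((Bm.const _).mul (bm_pow bE 8)).int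
    have i3 : Integrable (fun t => z * conj (eR f t ^ 2)) (vR f) :=
      ((Bm.const _).mul (bm_pow bE 2).conj).int
    have i4 : Integrable (fun t => conj z * eR f t ^ 8 + z * conj (eR f t ^ 2)) (vR f) := i2.add i3
    rw [integral_sub i1 i4, integral_add i2 i3, integral_const_mul, integral_const_mul,
      H.en (by norm_num), integral_conj, H.en (by norm_num)]
    simp
  rw [e] at h1
  linarith

theorem C5_mean (H : Re f) : CE 5 f = 2 * ∫ t, (de (X1 f) (X2 f) f t : ℂ) * eR f t ^ 5 ∂(vR f) := by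
  unfold CE
  rw [S54.Cm_eq (X_lt H.hf), H.me 5]

/-- `|C₃|² + |C₅|² ≤ 2 S₀` -/
theorem C35_le (H : Re f) : Complex.normSq (CE 3 f) + Complex.normSq (CE 5 f) ≤ 2 * S54.S0 f := by
  have b := bm_de H.hf
  have h := bessel35 H b
  rw [BTN.C3_mean H, C5_mean H, BTN.S0_mean H, Complex.normSq_eq_norm_sq, Complex.normSq_eq_norm_sq, norm_mul,
    norm_mul]
  have : ‖(2 : ℂ)‖ = 2 := by norm_num
  rw [this]
  nlinarith

/-! ### the conditions -/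

/-- the singular coefficient of `|C₅|²` -/
def ph (F : CofH) (s c : ℝ) : ℝ := 2 * c * (s ^ 2 * deriv F.g5 (s ^ 2) + F.g5 (s ^ 2)) - 5 * F.b5 (s ^ 2)

/-- **the conditions on the coefficient functions and on `ρ` at one latitude** -/
structure PolH (F : CofH) (η ρ s c : ℝ) : Prop extends PolR F.F.C η ρ s c where
  hh : pa F.F.C s c + 2 * ph F s c ≤ 0
  hηh : (1 - s ^ 2 * ρ) * (-(pa F.F.C s c + 2 * ph F s c) * (31 / 50 * c) ^ 2) ≤ η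

/-- **the singular terms** -/
theorem sing_leH (H : Re f) {a g h η ρ : ℝ} (ha : a ≤ 0) (hg : a + 2 * g ≤ 0) (hh : a + 2 * h ≤ 0)
    (h1 : X1 f ^ 2 * ρ ≤ 1)
    (hη : (1 - X1 f ^ 2 * ρ) * (-a * (31 / 50 * cF f) ^ 2) ≤ η)
    (hη' : (1 - X1 f ^ 2 * ρ) * (-(a + 2 * g) * (31 / 50 * cF f) ^ 2) ≤ η)
    (hηh : (1 - X1 f ^ 2 * ρ) * (-(a + 2 * h) * (31 / 50 * cF f) ^ 2) ≤ η) (A B : ℂ) :
    (a * S54.S0 f + g * Complex.normSq (CE 3 f) + h * Complex.normSq (CE 5 f)) * (‖A‖ ^ 2 - ‖B‖ ^ 2) ≤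
      cF f ^ 2 * ρ * (a * q0 f + 4 * g * ‖r3 f‖ ^ 2 + 4 * h * ‖r5 f‖ ^ 2) * (‖A‖ ^ 2 - ‖B‖ ^ 2)
        + η * ‖B‖ ^ 2 := by
  have hc := H.c0
  have e1 := H.s0
  have e2 := H.cs
  have e5 := H.c5s
  have hC := C35_le H
  have hS := BTN.S0_le H
  have hS0 := BTN.S0_nonneg H
  have hC0 := Complex.normSq_nonneg (CE 3 f)
  have hC5 := Complex.normSq_nonneg (CE 5 f)
  rw [Complex.normSq_eq_norm_sq (r3 f)] at e2
  rw [Complex.normSq_eq_norm_sq (r5 f)] at e5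
  set S := S54.S0 f
  set N := Complex.normSq (CE 3 f)
  set P := Complex.normSq (CE 5 f)
  set β := a * S + g * N + h * P with hβ
  have e3 : cF f ^ 2 * ρ * (a * q0 f + 4 * g * ‖r3 f‖ ^ 2 + 4 * h * ‖r5 f‖ ^ 2) = X1 f ^ 2 * ρ * β := by
    rw [hβ]
    linear_combination (-(ρ * a)) * e1 - ρ * g * e2 - ρ * h * e5
  rw [e3]
  have hβ0 : β ≤ 0 := by
    have k1 : g * N ≤ -a / 2 * N := mul_le_mul_of_nonneg_right (by linarith) hC0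
    have k2 : h * P ≤ -a / 2 * P := mul_le_mul_of_nonneg_right (by linarith) hC5
    have k3 : -a / 2 * (N + P) ≤ -a / 2 * (2 * S) := mul_le_mul_of_nonneg_left hC (by linarith)
    rw [hβ]
    nlinarith
  set τ := X1 f ^ 2 * ρ
  have hτ : 0 ≤ 1 - τ := sub_nonneg.2 h1
  -- the smallest of the three coefficients
  have h4 : (1 - τ) * (-β) ≤ η := by
    have key : ∀ m : ℝ, m ≤ 0 → m ≤ a → m ≤ a + 2 * g → m ≤ a + 2 * h → -β ≤ -m * (31 / 50 * cF f) ^ 2 := by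
      intro m hm m1 m2 m3
      have k1 : (m - a) / 2 * N ≤ g * N := mul_le_mul_of_nonneg_right (by linarith) hC0
      have k2 : (m - a) / 2 * P ≤ h * P := mul_le_mul_of_nonneg_right (by linarith) hC5
      have k3 : (m - a) / 2 * (2 * S) ≤ (m - a) / 2 * (N + P) :=
        mul_le_mul_of_nonpos_left hC (by linarith)
      have k4 : -m * S ≤ -m * (31 / 50 * cF f) ^ 2 := mul_le_mul_of_nonneg_left hS (by linarith)
      rw [hβ]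
      nlinarith
    rcases le_total a (a + 2 * g) with h12 | h12
    · rcases le_total a (a + 2 * h) with h13 | h13
      · exact (mul_le_mul_of_nonneg_left (key a ha le_rfl h12 h13) hτ).trans hη
      · exact (mul_le_mul_of_nonneg_left (key _ hh h13 (h13.trans h12) le_rfl) hτ).trans hηh
    · rcases le_total (a + 2 * g) (a + 2 * h) with h23 | h23
      · exact (mul_le_mul_of_nonneg_left (key _ hg h12 le_rfl h23) hτ).trans hη'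
      · exact (mul_le_mul_of_nonneg_left (key _ hh (h23.trans h12) h23 le_rfl) hτ).trans hηh
  have hB : 0 ≤ ‖B‖ ^ 2 := sq_nonneg _
  have hA : 0 ≤ ‖A‖ ^ 2 := sq_nonneg _
  have h3 : 0 ≤ (1 - τ) * (-β) := mul_nonneg hτ (by linarith)
  nlinarith [mul_nonneg h3 hA, mul_le_mul_of_nonneg_right h4 hB]

/-- the coefficient vector of the class `CH` with `ρ` in place of `1 / s²` -/
def vecHR (W : ℝ → ℝ) (F : CofH) (μ η ρ s c : ℝ) : V26 :=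
  ![vec9R W F.F μ η ρ s c 0, vec9R W F.F μ η ρ s c 1, vec9R W F.F μ η ρ s c 2, vec9R W F.F μ η ρ s c 3,
    vec9R W F.F μ η ρ s c 4, vec9R W F.F μ η ρ s c 5, vec9R W F.F μ η ρ s c 6, vec9R W F.F μ η ρ s c 7,
    vec9R W F.F μ η ρ s c 8, vec9R W F.F μ η ρ s c 9, vec9R W F.F μ η ρ s c 10, vec9R W F.F μ η ρ s c 11,
    vec9R W F.F μ η ρ s c 12, vec9R W F.F μ η ρ s c 13, vec9R W F.F μ η ρ s c 14,
    vec9R W F.F μ η ρ s c 15, vec9R W F.F μ η ρ s c 16, vec9R W F.F μ η ρ s c 17,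
    vec9R W F.F μ η ρ s c 18, vec9R W F.F μ η ρ s c 19, vec9R W F.F μ η ρ s c 20,
    4 * c * F.g5 (s ^ 2), 8 * c ^ 3 * ρ * (s ^ 2 * deriv F.g5 (s ^ 2) + F.g5 (s ^ 2)), F.b5 (s ^ 2),
    20 * c ^ 2 * ρ * F.b5 (s ^ 2), 4 * c ^ 2 * deriv F.b5 (s ^ 2)]

theorem vecHR_zero (W : ℝ → ℝ) (F : Cof9) (μ η ρ s c : ℝ) :
    vecHR W ⟨F, fun _ => 0, fun _ => 0⟩ μ η ρ s c = emb (vec9R W F μ η ρ s c) := by
  unfold vecHR emb
  simp

section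

variable {Q : Type} [Fintype Q] {Ψ : PsiH Q}

theorem Cp5_eqR (H : Re f) (A B R : ℂ) : Cp5 f A B R = n5 (mo (CH Ψ) (nf f) (xT f) (ef f)) A B R := by
  have hc := H.cC
  unfold Cp5 n5
  rw [H.d7, e3 H, H.zz, Complex.conj_ofReal, mo_li (Ψ := Ψ) _ _ _ Ψ0, ← BTI.r3_eq (Ψ := Ψ0) H.hf H.h0 H.h2,
    ← BTI.r5_eq (Ψ := Ψ0) H.hf H.h0 H.h2, ← BTI.r7_eq (Ψ := Ψ0) H.hf H.h0 H.h2]
  field_simp
  linear_combination (-10 * (A - conj B)) * H.c5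

theorem Cm5_eqR (H : Re f) (A B R : ℂ) : Cm5 f A B R = m5 (mo (CH Ψ) (nf f) (xT f) (ef f)) A B R := by
  have hc := H.cC
  unfold Cm5 m5
  rw [H.d7, e3 H, H.zz, Complex.conj_ofReal, mo_li (Ψ := Ψ) _ _ _ Ψ0, ← BTI.r3_eq (Ψ := Ψ0) H.hf H.h0 H.h2,
    ← BTI.r5_eq (Ψ := Ψ0) H.hf H.h0 H.h2, ← BTI.r7_eq (Ψ := Ψ0) H.hf H.h0 H.h2]
  field_simp
  linear_combination (-10 * (B - conj A)) * H.c5

theorem mkN_R (H : Re f) (F : CofH) (t : ℝ) :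
    mkN F f t = ((4 * cF f * F.g5 (X1 f ^ 2) * (conj (r5 f) * eR f t ^ 5).re : ℝ) : ℂ) := by
  have h5 : ((X1 f : ℝ) : ℂ) * (((conj (CE 5 f) * eR f t ^ 5).re : ℝ) : ℂ) =
      (((2 * cF f) * (conj (r5 f) * eR f t ^ 5).re : ℝ) : ℂ) := by
    have h := congrArg (fun z => (conj z * eR f t ^ 5).re) H.c5
    have e : (2 : ℂ) * (cF f : ℂ) = ((2 * cF f : ℝ) : ℂ) := by push_cast; rfl
    simp only [e, map_mul, Complex.conj_ofReal, mul_assoc (((X1 f : ℝ) : ℂ)),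
      mul_assoc (((2 * cF f : ℝ) : ℂ)), Complex.re_ofReal_mul] at h
    rw [← Complex.ofReal_mul, h]
  unfold mkN
  rw [H.zz, H.ee, Complex.conj_ofReal, mul_assoc, h5, H.rr]
  push_cast
  ring

/-- the kernel -/
theorem mkH_R (H : Re f) (W : ℝ → ℝ) (F : CofH) (μ η ρ t : ℝ) :
    mkH F f t = keH (vecHR W F μ η ρ (X1 f) (cF f)) (mo (CH Ψ) (nf f) (xT f) (ef f)) (ef f t) (xT f t) := by
  unfold mkH
  rw [mkN_R H, BTI.mk9_R (Ψ := Ψ0) H W F.F μ η ρ, BTI.r5_eq (Ψ := Ψ0) H.hf H.h0 H.h2, BTI.eR_eq H.h2,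
    mo_li (Ψ := Ψ) _ _ _ Ψ0]
  unfold ke9 keH
  simp only [vecHR, Matrix.cons_val_zero, Matrix.cons_val_one, Matrix.cons_val]
  push_cast
  ring

theorem WN_R (H : Re f) (F : CofH) :
    WN F f = 2 * cF f * (X1 f ^ 2 * deriv F.g5 (X1 f ^ 2) + F.g5 (X1 f ^ 2)) * normSq (CE 5 f)
      + 2 * cF f * F.g5 (X1 f ^ 2) * (7 * (conj (r5 f) * r7 f).re - 3 * (conj (r3 f) * r5 f).re) := by
  have h5 := congrArg conj H.c5
  simp only [map_mul, Complex.conj_ofReal, map_ofNat] at h5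
  have a1 : (conj (YY (X1 f) (X2 f)) * (conj (CE 5 f) * D7 f)).re = 7 * cF f * (conj (r5 f) * r7 f).re := by
    have e : (X1 f : ℂ) * (conj (CE 5 f) * D7 f) = ((7 * cF f : ℝ) : ℂ) * (conj (r5 f) * r7 f) := by
      rw [H.d7]
      push_cast
      linear_combination (7 / 2 * r7 f) * h5
    rw [H.zz, Complex.conj_ofReal, e, Complex.re_ofReal_mul]
  have a2 : (YY (X1 f) (X2 f) * (conj (CE 5 f) * E3 f)).re = 3 * cF f * (conj (r3 f) * r5 f).re := by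
    have e : (X1 f : ℂ) * (conj (CE 5 f) * E3 f) = ((3 * cF f : ℝ) : ℂ) * (conj (r5 f) * r3 f) := by
      rw [e3 H]
      push_cast
      linear_combination (3 / 2 * r3 f) * h5
    have e' : (conj (r5 f) * r3 f).re = (conj (r3 f) * r5 f).re := by
      simp only [Complex.mul_re, Complex.conj_re, Complex.conj_im]
      ring
    rw [H.zz, e, Complex.re_ofReal_mul, e']
  unfold WN
  rw [a1, a2, H.rr]
  ring

theorem bv5_R (H : Re f) (b : ℝ → ℝ) (A B N M : ℂ) :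
    bv5 b f A B N M = 2 * b (X1 f ^ 2) * (‖N‖ ^ 2 - ‖M‖ ^ 2)
      - 5 * b (X1 f ^ 2) * normSq (CE 5 f) * (‖A‖ ^ 2 - ‖B‖ ^ 2)
      + 4 * cF f ^ 2 * deriv b (X1 f ^ 2) * ((A + conj B) * (r5 f * conj N - conj (r5 f) * M)).re := by
  have h := congrArg conj H.c5
  simp only [map_mul, Complex.conj_ofReal, map_ofNat] at h
  have e : (conj (YY (X1 f) (X2 f)) * A + YY (X1 f) (X2 f) * conj B)
      * (CE 5 f * conj N - conj (CE 5 f) * M) =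
      ((2 * cF f : ℝ) : ℂ) * ((A + conj B) * (r5 f * conj N - conj (r5 f) * M)) := by
    rw [H.zz, Complex.conj_ofReal]
    push_cast
    linear_combination ((A + conj B) * conj N) * H.c5 - ((A + conj B) * M) * h
  unfold bv5
  rw [e, Complex.re_ofReal_mul, H.rr]
  ring

/-- the coefficient of the Jacobian, the terms with `∇C₃` and with `∇C₅` -/
theorem omH_R {W : ℝ → ℝ} {F : CofH} {μ η ρ : ℝ} (H : Re f) (A B N M P O : ℂ) :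
    WH W F f * (‖A‖ ^ 2 - ‖B‖ ^ 2) + bv F.F.C f A B N M + bv5 F.b5 f A B P O =
      omH (vecHR W F μ η ρ (X1 f) (cF f)) (mo (CH Ψ) (nf f) (xT f) (ef f)) * (‖A‖ ^ 2 - ‖B‖ ^ 2)
      + bbH (vecHR W F μ η ρ (X1 f) (cF f)) (mo (CH Ψ) (nf f) (xT f) (ef f)) A B N M
      + b5H (vecHR W F μ η ρ (X1 f) (cF f)) (mo (CH Ψ) (nf f) (xT f) (ef f)) A B P O
      + ((pa F.F.C (X1 f) (cF f) * S54.S0 f + pg F.F.C (X1 f) (cF f) * Complex.normSq (SYS.CE 3 f)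
            + ph F (X1 f) (cF f) * Complex.normSq (SYS.CE 5 f)) * (‖A‖ ^ 2 - ‖B‖ ^ 2)
        - cF f ^ 2 * ρ * (pa F.F.C (X1 f) (cF f) * q0 f + 4 * pg F.F.C (X1 f) (cF f) * ‖r3 f‖ ^ 2
            + 4 * ph F (X1 f) (cF f) * ‖r5 f‖ ^ 2) * (‖A‖ ^ 2 - ‖B‖ ^ 2)) := by
  have h9 := BTI.om9_R (Ψ := Ψ0) (W := W) (F := F.F) (μ := μ) (η := η) (ρ := ρ) H A B N M
  unfold WH
  rw [WN_R H, bv5_R H]
  have e1 : omH (vecHR W F μ η ρ (X1 f) (cF f)) (mo (CH Ψ) (nf f) (xT f) (ef f)) =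
      om9 (vec9R W F.F μ η ρ (X1 f) (cF f)) (mo (C9 Ψ0) (nf f) (xT f) (ef f))
      + 2 * cF f * F.g5 (X1 f ^ 2) * (7 * (conj (r5 f) * r7 f).re - 3 * (conj (r3 f) * r5 f).re)
      + 8 * cF f ^ 3 * ρ * (X1 f ^ 2 * deriv F.g5 (X1 f ^ 2) + F.g5 (X1 f ^ 2)) * ‖r5 f‖ ^ 2 := by
    rw [BTI.r3_eq (Ψ := Ψ0) H.hf H.h0 H.h2, BTI.r5_eq (Ψ := Ψ0) H.hf H.h0 H.h2,
      BTI.r7_eq (Ψ := Ψ0) H.hf H.h0 H.h2, mo_li (Ψ := Ψ) _ _ _ Ψ0]
    unfold omH om9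
    simp only [vecHR, Matrix.cons_val_zero, Matrix.cons_val_one, Matrix.cons_val]
    ring
  have e2 : bbH (vecHR W F μ η ρ (X1 f) (cF f)) (mo (CH Ψ) (nf f) (xT f) (ef f)) A B N M =
      bb9 (vec9R W F.F μ η ρ (X1 f) (cF f)) (mo (C9 Ψ0) (nf f) (xT f) (ef f)) A B N M := by
    rw [mo_li (Ψ := Ψ) _ _ _ Ψ0]
    unfold bbH bb9
    simp only [vecHR, Matrix.cons_val]
  have e3 : b5H (vecHR W F μ η ρ (X1 f) (cF f)) (mo (CH Ψ) (nf f) (xT f) (ef f)) A B P O =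
      2 * F.b5 (X1 f ^ 2) * (‖P‖ ^ 2 - ‖O‖ ^ 2)
      - 20 * cF f ^ 2 * ρ * F.b5 (X1 f ^ 2) * ‖r5 f‖ ^ 2 * (‖A‖ ^ 2 - ‖B‖ ^ 2)
      + 4 * cF f ^ 2 * deriv F.b5 (X1 f ^ 2) * ((A + conj B) * (r5 f * conj P - conj (r5 f) * O)).re := by
    rw [BTI.r5_eq (Ψ := Ψ0) H.hf H.h0 H.h2, mo_li (Ψ := Ψ) _ _ _ Ψ0]
    unfold b5H
    simp only [vecHR, Matrix.cons_val]
    ring
  rw [e1, e2, e3]
  unfold ph
  linear_combination h9

/-- **the left side of the certificate is at most the form of the class `CH` at the vector `vecHR`** -/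
theorem leftH_leR {W : ℝ → ℝ} {F : CofH} {η ρ : ℝ} (H : Re f) (P : PolH F η ρ (X1 f) (cF f)) (u : Q → ℝ)
    (μ : ℝ) (K : ℝ → ℂ) (A B : ℂ) :
    WH W F f * (‖A‖ ^ 2 - ‖B‖ ^ 2)
      + 2 * (A * ∫ t, mkH F f t * K t ∂(vm (X1 f) (X2 f))).re
      - 2 * (B * ∫ t, mkH F f t * conj (K t) ∂(vm (X1 f) (X2 f))).re
      + bv F.F.C f A B (Cp f A B (∫ t, C54.ep (X1 f) (X2 f) t ^ 3 * conj (K t) ∂(vm (X1 f) (X2 f))))
          (Cm f A B (∫ t, C54.ep (X1 f) (X2 f) t ^ 3 * K t ∂(vm (X1 f) (X2 f))))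
      + bv5 F.b5 f A B (Cp5 f A B (∫ t, C54.ep (X1 f) (X2 f) t ^ 5 * conj (K t) ∂(vm (X1 f) (X2 f))))
          (Cm5 f A B (∫ t, C54.ep (X1 f) (X2 f) t ^ 5 * K t ∂(vm (X1 f) (X2 f))))
      + 2 * μ * ‖dev (CH Ψ) u (mo (CH Ψ) (nf f) (xT f) (ef f)) A B (aK (CH Ψ) (nf f) (xT f) (ef f) K)
        (bK (CH Ψ) (nf f) (xT f) (ef f) K)‖ ^ 2 ≤
    BTG.lh (CH Ψ) (nf f) (xT f) (ef f) (vecHR W F 0 η ρ (X1 f) (cF f)) u μ K A B := by
  have hS := sing_leH H P.ha P.hg P.hh P.h1 P.hη P.hη' P.hηh A B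
  have e1 : ∀ t, BTG.ker (CH Ψ) (vecHR W F 0 η ρ (X1 f) (cF f)) (mo (CH Ψ) (nf f) (xT f) (ef f)) (ef f t)
      (xT f t) = mkH F f t := fun t => by
    rw [kerH, ← mkH_R H W F 0 η ρ]
  have e5 : n5 (mo (CH Ψ) (nf f) (xT f) (ef f)) A B (bK (CH Ψ) (nf f) (xT f) (ef f) K 3) =
      Cp5 f A B (∫ t, C54.ep (X1 f) (X2 f) t ^ 5 * conj (K t) ∂(vm (X1 f) (X2 f))) := by
    rw [Cp5_eqR (Ψ := Ψ) H]
    rfl
  have e5' : m5 (mo (CH Ψ) (nf f) (xT f) (ef f)) A B (aK (CH Ψ) (nf f) (xT f) (ef f) K 3) =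
      Cm5 f A B (∫ t, C54.ep (X1 f) (X2 f) t ^ 5 * K t ∂(vm (X1 f) (X2 f))) := by
    rw [Cm5_eqR (Ψ := Ψ) H]
    rfl
  have h := omH_R (Ψ := Ψ) (W := W) (F := F) (μ := 0) (η := η) (ρ := ρ) H A B
    (BTN.cp (nf f) (xT f) (ef f) A B (∫ t, C54.ep (X1 f) (X2 f) t ^ 3 * conj (K t) ∂(vm (X1 f) (X2 f))))
    (BTN.cm (nf f) (xT f) (ef f) A B (∫ t, C54.ep (X1 f) (X2 f) t ^ 3 * K t ∂(vm (X1 f) (X2 f))))
    (Cp5 f A B (∫ t, C54.ep (X1 f) (X2 f) t ^ 5 * conj (K t) ∂(vm (X1 f) (X2 f))))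
    (Cm5 f A B (∫ t, C54.ep (X1 f) (X2 f) t ^ 5 * K t ∂(vm (X1 f) (X2 f))))
  have e14 : vecHR W F 0 η ρ (X1 f) (cF f) 14 = 0 + η / 2 := by
    simp only [vecHR, Matrix.cons_val, BTI.v9R_14]
  unfold BTG.lh
  rw [thtH, e14, n9_eq, m9_eq, e5, e5', BTN.Cp_eqR H, BTN.Cm_eqR H]
  simp only [e1]
  rw [zero_add]
  have e2 : η / 2 * (2 * ‖B‖ ^ 2) = η * ‖B‖ ^ 2 := by ring
  rw [e2]
  linarith

/-- **the certificate `CertAtH` from the class `CH` at `vecHR`**, all states with `s ≥ 0` -/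
theorem certAtH_of_NCR {Bk : DevK} {W : ℝ → ℝ} {F : CofH} {u : Q → ℝ} {μ η ρ T : ℝ} (hμ : 0 ≤ μ) (H : Re f)
    (P : PolH F η ρ (X1 f) (cF f))
    (HB : ∀ K : ℝ → ℂ, Measurable K → (∀ t, ‖K t‖ ≤ 1) → ∀ A B : ℂ, ‖Bk f K A B‖ ≤
      ‖dev (CH Ψ) u (mo (CH Ψ) (nf f) (xT f) (ef f)) A B (aK (CH Ψ) (nf f) (xT f) (ef f) K)
        (bK (CH Ψ) (nf f) (xT f) (ef f) K)‖)
    (h : BTG.NC (CH Ψ) (nf f) (xT f) (ef f) (vecHR W F 0 η ρ (X1 f) (cF f)) u μ T) :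
    CertAtH Bk W F μ T f := by
  intro K hK hK1 A B hA hB
  rw [H.sf, BTI.r3_eq (Ψ := Ψ0) H.hf H.h0 H.h2] at hA hB
  have h1 := leftH_leR (Ψ := Ψ) (W := W) (F := F) H P u μ K A B
  have h2 := h K hK hK1 A B hA hB
  have h3 := mul_le_mul_of_nonneg_left (pow_le_pow_left₀ (norm_nonneg _) (HB K hK hK1 A B) 2)
    (show (0 : ℝ) ≤ 2 * μ by linarith)
  linarith

theorem devK5_leR {Bx : Dev5} {u : Q → ℝ} (H : Re f) (HB : DevLe5 Bx Ψ u f) (K : ℝ → ℂ) (A B : ℂ) :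
    ‖devK5 Bx f K A B‖ ≤ ‖dev (CH Ψ) u (mo (CH Ψ) (nf f) (xT f) (ef f)) A B
      (aK (CH Ψ) (nf f) (xT f) (ef f) K) (bK (CH Ψ) (nf f) (xT f) (ef f) K)‖ := by
  unfold devK5
  refine (HB _ _ _ _ _ _ _ _ _).trans (le_of_eq ?_)
  rw [BTN.Cp_eqR H, BTN.Cm_eqR H, BTN.t_SpR H, BTN.t_SmR H, Cp5_eqR (Ψ := Ψ) H, Cm5_eqR (Ψ := Ψ) H]
  have e1 : ((X1 f / cF f : ℝ) : ℂ) * ∫ t, ((de (X1 f) (X2 f) f t : ℂ) * C54.ep (X1 f) (X2 f) t ^ 2)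
      * conj (K t) ∂(vm (X1 f) (X2 f)) = bK (CH Ψ) (nf f) (xT f) (ef f) K 1 := by
    have := BTN.t_intR H (fun t => ef f t ^ 2 * conj (K t))
    simp only [← mul_assoc] at this
    exact this
  have e2 : ((X1 f / cF f : ℝ) : ℂ) * ∫ t, ((de (X1 f) (X2 f) f t : ℂ) * C54.ep (X1 f) (X2 f) t ^ 2)
      * K t ∂(vm (X1 f) (X2 f)) = aK (CH Ψ) (nf f) (xT f) (ef f) K 1 := by
    have := BTN.t_intR H (fun t => ef f t ^ 2 * K t)
    simp only [← mul_assoc] at this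
    exact this
  have e3 : ((X1 f / cF f : ℝ) : ℂ) * ∫ t, (de (X1 f) (X2 f) f t : ℂ) * K t ∂(vm (X1 f) (X2 f)) =
      aK (CH Ψ) (nf f) (xT f) (ef f) K 2 := BTN.t_intR H K
  rw [e1, e2, e3]
  rfl

/-- **the certificate `CertAtH (devK5 Bx)`** -/
theorem certAtHX_of_NCR {Bx : Dev5} {W : ℝ → ℝ} {F : CofH} {u : Q → ℝ} {μ η ρ T : ℝ} (hμ : 0 ≤ μ) (H : Re f)
    (P : PolH F η ρ (X1 f) (cF f)) (HB : DevLe5 Bx Ψ u f)
    (h : BTG.NC (CH Ψ) (nf f) (xT f) (ef f) (vecHR W F 0 η ρ (X1 f) (cF f)) u μ T) :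
    CertAtH (devK5 Bx) W F μ T f :=
  certAtH_of_NCR hμ H P (fun K _ _ A B => devK5_leR H HB K A B) h

/-- **the certificate `CertAt9 (devK5 Bx)`** (class `Cof9`, start map with the parts of `∇C₅`) -/
theorem certAt9X_of_NCHR {Bx : Dev5} {W : ℝ → ℝ} {F : Cof9} {u : Q → ℝ} {μ η ρ T : ℝ} (hμ : 0 ≤ μ) (H : Re f)
    (P : PolR F.C η ρ (X1 f) (cF f)) (HB : DevLe5 Bx Ψ u f)
    (h : BTG.NC (CH Ψ) (nf f) (xT f) (ef f) (emb (vec9R W F 0 η ρ (X1 f) (cF f))) u μ T) :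
    CertAt9 (devK5 Bx) W F μ T f := by
  refine certAt9_of_H (certAtHX_of_NCR (Ψ := Ψ) (η := η) (ρ := ρ) (u := u) hμ H ⟨P, ?_, ?_⟩ HB ?_)
  · show pa F.C (X1 f) (cF f) + 2 * ph ⟨F, fun _ => 0, fun _ => 0⟩ (X1 f) (cF f) ≤ 0
    unfold ph
    simpa using P.ha
  · show (1 - X1 f ^ 2 * ρ) * (-(pa F.C (X1 f) (cF f) + 2 * ph ⟨F, fun _ => 0, fun _ => 0⟩ (X1 f) (cF f))
      * (31 / 50 * cF f) ^ 2) ≤ η
    unfold ph
    simpa using P.hη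
  · rw [vecHR_zero]
    exact h

/-- **a latitude cell (the pole may be in it), class `CertH`**: approximate control points -/
theorem cellHR' {Bx : Dev5} {W : ℝ → ℝ} {F : CofH} {μ η ρ T : ℝ} (hμ : 0 ≤ μ) (H : Re f)
    (P : PolH F η ρ (X1 f) (cF f)) {s' : ℝ} (hs' : X1 f ≤ s') (h1 : s' ≤ 1)
    {R : (ℝ → ℝ) → Prop} (hR : R (Xa (X1 f) f)) {κ : Type*} {S : Finset κ} {c : κ → ℝ} {v : κ → V26}
    {u : κ → Q → ℝ} (hc : ∀ j ∈ S, 0 ≤ c j) (hc1 : ∑ j ∈ S, c j = 1)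
    (h : ∀ j ∈ S, ∀ X, St s' X → (∀ a, |X a| ≤ 31 / 50 * s') → R X → BTG.RW (CH Ψ) va X e1 (v j) (u j) μ T)
    {u0 : Q → ℝ} (HB : DevLe5 Bx Ψ u0 f) {d : Q → ℝ} (hΨ : PsiLe Ψ d) {δ U θ : ℝ}
    (hδ : ∑ q, |u0 q - (∑ j ∈ S, c j • u j) q| * d q ≤ δ) (hU : ∑ q, |(∑ j ∈ S, c j • u j) q| * d q ≤ U)
    (hθ : ∑ i, |vecHR W F 0 η ρ (X1 f) (cF f) i - (∑ j ∈ S, c j • v j) i| * cH i
      + 2 * μ * (δ * (2 * U + δ)) ≤ θ) :
    CertAtH (devK5 Bx) W F μ (T + θ) f :=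
  certAtHX_of_NCR hμ H P HB (cellH H.hf H.h0 H.h2 hμ hs' h1 hR hc hc1 h hΨ hδ hU hθ)

/-- **the same, vertex version** (state dependent weights) -/
theorem cellHVR {Bx : Dev5} {W : ℝ → ℝ} {F : CofH} {μ η ρ T : ℝ} (hμ : 0 ≤ μ) (H : Re f)
    (P : PolH F η ρ (X1 f) (cF f)) {s' : ℝ} (hs' : X1 f ≤ s') (h1 : s' ≤ 1)
    {R : (ℝ → ℝ) → Prop} (hR : R (Xa (X1 f) f)) {κ : Type*} {S : Finset κ} {c : κ → ℝ} {v : κ → V26}
    {u : κ → Q → ℝ} (hc : ∀ j ∈ S, 0 ≤ c j) (hc1 : ∑ j ∈ S, c j = 1)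
    (h : ∀ j ∈ S, ∀ X, St s' X → (∀ a, |X a| ≤ 31 / 50 * s') → R X → BTG.RWV (CH Ψ) va X e1 (v j) (u j) μ T)
    {u0 : Q → ℝ} (HB : DevLe5 Bx Ψ u0 f) {d : Q → ℝ} (hΨ : PsiLe Ψ d) {δ U θ : ℝ}
    (hδ : ∑ q, |u0 q - (∑ j ∈ S, c j • u j) q| * d q ≤ δ) (hU : ∑ q, |(∑ j ∈ S, c j • u j) q| * d q ≤ U)
    (hθ : ∑ i, |vecHR W F 0 η ρ (X1 f) (cF f) i - (∑ j ∈ S, c j • v j) i| * cH i
      + 2 * μ * (δ * (2 * U + δ)) ≤ θ) :
    CertAtH (devK5 Bx) W F μ (T + θ) f :=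
  certAtHX_of_NCR hμ H P HB (cellHV H.hf H.h0 H.h2 hμ hs' h1 hR hc hc1 h hΨ hδ hU hθ)

/-- the same, the certificates at the control points given as `NC` -/
theorem cellHNR {Bx : Dev5} {W : ℝ → ℝ} {F : CofH} {μ η ρ T : ℝ} (hμ : 0 ≤ μ) (H : Re f)
    (P : PolH F η ρ (X1 f) (cF f)) {κ : Type*} {S : Finset κ} {c : κ → ℝ} {v : κ → V26}
    {u : κ → Q → ℝ} (hc : ∀ j ∈ S, 0 ≤ c j) (hc1 : ∑ j ∈ S, c j = 1)
    (h : ∀ j ∈ S, BTG.NC (CH Ψ) (nf f) (xT f) (ef f) (v j) (u j) μ T)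
    {u0 : Q → ℝ} (HB : DevLe5 Bx Ψ u0 f) {d : Q → ℝ} (hΨ : PsiLe Ψ d) {δ U θ : ℝ}
    (hδ : ∑ q, |u0 q - (∑ j ∈ S, c j • u j) q| * d q ≤ δ) (hU : ∑ q, |(∑ j ∈ S, c j • u j) q| * d q ≤ U)
    (hθ : ∑ i, |vecHR W F 0 η ρ (X1 f) (cF f) i - (∑ j ∈ S, c j • v j) i| * cH i
      + 2 * μ * (δ * (2 * U + δ)) ≤ θ) :
    CertAtH (devK5 Bx) W F μ (T + θ) f :=
  certAtHX_of_NCR hμ H P HB (cellHN H.hf H.h0 H.h2 hμ hc hc1 h hΨ hδ hU hθ)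

end

end Pool.Agent.FPX.BU

namespace Pool.Agent.FPX.BTI

open Pool.Agent.FPX.ALX
open Pool.Agent.FPX.BTN (va e1 nf ef bw PolR)
open Pool.Agent.FPX.F54 (X1 X2)
open Pool.Agent.FPX.OMS (cF)
open Pool.Agent.FPX.CERQ (xT)
open Pool.Agent.FPX.OMG (Cof9 CertAt9)
open Pool.Agent.FPX.OMR (Re)

variable {Q : Type} [Fintype Q] {Ψ : Psi9 Q} {f : ℝ → ℝ}

/-- **a latitude cell (the pole may be in it), class `Cert9`, vertex version** (state dependent weights) -/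
theorem cell9VR {Bx : OM7.Dev} {W : ℝ → ℝ} {F : Cof9} {μ η ρ T : ℝ} (hμ : 0 ≤ μ) (H : Re f)
    (P : PolR F.C η ρ (X1 f) (cF f)) {s' : ℝ} (hs' : X1 f ≤ s') (h1 : s' ≤ 1)
    {R : (ℝ → ℝ) → Prop} (hR : R (Xa (X1 f) f)) {κ : Type*} {S : Finset κ} {c : κ → ℝ} {v : κ → V9}
    {u : κ → Q → ℝ} (hc : ∀ j ∈ S, 0 ≤ c j) (hc1 : ∑ j ∈ S, c j = 1)
    (h : ∀ j ∈ S, ∀ X, St s' X → (∀ a, |X a| ≤ 31 / 50 * s') → R X → BTG.RWV (C9 Ψ) va X e1 (v j) (u j) μ T)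
    {u0 : Q → ℝ} (HB : DevLe Bx Ψ u0 f) {d : Q → ℝ} (hΨ : PsiLe Ψ d) {δ U θ : ℝ}
    (hδ : ∑ q, |u0 q - (∑ j ∈ S, c j • u j) q| * d q ≤ δ) (hU : ∑ q, |(∑ j ∈ S, c j • u j) q| * d q ≤ U)
    (hθ : ∑ i, |vec9R W F 0 η ρ (X1 f) (cF f) i - (∑ j ∈ S, c j • v j) i| * c9 i
      + 2 * μ * (δ * (2 * U + δ)) ≤ θ) :
    CertAt9 (OM7.devK Bx) W F μ (T + θ) f :=
  certAt9X_of_NCR hμ H P HB (cell9V H.hf H.h0 H.h2 hμ hs' h1 hR hc hc1 h hΨ hδ hU hθ)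

/-- the same, the certificates at the control points given as `NC` -/
theorem cell9NR {Bx : OM7.Dev} {W : ℝ → ℝ} {F : Cof9} {μ η ρ T : ℝ} (hμ : 0 ≤ μ) (H : Re f)
    (P : PolR F.C η ρ (X1 f) (cF f)) {κ : Type*} {S : Finset κ} {c : κ → ℝ} {v : κ → V9}
    {u : κ → Q → ℝ} (hc : ∀ j ∈ S, 0 ≤ c j) (hc1 : ∑ j ∈ S, c j = 1)
    (h : ∀ j ∈ S, BTG.NC (C9 Ψ) (nf f) (xT f) (ef f) (v j) (u j) μ T)
    {u0 : Q → ℝ} (HB : DevLe Bx Ψ u0 f) {d : Q → ℝ} (hΨ : PsiLe Ψ d) {δ U θ : ℝ}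
    (hδ : ∑ q, |u0 q - (∑ j ∈ S, c j • u j) q| * d q ≤ δ) (hU : ∑ q, |(∑ j ∈ S, c j • u j) q| * d q ≤ U)
    (hθ : ∑ i, |vec9R W F 0 η ρ (X1 f) (cF f) i - (∑ j ∈ S, c j • v j) i| * c9 i
      + 2 * μ * (δ * (2 * U + δ)) ≤ θ) :
    CertAt9 (OM7.devK Bx) W F μ (T + θ) f :=
  certAt9X_of_NCR hμ H P HB (cell9N H.hf H.h0 H.h2 hμ hc hc1 h hΨ hδ hU hθ)

end Pool.Agent.FPX.BTI
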