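import Mathlib
import Pool.Agent.FPX.BTS
import Pool.Agent.FPX.BUP

/-
BUS (helper69): kernel check of the conditions `PolH` of BUP on a latitude cell (see BTS).
-/

open Set

noncomputable section

namespace Pool.Agent.FPX.BTS

open Pool.Agent.FPX.BTQ
open Pool.Agent.FPX.BTN (pa pg PolR)
open Pool.Agent.FPX.BU (PolH ph)

/-- the check of the conditions `PolH`; `A = c² pa`, `G = c² (pa + 2 pg)`, `J = c² (pa + 2 ph)` -/
def chkPH (A G J R : List ℚ) (a b η : ℚ) (n : ℕ) : Bool :=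
  chkP A G R a b η n && nnb (psm (-1) J) a b n
    && nnb (padd [η] (psm ((31 / 50) ^ 2) (pmul (one_sub R) J))) a b n

/-- **the conditions `PolH` from the kernel check** -/
theorem polH_of {A G J R : List ℚ} {a b η : ℚ} {n : ℕ} (H : chkPH A G J R a b η n = true) {F : OMG.CofH}
    {s c : ℝ} (hc : c ∈ Icc (a : ℝ) b) (hs : s ^ 2 = 1 - c ^ 2) (hA : pe A c = c ^ 2 * pa F.F.C s c)
    (hG : pe G c = c ^ 2 * (pa F.F.C s c + 2 * pg F.F.C s c))
    (hJ : pe J c = c ^ 2 * (pa F.F.C s c + 2 * ph F s c)) : PolH F η (pe R c) s c := by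
  unfold chkPH at H
  simp only [Bool.and_eq_true] at H
  obtain ⟨⟨H, h1⟩, h2⟩ := H
  have P := polR_of H hc hs hA hG
  unfold chkP at H
  simp only [Bool.and_eq_true, decide_eq_true_eq] at H
  obtain ⟨⟨⟨⟨⟨⟨⟨hab, ha⟩, -⟩, -⟩, -⟩, -⟩, -⟩, -⟩ := H
  have ha' : (0 : ℝ) < a := by exact_mod_cast ha
  have hc0 : 0 < c := lt_of_lt_of_le ha' hc.1
  have hc2 : 0 < c ^ 2 := by positivity
  have k1 := nnb_sound n hab h1 hc
  have k2 := nnb_sound n hab h2 hc
  rw [pe_psm, hJ] at k1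
  rw [pe_padd, pe_psm, pe_pmul, pe_one_sub, hJ] at k2
  simp only [pe_cons, pe_nil] at k2
  push_cast at k1 k2
  have p1 : pa F.F.C s c + 2 * ph F s c ≤ 0 := by
    by_contra hcon
    push Not at hcon
    nlinarith [mul_pos hc2 hcon]
  exact ⟨P, p1, by rw [hs]; linarith⟩

end Pool.Agent.FPX.BTS
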