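import Mathlib
import Pool.Agent.FPX.SYS

/-
SYC (helper8): the power moments `T_{p,n} = mean (δ^p ε^n)` of the map F54 with their derivatives, and the system of the
nine functionals `X, Y, Re S₂, Im S₂, S₀, Re C₃, Im C₃, Re R, Im R`, `R = mean (δ³ ε)`.
-/

open MeasureTheory Set Filter Topology
open scoped ENNReal NNReal ComplexConjugate

noncomputable section

namespace Pool.Agent.FPX.SYS

open Real Pool.Agent.FPX.UMP Pool.Agent.FPX.UMQ Pool.Agent.FPX.UXA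
open Pool.Agent.FPX.F54 (pr X1 X2 dX1 dX2 X_lt X_der umap fn_X1 fn_X2 SM dSM fn_SM bdd_SM)
open Pool.Agent.FPX.S54 (cc YY vt KK ME de Sn MM_eq ME_neg Sn_neg Fv mS dS2 dS0 ME_one_F)

/-- `T_{p,n} = mean (δ^p ε^n)` at `F54 f` -/
def TE (p : ℕ) (n : ℤ) (f : ℝ → ℝ) : ℂ := ME n (X1 f) (X2 f) fun t => de (X1 f) (X2 f) f t ^ p

/-- the derivative of `T_{p,n}` in the direction `h` -/
def dTE (p : ℕ) (n : ℤ) (f h : ℝ → ℝ) : ℂ :=
  (p : ℂ) * ME n (X1 f) (X2 f) (fun t => de (X1 f) (X2 f) f t ^ (p - 1) * h t)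
    - (p : ℂ) / 2 * (Fv f h * TE (p - 1) (n - 1) f + conj (Fv f h) * TE (p - 1) (n + 1) f)
    + ((n : ℂ) + 2) / (4 * (cc (X1 f) (X2 f) : ℂ)) * (conj (YY (X1 f) (X2 f)) * conj (Fv f h)) * TE p (n + 2) f
    - ((n : ℂ) - 2) / (4 * (cc (X1 f) (X2 f) : ℂ)) * (YY (X1 f) (X2 f) * Fv f h) * TE p (n - 2) f
    + (n : ℂ) * (Complex.I * ((X1 f * dX2 f h - X2 f * dX1 f h : ℝ) : ℂ))
      * (1 / (1 + (cc (X1 f) (X2 f) : ℂ)) - 1 / (2 * (cc (X1 f) (X2 f) : ℂ))) * TE p n f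

theorem TE_neg {f : ℝ → ℝ} (hf : Ef f) (p : ℕ) (n : ℤ) : TE p (-n) f = conj (TE p n f) := ME_neg (X_lt hf) n _

theorem TE_two (n : ℤ) (f : ℝ → ℝ) : TE 2 n f = SE n f := rfl

theorem pow_der (p : ℕ) (u : ℝ) : HasDerivAt (fun u : ℝ => u ^ p) ((fun u : ℝ => (p : ℝ) * u ^ (p - 1)) u) u :=
  hasDerivAt_pow p u

theorem TE_eq (p : ℕ) (n : ℤ) (f : ℝ → ℝ) : TE p n f = ((1 / 2 : ℝ) : ℂ) * SM n (fun u : ℝ => u ^ p) f := by
  unfold TE SM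
  rw [MM_eq]
  push_cast
  ring

theorem dTE_eq (p : ℕ) (n : ℤ) (f h : ℝ → ℝ) :
    dTE p n f h = ((1 / 2 : ℝ) : ℂ) * dSM n (fun u : ℝ => u ^ p) (fun u : ℝ => (p : ℝ) * u ^ (p - 1)) f h := by
  have hπ : (π : ℂ) ≠ 0 := Complex.ofReal_ne_zero.2 pi_ne_zero
  have e1 : ∀ k, S54.MM k (fun u : ℝ => (p : ℝ) * u ^ (p - 1)) (X1 f) (X2 f) f
      = 2 * (p : ℂ) * TE (p - 1) k f := fun k => by
    rw [MM_eq, S54.ME_const]
    unfold TE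
    push_cast
    ring
  have e2 : ∀ k, S54.MM k (fun u : ℝ => u ^ p) (X1 f) (X2 f) f = 2 * TE p k f := fun k => by
    rw [MM_eq]
    rfl
  have e3 : (1 / (π : ℂ)) * (∫ t in (0 : ℝ)..(2 * π),
      (((fun u : ℝ => (p : ℝ) * u ^ (p - 1)) (f t - arcsin (pr (X1 f) (X2 f) t)) * h t : ℝ) : ℂ)
        * KK n (X1 f) (X2 f) t)
      = 2 * (p : ℂ) * ME n (X1 f) (X2 f) (fun t => de (X1 f) (X2 f) f t ^ (p - 1) * h t) := by
    have e4 : ∀ t, (((fun u : ℝ => (p : ℝ) * u ^ (p - 1)) (f t - arcsin (pr (X1 f) (X2 f) t)) * h t : ℝ) : ℂ)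
        * KK n (X1 f) (X2 f) t
        = (p : ℂ) * (((de (X1 f) (X2 f) f t ^ (p - 1) * h t : ℝ) : ℂ) * KK n (X1 f) (X2 f) t) := fun t => by
      unfold de
      push_cast
      ring
    simp only [e4]
    rw [intervalIntegral.integral_const_mul]
    unfold ME
    field_simp
  unfold dTE dSM S54.dMM Fv
  rw [e3, e1, e1, e2, e2, e2]
  push_cast
  ring

theorem fn_TE (ρ : ℂ →L[ℝ] ℝ) (p : ℕ) (n : ℤ) : Fn (fun f => ρ (TE p n f)) (fun f h => ρ (dTE p n f h)) := by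
  have h := fn_smul (fn_SM ρ n (pow_der p) (by fun_prop)) (1 / 2)
  refine fn_congr h (fun f _ => ?_) fun f k _ => ?_
  · rw [TE_eq, rho_half]
  · rw [dTE_eq, rho_half]

theorem bdd_TE (ρ : ℂ →L[ℝ] ℝ) (p : ℕ) (n : ℤ) {m : ℝ} (h0 : 0 ≤ m) (h1 : m < π / 2) :
    ∃ L, 0 ≤ L ∧ Bdd (fun f h => ρ (dTE p n f h)) m L := by
  refine bdd_congr (bdd_smul (bdd_SM ρ n (pow_der p) (by fun_prop) h0 h1) (1 / 2)) fun f k _ => ?_
  rw [dTE_eq, rho_half]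

/-- the cubic moment `R = mean (δ³ ε)` -/
def R1 (f : ℝ → ℝ) : ℂ := TE 3 1 f

def dR1 (f h : ℝ → ℝ) : ℂ := dTE 3 1 f h

/-- `3 mean (δ² h ε)` -/
def K3 (f h : ℝ → ℝ) : ℂ := 3 * ME 1 (X1 f) (X2 f) fun t => de (X1 f) (X2 f) f t ^ 2 * h t

/-- the coefficient of `conj v` in the derivative of `R` -/
def mR (f : ℝ → ℝ) : ℂ :=
  -(3 / 2) * S54.S2 f + 3 * conj (YY (X1 f) (X2 f)) * TE 3 3 f / (4 * (cc (X1 f) (X2 f) : ℂ))

/-- the coefficient of `v` in the derivative of `R` -/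
def nR (f : ℝ → ℝ) : ℂ :=
  -(3 / 2) * (S54.S0 f : ℂ) + YY (X1 f) (X2 f) * conj (R1 f) / (4 * (cc (X1 f) (X2 f) : ℂ))

theorem dR1_eq {f : ℝ → ℝ} (hf : Ef f) (h : ℝ → ℝ) : dR1 f h = K3 f h + conj (Fv f h) * mR f + Fv f h * nR f
    + Complex.I * (((conj (YY (X1 f) (X2 f)) * Fv f h).im
      * (1 / (1 + cc (X1 f) (X2 f)) - 1 / (2 * cc (X1 f) (X2 f))) : ℝ) : ℂ) * R1 f := by
  have hc : (cc (X1 f) (X2 f) : ℂ) ≠ 0 := by
    have : 0 < cc (X1 f) (X2 f) := C54.ce_pos (X_lt hf)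
    exact Complex.ofReal_ne_zero.2 this.ne'
  have e0 : TE 2 0 f = (S54.S0 f : ℂ) := by
    rw [TE_two]
    have h1 : (SE 0 f).im = 0 := by
      have := Sn_neg (X_lt hf) 0 f
      rw [neg_zero] at this
      have h2 := congrArg Complex.im this
      rw [Complex.conj_im] at h2
      change (Sn 0 (X1 f) (X2 f) f).im = 0
      linarith
    have h2 : (SE 0 f).re = S54.S0 f := rfl
    rw [← h2]
    exact Complex.ext (by simp) (by simp [h1])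
  have e2 : TE 2 2 f = S54.S2 f := rfl
  have e3 : TE 3 (-1) f = conj (R1 f) := TE_neg hf 3 1
  unfold dR1 dTE K3 mR nR
  rw [← im_eq]
  norm_num
  rw [e0, e2, e3]
  unfold R1
  field_simp
  ring

theorem fn_R1 (ρ : ℂ →L[ℝ] ℝ) : Fn (fun f => ρ (R1 f)) (fun f h => ρ (dR1 f h)) := fn_TE ρ 3 1

theorem bdd_R1 (ρ : ℂ →L[ℝ] ℝ) {m : ℝ} (h0 : 0 ≤ m) (h1 : m < π / 2) :
    ∃ L, 0 ≤ L ∧ Bdd (fun f h => ρ (dR1 f h)) m L := bdd_TE ρ 3 1 h0 h1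

/-! ### the nine functionals -/

/-- `F54`, `S₂`, `S₀`, `C₃`, `R` -/
def P9 : Fin (7 + 2) → (ℝ → ℝ) → ℝ :=
  ![X1, X2, fun f => (S54.S2 f).re, fun f => (S54.S2 f).im, S54.S0, fun f => (CE 3 f).re, fun f => (CE 3 f).im,
    fun f => (R1 f).re, fun f => (R1 f).im]

/-- their derivatives -/
def dP9 : Fin (7 + 2) → (ℝ → ℝ) → (ℝ → ℝ) → ℝ :=
  ![dX1, dX2, fun f h => (dS2 f h).re, fun f h => (dS2 f h).im, dS0, fun f h => (dCE 3 f h).re,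
    fun f h => (dCE 3 f h).im, fun f h => (dR1 f h).re, fun f h => (dR1 f h).im]

theorem sys9 : CST.Sys P9 dP9 3 7 := by
  refine sys (n := 7) (ψ := ![fun f => (S54.S2 f).re, fun f => (S54.S2 f).im, S54.S0,
      fun f => (CE 3 f).re, fun f => (CE 3 f).im, fun f => (R1 f).re, fun f => (R1 f).im])
    (dψ := ![fun f h => (dS2 f h).re, fun f h => (dS2 f h).im, dS0, fun f h => (dCE 3 f h).re,
      fun f h => (dCE 3 f h).im, fun f h => (dR1 f h).re, fun f h => (dR1 f h).im])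
    (fun i => ?_) fun i m h0 h1 => ?_
  · fin_cases i
    exacts [fn_S2 Complex.reCLM, fn_S2 Complex.imCLM, fn_S0, fn_CE Complex.reCLM (by norm_num),
      fn_CE Complex.imCLM (by norm_num), fn_R1 Complex.reCLM, fn_R1 Complex.imCLM]
  · fin_cases i
    exacts [bdd_S2 Complex.reCLM h0 h1, bdd_S2 Complex.imCLM h0 h1, bdd_S0 h0 h1,
      bdd_CE Complex.reCLM (by norm_num) h0 h1, bdd_CE Complex.imCLM (by norm_num) h0 h1,
      bdd_R1 Complex.reCLM h0 h1, bdd_R1 Complex.imCLM h0 h1]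

theorem cj_S2_9 (f : ℝ → ℝ) : CST.cj 2 3 (CST.cu P9 f) = S54.S2 f := rfl

theorem cj_dS2_9 (f h : ℝ → ℝ) : CST.cj 2 3 (CST.du dP9 f h) = dS2 f h := rfl

theorem u_S0_9 (f : ℝ → ℝ) : CST.cu P9 f 4 = S54.S0 f := rfl

theorem p_dS0_9 (f h : ℝ → ℝ) : CST.du dP9 f h 4 = dS0 f h := rfl

theorem cj_C3_9 (f : ℝ → ℝ) : CST.cj 5 6 (CST.cu P9 f) = CE 3 f := rfl

theorem cj_dC3_9 (f h : ℝ → ℝ) : CST.cj 5 6 (CST.du dP9 f h) = dCE 3 f h := rfl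

theorem cj_R_9 (f : ℝ → ℝ) : CST.cj 7 8 (CST.cu P9 f) = R1 f := rfl

theorem cj_dR_9 (f h : ℝ → ℝ) : CST.cj 7 8 (CST.du dP9 f h) = dR1 f h := rfl

end Pool.Agent.FPX.SYS
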