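import Mathlib
import Pool.Agent.FPX.SYC

/-
SYD (helper8): the system of the eleven functionals `X, Y, Re S₂, Im S₂, S₀, Re C₃, Im C₃, Re C₅, Im C₅, Re R, Im R` of
the map F54.
-/

open MeasureTheory Set Filter Topology
open scoped ENNReal NNReal ComplexConjugate

noncomputable section

namespace Pool.Agent.FPX.SYS

open Real Pool.Agent.FPX.UMP Pool.Agent.FPX.UMQ Pool.Agent.FPX.UXA
open Pool.Agent.FPX.F54 (pr X1 X2 dX1 dX2 X_lt X_der umap fn_X1 fn_X2 SM dSM fn_SM bdd_SM)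
open Pool.Agent.FPX.S54 (cc YY vt KK ME de Sn MM_eq ME_neg Sn_neg Fv mS dS2 dS0 ME_one_F)

/-- the derivative of `C₅` -/
theorem dCE_five (f h : ℝ → ℝ) (hf : Ef f) :
    dCE 5 f h = C54.Lm 5 (X1 f) (X2 f) h
      + conj (Fv f h) * (7 * conj (YY (X1 f) (X2 f)) * CE 7 f / (4 * (cc (X1 f) (X2 f) : ℂ)))
      + Fv f h * (-(3 * YY (X1 f) (X2 f) * CE 3 f / (4 * (cc (X1 f) (X2 f) : ℂ))))
      + 5 * Complex.I * (((conj (YY (X1 f) (X2 f)) * Fv f h).im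
        * (1 / (1 + cc (X1 f) (X2 f)) - 1 / (2 * cc (X1 f) (X2 f))) : ℝ) : ℂ) * CE 5 f := by
  have hc0 := S54.cc_pos (X_lt hf)
  have hc' : (cc (X1 f) (X2 f) : ℂ) ≠ 0 := Complex.ofReal_ne_zero.2 hc0.ne'
  unfold dCE
  have e1 : (5 : ℕ) - 2 = 3 := rfl
  have e2 : (5 : ℕ) + 2 = 7 := rfl
  rw [e1, e2, im_eq]
  push_cast
  field_simp
  ring

/-! ### the eleven functionals -/

/-- `F54`, `S₂`, `S₀`, `C₃`, `C₅`, `R` -/
def P11 : Fin (9 + 2) → (ℝ → ℝ) → ℝ :=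
  ![X1, X2, fun f => (S54.S2 f).re, fun f => (S54.S2 f).im, S54.S0, fun f => (CE 3 f).re, fun f => (CE 3 f).im,
    fun f => (CE 5 f).re, fun f => (CE 5 f).im, fun f => (R1 f).re, fun f => (R1 f).im]

/-- their derivatives -/
def dP11 : Fin (9 + 2) → (ℝ → ℝ) → (ℝ → ℝ) → ℝ :=
  ![dX1, dX2, fun f h => (dS2 f h).re, fun f h => (dS2 f h).im, dS0, fun f h => (dCE 3 f h).re,
    fun f h => (dCE 3 f h).im, fun f h => (dCE 5 f h).re, fun f h => (dCE 5 f h).im, fun f h => (dR1 f h).re,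
    fun f h => (dR1 f h).im]

theorem sys11 : CST.Sys P11 dP11 3 7 := by
  refine sys (n := 9) (ψ := ![fun f => (S54.S2 f).re, fun f => (S54.S2 f).im, S54.S0,
      fun f => (CE 3 f).re, fun f => (CE 3 f).im, fun f => (CE 5 f).re, fun f => (CE 5 f).im,
      fun f => (R1 f).re, fun f => (R1 f).im])
    (dψ := ![fun f h => (dS2 f h).re, fun f h => (dS2 f h).im, dS0, fun f h => (dCE 3 f h).re,
      fun f h => (dCE 3 f h).im, fun f h => (dCE 5 f h).re, fun f h => (dCE 5 f h).im,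
      fun f h => (dR1 f h).re, fun f h => (dR1 f h).im])
    (fun i => ?_) fun i m h0 h1 => ?_
  · fin_cases i
    exacts [fn_S2 Complex.reCLM, fn_S2 Complex.imCLM, fn_S0, fn_CE Complex.reCLM (by norm_num),
      fn_CE Complex.imCLM (by norm_num), fn_CE Complex.reCLM (by norm_num),
      fn_CE Complex.imCLM (by norm_num), fn_R1 Complex.reCLM, fn_R1 Complex.imCLM]
  · fin_cases i
    exacts [bdd_S2 Complex.reCLM h0 h1, bdd_S2 Complex.imCLM h0 h1, bdd_S0 h0 h1,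
      bdd_CE Complex.reCLM (by norm_num) h0 h1, bdd_CE Complex.imCLM (by norm_num) h0 h1,
      bdd_CE Complex.reCLM (by norm_num) h0 h1, bdd_CE Complex.imCLM (by norm_num) h0 h1,
      bdd_R1 Complex.reCLM h0 h1, bdd_R1 Complex.imCLM h0 h1]

theorem cj_C3_11 (f : ℝ → ℝ) : CST.cj 5 6 (CST.cu P11 f) = CE 3 f := rfl

theorem cj_dC3_11 (f h : ℝ → ℝ) : CST.cj 5 6 (CST.du dP11 f h) = dCE 3 f h := rfl

theorem cj_C5_11 (f : ℝ → ℝ) : CST.cj 7 8 (CST.cu P11 f) = CE 5 f := rfl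

theorem cj_dC5_11 (f h : ℝ → ℝ) : CST.cj 7 8 (CST.du dP11 f h) = dCE 5 f h := rfl

theorem cj_R_11 (f : ℝ → ℝ) : CST.cj 9 10 (CST.cu P11 f) = R1 f := rfl

theorem cj_dR_11 (f h : ℝ → ℝ) : CST.cj 9 10 (CST.du dP11 f h) = dR1 f h := rfl

/-- the projection to the first seven coordinates -/
def pj7 : (Fin (9 + 2) → ℝ) →L[ℝ] (Fin (5 + 2) → ℝ) :=
  ContinuousLinearMap.pi fun i => ContinuousLinearMap.proj (Fin.castLE (by norm_num) i)

theorem pj7_apply (u : Fin (9 + 2) → ℝ) (i : Fin (5 + 2)) : pj7 u i = u (Fin.castLE (by norm_num) i) := rfl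

theorem pj7_cu (f : ℝ → ℝ) : pj7 (CST.cu P11 f) = CST.cu P7 f := by
  funext i
  rw [pj7_apply]
  fin_cases i <;> rfl

theorem pj7_du (f h : ℝ → ℝ) : pj7 (CST.du dP11 f h) = CST.du dP7 f h := by
  funext i
  rw [pj7_apply]
  fin_cases i <;> rfl

end Pool.Agent.FPX.SYS
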