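import Mathlib
import Pool.Agent.FPX.OMX
import Pool.Agent.FPX.SYD

/-
OMT (helper8): the closed form of OM7 with the additional terms in `P = conj (C₃) C₅`, `C₅` and the cubic moment
`R = mean (δ³ ε)`, on the system of eleven functionals: its value at a state, in terms of the value of OM7.
-/

open MeasureTheory Set Filter Topology Complex
open scoped ENNReal NNReal ContDiff ComplexConjugate

noncomputable section

namespace Pool.Agent.FPX.OMT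

open Pool.Agent.FPX Pool.Agent.FPX.UMP Pool.Agent.FPX.UMQ Pool.Agent.FPX.UXA Pool.Agent.EWD
open Pool.Agent.FPX.F54 (X1 X2 dX1 dX2 X_lt X_G1 X_G2 vF sF)
open Pool.Agent.FPX.S54 (dS2 dS0 mS Fv ME YY de)
open Pool.Agent.FPX.OMB (vm vm_int vm_prob bm_ep bm_real)
open Pool.Agent.FPX.CRD (Bm)
open Pool.Agent.FPX.CST (cu du dl gv gt nu ja zt ss hh OO cj lab tt)
open Pool.Agent.FPX.OMS (rF cF cF_eq Aa Ba Kc ME_vm Kc_meas Kc_le AB_eq)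
open Pool.Agent.FPX.SYS (P7 dP7 sys7 CE dCE K2 K0 P11 dP11 sys11 R1 dR1 K3 mR nR pj7 pj7_cu pj7_du)
open Pool.Agent.FPX.OM7 (Cof cd NC NS D5 L3 M7 W1 G7 val_G7 mk7 bv Cp Cm)

/-! ### the projection to the first coordinates -/

theorem zt_pj7 (u : Fin (9 + 2) → ℝ) : zt (pj7 u) = zt u := rfl

theorem rr_pj7 (u : Fin (9 + 2) → ℝ) : CST.rr (pj7 u) = CST.rr u := rfl

theorem cc_pj7 (u : Fin (9 + 2) → ℝ) : CST.cc (pj7 u) = CST.cc u := rfl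

theorem vv_pj7 (u p : Fin (9 + 2) → ℝ) : CST.vv (pj7 u) (pj7 p) = CST.vv u p := rfl

theorem ja_pj7 (u p q : Fin (9 + 2) → ℝ) : ja (pj7 u) (pj7 p) (pj7 q) = ja u p q := rfl

theorem OO_pj7 {u : Fin (9 + 2) → ℝ} (hu : u ∈ OO 9) : pj7 u ∈ OO 5 := hu

theorem cd_pj7 {G : (Fin (5 + 2) → ℝ) → ℂ} (hG : ContDiffOn ℝ 1 G (OO 5)) :
    ContDiffOn ℝ 1 (fun u => G (pj7 u)) (OO 9) :=
  hG.comp pj7.contDiff.contDiffOn fun _ hu => OO_pj7 hu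

theorem dl_pj7 {G : (Fin (5 + 2) → ℝ) → ℂ} (hG : ContDiffOn ℝ 1 G (OO 5)) {u : Fin (9 + 2) → ℝ}
    (hu : u ∈ OO 9) (p q : Fin (9 + 2) → ℝ) :
    dl (fun i u => fderiv ℝ (gv (fun u => G (pj7 u)) i) u) u p q =
      dl (fun i u => fderiv ℝ (gv G i) u) (pj7 u) (pj7 p) (pj7 q) := by
  have hGd : HasFDerivAt G (fderiv ℝ G (pj7 u)) (pj7 u) :=
    ((hG.contDiffAt (CST.isOpen_OO.mem_nhds (OO_pj7 hu))).differentiableAt one_ne_zero).hasFDerivAt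
  have hc := hGd.comp u pj7.hasFDerivAt
  have e : ∀ p, fderiv ℝ (fun u => G (pj7 u)) u p = fderiv ℝ G (pj7 u) (pj7 p) := fun p => by
    have h2 : fderiv ℝ (fun u => G (pj7 u)) u p = _ :=
      congrArg (fun L : (Fin (9 + 2) → ℝ) →L[ℝ] ℂ => L p) hc.fderiv
    rw [h2]
    rfl
  rw [CST.dl_gv (cd_pj7 hG) hu, CST.dl_gv hG (OO_pj7 hu), e, e, vv_pj7, vv_pj7, ja_pj7, zt_pj7, cc_pj7]

/-! ### products of two complex coordinates -/

variable {n : ℕ}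

theorem cd_cc (i j k l : Fin (n + 2)) : ContDiff ℝ 1 fun u : Fin (n + 2) → ℝ => cj i j u * conj (cj k l u) :=
  (CST.contDiff_cj i j).mul (CST.contDiff_cjc k l)

theorem cd_cc' (i j k l : Fin (n + 2)) : ContDiff ℝ 1 fun u : Fin (n + 2) → ℝ => conj (cj i j u) * cj k l u :=
  (CST.contDiff_cjc i j).mul (CST.contDiff_cj k l)

theorem fderiv_cc (i j k l : Fin (n + 2)) (u p : Fin (n + 2) → ℝ) :
    fderiv ℝ (fun u : Fin (n + 2) → ℝ => cj i j u * conj (cj k l u)) u p =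
      cj i j p * conj (cj k l u) + cj i j u * conj (cj k l p) := by
  have h1 : HasFDerivAt (cj i j) (fderiv ℝ (cj i j) u) u :=
    (((CST.contDiff_cj i j).differentiable one_ne_zero) u).hasFDerivAt
  have h2 : HasFDerivAt (fun u => conj (cj k l u)) (fderiv ℝ (fun u => conj (cj k l u)) u) u :=
    (((CST.contDiff_cjc k l).differentiable one_ne_zero) u).hasFDerivAt
  have h3 : fderiv ℝ (fun u : Fin (n + 2) → ℝ => cj i j u * conj (cj k l u)) u p = _ :=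
    congrArg (fun L : (Fin (n + 2) → ℝ) →L[ℝ] ℂ => L p) (h1.mul h2).fderiv
  rw [h3]
  simp only [_root_.add_apply, _root_.smul_apply, smul_eq_mul, CST.fderiv_cj, CST.fderiv_cjc]
  ring

theorem fderiv_cc' (i j k l : Fin (n + 2)) (u p : Fin (n + 2) → ℝ) :
    fderiv ℝ (fun u : Fin (n + 2) → ℝ => conj (cj i j u) * cj k l u) u p =
      conj (cj i j p) * cj k l u + conj (cj i j u) * cj k l p := by
  have e : (fun u : Fin (n + 2) → ℝ => conj (cj i j u) * cj k l u) = fun u => cj k l u * conj (cj i j u) := by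
    funext u
    ring
  rw [e, fderiv_cc]
  ring

/-! ### the forms -/

/-- the coefficient functions -/
structure Cof11 where
  C : Cof
  g1 : ℝ → ℝ
  g2 : ℝ → ℝ
  x5 : ℝ → ℝ
  y5 : ℝ → ℝ
  u : ℝ → ℝ
  w : ℝ → ℝ

/-- smoothness -/
structure Cof11.Sm (F : Cof11) : Prop where
  C : F.C.Sm
  g1 : ContDiffOn ℝ 1 F.g1 (Iio 1)
  g2 : ContDiffOn ℝ 1 F.g2 (Iio 1)
  x5 : ContDiffOn ℝ 1 F.x5 (Iio 1)
  y5 : ContDiffOn ℝ 1 F.y5 (Iio 1)
  u : ContDiffOn ℝ 1 F.u (Iio 1)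
  w : ContDiffOn ℝ 1 F.w (Iio 1)

def hA (F : Cof11) (u : Fin (9 + 2) → ℝ) : ℂ := (F.g1 (CST.rr u) : ℂ) * zt u ^ 1 * (cj 5 6 u * conj (cj 7 8 u))

def hB (F : Cof11) (u : Fin (9 + 2) → ℝ) : ℂ :=
  (F.g2 (CST.rr u) : ℂ) * conj (zt u) ^ (2 + 1) * (conj (cj 5 6 u) * cj 7 8 u)

def hX (F : Cof11) (u : Fin (9 + 2) → ℝ) : ℂ := (F.x5 (CST.rr u) : ℂ) * zt u ^ 4 * conj (cj 7 8 u)

def hY (F : Cof11) (u : Fin (9 + 2) → ℝ) : ℂ := (F.y5 (CST.rr u) : ℂ) * conj (zt u) ^ (5 + 1) * cj 7 8 u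

def hU (F : Cof11) (u : Fin (9 + 2) → ℝ) : ℂ := (F.u (CST.rr u) : ℂ) * zt u ^ 0 * conj (cj 9 10 u)

def hV (F : Cof11) (u : Fin (9 + 2) → ℝ) : ℂ := (F.w (CST.rr u) : ℂ) * conj (zt u) ^ (1 + 1) * cj 9 10 u

def hG7 (F : Cof11) (u : Fin (9 + 2) → ℝ) : ℂ := G7 F.C (pj7 u)

/-- the function `G` of the form `Im (G v)` -/
def G11 (F : Cof11) (u : Fin (9 + 2) → ℝ) : ℂ :=
  hG7 F u + (hA F u + (hB F u + (hX F u + (hY F u + (hU F u + hV F u)))))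

variable {F : Cof11}

theorem Cof11.Sm.cG (H : F.Sm) : ContDiffOn ℝ 1 (hG7 F) (OO 9) := cd_pj7 H.C.cG7

theorem Cof11.Sm.cA (H : F.Sm) : ContDiffOn ℝ 1 (hA F) (OO 9) :=
  CST.contDiffOn_spa H.g1 (cd_cc 5 6 7 8).contDiffOn 1

theorem Cof11.Sm.cB (H : F.Sm) : ContDiffOn ℝ 1 (hB F) (OO 9) :=
  CST.contDiffOn_spb H.g2 (cd_cc' 5 6 7 8).contDiffOn (2 + 1)

theorem Cof11.Sm.cX (H : F.Sm) : ContDiffOn ℝ 1 (hX F) (OO 9) :=
  CST.contDiffOn_spa H.x5 (CST.contDiff_cjc 7 8).contDiffOn 4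

theorem Cof11.Sm.cY (H : F.Sm) : ContDiffOn ℝ 1 (hY F) (OO 9) :=
  CST.contDiffOn_spb H.y5 (CST.contDiff_cj 7 8).contDiffOn (5 + 1)

theorem Cof11.Sm.cU (H : F.Sm) : ContDiffOn ℝ 1 (hU F) (OO 9) :=
  CST.contDiffOn_spa H.u (CST.contDiff_cjc 9 10).contDiffOn 0

theorem Cof11.Sm.cV (H : F.Sm) : ContDiffOn ℝ 1 (hV F) (OO 9) :=
  CST.contDiffOn_spb H.w (CST.contDiff_cj 9 10).contDiffOn (1 + 1)

theorem Cof11.Sm.cG11 (H : F.Sm) : ContDiffOn ℝ 1 (G11 F) (OO 9) :=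
  H.cG.add (H.cA.add (H.cB.add (H.cX.add (H.cY.add (H.cU.add H.cV)))))

theorem dl_G11 (H : F.Sm) {u : Fin (9 + 2) → ℝ} (hu : u ∈ OO 9) (p q : Fin (9 + 2) → ℝ) :
    dl (fun i u => fderiv ℝ (gv (G11 F) i) u) u p q =
      dl (fun i u => fderiv ℝ (gv (hG7 F) i) u) u p q + (dl (fun i u => fderiv ℝ (gv (hA F) i) u) u p q
        + (dl (fun i u => fderiv ℝ (gv (hB F) i) u) u p q + (dl (fun i u => fderiv ℝ (gv (hX F) i) u) u p q
        + (dl (fun i u => fderiv ℝ (gv (hY F) i) u) u p q + (dl (fun i u => fderiv ℝ (gv (hU F) i) u) u p q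
          + dl (fun i u => fderiv ℝ (gv (hV F) i) u) u p q))))) := by
  have e1 : G11 F = fun u => hG7 F u
    + (fun u => hA F u + (hB F u + (hX F u + (hY F u + (hU F u + hV F u))))) u := rfl
  rw [e1, CST.dl_gv_add H.cG (H.cA.add (H.cB.add (H.cX.add (H.cY.add (H.cU.add H.cV))))) hu,
    CST.dl_gv_add H.cA (H.cB.add (H.cX.add (H.cY.add (H.cU.add H.cV)))) hu,
    CST.dl_gv_add H.cB (H.cX.add (H.cY.add (H.cU.add H.cV))) hu,
    CST.dl_gv_add H.cX (H.cY.add (H.cU.add H.cV)) hu,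
    CST.dl_gv_add H.cY (H.cU.add H.cV) hu, CST.dl_gv_add H.cU H.cV hu]

/-! ### algebra of the mixed terms -/

section Alg

variable (z vp vq : ℂ) (c : ℝ)

private theorem imI (X z : ℂ) (r : ℝ) : (X + I * (r : ℂ) * z).im = X.im + r * z.re := by
  simp

theorem aQn (φ : ℝ) (κp κq m k S : ℂ) (a : ℕ) (s : ℝ) :
    ((φ : ℂ) * z ^ a * (conj (cd s c z vp (κp + vp * k) m S) * vq
      - conj (cd s c z vq (κq + vq * k) m S) * vp)).im =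
      ((φ : ℂ) * z ^ a * (conj κp * vq - conj κq * vp)).im
        + 2 * φ * (z ^ a * conj k).re * (conj vp * vq).im
        - s * φ / (2 * c) * (conj z ^ (a + 1) * S).re * (conj vp * vq).im := by
  rw [OM7.aQ]
  have V : conj vp * vq - conj vq * vp = 2 * I * (((conj vp * vq).im : ℝ) : ℂ) := by
    apply Complex.ext <;> simp <;> ring
  have e : (φ : ℂ) * z ^ a * (conj (κp + vp * k) * vq - conj (κq + vq * k) * vp) =
      (φ : ℂ) * z ^ a * (conj κp * vq - conj κq * vp)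
        + I * ((2 * φ * (conj vp * vq).im : ℝ) : ℂ) * (z ^ a * conj k) := by
    simp only [map_add, map_mul]
    push_cast
    linear_combination ((φ : ℂ) * z ^ a * conj k) * V
  rw [e, imI]
  ring

theorem aPn (φ r : ℝ) (hr : z * conj z = (r : ℂ)) (κp κq m k S : ℂ) (b : ℕ) (s : ℝ) :
    ((φ : ℂ) * conj z ^ (b + 1) * (cd s c z vp (κp + vp * k) m S * vq
      - cd s c z vq (κq + vq * k) m S * vp)).im =
      ((φ : ℂ) * conj z ^ (b + 1) * (κp * vq - κq * vp)).im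
        + 2 * φ * (conj z ^ (b + 1) * m).re * (conj vp * vq).im
        + s * φ * r / (2 * c) * (conj z ^ b * S).re * (conj vp * vq).im := by
  rw [OM7.aP _ _ _ _ _ _ hr]
  have e : (φ : ℂ) * conj z ^ (b + 1) * ((κp + vp * k) * vq - (κq + vq * k) * vp) =
      (φ : ℂ) * conj z ^ (b + 1) * (κp * vq - κq * vp) := by ring
  rw [e]

end Alg

/-! ### the value at a state -/

/-- `7 conj(ζ) C₇ / (4 c)` -/
def D7 (f : ℝ → ℝ) : ℂ := 7 * conj (YY (X1 f) (X2 f)) * CE 7 f / (4 * (cF f : ℂ))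

/-- `- 3 ζ C₃ / (4 c)` -/
def n5 (f : ℝ → ℝ) : ℂ := -(3 * YY (X1 f) (X2 f) * CE 3 f / (4 * (cF f : ℂ)))

/-- `2 mean (h ε⁵)` -/
def L5 (f h : ℝ → ℝ) : ℂ := C54.Lm 5 (X1 f) (X2 f) h

/-- the covariant derivative of `C₅` -/
def N5 (f h : ℝ → ℝ) : ℂ := cd 5 (cF f) (YY (X1 f) (X2 f)) (vF f h) (L5 f h + vF f h * n5 f) (D7 f) (CE 5 f)

/-- the covariant derivative of `R` -/
def NR (f h : ℝ → ℝ) : ℂ := cd 1 (cF f) (YY (X1 f) (X2 f)) (vF f h) (K3 f h + vF f h * nR f) (mR f) (R1 f)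

/-- `conj (C₃) C₅` -/
def PP (f : ℝ → ℝ) : ℂ := conj (CE 3 f) * CE 5 f

def KP (f h : ℝ → ℝ) : ℂ := conj (L3 f h) * CE 5 f + conj (CE 3 f) * L5 f h

def mP (f : ℝ → ℝ) : ℂ := conj (CE 3 f) * D7 f

def nP (f : ℝ → ℝ) : ℂ := conj (D5 f) * CE 5 f + conj (CE 3 f) * n5 f

/-- the covariant derivative of `P` -/
def NP (f h : ℝ → ℝ) : ℂ := conj (NC f h) * CE 5 f + conj (CE 3 f) * N5 f h

theorem NP_eq (f h : ℝ → ℝ) :
    NP f h = cd 2 (cF f) (YY (X1 f) (X2 f)) (vF f h) (KP f h + vF f h * nP f) (mP f) (PP f) := by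
  unfold NP NC N5 cd KP nP mP PP
  simp only [map_add, map_sub, map_mul, Complex.conj_conj, Complex.conj_ofReal, conj_I]
  push_cast
  ring

theorem e0 : P11 0 = X1 := rfl

theorem e1 : P11 1 = X2 := rfl

theorem d0 : dP11 0 = dX1 := rfl

theorem d1 : dP11 1 = dX2 := rfl

theorem ztu (f : ℝ → ℝ) : CST.zt (cu P11 f) = YY (X1 f) (X2 f) := SYS.zt_cu e0 e1 f

theorem rru (f : ℝ → ℝ) : CST.rr (cu P11 f) = rF f := SYS.rr_cu e0 e1 f

theorem ccu (f : ℝ → ℝ) : CST.cc (cu P11 f) = cF f := (SYS.cc_cu e0 e1 f).trans (cF_eq f)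

theorem vvu (f h : ℝ → ℝ) : CST.vv (cu P11 f) (du dP11 f h) = vF f h := SYS.vv_cu e0 e1 d0 d1 f h

theorem jau (f h k : ℝ → ℝ) : ja (cu P11 f) (du dP11 f h) (du dP11 f k) = (conj (vF f h) * vF f k).im := by
  unfold ja
  rw [vvu, vvu]

theorem hC {f : ℝ → ℝ} (hf : Ef f) (h : ℝ → ℝ) : cj 5 6 (du dP11 f h) = NC f h
    + 3 * I * ((tt (cu P11 f) (du dP11 f h) / (1 + CST.cc (cu P11 f)) : ℝ) : ℂ) * cj 5 6 (cu P11 f) := by
  rw [SYS.cj_dC3_11, SYS.cj_C3_11, SYS.dCE_three hf]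
  unfold NC cd tt L3 D5
  rw [ztu, vvu, ccu, cF_eq]
  have e : Fv f h = vF f h := rfl
  rw [e]
  push_cast
  ring

theorem h5 {f : ℝ → ℝ} (hf : Ef f) (h : ℝ → ℝ) : cj 7 8 (du dP11 f h) = N5 f h
    + 5 * I * ((tt (cu P11 f) (du dP11 f h) / (1 + CST.cc (cu P11 f)) : ℝ) : ℂ) * cj 7 8 (cu P11 f) := by
  rw [SYS.cj_dC5_11, SYS.cj_C5_11, SYS.dCE_five f h hf]
  unfold N5 cd tt L5 D7 n5
  rw [ztu, vvu, ccu, cF_eq]
  have e : Fv f h = vF f h := rfl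
  rw [e]
  push_cast
  ring

theorem hR {f : ℝ → ℝ} (hf : Ef f) (h : ℝ → ℝ) : cj 9 10 (du dP11 f h) = NR f h
    + 1 * I * ((tt (cu P11 f) (du dP11 f h) / (1 + CST.cc (cu P11 f)) : ℝ) : ℂ) * cj 9 10 (cu P11 f) := by
  rw [SYS.cj_dR_11, SYS.cj_R_11, SYS.dR1_eq hf]
  unfold NR cd tt
  rw [ztu, vvu, ccu, cF_eq]
  have e : Fv f h = vF f h := rfl
  rw [e]
  push_cast
  ring

/-- the additional first order functional of the form -/
def MA (F : Cof11) (f g : ℝ → ℝ) : ℂ :=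
  (F.g1 (rF f) : ℂ) * YY (X1 f) (X2 f) ^ 1 * conj (KP f g)
    + (F.g2 (rF f) : ℂ) * conj (YY (X1 f) (X2 f)) ^ (2 + 1) * KP f g
    + (F.x5 (rF f) : ℂ) * YY (X1 f) (X2 f) ^ 4 * conj (L5 f g)
    + (F.y5 (rF f) : ℂ) * conj (YY (X1 f) (X2 f)) ^ (5 + 1) * L5 f g
    + (F.u (rF f) : ℂ) * YY (X1 f) (X2 f) ^ 0 * conj (K3 f g)
    + (F.w (rF f) : ℂ) * conj (YY (X1 f) (X2 f)) ^ (1 + 1) * K3 f g

/-- the additional coefficient of the Jacobian -/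
def WA (F : Cof11) (f : ℝ → ℝ) : ℝ :=
  (2 * cF f * deriv F.g1 (rF f) - F.g1 (rF f) / cF f
      + 2 * cF f * (rF f * deriv F.g2 (rF f) + 3 * F.g2 (rF f)) + rF f * F.g2 (rF f) / cF f)
      * (conj (YY (X1 f) (X2 f)) ^ 2 * PP f).re
    + 2 * F.g1 (rF f) * (YY (X1 f) (X2 f) * conj (nP f)).re
    + 2 * F.g2 (rF f) * (conj (YY (X1 f) (X2 f)) ^ 3 * mP f).re
    + (2 * cF f * deriv F.x5 (rF f) - 5 * F.x5 (rF f) / (2 * cF f)
      + 2 * cF f * (rF f * deriv F.y5 (rF f) + 6 * F.y5 (rF f)) + 5 * rF f * F.y5 (rF f) / (2 * cF f))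
      * (conj (YY (X1 f) (X2 f)) ^ 5 * CE 5 f).re
    + 2 * F.x5 (rF f) * (YY (X1 f) (X2 f) ^ 4 * conj (n5 f)).re
    + 2 * F.y5 (rF f) * (conj (YY (X1 f) (X2 f)) ^ 6 * D7 f).re
    + (2 * cF f * deriv F.u (rF f) - F.u (rF f) / (2 * cF f)
      + 2 * cF f * (rF f * deriv F.w (rF f) + 2 * F.w (rF f)) + rF f * F.w (rF f) / (2 * cF f))
      * (conj (YY (X1 f) (X2 f)) * R1 f).re
    + 2 * F.u (rF f) * (nR f).re
    + 2 * F.w (rF f) * (conj (YY (X1 f) (X2 f)) ^ 2 * mR f).re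

theorem val_G11 (H : F.Sm) {f : ℝ → ℝ} (hf : Ef f) (h k : ℝ → ℝ) :
    dl (fun i u => fderiv ℝ (gv (G11 F) i) u) (cu P11 f) (du dP11 f h) (du dP11 f k) =
      ((M7 F.C f h + MA F f h) * vF f k - (M7 F.C f k + MA F f k) * vF f h).im
        + (W1 F.C f + WA F f) * (conj (vF f h) * vF f k).im := by
  have hu : cu P11 f ∈ OO 9 := sys11.mem hf
  have hr : rF f < 1 := X_lt hf
  have hz : YY (X1 f) (X2 f) * conj (YY (X1 f) (X2 f)) = ((rF f : ℝ) : ℂ) := by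
    rw [Complex.mul_conj]
    simp only [normSq_apply, YY, rF]
    push_cast
    ring
  have dd : ∀ {φ : ℝ → ℝ}, ContDiffOn ℝ 1 φ (Iio 1) → HasDerivAt φ (deriv φ (rF f)) (CST.rr (cu P11 f)) := by
    intro φ hφ
    rw [rru]
    exact ((hφ.contDiffAt (Iio_mem_nhds hr)).differentiableAt one_ne_zero).hasDerivAt
  have c1 : (1 : ℂ) + ((1 : ℕ) : ℂ) = 2 := by push_cast; norm_num
  have c2 : (1 : ℂ) + ((4 : ℕ) : ℂ) = 5 := by push_cast; norm_num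
  have c3 : ((2 : ℕ) : ℂ) = 2 := by push_cast; rfl
  have c4 : ((5 : ℕ) : ℂ) = 5 := by push_cast; rfl
  have c5 : (1 : ℂ) + ((0 : ℕ) : ℂ) = 1 := by push_cast; norm_num
  have c6 : ((1 : ℕ) : ℂ) = 1 := by push_cast; rfl
  have v0 := dl_pj7 H.C.cG7 hu (du dP11 f h) (du dP11 f k)
  rw [pj7_cu, pj7_du, pj7_du, val_G7 H.C hf] at v0
  have fA : ∀ g, fderiv ℝ (fun u : Fin (9 + 2) → ℝ => cj 5 6 u * conj (cj 7 8 u)) (cu P11 f) (du dP11 f g) =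
      conj (NP f g) - (1 + ((1 : ℕ) : ℂ)) * I * ((tt (cu P11 f) (du dP11 f g) / (1 + CST.cc (cu P11 f)) : ℝ) : ℂ)
        * (cj 5 6 (cu P11 f) * conj (cj 7 8 (cu P11 f))) := by
    intro g
    rw [fderiv_cc, hC hf g, h5 hf g, c1]
    unfold NP
    simp only [map_add, map_mul, Complex.conj_conj, Complex.conj_ofReal, conj_I, map_ofNat, SYS.cj_C3_11,
      SYS.cj_C5_11]
    ring
  have fB : ∀ g, fderiv ℝ (fun u : Fin (9 + 2) → ℝ => conj (cj 5 6 u) * cj 7 8 u) (cu P11 f) (du dP11 f g) =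
      NP f g + ((2 : ℕ) : ℂ) * I * ((tt (cu P11 f) (du dP11 f g) / (1 + CST.cc (cu P11 f)) : ℝ) : ℂ)
        * (conj (cj 5 6 (cu P11 f)) * cj 7 8 (cu P11 f)) := by
    intro g
    rw [fderiv_cc', hC hf g, h5 hf g, c3]
    unfold NP
    simp only [map_add, map_mul, Complex.conj_ofReal, conj_I, map_ofNat, SYS.cj_C3_11, SYS.cj_C5_11]
    ring
  have vA := CST.dl_spa hu H.g1 (dd H.g1) (cd_cc 5 6 7 8).contDiffOn 1 (fA h) (fA k)
  have vB := CST.dl_spb hu H.g2 (dd H.g2) (cd_cc' 5 6 7 8).contDiffOn 2 (fB h) (fB k)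
  have vX := CST.dl_fa hu H.x5 (dd H.x5) 4 (j := 7) (k := 8) (Np := N5 f h) (Nq := N5 f k)
    (by rw [c2]; exact h5 hf h) (by rw [c2]; exact h5 hf k)
  have vY := CST.dl_fb hu H.y5 (dd H.y5) 5 (j := 7) (k := 8) (Np := N5 f h) (Nq := N5 f k)
    (by rw [c4]; exact h5 hf h) (by rw [c4]; exact h5 hf k)
  have vU := CST.dl_fa hu H.u (dd H.u) 0 (j := 9) (k := 10) (Np := NR f h) (Nq := NR f k)
    (by rw [c5]; exact hR hf h) (by rw [c5]; exact hR hf k)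
  have vV := CST.dl_fb hu H.w (dd H.w) 1 (j := 9) (k := 10) (Np := NR f h) (Nq := NR f k)
    (by rw [c6]; exact hR hf h) (by rw [c6]; exact hR hf k)
  rw [dl_G11 H hu]
  change _ = _ at v0 vA vB vX vY vU vV
  rw [jau, rru, ztu, vvu, vvu, ccu] at vA vB vX vY vU vV
  rw [SYS.cj_C3_11, SYS.cj_C5_11, NP_eq, NP_eq] at vA vB
  rw [SYS.cj_C5_11] at vX vY
  rw [SYS.cj_R_11] at vU vV
  have tG : dl (fun i u => fderiv ℝ (gv (hG7 F) i) u) (cu P11 f) (du dP11 f h) (du dP11 f k) = _ := v0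
  have tA : dl (fun i u => fderiv ℝ (gv (hA F) i) u) (cu P11 f) (du dP11 f h) (du dP11 f k) = _ := vA
  have tB : dl (fun i u => fderiv ℝ (gv (hB F) i) u) (cu P11 f) (du dP11 f h) (du dP11 f k) = _ := vB
  have tX : dl (fun i u => fderiv ℝ (gv (hX F) i) u) (cu P11 f) (du dP11 f h) (du dP11 f k) = _ := vX
  have tY : dl (fun i u => fderiv ℝ (gv (hY F) i) u) (cu P11 f) (du dP11 f h) (du dP11 f k) = _ := vY
  have tU : dl (fun i u => fderiv ℝ (gv (hU F) i) u) (cu P11 f) (du dP11 f h) (du dP11 f k) = _ := vU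
  have tV : dl (fun i u => fderiv ℝ (gv (hV F) i) u) (cu P11 f) (du dP11 f h) (du dP11 f k) = _ := vV
  rw [tG, tA, tB, tX, tY, tU, tV]
  unfold N5 NR
  rw [aQn, aPn _ _ _ _ _ _ hz, aQn, aPn _ _ _ _ _ _ hz, aQn, aPn _ _ _ _ _ _ hz]
  have q1 : (YY (X1 f) (X2 f) ^ (1 + 1) * (CE 3 f * conj (CE 5 f))).re
      = (conj (YY (X1 f) (X2 f)) ^ 2 * PP f).re := by
    rw [← Complex.conj_re (conj (YY (X1 f) (X2 f)) ^ 2 * PP f)]
    unfold PP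
    simp only [map_mul, map_pow, Complex.conj_conj]
  have q2 : (YY (X1 f) (X2 f) ^ (4 + 1) * conj (CE 5 f)).re = (conj (YY (X1 f) (X2 f)) ^ 5 * CE 5 f).re := by
    rw [← Complex.conj_re (conj (YY (X1 f) (X2 f)) ^ 5 * CE 5 f)]
    simp only [map_mul, map_pow, Complex.conj_conj]
  have q3 : (YY (X1 f) (X2 f) ^ (0 + 1) * conj (R1 f)).re = (conj (YY (X1 f) (X2 f)) * R1 f).re := by
    rw [← Complex.conj_re (conj (YY (X1 f) (X2 f)) * R1 f)]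
    simp only [map_mul, Complex.conj_conj, zero_add, pow_one]
  have q4 : (YY (X1 f) (X2 f) ^ 0 * conj (nR f)).re = (nR f).re := by
    rw [pow_zero, one_mul, Complex.conj_re]
  have q5 : conj (CE 3 f) * CE 5 f = PP f := rfl
  have eM : (M7 F.C f h + MA F f h) * vF f k - (M7 F.C f k + MA F f k) * vF f h =
      (M7 F.C f h * vF f k - M7 F.C f k * vF f h)
      + (F.g1 (rF f) : ℂ) * YY (X1 f) (X2 f) ^ 1 * (conj (KP f h) * vF f k - conj (KP f k) * vF f h)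
      + (F.g2 (rF f) : ℂ) * conj (YY (X1 f) (X2 f)) ^ (2 + 1) * (KP f h * vF f k - KP f k * vF f h)
      + (F.x5 (rF f) : ℂ) * YY (X1 f) (X2 f) ^ 4 * (conj (L5 f h) * vF f k - conj (L5 f k) * vF f h)
      + (F.y5 (rF f) : ℂ) * conj (YY (X1 f) (X2 f)) ^ (5 + 1) * (L5 f h * vF f k - L5 f k * vF f h)
      + (F.u (rF f) : ℂ) * YY (X1 f) (X2 f) ^ 0 * (conj (K3 f h) * vF f k - conj (K3 f k) * vF f h)
      + (F.w (rF f) : ℂ) * conj (YY (X1 f) (X2 f)) ^ (1 + 1) * (K3 f h * vF f k - K3 f k * vF f h) := by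
    unfold MA
    ring
  rw [eM]
  simp only [Complex.add_im]
  unfold WA
  rw [q1, q2, q3, q4, q5]
  push_cast
  simp only [pow_one]
  ring

/-! ### the kernel -/

/-- the additional part of the kernel -/
def mkA (F : Cof11) (f : ℝ → ℝ) (t : ℝ) : ℂ :=
  (F.g1 (rF f) : ℂ) * YY (X1 f) (X2 f) * conj (CE 5 f) * C54.ep (X1 f) (X2 f) t ^ 3
    + (F.g2 (rF f) : ℂ) * conj (YY (X1 f) (X2 f)) ^ 3 * CE 5 f * conj (C54.ep (X1 f) (X2 f) t) ^ 3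
    + ((F.g1 (rF f) : ℂ) * YY (X1 f) (X2 f) * CE 3 f + (F.x5 (rF f) : ℂ) * YY (X1 f) (X2 f) ^ 4)
      * conj (C54.ep (X1 f) (X2 f) t) ^ 5
    + ((F.g2 (rF f) : ℂ) * conj (YY (X1 f) (X2 f)) ^ 3 * conj (CE 3 f)
      + (F.y5 (rF f) : ℂ) * conj (YY (X1 f) (X2 f)) ^ 6) * C54.ep (X1 f) (X2 f) t ^ 5
    + 3 / 2 * (de (X1 f) (X2 f) f t : ℂ) ^ 2 * ((F.u (rF f) : ℂ) * conj (C54.ep (X1 f) (X2 f) t)
      + (F.w (rF f) : ℂ) * conj (YY (X1 f) (X2 f)) ^ 2 * C54.ep (X1 f) (X2 f) t)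

/-- the kernel of the mixed part -/
def mk11 (F : Cof11) (f : ℝ → ℝ) (t : ℝ) : ℂ := mk7 F.C f t + mkA F f t

theorem bm_mkA {f : ℝ → ℝ} (hf : Ef f) : Bm (mkA F f) := by
  have bE := bm_ep (X_lt hf)
  have bd := OM7.bm_de hf
  have bE3 := OM7.bm_pow bE 3
  have bE5 := OM7.bm_pow bE 5
  have bc3 : Bm fun t => conj (C54.ep (X1 f) (X2 f) t) ^ 3 := OM7.bm_pow bE.conj 3
  have bc5 : Bm fun t => conj (C54.ep (X1 f) (X2 f) t) ^ 5 := OM7.bm_pow bE.conj 5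
  have bd2 := OM7.bm_pow bd 2
  exact (((((Bm.const _).mul bE3).add ((Bm.const _).mul bc3)).add ((Bm.const _).mul bc5)).add
    ((Bm.const _).mul bE5)).add (((Bm.const _).mul bd2).mul (((Bm.const _).mul bE.conj).add
      ((Bm.const _).mul bE)))

theorem bm_mk11 {f : ℝ → ℝ} (hf : Ef f) : Bm (mk11 F f) := (OM7.bm_mk hf).add (bm_mkA hf)

theorem L5_vm {f g : ℝ → ℝ} (hf : Ef f) :
    L5 f g = 2 * ∫ t, C54.ep (X1 f) (X2 f) t ^ 5 * (g t : ℂ) ∂(vm (X1 f) (X2 f)) := by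
  unfold L5
  rw [S54.Lm_eq (X_lt hf)]
  have := ME_vm (X_lt hf) 5 g
  rw [this]
  congr 1
  refine integral_congr_ae (Eventually.of_forall fun t => ?_)
  exact mul_comm _ _

theorem K3_vm {f : ℝ → ℝ} (hf : Ef f) (g : ℝ → ℝ) : K3 f g =
    3 * ∫ t, ((de (X1 f) (X2 f) f t : ℂ) ^ 2 * C54.ep (X1 f) (X2 f) t) * (g t : ℂ) ∂(vm (X1 f) (X2 f)) := by
  have := ME_vm (X_lt hf) 1 (fun t => de (X1 f) (X2 f) f t ^ 2 * g t)
  push_cast at this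
  unfold K3
  rw [this]
  congr 1
  refine integral_congr_ae (Eventually.of_forall fun t => ?_)
  simp only
  ring

theorem MA_int {f g : ℝ → ℝ} (hf : Ef f) (hg : Measurable g) (hb : ∀ t, |g t| ≤ 1) :
    MA F f g = ∫ t, (2 * mkA F f t) * (g t : ℂ) ∂(vm (X1 f) (X2 f)) := by
  have hX := X_lt hf
  have := vm_prob hX
  have bE := bm_ep hX
  have bd := OM7.bm_de hf
  have bg : Bm fun t => (g t : ℂ) := bm_real hg hb
  have bd2 := OM7.bm_pow bd 2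
  have b3 : Bm fun t => C54.ep (X1 f) (X2 f) t ^ 3 * (g t : ℂ) := (OM7.bm_pow bE 3).mul bg
  have b5 : Bm fun t => C54.ep (X1 f) (X2 f) t ^ 5 * (g t : ℂ) := (OM7.bm_pow bE 5).mul bg
  have b1 : Bm fun t => ((de (X1 f) (X2 f) f t : ℂ) ^ 2 * C54.ep (X1 f) (X2 f) t) * (g t : ℂ) :=
    (bd2.mul bE).mul bg
  have cj1 : ∀ {φ : ℝ → ℂ}, ∫ t, conj (φ t) ∂(vm (X1 f) (X2 f)) = conj (∫ t, φ t ∂(vm (X1 f) (X2 f))) :=
    integral_conj
  obtain ⟨a3, ha3⟩ : ∃ a : ℂ, a = 2 * (F.g1 (rF f) : ℂ) * YY (X1 f) (X2 f) * conj (CE 5 f) := ⟨_, rfl⟩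
  obtain ⟨c3, hc3⟩ : ∃ a : ℂ, a = 2 * (F.g2 (rF f) : ℂ) * conj (YY (X1 f) (X2 f)) ^ 3 * CE 5 f := ⟨_, rfl⟩
  obtain ⟨c5, hc5⟩ : ∃ a : ℂ, a = 2 * ((F.g1 (rF f) : ℂ) * YY (X1 f) (X2 f) * CE 3 f
    + (F.x5 (rF f) : ℂ) * YY (X1 f) (X2 f) ^ 4) := ⟨_, rfl⟩
  obtain ⟨a5, ha5⟩ : ∃ a : ℂ, a = 2 * ((F.g2 (rF f) : ℂ) * conj (YY (X1 f) (X2 f)) ^ 3 * conj (CE 3 f)
    + (F.y5 (rF f) : ℂ) * conj (YY (X1 f) (X2 f)) ^ 6) := ⟨_, rfl⟩
  obtain ⟨c1, hc1⟩ : ∃ a : ℂ, a = 3 * (F.u (rF f) : ℂ) := ⟨_, rfl⟩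
  obtain ⟨a1, ha1⟩ : ∃ a : ℂ, a = 3 * (F.w (rF f) : ℂ) * conj (YY (X1 f) (X2 f)) ^ 2 := ⟨_, rfl⟩
  have e : (fun t => (2 * mkA F f t) * (g t : ℂ)) = fun t =>
      a3 * (C54.ep (X1 f) (X2 f) t ^ 3 * (g t : ℂ)) + (c3 * conj (C54.ep (X1 f) (X2 f) t ^ 3 * (g t : ℂ))
      + (c5 * conj (C54.ep (X1 f) (X2 f) t ^ 5 * (g t : ℂ)) + (a5 * (C54.ep (X1 f) (X2 f) t ^ 5 * (g t : ℂ))
      + (c1 * conj (((de (X1 f) (X2 f) f t : ℂ) ^ 2 * C54.ep (X1 f) (X2 f) t) * (g t : ℂ))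
      + a1 * (((de (X1 f) (X2 f) f t : ℂ) ^ 2 * C54.ep (X1 f) (X2 f) t) * (g t : ℂ)))))) := by
    funext t
    rw [ha3, hc3, hc5, ha5, hc1, ha1]
    unfold mkA
    simp only [map_mul, map_pow, Complex.conj_ofReal]
    ring
  have i6 := ((Bm.const (X := ℝ) c1).mul b1.conj).add ((Bm.const a1).mul b1)
  have i5 := ((Bm.const (X := ℝ) a5).mul b5).add i6
  have i4 := ((Bm.const (X := ℝ) c5).mul b5.conj).add i5
  have i3 := ((Bm.const (X := ℝ) c3).mul b3.conj).add i4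
  rw [e, integral_add ((Bm.const _).mul b3).int i3.int, integral_add ((Bm.const _).mul b3.conj).int i4.int,
    integral_add ((Bm.const _).mul b5.conj).int i5.int, integral_add ((Bm.const _).mul b5).int i6.int,
    integral_add ((Bm.const _).mul b1.conj).int ((Bm.const _).mul b1).int, integral_const_mul,
    integral_const_mul, integral_const_mul, integral_const_mul, integral_const_mul, integral_const_mul,
    cj1, cj1, cj1]
  unfold MA KP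
  rw [OM7.L3_vm hf, L5_vm hf, K3_vm hf, ha3, hc3, hc5, ha5, hc1, ha1]
  simp only [map_add, map_mul, Complex.conj_conj, map_ofNat]
  ring

theorem mix {f h k : ℝ → ℝ} (hf : Ef f) (V : Var h k) :
    ((M7 F.C f h + MA F f h) * vF f k - (M7 F.C f k + MA F f k) * vF f h).im =
      2 * (Aa f h k * ∫ t, mk11 F f t * Kc h k t ∂(vm (X1 f) (X2 f))).re
        - 2 * (Ba f h k * ∫ t, mk11 F f t * conj (Kc h k t) ∂(vm (X1 f) (X2 f))).re := by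
  have hX := X_lt hf
  have := vm_prob hX
  have i : ∀ g : ℝ → ℝ, Measurable g → (∀ t, |g t| ≤ 1) →
      M7 F.C f g + MA F f g = ∫ t, (2 * mk11 F f t) * (g t : ℂ) ∂(vm (X1 f) (X2 f)) := by
    intro g hg hb
    have bg : Bm fun t => (g t : ℂ) := bm_real hg hb
    rw [OM7.M7_int hf hg hb, MA_int hf hg hb, ← integral_add
      (((Bm.const 2).mul (OM7.bm_mk hf)).mul bg).int (((Bm.const 2).mul (bm_mkA hf)).mul bg).int]
    congr 1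
    funext t
    unfold mk11
    ring
  rw [i h V.mesh V.bh, i k V.mesk V.bk]
  have b2 : Bm fun t => 2 * mk11 F f t := (Bm.const 2).mul (bm_mk11 hf)
  have key := CST.pol (μ := vm (X1 f) (X2 f)) b2 (bm_real V.mesh V.bh) (bm_real V.mesk V.bk)
    (fun t => Complex.ofReal_im _) (fun t => Complex.ofReal_im _) (vF f h) (vF f k)
  rw [key]
  have e1 : ∫ t, (2 * mk11 F f t) * ((h t : ℂ) + I * (k t : ℂ)) ∂(vm (X1 f) (X2 f)) =
      2 * ∫ t, mk11 F f t * Kc h k t ∂(vm (X1 f) (X2 f)) := by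
    rw [← integral_const_mul]
    congr 1
    funext t
    unfold Kc
    ring
  have e2 : ∫ t, (2 * mk11 F f t) * conj ((h t : ℂ) + I * (k t : ℂ)) ∂(vm (X1 f) (X2 f)) =
      2 * ∫ t, mk11 F f t * conj (Kc h k t) ∂(vm (X1 f) (X2 f)) := by
    rw [← integral_const_mul]
    congr 1
    funext t
    unfold Kc
    ring
  rw [e1, e2]
  have e3 : ∀ a b : ℂ, (a * (2 * b)).re = 2 * (a * b).re := fun a b => by
    rw [show a * (2 * b) = ((2 : ℝ) : ℂ) * (a * b) by push_cast; ring, Complex.re_ofReal_mul]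
  rw [e3, e3]
  rfl

/-! ### the term `Im (conj C₃ ∇C₃)` -/

theorem val_b (H : F.Sm) {f h k : ℝ → ℝ} (hf : Ef f) (V : Var h k) :
    dl (fun i u => fderiv ℝ (lab 3 F.C.b 5 6 i) u) (cu P11 f) (du dP11 f h) (du dP11 f k) =
      bv F.C f (Aa f h k) (Ba f h k)
        (Cp f (Aa f h k) (Ba f h k)
          (∫ t, C54.ep (X1 f) (X2 f) t ^ 3 * conj (Kc h k t) ∂(vm (X1 f) (X2 f))))
        (Cm f (Aa f h k) (Ba f h k)
          (∫ t, C54.ep (X1 f) (X2 f) t ^ 3 * Kc h k t ∂(vm (X1 f) (X2 f)))) := by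
  have hu : cu P11 f ∈ OO 9 := sys11.mem hf
  have hr : rF f < 1 := X_lt hf
  have hb : HasDerivAt F.C.b (deriv F.C.b (rF f)) (CST.rr (cu P11 f)) := by
    rw [rru]
    exact ((H.C.b.contDiffAt (Iio_mem_nhds hr)).differentiableAt one_ne_zero).hasDerivAt
  have c5 : ((3 : ℝ) : ℂ) = 3 := by push_cast; rfl
  rw [CST.dl_lab hu H.C.b hb (s := 3) (j := 5) (k := 6) (Np := NC f h) (Nq := NC f k)
    (by rw [c5]; exact hC hf h) (by rw [c5]; exact hC hf k)]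
  obtain ⟨p1, p2⟩ := OM7.NC_pm hf V
  rw [rru, ccu, ztu, vvu, vvu, jau, SYS.cj_C3_11, CST.pol2, CST.pol3, CST.pol3, p1, p2, Complex.conj_conj,
    Complex.conj_conj]
  unfold bv Aa Ba
  ring

/-! ### the certificate -/

/-- the coefficient of the Jacobian -/
def W11 (W : ℝ → ℝ) (F : Cof11) (f : ℝ → ℝ) : ℝ := OM7.W7 W F.C f + WA F f

/-- the certificate at one state, with the deviation `Bx` -/
def CertAt11 (Bx : OM7.Dev) (W : ℝ → ℝ) (F : Cof11) (μ T : ℝ) (f : ℝ → ℝ) : Prop :=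
  ∀ K : ℝ → ℂ, Measurable K → (∀ t, ‖K t‖ ≤ 1) → ∀ A B : ℂ,
    A - sF f * conj B = ∫ t, C54.ep (X1 f) (X2 f) t * conj (K t) ∂(vm (X1 f) (X2 f)) →
    B - sF f * conj A = ∫ t, C54.ep (X1 f) (X2 f) t * K t ∂(vm (X1 f) (X2 f)) →
    W11 W F f * (‖A‖ ^ 2 - ‖B‖ ^ 2)
      + 2 * (A * ∫ t, mk11 F f t * K t ∂(vm (X1 f) (X2 f))).re
      - 2 * (B * ∫ t, mk11 F f t * conj (K t) ∂(vm (X1 f) (X2 f))).re
      + bv F.C f A B (Cp f A B (∫ t, C54.ep (X1 f) (X2 f) t ^ 3 * conj (K t) ∂(vm (X1 f) (X2 f))))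
          (Cm f A B (∫ t, C54.ep (X1 f) (X2 f) t ^ 3 * K t ∂(vm (X1 f) (X2 f))))
      + 2 * μ * ‖OM7.devK Bx f K A B‖ ^ 2 ≤ T

/-- **the certificate with the deviation `Bx`** -/
def Cert11 (Bx : OM7.Dev) (W : ℝ → ℝ) (F : Cof11) (μ T : ℝ) : Prop := ∀ f, Ef f → CertAt11 Bx W F μ T f

variable {n' : ℕ} {Φ' : Fin (n' + 2) → (ℝ → ℝ) → ℝ} {dΦ' : Fin (n' + 2) → (ℝ → ℝ) → (ℝ → ℝ) → ℝ} {K' L' : ℝ}

theorem hst_of {Bx : OM7.Dev} (HD : OM7.IsDev Φ' dΦ' Bx) {W : ℝ → ℝ} (hW : ContDiffOn ℝ 1 W (Ioi 0))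
    (HF : F.Sm) {μ T : ℝ} (H : Cert11 Bx W F μ T) {f h k : ℝ → ℝ} (hf : Ef f) (V : Var h k) :
    dl (fun i u => fderiv ℝ (gv (gt W (G11 F)) i) u) (cu P11 f) (du dP11 f h) (du dP11 f k)
      + dl (fun i u => fderiv ℝ (lab 3 F.C.b 5 6 i) u) (cu P11 f) (du dP11 f h) (du dP11 f k)
      + μ * nu (cu Φ' f) (du dΦ' f h) (du dΦ' f k) ≤ T := by
  have hu : cu P11 f ∈ OO 9 := sys11.mem hf
  have hc : 0 < cF f := OM7.cF_pos hf
  have hW' : HasDerivAt W (deriv W (cF f)) (CST.cc (cu P11 f)) := by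
    rw [ccu]
    exact ((hW.contDiffAt (Ioi_mem_nhds hc)).differentiableAt one_ne_zero).hasDerivAt
  rw [CST.dl_gt hW HF.cG11 hu hW', val_G11 HF hf, val_b HF hf V, HD f h k hf V, mix hf V, jau, OM7.jab, rru,
    ccu]
  obtain ⟨e1, e2⟩ := AB_eq hf V
  have := H f hf (Kc h k) (Kc_meas V) (Kc_le V) _ _ e1 e2
  unfold W11 OM7.W7 OM7.devK at this
  rw [(OM7.NC_pm hf V).1, (OM7.NC_pm hf V).2, (OM7.NS_pm hf V).1, (OM7.NS_pm hf V).2, OM7.K0_pm hf V]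
  linarith

end Pool.Agent.FPX.OMT
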