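import Mathlib
import Pool.Agent.FPX.SYD

/-
SYE (helper8): the system of the thirteen functionals `X, Y, Re S₂, Im S₂, S₀, Re C₃, Im C₃, Re C₅, Im C₅, Re R, Im R,
Re S₄, Im S₄` of the map F54.
-/

open MeasureTheory Set Filter Topology
open scoped ENNReal NNReal ComplexConjugate

noncomputable section

namespace Pool.Agent.FPX.SYS

open Real Pool.Agent.FPX.UMP Pool.Agent.FPX.UMQ Pool.Agent.FPX.UXA
open Pool.Agent.FPX.F54 (pr X1 X2 dX1 dX2 X_lt X_der umap fn_X1 fn_X2 SM dSM fn_SM bdd_SM)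
open Pool.Agent.FPX.S54 (cc YY vt KK ME de Sn MM_eq ME_neg Sn_neg Fv mS dS2 dS0 ME_one_F)

/-- `2 mean (δ h ε⁴)` -/
def K4 (f h : ℝ → ℝ) : ℂ := 2 * ME 4 (X1 f) (X2 f) fun t => de (X1 f) (X2 f) f t * h t

/-- the coefficient of `conj v` in the derivative of `S₄` -/
def m4 (f : ℝ → ℝ) : ℂ :=
  -(CE 5 f / 2) + 6 * conj (YY (X1 f) (X2 f)) * SE 6 f / (4 * (cc (X1 f) (X2 f) : ℂ))

/-- the coefficient of `v` in the derivative of `S₄` -/
def n4 (f : ℝ → ℝ) : ℂ :=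
  -(CE 3 f / 2) - 2 * YY (X1 f) (X2 f) * S54.S2 f / (4 * (cc (X1 f) (X2 f) : ℂ))

theorem dS4_eq {f : ℝ → ℝ} (hf : Ef f) (h : ℝ → ℝ) : dSE 4 f h = K4 f h + conj (Fv f h) * m4 f + Fv f h * n4 f
    + 4 * Complex.I * (((conj (YY (X1 f) (X2 f)) * Fv f h).im
      * (1 / (1 + cc (X1 f) (X2 f)) - 1 / (2 * cc (X1 f) (X2 f))) : ℝ) : ℂ) * SE 4 f := by
  have hc0 := S54.cc_pos (X_lt hf)
  have hc' : (cc (X1 f) (X2 f) : ℂ) ≠ 0 := Complex.ofReal_ne_zero.2 hc0.ne'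
  have e1 : (4 : ℤ) - 1 = 3 := rfl
  have e2 : (4 : ℤ) + 1 = 5 := rfl
  have e3 : (4 : ℤ) + 2 = 6 := rfl
  have e4 : (4 : ℤ) - 2 = 2 := rfl
  have h3 : ME 3 (X1 f) (X2 f) (de (X1 f) (X2 f) f) = CE 3 f / 2 := by
    have := CE_ME hf 3
    rw [this]
    push_cast
    ring
  have h5 : ME 5 (X1 f) (X2 f) (de (X1 f) (X2 f) f) = CE 5 f / 2 := by
    have := CE_ME hf 5
    rw [this]
    push_cast
    ring
  unfold dSE K4 m4 n4
  rw [e1, e2, e3, e4, h3, h5, im_eq, S2_eq]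
  push_cast
  field_simp
  ring

/-- `F54`, `S₂`, `S₀`, `C₃`, `C₅`, `R`, `S₄` -/
def P13 : Fin (11 + 2) → (ℝ → ℝ) → ℝ :=
  ![X1, X2, fun f => (S54.S2 f).re, fun f => (S54.S2 f).im, S54.S0, fun f => (CE 3 f).re, fun f => (CE 3 f).im,
    fun f => (CE 5 f).re, fun f => (CE 5 f).im, fun f => (R1 f).re, fun f => (R1 f).im,
    fun f => (SE 4 f).re, fun f => (SE 4 f).im]

/-- their derivatives -/
def dP13 : Fin (11 + 2) → (ℝ → ℝ) → (ℝ → ℝ) → ℝ :=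
  ![dX1, dX2, fun f h => (dS2 f h).re, fun f h => (dS2 f h).im, dS0, fun f h => (dCE 3 f h).re,
    fun f h => (dCE 3 f h).im, fun f h => (dCE 5 f h).re, fun f h => (dCE 5 f h).im, fun f h => (dR1 f h).re,
    fun f h => (dR1 f h).im, fun f h => (dSE 4 f h).re, fun f h => (dSE 4 f h).im]

theorem sys13 : CST.Sys P13 dP13 3 7 := by
  refine sys (n := 11) (ψ := ![fun f => (S54.S2 f).re, fun f => (S54.S2 f).im, S54.S0,
      fun f => (CE 3 f).re, fun f => (CE 3 f).im, fun f => (CE 5 f).re, fun f => (CE 5 f).im,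
      fun f => (R1 f).re, fun f => (R1 f).im, fun f => (SE 4 f).re, fun f => (SE 4 f).im])
    (dψ := ![fun f h => (dS2 f h).re, fun f h => (dS2 f h).im, dS0, fun f h => (dCE 3 f h).re,
      fun f h => (dCE 3 f h).im, fun f h => (dCE 5 f h).re, fun f h => (dCE 5 f h).im,
      fun f h => (dR1 f h).re, fun f h => (dR1 f h).im, fun f h => (dSE 4 f h).re, fun f h => (dSE 4 f h).im])
    (fun i => ?_) fun i m h0 h1 => ?_
  · fin_cases i
    exacts [fn_S2 Complex.reCLM, fn_S2 Complex.imCLM, fn_S0, fn_CE Complex.reCLM (by norm_num),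
      fn_CE Complex.imCLM (by norm_num), fn_CE Complex.reCLM (by norm_num),
      fn_CE Complex.imCLM (by norm_num), fn_R1 Complex.reCLM, fn_R1 Complex.imCLM,
      fn_SE Complex.reCLM 4, fn_SE Complex.imCLM 4]
  · fin_cases i
    exacts [bdd_S2 Complex.reCLM h0 h1, bdd_S2 Complex.imCLM h0 h1, bdd_S0 h0 h1,
      bdd_CE Complex.reCLM (by norm_num) h0 h1, bdd_CE Complex.imCLM (by norm_num) h0 h1,
      bdd_CE Complex.reCLM (by norm_num) h0 h1, bdd_CE Complex.imCLM (by norm_num) h0 h1,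
      bdd_R1 Complex.reCLM h0 h1, bdd_R1 Complex.imCLM h0 h1, bdd_SE Complex.reCLM 4 h0 h1,
      bdd_SE Complex.imCLM 4 h0 h1]

theorem cj_C3_13 (f : ℝ → ℝ) : CST.cj 5 6 (CST.cu P13 f) = CE 3 f := rfl

theorem cj_dC3_13 (f h : ℝ → ℝ) : CST.cj 5 6 (CST.du dP13 f h) = dCE 3 f h := rfl

theorem cj_C5_13 (f : ℝ → ℝ) : CST.cj 7 8 (CST.cu P13 f) = CE 5 f := rfl

theorem cj_dC5_13 (f h : ℝ → ℝ) : CST.cj 7 8 (CST.du dP13 f h) = dCE 5 f h := rfl

theorem cj_S4_13 (f : ℝ → ℝ) : CST.cj 11 12 (CST.cu P13 f) = SE 4 f := rfl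

theorem cj_dS4_13 (f h : ℝ → ℝ) : CST.cj 11 12 (CST.du dP13 f h) = dSE 4 f h := rfl

/-- the projection to the first eleven coordinates -/
def pj11 : (Fin (11 + 2) → ℝ) →L[ℝ] (Fin (9 + 2) → ℝ) :=
  ContinuousLinearMap.pi fun i => ContinuousLinearMap.proj (Fin.castLE (by norm_num) i)

theorem pj11_apply (u : Fin (11 + 2) → ℝ) (i : Fin (9 + 2)) : pj11 u i = u (Fin.castLE (by norm_num) i) := rfl

theorem pj11_cu (f : ℝ → ℝ) : pj11 (CST.cu P13 f) = CST.cu P11 f := by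
  funext i
  rw [pj11_apply]
  fin_cases i <;> rfl

theorem pj11_du (f h : ℝ → ℝ) : pj11 (CST.du dP13 f h) = CST.du dP11 f h := by
  funext i
  rw [pj11_apply]
  fin_cases i <;> rfl

end Pool.Agent.FPX.SYS
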