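import Mathlib
import Pool.Agent.FPX.OMG
import Pool.Agent.FPX.OMT
import Pool.Agent.FPX.SYE

/-
OMY (helper8): the pair of `S₄ = mean (δ² ε⁴)` : the system, the value at a state, the kernel, the boundary.
-/

open MeasureTheory Set Filter Topology Complex
open scoped ENNReal NNReal ContDiff ComplexConjugate

noncomputable section

namespace Pool.Agent.FPX.OMY

open Pool.Agent.FPX Pool.Agent.FPX.UMP Pool.Agent.FPX.UMQ Pool.Agent.FPX.UXA Pool.Agent.EWD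
open Pool.Agent.FPX.F54 (X1 X2 dX1 dX2 X_lt X_G1 X_G2 vF sF)
open Pool.Agent.FPX.S54 (dS2 dS0 mS Fv ME YY de)
open Pool.Agent.FPX.OMB (vm vm_int vm_prob bm_ep bm_real)
open Pool.Agent.FPX.CRD (Bm)
open Pool.Agent.FPX.OMS (rF cF cF_eq Aa Ba Kc ME_vm Kc_meas Kc_le AB_eq)
open Pool.Agent.FPX.SYS (P7 dP7 sys7 CE dCE K2 K0 SE dSE K4 m4 n4 dS4_eq)
open Pool.Agent.FPX.CST (cu du dl gv gt nu ja zt ss hh OO cj lab tt Sys  isOpen_OO dl_gv dl_gv_add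
  contDiffOn_spa contDiffOn_spb contDiff_cj contDiff_cjc)
open Pool.Agent.FPX.OM7
open Pool.Agent.FPX.OMG (P9 dP9 sys9 D7 E3 L5 NC5 zz)

/-! ### the system -/

/-- `F54`, `S₂`, `S₀`, `C₃`, `C₅`, `S₄` -/
def PS : Fin (9 + 2) → (ℝ → ℝ) → ℝ :=
  ![X1, X2, fun f => (S54.S2 f).re, fun f => (S54.S2 f).im, S54.S0, fun f => (CE 3 f).re, fun f => (CE 3 f).im,
    fun f => (CE 5 f).re, fun f => (CE 5 f).im, fun f => (SE 4 f).re, fun f => (SE 4 f).im]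

/-- their derivatives -/
def dPS : Fin (9 + 2) → (ℝ → ℝ) → (ℝ → ℝ) → ℝ :=
  ![dX1, dX2, fun f h => (dS2 f h).re, fun f h => (dS2 f h).im, dS0, fun f h => (dCE 3 f h).re,
    fun f h => (dCE 3 f h).im, fun f h => (dCE 5 f h).re, fun f h => (dCE 5 f h).im,
    fun f h => (dSE 4 f h).re, fun f h => (dSE 4 f h).im]

theorem sysS : Sys PS dPS 3 7 := by
  refine SYS.sys (n := 9) (ψ := ![fun f => (S54.S2 f).re, fun f => (S54.S2 f).im, S54.S0,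
      fun f => (CE 3 f).re, fun f => (CE 3 f).im, fun f => (CE 5 f).re, fun f => (CE 5 f).im,
      fun f => (SE 4 f).re, fun f => (SE 4 f).im])
    (dψ := ![fun f h => (dS2 f h).re, fun f h => (dS2 f h).im, dS0, fun f h => (dCE 3 f h).re,
      fun f h => (dCE 3 f h).im, fun f h => (dCE 5 f h).re, fun f h => (dCE 5 f h).im,
      fun f h => (dSE 4 f h).re, fun f h => (dSE 4 f h).im]) (fun i => ?_)
      fun i m h0 h1 => ?_
  · fin_cases i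
    exacts [SYS.fn_S2 Complex.reCLM, SYS.fn_S2 Complex.imCLM, SYS.fn_S0, SYS.fn_CE Complex.reCLM (by norm_num),
      SYS.fn_CE Complex.imCLM (by norm_num), SYS.fn_CE Complex.reCLM (by norm_num),
      SYS.fn_CE Complex.imCLM (by norm_num), SYS.fn_SE Complex.reCLM 4, SYS.fn_SE Complex.imCLM 4]
  · fin_cases i
    exacts [SYS.bdd_S2 Complex.reCLM h0 h1, SYS.bdd_S2 Complex.imCLM h0 h1, SYS.bdd_S0 h0 h1,
      SYS.bdd_CE Complex.reCLM (by norm_num) h0 h1, SYS.bdd_CE Complex.imCLM (by norm_num) h0 h1,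
      SYS.bdd_CE Complex.reCLM (by norm_num) h0 h1, SYS.bdd_CE Complex.imCLM (by norm_num) h0 h1,
      SYS.bdd_SE Complex.reCLM 4 h0 h1, SYS.bdd_SE Complex.imCLM 4 h0 h1]

theorem e0 : PS 0 = X1 := rfl

theorem e1 : PS 1 = X2 := rfl

theorem d0 : dPS 0 = dX1 := rfl

theorem d1 : dPS 1 = dX2 := rfl

theorem ztu (f : ℝ → ℝ) : zt (cu PS f) = YY (X1 f) (X2 f) := SYS.zt_cu e0 e1 f

theorem rru (f : ℝ → ℝ) : CST.rr (cu PS f) = rF f := SYS.rr_cu e0 e1 f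

theorem ccu (f : ℝ → ℝ) : CST.cc (cu PS f) = cF f := (SYS.cc_cu e0 e1 f).trans (cF_eq f)

theorem vvu (f h : ℝ → ℝ) : CST.vv (cu PS f) (du dPS f h) = vF f h := SYS.vv_cu e0 e1 d0 d1 f h

theorem jau (f h k : ℝ → ℝ) : ja (cu PS f) (du dPS f h) (du dPS f k) = (conj (vF f h) * vF f k).im := by
  unfold ja
  rw [vvu, vvu]

theorem cj3 (f : ℝ → ℝ) : cj 5 6 (cu PS f) = CE 3 f := rfl

theorem cjd3 (f h : ℝ → ℝ) : cj 5 6 (du dPS f h) = dCE 3 f h := rfl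

theorem cj5 (f : ℝ → ℝ) : cj 7 8 (cu PS f) = CE 5 f := rfl

theorem cjd5 (f h : ℝ → ℝ) : cj 7 8 (du dPS f h) = dCE 5 f h := rfl

theorem cj4 (f : ℝ → ℝ) : cj 9 10 (cu PS f) = SE 4 f := rfl

theorem cjd4 (f h : ℝ → ℝ) : cj 9 10 (du dPS f h) = dSE 4 f h := rfl

/-! ### pull back of the forms on `Fin (7 + 2)` -/

/-- the projection -/
def pr : (Fin (9 + 2) → ℝ) →L[ℝ] (Fin (7 + 2) → ℝ) :=
  ContinuousLinearMap.pi fun i => ContinuousLinearMap.proj (Fin.castLE (by norm_num) i)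

theorem pr_ap (u : Fin (9 + 2) → ℝ) (i : Fin (7 + 2)) : pr u i = u (Fin.castLE (by norm_num) i) := rfl

theorem pr_cu (f : ℝ → ℝ) : pr (cu PS f) = cu P9 f := by
  funext i
  rw [pr_ap]
  fin_cases i <;> rfl

theorem pr_du (f h : ℝ → ℝ) : pr (du dPS f h) = du dP9 f h := by
  funext i
  rw [pr_ap]
  fin_cases i <;> rfl

theorem zt_pr (u : Fin (9 + 2) → ℝ) : zt (pr u) = zt u := rfl

theorem rr_pr (u : Fin (9 + 2) → ℝ) : CST.rr (pr u) = CST.rr u := rfl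

theorem cc_pr (u : Fin (9 + 2) → ℝ) : CST.cc (pr u) = CST.cc u := rfl

theorem vv_pr (u p : Fin (9 + 2) → ℝ) : CST.vv (pr u) (pr p) = CST.vv u p := rfl

theorem ja_pr (u p q : Fin (9 + 2) → ℝ) : ja (pr u) (pr p) (pr q) = ja u p q := rfl

theorem maps_pr : MapsTo (pr : (Fin (9 + 2) → ℝ) → (Fin (7 + 2) → ℝ)) (OO 9) (OO 7) := fun _ hu => hu

theorem cd_pr {G : (Fin (7 + 2) → ℝ) → ℂ} (hG : ContDiffOn ℝ 1 G (OO 7)) :
    ContDiffOn ℝ 1 (fun u => G (pr u)) (OO 9) := hG.comp pr.contDiff.contDiffOn maps_pr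

theorem dl_pr {G : (Fin (7 + 2) → ℝ) → ℂ} (hG : ContDiffOn ℝ 1 G (OO 7)) {u : Fin (9 + 2) → ℝ} (hu : u ∈ OO 9)
    (p q : Fin (9 + 2) → ℝ) :
    dl (fun i u => fderiv ℝ (gv (fun u => G (pr u)) i) u) u p q =
      dl (fun i u => fderiv ℝ (gv G i) u) (pr u) (pr p) (pr q) := by
  have hG' : DifferentiableAt ℝ G (pr u) :=
    (hG.contDiffAt (isOpen_OO.mem_nhds (maps_pr hu))).differentiableAt one_ne_zero
  have e : fderiv ℝ (fun u => G (pr u)) u = (fderiv ℝ G (pr u)).comp pr := by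
    have := (hG'.hasFDerivAt.comp u pr.hasFDerivAt).fderiv
    exact this
  rw [dl_gv (cd_pr hG) hu, dl_gv hG (maps_pr hu), e]
  rfl

/-! ### the forms -/

/-- the coefficients of the pair of `S₄` -/
structure CofS where
  x4 : ℝ → ℝ
  y4 : ℝ → ℝ

structure CofS.Sm (E : CofS) : Prop where
  x4 : ContDiffOn ℝ 1 E.x4 (Iio 1)
  y4 : ContDiffOn ℝ 1 E.y4 (Iio 1)

variable {E : CofS}

def s1 (E : CofS) (u : Fin (9 + 2) → ℝ) : ℂ := (E.x4 (CST.rr u) : ℂ) * zt u ^ 3 * conj (cj 9 10 u)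

def s2 (E : CofS) (u : Fin (9 + 2) → ℝ) : ℂ := (E.y4 (CST.rr u) : ℂ) * conj (zt u) ^ (4 + 1) * cj 9 10 u

/-- the function `G` of the pair -/
def GS (E : CofS) (u : Fin (9 + 2) → ℝ) : ℂ := s1 E u + s2 E u

theorem CofS.Sm.c1 (H : E.Sm) : ContDiffOn ℝ 1 (s1 E) (OO 9) :=
  contDiffOn_spa H.x4 (contDiff_cjc 9 10).contDiffOn 3

theorem CofS.Sm.c2 (H : E.Sm) : ContDiffOn ℝ 1 (s2 E) (OO 9) :=
  contDiffOn_spb H.y4 (contDiff_cj 9 10).contDiffOn (4 + 1)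

theorem CofS.Sm.cG (H : E.Sm) : ContDiffOn ℝ 1 (GS E) (OO 9) := H.c1.add H.c2

/-! ### the covariant derivatives -/

/-- the covariant derivative of `S₄` -/
def NS4 (f h : ℝ → ℝ) : ℂ :=
  cd 4 (cF f) (YY (X1 f) (X2 f)) (vF f h) (K4 f h + vF f h * n4 f) (m4 f) (SE 4 f)

theorem hC3 {f : ℝ → ℝ} (hf : Ef f) (h : ℝ → ℝ) : cj 5 6 (du dPS f h) = NC f h
    + 3 * I * ((tt (cu PS f) (du dPS f h) / (1 + CST.cc (cu PS f)) : ℝ) : ℂ) * cj 5 6 (cu PS f) :=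
  OMG.hC3 hf h

theorem hC5 {f : ℝ → ℝ} (hf : Ef f) (h : ℝ → ℝ) : cj 7 8 (du dPS f h) = NC5 f h
    + 5 * I * ((tt (cu PS f) (du dPS f h) / (1 + CST.cc (cu PS f)) : ℝ) : ℂ) * cj 7 8 (cu PS f) :=
  OMG.hC5 hf h

theorem hS4 {f : ℝ → ℝ} (hf : Ef f) (h : ℝ → ℝ) : cj 9 10 (du dPS f h) = NS4 f h
    + 4 * I * ((tt (cu PS f) (du dPS f h) / (1 + CST.cc (cu PS f)) : ℝ) : ℂ) * cj 9 10 (cu PS f) := by
  rw [cjd4, cj4, dS4_eq hf]
  unfold NS4 cd tt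
  rw [ztu, vvu, ccu, cF_eq]
  have e : Fv f h = vF f h := rfl
  rw [e]
  push_cast
  ring

/-! ### the value at a state -/

/-- the first order functional of the pair -/
def MS (E : CofS) (f g : ℝ → ℝ) : ℂ :=
  (E.x4 (rF f) : ℂ) * YY (X1 f) (X2 f) ^ 3 * conj (K4 f g)
    + (E.y4 (rF f) : ℂ) * conj (YY (X1 f) (X2 f)) ^ (4 + 1) * K4 f g

/-- the coefficient of the Jacobian of the pair -/
def WS (E : CofS) (f : ℝ → ℝ) : ℝ :=
  (2 * cF f * deriv E.x4 (rF f) - 2 * E.x4 (rF f) / cF f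
      + 2 * cF f * (rF f * deriv E.y4 (rF f) + 5 * E.y4 (rF f)) + 2 * rF f * E.y4 (rF f) / cF f)
      * (conj (YY (X1 f) (X2 f)) ^ 4 * SE 4 f).re
    + 2 * E.x4 (rF f) * (conj (YY (X1 f) (X2 f)) ^ 3 * n4 f).re
    + 2 * E.y4 (rF f) * (conj (YY (X1 f) (X2 f)) ^ 5 * m4 f).re

theorem val_GS (H : E.Sm) {f : ℝ → ℝ} (hf : Ef f) (h k : ℝ → ℝ) :
    dl (fun i u => fderiv ℝ (gv (GS E) i) u) (cu PS f) (du dPS f h) (du dPS f k) =
      (MS E f h * vF f k - MS E f k * vF f h).im + WS E f * (conj (vF f h) * vF f k).im := by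
  have hu : cu PS f ∈ OO 9 := sysS.mem hf
  have hr : rF f < 1 := X_lt hf
  have dd : ∀ {φ : ℝ → ℝ}, ContDiffOn ℝ 1 φ (Iio 1) → HasDerivAt φ (deriv φ (rF f)) (CST.rr (cu PS f)) := by
    intro φ hφ
    rw [rru]
    exact ((hφ.contDiffAt (Iio_mem_nhds hr)).differentiableAt one_ne_zero).hasDerivAt
  have c2 : (1 : ℂ) + ((3 : ℕ) : ℂ) = 4 := by push_cast; norm_num
  have c4 : ((4 : ℕ) : ℂ) = 4 := by push_cast; rfl
  have vX := CST.dl_fa hu H.x4 (dd H.x4) 3 (j := 9) (k := 10) (Np := NS4 f h) (Nq := NS4 f k)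
    (by rw [c2]; exact hS4 hf h) (by rw [c2]; exact hS4 hf k)
  have vY := CST.dl_fb hu H.y4 (dd H.y4) 4 (j := 9) (k := 10) (Np := NS4 f h) (Nq := NS4 f k)
    (by rw [c4]; exact hS4 hf h) (by rw [c4]; exact hS4 hf k)
  have e1 : GS E = fun u => s1 E u + s2 E u := rfl
  rw [e1, dl_gv_add H.c1 H.c2 hu]
  have tX : dl (fun i u => fderiv ℝ (gv (s1 E) i) u) (cu PS f) (du dPS f h) (du dPS f k) = _ := vX
  have tY : dl (fun i u => fderiv ℝ (gv (s2 E) i) u) (cu PS f) (du dPS f h) (du dPS f k) = _ := vY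
  rw [tX, tY, jau, rru, ztu, vvu, vvu, ccu, cj4]
  unfold NS4
  rw [OMT.aQn, OMT.aPn _ _ _ _ _ _ (zz f)]
  have q2 : (YY (X1 f) (X2 f) ^ (3 + 1) * conj (SE 4 f)).re = (conj (YY (X1 f) (X2 f)) ^ 4 * SE 4 f).re := by
    rw [← Complex.conj_re (conj (YY (X1 f) (X2 f)) ^ 4 * SE 4 f)]
    simp only [map_mul, map_pow, Complex.conj_conj]
  have q3 : (YY (X1 f) (X2 f) ^ 3 * conj (n4 f)).re = (conj (YY (X1 f) (X2 f)) ^ 3 * n4 f).re := by
    rw [← Complex.conj_re (conj (YY (X1 f) (X2 f)) ^ 3 * n4 f)]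
    simp only [map_mul, map_pow, Complex.conj_conj]
  have eM : MS E f h * vF f k - MS E f k * vF f h =
      (E.x4 (rF f) : ℂ) * YY (X1 f) (X2 f) ^ 3 * (conj (K4 f h) * vF f k - conj (K4 f k) * vF f h)
      + (E.y4 (rF f) : ℂ) * conj (YY (X1 f) (X2 f)) ^ (4 + 1) * (K4 f h * vF f k - K4 f k * vF f h) := by
    unfold MS
    ring
  rw [eM]
  simp only [Complex.add_im]
  unfold WS
  rw [q2, q3]
  push_cast
  ring

/-! ### the kernel -/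

/-- the kernel of the pair -/
def mkS (E : CofS) (f : ℝ → ℝ) (t : ℝ) : ℂ :=
  (de (X1 f) (X2 f) f t : ℂ) * ((E.x4 (rF f) : ℂ) * YY (X1 f) (X2 f) ^ 3 * conj (C54.ep (X1 f) (X2 f) t) ^ 4
    + (E.y4 (rF f) : ℂ) * conj (YY (X1 f) (X2 f)) ^ 5 * C54.ep (X1 f) (X2 f) t ^ 4)

theorem bm_mkS {f : ℝ → ℝ} (hf : Ef f) : Bm (mkS E f) := by
  have bE := bm_ep (X_lt hf)
  have bd := bm_de hf
  exact bd.mul (((Bm.const _).mul (bm_pow bE.conj 4)).add ((Bm.const _).mul (bm_pow bE 4)))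

theorem K4_vm {f : ℝ → ℝ} (hf : Ef f) (g : ℝ → ℝ) : K4 f g =
    2 * ∫ t, ((de (X1 f) (X2 f) f t : ℂ) * C54.ep (X1 f) (X2 f) t ^ 4) * (g t : ℂ) ∂(vm (X1 f) (X2 f)) := by
  have := ME_vm (X_lt hf) 4 (fun t => de (X1 f) (X2 f) f t * g t)
  push_cast at this
  unfold K4
  rw [this]
  congr 1
  refine integral_congr_ae (Eventually.of_forall fun t => ?_)
  simp only
  have e : ((4 : ℤ)) = ((4 : ℕ) : ℤ) := rfl
  ring

theorem MS_int {f g : ℝ → ℝ} (hf : Ef f) (hg : Measurable g) (hb : ∀ t, |g t| ≤ 1) :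
    MS E f g = ∫ t, (2 * mkS E f t) * (g t : ℂ) ∂(vm (X1 f) (X2 f)) := by
  have hX := X_lt hf
  have := vm_prob hX
  have bE := bm_ep hX
  have bd := bm_de hf
  have bg : Bm fun t => (g t : ℂ) := bm_real hg hb
  have b4 : Bm fun t => ((de (X1 f) (X2 f) f t : ℂ) * C54.ep (X1 f) (X2 f) t ^ 4) * (g t : ℂ) :=
    (bd.mul (bm_pow bE 4)).mul bg
  have cj1 : ∀ {φ : ℝ → ℂ}, ∫ t, conj (φ t) ∂(vm (X1 f) (X2 f)) = conj (∫ t, φ t ∂(vm (X1 f) (X2 f))) :=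
    integral_conj
  have e : (fun t => (2 * mkS E f t) * (g t : ℂ)) = fun t =>
      (2 * ((E.x4 (rF f) : ℂ) * YY (X1 f) (X2 f) ^ 3))
        * conj (((de (X1 f) (X2 f) f t : ℂ) * C54.ep (X1 f) (X2 f) t ^ 4) * (g t : ℂ))
      + (2 * ((E.y4 (rF f) : ℂ) * conj (YY (X1 f) (X2 f)) ^ 5))
        * (((de (X1 f) (X2 f) f t : ℂ) * C54.ep (X1 f) (X2 f) t ^ 4) * (g t : ℂ)) := by
    funext t
    unfold mkS
    simp only [map_mul, map_pow, Complex.conj_ofReal]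
    ring
  rw [e, integral_add ((Bm.const _).mul b4.conj).int ((Bm.const _).mul b4).int, integral_const_mul,
    integral_const_mul, cj1]
  unfold MS
  rw [K4_vm hf]
  simp only [map_mul, Complex.conj_ofNat]
  ring

/-! ### the boundary -/

/-- the growth conditions at the boundary -/
structure CofS.Bo (E : CofS) : Prop where
  x4 : Tendsto (fun c => E.x4 (1 - c ^ 2) * c ^ 2) (𝓝[>] 0) (𝓝 0)
  y4 : Tendsto (fun c => E.y4 (1 - c ^ 2) * c ^ 2) (𝓝[>] 0) (𝓝 0)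

theorem S4_le {f : ℝ → ℝ} (hf : Ef f) : ‖SE 4 f‖ ≤ 121 * cF f ^ 2 := by
  have h1 := S54Z.MM_map_le 4 2 hf
  rw [cF_eq] at h1
  have e : SE 4 f = ((1 / 2 : ℝ) : ℂ) * S54.MM 4 (fun u : ℝ => u ^ 2) (X1 f) (X2 f) f := SYS.SE_eq 4 f
  rw [e, norm_mul, Complex.norm_real, Real.norm_eq_abs, abs_of_pos (by norm_num : (0 : ℝ) < 1 / 2)]
  calc 1 / 2 * ‖S54.MM 4 (fun u : ℝ => u ^ 2) (X1 f) (X2 f) f‖ ≤ 1 / 2 * (2 * (11 * cF f) ^ 2) := by
        linarith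
    _ = _ := by ring

theorem GS_small (H : E.Bo) {ε : ℝ} (hε : 0 < ε) :
    ∃ η : ℝ, 0 < η ∧ ∀ f, Ef f → CST.cc (cu PS f) < η → ‖GS E (cu PS f)‖ ≤ ε := by
  obtain ⟨a1, p1, q1⟩ := small (k := 2) H.x4 (ε := ε / (2 * 121)) (by positivity)
  obtain ⟨a2, p2, q2⟩ := small (k := 2) H.y4 (ε := ε / (2 * 121)) (by positivity)
  refine ⟨min a1 a2, by simp only [lt_min_iff]; exact ⟨p1, p2⟩, fun f hf hc => ?_⟩
  rw [ccu] at hc
  simp only [lt_min_iff] at hc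
  obtain ⟨c1, c2⟩ := hc
  have hz := nz hf
  have hc0 := cF_pos hf
  have s4 := S4_le hf
  have hzn : ∀ k : ℕ, ‖YY (X1 f) (X2 f)‖ ^ k ≤ 1 := fun k => pow_le_one₀ (norm_nonneg _) hz
  have b1 : ‖s1 E (cu PS f)‖ ≤ ε / 2 := by
    unfold s1
    rw [rru, ztu, cj4, norm_mul, norm_mul, norm_pow, Complex.norm_conj, Complex.norm_real, Real.norm_eq_abs]
    calc |E.x4 (rF f)| * ‖YY (X1 f) (X2 f)‖ ^ 3 * ‖SE 4 f‖ ≤ |E.x4 (rF f)| * 1 * (121 * cF f ^ 2) := by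
          gcongr
          exact hzn _
      _ = 121 * (|E.x4 (rF f)| * cF f ^ 2) := by ring
      _ ≤ 121 * (ε / (2 * 121)) := by
          gcongr
          exact q1 f hf c1
      _ = ε / 2 := by ring
  have b2 : ‖s2 E (cu PS f)‖ ≤ ε / 2 := by
    unfold s2
    rw [rru, ztu, cj4, norm_mul, norm_mul, norm_pow, Complex.norm_conj, Complex.norm_real, Real.norm_eq_abs]
    calc |E.y4 (rF f)| * ‖YY (X1 f) (X2 f)‖ ^ (4 + 1) * ‖SE 4 f‖ ≤ |E.y4 (rF f)| * 1 * (121 * cF f ^ 2) := by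
          gcongr
          exact hzn _
      _ = 121 * (|E.y4 (rF f)| * cF f ^ 2) := by ring
      _ ≤ 121 * (ε / (2 * 121)) := by
          gcongr
          exact q2 f hf c2
      _ = ε / 2 := by ring
  have n1 := norm_add_le (s1 E (cu PS f)) (s2 E (cu PS f))
  unfold GS
  linarith

end Pool.Agent.FPX.OMY
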