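import Mathlib
import Pool.Agent.FPX.OMY
import Pool.Agent.FPX.OMGR

/-
OMYR (helper8): the pair of `S₄` (OMY): rotation covariance and the REAL FRAME of its kernel and of its Jacobian
coefficient.
-/

open MeasureTheory Set Filter Topology Complex
open scoped ENNReal NNReal ContDiff ComplexConjugate

noncomputable section

namespace Pool.Agent.FPX.OM7

open Pool.Agent.FPX Pool.Agent.FPX.UMP Pool.Agent.FPX.UMQ Pool.Agent.FPX.UXA Pool.Agent.EWD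
open Pool.Agent.FPX.F54 (X1 X2 X_lt sF)
open Pool.Agent.FPX.S54 (mS ME YY de Sn)
open Pool.Agent.FPX.OMB (vm vm_int vm_prob bm_ep bm_real)
open Pool.Agent.FPX.OMS (rF cF cF_eq ME_vm)
open Pool.Agent.FPX.SYS (CE SE)
open Pool.Agent.FPX.CERQ (ep_per)
open Pool.Agent.FPX.OMY (CofS mkS WS)

namespace Rot

variable {f f' : ℝ → ℝ} {φ r : ℝ} {u : ℂ}

theorem se (R : Rot f f' φ r u) (n : ℕ) : SE n f = u ^ n * SE n f' := R.sn n

theorem n4 (R : Rot f f' φ r u) : SYS.n4 f = u ^ 3 * SYS.n4 f' := by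
  unfold SYS.n4
  rw [R.ce 3, R.s2, R.ze, R.cc']
  ring

theorem m4 (R : Rot f f' φ r u) : SYS.m4 f = u ^ 5 * SYS.m4 f' := by
  have h6 : SE 6 f = u ^ 6 * SE 6 f' := R.se 6
  unfold SYS.m4
  rw [R.ce 5, h6, R.ze, R.cc', map_mul]
  linear_combination (6 * conj (YY (X1 f') (X2 f')) * u ^ 5 * SE 6 f' / (4 * (S54.cc (X1 f') (X2 f') : ℂ))) * R.cu

theorem mks (R : Rot f f' φ r u) (E : CofS) (t : ℝ) : mkS E f (t + φ) = conj u * mkS E f' t := by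
  have hc := R.uu
  have e1 : u ^ 3 * conj u ^ 4 = conj u := by
    have h : u ^ 3 * conj u ^ 3 = 1 := by rw [← mul_pow, hc, one_pow]
    linear_combination conj u * h
  have e2 : conj u ^ 5 * u ^ 4 = conj u := by
    have h : u ^ 4 * conj u ^ 4 = 1 := by rw [← mul_pow, hc, one_pow]
    linear_combination conj u * h
  unfold mkS
  rw [R.dd, R.ee, R.ze, R.rr]
  simp only [map_mul]
  linear_combination ((de (X1 f') (X2 f') f' t : ℂ) * (E.x4 (rF f') : ℂ) * YY (X1 f') (X2 f') ^ 3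
      * conj (C54.ep (X1 f') (X2 f') t) ^ 4) * e1
    + ((de (X1 f') (X2 f') f' t : ℂ) * (E.y4 (rF f') : ℂ) * conj (YY (X1 f') (X2 f')) ^ 5
      * C54.ep (X1 f') (X2 f') t ^ 4) * e2

theorem ws (R : Rot f f' φ r u) (E : CofS) : WS E f = WS E f' := by
  have hc := R.uu
  have hn : ∀ n : ℕ, conj u ^ n * u ^ n = 1 := fun n => by rw [← mul_pow, mul_comm (conj u), hc, one_pow]
  have h4 : SE 4 f = u ^ 4 * SE 4 f' := R.se 4
  have q1 : conj (u * YY (X1 f') (X2 f')) ^ 4 * (u ^ 4 * SE 4 f') = conj (YY (X1 f') (X2 f')) ^ 4 * SE 4 f' := by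
    simp only [map_mul]
    linear_combination (conj (YY (X1 f') (X2 f')) ^ 4 * SE 4 f') * hn 4
  have q2 : conj (u * YY (X1 f') (X2 f')) ^ 3 * (u ^ 3 * SYS.n4 f') =
      conj (YY (X1 f') (X2 f')) ^ 3 * SYS.n4 f' := by
    simp only [map_mul]
    linear_combination (conj (YY (X1 f') (X2 f')) ^ 3 * SYS.n4 f') * hn 3
  have q3 : conj (u * YY (X1 f') (X2 f')) ^ 5 * (u ^ 5 * SYS.m4 f') =
      conj (YY (X1 f') (X2 f')) ^ 5 * SYS.m4 f' := by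
    simp only [map_mul]
    linear_combination (conj (YY (X1 f') (X2 f')) ^ 5 * SYS.m4 f') * hn 5
  unfold WS
  rw [R.rr, R.cc, R.ze, h4, R.n4, R.m4, q1, q2, q3]

theorem msper (R : Rot f f' φ r u) (E : CofS) (t : ℝ) : mkS E f (t + 2 * Real.pi) = mkS E f t := by
  unfold mkS
  rw [R.dper, ep_per]

end Rot

end Pool.Agent.FPX.OM7

namespace Pool.Agent.FPX.OMR

open Pool.Agent.FPX Pool.Agent.FPX.UMP Pool.Agent.FPX.UMQ Pool.Agent.FPX.UXA Pool.Agent.EWD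
open Pool.Agent.FPX.F54 (X1 X2 X_lt sF)
open Pool.Agent.FPX.S54 (mS ME YY de Sn)
open Pool.Agent.FPX.OMB (vm vm_int vm_prob bm_ep bm_real)
open Pool.Agent.FPX.CRD (Bm)
open Pool.Agent.FPX.OMS (rF cF cF_eq ME_vm)
open Pool.Agent.FPX.SYS (CE SE)
open Pool.Agent.FPX.OM7 Pool.Agent.FPX.OMY

/-- `mean (x² E⁶)` -/
def q6 (f : ℝ → ℝ) : ℂ := ∫ t, (xR f t : ℂ) ^ 2 * eR f t ^ 6 ∂(vR f)

/-- the kernel of the pair of `S₄` in the real frame: `c s² x (x₄ E⁻⁴ + s² y₄ E⁴)` -/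
def mSR (E : CofS) (f : ℝ → ℝ) (t : ℝ) : ℂ :=
  (xR f t : ℂ) * (((cF f * rF f * E.x4 (rF f) : ℝ) : ℂ) * conj (eR f t) ^ 4
    + ((cF f * rF f ^ 2 * E.y4 (rF f) : ℝ) : ℂ) * eR f t ^ 4)

/-- the coefficient of `|A|² - |B|²` of the pair of `S₄` in the real frame -/
def WSR (E : CofS) (f : ℝ → ℝ) : ℝ :=
  2 * cF f * rF f * (cF f ^ 2 * deriv E.x4 (rF f) - E.x4 (rF f)
      + cF f ^ 2 * (rF f * deriv E.y4 (rF f) + 5 * E.y4 (rF f)) + rF f * E.y4 (rF f)) * (q4 f).re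
    - cF f * rF f * E.x4 (rF f) * (2 * r3 f + q2 f).re
    + cF f * rF f ^ 2 * E.y4 (rF f) * (3 * q6 f - 2 * r5 f).re

namespace Re

variable {f : ℝ → ℝ}

theorem se (H : Re f) (n : ℕ) : (X1 f : ℂ) ^ 2 * SE n f =
    (cF f : ℂ) ^ 2 * ∫ t, (xR f t : ℂ) ^ 2 * eR f t ^ n ∂(vR f) := H.sn n

theorem se4 (H : Re f) : (X1 f : ℂ) ^ 2 * SE 4 f = (cF f : ℂ) ^ 2 * q4 f := H.sn 4

theorem se6 (H : Re f) : (X1 f : ℂ) ^ 2 * SE 6 f = (cF f : ℂ) ^ 2 * q6 f := H.sn 6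

theorem ccc (_H : Re f) : S54.cc (X1 f) (X2 f) = cF f := OMS.cF_eq f

theorem n4 (H : Re f) : (X1 f : ℂ) * SYS.n4 f = -(cF f * (r3 f + q2 f / 2)) := by
  have hc := H.cC
  unfold SYS.n4
  rw [H.ccc, H.zz]
  field_simp
  linear_combination (-(4 : ℂ) * (cF f : ℂ)) * H.c3 - 4 * H.s2

theorem m4 (H : Re f) : (X1 f : ℂ) * SYS.m4 f = cF f * (3 / 2 * q6 f - r5 f) := by
  have hc := H.cC
  unfold SYS.m4
  rw [H.ccc, H.zz, Complex.conj_ofReal]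
  field_simp
  linear_combination (-(4 : ℂ) * (cF f : ℂ)) * H.c5 + 12 * H.se6

theorem mkse (H : Re f) (E : CofS) (t : ℝ) : mkS E f t = mSR E f t := by
  unfold mkS mSR
  rw [H.zz, H.ee, Complex.conj_ofReal]
  push_cast
  rw [H.rC]
  linear_combination ((E.x4 (rF f) : ℂ) * (X1 f : ℂ) ^ 2 * conj (eR f t) ^ 4
    + (E.y4 (rF f) : ℂ) * (X1 f : ℂ) ^ 4 * eR f t ^ 4) * H.ddC t

theorem wse (H : Re f) (E : CofS) : WS E f = WSR E f := by
  have hcR := H.c0.ne'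
  have hc2 : (cF f : ℂ) ^ 2 = ((cF f ^ 2 : ℝ) : ℂ) := by push_cast; rfl
  have t1 : (conj (YY (X1 f) (X2 f)) ^ 4 * SE 4 f).re = rF f * cF f ^ 2 * (q4 f).re := by
    have e : (X1 f : ℂ) ^ 4 * SE 4 f = ((X1 f ^ 2 * cF f ^ 2 : ℝ) : ℂ) * q4 f := by
      push_cast
      linear_combination ((X1 f : ℂ) ^ 2) * H.se4
    rw [H.zz, Complex.conj_ofReal, e, Complex.re_ofReal_mul, H.rr]
  have t2 : (conj (YY (X1 f) (X2 f)) ^ 3 * SYS.n4 f).re = -(rF f * cF f / 2 * (2 * r3 f + q2 f).re) := by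
    have e : (X1 f : ℂ) ^ 3 * SYS.n4 f = ((-(X1 f ^ 2 * cF f / 2) : ℝ) : ℂ) * (2 * r3 f + q2 f) := by
      push_cast
      linear_combination ((X1 f : ℂ) ^ 2) * H.n4
    rw [H.zz, Complex.conj_ofReal, e, Complex.re_ofReal_mul, H.rr]
    ring
  have t3 : (conj (YY (X1 f) (X2 f)) ^ 5 * SYS.m4 f).re = rF f ^ 2 * cF f / 2 * (3 * q6 f - 2 * r5 f).re := by
    have e : (X1 f : ℂ) ^ 5 * SYS.m4 f = (((X1 f ^ 2) ^ 2 * cF f / 2 : ℝ) : ℂ) * (3 * q6 f - 2 * r5 f) := by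
      push_cast
      linear_combination ((X1 f : ℂ) ^ 4) * H.m4
    rw [H.zz, Complex.conj_ofReal, e, Complex.re_ofReal_mul, H.rr]
  unfold WS WSR
  rw [t1, t2, t3]
  field_simp
  ring

theorem bmS (H : Re f) (E : CofS) : Bm (mSR E f) := by
  have h : mSR E f = mkS E f := funext fun t => (H.mkse E t).symm
  rw [h]
  exact bm_mkS H.hf

end Re

end Pool.Agent.FPX.OMR
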