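import Mathlib
import Pool.Agent.FPX.OMH
import Pool.Agent.FPX.OMY

/-
OMZ (helper8): the class of forms of OMH enlarged by the pair of `S₄` (OMY): the value at a state, the certificate,
the raw inequality (any start map), the area bound.
-/

open MeasureTheory Set Filter Topology Complex
open scoped ENNReal NNReal ContDiff ComplexConjugate

noncomputable section

namespace Pool.Agent.FPX.OMY

open Pool.Agent.FPX Pool.Agent.FPX.UMP Pool.Agent.FPX.UMQ Pool.Agent.FPX.UXA Pool.Agent.EWD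
open Pool.Agent.FPX.F54 (X1 X2 dX1 dX2 X_lt X_G1 X_G2 vF sF)
open Pool.Agent.FPX.S54 (dS2 dS0 mS Fv ME YY de)
open Pool.Agent.FPX.OMB (vm vm_int vm_prob bm_ep bm_real)
open Pool.Agent.FPX.CRD (Bm)
open Pool.Agent.FPX.OMS (rF cF cF_eq Aa Ba Kc ME_vm Kc_meas Kc_le AB_eq)
open Pool.Agent.FPX.SYS (P7 dP7 sys7 CE dCE K2 K0 SE dSE K4 m4 n4 dS4_eq)
open Pool.Agent.FPX.CST (cu du dl gv gt nu ja zt ss hh OO cj lab tt Sys isOpen_OO dl_gv dl_gv_add)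
open Pool.Agent.FPX.OM7
open Pool.Agent.FPX.OMG (P9 dP9 sys9 D7 E3 L5 NC5 zz CofH CofH.Sm CofH.Bo GH M9 MN MH W9 WP WN WH mk9 mkH bv5 Cp5
  Cm5 DevK IsDevK val_GH bm_mkH MH_int NC5_pm isDevK_F54)

/-! ### the class -/

/-- coefficients of the enlarged class -/
structure CofZ where
  H : CofH
  E : CofS

structure CofZ.Sm (F : CofZ) : Prop where
  H : F.H.Sm
  E : F.E.Sm

structure CofZ.Bo (F : CofZ) : Prop where
  H : F.H.Bo
  E : F.E.Bo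

variable {F : CofZ}

/-- the function `G` of the form -/
def GZ (F : CofZ) (u : Fin (9 + 2) → ℝ) : ℂ := GH F.H (pr u) + GS F.E u

/-- the additional 1-form -/
def lz (F : CofZ) (i : Fin (9 + 2)) (u : Fin (9 + 2) → ℝ) : ℝ :=
  lab 3 F.H.F.C.b 5 6 i u + lab 5 F.H.b5 7 8 i u

theorem CofZ.Sm.cG (H : F.Sm) : ContDiffOn ℝ 1 (GZ F) (OO 9) := (cd_pr H.H.cG).add H.E.cG

theorem CofZ.Sm.cl (H : F.Sm) (i : Fin (9 + 2)) : ContDiffOn ℝ 1 (lz F i) (OO 9) :=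
  (CST.contDiffOn_lab H.H.c9.C.b 5 6 i).add (CST.contDiffOn_lab H.H.b5 7 8 i)

theorem dl_lz (H : F.Sm) {u : Fin (9 + 2) → ℝ} (hu : u ∈ OO 9) (p q : Fin (9 + 2) → ℝ) :
    dl (fun i u => fderiv ℝ (lz F i) u) u p q =
      dl (fun i u => fderiv ℝ (lab 3 F.H.F.C.b 5 6 i) u) u p q
        + dl (fun i u => fderiv ℝ (lab 5 F.H.b5 7 8 i) u) u p q := by
  have e1 : (fun i u => fderiv ℝ (lz F i) u) = fun (i : Fin (9 + 2)) (u : Fin (9 + 2) → ℝ) =>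
      fderiv ℝ (fun u => lab 3 F.H.F.C.b 5 6 i u + lab 5 F.H.b5 7 8 i u) u := rfl
  rw [e1]
  exact CST.dl_add (u := u)
    (fun i => ((CST.contDiffOn_lab H.H.c9.C.b 5 6 i).contDiffAt (isOpen_OO.mem_nhds hu)).differentiableAt
      one_ne_zero)
    (fun i => ((CST.contDiffOn_lab H.H.b5 7 8 i).contDiffAt (isOpen_OO.mem_nhds hu)).differentiableAt
      one_ne_zero) p q

/-- **the value of the form without the labels** -/
theorem val_GZ (H : F.Sm) {f : ℝ → ℝ} (hf : Ef f) (h k : ℝ → ℝ) :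
    dl (fun i u => fderiv ℝ (gv (GZ F) i) u) (cu PS f) (du dPS f h) (du dPS f k) =
      ((MH F.H f h + MS F.E f h) * vF f k - (MH F.H f k + MS F.E f k) * vF f h).im
        + (W1 F.H.F.C f + WP F.H.F f + WN F.H f + WS F.E f) * (conj (vF f h) * vF f k).im := by
  have hu : cu PS f ∈ OO 9 := sysS.mem hf
  have e1 : GZ F = fun u => (fun u => GH F.H (pr u)) u + GS F.E u := rfl
  rw [e1, dl_gv_add (cd_pr H.H.cG) H.E.cG hu, dl_pr H.H.cG hu, pr_cu, pr_du, pr_du, val_GH H.H hf, val_GS H.E hf]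
  have eM : (MH F.H f h + MS F.E f h) * vF f k - (MH F.H f k + MS F.E f k) * vF f h =
      ((M9 F.H.F f h + MN F.H f h) * vF f k - (M9 F.H.F f k + MN F.H f k) * vF f h)
        + (MS F.E f h * vF f k - MS F.E f k * vF f h) := by
    unfold MH
    ring
  rw [eM, Complex.add_im]
  ring

/-! ### the kernel -/

/-- the kernel of the mixed part -/
def mkZ (F : CofZ) (f : ℝ → ℝ) (t : ℝ) : ℂ := mkH F.H f t + mkS F.E f t

theorem bm_mkZ {f : ℝ → ℝ} (hf : Ef f) : Bm (mkZ F f) := (bm_mkH hf).add (bm_mkS hf)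

theorem mixZ {f h k : ℝ → ℝ} (hf : Ef f) (V : Var h k) :
    ((MH F.H f h + MS F.E f h) * vF f k - (MH F.H f k + MS F.E f k) * vF f h).im =
      2 * (Aa f h k * ∫ t, mkZ F f t * Kc h k t ∂(vm (X1 f) (X2 f))).re
        - 2 * (Ba f h k * ∫ t, mkZ F f t * conj (Kc h k t) ∂(vm (X1 f) (X2 f))).re := by
  have hX := X_lt hf
  have := vm_prob hX
  have i : ∀ g : ℝ → ℝ, Measurable g → (∀ t, |g t| ≤ 1) →
      MH F.H f g + MS F.E f g = ∫ t, (2 * mkZ F f t) * (g t : ℂ) ∂(vm (X1 f) (X2 f)) := by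
    intro g hg hb
    have bg : Bm fun t => (g t : ℂ) := bm_real hg hb
    rw [MH_int hf hg hb, MS_int hf hg hb, ← integral_add
      (((Bm.const 2).mul (bm_mkH hf)).mul bg).int (((Bm.const 2).mul (bm_mkS hf)).mul bg).int]
    congr 1
    funext t
    unfold mkZ
    ring
  rw [i h V.mesh V.bh, i k V.mesk V.bk]
  have b2 : Bm fun t => 2 * mkZ F f t := (Bm.const 2).mul (bm_mkZ hf)
  have key := CST.pol (μ := vm (X1 f) (X2 f)) b2 (bm_real V.mesh V.bh) (bm_real V.mesk V.bk)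
    (fun t => Complex.ofReal_im _) (fun t => Complex.ofReal_im _) (vF f h) (vF f k)
  rw [key]
  have e1 : ∫ t, (2 * mkZ F f t) * ((h t : ℂ) + I * (k t : ℂ)) ∂(vm (X1 f) (X2 f)) =
      2 * ∫ t, mkZ F f t * Kc h k t ∂(vm (X1 f) (X2 f)) := by
    rw [← integral_const_mul]
    congr 1
    funext t
    unfold Kc
    ring
  have e2 : ∫ t, (2 * mkZ F f t) * conj ((h t : ℂ) + I * (k t : ℂ)) ∂(vm (X1 f) (X2 f)) =
      2 * ∫ t, mkZ F f t * conj (Kc h k t) ∂(vm (X1 f) (X2 f)) := by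
    rw [← integral_const_mul]
    congr 1
    funext t
    unfold Kc
    ring
  rw [e1, e2]
  have e3 : ∀ a b : ℂ, (a * (2 * b)).re = 2 * (a * b).re := fun a b => by
    rw [show a * (2 * b) = ((2 : ℝ) : ℂ) * (a * b) by push_cast; ring, Complex.re_ofReal_mul]
  rw [e3, e3]
  rfl

/-! ### the labels -/

theorem ddS {φ : ℝ → ℝ} (hφ : ContDiffOn ℝ 1 φ (Iio 1)) {f : ℝ → ℝ} (hf : Ef f) :
    HasDerivAt φ (deriv φ (rF f)) (CST.rr (cu PS f)) := by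
  rw [rru]
  exact ((hφ.contDiffAt (Iio_mem_nhds (X_lt hf))).differentiableAt one_ne_zero).hasDerivAt

theorem val_b (H : F.Sm) {f h k : ℝ → ℝ} (hf : Ef f) (V : Var h k) :
    dl (fun i u => fderiv ℝ (lab 3 F.H.F.C.b 5 6 i) u) (cu PS f) (du dPS f h) (du dPS f k) =
      bv F.H.F.C f (Aa f h k) (Ba f h k)
        (Cp f (Aa f h k) (Ba f h k)
          (∫ t, C54.ep (X1 f) (X2 f) t ^ 3 * conj (Kc h k t) ∂(vm (X1 f) (X2 f))))
        (Cm f (Aa f h k) (Ba f h k)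
          (∫ t, C54.ep (X1 f) (X2 f) t ^ 3 * Kc h k t ∂(vm (X1 f) (X2 f)))) := by
  have hu : cu PS f ∈ OO 9 := sysS.mem hf
  have c5 : ((3 : ℝ) : ℂ) = 3 := by push_cast; rfl
  rw [CST.dl_lab hu H.H.c9.C.b (ddS H.H.c9.C.b hf) (s := 3) (j := 5) (k := 6) (Np := NC f h) (Nq := NC f k)
    (by rw [c5]; exact hC3 hf h) (by rw [c5]; exact hC3 hf k)]
  obtain ⟨p1, p2⟩ := NC_pm hf V
  rw [rru, ccu, ztu, vvu, vvu, jau, cj3, CST.pol2, CST.pol3, CST.pol3, p1, p2, Complex.conj_conj,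
    Complex.conj_conj]
  unfold bv Aa Ba
  ring

theorem val_b5 (H : F.Sm) {f h k : ℝ → ℝ} (hf : Ef f) (V : Var h k) :
    dl (fun i u => fderiv ℝ (lab 5 F.H.b5 7 8 i) u) (cu PS f) (du dPS f h) (du dPS f k) =
      bv5 F.H.b5 f (Aa f h k) (Ba f h k)
        (Cp5 f (Aa f h k) (Ba f h k)
          (∫ t, C54.ep (X1 f) (X2 f) t ^ 5 * conj (Kc h k t) ∂(vm (X1 f) (X2 f))))
        (Cm5 f (Aa f h k) (Ba f h k)
          (∫ t, C54.ep (X1 f) (X2 f) t ^ 5 * Kc h k t ∂(vm (X1 f) (X2 f)))) := by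
  have hu : cu PS f ∈ OO 9 := sysS.mem hf
  have c5 : ((5 : ℝ) : ℂ) = 5 := by push_cast; rfl
  rw [CST.dl_lab hu H.H.b5 (ddS H.H.b5 hf) (s := 5) (j := 7) (k := 8) (Np := NC5 f h) (Nq := NC5 f k)
    (by rw [c5]; exact hC5 hf h) (by rw [c5]; exact hC5 hf k)]
  obtain ⟨p1, p2⟩ := NC5_pm hf V
  rw [rru, ccu, ztu, vvu, vvu, jau, cj5, CST.pol2, CST.pol3, CST.pol3, p1, p2, Complex.conj_conj,
    Complex.conj_conj]
  unfold bv5 Aa Ba
  ring

/-! ### the certificate -/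

/-- the coefficient of the Jacobian -/
def WZ (W : ℝ → ℝ) (F : CofZ) (f : ℝ → ℝ) : ℝ := WH W F.H f + WS F.E f

/-- the certificate at one state -/
def CertAtZ (Bk : DevK) (W : ℝ → ℝ) (F : CofZ) (μ T : ℝ) (f : ℝ → ℝ) : Prop :=
  ∀ K : ℝ → ℂ, Measurable K → (∀ t, ‖K t‖ ≤ 1) → ∀ A B : ℂ,
    A - sF f * conj B = ∫ t, C54.ep (X1 f) (X2 f) t * conj (K t) ∂(vm (X1 f) (X2 f)) →
    B - sF f * conj A = ∫ t, C54.ep (X1 f) (X2 f) t * K t ∂(vm (X1 f) (X2 f)) →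
    WZ W F f * (‖A‖ ^ 2 - ‖B‖ ^ 2)
      + 2 * (A * ∫ t, mkZ F f t * K t ∂(vm (X1 f) (X2 f))).re
      - 2 * (B * ∫ t, mkZ F f t * conj (K t) ∂(vm (X1 f) (X2 f))).re
      + bv F.H.F.C f A B (Cp f A B (∫ t, C54.ep (X1 f) (X2 f) t ^ 3 * conj (K t) ∂(vm (X1 f) (X2 f))))
          (Cm f A B (∫ t, C54.ep (X1 f) (X2 f) t ^ 3 * K t ∂(vm (X1 f) (X2 f))))
      + bv5 F.H.b5 f A B (Cp5 f A B (∫ t, C54.ep (X1 f) (X2 f) t ^ 5 * conj (K t) ∂(vm (X1 f) (X2 f))))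
          (Cm5 f A B (∫ t, C54.ep (X1 f) (X2 f) t ^ 5 * K t ∂(vm (X1 f) (X2 f))))
      + 2 * μ * ‖Bk f K A B‖ ^ 2 ≤ T

/-- the certificate -/
def CertZ (Bk : DevK) (W : ℝ → ℝ) (F : CofZ) (μ T : ℝ) : Prop := ∀ f, Ef f → CertAtZ Bk W F μ T f

variable {n' : ℕ} {Φ' : Fin (n' + 2) → (ℝ → ℝ) → ℝ} {dΦ' : Fin (n' + 2) → (ℝ → ℝ) → (ℝ → ℝ) → ℝ} {K' L' : ℝ}

theorem hstZ {Bk : DevK} (HD : IsDevK Φ' dΦ' Bk) {W : ℝ → ℝ} (hW : ContDiffOn ℝ 1 W (Ioi 0)) (HF : F.Sm)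
    {μ T : ℝ} (H : CertZ Bk W F μ T) {f h k : ℝ → ℝ} (hf : Ef f) (V : Var h k) :
    dl (fun i u => fderiv ℝ (gv (gt W (GZ F)) i) u) (cu PS f) (du dPS f h) (du dPS f k)
      + dl (fun i u => fderiv ℝ (lz F i) u) (cu PS f) (du dPS f h) (du dPS f k)
      + μ * nu (cu Φ' f) (du dΦ' f h) (du dΦ' f k) ≤ T := by
  have hu : cu PS f ∈ OO 9 := sysS.mem hf
  have hc : 0 < cF f := cF_pos hf
  have hW' : HasDerivAt W (deriv W (cF f)) (CST.cc (cu PS f)) := by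
    rw [ccu]
    exact ((hW.contDiffAt (Ioi_mem_nhds hc)).differentiableAt one_ne_zero).hasDerivAt
  rw [CST.dl_gt hW HF.cG hu hW', val_GZ HF hf, dl_lz HF hu, val_b HF hf V, val_b5 HF hf V, HD f h k hf V,
    mixZ hf V, jau, jab, rru, ccu]
  obtain ⟨e1, e2⟩ := AB_eq hf V
  have := H f hf (Kc h k) (Kc_meas V) (Kc_le V) _ _ e1 e2
  unfold WZ WH W9 W7 at this
  linarith

/-! ### the boundary -/

theorem GZ_small (H : F.Bo) {ε : ℝ} (hε : 0 < ε) :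
    ∃ η : ℝ, 0 < η ∧ ∀ f, Ef f → CST.cc (cu PS f) < η → ‖GZ F (cu PS f)‖ ≤ ε := by
  obtain ⟨a0, q0, r0⟩ := OMG.GH_small H.H (ε := ε / 2) (by positivity)
  obtain ⟨a1, q1, r1⟩ := GS_small H.E (ε := ε / 2) (by positivity)
  refine ⟨min a0 a1, lt_min q0 q1, fun f hf hc => ?_⟩
  have c0 := hc.trans_le (min_le_left _ _)
  have c1 := hc.trans_le (min_le_right _ _)
  have b0 : ‖GH F.H (pr (cu PS f))‖ ≤ ε / 2 := by
    rw [pr_cu]
    refine r0 f hf ?_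
    rwa [← pr_cu, cc_pr]
  have b1 := r1 f hf c1
  have n1 := norm_add_le (GH F.H (pr (cu PS f))) (GS F.E (cu PS f))
  unfold GZ
  linarith

theorem lz_small (H : F.Bo) {ε : ℝ} (hε : 0 < ε) :
    ∃ η : ℝ, 0 < η ∧ ∀ f h, Ef f → Measurable h → (∀ t, |h t| ≤ 1) → CST.cc (cu PS f) < η →
      |∑ i, lz F i (cu PS f) * du dPS f h i| ≤ ε := by
  obtain ⟨a, p, q⟩ := OMG.lh_small H.H hε
  refine ⟨a, p, fun f h hf hm hb hc => ?_⟩
  have h1 := q f h hf hm hb (by rwa [← pr_cu, cc_pr])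
  have v11 : ∀ {n : ℕ} (s : ℝ) (b : ℝ → ℝ) (j k : Fin (n + 2)) (_ : j ≠ k) (u p : Fin (n + 2) → ℝ),
      ∑ i, lab s b j k i u * p i = b (CST.rr u) * (conj (cj j k u) * cj j k p).im
        + ((CST.phb s b (CST.rr u) : ℂ) * conj (zt u) * ((normSq (cj j k u) : ℝ) : ℂ) * CST.vv u p).im := by
    intro n s b j k hjk u p
    have e1 : ∀ i, lab s b j k i u * p i = CST.lab0 b j k i u * p i
        + gv (fun u => (CST.phb s b (CST.rr u) : ℂ) * conj (zt u) ^ (0 + 1)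
            * ((normSq (cj j k u) : ℝ) : ℂ)) i u * p i := fun i => by
      unfold lab
      ring
    simp only [e1]
    rw [Finset.sum_add_distrib, CST.sum_gv]
    congr 1
    · have e2 : ∀ i, CST.lab0 b j k i u * p i =
          (if i = j then -(b (CST.rr u) * u k) * p i else 0)
            + (if i = k then b (CST.rr u) * u j * p i else 0) := fun i => by
        unfold CST.lab0
        by_cases h1 : i = j
        · simp [h1, hjk]
        · simp [h1]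
      simp only [e2]
      rw [Finset.sum_add_distrib, Finset.sum_ite_eq', Finset.sum_ite_eq']
      simp only [Finset.mem_univ, if_true]
      simp only [cj, mul_im, conj_re, conj_im]
      ring
    · simp
  have s1 : ∑ i, lz F i (cu PS f) * du dPS f h i = ∑ i, lab 3 F.H.F.C.b 5 6 i (cu PS f) * du dPS f h i
      + ∑ i, lab 5 F.H.b5 7 8 i (cu PS f) * du dPS f h i := by
    rw [← Finset.sum_add_distrib]
    refine Finset.sum_congr rfl fun i _ => ?_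
    unfold lz
    ring
  have s2 : ∑ i, OMG.lh F.H i (cu P9 f) * du dP9 f h i = ∑ i, lab 3 F.H.F.C.b 5 6 i (cu P9 f) * du dP9 f h i
      + ∑ i, lab 5 F.H.b5 7 8 i (cu P9 f) * du dP9 f h i := by
    rw [← Finset.sum_add_distrib]
    refine Finset.sum_congr rfl fun i _ => ?_
    unfold OMG.lh
    ring
  rw [s2, v11 3 _ 5 6 (by decide), v11 5 _ 7 8 (by decide), OMG.rru, OMG.ztu, OMG.vvu, OMG.cj3, OMG.cjd3,
    OMG.cj5, OMG.cjd5] at h1
  rw [s1, v11 3 _ 5 6 (by decide), v11 5 _ 7 8 (by decide), rru, ztu, vvu, cj3, cjd3, cj5, cjd5]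
  exact h1

/-- **the inequality on every surface with the deviation of the start map `Φ'`** -/
theorem rawZ (S' : Sys Φ' dΦ' K' L') {Bk : DevK} (HD : IsDevK Φ' dΦ' Bk) {W : ℝ → ℝ}
    (hW : ContDiffOn ℝ 1 W (Ioi 0)) (hW0 : ContinuousOn W (Ici 0)) (HF : F.Sm) (HB : F.Bo) {μ T : ℝ}
    (H : CertZ Bk W F μ T) {e : ℝ} (he : 0 < e) :
    ∃ d : ℝ, 0 < d ∧ ∀ (M : Type) [MetricSpace M] [CompactSpace M] (γ : ℝ → M) (C : Calc M γ), Bd γ →
      ∀ (ρ : ℝ) (m : ℕ), 0 ≤ ρ → ρ < 1 → 2 ≤ m → (1 - ρ) * (Real.pi / 2) + 2 * (Real.pi / m) ≤ d →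
        Integrable (CST.nur C fun i => pull γ ρ m (Φ' i)) C.μ ∧
        2 * Real.pi * W 0 - e + μ * ∫ o, CST.nur C (fun i => pull γ ρ m (Φ' i)) o ∂C.μ ≤ T * C.vol :=
  CST.raw_le_two sysS S' hW hW0 HF.cG (fun _ hε => GZ_small HB hε)
    (fun i => HF.cl i) (fun _ hε => lz_small HB hε)
    (fun _ _ _ hf V => hstZ HD hW HF H hf V) he

/-- **the area bound on every surface, from the certificate** -/
theorem areaZ {Bk : DevK} {W : ℝ → ℝ} (hW : ContDiffOn ℝ 1 W (Ioi 0)) (hW0 : ContinuousOn W (Ici 0))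
    (HF : F.Sm) (HB : F.Bo) {T : ℝ} (H : CertZ Bk W F 0 T) (M : Type) [MetricSpace M] [CompactSpace M]
    (γ : ℝ → M) (C : Calc M γ) (hγ : Bd γ) : 2 * Real.pi * W 0 ≤ T * C.vol := by
  have H' : CertZ (fun _ _ _ B => B) W F 0 T := by
    intro f hf K hK hK1 A B hA hB
    have := H f hf K hK hK1 A B hA hB
    linarith
  exact CST.area_le_add sysS hW hW0 HF.cG (fun _ hε => GZ_small HB hε)
    (fun i => HF.cl i) (fun _ hε => lz_small HB hε)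
    (fun f h k hf V => by
      have := hstZ isDevK_F54 hW HF H' hf V
      rwa [zero_mul, add_zero] at this) M γ C hγ

/-- the class of OMH -/
theorem certZ_of_H {Bk : DevK} {W : ℝ → ℝ} {F : CofH} {μ T : ℝ} (H : OMG.CertH Bk W F μ T) :
    CertZ Bk W ⟨F, ⟨fun _ => 0, fun _ => 0⟩⟩ μ T := by
  intro f hf K hK hK1 A B hA hB
  have h := H f hf K hK hK1 A B hA hB
  have e1 : mkZ ⟨F, ⟨fun _ => 0, fun _ => 0⟩⟩ f = mkH F f := by
    funext t
    unfold mkZ mkS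
    simp
  have e2 : WZ W ⟨F, ⟨fun _ => 0, fun _ => 0⟩⟩ f = WH W F f := by
    unfold WZ WS
    simp
  rw [e1, e2]
  exact h

end Pool.Agent.FPX.OMY
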