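import Mathlib
import Pool.Agent.FPX.XIU

/-
XIW (helper22): the displacement with twelve terms,
`xi12 κ μ = xi8 κ + μ₀ conj(ζ)⁴ C₅ + μ₁ ζ⁶ conj C₅ + (μ₂ ζ³ C₃ conj C₅ + μ₃ conj(ζ) C₅ conj C₃) / c`.
-/

open MeasureTheory Set Filter Topology
open scoped ENNReal NNReal ComplexConjugate

noncomputable section

namespace Pool.Agent.FPX.XIM

open Real Pool.Agent.FPX.UMP Pool.Agent.FPX.UMQ Pool.Agent.FPX.UXA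
open Pool.Agent.FPX.F54 (pr X1 X2 dX1 dX2 X_lt umap)
open Pool.Agent.FPX.S54 (cc YY vt Fv)
open Pool.Agent.FPX.SYS (CE dCE SE dSE)

/-- the two quadratic terms, before division by `c` -/
def q12 (μ : Fin 4 → ℝ → ℝ) (f : ℝ → ℝ) : ℂ :=
  g8 (μ 2) 3 0 f * (CE 3 f * conj (CE 5 f)) + g8 (μ 3) 0 1 f * (CE 5 f * conj (CE 3 f))

def dq12 (μ μ' : Fin 4 → ℝ → ℝ) (f h : ℝ → ℝ) : ℂ :=
  (dg8 (μ 2) (μ' 2) 3 0 f h * (CE 3 f * conj (CE 5 f))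
      + g8 (μ 2) 3 0 f * (dCE 3 f h * conj (CE 5 f) + CE 3 f * conj (dCE 5 f h)))
    + (dg8 (μ 3) (μ' 3) 0 1 f h * (CE 5 f * conj (CE 3 f))
      + g8 (μ 3) 0 1 f * (dCE 5 f h * conj (CE 3 f) + CE 5 f * conj (dCE 3 f h)))

/-- the four terms with `C₅` -/
def x4 (μ : Fin 4 → ℝ → ℝ) (f : ℝ → ℝ) : ℂ :=
  g8 (μ 0) 0 4 f * CE 5 f + g8 (μ 1) 6 0 f * conj (CE 5 f) + q12 μ f / (cf f : ℂ)

def dx4 (μ μ' : Fin 4 → ℝ → ℝ) (f h : ℝ → ℝ) : ℂ :=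
  (dg8 (μ 0) (μ' 0) 0 4 f h * CE 5 f + g8 (μ 0) 0 4 f * dCE 5 f h)
    + (dg8 (μ 1) (μ' 1) 6 0 f h * conj (CE 5 f) + g8 (μ 1) 6 0 f * conj (dCE 5 f h))
    + (dq12 μ μ' f h / (cf f : ℂ) - q12 μ f * (dcf f h : ℂ) / (cf f : ℂ) ^ 2)

/-- **the displacement with twelve terms** -/
def xi12 (κ : Fin 8 → ℝ → ℝ) (μ : Fin 4 → ℝ → ℝ) (f : ℝ → ℝ) : ℂ := xi8 κ f + x4 μ f

def dxi12 (κ κ' : Fin 8 → ℝ → ℝ) (μ μ' : Fin 4 → ℝ → ℝ) (f h : ℝ → ℝ) : ℂ := dxi8 κ κ' f h + dx4 μ μ' f h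

variable {κ κ' : Fin 8 → ℝ → ℝ} {μ μ' : Fin 4 → ℝ → ℝ} {G G' : Fin 8 → ℝ} {E E' : Fin 4 → ℝ}

theorem mo_x4 (H : ∀ j, Rad (μ j) (μ' j) (E j) (E' j)) : ∃ A B, Mo (x4 μ) (dx4 μ μ') A B := by
  have C := mo_CE (m := 3) (by norm_num)
  have D := mo_CE (m := 5) (by norm_num)
  have c0 := Mo.mulf (mu_g8 (H 0) 0 4) D
  have c1 := Mo.mulf (mu_g8 (H 1) 6 0) D.cj
  have c2 := Mo2.mulf (mu_g8 (H 2) 3 0) (C.mul D.cj)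
  have c3 := Mo2.mulf (mu_g8 (H 3) 0 1) (D.mul C.cj)
  exact ⟨_, _, (c0.add c1).add (c2.add c3).divc⟩

theorem mo_xi12 (H : ∀ j, Rad (κ j) (κ' j) (G j) (G' j)) (H4 : ∀ j, Rad (μ j) (μ' j) (E j) (E' j)) :
    ∃ A B, Mo (xi12 κ μ) (dxi12 κ κ' μ μ') A B := by
  obtain ⟨A, B, M⟩ := mo_xi8 H
  obtain ⟨A', B', M'⟩ := mo_x4 H4
  exact ⟨_, _, M.add M'⟩

theorem xi12_neg (κ : Fin 8 → ℝ → ℝ) (μ : Fin 4 → ℝ → ℝ) {f : ℝ → ℝ} (hf : Ef f) :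
    xi12 κ μ (fun t => -f t) = -xi12 κ μ f := by
  have h : x4 μ (fun t => -f t) = -x4 μ f := by
    unfold x4 q12
    simp only [g8_neg _ _ _ hf, CE_neg hf, cf_neg hf, map_neg]
    norm_num
    ring
  unfold xi12
  rw [xi8_neg κ hf, h]
  ring

/-- **admissible for the stereographic map** -/
theorem dispS_xi12 (H : ∀ j, Rad (κ j) (κ' j) (G j) (G' j)) (H4 : ∀ j, Rad (μ j) (μ' j) (E j) (E' j))
    {A : ℝ} (hA0 : 0 ≤ A) (hA1 : A ≤ 1) (hle : ∀ f, Ef f → ‖xi12 κ μ f‖ ≤ A * cf f) :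
    ∃ B, DispS (xi12 κ μ) (dxi12 κ κ' μ μ') A B := by
  obtain ⟨A', B, M⟩ := mo_xi12 H H4
  exact ⟨B, Mo.dispS ⟨M.re, M.im, hA0, M.B0, hle, M.bd⟩ hA1 fun f hf => xi12_neg κ μ hf⟩

/-- the size of the four terms, `s = |ζ|` -/
def W4 (μ : Fin 4 → ℝ → ℝ) (q p s c : ℝ) : ℝ :=
  |μ 0 c| * s ^ 4 * p + |μ 1 c| * s ^ 6 * p + (|μ 2 c| * s ^ 3 * (q * p) + |μ 3 c| * s * (q * p))

theorem norm_x4_le {f : ℝ → ℝ} (hf : Ef f) {q p : ℝ} (hq : 0 ≤ q) (hC : ‖CE 3 f‖ ≤ q * cf f)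
    (hD : ‖CE 5 f‖ ≤ p * cf f) : ‖x4 μ f‖ ≤ W4 μ q p ‖zf f‖ (cf f) * cf f := by
  have hc := cf_pos hf
  have hz := norm_nonneg (zf f)
  have hCD : ‖CE 3 f‖ * ‖CE 5 f‖ ≤ q * p * cf f ^ 2 := by
    refine (mul_le_mul hC hD (norm_nonneg _) (by positivity)).trans (le_of_eq ?_)
    ring
  have b0 : ‖g8 (μ 0) 0 4 f * CE 5 f‖ ≤ |μ 0 (cf f)| * ‖zf f‖ ^ 4 * p * cf f := by
    rw [norm_mul, norm_g8]
    refine (mul_le_mul_of_nonneg_left hD (by positivity)).trans (le_of_eq ?_)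
    ring
  have b1 : ‖g8 (μ 1) 6 0 f * conj (CE 5 f)‖ ≤ |μ 1 (cf f)| * ‖zf f‖ ^ 6 * p * cf f := by
    rw [norm_mul, norm_g8, Complex.norm_conj]
    refine (mul_le_mul_of_nonneg_left hD (by positivity)).trans (le_of_eq ?_)
    ring
  have b2 : ‖g8 (μ 2) 3 0 f * (CE 3 f * conj (CE 5 f))‖
      ≤ |μ 2 (cf f)| * ‖zf f‖ ^ 3 * (q * p) * cf f ^ 2 := by
    rw [norm_mul, norm_g8, norm_mul, Complex.norm_conj]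
    refine (mul_le_mul_of_nonneg_left hCD (by positivity)).trans (le_of_eq ?_)
    ring
  have b3 : ‖g8 (μ 3) 0 1 f * (CE 5 f * conj (CE 3 f))‖
      ≤ |μ 3 (cf f)| * ‖zf f‖ * (q * p) * cf f ^ 2 := by
    rw [norm_mul, norm_g8, norm_mul, Complex.norm_conj, mul_comm ‖CE 5 f‖]
    refine (mul_le_mul_of_nonneg_left hCD (by positivity)).trans (le_of_eq ?_)
    ring
  have bq : ‖q12 μ f / (cf f : ℂ)‖
      ≤ (|μ 2 (cf f)| * ‖zf f‖ ^ 3 * (q * p) + |μ 3 (cf f)| * ‖zf f‖ * (q * p)) * cf f := by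
    rw [norm_div, Complex.norm_real, Real.norm_eq_abs, abs_of_pos hc, div_le_iff₀ hc]
    unfold q12
    refine ((norm_add_le _ _).trans (add_le_add b2 b3)).trans (le_of_eq ?_)
    ring
  unfold x4 W4
  refine (norm_add_le _ _).trans ((add_le_add ((norm_add_le _ _).trans (add_le_add b0 b1)) bq).trans
    (le_of_eq ?_))
  ring

/-- **size of the displacement when `|C₃| ≤ q c`, `|C₅| ≤ p c` and `S₀ ≤ r² c²`** -/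
theorem norm_xi12_le {f : ℝ → ℝ} (hf : Ef f) {q p r : ℝ} (hq : 0 ≤ q)
    (hC : ‖CE 3 f‖ ≤ q * cf f) (hD : ‖CE 5 f‖ ≤ p * cf f) (h : S54.S0 f ≤ r ^ 2 * cf f ^ 2) :
    ‖xi12 κ μ f‖ ≤ (W8 κ q r ‖zf f‖ (cf f) + W4 μ q p ‖zf f‖ (cf f)) * cf f := by
  rw [add_mul]
  exact (norm_add_le _ _).trans (add_le_add (norm_xi8_le hf hq hC h) (norm_x4_le hf hq hC hD))

end Pool.Agent.FPX.XIM
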