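import Mathlib
import Pool.Agent.FPX.XIP
import Pool.Agent.FPX.XIW
import Pool.Agent.FPX.OMH

/-
XIP9 (helper22): the calculus of XIP (helper47) with `C₅`: covariant derivatives which are linear forms in `v`,
`∇C₃`, `∇S₂`, `mean (δ h)`, `∇C₅`; the deviation (`IsDevK`) of the stereographic start map of such a displacement,
and of the displacement with twelve terms `xi12` of XIW.
-/

open MeasureTheory Set Filter Topology Complex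
open scoped ENNReal NNReal ContDiff ComplexConjugate

noncomputable section

namespace Pool.Agent.FPX.XIP

open Pool.Agent.FPX.UMP Pool.Agent.FPX.UMQ Pool.Agent.FPX.UXA Pool.Agent.EWD
open Pool.Agent.FPX.F54 (X1 X2 dX1 dX2 X_lt vF sF)
open Pool.Agent.FPX.S54 (YY vt Fv mS dS2 dS0 de)
open Pool.Agent.FPX.OMB (vm)
open Pool.Agent.FPX.CST (cu du nu ja zt vv cj)
open Pool.Agent.FPX.OMS (cF cF_eq Aa Ba Kc)
open Pool.Agent.FPX.SYS (CE dCE K2 K0)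
open Pool.Agent.FPX.OM7 (NC NS cd D5 L3 IsDev Dev Cp Cm Sp Sm NC_pm NS_pm K0_pm)
open Pool.Agent.FPX.OMG (P9 dP9 NC5 Cp5 Cm5 NC5_pm DevK IsDevK)
open Pool.Agent.FPX.XIM (zf cf dzf dcf cf_pos St1 St2 dSt1 dSt2 DispS g8 dg8 q8 dq8 xi8 dxi8 q12 dq12 x4 dx4
  xi12 dxi12)

/-! ### the covariant derivative of `C₅` -/

theorem cv_C5 {f : ℝ → ℝ} (hf : Ef f) (h : ℝ → ℝ) :
    Cv (cf f) (zf f) (vF f h) 5 (CE 5 f) (dCE 5 f h) (NC5 f h) := by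
  have e := OMG.hC5 hf h
  rw [OMG.cjd5, OMG.cj5] at e
  unfold Cv
  rw [e]
  unfold CST.tt
  rw [OMG.ztu, OMG.vvu, OMG.ccu, ← cF_eq]
  unfold wd
  push_cast
  rfl

/-! ### linear forms -/

/-- a linear form in nine variables -/
def L9 (l : Fin 9 → ℂ) (x0 x1 x2 x3 x4 x5 x6 x7 x8 : ℂ) : ℂ :=
  l 0 * x0 + l 1 * x1 + l 2 * x2 + l 3 * x3 + l 4 * x4 + l 5 * x5 + l 6 * x6 + l 7 * x7 + l 8 * x8

/-- the covariant derivative with the coefficients `l` -/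
def Nf9 (l : (ℝ → ℝ) → Fin 9 → ℂ) (f h : ℝ → ℝ) : ℂ :=
  L9 (l f) (vF f h) (conj (vF f h)) (NC f h) (conj (NC f h)) (NS f h) (conj (NS f h)) ((K0 f h : ℝ) : ℂ)
    (NC5 f h) (conj (NC5 f h))

/-- the part of type `conj K` -/
def Np9 (l : (ℝ → ℝ) → Fin 9 → ℂ) (f : ℝ → ℝ) (A B N M S R D N5 M5 : ℂ) : ℂ :=
  L9 (l f) A (conj B) N (conj M) S (conj R) (conj D) N5 (conj M5)

/-- the part of type `K` -/
def Nm9 (l : (ℝ → ℝ) → Fin 9 → ℂ) (f : ℝ → ℝ) (A B N M S R D N5 M5 : ℂ) : ℂ :=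
  L9 (l f) B (conj A) M (conj N) R (conj S) D M5 (conj N5)

theorem Nf9_pm (l : (ℝ → ℝ) → Fin 9 → ℂ) (f h k : ℝ → ℝ) :
    (Nf9 l f h - I * Nf9 l f k) / 2 = Np9 l f (Aa f h k) (Ba f h k) ((NC f h - I * NC f k) / 2)
        ((NC f h + I * NC f k) / 2) ((NS f h - I * NS f k) / 2) ((NS f h + I * NS f k) / 2)
        ((((K0 f h : ℝ) : ℂ) + I * ((K0 f k : ℝ) : ℂ)) / 2) ((NC5 f h - I * NC5 f k) / 2)
        ((NC5 f h + I * NC5 f k) / 2) ∧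
      (Nf9 l f h + I * Nf9 l f k) / 2 = Nm9 l f (Aa f h k) (Ba f h k) ((NC f h - I * NC f k) / 2)
        ((NC f h + I * NC f k) / 2) ((NS f h - I * NS f k) / 2) ((NS f h + I * NS f k) / 2)
        ((((K0 f h : ℝ) : ℂ) + I * ((K0 f k : ℝ) : ℂ)) / 2) ((NC5 f h - I * NC5 f k) / 2)
        ((NC5 f h + I * NC5 f k) / 2) := by
  have c2 : conj (2 : ℂ) = 2 := map_ofNat _ 2
  unfold Nf9 Np9 Nm9 L9 Aa Ba
  simp only [map_div₀, map_add, map_sub, map_mul, conj_I, c2, Complex.conj_ofReal]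
  constructor <;> ring

/-- the covariant derivative of the displacement `ξ` has the coefficients `l` -/
def HasL9 (ξ : (ℝ → ℝ) → ℂ) (dξ : (ℝ → ℝ) → (ℝ → ℝ) → ℂ) (l : (ℝ → ℝ) → Fin 9 → ℂ) : Prop :=
  ∀ f h, Ef f → Cv (cf f) (zf f) (vF f h) 1 (ξ f) (dξ f h) (Nf9 l f h)

/-- the deviation of the stereographic map as a function of the nine components -/
def Bst9 (ξ : (ℝ → ℝ) → ℂ) (l : (ℝ → ℝ) → Fin 9 → ℂ) (f : ℝ → ℝ) (A B N M S R D N5 M5 : ℂ) : ℂ :=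
  (B + Nm9 l f A B N M S R D N5 M5 + ξ f ^ 2 / 4 * conj A) / (qp (ξ f) : ℂ)

/-- the other part of the derivative -/
def Ast9 (ξ : (ℝ → ℝ) → ℂ) (l : (ℝ → ℝ) → Fin 9 → ℂ) (f : ℝ → ℝ) (A B N M S R D N5 M5 : ℂ) : ℂ :=
  (A + Np9 l f A B N M S R D N5 M5 + ξ f ^ 2 / 4 * conj B) / (qp (ξ f) : ℂ)

/-- the values of the nine components at a function `K` -/
def at9 (G : (ℝ → ℝ) → ℂ → ℂ → ℂ → ℂ → ℂ → ℂ → ℂ → ℂ → ℂ → ℂ) : DevK := fun f K A B =>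
  G f A B (Cp f A B (∫ t, C54.ep (X1 f) (X2 f) t ^ 3 * conj (K t) ∂(vm (X1 f) (X2 f))))
    (Cm f A B (∫ t, C54.ep (X1 f) (X2 f) t ^ 3 * K t ∂(vm (X1 f) (X2 f))))
    (Sp f A B (∫ t, ((de (X1 f) (X2 f) f t : ℂ) * C54.ep (X1 f) (X2 f) t ^ 2) * conj (K t) ∂(vm (X1 f) (X2 f))))
    (Sm f A B (∫ t, ((de (X1 f) (X2 f) f t : ℂ) * C54.ep (X1 f) (X2 f) t ^ 2) * K t ∂(vm (X1 f) (X2 f))))
    (∫ t, (de (X1 f) (X2 f) f t : ℂ) * K t ∂(vm (X1 f) (X2 f)))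
    (Cp5 f A B (∫ t, C54.ep (X1 f) (X2 f) t ^ 5 * conj (K t) ∂(vm (X1 f) (X2 f))))
    (Cm5 f A B (∫ t, C54.ep (X1 f) (X2 f) t ^ 5 * K t ∂(vm (X1 f) (X2 f))))

/-- the deviation of the stereographic map -/
def BstK (ξ : (ℝ → ℝ) → ℂ) (l : (ℝ → ℝ) → Fin 9 → ℂ) : DevK := at9 (Bst9 ξ l)

section Dev

variable {ξ : (ℝ → ℝ) → ℂ} {dξ : (ℝ → ℝ) → (ℝ → ℝ) → ℂ} {l : (ℝ → ℝ) → Fin 9 → ℂ}

theorem VS9_pm (f h k : ℝ → ℝ) :
    (VS (ξ f) (vF f h) (Nf9 l f h) - I * VS (ξ f) (vF f k) (Nf9 l f k)) / 2 =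
        Ast9 ξ l f (Aa f h k) (Ba f h k) ((NC f h - I * NC f k) / 2) ((NC f h + I * NC f k) / 2)
          ((NS f h - I * NS f k) / 2) ((NS f h + I * NS f k) / 2)
          ((((K0 f h : ℝ) : ℂ) + I * ((K0 f k : ℝ) : ℂ)) / 2) ((NC5 f h - I * NC5 f k) / 2)
          ((NC5 f h + I * NC5 f k) / 2) ∧
      (VS (ξ f) (vF f h) (Nf9 l f h) + I * VS (ξ f) (vF f k) (Nf9 l f k)) / 2 =
        Bst9 ξ l f (Aa f h k) (Ba f h k) ((NC f h - I * NC f k) / 2) ((NC f h + I * NC f k) / 2)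
          ((NS f h - I * NS f k) / 2) ((NS f h + I * NS f k) / 2)
          ((((K0 f h : ℝ) : ℂ) + I * ((K0 f k : ℝ) : ℂ)) / 2) ((NC5 f h - I * NC5 f k) / 2)
          ((NC5 f h + I * NC5 f k) / 2) := by
  obtain ⟨e1, e2⟩ := Nf9_pm l f h k
  have c2 : conj (2 : ℂ) = 2 := map_ofNat _ 2
  unfold Ast9 Bst9
  rw [← e1, ← e2]
  unfold VS Aa Ba
  simp only [map_div₀, map_add, map_sub, map_mul, conj_I, c2]
  constructor <;> ring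

/-- **the deviation of the stereographic map** -/
theorem isDevK_st {A' B' : ℝ} (DS : DispS ξ dξ A' B') (H : HasL9 ξ dξ l) :
    IsDevK (n' := 0) ![St1 ξ, St2 ξ] ![dSt1 ξ dξ, dSt2 ξ dξ] (BstK ξ l) := by
  intro f h k hf V
  have k1 := st_vv hf (DS.pos f hf) (H f h hf).eq1 (H f k hf).eq1
  have k2 := st_vv hf (DS.pos f hf) (H f k hf).eq1 (H f h hf).eq1
  unfold nu
  rw [k1.1, k2.1, k1.2]
  have e := dev_eq (VS (ξ f) (vF f h) (Nf9 l f h)) (VS (ξ f) (vF f k) (Nf9 l f k))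
  unfold wd
  rw [e, (VS9_pm f h k).2, (NC_pm hf V).1, (NC_pm hf V).2, (NS_pm hf V).1, (NS_pm hf V).2, K0_pm hf V,
    (NC5_pm hf V).1, (NC5_pm hf V).2]
  rfl

/-- the Jacobian of the stereographic map -/
theorem jac9_st {A' B' : ℝ} (DS : DispS ξ dξ A' B') (H : HasL9 ξ dξ l) {f : ℝ → ℝ} (hf : Ef f)
    (h k : ℝ → ℝ) :
    ja (n := 0) (cu (n := 0) ![St1 ξ, St2 ξ] f) (du (n := 0) ![dSt1 ξ dξ, dSt2 ξ dξ] f h)
        (du (n := 0) ![dSt1 ξ dξ, dSt2 ξ dξ] f k) =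
      ‖Ast9 ξ l f (Aa f h k) (Ba f h k) ((NC f h - I * NC f k) / 2) ((NC f h + I * NC f k) / 2)
          ((NS f h - I * NS f k) / 2) ((NS f h + I * NS f k) / 2)
          ((((K0 f h : ℝ) : ℂ) + I * ((K0 f k : ℝ) : ℂ)) / 2) ((NC5 f h - I * NC5 f k) / 2)
          ((NC5 f h + I * NC5 f k) / 2)‖ ^ 2 -
      ‖Bst9 ξ l f (Aa f h k) (Ba f h k) ((NC f h - I * NC f k) / 2) ((NC f h + I * NC f k) / 2)
          ((NS f h - I * NS f k) / 2) ((NS f h + I * NS f k) / 2)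
          ((((K0 f h : ℝ) : ℂ) + I * ((K0 f k : ℝ) : ℂ)) / 2) ((NC5 f h - I * NC5 f k) / 2)
          ((NC5 f h + I * NC5 f k) / 2)‖ ^ 2 := by
  have k1 := st_vv hf (DS.pos f hf) (H f h hf).eq1 (H f k hf).eq1
  rw [k1.2, ← (VS9_pm f h k).1, ← (VS9_pm f h k).2]
  exact CST.pol3 _ _

end Dev

/-! ### the displacement with twelve terms -/

/-- the quadratic terms of `x4` -/
def qx (μ : Fin 4 → ℝ → ℝ) (f : ℝ → ℝ) : ℂ := q12 μ f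

/-- the coefficients of the covariant derivative of `xi12` -/
def l12 (κ κ' : Fin 8 → ℝ → ℝ) (μ μ' : Fin 4 → ℝ → ℝ) (f : ℝ → ℝ) : Fin 9 → ℂ := ![
  l8 κ κ' f 0 + (gv8 (μ 0) (μ' 0) 0 4 f * CE 5 f + gv8 (μ 1) (μ' 1) 6 0 f * conj (CE 5 f)
    + (gv8 (μ 2) (μ' 2) 3 0 f * (CE 3 f * conj (CE 5 f)) + gv8 (μ 3) (μ' 3) 0 1 f * (CE 5 f * conj (CE 3 f)))
      / (cf f : ℂ)
    + q12 μ f * (conj (zf f) / 2) / (cf f : ℂ) ^ 2),
  l8 κ κ' f 1 + (gw8 (μ 0) (μ' 0) 0 4 f * CE 5 f + gw8 (μ 1) (μ' 1) 6 0 f * conj (CE 5 f)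
    + (gw8 (μ 2) (μ' 2) 3 0 f * (CE 3 f * conj (CE 5 f)) + gw8 (μ 3) (μ' 3) 0 1 f * (CE 5 f * conj (CE 3 f)))
      / (cf f : ℂ)
    + q12 μ f * (zf f / 2) / (cf f : ℂ) ^ 2),
  l8 κ κ' f 2 + g8 (μ 2) 3 0 f * conj (CE 5 f) / (cf f : ℂ),
  l8 κ κ' f 3 + g8 (μ 3) 0 1 f * CE 5 f / (cf f : ℂ),
  l8 κ κ' f 4, l8 κ κ' f 5, l8 κ κ' f 6,
  g8 (μ 0) 0 4 f + g8 (μ 3) 0 1 f * conj (CE 3 f) / (cf f : ℂ),
  g8 (μ 1) 6 0 f + g8 (μ 2) 3 0 f * CE 3 f / (cf f : ℂ)]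

/-- **the covariant derivative of `xi12`** -/
theorem hasL_xi12 (κ κ' : Fin 8 → ℝ → ℝ) (μ μ' : Fin 4 → ℝ → ℝ) :
    HasL9 (xi12 κ μ) (dxi12 κ κ' μ μ') (l12 κ κ' μ μ') := by
  intro f h hf
  have hc := cf_pos hf
  have hc1 : (cf f : ℂ) ≠ 0 := Complex.ofReal_ne_zero.2 hc.ne'
  have C := cv_C3 hf h
  have D := cv_C5 hf h
  have t0 := ((cv_g8 hf h (μ 0) (μ' 0) 0 4).mul D).spin (s' := 1) (by norm_num)
  have t1 := ((cv_g8 hf h (μ 1) (μ' 1) 6 0).mul D.cj).spin (s' := 1) (by norm_num)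
  have t2 := ((cv_g8 hf h (μ 2) (μ' 2) 3 0).mul (C.mul D.cj)).spin (s' := 1) (by norm_num)
  have t3 := ((cv_g8 hf h (μ 3) (μ' 3) 0 1).mul (D.mul C.cj)).spin (s' := 1) (by norm_num)
  have t := (hasL_xi8 κ κ' f h hf).add ((t0.add t1).add ((t2.add t3).divc (dcf f h)))
  unfold Cv at t ⊢
  have e : dxi12 κ κ' μ μ' f h = _ := t
  rw [e]
  congr 1
  rw [dcf_eq hf h]
  clear e t t0 t1 t2 t3 C D
  unfold Nf9 Nf L9 L7 l12 q12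
  rw [Complex.ofReal_neg, ip_cx]
  simp only [Matrix.cons_val]
  generalize l8 κ κ' f 0 = y0
  generalize l8 κ κ' f 1 = y1
  generalize l8 κ κ' f 2 = y2
  generalize l8 κ κ' f 3 = y3
  generalize l8 κ κ' f 4 = y4
  generalize l8 κ κ' f 5 = y5
  generalize l8 κ κ' f 6 = y6
  unfold gv8 gw8
  generalize gv (μ 0 (cf f)) (μ' 0 (cf f)) (cf f) (zf f) 0 4 = v0
  generalize gw (μ 0 (cf f)) (μ' 0 (cf f)) (cf f) (zf f) 0 4 = w0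
  generalize gv (μ 1 (cf f)) (μ' 1 (cf f)) (cf f) (zf f) 6 0 = v1
  generalize gw (μ 1 (cf f)) (μ' 1 (cf f)) (cf f) (zf f) 6 0 = w1
  generalize gv (μ 2 (cf f)) (μ' 2 (cf f)) (cf f) (zf f) 3 0 = v2
  generalize gw (μ 2 (cf f)) (μ' 2 (cf f)) (cf f) (zf f) 3 0 = w2
  generalize gv (μ 3 (cf f)) (μ' 3 (cf f)) (cf f) (zf f) 0 1 = v3
  generalize gw (μ 3 (cf f)) (μ' 3 (cf f)) (cf f) (zf f) 0 1 = w3
  generalize g8 (μ 0) 0 4 f = g0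
  generalize g8 (μ 1) 6 0 f = g1
  generalize g8 (μ 2) 3 0 f = g2
  generalize g8 (μ 3) 0 1 f = g3
  generalize conj (CE 3 f) = cb
  generalize CE 3 f = cx
  generalize conj (CE 5 f) = db
  generalize CE 5 f = dx
  generalize conj (vF f h) = vb
  generalize vF f h = v
  generalize conj (NC f h) = nb
  generalize NC f h = nx
  generalize conj (NC5 f h) = pb
  generalize NC5 f h = px
  generalize conj (NS f h) = mb
  generalize NS f h = mx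
  generalize ((K0 f h : ℝ) : ℂ) = k0
  generalize conj (zf f) = zb
  generalize zf f = z
  generalize (cf f : ℂ) = c at *
  field_simp
  ring

/-- the deviation of the stereographic map of `xi12` -/
def Bk12 (κ κ' : Fin 8 → ℝ → ℝ) (μ μ' : Fin 4 → ℝ → ℝ) : DevK := BstK (xi12 κ μ) (l12 κ κ' μ μ')

/-- **the deviation of the stereographic start map with twelve terms** -/
theorem isDevK_xi12 {κ κ' : Fin 8 → ℝ → ℝ} {μ μ' : Fin 4 → ℝ → ℝ} {A' B' : ℝ}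
    (DS : DispS (xi12 κ μ) (dxi12 κ κ' μ μ') A' B') :
    IsDevK (n' := 0) ![St1 (xi12 κ μ), St2 (xi12 κ μ)]
      ![dSt1 (xi12 κ μ) (dxi12 κ κ' μ μ'), dSt2 (xi12 κ μ) (dxi12 κ κ' μ μ')] (Bk12 κ κ' μ μ') :=
  isDevK_st DS (hasL_xi12 κ κ' μ μ')

end Pool.Agent.FPX.XIP
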