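import Mathlib
import Pool.Agent.FPX.XIP9
import Pool.Agent.FPX.OMY

/-
XIS (helper22): the displacement with fourteen terms
`xi14 κ μ ν = xi12 κ μ + [ν₀ conj(ζ)³ S₄ + ν₁ ζ⁵ conj S₄] / c` : admissible for the stereographic map, size,
covariant derivative (linear form in eleven components), deviation (`IsDevK`) of the start map.
-/

open MeasureTheory Set Filter Topology Complex
open scoped ENNReal NNReal ContDiff ComplexConjugate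

noncomputable section

namespace Pool.Agent.FPX.XIM

open Real Pool.Agent.FPX.UMP Pool.Agent.FPX.UMQ Pool.Agent.FPX.UXA
open Pool.Agent.FPX.F54 (pr X1 X2 dX1 dX2 X_lt umap)
open Pool.Agent.FPX.S54 (cc YY vt Fv)
open Pool.Agent.FPX.SYS (CE dCE SE dSE)

/-- the two terms with `S₄`, before division by `c` -/
def q2s (ν : Fin 2 → ℝ → ℝ) (f : ℝ → ℝ) : ℂ := g8 (ν 0) 0 3 f * SE 4 f + g8 (ν 1) 5 0 f * conj (SE 4 f)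

def dq2s (ν ν' : Fin 2 → ℝ → ℝ) (f h : ℝ → ℝ) : ℂ :=
  (dg8 (ν 0) (ν' 0) 0 3 f h * SE 4 f + g8 (ν 0) 0 3 f * dSE 4 f h)
    + (dg8 (ν 1) (ν' 1) 5 0 f h * conj (SE 4 f) + g8 (ν 1) 5 0 f * conj (dSE 4 f h))

def x2 (ν : Fin 2 → ℝ → ℝ) (f : ℝ → ℝ) : ℂ := q2s ν f / (cf f : ℂ)

def dx2 (ν ν' : Fin 2 → ℝ → ℝ) (f h : ℝ → ℝ) : ℂ :=
  dq2s ν ν' f h / (cf f : ℂ) - q2s ν f * (dcf f h : ℂ) / (cf f : ℂ) ^ 2

/-- **the displacement with fourteen terms** -/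
def xi14 (κ : Fin 8 → ℝ → ℝ) (μ : Fin 4 → ℝ → ℝ) (ν : Fin 2 → ℝ → ℝ) (f : ℝ → ℝ) : ℂ := xi12 κ μ f + x2 ν f

def dxi14 (κ κ' : Fin 8 → ℝ → ℝ) (μ μ' : Fin 4 → ℝ → ℝ) (ν ν' : Fin 2 → ℝ → ℝ) (f h : ℝ → ℝ) : ℂ :=
  dxi12 κ κ' μ μ' f h + dx2 ν ν' f h

section disp

variable {κ κ' : Fin 8 → ℝ → ℝ} {μ μ' : Fin 4 → ℝ → ℝ} {ν ν' : Fin 2 → ℝ → ℝ} {G G' : Fin 8 → ℝ}
  {E E' : Fin 4 → ℝ} {H H' : Fin 2 → ℝ}

theorem mo_x2 (R : ∀ j, Rad (ν j) (ν' j) (H j) (H' j)) : ∃ A B, Mo (x2 ν) (dx2 ν ν') A B := by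
  have S := mo2_SE 4
  have c0 := Mo2.mulf (mu_g8 (R 0) 0 3) S
  have c1 := Mo2.mulf (mu_g8 (R 1) 5 0) S.cj
  exact ⟨_, _, (c0.add c1).divc⟩

theorem mo_xi14 (R8 : ∀ j, Rad (κ j) (κ' j) (G j) (G' j)) (R4 : ∀ j, Rad (μ j) (μ' j) (E j) (E' j))
    (R2 : ∀ j, Rad (ν j) (ν' j) (H j) (H' j)) : ∃ A B, Mo (xi14 κ μ ν) (dxi14 κ κ' μ μ' ν ν') A B := by
  obtain ⟨A, B, M⟩ := mo_xi12 R8 R4
  obtain ⟨A', B', M'⟩ := mo_x2 R2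
  exact ⟨_, _, M.add M'⟩

theorem xi14_neg (κ : Fin 8 → ℝ → ℝ) (μ : Fin 4 → ℝ → ℝ) (ν : Fin 2 → ℝ → ℝ) {f : ℝ → ℝ} (hf : Ef f) :
    xi14 κ μ ν (fun t => -f t) = -xi14 κ μ ν f := by
  have h : x2 ν (fun t => -f t) = -x2 ν f := by
    unfold x2 q2s
    simp only [g8_neg _ _ _ hf, SE_neg hf, cf_neg hf]
    norm_num
    ring
  unfold xi14
  rw [xi12_neg κ μ hf, h]
  ring

/-- **admissible for the stereographic map** -/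
theorem dispS_xi14 (R8 : ∀ j, Rad (κ j) (κ' j) (G j) (G' j)) (R4 : ∀ j, Rad (μ j) (μ' j) (E j) (E' j))
    (R2 : ∀ j, Rad (ν j) (ν' j) (H j) (H' j)) {A : ℝ} (hA0 : 0 ≤ A) (hA1 : A ≤ 1)
    (hle : ∀ f, Ef f → ‖xi14 κ μ ν f‖ ≤ A * cf f) : ∃ B, DispS (xi14 κ μ ν) (dxi14 κ κ' μ μ' ν ν') A B := by
  obtain ⟨A', B, M⟩ := mo_xi14 R8 R4 R2
  exact ⟨B, Mo.dispS ⟨M.re, M.im, hA0, M.B0, hle, M.bd⟩ hA1 fun f hf => xi14_neg κ μ ν hf⟩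

/-- the size of the two terms, `s = |ζ|` -/
def W2 (ν : Fin 2 → ℝ → ℝ) (r s c : ℝ) : ℝ := |ν 0 c| * s ^ 3 * r ^ 2 + |ν 1 c| * s ^ 5 * r ^ 2

theorem norm_x2_le {f : ℝ → ℝ} (hf : Ef f) {r : ℝ} (h : S54.S0 f ≤ r ^ 2 * cf f ^ 2) :
    ‖x2 ν f‖ ≤ W2 ν r ‖zf f‖ (cf f) * cf f := by
  have hc := cf_pos hf
  have hz := norm_nonneg (zf f)
  have hS := (norm_SE_le hf 4).trans h
  have b0 : ‖g8 (ν 0) 0 3 f * SE 4 f‖ ≤ |ν 0 (cf f)| * ‖zf f‖ ^ 3 * r ^ 2 * cf f ^ 2 := by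
    rw [norm_mul, norm_g8]
    refine (mul_le_mul_of_nonneg_left hS (by positivity)).trans (le_of_eq ?_)
    ring
  have b1 : ‖g8 (ν 1) 5 0 f * conj (SE 4 f)‖ ≤ |ν 1 (cf f)| * ‖zf f‖ ^ 5 * r ^ 2 * cf f ^ 2 := by
    rw [norm_mul, norm_g8, Complex.norm_conj]
    refine (mul_le_mul_of_nonneg_left hS (by positivity)).trans (le_of_eq ?_)
    ring
  unfold x2 W2
  rw [norm_div, Complex.norm_real, Real.norm_eq_abs, abs_of_pos hc, div_le_iff₀ hc]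
  unfold q2s
  refine ((norm_add_le _ _).trans (add_le_add b0 b1)).trans (le_of_eq ?_)
  ring

/-- **size of the displacement when `|C₃| ≤ q c`, `|C₅| ≤ p c` and `S₀ ≤ r² c²`** -/
theorem norm_xi14_le {f : ℝ → ℝ} (hf : Ef f) {q p r : ℝ} (hq : 0 ≤ q)
    (hC : ‖CE 3 f‖ ≤ q * cf f) (hD : ‖CE 5 f‖ ≤ p * cf f) (h : S54.S0 f ≤ r ^ 2 * cf f ^ 2) :
    ‖xi14 κ μ ν f‖ ≤ (W8 κ q r ‖zf f‖ (cf f) + W4 μ q p ‖zf f‖ (cf f) + W2 ν r ‖zf f‖ (cf f)) * cf f := by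
  rw [add_mul]
  exact (norm_add_le _ _).trans (add_le_add (norm_xi12_le hf hq hC hD h) (norm_x2_le hf h))

end disp

end Pool.Agent.FPX.XIM

namespace Pool.Agent.FPX.XIP

open Pool.Agent.FPX.UMP Pool.Agent.FPX.UMQ Pool.Agent.FPX.UXA Pool.Agent.EWD
open Pool.Agent.FPX.F54 (X1 X2 dX1 dX2 X_lt vF sF)
open Pool.Agent.FPX.S54 (YY vt Fv mS dS2 dS0 de)
open Pool.Agent.FPX.OMB (vm vm_prob bm_ep bm_real)
open Pool.Agent.FPX.CST (cu du nu ja zt vv cj)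
open Pool.Agent.FPX.OMS (cF cF_eq Aa Ba Kc)
open Pool.Agent.FPX.SYS (CE dCE K2 K0 SE dSE K4 m4 n4)
open Pool.Agent.FPX.OM7 (NC NS cd D5 L3 IsDev Dev Cp Cm Sp Sm NC_pm NS_pm K0_pm two_pm bm_de bm_pow)
open Pool.Agent.FPX.OMG (P9 dP9 NC5 Cp5 Cm5 NC5_pm DevK IsDevK)
open Pool.Agent.FPX.OMY (NS4 PS dPS K4_vm)
open Pool.Agent.FPX.XIM (zf cf dzf dcf cf_pos St1 St2 dSt1 dSt2 DispS g8 dg8 q8 dq8 xi8 dxi8 q12 dq12 x4 dx4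
  xi12 dxi12 q2s dq2s x2 dx2 xi14 dxi14)

/-! ### the covariant derivative of `S₄` -/

theorem cv_S4 {f : ℝ → ℝ} (hf : Ef f) (h : ℝ → ℝ) :
    Cv (cf f) (zf f) (vF f h) 4 (SE 4 f) (dSE 4 f h) (NS4 f h) := by
  have e := OMY.hS4 hf h
  rw [OMY.cjd4, OMY.cj4] at e
  unfold Cv
  rw [e]
  unfold CST.tt
  rw [OMY.ztu, OMY.vvu, OMY.ccu, ← cF_eq]
  unfold wd
  push_cast
  rfl

/-- the part of type `conj K` of `∇S₄`; `S = mean (δ ε⁴ conj K)` -/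
def Sp4 (f : ℝ → ℝ) (A B S : ℂ) : ℂ :=
  S + conj B * m4 f + A * n4 f
    - 1 / (cF f : ℂ) * (conj (YY (X1 f) (X2 f)) * A - YY (X1 f) (X2 f) * conj B) * SE 4 f

/-- the part of type `K` of `∇S₄`; `S = mean (δ ε⁴ K)` -/
def Sm4 (f : ℝ → ℝ) (A B S : ℂ) : ℂ :=
  S + conj A * m4 f + B * n4 f
    - 1 / (cF f : ℂ) * (conj (YY (X1 f) (X2 f)) * B - YY (X1 f) (X2 f) * conj A) * SE 4 f

theorem NS4_pm {f h k : ℝ → ℝ} (hf : Ef f) (V : Var h k) :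
    (NS4 f h - I * NS4 f k) / 2 = Sp4 f (Aa f h k) (Ba f h k)
        (∫ t, ((de (X1 f) (X2 f) f t : ℂ) * C54.ep (X1 f) (X2 f) t ^ 4) * conj (Kc h k t) ∂(vm (X1 f) (X2 f))) ∧
      (NS4 f h + I * NS4 f k) / 2 = Sm4 f (Aa f h k) (Ba f h k)
        (∫ t, ((de (X1 f) (X2 f) f t : ℂ) * C54.ep (X1 f) (X2 f) t ^ 4) * Kc h k t ∂(vm (X1 f) (X2 f))) := by
  have hX := X_lt hf
  have := vm_prob hX
  obtain ⟨e1, e2⟩ := two_pm (μ := vm (X1 f) (X2 f)) ((bm_de hf).mul (bm_pow (bm_ep hX) 4))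
    (bm_real V.mesh V.bh) (bm_real V.mesk V.bk) (fun t => Complex.ofReal_im _) (fun t => Complex.ofReal_im _)
  rw [← K4_vm hf h, ← K4_vm hf k] at e1 e2
  change _ = ∫ t, ((de (X1 f) (X2 f) f t : ℂ) * C54.ep (X1 f) (X2 f) t ^ 4) * conj (Kc h k t)
    ∂(vm (X1 f) (X2 f)) at e1
  change _ = ∫ t, ((de (X1 f) (X2 f) f t : ℂ) * C54.ep (X1 f) (X2 f) t ^ 4) * Kc h k t
    ∂(vm (X1 f) (X2 f)) at e2
  have hc : (cF f : ℂ) ≠ 0 := by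
    exact_mod_cast (OM7.cF_pos hf).ne'
  have ht : ∀ v : ℂ, (((conj (YY (X1 f) (X2 f)) * v).im / (2 * cF f) : ℝ) : ℂ) =
      (conj (YY (X1 f) (X2 f)) * v - YY (X1 f) (X2 f) * conj v) / (2 * I) / (2 * cF f) := by
    intro v
    push_cast
    rw [Complex.im_eq_sub_conj]
    simp only [map_mul, Complex.conj_conj]
  have c2 : conj (2 : ℂ) = 2 := map_ofNat _ 2
  rw [← e1, ← e2]
  unfold NS4 cd Sp4 Sm4 Aa Ba
  rw [ht, ht]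
  generalize m4 f = m
  generalize n4 f = n
  simp only [map_div₀, map_add, map_sub, map_mul, conj_I, c2]
  push_cast
  constructor <;> field_simp <;> ring

/-! ### linear forms -/

/-- a linear form in eleven variables -/
def L11 (l : Fin 11 → ℂ) (x0 x1 x2 x3 x4 x5 x6 x7 x8 x9 x10 : ℂ) : ℂ :=
  l 0 * x0 + l 1 * x1 + l 2 * x2 + l 3 * x3 + l 4 * x4 + l 5 * x5 + l 6 * x6 + l 7 * x7 + l 8 * x8 + l 9 * x9
    + l 10 * x10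

/-- the covariant derivative with the coefficients `l` -/
def Nf11 (l : (ℝ → ℝ) → Fin 11 → ℂ) (f h : ℝ → ℝ) : ℂ :=
  L11 (l f) (vF f h) (conj (vF f h)) (NC f h) (conj (NC f h)) (NS f h) (conj (NS f h)) ((K0 f h : ℝ) : ℂ)
    (NC5 f h) (conj (NC5 f h)) (NS4 f h) (conj (NS4 f h))

/-- the part of type `conj K` -/
def Np11 (l : (ℝ → ℝ) → Fin 11 → ℂ) (f : ℝ → ℝ) (A B N M S R D N5 M5 S4 R4 : ℂ) : ℂ :=
  L11 (l f) A (conj B) N (conj M) S (conj R) (conj D) N5 (conj M5) S4 (conj R4)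

/-- the part of type `K` -/
def Nm11 (l : (ℝ → ℝ) → Fin 11 → ℂ) (f : ℝ → ℝ) (A B N M S R D N5 M5 S4 R4 : ℂ) : ℂ :=
  L11 (l f) B (conj A) M (conj N) R (conj S) D M5 (conj N5) R4 (conj S4)

theorem Nf11_pm (l : (ℝ → ℝ) → Fin 11 → ℂ) (f h k : ℝ → ℝ) :
    (Nf11 l f h - I * Nf11 l f k) / 2 = Np11 l f (Aa f h k) (Ba f h k) ((NC f h - I * NC f k) / 2)
        ((NC f h + I * NC f k) / 2) ((NS f h - I * NS f k) / 2) ((NS f h + I * NS f k) / 2)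
        ((((K0 f h : ℝ) : ℂ) + I * ((K0 f k : ℝ) : ℂ)) / 2) ((NC5 f h - I * NC5 f k) / 2)
        ((NC5 f h + I * NC5 f k) / 2) ((NS4 f h - I * NS4 f k) / 2) ((NS4 f h + I * NS4 f k) / 2) ∧
      (Nf11 l f h + I * Nf11 l f k) / 2 = Nm11 l f (Aa f h k) (Ba f h k) ((NC f h - I * NC f k) / 2)
        ((NC f h + I * NC f k) / 2) ((NS f h - I * NS f k) / 2) ((NS f h + I * NS f k) / 2)
        ((((K0 f h : ℝ) : ℂ) + I * ((K0 f k : ℝ) : ℂ)) / 2) ((NC5 f h - I * NC5 f k) / 2)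
        ((NC5 f h + I * NC5 f k) / 2) ((NS4 f h - I * NS4 f k) / 2) ((NS4 f h + I * NS4 f k) / 2) := by
  have c2 : conj (2 : ℂ) = 2 := map_ofNat _ 2
  unfold Nf11 Np11 Nm11 L11 Aa Ba
  simp only [map_div₀, map_add, map_sub, map_mul, conj_I, c2, Complex.conj_ofReal]
  constructor <;> ring

/-- the covariant derivative of the displacement `ξ` has the coefficients `l` -/
def HasL11 (ξ : (ℝ → ℝ) → ℂ) (dξ : (ℝ → ℝ) → (ℝ → ℝ) → ℂ) (l : (ℝ → ℝ) → Fin 11 → ℂ) : Prop :=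
  ∀ f h, Ef f → Cv (cf f) (zf f) (vF f h) 1 (ξ f) (dξ f h) (Nf11 l f h)

/-- the deviation of the stereographic map as a function of the eleven components -/
def Bst11 (ξ : (ℝ → ℝ) → ℂ) (l : (ℝ → ℝ) → Fin 11 → ℂ) (f : ℝ → ℝ) (A B N M S R D N5 M5 S4 R4 : ℂ) : ℂ :=
  (B + Nm11 l f A B N M S R D N5 M5 S4 R4 + ξ f ^ 2 / 4 * conj A) / (qp (ξ f) : ℂ)

/-- the other part of the derivative -/
def Ast11 (ξ : (ℝ → ℝ) → ℂ) (l : (ℝ → ℝ) → Fin 11 → ℂ) (f : ℝ → ℝ) (A B N M S R D N5 M5 S4 R4 : ℂ) : ℂ :=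
  (A + Np11 l f A B N M S R D N5 M5 S4 R4 + ξ f ^ 2 / 4 * conj B) / (qp (ξ f) : ℂ)

/-- the values of the eleven components at a function `K` -/
def at11 (G : (ℝ → ℝ) → ℂ → ℂ → ℂ → ℂ → ℂ → ℂ → ℂ → ℂ → ℂ → ℂ → ℂ → ℂ) : DevK := fun f K A B =>
  G f A B (Cp f A B (∫ t, C54.ep (X1 f) (X2 f) t ^ 3 * conj (K t) ∂(vm (X1 f) (X2 f))))
    (Cm f A B (∫ t, C54.ep (X1 f) (X2 f) t ^ 3 * K t ∂(vm (X1 f) (X2 f))))
    (Sp f A B (∫ t, ((de (X1 f) (X2 f) f t : ℂ) * C54.ep (X1 f) (X2 f) t ^ 2) * conj (K t) ∂(vm (X1 f) (X2 f))))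
    (Sm f A B (∫ t, ((de (X1 f) (X2 f) f t : ℂ) * C54.ep (X1 f) (X2 f) t ^ 2) * K t ∂(vm (X1 f) (X2 f))))
    (∫ t, (de (X1 f) (X2 f) f t : ℂ) * K t ∂(vm (X1 f) (X2 f)))
    (Cp5 f A B (∫ t, C54.ep (X1 f) (X2 f) t ^ 5 * conj (K t) ∂(vm (X1 f) (X2 f))))
    (Cm5 f A B (∫ t, C54.ep (X1 f) (X2 f) t ^ 5 * K t ∂(vm (X1 f) (X2 f))))
    (Sp4 f A B (∫ t, ((de (X1 f) (X2 f) f t : ℂ) * C54.ep (X1 f) (X2 f) t ^ 4) * conj (K t) ∂(vm (X1 f) (X2 f))))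
    (Sm4 f A B (∫ t, ((de (X1 f) (X2 f) f t : ℂ) * C54.ep (X1 f) (X2 f) t ^ 4) * K t ∂(vm (X1 f) (X2 f))))

/-- the deviation of the stereographic map -/
def BstZ (ξ : (ℝ → ℝ) → ℂ) (l : (ℝ → ℝ) → Fin 11 → ℂ) : DevK := at11 (Bst11 ξ l)

section Dev

variable {ξ : (ℝ → ℝ) → ℂ} {dξ : (ℝ → ℝ) → (ℝ → ℝ) → ℂ} {l : (ℝ → ℝ) → Fin 11 → ℂ}

theorem VS11_pm (f h k : ℝ → ℝ) :
    (VS (ξ f) (vF f h) (Nf11 l f h) - I * VS (ξ f) (vF f k) (Nf11 l f k)) / 2 =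
        Ast11 ξ l f (Aa f h k) (Ba f h k) ((NC f h - I * NC f k) / 2) ((NC f h + I * NC f k) / 2)
          ((NS f h - I * NS f k) / 2) ((NS f h + I * NS f k) / 2)
          ((((K0 f h : ℝ) : ℂ) + I * ((K0 f k : ℝ) : ℂ)) / 2) ((NC5 f h - I * NC5 f k) / 2)
          ((NC5 f h + I * NC5 f k) / 2) ((NS4 f h - I * NS4 f k) / 2) ((NS4 f h + I * NS4 f k) / 2) ∧
      (VS (ξ f) (vF f h) (Nf11 l f h) + I * VS (ξ f) (vF f k) (Nf11 l f k)) / 2 =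
        Bst11 ξ l f (Aa f h k) (Ba f h k) ((NC f h - I * NC f k) / 2) ((NC f h + I * NC f k) / 2)
          ((NS f h - I * NS f k) / 2) ((NS f h + I * NS f k) / 2)
          ((((K0 f h : ℝ) : ℂ) + I * ((K0 f k : ℝ) : ℂ)) / 2) ((NC5 f h - I * NC5 f k) / 2)
          ((NC5 f h + I * NC5 f k) / 2) ((NS4 f h - I * NS4 f k) / 2) ((NS4 f h + I * NS4 f k) / 2) := by
  obtain ⟨e1, e2⟩ := Nf11_pm l f h k
  have c2 : conj (2 : ℂ) = 2 := map_ofNat _ 2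
  unfold Ast11 Bst11
  rw [← e1, ← e2]
  unfold VS Aa Ba
  simp only [map_div₀, map_add, map_sub, map_mul, conj_I, c2]
  constructor <;> ring

/-- **the deviation of the stereographic map** -/
theorem isDevZ_st {A' B' : ℝ} (DS : DispS ξ dξ A' B') (H : HasL11 ξ dξ l) :
    IsDevK (n' := 0) ![St1 ξ, St2 ξ] ![dSt1 ξ dξ, dSt2 ξ dξ] (BstZ ξ l) := by
  intro f h k hf V
  have k1 := st_vv hf (DS.pos f hf) (H f h hf).eq1 (H f k hf).eq1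
  have k2 := st_vv hf (DS.pos f hf) (H f k hf).eq1 (H f h hf).eq1
  unfold nu
  rw [k1.1, k2.1, k1.2]
  have e := dev_eq (VS (ξ f) (vF f h) (Nf11 l f h)) (VS (ξ f) (vF f k) (Nf11 l f k))
  unfold wd
  rw [e, (VS11_pm f h k).2, (NC_pm hf V).1, (NC_pm hf V).2, (NS_pm hf V).1, (NS_pm hf V).2, K0_pm hf V,
    (NC5_pm hf V).1, (NC5_pm hf V).2, (NS4_pm hf V).1, (NS4_pm hf V).2]
  rfl

end Dev

/-! ### the displacement with fourteen terms -/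

/-- the coefficients of the covariant derivative of `xi14` -/
def l14 (κ κ' : Fin 8 → ℝ → ℝ) (μ μ' : Fin 4 → ℝ → ℝ) (ν ν' : Fin 2 → ℝ → ℝ) (f : ℝ → ℝ) : Fin 11 → ℂ := ![
  l12 κ κ' μ μ' f 0 + ((gv8 (ν 0) (ν' 0) 0 3 f * SE 4 f + gv8 (ν 1) (ν' 1) 5 0 f * conj (SE 4 f)) / (cf f : ℂ)
    + q2s ν f * (conj (zf f) / 2) / (cf f : ℂ) ^ 2),
  l12 κ κ' μ μ' f 1 + ((gw8 (ν 0) (ν' 0) 0 3 f * SE 4 f + gw8 (ν 1) (ν' 1) 5 0 f * conj (SE 4 f)) / (cf f : ℂ)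
    + q2s ν f * (zf f / 2) / (cf f : ℂ) ^ 2),
  l12 κ κ' μ μ' f 2, l12 κ κ' μ μ' f 3, l12 κ κ' μ μ' f 4, l12 κ κ' μ μ' f 5, l12 κ κ' μ μ' f 6,
  l12 κ κ' μ μ' f 7, l12 κ κ' μ μ' f 8, g8 (ν 0) 0 3 f / (cf f : ℂ), g8 (ν 1) 5 0 f / (cf f : ℂ)]

/-- **the covariant derivative of `xi14`** -/
theorem hasL_xi14 (κ κ' : Fin 8 → ℝ → ℝ) (μ μ' : Fin 4 → ℝ → ℝ) (ν ν' : Fin 2 → ℝ → ℝ) :
    HasL11 (xi14 κ μ ν) (dxi14 κ κ' μ μ' ν ν') (l14 κ κ' μ μ' ν ν') := by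
  intro f h hf
  have hc := cf_pos hf
  have hc1 : (cf f : ℂ) ≠ 0 := Complex.ofReal_ne_zero.2 hc.ne'
  have S := cv_S4 hf h
  have t0 := ((cv_g8 hf h (ν 0) (ν' 0) 0 3).mul S).spin (s' := 1) (by norm_num)
  have t1 := ((cv_g8 hf h (ν 1) (ν' 1) 5 0).mul S.cj).spin (s' := 1) (by norm_num)
  have t := (hasL_xi12 κ κ' μ μ' f h hf).add ((t0.add t1).divc (dcf f h))
  unfold Cv at t ⊢
  have e : dxi14 κ κ' μ μ' ν ν' f h = _ := t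
  rw [e]
  congr 1
  rw [dcf_eq hf h]
  clear e t t0 t1 S
  unfold Nf11 Nf9 L11 L9 l14 q2s
  rw [Complex.ofReal_neg, ip_cx]
  simp only [Matrix.cons_val]
  generalize l12 κ κ' μ μ' f 0 = y0
  generalize l12 κ κ' μ μ' f 1 = y1
  generalize l12 κ κ' μ μ' f 2 = y2
  generalize l12 κ κ' μ μ' f 3 = y3
  generalize l12 κ κ' μ μ' f 4 = y4
  generalize l12 κ κ' μ μ' f 5 = y5
  generalize l12 κ κ' μ μ' f 6 = y6
  generalize l12 κ κ' μ μ' f 7 = y7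
  generalize l12 κ κ' μ μ' f 8 = y8
  unfold gv8 gw8
  generalize gv (ν 0 (cf f)) (ν' 0 (cf f)) (cf f) (zf f) 0 3 = v0
  generalize gw (ν 0 (cf f)) (ν' 0 (cf f)) (cf f) (zf f) 0 3 = w0
  generalize gv (ν 1 (cf f)) (ν' 1 (cf f)) (cf f) (zf f) 5 0 = v1
  generalize gw (ν 1 (cf f)) (ν' 1 (cf f)) (cf f) (zf f) 5 0 = w1
  generalize g8 (ν 0) 0 3 f = g0
  generalize g8 (ν 1) 5 0 f = g1
  generalize conj (SE 4 f) = sb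
  generalize SE 4 f = sx
  generalize conj (vF f h) = vb
  generalize vF f h = v
  generalize conj (NC f h) = nb
  generalize NC f h = nx
  generalize conj (NC5 f h) = pb
  generalize NC5 f h = px
  generalize conj (NS f h) = mb
  generalize NS f h = mx
  generalize conj (NS4 f h) = rb
  generalize NS4 f h = rx
  generalize ((K0 f h : ℝ) : ℂ) = k0
  generalize conj (zf f) = zb
  generalize zf f = z
  generalize (cf f : ℂ) = c at *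
  field_simp
  ring

/-- the deviation of the stereographic map of `xi14` -/
def Bk14 (κ κ' : Fin 8 → ℝ → ℝ) (μ μ' : Fin 4 → ℝ → ℝ) (ν ν' : Fin 2 → ℝ → ℝ) : DevK :=
  BstZ (xi14 κ μ ν) (l14 κ κ' μ μ' ν ν')

/-- **the deviation of the stereographic start map with fourteen terms** -/
theorem isDevK_xi14 {κ κ' : Fin 8 → ℝ → ℝ} {μ μ' : Fin 4 → ℝ → ℝ} {ν ν' : Fin 2 → ℝ → ℝ} {A' B' : ℝ}
    (DS : DispS (xi14 κ μ ν) (dxi14 κ κ' μ μ' ν ν') A' B') :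
    IsDevK (n' := 0) ![St1 (xi14 κ μ ν), St2 (xi14 κ μ ν)]
      ![dSt1 (xi14 κ μ ν) (dxi14 κ κ' μ μ' ν ν'), dSt2 (xi14 κ μ ν) (dxi14 κ κ' μ μ' ν ν')]
      (Bk14 κ κ' μ μ' ν ν') :=
  isDevZ_st DS (hasL_xi14 κ κ' μ μ' ν ν')

end Pool.Agent.FPX.XIP
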