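import Mathlib
import Pool.Agent.FPX.BV2
import Pool.Agent.FPX.BU3
import Pool.Agent.FPX.OMZ
import Pool.Agent.FPX.OMYR
import Pool.Agent.FPX.XIS

/-
BV3 (helper11): the certificate `CertAtZ` (OMZ) at a state with `ζ = s > 0` from the certificate of the class `CZ`;
the deviation with the parts of `∇S₄`; the list `Psi14` of the terms of the deviation of the start map `xi14` (XIS).
-/

open MeasureTheory Set Filter Topology Complex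
open scoped ComplexConjugate

noncomputable section

set_option linter.unusedSectionVars false

namespace Pool.Agent.FPX.BV

open Pool.Agent.FPX.BTG (Sta Cls mo aK bK dev)
open Pool.Agent.FPX.BTN (nf ef)
open Pool.Agent.FPX.UMP (Ef)
open Pool.Agent.FPX.F54 (X1 X2 X_lt sF)
open Pool.Agent.FPX.S54 (de YY)
open Pool.Agent.FPX.SYS (CE SE)
open Pool.Agent.FPX.OMB (vm vm_prob)
open Pool.Agent.FPX.OMS (rF cF)
open Pool.Agent.FPX.CERQ (xT)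
open Pool.Agent.FPX.OM7 (Cp Cm Sp Sm bv)
open Pool.Agent.FPX.OMG (DevK CofH mkH WH Cp5 Cm5 bv5)
open Pool.Agent.FPX.OMR (Re q4 q6 mSR WSR)
open Pool.Agent.FPX.BTI (C9 Psi9)
open Pool.Agent.FPX.BU (M9 V26 PsiH vecH omH bbH b5H keH)
open Pool.Agent.FPX.XIP (Sp4 Sm4 at11)
open Pool.Agent.FPX.OMY (CofS CofZ mkS WS mkZ WZ CertAtZ CertZ)

/-! ### lifting of the class `CH` -/

/-- the moments of the class `CH` -/
def pr9 (m : M10) : M9 := ![m 0, m 1, m 2, m 3, m 4, m 5]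

/-- the terms of a class `CH` as terms of a class `CZ` -/
def liZ {Q : Type} (Ψ : PsiH Q) : PsiZ Q := fun q m A B N M S R G P O _ _ => Ψ q (pr9 m) A B N M S R G P O

theorem PsiLe.li {Q : Type} {Ψ : PsiH Q} {d : Q → ℝ} (h : BU.PsiLe Ψ d) : PsiLe (liZ Ψ) d :=
  fun m A B N M S R G P O _ _ h0 h1 h2 h3 h4 h5 _ hA hB hN hM hS hR hG hP hO _ _ q =>
    h (pr9 m) A B N M S R G P O h0 h1 h2 h3 h4 h5 hA hB hN hM hS hR hG hP hO q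

/-! ### the vector -/

/-- the first 26 components -/
def pr26 (v : V29) : V26 :=
  ![v 0, v 1, v 2, v 3, v 4, v 5, v 6, v 7, v 8, v 9, v 10, v 11, v 12, v 13, v 14, v 15, v 16, v 17, v 18, v 19,
    v 20, v 21, v 22, v 23, v 24, v 25]

/-- a vector of the class `CH` with the three components of `S₄` -/
def put (v : V26) (a b c : ℝ) : V29 :=
  ![v 0, v 1, v 2, v 3, v 4, v 5, v 6, v 7, v 8, v 9, v 10, v 11, v 12, v 13, v 14, v 15, v 16, v 17, v 18, v 19,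
    v 20, v 21, v 22, v 23, v 24, v 25, a, b, c]

/-- the coefficient vector of `(W, F, μ)` at `s = |ζ|`, `c = √(1 - s²)` -/
def vecZ (W : ℝ → ℝ) (F : CofZ) (μ s c : ℝ) : V29 :=
  put (vecH W F.H μ s c) (c * s ^ 2 * F.E.x4 (s ^ 2)) (c * s ^ 4 * F.E.y4 (s ^ 2))
    (2 * c * s ^ 2 * (c ^ 2 * deriv F.E.x4 (s ^ 2) - F.E.x4 (s ^ 2)
      + c ^ 2 * (s ^ 2 * deriv F.E.y4 (s ^ 2) + 5 * F.E.y4 (s ^ 2)) + s ^ 2 * F.E.y4 (s ^ 2)))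

theorem vecZ_zero (W : ℝ → ℝ) (F : CofH) (μ s c : ℝ) :
    vecZ W ⟨F, ⟨fun _ => 0, fun _ => 0⟩⟩ μ s c = put (vecH W F μ s c) 0 0 0 := by
  unfold vecZ
  simp

theorem omZ_put (v : V26) (a b c : ℝ) (m : M10) : omZ (put v a b c) m = omH v (pr9 m)
    + a * -(2 * (m 0).re + (m 4).re) + b * (3 * (m 6).re - 2 * (m 1).re) + c * (m 5).re := by
  unfold omZ omH put pr9
  simp only [Matrix.cons_val_zero, Matrix.cons_val_one, Matrix.cons_val]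

theorem keZ_put (v : V26) (a b c : ℝ) (m : M10) (e : ℂ) (x : ℝ) : keZ (put v a b c) m e x = keH v (pr9 m) e x
    + (x : ℂ) * ((a : ℂ) * conj e ^ 4 + (b : ℂ) * e ^ 4) := by
  unfold keZ keH put pr9
  simp only [Matrix.cons_val_zero, Matrix.cons_val_one, Matrix.cons_val]

theorem bbZ_put (v : V26) (a b c : ℝ) (m : M10) (A B N M : ℂ) : bbZ (put v a b c) m A B N M =
    bbH v (pr9 m) A B N M := by
  unfold bbZ bbH put pr9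
  simp only [Matrix.cons_val_zero, Matrix.cons_val]

theorem b5Z_put (v : V26) (a b c : ℝ) (m : M10) (A B N M : ℂ) : b5Z (put v a b c) m A B N M =
    b5H v (pr9 m) A B N M := by
  unfold b5Z b5H put pr9
  simp only [Matrix.cons_val_zero, Matrix.cons_val_one, Matrix.cons_val]

section

variable {Q : Type} [Fintype Q] {Ψ : PsiZ Q} {f : ℝ → ℝ}

/-- the zero list -/
def ΨH0 : PsiH (Fin 0) := fun q => q.elim0

theorem prM {X : Type*} [MeasurableSpace X] (ν : Measure X) (D : X → ℝ) (E : X → ℂ) {Q' : Type}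
    (Ψ' : PsiH Q') : pr9 (mo (CZ Ψ) ν D E) = mo (BU.CH Ψ') ν D E := by
  funext j
  fin_cases j <;> rfl

theorem r3Z (hf : Ef f) (h0 : 0 ≤ X1 f) (h2 : X2 f = 0) : OMR.r3 f = mo (CZ Ψ) (nf f) (xT f) (ef f) 0 :=
  BTI.r3_eq (Ψ := BU.Ψ0) hf h0 h2

theorem r5Z (hf : Ef f) (h0 : 0 ≤ X1 f) (h2 : X2 f = 0) : OMR.r5 f = mo (CZ Ψ) (nf f) (xT f) (ef f) 1 :=
  BTI.r5_eq (Ψ := BU.Ψ0) hf h0 h2

theorem q2Z (hf : Ef f) (h0 : 0 ≤ X1 f) (h2 : X2 f = 0) : OMR.q2 f = mo (CZ Ψ) (nf f) (xT f) (ef f) 4 := by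
  unfold OMR.q2
  rw [BTI.xR_eq hf h0 h2, BTI.eR_eq h2, BTI.vR_eq h2]
  rfl

theorem q4Z (hf : Ef f) (h0 : 0 ≤ X1 f) (h2 : X2 f = 0) : q4 f = mo (CZ Ψ) (nf f) (xT f) (ef f) 5 := by
  unfold q4
  rw [BTI.xR_eq hf h0 h2, BTI.eR_eq h2, BTI.vR_eq h2]
  rfl

theorem q6Z (hf : Ef f) (h0 : 0 ≤ X1 f) (h2 : X2 f = 0) : q6 f = mo (CZ Ψ) (nf f) (xT f) (ef f) 6 := by
  unfold q6
  rw [BTI.xR_eq hf h0 h2, BTI.eR_eq h2, BTI.vR_eq h2]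
  rfl

/-- the coefficient of the Jacobian -/
theorem WZ_eq (F : CofZ) (W : ℝ → ℝ) (μ : ℝ) (hf : Ef f) (hs : 0 < X1 f) (h2 : X2 f = 0) :
    WZ W F f = omZ (vecZ W F μ (X1 f) (cF f)) (mo (CZ Ψ) (nf f) (xT f) (ef f)) := by
  have H := BU.re_of hf hs h2
  unfold WZ vecZ
  rw [omZ_put, prM (Ψ := Ψ) _ _ _ ΨH0, ← BU.WH_eq (Ψ := ΨH0) F.H W μ hf hs h2, H.wse]
  unfold WSR
  rw [q4Z (Ψ := Ψ) hf hs.le h2, q2Z (Ψ := Ψ) hf hs.le h2, r3Z (Ψ := Ψ) hf hs.le h2, r5Z (Ψ := Ψ) hf hs.le h2,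
    q6Z (Ψ := Ψ) hf hs.le h2, BTN.rF_eq h2]
  generalize mo (CZ Ψ) (nf f) (xT f) (ef f) 0 = z0
  generalize mo (CZ Ψ) (nf f) (xT f) (ef f) 1 = z1
  generalize mo (CZ Ψ) (nf f) (xT f) (ef f) 4 = z4
  generalize mo (CZ Ψ) (nf f) (xT f) (ef f) 5 = z5
  generalize mo (CZ Ψ) (nf f) (xT f) (ef f) 6 = z6
  have e1 : (2 * z0 + z4).re = 2 * z0.re + z4.re := by simp
  have e2 : (3 * z6 - 2 * z1).re = 3 * z6.re - 2 * z1.re := by simp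
  rw [e1, e2]
  ring

/-- the kernel -/
theorem mkZ_eq (F : CofZ) (W : ℝ → ℝ) (μ : ℝ) (hf : Ef f) (hs : 0 < X1 f) (h2 : X2 f = 0) (t : ℝ) :
    mkZ F f t = keZ (vecZ W F μ (X1 f) (cF f)) (mo (CZ Ψ) (nf f) (xT f) (ef f)) (ef f t) (xT f t) := by
  have H := BU.re_of hf hs h2
  unfold mkZ vecZ
  rw [keZ_put, prM (Ψ := Ψ) _ _ _ ΨH0, ← BU.mkH_eq (Ψ := ΨH0) F.H W μ hf hs h2, H.mkse]
  unfold mSR
  rw [BTI.xR_eq hf hs.le h2, BTI.eR_eq h2, BTN.rF_eq h2]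
  push_cast
  ring

/-- the terms with `∇C₃` -/
theorem bbZ_eq (F : CofZ) (W : ℝ → ℝ) (μ : ℝ) (hf : Ef f) (hs : 0 < X1 f) (h2 : X2 f = 0) (A B N M : ℂ) :
    bv F.H.F.C f A B N M = bbZ (vecZ W F μ (X1 f) (cF f)) (mo (CZ Ψ) (nf f) (xT f) (ef f)) A B N M := by
  unfold vecZ
  rw [bbZ_put, prM (Ψ := Ψ) _ _ _ ΨH0, ← BU.bbH_eq (Ψ := ΨH0) F.H W μ hf hs h2]

/-- the terms with `∇C₅` -/
theorem b5Z_eq (F : CofZ) (W : ℝ → ℝ) (μ : ℝ) (hf : Ef f) (hs : 0 < X1 f) (h2 : X2 f = 0) (A B N M : ℂ) :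
    bv5 F.H.b5 f A B N M = b5Z (vecZ W F μ (X1 f) (cF f)) (mo (CZ Ψ) (nf f) (xT f) (ef f)) A B N M := by
  unfold vecZ
  rw [b5Z_put, prM (Ψ := Ψ) _ _ _ ΨH0, ← BU.b5H_eq (Ψ := ΨH0) F.H W μ hf hs h2]

theorem n9_eq (A B : ℂ) (K : ℝ → ℂ) : n9 (mo (CZ Ψ) (nf f) (xT f) (ef f)) A B
    (bK (CZ Ψ) (nf f) (xT f) (ef f) K 0) =
      BTN.cp (nf f) (xT f) (ef f) A B (∫ t, C54.ep (X1 f) (X2 f) t ^ 3 * conj (K t) ∂(vm (X1 f) (X2 f))) := rfl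

theorem m9_eq (A B : ℂ) (K : ℝ → ℂ) : m9 (mo (CZ Ψ) (nf f) (xT f) (ef f)) A B
    (aK (CZ Ψ) (nf f) (xT f) (ef f) K 0) =
      BTN.cm (nf f) (xT f) (ef f) A B (∫ t, C54.ep (X1 f) (X2 f) t ^ 3 * K t ∂(vm (X1 f) (X2 f))) := rfl

theorem Cp5_eq (hf : Ef f) (hs : 0 < X1 f) (h2 : X2 f = 0) (A B R : ℂ) :
    Cp5 f A B R = n5 (mo (CZ Ψ) (nf f) (xT f) (ef f)) A B R := by
  rw [BU.Cp5_eq (Ψ := ΨH0) hf hs h2]
  rfl

theorem Cm5_eq (hf : Ef f) (hs : 0 < X1 f) (h2 : X2 f = 0) (A B R : ℂ) :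
    Cm5 f A B R = m5 (mo (CZ Ψ) (nf f) (xT f) (ef f)) A B R := by
  rw [BU.Cm5_eq (Ψ := ΨH0) hf hs h2]
  rfl

/-- the parts of `∇S₄` -/
theorem Sp4_eq (hf : Ef f) (hs : 0 < X1 f) (h2 : X2 f = 0) (A B S : ℂ) :
    ((X1 f / cF f : ℝ) : ℂ) * Sp4 f A B S =
      s4 (mo (CZ Ψ) (nf f) (xT f) (ef f)) A B (((X1 f / cF f : ℝ) : ℂ) * S) := by
  have H := BU.re_of hf hs h2
  have hc := H.cC
  have hc' : (cF f : ℂ) ^ 2 ≠ 0 := pow_ne_zero _ hc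
  have e0 : ((X1 f / cF f : ℝ) : ℂ) = (X1 f : ℂ) / (cF f : ℂ) := by push_cast; rfl
  have e4 : ((X1 f / cF f : ℝ) : ℂ) * SYS.m4 f = 3 / 2 * q6 f - OMR.r5 f := by
    rw [e0, div_mul_eq_mul_div, H.m4]
    field_simp
  have e5 : ((X1 f / cF f : ℝ) : ℂ) * SYS.n4 f = -(OMR.r3 f + OMR.q2 f / 2) := by
    rw [e0, div_mul_eq_mul_div, H.n4]
    field_simp
  have e6 : ((X1 f / cF f : ℝ) : ℂ) * (1 / (cF f : ℂ) * ((X1 f : ℂ) * A - (X1 f : ℂ) * conj B) * SE 4 f) =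
      (A - conj B) * q4 f := by
    have h := H.se4
    rw [e0]
    field_simp
    linear_combination (A - conj B) * h
  unfold Sp4 s4
  rw [H.zz, Complex.conj_ofReal, mul_sub, e6, ← r3Z (Ψ := Ψ) hf hs.le h2, ← r5Z (Ψ := Ψ) hf hs.le h2,
    ← q2Z (Ψ := Ψ) hf hs.le h2, ← q4Z (Ψ := Ψ) hf hs.le h2, ← q6Z (Ψ := Ψ) hf hs.le h2]
  linear_combination conj B * e4 + A * e5

theorem Sm4_eq (hf : Ef f) (hs : 0 < X1 f) (h2 : X2 f = 0) (A B S : ℂ) :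
    ((X1 f / cF f : ℝ) : ℂ) * Sm4 f A B S =
      r4 (mo (CZ Ψ) (nf f) (xT f) (ef f)) A B (((X1 f / cF f : ℝ) : ℂ) * S) := by
  have h : Sm4 f A B S = Sp4 f B A S := by
    unfold Sm4 Sp4
    ring
  rw [h, Sp4_eq (Ψ := Ψ) hf hs h2]
  unfold s4 r4
  ring

theorem vZ_14 (W : ℝ → ℝ) (F : CofZ) (μ s c : ℝ) : vecZ W F μ s c 14 = μ := by
  unfold vecZ put
  simp only [Matrix.cons_val]
  exact BU.vH_14 W F.H μ s c

/-- the left side of the certificate -/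
theorem lhZ_eq (W : ℝ → ℝ) (F : CofZ) (u : Q → ℝ) (μ : ℝ) (hf : Ef f) (hs : 0 < X1 f) (h2 : X2 f = 0)
    (K : ℝ → ℂ) (A B : ℂ) :
    BTG.lh (CZ Ψ) (nf f) (xT f) (ef f) (vecZ W F 0 (X1 f) (cF f)) u μ K A B =
      WZ W F f * (‖A‖ ^ 2 - ‖B‖ ^ 2)
      + 2 * (A * ∫ t, mkZ F f t * K t ∂(vm (X1 f) (X2 f))).re
      - 2 * (B * ∫ t, mkZ F f t * conj (K t) ∂(vm (X1 f) (X2 f))).re
      + bv F.H.F.C f A B (Cp f A B (∫ t, C54.ep (X1 f) (X2 f) t ^ 3 * conj (K t) ∂(vm (X1 f) (X2 f))))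
          (Cm f A B (∫ t, C54.ep (X1 f) (X2 f) t ^ 3 * K t ∂(vm (X1 f) (X2 f))))
      + bv5 F.H.b5 f A B (Cp5 f A B (∫ t, C54.ep (X1 f) (X2 f) t ^ 5 * conj (K t) ∂(vm (X1 f) (X2 f))))
          (Cm5 f A B (∫ t, C54.ep (X1 f) (X2 f) t ^ 5 * K t ∂(vm (X1 f) (X2 f))))
      + 2 * μ * ‖dev (CZ Ψ) u (mo (CZ Ψ) (nf f) (xT f) (ef f)) A B (aK (CZ Ψ) (nf f) (xT f) (ef f) K)
        (bK (CZ Ψ) (nf f) (xT f) (ef f) K)‖ ^ 2 := by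
  have e1 : ∀ t, BTG.ker (CZ Ψ) (vecZ W F 0 (X1 f) (cF f)) (mo (CZ Ψ) (nf f) (xT f) (ef f)) (ef f t) (xT f t) =
      mkZ F f t := fun t => by
    rw [kerZ, ← mkZ_eq F W 0 hf hs h2]
  have e5 : n5 (mo (CZ Ψ) (nf f) (xT f) (ef f)) A B (bK (CZ Ψ) (nf f) (xT f) (ef f) K 3) =
      Cp5 f A B (∫ t, C54.ep (X1 f) (X2 f) t ^ 5 * conj (K t) ∂(vm (X1 f) (X2 f))) := by
    rw [Cp5_eq (Ψ := Ψ) hf hs h2]
    rfl
  have e5' : m5 (mo (CZ Ψ) (nf f) (xT f) (ef f)) A B (aK (CZ Ψ) (nf f) (xT f) (ef f) K 3) =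
      Cm5 f A B (∫ t, C54.ep (X1 f) (X2 f) t ^ 5 * K t ∂(vm (X1 f) (X2 f))) := by
    rw [Cm5_eq (Ψ := Ψ) hf hs h2]
    rfl
  unfold BTG.lh
  rw [thtZ, ← WZ_eq (Ψ := Ψ) F W 0 hf hs h2, ← bbZ_eq (Ψ := Ψ) F W 0 hf hs h2, ← b5Z_eq (Ψ := Ψ) F W 0 hf hs h2,
    vZ_14, n9_eq, m9_eq, e5, e5', BTN.Cp_eq hf hs h2, BTN.Cm_eq hf hs h2]
  simp only [e1]
  ring

/-- **the certificate `CertAtZ` from the certificate of the class `CZ`** -/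
theorem certAtZ_of_NC {Bk : DevK} {W : ℝ → ℝ} {F : CofZ} {u : Q → ℝ} {μ T : ℝ} (hμ : 0 ≤ μ) (hf : Ef f)
    (hs : 0 < X1 f) (h2 : X2 f = 0)
    (HB : ∀ K : ℝ → ℂ, Measurable K → (∀ t, ‖K t‖ ≤ 1) → ∀ A B : ℂ, ‖Bk f K A B‖ ≤
      ‖dev (CZ Ψ) u (mo (CZ Ψ) (nf f) (xT f) (ef f)) A B (aK (CZ Ψ) (nf f) (xT f) (ef f) K)
        (bK (CZ Ψ) (nf f) (xT f) (ef f) K)‖)
    (H : BTG.NC (CZ Ψ) (nf f) (xT f) (ef f) (vecZ W F 0 (X1 f) (cF f)) u μ T) : CertAtZ Bk W F μ T f := by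
  intro K hK hK1 A B hA hB
  rw [BTN.sF_eq hf hs h2] at hA hB
  have h := H K hK hK1 A B hA hB
  rw [lhZ_eq W F u μ hf hs h2 K A B] at h
  have h3 := mul_le_mul_of_nonneg_left (pow_le_pow_left₀ (norm_nonneg _) (HB K hK hK1 A B) 2)
    (show (0 : ℝ) ≤ 2 * μ by linarith)
  linarith

/-- the certificate of the class OMH from the one of the class OMZ -/
theorem certAtH_of_Z {Bk : DevK} {W : ℝ → ℝ} {F : CofH} {μ T : ℝ}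
    (H : CertAtZ Bk W ⟨F, ⟨fun _ => 0, fun _ => 0⟩⟩ μ T f) : OMG.CertAtH Bk W F μ T f := by
  intro K hK hK1 A B hA hB
  have h := H K hK hK1 A B hA hB
  have e1 : mkZ ⟨F, ⟨fun _ => 0, fun _ => 0⟩⟩ f = mkH F f := by
    funext t
    unfold mkZ mkS
    simp
  have e2 : WZ W ⟨F, ⟨fun _ => 0, fun _ => 0⟩⟩ f = WH W F f := by
    unfold WZ WS
    simp
  rw [e1, e2] at h
  exact h

/-! ### deviations with the parts of `∇S₄` -/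

/-- deviations which use the parts of `∇C₃`, `∇S₂`, `∇C₅`, `∇S₄`: functions of `f, A, B, N, M, S, R, G, N₅, M₅, S₄, R₄` -/
abbrev Dev7 := (ℝ → ℝ) → ℂ → ℂ → ℂ → ℂ → ℂ → ℂ → ℂ → ℂ → ℂ → ℂ → ℂ → ℂ

/-- the deviation as a function of the kernel: `at11` of XIS -/
def devK7 (Bx : Dev7) : DevK := at11 Bx

/-- the deviation `Bx` of a start map in the real frame, bounded by `∑ u_q Ψ_q` -/
def DevLe7 (Bx : Dev7) (Ψ : PsiZ Q) (u : Q → ℝ) (f : ℝ → ℝ) : Prop :=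
  ∀ A B N M S R G P O U V : ℂ, ‖Bx f A B N M S R G P O U V‖ ≤ ‖devZ Ψ u (mo (CZ Ψ) (nf f) (xT f) (ef f)) A B N M
    (((X1 f / cF f : ℝ) : ℂ) * S) (((X1 f / cF f : ℝ) : ℂ) * R) (((X1 f / cF f : ℝ) : ℂ) * G) P O
    (((X1 f / cF f : ℝ) : ℂ) * U) (((X1 f / cF f : ℝ) : ℂ) * V)‖

theorem devK7_le {Bx : Dev7} {u : Q → ℝ} (hf : Ef f) (hs : 0 < X1 f) (h2 : X2 f = 0)
    (HB : DevLe7 Bx Ψ u f) (K : ℝ → ℂ) (A B : ℂ) : ‖devK7 Bx f K A B‖ ≤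
      ‖dev (CZ Ψ) u (mo (CZ Ψ) (nf f) (xT f) (ef f)) A B (aK (CZ Ψ) (nf f) (xT f) (ef f) K)
        (bK (CZ Ψ) (nf f) (xT f) (ef f) K)‖ := by
  unfold devK7 at11
  refine (HB _ _ _ _ _ _ _ _ _ _ _).trans (le_of_eq ?_)
  rw [BTN.Cp_eq hf hs h2, BTN.Cm_eq hf hs h2, BTN.t_Sp hf hs h2, BTN.t_Sm hf hs h2,
    Cp5_eq (Ψ := Ψ) hf hs h2, Cm5_eq (Ψ := Ψ) hf hs h2, Sp4_eq (Ψ := Ψ) hf hs h2, Sm4_eq (Ψ := Ψ) hf hs h2]
  have e1 : ((X1 f / cF f : ℝ) : ℂ) * ∫ t, ((de (X1 f) (X2 f) f t : ℂ) * C54.ep (X1 f) (X2 f) t ^ 2)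
      * conj (K t) ∂(vm (X1 f) (X2 f)) = bK (CZ Ψ) (nf f) (xT f) (ef f) K 1 := by
    have := BTN.t_int hf hs h2 (fun t => ef f t ^ 2 * conj (K t))
    simp only [← mul_assoc] at this
    exact this
  have e2 : ((X1 f / cF f : ℝ) : ℂ) * ∫ t, ((de (X1 f) (X2 f) f t : ℂ) * C54.ep (X1 f) (X2 f) t ^ 2)
      * K t ∂(vm (X1 f) (X2 f)) = aK (CZ Ψ) (nf f) (xT f) (ef f) K 1 := by
    have := BTN.t_int hf hs h2 (fun t => ef f t ^ 2 * K t)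
    simp only [← mul_assoc] at this
    exact this
  have e3 : ((X1 f / cF f : ℝ) : ℂ) * ∫ t, (de (X1 f) (X2 f) f t : ℂ) * K t ∂(vm (X1 f) (X2 f)) =
      aK (CZ Ψ) (nf f) (xT f) (ef f) K 2 := BTN.t_int hf hs h2 K
  have e4 : ((X1 f / cF f : ℝ) : ℂ) * ∫ t, ((de (X1 f) (X2 f) f t : ℂ) * C54.ep (X1 f) (X2 f) t ^ 4)
      * conj (K t) ∂(vm (X1 f) (X2 f)) = bK (CZ Ψ) (nf f) (xT f) (ef f) K 4 := by
    have := BTN.t_int hf hs h2 (fun t => ef f t ^ 4 * conj (K t))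
    simp only [← mul_assoc] at this
    exact this
  have e5 : ((X1 f / cF f : ℝ) : ℂ) * ∫ t, ((de (X1 f) (X2 f) f t : ℂ) * C54.ep (X1 f) (X2 f) t ^ 4)
      * K t ∂(vm (X1 f) (X2 f)) = aK (CZ Ψ) (nf f) (xT f) (ef f) K 4 := by
    have := BTN.t_int hf hs h2 (fun t => ef f t ^ 4 * K t)
    simp only [← mul_assoc] at this
    exact this
  rw [e1, e2, e3, e4, e5]
  rfl

/-- **the certificate `CertAtZ (devK7 Bx)` from the certificate of the class `CZ`** -/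
theorem certAtZX_of_NC {Bx : Dev7} {W : ℝ → ℝ} {F : CofZ} {u : Q → ℝ} {μ T : ℝ} (hμ : 0 ≤ μ) (hf : Ef f)
    (hs : 0 < X1 f) (h2 : X2 f = 0) (HB : DevLe7 Bx Ψ u f)
    (H : BTG.NC (CZ Ψ) (nf f) (xT f) (ef f) (vecZ W F 0 (X1 f) (cF f)) u μ T) :
    CertAtZ (devK7 Bx) W F μ T f :=
  certAtZ_of_NC hμ hf hs h2 (fun K _ _ A B => devK7_le hf hs h2 HB K A B) H

/-- **the certificate `CertAtH (devK7 Bx)` from the certificate of the class `CZ`** -/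
theorem certAtHX_of_NCZ {Bx : Dev7} {W : ℝ → ℝ} {F : CofH} {u : Q → ℝ} {μ T : ℝ} (hμ : 0 ≤ μ) (hf : Ef f)
    (hs : 0 < X1 f) (h2 : X2 f = 0) (HB : DevLe7 Bx Ψ u f)
    (H : BTG.NC (CZ Ψ) (nf f) (xT f) (ef f) (put (vecH W F 0 (X1 f) (cF f)) 0 0 0) u μ T) :
    OMG.CertAtH (devK7 Bx) W F μ T f := by
  refine certAtH_of_Z (certAtZX_of_NC hμ hf hs h2 HB ?_)
  rw [vecZ_zero]
  exact H

end

/-! ### the terms of the deviation of `xi14` -/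

/-- the terms of the deviation of the start map `xi14`: those of `xi12` (`BU.Psi12`), then
`B q₄, B conj q₄, conj A q₄, conj A conj q₄, R₄, conj S₄` -/
def Psi14 : PsiZ (Fin 48) :=
  ![liZ BU.Psi12 0, liZ BU.Psi12 1, liZ BU.Psi12 2, liZ BU.Psi12 3, liZ BU.Psi12 4, liZ BU.Psi12 5,
    liZ BU.Psi12 6, liZ BU.Psi12 7, liZ BU.Psi12 8, liZ BU.Psi12 9, liZ BU.Psi12 10, liZ BU.Psi12 11,
    liZ BU.Psi12 12, liZ BU.Psi12 13, liZ BU.Psi12 14, liZ BU.Psi12 15, liZ BU.Psi12 16, liZ BU.Psi12 17,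
    liZ BU.Psi12 18, liZ BU.Psi12 19, liZ BU.Psi12 20, liZ BU.Psi12 21, liZ BU.Psi12 22, liZ BU.Psi12 23,
    liZ BU.Psi12 24, liZ BU.Psi12 25, liZ BU.Psi12 26, liZ BU.Psi12 27, liZ BU.Psi12 28, liZ BU.Psi12 29,
    liZ BU.Psi12 30, liZ BU.Psi12 31, liZ BU.Psi12 32, liZ BU.Psi12 33, liZ BU.Psi12 34, liZ BU.Psi12 35,
    liZ BU.Psi12 36, liZ BU.Psi12 37, liZ BU.Psi12 38, liZ BU.Psi12 39, liZ BU.Psi12 40, liZ BU.Psi12 41,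
    fun m _ B _ _ _ _ _ _ _ _ _ => B * m 5, fun m _ B _ _ _ _ _ _ _ _ _ => B * conj (m 5),
    fun m A _ _ _ _ _ _ _ _ _ _ => conj A * m 5, fun m A _ _ _ _ _ _ _ _ _ _ => conj A * conj (m 5),
    fun _ _ _ _ _ _ _ _ _ _ _ V => V, fun _ _ _ _ _ _ _ _ _ _ U _ => conj U]

/-- their a priori bounds -/
def d14 : Fin 48 → ℝ :=
  ![8 / 5, 2 / 5, 2 / 5, 1 / 10, 1 / 10, 1 / 10, 5 / 8, 5 / 8, 5 / 8, 2 / 5, 2 / 5, 1 / 10, 1 / 10, 1 / 10,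
    5 / 8, 5 / 8, 5 / 8, 5, 6 / 5, 6 / 5, 5, 6 / 5, 6 / 5, 3, 3, 1, 8 / 5, 8 / 5,
    1, 1, 1 / 4, 1 / 4, 1, 1, 1 / 4, 1 / 4, 3, 3, 101 / 10, 101 / 40, 101 / 10, 101 / 40,
    5 / 8, 5 / 8, 5 / 8, 5 / 8, 23 / 5, 23 / 5]

theorem psiLe14 : PsiLe Psi14 d14 := by
  intro m A B N M S R G P O U V h0 h1 h2 h3 h4 h5 h6 hA hB hN hM hS hR hG hP hO hU hV q
  have H12 := PsiLe.li BU.psiLe12 m A B N M S R G P O U V h0 h1 h2 h3 h4 h5 h6 hA hB hN hM hS hR hG hP hO hU hV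
  have key : ∀ (Z y : ℂ) (a b c : ℝ), ‖Z‖ ≤ a → ‖y‖ ≤ b → 0 ≤ a → a * b ≤ c → ‖Z * y‖ ≤ c := by
    intro Z y a b c hZ hy ha hc
    rw [norm_mul]
    exact (mul_le_mul hZ hy (norm_nonneg _) ha).trans hc
  have hA' : ‖conj A‖ ≤ 8 / 5 := by rwa [Complex.norm_conj]
  have hU' : ‖conj U‖ ≤ 23 / 5 := by rwa [Complex.norm_conj]
  have c5 : ‖conj (m 5)‖ ≤ (31 / 50) ^ 2 := by rwa [Complex.norm_conj]
  fin_cases q
  · exact H12 0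
  · exact H12 1
  · exact H12 2
  · exact H12 3
  · exact H12 4
  · exact H12 5
  · exact H12 6
  · exact H12 7
  · exact H12 8
  · exact H12 9
  · exact H12 10
  · exact H12 11
  · exact H12 12
  · exact H12 13
  · exact H12 14
  · exact H12 15
  · exact H12 16
  · exact H12 17
  · exact H12 18
  · exact H12 19
  · exact H12 20
  · exact H12 21
  · exact H12 22
  · exact H12 23
  · exact H12 24
  · exact H12 25
  · exact H12 26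
  · exact H12 27
  · exact H12 28
  · exact H12 29
  · exact H12 30
  · exact H12 31
  · exact H12 32
  · exact H12 33
  · exact H12 34
  · exact H12 35
  · exact H12 36
  · exact H12 37
  · exact H12 38
  · exact H12 39
  · exact H12 40
  · exact H12 41
  · exact key B (m 5) (8 / 5) ((31 / 50) ^ 2) _ hB h5 (by norm_num) (by norm_num [d14])
  · exact key B (conj (m 5)) (8 / 5) ((31 / 50) ^ 2) _ hB c5 (by norm_num) (by norm_num [d14])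
  · exact key (conj A) (m 5) (8 / 5) ((31 / 50) ^ 2) _ hA' h5 (by norm_num) (by norm_num [d14])
  · exact key (conj A) (conj (m 5)) (8 / 5) ((31 / 50) ^ 2) _ hA' c5 (by norm_num) (by norm_num [d14])
  · exact hV
  · exact hU'

end Pool.Agent.FPX.BV
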