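import Mathlib
import Pool.Agent.FPX.BUP
import Pool.Agent.FPX.BV3

/-
BVP (helper11): the pole cell (and all cells with polynomial coefficient vectors) for the class `CZ`, as helper69's BUP.
The three components of `S₄` have no factor `1 / s²`.
-/

open MeasureTheory Set Filter Topology Complex
open scoped NNReal ComplexConjugate

noncomputable section

set_option linter.unusedSectionVars false

namespace Pool.Agent.FPX.BV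

open Pool.Agent.FPX.BTG (Sta Cls mo aK bK dev)
open Pool.Agent.FPX.ALX
open Pool.Agent.FPX.BTN (va e1 nf ef pa pg)
open Pool.Agent.FPX.UMP (Ef)
open Pool.Agent.FPX.UMQ
open Pool.Agent.FPX.F54 (X1 X2 X_lt sF)
open Pool.Agent.FPX.S54 (de YY)
open Pool.Agent.FPX.SYS (CE SE)
open Pool.Agent.FPX.OMB (vm vm_prob)
open Pool.Agent.FPX.OMS (rF cF)
open Pool.Agent.FPX.CERQ (xT)
open Pool.Agent.FPX.OM7 (Cp Cm Sp Sm bv)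
open Pool.Agent.FPX.OMG (DevK CofH mkH WH CertAtH Cp5 Cm5 bv5)
open Pool.Agent.FPX.OMR (Re q4 q6 mSR WSR q0 r3 r5)
open Pool.Agent.FPX.BU (M9 V26 PsiH vecH vecHR omH bbH b5H keH PolH ph sing_leH)
open Pool.Agent.FPX.XIP (Sp4 Sm4 at11)
open Pool.Agent.FPX.OMY (CofS CofZ mkS WS mkZ WZ CertAtZ CertZ)

variable {f : ℝ → ℝ}

/-- the coefficient vector of the class `CZ` with `ρ` in place of `1 / s²` -/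
def vecZR (W : ℝ → ℝ) (F : CofZ) (μ η ρ s c : ℝ) : V29 :=
  put (vecHR W F.H μ η ρ s c) (c * s ^ 2 * F.E.x4 (s ^ 2)) (c * s ^ 4 * F.E.y4 (s ^ 2))
    (2 * c * s ^ 2 * (c ^ 2 * deriv F.E.x4 (s ^ 2) - F.E.x4 (s ^ 2)
      + c ^ 2 * (s ^ 2 * deriv F.E.y4 (s ^ 2) + 5 * F.E.y4 (s ^ 2)) + s ^ 2 * F.E.y4 (s ^ 2)))

theorem vecZR_zero (W : ℝ → ℝ) (F : CofH) (μ η ρ s c : ℝ) :
    vecZR W ⟨F, ⟨fun _ => 0, fun _ => 0⟩⟩ μ η ρ s c = put (vecHR W F μ η ρ s c) 0 0 0 := by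
  unfold vecZR
  simp

section

variable {Q : Type} [Fintype Q] {Ψ : PsiZ Q}

theorem Cp5_eqR (H : Re f) (A B R : ℂ) : Cp5 f A B R = n5 (mo (CZ Ψ) (nf f) (xT f) (ef f)) A B R := by
  rw [BU.Cp5_eqR (Ψ := ΨH0) H]
  rfl

theorem Cm5_eqR (H : Re f) (A B R : ℂ) : Cm5 f A B R = m5 (mo (CZ Ψ) (nf f) (xT f) (ef f)) A B R := by
  rw [BU.Cm5_eqR (Ψ := ΨH0) H]
  rfl

theorem Sp4_eqR (H : Re f) (A B S : ℂ) :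
    ((X1 f / cF f : ℝ) : ℂ) * Sp4 f A B S =
      s4 (mo (CZ Ψ) (nf f) (xT f) (ef f)) A B (((X1 f / cF f : ℝ) : ℂ) * S) := by
  have hc := H.cC
  have e0 : ((X1 f / cF f : ℝ) : ℂ) = (X1 f : ℂ) / (cF f : ℂ) := by push_cast; rfl
  have e4 : ((X1 f / cF f : ℝ) : ℂ) * SYS.m4 f = 3 / 2 * q6 f - OMR.r5 f := by
    rw [e0, div_mul_eq_mul_div, H.m4]
    field_simp
  have e5 : ((X1 f / cF f : ℝ) : ℂ) * SYS.n4 f = -(OMR.r3 f + OMR.q2 f / 2) := by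
    rw [e0, div_mul_eq_mul_div, H.n4]
    field_simp
  have e6 : ((X1 f / cF f : ℝ) : ℂ) * (1 / (cF f : ℂ) * ((X1 f : ℂ) * A - (X1 f : ℂ) * conj B) * SE 4 f) =
      (A - conj B) * q4 f := by
    have h := H.se4
    rw [e0]
    field_simp
    linear_combination (A - conj B) * h
  unfold Sp4 s4
  rw [H.zz, Complex.conj_ofReal, mul_sub, e6, ← r3Z (Ψ := Ψ) H.hf H.h0 H.h2, ← r5Z (Ψ := Ψ) H.hf H.h0 H.h2,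
    ← q2Z (Ψ := Ψ) H.hf H.h0 H.h2, ← q4Z (Ψ := Ψ) H.hf H.h0 H.h2, ← q6Z (Ψ := Ψ) H.hf H.h0 H.h2]
  linear_combination conj B * e4 + A * e5

theorem Sm4_eqR (H : Re f) (A B S : ℂ) :
    ((X1 f / cF f : ℝ) : ℂ) * Sm4 f A B S =
      r4 (mo (CZ Ψ) (nf f) (xT f) (ef f)) A B (((X1 f / cF f : ℝ) : ℂ) * S) := by
  have h : Sm4 f A B S = Sp4 f B A S := by
    unfold Sm4 Sp4
    ring
  rw [h, Sp4_eqR (Ψ := Ψ) H]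
  unfold s4 r4
  ring

theorem n9_eqR (H : Re f) (A B : ℂ) (K : ℝ → ℂ) : n9 (mo (CZ Ψ) (nf f) (xT f) (ef f)) A B
    (bK (CZ Ψ) (nf f) (xT f) (ef f) K 0) =
      Cp f A B (∫ t, C54.ep (X1 f) (X2 f) t ^ 3 * conj (K t) ∂(vm (X1 f) (X2 f))) := by
  rw [n9_eq, BTN.Cp_eqR H]

theorem m9_eqR (H : Re f) (A B : ℂ) (K : ℝ → ℂ) : m9 (mo (CZ Ψ) (nf f) (xT f) (ef f)) A B
    (aK (CZ Ψ) (nf f) (xT f) (ef f) K 0) =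
      Cm f A B (∫ t, C54.ep (X1 f) (X2 f) t ^ 3 * K t ∂(vm (X1 f) (X2 f))) := by
  rw [m9_eq, BTN.Cm_eqR H]

/-- the kernel -/
theorem mkZ_R (H : Re f) (W : ℝ → ℝ) (F : CofZ) (μ η ρ t : ℝ) :
    mkZ F f t = keZ (vecZR W F μ η ρ (X1 f) (cF f)) (mo (CZ Ψ) (nf f) (xT f) (ef f)) (ef f t) (xT f t) := by
  unfold mkZ vecZR
  rw [keZ_put, prM (Ψ := Ψ) _ _ _ ΨH0, ← BU.mkH_R (Ψ := ΨH0) H W F.H μ η ρ, H.mkse]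
  unfold mSR
  rw [BTI.xR_eq H.hf H.h0 H.h2, BTI.eR_eq H.h2, BTN.rF_eq H.h2]
  push_cast
  ring

/-- the coefficient of `|A|² - |B|²` of the pair of `S₄` -/
theorem WS_R (H : Re f) (E : CofS) : WS E f =
    cF f * X1 f ^ 2 * E.x4 (X1 f ^ 2) *
        -(2 * (mo (CZ Ψ) (nf f) (xT f) (ef f) 0).re + (mo (CZ Ψ) (nf f) (xT f) (ef f) 4).re)
      + cF f * X1 f ^ 4 * E.y4 (X1 f ^ 2) *
        (3 * (mo (CZ Ψ) (nf f) (xT f) (ef f) 6).re - 2 * (mo (CZ Ψ) (nf f) (xT f) (ef f) 1).re)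
      + 2 * cF f * X1 f ^ 2 * (cF f ^ 2 * deriv E.x4 (X1 f ^ 2) - E.x4 (X1 f ^ 2)
        + cF f ^ 2 * (X1 f ^ 2 * deriv E.y4 (X1 f ^ 2) + 5 * E.y4 (X1 f ^ 2)) + X1 f ^ 2 * E.y4 (X1 f ^ 2))
        * (mo (CZ Ψ) (nf f) (xT f) (ef f) 5).re := by
  rw [H.wse]
  unfold WSR
  rw [q4Z (Ψ := Ψ) H.hf H.h0 H.h2, q2Z (Ψ := Ψ) H.hf H.h0 H.h2, r3Z (Ψ := Ψ) H.hf H.h0 H.h2,
    r5Z (Ψ := Ψ) H.hf H.h0 H.h2, q6Z (Ψ := Ψ) H.hf H.h0 H.h2, BTN.rF_eq H.h2]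
  generalize mo (CZ Ψ) (nf f) (xT f) (ef f) 0 = z0
  generalize mo (CZ Ψ) (nf f) (xT f) (ef f) 1 = z1
  generalize mo (CZ Ψ) (nf f) (xT f) (ef f) 4 = z4
  generalize mo (CZ Ψ) (nf f) (xT f) (ef f) 5 = z5
  generalize mo (CZ Ψ) (nf f) (xT f) (ef f) 6 = z6
  have e1 : (2 * z0 + z4).re = 2 * z0.re + z4.re := by simp
  have e2 : (3 * z6 - 2 * z1).re = 3 * z6.re - 2 * z1.re := by simp
  rw [e1, e2]
  ring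

/-- the coefficient of the Jacobian, the terms with `∇C₃` and with `∇C₅` -/
theorem omZ_R {W : ℝ → ℝ} {F : CofZ} {μ η ρ : ℝ} (H : Re f) (A B N M P O : ℂ) :
    WZ W F f * (‖A‖ ^ 2 - ‖B‖ ^ 2) + bv F.H.F.C f A B N M + bv5 F.H.b5 f A B P O =
      omZ (vecZR W F μ η ρ (X1 f) (cF f)) (mo (CZ Ψ) (nf f) (xT f) (ef f)) * (‖A‖ ^ 2 - ‖B‖ ^ 2)
      + bbZ (vecZR W F μ η ρ (X1 f) (cF f)) (mo (CZ Ψ) (nf f) (xT f) (ef f)) A B N M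
      + b5Z (vecZR W F μ η ρ (X1 f) (cF f)) (mo (CZ Ψ) (nf f) (xT f) (ef f)) A B P O
      + ((pa F.H.F.C (X1 f) (cF f) * S54.S0 f + pg F.H.F.C (X1 f) (cF f) * Complex.normSq (SYS.CE 3 f)
            + ph F.H (X1 f) (cF f) * Complex.normSq (SYS.CE 5 f)) * (‖A‖ ^ 2 - ‖B‖ ^ 2)
        - cF f ^ 2 * ρ * (pa F.H.F.C (X1 f) (cF f) * q0 f + 4 * pg F.H.F.C (X1 f) (cF f) * ‖r3 f‖ ^ 2
            + 4 * ph F.H (X1 f) (cF f) * ‖r5 f‖ ^ 2) * (‖A‖ ^ 2 - ‖B‖ ^ 2)) := by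
  have h := BU.omH_R (Ψ := ΨH0) (W := W) (F := F.H) (μ := μ) (η := η) (ρ := ρ) H A B N M P O
  unfold WZ vecZR
  rw [omZ_put, bbZ_put, b5Z_put, prM (Ψ := Ψ) _ _ _ ΨH0, WS_R (Ψ := Ψ) H]
  linear_combination h

/-- **the left side of the certificate is at most the form of the class `CZ` at the vector `vecZR`** -/
theorem leftZ_leR {W : ℝ → ℝ} {F : CofZ} {η ρ : ℝ} (H : Re f) (P : PolH F.H η ρ (X1 f) (cF f)) (u : Q → ℝ)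
    (μ : ℝ) (K : ℝ → ℂ) (A B : ℂ) :
    WZ W F f * (‖A‖ ^ 2 - ‖B‖ ^ 2)
      + 2 * (A * ∫ t, mkZ F f t * K t ∂(vm (X1 f) (X2 f))).re
      - 2 * (B * ∫ t, mkZ F f t * conj (K t) ∂(vm (X1 f) (X2 f))).re
      + bv F.H.F.C f A B (Cp f A B (∫ t, C54.ep (X1 f) (X2 f) t ^ 3 * conj (K t) ∂(vm (X1 f) (X2 f))))
          (Cm f A B (∫ t, C54.ep (X1 f) (X2 f) t ^ 3 * K t ∂(vm (X1 f) (X2 f))))
      + bv5 F.H.b5 f A B (Cp5 f A B (∫ t, C54.ep (X1 f) (X2 f) t ^ 5 * conj (K t) ∂(vm (X1 f) (X2 f))))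
          (Cm5 f A B (∫ t, C54.ep (X1 f) (X2 f) t ^ 5 * K t ∂(vm (X1 f) (X2 f))))
      + 2 * μ * ‖dev (CZ Ψ) u (mo (CZ Ψ) (nf f) (xT f) (ef f)) A B (aK (CZ Ψ) (nf f) (xT f) (ef f) K)
        (bK (CZ Ψ) (nf f) (xT f) (ef f) K)‖ ^ 2 ≤
    BTG.lh (CZ Ψ) (nf f) (xT f) (ef f) (vecZR W F 0 η ρ (X1 f) (cF f)) u μ K A B := by
  have hS := sing_leH H P.ha P.hg P.hh P.h1 P.hη P.hη' P.hηh A B
  have e1 : ∀ t, BTG.ker (CZ Ψ) (vecZR W F 0 η ρ (X1 f) (cF f)) (mo (CZ Ψ) (nf f) (xT f) (ef f)) (ef f t)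
      (xT f t) = mkZ F f t := fun t => by
    rw [kerZ, ← mkZ_R H W F 0 η ρ]
  have e5 : n5 (mo (CZ Ψ) (nf f) (xT f) (ef f)) A B (bK (CZ Ψ) (nf f) (xT f) (ef f) K 3) =
      Cp5 f A B (∫ t, C54.ep (X1 f) (X2 f) t ^ 5 * conj (K t) ∂(vm (X1 f) (X2 f))) := by
    rw [Cp5_eqR (Ψ := Ψ) H]
    rfl
  have e5' : m5 (mo (CZ Ψ) (nf f) (xT f) (ef f)) A B (aK (CZ Ψ) (nf f) (xT f) (ef f) K 3) =
      Cm5 f A B (∫ t, C54.ep (X1 f) (X2 f) t ^ 5 * K t ∂(vm (X1 f) (X2 f))) := by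
    rw [Cm5_eqR (Ψ := Ψ) H]
    rfl
  have h := omZ_R (Ψ := Ψ) (W := W) (F := F) (μ := 0) (η := η) (ρ := ρ) H A B
    (Cp f A B (∫ t, C54.ep (X1 f) (X2 f) t ^ 3 * conj (K t) ∂(vm (X1 f) (X2 f))))
    (Cm f A B (∫ t, C54.ep (X1 f) (X2 f) t ^ 3 * K t ∂(vm (X1 f) (X2 f))))
    (Cp5 f A B (∫ t, C54.ep (X1 f) (X2 f) t ^ 5 * conj (K t) ∂(vm (X1 f) (X2 f))))
    (Cm5 f A B (∫ t, C54.ep (X1 f) (X2 f) t ^ 5 * K t ∂(vm (X1 f) (X2 f))))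
  have e14 : vecZR W F 0 η ρ (X1 f) (cF f) 14 = 0 + η / 2 := by
    simp only [vecZR, put, vecHR, Matrix.cons_val, BTI.v9R_14]
  unfold BTG.lh
  rw [thtZ, e14, n9_eqR H, m9_eqR H, e5, e5']
  simp only [e1]
  rw [zero_add]
  have e2 : η / 2 * (2 * ‖B‖ ^ 2) = η * ‖B‖ ^ 2 := by ring
  rw [e2]
  linarith

/-- **the certificate `CertAtZ` from the class `CZ` at `vecZR`**, all states with `s ≥ 0` -/
theorem certAtZ_of_NCR {Bk : DevK} {W : ℝ → ℝ} {F : CofZ} {u : Q → ℝ} {μ η ρ T : ℝ} (hμ : 0 ≤ μ) (H : Re f)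
    (P : PolH F.H η ρ (X1 f) (cF f))
    (HB : ∀ K : ℝ → ℂ, Measurable K → (∀ t, ‖K t‖ ≤ 1) → ∀ A B : ℂ, ‖Bk f K A B‖ ≤
      ‖dev (CZ Ψ) u (mo (CZ Ψ) (nf f) (xT f) (ef f)) A B (aK (CZ Ψ) (nf f) (xT f) (ef f) K)
        (bK (CZ Ψ) (nf f) (xT f) (ef f) K)‖)
    (h : BTG.NC (CZ Ψ) (nf f) (xT f) (ef f) (vecZR W F 0 η ρ (X1 f) (cF f)) u μ T) :
    CertAtZ Bk W F μ T f := by
  intro K hK hK1 A B hA hB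
  rw [H.sf, r3Z (Ψ := Ψ) H.hf H.h0 H.h2] at hA hB
  have h1 := leftZ_leR (Ψ := Ψ) (W := W) (F := F) H P u μ K A B
  have h2 := h K hK hK1 A B hA hB
  have h3 := mul_le_mul_of_nonneg_left (pow_le_pow_left₀ (norm_nonneg _) (HB K hK hK1 A B) 2)
    (show (0 : ℝ) ≤ 2 * μ by linarith)
  linarith

theorem devK7_leR {Bx : Dev7} {u : Q → ℝ} (H : Re f) (HB : DevLe7 Bx Ψ u f) (K : ℝ → ℂ) (A B : ℂ) :
    ‖devK7 Bx f K A B‖ ≤ ‖dev (CZ Ψ) u (mo (CZ Ψ) (nf f) (xT f) (ef f)) A B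
      (aK (CZ Ψ) (nf f) (xT f) (ef f) K) (bK (CZ Ψ) (nf f) (xT f) (ef f) K)‖ := by
  unfold devK7 at11
  refine (HB _ _ _ _ _ _ _ _ _ _ _).trans (le_of_eq ?_)
  rw [← n9_eqR (Ψ := Ψ) H, ← m9_eqR (Ψ := Ψ) H, BTN.t_SpR H, BTN.t_SmR H, Cp5_eqR (Ψ := Ψ) H, Cm5_eqR (Ψ := Ψ) H,
    Sp4_eqR (Ψ := Ψ) H, Sm4_eqR (Ψ := Ψ) H]
  have e1 : ((X1 f / cF f : ℝ) : ℂ) * ∫ t, ((de (X1 f) (X2 f) f t : ℂ) * C54.ep (X1 f) (X2 f) t ^ 2)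
      * conj (K t) ∂(vm (X1 f) (X2 f)) = bK (CZ Ψ) (nf f) (xT f) (ef f) K 1 := by
    have := BTN.t_intR H (fun t => ef f t ^ 2 * conj (K t))
    simp only [← mul_assoc] at this
    exact this
  have e2 : ((X1 f / cF f : ℝ) : ℂ) * ∫ t, ((de (X1 f) (X2 f) f t : ℂ) * C54.ep (X1 f) (X2 f) t ^ 2)
      * K t ∂(vm (X1 f) (X2 f)) = aK (CZ Ψ) (nf f) (xT f) (ef f) K 1 := by
    have := BTN.t_intR H (fun t => ef f t ^ 2 * K t)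
    simp only [← mul_assoc] at this
    exact this
  have e3 : ((X1 f / cF f : ℝ) : ℂ) * ∫ t, (de (X1 f) (X2 f) f t : ℂ) * K t ∂(vm (X1 f) (X2 f)) =
      aK (CZ Ψ) (nf f) (xT f) (ef f) K 2 := BTN.t_intR H K
  have e4 : ((X1 f / cF f : ℝ) : ℂ) * ∫ t, ((de (X1 f) (X2 f) f t : ℂ) * C54.ep (X1 f) (X2 f) t ^ 4)
      * conj (K t) ∂(vm (X1 f) (X2 f)) = bK (CZ Ψ) (nf f) (xT f) (ef f) K 4 := by
    have := BTN.t_intR H (fun t => ef f t ^ 4 * conj (K t))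
    simp only [← mul_assoc] at this
    exact this
  have e5 : ((X1 f / cF f : ℝ) : ℂ) * ∫ t, ((de (X1 f) (X2 f) f t : ℂ) * C54.ep (X1 f) (X2 f) t ^ 4)
      * K t ∂(vm (X1 f) (X2 f)) = aK (CZ Ψ) (nf f) (xT f) (ef f) K 4 := by
    have := BTN.t_intR H (fun t => ef f t ^ 4 * K t)
    simp only [← mul_assoc] at this
    exact this
  rw [e1, e2, e3, e4, e5]
  rfl

/-- **the certificate `CertAtZ (devK7 Bx)`** -/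
theorem certAtZX_of_NCR {Bx : Dev7} {W : ℝ → ℝ} {F : CofZ} {u : Q → ℝ} {μ η ρ T : ℝ} (hμ : 0 ≤ μ) (H : Re f)
    (P : PolH F.H η ρ (X1 f) (cF f)) (HB : DevLe7 Bx Ψ u f)
    (h : BTG.NC (CZ Ψ) (nf f) (xT f) (ef f) (vecZR W F 0 η ρ (X1 f) (cF f)) u μ T) :
    CertAtZ (devK7 Bx) W F μ T f :=
  certAtZ_of_NCR hμ H P (fun K _ _ A B => devK7_leR H HB K A B) h

/-- **the certificate `CertAtH (devK7 Bx)`** (class `CofH`, start map with the parts of `∇S₄`) -/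
theorem certAtHX_of_NCZR {Bx : Dev7} {W : ℝ → ℝ} {F : CofH} {u : Q → ℝ} {μ η ρ T : ℝ} (hμ : 0 ≤ μ) (H : Re f)
    (P : PolH F η ρ (X1 f) (cF f)) (HB : DevLe7 Bx Ψ u f)
    (h : BTG.NC (CZ Ψ) (nf f) (xT f) (ef f) (put (vecHR W F 0 η ρ (X1 f) (cF f)) 0 0 0) u μ T) :
    CertAtH (devK7 Bx) W F μ T f := by
  refine certAtH_of_Z (certAtZX_of_NCR (Ψ := Ψ) (η := η) (ρ := ρ) (u := u)
    (F := ⟨F, ⟨fun _ => 0, fun _ => 0⟩⟩) hμ H P HB ?_)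
  rw [vecZR_zero]
  exact h

/-- **a latitude cell (the pole may be in it), class `CertZ`**: approximate control points -/
theorem cellZR' {Bx : Dev7} {W : ℝ → ℝ} {F : CofZ} {μ η ρ T : ℝ} (hμ : 0 ≤ μ) (H : Re f)
    (P : PolH F.H η ρ (X1 f) (cF f)) {s' : ℝ} (hs' : X1 f ≤ s') (h1 : s' ≤ 1)
    {R : (ℝ → ℝ) → Prop} (hR : R (Xa (X1 f) f)) {κ : Type*} {S : Finset κ} {c : κ → ℝ} {v : κ → V29}
    {u : κ → Q → ℝ} (hc : ∀ j ∈ S, 0 ≤ c j) (hc1 : ∑ j ∈ S, c j = 1)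
    (h : ∀ j ∈ S, ∀ X, St s' X → (∀ a, |X a| ≤ 31 / 50 * s') → R X → BTG.RW (CZ Ψ) va X e1 (v j) (u j) μ T)
    {u0 : Q → ℝ} (HB : DevLe7 Bx Ψ u0 f) {d : Q → ℝ} (hΨ : PsiLe Ψ d) {δ U θ : ℝ}
    (hδ : ∑ q, |u0 q - (∑ j ∈ S, c j • u j) q| * d q ≤ δ) (hU : ∑ q, |(∑ j ∈ S, c j • u j) q| * d q ≤ U)
    (hθ : ∑ i, |vecZR W F 0 η ρ (X1 f) (cF f) i - (∑ j ∈ S, c j • v j) i| * cZ i
      + 2 * μ * (δ * (2 * U + δ)) ≤ θ) :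
    CertAtZ (devK7 Bx) W F μ (T + θ) f :=
  certAtZX_of_NCR hμ H P HB (cellZ H.hf H.h0 H.h2 hμ hs' h1 hR hc hc1 h hΨ hδ hU hθ)

/-- **the same, vertex version** (state dependent weights) -/
theorem cellZVR {Bx : Dev7} {W : ℝ → ℝ} {F : CofZ} {μ η ρ T : ℝ} (hμ : 0 ≤ μ) (H : Re f)
    (P : PolH F.H η ρ (X1 f) (cF f)) {s' : ℝ} (hs' : X1 f ≤ s') (h1 : s' ≤ 1)
    {R : (ℝ → ℝ) → Prop} (hR : R (Xa (X1 f) f)) {κ : Type*} {S : Finset κ} {c : κ → ℝ} {v : κ → V29}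
    {u : κ → Q → ℝ} (hc : ∀ j ∈ S, 0 ≤ c j) (hc1 : ∑ j ∈ S, c j = 1)
    (h : ∀ j ∈ S, ∀ X, St s' X → (∀ a, |X a| ≤ 31 / 50 * s') → R X → BTG.RWV (CZ Ψ) va X e1 (v j) (u j) μ T)
    {u0 : Q → ℝ} (HB : DevLe7 Bx Ψ u0 f) {d : Q → ℝ} (hΨ : PsiLe Ψ d) {δ U θ : ℝ}
    (hδ : ∑ q, |u0 q - (∑ j ∈ S, c j • u j) q| * d q ≤ δ) (hU : ∑ q, |(∑ j ∈ S, c j • u j) q| * d q ≤ U)
    (hθ : ∑ i, |vecZR W F 0 η ρ (X1 f) (cF f) i - (∑ j ∈ S, c j • v j) i| * cZ i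
      + 2 * μ * (δ * (2 * U + δ)) ≤ θ) :
    CertAtZ (devK7 Bx) W F μ (T + θ) f :=
  certAtZX_of_NCR hμ H P HB (cellZV H.hf H.h0 H.h2 hμ hs' h1 hR hc hc1 h hΨ hδ hU hθ)

/-- the same, the certificates at the control points given as `NC` -/
theorem cellZNR {Bx : Dev7} {W : ℝ → ℝ} {F : CofZ} {μ η ρ T : ℝ} (hμ : 0 ≤ μ) (H : Re f)
    (P : PolH F.H η ρ (X1 f) (cF f)) {κ : Type*} {S : Finset κ} {c : κ → ℝ} {v : κ → V29}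
    {u : κ → Q → ℝ} (hc : ∀ j ∈ S, 0 ≤ c j) (hc1 : ∑ j ∈ S, c j = 1)
    (h : ∀ j ∈ S, BTG.NC (CZ Ψ) (nf f) (xT f) (ef f) (v j) (u j) μ T)
    {u0 : Q → ℝ} (HB : DevLe7 Bx Ψ u0 f) {d : Q → ℝ} (hΨ : PsiLe Ψ d) {δ U θ : ℝ}
    (hδ : ∑ q, |u0 q - (∑ j ∈ S, c j • u j) q| * d q ≤ δ) (hU : ∑ q, |(∑ j ∈ S, c j • u j) q| * d q ≤ U)
    (hθ : ∑ i, |vecZR W F 0 η ρ (X1 f) (cF f) i - (∑ j ∈ S, c j • v j) i| * cZ i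
      + 2 * μ * (δ * (2 * U + δ)) ≤ θ) :
    CertAtZ (devK7 Bx) W F μ (T + θ) f :=
  certAtZX_of_NCR hμ H P HB (cellZN H.hf H.h0 H.h2 hμ hc hc1 h hΨ hδ hU hθ)

end

end Pool.Agent.FPX.BV
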