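import Mathlib
import Pool.Agent.FPX.BRW

/-
BWA (helper84): the bridge for ANY class: a form `Fm` (terms without `K`, constraints, kernel), its meaning `Fm.Sem`,
state dependent weights `1 + y`, majorants `Σ λ_k p_k` of the reciprocal weight, multiplier of `u₃ - ρ_k`, elimination of
the free variables. Instances: `C9` (BWB), `CH` (BWC).
-/

open MeasureTheory Set Filter Topology Complex
open scoped ENNReal NNReal ContDiff ComplexConjugate

noncomputable section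

namespace Pool.Agent.FPX.BRG

open Pool.Agent.FPX.CRD (Bm)

variable {Ω : Type*} [MeasurableSpace Ω]

/-- a form: terms without `K` (with `x²`: `Q`), constraints (harmonic, right side), kernel, state independent part of the
multiplier function -/
structure Fm where
  T : Tf
  Q : Qf
  C : List (ℤ × Lf)
  k : Kr
  A : A0l

/-- constraints with multipliers -/
def Fm.cl (F : Fm) (mf : ℤ → Lf) : Cl := F.C.map fun c => (c.1, c.2, mf c.1)

def Fm.par (F : Fm) : Bool := F.k.par && (F.A.par && F.C.all fun c => c.1 % 2 = 1)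

/-- the meaning of the form -/
def Fm.Sem (F : Fm) (ν : Measure Ω) (x : Ω → ℝ) (E : Ω → ℂ) (G : Prop) : Prop :=
  ∀ q : ℂ → ℝ → ℝ, Continuous (fun p : ℂ × ℝ => q p.1 p.2) → (∀ e x, ‖e‖ = 1 → |x| ≤ 1 → 0 < q e x) →
    ∫ t, 1 / q (E t) (x t) ∂ν ≤ 1 → ∀ mf : ℤ → Lf,
    (∀ z : ℕ → ℂ, (e2 z (vl ν x E) F.T + eq2 z (Zr 2 ν x E) F.Q).re
      - 2 * (((F.cl mf).map fun c => BRG.ev z (vl ν x E) c.2.2 * conj (BRG.ev z (vl ν x E) c.2.1)).sum).re
      + ∫ t, ‖((F.cl mf).kr F.k).f z (vl ν x E) (E t) (x t)‖ ^ 2 * q (E t) (x t) ∂ν ≤ 0) → G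

/-- the kernel `g` -/
def Fm.g (F : Fm) (y : Yr) (mf : ℤ → Lf) : Kr := cmK (gk ((F.cl mf).kr F.k) F.A (ys y))

/-- the part of the form without the reciprocal weight -/
def Fm.TC (F : Fm) (y : Yr) (mf : ℤ → Lf) : Tf :=
  smT (-1) F.T ++ ((F.cl mf).map (fun c => (2, c.2.2, c.2.1))
    ++ smT (-1) (T00 F.A (ys y) ++ T01 (F.g y mf) F.A))

theorem Fm.par_g {F : Fm} (hF : F.par = true) {y : Yr} (hy : y.ok = true) (mf : ℤ → Lf) : (F.g y mf).par = true := by
  unfold Fm.par at hF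
  simp only [Bool.and_eq_true] at hF
  obtain ⟨h1, h2, h3⟩ := hF
  refine cmK_par (gk_par ?_ h2 hy)
  unfold Kr.par at h1 ⊢
  rw [Bool.and_eq_true, List.all_eq_true, List.all_eq_true] at h1 ⊢
  rw [List.all_eq_true] at h3
  refine ⟨fun p hp => ?_, h1.2⟩
  unfold Cl.kr Fm.cl at hp
  simp only [List.mem_append, List.mem_map] at hp
  rcases hp with ⟨c, ⟨c', hc, rfl⟩, rfl⟩ | hp
  · exact h3 c' hc
  · exact h1.1 p hp

/-- a fast version of the list of `mean |f|²`, for real parts -/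
def Kr.T0h (k : Kr) : Tf :=
  (k.A.flatMap fun p => k.A.flatMap fun q => if p.1 - q.1 + 0 = 0 then [(1, p.2, q.2)] else [])
  ++ (k.B.flatMap fun p => k.A.flatMap fun q =>
      if p.1 - q.1 + 0 = 1 ∨ p.1 - q.1 + 0 = -1 then [] else [(2, sh p.2 (p.1 - q.1 + 0), q.2)])

def Kr.TWh (w : Wl) (k : Kr) : Tf := w.flatMap fun p => if p.2 = 0 then smT p.1 k.T0h else smT p.1 (k.T p.2)

theorem sum_comm2 {α β : Type*} (l : List α) (l' : List β) (f : α → β → ℂ) :
    (l.map fun a => (l'.map fun b => f a b).sum).sum = (l'.map fun b => (l.map fun a => f a b).sum).sum := by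
  induction l with
  | nil => simp
  | cons a l ih =>
    simp only [List.map_cons, List.sum_cons]
    rw [ih]
    induction l' with
    | nil => simp
    | cons b l' ih' =>
      simp only [List.map_cons, List.sum_cons] at ih ⊢
      have h := ih'  (by
        have : ∀ (m : List β), (l.map fun a => (m.map fun b => f a b).sum).sum =
            (m.map fun b => (l.map fun a => f a b).sum).sum := by
          intro m
          induction m with
          | nil => simp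
          | cons b m ihm =>
            simp only [List.map_cons, List.sum_cons, List.sum_map_add] at ihm ⊢
            rw [ihm]
        exact this l')
      linear_combination h

theorem sum_re {α : Type*} (l : List α) (f : α → ℂ) : (l.map f).sum.re = (l.map fun a => (f a).re).sum := by
  induction l with
  | nil => simp
  | cons a l ih => simp [ih]

theorem T0h_re {z : ℕ → ℂ} {u : ℤ → ℂ} (k : Kr) :
    (e2 z u k.T0h).re = (e2 z u (k.T 0)).re := by
  unfold Kr.T0h Kr.T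
  rw [e2_append, e2_append, e2_append, Complex.add_re, Complex.add_re, Complex.add_re]
  have h1 : (e2 z u (k.A.flatMap fun p => k.B.flatMap fun q =>
      if q.1 - p.1 - 0 = 1 ∨ q.1 - p.1 - 0 = -1 then [] else [(1, p.2, sh q.2 (q.1 - p.1 - 0))])).re =
      (e2 z u (k.B.flatMap fun p => k.A.flatMap fun q =>
      if p.1 - q.1 + 0 = 1 ∨ p.1 - q.1 + 0 = -1 then [] else [(1, sh p.2 (p.1 - q.1 + 0), q.2)])).re := by
    rw [e2_flatMap, e2_flatMap]
    simp only [e2_flatMap]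
    rw [sum_comm2, sum_re, sum_re]
    congr 1
    refine List.map_congr_left fun p _ => ?_
    rw [sum_re, sum_re]
    congr 1
    refine List.map_congr_left fun q _ => ?_
    simp only [sub_zero, add_zero]
    split_ifs with h
    · rfl
    · rw [e2_cons, e2_cons, e2_nil, add_zero, add_zero]
      have : ∀ a b : ℂ, (a * conj b).re = (b * conj a).re := fun a b => by
        simp only [Complex.mul_re, Complex.conj_re, Complex.conj_im]
        ring
      simp only [Rat.cast_one, one_mul]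
      exact this _ _
  have h2 : (e2 z u (k.B.flatMap fun p => k.A.flatMap fun q =>
      if p.1 - q.1 + 0 = 1 ∨ p.1 - q.1 + 0 = -1 then [] else [(2, sh p.2 (p.1 - q.1 + 0), q.2)])).re =
      2 * (e2 z u (k.B.flatMap fun p => k.A.flatMap fun q =>
      if p.1 - q.1 + 0 = 1 ∨ p.1 - q.1 + 0 = -1 then [] else [(1, sh p.2 (p.1 - q.1 + 0), q.2)])).re := by
    have : e2 z u (k.B.flatMap fun p => k.A.flatMap fun q =>
      if p.1 - q.1 + 0 = 1 ∨ p.1 - q.1 + 0 = -1 then [] else [(2, sh p.2 (p.1 - q.1 + 0), q.2)]) =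
      2 * e2 z u (k.B.flatMap fun p => k.A.flatMap fun q =>
      if p.1 - q.1 + 0 = 1 ∨ p.1 - q.1 + 0 = -1 then [] else [(1, sh p.2 (p.1 - q.1 + 0), q.2)]) := by
      rw [e2_flatMap, e2_flatMap, ← List.sum_map_mul_left]
      congr 1
      refine List.map_congr_left fun p _ => ?_
      rw [e2_flatMap, e2_flatMap, ← List.sum_map_mul_left]
      congr 1
      refine List.map_congr_left fun q _ => ?_
      split_ifs
      · simp
      · rw [e2_cons, e2_cons, e2_nil]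
        push_cast
        ring
    rw [this, Complex.mul_re]
    norm_num
  rw [h1, h2]
  ring

theorem TWh_re {z : ℕ → ℂ} {u : ℤ → ℂ} (w : Wl) (k : Kr) :
    (e2 z u (k.TWh w)).re = (e2 z u (k.TW w)).re := by
  unfold Kr.TWh Kr.TW
  rw [e2_flatMap, e2_flatMap, sum_re, sum_re]
  congr 1
  refine List.map_congr_left fun p _ => ?_
  split_ifs with h
  · rw [e2_smT, e2_smT, h]
    have c : ((p.1 : ℚ) : ℂ) = ((p.1 : ℝ) : ℂ) := by push_cast; rfl
    rw [c, Complex.re_ofReal_mul, Complex.re_ofReal_mul, T0h_re]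
  · rfl

section fr

variable {ν : Measure Ω} {x : Ω → ℝ} {E : Ω → ℂ} (H : Fr ν x E)
include H

/-- **the main theorem** for a weight `1 + y` and a majorant `P` of its reciprocal -/
theorem Fm.main {F : Fm} {G : Prop} (hS : F.Sem ν x E G) (hF : F.par = true) {y : Yr} (hy : y.ok = true)
    (mf : ℤ → Lf) {δ : ℝ} (hδ : 0 < δ) (h1 : ∀ e : ℂ, ‖e‖ = 1 → δ ≤ 1 + yr (vl ν x E) y e)
    {P : ℂ → ℝ} (hP : Bm fun t => ((P (E t) : ℝ) : ℂ))
    (h2 : ∀ e : ℂ, ‖e‖ = 1 → 1 ≤ P e * (1 + yr (vl ν x E) y e))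
    (h : ∀ z : ℕ → ℂ, ∫ t, ‖(F.g y mf).f z (vl ν x E) (E t) (x t)‖ ^ 2 * P (E t) ∂ν ≤
      (e2 z (vl ν x E) (F.TC y mf) + eq2 z (Zr 2 ν x E) (smQ (-1) F.Q)).re) : G := by
  have := H.pr
  have hA : F.A.par = true := by
    unfold Fm.par at hF
    simp only [Bool.and_eq_true] at hF
    exact hF.2.1
  have hg := Fm.par_g hF hy mf
  have hg0 : (gk ((F.cl mf).kr F.k) F.A (ys y)).par = true := by
    unfold Fm.par at hF
    simp only [Bool.and_eq_true] at hF
    obtain ⟨k1, k2, k3⟩ := hF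
    refine gk_par ?_ k2 hy
    unfold Kr.par at k1 ⊢
    rw [Bool.and_eq_true, List.all_eq_true, List.all_eq_true] at k1 ⊢
    rw [List.all_eq_true] at k3
    refine ⟨fun p hp => ?_, k1.2⟩
    unfold Cl.kr Fm.cl at hp
    simp only [List.mem_append, List.mem_map] at hp
    rcases hp with ⟨c, ⟨c', hc, rfl⟩, rfl⟩ | hp
    · exact k3 c' hc
    · exact k1.1 p hp
  have hq1 : ∀ e : ℂ, ‖e‖ = 1 → max δ (1 + yr (vl ν x E) y e) = 1 + yr (vl ν x E) y e := fun e he =>
    max_eq_right (h1 e he)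
  have hmx : ∀ e : ℂ, 0 < max δ (1 + yr (vl ν x E) y e) := fun e => lt_of_lt_of_le hδ (le_max_left _ _)
  refine hS (fun e _ => 1 / max δ (1 + yr (vl ν x E) y e)) ?_ (fun e _ _ _ => one_div_pos.2 (hmx e))
    (le_of_eq ?_) mf fun z => ?_
  · have c : Continuous fun p : ℂ × ℝ => max δ (1 + yr (vl ν x E) y p.1) :=
      continuous_const.max (continuous_const.add ((yr_cont _ _).comp continuous_fst))
    exact continuous_const.div c fun p => (hmx p.1).ne'
  · refine (integral_congr_ae (Eventually.of_forall fun t => ?_)).trans (H.int_y y hy (vl ν x E))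
    exact (one_div_one_div _).trans (hq1 _ (H.norm1 t))
  · have Fz := h z
    have hs := H.split ((F.cl mf).kr F.k) F.A y hg0 hA z hP hδ (fun t => h1 _ (H.norm1 t))
      (fun t => h2 _ (H.norm1 t))
    have e : ∫ t, ‖((F.cl mf).kr F.k).f z (vl ν x E) (E t) (x t)‖ ^ 2
        * (1 / max δ (1 + yr (vl ν x E) y (E t))) ∂ν =
        ∫ t, ‖((F.cl mf).kr F.k).f z (vl ν x E) (E t) (x t)‖ ^ 2
        * (1 / (1 + yr (vl ν x E) y (E t))) ∂ν := by
      refine integral_congr_ae (Eventually.of_forall fun t => ?_)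
      simp only
      rw [hq1 _ (H.norm1 t)]
    rw [e]
    have i2 := H.int_T01 _ hg0 F.A hA z
    have i2' := H.int_T01 _ hg F.A hA z
    have hgf : ∀ t, (F.g y mf).f z (vl ν x E) (E t) (x t) =
        (gk ((F.cl mf).kr F.k) F.A (ys y)).f z (vl ν x E) (E t) (x t) := fun t => cmK_f _ _ _ _ _
    simp only [hgf] at Fz i2'
    rw [i2] at i2'
    unfold Fm.TC at Fz
    rw [e2_append, e2_append, e2_smT, e2_smT, e2_append, eq2_smQ, e2_C, ← i2'] at Fz
    have c1 : ((((-1 : ℚ) : ℚ)) : ℂ) = -1 := by push_cast; rfl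
    rw [c1] at Fz
    have d2 : ∀ w : ℂ, (2 * w).re = 2 * w.re := fun w => by
      rw [Complex.mul_re]
      norm_num
    have dn : ∀ w : ℂ, (-1 * w).re = -w.re := fun w => by
      rw [neg_one_mul, Complex.neg_re]
    simp only [Complex.add_re, d2, dn] at Fz hs ⊢
    linarith

/-- the value of a majorant given by two lists -/
def pv (R I : Wl) (e : ℂ) : ℝ := (we R e).re + (we I e).im

theorem Fr.bpv (R I : Wl) : Bm fun t => ((pv R I (E t) : ℝ) : ℂ) := by
  have bR := H.bwe R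
  have bI := H.bwe I
  obtain ⟨C, hC⟩ := bR.2
  obtain ⟨C', hC'⟩ := bI.2
  refine ⟨Complex.continuous_ofReal.measurable.comp ((Complex.measurable_re.comp bR.meas).add
    (Complex.measurable_im.comp bI.meas)), C + C', fun t => ?_⟩
  rw [Complex.norm_real]
  unfold pv
  exact (norm_add_le _ _).trans (add_le_add ((Complex.abs_re_le_norm _).trans (hC t))
    ((Complex.abs_im_le_norm _).trans (hC' t)))

/-- the forms at the vertices: rank one terms, real and imaginary part -/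
def Fm.VR (F : Fm) (y : Yr) (mf : ℤ → Lf) (R : Wl) (L : Lm) (a : ℚ) : Tf :=
  mrgT (F.TC y mf ++ (smT (-1) ((F.g y mf).TWh R) ++ L.R a))

def Fm.VI (F : Fm) (y : Yr) (mf : ℤ → Lf) (I : Wl) (L : Lm) (b : ℚ) : Tf :=
  mrgT (smT (-1) ((F.g y mf).TW I) ++ L.I b)

/-- the terms with `x²` -/
def Fm.QR (F : Fm) (R : Wl) : Qf := smQ (-1) F.Q ++ smQ (-1) (F.k.QW R)

def Fm.QI (F : Fm) (I : Wl) : Qf := smQ (-1) (F.k.QW I)

omit [MeasurableSpace Ω] H in
theorem Fm.g_B (F : Fm) (y : Yr) (mf : ℤ → Lf) : (F.g y mf).B = F.k.B := rfl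

/-- **the main theorem with vertices** -/
theorem Fm.mainV {F : Fm} {G : Prop} (hS : F.Sem ν x E G) (hF : F.par = true) {y : Yr} (hy : y.ok = true)
    (mf : ℤ → Lf) {δ : ℝ} (hδ : 0 < δ) (h1 : ∀ e : ℂ, ‖e‖ = 1 → δ ≤ 1 + yr (vl ν x E) y e)
    {n : ℕ} {lm : Fin n → ℝ} (hl : ∀ k, 0 ≤ lm k) (hl1 : ∑ k, lm k = 1) {R I : Fin n → Wl}
    (hR : ∀ k, (R k).ev = true) (hI : ∀ k, (I k).ev = true)
    (hP : ∀ e : ℂ, ‖e‖ = 1 → 1 ≤ (∑ k, lm k * pv (R k) (I k) e) * (1 + yr (vl ν x E) y e))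
    {L : Lm} {a b : Fin n → ℚ}
    (hL : ∀ z : ℕ → ℂ, ∑ k, lm k * (L.v z * (vl ν x E 3 - ((a k : ℂ) + (b k : ℂ) * Complex.I))).re = 0)
    (h : ∀ (k : Fin n) (z : ℕ → ℂ), 0 ≤ (e2 z (vl ν x E) (F.VR y mf (R k) L (a k)) + eq2 z (Zr 2 ν x E) (F.QR (R k))).re
      + (e2 z (vl ν x E) (F.VI y mf (I k) L (b k)) + eq2 z (Zr 2 ν x E) (F.QI (I k))).im) : G := by
  have := H.pr
  have u0 : vl ν x E 0 = 1 := by simp [vl]
  have hg := Fm.par_g hF hy mf
  refine Fm.main H hS hF hy mf hδ h1 (P := fun e => ∑ k, lm k * pv (R k) (I k) e) ?_ hP fun z => ?_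
  · have e : (fun t => (((∑ k, lm k * pv (R k) (I k) (E t) : ℝ)) : ℂ)) = fun t =>
        ∑ k, ((lm k : ℝ) : ℂ) * ((pv (R k) (I k) (E t) : ℝ) : ℂ) := by
      funext t
      push_cast
      rfl
    rw [e]
    have : ∀ s : Finset (Fin n), Bm fun t => ∑ k ∈ s, ((lm k : ℝ) : ℂ) * ((pv (R k) (I k) (E t) : ℝ) : ℂ) := by
      intro s
      induction s using Finset.induction_on with
      | empty => simpa using Bm.const (0 : ℂ)
      | insert k s hk ih =>
        simp only [Finset.sum_insert hk]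
        exact ((Bm.const _).mul (H.bpv _ _)).add ih
    exact this _
  · set f := fun t => (F.g y mf).f z (vl ν x E) (E t) (x t) with hf
    have bf : Bm f := H.bf _ z _
    have bn : Bm fun t => ((‖f t‖ ^ 2 : ℝ) : ℂ) := by
      have e : (fun t => ((‖f t‖ ^ 2 : ℝ) : ℂ)) = fun t => f t * conj (f t) := by
        funext t
        rw [Complex.mul_conj, Complex.normSq_eq_norm_sq]
      rw [e]
      exact bf.mul bf.conj
    have jr : ∀ {g : Ω → ℝ}, Bm (fun t => ((g t : ℝ) : ℂ)) → Integrable (fun t => ‖f t‖ ^ 2 * g t) ν := by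
      intro g hg
      have h1 : Integrable (fun t => (((‖f t‖ ^ 2 : ℝ) : ℂ) * ((g t : ℝ) : ℂ)).re) ν := ((bn.mul hg).int (μ := ν)).re
      refine h1.congr (Eventually.of_forall fun t => ?_)
      simp only
      rw [← Complex.ofReal_mul, Complex.ofReal_re]
    have bre : ∀ w : Wl, Bm fun t => (((we w (E t)).re : ℝ) : ℂ) := fun w =>
      ⟨Complex.continuous_ofReal.measurable.comp (Complex.measurable_re.comp (H.bwe w).meas), by
        obtain ⟨C, hC⟩ := (H.bwe w).2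
        exact ⟨C, fun t => by
          rw [Complex.norm_real]
          exact (Complex.abs_re_le_norm _).trans (hC t)⟩⟩
    have bim : ∀ w : Wl, Bm fun t => (((we w (E t)).im : ℝ) : ℂ) := fun w =>
      ⟨Complex.continuous_ofReal.measurable.comp (Complex.measurable_im.comp (H.bwe w).meas), by
        obtain ⟨C, hC⟩ := (H.bwe w).2
        exact ⟨C, fun t => by
          rw [Complex.norm_real]
          exact (Complex.abs_im_le_norm _).trans (hC t)⟩⟩
    have hint : ∫ t, ‖f t‖ ^ 2 * ∑ k, lm k * pv (R k) (I k) (E t) ∂ν =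
        ∑ k, lm k * ((e2 z (vl ν x E) ((F.g y mf).TW (R k)) + eq2 z (Zr 2 ν x E) ((F.g y mf).QW (R k))).re
          + (e2 z (vl ν x E) ((F.g y mf).TW (I k)) + eq2 z (Zr 2 ν x E) ((F.g y mf).QW (I k))).im) := by
      have e : (fun t => ‖f t‖ ^ 2 * ∑ k, lm k * pv (R k) (I k) (E t)) = fun t =>
          ∑ k, lm k * (‖f t‖ ^ 2 * (we (R k) (E t)).re + ‖f t‖ ^ 2 * (we (I k) (E t)).im) := by
        funext t
        rw [Finset.mul_sum]
        refine Finset.sum_congr rfl fun k _ => ?_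
        unfold pv
        ring
      rw [e, integral_finsetSum]
      · refine Finset.sum_congr rfl fun k _ => ?_
        rw [integral_const_mul, integral_add (jr (bre _)) (jr (bim _)), H.int_re _ hg _ (hR k) z,
          H.int_im _ hg _ (hI k) z]
      · intro k _
        exact ((jr (bre _)).add (jr (bim _))).const_mul _
    rw [hint]
    have key : ∀ k, (e2 z (vl ν x E) ((F.g y mf).TW (R k)) + eq2 z (Zr 2 ν x E) ((F.g y mf).QW (R k))).re
          + (e2 z (vl ν x E) ((F.g y mf).TW (I k)) + eq2 z (Zr 2 ν x E) ((F.g y mf).QW (I k))).im ≤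
        (e2 z (vl ν x E) (F.TC y mf) + eq2 z (Zr 2 ν x E) (smQ (-1) F.Q)).re
          + -2 * (L.v z * (vl ν x E 3 - ((a k : ℂ) + (b k : ℂ) * Complex.I))).re := by
      intro k
      have h' := h k z
      have hLe := Lm.eq (u := vl ν x E) L (a k) (b k) z u0
      rw [← hLe]
      have hB : ∀ ww : Wl, (F.g y mf).QW ww = F.k.QW ww := fun ww => QW_B (Fm.g_B F y mf) ww
      unfold Fm.VR Fm.VI Fm.QR Fm.QI at h'
      rw [e2_mrgT, e2_mrgT, e2_append, e2_append, e2_append, e2_smT, e2_smT, eq2_append, eq2_smQ, eq2_smQ, eq2_smQ]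
        at h'
      rw [hB, hB, eq2_smQ]
      have dn : ∀ w : ℂ, ((((-1 : ℚ)) : ℂ) * w).re = -w.re := fun w => by
        push_cast
        rw [neg_one_mul, Complex.neg_re]
      have di : ∀ w : ℂ, ((((-1 : ℚ)) : ℂ) * w).im = -w.im := fun w => by
        push_cast
        rw [neg_one_mul, Complex.neg_im]
      simp only [Complex.add_re, Complex.add_im, dn, di, TWh_re] at h' ⊢
      linarith
    have hs := Finset.sum_le_sum fun k (_ : k ∈ Finset.univ) => mul_le_mul_of_nonneg_left (key k) (hl k)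
    refine hs.trans (le_of_eq ?_)
    have e : ∀ k, lm k * ((e2 z (vl ν x E) (F.TC y mf) + eq2 z (Zr 2 ν x E) (smQ (-1) F.Q)).re
          + -2 * (L.v z * (vl ν x E 3 - ((a k : ℂ) + (b k : ℂ) * Complex.I))).re) =
        lm k * (e2 z (vl ν x E) (F.TC y mf) + eq2 z (Zr 2 ν x E) (smQ (-1) F.Q)).re
          + -2 * (lm k * (L.v z * (vl ν x E 3 - ((a k : ℂ) + (b k : ℂ) * Complex.I))).re) := fun k => by ring
    simp only [e]
    rw [Finset.sum_add_distrib, ← Finset.sum_mul, hl1, ← Finset.mul_sum, hL z]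
    ring

end fr

/-! ### eliminations -/

/-- the eliminations of the variables `i` with constants `κ` -/
def els : List (ℕ × ℚ) → Tf × Tf → Tf × Tf
  | [], P => P
  | p :: l, P => els l (mrgT (elR p.1 p.2 P.1 P.2), mrgT (elI p.1 p.2 P.1 P.2))

def elsok : List (ℕ × ℚ) → Tf × Tf → Bool
  | [], _ => true
  | p :: l, P => okT p.1 P.1 && (okT p.1 P.2 && (0 ≤ p.2 && (1 ≤ p.2 * lam p.1 P.1 &&
      elsok l (mrgT (elR p.1 p.2 P.1 P.2), mrgT (elI p.1 p.2 P.1 P.2)))))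

theorem els_le {u : ℤ → ℂ} (h0 : u 0 = 1) {l : List (ℕ × ℚ)} {P : Tf × Tf} (h : elsok l P = true) (z : ℕ → ℂ) :
    (e2 z u (els l P).1).re + (e2 z u (els l P).2).im ≤ (e2 z u P.1).re + (e2 z u P.2).im := by
  induction l generalizing P with
  | nil => exact le_rfl
  | cons p l ih =>
    unfold elsok at h
    simp only [Bool.and_eq_true, decide_eq_true_eq] at h
    obtain ⟨a1, a2, a3, a4, a5⟩ := h
    unfold els
    refine (ih a5).trans ?_
    simp only
    rw [e2_mrgT, e2_mrgT]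
    exact el_le h0 a1 a2 a3 a4

theorem els_nil (l : List (ℕ × ℚ)) (T : Tf) : (els l (T, [])).2 = [] := by
  induction l generalizing T with
  | nil => rfl
  | cons p l ih =>
    unfold els
    have : mrgT (elI p.1 p.2 T []) = [] := by
      unfold elI linI rsT mrgT
      simp [mrg, cln]
    simp only
    rw [this]
    exact ih _

/-! ### multipliers -/

/-- the part of first order -/
def fo (l : Lf) : Lf := l.filter fun t => !(decide (t.2.2 = 0) && decide (t.2.1 ≤ 1))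

/-- the first order part of the harmonic `c` -/
def Fm.x (F : Fm) (y : Yr) (c : ℤ) : Lf :=
  match F.C.find? fun p => p.1 = c with
  | some p => fo p.2
  | none => fc (gk F.k F.A (ys y)) c

/-- nearly optimal multipliers (`γ₀ = 1 / p₀`, `γ₁ = p₁ / (2 p₀²)`) -/
def Fm.mu (F : Fm) (y : Yr) (g0 g1 : ℚ) (c : ℤ) : Lf :=
  cm (smL g0 (F.x y c) ++ (smL g1 (F.x y (c + 2) ++ F.x y (c - 2)) ++ smL (-1) (fc (gk F.k F.A (ys y)) c)))

/-! ### the final theorems -/

section fin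

variable {ν : Measure Ω} {x : Ω → ℝ} {E : Ω → ℂ} (H : Fr ν x E)
include H

/-- **version 1**: weight `1 + m Re E² + t Re (conj r₃ E⁴)`, state independent majorant `p₀ - p₁ Re E²` -/
theorem Fm.main1 {F : Fm} {G : Prop} (hS : F.Sem ν x E G) (hF : F.par = true) {m t r a p0 p1 : ℚ}
    (hr : ‖vl ν x E 3‖ ≤ r) (hw : Wok m t r a p0 p1 = true) (mf : ℤ → Lf) {ks : List (ℕ × ℚ)}
    (hk : elsok ks (F.VR (yw m t) mf [(p0, 0), (-p1, 2)] [] 0, []) = true)
    (h : ∀ z : ℕ → ℂ, 0 ≤ (e2 z (vl ν x E) (els ks (F.VR (yw m t) mf [(p0, 0), (-p1, 2)] [] 0, [])).1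
      + eq2 z (Zr 2 ν x E) (F.QR [(p0, 0), (-p1, 2)])).re) : G := by
  have u0 : vl ν x E 0 = 1 := by simp [vl]
  have hR' : ‖vl ν x E (-3)‖ ≤ r := by rw [H.vl_neg 3, Complex.norm_conj]; exact hr
  unfold Wok at hw
  simp only [Bool.and_eq_true, decide_eq_true_eq] at hw
  obtain ⟨w1, w2, w3, w4, w5⟩ := hw
  have w1' : (a : ℝ) + |(t : ℝ)| * r ≤ 1 := by exact_mod_cast w1
  have w2' : |(m : ℝ)| < (a : ℝ) := by exact_mod_cast w2
  have w3' : (0 : ℝ) ≤ (p1 : ℝ) * m := by exact_mod_cast w3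
  have w4' : (1 : ℝ) ≤ ((p0 : ℝ) - p1) * (a + m) := by exact_mod_cast w4
  have w5' : (1 : ℝ) ≤ ((p0 : ℝ) + p1) * (a - m) := by exact_mod_cast w5
  have hm := abs_lt.1 w2'
  refine Fm.mainV H hS hF (yw_ok m t) mf (n := 1) (lm := fun _ => 1) (R := fun _ => [(p0, 0), (-p1, 2)])
    (I := fun _ => []) (L := []) (a := fun _ => 0) (b := fun _ => 0) (δ := (a : ℝ) - |(m : ℝ)|) (sub_pos.2 w2')
    (fun e he => ?_) (fun _ => zero_le_one) (by simp) (fun _ => by simp [Wl.ev]) (fun _ => by simp [Wl.ev])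
    (fun e he => ?_) (fun z => by simp [Lm.v]) fun k z => ?_
  · have := (yw_bd (m := m) (t := t) u0 hR' he).1
    have := (abs_le.1 this).1
    linarith
  · obtain ⟨_, y2, y3⟩ := yw_bd (m := m) (t := t) u0 hR' he
    have hpv : ∑ k : Fin 1, (1 : ℝ) * pv [(p0, 0), (-p1, 2)] [] e = p0 - p1 * (e ^ 2).re := by
      unfold pv
      rw [weA]
      simp [we]
    rw [hpv]
    have y2' := (abs_le.1 y2).1
    have y3' := abs_le.1 y3
    set c := (e ^ 2).re with hc
    have hl : (a : ℝ) + m * c ≤ 1 + yr (vl ν x E) (yw m t) e := by linarith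
    have hp0 : 0 ≤ (p0 : ℝ) - p1 * c := by
      have i1 : (0 : ℝ) < a + m := by linarith [hm.1]
      have i2 : (0 : ℝ) < a - m := by linarith [hm.2]
      have j1 : (0 : ℝ) ≤ (p0 : ℝ) - p1 := by
        by_contra hh
        have := mul_neg_of_neg_of_pos (not_le.1 hh) i1
        linarith
      have j2 : (0 : ℝ) ≤ (p0 : ℝ) + p1 := by
        by_contra hh
        have := mul_neg_of_neg_of_pos (not_le.1 hh) i2
        linarith
      have k1 := mul_nonneg j1 (by linarith [y3'.1] : (0 : ℝ) ≤ 1 + c)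
      have k2 := mul_nonneg j2 (by linarith [y3'.2] : (0 : ℝ) ≤ 1 - c)
      nlinarith
    have hm2 : ((p0 : ℝ) - p1 * c) * (a + m * c) ≥ 1 := by
      have k1 := mul_nonneg w3' (mul_nonneg (by linarith [y3'.1] : (0 : ℝ) ≤ 1 + c) (by linarith [y3'.2] : (0 : ℝ) ≤ 1 - c))
      have l1 := mul_nonneg (sub_nonneg.2 w4') (by linarith [y3'.1] : (0 : ℝ) ≤ 1 + c)
      have l2 := mul_nonneg (sub_nonneg.2 w5') (by linarith [y3'.2] : (0 : ℝ) ≤ 1 - c)
      nlinarith
    exact hm2.le.trans (mul_le_mul_of_nonneg_left hl hp0)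
  · have h' := h z
    have hv := els_le u0 hk z
    rw [els_nil, e2_nil] at hv
    have e1 : F.VI (yw m t) mf [] [] 0 = [] := rfl
    have e2' : F.QI [] = [] := rfl
    rw [e1, e2', e2_nil, eq2_nil]
    simp only [Complex.add_re, Complex.zero_im, add_zero] at h' hv ⊢
    linarith

/-- **version 2**: the same weight, majorant bilinear in `Re E²` and `t Re (conj r₃ E⁴)`, `r₃` in the convex hull of the
`ρ_k` -/
theorem Fm.main2 {F : Fm} {G : Prop} (hS : F.Sem ν x E G) (hF : F.par = true) {w : Wp} {r Y : ℚ}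
    (hr : ‖vl ν x E 3‖ ≤ r) (hw : Wok2 w r Y = true) (mf : ℤ → Lf)
    {n : ℕ} {ρ : Fin n → ℚ × ℚ} {lm : Fin n → ℝ} (hl : ∀ k, 0 ≤ lm k) (hl1 : ∑ k, lm k = 1)
    (hlx : ∑ k, lm k * ((ρ k).1 : ℝ) = (vl ν x E 3).re) (hly : ∑ k, lm k * ((ρ k).2 : ℝ) = (vl ν x E 3).im)
    {L : Lm} {ks : Fin n → List (ℕ × ℚ)}
    (hk : ∀ k, elsok (ks k) (F.VR (yw w.m w.t) mf ([(w.A0, 0), (-w.A1, 2)]
        ++ [(-w.t * (ρ k).1 * w.B0, 4), (w.t * (ρ k).1 * w.B1 / 2, 6), (w.t * (ρ k).1 * w.B1 / 2, 2)]) L (ρ k).1,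
      F.VI (yw w.m w.t) mf [(-w.t * (ρ k).2 * w.B0, 4), (w.t * (ρ k).2 * w.B1 / 2, 6), (w.t * (ρ k).2 * w.B1 / 2, 2)]
        L (ρ k).2) = true)
    (h : ∀ (k : Fin n) (z : ℕ → ℂ), 0 ≤ (e2 z (vl ν x E) (els (ks k) (F.VR (yw w.m w.t) mf ([(w.A0, 0), (-w.A1, 2)]
        ++ [(-w.t * (ρ k).1 * w.B0, 4), (w.t * (ρ k).1 * w.B1 / 2, 6), (w.t * (ρ k).1 * w.B1 / 2, 2)]) L (ρ k).1,
        F.VI (yw w.m w.t) mf [(-w.t * (ρ k).2 * w.B0, 4), (w.t * (ρ k).2 * w.B1 / 2, 6), (w.t * (ρ k).2 * w.B1 / 2, 2)]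
          L (ρ k).2)).1
        + eq2 z (Zr 2 ν x E) (F.QR ([(w.A0, 0), (-w.A1, 2)]
        ++ [(-w.t * (ρ k).1 * w.B0, 4), (w.t * (ρ k).1 * w.B1 / 2, 6), (w.t * (ρ k).1 * w.B1 / 2, 2)]))).re
      + (e2 z (vl ν x E) (els (ks k) (F.VR (yw w.m w.t) mf ([(w.A0, 0), (-w.A1, 2)]
        ++ [(-w.t * (ρ k).1 * w.B0, 4), (w.t * (ρ k).1 * w.B1 / 2, 6), (w.t * (ρ k).1 * w.B1 / 2, 2)]) L (ρ k).1,
        F.VI (yw w.m w.t) mf [(-w.t * (ρ k).2 * w.B0, 4), (w.t * (ρ k).2 * w.B1 / 2, 6), (w.t * (ρ k).2 * w.B1 / 2, 2)]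
          L (ρ k).2)).2
        + eq2 z (Zr 2 ν x E) (F.QI [(-w.t * (ρ k).2 * w.B0, 4), (w.t * (ρ k).2 * w.B1 / 2, 6),
          (w.t * (ρ k).2 * w.B1 / 2, 2)])).im) : G := by
  have u0 : vl ν x E 0 = 1 := by simp [vl]
  have hn3 : vl ν x E (-3) = conj (vl ν x E 3) := H.vl_neg 3
  have hR' : ‖vl ν x E (-3)‖ ≤ r := by rw [hn3, Complex.norm_conj]; exact hr
  unfold Wok2 at hw
  simp only [Bool.and_eq_true, decide_eq_true_eq] at hw
  obtain ⟨w1, w2, w3, w4, w5, w6, w7, w8, w9⟩ := hw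
  have w1' : |(w.t : ℝ)| * r ≤ Y := by exact_mod_cast w1
  have w2' : |(w.m : ℝ)| + (Y : ℝ) < 1 := by exact_mod_cast w2
  have w3' : |(w.B1 : ℝ)| ≤ (w.B0 : ℝ) := by exact_mod_cast w3
  have w4' : (0 : ℝ) ≤ ((w.A1 : ℝ) - w.B1 * Y) * w.m := by exact_mod_cast w4
  have w5' : (0 : ℝ) ≤ ((w.A1 : ℝ) + w.B1 * Y) * w.m := by exact_mod_cast w5
  have w6' : (1 : ℝ) ≤ ((w.A0 : ℝ) - w.A1 - (w.B0 - w.B1) * Y) * (1 + w.m + Y) := by exact_mod_cast w6
  have w7' : (1 : ℝ) ≤ ((w.A0 : ℝ) - w.A1 + (w.B0 - w.B1) * Y) * (1 + w.m - Y) := by exact_mod_cast w7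
  have w8' : (1 : ℝ) ≤ ((w.A0 : ℝ) + w.A1 - (w.B0 + w.B1) * Y) * (1 - w.m + Y) := by exact_mod_cast w8
  have w9' : (1 : ℝ) ≤ ((w.A0 : ℝ) + w.A1 + (w.B0 + w.B1) * Y) * (1 - w.m - Y) := by exact_mod_cast w9
  refine Fm.mainV H hS hF (yw_ok w.m w.t) mf (δ := 1 - |(w.m : ℝ)| - Y) (by linarith) (fun e he => ?_) hl hl1
    (R := fun k => [(w.A0, 0), (-w.A1, 2)]
        ++ [(-w.t * (ρ k).1 * w.B0, 4), (w.t * (ρ k).1 * w.B1 / 2, 6), (w.t * (ρ k).1 * w.B1 / 2, 2)])
    (I := fun k => [(-w.t * (ρ k).2 * w.B0, 4), (w.t * (ρ k).2 * w.B1 / 2, 6), (w.t * (ρ k).2 * w.B1 / 2, 2)])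
    (fun _ => by simp [Wl.ev]) (fun _ => by simp [Wl.ev]) (fun e he => ?_)
    (L := L) (a := fun k => (ρ k).1) (b := fun k => (ρ k).2) (fun z => ?_) fun k z => ?_
  · have := (yw_bd (m := w.m) (t := w.t) u0 hR' he).1
    have := (abs_le.1 this).1
    linarith
  · obtain ⟨_, _, y3⟩ := yw_bd (m := w.m) (t := w.t) u0 hR' he
    set r3 := vl ν x E 3 with hr3
    have hy : yr (vl ν x E) (yw w.m w.t) e = w.m * (e ^ 2).re + w.t * (conj r3 * e ^ 4).re := by
      simp [yr, yw, u0, hn3]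
    have ht : |(w.t : ℝ) * (conj r3 * e ^ 4).re| ≤ Y := by
      rw [abs_mul]
      refine (mul_le_mul_of_nonneg_left ((Complex.abs_re_le_norm _).trans ?_) (abs_nonneg _)).trans w1'
      rw [norm_mul, norm_pow, he, one_pow, mul_one, Complex.norm_conj]
      exact hr
    have hB := weB (B0 := w.B0) (B1 := w.B1) he
    have hwB : ∀ q : ℚ, we [(-w.t * q * w.B0, 4), (w.t * q * w.B1 / 2, 6), (w.t * q * w.B1 / 2, 2)] e =
        ((-(w.t : ℝ) * q : ℝ) : ℂ) * we (wB w.B0 w.B1) e := by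
      intro q
      simp only [wB, we, List.map_cons, List.map_nil, List.sum_cons, List.sum_nil]
      push_cast
      ring
    have hre4 : ∀ q : ℝ, (((q : ℝ) : ℂ) * e ^ 4).re = q * (e ^ 4).re := fun q => Complex.re_ofReal_mul _ _
    have him4 : ∀ q : ℝ, (((q : ℝ) : ℂ) * e ^ 4).im = q * (e ^ 4).im := fun q => Complex.im_ofReal_mul _ _
    have hpv : ∀ k, pv ([(w.A0, 0), (-w.A1, 2)]
        ++ [(-w.t * (ρ k).1 * w.B0, 4), (w.t * (ρ k).1 * w.B1 / 2, 6), (w.t * (ρ k).1 * w.B1 / 2, 2)])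
        [(-w.t * (ρ k).2 * w.B0, 4), (w.t * (ρ k).2 * w.B1 / 2, 6), (w.t * (ρ k).2 * w.B1 / 2, 2)] e =
        (w.A0 - w.A1 * (e ^ 2).re) - w.t * (w.B0 - w.B1 * (e ^ 2).re) * ((ρ k).1 * (e ^ 4).re + (ρ k).2 * (e ^ 4).im) := by
      intro k
      unfold pv
      rw [we_append, Complex.add_re, weA, hwB, hwB, hB, Complex.re_ofReal_mul, Complex.im_ofReal_mul, hre4, him4]
      ring
    have hsum : ∑ k, lm k * pv ([(w.A0, 0), (-w.A1, 2)]
        ++ [(-w.t * (ρ k).1 * w.B0, 4), (w.t * (ρ k).1 * w.B1 / 2, 6), (w.t * (ρ k).1 * w.B1 / 2, 2)])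
        [(-w.t * (ρ k).2 * w.B0, 4), (w.t * (ρ k).2 * w.B1 / 2, 6), (w.t * (ρ k).2 * w.B1 / 2, 2)] e =
        w.A0 - w.A1 * (e ^ 2).re - (w.B0 - w.B1 * (e ^ 2).re) * (w.t * (conj r3 * e ^ 4).re) := by
      have e' : ∀ k, lm k * ((w.A0 - w.A1 * (e ^ 2).re)
          - w.t * (w.B0 - w.B1 * (e ^ 2).re) * ((ρ k).1 * (e ^ 4).re + (ρ k).2 * (e ^ 4).im)) =
          lm k * (w.A0 - w.A1 * (e ^ 2).re) - (lm k * ((ρ k).1 : ℝ)) * (w.t * (w.B0 - w.B1 * (e ^ 2).re) * (e ^ 4).re)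
          - (lm k * ((ρ k).2 : ℝ)) * (w.t * (w.B0 - w.B1 * (e ^ 2).re) * (e ^ 4).im) := fun k => by ring
      simp only [hpv, e']
      rw [Finset.sum_sub_distrib, Finset.sum_sub_distrib, ← Finset.sum_mul, ← Finset.sum_mul, ← Finset.sum_mul,
        hl1, hlx, hly]
      simp only [Complex.mul_re, Complex.conj_re, Complex.conj_im]
      ring
    rw [hsum, hy]
    have := maj (m := (w.m : ℝ)) (A0 := (w.A0 : ℝ)) (A1 := (w.A1 : ℝ)) (B0 := (w.B0 : ℝ)) (B1 := (w.B1 : ℝ))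
      y3 ht w3' w4' w5' w6' w7' w8' w9'
    linarith
  · have e : ∀ k, lm k * (L.v z * (vl ν x E 3 - (((ρ k).1 : ℂ) + ((ρ k).2 : ℂ) * Complex.I))).re =
        lm k * (L.v z * vl ν x E 3).re - (lm k * ((ρ k).1 : ℝ)) * (L.v z).re + (lm k * ((ρ k).2 : ℝ)) * (L.v z).im := by
      intro k
      have r1 : ∀ q : ℚ, ((q : ℂ)).re = (q : ℝ) := fun q => Complex.ratCast_re q
      have r2 : ∀ q : ℚ, ((q : ℂ)).im = 0 := fun q => Complex.ratCast_im q
      simp only [Complex.mul_re, Complex.sub_re, Complex.sub_im, Complex.add_re, Complex.add_im, Complex.mul_im,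
        Complex.I_re, Complex.I_im, r1, r2]
      ring
    simp only [e]
    rw [Finset.sum_add_distrib, Finset.sum_sub_distrib, ← Finset.sum_mul, ← Finset.sum_mul, ← Finset.sum_mul,
      hl1, hlx, hly]
    simp only [Complex.mul_re]
    ring
  · have h' := h k z
    have hv := els_le u0 (hk k) z
    simp only [Complex.add_re, Complex.add_im] at h' hv ⊢
    linarith

/-- **version 3**: any majorants `p_k ≥ 1 / (1 + y_k)` at the vertices (convexity) -/
theorem Fm.main3 {F : Fm} {G : Prop} (hS : F.Sem ν x E G) (hF : F.par = true) {m t r : ℚ}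
    (hr : ‖vl ν x E 3‖ ≤ r) (hw : |m| + |t| * r < 1) (mf : ℤ → Lf)
    {n : ℕ} {ρ : Fin n → ℚ × ℚ} {lm : Fin n → ℝ} (hl : ∀ k, 0 ≤ lm k) (hl1 : ∑ k, lm k = 1)
    (hlx : ∑ k, lm k * ((ρ k).1 : ℝ) = (vl ν x E 3).re) (hly : ∑ k, lm k * ((ρ k).2 : ℝ) = (vl ν x E 3).im)
    {R I : Fin n → Wl} (hR : ∀ k, (R k).ev = true) (hI : ∀ k, (I k).ev = true)
    (hp : ∀ k, ∀ e : ℂ, ‖e‖ = 1 → 0 < 1 + (m * (e ^ 2).re + t * ((ρ k).1 * (e ^ 4).re + (ρ k).2 * (e ^ 4).im)) ∧
      1 ≤ pv (R k) (I k) e * (1 + (m * (e ^ 2).re + t * ((ρ k).1 * (e ^ 4).re + (ρ k).2 * (e ^ 4).im))))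
    {L : Lm} {ks : Fin n → List (ℕ × ℚ)}
    (hk : ∀ k, elsok (ks k) (F.VR (yw m t) mf (R k) L (ρ k).1, F.VI (yw m t) mf (I k) L (ρ k).2) = true)
    (h : ∀ (k : Fin n) (z : ℕ → ℂ), 0 ≤ (e2 z (vl ν x E) (els (ks k) (F.VR (yw m t) mf (R k) L (ρ k).1,
        F.VI (yw m t) mf (I k) L (ρ k).2)).1 + eq2 z (Zr 2 ν x E) (F.QR (R k))).re
      + (e2 z (vl ν x E) (els (ks k) (F.VR (yw m t) mf (R k) L (ρ k).1,
        F.VI (yw m t) mf (I k) L (ρ k).2)).2 + eq2 z (Zr 2 ν x E) (F.QI (I k))).im) : G := by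
  have u0 : vl ν x E 0 = 1 := by simp [vl]
  have hn3 : vl ν x E (-3) = conj (vl ν x E 3) := H.vl_neg 3
  have hR' : ‖vl ν x E (-3)‖ ≤ r := by rw [hn3, Complex.norm_conj]; exact hr
  have hw' : |(m : ℝ)| + |(t : ℝ)| * r < 1 := by exact_mod_cast hw
  refine Fm.mainV H hS hF (yw_ok m t) mf (δ := 1 - |(m : ℝ)| - |(t : ℝ)| * r) (by linarith)
    (fun e he => ?_) hl hl1 hR hI (fun e he => ?_)
    (L := L) (a := fun k => (ρ k).1) (b := fun k => (ρ k).2) (fun z => ?_) fun k z => ?_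
  · have := (yw_bd (m := m) (t := t) u0 hR' he).1
    have := (abs_le.1 this).1
    linarith
  · set r3 := vl ν x E 3 with hr3
    have hy : 1 + yr (vl ν x E) (yw m t) e =
        ∑ k, lm k * (1 + (m * (e ^ 2).re + t * ((ρ k).1 * (e ^ 4).re + (ρ k).2 * (e ^ 4).im))) := by
      have e' : ∀ k, lm k * (1 + (m * (e ^ 2).re + t * ((ρ k).1 * (e ^ 4).re + (ρ k).2 * (e ^ 4).im))) =
          lm k * (1 + m * (e ^ 2).re) + (lm k * ((ρ k).1 : ℝ)) * (t * (e ^ 4).re)
            + (lm k * ((ρ k).2 : ℝ)) * (t * (e ^ 4).im) := fun k => by ring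
      simp only [e']
      rw [Finset.sum_add_distrib, Finset.sum_add_distrib, ← Finset.sum_mul, ← Finset.sum_mul, ← Finset.sum_mul,
        hl1, hlx, hly]
      simp only [yr, yw, u0, hn3, List.map_cons, List.map_nil, List.sum_cons, List.sum_nil, one_mul, Complex.mul_re,
        Complex.conj_re, Complex.conj_im, Complex.one_re, Complex.one_im]
      ring
    rw [hy]
    set y' : Fin n → ℝ := fun k => 1 + (m * (e ^ 2).re + t * ((ρ k).1 * (e ^ 4).re + (ρ k).2 * (e ^ 4).im)) with hy'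
    have hp' := fun k => hp k e he
    -- Cauchy-Schwarz
    have c : (∑ k, lm k) ^ 2 ≤ (∑ k, lm k / y' k) * ∑ k, lm k * y' k := by
      have := Finset.sum_mul_sq_le_sq_mul_sq Finset.univ (fun k => Real.sqrt (lm k / y' k))
        (fun k => Real.sqrt (lm k * y' k))
      have e1 : ∀ k, Real.sqrt (lm k / y' k) * Real.sqrt (lm k * y' k) = lm k := fun k => by
        rw [← Real.sqrt_mul (div_nonneg (hl k) (hp' k).1.le)]
        have : lm k / y' k * (lm k * y' k) = lm k ^ 2 := by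
          have hne : y' k ≠ 0 := (hp' k).1.ne'
          field_simp
        rw [this, Real.sqrt_sq (hl k)]
      have e2 : ∀ k, Real.sqrt (lm k / y' k) ^ 2 = lm k / y' k := fun k =>
        Real.sq_sqrt (div_nonneg (hl k) (hp' k).1.le)
      have e3 : ∀ k, Real.sqrt (lm k * y' k) ^ 2 = lm k * y' k := fun k =>
        Real.sq_sqrt (mul_nonneg (hl k) (hp' k).1.le)
      simpa only [e1, e2, e3] using this
    rw [hl1, one_pow] at c
    have hpos : 0 ≤ ∑ k, lm k * y' k := Finset.sum_nonneg fun k _ => mul_nonneg (hl k) (hp' k).1.le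
    have hle : ∑ k, lm k / y' k ≤ ∑ k, lm k * pv (R k) (I k) e := by
      refine Finset.sum_le_sum fun k _ => ?_
      rw [div_eq_mul_inv]
      refine mul_le_mul_of_nonneg_left ?_ (hl k)
      rw [inv_le_iff_one_le_mul₀ (hp' k).1]
      exact (hp' k).2
    exact c.trans (mul_le_mul_of_nonneg_right hle hpos)
  · have e : ∀ k, lm k * (L.v z * (vl ν x E 3 - (((ρ k).1 : ℂ) + ((ρ k).2 : ℂ) * Complex.I))).re =
        lm k * (L.v z * vl ν x E 3).re - (lm k * ((ρ k).1 : ℝ)) * (L.v z).re + (lm k * ((ρ k).2 : ℝ)) * (L.v z).im := by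
      intro k
      have r1 : ∀ q : ℚ, ((q : ℂ)).re = (q : ℝ) := fun q => Complex.ratCast_re q
      have r2 : ∀ q : ℚ, ((q : ℂ)).im = 0 := fun q => Complex.ratCast_im q
      simp only [Complex.mul_re, Complex.sub_re, Complex.sub_im, Complex.add_re, Complex.add_im, Complex.mul_im,
        Complex.I_re, Complex.I_im, r1, r2]
      ring
    simp only [e]
    rw [Finset.sum_add_distrib, Finset.sum_sub_distrib, ← Finset.sum_mul, ← Finset.sum_mul, ← Finset.sum_mul,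
      hl1, hlx, hly]
    simp only [Complex.mul_re]
    ring
  · have h' := h k z
    have hv := els_le u0 (hk k) z
    simp only [Complex.add_re, Complex.add_im] at h' hv ⊢
    linarith

end fin

end Pool.Agent.FPX.BRG
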