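import Mathlib
import Pool.Agent.FPX.BWA
import Pool.Agent.FPX.BR8

/-
BWB (helper84): the class `C9` as an instance of BWA.
-/

open MeasureTheory Set Filter Topology Complex
open scoped ENNReal NNReal ContDiff ComplexConjugate

noncomputable section

namespace Pool.Agent.FPX.BRG

open Pool.Agent.FPX.CRD (Bm)
open Pool.Agent.FPX.ALX (St)
open Pool.Agent.FPX.BTN (va e1)
open Pool.Agent.FPX.BTG (mo)
open Pool.Agent.FPX.BTI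

variable {Ω : Type*} [MeasurableSpace Ω]

/-- the form of the class `C9` -/
def F9 (v : Fin 21 → ℚ) (im t1 t3 : ℚ) (d : Dv) : Fm := ⟨tq9 v im t1 t3 d, qq9 v d, c9, kr9 v d, A9 v⟩

theorem F9_par (v : Fin 21 → ℚ) (im t1 t3 : ℚ) (d : Dv) : (F9 v im t1 t3 d).par = true := by
  simp [F9, Fm.par, Kr.par, kr9, A9, A0l.par, c9]

theorem sem9 {Q : Type} [Fintype Q] {Ψ : Psi9 Q} {ν : Measure Ω} {x : Ω → ℝ} {E : Ω → ℂ} (H : Fr ν x E)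
    {v : Fin 21 → ℚ} {u : Q → ℝ} {μ im : ℚ} (hμ : 0 < μ) (him : im * (2 * μ) ≤ 1)
    {d : Dv} {τ : ℂ} (hd : ∀ A B z N M S R G : ℂ, dev9 Ψ u (mo (C9 Ψ) ν x E) A B N M S R G =
      d.val (zz A B z N M) (vl ν x E) (Zr 2 ν x E) S R G + τ * conj A)
    {t1 t3 : ℚ} (ht1 : 0 ≤ t1) (ht3 : 0 ≤ t3) (hτ : ‖τ‖ ^ 2 ≤ t1 * t3) :
    (F9 v im t1 t3 d).Sem ν x E (BTG.RW (C9 Ψ) ν x E (fun i => ((v i : ℚ) : ℝ)) u μ 1) := by
  intro q hq hp hT mf h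
  exact RW9_of_q (m1 := mf 1) (m2 := mf (-1)) (m3 := mf 3) (m4 := mf (-3)) H hμ him hd ht1 ht3 hτ hq hp hT h

end Pool.Agent.FPX.BRG
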