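import Mathlib
import Pool.Agent.FPX.BWA
import Pool.Agent.FPX.BU3

/-
BWC (helper84): the class `CH` (forms of OM7, OMG, OMH, test function `E⁵`, deviations with the parts of `∇C₅`) as an
instance of BWA; components `z₀ = A`, `z₁ = conj B`, `z₂` dual variable of the deviation, `z₃ = N`, `z₄ = conj M`,
`z₅ = N₅`, `z₆ = conj M₅`.
-/

open MeasureTheory Set Filter Topology Complex
open scoped ENNReal NNReal ContDiff ComplexConjugate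

noncomputable section

namespace Pool.Agent.FPX.BRG

open Pool.Agent.FPX.CRD (Bm)
open Pool.Agent.FPX.ALX (St)
open Pool.Agent.FPX.BTN (va e1)
open Pool.Agent.FPX.BTG (mo Cls)
open Pool.Agent.FPX.BU

variable {Ω : Type*} [MeasurableSpace Ω]

/-! ### the explicit condition -/

/-- the combination of the functions of the certificate -/
def hH (v : V26) (m : M9) (A B α β γ δ κ l ρ ρ' γ' δ' : ℂ) (e : ℂ) (x : ℝ) : ℂ :=
  α * e + β * conj e + γ * e ^ 3 + δ * conj (e ^ 3) + κ * ((x : ℂ) * e ^ 2) + l * conj ((x : ℂ) * e ^ 2)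
    + (ρ + ρ') * (x : ℂ) + γ' * e ^ 5 + δ' * conj (e ^ 5) + A * keH v m e x - conj B * conj (keH v m e x)

section

variable {Q : Type} [Fintype Q] (Ψ : PsiH Q)

/-- the terms without `K` -/
def rstH (v : V26) (u : Q → ℝ) (μ : ℝ) (m : M9) (A B N M S R G G' P O α β γ δ κ l ρ ρ' γ' δ' : ℂ) : ℝ :=
  omH v m * (‖A‖ ^ 2 - ‖B‖ ^ 2) + bbH v m A B N M + b5H v m A B P O + v 14 * (2 * ‖B‖ ^ 2)
    + 2 * μ * ‖devH Ψ u m A B N M S R G P O‖ ^ 2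
    - 2 * (conj α * conj (B - 3 / 2 * m 0 * conj A) + conj β * (A - 3 / 2 * m 0 * conj B)
      + conj γ * conj (M - 5 / 2 * conj A * m 1 + 3 / 2 * (B - conj A) * m 0)
      + conj δ * (N - 5 / 2 * conj B * m 1 + 3 / 2 * (A - conj B) * m 0)
      + conj κ * conj (R - conj A * (m 5 - m 0) + 1 / 2 * (B - conj A) * m 4)
      + conj l * (S - conj B * (m 5 - m 0) + 1 / 2 * (A - conj B) * m 4)
      + conj ρ * conj G + conj ρ' * G'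
      + conj γ' * conj (O - 7 / 2 * conj A * m 2 + 3 / 2 * B * m 0 + 5 / 2 * (B - conj A) * m 1)
      + conj δ' * (P - 7 / 2 * conj B * m 2 + 3 / 2 * A * m 0 + 5 / 2 * (A - conj B) * m 1)).re

theorem RWH {X : Type*} [MeasurableSpace X] {ν : Measure X} {D : X → ℝ} {E : X → ℂ} {v : V26} {u : Q → ℝ}
    {μ T : ℝ} {q : ℂ → ℝ → ℝ} (hq : Continuous (fun p : ℂ × ℝ => q p.1 p.2))
    (hp : ∀ e x, ‖e‖ = 1 → |x| ≤ 1 → 0 < q e x) (hT : ∫ t, 1 / q (E t) (D t) ∂ν ≤ T)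
    (H : ∀ A B N M S R G G' P O : ℂ, ∃ α β γ δ κ l ρ ρ' γ' δ' : ℂ,
      rstH Ψ v u μ (mo (CH Ψ) ν D E) A B N M S R G G' P O α β γ δ κ l ρ ρ' γ' δ'
        + ∫ t, ‖hH v (mo (CH Ψ) ν D E) A B α β γ δ κ l ρ ρ' γ' δ' (E t) (D t)‖ ^ 2 * q (E t) (D t) ∂ν ≤ 0) :
    BTG.RW (CH Ψ) ν D E v u μ T := by
  refine ⟨q, hq, hp, hT, fun A B a b => ?_⟩
  set m := mo (CH Ψ) ν D E with hm
  obtain ⟨α, β, γ, δ, κ, l, ρ, ρ', γ', δ', h⟩ := H A B (n9 m A B (b 0)) (m9 m A B (a 0)) (s9 m A B (b 1))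
    (BU.r9 m A B (a 1)) (a 2) (b 2) (n5 m A B (b 3)) (m5 m A B (a 3))
  refine ⟨α, β, ![γ, κ, ρ, γ'], ![δ, l, ρ', δ'], ?_⟩
  have e1 : ∀ t, BTG.hh (CH Ψ) v m A B α β ![γ, κ, ρ, γ'] ![δ, l, ρ', δ'] (E t) (D t) =
      hH v m A B α β γ δ κ l ρ ρ' γ' δ' (E t) (D t) := by
    intro t
    unfold BTG.hh hH
    rw [kerH, Fin.sum_univ_four]
    simp only [CH, ρH, Matrix.cons_val_zero, Matrix.cons_val_one, Matrix.cons_val, Complex.conj_ofReal]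
    ring
  have e2 : BTG.rst (CH Ψ) v u μ m A B a b α β ![γ, κ, ρ, γ'] ![δ, l, ρ', δ'] =
      rstH Ψ v u μ m A B (n9 m A B (b 0)) (m9 m A B (a 0)) (s9 m A B (b 1))
        (BU.r9 m A B (a 1)) (a 2) (b 2) (n5 m A B (b 3)) (m5 m A B (a 3)) α β γ δ κ l ρ ρ' γ' δ' := by
    unfold BTG.rst rstH
    rw [thtH, Fin.sum_univ_four]
    have i1 : (n9 m A B (b 0)) - 5 / 2 * conj B * m 1 + 3 / 2 * (A - conj B) * m 0 = b 0 := by
      unfold n9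
      ring
    have i2 : (m9 m A B (a 0)) - 5 / 2 * conj A * m 1 + 3 / 2 * (B - conj A) * m 0 = a 0 := by
      unfold m9
      ring
    have i3 : (BU.r9 m A B (a 1)) - conj A * (m 5 - m 0) + 1 / 2 * (B - conj A) * m 4 = a 1 := by
      unfold BU.r9
      ring
    have i4 : (s9 m A B (b 1)) - conj B * (m 5 - m 0) + 1 / 2 * (A - conj B) * m 4 = b 1 := by
      unfold s9
      ring
    have i5 : (m5 m A B (a 3)) - 7 / 2 * conj A * m 2 + 3 / 2 * B * m 0 + 5 / 2 * (B - conj A) * m 1 = a 3 := by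
      unfold BU.m5
      ring
    have i6 : (n5 m A B (b 3)) - 7 / 2 * conj B * m 2 + 3 / 2 * A * m 0 + 5 / 2 * (A - conj B) * m 1 = b 3 := by
      unfold BU.n5
      ring
    rw [i1, i2, i3, i4, i5, i6]
    have e3 : BTG.dev (CH Ψ) u m A B a b = devH Ψ u m A B (n9 m A B (b 0)) (m9 m A B (a 0)) (s9 m A B (b 1))
        (BU.r9 m A B (a 1)) (a 2) (n5 m A B (b 3)) (m5 m A B (a 3)) := rfl
    rw [e3]
    simp only [CH, Matrix.cons_val_zero, Matrix.cons_val_one, Matrix.cons_val]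
    congr 2
    congr 1
    ring
  simp only [e1, e2]
  exact h

end

/-! ### the lists -/

/-- the terms without `K` -/
def tqH (v : Fin 26 → ℚ) (im t1 t3 : ℚ) (d : Dv) : Tf :=
  [(t1, [(1, 0, 0)], [(1, 0, 0)]), (t3, [(1, 2, 0)], [(1, 2, 0)]), (v 0, [(1, 0, 0)], [(1, 0, 0)]), (-v 0, [(1, 1, 0)], [(1, 1, 0)]),
   (-2 * v 3 + v 4 - 3 * v 17, [(1, 0, 3)], [(1, 0, 0)]), (-(-2 * v 3 + v 4 - 3 * v 17), [(1, 1, 3)], [(1, 1, 0)]),
   (5 * v 5 + v 20, [(1, 0, 5)], [(1, 0, 0)]), (-(5 * v 5 + v 20), [(1, 1, 5)], [(1, 1, 0)]),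
   (7 * v 18, [(1, 0, 7)], [(1, 0, 0)]), (-(7 * v 18), [(1, 1, 7)], [(1, 1, 0)]),
   (v 6 - 3 * v 15 - v 12, [(1, 0, 3)], [(1, 0, 3)]), (-(v 6 - 3 * v 15 - v 12), [(1, 1, 3)], [(1, 1, 3)]),
   (5 / 2 * v 7 + v 19 - 3 / 2 * v 21, [(1, 0, 5)], [(1, 0, 3)]), (-(5 / 2 * v 7 + v 19 - 3 / 2 * v 21), [(1, 1, 5)], [(1, 1, 3)]),
   (5 * v 15 + v 22 - v 24, [(1, 0, 5)], [(1, 0, 5)]), (-(5 * v 15 + v 22 - v 24), [(1, 1, 5)], [(1, 1, 5)]),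
   (7 * v 16, [(1, 0, 7)], [(1, 0, 3)]), (-(7 * v 16), [(1, 1, 7)], [(1, 1, 3)]),
   (7 / 2 * v 21, [(1, 0, 7)], [(1, 0, 5)]), (-(7 / 2 * v 21), [(1, 1, 7)], [(1, 1, 5)]),
   (2 * v 11, [(1, 3, 0)], [(1, 3, 0)]), (-2 * v 11, [(1, 4, 0)], [(1, 4, 0)]),
   (v 13, [(1, 0, 3), (1, 1, 3)], [(1, 3, 0)]), (-v 13, [(1, 0, -3), (1, 1, -3)], [(1, 4, 0)]),
   (2 * v 23, [(1, 5, 0)], [(1, 5, 0)]), (-2 * v 23, [(1, 6, 0)], [(1, 6, 0)]),
   (v 25, [(1, 0, 5), (1, 1, 5)], [(1, 5, 0)]), (-v 25, [(1, 0, -5), (1, 1, -5)], [(1, 6, 0)]),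
   (2 * v 14, [(1, 1, 0)], [(1, 1, 0)]),
   (-im, [(1, 2, 0)], [(1, 2, 0)]),
   (-2 * d.r, [(1, 2, 3)], [(1, 0, 0)]), (-2 * d.s, [(1, 2, -3)], [(1, 1, 0)])]
  ++ d.D.map fun t => (2 * t.1, [(1, 2, t.2.1)], [(1, t.2.2.1, t.2.2.2)])

/-- the terms with `x²` -/
def qqH (v : Fin 26 → ℚ) (d : Dv) : Qf :=
  [(v 1, 0, 0, 2), (-v 1, 1, 1, 2), (v 2, 0, 0, 0), (-v 2, 1, 1, 0), (2 * v 3, 0, 0, 4), (-2 * v 3, 1, 1, 4),
   (2 * d.r, 2, 0, 4), (d.r, 2, 0, 2), (-d.r, 2, 1, 2),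
   (2 * d.s, 2, 1, -4), (-d.s, 2, 0, -2), (d.s, 2, 1, -2)]
  ++ d.Q.map fun t => (2 * t.1, 2, t.2.1, t.2.2)

/-- the kernel -/
def krH (v : Fin 26 → ℚ) (d : Dv) : Kr where
  A := [(3, [(v 5, 0, 0), (v 7 / 2, 0, -3), (v 15, 0, -5), (-v 10, 1, 0), (-v 7 / 2, 1, -3), (-v 16, 1, -5)]),
    (-3, [(v 10, 0, 0), (v 7 / 2, 0, 3), (v 16, 0, 5), (-v 5, 1, 0), (-v 7 / 2, 1, 3), (-v 15, 1, 5)]),
    (5, [(v 18, 0, 0), (v 16, 0, -3), (v 21 / 2, 0, -5), (-v 17, 1, 0), (-v 15, 1, -3), (-v 21 / 2, 1, -5)]),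
    (-5, [(v 17, 0, 0), (v 15, 0, 3), (v 21 / 2, 0, 5), (-v 18, 1, 0), (-v 16, 1, 3), (-v 21 / 2, 1, 5)])]
  B := [(-2, [(v 8, 0), (-v 3, 1), (d.s, 2)]), (0, [(v 9, 0), (-v 9, 1), (d.g, 2)]), (2, [(v 3, 0), (-v 8, 1), (d.r, 2)])]

/-- the constraints -/
def cH' : List (ℤ × Lf) :=
  [(1, [(1, 1, 0), (-3 / 2, 0, -3)]), (-1, [(1, 0, 0), (-3 / 2, 1, 3)]),
   (3, [(1, 4, 0), (-5 / 2, 0, -5), (3 / 2, 1, -3), (-3 / 2, 0, -3)]),
   (-3, [(1, 3, 0), (-5 / 2, 1, 5), (3 / 2, 0, 3), (-3 / 2, 1, 3)]),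
   (5, [(1, 6, 0), (-7 / 2, 0, -7), (3 / 2, 1, -3), (5 / 2, 1, -5), (-5 / 2, 0, -5)]),
   (-5, [(1, 5, 0), (-7 / 2, 1, 7), (3 / 2, 0, 3), (5 / 2, 0, 5), (-5 / 2, 1, 5)])]

/-- the form of the class `CH` -/
def FH (v : Fin 26 → ℚ) (im t1 t3 : ℚ) (d : Dv) : Fm :=
  ⟨tqH v im t1 t3 d, qqH v d, cH', krH v d, [(-1, [(1, 0)]), (1, [(1, 1)])]⟩

theorem FH_par (v : Fin 26 → ℚ) (im t1 t3 : ℚ) (d : Dv) : (FH v im t1 t3 d).par = true := by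
  simp [FH, Fm.par, Kr.par, krH, A0l.par, cH']

/-- the variables -/
def zH (A B z N M P O : ℂ) : ℕ → ℂ
  | 0 => A
  | 1 => conj B
  | 2 => z
  | 3 => N
  | 4 => conj M
  | 5 => P
  | 6 => conj O
  | _ => 0

/-- **the meaning of the form** -/
theorem semH {Q : Type} [Fintype Q] {Ψ : PsiH Q} {ν : Measure Ω} {x : Ω → ℝ} {E : Ω → ℂ} (H : Fr ν x E)
    {v : Fin 26 → ℚ} {u : Q → ℝ} {μ im : ℚ} (hμ : 0 < μ) (him : im * (2 * μ) ≤ 1)
    {d : Dv} {τ : ℂ} (hd : ∀ A B z N M S R G P O : ℂ, devH Ψ u (mo (CH Ψ) ν x E) A B N M S R G P O =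
      d.val (zH A B z N M P O) (vl ν x E) (Zr 2 ν x E) S R G + τ * conj A)
    {t1 t3 : ℚ} (ht1 : 0 ≤ t1) (ht3 : 0 ≤ t3) (hτ : ‖τ‖ ^ 2 ≤ t1 * t3) :
    (FH v im t1 t3 d).Sem ν x E (BTG.RW (CH Ψ) ν x E (fun i => ((v i : ℚ) : ℝ)) u μ 1) := by
  intro q hq hp hT mf h
  refine RWH Ψ hq hp hT fun A B N M S R G G' P O => ?_
  set m := mo (CH Ψ) ν x E with hm
  set dv := devH Ψ u m A B N M S R G P O with hdv
  set z3 : ℂ := 2 * μ * conj dv with hz3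
  set zv := zH A B z3 N M P O with hzv
  have F := h zv
  set U := vl ν x E with hU
  set Z := Zr 2 ν x E with hZ
  have u0 : U 0 = 1 := by rw [hU]; simp [vl]
  have n3 : U (-3) = conj (U 3) := H.vl_neg 3
  have n5 : U (-5) = conj (U 5) := H.vl_neg 5
  have n7 : U (-7) = conj (U 7) := H.vl_neg 7
  have y2 : Z (-2) = conj (Z 2) := H.zc 2 2
  have y4 : Z (-4) = conj (Z 4) := H.zc 2 4
  have e0 : m 0 = U 3 := (mo_vl (n := 3) (by norm_num)).symm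
  have e1 : m 1 = U 5 := (mo_vl (n := 5) (by norm_num)).symm
  have e2' : m 2 = U 7 := (mo_vl (n := 7) (by norm_num)).symm
  have mz : ∀ n : ℕ, Z (n : ℤ) = ∫ t, (x t : ℂ) ^ 2 * E t ^ n ∂ν := fun n => by
    rw [hZ]
    unfold Zr
    simp
  have e3 : m 3 = Z 0 := by
    have := mz 0
    simp only [Nat.cast_zero, pow_zero, mul_one] at this
    rw [this]
    rfl
  have e4 : m 4 = Z 2 := (mz 2).symm
  have e5 : m 5 = Z 4 := (mz 4).symm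
  -- the kernel
  have hker : ∀ t, (((FH v im t1 t3 d).cl mf).kr (FH v im t1 t3 d).k).f zv U (E t) (x t) =
      hH (fun i => ((v i : ℚ) : ℝ)) m A B (BRG.ev zv U (mf 1)) (BRG.ev zv U (mf (-1))) (BRG.ev zv U (mf 3))
        (BRG.ev zv U (mf (-3))) (d.r * z3) (d.s * z3) (d.g * z3) 0 (BRG.ev zv U (mf 5)) (BRG.ev zv U (mf (-5)))
        (E t) (x t) := by
    intro t
    rw [Cl.f_eq]
    have hn := H.ne t
    have p1 : E t ^ (-1 : ℤ) = conj (E t) := by rw [zpow_neg_one, H.cinv]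
    have p3 : E t ^ (-3 : ℤ) = conj (E t) ^ 3 := by rw [zpow_neg, H.cinv, inv_pow]; norm_cast
    have p5 : E t ^ (-5 : ℤ) = conj (E t) ^ 5 := by rw [zpow_neg, H.cinv, inv_pow]; norm_cast
    have p2 : E t ^ (-2 : ℤ) = conj (E t) ^ 2 := by rw [zpow_neg, H.cinv, inv_pow]; norm_cast
    have q3 : E t ^ (3 : ℤ) = E t ^ 3 := by norm_cast
    have q5 : E t ^ (5 : ℤ) = E t ^ 5 := by norm_cast
    have q2 : E t ^ (2 : ℤ) = E t ^ 2 := by norm_cast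
    have hre : ∀ w : ℂ, ((w.re : ℝ) : ℂ) = (w + conj w) / 2 := fun w => by
      rw [Complex.add_conj]
      push_cast
      ring
    unfold hH keH
    rw [e0, e1, hre, hre]
    simp only [Kr.f, Kr.pA, Kr.pB, Fm.cl, FH, cH', krH, pe, BRG.ev, bev, List.map_cons, List.map_nil, List.sum_cons,
      List.sum_nil, p1, p2, p3, p5, q2, q3, q5, zpow_zero, zpow_one, n3, n5, u0, hzv, zH, map_add, map_mul, map_pow,
      Complex.conj_ofReal, Complex.conj_conj, map_div₀, Complex.conj_ofNat]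
    push_cast
    ring
  simp only [hker] at F
  refine ⟨BRG.ev zv U (mf 1), BRG.ev zv U (mf (-1)), BRG.ev zv U (mf 3), BRG.ev zv U (mf (-3)), d.r * z3, d.s * z3,
    d.g * z3, 0, BRG.ev zv U (mf 5), BRG.ev zv U (mf (-5)), ?_⟩
  -- the deviation
  have hμ' : (0 : ℝ) < (μ : ℝ) := by exact_mod_cast hμ
  have hdv' := hd A B z3 N M S R G P O
  rw [← hdv, ← hzv] at hdv'
  unfold Dv.val at hdv'
  have key : 2 * (μ : ℝ) * ‖dv‖ ^ 2 ≤ 2 * (z3 * dv).re - (im : ℝ) * ‖z3‖ ^ 2 := by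
    have h1 : (z3 * dv).re = 2 * (μ : ℝ) * ‖dv‖ ^ 2 := by
      have : z3 * dv = ((2 * (μ : ℝ) * ‖dv‖ ^ 2 : ℝ) : ℂ) := by
        rw [hz3, mul_assoc, mul_comm (conj dv), Complex.mul_conj, Complex.normSq_eq_norm_sq]
        push_cast
        ring
      rw [this, Complex.ofReal_re]
    have h2 : ‖z3‖ ^ 2 = 4 * (μ : ℝ) ^ 2 * ‖dv‖ ^ 2 := by
      rw [hz3, norm_mul, norm_mul, Complex.norm_conj]
      have a1 : ‖(2 : ℂ)‖ = 2 := by norm_num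
      have a2 : ‖((μ : ℚ) : ℂ)‖ = (μ : ℝ) := by
        rw [show ((μ : ℚ) : ℂ) = (((μ : ℚ) : ℝ) : ℂ) by push_cast; rfl, Complex.norm_real, Real.norm_eq_abs,
          abs_of_pos hμ']
      rw [a1, a2]
      ring
    rw [h1, h2]
    have h3 : (im : ℝ) * (2 * μ) ≤ 1 := by exact_mod_cast him
    have h4 : 0 ≤ 2 * (μ : ℝ) * ‖dv‖ ^ 2 := by positivity
    nlinarith
  set DD : ℂ := (d.D.map fun t => (t.1 : ℂ) * (U t.2.1 * conj (zv t.2.2.1 * U t.2.2.2))).sum with hDD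
  set QS : ℂ := (d.Q.map fun t => (t.1 : ℂ) * (conj (zv t.2.1) * Z t.2.2)).sum with hQS
  have ET := e2_D d.D zv U
  have EQ := eq2_Q d.Q zv Z
  rw [← hDD] at ET
  rw [← hQS] at EQ
  have z2 : zv 2 = z3 := rfl
  rw [z2] at ET EQ
  rw [hdv'] at key
  have hττ : 2 * (z3 * (τ * conj A)).re ≤ (t1 : ℝ) * ‖A‖ ^ 2 + (t3 : ℝ) * ‖z3‖ ^ 2 := by
    have h1 : (z3 * (τ * conj A)).re ≤ ‖z3‖ * (‖τ‖ * ‖A‖) := by
      refine (Complex.re_le_norm _).trans ?_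
      rw [norm_mul z3, norm_mul τ, Complex.norm_conj]
    have b1 : (0 : ℝ) ≤ (t1 : ℝ) := by exact_mod_cast ht1
    have b3 : (0 : ℝ) ≤ (t3 : ℝ) := by exact_mod_cast ht3
    have h2 : ‖τ‖ ≤ Real.sqrt t1 * Real.sqrt t3 := by
      rw [← Real.sqrt_mul b1]
      exact Real.le_sqrt_of_sq_le hτ
    have h3 : ‖z3‖ * (‖τ‖ * ‖A‖) ≤ ‖z3‖ * (Real.sqrt t1 * Real.sqrt t3 * ‖A‖) := by gcongr
    have h4 := Real.sq_sqrt b1
    have h5 := Real.sq_sqrt b3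
    nlinarith [sq_nonneg (Real.sqrt t1 * ‖A‖ - Real.sqrt t3 * ‖z3‖)]
  refine le_trans ?_ F
  refine add_le_add ?_ le_rfl
  unfold rstH
  rw [← hdv, hdv']
  rw [sq_re A, sq_re z3] at hττ
  have fT : (FH v im t1 t3 d).T = tqH v im t1 t3 d := rfl
  have fQ : (FH v im t1 t3 d).Q = qqH v d := rfl
  rw [fT, fQ]
  unfold tqH qqH
  rw [e2_append, eq2_append, ET, EQ]
  clear_value z3
  simp only [Fm.cl, FH, cH', List.map_cons, List.map_nil, List.sum_cons, List.sum_nil, e2_cons, e2_nil, eq2_cons,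
    eq2_nil, ev_cons, ev_nil, hzv, zH, n3, n5, n7, y2, y4, u0, e0, e1, e2', e3, e4, e5, omH, bbH, b5H]
  clear_value DD QS
  generalize BRG.ev (zH A B z3 N M P O) U (mf 1) = a1
  generalize BRG.ev (zH A B z3 N M P O) U (mf (-1)) = a2
  generalize BRG.ev (zH A B z3 N M P O) U (mf 3) = a3
  generalize BRG.ev (zH A B z3 N M P O) U (mf (-3)) = a4
  generalize BRG.ev (zH A B z3 N M P O) U (mf 5) = a5
  generalize BRG.ev (zH A B z3 N M P O) U (mf (-5)) = a6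
  have cr : ∀ q : ℚ, ((q : ℂ)).re = (q : ℝ) := fun q => Complex.ratCast_re q
  have ci : ∀ q : ℚ, ((q : ℂ)).im = 0 := fun q => Complex.ratCast_im q
  generalize hT : (z3 * (τ * conj A)).re = tt at hττ
  have key' : 2 * (μ : ℝ) * ‖DD + QS + (d.r : ℂ) * R + (d.s : ℂ) * conj S + (d.g : ℂ) * G + τ * conj A‖ ^ 2 ≤
      2 * tt + 2 * ((z3.re * DD.re - z3.im * DD.im) + (z3.re * QS.re - z3.im * QS.im)
        + (d.r : ℝ) * (z3.re * R.re - z3.im * R.im) + (d.s : ℝ) * (z3.re * S.re + z3.im * S.im)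
        + (d.g : ℝ) * (z3.re * G.re - z3.im * G.im)) - (im : ℝ) * (z3.re * z3.re + z3.im * z3.im) := by
    refine key.trans (le_of_eq ?_)
    rw [sq_re z3, mul_add, Complex.add_re, hT]
    simp only [Complex.add_re, Complex.mul_re, Complex.add_im, Complex.mul_im, Complex.conj_re, Complex.conj_im,
      cr, ci]
    ring
  generalize ‖DD + QS + (d.r : ℂ) * R + (d.s : ℂ) * conj S + (d.g : ℂ) * G + τ * conj A‖ ^ 2 = dn at key' ⊢
  have Z0 : (Z 0).im = 0 := by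
    have h := H.zc 2 0
    rw [neg_zero] at h
    have := congrArg Complex.im h
    rw [Complex.conj_im] at this
    rw [hZ]
    linarith
  simp only [sq_re, Complex.add_re, Complex.mul_re, Complex.add_im, Complex.mul_im, Complex.conj_re, Complex.conj_im,
    Complex.sub_re, Complex.sub_im, cr, ci, Z0, map_mul, map_add, map_sub, map_zero, Complex.div_ofNat_re,
    Complex.div_ofNat_im, Complex.one_re, Complex.one_im, Complex.zero_re, Complex.zero_im, Complex.re_ofNat,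
    Complex.im_ofNat, Complex.conj_conj, Rat.cast_neg, Rat.cast_mul, Rat.cast_add, Rat.cast_sub, Rat.cast_div,
    Rat.cast_ofNat, Rat.cast_one, Complex.neg_re, Complex.neg_im]
  linarith

end Pool.Agent.FPX.BRG
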