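import Mathlib
import Pool.Agent.FPX.BWB
import Pool.Agent.FPX.BWC

/-
BWD (helper84): the deviation of `xi12` in the format of BRY; the final statements for `C9 Psi8` and `CH Psi12`, and for
the classes without deviation.
-/

open MeasureTheory Set Filter Topology Complex
open scoped ENNReal NNReal ContDiff ComplexConjugate

noncomputable section

namespace Pool.Agent.FPX.BRG

open Pool.Agent.FPX.ALX (St)
open Pool.Agent.FPX.BTN (va e1)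
open Pool.Agent.FPX.BTG (mo)
open Pool.Agent.FPX.BTI (C9 Psi8 mn8)
open Pool.Agent.FPX.BU (CH Psi12 PsiH devH liH)

variable {Ω : Type*} [MeasurableSpace Ω]

/-- the deviation of `xi12` with the coefficients `U` (the slots `26, 27` are not used) -/
def dv12 (U : Fin 42 → ℚ) : Dv where
  D := [(U 0, 0, 1, 0), (U 1, 3, 1, 0), (U 2, -3, 1, 0), (U 3, 3, 1, 3), (U 4, 3, 1, -3), (U 5, -3, 1, 3),
    (U 9, 3, 0, 0), (U 10, -3, 0, 0), (U 11, 3, 0, 3), (U 12, 3, 0, -3), (U 13, -3, 0, 3),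
    (U 17, 0, 4, 0), (U 18, -3, 4, 0), (U 19, 3, 4, 0), (U 20, 0, 3, 0), (U 21, 3, 3, 0), (U 22, -3, 3, 0),
    (U 28, 5, 1, 0), (U 29, -5, 1, 0), (U 30, 3, 1, 5), (U 31, -3, 1, -5),
    (U 32, 5, 0, 0), (U 33, -5, 0, 0), (U 34, 3, 0, 5), (U 35, -3, 0, -5),
    (U 36, -5, 4, 0), (U 37, 5, 3, 0), (U 38, 0, 6, 0), (U 39, -3, 6, 0), (U 40, 0, 5, 0), (U 41, 3, 5, 0)]
  Q := [(U 6, 1, 2), (U 7, 1, 0), (U 8, 1, -2), (U 14, 0, 2), (U 15, 0, 0), (U 16, 0, -2)]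
  r := U 23
  s := U 24
  g := U 25

/-- the real coefficient vector with `τ` in the slots `26, 27` -/
def ut12 (U : Fin 42 → ℚ) (τ : ℂ) : Fin 42 → ℝ := fun i =>
  if i = 26 then τ.re else if i = 27 then τ.im else ((U i : ℚ) : ℝ)

theorem sum42 {M : Type*} [AddCommMonoid M] (f : Fin 42 → M) : ∑ i, f i =
    f 0 + (f 1 + (f 2 + (f 3 + (f 4 + (f 5 + (f 6 + (f 7 + (f 8 + (f 9 + (f 10 + (f 11 + (f 12 + (f 13
    + (f 14 + (f 15 + (f 16 + (f 17 + (f 18 + (f 19 + (f 20 + (f 21 + (f 22 + (f 23 + (f 24 + (f 25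
    + (f 26 + (f 27 + (f 28 + (f 29 + (f 30 + (f 31 + (f 32 + (f 33 + (f 34 + (f 35 + (f 36 + (f 37
    + (f 38 + (f 39 + (f 40 + f 41)))))))))))))))))))))))))))))))))))))))) := by
  simp only [Fin.sum_univ_succ, Fin.sum_univ_zero, add_zero]
  rfl

theorem hd12 {ν : Measure Ω} {x : Ω → ℝ} {E : Ω → ℂ} (H : Fr ν x E) (U : Fin 42 → ℚ) (τ : ℂ)
    (A B z N M S R G P O : ℂ) : devH Psi12 (ut12 U τ) (mo (CH Psi12) ν x E) A B N M S R G P O =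
      (dv12 U).val (zH A B z N M P O) (vl ν x E) (Zr 2 ν x E) S R G + τ * conj A := by
  have e0 : mo (CH Psi12) ν x E 0 = vl ν x E 3 := (mo_vl (n := 3) (by norm_num)).symm
  have e1 : mo (CH Psi12) ν x E 1 = vl ν x E 5 := (mo_vl (n := 5) (by norm_num)).symm
  have mz : ∀ n : ℕ, Zr 2 ν x E (n : ℤ) = ∫ t, (x t : ℂ) ^ 2 * E t ^ n ∂ν := fun n => by
    unfold Zr
    simp
  have e3 : mo (CH Psi12) ν x E 3 = Zr 2 ν x E 0 := by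
    have := mz 0
    simp only [Nat.cast_zero, pow_zero, mul_one] at this
    rw [this]
    rfl
  have e4 : mo (CH Psi12) ν x E 4 = Zr 2 ν x E 2 := (mz 2).symm
  have u0 : vl ν x E 0 = 1 := by simp [vl]
  have n3 : vl ν x E (-3) = conj (vl ν x E 3) := H.vl_neg 3
  have n5 : vl ν x E (-5) = conj (vl ν x E 5) := H.vl_neg 5
  have y2 : Zr 2 ν x E (-2) = conj (Zr 2 ν x E 2) := H.zc 2 2
  have hτ : τ = (τ.re : ℂ) + (τ.im : ℂ) * Complex.I := (Complex.re_add_im τ).symm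
  generalize mo (CH Psi12) ν x E = m at e0 e1 e3 e4 ⊢
  unfold devH
  rw [sum42]
  simp only [Psi12, liH, Psi8, mn8, ut12, Dv.val, dv12, Matrix.cons_val_zero, Matrix.cons_val_one, Matrix.cons_val,
    List.map_cons, List.map_nil, List.sum_cons, List.sum_nil, zH, e0, e1, e3, e4, u0, n3, n5, y2, Fin.reduceEq,
    if_true, if_false, Complex.ofReal_ratCast, map_mul, map_one, Complex.conj_conj]
  conv_rhs => rw [hτ]
  ring

/-! ### the weight `1 + m Re E²`: final lists -/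

/-- **the rank one terms**; `ks`: eliminated variables with their constants (`3, 4` for `C9`; `3, 4, 5, 6` for `CH`) -/
def P1 (F : Fm) (m g0 g1 p0 p1 : ℚ) (ks : List (ℕ × ℚ)) : Tf :=
  (els ks (F.VR (yw m 0) (F.mu (yw m 0) g0 g1) [(p0, 0), (-p1, 2)] [] 0, [])).1

/-- **the terms with `x²`** -/
def Q1 (F : Fm) (p0 p1 : ℚ) : Qf := F.QR [(p0, 0), (-p1, 2)]

/-- **the conditions** -/
def P1ok (F : Fm) (m g0 g1 p0 p1 : ℚ) (ks : List (ℕ × ℚ)) : Bool :=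
  elsok ks (F.VR (yw m 0) (F.mu (yw m 0) g0 g1) [(p0, 0), (-p1, 2)] [] 0, []) && Wok m 0 1 1 p0 p1

theorem Fm.of_P1 {ν : Measure Ω} {x : Ω → ℝ} {E : Ω → ℂ} (H : Fr ν x E) {F : Fm} {G : Prop} (hS : F.Sem ν x E G)
    (hF : F.par = true) (hx : ∀ t, |x t| ≤ 1) {m g0 g1 p0 p1 : ℚ} {ks : List (ℕ × ℚ)}
    (hk : P1ok F m g0 g1 p0 p1 ks = true)
    (h : ∀ z : ℕ → ℂ, 0 ≤ (e2 z (vl ν x E) (P1 F m g0 g1 p0 p1 ks) + eq2 z (Zr 2 ν x E) (Q1 F p0 p1)).re) : G := by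
  have := H.pr
  unfold P1ok at hk
  rw [Bool.and_eq_true] at hk
  refine Fm.main1 H hS hF (r := 1) ?_ hk.2 _ hk.1 h
  have e : vl ν x E 3 = ∫ t, (x t : ℂ) * E t ^ 3 ∂ν := mo_vl (n := 3) (by norm_num)
  rw [e]
  refine (norm_integral_le_of_norm_le_const (C := 1) (Eventually.of_forall fun t => ?_)).trans (by simp)
  rw [norm_mul, norm_pow, H.norm1, one_pow, mul_one, Complex.norm_real]
  exact hx t

/-- **`RW` for the class `C9` with the start map `xi8`**, weight `1 + m Re E²` -/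
theorem RW9_fin {s : ℝ} {X : ℝ → ℝ} (hX : St s X) (hb : ∀ a, |X a| ≤ 1) {v : Fin 21 → ℚ} {U : Fin 28 → ℚ}
    {μ im : ℚ} (hμ : 0 < μ) (him : im * (2 * μ) ≤ 1) {τ : ℂ} {t1 t3 : ℚ} (ht1 : 0 ≤ t1) (ht3 : 0 ≤ t3)
    (hτ : ‖τ‖ ^ 2 ≤ t1 * t3) {m g0 g1 p0 p1 : ℚ} {ks : List (ℕ × ℚ)}
    (hk : P1ok (F9 v im t1 t3 (dv8 U)) m g0 g1 p0 p1 ks = true)
    (h : ∀ z : ℕ → ℂ, 0 ≤ (e2 z (vl va X e1) (P1 (F9 v im t1 t3 (dv8 U)) m g0 g1 p0 p1 ks)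
      + eq2 z (Zr 2 va X e1) (Q1 (F9 v im t1 t3 (dv8 U)) p0 p1)).re) :
    BTG.RW (C9 Psi8) va X e1 (fun i => ((v i : ℚ) : ℝ)) (ut U τ) μ 1 :=
  Fm.of_P1 (fr_va hX hb) (sem9 (fr_va hX hb) hμ him (hd8 (fr_va hX hb) U τ) ht1 ht3 hτ) (F9_par _ _ _ _ _) hb hk h

/-- **`RW` for the class `CH` with the start map `xi12`**, weight `1 + m Re E²` -/
theorem RWH_fin {s : ℝ} {X : ℝ → ℝ} (hX : St s X) (hb : ∀ a, |X a| ≤ 1) {v : Fin 26 → ℚ} {U : Fin 42 → ℚ}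
    {μ im : ℚ} (hμ : 0 < μ) (him : im * (2 * μ) ≤ 1) {τ : ℂ} {t1 t3 : ℚ} (ht1 : 0 ≤ t1) (ht3 : 0 ≤ t3)
    (hτ : ‖τ‖ ^ 2 ≤ t1 * t3) {m g0 g1 p0 p1 : ℚ} {ks : List (ℕ × ℚ)}
    (hk : P1ok (FH v im t1 t3 (dv12 U)) m g0 g1 p0 p1 ks = true)
    (h : ∀ z : ℕ → ℂ, 0 ≤ (e2 z (vl va X e1) (P1 (FH v im t1 t3 (dv12 U)) m g0 g1 p0 p1 ks)
      + eq2 z (Zr 2 va X e1) (Q1 (FH v im t1 t3 (dv12 U)) p0 p1)).re) :
    BTG.RW (CH Psi12) va X e1 (fun i => ((v i : ℚ) : ℝ)) (ut12 U τ) μ 1 :=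
  Fm.of_P1 (fr_va hX hb) (semH (fr_va hX hb) hμ him (hd12 (fr_va hX hb) U τ) ht1 ht3 hτ) (FH_par _ _ _ _ _) hb hk h

end Pool.Agent.FPX.BRG
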