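import Mathlib
import Pool.Agent.FPX.BWD

/-
BWE (helper84): faster final lists for the kernel: the eliminations touch only the terms which contain the variable.
-/

open MeasureTheory Set Filter Topology Complex
open scoped ENNReal NNReal ContDiff ComplexConjugate

noncomputable section

namespace Pool.Agent.FPX.BRG

open Pool.Agent.FPX.ALX (St)
open Pool.Agent.FPX.BTN (va e1)
open Pool.Agent.FPX.BTG (mo)
open Pool.Agent.FPX.BTI (C9 Psi8)
open Pool.Agent.FPX.BU (CH Psi12)

/-- the term contains `z_i` -/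
def hs (i : ℕ) (t : ℚ × Lf × Lf) : Bool :=
  (t.2.1.any fun s => Nat.beq s.2.1 i) || (t.2.2.any fun s => Nat.beq s.2.1 i)

def Tw (i : ℕ) (T : Tf) : Tf := T.filter (hs i)
def To (i : ℕ) (T : Tf) : Tf := T.filter fun t => !(hs i t)

theorem e2_Tw (z : ℕ → ℂ) (u : ℤ → ℂ) (i : ℕ) (T : Tf) : e2 z u (Tw i T) + e2 z u (To i T) = e2 z u T := by
  induction T with
  | nil => simp [Tw, To]
  | cons t T ih =>
    unfold Tw To at ih ⊢
    by_cases h : hs i t = true
    · rw [List.filter_cons_of_pos h, List.filter_cons_of_neg (by simp [h]), e2_cons, e2_cons, ← ih]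
      ring
    · rw [List.filter_cons_of_neg h, List.filter_cons_of_pos (by simpa using h), e2_cons, e2_cons, ← ih]
      ring

/-- elimination of `z_i` -/
def elF (i : ℕ) (κ : ℚ) (T : Tf) : Tf := (-κ, cm (lin1 i (Tw i T)), cm (lin1 i (Tw i T))) :: (rsT i (Tw i T) ++ To i T)

def elFok (i : ℕ) (κ : ℚ) (T : Tf) : Bool := okT i (Tw i T) && (0 ≤ κ && 1 ≤ κ * lam i (Tw i T))

theorem elF_le {u : ℤ → ℂ} (h0 : u 0 = 1) {i : ℕ} {κ : ℚ} {T : Tf} (h : elFok i κ T = true) (z : ℕ → ℂ) :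
    (e2 z u (elF i κ T)).re ≤ (e2 z u T).re := by
  unfold elFok at h
  simp only [Bool.and_eq_true, decide_eq_true_eq] at h
  obtain ⟨a1, a2, a3⟩ := h
  have h1 := elim_le (z := z) h0 a1 a2 a3
  have h2 := e2_Tw z u i T
  have h3 : e2 z u (elF i κ T) = e2 z u (elim i κ (Tw i T)) + e2 z u (To i T) := by
    unfold elF elim
    rw [e2_cons, e2_cons, e2_append, ev_cm]
    ring
  rw [h3, ← h2, Complex.add_re, Complex.add_re]
  linarith

def elsF : List (ℕ × ℚ) → Tf → Tf
  | [], T => T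
  | p :: l, T => elsF l (elF p.1 p.2 T)

def elsFok : List (ℕ × ℚ) → Tf → Bool
  | [], _ => true
  | p :: l, T => elFok p.1 p.2 T && elsFok l (elF p.1 p.2 T)

theorem elsF_le {u : ℤ → ℂ} (h0 : u 0 = 1) {l : List (ℕ × ℚ)} {T : Tf} (h : elsFok l T = true) (z : ℕ → ℂ) :
    (e2 z u (elsF l T)).re ≤ (e2 z u T).re := by
  induction l generalizing T with
  | nil => exact le_rfl
  | cons p l ih =>
    unfold elsFok at h
    rw [Bool.and_eq_true] at h
    exact (ih h.2).trans (elF_le h0 h.1 z)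

end Pool.Agent.FPX.BRG
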