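import Mathlib
import Pool.Agent.FPX.BWE
import Pool.Agent.FPX.BRP

/-
BWF (helper84): the forms of the classes `CH` and `C9` with arbitrary extra lists for the term `τ conj A` of the
deviation; state independent reciprocal weights `q`, in particular the Poisson weight of BRP (helper25) with its optimal
multipliers; the final lists for the start maps `xi8`, `xi12`.
-/

open MeasureTheory Set Filter Topology Complex
open scoped ENNReal NNReal ContDiff ComplexConjugate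

noncomputable section

namespace Pool.Agent.FPX.BRG

open Pool.Agent.FPX.CRD (Bm)
open Pool.Agent.FPX.ALX (St)
open Pool.Agent.FPX.BTN (va e1)
open Pool.Agent.FPX.BTG (mo Cls)
open Pool.Agent.FPX.BU

variable {Ω : Type*} [MeasurableSpace Ω]

/-- the form of the class `CH` with extra lists -/
def FHE (v : Fin 26 → ℚ) (im : ℚ) (d : Dv) (ET : Tf) (EQ : Qf) : Fm :=
  ⟨tqH v im 0 0 d ++ ET, qqH v d ++ EQ, cH', krH v d, [(-1, [(1, 0)]), (1, [(1, 1)])]⟩

theorem FHE_par (v : Fin 26 → ℚ) (im : ℚ) (d : Dv) (ET : Tf) (EQ : Qf) : (FHE v im d ET EQ).par = true := by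
  simp [FHE, Fm.par, Kr.par, krH, A0l.par, cH']

/-- **the meaning of the form with extra lists for the term `τ conj A` of the deviation** -/
theorem semHE {Q : Type} [Fintype Q] {Ψ : PsiH Q} {ν : Measure Ω} {x : Ω → ℝ} {E : Ω → ℂ} (H : Fr ν x E)
    {v : Fin 26 → ℚ} {u : Q → ℝ} {μ im : ℚ} (hμ : 0 < μ) (him : im * (2 * μ) ≤ 1)
    {d : Dv} {τ : ℂ} (hd : ∀ A B z N M S R G P O : ℂ, devH Ψ u (mo (CH Ψ) ν x E) A B N M S R G P O =
      d.val (zH A B z N M P O) (vl ν x E) (Zr 2 ν x E) S R G + τ * conj A)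
    {ET : Tf} {EQ : Qf} (hE : ∀ z : ℕ → ℂ, 2 * (z 2 * (τ * conj (z 0))).re ≤
      (e2 z (vl ν x E) ET + eq2 z (Zr 2 ν x E) EQ).re) :
    (FHE v im d ET EQ).Sem ν x E (BTG.RW (CH Ψ) ν x E (fun i => ((v i : ℚ) : ℝ)) u μ 1) := by
  intro q hq hp hT mf h
  refine RWH Ψ hq hp hT fun A B N M S R G G' P O => ?_
  set m := mo (CH Ψ) ν x E with hm
  set dv := devH Ψ u m A B N M S R G P O with hdv
  set z3 : ℂ := 2 * μ * conj dv with hz3
  set zv := zH A B z3 N M P O with hzv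
  have F := h zv
  set U := vl ν x E with hU
  set Z := Zr 2 ν x E with hZ
  have u0 : U 0 = 1 := by rw [hU]; simp [vl]
  have n3 : U (-3) = conj (U 3) := H.vl_neg 3
  have n5 : U (-5) = conj (U 5) := H.vl_neg 5
  have n7 : U (-7) = conj (U 7) := H.vl_neg 7
  have y2 : Z (-2) = conj (Z 2) := H.zc 2 2
  have y4 : Z (-4) = conj (Z 4) := H.zc 2 4
  have e0 : m 0 = U 3 := (mo_vl (n := 3) (by norm_num)).symm
  have e1 : m 1 = U 5 := (mo_vl (n := 5) (by norm_num)).symm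
  have e2' : m 2 = U 7 := (mo_vl (n := 7) (by norm_num)).symm
  have mz : ∀ n : ℕ, Z (n : ℤ) = ∫ t, (x t : ℂ) ^ 2 * E t ^ n ∂ν := fun n => by
    rw [hZ]
    unfold Zr
    simp
  have e3 : m 3 = Z 0 := by
    have := mz 0
    simp only [Nat.cast_zero, pow_zero, mul_one] at this
    rw [this]
    rfl
  have e4 : m 4 = Z 2 := (mz 2).symm
  have e5 : m 5 = Z 4 := (mz 4).symm
  -- the kernel
  have hker : ∀ t, (((FHE v im d ET EQ).cl mf).kr (FHE v im d ET EQ).k).f zv U (E t) (x t) =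
      hH (fun i => ((v i : ℚ) : ℝ)) m A B (BRG.ev zv U (mf 1)) (BRG.ev zv U (mf (-1))) (BRG.ev zv U (mf 3))
        (BRG.ev zv U (mf (-3))) (d.r * z3) (d.s * z3) (d.g * z3) 0 (BRG.ev zv U (mf 5)) (BRG.ev zv U (mf (-5)))
        (E t) (x t) := by
    intro t
    rw [Cl.f_eq]
    have hn := H.ne t
    have p1 : E t ^ (-1 : ℤ) = conj (E t) := by rw [zpow_neg_one, H.cinv]
    have p3 : E t ^ (-3 : ℤ) = conj (E t) ^ 3 := by rw [zpow_neg, H.cinv, inv_pow]; norm_cast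
    have p5 : E t ^ (-5 : ℤ) = conj (E t) ^ 5 := by rw [zpow_neg, H.cinv, inv_pow]; norm_cast
    have p2 : E t ^ (-2 : ℤ) = conj (E t) ^ 2 := by rw [zpow_neg, H.cinv, inv_pow]; norm_cast
    have q3 : E t ^ (3 : ℤ) = E t ^ 3 := by norm_cast
    have q5 : E t ^ (5 : ℤ) = E t ^ 5 := by norm_cast
    have q2 : E t ^ (2 : ℤ) = E t ^ 2 := by norm_cast
    have hre : ∀ w : ℂ, ((w.re : ℝ) : ℂ) = (w + conj w) / 2 := fun w => by
      rw [Complex.add_conj]
      push_cast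
      ring
    unfold hH keH
    rw [e0, e1, hre, hre]
    simp only [Kr.f, Kr.pA, Kr.pB, Fm.cl, FHE, FH, cH', krH, pe, BRG.ev, bev, List.map_cons, List.map_nil, List.sum_cons,
      List.sum_nil, p1, p2, p3, p5, q2, q3, q5, zpow_zero, zpow_one, n3, n5, u0, hzv, zH, map_add, map_mul, map_pow,
      Complex.conj_ofReal, Complex.conj_conj, map_div₀, Complex.conj_ofNat]
    push_cast
    ring
  simp only [hker] at F
  refine ⟨BRG.ev zv U (mf 1), BRG.ev zv U (mf (-1)), BRG.ev zv U (mf 3), BRG.ev zv U (mf (-3)), d.r * z3, d.s * z3,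
    d.g * z3, 0, BRG.ev zv U (mf 5), BRG.ev zv U (mf (-5)), ?_⟩
  -- the deviation
  have hμ' : (0 : ℝ) < (μ : ℝ) := by exact_mod_cast hμ
  have hdv' := hd A B z3 N M S R G P O
  rw [← hdv, ← hzv] at hdv'
  unfold Dv.val at hdv'
  have key : 2 * (μ : ℝ) * ‖dv‖ ^ 2 ≤ 2 * (z3 * dv).re - (im : ℝ) * ‖z3‖ ^ 2 := by
    have h1 : (z3 * dv).re = 2 * (μ : ℝ) * ‖dv‖ ^ 2 := by
      have : z3 * dv = ((2 * (μ : ℝ) * ‖dv‖ ^ 2 : ℝ) : ℂ) := by
        rw [hz3, mul_assoc, mul_comm (conj dv), Complex.mul_conj, Complex.normSq_eq_norm_sq]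
        push_cast
        ring
      rw [this, Complex.ofReal_re]
    have h2 : ‖z3‖ ^ 2 = 4 * (μ : ℝ) ^ 2 * ‖dv‖ ^ 2 := by
      rw [hz3, norm_mul, norm_mul, Complex.norm_conj]
      have a1 : ‖(2 : ℂ)‖ = 2 := by norm_num
      have a2 : ‖((μ : ℚ) : ℂ)‖ = (μ : ℝ) := by
        rw [show ((μ : ℚ) : ℂ) = (((μ : ℚ) : ℝ) : ℂ) by push_cast; rfl, Complex.norm_real, Real.norm_eq_abs,
          abs_of_pos hμ']
      rw [a1, a2]
      ring
    rw [h1, h2]
    have h3 : (im : ℝ) * (2 * μ) ≤ 1 := by exact_mod_cast him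
    have h4 : 0 ≤ 2 * (μ : ℝ) * ‖dv‖ ^ 2 := by positivity
    nlinarith
  set DD : ℂ := (d.D.map fun t => (t.1 : ℂ) * (U t.2.1 * conj (zv t.2.2.1 * U t.2.2.2))).sum with hDD
  set QS : ℂ := (d.Q.map fun t => (t.1 : ℂ) * (conj (zv t.2.1) * Z t.2.2)).sum with hQS
  have hET := e2_D d.D zv U
  have hEQ := eq2_Q d.Q zv Z
  rw [← hDD] at hET
  rw [← hQS] at hEQ
  have z2 : zv 2 = z3 := rfl
  rw [z2] at hET hEQ
  rw [hdv'] at key
  have hττ : 2 * (z3 * (τ * conj A)).re ≤ (e2 zv U ET + eq2 zv Z EQ).re := hE zv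
  refine le_trans ?_ F
  refine add_le_add ?_ le_rfl
  unfold rstH
  rw [← hdv, hdv']
  have fT : (FHE v im d ET EQ).T = tqH v im 0 0 d ++ ET := rfl
  have fQ : (FHE v im d ET EQ).Q = qqH v d ++ EQ := rfl
  rw [fT, fQ, e2_append _ ET, eq2_append _ EQ]
  unfold tqH qqH
  rw [e2_append, eq2_append, hET, hEQ]
  clear_value z3
  simp only [Fm.cl, FHE, FH, cH', List.map_cons, List.map_nil, List.sum_cons, List.sum_nil, e2_cons, e2_nil, eq2_cons,
    eq2_nil, ev_cons, ev_nil, hzv, zH, n3, n5, n7, y2, y4, u0, e0, e1, e2', e3, e4, e5, omH, bbH, b5H]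
  clear_value DD QS
  rw [Complex.add_re] at hττ
  generalize (e2 (zH A B z3 N M P O) U ET) = xt at hττ ⊢
  generalize (eq2 (zH A B z3 N M P O) Z EQ) = xq at hττ ⊢
  generalize BRG.ev (zH A B z3 N M P O) U (mf 1) = a1
  generalize BRG.ev (zH A B z3 N M P O) U (mf (-1)) = a2
  generalize BRG.ev (zH A B z3 N M P O) U (mf 3) = a3
  generalize BRG.ev (zH A B z3 N M P O) U (mf (-3)) = a4
  generalize BRG.ev (zH A B z3 N M P O) U (mf 5) = a5
  generalize BRG.ev (zH A B z3 N M P O) U (mf (-5)) = a6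
  have cr : ∀ q : ℚ, ((q : ℂ)).re = (q : ℝ) := fun q => Complex.ratCast_re q
  have ci : ∀ q : ℚ, ((q : ℂ)).im = 0 := fun q => Complex.ratCast_im q
  generalize hT : (z3 * (τ * conj A)).re = tt at hττ
  have key' : 2 * (μ : ℝ) * ‖DD + QS + (d.r : ℂ) * R + (d.s : ℂ) * conj S + (d.g : ℂ) * G + τ * conj A‖ ^ 2 ≤
      2 * tt + 2 * ((z3.re * DD.re - z3.im * DD.im) + (z3.re * QS.re - z3.im * QS.im)
        + (d.r : ℝ) * (z3.re * R.re - z3.im * R.im) + (d.s : ℝ) * (z3.re * S.re + z3.im * S.im)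
        + (d.g : ℝ) * (z3.re * G.re - z3.im * G.im)) - (im : ℝ) * (z3.re * z3.re + z3.im * z3.im) := by
    refine key.trans (le_of_eq ?_)
    rw [sq_re z3, mul_add, Complex.add_re, hT]
    simp only [Complex.add_re, Complex.mul_re, Complex.add_im, Complex.mul_im, Complex.conj_re, Complex.conj_im,
      cr, ci]
    ring
  generalize ‖DD + QS + (d.r : ℂ) * R + (d.s : ℂ) * conj S + (d.g : ℂ) * G + τ * conj A‖ ^ 2 = dn at key' ⊢
  have Z0 : (Z 0).im = 0 := by
    have h := H.zc 2 0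
    rw [neg_zero] at h
    have := congrArg Complex.im h
    rw [Complex.conj_im] at this
    rw [hZ]
    linarith
  simp only [sq_re, Complex.add_re, Complex.mul_re, Complex.add_im, Complex.mul_im, Complex.conj_re, Complex.conj_im,
    Complex.sub_re, Complex.sub_im, cr, ci, Z0, map_mul, map_add, map_sub, map_zero, Complex.div_ofNat_re,
    Complex.div_ofNat_im, Complex.one_re, Complex.one_im, Complex.zero_re, Complex.zero_im, Complex.re_ofNat,
    Complex.im_ofNat, Complex.conj_conj, Rat.cast_neg, Rat.cast_mul, Rat.cast_add, Rat.cast_sub, Rat.cast_div,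
    Rat.cast_ofNat, Rat.cast_one, Complex.neg_re, Complex.neg_im]
  linarith

end Pool.Agent.FPX.BRG
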