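import Mathlib
import Pool.Agent.FPX.BWG
import Pool.Agent.FPX.BRE
import Pool.Agent.FPX.BRP2

/-
BWH (helper84): any form `Fm` with a state independent weight `1 / q`, `q` and the multipliers as data; nearly optimal
multipliers from an approximate inverse of the Toeplitz matrix of `q`; the deviation of `xi14`; final statements for `CZ`.
-/

open MeasureTheory Set Filter Topology Complex
open scoped ENNReal NNReal ContDiff ComplexConjugate

noncomputable section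

namespace Pool.Agent.FPX.BRG

open Pool.Agent.FPX.CRD (Bm)
open Pool.Agent.FPX.ALX (St)
open Pool.Agent.FPX.BTN (va e1)
open Pool.Agent.FPX.BTG (mo Cls)

variable {Ω : Type*} [MeasurableSpace Ω]

/-! ### weights as data -/

/-- the one sided list of a real weight -/
def wl (w : Wr) : Wl := w.map fun p => (p.1, 2 * (p.2 : ℤ))

theorem we_wl (w : Wr) (e : ℂ) : (we (wl w) e).re = qr w e := by
  unfold we wl qr
  rw [List.map_map]
  induction w with
  | nil => simp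
  | cons p w ih =>
    rw [List.map_cons, List.sum_cons, Complex.add_re, ih, List.map_cons, List.sum_cons]
    congr 1
    simp only [Function.comp_apply]
    have h : e ^ (2 * (p.2 : ℤ)) = e ^ (2 * p.2) := by
      rw [show (2 * (p.2 : ℤ)) = ((2 * p.2 : ℕ) : ℤ) by push_cast; ring, zpow_natCast]
    rw [h]
    have c : ((p.1 : ℚ) : ℂ) = ((p.1 : ℝ) : ℂ) := by push_cast; rfl
    rw [c, Complex.re_ofReal_mul]

theorem wl_ev (w : Wr) : (wl w).ev = true := by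
  unfold Wl.ev wl
  rw [List.all_eq_true]
  intro p hp
  rw [List.mem_map] at hp
  obtain ⟨q, _, rfl⟩ := hp
  simp

/-- rank one terms of the form with the weight `q`, kernel `K` (any kernel with the same values) -/
def Fm.WK (F : Fm) (w : Wr) (mf : ℤ → Lf) (K : Kr) : Tf :=
  smT (-1) F.T ++ ((F.cl mf).map (fun c => (2, c.2.2, c.2.1)) ++ smT (-1) (K.TWh (wl w)))

/-- rank one terms of the form with the weight `q` -/
def Fm.WT (F : Fm) (w : Wr) (mf : ℤ → Lf) : Tf := F.WK w mf (cmK ((F.cl mf).kr F.k))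

/-- terms with `x²` of the form with the weight `q` -/
def Fm.WQ (F : Fm) (w : Wr) : Qf := smQ (-1) F.Q ++ smQ (-1) (F.k.QW (wl w))

theorem Fm.par_kr {F : Fm} (hF : F.par = true) (mf : ℤ → Lf) : ((F.cl mf).kr F.k).par = true := by
  unfold Fm.par at hF
  simp only [Bool.and_eq_true] at hF
  obtain ⟨k1, k2, k3⟩ := hF
  unfold Kr.par at k1 ⊢
  rw [Bool.and_eq_true, List.all_eq_true, List.all_eq_true] at k1 ⊢
  rw [List.all_eq_true] at k3
  refine ⟨fun p hp => ?_, k1.2⟩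
  unfold Cl.kr Fm.cl at hp
  simp only [List.mem_append, List.mem_map] at hp
  rcases hp with ⟨c, ⟨c', hc, rfl⟩, rfl⟩ | hp
  · exact k3 c' hc
  · exact k1.1 p hp

/-- **the main theorem**: weight `1 / q` of mean at most `1`, any multipliers -/
theorem Fm.mainQ {ν : Measure Ω} {x : Ω → ℝ} {E : Ω → ℂ} (H : Fr ν x E) {F : Fm} {G : Prop} (hS : F.Sem ν x E G)
    (hF : F.par = true) {w : Wr} (hw : ∀ e : ℂ, ‖e‖ = 1 → 0 < qr w e) (hT : ∫ t, 1 / qr w (E t) ∂ν ≤ 1)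
    (mf : ℤ → Lf) (h : ∀ z : ℕ → ℂ, 0 ≤ (e2 z (vl ν x E) (F.WT w mf) + eq2 z (Zr 2 ν x E) (F.WQ w)).re) : G := by
  refine hS (fun e _ => qr w e) ?_ (fun e x he _ => hw e he) hT mf fun z => ?_
  · unfold qr
    have : ∀ l : Wr, Continuous fun p : ℂ × ℝ => (l.map fun q => (q.1 : ℝ) * (p.1 ^ (2 * q.2)).re).sum := by
      intro l
      induction l with
      | nil => simpa using (continuous_const : Continuous fun _ : ℂ × ℝ => (0 : ℝ))
      | cons q l ih =>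
        simp only [List.map_cons, List.sum_cons]
        exact (continuous_const.mul (Complex.continuous_re.comp (continuous_fst.pow _))).add ih
    exact this w
  · have hk := Fm.par_kr hF mf
    have h1 := h z
    have h2 := H.int_re _ (cmK_par hk) (wl w) (wl_ev w) z
    have h3 : ∫ t, ‖((F.cl mf).kr F.k).f z (vl ν x E) (E t) (x t)‖ ^ 2 * qr w (E t) ∂ν =
        ∫ t, ‖(cmK ((F.cl mf).kr F.k)).f z (vl ν x E) (E t) (x t)‖ ^ 2 * (we (wl w) (E t)).re ∂ν := by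
      refine integral_congr_ae (Eventually.of_forall fun t => ?_)
      simp only
      rw [cmK_f, we_wl]
    rw [h3, h2]
    have hB : (cmK ((F.cl mf).kr F.k)).QW (wl w) = F.k.QW (wl w) := QW_B rfl _
    unfold Fm.WT Fm.WK Fm.WQ at h1
    rw [e2_append, e2_append, e2_smT, e2_smT, eq2_append, eq2_smQ, eq2_smQ, e2_C] at h1
    rw [hB]
    have dn : ∀ w : ℂ, ((((-1 : ℚ)) : ℂ) * w).re = -w.re := fun w => by
      push_cast
      rw [neg_one_mul, Complex.neg_re]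
    have d2 : ∀ w : ℂ, (2 * w).re = 2 * w.re := fun w => by
      rw [Complex.mul_re]
      norm_num
    simp only [Complex.add_re, dn, d2, TWh_re] at h1 ⊢
    linarith

/-- the same after an elimination (any list `T'` below the list of the form) -/
theorem Fm.mainQ' {ν : Measure Ω} {x : Ω → ℝ} {E : Ω → ℂ} (H : Fr ν x E) {F : Fm} {G : Prop} (hS : F.Sem ν x E G)
    (hF : F.par = true) {w : Wr} (hw : ∀ e : ℂ, ‖e‖ = 1 → 0 < qr w e) (hT : ∫ t, 1 / qr w (E t) ∂ν ≤ 1)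
    (mf : ℤ → Lf) {T' : Tf} (hT' : ∀ z : ℕ → ℂ, (e2 z (vl ν x E) T').re ≤ (e2 z (vl ν x E) (F.WT w mf)).re)
    (h : ∀ z : ℕ → ℂ, 0 ≤ (e2 z (vl ν x E) T' + eq2 z (Zr 2 ν x E) (F.WQ w)).re) : G :=
  Fm.mainQ H hS hF hw hT mf fun z => by
    have h1 := h z
    have h2 := hT' z
    rw [Complex.add_re] at h1 ⊢
    linarith

/-- **the same with the eliminations of BWE** -/
theorem Fm.mainQE {ν : Measure Ω} {x : Ω → ℝ} {E : Ω → ℂ} (H : Fr ν x E) {F : Fm} {G : Prop} (hS : F.Sem ν x E G)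
    (hF : F.par = true) {w : Wr} (hw : ∀ e : ℂ, ‖e‖ = 1 → 0 < qr w e) (hT : ∫ t, 1 / qr w (E t) ∂ν ≤ 1)
    (mf : ℤ → Lf) {ks : List (ℕ × ℚ)} (hk : elsFok ks (F.WT w mf) = true)
    (h : ∀ z : ℕ → ℂ, 0 ≤ (e2 z (vl ν x E) (elsF ks (F.WT w mf)) + eq2 z (Zr 2 ν x E) (F.WQ w)).re) : G :=
  Fm.mainQ' H hS hF hw hT mf (elsF_le (by simp [vl]) hk) h

/-! ### multipliers -/

/-- the coefficient of `e^c` in `q f`, `f` the kernel -/
def kq (w : Wr) (k : Kr) (c : ℤ) : Lf :=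
  w.flatMap fun p => if p.2 = 0 then smL p.1 (fc k c)
    else smL (p.1 / 2) (fc k (c + 2 * (p.2 : ℤ)) ++ fc k (c - 2 * (p.2 : ℤ)))

/-- the right sides of the equations of the optimal multipliers, in the order of the constraints -/
def Fm.rq (F : Fm) (w : Wr) : List Lf := F.C.map fun d => cm (d.2 ++ smL (-1) (kq w F.k d.1))

/-- multipliers from the rows of an approximate inverse of the Toeplitz matrix of `q` -/
def Fm.mq (F : Fm) (w : Wr) (iv : List (List ℚ)) : List (ℤ × Lf) :=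
  List.zipWith (fun (c : ℤ × Lf) (r : List ℚ) => (c.1, cm (List.zipWith smL r (F.rq w)).flatten)) F.C iv

/-- the function of a list of multipliers -/
def lk (L : List (ℤ × Lf)) (c : ℤ) : Lf :=
  match L.find? fun p => p.1 = c with
  | some p => p.2
  | none => []

/-! ### the weight of BRP2 -/

/-- the condition on the two parameters -/
def abok (a b : ℚ) : Bool := |a| + |b| < 1

theorem abok_r {a b : ℚ} (h : abok a b = true) : |(a : ℝ)| + |(b : ℝ)| < 1 := by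
  unfold abok at h
  rw [decide_eq_true_eq] at h
  exact_mod_cast h

/-- **the main theorem with the weight of BRP2** -/
theorem Fm.mainP2 {ν : Measure Ω} {x : Ω → ℝ} {E : Ω → ℂ} (H : Fr ν x E) {F : Fm} {G : Prop} (hS : F.Sem ν x E G)
    (hF : F.par = true) {a b : ℚ} (hab : abok a b = true) (mf : ℤ → Lf) {ks : List (ℕ × ℚ)}
    (hk : elsFok ks (F.WT (wP2 a b) mf) = true)
    (h : ∀ z : ℕ → ℂ, 0 ≤ (e2 z (vl ν x E) (elsF ks (F.WT (wP2 a b) mf)) + eq2 z (Zr 2 ν x E) (F.WQ (wP2 a b))).re) :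
    G :=
  Fm.mainQE H hS hF (fun _ he => qr_wP2_pos (abok_r hab) he) (int_wP2 H (abok_r hab)).le mf hk h

/-! ### the deviation of `xi14` -/

open Pool.Agent.FPX.BV (CZ Psi14 PsiZ devZ liZ pr9)

/-- the deviation of `xi14` with the coefficients `U` (the slots `26, 27` are not used) -/
def dz14 (U : Fin 48 → ℚ) : Dz where
  D := [(U 0, 0, 1, 0), (U 1, 3, 1, 0), (U 2, -3, 1, 0), (U 3, 3, 1, 3), (U 4, 3, 1, -3), (U 5, -3, 1, 3),
    (U 9, 3, 0, 0), (U 10, -3, 0, 0), (U 11, 3, 0, 3), (U 12, 3, 0, -3), (U 13, -3, 0, 3),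
    (U 17, 0, 4, 0), (U 18, -3, 4, 0), (U 19, 3, 4, 0), (U 20, 0, 3, 0), (U 21, 3, 3, 0), (U 22, -3, 3, 0),
    (U 28, 5, 1, 0), (U 29, -5, 1, 0), (U 30, 3, 1, 5), (U 31, -3, 1, -5),
    (U 32, 5, 0, 0), (U 33, -5, 0, 0), (U 34, 3, 0, 5), (U 35, -3, 0, -5),
    (U 36, -5, 4, 0), (U 37, 5, 3, 0), (U 38, 0, 6, 0), (U 39, -3, 6, 0), (U 40, 0, 5, 0), (U 41, 3, 5, 0)]
  Q := [(U 6, 1, 2), (U 7, 1, 0), (U 8, 1, -2), (U 14, 0, 2), (U 15, 0, 0), (U 16, 0, -2),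
    (U 42, 1, 4), (U 43, 1, -4), (U 44, 0, 4), (U 45, 0, -4)]
  r := U 23
  s := U 24
  g := U 25
  r4 := U 46
  s4 := U 47

/-- the real coefficient vector with `τ` in the slots `26, 27` -/
def ut14 (U : Fin 48 → ℚ) (τ : ℂ) : Fin 48 → ℝ := fun i =>
  if i = 26 then τ.re else if i = 27 then τ.im else ((U i : ℚ) : ℝ)

theorem sum48 {M : Type*} [AddCommMonoid M] (f : Fin 48 → M) : ∑ i, f i =
    f 0 + (f 1 + (f 2 + (f 3 + (f 4 + (f 5 + (f 6 + (f 7 + (f 8 + (f 9 + (f 10 + (f 11 + (f 12 + (f 13 + (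
    f 14 + (f 15 + (f 16 + (f 17 + (f 18 + (f 19 + (f 20 + (f 21 + (f 22 + (f 23 + (f 24 + (f 25 + (f 26 + (
    f 27 + (f 28 + (f 29 + (f 30 + (f 31 + (f 32 + (f 33 + (f 34 + (f 35 + (f 36 + (f 37 + (f 38 + (f 39 + (
    f 40 + (f 41 + (f 42 + (f 43 + (f 44 + (f 45 + (f 46 + f 47)))))))))))))))))))))))))))))))))))))))))))))) := by
  simp only [Fin.sum_univ_succ, Fin.sum_univ_zero, add_zero]
  rfl

theorem hd14 {ν : Measure Ω} {x : Ω → ℝ} {E : Ω → ℂ} (H : Fr ν x E) (U : Fin 48 → ℚ) (τ : ℂ)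
    (A B z N M S R G P O X Y : ℂ) : devZ Psi14 (ut14 U τ) (mo (CZ Psi14) ν x E) A B N M S R G P O X Y =
      (dz14 U).vz (zH A B z N M P O) (vl ν x E) (Zr 2 ν x E) S R G X Y + τ * conj A := by
  have e0 : mo (CZ Psi14) ν x E 0 = vl ν x E 3 := (mo_vl (n := 3) (by norm_num)).symm
  have e1 : mo (CZ Psi14) ν x E 1 = vl ν x E 5 := (mo_vl (n := 5) (by norm_num)).symm
  have mz : ∀ n : ℕ, Zr 2 ν x E (n : ℤ) = ∫ t, (x t : ℂ) ^ 2 * E t ^ n ∂ν := fun n => by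
    unfold Zr
    simp
  have e3 : mo (CZ Psi14) ν x E 3 = Zr 2 ν x E 0 := by
    have := mz 0
    simp only [Nat.cast_zero, pow_zero, mul_one] at this
    rw [this]
    rfl
  have e4 : mo (CZ Psi14) ν x E 4 = Zr 2 ν x E 2 := (mz 2).symm
  have e5 : mo (CZ Psi14) ν x E 5 = Zr 2 ν x E 4 := (mz 4).symm
  have u0 : vl ν x E 0 = 1 := by simp [vl]
  have n3 : vl ν x E (-3) = conj (vl ν x E 3) := H.vl_neg 3
  have n5 : vl ν x E (-5) = conj (vl ν x E 5) := H.vl_neg 5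
  have y2 : Zr 2 ν x E (-2) = conj (Zr 2 ν x E 2) := H.zc 2 2
  have y4 : Zr 2 ν x E (-4) = conj (Zr 2 ν x E 4) := H.zc 2 4
  have hτ : τ = (τ.re : ℂ) + (τ.im : ℂ) * Complex.I := (Complex.re_add_im τ).symm
  generalize mo (CZ Psi14) ν x E = m at e0 e1 e3 e4 e5 ⊢
  unfold devZ
  rw [sum48]
  simp only [Psi14, liZ, pr9, BU.Psi12, BU.liH, BTI.Psi8, BTI.mn8, ut14, Dz.vz, Dv.val, dz14, Matrix.cons_val_zero,
    Matrix.cons_val_one, Matrix.cons_val,
    List.map_cons, List.map_nil, List.sum_cons, List.sum_nil, zH, e0, e1, e3, e4, e5, u0, n3, n5, y2, y4, Fin.reduceEq,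
    if_true, if_false, Complex.ofReal_ratCast, map_mul, map_one, Complex.conj_conj]
  conv_rhs => rw [hτ]
  ring

/-! ### final statements for the class `CZ` -/

section fin

variable {Q : Type} [Fintype Q] {Ψ : PsiZ Q} {s : ℝ} {X : ℝ → ℝ} {v : Fin 29 → ℚ} {u : Q → ℝ} {μ im : ℚ} {d : Dz}
  {τ : ℂ} {ET : Tf} {EQ : Qf}

/-- **`RW` for the class `CZ`**, any deviation, weight of BRP2, multipliers as data -/
theorem RWZ_P2 (hX : St s X) (hb : ∀ a, |X a| ≤ 1) (hμ : 0 < μ) (him : im * (2 * μ) ≤ 1)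
    (hd : ∀ A B z N M S R G P O Y Y' : ℂ, devZ Ψ u (mo (CZ Ψ) va X e1) A B N M S R G P O Y Y' =
      d.vz (zH A B z N M P O) (vl va X e1) (Zr 2 va X e1) S R G Y Y' + τ * conj A)
    (hE : ∀ z : ℕ → ℂ, 2 * (z 2 * (τ * conj (z 0))).re ≤ (e2 z (vl va X e1) ET + eq2 z (Zr 2 va X e1) EQ).re)
    {a b : ℚ} (hab : abok a b = true) (mf : ℤ → Lf) {ks : List (ℕ × ℚ)}
    (hk : elsFok ks ((FZ v im d ET EQ).WT (wP2 a b) mf) = true)
    (h : ∀ z : ℕ → ℂ, 0 ≤ (e2 z (vl va X e1) (elsF ks ((FZ v im d ET EQ).WT (wP2 a b) mf))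
      + eq2 z (Zr 2 va X e1) ((FZ v im d ET EQ).WQ (wP2 a b))).re) :
    BTG.RW (CZ Ψ) va X e1 (fun i => ((v i : ℚ) : ℝ)) u μ 1 :=
  Fm.mainP2 (fr_va hX hb) (semZE (fr_va hX hb) hμ him hd hE) (FZ_par _ _ _ _ _) hab mf hk h

/-- **`RW` for the class `CZ` and the start map `xi14`** -/
theorem RWZ14_P2 (hX : St s X) (hb : ∀ a, |X a| ≤ 1) (hμ : 0 < μ) (him : im * (2 * μ) ≤ 1) {U : Fin 48 → ℚ}
    (hE : ∀ z : ℕ → ℂ, 2 * (z 2 * (τ * conj (z 0))).re ≤ (e2 z (vl va X e1) ET + eq2 z (Zr 2 va X e1) EQ).re)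
    {a b : ℚ} (hab : abok a b = true) (mf : ℤ → Lf) {ks : List (ℕ × ℚ)}
    (hk : elsFok ks ((FZ v im (dz14 U) ET EQ).WT (wP2 a b) mf) = true)
    (h : ∀ z : ℕ → ℂ, 0 ≤ (e2 z (vl va X e1) (elsF ks ((FZ v im (dz14 U) ET EQ).WT (wP2 a b) mf))
      + eq2 z (Zr 2 va X e1) ((FZ v im (dz14 U) ET EQ).WQ (wP2 a b))).re) :
    BTG.RW (CZ Psi14) va X e1 (fun i => ((v i : ℚ) : ℝ)) (ut14 U τ) μ 1 :=
  RWZ_P2 hX hb hμ him (hd14 (fr_va hX hb) U τ) hE hab mf hk h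

end fin

end Pool.Agent.FPX.BRG
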