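import Mathlib
import Pool.Agent.FPX.CEL
import Pool.Agent.FPX.BVP

/-
CEG (helper11): the latitude cell of CEL for any class: from the certificates at three control vectors to the certificate at
polynomial coefficient vectors; and the coefficient functions of the class `CofH` (OMH) as polynomials in `c`.
-/

open MeasureTheory Set Filter Topology Complex
open scoped ComplexConjugate

noncomputable section

set_option linter.unusedSectionVars false
set_option linter.unusedSimpArgs false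

namespace Pool.Agent.FPX.CEL

open Pool.Agent.FPX.BTQ
open Pool.Agent.FPX.BTG (Sta Cls mo aK bK dev)
open Pool.Agent.FPX.BTN (bw PolR pa pg)
open Pool.Agent.FPX.OMG (Cof9 CofH)
open Pool.Agent.FPX.OMY (CofS CofZ)

/-! ### one cell, any class -/

section

variable {J L X : Type} [Fintype J] [Fintype L] [MeasurableSpace X] {ν : Measure X} {D : X → ℝ} {E : X → ℂ} {n N : ℕ}

/-- the perturbation property of a class at a state, with the weights `wv`, `wu` -/
def Near (C : Cls J L (Fin n) (Fin N)) (ν : Measure X) (D : X → ℝ) (E : X → ℂ) (wv : Fin n → ℝ) (wu : Fin N → ℝ) :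
    Prop :=
  ∀ (v v' : Fin n → ℝ) (u u' : Fin N → ℝ) (μ T : ℝ), 0 ≤ μ → BTG.NC C ν D E v u μ T → ∀ δ U η : ℝ,
    ∑ q, |u' q - u q| * wu q ≤ δ → ∑ q, |u q| * wu q ≤ U →
    ∑ i, |v' i - v i| * wv i + 2 * μ * (δ * (2 * U + δ)) ≤ η → BTG.NC C ν D E v' u' μ (T + η)

/-- the vector `U` with the remainder in the components `i`, `j` -/
def uG (i j : Fin N) (U : Fin N → ℝ) (τ : ℂ) : Fin N → ℝ :=
  fun q => if q = i then τ.re else if q = j then τ.im else U q

/-- the error of a cell: `P`, `S` the polynomials of the two vectors, `V`, `U` the control vectors -/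
def errG (P : Fin n → List ℚ) (S : Fin N → List ℚ) (a b r τ μ : ℚ) (V : Fin 3 → Fin n → ℚ) (U : Fin 3 → Fin N → ℚ)
    (wv : Fin n → ℚ) (wu : Fin N → ℚ) : ℚ :=
  dst P a b r V wv + 2 * μ * (dst S a b 1 U wu * (2 * (siz U wu + 16 / 5 * τ) + dst S a b 1 U wu))

theorem sumG {i j : Fin N} (hij : i ≠ j) (g : Fin N → ℝ) :
    ∑ q, g q = ∑ q, (if q = i ∨ q = j then 0 else g q) + (g i + g j) := by
  have e : ∑ q, g q = ∑ q : Fin N, ((if q = i ∨ q = j then 0 else g q) + ((if q = i then g q else 0)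
      + if q = j then g q else 0)) := by
    refine Finset.sum_congr rfl fun q _ => ?_
    by_cases h1 : q = i
    · have h2 : q ≠ j := fun h => hij (h1.symm.trans h)
      simp [h1, hij]
    · by_cases h2 : q = j
      · have h3 : j ≠ i := fun h => hij h.symm
        simp [h2, h3]
      · simp [h1, h2]
  rw [e, Finset.sum_add_distrib, Finset.sum_add_distrib]
  simp

/-- **one latitude cell, any class** -/
theorem gen_NC {C : Cls J L (Fin n) (Fin N)} (S0 : Sta ν D E) {wv : Fin n → ℚ} {wu : Fin N → ℚ}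
    (hwv : ∀ i, 0 ≤ wv i) (hwu : ∀ q, 0 ≤ wu q) (HN : Near C ν D E (fun i => (wv i : ℝ)) fun q => (wu q : ℝ))
    {i j : Fin N} (hij : i ≠ j) (hi : wu i ≤ 8 / 5) (hj : wu j ≤ 8 / 5) {P : Fin n → List ℚ} {S : Fin N → List ℚ}
    {a b r τ₀ μ : ℚ} (hab : a < b) (hr : 0 < r) (hμ : 0 < μ) {V : Fin 3 → Fin n → ℚ} {U : Fin 3 → Fin N → ℚ} {c : ℝ}
    (hc : c ∈ Icc (a : ℝ) b) {τ : ℂ} (hτ : ‖τ‖ ≤ τ₀)
    (h : ∀ l : Fin 3, BTG.NC C ν D E (fun i => ((V l i : ℚ) : ℝ)) (uG i j (fun q => ((U l q : ℚ) : ℝ)) τ)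
      ((μ / r : ℚ) : ℝ) 1) {v : Fin n → ℝ} {u : Fin N → ℝ} (hv : ∀ i, v i = pe (P i) c)
    (hu : ∀ q, q ≠ i → q ≠ j → u q = pe (S q) c) (hui : u i = τ.re) (huj : u j = τ.im) :
    BTG.NC C ν D E v u μ (r + errG P S a b r τ₀ μ V U wv wu : ℚ) := by
  have hr' : (0 : ℝ) < r := by exact_mod_cast hr
  have hμ' : (0 : ℝ) < μ := by exact_mod_cast hμ
  obtain ⟨ht0, ht1⟩ := tt_mem hab hc
  set t := tt a b c with ht
  set w : ℕ → Fin N → ℝ := fun l => if h : l < 3 then uG i j (fun q => ((U ⟨l, h⟩ q : ℚ) : ℝ)) τ else 0 with hw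
  have h1 : BTG.NC C ν D E (∑ l ∈ Finset.range 3, bw 2 t l • cv V l)
      (∑ l ∈ Finset.range 3, bw 2 t l • w l) ((μ / r : ℚ) : ℝ) 1 := by
    refine BTG.NC.comb S0 (fun j _ => BTN.bw_nonneg ht0 ht1 j) (BTN.bw_sum 2 t)
      (by push_cast; positivity) fun l hl => ?_
    have hl3 : l < 3 := Finset.mem_range.1 hl
    have e1 : cv V l = fun i => ((V ⟨l, hl3⟩ i : ℚ) : ℝ) := by
      funext i
      unfold cv
      rw [dif_pos hl3]
    have e2 : w l = uG i j (fun q => ((U ⟨l, hl3⟩ q : ℚ) : ℝ)) τ := by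
      rw [hw]
      show (if h : l < 3 then uG i j (fun q => ((U ⟨l, h⟩ q : ℚ) : ℝ)) τ else 0) = _
      rw [dif_pos hl3]
    rw [e1, e2]
    exact h ⟨l, hl3⟩
  have h2 := h1.scale hr'
  have e3 : (r : ℝ) * ((μ / r : ℚ) : ℝ) = μ := by
    push_cast
    field_simp
  rw [e3, mul_one] at h2
  have eu : ∀ q, (∑ l ∈ Finset.range 3, bw 2 t l • w l) q =
      if q = i then τ.re else if q = j then τ.im else b3 t (U 0 q) (U 1 q) (U 2 q) := by
    intro q
    rw [Finset.sum_apply]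
    simp only [Finset.sum_range_succ, Finset.sum_range_zero, zero_add, Pi.smul_apply, smul_eq_mul]
    have g0 : w 0 q = uG i j (fun q => ((U 0 q : ℚ) : ℝ)) τ q := rfl
    have g1 : w 1 q = uG i j (fun q => ((U 1 q : ℚ) : ℝ)) τ q := rfl
    have g2 : w 2 q = uG i j (fun q => ((U 2 q : ℚ) : ℝ)) τ q := rfl
    rw [g0, g1, g2]
    have hb := BTN.bw_sum 2 t
    simp only [Finset.sum_range_succ, Finset.sum_range_zero, zero_add] at hb
    unfold uG
    split_ifs
    · rw [← add_mul, ← add_mul, hb, one_mul]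
    · rw [← add_mul, ← add_mul, hb, one_mul]
    · rfl
  have hτ0 : (0 : ℝ) ≤ τ₀ := (norm_nonneg _).trans hτ
  have hre : |τ.re| ≤ τ₀ := (Complex.abs_re_le_norm τ).trans hτ
  have him : |τ.im| ≤ τ₀ := (Complex.abs_im_le_norm τ).trans hτ
  have hwu' : ∀ q, (0 : ℝ) ≤ (wu q : ℝ) := fun q => by exact_mod_cast hwu q
  have hi' : (wu i : ℝ) ≤ 8 / 5 := by
    have : ((wu i : ℚ) : ℝ) ≤ ((8 / 5 : ℚ) : ℝ) := by exact_mod_cast hi
    push_cast at this
    exact this
  have hj' : (wu j : ℝ) ≤ 8 / 5 := by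
    have : ((wu j : ℚ) : ℝ) ≤ ((8 / 5 : ℚ) : ℝ) := by exact_mod_cast hj
    push_cast at this
    exact this
  have hδ : ∑ q, |u q - (∑ l ∈ Finset.range 3, bw 2 t l • w l) q| * (wu q : ℝ) ≤ dst S a b 1 U wu := by
    refine le_trans (Finset.sum_le_sum fun q _ => ?_) (dst_sound (P := S) (r := 1) (V := U) hab hwu hc)
    rw [eu]
    refine mul_le_mul_of_nonneg_right ?_ (hwu' q)
    split_ifs with h1 h2
    · rw [h1, hui, sub_self, abs_zero]
      exact abs_nonneg _
    · rw [h2, huj, sub_self, abs_zero]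
      exact abs_nonneg _
    · rw [hu q h1 h2]
      push_cast
      rw [one_mul]
  have hU : ∑ q, |(∑ l ∈ Finset.range 3, bw 2 t l • w l) q| * (wu q : ℝ) ≤ ((siz U wu + 16 / 5 * τ₀ : ℚ) : ℝ) := by
    rw [sumG hij]
    have k1 : ∑ q : Fin N, (if q = i ∨ q = j then 0
        else |(∑ l ∈ Finset.range 3, bw 2 t l • w l) q| * (wu q : ℝ)) ≤ (siz U wu : ℝ) := by
      refine le_trans (Finset.sum_le_sum fun q _ => ?_) (siz_sound (V := U) hwu ht0 ht1)
      rw [eu]
      have := hwu' q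
      split_ifs with h1 h2 h3
      · positivity
      · exact absurd (Or.inl h2) h1
      · exact absurd (Or.inr h3) h1
      · exact le_rfl
    have k2 : |(∑ l ∈ Finset.range 3, bw 2 t l • w l) i| * (wu i : ℝ) ≤ τ₀ * (8 / 5) := by
      rw [eu, if_pos rfl]
      exact mul_le_mul hre hi' (hwu' i) hτ0
    have k3 : |(∑ l ∈ Finset.range 3, bw 2 t l • w l) j| * (wu j : ℝ) ≤ τ₀ * (8 / 5) := by
      rw [eu, if_neg (Ne.symm hij), if_pos rfl]
      exact mul_le_mul him hj' (hwu' j) hτ0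
    push_cast
    linarith
  have hv' : ∑ i, |v i - ((r : ℝ) • ∑ l ∈ Finset.range 3, bw 2 t l • cv V l) i| * (wv i : ℝ) ≤ dst P a b r V wv := by
    refine le_trans (Finset.sum_le_sum fun i _ => ?_) (dst_sound (P := P) (r := r) (V := V) hab hwv hc)
    rw [Pi.smul_apply, smul_eq_mul, sum3_apply, hv]
  have hη : ∑ i, |v i - ((r : ℝ) • ∑ l ∈ Finset.range 3, bw 2 t l • cv V l) i| * (wv i : ℝ)
      + 2 * (μ : ℝ) * ((dst S a b 1 U wu : ℝ) * (2 * ((siz U wu + 16 / 5 * τ₀ : ℚ) : ℝ)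
        + (dst S a b 1 U wu : ℝ))) ≤ ((errG P S a b r τ₀ μ V U wv wu : ℚ) : ℝ) := by
    unfold errG
    push_cast at hv' ⊢
    linarith
  have h3 := HN _ _ _ _ _ _ hμ'.le h2 _ _ _ hδ hU hη
  push_cast
  exact h3

end

/-! ### the class `CofH` -/

/-- the data of the coefficient functions of OMH: those of CEL, `x₅, y₅` plain, `c g₅`, `b₅` plain -/
structure DatH extends Dat where
  x5 : List ℚ
  y5 : List ℚ
  g5 : List ℚ
  b5 : List ℚ

/-- the coefficient functions -/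
def DatH.cof9 (D : DatH) : Cof9 := ⟨D.cof.C, hat D.p1, hat D.p2, pln D.x5, pln D.y5⟩

/-- the coefficient functions -/
def DatH.cofH (D : DatH) : CofH := ⟨D.cof9, hat D.g5, pln D.b5⟩

/-- `c² ph` -/
def DatH.pJ (D : DatH) : List ℚ := lin [(1, 0, 1, D.g5), (-1, 1, 1, pd D.g5), (2, 2, 0, D.g5), (-5, 2, 0, D.b5)]

/-- the components of the vector `vecHR` as polynomials in `c` -/
def DatH.vh (D : DatH) (w R : List ℚ) (η : ℚ) : Fin 26 → List ℚ :=
  ![D.vp w R η 0, D.vp w R η 1, D.vp w R η 2, D.vp w R η 3, D.vp w R η 4, D.vp w R η 5, D.vp w R η 6,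
    D.vp w R η 7, D.vp w R η 8, D.vp w R η 9, D.vp w R η 10, D.vp w R η 11, D.vp w R η 12, D.vp w R η 13,
    D.vp w R η 14, D.vp w R η 15, D.vp w R η 16,
    lin [(1, 0, 2, D.x5)],
    lin [(1, 0, 3, D.y5)],
    D.vp w R η 19,
    lin [(-2, 1, 2, pd D.x5), (-5, 0, 2, D.x5), (-2, 1, 3, pd D.y5), (24, 2, 2, D.y5), (5, 0, 3, D.y5)],
    lin [(4, 0, 0, D.g5)],
    pmul R (lin [(4, 0, 1, D.g5), (-4, 1, 1, pd D.g5), (8, 2, 0, D.g5)]),
    D.b5,
    pmul R (lin [(20, 2, 0, D.b5)]),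
    lin [(-2, 1, 0, pd D.b5)]]

/-- the components of `vec9R` which do not contain `x₅`, `y₅` -/
theorem vec9R_congr (W : ℝ → ℝ) (C : OM7.Cof) (p1 p2 x5 y5 x5' y5' : ℝ → ℝ) (μ η ρ s c : ℝ) (i : Fin 21)
    (h1 : i ≠ 17) (h2 : i ≠ 18) (h3 : i ≠ 20) :
    BTI.vec9R W ⟨C, p1, p2, x5, y5⟩ μ η ρ s c i = BTI.vec9R W ⟨C, p1, p2, x5', y5'⟩ μ η ρ s c i := by
  unfold BTI.vec9R
  fin_cases i
  all_goals try simp only [Fin.zero_eta, Fin.reduceFinMk, Matrix.cons_val_zero, Matrix.cons_val_one, Matrix.cons_val]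
  · exact absurd rfl h1
  · exact absurd rfl h2
  · exact absurd rfl h3

variable {D : DatH}

theorem pJ_eq {s c : ℝ} (hc : 0 < c) (hs : s ^ 2 = 1 - c ^ 2) : pe D.pJ c = c ^ 2 * BU.ph D.cofH s c := by
  unfold DatH.pJ BU.ph
  simp only [DatH.cofH, hs, hat_eq _ hc, deriv_hat _ hc, pln_eq _ hc, pe_lin_cons, pe_lin_nil]
  push_cast
  field_simp
  ring

/-- **the vector `vecHR` is polynomial in `c`** -/
theorem vh_eq {W : ℝ → ℝ} {w R : List ℚ} {η : ℚ} {s c : ℝ} (hc : 0 < c) (hs : s ^ 2 = 1 - c ^ 2)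
    (hW : 2 * c * W c - s ^ 2 * deriv W c = pe w c) (i : Fin 26) :
    BU.vecHR W D.cofH 0 η (pe R c) s c i = pe (D.vh w R η i) c := by
  have h4 : s ^ 4 = (1 - c ^ 2) ^ 2 := by rw [← hs]; ring
  have h6 : s ^ 6 = (1 - c ^ 2) ^ 3 := by rw [← hs]; ring
  have key : ∀ i : Fin 21, i ≠ 17 → i ≠ 18 → i ≠ 20 →
      BTI.vec9R W D.cof9 0 η (pe R c) s c i = pe (D.vp w R η i) c := by
    intro i h1 h2 h3
    rw [← vp_eq (D := D.toDat) (R := R) (η := η) hc hs hW i]
    exact vec9R_congr _ _ _ _ _ _ _ _ _ _ _ _ _ i h1 h2 h3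
  unfold BU.vecHR DatH.vh
  fin_cases i
  · simp only [Fin.zero_eta, Fin.reduceFinMk, Matrix.cons_val_zero, Matrix.cons_val_one, Matrix.cons_val]
    exact key 0 (by decide) (by decide) (by decide)
  · simp only [Fin.zero_eta, Fin.reduceFinMk, Matrix.cons_val_zero, Matrix.cons_val_one, Matrix.cons_val]
    exact key 1 (by decide) (by decide) (by decide)
  · simp only [Fin.zero_eta, Fin.reduceFinMk, Matrix.cons_val_zero, Matrix.cons_val_one, Matrix.cons_val]
    exact key 2 (by decide) (by decide) (by decide)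
  · simp only [Fin.zero_eta, Fin.reduceFinMk, Matrix.cons_val_zero, Matrix.cons_val_one, Matrix.cons_val]
    exact key 3 (by decide) (by decide) (by decide)
  · simp only [Fin.zero_eta, Fin.reduceFinMk, Matrix.cons_val_zero, Matrix.cons_val_one, Matrix.cons_val]
    exact key 4 (by decide) (by decide) (by decide)
  · simp only [Fin.zero_eta, Fin.reduceFinMk, Matrix.cons_val_zero, Matrix.cons_val_one, Matrix.cons_val]
    exact key 5 (by decide) (by decide) (by decide)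
  · simp only [Fin.zero_eta, Fin.reduceFinMk, Matrix.cons_val_zero, Matrix.cons_val_one, Matrix.cons_val]
    exact key 6 (by decide) (by decide) (by decide)
  · simp only [Fin.zero_eta, Fin.reduceFinMk, Matrix.cons_val_zero, Matrix.cons_val_one, Matrix.cons_val]
    exact key 7 (by decide) (by decide) (by decide)
  · simp only [Fin.zero_eta, Fin.reduceFinMk, Matrix.cons_val_zero, Matrix.cons_val_one, Matrix.cons_val]
    exact key 8 (by decide) (by decide) (by decide)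
  · simp only [Fin.zero_eta, Fin.reduceFinMk, Matrix.cons_val_zero, Matrix.cons_val_one, Matrix.cons_val]
    exact key 9 (by decide) (by decide) (by decide)
  · simp only [Fin.zero_eta, Fin.reduceFinMk, Matrix.cons_val_zero, Matrix.cons_val_one, Matrix.cons_val]
    exact key 10 (by decide) (by decide) (by decide)
  · simp only [Fin.zero_eta, Fin.reduceFinMk, Matrix.cons_val_zero, Matrix.cons_val_one, Matrix.cons_val]
    exact key 11 (by decide) (by decide) (by decide)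
  · simp only [Fin.zero_eta, Fin.reduceFinMk, Matrix.cons_val_zero, Matrix.cons_val_one, Matrix.cons_val]
    exact key 12 (by decide) (by decide) (by decide)
  · simp only [Fin.zero_eta, Fin.reduceFinMk, Matrix.cons_val_zero, Matrix.cons_val_one, Matrix.cons_val]
    exact key 13 (by decide) (by decide) (by decide)
  · simp only [Fin.zero_eta, Fin.reduceFinMk, Matrix.cons_val_zero, Matrix.cons_val_one, Matrix.cons_val]
    exact key 14 (by decide) (by decide) (by decide)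
  · simp only [Fin.zero_eta, Fin.reduceFinMk, Matrix.cons_val_zero, Matrix.cons_val_one, Matrix.cons_val]
    exact key 15 (by decide) (by decide) (by decide)
  · simp only [Fin.zero_eta, Fin.reduceFinMk, Matrix.cons_val_zero, Matrix.cons_val_one, Matrix.cons_val]
    exact key 16 (by decide) (by decide) (by decide)
  · simp only [Fin.reduceFinMk, Matrix.cons_val]
    show s ^ 4 * pln D.x5 (s ^ 2) = pe (lin [(1, 0, 2, D.x5)]) c
    rw [hs, pln_eq _ hc, h4]
    simp only [pe_lin_cons, pe_lin_nil]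
    push_cast
    ring
  · simp only [Fin.reduceFinMk, Matrix.cons_val]
    show s ^ 6 * pln D.y5 (s ^ 2) = pe (lin [(1, 0, 3, D.y5)]) c
    rw [hs, pln_eq _ hc, h6]
    simp only [pe_lin_cons, pe_lin_nil]
    push_cast
    ring
  · simp only [Fin.zero_eta, Fin.reduceFinMk, Matrix.cons_val_zero, Matrix.cons_val_one, Matrix.cons_val]
    exact key 19 (by decide) (by decide) (by decide)
  · show s ^ 4 * (4 * c ^ 2 * deriv (pln D.x5) (s ^ 2) - 5 * pln D.x5 (s ^ 2)
      + 4 * c ^ 2 * (s ^ 2 * deriv (pln D.y5) (s ^ 2) + 6 * pln D.y5 (s ^ 2)) + 5 * s ^ 2 * pln D.y5 (s ^ 2)) =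
      pe (lin [(-2, 1, 2, pd D.x5), (-5, 0, 2, D.x5), (-2, 1, 3, pd D.y5), (24, 2, 2, D.y5), (5, 0, 3, D.y5)]) c
    rw [h4]
    simp only [hs, pln_eq _ hc, deriv_pln _ hc, pe_lin_cons, pe_lin_nil]
    push_cast
    field_simp
    ring
  · show 4 * c * hat D.g5 (s ^ 2) = pe (lin [(4, 0, 0, D.g5)]) c
    rw [hs, hat_eq _ hc]
    simp only [pe_lin_cons, pe_lin_nil]
    push_cast
    field_simp
    ring
  · show 8 * c ^ 3 * pe R c * (s ^ 2 * deriv (hat D.g5) (s ^ 2) + hat D.g5 (s ^ 2)) =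
      pe (pmul R (lin [(4, 0, 1, D.g5), (-4, 1, 1, pd D.g5), (8, 2, 0, D.g5)])) c
    rw [pe_pmul]
    simp only [hs, hat_eq _ hc, deriv_hat _ hc, pe_lin_cons, pe_lin_nil]
    push_cast
    field_simp
    ring
  · show pln D.b5 (s ^ 2) = pe D.b5 c
    rw [hs, pln_eq _ hc]
  · show 20 * c ^ 2 * pe R c * pln D.b5 (s ^ 2) = pe (pmul R (lin [(20, 2, 0, D.b5)])) c
    rw [pe_pmul]
    simp only [hs, pln_eq _ hc, pe_lin_cons, pe_lin_nil]
    push_cast
    ring
  · show 4 * c ^ 2 * deriv (pln D.b5) (s ^ 2) = pe (lin [(-2, 1, 0, pd D.b5)]) c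
    simp only [hs, deriv_pln _ hc, pe_lin_cons, pe_lin_nil]
    push_cast
    field_simp
    ring

/-! ### the class `CofZ` -/

/-- the data of the coefficient functions of OMZ and of the start map `xi14`: `c x₄`, `c y₄`, `μ_j` (`mup`), `ν_j` -/
structure DatZ extends DatH where
  x4 : List ℚ
  y4 : List ℚ
  n : Fin 4 → List ℚ
  m : Fin 2 → List ℚ

/-- the coefficient functions of the form -/
def DatZ.cofZ (D : DatZ) : CofZ := ⟨D.cofH, ⟨hat D.x4, hat D.y4⟩⟩

/-- the coefficient functions of the start map -/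
def DatZ.nn (D : DatZ) (j : Fin 4) (c : ℝ) : ℝ := pe (D.n j) c

/-- their derivatives -/
def DatZ.nn' (D : DatZ) (j : Fin 4) (c : ℝ) : ℝ := pe (pd (D.n j)) c

/-- the coefficient functions of the start map -/
def DatZ.mm (D : DatZ) (j : Fin 2) (c : ℝ) : ℝ := pe (D.m j) c

/-- their derivatives -/
def DatZ.mm' (D : DatZ) (j : Fin 2) (c : ℝ) : ℝ := pe (pd (D.m j)) c

/-- the components of `vecZR` for `S₄` as polynomials in `c` -/
def DatZ.z26 (D : DatZ) : List ℚ := lin [(1, 0, 1, D.x4)]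

def DatZ.z27 (D : DatZ) : List ℚ := lin [(1, 0, 2, D.y4)]

def DatZ.z28 (D : DatZ) : List ℚ :=
  lin [(-1, 0, 1, D.x4), (-1, 1, 1, pd D.x4), (3, 0, 2, D.y4), (-1, 1, 2, pd D.y4), (10, 2, 1, D.y4)]

/-- the components of the vector `vecZR` as polynomials in `c` -/
def DatZ.vz (D : DatZ) (w R : List ℚ) (η : ℚ) (i : Fin 29) : List ℚ :=
  if h : (i : ℕ) < 26 then D.vh w R η ⟨i, h⟩ else if i = 26 then D.z26 else if i = 27 then D.z27 else D.z28

theorem put_lt {v : Fin 26 → ℝ} {a b d : ℝ} (i : Fin 29) (h : (i : ℕ) < 26) : BV.put v a b d i = v ⟨i, h⟩ := by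
  fin_cases i <;> first | rfl | exact absurd h (by decide)

/-- **the vector `vecZR` is polynomial in `c`** -/
theorem vz_eq {D : DatZ} {W : ℝ → ℝ} {w R : List ℚ} {η : ℚ} {s c : ℝ} (hc : 0 < c) (hs : s ^ 2 = 1 - c ^ 2)
    (hW : 2 * c * W c - s ^ 2 * deriv W c = pe w c) (i : Fin 29) :
    BV.vecZR W D.cofZ 0 η (pe R c) s c i = pe (D.vz w R η i) c := by
  have h4 : s ^ 4 = (1 - c ^ 2) ^ 2 := by rw [← hs]; ring
  unfold BV.vecZR DatZ.vz
  split_ifs with h h26 h27
  · rw [put_lt i h]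
    exact vh_eq (D := D.toDatH) hc hs hW ⟨i, h⟩
  · rw [h26]
    show c * s ^ 2 * hat D.x4 (s ^ 2) = pe (lin [(1, 0, 1, D.x4)]) c
    rw [hs, hat_eq _ hc]
    simp only [pe_lin_cons, pe_lin_nil]
    push_cast
    field_simp
    ring
  · rw [h27]
    show c * s ^ 4 * hat D.y4 (s ^ 2) = pe (lin [(1, 0, 2, D.y4)]) c
    rw [h4, hs, hat_eq _ hc]
    simp only [pe_lin_cons, pe_lin_nil]
    push_cast
    field_simp
    ring
  · have h28 : i = 28 := by
      have hi := i.isLt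
      apply Fin.ext
      have e26 : (i : ℕ) ≠ 26 := fun e => h26 (Fin.ext e)
      have e27 : (i : ℕ) ≠ 27 := fun e => h27 (Fin.ext e)
      show (i : ℕ) = 28
      omega
    rw [h28]
    show 2 * c * s ^ 2 * (c ^ 2 * deriv (hat D.x4) (s ^ 2) - hat D.x4 (s ^ 2)
      + c ^ 2 * (s ^ 2 * deriv (hat D.y4) (s ^ 2) + 5 * hat D.y4 (s ^ 2)) + s ^ 2 * hat D.y4 (s ^ 2)) =
      pe (lin [(-1, 0, 1, D.x4), (-1, 1, 1, pd D.x4), (3, 0, 2, D.y4), (-1, 1, 2, pd D.y4), (10, 2, 1, D.y4)]) c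
    simp only [hs, hat_eq _ hc, deriv_hat _ hc, pe_lin_cons, pe_lin_nil]
    push_cast
    field_simp
    ring

end Pool.Agent.FPX.CEL
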