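import Mathlib
import Pool.Agent.FPX.CEG

/-
CEY (helper11): a latitude cell, any class, Bernstein polynomials of any degree, the error of the start map by Young's
inequality; a priori bounds of the three classes; the version with certificates for the states of the class `St s'`.
-/

open MeasureTheory Set Filter Topology Complex
open scoped ComplexConjugate

noncomputable section

set_option linter.unusedSectionVars false
set_option linter.unusedSimpArgs false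

namespace Pool.Agent.FPX.CEL

open Pool.Agent.FPX.BTQ
open Pool.Agent.FPX.BTG (Sta Cls mo aK bK dev)
open Pool.Agent.FPX.ALX
open Pool.Agent.FPX.BTN (va e1 nf ef bw bw_nonneg bw_sum)
open Pool.Agent.FPX.F54 (X1 X2)
open Pool.Agent.FPX.OMS (cF)
open Pool.Agent.FPX.CERQ (xT)
open Pool.Agent.FPX.OMR (Re)

/-! ### Bernstein polynomials -/

/-- the Bernstein polynomial of degree `m` with the values `v 0, …, v m`, in the variable `x = 2 t - 1` -/
def bpx : ℕ → (ℕ → ℚ) → List ℚ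
  | 0, v => [v 0]
  | m + 1, v => padd (pmul [1 / 2, -1 / 2] (bpx m v)) (pmul [1 / 2, 1 / 2] (bpx m fun j => v (j + 1)))

theorem bw_succ_zero (m : ℕ) (t : ℝ) : bw (m + 1) t 0 = (1 - t) * bw m t 0 := by
  unfold bw
  simp only [Nat.choose_zero_right, Nat.cast_one, pow_zero, tsub_zero, mul_one, one_mul]
  rw [pow_succ]
  ring

theorem bw_succ_succ {m j : ℕ} (h : j < m) (t : ℝ) :
    bw (m + 1) t (j + 1) = (1 - t) * bw m t (j + 1) + t * bw m t j := by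
  unfold bw
  have e1 : m + 1 - (j + 1) = m - j := by omega
  have e2 : m - j = (m - (j + 1)) + 1 := by omega
  rw [e1, Nat.choose_succ_succ, e2, pow_succ]
  push_cast
  ring

theorem bw_top (m : ℕ) (t : ℝ) : bw (m + 1) t (m + 1) = t * bw m t m := by
  unfold bw
  simp only [Nat.choose_self, Nat.cast_one, tsub_self, pow_zero, mul_one, one_mul]
  rw [pow_succ]
  ring

theorem pe_bpx (m : ℕ) : ∀ (v : ℕ → ℚ) (x : ℝ),
    pe (bpx m v) x = ∑ j ∈ Finset.range (m + 1), bw m ((1 + x) / 2) j * (v j : ℝ) := by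
  induction m with
  | zero =>
    intro v x
    simp [bpx, bw]
  | succ m ih =>
    intro v x
    rw [bpx, pe_padd, pe_pmul, pe_pmul, ih, ih]
    simp only [pe_cons, pe_nil]
    push_cast
    set t : ℝ := (1 + x) / 2 with ht
    have a1 : (1 / 2 + x * (-1 / 2 + x * 0) : ℝ) = 1 - t := by rw [ht]; ring
    have a2 : (1 / 2 + x * (1 / 2 + x * 0) : ℝ) = t := by rw [ht]; ring
    rw [a1, a2]
    have hL := Finset.sum_range_succ' (fun j => bw m t j * (v j : ℝ)) m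
    have hR := Finset.sum_range_succ (fun j => bw m t j * (v (j + 1) : ℝ)) m
    have hG := Finset.sum_range_succ' (fun j => bw (m + 1) t j * (v j : ℝ)) (m + 1)
    have hH := Finset.sum_range_succ (fun j => bw (m + 1) t (j + 1) * (v (j + 1) : ℝ)) m
    have e : ∑ j ∈ Finset.range m, bw (m + 1) t (j + 1) * (v (j + 1) : ℝ) =
        (1 - t) * (∑ j ∈ Finset.range m, bw m t (j + 1) * (v (j + 1) : ℝ))
          + t * ∑ j ∈ Finset.range m, bw m t j * (v (j + 1) : ℝ) := by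
      rw [Finset.mul_sum, Finset.mul_sum, ← Finset.sum_add_distrib]
      refine Finset.sum_congr rfl fun j hj => ?_
      rw [bw_succ_succ (Finset.mem_range.1 hj)]
      ring
    rw [e, bw_top] at hH
    rw [bw_succ_zero, hH] at hG
    rw [hL, hR, hG]
    ring

section

variable {m n N : ℕ}

/-- extension by zero -/
def ex (V : Fin (m + 1) → Fin n → ℚ) (i : Fin n) (j : ℕ) : ℚ := if h : j < m + 1 then V ⟨j, h⟩ i else 0

/-- the control vectors as real vectors -/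
def cx (V : Fin (m + 1) → Fin n → ℚ) (j : ℕ) : Fin n → ℝ := fun i => (ex V i j : ℝ)

/-- the weighted distance of the polynomials `P` from `r` times the Bernstein polynomials of the control vectors -/
def dsm (P : Fin n → List ℚ) (a b r : ℚ) (V : Fin (m + 1) → Fin n → ℚ) (w : Fin n → ℚ) : ℚ :=
  (List.finRange n).foldr (fun i y =>
    n1 (padd (pcomp (P i) ((a + b) / 2) ((b - a) / 2)) (psm (-r) (bpx m (ex V i)))) * w i + y) 0

theorem dsm_sound {P : Fin n → List ℚ} {a b r : ℚ} {V : Fin (m + 1) → Fin n → ℚ} {w : Fin n → ℚ} (hab : a < b)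
    (hw : ∀ i, 0 ≤ w i) {c : ℝ} (hc : c ∈ Icc (a : ℝ) b) :
    ∑ i, |pe (P i) c - r * (∑ j ∈ Finset.range (m + 1), bw m (tt a b c) j * (ex V i j : ℝ))| * (w i : ℝ) ≤
      dsm P a b r V w := by
  obtain ⟨x, hx, hcx, ht⟩ := cell_x hab hc
  unfold dsm
  rw [foldr_eq (fun i => n1 (padd (pcomp (P i) ((a + b) / 2) ((b - a) / 2))
    (psm (-r) (bpx m (ex V i)))) * w i)]
  push_cast
  refine Finset.sum_le_sum fun i _ => ?_
  have h5 : (0 : ℝ) ≤ w i := by exact_mod_cast hw i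
  refine mul_le_mul_of_nonneg_right ?_ h5
  have h := abs_pe_le (padd (pcomp (P i) ((a + b) / 2) ((b - a) / 2)) (psm (-r) (bpx m (ex V i)))) hx
  rw [pe_padd, pe_psm, pe_pcomp, hcx, pe_bpx, ← ht] at h
  refine le_trans (le_of_eq ?_) h
  congr 1
  push_cast
  ring

end

/-! ### a priori bounds -/

section

variable {J L I Q X : Type} [Fintype J] [Fintype L] [Fintype I] [Fintype Q] [MeasurableSpace X] {ν : Measure X}
  {D : X → ℝ} {E : X → ℂ}

/-- a priori bounds of the terms of a class at a state -/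
def Apr (C : Cls J L I Q) (ν : Measure X) (D : X → ℝ) (E : X → ℂ) (wv : I → ℝ) (wu : Q → ℝ) : Prop :=
  ∀ K : X → ℂ, Measurable K → (∀ t, ‖K t‖ ≤ 1) → ∀ A B : ℂ,
    A - C.σ (mo C ν D E) * conj B = ∫ t, E t * conj (K t) ∂ν →
    B - C.σ (mo C ν D E) * conj A = ∫ t, E t * K t ∂ν → (∀ i, |BTG.ph C ν D E i K A B| ≤ wv i) ∧
      ∀ q, ‖C.ψ q (mo C ν D E) A B (aK C ν D E K) (bK C ν D E K)‖ ≤ wu q

theorem young {x y ε : ℝ} (hε : 0 < ε) : (x + y) ^ 2 ≤ (1 + ε) * x ^ 2 + (1 + 1 / ε) * y ^ 2 := by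
  have h : 0 ≤ (ε * x - y) ^ 2 / ε := by positivity
  have e : (ε * x - y) ^ 2 / ε = ε * x ^ 2 - 2 * x * y + 1 / ε * y ^ 2 := by
    field_simp
    ring
  rw [e] at h
  nlinarith

/-- **perturbation of the coefficients**, Young's inequality for the deviation -/
theorem nearY {C : Cls J L I Q} (H : Sta ν D E) {wv : I → ℝ} {wu : Q → ℝ} (HA : Apr C ν D E wv wu)
    {v v' : I → ℝ} {u u' : Q → ℝ} {μ ε T δ η : ℝ} (hμ : 0 ≤ μ) (hε : 0 < ε)
    (h : BTG.NC C ν D E v u (μ * (1 + ε)) T) (hδ : ∑ q, |u' q - u q| * wu q ≤ δ)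
    (hη : ∑ i, |v' i - v i| * wv i + 2 * μ * ((1 + 1 / ε) * δ ^ 2) ≤ η) : BTG.NC C ν D E v' u' μ (T + η) := by
  intro K hK hK1 A B hA hB
  obtain ⟨h1, h2⟩ := HA K hK hK1 A B hA hB
  have h0 := h K hK hK1 A B hA hB
  rw [BTG.lh_eq H v u _ hK hK1] at h0
  rw [BTG.lh_eq H v' u' _ hK hK1]
  have h3 : ∑ i, v' i * BTG.ph C ν D E i K A B ≤ (∑ i, v i * BTG.ph C ν D E i K A B) + ∑ i, |v' i - v i| * wv i := by
    rw [← Finset.sum_add_distrib]
    refine Finset.sum_le_sum fun i _ => ?_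
    have a1 : (v' i - v i) * BTG.ph C ν D E i K A B ≤ |v' i - v i| * wv i := by
      calc _ ≤ |(v' i - v i) * BTG.ph C ν D E i K A B| := le_abs_self _
        _ = |v' i - v i| * |BTG.ph C ν D E i K A B| := abs_mul _ _
        _ ≤ |v' i - v i| * wv i := mul_le_mul_of_nonneg_left (h1 i) (abs_nonneg _)
    linarith
  set d := dev C u (mo C ν D E) A B (aK C ν D E K) (bK C ν D E K) with hd
  set d' := dev C u' (mo C ν D E) A B (aK C ν D E K) (bK C ν D E K) with hd'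
  have h4 : ‖d'‖ ≤ ‖d‖ + δ := by
    have e : d' = d + ∑ q, ((u' q - u q : ℝ) : ℂ) * C.ψ q (mo C ν D E) A B (aK C ν D E K) (bK C ν D E K) := by
      rw [hd, hd']
      unfold BTG.dev
      rw [← Finset.sum_add_distrib]
      refine Finset.sum_congr rfl fun q _ => ?_
      push_cast
      ring
    have e2 : ‖∑ q, ((u' q - u q : ℝ) : ℂ) * C.ψ q (mo C ν D E) A B (aK C ν D E K) (bK C ν D E K)‖ ≤ δ := by
      refine (norm_sum_le _ _).trans (le_trans (Finset.sum_le_sum fun q _ => ?_) hδ)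
      rw [norm_mul, Complex.norm_real, Real.norm_eq_abs]
      exact mul_le_mul_of_nonneg_left (h2 q) (abs_nonneg _)
    rw [e]
    exact (norm_add_le _ _).trans (by linarith)
  have h5 : ‖d'‖ ^ 2 ≤ (1 + ε) * ‖d‖ ^ 2 + (1 + 1 / ε) * δ ^ 2 :=
    (pow_le_pow_left₀ (norm_nonneg _) h4 2).trans (young hε)
  have h6 := mul_le_mul_of_nonneg_left h5 (show (0 : ℝ) ≤ 2 * μ by linarith)
  have h7 : 2 * (μ * (1 + ε)) * ‖d‖ ^ 2 = 2 * μ * ((1 + ε) * ‖d‖ ^ 2) := by ring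
  rw [h7] at h0
  linarith

end

/-! ### the cell -/

section

variable {J L X : Type} [Fintype J] [Fintype L] [MeasurableSpace X] {ν : Measure X} {D : X → ℝ} {E : X → ℂ}
  {m n N : ℕ}

/-- the error of a cell -/
def errY (P : Fin n → List ℚ) (S : Fin N → List ℚ) (a b r μ ε : ℚ) (V : Fin (m + 1) → Fin n → ℚ)
    (U : Fin (m + 1) → Fin N → ℚ) (wv : Fin n → ℚ) (wu : Fin N → ℚ) : ℚ :=
  dsm P a b r V wv + 2 * μ * ((1 + 1 / ε) * dsm S a b 1 U wu ^ 2)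

theorem sum_cx {V : Fin (m + 1) → Fin n → ℚ} {t : ℝ} (i : Fin n) :
    (∑ j ∈ Finset.range (m + 1), bw m t j • cx V j) i = ∑ j ∈ Finset.range (m + 1), bw m t j * (ex V i j : ℝ) := by
  rw [Finset.sum_apply]
  rfl

/-- **one latitude cell, any class, any degree** -/
theorem gen_cell {C : Cls J L (Fin n) (Fin N)} (S0 : Sta ν D E) {wv : Fin n → ℚ} {wu : Fin N → ℚ}
    (hwv : ∀ i, 0 ≤ wv i) (hwu : ∀ q, 0 ≤ wu q) (HA : Apr C ν D E (fun i => (wv i : ℝ)) fun q => (wu q : ℝ))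
    {i j : Fin N} {P : Fin n → List ℚ} {S : Fin N → List ℚ}
    {a b r μ ε : ℚ} (hab : a < b) (hr : 0 < r) (hμ : 0 < μ) (hε : 0 < ε) {V : Fin (m + 1) → Fin n → ℚ}
    {U : Fin (m + 1) → Fin N → ℚ} {c : ℝ} (hc : c ∈ Icc (a : ℝ) b) {τ : ℂ}
    (h : ∀ l : Fin (m + 1), BTG.NC C ν D E (fun i => ((V l i : ℚ) : ℝ)) (uG i j (fun q => ((U l q : ℚ) : ℝ)) τ)
      ((μ * (1 + ε) / r : ℚ) : ℝ) 1) {v : Fin n → ℝ} {u : Fin N → ℝ} (hv : ∀ i, v i = pe (P i) c)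
    (hu : ∀ q, q ≠ i → q ≠ j → u q = pe (S q) c) (hui : u i = τ.re) (huj : i ≠ j → u j = τ.im) :
    BTG.NC C ν D E v u μ ((r + errY P S a b r μ ε V U wv wu : ℚ) : ℝ) := by
  have hr' : (0 : ℝ) < r := by exact_mod_cast hr
  have hμ' : (0 : ℝ) < μ := by exact_mod_cast hμ
  have hε' : (0 : ℝ) < ε := by exact_mod_cast hε
  obtain ⟨ht0, ht1⟩ := tt_mem hab hc
  set t := tt a b c with ht
  set w : ℕ → Fin N → ℝ := fun l => uG i j (cx U l) τ with hw
  have h1 : BTG.NC C ν D E (∑ l ∈ Finset.range (m + 1), bw m t l • cx V l)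
      (∑ l ∈ Finset.range (m + 1), bw m t l • w l) ((μ * (1 + ε) / r : ℚ) : ℝ) 1 := by
    refine BTG.NC.comb S0 (fun j _ => bw_nonneg ht0 ht1 j) (bw_sum m t)
      (by push_cast; positivity) fun l hl => ?_
    have hl3 : l < m + 1 := Finset.mem_range.1 hl
    have e1 : ∀ {k : ℕ} (V : Fin (m + 1) → Fin k → ℚ), cx V l = fun i => ((V ⟨l, hl3⟩ i : ℚ) : ℝ) := by
      intro k V
      funext i
      unfold cx ex
      rw [dif_pos hl3]
    have e2 : w l = uG i j (fun q => ((U ⟨l, hl3⟩ q : ℚ) : ℝ)) τ := by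
      rw [hw]
      show uG i j (cx U l) τ = _
      rw [e1 U]
    rw [e1 V, e2]
    exact h ⟨l, hl3⟩
  have h2 := h1.scale hr'
  have e3 : (r : ℝ) * ((μ * (1 + ε) / r : ℚ) : ℝ) = μ * (1 + ε) := by
    push_cast
    field_simp
  rw [e3, mul_one] at h2
  have eu : ∀ q, (∑ l ∈ Finset.range (m + 1), bw m t l • w l) q =
      if q = i then τ.re else if q = j then τ.im
        else ∑ l ∈ Finset.range (m + 1), bw m t l * (ex U q l : ℝ) := by
    intro q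
    rw [Finset.sum_apply]
    simp only [Pi.smul_apply, smul_eq_mul, hw, uG]
    have hb := bw_sum m t
    split_ifs
    · rw [← Finset.sum_mul, hb, one_mul]
    · rw [← Finset.sum_mul, hb, one_mul]
    · rfl
  have hwu' : ∀ q, (0 : ℝ) ≤ (wu q : ℝ) := fun q => by exact_mod_cast hwu q
  have hδ : ∑ q, |u q - (∑ l ∈ Finset.range (m + 1), bw m t l • w l) q| * (wu q : ℝ) ≤ dsm S a b 1 U wu := by
    refine le_trans (Finset.sum_le_sum fun q _ => ?_) (dsm_sound (P := S) (r := 1) (V := U) hab hwu hc)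
    rw [eu]
    refine mul_le_mul_of_nonneg_right ?_ (hwu' q)
    split_ifs with h1 h2
    · rw [h1, hui, sub_self, abs_zero]
      exact abs_nonneg _
    · rw [h2, huj fun h => h1 (h2.trans h.symm), sub_self, abs_zero]
      exact abs_nonneg _
    · rw [hu q h1 h2]
      push_cast
      rw [one_mul]
  have hv' : ∑ i, |v i - ((r : ℝ) • ∑ l ∈ Finset.range (m + 1), bw m t l • cx V l) i| * (wv i : ℝ) ≤
      dsm P a b r V wv := by
    refine le_trans (Finset.sum_le_sum fun i _ => ?_) (dsm_sound (P := P) (r := r) (V := V) hab hwv hc)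
    rw [Pi.smul_apply, smul_eq_mul, sum_cx, hv]
  have hη : ∑ i, |v i - ((r : ℝ) • ∑ l ∈ Finset.range (m + 1), bw m t l • cx V l) i| * (wv i : ℝ)
      + 2 * (μ : ℝ) * ((1 + 1 / (ε : ℝ)) * (dsm S a b 1 U wu : ℝ) ^ 2) ≤
        ((errY P S a b r μ ε V U wv wu : ℚ) : ℝ) := by
    unfold errY
    push_cast at hv' ⊢
    linarith
  have h3 := nearY S0 HA hμ'.le hε' h2 hδ hη
  push_cast
  exact h3

end

/-! ### the classes -/

section

open Pool.Agent.FPX.BTI (AB_le nI)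

variable {Q : Type} [Fintype Q] {X : Type} [MeasurableSpace X] {ν : Measure X} {D : X → ℝ} {E : X → ℂ}

theorem hk_le [IsProbabilityMeasure ν] {K : X → ℂ} (hK1 : ∀ t, ‖K t‖ ≤ 1) (φ : X → ℂ) (c : ℝ) (hc : 0 ≤ c)
    (hφ : ∀ t, ‖φ t‖ ≤ c) : ‖∫ t, φ t * K t ∂ν‖ ≤ c ∧ ‖∫ t, φ t * conj (K t) ∂ν‖ ≤ c := by
  refine ⟨nI fun t => ?_, nI fun t => ?_⟩
  · rw [norm_mul]
    calc ‖φ t‖ * ‖K t‖ ≤ c * 1 := mul_le_mul (hφ t) (hK1 t) (norm_nonneg _) hc
      _ = c := mul_one c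
  · rw [norm_mul, Complex.norm_conj]
    calc ‖φ t‖ * ‖K t‖ ≤ c * 1 := mul_le_mul (hφ t) (hK1 t) (norm_nonneg _) hc
      _ = c := mul_one c

/-- the class `C9` -/
theorem apr9 {Ψ : BTI.Psi9 Q} (H : BTI.Sml Ψ ν D E) {d : Q → ℝ} (hΨ : BTI.PsiLe Ψ d) :
    Apr (BTI.C9 Ψ) ν D E BTI.c9 d := by
  intro K hK hK1 A B hA hB
  have := H.pr
  have hσ : ‖(BTI.C9 Ψ).σ (mo (BTI.C9 Ψ) ν D E)‖ ≤ 3 / 8 := by
    show ‖3 / 2 * mo (BTI.C9 Ψ) ν D E 0‖ ≤ 3 / 8
    rw [norm_mul]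
    have h3 := H.h3
    have : ‖(3 / 2 : ℂ)‖ = 3 / 2 := by norm_num
    rw [this]
    linarith
  obtain ⟨a, b⟩ := AB_le H.hE hK1 hσ hA hB
  have hx : ∀ t, ‖(D t : ℂ)‖ ≤ 31 / 50 := fun t => by
    rw [Complex.norm_real]
    exact H.hx t
  have k3 := hk_le (ν := ν) hK1 (fun t => E t ^ 3) 1 zero_le_one fun t => by rw [norm_pow, H.hE, one_pow]
  have k2 := hk_le (ν := ν) hK1 (fun t => (D t : ℂ) * E t ^ 2) (31 / 50) (by norm_num) fun t => by
    rw [norm_mul, norm_pow, H.hE, one_pow, mul_one]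
    exact hx t
  have k0 := hk_le (ν := ν) hK1 (fun t => (D t : ℂ)) (31 / 50) (by norm_num) hx
  refine ⟨fun i => H.ph_le hK1 a b i, fun q => ?_⟩
  exact hΨ _ A B _ _ _ _ _ H.h3 H.m3 H.m4 H.m5 a b (BTI.nm H.h3 H.m1 a b k3.2).1 (BTI.nm H.h3 H.m1 a b k3.1).2
    (BTI.sr H.h3 H.m4 H.m5 a b k2.2).1 (BTI.sr H.h3 H.m4 H.m5 a b k2.1).2 k0.1 q

/-- the class `CH` -/
theorem aprH {Ψ : BU.PsiH Q} (H : BU.Sml Ψ ν D E) {d : Q → ℝ} (hΨ : BU.PsiLe Ψ d) :
    Apr (BU.CH Ψ) ν D E BU.cH d := by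
  intro K hK hK1 A B hA hB
  have := H.pr
  have hσ : ‖(BU.CH Ψ).σ (mo (BU.CH Ψ) ν D E)‖ ≤ 3 / 8 := by
    show ‖3 / 2 * mo (BU.CH Ψ) ν D E 0‖ ≤ 3 / 8
    rw [norm_mul]
    have h3 := H.h3
    have : ‖(3 / 2 : ℂ)‖ = 3 / 2 := by norm_num
    rw [this]
    linarith
  obtain ⟨a, b⟩ := AB_le H.hE hK1 hσ hA hB
  have hx : ∀ t, ‖(D t : ℂ)‖ ≤ 31 / 50 := fun t => by
    rw [Complex.norm_real]
    exact H.hx t
  have k3 := hk_le (ν := ν) hK1 (fun t => E t ^ 3) 1 zero_le_one fun t => by rw [norm_pow, H.hE, one_pow]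
  have k2 := hk_le (ν := ν) hK1 (fun t => (D t : ℂ) * E t ^ 2) (31 / 50) (by norm_num) fun t => by
    rw [norm_mul, norm_pow, H.hE, one_pow, mul_one]
    exact hx t
  have k0 := hk_le (ν := ν) hK1 (fun t => (D t : ℂ)) (31 / 50) (by norm_num) hx
  have k5 := hk_le (ν := ν) hK1 (fun t => E t ^ 5) 1 zero_le_one fun t => by rw [norm_pow, H.hE, one_pow]
  refine ⟨fun i => H.ph_le hK1 a b i, fun q => ?_⟩
  exact hΨ _ A B _ _ _ _ _ _ _ H.h3 H.m1 H.m2 H.m3 H.m4 H.m5 a b (BU.nm H.h3 H.m1 a b k3.2).1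
    (BU.nm H.h3 H.m1 a b k3.1).2 (BU.sr H.h3 H.m4 H.m5 a b k2.2).1 (BU.sr H.h3 H.m4 H.m5 a b k2.1).2 k0.1
    (BU.nm5 H.h3 H.m1 H.m2 a b k5.2).1 (BU.nm5 H.h3 H.m1 H.m2 a b k5.1).2 q

/-- the class `CZ` -/
theorem aprZ {Ψ : BV.PsiZ Q} (H : BV.Sml Ψ ν D E) {d : Q → ℝ} (hΨ : BV.PsiLe Ψ d) :
    Apr (BV.CZ Ψ) ν D E BV.cZ d := by
  intro K hK hK1 A B hA hB
  have := H.pr
  have hσ : ‖(BV.CZ Ψ).σ (mo (BV.CZ Ψ) ν D E)‖ ≤ 3 / 8 := by
    show ‖3 / 2 * mo (BV.CZ Ψ) ν D E 0‖ ≤ 3 / 8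
    rw [norm_mul]
    have h3 := H.h3
    have : ‖(3 / 2 : ℂ)‖ = 3 / 2 := by norm_num
    rw [this]
    linarith
  obtain ⟨a, b⟩ := AB_le H.hE hK1 hσ hA hB
  have hx : ∀ t, ‖(D t : ℂ)‖ ≤ 31 / 50 := fun t => by
    rw [Complex.norm_real]
    exact H.hx t
  have k3 := hk_le (ν := ν) hK1 (fun t => E t ^ 3) 1 zero_le_one fun t => by rw [norm_pow, H.hE, one_pow]
  have k2 := hk_le (ν := ν) hK1 (fun t => (D t : ℂ) * E t ^ 2) (31 / 50) (by norm_num) fun t => by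
    rw [norm_mul, norm_pow, H.hE, one_pow, mul_one]
    exact hx t
  have k0 := hk_le (ν := ν) hK1 (fun t => (D t : ℂ)) (31 / 50) (by norm_num) hx
  have k5 := hk_le (ν := ν) hK1 (fun t => E t ^ 5) 1 zero_le_one fun t => by rw [norm_pow, H.hE, one_pow]
  have k4 := hk_le (ν := ν) hK1 (fun t => (D t : ℂ) * E t ^ 4) (31 / 50) (by norm_num) fun t => by
    rw [norm_mul, norm_pow, H.hE, one_pow, mul_one]
    exact hx t
  refine ⟨fun i => H.ph_le hK1 a b i, fun q => ?_⟩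
  exact hΨ _ A B _ _ _ _ _ _ _ _ _ H.h3 H.m1 H.m2 H.m3 H.m4 H.m5 H.m6 a b (BV.nm H.h3 H.m1 a b k3.2).1
    (BV.nm H.h3 H.m1 a b k3.1).2 (BV.sr H.h3 H.m4 H.m5 a b k2.2).1 (BV.sr H.h3 H.m4 H.m5 a b k2.1).2 k0.1
    (BV.nm5 H.h3 H.m1 H.m2 a b k5.2).1 (BV.nm5 H.h3 H.m1 H.m2 a b k5.1).2
    (BV.sr4 H.h3 H.m1 H.m4 H.m5 H.m6 a b k4.2).1 (BV.sr4 H.h3 H.m1 H.m4 H.m5 H.m6 a b k4.1).2 q

end

/-! ### certificates for the states of the class `St s'` -/

section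

variable {J L Q I : Type} [Fintype J] [Fintype L] [Fintype I] [Fintype Q] {C : Cls J L I Q} {f : ℝ → ℝ}

/-- **a control point**: the certificate for all states of the class `St s'` with the property `P` and all remainders
admitted by `TA` gives the certificate at the state of a real `f` -/
theorem ctl_of {s' : ℝ} (hf : Re f) (hs' : X1 f ≤ s') (h1 : s' ≤ 1) {P : (ℝ → ℝ) → Prop}
    (hP : P (Xa (X1 f) f)) {TA : (ℝ → ℝ) → ℂ → Prop} {τ : ℂ} (hT : TA (Xa (X1 f) f) τ) {v : I → ℝ}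
    {u : ℂ → Q → ℝ} {μ : ℝ} (h : ∀ X, St s' X → (∀ a, |X a| ≤ 31 / 50 * s') → P X → ∀ τ, TA X τ →
      BTG.RW C va X e1 v (u τ) μ 1) : BTG.NC C (nf f) (xT f) (ef f) v (u τ) μ 1 := by
  have hS := (ALY.st hf.hf hf.h0 hf.h2).mono hf.h0 hs' h1
  have hb : ∀ a, |Xa (X1 f) f a| ≤ 31 / 50 * s' := fun a => (BTN.Xa_bd hf.hf hf.h0 hf.h2 a).trans (by linarith)
  exact BTG.NC_of_RW (BTG.sta hf.hf hf.h0 hf.h2)
    (BTG.RW_tr hf.hf hf.h0 hf.h2 (h _ hS hb hP _ hT))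

end

end Pool.Agent.FPX.CEL
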