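import Mathlib
import Pool.Agent.FPX.CEY
import Pool.Agent.FPX.ASL

/-
CEZ (helper11): one latitude cell of the certificate `CertZ` (OMZ), any start map given by a list of terms (`SM`),
Bernstein polynomials of any degree, remainders of the start map admitted by an arbitrary predicate.
-/

open MeasureTheory Set Filter Topology Complex
open scoped ComplexConjugate

noncomputable section

set_option linter.unusedSectionVars false
set_option linter.unusedSimpArgs false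

namespace Pool.Agent.FPX.CEL

open Pool.Agent.FPX.BTQ
open Pool.Agent.FPX.BTG (Sta Cls mo aK bK dev)
open Pool.Agent.FPX.ALX
open Pool.Agent.FPX.BTN (va e1 nf ef PolR pa pg)
open Pool.Agent.FPX.F54 (X1 X2)
open Pool.Agent.FPX.OMS (cF)
open Pool.Agent.FPX.CERQ (xT)
open Pool.Agent.FPX.OMR (Re)
open Pool.Agent.FPX.BU (PolH ph)
open Pool.Agent.FPX.BV (CZ PsiZ PsiLe Dev7 DevLe7 devK7 cZ)
open Pool.Agent.FPX.OMY (CertAtZ)

/-- the weights of the components of the vector, `cZ` -/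
def cZq : Fin 29 → ℚ :=
  ![3, 1, 1, 8, 1, 15, 1, 3, 4, 4, 7, 50, 1, 8, 6, 11, 9, 9, 18, 1, 2, 9, 1, 210, 1, 41, 7, 11, 1]

theorem cZq_eq (i : Fin 29) : ((cZq i : ℚ) : ℝ) = cZ i := by
  fin_cases i <;> simp [cZq, cZ]

theorem cZq_nonneg (i : Fin 29) : 0 ≤ cZq i := by
  revert i
  decide

/-! ### the conditions at the pole -/

/-- the check of the conditions `PolH` on `(a, b]`, `0 ≤ a` -/
def chkRH (A G J R : List ℚ) (a b η : ℚ) (n : ℕ) : Bool :=
  chkR A G R a b η n && (BTS.nnb (psm (-1) J) a b n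
    && BTS.nnb (padd [η] (psm ((31 / 50) ^ 2) (pmul (BTS.one_sub R) J))) a b n)

theorem polH_of' {A G J R : List ℚ} {a b η : ℚ} {n : ℕ} (hab : a < b) (H : chkRH A G J R a b η n = true)
    {F : OMG.CofH} {s c : ℝ} (hc : c ∈ Icc (a : ℝ) b) (hc0 : 0 < c) (hs : s ^ 2 = 1 - c ^ 2)
    (hA : pe A c = c ^ 2 * pa F.F.C s c) (hG : pe G c = c ^ 2 * (pa F.F.C s c + 2 * pg F.F.C s c))
    (hJ : pe J c = c ^ 2 * (pa F.F.C s c + 2 * ph F s c)) : PolH F η (pe R c) s c := by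
  unfold chkRH at H
  simp only [Bool.and_eq_true] at H
  obtain ⟨H, h1, h2⟩ := H
  have P := polR_of' hab H hc hc0 hs hA hG
  have hc2 : 0 < c ^ 2 := by positivity
  have k1 := BTS.nnb_sound n hab h1 hc
  have k2 := BTS.nnb_sound n hab h2 hc
  rw [pe_psm, hJ] at k1
  rw [pe_padd, pe_psm, pe_pmul, BTS.pe_one_sub, hJ] at k2
  simp only [pe_cons, pe_nil] at k2
  push_cast at k1 k2
  have p1 : pa F.F.C s c + 2 * ph F s c ≤ 0 := by
    by_contra hcon
    push Not at hcon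
    nlinarith [mul_pos hc2 hcon]
  exact ⟨P, p1, by rw [hs]; linarith⟩

/-! ### the start map -/

/-- **a start map given by a list of terms**: the deviation `Bx` is bounded by the terms `Ψ` (with the bounds `d`) with
coefficients polynomial in `c` (the lists `S`) except for the remainder `τ` in the components `i`, `j` -/
structure SM {N : ℕ} (Ψ : PsiZ (Fin N)) (d : Fin N → ℚ) (S : Fin N → List ℚ) (Bx : Dev7) (i j : Fin N)
    (τ : (ℝ → ℝ) → ℂ) : Prop where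
  le : PsiLe Ψ fun q => (d q : ℝ)
  d0 : ∀ q, 0 ≤ d q
  dev : ∀ f, Re f → ∃ u : Fin N → ℝ, DevLe7 Bx Ψ u f ∧ (∀ q, q ≠ i → q ≠ j → u q = pe (S q) (cF f)) ∧
    u i = (τ f).re ∧ (i ≠ j → u j = (τ f).im)

/-! ### the cell -/

/-- **the data of a latitude cell**: the interval `[a, b]` of `c`, the scale `r`, the price `ε` of Young's inequality, the
weight `w`, the substitute `R` of `1 / s²` with the price `η`, the number `n` of bisections, the control vectors -/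
structure CellZ (m N : ℕ) where
  a : ℚ
  b : ℚ
  r : ℚ
  ε : ℚ
  w : List ℚ
  R : List ℚ
  η : ℚ
  n : ℕ
  V : Fin (m + 1) → Fin 29 → ℚ
  U : Fin (m + 1) → Fin N → ℚ

section

variable {m N : ℕ} {Ψ : PsiZ (Fin N)} {d : Fin N → ℚ} {S : Fin N → List ℚ} {Bx : Dev7} {i j : Fin N}
  {τ : (ℝ → ℝ) → ℂ} {D : DatZ} {C : CellZ m N}

/-- the total error of the cell -/
def CellZ.err (D : DatZ) (S : Fin N → List ℚ) (d : Fin N → ℚ) (C : CellZ m N) (μ : ℚ) : ℚ :=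
  errY (D.vz C.w C.R C.η) S C.a C.b C.r μ C.ε C.V C.U cZq d

/-- **the check of a cell** -/
def CellZ.ok (D : DatZ) (S : Fin N → List ℚ) (d : Fin N → ℚ) (C : CellZ m N) (μ T : ℚ) : Bool :=
  decide (0 ≤ C.a) && (decide (C.a < C.b) && (decide (0 < C.r) && (decide (0 < μ) && (decide (0 < C.ε)
    && (decide (C.r + C.err D S d μ ≤ T) && chkRH D.pA (padd D.pA (psm 2 D.pG)) (padd D.pA (psm 2 D.pJ))
      C.R C.a C.b C.η C.n)))))

/-- the parameter `μ` at the control points -/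
def CellZ.mu (C : CellZ m N) (μ : ℚ) : ℚ := μ * (1 + C.ε) / C.r

/-- **one latitude cell**: the certificate from the certificates at the control vectors -/
theorem cellZ_NC (HS : SM Ψ d S Bx i j τ) {μ T : ℚ} (H : C.ok D S d μ T = true) {W : ℝ → ℝ} {f : ℝ → ℝ}
    (hf : Re f) (hc : cF f ∈ Icc (C.a : ℝ) C.b)
    (hW : 2 * cF f * W (cF f) - X1 f ^ 2 * deriv W (cF f) = pe C.w (cF f))
    (h : ∀ l : Fin (m + 1), BTG.NC (CZ Ψ) (nf f) (xT f) (ef f) (fun i => ((C.V l i : ℚ) : ℝ))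
      (uG i j (fun q => ((C.U l q : ℚ) : ℝ)) (τ f)) ((C.mu μ : ℚ) : ℝ) 1) :
    CertAtZ (devK7 Bx) W D.cofZ μ T f := by
  unfold CellZ.ok at H
  simp only [Bool.and_eq_true, decide_eq_true_eq] at H
  obtain ⟨_ha, hab, hr, hμ, hε, hT, hP⟩ := H
  have hc0 := hf.c0
  have hs : X1 f ^ 2 = 1 - cF f ^ 2 := by
    have := hf.c2
    linarith
  have hμ' : (0 : ℝ) < μ := by exact_mod_cast hμ
  have hpol : PolH D.cofZ.H C.η (pe C.R (cF f)) (X1 f) (cF f) := by
    have hA : pe D.pA (cF f) = cF f ^ 2 * pa D.cofZ.H.F.C (X1 f) (cF f) := pA_eq (D := D.toDat) hc0 hs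
    have hG : pe D.pG (cF f) = cF f ^ 2 * pg D.cofZ.H.F.C (X1 f) (cF f) := pG_eq (D := D.toDat) hc0 hs
    have hJ : pe D.pJ (cF f) = cF f ^ 2 * ph D.cofZ.H (X1 f) (cF f) := pJ_eq (D := D.toDatH) hc0 hs
    refine polH_of' hab hP hc hc0 hs hA ?_ ?_
    · rw [pe_padd, pe_psm, hA, hG]
      push_cast
      ring
    · rw [pe_padd, pe_psm, hA, hJ]
      push_cast
      ring
  obtain ⟨u, hD, hu, hui, huj⟩ := HS.dev f hf
  have hapr : Apr (CZ Ψ) (nf f) (xT f) (ef f) (fun i => (cZq i : ℝ)) fun q => (d q : ℝ) := by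
    have := aprZ (BV.sml (Ψ := Ψ) hf.hf hf.h0 hf.h2) HS.le
    have e : (fun i => ((cZq i : ℚ) : ℝ)) = cZ := funext cZq_eq
    rw [e]
    exact this
  have h1 := gen_cell (BTG.sta hf.hf hf.h0 hf.h2) cZq_nonneg HS.d0 hapr (P := D.vz C.w C.R C.η) (S := S)
    hab hr hμ hε hc h (fun i => vz_eq (η := C.η) hc0 hs hW i) hu hui huj
  have h2 := BV.certAtZX_of_NCR hμ'.le hf hpol hD h1
  intro K hK hK1 A B hA hB
  refine (h2 K hK hK1 A B hA hB).trans ?_
  exact_mod_cast hT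

/-- **the certificate at a control vector for all states of the class `St s'`** and all remainders admitted by `TA` -/
def CtlZ (Ψ : PsiZ (Fin N)) (i j : Fin N) (TA : (ℝ → ℝ) → ℂ → Prop) (s' μ : ℚ) (V : Fin 29 → ℚ) (U : Fin N → ℚ) :
    Prop :=
  ∀ X, St (s' : ℝ) X → (∀ a, |X a| ≤ 31 / 50 * (s' : ℝ)) → ∀ t : ℂ, TA X t →
    BTG.RW (CZ Ψ) va X e1 (fun i => ((V i : ℚ) : ℝ)) (uG i j (fun q => ((U q : ℚ) : ℝ)) t) (μ : ℝ) 1

/-- a smaller class -/
theorem CtlZ.mono {TA TA' : (ℝ → ℝ) → ℂ → Prop} {s' s'' μ : ℚ} {V : Fin 29 → ℚ} {U : Fin N → ℚ}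
    (H : CtlZ Ψ i j TA s' μ V U) (h0 : 0 ≤ s'') (hs : s'' ≤ s') (h1 : s' ≤ 1) (hT : ∀ X t, TA' X t → TA X t) :
    CtlZ Ψ i j TA' s'' μ V U := by
  intro X hX hb t ht
  have hs' : (s'' : ℝ) ≤ s' := by exact_mod_cast hs
  have h0' : (0 : ℝ) ≤ s'' := by exact_mod_cast h0
  have h1' : (s' : ℝ) ≤ 1 := by exact_mod_cast h1
  exact H X (hX.mono h0' hs' h1') (fun a => (hb a).trans (by linarith)) t (hT X t ht)

/-- **the cell theorem** -/
theorem cellG (HS : SM Ψ d S Bx i j τ) {μ T s' : ℚ} (hC : C.ok D S d μ T = true) {TA : (ℝ → ℝ) → ℂ → Prop}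
    (hT : ∀ f, Re f → (C.a : ℝ) ≤ cF f → cF f ≤ (C.b : ℝ) → TA (Xa (X1 f) f) (τ f)) (h0 : 0 ≤ s') (h1 : s' ≤ 1)
    (hs : 1 - C.a ^ 2 ≤ s' ^ 2) (H : ∀ l : Fin (m + 1), CtlZ Ψ i j TA s' (C.mu μ) (C.V l) (C.U l)) :
    ASL.CellG (fun W f => CertAtZ (devK7 Bx) W D.cofZ μ T f) C.a C.b C.w := by
  intro W hW f R ha hb
  have ha0 : (0 : ℚ) ≤ C.a := by
    unfold CellZ.ok at hC
    simp only [Bool.and_eq_true, decide_eq_true_eq] at hC
    exact hC.1
  have hs2 : (1 : ℝ) - (C.a : ℝ) ^ 2 ≤ (s' : ℝ) ^ 2 := by exact_mod_cast hs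
  have hle : X1 f ≤ (s' : ℝ) := ASM.s_le R (by exact_mod_cast ha0) ha (by exact_mod_cast h0) hs2
  have hs : X1 f ^ 2 = 1 - cF f ^ 2 := by
    have := R.c2
    linarith
  refine cellZ_NC HS hC R ⟨ha, hb⟩ ?_ fun l => ?_
  · rw [hs]
    exact hW _ R.c0 ha hb
  · exact ctl_of (P := fun _ => True) (u := fun t => uG i j (fun q => ((C.U l q : ℚ) : ℝ)) t) R hle
      (by exact_mod_cast h1) trivial (hT f R ha hb) fun X hX hX1 _ t ht => H l X hX hX1 t ht

end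

end Pool.Agent.FPX.CEL
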