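import Mathlib
import Pool.Agent.FPX.XIQ
import Pool.Agent.FPX.XIP9
import Pool.Agent.FPX.BU3

/-
XIR (helper47): the deviation of the stereographic start map with twelve terms: rotation covariance, real frame
(`Psi12` and the class `CH` of helper15, `xi12` of helper22), bound of the remainder.
-/

open MeasureTheory Set Filter Topology Complex
open scoped ENNReal NNReal ContDiff ComplexConjugate

noncomputable section

namespace Pool.Agent.FPX.XIP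

open Pool.Agent.FPX Pool.Agent.FPX.UMP Pool.Agent.FPX.UMQ Pool.Agent.FPX.UXA Pool.Agent.EWD
open Pool.Agent.FPX.F54 (X1 X2 X_lt sF)
open Pool.Agent.FPX.S54 (YY de)
open Pool.Agent.FPX.OMB (vm)
open Pool.Agent.FPX.OMS (rF cF cF_eq)
open Pool.Agent.FPX.SYS (CE)
open Pool.Agent.FPX.OM7 (Rot RotDev RotK Dev Cp Cm Sp Sm pe)
open Pool.Agent.FPX.OMG (DevK Cp5 Cm5 D7)
open Pool.Agent.FPX.XIM (zf cf cf_pos xi8 q8 g8 dxi8 xi12 q12 x4)

/-! ### rotations -/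

section Rot12

variable {f f' : ℝ → ℝ} {φ r : ℝ} {u : ℂ}

theorem rot_q12 (R : Rot f f' φ r u) (μ : Fin 4 → ℝ → ℝ) : q12 μ f = u * q12 μ f' := by
  have hu := rot_u0 R
  unfold q12
  rw [R.ce 3, R.ce 5]
  simp only [rot_g8 R, map_pow, map_mul, rot_cu R]
  field_simp

theorem rot_x4 (R : Rot f f' φ r u) (μ : Fin 4 → ℝ → ℝ) : x4 μ f = u * x4 μ f' := by
  have hu := rot_u0 R
  have hc : (cf f' : ℂ) ≠ 0 := Complex.ofReal_ne_zero.2 (cf_pos R.hf').ne'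
  unfold x4
  rw [rot_q12 R, R.ce 5, rot_cf R]
  simp only [rot_g8 R, map_pow, map_mul, rot_cu R]
  field_simp

theorem rot_xi12 (R : Rot f f' φ r u) (κ : Fin 8 → ℝ → ℝ) (μ : Fin 4 → ℝ → ℝ) :
    xi12 κ μ f = u * xi12 κ μ f' := by
  unfold xi12
  rw [rot_xi8 R, rot_x4 R]
  ring

theorem rot_l12 (R : Rot f f' φ r u) (κ κ' : Fin 8 → ℝ → ℝ) (μ μ' : Fin 4 → ℝ → ℝ) :
    l12 κ κ' μ μ' f 0 = l12 κ κ' μ μ' f' 0 ∧ l12 κ κ' μ μ' f 1 = u ^ 2 * l12 κ κ' μ μ' f' 1 ∧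
      l12 κ κ' μ μ' f 2 = u⁻¹ ^ 2 * l12 κ κ' μ μ' f' 2 ∧ l12 κ κ' μ μ' f 3 = u ^ 4 * l12 κ κ' μ μ' f' 3 ∧
      l12 κ κ' μ μ' f 4 = u⁻¹ * l12 κ κ' μ μ' f' 4 ∧ l12 κ κ' μ μ' f 5 = u ^ 3 * l12 κ κ' μ μ' f' 5 ∧
      l12 κ κ' μ μ' f 6 = u * l12 κ κ' μ μ' f' 6 ∧ l12 κ κ' μ μ' f 7 = u⁻¹ ^ 4 * l12 κ κ' μ μ' f' 7 ∧
      l12 κ κ' μ μ' f 8 = u ^ 6 * l12 κ κ' μ μ' f' 8 := by
  have hu := rot_u0 R
  have hc : (cf f' : ℂ) ≠ 0 := Complex.ofReal_ne_zero.2 (cf_pos R.hf').ne'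
  obtain ⟨h0, h1, h2, h3, h4, h5, h6⟩ := rot_l8 R κ κ'
  unfold l12
  simp only [Matrix.cons_val_zero, Matrix.cons_val_one, Matrix.cons_val]
  rw [h0, h1, h2, h3, h4, h5, h6, rot_q12 R, R.ce 3, R.ce 5, rot_cf R, rot_zf R]
  simp only [rot_g8 R, rot_gv8 R, rot_gw8 R, map_pow, map_mul, rot_cu R, Nat.reduceAdd, zero_add, inv_pow]
  refine ⟨?_, ?_, ?_, ?_, ?_, ?_, ?_, ?_, ?_⟩ <;> first | exact trivial | field_simp

theorem rot_Nm9 (R : Rot f f' φ r u) (κ κ' : Fin 8 → ℝ → ℝ) (μ μ' : Fin 4 → ℝ → ℝ)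
    (A B N M S T D P O : ℂ) : Nm9 (l12 κ κ' μ μ') f (u * A) (u * B) (u ^ 3 * N) (u ^ 3 * M) (u ^ 2 * S)
      (u ^ 2 * T) D (u ^ 5 * P) (u ^ 5 * O) = u * Nm9 (l12 κ κ' μ μ') f' A B N M S T D P O := by
  have hu := rot_u0 R
  obtain ⟨h0, h1, h2, h3, h4, h5, h6, h7, h8⟩ := rot_l12 R κ κ' μ μ'
  unfold Nm9 L9
  rw [h0, h1, h2, h3, h4, h5, h6, h7, h8]
  simp only [map_pow, map_mul, rot_cu R]
  field_simp

theorem rot_e3 (R : Rot f f' φ r u) : OMG.E3 f = u ^ 4 * OMG.E3 f' := by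
  unfold OMG.E3
  rw [R.ze, R.ce 3, R.cc]
  ring

theorem rot_cp5 (R : Rot f f' φ r u) (A B V : ℂ) : Cp5 f (u * A) (u * B) (u ^ 5 * V) = u ^ 5 * Cp5 f' A B V := by
  have hu := rot_u0 R
  have hc : (cF f' : ℂ) ≠ 0 := Complex.ofReal_ne_zero.2 (OM7.cF_pos R.hf').ne'
  unfold Cp5
  rw [rot_e3 R, R.d7, R.ze, R.ce 5, R.cc]
  simp only [map_mul, rot_cu R]
  field_simp

theorem rot_cm5 (R : Rot f f' φ r u) (A B V : ℂ) : Cm5 f (u * A) (u * B) (u ^ 5 * V) = u ^ 5 * Cm5 f' A B V := by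
  have hu := rot_u0 R
  have hc : (cF f' : ℂ) ≠ 0 := Complex.ofReal_ne_zero.2 (OM7.cF_pos R.hf').ne'
  unfold Cm5
  rw [rot_e3 R, R.d7, R.ze, R.ce 5, R.cc]
  simp only [map_mul, rot_cu R]
  field_simp

/-- **rotation covariance of the deviation of the stereographic map of `xi12`** -/
theorem rotK_B12 (κ κ' : Fin 8 → ℝ → ℝ) (μ μ' : Fin 4 → ℝ → ℝ) : RotK (Bk12 κ κ' μ μ') := by
  intro f f' φ r u R K hK hK1 A B
  have hu := rot_u0 R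
  have gn : ∀ n : ℕ, ∀ t, C54.ep (X1 f) (X2 f) (t + 2 * Real.pi) ^ n = C54.ep (X1 f) (X2 f) t ^ n :=
    fun n t => by rw [CERQ.ep_per]
  have gn' : ∀ n : ℕ, ∀ t, C54.ep (X1 f) (X2 f) (t + φ) ^ n = u ^ n * C54.ep (X1 f') (X2 f') t ^ n :=
    fun n t => by rw [R.ee, mul_pow]
  have g2 : ∀ t, (de (X1 f) (X2 f) f (t + 2 * Real.pi) : ℂ) * C54.ep (X1 f) (X2 f) (t + 2 * Real.pi) ^ 2 =
      (de (X1 f) (X2 f) f t : ℂ) * C54.ep (X1 f) (X2 f) t ^ 2 := fun t => by rw [CERQ.ep_per, R.dper]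
  have g2' : ∀ t, (de (X1 f) (X2 f) f (t + φ) : ℂ) * C54.ep (X1 f) (X2 f) (t + φ) ^ 2 =
      u ^ 2 * ((de (X1 f') (X2 f') f' t : ℂ) * C54.ep (X1 f') (X2 f') t ^ 2) := fun t => by
    rw [R.ee, R.dd, mul_pow]
    ring
  have g1 : ∀ t, (de (X1 f) (X2 f) f (t + 2 * Real.pi) : ℂ) = (de (X1 f) (X2 f) f t : ℂ) := fun t => by
    rw [R.dper]
  have g1' : ∀ t, (de (X1 f) (X2 f) f (t + φ) : ℂ) = 1 * (de (X1 f') (X2 f') f' t : ℂ) := fun t => by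
    rw [R.dd, one_mul]
  unfold Bk12 BstK at9 Bst9
  rw [R.itc (G := fun t => C54.ep (X1 f) (X2 f) t ^ 3) (gn 3) (gn' 3),
    R.it (G := fun t => C54.ep (X1 f) (X2 f) t ^ 3) (gn 3) (gn' 3),
    R.itc (G := fun t => (de (X1 f) (X2 f) f t : ℂ) * C54.ep (X1 f) (X2 f) t ^ 2) g2 g2',
    R.it (G := fun t => (de (X1 f) (X2 f) f t : ℂ) * C54.ep (X1 f) (X2 f) t ^ 2) g2 g2',
    R.it (G := fun t => (de (X1 f) (X2 f) f t : ℂ)) g1 g1',
    R.itc (G := fun t => C54.ep (X1 f) (X2 f) t ^ 5) (gn 5) (gn' 5),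
    R.it (G := fun t => C54.ep (X1 f) (X2 f) t ^ 5) (gn 5) (gn' 5), R.cp, R.cm, R.sp, R.sm, one_mul,
    rot_cp5 R, rot_cm5 R, rot_Nm9 R, rot_xi12 R]
  have e : qp (u * xi12 κ μ f') = qp (xi12 κ μ f') := by
    unfold qp
    rw [map_mul, Complex.normSq_eq_norm_sq u, R.un, one_pow, one_mul]
  have e2 : (u * xi12 κ μ f') ^ 2 / 4 * conj (u * A) = u * (xi12 κ μ f' ^ 2 / 4 * conj A) := by
    rw [map_mul, rot_cu R]
    field_simp
  have e3 : ∀ x y z q : ℂ, (u * x + u * y + u * z) / q = u * ((x + y + z) / q) := fun x y z q => by ring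
  rw [e, e2, e3, R.nn1]

end Rot12

end Pool.Agent.FPX.XIP

namespace Pool.Agent.FPX.BU

open Pool.Agent.FPX.BTG (Sta Cls mo aK bK dev)
open Pool.Agent.FPX.BTN (va e1 nf ef bw)
open Pool.Agent.FPX.UMP (Ef)
open Pool.Agent.FPX.UMQ
open Pool.Agent.FPX.F54 (X1 X2 X_lt)
open Pool.Agent.FPX.OMS (rF cF cF_eq)
open Pool.Agent.FPX.CERQ (xT)
open Pool.Agent.FPX.SYS (CE)
open Pool.Agent.FPX.OMR (Re)
open Pool.Agent.FPX.XIM (zf cf cf_pos xi8 q8 g8 xi12 x4 q12)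
open Pool.Agent.FPX.XIP
open Pool.Agent.FPX.BTI (kap dkap u8 Mm)

/-- the coefficients `μ_j`: `μ₃` is divisible by `s² = 1 - c²` -/
def mup (n : Fin 4 → ℝ → ℝ) : Fin 4 → ℝ → ℝ := ![n 0, n 1, n 2, fun c => (1 - c ^ 2) * n 3 c]

/-- their derivatives -/
def dmup (n n' : Fin 4 → ℝ → ℝ) : Fin 4 → ℝ → ℝ :=
  ![n' 0, n' 1, n' 2, fun c => (1 - c ^ 2) * n' 3 c - 2 * c * n 3 c]

/-- the coefficients of the additional terms in the real frame (slots 28 - 41) -/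
def w14 (n n' : Fin 4 → ℝ → ℝ) (s c : ℝ) : Fin 14 → ℝ :=
  ![-(c * s ^ 4 * n' 0 c),
    -(c * s ^ 6 * n' 1 c) + 12 * c ^ 2 * s ^ 4 * n 1 c,
    -(2 * c * s ^ 2 * n' 2 c) + 12 * c ^ 2 * n 2 c + 2 * s ^ 2 * n 2 c,
    -(2 * c * s ^ 2 * n' 3 c) + 4 * c ^ 2 * n 3 c + 2 * s ^ 2 * n 3 c,
    -(c * s ^ 4 * n' 0 c) + 8 * c ^ 2 * s ^ 2 * n 0 c,
    -(c * s ^ 6 * n' 1 c),
    -(2 * c * s ^ 2 * n' 2 c) + 2 * s ^ 2 * n 2 c,
    -(2 * c * s ^ 2 * n' 3 c) + 8 * c ^ 2 * n 3 c + 2 * s ^ 2 * n 3 c,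
    2 * s ^ 2 * n 2 c,
    2 * s ^ 2 * n 3 c,
    s ^ 4 * n 0 c,
    2 * s ^ 2 * n 3 c,
    s ^ 6 * n 1 c,
    2 * s ^ 2 * n 2 c]

section

variable {f : ℝ → ℝ} {k k' : Fin 8 → ℝ → ℝ} {n n' : Fin 4 → ℝ → ℝ} {m : M9}

/-- the additional terms of the start map in the real frame -/
theorem re_x4 (H : Re f) (hs : 0 < X1 f) (E : Mm f m) (h5 : (X1 f : ℂ) * CE 5 f = 2 * cF f * m 1) :
    x4 (mup n) f = 2 * cF f * X1 f ^ 3 * n 0 (cF f) * m 1 + 2 * cF f * X1 f ^ 5 * n 1 (cF f) * conj (m 1)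
      + (4 * cF f * X1 f * n 2 (cF f) * (m 0 * conj (m 1)) + 4 * cF f * X1 f * n 3 (cF f) * (conj (m 0) * m 1)) := by
  have hz : (X1 f : ℂ) ≠ 0 := Complex.ofReal_ne_zero.2 hs.ne'
  have hc : (cF f : ℂ) ≠ 0 := H.cC
  have ec : cf f = cF f := cF_eq f
  have ez : zf f = (X1 f : ℂ) := H.zz
  have es : (1 : ℝ) - cF f ^ 2 = X1 f ^ 2 := by
    rw [H.c2]
    ring
  have e3 : CE 3 f = 2 * cF f / X1 f * m 0 := by
    rw [div_mul_eq_mul_div, eq_div_iff hz, mul_comm]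
    exact E.h3
  have e5 : CE 5 f = 2 * cF f / X1 f * m 1 := by
    rw [div_mul_eq_mul_div, eq_div_iff hz, mul_comm]
    exact h5
  unfold x4 q12 g8 mup
  simp only [Matrix.cons_val_zero, Matrix.cons_val_one, Matrix.cons_val]
  rw [ec, ez, e3, e5, es]
  simp only [map_mul, map_div₀, map_pow, Complex.conj_ofReal, map_ofNat]
  push_cast
  field_simp
  ring

/-- the coefficients of the covariant derivative in the real frame -/
theorem re_l12 (H : Re f) (hs : 0 < X1 f) (E : Mm f m) (h5 : (X1 f : ℂ) * CE 5 f = 2 * cF f * m 1) :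
    l12 (kap k) (dkap k k') (mup n) (dmup n n') f 0 = l8 (kap k) (dkap k k') f 0
        + ((w14 n n' (X1 f) (cF f) 0 : ℂ) * m 1 + (w14 n n' (X1 f) (cF f) 1 : ℂ) * conj (m 1)
          + (w14 n n' (X1 f) (cF f) 2 : ℂ) * (m 0 * conj (m 1))
          + (w14 n n' (X1 f) (cF f) 3 : ℂ) * (conj (m 0) * m 1)) ∧
      l12 (kap k) (dkap k k') (mup n) (dmup n n') f 1 = l8 (kap k) (dkap k k') f 1
        + ((w14 n n' (X1 f) (cF f) 4 : ℂ) * m 1 + (w14 n n' (X1 f) (cF f) 5 : ℂ) * conj (m 1)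
          + (w14 n n' (X1 f) (cF f) 6 : ℂ) * (m 0 * conj (m 1))
          + (w14 n n' (X1 f) (cF f) 7 : ℂ) * (conj (m 0) * m 1)) ∧
      l12 (kap k) (dkap k k') (mup n) (dmup n n') f 2 = l8 (kap k) (dkap k k') f 2
        + (w14 n n' (X1 f) (cF f) 8 : ℂ) * conj (m 1) ∧
      l12 (kap k) (dkap k k') (mup n) (dmup n n') f 3 = l8 (kap k) (dkap k k') f 3
        + (w14 n n' (X1 f) (cF f) 9 : ℂ) * m 1 ∧
      l12 (kap k) (dkap k k') (mup n) (dmup n n') f 7 = (w14 n n' (X1 f) (cF f) 10 : ℂ)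
        + (w14 n n' (X1 f) (cF f) 11 : ℂ) * conj (m 0) ∧
      l12 (kap k) (dkap k k') (mup n) (dmup n n') f 8 = (w14 n n' (X1 f) (cF f) 12 : ℂ)
        + (w14 n n' (X1 f) (cF f) 13 : ℂ) * m 0 := by
  have hz : (X1 f : ℂ) ≠ 0 := Complex.ofReal_ne_zero.2 hs.ne'
  have hc : (cF f : ℂ) ≠ 0 := H.cC
  have ec : cf f = cF f := cF_eq f
  have ez : zf f = (X1 f : ℂ) := H.zz
  have es : (1 : ℝ) - cF f ^ 2 = X1 f ^ 2 := by
    rw [H.c2]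
    ring
  have e3 : CE 3 f = 2 * cF f / X1 f * m 0 := by
    rw [div_mul_eq_mul_div, eq_div_iff hz, mul_comm]
    exact E.h3
  have e5 : CE 5 f = 2 * cF f / X1 f * m 1 := by
    rw [div_mul_eq_mul_div, eq_div_iff hz, mul_comm]
    exact h5
  unfold l12 gv8 gw8 gv gw q12 g8 mup dmup w14
  simp only [Matrix.cons_val_zero, Matrix.cons_val_one, Matrix.cons_val]
  rw [ec, ez, e3, e5, es]
  simp only [map_mul, map_div₀, map_pow, Complex.conj_ofReal, map_ofNat, Nat.cast_zero, Nat.cast_one,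
    Nat.cast_ofNat, map_zero, map_one]
  generalize l8 (kap k) (dkap k k') f = l
  generalize n 0 (cF f) = k0
  generalize n 1 (cF f) = k1
  generalize n 2 (cF f) = k2
  generalize n 3 (cF f) = k3
  generalize n' 0 (cF f) = d0
  generalize n' 1 (cF f) = d1
  generalize n' 2 (cF f) = d2
  generalize n' 3 (cF f) = d3
  push_cast
  generalize (cF f : ℂ) = c at *
  generalize (X1 f : ℂ) = z at *
  generalize conj (m 0) = mb
  generalize m 0 = m0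
  generalize conj (m 1) = nb
  generalize m 1 = m1
  clear e3 e5 es ez ec E h5
  refine ⟨?_, ?_, ?_, ?_, ?_, ?_⟩ <;> (field_simp; try ring)

/-- the pole: the additional coefficients vanish -/
theorem z_l12 (H : Re f) (h : X1 f = 0) : xi12 (kap k) (mup n) f = 0 ∧
    ∀ i, l12 (kap k) (dkap k k') (mup n) (dmup n n') f i = 0 := by
  obtain ⟨hx, hl⟩ := BTI.z_l8 (k := k) (k' := k') H h
  have ec : cf f = cF f := cF_eq f
  have ez : zf f = 0 := by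
    have e : zf f = (X1 f : ℂ) := H.zz
    rw [e, h, Complex.ofReal_zero]
  have es : (1 : ℝ) - cF f ^ 2 = 0 := by
    rw [H.c2, h]
    ring
  constructor
  · unfold xi12 x4 q12 g8 mup
    simp only [Matrix.cons_val_zero, Matrix.cons_val_one, Matrix.cons_val]
    rw [hx, ec, ez, es]
    simp
  · intro i
    unfold l12 gv8 gw8 gv gw q12 g8 mup dmup
    fin_cases i <;>
      simp [ec, ez, es, hl]

end


/-- **the coefficients of the deviation of `xi12` in the real frame** -/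
def u12 (k k' : Fin 8 → ℝ → ℝ) (n n' : Fin 4 → ℝ → ℝ) (s c : ℝ) (τ : ℂ) : Fin 42 → ℝ :=
  ![u8 k k' s c τ 0, u8 k k' s c τ 1, u8 k k' s c τ 2, u8 k k' s c τ 3, u8 k k' s c τ 4, u8 k k' s c τ 5,
    u8 k k' s c τ 6, u8 k k' s c τ 7, u8 k k' s c τ 8, u8 k k' s c τ 9, u8 k k' s c τ 10, u8 k k' s c τ 11,
    u8 k k' s c τ 12, u8 k k' s c τ 13, u8 k k' s c τ 14, u8 k k' s c τ 15, u8 k k' s c τ 16, u8 k k' s c τ 17,
    u8 k k' s c τ 18, u8 k k' s c τ 19, u8 k k' s c τ 20, u8 k k' s c τ 21, u8 k k' s c τ 22, u8 k k' s c τ 23,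
    u8 k k' s c τ 24, u8 k k' s c τ 25, τ.re, τ.im,
    w14 n n' s c 0, w14 n n' s c 1, w14 n n' s c 2, w14 n n' s c 3, w14 n n' s c 4, w14 n n' s c 5,
    w14 n n' s c 6, w14 n n' s c 7, w14 n n' s c 8, w14 n n' s c 9, w14 n n' s c 10, w14 n n' s c 11,
    w14 n n' s c 12, w14 n n' s c 13]

/-- the remainder `ξ² / 4 - (c s κ₀)² r₃²` -/
def tau12 (k : Fin 8 → ℝ → ℝ) (n : Fin 4 → ℝ → ℝ) (f : ℝ → ℝ) (r3 : ℂ) : ℂ :=
  xi12 (kap k) (mup n) f ^ 2 / 4 - ((cF f * X1 f * k 0 (cF f) : ℝ) : ℂ) ^ 2 * r3 ^ 2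

theorem sum42 {M : Type*} [AddCommMonoid M] (f : Fin 42 → M) : ∑ i, f i =
    f 0 + (f 1 + (f 2 + (f 3 + (f 4 + (f 5 + (f 6 + (f 7 + (f 8 + (f 9 + (f 10 + (f 11 + (f 12 + (f 13
    + (f 14 + (f 15 + (f 16 + (f 17 + (f 18 + (f 19 + (f 20 + (f 21 + (f 22 + (f 23 + (f 24 + (f 25
    + (f 26 + (f 27 + (f 28 + (f 29 + (f 30 + (f 31 + (f 32 + (f 33 + (f 34 + (f 35 + (f 36 + (f 37
    + (f 38 + (f 39 + (f 40 + f 41)))))))))))))))))))))))))))))))))))))))) := by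
  simp only [Fin.sum_univ_succ, Fin.sum_univ_zero, add_zero]
  rfl

theorem nst9_le (ξ : (ℝ → ℝ) → ℂ) (l : (ℝ → ℝ) → Fin 9 → ℂ) (f : ℝ → ℝ) (A B N M S R D P O : ℂ) :
    ‖Bst9 ξ l f A B N M S R D P O‖ ≤ ‖B + Nm9 l f A B N M S R D P O + ξ f ^ 2 / 4 * conj A‖ := by
  unfold Bst9
  rw [norm_div, Complex.norm_real, Real.norm_eq_abs, abs_of_pos (qp_pos _)]
  refine div_le_self (norm_nonneg _) ?_
  have := Complex.normSq_nonneg (ξ f)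
  show (1 : ℝ) ≤ 1 + Complex.normSq (ξ f) / 4
  linarith

section

variable {f : ℝ → ℝ} {k k' : Fin 8 → ℝ → ℝ} {n n' : Fin 4 → ℝ → ℝ} {m : M9}

/-- the harmonics at a state, class `CH` -/
theorem mm_moH {Q : Type} [Fintype Q] (Ψ : PsiH Q) (H : Re f) : Mm f (mo (CH Ψ) (nf f) (xT f) (ef f)) ∧
    (X1 f : ℂ) * CE 5 f = 2 * cF f * mo (CH Ψ) (nf f) (xT f) (ef f) 1 := by
  refine ⟨BTI.mm_mo Ψ0 H, ?_⟩
  have h := H.c5
  rw [BTI.r5_eq (Ψ := Ψ0) H.hf H.h0 H.h2] at h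
  exact h

/-- **the deviation of the stereographic map of `xi12` in the real frame** -/
theorem devLe_B12 (H : Re f) (k k' : Fin 8 → ℝ → ℝ) (n n' : Fin 4 → ℝ → ℝ) :
    DevLe5 (Bst9 (xi12 (kap k) (mup n)) (l12 (kap k) (dkap k k') (mup n) (dmup n n'))) Psi12
      (u12 k k' n n' (X1 f) (cF f) (tau12 k n f (mo (CH Psi12) (nf f) (xT f) (ef f) 0))) f := by
  intro A B N M S R D P O
  obtain ⟨hE, h5⟩ := mm_moH Psi12 H
  set m := mo (CH Psi12) (nf f) (xT f) (ef f) with hm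
  set τ := tau12 k n f (m 0) with hτ
  refine (nst9_le _ _ _ _ _ _ _ _ _ _ _ _).trans (le_of_eq ?_)
  have eτ : ((τ.re : ℝ) : ℂ) * conj A + ((τ.im : ℝ) : ℂ) * (I * conj A) = τ * conj A := by
    have := Complex.re_add_im τ
    linear_combination conj A * this
  congr 1
  unfold devH
  rw [sum42]
  have u0 : u12 k k' n n' (X1 f) (cF f) τ 0 = 1 := rfl
  have u26 : u12 k k' n n' (X1 f) (cF f) τ 26 = τ.re := rfl
  have u27 : u12 k k' n n' (X1 f) (cF f) τ 27 = τ.im := rfl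
  rw [u0, u26, u27]
  unfold Nm9 L9
  simp only [Psi12, liH, BTI.Psi8, BTI.mn8, Matrix.cons_val_zero, Matrix.cons_val_one, Matrix.cons_val, map_mul,
    Complex.conj_ofReal, Complex.ofReal_one]
  rcases H.h0.lt_or_eq with hs | hs
  · obtain ⟨h0, h1, h2, h3, h4, h5', h6⟩ := BTI.re_l8 (k' := k') (k := k) H hs hE τ
    obtain ⟨g0, g1, g2, g3, g7, g8'⟩ := re_l12 (k := k) (k' := k') (n := n) (n' := n') H hs hE h5
    have g4 : l12 (kap k) (dkap k k') (mup n) (dmup n n') f 4 = l8 (kap k) (dkap k k') f 4 := rfl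
    have g5 : l12 (kap k) (dkap k k') (mup n) (dmup n n') f 5 = l8 (kap k) (dkap k k') f 5 := rfl
    have g6 : l12 (kap k) (dkap k k') (mup n) (dmup n n') f 6 = l8 (kap k) (dkap k k') f 6 := rfl
    have h1' := eq_sub_of_add_eq h1
    rw [g0, g1, g2, g3, g4, g5, g6, g7, g8', h0, h1', h2, h3, h4, h5', h6]
    have et : xi12 (kap k) (mup n) f ^ 2 / 4 = τ + ((cF f * X1 f * k 0 (cF f) : ℝ) : ℂ) ^ 2 * m 0 ^ 2 := by
      rw [hτ]
      unfold tau12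
      ring
    rw [et]
    simp only [u12, Matrix.cons_val_zero, Matrix.cons_val_one, Matrix.cons_val]
    linear_combination -eτ
  · obtain ⟨hx, hl⟩ := z_l12 (k := k) (k' := k') (n := n) (n' := n') H hs.symm
    have hm0 : ∀ i, m i = 0 := fun i => BTI.z_mo Ψ0 H hs.symm i
    have et : τ = 0 := by
      rw [hτ]
      unfold tau12
      rw [hx, hm0]
      ring
    have u17 : u12 k k' n n' (X1 f) (cF f) τ 17 = X1 f ^ 2 * k 0 (cF f) := rfl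
    have u20 : u12 k k' n n' (X1 f) (cF f) τ 20 = X1 f ^ 4 * k 1 (cF f) := rfl
    have u38 : u12 k k' n n' (X1 f) (cF f) τ 38 = X1 f ^ 4 * n 0 (cF f) := rfl
    have u40 : u12 k k' n n' (X1 f) (cF f) τ 40 = X1 f ^ 6 * n 1 (cF f) := rfl
    rw [u17, u20, u38, u40]
    simp only [hl, hx, hm0, et, ← hs]
    simp

end

/-! ### the remainder -/

/-- the bound of the remainder from `|r₃| ≤ r`, `|r₅| ≤ p`, `|q₀|, |q₂| ≤ q` -/
def pb12 (k : Fin 8 → ℝ → ℝ) (n : Fin 4 → ℝ → ℝ) (s c r p q : ℝ) : ℝ :=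
  BTI.pb8 k s c r q + 2 * c * s ^ 3 * |n 0 c| * p + 2 * c * s ^ 5 * |n 1 c| * p
    + 4 * c * s * |n 2 c| * (r * p) + 4 * c * s * |n 3 c| * (r * p)

/-- the part of `xi8` without the term of `C₃` -/
theorem rest8_le {f : ℝ → ℝ} (H : Re f) (hs : 0 < X1 f) (k : Fin 8 → ℝ → ℝ) {m : M9} (E : Mm f m) {r q : ℝ}
    (hr : ‖m 0‖ ≤ r) (hq2 : ‖m 4‖ ≤ q) (hq0 : ‖m 3‖ ≤ q) :
    ‖xi8 (kap k) f - 2 * cF f * X1 f * k 0 (cF f) * m 0‖ ≤ BTI.pb8 k (X1 f) (cF f) r q := by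
  have hr0 : 0 ≤ r := (norm_nonneg _).trans hr
  have hq0' : 0 ≤ q := (norm_nonneg _).trans hq0
  have hc := H.c0.le
  have h0 := H.h0
  have e : xi8 (kap k) f - 2 * cF f * X1 f * k 0 (cF f) * m 0 = 2 * cF f * X1 f ^ 3 * k 1 (cF f) * conj (m 0)
      + (4 * cF f * X1 f * k 2 (cF f) * (m 0 * conj (m 0)) + 4 * cF f * X1 f ^ 3 * k 3 (cF f) * m 0 ^ 2
        + 4 * cF f * X1 f ^ 5 * k 4 (cF f) * conj (m 0) ^ 2 + cF f * X1 f * k 5 (cF f) * m 4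
        + cF f * X1 f * k 6 (cF f) * m 3 + cF f * X1 f * k 7 (cF f) * conj (m 4)) := by
    rw [BTI.re_xi8 H hs E]
    ring
  have nr : ∀ x : ℝ, ‖(x : ℂ)‖ = |x| := fun x => Complex.norm_real x
  have ac : |cF f| = cF f := abs_of_nonneg hc
  have as : |X1 f| = X1 f := abs_of_nonneg h0
  have n2 : ‖(2 : ℂ)‖ = 2 := by norm_num
  have n4 : ‖(4 : ℂ)‖ = 4 := by norm_num
  have n00 := norm_nonneg (m 0)
  have hr2 : ‖m 0‖ ^ 2 ≤ r ^ 2 := pow_le_pow_left₀ n00 hr 2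
  have b1 : ‖(2 : ℂ) * cF f * X1 f ^ 3 * k 1 (cF f) * conj (m 0)‖ ≤ 2 * cF f * X1 f ^ 3 * |k 1 (cF f)| * r := by
    simp only [norm_mul, norm_pow, nr, ac, as, n2, Complex.norm_conj]
    gcongr
  have b2 : ‖(4 : ℂ) * cF f * X1 f * k 2 (cF f) * (m 0 * conj (m 0))‖ ≤
      4 * cF f * X1 f * |k 2 (cF f)| * r ^ 2 := by
    simp only [norm_mul, nr, ac, as, n4, Complex.norm_conj]
    rw [← pow_two]
    gcongr
  have b3 : ‖(4 : ℂ) * cF f * X1 f ^ 3 * k 3 (cF f) * m 0 ^ 2‖ ≤ 4 * cF f * X1 f ^ 3 * |k 3 (cF f)| * r ^ 2 := by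
    simp only [norm_mul, norm_pow, nr, ac, as, n4]
    gcongr
  have b4 : ‖(4 : ℂ) * cF f * X1 f ^ 5 * k 4 (cF f) * conj (m 0) ^ 2‖ ≤
      4 * cF f * X1 f ^ 5 * |k 4 (cF f)| * r ^ 2 := by
    simp only [norm_mul, norm_pow, nr, ac, as, n4, Complex.norm_conj]
    gcongr
  have b5 : ‖(cF f : ℂ) * X1 f * k 5 (cF f) * m 4‖ ≤ cF f * X1 f * |k 5 (cF f)| * q := by
    simp only [norm_mul, nr, ac, as]
    gcongr
  have b6 : ‖(cF f : ℂ) * X1 f * k 6 (cF f) * m 3‖ ≤ cF f * X1 f * |k 6 (cF f)| * q := by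
    simp only [norm_mul, nr, ac, as]
    gcongr
  have b7 : ‖(cF f : ℂ) * X1 f * k 7 (cF f) * conj (m 4)‖ ≤ cF f * X1 f * |k 7 (cF f)| * q := by
    simp only [norm_mul, nr, ac, as, Complex.norm_conj]
    gcongr
  rw [e]
  refine (norm_add_le _ _).trans ?_
  refine (add_le_add b1 ((norm_add_le _ _).trans (add_le_add ((norm_add_le _ _).trans (add_le_add
    ((norm_add_le _ _).trans (add_le_add ((norm_add_le _ _).trans (add_le_add ((norm_add_le _ _).trans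
    (add_le_add b2 b3)) b4)) b5)) b6)) b7))).trans (le_of_eq ?_)
  unfold BTI.pb8
  ring

theorem x4_le {f : ℝ → ℝ} (H : Re f) (hs : 0 < X1 f) (n : Fin 4 → ℝ → ℝ) {m : M9} (E : Mm f m)
    (h5 : (X1 f : ℂ) * CE 5 f = 2 * cF f * m 1) {r p : ℝ} (hr : ‖m 0‖ ≤ r) (hp : ‖m 1‖ ≤ p) :
    ‖x4 (mup n) f‖ ≤ 2 * cF f * X1 f ^ 3 * |n 0 (cF f)| * p + 2 * cF f * X1 f ^ 5 * |n 1 (cF f)| * p
      + 4 * cF f * X1 f * |n 2 (cF f)| * (r * p) + 4 * cF f * X1 f * |n 3 (cF f)| * (r * p) := by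
  have hr0 : 0 ≤ r := (norm_nonneg _).trans hr
  have hp0 : 0 ≤ p := (norm_nonneg _).trans hp
  have hc := H.c0.le
  have h0 := H.h0
  have nr : ∀ x : ℝ, ‖(x : ℂ)‖ = |x| := fun x => Complex.norm_real x
  have ac : |cF f| = cF f := abs_of_nonneg hc
  have as : |X1 f| = X1 f := abs_of_nonneg h0
  have n2 : ‖(2 : ℂ)‖ = 2 := by norm_num
  have n4 : ‖(4 : ℂ)‖ = 4 := by norm_num
  have n00 := norm_nonneg (m 0)
  have n11 := norm_nonneg (m 1)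
  have b1 : ‖(2 : ℂ) * cF f * X1 f ^ 3 * n 0 (cF f) * m 1‖ ≤ 2 * cF f * X1 f ^ 3 * |n 0 (cF f)| * p := by
    simp only [norm_mul, norm_pow, nr, ac, as, n2]
    gcongr
  have b2 : ‖(2 : ℂ) * cF f * X1 f ^ 5 * n 1 (cF f) * conj (m 1)‖ ≤ 2 * cF f * X1 f ^ 5 * |n 1 (cF f)| * p := by
    simp only [norm_mul, norm_pow, nr, ac, as, n2, Complex.norm_conj]
    gcongr
  have b3 : ‖(4 : ℂ) * cF f * X1 f * n 2 (cF f) * (m 0 * conj (m 1))‖ ≤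
      4 * cF f * X1 f * |n 2 (cF f)| * (r * p) := by
    simp only [norm_mul, nr, ac, as, n4, Complex.norm_conj]
    gcongr
  have b4 : ‖(4 : ℂ) * cF f * X1 f * n 3 (cF f) * (conj (m 0) * m 1)‖ ≤
      4 * cF f * X1 f * |n 3 (cF f)| * (r * p) := by
    simp only [norm_mul, nr, ac, as, n4, Complex.norm_conj]
    gcongr
  rw [re_x4 H hs E h5]
  refine ((norm_add_le _ _).trans (add_le_add ((norm_add_le _ _).trans (add_le_add b1 b2))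
    ((norm_add_le _ _).trans (add_le_add b3 b4)))).trans (le_of_eq ?_)
  ring

/-- **bound of the remainder** -/
theorem tau12_le {f : ℝ → ℝ} (H : Re f) (k : Fin 8 → ℝ → ℝ) (n : Fin 4 → ℝ → ℝ) {m : M9} (E : Mm f m)
    (h5 : (X1 f : ℂ) * CE 5 f = 2 * cF f * m 1) {r p q : ℝ} (hr : ‖m 0‖ ≤ r) (hp : ‖m 1‖ ≤ p)
    (hq2 : ‖m 4‖ ≤ q) (hq0 : ‖m 3‖ ≤ q) (hm : X1 f = 0 → m 0 = 0) : ‖tau12 k n f (m 0)‖ ≤
      pb12 k n (X1 f) (cF f) r p q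
        * (4 * cF f * X1 f * |k 0 (cF f)| * r + pb12 k n (X1 f) (cF f) r p q) / 4 := by
  have hr0 : 0 ≤ r := (norm_nonneg _).trans hr
  have hp0 : 0 ≤ p := (norm_nonneg _).trans hp
  have hq0' : 0 ≤ q := (norm_nonneg _).trans hq0
  have hc := H.c0.le
  have h0 := H.h0
  have hpb : 0 ≤ pb12 k n (X1 f) (cF f) r p q := by
    unfold pb12 BTI.pb8
    positivity
  rcases h0.lt_or_eq with hs | hs
  · set ρ : ℂ := (xi8 (kap k) f - 2 * cF f * X1 f * k 0 (cF f) * m 0) + x4 (mup n) f with hρ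
    have e : tau12 k n f (m 0) = ρ * (2 * (2 * cF f * X1 f * k 0 (cF f) * m 0) + ρ) / 4 := by
      unfold tau12 xi12
      rw [hρ]
      push_cast
      ring
    have nr : ∀ x : ℝ, ‖(x : ℂ)‖ = |x| := fun x => Complex.norm_real x
    have ac : |cF f| = cF f := abs_of_nonneg hc
    have as : |X1 f| = X1 f := abs_of_nonneg h0
    have n2 : ‖(2 : ℂ)‖ = 2 := by norm_num
    have n4 : ‖(4 : ℂ)‖ = 4 := by norm_num
    have bρ : ‖ρ‖ ≤ pb12 k n (X1 f) (cF f) r p q := by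
      rw [hρ]
      refine (norm_add_le _ _).trans ((add_le_add (rest8_le H hs k E hr hq2 hq0) (x4_le H hs n E h5 hr hp)).trans
        (le_of_eq ?_))
      unfold pb12
      ring
    have b8 : ‖(2 : ℂ) * (2 * cF f * X1 f * k 0 (cF f) * m 0)‖ ≤ 4 * cF f * X1 f * |k 0 (cF f)| * r := by
      simp only [norm_mul, nr, ac, as, n2]
      calc 2 * (2 * cF f * X1 f * |k 0 (cF f)| * ‖m 0‖) = 4 * cF f * X1 f * |k 0 (cF f)| * ‖m 0‖ := by ring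
        _ ≤ _ := by gcongr
    rw [e, norm_div, norm_mul, n4]
    have b9 := (norm_add_le ((2 : ℂ) * (2 * cF f * X1 f * k 0 (cF f) * m 0)) ρ).trans (add_le_add b8 bρ)
    gcongr
  · have et : tau12 k n f (m 0) = 0 := by
      unfold tau12
      rw [(z_l12 (k := k) (k' := k) (n := n) (n' := n) H hs.symm).1, hm hs.symm]
      ring
    rw [et, norm_zero]
    positivity

/-- the remainder at a state -/
theorem tau12_mo {f : ℝ → ℝ} (H : Re f) (k : Fin 8 → ℝ → ℝ) (n : Fin 4 → ℝ → ℝ) {Q : Type} [Fintype Q]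
    (Ψ : PsiH Q) {r p q : ℝ}
    (hr : ‖mo (CH Ψ) (nf f) (xT f) (ef f) 0‖ ≤ r) (hp : ‖mo (CH Ψ) (nf f) (xT f) (ef f) 1‖ ≤ p)
    (hq0 : ‖mo (CH Ψ) (nf f) (xT f) (ef f) 3‖ ≤ q) (hq2 : ‖mo (CH Ψ) (nf f) (xT f) (ef f) 4‖ ≤ q) :
    ‖tau12 k n f (mo (CH Ψ) (nf f) (xT f) (ef f) 0)‖ ≤ pb12 k n (X1 f) (cF f) r p q
      * (4 * cF f * X1 f * |k 0 (cF f)| * r + pb12 k n (X1 f) (cF f) r p q) / 4 :=
  tau12_le H k n (mm_moH Ψ H).1 (mm_moH Ψ H).2 hr hp hq2 hq0 fun h => BTI.z_mo Ψ0 H h 0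

end Pool.Agent.FPX.BU
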