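import Mathlib
import Pool.Agent.FPX.XIR
import Pool.Agent.FPX.XIS
import Pool.Agent.FPX.OMYR
import Pool.Agent.FPX.BV3

/-
XIZ (helper22): the deviation of the stereographic start map with fourteen terms: rotation covariance, the
coefficients in the real frame, bound of the remainder.
-/

open MeasureTheory Set Filter Topology Complex
open scoped ENNReal NNReal ContDiff ComplexConjugate

noncomputable section

namespace Pool.Agent.FPX.XIP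

open Pool.Agent.FPX Pool.Agent.FPX.UMP Pool.Agent.FPX.UMQ Pool.Agent.FPX.UXA Pool.Agent.EWD
open Pool.Agent.FPX.F54 (X1 X2 X_lt sF)
open Pool.Agent.FPX.S54 (YY de)
open Pool.Agent.FPX.OMB (vm)
open Pool.Agent.FPX.OMS (rF cF cF_eq)
open Pool.Agent.FPX.SYS (CE SE)
open Pool.Agent.FPX.OM7 (Rot RotDev RotK Dev Cp Cm Sp Sm pe)
open Pool.Agent.FPX.OMG (DevK Cp5 Cm5 D7)
open Pool.Agent.FPX.XIM (zf cf cf_pos xi8 q8 g8 dxi8 xi12 q12 x4 q2s x2 xi14)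

/-! ### rotations -/

section Rot14

variable {f f' : ℝ → ℝ} {φ r : ℝ} {u : ℂ}

theorem rot_q2s (R : Rot f f' φ r u) (ν : Fin 2 → ℝ → ℝ) : q2s ν f = u * q2s ν f' := by
  have hu := rot_u0 R
  have h4 : SE 4 f = u ^ 4 * SE 4 f' := R.se 4
  unfold q2s
  rw [h4]
  simp only [rot_g8 R, map_pow, map_mul, rot_cu R]
  field_simp

theorem rot_x2 (R : Rot f f' φ r u) (ν : Fin 2 → ℝ → ℝ) : x2 ν f = u * x2 ν f' := by
  unfold x2
  rw [rot_q2s R, rot_cf R]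
  ring

theorem rot_xi14 (R : Rot f f' φ r u) (κ : Fin 8 → ℝ → ℝ) (μ : Fin 4 → ℝ → ℝ) (ν : Fin 2 → ℝ → ℝ) :
    xi14 κ μ ν f = u * xi14 κ μ ν f' := by
  unfold xi14
  rw [rot_xi12 R, rot_x2 R]
  ring

theorem rot_l14 (R : Rot f f' φ r u) (κ κ' : Fin 8 → ℝ → ℝ) (μ μ' : Fin 4 → ℝ → ℝ) (ν ν' : Fin 2 → ℝ → ℝ) :
    l14 κ κ' μ μ' ν ν' f 0 = l14 κ κ' μ μ' ν ν' f' 0 ∧
      l14 κ κ' μ μ' ν ν' f 1 = u ^ 2 * l14 κ κ' μ μ' ν ν' f' 1 ∧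
      l14 κ κ' μ μ' ν ν' f 2 = u⁻¹ ^ 2 * l14 κ κ' μ μ' ν ν' f' 2 ∧
      l14 κ κ' μ μ' ν ν' f 3 = u ^ 4 * l14 κ κ' μ μ' ν ν' f' 3 ∧
      l14 κ κ' μ μ' ν ν' f 4 = u⁻¹ * l14 κ κ' μ μ' ν ν' f' 4 ∧
      l14 κ κ' μ μ' ν ν' f 5 = u ^ 3 * l14 κ κ' μ μ' ν ν' f' 5 ∧
      l14 κ κ' μ μ' ν ν' f 6 = u * l14 κ κ' μ μ' ν ν' f' 6 ∧
      l14 κ κ' μ μ' ν ν' f 7 = u⁻¹ ^ 4 * l14 κ κ' μ μ' ν ν' f' 7 ∧
      l14 κ κ' μ μ' ν ν' f 8 = u ^ 6 * l14 κ κ' μ μ' ν ν' f' 8 ∧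
      l14 κ κ' μ μ' ν ν' f 9 = u⁻¹ ^ 3 * l14 κ κ' μ μ' ν ν' f' 9 ∧
      l14 κ κ' μ μ' ν ν' f 10 = u ^ 5 * l14 κ κ' μ μ' ν ν' f' 10 := by
  have hu := rot_u0 R
  have hc : (cf f' : ℂ) ≠ 0 := Complex.ofReal_ne_zero.2 (cf_pos R.hf').ne'
  obtain ⟨h0, h1, h2, h3, h4, h5, h6, h7, h8⟩ := rot_l12 R κ κ' μ μ'
  have hs4 : SE 4 f = u ^ 4 * SE 4 f' := R.se 4
  unfold l14
  simp only [Matrix.cons_val_zero, Matrix.cons_val_one, Matrix.cons_val]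
  rw [h0, h1, h2, h3, h4, h5, h6, h7, h8, rot_q2s R, hs4, rot_cf R, rot_zf R]
  simp only [rot_g8 R, rot_gv8 R, rot_gw8 R, map_pow, map_mul, rot_cu R, Nat.reduceAdd, zero_add, inv_pow]
  refine ⟨?_, ?_, ?_, ?_, ?_, ?_, ?_, ?_, ?_, ?_, ?_⟩ <;> first | exact trivial | field_simp

theorem rot_Nm11 (R : Rot f f' φ r u) (κ κ' : Fin 8 → ℝ → ℝ) (μ μ' : Fin 4 → ℝ → ℝ) (ν ν' : Fin 2 → ℝ → ℝ)
    (A B N M S T D P O U V : ℂ) : Nm11 (l14 κ κ' μ μ' ν ν') f (u * A) (u * B) (u ^ 3 * N) (u ^ 3 * M)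
      (u ^ 2 * S) (u ^ 2 * T) D (u ^ 5 * P) (u ^ 5 * O) (u ^ 4 * U) (u ^ 4 * V) =
        u * Nm11 (l14 κ κ' μ μ' ν ν') f' A B N M S T D P O U V := by
  have hu := rot_u0 R
  obtain ⟨h0, h1, h2, h3, h4, h5, h6, h7, h8, h9, h10⟩ := rot_l14 R κ κ' μ μ' ν ν'
  unfold Nm11 L11
  rw [h0, h1, h2, h3, h4, h5, h6, h7, h8, h9, h10]
  simp only [map_pow, map_mul, rot_cu R]
  field_simp

theorem rot_sp4 (R : Rot f f' φ r u) (A B V : ℂ) : Sp4 f (u * A) (u * B) (u ^ 4 * V) = u ^ 4 * Sp4 f' A B V := by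
  have hu := rot_u0 R
  have hc : (cF f' : ℂ) ≠ 0 := Complex.ofReal_ne_zero.2 (OM7.cF_pos R.hf').ne'
  have h4 : SE 4 f = u ^ 4 * SE 4 f' := R.se 4
  unfold Sp4
  rw [R.m4, R.n4, R.ze, h4, R.cc]
  simp only [map_mul, rot_cu R]
  field_simp

theorem rot_sm4 (R : Rot f f' φ r u) (A B V : ℂ) : Sm4 f (u * A) (u * B) (u ^ 4 * V) = u ^ 4 * Sm4 f' A B V := by
  have hu := rot_u0 R
  have hc : (cF f' : ℂ) ≠ 0 := Complex.ofReal_ne_zero.2 (OM7.cF_pos R.hf').ne'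
  have h4 : SE 4 f = u ^ 4 * SE 4 f' := R.se 4
  unfold Sm4
  rw [R.m4, R.n4, R.ze, h4, R.cc]
  simp only [map_mul, rot_cu R]
  field_simp

/-- **rotation covariance of the deviation of the stereographic map of `xi14`** -/
theorem rotK_B14 (κ κ' : Fin 8 → ℝ → ℝ) (μ μ' : Fin 4 → ℝ → ℝ) (ν ν' : Fin 2 → ℝ → ℝ) :
    RotK (Bk14 κ κ' μ μ' ν ν') := by
  intro f f' φ r u R K hK hK1 A B
  have hu := rot_u0 R
  have gn : ∀ n : ℕ, ∀ t, C54.ep (X1 f) (X2 f) (t + 2 * Real.pi) ^ n = C54.ep (X1 f) (X2 f) t ^ n :=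
    fun n t => by rw [CERQ.ep_per]
  have gn' : ∀ n : ℕ, ∀ t, C54.ep (X1 f) (X2 f) (t + φ) ^ n = u ^ n * C54.ep (X1 f') (X2 f') t ^ n :=
    fun n t => by rw [R.ee, mul_pow]
  have g2 : ∀ n : ℕ, ∀ t, (de (X1 f) (X2 f) f (t + 2 * Real.pi) : ℂ) * C54.ep (X1 f) (X2 f) (t + 2 * Real.pi) ^ n =
      (de (X1 f) (X2 f) f t : ℂ) * C54.ep (X1 f) (X2 f) t ^ n := fun n t => by rw [CERQ.ep_per, R.dper]
  have g2' : ∀ n : ℕ, ∀ t, (de (X1 f) (X2 f) f (t + φ) : ℂ) * C54.ep (X1 f) (X2 f) (t + φ) ^ n =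
      u ^ n * ((de (X1 f') (X2 f') f' t : ℂ) * C54.ep (X1 f') (X2 f') t ^ n) := fun n t => by
    rw [R.ee, R.dd, mul_pow]
    ring
  have g1 : ∀ t, (de (X1 f) (X2 f) f (t + 2 * Real.pi) : ℂ) = (de (X1 f) (X2 f) f t : ℂ) := fun t => by
    rw [R.dper]
  have g1' : ∀ t, (de (X1 f) (X2 f) f (t + φ) : ℂ) = 1 * (de (X1 f') (X2 f') f' t : ℂ) := fun t => by
    rw [R.dd, one_mul]
  unfold Bk14 BstZ at11 Bst11
  rw [R.itc (G := fun t => C54.ep (X1 f) (X2 f) t ^ 3) (gn 3) (gn' 3),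
    R.it (G := fun t => C54.ep (X1 f) (X2 f) t ^ 3) (gn 3) (gn' 3),
    R.itc (G := fun t => (de (X1 f) (X2 f) f t : ℂ) * C54.ep (X1 f) (X2 f) t ^ 2) (g2 2) (g2' 2),
    R.it (G := fun t => (de (X1 f) (X2 f) f t : ℂ) * C54.ep (X1 f) (X2 f) t ^ 2) (g2 2) (g2' 2),
    R.it (G := fun t => (de (X1 f) (X2 f) f t : ℂ)) g1 g1',
    R.itc (G := fun t => C54.ep (X1 f) (X2 f) t ^ 5) (gn 5) (gn' 5),
    R.it (G := fun t => C54.ep (X1 f) (X2 f) t ^ 5) (gn 5) (gn' 5),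
    R.itc (G := fun t => (de (X1 f) (X2 f) f t : ℂ) * C54.ep (X1 f) (X2 f) t ^ 4) (g2 4) (g2' 4),
    R.it (G := fun t => (de (X1 f) (X2 f) f t : ℂ) * C54.ep (X1 f) (X2 f) t ^ 4) (g2 4) (g2' 4),
    R.cp, R.cm, R.sp, R.sm, one_mul, rot_cp5 R, rot_cm5 R, rot_sp4 R, rot_sm4 R, rot_Nm11 R, rot_xi14 R]
  have e : qp (u * xi14 κ μ ν f') = qp (xi14 κ μ ν f') := by
    unfold qp
    rw [map_mul, Complex.normSq_eq_norm_sq u, R.un, one_pow, one_mul]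
  have e2 : (u * xi14 κ μ ν f') ^ 2 / 4 * conj (u * A) = u * (xi14 κ μ ν f' ^ 2 / 4 * conj A) := by
    rw [map_mul, rot_cu R]
    field_simp
  have e3 : ∀ x y z q : ℂ, (u * x + u * y + u * z) / q = u * ((x + y + z) / q) := fun x y z q => by ring
  rw [e, e2, e3, R.nn1]

end Rot14

end Pool.Agent.FPX.XIP

namespace Pool.Agent.FPX.BV

open Pool.Agent.FPX.BTG (Sta Cls mo aK bK dev)
open Pool.Agent.FPX.BTN (va e1 nf ef bw)
open Pool.Agent.FPX.UMP (Ef)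
open Pool.Agent.FPX.UMQ
open Pool.Agent.FPX.F54 (X1 X2 X_lt)
open Pool.Agent.FPX.OMS (rF cF cF_eq)
open Pool.Agent.FPX.CERQ (xT)
open Pool.Agent.FPX.SYS (CE SE)
open Pool.Agent.FPX.OMR (Re)
open Pool.Agent.FPX.XIM (zf cf cf_pos xi8 q8 g8 xi12 x4 q12 q2s x2 xi14)
open Pool.Agent.FPX.XIP
open Pool.Agent.FPX.BTI (kap dkap u8 Mm)
open Pool.Agent.FPX.BU (mup dmup w14 u12 z_l12 mm_moH rest8_le x4_le pb12)

/-- the coefficients of the terms with `S₄` in the real frame (slots 42 - 47) -/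
def w6 (p p' : Fin 2 → ℝ → ℝ) (s c : ℝ) : Fin 6 → ℝ :=
  ![-(c * s ^ 2 * p' 0 c / 2) + s ^ 2 * p 0 c / 2,
    -(c * s ^ 4 * p' 1 c / 2) + 5 * c ^ 2 * s ^ 2 * p 1 c + s ^ 4 * p 1 c / 2,
    -(c * s ^ 2 * p' 0 c / 2) + 3 * c ^ 2 * p 0 c + s ^ 2 * p 0 c / 2,
    -(c * s ^ 4 * p' 1 c / 2) + s ^ 4 * p 1 c / 2,
    s ^ 2 * p 0 c,
    s ^ 4 * p 1 c]

section

variable {f : ℝ → ℝ} {k k' : Fin 8 → ℝ → ℝ} {n n' : Fin 4 → ℝ → ℝ} {p p' : Fin 2 → ℝ → ℝ} {z4 : ℂ}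

/-- the two terms of the start map with `S₄` in the real frame -/
theorem re_x2 (H : Re f) (hs : 0 < X1 f) (h4 : (X1 f : ℂ) ^ 2 * SE 4 f = (cF f : ℂ) ^ 2 * z4) :
    x2 p f = cF f * X1 f * p 0 (cF f) * z4 + cF f * X1 f ^ 3 * p 1 (cF f) * conj z4 := by
  have hz : (X1 f : ℂ) ≠ 0 := Complex.ofReal_ne_zero.2 hs.ne'
  have hc : (cF f : ℂ) ≠ 0 := H.cC
  have ec : cf f = cF f := cF_eq f
  have ez : zf f = (X1 f : ℂ) := H.zz
  have e4 : SE 4 f = (cF f : ℂ) ^ 2 / X1 f ^ 2 * z4 := by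
    rw [div_mul_eq_mul_div, eq_div_iff (pow_ne_zero 2 hz), mul_comm]
    exact h4
  unfold x2 q2s g8
  rw [ec, ez, e4]
  simp only [map_mul, map_div₀, map_pow, Complex.conj_ofReal]
  field_simp

/-- the coefficients of the covariant derivative in the real frame -/
theorem re_l14 (H : Re f) (hs : 0 < X1 f) (h4 : (X1 f : ℂ) ^ 2 * SE 4 f = (cF f : ℂ) ^ 2 * z4) :
    l14 (kap k) (dkap k k') (mup n) (dmup n n') p p' f 0 = l12 (kap k) (dkap k k') (mup n) (dmup n n') f 0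
        + ((w6 p p' (X1 f) (cF f) 0 : ℂ) * z4 + (w6 p p' (X1 f) (cF f) 1 : ℂ) * conj z4) ∧
      l14 (kap k) (dkap k k') (mup n) (dmup n n') p p' f 1 = l12 (kap k) (dkap k k') (mup n) (dmup n n') f 1
        + ((w6 p p' (X1 f) (cF f) 2 : ℂ) * z4 + (w6 p p' (X1 f) (cF f) 3 : ℂ) * conj z4) ∧
      l14 (kap k) (dkap k k') (mup n) (dmup n n') p p' f 9 =
        (w6 p p' (X1 f) (cF f) 4 : ℂ) * ((X1 f / cF f : ℝ) : ℂ) ∧
      l14 (kap k) (dkap k k') (mup n) (dmup n n') p p' f 10 =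
        (w6 p p' (X1 f) (cF f) 5 : ℂ) * ((X1 f / cF f : ℝ) : ℂ) := by
  have hz : (X1 f : ℂ) ≠ 0 := Complex.ofReal_ne_zero.2 hs.ne'
  have hc : (cF f : ℂ) ≠ 0 := H.cC
  have ec : cf f = cF f := cF_eq f
  have ez : zf f = (X1 f : ℂ) := H.zz
  have e4 : SE 4 f = (cF f : ℂ) ^ 2 / X1 f ^ 2 * z4 := by
    rw [div_mul_eq_mul_div, eq_div_iff (pow_ne_zero 2 hz), mul_comm]
    exact h4
  unfold l14 gv8 gw8 gv gw q2s g8 w6
  simp only [Matrix.cons_val_zero, Matrix.cons_val_one, Matrix.cons_val]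
  rw [ec, ez, e4]
  simp only [map_mul, map_div₀, map_pow, Complex.conj_ofReal, map_ofNat, Nat.cast_zero, Nat.cast_ofNat,
    map_zero]
  generalize l12 (kap k) (dkap k k') (mup n) (dmup n n') f = l
  generalize p 0 (cF f) = k0
  generalize p 1 (cF f) = k1
  generalize p' 0 (cF f) = d0
  generalize p' 1 (cF f) = d1
  push_cast
  generalize (cF f : ℂ) = c at *
  generalize (X1 f : ℂ) = z at *
  generalize conj z4 = nb
  clear e4 ez ec h4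
  refine ⟨?_, ?_, ?_, ?_⟩ <;> (field_simp; try ring)

/-- the pole: the coefficients vanish -/
theorem z_l14 (H : Re f) (h : X1 f = 0) : xi14 (kap k) (mup n) p f = 0 ∧
    ∀ i, l14 (kap k) (dkap k k') (mup n) (dmup n n') p p' f i = 0 := by
  obtain ⟨hx, hl⟩ := z_l12 (k := k) (k' := k') (n := n) (n' := n') H h
  have ez : zf f = 0 := by
    have e : zf f = (X1 f : ℂ) := H.zz
    rw [e, h, Complex.ofReal_zero]
  constructor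
  · unfold xi14 x2 q2s g8
    rw [hx, ez]
    simp
  · intro i
    unfold l14 gv8 gw8 gv gw q2s g8
    fin_cases i <;>
      simp [ez, hl]

end

/-! ### the deviation -/

/-- a vector with 42 + 6 components -/
def put48 (u : Fin 42 → ℝ) (w : Fin 6 → ℝ) : Fin 48 → ℝ :=
  ![u 0, u 1, u 2, u 3, u 4, u 5, u 6, u 7, u 8, u 9, u 10, u 11, u 12, u 13, u 14, u 15, u 16, u 17, u 18, u 19,
    u 20, u 21, u 22, u 23, u 24, u 25, u 26, u 27, u 28, u 29, u 30, u 31, u 32, u 33, u 34, u 35, u 36, u 37,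
    u 38, u 39, u 40, u 41, w 0, w 1, w 2, w 3, w 4, w 5]

/-- **the coefficients of the deviation of `xi14` in the real frame** -/
def u14 (k k' : Fin 8 → ℝ → ℝ) (n n' : Fin 4 → ℝ → ℝ) (p p' : Fin 2 → ℝ → ℝ) (s c : ℝ) (τ : ℂ) : Fin 48 → ℝ :=
  put48 (u12 k k' n n' s c τ) (w6 p p' s c)

/-- the remainder `ξ² / 4 - (c s κ₀)² r₃²` -/
def tau14 (k : Fin 8 → ℝ → ℝ) (n : Fin 4 → ℝ → ℝ) (p : Fin 2 → ℝ → ℝ) (f : ℝ → ℝ) (r3 : ℂ) : ℂ :=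
  xi14 (kap k) (mup n) p f ^ 2 / 4 - ((cF f * X1 f * k 0 (cF f) : ℝ) : ℂ) ^ 2 * r3 ^ 2

theorem nst11_le (ξ : (ℝ → ℝ) → ℂ) (l : (ℝ → ℝ) → Fin 11 → ℂ) (f : ℝ → ℝ) (A B N M S R D P O U V : ℂ) :
    ‖Bst11 ξ l f A B N M S R D P O U V‖ ≤ ‖B + Nm11 l f A B N M S R D P O U V + ξ f ^ 2 / 4 * conj A‖ := by
  unfold Bst11
  rw [norm_div, Complex.norm_real, Real.norm_eq_abs, abs_of_pos (qp_pos _)]
  refine div_le_self (norm_nonneg _) ?_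
  have := Complex.normSq_nonneg (ξ f)
  show (1 : ℝ) ≤ 1 + Complex.normSq (ξ f) / 4
  linarith

section

variable {f : ℝ → ℝ} {k k' : Fin 8 → ℝ → ℝ} {n n' : Fin 4 → ℝ → ℝ} {p p' : Fin 2 → ℝ → ℝ}

/-- the moments of the class `CZ` from those of the class `CH` -/
theorem mo_ZH {Q Q' : Type} [Fintype Q] [Fintype Q'] (Ψ : PsiZ Q) (Ψ' : BU.PsiH Q') (f : ℝ → ℝ) :
    mo (CZ Ψ) (nf f) (xT f) (ef f) 0 = mo (BU.CH Ψ') (nf f) (xT f) (ef f) 0 ∧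
      mo (CZ Ψ) (nf f) (xT f) (ef f) 1 = mo (BU.CH Ψ') (nf f) (xT f) (ef f) 1 ∧
      mo (CZ Ψ) (nf f) (xT f) (ef f) 2 = mo (BU.CH Ψ') (nf f) (xT f) (ef f) 2 ∧
      mo (CZ Ψ) (nf f) (xT f) (ef f) 3 = mo (BU.CH Ψ') (nf f) (xT f) (ef f) 3 ∧
      mo (CZ Ψ) (nf f) (xT f) (ef f) 4 = mo (BU.CH Ψ') (nf f) (xT f) (ef f) 4 ∧
      mo (CZ Ψ) (nf f) (xT f) (ef f) 5 = mo (BU.CH Ψ') (nf f) (xT f) (ef f) 5 :=
  ⟨rfl, rfl, rfl, rfl, rfl, rfl⟩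

/-- the value of `S₄` at a state -/
theorem mm_se4 {Q : Type} [Fintype Q] (Ψ : PsiZ Q) (H : Re f) :
    (X1 f : ℂ) ^ 2 * SE 4 f = (cF f : ℂ) ^ 2 * mo (CZ Ψ) (nf f) (xT f) (ef f) 5 := by
  rw [H.se4]
  congr 1
  unfold OMR.q4
  rw [BTI.xR_eq H.hf H.h0 H.h2, BTI.eR_eq H.h2, BTI.vR_eq H.h2]
  rfl

end

section

variable {f : ℝ → ℝ} {k k' : Fin 8 → ℝ → ℝ} {n n' : Fin 4 → ℝ → ℝ} {p p' : Fin 2 → ℝ → ℝ}

/-- the part of the deviation without `S₄` (identity from `devLe_B12`) -/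
theorem dev12_eq (H : Re f) (k k' : Fin 8 → ℝ → ℝ) (n n' : Fin 4 → ℝ → ℝ) (τ : ℂ) (A B N M S R D P O : ℂ) :
    BU.devH BU.Psi12 (u12 k k' n n' (X1 f) (cF f) τ) (mo (BU.CH BU.Psi12) (nf f) (xT f) (ef f)) A B N M
      (((X1 f / cF f : ℝ) : ℂ) * S) (((X1 f / cF f : ℝ) : ℂ) * R) (((X1 f / cF f : ℝ) : ℂ) * D) P O =
      B + Nm9 (l12 (kap k) (dkap k k') (mup n) (dmup n n')) f A B N M S R D P O
        + (τ + ((cF f * X1 f * k 0 (cF f) : ℝ) : ℂ) ^ 2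
          * mo (BU.CH BU.Psi12) (nf f) (xT f) (ef f) 0 ^ 2) * conj A := by
  obtain ⟨hE, h5⟩ := mm_moH BU.Psi12 H
  set m := mo (BU.CH BU.Psi12) (nf f) (xT f) (ef f) with hm
  have eτ : ((τ.re : ℝ) : ℂ) * conj A + ((τ.im : ℝ) : ℂ) * (I * conj A) = τ * conj A := by
    have := Complex.re_add_im τ
    linear_combination conj A * this
  unfold BU.devH
  rw [BU.sum42]
  have u0 : u12 k k' n n' (X1 f) (cF f) τ 0 = 1 := rfl
  have u26 : u12 k k' n n' (X1 f) (cF f) τ 26 = τ.re := rfl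
  have u27 : u12 k k' n n' (X1 f) (cF f) τ 27 = τ.im := rfl
  rw [u0, u26, u27]
  unfold Nm9 L9
  simp only [BU.Psi12, BU.liH, BTI.Psi8, BTI.mn8, Matrix.cons_val_zero, Matrix.cons_val_one, Matrix.cons_val,
    map_mul, Complex.conj_ofReal, Complex.ofReal_one]
  rcases H.h0.lt_or_eq with hs | hs
  · obtain ⟨h0, h1, h2, h3, h4, h5', h6⟩ := BTI.re_l8 (k' := k') (k := k) H hs hE τ
    obtain ⟨g0, g1, g2, g3, g7, g8'⟩ := BU.re_l12 (k := k) (k' := k') (n := n) (n' := n') H hs hE h5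
    have g4 : l12 (kap k) (dkap k k') (mup n) (dmup n n') f 4 = l8 (kap k) (dkap k k') f 4 := rfl
    have g5 : l12 (kap k) (dkap k k') (mup n) (dmup n n') f 5 = l8 (kap k) (dkap k k') f 5 := rfl
    have g6 : l12 (kap k) (dkap k k') (mup n) (dmup n n') f 6 = l8 (kap k) (dkap k k') f 6 := rfl
    have h1' := eq_sub_of_add_eq h1
    rw [g0, g1, g2, g3, g4, g5, g6, g7, g8', h0, h1', h2, h3, h4, h5', h6]
    simp only [u12, Matrix.cons_val_zero, Matrix.cons_val_one, Matrix.cons_val]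
    linear_combination eτ
  · obtain ⟨-, hl⟩ := z_l12 (k := k) (k' := k') (n := n) (n' := n') H hs.symm
    have hm0 : ∀ i, m i = 0 := fun i => BTI.z_mo BU.Ψ0 H hs.symm i
    have u17 : u12 k k' n n' (X1 f) (cF f) τ 17 = X1 f ^ 2 * k 0 (cF f) := rfl
    have u20 : u12 k k' n n' (X1 f) (cF f) τ 20 = X1 f ^ 4 * k 1 (cF f) := rfl
    have u38 : u12 k k' n n' (X1 f) (cF f) τ 38 = X1 f ^ 4 * n 0 (cF f) := rfl
    have u40 : u12 k k' n n' (X1 f) (cF f) τ 40 = X1 f ^ 6 * n 1 (cF f) := rfl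
    rw [u17, u20, u38, u40]
    simp only [hl, hm0, ← hs]
    simp
    linear_combination eτ

set_option maxRecDepth 8000 in
/-- the terms with `S₄` split off -/
theorem devZ_put (u : Fin 42 → ℝ) (w : Fin 6 → ℝ) (m : M10) (A B N M S R G P O U V : ℂ) :
    devZ Psi14 (put48 u w) m A B N M S R G P O U V =
      BU.devH BU.Psi12 u (pr9 m) A B N M S R G P O
        + ((w 0 : ℂ) * (B * m 5) + ((w 1 : ℂ) * (B * conj (m 5)) + ((w 2 : ℂ) * (conj A * m 5)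
          + ((w 3 : ℂ) * (conj A * conj (m 5)) + ((w 4 : ℂ) * V + (w 5 : ℂ) * conj U))))) := by
  unfold devZ BU.devH
  have e := Fin.sum_univ_add (a := 42) (b := 6)
    (fun q : Fin (42 + 6) => (put48 u w q : ℂ) * Psi14 q m A B N M S R G P O U V)
  have s6 : ∀ F : Fin 6 → ℂ, ∑ q, F q = F 0 + (F 1 + (F 2 + (F 3 + (F 4 + F 5)))) := fun F => by
    simp only [Fin.sum_univ_succ, Fin.sum_univ_zero, add_zero]
    rfl
  have e1 : ∀ q : Fin 42, (put48 u w (Fin.castAdd 6 q) : ℂ) * Psi14 (Fin.castAdd 6 q) m A B N M S R G P O U V =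
      (u q : ℂ) * BU.Psi12 q (pr9 m) A B N M S R G P O := fun q => by
    have hv : put48 u w (Fin.castAdd 6 q) = u q := by
      fin_cases q <;> rfl
    have hP : Psi14 (Fin.castAdd 6 q) = liZ BU.Psi12 q := by
      fin_cases q <;> rfl
    rw [hv, hP]
    rfl
  have e2 : ∑ q : Fin 6, (put48 u w (Fin.natAdd 42 q) : ℂ) * Psi14 (Fin.natAdd 42 q) m A B N M S R G P O U V =
      (w 0 : ℂ) * (B * m 5) + ((w 1 : ℂ) * (B * conj (m 5)) + ((w 2 : ℂ) * (conj A * m 5)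
          + ((w 3 : ℂ) * (conj A * conj (m 5)) + ((w 4 : ℂ) * V + (w 5 : ℂ) * conj U)))) := by
    rw [s6]
    rfl
  refine e.trans ?_
  rw [e2, Finset.sum_congr rfl fun q _ => e1 q]

/-- **the deviation of the stereographic map of `xi14` in the real frame** -/
theorem devLe_B14 (H : Re f) (k k' : Fin 8 → ℝ → ℝ) (n n' : Fin 4 → ℝ → ℝ) (p p' : Fin 2 → ℝ → ℝ) :
    DevLe7 (Bst11 (xi14 (kap k) (mup n) p) (l14 (kap k) (dkap k k') (mup n) (dmup n n') p p')) Psi14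
      (u14 k k' n n' p p' (X1 f) (cF f) (tau14 k n p f (mo (CZ Psi14) (nf f) (xT f) (ef f) 0))) f := by
  intro A B N M S R D P O U V
  obtain ⟨m0, m1, m2, m3, m4, m5⟩ := mo_ZH Psi14 BU.Psi12 f
  have h4 := mm_se4 Psi14 H
  have key := dev12_eq H k k' n n' (tau14 k n p f (mo (CZ Psi14) (nf f) (xT f) (ef f) 0)) A B N M S R D P O
  have mm : pr9 (mo (CZ Psi14) (nf f) (xT f) (ef f)) = mo (BU.CH BU.Psi12) (nf f) (xT f) (ef f) :=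
    prM _ _ _ BU.Psi12
  set m := mo (CZ Psi14) (nf f) (xT f) (ef f) with hm
  set m' := mo (BU.CH BU.Psi12) (nf f) (xT f) (ef f) with hm'
  set τ := tau14 k n p f (m 0) with hτ
  refine (nst11_le _ _ _ _ _ _ _ _ _ _ _ _ _ _).trans (le_of_eq ?_)
  congr 1
  unfold u14
  rw [devZ_put, mm, key]
  have et : xi14 (kap k) (mup n) p f ^ 2 / 4 = τ + ((cF f * X1 f * k 0 (cF f) : ℝ) : ℂ) ^ 2 * m' 0 ^ 2 := by
    rw [hτ, ← m0]
    unfold tau14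
    ring
  rw [et]
  unfold Nm11 L11 Nm9 L9
  have j2 : l14 (kap k) (dkap k k') (mup n) (dmup n n') p p' f 2 =
    l12 (kap k) (dkap k k') (mup n) (dmup n n') f 2 := rfl
  have j3 : l14 (kap k) (dkap k k') (mup n) (dmup n n') p p' f 3 =
    l12 (kap k) (dkap k k') (mup n) (dmup n n') f 3 := rfl
  have j4 : l14 (kap k) (dkap k k') (mup n) (dmup n n') p p' f 4 =
    l12 (kap k) (dkap k k') (mup n) (dmup n n') f 4 := rfl
  have j5 : l14 (kap k) (dkap k k') (mup n) (dmup n n') p p' f 5 =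
    l12 (kap k) (dkap k k') (mup n) (dmup n n') f 5 := rfl
  have j6 : l14 (kap k) (dkap k k') (mup n) (dmup n n') p p' f 6 =
    l12 (kap k) (dkap k k') (mup n) (dmup n n') f 6 := rfl
  have j7 : l14 (kap k) (dkap k k') (mup n) (dmup n n') p p' f 7 =
    l12 (kap k) (dkap k k') (mup n) (dmup n n') f 7 := rfl
  have j8 : l14 (kap k) (dkap k k') (mup n) (dmup n n') p p' f 8 =
    l12 (kap k) (dkap k k') (mup n) (dmup n n') f 8 := rfl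
  rw [j2, j3, j4, j5, j6, j7, j8]
  simp only [map_mul, Complex.conj_ofReal]
  rcases H.h0.lt_or_eq with hs | hs
  · obtain ⟨j0, j1, j9, j10⟩ := re_l14 (k := k) (k' := k') (n := n) (n' := n') (p := p) (p' := p') H hs h4
    rw [j0, j1, j9, j10]
    ring
  · obtain ⟨-, hl⟩ := z_l14 (k := k) (k' := k') (n := n) (n' := n') (p := p) (p' := p') H hs.symm
    obtain ⟨-, hl'⟩ := z_l12 (k := k) (k' := k') (n := n) (n' := n') H hs.symm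
    have hm0 : m 5 = 0 := by
      rw [m5]
      exact BTI.z_mo BU.Ψ0 H hs.symm 5
    simp only [hl, hl', hm0, ← hs]
    simp

end

/-! ### the remainder -/

/-- the bound of the remainder from `|r₃| ≤ r`, `|r₅| ≤ b`, `|q₀|, |q₂|, |q₄| ≤ q` -/
def pb14 (k : Fin 8 → ℝ → ℝ) (n : Fin 4 → ℝ → ℝ) (p : Fin 2 → ℝ → ℝ) (s c r b q : ℝ) : ℝ :=
  pb12 k n s c r b q + c * s * |p 0 c| * q + c * s ^ 3 * |p 1 c| * q

theorem x2_le {f : ℝ → ℝ} (H : Re f) (hs : 0 < X1 f) (p : Fin 2 → ℝ → ℝ) {z4 : ℂ}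
    (h4 : (X1 f : ℂ) ^ 2 * SE 4 f = (cF f : ℂ) ^ 2 * z4) {q : ℝ} (hq : ‖z4‖ ≤ q) :
    ‖x2 p f‖ ≤ cF f * X1 f * |p 0 (cF f)| * q + cF f * X1 f ^ 3 * |p 1 (cF f)| * q := by
  have hc := H.c0.le
  have h0 := H.h0
  have nr : ∀ x : ℝ, ‖(x : ℂ)‖ = |x| := fun x => Complex.norm_real x
  have ac : |cF f| = cF f := abs_of_nonneg hc
  have as : |X1 f| = X1 f := abs_of_nonneg h0
  have b1 : ‖(cF f : ℂ) * X1 f * p 0 (cF f) * z4‖ ≤ cF f * X1 f * |p 0 (cF f)| * q := by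
    simp only [norm_mul, nr, ac, as]
    gcongr
  have b2 : ‖(cF f : ℂ) * X1 f ^ 3 * p 1 (cF f) * conj z4‖ ≤ cF f * X1 f ^ 3 * |p 1 (cF f)| * q := by
    simp only [norm_mul, norm_pow, nr, ac, as, Complex.norm_conj]
    gcongr
  rw [re_x2 H hs h4]
  exact (norm_add_le _ _).trans (add_le_add b1 b2)

/-- **bound of the remainder** -/
theorem tau14_le {f : ℝ → ℝ} (H : Re f) (k : Fin 8 → ℝ → ℝ) (n : Fin 4 → ℝ → ℝ) (p : Fin 2 → ℝ → ℝ)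
    {m : BU.M9} {z4 : ℂ} (E : Mm f m) (h5 : (X1 f : ℂ) * CE 5 f = 2 * cF f * m 1)
    (h4 : (X1 f : ℂ) ^ 2 * SE 4 f = (cF f : ℂ) ^ 2 * z4) {r b q : ℝ} (hr : ‖m 0‖ ≤ r) (hb : ‖m 1‖ ≤ b)
    (hq2 : ‖m 4‖ ≤ q) (hq0 : ‖m 3‖ ≤ q) (hq4 : ‖z4‖ ≤ q) (hm : X1 f = 0 → m 0 = 0) :
    ‖tau14 k n p f (m 0)‖ ≤ pb14 k n p (X1 f) (cF f) r b q
        * (4 * cF f * X1 f * |k 0 (cF f)| * r + pb14 k n p (X1 f) (cF f) r b q) / 4 := by
  have hr0 : 0 ≤ r := (norm_nonneg _).trans hr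
  have hb0 : 0 ≤ b := (norm_nonneg _).trans hb
  have hq0' : 0 ≤ q := (norm_nonneg _).trans hq0
  have hc := H.c0.le
  have h0 := H.h0
  have hpb : 0 ≤ pb14 k n p (X1 f) (cF f) r b q := by
    unfold pb14 pb12 BTI.pb8
    positivity
  rcases h0.lt_or_eq with hs | hs
  · set ρ : ℂ := (xi8 (kap k) f - 2 * cF f * X1 f * k 0 (cF f) * m 0) + x4 (mup n) f + x2 p f with hρ
    have e : tau14 k n p f (m 0) = ρ * (2 * (2 * cF f * X1 f * k 0 (cF f) * m 0) + ρ) / 4 := by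
      unfold tau14 xi14 xi12
      rw [hρ]
      push_cast
      ring
    have nr : ∀ x : ℝ, ‖(x : ℂ)‖ = |x| := fun x => Complex.norm_real x
    have ac : |cF f| = cF f := abs_of_nonneg hc
    have as : |X1 f| = X1 f := abs_of_nonneg h0
    have n2 : ‖(2 : ℂ)‖ = 2 := by norm_num
    have n4 : ‖(4 : ℂ)‖ = 4 := by norm_num
    have bρ : ‖ρ‖ ≤ pb14 k n p (X1 f) (cF f) r b q := by
      rw [hρ]
      refine (norm_add_le _ _).trans ((add_le_add ((norm_add_le _ _).trans (add_le_add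
        (rest8_le H hs k E hr hq2 hq0) (x4_le H hs n E h5 hr hb))) (x2_le H hs p h4 hq4)).trans (le_of_eq ?_))
      unfold pb14 pb12
      ring
    have b8 : ‖(2 : ℂ) * (2 * cF f * X1 f * k 0 (cF f) * m 0)‖ ≤ 4 * cF f * X1 f * |k 0 (cF f)| * r := by
      simp only [norm_mul, nr, ac, as, n2]
      calc 2 * (2 * cF f * X1 f * |k 0 (cF f)| * ‖m 0‖) = 4 * cF f * X1 f * |k 0 (cF f)| * ‖m 0‖ := by ring
        _ ≤ _ := by gcongr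
    rw [e, norm_div, norm_mul, n4]
    have b9 := (norm_add_le ((2 : ℂ) * (2 * cF f * X1 f * k 0 (cF f) * m 0)) ρ).trans (add_le_add b8 bρ)
    gcongr
  · have et : tau14 k n p f (m 0) = 0 := by
      unfold tau14
      rw [(z_l14 (k := k) (k' := k) (n := n) (n' := n) (p := p) (p' := p) H hs.symm).1, hm hs.symm]
      ring
    rw [et, norm_zero]
    positivity

/-- the remainder at a state -/
theorem tau14_mo {f : ℝ → ℝ} (H : Re f) (k : Fin 8 → ℝ → ℝ) (n : Fin 4 → ℝ → ℝ) (p : Fin 2 → ℝ → ℝ)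
    {Q : Type} [Fintype Q] (Ψ : PsiZ Q) {r b q : ℝ}
    (hr : ‖mo (CZ Ψ) (nf f) (xT f) (ef f) 0‖ ≤ r) (hb : ‖mo (CZ Ψ) (nf f) (xT f) (ef f) 1‖ ≤ b)
    (hq0 : ‖mo (CZ Ψ) (nf f) (xT f) (ef f) 3‖ ≤ q) (hq2 : ‖mo (CZ Ψ) (nf f) (xT f) (ef f) 4‖ ≤ q)
    (hq4 : ‖mo (CZ Ψ) (nf f) (xT f) (ef f) 5‖ ≤ q) :
    ‖tau14 k n p f (mo (CZ Ψ) (nf f) (xT f) (ef f) 0)‖ ≤ pb14 k n p (X1 f) (cF f) r b q
      * (4 * cF f * X1 f * |k 0 (cF f)| * r + pb14 k n p (X1 f) (cF f) r b q) / 4 := by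
  obtain ⟨hE, h5⟩ := mm_moH BU.Psi12 H
  exact tau14_le H k n p hE h5 (mm_se4 Ψ H) hr hb hq2 hq0 hq4 fun h => BTI.z_mo BU.Ψ0 H h 0

end Pool.Agent.FPX.BV
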