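import Mathlib
import Pool.Agent.FPX.XIZ

/-
XIZX (helper22): the deviation of the stereographic start map with fourteen terms, with the exact square of the
linear terms of the displacement (five more slots), bounds of the remainder.
-/

open MeasureTheory Set Filter Topology Complex
open scoped ENNReal NNReal ContDiff ComplexConjugate

noncomputable section

set_option linter.unusedSectionVars false

namespace Pool.Agent.FPX.BV

open Pool.Agent.FPX.BTG (Sta Cls mo aK bK dev)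
open Pool.Agent.FPX.BTN (va e1 nf ef bw)
open Pool.Agent.FPX.UMP (Ef)
open Pool.Agent.FPX.UMQ
open Pool.Agent.FPX.F54 (X1 X2 X_lt)
open Pool.Agent.FPX.OMS (rF cF cF_eq)
open Pool.Agent.FPX.CERQ (xT)
open Pool.Agent.FPX.SYS (CE SE)
open Pool.Agent.FPX.OMR (Re)
open Pool.Agent.FPX.XIM (zf cf cf_pos xi8 q8 g8 xi12 x4 q12 q2s x2 xi14)
open Pool.Agent.FPX.XIP
open Pool.Agent.FPX.BTI (kap dkap u8 Mm)
open Pool.Agent.FPX.BU (mup dmup w14 u12 z_l12 mm_moH rest8_le x4_le pb12)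

/-- **the terms of the deviation**: the 48 terms of `Psi14`, then `conj A ·` `r₃ r₅, conj r₃ conj r₅, r₅², |r₅|², conj r₅²` -/
def PsiX : PsiZ (Fin 53) :=
  ![liZ BU.Psi12 0, liZ BU.Psi12 1, liZ BU.Psi12 2, liZ BU.Psi12 3, liZ BU.Psi12 4, liZ BU.Psi12 5, liZ BU.Psi12
    6, liZ BU.Psi12 7, liZ BU.Psi12 8, liZ BU.Psi12 9, liZ BU.Psi12 10, liZ BU.Psi12 11, liZ BU.Psi12 12, liZ
    BU.Psi12 13, liZ BU.Psi12 14, liZ BU.Psi12 15, liZ BU.Psi12 16, liZ BU.Psi12 17, liZ BU.Psi12 18, liZ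
    BU.Psi12 19, liZ BU.Psi12 20, liZ BU.Psi12 21, liZ BU.Psi12 22, liZ BU.Psi12 23, liZ BU.Psi12 24, liZ
    BU.Psi12 25, liZ BU.Psi12 26, liZ BU.Psi12 27, liZ BU.Psi12 28, liZ BU.Psi12 29, liZ BU.Psi12 30, liZ
    BU.Psi12 31, liZ BU.Psi12 32, liZ BU.Psi12 33, liZ BU.Psi12 34, liZ BU.Psi12 35, liZ BU.Psi12 36, liZ
    BU.Psi12 37, liZ BU.Psi12 38, liZ BU.Psi12 39, liZ BU.Psi12 40, liZ BU.Psi12 41,
    fun m _ B _ _ _ _ _ _ _ _ _ => B * m 5, fun m _ B _ _ _ _ _ _ _ _ _ => B * conj (m 5),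
    fun m A _ _ _ _ _ _ _ _ _ _ => conj A * m 5, fun m A _ _ _ _ _ _ _ _ _ _ => conj A * conj (m 5),
    fun _ _ _ _ _ _ _ _ _ _ _ V => V, fun _ _ _ _ _ _ _ _ _ _ U _ => conj U,
    fun m A _ _ _ _ _ _ _ _ _ _ => conj A * (m 0 * m 1),
    fun m A _ _ _ _ _ _ _ _ _ _ => conj A * (conj (m 0) * conj (m 1)),
    fun m A _ _ _ _ _ _ _ _ _ _ => conj A * m 1 ^ 2,
    fun m A _ _ _ _ _ _ _ _ _ _ => conj A * (m 1 * conj (m 1)),
    fun m A _ _ _ _ _ _ _ _ _ _ => conj A * conj (m 1) ^ 2]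

theorem psiX_lt (q : Fin 48) : PsiX (Fin.castAdd 5 q) = Psi14 q := by
  fin_cases q <;> rfl

/-- a vector with 48 + 5 components -/
def put53 (u : Fin 48 → ℝ) (w : Fin 5 → ℝ) : Fin 53 → ℝ :=
  ![u 0, u 1, u 2, u 3, u 4, u 5, u 6, u 7, u 8, u 9, u 10, u 11, u 12, u 13, u 14, u 15, u 16, u 17, u 18, u 19,
    u 20, u 21, u 22, u 23, u 24, u 25, u 26, u 27, u 28, u 29, u 30, u 31, u 32, u 33, u 34, u 35, u 36, u 37,
    u 38, u 39, u 40, u 41, u 42, u 43, u 44, u 45, u 46, u 47, w 0, w 1, w 2, w 3, w 4]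

/-- the additional coefficients of the slots 11, 13, 34, 35 from the square of the linear terms -/
def sqv (a b d e : ℝ) : Fin 48 → ℝ := fun q =>
  if q = 11 then 2 * a * b else if q = 13 then b ^ 2 else if q = 34 then 2 * a * e else if q = 35 then 2 * b * d
  else 0

/-- the coefficients of the five new slots -/
def sqw (a b d e : ℝ) : Fin 5 → ℝ := ![2 * a * d, 2 * b * e, d ^ 2, 2 * d * e, e ^ 2]

set_option maxRecDepth 8000 in
/-- the new terms split off -/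
theorem devX_put (u : Fin 48 → ℝ) (w : Fin 5 → ℝ) (m : M10) (A B N M S R G P O U V : ℂ) :
    devZ PsiX (put53 u w) m A B N M S R G P O U V = devZ Psi14 u m A B N M S R G P O U V
      + ((w 0 : ℂ) * (conj A * (m 0 * m 1)) + ((w 1 : ℂ) * (conj A * (conj (m 0) * conj (m 1)))
        + ((w 2 : ℂ) * (conj A * m 1 ^ 2) + ((w 3 : ℂ) * (conj A * (m 1 * conj (m 1)))
          + (w 4 : ℂ) * (conj A * conj (m 1) ^ 2))))) := by
  unfold devZ
  have e := Fin.sum_univ_add (a := 48) (b := 5)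
    (fun q : Fin (48 + 5) => (put53 u w q : ℂ) * PsiX q m A B N M S R G P O U V)
  have s5 : ∀ F : Fin 5 → ℂ, ∑ q, F q = F 0 + (F 1 + (F 2 + (F 3 + F 4))) := fun F => by
    simp only [Fin.sum_univ_succ, Fin.sum_univ_zero, add_zero]
    rfl
  have e1 : ∀ q : Fin 48, (put53 u w (Fin.castAdd 5 q) : ℂ) * PsiX (Fin.castAdd 5 q) m A B N M S R G P O U V =
      (u q : ℂ) * Psi14 q m A B N M S R G P O U V := fun q => by
    have hv : put53 u w (Fin.castAdd 5 q) = u q := by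
      fin_cases q <;> rfl
    rw [hv, psiX_lt]
  have e2 : ∑ q : Fin 5, (put53 u w (Fin.natAdd 48 q) : ℂ) * PsiX (Fin.natAdd 48 q) m A B N M S R G P O U V =
      (w 0 : ℂ) * (conj A * (m 0 * m 1)) + ((w 1 : ℂ) * (conj A * (conj (m 0) * conj (m 1)))
        + ((w 2 : ℂ) * (conj A * m 1 ^ 2) + ((w 3 : ℂ) * (conj A * (m 1 * conj (m 1)))
          + (w 4 : ℂ) * (conj A * conj (m 1) ^ 2)))) := by
    rw [s5]
    rfl
  refine e.trans ?_
  rw [e2, Finset.sum_congr rfl fun q _ => e1 q]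

theorem devZ_add {Q : Type} [Fintype Q] (Ψ : PsiZ Q) (u v : Q → ℝ) (m : M10) (A B N M S R G P O U V : ℂ) :
    devZ Ψ (fun q => u q + v q) m A B N M S R G P O U V =
      devZ Ψ u m A B N M S R G P O U V + devZ Ψ v m A B N M S R G P O U V := by
  unfold devZ
  rw [← Finset.sum_add_distrib]
  refine Finset.sum_congr rfl fun q _ => ?_
  push_cast
  ring

set_option maxRecDepth 8000 in
theorem devZ_sqv (a b d e : ℝ) (m : M10) (A B N M S R G P O U V : ℂ) :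
    devZ Psi14 (sqv a b d e) m A B N M S R G P O U V =
      conj A * (2 * a * b * (m 0 * conj (m 0)) + b ^ 2 * conj (m 0) ^ 2 + 2 * a * e * (m 0 * conj (m 1))
        + 2 * b * d * (conj (m 0) * m 1)) := by
  have h11 : Psi14 11 m A B N M S R G P O U V = conj A * (m 0 * conj (m 0)) := rfl
  have h13 : Psi14 13 m A B N M S R G P O U V = conj A * conj (m 0) ^ 2 := rfl
  have h34 : Psi14 34 m A B N M S R G P O U V = conj A * (m 0 * conj (m 1)) := rfl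
  have h35 : Psi14 35 m A B N M S R G P O U V = conj A * (conj (m 0) * m 1) := rfl
  have e1 : ∀ q : Fin 48, ((sqv a b d e q : ℝ) : ℂ) * Psi14 q m A B N M S R G P O U V =
      (if q = 11 then ((2 * a * b : ℝ) : ℂ) * Psi14 11 m A B N M S R G P O U V else 0)
        + ((if q = 13 then ((b ^ 2 : ℝ) : ℂ) * Psi14 13 m A B N M S R G P O U V else 0)
        + ((if q = 34 then ((2 * a * e : ℝ) : ℂ) * Psi14 34 m A B N M S R G P O U V else 0)
        + (if q = 35 then ((2 * b * d : ℝ) : ℂ) * Psi14 35 m A B N M S R G P O U V else 0))) := fun q => by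
    unfold sqv
    by_cases q1 : q = 11
    · subst q1
      have n1 : ¬ (11 : Fin 48) = 13 := by decide
      have n2 : ¬ (11 : Fin 48) = 34 := by decide
      have n3 : ¬ (11 : Fin 48) = 35 := by decide
      rw [if_pos rfl, if_pos rfl, if_neg n1, if_neg n2, if_neg n3]
      ring
    · by_cases q2 : q = 13
      · subst q2
        have n2 : ¬ (13 : Fin 48) = 34 := by decide
        have n3 : ¬ (13 : Fin 48) = 35 := by decide
        rw [if_neg q1, if_pos rfl, if_neg q1, if_pos rfl, if_neg n2, if_neg n3]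
        ring
      · by_cases q3 : q = 34
        · subst q3
          have n3 : ¬ (34 : Fin 48) = 35 := by decide
          rw [if_neg q1, if_neg q2, if_pos rfl, if_neg q1, if_neg q2, if_pos rfl, if_neg n3]
          ring
        · by_cases q4 : q = 35
          · subst q4
            rw [if_neg q1, if_neg q2, if_neg q3, if_pos rfl, if_neg q1, if_neg q2, if_neg q3, if_pos rfl]
            ring
          · rw [if_neg q1, if_neg q2, if_neg q3, if_neg q4, if_neg q1, if_neg q2, if_neg q3, if_neg q4,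
              Complex.ofReal_zero]
            ring
  unfold devZ
  rw [Finset.sum_congr rfl fun q _ => e1 q]
  simp only [Finset.sum_add_distrib, Finset.sum_ite_eq', Finset.mem_univ, if_true]
  rw [h11, h13, h34, h35]
  push_cast
  ring

/-- **the a priori bounds of the 53 terms** -/
def dX : Fin 53 → ℝ :=
  ![8 / 5, 2 / 5, 2 / 5, 1 / 10, 1 / 10, 1 / 10, 5 / 8, 5 / 8, 5 / 8, 2 / 5, 2 / 5, 1 / 10, 1 / 10, 1 / 10,
    5 / 8, 5 / 8, 5 / 8, 5, 6 / 5, 6 / 5, 5, 6 / 5, 6 / 5, 3, 3, 1, 8 / 5, 8 / 5,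
    1, 1, 1 / 4, 1 / 4, 1, 1, 1 / 4, 1 / 4, 3, 3, 101 / 10, 101 / 40, 101 / 10, 101 / 40,
    5 / 8, 5 / 8, 5 / 8, 5 / 8, 23 / 5, 23 / 5, 1 / 4, 1 / 4, 5 / 8, 5 / 8, 5 / 8]

theorem psiLeX : PsiLe PsiX dX := by
  intro m A B N M S R G P O U V h0 h1 h2 h3 h4 h5 h6 hA hB hN hM hS hR hG hP hO hU hV q
  have H := psiLe14 m A B N M S R G P O U V h0 h1 h2 h3 h4 h5 h6 hA hB hN hM hS hR hG hP hO hU hV
  have key : ∀ (y z : ℂ) (a b c : ℝ), ‖y‖ ≤ a → ‖z‖ ≤ b → 0 ≤ a → 8 / 5 * (a * b) ≤ c →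
      ‖conj A * (y * z)‖ ≤ c := by
    intro y z a b c hy hz ha hc
    rw [norm_mul, norm_mul, Complex.norm_conj]
    have h := mul_le_mul hy hz (norm_nonneg _) ha
    have h' := mul_le_mul hA h (mul_nonneg (norm_nonneg _) (norm_nonneg _)) (by norm_num : (0 : ℝ) ≤ 8 / 5)
    exact h'.trans hc
  have c0 : ‖conj (m 0)‖ ≤ 1 / 4 := by rwa [Complex.norm_conj]
  have c1 : ‖conj (m 1)‖ ≤ 31 / 50 := by rwa [Complex.norm_conj]
  fin_cases q
  · exact H 0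
  · exact H 1
  · exact H 2
  · exact H 3
  · exact H 4
  · exact H 5
  · exact H 6
  · exact H 7
  · exact H 8
  · exact H 9
  · exact H 10
  · exact H 11
  · exact H 12
  · exact H 13
  · exact H 14
  · exact H 15
  · exact H 16
  · exact H 17
  · exact H 18
  · exact H 19
  · exact H 20
  · exact H 21
  · exact H 22
  · exact H 23
  · exact H 24
  · exact H 25
  · exact H 26
  · exact H 27
  · exact H 28
  · exact H 29
  · exact H 30
  · exact H 31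
  · exact H 32
  · exact H 33
  · exact H 34
  · exact H 35
  · exact H 36
  · exact H 37
  · exact H 38
  · exact H 39
  · exact H 40
  · exact H 41
  · exact H 42
  · exact H 43
  · exact H 44
  · exact H 45
  · exact H 46
  · exact H 47
  · show ‖conj A * (m 0 * m 1)‖ ≤ 1 / 4
    exact key (m 0) (m 1) (1 / 4) (31 / 50) _ h0 h1 (by norm_num) (by norm_num)
  · show ‖conj A * (conj (m 0) * conj (m 1))‖ ≤ 1 / 4
    exact key (conj (m 0)) (conj (m 1)) (1 / 4) (31 / 50) _ c0 c1 (by norm_num) (by norm_num)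
  · show ‖conj A * m 1 ^ 2‖ ≤ 5 / 8
    rw [pow_two]
    exact key (m 1) (m 1) (31 / 50) (31 / 50) _ h1 h1 (by norm_num) (by norm_num)
  · show ‖conj A * (m 1 * conj (m 1))‖ ≤ 5 / 8
    exact key (m 1) (conj (m 1)) (31 / 50) (31 / 50) _ h1 c1 (by norm_num) (by norm_num)
  · show ‖conj A * conj (m 1) ^ 2‖ ≤ 5 / 8
    rw [pow_two]
    exact key (conj (m 1)) (conj (m 1)) (31 / 50) (31 / 50) _ c1 c1 (by norm_num) (by norm_num)

/-! ### the coefficients -/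

/-- the coefficients of the linear terms of half of the displacement: `c s κ₀, c s³ κ₁, c s³ ν₀, c s⁵ ν₁` -/
def lnX (k : Fin 8 → ℝ → ℝ) (n : Fin 4 → ℝ → ℝ) (s c : ℝ) : Fin 4 → ℝ :=
  ![c * s * k 0 c, c * s ^ 3 * k 1 c, c * s ^ 3 * n 0 c, c * s ^ 5 * n 1 c]

/-- **the coefficients of the deviation of `xi14` with the exact square of the linear terms** -/
def uX (k k' : Fin 8 → ℝ → ℝ) (n n' : Fin 4 → ℝ → ℝ) (p p' : Fin 2 → ℝ → ℝ) (s c : ℝ) (τ : ℂ) : Fin 53 → ℝ :=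
  put53 (fun q => u14 k k' n n' p p' s c τ q
      + sqv (lnX k n s c 0) (lnX k n s c 1) (lnX k n s c 2) (lnX k n s c 3) q)
    (sqw (lnX k n s c 0) (lnX k n s c 1) (lnX k n s c 2) (lnX k n s c 3))

/-- the linear terms of half of the displacement -/
def linX (k : Fin 8 → ℝ → ℝ) (n : Fin 4 → ℝ → ℝ) (s c : ℝ) (r3 r5 : ℂ) : ℂ :=
  (lnX k n s c 0 : ℂ) * r3 + (lnX k n s c 1 : ℂ) * conj r3 + (lnX k n s c 2 : ℂ) * r5
    + (lnX k n s c 3 : ℂ) * conj r5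

/-- the remainder `ξ² / 4 - lin²` -/
def tauX (k : Fin 8 → ℝ → ℝ) (n : Fin 4 → ℝ → ℝ) (p : Fin 2 → ℝ → ℝ) (f : ℝ → ℝ) (r3 r5 : ℂ) : ℂ :=
  xi14 (kap k) (mup n) p f ^ 2 / 4 - linX k n (X1 f) (cF f) r3 r5 ^ 2

section

variable {f : ℝ → ℝ}

/-- the deviation of `xi14` in terms of the 48 slots, with an arbitrary number in the slots of the remainder -/
theorem dev14_eq (H : Re f) (k k' : Fin 8 → ℝ → ℝ) (n n' : Fin 4 → ℝ → ℝ) (p p' : Fin 2 → ℝ → ℝ) {Q : Type}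
    [Fintype Q] (Ψ : PsiZ Q) (τ : ℂ) (A B N M S R D P O U V : ℂ) :
    devZ Psi14 (u14 k k' n n' p p' (X1 f) (cF f) τ) (mo (CZ Ψ) (nf f) (xT f) (ef f)) A B N M
      (((X1 f / cF f : ℝ) : ℂ) * S) (((X1 f / cF f : ℝ) : ℂ) * R) (((X1 f / cF f : ℝ) : ℂ) * D) P O
      (((X1 f / cF f : ℝ) : ℂ) * U) (((X1 f / cF f : ℝ) : ℂ) * V) =
      B + Nm11 (l14 (kap k) (dkap k k') (mup n) (dmup n n') p p') f A B N M S R D P O U V
        + (τ + ((cF f * X1 f * k 0 (cF f) : ℝ) : ℂ) ^ 2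
          * mo (CZ Ψ) (nf f) (xT f) (ef f) 0 ^ 2) * conj A := by
  obtain ⟨m0, m1, m2, m3, m4, m5⟩ := mo_ZH Ψ BU.Psi12 f
  have h4 := mm_se4 Ψ H
  have key := dev12_eq H k k' n n' τ A B N M S R D P O
  have mm : pr9 (mo (CZ Ψ) (nf f) (xT f) (ef f)) = mo (BU.CH BU.Psi12) (nf f) (xT f) (ef f) :=
    prM _ _ _ BU.Psi12
  set m := mo (CZ Ψ) (nf f) (xT f) (ef f) with hm
  set m' := mo (BU.CH BU.Psi12) (nf f) (xT f) (ef f) with hm'
  unfold u14
  rw [devZ_put, mm, key, m0]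
  unfold Nm11 L11 Nm9 L9
  have j2 : l14 (kap k) (dkap k k') (mup n) (dmup n n') p p' f 2 =
    l12 (kap k) (dkap k k') (mup n) (dmup n n') f 2 := rfl
  have j3 : l14 (kap k) (dkap k k') (mup n) (dmup n n') p p' f 3 =
    l12 (kap k) (dkap k k') (mup n) (dmup n n') f 3 := rfl
  have j4 : l14 (kap k) (dkap k k') (mup n) (dmup n n') p p' f 4 =
    l12 (kap k) (dkap k k') (mup n) (dmup n n') f 4 := rfl
  have j5 : l14 (kap k) (dkap k k') (mup n) (dmup n n') p p' f 5 =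
    l12 (kap k) (dkap k k') (mup n) (dmup n n') f 5 := rfl
  have j6 : l14 (kap k) (dkap k k') (mup n) (dmup n n') p p' f 6 =
    l12 (kap k) (dkap k k') (mup n) (dmup n n') f 6 := rfl
  have j7 : l14 (kap k) (dkap k k') (mup n) (dmup n n') p p' f 7 =
    l12 (kap k) (dkap k k') (mup n) (dmup n n') f 7 := rfl
  have j8 : l14 (kap k) (dkap k k') (mup n) (dmup n n') p p' f 8 =
    l12 (kap k) (dkap k k') (mup n) (dmup n n') f 8 := rfl
  rw [j2, j3, j4, j5, j6, j7, j8]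
  simp only [map_mul, Complex.conj_ofReal]
  rcases H.h0.lt_or_eq with hs | hs
  · obtain ⟨j0, j1, j9, j10⟩ := re_l14 (k := k) (k' := k') (n := n) (n' := n') (p := p) (p' := p') H hs h4
    rw [j0, j1, j9, j10]
    ring
  · obtain ⟨-, hl⟩ := z_l14 (k := k) (k' := k') (n := n) (n' := n') (p := p) (p' := p') H hs.symm
    obtain ⟨-, hl'⟩ := z_l12 (k := k) (k' := k') (n := n) (n' := n') H hs.symm
    have hm0 : m 5 = 0 := by
      rw [m5]
      exact BTI.z_mo BU.Ψ0 H hs.symm 5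
    simp only [hl, hl', hm0, ← hs]
    simp

/-- **the deviation of the stereographic map of `xi14` in the real frame, exact square of the linear terms** -/
theorem devLe_BX (H : Re f) (k k' : Fin 8 → ℝ → ℝ) (n n' : Fin 4 → ℝ → ℝ) (p p' : Fin 2 → ℝ → ℝ) :
    DevLe7 (Bst11 (xi14 (kap k) (mup n) p) (l14 (kap k) (dkap k k') (mup n) (dmup n n') p p')) PsiX
      (uX k k' n n' p p' (X1 f) (cF f) (tauX k n p f (mo (CZ PsiX) (nf f) (xT f) (ef f) 0)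
        (mo (CZ PsiX) (nf f) (xT f) (ef f) 1))) f := by
  intro A B N M S R D P O U V
  set m := mo (CZ PsiX) (nf f) (xT f) (ef f) with hm
  set τ := tauX k n p f (m 0) (m 1) with hτ
  have key := dev14_eq H k k' n n' p p' PsiX τ A B N M S R D P O U V
  refine (nst11_le _ _ _ _ _ _ _ _ _ _ _ _ _ _).trans (le_of_eq ?_)
  congr 1
  unfold uX
  rw [devX_put, devZ_add, devZ_sqv, key]
  have et : xi14 (kap k) (mup n) p f ^ 2 / 4 = τ + linX k n (X1 f) (cF f) (m 0) (m 1) ^ 2 := by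
    rw [hτ]
    unfold tauX
    ring
  rw [et]
  unfold linX sqw lnX
  simp only [Matrix.cons_val_zero, Matrix.cons_val_one, Matrix.cons_val]
  push_cast
  ring

/-! ### the remainder -/

/-- the bound of the linear terms -/
def lbX (k : Fin 8 → ℝ → ℝ) (n : Fin 4 → ℝ → ℝ) (s c r b : ℝ) : ℝ :=
  c * s * (|k 0 c| + s ^ 2 * |k 1 c|) * r + c * s ^ 3 * (|n 0 c| + s ^ 2 * |n 1 c|) * b

/-- the bound of the quadratic terms -/
def qbX (k : Fin 8 → ℝ → ℝ) (n : Fin 4 → ℝ → ℝ) (p : Fin 2 → ℝ → ℝ) (s c r b q : ℝ) : ℝ :=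
  4 * c * s * (|k 2 c| + s ^ 2 * |k 3 c| + s ^ 4 * |k 4 c|) * r ^ 2 + 4 * c * s * (|n 2 c| + |n 3 c|) * (r * b)
    + c * s * (|k 5 c| + |k 6 c| + |k 7 c| + |p 0 c| + s ^ 2 * |p 1 c|) * q

/-- **bound of the remainder** -/
theorem tauX_le (H : Re f) (k : Fin 8 → ℝ → ℝ) (n : Fin 4 → ℝ → ℝ) (p : Fin 2 → ℝ → ℝ)
    {m : BU.M9} {z4 : ℂ} (E : Mm f m) (h5 : (X1 f : ℂ) * CE 5 f = 2 * cF f * m 1)
    (h4 : (X1 f : ℂ) ^ 2 * SE 4 f = (cF f : ℂ) ^ 2 * z4) {r b q : ℝ} (hr : ‖m 0‖ ≤ r) (hb : ‖m 1‖ ≤ b)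
    (hq2 : ‖m 4‖ ≤ q) (hq0 : ‖m 3‖ ≤ q) (hq4 : ‖z4‖ ≤ q) :
    ‖tauX k n p f (m 0) (m 1)‖ ≤ qbX k n p (X1 f) (cF f) r b q
        * (lbX k n (X1 f) (cF f) r b + qbX k n p (X1 f) (cF f) r b q / 4) := by
  have hr0 : 0 ≤ r := (norm_nonneg _).trans hr
  have hb0 : 0 ≤ b := (norm_nonneg _).trans hb
  have hq0' : 0 ≤ q := (norm_nonneg _).trans hq0
  have hc := H.c0.le
  have h0 := H.h0
  have hQ : 0 ≤ qbX k n p (X1 f) (cF f) r b q := by
    unfold qbX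
    positivity
  have hL : 0 ≤ lbX k n (X1 f) (cF f) r b := by
    unfold lbX
    positivity
  rcases h0.lt_or_eq with hs | hs
  · set ρ : ℂ := (4 * cF f * X1 f * k 2 (cF f) * (m 0 * conj (m 0)) + 4 * cF f * X1 f ^ 3 * k 3 (cF f) * m 0 ^ 2
        + 4 * cF f * X1 f ^ 5 * k 4 (cF f) * conj (m 0) ^ 2 + cF f * X1 f * k 5 (cF f) * m 4
        + cF f * X1 f * k 6 (cF f) * m 3 + cF f * X1 f * k 7 (cF f) * conj (m 4))
      + (4 * cF f * X1 f * n 2 (cF f) * (m 0 * conj (m 1)) + 4 * cF f * X1 f * n 3 (cF f) * (conj (m 0) * m 1))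
      + (cF f * X1 f * p 0 (cF f) * z4 + cF f * X1 f ^ 3 * p 1 (cF f) * conj z4) with hρ
    have e : tauX k n p f (m 0) (m 1) = ρ * (linX k n (X1 f) (cF f) (m 0) (m 1) + ρ / 4) := by
      unfold tauX xi14 xi12
      rw [BTI.re_xi8 H hs E, BU.re_x4 H hs E h5, re_x2 H hs h4, hρ]
      unfold linX lnX
      simp only [Matrix.cons_val_zero, Matrix.cons_val_one, Matrix.cons_val]
      push_cast
      ring
    have nr : ∀ x : ℝ, ‖(x : ℂ)‖ = |x| := fun x => Complex.norm_real x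
    have ac : |cF f| = cF f := abs_of_nonneg hc
    have as : |X1 f| = X1 f := abs_of_nonneg h0
    have n4 : ‖(4 : ℂ)‖ = 4 := by norm_num
    have n00 := norm_nonneg (m 0)
    have n11 := norm_nonneg (m 1)
    have hr2 : ‖m 0‖ ^ 2 ≤ r ^ 2 := pow_le_pow_left₀ n00 hr 2
    have b2 : ‖(4 : ℂ) * cF f * X1 f * k 2 (cF f) * (m 0 * conj (m 0))‖ ≤
        4 * cF f * X1 f * |k 2 (cF f)| * r ^ 2 := by
      simp only [norm_mul, nr, ac, as, n4, Complex.norm_conj]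
      rw [← pow_two]
      gcongr
    have b3 : ‖(4 : ℂ) * cF f * X1 f ^ 3 * k 3 (cF f) * m 0 ^ 2‖ ≤ 4 * cF f * X1 f ^ 3 * |k 3 (cF f)| * r ^ 2 := by
      simp only [norm_mul, norm_pow, nr, ac, as, n4]
      gcongr
    have b4 : ‖(4 : ℂ) * cF f * X1 f ^ 5 * k 4 (cF f) * conj (m 0) ^ 2‖ ≤
        4 * cF f * X1 f ^ 5 * |k 4 (cF f)| * r ^ 2 := by
      simp only [norm_mul, norm_pow, nr, ac, as, n4, Complex.norm_conj]
      gcongr
    have b5 : ‖(cF f : ℂ) * X1 f * k 5 (cF f) * m 4‖ ≤ cF f * X1 f * |k 5 (cF f)| * q := by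
      simp only [norm_mul, nr, ac, as]
      gcongr
    have b6 : ‖(cF f : ℂ) * X1 f * k 6 (cF f) * m 3‖ ≤ cF f * X1 f * |k 6 (cF f)| * q := by
      simp only [norm_mul, nr, ac, as]
      gcongr
    have b7 : ‖(cF f : ℂ) * X1 f * k 7 (cF f) * conj (m 4)‖ ≤ cF f * X1 f * |k 7 (cF f)| * q := by
      simp only [norm_mul, nr, ac, as, Complex.norm_conj]
      gcongr
    have d3 : ‖(4 : ℂ) * cF f * X1 f * n 2 (cF f) * (m 0 * conj (m 1))‖ ≤
        4 * cF f * X1 f * |n 2 (cF f)| * (r * b) := by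
      simp only [norm_mul, nr, ac, as, n4, Complex.norm_conj]
      gcongr
    have d4 : ‖(4 : ℂ) * cF f * X1 f * n 3 (cF f) * (conj (m 0) * m 1)‖ ≤
        4 * cF f * X1 f * |n 3 (cF f)| * (r * b) := by
      simp only [norm_mul, nr, ac, as, n4, Complex.norm_conj]
      gcongr
    have e1 : ‖(cF f : ℂ) * X1 f * p 0 (cF f) * z4‖ ≤ cF f * X1 f * |p 0 (cF f)| * q := by
      simp only [norm_mul, nr, ac, as]
      gcongr
    have e2 : ‖(cF f : ℂ) * X1 f ^ 3 * p 1 (cF f) * conj z4‖ ≤ cF f * X1 f ^ 3 * |p 1 (cF f)| * q := by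
      simp only [norm_mul, norm_pow, nr, ac, as, Complex.norm_conj]
      gcongr
    have bρ : ‖ρ‖ ≤ qbX k n p (X1 f) (cF f) r b q := by
      rw [hρ]
      refine ((norm_add_le _ _).trans (add_le_add ((norm_add_le _ _).trans (add_le_add ((norm_add_le _ _).trans
        (add_le_add ((norm_add_le _ _).trans (add_le_add ((norm_add_le _ _).trans (add_le_add
        ((norm_add_le _ _).trans (add_le_add ((norm_add_le _ _).trans (add_le_add b2 b3)) b4)) b5)) b6)) b7))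
        ((norm_add_le _ _).trans (add_le_add d3 d4)))) ((norm_add_le _ _).trans (add_le_add e1 e2)))).trans
        (le_of_eq ?_)
      unfold qbX
      ring
    have l1 : ‖((cF f * X1 f * k 0 (cF f) : ℝ) : ℂ) * m 0‖ ≤ cF f * X1 f * |k 0 (cF f)| * r := by
      rw [norm_mul, nr, abs_mul, abs_mul, ac, as]
      gcongr
    have l2 : ‖((cF f * X1 f ^ 3 * k 1 (cF f) : ℝ) : ℂ) * conj (m 0)‖ ≤ cF f * X1 f ^ 3 * |k 1 (cF f)| * r := by
      rw [norm_mul, nr, abs_mul, abs_mul, abs_pow, ac, as, Complex.norm_conj]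
      gcongr
    have l3 : ‖((cF f * X1 f ^ 3 * n 0 (cF f) : ℝ) : ℂ) * m 1‖ ≤ cF f * X1 f ^ 3 * |n 0 (cF f)| * b := by
      rw [norm_mul, nr, abs_mul, abs_mul, abs_pow, ac, as]
      gcongr
    have l4 : ‖((cF f * X1 f ^ 5 * n 1 (cF f) : ℝ) : ℂ) * conj (m 1)‖ ≤ cF f * X1 f ^ 5 * |n 1 (cF f)| * b := by
      rw [norm_mul, nr, abs_mul, abs_mul, abs_pow, ac, as, Complex.norm_conj]
      gcongr
    have bL : ‖linX k n (X1 f) (cF f) (m 0) (m 1)‖ ≤ lbX k n (X1 f) (cF f) r b := by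
      unfold linX lnX
      simp only [Matrix.cons_val_zero, Matrix.cons_val_one, Matrix.cons_val]
      refine ((norm_add_le _ _).trans (add_le_add ((norm_add_le _ _).trans (add_le_add ((norm_add_le _ _).trans
        (add_le_add l1 l2)) l3)) l4)).trans (le_of_eq ?_)
      unfold lbX
      ring
    have bs : ‖linX k n (X1 f) (cF f) (m 0) (m 1) + ρ / 4‖ ≤
        lbX k n (X1 f) (cF f) r b + qbX k n p (X1 f) (cF f) r b q / 4 := by
      refine (norm_add_le _ _).trans (add_le_add bL ?_)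
      rw [norm_div, n4]
      gcongr
    rw [e, norm_mul]
    exact mul_le_mul bρ bs (norm_nonneg _) hQ
  · have et : tauX k n p f (m 0) (m 1) = 0 := by
      unfold tauX linX lnX
      rw [(z_l14 (k := k) (k' := k) (n := n) (n' := n) (p := p) (p' := p) H hs.symm).1, ← hs]
      simp
    rw [et, norm_zero]
    positivity

/-- **the remainder at a state** -/
theorem tauX_mo (H : Re f) (k : Fin 8 → ℝ → ℝ) (n : Fin 4 → ℝ → ℝ) (p : Fin 2 → ℝ → ℝ)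
    {Q : Type} [Fintype Q] (Ψ : PsiZ Q) {r b q : ℝ}
    (hr : ‖mo (CZ Ψ) (nf f) (xT f) (ef f) 0‖ ≤ r) (hb : ‖mo (CZ Ψ) (nf f) (xT f) (ef f) 1‖ ≤ b)
    (hq0 : ‖mo (CZ Ψ) (nf f) (xT f) (ef f) 3‖ ≤ q) (hq2 : ‖mo (CZ Ψ) (nf f) (xT f) (ef f) 4‖ ≤ q)
    (hq4 : ‖mo (CZ Ψ) (nf f) (xT f) (ef f) 5‖ ≤ q) :
    ‖tauX k n p f (mo (CZ Ψ) (nf f) (xT f) (ef f) 0) (mo (CZ Ψ) (nf f) (xT f) (ef f) 1)‖ ≤
      qbX k n p (X1 f) (cF f) r b q * (lbX k n (X1 f) (cF f) r b + qbX k n p (X1 f) (cF f) r b q / 4) := by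
  obtain ⟨hE, h5⟩ := mm_moH BU.Psi12 H
  exact tauX_le H k n p hE h5 (mm_se4 Ψ H) hr hb hq2 hq0 hq4

/-- the remainder when the coefficients of the products of `r₃, r₅` vanish: `q₀` times a linear function of
`|r₃|, |r₅|, q₀` -/
theorem tauX_lin (H : Re f) (k : Fin 8 → ℝ → ℝ) (n : Fin 4 → ℝ → ℝ) (p : Fin 2 → ℝ → ℝ)
    (k2 : k 2 (cF f) = 0) (k3 : k 3 (cF f) = 0) (k4 : k 4 (cF f) = 0) (n2 : n 2 (cF f) = 0) (n3 : n 3 (cF f) = 0)
    {Q : Type} [Fintype Q] (Ψ : PsiZ Q) {r b q R : ℝ}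
    (hr : ‖mo (CZ Ψ) (nf f) (xT f) (ef f) 0‖ ≤ r) (hb : ‖mo (CZ Ψ) (nf f) (xT f) (ef f) 1‖ ≤ b)
    (hq0 : ‖mo (CZ Ψ) (nf f) (xT f) (ef f) 3‖ ≤ q) (hq2 : ‖mo (CZ Ψ) (nf f) (xT f) (ef f) 4‖ ≤ q)
    (hq4 : ‖mo (CZ Ψ) (nf f) (xT f) (ef f) 5‖ ≤ q)
    (hR : cF f * X1 f * (|k 5 (cF f)| + |k 6 (cF f)| + |k 7 (cF f)| + |p 0 (cF f)| + X1 f ^ 2 * |p 1 (cF f)|) = R) :
    ‖tauX k n p f (mo (CZ Ψ) (nf f) (xT f) (ef f) 0) (mo (CZ Ψ) (nf f) (xT f) (ef f) 1)‖ ≤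
      (R * (cF f * X1 f * (|k 0 (cF f)| + X1 f ^ 2 * |k 1 (cF f)|)) * r
        + R * (cF f * X1 f ^ 3 * (|n 0 (cF f)| + X1 f ^ 2 * |n 1 (cF f)|)) * b + R ^ 2 / 4 * q) * q := by
  refine (tauX_mo H k n p Ψ hr hb hq0 hq2 hq4).trans (le_of_eq ?_)
  unfold qbX lbX
  rw [k2, k3, k4, n2, n3, ← hR]
  simp only [abs_zero]
  ring

/-- **the linear start map has no remainder** -/
theorem tauX_zero (H : Re f) (k : Fin 8 → ℝ → ℝ) (n : Fin 4 → ℝ → ℝ) (p : Fin 2 → ℝ → ℝ)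
    (k2 : k 2 (cF f) = 0) (k3 : k 3 (cF f) = 0) (k4 : k 4 (cF f) = 0) (k5 : k 5 (cF f) = 0) (k6 : k 6 (cF f) = 0)
    (k7 : k 7 (cF f) = 0) (n2 : n 2 (cF f) = 0) (n3 : n 3 (cF f) = 0) (p0 : p 0 (cF f) = 0) (p1 : p 1 (cF f) = 0)
    {Q : Type} [Fintype Q] (Ψ : PsiZ Q) :
    tauX k n p f (mo (CZ Ψ) (nf f) (xT f) (ef f) 0) (mo (CZ Ψ) (nf f) (xT f) (ef f) 1) = 0 := by
  have h := tauX_mo H k n p Ψ (q := ‖mo (CZ Ψ) (nf f) (xT f) (ef f) 3‖ + ‖mo (CZ Ψ) (nf f) (xT f) (ef f) 4‖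
    + ‖mo (CZ Ψ) (nf f) (xT f) (ef f) 5‖) le_rfl le_rfl
    (by linarith [norm_nonneg (mo (CZ Ψ) (nf f) (xT f) (ef f) 4), norm_nonneg (mo (CZ Ψ) (nf f) (xT f) (ef f) 5)])
    (by linarith [norm_nonneg (mo (CZ Ψ) (nf f) (xT f) (ef f) 3), norm_nonneg (mo (CZ Ψ) (nf f) (xT f) (ef f) 5)])
    (by linarith [norm_nonneg (mo (CZ Ψ) (nf f) (xT f) (ef f) 3), norm_nonneg (mo (CZ Ψ) (nf f) (xT f) (ef f) 4)])
  have e : qbX k n p (X1 f) (cF f) ‖mo (CZ Ψ) (nf f) (xT f) (ef f) 0‖ ‖mo (CZ Ψ) (nf f) (xT f) (ef f) 1‖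
      (‖mo (CZ Ψ) (nf f) (xT f) (ef f) 3‖ + ‖mo (CZ Ψ) (nf f) (xT f) (ef f) 4‖
        + ‖mo (CZ Ψ) (nf f) (xT f) (ef f) 5‖) = 0 := by
    unfold qbX
    rw [k2, k3, k4, k5, k6, k7, n2, n3, p0, p1]
    simp only [abs_zero]
    ring
  rw [e, zero_mul] at h
  exact norm_le_zero_iff.1 h

/-- **the deviation of the linear start map**: coefficients `κ₀, κ₁, ν₀, ν₁` only, no remainder -/
theorem devLe_BL (H : Re f) (k k' : Fin 8 → ℝ → ℝ) (n n' : Fin 4 → ℝ → ℝ) (p p' : Fin 2 → ℝ → ℝ)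
    (k2 : k 2 (cF f) = 0) (k3 : k 3 (cF f) = 0) (k4 : k 4 (cF f) = 0) (k5 : k 5 (cF f) = 0) (k6 : k 6 (cF f) = 0)
    (k7 : k 7 (cF f) = 0) (n2 : n 2 (cF f) = 0) (n3 : n 3 (cF f) = 0) (p0 : p 0 (cF f) = 0) (p1 : p 1 (cF f) = 0) :
    DevLe7 (Bst11 (xi14 (kap k) (mup n) p) (l14 (kap k) (dkap k k') (mup n) (dmup n n') p p')) PsiX
      (uX k k' n n' p p' (X1 f) (cF f) 0) f := by
  have h := devLe_BX H k k' n n' p p'
  rwa [tauX_zero H k n p k2 k3 k4 k5 k6 k7 n2 n3 p0 p1] at h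

end

end Pool.Agent.FPX.BV
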