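import Mathlib
import Pool.Agent.FPX.BWH
import Pool.Agent.FPX.XIZX
import Pool.Agent.FPX.CEZ

/-
BWI (helper84): the deviation of the start map with the exact square of its linear part (`PsiX` of XIZX); removal of the
zero coefficients of a form; final statements for `CZ PsiX`, in particular for the linear start map (`τ = 0`).
-/

open MeasureTheory Set Filter Topology Complex
open scoped ENNReal NNReal ContDiff ComplexConjugate

noncomputable section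

namespace Pool.Agent.FPX.BRG

open Pool.Agent.FPX.CRD (Bm)
open Pool.Agent.FPX.ALX (St)
open Pool.Agent.FPX.BTN (va e1)
open Pool.Agent.FPX.BTG (mo Cls)
open Pool.Agent.FPX.CEL (uG)

variable {Ω : Type*} [MeasurableSpace Ω]

/-! ### removal of zeros -/

def nzT (T : Tf) : Tf := T.filter fun t => decide (t.1 ≠ 0)
def nzQ (q : Qf) : Qf := q.filter fun t => decide (t.1 ≠ 0)
def nzL (l : Lf) : Lf := l.filter fun t => decide (t.1 ≠ 0)
def nzB (b : Bf) : Bf := b.filter fun t => decide (t.1 ≠ 0)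

variable {z : ℕ → ℂ} {u Z : ℤ → ℂ}

theorem e2_nz (T : Tf) : e2 z u (nzT T) = e2 z u T := by
  induction T with
  | nil => rfl
  | cons t T ih =>
    unfold nzT at ih ⊢
    by_cases h : t.1 = 0
    · rw [List.filter_cons_of_neg (by simp [h]), e2_cons, ih, h]
      simp
    · rw [List.filter_cons_of_pos (by simp [h]), e2_cons, e2_cons, ih]

theorem eq2_nz (q : Qf) : eq2 z Z (nzQ q) = eq2 z Z q := by
  induction q with
  | nil => rfl
  | cons t T ih =>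
    unfold nzQ at ih ⊢
    by_cases h : t.1 = 0
    · rw [List.filter_cons_of_neg (by simp [h]), eq2_cons, ih, h]
      simp
    · rw [List.filter_cons_of_pos (by simp [h]), eq2_cons, eq2_cons, ih]

theorem ev_nz (l : Lf) : ev z u (nzL l) = ev z u l := by
  induction l with
  | nil => rfl
  | cons t T ih =>
    unfold nzL at ih ⊢
    by_cases h : t.1 = 0
    · rw [List.filter_cons_of_neg (by simp [h]), ev_cons, ih, h]
      simp
    · rw [List.filter_cons_of_pos (by simp [h]), ev_cons, ev_cons, ih]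

theorem bev_nz (l : Bf) : bev z (nzB l) = bev z l := by
  induction l with
  | nil => rfl
  | cons t T ih =>
    unfold nzB at ih ⊢
    by_cases h : t.1 = 0
    · rw [List.filter_cons_of_neg (by simp [h]), ih]
      simp [bev, h]
    · rw [List.filter_cons_of_pos (by simp [h])]
      simp only [bev, List.map_cons, List.sum_cons] at ih ⊢
      rw [ih]

def Kr.nz (k : Kr) : Kr := ⟨k.A.map fun p => (p.1, nzL p.2), k.B.map fun p => (p.1, nzB p.2)⟩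

theorem Kr.nz_f (k : Kr) (z : ℕ → ℂ) (u : ℤ → ℂ) (e : ℂ) (x : ℝ) : k.nz.f z u e x = k.f z u e x := by
  unfold Kr.f Kr.nz Kr.pA Kr.pB
  simp only [List.map_map, Function.comp_def, ev_nz, bev_nz]

theorem Kr.nz_par {k : Kr} (h : k.par = true) : k.nz.par = true := by
  unfold Kr.par Kr.nz at *
  simpa [List.all_map, Function.comp_def] using h

/-- the form without zero coefficients -/
def Fm.nz (F : Fm) : Fm := ⟨nzT F.T, nzQ F.Q, F.C, F.k.nz, F.A⟩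

theorem Fm.nz_par {F : Fm} (h : F.par = true) : F.nz.par = true := by
  have h' : (F.k.par && (F.A.par && F.C.all fun c => c.1 % 2 = 1)) = true := h
  rw [Bool.and_eq_true] at h'
  have g : (F.k.nz.par && (F.A.par && F.C.all fun c => c.1 % 2 = 1)) = true := by
    rw [Bool.and_eq_true]
    exact ⟨Kr.nz_par h'.1, h'.2⟩
  exact g

theorem Fm.nz_sem {F : Fm} {ν : Measure Ω} {x : Ω → ℝ} {E : Ω → ℂ} {G : Prop} (h : F.Sem ν x E G) :
    F.nz.Sem ν x E G := by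
  intro q hq hp hT mf H
  refine h q hq hp hT mf fun z => ?_
  have h1 := H z
  have e1 : F.nz.cl mf = F.cl mf := rfl
  have e2' : e2 z (vl ν x E) F.nz.T = e2 z (vl ν x E) F.T := e2_nz _
  have e3 : eq2 z (Zr 2 ν x E) F.nz.Q = eq2 z (Zr 2 ν x E) F.Q := eq2_nz _
  have e4 : ∀ t, ((F.cl mf).kr F.nz.k).f z (vl ν x E) (E t) (x t) =
      ((F.cl mf).kr F.k).f z (vl ν x E) (E t) (x t) := by
    intro t
    rw [Cl.f_eq, Cl.f_eq]
    have : F.nz.k = F.k.nz := rfl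
    rw [this, Kr.nz_f]
  rw [e1, e2', e3] at h1
  simp only [e4] at h1
  exact h1

/-! ### the deviation with the exact square of the linear part -/

open Pool.Agent.FPX.BV (CZ Psi14 PsiX PsiZ devZ liZ pr9)

/-- the deviation of the start map (53 slots; the slots `26, 27` are not used) -/
def dzX (U : Fin 53 → ℚ) : Dz where
  D := [(U 0, 0, 1, 0), (U 1, 3, 1, 0), (U 2, -3, 1, 0), (U 3, 3, 1, 3), (U 4, 3, 1, -3), (U 5, -3, 1, 3),
    (U 9, 3, 0, 0), (U 10, -3, 0, 0), (U 11, 3, 0, 3), (U 12, 3, 0, -3), (U 13, -3, 0, 3),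
    (U 17, 0, 4, 0), (U 18, -3, 4, 0), (U 19, 3, 4, 0), (U 20, 0, 3, 0), (U 21, 3, 3, 0), (U 22, -3, 3, 0),
    (U 28, 5, 1, 0), (U 29, -5, 1, 0), (U 30, 3, 1, 5), (U 31, -3, 1, -5),
    (U 32, 5, 0, 0), (U 33, -5, 0, 0), (U 34, 3, 0, 5), (U 35, -3, 0, -5),
    (U 36, -5, 4, 0), (U 37, 5, 3, 0), (U 38, 0, 6, 0), (U 39, -3, 6, 0), (U 40, 0, 5, 0), (U 41, 3, 5, 0),
    (U 48, 3, 0, -5), (U 49, -3, 0, 5), (U 50, 5, 0, -5), (U 51, 5, 0, 5), (U 52, -5, 0, 5)]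
  Q := [(U 6, 1, 2), (U 7, 1, 0), (U 8, 1, -2), (U 14, 0, 2), (U 15, 0, 0), (U 16, 0, -2),
    (U 42, 1, 4), (U 43, 1, -4), (U 44, 0, 4), (U 45, 0, -4)]
  r := U 23
  s := U 24
  g := U 25
  r4 := U 46
  s4 := U 47

theorem sum53 {M : Type*} [AddCommMonoid M] (f : Fin 53 → M) : ∑ i, f i =
    f 0 + (f 1 + (f 2 + (f 3 + (f 4 + (f 5 + (f 6 + (f 7 + (f 8 + (f 9 + (f 10 + (f 11 + (f 12 + (f 13 + (
    f 14 + (f 15 + (f 16 + (f 17 + (f 18 + (f 19 + (f 20 + (f 21 + (f 22 + (f 23 + (f 24 + (f 25 + (f 26 + (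
    f 27 + (f 28 + (f 29 + (f 30 + (f 31 + (f 32 + (f 33 + (f 34 + (f 35 + (f 36 + (f 37 + (f 38 + (f 39 + (
    f 40 + (f 41 + (f 42 + (f 43 + (f 44 + (f 45 + (f 46 + (f 47 + (f 48 + (f 49 + (f 50 + (
    f 51 + f 52))))))))))))))))))))))))))))))))))))))))))))))))))) := by
  simp only [Fin.sum_univ_succ, Fin.sum_univ_zero, add_zero]
  rfl

theorem hdX {ν : Measure Ω} {x : Ω → ℝ} {E : Ω → ℂ} (H : Fr ν x E) (U : Fin 53 → ℚ) (τ : ℂ)
    (A B z N M S R G P O X Y : ℂ) : devZ PsiX (uG 26 27 (fun q => ((U q : ℚ) : ℝ)) τ) (mo (CZ PsiX) ν x E)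
      A B N M S R G P O X Y =
      (dzX U).vz (zH A B z N M P O) (vl ν x E) (Zr 2 ν x E) S R G X Y + τ * conj A := by
  have e0 : mo (CZ PsiX) ν x E 0 = vl ν x E 3 := (mo_vl (n := 3) (by norm_num)).symm
  have e1 : mo (CZ PsiX) ν x E 1 = vl ν x E 5 := (mo_vl (n := 5) (by norm_num)).symm
  have mz : ∀ n : ℕ, Zr 2 ν x E (n : ℤ) = ∫ t, (x t : ℂ) ^ 2 * E t ^ n ∂ν := fun n => by
    unfold Zr
    simp
  have e3 : mo (CZ PsiX) ν x E 3 = Zr 2 ν x E 0 := by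
    have := mz 0
    simp only [Nat.cast_zero, pow_zero, mul_one] at this
    rw [this]
    rfl
  have e4 : mo (CZ PsiX) ν x E 4 = Zr 2 ν x E 2 := (mz 2).symm
  have e5 : mo (CZ PsiX) ν x E 5 = Zr 2 ν x E 4 := (mz 4).symm
  have u0 : vl ν x E 0 = 1 := by simp [vl]
  have n3 : vl ν x E (-3) = conj (vl ν x E 3) := H.vl_neg 3
  have n5 : vl ν x E (-5) = conj (vl ν x E 5) := H.vl_neg 5
  have y2 : Zr 2 ν x E (-2) = conj (Zr 2 ν x E 2) := H.zc 2 2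
  have y4 : Zr 2 ν x E (-4) = conj (Zr 2 ν x E 4) := H.zc 2 4
  have hτ : τ = (τ.re : ℂ) + (τ.im : ℂ) * Complex.I := (Complex.re_add_im τ).symm
  generalize mo (CZ PsiX) ν x E = m at e0 e1 e3 e4 e5 ⊢
  unfold devZ
  rw [sum53]
  simp only [PsiX, liZ, pr9, BU.Psi12, BU.liH, BTI.Psi8, BTI.mn8, uG, Dz.vz, Dv.val, dzX, Matrix.cons_val_zero,
    Matrix.cons_val_one, Matrix.cons_val,
    List.map_cons, List.map_nil, List.sum_cons, List.sum_nil, zH, e0, e1, e3, e4, e5, u0, n3, n5, y2, y4, Fin.reduceEq,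
    if_true, if_false, Complex.ofReal_ratCast, map_mul, map_one, Complex.conj_conj]
  conv_rhs => rw [hτ]
  ring

/-! ### final statements -/

section fin

variable {s : ℝ} {X : ℝ → ℝ} {v : Fin 29 → ℚ} {μ im : ℚ} {τ : ℂ} {ET : Tf} {EQ : Qf}

/-- the form of the class `CZ` with the start map with 53 slots, zeros removed -/
def FX (v : Fin 29 → ℚ) (im : ℚ) (U : Fin 53 → ℚ) (ET : Tf) (EQ : Qf) : Fm := (FZ v im (dzX U) ET EQ).nz

theorem FX_par (v : Fin 29 → ℚ) (im : ℚ) (U : Fin 53 → ℚ) (ET : Tf) (EQ : Qf) : (FX v im U ET EQ).par = true :=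
  Fm.nz_par (FZ_par _ _ _ _ _)

theorem semX {ν : Measure Ω} {x : Ω → ℝ} {E : Ω → ℂ} (H : Fr ν x E) (hμ : 0 < μ) (him : im * (2 * μ) ≤ 1)
    {U : Fin 53 → ℚ} (hE : ∀ z : ℕ → ℂ, 2 * (z 2 * (τ * conj (z 0))).re ≤
      (e2 z (vl ν x E) ET + eq2 z (Zr 2 ν x E) EQ).re) :
    (FX v im U ET EQ).Sem ν x E (BTG.RW (CZ PsiX) ν x E (fun i => ((v i : ℚ) : ℝ))
      (uG 26 27 (fun q => ((U q : ℚ) : ℝ)) τ) μ 1) :=
  Fm.nz_sem (semZE H hμ him (hdX H U τ) hE)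

/-- **`RW` for `CZ PsiX`**: weight `q` and multipliers `mf` as data; `T'`: any list below the list of the form -/
theorem RWX_Q (hX : St s X) (hb : ∀ a, |X a| ≤ 1) (hμ : 0 < μ) (him : im * (2 * μ) ≤ 1) {U : Fin 53 → ℚ}
    (hE : ∀ z : ℕ → ℂ, 2 * (z 2 * (τ * conj (z 0))).re ≤ (e2 z (vl va X e1) ET + eq2 z (Zr 2 va X e1) EQ).re)
    {w : Wr} (hw : ∀ e : ℂ, ‖e‖ = 1 → 0 < qr w e) (hT : ∫ t, 1 / qr w (e1 t) ∂va ≤ 1) (mf : ℤ → Lf) {T' : Tf}
    (hT' : ∀ z : ℕ → ℂ, (e2 z (vl va X e1) T').re ≤ (e2 z (vl va X e1) ((FX v im U ET EQ).WT w mf)).re)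
    (h : ∀ z : ℕ → ℂ, 0 ≤ (e2 z (vl va X e1) T' + eq2 z (Zr 2 va X e1) ((FX v im U ET EQ).WQ w)).re) :
    BTG.RW (CZ PsiX) va X e1 (fun i => ((v i : ℚ) : ℝ)) (uG 26 27 (fun q => ((U q : ℚ) : ℝ)) τ) μ 1 :=
  Fm.mainQ' (fr_va hX hb) (semX (fr_va hX hb) hμ him hE) (FX_par _ _ _ _ _) hw hT mf hT' h

/-- **`RW` for `CZ PsiX`**, weight of BRP2, multipliers as data, `T'`: any list below the list of the form -/
theorem RWX_P2 (hX : St s X) (hb : ∀ a, |X a| ≤ 1) (hμ : 0 < μ) (him : im * (2 * μ) ≤ 1) {U : Fin 53 → ℚ}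
    (hE : ∀ z : ℕ → ℂ, 2 * (z 2 * (τ * conj (z 0))).re ≤ (e2 z (vl va X e1) ET + eq2 z (Zr 2 va X e1) EQ).re)
    {a b : ℚ} (hab : abok a b = true) (mf : ℤ → Lf) {T' : Tf}
    (hT' : ∀ z : ℕ → ℂ, (e2 z (vl va X e1) T').re ≤ (e2 z (vl va X e1) ((FX v im U ET EQ).WT (wP2 a b) mf)).re)
    (h : ∀ z : ℕ → ℂ, 0 ≤ (e2 z (vl va X e1) T' + eq2 z (Zr 2 va X e1) ((FX v im U ET EQ).WQ (wP2 a b))).re) :
    BTG.RW (CZ PsiX) va X e1 (fun i => ((v i : ℚ) : ℝ)) (uG 26 27 (fun q => ((U q : ℚ) : ℝ)) τ) μ 1 :=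
  RWX_Q hX hb hμ him hE (fun _ he => qr_wP2_pos (abok_r hab) he) (int_wP2 (fr_va hX hb) (abok_r hab)).le mf hT' h

/-- **the linear start map** (`τ = 0`, no extra lists), weight of BRP2, multipliers as data -/
theorem RWL_P2 (hX : St s X) (hb : ∀ a, |X a| ≤ 1) (hμ : 0 < μ) (him : im * (2 * μ) ≤ 1) {U : Fin 53 → ℚ}
    {a b : ℚ} (hab : abok a b = true) (mf : ℤ → Lf) {T' : Tf}
    (hT' : ∀ z : ℕ → ℂ, (e2 z (vl va X e1) T').re ≤ (e2 z (vl va X e1) ((FX v im U [] []).WT (wP2 a b) mf)).re)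
    (h : ∀ z : ℕ → ℂ, 0 ≤ (e2 z (vl va X e1) T' + eq2 z (Zr 2 va X e1) ((FX v im U [] []).WQ (wP2 a b))).re) :
    BTG.RW (CZ PsiX) va X e1 (fun i => ((v i : ℚ) : ℝ)) (uG 26 27 (fun q => ((U q : ℚ) : ℝ)) 0) μ 1 :=
  RWX_P2 hX hb hμ him (fun z => by simp [e2, eq2]) hab mf hT' h

/-- the same with the eliminations `ks` of BWE -/
theorem RWL_ks (hX : St s X) (hb : ∀ a, |X a| ≤ 1) (hμ : 0 < μ) (him : im * (2 * μ) ≤ 1) {U : Fin 53 → ℚ}
    {a b : ℚ} (hab : abok a b = true) (mf : ℤ → Lf) {ks : List (ℕ × ℚ)}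
    (hk : elsFok ks ((FX v im U [] []).WT (wP2 a b) mf) = true)
    (h : ∀ z : ℕ → ℂ, 0 ≤ (e2 z (vl va X e1) (elsF ks ((FX v im U [] []).WT (wP2 a b) mf))
      + eq2 z (Zr 2 va X e1) ((FX v im U [] []).WQ (wP2 a b))).re) :
    BTG.RW (CZ PsiX) va X e1 (fun i => ((v i : ℚ) : ℝ)) (uG 26 27 (fun q => ((U q : ℚ) : ℝ)) 0) μ 1 :=
  RWL_P2 hX hb hμ him hab mf (elsF_le (by simp [vl]) hk) h

end fin

end Pool.Agent.FPX.BRG
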