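import Mathlib
import Pool.Agent.FPX.BWI

/-
BWJ (helper84): quadratic forms with integer coefficients in a list of complex numbers (`Σ_{i ≤ j} W_ij Re (x_i conj x_j)`,
`W` by upper rows); elimination of the first variable and division by a power of two, both rounded downwards.
-/

open Complex
open scoped ComplexConjugate

noncomputable section

namespace Pool.Agent.FPX.BRG

/-- `Σ_j d_j Re (x conj y_j)` -/
def rv : List ℤ → ℂ → List ℂ → ℝ
  | d :: l, x, y :: ys => (d : ℝ) * (x * conj y).re + rv l x ys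
  | _, _, _ => 0

/-- the value of a form -/
def pw : List (List ℤ) → List ℂ → ℝ
  | r :: rs, x :: xs => rv r x (x :: xs) + pw rs xs
  | _, _ => 0

/-- `Σ l_i x_i` -/
def ls : List ℤ → List ℂ → ℂ
  | a :: l, x :: xs => (a : ℂ) * x + ls l xs
  | _, _ => 0

/-- `Σ |x_i|²` -/
def sq : List ℂ → ℝ
  | [] => 0
  | x :: xs => ‖x‖ ^ 2 + sq xs

/-- the shape of the upper rows of an `n × n` matrix -/
def shp : ℕ → List (List ℤ) → Bool
  | 0, [] => true
  | n + 1, r :: rs => Nat.beq r.length (n + 1) && shp n rs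
  | _, _ => false

theorem sq_nonneg' : ∀ xs : List ℂ, 0 ≤ sq xs
  | [] => le_rfl
  | x :: xs => by
    unfold sq
    have := sq_nonneg' xs
    positivity

theorem re_le (x y : ℂ) : |(x * conj y).re| ≤ (‖x‖ ^ 2 + ‖y‖ ^ 2) / 2 := by
  refine (Complex.abs_re_le_norm _).trans ?_
  rw [norm_mul, Complex.norm_conj]
  nlinarith [sq_nonneg (‖x‖ - ‖y‖)]

theorem re_self (x : ℂ) : (x * conj x).re = ‖x‖ ^ 2 := by
  rw [Complex.mul_conj, Complex.normSq_eq_norm_sq]
  exact Complex.ofReal_re _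

theorem rv_ls : ∀ (l : List ℤ) (x : ℂ) (ys : List ℂ), rv l x ys = (x * conj (ls l ys)).re
  | [], x, ys => by simp [rv, ls]
  | _ :: _, x, [] => by simp [rv, ls]
  | d :: l, x, y :: ys => by
    unfold rv ls
    rw [rv_ls l x ys, map_add, mul_add, Complex.add_re, map_mul]
    congr 1
    have : conj ((d : ℤ) : ℂ) = ((d : ℝ) : ℂ) := by simp
    rw [this, show x * (((d : ℝ) : ℂ) * conj y) = ((d : ℝ) : ℂ) * (x * conj y) by ring, Complex.re_ofReal_mul]

/-! ### division -/

def dvr (E : ℤ) (l : List ℤ) : List ℤ := l.map fun d => d / E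

/-- division by `E`, rounded downwards as a form -/
def dvm (E : ℤ) : List (List ℤ) → List (List ℤ)
  | (d :: r) :: rs => ((d / E - 8) :: dvr E r) :: dvm E rs
  | _ => []

theorem div_bd (d : ℤ) {E : ℤ} (hE : 0 < E) : ((d / E : ℤ) : ℝ) ≤ (d : ℝ) / E ∧ (d : ℝ) / E ≤ ((d / E : ℤ) : ℝ) + 1 := by
  have hE' : (0 : ℝ) < (E : ℝ) := by exact_mod_cast hE
  have h1 := Int.ediv_mul_le d hE.ne'
  have h2 := Int.lt_ediv_add_one_mul_self d hE
  have h1' : ((d / E : ℤ) : ℝ) * E ≤ d := by exact_mod_cast h1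
  have h2' : (d : ℝ) < (((d / E : ℤ) : ℝ) + 1) * E := by exact_mod_cast h2
  constructor
  · rw [le_div_iff₀ hE']
    exact h1'
  · rw [div_le_iff₀ hE']
    exact h2'.le

theorem dvr_le {E : ℤ} (hE : 0 < E) (x : ℂ) : ∀ (l : List ℤ) (ys : List ℂ), l.length = ys.length →
    rv (dvr E l) x ys ≤ rv l x ys / E + (ys.length : ℝ) / 2 * ‖x‖ ^ 2 + 1 / 2 * sq ys
  | [], [], _ => by simp [rv, sq, dvr]
  | [], _ :: _, h => by simp at h
  | _ :: _, [], h => by simp at h
  | d :: l, y :: ys, h => by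
    have ih := dvr_le hE x l ys (by simpa using h)
    have hb := div_bd d hE
    have hr := abs_le.1 (re_le x y)
    have e : dvr E (d :: l) = (d / E) :: dvr E l := rfl
    rw [e]
    unfold rv sq
    simp only [List.length_cons]
    push_cast
    have key : ((d / E : ℤ) : ℝ) * (x * conj y).re ≤ (d : ℝ) / E * (x * conj y).re + (‖x‖ ^ 2 + ‖y‖ ^ 2) / 2 := by
      have h1 : 0 ≤ (d : ℝ) / E - ((d / E : ℤ) : ℝ) := by linarith [hb.1]
      have h2 : (d : ℝ) / E - ((d / E : ℤ) : ℝ) ≤ 1 := by linarith [hb.2]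
      have h3 : 0 ≤ (‖x‖ ^ 2 + ‖y‖ ^ 2) / 2 := by positivity
      nlinarith [mul_nonneg h1 (by linarith [hr.1] : 0 ≤ (x * conj y).re + (‖x‖ ^ 2 + ‖y‖ ^ 2) / 2),
        mul_nonneg (sub_nonneg.2 h2) h3]
    have e2 : ((d : ℝ) * (x * conj y).re + rv l x ys) / E = (d : ℝ) / E * (x * conj y).re + rv l x ys / E := by
      ring
    rw [e2]
    linarith

theorem dvm_aux {E : ℤ} (hE : 0 < E) : ∀ (n : ℕ) (W : List (List ℤ)) (xs : List ℂ), shp n W = true → xs.length = n →
    pw (dvm E W) xs + (7 - ((n : ℝ) - 1) / 2) * sq xs ≤ pw W xs / E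
  | 0, [], [], _, _ => by simp [pw, sq, dvm]
  | 0, [], _ :: _, _, h => by simp at h
  | 0, _ :: _, _, h, _ => by simp [shp] at h
  | n + 1, [], _, h, _ => by simp [shp] at h
  | n + 1, _ :: _, [], _, h => by simp at h
  | n + 1, [] :: _, _ :: _, h, _ => by simp [shp] at h
  | n + 1, (d :: r) :: rs, x :: xs, h, h' => by
    unfold shp at h
    rw [Bool.and_eq_true] at h
    have hr : r.length = xs.length := by
      have := Nat.eq_of_beq_eq_true h.1
      simp only [List.length_cons] at this h'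
      omega
    have hn : xs.length = n := by simpa using h'
    have ih := dvm_aux hE n rs xs h.2 hn
    have h1 := dvr_le hE x r xs hr
    have hb := div_bd d hE
    have e : dvm E ((d :: r) :: rs) = ((d / E - 8) :: dvr E r) :: dvm E rs := rfl
    rw [e]
    unfold pw rv
    unfold sq
    rw [re_self]
    rw [hn] at h1
    push_cast
    have hs := sq_nonneg' xs
    have e2 : (((d : ℝ)) * ‖x‖ ^ 2 + rv r x xs + pw rs xs) / E = (d : ℝ) / E * ‖x‖ ^ 2 + rv r x xs / E + pw rs xs / E := by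
      ring
    rw [e2]
    have h3 : ((d / E : ℤ) : ℝ) * ‖x‖ ^ 2 ≤ (d : ℝ) / E * ‖x‖ ^ 2 := mul_le_mul_of_nonneg_right hb.1 (by positivity)
    have hx : 0 ≤ ‖x‖ ^ 2 := by positivity
    nlinarith

/-- **the rounded form is smaller** -/
theorem dvm_le {E : ℤ} (hE : 0 < E) {n : ℕ} (hn : n ≤ 15) {W : List (List ℤ)} {xs : List ℂ} (h : shp n W = true)
    (hx : xs.length = n) : pw (dvm E W) xs ≤ pw W xs / E := by
  have h1 := dvm_aux hE n W xs h hx
  have h2 := sq_nonneg' xs
  have h3 : (n : ℝ) ≤ 15 := by exact_mod_cast hn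
  have : 0 ≤ (7 - ((n : ℝ) - 1) / 2) * sq xs := mul_nonneg (by linarith) h2
  linarith

/-! ### elimination -/

def upr (κ D a : ℤ) : List ℤ → List ℤ → List ℤ
  | r :: rs, b :: bs => (r - κ * a * b / D) :: upr κ D a rs bs
  | _, _ => []

/-- `W - (κ / (2 D)) |l x|²`, rounded downwards -/
def upd (κ D : ℤ) : List ℤ → List (List ℤ) → List (List ℤ)
  | a :: l, (d :: r) :: rs => ((d - κ * a * a / (2 * D) - 8) :: upr κ D a r l) :: upd κ D l rs
  | _, _ => []

theorem upr_le {κ D : ℤ} (hD : 0 < D) (a : ℤ) (x : ℂ) : ∀ (r l : List ℤ) (ys : List ℂ), r.length = ys.length →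
    l.length = ys.length → rv (upr κ D a r l) x ys ≤ rv r x ys - (κ : ℝ) * a / D * rv l x ys
      + (ys.length : ℝ) / 2 * ‖x‖ ^ 2 + 1 / 2 * sq ys
  | [], _, [], _, _ => by simp [rv, sq, upr]
  | [], _, _ :: _, h, _ => by simp at h
  | _ :: _, _, [], h, _ => by simp at h
  | _ :: _, [], _ :: _, _, h => by simp at h
  | r :: rs, b :: bs, y :: ys, h, h' => by
    have ih := upr_le (κ := κ) hD a x rs bs ys (by simpa using h) (by simpa using h')
    have hb := div_bd (κ * a * b) hD
    have hr := abs_le.1 (re_le x y)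
    have e : upr κ D a (r :: rs) (b :: bs) = (r - κ * a * b / D) :: upr κ D a rs bs := rfl
    rw [e]
    unfold rv sq
    simp only [List.length_cons]
    push_cast at hb ⊢
    set q : ℝ := ((κ * a * b / D : ℤ) : ℝ) with hq
    set t : ℝ := (x * conj y).re with ht
    have h1 : 0 ≤ (κ : ℝ) * a * b / D - q := by linarith [hb.1]
    have h2 : (κ : ℝ) * a * b / D - q ≤ 1 := by linarith [hb.2]
    have h3 : 0 ≤ (‖x‖ ^ 2 + ‖y‖ ^ 2) / 2 := by positivity
    have key : ((κ : ℝ) * a * b / D - q) * t ≤ (‖x‖ ^ 2 + ‖y‖ ^ 2) / 2 := by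
      nlinarith [mul_nonneg h1 (by linarith [hr.2] : 0 ≤ (‖x‖ ^ 2 + ‖y‖ ^ 2) / 2 - t),
        mul_nonneg (sub_nonneg.2 h2) h3]
    have e2 : (κ : ℝ) * a / D * ((b : ℝ) * t + rv bs x ys) = (κ : ℝ) * a * b / D * t + (κ : ℝ) * a / D * rv bs x ys := by
      ring
    rw [e2]
    nlinarith

theorem upd_aux {κ D : ℤ} (hκ : 0 ≤ κ) (hD : 0 < D) : ∀ (n : ℕ) (l : List ℤ) (W : List (List ℤ)) (xs : List ℂ),
    shp n W = true → l.length = n → xs.length = n →
    pw (upd κ D l W) xs + (7 - ((n : ℝ) - 1) / 2) * sq xs ≤ pw W xs - (κ : ℝ) / (2 * D) * ‖ls l xs‖ ^ 2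
  | 0, [], [], [], _, _, _ => by simp [pw, sq, upd, ls]
  | 0, _ :: _, _, _, _, h, _ => by simp at h
  | 0, _, _ :: _, _, h, _, _ => by simp [shp] at h
  | 0, _, _, _ :: _, _, _, h => by simp at h
  | n + 1, [], _, _, _, h, _ => by simp at h
  | n + 1, _, [], _, h, _, _ => by simp [shp] at h
  | n + 1, _, _, [], _, _, h => by simp at h
  | n + 1, _ :: _, [] :: _, _ :: _, h, _, _ => by simp [shp] at h
  | n + 1, a :: l, (d :: r) :: rs, x :: xs, h, hl, hx => by
    unfold shp at h
    rw [Bool.and_eq_true] at h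
    have hl' : l.length = n := by simpa using hl
    have hn : xs.length = n := by simpa using hx
    have hr : r.length = xs.length := by
      have := Nat.eq_of_beq_eq_true h.1
      simp only [List.length_cons] at this
      omega
    have ih := upd_aux hκ hD n l rs xs h.2 hl' hn
    have h1 := upr_le (κ := κ) hD a x r l xs hr (by omega)
    have h2D : (0 : ℤ) < 2 * D := by omega
    have hb := div_bd (κ * a * a) h2D
    have e : upd κ D (a :: l) ((d :: r) :: rs) =
        ((d - κ * a * a / (2 * D) - 8) :: upr κ D a r l) :: upd κ D l rs := rfl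
    rw [e]
    unfold pw rv
    unfold sq ls
    rw [re_self]
    rw [hn] at h1
    push_cast at hb ⊢
    set q : ℝ := ((κ * a * a / (2 * D) : ℤ) : ℝ) with hq
    have hD' : (0 : ℝ) < (D : ℝ) := by exact_mod_cast hD
    -- the square
    have e2 : ‖(a : ℂ) * x + ls l xs‖ ^ 2 = (a : ℝ) ^ 2 * ‖x‖ ^ 2 + 2 * a * rv l x xs + ‖ls l xs‖ ^ 2 := by
      rw [rv_ls, ← re_self, ← re_self x, ← re_self (ls l xs)]
      generalize ls l xs = L
      simp only [map_add, map_mul, Complex.add_re, Complex.mul_re, Complex.conj_re, Complex.conj_im, Complex.add_im,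
        Complex.mul_im, Complex.intCast_re, Complex.intCast_im, map_intCast]
      ring
    rw [e2]
    have e3 : (κ : ℝ) / (2 * D) * ((a : ℝ) ^ 2 * ‖x‖ ^ 2 + 2 * a * rv l x xs + ‖ls l xs‖ ^ 2) =
        (κ : ℝ) * a * a / (2 * D) * ‖x‖ ^ 2 + (κ : ℝ) * a / D * rv l x xs + (κ : ℝ) / (2 * D) * ‖ls l xs‖ ^ 2 := by
      field_simp
    rw [e3]
    have hxx : 0 ≤ ‖x‖ ^ 2 := by positivity
    have h3 : ((κ : ℝ) * a * a / (2 * D) - q) * ‖x‖ ^ 2 ≤ 1 * ‖x‖ ^ 2 :=
      mul_le_mul_of_nonneg_right (by linarith [hb.2]) hxx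
    nlinarith

/-- elimination of the first variable (`N`: scale, `κ / N`: the reciprocal of the pivot) -/
def el1 (N κ : ℤ) : List (List ℤ) → List (List ℤ)
  | (_ :: l) :: rs => upd κ (2 * N * N) l rs
  | _ => []

def el1ok (N κ : ℤ) : List (List ℤ) → Bool
  | (a :: _) :: _ => decide (0 ≤ κ) && decide (N * N ≤ κ * a)
  | _ => false

theorem el1_le {N κ : ℤ} (hN : 0 < N) {n : ℕ} (hn : n ≤ 15) {W : List (List ℤ)} {x : ℂ} {xs : List ℂ}
    (h : shp (n + 1) W = true) (hx : xs.length = n) (hk : el1ok N κ W = true) : pw (el1 N κ W) xs ≤ pw W (x :: xs) := by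
  match W, h, hk with
  | [], h, _ => simp [shp] at h
  | [] :: _, h, _ => simp [shp] at h
  | (a :: l) :: rs, h, hk =>
    unfold el1ok at hk
    simp only [Bool.and_eq_true, decide_eq_true_eq] at hk
    obtain ⟨k0, k1⟩ := hk
    unfold shp at h
    rw [Bool.and_eq_true] at h
    have hl : l.length = n := by
      have := Nat.eq_of_beq_eq_true h.1
      simpa using this
    have hD : (0 : ℤ) < 2 * N * N := by positivity
    have h1 := upd_aux k0 hD n l rs xs h.2 hl hx
    have h2 := sq_nonneg' xs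
    have h3 : (n : ℝ) ≤ 15 := by exact_mod_cast hn
    have h4 : 0 ≤ (7 - ((n : ℝ) - 1) / 2) * sq xs := mul_nonneg (by linarith) h2
    have e : el1 N κ ((a :: l) :: rs) = upd κ (2 * N * N) l rs := rfl
    rw [e]
    have e2 : pw ((a :: l) :: rs) (x :: xs) = (a : ℝ) * ‖x‖ ^ 2 + rv l x xs + pw rs xs := by
      have e2' : pw ((a :: l) :: rs) (x :: xs) = (a : ℝ) * (x * conj x).re + rv l x xs + pw rs xs := rfl
      rw [e2', re_self]
    rw [e2, rv_ls]
    have hN' : (0 : ℝ) < (N : ℝ) := by exact_mod_cast hN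
    have k0' : (0 : ℝ) ≤ (κ : ℝ) := by exact_mod_cast k0
    have k1' : (N : ℝ) * N ≤ κ * a := by exact_mod_cast k1
    set L := ls l xs with hL
    push_cast at h1
    have e3 : (κ : ℝ) / (2 * (2 * N * N)) * ‖L‖ ^ 2 = κ * ‖L‖ ^ 2 / (4 * N ^ 2) := by
      field_simp
      ring
    rw [e3] at h1
    -- `a |x|² + Re (x conj L) + κ |L|² / (4 N²) ≥ 0`
    have hκ : 0 < (κ : ℝ) := by
      rcases k0'.lt_or_eq with h | h
      · exact h
      · exfalso
        rw [← h, zero_mul] at k1'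
        nlinarith
    have key : 0 ≤ (a : ℝ) * ‖x‖ ^ 2 + (x * conj L).re + κ * ‖L‖ ^ 2 / (4 * N ^ 2) := by
      have hr := (abs_le.1 ((Complex.abs_re_le_norm (x * conj L)))).1
      rw [norm_mul, Complex.norm_conj] at hr
      have ha : (N : ℝ) ^ 2 / κ ≤ a := by
        rw [div_le_iff₀ hκ]
        nlinarith
      have h5 : (N : ℝ) ^ 2 / κ * ‖x‖ ^ 2 ≤ a * ‖x‖ ^ 2 := mul_le_mul_of_nonneg_right ha (by positivity)
      have h6 : ‖x‖ * ‖L‖ ≤ (N : ℝ) ^ 2 / κ * ‖x‖ ^ 2 + κ * ‖L‖ ^ 2 / (4 * N ^ 2) := by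
        have e4 : (N : ℝ) ^ 2 / κ * ‖x‖ ^ 2 + κ * ‖L‖ ^ 2 / (4 * N ^ 2) - ‖x‖ * ‖L‖ =
            (2 * N ^ 2 * ‖x‖ - κ * ‖L‖) ^ 2 / (4 * N ^ 2 * κ) := by
          field_simp
          ring
        have : 0 ≤ (2 * (N : ℝ) ^ 2 * ‖x‖ - κ * ‖L‖) ^ 2 / (4 * N ^ 2 * κ) := by positivity
        linarith
      linarith
    linarith

theorem upd_shp {κ D : ℤ} : ∀ (n : ℕ) (l : List ℤ) (W : List (List ℤ)), shp n W = true → l.length = n →
    shp n (upd κ D l W) = true
  | 0, [], [], _, _ => rfl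
  | 0, _ :: _, _, _, h => by simp at h
  | 0, _, _ :: _, h, _ => by simp [shp] at h
  | n + 1, [], _, _, h => by simp at h
  | n + 1, _, [], h, _ => by simp [shp] at h
  | n + 1, _ :: _, [] :: _, h, _ => by simp [shp] at h
  | n + 1, a :: l, (d :: r) :: rs, h, hl => by
    unfold shp at h
    rw [Bool.and_eq_true] at h
    have hl' : l.length = n := by simpa using hl
    have hr : r.length = n := by
      have := Nat.eq_of_beq_eq_true h.1
      simpa using this
    have e : upd κ D (a :: l) ((d :: r) :: rs) =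
        ((d - κ * a * a / (2 * D) - 8) :: upr κ D a r l) :: upd κ D l rs := rfl
    have hu : ∀ (r l : List ℤ), r.length = l.length → (upr κ D a r l).length = r.length := by
      intro r
      induction r with
      | nil => intro l _; simp [upr]
      | cons c r ih =>
        intro l hl
        cases l with
        | nil => simp at hl
        | cons b l =>
          have : upr κ D a (c :: r) (b :: l) = (c - κ * a * b / D) :: upr κ D a r l := rfl
          rw [this, List.length_cons, List.length_cons, ih l (by simpa using hl)]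
    rw [e]
    unfold shp
    rw [Bool.and_eq_true]
    refine ⟨?_, upd_shp n l rs h.2 hl'⟩
    rw [List.length_cons, hu r l (by omega), hr]
    exact Nat.beq_refl _

theorem el1_shp {N κ : ℤ} {n : ℕ} {W : List (List ℤ)} (h : shp (n + 1) W = true) : shp n (el1 N κ W) = true := by
  match W, h with
  | [], h => simp [shp] at h
  | [] :: _, h => simp [shp] at h
  | (a :: l) :: rs, h =>
    unfold shp at h
    rw [Bool.and_eq_true] at h
    have hl : l.length = n := by
      have := Nat.eq_of_beq_eq_true h.1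
      simpa using this
    exact upd_shp n l rs h.2 hl

/-- several eliminations -/
def elm (N : ℤ) : List ℤ → List (List ℤ) → List (List ℤ)
  | [], W => W
  | κ :: l, W => elm N l (el1 N κ W)

def elmok (N : ℤ) : List ℤ → List (List ℤ) → Bool
  | [], _ => true
  | κ :: l, W => el1ok N κ W && elmok N l (el1 N κ W)

/-- **several eliminations** -/
theorem elm_le {N : ℤ} (hN : 0 < N) {m : ℕ} (hm : m ≤ 15) : ∀ (l : List ℤ) (W : List (List ℤ)) (ys xs : List ℂ),
    ys.length = l.length → shp (xs.length + ys.length) W = true → xs.length + ys.length ≤ m → elmok N l W = true →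
    pw (elm N l W) xs ≤ pw W (ys ++ xs)
  | [], W, [], xs, _, _, _, _ => le_rfl
  | [], _, _ :: _, _, h, _, _, _ => by simp at h
  | _ :: _, _, [], _, h, _, _, _ => by simp at h
  | κ :: l, W, y :: ys, xs, h, hs, hm', hk => by
    unfold elmok at hk
    rw [Bool.and_eq_true] at hk
    have hs' : shp ((xs.length + ys.length) + 1) W = true := by
      have e : xs.length + (y :: ys).length = (xs.length + ys.length) + 1 := by
        rw [List.length_cons]
        ring
      rw [← e]
      exact hs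
    have h1 := elm_le hN hm l (el1 N κ W) ys xs (by simpa using h) (el1_shp hs') (by
      simp only [List.length_cons] at hm'
      omega) hk.2
    have h2 := el1_le (x := y) (xs := ys ++ xs) hN (n := xs.length + ys.length) (by
      simp only [List.length_cons] at hm'
      omega) hs' (by rw [List.length_append]; ring) hk.1
    exact h1.trans h2

/-! ### lists of rank one terms -/

/-- `Σ_j q W_j f conj f_j` -/
def prT (q : ℚ) : List ℤ → Lf → List Lf → Tf
  | d :: l, f, g :: gs => ((d : ℚ) * q, f, g) :: prT q l f gs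
  | _, _, _ => []

def pmT (q : ℚ) : List (List ℤ) → List Lf → Tf
  | r :: rs, f :: fs => prT q r f (f :: fs) ++ pmT q rs fs
  | _, _ => []

theorem prT_re {z : ℕ → ℂ} {u : ℤ → ℂ} (q : ℚ) (f : Lf) : ∀ (l : List ℤ) (gs : List Lf),
    (e2 z u (prT q l f gs)).re = q * rv l (ev z u f) (gs.map (ev z u))
  | [], gs => by simp [prT, rv]
  | _ :: _, [] => by simp [prT, rv]
  | d :: l, g :: gs => by
    have e : prT q (d :: l) f (g :: gs) = ((d : ℚ) * q, f, g) :: prT q l f gs := rfl
    rw [e, e2_cons, Complex.add_re, prT_re q f l gs]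
    have e3 : rv (d :: l) (ev z u f) ((g :: gs).map (ev z u)) =
        (d : ℝ) * (ev z u f * conj (ev z u g)).re + rv l (ev z u f) (gs.map (ev z u)) := rfl
    rw [e3]
    have c : ((((d : ℚ) * q : ℚ)) : ℂ) = (((d : ℝ) * q : ℝ) : ℂ) := by push_cast; rfl
    simp only [c, Complex.re_ofReal_mul]
    ring

theorem pmT_re {z : ℕ → ℂ} {u : ℤ → ℂ} (q : ℚ) : ∀ (W : List (List ℤ)) (fs : List Lf),
    (e2 z u (pmT q W fs)).re = q * pw W (fs.map (ev z u))
  | [], fs => by simp [pmT, pw]
  | _ :: _, [] => by simp [pmT, pw]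
  | r :: rs, f :: fs => by
    have e : pmT q (r :: rs) (f :: fs) = prT q r f (f :: fs) ++ pmT q rs fs := rfl
    rw [e, e2_append, Complex.add_re, prT_re, pmT_re q rs fs]
    have e3 : pw (r :: rs) ((f :: fs).map (ev z u)) =
        rv r (ev z u f) ((f :: fs).map (ev z u)) + pw rs (fs.map (ev z u)) := rfl
    rw [e3]
    ring

end Pool.Agent.FPX.BRG
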