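import Mathlib
import Pool.Agent.FPX.BWJ

/-
BWK (helper84): the optimal multipliers on the harmonics `1, -1, 3, -3, 5, -5` for a weight
`q = w₀ + 2 w₁ cos 2θ + 2 w₂ cos 4θ`: with `n = I r` the form `2 Re Σ n_k conj r_k - ∫ |Σ n_k e^k|² q` is
`r* (2 I - Iᵗ T I) r`, computed with integers.
-/

open Complex
open scoped ComplexConjugate

noncomputable section

namespace Pool.Agent.FPX.BRG

def g2 (I : List (List ℤ)) (i j : ℕ) : ℤ := (I.getD i []).getD j 0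

/-- the harmonics -/
def hz : ℕ → ℤ
  | 0 => 1
  | 1 => -1
  | 2 => 3
  | 3 => -3
  | 4 => 5
  | _ => -5

/-- the Toeplitz matrix of the weight -/
def tz (w0 w1 w2 : ℤ) (k l : ℕ) : ℤ :=
  match (hz k - hz l).natAbs with
  | 0 => w0
  | 2 => w1
  | 4 => w2
  | _ => 0

theorem tz_symm (w0 w1 w2 : ℤ) (k l : ℕ) : tz w0 w1 w2 k l = tz w0 w1 w2 l k := by
  unfold tz
  rw [← Int.natAbs_neg, neg_sub]

def jz (I : List (List ℤ)) (w0 w1 w2 : ℤ) (k j : ℕ) : ℤ :=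
  tz w0 w1 w2 k 0 * g2 I 0 j + (tz w0 w1 w2 k 1 * g2 I 1 j + (tz w0 w1 w2 k 2 * g2 I 2 j
    + (tz w0 w1 w2 k 3 * g2 I 3 j + (tz w0 w1 w2 k 4 * g2 I 4 j + tz w0 w1 w2 k 5 * g2 I 5 j))))

def xz (P : ℤ) (I : List (List ℤ)) (w0 w1 w2 : ℤ) (i j : ℕ) : ℤ :=
  P * (g2 I i j + g2 I j i) - (g2 I 0 i * jz I w0 w1 w2 0 j + (g2 I 1 i * jz I w0 w1 w2 1 j
    + (g2 I 2 i * jz I w0 w1 w2 2 j + (g2 I 3 i * jz I w0 w1 w2 3 j
    + (g2 I 4 i * jz I w0 w1 w2 4 j + g2 I 5 i * jz I w0 w1 w2 5 j)))))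

/-- upper rows of a symmetric matrix as a form -/
def up6 (x : ℕ → ℕ → ℤ) : List (List ℤ) :=
  [[x 0 0, 2 * x 0 1, 2 * x 0 2, 2 * x 0 3, 2 * x 0 4, 2 * x 0 5], [x 1 1, 2 * x 1 2, 2 * x 1 3, 2 * x 1 4, 2 * x 1 5],
    [x 2 2, 2 * x 2 3, 2 * x 2 4, 2 * x 2 5], [x 3 3, 2 * x 3 4, 2 * x 3 5], [x 4 4, 2 * x 4 5], [x 5 5]]

section alg

variable (T I : Fin 6 → Fin 6 → ℝ) (r : Fin 6 → ℂ)

/-- the multipliers -/
def nn (k : Fin 6) : ℂ := ∑ i, (I k i : ℂ) * r i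

theorem nn_nn (k l : Fin 6) : (nn I r k * conj (nn I r l)).re =
    ∑ i, ∑ j, I k i * I l j * (r i * conj (r j)).re := by
  unfold nn
  rw [map_sum, Finset.sum_mul_sum, Complex.re_sum]
  refine Finset.sum_congr rfl fun i _ => ?_
  rw [Complex.re_sum]
  refine Finset.sum_congr rfl fun j _ => ?_
  rw [map_mul, Complex.conj_ofReal]
  have : (I k i : ℂ) * r i * ((I l j : ℂ) * conj (r j)) = ((I k i * I l j : ℝ) : ℂ) * (r i * conj (r j)) := by
    push_cast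
    ring
  rw [this, Complex.re_ofReal_mul]

theorem nn_r (k : Fin 6) : (nn I r k * conj (r k)).re = ∑ i, I k i * (r i * conj (r k)).re := by
  unfold nn
  rw [Finset.sum_mul, Complex.re_sum]
  refine Finset.sum_congr rfl fun i _ => ?_
  rw [mul_assoc, Complex.re_ofReal_mul]

theorem re_comm (a b : ℂ) : (a * conj b).re = (b * conj a).re := by
  simp only [Complex.mul_re, Complex.conj_re, Complex.conj_im]
  ring

theorem opt_eq : 2 * ∑ k, (nn I r k * conj (r k)).re - ∑ k, ∑ l, T k l * (nn I r k * conj (nn I r l)).re =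
    ∑ i, ∑ j, (I i j + I j i - ∑ k, ∑ l, T k l * I k i * I l j) * (r i * conj (r j)).re := by
  simp only [nn_nn, nn_r]
  have e1 : 2 * ∑ k, ∑ i, I k i * (r i * conj (r k)).re = ∑ i, ∑ j, (I i j + I j i) * (r i * conj (r j)).re := by
    have h1 : ∑ k, ∑ i, I k i * (r i * conj (r k)).re = ∑ i, ∑ j, I j i * (r i * conj (r j)).re := by
      rw [Finset.sum_comm]
    have h2 : ∑ k, ∑ i, I k i * (r i * conj (r k)).re = ∑ i, ∑ j, I i j * (r i * conj (r j)).re := by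
      refine Finset.sum_congr rfl fun i _ => Finset.sum_congr rfl fun j _ => ?_
      rw [re_comm]
    rw [two_mul]
    nth_rewrite 1 [h2]
    rw [h1, ← Finset.sum_add_distrib]
    refine Finset.sum_congr rfl fun i _ => ?_
    rw [← Finset.sum_add_distrib]
    refine Finset.sum_congr rfl fun j _ => ?_
    ring
  have e2 : ∑ k, ∑ l, T k l * ∑ i, ∑ j, I k i * I l j * (r i * conj (r j)).re =
      ∑ i, ∑ j, (∑ k, ∑ l, T k l * I k i * I l j) * (r i * conj (r j)).re := by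
    have a1 : ∀ k l, T k l * ∑ i, ∑ j, I k i * I l j * (r i * conj (r j)).re =
        ∑ i, ∑ j, T k l * I k i * I l j * (r i * conj (r j)).re := fun k l => by
      rw [Finset.mul_sum]
      refine Finset.sum_congr rfl fun i _ => ?_
      rw [Finset.mul_sum]
      refine Finset.sum_congr rfl fun j _ => ?_
      ring
    have a2 : ∀ i j, (∑ k, ∑ l, T k l * I k i * I l j) * (r i * conj (r j)).re =
        ∑ k, ∑ l, T k l * I k i * I l j * (r i * conj (r j)).re := fun i j => by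
      rw [Finset.sum_mul]
      refine Finset.sum_congr rfl fun k _ => ?_
      rw [Finset.sum_mul]
    simp only [a1, a2]
    have s1 : ∀ k, ∑ l, ∑ i, ∑ j, T k l * I k i * I l j * (r i * conj (r j)).re =
        ∑ i, ∑ l, ∑ j, T k l * I k i * I l j * (r i * conj (r j)).re := fun k => Finset.sum_comm
    simp only [s1]
    rw [Finset.sum_comm]
    refine Finset.sum_congr rfl fun i _ => ?_
    have s2 : ∀ k, ∑ l, ∑ j, T k l * I k i * I l j * (r i * conj (r j)).re =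
        ∑ j, ∑ l, T k l * I k i * I l j * (r i * conj (r j)).re := fun k => Finset.sum_comm
    simp only [s2]
    rw [Finset.sum_comm]
  rw [e1, e2, ← Finset.sum_sub_distrib]
  refine Finset.sum_congr rfl fun i _ => ?_
  rw [← Finset.sum_sub_distrib]
  refine Finset.sum_congr rfl fun j _ => ?_
  ring

end alg

theorem up6_val (x : ℕ → ℕ → ℤ) (hx : ∀ i j, x i j = x j i) (r : Fin 6 → ℂ) :
    pw (up6 x) [r 0, r 1, r 2, r 3, r 4, r 5] =
      ∑ i : Fin 6, ∑ j : Fin 6, (x i j : ℝ) * (r i * conj (r j)).re := by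
  have hr : ∀ i j : Fin 6, (r i * conj (r j)).re = (r j * conj (r i)).re := fun i j => re_comm _ _
  have c0 : ((0 : Fin 6) : ℕ) = 0 := rfl
  have c1 : ((1 : Fin 6) : ℕ) = 1 := rfl
  have c2 : ((2 : Fin 6) : ℕ) = 2 := rfl
  have c3 : ((3 : Fin 6) : ℕ) = 3 := rfl
  have c4 : ((4 : Fin 6) : ℕ) = 4 := rfl
  have c5 : ((5 : Fin 6) : ℕ) = 5 := rfl
  simp only [Fin.sum_univ_six, up6, pw, rv, add_zero, c0, c1, c2, c3, c4, c5]
  rw [hx 1 0, hx 2 0, hx 2 1, hx 3 0, hx 3 1, hx 3 2, hx 4 0, hx 4 1, hx 4 2, hx 4 3, hx 5 0, hx 5 1, hx 5 2, hx 5 3,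
    hx 5 4, hr 1 0, hr 2 0, hr 2 1, hr 3 0, hr 3 1, hr 3 2, hr 4 0, hr 4 1, hr 4 2, hr 4 3, hr 5 0, hr 5 1, hr 5 2,
    hr 5 3, hr 5 4]
  push_cast
  ring

/-- **the value of the form with the multipliers `n = I r`**, `I = I' / A`, `T = T' / R` -/
theorem opt_val {A R : ℤ} (hA : 0 < A) (hR : 0 < R) (I : List (List ℤ)) (w0 w1 w2 : ℤ) (r : Fin 6 → ℂ) :
    2 * ∑ k : Fin 6, (nn (fun k i => (g2 I k i : ℝ) / A) r k * conj (r k)).re
      - ∑ k : Fin 6, ∑ l : Fin 6, (tz w0 w1 w2 k l : ℝ) / R *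
        (nn (fun k i => (g2 I k i : ℝ) / A) r k * conj (nn (fun k i => (g2 I k i : ℝ) / A) r l)).re =
      pw (up6 (xz (A * R) I w0 w1 w2)) [r 0, r 1, r 2, r 3, r 4, r 5] / (A * A * R) := by
  have hA' : (A : ℝ) ≠ 0 := by exact_mod_cast hA.ne'
  have hR' : (R : ℝ) ≠ 0 := by exact_mod_cast hR.ne'
  have hx : ∀ i j : ℕ, (xz (A * R) I w0 w1 w2 i j : ℝ) = A * R * (g2 I i j + g2 I j i)
      - ∑ k : Fin 6, ∑ l : Fin 6, (tz w0 w1 w2 k l : ℝ) * g2 I k i * g2 I l j := by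
    intro i j
    unfold xz jz
    have c0 : ((0 : Fin 6) : ℕ) = 0 := rfl
    have c1 : ((1 : Fin 6) : ℕ) = 1 := rfl
    have c2 : ((2 : Fin 6) : ℕ) = 2 := rfl
    have c3 : ((3 : Fin 6) : ℕ) = 3 := rfl
    have c4 : ((4 : Fin 6) : ℕ) = 4 := rfl
    have c5 : ((5 : Fin 6) : ℕ) = 5 := rfl
    simp only [Fin.sum_univ_six, c0, c1, c2, c3, c4, c5]
    push_cast
    ring
  have hsy : ∀ i j : ℕ, xz (A * R) I w0 w1 w2 i j = xz (A * R) I w0 w1 w2 j i := by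
    intro i j
    have h : (xz (A * R) I w0 w1 w2 i j : ℝ) = (xz (A * R) I w0 w1 w2 j i : ℝ) := by
      rw [hx, hx]
      have : ∑ k : Fin 6, ∑ l : Fin 6, (tz w0 w1 w2 k l : ℝ) * g2 I k i * g2 I l j =
          ∑ k : Fin 6, ∑ l : Fin 6, (tz w0 w1 w2 k l : ℝ) * g2 I k j * g2 I l i := by
        rw [Finset.sum_comm]
        refine Finset.sum_congr rfl fun k _ => Finset.sum_congr rfl fun l _ => ?_
        rw [tz_symm]
        ring
      rw [this]
      ring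
    exact_mod_cast h
  rw [up6_val _ hsy, opt_eq, Finset.sum_div]
  refine Finset.sum_congr rfl fun i _ => ?_
  rw [Finset.sum_div]
  refine Finset.sum_congr rfl fun j _ => ?_
  rw [hx]
  have e : ∑ k : Fin 6, ∑ l : Fin 6, (tz w0 w1 w2 k l : ℝ) / R * (g2 I k i / A) * (g2 I l j / A) =
      (∑ k : Fin 6, ∑ l : Fin 6, (tz w0 w1 w2 k l : ℝ) * g2 I k i * g2 I l j) / (A * A * R) := by
    rw [Finset.sum_div]
    refine Finset.sum_congr rfl fun k _ => ?_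
    rw [Finset.sum_div]
    refine Finset.sum_congr rfl fun l _ => ?_
    field_simp
  rw [e]
  field_simp

end Pool.Agent.FPX.BRG
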