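import Mathlib
import Pool.Agent.FPX.BWK

/-
BWKL (helper84): `mean |f|² q` for `f = Σ n_k e^k + x Σ b_l e^l`: the coefficients of `x q Σ b_l e^l`, the Toeplitz part;
the 14 × 14 form of the four eliminated variables, the six right sides and the four coupling forms.
-/

open MeasureTheory Set Filter Topology Complex
open scoped ENNReal NNReal ContDiff ComplexConjugate

noncomputable section

namespace Pool.Agent.FPX.BRG

variable {z : ℕ → ℂ} {u Z : ℤ → ℂ}

/-! ### the mixed part -/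

/-- the coefficient of `e^c` in `x Σ b_l e^l` -/
def bvl (z : ℕ → ℂ) (u : ℤ → ℂ) (B : List (ℤ × Bf)) (c : ℤ) : ℂ :=
  (B.map fun p => if p.1 - c = 1 ∨ p.1 - c = -1 then 0 else bev z p.2 * u (p.1 - c)).sum

theorem bvl_append (B B' : List (ℤ × Bf)) (c : ℤ) : bvl z u (B ++ B') c = bvl z u B c + bvl z u B' c := by
  simp [bvl]

/-- the same as a list -/
def fcB (B : List (ℤ × Bf)) (c : ℤ) : Lf :=
  B.flatMap fun p => if p.1 - c = 1 ∨ p.1 - c = -1 then [] else sh p.2 (p.1 - c)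

theorem ev_flatMap {α : Type*} (l : List α) (f : α → Lf) : ev z u (l.flatMap f) = (l.map fun a => ev z u (f a)).sum := by
  induction l with
  | nil => rfl
  | cons a l ih => simp [ih]

theorem ev_fcB (B : List (ℤ × Bf)) (c : ℤ) : ev z u (fcB B c) = bvl z u B c := by
  unfold fcB bvl
  rw [ev_flatMap]
  congr 1
  refine List.map_congr_left fun p _ => ?_
  split_ifs
  · rfl
  · exact ev_sh _ _

/-- multiplication by a weight -/
def bq (w : Wr) (B : List (ℤ × Bf)) : List (ℤ × Bf) :=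
  w.flatMap fun p => if p.2 = 0 then B.map fun b => (b.1, smB p.1 b.2)
    else (B.map fun b => (b.1 + 2 * (p.2 : ℤ), smB (p.1 / 2) b.2)) ++ B.map fun b => (b.1 - 2 * (p.2 : ℤ), smB (p.1 / 2) b.2)

/-- the value -/
def bqv (z : ℕ → ℂ) (u : ℤ → ℂ) (w : Wr) (B : List (ℤ × Bf)) (c : ℤ) : ℂ :=
  (w.map fun p => if p.2 = 0 then (p.1 : ℂ) * bvl z u B c
    else (p.1 : ℂ) / 2 * (bvl z u B (c - 2 * (p.2 : ℤ)) + bvl z u B (c + 2 * (p.2 : ℤ)))).sum

theorem bvl_sh (B : List (ℤ × Bf)) (s : ℚ) (m c : ℤ) :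
    bvl z u (B.map fun b => (b.1 + m, smB s b.2)) c = (s : ℂ) * bvl z u B (c - m) := by
  unfold bvl
  rw [List.map_map, ← List.sum_map_mul_left]
  congr 1
  refine List.map_congr_left fun p _ => ?_
  simp only [Function.comp_apply]
  have e : p.1 + m - c = p.1 - (c - m) := by ring
  rw [e]
  split_ifs
  · simp
  · rw [bev_smB]
    ring

theorem bvl_bq (w : Wr) (B : List (ℤ × Bf)) (c : ℤ) : bvl z u (bq w B) c = bqv z u w B c := by
  induction w with
  | nil => simp [bq, bqv, bvl]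
  | cons p w ih =>
    have e1 : bq (p :: w) B = (if p.2 = 0 then B.map fun b => (b.1, smB p.1 b.2)
      else (B.map fun b => (b.1 + 2 * (p.2 : ℤ), smB (p.1 / 2) b.2))
        ++ B.map fun b => (b.1 - 2 * (p.2 : ℤ), smB (p.1 / 2) b.2)) ++ bq w B := rfl
    have e2' : bqv z u (p :: w) B c = (if p.2 = 0 then (p.1 : ℂ) * bvl z u B c
      else (p.1 : ℂ) / 2 * (bvl z u B (c - 2 * (p.2 : ℤ)) + bvl z u B (c + 2 * (p.2 : ℤ)))) + bqv z u w B c := rfl
    rw [e1, e2', bvl_append, ih]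
    congr 1
    split_ifs with h
    · have := bvl_sh (z := z) (u := u) B p.1 0 c
      simpa using this
    · rw [bvl_append, bvl_sh]
      have h2 := bvl_sh (z := z) (u := u) B (p.1 / 2) (-(2 * (p.2 : ℤ))) c
      have e3 : (B.map fun b => (b.1 - 2 * (p.2 : ℤ), smB (p.1 / 2) b.2)) =
          B.map fun b => (b.1 + -(2 * (p.2 : ℤ)), smB (p.1 / 2) b.2) := by
        refine List.map_congr_left fun b _ => ?_
        rw [sub_eq_add_neg]
      rw [e3, h2, sub_neg_eq_add]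
      push_cast
      ring

/-- merging of equal harmonics -/
def inB (c : ℤ) (b : Bf) : List (ℤ × Bf) → List (ℤ × Bf)
  | [] => [(c, b)]
  | p :: L => if p.1 = c then (c, p.2 ++ b) :: L else p :: inB c b L

def inb (q : ℚ) (a : ℕ) : Bf → Bf
  | [] => [(q, a)]
  | t :: b => if t.2 = a then (t.1 + q, a) :: b else t :: inb q a b

def mb : Bf → Bf
  | [] => []
  | t :: b => inb t.1 t.2 (mb b)

def mB' : List (ℤ × Bf) → List (ℤ × Bf)
  | [] => []
  | p :: L => inB p.1 p.2 (mB' L)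

/-- merging of the harmonics and of the variables -/
def mB (L : List (ℤ × Bf)) : List (ℤ × Bf) := (mB' L).map fun p => (p.1, mb p.2)

theorem bvl_inB (b : Bf) (c : ℤ) (L : List (ℤ × Bf)) (k : ℤ) :
    bvl z u (inB k b L) c = bvl z u [(k, b)] c + bvl z u L c := by
  induction L with
  | nil => simp [inB, bvl]
  | cons p L ih =>
    unfold inB
    have hc : ∀ (q : ℤ × Bf) (M : List (ℤ × Bf)), bvl z u (q :: M) c = bvl z u [q] c + bvl z u M c := fun q M => by
      simp [bvl]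
    split_ifs with h
    · rw [hc, hc p]
      have : bvl z u [(k, p.2 ++ b)] c = bvl z u [p] c + bvl z u [(k, b)] c := by
        simp only [bvl, List.map_cons, List.map_nil, List.sum_cons, List.sum_nil, add_zero, h]
        split_ifs
        · simp
        · have : bev z (p.2 ++ b) = bev z p.2 + bev z b := by simp [bev]
          rw [this]
          ring
      rw [this]
      ring
    · rw [hc p (inB k b L), ih, hc p L]
      ring

theorem bvl_mB' (L : List (ℤ × Bf)) (c : ℤ) : bvl z u (mB' L) c = bvl z u L c := by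
  induction L with
  | nil => rfl
  | cons p L ih =>
    have e : mB' (p :: L) = inB p.1 p.2 (mB' L) := rfl
    rw [e, bvl_inB, ih]
    simp [bvl]

theorem bev_inb (q : ℚ) (a : ℕ) (b : Bf) : bev z (inb q a b) = (q : ℂ) * z a + bev z b := by
  induction b with
  | nil => simp [inb]
  | cons t b ih =>
    unfold inb
    split_ifs with h
    · rw [bev_cons, bev_cons, h]
      push_cast
      ring
    · rw [bev_cons, bev_cons, ih]
      ring

theorem bev_mb (b : Bf) : bev z (mb b) = bev z b := by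
  induction b with
  | nil => rfl
  | cons t b ih =>
    have e : mb (t :: b) = inb t.1 t.2 (mb b) := rfl
    rw [e, bev_inb, ih, bev_cons]

theorem bvl_mB (L : List (ℤ × Bf)) (c : ℤ) : bvl z u (mB L) c = bvl z u L c := by
  rw [← bvl_mB' L]
  unfold mB bvl
  rw [List.map_map]
  congr 1
  refine List.map_congr_left fun p _ => ?_
  simp only [Function.comp_apply, bev_mb]

/-- **the list of the coefficient of `e^c` in `x q Σ b_l e^l`** -/
def bt (w : Wr) (B : List (ℤ × Bf)) (c : ℤ) : Lf := fcB (mB (bq w B)) c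

theorem ev_bt (w : Wr) (B : List (ℤ × Bf)) (c : ℤ) : ev z u (bt w B c) = bqv z u w B c := by
  unfold bt
  rw [ev_fcB, bvl_mB, bvl_bq]

/-! ### the weighted lists -/

/-- the part `A × A` -/
def aav (z : ℕ → ℂ) (u : ℤ → ℂ) (A : List (ℤ × Lf)) (m : ℤ) : ℂ :=
  (A.map fun p => (A.map fun q => if p.1 - q.1 + m = 0 then ev z u p.2 * conj (ev z u q.2) else 0).sum).sum

theorem e2_T (k : Kr) (m : ℤ) : e2 z u (k.T m) = aav z u k.A m
    + ((k.A.map fun p => ev z u p.2 * conj (bvl z u k.B (p.1 + m))).sum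
      + (k.A.map fun p => bvl z u k.B (p.1 - m) * conj (ev z u p.2)).sum) := by
  unfold Kr.T
  rw [e2_append, e2_append, e2_flatMap, e2_flatMap, e2_flatMap]
  congr 1
  · unfold aav
    congr 1
    refine List.map_congr_left fun p _ => ?_
    rw [e2_flatMap]
    congr 1
    refine List.map_congr_left fun q _ => ?_
    split_ifs <;> simp
  congr 1
  · congr 1
    refine List.map_congr_left fun p _ => ?_
    rw [e2_flatMap]
    unfold bvl
    rw [map_list_sum, List.map_map, ← List.sum_map_mul_left]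
    congr 1
    refine List.map_congr_left fun q _ => ?_
    simp only [Function.comp_apply]
    have e : q.1 - (p.1 + m) = q.1 - p.1 - m := by ring
    rw [e]
    split_ifs
    · simp
    · rw [e2_cons, e2_nil, ev_sh]
      simp
  · simp only [e2_flatMap]
    rw [sum_comm2]
    congr 1
    refine List.map_congr_left fun q _ => ?_
    unfold bvl
    rw [← List.sum_map_mul_right]
    congr 1
    refine List.map_congr_left fun p _ => ?_
    have e : p.1 - (q.1 - m) = p.1 - q.1 + m := by ring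
    rw [e]
    split_ifs
    · simp
    · rw [e2_cons, e2_nil, ev_sh]
      simp

/-- **the weighted list**: `A × A` part and mixed part -/
theorem TW_re (k : Kr) (w : Wr) : (e2 z u (k.TW (wl w))).re =
    (w.map fun p => (p.1 : ℝ) * (aav z u k.A (2 * (p.2 : ℤ))).re).sum
      + 2 * (k.A.map fun p => (ev z u p.2 * conj (bqv z u w k.B p.1)).re).sum := by
  induction w with
  | nil => simp [wl, Kr.TW, bqv]
  | cons p w ih =>
    have e1 : k.TW (wl (p :: w)) = smT p.1 (k.T (2 * (p.2 : ℤ))) ++ k.TW (wl w) := rfl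
    rw [e1, e2_append, Complex.add_re, ih, e2_smT, List.map_cons, List.sum_cons]
    have c : ((p.1 : ℚ) : ℂ) = ((p.1 : ℝ) : ℂ) := by push_cast; rfl
    rw [c, Complex.re_ofReal_mul, e2_T, Complex.add_re, Complex.add_re, sum_re, sum_re]
    have e2' : ∀ q : ℤ × Lf, (ev z u q.2 * conj (bqv z u (p :: w) k.B q.1)).re =
        (p.1 : ℝ) / 2 * ((ev z u q.2 * conj (bvl z u k.B (q.1 + 2 * (p.2 : ℤ)))).re
          + (bvl z u k.B (q.1 - 2 * (p.2 : ℤ)) * conj (ev z u q.2)).re)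
        + (ev z u q.2 * conj (bqv z u w k.B q.1)).re := by
      intro q
      have e3 : bqv z u (p :: w) k.B q.1 = (if p.2 = 0 then (p.1 : ℂ) * bvl z u k.B q.1
        else (p.1 : ℂ) / 2 * (bvl z u k.B (q.1 - 2 * (p.2 : ℤ)) + bvl z u k.B (q.1 + 2 * (p.2 : ℤ))))
          + bqv z u w k.B q.1 := rfl
      rw [e3, map_add, mul_add, Complex.add_re]
      congr 1
      rw [re_comm (bvl z u k.B (q.1 - 2 * (p.2 : ℤ)))]
      have c2 : (p.1 : ℂ) / 2 = (((p.1 : ℝ) / 2 : ℝ) : ℂ) := by push_cast; rfl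
      split_ifs with h
      · rw [h, c, map_mul, Complex.conj_ofReal]
        simp only [Nat.cast_zero, mul_zero, add_zero, sub_zero]
        rw [show ev z u q.2 * (((p.1 : ℝ) : ℂ) * conj (bvl z u k.B q.1)) =
          ((p.1 : ℝ) : ℂ) * (ev z u q.2 * conj (bvl z u k.B q.1)) by ring, Complex.re_ofReal_mul]
        ring
      · rw [c2, map_mul, Complex.conj_ofReal, map_add]
        rw [show ev z u q.2 * ((((p.1 : ℝ) / 2 : ℝ) : ℂ) * (conj (bvl z u k.B (q.1 - 2 * (p.2 : ℤ)))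
            + conj (bvl z u k.B (q.1 + 2 * (p.2 : ℤ))))) =
          (((p.1 : ℝ) / 2 : ℝ) : ℂ) * (ev z u q.2 * conj (bvl z u k.B (q.1 + 2 * (p.2 : ℤ)))
            + ev z u q.2 * conj (bvl z u k.B (q.1 - 2 * (p.2 : ℤ)))) by ring, Complex.re_ofReal_mul, Complex.add_re]
    simp only [e2']
    rw [List.sum_map_add, List.sum_map_mul_left, List.sum_map_add]
    ring

/-! ### the form of 14 variables -/

/-- a form with the coefficients `f i j`, `i ≤ j < 6` -/
def ex6 (f : ℕ → ℕ → ℤ) : List (List ℤ) :=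
  [[f 0 0, f 0 1, f 0 2, f 0 3, f 0 4, f 0 5], [f 1 1, f 1 2, f 1 3, f 1 4, f 1 5], [f 2 2, f 2 3, f 2 4, f 2 5],
    [f 3 3, f 3 4, f 3 5], [f 4 4, f 4 5], [f 5 5]]

/-- the form `Σ f_ij Re (r_i conj r_j) + Σ d_i |y_i|² + N Σ Re (y_i conj h_i)`, `r_i = ρ_i + y_i` for `i ≥ 2`, in the
variables `y₂ y₃ y₄ y₅ ρ₀ .. ρ₅ h₂ .. h₅` -/
def WW (f : ℕ → ℕ → ℤ) (N d2 d3 d4 d5 : ℤ) : List (List ℤ) :=
  [[f 2 2 + d2, f 2 3, f 2 4, f 2 5, f 0 2, f 1 2, 2 * f 2 2, f 2 3, f 2 4, f 2 5, N, 0, 0, 0],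
   [f 3 3 + d3, f 3 4, f 3 5, f 0 3, f 1 3, f 2 3, 2 * f 3 3, f 3 4, f 3 5, 0, N, 0, 0],
   [f 4 4 + d4, f 4 5, f 0 4, f 1 4, f 2 4, f 3 4, 2 * f 4 4, f 4 5, 0, 0, N, 0],
   [f 5 5 + d5, f 0 5, f 1 5, f 2 5, f 3 5, f 4 5, 2 * f 5 5, 0, 0, 0, N],
   [f 0 0, f 0 1, f 0 2, f 0 3, f 0 4, f 0 5, 0, 0, 0, 0],
   [f 1 1, f 1 2, f 1 3, f 1 4, f 1 5, 0, 0, 0, 0],
   [f 2 2, f 2 3, f 2 4, f 2 5, 0, 0, 0, 0],
   [f 3 3, f 3 4, f 3 5, 0, 0, 0, 0],
   [f 4 4, f 4 5, 0, 0, 0, 0],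
   [f 5 5, 0, 0, 0, 0],
   [0, 0, 0, 0], [0, 0, 0], [0, 0], [0]]

theorem WW_val (f : ℕ → ℕ → ℤ) (N d2 d3 d4 d5 : ℤ) (y2 y3 y4 y5 r0 r1 r2 r3 r4 r5 h2 h3 h4 h5 : ℂ) :
    pw (WW f N d2 d3 d4 d5) [y2, y3, y4, y5, r0, r1, r2, r3, r4, r5, h2, h3, h4, h5] =
      pw (ex6 f) [r0, r1, r2 + y2, r3 + y3, r4 + y4, r5 + y5]
        + (d2 * ‖y2‖ ^ 2 + (d3 * ‖y3‖ ^ 2 + (d4 * ‖y4‖ ^ 2 + d5 * ‖y5‖ ^ 2)))
        + N * ((y2 * conj h2).re + ((y3 * conj h3).re + ((y4 * conj h4).re + (y5 * conj h5).re))) := by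
  rw [← re_self y2, ← re_self y3, ← re_self y4, ← re_self y5]
  simp only [WW, ex6, pw, rv, Complex.mul_re, Complex.conj_re, Complex.conj_im, Complex.add_re, Complex.add_im,
    Int.cast_add, Int.cast_mul, Int.cast_ofNat, Int.cast_zero]
  ring

theorem WW_shp (f : ℕ → ℕ → ℤ) (N d2 d3 d4 d5 : ℤ) : shp 14 (WW f N d2 d3 d4 d5) = true := rfl

end Pool.Agent.FPX.BRG
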