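import Mathlib
import Pool.Agent.FPX.XIZX

/-
XIZL (helper22): the deviation of the linear start map `κ₀ C₃ + κ₁ conj C₃ + ν₀ C₅ + ν₁ conj C₅` with 23 terms, no
remainder.
-/

open MeasureTheory Set Filter Topology Complex
open scoped ENNReal NNReal ContDiff ComplexConjugate

noncomputable section

set_option linter.unusedSectionVars false
set_option linter.unusedSimpArgs false

namespace Pool.Agent.FPX.BV

open Pool.Agent.FPX.BTG (Sta Cls mo aK bK dev)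
open Pool.Agent.FPX.BTN (va e1 nf ef bw)
open Pool.Agent.FPX.UMP (Ef)
open Pool.Agent.FPX.UMQ
open Pool.Agent.FPX.F54 (X1 X2 X_lt)
open Pool.Agent.FPX.OMS (rF cF cF_eq)
open Pool.Agent.FPX.CERQ (xT)
open Pool.Agent.FPX.OMR (Re)
open Pool.Agent.FPX.XIM (xi14)
open Pool.Agent.FPX.XIP
open Pool.Agent.FPX.BTI (kap dkap u8 Mm)
open Pool.Agent.FPX.BU (mup dmup w14 u12)

/-- **the terms of the deviation of the linear start map**: `B, B r₃, B conj r₃, B r₅, B conj r₅`, the same four with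
`conj A`, `conj A ·` the ten products of `r₃, conj r₃, r₅, conj r₅`, `M, conj N, M₅, conj N₅`, and `0` -/
def PsiL : PsiZ (Fin 24) :=
  ![fun _ _ B _ _ _ _ _ _ _ _ _ => B,
    fun m _ B _ _ _ _ _ _ _ _ _ => B * m 0,
    fun m _ B _ _ _ _ _ _ _ _ _ => B * conj (m 0),
    fun m _ B _ _ _ _ _ _ _ _ _ => B * m 1,
    fun m _ B _ _ _ _ _ _ _ _ _ => B * conj (m 1),
    fun m A _ _ _ _ _ _ _ _ _ _ => conj A * m 0,
    fun m A _ _ _ _ _ _ _ _ _ _ => conj A * conj (m 0),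
    fun m A _ _ _ _ _ _ _ _ _ _ => conj A * m 1,
    fun m A _ _ _ _ _ _ _ _ _ _ => conj A * conj (m 1),
    fun m A _ _ _ _ _ _ _ _ _ _ => conj A * m 0 ^ 2,
    fun m A _ _ _ _ _ _ _ _ _ _ => conj A * (m 0 * conj (m 0)),
    fun m A _ _ _ _ _ _ _ _ _ _ => conj A * conj (m 0) ^ 2,
    fun m A _ _ _ _ _ _ _ _ _ _ => conj A * (m 0 * m 1),
    fun m A _ _ _ _ _ _ _ _ _ _ => conj A * (m 0 * conj (m 1)),
    fun m A _ _ _ _ _ _ _ _ _ _ => conj A * (conj (m 0) * m 1),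
    fun m A _ _ _ _ _ _ _ _ _ _ => conj A * (conj (m 0) * conj (m 1)),
    fun m A _ _ _ _ _ _ _ _ _ _ => conj A * m 1 ^ 2,
    fun m A _ _ _ _ _ _ _ _ _ _ => conj A * (m 1 * conj (m 1)),
    fun m A _ _ _ _ _ _ _ _ _ _ => conj A * conj (m 1) ^ 2,
    fun _ _ _ _ M _ _ _ _ _ _ _ => M,
    fun _ _ _ N _ _ _ _ _ _ _ _ => conj N,
    fun _ _ _ _ _ _ _ _ _ O _ _ => O,
    fun _ _ _ _ _ _ _ _ P _ _ _ => conj P,
    fun _ _ _ _ _ _ _ _ _ _ _ _ => 0]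

/-- their a priori bounds -/
def dL : Fin 24 → ℝ :=
  ![8 / 5, 2 / 5, 2 / 5, 1, 1, 2 / 5, 2 / 5, 1, 1, 1 / 10, 1 / 10, 1 / 10, 1 / 4, 1 / 4, 1 / 4, 1 / 4,
    5 / 8, 5 / 8, 5 / 8, 117 / 25, 117 / 25, 101 / 10, 101 / 10, 0]

theorem psiLeL : PsiLe PsiL dL := by
  intro m A B N M S R G P O U V h0 h1 h2 h3 h4 h5 h6 hA hB hN hM hS hR hG hP hO hU hV q
  have c0 : ‖conj (m 0)‖ ≤ 1 / 4 := by rwa [Complex.norm_conj]
  have c1 : ‖conj (m 1)‖ ≤ 31 / 50 := by rwa [Complex.norm_conj]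
  have cA : ‖conj A‖ ≤ 8 / 5 := by rwa [Complex.norm_conj]
  have k1 : ∀ (x y : ℂ) (a c : ℝ), ‖x‖ ≤ 8 / 5 → ‖y‖ ≤ a → 8 / 5 * a ≤ c → ‖x * y‖ ≤ c := by
    intro x y a c hx hy hc
    rw [norm_mul]
    exact (mul_le_mul hx hy (norm_nonneg _) (by norm_num)).trans hc
  have k2 : ∀ (x y : ℂ) (a b : ℝ), ‖x‖ ≤ a → ‖y‖ ≤ b → 0 ≤ a → ‖x * y‖ ≤ a * b := by
    intro x y a b hx hy ha
    rw [norm_mul]
    exact mul_le_mul hx hy (norm_nonneg _) ha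
  fin_cases q
  · exact hB
  · exact k1 _ _ _ (2 / 5) hB h0 (by norm_num)
  · exact k1 _ _ _ (2 / 5) hB c0 (by norm_num)
  · exact k1 _ _ _ 1 hB h1 (by norm_num)
  · exact k1 _ _ _ 1 hB c1 (by norm_num)
  · exact k1 _ _ _ (2 / 5) cA h0 (by norm_num)
  · exact k1 _ _ _ (2 / 5) cA c0 (by norm_num)
  · exact k1 _ _ _ 1 cA h1 (by norm_num)
  · exact k1 _ _ _ 1 cA c1 (by norm_num)
  · show ‖conj A * m 0 ^ 2‖ ≤ 1 / 10
    rw [pow_two]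
    exact k1 _ _ _ (1 / 10) cA (k2 _ _ _ _ h0 h0 (by norm_num)) (by norm_num)
  · exact k1 _ _ _ (1 / 10) cA (k2 _ _ _ _ h0 c0 (by norm_num)) (by norm_num)
  · show ‖conj A * conj (m 0) ^ 2‖ ≤ 1 / 10
    rw [pow_two]
    exact k1 _ _ _ (1 / 10) cA (k2 _ _ _ _ c0 c0 (by norm_num)) (by norm_num)
  · exact k1 _ _ _ (1 / 4) cA (k2 _ _ _ _ h0 h1 (by norm_num)) (by norm_num)
  · exact k1 _ _ _ (1 / 4) cA (k2 _ _ _ _ h0 c1 (by norm_num)) (by norm_num)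
  · exact k1 _ _ _ (1 / 4) cA (k2 _ _ _ _ c0 h1 (by norm_num)) (by norm_num)
  · exact k1 _ _ _ (1 / 4) cA (k2 _ _ _ _ c0 c1 (by norm_num)) (by norm_num)
  · show ‖conj A * m 1 ^ 2‖ ≤ 5 / 8
    rw [pow_two]
    exact k1 _ _ _ (5 / 8) cA (k2 _ _ _ _ h1 h1 (by norm_num)) (by norm_num)
  · exact k1 _ _ _ (5 / 8) cA (k2 _ _ _ _ h1 c1 (by norm_num)) (by norm_num)
  · show ‖conj A * conj (m 1) ^ 2‖ ≤ 5 / 8
    rw [pow_two]
    exact k1 _ _ _ (5 / 8) cA (k2 _ _ _ _ c1 c1 (by norm_num)) (by norm_num)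
  · exact hM
  · show ‖conj N‖ ≤ 117 / 25
    rwa [Complex.norm_conj]
  · exact hO
  · show ‖conj P‖ ≤ 101 / 10
    rwa [Complex.norm_conj]
  · show ‖(0 : ℂ)‖ ≤ 0
    rw [norm_zero]

/-- **the coefficients of the deviation of the linear start map** -/
def uL (k k' : Fin 8 → ℝ → ℝ) (n n' : Fin 4 → ℝ → ℝ) (s c : ℝ) : Fin 24 → ℝ :=
  ![1,
    -(c * s ^ 2 * k' 0 c),
    -(c * s ^ 4 * k' 1 c) + 8 * c ^ 2 * s ^ 2 * k 1 c,
    -(c * s ^ 4 * n' 0 c),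
    -(c * s ^ 6 * n' 1 c) + 12 * c ^ 2 * s ^ 4 * n 1 c,
    -(c * s ^ 2 * k' 0 c) + 4 * c ^ 2 * k 0 c,
    -(c * s ^ 4 * k' 1 c),
    -(c * s ^ 4 * n' 0 c) + 8 * c ^ 2 * s ^ 2 * n 0 c,
    -(c * s ^ 6 * n' 1 c),
    c ^ 2 * s ^ 2 * k 0 c ^ 2,
    2 * c ^ 2 * s ^ 4 * (k 0 c * k 1 c),
    c ^ 2 * s ^ 6 * k 1 c ^ 2,
    2 * c ^ 2 * s ^ 4 * (k 0 c * n 0 c),
    2 * c ^ 2 * s ^ 6 * (k 0 c * n 1 c),
    2 * c ^ 2 * s ^ 6 * (k 1 c * n 0 c),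
    2 * c ^ 2 * s ^ 8 * (k 1 c * n 1 c),
    c ^ 2 * s ^ 6 * n 0 c ^ 2,
    2 * c ^ 2 * s ^ 8 * (n 0 c * n 1 c),
    c ^ 2 * s ^ 10 * n 1 c ^ 2,
    s ^ 2 * k 0 c,
    s ^ 4 * k 1 c,
    s ^ 4 * n 0 c,
    s ^ 6 * n 1 c,
    0]

/-- the coefficients which vanish for the linear start map -/
structure Lin0 (k k' : Fin 8 → ℝ → ℝ) (n n' : Fin 4 → ℝ → ℝ) (p p' : Fin 2 → ℝ → ℝ) (c : ℝ) : Prop where
  k : ∀ j : Fin 8, 2 ≤ j → k j c = 0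
  k' : ∀ j : Fin 8, 2 ≤ j → k' j c = 0
  n : ∀ j : Fin 4, 2 ≤ j → n j c = 0
  n' : ∀ j : Fin 4, 2 ≤ j → n' j c = 0
  p : ∀ j, p j c = 0
  p' : ∀ j, p' j c = 0

theorem sum24 {M : Type*} [AddCommMonoid M] (f : Fin 24 → M) : ∑ i, f i =
    f 0 + (f 1 + (f 2 + (f 3 + (f 4 + (f 5 + (f 6 + (f 7 + (f 8 + (f 9 + (f 10 + (f 11 + (f 12 + (f 13
    + (f 14 + (f 15 + (f 16 + (f 17 + (f 18 + (f 19 + (f 20 + (f 21 + (f 22 + f 23)))))))))))))))))))))) := by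
  simp only [Fin.sum_univ_succ, Fin.sum_univ_zero, add_zero]
  rfl

/-- the value of `devH` for the linear start map -/
theorem devH_lin {k k' : Fin 8 → ℝ → ℝ} {n n' : Fin 4 → ℝ → ℝ} {p p' : Fin 2 → ℝ → ℝ} {s c : ℝ}
    (H : Lin0 k k' n n' p p' c) (m : BU.M9) (A B N M S R G P O : ℂ) :
    BU.devH BU.Psi12 (u12 k k' n n' s c 0) m A B N M S R G P O =
      B + (-(c * s ^ 2 * k' 0 c) : ℝ) * (B * m 0) + (-(c * s ^ 4 * k' 1 c) + 8 * c ^ 2 * s ^ 2 * k 1 c : ℝ)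
        * (B * conj (m 0)) + (-(c * s ^ 4 * n' 0 c) : ℝ) * (B * m 1)
        + (-(c * s ^ 6 * n' 1 c) + 12 * c ^ 2 * s ^ 4 * n 1 c : ℝ) * (B * conj (m 1))
        + (-(c * s ^ 2 * k' 0 c) + 4 * c ^ 2 * k 0 c : ℝ) * (conj A * m 0)
        + (-(c * s ^ 4 * k' 1 c) : ℝ) * (conj A * conj (m 0))
        + (-(c * s ^ 4 * n' 0 c) + 8 * c ^ 2 * s ^ 2 * n 0 c : ℝ) * (conj A * m 1)
        + (-(c * s ^ 6 * n' 1 c) : ℝ) * (conj A * conj (m 1)) + (c ^ 2 * s ^ 2 * k 0 c ^ 2 : ℝ) * (conj A * m 0 ^ 2)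
        + (s ^ 2 * k 0 c : ℝ) * M + (s ^ 4 * k 1 c : ℝ) * conj N + (s ^ 4 * n 0 c : ℝ) * O
        + (s ^ 6 * n 1 c : ℝ) * conj P := by
  have k2 : k 2 c = 0 := H.k 2 (by decide)
  have k3 : k 3 c = 0 := H.k 3 (by decide)
  have k4 : k 4 c = 0 := H.k 4 (by decide)
  have k5 : k 5 c = 0 := H.k 5 (by decide)
  have k6 : k 6 c = 0 := H.k 6 (by decide)
  have k7 : k 7 c = 0 := H.k 7 (by decide)
  have l2 : k' 2 c = 0 := H.k' 2 (by decide)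
  have l3 : k' 3 c = 0 := H.k' 3 (by decide)
  have l4 : k' 4 c = 0 := H.k' 4 (by decide)
  have l5 : k' 5 c = 0 := H.k' 5 (by decide)
  have l6 : k' 6 c = 0 := H.k' 6 (by decide)
  have l7 : k' 7 c = 0 := H.k' 7 (by decide)
  have n2 : n 2 c = 0 := H.n 2 (by decide)
  have n3 : n 3 c = 0 := H.n 3 (by decide)
  have q2 : n' 2 c = 0 := H.n' 2 (by decide)
  have q3 : n' 3 c = 0 := H.n' 3 (by decide)
  unfold BU.devH
  rw [BU.sum42]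
  simp only [BU.Psi12, BU.liH, BTI.Psi8, BTI.mn8, u12, u8, w14, Matrix.cons_val_zero, Matrix.cons_val_one,
    Matrix.cons_val, k2, k3, k4, k5, k6, k7, l2, l3, l4, l5, l6, l7, n2, n3, q2, q3, Complex.zero_re,
    Complex.zero_im]
  push_cast
  ring

theorem devL_eq {k k' : Fin 8 → ℝ → ℝ} {n n' : Fin 4 → ℝ → ℝ} {p p' : Fin 2 → ℝ → ℝ} {s c : ℝ}
    (H : Lin0 k k' n n' p p' c) (m : M10) (A B N M S R G P O U V : ℂ) :
    devZ PsiX (uX k k' n n' p p' s c 0) m A B N M S R G P O U V =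
      devZ PsiL (uL k k' n n' s c) m A B N M S R G P O U V := by
  have p0 : p 0 c = 0 := H.p 0
  have p1 : p 1 c = 0 := H.p 1
  have r0 : p' 0 c = 0 := H.p' 0
  have r1 : p' 1 c = 0 := H.p' 1
  unfold uX u14
  rw [devX_put, devZ_add, devZ_sqv, devZ_put, devH_lin H]
  unfold devZ
  rw [sum24]
  simp only [PsiL, uL, w6, sqw, lnX, pr9, Matrix.cons_val_zero, Matrix.cons_val_one, Matrix.cons_val, p0, p1, r0,
    r1]
  push_cast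
  ring

/-- **the deviation of the linear start map in the real frame: 23 terms, no remainder** -/
theorem devLe_L {f : ℝ → ℝ} (H : Re f) {k k' : Fin 8 → ℝ → ℝ} {n n' : Fin 4 → ℝ → ℝ} {p p' : Fin 2 → ℝ → ℝ}
    (L : Lin0 k k' n n' p p' (cF f)) :
    DevLe7 (Bst11 (xi14 (kap k) (mup n) p) (l14 (kap k) (dkap k k') (mup n) (dmup n n') p p')) PsiL
      (uL k k' n n' (X1 f) (cF f)) f := by
  have h := devLe_BL H k k' n n' p p' (L.k 2 (by decide)) (L.k 3 (by decide)) (L.k 4 (by decide))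
    (L.k 5 (by decide)) (L.k 6 (by decide)) (L.k 7 (by decide)) (L.n 2 (by decide)) (L.n 3 (by decide)) (L.p 0)
    (L.p 1)
  intro A B N M S R D P O U V
  have h' := h A B N M S R D P O U V
  have e : mo (CZ PsiX) (nf f) (xT f) (ef f) = mo (CZ PsiL) (nf f) (xT f) (ef f) := rfl
  rw [devL_eq L, e] at h'
  exact h'

end Pool.Agent.FPX.BV
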