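import Mathlib
import Pool.Agent.FPX.BWC
import Pool.Agent.FPX.XIZL

/-
BWL (helper22): the deviation of the linear start map (`PsiL`, 23 terms) in the format of BRY.
-/

open MeasureTheory Set Filter Topology Complex
open scoped ComplexConjugate

noncomputable section

set_option linter.unusedSectionVars false
set_option linter.unusedSimpArgs false

namespace Pool.Agent.FPX.BRG

open Pool.Agent.FPX.BTG (mo)
open Pool.Agent.FPX.BV (CZ PsiL devZ sum24)

variable {Ω : Type*} [MeasurableSpace Ω]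

/-- the deviation of the linear start map with the coefficients `U` -/
def dvL (U : Fin 24 → ℚ) : Dv where
  D := [(U 0, 0, 1, 0), (U 1, 3, 1, 0), (U 2, -3, 1, 0), (U 3, 5, 1, 0), (U 4, -5, 1, 0),
    (U 5, 3, 0, 0), (U 6, -3, 0, 0), (U 7, 5, 0, 0), (U 8, -5, 0, 0),
    (U 9, 3, 0, -3), (U 10, 3, 0, 3), (U 11, -3, 0, 3), (U 12, 3, 0, -5), (U 13, 3, 0, 5), (U 14, -3, 0, -5),
    (U 15, -3, 0, 5), (U 16, 5, 0, -5), (U 17, 5, 0, 5), (U 18, -5, 0, 5),
    (U 19, 0, 4, 0), (U 20, 0, 3, 0), (U 21, 0, 6, 0), (U 22, 0, 5, 0)]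
  Q := []
  r := 0
  s := 0
  g := 0

/-- **the deviation of the linear start map in the format of the lists** -/
theorem hdL {ν : Measure Ω} {x : Ω → ℝ} {E : Ω → ℂ} (H : Fr ν x E) (U : Fin 24 → ℚ) {u : Fin 24 → ℝ}
    (hu : ∀ q, q ≠ 23 → u q = ((U q : ℚ) : ℝ)) (A B z N M S R G P O U' V : ℂ) :
    devZ PsiL u (mo (CZ PsiL) ν x E) A B N M S R G P O U' V =
      (dvL U).val (zH A B z N M P O) (vl ν x E) (Zr 2 ν x E) S R G := by
  have e0 : mo (CZ PsiL) ν x E 0 = vl ν x E 3 := (mo_vl (n := 3) (by norm_num)).symm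
  have e1 : mo (CZ PsiL) ν x E 1 = vl ν x E 5 := (mo_vl (n := 5) (by norm_num)).symm
  have u0 : vl ν x E 0 = 1 := by simp [vl]
  have n3 : vl ν x E (-3) = conj (vl ν x E 3) := H.vl_neg 3
  have n5 : vl ν x E (-5) = conj (vl ν x E 5) := H.vl_neg 5
  have h0 := hu 0 (by decide)
  have h1 := hu 1 (by decide)
  have h2 := hu 2 (by decide)
  have h3 := hu 3 (by decide)
  have h4 := hu 4 (by decide)
  have h5 := hu 5 (by decide)
  have h6 := hu 6 (by decide)
  have h7 := hu 7 (by decide)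
  have h8 := hu 8 (by decide)
  have h9 := hu 9 (by decide)
  have h10 := hu 10 (by decide)
  have h11 := hu 11 (by decide)
  have h12 := hu 12 (by decide)
  have h13 := hu 13 (by decide)
  have h14 := hu 14 (by decide)
  have h15 := hu 15 (by decide)
  have h16 := hu 16 (by decide)
  have h17 := hu 17 (by decide)
  have h18 := hu 18 (by decide)
  have h19 := hu 19 (by decide)
  have h20 := hu 20 (by decide)
  have h21 := hu 21 (by decide)
  have h22 := hu 22 (by decide)
  generalize mo (CZ PsiL) ν x E = m at e0 e1 ⊢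
  unfold devZ
  rw [sum24]
  simp only [PsiL, Dv.val, dvL, Matrix.cons_val_zero, Matrix.cons_val_one, Matrix.cons_val,
    List.map_cons, List.map_nil, List.sum_cons, List.sum_nil, zH, e0, e1, u0, n3, n5, h0, h1, h2, h3, h4, h5, h6,
    h7, h8, h9, h10, h11, h12, h13, h14, h15, h16, h17, h18, h19, h20, h21, h22,
    Complex.ofReal_ratCast, map_mul, map_one, Complex.conj_conj, Rat.cast_zero]
  ring

end Pool.Agent.FPX.BRG
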