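import Mathlib
import Pool.Agent.FPX.CEZ

/-
CEZE (helper11): the latitude cell of CEZ with arbitrary a priori weights `wv`, `wu` (for example depending on the largest
radius `s'` of the cell): hypothesis `AprOn`.
-/

open MeasureTheory Set Filter Topology Complex
open scoped ComplexConjugate

noncomputable section

set_option linter.unusedSectionVars false
set_option linter.unusedSimpArgs false

namespace Pool.Agent.FPX.CEL

open Pool.Agent.FPX.BTQ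
open Pool.Agent.FPX.BTG (Sta Cls mo aK bK dev)
open Pool.Agent.FPX.ALX
open Pool.Agent.FPX.BTN (va e1 nf ef PolR pa pg)
open Pool.Agent.FPX.F54 (X1 X2)
open Pool.Agent.FPX.OMS (cF)
open Pool.Agent.FPX.CERQ (xT)
open Pool.Agent.FPX.OMR (Re)
open Pool.Agent.FPX.BU (PolH ph)
open Pool.Agent.FPX.BV (CZ PsiZ PsiLe Dev7 DevLe7 devK7 cZ)
open Pool.Agent.FPX.OMY (CertAtZ)

section

variable {m N : ℕ} {Ψ : PsiZ (Fin N)} {d wu : Fin N → ℚ} {wv : Fin 29 → ℚ} {S : Fin N → List ℚ} {Bx : Dev7}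
  {i j : Fin N} {τ : (ℝ → ℝ) → ℂ} {D : DatZ} {C : CellZ m N}

/-- the a priori weights `wv`, `wu` at the real states with `a ≤ c ≤ b` -/
def AprOn (Ψ : PsiZ (Fin N)) (wv : Fin 29 → ℚ) (wu : Fin N → ℚ) (a b : ℚ) : Prop :=
  ∀ f, Re f → (a : ℝ) ≤ cF f → cF f ≤ (b : ℝ) →
    Apr (CZ Ψ) (nf f) (xT f) (ef f) (fun i => (wv i : ℝ)) fun q => (wu q : ℝ)

theorem AprOn.mono {a b a' b' : ℚ} (H : AprOn Ψ wv wu a b) (ha : a ≤ a') (hb : b' ≤ b) : AprOn Ψ wv wu a' b' := by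
  intro f R h1 h2
  have ha' : (a : ℝ) ≤ a' := by exact_mod_cast ha
  have hb' : (b' : ℝ) ≤ b := by exact_mod_cast hb
  exact H f R (ha'.trans h1) (h2.trans hb')

/-- larger weights -/
theorem Apr.mono {J L I Q X : Type} [Fintype J] [Fintype L] [Fintype I] [Fintype Q] [MeasurableSpace X]
    {ν : Measure X} {D : X → ℝ} {E : X → ℂ} {C : Cls J L I Q} {v v' : I → ℝ} {u u' : Q → ℝ}
    (H : Apr C ν D E v u) (hv : ∀ i, v i ≤ v' i) (hu : ∀ q, u q ≤ u' q) : Apr C ν D E v' u' :=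
  fun K hK hK1 A B hA hB => ⟨fun i => ((H K hK hK1 A B hA hB).1 i).trans (hv i),
    fun q => ((H K hK hK1 A B hA hB).2 q).trans (hu q)⟩

/-- the weights `cZq`, `d` -/
theorem SM.aprOn (HS : SM Ψ d S Bx i j τ) (a b : ℚ) : AprOn Ψ cZq d a b := by
  intro f hf _ _
  have := aprZ (BV.sml (Ψ := Ψ) hf.hf hf.h0 hf.h2) HS.le
  have e : (fun i => ((cZq i : ℚ) : ℝ)) = cZ := funext cZq_eq
  rw [e]
  exact this

/-- the total error of the cell -/
def CellZ.errW (D : DatZ) (S : Fin N → List ℚ) (wv : Fin 29 → ℚ) (wu : Fin N → ℚ) (C : CellZ m N) (μ : ℚ) : ℚ :=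
  errY (D.vz C.w C.R C.η) S C.a C.b C.r μ C.ε C.V C.U wv wu

/-- **the check of a cell with the weights `wv`, `wu`** -/
def CellZ.okW (D : DatZ) (S : Fin N → List ℚ) (wv : Fin 29 → ℚ) (wu : Fin N → ℚ) (C : CellZ m N) (μ T : ℚ) : Bool :=
  decide (0 ≤ C.a) && (decide (C.a < C.b) && (decide (0 < C.r) && (decide (0 < μ) && (decide (0 < C.ε)
    && (decide (∀ i, 0 ≤ wv i) && (decide (∀ q, 0 ≤ wu q)
    && (decide (C.r + C.errW D S wv wu μ ≤ T) && chkRH D.pA (padd D.pA (psm 2 D.pG)) (padd D.pA (psm 2 D.pJ))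
      C.R C.a C.b C.η C.n)))))))

/-- **one latitude cell**: the certificate from the certificates at the control vectors -/
theorem cellZW_NC (HS : SM Ψ d S Bx i j τ) {μ T : ℚ} (HA : AprOn Ψ wv wu C.a C.b)
    (H : C.okW D S wv wu μ T = true) {W : ℝ → ℝ} {f : ℝ → ℝ}
    (hf : Re f) (hc : cF f ∈ Icc (C.a : ℝ) C.b)
    (hW : 2 * cF f * W (cF f) - X1 f ^ 2 * deriv W (cF f) = pe C.w (cF f))
    (h : ∀ l : Fin (m + 1), BTG.NC (CZ Ψ) (nf f) (xT f) (ef f) (fun i => ((C.V l i : ℚ) : ℝ))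
      (uG i j (fun q => ((C.U l q : ℚ) : ℝ)) (τ f)) ((C.mu μ : ℚ) : ℝ) 1) :
    CertAtZ (devK7 Bx) W D.cofZ μ T f := by
  unfold CellZ.okW at H
  simp only [Bool.and_eq_true, decide_eq_true_eq] at H
  obtain ⟨_ha, hab, hr, hμ, hε, hwv, hwu, hT, hP⟩ := H
  have hc0 := hf.c0
  have hs : X1 f ^ 2 = 1 - cF f ^ 2 := by
    have := hf.c2
    linarith
  have hμ' : (0 : ℝ) < μ := by exact_mod_cast hμ
  have hpol : PolH D.cofZ.H C.η (pe C.R (cF f)) (X1 f) (cF f) := by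
    have hA : pe D.pA (cF f) = cF f ^ 2 * pa D.cofZ.H.F.C (X1 f) (cF f) := pA_eq (D := D.toDat) hc0 hs
    have hG : pe D.pG (cF f) = cF f ^ 2 * pg D.cofZ.H.F.C (X1 f) (cF f) := pG_eq (D := D.toDat) hc0 hs
    have hJ : pe D.pJ (cF f) = cF f ^ 2 * ph D.cofZ.H (X1 f) (cF f) := pJ_eq (D := D.toDatH) hc0 hs
    refine polH_of' hab hP hc hc0 hs hA ?_ ?_
    · rw [pe_padd, pe_psm, hA, hG]
      push_cast
      ring
    · rw [pe_padd, pe_psm, hA, hJ]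
      push_cast
      ring
  obtain ⟨u, hD, hu, hui, huj⟩ := HS.dev f hf
  have h1 := gen_cell (BTG.sta hf.hf hf.h0 hf.h2) hwv hwu (HA f hf hc.1 hc.2) (P := D.vz C.w C.R C.η) (S := S)
    hab hr hμ hε hc h (fun i => vz_eq (η := C.η) hc0 hs hW i) hu hui huj
  have h2 := BV.certAtZX_of_NCR hμ'.le hf hpol hD h1
  intro K hK hK1 A B hA hB
  refine (h2 K hK hK1 A B hA hB).trans ?_
  exact_mod_cast hT

/-- **the cell theorem, arbitrary weights** -/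
theorem cellGW (HS : SM Ψ d S Bx i j τ) {μ T s' : ℚ} (HA : AprOn Ψ wv wu C.a C.b) (hC : C.okW D S wv wu μ T = true)
    {TA : (ℝ → ℝ) → ℂ → Prop}
    (hT : ∀ f, Re f → (C.a : ℝ) ≤ cF f → cF f ≤ (C.b : ℝ) → TA (Xa (X1 f) f) (τ f)) (h0 : 0 ≤ s') (h1 : s' ≤ 1)
    (hs : 1 - C.a ^ 2 ≤ s' ^ 2) (H : ∀ l : Fin (m + 1), CtlZ Ψ i j TA s' (C.mu μ) (C.V l) (C.U l)) :
    ASL.CellG (fun W f => CertAtZ (devK7 Bx) W D.cofZ μ T f) C.a C.b C.w := by
  intro W hW f R ha hb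
  have ha0 : (0 : ℚ) ≤ C.a := by
    unfold CellZ.okW at hC
    simp only [Bool.and_eq_true, decide_eq_true_eq] at hC
    exact hC.1
  have hs2 : (1 : ℝ) - (C.a : ℝ) ^ 2 ≤ (s' : ℝ) ^ 2 := by exact_mod_cast hs
  have hle : X1 f ≤ (s' : ℝ) := ASM.s_le R (by exact_mod_cast ha0) ha (by exact_mod_cast h0) hs2
  have hs : X1 f ^ 2 = 1 - cF f ^ 2 := by
    have := R.c2
    linarith
  refine cellZW_NC HS HA hC R ⟨ha, hb⟩ ?_ fun l => ?_
  · rw [hs]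
    exact hW _ R.c0 ha hb
  · exact ctl_of (P := fun _ => True) (u := fun t => uG i j (fun q => ((C.U l q : ℚ) : ℝ)) t) R hle
      (by exact_mod_cast h1) trivial (hT f R ha hb) fun X hX hX1 _ t ht => H l X hX hX1 t ht

/-- a start map without remainder -/
def T0 (_X : ℝ → ℝ) (t : ℂ) : Prop := t = 0

/-- **the cell theorem for a start map without remainder** -/
theorem cellG0 (HS : SM Ψ d S Bx i j fun _ => 0) {μ T s' : ℚ} (HA : AprOn Ψ wv wu C.a C.b)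
    (hC : C.okW D S wv wu μ T = true) (h0 : 0 ≤ s') (h1 : s' ≤ 1)
    (hs : 1 - C.a ^ 2 ≤ s' ^ 2) (H : ∀ l : Fin (m + 1), CtlZ Ψ i j T0 s' (C.mu μ) (C.V l) (C.U l)) :
    ASL.CellG (fun W f => CertAtZ (devK7 Bx) W D.cofZ μ T f) C.a C.b C.w :=
  cellGW HS HA hC (TA := T0) (fun _ _ _ _ => rfl) h0 h1 hs H

/-- the control condition without remainder -/
theorem ctlZ_zero {s' μ : ℚ} {V : Fin 29 → ℚ} {U : Fin N → ℚ}
    (H : ∀ X, St (s' : ℝ) X → (∀ a, |X a| ≤ 31 / 50 * (s' : ℝ)) →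
      BTG.RW (CZ Ψ) va X e1 (fun i => ((V i : ℚ) : ℝ)) (uG i j (fun q => ((U q : ℚ) : ℝ)) 0) (μ : ℝ) 1) :
    CtlZ Ψ i j T0 s' μ V U := by
  intro X hX hb t ht
  have e : t = 0 := ht
  rw [e]
  exact H X hX hb

end

end Pool.Agent.FPX.CEL
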