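import Mathlib
import Pool.Agent.FPX.BWI
import Pool.Agent.FPX.BWL
import Pool.Agent.FPX.CEZE

/-
BWLR (helper11): the final statements of BWI for the linear start map with 24 slots (`PsiL`), and in the form `CtlZ` of
the latitude cells.
-/

open MeasureTheory Set Filter Topology Complex
open scoped ComplexConjugate

noncomputable section

set_option linter.unusedSectionVars false
set_option linter.unusedSimpArgs false

namespace Pool.Agent.FPX.BRG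

open Pool.Agent.FPX.BTN (va e1)
open Pool.Agent.FPX.BTG (mo)
open Pool.Agent.FPX.ALX
open Pool.Agent.FPX.BV (CZ PsiL devZ)

variable {Ω : Type*} [MeasurableSpace Ω]

/-- the deviation of the linear start map (24 slots) -/
def dzL (U : Fin 24 → ℚ) : Dz where
  D := (dvL U).D
  Q := []
  r := 0
  s := 0
  g := 0
  r4 := 0
  s4 := 0

theorem hdL' {ν : Measure Ω} {x : Ω → ℝ} {E : Ω → ℂ} (H : Fr ν x E) (U : Fin 24 → ℚ) {u : Fin 24 → ℝ}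
    (hu : ∀ q, q ≠ 23 → u q = ((U q : ℚ) : ℝ)) (A B z N M S R G P O X Y : ℂ) :
    devZ PsiL u (mo (CZ PsiL) ν x E) A B N M S R G P O X Y =
      (dzL U).vz (zH A B z N M P O) (vl ν x E) (Zr 2 ν x E) S R G X Y + (0 : ℂ) * conj A := by
  rw [hdL H U hu A B z N M S R G P O X Y]
  show _ = (dvL U).val (zH A B z N M P O) (vl ν x E) (Zr 2 ν x E) S R G + ((0 : ℚ) : ℂ) * Y
    + ((0 : ℚ) : ℂ) * conj X + 0 * conj A
  rw [Rat.cast_zero]
  ring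

/-- the form of the class `CZ` with the linear start map, zeros removed -/
def FL (v : Fin 29 → ℚ) (im : ℚ) (U : Fin 24 → ℚ) : Fm := (FZ v im (dzL U) [] []).nz

theorem FL_par (v : Fin 29 → ℚ) (im : ℚ) (U : Fin 24 → ℚ) : (FL v im U).par = true :=
  Fm.nz_par (FZ_par _ _ _ _ _)

section fin

variable {s : ℝ} {X : ℝ → ℝ} {v : Fin 29 → ℚ} {μ im : ℚ} {U : Fin 24 → ℚ} {u : Fin 24 → ℝ}

/-- **the meaning of the form** -/
theorem semL {ν : Measure Ω} {x : Ω → ℝ} {E : Ω → ℂ} (H : Fr ν x E) (hμ : 0 < μ) (him : im * (2 * μ) ≤ 1)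
    (hu : ∀ q, q ≠ 23 → u q = ((U q : ℚ) : ℝ)) :
    (FL v im U).Sem ν x E (BTG.RW (CZ PsiL) ν x E (fun i => ((v i : ℚ) : ℝ)) u μ 1) :=
  Fm.nz_sem (semZE H hμ him (hdL' H U hu) fun z => by simp [e2, eq2])

theorem uG_hu (U : Fin 24 → ℚ) (τ : ℂ) : ∀ q : Fin 24, q ≠ 23 →
    CEL.uG 23 23 (fun q => ((U q : ℚ) : ℝ)) τ q = ((U q : ℚ) : ℝ) := by
  intro q hq
  unfold CEL.uG
  rw [if_neg hq, if_neg hq]

/-- **`RW` for `CZ PsiL`**: weight `q` and multipliers `mf` as data; `T'`: any list below the list of the form -/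
theorem RWPL_Q (hX : St s X) (hb : ∀ a, |X a| ≤ 1) (hμ : 0 < μ) (him : im * (2 * μ) ≤ 1)
    {w : Wr} (hw : ∀ e : ℂ, ‖e‖ = 1 → 0 < qr w e) (hT : ∫ t, 1 / qr w (e1 t) ∂va ≤ 1) (mf : ℤ → Lf) {T' : Tf}
    (hT' : ∀ z : ℕ → ℂ, (e2 z (vl va X e1) T').re ≤ (e2 z (vl va X e1) ((FL v im U).WT w mf)).re)
    (h : ∀ z : ℕ → ℂ, 0 ≤ (e2 z (vl va X e1) T' + eq2 z (Zr 2 va X e1) ((FL v im U).WQ w)).re) :
    BTG.RW (CZ PsiL) va X e1 (fun i => ((v i : ℚ) : ℝ)) (CEL.uG 23 23 (fun q => ((U q : ℚ) : ℝ)) 0) μ 1 :=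
  Fm.mainQ' (fr_va hX hb) (semL (fr_va hX hb) hμ him (uG_hu U 0)) (FL_par _ _ _) hw hT mf hT' h

/-- **`RW` for `CZ PsiL`**, weight of BRP2, multipliers as data, `T'`: any list below the list of the form -/
theorem RWPL_P2 (hX : St s X) (hb : ∀ a, |X a| ≤ 1) (hμ : 0 < μ) (him : im * (2 * μ) ≤ 1)
    {a b : ℚ} (hab : abok a b = true) (mf : ℤ → Lf) {T' : Tf}
    (hT' : ∀ z : ℕ → ℂ, (e2 z (vl va X e1) T').re ≤ (e2 z (vl va X e1) ((FL v im U).WT (wP2 a b) mf)).re)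
    (h : ∀ z : ℕ → ℂ, 0 ≤ (e2 z (vl va X e1) T' + eq2 z (Zr 2 va X e1) ((FL v im U).WQ (wP2 a b))).re) :
    BTG.RW (CZ PsiL) va X e1 (fun i => ((v i : ℚ) : ℝ)) (CEL.uG 23 23 (fun q => ((U q : ℚ) : ℝ)) 0) μ 1 :=
  RWPL_Q hX hb hμ him (fun _ he => qr_wP2_pos (abok_r hab) he) (int_wP2 (fr_va hX hb) (abok_r hab)).le mf hT' h

/-- the same with the eliminations `ks` of BWE -/
theorem RWPL_ks (hX : St s X) (hb : ∀ a, |X a| ≤ 1) (hμ : 0 < μ) (him : im * (2 * μ) ≤ 1)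
    {a b : ℚ} (hab : abok a b = true) (mf : ℤ → Lf) {ks : List (ℕ × ℚ)}
    (hk : elsFok ks ((FL v im U).WT (wP2 a b) mf) = true)
    (h : ∀ z : ℕ → ℂ, 0 ≤ (e2 z (vl va X e1) (elsF ks ((FL v im U).WT (wP2 a b) mf))
      + eq2 z (Zr 2 va X e1) ((FL v im U).WQ (wP2 a b))).re) :
    BTG.RW (CZ PsiL) va X e1 (fun i => ((v i : ℚ) : ℝ)) (CEL.uG 23 23 (fun q => ((U q : ℚ) : ℝ)) 0) μ 1 :=
  RWPL_P2 hX hb hμ him hab mf (elsF_le (by simp [vl]) hk) h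

/-- **the control condition of the cells** from a lower bound `T'` of the list of the form -/
theorem ctlPL {s' : ℚ} (h1 : s' ≤ 1) (hμ : 0 < μ) (him : im * (2 * μ) ≤ 1)
    {a b : ℚ} (hab : abok a b = true) (mf : ℤ → Lf) {T' : Tf}
    (hT' : ∀ X, St (s' : ℝ) X → ∀ z : ℕ → ℂ, (e2 z (vl va X e1) T').re ≤
      (e2 z (vl va X e1) ((FL v im U).WT (wP2 a b) mf)).re)
    (h : ∀ X, St (s' : ℝ) X → (∀ t, |X t| ≤ 0.62 * (s' : ℝ)) → ∀ z : ℕ → ℂ,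
      0 ≤ (e2 z (vl va X e1) T' + eq2 z (Zr 2 va X e1) ((FL v im U).WQ (wP2 a b))).re) :
    CEL.CtlZ PsiL 23 23 CEL.T0 s' μ v U := by
  refine CEL.ctlZ_zero fun X hX hb => ?_
  have h1' : (s' : ℝ) ≤ 1 := by exact_mod_cast h1
  exact RWPL_P2 hX (fun t => (hb t).trans (by linarith)) hμ him hab mf (hT' X hX)
    (h X hX fun t => (hb t).trans (le_of_eq (by norm_num)))

/-- **the control condition of the cells**, with the eliminations `ks` -/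
theorem ctlPL_ks {s' : ℚ} (h1 : s' ≤ 1) (hμ : 0 < μ) (him : im * (2 * μ) ≤ 1)
    {a b : ℚ} (hab : abok a b = true) (mf : ℤ → Lf) {ks : List (ℕ × ℚ)}
    (hk : elsFok ks ((FL v im U).WT (wP2 a b) mf) = true)
    (h : ∀ X, St (s' : ℝ) X → (∀ t, |X t| ≤ 0.62 * (s' : ℝ)) → ∀ z : ℕ → ℂ,
      0 ≤ (e2 z (vl va X e1) (elsF ks ((FL v im U).WT (wP2 a b) mf))
        + eq2 z (Zr 2 va X e1) ((FL v im U).WQ (wP2 a b))).re) :
    CEL.CtlZ PsiL 23 23 CEL.T0 s' μ v U :=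
  ctlPL h1 hμ him hab mf (fun _ _ => elsF_le (by simp [vl]) hk) h

end fin

end Pool.Agent.FPX.BRG
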