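import Mathlib
import Pool.Agent.FPX.BWKL

/-
BWM (helper84): the COMPACT lists of the form of the class `CZ`: all harmonics of the kernel without `x` are constraints, so
with the optimal multipliers the form is `- T - Q - 2 Re Σ A_c conj ρ_c + r* S r - mean x² |B|² q`; the variables `N`,
`conj M`, `N₅`, `conj M₅` are eliminated with constant integer matrices.
-/

open MeasureTheory Set Filter Topology Complex
open scoped ENNReal NNReal ContDiff ComplexConjugate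

noncomputable section

namespace Pool.Agent.FPX.BRG

open Pool.Agent.FPX.CRD (Bm)
open Pool.Agent.FPX.ALX (St)
open Pool.Agent.FPX.BTN (va e1)
open Pool.Agent.FPX.BTG (mo Cls)
open Pool.Agent.FPX.CEL (uG)

variable {Ω : Type*} [MeasurableSpace Ω] {z : ℕ → ℂ} {u Z : ℤ → ℂ}

/-! ### the lists -/

section lists

variable (v : Fin 29 → ℚ) (im : ℚ) (d : Dz) (ET : Tf) (EQ : Qf)

/-- the kernel without `x` -/
def cA3 : Lf := [(v 5, 0, 0), (v 7 / 2, 0, -3), (v 15, 0, -5), (-v 10, 1, 0), (-v 7 / 2, 1, -3), (-v 16, 1, -5)]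
def cAm3 : Lf := [(v 10, 0, 0), (v 7 / 2, 0, 3), (v 16, 0, 5), (-v 5, 1, 0), (-v 7 / 2, 1, 3), (-v 15, 1, 5)]
def cA5 : Lf := [(v 18, 0, 0), (v 16, 0, -3), (v 21 / 2, 0, -5), (-v 17, 1, 0), (-v 15, 1, -3), (-v 21 / 2, 1, -5)]
def cAm5 : Lf := [(v 17, 0, 0), (v 15, 0, 3), (v 21 / 2, 0, 5), (-v 18, 1, 0), (-v 16, 1, 3), (-v 21 / 2, 1, 5)]

/-- the kernel with `x`, zeros removed -/
def cB : List (ℤ × Bf) := (krZ v d).nz.B

/-- the right sides without the eliminated variables -/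
def rh0 : ℕ → Lf
  | 0 => [(1, 1, 0), (-3 / 2, 0, -3)]
  | 1 => [(1, 0, 0), (-3 / 2, 1, 3)]
  | 2 => [(-5 / 2, 0, -5), (3 / 2, 1, -3), (-3 / 2, 0, -3)]
  | 3 => [(-5 / 2, 1, 5), (3 / 2, 0, 3), (-3 / 2, 1, 3)]
  | 4 => [(-7 / 2, 0, -7), (3 / 2, 1, -3), (5 / 2, 1, -5), (-5 / 2, 0, -5)]
  | _ => [(-7 / 2, 1, 7), (3 / 2, 0, 3), (5 / 2, 0, 5), (-5 / 2, 1, 5)]

/-- the parts of `-T` with the eliminated variables -/
def hD (i : ℕ) (D : List (ℚ × ℤ × ℕ × ℤ)) : Lf :=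
  D.flatMap fun t => if t.2.2.1 = i ∧ t.2.2.2 = 0 then [(-2 * t.1, 2, t.2.1)] else []

def hR (D : List (ℚ × ℤ × ℕ × ℤ)) : List (ℚ × ℤ × ℕ × ℤ) :=
  D.filter fun t => !(t.2.2.2 = 0 && (t.2.2.1 = 3 || t.2.2.1 = 4 || t.2.2.1 = 5 || t.2.2.1 = 6))

/-- the coupling forms (for `conj M, N, conj M₅, N₅`) -/
def ch2 : Lf := nzL ([(v 13, 0, -3), (v 13, 1, -3)] ++ (hD 4 d.D ++ smL (-2) (cA3 v)))
def ch3 : Lf := nzL ([(-v 13, 0, 3), (-v 13, 1, 3)] ++ (hD 3 d.D ++ smL (-2) (cAm3 v)))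
def ch4 : Lf := nzL ([(v 25, 0, -5), (v 25, 1, -5)] ++ (hD 6 d.D ++ smL (-2) (cA5 v)))
def ch5 : Lf := nzL ([(-v 25, 0, 5), (-v 25, 1, 5)] ++ (hD 5 d.D ++ smL (-2) (cAm5 v)))

/-- the part of `-T - 2 Re Σ A_c conj ρ_c` without the eliminated variables -/
def T12 : Tf :=
  nzT ([(-v 0, [(1, 0, 0)], [(1, 0, 0)]), (v 0, [(1, 1, 0)], [(1, 1, 0)]),
   (-(-2 * v 3 + v 4 - 3 * v 17 - 2 * v 26), [(1, 0, 3)], [(1, 0, 0)]),
   (-2 * v 3 + v 4 - 3 * v 17 - 2 * v 26, [(1, 1, 3)], [(1, 1, 0)]),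
   (-(5 * v 5 + v 20 - 2 * v 27), [(1, 0, 5)], [(1, 0, 0)]), (5 * v 5 + v 20 - 2 * v 27, [(1, 1, 5)], [(1, 1, 0)]),
   (-(7 * v 18), [(1, 0, 7)], [(1, 0, 0)]), (7 * v 18, [(1, 1, 7)], [(1, 1, 0)]),
   (-(v 6 - 3 * v 15 - v 12), [(1, 0, 3)], [(1, 0, 3)]), (v 6 - 3 * v 15 - v 12, [(1, 1, 3)], [(1, 1, 3)]),
   (-(5 / 2 * v 7 + v 19 - 3 / 2 * v 21), [(1, 0, 5)], [(1, 0, 3)]), (5 / 2 * v 7 + v 19 - 3 / 2 * v 21, [(1, 1, 5)], [(1, 1, 3)]),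
   (-(5 * v 15 + v 22 - v 24), [(1, 0, 5)], [(1, 0, 5)]), (5 * v 15 + v 22 - v 24, [(1, 1, 5)], [(1, 1, 5)]),
   (-(7 * v 16), [(1, 0, 7)], [(1, 0, 3)]), (7 * v 16, [(1, 1, 7)], [(1, 1, 3)]),
   (-(7 / 2 * v 21), [(1, 0, 7)], [(1, 0, 5)]), (7 / 2 * v 21, [(1, 1, 7)], [(1, 1, 5)]),
   (-(2 * v 14), [(1, 1, 0)], [(1, 1, 0)]),
   (im, [(1, 2, 0)], [(1, 2, 0)]),
   (2 * d.r, [(1, 2, 3)], [(1, 0, 0)]), (2 * d.s, [(1, 2, -3)], [(1, 1, 0)]),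
   (2 * d.r4, [(1, 2, 5)], [(1, 0, 0)]), (2 * d.r4, [(1, 2, 3)], [(1, 1, 0)]),
   (2 * d.s4, [(1, 2, -5)], [(1, 1, 0)]), (2 * d.s4, [(1, 2, -3)], [(1, 0, 0)]),
   (-2, cA3 v, rh0 2), (-2, cAm3 v, rh0 3), (-2, cA5 v, rh0 4), (-2, cAm5 v, rh0 5)]
  ++ ((hR d.D).map (fun t => (-(2 * t.1), [(1, 2, t.2.1)], [(1, t.2.2.1, t.2.2.2)])) ++ smT (-1) ET))

/-- the terms with `x²` -/
def Q12 (w : Wr) : Qf := smQ (-1) (nzQ (qqZ v d ++ EQ)) ++ smQ (-1) ((krZ v d).nz.QW (wl w))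

end lists

/-- the parameters: the weight `(w0 + 2 w1 cos 2θ + 2 w2 cos 4θ) / R`, the approximate inverse `I / A` of its Toeplitz
matrix, the scale `N` of the integer matrices (`A² R = E N`), the reciprocals of the four pivots -/
structure Cp where
  w0 : ℤ
  w1 : ℤ
  w2 : ℤ
  R : ℤ
  A : ℤ
  I : List (List ℤ)
  E : ℤ
  N : ℤ
  κ : List ℤ

/-- the weight -/
def Cp.w (c : Cp) : Wr := [((c.w0 : ℚ) / c.R, 0), (2 * (c.w1 : ℚ) / c.R, 1), (2 * (c.w2 : ℚ) / c.R, 2)]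

/-- the rounded matrix `S` -/
def Cp.S (c : Cp) : List (List ℤ) := dvm c.E (up6 (xz (c.A * c.R) c.I c.w0 c.w1 c.w2))

/-- the entries of upper rows -/
def sg (s : List (List ℤ)) (i j : ℕ) : ℤ := (s.getD i []).getD (j - i) 0

/-- the matrix of 14 variables -/
def Cp.W (c : Cp) (v : Fin 29 → ℚ) : List (List ℤ) :=
  WW (sg c.S) c.N ⌊2 * v 11 * c.N⌋ ⌊-(2 * v 11) * c.N⌋ ⌊2 * v 23 * c.N⌋ ⌊-(2 * v 23) * c.N⌋

/-- the matrix of 10 variables -/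
def Cp.M (c : Cp) (v : Fin 29 → ℚ) : List (List ℤ) := elm c.N c.κ (c.W v)

/-- the linear forms -/
def Cp.f (c : Cp) (v : Fin 29 → ℚ) (d : Dz) : List Lf :=
  [rh0 0 ++ smL (-1) (bt c.w (cB v d) 1), rh0 1 ++ smL (-1) (bt c.w (cB v d) (-1)),
   rh0 2 ++ smL (-1) (bt c.w (cB v d) 3), rh0 3 ++ smL (-1) (bt c.w (cB v d) (-3)),
   rh0 4 ++ smL (-1) (bt c.w (cB v d) 5), rh0 5 ++ smL (-1) (bt c.w (cB v d) (-5)),
   ch2 v d, ch3 v d, ch4 v d, ch5 v d]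

/-- **the compact list of rank one terms** -/
def Cp.T (c : Cp) (v : Fin 29 → ℚ) (im : ℚ) (d : Dz) (ET : Tf) : Tf :=
  T12 v im d ET ++ pmT (1 / c.N) (c.M v) (c.f v d)

/-- the conditions -/
def Cp.ok (c : Cp) (v : Fin 29 → ℚ) : Bool :=
  decide (0 < c.R) && (decide (0 < c.A) && (decide (0 < c.E) && (decide (0 < c.N) &&
    (decide (c.A * c.A * c.R = c.E * c.N) && (Nat.beq c.κ.length 4 && elmok c.N c.κ (c.W v))))))

/-! ### values -/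

theorem e2_hR (h0 : u 0 = 1) (D : List (ℚ × ℤ × ℕ × ℤ)) :
    e2 z u (D.map fun t => (2 * t.1, [((1 : ℚ), (2 : ℕ), t.2.1)], [((1 : ℚ), t.2.2.1, t.2.2.2)])) =
      -e2 z u ((hR D).map fun t => (-(2 * t.1), [((1 : ℚ), (2 : ℕ), t.2.1)], [((1 : ℚ), t.2.2.1, t.2.2.2)]))
      - (ev z u (hD 3 D) * conj (z 3) + ev z u (hD 4 D) * conj (z 4) + ev z u (hD 5 D) * conj (z 5)
        + ev z u (hD 6 D) * conj (z 6)) := by
  induction D with
  | nil => simp [hR, hD]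
  | cons t D ih =>
    obtain ⟨q, n, a, k⟩ := t
    have hd : ∀ i, hD i ((q, n, a, k) :: D) = (if a = i ∧ k = 0 then [(-2 * q, 2, n)] else []) ++ hD i D :=
      fun i => rfl
    rw [List.map_cons, e2_cons, ih, hd, hd, hd, hd, ev_append, ev_append, ev_append, ev_append]
    by_cases hc : k = 0 ∧ (a = 3 ∨ a = 4 ∨ a = 5 ∨ a = 6)
    · obtain ⟨rfl, ha⟩ := hc
      have hr : hR ((q, n, a, 0) :: D) = hR D := by
        unfold hR
        rw [List.filter_cons_of_neg]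
        rcases ha with rfl | rfl | rfl | rfl <;> simp
      rw [hr]
      rcases ha with rfl | rfl | rfl | rfl <;> simp [h0] <;> ring
    · have hr : hR ((q, n, a, k) :: D) = (q, n, a, k) :: hR D := by
        unfold hR
        rw [List.filter_cons_of_pos]
        simp only [Bool.not_eq_true', Bool.and_eq_false_iff, decide_eq_false_iff_not, Bool.or_eq_false_iff]
        by_cases hk : k = 0
        · right
          refine ⟨⟨⟨fun h => hc ⟨hk, Or.inl h⟩, fun h => hc ⟨hk, Or.inr (Or.inl h)⟩⟩,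
            fun h => hc ⟨hk, Or.inr (Or.inr (Or.inl h))⟩⟩, fun h => hc ⟨hk, Or.inr (Or.inr (Or.inr h))⟩⟩
        · left
          exact hk
      rw [hr, List.map_cons, e2_cons]
      have n3 : ¬(a = 3 ∧ k = 0) := fun h => hc ⟨h.2, Or.inl h.1⟩
      have n4 : ¬(a = 4 ∧ k = 0) := fun h => hc ⟨h.2, Or.inr (Or.inl h.1)⟩
      have n5 : ¬(a = 5 ∧ k = 0) := fun h => hc ⟨h.2, Or.inr (Or.inr (Or.inl h.1))⟩
      have n6 : ¬(a = 6 ∧ k = 0) := fun h => hc ⟨h.2, Or.inr (Or.inr (Or.inr h.1))⟩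
      rw [if_neg n3, if_neg n4, if_neg n5, if_neg n6]
      simp only [ev_nil, ev_cons]
      push_cast
      ring

set_option maxRecDepth 20000 in
/-- the part without `x²` -/
theorem T12_eq (h0 : u 0 = 1) (v : Fin 29 → ℚ) (im : ℚ) (d : Dz) (ET : Tf) :
    (e2 z u (T12 v im d ET)).re + ((2 * v 11 * ‖z 4‖ ^ 2 + (-(2 * v 11) * ‖z 3‖ ^ 2
      + (2 * v 23 * ‖z 6‖ ^ 2 + -(2 * v 23) * ‖z 5‖ ^ 2)))
      + ((z 4 * conj (ev z u (ch2 v d))).re + ((z 3 * conj (ev z u (ch3 v d))).re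
        + ((z 6 * conj (ev z u (ch4 v d))).re + (z 5 * conj (ev z u (ch5 v d))).re)))) =
    -(e2 z u (nzT (tqZ v im d ++ ET))).re
      - 2 * ((ev z u (cA3 v) * conj (z 4 + ev z u (rh0 2))).re + ((ev z u (cAm3 v) * conj (z 3 + ev z u (rh0 3))).re
        + ((ev z u (cA5 v) * conj (z 6 + ev z u (rh0 4))).re + (ev z u (cAm5 v) * conj (z 5 + ev z u (rh0 5))).re))) := by
  unfold T12 tqZ ch2 ch3 ch4 ch5
  rw [e2_nz, e2_nz, ev_nz, ev_nz, ev_nz, ev_nz, e2_append, e2_append, e2_append, e2_append, e2_hR h0, e2_smT,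
    ev_append, ev_append, ev_append, ev_append, ev_append, ev_append, ev_append, ev_append, ev_smL, ev_smL, ev_smL,
    ev_smL]
  generalize e2 z u ((hR d.D).map fun t => (-(2 * t.1), [((1 : ℚ), (2 : ℕ), t.2.1)], [((1 : ℚ), t.2.2.1, t.2.2.2)])) = t1
  generalize ev z u (hD 3 d.D) = g3
  generalize ev z u (hD 4 d.D) = g4
  generalize ev z u (hD 5 d.D) = g5
  generalize ev z u (hD 6 d.D) = g6
  generalize e2 z u ET = et
  rw [← re_self, ← re_self, ← re_self, ← re_self]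
  simp only [e2_cons, e2_nil, ev_cons, ev_nil, rh0]
  generalize ev z u (cA3 v) = a3
  generalize ev z u (cAm3 v) = am3
  generalize ev z u (cA5 v) = a5
  generalize ev z u (cAm5 v) = am5
  rw [h0]
  have cr : ∀ q : ℚ, ((q : ℂ)).re = (q : ℝ) := fun q => Complex.ratCast_re q
  have ci : ∀ q : ℚ, ((q : ℂ)).im = 0 := fun q => Complex.ratCast_im q
  simp only [Complex.add_re, Complex.mul_re, Complex.add_im, Complex.mul_im, Complex.conj_re, Complex.conj_im,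
    Complex.sub_re, Complex.sub_im, Complex.neg_re, Complex.neg_im, cr, ci, map_mul, map_add, map_zero,
    Complex.div_ofNat_re, Complex.div_ofNat_im, Complex.re_ofNat, Complex.im_ofNat, Complex.one_re, Complex.one_im, Complex.zero_re, Complex.zero_im, Rat.cast_neg, Rat.cast_mul, Rat.cast_add,
    Rat.cast_sub, Rat.cast_div, Rat.cast_ofNat, Rat.cast_one]
  ring

end Pool.Agent.FPX.BRG
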