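import Mathlib
import Pool.Agent.FPX.BWM

/-
BWN (helper84): the main theorem for the compact lists of BWM; the weight of BRP2 with integer data; final statements.
-/

open MeasureTheory Set Filter Topology Complex
open scoped ENNReal NNReal ContDiff ComplexConjugate

noncomputable section

namespace Pool.Agent.FPX.BRG

open Pool.Agent.FPX.CRD (Bm)
open Pool.Agent.FPX.ALX (St)
open Pool.Agent.FPX.BTN (va e1)
open Pool.Agent.FPX.BTG (mo Cls)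
open Pool.Agent.FPX.CEL (uG)

variable {Ω : Type*} [MeasurableSpace Ω] {z : ℕ → ℂ} {u Z : ℤ → ℂ}

/-- the right sides -/
def rhf : ℕ → Lf
  | 0 => [(1, 1, 0), (-3 / 2, 0, -3)]
  | 1 => [(1, 0, 0), (-3 / 2, 1, 3)]
  | 2 => [(1, 4, 0), (-5 / 2, 0, -5), (3 / 2, 1, -3), (-3 / 2, 0, -3)]
  | 3 => [(1, 3, 0), (-5 / 2, 1, 5), (3 / 2, 0, 3), (-3 / 2, 1, 3)]
  | 4 => [(1, 6, 0), (-7 / 2, 0, -7), (3 / 2, 1, -3), (5 / 2, 1, -5), (-5 / 2, 0, -5)]
  | _ => [(1, 5, 0), (-7 / 2, 1, 7), (3 / 2, 0, 3), (5 / 2, 0, 5), (-5 / 2, 1, 5)]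

/-- `r_i`: right side minus the coefficient of `x q Σ b_l e^l` -/
def rrL (c : Cp) (v : Fin 29 → ℚ) (d : Dz) (i : ℕ) : Lf := rhf i ++ smL (-1) (bt c.w (cB v d) (hz i))

/-- the multipliers -/
def nL (c : Cp) (v : Fin 29 → ℚ) (d : Dz) (k : ℕ) : Lf :=
  smL ((g2 c.I k 0 : ℚ) / c.A) (rrL c v d 0) ++ (smL ((g2 c.I k 1 : ℚ) / c.A) (rrL c v d 1)
    ++ (smL ((g2 c.I k 2 : ℚ) / c.A) (rrL c v d 2) ++ (smL ((g2 c.I k 3 : ℚ) / c.A) (rrL c v d 3)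
    ++ (smL ((g2 c.I k 4 : ℚ) / c.A) (rrL c v d 4) ++ smL ((g2 c.I k 5 : ℚ) / c.A) (rrL c v d 5)))))

/-- the values of the `r_i` -/
def rV (z : ℕ → ℂ) (u : ℤ → ℂ) (c : Cp) (v : Fin 29 → ℚ) (d : Dz) (i : Fin 6) : ℂ := ev z u (rrL c v d i)

theorem nL_ev (c : Cp) (v : Fin 29 → ℚ) (d : Dz) (k : Fin 6) : ev z u (nL c v d k) =
    nn (fun k i => (g2 c.I k i : ℝ) / c.A) (rV z u c v d) k := by
  unfold nL nn rV
  have c0 : ((0 : Fin 6) : ℕ) = 0 := rfl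
  have c1 : ((1 : Fin 6) : ℕ) = 1 := rfl
  have c2 : ((2 : Fin 6) : ℕ) = 2 := rfl
  have c3 : ((3 : Fin 6) : ℕ) = 3 := rfl
  have c4 : ((4 : Fin 6) : ℕ) = 4 := rfl
  have c5 : ((5 : Fin 6) : ℕ) = 5 := rfl
  simp only [Fin.sum_univ_six, ev_append, ev_smL, c0, c1, c2, c3, c4, c5]
  push_cast
  ring

/-- the kernel with all multipliers -/
def K6 (c : Cp) (v : Fin 29 → ℚ) (d : Dz) : Kr :=
  ⟨[(1, nL c v d 0), (-1, nL c v d 1), (3, nL c v d 2), (-3, nL c v d 3), (5, nL c v d 4), (-5, nL c v d 5)], cB v d⟩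

set_option maxRecDepth 20000 in
theorem aav6 (c : Cp) (a : Fin 6 → Lf) :
    (c.w.map fun p => (p.1 : ℝ) * (aav z u [(1, a 0), (-1, a 1), (3, a 2), (-3, a 3), (5, a 4), (-5, a 5)]
      (2 * (p.2 : ℤ))).re).sum =
      ∑ k : Fin 6, ∑ l : Fin 6, (tz c.w0 c.w1 c.w2 k l : ℝ) / c.R * (ev z u (a k) * conj (ev z u (a l))).re := by
  have c0 : ((0 : Fin 6) : ℕ) = 0 := rfl
  have c1 : ((1 : Fin 6) : ℕ) = 1 := rfl
  have c2 : ((2 : Fin 6) : ℕ) = 2 := rfl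
  have c3 : ((3 : Fin 6) : ℕ) = 3 := rfl
  have c4 : ((4 : Fin 6) : ℕ) = 4 := rfl
  have c5 : ((5 : Fin 6) : ℕ) = 5 := rfl
  simp only [Fin.sum_univ_six, c0, c1, c2, c3, c4, c5]
  have t00 : tz c.w0 c.w1 c.w2 0 0 = c.w0 := rfl
  have t01 : tz c.w0 c.w1 c.w2 0 1 = c.w1 := rfl
  have t02 : tz c.w0 c.w1 c.w2 0 2 = c.w1 := rfl
  have t03 : tz c.w0 c.w1 c.w2 0 3 = c.w2 := rfl
  have t04 : tz c.w0 c.w1 c.w2 0 4 = c.w2 := rfl
  have t05 : tz c.w0 c.w1 c.w2 0 5 = 0 := rfl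
  have t10 : tz c.w0 c.w1 c.w2 1 0 = c.w1 := rfl
  have t11 : tz c.w0 c.w1 c.w2 1 1 = c.w0 := rfl
  have t12 : tz c.w0 c.w1 c.w2 1 2 = c.w2 := rfl
  have t13 : tz c.w0 c.w1 c.w2 1 3 = c.w1 := rfl
  have t14 : tz c.w0 c.w1 c.w2 1 4 = 0 := rfl
  have t15 : tz c.w0 c.w1 c.w2 1 5 = c.w2 := rfl
  have t20 : tz c.w0 c.w1 c.w2 2 0 = c.w1 := rfl
  have t21 : tz c.w0 c.w1 c.w2 2 1 = c.w2 := rfl
  have t22 : tz c.w0 c.w1 c.w2 2 2 = c.w0 := rfl
  have t23 : tz c.w0 c.w1 c.w2 2 3 = 0 := rfl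
  have t24 : tz c.w0 c.w1 c.w2 2 4 = c.w1 := rfl
  have t25 : tz c.w0 c.w1 c.w2 2 5 = 0 := rfl
  have t30 : tz c.w0 c.w1 c.w2 3 0 = c.w2 := rfl
  have t31 : tz c.w0 c.w1 c.w2 3 1 = c.w1 := rfl
  have t32 : tz c.w0 c.w1 c.w2 3 2 = 0 := rfl
  have t33 : tz c.w0 c.w1 c.w2 3 3 = c.w0 := rfl
  have t34 : tz c.w0 c.w1 c.w2 3 4 = 0 := rfl
  have t35 : tz c.w0 c.w1 c.w2 3 5 = c.w1 := rfl
  have t40 : tz c.w0 c.w1 c.w2 4 0 = c.w2 := rfl
  have t41 : tz c.w0 c.w1 c.w2 4 1 = 0 := rfl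
  have t42 : tz c.w0 c.w1 c.w2 4 2 = c.w1 := rfl
  have t43 : tz c.w0 c.w1 c.w2 4 3 = 0 := rfl
  have t44 : tz c.w0 c.w1 c.w2 4 4 = c.w0 := rfl
  have t45 : tz c.w0 c.w1 c.w2 4 5 = 0 := rfl
  have t50 : tz c.w0 c.w1 c.w2 5 0 = 0 := rfl
  have t51 : tz c.w0 c.w1 c.w2 5 1 = c.w2 := rfl
  have t52 : tz c.w0 c.w1 c.w2 5 2 = 0 := rfl
  have t53 : tz c.w0 c.w1 c.w2 5 3 = c.w1 := rfl
  have t54 : tz c.w0 c.w1 c.w2 5 4 = 0 := rfl
  have t55 : tz c.w0 c.w1 c.w2 5 5 = c.w0 := rfl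
  simp only [t00, t01, t02, t03, t04, t05, t10, t11, t12, t13, t14, t15, t20, t21, t22, t23, t24, t25, t30,
    t31, t32, t33, t34, t35, t40, t41, t42, t43, t44, t45, t50, t51, t52, t53, t54, t55]
  simp only [Cp.w, aav, List.map_cons, List.map_nil, List.sum_cons, List.sum_nil]
  generalize ev z u (a 0) = a0
  generalize ev z u (a 1) = a1
  generalize ev z u (a 2) = a2
  generalize ev z u (a 3) = a3
  generalize ev z u (a 4) = a4
  generalize ev z u (a 5) = a5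
  norm_num
  ring

/-- the multiplier function -/
def mfC (c : Cp) (v : Fin 29 → ℚ) (d : Dz) (m : ℤ) : Lf :=
  if m = 1 then nL c v d 0 else if m = -1 then nL c v d 1 else if m = 3 then nL c v d 2 ++ smL (-1) (cA3 v)
  else if m = -3 then nL c v d 3 ++ smL (-1) (cAm3 v) else if m = 5 then nL c v d 4 ++ smL (-1) (cA5 v)
  else nL c v d 5 ++ smL (-1) (cAm5 v)

theorem K6_par (c : Cp) (v : Fin 29 → ℚ) (d : Dz) : (K6 c v d).par = true := by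
  simp [K6, Kr.par, cB, Kr.nz, krZ]

theorem cl_eq (c : Cp) (v : Fin 29 → ℚ) (im : ℚ) (d : Dz) (ET : Tf) (EQ : Qf) :
    (FZ v im d ET EQ).nz.cl (mfC c v d) = [(1, rhf 0, nL c v d 0), (-1, rhf 1, nL c v d 1),
      (3, rhf 2, nL c v d 2 ++ smL (-1) (cA3 v)), (-3, rhf 3, nL c v d 3 ++ smL (-1) (cAm3 v)),
      (5, rhf 4, nL c v d 4 ++ smL (-1) (cA5 v)), (-5, rhf 5, nL c v d 5 ++ smL (-1) (cAm5 v))] := rfl

theorem K6_f (c : Cp) (v : Fin 29 → ℚ) (im : ℚ) (d : Dz) (ET : Tf) (EQ : Qf) (e : ℂ) (x : ℝ) :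
    (((FZ v im d ET EQ).nz.cl (mfC c v d)).kr (FZ v im d ET EQ).nz.k).f z u e x = (K6 c v d).f z u e x := by
  rw [Cl.f_eq, cl_eq]
  have hB : (FZ v im d ET EQ).nz.k.f z u e x = (ev z u (cA3 v) * e ^ (3 : ℤ) + (ev z u (cAm3 v) * e ^ (-3 : ℤ)
      + (ev z u (cA5 v) * e ^ (5 : ℤ) + (ev z u (cAm5 v) * e ^ (-5 : ℤ) + 0))))
      + x * pe ((cB v d).map fun p => (p.1, bev z p.2)) e := by
    have h0 : (FZ v im d ET EQ).nz.k.f z u e x = pe ((krZ v d).nz.A.map fun p => (p.1, ev z u p.2)) e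
      + x * pe ((cB v d).map fun p => (p.1, bev z p.2)) e := rfl
    rw [h0]
    congr 1
    have h1 : (krZ v d).nz.A = [(3, nzL (cA3 v)), (-3, nzL (cAm3 v)), (5, nzL (cA5 v)), (-5, nzL (cAm5 v))] := rfl
    rw [h1]
    simp only [List.map_cons, List.map_nil, pe, List.sum_cons, List.sum_nil, ev_nz]
  have hK : (K6 c v d).f z u e x = (ev z u (nL c v d 0) * e ^ (1 : ℤ) + (ev z u (nL c v d 1) * e ^ (-1 : ℤ)
      + (ev z u (nL c v d 2) * e ^ (3 : ℤ) + (ev z u (nL c v d 3) * e ^ (-3 : ℤ) + (ev z u (nL c v d 4) * e ^ (5 : ℤ)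
      + (ev z u (nL c v d 5) * e ^ (-5 : ℤ) + 0)))))) + x * pe ((cB v d).map fun p => (p.1, bev z p.2)) e := rfl
  rw [hB, hK]
  simp only [List.map_cons, List.map_nil, List.sum_cons, List.sum_nil, ev_append, ev_smL]
  push_cast
  ring

theorem rhf_ev (h0 : u 0 = 1) : ev z u (rhf 2) = z 4 + ev z u (rh0 2) ∧ ev z u (rhf 3) = z 3 + ev z u (rh0 3) ∧
    ev z u (rhf 4) = z 6 + ev z u (rh0 4) ∧ ev z u (rhf 5) = z 5 + ev z u (rh0 5) := by
  refine ⟨?_, ?_, ?_, ?_⟩ <;>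
  · simp only [rhf, rh0, ev_cons, ev_nil, h0]
    push_cast
    ring

theorem qr_cont2 (w : Wr) : Continuous fun p : ℂ × ℝ => qr w p.1 := by
  unfold qr
  induction w with
  | nil => simpa using (continuous_const : Continuous fun _ : ℂ × ℝ => (0 : ℝ))
  | cons q l ih =>
    simp only [List.map_cons, List.sum_cons]
    exact (continuous_const.mul (Complex.continuous_re.comp (continuous_fst.pow _))).add ih

/-- **the compact list bounds the form** -/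
theorem Cp.le (h0 : u 0 = 1) {c : Cp} {v : Fin 29 → ℚ} (hc : c.ok v = true) (im : ℚ) (d : Dz) (ET : Tf) :
    (e2 z u (c.T v im d ET)).re ≤ -(e2 z u (nzT (tqZ v im d ++ ET))).re
      - 2 * ((ev z u (cA3 v) * conj (ev z u (rhf 2))).re + ((ev z u (cAm3 v) * conj (ev z u (rhf 3))).re
        + ((ev z u (cA5 v) * conj (ev z u (rhf 4))).re + (ev z u (cAm5 v) * conj (ev z u (rhf 5))).re)))
      + (2 * ∑ k : Fin 6, (ev z u (nL c v d k) * conj (ev z u (rrL c v d k))).re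
        - ∑ k : Fin 6, ∑ l : Fin 6, (tz c.w0 c.w1 c.w2 k l : ℝ) / c.R *
          (ev z u (nL c v d k) * conj (ev z u (nL c v d l))).re) := by
  unfold Cp.ok at hc
  simp only [Bool.and_eq_true, decide_eq_true_eq] at hc
  obtain ⟨cR, cA, cE, cN, cEN, cκ, cel⟩ := hc
  have cN' : (0 : ℝ) < (c.N : ℝ) := by exact_mod_cast cN
  have cE' : (0 : ℝ) < (c.E : ℝ) := by exact_mod_cast cE
  obtain ⟨r2, r3, r4, r5⟩ := rhf_ev (z := z) h0
  have hopt := opt_val cA cR c.I c.w0 c.w1 c.w2 (rV z u c v d)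
  have hn : ∀ k : Fin 6, nn (fun k i => (g2 c.I k i : ℝ) / c.A) (rV z u c v d) k = ev z u (nL c v d k) := fun k =>
    (nL_ev c v d k).symm
  simp only [hn] at hopt
  have hr : ∀ k : Fin 6, rV z u c v d k = ev z u (rrL c v d k) := fun _ => rfl
  have hopt' := hopt
  simp only [hr] at hopt'
  rw [hopt', r2, r3, r4, r5, ← T12_eq h0]
  -- the matrix of 10 variables
  unfold Cp.T
  rw [e2_append, Complex.add_re, pmT_re]
  have hκ : ([z 4, z 3, z 6, z 5] : List ℂ).length = c.κ.length := (Nat.eq_of_beq_eq_true cκ).symm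
  have hs : shp (((c.f v d).map (ev z u)).length + ([z 4, z 3, z 6, z 5] : List ℂ).length) (c.W v) = true := WW_shp _ _ _ _ _ _
  have h1 := elm_le cN (m := 15) (by norm_num) c.κ (c.W v) [z 4, z 3, z 6, z 5] ((c.f v d).map (ev z u)) hκ hs
    (by simp [Cp.f]) cel
  have e1 : ([z 4, z 3, z 6, z 5] : List ℂ) ++ (c.f v d).map (ev z u) = [z 4, z 3, z 6, z 5,
      ev z u (rh0 0 ++ smL (-1) (bt c.w (cB v d) 1)), ev z u (rh0 1 ++ smL (-1) (bt c.w (cB v d) (-1))),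
      ev z u (rh0 2 ++ smL (-1) (bt c.w (cB v d) 3)), ev z u (rh0 3 ++ smL (-1) (bt c.w (cB v d) (-3))),
      ev z u (rh0 4 ++ smL (-1) (bt c.w (cB v d) 5)), ev z u (rh0 5 ++ smL (-1) (bt c.w (cB v d) (-5))),
      ev z u (ch2 v d), ev z u (ch3 v d), ev z u (ch4 v d), ev z u (ch5 v d)] := rfl
  rw [e1] at h1
  unfold Cp.W at h1
  rw [WW_val] at h1
  have eS : ex6 (sg c.S) = dvm c.E (up6 (xz (c.A * c.R) c.I c.w0 c.w1 c.w2)) := rfl
  rw [eS] at h1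
  -- the six right sides
  have s0 : ev z u (rh0 0 ++ smL (-1) (bt c.w (cB v d) 1)) = ev z u (rrL c v d (0 : Fin 6)) := rfl
  have s1 : ev z u (rh0 1 ++ smL (-1) (bt c.w (cB v d) (-1))) = ev z u (rrL c v d (1 : Fin 6)) := rfl
  have s2 : ev z u (rh0 2 ++ smL (-1) (bt c.w (cB v d) 3)) + z 4 = ev z u (rrL c v d (2 : Fin 6)) := by
    have : rrL c v d (2 : Fin 6) = rhf 2 ++ smL (-1) (bt c.w (cB v d) 3) := rfl
    rw [this, ev_append, ev_append, r2]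
    ring
  have s3 : ev z u (rh0 3 ++ smL (-1) (bt c.w (cB v d) (-3))) + z 3 = ev z u (rrL c v d (3 : Fin 6)) := by
    have : rrL c v d (3 : Fin 6) = rhf 3 ++ smL (-1) (bt c.w (cB v d) (-3)) := rfl
    rw [this, ev_append, ev_append, r3]
    ring
  have s4 : ev z u (rh0 4 ++ smL (-1) (bt c.w (cB v d) 5)) + z 6 = ev z u (rrL c v d (4 : Fin 6)) := by
    have : rrL c v d (4 : Fin 6) = rhf 4 ++ smL (-1) (bt c.w (cB v d) 5) := rfl
    rw [this, ev_append, ev_append, r4]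
    ring
  have s5 : ev z u (rh0 5 ++ smL (-1) (bt c.w (cB v d) (-5))) + z 5 = ev z u (rrL c v d (5 : Fin 6)) := by
    have : rrL c v d (5 : Fin 6) = rhf 5 ++ smL (-1) (bt c.w (cB v d) (-5)) := rfl
    rw [this, ev_append, ev_append, r5]
    ring
  rw [s0, s1, s2, s3, s4, s5] at h1
  have h2 := dvm_le cE (n := 6) (by norm_num) (W := up6 (xz (c.A * c.R) c.I c.w0 c.w1 c.w2))
    (xs := [ev z u (rrL c v d (0 : Fin 6)), ev z u (rrL c v d (1 : Fin 6)), ev z u (rrL c v d (2 : Fin 6)),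
      ev z u (rrL c v d (3 : Fin 6)), ev z u (rrL c v d (4 : Fin 6)), ev z u (rrL c v d (5 : Fin 6))]) rfl rfl
  set P := pw (up6 (xz (c.A * c.R) c.I c.w0 c.w1 c.w2)) [ev z u (rrL c v d (0 : Fin 6)), ev z u (rrL c v d (1 : Fin 6)),
    ev z u (rrL c v d (2 : Fin 6)), ev z u (rrL c v d (3 : Fin 6)), ev z u (rrL c v d (4 : Fin 6)),
    ev z u (rrL c v d (5 : Fin 6))] with hP
  set D := pw (dvm c.E (up6 (xz (c.A * c.R) c.I c.w0 c.w1 c.w2))) [ev z u (rrL c v d (0 : Fin 6)),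
    ev z u (rrL c v d (1 : Fin 6)), ev z u (rrL c v d (2 : Fin 6)), ev z u (rrL c v d (3 : Fin 6)),
    ev z u (rrL c v d (4 : Fin 6)), ev z u (rrL c v d (5 : Fin 6))] with hD
  have hden : (c.A : ℝ) * c.A * c.R = c.E * c.N := by exact_mod_cast cEN
  rw [hden]
  have h3 : D / c.N ≤ P / (c.E * c.N) := by
    rw [← div_div]
    exact div_le_div_of_nonneg_right h2 cN'.le
  -- the diagonal terms
  have fl : ∀ (q : ℚ) (y : ℂ), ((⌊q * c.N⌋ : ℤ) : ℝ) / c.N * ‖y‖ ^ 2 ≤ q * ‖y‖ ^ 2 := by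
    intro q y
    refine mul_le_mul_of_nonneg_right ?_ (by positivity)
    rw [div_le_iff₀ cN']
    have : ((⌊q * c.N⌋ : ℤ) : ℚ) ≤ q * c.N := Int.floor_le _
    exact_mod_cast this
  have f2 := fl (2 * v 11) (z 4)
  have f3 := fl (-(2 * v 11)) (z 3)
  have f4 := fl (2 * v 23) (z 6)
  have f5 := fl (-(2 * v 23)) (z 5)
  have h4 := div_le_div_of_nonneg_right h1 cN'.le
  have eM : c.M v = elm c.N c.κ (WW (sg c.S) c.N ⌊2 * v 11 * c.N⌋ ⌊-(2 * v 11) * c.N⌋ ⌊2 * v 23 * c.N⌋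
    ⌊-(2 * v 23) * c.N⌋) := rfl
  rw [eM]
  have e5 : (((1 / (c.N : ℚ) : ℚ)) : ℝ) = 1 / (c.N : ℝ) := by push_cast; rfl
  rw [e5, one_div_mul_eq_div]
  refine (add_le_add le_rfl h4).trans ?_
  push_cast at f2 f3 f4 f5
  have e6 : ∀ a b c' d' e' : ℝ, (a + b + c.N * c') / c.N = a / c.N + b / c.N + c' := fun a b c' _ _ => by
    field_simp
  rw [add_div, add_div, mul_div_cancel_left₀ _ cN'.ne', add_div, add_div, add_div, mul_div_right_comm,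
    mul_div_right_comm, mul_div_right_comm, mul_div_right_comm]
  linarith

/-- **the main theorem for the compact lists** -/
theorem Cp.main {ν : Measure Ω} {x : Ω → ℝ} {E : Ω → ℂ} (H : Fr ν x E) {G : Prop} {v : Fin 29 → ℚ} {im : ℚ}
    {d : Dz} {ET : Tf} {EQ : Qf} (hS : (FZ v im d ET EQ).Sem ν x E G) {c : Cp} (hc : c.ok v = true)
    (hw : ∀ e : ℂ, ‖e‖ = 1 → 0 < qr c.w e) (hT : ∫ t, 1 / qr c.w (E t) ∂ν ≤ 1)
    (h : ∀ z : ℕ → ℂ, 0 ≤ (e2 z (vl ν x E) (c.T v im d ET) + eq2 z (Zr 2 ν x E) (Q12 v d EQ c.w)).re) : G := by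
  have h0 : vl ν x E 0 = 1 := by
    have := H.pr
    simp [vl]
  refine Fm.nz_sem hS (fun e _ => qr c.w e) (qr_cont2 _) (fun e x he _ => hw e he) hT (mfC c v d) fun z => ?_
  have h1 := h z
  have h2 := Cp.le (z := z) h0 hc im d ET
  have hi := H.int_re (K6 c v d) (K6_par c v d) (wl c.w) (wl_ev _) z
  have h3 : ∫ t, ‖(((FZ v im d ET EQ).nz.cl (mfC c v d)).kr (FZ v im d ET EQ).nz.k).f z (vl ν x E) (E t) (x t)‖ ^ 2
      * qr c.w (E t) ∂ν =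
      ∫ t, ‖(K6 c v d).f z (vl ν x E) (E t) (x t)‖ ^ 2 * (we (wl c.w) (E t)).re ∂ν := by
    refine integral_congr_ae (Eventually.of_forall fun t => ?_)
    simp only
    rw [K6_f, we_wl]
  rw [h3, hi]
  have hB : (K6 c v d).QW (wl c.w) = (krZ v d).nz.QW (wl c.w) := QW_B rfl _
  rw [hB, Complex.add_re, Complex.add_re (e2 z (vl ν x E) (Kr.TW (wl c.w) (K6 c v d))), TW_re]
  have hA := aav6 (z := z) (u := vl ν x E) c (fun k => nL c v d k)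
  have hKA : (K6 c v d).A = [(1, (fun k : Fin 6 => nL c v d k) 0), (-1, (fun k : Fin 6 => nL c v d k) 1),
    (3, (fun k : Fin 6 => nL c v d k) 2), (-3, (fun k : Fin 6 => nL c v d k) 3), (5, (fun k : Fin 6 => nL c v d k) 4),
    (-5, (fun k : Fin 6 => nL c v d k) 5)] := rfl
  rw [hKA, hA, cl_eq]
  have hFT : (FZ v im d ET EQ).nz.T = nzT (tqZ v im d ++ ET) := rfl
  have hFQ : (FZ v im d ET EQ).nz.Q = nzQ (qqZ v d ++ EQ) := rfl
  have hKB : (K6 c v d).B = cB v d := rfl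
  rw [hFT, hFQ, hKB]
  unfold Q12 at h1
  rw [eq2_append, eq2_smQ, eq2_smQ] at h1
  set u := vl ν x E with hu
  set Z := Zr 2 ν x E with hZ
  have hb : ∀ k : Fin 6, ev z u (rrL c v d k) = ev z u (rhf k) - bqv z u c.w (cB v d) (hz k) := by
    intro k
    unfold rrL
    rw [ev_append, ev_smL, ev_bt]
    push_cast
    ring
  simp only [hb] at h2
  have c0 : ((0 : Fin 6) : ℕ) = 0 := rfl
  have c1 : ((1 : Fin 6) : ℕ) = 1 := rfl
  have c2 : ((2 : Fin 6) : ℕ) = 2 := rfl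
  have c3 : ((3 : Fin 6) : ℕ) = 3 := rfl
  have c4 : ((4 : Fin 6) : ℕ) = 4 := rfl
  have c5 : ((5 : Fin 6) : ℕ) = 5 := rfl
  have hs6 : ∑ k : Fin 6, (ev z u (nL c v d k) * conj (ev z u (rhf k) - bqv z u c.w (cB v d) (hz k))).re =
      ((ev z u (nL c v d 0) * conj (ev z u (rhf 0))).re - (ev z u (nL c v d 0) * conj (bqv z u c.w (cB v d) 1)).re)
      + ((ev z u (nL c v d 1) * conj (ev z u (rhf 1))).re - (ev z u (nL c v d 1) * conj (bqv z u c.w (cB v d) (-1))).re)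
      + ((ev z u (nL c v d 2) * conj (ev z u (rhf 2))).re - (ev z u (nL c v d 2) * conj (bqv z u c.w (cB v d) 3)).re)
      + ((ev z u (nL c v d 3) * conj (ev z u (rhf 3))).re - (ev z u (nL c v d 3) * conj (bqv z u c.w (cB v d) (-3))).re)
      + ((ev z u (nL c v d 4) * conj (ev z u (rhf 4))).re - (ev z u (nL c v d 4) * conj (bqv z u c.w (cB v d) 5)).re)
      + ((ev z u (nL c v d 5) * conj (ev z u (rhf 5))).re
        - (ev z u (nL c v d 5) * conj (bqv z u c.w (cB v d) (-5))).re) := by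
    simp only [Fin.sum_univ_six, c0, c1, c2, c3, c4, c5, map_sub, mul_sub, Complex.sub_re, hz]
  rw [hs6] at h2
  simp only [List.map_cons, List.map_nil, List.sum_cons, List.sum_nil, ev_append, ev_smL, c0, c1, c2, c3, c4, c5,
    add_mul, Complex.add_re, add_zero]
  have dn : ∀ w : ℂ, ((((-1 : ℚ)) : ℂ) * w).re = -w.re := fun w => by
    push_cast
    rw [neg_one_mul, Complex.neg_re]
  have dn2 : ∀ w w' : ℂ, ((((-1 : ℚ)) : ℂ) * w * w').re = -(w * w').re := fun w w' => by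
    push_cast
    rw [neg_one_mul, neg_mul, Complex.neg_re]
  simp only [Complex.add_re, dn] at h1
  simp only [dn2]
  linarith

/-! ### the weight -/

/-- the weight lies above `wP2 a b` -/
def Cp.wok (c : Cp) (a b : ℚ) : Bool :=
  abok a b && decide (|2 * (c.w1 : ℚ) / c.R - kap2 a b * (2 * (a + a * b))| + |2 * (c.w2 : ℚ) / c.R - kap2 a b * (2 * b)|
    ≤ (c.w0 : ℚ) / c.R - kap2 a b * (1 + a ^ 2 + b ^ 2))

theorem Cp.w_ge {c : Cp} {a b : ℚ} (h : c.wok a b = true) {e : ℂ} (he : ‖e‖ = 1) : qr (wP2 a b) e ≤ qr c.w e := by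
  unfold Cp.wok at h
  rw [Bool.and_eq_true, decide_eq_true_eq] at h
  have h2 : |2 * (c.w1 : ℝ) / c.R - kap2 a b * (2 * (a + a * b))| + |2 * (c.w2 : ℝ) / c.R - kap2 a b * (2 * b)|
    ≤ (c.w0 : ℝ) / c.R - kap2 a b * (1 + a ^ 2 + b ^ 2) := by exact_mod_cast h.2
  have r1 : |(e ^ 2).re| ≤ 1 := by
    refine (Complex.abs_re_le_norm _).trans ?_
    rw [norm_pow, he, one_pow]
  have r2 : |(e ^ 4).re| ≤ 1 := by
    refine (Complex.abs_re_le_norm _).trans ?_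
    rw [norm_pow, he, one_pow]
  unfold qr wP2 Cp.w
  simp only [List.map_cons, List.map_nil, List.sum_cons, List.sum_nil, mul_zero, pow_zero, mul_one,
    Complex.one_re, add_zero]
  norm_num
  set p := 2 * (c.w1 : ℝ) / c.R - kap2 a b * (2 * (a + a * b)) with hp
  set q := 2 * (c.w2 : ℝ) / c.R - kap2 a b * (2 * b) with hq
  have k1 : |p * (e ^ 2).re| ≤ |p| := by
    rw [abs_mul]
    exact mul_le_of_le_one_right (abs_nonneg _) r1
  have k2 : |q * (e ^ 4).re| ≤ |q| := by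
    rw [abs_mul]
    exact mul_le_of_le_one_right (abs_nonneg _) r2
  have k3 := (abs_le.1 k1).1
  have k4 := (abs_le.1 k2).1
  have e1 : p * (e ^ 2).re = 2 * (c.w1 : ℝ) / c.R * (e ^ 2).re - kap2 a b * (2 * (a + a * b)) * (e ^ 2).re := by
    rw [hp]
    ring
  have e2' : q * (e ^ 4).re = 2 * (c.w2 : ℝ) / c.R * (e ^ 4).re - kap2 a b * (2 * b) * (e ^ 4).re := by
    rw [hq]
    ring
  linarith

theorem Cp.w_pos {c : Cp} {a b : ℚ} (h : c.wok a b = true) {e : ℂ} (he : ‖e‖ = 1) : 0 < qr c.w e := by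
  have h1 : abok a b = true := by
    unfold Cp.wok at h
    rw [Bool.and_eq_true] at h
    exact h.1
  exact lt_of_lt_of_le (qr_wP2_pos (abok_r h1) he) (Cp.w_ge h he)

theorem Cp.w_int {ν : Measure Ω} {x : Ω → ℝ} {E : Ω → ℂ} (H : Fr ν x E) {c : Cp} {a b : ℚ} (h : c.wok a b = true) :
    ∫ t, 1 / qr c.w (E t) ∂ν ≤ 1 := by
  have h1 : abok a b = true := by
    unfold Cp.wok at h
    rw [Bool.and_eq_true] at h
    exact h.1
  have hI := int_wP2 H (abok_r h1)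
  refine (integral_mono_of_nonneg (Eventually.of_forall fun t => ?_) (integrable_of_integral_eq_one hI)
    (Eventually.of_forall fun t => ?_)).trans hI.le
  · exact (one_div_pos.2 (Cp.w_pos h (H.norm1 t))).le
  · exact one_div_le_one_div_of_le (qr_wP2_pos (abok_r h1) (H.norm1 t)) (Cp.w_ge h (H.norm1 t))

/-! ### final statements -/

section fin

open Pool.Agent.FPX.BV (CZ Psi14 PsiX PsiZ devZ)

variable {s : ℝ} {X : ℝ → ℝ} {v : Fin 29 → ℚ} {μ im : ℚ} {τ : ℂ} {ET : Tf} {EQ : Qf}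

/-- **`RW` for the class `CZ` from the compact lists**, any deviation -/
theorem RWC {Q : Type} [Fintype Q] {Ψ : PsiZ Q} {w : Q → ℝ} {d : Dz} (hX : St s X) (hb : ∀ a, |X a| ≤ 1) (hμ : 0 < μ)
    (him : im * (2 * μ) ≤ 1)
    (hd : ∀ A B z N M S R G P O Y Y' : ℂ, devZ Ψ w (mo (CZ Ψ) va X e1) A B N M S R G P O Y Y' =
      d.vz (zH A B z N M P O) (vl va X e1) (Zr 2 va X e1) S R G Y Y' + τ * conj A)
    (hE : ∀ z : ℕ → ℂ, 2 * (z 2 * (τ * conj (z 0))).re ≤ (e2 z (vl va X e1) ET + eq2 z (Zr 2 va X e1) EQ).re)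
    {c : Cp} (hc : c.ok v = true) {a b : ℚ} (hw : c.wok a b = true)
    (h : ∀ z : ℕ → ℂ, 0 ≤ (e2 z (vl va X e1) (c.T v im d ET) + eq2 z (Zr 2 va X e1) (Q12 v d EQ c.w)).re) :
    BTG.RW (CZ Ψ) va X e1 (fun i => ((v i : ℚ) : ℝ)) w μ 1 :=
  Cp.main (fr_va hX hb) (semZE (fr_va hX hb) hμ him hd hE) hc (fun _ he => Cp.w_pos hw he) (Cp.w_int (fr_va hX hb) hw) h

/-- **`RW` for `CZ PsiX` from the compact lists** -/
theorem RWXC (hX : St s X) (hb : ∀ a, |X a| ≤ 1) (hμ : 0 < μ) (him : im * (2 * μ) ≤ 1) {U : Fin 53 → ℚ}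
    (hE : ∀ z : ℕ → ℂ, 2 * (z 2 * (τ * conj (z 0))).re ≤ (e2 z (vl va X e1) ET + eq2 z (Zr 2 va X e1) EQ).re)
    {c : Cp} (hc : c.ok v = true) {a b : ℚ} (hw : c.wok a b = true)
    (h : ∀ z : ℕ → ℂ, 0 ≤ (e2 z (vl va X e1) (c.T v im (dzX U) ET) + eq2 z (Zr 2 va X e1) (Q12 v (dzX U) EQ c.w)).re) :
    BTG.RW (CZ PsiX) va X e1 (fun i => ((v i : ℚ) : ℝ)) (uG 26 27 (fun q => ((U q : ℚ) : ℝ)) τ) μ 1 :=
  RWC hX hb hμ him (hdX (fr_va hX hb) U τ) hE hc hw h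

/-- **the linear start map, compact lists** -/
theorem RWLC (hX : St s X) (hb : ∀ a, |X a| ≤ 1) (hμ : 0 < μ) (him : im * (2 * μ) ≤ 1) {U : Fin 53 → ℚ}
    {c : Cp} (hc : c.ok v = true) {a b : ℚ} (hw : c.wok a b = true)
    (h : ∀ z : ℕ → ℂ, 0 ≤ (e2 z (vl va X e1) (c.T v im (dzX U) []) + eq2 z (Zr 2 va X e1) (Q12 v (dzX U) [] c.w)).re) :
    BTG.RW (CZ PsiX) va X e1 (fun i => ((v i : ℚ) : ℝ)) (uG 26 27 (fun q => ((U q : ℚ) : ℝ)) 0) μ 1 :=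
  RWXC hX hb hμ him (fun z => by simp [e2, eq2]) hc hw h

end fin

end Pool.Agent.FPX.BRG
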