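import Mathlib
import Pool.Agent.FPX.BWN
import Pool.Agent.FPX.BWLR

/-
BWO (helper84): the compact lists for the linear start map with 24 slots (`PsiL`), also as control condition of the cells.
-/

open MeasureTheory Set Filter Topology Complex
open scoped ComplexConjugate

noncomputable section

namespace Pool.Agent.FPX.BRG

open Pool.Agent.FPX.BTN (va e1)
open Pool.Agent.FPX.BTG (mo)
open Pool.Agent.FPX.ALX
open Pool.Agent.FPX.BV (CZ PsiL devZ)

variable {s : ℝ} {X : ℝ → ℝ} {v : Fin 29 → ℚ} {μ im : ℚ} {U : Fin 24 → ℚ}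

/-- **the linear start map (24 slots), compact lists** -/
theorem RWPLC (hX : St s X) (hb : ∀ a, |X a| ≤ 1) (hμ : 0 < μ) (him : im * (2 * μ) ≤ 1)
    {c : Cp} (hc : c.ok v = true) {a b : ℚ} (hw : c.wok a b = true)
    (h : ∀ z : ℕ → ℂ, 0 ≤ (e2 z (vl va X e1) (c.T v im (dzL U) []) + eq2 z (Zr 2 va X e1) (Q12 v (dzL U) [] c.w)).re) :
    BTG.RW (CZ PsiL) va X e1 (fun i => ((v i : ℚ) : ℝ)) (CEL.uG 23 23 (fun q => ((U q : ℚ) : ℝ)) 0) μ 1 :=
  RWC hX hb hμ him (hdL' (fr_va hX hb) U (uG_hu U 0)) (fun z => by simp [e2, eq2]) hc hw h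

/-- **the control condition of the cells, compact lists** -/
theorem ctlPLC {s' : ℚ} (h1 : s' ≤ 1) (hμ : 0 < μ) (him : im * (2 * μ) ≤ 1)
    {c : Cp} (hc : c.ok v = true) {a b : ℚ} (hw : c.wok a b = true)
    (h : ∀ X, St (s' : ℝ) X → (∀ t, |X t| ≤ 0.62 * (s' : ℝ)) → ∀ z : ℕ → ℂ,
      0 ≤ (e2 z (vl va X e1) (c.T v im (dzL U) []) + eq2 z (Zr 2 va X e1) (Q12 v (dzL U) [] c.w)).re) :
    CEL.CtlZ PsiL 23 23 CEL.T0 s' μ v U := by
  refine CEL.ctlZ_zero fun X hX hb => ?_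
  have h1' : (s' : ℝ) ≤ 1 := by exact_mod_cast h1
  exact RWPLC hX (fun t => (hb t).trans (by linarith)) hμ him hc hw
    (h X hX fun t => (hb t).trans (le_of_eq (by norm_num)))

end Pool.Agent.FPX.BRG
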