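import Mathlib
import Pool.Agent.FPX.BWE
import Pool.Agent.FPX.BRP2

/-
BWP (helper98): any class (`Fm`, helper84), reciprocal weight `q = κ |1 + a e² + b e⁴|²`, `|a| + |b| < 1`,
`kap2 a b ≤ κ`. The square integral `∫ |f|² q` is the one of the kernel `f (1 + a e² + b e⁴)` without weight (few
products). The multipliers are arbitrary linear forms (data, e.g. the rounded optimal ones).
-/

open MeasureTheory Set Filter Topology Complex
open scoped ENNReal NNReal ContDiff ComplexConjugate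

noncomputable section

namespace Pool.Agent.FPX.BRG

variable {Ω : Type*} [MeasurableSpace Ω]

/-- merging equal components of a linear form in `z` -/
def insb (c : ℚ) (i : ℕ) : Bf → Bf
  | [] => [(c, i)]
  | t :: l => if Nat.beq t.2 i then (t.1 + c, i) :: l else t :: insb c i l

def cmb : Bf → Bf
  | [] => []
  | t :: l => insb t.1 t.2 (cmb l)

/-- merging equal harmonics -/
def insB (c : ℤ) (l : Bf) : List (ℤ × Bf) → List (ℤ × Bf)
  | [] => [(c, l)]
  | p :: L => if p.1 = c then (c, p.2 ++ l) :: L else p :: insB c l L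

def mrgB : List (ℤ × Bf) → List (ℤ × Bf)
  | [] => []
  | p :: L => insB p.1 p.2 (mrgB L)

theorem bev_append (z : ℕ → ℂ) (b b' : Bf) : bev z (b ++ b') = bev z b + bev z b' := by
  induction b with
  | nil => simp
  | cons t b ih =>
    rw [List.cons_append, bev_cons, bev_cons, ih]
    ring

theorem bev_insb (z : ℕ → ℂ) (c : ℚ) (i : ℕ) (l : Bf) : bev z (insb c i l) = (c : ℂ) * z i + bev z l := by
  induction l with
  | nil => simp [insb]
  | cons t l ih =>
    unfold insb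
    split_ifs with h
    · have h' : t.2 = i := Nat.eq_of_beq_eq_true h
      rw [bev_cons, bev_cons, h']
      push_cast
      ring
    · rw [bev_cons, ih, bev_cons]
      ring

theorem bev_cmb (z : ℕ → ℂ) (l : Bf) : bev z (cmb l) = bev z l := by
  induction l with
  | nil => rfl
  | cons t l ih =>
    unfold cmb
    rw [bev_insb, ih, bev_cons]

theorem pe_insB (z : ℕ → ℂ) (c : ℤ) (l : Bf) (L : List (ℤ × Bf)) (e : ℂ) :
    pe ((insB c l L).map fun p => (p.1, bev z p.2)) e =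
      bev z l * e ^ c + pe (L.map fun p => (p.1, bev z p.2)) e := by
  induction L with
  | nil => simp [insB, pe]
  | cons p L ih =>
    unfold insB
    split_ifs with h
    · simp only [List.map_cons, pe_cons, bev_append]
      rw [h]
      ring
    · simp only [List.map_cons, pe_cons]
      rw [ih]
      ring

theorem pe_mrgB (z : ℕ → ℂ) (L : List (ℤ × Bf)) (e : ℂ) :
    pe ((mrgB L).map fun p => (p.1, bev z p.2)) e = pe (L.map fun p => (p.1, bev z p.2)) e := by
  induction L with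
  | nil => rfl
  | cons p L ih =>
    unfold mrgB
    rw [pe_insB, ih, List.map_cons, pe_cons]

/-- merged lists of a kernel -/
def cmA (L : List (ℤ × Lf)) : List (ℤ × Lf) := (mrgA L).map fun p => (p.1, cm p.2)
def cmB (L : List (ℤ × Bf)) : List (ℤ × Bf) := (mrgB L).map fun p => (p.1, cmb p.2)

theorem pe_cmA (z : ℕ → ℂ) (u : ℤ → ℂ) (L : List (ℤ × Lf)) (e : ℂ) :
    pe ((cmA L).map fun p => (p.1, BRG.ev z u p.2)) e = pe (L.map fun p => (p.1, BRG.ev z u p.2)) e := by
  unfold cmA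
  rw [List.map_map, ← pe_mrgA]
  congr 1
  refine List.map_congr_left fun p _ => ?_
  simp only [Function.comp_apply, ev_cm]

theorem pe_cmB (z : ℕ → ℂ) (L : List (ℤ × Bf)) (e : ℂ) :
    pe ((cmB L).map fun p => (p.1, bev z p.2)) e = pe (L.map fun p => (p.1, bev z p.2)) e := by
  unfold cmB
  rw [List.map_map, ← pe_mrgB]
  congr 1
  refine List.map_congr_left fun p _ => ?_
  simp only [Function.comp_apply, bev_cmb]

/-- the kernel times `1 + a e² + b e⁴` -/
def Kr.p2 (a b : ℚ) (k : Kr) : Kr :=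
  ⟨cmA (k.A ++ ((k.A.map fun p => (p.1 + 2, smL a p.2)) ++ k.A.map fun p => (p.1 + 4, smL b p.2))),
   cmB (k.B ++ ((k.B.map fun p => (p.1 + 2, p.2.map fun t => (a * t.1, t.2)))
    ++ k.B.map fun p => (p.1 + 4, p.2.map fun t => (b * t.1, t.2))))⟩

theorem pe_shA (z : ℕ → ℂ) (u : ℤ → ℂ) (c : ℚ) (m : ℤ) (L : List (ℤ × Lf)) {e : ℂ} (he : e ≠ 0) :
    pe ((L.map fun p => (p.1 + m, smL c p.2)).map fun p => (p.1, BRG.ev z u p.2)) e =
      (c : ℂ) * e ^ m * pe (L.map fun p => (p.1, BRG.ev z u p.2)) e := by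
  induction L with
  | nil => simp [pe]
  | cons p L ih =>
    simp only [List.map_cons, pe_cons]
    rw [ih, ev_smL, zpow_add₀ he]
    ring

theorem pe_shB (z : ℕ → ℂ) (c : ℚ) (m : ℤ) (L : List (ℤ × Bf)) {e : ℂ} (he : e ≠ 0) :
    pe ((L.map fun p => (p.1 + m, p.2.map fun t => (c * t.1, t.2))).map fun p => (p.1, bev z p.2)) e =
      (c : ℂ) * e ^ m * pe (L.map fun p => (p.1, bev z p.2)) e := by
  have hb : ∀ l : Bf, bev z (l.map fun t => (c * t.1, t.2)) = (c : ℂ) * bev z l := by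
    intro l
    induction l with
    | nil => simp
    | cons t l ih =>
      rw [List.map_cons, bev_cons, ih, bev_cons]
      push_cast
      ring
  induction L with
  | nil => simp [pe]
  | cons p L ih =>
    simp only [List.map_cons, pe_cons]
    rw [ih, hb, zpow_add₀ he]
    ring

theorem p2_f (a b : ℚ) (k : Kr) (z : ℕ → ℂ) (u : ℤ → ℂ) {e : ℂ} (he : e ≠ 0) (x : ℝ) :
    (k.p2 a b).f z u e x = k.f z u e x * (1 + (a : ℂ) * e ^ 2 + (b : ℂ) * (e ^ 2) ^ 2) := by
  have q2 : e ^ (2 : ℤ) = e ^ 2 := by norm_cast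
  have q4 : e ^ (4 : ℤ) = (e ^ 2) ^ 2 := by
    rw [← pow_mul]
    norm_cast
  have h1 : pe ((k.p2 a b).pA z u) e = pe (k.pA z u) e * (1 + (a : ℂ) * e ^ 2 + (b : ℂ) * (e ^ 2) ^ 2) := by
    unfold Kr.p2 Kr.pA
    simp only
    rw [pe_cmA, List.map_append, List.map_append, pe_append, pe_append, pe_shA z u a 2 k.A he,
      pe_shA z u b 4 k.A he, q2, q4]
    ring
  have h2 : pe ((k.p2 a b).pB z) e = pe (k.pB z) e * (1 + (a : ℂ) * e ^ 2 + (b : ℂ) * (e ^ 2) ^ 2) := by
    unfold Kr.p2 Kr.pB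
    simp only
    rw [pe_cmB, List.map_append, List.map_append, pe_append, pe_append, pe_shB z a 2 k.B he,
      pe_shB z b 4 k.B he, q2, q4]
    ring
  unfold Kr.f
  rw [h1, h2]
  ring

theorem insB_par {c : ℤ} (l : Bf) {L : List (ℤ × Bf)} (hc : c % 2 = 0) (hL : ∀ p ∈ L, p.1 % 2 = 0) :
    ∀ p ∈ insB c l L, p.1 % 2 = 0 := by
  induction L with
  | nil => simpa [insB] using hc
  | cons q L ih =>
    unfold insB
    split_ifs with h
    · intro p hp
      rcases List.mem_cons.1 hp with rfl | hp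
      · exact hc
      · exact hL p (List.mem_cons_of_mem _ hp)
    · intro p hp
      rcases List.mem_cons.1 hp with rfl | hp
      · exact hL _ (List.mem_cons_self)
      · exact ih (fun p hp => hL p (List.mem_cons_of_mem _ hp)) p hp

theorem mrgB_par {L : List (ℤ × Bf)} (hL : ∀ p ∈ L, p.1 % 2 = 0) : ∀ p ∈ mrgB L, p.1 % 2 = 0 := by
  induction L with
  | nil => simp [mrgB]
  | cons q L ih =>
    unfold mrgB
    exact insB_par _ (hL q List.mem_cons_self) (ih fun p hp => hL p (List.mem_cons_of_mem _ hp))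

theorem p2_par (a b : ℚ) {k : Kr} (hk : k.par = true) : (k.p2 a b).par = true := by
  unfold Kr.par at hk ⊢
  rw [Bool.and_eq_true, List.all_eq_true, List.all_eq_true] at hk ⊢
  obtain ⟨h1, h2⟩ := hk
  have h1' : ∀ p ∈ k.A, p.1 % 2 = 1 := fun p hp => by simpa using h1 p hp
  have h2' : ∀ p ∈ k.B, p.1 % 2 = 0 := fun p hp => by simpa using h2 p hp
  constructor
  · intro p hp
    unfold Kr.p2 cmA at hp
    simp only [List.mem_map] at hp
    obtain ⟨q, hq, rfl⟩ := hp
    have := mrgA_par (L := k.A ++ ((k.A.map fun p => (p.1 + 2, smL a p.2)) ++ k.A.map fun p => (p.1 + 4, smL b p.2)))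
      (fun p hp => by
        simp only [List.mem_append, List.mem_map] at hp
        rcases hp with hp | ⟨r, hr, rfl⟩ | ⟨r, hr, rfl⟩
        · exact h1' p hp
        · have := h1' r hr
          simp only
          omega
        · have := h1' r hr
          simp only
          omega) q hq
    simpa using this
  · intro p hp
    unfold Kr.p2 cmB at hp
    simp only [List.mem_map] at hp
    obtain ⟨q, hq, rfl⟩ := hp
    have := mrgB_par (L := k.B ++ ((k.B.map fun p => (p.1 + 2, p.2.map fun t => (a * t.1, t.2)))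
      ++ k.B.map fun p => (p.1 + 4, p.2.map fun t => (b * t.1, t.2)))) (fun p hp => by
        simp only [List.mem_append, List.mem_map] at hp
        rcases hp with hp | ⟨r, hr, rfl⟩ | ⟨r, hr, rfl⟩
        · exact h2' p hp
        · have := h2' r hr
          simp only
          omega
        · have := h2' r hr
          simp only
          omega) q hq
    simpa using this

/-- merging of the harmonics of a kernel -/
def Kr.mg (k : Kr) : Kr := ⟨cmA k.A, cmB k.B⟩

theorem mg_f (k : Kr) (z : ℕ → ℂ) (u : ℤ → ℂ) (e : ℂ) (x : ℝ) : k.mg.f z u e x = k.f z u e x := by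
  unfold Kr.f Kr.mg Kr.pA Kr.pB
  simp only
  rw [pe_cmA, pe_cmB]

/-- the kernel with multipliers times `1 + a e² + b e⁴` -/
def Fm.kp (F : Fm) (mf : ℤ → Lf) (a b : ℚ) : Kr := (cmK ((F.cl mf).kr F.k)).p2 a b

/-- **the rank one terms before the eliminations** -/
def Fm.P0 (F : Fm) (mf : ℤ → Lf) (a b κ : ℚ) : Tf :=
  smT (-1) F.T ++ ((F.cl mf).map (fun c => (2, c.2.2, c.2.1)) ++ smT (-κ) (F.kp mf a b).T0h)

/-- **the rank one terms** -/
def Fm.PT (F : Fm) (mf : ℤ → Lf) (a b κ : ℚ) (ks : List (ℕ × ℚ)) : Tf := elsF ks (F.P0 mf a b κ)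

/-- **the terms with `x²`** -/
def Fm.PQ (F : Fm) (a b κ : ℚ) : Qf := smQ (-1) F.Q ++ smQ (-κ) ((F.k.p2 a b).Q 0)

/-- the conditions -/
def Fm.Pok (F : Fm) (mf : ℤ → Lf) (a b κ : ℚ) (ks : List (ℕ × ℚ)) : Bool :=
  elsFok ks (F.P0 mf a b κ) && (|a| + |b| < 1 && kap2 a b ≤ κ)

/-- multipliers given by a list -/
def mfL (L : List (ℤ × Lf)) (c : ℤ) : Lf :=
  match L with
  | [] => []
  | p :: L => if p.1 = c then p.2 else mfL L c

theorem kp_par {F : Fm} (hF : F.par = true) (mf : ℤ → Lf) (a b : ℚ) : (F.kp mf a b).par = true := by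
  unfold Fm.kp
  refine p2_par a b (cmK_par ?_)
  unfold Fm.par at hF
  simp only [Bool.and_eq_true] at hF
  obtain ⟨h1, _, h3⟩ := hF
  unfold Kr.par at h1 ⊢
  rw [Bool.and_eq_true, List.all_eq_true, List.all_eq_true] at h1 ⊢
  rw [List.all_eq_true] at h3
  refine ⟨fun p hp => ?_, h1.2⟩
  unfold Cl.kr Fm.cl at hp
  simp only [List.mem_append, List.mem_map] at hp
  rcases hp with ⟨c, ⟨c', hc, rfl⟩, rfl⟩ | hp
  · exact h3 c' hc
  · exact h1.1 p hp

theorem kp_B (F : Fm) (mf : ℤ → Lf) (a b : ℚ) : (F.kp mf a b).B = (F.k.p2 a b).B := rfl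

section fr

variable {ν : Measure Ω} {x : Ω → ℝ} {E : Ω → ℂ} (H : Fr ν x E)
include H

theorem Fm.of_P {F : Fm} {G : Prop} (hS : F.Sem ν x E G) (hF : F.par = true) {mf : ℤ → Lf} {a b κ : ℚ}
    {ks : List (ℕ × ℚ)} (hk : F.Pok mf a b κ ks = true)
    (h : ∀ z : ℕ → ℂ, 0 ≤ (e2 z (vl ν x E) (F.PT mf a b κ ks) + eq2 z (Zr 2 ν x E) (F.PQ a b κ)).re) : G := by
  have := H.pr
  have u0 : vl ν x E 0 = 1 := by simp [vl]
  unfold Fm.Pok at hk
  simp only [Bool.and_eq_true, decide_eq_true_eq] at hk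
  obtain ⟨hk1, hab, hκ⟩ := hk
  have hab' : |(a : ℝ)| + |(b : ℝ)| < 1 := by exact_mod_cast hab
  have hκ' : (kap2 a b : ℝ) ≤ (κ : ℝ) := by exact_mod_cast hκ
  have k0 := kap2_pos hab'
  have κ0 : (0 : ℝ) < κ := lt_of_lt_of_le k0 hκ'
  set N : ℂ → ℝ := fun e => ‖1 + (a : ℂ) * e ^ 2 + (b : ℂ) * (e ^ 2) ^ 2‖ ^ 2 with hN
  have ac : ((a : ℚ) : ℂ) = (((a : ℚ) : ℝ) : ℂ) := by push_cast; rfl
  have bc : ((b : ℚ) : ℂ) = (((b : ℚ) : ℝ) : ℂ) := by push_cast; rfl
  have hNp : ∀ e : ℂ, ‖e‖ = 1 → 0 < N e := by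
    intro e he
    have hn : ‖e ^ 2‖ = 1 := by rw [norm_pow, he, one_pow]
    have := pQ_ne hab' hn
    rw [← ac, ← bc] at this
    exact pow_pos (norm_pos_iff.2 this) 2
  have hqN : ∀ e : ℂ, ‖e‖ = 1 → qr (wP2 a b) e = (kap2 a b : ℝ) * N e := by
    intro e he
    rw [qr_wP2, ← nsq (a := (a : ℝ)) (b := (b : ℝ)) _ (w1 he), hN]
    simp only
    rw [ac, bc, Complex.normSq_eq_norm_sq]
  refine hS (fun e _ => (κ : ℝ) * N e) ?_ (fun e _ he _ => mul_pos κ0 (hNp e he)) ?_ mf fun z => ?_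
  · have : Continuous fun e : ℂ => (κ : ℝ) * N e := by
      refine continuous_const.mul ((continuous_norm.comp ?_).pow 2)
      exact (continuous_const.add (continuous_const.mul (continuous_id.pow 2))).add
        (continuous_const.mul ((continuous_id.pow 2).pow 2))
    exact this.comp continuous_fst
  · have e : (fun t => 1 / ((κ : ℝ) * N (E t))) = fun t => ((kap2 a b : ℝ) / κ) * (1 / qr (wP2 a b) (E t)) := by
      funext t
      rw [hqN _ (H.norm1 t)]
      have h1 := (hNp _ (H.norm1 t)).ne'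
      have h2 := κ0.ne'
      have h3 := k0.ne'
      field_simp
    rw [e, integral_const_mul, int_wP2 H hab', mul_one]
    exact (div_le_one κ0).2 hκ'
  · have Fz := h z
    have hv := elsF_le u0 hk1 z
    have hT : e2 z (vl ν x E) (F.P0 mf a b κ) = -(e2 z (vl ν x E) F.T)
        + (2 * ((F.cl mf).map fun c => BRG.ev z (vl ν x E) c.2.2 * conj (BRG.ev z (vl ν x E) c.2.1)).sum
          - (κ : ℂ) * e2 z (vl ν x E) (F.kp mf a b).T0h) := by
      unfold Fm.P0
      rw [e2_append, e2_append, e2_smT, e2_smT, e2_C]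
      push_cast
      ring
    have hQ : eq2 z (Zr 2 ν x E) (F.PQ a b κ) = -(eq2 z (Zr 2 ν x E) F.Q)
        - (κ : ℂ) * eq2 z (Zr 2 ν x E) ((F.k.p2 a b).Q 0) := by
      unfold Fm.PQ
      rw [eq2_append, eq2_smQ, eq2_smQ]
      push_cast
      ring
    have hI := H.int_re (F.kp mf a b) (kp_par hF mf a b) [(1, 0)] (by simp [Wl.ev]) z
    have hw1 : ∀ e : ℂ, (we [(1, 0)] e).re = 1 := fun e => by simp [we]
    have hT1 : (F.kp mf a b).TW [(1, 0)] = smT 1 ((F.kp mf a b).T 0) := by simp [Kr.TW]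
    have hQ1 : (F.kp mf a b).QW [(1, 0)] = smQ 1 ((F.kp mf a b).Q 0) := by simp [Kr.QW]
    rw [hT1, hQ1, e2_smT, eq2_smQ] at hI
    simp only [hw1, mul_one, Rat.cast_one, one_mul] at hI
    have hQB : (F.kp mf a b).Q 0 = (F.k.p2 a b).Q 0 := by
      unfold Kr.Q
      rw [kp_B]
    rw [hQB, Complex.add_re, ← T0h_re] at hI
    have hf : ∀ t, ‖(F.kp mf a b).f z (vl ν x E) (E t) (x t)‖ ^ 2 =
        ‖((F.cl mf).kr F.k).f z (vl ν x E) (E t) (x t)‖ ^ 2 * N (E t) := by
      intro t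
      unfold Fm.kp
      rw [p2_f a b _ z _ (H.ne t), cmK_f, norm_mul, mul_pow]
    simp only [hf] at hI
    have hJ : ∫ t, ‖((F.cl mf).kr F.k).f z (vl ν x E) (E t) (x t)‖ ^ 2 * ((κ : ℝ) * N (E t)) ∂ν =
        (κ : ℝ) * ∫ t, ‖((F.cl mf).kr F.k).f z (vl ν x E) (E t) (x t)‖ ^ 2 * N (E t) ∂ν := by
      rw [← integral_const_mul]
      refine integral_congr_ae (Eventually.of_forall fun t => ?_)
      simp only
      ring
    rw [hJ, hI]
    unfold Fm.PT at Fz
    have d2 : ∀ w : ℂ, (2 * w).re = 2 * w.re := fun w => by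
      rw [Complex.mul_re]
      norm_num
    have dk : ∀ w : ℂ, (((κ : ℚ) : ℂ) * w).re = (κ : ℝ) * w.re := fun w => by
      have : ((κ : ℚ) : ℂ) = (((κ : ℚ) : ℝ) : ℂ) := by push_cast; rfl
      rw [this, Complex.re_ofReal_mul]
    rw [hQ] at Fz
    rw [hT] at hv
    simp only [Complex.add_re, Complex.sub_re, Complex.neg_re, d2, dk] at Fz hv ⊢
    linarith

end fr

end Pool.Agent.FPX.BRG
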