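/-!
BXE (definitions): a kernel-checked test for polynomial inequalities `0 ≤ p(x_0,..,x_{k-1})` on rational boxes,
`p` given as an expression (with registers for shared subterms), adaptive subdivision tree, linear multipliers for
side conditions. One evaluation of the expression on big integers (Kronecker substitution after the projective change
of variable `x_i = (a_i + b_i T_i) / (q_i (1 + T_i))`) gives all Bernstein coefficients of the box as digits.
-/
namespace Pool.Agent.FPX.BXE

/-- polynomial expressions; `v i` = variable or register number `i` -/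
inductive Ex : Type where
  | c (n : Int)
  | v (i : Nat)
  | add (a b : Ex)
  | sub (a b : Ex)
  | mul (a b : Ex)
  | pow (a : Ex) (n : Nat)

/-- expressions with homogenisation exponents in the sums -/
inductive Ax : Type where
  | c (n : Int)
  | v (i : Nat)
  | add (a b : Ax) (s t : List Nat)
  | sub (a b : Ax) (s t : List Nat)
  | mul (a b : Ax)
  | pow (a : Ax) (n : Nat)

/-- box side `[a/q, b/q]` -/
structure Iv where
  (a : Int)
  (b : Int)
  (q : Nat)

/-- certificate tree: leaf with multipliers, or bisection of variable `i` -/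
inductive Tr where
  | o
  | l (m k : Nat) (lam : List Nat)
  | s (i : Nat) (a b : Tr)

def dmx : List Nat → List Nat → List Nat
  | [], l => l
  | a :: l, [] => a :: l
  | a :: l, b :: m => (a + (b - a)) :: dmx l m

def dad : List Nat → List Nat → List Nat
  | [], l => l
  | a :: l, [] => a :: l
  | a :: l, b :: m => (a + b) :: dad l m

def dcn (a : Nat) : List Nat → List Nat
  | [] => if a = 0 then [] else [a]
  | b :: l => a :: b :: l

def dsb : List Nat → List Nat → List Nat
  | [], _ => []
  | a :: l, [] => a :: l
  | a :: l, b :: m => dcn (a - b) (dsb l m)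

def dsm (n : Nat) : List Nat → List Nat
  | [] => []
  | a :: l => n * a :: dsm n l

noncomputable def gt {α : Type} (z : α) (l : List α) : Nat → α :=
  @List.rec α (fun _ => Nat → α) (fun _ => z)
    (fun a _ f n => @Nat.rec (fun _ => α) a (fun m _ => f m) n) l

/-- annotation and degrees; `D` = degrees of the registers (newest first), `n` their number -/
noncomputable def ann (n : Nat) (D : List (List Nat)) (e : Ex) : Ax × List Nat :=
  @Ex.rec (fun _ => Ax × List Nat) (fun n => (.c n, []))
   (fun i => cond (Nat.ble n i) (.c 0, []) (.v (Nat.sub n (Nat.succ i)), gt [] D (Nat.sub n (Nat.succ i))))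
   (fun _ _ x y => (.add x.1 y.1 (dsb (dmx x.2 y.2) x.2) (dsb (dmx x.2 y.2) y.2), dmx x.2 y.2))
   (fun _ _ x y => (.sub x.1 y.1 (dsb (dmx x.2 y.2) x.2) (dsb (dmx x.2 y.2) y.2), dmx x.2 y.2))
   (fun _ _ x y => (.mul x.1 y.1, dad x.2 y.2))
   (fun _ n x => (.pow x.1 n, dsm n x.2)) e

/-- product of powers -/
noncomputable def qp (Q : List Nat) : List Nat → Nat :=
  @List.rec Nat (fun _ => List Nat → Nat) (fun _ => 1)
    (fun q _ f l => @List.rec Nat (fun _ => Nat) 1 (fun d m _ => Nat.mul (Nat.pow q d) (f m)) l) Q

/-! integer arithmetic, fast in the kernel -/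
noncomputable def ng (n : Nat) : Int :=
  @Nat.rec (fun _ => Int) (Int.ofNat 0) (fun k _ => Int.negSucc k) n
noncomputable def sn (m n : Nat) : Int :=
  @Nat.rec (fun _ => Int) (Int.ofNat (Nat.sub m n)) (fun k _ => Int.negSucc k) (Nat.sub n m)
noncomputable def im (a b : Int) : Int :=
  @Int.rec (fun _ => Int)
    (fun m => @Int.rec (fun _ => Int) (fun n => Int.ofNat (Nat.mul m n))
      (fun n => ng (Nat.mul m (Nat.succ n))) b)
    (fun m => @Int.rec (fun _ => Int) (fun n => ng (Nat.mul (Nat.succ m) n))
      (fun n => Int.ofNat (Nat.mul (Nat.succ m) (Nat.succ n))) b) a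
noncomputable def imn (a : Int) (n : Nat) : Int :=
  @Int.rec (fun _ => Int) (fun m => Int.ofNat (Nat.mul m n)) (fun m => ng (Nat.mul (Nat.succ m) n)) a
noncomputable def ia (a b : Int) : Int :=
  @Int.rec (fun _ => Int)
    (fun m => @Int.rec (fun _ => Int) (fun n => Int.ofNat (Nat.add m n)) (fun n => sn m (Nat.succ n)) b)
    (fun m => @Int.rec (fun _ => Int) (fun n => sn n (Nat.succ m))
      (fun n => Int.negSucc (Nat.add m (Nat.succ n))) b) a
noncomputable def is (a b : Int) : Int :=
  @Int.rec (fun _ => Int)
    (fun m => @Int.rec (fun _ => Int) (fun n => sn m n) (fun n => Int.ofNat (Nat.add m (Nat.succ n))) b)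
    (fun m => @Int.rec (fun _ => Int) (fun n => Int.negSucc (Nat.add m n)) (fun n => sn n m) b) a
noncomputable def ipow (a : Int) (n : Nat) : Int :=
  @Nat.rec (fun _ => Int) (Int.ofNat 1) (fun _ r => im r a) n
noncomputable def hq (Q : List Nat) (x : Int) (s : List Nat) : Int :=
  @List.rec Nat (fun _ => Int) x (fun _ _ _ => imn x (qp Q s)) s

/-! forced evaluation -/
noncomputable def fN {β : Type} (n : Nat) (k : Nat → β) : β := @Nat.rec (fun _ => β) (k 0) (fun m _ => k (Nat.succ m)) n
noncomputable def fI {β : Type} (x : Int) (k : Int → β) : β :=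
  @Int.rec (fun _ => β) (fun n => fN n (fun m => k (Int.ofNat m))) (fun n => fN n (fun m => k (Int.negSucc m))) x

/-- integer evaluation -/
noncomputable def hI (Q : List Nat) (V : List Int) (a : Ax) : Int :=
  @Ax.rec (fun _ => Int) (fun n => n) (fun i => gt (Int.ofNat 0) V i)
    (fun _ _ s t x y => ia (hq Q x s) (hq Q y t))
    (fun _ _ s t x y => is (hq Q x s) (hq Q y t))
    (fun _ _ x y => im x y)
    (fun _ n x => ipow x n) a

/-- forced lists and annotated expressions -/
noncomputable def fL {β : Type} (l : List Nat) : (List Nat → β) → β :=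
  @List.rec Nat (fun _ => (List Nat → β) → β) (fun k => k [])
   (fun a _ f k => fN a (fun a => f (fun l => k (a :: l)))) l
noncomputable def fLL {β : Type} (l : List (List Nat)) : (List (List Nat) → β) → β :=
  @List.rec (List Nat) (fun _ => (List (List Nat) → β) → β) (fun k => k [])
   (fun a _ f k => fL a (fun a => f (fun l => k (a :: l)))) l
noncomputable def fA {β : Type} (a : Ax) : (Ax → β) → β :=
  @Ax.rec (fun _ => (Ax → β) → β) (fun n k => fI n (fun n => k (.c n))) (fun i k => fN i (fun i => k (.v i)))
    (fun _ _ s t x y k => x (fun u => y (fun v => fL s (fun s => fL t (fun t => k (.add u v s t))))))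
    (fun _ _ s t x y k => x (fun u => y (fun v => fL s (fun s => fL t (fun t => k (.sub u v s t))))))
    (fun _ _ x y k => x (fun u => y (fun v => k (.mul u v))))
    (fun _ n x k => x (fun u => fN n (fun n => k (.pow u n)))) a
noncomputable def fLA {β : Type} (l : List Ax) : (List Ax → β) → β :=
  @List.rec Ax (fun _ => (List Ax → β) → β) (fun k => k [])
   (fun a _ f k => fA a (fun a => f (fun l => k (a :: l)))) l

/-- sum of the absolute values of the coefficients -/
noncomputable def sN (n : Nat) (S : List Nat) (a : Ex) : Nat :=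
  @Ex.rec (fun _ => Nat) (fun n => Int.natAbs n) (fun i => cond (Nat.ble n i) 0 (gt 0 S (Nat.sub n (Nat.succ i))))
    (fun _ _ x y => Nat.add x y)
    (fun _ _ x y => Nat.add x y)
    (fun _ _ x y => Nat.mul x y)
    (fun _ n x => Nat.pow x n) a

/-- values of the variables (newest first) -/
noncomputable def lA {β : Type} (ns : List Nat) : List Iv → Nat → List Int → (List Int → β) → β :=
  @List.rec Nat (fun _ => List Iv → Nat → List Int → (List Int → β) → β) (fun _ _ V k => k V)
   (fun n _ f l w V k => @List.rec Iv (fun _ => β) (k V)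
      (fun x m _ => fI (ia x.a (imn x.b (Nat.pow 2 w))) (fun z => f m (Nat.mul w n) (z :: V) k)) l) ns
noncomputable def lQ {β : Type} (ns : List Nat) : List Iv → Nat → (List Nat → β) → β :=
  @List.rec Nat (fun _ => List Iv → Nat → (List Nat → β) → β) (fun _ _ k => k [])
   (fun n _ f l w k => @List.rec Iv (fun _ => β) (k [])
      (fun x m _ => fN (Nat.mul x.q (Nat.add 1 (Nat.pow 2 w))) (fun z => f m (Nat.mul w n) (fun Q => k (z :: Q)))) l) ns

noncomputable def nmax (a b : Nat) : Nat := Nat.add a (Nat.sub b a)
noncomputable def nM (l : List Iv) : List Nat :=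
  @List.rec Iv (fun _ => List Nat) []
    (fun x _ r => nmax (Nat.add x.a.natAbs x.b.natAbs) (Nat.mul 2 x.q) :: r) l

def prN : List Nat → Nat
  | [] => 1
  | n :: l => n * prN l

noncomputable def off (w n : Nat) : Nat :=
  Nat.mul (Nat.pow 2 (Nat.sub w 1)) (Nat.div (Nat.sub (Nat.pow 2 (Nat.mul w n)) 1) (Nat.sub (Nat.pow 2 w) 1))

noncomputable def tst (N : Int) (o : Nat) : Bool :=
  Nat.beq (Nat.land (Int.toNat (ia N (Int.ofNat o))) o) o

/-- run a program -/
noncomputable def rI {β : Type} (Q : List Nat) (as : List Ax) : List Int → (List Int → β) → β :=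
  @List.rec Ax (fun _ => List Int → (List Int → β) → β) (fun V k => k V)
    (fun a _ f V k => fI (hI Q V a) (fun z => f (z :: V) k)) as

/-- numbers of coefficients -/
def mkns : List Iv → List Nat → List Nat
  | [], _ => []
  | _ :: l, [] => 1 :: mkns l []
  | _ :: l, d :: m => (d + 1) :: mkns l m

/-- test of the annotated expression `x` (in the registers) on one box; `S` bound for the coefficients -/
noncomputable def chkB (d : List Nat) (S : Nat) (as : List Ax) (x : Ax) (bx : List Iv) : Bool :=
    fN (Nat.add (Nat.log2 (Nat.mul S (qp (nM bx) d))) 2) (fun w =>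
     (fun (ns : List Nat) => and (Nat.ble d.length bx.length)
       (lQ ns bx w (fun Q => lA ns bx w [] (fun V => rI Q as V (fun V => tst (hI Q V x) (off w (prN ns)))))))
     (mkns bx d))

/-- forced test -/
noncomputable def chkE (n : Nat) (D : List (List Nat)) (S : List Nat) (as : List Ax) (e : Ex) (bx : List Iv) : Bool :=
  fL (ann n D e).2 (fun d => fA (ann n D e).1 (fun x => fN (sN n S e) (fun S => chkB d S as x bx)))

/-- the polynomial tested in a leaf: `m goal - Σ lam_j hyp_j - k` -/
def leafE (goal : Ex) (m k : Nat) : List Ex → List Nat → Ex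
  | h :: hs, l :: ls =>
    if l = 0 then leafE goal m k hs ls else .sub (leafE goal m k hs ls) (.mul (.c l) h)
  | _, _ => if k = 0 then (if m = 1 then goal else .mul (.c m) goal) else .sub (.mul (.c m) goal) (.c k)

def Iv.lo (x : Iv) : Iv := ⟨x.a + x.a, x.a + x.b, x.q + x.q⟩
def Iv.hi (x : Iv) : Iv := ⟨x.a + x.b, x.b + x.b, x.q + x.q⟩

def md (f : Iv → Iv) : Nat → List Iv → List Iv
  | _, [] => []
  | 0, x :: l => f x :: l
  | i + 1, x :: l => x :: md f i l

noncomputable def chkT (n : Nat) (D : List (List Nat)) (S : List Nat) (as : List Ax) (goal : Ex) (hyps : List Ex)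
    (d : List Nat) (S1 : Nat) (x : Ax) (t : Tr) : List Iv → Bool :=
  @Tr.rec (fun _ => List Iv → Bool) (fun bx => chkB d S1 as x bx)
   (fun m k lam bx => and (Nat.ble 1 (Nat.add m k)) (chkE n D S as (leafE goal m k hyps lam) bx))
   (fun i _ _ f g bx => and (f (md Iv.lo i bx)) (g (md Iv.hi i bx))) t

/-- degrees of the variables (newest first), number of variables `n` -/
def un : Nat → List (List Nat)
  | 0 => []
  | n + 1 => (List.replicate n 0 ++ [1]) :: un n

/-- annotated program -/
noncomputable def pA : List Ex → Nat → List (List Nat) → List Ax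
  | [], _, _ => []
  | e :: es, n, D => (ann n D e).1 :: pA es (n + 1) ((ann n D e).2 :: D)
noncomputable def pD : List Ex → Nat → List (List Nat) → List (List Nat)
  | [], _, D => D
  | e :: es, n, D => pD es (n + 1) ((ann n D e).2 :: D)
noncomputable def pS : List Ex → Nat → List Nat → List Nat
  | [], _, S => S
  | e :: es, n, S => pS es (n + 1) (sN n S e :: S)

def okI : List Iv → Bool
  | [] => true
  | x :: l => decide (x.a < x.b) && decide (0 < x.q) && okI l

/-- the test -/
noncomputable def chk1 (n : Nat) (D : List (List Nat)) (S : List Nat) (as : List Ax) (goal : Ex) (hyps : List Ex)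
    (t : Tr) (bx : List Iv) : Bool :=
  fLL D (fun D => fL S (fun S => fLA as (fun as => fL (ann n D goal).2 (fun d => fN (sN n S goal) (fun S1 =>
    fA (ann n D goal).1 (fun x => chkT n D S as goal hyps d S1 x t bx))))))

noncomputable def chk (prog : List Ex) (goal : Ex) (hyps : List Ex) (t : Tr) (bx : List Iv) : Bool :=
  and (okI bx) (chk1 (bx.length + prog.length) (pD prog bx.length (un bx.length))
    (pS prog bx.length (List.replicate bx.length 1))
    (pA prog bx.length (un bx.length)) goal hyps t bx)

end Pool.Agent.FPX.BXE
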