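import Mathlib
import Pool.Agent.FPX.BXD
/-!
BXE (soundness of the box test of BXD.lean).
-/
namespace Pool.Agent.FPX.BXE
open MvPolynomial

/-! ## forcing -/
theorem gt_eq {α : Type} (z : α) (l : List α) (i : ℕ) : gt z l i = l.getD i z := by
  induction l generalizing i with
  | nil => simp [gt]
  | cons a l ih =>
    cases i with
    | zero => simp [gt]
    | succ i =>
      have : gt z (a :: l) (i + 1) = gt z l i := rfl
      rw [this, ih]; simp

theorem fN_eq {β : Type} (n : ℕ) (k : ℕ → β) : fN n k = k n := by cases n <;> rfl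
theorem fI_eq {β : Type} (x : ℤ) (k : ℤ → β) : fI x k = k x := by
  cases x with
  | ofNat n => exact fN_eq n (fun m => k (Int.ofNat m))
  | negSucc n => exact fN_eq n (fun m => k (Int.negSucc m))
theorem fL_eq {β : Type} (l : List ℕ) (k : List ℕ → β) : fL l k = k l := by
  induction l generalizing k with
  | nil => rfl
  | cons a l ih =>
    have : fL (a :: l) k = fN a (fun a => fL l (fun l => k (a :: l))) := rfl
    rw [this, fN_eq, ih]
theorem fLL_eq {β : Type} (l : List (List ℕ)) (k : List (List ℕ) → β) : fLL l k = k l := by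
  induction l generalizing k with
  | nil => rfl
  | cons a l ih =>
    have : fLL (a :: l) k = fL a (fun a => fLL l (fun l => k (a :: l))) := rfl
    rw [this, fL_eq, ih]
theorem fA_eq {β : Type} (a : Ax) (k : Ax → β) : fA a k = k a := by
  induction a generalizing k with
  | c n => exact fI_eq n (fun n => k (.c n))
  | v i =>
    have : fA (.v i) k = fN i (fun i => k (.v i)) := rfl
    rw [this, fN_eq]
  | add a b s t ha hb =>
    have : fA (.add a b s t) k =
      fA a (fun u => fA b (fun v => fL s (fun s => fL t (fun t => k (.add u v s t))))) := rfl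
    rw [this, ha, hb, fL_eq, fL_eq]
  | sub a b s t ha hb =>
    have : fA (.sub a b s t) k =
      fA a (fun u => fA b (fun v => fL s (fun s => fL t (fun t => k (.sub u v s t))))) := rfl
    rw [this, ha, hb, fL_eq, fL_eq]
  | mul a b ha hb =>
    have : fA (.mul a b) k = fA a (fun u => fA b (fun v => k (.mul u v))) := rfl
    rw [this, ha, hb]
  | pow a n ha =>
    have : fA (.pow a n) k = fA a (fun u => fN n (fun n => k (.pow u n))) := rfl
    rw [this, ha, fN_eq]
theorem fLA_eq {β : Type} (l : List Ax) (k : List Ax → β) : fLA l k = k l := by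
  induction l generalizing k with
  | nil => rfl
  | cons a l ih =>
    have : fLA (a :: l) k = fA a (fun a => fLA l (fun l => k (a :: l))) := rfl
    rw [this, fA_eq, ih]

/-! ## integer operations -/
theorem ng_eq (n : ℕ) : ng n = -(n : ℤ) := by
  cases n with
  | zero => rfl
  | succ n =>
    have : ng (n + 1) = Int.negSucc n := rfl
    rw [this, Int.negSucc_eq]; push_cast; ring
theorem sn_eq (m n : ℕ) : sn m n = (m : ℤ) - n := by
  unfold sn
  rcases h : Nat.sub n m with _ | k
  · have h' : n - m = 0 := h
    show (Int.ofNat (m - n)) = _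
    have : n ≤ m := by omega
    rw [Int.ofNat_eq_natCast, Nat.cast_sub this]
  · have h' : n - m = k + 1 := h
    show Int.negSucc k = _
    rw [Int.negSucc_eq]
    have : (n : ℤ) = m + (k + 1) := by
      have : n = m + (k + 1) := by omega
      exact_mod_cast this
    rw [this]; ring
theorem im_eq (a b : ℤ) : im a b = a * b := by
  cases a with
  | ofNat m =>
    cases b with
    | ofNat n => rfl
    | negSucc n =>
      have : im (Int.ofNat m) (Int.negSucc n) = ng (m * (n + 1)) := rfl
      rw [this, ng_eq, Int.negSucc_eq, Int.ofNat_eq_natCast]; push_cast; ring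
  | negSucc m =>
    cases b with
    | ofNat n =>
      have : im (Int.negSucc m) (Int.ofNat n) = ng ((m + 1) * n) := rfl
      rw [this, ng_eq, Int.negSucc_eq, Int.ofNat_eq_natCast]; push_cast; ring
    | negSucc n =>
      have : im (Int.negSucc m) (Int.negSucc n) = Int.ofNat ((m + 1) * (n + 1)) := rfl
      rw [this, Int.negSucc_eq, Int.negSucc_eq, Int.ofNat_eq_natCast]; push_cast; ring
theorem imn_eq (a : ℤ) (n : ℕ) : imn a n = a * (n : ℤ) := by
  cases a with
  | ofNat m => rfl
  | negSucc m =>
    have : imn (Int.negSucc m) n = ng ((m + 1) * n) := rfl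
    rw [this, ng_eq, Int.negSucc_eq]; push_cast; ring
theorem ia_eq (a b : ℤ) : ia a b = a + b := by
  cases a with
  | ofNat m =>
    cases b with
    | ofNat n => rfl
    | negSucc n =>
      have : ia (Int.ofNat m) (Int.negSucc n) = sn m (n + 1) := rfl
      rw [this, sn_eq, Int.negSucc_eq, Int.ofNat_eq_natCast]; push_cast; ring
  | negSucc m =>
    cases b with
    | ofNat n =>
      have : ia (Int.negSucc m) (Int.ofNat n) = sn n (m + 1) := rfl
      rw [this, sn_eq, Int.negSucc_eq, Int.ofNat_eq_natCast]; push_cast; ring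
    | negSucc n =>
      have : ia (Int.negSucc m) (Int.negSucc n) = Int.negSucc (m + (n + 1)) := rfl
      rw [this, Int.negSucc_eq, Int.negSucc_eq, Int.negSucc_eq]; push_cast; ring
theorem is_eq (a b : ℤ) : is a b = a - b := by
  cases a with
  | ofNat m =>
    cases b with
    | ofNat n =>
      have : is (Int.ofNat m) (Int.ofNat n) = sn m n := rfl
      rw [this, sn_eq]; rfl
    | negSucc n =>
      have : is (Int.ofNat m) (Int.negSucc n) = Int.ofNat (m + (n + 1)) := rfl
      rw [this, Int.negSucc_eq, Int.ofNat_eq_natCast, Int.ofNat_eq_natCast]; push_cast; ring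
  | negSucc m =>
    cases b with
    | ofNat n =>
      have : is (Int.negSucc m) (Int.ofNat n) = Int.negSucc (m + n) := rfl
      rw [this, Int.negSucc_eq, Int.negSucc_eq, Int.ofNat_eq_natCast]; push_cast; ring
    | negSucc n =>
      have : is (Int.negSucc m) (Int.negSucc n) = sn n m := rfl
      rw [this, sn_eq, Int.negSucc_eq, Int.negSucc_eq]; ring
theorem ipow_eq (a : ℤ) (n : ℕ) : ipow a n = a ^ n := by
  induction n with
  | zero =>
    have : ipow a 0 = 1 := rfl
    rw [this, pow_zero]
  | succ n ih =>
    have : ipow a (n + 1) = im (ipow a n) a := rfl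
    rw [this, im_eq, ih, pow_succ]

/-! ## generic evaluation -/
def qpG {R : Type*} [CommMonoid R] : List R → List ℕ → R
  | [], _ => 1
  | _ :: _, [] => 1
  | q :: Q, d :: s => q ^ d * qpG Q s

def hG {R : Type*} [CommRing R] (Q V : List R) : Ax → R
  | .c n => (n : R)
  | .v i => V.getD i 0
  | .add a b s t => hG Q V a * qpG Q s + hG Q V b * qpG Q t
  | .sub a b s t => hG Q V a * qpG Q s - hG Q V b * qpG Q t
  | .mul a b => hG Q V a * hG Q V b
  | .pow a n => hG Q V a ^ n

/-- value of an expression; `r` = values of the variables and registers -/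
def den {R : Type*} [CommRing R] (r : List R) : Ex → R
  | .c n => (n : R)
  | .v i => r.getD i 0
  | .add a b => den r a + den r b
  | .sub a b => den r a - den r b
  | .mul a b => den r a * den r b
  | .pow a n => den r a ^ n

/-- registers after running a program -/
def run {R : Type*} [CommRing R] : List R → List Ex → List R
  | r, [] => r
  | r, e :: es => run (r ++ [den r e]) es

theorem qpG_nil {R : Type*} [CommMonoid R] (Q : List R) : qpG Q [] = 1 := by cases Q <;> rfl

theorem qp_eq (Q s : List ℕ) : qp Q s = qpG Q s := by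
  induction Q generalizing s with
  | nil => rfl
  | cons q Q ih =>
    cases s with
    | nil => rfl
    | cons d s =>
      have : qp (q :: Q) (d :: s) = q ^ d * qp Q s := rfl
      rw [this, ih]; rfl

theorem map_qpG {R S : Type*} [CommMonoid R] [CommMonoid S] (f : R →* S) (Q : List R) (s : List ℕ) :
    f (qpG Q s) = qpG (Q.map f) s := by
  induction Q generalizing s with
  | nil => simp [qpG]
  | cons q Q ih =>
    cases s with
    | nil => simp [qpG]
    | cons d s => simp [qpG, ih]

theorem hq_eq (Q : List ℕ) (x : ℤ) (s : List ℕ) :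
    hq Q x s = x * qpG (Q.map (fun n : ℕ => (n : ℤ))) s := by
  cases s with
  | nil => rw [qpG_nil, mul_one]; rfl
  | cons d s =>
    have : hq Q x (d :: s) = imn x (qp Q (d :: s)) := rfl
    rw [this, imn_eq, qp_eq]
    congr 1
    exact map_qpG (Nat.castRingHom ℤ).toMonoidHom Q (d :: s)

theorem hI_eq (Q : List ℕ) (V : List ℤ) (a : Ax) :
    hI Q V a = hG (Q.map (fun n : ℕ => (n : ℤ))) V a := by
  induction a with
  | c n => simp [hI, hG]
  | v i =>
    have : hI Q V (.v i) = gt (Int.ofNat 0) V i := rfl
    rw [this, gt_eq]; rfl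
  | add a b s t ha hb =>
    have : hI Q V (.add a b s t) = ia (hq Q (hI Q V a) s) (hq Q (hI Q V b) t) := rfl
    rw [this, ia_eq, hq_eq, hq_eq, ha, hb]; rfl
  | sub a b s t ha hb =>
    have : hI Q V (.sub a b s t) = is (hq Q (hI Q V a) s) (hq Q (hI Q V b) t) := rfl
    rw [this, is_eq, hq_eq, hq_eq, ha, hb]; rfl
  | mul a b ha hb =>
    have : hI Q V (.mul a b) = im (hI Q V a) (hI Q V b) := rfl
    rw [this, im_eq, ha, hb]; rfl
  | pow a n ha =>
    have : hI Q V (.pow a n) = ipow (hI Q V a) n := rfl
    rw [this, ipow_eq, ha]; rfl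

theorem map_getD {R S : Type*} [CommRing R] [CommRing S] (f : R →+* S) (V : List R) (i : ℕ) :
    f (V.getD i 0) = (V.map f).getD i 0 := by
  simp only [List.getD_eq_getElem?_getD, List.getElem?_map]
  cases V[i]? <;> simp

theorem map_hG {R S : Type*} [CommRing R] [CommRing S] (f : R →+* S) (Q V : List R) (a : Ax) :
    f (hG Q V a) = hG (Q.map f) (V.map f) a := by
  have hq : ∀ s, f (qpG Q s) = qpG (Q.map f) s := fun s => map_qpG f.toMonoidHom Q s
  induction a with
  | c n => simp [hG]
  | v i => exact map_getD f V i
  | add a b s t ha hb => simp only [hG, map_add, map_mul, ha, hb, hq]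
  | sub a b s t ha hb => simp only [hG, map_sub, map_mul, ha, hb, hq]
  | mul a b ha hb => simp only [hG, map_mul, ha, hb]
  | pow a n ha => simp only [hG, map_pow, ha]

def runG {R : Type*} [CommRing R] (Q : List R) : List R → List Ax → List R
  | V, [] => V
  | V, a :: as => runG Q (hG Q V a :: V) as

theorem map_runG {R S : Type*} [CommRing R] [CommRing S] (f : R →+* S) (Q V : List R) (as : List Ax) :
    (runG Q V as).map f = runG (Q.map f) (V.map f) as := by
  induction as generalizing V with
  | nil => rfl
  | cons a as ih => simp only [runG, ih, List.map_cons, map_hG]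

theorem rI_eq {β : Type} (Q : List ℕ) (as : List Ax) (V : List ℤ) (k : List ℤ → β) :
    rI Q as V k = k (runG (Q.map (fun n : ℕ => (n : ℤ))) V as) := by
  induction as generalizing V with
  | nil => rfl
  | cons a as ih =>
    have : rI Q (a :: as) V k = fI (hI Q V a) (fun z => rI Q as (z :: V) k) := rfl
    rw [this, fI_eq, ih, hI_eq]; rfl

/-! ## degree lists -/
theorem dmx_getD (a b : List ℕ) (i : ℕ) : (dmx a b).getD i 0 = max (a.getD i 0) (b.getD i 0) := by
  induction a generalizing b i with
  | nil => simp [dmx]
  | cons x a ih =>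
    cases b with
    | nil => simp [dmx]
    | cons y b =>
      cases i with
      | zero => simp [dmx]; omega
      | succ i => simpa [dmx] using ih b i

theorem dad_getD (a b : List ℕ) (i : ℕ) : (dad a b).getD i 0 = a.getD i 0 + b.getD i 0 := by
  induction a generalizing b i with
  | nil => simp [dad]
  | cons x a ih =>
    cases b with
    | nil => simp [dad]
    | cons y b =>
      cases i with
      | zero => simp [dad]
      | succ i => simpa [dad] using ih b i

theorem dcn_getD (a : ℕ) (l : List ℕ) (i : ℕ) : (dcn a l).getD i 0 = (a :: l).getD i 0 := by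
  cases l with
  | nil =>
    unfold dcn
    split_ifs with h
    · subst h; cases i <;> simp
    · rfl
  | cons b l => rfl

theorem dsb_getD (a b : List ℕ) (i : ℕ) : (dsb a b).getD i 0 = a.getD i 0 - b.getD i 0 := by
  induction a generalizing b i with
  | nil => simp [dsb]
  | cons x a ih =>
    cases b with
    | nil => simp [dsb]
    | cons y b =>
      cases i with
      | zero =>
        have := dcn_getD (x - y) (dsb a b) 0
        simpa [dsb] using this
      | succ i =>
        have := ih b i
        simp only [dsb, dcn_getD]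
        simpa using this

theorem dsm_getD (n : ℕ) (a : List ℕ) (i : ℕ) : (dsm n a).getD i 0 = n * a.getD i 0 := by
  induction a generalizing i with
  | nil => simp [dsm]
  | cons x a ih =>
    cases i with
    | zero => simp [dsm]
    | succ i => simpa [dsm] using ih i

theorem qpG_congr {R : Type*} [CommMonoid R] (Q : List R) (a b : List ℕ)
    (h : ∀ i, a.getD i 0 = b.getD i 0) : qpG Q a = qpG Q b := by
  induction Q generalizing a b with
  | nil => rfl
  | cons q Q ih =>
    cases a with
    | nil =>
      cases b with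
      | nil => rfl
      | cons y b =>
        have h0 := h 0
        simp at h0
        have h1 : qpG Q [] = qpG Q b := ih [] b (fun i => by simpa using h (i + 1))
        rw [qpG_nil] at h1
        simp [qpG, ← h0, ← h1]
    | cons x a =>
      cases b with
      | nil =>
        have h0 := h 0
        simp at h0
        have h1 : qpG Q a = qpG Q [] := ih a [] (fun i => by simpa using h (i + 1))
        rw [qpG_nil] at h1
        simp [qpG, h0, h1]
      | cons y b =>
        have h0 := h 0
        simp at h0
        have h1 : qpG Q a = qpG Q b := ih a b (fun i => by simpa using h (i + 1))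
        simp [qpG, h0, h1]

theorem qpG_dad {R : Type*} [CommMonoid R] (Q : List R) (a b : List ℕ) :
    qpG Q (dad a b) = qpG Q a * qpG Q b := by
  induction Q generalizing a b with
  | nil => simp [qpG]
  | cons q Q ih =>
    cases a with
    | nil => simp [dad, qpG]
    | cons x a =>
      cases b with
      | nil => simp [dad, qpG]
      | cons y b =>
        simp only [dad, qpG, ih, pow_add]
        exact mul_mul_mul_comm _ _ _ _

theorem qpG_dsm {R : Type*} [CommMonoid R] (Q : List R) (n : ℕ) (a : List ℕ) :
    qpG Q (dsm n a) = qpG Q a ^ n := by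
  induction Q generalizing a with
  | nil => simp [qpG]
  | cons q Q ih =>
    cases a with
    | nil => simp [dsm, qpG]
    | cons x a =>
      simp only [dsm, qpG, ih, mul_pow, ← pow_mul]
      rw [mul_comm n x]

theorem qpG_split {R : Type*} [CommMonoid R] (Q : List R) (d a : List ℕ)
    (h : ∀ i, a.getD i 0 ≤ d.getD i 0) : qpG Q a * qpG Q (dsb d a) = qpG Q d := by
  rw [← qpG_dad]
  apply qpG_congr
  intro i
  rw [dad_getD, dsb_getD]
  have := h i
  omega


/-! ## majorants -/
abbrev MP := MvPolynomial ℕ ℤ

def Maj (F : MP) (N : ℕ) : Prop :=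
  ∃ G : MP, (∀ m, |F.coeff m| ≤ G.coeff m) ∧ eval (fun _ => (1 : ℤ)) G ≤ N

theorem Maj.mono {F : MP} {N N' : ℕ} (h : Maj F N) (hN : N ≤ N') : Maj F N' := by
  obtain ⟨G, h1, h2⟩ := h
  exact ⟨G, h1, h2.trans (by exact_mod_cast hN)⟩

theorem Maj.add {F F' : MP} {N N' : ℕ} (h : Maj F N) (h' : Maj F' N') : Maj (F + F') (N + N') := by
  obtain ⟨G, h1, h2⟩ := h
  obtain ⟨G', h1', h2'⟩ := h'
  refine ⟨G + G', fun m => ?_, ?_⟩
  · rw [coeff_add, coeff_add]
    exact (abs_add_le _ _).trans (add_le_add (h1 m) (h1' m))
  · rw [map_add]; push_cast; exact add_le_add h2 h2'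

theorem Maj.sub {F F' : MP} {N N' : ℕ} (h : Maj F N) (h' : Maj F' N') : Maj (F - F') (N + N') := by
  obtain ⟨G, h1, h2⟩ := h
  obtain ⟨G', h1', h2'⟩ := h'
  refine ⟨G + G', fun m => ?_, ?_⟩
  · rw [coeff_sub, coeff_add]
    exact (abs_sub _ _).trans (add_le_add (h1 m) (h1' m))
  · rw [map_add]; push_cast; exact add_le_add h2 h2'

theorem eval_one_nonneg {G : MP} (h : ∀ m, 0 ≤ G.coeff m) : 0 ≤ eval (fun _ => (1 : ℤ)) G := by
  rw [eval_eq]
  exact Finset.sum_nonneg fun m _ => by simpa using h m

theorem coeff_le_eval {G : MP} (h : ∀ m, 0 ≤ G.coeff m) (m : ℕ →₀ ℕ) :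
    G.coeff m ≤ eval (fun _ => (1 : ℤ)) G := by
  rw [eval_eq]
  simp only [one_pow, Finset.prod_const_one, mul_one]
  by_cases hm : m ∈ G.support
  · exact Finset.single_le_sum (f := fun m => G.coeff m) (fun i _ => h i) hm
  · rw [notMem_support_iff.1 hm]
    exact Finset.sum_nonneg fun i _ => h i

theorem Maj.mul {F F' : MP} {N N' : ℕ} (h : Maj F N) (h' : Maj F' N') : Maj (F * F') (N * N') := by
  obtain ⟨G, h1, h2⟩ := h
  obtain ⟨G', h1', h2'⟩ := h'
  have g0 : ∀ m, 0 ≤ G.coeff m := fun m => (abs_nonneg _).trans (h1 m)
  have g0' : ∀ m, 0 ≤ G'.coeff m := fun m => (abs_nonneg _).trans (h1' m)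
  refine ⟨G * G', fun m => ?_, ?_⟩
  · rw [coeff_mul, coeff_mul]
    refine (Finset.abs_sum_le_sum_abs _ _).trans (Finset.sum_le_sum fun x _ => ?_)
    rw [abs_mul]
    exact mul_le_mul (h1 _) (h1' _) (abs_nonneg _) (g0 _)
  · rw [map_mul]; push_cast
    exact mul_le_mul h2 h2' (eval_one_nonneg g0') (by positivity)

theorem Maj.c (n : ℤ) : Maj (n : MP) n.natAbs := by
  refine ⟨((|n| : ℤ) : MP), fun m => ?_, ?_⟩
  · have e : ∀ z : ℤ, ((z : MP)).coeff m = if 0 = m then z else 0 := fun z => by
      have : (z : MP) = C z := by simp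
      rw [this, coeff_C]
    rw [e, e]
    split_ifs <;> simp
  · simp

theorem Maj.pow {F : MP} {N : ℕ} (h : Maj F N) (n : ℕ) : Maj (F ^ n) (N ^ n) := by
  induction n with
  | zero => simpa using Maj.c 1
  | succ n ih => rw [pow_succ, pow_succ]; exact ih.mul h

theorem Maj.coeff {F : MP} {N : ℕ} (h : Maj F N) (m : ℕ →₀ ℕ) : |F.coeff m| ≤ N := by
  obtain ⟨G, h1, h2⟩ := h
  exact ((h1 m).trans (coeff_le_eval (fun m => (abs_nonneg _).trans (h1 m)) m)).trans h2

theorem Maj.X (j : ℕ) : Maj (X j : MP) 1 := by
  refine ⟨MvPolynomial.X j, fun m => ?_, ?_⟩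
  · rw [coeff_X]; split_ifs <;> simp
  · simp

/-! ## relation between the levels -/
structure Rel (Q : List MP) (M : List ℕ) (ft : MP →+* ℝ) (d : List ℕ) (s : ℕ) (F : MP) (x : ℝ) : Prop where
  deg : ∀ i, F.degreeOf i ≤ d.getD i 0
  maj : Maj F (s * qpG M d)
  val : ft F = qpG (Q.map ft) d * x

structure CtxOK (Q : List MP) (M : List ℕ) : Prop where
  degQ : ∀ s i, (qpG Q s).degreeOf i ≤ s.getD i 0
  majQ : ∀ s, Maj (qpG Q s) (qpG M s)

section
variable {Q : List MP} {M : List ℕ} {ft : MP →+* ℝ}

theorem Rel.c (Q : List MP) (M : List ℕ) (ft : MP →+* ℝ) (n : ℤ) : Rel Q M ft [] n.natAbs (n : MP) (n : ℝ) where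
  deg i := by
    have : (n : MP) = C n := by simp
    rw [this, degreeOf_C]; simp
  maj := by rw [qpG_nil, mul_one]; exact Maj.c n
  val := by rw [qpG_nil, one_mul, map_intCast]

theorem map_qp (ft : MP →+* ℝ) (Q : List MP) (s : List ℕ) : ft (qpG Q s) = qpG (Q.map ft) s :=
  map_qpG ft.toMonoidHom Q s

theorem Rel.scale (hC : CtxOK Q M) {d d' : List ℕ} {s : ℕ} {F : MP} {x : ℝ} (h : Rel Q M ft d s F x)
    (hd : ∀ i, d.getD i 0 ≤ d'.getD i 0) : Rel Q M ft d' s (F * qpG Q (dsb d' d)) x where
  deg i := by
    refine (degreeOf_mul_le i _ _).trans ?_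
    have h1 := h.deg i
    have h2 := hC.degQ (dsb d' d) i
    have h3 := hd i
    rw [dsb_getD] at h2
    omega
  maj := by
    have := h.maj.mul (hC.majQ (dsb d' d))
    rwa [mul_assoc, qpG_split M d' d hd] at this
  val := by
    rw [map_mul, h.val, map_qp, ← qpG_split (Q.map ft) d' d hd]; ring

theorem Rel.add {d : List ℕ} {s s' : ℕ} {F F' : MP} {x x' : ℝ} (h : Rel Q M ft d s F x)
    (h' : Rel Q M ft d s' F' x') : Rel Q M ft d (s + s') (F + F') (x + x') where
  deg i := (degreeOf_add_le i _ _).trans (max_le (h.deg i) (h'.deg i))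
  maj := by rw [add_mul]; exact h.maj.add h'.maj
  val := by rw [map_add, h.val, h'.val]; ring

theorem Rel.sub {d : List ℕ} {s s' : ℕ} {F F' : MP} {x x' : ℝ} (h : Rel Q M ft d s F x)
    (h' : Rel Q M ft d s' F' x') : Rel Q M ft d (s + s') (F - F') (x - x') where
  deg i := (degreeOf_sub_le i _ _).trans (max_le (h.deg i) (h'.deg i))
  maj := by rw [add_mul]; exact h.maj.sub h'.maj
  val := by rw [map_sub, h.val, h'.val]; ring

theorem Rel.mul {d d' : List ℕ} {s s' : ℕ} {F F' : MP} {x x' : ℝ} (h : Rel Q M ft d s F x)
    (h' : Rel Q M ft d' s' F' x') : Rel Q M ft (dad d d') (s * s') (F * F') (x * x') where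
  deg i := by
    refine (degreeOf_mul_le i _ _).trans ?_
    rw [dad_getD]
    exact add_le_add (h.deg i) (h'.deg i)
  maj := by
    rw [qpG_dad, mul_mul_mul_comm]
    exact h.maj.mul h'.maj
  val := by rw [map_mul, h.val, h'.val, qpG_dad]; ring

theorem Rel.pow {d : List ℕ} {s : ℕ} {F : MP} {x : ℝ} (h : Rel Q M ft d s F x) (n : ℕ) :
    Rel Q M ft (dsm n d) (s ^ n) (F ^ n) (x ^ n) where
  deg i := by
    refine (degreeOf_pow_le i _ _).trans ?_
    rw [dsm_getD]
    exact Nat.mul_le_mul_left _ (h.deg i)
  maj := by
    rw [qpG_dsm, ← mul_pow]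
    exact h.maj.pow n
  val := by rw [map_pow, h.val, qpG_dsm]; ring

/-- environment, newest first -/
structure Env (Q : List MP) (M : List ℕ) (ft : MP →+* ℝ) (D : List (List ℕ)) (S : List ℕ) (F : List MP)
    (r : List ℝ) : Prop where
  lS : S.length = D.length
  lF : F.length = D.length
  lr : r.length = D.length
  rel : ∀ j < D.length, Rel Q M ft (D.getD j []) (S.getD j 0) (F.getD j 0) (r.getD j 0)

theorem Env.cons {D : List (List ℕ)} {S : List ℕ} {F : List MP} {r : List ℝ} (h : Env Q M ft D S F r)
    {d : List ℕ} {s : ℕ} {G : MP} {x : ℝ} (h' : Rel Q M ft d s G x) :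
    Env Q M ft (d :: D) (s :: S) (G :: F) (x :: r) where
  lS := by simp [h.lS]
  lF := by simp [h.lF]
  lr := by simp [h.lr]
  rel j hj := by
    cases j with
    | zero => simpa using h'
    | succ j => simpa using h.rel j (by simpa using hj)

theorem getD_reverse' {α : Type*} (l : List α) (z : α) (j : ℕ) (hj : j < l.length) :
    l.reverse.getD j z = l.getD (l.length - 1 - j) z := by
  rw [List.getD_eq_getElem _ _ (by simpa using hj), List.getElem_reverse,
    List.getD_eq_getElem _ _ (by omega)]

theorem Env.main (hC : CtxOK Q M) {D : List (List ℕ)} {S : List ℕ} {F : List MP} {r : List ℝ}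
    (h : Env Q M ft D S F r) (e : Ex) :
    Rel Q M ft (ann D.length D e).2 (sN D.length S e) (hG Q F (ann D.length D e).1) (den r.reverse e) := by
  induction e with
  | c n => exact Rel.c Q M ft n
  | v i =>
    have e1 : ann D.length D (.v i) = cond (Nat.ble D.length i) (.c 0, [])
      (.v (D.length - (i + 1)), gt [] D (D.length - (i + 1))) := rfl
    have e2 : sN D.length S (.v i) = cond (Nat.ble D.length i) 0 (gt 0 S (D.length - (i + 1))) := rfl
    rw [e1, e2, gt_eq, gt_eq]
    by_cases hi : D.length ≤ i
    · have hb : Nat.ble D.length i = true := by rw [Nat.ble_eq]; exact hi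
      rw [hb]
      have h0 : den r.reverse (.v i) = ((0 : ℤ) : ℝ) := by
        simp only [den]
        rw [List.getD_eq_default _ _ (by simpa [h.lr] using hi)]
        simp
      rw [h0]
      exact Rel.c Q M ft 0
    · have hb : Nat.ble D.length i = false := by
        rw [Bool.eq_false_iff]; intro hh; rw [Nat.ble_eq] at hh; exact hi hh
      rw [hb]
      have hi' : i < D.length := by omega
      have h0 : den r.reverse (.v i) = r.getD (D.length - (i + 1)) 0 := by
        simp only [den]
        rw [getD_reverse' r 0 i (by rw [h.lr]; exact hi'), h.lr]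
        congr 1; omega
      rw [h0]
      exact h.rel _ (by omega)
  | add a b ha hb =>
    have h1 := ha.scale hC (d' := dmx (ann D.length D a).2 (ann D.length D b).2)
      (fun i => by rw [dmx_getD]; exact le_max_left _ _)
    have h2 := hb.scale hC (d' := dmx (ann D.length D a).2 (ann D.length D b).2)
      (fun i => by rw [dmx_getD]; exact le_max_right _ _)
    exact h1.add h2
  | sub a b ha hb =>
    have h1 := ha.scale hC (d' := dmx (ann D.length D a).2 (ann D.length D b).2)
      (fun i => by rw [dmx_getD]; exact le_max_left _ _)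
    have h2 := hb.scale hC (d' := dmx (ann D.length D a).2 (ann D.length D b).2)
      (fun i => by rw [dmx_getD]; exact le_max_right _ _)
    exact h1.sub h2
  | mul a b ha hb => exact ha.mul hb
  | pow a n ha => exact ha.pow n

theorem Env.run (hC : CtxOK Q M) (es : List Ex) {D : List (List ℕ)} {S : List ℕ} {F : List MP} {r : List ℝ}
    (h : Env Q M ft D S F r.reverse) :
    Env Q M ft (pD es D.length D) (pS es D.length S) (runG Q F (pA es D.length D)) (run r es).reverse := by
  induction es generalizing D S F r with
  | nil => exact h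
  | cons e es ih =>
    have h1 := h.cons (h.main hC e)
    rw [List.reverse_reverse] at h1
    have h2 : den r e :: r.reverse = (r ++ [den r e]).reverse := by simp
    rw [h2] at h1
    have h3 := ih h1
    simpa only [pD, pS, pA, runG, BXE.run, List.length_cons] using h3

theorem pD_length (es : List Ex) (n : ℕ) (D : List (List ℕ)) : (pD es n D).length = D.length + es.length := by
  induction es generalizing n D with
  | nil => simp [pD]
  | cons e es ih => simp only [pD, ih, List.length_cons]; omega

end

/-! ## base environment -/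
def dI : Iv := ⟨0, 1, 1⟩

noncomputable def vF : List Iv → ℕ → List MP
  | [], _ => []
  | x :: l, j => (C x.a + C x.b * X j) :: vF l (j + 1)

noncomputable def qF : List Iv → ℕ → List MP
  | [], _ => []
  | x :: l, j => (C (x.q : ℤ) * (1 + X j)) :: qF l (j + 1)

theorem vF_length (l : List Iv) (j : ℕ) : (vF l j).length = l.length := by
  induction l generalizing j with
  | nil => rfl
  | cons x l ih => simp [vF, ih]

theorem vF_getD (l : List Iv) (j i : ℕ) (hi : i < l.length) :
    (vF l j).getD i 0 = C (l.getD i dI).a + C (l.getD i dI).b * X (j + i) := by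
  induction l generalizing j i with
  | nil => simp at hi
  | cons x l ih =>
    cases i with
    | zero => simp [vF]
    | succ i =>
      have := ih (j + 1) i (by simpa using hi)
      simp only [vF, List.getD_cons_succ, this]
      rw [show j + 1 + i = j + (i + 1) by omega]

theorem qF_getD (l : List Iv) (j i : ℕ) (hi : i < l.length) :
    (qF l j).getD i 1 = C ((l.getD i dI).q : ℤ) * (1 + X (j + i)) := by
  induction l generalizing j i with
  | nil => simp at hi
  | cons x l ih =>
    cases i with
    | zero => simp [qF]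
    | succ i =>
      have := ih (j + 1) i (by simpa using hi)
      simp only [qF, List.getD_cons_succ, this]
      rw [show j + 1 + i = j + (i + 1) by omega]

theorem nM_cons (x : Iv) (l : List Iv) :
    nM (x :: l) = nmax (x.a.natAbs + x.b.natAbs) (2 * x.q) :: nM l := rfl

theorem nmax_eq (a b : ℕ) : nmax a b = max a b := by
  show a + (b - a) = max a b
  omega

theorem nM_getD (l : List Iv) (i : ℕ) (hi : i < l.length) :
    (nM l).getD i 1 = max ((l.getD i dI).a.natAbs + (l.getD i dI).b.natAbs) (2 * (l.getD i dI).q) := by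
  induction l generalizing i with
  | nil => simp at hi
  | cons x l ih =>
    cases i with
    | zero => simp [nM_cons, nmax_eq]
    | succ i => simpa [nM_cons] using ih i (by simpa using hi)

theorem ctx_deg (l : List Iv) (j : ℕ) (s : List ℕ) (i : ℕ) :
    (qpG (qF l j) s).degreeOf i ≤ if i < j then 0 else s.getD (i - j) 0 := by
  induction l generalizing j s with
  | nil =>
    have : qpG (qF [] j) s = (1 : MP) := rfl
    rw [this, show (1 : MP) = C 1 by simp, degreeOf_C]; exact Nat.zero_le _
  | cons x l ih =>
    cases s with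
    | nil =>
      have : qpG (qF (x :: l) j) [] = (1 : MP) := rfl
      rw [this, show (1 : MP) = C 1 by simp, degreeOf_C]; exact Nat.zero_le _
    | cons d s =>
      have e : qpG (qF (x :: l) j) (d :: s) = (C (x.q : ℤ) * (1 + X j)) ^ d * qpG (qF l (j + 1)) s := rfl
      rw [e]
      refine (degreeOf_mul_le i _ _).trans ?_
      have h1 := ih (j + 1) s
      have h2 : (C (x.q : ℤ) * (1 + X j) : MP).degreeOf i ≤ if i = j then 1 else 0 := by
        refine (degreeOf_mul_le i _ _).trans ?_
        rw [degreeOf_C, zero_add]
        refine (degreeOf_add_le i _ _).trans ?_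
        rw [show (1 : MP) = C 1 by simp, degreeOf_C, degreeOf_X]
        split_ifs <;> simp_all
      have h3 : ((C (x.q : ℤ) * (1 + X j) : MP) ^ d).degreeOf i ≤ if i = j then d else 0 := by
        refine (degreeOf_pow_le i _ _).trans ?_
        refine (Nat.mul_le_mul_left d h2).trans ?_
        split_ifs <;> simp
      refine (add_le_add h3 h1).trans ?_
      rcases lt_trichotomy i j with h | h | h
      · simp [h, h.ne, show i < j + 1 by omega]
      · subst h; simp
      · have e1 : ¬ i < j := by omega
        have e2 : ¬ i < j + 1 := by omega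
        have e3 : i ≠ j := by omega
        obtain ⟨k, rfl⟩ : ∃ k, i = j + 1 + k := ⟨i - (j + 1), by omega⟩
        simp only [e1, e2, e3, if_false, zero_add]
        rw [show j + 1 + k - (j + 1) = k by omega, show j + 1 + k - j = k + 1 by omega]
        simp

theorem ctx_maj (l : List Iv) (j : ℕ) (s : List ℕ) : Maj (qpG (qF l j) s) (qpG (nM l) s) := by
  induction l generalizing j s with
  | nil =>
    have : qpG (qF [] j) s = (1 : MP) := rfl
    rw [this]
    have e : qpG (nM []) s = 1 := rfl
    rw [e]; simpa using Maj.c 1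
  | cons x l ih =>
    cases s with
    | nil =>
      have : qpG (qF (x :: l) j) [] = (1 : MP) := rfl
      rw [this, qpG_nil]; simpa using Maj.c 1
    | cons d s =>
      have e : qpG (qF (x :: l) j) (d :: s) = (C (x.q : ℤ) * (1 + X j)) ^ d * qpG (qF l (j + 1)) s := rfl
      rw [e, nM_cons]
      refine Maj.mul (Maj.pow ?_ d) (ih (j + 1) s)
      have h1 : Maj (C (x.q : ℤ) : MP) x.q := by simpa using Maj.c (x.q : ℤ)
      have h2 : Maj (1 + X j : MP) (1 + 1) := Maj.add (by simpa using Maj.c 1) (Maj.X j)
      refine (h1.mul h2).mono ?_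
      rw [nmax_eq]
      have : x.q * (1 + 1) = 2 * x.q := by ring
      rw [this]
      exact le_max_right _ _

theorem ctx_ok (l : List Iv) : CtxOK (qF l 0) (nM l) where
  degQ s i := by simpa using ctx_deg l 0 s i
  majQ s := ctx_maj l 0 s

theorem qpG_unit {R : Type*} [CommMonoid R] (Q : List R) (j : ℕ) :
    qpG Q (List.replicate j 0 ++ [1]) = Q.getD j 1 := by
  induction j generalizing Q with
  | zero => cases Q <;> simp [qpG, qpG_nil]
  | succ j ih =>
    cases Q with
    | nil => simp [qpG]
    | cons q Q =>
      have : List.replicate (j + 1) 0 ++ [1] = 0 :: (List.replicate j 0 ++ [1]) := by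
        simp [List.replicate_succ]
      rw [this]
      simp only [qpG, pow_zero, one_mul, ih, List.getD_cons_succ]

theorem unit_getD (j i : ℕ) : (List.replicate j 0 ++ [1]).getD i 0 = if i = j then 1 else 0 := by
  induction j generalizing i with
  | zero => cases i <;> simp
  | succ j ih =>
    have : List.replicate (j + 1) 0 ++ [1] = 0 :: (List.replicate j 0 ++ [1]) := by
      simp [List.replicate_succ]
    rw [this]
    cases i with
    | zero => simp
    | succ i =>
      rw [List.getD_cons_succ, ih]; simp

theorem un_getD (n j : ℕ) (hj : j < n) : (un n).getD j [] = List.replicate (n - 1 - j) 0 ++ [1] := by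
  induction n generalizing j with
  | zero => omega
  | succ n ih =>
    cases j with
    | zero => simp [un]
    | succ j =>
      have := ih j (by omega)
      simp only [un, List.getD_cons_succ, this]
      congr 2; omega

theorem un_length (n : ℕ) : (un n).length = n := by
  induction n with
  | zero => rfl
  | succ n ih => simp [un, ih]

/-- the base environment: `t` parameters with `a + b t = q (1 + t) x` -/
theorem base_env (l : List Iv) (t : ℕ → ℝ) (x : List ℝ) (hx : x.length = l.length)
    (h : ∀ i < l.length, ((l.getD i dI).a : ℝ) + (l.getD i dI).b * t i =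
      (l.getD i dI).q * (1 + t i) * x.getD i 0) :
    Env (qF l 0) (nM l) (eval₂Hom (Int.castRingHom ℝ) t) (un l.length) (List.replicate l.length 1)
      (vF l 0).reverse x.reverse where
  lS := by simp [un_length]
  lF := by simp [un_length, vF_length]
  lr := by simp [un_length, hx]
  rel j hj := by
    rw [un_length] at hj
    set k := l.length with hk
    have hi : k - 1 - j < k := by omega
    rw [un_getD k j hj]
    have e1 : (List.replicate k 1).getD j 0 = 1 := by
      rw [List.getD_eq_getElem _ _ (by simpa using hj)]; simp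
    have e2 : (vF l 0).reverse.getD j 0 = C (l.getD (k - 1 - j) dI).a + C (l.getD (k - 1 - j) dI).b *
        X (k - 1 - j) := by
      rw [getD_reverse' _ _ _ (by rw [vF_length]; exact hj), vF_length, ← hk,
        vF_getD l 0 (k - 1 - j) hi]
      simp
    have e3 : x.reverse.getD j 0 = x.getD (k - 1 - j) 0 := by
      rw [getD_reverse' _ _ _ (by rw [hx]; exact hj), hx]
    rw [e1, e2, e3]
    set i := k - 1 - j with hi'
    refine ⟨fun i' => ?_, ?_, ?_⟩
    · rw [unit_getD]
      refine (degreeOf_add_le i' _ _).trans (max_le ?_ ?_)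
      · rw [degreeOf_C]; exact Nat.zero_le _
      · refine (degreeOf_mul_le i' _ _).trans ?_
        rw [degreeOf_C, zero_add, degreeOf_X]
    · rw [qpG_unit, nM_getD l i hi, one_mul]
      have h1 : Maj (C (l.getD i dI).a : MP) (l.getD i dI).a.natAbs := by
        simpa using Maj.c (l.getD i dI).a
      have h2 : Maj (C (l.getD i dI).b : MP) (l.getD i dI).b.natAbs := by
        simpa using Maj.c (l.getD i dI).b
      refine (h1.add (h2.mul (Maj.X i))).mono ?_
      rw [mul_one]
      exact le_max_left _ _
    · rw [qpG_unit]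
      have e4 : ((qF l 0).map (eval₂Hom (Int.castRingHom ℝ) t)).getD i 1 =
          eval₂Hom (Int.castRingHom ℝ) t ((qF l 0).getD i 1) := by
        simp only [List.getD_eq_getElem?_getD, List.getElem?_map]
        cases (qF l 0)[i]? <;> simp
      rw [e4, qF_getD l 0 i hi]
      have := h i hi
      simp only [zero_add, coe_eval₂Hom, eval₂_add, eval₂_mul, eval₂_C, eval₂_X, eval₂_one,
        Int.coe_castRingHom, Int.cast_natCast]
      exact this


/-! ## numerical side -/
def zA : List ℕ → List Iv → ℕ → List ℤ
  | n :: ns, x :: l, w => (x.a + x.b * 2 ^ w) :: zA ns l (w * n)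
  | _, _, _ => []
def zQ : List ℕ → List Iv → ℕ → List ℕ
  | n :: ns, x :: l, w => (x.q * (1 + 2 ^ w)) :: zQ ns l (w * n)
  | _, _, _ => []

theorem lA_eq {β : Type} (ns : List ℕ) (l : List Iv) (w : ℕ) (V : List ℤ) (k : List ℤ → β) :
    lA ns l w V k = k ((zA ns l w).reverse ++ V) := by
  induction ns generalizing l w V with
  | nil => simp [zA]; rfl
  | cons n ns ih =>
    cases l with
    | nil => simp [zA]; rfl
    | cons x l =>
      have : lA (n :: ns) (x :: l) w V k =
        fI (ia x.a (imn x.b (2 ^ w))) (fun z => lA ns l (w * n) (z :: V) k) := rfl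
      rw [this, fI_eq, ih, ia_eq, imn_eq]
      simp [zA]

theorem lQ_eq {β : Type} (ns : List ℕ) (l : List Iv) (w : ℕ) (k : List ℕ → β) :
    lQ ns l w k = k (zQ ns l w) := by
  induction ns generalizing l w k with
  | nil => rfl
  | cons n ns ih =>
    cases l with
    | nil => rfl
    | cons x l =>
      have : lQ (n :: ns) (x :: l) w k =
        fN (x.q * (1 + 2 ^ w)) (fun z => lQ ns l (w * n) (fun Q => k (z :: Q))) := rfl
      rw [this, fN_eq, ih]
      rfl

theorem zQ_eq (ns : List ℕ) (l : List Iv) (w j : ℕ) (P : ℕ → ℤ) (hl : ns.length = l.length)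
    (hP : ∀ i < ns.length, P (j + i) = 2 ^ (w * (ns.take i).prod)) :
    (zQ ns l w).map (fun n : ℕ => (n : ℤ)) = (qF l j).map (eval P) := by
  induction ns generalizing l w j with
  | nil =>
    cases l with
    | nil => rfl
    | cons x l => simp at hl
  | cons n ns ih =>
    cases l with
    | nil => simp at hl
    | cons x l =>
      have h0 := hP 0 (by simp)
      simp only [add_zero, List.take_zero, List.prod_nil, mul_one] at h0
      have h1 := ih l (w * n) (j + 1) (by simpa using hl) (fun i hi => by
        have := hP (i + 1) (by simpa using hi)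
        rw [show j + 1 + i = j + (i + 1) by omega, this]
        simp only [List.take_succ_cons, List.prod_cons]
        congr 1; ring)
      simp only [zQ, qF, List.map_cons, h1]
      congr 1
      simp [h0]

theorem zA_eq (ns : List ℕ) (l : List Iv) (w j : ℕ) (P : ℕ → ℤ) (hl : ns.length = l.length)
    (hP : ∀ i < ns.length, P (j + i) = 2 ^ (w * (ns.take i).prod)) :
    zA ns l w = (vF l j).map (eval P) := by
  induction ns generalizing l w j with
  | nil =>
    cases l with
    | nil => rfl
    | cons x l => simp at hl
  | cons n ns ih =>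
    cases l with
    | nil => simp at hl
    | cons x l =>
      have h0 := hP 0 (by simp)
      simp only [add_zero, List.take_zero, List.prod_nil, mul_one] at h0
      have h1 := ih l (w * n) (j + 1) (by simpa using hl) (fun i hi => by
        have := hP (i + 1) (by simpa using hi)
        rw [show j + 1 + i = j + (i + 1) by omega, this]
        simp only [List.take_succ_cons, List.prod_cons]
        congr 1; ring)
      simp only [zA, vF, List.map_cons, h1]
      congr 1
      simp [h0]

theorem mkns_length (l : List Iv) (d : List ℕ) : (mkns l d).length = l.length := by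
  induction l generalizing d with
  | nil => rfl
  | cons x l ih => cases d <;> simp [mkns, ih]

theorem mkns_getD (l : List Iv) (d : List ℕ) (i : ℕ) (hi : i < l.length) :
    (mkns l d).getD i 0 = d.getD i 0 + 1 := by
  induction l generalizing d i with
  | nil => simp at hi
  | cons x l ih =>
    cases d with
    | nil =>
      cases i with
      | zero => simp [mkns]
      | succ i =>
        have := ih [] i (by simpa using hi)
        simpa [mkns] using this
    | cons y d =>
      cases i with
      | zero => simp [mkns]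
      | succ i =>
        have := ih d i (by simpa using hi)
        simpa [mkns] using this

theorem prN_eq (l : List ℕ) : prN l = l.prod := by
  induction l with
  | nil => rfl
  | cons n l ih => simp [prN, ih]

/-- mixed radix position -/
def pos : List ℕ → (ℕ → ℕ) → ℕ
  | [], _ => 0
  | n :: ns, f => f 0 + n * pos ns (fun i => f (i + 1))

theorem pos_lt (ns : List ℕ) (f : ℕ → ℕ) (h : ∀ i < ns.length, f i < ns.getD i 0) : pos ns f < ns.prod := by
  induction ns generalizing f with
  | nil => simp [pos]
  | cons n ns ih =>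
    have h0 : f 0 < n := by simpa using h 0 (by simp)
    have h1 := ih (fun i => f (i + 1)) (fun i hi => by simpa using h (i + 1) (by simpa using hi))
    simp only [pos, List.prod_cons]
    calc f 0 + n * pos ns (fun i => f (i + 1)) < n + n * pos ns (fun i => f (i + 1)) := by omega
      _ = n * (pos ns (fun i => f (i + 1)) + 1) := by ring
      _ ≤ n * ns.prod := Nat.mul_le_mul_left _ h1

theorem pos_inj (ns : List ℕ) (f g : ℕ → ℕ) (hf : ∀ i < ns.length, f i < ns.getD i 0)
    (hg : ∀ i < ns.length, g i < ns.getD i 0) (h : pos ns f = pos ns g) : ∀ i < ns.length, f i = g i := by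
  induction ns generalizing f g with
  | nil => intro i hi; simp at hi
  | cons n ns ih =>
    have hf0 : f 0 < n := by simpa using hf 0 (by simp)
    have hg0 : g 0 < n := by simpa using hg 0 (by simp)
    simp only [pos] at h
    have e0 : f 0 = g 0 := by
      have := congrArg (· % n) h
      simpa [Nat.add_mul_mod_self_left, Nat.mod_eq_of_lt hf0, Nat.mod_eq_of_lt hg0] using this
    have e1 : pos ns (fun i => f (i + 1)) = pos ns (fun i => g (i + 1)) := by
      rw [e0] at h
      have := Nat.add_left_cancel h
      exact Nat.eq_of_mul_eq_mul_left (by omega) this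
    have h1 := ih (fun i => f (i + 1)) (fun i => g (i + 1))
      (fun i hi => by simpa using hf (i + 1) (by simpa using hi))
      (fun i hi => by simpa using hg (i + 1) (by simpa using hi)) e1
    intro i hi
    cases i with
    | zero => exact e0
    | succ i => exact h1 i (by simpa using hi)

theorem pos_pow (ns : List ℕ) (w : ℕ) (f : ℕ → ℕ) :
    ∏ i ∈ Finset.range ns.length, ((2 : ℤ) ^ (w * (ns.take i).prod)) ^ f i = (2 ^ w) ^ pos ns f := by
  induction ns generalizing w f with
  | nil => simp [pos]
  | cons n ns ih =>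
    rw [List.length_cons, Finset.prod_range_succ']
    have h1 := ih (w * n) (fun i => f (i + 1))
    have h2 : ∏ i ∈ Finset.range ns.length, ((2 : ℤ) ^ (w * (List.take (i + 1) (n :: ns)).prod)) ^ f (i + 1) =
        ∏ i ∈ Finset.range ns.length, ((2 : ℤ) ^ (w * n * (ns.take i).prod)) ^ f (i + 1) := by
      apply Finset.prod_congr rfl
      intro i _
      simp only [List.take_succ_cons, List.prod_cons]
      congr 2; ring
    rw [h2, h1]
    simp only [List.take_zero, List.prod_nil, mul_one, pos]
    rw [← pow_mul, ← pow_mul, ← pow_mul, ← pow_add]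
    congr 1; ring

theorem land_digits (w : ℕ) (hw : 1 ≤ w) (n : ℕ) (D : ℕ → ℕ) (hD : ∀ p < n, D p < 2 ^ w)
    (h : (∑ p ∈ Finset.range n, D p * (2 ^ w) ^ p) &&& (∑ p ∈ Finset.range n, 2 ^ (w - 1) * (2 ^ w) ^ p) =
      ∑ p ∈ Finset.range n, 2 ^ (w - 1) * (2 ^ w) ^ p) : ∀ p < n, 2 ^ (w - 1) ≤ D p := by
  induction n generalizing D with
  | zero => intro p hp; omega
  | succ n ih =>
    have hB : 0 < 2 ^ w := by positivity
    have hlt : 2 ^ (w - 1) < 2 ^ w := Nat.pow_lt_pow_right (by norm_num) (by omega)
    have e1 : ∀ E : ℕ → ℕ, ∑ p ∈ Finset.range (n + 1), E p * (2 ^ w) ^ p =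
        E 0 + 2 ^ w * ∑ p ∈ Finset.range n, E (p + 1) * (2 ^ w) ^ p := by
      intro E
      rw [Finset.sum_range_succ', Finset.mul_sum, add_comm]
      congr 1
      · simp
      · apply Finset.sum_congr rfl
        intro p _
        rw [pow_succ]; ring
    rw [e1 D, e1 (fun _ => 2 ^ (w - 1))] at h
    set X := ∑ p ∈ Finset.range n, D (p + 1) * (2 ^ w) ^ p with hX
    set O := ∑ p ∈ Finset.range n, 2 ^ (w - 1) * (2 ^ w) ^ p with hO
    have m1 := congrArg (· % 2 ^ w) h
    have m2 := congrArg (· / 2 ^ w) h
    simp only [Nat.and_mod_two_pow, Nat.and_div_two_pow] at m1 m2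
    rw [Nat.add_mul_mod_self_left, Nat.add_mul_mod_self_left, Nat.mod_eq_of_lt (hD 0 (by omega)),
      Nat.mod_eq_of_lt hlt] at m1
    rw [Nat.add_mul_div_left _ _ hB, Nat.add_mul_div_left _ _ hB, Nat.div_eq_of_lt (hD 0 (by omega)),
      Nat.div_eq_of_lt hlt, zero_add, zero_add] at m2
    have h1 := ih (fun p => D (p + 1)) (fun p hp => hD (p + 1) (by omega)) m2
    intro p hp
    cases p with
    | zero =>
      rw [← m1]; exact Nat.and_le_left
    | succ p => exact h1 p (by omega)

theorem off_eq (w n : ℕ) (hw : 1 ≤ w) :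
    off w n = ∑ p ∈ Finset.range n, 2 ^ (w - 1) * (2 ^ w) ^ p := by
  have e : off w n = 2 ^ (w - 1) * ((2 ^ (w * n) - 1) / (2 ^ w - 1)) := rfl
  have h2 : 2 ≤ 2 ^ w := by
    calc 2 = 2 ^ 1 := by norm_num
      _ ≤ 2 ^ w := Nat.pow_le_pow_right (by norm_num) hw
  rw [e, ← Finset.mul_sum, pow_mul, Nat.geomSum_eq h2]

theorem tst_core (w n : ℕ) (hw : 1 ≤ w) (c : ℕ → ℤ) (hc : ∀ p < n, |c p| < 2 ^ (w - 1)) (N : ℤ)
    (hN : N = ∑ p ∈ Finset.range n, c p * (2 ^ w) ^ p) (h : tst N (off w n) = true) :
    ∀ p < n, 0 ≤ c p := by
  have e1 : tst N (off w n) = Nat.beq (Nat.land (Int.toNat (ia N (Int.ofNat (off w n)))) (off w n)) (off w n) := rfl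
  rw [e1] at h
  replace h := Nat.eq_of_beq_eq_true h
  rw [ia_eq] at h
  have hw2 : (2 : ℤ) ^ w = 2 ^ (w - 1) + 2 ^ (w - 1) := by
    conv_lhs => rw [show w = (w - 1) + 1 by omega]
    rw [pow_succ]; ring
  set D : ℕ → ℕ := fun p => (c p + 2 ^ (w - 1)).toNat with hD
  have hDc : ∀ p < n, ((D p : ℕ) : ℤ) = c p + 2 ^ (w - 1) := by
    intro p hp
    have := abs_lt.1 (hc p hp)
    rw [hD]; simp only
    rw [Int.toNat_of_nonneg (by linarith)]
  have hDl : ∀ p < n, D p < 2 ^ w := by
    intro p hp
    have h1 := abs_lt.1 (hc p hp)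
    have : ((D p : ℕ) : ℤ) < 2 ^ w := by rw [hDc p hp, hw2]; linarith
    exact_mod_cast this
  have e2 : N + Int.ofNat (off w n) = ((∑ p ∈ Finset.range n, D p * (2 ^ w) ^ p : ℕ) : ℤ) := by
    rw [Int.ofNat_eq_natCast, off_eq w n hw, hN]
    push_cast
    rw [← Finset.sum_add_distrib]
    apply Finset.sum_congr rfl
    intro p hp
    rw [hDc p (Finset.mem_range.1 hp)]; ring
  rw [e2, Int.toNat_natCast] at h
  have h' : (∑ p ∈ Finset.range n, D p * (2 ^ w) ^ p) &&& (∑ p ∈ Finset.range n, 2 ^ (w - 1) * (2 ^ w) ^ p) =
      ∑ p ∈ Finset.range n, 2 ^ (w - 1) * (2 ^ w) ^ p := by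
    rw [← off_eq w n hw]; exact h
  have h3 := land_digits w hw n D hDl h'
  intro p hp
  have h4 := h3 p hp
  have h5 : (2 : ℤ) ^ (w - 1) ≤ D p := by exact_mod_cast h4
  rw [hDc p hp] at h5
  linarith


/-! ## coefficients are nonnegative -/
theorem coeff_core (ns : List ℕ) (w : ℕ) (hw : 1 ≤ w) (F : MP) (N : ℕ) (hF : Maj F N) (hN : N < 2 ^ (w - 1))
    (hd : ∀ i < ns.length, F.degreeOf i < ns.getD i 0) (hd0 : ∀ i, ns.length ≤ i → F.degreeOf i = 0)
    (h : tst (eval (fun i => (2 : ℤ) ^ (w * (ns.take i).prod)) F) (off w ns.prod) = true) :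
    ∀ m, 0 ≤ F.coeff m := by
  classical
  have hm : ∀ m ∈ F.support, ∀ i < ns.length, m i < ns.getD i 0 := fun m hm i hi =>
    (monomial_le_degreeOf i hm).trans_lt (hd i hi)
  have hm0 : ∀ m ∈ F.support, ∀ i, ns.length ≤ i → m i = 0 := fun m hm i hi => by
    have := monomial_le_degreeOf i hm
    rw [hd0 i hi] at this
    omega
  have hpl : ∀ m ∈ F.support, pos ns m < ns.prod := fun m h => pos_lt ns m (hm m h)
  have hinj : ∀ m ∈ F.support, ∀ m' ∈ F.support, pos ns m = pos ns m' → m = m' := by
    intro m h m' h' he
    ext i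
    by_cases hi : i < ns.length
    · exact pos_inj ns m m' (hm m h) (hm m' h') he i hi
    · rw [hm0 m h i (by omega), hm0 m' h' i (by omega)]
  set c : ℕ → ℤ := fun p => ∑ m ∈ F.support.filter (fun m : ℕ →₀ ℕ => pos ns m = p), F.coeff m with hc
  have hcm : ∀ m ∈ F.support, c (pos ns m) = F.coeff m := by
    intro m h
    have : (F.support.filter fun m' : ℕ →₀ ℕ => pos ns m' = pos ns m) = {m} := by
      ext m'
      simp only [Finset.mem_filter, Finset.mem_singleton]
      constructor
      · rintro ⟨h1, h2⟩; exact hinj m' h1 m h h2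
      · rintro rfl; exact ⟨h, rfl⟩
    rw [hc]; simp only; rw [this, Finset.sum_singleton]
  have hcb : ∀ p < ns.prod, |c p| < 2 ^ (w - 1) := by
    intro p _
    by_cases hp : ∃ m ∈ F.support, pos ns m = p
    · obtain ⟨m, h1, rfl⟩ := hp
      rw [hcm m h1]
      exact (hF.coeff m).trans_lt (by exact_mod_cast hN)
    · have : (F.support.filter fun m' : ℕ →₀ ℕ => pos ns m' = p) = ∅ := by
        ext m'
        simp only [Finset.mem_filter, Finset.notMem_empty, iff_false, not_and]
        intro h1 h2; exact hp ⟨m', h1, h2⟩
      rw [hc]; simp only; rw [this, Finset.sum_empty, abs_zero]; positivity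
  have hN' : eval (fun i => (2 : ℤ) ^ (w * (ns.take i).prod)) F =
      ∑ p ∈ Finset.range ns.prod, c p * (2 ^ w) ^ p := by
    rw [eval_eq]
    have e1 : ∀ m ∈ F.support, F.coeff m * ∏ i ∈ m.support, ((2 : ℤ) ^ (w * (ns.take i).prod)) ^ m i =
        F.coeff m * (2 ^ w) ^ pos ns m := by
      intro m h
      rw [← pos_pow]
      congr 1
      apply Finset.prod_subset
      · intro i hi
        rw [Finset.mem_range]
        by_contra hlt
        exact (Finsupp.mem_support_iff.1 hi) (hm0 m h i (by omega))
      · intro i _ hi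
        rw [Finsupp.notMem_support_iff.1 hi, pow_zero]
    rw [Finset.sum_congr rfl e1]
    have e2 := Finset.sum_fiberwise_of_maps_to (s := F.support) (t := Finset.range ns.prod) (g := fun m => pos ns m)
      (fun m h => Finset.mem_range.2 (hpl m h)) (fun m => F.coeff m * (2 ^ w) ^ pos ns m)
    rw [← e2]
    apply Finset.sum_congr rfl
    intro p _
    rw [hc]; simp only
    rw [Finset.sum_mul]
    apply Finset.sum_congr rfl
    intro m h
    rw [(Finset.mem_filter.1 h).2]
  have hfin := tst_core w ns.prod hw c hcb _ hN' h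
  intro m
  by_cases h1 : m ∈ F.support
  · rw [← hcm m h1]; exact hfin _ (hpl m h1)
  · rw [notMem_support_iff.1 h1]

/-- half open box -/
def InO (l : List Iv) (x : List ℝ) : Prop :=
  x.length = l.length ∧ ∀ i < l.length, ((l.getD i dI).a : ℝ) ≤ (l.getD i dI).q * x.getD i 0 ∧
    (l.getD i dI).q * x.getD i 0 < (l.getD i dI).b

theorem okI_spec (l : List Iv) (h : okI l = true) : ∀ i < l.length, (l.getD i dI).a < (l.getD i dI).b ∧
    0 < (l.getD i dI).q := by
  induction l with
  | nil => intro i hi; simp at hi
  | cons x l ih =>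
    simp only [okI, Bool.and_eq_true, decide_eq_true_eq] at h
    intro i hi
    cases i with
    | zero => simpa using h.1
    | succ i => simpa using ih h.2 i (by simpa using hi)

theorem qpG_pos (Q : List ℝ) (s : List ℕ) (h : ∀ q ∈ Q, 0 < q) : 0 < qpG Q s := by
  induction Q generalizing s with
  | nil => simp [qpG]
  | cons q Q ih =>
    cases s with
    | nil => simp [qpG]
    | cons d s =>
      simp only [qpG]
      exact mul_pos (pow_pos (h q (by simp)) _) (ih s (fun q hq => h q (by simp [hq])))

theorem qF_pos (l : List Iv) (j : ℕ) (t : ℕ → ℝ) (ht : ∀ i, 0 ≤ t i) (hq : ∀ i < l.length, 0 < (l.getD i dI).q) :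
    ∀ q ∈ (qF l j).map (eval₂Hom (Int.castRingHom ℝ) t), 0 < q := by
  induction l generalizing j with
  | nil => intro q hq; simp [qF] at hq
  | cons x l ih =>
    intro q h
    simp only [qF, List.map_cons, List.mem_cons] at h
    rcases h with rfl | h
    · have h1 : 0 < x.q := by simpa using hq 0 (by simp)
      have h2 : (0 : ℝ) < x.q := by exact_mod_cast h1
      have h3 := ht j
      simp only [coe_eval₂Hom, eval₂_mul, eval₂_add, eval₂_C, eval₂_X, eval₂_one, Int.coe_castRingHom,
        Int.cast_natCast]
      positivity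
    · exact ih (j + 1) (fun i hi => by simpa using hq (i + 1) (by simpa using hi)) q h

theorem chkB_core (l : List Iv) (prog : List Ex) (e : Ex) (hl : okI l = true)
    (h : chkB (ann (l.length + prog.length) (pD prog l.length (un l.length)) e).2
      (sN (l.length + prog.length) (pS prog l.length (List.replicate l.length 1)) e)
      (pA prog l.length (un l.length))
      (ann (l.length + prog.length) (pD prog l.length (un l.length)) e).1 l = true)
    (x : List ℝ) (hx : InO l x) : 0 ≤ den (run x prog) e := by
  obtain ⟨hxl, hx⟩ := hx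
  have hok := okI_spec l hl
  set k := l.length with hk
  set t : ℕ → ℝ := fun i => if i < k then ((l.getD i dI).q * x.getD i 0 - (l.getD i dI).a) /
    ((l.getD i dI).b - (l.getD i dI).q * x.getD i 0) else 0 with ht
  have ht0 : ∀ i, 0 ≤ t i := by
    intro i
    simp only [ht]
    split_ifs with hi
    · exact div_nonneg (by linarith [(hx i hi).1]) (by linarith [(hx i hi).2])
    · exact le_rfl
  have hte : ∀ i < k, ((l.getD i dI).a : ℝ) + (l.getD i dI).b * t i =
      (l.getD i dI).q * (1 + t i) * x.getD i 0 := by
    intro i hi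
    have h1 : ((l.getD i dI).b : ℝ) - (l.getD i dI).q * x.getD i 0 ≠ 0 := by linarith [(hx i hi).2]
    simp only [ht, hi, if_true]
    field_simp
    ring
  have henv := base_env l t x hxl hte
  have hrun := henv.run (ctx_ok l) prog
  rw [un_length] at hrun
  have hmain := hrun.main (ctx_ok l) e
  rw [List.reverse_reverse, pD_length, un_length] at hmain
  set D := pD prog l.length (un l.length) with hD
  set S := pS prog l.length (List.replicate l.length 1) with hS
  set as := pA prog l.length (un l.length) with has
  set an := ann (l.length + prog.length) D e with han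
  set F := hG (qF l 0) (runG (qF l 0) (vF l 0).reverse as) an.1 with hF
  -- numeric
  set N := sN (l.length + prog.length) S e * qpG (nM l) an.2 with hN
  set w := Nat.log2 N + 2 with hw
  set ns := mkns l an.2 with hns
  have hnl : ns.length = k := mkns_length l an.2
  set P : ℕ → ℤ := fun i => (2 : ℤ) ^ (w * (ns.take i).prod) with hP
  have hQ : (zQ ns l w).map (fun n : ℕ => (n : ℤ)) = (qF l 0).map (eval P) :=
    zQ_eq ns l w 0 P hnl (fun i _ => by simp [hP])
  have hV : zA ns l w = (vF l 0).map (eval P) := zA_eq ns l w 0 P hnl (fun i _ => by simp [hP])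
  have hchk : chkB an.2 (sN (l.length + prog.length) S e) as an.1 l =
      (Nat.ble an.2.length l.length && tst (eval P F) (off w ns.prod)) := by
    have e1 : chkB an.2 (sN (l.length + prog.length) S e) as an.1 l =
      fN (Nat.log2 (sN (l.length + prog.length) S e * qp (nM l) an.2) + 2) (fun w =>
       (fun (ns : List Nat) => and (Nat.ble an.2.length l.length)
       (lQ ns l w (fun Q => lA ns l w [] (fun V => rI Q as V (fun V => tst (hI Q V an.1) (off w (prN ns)))))))
      (mkns l an.2)) := rfl
    rw [e1, fN_eq, qp_eq, ← hN, ← hw]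
    simp only [lQ_eq, lA_eq, rI_eq, hI_eq, prN_eq]
    rw [← hns, hQ, hV, List.append_nil, ← List.map_reverse, ← map_runG, ← map_hG]
  rw [hchk, Bool.and_eq_true] at h
  obtain ⟨h1, h2⟩ := h
  rw [Nat.ble_eq] at h1
  have hcoef := coeff_core ns w (by omega) F N hmain.maj (by
      rw [hw]
      show N < 2 ^ (Nat.log2 N + 1)
      exact Nat.lt_log2_self) (fun i hi => by
      rw [hnl] at hi
      rw [hns, mkns_getD l an.2 i hi]
      exact Nat.lt_succ_of_le (hmain.deg i)) (fun i hi => by
      have := hmain.deg i
      rw [List.getD_eq_default _ _ (by omega)] at this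
      omega) h2
  have hval := hmain.val
  have hpos : 0 < qpG ((qF l 0).map (eval₂Hom (Int.castRingHom ℝ) t)) an.2 :=
    qpG_pos _ _ (qF_pos l 0 t ht0 (fun i hi => (hok i hi).2))
  have hF0 : 0 ≤ eval₂Hom (Int.castRingHom ℝ) t F := by
    rw [coe_eval₂Hom, eval₂_eq]
    apply Finset.sum_nonneg
    intro m _
    apply mul_nonneg
    · simpa using hcoef m
    · exact Finset.prod_nonneg fun i _ => pow_nonneg (ht0 i) _
  rw [hval] at hF0
  exact nonneg_of_mul_nonneg_right hF0 hpos

/-! ## closed boxes -/
/-- `x` in the box `l` (same number of coordinates) -/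
def InB : List Iv → List ℝ → Prop
  | [], [] => True
  | I :: l, x :: m => ((I.a : ℝ) ≤ I.q * x ∧ (I.q : ℝ) * x ≤ I.b) ∧ InB l m
  | _, _ => False

noncomputable def xl : List Iv → List ℝ → ℝ → List ℝ
  | I :: l, x :: m, s => ((1 - s) * x + s * (I.a / I.q)) :: xl l m s
  | _, _, _ => []

theorem xl_zero (l : List Iv) (x : List ℝ) (h : InB l x) : xl l x 0 = x := by
  induction l generalizing x with
  | nil => cases x with
    | nil => rfl
    | cons a x => exact absurd h (by simp [InB])
  | cons I l ih => cases x with
    | nil => exact absurd h (by simp [InB])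
    | cons a x =>
      simp only [InB] at h
      simp [xl, ih x h.2]

theorem xl_mem (l : List Iv) (hl : okI l = true) (x : List ℝ) (h : InB l x) (s : ℝ) (hs : 0 < s) (hs1 : s ≤ 1) :
    InO l (xl l x s) := by
  induction l generalizing x with
  | nil => cases x with
    | nil => exact ⟨rfl, fun i hi => by simp at hi⟩
    | cons a x => exact absurd h (by simp [InB])
  | cons I l ih => cases x with
    | nil => exact absurd h (by simp [InB])
    | cons a x =>
      simp only [InB] at h
      simp only [okI, Bool.and_eq_true, decide_eq_true_eq] at hl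
      obtain ⟨h1, h2⟩ := ih hl.2 x h.2
      refine ⟨by simp [xl, h1], fun i hi => ?_⟩
      cases i with
      | zero =>
        have hq : (0 : ℝ) < I.q := by exact_mod_cast hl.1.2
        have hab : (I.a : ℝ) < I.b := by exact_mod_cast hl.1.1
        have e : (I.q : ℝ) * ((1 - s) * a + s * (I.a / I.q)) = (1 - s) * (I.q * a) + s * I.a := by
          field_simp
        simp only [xl, List.getD_cons_zero]
        rw [e]
        constructor
        · nlinarith [h.1.1]
        · nlinarith [h.1.2]
      | succ i =>
        simpa [xl] using h2 i (by simpa using hi)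

/-- continuous families of lists -/
def CL (V : ℝ → List ℝ) : Prop := ∃ n, (∀ s, (V s).length = n) ∧ ∀ i, Continuous fun s => (V s).getD i 0

theorem CL.den {V : ℝ → List ℝ} (h : CL V) (e : Ex) : Continuous fun s => den (V s) e := by
  induction e with
  | c n => exact continuous_const
  | v i => exact h.choose_spec.2 i
  | add a b ha hb => exact ha.add hb
  | sub a b ha hb => exact ha.sub hb
  | mul a b ha hb => exact ha.mul hb
  | pow a n ha => exact ha.pow n

theorem CL.snoc {V : ℝ → List ℝ} (h : CL V) {f : ℝ → ℝ} (hf : Continuous f) : CL fun s => V s ++ [f s] := by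
  obtain ⟨n, h1, h2⟩ := h
  refine ⟨n + 1, fun s => by simp [h1], fun i => ?_⟩
  rcases lt_trichotomy i n with hi | hi | hi
  · have : (fun s => (V s ++ [f s]).getD i 0) = fun s => (V s).getD i 0 := by
      funext s
      simp only [List.getD_eq_getElem?_getD]
      rw [List.getElem?_append_left (by rw [h1]; exact hi)]
    rw [this]; exact h2 i
  · have : (fun s => (V s ++ [f s]).getD i 0) = f := by
      funext s
      simp only [List.getD_eq_getElem?_getD]
      rw [List.getElem?_append_right (by rw [h1]; omega), h1, hi]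
      simp
    rw [this]; exact hf
  · have : (fun s => (V s ++ [f s]).getD i 0) = fun _ => 0 := by
      funext s
      rw [List.getD_eq_default]
      simp [h1]; omega
    rw [this]; exact continuous_const

theorem CL.run {V : ℝ → List ℝ} (h : CL V) (es : List Ex) : CL fun s => run (V s) es := by
  induction es generalizing V with
  | nil => exact h
  | cons e es ih => exact ih (h.snoc (h.den e))

theorem CL.cons {V : ℝ → List ℝ} (h : CL V) {f : ℝ → ℝ} (hf : Continuous f) : CL fun s => f s :: V s := by
  obtain ⟨n, h1, h2⟩ := h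
  refine ⟨n + 1, fun s => by simp [h1], fun i => ?_⟩
  cases i with
  | zero => simpa using hf
  | succ i => simpa using h2 i

theorem xl_CL (l : List Iv) (x : List ℝ) : CL (xl l x) := by
  induction l generalizing x with
  | nil => exact ⟨0, fun s => rfl, fun i => by simpa [xl] using continuous_const⟩
  | cons I l ih =>
    cases x with
    | nil => exact ⟨0, fun s => rfl, fun i => by simpa [xl] using continuous_const⟩
    | cons a x =>
      exact (ih x).cons (f := fun s => (1 - s) * a + s * (I.a / I.q)) (by fun_prop)

theorem closed_of_open (l : List Iv) (hl : okI l = true) (prog : List Ex) (e : Ex)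
    (h : ∀ x, InO l x → 0 ≤ den (run x prog) e) (x : List ℝ) (hx : InB l x) :
    0 ≤ den (run x prog) e := by
  have hc : Continuous fun s => den (run (xl l x s) prog) e := ((xl_CL l x).run prog).den e
  have h0 : den (run (xl l x 0) prog) e = den (run x prog) e := by rw [xl_zero l x hx]
  rw [← h0]
  have ht : Filter.Tendsto (fun s => den (run (xl l x s) prog) e) (nhdsWithin 0 (Set.Ioi 0))
      (nhds (den (run (xl l x 0) prog) e)) := hc.continuousWithinAt
  refine ge_of_tendsto ht ?_
  filter_upwards [Ioc_mem_nhdsGT (zero_lt_one' ℝ)] with s hs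
  exact h _ (xl_mem l hl x hx s hs.1 hs.2)

/-! ## tree -/
theorem md_length (f : Iv → Iv) (i : ℕ) (l : List Iv) : (md f i l).length = l.length := by
  induction l generalizing i with
  | nil => simp [md]
  | cons x l ih => cases i <;> simp [md, ih]

theorem md_ok_lo (i : ℕ) (l : List Iv) (h : okI l = true) : okI (md Iv.lo i l) = true := by
  induction l generalizing i with
  | nil => simp [md, okI]
  | cons x l ih =>
    simp only [okI, Bool.and_eq_true, decide_eq_true_eq] at h
    cases i with
    | zero =>
      simp only [md, okI, Iv.lo, Bool.and_eq_true, decide_eq_true_eq]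
      exact ⟨⟨by omega, by omega⟩, h.2⟩
    | succ i =>
      simp only [md, okI, Bool.and_eq_true, decide_eq_true_eq]
      exact ⟨h.1, ih i h.2⟩

theorem md_ok_hi (i : ℕ) (l : List Iv) (h : okI l = true) : okI (md Iv.hi i l) = true := by
  induction l generalizing i with
  | nil => simp [md, okI]
  | cons x l ih =>
    simp only [okI, Bool.and_eq_true, decide_eq_true_eq] at h
    cases i with
    | zero =>
      simp only [md, okI, Iv.hi, Bool.and_eq_true, decide_eq_true_eq]
      exact ⟨⟨by omega, by omega⟩, h.2⟩
    | succ i =>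
      simp only [md, okI, Bool.and_eq_true, decide_eq_true_eq]
      exact ⟨h.1, ih i h.2⟩

theorem md_cover (i : ℕ) (l : List Iv) (x : List ℝ) (h : InB l x) :
    InB (md Iv.lo i l) x ∨ InB (md Iv.hi i l) x := by
  induction l generalizing i x with
  | nil => left; simpa [md] using h
  | cons I l ih =>
    cases x with
    | nil => exact absurd h (by simp [InB])
    | cons a x =>
      cases i with
      | zero =>
        simp only [InB] at h
        simp only [md, InB, Iv.lo, Iv.hi]
        push_cast
        rcases le_total (((I.q : ℝ) + I.q) * a) (I.a + I.b) with hh | hh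
        · left; exact ⟨⟨by linarith [h.1.1], hh⟩, h.2⟩
        · right; exact ⟨⟨hh, by linarith [h.1.2]⟩, h.2⟩
      | succ i =>
        simp only [InB] at h
        simp only [md, InB]
        rcases ih i x h.2 with hh | hh
        · left; exact ⟨h.1, hh⟩
        · right; exact ⟨h.1, hh⟩

theorem leafE_le (R : List ℝ) (goal : Ex) (m k : ℕ) (hs : List Ex) (ls : List ℕ)
    (hh : ∀ h ∈ hs, 0 ≤ den R h) : den R (leafE goal m k hs ls) ≤ m * den R goal - k := by
  have base : den R (if k = 0 then (if m = 1 then goal else .mul (.c m) goal) else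
      .sub (.mul (.c m) goal) (.c k)) ≤ m * den R goal - k := by
    split_ifs with h1 h2
    · subst h1; subst h2; simp
    · subst h1; simp [den]
    · simp [den]
  induction hs generalizing ls with
  | nil => simpa [leafE] using base
  | cons h hs ih =>
    cases ls with
    | nil => simpa [leafE] using base
    | cons l ls =>
      have h1 := ih ls (fun g hg => hh g (by simp [hg]))
      have h2 := hh h (by simp)
      simp only [leafE]
      split_ifs
      · exact h1
      · have h3 : den R (.sub (leafE goal m k hs ls) (.mul (.c l) h)) =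
          den R (leafE goal m k hs ls) - l * den R h := by simp [den]
        rw [h3]
        have : (0 : ℝ) ≤ l * den R h := by positivity
        linarith

theorem chkT_sound (k : ℕ) (prog : List Ex) (goal : Ex) (hyps : List Ex) (t : Tr) (l : List Iv) (hk : l.length = k)
    (hl : okI l = true)
    (h : chkT (k + prog.length) (pD prog k (un k)) (pS prog k (List.replicate k 1)) (pA prog k (un k)) goal hyps
      (ann (k + prog.length) (pD prog k (un k)) goal).2
      (sN (k + prog.length) (pS prog k (List.replicate k 1)) goal)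
      (ann (k + prog.length) (pD prog k (un k)) goal).1 t l = true)
    (x : List ℝ) (hx : InB l x) (hh : ∀ e ∈ hyps, 0 ≤ den (run x prog) e) : 0 ≤ den (run x prog) goal := by
  induction t generalizing l with
  | o =>
    subst hk
    exact closed_of_open l hl prog goal (fun y hy => chkB_core l prog goal hl h y hy) x hx
  | l m κ lam =>
    subst hk
    have e1 : chkT (l.length + prog.length) (pD prog l.length (un l.length))
      (pS prog l.length (List.replicate l.length 1)) (pA prog l.length (un l.length)) goal hyps
      (ann (l.length + prog.length) (pD prog l.length (un l.length)) goal).2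
      (sN (l.length + prog.length) (pS prog l.length (List.replicate l.length 1)) goal)
      (ann (l.length + prog.length) (pD prog l.length (un l.length)) goal).1 (.l m κ lam) l =
      and (Nat.ble 1 (m + κ)) (chkE (l.length + prog.length) (pD prog l.length (un l.length))
      (pS prog l.length (List.replicate l.length 1)) (pA prog l.length (un l.length))
      (leafE goal m κ hyps lam) l) := rfl
    rw [e1] at h
    simp only [Bool.and_eq_true] at h
    obtain ⟨h1, h2⟩ := h
    rw [Nat.ble_eq] at h1
    unfold chkE at h2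
    rw [fL_eq, fA_eq, fN_eq] at h2
    have h3 := closed_of_open l hl prog (leafE goal m κ hyps lam)
      (fun y hy => chkB_core l prog (leafE goal m κ hyps lam) hl h2 y hy) x hx
    have h4 := leafE_le (run x prog) goal m κ hyps lam hh
    have h5 : (κ : ℝ) ≤ m * den (run x prog) goal := by linarith
    rcases Nat.eq_zero_or_pos m with hm | hm
    · subst hm
      simp only [Nat.cast_zero, zero_mul] at h5
      have h6 : κ ≤ 0 := by exact_mod_cast h5
      omega
    · have hm' : (0 : ℝ) < m := by exact_mod_cast hm
      have : (0 : ℝ) ≤ m * den (run x prog) goal := le_trans (Nat.cast_nonneg κ) h5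
      exact nonneg_of_mul_nonneg_right this hm'
  | s i a b iha ihb =>
    have e1 : chkT (k + prog.length) (pD prog k (un k)) (pS prog k (List.replicate k 1)) (pA prog k (un k)) goal hyps
      (ann (k + prog.length) (pD prog k (un k)) goal).2
      (sN (k + prog.length) (pS prog k (List.replicate k 1)) goal)
      (ann (k + prog.length) (pD prog k (un k)) goal).1 (.s i a b) l =
      and (chkT (k + prog.length) (pD prog k (un k)) (pS prog k (List.replicate k 1)) (pA prog k (un k)) goal hyps
      (ann (k + prog.length) (pD prog k (un k)) goal).2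
      (sN (k + prog.length) (pS prog k (List.replicate k 1)) goal)
      (ann (k + prog.length) (pD prog k (un k)) goal).1 a (md Iv.lo i l))
      (chkT (k + prog.length) (pD prog k (un k)) (pS prog k (List.replicate k 1)) (pA prog k (un k)) goal hyps
      (ann (k + prog.length) (pD prog k (un k)) goal).2
      (sN (k + prog.length) (pS prog k (List.replicate k 1)) goal)
      (ann (k + prog.length) (pD prog k (un k)) goal).1 b (md Iv.hi i l)) := rfl
    rw [e1, Bool.and_eq_true] at h
    rcases md_cover i l x hx with hc | hc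
    · exact iha (md Iv.lo i l) (by rw [md_length, hk]) (md_ok_lo i l hl) h.1 hc
    · exact ihb (md Iv.hi i l) (by rw [md_length, hk]) (md_ok_hi i l hl) h.2 hc

/-- MAIN THEOREM: kernel test => inequality on the box -/
theorem box_nonneg (prog : List Ex) (goal : Ex) (hyps : List Ex) (t : Tr) (l : List Iv)
    (h : chk prog goal hyps t l = true) (x : List ℝ) (hx : InB l x)
    (hh : ∀ e ∈ hyps, 0 ≤ den (run x prog) e) : 0 ≤ den (run x prog) goal := by
  unfold chk at h
  rw [Bool.and_eq_true] at h
  obtain ⟨h1, h2⟩ := h
  unfold chk1 at h2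
  rw [fLL_eq, fL_eq, fLA_eq, fL_eq, fN_eq, fA_eq] at h2
  exact chkT_sound l.length prog goal hyps t l rfl h1 h2 x hx hh

end Pool.Agent.FPX.BXE
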