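import Pool.Agent.FPX.BXE
/-!
BXP: positive semidefinite polynomial matrices on boxes. Per leaf an integer congruence `C` (columns, triangular with
nonzero diagonal) is given; for `R = Cᵀ M C` the kernel tests `R i i ± (n-1) R i j ≥ 0` for all `i ≠ j` (all Bernstein
coefficients at once).
-/
namespace Pool.Agent.FPX.BXE
open MvPolynomial

/-- trees with congruences -/
inductive TP where
  | l (C : List (List Int))
  | s (i : Nat) (a b : TP)

/-- position of the entry `(k, l)`, `k ≤ l`, in the list of the upper triangle (rows) -/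
def ix (n k l : Nat) : Nat := k * n + l - k * (k + 1) / 2
/-- symmetric index matrix -/
def ixm (n : Nat) : List (List Nat) :=
  (List.range n).map fun k => (List.range n).map fun l => if k ≤ l then ix n k l else ix n l k

noncomputable def dI1 (c : List Int) : List Int → Int :=
  @List.rec Int (fun _ => List Int → Int) (fun _ => Int.ofNat 0)
    (fun z _ f l => @List.rec Int (fun _ => Int) (Int.ofNat 0) (fun x m _ => ia (im z x) (f m)) l) c

noncomputable def fLI {β : Type} (l : List Int) : (List Int → β) → β :=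
  @List.rec Int (fun _ => (List Int → β) → β) (fun k => k [])
   (fun a _ f k => fI a (fun a => f (fun l => k (a :: l)))) l
noncomputable def fLLI {β : Type} (l : List (List Int)) : (List (List Int) → β) → β :=
  @List.rec (List Int) (fun _ => (List (List Int) → β) → β) (fun k => k [])
   (fun a _ f k => fLI a (fun a => f (fun l => k (a :: l)))) l

/-- common degree of a list of annotated expressions -/
def dmL : List (Ax × List Nat) → List Nat
  | [] => []
  | x :: l => dmx x.2 (dmL l)
/-- padded expressions -/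
def pad (d : List Nat) : List (Ax × List Nat) → List (Ax × List Nat)
  | [] => []
  | x :: l => (x.1, dsb d x.2) :: pad d l
noncomputable def fLP {β : Type} (l : List (Ax × List Nat)) : (List (Ax × List Nat) → β) → β :=
  @List.rec (Ax × List Nat) (fun _ => (List (Ax × List Nat) → β) → β) (fun k => k [])
   (fun a _ f k => fA a.1 (fun x => fL a.2 (fun y => f (fun l => k ((x, y) :: l))))) l
noncomputable def sMx (n : Nat) (S : List Nat) : List Ex → Nat
  | [] => 0
  | e :: l => nmax (sN n S e) (sMx n S l)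

/-- values of the entries -/
noncomputable def vE (Q : List Nat) (V : List Int) (E : List (Ax × List Nat)) : List Int :=
  @List.rec (Ax × List Nat) (fun _ => List Int) [] (fun a _ r => hq Q (hI Q V a.1) a.2 :: r) E
noncomputable def pick (W : List Int) (l : List Nat) : List Int :=
  @List.rec Nat (fun _ => List Int) [] (fun a _ r => gt (Int.ofNat 0) W a :: r) l
noncomputable def pick2 (W : List Int) (l : List (List Nat)) : List (List Int) :=
  @List.rec (List Nat) (fun _ => List (List Int)) [] (fun a _ r => pick W a :: r) l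
/-- matrix times vector -/
noncomputable def mv (M : List (List Int)) (c : List Int) : List Int :=
  @List.rec (List Int) (fun _ => List Int) [] (fun a _ r => dI1 c a :: r) M
/-- test of one row: `r` = diagonal entry, list of the other products; `i` row, `j` column -/
noncomputable def rowT (n1 o : Nat) (r : Int) (i : Nat) (l : List Int) : Nat → Bool :=
  @List.rec Int (fun _ => Nat → Bool) (fun _ => true)
    (fun x _ f j => and (cond (Nat.beq i j) true (fI (imn x n1) (fun y => and (tst (ia r y) o) (tst (is r y) o))))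
      (f (Nat.succ j))) l
/-- all rows; `G` = M c_i -/
noncomputable def rowsT (n1 o : Nat) (M C : List (List Int)) (L : List (List Int)) : Nat → Bool :=
  @List.rec (List Int) (fun _ => Nat → Bool) (fun _ => true)
    (fun c _ f i => and (fLI (mv M c) (fun G => fLI (mv C G) (fun R => fI (gt (Int.ofNat 0) R i) (fun r =>
      and (tst r o) (rowT n1 o r i R 0))))) (f (Nat.succ i))) L

def sAb : List (List Int) → Nat
  | [] => 0
  | c :: l => c.foldr (fun z a => z.natAbs + a) 0 + sAb l

/-- triangular with nonzero diagonal -/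
def triC (n : Nat) (C : List (List Int)) : Bool :=
  decide (C.length = n) && (List.range n).all fun i => decide ((C.getD i []).length = n) &&
    decide ((C.getD i []).getD i 0 ≠ 0) && (List.range n).all fun k => decide (k ≤ i) || decide ((C.getD i []).getD k 0 = 0)

noncomputable def leafP (n : Nat) (X : List (List Nat)) (d : List Nat) (S : Nat) (as : List Ax)
    (E : List (Ax × List Nat)) (C : List (List Int)) (bx : List Iv) : Bool :=
  and (triC n C) (and (Nat.ble d.length bx.length)
    (fN (Nat.add (Nat.log2 (Nat.mul (Nat.mul n (Nat.mul (Nat.mul (sAb C) (sAb C)) S)) (qp (nM bx) d))) 2) (fun w =>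
     fN (off w (prN (mkns bx d))) (fun o =>
       lQ (mkns bx d) bx w (fun Q => lA (mkns bx d) bx w [] (fun V => rI Q as V (fun V =>
         fLI (vE Q V E) (fun W => rowsT (Nat.sub n 1) o (pick2 W X) C C 0))))))))

noncomputable def chkTP (n : Nat) (X : List (List Nat)) (d : List Nat) (S : Nat) (as : List Ax)
    (E : List (Ax × List Nat)) (t : TP) : List Iv → Bool :=
  @TP.rec (fun _ => List Iv → Bool) (fun C bx => leafP n X d S as E C bx)
   (fun i _ _ f g bx => and (f (md Iv.lo i bx)) (g (md Iv.hi i bx))) t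

/-- the test: `n` size, `E` upper triangle (rows) -/
noncomputable def chkP1 (n N : Nat) (D : List (List Nat)) (S : List Nat) (as : List Ax) (E : List Ex) (t : TP)
    (bx : List Iv) : Bool :=
  (fun (AE : List (Ax × List Nat)) => fL (dmL AE) (fun d => fLA as (fun as => fLP (pad d AE) (fun EA =>
    fN (sMx N S E) (fun S => fLL (ixm n) (fun X => chkTP n X d S as EA t bx)))))) (E.map (ann N D))

noncomputable def chkP (prog : List Ex) (n : Nat) (E : List Ex) (t : TP) (bx : List Iv) : Bool :=
  and (okI bx) (chkP1 n (bx.length + prog.length) (pD prog bx.length (un bx.length))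
    (pS prog bx.length (List.replicate bx.length 1))
    (pA prog bx.length (un bx.length)) E t bx)

/-! ## forcing -/
theorem fLI_eq {β : Type} (l : List ℤ) (k : List ℤ → β) : fLI l k = k l := by
  induction l generalizing k with
  | nil => rfl
  | cons a l ih =>
    have : fLI (a :: l) k = fI a (fun a => fLI l (fun l => k (a :: l))) := rfl
    rw [this, fI_eq, ih]
theorem fLP_eq {β : Type} (l : List (Ax × List ℕ)) (k : List (Ax × List ℕ) → β) : fLP l k = k l := by
  induction l generalizing k with
  | nil => rfl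
  | cons a l ih =>
    have : fLP (a :: l) k = fA a.1 (fun x => fL a.2 (fun y => fLP l (fun l => k ((x, y) :: l)))) := rfl
    rw [this, fA_eq, fL_eq, ih]

/-! ## relation with existential polynomial -/
def RZ (Q : List MP) (M : List ℕ) (ft : MP →+* ℝ) (P : ℕ → ℤ) (d : List ℕ) (s : ℕ) (z : ℤ) (x : ℝ) : Prop :=
  ∃ F : MP, eval P F = z ∧ Rel Q M ft d s F x

section
variable {Q : List MP} {M : List ℕ} {ft : MP →+* ℝ} {P : ℕ → ℤ}

theorem RZ.mono {d : List ℕ} {s s' : ℕ} {z : ℤ} {x : ℝ} (h : RZ Q M ft P d s z x) (hs : s ≤ s') :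
    RZ Q M ft P d s' z x := by
  obtain ⟨F, h1, h2⟩ := h
  exact ⟨F, h1, h2.deg, h2.maj.mono (Nat.mul_le_mul_right _ hs), h2.val⟩

theorem RZ.zero (d : List ℕ) (s : ℕ) : RZ Q M ft P d s 0 0 := by
  refine ⟨0, by simp, fun i => ?_, ?_, by simp⟩
  · rw [degreeOf_zero]; exact Nat.zero_le _
  · have := (Maj.c 0).mono (Nat.zero_le (s * qpG M d))
    simpa using this

theorem RZ.add {d : List ℕ} {s s' : ℕ} {z z' : ℤ} {x x' : ℝ} (h : RZ Q M ft P d s z x)
    (h' : RZ Q M ft P d s' z' x') : RZ Q M ft P d (s + s') (z + z') (x + x') := by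
  obtain ⟨F, h1, h2⟩ := h
  obtain ⟨F', h1', h2'⟩ := h'
  exact ⟨F + F', by rw [map_add, h1, h1'], h2.add h2'⟩

theorem RZ.sub {d : List ℕ} {s s' : ℕ} {z z' : ℤ} {x x' : ℝ} (h : RZ Q M ft P d s z x)
    (h' : RZ Q M ft P d s' z' x') : RZ Q M ft P d (s + s') (z - z') (x - x') := by
  obtain ⟨F, h1, h2⟩ := h
  obtain ⟨F', h1', h2'⟩ := h'
  exact ⟨F - F', by rw [map_sub, h1, h1'], h2.sub h2'⟩

theorem RZ.smul {d : List ℕ} {s : ℕ} {z : ℤ} {x : ℝ} (h : RZ Q M ft P d s z x) (a : ℤ) :
    RZ Q M ft P d (a.natAbs * s) (a * z) (a * x) := by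
  obtain ⟨F, h1, h2⟩ := h
  refine ⟨(a : MP) * F, by rw [map_mul, h1, map_intCast, Int.cast_id], ?_⟩
  have := (Rel.c Q M ft a).mul h2
  simpa [dad] using this

/-- dot product -/
def dG {R : Type*} [CommRing R] : List ℤ → List R → R
  | z :: c, x :: v => (z : R) * x + dG c v
  | [], _ => 0
  | _ :: _, [] => 0

def l1 (c : List ℤ) : ℕ := c.foldr (fun z a => z.natAbs + a) 0

theorem dI1_eq (c v : List ℤ) : dI1 c v = dG c v := by
  induction c generalizing v with
  | nil => rfl
  | cons z c ih =>
    cases v with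
    | nil => rfl
    | cons x v =>
      have : dI1 (z :: c) (x :: v) = ia (im z x) (dI1 c v) := rfl
      rw [this, ia_eq, im_eq, ih]; simp [dG]

theorem dG_comm (c v : List ℤ) : dG c v = dG v c := by
  induction c generalizing v with
  | nil => cases v <;> rfl
  | cons z c ih =>
    cases v with
    | nil => rfl
    | cons x v => simp [dG, ih v, mul_comm]

theorem RZ.dot {d : List ℕ} {s : ℕ} (c : List ℤ) {vz : List ℤ} {vx : List ℝ}
    (h : List.Forall₂ (RZ Q M ft P d s) vz vx) : RZ Q M ft P d (l1 c * s) (dG c vz) (dG c vx) := by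
  induction c generalizing vz vx with
  | nil => simpa [dG, l1] using RZ.zero d (0 * s)
  | cons a c ih =>
    cases h with
    | nil => exact RZ.zero d _
    | cons h1 h2 =>
      have := (h1.smul a).add (ih h2)
      have e : l1 (a :: c) * s = a.natAbs * s + l1 c * s := by
        simp only [l1, List.foldr_cons]; ring
      rw [e]
      simpa [dG] using this

theorem forall2_getD {d : List ℕ} {s : ℕ} {vz : List ℤ} {vx : List ℝ}
    (h : List.Forall₂ (RZ Q M ft P d s) vz vx) (k : ℕ) : RZ Q M ft P d s (vz.getD k 0) (vx.getD k 0) := by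
  induction h generalizing k with
  | nil => simpa using RZ.zero d s
  | cons h1 _ ih =>
    cases k with
    | zero => simpa using h1
    | succ k => simpa using ih k

theorem mv_eq (m : List (List ℤ)) (c : List ℤ) : mv m c = m.map (dG c) := by
  induction m with
  | nil => rfl
  | cons a m ih =>
    have : mv (a :: m) c = dI1 c a :: mv m c := rfl
    rw [this, dI1_eq, ih]; rfl

theorem pick_eq (W : List ℤ) (l : List ℕ) : pick W l = l.map fun i => W.getD i 0 := by
  induction l with
  | nil => rfl
  | cons a l ih =>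
    have : pick W (a :: l) = gt (Int.ofNat 0) W a :: pick W l := rfl
    rw [this, gt_eq, ih]; rfl

theorem pick2_eq (W : List ℤ) (l : List (List ℕ)) : pick2 W l = l.map (List.map fun i => W.getD i 0) := by
  induction l with
  | nil => rfl
  | cons a l ih =>
    have : pick2 W (a :: l) = pick W a :: pick2 W l := rfl
    rw [this, pick_eq, ih]; rfl

theorem RZ.mvec {d : List ℕ} {s : ℕ} (c : List ℤ) {mz : List (List ℤ)} {mx : List (List ℝ)}
    (h : List.Forall₂ (List.Forall₂ (RZ Q M ft P d s)) mz mx) :
    List.Forall₂ (RZ Q M ft P d (l1 c * s)) (mz.map (dG c)) (mx.map (dG c)) := by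
  induction h with
  | nil => exact List.Forall₂.nil
  | cons h1 _ ih => exact List.Forall₂.cons (RZ.dot c h1) ih

theorem RZ.picks {d : List ℕ} {s : ℕ} {vz : List ℤ} {vx : List ℝ}
    (h : List.Forall₂ (RZ Q M ft P d s) vz vx) (X : List (List ℕ)) :
    List.Forall₂ (List.Forall₂ (RZ Q M ft P d s)) (X.map (List.map fun i => vz.getD i 0))
      (X.map (List.map fun i => vx.getD i 0)) := by
  induction X with
  | nil => exact List.Forall₂.nil
  | cons a X ih =>
    refine List.Forall₂.cons ?_ ih
    induction a with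
    | nil => exact List.Forall₂.nil
    | cons i a ih' => exact List.Forall₂.cons (forall2_getD h i) ih'

end

/-! ## row tests -/
theorem rowT_spec (n1 o : ℕ) (r : ℤ) (i : ℕ) (l : List ℤ) (j0 : ℕ) (h : rowT n1 o r i l j0 = true) :
    ∀ j < l.length, j0 + j ≠ i → tst (r + l.getD j 0 * n1) o = true ∧ tst (r - l.getD j 0 * n1) o = true := by
  induction l generalizing j0 with
  | nil => intro j hj; simp at hj
  | cons x l ih =>
    have e : rowT n1 o r i (x :: l) j0 = and (cond (Nat.beq i j0) true
      (fI (imn x n1) (fun y => and (tst (ia r y) o) (tst (is r y) o)))) (rowT n1 o r i l (j0 + 1)) := rfl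
    rw [e, Bool.and_eq_true, fI_eq, imn_eq, ia_eq, is_eq] at h
    obtain ⟨h1, h2⟩ := h
    intro j hj hne
    cases j with
    | zero =>
      have hb : Nat.beq i j0 = false := by
        rw [Bool.eq_false_iff]; intro hh
        have := Nat.eq_of_beq_eq_true hh
        omega
      rw [hb] at h1
      simpa using h1
    | succ j =>
      have := ih (j0 + 1) h2 j (by simpa using hj) (by omega)
      simpa using this

theorem rowsT_spec (n1 o : ℕ) (m C : List (List ℤ)) (L : List (List ℤ)) (i0 : ℕ)
    (h : rowsT n1 o m C L i0 = true) : ∀ i < L.length,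
      tst ((C.map fun a => dG a (m.map (dG (L.getD i [])))).getD (i0 + i) 0) o = true ∧
      ∀ j < C.length, j ≠ i0 + i →
        tst ((C.map fun a => dG a (m.map (dG (L.getD i [])))).getD (i0 + i) 0 +
          (C.map fun a => dG a (m.map (dG (L.getD i [])))).getD j 0 * n1) o = true ∧
        tst ((C.map fun a => dG a (m.map (dG (L.getD i [])))).getD (i0 + i) 0 -
          (C.map fun a => dG a (m.map (dG (L.getD i [])))).getD j 0 * n1) o = true := by
  induction L generalizing i0 with
  | nil => intro i hi; simp at hi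
  | cons c L ih =>
    have e : rowsT n1 o m C (c :: L) i0 = and (fLI (mv m c) (fun G => fLI (mv C G) (fun R =>
      fI (gt (Int.ofNat 0) R i0) (fun r => and (tst r o) (rowT n1 o r i0 R 0))))) (rowsT n1 o m C L (i0 + 1)) := rfl
    rw [e, Bool.and_eq_true, fLI_eq, fLI_eq, fI_eq, gt_eq, Bool.and_eq_true] at h
    obtain ⟨⟨h1, h2⟩, h3⟩ := h
    have e2 : mv C (mv m c) = C.map fun a => dG a (m.map (dG c)) := by
      rw [mv_eq, mv_eq]
      apply List.map_congr_left
      intro a _
      exact dG_comm _ _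
    rw [e2] at h1 h2
    intro i hi
    cases i with
    | zero =>
      refine ⟨by simpa using h1, fun j hj hne => ?_⟩
      have := rowT_spec n1 o _ i0 _ 0 h2 j (by simpa using hj) (by omega)
      simpa using this
    | succ i =>
      have := ih (i0 + 1) h3 i (by simpa using hi)
      rw [show i0 + 1 + i = i0 + (i + 1) by omega] at this
      simpa using this

/-! ## linear algebra -/
theorem dG_sum {R : Type*} [CommRing R] (n : ℕ) (c : List ℤ) (v : List R) (hc : c.length = n) (hv : v.length = n) :
    dG c v = ∑ k ∈ Finset.range n, (c.getD k 0 : R) * v.getD k 0 := by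
  induction c generalizing v n with
  | nil =>
    subst hc
    cases v <;> simp [dG]
  | cons a c ih =>
    cases v with
    | nil => subst hc; simp at hv
    | cons x v =>
      obtain ⟨m, rfl⟩ : ∃ m, n = m + 1 := ⟨c.length, by simpa using hc.symm⟩
      rw [Finset.sum_range_succ']
      simp only [dG]
      rw [ih m v (by simpa using hc) (by simpa using hv)]
      simp [add_comm]

theorem dd_nonneg (n : ℕ) (R : ℕ → ℕ → ℝ) (hs : ∀ i < n, ∀ j < n, R i j = R j i)
    (h0 : ∀ i < n, 0 ≤ R i i)
    (h1 : ∀ i < n, ∀ j < n, j ≠ i → 0 ≤ R i i + R i j * ((n - 1 : ℕ) : ℝ) ∧ 0 ≤ R i i - R i j * ((n - 1 : ℕ) : ℝ))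
    (y : ℕ → ℝ) : 0 ≤ ∑ i ∈ Finset.range n, ∑ j ∈ Finset.range n, y i * y j * R i j := by
  rcases Nat.lt_or_ge n 2 with hn | hn
  · interval_cases n
    · simp
    · simp only [Finset.sum_range_one]
      exact mul_nonneg (mul_self_nonneg _) (h0 0 (by norm_num))
  · have hn1 : (1 : ℝ) ≤ ((n - 1 : ℕ) : ℝ) := by exact_mod_cast (by omega : 1 ≤ n - 1)
    have hnn : ((n - 1 : ℕ) : ℝ) = (n : ℝ) - 1 := by rw [Nat.cast_sub (by omega)]; simp
    set ν : ℝ := ((n - 1 : ℕ) : ℝ) with hν
    have key : 0 ≤ ∑ i ∈ Finset.range n, ∑ j ∈ Finset.range n,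
        (ν * (y i * y j * R i j) + (1 / 2) * (y i ^ 2 * R i i + y j ^ 2 * R j j) -
          if i = j then (n : ℝ) * (y i ^ 2 * R i i) else 0) := by
      apply Finset.sum_nonneg
      intro i hi
      apply Finset.sum_nonneg
      intro j hj
      rw [Finset.mem_range] at hi hj
      by_cases hij : i = j
      · subst hij
        simp only [if_true]
        rw [hnn]
        have : ((n : ℝ) - 1) * (y i * y i * R i i) + 1 / 2 * (y i ^ 2 * R i i + y i ^ 2 * R i i) -
          n * (y i ^ 2 * R i i) = 0 := by ring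
        rw [this]
      · simp only [hij, if_false, sub_zero]
        obtain ⟨a1, a2⟩ := h1 i hi j hj (Ne.symm hij)
        obtain ⟨b1, b2⟩ := h1 j hj i hi hij
        rw [← hs i hi j hj] at b1 b2
        have hp : 0 ≤ (y i + y j) ^ 2 := sq_nonneg _
        have hm : 0 ≤ (y i - y j) ^ 2 := sq_nonneg _
        rcases le_total 0 (R i j) with hr | hr
        · nlinarith [mul_nonneg (mul_nonneg (by linarith : (0 : ℝ) ≤ ν) hr) hp, mul_nonneg (sq_nonneg (y i)) a2,
            mul_nonneg (sq_nonneg (y j)) b2]
        · nlinarith [mul_nonneg (mul_nonneg (by linarith : (0 : ℝ) ≤ ν) (neg_nonneg.2 hr)) hm,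
            mul_nonneg (sq_nonneg (y i)) a1, mul_nonneg (sq_nonneg (y j)) b1]
    have e : ∑ i ∈ Finset.range n, ∑ j ∈ Finset.range n,
        (ν * (y i * y j * R i j) + (1 / 2) * (y i ^ 2 * R i i + y j ^ 2 * R j j) -
          if i = j then (n : ℝ) * (y i ^ 2 * R i i) else 0) =
        ν * ∑ i ∈ Finset.range n, ∑ j ∈ Finset.range n, y i * y j * R i j := by
      simp only [Finset.sum_sub_distrib, Finset.sum_add_distrib, Finset.mul_sum, mul_add]
      have e1 : ∑ i ∈ Finset.range n, ∑ j ∈ Finset.range n, 1 / 2 * (y i ^ 2 * R i i) =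
          ∑ i ∈ Finset.range n, n * (1 / 2 * (y i ^ 2 * R i i)) := by
        apply Finset.sum_congr rfl; intro i _
        rw [Finset.sum_const, Finset.card_range, nsmul_eq_mul]
      have e2 : ∑ i ∈ Finset.range n, ∑ j ∈ Finset.range n, 1 / 2 * (y j ^ 2 * R j j) =
          ∑ j ∈ Finset.range n, n * (1 / 2 * (y j ^ 2 * R j j)) := by
        rw [Finset.sum_comm]
        apply Finset.sum_congr rfl; intro i _
        rw [Finset.sum_const, Finset.card_range, nsmul_eq_mul]
      have e3 : ∑ i ∈ Finset.range n, ∑ j ∈ Finset.range n,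
          (if i = j then (n : ℝ) * (y i ^ 2 * R i i) else 0) =
          ∑ i ∈ Finset.range n, (n : ℝ) * (y i ^ 2 * R i i) := by
        apply Finset.sum_congr rfl; intro i hi
        rw [Finset.sum_ite_eq, if_pos hi]
      rw [e1, e2, e3, ← Finset.sum_add_distrib, add_sub_assoc, ← Finset.sum_sub_distrib]
      have e4 : ∑ i ∈ Finset.range n, (↑n * (1 / 2 * (y i ^ 2 * R i i)) + ↑n * (1 / 2 * (y i ^ 2 * R i i)) -
          (n : ℝ) * (y i ^ 2 * R i i)) = 0 := by
        apply Finset.sum_eq_zero; intro i _; ring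
      rw [e4, add_zero]
    rw [e] at key
    exact nonneg_of_mul_nonneg_right key (by linarith)

theorem span_of_tri (n : ℕ) (c : ℕ → ℕ → ℝ) (hd : ∀ i < n, c i i ≠ 0) (ht : ∀ i < n, ∀ k < n, i < k → c i k = 0)
    (u : ℕ → ℝ) : ∃ y : ℕ → ℝ, ∀ k < n, u k = ∑ i ∈ Finset.range n, y i * c i k := by
  set Cm : Matrix (Fin n) (Fin n) ℝ := fun k i => c i k with hC
  have hbt : Cm.BlockTriangular id := by
    intro k i hki
    exact ht i i.2 k k.2 hki
  have hdet : Cm.det ≠ 0 := by
    rw [Matrix.det_of_isUpperTriangular hbt]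
    exact Finset.prod_ne_zero_iff.2 fun i _ => hd i i.2
  have hu : IsUnit Cm.det := isUnit_iff_ne_zero.2 hdet
  set y' : Fin n → ℝ := Cm⁻¹.mulVec (fun k : Fin n => u k) with hy'
  have hy : Cm.mulVec y' = fun k : Fin n => u k := by
    rw [hy', Matrix.mulVec_mulVec, Matrix.mul_nonsing_inv _ hu, Matrix.one_mulVec]
  refine ⟨fun i => if h : i < n then y' ⟨i, h⟩ else 0, fun k hk => ?_⟩
  have := congrFun hy ⟨k, hk⟩
  simp only [Matrix.mulVec, dotProduct] at this
  rw [← this, Finset.sum_range]
  apply Finset.sum_congr rfl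
  intro i _
  simp [hC, mul_comm]

theorem quad_of_congr (n : ℕ) (A : ℕ → ℕ → ℝ) (hA : ∀ k < n, ∀ l < n, A k l = A l k) (c : ℕ → ℕ → ℝ)
    (hd : ∀ i < n, c i i ≠ 0) (ht : ∀ i < n, ∀ k < n, i < k → c i k = 0)
    (h0 : ∀ i < n, 0 ≤ ∑ k ∈ Finset.range n, c i k * ∑ l ∈ Finset.range n, c i l * A k l)
    (h1 : ∀ i < n, ∀ j < n, j ≠ i →
      0 ≤ (∑ k ∈ Finset.range n, c i k * ∑ l ∈ Finset.range n, c i l * A k l) +
        (∑ k ∈ Finset.range n, c j k * ∑ l ∈ Finset.range n, c i l * A k l) * ((n - 1 : ℕ) : ℝ) ∧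
      0 ≤ (∑ k ∈ Finset.range n, c i k * ∑ l ∈ Finset.range n, c i l * A k l) -
        (∑ k ∈ Finset.range n, c j k * ∑ l ∈ Finset.range n, c i l * A k l) * ((n - 1 : ℕ) : ℝ))
    (u : ℕ → ℝ) : 0 ≤ ∑ k ∈ Finset.range n, ∑ l ∈ Finset.range n, u k * u l * A k l := by
  obtain ⟨y, hy⟩ := span_of_tri n c hd ht u
  set R : ℕ → ℕ → ℝ := fun i j => ∑ k ∈ Finset.range n, c j k * ∑ l ∈ Finset.range n, c i l * A k l with hR
  have hs : ∀ i < n, ∀ j < n, R i j = R j i := by
    intro i _ j _
    simp only [hR, Finset.mul_sum]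
    rw [Finset.sum_comm]
    apply Finset.sum_congr rfl; intro k hk
    apply Finset.sum_congr rfl; intro l hl
    rw [hA l (Finset.mem_range.1 hl) k (Finset.mem_range.1 hk)]; ring
  have hdd := dd_nonneg n R hs h0 h1 y
  have e : ∑ k ∈ Finset.range n, ∑ l ∈ Finset.range n, u k * u l * A k l =
      ∑ i ∈ Finset.range n, ∑ j ∈ Finset.range n, y i * y j * R i j := by
    have e1 : ∀ k ∈ Finset.range n, ∀ l ∈ Finset.range n, u k * u l * A k l =
        ∑ i ∈ Finset.range n, ∑ j ∈ Finset.range n, y i * y j * (c j k * (c i l * A k l)) := by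
      intro k hk l hl
      rw [hy k (Finset.mem_range.1 hk), hy l (Finset.mem_range.1 hl), mul_comm (∑ i ∈ _, _) (∑ i ∈ _, _),
        Finset.sum_mul_sum, Finset.sum_mul]
      apply Finset.sum_congr rfl; intro i _
      rw [Finset.sum_mul]
      apply Finset.sum_congr rfl; intro j _
      ring
    rw [Finset.sum_congr rfl fun k hk => Finset.sum_congr rfl fun l hl => e1 k hk l hl]
    simp only [hR, Finset.mul_sum]
    rw [Finset.sum_congr rfl fun k _ => Finset.sum_comm]
    rw [Finset.sum_comm]
    apply Finset.sum_congr rfl; intro i _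
    rw [Finset.sum_congr rfl fun k _ => Finset.sum_comm]
    rw [Finset.sum_comm]
  rw [e]; exact hdd

/-! ## values of expressions on a half open box -/
/-- parameter of the point `x` -/
noncomputable def tP (l : List Iv) (x : List ℝ) : ℕ → ℝ := fun i =>
  if i < l.length then ((l.getD i dI).q * x.getD i 0 - (l.getD i dI).a) /
    ((l.getD i dI).b - (l.getD i dI).q * x.getD i 0) else 0

noncomputable def pP (w : ℕ) (ns : List ℕ) : ℕ → ℤ := fun i => (2 : ℤ) ^ (w * (ns.take i).prod)

theorem tP_nonneg (l : List Iv) (x : List ℝ) (h : InO l x) (i : ℕ) : 0 ≤ tP l x i := by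
  unfold tP
  split_ifs with hi
  · exact div_nonneg (by linarith [(h.2 i hi).1]) (by linarith [(h.2 i hi).2])
  · exact le_rfl

theorem entry_RZ (l : List Iv) (prog : List Ex) (x : List ℝ) (hx : InO l x) (w : ℕ) (ns : List ℕ)
    (hn : ns.length = l.length) (e : Ex) :
    RZ (qF l 0) (nM l) (eval₂Hom (Int.castRingHom ℝ) (tP l x)) (pP w ns)
      (ann (l.length + prog.length) (pD prog l.length (un l.length)) e).2
      (sN (l.length + prog.length) (pS prog l.length (List.replicate l.length 1)) e)
      (hI (zQ ns l w) (runG ((zQ ns l w).map (fun n : ℕ => (n : ℤ))) (zA ns l w).reverse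
        (pA prog l.length (un l.length))) (ann (l.length + prog.length) (pD prog l.length (un l.length)) e).1)
      (den (run x prog) e) := by
  have hte : ∀ i < l.length, ((l.getD i dI).a : ℝ) + (l.getD i dI).b * tP l x i =
      (l.getD i dI).q * (1 + tP l x i) * x.getD i 0 := by
    intro i hi
    have h1 : ((l.getD i dI).b : ℝ) - (l.getD i dI).q * x.getD i 0 ≠ 0 := by linarith [(hx.2 i hi).2]
    simp only [tP, hi, if_true]
    field_simp
    ring
  have henv := base_env l (tP l x) x hx.1 hte
  have hrun := henv.run (ctx_ok l) prog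
  rw [un_length] at hrun
  have hmain := hrun.main (ctx_ok l) e
  rw [List.reverse_reverse, pD_length, un_length] at hmain
  refine ⟨_, ?_, hmain⟩
  have hQ : (zQ ns l w).map (fun n : ℕ => (n : ℤ)) = (qF l 0).map (eval (pP w ns)) :=
    zQ_eq ns l w 0 _ hn (fun i _ => by simp [pP])
  have hV : zA ns l w = (vF l 0).map (eval (pP w ns)) := zA_eq ns l w 0 _ hn (fun i _ => by simp [pP])
  rw [hI_eq, hQ, hV, ← List.map_reverse, ← map_runG, ← map_hG]

theorem RZ.scale {Q : List MP} {M : List ℕ} {ft : MP →+* ℝ} {P : ℕ → ℤ} (hC : CtxOK Q M) {d d' : List ℕ} {s : ℕ}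
    {z : ℤ} {x : ℝ} (h : RZ Q M ft P d s z x) (hd : ∀ i, d.getD i 0 ≤ d'.getD i 0) (Qn : List ℕ)
    (hQ : Qn.map (fun n : ℕ => (n : ℤ)) = Q.map (eval P)) :
    RZ Q M ft P d' s (hq Qn z (dsb d' d)) x := by
  obtain ⟨F, h1, h2⟩ := h
  refine ⟨F * qpG Q (dsb d' d), ?_, h2.scale hC hd⟩
  rw [map_mul, h1, hq_eq, hQ]
  congr 1
  exact map_qpG (eval P).toMonoidHom Q _

theorem RZ.nonneg (l : List Iv) (hl : okI l = true) (x : List ℝ) (hx : InO l x) (w : ℕ) (d : List ℕ) (s : ℕ)
    (z : ℤ) (y : ℝ)
    (h : RZ (qF l 0) (nM l) (eval₂Hom (Int.castRingHom ℝ) (tP l x)) (pP w (mkns l d)) d s z y)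
    (hw : 1 ≤ w) (hb : s * qpG (nM l) d < 2 ^ (w - 1)) (hdl : d.length ≤ l.length)
    (ht : tst z (off w (prN (mkns l d))) = true) : 0 ≤ y := by
  obtain ⟨F, h1, h2⟩ := h
  rw [prN_eq, ← h1] at ht
  have hok := okI_spec l hl
  have hcoef := coeff_core (mkns l d) w hw F _ h2.maj hb (fun i hi => by
      rw [mkns_length] at hi
      rw [mkns_getD l d i hi]
      exact Nat.lt_succ_of_le (h2.deg i)) (fun i hi => by
      rw [mkns_length] at hi
      have := h2.deg i
      rw [List.getD_eq_default _ _ (by omega)] at this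
      omega) ht
  have hpos : 0 < qpG ((qF l 0).map (eval₂Hom (Int.castRingHom ℝ) (tP l x))) d :=
    qpG_pos _ _ (qF_pos l 0 (tP l x) (tP_nonneg l x hx) (fun i hi => (hok i hi).2))
  have hF0 : 0 ≤ eval₂Hom (Int.castRingHom ℝ) (tP l x) F := by
    rw [coe_eval₂Hom, eval₂_eq]
    apply Finset.sum_nonneg
    intro m _
    apply mul_nonneg
    · simpa using hcoef m
    · exact Finset.prod_nonneg fun i _ => pow_nonneg (tP_nonneg l x hx i) _
  rw [h2.val] at hF0
  exact nonneg_of_mul_nonneg_right hF0 hpos

theorem sMx_le (n : ℕ) (S : List ℕ) (E : List Ex) : ∀ e ∈ E, sN n S e ≤ sMx n S E := by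
  induction E with
  | nil => intro e he; simp at he
  | cons a E ih =>
    intro e he
    simp only [sMx, nmax_eq]
    rcases List.mem_cons.1 he with rfl | h
    · exact le_max_left _ _
    · exact (ih e h).trans (le_max_right _ _)

theorem dmL_le (L : List (Ax × List ℕ)) : ∀ a ∈ L, ∀ i, a.2.getD i 0 ≤ (dmL L).getD i 0 := by
  induction L with
  | nil => intro a ha; simp at ha
  | cons b L ih =>
    intro a ha i
    simp only [dmL, dmx_getD]
    rcases List.mem_cons.1 ha with rfl | h
    · exact le_max_left _ _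
    · exact (ih a h i).trans (le_max_right _ _)

theorem vE_RZ {Q : List MP} {M : List ℕ} {ft : MP →+* ℝ} {P : ℕ → ℤ} (hC : CtxOK Q M) (Qn : List ℕ)
    (hQ : Qn.map (fun n : ℕ => (n : ℤ)) = Q.map (eval P)) (V : List ℤ) (d : List ℕ) (s : ℕ) (A : Ex → Ax × List ℕ)
    (r : Ex → ℝ) (E : List Ex)
    (h : ∀ e ∈ E, RZ Q M ft P (A e).2 s (hI Qn V (A e).1) (r e))
    (hd : ∀ e ∈ E, ∀ i, (A e).2.getD i 0 ≤ d.getD i 0) :
    List.Forall₂ (RZ Q M ft P d s) (vE Qn V (pad d (E.map A))) (E.map r) := by
  induction E with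
  | nil => exact List.Forall₂.nil
  | cons e E ih =>
    refine List.Forall₂.cons ?_ (ih (fun e he => h e (by simp [he])) (fun e he => hd e (by simp [he])))
    exact (h e (by simp)).scale hC (hd e (by simp)) Qn hQ

theorem ixm_length (n : ℕ) : (ixm n).length = n := by simp [ixm]

theorem ixm_getD (n k l : ℕ) (hk : k < n) (hl : l < n) :
    ((ixm n).getD k []).getD l 0 = if k ≤ l then ix n k l else ix n l k := by
  simp [ixm, hk, hl]

theorem ixm_symm (n k l : ℕ) (hk : k < n) (hl : l < n) :
    ((ixm n).getD k []).getD l 0 = ((ixm n).getD l []).getD k 0 := by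
  rw [ixm_getD n k l hk hl, ixm_getD n l k hl hk]
  rcases lt_trichotomy k l with h | h | h
  · rw [if_pos h.le, if_neg (by omega)]
  · subst h; rfl
  · rw [if_neg (by omega), if_pos h.le]

/-- the matrix -/
noncomputable def mat (R : List ℝ) (n : ℕ) (E : List Ex) (k l : ℕ) : ℝ :=
  den R (E.getD (((ixm n).getD k []).getD l 0) (.c 0))

theorem mat_symm (R : List ℝ) (n : ℕ) (E : List Ex) (k l : ℕ) (hk : k < n) (hl : l < n) :
    mat R n E k l = mat R n E l k := by
  unfold mat; rw [ixm_symm n k l hk hl]

theorem getD_map' {α β : Type*} (f : α → β) (L : List α) (k : ℕ) (hk : k < L.length) (z : α) (z' : β) :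
    (L.map f).getD k z' = f (L.getD k z) := by
  rw [List.getD_eq_getElem _ _ (by simpa using hk), List.getElem_map, List.getD_eq_getElem _ _ hk]

theorem row_eq (R : List ℝ) (n : ℕ) (E : List Ex) (c : List ℤ) (hc : c.length = n) (k : ℕ) (hk : k < n) :
    (((ixm n).map (List.map fun i => (E.map (den R)).getD i 0)).map (dG c)).getD k 0 =
      ∑ l ∈ Finset.range n, (c.getD l 0 : ℝ) * mat R n E k l := by
  have h1 : (((ixm n).map (List.map fun i => (E.map (den R)).getD i 0)).map (dG c)).getD k 0 =
      dG c (((ixm n).getD k []).map fun i => (E.map (den R)).getD i 0) := by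
    rw [getD_map' (dG c) _ k (by simp [ixm_length, hk]) [], getD_map' _ _ k (by rw [ixm_length]; exact hk) []]
  have hrl : ((ixm n).getD k []).length = n := by simp [ixm, hk]
  rw [h1, dG_sum n c _ hc (by rw [List.length_map]; exact hrl)]
  apply Finset.sum_congr rfl
  intro l hl
  rw [Finset.mem_range] at hl
  congr 1
  have h2 : (((ixm n).getD k []).map fun i => (E.map (den R)).getD i 0).getD l 0 =
      (E.map (den R)).getD (((ixm n).getD k []).getD l 0) 0 :=
    getD_map' _ _ l (by rw [hrl]; exact hl) 0 0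
  rw [h2]
  unfold mat
  simp only [List.getD_eq_getElem?_getD, List.getElem?_map]
  cases E[(((ixm n)[k]?.getD [])[l]?.getD 0)]? <;> simp [den]

theorem leafP_sound (n : ℕ) (prog : List Ex) (E : List Ex) (C : List (List ℤ)) (l : List Iv) (hl : okI l = true)
    (h : leafP n (ixm n) (dmL (E.map (ann (l.length + prog.length) (pD prog l.length (un l.length)))))
      (sMx (l.length + prog.length) (pS prog l.length (List.replicate l.length 1)) E)
      (pA prog l.length (un l.length))
      (pad (dmL (E.map (ann (l.length + prog.length) (pD prog l.length (un l.length)))))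
        (E.map (ann (l.length + prog.length) (pD prog l.length (un l.length))))) C l = true)
    (x : List ℝ) (hx : InO l x) (u : ℕ → ℝ) :
    0 ≤ ∑ k ∈ Finset.range n, ∑ j ∈ Finset.range n, u k * u j * mat (run x prog) n E k j := by
  set A := ann (l.length + prog.length) (pD prog l.length (un l.length)) with hA
  set d := dmL (E.map A) with hd
  set S := sMx (l.length + prog.length) (pS prog l.length (List.replicate l.length 1)) E with hS
  set as := pA prog l.length (un l.length) with has
  set N := n * (sAb C * sAb C * S) * qpG (nM l) d with hN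
  set w := Nat.log2 N + 2 with hw
  set ns := mkns l d with hns
  have hnl : ns.length = l.length := mkns_length l d
  have hchk : leafP n (ixm n) d S as (pad d (E.map A)) C l =
      (triC n C && (Nat.ble d.length l.length && rowsT (n - 1) (off w (prN ns))
        (pick2 (vE (zQ ns l w) (runG ((zQ ns l w).map (fun n : ℕ => (n : ℤ))) (zA ns l w).reverse as)
          (pad d (E.map A))) (ixm n)) C C 0)) := by
    have e1 : leafP n (ixm n) d S as (pad d (E.map A)) C l =
      and (triC n C) (and (Nat.ble d.length l.length)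
    (fN (Nat.log2 (n * (sAb C * sAb C * S) * qp (nM l) d) + 2) (fun w =>
     fN (off w (prN (mkns l d))) (fun o =>
       lQ (mkns l d) l w (fun Q => lA (mkns l d) l w [] (fun V => rI Q as V (fun V =>
         fLI (vE Q V (pad d (E.map A))) (fun W => rowsT (n - 1) o (pick2 W (ixm n)) C C 0)))))))) := rfl
    rw [e1, fN_eq, qp_eq, ← hN, ← hw, fN_eq, lQ_eq, lA_eq, rI_eq, fLI_eq, ← hns, List.append_nil]
  rw [hchk, Bool.and_eq_true, Bool.and_eq_true] at h
  obtain ⟨htri, hdl, hrows⟩ := h
  rw [Nat.ble_eq] at hdl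
  simp only [triC, Bool.and_eq_true, decide_eq_true_eq, List.all_eq_true, List.mem_range, Bool.or_eq_true] at htri
  obtain ⟨hCl, hCi⟩ := htri
  have hrs := rowsT_spec _ _ _ _ _ _ hrows
  -- relation for the entries
  have hQ : (zQ ns l w).map (fun n : ℕ => (n : ℤ)) = (qF l 0).map (eval (pP w ns)) :=
    zQ_eq ns l w 0 _ hnl (fun i _ => by simp [pP])
  have hent := vE_RZ (ctx_ok l) (zQ ns l w) hQ
    (runG ((zQ ns l w).map (fun n : ℕ => (n : ℤ))) (zA ns l w).reverse as) d S A (den (run x prog)) E
    (fun e he => (entry_RZ l prog x hx w ns hnl e).mono (sMx_le _ _ E e he))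
    (fun e he => dmL_le (E.map A) (A e) (List.mem_map_of_mem he))
  set W := vE (zQ ns l w) (runG ((zQ ns l w).map (fun n : ℕ => (n : ℤ))) (zA ns l w).reverse as)
    (pad d (E.map A)) with hW
  have hM := RZ.picks hent (ixm n)
  rw [pick2_eq] at hrs
  set Mz := (ixm n).map (List.map fun i => W.getD i 0) with hMz
  set Mx := (ixm n).map (List.map fun i => (E.map (den (run x prog))).getD i 0) with hMx
  -- sums of absolute values
  have hl1 : ∀ i < n, l1 (C.getD i []) ≤ sAb C := by
    intro i hi
    have : ∀ (C : List (List ℤ)) (i : ℕ), i < C.length → l1 (C.getD i []) ≤ sAb C := by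
      intro C
      induction C with
      | nil => intro i hi; simp at hi
      | cons a C ih =>
        intro i hi
        cases i with
        | zero => simp only [List.getD_cons_zero, sAb, l1]; omega
        | succ i =>
          have := ih i (by simpa using hi)
          simp only [List.getD_cons_succ, sAb]; omega
    exact this C i (by rw [hCl]; exact hi)
  -- products
  have hR : ∀ i < n, ∀ j < n, RZ (qF l 0) (nM l) (eval₂Hom (Int.castRingHom ℝ) (tP l x)) (pP w ns) d
      (sAb C * (sAb C * S))
      ((C.map fun a => dG a (Mz.map (dG (C.getD i [])))).getD j 0)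
      (∑ k ∈ Finset.range n, ((C.getD j []).getD k 0 : ℝ) *
        ∑ m ∈ Finset.range n, ((C.getD i []).getD m 0 : ℝ) * mat (run x prog) n E k m) := by
    intro i hi j hj
    have h1 := RZ.dot (C.getD j []) (RZ.mvec (C.getD i []) hM)
    have e1 : (C.map fun a => dG a (Mz.map (dG (C.getD i [])))).getD j 0 =
        dG (C.getD j []) (Mz.map (dG (C.getD i []))) :=
      getD_map' (fun a => dG a (Mz.map (dG (C.getD i [])))) C j (by rw [hCl]; exact hj) [] 0
    have e2 : dG (C.getD j []) (Mx.map (dG (C.getD i []))) =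
        ∑ k ∈ Finset.range n, ((C.getD j []).getD k 0 : ℝ) *
        ∑ m ∈ Finset.range n, ((C.getD i []).getD m 0 : ℝ) * mat (run x prog) n E k m := by
      rw [dG_sum n _ _ (hCi j hj).1.1 (by simp [hMx, ixm_length])]
      apply Finset.sum_congr rfl
      intro k hk
      rw [hMx, row_eq (run x prog) n E _ (hCi i hi).1.1 k (Finset.mem_range.1 hk)]
    rw [e1, ← e2]
    refine h1.mono ?_
    exact Nat.mul_le_mul (hl1 j hj) (Nat.mul_le_mul_right _ (hl1 i hi))
  have hb : n * (sAb C * sAb C * S) * qpG (nM l) d < 2 ^ (w - 1) := by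
    rw [← hN, hw]
    show N < 2 ^ (Nat.log2 N + 1)
    exact Nat.lt_log2_self
  have hnat : ∀ z : ℤ, z * ((n - 1 : ℕ) : ℤ) = ((n - 1 : ℕ) : ℤ) * z := fun z => mul_comm _ _
  refine quad_of_congr n (mat (run x prog) n E) (fun k hk j hj => mat_symm _ n E k j hk hj)
    (fun i k => ((C.getD i []).getD k 0 : ℝ)) ?_ ?_ ?_ ?_ u
  · intro i hi
    exact_mod_cast (hCi i hi).1.2
  · intro i hi k hk hik
    rcases (hCi i hi).2 k hk with h1 | h1
    · omega
    · rw [h1]; simp
  · intro i hi
    have h1 := (hrs i (by rw [hCl]; exact hi)).1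
    rw [zero_add] at h1
    refine RZ.nonneg l hl x hx w d _ _ _ (hR i hi i hi) (by omega) ?_ hdl h1
    refine lt_of_le_of_lt (Nat.mul_le_mul_right _ ?_) hb
    calc sAb C * (sAb C * S) = sAb C * sAb C * S := by ring
      _ ≤ n * (sAb C * sAb C * S) := Nat.le_mul_of_pos_left _ (by omega)
  · intro i hi j hj hji
    have h1 := (hrs i (by rw [hCl]; exact hi)).2 j (by rw [hCl]; exact hj) (by rw [zero_add]; exact hji)
    rw [zero_add] at h1
    have hs : (sAb C * (sAb C * S) + (((n - 1 : ℕ) : ℤ).natAbs * (sAb C * (sAb C * S)))) * qpG (nM l) d <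
        2 ^ (w - 1) := by
      refine lt_of_le_of_lt (Nat.mul_le_mul_right _ ?_) hb
      rw [Int.natAbs_natCast]
      have : n = 1 + (n - 1) := by omega
      conv_rhs => rw [this]
      have e : (1 + (n - 1)) * (sAb C * sAb C * S) = sAb C * (sAb C * S) + (n - 1) * (sAb C * (sAb C * S)) := by ring
      rw [e]
    constructor
    · have h2 := (hR i hi i hi).add ((hR i hi j hj).smul ((n - 1 : ℕ) : ℤ))
      rw [← hnat] at h2
      have h3 := RZ.nonneg l hl x hx w d _ _ _ h2 (by omega) hs hdl h1.1
      push_cast at h3 ⊢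
      linarith
    · have h2 := (hR i hi i hi).sub ((hR i hi j hj).smul ((n - 1 : ℕ) : ℤ))
      rw [← hnat] at h2
      have h3 := RZ.nonneg l hl x hx w d _ _ _ h2 (by omega) hs hdl h1.2
      push_cast at h3 ⊢
      linarith

theorem closed_gen (l : List Iv) (hl : okI l = true) (f : List ℝ → ℝ)
    (hf : ∀ V, CL V → Continuous fun s => f (V s)) (h : ∀ x, InO l x → 0 ≤ f x) (x : List ℝ) (hx : InB l x) :
    0 ≤ f x := by
  have hc : Continuous fun s => f (xl l x s) := hf _ (xl_CL l x)
  have h0 : f (xl l x 0) = f x := by rw [xl_zero l x hx]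
  rw [← h0]
  have ht : Filter.Tendsto (fun s => f (xl l x s)) (nhdsWithin 0 (Set.Ioi 0)) (nhds (f (xl l x 0))) :=
    hc.continuousWithinAt
  refine ge_of_tendsto ht ?_
  filter_upwards [Ioc_mem_nhdsGT (zero_lt_one' ℝ)] with s hs
  exact h _ (xl_mem l hl x hx s hs.1 hs.2)

theorem chkTP_sound (k n : ℕ) (prog : List Ex) (E : List Ex) (t : TP) (l : List Iv) (hk : l.length = k)
    (hl : okI l = true)
    (h : chkTP n (ixm n) (dmL (E.map (ann (k + prog.length) (pD prog k (un k)))))
      (sMx (k + prog.length) (pS prog k (List.replicate k 1)) E) (pA prog k (un k))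
      (pad (dmL (E.map (ann (k + prog.length) (pD prog k (un k))))) (E.map (ann (k + prog.length) (pD prog k (un k)))))
      t l = true) (x : List ℝ) (hx : InB l x) (u : ℕ → ℝ) :
    0 ≤ ∑ i ∈ Finset.range n, ∑ j ∈ Finset.range n, u i * u j * mat (run x prog) n E i j := by
  induction t generalizing l with
  | l C =>
    subst hk
    refine closed_gen l hl (fun x => ∑ i ∈ Finset.range n, ∑ j ∈ Finset.range n, u i * u j *
      mat (run x prog) n E i j) (fun V hV => ?_) (fun y hy => leafP_sound n prog E C l hl h y hy u) x hx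
    refine continuous_finsetSum _ fun i _ => continuous_finsetSum _ fun j _ => ?_
    exact continuous_const.mul ((hV.run prog).den _)
  | s i a b iha ihb =>
    have e1 : chkTP n (ixm n) (dmL (E.map (ann (k + prog.length) (pD prog k (un k)))))
      (sMx (k + prog.length) (pS prog k (List.replicate k 1)) E) (pA prog k (un k))
      (pad (dmL (E.map (ann (k + prog.length) (pD prog k (un k))))) (E.map (ann (k + prog.length) (pD prog k (un k)))))
      (.s i a b) l = and
      (chkTP n (ixm n) (dmL (E.map (ann (k + prog.length) (pD prog k (un k)))))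
      (sMx (k + prog.length) (pS prog k (List.replicate k 1)) E) (pA prog k (un k))
      (pad (dmL (E.map (ann (k + prog.length) (pD prog k (un k))))) (E.map (ann (k + prog.length) (pD prog k (un k)))))
      a (md Iv.lo i l))
      (chkTP n (ixm n) (dmL (E.map (ann (k + prog.length) (pD prog k (un k)))))
      (sMx (k + prog.length) (pS prog k (List.replicate k 1)) E) (pA prog k (un k))
      (pad (dmL (E.map (ann (k + prog.length) (pD prog k (un k))))) (E.map (ann (k + prog.length) (pD prog k (un k)))))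
      b (md Iv.hi i l)) := rfl
    rw [e1, Bool.and_eq_true] at h
    rcases md_cover i l x hx with hc | hc
    · exact iha (md Iv.lo i l) (by rw [md_length, hk]) (md_ok_lo i l hl) h.1 hc
    · exact ihb (md Iv.hi i l) (by rw [md_length, hk]) (md_ok_hi i l hl) h.2 hc

/-- MAIN THEOREM for matrices: `E` = upper triangle (rows) of an `n × n` matrix, `mat R n E i j` its entries -/
theorem box_psd (prog : List Ex) (n : ℕ) (E : List Ex) (t : TP) (l : List Iv) (h : chkP prog n E t l = true)
    (x : List ℝ) (hx : InB l x) (u : ℕ → ℝ) :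
    0 ≤ ∑ i ∈ Finset.range n, ∑ j ∈ Finset.range n, u i * u j * mat (run x prog) n E i j := by
  unfold chkP at h
  rw [Bool.and_eq_true] at h
  obtain ⟨h1, h2⟩ := h
  unfold chkP1 at h2
  simp only [fLL_eq, fL_eq, fLA_eq, fLP_eq, fN_eq] at h2
  exact chkTP_sound l.length n prog E t l rfl h1 h2 x hx u

end Pool.Agent.FPX.BXE
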