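import Pool.Agent.FPX.BXP
/-!
BXV: assembling certificates on several boxes (one kernel check per sub-box, in different modules).
-/
namespace Pool.Agent.FPX.BXE

/-- top part of a bisection tree -/
inductive Cv where
  | o
  | s (i : Nat) (a b : Cv)

def cvL : Cv → List Iv → List (List Iv)
  | .o, b => [b]
  | .s i x y, b => cvL x (md Iv.lo i b) ++ cvL y (md Iv.hi i b)

theorem cover (c : Cv) (l : List Iv) (P : List ℝ → Prop) (h : ∀ b ∈ cvL c l, ∀ x, InB b x → P x) :
    ∀ x, InB l x → P x := by
  induction c generalizing l with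
  | o => exact h l (by simp [cvL])
  | s i a b iha ihb =>
    intro x hx
    rcases md_cover i l x hx with hc | hc
    · exact iha (md Iv.lo i l) (fun b hb => h b (by simp [cvL, hb])) x hc
    · exact ihb (md Iv.hi i l) (fun b hb => h b (by simp [cvL, hb])) x hc

/-- goal nonnegative on the box (with side conditions) -/
def NN (prog : List Ex) (goal : Ex) (hyps : List Ex) (l : List Iv) : Prop :=
  ∀ x, InB l x → (∀ e ∈ hyps, 0 ≤ den (run x prog) e) → 0 ≤ den (run x prog) goal

theorem NN_of (prog : List Ex) (goal : Ex) (hyps : List Ex) (t : Tr) (l : List Iv)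
    (h : chk prog goal hyps t l = true) : NN prog goal hyps l :=
  fun x hx hh => box_nonneg prog goal hyps t l h x hx hh

theorem NN_cover (c : Cv) (prog : List Ex) (goal : Ex) (hyps : List Ex) (l : List Iv)
    (h : ∀ b ∈ cvL c l, NN prog goal hyps b) : NN prog goal hyps l :=
  cover c l (fun x => (∀ e ∈ hyps, 0 ≤ den (run x prog) e) → 0 ≤ den (run x prog) goal) h

/-- matrix positive semidefinite on the box -/
def PS (prog : List Ex) (n : ℕ) (E : List Ex) (l : List Iv) : Prop :=
  ∀ x, InB l x → ∀ u : ℕ → ℝ, 0 ≤ ∑ i ∈ Finset.range n, ∑ j ∈ Finset.range n, u i * u j * mat (run x prog) n E i j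

theorem PS_of (prog : List Ex) (n : ℕ) (E : List Ex) (t : TP) (l : List Iv)
    (h : chkP prog n E t l = true) : PS prog n E l :=
  fun x hx u => box_psd prog n E t l h x hx u

theorem PS_cover (c : Cv) (prog : List Ex) (n : ℕ) (E : List Ex) (l : List Iv)
    (h : ∀ b ∈ cvL c l, PS prog n E b) : PS prog n E l :=
  cover c l (fun x => ∀ u : ℕ → ℝ, 0 ≤ ∑ i ∈ Finset.range n, ∑ j ∈ Finset.range n,
    u i * u j * mat (run x prog) n E i j) h

end Pool.Agent.FPX.BXE
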