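import Mathlib

/-
C2A (helper52): algebraic part of the one mode certificate for the map F54. Values of 1-forms on two
tangent vectors are written `v1 v2` (the differential of the map, complex, outward frame) and `D1 D2`
(the covariant differential of the third moment `c`); `sg = (3t/4) c`, `x = (3t/4) c + (5t/4) c5`,
`t` the tangent of the colatitude. The first and the third Fourier moments of the gradient are
`v - sg conj v` and `D - x conj v + sg v`. The closed form with coefficients `W, w, s` is at most the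
sum of the squares of the moments as soon as a Hermitian 2 x 2 matrix is nonnegative.
-/

open Complex

noncomputable section

namespace Pool.Agent.FPX.C2A

/-- the value of the closed form `W J + d((w/2) Im(conj c Dc) + (s/2) |c|^2 v_2)` on a pair of vectors;
`ka = 3w/2 - (s' + s cot r)/2`, `ep = (w'/2 + s)/2`, `em = (w'/2 - s)/2` -/
def Om (W w ka ep em : ℝ) (c v1 v2 D1 D2 : ℂ) : ℝ :=
  (W - ka * normSq c) * (v1.re * v2.im - v1.im * v2.re) + w * (D1.re * D2.im - D1.im * D2.re)
    + (ep + em) * (v1.re * (c.re * D2.im - c.im * D2.re) - v2.re * (c.re * D1.im - c.im * D1.re))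
    + (ep - em) * ((c.re * D1.re + c.im * D1.im) * v2.im - (c.re * D2.re + c.im * D2.im) * v1.im)

/-- half of the sum of the squares of the first and third moments -/
def Par (sg x v1 v2 D1 D2 : ℂ) : ℝ :=
  (normSq (v1 - sg * (starRingEnd ℂ) v1) + normSq (v2 - sg * (starRingEnd ℂ) v2)
    + normSq (D1 - x * (starRingEnd ℂ) v1 + sg * v1)
    + normSq (D2 - x * (starRingEnd ℂ) v2 + sg * v2)) / 2

/-- first diagonal entry -/
def m11 (W w ka ep em : ℝ) (sg x c : ℂ) : ℝ :=
  1 - W + 2 * normSq sg + normSq x + ka * normSq c - normSq (sg - ep * c) / (1 - w)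
    - normSq (x - em * c) / (1 + w)

/-- second diagonal entry -/
def m22 (W w ka ep em : ℝ) (sg x c : ℂ) : ℝ :=
  1 + W + 2 * normSq sg + normSq x - ka * normSq c - normSq (x + em * c) / (1 - w)
    - normSq (sg + ep * c) / (1 + w)

/-- off diagonal entry -/
def m12 (w ep em : ℝ) (sg x c : ℂ) : ℂ :=
  -2 * sg - 2 * (starRingEnd ℂ) sg * x
    + (starRingEnd ℂ) (sg - ep * c) * (x + em * c) / ((1 - w : ℝ) : ℂ)
    + (x - em * c) * (starRingEnd ℂ) (sg + ep * c) / ((1 + w : ℝ) : ℂ)

/-- the first complex coordinate of the differential -/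
private def ca (v1 v2 : ℂ) : ℂ := ⟨(v1.re + v2.im) / 2, (v2.re - v1.im) / 2⟩

/-- the second complex coordinate of the differential -/
private def cb (v1 v2 : ℂ) : ℂ := ⟨(v1.re - v2.im) / 2, (v2.re + v1.im) / 2⟩

private theorem key (W w ka ep em : ℝ) (sg x c v1 v2 D1 D2 : ℂ) :
    Par sg x v1 v2 D1 D2 - Om W w ka ep em c v1 v2 D1 D2 =
    (1 - w) * normSq (ca D1 D2) + 2 * ((starRingEnd ℂ) (ca D1 D2) *
      ((starRingEnd ℂ) (sg - ep * c) * ca v1 v2 - (starRingEnd ℂ) (x + em * c) * cb v1 v2)).re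
    + ((1 + w) * normSq (cb D1 D2) + 2 * ((starRingEnd ℂ) (cb D1 D2) *
      (-(x - em * c) * ca v1 v2 + (sg + ep * c) * cb v1 v2)).re)
    + (1 - W + 2 * normSq sg + normSq x + ka * normSq c) * normSq (ca v1 v2)
    + (1 + W + 2 * normSq sg + normSq x - ka * normSq c) * normSq (cb v1 v2)
    + 2 * ((-2 * sg - 2 * (starRingEnd ℂ) sg * x) * ca v1 v2 * (starRingEnd ℂ) (cb v1 v2)).re := by
  unfold Par Om ca cb
  simp only [Complex.normSq_apply, Complex.sub_re, Complex.sub_im, Complex.add_re, Complex.add_im,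
    Complex.mul_re, Complex.mul_im, Complex.conj_re, Complex.conj_im, Complex.neg_re, Complex.neg_im,
    Complex.ofReal_re, Complex.ofReal_im, Complex.re_ofNat, Complex.im_ofNat]
  ring

private theorem sqp {w : ℝ} (hw : 0 < w) (p z : ℂ) :
    -(normSq z / w) ≤ w * normSq p + 2 * ((starRingEnd ℂ) p * z).re := by
  have h : w * normSq p + 2 * ((starRingEnd ℂ) p * z).re + normSq z / w =
      normSq ((w : ℂ) * p + z) / w := by
    simp only [Complex.normSq_apply, Complex.add_re, Complex.add_im, Complex.mul_re, Complex.mul_im,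
      Complex.conj_re, Complex.conj_im, Complex.ofReal_re, Complex.ofReal_im]
    field_simp
    ring
  have h1 : 0 ≤ normSq ((w : ℂ) * p + z) / w := div_nonneg (Complex.normSq_nonneg _) hw.le
  linarith

private theorem psd {A B : ℝ} {C a b : ℂ} (hA : 0 ≤ A) (hB : 0 ≤ B) (h : normSq C ≤ A * B) :
    0 ≤ A * normSq a + B * normSq b + 2 * (C * a * (starRingEnd ℂ) b).re := by
  have h1 : |(C * a * (starRingEnd ℂ) b).re| ≤ ‖C‖ * ‖a‖ * ‖b‖ := by
    refine (Complex.abs_re_le_norm _).trans (le_of_eq ?_)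
    rw [norm_mul, norm_mul, Complex.norm_conj]
  have h2 : ‖C‖ ≤ √A * √B := by
    rw [← Real.sqrt_mul hA]
    refine Real.le_sqrt_of_sq_le ?_
    rwa [← Complex.normSq_eq_norm_sq]
  have h3 : ‖C‖ * ‖a‖ * ‖b‖ ≤ √A * √B * ‖a‖ * ‖b‖ := by gcongr
  have e1 : √A ^ 2 = A := Real.sq_sqrt hA
  have e2 : √B ^ 2 = B := Real.sq_sqrt hB
  rw [Complex.normSq_eq_norm_sq, Complex.normSq_eq_norm_sq]
  nlinarith [sq_nonneg (√A * ‖a‖ - √B * ‖b‖), neg_abs_le (C * a * (starRingEnd ℂ) b).re]

/-- the certificate -/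
theorem cert {W w ka ep em : ℝ} {sg x c : ℂ} (hw : |w| < 1) (h1 : 0 ≤ m11 W w ka ep em sg x c)
    (h2 : 0 ≤ m22 W w ka ep em sg x c)
    (h3 : normSq (m12 w ep em sg x c) ≤ m11 W w ka ep em sg x c * m22 W w ka ep em sg x c)
    (v1 v2 D1 D2 : ℂ) : Om W w ka ep em c v1 v2 D1 D2 ≤ Par sg x v1 v2 D1 D2 := by
  obtain ⟨hw1, hw2⟩ := abs_lt.1 hw
  have a1 : 0 < 1 - w := by linarith
  have a2 : 0 < 1 + w := by linarith
  have k := key W w ka ep em sg x c v1 v2 D1 D2
  have k1 := sqp a1 (ca D1 D2)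
    ((starRingEnd ℂ) (sg - ep * c) * ca v1 v2 - (starRingEnd ℂ) (x + em * c) * cb v1 v2)
  have k2 := sqp a2 (cb D1 D2) (-(x - em * c) * ca v1 v2 + (sg + ep * c) * cb v1 v2)
  have k3 := psd (a := ca v1 v2) (b := cb v1 v2) h1 h2 h3
  have e : m11 W w ka ep em sg x c * normSq (ca v1 v2) + m22 W w ka ep em sg x c * normSq (cb v1 v2)
      + 2 * (m12 w ep em sg x c * ca v1 v2 * (starRingEnd ℂ) (cb v1 v2)).re =
      (1 - W + 2 * normSq sg + normSq x + ka * normSq c) * normSq (ca v1 v2)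
      + (1 + W + 2 * normSq sg + normSq x - ka * normSq c) * normSq (cb v1 v2)
      + 2 * ((-2 * sg - 2 * (starRingEnd ℂ) sg * x) * ca v1 v2 * (starRingEnd ℂ) (cb v1 v2)).re
      - normSq ((starRingEnd ℂ) (sg - ep * c) * ca v1 v2 -
        (starRingEnd ℂ) (x + em * c) * cb v1 v2) / (1 - w)
      - normSq (-(x - em * c) * ca v1 v2 + (sg + ep * c) * cb v1 v2) / (1 + w) := by
    unfold m11 m22 m12
    generalize ca v1 v2 = a
    generalize cb v1 v2 = b
    have d1 : ∀ z : ℂ, z / ((1 - w : ℝ) : ℂ) = ⟨z.re / (1 - w), z.im / (1 - w)⟩ := fun z => by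
      apply Complex.ext
      · rw [Complex.div_ofReal_re]
      · rw [Complex.div_ofReal_im]
    have d2 : ∀ z : ℂ, z / ((1 + w : ℝ) : ℂ) = ⟨z.re / (1 + w), z.im / (1 + w)⟩ := fun z => by
      apply Complex.ext
      · rw [Complex.div_ofReal_re]
      · rw [Complex.div_ofReal_im]
    rw [d1, d2]
    simp only [Complex.normSq_apply, Complex.sub_re, Complex.sub_im, Complex.add_re, Complex.add_im,
      Complex.mul_re, Complex.mul_im, Complex.conj_re, Complex.conj_im, Complex.neg_re,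
      Complex.neg_im, Complex.ofReal_re, Complex.ofReal_im, Complex.re_ofNat, Complex.im_ofNat]
    ring
  linarith

end Pool.Agent.FPX.C2A
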