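import Pool.Agent.FPX.SQU
import Pool.Agent.FPX.C2a
import Pool.Agent.FPX.C2b
import Pool.Agent.FPX.C2c
import Pool.Agent.FPX.C2d
import Pool.Agent.FPX.C2e
import Pool.Agent.FPX.C2f
import Pool.Agent.FPX.C2g
import Pool.Agent.FPX.C2h

/-
C2F (helper88; data of the classes: helper79): lower bound of the area from eight classes of states.
-/

set_option autoImplicit false

open MeasureTheory Set Filter Measure Topology Manifold
open scoped ENNReal NNReal ContDiff

noncomputable section

namespace Pool.Agent.FPX.C2F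

open Pool.Agent.FPX.SQX Pool.Agent.FPX.SQU

/-- the classes: `s`, the constant of the certificate, the end of the latitudes where it is used -/
def cls : List Cl :=
  [⟨1 / 1, 207 / 5000, 28 / 100⟩,
   ⟨24 / 25, 377 / 10000, 41461 / 100000⟩,
   ⟨91 / 100, 21 / 625, 52679 / 100000⟩,
   ⟨17 / 20, 73 / 2500, 63805 / 100000⟩,
   ⟨77 / 100, 231 / 10000, 72381 / 100000⟩,
   ⟨69 / 100, 91 / 5000, 83517 / 100000⟩,
   ⟨11 / 20, 23 / 2000, 92904 / 100000⟩,
   ⟨37 / 100, 27 / 5000, 1⟩]

theorem cls_ok : chk cls (1 / 1000000) (9 / 200) (93 / 100) = true := by decide +kernel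

theorem val_ok : (2427 / 2500 : ℚ) ≤ valQ cls (1 / 1000000) := by decide +kernel

theorem certs (j : ℕ) (hj : j < cls.length) : CertW ((cl cls j).s : ℝ) ((cl cls j).om : ℝ) ((9 / 200 : ℚ) : ℝ) := by
  have h8 : cls.length = 8 := rfl
  rw [h8] at hj
  interval_cases j
  · exact C2a.cert
  · exact C2b.cert
  · exact C2c.cert
  · exact C2d.cert
  · exact C2e.cert
  · exact C2f.cert
  · exact C2g.cert
  · exact C2h.cert

open Pool.Agent.H74.Surf in
/-- **area of an isometric filling** -/
theorem area_ge (M : Type) [MetricSpace M] [CompactSpace M] [ChartedSpace (EuclideanHalfSpace 2) M]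
    [RiemannianSpace (𝓡∂ 2) M] (horient : H74.Surf.Orientable (𝓡∂ 2) M)
    (φ : H74.Surf.S1 → M) (hφ : H74.Surf.IsometricFilling (𝓡∂ 2) φ) :
    ENNReal.ofReal (2 * Real.pi * ((2427 / 2500 : ℚ) : ℝ)) ≤ H74.Surf.area M :=
  SQU.surf cls_ok val_ok certs M horient φ hφ

open Pool.Agent.H74.Surf in
/-- the same with the decimal constant -/
theorem area_lower (M : Type) [MetricSpace M] [CompactSpace M] [ChartedSpace (EuclideanHalfSpace 2) M]
    [RiemannianSpace (𝓡∂ 2) M] (horient : H74.Surf.Orientable (𝓡∂ 2) M)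
    (φ : H74.Surf.S1 → M) (hφ : H74.Surf.IsometricFilling (𝓡∂ 2) φ) :
    ENNReal.ofReal (1.9416 * Real.pi) ≤ H74.Surf.area M := by
  refine le_trans (ENNReal.ofReal_le_ofReal (le_of_eq ?_)) (area_ge M horient φ hφ)
  push_cast
  ring

end Pool.Agent.FPX.C2F
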