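import Mathlib
import Pool.Agent.FPX.OMR

/-
C2Z (helper11): the area inequality with the zero form. If `|mean (x E³)| ≤ κ s` for all states, then
`2π (1 - 3/2 κ²) ≤ vol` for every surface.
-/

open MeasureTheory Set Filter Topology Complex
open scoped ENNReal NNReal ContDiff ComplexConjugate

noncomputable section

namespace Pool.Agent.FPX.C2Z

open Pool.Agent.FPX Pool.Agent.FPX.UMP Pool.Agent.FPX.UMQ Pool.Agent.FPX.UXA Pool.Agent.EWD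
open Pool.Agent.FPX.F54 (X1 X2 X_lt sF)
open Pool.Agent.FPX.OMS (rF cF)
open Pool.Agent.FPX.OM7
open Pool.Agent.FPX.OMR

/-- the zero form -/
def F0 : Cof := ⟨fun _ => 0, fun _ => 0, fun _ => 0, fun _ => 0, fun _ => 0, fun _ => 0, fun _ => 0⟩

theorem F0_Sm : F0.Sm := by
  constructor <;> exact contDiffOn_const

theorem F0_Bo : F0.Bo := by
  constructor <;> simp [F0]

/-- the weight -/
def Wk (κ c : ℝ) : ℝ := (1 - 3 / 4 * κ ^ 2 * (2 - c - c ^ 2)) / (1 + c)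

theorem Wk_zero (κ : ℝ) : Wk κ 0 = 1 - 3 / 2 * κ ^ 2 := by
  unfold Wk
  ring

theorem Wk_deriv (κ : ℝ) {c : ℝ} (hc : 0 ≤ c) : HasDerivAt (Wk κ)
    ((3 / 4 * κ ^ 2 * (1 + 2 * c) * (1 + c) - (1 - 3 / 4 * κ ^ 2 * (2 - c - c ^ 2))) / (1 + c) ^ 2) c := by
  have h1 : HasDerivAt (fun c : ℝ => 1 - 3 / 4 * κ ^ 2 * (2 - c - c ^ 2)) (3 / 4 * κ ^ 2 * (1 + 2 * c)) c := by
    have := (((hasDerivAt_id c).const_sub 2).sub (hasDerivAt_pow 2 c)).const_mul (3 / 4 * κ ^ 2)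
    refine (this.const_sub 1).congr_deriv ?_
    simp
    ring
  have h2 : HasDerivAt (fun c : ℝ => 1 + c) 1 c := (hasDerivAt_id c).const_add 1
  refine (h1.div h2 (by positivity)).congr_deriv ?_
  ring

theorem Wk_val (κ : ℝ) {c : ℝ} (hc : 0 ≤ c) :
    2 * c * Wk κ c - (1 - c ^ 2) * deriv (Wk κ) c = 1 - 9 / 4 * κ ^ 2 * (1 - c ^ 2) := by
  rw [(Wk_deriv κ hc).deriv]
  unfold Wk
  have : (1 + c) ≠ 0 := by positivity
  field_simp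
  ring

theorem Wk_cont (κ : ℝ) : ContinuousOn (Wk κ) (Ici 0) := by
  unfold Wk
  refine ContinuousOn.div (by fun_prop) (by fun_prop) fun c hc => ?_
  have : (0 : ℝ) ≤ c := hc
  positivity

theorem Wk_cd (κ : ℝ) : ContDiffOn ℝ 1 (Wk κ) (Ioi 0) := by
  unfold Wk
  refine ContDiffOn.div (by fun_prop) (by fun_prop) fun c hc => ?_
  have : (0 : ℝ) < c := hc
  positivity

theorem mR_F0 (f : ℝ → ℝ) (t : ℝ) : mR F0 f t = 0 := by
  unfold mR F0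
  simp

theorem mcR_F0 (f : ℝ → ℝ) (j : ℕ) : mcR F0 f j = 0 := by
  unfold mcR
  simp [mR_F0]

theorem meR_F0 (f : ℝ → ℝ) (j : ℕ) : meR F0 f j = 0 := by
  unfold meR
  simp [mR_F0]

theorem mnR_F0 (f : ℝ → ℝ) : mnR F0 f = 0 := by
  unfold mnR
  simp [mR_F0]

theorem mqR_F0 (f : ℝ → ℝ) : mqR F0 f = 0 := by
  unfold mqR
  simp [mR_F0]

theorem bR_F0 (f : ℝ → ℝ) (A B N M : ℂ) : bR F0 f A B N M = 0 := by
  unfold bR F0
  simp

theorem W7R_F0 (W : ℝ → ℝ) (f : ℝ → ℝ) : W7R W F0 f = 2 * cF f * W (cF f) - rF f * deriv W (cF f) := by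
  unfold W7R F0
  simp

/-- the algebra of the zero form -/
theorem alg {A B s : ℂ} {w : ℝ} (h0 : 0 ≤ w) (h : w ≤ 1 - ‖s‖ ^ 2) :
    w * (‖A‖ ^ 2 - ‖B‖ ^ 2) ≤ ‖conj (B - s * conj A)‖ ^ 2 + ‖A - s * conj B‖ ^ 2 := by
  have e1 : ‖conj (B - s * conj A)‖ ^ 2 + ‖A - s * conj B‖ ^ 2 =
      (1 - ‖s‖ ^ 2) * (‖A‖ ^ 2 - ‖B‖ ^ 2) + 2 * ‖B - s * conj A‖ ^ 2 := by
    rw [RCLike.norm_conj]
    rw [← Complex.normSq_eq_norm_sq, ← Complex.normSq_eq_norm_sq, ← Complex.normSq_eq_norm_sq,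
      ← Complex.normSq_eq_norm_sq, ← Complex.normSq_eq_norm_sq]
    simp only [normSq_apply, sub_re, sub_im, mul_re, mul_im, conj_re, conj_im]
    ring
  rcases le_total (‖A‖ ^ 2) (‖B‖ ^ 2) with h2 | h2
  · have : w * (‖A‖ ^ 2 - ‖B‖ ^ 2) ≤ 0 := mul_nonpos_of_nonneg_of_nonpos h0 (by linarith)
    have := sq_nonneg ‖conj (B - s * conj A)‖
    have := sq_nonneg ‖A - s * conj B‖
    linarith
  · rw [e1]
    have := sq_nonneg ‖B - s * conj A‖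
    nlinarith [mul_le_mul_of_nonneg_right h (by linarith : (0 : ℝ) ≤ ‖A‖ ^ 2 - ‖B‖ ^ 2)]

/-- **the certificate of the zero form** -/
theorem cert_zero {κ : ℝ} (h1 : κ ^ 2 ≤ 4 / 9) (H : ∀ f, Re f → ‖r3 f‖ ≤ κ * X1 f) :
    Cert7 (Wk κ) F0 0 1 := by
  refine cert7_par fun f R A B N M => ?_
  have c0 := R.c0
  have r0 : rF f = X1 f ^ 2 := R.rr
  have c2 : cF f ^ 2 = 1 - X1 f ^ 2 := R.c2
  have hs : ‖3 / 2 * r3 f‖ ^ 2 ≤ 9 / 4 * κ ^ 2 * X1 f ^ 2 := by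
    rw [norm_mul, mul_pow]
    have h := H f R
    have h3 : ‖(3 / 2 : ℂ)‖ = 3 / 2 := by norm_num
    rw [h3]
    have h4 : ‖r3 f‖ ^ 2 ≤ (κ * X1 f) ^ 2 := by
      exact pow_le_pow_left₀ (norm_nonneg _) h 2
    nlinarith
  have hw : W7R (Wk κ) F0 f = 1 - 9 / 4 * κ ^ 2 * X1 f ^ 2 := by
    rw [W7R_F0, r0]
    have := Wk_val κ c0.le
    rw [show X1 f ^ 2 = 1 - cF f ^ 2 by linarith]
    linarith
  have l1 := R.lt1
  have hw0 : 0 ≤ 1 - 9 / 4 * κ ^ 2 * X1 f ^ 2 := by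
    have : X1 f ^ 2 ≤ 1 := by nlinarith [R.h0]
    nlinarith [sq_nonneg κ, sq_nonneg (X1 f)]
  have key := alg (A := A) (B := B) (s := 3 / 2 * r3 f) hw0 (by linarith)
  rw [hw, bR_F0, mnR_F0, mqR_F0, mcR_F0, mcR_F0, meR_F0, meR_F0]
  simp only [mul_zero, sub_zero, add_zero, zero_mul, Complex.zero_re, map_zero]
  have e3 := sq_nonneg ‖conj (RmR f A B M)‖
  have e4 := sq_nonneg ‖RpR f A B N‖
  linarith

/-- **the area inequality of the zero form** -/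
theorem area_zero {κ : ℝ} (h1 : κ ^ 2 ≤ 4 / 9) (H : ∀ f, Re f → ‖r3 f‖ ≤ κ * X1 f) (M : Type) [MetricSpace M]
    [CompactSpace M] (γ : ℝ → M) (C : Calc M γ) (hγ : Bd γ) :
    2 * Real.pi * (1 - 3 / 2 * κ ^ 2) ≤ C.vol := by
  have := area7 (Wk_cd κ) (Wk_cont κ) F0_Sm F0_Bo (cert_zero h1 H) M γ C hγ
  rwa [Wk_zero, one_mul] at this

end Pool.Agent.FPX.C2Z
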