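import Mathlib

/-
C3B (helper52, after helper76's bilinear trick): exact elimination of `k`, `|k| ≤ 1`, from a form
`Re (conj A ∫ G k̄ - conj B ∫ G k) + Z (|A|² - |B|²) + 2 ν |B|²` with `A + s conj B = ∫ E k̄`,
`B + s conj A = ∫ E k`.  For the ratio `β = A B / |A|²` and ANY complex `p`, `q` with
`τ = Re (p (1 + s conj β) + q (conj β + conj s)) - ((1 - |β|²) Z + 2 ν |β|²) > 0` the form is at most
`(∫ |G - β conj G + p E + q conj E|)² / (4 τ)`.
-/

open MeasureTheory Set Filter Topology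
open scoped ComplexConjugate

noncomputable section

namespace Pool.Agent.FPX.C3B

variable {α : Type*} [MeasurableSpace α] {μ : Measure α}

/-- completing the square -/
theorem sq_bound {r L τ N : ℝ} (hτ : 0 < τ) (hL : |L| ≤ N) : r * L - τ * r ^ 2 ≤ N ^ 2 / (4 * τ) := by
  have h1 : r * L - τ * r ^ 2 ≤ L ^ 2 / (4 * τ) := by
    rw [le_div_iff₀ (by positivity)]
    nlinarith [sq_nonneg (2 * τ * r - L)]
  have h2 : L ^ 2 ≤ N ^ 2 := by
    rw [← sq_abs L]
    exact pow_le_pow_left₀ (abs_nonneg _) hL 2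
  refine h1.trans ?_
  gcongr

/-- a linear functional of `k`, `|k| ≤ 1` -/
theorem lin_bound {V k : α → ℂ} (hk : ∀ᵐ x ∂μ, ‖k x‖ ≤ 1) (hV : Integrable V μ) :
    |(∫ x, V x * conj (k x) ∂μ).re| ≤ ∫ x, ‖V x‖ ∂μ := by
  refine (Complex.abs_re_le_norm _).trans ?_
  refine norm_integral_le_of_norm_le hV.norm ?_
  filter_upwards [hk] with x hx
  rw [norm_mul, RCLike.norm_conj]
  exact mul_le_of_le_one_right (norm_nonneg _) hx

/-- real ratio case: `A = r > 0` -/
theorem comass_real {E G k : α → ℂ} (hk : ∀ᵐ x ∂μ, ‖k x‖ ≤ 1) (hkm : AEStronglyMeasurable k μ)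
    (hE : Integrable E μ) (hG : Integrable G μ) {s β p q : ℂ} {r Z ν τ : ℝ}
    (ha : (r : ℂ) * (1 + s * conj β) = ∫ x, E x * conj (k x) ∂μ)
    (hb : (r : ℂ) * (β + s) = ∫ x, E x * k x ∂μ)
    (hτ : τ = (p * (1 + s * conj β) + q * (conj β + conj s)).re
      - ((1 - ‖β‖ ^ 2) * Z + 2 * ν * ‖β‖ ^ 2)) (h0 : 0 < τ) :
    r * ((∫ x, G x * conj (k x) ∂μ) - conj β * ∫ x, G x * k x ∂μ).re
      + Z * (r ^ 2 - r ^ 2 * ‖β‖ ^ 2) + 2 * ν * (r ^ 2 * ‖β‖ ^ 2)
      ≤ (∫ x, ‖G x - β * conj (G x) + p * E x + q * conj (E x)‖ ∂μ) ^ 2 / (4 * τ) := by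
  have hkc : AEStronglyMeasurable (fun x => conj (k x)) μ :=
    Complex.continuous_conj.comp_aestronglyMeasurable hkm
  have bnd : ∀ᵐ x ∂μ, ‖(starRingEnd ℂ) (k x)‖ ≤ 1 := by
    filter_upwards [hk] with x hx
    rwa [RCLike.norm_conj]
  have mc : ∀ {f : α → ℂ}, Integrable f μ → Integrable (fun x => f x * conj (k x)) μ := by
    intro f hf
    refine (hf.bdd_mul (c := 1) hkc bnd).congr (Eventually.of_forall fun x => ?_)
    exact mul_comm _ _
  have cj : ∀ {f : α → ℂ}, Integrable f μ → Integrable (fun x => conj (f x)) μ := by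
    intro f hf
    refine hf.norm.mono' (Complex.continuous_conj.comp_aestronglyMeasurable hf.1) ?_
    exact Eventually.of_forall fun x => by
      rw [RCLike.norm_conj]
  have cc : ∀ f : α → ℂ, ∫ x, conj (f x) * conj (k x) ∂μ = conj (∫ x, f x * k x ∂μ) := by
    intro f
    rw [← integral_conj]
    refine integral_congr_ae (Eventually.of_forall fun x => ?_)
    exact (map_mul conj (f x) (k x)).symm
  set V : α → ℂ := fun x => G x - β * conj (G x) + p * E x + q * conj (E x) with hV
  have i1 : Integrable (fun x => G x - β * conj (G x)) μ := hG.sub ((cj hG).const_mul β)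
  have i2 : Integrable (fun x => G x - β * conj (G x) + p * E x) μ := i1.add (hE.const_mul p)
  have iV : Integrable V μ := i2.add ((cj hE).const_mul q)
  have eV : ∫ x, V x * conj (k x) ∂μ = (∫ x, G x * conj (k x) ∂μ) - β * conj (∫ x, G x * k x ∂μ)
      + p * ((r : ℂ) * (1 + s * conj β)) + q * conj ((r : ℂ) * (β + s)) := by
    have j1 : Integrable (fun x => G x * conj (k x) - β * (conj (G x) * conj (k x))) μ :=
      (mc hG).sub ((mc (cj hG)).const_mul β)
    have j2 : Integrable (fun x => G x * conj (k x) - β * (conj (G x) * conj (k x))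
      + p * (E x * conj (k x))) μ := j1.add ((mc hE).const_mul p)
    rw [ha, hb, ← cc, ← cc, ← integral_const_mul, ← integral_const_mul, ← integral_const_mul,
      ← integral_sub (mc hG) ((mc (cj hG)).const_mul β), ← integral_add j1 ((mc hE).const_mul p),
      ← integral_add j2 ((mc (cj hE)).const_mul q)]
    refine integral_congr_ae (Eventually.of_forall fun x => ?_)
    show (G x - β * conj (G x) + p * E x + q * conj (E x)) * conj (k x)
      = G x * conj (k x) - β * (conj (G x) * conj (k x)) + p * (E x * conj (k x))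
        + q * (conj (E x) * conj (k x))
    ring
  have hL := lin_bound hk iV
  have h1 := sq_bound (r := r) h0 hL
  refine le_trans (le_of_eq ?_) h1
  rw [eV, hτ]
  set P := ∫ x, G x * conj (k x) ∂μ
  set R := ∫ x, G x * k x ∂μ
  have e : ∀ u : ℂ, ‖u‖ ^ 2 = u.re ^ 2 + u.im ^ 2 := fun u => by
    rw [← Complex.normSq_eq_norm_sq, Complex.normSq_apply]
    ring
  rw [e]
  simp only [map_add, map_mul, Complex.conj_ofReal, Complex.mul_re, Complex.mul_im, Complex.sub_re,
    Complex.add_re, Complex.add_im, Complex.conj_re, Complex.conj_im, Complex.ofReal_re,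
    Complex.ofReal_im, Complex.one_re, Complex.one_im]
  ring

/-- **exact elimination of `k`** (case `A ≠ 0`) -/
theorem comass {E G k : α → ℂ} (hk : ∀ᵐ x ∂μ, ‖k x‖ ≤ 1) (hkm : AEStronglyMeasurable k μ)
    (hE : Integrable E μ) (hG : Integrable G μ) {A B s β p q : ℂ} {Z ν τ : ℝ}
    (ha : A + s * conj B = ∫ x, E x * conj (k x) ∂μ)
    (hb : B + s * conj A = ∫ x, E x * k x ∂μ) (hβ : A * B = β * (‖A‖ : ℂ) ^ 2) (hA : A ≠ 0)
    (hτ : τ = (p * (1 + s * conj β) + q * (conj β + conj s)).re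
      - ((1 - ‖β‖ ^ 2) * Z + 2 * ν * ‖β‖ ^ 2)) (h0 : 0 < τ) :
    (conj A * (∫ x, G x * conj (k x) ∂μ) - conj B * ∫ x, G x * k x ∂μ).re
      + Z * (‖A‖ ^ 2 - ‖B‖ ^ 2) + 2 * ν * ‖B‖ ^ 2
      ≤ (∫ x, ‖G x - β * conj (G x) + p * E x + q * conj (E x)‖ ∂μ) ^ 2 / (4 * τ) := by
  set r : ℝ := ‖A‖ with hr
  have hr0 : 0 < r := norm_pos_iff.2 hA
  have hrc : (r : ℂ) ≠ 0 := by exact_mod_cast hr0.ne'
  set u : ℂ := A / r with hu
  have hu1 : u * conj u = 1 := by
    rw [hu, map_div₀, Complex.conj_ofReal, div_mul_div_comm, Complex.mul_conj,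
      Complex.normSq_eq_norm_sq, ← hr]
    push_cast
    field_simp
  have hun : ‖u‖ = 1 := by
    rw [hu, norm_div, Complex.norm_real, Real.norm_eq_abs, abs_of_pos hr0, ← hr]
    field_simp
  have hAu : A = r * u := by
    rw [hu]
    field_simp
  have hBu : B = conj u * (r * β) := by
    have h1 : (r : ℂ) * (u * B) = r * (r * β) := by
      have : A * B = r * u * B := by rw [hAu]
      rw [hβ] at this
      linear_combination -this
    have h2 : u * B = r * β := mul_left_cancel₀ hrc h1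
    calc B = (u * conj u) * B := by rw [hu1, one_mul]
      _ = conj u * (u * B) := by ring
      _ = conj u * (r * β) := by rw [h2]
  have h1 := comass_real (μ := μ) (E := E) (G := G) (k := fun x => u * k x) (s := s) (β := β)
    (p := p) (q := q) (r := r) (Z := Z) (ν := ν) (τ := τ)
    (by
      filter_upwards [hk] with x hx
      rw [norm_mul, hun, one_mul]
      exact hx)
    (hkm.const_mul u) hE hG
    (by
      have : ∫ x, E x * conj (u * k x) ∂μ = conj u * ∫ x, E x * conj (k x) ∂μ := by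
        rw [← integral_const_mul]
        refine integral_congr_ae (Eventually.of_forall fun x => ?_)
        show E x * conj (u * k x) = conj u * (E x * conj (k x))
        rw [map_mul]
        ring
      rw [this, ← ha, hAu, hBu]
      simp only [map_mul, Complex.conj_ofReal, Complex.conj_conj]
      linear_combination (-(r : ℂ) - s * r * conj β) * hu1)
    (by
      have : ∫ x, E x * (u * k x) ∂μ = u * ∫ x, E x * k x ∂μ := by
        rw [← integral_const_mul]
        refine integral_congr_ae (Eventually.of_forall fun x => ?_)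
        show E x * (u * k x) = u * (E x * k x)
        ring
      rw [this, ← hb, hAu, hBu]
      simp only [map_mul, Complex.conj_ofReal]
      linear_combination (-(r : ℂ) * β - s * r) * hu1)
    hτ h0
  refine le_trans (le_of_eq ?_) h1
  have e1 : ∫ x, G x * conj (u * k x) ∂μ = conj u * ∫ x, G x * conj (k x) ∂μ := by
    rw [← integral_const_mul]
    refine integral_congr_ae (Eventually.of_forall fun x => ?_)
    show G x * conj (u * k x) = conj u * (G x * conj (k x))
    rw [map_mul]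
    ring
  have e2 : ∫ x, G x * (u * k x) ∂μ = u * ∫ x, G x * k x ∂μ := by
    rw [← integral_const_mul]
    refine integral_congr_ae (Eventually.of_forall fun x => ?_)
    show G x * (u * k x) = u * (G x * k x)
    ring
  have e3 : ‖B‖ ^ 2 = r ^ 2 * ‖β‖ ^ 2 := by
    rw [hBu, norm_mul, norm_mul, RCLike.norm_conj, hun, Complex.norm_real, Real.norm_eq_abs,
      abs_of_pos hr0]
    ring
  rw [e1, e2, e3]
  set P := ∫ x, G x * conj (k x) ∂μ
  set R := ∫ x, G x * k x ∂μ
  have e4 : (conj A * P - conj B * R).re = r * (conj u * P - conj β * (u * R)).re := by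
    rw [← Complex.re_ofReal_mul, hAu, hBu]
    congr 1
    simp only [map_mul, Complex.conj_ofReal, Complex.conj_conj]
    ring
  rw [e4]

/-- the same with the roles of `A` and `B` exchanged (for `|A| ≤ |B|`) -/
theorem comass_swap {E G k : α → ℂ} (hk : ∀ᵐ x ∂μ, ‖k x‖ ≤ 1) (hkm : AEStronglyMeasurable k μ)
    (hE : Integrable E μ) (hG : Integrable G μ) {A B s β p q : ℂ} {Z ν τ : ℝ}
    (ha : A + s * conj B = ∫ x, E x * conj (k x) ∂μ)
    (hb : B + s * conj A = ∫ x, E x * k x ∂μ) (hβ : A * B = β * (‖B‖ : ℂ) ^ 2) (hB : B ≠ 0)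
    (hτ : τ = (p * (1 + s * conj β) + q * (conj β + conj s)).re
      - (2 * ν - (1 - ‖β‖ ^ 2) * Z)) (h0 : 0 < τ) :
    (conj A * (∫ x, G x * conj (k x) ∂μ) - conj B * ∫ x, G x * k x ∂μ).re
      + Z * (‖A‖ ^ 2 - ‖B‖ ^ 2) + 2 * ν * ‖B‖ ^ 2
      ≤ (∫ x, ‖-G x + β * conj (G x) + p * E x + q * conj (E x)‖ ∂μ) ^ 2 / (4 * τ) := by
  have h1 := comass (μ := μ) (E := E) (G := fun x => -G x) (k := fun x => conj (k x)) (A := B)
    (B := A) (s := s) (β := β) (p := p) (q := q) (Z := -Z + 2 * ν) (ν := ν) (τ := τ)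
    (by
      filter_upwards [hk] with x hx
      rw [RCLike.norm_conj]
      exact hx)
    (Complex.continuous_conj.comp_aestronglyMeasurable hkm) hE hG.neg
    (by
      rw [hb]
      refine integral_congr_ae (Eventually.of_forall fun x => ?_)
      simp only [Complex.conj_conj])
    ha (by rw [mul_comm, hβ]) hB
    (by rw [hτ]; ring) h0
  have e1 : ∫ x, -G x * conj (conj (k x)) ∂μ = -∫ x, G x * k x ∂μ := by
    rw [← integral_neg]
    refine integral_congr_ae (Eventually.of_forall fun x => ?_)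
    simp only [Complex.conj_conj]
    ring
  have e2 : ∫ x, -G x * conj (k x) ∂μ = -∫ x, G x * conj (k x) ∂μ := by
    rw [← integral_neg]
    refine integral_congr_ae (Eventually.of_forall fun x => ?_)
    show -G x * conj (k x) = -(G x * conj (k x))
    ring
  have e3 : ∫ x, ‖-G x - β * conj (-G x) + p * E x + q * conj (E x)‖ ∂μ
      = ∫ x, ‖-G x + β * conj (G x) + p * E x + q * conj (E x)‖ ∂μ := by
    refine integral_congr_ae (Eventually.of_forall fun x => ?_)
    show ‖-G x - β * conj (-G x) + p * E x + q * conj (E x)‖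
      = ‖-G x + β * conj (G x) + p * E x + q * conj (E x)‖
    rw [map_neg]
    congr 1
    ring
  rw [e1, e2, e3] at h1
  refine le_trans (le_of_eq ?_) h1
  set P := ∫ x, G x * conj (k x) ∂μ
  set R := ∫ x, G x * k x ∂μ
  have e4 : (conj A * P - conj B * R).re = (conj B * -R - conj A * -P).re := by
    congr 1
    ring
  rw [e4]
  ring

/-- comparison of `|V|` with a quadratic polynomial: `|z| ≤ Re z + (Im z)² / (2 Re z)` -/
theorem norm_le_re {z : ℂ} (h : 0 < z.re) : ‖z‖ ≤ z.re + z.im ^ 2 / (2 * z.re) := by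
  have h1 : 0 ≤ z.re + z.im ^ 2 / (2 * z.re) := by positivity
  refine (pow_le_pow_iff_left₀ (norm_nonneg _) h1 two_ne_zero).1 ?_
  rw [← Complex.normSq_eq_norm_sq, Complex.normSq_apply]
  have h2 : (z.re + z.im ^ 2 / (2 * z.re)) ^ 2
      = z.re * z.re + z.im * z.im + (z.im ^ 2 / (2 * z.re)) ^ 2 := by
    field_simp
    ring
  rw [h2]
  have := sq_nonneg (z.im ^ 2 / (2 * z.re))
  linarith

/-- the same with the chord of `1 / Re z` on `[m, M]` -/
theorem norm_le_chord {z : ℂ} {m M : ℝ} (hm : 0 < m) (h1 : m ≤ z.re) (h2 : z.re ≤ M) :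
    ‖z‖ ≤ z.re + z.im ^ 2 * (m + M - z.re) / (2 * m * M) := by
  have h0 : 0 < z.re := lt_of_lt_of_le hm h1
  have hM : 0 < M := lt_of_lt_of_le h0 h2
  refine (norm_le_re h0).trans ?_
  have h3 : 1 / z.re ≤ (m + M - z.re) / (m * M) := by
    rw [div_le_div_iff₀ h0 (by positivity)]
    nlinarith [mul_nonneg (sub_nonneg.2 h1) (sub_nonneg.2 h2)]
  have h4 : z.im ^ 2 / (2 * z.re) ≤ z.im ^ 2 * (m + M - z.re) / (2 * m * M) := by
    have e1 : z.im ^ 2 / (2 * z.re) = z.im ^ 2 / 2 * (1 / z.re) := by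
      field_simp
    have e2 : z.im ^ 2 * (m + M - z.re) / (2 * m * M) = z.im ^ 2 / 2 * ((m + M - z.re) / (m * M)) := by
      field_simp
    rw [e1, e2]
    exact mul_le_mul_of_nonneg_left h3 (by positivity)
  linarith

/-- from the bound of the integral to the bound `T`: `N ≤ 2 √(τ T)` -/
theorem le_T {N τ T n : ℝ} (hτ : 0 < τ) (hN : 0 ≤ N) (h : N ≤ n) (hn : n ^ 2 ≤ 4 * τ * T) :
    N ^ 2 / (4 * τ) ≤ T := by
  rw [div_le_iff₀ (by positivity)]
  have := pow_le_pow_left₀ hN h 2
  linarith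

end Pool.Agent.FPX.C3B
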