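import Pool.Agent.FPX.SQD
import Pool.Agent.FPX.ALI

/-
CAB (helper88): cell averages. Total variation of a state over half a turn, the moments of `X` and `X²` from the
averages over the cells of a uniform grid (covariance bound `D/8 * TV`), means of the phase.
-/

open MeasureTheory Set Filter Topology Real
open scoped NNReal ComplexConjugate
open Pool.Agent.FPX.NOD (pt Fp Grid)
open Pool.Agent.FPX.ALX (St)
open Pool.Agent.FPX.SQD (ph)

noncomputable section

namespace Pool.Agent.FPX.CAV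

/-- average over the cell `i` -/
def av (X : ℝ → ℝ) (r : ℕ → ℝ) (i : ℕ) : ℝ := ∫ v in (0 : ℝ)..1, X (pt r i v)

/-- average of the phase over the cell `i` -/
def pm (m : ℕ) (r : ℕ → ℝ) (i : ℕ) : ℂ := ∫ v in (0 : ℝ)..1, ph m (pt r i v)

/-! ### total variation -/

section tv

variable {s : ℝ} {X : ℝ → ℝ}

theorem abs_int (hX : St s X) (a b : ℝ) : IntervalIntegrable (fun t => |deriv X t|) volume a b :=
  (hX.intd a b).abs

theorem tv_right (hX : St s X) (h0 : 0 ≤ s) (h1 : s ≤ 1) :
    ∫ a in (0 : ℝ)..(π / 2), |deriv X a| ≤ X (π / 2) - X 0 + 2 := by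
  have hp := pi_pos
  have hs : ∀ x ∈ Icc (0 : ℝ) (π / 2), 0 ≤ sin x := fun x hx =>
    sin_nonneg_of_nonneg_of_le_pi hx.1 (by linarith [hx.2])
  have cu : ContinuousOn (fun a : ℝ => 1 / (1 + sin a)) (Icc 0 (π / 2)) := by
    refine ContinuousOn.div (by fun_prop) (by fun_prop) fun x hx => ?_
    have := hs x hx
    positivity
  have iu : IntervalIntegrable (fun a : ℝ => 1 / (1 + sin a)) volume 0 (π / 2) := by
    refine ContinuousOn.intervalIntegrable ?_
    rwa [uIcc_of_le (by positivity)]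
  have e1 : ∫ a in (0 : ℝ)..(π / 2), 1 / (1 + sin a) = 1 := by
    rw [intervalIntegral.integral_eq_sub_of_hasDerivAt (f := ALX.L1) (fun x hx => ?_) iu]
    · unfold ALX.L1
      simp
    · rw [uIcc_of_le (by positivity)] at hx
      exact ALX.der_L1 (by linarith [hs x hx])
  have i2 := (hX.intd 0 (π / 2)).add (iu.const_mul 2)
  have e2 : ∫ a in (0 : ℝ)..(π / 2), (deriv X a + 2 * (1 / (1 + sin a))) = X (π / 2) - X 0 + 2 := by
    rw [intervalIntegral.integral_add (hX.intd 0 (π / 2)) (iu.const_mul 2),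
      intervalIntegral.integral_const_mul, e1, hX.ftc]
    ring
  rw [← e2]
  refine intervalIntegral.integral_mono_ae_restrict (by positivity) (abs_int hX _ _) i2 ?_
  filter_upwards [ae_restrict_mem measurableSet_Icc, ae_restrict_of_ae (hX.le_deriv h0 h1 le_rfl)] with a ha h
  have hsa := hs a ha
  have h2 := h (by linarith)
  rw [one_mul] at h2
  have h3 : 0 ≤ 1 / (1 + sin a) := by positivity
  rcases abs_cases (deriv X a) with ⟨e, _⟩ | ⟨e, _⟩ <;> rw [e] <;> linarith

theorem tv_left (hX : St s X) (h0 : 0 ≤ s) (h1 : s ≤ 1) :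
    ∫ a in (-(π / 2))..0, |deriv X a| ≤ X (-(π / 2)) - X 0 + 2 := by
  have hp := pi_pos
  have hs : ∀ x ∈ Icc (-(π / 2)) (0 : ℝ), sin x ≤ 0 := fun x hx =>
    sin_nonpos_of_nonpos_of_neg_pi_le hx.2 (by linarith [hx.1])
  have hq : ∀ x ∈ Icc (-(π / 2)) (0 : ℝ), 0 < 1 - sin x := fun x hx => by linarith [hs x hx]
  have hle : -(π / 2) ≤ 0 := by linarith
  have cu : ContinuousOn (fun a : ℝ => 1 / (1 - sin a)) (Icc (-(π / 2)) 0) :=
    ContinuousOn.div (by fun_prop) (by fun_prop) fun x hx => (hq x hx).ne'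
  have iu : IntervalIntegrable (fun a : ℝ => 1 / (1 - sin a)) volume (-(π / 2)) 0 := by
    refine ContinuousOn.intervalIntegrable ?_
    rwa [uIcc_of_le hle]
  have e1 : ∫ a in (-(π / 2))..0, 1 / (1 - sin a) = 1 := by
    rw [intervalIntegral.integral_eq_sub_of_hasDerivAt (f := ALX.U1) (fun x hx => ?_) iu]
    · unfold ALX.U1
      simp
    · rw [uIcc_of_le hle] at hx
      exact ALX.der_U1 (by linarith [hq x hx])
  have i0 : IntervalIntegrable (fun a => -deriv X a) volume (-(π / 2)) 0 := (hX.intd (-(π / 2)) 0).neg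
  have i2 := i0.add (iu.const_mul 2)
  have e2 : ∫ a in (-(π / 2))..0, (-deriv X a + 2 * (1 / (1 - sin a))) = X (-(π / 2)) - X 0 + 2 := by
    rw [intervalIntegral.integral_add i0 (iu.const_mul 2),
      intervalIntegral.integral_const_mul, e1, intervalIntegral.integral_neg, hX.ftc]
    ring
  rw [← e2]
  refine intervalIntegral.integral_mono_ae_restrict hle (abs_int hX _ _) i2 ?_
  filter_upwards [ae_restrict_mem measurableSet_Icc, ae_restrict_of_ae (hX.deriv_le h0 h1 le_rfl)] with a ha h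
  have hsa := hq a ha
  have h2 := h (by linarith)
  rw [one_mul] at h2
  have h3 : 0 ≤ 1 / (1 - sin a) := by positivity
  rcases abs_cases (deriv X a) with ⟨e, _⟩ | ⟨e, _⟩ <;> rw [e] <;> linarith

/-- **total variation over half a turn** -/
theorem tv_le (hX : St s X) (h0 : 0 ≤ s) (h1 : s ≤ 1) {xm : ℝ} (hb : ∀ a, |X a| ≤ xm) :
    ∫ a in (-(π / 2))..(π / 2), |deriv X a| ≤ 4 + 2 * xm := by
  rw [← intervalIntegral.integral_add_adjacent_intervals (abs_int hX (-(π / 2)) 0) (abs_int hX 0 (π / 2))]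
  have e := hX.anti (-(π / 2))
  rw [show -(π / 2) + π = π / 2 by ring] at e
  have k1 := tv_left hX h0 h1
  have k2 := tv_right hX h0 h1
  have k3 := (abs_le.1 (hb 0)).1
  linarith

end tv

/-! ### covariance on one cell -/

theorem cov_real {f Z : ℝ → ℝ} {D : ℝ} (hf : ∀ x y, |f x - f y| ≤ D * |x - y|) {K : ℝ≥0}
    (hZ : LipschitzWith K Z) : |(∫ v in (0 : ℝ)..1, f v * Z v) - (∫ v in (0 : ℝ)..1, f v) * ∫ v in (0 : ℝ)..1, Z v|
      ≤ D / 8 * ∫ v in (0 : ℝ)..1, |deriv Z v| := by
  have hD : 0 ≤ D := by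
    have := hf 1 0
    have h2 := (abs_nonneg _).trans this
    simpa using h2
  have cf : Continuous f := by
    have : LipschitzWith ⟨D, hD⟩ f := LipschitzWith.of_dist_le_mul fun x y => by
      rw [Real.dist_eq, Real.dist_eq]
      exact hf x y
    exact this.continuous
  have cZ := hZ.continuous
  set c := ∫ v in (0 : ℝ)..1, f v with hc
  set P : ℝ → ℝ := fun v => (∫ x in (0 : ℝ)..v, f x) - c * v with hP
  have dP : ∀ v, HasDerivAt P (f v - c) v := fun v => by
    have h1 : HasDerivAt (fun u => ∫ x in (0 : ℝ)..u, f x) (f v) v :=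
      intervalIntegral.integral_hasDerivAt_right (cf.intervalIntegrable 0 v)
        (cf.stronglyMeasurableAtFilter _ _) cf.continuousAt
    have h2 : HasDerivAt (fun u : ℝ => c * u) c v := by
      simpa using (hasDerivAt_id v).const_mul c
    exact h1.sub h2
  have P0 : P 0 = 0 := by simp [hP]
  have P1 : P 1 = 0 := by simp [hP, hc]
  have dP' : deriv P = fun v => f v - c := funext fun v => (dP v).deriv
  have cP : ContDiff ℝ 1 P := by
    rw [contDiff_one_iff_deriv]
    refine ⟨fun v => (dP v).differentiableAt, ?_⟩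
    rw [dP']
    fun_prop
  have a1 : AbsolutelyContinuousOnInterval Z 0 1 :=
    (hZ.lipschitzOnWith (s := uIcc 0 1)).absolutelyContinuousOnInterval
  have a2 : AbsolutelyContinuousOnInterval P 0 1 := cP.contDiffOn.absolutelyContinuousOnInterval
  have h3 := a2.integral_mul_deriv_eq_deriv_mul a1
  rw [P0, P1, dP'] at h3
  have e1 : (∫ v in (0 : ℝ)..1, f v * Z v) - c * ∫ v in (0 : ℝ)..1, Z v = -∫ v in (0 : ℝ)..1, P v * deriv Z v := by
    have e0 : ∫ v in (0 : ℝ)..1, (f v - c) * Z v
        = (∫ v in (0 : ℝ)..1, f v * Z v) - c * ∫ v in (0 : ℝ)..1, Z v := by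
      have i1 : IntervalIntegrable (fun v => f v * Z v) volume 0 1 := (cf.mul cZ).intervalIntegrable _ _
      have i2 : IntervalIntegrable (fun v => c * Z v) volume 0 1 := (cZ.const_mul c).intervalIntegrable _ _
      rw [← intervalIntegral.integral_const_mul, ← intervalIntegral.integral_sub i1 i2]
      simp only [sub_mul]
    rw [h3, ← e0]
    ring
  rw [e1, abs_neg]
  -- the bound of `P`
  have hPb : ∀ v ∈ Icc (0 : ℝ) 1, |P v| ≤ D / 8 := by
    intro v hv
    have hi : ∀ a b, IntervalIntegrable f volume a b := fun a b => cf.intervalIntegrable a b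
    have i1 : |∫ x in (0 : ℝ)..v, (f x - f v)| ≤ D * v ^ 2 / 2 := by
      have k := intervalIntegral.norm_integral_le_of_norm_le (μ := volume) (f := fun x => f x - f v)
        (g := fun x => D * (v - x)) hv.1 (Eventually.of_forall fun x hx => ?_)
        (Continuous.intervalIntegrable (by fun_prop) _ _)
      · rw [Real.norm_eq_abs] at k
        refine k.trans (le_of_eq ?_)
        rw [intervalIntegral.integral_const_mul, intervalIntegral.integral_sub (by simp) (by simp)]
        simp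
        ring
      · rw [Real.norm_eq_abs]
        refine (hf x v).trans (le_of_eq ?_)
        rw [abs_sub_comm, abs_of_nonneg (by linarith [hx.2])]
    have i2 : |∫ x in v..1, (f x - f v)| ≤ D * (1 - v) ^ 2 / 2 := by
      have k := intervalIntegral.norm_integral_le_of_norm_le (μ := volume) (f := fun x => f x - f v)
        (g := fun x => D * (x - v)) hv.2 (Eventually.of_forall fun x hx => ?_)
        (Continuous.intervalIntegrable (by fun_prop) _ _)
      · rw [Real.norm_eq_abs] at k
        refine k.trans (le_of_eq ?_)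
        rw [intervalIntegral.integral_const_mul, intervalIntegral.integral_sub (by simp) (by simp)]
        simp
        ring
      · rw [Real.norm_eq_abs]
        refine (hf x v).trans (le_of_eq ?_)
        rw [abs_of_nonneg (by linarith [hx.1])]
    have e2 : P v = (1 - v) * (∫ x in (0 : ℝ)..v, (f x - f v)) - v * ∫ x in v..1, (f x - f v) := by
      rw [intervalIntegral.integral_sub (hi _ _) (by simp), intervalIntegral.integral_sub (hi _ _) (by simp)]
      have e3 := intervalIntegral.integral_add_adjacent_intervals (hi 0 v) (hi v 1)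
      rw [← hc] at e3
      have e4 : ∫ x in v..1, f x = c - ∫ x in (0 : ℝ)..v, f x := by linarith
      rw [e4]
      simp only [hP, intervalIntegral.integral_const, smul_eq_mul]
      ring
    rw [e2]
    have t1 : |(1 - v) * (∫ x in (0 : ℝ)..v, (f x - f v)) - v * ∫ x in v..1, (f x - f v)|
        ≤ (1 - v) * (D * v ^ 2 / 2) + v * (D * (1 - v) ^ 2 / 2) := by
      refine (abs_sub _ _).trans ?_
      rw [abs_mul, abs_mul, abs_of_nonneg hv.1, abs_of_nonneg (by linarith [hv.2] : (0 : ℝ) ≤ 1 - v)]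
      exact add_le_add (mul_le_mul_of_nonneg_left i1 (by linarith [hv.2])) (mul_le_mul_of_nonneg_left i2 hv.1)
    refine t1.trans ?_
    have e5 : (1 - v) * (D * v ^ 2 / 2) + v * (D * (1 - v) ^ 2 / 2) = D * (v * (1 - v)) / 2 := by ring
    rw [e5]
    have : v * (1 - v) ≤ 1 / 4 := by nlinarith [sq_nonneg (v - 1 / 2)]
    nlinarith
  have iZ : IntervalIntegrable (deriv Z) volume 0 1 := a1.intervalIntegrable_deriv
  have k := intervalIntegral.norm_integral_le_of_norm_le (μ := volume) (f := fun v => P v * deriv Z v)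
    (g := fun v => D / 8 * |deriv Z v|) zero_le_one (Eventually.of_forall fun v hv => ?_) (iZ.abs.const_mul _)
  · rw [Real.norm_eq_abs, intervalIntegral.integral_const_mul] at k
    exact k
  · rw [norm_mul, Real.norm_eq_abs, Real.norm_eq_abs]
    exact mul_le_mul_of_nonneg_right (hPb v ⟨hv.1.le, hv.2⟩) (abs_nonneg _)

/-- complex phase -/
theorem cov_cx {f : ℝ → ℂ} {Z : ℝ → ℝ} {D : ℝ} (hf : ∀ x y, ‖f x - f y‖ ≤ D * |x - y|) {K : ℝ≥0}
    (hZ : LipschitzWith K Z) : ‖(∫ v in (0 : ℝ)..1, f v * (Z v : ℂ)) - (∫ v in (0 : ℝ)..1, f v)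
        * ((∫ v in (0 : ℝ)..1, Z v : ℝ) : ℂ)‖ ≤ D / 8 * ∫ v in (0 : ℝ)..1, |deriv Z v| := by
  have hD : 0 ≤ D := by
    have h2 := (norm_nonneg _).trans (hf 1 0)
    simpa using h2
  have cf : Continuous f := by
    have : LipschitzWith ⟨D, hD⟩ f := LipschitzWith.of_dist_le_mul fun x y => by
      rw [dist_eq_norm, Real.dist_eq]
      exact hf x y
    exact this.continuous
  have cZ := hZ.continuous
  have cZ' : Continuous fun v => (Z v : ℂ) := Complex.continuous_ofReal.comp cZ
  set z := (∫ v in (0 : ℝ)..1, f v * (Z v : ℂ)) - (∫ v in (0 : ℝ)..1, f v)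
    * ((∫ v in (0 : ℝ)..1, Z v : ℝ) : ℂ) with hz
  obtain ⟨u, hu, hzu⟩ : ∃ u : ℂ, ‖u‖ = 1 ∧ (u * z).re = ‖z‖ := by
    rcases eq_or_ne z 0 with h | h
    · exact ⟨1, by simp, by simp [h]⟩
    · have hn : (‖z‖ : ℂ) ≠ 0 := by simpa using h
      refine ⟨conj z / ‖z‖, by simp [h], ?_⟩
      have e : conj z / ‖z‖ * z = ((‖z‖ : ℝ) : ℂ) := by
        rw [div_mul_eq_mul_div, mul_comm, Complex.mul_conj, Complex.normSq_eq_norm_sq]
        push_cast
        field_simp
      rw [e, Complex.ofReal_re]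
  have h1 : ∀ x y, |(u * f x).re - (u * f y).re| ≤ D * |x - y| := fun x y => by
    rw [← Complex.sub_re, ← mul_sub]
    refine (Complex.abs_re_le_norm _).trans ?_
    rw [norm_mul, hu, one_mul]
    exact hf x y
  have h2 := cov_real h1 hZ
  have e1 : (∫ v in (0 : ℝ)..1, (u * f v).re * Z v) - (∫ v in (0 : ℝ)..1, (u * f v).re) * (∫ v in (0 : ℝ)..1, Z v)
      = (u * z).re := by
    have i1 : IntervalIntegrable (fun v => f v * (Z v : ℂ)) volume 0 1 := (cf.mul cZ').intervalIntegrable _ _
    have i2 : IntervalIntegrable f volume 0 1 := cf.intervalIntegrable _ _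
    have k1 : ∫ v in (0 : ℝ)..1, (u * f v).re * Z v = (u * ∫ v in (0 : ℝ)..1, f v * (Z v : ℂ)).re := by
      rw [← intervalIntegral.integral_const_mul]
      have := Complex.reCLM.intervalIntegral_comp_comm (i1.const_mul u)
      simp only [Complex.reCLM_apply] at this
      rw [← this]
      refine intervalIntegral.integral_congr fun v _ => ?_
      rw [← mul_assoc, Complex.re_mul_ofReal]
    have k2 : ∫ v in (0 : ℝ)..1, (u * f v).re = (u * ∫ v in (0 : ℝ)..1, f v).re := by
      rw [← intervalIntegral.integral_const_mul]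
      have := Complex.reCLM.intervalIntegral_comp_comm (i2.const_mul u)
      simp only [Complex.reCLM_apply] at this
      rw [← this]
    rw [k1, k2, hz, mul_sub, Complex.sub_re, ← mul_assoc, Complex.re_mul_ofReal]
  rw [e1, hzu] at h2
  exact (le_abs_self _).trans h2

/-! ### the circle -/

theorem ph_lip (m : ℕ) (x y : ℝ) : ‖ph m x - ph m y‖ ≤ m * |x - y| := by
  have e : ph m x - ph m y = ph m y * (Complex.exp (((m * (x - y) : ℝ) : ℂ) * Complex.I) - 1) := by
    unfold ph
    rw [mul_sub, ← Complex.exp_add, mul_one]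
    congr 2
    push_cast
    ring
  have h1 : ‖ph m y‖ = 1 := by
    unfold ph
    rw [show (m : ℂ) * (y : ℂ) * Complex.I = ((m * y : ℝ) : ℂ) * Complex.I by push_cast; ring]
    exact Complex.norm_exp_ofReal_mul_I _
  rw [e, norm_mul, h1, one_mul, mul_comm _ Complex.I]
  refine (Real.norm_exp_I_mul_ofReal_sub_one_le).trans ?_
  rw [Real.norm_eq_abs, abs_mul, Nat.abs_cast]

section grid

variable {N : ℕ} {r : ℕ → ℝ}

theorem grid_of (hN : 0 < N) (hr : ∀ i, r i = -(1 / 2) + (i : ℝ) / N) : Grid N r := by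
  have hN' : (0 : ℝ) < N := by exact_mod_cast hN
  refine ⟨by simp [hr], ?_, fun i _ => ?_⟩
  · rw [hr, div_self hN'.ne']
    norm_num
  · rw [hr, hr]
    push_cast
    have : (i : ℝ) / N < ((i : ℝ) + 1) / N := by
      rw [div_lt_div_iff_of_pos_right hN']
      linarith
    linarith

theorem dr_eq (hr : ∀ i, r i = -(1 / 2) + (i : ℝ) / N) (i : ℕ) : r (i + 1) - r i = 1 / N := by
  rw [hr, hr]
  push_cast
  ring

/-- the change of variables in the total variation -/
theorem tv_cell {W : ℝ → ℝ} (hr : ∀ i, r i = -(1 / 2) + (i : ℝ) / N) (i : ℕ) :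
    ∫ v in (0 : ℝ)..1, |deriv (fun v => W (pt r i v)) v| = ∫ a in (π * r i)..(π * r (i + 1)), |deriv W a| := by
  have hd : 0 ≤ π * (r (i + 1) - r i) := by
    rw [dr_eq hr]
    have := pi_pos
    positivity
  have e1 : ∀ v, |deriv (fun v => W (pt r i v)) v|
      = π * (r (i + 1) - r i) * |deriv W (π * r i + π * (r (i + 1) - r i) * v)| := fun v => by
    have k1 : (fun v => W (pt r i v)) = fun v => (fun y => W (π * r i + y)) (π * (r (i + 1) - r i) * v) := rfl
    rw [k1, deriv_comp_mul_left (π * (r (i + 1) - r i)) (fun y => W (π * r i + y)) v, deriv_comp_const_add,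
      smul_eq_mul, abs_mul, abs_of_nonneg hd]
  simp only [e1]
  have h := intervalIntegral.smul_integral_comp_add_mul (a := (0 : ℝ)) (b := 1) (fun a => |deriv W a|)
    (π * (r (i + 1) - r i)) (π * r i)
  rw [intervalIntegral.integral_const_mul]
  rw [smul_eq_mul] at h
  rw [h]
  congr 1 <;> ring

/-- **moments from cell averages**, general form -/
theorem gen_av {W : ℝ → ℝ} {K : ℝ≥0} (hW : LipschitzWith K W) {m : ℕ}
    (hp : ∀ a, ph m (a + π) * (W (a + π) : ℂ) = ph m a * (W a : ℂ)) (hN : 0 < N)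
    (hr : ∀ i, r i = -(1 / 2) + (i : ℝ) / N) {T : ℝ} (hT : ∫ a in (-(π / 2))..(π / 2), |deriv W a| ≤ T) :
    ‖((1 / (2 * π) : ℝ) : ℂ) * (∫ a in (0 : ℝ)..(2 * π), ph m a * (W a : ℂ))
      - ((1 / N : ℝ) : ℂ) * ∑ i ∈ Finset.range N, pm m r i * ((∫ v in (0 : ℝ)..1, W (pt r i v) : ℝ) : ℂ)‖
      ≤ m * π / (8 * N ^ 2) * T := by
  have hpi := pi_pos
  have hN' : (0 : ℝ) < N := by exact_mod_cast hN
  have G := grid_of hN hr
  have cW : Continuous fun a => (W a : ℂ) := Complex.continuous_ofReal.comp hW.continuous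
  have cF : Continuous fun a => ph m a * (W a : ℂ) := (SQD.cont_ph m).mul cW
  rw [NOD.mean_cells cF hp G, Finset.mul_sum, ← Finset.sum_sub_distrib]
  have key : ∀ i ∈ Finset.range N, ‖((r (i + 1) - r i : ℝ) : ℂ) * (∫ v in (0 : ℝ)..1, ph m (pt r i v) * (W (pt r i v) : ℂ))
      - ((1 / N : ℝ) : ℂ) * (pm m r i * ((∫ v in (0 : ℝ)..1, W (pt r i v) : ℝ) : ℂ))‖
      ≤ m * π / (8 * N ^ 2) * ∫ a in (π * r i)..(π * r (i + 1)), |deriv W a| := by
    intro i _
    rw [dr_eq hr, ← mul_sub, norm_mul, Complex.norm_real, Real.norm_eq_abs, abs_of_pos (by positivity)]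
    have hf : ∀ x y, ‖ph m (pt r i x) - ph m (pt r i y)‖ ≤ (m * π / N) * |x - y| := fun x y => by
      refine (ph_lip m _ _).trans (le_of_eq ?_)
      have e : pt r i x - pt r i y = π / N * (x - y) := by
        unfold pt
        rw [dr_eq hr]
        ring
      rw [e, abs_mul, abs_of_pos (by positivity)]
      ring
    have hZ : LipschitzWith (K * ⟨π / N, by positivity⟩) fun v => W (pt r i v) := by
      refine hW.comp (LipschitzWith.of_dist_le_mul fun x y => ?_)
      rw [Real.dist_eq, Real.dist_eq]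
      have e : pt r i x - pt r i y = π / N * (x - y) := by
        unfold pt
        rw [dr_eq hr]
        ring
      rw [e, abs_mul, abs_of_pos (by positivity)]
      rfl
    have h := cov_cx hf hZ
    rw [tv_cell hr] at h
    have h2 := mul_le_mul_of_nonneg_left h (by positivity : (0 : ℝ) ≤ 1 / N)
    refine h2.trans (le_of_eq ?_)
    field_simp
  refine (norm_sum_le _ _).trans ((Finset.sum_le_sum key).trans ?_)
  rw [← Finset.mul_sum]
  refine mul_le_mul_of_nonneg_left ?_ (by positivity)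
  have hi : ∀ a b, IntervalIntegrable (fun t => |deriv W t|) volume a b := fun a b =>
    ((hW.lipschitzOnWith (s := uIcc a b)).absolutelyContinuousOnInterval).intervalIntegrable_deriv.abs
  have e2 := intervalIntegral.sum_integral_adjacent_intervals (a := fun i => π * r i) (n := N)
    (f := fun t => |deriv W t|) (μ := volume) fun i _ => hi _ _
  rw [G.zero, G.last, show π * -(1 / 2) = -(π / 2) by ring, show π * (1 / 2) = π / 2 by ring] at e2
  rw [e2]
  exact hT

variable {s : ℝ} {X : ℝ → ℝ}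

/-- **linear moments from cell averages** -/
theorem lin_av (hX : St s X) (h0 : 0 ≤ s) (h1 : s ≤ 1) {xm : ℝ} (hb : ∀ a, |X a| ≤ xm) {m : ℕ} (hm : Odd m)
    (hN : 0 < N) (hr : ∀ i, r i = -(1 / 2) + (i : ℝ) / N) :
    ‖((1 / (2 * π) : ℝ) : ℂ) * (∫ a in (0 : ℝ)..(2 * π), ph m a * (X a : ℂ))
      - ((1 / N : ℝ) : ℂ) * ∑ i ∈ Finset.range N, pm m r i * (av X r i : ℂ)‖
      ≤ m * π / (8 * N ^ 2) * (4 + 2 * xm) := by
  obtain ⟨K, hK⟩ := hX.lip
  exact gen_av hK (fun a => by rw [SQD.ph_odd hm, hX.anti]; push_cast; ring) hN hr (tv_le hX h0 h1 hb)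

/-- **quadratic moments from the cell averages of the square** -/
theorem sq_av (hX : St s X) (h0 : 0 ≤ s) (h1 : s ≤ 1) {xm : ℝ} (hb : ∀ a, |X a| ≤ xm) {m : ℕ} (hm : Even m)
    (hN : 0 < N) (hr : ∀ i, r i = -(1 / 2) + (i : ℝ) / N) :
    ‖((1 / (2 * π) : ℝ) : ℂ) * (∫ a in (0 : ℝ)..(2 * π), ph m a * ((X a ^ 2 : ℝ) : ℂ))
      - ((1 / N : ℝ) : ℂ) * ∑ i ∈ Finset.range N, pm m r i * ((∫ v in (0 : ℝ)..1, X (pt r i v) ^ 2 : ℝ) : ℂ)‖
      ≤ m * π / (8 * N ^ 2) * (2 * xm * (4 + 2 * xm)) := by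
  obtain ⟨K, hK⟩ := hX.lip
  have hxm : 0 ≤ xm := (abs_nonneg _).trans (hb 0)
  have hW : LipschitzWith (Real.toNNReal (2 * xm) * K) fun a => X a ^ 2 := by
    refine LipschitzWith.of_dist_le_mul fun x y => ?_
    rw [Real.dist_eq, show X x ^ 2 - X y ^ 2 = (X x + X y) * (X x - X y) by ring, abs_mul]
    have k1 : |X x + X y| ≤ 2 * xm := by
      refine (abs_add_le _ _).trans ?_
      linarith [hb x, hb y]
    have k2 : |X x - X y| ≤ K * |x - y| := by
      have := hK.dist_le_mul x y
      rwa [Real.dist_eq, Real.dist_eq] at this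
    have := mul_le_mul k1 k2 (abs_nonneg _) (by positivity)
    refine this.trans (le_of_eq ?_)
    rw [Real.dist_eq, NNReal.coe_mul, Real.coe_toNNReal _ (by positivity)]
    ring
  refine gen_av hW (fun a => by rw [SQD.ph_even hm, hX.anti, neg_sq]) hN hr ?_
  have hi : ∀ a b, IntervalIntegrable (fun t => |deriv (fun a => X a ^ 2) t|) volume a b := fun a b =>
    ((hW.lipschitzOnWith (s := uIcc a b)).absolutelyContinuousOnInterval).intervalIntegrable_deriv.abs
  have hd : ∀ᵐ a, |deriv (fun a => X a ^ 2) a| ≤ 2 * xm * |deriv X a| := by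
    filter_upwards [hK.ae_differentiableAt_real] with a ha
    have : deriv (fun a => X a ^ 2) a = 2 * X a * deriv X a := by
      have := (ha.hasDerivAt.fun_pow 2).deriv
      simpa using this
    rw [this, abs_mul, abs_mul, abs_two]
    exact mul_le_mul_of_nonneg_right (by linarith [hb a]) (abs_nonneg _)
  have hle : -(π / 2) ≤ π / 2 := by linarith [pi_pos]
  have k := intervalIntegral.integral_mono_ae hle (hi _ _) ((abs_int hX (-(π / 2)) (π / 2)).const_mul (2 * xm)) hd
  rw [intervalIntegral.integral_const_mul] at k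
  exact k.trans (mul_le_mul_of_nonneg_left (tv_le hX h0 h1 hb) (by positivity))

end grid

/-- mean of the phase from the cubic polynomial -/
theorem pm_le {m : ℕ} {r : ℕ → ℝ} {i : ℕ} {c : Fin 4 → ℂ} {η : ℝ}
    (h : ∀ v, 0 ≤ v → v ≤ 1 → ‖ph m (pt r i v) - Fp c v‖ ≤ η) : ‖pm m r i - (c 0 + c 2 / 12)‖ ≤ η := by
  have e1 : ∫ v in (0 : ℝ)..1, Fp c v = c 0 + c 2 / 12 := by
    have := NOD.int_poly (c 0) (c 1) (c 2) (c 3) 0 0 0 0
    simp only [zero_mul, add_zero, zero_div] at this
    unfold Fp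
    exact this
  have cp : Continuous (pt r i) := by
    unfold pt
    fun_prop
  have i1 : IntervalIntegrable (fun v => ph m (pt r i v)) volume 0 1 :=
    ((SQD.cont_ph m).comp cp).intervalIntegrable _ _
  have i2 : IntervalIntegrable (Fp c) volume 0 1 := (NOD.cont_Fp c).intervalIntegrable _ _
  unfold pm
  rw [← e1, ← intervalIntegral.integral_sub i1 i2]
  have := intervalIntegral.norm_integral_le_of_norm_le_const (a := (0 : ℝ)) (b := 1) (C := η)
    (f := fun v => ph m (pt r i v) - Fp c v) fun v hv => by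
      rw [uIoc_of_le zero_le_one] at hv
      exact h v hv.1.le hv.2
  simpa using this

end Pool.Agent.FPX.CAV
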