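import Pool.Agent.FPX.ALI

/-
NOD (helper39): nodal description of the states in the visual angle. On a cell the slopes of `X` lie between
`-(L + L' w)` and `H + H' w` (`w ∈ [-1/2, 1/2]` the scaled variable); then `X` differs from an explicit quadratic
polynomial in `w` whose coefficients are affine in the two end values by at most `p q / (H + L)`, where
`p = H - d ≥ 0`, `q = L + d ≥ 0`, `d` the increment. Moments of `X` and `X²` with explicit errors.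
-/

open MeasureTheory Set Filter Topology
open scoped ComplexConjugate

noncomputable section

namespace Pool.Agent.FPX.NOD

/-! ### one cell -/

/-- the antiderivative of `H + H' (v - 1/2)` -/
def PH (H H' v : ℝ) : ℝ := H * v - H' / 2 * (v * (1 - v))

/-- the comparison function with mean `xb`, slope `δ`, bump `g` -/
def Xh (xb δ g v : ℝ) : ℝ := xb + δ * (v - 1 / 2) + g * (v * (1 - v))

section cell

variable {Z : ℝ → ℝ} {H H' L L' : ℝ}

/-- regular cell; `Z v = X (a + h v)` -/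
theorem cell_reg (hHL : 0 < H + L)
    (hup : ∀ x y, 0 ≤ x → x ≤ y → y ≤ 1 → Z y - Z x ≤ PH H H' y - PH H H' x)
    (hlo : ∀ x y, 0 ≤ x → x ≤ y → y ≤ 1 → -(PH L L' y - PH L L' x) ≤ Z y - Z x) :
    0 ≤ H - (Z 1 - Z 0) ∧ 0 ≤ L + (Z 1 - Z 0) ∧ ∀ v, 0 ≤ v → v ≤ 1 →
      |Z v - Xh ((Z 0 + Z 1) / 2) (Z 1 - Z 0)
          (L' / 2 - (H' + L') / (2 * (H + L)) * (L + (Z 1 - Z 0))) v|
        ≤ (H - (Z 1 - Z 0)) * (L + (Z 1 - Z 0)) / (H + L) := by
  have a1 := hup 0 1 le_rfl zero_le_one le_rfl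
  have a2 := hlo 0 1 le_rfl zero_le_one le_rfl
  have P0 : ∀ H H', PH H H' 0 = 0 := fun H H' => by
    unfold PH
    ring
  have P1 : ∀ H H', PH H H' 1 = H := fun H H' => by
    unfold PH
    ring
  rw [P0, P1] at a1 a2
  have hp : 0 ≤ H - (Z 1 - Z 0) := by linarith
  have hq : 0 ≤ L + (Z 1 - Z 0) := by linarith
  refine ⟨hp, hq, fun v hv0 hv1 => ?_⟩
  have b1 := hup 0 v le_rfl hv0 hv1
  have b2 := hlo 0 v le_rfl hv0 hv1
  have b3 := hup v 1 hv0 hv1 le_rfl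
  have b4 := hlo v 1 hv0 hv1 le_rfl
  rw [P0] at b1 b2
  rw [P1] at b3 b4
  set p := H - (Z 1 - Z 0) with hpd
  set q := L + (Z 1 - Z 0) with hqd
  have hpq : p + q = H + L := by
    rw [hpd, hqd]
    ring
  set T := H + L with hT
  set G := PH H H' v + PH L L' v with hG
  set Q := Z v - Z 0 + PH L L' v with hQ
  have c1 : 0 ≤ Q := by rw [hQ]; linarith
  have c2 : Q ≤ q := by rw [hQ, hqd]; linarith
  have c3 : Q ≤ G := by rw [hQ, hG]; linarith
  have c4 : q - Q ≤ T - G := by rw [hQ, hqd, hG, hT]; linarith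
  have c5 : 0 ≤ G := c1.trans c3
  have c6 : 0 ≤ T - G := by linarith
  have e : Z v - Xh ((Z 0 + Z 1) / 2) (Z 1 - Z 0) (L' / 2 - (H' + L') / (2 * T) * q) v
      = (Q * T - q * G) / T := by
    have hT0 : T ≠ 0 := hHL.ne'
    rw [eq_div_iff hT0]
    have e1 : (H' + L') / (2 * T) * q * T = (H' + L') / 2 * q := by
      field_simp
    have e2 : (Z v - Xh ((Z 0 + Z 1) / 2) (Z 1 - Z 0) (L' / 2 - (H' + L') / (2 * T) * q) v) * T
        = (Z v - (Z 0 + Z 1) / 2 - (Z 1 - Z 0) * (v - 1 / 2) - L' / 2 * (v * (1 - v))) * T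
          + ((H' + L') / (2 * T) * q * T) * (v * (1 - v)) := by
      unfold Xh
      ring
    rw [e2, e1, hQ, hG, hqd, hT]
    unfold PH
    ring
  rw [e, abs_div, abs_of_pos hHL, div_le_div_iff_of_pos_right hHL, abs_le]
  constructor
  · -- `q G - Q T ≤ p q`
    have f1 : q * G - Q * T ≤ q * G := by
      have := mul_nonneg c1 hHL.le
      linarith
    have f2 : q * G - Q * T ≤ p * (T - G) := by
      have : (q - Q) * T ≤ (T - G) * T := mul_le_mul_of_nonneg_right c4 hHL.le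
      rw [← hpq] at this ⊢
      nlinarith
    have : (q * G - Q * T) * T ≤ (p * q) * T := by
      have g1 := mul_le_mul_of_nonneg_right f1 hp
      have g2 := mul_le_mul_of_nonneg_right f2 hq
      rw [← hpq] at g2 ⊢
      nlinarith
    have := le_of_mul_le_mul_right this hHL
    linarith
  · have f1 : Q * T - q * G ≤ q * (T - G) := by
      have : Q * T ≤ q * T := mul_le_mul_of_nonneg_right c2 hHL.le
      linarith
    have f2 : Q * T - q * G ≤ p * G := by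
      have : Q * T ≤ G * T := mul_le_mul_of_nonneg_right c3 hHL.le
      rw [← hpq] at this ⊢
      nlinarith
    have : (Q * T - q * G) * T ≤ (p * q) * T := by
      have g1 := mul_le_mul_of_nonneg_right f1 hp
      have g2 := mul_le_mul_of_nonneg_right f2 hq
      rw [← hpq] at g1 g2 ⊢
      nlinarith
    exact le_of_mul_le_mul_right this hHL

/-- last cell: only the lower slope is bounded -/
theorem cell_last (hlo : ∀ x y, 0 ≤ x → x ≤ y → y ≤ 1 → -(PH L L' y - PH L L' x) ≤ Z y - Z x) :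
    0 ≤ L + (Z 1 - Z 0) ∧ ∀ v, 0 ≤ v → v ≤ 1 →
      |Z v - Xh ((Z 0 + Z 1) / 2) (-L) (L' / 2) v| ≤ (L + (Z 1 - Z 0)) / 2 := by
  have a2 := hlo 0 1 le_rfl zero_le_one le_rfl
  have P0 : ∀ H H', PH H H' 0 = 0 := fun H H' => by
    unfold PH
    ring
  have P1 : ∀ H H', PH H H' 1 = H := fun H H' => by
    unfold PH
    ring
  rw [P0, P1] at a2
  refine ⟨by linarith, fun v hv0 hv1 => ?_⟩
  have b2 := hlo 0 v le_rfl hv0 hv1
  have b4 := hlo v 1 hv0 hv1 le_rfl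
  rw [P0] at b2
  rw [P1] at b4
  have e : Z v - Xh ((Z 0 + Z 1) / 2) (-L) (L' / 2) v = Z v - Z 0 + PH L L' v - (L + (Z 1 - Z 0)) / 2 := by
    unfold Xh PH
    ring
  rw [e, abs_le]
  constructor <;> linarith

/-- first cell: only the upper slope is bounded -/
theorem cell_first (hup : ∀ x y, 0 ≤ x → x ≤ y → y ≤ 1 → Z y - Z x ≤ PH H H' y - PH H H' x) :
    0 ≤ H - (Z 1 - Z 0) ∧ ∀ v, 0 ≤ v → v ≤ 1 →
      |Z v - Xh ((Z 0 + Z 1) / 2) H (-(H' / 2)) v| ≤ (H - (Z 1 - Z 0)) / 2 := by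
  have a2 := hup 0 1 le_rfl zero_le_one le_rfl
  have P0 : ∀ H H', PH H H' 0 = 0 := fun H H' => by
    unfold PH
    ring
  have P1 : ∀ H H', PH H H' 1 = H := fun H H' => by
    unfold PH
    ring
  rw [P0, P1] at a2
  refine ⟨by linarith, fun v hv0 hv1 => ?_⟩
  have b2 := hup 0 v le_rfl hv0 hv1
  have b4 := hup v 1 hv0 hv1 le_rfl
  rw [P0] at b2
  rw [P1] at b4
  have e : Z v - Xh ((Z 0 + Z 1) / 2) H (-(H' / 2)) v
      = -(Z 1 - Z v) + (H - PH H H' v) - (H - (Z 1 - Z 0)) / 2 := by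
    unfold Xh PH
    ring
  rw [e, abs_le]
  constructor <;> linarith

end cell

/-! ### integrals over one cell -/

/-- the cubic polynomial in `w = v - 1/2` -/
def Fp (c : Fin 4 → ℂ) (v : ℝ) : ℂ := c 0 + c 1 * (v - 1 / 2) + c 2 * (v - 1 / 2) ^ 2 + c 3 * (v - 1 / 2) ^ 3

/-- the integral of `Fp` times the comparison function -/
def LF (c : Fin 4 → ℂ) (xb δ g : ℝ) : ℂ :=
  c 0 * (xb + g / 6 : ℝ) + c 1 * (δ / 12 : ℝ) + c 2 * (xb / 12 + g / 120 : ℝ) + c 3 * (δ / 80 : ℝ)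

/-- the integral of `Fp` times the square of the comparison function -/
def QF (c : Fin 4 → ℂ) (xb δ g : ℝ) : ℂ :=
  c 0 * (xb ^ 2 + δ ^ 2 / 12 + g ^ 2 / 30 + xb * g / 3 : ℝ) + c 1 * (xb * δ / 6 + δ * g / 60 : ℝ)
    + c 2 * (xb ^ 2 / 12 + δ ^ 2 / 80 + g ^ 2 / 840 + xb * g / 60 : ℝ) + c 3 * (xb * δ / 40 + δ * g / 560 : ℝ)

theorem cont_Fp (c : Fin 4 → ℂ) : Continuous (Fp c) := by
  unfold Fp
  fun_prop

theorem cont_Xh (xb δ g : ℝ) : Continuous (Xh xb δ g) := by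
  unfold Xh
  fun_prop

/-- moments of the powers -/
theorem int_pw (n : ℕ) : ∫ v in (0 : ℝ)..1, ((v : ℂ) - 1 / 2) ^ n
    = (((1 / 2) ^ (n + 1) - (-(1 / 2)) ^ (n + 1)) / (n + 1) : ℝ) := by
  have h1 : ∀ v : ℝ, ((v : ℂ) - 1 / 2) ^ n = (((v - 1 / 2) ^ n : ℝ) : ℂ) := fun v => by
    push_cast
    rfl
  simp only [h1]
  rw [intervalIntegral.integral_ofReal, intervalIntegral.integral_comp_sub_right (fun x : ℝ => x ^ n),
    integral_pow]
  norm_num

theorem int_poly (a0 a1 a2 a3 a4 a5 a6 a7 : ℂ) : ∫ v in (0 : ℝ)..1, (a0 + a1 * ((v : ℂ) - 1 / 2)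
      + a2 * ((v : ℂ) - 1 / 2) ^ 2 + a3 * ((v : ℂ) - 1 / 2) ^ 3 + a4 * ((v : ℂ) - 1 / 2) ^ 4
      + a5 * ((v : ℂ) - 1 / 2) ^ 5 + a6 * ((v : ℂ) - 1 / 2) ^ 6 + a7 * ((v : ℂ) - 1 / 2) ^ 7)
    = a0 + a2 / 12 + a4 / 80 + a6 / 448 := by
  have c : ∀ (a : ℂ) (n : ℕ), IntervalIntegrable (fun v : ℝ => a * ((v : ℂ) - 1 / 2) ^ n) volume 0 1 := fun a n =>
    Continuous.intervalIntegrable (by fun_prop) _ _
  have e : ∀ v : ℝ, a0 + a1 * ((v : ℂ) - 1 / 2)
      + a2 * ((v : ℂ) - 1 / 2) ^ 2 + a3 * ((v : ℂ) - 1 / 2) ^ 3 + a4 * ((v : ℂ) - 1 / 2) ^ 4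
      + a5 * ((v : ℂ) - 1 / 2) ^ 5 + a6 * ((v : ℂ) - 1 / 2) ^ 6 + a7 * ((v : ℂ) - 1 / 2) ^ 7
      = ∑ i : Fin 8, (![a0, a1, a2, a3, a4, a5, a6, a7] : Fin 8 → ℂ) i * ((v : ℂ) - 1 / 2) ^ (i : ℕ) := by
    intro v
    simp [Fin.sum_univ_succ]
    ring
  simp only [e]
  rw [intervalIntegral.integral_finsetSum fun i _ => c _ _]
  simp only [intervalIntegral.integral_const_mul, int_pw]
  simp [Fin.sum_univ_succ]
  norm_num
  ring

theorem int_LF (c : Fin 4 → ℂ) (xb δ g : ℝ) : ∫ v in (0 : ℝ)..1, Fp c v * (Xh xb δ g v : ℝ) = LF c xb δ g := by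
  have h := int_poly (c 0 * (xb + g / 4)) (c 0 * δ + c 1 * (xb + g / 4))
    (c 0 * (-g) + c 1 * δ + c 2 * (xb + g / 4)) (c 1 * (-g) + c 2 * δ + c 3 * (xb + g / 4))
    (c 2 * (-g) + c 3 * δ) (c 3 * (-g)) 0 0
  have e : ∀ v : ℝ, Fp c v * (Xh xb δ g v : ℝ) = c 0 * (xb + g / 4) + (c 0 * δ + c 1 * (xb + g / 4)) * ((v : ℂ) - 1 / 2)
      + (c 0 * (-g) + c 1 * δ + c 2 * (xb + g / 4)) * ((v : ℂ) - 1 / 2) ^ 2
      + (c 1 * (-g) + c 2 * δ + c 3 * (xb + g / 4)) * ((v : ℂ) - 1 / 2) ^ 3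
      + (c 2 * (-g) + c 3 * δ) * ((v : ℂ) - 1 / 2) ^ 4
      + (c 3 * (-g)) * ((v : ℂ) - 1 / 2) ^ 5 + 0 * ((v : ℂ) - 1 / 2) ^ 6 + 0 * ((v : ℂ) - 1 / 2) ^ 7 := by
    intro v
    unfold Fp Xh
    push_cast
    ring
  simp only [e]
  rw [h]
  unfold LF
  push_cast
  ring

theorem int_QF (c : Fin 4 → ℂ) (xb δ g : ℝ) :
    ∫ v in (0 : ℝ)..1, Fp c v * ((Xh xb δ g v ^ 2 : ℝ) : ℂ) = QF c xb δ g := by
  obtain ⟨A, hA⟩ : ∃ A : ℂ, A = xb + g / 4 := ⟨_, rfl⟩
  have h := int_poly (c 0 * A ^ 2) (c 0 * (2 * A * δ) + c 1 * A ^ 2)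
    (c 0 * (δ ^ 2 - 2 * A * g) + c 1 * (2 * A * δ) + c 2 * A ^ 2)
    (c 0 * (-2 * δ * g) + c 1 * (δ ^ 2 - 2 * A * g) + c 2 * (2 * A * δ) + c 3 * A ^ 2)
    (c 0 * g ^ 2 + c 1 * (-2 * δ * g) + c 2 * (δ ^ 2 - 2 * A * g) + c 3 * (2 * A * δ))
    (c 1 * g ^ 2 + c 2 * (-2 * δ * g) + c 3 * (δ ^ 2 - 2 * A * g))
    (c 2 * g ^ 2 + c 3 * (-2 * δ * g)) (c 3 * g ^ 2)
  have e : ∀ v : ℝ, Fp c v * ((Xh xb δ g v ^ 2 : ℝ) : ℂ) = c 0 * A ^ 2
      + (c 0 * (2 * A * δ) + c 1 * A ^ 2) * ((v : ℂ) - 1 / 2)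
      + (c 0 * (δ ^ 2 - 2 * A * g) + c 1 * (2 * A * δ) + c 2 * A ^ 2) * ((v : ℂ) - 1 / 2) ^ 2
      + (c 0 * (-2 * δ * g) + c 1 * (δ ^ 2 - 2 * A * g) + c 2 * (2 * A * δ) + c 3 * A ^ 2) * ((v : ℂ) - 1 / 2) ^ 3
      + (c 0 * g ^ 2 + c 1 * (-2 * δ * g) + c 2 * (δ ^ 2 - 2 * A * g) + c 3 * (2 * A * δ)) * ((v : ℂ) - 1 / 2) ^ 4
      + (c 1 * g ^ 2 + c 2 * (-2 * δ * g) + c 3 * (δ ^ 2 - 2 * A * g)) * ((v : ℂ) - 1 / 2) ^ 5
      + (c 2 * g ^ 2 + c 3 * (-2 * δ * g)) * ((v : ℂ) - 1 / 2) ^ 6 + (c 3 * g ^ 2) * ((v : ℂ) - 1 / 2) ^ 7 := by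
    intro v
    rw [hA]
    unfold Fp Xh
    push_cast
    ring
  simp only [e]
  rw [h, hA]
  unfold QF
  push_cast
  ring

/-! ### the circle -/

/-- a grid of `[-1/2, 1/2]` (units of `π`) -/
structure Grid (N : ℕ) (r : ℕ → ℝ) : Prop where
  zero : r 0 = -(1 / 2)
  last : r N = 1 / 2
  inc : ∀ i < N, r i < r (i + 1)

/-- the point of the cell `i` with scaled variable `v` -/
def pt (r : ℕ → ℝ) (i : ℕ) (v : ℝ) : ℝ := Real.pi * r i + Real.pi * (r (i + 1) - r i) * v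

theorem pt_zero (r : ℕ → ℝ) (i : ℕ) : pt r i 0 = Real.pi * r i := by
  unfold pt
  ring

theorem pt_one (r : ℕ → ℝ) (i : ℕ) : pt r i 1 = Real.pi * r (i + 1) := by
  unfold pt
  ring

/-- the mean over the circle of a `π`-periodic function as a sum over cells -/
theorem mean_cells {F : ℝ → ℂ} (hF : Continuous F) (hp : ∀ a, F (a + Real.pi) = F a) {N : ℕ} {r : ℕ → ℝ}
    (G : Grid N r) : (1 / (2 * Real.pi) : ℝ) * ∫ a in (0 : ℝ)..(2 * Real.pi), F a
      = ∑ i ∈ Finset.range N, ((r (i + 1) - r i : ℝ) : ℂ) * ∫ v in (0 : ℝ)..1, F (pt r i v) := by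
  have hper : Function.Periodic F Real.pi := hp
  have hi : ∀ a b, IntervalIntegrable F volume a b := fun a b => hF.intervalIntegrable a b
  have e1 : ∫ a in (0 : ℝ)..(2 * Real.pi), F a = 2 * ∫ a in (-(Real.pi / 2))..(Real.pi / 2), F a := by
    rw [← intervalIntegral.integral_add_adjacent_intervals (hi 0 Real.pi) (hi Real.pi (2 * Real.pi))]
    have h1 := hper.intervalIntegral_add_eq 0 (-(Real.pi / 2))
    have h2 := hper.intervalIntegral_add_eq Real.pi (-(Real.pi / 2))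
    rw [zero_add, show -(Real.pi / 2) + Real.pi = Real.pi / 2 by ring] at h1
    rw [show Real.pi + Real.pi = 2 * Real.pi by ring, show -(Real.pi / 2) + Real.pi = Real.pi / 2 by ring] at h2
    rw [h1, h2]
    ring
  have e2 := intervalIntegral.sum_integral_adjacent_intervals (a := fun i => Real.pi * r i) (n := N)
    (f := F) (μ := volume) fun i _ => hi _ _
  rw [G.zero, G.last, show Real.pi * -(1 / 2) = -(Real.pi / 2) by ring,
    show Real.pi * (1 / 2) = Real.pi / 2 by ring] at e2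
  rw [e1, ← e2, Finset.mul_sum, Finset.mul_sum]
  refine Finset.sum_congr rfl fun i _ => ?_
  have h := intervalIntegral.smul_integral_comp_add_mul (a := (0 : ℝ)) (b := 1) F
    (Real.pi * (r (i + 1) - r i)) (Real.pi * r i)
  have e3 : Real.pi * r i + Real.pi * (r (i + 1) - r i) * 0 = Real.pi * r i := by ring
  have e4 : Real.pi * r i + Real.pi * (r (i + 1) - r i) * 1 = Real.pi * r (i + 1) := by ring
  rw [e3, e4] at h
  rw [← h]
  have hπ : (Real.pi : ℂ) ≠ 0 := Complex.ofReal_ne_zero.2 Real.pi_ne_zero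
  simp only [pt, Complex.real_smul]
  push_cast
  field_simp

section sums

variable {X : ℝ → ℝ} (hX : Continuous X) (ha : ∀ a, X (a + Real.pi) = -X a) {xm : ℝ} (hb : ∀ a, |X a| ≤ xm)
  {N : ℕ} {r : ℕ → ℝ} (G : Grid N r) {δ g e : ℕ → ℝ}
  (hc : ∀ i < N, ∀ v, 0 ≤ v → v ≤ 1 →
    |X (pt r i v) - Xh ((X (Real.pi * r i) + X (Real.pi * r (i + 1))) / 2) (δ i) (g i) v| ≤ e i)
  {φ : ℝ → ℂ} (hφ : Continuous φ) {B : ℝ} (hB : ∀ a, ‖φ a‖ ≤ B)
  {c : ℕ → Fin 4 → ℂ} {η : ℕ → ℝ} (hη : ∀ i < N, ∀ v, 0 ≤ v → v ≤ 1 → ‖φ (pt r i v) - Fp (c i) v‖ ≤ η i)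

include hX ha hb G hc hφ hB hη

/-- **linear moments** -/
theorem lin_le (hφa : ∀ a, φ (a + Real.pi) = -φ a) :
    ‖(1 / (2 * Real.pi) : ℝ) * (∫ a in (0 : ℝ)..(2 * Real.pi), φ a * X a)
      - ∑ i ∈ Finset.range N, ((r (i + 1) - r i : ℝ) : ℂ)
        * LF (c i) ((X (Real.pi * r i) + X (Real.pi * r (i + 1))) / 2) (δ i) (g i)‖
      ≤ ∑ i ∈ Finset.range N, (r (i + 1) - r i) * (η i * xm + (B + η i) * e i) := by
  have cX : Continuous fun a => (X a : ℂ) := Complex.continuous_ofReal.comp hX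
  have cF : Continuous fun a => φ a * (X a : ℂ) := hφ.mul cX
  rw [mean_cells cF (fun a => by rw [hφa, ha]; push_cast; ring) G, ← Finset.sum_sub_distrib]
  refine (norm_sum_le _ _).trans (Finset.sum_le_sum fun i hi => ?_)
  have hiN := Finset.mem_range.1 hi
  have hd : 0 < r (i + 1) - r i := sub_pos.2 (G.inc i hiN)
  rw [← mul_sub, norm_mul, Complex.norm_real, Real.norm_eq_abs, abs_of_pos hd]
  refine mul_le_mul_of_nonneg_left ?_ hd.le
  rw [← int_LF]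
  have cp : Continuous (pt r i) := by
    unfold pt
    fun_prop
  have i1 : IntervalIntegrable (fun v => φ (pt r i v) * X (pt r i v)) volume 0 1 :=
    ((hφ.comp cp).mul (cX.comp cp)).intervalIntegrable _ _
  have i2 : IntervalIntegrable (fun v => Fp (c i) v
      * (Xh ((X (Real.pi * r i) + X (Real.pi * r (i + 1))) / 2) (δ i) (g i) v : ℝ)) volume 0 1 :=
    ((cont_Fp _).mul (Complex.continuous_ofReal.comp (cont_Xh _ _ _))).intervalIntegrable _ _
  rw [← intervalIntegral.integral_sub i1 i2]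
  have key : ∀ v ∈ Set.uIoc (0 : ℝ) 1, ‖φ (pt r i v) * X (pt r i v) - Fp (c i) v
      * (Xh ((X (Real.pi * r i) + X (Real.pi * r (i + 1))) / 2) (δ i) (g i) v : ℝ)‖
      ≤ η i * xm + (B + η i) * e i := by
    intro v hv
    rw [uIoc_of_le zero_le_one] at hv
    have h1 := hη i hiN v hv.1.le hv.2
    have h2 := hc i hiN v hv.1.le hv.2
    have h3 := hb (pt r i v)
    have h4 := hB (pt r i v)
    set x := X (pt r i v)
    set y := Xh ((X (Real.pi * r i) + X (Real.pi * r (i + 1))) / 2) (δ i) (g i) v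
    set f := φ (pt r i v)
    set F := Fp (c i) v
    have e1 : f * x - F * y = (f - F) * x + F * ((x - y : ℝ) : ℂ) := by
      push_cast
      ring
    rw [e1]
    refine (norm_add_le _ _).trans (add_le_add ?_ ?_)
    · rw [norm_mul, Complex.norm_real]
      exact mul_le_mul h1 h3 (norm_nonneg _) ((norm_nonneg _).trans h1)
    · rw [norm_mul, Complex.norm_real]
      have h5 : ‖F‖ ≤ B + η i := by
        have : ‖F‖ ≤ ‖f‖ + ‖f - F‖ := by
          have := norm_sub_norm_le F f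
          rw [norm_sub_rev] at this
          linarith
        linarith
      exact mul_le_mul h5 h2 (norm_nonneg _) ((norm_nonneg _).trans h5)
  have := intervalIntegral.norm_integral_le_of_norm_le_const key
  simpa using this

/-- **quadratic moments** -/
theorem quad_le (hφa : ∀ a, φ (a + Real.pi) = φ a) {eb : ℕ → ℝ} (heb : ∀ i < N, e i ≤ eb i) :
    ‖(1 / (2 * Real.pi) : ℝ) * (∫ a in (0 : ℝ)..(2 * Real.pi), φ a * (X a ^ 2 : ℝ))
      - ∑ i ∈ Finset.range N, ((r (i + 1) - r i : ℝ) : ℂ)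
        * QF (c i) ((X (Real.pi * r i) + X (Real.pi * r (i + 1))) / 2) (δ i) (g i)‖
      ≤ ∑ i ∈ Finset.range N, (r (i + 1) - r i) * (η i * xm ^ 2 + (B + η i) * ((2 * xm + eb i) * e i)) := by
  have cX : Continuous fun a => ((X a ^ 2 : ℝ) : ℂ) := Complex.continuous_ofReal.comp (hX.pow 2)
  have cF : Continuous fun a => φ a * ((X a ^ 2 : ℝ) : ℂ) := hφ.mul cX
  rw [mean_cells cF (fun a => by rw [hφa, ha, neg_sq]) G, ← Finset.sum_sub_distrib]
  refine (norm_sum_le _ _).trans (Finset.sum_le_sum fun i hi => ?_)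
  have hiN := Finset.mem_range.1 hi
  have hd : 0 < r (i + 1) - r i := sub_pos.2 (G.inc i hiN)
  rw [← mul_sub, norm_mul, Complex.norm_real, Real.norm_eq_abs, abs_of_pos hd]
  refine mul_le_mul_of_nonneg_left ?_ hd.le
  rw [← int_QF]
  have cp : Continuous (pt r i) := by
    unfold pt
    fun_prop
  have i1 : IntervalIntegrable (fun v => φ (pt r i v) * ((X (pt r i v) ^ 2 : ℝ) : ℂ)) volume 0 1 :=
    ((hφ.comp cp).mul (cX.comp cp)).intervalIntegrable _ _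
  have i2 : IntervalIntegrable (fun v => Fp (c i) v
      * ((Xh ((X (Real.pi * r i) + X (Real.pi * r (i + 1))) / 2) (δ i) (g i) v ^ 2 : ℝ) : ℂ)) volume 0 1 :=
    ((cont_Fp _).mul (Complex.continuous_ofReal.comp ((cont_Xh _ _ _).pow 2))).intervalIntegrable _ _
  rw [← intervalIntegral.integral_sub i1 i2]
  have key : ∀ v ∈ Set.uIoc (0 : ℝ) 1, ‖φ (pt r i v) * ((X (pt r i v) ^ 2 : ℝ) : ℂ) - Fp (c i) v
      * ((Xh ((X (Real.pi * r i) + X (Real.pi * r (i + 1))) / 2) (δ i) (g i) v ^ 2 : ℝ) : ℂ)‖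
      ≤ η i * xm ^ 2 + (B + η i) * ((2 * xm + eb i) * e i) := by
    intro v hv
    rw [uIoc_of_le zero_le_one] at hv
    have h1 := hη i hiN v hv.1.le hv.2
    have h2 := hc i hiN v hv.1.le hv.2
    have h3 := hb (pt r i v)
    have h4 := hB (pt r i v)
    have h6 := heb i hiN
    set x := X (pt r i v)
    set y := Xh ((X (Real.pi * r i) + X (Real.pi * r (i + 1))) / 2) (δ i) (g i) v
    set f := φ (pt r i v)
    set F := Fp (c i) v
    have hxm : 0 ≤ xm := (abs_nonneg _).trans h3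
    have he0 : 0 ≤ e i := (abs_nonneg _).trans h2
    have e1 : f * ((x ^ 2 : ℝ) : ℂ) - F * ((y ^ 2 : ℝ) : ℂ)
        = (f - F) * ((x ^ 2 : ℝ) : ℂ) + F * ((x ^ 2 - y ^ 2 : ℝ) : ℂ) := by
      push_cast
      ring
    rw [e1]
    refine (norm_add_le _ _).trans (add_le_add ?_ ?_)
    · rw [norm_mul, Complex.norm_real]
      refine mul_le_mul h1 ?_ (norm_nonneg _) ((norm_nonneg _).trans h1)
      rw [Real.norm_eq_abs, abs_pow]
      exact pow_le_pow_left₀ (abs_nonneg _) h3 2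
    · rw [norm_mul, Complex.norm_real]
      have h5 : ‖F‖ ≤ B + η i := by
        have : ‖F‖ ≤ ‖f‖ + ‖f - F‖ := by
          have := norm_sub_norm_le F f
          rw [norm_sub_rev] at this
          linarith
        linarith
      refine mul_le_mul h5 ?_ (norm_nonneg _) ((norm_nonneg _).trans h5)
      rw [Real.norm_eq_abs, show x ^ 2 - y ^ 2 = (x + y) * (x - y) by ring, abs_mul]
      refine mul_le_mul ?_ h2 (abs_nonneg _) (by linarith)
      have h7 : |x + y| ≤ |x| + |x| + |x - y| := by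
        have e3 : x + y = x + x - (x - y) := by ring
        rw [e3]
        exact (abs_sub _ _).trans (add_le_add_left (abs_add_le _ _) _)
      linarith
  have := intervalIntegral.norm_integral_le_of_norm_le_const key
  simpa using this

end sums

end Pool.Agent.FPX.NOD
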