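import Mathlib
import Pool.Agent.FPX.NOD

/-
NOT (helper42): kernel checks of the trigonometric data of the nodal scheme. `chkF m r r' c η = true` implies
`‖exp (m π (r + (r' - r) v) i) - (c₀ + c₁ (v - 1/2) + c₂ (v - 1/2)² + c₃ (v - 1/2)³)‖ ≤ η` for `0 ≤ v ≤ 1`.
Everything is rational; the value at the midpoint comes from a Taylor polynomial after a reduction by
multiples of `π / 2`; the polynomial part of the error is bounded by Chebyshev coefficients.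
-/

set_option autoImplicit false

open Complex

noncomputable section

namespace Pool.Agent.FPX.NOT

/-- Gaussian rationals -/
structure Gq where
  re : ℚ
  im : ℚ

namespace Gq

/-- the complex number -/
def toC (z : Gq) : ℂ := ⟨(z.re : ℝ), (z.im : ℝ)⟩

@[reducible] def add (z w : Gq) : Gq := ⟨z.re + w.re, z.im + w.im⟩

@[reducible] def sub (z w : Gq) : Gq := ⟨z.re - w.re, z.im - w.im⟩

@[reducible] def sm (q : ℚ) (z : Gq) : Gq := ⟨q * z.re, q * z.im⟩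

/-- multiplication by `q i` -/
@[reducible] def smi (q : ℚ) (z : Gq) : Gq := ⟨-(q * z.im), q * z.re⟩

/-- multiplication by `i ^ k` -/
def rot (k : ℤ) (z : Gq) : Gq :=
  if k % 4 = 0 then z else if k % 4 = 1 then ⟨-z.im, z.re⟩ else if k % 4 = 2 then ⟨-z.re, -z.im⟩
  else ⟨z.im, -z.re⟩

/-- an upper bound of the norm -/
def nu (z : Gq) : ℚ :=
  let a := |z.re|
  let b := |z.im|
  if a ≤ b then b + 29 / 70 * a else a + 29 / 70 * b

theorem toC_add (z w : Gq) : (add z w).toC = z.toC + w.toC := by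
  apply Complex.ext <;> simp [toC, add]

theorem toC_sub (z w : Gq) : (sub z w).toC = z.toC - w.toC := by
  apply Complex.ext <;> simp [toC, sub]

theorem toC_sm (q : ℚ) (z : Gq) : (sm q z).toC = (q : ℂ) * z.toC := by
  apply Complex.ext <;> simp [toC, sm]

theorem toC_smi (q : ℚ) (z : Gq) : (smi q z).toC = (q : ℂ) * I * z.toC := by
  apply Complex.ext <;> simp [toC, smi]

theorem toC_rot (k : ℤ) (z : Gq) : (rot k z).toC = exp ((k : ℂ) * (Real.pi / 2) * I) * z.toC := by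
  have h0 : exp ((k : ℂ) * (Real.pi / 2) * I) = exp (((k % 4 : ℤ) : ℂ) * (Real.pi / 2) * I) := by
    have e : (k : ℂ) * (Real.pi / 2) * I = ((k % 4 : ℤ) : ℂ) * (Real.pi / 2) * I
        + ((k / 4 : ℤ) : ℂ) * (2 * Real.pi * I) := by
      have h : (k : ℂ) = ((k % 4 : ℤ) : ℂ) + 4 * ((k / 4 : ℤ) : ℂ) := by
        have := Int.emod_add_mul_ediv k 4
        exact_mod_cast this.symm
      linear_combination ((Real.pi : ℂ) / 2 * I) * h
    rw [e, Complex.exp_add, Complex.exp_int_mul_two_pi_mul_I, mul_one]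
  rw [h0]
  have h4 : k % 4 = 0 ∨ k % 4 = 1 ∨ k % 4 = 2 ∨ k % 4 = 3 := by omega
  have i1 : exp ((Real.pi / 2 : ℂ) * I) = I := by
    rw [Complex.exp_mul_I, Complex.cos_pi_div_two, Complex.sin_pi_div_two]
    ring
  rcases h4 with h | h | h | h
  · have e : rot k z = z := by simp [rot, h]
    rw [e, h]
    simp
  · have e : rot k z = ⟨-z.im, z.re⟩ := by simp [rot, h]
    rw [e, h]
    have e2 : ((1 : ℤ) : ℂ) * (Real.pi / 2) * I = (Real.pi / 2 : ℂ) * I := by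
      push_cast
      ring
    rw [e2, i1]
    apply Complex.ext <;> simp [toC]
  · have e : rot k z = ⟨-z.re, -z.im⟩ := by simp [rot, h]
    rw [e, h]
    have e2 : ((2 : ℤ) : ℂ) * (Real.pi / 2) * I = (Real.pi : ℂ) * I := by
      push_cast
      ring
    rw [e2, Complex.exp_pi_mul_I]
    apply Complex.ext <;> simp [toC]
  · have e : rot k z = ⟨z.im, -z.re⟩ := by simp [rot, h]
    rw [e, h]
    have e2 : ((3 : ℤ) : ℂ) * (Real.pi / 2) * I = (Real.pi : ℂ) * I + (Real.pi / 2 : ℂ) * I := by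
      push_cast
      ring
    rw [e2, Complex.exp_add, Complex.exp_pi_mul_I, i1]
    apply Complex.ext <;> simp [toC]

theorem norm_le_nu (z : Gq) : ‖z.toC‖ ≤ (z.nu : ℝ) := by
  have key : ∀ a b : ℝ, 0 ≤ a → a ≤ b → a ^ 2 + b ^ 2 ≤ (b + 29 / 70 * a) ^ 2 := by
    intro a b ha hb
    nlinarith [mul_nonneg ha (sub_nonneg.2 hb)]
  have h0 : ‖z.toC‖ = √((z.re : ℝ) ^ 2 + (z.im : ℝ) ^ 2) := by
    rw [Complex.norm_eq_sqrt_sq_add_sq]
    rfl
  have c1 : ((|z.re| : ℚ) : ℝ) = |(z.re : ℝ)| := by push_cast; rfl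
  have c2 : ((|z.im| : ℚ) : ℝ) = |(z.im : ℝ)| := by push_cast; rfl
  rw [h0]
  unfold nu
  simp only
  split_ifs with h
  · have h' : |(z.re : ℝ)| ≤ |(z.im : ℝ)| := by
      rw [← c1, ← c2]
      exact_mod_cast h
    push_cast
    apply Real.sqrt_le_iff.2
    refine ⟨by positivity, ?_⟩
    have := key _ _ (abs_nonneg (z.re : ℝ)) h'
    rw [sq_abs, sq_abs] at this
    exact this
  · have h' : |(z.im : ℝ)| ≤ |(z.re : ℝ)| := by
      rw [← c1, ← c2]
      exact_mod_cast (not_le.1 h).le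
    push_cast
    apply Real.sqrt_le_iff.2
    refine ⟨by positivity, ?_⟩
    have := key _ _ (abs_nonneg (z.im : ℝ)) h'
    rw [sq_abs, sq_abs] at this
    linarith

end Gq

open Gq

/-- `∑_{j ≤ f} (i x)^j k! / (k + j)!` -/
def horn (x : ℚ) : ℕ → ℕ → Gq
  | _, 0 => ⟨1, 0⟩
  | k, f + 1 => let s := horn x (k + 1) f
                let q := x / ((k : ℚ) + 1)
                ⟨1 - q * s.im, q * s.re⟩

theorem toC_horn (x : ℚ) (f k : ℕ) :
    (horn x k f).toC = ∑ j ∈ Finset.range (f + 1), ((x : ℂ) * I) ^ j * (k.factorial : ℂ) / ((k + j).factorial : ℂ) := by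
  induction f generalizing k with
  | zero =>
    have hk : (k.factorial : ℂ) ≠ 0 := by exact_mod_cast k.factorial_ne_zero
    simp only [horn, zero_add, Finset.range_one, Finset.sum_singleton, pow_zero, one_mul, add_zero]
    rw [div_self hk]
    apply Complex.ext <;> simp [toC]
  | succ f ih =>
    rw [Finset.sum_range_succ']
    have e0 : (horn x k (f + 1)).toC = 1 + (x : ℂ) * I / ((k : ℂ) + 1) * (horn x (k + 1) f).toC := by
      have e1 : horn x k (f + 1) = add ⟨1, 0⟩ (smi (x / ((k : ℚ) + 1)) (horn x (k + 1) f)) := by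
        simp only [horn, add, smi]
        congr 1
        · ring
        · ring
      rw [e1, toC_add, toC_smi]
      have e2 : (⟨1, 0⟩ : Gq).toC = 1 := by apply Complex.ext <;> simp [toC]
      rw [e2]
      push_cast
      ring
    rw [e0, ih, Finset.mul_sum, add_comm]
    have hk : (k.factorial : ℂ) ≠ 0 := by exact_mod_cast k.factorial_ne_zero
    congr 1
    · refine Finset.sum_congr rfl fun j _ => ?_
      have h1 : ((k + 1).factorial : ℂ) = ((k : ℂ) + 1) * (k.factorial : ℂ) := by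
        rw [Nat.factorial_succ]
        push_cast
        ring
      have h2 : k + 1 + j = k + (j + 1) := by ring
      rw [h1, h2]
      have h3 : ((k : ℂ) + 1) ≠ 0 := by exact_mod_cast k.succ_ne_zero
      have h4 : ((k + (j + 1)).factorial : ℂ) ≠ 0 := by exact_mod_cast (k + (j + 1)).factorial_ne_zero
      rw [pow_succ]
      field_simp
    · simp [hk]

/-- the Taylor polynomial of degree `13` of `exp (i x)` -/
def E13 (x : ℚ) : Gq := horn x 0 13

theorem toC_E13 (x : ℚ) : (E13 x).toC = ∑ j ∈ Finset.range 14, ((x : ℂ) * I) ^ j / (j.factorial : ℂ) := by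
  rw [E13, toC_horn]
  refine Finset.sum_congr rfl fun j _ => ?_
  simp

/-- error of the Taylor polynomial -/
theorem E13_err {x : ℚ} (hx : |x| ≤ 7) : ‖exp ((x : ℂ) * I) - (E13 x).toC‖ ≤ (((|x| ^ 14 / 43589145600 : ℚ)) : ℝ) := by
  have hn : ‖(x : ℂ) * I‖ = |(x : ℝ)| := by
    rw [norm_mul, Complex.norm_I, mul_one]
    have : (x : ℂ) = ((x : ℝ) : ℂ) := by push_cast; rfl
    rw [this, Complex.norm_real, Real.norm_eq_abs]
  have hx' : |(x : ℝ)| ≤ 7 := by exact_mod_cast hx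
  have h := Complex.exp_bound' (x := (x : ℂ) * I) (n := 14) (by
    rw [hn]
    rw [div_le_iff₀ (by positivity)]
    push_cast
    linarith)
  rw [hn] at h
  rw [toC_E13]
  refine h.trans (le_of_eq ?_)
  have e : (Nat.factorial 14 : ℝ) = 87178291200 := by norm_num [Nat.factorial]
  rw [e]
  push_cast
  ring

/-- the rational approximation of `π` -/
def pq : ℚ := 3454217652358 / 1099511627776

theorem pq_err : |Real.pi - ((pq : ℚ) : ℝ)| ≤ ((1 / 10 ^ 11 : ℚ) : ℝ) := by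
  have h1 := Real.pi_gt_d20
  have h2 := Real.pi_lt_d20
  rw [pq, abs_le]
  push_cast
  constructor <;> norm_num at h1 h2 ⊢ <;> linarith

/-- the check -/
def chkF (m : ℕ) (r r' : ℚ) (c0 c1 c2 c3 : Gq) (η : ℚ) : Bool :=
  let q : ℚ := m * (r + r') / 2
  let k : ℤ := (2 * q + 1 / 2).floor
  let q' : ℚ := q - k / 2
  let ρ : ℚ := m * (r' - r)
  let x : ℚ := pq * q'
  let y : ℚ := pq * ρ / 2
  let E : Gq := rot k (E13 x)
  let A1 := smi y E
  let A2 := smi (y / 2) A1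
  let A3 := smi (y / 3) A2
  let A4 := smi (y / 4) A3
  let A5 := smi (y / 5) A4
  let D0 := sub E c0
  let D1 := sub A1 (sm (1 / 2) c1)
  let D2 := sub A2 (sm (1 / 4) c2)
  let D3 := sub A3 (sm (1 / 8) c3)
  let e0 := add (add D0 (sm (1 / 2) D2)) (sm (3 / 8) A4)
  let e1 := add (add D1 (sm (3 / 4) D3)) (sm (5 / 8) A5)
  let e2 := add (sm (1 / 2) D2) (sm (1 / 2) A4)
  let e3 := add (sm (1 / 4) D3) (sm (5 / 16) A5)
  let R1 : ℚ := |x| ^ 14 / 43589145600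
  let R2 : ℚ := |y| ^ 6 / 360
  decide (|x| ≤ 7) && decide (|y| ≤ 3) &&
  decide ((|q'| + |ρ| / 2) / 10 ^ 11 + R1 + (1 + R1) * R2 + (e0.nu + e1.nu + e2.nu + e3.nu + A4.nu / 8 + A5.nu / 16) ≤ η)

/-- the Chebyshev polynomials are at most one on `[-1, 1]` -/
theorem cheb {X : ℝ} (h1 : -1 ≤ X) (h2 : X ≤ 1) : |X| ≤ 1 ∧ |2 * X ^ 2 - 1| ≤ 1 ∧ |4 * X ^ 3 - 3 * X| ≤ 1 ∧
    |8 * X ^ 4 - 8 * X ^ 2 + 1| ≤ 1 ∧ |16 * X ^ 5 - 20 * X ^ 3 + 5 * X| ≤ 1 := by
  have hX : 0 ≤ 1 - X ^ 2 := by nlinarith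
  have key : ∀ T : ℝ, T ^ 2 ≤ 1 → |T| ≤ 1 := fun T h => abs_le_one_iff_mul_self_le_one.2 (by nlinarith)
  refine ⟨abs_le.2 ⟨h1, h2⟩, ?_, ?_, ?_, ?_⟩
  · rw [abs_le]
    constructor <;> nlinarith [sq_nonneg X]
  · apply key
    have e : 1 - (4 * X ^ 3 - 3 * X) ^ 2 = (1 - X ^ 2) * (4 * X ^ 2 - 1) ^ 2 := by ring
    have : 0 ≤ (1 - X ^ 2) * (4 * X ^ 2 - 1) ^ 2 := mul_nonneg hX (sq_nonneg _)
    linarith
  · apply key
    have e : 1 - (8 * X ^ 4 - 8 * X ^ 2 + 1) ^ 2 = (1 - X ^ 2) * (16 * X ^ 2 * (2 * X ^ 2 - 1) ^ 2) := by ring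
    have : 0 ≤ (1 - X ^ 2) * (16 * X ^ 2 * (2 * X ^ 2 - 1) ^ 2) := mul_nonneg hX (by positivity)
    linarith
  · apply key
    have e : 1 - (16 * X ^ 5 - 20 * X ^ 3 + 5 * X) ^ 2 = (1 - X ^ 2) * (16 * X ^ 4 - 12 * X ^ 2 + 1) ^ 2 := by ring
    have : 0 ≤ (1 - X ^ 2) * (16 * X ^ 4 - 12 * X ^ 2 + 1) ^ 2 := mul_nonneg hX (sq_nonneg _)
    linarith

/-- the coefficients -/
def cc (c0 c1 c2 c3 : Gq) : Fin 4 → ℂ := ![c0.toC, c1.toC, c2.toC, c3.toC]

/-- **soundness** -/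
theorem chkF_sound {m : ℕ} {r r' : ℚ} {c0 c1 c2 c3 : Gq} {η : ℚ} (h : chkF m r r' c0 c1 c2 c3 η = true)
    {v : ℝ} (hv0 : 0 ≤ v) (hv1 : v ≤ 1) :
    ‖exp ((m : ℂ) * ((Real.pi * (r + (r' - r) * v) : ℝ) : ℂ) * I) - NOD.Fp (cc c0 c1 c2 c3) v‖ ≤ (η : ℝ) := by
  simp only [chkF, Bool.and_eq_true, decide_eq_true_eq] at h
  obtain ⟨⟨hx, hy⟩, hη⟩ := h
  set q : ℚ := m * (r + r') / 2 with hq
  set k : ℤ := (2 * q + 1 / 2).floor with hk
  set q' : ℚ := q - k / 2 with hq'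
  set ρ : ℚ := m * (r' - r) with hρ
  set x : ℚ := pq * q' with hxd
  set y : ℚ := pq * ρ / 2 with hyd
  set E : Gq := rot k (E13 x) with hE
  set A1 := smi y E with hA1
  set A2 := smi (y / 2) A1 with hA2
  set A3 := smi (y / 3) A2 with hA3
  set A4 := smi (y / 4) A3 with hA4
  set A5 := smi (y / 5) A4 with hA5
  set D0 := sub E c0 with hD0
  set D1 := sub A1 (sm (1 / 2) c1) with hD1
  set D2 := sub A2 (sm (1 / 4) c2) with hD2
  set D3 := sub A3 (sm (1 / 8) c3) with hD3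
  set e0 := add (add D0 (sm (1 / 2) D2)) (sm (3 / 8) A4) with he0
  set e1 := add (add D1 (sm (3 / 4) D3)) (sm (5 / 8) A5) with he1
  set e2 := add (sm (1 / 2) D2) (sm (1 / 2) A4) with he2
  set e3 := add (sm (1 / 4) D3) (sm (5 / 16) A5) with he3
  set R1 : ℚ := |x| ^ 14 / 43589145600 with hR1
  set R2 : ℚ := |y| ^ 6 / 360 with hR2
  set X : ℝ := 2 * v - 1 with hX
  have X1 : -1 ≤ X := by rw [hX]; linarith
  have X2 : X ≤ 1 := by rw [hX]; linarith
  obtain ⟨t1, t2, t3, t4, t5⟩ := cheb X1 X2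
  have hη' : (((|q'| + |ρ| / 2) / 10 ^ 11 + R1 + (1 + R1) * R2
      + (e0.nu + e1.nu + e2.nu + e3.nu + A4.nu / 8 + A5.nu / 16) : ℚ) : ℝ) ≤ (η : ℝ) := by exact_mod_cast hη
  push_cast at hη'
  refine le_trans ?_ hη'
  -- the argument
  set u : ℝ := (q' : ℝ) + (ρ : ℝ) * (v - 1 / 2) with hu
  have harg : (m : ℂ) * ((Real.pi * (r + (r' - r) * v) : ℝ) : ℂ) * I =
      (k : ℂ) * (Real.pi / 2) * I + ((Real.pi * u : ℝ) : ℂ) * I := by
    rw [hu, hq', hq, hρ]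
    push_cast
    ring
  set Ek : ℂ := exp ((k : ℂ) * (Real.pi / 2) * I) with hEk
  have nEk : ‖Ek‖ = 1 := by
    have e : (k : ℂ) * (Real.pi / 2) * I = (((k : ℝ) * (Real.pi / 2) : ℝ) : ℂ) * I := by
      push_cast
      ring
    rw [hEk, e, Complex.norm_exp_ofReal_mul_I]
  have hER : E.toC = Ek * (E13 x).toC := by rw [hE, toC_rot]
  -- step 1
  have s1 : ‖exp (((Real.pi * u : ℝ) : ℂ) * I) - exp (((pq : ℝ) * u : ℝ) * I)‖ ≤ (|(q' : ℝ)| + |(ρ : ℝ)| / 2) / 10 ^ 11 := by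
    have e : exp (((Real.pi * u : ℝ) : ℂ) * I) - exp (((pq : ℝ) * u : ℝ) * I) =
        exp (((pq : ℝ) * u : ℝ) * I) * (exp (I * (((Real.pi - (pq : ℝ)) * u : ℝ) : ℂ)) - 1) := by
      rw [mul_sub, mul_one, ← Complex.exp_add]
      congr 2
      push_cast
      ring
    rw [e, norm_mul, Complex.norm_exp_ofReal_mul_I, one_mul]
    refine Real.norm_exp_I_mul_ofReal_sub_one_le.trans ?_
    rw [Real.norm_eq_abs, abs_mul]
    have h1 := pq_err
    have h2 : |u| ≤ |(q' : ℝ)| + |(ρ : ℝ)| / 2 := by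
      rw [hu]
      refine (abs_add_le _ _).trans (add_le_add le_rfl ?_)
      rw [abs_mul]
      have h3 : |v - 1 / 2| ≤ 1 / 2 := by
        rw [abs_le]
        constructor <;> linarith
      nlinarith [abs_nonneg (ρ : ℝ)]
    calc |Real.pi - (pq : ℝ)| * |u| ≤ ((1 / 10 ^ 11 : ℚ) : ℝ) * (|(q' : ℝ)| + |(ρ : ℝ)| / 2) :=
          mul_le_mul h1 h2 (abs_nonneg _) (by positivity)
      _ = (|(q' : ℝ)| + |(ρ : ℝ)| / 2) / 10 ^ 11 := by
          push_cast
          ring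
  -- step 2
  have e2' : exp (((pq : ℝ) * u : ℝ) * I) = exp ((x : ℂ) * I) * exp (((y : ℝ) * X : ℝ) * I) := by
    rw [← Complex.exp_add]
    congr 1
    rw [hu, hxd, hyd, hX]
    push_cast
    ring
  -- the Taylor polynomial of the second factor
  set S : ℂ := ∑ j ∈ Finset.range 6, ((((y : ℝ) * X : ℝ) : ℂ) * I) ^ j / (j.factorial : ℂ) with hS
  have n2 : ‖((((y : ℝ) * X : ℝ) : ℂ) * I)‖ = |(y : ℝ) * X| := by
    rw [norm_mul, Complex.norm_I, mul_one, Complex.norm_real, Real.norm_eq_abs]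
  have yX : |(y : ℝ) * X| ≤ |(y : ℝ)| := by
    rw [abs_mul]
    nlinarith [abs_nonneg (y : ℝ)]
  have hy' : |(y : ℝ)| ≤ 3 := by exact_mod_cast hy
  have s3 : ‖exp (((y : ℝ) * X : ℝ) * I) - S‖ ≤ (R2 : ℝ) := by
    have h := Complex.exp_bound' (x := ((((y : ℝ) * X : ℝ) : ℂ) * I)) (n := 6) (by
      rw [n2, div_le_iff₀ (by positivity)]
      push_cast
      linarith)
    rw [n2] at h
    refine h.trans ?_
    have e : (Nat.factorial 6 : ℝ) = 720 := by norm_num [Nat.factorial]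
    rw [e, hR2]
    push_cast
    have := pow_le_pow_left₀ (abs_nonneg _) yX 6
    linarith
  have s4 := E13_err hx
  have hR1c : ((|x| ^ 14 / 43589145600 : ℚ) : ℝ) = (R1 : ℝ) := rfl
  rw [hR1c] at s4
  have nx : ‖exp ((x : ℂ) * I)‖ = 1 := by
    have e : (x : ℂ) = ((x : ℝ) : ℂ) := by push_cast; rfl
    rw [e, Complex.norm_exp_ofReal_mul_I]
  have nE : ‖(E13 x).toC‖ ≤ 1 + R1 := by
    have h1 : ‖(E13 x).toC‖ ≤ ‖exp ((x : ℂ) * I)‖ + ‖exp ((x : ℂ) * I) - (E13 x).toC‖ := by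
      have := norm_sub_norm_le (E13 x).toC (exp ((x : ℂ) * I))
      rw [norm_sub_rev] at this
      linarith
    rw [nx] at h1
    linarith
  have R20 : (0 : ℝ) ≤ R2 := (norm_nonneg _).trans s3
  have s5 : ‖exp ((x : ℂ) * I) * exp (((y : ℝ) * X : ℝ) * I) - (E13 x).toC * S‖ ≤ R1 + (1 + R1) * R2 := by
    have e : exp ((x : ℂ) * I) * exp (((y : ℝ) * X : ℝ) * I) - (E13 x).toC * S =
        (exp ((x : ℂ) * I) - (E13 x).toC) * exp (((y : ℝ) * X : ℝ) * I)
          + (E13 x).toC * (exp (((y : ℝ) * X : ℝ) * I) - S) := by ring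
    rw [e]
    refine (norm_add_le _ _).trans (add_le_add ?_ ?_)
    · rw [norm_mul, Complex.norm_exp_ofReal_mul_I, mul_one]
      exact s4
    · rw [norm_mul]
      exact mul_le_mul nE s3 (norm_nonneg _) ((norm_nonneg _).trans nE)
  -- the polynomial part
  have s6 : ‖E.toC * S - NOD.Fp (cc c0 c1 c2 c3) v‖ ≤ e0.nu + e1.nu + e2.nu + e3.nu + A4.nu / 8 + A5.nu / 16 := by
    have hv : (v : ℂ) = ((X : ℂ) + 1) / 2 := by
      rw [hX]
      push_cast
      ring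
    have e : E.toC * S - NOD.Fp (cc c0 c1 c2 c3) v = e0.toC + e1.toC * (X : ℂ) + e2.toC * ((2 * X ^ 2 - 1 : ℝ) : ℂ)
        + e3.toC * ((4 * X ^ 3 - 3 * X : ℝ) : ℂ) + A4.toC * ((8 * X ^ 4 - 8 * X ^ 2 + 1 : ℝ) : ℂ) / 8
        + A5.toC * ((16 * X ^ 5 - 20 * X ^ 3 + 5 * X : ℝ) : ℂ) / 16 := by
      rw [hS]
      simp only [Finset.sum_range_succ, Finset.range_zero, Finset.sum_empty, Nat.factorial, NOD.Fp, cc,
        Matrix.cons_val_zero, Matrix.cons_val_one, Matrix.cons_val]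
      rw [he0, he1, he2, he3, hD0, hD1, hD2, hD3, hA5, hA4, hA3, hA2, hA1]
      simp only [toC_add, toC_sub, toC_sm, toC_smi]
      rw [hv]
      push_cast
      ring
    have b0 := norm_le_nu e0
    have b1 := norm_le_nu e1
    have b2 := norm_le_nu e2
    have b3 := norm_le_nu e3
    have b4 := norm_le_nu A4
    have b5 := norm_le_nu A5
    have m1 : ∀ (z : ℂ) (T B : ℝ), ‖z‖ ≤ B → |T| ≤ 1 → ‖z * (T : ℂ)‖ ≤ B := by
      intro z T B hz hT
      rw [norm_mul, Complex.norm_real, Real.norm_eq_abs]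
      exact (mul_le_of_le_one_right (norm_nonneg _) hT).trans hz
    rw [e]
    refine (norm_add_le _ _).trans (add_le_add ((norm_add_le _ _).trans (add_le_add ((norm_add_le _ _).trans
      (add_le_add ((norm_add_le _ _).trans (add_le_add ((norm_add_le _ _).trans (add_le_add b0 ?_)) ?_)) ?_)) ?_)) ?_)
    · exact m1 _ _ _ b1 t1
    · exact m1 _ _ _ b2 t2
    · exact m1 _ _ _ b3 t3
    · rw [norm_div]
      have := m1 _ _ _ b4 t4
      have h8 : ‖(8 : ℂ)‖ = 8 := by norm_num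
      rw [h8]
      linarith
    · rw [norm_div]
      have := m1 _ _ _ b5 t5
      have h16 : ‖(16 : ℂ)‖ = 16 := by norm_num
      rw [h16]
      linarith
  -- together
  rw [harg, Complex.exp_add]
  have e : Ek * exp (((Real.pi * u : ℝ) : ℂ) * I) - NOD.Fp (cc c0 c1 c2 c3) v =
      Ek * (exp (((Real.pi * u : ℝ) : ℂ) * I) - exp (((pq : ℝ) * u : ℝ) * I))
        + Ek * (exp ((x : ℂ) * I) * exp (((y : ℝ) * X : ℝ) * I) - (E13 x).toC * S)
        + (E.toC * S - NOD.Fp (cc c0 c1 c2 c3) v) := by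
    rw [hER, e2']
    ring
  rw [e]
  refine (norm_add_le _ _).trans (add_le_add ((norm_add_le _ _).trans ?_) s6)
  rw [norm_mul, norm_mul, nEk, one_mul, one_mul]
  linarith

/-- integer data: `a / d`, `b / d` the end points, `x / S` the coefficients, `e / S` the error -/
structure Row where
  m : ℕ
  a : ℤ
  b : ℤ
  x0 : ℤ
  y0 : ℤ
  x1 : ℤ
  y1 : ℤ
  x2 : ℤ
  y2 : ℤ
  x3 : ℤ
  y3 : ℤ
  e : ℕ

/-- a coefficient -/
@[reducible] def gz (S : ℕ) (x y : ℤ) : Gq := ⟨(x : ℚ) / S, (y : ℚ) / S⟩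

/-- the check of a row -/
def Row.ok (d S : ℕ) (R : Row) : Bool :=
  chkF R.m ((R.a : ℚ) / d) ((R.b : ℚ) / d) (gz S R.x0 R.y0) (gz S R.x1 R.y1) (gz S R.x2 R.y2) (gz S R.x3 R.y3)
    ((R.e : ℚ) / S)

/-- the coefficients of a row -/
def Row.cc (S : ℕ) (R : Row) : Fin 4 → ℂ := NOT.cc (gz S R.x0 R.y0) (gz S R.x1 R.y1) (gz S R.x2 R.y2) (gz S R.x3 R.y3)

/-- the check with the points of a grid -/
theorem chkF_pt {m : ℕ} {r r' : ℚ} {c0 c1 c2 c3 : Gq} {η : ℚ} (h : chkF m r r' c0 c1 c2 c3 η = true)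
    {R : ℕ → ℝ} {i : ℕ} (h0 : R i = r) (h1 : R (i + 1) = r') {v : ℝ} (hv0 : 0 ≤ v) (hv1 : v ≤ 1) :
    ‖exp ((m : ℂ) * ((NOD.pt R i v : ℝ) : ℂ) * I) - NOD.Fp (cc c0 c1 c2 c3) v‖ ≤ (η : ℝ) := by
  have e : NOD.pt R i v = Real.pi * (r + (r' - r) * v) := by
    unfold NOD.pt
    rw [h0, h1]
    ring
  rw [e]
  exact chkF_sound h hv0 hv1

/-- a row with the points of a grid -/
theorem Row.ok_pt {d S : ℕ} {R : Row} (h : R.ok d S = true) {r : ℕ → ℝ} {i : ℕ} (h0 : r i = (R.a : ℝ) / d)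
    (h1 : r (i + 1) = (R.b : ℝ) / d) {v : ℝ} (hv0 : 0 ≤ v) (hv1 : v ≤ 1) :
    ‖exp ((R.m : ℂ) * ((NOD.pt r i v : ℝ) : ℂ) * I) - NOD.Fp (R.cc S) v‖ ≤ (R.e : ℝ) / S := by
  have := chkF_pt h (R := r) (i := i) (by rw [h0]; push_cast; rfl) (by rw [h1]; push_cast; rfl) hv0 hv1
  push_cast at this
  exact this

/-- all rows of a list -/
theorem all_ok {d S : ℕ} {l : List Row} (h : (l.all fun R => R.ok d S) = true) {R : Row} (hR : R ∈ l) :
    R.ok d S = true := List.all_eq_true.1 h R hR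

end Pool.Agent.FPX.NOT
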