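import Mathlib
import Pool.Agent.FPX.CERQ

/-
SQA (helper39): the certificate of the local form `λ_q` (`Q = q / c`, `Z = 0`, `w = 1`), the elimination of
the gradient `k` as an interface (`StateK`, `area_K`), and its plain Parseval version (`area_pp`): what
remains is an inequality for `s = sr f`, `M = mean (x²)`, `Y = mean (x² E⁴)` of the states with `ζ ≥ 0`.
-/

open MeasureTheory Set Filter Topology Complex
open scoped ENNReal NNReal ContDiff ComplexConjugate

noncomputable section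

namespace Pool.Agent.FPX.SQA

open Pool.Agent.FPX Pool.Agent.FPX.UMP Pool.Agent.FPX.UMQ Pool.Agent.FPX.UXA Pool.Agent.EWD
open Pool.Agent.FPX.F54 (X1 X2 dX1 dX2 X_lt X_G1 X_G2 sF)
open Pool.Agent.FPX.S54 (de)
open Pool.Agent.FPX.OMB (vm vm_int vm_prob bm_ep)
open Pool.Agent.FPX.OMS (Cert rF cF mk W0)
open Pool.Agent.FPX.CQA (pht)
open Pool.Agent.FPX.CERQ (xT Er sr ep_rot vm_rot vm_rotR pr_rot' ep_per xT_per cont_xT cont_pht int_of_cont)

/-! ### generic part -/

section gen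

variable {α : Type*} [MeasurableSpace α] {μ : Measure α}

/-- two moments of a function with `|k| ≤ 1`, weight `w` -/
theorem two_moments_w {f g k : α → ℂ} {w : α → ℝ} (hk : ∀ᵐ x ∂μ, ‖k x‖ ≤ 1) (hkm : AEStronglyMeasurable k μ)
    (hf : Integrable f μ) (hg : Integrable g μ) (hw : Integrable w μ) (hw0 : ∀ᵐ x ∂μ, 0 < w x)
    (hff : Integrable (fun x => ‖f x‖ ^ 2 / w x) μ) (hgg : Integrable (fun x => ‖g x‖ ^ 2 / w x) μ)
    (hfg : Integrable (fun x => f x * conj (g x) / w x) μ)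
    {lam : ℝ} (hlam : ∀ ξ η : ℂ, (∫ x, ‖f x‖ ^ 2 / w x ∂μ) * ‖ξ‖ ^ 2 + (∫ x, ‖g x‖ ^ 2 / w x ∂μ) * ‖η‖ ^ 2
      + 2 * (ξ * conj η * ∫ x, f x * conj (g x) / w x ∂μ).re ≤ lam * (‖ξ‖ ^ 2 + ‖η‖ ^ 2)) :
    ‖∫ x, f x * conj (k x) ∂μ‖ ^ 2 + ‖∫ x, g x * conj (k x) ∂μ‖ ^ 2 ≤ (∫ x, w x ∂μ) * lam := by
  set u := ∫ x, f x * conj (k x) ∂μ with hu
  set v := ∫ x, g x * conj (k x) ∂μ with hv
  set S := ∫ x, w x ∂μ with hS
  have hS0 : 0 ≤ S := by
    refine integral_nonneg_of_ae ?_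
    filter_upwards [hw0] with x hx
    exact hx.le
  have hkc : AEStronglyMeasurable (fun x => conj (k x)) μ :=
    Complex.continuous_conj.comp_aestronglyMeasurable hkm
  have bnd : ∀ᵐ x ∂μ, ‖(starRingEnd ℂ) (k x)‖ ≤ 1 := by
    filter_upwards [hk] with x hx
    rwa [RCLike.norm_conj]
  have ifk : Integrable (fun x => f x * conj (k x)) μ := by
    have := hf.bdd_mul (c := 1) hkc bnd
    refine this.congr (Eventually.of_forall fun x => ?_)
    exact mul_comm _ _
  have igk : Integrable (fun x => g x * conj (k x)) μ := by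
    have := hg.bdd_mul (c := 1) hkc bnd
    refine this.congr (Eventually.of_forall fun x => ?_)
    exact mul_comm _ _
  have key : ∀ ξ η : ℂ, ‖ξ * u + η * v‖ ^ 2 ≤ S * (lam * (‖ξ‖ ^ 2 + ‖η‖ ^ 2)) := by
    intro ξ η
    have e1 : ξ * u + η * v = ∫ x, (ξ * f x + η * g x) * conj (k x) ∂μ := by
      rw [hu, hv, ← integral_const_mul, ← integral_const_mul,
        ← integral_add (ifk.const_mul ξ) (igk.const_mul η)]
      refine integral_congr_ae (Eventually.of_forall fun x => ?_)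
      show ξ * (f x * conj (k x)) + η * (g x * conj (k x)) = (ξ * f x + η * g x) * conj (k x)
      ring
    have icomb : Integrable (fun x => ξ * f x + η * g x) μ := (hf.const_mul ξ).add (hg.const_mul η)
    have ef : ∀ x, 0 < w x → ‖ξ * f x + η * g x‖ ^ 2 / w x
        = ‖ξ‖ ^ 2 * (‖f x‖ ^ 2 / w x) + ‖η‖ ^ 2 * (‖g x‖ ^ 2 / w x)
          + 2 * (ξ * conj η * (f x * conj (g x) / (w x : ℂ))).re := by
      intro x hx
      rw [CQA.norm_comb]
      have e2 : ξ * conj η * (f x * conj (g x) / (w x : ℂ))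
          = (((w x)⁻¹ : ℝ) : ℂ) * (ξ * conj η * (f x * conj (g x))) := by
        push_cast
        rw [div_eq_mul_inv]
        ring
      rw [e2, Complex.re_ofReal_mul]
      field_simp
    have ire : Integrable (fun x => 2 * (ξ * conj η * (f x * conj (g x) / (w x : ℂ))).re) μ :=
      ((hfg.const_mul (ξ * conj η)).re).const_mul 2
    have isum : Integrable (fun x => ‖ξ‖ ^ 2 * (‖f x‖ ^ 2 / w x) + ‖η‖ ^ 2 * (‖g x‖ ^ 2 / w x)
          + 2 * (ξ * conj η * (f x * conj (g x) / (w x : ℂ))).re) μ :=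
      ((hff.const_mul _).add (hgg.const_mul _)).add ire
    have hcong : (fun x => ‖ξ * f x + η * g x‖ ^ 2 / w x) =ᵐ[μ]
        (fun x => ‖ξ‖ ^ 2 * (‖f x‖ ^ 2 / w x) + ‖η‖ ^ 2 * (‖g x‖ ^ 2 / w x)
          + 2 * (ξ * conj η * (f x * conj (g x) / (w x : ℂ))).re) := by
      filter_upwards [hw0] with x hx
      exact ef x hx
    have h1 := CQA.one_moment (f := fun x => ξ * f x + η * g x) (k := k) (w := w) hk icomb
      hw hw0 (isum.congr hcong.symm)
    rw [← e1] at h1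
    have e3 : ∫ x, ‖ξ * f x + η * g x‖ ^ 2 / w x ∂μ = (∫ x, ‖f x‖ ^ 2 / w x ∂μ) * ‖ξ‖ ^ 2
        + (∫ x, ‖g x‖ ^ 2 / w x ∂μ) * ‖η‖ ^ 2
        + 2 * (ξ * conj η * ∫ x, f x * conj (g x) / w x ∂μ).re := by
      have j1 : Integrable (fun x => ‖ξ‖ ^ 2 * (‖f x‖ ^ 2 / w x) + ‖η‖ ^ 2 * (‖g x‖ ^ 2 / w x)) μ :=
        (hff.const_mul _).add (hgg.const_mul _)
      have j2 : ∫ x, (ξ * conj η * (f x * conj (g x) / (w x : ℂ))).re ∂μ
          = (ξ * conj η * ∫ x, f x * conj (g x) / w x ∂μ).re := by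
        rw [← integral_const_mul]
        exact integral_re (hfg.const_mul (ξ * conj η))
      rw [integral_congr_ae hcong, integral_add j1 ire,
        integral_add (hff.const_mul _) (hgg.const_mul _), integral_const_mul, integral_const_mul,
        integral_const_mul, j2]
      ring
    rw [e3] at h1
    have h2 := hlam ξ η
    have h3 := mul_le_mul_of_nonneg_right h2 hS0
    linarith
  have h4 := key (conj u) (conj v)
  have e4 : conj u * u + conj v * v = ((‖u‖ ^ 2 + ‖v‖ ^ 2 : ℝ) : ℂ) := by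
    rw [mul_comm (conj u), mul_comm (conj v), Complex.mul_conj, Complex.mul_conj,
      Complex.normSq_eq_norm_sq, Complex.normSq_eq_norm_sq]
    push_cast
    rfl
  rw [e4, RCLike.norm_conj, RCLike.norm_conj, Complex.norm_real, Real.norm_eq_abs, sq_abs] at h4
  set N := ‖u‖ ^ 2 + ‖v‖ ^ 2 with hN
  have hN0 : 0 ≤ N := by positivity
  rcases hN0.eq_or_lt with h5 | h5
  · rw [← h5]
    have h6 := hlam 1 0
    simp only [norm_one, one_pow, mul_one, norm_zero, ne_eq, OfNat.ofNat_ne_zero, not_false_eq_true,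
      zero_pow, mul_zero, map_zero, zero_mul, Complex.zero_re, add_zero] at h6
    refine mul_nonneg hS0 (le_trans ?_ h6)
    refine integral_nonneg_of_ae ?_
    filter_upwards [hw0] with x hx
    show 0 ≤ ‖f x‖ ^ 2 / w x
    positivity
  · have : N * N ≤ (S * lam) * N := by nlinarith
    exact le_of_mul_le_mul_right this h5

/-- **the polarised form**, weight `w` -/
theorem form_le_w {E Ph k : α → ℂ} {w : α → ℝ} (hk : ∀ᵐ x ∂μ, ‖k x‖ ≤ 1) (hkm : AEStronglyMeasurable k μ)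
    (hE : Integrable E μ) (hP : Integrable Ph μ) (hw : Integrable w μ) (hw0 : ∀ᵐ x ∂μ, 0 < w x)
    (hS : Integrable (fun x => ‖(1 / 2 : ℂ) * (E x + Ph x)‖ ^ 2 / w x) μ)
    (hD : Integrable (fun x => ‖(1 / 2 : ℂ) * (E x - Ph x)‖ ^ 2 / w x) μ)
    (hSD : Integrable (fun x => (1 / 2 : ℂ) * (E x + Ph x) * ((1 / 2 : ℂ) * (E x - Ph x)) / w x) μ)
    {lam : ℝ} (hlam : ∀ ξ η : ℂ, (∫ x, ‖(1 / 2 : ℂ) * (E x + Ph x)‖ ^ 2 / w x ∂μ) * ‖ξ‖ ^ 2
      + (∫ x, ‖(1 / 2 : ℂ) * (E x - Ph x)‖ ^ 2 / w x ∂μ) * ‖η‖ ^ 2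
      + 2 * (ξ * conj η * ∫ x, (1 / 2 : ℂ) * (E x + Ph x) * ((1 / 2 : ℂ) * (E x - Ph x))
        / w x ∂μ).re ≤ lam * (‖ξ‖ ^ 2 + ‖η‖ ^ 2)) :
    (conj (∫ x, E x * conj (k x) ∂μ) * ∫ x, Ph x * conj (k x) ∂μ).re
      - (conj (∫ x, E x * k x ∂μ) * ∫ x, Ph x * k x ∂μ).re
      ≤ (∫ x, w x ∂μ) * lam := by
  set Sg : α → ℂ := fun x => (1 / 2 : ℂ) * (E x + Ph x) with hSg
  set De : α → ℂ := fun x => (1 / 2 : ℂ) * (E x - Ph x) with hDe
  have iS : Integrable Sg μ := (hE.add hP).const_mul _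
  have iD : Integrable De μ := (hE.sub hP).const_mul _
  have hkc : AEStronglyMeasurable (fun x => conj (k x)) μ :=
    Complex.continuous_conj.comp_aestronglyMeasurable hkm
  have bnd : ∀ᵐ x ∂μ, ‖(starRingEnd ℂ) (k x)‖ ≤ 1 := by
    filter_upwards [hk] with x hx
    rwa [RCLike.norm_conj]
  have mc : ∀ {f : α → ℂ}, Integrable f μ → Integrable (fun x => f x * conj (k x)) μ := by
    intro f hf
    refine (hf.bdd_mul (c := 1) hkc bnd).congr (Eventually.of_forall fun x => ?_)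
    exact mul_comm _ _
  have mk : ∀ {f : α → ℂ}, Integrable f μ → Integrable (fun x => f x * k x) μ := by
    intro f hf
    refine (hf.bdd_mul (c := 1) hkm hk).congr (Eventually.of_forall fun x => ?_)
    exact mul_comm _ _
  have eE : ∀ x, E x = Sg x + De x := fun x => by
    simp only [hSg, hDe]
    ring
  have eP : ∀ x, Ph x = Sg x - De x := fun x => by
    simp only [hSg, hDe]
    ring
  set A := ∫ x, Sg x * conj (k x) ∂μ with hA
  set B := ∫ x, De x * conj (k x) ∂μ with hB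
  set A' := ∫ x, Sg x * k x ∂μ with hA'
  set B' := ∫ x, De x * k x ∂μ with hB'
  have e1 : ∫ x, E x * conj (k x) ∂μ = A + B := by
    rw [hA, hB, ← integral_add (mc iS) (mc iD)]
    refine integral_congr_ae (Eventually.of_forall fun x => ?_)
    show E x * conj (k x) = Sg x * conj (k x) + De x * conj (k x)
    rw [eE x]
    ring
  have e2 : ∫ x, Ph x * conj (k x) ∂μ = A - B := by
    rw [hA, hB, ← integral_sub (mc iS) (mc iD)]
    refine integral_congr_ae (Eventually.of_forall fun x => ?_)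
    show Ph x * conj (k x) = Sg x * conj (k x) - De x * conj (k x)
    rw [eP x]
    ring
  have e3 : ∫ x, E x * k x ∂μ = A' + B' := by
    rw [hA', hB', ← integral_add (mk iS) (mk iD)]
    refine integral_congr_ae (Eventually.of_forall fun x => ?_)
    show E x * k x = Sg x * k x + De x * k x
    rw [eE x]
    ring
  have e4 : ∫ x, Ph x * k x ∂μ = A' - B' := by
    rw [hA', hB', ← integral_sub (mk iS) (mk iD)]
    refine integral_congr_ae (Eventually.of_forall fun x => ?_)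
    show Ph x * k x = Sg x * k x - De x * k x
    rw [eP x]
    ring
  have pol : ∀ z w : ℂ, (conj (z + w) * (z - w)).re = ‖z‖ ^ 2 - ‖w‖ ^ 2 := by
    intro z w
    have e : ∀ u : ℂ, ‖u‖ ^ 2 = u.re ^ 2 + u.im ^ 2 := fun u => by
      rw [← Complex.normSq_eq_norm_sq, Complex.normSq_apply]
      ring
    rw [e, e]
    simp only [map_add, Complex.mul_re, Complex.add_re, Complex.sub_re, Complex.add_im, Complex.sub_im,
      Complex.conj_re, Complex.conj_im]
    ring
  rw [e1, e2, e3, e4, pol, pol]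
  have e5 : ‖B'‖ = ‖∫ x, conj (De x) * conj (k x) ∂μ‖ := by
    have : ∫ x, conj (De x) * conj (k x) ∂μ = conj B' := by
      rw [hB', ← integral_conj]
      refine integral_congr_ae (Eventually.of_forall fun x => ?_)
      exact (map_mul conj (De x) (k x)).symm
    rw [this, RCLike.norm_conj]
  have iDc : Integrable (fun x => conj (De x)) μ := by
    refine iD.norm.mono' (Complex.continuous_conj.comp_aestronglyMeasurable iD.1) ?_
    exact Eventually.of_forall fun x => by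
      rw [RCLike.norm_conj]
  have h1 := two_moments_w (f := Sg) (g := fun x => conj (De x)) (k := k) (w := w) (lam := lam) hk hkm iS iDc
    hw hw0 hS
    (by
      refine hD.congr (Eventually.of_forall fun x => ?_)
      show ‖De x‖ ^ 2 / w x = ‖conj (De x)‖ ^ 2 / w x
      rw [RCLike.norm_conj])
    (by
      refine hSD.congr (Eventually.of_forall fun x => ?_)
      show Sg x * De x / w x = Sg x * conj (conj (De x)) / w x
      rw [Complex.conj_conj])
    (by
      intro ξ η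
      have := hlam ξ η
      simp only [RCLike.norm_conj, Complex.conj_conj]
      exact this)
  rw [← e5] at h1
  have h2 : 0 ≤ ‖B‖ ^ 2 := by positivity
  have h3 : 0 ≤ ‖A'‖ ^ 2 := by positivity
  linarith

/-- **`|A|² - |B|² + 2 q Re (conj A U - conj B W)` as a polarised form** -/
theorem omega_eq {E k : α → ℂ} {X : α → ℝ} {q : ℝ} {s : ℂ} (hs : ‖s‖ < 1)
    (hk : ∀ᵐ x ∂μ, ‖k x‖ ≤ 1) (hkm : AEStronglyMeasurable k μ)
    (hE : Integrable E μ) (hX : Integrable (fun x => (X x : ℂ) * E x ^ 2) μ)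
    {A B : ℂ} (hA : A = ((∫ x, E x * conj (k x) ∂μ) - s * conj (∫ x, E x * k x ∂μ))
      / ((1 - ‖s‖ ^ 2 : ℝ) : ℂ))
    (hB : B = ((∫ x, E x * k x ∂μ) - s * conj (∫ x, E x * conj (k x) ∂μ)) / ((1 - ‖s‖ ^ 2 : ℝ) : ℂ)) :
    ‖A‖ ^ 2 - ‖B‖ ^ 2 + 2 * q * (conj A * (∫ x, X x * E x ^ 2 * conj (k x) ∂μ)
      - conj B * ∫ x, X x * E x ^ 2 * k x ∂μ).re
      = (conj (∫ x, E x * conj (k x) ∂μ) * ∫ x, pht E X q s x * conj (k x) ∂μ).re
        - (conj (∫ x, E x * k x ∂μ) * ∫ x, pht E X q s x * k x ∂μ).re := by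
  have hD : (1 - ‖s‖ ^ 2 : ℝ) ≠ 0 := by
    have : ‖s‖ ^ 2 < 1 := by
      have := norm_nonneg s
      nlinarith
    linarith
  have hkc : AEStronglyMeasurable (fun x => conj (k x)) μ :=
    Complex.continuous_conj.comp_aestronglyMeasurable hkm
  have bnd : ∀ᵐ x ∂μ, ‖(starRingEnd ℂ) (k x)‖ ≤ 1 := by
    filter_upwards [hk] with x hx
    rwa [RCLike.norm_conj]
  have mc : ∀ {f : α → ℂ}, Integrable f μ → Integrable (fun x => f x * conj (k x)) μ := by
    intro f hf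
    refine (hf.bdd_mul (c := 1) hkc bnd).congr (Eventually.of_forall fun x => ?_)
    exact mul_comm _ _
  have mk : ∀ {f : α → ℂ}, Integrable f μ → Integrable (fun x => f x * k x) μ := by
    intro f hf
    refine (hf.bdd_mul (c := 1) hkm hk).congr (Eventually.of_forall fun x => ?_)
    exact mul_comm _ _
  have cj : ∀ {f : α → ℂ}, Integrable f μ → Integrable (fun x => conj (f x)) μ := by
    intro f hf
    refine hf.norm.mono' (Complex.continuous_conj.comp_aestronglyMeasurable hf.1) ?_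
    exact Eventually.of_forall fun x => by
      rw [RCLike.norm_conj]
  set Φ : α → ℂ := fun x => E x + 2 * q * (X x * E x ^ 2) with hΦ
  have iΦ : Integrable Φ μ := hE.add (hX.const_mul _)
  set a := ∫ x, E x * conj (k x) ∂μ with ha
  set b := ∫ x, E x * k x ∂μ with hb
  set U := ∫ x, X x * E x ^ 2 * conj (k x) ∂μ with hU
  set W := ∫ x, X x * E x ^ 2 * k x ∂μ with hW
  have p1 : ∫ x, Φ x * conj (k x) ∂μ = a + 2 * q * U := by
    rw [ha, hU, ← integral_const_mul, ← integral_add (mc hE) ((mc hX).const_mul _)]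
    refine integral_congr_ae (Eventually.of_forall fun x => ?_)
    show (E x + 2 * q * (X x * E x ^ 2)) * conj (k x)
      = E x * conj (k x) + 2 * q * (X x * E x ^ 2 * conj (k x))
    ring
  have p2 : ∫ x, Φ x * k x ∂μ = b + 2 * q * W := by
    rw [hb, hW, ← integral_const_mul, ← integral_add (mk hE) ((mk hX).const_mul _)]
    refine integral_congr_ae (Eventually.of_forall fun x => ?_)
    show (E x + 2 * q * (X x * E x ^ 2)) * k x = E x * k x + 2 * q * (X x * E x ^ 2 * k x)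
    ring
  have c1 : ∫ x, conj (Φ x) * conj (k x) ∂μ = conj (b + 2 * q * W) := by
    rw [← p2, ← integral_conj]
    refine integral_congr_ae (Eventually.of_forall fun x => ?_)
    exact (map_mul conj (Φ x) (k x)).symm
  have c2 : ∫ x, conj (Φ x) * k x ∂μ = conj (a + 2 * q * U) := by
    rw [← p1, ← integral_conj]
    refine integral_congr_ae (Eventually.of_forall fun x => ?_)
    show conj (Φ x) * k x = conj (Φ x * conj (k x))
    rw [map_mul, Complex.conj_conj]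
  have q1 : ∫ x, pht E X q s x * conj (k x) ∂μ
      = ((a + 2 * q * U) + s * conj (b + 2 * q * W)) / ((1 - ‖s‖ ^ 2 : ℝ) : ℂ) := by
    rw [← c1, ← p1, ← integral_const_mul, ← integral_add (mc iΦ) ((mc (cj iΦ)).const_mul _),
      ← integral_div]
    refine integral_congr_ae (Eventually.of_forall fun x => ?_)
    show (Φ x + s * conj (Φ x)) / ((1 - ‖s‖ ^ 2 : ℝ) : ℂ) * conj (k x)
      = (Φ x * conj (k x) + s * (conj (Φ x) * conj (k x))) / ((1 - ‖s‖ ^ 2 : ℝ) : ℂ)
    ring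
  have q2 : ∫ x, pht E X q s x * k x ∂μ
      = ((b + 2 * q * W) + s * conj (a + 2 * q * U)) / ((1 - ‖s‖ ^ 2 : ℝ) : ℂ) := by
    rw [← c2, ← p2, ← integral_const_mul, ← integral_add (mk iΦ) ((mk (cj iΦ)).const_mul _),
      ← integral_div]
    refine integral_congr_ae (Eventually.of_forall fun x => ?_)
    show (Φ x + s * conj (Φ x)) / ((1 - ‖s‖ ^ 2 : ℝ) : ℂ) * k x
      = (Φ x * k x + s * (conj (Φ x) * k x)) / ((1 - ‖s‖ ^ 2 : ℝ) : ℂ)
    ring
  rw [q1, q2, CQA.jac_alg rfl hD hA hB, ← CQA.omega_alg hA hB]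
  have e1 : (conj A * (a + 2 * q * U) - conj B * (b + 2 * q * W)).re
      = (conj A * a - conj B * b).re + 2 * q * (conj A * U - conj B * W).re := by
    have : conj A * (a + 2 * q * U) - conj B * (b + 2 * q * W)
        = (conj A * a - conj B * b) + ((2 * q : ℝ) : ℂ) * (conj A * U - conj B * W) := by
      push_cast
      ring
    rw [this, Complex.add_re, Complex.re_ofReal_mul]
  rw [e1]

end gen

/-! ### the interface for the elimination of `k` -/

/-- the periodisation of a function on `(0, 2π]` -/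
def pz (t : ℝ) : ℝ := t - 2 * Real.pi * ((⌈t / (2 * Real.pi)⌉ : ℝ) - 1)

theorem pz_meas : Measurable pz := by
  unfold pz
  have h1 : Measurable fun t : ℝ => (⌈t / (2 * Real.pi)⌉ : ℤ) :=
    Int.measurable_ceil.comp (measurable_id.div_const _)
  have h2 : Measurable fun n : ℤ => (n : ℝ) := measurable_from_top
  exact measurable_id.sub (((h2.comp h1).sub_const _).const_mul _)

theorem pz_per (t : ℝ) : pz (t + 2 * Real.pi) = pz t := by
  unfold pz
  have h : (t + 2 * Real.pi) / (2 * Real.pi) = t / (2 * Real.pi) + 1 := by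
    have := Real.two_pi_pos.ne'
    field_simp
  rw [h, Int.ceil_add_one]
  push_cast
  ring

theorem pz_of {t : ℝ} (h0 : 0 < t) (h1 : t ≤ 2 * Real.pi) : pz t = t := by
  unfold pz
  have h : ⌈t / (2 * Real.pi)⌉ = 1 := by
    rw [Int.ceil_eq_iff]
    constructor
    · simp only [Int.cast_one, sub_self]
      exact div_pos h0 Real.two_pi_pos
    · simp only [Int.cast_one]
      exact (div_le_one Real.two_pi_pos).2 h1
  rw [h]
  simp

theorem vm_ae (x y : ℝ) : ∀ᵐ t ∂(vm x y), t ∈ Ioc (0 : ℝ) (2 * Real.pi) := by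
  have h1 : vm x y ≪ volume.restrict (Ioc 0 (2 * Real.pi)) := withDensity_absolutelyContinuous _ _
  refine h1.ae_le ?_
  filter_upwards [ae_restrict_mem measurableSet_Ioc] with t ht
  exact ht

theorem int_pz {x y : ℝ} (F : ℝ → ℂ) (K : ℝ → ℂ) :
    ∫ t, F t * K t ∂(vm x y) = ∫ t, F t * K (pz t) ∂(vm x y) := by
  refine integral_congr_ae ?_
  filter_upwards [vm_ae x y] with t ht
  rw [pz_of ht.1 ht.2]

/-- the inequality for one state: `|k| ≤ 1` is the only condition on `k` -/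
def StateK (q T : ℝ) (f : ℝ → ℝ) : Prop :=
  ∀ k : ℝ → ℂ, Measurable k → (∀ t, ‖k t‖ ≤ 1) →
    (conj (∫ t, Er f t * conj (k t) ∂(vm (X1 f) 0))
        * ∫ t, pht (Er f) (xT f) q (sr f) t * conj (k t) ∂(vm (X1 f) 0)).re
      - (conj (∫ t, Er f t * k t ∂(vm (X1 f) 0))
        * ∫ t, pht (Er f) (xT f) q (sr f) t * k t ∂(vm (X1 f) 0)).re ≤ T

private theorem alg1 {u s A B P σ : ℂ} (hcu : conj u * u = 1) (hσ : σ = -(u ^ 2 * s))
    (hA : A - σ * conj B = P) : conj u * A + s * conj (conj u * B) = conj u * P := by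
  rw [← hA, hσ, map_mul, Complex.conj_conj]
  linear_combination (-(s * u * conj B)) * hcu

/-- **the certificate of `λ_q`** -/
theorem cert_K {q T : ℝ} (H : ∀ f, Ef f → 0 ≤ X1 f → X2 f = 0 → StateK q T f) :
    Cert (fun c => 1 / (1 + c)) (fun r => q / √(1 - r)) (fun _ => 0) 0 T := by
  intro f hf K hK hK1 A B hA hB
  obtain ⟨φ, r, hr0, hr1, hrs, hf', h1', h2', hx, hy⟩ := F54.exists_rot hf
  set f' : ℝ → ℝ := fun t => f (t + φ) with hf'def
  set x := X1 f with hxd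
  set y := X2 f with hyd
  have hX : x ^ 2 + y ^ 2 < 1 := X_lt hf
  have hprob := vm_prob hX
  obtain ⟨u, hu⟩ : ∃ u : ℂ, u = Complex.exp (φ * I) := ⟨_, rfl⟩
  have hu1 : u * conj u = 1 := by
    rw [hu, ← Complex.exp_conj, ← Complex.exp_add]
    simp
  have hun : ‖u‖ = 1 := by
    rw [hu]
    exact Complex.norm_exp_ofReal_mul_I φ
  have hζ : S54.YY x y = r * u := by
    rw [hu]
    apply Complex.ext
    · rw [Complex.re_ofReal_mul, Complex.exp_ofReal_mul_I_re]
      exact hx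
    · rw [Complex.im_ofReal_mul, Complex.exp_ofReal_mul_I_im]
      exact hy
  have hrF : rF f = r ^ 2 := hrs.symm
  have hrF' : rF f' = r ^ 2 := by
    unfold rF
    rw [h1', h2']
    ring
  have hsr : √(rF f) = r := by rw [hrF, Real.sqrt_sq hr0]
  have hcc' : cF f' = cF f := by
    unfold cF
    rw [hrF, hrF']
  have hc0 : 0 < cF f := by
    refine Real.sqrt_pos.2 (sub_pos.2 ?_)
    exact hX
  have hc2 : cF f ^ 2 = 1 - r ^ 2 := by
    rw [← hrF]
    exact Real.sq_sqrt (sub_pos.2 hX).le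
  -- the frame
  set E : ℝ → ℂ := fun t => conj u * C54.ep x y t with hE
  have hEp : ∀ t, C54.ep x y t = u * E t := fun t => by
    simp only [hE]
    rw [← mul_assoc, hu1, one_mul]
  have hEr : ∀ t, E (t + φ) = Er f' t := fun t => by
    simp only [hE, Er]
    rw [ep_rot hr0 hr1 hx hy, h1', ← hu, ← mul_assoc, mul_comm (conj u), hu1, one_mul]
  have hxr : ∀ t, xT f (t + φ) = xT f' t := fun t => by
    unfold xT de
    rw [hrF, hrF', hcc', ← hxd, ← hyd, pr_rot' hx hy, h1', h2']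
  have hEper : ∀ t, E (t + 2 * Real.pi) = E t := fun t => by
    simp only [hE, ep_per]
  have cE : Continuous E := continuous_const.mul (C54.cont_ep hX)
  have cX : Continuous (xT f) := cont_xT hf
  have hE1 : ∀ t, ‖E t‖ = 1 := fun t => by
    simp only [hE, norm_mul, Complex.norm_conj, hun, one_mul]
    exact C54.norm_ep hX t
  -- the number `s`
  have hs : sr f' = -(3 / 2) * ∫ t, (xT f t : ℂ) * E t ^ 3 ∂(vm x y) := by
    unfold sr
    rw [vm_rot hr0 hr1 hx hy (F := fun t => (xT f t : ℂ) * E t ^ 3) fun t => by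
      simp only [xT_per hf, hEper], h1']
    simp only [hEr, hxr]
  set s := sr f' with hsd
  -- the relation to `σ`
  have hσ : sF f = -(u ^ 2 * s) := by
    have e1 : sF f = (3 / 4 : ℂ) * (conj (⟨x, y⟩ : ℂ) / (C54.ce x y : ℂ)) * C54.Cm 3 x y f := rfl
    have e2 : C54.Cm 3 x y f = 2 * ∫ t, (de x y f t : ℂ) * C54.ep x y t ^ 3 ∂(vm x y) := by
      rw [S54.Cm_eq hX 3 f, OMS.ME_vm hX 3]
    have e3 : (⟨x, y⟩ : ℂ) = r * u := hζ
    have e4 : C54.ce x y = cF f := OMS.cF_eq f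
    have e5 : ∫ t, (xT f t : ℂ) * E t ^ 3 ∂(vm x y) =
        ((r / cF f : ℝ) : ℂ) * conj u ^ 3 * ∫ t, (de x y f t : ℂ) * C54.ep x y t ^ 3 ∂(vm x y) := by
      rw [← integral_const_mul]
      congr 1
      funext t
      simp only [xT, hE, hsr]
      push_cast
      ring
    rw [hs, e1, e2, e3, e4, e5, map_mul, Complex.conj_ofReal]
    have hcC : (cF f : ℂ) ≠ 0 := Complex.ofReal_ne_zero.2 hc0.ne'
    push_cast
    have e6 : u ^ 2 * conj u ^ 3 = conj u := by
      calc u ^ 2 * conj u ^ 3 = (u * conj u) ^ 2 * conj u := by ring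
        _ = conj u := by rw [hu1, one_pow, one_mul]
    field_simp
    linear_combination (-(4 : ℂ) * r * ∫ t, (de x y f t : ℂ) * C54.ep x y t ^ 3 ∂(vm x y)) * e6
  have hsn : ‖s‖ < 1 := by
    have h1 := F54.sF_lt hf
    rw [hσ, norm_neg, norm_mul, norm_pow, hun, one_pow, one_mul] at h1
    linarith
  -- the functional at the rotated state
  have hpr : ∀ t, pht E (xT f) q s (t + φ) = pht (Er f') (xT f') q s t := fun t => by
    unfold pht
    rw [hEr, hxr]
  have hpper : ∀ t, pht E (xT f) q s (t + 2 * Real.pi) = pht E (xT f) q s t := fun t => by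
    unfold pht
    rw [hEper, xT_per hf]
  -- the rotated gradient
  set K' : ℝ → ℂ := fun t => K (pz (t + φ)) with hK'
  have mK' : Measurable K' := hK.comp (pz_meas.comp (measurable_id.add_const φ))
  have bK' : ∀ t, ‖K' t‖ ≤ 1 := fun t => hK1 _
  have key := H f' hf' (by rw [h1']; exact hr0) h2' K' mK' bK'
  rw [h1', ← hsd] at key
  have j1 : ∀ (F : ℝ → ℂ) (F' : ℝ → ℂ), (∀ t, F (t + 2 * Real.pi) = F t) → (∀ t, F (t + φ) = F' t) →
      ∫ t, F' t * K' t ∂(vm r 0) = ∫ t, F t * K t ∂(vm x y) := by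
    intro F F' hFp hFF
    rw [int_pz F K, vm_rot hr0 hr1 hx hy (F := fun t => F t * K (pz t)) fun t => by
      simp only [hFp, pz_per]]
    simp only [hFF, hK']
  have j2 : ∀ (F : ℝ → ℂ) (F' : ℝ → ℂ), (∀ t, F (t + 2 * Real.pi) = F t) → (∀ t, F (t + φ) = F' t) →
      ∫ t, F' t * conj (K' t) ∂(vm r 0) = ∫ t, F t * conj (K t) ∂(vm x y) := by
    intro F F' hFp hFF
    rw [int_pz F (fun t => conj (K t)), vm_rot hr0 hr1 hx hy (F := fun t => F t * conj (K (pz t))) fun t => by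
      simp only [hFp, pz_per]]
    simp only [hFF, hK']
  rw [j1 E (Er f') hEper hEr, j2 E (Er f') hEper hEr, j1 (pht E (xT f) q s) (pht (Er f') (xT f') q s) hpper hpr,
    j2 (pht E (xT f) q s) (pht (Er f') (xT f') q s) hpper hpr] at key
  set A' : ℂ := conj u * A with hA'
  set B' : ℂ := conj u * B with hB'
  have eB : B = u * B' := by
    rw [hB', ← mul_assoc, hu1, one_mul]
  have eA : A = u * A' := by
    rw [hA', ← mul_assoc, hu1, one_mul]
  have hcu : conj u * u = 1 := by rw [mul_comm]; exact hu1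
  have a1 : A' + s * conj B' = ∫ t, E t * conj (K t) ∂(vm x y) := by
    have e1 : ∫ t, E t * conj (K t) ∂(vm x y) = conj u * ∫ t, C54.ep x y t * conj (K t) ∂(vm x y) := by
      rw [← integral_const_mul]
      congr 1
      funext t
      simp only [hE]
      ring
    rw [e1]
    exact alg1 hcu hσ hA
  have a2 : B' + s * conj A' = ∫ t, E t * K t ∂(vm x y) := by
    have e1 : ∫ t, E t * K t ∂(vm x y) = conj u * ∫ t, C54.ep x y t * K t ∂(vm x y) := by
      rw [← integral_const_mul]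
      congr 1
      funext t
      simp only [hE]
      ring
    rw [e1]
    exact alg1 hcu hσ hB
  have hss : s * conj s = ((‖s‖ ^ 2 : ℝ) : ℂ) := by
    rw [Complex.mul_conj, Complex.normSq_eq_norm_sq]
  have hDn : ((1 - ‖s‖ ^ 2 : ℝ) : ℂ) ≠ 0 := by
    refine Complex.ofReal_ne_zero.2 ?_
    have := norm_nonneg s
    nlinarith
  have hDs : ((1 - ‖s‖ ^ 2 : ℝ) : ℂ) = 1 - s * conj s := by
    rw [hss]
    push_cast
    rfl
  have b1 : A' = ((∫ t, E t * conj (K t) ∂(vm x y)) - s * conj (∫ t, E t * K t ∂(vm x y)))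
      / ((1 - ‖s‖ ^ 2 : ℝ) : ℂ) := by
    rw [eq_div_iff hDn, ← a1, ← a2, hDs]
    simp only [map_add, map_mul, Complex.conj_conj]
    ring
  have b2 : B' = ((∫ t, E t * K t ∂(vm x y)) - s * conj (∫ t, E t * conj (K t) ∂(vm x y)))
      / ((1 - ‖s‖ ^ 2 : ℝ) : ℂ) := by
    rw [eq_div_iff hDn, ← a1, ← a2, hDs]
    simp only [map_add, map_mul, Complex.conj_conj]
    ring
  rw [← omega_eq (μ := vm x y) (E := E) (k := K) (X := xT f) (q := q) (s := s) hsn
    (Eventually.of_forall hK1) hK.aestronglyMeasurable (int_of_cont hX cE)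
    (int_of_cont hX ((Complex.continuous_ofReal.comp cX).mul (cE.pow 2))) b1 b2] at key
  refine le_trans (le_of_eq ?_) key
  -- the two values agree
  have hr0' : rF f < 1 := hX
  have w1 : deriv (fun c : ℝ => 1 / (1 + c)) (cF f) = -(1 / (1 + cF f) ^ 2) := by
    have h1 : (1 : ℝ) + cF f ≠ 0 := by positivity
    have h2 : HasDerivAt (fun c : ℝ => 1 / (1 + c)) (-(1 / (1 + cF f) ^ 2)) (cF f) := by
      have h3 := ((hasDerivAt_id (cF f)).const_add 1).inv h1
      simp only [id, one_div] at h3 ⊢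
      refine h3.congr_deriv ?_
      field_simp
    exact h2.deriv
  have w2 : deriv (fun r : ℝ => q / √(1 - r)) (rF f) = q / (2 * cF f ^ 3) := by
    have h1 : HasDerivAt (fun r : ℝ => √(1 - r)) ((-1) / (2 * √(1 - rF f))) (rF f) :=
      ((hasDerivAt_id (rF f)).const_sub 1).sqrt (sub_pos.2 hr0').ne'
    have h2 : √(1 - rF f) = cF f := rfl
    have h3 := (hasDerivAt_const (rF f) q).div h1 (by rw [h2]; exact hc0.ne')
    rw [h2] at h3
    refine (h3.congr_deriv ?_).deriv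
    field_simp
    ring
  have w3 : W0 (2 * cF f * (1 / (1 + cF f)) - rF f * deriv (fun c : ℝ => 1 / (1 + c)) (cF f))
      (q / √(1 - rF f)) (deriv (fun r : ℝ => q / √(1 - r)) (rF f)) 0 (deriv (fun _ : ℝ => (0 : ℝ)) (rF f)) f
      = 1 := by
    rw [w1, w2]
    unfold W0
    have h2 : √(1 - rF f) = cF f := rfl
    rw [h2, deriv_const, hrF]
    have h3 : r ^ 2 = 1 - cF f ^ 2 := by rw [hc2]; ring
    rw [h3]
    have h1 : (1 : ℝ) + cF f ≠ 0 := by positivity
    have h5 : 2 * cF f * (q / (2 * cF f ^ 3)) - q / cF f / cF f + 0 / cF f = 0 := by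
      field_simp
      ring
    rw [h5]
    field_simp
    ring
  have e1 : ∀ t, conj (mk (q / cF f) 0 f t) = q * u * ((xT f t : ℂ) * E t ^ 2) := fun t => by
    unfold OMS.mk
    rw [← hxd, ← hyd, hζ, hEp t]
    simp only [xT, hsr, map_mul, map_add, map_pow, Complex.conj_ofReal, Complex.conj_conj]
    push_cast
    have : ∀ z : ℂ, conj u * (u * z) ^ 2 = u * z ^ 2 * (conj u * u) := fun z => by ring
    rw [zero_mul, add_zero]
    rw [← hxd, ← hyd]
    linear_combination ((de x y f t : ℂ) * (q / cF f) * r * u * E t ^ 2) * hcu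
  have e2 : ∫ t, mk (q / cF f) 0 f t * K t ∂(vm x y) =
      conj (q * u * ∫ t, (xT f t : ℂ) * E t ^ 2 * conj (K t) ∂(vm x y)) := by
    rw [← integral_const_mul, ← integral_conj]
    congr 1
    funext t
    have := e1 t
    have h2 : mk (q / cF f) 0 f t = conj (q * u * ((xT f t : ℂ) * E t ^ 2)) := by
      rw [← this, Complex.conj_conj]
    rw [h2]
    simp only [map_mul, map_pow, Complex.conj_conj, Complex.conj_ofReal]
    ring
  have e3 : ∫ t, mk (q / cF f) 0 f t * conj (K t) ∂(vm x y) =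
      conj (q * u * ∫ t, (xT f t : ℂ) * E t ^ 2 * K t ∂(vm x y)) := by
    rw [← integral_const_mul, ← integral_conj]
    congr 1
    funext t
    have := e1 t
    have h2 : mk (q / cF f) 0 f t = conj (q * u * ((xT f t : ℂ) * E t ^ 2)) := by
      rw [← this, Complex.conj_conj]
    rw [h2]
    simp only [map_mul, map_pow, Complex.conj_ofReal]
    ring
  have h2 : √(1 - rF f) = cF f := rfl
  simp only [] at w3 ⊢
  rw [w3, one_mul, mul_zero, zero_mul, add_zero]
  rw [h2, e2, e3, eA, eB]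
  have n1 : ∀ z : ℂ, ‖u * z‖ = ‖z‖ := fun z => by rw [norm_mul, hun, one_mul]
  rw [n1, n1]
  generalize ∫ t, (xT f t : ℂ) * E t ^ 2 * conj (K t) ∂(vm x y) = U
  generalize ∫ t, (xT f t : ℂ) * E t ^ 2 * K t ∂(vm x y) = V
  have r1 : ∀ a z : ℂ, (u * a * conj (q * u * z)).re = q * (conj a * z).re := fun a z => by
    have : u * a * conj (q * u * z) = (q : ℂ) * conj (conj a * z) * (u * conj u) := by
      simp only [map_mul, Complex.conj_ofReal, Complex.conj_conj]
      ring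
    rw [this, hu1, mul_one, Complex.re_ofReal_mul, Complex.conj_re]
  rw [r1, r1, Complex.sub_re]
  ring

/-- **the area bound from the state inequality** -/
theorem area_K {q T : ℝ} (H : ∀ f, Ef f → 0 ≤ X1 f → X2 f = 0 → StateK q T f)
    (M : Type) [MetricSpace M] [CompactSpace M] (γ : ℝ → M) (C : Calc M γ) (hγ : Bd γ) :
    2 * Real.pi ≤ T * C.vol := by
  have hW : ContDiffOn ℝ 1 (fun c : ℝ => 1 / (1 + c)) (Ioi 0) :=
    contDiffOn_const.div (contDiffOn_const.add contDiffOn_id) fun c hc => by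
      have : (0 : ℝ) < c := hc
      positivity
  have hW0 : ContinuousOn (fun c : ℝ => 1 / (1 + c)) (Ici 0) :=
    continuousOn_const.div (continuousOn_const.add continuousOn_id) fun c hc => by
      have : (0 : ℝ) ≤ c := hc
      positivity
  have hQ : ContDiffOn ℝ 1 (fun r : ℝ => q / √(1 - r)) (Iio 1) := by
    refine contDiffOn_const.div ((contDiffOn_const.sub contDiffOn_id).sqrt fun r hr => ?_) fun r hr => ?_
    · exact (sub_pos.2 (mem_Iio.1 hr)).ne'
    · exact (Real.sqrt_pos.2 (sub_pos.2 (mem_Iio.1 hr))).ne'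
  have hQ0 : Tendsto (fun c : ℝ => q / √(1 - (1 - c ^ 2)) * c ^ 2) (𝓝[>] 0) (𝓝 0) := by
    have h1 : Tendsto (fun c : ℝ => q * c) (𝓝[>] 0) (𝓝 0) := by
      have : Tendsto (fun c : ℝ => q * c) (𝓝 0) (𝓝 (q * 0)) := (continuous_const.mul continuous_id).tendsto 0
      rw [mul_zero] at this
      exact this.mono_left nhdsWithin_le_nhds
    refine h1.congr' ?_
    filter_upwards [self_mem_nhdsWithin] with c hc
    have hc' : (0 : ℝ) < c := hc
    rw [sub_sub_cancel, Real.sqrt_sq hc'.le]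
    field_simp
  have hZ0 : Tendsto (fun c : ℝ => (fun _ : ℝ => (0 : ℝ)) (1 - c ^ 2) * c ^ 2) (𝓝[>] 0) (𝓝 0) := by
    simp
  have := OMS.area5 (W := fun c : ℝ => 1 / (1 + c)) hW hW0 hQ contDiffOn_const hQ0 hZ0 (cert_K H) M γ C hγ
  simpa using this

/-! ### plain Parseval -/

/-- `mean (x²)` -/
def MX (f : ℝ → ℝ) : ℝ := ∫ t, xT f t ^ 2 ∂(vm (X1 f) 0)

/-- `mean (x² E⁴)` -/
def YX (f : ℝ → ℝ) : ℂ := ∫ t, (xT f t : ℂ) ^ 2 * Er f t ^ 4 ∂(vm (X1 f) 0)

/-- `mean |Φ̃|²` -/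
def N2 (q : ℝ) (f : ℝ → ℝ) : ℝ :=
  ((1 + ‖sr f‖ ^ 2) * (1 + 4 * q ^ 2 * MX f)
    + 2 * (conj (sr f) * (-(8 * q / 3 : ℝ) * sr f + (4 * q ^ 2 : ℝ) * YX f)).re) / (1 - ‖sr f‖ ^ 2) ^ 2

/-- `mean (Φ̃²)` -/
def P2 (q : ℝ) (f : ℝ → ℝ) : ℂ :=
  ((-(8 * q / 3 : ℝ) * sr f + (4 * q ^ 2 : ℝ) * YX f) + 2 * sr f * (1 + 4 * q ^ 2 * MX f : ℝ)
    + sr f ^ 2 * conj (-(8 * q / 3 : ℝ) * sr f + (4 * q ^ 2 : ℝ) * YX f)) / ((1 - ‖sr f‖ ^ 2 : ℝ) : ℂ) ^ 2

/-- `mean (E conj Φ̃)` -/
def D1 (q : ℝ) (f : ℝ → ℝ) : ℝ := (1 - 4 * q / 3 * ‖sr f‖ ^ 2) / (1 - ‖sr f‖ ^ 2)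

section state

variable {f : ℝ → ℝ} (hf : Ef f) (h2 : X2 f = 0)

include hf h2

theorem X1_lt : X1 f ^ 2 + (0 : ℝ) ^ 2 < 1 := by
  have := X_lt hf
  rwa [h2] at this

theorem sr_lt : ‖sr f‖ ≤ 71 / 100 := by
  have hX := X1_lt hf h2
  have h1 := F54.sF_lt hf
  have e : sF f = -(((X1 f / √(rF f) : ℝ) : ℂ) * sr f) ∨ sF f = 0 ∧ X1 f = 0 := by
    have e1 : sF f = (3 / 4 : ℂ) * (conj (⟨X1 f, X2 f⟩ : ℂ) / (C54.ce (X1 f) (X2 f) : ℂ))
      * C54.Cm 3 (X1 f) (X2 f) f := rfl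
    have e2 : C54.Cm 3 (X1 f) (X2 f) f = 2 * ∫ t, (de (X1 f) (X2 f) f t : ℂ) * C54.ep (X1 f) (X2 f) t ^ 3
        ∂(vm (X1 f) (X2 f)) := by
      rw [S54.Cm_eq (X_lt hf) 3 f, OMS.ME_vm (X_lt hf) 3]
    have e3 : conj (⟨X1 f, X2 f⟩ : ℂ) = X1 f := by
      rw [h2]
      apply Complex.ext <;> simp
    rw [e1, e3, e2]
    by_cases h0 : X1 f = 0
    · right
      simp [h0]
    left
    have e4 : C54.ce (X1 f) (X2 f) = cF f := OMS.cF_eq f
    have hr : √(rF f) = |X1 f| := by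
      unfold rF
      rw [h2]
      simp [Real.sqrt_sq_eq_abs]
    have hra : |X1 f| ≠ 0 := abs_ne_zero.2 h0
    have e5 : sr f = -(3 / 2) * (((|X1 f| / cF f : ℝ) : ℂ)
        * ∫ t, (de (X1 f) (X2 f) f t : ℂ) * C54.ep (X1 f) (X2 f) t ^ 3 ∂(vm (X1 f) (X2 f))) := by
      have e6 : ∀ t, (xT f t : ℂ) * Er f t ^ 3 = ((|X1 f| / cF f : ℝ) : ℂ)
          * ((de (X1 f) (X2 f) f t : ℂ) * C54.ep (X1 f) (X2 f) t ^ 3) := fun t => by
        simp only [xT, Er, hr, h2]
        push_cast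
        ring
      unfold sr
      simp only [e6]
      rw [integral_const_mul, h2]
    have hc0 : 0 < cF f := Real.sqrt_pos.2 (sub_pos.2 (X_lt hf))
    have hcC : (cF f : ℂ) ≠ 0 := Complex.ofReal_ne_zero.2 hc0.ne'
    have haC : ((|X1 f| : ℝ) : ℂ) ≠ 0 := Complex.ofReal_ne_zero.2 hra
    rw [e5, e4, hr]
    push_cast
    field_simp
    ring
  rcases e with e | ⟨e, e'⟩
  · by_cases h0 : X1 f = 0
    · have hr : √(rF f) = 0 := by
        unfold rF
        rw [h2, h0]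
        simp
      have : sr f = 0 := by
        unfold sr xT
        rw [hr]
        simp
      rw [this, norm_zero]
      norm_num
    · have hr : √(rF f) = |X1 f| := by
        unfold rF
        rw [h2]
        simp [Real.sqrt_sq_eq_abs]
      rw [e, norm_neg, norm_mul, Complex.norm_real, Real.norm_eq_abs, hr, abs_div, abs_abs,
        div_self (abs_ne_zero.2 h0), one_mul] at h1
      exact h1
  · have hr : √(rF f) = 0 := by
      unfold rF
      rw [h2, e']
      simp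
    have : sr f = 0 := by
      unfold sr xT
      rw [hr]
      simp
    rw [this, norm_zero]
    norm_num

/-- the constraint -/
theorem m_one : ∫ t, (xT f t : ℂ) * Er f t ∂(vm (X1 f) 0) = 0 := by
  have h1 := F54.CF_one hf
  rw [S54.Cm_eq (X_lt hf) 1 f, OMS.ME_vm (X_lt hf) 1] at h1
  have h3 : ∫ t, (de (X1 f) (X2 f) f t : ℂ) * C54.ep (X1 f) (X2 f) t ^ 1 ∂(vm (X1 f) (X2 f)) = 0 := by
    simpa using h1
  have e : ∫ t, (xT f t : ℂ) * Er f t ∂(vm (X1 f) 0) =
      ((√(rF f) / cF f : ℝ) : ℂ) * ∫ t, (de (X1 f) (X2 f) f t : ℂ) * C54.ep (X1 f) (X2 f) t ^ 1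
        ∂(vm (X1 f) (X2 f)) := by
    rw [← integral_const_mul, h2]
    refine integral_congr_ae (Eventually.of_forall fun t => ?_)
    simp only [xT, Er, h2, pow_one]
    push_cast
    ring
  rw [e, h3, mul_zero]

/-- the ten basic functions -/
def bs (f : ℝ → ℝ) : Fin 10 → ℝ → ℂ := ![fun _ => 1, fun t => (xT f t : ℂ) * Er f t,
  fun t => (xT f t : ℂ) * conj (Er f t), fun t => (xT f t : ℂ) ^ 2, fun t => Er f t ^ 2,
  fun t => (xT f t : ℂ) * Er f t ^ 3, fun t => (xT f t : ℂ) ^ 2 * Er f t ^ 4,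
  fun t => conj (Er f t) ^ 2, fun t => (xT f t : ℂ) * conj (Er f t) ^ 3,
  fun t => (xT f t : ℂ) ^ 2 * conj (Er f t) ^ 4]

/-- their means -/
def mm (f : ℝ → ℝ) : Fin 10 → ℂ := ![1, 0, 0, MX f, 0, -(2 / 3) * sr f, YX f, 0, -(2 / 3) * conj (sr f),
  conj (YX f)]

theorem cont_Er : Continuous (Er f) := C54.cont_ep (X1_lt hf h2)

theorem Er_conj (t : ℝ) : Er f t * conj (Er f t) = 1 := by
  have h := C54.norm_ep (X1_lt hf h2) t
  rw [Complex.mul_conj, Complex.normSq_eq_norm_sq]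
  have : ‖Er f t‖ = 1 := h
  rw [this]
  norm_num

theorem int_bs (i : Fin 10) : Integrable (bs f i) (vm (X1 f) 0) := by
  have hX := X1_lt hf h2
  have c1 := cont_Er hf h2
  have c2 : Continuous fun t => (starRingEnd ℂ) (Er f t) := Complex.continuous_conj.comp c1
  have c3 : Continuous fun t => (xT f t : ℂ) := Complex.continuous_ofReal.comp (cont_xT hf)
  fin_cases i
  · exact int_of_cont hX continuous_const
  · exact int_of_cont hX (c3.mul c1)
  · exact int_of_cont hX (c3.mul c2)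
  · exact int_of_cont hX (c3.pow 2)
  · exact int_of_cont hX (c1.pow 2)
  · exact int_of_cont hX (c3.mul (c1.pow 3))
  · exact int_of_cont hX ((c3.pow 2).mul (c1.pow 4))
  · exact int_of_cont hX (c2.pow 2)
  · exact int_of_cont hX (c3.mul (c2.pow 3))
  · exact int_of_cont hX ((c3.pow 2).mul (c2.pow 4))

theorem m_two : ∫ t, Er f t ^ 2 ∂(vm (X1 f) 0) = 0 := by
  have h := OMB.vm_ep2 (X1_lt hf h2)
  have e : ∀ t, Er f t ^ 2 = C54.ep (X1 f) 0 t * C54.ep (X1 f) 0 t := fun t => by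
    unfold Er
    ring
  simp only [e]
  exact h

theorem val_bs (i : Fin 10) : ∫ t, bs f i t ∂(vm (X1 f) 0) = mm f i := by
  have hX := X1_lt hf h2
  have hp := vm_prob hX
  have cj : ∀ g : ℝ → ℂ, ∫ t, conj (g t) ∂(vm (X1 f) 0) = conj (∫ t, g t ∂(vm (X1 f) 0)) := fun g => integral_conj
  have m2 : ∫ t, Er f t ^ 2 ∂(vm (X1 f) 0) = 0 := m_two hf h2
  have m3 : ∫ t, (xT f t : ℂ) * Er f t ^ 3 ∂(vm (X1 f) 0) = -(2 / 3) * sr f := by
    unfold sr
    ring
  fin_cases i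
  · show ∫ t, (1 : ℂ) ∂(vm (X1 f) 0) = 1
    simp
  · exact m_one hf h2
  · show ∫ t, (xT f t : ℂ) * conj (Er f t) ∂(vm (X1 f) 0) = 0
    have := cj fun t => (xT f t : ℂ) * Er f t
    rw [m_one hf h2, map_zero] at this
    rw [← this]
    congr 1
    funext t
    rw [map_mul, Complex.conj_ofReal]
  · show ∫ t, (xT f t : ℂ) ^ 2 ∂(vm (X1 f) 0) = MX f
    unfold MX
    rw [← integral_complex_ofReal]
    congr 1
    funext t
    push_cast
    ring
  · exact m2
  · exact m3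
  · rfl
  · show ∫ t, conj (Er f t) ^ 2 ∂(vm (X1 f) 0) = 0
    have := cj fun t => Er f t ^ 2
    rw [m2, map_zero] at this
    rw [← this]
    congr 1
    funext t
    rw [map_pow]
  · show ∫ t, (xT f t : ℂ) * conj (Er f t) ^ 3 ∂(vm (X1 f) 0) = -(2 / 3) * conj (sr f)
    have := cj fun t => (xT f t : ℂ) * Er f t ^ 3
    rw [m3, map_mul] at this
    have e : conj (-(2 / 3) : ℂ) = -(2 / 3) := by
      have : (-(2 / 3) : ℂ) = ((-(2 / 3) : ℝ) : ℂ) := by push_cast; ring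
      rw [this, Complex.conj_ofReal]
    rw [e] at this
    rw [← this]
    congr 1
    funext t
    rw [map_mul, map_pow, Complex.conj_ofReal]
  · show ∫ t, (xT f t : ℂ) ^ 2 * conj (Er f t) ^ 4 ∂(vm (X1 f) 0) = conj (YX f)
    unfold YX
    rw [← cj]
    congr 1
    funext t
    rw [map_mul, map_pow, map_pow, Complex.conj_ofReal]

/-- the mean of a combination -/
theorem lin (a : Fin 10 → ℂ) : ∫ t, ∑ i, a i * bs f i t ∂(vm (X1 f) 0) = ∑ i, a i * mm f i := by
  rw [integral_finsetSum _ fun i _ => (int_bs hf h2 i).const_mul (a i)]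
  refine Finset.sum_congr rfl fun i _ => ?_
  rw [integral_const_mul, val_bs hf h2]

/-- `mean (E conj Φ̃)` -/
theorem I1 (q : ℝ) : ∫ t, Er f t * conj (pht (Er f) (xT f) q (sr f) t) ∂(vm (X1 f) 0) = (D1 q f : ℝ) := by
  set D : ℂ := ((1 - ‖sr f‖ ^ 2 : ℝ) : ℂ) with hD
  have hDc : conj D = D := Complex.conj_ofReal _
  have hss : conj (sr f) * sr f = ((‖sr f‖ ^ 2 : ℝ) : ℂ) := by
    rw [mul_comm, Complex.mul_conj, Complex.normSq_eq_norm_sq]
  have e := lin hf h2 ![1 / D, 0, 2 * q / D, 0, conj (sr f) / D, 2 * q * conj (sr f) / D, 0, 0, 0, 0]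
  have e1 : ∀ t, Er f t * conj (pht (Er f) (xT f) q (sr f) t) = ∑ i, (![1 / D, 0, 2 * q / D, 0, conj (sr f) / D,
      2 * q * conj (sr f) / D, 0, 0, 0, 0] : Fin 10 → ℂ) i * bs f i t := by
    intro t
    have h := Er_conj hf h2 t
    unfold pht
    simp only [Fin.sum_univ_succ, bs, Matrix.cons_val_zero, Matrix.cons_val_succ,
      Finset.univ_unique, Fin.default_eq_zero, Finset.sum_singleton,
      map_div₀, map_add, map_mul, map_pow, Complex.conj_conj, Complex.conj_ofReal, map_ofNat, ← hD, hDc]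
    rw [mul_div_assoc']
    have h3 : Er f t * conj (Er f t) ^ 2 = conj (Er f t) := by
      linear_combination conj (Er f t) * h
    linear_combination (1 / D) * h + (2 * q * (xT f t : ℂ) / D) * h3
  simp only [e1]
  rw [e]
  simp only [Fin.sum_univ_succ, mm, Matrix.cons_val_zero, Matrix.cons_val_succ,
      Finset.univ_unique, Fin.default_eq_zero, Finset.sum_singleton]
  unfold D1
  push_cast
  push_cast at hD hss
  rw [← hD]
  linear_combination (-(4 * q / 3) / D) * hss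

/-- `mean |Φ̃|²` -/
theorem I2 (q : ℝ) : ∫ t, pht (Er f) (xT f) q (sr f) t * conj (pht (Er f) (xT f) q (sr f) t) ∂(vm (X1 f) 0)
    = (N2 q f : ℝ) := by
  set D : ℂ := ((1 - ‖sr f‖ ^ 2 : ℝ) : ℂ) with hD
  have hDc : conj D = D := Complex.conj_ofReal _
  have hss : conj (sr f) * sr f = ((‖sr f‖ ^ 2 : ℝ) : ℂ) := by
    rw [mul_comm, Complex.mul_conj, Complex.normSq_eq_norm_sq]
  obtain ⟨a, ha⟩ : ∃ a : Fin 10 → ℂ, a = ![(1 + (‖sr f‖ ^ 2 : ℝ)) / D ^ 2, (1 + (‖sr f‖ ^ 2 : ℝ)) * (2 * q) / D ^ 2,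
    (1 + (‖sr f‖ ^ 2 : ℝ)) * (2 * q) / D ^ 2, (1 + (‖sr f‖ ^ 2 : ℝ)) * (4 * q ^ 2) / D ^ 2, conj (sr f) / D ^ 2,
    conj (sr f) * (4 * q) / D ^ 2, conj (sr f) * (4 * q ^ 2) / D ^ 2, sr f / D ^ 2, sr f * (4 * q) / D ^ 2,
    sr f * (4 * q ^ 2) / D ^ 2] := ⟨_, rfl⟩
  have e := lin hf h2 a
  have e1 : ∀ t, pht (Er f) (xT f) q (sr f) t * conj (pht (Er f) (xT f) q (sr f) t) = ∑ i, a i * bs f i t := by
    intro t
    have h := Er_conj hf h2 t
    unfold pht
    rw [ha]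
    simp only [Fin.sum_univ_succ, bs, Matrix.cons_val_zero, Matrix.cons_val_succ,
      Finset.univ_unique, Fin.default_eq_zero, Finset.sum_singleton,
      map_div₀, map_add, map_mul, map_pow, Complex.conj_conj, Complex.conj_ofReal, map_ofNat, ← hD, hDc, ← hss]
    generalize sr f = s
    generalize (starRingEnd ℂ) s = s'
    generalize (starRingEnd ℂ) (Er f t) = e' at *
    generalize Er f t = e at *
    generalize (xT f t : ℂ) = x
    have k1 : (e + 2 * ↑q * (x * e ^ 2) + s * (e' + 2 * ↑q * (x * e' ^ 2))) *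
        (e' + 2 * ↑q * (x * e' ^ 2) + s' * (e + 2 * ↑q * (x * e ^ 2))) =
        (1 + s' * s) * (1 + 2 * q * (x * e) + 2 * q * (x * e') + 4 * q ^ 2 * x ^ 2)
        + s' * (e ^ 2 + 4 * q * (x * e ^ 3) + 4 * q ^ 2 * (x ^ 2 * e ^ 4))
        + s * (e' ^ 2 + 4 * q * (x * e' ^ 3) + 4 * q ^ 2 * (x ^ 2 * e' ^ 4)) := by
      linear_combination ((1 + s' * s) * (1 + 2 * q * x * e + 2 * q * x * e' + 4 * q ^ 2 * x ^ 2 * (1 + e * e'))) * h
    rw [div_mul_div_comm, k1, ← pow_two]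
    ring
  simp only [e1]
  rw [e, ha]
  simp only [Fin.sum_univ_succ, mm, Matrix.cons_val_zero, Matrix.cons_val_succ,
      Finset.univ_unique, Fin.default_eq_zero, Finset.sum_singleton]
  have hre : ∀ z : ℂ, ((2 * z.re : ℝ) : ℂ) = z + conj z := fun z => by
    rw [Complex.add_conj]
  unfold N2
  rw [Complex.ofReal_div, Complex.ofReal_add, hre]
  push_cast
  simp only [map_mul, map_add, map_neg, map_div₀, map_pow, Complex.conj_conj, Complex.conj_ofReal, map_ofNat]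
  push_cast at hD
  rw [← hD]
  ring

/-- `mean (Φ̃²)` -/
theorem I3 (q : ℝ) : ∫ t, pht (Er f) (xT f) q (sr f) t ^ 2 ∂(vm (X1 f) 0) = P2 q f := by
  set D : ℂ := ((1 - ‖sr f‖ ^ 2 : ℝ) : ℂ) with hD
  have hDc : conj D = D := Complex.conj_ofReal _
  obtain ⟨a, ha⟩ : ∃ a : Fin 10 → ℂ, a = ![2 * sr f / D ^ 2, 2 * sr f * (2 * q) / D ^ 2,
    2 * sr f * (2 * q) / D ^ 2, 2 * sr f * (4 * q ^ 2) / D ^ 2, 1 / D ^ 2,
    4 * q / D ^ 2, 4 * q ^ 2 / D ^ 2, sr f ^ 2 / D ^ 2, sr f ^ 2 * (4 * q) / D ^ 2,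
    sr f ^ 2 * (4 * q ^ 2) / D ^ 2] := ⟨_, rfl⟩
  have e := lin hf h2 a
  have e1 : ∀ t, pht (Er f) (xT f) q (sr f) t ^ 2 = ∑ i, a i * bs f i t := by
    intro t
    have h := Er_conj hf h2 t
    unfold pht
    rw [ha]
    simp only [Fin.sum_univ_succ, bs, Matrix.cons_val_zero, Matrix.cons_val_succ,
      Finset.univ_unique, Fin.default_eq_zero, Finset.sum_singleton,
      map_add, map_mul, map_pow, Complex.conj_ofReal, map_ofNat, ← hD]
    generalize sr f = s
    generalize (starRingEnd ℂ) (Er f t) = e' at *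
    generalize Er f t = e at *
    generalize (xT f t : ℂ) = x
    have k1 : (e + 2 * ↑q * (x * e ^ 2) + s * (e' + 2 * ↑q * (x * e' ^ 2))) ^ 2 =
        (2 * s) * (1 + 2 * q * (x * e) + 2 * q * (x * e') + 4 * q ^ 2 * x ^ 2)
        + (e ^ 2 + 4 * q * (x * e ^ 3) + 4 * q ^ 2 * (x ^ 2 * e ^ 4))
        + s ^ 2 * (e' ^ 2 + 4 * q * (x * e' ^ 3) + 4 * q ^ 2 * (x ^ 2 * e' ^ 4)) := by
      linear_combination (2 * s * (1 + 2 * q * x * e + 2 * q * x * e' + 4 * q ^ 2 * x ^ 2 * (1 + e * e'))) * h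
    rw [div_pow, k1]
    ring
  simp only [e1]
  rw [e, ha]
  simp only [Fin.sum_univ_succ, mm, Matrix.cons_val_zero, Matrix.cons_val_succ,
      Finset.univ_unique, Fin.default_eq_zero, Finset.sum_singleton]
  unfold P2
  simp only [map_mul, map_add, map_neg, Complex.conj_ofReal]
  push_cast
  push_cast at hD
  rw [← hD]
  ring

/-- **plain Parseval** -/
theorem stateK_pp {q T : ℝ} (hT : (1 + N2 q f) / 4 + √(D1 q f ^ 2 / 4 + ‖P2 q f / 4‖ ^ 2) ≤ T) :
    StateK q T f := by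
  intro k mk hk
  have hX := X1_lt hf h2
  have hp := vm_prob hX
  set P : ℝ → ℂ := pht (Er f) (xT f) q (sr f) with hP
  have cE := cont_Er hf h2
  have cP : Continuous P := cont_pht cE (cont_xT hf) q (sr f)
  have cS : Continuous fun t => (1 / 2 : ℂ) * (Er f t + P t) := continuous_const.mul (cE.add cP)
  have cD : Continuous fun t => (1 / 2 : ℂ) * (Er f t - P t) := continuous_const.mul (cE.sub cP)
  have cPc : Continuous fun t => (starRingEnd ℂ) (P t) := Complex.continuous_conj.comp cP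
  have cEc : Continuous fun t => (starRingEnd ℂ) (Er f t) := Complex.continuous_conj.comp cE
  have J : ∀ σ : ℝ, σ ^ 2 = 1 → ∫ t, ‖(1 / 2 : ℂ) * (Er f t + σ * P t)‖ ^ 2 / (1 : ℝ) ∂(vm (X1 f) 0)
      = (1 + N2 q f + 2 * σ * D1 q f) / 4 := by
    intro σ hσ
    have hσc : (σ : ℂ) ^ 2 = 1 := by exact_mod_cast hσ
    have h1 : ((∫ t, ‖(1 / 2 : ℂ) * (Er f t + σ * P t)‖ ^ 2 / (1 : ℝ) ∂(vm (X1 f) 0) : ℝ) : ℂ)
        = (((1 + N2 q f + 2 * σ * D1 q f) / 4 : ℝ) : ℂ) := by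
      rw [← integral_complex_ofReal]
      have e1 : ∀ t, ((‖(1 / 2 : ℂ) * (Er f t + σ * P t)‖ ^ 2 / (1 : ℝ) : ℝ) : ℂ)
          = (1 / 4 + (σ / 4) * (Er f t * conj (P t))) + ((σ / 4) * conj (Er f t * conj (P t))
            + (1 / 4) * (P t * conj (P t))) := by
        intro t
        have h := Er_conj hf h2 t
        rw [div_one, ← Complex.normSq_eq_norm_sq, ← Complex.mul_conj]
        simp only [map_mul, map_add, map_div₀, map_one, map_ofNat, Complex.conj_conj, Complex.conj_ofReal]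
        linear_combination (1 / 4) * h + (1 / 4) * (P t * conj (P t)) * hσc
      simp only [e1]
      have i1 : Integrable (fun t => (1 / 4 : ℂ) + (σ / 4) * (Er f t * conj (P t))) (vm (X1 f) 0) :=
        int_of_cont hX (continuous_const.add (continuous_const.mul (cE.mul cPc)))
      have i2 : Integrable (fun t => ((σ / 4 : ℂ)) * conj (Er f t * conj (P t))
          + (1 / 4) * (P t * conj (P t))) (vm (X1 f) 0) :=
        int_of_cont hX ((continuous_const.mul (Complex.continuous_conj.comp (cE.mul cPc))).add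
          (continuous_const.mul (cP.mul cPc)))
      have i3 : Integrable (fun t => (σ / 4 : ℂ) * (Er f t * conj (P t))) (vm (X1 f) 0) :=
        int_of_cont hX (continuous_const.mul (cE.mul cPc))
      have i4 : Integrable (fun t => (σ / 4 : ℂ) * conj (Er f t * conj (P t))) (vm (X1 f) 0) :=
        int_of_cont hX (continuous_const.mul (Complex.continuous_conj.comp (cE.mul cPc)))
      have i5 : Integrable (fun t => (1 / 4 : ℂ) * (P t * conj (P t))) (vm (X1 f) 0) :=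
        int_of_cont hX (continuous_const.mul (cP.mul cPc))
      rw [integral_add i1 i2, integral_add (integrable_const _) i3, integral_add i4 i5,
        integral_const_mul, integral_const_mul, integral_const_mul, integral_conj, I1 hf h2, I2 hf h2,
        Complex.conj_ofReal]
      simp only [integral_const, probReal_univ, one_smul]
      push_cast
      ring
    exact_mod_cast h1
  have J1 : ∫ t, ‖(1 / 2 : ℂ) * (Er f t + P t)‖ ^ 2 / (1 : ℝ) ∂(vm (X1 f) 0) = (1 + N2 q f + 2 * D1 q f) / 4 := by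
    have := J 1 (by norm_num)
    simpa using this
  have J2 : ∫ t, ‖(1 / 2 : ℂ) * (Er f t - P t)‖ ^ 2 / (1 : ℝ) ∂(vm (X1 f) 0) = (1 + N2 q f - 2 * D1 q f) / 4 := by
    have := J (-1) (by norm_num)
    have e : ∀ t, Er f t + ((-1 : ℝ) : ℂ) * P t = Er f t - P t := fun t => by
      push_cast
      ring
    simp only [e] at this
    rw [this]
    ring
  have J3 : ∫ t, (1 / 2 : ℂ) * (Er f t + P t) * ((1 / 2 : ℂ) * (Er f t - P t)) / ((1 : ℝ) : ℂ) ∂(vm (X1 f) 0)
      = -(P2 q f / 4) := by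
    have e1 : ∀ t, (1 / 2 : ℂ) * (Er f t + P t) * ((1 / 2 : ℂ) * (Er f t - P t)) / ((1 : ℝ) : ℂ)
        = (1 / 4) * Er f t ^ 2 - (1 / 4) * P t ^ 2 := fun t => by
      push_cast
      ring
    simp only [e1]
    have i1 : Integrable (fun t => (1 / 4 : ℂ) * Er f t ^ 2) (vm (X1 f) 0) :=
      int_of_cont hX (continuous_const.mul (cE.pow 2))
    have i2 : Integrable (fun t => (1 / 4 : ℂ) * P t ^ 2) (vm (X1 f) 0) :=
      int_of_cont hX (continuous_const.mul (cP.pow 2))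
    have m2 : ∫ t, Er f t ^ 2 ∂(vm (X1 f) 0) = 0 := m_two hf h2
    rw [integral_sub i1 i2, integral_const_mul, integral_const_mul, m2, I3 hf h2]
    ring
  set lam : ℝ := (1 + N2 q f) / 4 + √(D1 q f ^ 2 / 4 + ‖P2 q f / 4‖ ^ 2) with hlam
  have hR : |D1 q f / 2| ≤ √(D1 q f ^ 2 / 4 + ‖P2 q f / 4‖ ^ 2) := by
    refine Real.le_sqrt_of_sq_le ?_
    rw [sq_abs]
    have : 0 ≤ ‖P2 q f / 4‖ ^ 2 := by positivity
    nlinarith
  have hR2 : √(D1 q f ^ 2 / 4 + ‖P2 q f / 4‖ ^ 2) ^ 2 = D1 q f ^ 2 / 4 + ‖P2 q f / 4‖ ^ 2 :=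
    Real.sq_sqrt (by positivity)
  have hR3 := abs_le.1 hR
  have key := form_le_w (μ := vm (X1 f) 0) (E := Er f) (Ph := P) (k := k) (w := fun _ => 1) (lam := lam)
    (Eventually.of_forall hk) mk.aestronglyMeasurable (int_of_cont hX cE) (int_of_cont hX cP)
    (integrable_const _) (Eventually.of_forall fun _ => one_pos)
    (int_of_cont hX ((cS.norm.pow 2).div_const _)) (int_of_cont hX ((cD.norm.pow 2).div_const _))
    (int_of_cont hX ((cS.mul cD).div_const _))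
    (fun ξ η => by
      rw [J1, J2, J3]
      refine CQA.form_two (g := ‖P2 q f / 4‖) (by rw [norm_neg]) ?_ ?_ ?_ ξ η
      · rw [hlam]
        linarith
      · rw [hlam]
        linarith
      · rw [hlam]
        nlinarith)
  refine key.trans ?_
  simp only [integral_const, probReal_univ, one_smul, one_mul]
  exact hT

end state

/-- **the area bound, plain Parseval** -/
theorem area_pp {q T : ℝ} (H : ∀ f, Ef f → 0 ≤ X1 f → X2 f = 0 →
      (1 + N2 q f) / 4 + √(D1 q f ^ 2 / 4 + ‖P2 q f / 4‖ ^ 2) ≤ T)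
    (M : Type) [MetricSpace M] [CompactSpace M] (γ : ℝ → M) (C : Calc M γ) (hγ : Bd γ) :
    2 * Real.pi ≤ T * C.vol :=
  area_K (fun f hf h1 h2 => stateK_pp hf h2 (H f hf h1 h2)) M γ C hγ

/-- the two quantities for `q = 3/4` -/
def N34 (f : ℝ → ℝ) : ℝ :=
  (1 - 3 * ‖sr f‖ ^ 2 + 9 / 4 * (1 + ‖sr f‖ ^ 2) * MX f + 9 / 2 * (conj (sr f) * YX f).re) / (1 - ‖sr f‖ ^ 2) ^ 2

def K34 (f : ℝ → ℝ) : ℂ :=
  (9 / 4 * (YX f + 2 * sr f * MX f + sr f ^ 2 * conj (YX f)) - 2 * sr f * (‖sr f‖ ^ 2 : ℝ))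
    / (4 * ((1 - ‖sr f‖ ^ 2 : ℝ) : ℂ) ^ 2)

/-- **the area bound, plain Parseval, `q = 3/4`** -/
theorem area_34 {T : ℝ} (H : ∀ f, Ef f → 0 ≤ X1 f → X2 f = 0 →
      (1 + N34 f) / 4 + √(1 / 4 + ‖K34 f‖ ^ 2) ≤ T)
    (M : Type) [MetricSpace M] [CompactSpace M] (γ : ℝ → M) (C : Calc M γ) (hγ : Bd γ) :
    2 * Real.pi ≤ T * C.vol := by
  refine area_pp (q := 3 / 4) (fun f hf h1 h2 => ?_) M γ C hγ
  have hs : ‖sr f‖ ≤ 71 / 100 := sr_lt hf h2
  have hs0 := norm_nonneg (sr f)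
  have hD : 1 - ‖sr f‖ ^ 2 ≠ 0 := by nlinarith
  have hss : conj (sr f) * sr f = ((‖sr f‖ ^ 2 : ℝ) : ℂ) := by
    rw [mul_comm, Complex.mul_conj, Complex.normSq_eq_norm_sq]
  have e1 : D1 (3 / 4) f = 1 := by
    unfold D1
    rw [div_eq_one_iff_eq hD]
    ring
  have e2 : N2 (3 / 4) f = N34 f := by
    unfold N2 N34
    congr 1
    have : (conj (sr f) * (-((8 * (3 / 4) / 3 : ℝ) : ℂ) * sr f + ((4 * (3 / 4) ^ 2 : ℝ) : ℂ) * YX f)).re
        = -2 * ‖sr f‖ ^ 2 + 9 / 4 * (conj (sr f) * YX f).re := by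
      have e : conj (sr f) * (-((8 * (3 / 4) / 3 : ℝ) : ℂ) * sr f + ((4 * (3 / 4) ^ 2 : ℝ) : ℂ) * YX f)
          = ((-2 * ‖sr f‖ ^ 2 : ℝ) : ℂ) + ((9 / 4 : ℝ) : ℂ) * (conj (sr f) * YX f) := by
        push_cast at hss ⊢
        linear_combination (-2 : ℂ) * hss
      rw [e, Complex.add_re, Complex.ofReal_re, Complex.re_ofReal_mul]
    rw [this]
    ring
  have e3 : P2 (3 / 4) f / 4 = K34 f := by
    unfold P2 K34
    have hDc : (((1 - ‖sr f‖ ^ 2 : ℝ)) : ℂ) ≠ 0 := Complex.ofReal_ne_zero.2 hD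
    have e : (-((8 * (3 / 4) / 3 : ℝ) : ℂ) * sr f + ((4 * (3 / 4) ^ 2 : ℝ) : ℂ) * YX f)
        + 2 * sr f * ((1 + 4 * (3 / 4) ^ 2 * MX f : ℝ) : ℂ)
        + sr f ^ 2 * conj (-((8 * (3 / 4) / 3 : ℝ) : ℂ) * sr f + ((4 * (3 / 4) ^ 2 : ℝ) : ℂ) * YX f)
        = 9 / 4 * (YX f + 2 * sr f * MX f + sr f ^ 2 * conj (YX f)) - 2 * sr f * ((‖sr f‖ ^ 2 : ℝ) : ℂ) := by
      simp only [map_add, map_mul, map_neg, Complex.conj_ofReal]
      rw [← hss]
      push_cast
      ring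
    rw [e]
    field_simp
  have := H f hf h1 h2
  rw [e1, e2, e3]
  norm_num at this ⊢
  exact this

end Pool.Agent.FPX.SQA
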