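import Mathlib
import Pool.Agent.FPX.SQA

/-
SQM (helper88): elimination of the gradient `k` with multipliers, `q = 3/4`, weight 1:
a hermitian form in two variables with entries AFFINE in the moments `σ = sr f`, `MX f`, `YX f`
(constants `T`, `b1`, `b2`) implies the inequality `StateK` of SQA.
-/

open MeasureTheory Set Filter Topology Complex
open scoped ENNReal NNReal ContDiff ComplexConjugate

noncomputable section

namespace Pool.Agent.FPX.SQM

open Pool.Agent.FPX Pool.Agent.FPX.UMP Pool.Agent.FPX.UMQ Pool.Agent.FPX.UXA Pool.Agent.EWD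
open Pool.Agent.FPX.F54 (X1 X2 X_lt)
open Pool.Agent.FPX.OMB (vm vm_prob)
open Pool.Agent.FPX.CQA (pht)
open Pool.Agent.FPX.CERQ (xT Er sr cont_xT cont_pht int_of_cont)
open Pool.Agent.FPX.SQA

/-! ### generic part -/

section gen

variable {α : Type*} [MeasurableSpace α] {μ : Measure α}

/-- one linear functional of `k`, `|k| ≤ 1`, probability measure -/
theorem lin_le [IsProbabilityMeasure μ] {Ψ k : α → ℂ} {T : ℝ} (hT : 0 < T) (hk : ∀ᵐ x ∂μ, ‖k x‖ ≤ 1)
    (hkm : AEStronglyMeasurable k μ) (hΨ : Integrable Ψ μ) (hΨ2 : Integrable (fun x => ‖Ψ x‖ ^ 2) μ) :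
    (∫ x, Ψ x * conj (k x) ∂μ).re ≤ T + (∫ x, ‖Ψ x‖ ^ 2 ∂μ) / (4 * T) := by
  have hkc : AEStronglyMeasurable (fun x => conj (k x)) μ :=
    Complex.continuous_conj.comp_aestronglyMeasurable hkm
  have bnd : ∀ᵐ x ∂μ, ‖(starRingEnd ℂ) (k x)‖ ≤ 1 := by
    filter_upwards [hk] with x hx
    rwa [RCLike.norm_conj]
  have ik : Integrable (fun x => Ψ x * conj (k x)) μ := by
    refine (hΨ.bdd_mul (c := 1) hkc bnd).congr (Eventually.of_forall fun x => ?_)
    exact mul_comm _ _
  have e1 : (∫ x, Ψ x * conj (k x) ∂μ).re = ∫ x, (Ψ x * conj (k x)).re ∂μ := (integral_re ik).symm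
  have e2 : T + (∫ x, ‖Ψ x‖ ^ 2 ∂μ) / (4 * T) = ∫ x, (T + ‖Ψ x‖ ^ 2 / (4 * T)) ∂μ := by
    rw [integral_add (integrable_const _) (hΨ2.div_const _), integral_div]
    simp
  rw [e1, e2]
  refine integral_mono_ae ik.re ((integrable_const _).add (hΨ2.div_const _)) ?_
  filter_upwards [hk] with x hx
  have h1 : (Ψ x * conj (k x)).re ≤ ‖Ψ x‖ := by
    refine (Complex.re_le_norm _).trans ?_
    rw [norm_mul, RCLike.norm_conj]
    calc ‖Ψ x‖ * ‖k x‖ ≤ ‖Ψ x‖ * 1 := mul_le_mul_of_nonneg_left hx (norm_nonneg _)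
      _ = ‖Ψ x‖ := mul_one _
  refine h1.trans ?_
  show ‖Ψ x‖ ≤ T + ‖Ψ x‖ ^ 2 / (4 * T)
  rw [← sub_nonneg]
  have : T + ‖Ψ x‖ ^ 2 / (4 * T) - ‖Ψ x‖ = (‖Ψ x‖ - 2 * T) ^ 2 / (4 * T) := by
    field_simp
    ring
  rw [this]
  positivity

end gen

/-! ### the hermitian form -/

/-- coefficient of `|u|²` -/
def H11 (T S0 : ℝ) (b2 σ : ℂ) : ℝ :=
  T - 1 + 2 * (b2 * σ).re + ((b2 * σ).re - ‖b2‖ ^ 2 - 9 / 16 * S0) / T

/-- coefficient of `|v|²` -/
def H22 (T S0 b1 : ℝ) : ℝ := 1 + 2 * b1 - (b1 ^ 2 + 9 / 16 * S0) / T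

/-- coefficient of `2 Re (u conj v ·)` -/
def H12 (T b1 : ℝ) (b2 σ d : ℂ) : ℂ :=
  conj b2 * (1 - b1 / T) + (T + b1) * σ - ((T - b1) / 2 * σ - 9 / 16 * d) / T

/-- the form -/
def HF (T S0 b1 : ℝ) (b2 σ d u v : ℂ) : ℝ :=
  H11 T S0 b2 σ * ‖u‖ ^ 2 + H22 T S0 b1 * ‖v‖ ^ 2 + 2 * (u * conj v * H12 T b1 b2 σ d).re

/-- the function whose mean square is used -/
def Psi (T b1 : ℝ) (b2 u v e x : ℂ) : ℂ :=
  2 * T * u * e + 2 * (b1 * v + conj b2 * u) * conj e + 3 / 2 * x * (u * e ^ 2 - v * conj e ^ 2)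

/-- the identity of the form -/
theorem HF_eq {T : ℝ} (hT : T ≠ 0) (S0 b1 : ℝ) (b2 σ d u v : ℂ) :
    HF T S0 b1 b2 σ d u v = (2 * T * u * (conj u + σ * conj v) + 2 * (b1 * v + conj b2 * u) * (conj v + conj σ * conj u)
      - u * (conj u + σ * conj v) + v * (conj v + conj σ * conj u)).re
      - ((2 * T * u) * conj (2 * T * u) + (2 * (b1 * v + conj b2 * u)) * conj (2 * (b1 * v + conj b2 * u))
        + 9 / 4 * (u * conj u + v * conj v) * S0
        + ((2 * T * u) * conj v - u * conj (2 * (b1 * v + conj b2 * u))) * σ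
        + (v * conj (2 * T * u) - (2 * (b1 * v + conj b2 * u)) * conj u) * conj σ
        - 9 / 4 * (u * conj v) * d - 9 / 4 * (v * conj u) * conj d).re / (4 * T) := by
  have hn : ∀ z : ℂ, ‖z‖ ^ 2 = z.re ^ 2 + z.im ^ 2 := fun z => by
    rw [← Complex.normSq_eq_norm_sq, Complex.normSq_apply]
    ring
  unfold HF H11 H22 H12
  rw [hn u, hn v, hn b2]
  have e1 : (conj b2 * (1 - b1 / T) + (T + b1) * σ - ((T - b1) / 2 * σ - 9 / 16 * d) / T : ℂ)
      = ⟨b2.re * (1 - b1 / T) + (T + b1) * σ.re - ((T - b1) / 2 * σ.re - 9 / 16 * d.re) / T,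
        -b2.im * (1 - b1 / T) + (T + b1) * σ.im - ((T - b1) / 2 * σ.im - 9 / 16 * d.im) / T⟩ := by
    have e2 : (1 - b1 / T : ℂ) = ((1 - b1 / T : ℝ) : ℂ) := by push_cast; rfl
    have e3 : ((T : ℂ) + b1) = ((T + b1 : ℝ) : ℂ) := by push_cast; rfl
    have e4 : ((T : ℂ) - b1) / 2 = (((T - b1) / 2 : ℝ) : ℂ) := by push_cast; rfl
    have e5 : (9 / 16 : ℂ) = ((9 / 16 : ℝ) : ℂ) := by push_cast; rfl
    rw [e2, e3, e4, e5]
    apply Complex.ext
    · simp only [Complex.add_re, Complex.sub_re, Complex.div_ofReal_re, Complex.re_ofReal_mul, Complex.re_mul_ofReal,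
        Complex.conj_re]
    · simp only [Complex.add_im, Complex.sub_im, Complex.div_ofReal_im, Complex.im_ofReal_mul, Complex.im_mul_ofReal,
        Complex.conj_im]
  rw [e1]
  obtain ⟨u1, u2⟩ := u
  obtain ⟨v1, v2⟩ := v
  obtain ⟨s1, s2⟩ := σ
  obtain ⟨d1, d2⟩ := d
  obtain ⟨c1, c2⟩ := b2
  simp only [Complex.add_re, Complex.sub_re, Complex.mul_re, Complex.mul_im, Complex.add_im, Complex.sub_im,
    Complex.conj_re, Complex.conj_im, Complex.ofReal_re, Complex.ofReal_im, map_mul, map_add, Complex.conj_conj,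
    Complex.conj_ofReal, Complex.re_ofNat, Complex.im_ofNat, map_ofNat, Complex.div_ofNat_re, Complex.div_ofNat_im]
  field_simp
  ring

section state

variable {f : ℝ → ℝ} (hf : Ef f) (h2 : X2 f = 0)

include hf h2

/-- the mean square of `Psi` -/
theorem mean_Psi (T b1 : ℝ) (b2 u v : ℂ) :
    ∫ t, Psi T b1 b2 u v (Er f t) (xT f t) * conj (Psi T b1 b2 u v (Er f t) (xT f t)) ∂(vm (X1 f) 0)
      = (2 * T * u) * conj (2 * T * u) + (2 * (b1 * v + conj b2 * u)) * conj (2 * (b1 * v + conj b2 * u))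
        + 9 / 4 * (u * conj u + v * conj v) * MX f
        + ((2 * T * u) * conj v - u * conj (2 * (b1 * v + conj b2 * u))) * sr f
        + (v * conj (2 * T * u) - (2 * (b1 * v + conj b2 * u)) * conj u) * conj (sr f)
        - 9 / 4 * (u * conj v) * YX f - 9 / 4 * (v * conj u) * conj (YX f) := by
  obtain ⟨P, hP⟩ : ∃ P : ℂ, P = 2 * T * u := ⟨_, rfl⟩
  obtain ⟨R, hR⟩ : ∃ R : ℂ, R = -(2 * (b1 * v + conj b2 * u)) := ⟨_, rfl⟩
  have hR' : 2 * (b1 * v + conj b2 * u) = -R := by rw [hR, neg_neg]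
  unfold Psi
  rw [hR', ← hP]
  obtain ⟨a, ha⟩ : ∃ a : Fin 10 → ℂ, a = ![P * conj P + R * conj R, 3 / 2 * (R * conj v + u * conj P),
    3 / 2 * (P * conj u + v * conj R), 9 / 4 * (u * conj u + v * conj v), -(P * conj R),
    -(3 / 2 * (P * conj v + u * conj R)), -(9 / 4 * (u * conj v)), -(R * conj P),
    -(3 / 2 * (R * conj u + v * conj P)), -(9 / 4 * (v * conj u))] := ⟨_, rfl⟩
  have e := lin hf h2 a
  have e1 : ∀ t, (P * Er f t + -R * conj (Er f t) + 3 / 2 * (xT f t : ℂ) * (u * Er f t ^ 2 - v * conj (Er f t) ^ 2))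
      * conj (P * Er f t + -R * conj (Er f t) + 3 / 2 * (xT f t : ℂ) * (u * Er f t ^ 2 - v * conj (Er f t) ^ 2))
      = ∑ i, a i * bs f i t := by
    intro t
    have h := Er_conj hf h2 t
    rw [ha]
    simp only [Fin.sum_univ_succ, bs, Matrix.cons_val_zero, Matrix.cons_val_succ,
      Finset.univ_unique, Fin.default_eq_zero, Finset.sum_singleton,
      map_div₀, map_add, map_sub, map_neg, map_mul, map_pow, Complex.conj_conj, Complex.conj_ofReal, map_ofNat]
    generalize (starRingEnd ℂ) (Er f t) = e' at *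
    generalize Er f t = e at *
    generalize (xT f t : ℂ) = x
    generalize (starRingEnd ℂ) P = P'
    generalize (starRingEnd ℂ) R = R'
    generalize (starRingEnd ℂ) u = u'
    generalize (starRingEnd ℂ) v = v'
    linear_combination (P * P' + R * R' + 3 / 2 * x * (P * u' * e' + R * v' * e + u * P' * e + v * R' * e')
      + 9 / 4 * x ^ 2 * (u * u' + v * v') * (1 + e * e')) * h
  simp only [e1]
  rw [e, ha]
  simp only [Fin.sum_univ_succ, mm, Matrix.cons_val_zero, Matrix.cons_val_succ,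
      Finset.univ_unique, Fin.default_eq_zero, Finset.sum_singleton, map_neg]
  ring

/-- **the elimination with multipliers** -/
theorem stateK_H {T b1 : ℝ} {b2 : ℂ} (hT : 0 < T)
    (h : ∀ u v : ℂ, 0 ≤ HF T (MX f) b1 b2 (sr f) (YX f) u v) : StateK (3 / 4) T f := by
  intro k mk hk
  have hX := X1_lt hf h2
  have hp := vm_prob hX
  have hs : ‖sr f‖ ≤ 71 / 100 := sr_lt hf h2
  have hs0 := norm_nonneg (sr f)
  have hD : 1 - ‖sr f‖ ^ 2 ≠ 0 := by nlinarith
  have hDc : (((1 - ‖sr f‖ ^ 2 : ℝ)) : ℂ) ≠ 0 := Complex.ofReal_ne_zero.2 hD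
  have hss : sr f * conj (sr f) = ((‖sr f‖ ^ 2 : ℝ) : ℂ) := by
    rw [Complex.mul_conj, Complex.normSq_eq_norm_sq]
  have cE := cont_Er hf h2
  have cX : Continuous fun t => (xT f t : ℂ) := Complex.continuous_ofReal.comp (cont_xT hf)
  have cEc : Continuous fun t => (starRingEnd ℂ) (Er f t) := Complex.continuous_conj.comp cE
  have hkm : AEStronglyMeasurable k (vm (X1 f) 0) := mk.aestronglyMeasurable
  have hkc : AEStronglyMeasurable (fun x => conj (k x)) (vm (X1 f) 0) :=
    Complex.continuous_conj.comp_aestronglyMeasurable hkm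
  have ic : ∀ {g : ℝ → ℂ}, Continuous g → Integrable (fun t => g t * conj (k t)) (vm (X1 f) 0) := by
    intro g hg
    refine ((int_of_cont hX hg).bdd_mul (c := 1) hkc (Eventually.of_forall fun t => ?_)).congr
      (Eventually.of_forall fun x => mul_comm _ _)
    rw [RCLike.norm_conj]
    exact hk t
  have ik : ∀ {g : ℝ → ℂ}, Continuous g → Integrable (fun t => g t * k t) (vm (X1 f) 0) := by
    intro g hg
    exact ((int_of_cont hX hg).bdd_mul (c := 1) hkm (Eventually.of_forall hk)).congr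
      (Eventually.of_forall fun x => mul_comm _ _)
  set a := ∫ t, Er f t * conj (k t) ∂(vm (X1 f) 0) with ha
  set b := ∫ t, Er f t * k t ∂(vm (X1 f) 0) with hb
  set F := ∫ t, (xT f t : ℂ) * Er f t ^ 2 * conj (k t) ∂(vm (X1 f) 0) with hF
  set G := ∫ t, (xT f t : ℂ) * Er f t ^ 2 * k t ∂(vm (X1 f) 0) with hG
  have cjI : ∀ g : ℝ → ℂ, ∫ t, conj (g t) ∂(vm (X1 f) 0) = conj (∫ t, g t ∂(vm (X1 f) 0)) := fun g => integral_conj
  have a' : ∫ t, conj (Er f t) * k t ∂(vm (X1 f) 0) = conj a := by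
    rw [ha, ← cjI]
    refine integral_congr_ae (Eventually.of_forall fun t => ?_)
    simp
  have b' : ∫ t, conj (Er f t) * conj (k t) ∂(vm (X1 f) 0) = conj b := by
    rw [hb, ← cjI]
    refine integral_congr_ae (Eventually.of_forall fun t => ?_)
    simp
  have F' : ∫ t, (xT f t : ℂ) * conj (Er f t) ^ 2 * k t ∂(vm (X1 f) 0) = conj F := by
    rw [hF, ← cjI]
    refine integral_congr_ae (Eventually.of_forall fun t => ?_)
    simp
  have G' : ∫ t, (xT f t : ℂ) * conj (Er f t) ^ 2 * conj (k t) ∂(vm (X1 f) 0) = conj G := by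
    rw [hG, ← cjI]
    refine integral_congr_ae (Eventually.of_forall fun t => ?_)
    simp
  set D : ℂ := ((1 - ‖sr f‖ ^ 2 : ℝ) : ℂ) with hDdef
  have hD' : D = 1 - sr f * conj (sr f) := by
    rw [hDdef, hss]
    push_cast
    rfl
  have hD2 : (1 - (‖sr f‖ : ℂ) ^ 2) = D := by
    rw [hDdef]
    push_cast
    rfl
  have j1 : Integrable (fun t => Er f t * conj (k t)) (vm (X1 f) 0) := ic cE
  have j2 : Integrable (fun t => (xT f t : ℂ) * Er f t ^ 2 * conj (k t)) (vm (X1 f) 0) := ic (cX.mul (cE.pow 2))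
  have j3 : Integrable (fun t => conj (Er f t) * conj (k t)) (vm (X1 f) 0) := ic cEc
  have j4 : Integrable (fun t => (xT f t : ℂ) * conj (Er f t) ^ 2 * conj (k t)) (vm (X1 f) 0) :=
    ic (cX.mul (cEc.pow 2))
  have l1 : Integrable (fun t => Er f t * k t) (vm (X1 f) 0) := ik cE
  have l2 : Integrable (fun t => (xT f t : ℂ) * Er f t ^ 2 * k t) (vm (X1 f) 0) := ik (cX.mul (cE.pow 2))
  have l3 : Integrable (fun t => conj (Er f t) * k t) (vm (X1 f) 0) := ik cEc
  have l4 : Integrable (fun t => (xT f t : ℂ) * conj (Er f t) ^ 2 * k t) (vm (X1 f) 0) :=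
    ik (cX.mul (cEc.pow 2))
  -- the moments of the two functions
  have P1 : ∫ t, pht (Er f) (xT f) (3 / 4) (sr f) t * conj (k t) ∂(vm (X1 f) 0)
      = ((a + 3 / 2 * F) + sr f * (conj b + 3 / 2 * conj G)) / D := by
    have e : ∀ t, pht (Er f) (xT f) (3 / 4) (sr f) t * conj (k t)
        = (1 / D * (Er f t * conj (k t)) + 3 / 2 / D * ((xT f t : ℂ) * Er f t ^ 2 * conj (k t)))
          + (sr f / D * (conj (Er f t) * conj (k t))
            + sr f * (3 / 2) / D * ((xT f t : ℂ) * conj (Er f t) ^ 2 * conj (k t))) := by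
      intro t
      unfold pht
      simp only [map_add, map_mul, map_pow, Complex.conj_ofReal, map_ofNat]
      push_cast
      rw [hD2]
      ring
    simp only [e]
    have q1 : Integrable (fun t => 1 / D * (Er f t * conj (k t))
      + 3 / 2 / D * ((xT f t : ℂ) * Er f t ^ 2 * conj (k t))) (vm (X1 f) 0) := (j1.const_mul _).add (j2.const_mul _)
    have q2 : Integrable (fun t => sr f / D * (conj (Er f t) * conj (k t))
      + sr f * (3 / 2) / D * ((xT f t : ℂ) * conj (Er f t) ^ 2 * conj (k t))) (vm (X1 f) 0) :=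
      (j3.const_mul _).add (j4.const_mul _)
    rw [integral_add q1 q2, integral_add (j1.const_mul _) (j2.const_mul _),
      integral_add (j3.const_mul _) (j4.const_mul _),
      integral_const_mul, integral_const_mul, integral_const_mul, integral_const_mul, b', G', ← ha, ← hF]
    ring
  have P2 : ∫ t, pht (Er f) (xT f) (3 / 4) (sr f) t * k t ∂(vm (X1 f) 0)
      = ((b + 3 / 2 * G) + sr f * (conj a + 3 / 2 * conj F)) / D := by
    have e : ∀ t, pht (Er f) (xT f) (3 / 4) (sr f) t * k t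
        = (1 / D * (Er f t * k t) + 3 / 2 / D * ((xT f t : ℂ) * Er f t ^ 2 * k t))
          + (sr f / D * (conj (Er f t) * k t)
            + sr f * (3 / 2) / D * ((xT f t : ℂ) * conj (Er f t) ^ 2 * k t)) := by
      intro t
      unfold pht
      simp only [map_add, map_mul, map_pow, Complex.conj_ofReal, map_ofNat]
      push_cast
      rw [hD2]
      ring
    simp only [e]
    have q1 : Integrable (fun t => 1 / D * (Er f t * k t)
      + 3 / 2 / D * ((xT f t : ℂ) * Er f t ^ 2 * k t)) (vm (X1 f) 0) := (l1.const_mul _).add (l2.const_mul _)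
    have q2 : Integrable (fun t => sr f / D * (conj (Er f t) * k t)
      + sr f * (3 / 2) / D * ((xT f t : ℂ) * conj (Er f t) ^ 2 * k t)) (vm (X1 f) 0) :=
      (l3.const_mul _).add (l4.const_mul _)
    rw [integral_add q1 q2, integral_add (l1.const_mul _) (l2.const_mul _),
      integral_add (l3.const_mul _) (l4.const_mul _),
      integral_const_mul, integral_const_mul, integral_const_mul, integral_const_mul, a', F', ← hb, ← hG]
    ring
  rw [P1, P2]
  -- the two variables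
  obtain ⟨u, hu⟩ : ∃ u : ℂ, u = (conj a - conj (sr f) * b) / D := ⟨_, rfl⟩
  obtain ⟨v, hv⟩ : ∃ v : ℂ, v = (b - sr f * conj a) / D := ⟨_, rfl⟩
  have hDcj : conj D = D := Complex.conj_ofReal _
  have ea : a = conj u + sr f * conj v := by
    rw [hu, hv]
    simp only [map_div₀, map_sub, map_mul, Complex.conj_conj, hDcj]
    field_simp
    rw [hD']
    ring
  have eb : conj b = conj v + conj (sr f) * conj u := by
    rw [hu, hv]
    simp only [map_div₀, map_sub, map_mul, Complex.conj_conj, hDcj]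
    field_simp
    rw [hD']
    ring
  -- the functional
  have key := lin_le (μ := vm (X1 f) 0) (Ψ := fun t => Psi T b1 b2 u v (Er f t) (xT f t)) (k := k) hT
    (Eventually.of_forall hk) hkm
    (int_of_cont hX (by unfold Psi; fun_prop)) (int_of_cont hX (by unfold Psi; fun_prop))
  have I0 : ∫ t, Psi T b1 b2 u v (Er f t) (xT f t) * conj (k t) ∂(vm (X1 f) 0)
      = 2 * T * u * a + 2 * (b1 * v + conj b2 * u) * conj b + 3 / 2 * (u * F - v * conj G) := by
    have e : ∀ t, Psi T b1 b2 u v (Er f t) (xT f t) * conj (k t)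
        = (2 * T * u * (Er f t * conj (k t)) + 2 * (b1 * v + conj b2 * u) * (conj (Er f t) * conj (k t)))
          + (3 / 2 * u * ((xT f t : ℂ) * Er f t ^ 2 * conj (k t))
            + -(3 / 2 * v) * ((xT f t : ℂ) * conj (Er f t) ^ 2 * conj (k t))) := by
      intro t
      unfold Psi
      ring
    simp only [e]
    have q1 : Integrable (fun t => 2 * T * u * (Er f t * conj (k t))
      + 2 * (b1 * v + conj b2 * u) * (conj (Er f t) * conj (k t))) (vm (X1 f) 0) :=
      (j1.const_mul _).add (j3.const_mul _)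
    have q2 : Integrable (fun t => 3 / 2 * u * ((xT f t : ℂ) * Er f t ^ 2 * conj (k t))
            + -(3 / 2 * v) * ((xT f t : ℂ) * conj (Er f t) ^ 2 * conj (k t))) (vm (X1 f) 0) :=
      (j2.const_mul _).add (j4.const_mul _)
    rw [integral_add q1 q2, integral_add (j1.const_mul _) (j3.const_mul _),
      integral_add (j2.const_mul _) (j4.const_mul _),
      integral_const_mul, integral_const_mul, integral_const_mul, integral_const_mul, b', G', ← ha, ← hF]
    ring
  have I1 : ((∫ t, ‖Psi T b1 b2 u v (Er f t) (xT f t)‖ ^ 2 ∂(vm (X1 f) 0) : ℝ) : ℂ)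
      = ∫ t, Psi T b1 b2 u v (Er f t) (xT f t) * conj (Psi T b1 b2 u v (Er f t) (xT f t)) ∂(vm (X1 f) 0) := by
    rw [← integral_complex_ofReal]
    refine integral_congr_ae (Eventually.of_forall fun t => ?_)
    show ((‖Psi T b1 b2 u v (Er f t) (xT f t)‖ ^ 2 : ℝ) : ℂ)
      = Psi T b1 b2 u v (Er f t) (xT f t) * conj (Psi T b1 b2 u v (Er f t) (xT f t))
    rw [Complex.mul_conj, Complex.normSq_eq_norm_sq]
  have I2 := congrArg Complex.re I1
  rw [mean_Psi hf h2, Complex.ofReal_re] at I2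
  rw [I0, I2] at key
  have hH := h u v
  rw [HF_eq hT.ne'] at hH
  -- the left side
  have eL : (conj a * (((a + 3 / 2 * F) + sr f * (conj b + 3 / 2 * conj G)) / D)).re
      - (conj b * (((b + 3 / 2 * G) + sr f * (conj a + 3 / 2 * conj F)) / D)).re
      = (u * a + 3 / 2 * (u * F)).re - (v * conj b + 3 / 2 * (v * conj G)).re := by
    have c1 : ∀ z : ℂ, z.re = (conj z).re := fun z => (Complex.conj_re z).symm
    have e1 : conj a * (((a + 3 / 2 * F) + sr f * (conj b + 3 / 2 * conj G)) / D)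
        = conj a / D * (a + 3 / 2 * F) + conj a * sr f / D * (conj b + 3 / 2 * conj G) := by ring
    have e2 : conj b * (((b + 3 / 2 * G) + sr f * (conj a + 3 / 2 * conj F)) / D)
        = conj b / D * (b + 3 / 2 * G) + conj b * sr f / D * (conj a + 3 / 2 * conj F) := by ring
    have e3 : (conj b / D * (b + 3 / 2 * G)).re = (b / D * (conj b + 3 / 2 * conj G)).re := by
      rw [c1]
      simp only [map_mul, map_div₀, map_add, Complex.conj_conj, hDcj, map_ofNat]
    have e4 : (conj b * sr f / D * (conj a + 3 / 2 * conj F)).re = (b * conj (sr f) / D * (a + 3 / 2 * F)).re := by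
      rw [c1]
      simp only [map_mul, map_div₀, map_add, Complex.conj_conj, hDcj, map_ofNat]
    rw [e1, e2, Complex.add_re, Complex.add_re, e3, e4]
    have e5 : u * a + 3 / 2 * (u * F) = conj a / D * (a + 3 / 2 * F) - b * conj (sr f) / D * (a + 3 / 2 * F) := by
      rw [hu]
      ring
    have e6 : v * conj b + 3 / 2 * (v * conj G)
        = b / D * (conj b + 3 / 2 * conj G) - conj a * sr f / D * (conj b + 3 / 2 * conj G) := by
      rw [hv]
      ring
    rw [e5, e6, Complex.sub_re, Complex.sub_re]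
    ring
  rw [eL]
  rw [← ea, ← eb] at hH
  have e7 : (2 * T * u * a + 2 * (b1 * v + conj b2 * u) * conj b + 3 / 2 * (u * F - v * conj G)).re
      = (2 * T * u * a + 2 * (b1 * v + conj b2 * u) * conj b - u * a + v * conj b).re
        + ((u * a + 3 / 2 * (u * F)).re - (v * conj b + 3 / 2 * (v * conj G)).re) := by
    rw [← Complex.sub_re, ← Complex.add_re]
    congr 1
    ring
  rw [e7] at key
  linarith

end state

/-- **the area bound from the hermitian form**, multipliers depending on the state -/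
theorem area_H {T : ℝ} (hT : 0 < T)
    (H : ∀ f, Ef f → 0 ≤ X1 f → X2 f = 0 → ∃ b1 : ℝ, ∃ b2 : ℂ,
      ∀ u v : ℂ, 0 ≤ HF T (MX f) b1 b2 (sr f) (YX f) u v)
    (M : Type) [MetricSpace M] [CompactSpace M] (γ : ℝ → M) (C : Calc M γ) (hγ : Bd γ) :
    2 * Real.pi ≤ T * C.vol := by
  refine area_K (q := 3 / 4) (fun f hf h1 h2 => ?_) M γ C hγ
  obtain ⟨b1, b2, h⟩ := H f hf h1 h2
  exact stateK_H hf h2 hT h

end Pool.Agent.FPX.SQM
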