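import Mathlib
import Pool.Agent.FPX.SQM
import Pool.Agent.FPX.ALY

/-
SQN (helper88): the area bound from an inequality for the class `ALX.St 1` of functions of the visual angle
(no `k`, no latitude): hermitian form version (`area_St`) and plain Parseval version (`area_St_pp`).
-/

open MeasureTheory Set Filter Topology
open scoped ENNReal NNReal ContDiff ComplexConjugate

noncomputable section

namespace Pool.Agent.FPX.SQN

open Pool.Agent.FPX Pool.Agent.FPX.UMP Pool.Agent.FPX.UMQ Pool.Agent.FPX.UXA Pool.Agent.EWD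
open Pool.Agent.FPX.F54 (X1 X2 X_lt)
open Pool.Agent.FPX.CERQ (xT Er sr)
open Pool.Agent.FPX.SQA Pool.Agent.FPX.SQM Pool.Agent.FPX.ALX Pool.Agent.FPX.ALY


/-- mean of `x²` -/
def mS (X : ℝ → ℝ) : ℝ := QST.mn fun a => X a ^ 2

/-- `mean (x² E⁴)` -/
def mY (X : ℝ → ℝ) : ℂ := ⟨QST.mn fun a => X a ^ 2 * Real.cos (4 * a), QST.mn fun a => X a ^ 2 * Real.sin (4 * a)⟩

/-- `σ = - (3/2) mean (x E³)` -/
def mG (X : ℝ → ℝ) : ℂ :=
  ⟨-(3 / 2) * QST.mn fun a => X a * Real.cos (3 * a), -(3 / 2) * QST.mn fun a => X a * Real.sin (3 * a)⟩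

variable {f : ℝ → ℝ}

theorem MX_eq (hf : Ef f) (h0 : 0 ≤ X1 f) (h2 : X2 f = 0) : MX f = mS (Xa (X1 f) f) :=
  vm_meanR hf h0 h2 (Φ := fun _ x => x ^ 2) (by fun_prop)

theorem sr_mG (hf : Ef f) (h0 : 0 ≤ X1 f) (h2 : X2 f = 0) : sr f = mG (Xa (X1 f) f) := by
  rw [sr_eq hf h0 h2]
  unfold mG
  have e1 : (QST.mn fun a => Xa (X1 f) f a * Real.cos (3 * a)) = QST.ca (Xa (X1 f) f) 1 / 2 := by
    rw [← Xc_odd]
    unfold Xc
    norm_num
  have e2 : (QST.mn fun a => Xa (X1 f) f a * Real.sin (3 * a)) = QST.sa (Xa (X1 f) f) 1 / 2 := by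
    rw [← Xs_odd]
    unfold Xs
    norm_num
  rw [e1, e2]
  congr 1 <;> ring

theorem YX_eq (hf : Ef f) (h0 : 0 ≤ X1 f) (h2 : X2 f = 0) : YX f = mY (Xa (X1 f) f) := by
  have hc := (st hf h0 h2).cont
  unfold YX
  rw [vm_mean hf h0 h2 (Φ := fun e x => (x : ℂ) ^ 2 * e ^ 4) (by fun_prop)]
  have e : ∀ a : ℝ, ((Xa (X1 f) f a : ℝ) : ℂ) ^ 2 * Complex.exp (a * Complex.I) ^ 4
      = ((Xa (X1 f) f a ^ 2 * Real.cos (4 * a) : ℝ) : ℂ)
        + ((Xa (X1 f) f a ^ 2 * Real.sin (4 * a) : ℝ) : ℂ) * Complex.I := by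
    intro a
    rw [← Complex.exp_nat_mul]
    have : ((4 : ℕ) : ℂ) * (a * Complex.I) = ((4 * a : ℝ) : ℂ) * Complex.I := by
      push_cast
      ring
    rw [this, Complex.exp_mul_I, ← Complex.ofReal_cos, ← Complex.ofReal_sin]
    push_cast
    ring
  simp only [e]
  have i1 : IntervalIntegrable (fun a => ((Xa (X1 f) f a ^ 2 * Real.cos (4 * a) : ℝ) : ℂ)) volume 0
      (2 * Real.pi) := (Complex.continuous_ofReal.comp ((hc.pow 2).mul (by fun_prop))).intervalIntegrable _ _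
  have i2 : IntervalIntegrable (fun a => ((Xa (X1 f) f a ^ 2 * Real.sin (4 * a) : ℝ) : ℂ) * Complex.I) volume
      0 (2 * Real.pi) :=
    ((Complex.continuous_ofReal.comp ((hc.pow 2).mul (by fun_prop))).mul continuous_const).intervalIntegrable _ _
  rw [intervalIntegral.integral_add i1 i2, intervalIntegral.integral_mul_const, intervalIntegral.integral_ofReal,
    intervalIntegral.integral_ofReal]
  unfold mY QST.mn
  apply Complex.ext
  · simp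
  · simp

/-- **the area bound from the hermitian form over the class `St 1`** -/
theorem area_St {T : ℝ} (hT : 0 < T)
    (H : ∀ X : ℝ → ℝ, St 1 X → ∃ b1 : ℝ, ∃ b2 : ℂ, ∀ u v : ℂ, 0 ≤ HF T (mS X) b1 b2 (mG X) (mY X) u v)
    (M : Type) [MetricSpace M] [CompactSpace M] (γ : ℝ → M) (C : Calc M γ) (hγ : Bd γ) :
    2 * Real.pi ≤ T * C.vol := by
  refine area_H hT (fun f hf h1 h2 => ?_) M γ C hγ
  rw [MX_eq hf h1 h2, sr_mG hf h1 h2, YX_eq hf h1 h2]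
  exact H _ ((st hf h1 h2).mono h1 (s_lt hf h1 h2).le le_rfl)

/-- the two Parseval quantities -/
def n34 (X : ℝ → ℝ) : ℝ :=
  (1 - 3 * ‖mG X‖ ^ 2 + 9 / 4 * (1 + ‖mG X‖ ^ 2) * mS X + 9 / 2 * (conj (mG X) * mY X).re) / (1 - ‖mG X‖ ^ 2) ^ 2

def k34 (X : ℝ → ℝ) : ℂ :=
  (9 / 4 * (mY X + 2 * mG X * mS X + mG X ^ 2 * conj (mY X)) - 2 * mG X * (‖mG X‖ ^ 2 : ℝ))
    / (4 * ((1 - ‖mG X‖ ^ 2 : ℝ) : ℂ) ^ 2)

/-- **the area bound, plain Parseval over the class `St 1`** -/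
theorem area_St_pp {T : ℝ}
    (H : ∀ X : ℝ → ℝ, St 1 X → (1 + n34 X) / 4 + √(1 / 4 + ‖k34 X‖ ^ 2) ≤ T)
    (M : Type) [MetricSpace M] [CompactSpace M] (γ : ℝ → M) (C : Calc M γ) (hγ : Bd γ) :
    2 * Real.pi ≤ T * C.vol := by
  refine area_34 (fun f hf h1 h2 => ?_) M γ C hγ
  have := H _ ((st hf h1 h2).mono h1 (s_lt hf h1 h2).le le_rfl)
  unfold n34 k34 at this
  unfold N34 K34
  rw [MX_eq hf h1 h2, sr_mG hf h1 h2, YX_eq hf h1 h2]
  exact this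

end Pool.Agent.FPX.SQN
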