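import Mathlib
import Pool.Agent.FPX.SQN

/-
SQC (helper88): the hermitian form of SQM for the state dependent multiplier `b2 = β conj σ`, and its lower
bound by the form of NODAL moments; the error of `σ` enters only quadratically.
-/

open MeasureTheory Set Filter Topology
open scoped ENNReal NNReal ContDiff ComplexConjugate

noncomputable section

namespace Pool.Agent.FPX.SQC

open Pool.Agent.FPX.SQM

/-- coefficient of `2 Re (σ u conj v)` -/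
def k1 (T b1 be : ℝ) : ℝ := be * (1 - b1 / T) + T + b1 - (T - b1) / (2 * T)

/-- coefficient of `|σ|² |u|²` -/
def k2 (T be : ℝ) : ℝ := be * (2 + (1 - be) / T)

private theorem nsq (z : ℂ) : ‖z‖ ^ 2 = z.re ^ 2 + z.im ^ 2 := by
  rw [← Complex.normSq_eq_norm_sq, Complex.normSq_apply]
  ring

/-- the form with `b2 = β conj σ` -/
theorem HF_aff {T : ℝ} (hT : T ≠ 0) (S0 b1 be : ℝ) (σ d u v : ℂ) :
    HF T S0 b1 (be * conj σ) σ d u v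
      = (T - 1 + k2 T be * ‖σ‖ ^ 2 - 9 / (16 * T) * S0) * ‖u‖ ^ 2
        + (1 + 2 * b1 - b1 ^ 2 / T - 9 / (16 * T) * S0) * ‖v‖ ^ 2
        + 2 * (u * conj v * ((k1 T b1 be : ℝ) * σ + ((9 / (16 * T) : ℝ) : ℂ) * d)).re := by
  unfold HF H11 H22
  have e1 : H12 T b1 (be * conj σ) σ d = (k1 T b1 be : ℝ) * σ + ((9 / (16 * T) : ℝ) : ℂ) * d := by
    have hTc : (T : ℂ) ≠ 0 := Complex.ofReal_ne_zero.2 hT
    unfold H12 k1
    rw [map_mul, Complex.conj_conj, Complex.conj_ofReal]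
    push_cast
    field_simp
    ring
  rw [e1]
  have e2 : ((be : ℂ) * conj σ * σ).re = be * ‖σ‖ ^ 2 := by
    rw [mul_assoc, mul_comm (conj σ), Complex.mul_conj, Complex.normSq_eq_norm_sq, Complex.re_ofReal_mul,
      Complex.ofReal_re]
  have e3 : ‖(be : ℂ) * conj σ‖ ^ 2 = be ^ 2 * ‖σ‖ ^ 2 := by
    rw [norm_mul, RCLike.norm_conj, Complex.norm_real, Real.norm_eq_abs, mul_pow, sq_abs]
  rw [e2, e3]
  unfold k2
  field_simp
  ring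

/-- the form of the nodal moments `S`, `s`, `dn` with the errors `e1`, `e2` -/
def AF (T b1 be th S e1 e2 : ℝ) (s dn u v : ℂ) : ℝ :=
  (T - 1 + k2 T be * (1 - th) * ‖s‖ ^ 2 - 9 / (16 * T) * S - e1) * ‖u‖ ^ 2
    + (1 + 2 * b1 - b1 ^ 2 / T - th * k1 T b1 be ^ 2 / k2 T be - 9 / (16 * T) * S - e2) * ‖v‖ ^ 2
    + 2 * (u * conj v * (((1 - th) * k1 T b1 be : ℝ) * s + ((9 / (16 * T) : ℝ) : ℂ) * dn)).re

/-- **lower bound by the nodal form** -/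
theorem AF_le_HF {T b1 be th t S0 S ES Ed Es : ℝ} {σ s d dn : ℂ} (hT : 0 < T) (hk : 0 < k2 T be) (hth : 0 < th)
    (hth1 : th ≤ 1) (ht : 0 < t) (hS : |S0 - S| ≤ ES) (hd : ‖d - dn‖ ≤ Ed) (hs : ‖σ - s‖ ^ 2 ≤ Es) (u v : ℂ) :
    AF T b1 be th S (9 / (16 * T) * ES + 9 / (16 * T) / t * Ed + k2 T be * (1 / th - 1) * Es)
      (9 / (16 * T) * ES + 9 / (16 * T) * t * Ed) s dn u v ≤ HF T S0 b1 (be * conj σ) σ d u v := by
  rw [HF_aff hT.ne']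
  unfold AF
  set K2 := k2 T be with hK2
  set K1 := k1 T b1 be with hK1
  obtain ⟨gm, hgm⟩ : ∃ gm : ℝ, gm = 9 / (16 * T) := ⟨_, rfl⟩
  have hg : 0 < gm := by
    rw [hgm]
    positivity
  rw [← hgm]
  -- the part of `σ`
  have p1 : 0 ≤ K2 * ‖σ‖ ^ 2 * ‖u‖ ^ 2 + 2 * (u * conj v * ((K1 : ℝ) * σ)).re + K1 ^ 2 / K2 * ‖v‖ ^ 2
      - (1 - th) * (K2 * ‖s‖ ^ 2 * ‖u‖ ^ 2 + 2 * (u * conj v * ((K1 : ℝ) * s)).re + K1 ^ 2 / K2 * ‖v‖ ^ 2)
      + K2 * (1 / th - 1) * (‖σ - s‖ ^ 2 * ‖u‖ ^ 2) := by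
    have e : K2 * ‖σ‖ ^ 2 * ‖u‖ ^ 2 + 2 * (u * conj v * ((K1 : ℝ) * σ)).re + K1 ^ 2 / K2 * ‖v‖ ^ 2
      - (1 - th) * (K2 * ‖s‖ ^ 2 * ‖u‖ ^ 2 + 2 * (u * conj v * ((K1 : ℝ) * s)).re + K1 ^ 2 / K2 * ‖v‖ ^ 2)
      + K2 * (1 / th - 1) * (‖σ - s‖ ^ 2 * ‖u‖ ^ 2)
      = K2 / th * ‖(th : ℂ) * (s * u + ((K1 / K2 : ℝ) : ℂ) * v) + (σ - s) * u‖ ^ 2 := by
      simp only [nsq]
      simp only [Complex.add_re, Complex.add_im, Complex.mul_re, Complex.mul_im, Complex.sub_re, Complex.sub_im,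
        Complex.ofReal_re, Complex.ofReal_im, Complex.conj_re, Complex.conj_im]
      field_simp
      ring
    rw [e]
    positivity
  -- the other parts
  have p2 : gm * (S0 - S) ≤ gm * ES := mul_le_mul_of_nonneg_left ((le_abs_self _).trans hS) hg.le
  have p3 : -(gm / t * Ed * ‖u‖ ^ 2 + gm * t * Ed * ‖v‖ ^ 2) ≤ 2 * (u * conj v * ((gm : ℝ) * (d - dn))).re := by
    have h1 : -‖u * conj v * ((gm : ℝ) * (d - dn))‖ ≤ (u * conj v * ((gm : ℝ) * (d - dn))).re :=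
      (abs_le.1 (Complex.abs_re_le_norm _)).1
    rw [norm_mul, norm_mul, norm_mul, RCLike.norm_conj, Complex.norm_real, Real.norm_eq_abs, abs_of_pos hg] at h1
    have h2 : ‖u‖ * ‖v‖ * (gm * ‖d - dn‖) ≤ ‖u‖ * ‖v‖ * (gm * Ed) := by gcongr
    have hEd : 0 ≤ Ed := (norm_nonneg _).trans hd
    have h3 : 2 * (‖u‖ * ‖v‖) ≤ ‖u‖ ^ 2 / t + t * ‖v‖ ^ 2 := by
      have e4 : ‖u‖ ^ 2 / t + t * ‖v‖ ^ 2 - 2 * (‖u‖ * ‖v‖) = (‖u‖ - t * ‖v‖) ^ 2 / t := by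
        field_simp
        ring
      have : 0 ≤ (‖u‖ - t * ‖v‖) ^ 2 / t := by positivity
      linarith
    have h4 := mul_le_mul_of_nonneg_right h3 (mul_nonneg hg.le hEd)
    have h5 : (‖u‖ ^ 2 / t + t * ‖v‖ ^ 2) * (gm * Ed) = gm / t * Ed * ‖u‖ ^ 2 + gm * t * Ed * ‖v‖ ^ 2 := by
      field_simp
    rw [h5] at h4
    nlinarith
  have p4 : K2 * (1 / th - 1) * (‖σ - s‖ ^ 2 * ‖u‖ ^ 2) ≤ K2 * (1 / th - 1) * Es * ‖u‖ ^ 2 := by
    have h1 : 0 ≤ 1 / th - 1 := by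
      rw [sub_nonneg, le_div_iff₀ hth]
      linarith
    have h2 := mul_le_mul_of_nonneg_left hs (mul_nonneg hk.le h1)
    have h3 := mul_le_mul_of_nonneg_right h2 (sq_nonneg ‖u‖)
    linarith
  have hu : 0 ≤ ‖u‖ ^ 2 := by positivity
  have hv : 0 ≤ ‖v‖ ^ 2 := by positivity
  have p5 := mul_le_mul_of_nonneg_right p2 hu
  have p6 := mul_le_mul_of_nonneg_right p2 hv
  have q1 : (u * conj v * ((K1 : ℝ) * σ + (gm : ℝ) * d)).re
      = (u * conj v * ((K1 : ℝ) * σ)).re + (u * conj v * ((gm : ℝ) * d)).re := by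
    rw [mul_add, Complex.add_re]
  have q2 : (u * conj v * (((1 - th) * K1 : ℝ) * s + (gm : ℝ) * dn)).re
      = (1 - th) * (u * conj v * ((K1 : ℝ) * s)).re + (u * conj v * ((gm : ℝ) * dn)).re := by
    rw [mul_add, Complex.add_re]
    congr 1
    rw [← Complex.re_ofReal_mul]
    congr 1
    push_cast
    ring
  have q3 : (u * conj v * ((gm : ℝ) * (d - dn))).re
      = (u * conj v * ((gm : ℝ) * d)).re - (u * conj v * ((gm : ℝ) * dn)).re := by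
    rw [← Complex.sub_re]
    congr 1
    ring
  rw [q1, q2]
  rw [q3] at p3
  have q4 : th * K1 ^ 2 / K2 * ‖v‖ ^ 2 = th * (K1 ^ 2 / K2 * ‖v‖ ^ 2) := by ring
  nlinarith [p1, p3, p4, p5, p6, q4]

end Pool.Agent.FPX.SQC
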