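import Mathlib
import Pool.Agent.FPX.SQC
import Pool.Agent.FPX.NOD

/-
SQD (helper88): the moments of the class `St 1` by nodal sums (NOD), with the errors in the shape used by the
certificate: `|S - S_n| ≤ ES`, `|d - d_n| ≤ Ed`, `|σ - σ_n|² ≤ Es`, `|C_1 nodal|² ≤ E1`, all errors affine in
the cell errors `e i`.
-/

open MeasureTheory Set Filter Topology
open scoped ENNReal NNReal ContDiff ComplexConjugate

noncomputable section

namespace Pool.Agent.FPX.SQD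

open Pool.Agent.FPX.SQM Pool.Agent.FPX.SQN Pool.Agent.FPX.SQC Pool.Agent.FPX.ALX Pool.Agent.FPX.NOD

/-- `e^{i m a}` -/
def ph (m : ℕ) (a : ℝ) : ℂ := Complex.exp ((m : ℂ) * (a : ℂ) * Complex.I)

theorem cont_ph (m : ℕ) : Continuous (ph m) := by
  unfold ph
  fun_prop

theorem ph_eq (m : ℕ) (a : ℝ) : ph m a = (Real.cos (m * a) : ℝ) + (Real.sin (m * a) : ℝ) * Complex.I := by
  unfold ph
  have : (m : ℂ) * (a : ℂ) * Complex.I = ((m * a : ℝ) : ℂ) * Complex.I := by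
    push_cast
    ring
  rw [this, Complex.exp_mul_I, ← Complex.ofReal_cos, ← Complex.ofReal_sin]

theorem norm_ph (m : ℕ) (a : ℝ) : ‖ph m a‖ ≤ 1 := by
  unfold ph
  have : (m : ℂ) * (a : ℂ) * Complex.I = ((m * a : ℝ) : ℂ) * Complex.I := by
    push_cast
    ring
  rw [this, Complex.norm_exp_ofReal_mul_I]

theorem ph_odd {m : ℕ} (hm : Odd m) (a : ℝ) : ph m (a + Real.pi) = -ph m a := by
  unfold ph
  have : (m : ℂ) * ((a + Real.pi : ℝ) : ℂ) * Complex.I = (m : ℂ) * (a : ℂ) * Complex.I + m * (Real.pi * Complex.I) := by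
    push_cast
    ring
  rw [this, Complex.exp_add, Complex.exp_nat_mul, Complex.exp_pi_mul_I, hm.neg_one_pow]
  ring

theorem ph_even {m : ℕ} (hm : Even m) (a : ℝ) : ph m (a + Real.pi) = ph m a := by
  unfold ph
  have : (m : ℂ) * ((a + Real.pi : ℝ) : ℂ) * Complex.I = (m : ℂ) * (a : ℂ) * Complex.I + m * (Real.pi * Complex.I) := by
    push_cast
    ring
  rw [this, Complex.exp_add, Complex.exp_nat_mul, Complex.exp_pi_mul_I, hm.neg_one_pow]
  ring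

section means

variable {X : ℝ → ℝ} (hX : Continuous X)

include hX

/-- the mean of `e^{ima} X` in real terms -/
theorem mean_lin (m : ℕ) : (1 / (2 * Real.pi) : ℝ) * (∫ a in (0 : ℝ)..(2 * Real.pi), ph m a * X a)
    = ⟨QST.mn fun a => X a * Real.cos (m * a), QST.mn fun a => X a * Real.sin (m * a)⟩ := by
  have e : ∀ a : ℝ, ph m a * X a = ((X a * Real.cos (m * a) : ℝ) : ℂ)
      + ((X a * Real.sin (m * a) : ℝ) : ℂ) * Complex.I := by
    intro a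
    rw [ph_eq]
    push_cast
    ring
  simp only [e]
  have i1 : IntervalIntegrable (fun a => ((X a * Real.cos (m * a) : ℝ) : ℂ)) volume 0 (2 * Real.pi) :=
    (Complex.continuous_ofReal.comp (hX.mul (by fun_prop))).intervalIntegrable _ _
  have i2 : IntervalIntegrable (fun a => ((X a * Real.sin (m * a) : ℝ) : ℂ) * Complex.I) volume
      0 (2 * Real.pi) := ((Complex.continuous_ofReal.comp (hX.mul (by fun_prop))).mul continuous_const).intervalIntegrable _ _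
  rw [intervalIntegral.integral_add i1 i2, intervalIntegral.integral_mul_const, intervalIntegral.integral_ofReal,
    intervalIntegral.integral_ofReal]
  unfold QST.mn
  apply Complex.ext
  · simp
  · simp

theorem mean_sq (m : ℕ) : (1 / (2 * Real.pi) : ℝ) * (∫ a in (0 : ℝ)..(2 * Real.pi), ph m a * (X a ^ 2 : ℝ))
    = ⟨QST.mn fun a => X a ^ 2 * Real.cos (m * a), QST.mn fun a => X a ^ 2 * Real.sin (m * a)⟩ := by
  have h := mean_lin (X := fun a => X a ^ 2) (hX.pow 2) m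
  exact h

end means

/-! ### nodal sums -/

set_option linter.unusedSectionVars false

section nodal

/-- mean of the two end values -/
def xb (X : ℝ → ℝ) (r : ℕ → ℝ) (i : ℕ) : ℝ := (X (Real.pi * r i) + X (Real.pi * r (i + 1))) / 2

/-- nodal `mean X²` -/
def nS (X : ℝ → ℝ) (N : ℕ) (r δ g : ℕ → ℝ) : ℝ :=
  ∑ i ∈ Finset.range N, (r (i + 1) - r i)
    * (xb X r i ^ 2 + δ i ^ 2 / 12 + g i ^ 2 / 30 + xb X r i * g i / 3)

/-- nodal linear moment -/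
def nL (c : ℕ → Fin 4 → ℂ) (X : ℝ → ℝ) (N : ℕ) (r δ g : ℕ → ℝ) : ℂ :=
  ∑ i ∈ Finset.range N, ((r (i + 1) - r i : ℝ) : ℂ) * LF (c i) (xb X r i) (δ i) (g i)

/-- nodal quadratic moment -/
def nQ (c : ℕ → Fin 4 → ℂ) (X : ℝ → ℝ) (N : ℕ) (r δ g : ℕ → ℝ) : ℂ :=
  ∑ i ∈ Finset.range N, ((r (i + 1) - r i : ℝ) : ℂ) * QF (c i) (xb X r i) (δ i) (g i)

/-- error of the quadratic moments -/
def EQ (N : ℕ) (r eb e : ℕ → ℝ) (xm η : ℝ) : ℝ :=
  ∑ i ∈ Finset.range N, (r (i + 1) - r i) * (η * xm ^ 2 + (1 + η) * ((2 * xm + eb i) * e i))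

/-- square of the error of the linear moments -/
def EL (N : ℕ) (r eb e : ℕ → ℝ) (xm η : ℝ) : ℝ :=
  ∑ i ∈ Finset.range N, (r (i + 1) - r i)
    * ((η * xm) ^ 2 + (2 * (η * xm) * (1 + η) + (1 + η) ^ 2 * eb i) * e i)

theorem sum_D {N : ℕ} {r : ℕ → ℝ} (G : Grid N r) : ∑ i ∈ Finset.range N, (r (i + 1) - r i) = 1 := by
  rw [Finset.sum_range_sub, G.zero, G.last]
  norm_num

/-- Cauchy -/
theorem sq_le_EL {N : ℕ} {r : ℕ → ℝ} (G : Grid N r) {eb e : ℕ → ℝ} {xm η : ℝ} (hη : 0 ≤ η)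
    (he : ∀ i < N, 0 ≤ e i) (heb : ∀ i < N, e i ≤ eb i) {z : ℝ} (hz : 0 ≤ z)
    (h : z ≤ ∑ i ∈ Finset.range N, (r (i + 1) - r i) * (η * xm + (1 + η) * e i)) :
    z ^ 2 ≤ EL N r eb e xm η := by
  have hD : ∀ i ∈ Finset.range N, 0 ≤ r (i + 1) - r i := fun i hi =>
    (sub_pos.2 (G.inc i (Finset.mem_range.1 hi))).le
  have h1 : z ^ 2 ≤ (∑ i ∈ Finset.range N, (r (i + 1) - r i) * (η * xm + (1 + η) * e i)) ^ 2 :=
    pow_le_pow_left₀ hz h 2
  refine h1.trans ?_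
  have h2 : (∑ i ∈ Finset.range N, (r (i + 1) - r i) * (η * xm + (1 + η) * e i)) ^ 2
      ≤ (∑ i ∈ Finset.range N, (r (i + 1) - r i))
        * ∑ i ∈ Finset.range N, (r (i + 1) - r i) * (η * xm + (1 + η) * e i) ^ 2 := by
    refine Finset.sum_sq_le_sum_mul_sum_of_sq_le_mul _ (fun i hi => hD i hi)
      (fun i hi => mul_nonneg (hD i hi) (sq_nonneg _)) fun i _ => le_of_eq ?_
    ring
  rw [sum_D G, one_mul] at h2
  refine h2.trans ?_
  unfold EL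
  refine Finset.sum_le_sum fun i hi => mul_le_mul_of_nonneg_left ?_ (hD i hi)
  have hiN := Finset.mem_range.1 hi
  have h3 := he i hiN
  have h4 := heb i hiN
  have h5 : e i * e i ≤ eb i * e i := mul_le_mul_of_nonneg_right h4 h3
  have h6 : 0 ≤ (1 + η) ^ 2 := by positivity
  nlinarith [mul_le_mul_of_nonneg_left h5 h6]

variable {X : ℝ → ℝ} (h : St 1 X) {xm : ℝ} (hb : ∀ a, |X a| ≤ xm)
  {N : ℕ} {r : ℕ → ℝ} (G : Grid N r) {δ g e eb : ℕ → ℝ}
  (hc : ∀ i < N, ∀ v, 0 ≤ v → v ≤ 1 → |X (pt r i v) - Xh (xb X r i) (δ i) (g i) v| ≤ e i)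
  (heb : ∀ i < N, e i ≤ eb i)

include h hb G hc heb

theorem e_nonneg : ∀ i < N, 0 ≤ e i := fun i hi => (abs_nonneg _).trans (hc i hi 0 le_rfl zero_le_one)

/-- `|S - S_n| ≤ ES` -/
theorem mS_le : |mS X - nS X N r δ g| ≤ EQ N r eb e xm 0 := by
  have k := quad_le (φ := ph 0) (B := 1) (c := fun _ => ![1, 0, 0, 0]) (η := fun _ => 0) h.cont h.anti hb G hc
    (cont_ph 0) (norm_ph 0) (fun i _ v _ _ => by
      unfold Fp ph
      simp) (fun a => ph_even (by decide) a) heb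
  rw [mean_sq h.cont] at k
  have e1 : (∑ i ∈ Finset.range N, ((r (i + 1) - r i : ℝ) : ℂ)
        * QF (![1, 0, 0, 0]) ((X (Real.pi * r i) + X (Real.pi * r (i + 1))) / 2) (δ i) (g i))
      = ((nS X N r δ g : ℝ) : ℂ) := by
    unfold nS xb
    push_cast
    refine Finset.sum_congr rfl fun i _ => ?_
    unfold QF
    simp
  rw [e1] at k
  have e2 : (⟨QST.mn fun a => X a ^ 2 * Real.cos ((0 : ℕ) * a), QST.mn fun a => X a ^ 2 * Real.sin ((0 : ℕ) * a)⟩ : ℂ)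
      = ((mS X : ℝ) : ℂ) := by
    unfold mS
    apply Complex.ext
    · simp
    · simp [QST.mn]
  rw [e2, ← Complex.ofReal_sub, Complex.norm_real, Real.norm_eq_abs] at k
  refine k.trans (le_of_eq ?_)
  unfold EQ
  simp

/-- `|d - d_n| ≤ Ed` -/
theorem mY_le {c : ℕ → Fin 4 → ℂ} {η : ℝ}
    (hη : ∀ i < N, ∀ v, 0 ≤ v → v ≤ 1 → ‖ph 4 (pt r i v) - Fp (c i) v‖ ≤ η) :
    ‖mY X - nQ c X N r δ g‖ ≤ EQ N r eb e xm η := by
  have k := quad_le (φ := ph 4) (B := 1) (c := c) (η := fun _ => η) h.cont h.anti hb G hc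
    (cont_ph 4) (norm_ph 4) hη (fun a => ph_even (by decide) a) heb
  rw [mean_sq h.cont] at k
  exact k

/-- `|σ - σ_n|² ≤ Es` -/
theorem mG_le {c : ℕ → Fin 4 → ℂ} {η : ℝ} (hη0 : 0 ≤ η)
    (hη : ∀ i < N, ∀ v, 0 ≤ v → v ≤ 1 → ‖ph 3 (pt r i v) - Fp (c i) v‖ ≤ η) :
    ‖mG X - -(3 / 2) * nL c X N r δ g‖ ^ 2 ≤ 9 / 4 * EL N r eb e xm η := by
  have k := NOD.lin_le (φ := ph 3) (B := 1) (c := c) (η := fun _ => η) h.cont h.anti hb G hc
    (cont_ph 3) (norm_ph 3) hη (fun a => ph_odd (by decide) a)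
  rw [mean_lin h.cont] at k
  have k2 := sq_le_EL G hη0 (e_nonneg h hb G hc heb) heb (norm_nonneg _) k
  have e1 : mG X - -(3 / 2) * nL c X N r δ g = -(3 / 2 : ℂ) * (⟨QST.mn fun a => X a * Real.cos ((3 : ℕ) * a),
      QST.mn fun a => X a * Real.sin ((3 : ℕ) * a)⟩ - nL c X N r δ g) := by
    have : mG X = -(3 / 2 : ℂ) * ⟨QST.mn fun a => X a * Real.cos ((3 : ℕ) * a),
      QST.mn fun a => X a * Real.sin ((3 : ℕ) * a)⟩ := by
      unfold mG
      apply Complex.ext <;> simp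
    rw [this]
    ring
  rw [e1, norm_mul, mul_pow]
  have e2 : ‖(-(3 / 2) : ℂ)‖ ^ 2 = 9 / 4 := by
    rw [norm_neg]
    norm_num
  rw [e2]
  exact mul_le_mul_of_nonneg_left k2 (by norm_num)

/-- the constraint -/
theorem C1_le {c : ℕ → Fin 4 → ℂ} {η : ℝ} (hη0 : 0 ≤ η)
    (hη : ∀ i < N, ∀ v, 0 ≤ v → v ≤ 1 → ‖ph 1 (pt r i v) - Fp (c i) v‖ ≤ η) :
    ‖nL c X N r δ g‖ ^ 2 ≤ EL N r eb e xm η := by
  have k := NOD.lin_le (φ := ph 1) (B := 1) (c := c) (η := fun _ => η) h.cont h.anti hb G hc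
    (cont_ph 1) (norm_ph 1) hη (fun a => ph_odd (by decide) a)
  rw [mean_lin h.cont] at k
  have k2 := sq_le_EL G hη0 (e_nonneg h hb G hc heb) heb (norm_nonneg _) k
  have e1 : (⟨QST.mn fun a => X a * Real.cos ((1 : ℕ) * a),
      QST.mn fun a => X a * Real.sin ((1 : ℕ) * a)⟩ : ℂ) = 0 := by
    have h1 := h.mc
    have h2 := h.ms
    unfold QST.mn
    apply Complex.ext
    · simp [h1]
    · simp [h2]
  rw [e1, zero_sub, norm_neg] at k2
  exact k2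

/-- **everything together**: the nodal form decides -/
theorem HF_nodal {T b1 be th t : ℝ} (hT : 0 < T) (hk : 0 < k2 T be) (hth : 0 < th) (hth1 : th ≤ 1) (ht : 0 < t)
    {c3 c4 : ℕ → Fin 4 → ℂ} {η3 η4 : ℝ} (hη3 : 0 ≤ η3)
    (h3 : ∀ i < N, ∀ v, 0 ≤ v → v ≤ 1 → ‖ph 3 (pt r i v) - Fp (c3 i) v‖ ≤ η3)
    (h4 : ∀ i < N, ∀ v, 0 ≤ v → v ≤ 1 → ‖ph 4 (pt r i v) - Fp (c4 i) v‖ ≤ η4)
    (u v : ℂ)
    (H : 0 ≤ AF T b1 be th (nS X N r δ g)
      (9 / (16 * T) * EQ N r eb e xm 0 + 9 / (16 * T) / t * EQ N r eb e xm η4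
        + k2 T be * (1 / th - 1) * (9 / 4 * EL N r eb e xm η3))
      (9 / (16 * T) * EQ N r eb e xm 0 + 9 / (16 * T) * t * EQ N r eb e xm η4)
      (-(3 / 2) * nL c3 X N r δ g) (nQ c4 X N r δ g) u v) :
    0 ≤ HF T (mS X) b1 (be * conj (mG X)) (mG X) (mY X) u v :=
  H.trans (AF_le_HF hT hk hth hth1 ht (mS_le h hb G hc heb) (mY_le h hb G hc heb h4)
    (mG_le h hb G hc heb hη3 h3) u v)

end nodal

end Pool.Agent.FPX.SQD
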