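import Pool.Agent.FPX.ST3

/-!
# The frame `s = 1` for states of every latitude (helper88), part D: the state `gg` and the integral
formula.
-/

open MeasureTheory intervalIntegral Set Filter Topology Real
open scoped NNReal
open Pool.Agent.FPX.UMP (Ef)
open Pool.Agent.FPX.F54 (CA SA AP W cc)

namespace Pool.Agent.FPX.ST1

noncomputable section

section

variable {s : ℝ} (h0 : 0 ≤ s) (h1 : s < 1) {f : ℝ → ℝ}

theorem th_eq (s : ℝ) (f : ℝ → ℝ) (t : ℝ) : th s f t = (pp s f t + nn s f t) / 2 := thx_eq _ _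

theorem gt_eq (s : ℝ) (f : ℝ → ℝ) (t : ℝ) : gt s f t = (pp s f t - nn s f t) / 2 := gx_eq _ _

include h0 h1

theorem pp_pi (hf : Ef f) (t : ℝ) : pp s f (t + π) = nn s f t + π := by
  unfold pp nn px nx u1 u2
  rw [xs_pi h0 h1 hf, aa_pi h0 h1, sin_add_pi, cos_add_pi, neg_mul_neg]
  have e : -xs s f t * (1 + -sin (aa s t)) / (2 - xs s f t * cos (aa s t)) =
      -(xs s f t * (1 - sin (aa s t)) / (2 - xs s f t * cos (aa s t))) := by ring
  rw [e, arctan_neg]
  ring

theorem nn_pi (hf : Ef f) (t : ℝ) : nn s f (t + π) = pp s f t + π := by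
  unfold pp nn px nx u1 u2
  rw [xs_pi h0 h1 hf, aa_pi h0 h1, sin_add_pi, cos_add_pi, neg_mul_neg]
  have e : -xs s f t * (1 - -sin (aa s t)) / (2 - xs s f t * cos (aa s t)) =
      -(xs s f t * (1 + sin (aa s t)) / (2 - xs s f t * cos (aa s t))) := by ring
  rw [e, arctan_neg]
  ring

theorem th_pi (hf : Ef f) (t : ℝ) : th s f (t + π) = th s f t + π := by
  rw [th_eq, th_eq, pp_pi h0 h1 hf, nn_pi h0 h1 hf]; ring

theorem gt_pi (hf : Ef f) (t : ℝ) : gt s f (t + π) = -gt s f t := by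
  rw [gt_eq, gt_eq, pp_pi h0 h1 hf, nn_pi h0 h1 hf]; ring

variable (hx : ∀ t, |xs s f t| < 1)

include hx

theorem kap_pos : 0 < (1 - s) ^ 2 / (3 * cc s) := by
  have := F54.cc_pos h0 h1
  have : 0 < 1 - s := by linarith
  positivity

theorem th_lower (hf : Ef f) {a b : ℝ} (hab : a ≤ b) :
    (1 - s) ^ 2 / (3 * cc s) * (b - a) ≤ th s f b - th s f a := by
  have h2 := pp_low h0 h1 hf hx hab
  have h3 := nn_low h0 h1 hf hx hab
  rw [th_eq, th_eq]
  linarith

theorem gt_le (hf : Ef f) {a b : ℝ} (hab : a ≤ b) :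
    |gt s f b - gt s f a| ≤ th s f b - th s f a := by
  have hk := kap_pos h0 h1 hx
  have h2 := pp_low h0 h1 hf hx hab
  have h3 := nn_low h0 h1 hf hx hab
  have h4 : 0 ≤ (1 - s) ^ 2 / (3 * cc s) * (b - a) := mul_nonneg hk.le (by linarith)
  rw [gt_eq, gt_eq, th_eq, th_eq, abs_le]
  constructor <;> linarith

theorem th_strict (hf : Ef f) : StrictMono (th s f) := by
  intro a b hab
  have hk := kap_pos h0 h1 hx
  have h2 := th_lower h0 h1 hx hf hab.le
  have h3 : 0 < (1 - s) ^ 2 / (3 * cc s) * (b - a) := mul_pos hk (by linarith)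
  linarith

theorem cont_th (hf : Ef f) : Continuous (th s f) := by
  obtain ⟨C, hC⟩ := pp_lip h0 h1 hf hx
  obtain ⟨D, hD⟩ := nn_lip h0 h1 hf hx
  have h2 := hC.continuous
  have h3 := hD.continuous
  have e : th s f = fun t => (pp s f t + nn s f t) / 2 := by funext t; exact th_eq s f t
  rw [e]; fun_prop

theorem th_surj (hf : Ef f) : Function.Surjective (th s f) := by
  have hn : ∀ n : ℕ, th s f (n * π) = th s f 0 + n * π ∧
      th s f (-(n * π)) = th s f 0 - n * π := by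
    intro n
    induction n with
    | zero => simp
    | succ n ih =>
      obtain ⟨i1, i2⟩ := ih
      constructor
      · push_cast
        rw [add_mul, one_mul, th_pi h0 h1 hf, i1]; ring
      · have e := th_pi h0 h1 hf (-((n + 1 : ℕ) * π))
        have e2 : -(((n + 1 : ℕ) : ℝ) * π) + π = -(n * π) := by push_cast; ring
        rw [e2, i2] at e
        push_cast at e ⊢
        linarith
  intro y
  have hπ := pi_pos
  obtain ⟨n, hn1⟩ := exists_nat_gt (|y - th s f 0| / π)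
  rw [div_lt_iff₀ hπ] at hn1
  have h2 := abs_lt.1 hn1
  obtain ⟨a1, a2⟩ := hn n
  have hle : -((n : ℝ) * π) ≤ n * π := by
    have : (0 : ℝ) ≤ n * π := by positivity
    linarith
  have hivt := intermediate_value_Icc hle (cont_th h0 h1 hx hf).continuousOn
  obtain ⟨t, -, ht⟩ := hivt (show y ∈ Icc _ _ from ⟨by rw [a2]; linarith [h2.1], by
    rw [a1]; linarith [h2.2]⟩)
  exact ⟨t, ht⟩

theorem ti_th (hf : Ef f) (t : ℝ) : ti s f (th s f t) = t :=
  Function.leftInverse_invFun (th_strict h0 h1 hx hf).injective t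

theorem th_ti (hf : Ef f) (θ : ℝ) : th s f (ti s f θ) = θ :=
  Function.rightInverse_invFun (th_surj h0 h1 hx hf) θ

theorem gg_th (hf : Ef f) (t : ℝ) : gg s f (th s f t) = gt s f t := by
  unfold gg
  rw [ti_th h0 h1 hx hf]

theorem ti_pi (hf : Ef f) (θ : ℝ) : ti s f (θ + π) = ti s f θ + π := by
  apply (th_strict h0 h1 hx hf).injective
  rw [th_ti h0 h1 hx hf, th_pi h0 h1 hf, th_ti h0 h1 hx hf]

theorem ti_mono (hf : Ef f) : StrictMono (ti s f) := by
  intro x y hxy
  by_contra hcon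
  push Not at hcon
  have := (th_strict h0 h1 hx hf).monotone hcon
  rw [th_ti h0 h1 hx hf, th_ti h0 h1 hx hf] at this
  linarith

theorem ti_lip (hf : Ef f) : LipschitzWith (Real.toNNReal (1 / ((1 - s) ^ 2 / (3 * cc s)))) (ti s f) := by
  have hk := kap_pos h0 h1 hx
  refine LipschitzWith.of_dist_le_mul fun a b => ?_
  rw [Real.coe_toNNReal _ (by positivity)]
  have key : ∀ a b : ℝ, a ≤ b → |ti s f b - ti s f a| ≤ 1 / ((1 - s) ^ 2 / (3 * cc s)) * (b - a) := by
    intro a b hab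
    have h2 : ti s f a ≤ ti s f b := (ti_mono h0 h1 hx hf).monotone hab
    have h3 := th_lower h0 h1 hx hf h2
    rw [th_ti h0 h1 hx hf, th_ti h0 h1 hx hf] at h3
    rw [abs_of_nonneg (by linarith), one_div, ← div_eq_inv_mul, le_div_iff₀ hk]
    linarith
  rcases le_total a b with hab | hab
  · rw [dist_comm (ti s f a), Real.dist_eq, dist_comm a, Real.dist_eq,
      abs_of_nonneg (by linarith : (0 : ℝ) ≤ b - a)]
    exact key a b hab
  · rw [Real.dist_eq, Real.dist_eq, abs_of_nonneg (by linarith : (0 : ℝ) ≤ a - b)]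
    exact key b a hab

/-- the state in the frame `s = 1` is a state -/
theorem gg_Ef (hf : Ef f) : Ef (gg s f) := by
  refine ⟨?_, ?_, ?_⟩
  · refine LipschitzWith.of_dist_le_mul fun a b => ?_
    rw [NNReal.coe_one, one_mul]
    have key : ∀ a b : ℝ, a ≤ b → |gg s f b - gg s f a| ≤ b - a := by
      intro a b hab
      have h2 : ti s f a ≤ ti s f b := (ti_mono h0 h1 hx hf).monotone hab
      have h3 := gt_le h0 h1 hx hf h2
      rw [th_ti h0 h1 hx hf, th_ti h0 h1 hx hf] at h3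
      exact h3
    rcases le_total a b with hab | hab
    · rw [dist_comm (gg s f a), Real.dist_eq, dist_comm a, Real.dist_eq,
        abs_of_nonneg (by linarith : (0 : ℝ) ≤ b - a)]
      exact key a b hab
    · rw [Real.dist_eq, Real.dist_eq, abs_of_nonneg (by linarith : (0 : ℝ) ≤ a - b)]
      exact key b a hab
  · intro θ
    unfold gg
    rw [ti_pi h0 h1 hx hf, gt_pi h0 h1 hf]
  · intro θ
    exact gx_lt (hx _) _

theorem X_gg (hf : Ef f) (θ : ℝ) : X θ (gg s f θ) = xs s f (ti s f θ) := by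
  have h := X_frame (hx (ti s f θ)) (aa s (ti s f θ))
  have e : thx (xs s f (ti s f θ)) (aa s (ti s f θ)) = θ := th_ti h0 h1 hx hf θ
  rw [e] at h
  exact h

theorem Ca_gg (hf : Ef f) (θ : ℝ) : Ca θ (gg s f θ) = CA s (ti s f θ) := by
  have h := Ca_frame (hx (ti s f θ)) (aa s (ti s f θ))
  have e : thx (xs s f (ti s f θ)) (aa s (ti s f θ)) = θ := th_ti h0 h1 hx hf θ
  rw [e, (cs_aa h0 h1 _).1] at h
  exact h

theorem Sa_gg (hf : Ef f) (θ : ℝ) : Sa θ (gg s f θ) = SA s (ti s f θ) := by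
  have h := Sa_frame (hx (ti s f θ)) (aa s (ti s f θ))
  have e : thx (xs s f (ti s f θ)) (aa s (ti s f θ)) = θ := th_ti h0 h1 hx hf θ
  rw [e, (cs_aa h0 h1 _).2] at h
  exact h

/-- the density `dα`, in the two coordinates -/
theorem dens (hf : Ef f) {θ g' t' : ℝ} (hg : HasDerivAt (gg s f) g' θ)
    (ht : HasDerivAt (ti s f) t' θ) :
    AP s (ti s f θ) * t' = At θ (gg s f θ) + Ar θ (gg s f θ) * g' := by
  have hE := gg_Ef h0 h1 hx hf
  have hA := Al_comp (hE.lt θ) hg
  have e1 : (fun θ => sin (Al θ (gg s f θ))) = fun θ => SA s (ti s f θ) := by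
    funext θ; rw [sin_Al θ (hE.lt θ), Sa_gg h0 h1 hx hf]
  have e2 : (fun θ => cos (Al θ (gg s f θ))) = fun θ => CA s (ti s f θ) := by
    funext θ; rw [cos_Al θ (hE.lt θ), Ca_gg h0 h1 hx hf]
  have d1 := hA.sin
  have d2 := hA.cos
  rw [e1] at d1
  rw [e2] at d2
  have d3 := (F54.dSA h0 h1 (ti s f θ)).comp θ ht
  have d4 := (F54.dCA h0 h1 (ti s f θ)).comp θ ht
  have u1 := d1.unique d3
  have u2 := d2.unique d4
  have f1 : sin (Al θ (gg s f θ)) = SA s (ti s f θ) := congrFun e1 θ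
  have f2 : cos (Al θ (gg s f θ)) = CA s (ti s f θ) := congrFun e2 θ
  rw [← f2] at u1
  rw [← f1] at u2
  have h5 := sin_sq_add_cos_sq (Al θ (gg s f θ))
  linear_combination -(cos (Al θ (gg s f θ))) * u1 + (sin (Al θ (gg s f θ))) * u2 -
    (AP s (ti s f θ) * t' - (At θ (gg s f θ) + Ar θ (gg s f θ) * g')) * h5

/-- **The state integral formula in the frame `s = 1`**, with a test function `K (x, α)` -/
theorem int_lift (hf : Ef f) {K : ℝ × ℝ → ℝ} (hK : ContDiff ℝ 1 K)
    (hKp : ∀ x a, K (x, a + 2 * π) = K (x, a)) {k : ℝ → ℝ} (hk : Continuous k)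
    (hkK : ∀ θ, k (ti s f θ) = K (X θ (gg s f θ), Al θ (gg s f θ))) :
    ∫ t in (0:ℝ)..(2 * π), k t * AP s t =
      ∫ θ in (0:ℝ)..(2 * π), (K (0, θ) + ∫ r in (0:ℝ)..(gg s f θ),
        fderiv ℝ K (X θ r, Al θ r) (1, 0) * (1 / R2 θ r)) := by
  have hg := gg_Ef h0 h1 hx hf
  obtain ⟨m, hm, hmb, hgm⟩ := hg.exists_bd
  have hπ := pi_pos
  have hcont : Continuous (fun t => k t * AP s t) := hk.mul (F54.contAP h0 h1)
  set Φ : ℝ → ℝ := fun t => ∫ u in (0:ℝ)..t, k u * AP s u with hΦ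
  have hΦd : ∀ t, HasDerivAt Φ (k t * AP s t) t := fun t =>
    intervalIntegral.integral_hasDerivAt_right (hcont.intervalIntegrable _ _)
      (hcont.stronglyMeasurableAtFilter _ _) hcont.continuousAt
  set a := th s f 0 with ha
  have hth2 : th s f (2 * π) = a + 2 * π := by
    have e1 := th_pi h0 h1 hf 0
    have e2 := th_pi h0 h1 hf π
    rw [zero_add] at e1
    rw [show (2:ℝ) * π = π + π by ring, e2, e1]; ring
  have hta : ti s f a = 0 := ti_th h0 h1 hx hf 0
  have htb : ti s f (a + 2 * π) = 2 * π := by rw [← hth2]; exact ti_th h0 h1 hx hf _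
  have htm := ti_mono h0 h1 hx hf
  have hmaps : MapsTo (ti s f) (uIcc a (a + 2 * π)) (Icc 0 (2 * π)) := by
    intro θ hθ
    rw [uIcc_of_le (by linarith)] at hθ
    refine ⟨?_, ?_⟩
    · rw [← hta]; exact htm.monotone hθ.1
    · rw [← htb]; exact htm.monotone hθ.2
  obtain ⟨C, hC⟩ := (isCompact_Icc (a := (0:ℝ)) (b := 2 * π)).exists_bound_of_continuousOn
    hcont.continuousOn
  have hC0 : 0 ≤ C := le_trans (norm_nonneg _) (hC 0 ⟨le_refl _, by positivity⟩)
  have hΦl : LipschitzOnWith C.toNNReal Φ (Icc 0 (2 * π)) := by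
    apply Convex.lipschitzOnWith_of_nnnorm_hasDerivWithin_le (convex_Icc _ _)
      (fun t _ => (hΦd t).hasDerivWithinAt)
    intro t ht
    rw [← NNReal.coe_le_coe, coe_nnnorm, Real.coe_toNNReal _ hC0]
    exact hC t ht
  have htl := ti_lip h0 h1 hx hf
  have hΨl := hΦl.comp (htl.lipschitzOnWith (s := uIcc a (a + 2 * π))) hmaps
  have hFTC := hΨl.absolutelyContinuousOnInterval.integral_deriv_eq_sub
  have hΨv : (Φ ∘ ti s f) (a + 2 * π) - (Φ ∘ ti s f) a = ∫ t in (0:ℝ)..(2 * π), k t * AP s t := by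
    simp only [Function.comp, hta, htb, hΦ, intervalIntegral.integral_same, sub_zero]
  rw [hΨv] at hFTC
  have hae : ∀ᵐ θ ∂volume, θ ∈ uIoc a (a + 2 * π) → deriv (Φ ∘ ti s f) θ =
      K (X θ (gg s f θ), Al θ (gg s f θ)) *
        (At θ (gg s f θ) + Ar θ (gg s f θ) * deriv (gg s f) θ) := by
    have hA1 := (htl.lipschitzOnWith (s := uIcc a (a + 2 * π))).absolutelyContinuousOnInterval
    have hA2 := (hg.lip.lipschitzOnWith (s := uIcc a (a + 2 * π))).absolutelyContinuousOnInterval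
    filter_upwards [hA1.ae_differentiableAt, hA2.ae_differentiableAt] with θ hθ1 hθ2 hθ
    have hd1 := (hθ1 (uIoc_subset_uIcc hθ)).hasDerivAt
    have hd2 := (hθ2 (uIoc_subset_uIcc hθ)).hasDerivAt
    rw [((hΦd (ti s f θ)).comp θ hd1).deriv, ← dens h0 h1 hx hf hd2 hd1, hkK]
    ring
  rw [← hFTC, intervalIntegral.integral_congr_ae hae,
    frame_stokes hK hKp hm hmb hgm hg.lip (fun θ => hg.per θ) a]
  have hper : Function.Periodic (fun θ => K (0, θ) + ∫ r in (0:ℝ)..(gg s f θ),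
        fderiv ℝ K (X θ r, Al θ r) (1, 0) * (1 / R2 θ r)) (2 * π) := by
    intro θ
    have e0 : K (0, θ + 2 * π) = K (0, θ) := hKp 0 θ
    show K (0, θ + 2 * π) + _ = K (0, θ) + _
    rw [e0, hg.per]
    congr 1
    apply intervalIntegral.integral_congr
    intro r _
    show fderiv ℝ K (X (θ + 2 * π) r, Al (θ + 2 * π) r) (1, 0) *
      (1 / R2 (θ + 2 * π) r) = _
    rw [X_period, Al_period, STK.fderiv_per hKp, R2_period]
  have hfin := hper.intervalIntegral_add_eq a 0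
  rw [zero_add] at hfin
  rw [← hfin]

/-- **The state integral formula in the frame `s = 1`**, with `h (cos α, sin α, x)` of class `C¹` -/
theorem int_formula (hf : Ef f) {h hd : ℝ → ℝ → ℝ → ℝ}
    (hh : ContDiff ℝ 1 (fun p : ℝ × ℝ × ℝ => h p.1 p.2.1 p.2.2))
    (hhd : ∀ a b x, HasDerivAt (fun x => h a b x) (hd a b x) x) :
    ∫ t in (0:ℝ)..(2 * π), h (CA s t) (SA s t) (xs s f t) * AP s t =
      ∫ θ in (0:ℝ)..(2 * π), (h (cos θ) (sin θ) 0 + ∫ r in (0:ℝ)..(gg s f θ),
        hd (Ca θ r) (Sa θ r) (X θ r) * (1 / R2 θ r)) := by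
  have hg := gg_Ef h0 h1 hx hf
  have hK : ContDiff ℝ 1 (fun p : ℝ × ℝ => h (cos p.2) (sin p.2) p.1) := by
    have h1 : ContDiff ℝ 1 (fun p : ℝ × ℝ => ((cos p.2, sin p.2, p.1) : ℝ × ℝ × ℝ)) := by
      fun_prop
    exact hh.comp h1
  have hk : Continuous (fun t => h (CA s t) (SA s t) (xs s f t)) := by
    have h1 : Continuous (fun t => ((CA s t, SA s t, xs s f t) : ℝ × ℝ × ℝ)) := by
      have h2 := F54.contCA h0 h1
      have h3 := F54.contSA h0 h1
      have h4 := (xs_lip h0 h1 hf).continuous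
      fun_prop
    exact hh.continuous.comp h1
  have key := int_lift h0 h1 hx hf hK (fun x a => by simp only [cos_add_two_pi, sin_add_two_pi])
    hk (fun θ => by
      simp only [cos_Al θ (hg.lt θ), sin_Al θ (hg.lt θ), X_gg h0 h1 hx hf, Ca_gg h0 h1 hx hf,
        Sa_gg h0 h1 hx hf])
  rw [key]
  apply intervalIntegral.integral_congr
  intro θ _
  show h (cos θ) (sin θ) 0 + _ = h (cos θ) (sin θ) 0 + _
  congr 1
  apply intervalIntegral.integral_congr
  intro r hr
  have hr' : |r| < π / 2 := by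
    obtain ⟨m, -, hmb, hgm⟩ := hg.exists_bd
    exact lt_of_le_of_lt (STI.abs_le_of_uIcc (hgm θ) hr) hmb
  show fderiv ℝ (fun p : ℝ × ℝ => h (cos p.2) (sin p.2) p.1) (X θ r, Al θ r) (1, 0) *
    _ = hd (Ca θ r) (Sa θ r) (X θ r) * _
  congr 1
  have h2 := STI.chain hK (x := fun x => x) (a := fun _ => Al θ r)
    (hasDerivAt_id' (X θ r)) (hasDerivAt_const _ _)
  have h3 := hhd (cos (Al θ r)) (sin (Al θ r)) (X θ r)
  have h4 := h2.unique h3
  rw [cos_Al θ hr', sin_Al θ hr'] at h4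
  simpa using h4

end

end

end Pool.Agent.FPX.ST1
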