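import Mathlib
import Pool.Agent.FPX.PTE
import Pool.Agent.FPX.ST4

/-
PTF (helper90): the sharp pointwise bound in the frame `s = 1` (ST1-ST4) for states of every
latitude: `|x - x² cos α / 2 + 0.2337 cos α| ≤ 0.5712`.
-/

open MeasureTheory Set Filter Topology

noncomputable section

namespace Pool.Agent.FPX.PTF

open Real
open Pool.Agent.FPX.UMP (Ef)
open Pool.Agent.FPX.F54 (cc W CA SA AP G1 G2 cc_sq cc_pos W_pos W_sq' W_sq CS)
open Pool.Agent.FPX.PTB (et nup kap)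
open Pool.Agent.FPX.ST1 (xs ti)
open Pool.Agent.H18.Col (cos_le_four)

/-- `sin δ = δ + error` -/
theorem sin_err (d : ℝ) : |d - sin d| ≤ |d| ^ 3 / 6 := by
  rcases le_total 0 d with h | h
  · have h1 := sin_le h
    have h2 := sin_ge_sub_cube h
    rw [abs_of_nonneg h, abs_of_nonneg (by linarith)]
    linarith
  · have h1 := sin_le (neg_nonneg.2 h)
    have h2 := sin_ge_sub_cube (neg_nonneg.2 h)
    rw [sin_neg] at h1 h2
    rw [abs_of_nonpos h, abs_of_nonpos (by linarith)]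
    linarith

/-- `1 - cos δ = δ² / 2 - error` -/
theorem cos_err (d : ℝ) : |d ^ 2 / 2 - (1 - cos d)| ≤ d ^ 4 / 24 := by
  have h1 := one_sub_sq_div_two_le_cos (x := d)
  have h2 := cos_le_four (abs_nonneg d)
  rw [cos_abs, sq_abs, pow_abs, abs_of_nonneg (by positivity : (0 : ℝ) ≤ d ^ 4)] at h2
  have h3 : 0 ≤ d ^ 4 := by positivity
  rw [abs_le]
  constructor <;> linarith

/-- first error -/
theorem err1 {s c d : ℝ} (hs : 0 ≤ s) (hs1 : s ≤ 1) (hc : 0 < c) (h : |d| ≤ 0.62 * c) :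
    |s / c * (d - sin d)| ≤ 0.0398 * c ^ 2 := by
  have s1 := sin_err d
  rw [abs_mul, abs_of_nonneg (by positivity)]
  have b1 : |d| ^ 3 ≤ (0.62 * c) ^ 3 := by gcongr
  calc s / c * |d - sin d| ≤ s / c * ((0.62 * c) ^ 3 / 6) := by
        apply mul_le_mul_of_nonneg_left (by linarith) (by positivity)
    _ = s * (0.62 ^ 3 / 6 * c ^ 2) := by field_simp
    _ ≤ 1 * (0.62 ^ 3 / 6 * c ^ 2) := by gcongr
    _ ≤ 0.0398 * c ^ 2 := by
        rw [one_mul]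
        apply mul_le_mul_of_nonneg_right (by norm_num) (by positivity)

/-- second error -/
theorem err2 {s c d C : ℝ} (hs : 0 ≤ s) (hs1 : s ≤ 1) (hc : 0 < c) (h : |d| ≤ 0.62 * c)
    (hC : |C| ≤ 1) :
    |s ^ 2 / c ^ 2 * (d ^ 2 / 2 - (1 - cos d)) * C| ≤ 0.0062 * c ^ 2 := by
  have s2 := cos_err d
  rw [abs_mul, abs_mul, abs_of_nonneg (by positivity : (0 : ℝ) ≤ s ^ 2 / c ^ 2)]
  have b1 : d ^ 4 ≤ (0.62 * c) ^ 4 := by
    have : d ^ 4 = |d| ^ 4 := by rw [← abs_pow, abs_of_nonneg (by positivity)]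
    rw [this]
    gcongr
  have b2 : |d ^ 2 / 2 - (1 - cos d)| ≤ (0.62 * c) ^ 4 / 24 := by linarith
  have b3 : s ^ 2 ≤ 1 := by nlinarith
  calc s ^ 2 / c ^ 2 * |d ^ 2 / 2 - (1 - cos d)| * |C|
      ≤ s ^ 2 / c ^ 2 * ((0.62 * c) ^ 4 / 24) * 1 := by gcongr
    _ = s ^ 2 * (0.62 ^ 4 / 24 * c ^ 2) := by field_simp
    _ ≤ 1 * (0.62 ^ 4 / 24 * c ^ 2) := by gcongr
    _ ≤ 0.0062 * c ^ 2 := by
        rw [one_mul]
        apply mul_le_mul_of_nonneg_right (by norm_num) (by positivity)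

/-- third error -/
theorem err3 {s c n C : ℝ} (hs : 0 ≤ s) (hc2 : c ^ 2 = 1 - s ^ 2)
    (hC : |C| ≤ 1) (hn1 : n ≤ 0.2338 * s) (hn2 : (0.2336 - 0.021 * c ^ 2) * s ≤ n) :
    |(0.2337 - s * n) * C| ≤ 0.0001 + 0.2546 * c ^ 2 := by
  rw [abs_mul]
  have b0 : s ^ 2 = 1 - c ^ 2 := by linarith
  have b1 : (0.2336 - 0.021 * c ^ 2) * (1 - c ^ 2) ≤ s * n := by
    have := mul_le_mul_of_nonneg_left hn2 hs
    calc (0.2336 - 0.021 * c ^ 2) * (1 - c ^ 2) = s * ((0.2336 - 0.021 * c ^ 2) * s) := by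
          rw [← b0]; ring
      _ ≤ _ := this
  have b2 : s * n ≤ 0.2338 * (1 - c ^ 2) := by
    have := mul_le_mul_of_nonneg_left hn1 hs
    calc s * n ≤ s * (0.2338 * s) := this
      _ = _ := by rw [← b0]; ring
  have b4 := sq_nonneg c
  have b5 := sq_nonneg (c ^ 2)
  have b3 : |0.2337 - s * n| ≤ 0.0001 + 0.2546 * c ^ 2 := by
    rw [abs_le]
    constructor
    · linarith
    · nlinarith
  calc |0.2337 - s * n| * |C| ≤ (0.0001 + 0.2546 * c ^ 2) * 1 := by gcongr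
    _ = _ := mul_one _

/-- the main term -/
theorem err4 {s c k : ℝ} (hs : 0 ≤ s) (hc2 : c ^ 2 = 1 - s ^ 2) (hk0 : 0 ≤ k)
    (hk : k ≤ 0.571 - 0.06 * c ^ 2) : s * k ≤ 0.571 - 0.3455 * c ^ 2 + 0.03 * c ^ 4 := by
  have b0 : s ^ 2 = 1 - c ^ 2 := by linarith
  have b1 : s ≤ 1 - c ^ 2 / 2 := by nlinarith [sq_nonneg (1 - s)]
  have b2 : s * k ≤ (1 - c ^ 2 / 2) * (0.571 - 0.06 * c ^ 2) := by
    apply mul_le_mul b1 hk hk0
    linarith
  nlinarith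

section a

variable {s : ℝ} (h0 : 0 ≤ s) (h1 : s < 1) {f : ℝ → ℝ} (hf : Ef f)

include h0 h1 hf

/-- the bound in `x`, with the constants of the latitude -/
theorem x_bd_s (hs : 0 < s) (hG1 : G1 s 0 f = 0) (hG2 : G2 s 0 f = 0) (t : ℝ) :
    |s * sin (f t - arcsin (s * cos t)) / cc s
        - s ^ 2 * (1 - cos (f t - arcsin (s * cos t))) / cc s ^ 2 * CA s t
        + s * nup s * CA s t| ≤ s * kap s := by
  have hc := cc_pos h0 h1
  have hW := W_pos h0 h1 t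
  have hW2 := W_sq h0 h1 t
  have hc2 := cc_sq h0 h1
  have e1 := PTB.bd h0 h1 hf hs hG1 hG2 t
  have hsc : s * cos t ∈ Icc (-1 : ℝ) 1 := by
    have := abs_cos_le_one t
    have h3 : |s * cos t| ≤ 1 := by
      rw [abs_mul, abs_of_nonneg h0]
      calc s * |cos t| ≤ 1 * 1 := by gcongr
        _ = 1 := one_mul 1
    exact abs_le.1 h3
  have eF := sin_arcsin hsc.1 hsc.2
  have eC : cos (arcsin (s * cos t)) = W s t := by rw [cos_arcsin]; rfl
  obtain ⟨F, hF⟩ : ∃ F, F = arcsin (s * cos t) := ⟨_, rfl⟩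
  rw [← hF] at eF eC ⊢
  obtain ⟨d, hd⟩ : ∃ d, d = f t - F := ⟨_, rfl⟩
  have eft : f t = F + d := by rw [hd]; ring
  rw [← hd]
  rw [eft, sin_add, eF, eC] at e1
  have key : s ^ 2 * (s * cos t * cos d + W s t * sin d) - sin (et s) * (s * cos t)
      = s * cc s * W s t * (s * sin d / cc s - s ^ 2 * (1 - cos d) / cc s ^ 2 * CA s t
        + s * nup s * CA s t) := by
    unfold F54.CA nup
    field_simp
    ring
  have key2 : (cos (et s) - cc s) * W s t = s * cc s * W s t * (s * kap s) := by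
    unfold kap
    field_simp
  rw [key, key2, abs_mul, abs_of_pos (by positivity)] at e1
  exact le_of_mul_le_mul_left e1 (by positivity)

/-- `|x| ≤ 0.62 s` -/
theorem x_le (hG1 : G1 s 0 f = 0) (hG2 : G2 s 0 f = 0) (t : ℝ) : |xs s f t| ≤ 0.62 * s := by
  have hc := cc_pos h0 h1
  have e1 := PTB.delta_bd h0 h1 hf hG1 hG2 t
  unfold xs
  rw [abs_mul, abs_of_nonneg (by positivity), div_mul_eq_mul_div, div_le_iff₀ hc]
  nlinarith

/-- the hypothesis of ST1-ST4 -/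
theorem hx (hG1 : G1 s 0 f = 0) (hG2 : G2 s 0 f = 0) (t : ℝ) : |xs s f t| < 1 := by
  have := x_le h0 h1 hf hG1 hG2 t
  linarith

/-- **the pointwise bound in `x`, one form for all latitudes** -/
theorem x_bd (hG1 : G1 s 0 f = 0) (hG2 : G2 s 0 f = 0) (t : ℝ) :
    |xs s f t - xs s f t ^ 2 * CA s t / 2 + 0.2337 * CA s t| ≤ 0.5712 := by
  have hc := cc_pos h0 h1
  have hc2 := cc_sq h0 h1
  have hCS := CS h0 h1 t
  have hCA : |CA s t| ≤ 1 := by
    rw [← sq_le_one_iff_abs_le_one]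
    nlinarith [sq_nonneg (SA s t)]
  rcases h0.lt_or_eq with hs | hs
  · have e1 := x_bd_s h0 h1 hf hs hG1 hG2 t
    have e2 := PTB.delta_bd h0 h1 hf hG1 hG2 t
    have hn1 := PTB.nup_le h0 h1 hs
    have hn2 := PTB.nup_ge h0 h1 hs
    have hk := PTB.kap_le h0 h1 hs
    have hk0 := PTB.kap_pos h0 h1 hs
    obtain ⟨d, hd⟩ : ∃ d, d = f t - arcsin (s * cos t) := ⟨_, rfl⟩
    have ex : xs s f t = s / cc s * d := by rw [hd]; rfl
    rw [← hd] at e1 e2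
    obtain ⟨C, hC⟩ : ∃ C, C = CA s t := ⟨_, rfl⟩
    obtain ⟨c, hcc⟩ : ∃ c, c = cc s := ⟨_, rfl⟩
    rw [ex]
    rw [← hC] at e1 hCA ⊢
    rw [← hcc] at hc hc2 e1 e2 hn2 hk ⊢
    have a1 := err1 h0 h1.le hc e2
    have a2 := err2 h0 h1.le hc e2 hCA
    have a3 := err3 h0 hc2 hCA hn1 hn2
    have a4 := err4 h0 hc2 hk0.le hk
    have e3 : s / c * d - (s / c * d) ^ 2 * C / 2 + 0.2337 * C
        = (s * sin d / c - s ^ 2 * (1 - cos d) / c ^ 2 * C + s * nup s * C)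
          + s / c * (d - sin d) - s ^ 2 / c ^ 2 * (d ^ 2 / 2 - (1 - cos d)) * C
          + (0.2337 - s * nup s) * C := by
      field_simp
      ring
    rw [e3]
    have t1 := abs_le.1 e1
    have t2 := abs_le.1 a1
    have t3 := abs_le.1 a2
    have t4 := abs_le.1 a3
    have t6 := sq_nonneg c
    have t7 : c ^ 2 ≤ 1 := by nlinarith
    have t5 : c ^ 4 ≤ c ^ 2 := by nlinarith
    rw [abs_le]
    constructor <;> linarith
  · have ex : xs s f t = 0 := by unfold xs; simp [← hs]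
    rw [ex]
    have := abs_le.1 hCA
    rw [abs_le]
    constructor <;> linarith

end a

section b

variable {s : ℝ} (h0 : 0 ≤ s) (h1 : s < 1) {f : ℝ → ℝ} (hf : Ef f)

/-- the frame relation `sin r = ρ (x - x² cos α / 2)` -/
theorem frame_rel (θ : ℝ) {r : ℝ} (hr : |r| < π / 2) :
    sin r = ST1.rho θ r * (ST1.X θ r - ST1.X θ r ^ 2 * ST1.Ca θ r / 2) := by
  have h2 := ST1.rho_pos θ hr
  have h3 := ST1.den_pos θ hr
  have h4 := ST1.rho_sq θ hr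
  have h5 := sin_sq_add_cos_sq r
  unfold ST1.X ST1.Ca
  unfold ST1.R2 at h4
  field_simp
  linear_combination (-(sin r)) * h4 + (sin r) * h5

include h0 h1 hf

/-- **the pointwise bound in the frame `s = 1`** -/
theorem frame_bd (hG1 : G1 s 0 f = 0) (hG2 : G2 s 0 f = 0) (θ : ℝ) :
    |sin (ST1.gg s f θ) + 0.2337 * (cos θ + sin (ST1.gg s f θ))|
      ≤ 0.5712 * ST1.rho θ (ST1.gg s f θ) := by
  have hx := hx h0 h1 hf hG1 hG2
  have hE := ST1.gg_Ef h0 h1 hx hf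
  have e1 := x_bd h0 h1 hf hG1 hG2 (ti s f θ)
  rw [← ST1.X_gg h0 h1 hx hf, ← ST1.Ca_gg h0 h1 hx hf] at e1
  have e2 := frame_rel θ (hE.lt θ)
  have e3 := ST1.rho_pos θ (hE.lt θ)
  obtain ⟨r, hr⟩ : ∃ r, r = ST1.gg s f θ := ⟨_, rfl⟩
  rw [← hr] at e1 e2 e3 ⊢
  have e4 : sin r + 0.2337 * (cos θ + sin r)
      = ST1.rho θ r * (ST1.X θ r - ST1.X θ r ^ 2 * ST1.Ca θ r / 2 + 0.2337 * ST1.Ca θ r) := by
    have e5 : cos θ + sin r = ST1.rho θ r * ST1.Ca θ r := by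
      unfold ST1.Ca
      field_simp
    rw [e5]
    linear_combination e2
  rw [e4, abs_mul, abs_of_pos e3, mul_comm (0.5712 : ℝ)]
  gcongr

/-- squared form -/
theorem frame_sq (hG1 : G1 s 0 f = 0) (hG2 : G2 s 0 f = 0) (θ : ℝ) :
    (sin (ST1.gg s f θ) + 0.2337 * (cos θ + sin (ST1.gg s f θ))) ^ 2
      ≤ 0.5712 ^ 2 * (1 + 2 * cos θ * sin (ST1.gg s f θ) + sin (ST1.gg s f θ) ^ 2) := by
  have hx := hx h0 h1 hf hG1 hG2
  have hE := ST1.gg_Ef h0 h1 hx hf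
  have e1 := frame_bd h0 h1 hf hG1 hG2 θ
  have e2 := ST1.rho_sq θ (hE.lt θ)
  have e3 := ST1.rho_pos θ (hE.lt θ)
  unfold ST1.R2 at e2
  rw [← e2, ← mul_pow, ← sq_abs]
  gcongr

/-- `|sin r| ≤ 0.53` in the frame `s = 1` -/
theorem sin_r_bd (hG1 : G1 s 0 f = 0) (hG2 : G2 s 0 f = 0) (θ : ℝ) :
    |sin (ST1.gg s f θ)| ≤ 0.53 := by
  have e1 := frame_sq h0 h1 hf hG1 hG2 θ
  obtain ⟨S, hS⟩ : ∃ S, S = sin (ST1.gg s f θ) := ⟨_, rfl⟩
  rw [← hS] at e1 ⊢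
  apply abs_le_of_sq_le_sq _ (by norm_num)
  nlinarith [sq_nonneg (0.2337 ^ 2 * cos θ - (0.5712 ^ 2 - 1.2337 * 0.2337) * S)]

/-- `|r| ≤ 0.56` in the frame `s = 1` -/
theorem r_bd (hG1 : G1 s 0 f = 0) (hG2 : G2 s 0 f = 0) (θ : ℝ) : |ST1.gg s f θ| ≤ 0.56 := by
  have e1 := sin_r_bd h0 h1 hf hG1 hG2 θ
  have hE := ST1.gg_Ef h0 h1 (hx h0 h1 hf hG1 hG2) hf
  have e2 := hE.lt θ
  have hpi := pi_gt_three
  obtain ⟨r, hr⟩ : ∃ r, r = ST1.gg s f θ := ⟨_, rfl⟩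
  rw [← hr] at e1 e2 ⊢
  have e3 : |sin r| = sin |r| := by
    rcases le_total 0 r with h | h
    · rw [abs_of_nonneg h] at e2 ⊢
      exact abs_of_nonneg (sin_nonneg_of_nonneg_of_le_pi h (by linarith))
    · rw [abs_of_nonpos h] at e2 ⊢
      rw [sin_neg]
      exact abs_of_nonpos (sin_nonpos_of_nonpos_of_neg_pi_le h (by linarith))
  by_contra hcon
  push Not at hcon
  have e4 : sin 0.56 < sin |r| :=
    sin_lt_sin_of_lt_of_le_pi_div_two (by linarith) e2.le hcon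
  have e5 := sin_ge_sub_cube (x := 0.56) (by norm_num)
  rw [e3] at e1
  norm_num at e5
  linarith

end b

end Pool.Agent.FPX.PTF
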