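import Mathlib
import Pool.Agent.FPX.SQN
import Pool.Agent.EWD.MFL
import Pool.Agent.H74.FAC.Surf

/-
SQP (helper88): from the Calc level to surfaces: a bound `2π ≤ T · vol` for all calculi gives
`area M ≥ 2π / T` for every isometric filling.
-/

open MeasureTheory Set Filter Measure Manifold Bundle
open scoped ContDiff Topology ENNReal NNReal

noncomputable section

namespace Pool.Agent.FPX.SQP

open Pool.Agent.FPX Pool.Agent.EWD Pool.Agent.H74.FAC
open Pool.Agent.FPX.SQM Pool.Agent.FPX.SQN Pool.Agent.FPX.ALX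

section

variable {M : Type} [MetricSpace M] [ChartedSpace HP M] [IsManifold (𝓡∂ 2) ∞ M] [CompactSpace M]
  [RiemannianBundle (fun x : M => TangentSpace (𝓡∂ 2) x)]
  [IsContMDiffRiemannianBundle (𝓡∂ 2) ∞ E2 (fun x : M => TangentSpace (𝓡∂ 2) x)]
  [IsRiemannianManifold (𝓡∂ 2) M]

/-- bound for the area of one surface -/
theorem area_of_calc {T : ℝ} (hT : 0 < T)
    (H : ∀ (N : Type) [MetricSpace N] [CompactSpace N] (γ : ℝ → N) (C : Calc N γ), Bd γ → 2 * Real.pi ≤ T * C.vol)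
    (ho : Orientable M) {φ : S1 → M} (hφ : IsometricFilling φ) :
    ENNReal.ofReal (2 * Real.pi / T) ≤ area M := by
  obtain ⟨A⟩ := exists_cov ho
  have : Nonempty M := ⟨φ 0⟩
  refine le_trans (ENNReal.ofReal_le_ofReal ?_) (cal_vol_le A hφ)
  rw [div_le_iff₀ hT, mul_comm _ T]
  exact H M _ (cal A hφ) (bd_gam hφ)

end

open Pool.Agent.H74.Surf in
/-- **the same with the statement of the hand-in** -/
theorem surf_of_calc {T : ℝ} (hT : 0 < T)
    (H : ∀ (N : Type) [MetricSpace N] [CompactSpace N] (γ : ℝ → N) (C : Calc N γ), Bd γ → 2 * Real.pi ≤ T * C.vol)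
    (M : Type) [MetricSpace M] [CompactSpace M] [ChartedSpace (EuclideanHalfSpace 2) M]
    [RiemannianSpace (𝓡∂ 2) M] (horient : H74.Surf.Orientable (𝓡∂ 2) M)
    (φ : H74.Surf.S1 → M) (hφ : H74.Surf.IsometricFilling (𝓡∂ 2) φ) :
    ENNReal.ofReal (2 * Real.pi / T) ≤ H74.Surf.area M :=
  letI R : RiemannianSpace (𝓡∂ 2) M := inferInstance
  letI := R.smooth
  letI := R.metric
  letI := R.smoothMetric
  letI := R.dist_eq
  area_of_calc (M := M) hT H horient (φ := φ) ⟨hφ.dist_eq, hφ.range_eq⟩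

open Pool.Agent.H74.Surf in
/-- **surfaces, from the hermitian form over the class `St 1`** -/
theorem surf_St {T : ℝ} (hT : 0 < T)
    (H : ∀ X : ℝ → ℝ, St 1 X → ∃ b1 : ℝ, ∃ b2 : ℂ, ∀ u v : ℂ, 0 ≤ HF T (mS X) b1 b2 (mG X) (mY X) u v)
    (M : Type) [MetricSpace M] [CompactSpace M] [ChartedSpace (EuclideanHalfSpace 2) M]
    [RiemannianSpace (𝓡∂ 2) M] (horient : H74.Surf.Orientable (𝓡∂ 2) M)
    (φ : H74.Surf.S1 → M) (hφ : H74.Surf.IsometricFilling (𝓡∂ 2) φ) :
    ENNReal.ofReal (2 * Real.pi / T) ≤ H74.Surf.area M :=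
  surf_of_calc hT (fun N _ _ γ C hγ => area_St hT H N γ C hγ) M horient φ hφ

end Pool.Agent.FPX.SQP
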