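import Mathlib
import Pool.Agent.FPX.SQP
import Pool.Agent.FPX.PTF

/-
SQO (helper88): the class inequality is only needed for the functions of `St 1` with `|X| ≤ 0.62`
(the pointwise bound of the states, PTF), and for the states themselves with their own latitude.
-/

open MeasureTheory Set Filter Topology Manifold
open scoped ENNReal NNReal ContDiff ComplexConjugate

noncomputable section

namespace Pool.Agent.FPX.SQO

open Pool.Agent.FPX Pool.Agent.FPX.UMP Pool.Agent.FPX.UMQ Pool.Agent.FPX.UXA Pool.Agent.EWD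
open Pool.Agent.FPX.F54 (X1 X2 X_lt X_G1 X_G2)
open Pool.Agent.FPX.CERQ (xT Er sr)
open Pool.Agent.FPX.SQA Pool.Agent.FPX.SQM Pool.Agent.FPX.SQN Pool.Agent.FPX.ALX Pool.Agent.FPX.ALY

variable {f : ℝ → ℝ}

/-- the pointwise bound of the states in the visual angle -/
theorem Xa_le (hf : Ef f) (h0 : 0 ≤ X1 f) (h2 : X2 f = 0) (a : ℝ) :
    |Xa (X1 f) f a| ≤ 0.62 * X1 f := by
  have h1 := s_lt hf h0 h2
  have e1 := X_G1 hf
  have e2 := X_G2 hf
  rw [h2] at e1 e2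
  exact PTF.x_le h0 h1 hf e1 e2 (tA (X1 f) a)

/-- **the area bound from the hermitian form over the bounded functions of `St 1`** -/
theorem area_Sb {T : ℝ} (hT : 0 < T)
    (H : ∀ X : ℝ → ℝ, St 1 X → (∀ a, |X a| ≤ 0.62) → ∃ b1 : ℝ, ∃ b2 : ℂ,
      ∀ u v : ℂ, 0 ≤ HF T (mS X) b1 b2 (mG X) (mY X) u v)
    (M : Type) [MetricSpace M] [CompactSpace M] (γ : ℝ → M) (C : Calc M γ) (hγ : Bd γ) :
    2 * Real.pi ≤ T * C.vol := by
  refine area_H hT (fun f hf h1 h2 => ?_) M γ C hγ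
  rw [MX_eq hf h1 h2, sr_mG hf h1 h2, YX_eq hf h1 h2]
  have hs := s_lt hf h1 h2
  refine H _ ((st hf h1 h2).mono h1 hs.le le_rfl) fun a => (Xa_le hf h1 h2 a).trans ?_
  linarith

open Pool.Agent.H74.Surf in
/-- **surfaces** -/
theorem surf_Sb {T : ℝ} (hT : 0 < T)
    (H : ∀ X : ℝ → ℝ, St 1 X → (∀ a, |X a| ≤ 0.62) → ∃ b1 : ℝ, ∃ b2 : ℂ,
      ∀ u v : ℂ, 0 ≤ HF T (mS X) b1 b2 (mG X) (mY X) u v)
    (M : Type) [MetricSpace M] [CompactSpace M] [ChartedSpace (EuclideanHalfSpace 2) M]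
    [RiemannianSpace (𝓡∂ 2) M] (horient : H74.Surf.Orientable (𝓡∂ 2) M)
    (φ : H74.Surf.S1 → M) (hφ : H74.Surf.IsometricFilling (𝓡∂ 2) φ) :
    ENNReal.ofReal (2 * Real.pi / T) ≤ H74.Surf.area M :=
  SQP.surf_of_calc hT (fun N _ _ γ C hγ => area_Sb hT H N γ C hγ) M horient φ hφ

end Pool.Agent.FPX.SQO
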