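import Pool.Agent.FPX.NOQ
import Pool.Agent.FPX.NOT
import Pool.Agent.FPX.SQD
import Pool.Agent.FPX.SQO

/-
NOR (helper39): the moments of a state against rational forms, with all numerical checks as Booleans; the
squares of the errors of the linear moments; the pilot as a finite dimensional statement with rational forms.
-/

open MeasureTheory Set Filter Topology Manifold
open scoped ComplexConjugate ENNReal NNReal ContDiff

noncomputable section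

namespace Pool.Agent.FPX.NOD

open Pool.Agent.FPX.ALX (St)
open Pool.Agent.FPX.NOT (Gq chkF)
open Pool.Agent.FPX.SQD (ph cont_ph norm_ph ph_odd ph_even mean_lin mean_sq)
open Pool.Agent.FPX.SQM Pool.Agent.FPX.SQN Pool.Agent.FPX.SQC

/-- real parts -/
def gre (g : ℕ → Fin 4 → Gq) (i : ℕ) (j : Fin 4) : ℚ := (g i j).re

/-- imaginary parts -/
def gim (g : ℕ → Fin 4 → Gq) (i : ℕ) (j : Fin 4) : ℚ := (g i j).im

theorem cc_toC (g : ℕ → Fin 4 → Gq) (i : ℕ) :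
    NOT.cc (g i 0) (g i 1) (g i 2) (g i 3) = toC (gre g i) (gim g i) := by
  funext j
  fin_cases j <;> (apply Complex.ext <;> simp [NOT.cc, toC, Gq.toC, gre, gim])

/-- the check of the trigonometric data of the harmonic `m` -/
def FnOk (m N : ℕ) (r : ℕ → ℚ) (g : ℕ → Fin 4 → Gq) (η : ℚ) : Prop :=
  ∀ i < N, chkF m (r i) (r (i + 1)) (g i 0) (g i 1) (g i 2) (g i 3) η = true

theorem fn_ok {m N : ℕ} {r : ℕ → ℚ} {g : ℕ → Fin 4 → Gq} {η : ℚ} (h : FnOk m N r g η) :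
    ∀ i < N, ∀ v, 0 ≤ v → v ≤ 1 → ‖ph m (pt (rR r) i v) - Fp (toC (gre g i) (gim g i)) v‖ ≤ η := by
  intro i hi v h0 h1
  rw [← cc_toC]
  exact NOT.chkF_pt (h i hi) (R := rR r) rfl rfl h0 h1

/-- the geometric data of the cells; `Hp`, `Lq` bound the increments -/
structure Geo (s' : ℝ) (N : ℕ) (r : ℕ → ℚ) (k : ℕ → Kd) (C : ℕ → CQ) (Hp Lq : ℕ → ℚ) (xm : ℚ) : Prop where
  grid : Grid N (rR r)
  cell : ∀ i < N, CellOk s' (rR r) i (k i) (cR C i)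
  hp : ∀ i < N, 2 * xm ≤ Hp i ∨ ∃ H' : ℝ, Maj s' (rR r) i (Hp i) H'
  hq : ∀ i < N, 2 * xm ≤ Lq i ∨ ∃ L' : ℝ, Mnj s' (rR r) i (Lq i) L'

section state

variable {s s' : ℝ} {X : ℝ → ℝ} (hX : St s X) (h0 : 0 ≤ s) (hs : s ≤ s') (hs0 : 0 < s') (h1 : s' ≤ 1)
  {N : ℕ} {r : ℕ → ℚ} {k : ℕ → Kd} {C : ℕ → CQ} {Hp Lq : ℕ → ℚ} {xm : ℚ}
  (G : Geo s' N r k C Hp Lq xm) (hb : ∀ a, |X a| ≤ xm)

include hX h0 hs hs0 h1 G hb

theorem dn_le {i : ℕ} (hi : i < N) : xn (rR r) X (i + 1) - xn (rR r) X i ≤ Hp i := by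
  rcases G.hp i hi with h | ⟨H', h⟩
  · have a1 := abs_le.1 (hb (Real.pi * rR r (i + 1)))
    have a2 := abs_le.1 (hb (Real.pi * rR r i))
    have h' : (2 : ℝ) * xm ≤ Hp i := by exact_mod_cast h
    unfold xn
    linarith
  · have := hup_of hX h0 hs hs0 h1 (G.grid.inc i hi) h 0 1 le_rfl zero_le_one le_rfl
    rw [pt_zero, pt_one] at this
    refine this.trans (le_of_eq ?_)
    unfold PH
    ring

theorem le_dn {i : ℕ} (hi : i < N) : -(Lq i : ℝ) ≤ xn (rR r) X (i + 1) - xn (rR r) X i := by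
  rcases G.hq i hi with h | ⟨L', h⟩
  · have a1 := abs_le.1 (hb (Real.pi * rR r (i + 1)))
    have a2 := abs_le.1 (hb (Real.pi * rR r i))
    have h' : (2 : ℝ) * xm ≤ Lq i := by exact_mod_cast h
    unfold xn
    linarith
  · have := hlo_of hX h0 hs hs0 h1 (G.grid.inc i hi) h 0 1 le_rfl zero_le_one le_rfl
    rw [pt_zero, pt_one] at this
    refine le_trans (le_of_eq ?_) this
    unfold PH
    ring

omit h0 hs hs0 h1 hb in
theorem x_last : xn (rR r) X N = -xn (rR r) X 0 := xn_last hX G.grid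

omit hb in
theorem ce_nonneg {i : ℕ} (hi : i < N) :
    0 ≤ ce (k i) (cR C i) (xn (rR r) X (i + 1) - xn (rR r) X i) :=
  (abs_nonneg _).trans ((cell_le hX h0 hs hs0 h1 (G.grid.inc i hi) (G.cell i hi)).2.2 0 le_rfl zero_le_one)

omit hX h0 hs hs0 h1 in
theorem ce_le_eb' {eb : ℕ → ℚ} (heb : ∀ i < N, ebOk (k i) (C i) xm (eb i) = true) {i : ℕ} (hi : i < N) :
    ce (k i) (cR C i) (xn (rR r) X (i + 1) - xn (rR r) X i) ≤ (eb i : ℝ) := by
  refine ce_le_eb (heb i hi) (fun hk => ?_) ?_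
  · have := G.cell i hi
    rw [hk] at this
    have h3 : (0 : ℝ) < ((C i).H : ℝ) + ((C i).L : ℝ) := this.1
    exact_mod_cast h3
  · have e1 := abs_le.1 (hb (Real.pi * rR r (i + 1)))
    have e2 := abs_le.1 (hb (Real.pi * rR r i))
    unfold xn
    rw [abs_le]
    constructor <;> linarith

/-- **quadratic moments** -/
theorem q_form {m : ℕ} (hm : Even m) {g : ℕ → Fin 4 → Gq} {η : ℚ} (hF : FnOk m N r g η)
    {zR zI zE : ℕ → P6} {t ηm ε : ℚ} (hηm : η ≤ ηm) {eb : ℕ → ℚ}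
    (heb : ∀ i < N, ebOk (k i) (C i) xm (eb i) = true)
    (hR : ∀ i < N, ((QFP (gre g i) (k i) (C i)).smul (r (i + 1) - r i)).near (zR i) t = true)
    (hI : ∀ i < N, ((QFP (gim g i) (k i) (C i)).smul (r (i + 1) - r i)).near (zI i) t = true)
    (hE : ∀ i < N, ((ceP (k i) (C i)).smul ((r (i + 1) - r i) * ((1 + ηm) * (2 * xm + eb i)))).near (zE i) t = true)
    (hε : η * xm ^ 2 + 3 * (N * (t * (1 + 2 * xm + 3 * xm ^ 2))) ≤ ε) :
    ‖(⟨QST.mn fun a => X a ^ 2 * Real.cos (m * a), QST.mn fun a => X a ^ 2 * Real.sin (m * a)⟩ : ℂ)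
      - ((fz N zR (xn (rR r) X) : ℝ) + (fz N zI (xn (rR r) X) : ℝ) * Complex.I)‖
      ≤ fz N zE (xn (rR r) X) + ε := by
  have k1 := quad_form hX h0 hs hs0 h1 G.grid G.cell hb (cont_ph m) (norm_ph m) (fun a => ph_even hm a)
    (fn_ok hF) hηm heb hR hI hE hε
  rwa [mean_sq hX.cont] at k1

/-- **linear moments** -/
theorem l_form {m : ℕ} (hm : Odd m) {g : ℕ → Fin 4 → Gq} {η : ℚ} (hF : FnOk m N r g η)
    {zR zI zE : ℕ → P6} {t ηm ε : ℚ} (hηm : η ≤ ηm)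
    (hR : ∀ i < N, (((LFA (gre g i) (k i) (C i)).smul (r (i + 1) - r i)).to6).near (zR i) t = true)
    (hI : ∀ i < N, (((LFA (gim g i) (k i) (C i)).smul (r (i + 1) - r i)).to6).near (zI i) t = true)
    (hE : ∀ i < N, ((ceP (k i) (C i)).smul ((r (i + 1) - r i) * (1 + ηm))).near (zE i) t = true)
    (hε : η * xm + 3 * (N * (t * (1 + 2 * xm + 3 * xm ^ 2))) ≤ ε) :
    ‖(⟨QST.mn fun a => X a * Real.cos (m * a), QST.mn fun a => X a * Real.sin (m * a)⟩ : ℂ)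
      - ((fz N zR (xn (rR r) X) : ℝ) + (fz N zI (xn (rR r) X) : ℝ) * Complex.I)‖
      ≤ fz N zE (xn (rR r) X) + ε := by
  have k1 := lin_form hX h0 hs hs0 h1 G.grid G.cell hb (cont_ph m) (norm_ph m) (fun a => ph_odd hm a)
    (fn_ok hF) hηm hR hI hE hε
  rwa [mean_lin hX.cont] at k1

/-- **linear moments, squared error** (Cauchy) -/
theorem l_sq {m : ℕ} (hm : Odd m) {g : ℕ → Fin 4 → Gq} {η : ℚ} (hF : FnOk m N r g η)
    {zR zI zL : ℕ → P6} {t ηm ε0 EB ε : ℚ} (hη0 : 0 ≤ η) (hηm : η ≤ ηm) {eb : ℕ → ℚ}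
    (heb : ∀ i < N, ebOk (k i) (C i) xm (eb i) = true) (hEB : ∀ i < N, eb i ≤ EB)
    (hR : ∀ i < N, (((LFA (gre g i) (k i) (C i)).smul (r (i + 1) - r i)).to6).near (zR i) t = true)
    (hI : ∀ i < N, (((LFA (gim g i) (k i) (C i)).smul (r (i + 1) - r i)).to6).near (zI i) t = true)
    (hL : ∀ i < N, ((ceP (k i) (C i)).smul ((r (i + 1) - r i) * ((1 + ηm) ^ 2 * eb i))).near (zL i) t = true)
    (hε0 : η * xm + 2 * (N * (t * (1 + 2 * xm + 3 * xm ^ 2))) ≤ ε0)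
    (hε : 2 * ε0 * ((1 + ηm) * EB) + ε0 ^ 2 + N * (t * (1 + 2 * xm + 3 * xm ^ 2)) ≤ ε) :
    ‖(⟨QST.mn fun a => X a * Real.cos (m * a), QST.mn fun a => X a * Real.sin (m * a)⟩ : ℂ)
      - ((fz N zR (xn (rR r) X) : ℝ) + (fz N zI (xn (rR r) X) : ℝ) * Complex.I)‖ ^ 2
      ≤ fz N zL (xn (rR r) X) + ε := by
  have hxb : ∀ i, |xn (rR r) X i| ≤ (xm : ℝ) := fun i => hb _
  have hxm : (0 : ℝ) ≤ xm := (abs_nonneg _).trans (hb 0)
  have k1 := st_lin hX h0 hs hs0 h1 G.grid G.cell (xm := xm) hb (cont_ph m) (norm_ph m)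
    (c := fun i => toC (gre g i) (gim g i)) (η := fun _ => (η : ℝ)) (fn_ok hF) (fun a => ph_odd hm a)
  rw [Ln_form, mean_lin hX.cont] at k1
  have k2 := near_sum hR hxb
  have k3 := near_sum hI hxb
  have k4 := near_sum hL hxb
  have hc0 : ∀ i < N, 0 ≤ ce (k i) (cR C i) (xn (rR r) X (i + 1) - xn (rR r) X i) := fun i hi =>
    ce_nonneg hX h0 hs hs0 h1 G hi
  have hce : ∀ i < N, ce (k i) (cR C i) (xn (rR r) X (i + 1) - xn (rR r) X i) ≤ (eb i : ℝ) := fun i hi =>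
    ce_le_eb' G hb heb hi
  have hD : ∀ i < N, 0 ≤ rR r (i + 1) - rR r i := fun i hi => (sub_pos.2 (G.grid.inc i hi)).le
  have hη0' : (0 : ℝ) ≤ η := by exact_mod_cast hη0
  have hηm' : (η : ℝ) ≤ ηm := by exact_mod_cast hηm
  -- the sum
  obtain ⟨E, hE⟩ : ∃ E : ℝ, E = ∑ i ∈ Finset.range N, (rR r (i + 1) - rR r i)
    * ((1 + η) * ce (k i) (cR C i) (xn (rR r) X (i + 1) - xn (rR r) X i)) := ⟨_, rfl⟩
  have e0 : ∑ i ∈ Finset.range N, (rR r (i + 1) - rR r i)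
        * ((η : ℝ) * xm + (1 + η) * ce (k i) (cR C i) (xn (rR r) X (i + 1) - xn (rR r) X i))
        = η * xm + E := by
    rw [hE]
    simp only [mul_add (rR r _ - rR r _)]
    rw [Finset.sum_add_distrib, ← Finset.sum_mul, sum_len G.grid, one_mul]
  rw [e0] at k1
  have E0 : 0 ≤ E := by
    rw [hE]
    exact Finset.sum_nonneg fun i hi => mul_nonneg (hD i (Finset.mem_range.1 hi))
      (mul_nonneg (by linarith) (hc0 i (Finset.mem_range.1 hi)))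
  have E1 : E ≤ (1 + ηm) * EB := by
    rw [hE]
    have : ∀ i ∈ Finset.range N, (rR r (i + 1) - rR r i)
        * ((1 + η) * ce (k i) (cR C i) (xn (rR r) X (i + 1) - xn (rR r) X i))
        ≤ (rR r (i + 1) - rR r i) * ((1 + ηm) * EB) := fun i hi => by
      have hiN := Finset.mem_range.1 hi
      refine mul_le_mul_of_nonneg_left ?_ (hD i hiN)
      have h5 : (eb i : ℝ) ≤ EB := by exact_mod_cast hEB i hiN
      exact mul_le_mul (by linarith) ((hce i hiN).trans h5) (hc0 i hiN) (by linarith)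
    refine (Finset.sum_le_sum this).trans (le_of_eq ?_)
    rw [← Finset.sum_mul, sum_len G.grid, one_mul]
  have E2 : E ^ 2 ≤ fz N (fun i => (ceP (k i) (C i)).smul ((r (i + 1) - r i) * ((1 + ηm) ^ 2 * eb i)))
      (xn (rR r) X) := by
    have c1 : E ^ 2 ≤ (∑ i ∈ Finset.range N, (rR r (i + 1) - rR r i))
        * ∑ i ∈ Finset.range N, (rR r (i + 1) - rR r i)
          * ((1 + η) * ce (k i) (cR C i) (xn (rR r) X (i + 1) - xn (rR r) X i)) ^ 2 := by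
      rw [hE]
      refine Finset.sum_sq_le_sum_mul_sum_of_sq_le_mul _ (fun i hi => hD i (Finset.mem_range.1 hi))
        (fun i hi => mul_nonneg (hD i (Finset.mem_range.1 hi)) (sq_nonneg _)) fun i _ => le_of_eq ?_
      ring
    rw [sum_len G.grid, one_mul] at c1
    refine c1.trans (Finset.sum_le_sum fun i hi => ?_)
    have hiN := Finset.mem_range.1 hi
    rw [P6.ev_smul, ev_ce]
    push_cast
    show (rR r (i + 1) - rR r i) * ((1 + η) * ce (k i) (cR C i) _) ^ 2 ≤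
      (rR r (i + 1) - rR r i) * ((1 + ηm) ^ 2 * eb i) * ce (k i) (cR C i) _
    rw [mul_assoc]
    refine mul_le_mul_of_nonneg_left ?_ (hD i hiN)
    rw [mul_pow, mul_assoc]
    have h7 := hc0 i hiN
    have h8 := hce i hiN
    refine mul_le_mul (pow_le_pow_left₀ (by linarith) (by linarith) 2) ?_ (sq_nonneg _) (sq_nonneg _)
    rw [sq]
    exact mul_le_mul_of_nonneg_right h8 h7
  have hε0' : (η : ℝ) * xm + 2 * (N * (t * (1 + 2 * xm + 3 * xm ^ 2))) ≤ ε0 := by exact_mod_cast hε0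
  have hε' : 2 * (ε0 : ℝ) * ((1 + ηm) * EB) + ε0 ^ 2 + N * (t * (1 + 2 * xm + 3 * xm ^ 2)) ≤ ε := by
    exact_mod_cast hε
  set A : ℂ := ⟨QST.mn fun a => X a * Real.cos (m * a), QST.mn fun a => X a * Real.sin (m * a)⟩ with hA
  set PR := fz N (fun i => ((LFA (gre g i) (k i) (C i)).smul (r (i + 1) - r i)).to6) (xn (rR r) X)
  set PI := fz N (fun i => ((LFA (gim g i) (k i) (C i)).smul (r (i + 1) - r i)).to6) (xn (rR r) X)
  set QR := fz N zR (xn (rR r) X)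
  set QI := fz N zI (xn (rR r) X)
  have e2 : A - ((QR : ℂ) + (QI : ℂ) * Complex.I) = (A - ((PR : ℂ) + (PI : ℂ) * Complex.I))
      + (((PR - QR : ℝ) : ℂ) + ((PI - QI : ℝ) : ℂ) * Complex.I) := by
    push_cast
    ring
  have e3 : ‖((PR - QR : ℝ) : ℂ) + ((PI - QI : ℝ) : ℂ) * Complex.I‖ ≤ |PR - QR| + |PI - QI| := by
    refine (norm_add_le _ _).trans ?_
    rw [norm_mul, Complex.norm_I, mul_one, Complex.norm_real, Complex.norm_real]
    rfl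
  have e5 : ‖A - ((QR : ℂ) + (QI : ℂ) * Complex.I)‖ ≤ E + ε0 := by
    rw [e2]
    refine (norm_add_le _ _).trans ?_
    linarith
  have e6 := pow_le_pow_left₀ (norm_nonneg _) e5 2
  refine e6.trans ?_
  have e7 := (abs_le.1 k4).2
  have hε00 : (0 : ℝ) ≤ ε0 := by
    have : 0 ≤ |PR - QR| := abs_nonneg _
    have : (0 : ℝ) ≤ η * xm := mul_nonneg hη0' hxm
    linarith
  nlinarith [mul_le_mul_of_nonneg_left E1 hε00]

end state

/-! ### the pilot -/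

/-- the data of the pilot -/
structure PD where
  N : ℕ
  r : ℕ → ℚ
  k : ℕ → Kd
  C : ℕ → CQ
  Hp : ℕ → ℚ
  Lq : ℕ → ℚ
  eb : ℕ → ℚ
  g1 : ℕ → Fin 4 → Gq
  g3 : ℕ → Fin 4 → Gq
  g4 : ℕ → Fin 4 → Gq
  zS : ℕ → P6
  z1R : ℕ → P6
  z1I : ℕ → P6
  z3R : ℕ → P6
  z3I : ℕ → P6
  z4R : ℕ → P6
  z4I : ℕ → P6
  zE : ℕ → P6
  zL : ℕ → P6
  η : ℚ
  t : ℚ
  ε0 : ℚ
  EB : ℚ
  ε : ℚ

/-- the unit harmonic -/
def g0 (_ : ℕ) (j : Fin 4) : Gq := ⟨if j = 0 then 1 else 0, 0⟩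

/-- the checks -/
structure PD.Ok (D : PD) : Prop where
  geo : Geo 1 D.N D.r D.k D.C D.Hp D.Lq (31 / 50)
  f1 : FnOk 1 D.N D.r D.g1 D.η
  f3 : FnOk 3 D.N D.r D.g3 D.η
  f4 : FnOk 4 D.N D.r D.g4 D.η
  η0 : 0 ≤ D.η
  heb : ∀ i < D.N, ebOk (D.k i) (D.C i) (31 / 50) (D.eb i) = true
  hEB : ∀ i < D.N, D.eb i ≤ D.EB
  nS : ∀ i < D.N, ((QFP (gre g0 i) (D.k i) (D.C i)).smul (D.r (i + 1) - D.r i)).near (D.zS i) D.t = true
  n1R : ∀ i < D.N, (((LFA (gre D.g1 i) (D.k i) (D.C i)).smul (D.r (i + 1) - D.r i)).to6).near (D.z1R i) D.t = true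
  n1I : ∀ i < D.N, (((LFA (gim D.g1 i) (D.k i) (D.C i)).smul (D.r (i + 1) - D.r i)).to6).near (D.z1I i) D.t = true
  n3R : ∀ i < D.N, (((LFA (gre D.g3 i) (D.k i) (D.C i)).smul (D.r (i + 1) - D.r i)).to6).near (D.z3R i) D.t = true
  n3I : ∀ i < D.N, (((LFA (gim D.g3 i) (D.k i) (D.C i)).smul (D.r (i + 1) - D.r i)).to6).near (D.z3I i) D.t = true
  n4R : ∀ i < D.N, ((QFP (gre D.g4 i) (D.k i) (D.C i)).smul (D.r (i + 1) - D.r i)).near (D.z4R i) D.t = true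
  n4I : ∀ i < D.N, ((QFP (gim D.g4 i) (D.k i) (D.C i)).smul (D.r (i + 1) - D.r i)).near (D.z4I i) D.t = true
  nE : ∀ i < D.N, ((ceP (D.k i) (D.C i)).smul ((D.r (i + 1) - D.r i) * ((1 + D.η) * (2 * (31 / 50) + D.eb i)))).near
    (D.zE i) D.t = true
  nL : ∀ i < D.N, ((ceP (D.k i) (D.C i)).smul ((D.r (i + 1) - D.r i) * ((1 + D.η) ^ 2 * D.eb i))).near
    (D.zL i) D.t = true
  hε1 : D.η * (31 / 50) ^ 2 + 3 * (D.N * (D.t * (1 + 2 * (31 / 50) + 3 * (31 / 50) ^ 2))) ≤ D.ε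
  hε0 : D.η * (31 / 50) + 2 * (D.N * (D.t * (1 + 2 * (31 / 50) + 3 * (31 / 50) ^ 2))) ≤ D.ε0
  hε : 2 * D.ε0 * ((1 + D.η) * D.EB) + D.ε0 ^ 2 + D.N * (D.t * (1 + 2 * (31 / 50) + 3 * (31 / 50) ^ 2)) ≤ D.ε

/-- the complex number of two forms -/
def fc (N : ℕ) (zR zI : ℕ → P6) (x : ℕ → ℝ) : ℂ := (fz N zR x : ℝ) + (fz N zI x : ℝ) * Complex.I

/-- admissible node values -/
structure PD.Adm (D : PD) (x : ℕ → ℝ) : Prop where
  last : x D.N = -x 0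
  p : ∀ i < D.N, x (i + 1) - x i ≤ D.Hp i
  q : ∀ i < D.N, -(D.Lq i : ℝ) ≤ x (i + 1) - x i
  bd : ∀ i, |x i| ≤ 31 / 50
  one : ‖fc D.N D.z1R D.z1I x‖ ^ 2 ≤ fz D.N D.zL x + D.ε

/-- the form -/
def PD.form (D : PD) (T b1 be th tt : ℝ) (x : ℕ → ℝ) (u v : ℂ) : ℝ :=
  AF T b1 be th (fz D.N D.zS x)
    (9 / (16 * T) * (fz D.N D.zE x + D.ε) + 9 / (16 * T) / tt * (fz D.N D.zE x + D.ε)
      + k2 T be * (1 / th - 1) * (9 / 4 * (fz D.N D.zL x + D.ε)))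
    (9 / (16 * T) * (fz D.N D.zE x + D.ε) + 9 / (16 * T) * tt * (fz D.N D.zE x + D.ε))
    (-(3 / 2) * fc D.N D.z3R D.z3I x) (fc D.N D.z4R D.z4I x) u v

/-- **the finite dimensional statement** -/
def PD.Cert (D : PD) (T b1 be th tt : ℝ) : Prop :=
  ∀ x : ℕ → ℝ, D.Adm x → ∀ u v : ℂ, 0 ≤ D.form T b1 be th tt x u v

section pilot

variable {X : ℝ → ℝ} (hX : St 1 X) (hb : ∀ a, |X a| ≤ 0.62) {D : PD} (hD : D.Ok)

include hX hb hD

theorem side_S : |mS X - fz D.N D.zS (xn (rR D.r) X)| ≤ fz D.N D.zE (xn (rR D.r) X) + D.ε := by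
  have hb' : ∀ a, |X a| ≤ ((31 / 50 : ℚ) : ℝ) := fun a => (hb a).trans (by norm_num)
  have hF : ∀ i < D.N, ∀ v, 0 ≤ v → v ≤ 1 → ‖ph 0 (pt (rR D.r) i v) - Fp (toC (gre g0 i) (gim g0 i)) v‖
      ≤ ((0 : ℚ) : ℝ) := by
    intro i _ v _ _
    unfold Fp ph toC gre gim g0
    simp
  have hI : ∀ i < D.N, ((QFP (gim g0 i) (D.k i) (D.C i)).smul (D.r (i + 1) - D.r i)).near
      ((QFP (gim g0 i) (D.k i) (D.C i)).smul (D.r (i + 1) - D.r i)) D.t = true := by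
    intro i hi
    have h := hD.nS i hi
    unfold P6.near at h ⊢
    simp only [Bool.and_eq_true, decide_eq_true_eq, sub_self, abs_zero] at h ⊢
    have : 0 ≤ D.t := (abs_nonneg _).trans h.2
    exact ⟨⟨⟨⟨⟨this, this⟩, this⟩, this⟩, this⟩, this⟩
  have hε : (0 : ℚ) * (31 / 50) ^ 2 + 3 * (D.N * (D.t * (1 + 2 * (31 / 50) + 3 * (31 / 50) ^ 2))) ≤ D.ε := by
    have := hD.hε1
    have := hD.η0
    nlinarith
  have k1 := quad_form hX zero_le_one le_rfl one_pos le_rfl hD.geo.grid hD.geo.cell hb' (cont_ph 0) (norm_ph 0)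
    (fun a => ph_even (by decide) a) hF hD.η0 hD.heb hD.nS hI hD.nE hε
  rw [mean_sq hX.cont] at k1
  have e2 : (⟨QST.mn fun a => X a ^ 2 * Real.cos ((0 : ℕ) * a), QST.mn fun a => X a ^ 2 * Real.sin ((0 : ℕ) * a)⟩ : ℂ)
      = ((mS X : ℝ) : ℂ) := by
    unfold mS
    apply Complex.ext
    · simp
    · simp [QST.mn]
  have e3 := (Complex.abs_re_le_norm _).trans k1
  rw [e2] at e3
  simpa using e3

theorem side_Y : ‖mY X - fc D.N D.z4R D.z4I (xn (rR D.r) X)‖ ≤ fz D.N D.zE (xn (rR D.r) X) + D.ε := by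
  have hb' : ∀ a, |X a| ≤ ((31 / 50 : ℚ) : ℝ) := fun a => (hb a).trans (by norm_num)
  exact q_form hX zero_le_one le_rfl one_pos le_rfl hD.geo hb' (by decide) hD.f4 le_rfl hD.heb hD.n4R hD.n4I
    hD.nE hD.hε1

theorem side_G : ‖mG X - -(3 / 2) * fc D.N D.z3R D.z3I (xn (rR D.r) X)‖ ^ 2
    ≤ 9 / 4 * (fz D.N D.zL (xn (rR D.r) X) + D.ε) := by
  have hb' : ∀ a, |X a| ≤ ((31 / 50 : ℚ) : ℝ) := fun a => (hb a).trans (by norm_num)
  have k1 := l_sq hX zero_le_one le_rfl one_pos le_rfl hD.geo hb' (m := 3) (by decide) hD.f3 hD.η0 le_rfl hD.heb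
    hD.hEB hD.n3R hD.n3I hD.nL hD.hε0 hD.hε
  have e1 : mG X - -(3 / 2) * fc D.N D.z3R D.z3I (xn (rR D.r) X)
      = -(3 / 2 : ℂ) * (⟨QST.mn fun a => X a * Real.cos ((3 : ℕ) * a),
      QST.mn fun a => X a * Real.sin ((3 : ℕ) * a)⟩ - fc D.N D.z3R D.z3I (xn (rR D.r) X)) := by
    have : mG X = -(3 / 2 : ℂ) * ⟨QST.mn fun a => X a * Real.cos ((3 : ℕ) * a),
      QST.mn fun a => X a * Real.sin ((3 : ℕ) * a)⟩ := by
      unfold mG
      apply Complex.ext <;> simp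
    rw [this]
    ring
  rw [e1, norm_mul, mul_pow]
  have e2 : ‖(-(3 / 2) : ℂ)‖ ^ 2 = 9 / 4 := by
    rw [norm_neg]
    norm_num
  rw [e2]
  exact mul_le_mul_of_nonneg_left k1 (by norm_num)

theorem side_C : ‖fc D.N D.z1R D.z1I (xn (rR D.r) X)‖ ^ 2 ≤ fz D.N D.zL (xn (rR D.r) X) + D.ε := by
  have hb' : ∀ a, |X a| ≤ ((31 / 50 : ℚ) : ℝ) := fun a => (hb a).trans (by norm_num)
  have k1 := l_sq hX zero_le_one le_rfl one_pos le_rfl hD.geo hb' (m := 1) (by decide) hD.f1 hD.η0 le_rfl hD.heb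
    hD.hEB hD.n1R hD.n1I hD.nL hD.hε0 hD.hε
  have e1 : (⟨QST.mn fun a => X a * Real.cos ((1 : ℕ) * a),
      QST.mn fun a => X a * Real.sin ((1 : ℕ) * a)⟩ : ℂ) = 0 := by
    have h1 := hX.mc
    have h2 := hX.ms
    unfold QST.mn
    apply Complex.ext
    · simp [h1]
    · simp [h2]
  rw [e1, zero_sub, norm_neg] at k1
  exact k1

theorem adm : D.Adm (xn (rR D.r) X) := by
  have hb' : ∀ a, |X a| ≤ ((31 / 50 : ℚ) : ℝ) := fun a => (hb a).trans (by norm_num)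
  refine ⟨x_last hX hD.geo, fun i hi => dn_le hX zero_le_one le_rfl one_pos le_rfl hD.geo hb' hi,
    fun i hi => le_dn hX zero_le_one le_rfl one_pos le_rfl hD.geo hb' hi, fun i => (hb _).trans (by norm_num),
    side_C hX hb hD⟩

/-- the class inequality -/
theorem pilot_class {T b1 be th tt : ℝ} (hT : 0 < T) (hk : 0 < k2 T be) (hth : 0 < th) (hth1 : th ≤ 1)
    (htt : 0 < tt) (hc : D.Cert T b1 be th tt) :
    ∃ b1 : ℝ, ∃ b2 : ℂ, ∀ u v : ℂ, 0 ≤ HF T (mS X) b1 b2 (mG X) (mY X) u v :=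
  ⟨b1, be * conj (mG X), fun u v => (hc _ (adm hX hb hD) u v).trans
    (AF_le_HF hT hk hth hth1 htt (side_S hX hb hD) (side_Y hX hb hD) (side_G hX hb hD) u v)⟩

end pilot

open Pool.Agent.H74.Surf in
/-- **surfaces** -/
theorem pilot_surf {D : PD} (hD : D.Ok) {T b1 be th tt : ℝ} (hT : 0 < T) (hk : 0 < k2 T be) (hth : 0 < th)
    (hth1 : th ≤ 1) (htt : 0 < tt) (hc : D.Cert T b1 be th tt)
    (M : Type) [MetricSpace M] [CompactSpace M] [ChartedSpace (EuclideanHalfSpace 2) M]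
    [RiemannianSpace (𝓡∂ 2) M] (horient : H74.Surf.Orientable (𝓡∂ 2) M)
    (φ : H74.Surf.S1 → M) (hφ : H74.Surf.IsometricFilling (𝓡∂ 2) φ) :
    ENNReal.ofReal (2 * Real.pi / T) ≤ H74.Surf.area M :=
  SQO.surf_Sb hT (fun _ hX hb => pilot_class hX hb hD hT hk hth hth1 htt hc) M horient φ hφ

end Pool.Agent.FPX.NOD
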