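import Pool.Agent.FPX.NOE

/-
NOS (helper87): the slope majorants of the nodal cells (NOE.CellOk) by a Boolean check on rational
data: sine and cosine of the midpoint by exact Taylor sums, the quintic Taylor polynomial on the cell,
Bernstein coefficients (over `ℤ`, with subdivision) for the final polynomial of degree 6.
-/

open Finset

noncomputable section

namespace Pool.Agent.FPX.NOS

open Pool.Agent.FPX.NOD (Maj Mnj CellOk Cd Kd pt)

/-! ### nonnegative polynomials on `[0,1]` -/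

/-- value of a polynomial -/
def ev (x : ℝ) : List ℤ → ℝ
  | [] => 0
  | c :: l => c + x * ev x l

/-- sum of polynomials -/
def addl : List ℤ → List ℤ → List ℤ
  | [], l => l
  | l, [] => l
  | a :: l, b :: m => (a + b) :: addl l m

theorem ev_addl (x : ℝ) : ∀ l m : List ℤ, ev x (addl l m) = ev x l + ev x m
  | [], l => by simp [addl, ev]
  | a :: l, [] => by simp [addl, ev]
  | a :: l, b :: m => by
    simp only [addl, ev, ev_addl x l m, Int.cast_add]
    ring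

/-- `p (1/(1+t)) (1+t)^n` as a polynomial in `t` -/
def bq : List ℤ → List ℤ → List ℤ
  | acc, [] => acc
  | acc, c :: l => bq (addl [c] (addl acc (0 :: acc))) l

theorem ev_bq {x t : ℝ} (h : x * (1 + t) = 1) : ∀ (l acc : List ℤ),
    ev t (bq acc l) * x ^ l.length = ev t acc + x * ev x l
  | [], acc => by simp [bq, ev]
  | c :: l, acc => by
    have := ev_bq h l (addl [c] (addl acc (0 :: acc)))
    simp only [bq, List.length_cons, pow_succ, ← mul_assoc, this, ev_addl, ev]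
    push_cast
    linear_combination (ev t acc) * h

/-- all coefficients are nonnegative -/
def nn (l : List ℤ) : Bool := l.all fun c => decide (0 ≤ c)

theorem ev_nn {x : ℝ} (hx : 0 ≤ x) : ∀ l : List ℤ, nn l = true → 0 ≤ ev x l
  | [], _ => by simp [ev]
  | c :: l, h => by
    simp only [nn, List.all_cons, Bool.and_eq_true, decide_eq_true_eq] at h
    have h1 := ev_nn hx l h.2
    have h2 : (0 : ℝ) ≤ c := by exact_mod_cast h.1
    simp only [ev]
    positivity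

/-- twice the value on the left half, scaled -/
def hl : List ℤ → List ℤ
  | [] => []
  | c :: l => (c * 2 ^ l.length) :: hl l

theorem ev_hl (x : ℝ) : ∀ l : List ℤ, 2 * ev x (hl l) = 2 ^ l.length * ev (x / 2) l
  | [] => by simp [hl, ev]
  | c :: l => by
    have := ev_hl x l
    simp only [hl, ev, List.length_cons, pow_succ]
    push_cast
    linear_combination x * this

/-- the right half -/
def hr : List ℤ → List ℤ
  | [] => []
  | c :: l => addl [c * 2 ^ l.length] (addl (hr l) (0 :: hr l))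

theorem ev_hr (x : ℝ) : ∀ l : List ℤ, 2 * ev x (hr l) = 2 ^ l.length * ev ((1 + x) / 2) l
  | [] => by simp [hr, ev]
  | c :: l => by
    have := ev_hr x l
    simp only [hr, ev, ev_addl, List.length_cons, pow_succ]
    push_cast
    linear_combination (1 + x) * this

/-- nonnegativity on `[0,1]` with subdivisions -/
def pos : ℕ → List ℤ → Bool
  | 0, l => nn (l.take 1) && nn (bq [] l)
  | k + 1, l => (nn (l.take 1) && nn (bq [] l)) || (pos k (hl l) && pos k (hr l))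

theorem pos_zero {l : List ℤ} (h : (nn (l.take 1) && nn (bq [] l)) = true) {x : ℝ} (h0 : 0 ≤ x)
    (h1 : x ≤ 1) : 0 ≤ ev x l := by
  rw [Bool.and_eq_true] at h
  rcases eq_or_lt_of_le h0 with e | e
  · rw [← e]
    cases l with
    | nil => simp [ev]
    | cons c l =>
      have := h.1
      simp only [nn, List.take_succ_cons, List.take_zero, List.all_cons, List.all_nil, Bool.and_true,
        decide_eq_true_eq] at this
      simp only [ev, zero_mul, add_zero]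
      exact_mod_cast this
  · have ht : (0 : ℝ) ≤ (1 - x) / x := div_nonneg (by linarith) e.le
    have hx : x * (1 + (1 - x) / x) = 1 := by
      field_simp
      ring
    have h2 := ev_bq hx l []
    have h3 := ev_nn ht _ h.2
    have h4 : 0 ≤ x * ev x l := by
      have : ev ((1 - x) / x) ([] : List ℤ) = 0 := rfl
      rw [this, zero_add] at h2
      rw [← h2]
      positivity
    exact nonneg_of_mul_nonneg_right h4 e

theorem pos_sound : ∀ (k : ℕ) (l : List ℤ), pos k l = true → ∀ x : ℝ, 0 ≤ x → x ≤ 1 → 0 ≤ ev x l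
  | 0, l, h, x, h0, h1 => pos_zero h h0 h1
  | k + 1, l, h, x, h0, h1 => by
    simp only [pos] at h
    rw [Bool.or_eq_true] at h
    rcases h with h | h
    · exact pos_zero h h0 h1
    · rw [Bool.and_eq_true] at h
      rcases le_total x (1 / 2) with hx | hx
      · have h2 := pos_sound k _ h.1 (2 * x) (by linarith) (by linarith)
        have h3 := ev_hl (2 * x) l
        rw [show 2 * x / 2 = x by ring] at h3
        have : 0 ≤ (2 : ℝ) ^ l.length * ev x l := by rw [← h3]; linarith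
        exact nonneg_of_mul_nonneg_right this (by positivity)
      · have h2 := pos_sound k _ h.2 (2 * x - 1) (by linarith) (by linarith)
        have h3 := ev_hr (2 * x - 1) l
        rw [show (1 + (2 * x - 1)) / 2 = x by ring] at h3
        have : 0 ≤ (2 : ℝ) ^ l.length * ev x l := by rw [← h3]; linarith
        exact nonneg_of_mul_nonneg_right this (by positivity)

/-- value of a rational polynomial -/
def evq (x : ℝ) : List ℚ → ℝ
  | [] => 0
  | c :: l => c + x * evq x l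

/-- rounding down -/
def lz (l : List ℚ) : List ℤ := l.map fun q => (q * 2 ^ 60).floor

theorem floor_le (q : ℚ) : ((q * 2 ^ 60).floor : ℝ) ≤ (q : ℝ) * 2 ^ 60 := by
  have := Int.floor_le (q * 2 ^ 60)
  have h : ((⌊q * 2 ^ 60⌋ : ℤ) : ℝ) ≤ ((q * 2 ^ 60 : ℚ) : ℝ) := by exact_mod_cast this
  push_cast at h
  exact h

theorem ev_lz {x : ℝ} (hx : 0 ≤ x) : ∀ l : List ℚ, ev x (lz l) ≤ 2 ^ 60 * evq x l
  | [] => by simp [lz, ev, evq]
  | c :: l => by
    have h1 := ev_lz hx l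
    have h2 := floor_le c
    have h3 := mul_le_mul_of_nonneg_left h1 hx
    simp only [lz, List.map_cons, ev, evq] at h1 h3 ⊢
    linarith

/-- nonnegativity of a rational polynomial on `[0,1]` -/
theorem posq {k : ℕ} {l : List ℚ} (h : pos k (lz l) = true) {x : ℝ} (h0 : 0 ≤ x) (h1 : x ≤ 1) :
    0 ≤ evq x l := by
  have h2 := pos_sound k _ h x h0 h1
  have h3 := ev_lz h0 l
  nlinarith

/-! ### sine and cosine -/

/-- the alternating series in Horner form -/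
def cz (t : ℚ) : ℕ → ℕ → ℚ
  | 0, _ => 1
  | n + 1, k => 1 - t / ((k * (k + 1) : ℕ) : ℚ) * cz t n (k + 2)

theorem cz_eq (t : ℚ) : ∀ (n k : ℕ), 0 < k →
    ((cz t n k : ℚ) : ℝ) = ∑ j ∈ range (n + 1), (-(t : ℝ)) ^ j / (k.ascFactorial (2 * j) : ℝ)
  | 0, k, _ => by simp [cz]
  | n + 1, k, hk => by
    rw [sum_range_succ']
    simp only [cz]
    push_cast
    rw [cz_eq t n (k + 2) (by omega), mul_sum]
    simp only [pow_zero, Nat.ascFactorial_zero, Nat.cast_one, div_one]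
    rw [sub_eq_add_neg, ← sum_neg_distrib, add_comm]
    congr 1
    refine sum_congr rfl fun j _ => ?_
    have h1 : k.ascFactorial (2 * (j + 1)) = k * (k + 1) * (k + 2).ascFactorial (2 * j) := by
      rw [show 2 * (j + 1) = 2 + 2 * j by ring, ← Nat.ascFactorial_mul_ascFactorial]
      congr 1
      rw [show (2 : ℕ) = 1 + 1 from rfl, Nat.ascFactorial_succ, Nat.ascFactorial_succ, Nat.ascFactorial_zero]
      ring
    rw [h1]
    have h2 : (k : ℝ) ≠ 0 := by positivity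
    have h3 : ((k + 2).ascFactorial (2 * j) : ℝ) ≠ 0 := by
      have : 0 < (k + 2).ascFactorial (2 * j) := Nat.ascFactorial_pos (k + 1) _
      positivity
    push_cast
    field_simp
    ring

theorem exp_split (x : ℝ) (n : ℕ) :
    ∑ m ∈ range (2 * (n + 1)), ((x : ℂ) * Complex.I) ^ m / (m.factorial : ℂ) =
      ((∑ j ∈ range (n + 1), (-(x ^ 2)) ^ j / ((2 * j).factorial : ℝ) : ℝ) : ℂ) +
      ((x * ∑ j ∈ range (n + 1), (-(x ^ 2)) ^ j / ((2 * j + 1).factorial : ℝ) : ℝ) : ℂ) * Complex.I := by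
  have key : ∀ n : ℕ, ∑ m ∈ range (2 * n), ((x : ℂ) * Complex.I) ^ m / (m.factorial : ℂ) =
      ((∑ j ∈ range n, (-(x ^ 2)) ^ j / ((2 * j).factorial : ℝ) : ℝ) : ℂ) +
      ((x * ∑ j ∈ range n, (-(x ^ 2)) ^ j / ((2 * j + 1).factorial : ℝ) : ℝ) : ℂ) * Complex.I := by
    intro n
    induction n with
    | zero => simp
    | succ n ih =>
      rw [show 2 * (n + 1) = 2 * n + 1 + 1 by ring, sum_range_succ, sum_range_succ, ih,
        sum_range_succ, sum_range_succ]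
      have e1 : ((x : ℂ) * Complex.I) ^ (2 * n) = ((-(x ^ 2)) ^ n : ℝ) := by
        rw [pow_mul, mul_pow, Complex.I_sq]
        push_cast
        congr 1
        ring
      have e2 : ((x : ℂ) * Complex.I) ^ (2 * n + 1) = ((-(x ^ 2)) ^ n : ℝ) * ((x : ℂ) * Complex.I) := by
        rw [pow_succ, e1]
      rw [e2, e1]
      push_cast
      ring
  exact key (n + 1)

/-- Taylor bound for the exponential on the imaginary axis -/
theorem cs_bound (x : ℝ) (n : ℕ) (hx : |x| ≤ ((2 * (n + 1) : ℕ) : ℝ) / 2) :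
    ‖Complex.exp ((x : ℂ) * Complex.I) -
      (((∑ j ∈ range (n + 1), (-(x ^ 2)) ^ j / ((2 * j).factorial : ℝ) : ℝ) : ℂ) +
      ((x * ∑ j ∈ range (n + 1), (-(x ^ 2)) ^ j / ((2 * j + 1).factorial : ℝ) : ℝ) : ℂ) * Complex.I)‖
      ≤ |x| ^ (2 * (n + 1)) / ((2 * (n + 1)).factorial : ℝ) * 2 := by
  rw [← exp_split]
  have h0 : ‖(x : ℂ) * Complex.I‖ = |x| := by simp
  have h1 : ‖(x : ℂ) * Complex.I‖ / ((2 * (n + 1)).succ : ℝ) ≤ 1 / 2 := by
    rw [h0, div_le_div_iff₀ (by positivity) (by norm_num)]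
    push_cast at hx ⊢
    linarith
  have := Complex.exp_bound' h1
  rwa [h0] at this

theorem re_im_le {z : ℂ} {a b E : ℝ} (h : ‖z - ((a : ℂ) + (b : ℂ) * Complex.I)‖ ≤ E) :
    |z.re - a| ≤ E ∧ |z.im - b| ≤ E := by
  constructor
  · refine le_trans ?_ ((Complex.abs_re_le_norm _).trans h)
    simp
  · refine le_trans ?_ ((Complex.abs_im_le_norm _).trans h)
    simp

/-- rational approximation of `π` -/
def p0 : ℚ := 314159265358979323846 / 10 ^ 20

theorem pi_p0 : |Real.pi - (p0 : ℝ)| ≤ 1 / 10 ^ 20 := by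
  have h1 := Real.pi_gt_d20
  have h2 := Real.pi_lt_d20
  have h3 : ((p0 : ℚ) : ℝ) = 314159265358979323846 / 10 ^ 20 := by
    unfold p0
    norm_num
  rw [h3, abs_le]
  constructor <;> norm_num at * <;> linarith

/-- rounding to multiples of `2^-64` -/
def rd (q : ℚ) : ℚ := ((q * 2 ^ 64).floor : ℚ) / 2 ^ 64

theorem rd_le (q : ℚ) : |(q : ℝ) - (rd q : ℝ)| ≤ 1 / 2 ^ 64 := by
  have h1 := Int.floor_le (q * 2 ^ 64)
  have h2 := Int.lt_floor_add_one (q * 2 ^ 64)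
  have h1' : ((⌊q * 2 ^ 64⌋ : ℤ) : ℝ) ≤ (q : ℝ) * 2 ^ 64 := by exact_mod_cast h1
  have h2' : (q : ℝ) * 2 ^ 64 < (⌊q * 2 ^ 64⌋ : ℤ) + 1 := by exact_mod_cast h2
  have h3 : ((rd q : ℚ) : ℝ) = (⌊q * 2 ^ 64⌋ : ℤ) / 2 ^ 64 := by
    unfold rd
    push_cast
    rfl
  rw [h3, abs_le]
  constructor
  · rw [neg_le_sub_iff_le_add, div_le_iff₀ (by positivity)]
    have : ((q : ℝ) + 1 / 2 ^ 64) * 2 ^ 64 = q * 2 ^ 64 + 1 := by
      field_simp
    rw [this]
    linarith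
  · rw [sub_le_iff_le_add, ← sub_nonneg]
    have : 1 / 2 ^ 64 + ((⌊q * 2 ^ 64⌋ : ℤ) : ℝ) / 2 ^ 64 - (q : ℝ)
        = (1 + (⌊q * 2 ^ 64⌋ : ℤ) - q * 2 ^ 64) / 2 ^ 64 := by
      field_simp
    rw [this]
    apply div_nonneg _ (by positivity)
    linarith

/-- sine and cosine of `π ρ` -/
def s0 (ρ : ℚ) : ℚ := rd (p0 * ρ * cz (p0 * ρ * (p0 * ρ)) 13 2)

def c0 (ρ : ℚ) : ℚ := rd (cz (p0 * ρ * (p0 * ρ)) 13 1)

theorem asc_two (j : ℕ) : (2 : ℕ).ascFactorial (2 * j) = (2 * j + 1).factorial := by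
  have h1 := Nat.ascFactorial_mul_ascFactorial 1 1 (2 * j)
  rw [Nat.one_ascFactorial, Nat.one_ascFactorial, Nat.factorial_one, one_mul] at h1
  rw [show (1 : ℕ) + 1 = 2 from rfl, add_comm 1 (2 * j)] at h1
  exact h1

theorem sc_bound {ρ : ℚ} (h : |ρ| ≤ 1 / 2) :
    |Real.sin (Real.pi * ρ) - (s0 ρ : ℝ)| ≤ 1 / 10 ^ 19 ∧
    |Real.cos (Real.pi * ρ) - (c0 ρ : ℝ)| ≤ 1 / 10 ^ 19 := by
  have hρ : |(ρ : ℝ)| ≤ 1 / 2 := by
    have : ((|ρ| : ℚ) : ℝ) ≤ ((1 / 2 : ℚ) : ℝ) := by exact_mod_cast h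
    push_cast at this
    exact this
  set θ : ℝ := (p0 : ℝ) * ρ with hθ
  have hp : |Real.pi * ρ - θ| ≤ 1 / 10 ^ 20 := by
    rw [hθ, ← sub_mul, abs_mul]
    calc |Real.pi - (p0 : ℝ)| * |(ρ : ℝ)| ≤ 1 / 10 ^ 20 * 1 :=
          mul_le_mul pi_p0 (hρ.trans (by norm_num)) (abs_nonneg _) (by positivity)
      _ = 1 / 10 ^ 20 := by ring
  have hp3 : (p0 : ℝ) ≤ 32 / 10 ∧ 0 ≤ (p0 : ℝ) := by
    unfold p0
    constructor <;> norm_num
  have hθ1 : |θ| ≤ 16 / 10 := by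
    rw [hθ, abs_mul, abs_of_nonneg hp3.2]
    calc (p0 : ℝ) * |(ρ : ℝ)| ≤ 32 / 10 * (1 / 2) :=
          mul_le_mul hp3.1 hρ (abs_nonneg _) (by norm_num)
      _ = 16 / 10 := by norm_num
  have hb := cs_bound θ 13 (hθ1.trans (by norm_num))
  have hsmall : |θ| ^ (2 * (13 + 1)) / ((2 * (13 + 1)).factorial : ℝ) * 2 ≤ 1 / 10 ^ 22 := by
    have h1 : |θ| ^ (2 * (13 + 1)) ≤ (16 / 10) ^ (2 * (13 + 1)) := pow_le_pow_left₀ (abs_nonneg _) hθ1 _
    calc |θ| ^ (2 * (13 + 1)) / ((2 * (13 + 1)).factorial : ℝ) * 2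
        ≤ (16 / 10) ^ (2 * (13 + 1)) / ((2 * (13 + 1)).factorial : ℝ) * 2 := by gcongr
      _ ≤ 1 / 10 ^ 22 := by
        norm_num [Nat.factorial]
  obtain ⟨hc, hs⟩ := re_im_le (hb.trans hsmall)
  rw [Complex.exp_ofReal_mul_I_re] at hc
  rw [Complex.exp_ofReal_mul_I_im] at hs
  have e1 : ((cz (p0 * ρ * (p0 * ρ)) 13 1 : ℚ) : ℝ)
      = ∑ j ∈ range (13 + 1), (-(θ ^ 2)) ^ j / ((2 * j).factorial : ℝ) := by
    rw [cz_eq _ _ _ one_pos]
    refine sum_congr rfl fun j _ => ?_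
    rw [Nat.one_ascFactorial]
    push_cast
    rw [hθ]
    ring_nf
  have e2 : ((p0 * ρ * cz (p0 * ρ * (p0 * ρ)) 13 2 : ℚ) : ℝ)
      = θ * ∑ j ∈ range (13 + 1), (-(θ ^ 2)) ^ j / ((2 * j + 1).factorial : ℝ) := by
    push_cast
    rw [cz_eq _ _ _ two_pos, ← hθ]
    congr 1
    refine sum_congr rfl fun j _ => ?_
    rw [asc_two]
    push_cast
    rw [hθ]
    ring_nf
  rw [← e1] at hc
  rw [← e2] at hs
  have h3 := rd_le (cz (p0 * ρ * (p0 * ρ)) 13 1)
  have h4 := rd_le (p0 * ρ * cz (p0 * ρ * (p0 * ρ)) 13 2)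
  have h5 : |Real.sin (Real.pi * ρ) - Real.sin θ| ≤ 1 / 10 ^ 20 := by
    have := Real.lipschitzWith_sin.dist_le_mul (Real.pi * ρ) θ
    simp only [NNReal.coe_one, one_mul, Real.dist_eq] at this
    exact this.trans hp
  have h6 : |Real.cos (Real.pi * ρ) - Real.cos θ| ≤ 1 / 10 ^ 20 := by
    have := Real.lipschitzWith_cos.dist_le_mul (Real.pi * ρ) θ
    simp only [NNReal.coe_one, one_mul, Real.dist_eq] at this
    exact this.trans hp
  constructor
  · unfold s0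
    rw [abs_le] at *
    norm_num at *
    constructor <;> linarith
  · unfold c0
    rw [abs_le] at *
    norm_num at *
    constructor <;> linarith

/-- the sine on a cell -/
theorem sin_cell {A y x s c δ η : ℝ} (hs : |Real.sin A - s| ≤ δ) (hc : |Real.cos A - c| ≤ δ)
    (hy : |y| ≤ 1) (hxy : |x - y| ≤ η) :
    |Real.sin (A + x) - (s * (1 - y ^ 2 / 2 + y ^ 4 / 24) + c * (y - y ^ 3 / 6 + y ^ 5 / 120))|
      ≤ η + y ^ 6 / 360 + 2 * δ := by
  have h1 : |Real.sin (A + x) - Real.sin (A + y)| ≤ η := by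
    have := Real.lipschitzWith_sin.dist_le_mul (A + x) (A + y)
    simp only [NNReal.coe_one, one_mul, Real.dist_eq] at this
    refine this.trans ?_
    rw [show A + x - (A + y) = x - y by ring]
    exact hxy
  have hb := cs_bound y 2 (hy.trans (by norm_num))
  have hE : |y| ^ (2 * (2 + 1)) / ((2 * (2 + 1)).factorial : ℝ) * 2 = y ^ 6 / 360 := by
    rw [show 2 * (2 + 1) = 6 from rfl, show |y| ^ 6 = y ^ 6 from by
      rw [show (6 : ℕ) = 2 * 3 from rfl, pow_mul, sq_abs, ← pow_mul]]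
    norm_num [Nat.factorial]
    ring
  rw [hE] at hb
  have ec : (∑ j ∈ range (2 + 1), (-(y ^ 2)) ^ j / ((2 * j).factorial : ℝ)) = 1 - y ^ 2 / 2 + y ^ 4 / 24 := by
    norm_num [sum_range_succ, Nat.factorial]
    ring
  have es : y * (∑ j ∈ range (2 + 1), (-(y ^ 2)) ^ j / ((2 * j + 1).factorial : ℝ))
      = y - y ^ 3 / 6 + y ^ 5 / 120 := by
    norm_num [sum_range_succ, Nat.factorial]
    ring
  rw [ec, es] at hb
  set C := 1 - y ^ 2 / 2 + y ^ 4 / 24 with hC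
  set S := y - y ^ 3 / 6 + y ^ 5 / 120 with hS
  have h2 : |Real.sin (A + y) - (Real.sin A * C + Real.cos A * S)| ≤ y ^ 6 / 360 := by
    have e1 : ‖Complex.exp ((A : ℂ) * Complex.I) * (Complex.exp ((y : ℂ) * Complex.I) -
        ((C : ℂ) + (S : ℂ) * Complex.I))‖ ≤ y ^ 6 / 360 := by
      rw [norm_mul, Complex.norm_exp_ofReal_mul_I, one_mul]
      exact hb
    have e2 : Real.sin (A + y) - (Real.sin A * C + Real.cos A * S) =
        (Complex.exp ((A : ℂ) * Complex.I) * (Complex.exp ((y : ℂ) * Complex.I) -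
          ((C : ℂ) + (S : ℂ) * Complex.I))).im := by
      rw [mul_sub, ← Complex.exp_add, ← add_mul, ← Complex.ofReal_add, Complex.sub_im,
        Complex.exp_ofReal_mul_I_im, Complex.mul_im, Complex.exp_ofReal_mul_I_im,
        Complex.exp_ofReal_mul_I_re]
      simp
      ring
    rw [e2]
    exact (Complex.abs_im_le_norm _).trans e1
  have hy2 : y ^ 2 ≤ 1 := by
    rw [← sq_abs]
    exact pow_le_one₀ (abs_nonneg _) hy
  have hy0 := sq_nonneg y
  have hC1 : |C| ≤ 1 := by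
    rw [hC, abs_le]
    constructor <;> nlinarith [sq_nonneg (y ^ 2)]
  have hS1 : |S| ≤ 1 := by
    have : S = y * (1 - y ^ 2 / 6 + y ^ 4 / 120) := by rw [hS]; ring
    rw [this, abs_mul]
    have h3 : |1 - y ^ 2 / 6 + y ^ 4 / 120| ≤ 1 := by
      rw [abs_le]
      constructor <;> nlinarith [sq_nonneg (y ^ 2)]
    exact mul_le_one₀ hy (abs_nonneg _) h3
  have h3 : |(Real.sin A - s) * C| ≤ δ := by
    rw [abs_mul]
    calc |Real.sin A - s| * |C| ≤ δ * 1 :=
          mul_le_mul hs hC1 (abs_nonneg _) ((abs_nonneg _).trans hs)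
      _ = δ := mul_one δ
  have h4 : |(Real.cos A - c) * S| ≤ δ := by
    rw [abs_mul]
    calc |Real.cos A - c| * |S| ≤ δ * 1 :=
          mul_le_mul hc hS1 (abs_nonneg _) ((abs_nonneg _).trans hc)
      _ = δ := mul_one δ
  rw [abs_le] at *
  constructor <;> linarith

/-! ### the check -/

/-- coefficients of `1 - t sin` (lower bound) on the cell, in `w ∈ [-1/2, 1/2]` -/
def gco (t ρ h : ℚ) : ℚ × ℚ × ℚ × ℚ × ℚ × ℚ :=
  (1 - ((h / 2) ^ 6 / 360 + 1 / 10 ^ 18) - t * s0 ρ, -(t * (c0 ρ * h)), t * (s0 ρ * (h ^ 2 / 2)),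
    t * (c0 ρ * (h ^ 3 / 6)), -(t * (s0 ρ * (h ^ 4 / 24))), -(t * (c0 ρ * (h ^ 5 / 120))))

/-- the polynomial `(H + H' w) g(w) - C` in `w = σ x / 2` -/
def fco (g : ℚ × ℚ × ℚ × ℚ × ℚ × ℚ) (H H' C σ : ℚ) : List ℚ :=
  [H * g.1 - C, (H * g.2.1 + H' * g.1) * (σ / 2), (H * g.2.2.1 + H' * g.2.1) * (σ / 2) ^ 2,
    (H * g.2.2.2.1 + H' * g.2.2.1) * (σ / 2) ^ 3, (H * g.2.2.2.2.1 + H' * g.2.2.2.1) * (σ / 2) ^ 4,
    (H * g.2.2.2.2.2 + H' * g.2.2.2.2.1) * (σ / 2) ^ 5, H' * g.2.2.2.2.2 * (σ / 2) ^ 6]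

/-- number of subdivisions -/
def dep : ℕ := 8

/-- the check of one majorant: `π (r' - r) s ≤ (H + H' w) (1 - t sin)` on the cell -/
def chkM (t s r r' H H' : ℚ) : Bool :=
  let ρ := (r + r') / 2
  let h := p0 * (r' - r)
  let g := gco t ρ h
  let C := (p0 + 1 / 10 ^ 20) * (r' - r) * s
  decide (r ≤ r') && decide (r' - r ≤ 1 / 4) && decide (-(1 / 2) ≤ r) && decide (r' ≤ 1 / 2) &&
  decide (|t| ≤ 1) && decide (0 ≤ s) && decide (0 ≤ H - H' / 2) && decide (0 ≤ H + H' / 2) &&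
  pos dep (lz (fco g H H' C 1)) && pos dep (lz (fco g H H' C (-1)))

theorem chkM_sound {t s r r' H H' : ℚ} (h : chkM t s r r' H H' = true) {v : ℝ} (h0 : 0 ≤ v)
    (h1 : v ≤ 1) : 0 ≤ (H : ℝ) + H' * (v - 1 / 2) ∧
      Real.pi * ((r' : ℝ) - r) * s ≤ ((H : ℝ) + H' * (v - 1 / 2)) *
        (1 - t * Real.sin (Real.pi * r + Real.pi * ((r' : ℝ) - r) * v)) := by
  unfold chkM at h
  simp only [Bool.and_eq_true, decide_eq_true_eq] at h
  obtain ⟨⟨⟨⟨⟨⟨⟨⟨⟨a1, a2⟩, a3⟩, a4⟩, a5⟩, a6⟩, a7⟩, a8⟩, a9⟩, a10⟩ := h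
  have b1 : (r : ℝ) ≤ r' := by exact_mod_cast a1
  have b2 : (r' : ℝ) - r ≤ 1 / 4 := by
    have : ((r' - r : ℚ) : ℝ) ≤ ((1 / 4 : ℚ) : ℝ) := by exact_mod_cast a2
    push_cast at this
    exact this
  have b5 : |(t : ℝ)| ≤ 1 := by
    have : ((|t| : ℚ) : ℝ) ≤ ((1 : ℚ) : ℝ) := by exact_mod_cast a5
    push_cast at this
    exact this
  have b6 : (0 : ℝ) ≤ s := by exact_mod_cast a6
  have b7 : (0 : ℝ) ≤ (H : ℝ) - H' / 2 := by
    have : ((0 : ℚ) : ℝ) ≤ ((H - H' / 2 : ℚ) : ℝ) := by exact_mod_cast a7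
    push_cast at this
    exact this
  have b8 : (0 : ℝ) ≤ (H : ℝ) + H' / 2 := by
    have : ((0 : ℚ) : ℝ) ≤ ((H + H' / 2 : ℚ) : ℝ) := by exact_mod_cast a8
    push_cast at this
    exact this
  have hρ : |(r + r') / 2| ≤ 1 / 2 := by
    rw [abs_le]
    constructor <;> linarith
  obtain ⟨d1, d2⟩ := sc_bound hρ
  set ρ : ℚ := (r + r') / 2 with hρd
  have ρc : (ρ : ℝ) = ((r : ℝ) + r') / 2 := by
    rw [hρd]
    push_cast
    ring
  have hmaj : 0 ≤ (H : ℝ) + H' * (v - 1 / 2) := by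
    have e : (H : ℝ) + H' * (v - 1 / 2) = (1 - v) * (H - H' / 2) + v * (H + H' / 2) := by ring
    rw [e]
    have := mul_nonneg (sub_nonneg.2 h1) b7
    have := mul_nonneg h0 b8
    linarith
  refine ⟨hmaj, ?_⟩
  -- the sine
  set w : ℝ := v - 1 / 2 with hw
  have hw1 : |w| ≤ 1 / 2 := by
    rw [hw, abs_le]
    constructor <;> linarith
  have hD0 : 0 ≤ (r' : ℝ) - r := sub_nonneg.2 b1
  set hh : ℚ := p0 * (r' - r) with hhd
  have hc : (hh : ℝ) = (p0 : ℝ) * ((r' : ℝ) - r) := by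
    rw [hhd]
    push_cast
    ring
  have hp3 : (p0 : ℝ) ≤ 32 / 10 ∧ 0 ≤ (p0 : ℝ) := by
    unfold p0
    constructor <;> norm_num
  have hh0 : 0 ≤ (hh : ℝ) := by
    rw [hc]
    exact mul_nonneg hp3.2 hD0
  have hh1 : (hh : ℝ) ≤ 1 := by
    rw [hc]
    nlinarith [hp3.1, hp3.2]
  have hy1 : |(hh : ℝ) * w| ≤ 1 := by
    rw [abs_mul, abs_of_nonneg hh0]
    nlinarith [abs_nonneg w]
  have hxy : |Real.pi * ((r' : ℝ) - r) * w - hh * w| ≤ 1 / 10 ^ 20 := by
    rw [hc, ← sub_mul, ← sub_mul, abs_mul, abs_mul, abs_of_nonneg hD0]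
    have e1 := pi_p0
    have e2 : |Real.pi - (p0 : ℝ)| * ((r' : ℝ) - r) ≤ 1 / 10 ^ 20 * 1 :=
      mul_le_mul e1 (by linarith) hD0 (by positivity)
    calc |Real.pi - (p0 : ℝ)| * ((r' : ℝ) - r) * |w| ≤ 1 / 10 ^ 20 * 1 * 1 :=
          mul_le_mul e2 (by linarith) (abs_nonneg _) (by positivity)
      _ = 1 / 10 ^ 20 := by ring
  have key := sin_cell d1 d2 hy1 hxy
  have hang : Real.pi * r + Real.pi * ((r' : ℝ) - r) * v
      = Real.pi * ρ + Real.pi * ((r' : ℝ) - r) * w := by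
    rw [ρc, hw]
    ring
  rw [← hang] at key
  have hy6 : ((hh : ℝ) * w) ^ 6 ≤ ((hh : ℝ) / 2) ^ 6 := by
    have e1 : ((hh : ℝ) * w) ^ 2 ≤ ((hh : ℝ) / 2) ^ 2 := by
      rw [sq_le_sq, abs_mul, abs_of_nonneg hh0, abs_of_nonneg (by positivity : (0 : ℝ) ≤ hh / 2)]
      nlinarith
    calc ((hh : ℝ) * w) ^ 6 = (((hh : ℝ) * w) ^ 2) ^ 3 := by ring
      _ ≤ (((hh : ℝ) / 2) ^ 2) ^ 3 := pow_le_pow_left₀ (sq_nonneg _) e1 3
      _ = ((hh : ℝ) / 2) ^ 6 := by ring
  set y : ℝ := (hh : ℝ) * w with hyd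
  set P : ℝ := (s0 ρ : ℝ) * (1 - y ^ 2 / 2 + y ^ 4 / 24) + (c0 ρ : ℝ) * (y - y ^ 3 / 6 + y ^ 5 / 120) with hP
  set sn : ℝ := Real.sin (Real.pi * r + Real.pi * ((r' : ℝ) - r) * v) with hsn
  have hE : |sn - P| ≤ ((hh : ℝ) / 2) ^ 6 / 360 + 1 / 10 ^ 18 := by
    refine key.trans ?_
    norm_num at hy6 ⊢
    linarith
  have hE2 : 1 - (((hh : ℝ) / 2) ^ 6 / 360 + 1 / 10 ^ 18) - t * P ≤ 1 - t * sn := by
    have e1 : |(t : ℝ) * (sn - P)| ≤ ((hh : ℝ) / 2) ^ 6 / 360 + 1 / 10 ^ 18 := by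
      rw [abs_mul]
      calc |(t : ℝ)| * |sn - P| ≤ 1 * (((hh : ℝ) / 2) ^ 6 / 360 + 1 / 10 ^ 18) :=
            mul_le_mul b5 hE (abs_nonneg _) zero_le_one
        _ = _ := one_mul _
    have e2 := (abs_le.1 e1).2
    nlinarith
  have hC : Real.pi * ((r' : ℝ) - r) * s ≤ ((p0 : ℝ) + 1 / 10 ^ 20) * ((r' : ℝ) - r) * s := by
    have e1 : Real.pi ≤ (p0 : ℝ) + 1 / 10 ^ 20 := by
      have := (abs_le.1 pi_p0).2
      linarith
    exact mul_le_mul_of_nonneg_right (mul_le_mul_of_nonneg_right e1 hD0) b6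
  have hfin : ((p0 : ℝ) + 1 / 10 ^ 20) * ((r' : ℝ) - r) * s ≤
      ((H : ℝ) + H' * w) * (1 - (((hh : ℝ) / 2) ^ 6 / 360 + 1 / 10 ^ 18) - t * P) := by
    rcases le_total 0 w with hw0 | hw0
    · have e := posq a9 (x := 2 * w) (by linarith) (by rw [hw]; linarith)
      simp only [fco, gco, evq] at e
      push_cast at e
      rw [hP, hyd]
      rw [← sub_nonneg]
      refine e.trans_eq ?_
      ring
    · have e := posq a10 (x := -(2 * w)) (by linarith) (by rw [hw]; linarith)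
      simp only [fco, gco, evq] at e
      push_cast at e
      rw [hP, hyd]
      rw [← sub_nonneg]
      refine e.trans_eq ?_
      ring
  calc Real.pi * ((r' : ℝ) - r) * s ≤ _ := hC
    _ ≤ _ := hfin
    _ ≤ _ := mul_le_mul_of_nonneg_left hE2 hmaj

/-- rational data of a cell -/
structure CdQ where
  H : ℚ
  H' : ℚ
  L : ℚ
  L' : ℚ

/-- the real data -/
def CdQ.toR (C : CdQ) : Cd := ⟨C.H, C.H', C.L, C.L'⟩

/-- the check of a cell `[r, r']` (units of `π`), class parameter `s` -/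
def chkS (s r r' : ℚ) (k : Kd) (C : CdQ) : Bool :=
  match k with
  | .reg => decide (0 < C.H + C.L) && chkM s s r r' C.H C.H' && chkM (-s) s r r' C.L C.L'
  | .fst => chkM s s r r' C.H C.H'
  | .lst => chkM (-s) s r r' C.L C.L'

theorem maj_of {s r r' H H' : ℚ} (h : chkM s s r r' H H' = true) {rr : ℕ → ℝ} {i : ℕ}
    (e0 : rr i = r) (e1 : rr (i + 1) = r') : Maj s rr i H H' := by
  intro v h0 h1
  have := chkM_sound h h0 h1
  unfold pt
  rw [e0, e1]
  exact this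

theorem mnj_of {s r r' L L' : ℚ} (h : chkM (-s) s r r' L L' = true) {rr : ℕ → ℝ} {i : ℕ}
    (e0 : rr i = r) (e1 : rr (i + 1) = r') : Mnj s rr i L L' := by
  intro v h0 h1
  have := chkM_sound h h0 h1
  unfold pt
  rw [e0, e1]
  refine ⟨this.1, this.2.trans_eq ?_⟩
  push_cast
  ring

/-- **soundness of the check** -/
theorem chkS_sound {s r r' : ℚ} {k : Kd} {C : CdQ} (h : chkS s r r' k C = true) {rr : ℕ → ℝ} {i : ℕ}
    (e0 : rr i = r) (e1 : rr (i + 1) = r') : CellOk s rr i k C.toR := by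
  cases k with
  | reg =>
    simp only [chkS, Bool.and_eq_true, decide_eq_true_eq] at h
    refine ⟨?_, maj_of h.1.2 e0 e1, mnj_of h.2 e0 e1⟩
    have : ((0 : ℚ) : ℝ) < ((C.H + C.L : ℚ) : ℝ) := by exact_mod_cast h.1.1
    push_cast at this
    exact this
  | fst => exact maj_of h e0 e1
  | lst => exact mnj_of h e0 e1

/-- all cells of a grid -/
def chkL (s : ℚ) : List ℚ → List (Kd × CdQ) → Bool
  | r :: r' :: rs, c :: l => decide (r < r') && chkS s r r' c.1 c.2 && chkL s (r' :: rs) l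
  | _, [] => true
  | _, _ => false

theorem chkL_get {s : ℚ} : ∀ (l : List (Kd × CdQ)) (rs : List ℚ), chkL s rs l = true →
    ∀ (i : ℕ) (hi : i < l.length), rs.getD i 0 < rs.getD (i + 1) 0 ∧
      chkS s (rs.getD i 0) (rs.getD (i + 1) 0) (l[i]).1 (l[i]).2 = true
  | [], _, _, i, hi => absurd hi (Nat.not_lt_zero i)
  | c :: l, [], h, _, _ => by simp [chkL] at h
  | c :: l, [r], h, _, _ => by simp [chkL] at h
  | c :: l, r :: r' :: rs, h, i, hi => by
    simp only [chkL, Bool.and_eq_true, decide_eq_true_eq] at h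
    cases i with
    | zero => exact ⟨h.1.1, h.1.2⟩
    | succ i =>
      have := chkL_get l (r' :: rs) h.2 i (by simpa using hi)
      simpa using this

/-- the grid as a real function -/
def gr (rs : List ℚ) (j : ℕ) : ℝ := ((rs.getD j 0 : ℚ) : ℝ)

/-- **all cells of the grid are correct and the grid is increasing** -/
theorem chkL_sound {s : ℚ} {rs : List ℚ} {l : List (Kd × CdQ)} (h : chkL s rs l = true) {i : ℕ}
    (hi : i < l.length) :
    gr rs i < gr rs (i + 1) ∧ CellOk s (gr rs) i (l[i]).1 (l[i]).2.toR := by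
  obtain ⟨h1, h2⟩ := chkL_get l rs h i hi
  refine ⟨?_, chkS_sound h2 rfl rfl⟩
  unfold gr
  exact_mod_cast h1

end Pool.Agent.FPX.NOS
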