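import Pool.Agent.FPX.NOD

/-
NOE (helper39): the states on a grid. From linear majorants of the slopes on the cells of a grid of
`[-π/2, π/2]` one gets the comparison functions of NOD on every cell, the signs of `p = H - d`, `q = L + d`,
and the moments of `X`, `X²` as explicit functions of the node values, with explicit errors.
-/

open MeasureTheory Set Filter Topology
open scoped ComplexConjugate

noncomputable section

namespace Pool.Agent.FPX.NOD

open Pool.Agent.FPX.ALX (St)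

/-- the data of a cell: linear majorants `H + H' w`, `L + L' w` of the slopes (scaled) -/
structure Cd where
  H : ℝ
  H' : ℝ
  L : ℝ
  L' : ℝ

/-- kinds of cells: regular; `fst`: the lower slope is not used; `lst`: the upper slope is not used -/
inductive Kd
  | reg | fst | lst

/-- slope of the comparison function -/
def cd (k : Kd) (C : Cd) (d : ℝ) : ℝ :=
  match k with
  | .reg => d
  | .fst => C.H
  | .lst => -C.L

/-- bump of the comparison function -/
def cg (k : Kd) (C : Cd) (d : ℝ) : ℝ :=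
  match k with
  | .reg => C.L' / 2 - (C.H' + C.L') / (2 * (C.H + C.L)) * (C.L + d)
  | .fst => -(C.H' / 2)
  | .lst => C.L' / 2

/-- error of the comparison function -/
def ce (k : Kd) (C : Cd) (d : ℝ) : ℝ :=
  match k with
  | .reg => (C.H - d) * (C.L + d) / (C.H + C.L)
  | .fst => (C.H - d) / 2
  | .lst => (C.L + d) / 2

/-- the upper majorant on the cell `i` -/
def Maj (s : ℝ) (r : ℕ → ℝ) (i : ℕ) (H H' : ℝ) : Prop :=
  ∀ v, 0 ≤ v → v ≤ 1 → 0 ≤ H + H' * (v - 1 / 2) ∧
    Real.pi * (r (i + 1) - r i) * s ≤ (H + H' * (v - 1 / 2)) * (1 - s * Real.sin (pt r i v))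

/-- the lower majorant on the cell `i` -/
def Mnj (s : ℝ) (r : ℕ → ℝ) (i : ℕ) (L L' : ℝ) : Prop :=
  ∀ v, 0 ≤ v → v ≤ 1 → 0 ≤ L + L' * (v - 1 / 2) ∧
    Real.pi * (r (i + 1) - r i) * s ≤ (L + L' * (v - 1 / 2)) * (1 + s * Real.sin (pt r i v))

/-- what has to be checked on the cell `i` -/
def CellOk (s : ℝ) (r : ℕ → ℝ) (i : ℕ) (k : Kd) (C : Cd) : Prop :=
  match k with
  | .reg => 0 < C.H + C.L ∧ Maj s r i C.H C.H' ∧ Mnj s r i C.L C.L'
  | .fst => Maj s r i C.H C.H'
  | .lst => Mnj s r i C.L C.L'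

section inc

variable {s s' : ℝ} {X : ℝ → ℝ} (hX : St s X) (h0 : 0 ≤ s) (hs : s ≤ s') (hs0 : 0 < s') (h1 : s' ≤ 1)
  {r : ℕ → ℝ} {i : ℕ} (hr : r i < r (i + 1))

include hX h0 hs hs0 h1 hr

theorem hup_of {H H' : ℝ} (hM : Maj s' r i H H') :
    ∀ x y, 0 ≤ x → x ≤ y → y ≤ 1 → X (pt r i y) - X (pt r i x) ≤ PH H H' y - PH H H' x := by
  intro x y hx hxy hy
  have hh : 0 < Real.pi * (r (i + 1) - r i) := mul_pos Real.pi_pos (sub_pos.2 hr)
  obtain ⟨h, hd⟩ : ∃ h : ℝ, h = Real.pi * (r (i + 1) - r i) := ⟨_, rfl⟩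
  rw [← hd] at hh
  have hpt : ∀ v, pt r i v = Real.pi * r i + h * v := fun v => by
    unfold pt
    rw [hd]
  have hv : ∀ a, pt r i ((a - Real.pi * r i) / h) = a := fun a => by
    rw [hpt]
    field_simp
    ring
  have hle : pt r i x ≤ pt r i y := by
    rw [hpt, hpt]
    nlinarith
  have key := hX.inc_le hle (U := fun a => PH H H' ((a - Real.pi * r i) / h))
    (u := fun a => (H + H' * ((a - Real.pi * r i) / h - 1 / 2)) / h) (fun a _ => by
      have d1 : HasDerivAt (fun a : ℝ => (a - Real.pi * r i) / h) (1 / h) a :=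
        ((hasDerivAt_id a).sub_const _).div_const h
      have d2 : HasDerivAt (fun v : ℝ => PH H H' v) (H + H' * ((a - Real.pi * r i) / h - 1 / 2))
          ((a - Real.pi * r i) / h) := by
        unfold PH
        have e1 := (hasDerivAt_id ((a - Real.pi * r i) / h)).const_mul H
        have e2 := ((hasDerivAt_id ((a - Real.pi * r i) / h)).mul
          ((hasDerivAt_id ((a - Real.pi * r i) / h)).const_sub 1)).const_mul (H' / 2)
        refine (e1.sub e2).congr_deriv ?_
        simp only [id]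
        ring
      refine (d2.comp a d1).congr_deriv ?_
      ring) (by fun_prop) ?_
  · have e : ∀ v, (pt r i v - Real.pi * r i) / h = v := fun v => by
      rw [hpt]
      field_simp
      ring
    simp only [e] at key
    exact key
  · filter_upwards [hX.deriv_le h0 hs h1] with a ha hm
    have hv0 : 0 ≤ (a - Real.pi * r i) / h := by
      have : pt r i x ≤ a := hm.1
      rw [hpt] at this
      apply div_nonneg _ hh.le
      nlinarith
    have hv1 : (a - Real.pi * r i) / h ≤ 1 := by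
      have : a ≤ pt r i y := hm.2
      rw [hpt] at this
      rw [div_le_one hh]
      nlinarith
    obtain ⟨m1, m2⟩ := hM _ hv0 hv1
    rw [hv, ← hd] at m2
    have hpos : 0 < h * s' := mul_pos hh hs0
    have hden : 0 < 1 - s' * Real.sin a := by
      by_contra hc
      rw [not_lt] at hc
      have := mul_nonpos_of_nonneg_of_nonpos m1 hc
      linarith
    refine (ha hden).trans ?_
    rw [div_le_div_iff₀ hden hh]
    linarith

theorem hlo_of {L L' : ℝ} (hM : Mnj s' r i L L') :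
    ∀ x y, 0 ≤ x → x ≤ y → y ≤ 1 → -(PH L L' y - PH L L' x) ≤ X (pt r i y) - X (pt r i x) := by
  intro x y hx hxy hy
  have hh : 0 < Real.pi * (r (i + 1) - r i) := mul_pos Real.pi_pos (sub_pos.2 hr)
  obtain ⟨h, hd⟩ : ∃ h : ℝ, h = Real.pi * (r (i + 1) - r i) := ⟨_, rfl⟩
  rw [← hd] at hh
  have hpt : ∀ v, pt r i v = Real.pi * r i + h * v := fun v => by
    unfold pt
    rw [hd]
  have hv : ∀ a, pt r i ((a - Real.pi * r i) / h) = a := fun a => by
    rw [hpt]
    field_simp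
    ring
  have hle : pt r i x ≤ pt r i y := by
    rw [hpt, hpt]
    nlinarith
  have key := hX.inc_ge hle (U := fun a => PH L L' ((a - Real.pi * r i) / h))
    (u := fun a => (L + L' * ((a - Real.pi * r i) / h - 1 / 2)) / h) (fun a _ => by
      have d1 : HasDerivAt (fun a : ℝ => (a - Real.pi * r i) / h) (1 / h) a :=
        ((hasDerivAt_id a).sub_const _).div_const h
      have d2 : HasDerivAt (fun v : ℝ => PH L L' v) (L + L' * ((a - Real.pi * r i) / h - 1 / 2))
          ((a - Real.pi * r i) / h) := by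
        unfold PH
        have e1 := (hasDerivAt_id ((a - Real.pi * r i) / h)).const_mul L
        have e2 := ((hasDerivAt_id ((a - Real.pi * r i) / h)).mul
          ((hasDerivAt_id ((a - Real.pi * r i) / h)).const_sub 1)).const_mul (L' / 2)
        refine (e1.sub e2).congr_deriv ?_
        simp only [id]
        ring
      refine (d2.comp a d1).congr_deriv ?_
      ring) (by fun_prop) ?_
  · have e : ∀ v, (pt r i v - Real.pi * r i) / h = v := fun v => by
      rw [hpt]
      field_simp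
      ring
    simp only [e] at key
    exact key
  · filter_upwards [hX.le_deriv h0 hs h1] with a ha hm
    have hv0 : 0 ≤ (a - Real.pi * r i) / h := by
      have : pt r i x ≤ a := hm.1
      rw [hpt] at this
      apply div_nonneg _ hh.le
      nlinarith
    have hv1 : (a - Real.pi * r i) / h ≤ 1 := by
      have : a ≤ pt r i y := hm.2
      rw [hpt] at this
      rw [div_le_one hh]
      nlinarith
    obtain ⟨m1, m2⟩ := hM _ hv0 hv1
    rw [hv, ← hd] at m2
    have hpos : 0 < h * s' := mul_pos hh hs0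
    have hden : 0 < 1 + s' * Real.sin a := by
      by_contra hc
      rw [not_lt] at hc
      have := mul_nonpos_of_nonneg_of_nonpos m1 hc
      linarith
    refine le_trans ?_ (ha hden)
    rw [neg_le_neg_iff, div_le_div_iff₀ hden hh]
    linarith

/-- **the comparison on a cell** -/
theorem cell_le {k : Kd} {C : Cd} (hC : CellOk s' r i k C) :
    (k ≠ .lst → 0 ≤ C.H - (X (Real.pi * r (i + 1)) - X (Real.pi * r i))) ∧
    (k ≠ .fst → 0 ≤ C.L + (X (Real.pi * r (i + 1)) - X (Real.pi * r i))) ∧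
    ∀ v, 0 ≤ v → v ≤ 1 → |X (pt r i v) - Xh ((X (Real.pi * r i) + X (Real.pi * r (i + 1))) / 2)
      (cd k C (X (Real.pi * r (i + 1)) - X (Real.pi * r i)))
      (cg k C (X (Real.pi * r (i + 1)) - X (Real.pi * r i))) v|
      ≤ ce k C (X (Real.pi * r (i + 1)) - X (Real.pi * r i)) := by
  rw [← pt_zero r i, ← pt_one r i]
  cases k with
  | reg =>
    obtain ⟨c1, c2, c3⟩ := hC
    have := cell_reg (Z := fun v => X (pt r i v)) c1 (hup_of hX h0 hs hs0 h1 hr c2)
      (hlo_of hX h0 hs hs0 h1 hr c3)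
    exact ⟨fun _ => this.1, fun _ => this.2.1, this.2.2⟩
  | fst =>
    have := cell_first (Z := fun v => X (pt r i v)) (hup_of hX h0 hs hs0 h1 hr hC)
    exact ⟨fun _ => this.1, fun h => absurd rfl h, this.2⟩
  | lst =>
    have := cell_last (Z := fun v => X (pt r i v)) (hlo_of hX h0 hs hs0 h1 hr hC)
    exact ⟨fun h => absurd rfl h, fun _ => this.1, this.2⟩

end inc

/-! ### all cells -/

/-- the linear nodal functional -/
def Ln (N : ℕ) (r : ℕ → ℝ) (k : ℕ → Kd) (C : ℕ → Cd) (c : ℕ → Fin 4 → ℂ) (x : ℕ → ℝ) : ℂ :=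
  ∑ i ∈ Finset.range N, ((r (i + 1) - r i : ℝ) : ℂ)
    * LF (c i) ((x i + x (i + 1)) / 2) (cd (k i) (C i) (x (i + 1) - x i)) (cg (k i) (C i) (x (i + 1) - x i))

/-- the quadratic nodal functional -/
def Qn (N : ℕ) (r : ℕ → ℝ) (k : ℕ → Kd) (C : ℕ → Cd) (c : ℕ → Fin 4 → ℂ) (x : ℕ → ℝ) : ℂ :=
  ∑ i ∈ Finset.range N, ((r (i + 1) - r i : ℝ) : ℂ)
    * QF (c i) ((x i + x (i + 1)) / 2) (cd (k i) (C i) (x (i + 1) - x i)) (cg (k i) (C i) (x (i + 1) - x i))

/-- the node values -/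
def xn (r : ℕ → ℝ) (X : ℝ → ℝ) (i : ℕ) : ℝ := X (Real.pi * r i)

theorem xn_last {s : ℝ} {X : ℝ → ℝ} (hX : St s X) {N : ℕ} {r : ℕ → ℝ} (G : Grid N r) :
    xn r X N = -xn r X 0 := by
  unfold xn
  rw [G.last, G.zero, ← hX.anti]
  congr 1
  ring

section all

variable {s s' : ℝ} {X : ℝ → ℝ} (hX : St s X) (h0 : 0 ≤ s) (hs : s ≤ s') (hs0 : 0 < s') (h1 : s' ≤ 1)
  {N : ℕ} {r : ℕ → ℝ} (G : Grid N r) {k : ℕ → Kd} {C : ℕ → Cd} (hC : ∀ i < N, CellOk s' r i (k i) (C i))

include hX h0 hs hs0 h1 G hC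

theorem p_nonneg {i : ℕ} (hi : i < N) (hk : k i ≠ .lst) : 0 ≤ (C i).H - (xn r X (i + 1) - xn r X i) :=
  (cell_le hX h0 hs hs0 h1 (G.inc i hi) (hC i hi)).1 hk

theorem q_nonneg {i : ℕ} (hi : i < N) (hk : k i ≠ .fst) : 0 ≤ (C i).L + (xn r X (i + 1) - xn r X i) :=
  (cell_le hX h0 hs hs0 h1 (G.inc i hi) (hC i hi)).2.1 hk

variable {xm : ℝ} (hb : ∀ a, |X a| ≤ xm) {φ : ℝ → ℂ} (hφ : Continuous φ) {B : ℝ} (hB : ∀ a, ‖φ a‖ ≤ B)
  {c : ℕ → Fin 4 → ℂ} {η : ℕ → ℝ} (hη : ∀ i < N, ∀ v, 0 ≤ v → v ≤ 1 → ‖φ (pt r i v) - Fp (c i) v‖ ≤ η i)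

include hb hφ hB hη

/-- **linear moments of a state** -/
theorem st_lin (hφa : ∀ a, φ (a + Real.pi) = -φ a) :
    ‖(1 / (2 * Real.pi) : ℝ) * (∫ a in (0 : ℝ)..(2 * Real.pi), φ a * X a) - Ln N r k C c (xn r X)‖
      ≤ ∑ i ∈ Finset.range N, (r (i + 1) - r i)
        * (η i * xm + (B + η i) * ce (k i) (C i) (xn r X (i + 1) - xn r X i)) :=
  lin_le hX.cont hX.anti hb G
    (fun i hi => (cell_le hX h0 hs hs0 h1 (G.inc i hi) (hC i hi)).2.2) hφ hB hη hφa

/-- **quadratic moments of a state** -/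
theorem st_quad (hφa : ∀ a, φ (a + Real.pi) = φ a) {eb : ℕ → ℝ}
    (heb : ∀ i < N, ce (k i) (C i) (xn r X (i + 1) - xn r X i) ≤ eb i) :
    ‖(1 / (2 * Real.pi) : ℝ) * (∫ a in (0 : ℝ)..(2 * Real.pi), φ a * (X a ^ 2 : ℝ)) - Qn N r k C c (xn r X)‖
      ≤ ∑ i ∈ Finset.range N, (r (i + 1) - r i) * (η i * xm ^ 2
        + (B + η i) * ((2 * xm + eb i) * ce (k i) (C i) (xn r X (i + 1) - xn r X i))) :=
  quad_le hX.cont hX.anti hb G
    (fun i hi => (cell_le hX h0 hs hs0 h1 (G.inc i hi) (hC i hi)).2.2) hφ hB hη hφa heb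

end all

end Pool.Agent.FPX.NOD
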