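import Mathlib
import Pool.Agent.FPX.SQD
import Pool.Agent.FPX.SQO
import Pool.Agent.FPX.NOE

/-
SQE (helper88): the pilot as a FINITE DIMENSIONAL statement about node values on a grid (`Cert`), and its
consequence for surfaces.
-/

open MeasureTheory Set Filter Topology Manifold
open scoped ENNReal NNReal ContDiff ComplexConjugate

noncomputable section

namespace Pool.Agent.FPX.SQE

open Pool.Agent.FPX.SQM Pool.Agent.FPX.SQN Pool.Agent.FPX.SQC Pool.Agent.FPX.SQD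
open Pool.Agent.FPX.ALX (St)
open Pool.Agent.FPX.NOD

/-- the nodal value of `mean X²` as a function of the node values -/
def fS (N : ℕ) (r : ℕ → ℝ) (k : ℕ → Kd) (C : ℕ → Cd) (x : ℕ → ℝ) : ℝ :=
  ∑ i ∈ Finset.range N, (r (i + 1) - r i)
    * (((x i + x (i + 1)) / 2) ^ 2 + cd (k i) (C i) (x (i + 1) - x i) ^ 2 / 12
      + cg (k i) (C i) (x (i + 1) - x i) ^ 2 / 30 + (x i + x (i + 1)) / 2 * cg (k i) (C i) (x (i + 1) - x i) / 3)

/-- error of the quadratic moments -/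
def fQ (N : ℕ) (r : ℕ → ℝ) (k : ℕ → Kd) (C : ℕ → Cd) (eb : ℕ → ℝ) (xm η : ℝ) (x : ℕ → ℝ) : ℝ :=
  EQ N r eb (fun i => ce (k i) (C i) (x (i + 1) - x i)) xm η

/-- squared error of the linear moments -/
def fL (N : ℕ) (r : ℕ → ℝ) (k : ℕ → Kd) (C : ℕ → Cd) (eb : ℕ → ℝ) (xm η : ℝ) (x : ℕ → ℝ) : ℝ :=
  EL N r eb (fun i => ce (k i) (C i) (x (i + 1) - x i)) xm η

/-- the data of the pilot -/
structure Dat where
  N : ℕ
  r : ℕ → ℝ
  k : ℕ → Kd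
  C : ℕ → Cd
  eb : ℕ → ℝ
  c1 : ℕ → Fin 4 → ℂ
  c3 : ℕ → Fin 4 → ℂ
  c4 : ℕ → Fin 4 → ℂ
  η : ℝ

/-- the analytic checks of the data (slopes, trigonometric functions) -/
structure Dat.Ok (D : Dat) : Prop where
  grid : Grid D.N D.r
  cell : ∀ i < D.N, CellOk 1 D.r i (D.k i) (D.C i)
  η0 : 0 ≤ D.η
  t1 : ∀ i < D.N, ∀ v, 0 ≤ v → v ≤ 1 → ‖ph 1 (pt D.r i v) - Fp (D.c1 i) v‖ ≤ D.η
  t3 : ∀ i < D.N, ∀ v, 0 ≤ v → v ≤ 1 → ‖ph 3 (pt D.r i v) - Fp (D.c3 i) v‖ ≤ D.η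
  t4 : ∀ i < D.N, ∀ v, 0 ≤ v → v ≤ 1 → ‖ph 4 (pt D.r i v) - Fp (D.c4 i) v‖ ≤ D.η
  ebr : ∀ i < D.N, D.k i = .reg → ((D.C i).H + (D.C i).L) / 4 ≤ D.eb i
  ebf : ∀ i < D.N, D.k i = .fst → ((D.C i).H + 1.24) / 2 ≤ D.eb i
  ebl : ∀ i < D.N, D.k i = .lst → ((D.C i).L + 1.24) / 2 ≤ D.eb i

/-- the admissible node values -/
structure Dat.Adm (D : Dat) (x : ℕ → ℝ) : Prop where
  last : x D.N = -x 0
  p : ∀ i < D.N, D.k i ≠ .lst → 0 ≤ (D.C i).H - (x (i + 1) - x i)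
  q : ∀ i < D.N, D.k i ≠ .fst → 0 ≤ (D.C i).L + (x (i + 1) - x i)
  bd : ∀ i, |x i| ≤ 0.62
  one : ‖Ln D.N D.r D.k D.C D.c1 x‖ ^ 2 ≤ fL D.N D.r D.k D.C D.eb 0.62 D.η x

/-- the nodal form -/
def Dat.form (D : Dat) (T b1 be th t : ℝ) (x : ℕ → ℝ) (u v : ℂ) : ℝ :=
  AF T b1 be th (fS D.N D.r D.k D.C x)
    (9 / (16 * T) * fQ D.N D.r D.k D.C D.eb 0.62 0 x + 9 / (16 * T) / t * fQ D.N D.r D.k D.C D.eb 0.62 D.η x
      + k2 T be * (1 / th - 1) * (9 / 4 * fL D.N D.r D.k D.C D.eb 0.62 D.η x))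
    (9 / (16 * T) * fQ D.N D.r D.k D.C D.eb 0.62 0 x + 9 / (16 * T) * t * fQ D.N D.r D.k D.C D.eb 0.62 D.η x)
    (-(3 / 2) * Ln D.N D.r D.k D.C D.c3 x) (Qn D.N D.r D.k D.C D.c4 x) u v

/-- **the finite dimensional statement** -/
def Dat.Cert (D : Dat) (T b1 be th t : ℝ) : Prop :=
  ∀ x : ℕ → ℝ, D.Adm x → ∀ u v : ℂ, 0 ≤ D.form T b1 be th t x u v

theorem ce_le {k : Kd} {C : Cd} {d eb : ℝ} (hd : |d| ≤ 1.24)
    (h1 : k = .reg → 0 < C.H + C.L ∧ (C.H + C.L) / 4 ≤ eb) (h2 : k = .fst → (C.H + 1.24) / 2 ≤ eb)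
    (h3 : k = .lst → (C.L + 1.24) / 2 ≤ eb) : ce k C d ≤ eb := by
  have h4 := abs_le.1 hd
  cases k with
  | reg =>
    obtain ⟨h5, h6⟩ := h1 rfl
    refine le_trans ?_ h6
    unfold ce
    simp only
    rw [div_le_iff₀ h5]
    nlinarith [sq_nonneg (C.H - d - (C.L + d))]
  | fst =>
    have := h2 rfl
    unfold ce
    simp only
    linarith
  | lst =>
    have := h3 rfl
    unfold ce
    simp only
    linarith

/-- from the finite statement to the class -/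
theorem class_of {D : Dat} (hD : D.Ok) {T b1 be th t : ℝ} (hT : 0 < T) (hk : 0 < k2 T be) (hth : 0 < th)
    (hth1 : th ≤ 1) (ht : 0 < t) (hc : D.Cert T b1 be th t) (X : ℝ → ℝ) (hX : St 1 X) (hb : ∀ a, |X a| ≤ 0.62) :
    ∃ b1 : ℝ, ∃ b2 : ℂ, ∀ u v : ℂ, 0 ≤ HF T (mS X) b1 b2 (mG X) (mY X) u v := by
  refine ⟨b1, be * conj (mG X), fun u v => ?_⟩
  have G := hD.grid
  have hcell := fun i hi => cell_le hX zero_le_one le_rfl one_pos le_rfl (G.inc i hi) (hD.cell i hi)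
  have heb : ∀ i < D.N, ce (D.k i) (D.C i) (X (Real.pi * D.r (i + 1)) - X (Real.pi * D.r i)) ≤ D.eb i := by
    intro i hi
    have a1 := abs_le.1 (hb (Real.pi * D.r (i + 1)))
    have a2 := abs_le.1 (hb (Real.pi * D.r i))
    refine ce_le (abs_le.2 ⟨by linarith, by linarith⟩) (fun h => ⟨?_, hD.ebr i hi h⟩) (hD.ebf i hi) (hD.ebl i hi)
    have := hD.cell i hi
    rw [h] at this
    exact this.1
  have hxc : ∀ i < D.N, ∀ v, 0 ≤ v → v ≤ 1 → |X (pt D.r i v) - Xh (xb X D.r i)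
      (cd (D.k i) (D.C i) (X (Real.pi * D.r (i + 1)) - X (Real.pi * D.r i)))
      (cg (D.k i) (D.C i) (X (Real.pi * D.r (i + 1)) - X (Real.pi * D.r i))) v|
      ≤ ce (D.k i) (D.C i) (X (Real.pi * D.r (i + 1)) - X (Real.pi * D.r i)) := fun i hi => (hcell i hi).2.2
  have hadm : D.Adm (xn D.r X) := by
    refine ⟨xn_last hX G, fun i hi => p_nonneg hX zero_le_one le_rfl one_pos le_rfl G hD.cell hi,
      fun i hi => q_nonneg hX zero_le_one le_rfl one_pos le_rfl G hD.cell hi, fun i => hb _, ?_⟩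
    exact C1_le hX hb G hxc heb hD.η0 hD.t1
  have key := hc _ hadm u v
  refine HF_nodal (c3 := D.c3) (c4 := D.c4) (η3 := D.η) (η4 := D.η) hX hb G hxc heb hT hk hth hth1 ht hD.η0
    hD.t3 hD.t4 u v ?_
  exact key

open Pool.Agent.H74.Surf in
/-- **surfaces** -/
theorem surf_of {D : Dat} (hD : D.Ok) {T b1 be th t : ℝ} (hT : 0 < T) (hk : 0 < k2 T be) (hth : 0 < th)
    (hth1 : th ≤ 1) (ht : 0 < t) (hc : D.Cert T b1 be th t)
    (M : Type) [MetricSpace M] [CompactSpace M] [ChartedSpace (EuclideanHalfSpace 2) M]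
    [RiemannianSpace (𝓡∂ 2) M] (horient : H74.Surf.Orientable (𝓡∂ 2) M)
    (φ : H74.Surf.S1 → M) (hφ : H74.Surf.IsometricFilling (𝓡∂ 2) φ) :
    ENNReal.ofReal (2 * Real.pi / T) ≤ H74.Surf.area M :=
  SQO.surf_Sb hT (class_of hD hT hk hth hth1 ht hc) M horient φ hφ

end Pool.Agent.FPX.SQE
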