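import Mathlib

/-
WPR (helper76): the function `W` of the certificates from a prescribed weight `w`: `w` continuous and equal to
the constant `w₁` for `c ≥ c₁`, `c₁ < 1`. Then `W` is `C¹` for `c > -1`, `2 c W - (1 - c²) W' = w` for
`-1 < c ≤ 1` and `W(0) = ∫₀¹ w`. Piecewise linear weights as sums of ramps.
-/

open MeasureTheory Set Filter Topology

noncomputable section

namespace Pool.Agent.FPX.WPR

/-- the integral of `w - w₁` from `c` to `1` -/
def Wn (w : ℝ → ℝ) (w₁ c : ℝ) : ℝ := ∫ t in c..1, (w t - w₁)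

/-- the primitive -/
def Wp (w : ℝ → ℝ) (w₁ c : ℝ) : ℝ := w₁ / (1 + c) + Wn w w₁ c / (1 - c ^ 2)

/-- the hypothesis on the weight -/
structure Wt (w : ℝ → ℝ) (w₁ c₁ : ℝ) : Prop where
  cont : Continuous w
  lt : c₁ < 1
  eq : ∀ c, c₁ ≤ c → w c = w₁

variable {w : ℝ → ℝ} {w₁ c₁ : ℝ}

theorem hasDerivAt_Wn (h : Wt w w₁ c₁) (c : ℝ) : HasDerivAt (Wn w w₁) (-(w c - w₁)) c := by
  have hc : Continuous fun t => w t - w₁ := h.cont.sub continuous_const
  exact intervalIntegral.integral_hasDerivAt_left (hc.intervalIntegrable _ _)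
    hc.stronglyMeasurable.stronglyMeasurableAtFilter hc.continuousAt

theorem contDiff_Wn (h : Wt w w₁ c₁) : ContDiff ℝ 1 (Wn w w₁) := by
  rw [contDiff_one_iff_deriv]
  refine ⟨fun c => (hasDerivAt_Wn h c).differentiableAt, ?_⟩
  have e : deriv (Wn w w₁) = fun c => -(w c - w₁) := funext fun c => (hasDerivAt_Wn h c).deriv
  rw [e]
  exact (h.cont.sub continuous_const).neg

theorem Wn_zero (h : Wt w w₁ c₁) {c : ℝ} (hc : c₁ ≤ c) : Wn w w₁ c = 0 := by
  unfold Wn
  have : ∫ t in c..1, (w t - w₁) = ∫ _t in c..1, (0 : ℝ) := by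
    refine intervalIntegral.integral_congr fun t ht => ?_
    have h2 : c₁ ≤ t := by
      rcases le_total c 1 with h3 | h3
      · rw [uIcc_of_le h3] at ht
        exact hc.trans ht.1
      · rw [uIcc_of_ge h3] at ht
        exact h.lt.le.trans ht.1
    show w t - w₁ = 0
    rw [h.eq t h2, sub_self]
  rw [this, intervalIntegral.integral_zero]

theorem Wp_eq (h : Wt w w₁ c₁) {c : ℝ} (hc : c₁ ≤ c) : Wp w w₁ c = w₁ / (1 + c) := by
  unfold Wp
  rw [Wn_zero h hc, zero_div, add_zero]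

theorem Wp_ev (h : Wt w w₁ c₁) {c : ℝ} (hc : c₁ < c) : Wp w w₁ =ᶠ[𝓝 c] fun c => w₁ / (1 + c) := by
  filter_upwards [lt_mem_nhds hc] with t ht
  exact Wp_eq h ht.le

theorem contDiffAt_Wp (h : Wt w w₁ c₁) {c : ℝ} (hc : -1 < c) : ContDiffAt ℝ 1 (Wp w w₁) c := by
  have h1 : ContDiffAt ℝ 1 (fun c : ℝ => w₁ / (1 + c)) c :=
    contDiffAt_const.div (contDiffAt_const.add contDiffAt_id) (by
      have : 0 < 1 + c := by linarith
      exact this.ne')
  rcases lt_or_ge c₁ c with h2 | h2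
  · exact h1.congr_of_eventuallyEq (Wp_ev h h2)
  · refine h1.add ((contDiff_Wn h).contDiffAt.div (contDiffAt_const.sub (contDiffAt_id.pow 2)) ?_)
    have h3 : c < 1 := h2.trans_lt h.lt
    show (1 : ℝ) - c ^ 2 ≠ 0
    nlinarith

/-- `W` is of class `C¹` -/
theorem contDiffOn_Wp (h : Wt w w₁ c₁) : ContDiffOn ℝ 1 (Wp w w₁) (Ioi 0) := fun c hc =>
  (contDiffAt_Wp h (by have : (0 : ℝ) < c := hc; linarith)).contDiffWithinAt

theorem continuousOn_Wp (h : Wt w w₁ c₁) : ContinuousOn (Wp w w₁) (Ici 0) := fun c hc =>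
  (contDiffAt_Wp h (by have : (0 : ℝ) ≤ c := hc; linarith)).continuousAt.continuousWithinAt

/-- **the equation of `W`** -/
theorem Wp_eqn (h : Wt w w₁ c₁) {c : ℝ} (hc : -1 < c) (hc1 : c ≤ 1) :
    2 * c * Wp w w₁ c - (1 - c ^ 2) * deriv (Wp w w₁) c = w c := by
  have h0 : 0 < 1 + c := by linarith
  have d1 : HasDerivAt (fun c : ℝ => w₁ / (1 + c)) (-w₁ / (1 + c) ^ 2) c := by
    have := (hasDerivAt_const c w₁).div ((hasDerivAt_id c).const_add 1) h0.ne'
    refine this.congr_deriv ?_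
    simp only [id_eq]
    ring
  rcases hc1.lt_or_eq with h1 | h1
  · have h2 : 0 < 1 - c ^ 2 := by nlinarith
    have d2 := (hasDerivAt_Wn h c).div ((hasDerivAt_pow 2 c).const_sub 1) h2.ne'
    have d3 : HasDerivAt (Wp w w₁) _ c := d1.add d2
    rw [d3.deriv]
    unfold Wp
    have e1 : (1 - c ^ 2) = (1 + c) * (1 - c) := by ring
    have h3 : 0 < 1 - c := by linarith
    rw [e1]
    field_simp
    push_cast
    ring
  · rw [h1] at hc ⊢
    have e : deriv (Wp w w₁) 1 = deriv (fun c : ℝ => w₁ / (1 + c)) 1 := (Wp_ev h h.lt).deriv_eq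
    rw [Wp_eq h h.lt.le, h.eq 1 h.lt.le]
    ring

/-- **the value at zero** -/
theorem Wp_zero (h : Wt w w₁ c₁) : Wp w w₁ 0 = ∫ t in (0 : ℝ)..1, w t := by
  unfold Wp Wn
  rw [intervalIntegral.integral_sub (h.cont.intervalIntegrable _ _)
    (continuous_const.intervalIntegrable _ _), intervalIntegral.integral_const]
  simp

/-! ### piecewise linear weights -/

/-- a piecewise linear weight: `w₁ - ∑ a (k - c)₊` -/
def rw' (w₁ : ℝ) (L : List (ℝ × ℝ)) (c : ℝ) : ℝ := w₁ - (L.map fun p => p.1 * max 0 (p.2 - c)).sum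

theorem ramp_cont (L : List (ℝ × ℝ)) : Continuous fun c : ℝ => (L.map fun p => p.1 * max 0 (p.2 - c)).sum := by
  induction L with
  | nil => simpa using continuous_const
  | cons p L ih =>
    simp only [List.map_cons, List.sum_cons]
    exact (continuous_const.mul (continuous_const.max (continuous_const.sub continuous_id))).add ih

/-- the weight satisfies the hypothesis -/
theorem wt_ramp (w₁ : ℝ) {L : List (ℝ × ℝ)} (h1 : c₁ < 1) (hL : ∀ p ∈ L, p.2 ≤ c₁) : Wt (rw' w₁ L) w₁ c₁ where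
  cont := continuous_const.sub (ramp_cont L)
  lt := h1
  eq := fun c hc => by
    unfold rw'
    have : (L.map fun p => p.1 * max 0 (p.2 - c)).sum = 0 := by
      refine List.sum_eq_zero ?_
      intro x hx
      rw [List.mem_map] at hx
      obtain ⟨p, hp, rfl⟩ := hx
      have := hL p hp
      rw [max_eq_left (by linarith), mul_zero]
    rw [this, sub_zero]

theorem int_ramp {k : ℝ} (h0 : 0 ≤ k) (h1 : k ≤ 1) : ∫ c in (0 : ℝ)..1, max 0 (k - c) = k ^ 2 / 2 := by
  have hc : Continuous fun c : ℝ => max 0 (k - c) := continuous_const.max (continuous_const.sub continuous_id)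
  rw [← intervalIntegral.integral_add_adjacent_intervals (hc.intervalIntegrable 0 k)
    (hc.intervalIntegrable k 1)]
  have e1 : ∫ c in (0 : ℝ)..k, max 0 (k - c) = ∫ c in (0 : ℝ)..k, (k - c) := by
    refine intervalIntegral.integral_congr fun c hc => ?_
    rw [uIcc_of_le h0] at hc
    exact max_eq_right (by linarith [hc.2])
  have e2 : ∫ c in k..(1 : ℝ), max 0 (k - c) = ∫ _c in k..(1 : ℝ), (0 : ℝ) := by
    refine intervalIntegral.integral_congr fun c hc => ?_
    rw [uIcc_of_le h1] at hc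
    exact max_eq_left (by linarith [hc.1])
  have e3 : ∫ c in (0 : ℝ)..k, (k - c) = k ^ 2 / 2 := by
    have h := intervalIntegral.integral_sub (μ := volume) (a := 0) (b := k) (f := fun _ : ℝ => k)
      (g := fun c : ℝ => c) (continuous_const.intervalIntegrable _ _) (continuous_id.intervalIntegrable _ _)
    rw [h, intervalIntegral.integral_const, integral_id]
    simp only [sub_zero, smul_eq_mul]
    ring
  rw [e1, e2, intervalIntegral.integral_zero, add_zero, e3]

theorem int_ramps {L : List (ℝ × ℝ)} (hL : ∀ p ∈ L, 0 ≤ p.2 ∧ p.2 ≤ 1) :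
    ∫ c in (0 : ℝ)..1, (L.map fun p => p.1 * max 0 (p.2 - c)).sum = (L.map fun p => p.1 * p.2 ^ 2 / 2).sum := by
  induction L with
  | nil => simp
  | cons p L ih =>
    simp only [List.map_cons, List.sum_cons]
    have h1 := hL p (List.mem_cons_self ..)
    have hc : Continuous fun c : ℝ => p.1 * max 0 (p.2 - c) :=
      continuous_const.mul (continuous_const.max (continuous_const.sub continuous_id))
    rw [intervalIntegral.integral_add (hc.intervalIntegrable _ _) ((ramp_cont L).intervalIntegrable _ _),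
      intervalIntegral.integral_const_mul, int_ramp h1.1 h1.2, ih fun q hq => hL q (List.mem_cons_of_mem _ hq)]
    ring

/-- **the value at zero of the piecewise linear weight** -/
theorem Wp_ramp_zero (w₁ : ℝ) {L : List (ℝ × ℝ)} (h1 : c₁ < 1) (hL : ∀ p ∈ L, 0 ≤ p.2 ∧ p.2 ≤ c₁) :
    Wp (rw' w₁ L) w₁ 0 = w₁ - (L.map fun p => p.1 * p.2 ^ 2 / 2).sum := by
  have hw := wt_ramp w₁ h1 fun p hp => (hL p hp).2
  rw [Wp_zero hw]
  unfold rw'
  rw [intervalIntegral.integral_sub (continuous_const.intervalIntegrable _ _)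
    ((ramp_cont L).intervalIntegrable _ _), int_ramps fun p hp => ⟨(hL p hp).1, (hL p hp).2.trans h1.le⟩,
    intervalIntegral.integral_const]
  simp

/-- the weight on a cell without interior nodes -/
theorem rw_cell (w₁ : ℝ) {L : List (ℝ × ℝ)} {a b : ℝ} (hL : ∀ p ∈ L, p.2 ≤ a ∨ b ≤ p.2) {c : ℝ}
    (hc : c ∈ Icc a b) :
    rw' w₁ L c = w₁ - (L.map fun p => if p.2 ≤ a then 0 else p.1 * (p.2 - c)).sum := by
  unfold rw'
  congr 2
  refine List.map_congr_left fun p hp => ?_
  by_cases h : p.2 ≤ a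
  · rw [if_pos h, max_eq_left (by linarith [hc.1]), mul_zero]
  · rw [if_neg h, max_eq_right (by linarith [hc.2, (hL p hp).resolve_left h])]

end Pool.Agent.FPX.WPR
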