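import Mathlib
import Pool.Agent.FPX.SQO
import Pool.Agent.FPX.WPR

/-
SQW (helper88): the weighted version of SQA / SQM: state inequality with the weight `w(c)` in front of
`|A|² - |B|²`, area bound `2π ∫ w ≤ vol`, elimination of `k` with multipliers.
-/

open MeasureTheory Set Filter Topology Complex
open scoped ENNReal NNReal ContDiff ComplexConjugate

noncomputable section

namespace Pool.Agent.FPX.SQW

open Pool.Agent.FPX Pool.Agent.FPX.UMP Pool.Agent.FPX.UMQ Pool.Agent.FPX.UXA Pool.Agent.EWD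
open Pool.Agent.FPX.F54 (X1 X2 dX1 dX2 X_lt X_G1 X_G2 sF)
open Pool.Agent.FPX.S54 (de)
open Pool.Agent.FPX.OMB (vm vm_int vm_prob bm_ep)
open Pool.Agent.FPX.OMS (Cert rF cF mk W0)
open Pool.Agent.FPX.CQA (pht)
open Pool.Agent.FPX.CERQ (xT Er sr ep_rot vm_rot vm_rotR pr_rot' ep_per xT_per cont_xT cont_pht int_of_cont)
open Pool.Agent.FPX.SQA Pool.Agent.FPX.SQM

/-- the inequality for one state, weight `w` -/
def StateW (q w T : ℝ) (f : ℝ → ℝ) : Prop :=
  ∀ k : ℝ → ℂ, Measurable k → (∀ t, ‖k t‖ ≤ 1) →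
    (conj (∫ t, Er f t * conj (k t) ∂(vm (X1 f) 0))
        * ∫ t, pht (Er f) (xT f) q (sr f) t * conj (k t) ∂(vm (X1 f) 0)).re
      - (conj (∫ t, Er f t * k t ∂(vm (X1 f) 0))
        * ∫ t, pht (Er f) (xT f) q (sr f) t * k t ∂(vm (X1 f) 0)).re
      + (w - 1) * (‖((∫ t, Er f t * conj (k t) ∂(vm (X1 f) 0)) - sr f * conj (∫ t, Er f t * k t ∂(vm (X1 f) 0)))
          / ((1 - ‖sr f‖ ^ 2 : ℝ) : ℂ)‖ ^ 2
        - ‖((∫ t, Er f t * k t ∂(vm (X1 f) 0)) - sr f * conj (∫ t, Er f t * conj (k t) ∂(vm (X1 f) 0)))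
          / ((1 - ‖sr f‖ ^ 2 : ℝ) : ℂ)‖ ^ 2) ≤ T

private theorem alg1 {u s A B P σ : ℂ} (hcu : conj u * u = 1) (hσ : σ = -(u ^ 2 * s))
    (hA : A - σ * conj B = P) : conj u * A + s * conj (conj u * B) = conj u * P := by
  rw [← hA, hσ, map_mul, Complex.conj_conj]
  linear_combination (-(s * u * conj B)) * hcu

/-- **the certificate of `λ_q`, any weight** -/
theorem cert_W {q T : ℝ} {W w : ℝ → ℝ}
    (hw : ∀ c, 0 < c → c ≤ 1 → 2 * c * W c - (1 - c ^ 2) * deriv W c = w c)
    (H : ∀ f, Ef f → 0 ≤ X1 f → X2 f = 0 → StateW q (w (cF f)) T f) :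
    Cert W (fun r => q / √(1 - r)) (fun _ => 0) 0 T := by
  intro f hf K hK hK1 A B hA hB
  obtain ⟨φ, r, hr0, hr1, hrs, hf', h1', h2', hx, hy⟩ := F54.exists_rot hf
  set f' : ℝ → ℝ := fun t => f (t + φ) with hf'def
  set x := X1 f with hxd
  set y := X2 f with hyd
  have hX : x ^ 2 + y ^ 2 < 1 := X_lt hf
  have hprob := vm_prob hX
  obtain ⟨u, hu⟩ : ∃ u : ℂ, u = Complex.exp (φ * I) := ⟨_, rfl⟩
  have hu1 : u * conj u = 1 := by
    rw [hu, ← Complex.exp_conj, ← Complex.exp_add]
    simp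
  have hun : ‖u‖ = 1 := by
    rw [hu]
    exact Complex.norm_exp_ofReal_mul_I φ
  have hζ : S54.YY x y = r * u := by
    rw [hu]
    apply Complex.ext
    · rw [Complex.re_ofReal_mul, Complex.exp_ofReal_mul_I_re]
      exact hx
    · rw [Complex.im_ofReal_mul, Complex.exp_ofReal_mul_I_im]
      exact hy
  have hrF : rF f = r ^ 2 := hrs.symm
  have hrF' : rF f' = r ^ 2 := by
    unfold rF
    rw [h1', h2']
    ring
  have hsr : √(rF f) = r := by rw [hrF, Real.sqrt_sq hr0]
  have hcc' : cF f' = cF f := by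
    unfold cF
    rw [hrF, hrF']
  have hc0 : 0 < cF f := by
    refine Real.sqrt_pos.2 (sub_pos.2 ?_)
    exact hX
  have hc2 : cF f ^ 2 = 1 - r ^ 2 := by
    rw [← hrF]
    exact Real.sq_sqrt (sub_pos.2 hX).le
  -- the frame
  set E : ℝ → ℂ := fun t => conj u * C54.ep x y t with hE
  have hEp : ∀ t, C54.ep x y t = u * E t := fun t => by
    simp only [hE]
    rw [← mul_assoc, hu1, one_mul]
  have hEr : ∀ t, E (t + φ) = Er f' t := fun t => by
    simp only [hE, Er]
    rw [ep_rot hr0 hr1 hx hy, h1', ← hu, ← mul_assoc, mul_comm (conj u), hu1, one_mul]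
  have hxr : ∀ t, xT f (t + φ) = xT f' t := fun t => by
    unfold xT de
    rw [hrF, hrF', hcc', ← hxd, ← hyd, pr_rot' hx hy, h1', h2']
  have hEper : ∀ t, E (t + 2 * Real.pi) = E t := fun t => by
    simp only [hE, ep_per]
  have cE : Continuous E := continuous_const.mul (C54.cont_ep hX)
  have cX : Continuous (xT f) := cont_xT hf
  have hE1 : ∀ t, ‖E t‖ = 1 := fun t => by
    simp only [hE, norm_mul, Complex.norm_conj, hun, one_mul]
    exact C54.norm_ep hX t
  -- the number `s`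
  have hs : sr f' = -(3 / 2) * ∫ t, (xT f t : ℂ) * E t ^ 3 ∂(vm x y) := by
    unfold sr
    rw [vm_rot hr0 hr1 hx hy (F := fun t => (xT f t : ℂ) * E t ^ 3) fun t => by
      simp only [xT_per hf, hEper], h1']
    simp only [hEr, hxr]
  set s := sr f' with hsd
  -- the relation to `σ`
  have hσ : sF f = -(u ^ 2 * s) := by
    have e1 : sF f = (3 / 4 : ℂ) * (conj (⟨x, y⟩ : ℂ) / (C54.ce x y : ℂ)) * C54.Cm 3 x y f := rfl
    have e2 : C54.Cm 3 x y f = 2 * ∫ t, (de x y f t : ℂ) * C54.ep x y t ^ 3 ∂(vm x y) := by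
      rw [S54.Cm_eq hX 3 f, OMS.ME_vm hX 3]
    have e3 : (⟨x, y⟩ : ℂ) = r * u := hζ
    have e4 : C54.ce x y = cF f := OMS.cF_eq f
    have e5 : ∫ t, (xT f t : ℂ) * E t ^ 3 ∂(vm x y) =
        ((r / cF f : ℝ) : ℂ) * conj u ^ 3 * ∫ t, (de x y f t : ℂ) * C54.ep x y t ^ 3 ∂(vm x y) := by
      rw [← integral_const_mul]
      congr 1
      funext t
      simp only [xT, hE, hsr]
      push_cast
      ring
    rw [hs, e1, e2, e3, e4, e5, map_mul, Complex.conj_ofReal]
    have hcC : (cF f : ℂ) ≠ 0 := Complex.ofReal_ne_zero.2 hc0.ne'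
    push_cast
    have e6 : u ^ 2 * conj u ^ 3 = conj u := by
      calc u ^ 2 * conj u ^ 3 = (u * conj u) ^ 2 * conj u := by ring
        _ = conj u := by rw [hu1, one_pow, one_mul]
    field_simp
    linear_combination (-(4 : ℂ) * r * ∫ t, (de x y f t : ℂ) * C54.ep x y t ^ 3 ∂(vm x y)) * e6
  have hsn : ‖s‖ < 1 := by
    have h1 := F54.sF_lt hf
    rw [hσ, norm_neg, norm_mul, norm_pow, hun, one_pow, one_mul] at h1
    linarith
  -- the functional at the rotated state
  have hpr : ∀ t, pht E (xT f) q s (t + φ) = pht (Er f') (xT f') q s t := fun t => by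
    unfold pht
    rw [hEr, hxr]
  have hpper : ∀ t, pht E (xT f) q s (t + 2 * Real.pi) = pht E (xT f) q s t := fun t => by
    unfold pht
    rw [hEper, xT_per hf]
  -- the rotated gradient
  set K' : ℝ → ℂ := fun t => K (pz (t + φ)) with hK'
  have mK' : Measurable K' := hK.comp (pz_meas.comp (measurable_id.add_const φ))
  have bK' : ∀ t, ‖K' t‖ ≤ 1 := fun t => hK1 _
  have key := H f' hf' (by rw [h1']; exact hr0) h2' K' mK' bK'
  rw [h1', ← hsd] at key
  have j1 : ∀ (F : ℝ → ℂ) (F' : ℝ → ℂ), (∀ t, F (t + 2 * Real.pi) = F t) → (∀ t, F (t + φ) = F' t) →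
      ∫ t, F' t * K' t ∂(vm r 0) = ∫ t, F t * K t ∂(vm x y) := by
    intro F F' hFp hFF
    rw [int_pz F K, vm_rot hr0 hr1 hx hy (F := fun t => F t * K (pz t)) fun t => by
      simp only [hFp, pz_per]]
    simp only [hFF, hK']
  have j2 : ∀ (F : ℝ → ℂ) (F' : ℝ → ℂ), (∀ t, F (t + 2 * Real.pi) = F t) → (∀ t, F (t + φ) = F' t) →
      ∫ t, F' t * conj (K' t) ∂(vm r 0) = ∫ t, F t * conj (K t) ∂(vm x y) := by
    intro F F' hFp hFF
    rw [int_pz F (fun t => conj (K t)), vm_rot hr0 hr1 hx hy (F := fun t => F t * conj (K (pz t))) fun t => by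
      simp only [hFp, pz_per]]
    simp only [hFF, hK']
  rw [j1 E (Er f') hEper hEr, j2 E (Er f') hEper hEr, j1 (pht E (xT f) q s) (pht (Er f') (xT f') q s) hpper hpr,
    j2 (pht E (xT f) q s) (pht (Er f') (xT f') q s) hpper hpr] at key
  set A' : ℂ := conj u * A with hA'
  set B' : ℂ := conj u * B with hB'
  have eB : B = u * B' := by
    rw [hB', ← mul_assoc, hu1, one_mul]
  have eA : A = u * A' := by
    rw [hA', ← mul_assoc, hu1, one_mul]
  have hcu : conj u * u = 1 := by rw [mul_comm]; exact hu1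
  have a1 : A' + s * conj B' = ∫ t, E t * conj (K t) ∂(vm x y) := by
    have e1 : ∫ t, E t * conj (K t) ∂(vm x y) = conj u * ∫ t, C54.ep x y t * conj (K t) ∂(vm x y) := by
      rw [← integral_const_mul]
      congr 1
      funext t
      simp only [hE]
      ring
    rw [e1]
    exact alg1 hcu hσ hA
  have a2 : B' + s * conj A' = ∫ t, E t * K t ∂(vm x y) := by
    have e1 : ∫ t, E t * K t ∂(vm x y) = conj u * ∫ t, C54.ep x y t * K t ∂(vm x y) := by
      rw [← integral_const_mul]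
      congr 1
      funext t
      simp only [hE]
      ring
    rw [e1]
    exact alg1 hcu hσ hB
  have hss : s * conj s = ((‖s‖ ^ 2 : ℝ) : ℂ) := by
    rw [Complex.mul_conj, Complex.normSq_eq_norm_sq]
  have hDn : ((1 - ‖s‖ ^ 2 : ℝ) : ℂ) ≠ 0 := by
    refine Complex.ofReal_ne_zero.2 ?_
    have := norm_nonneg s
    nlinarith
  have hDs : ((1 - ‖s‖ ^ 2 : ℝ) : ℂ) = 1 - s * conj s := by
    rw [hss]
    push_cast
    rfl
  have b1 : A' = ((∫ t, E t * conj (K t) ∂(vm x y)) - s * conj (∫ t, E t * K t ∂(vm x y)))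
      / ((1 - ‖s‖ ^ 2 : ℝ) : ℂ) := by
    rw [eq_div_iff hDn, ← a1, ← a2, hDs]
    simp only [map_add, map_mul, Complex.conj_conj]
    ring
  have b2 : B' = ((∫ t, E t * K t ∂(vm x y)) - s * conj (∫ t, E t * conj (K t) ∂(vm x y)))
      / ((1 - ‖s‖ ^ 2 : ℝ) : ℂ) := by
    rw [eq_div_iff hDn, ← a1, ← a2, hDs]
    simp only [map_add, map_mul, Complex.conj_conj]
    ring
  rw [← omega_eq (μ := vm x y) (E := E) (k := K) (X := xT f) (q := q) (s := s) hsn
    (Eventually.of_forall hK1) hK.aestronglyMeasurable (int_of_cont hX cE)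
    (int_of_cont hX ((Complex.continuous_ofReal.comp cX).mul (cE.pow 2))) b1 b2, ← b1, ← b2, hcc'] at key
  refine le_trans (le_of_eq ?_) key
  -- the two values agree
  have hr0' : rF f < 1 := hX
  have w2 : deriv (fun r : ℝ => q / √(1 - r)) (rF f) = q / (2 * cF f ^ 3) := by
    have h1 : HasDerivAt (fun r : ℝ => √(1 - r)) ((-1) / (2 * √(1 - rF f))) (rF f) :=
      ((hasDerivAt_id (rF f)).const_sub 1).sqrt (sub_pos.2 hr0').ne'
    have h2 : √(1 - rF f) = cF f := rfl
    have h3 := (hasDerivAt_const (rF f) q).div h1 (by rw [h2]; exact hc0.ne')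
    rw [h2] at h3
    refine (h3.congr_deriv ?_).deriv
    field_simp
    ring
  have hc1 : cF f ≤ 1 := by
    nlinarith [sq_nonneg r, hc2, hc0]
  have w3 : W0 (2 * cF f * W (cF f) - rF f * deriv W (cF f))
      (q / √(1 - rF f)) (deriv (fun r : ℝ => q / √(1 - r)) (rF f)) 0 (deriv (fun _ : ℝ => (0 : ℝ)) (rF f)) f
      = w (cF f) := by
    rw [w2]
    unfold W0
    have h2 : √(1 - rF f) = cF f := rfl
    have h3 : rF f = 1 - cF f ^ 2 := by rw [hc2, hrF]; ring
    rw [h2, deriv_const, ← hw _ hc0 hc1, ← h3]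
    have h5 : 2 * cF f * (q / (2 * cF f ^ 3)) - q / cF f / cF f + 0 / cF f = 0 := by
      field_simp
      ring
    rw [h5]
    ring
  have e1 : ∀ t, conj (mk (q / cF f) 0 f t) = q * u * ((xT f t : ℂ) * E t ^ 2) := fun t => by
    unfold OMS.mk
    rw [← hxd, ← hyd, hζ, hEp t]
    simp only [xT, hsr, map_mul, map_add, map_pow, Complex.conj_ofReal, Complex.conj_conj]
    push_cast
    have : ∀ z : ℂ, conj u * (u * z) ^ 2 = u * z ^ 2 * (conj u * u) := fun z => by ring
    rw [zero_mul, add_zero]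
    rw [← hxd, ← hyd]
    linear_combination ((de x y f t : ℂ) * (q / cF f) * r * u * E t ^ 2) * hcu
  have e2 : ∫ t, mk (q / cF f) 0 f t * K t ∂(vm x y) =
      conj (q * u * ∫ t, (xT f t : ℂ) * E t ^ 2 * conj (K t) ∂(vm x y)) := by
    rw [← integral_const_mul, ← integral_conj]
    congr 1
    funext t
    have := e1 t
    have h2 : mk (q / cF f) 0 f t = conj (q * u * ((xT f t : ℂ) * E t ^ 2)) := by
      rw [← this, Complex.conj_conj]
    rw [h2]
    simp only [map_mul, map_pow, Complex.conj_conj, Complex.conj_ofReal]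
    ring
  have e3 : ∫ t, mk (q / cF f) 0 f t * conj (K t) ∂(vm x y) =
      conj (q * u * ∫ t, (xT f t : ℂ) * E t ^ 2 * K t ∂(vm x y)) := by
    rw [← integral_const_mul, ← integral_conj]
    congr 1
    funext t
    have := e1 t
    have h2 : mk (q / cF f) 0 f t = conj (q * u * ((xT f t : ℂ) * E t ^ 2)) := by
      rw [← this, Complex.conj_conj]
    rw [h2]
    simp only [map_mul, map_pow, Complex.conj_ofReal]
    ring
  have h2 : √(1 - rF f) = cF f := rfl
  simp only [] at w3 ⊢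
  rw [w3, mul_zero, zero_mul, add_zero]
  rw [h2, e2, e3, eA, eB]
  have n1 : ∀ z : ℂ, ‖u * z‖ = ‖z‖ := fun z => by rw [norm_mul, hun, one_mul]
  rw [n1, n1]
  generalize ∫ t, (xT f t : ℂ) * E t ^ 2 * conj (K t) ∂(vm x y) = U
  generalize ∫ t, (xT f t : ℂ) * E t ^ 2 * K t ∂(vm x y) = V
  have r1 : ∀ a z : ℂ, (u * a * conj (q * u * z)).re = q * (conj a * z).re := fun a z => by
    have : u * a * conj (q * u * z) = (q : ℂ) * conj (conj a * z) * (u * conj u) := by
      simp only [map_mul, Complex.conj_ofReal, Complex.conj_conj]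
      ring
    rw [this, hu1, mul_one, Complex.re_ofReal_mul, Complex.conj_re]
  rw [r1, r1, Complex.sub_re]
  ring


/-- **the area bound from the weighted state inequality** -/
theorem area_W {q T : ℝ} {w : ℝ → ℝ} {w₁ c₁ : ℝ} (hw : WPR.Wt w w₁ c₁)
    (H : ∀ f, Ef f → 0 ≤ X1 f → X2 f = 0 → StateW q (w (cF f)) T f)
    (M : Type) [MetricSpace M] [CompactSpace M] (γ : ℝ → M) (C : Calc M γ) (hγ : Bd γ) :
    2 * Real.pi * (∫ t in (0 : ℝ)..1, w t) ≤ T * C.vol := by
  have hQ : ContDiffOn ℝ 1 (fun r : ℝ => q / √(1 - r)) (Iio 1) := by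
    refine contDiffOn_const.div ((contDiffOn_const.sub contDiffOn_id).sqrt fun r hr => ?_) fun r hr => ?_
    · exact (sub_pos.2 (mem_Iio.1 hr)).ne'
    · exact (Real.sqrt_pos.2 (sub_pos.2 (mem_Iio.1 hr))).ne'
  have hQ0 : Tendsto (fun c : ℝ => q / √(1 - (1 - c ^ 2)) * c ^ 2) (𝓝[>] 0) (𝓝 0) := by
    have h1 : Tendsto (fun c : ℝ => q * c) (𝓝[>] 0) (𝓝 0) := by
      have : Tendsto (fun c : ℝ => q * c) (𝓝 0) (𝓝 (q * 0)) := (continuous_const.mul continuous_id).tendsto 0
      rw [mul_zero] at this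
      exact this.mono_left nhdsWithin_le_nhds
    refine h1.congr' ?_
    filter_upwards [self_mem_nhdsWithin] with c hc
    have hc' : (0 : ℝ) < c := hc
    rw [sub_sub_cancel, Real.sqrt_sq hc'.le]
    field_simp
  have hZ0 : Tendsto (fun c : ℝ => (fun _ : ℝ => (0 : ℝ)) (1 - c ^ 2) * c ^ 2) (𝓝[>] 0) (𝓝 0) := by
    simp
  have := OMS.area5 (WPR.contDiffOn_Wp hw) (WPR.continuousOn_Wp hw) hQ contDiffOn_const hQ0 hZ0
    (cert_W (fun c h0 h1 => WPR.Wp_eqn hw (by linarith) h1) H) M γ C hγ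
  rwa [WPR.Wp_zero hw] at this

section state

variable {f : ℝ → ℝ} (hf : Ef f) (h2 : X2 f = 0)

include hf h2

/-- **the elimination with multipliers**, weight `w` -/
theorem stateW_H {T b1 w : ℝ} {b2 : ℂ} (hT : 0 < T)
    (h : ∀ u v : ℂ, 0 ≤ HF T (MX f) b1 b2 (sr f) (YX f) u v + (1 - w) * (‖u‖ ^ 2 - ‖v‖ ^ 2)) :
    StateW (3 / 4) w T f := by
  intro k mk hk
  have hX := X1_lt hf h2
  have hp := vm_prob hX
  have hs : ‖sr f‖ ≤ 71 / 100 := sr_lt hf h2
  have hs0 := norm_nonneg (sr f)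
  have hD : 1 - ‖sr f‖ ^ 2 ≠ 0 := by nlinarith
  have hDc : (((1 - ‖sr f‖ ^ 2 : ℝ)) : ℂ) ≠ 0 := Complex.ofReal_ne_zero.2 hD
  have hss : sr f * conj (sr f) = ((‖sr f‖ ^ 2 : ℝ) : ℂ) := by
    rw [Complex.mul_conj, Complex.normSq_eq_norm_sq]
  have cE := cont_Er hf h2
  have cX : Continuous fun t => (xT f t : ℂ) := Complex.continuous_ofReal.comp (cont_xT hf)
  have cEc : Continuous fun t => (starRingEnd ℂ) (Er f t) := Complex.continuous_conj.comp cE
  have hkm : AEStronglyMeasurable k (vm (X1 f) 0) := mk.aestronglyMeasurable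
  have hkc : AEStronglyMeasurable (fun x => conj (k x)) (vm (X1 f) 0) :=
    Complex.continuous_conj.comp_aestronglyMeasurable hkm
  have ic : ∀ {g : ℝ → ℂ}, Continuous g → Integrable (fun t => g t * conj (k t)) (vm (X1 f) 0) := by
    intro g hg
    refine ((int_of_cont hX hg).bdd_mul (c := 1) hkc (Eventually.of_forall fun t => ?_)).congr
      (Eventually.of_forall fun x => mul_comm _ _)
    rw [RCLike.norm_conj]
    exact hk t
  have ik : ∀ {g : ℝ → ℂ}, Continuous g → Integrable (fun t => g t * k t) (vm (X1 f) 0) := by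
    intro g hg
    exact ((int_of_cont hX hg).bdd_mul (c := 1) hkm (Eventually.of_forall hk)).congr
      (Eventually.of_forall fun x => mul_comm _ _)
  set a := ∫ t, Er f t * conj (k t) ∂(vm (X1 f) 0) with ha
  set b := ∫ t, Er f t * k t ∂(vm (X1 f) 0) with hb
  set F := ∫ t, (xT f t : ℂ) * Er f t ^ 2 * conj (k t) ∂(vm (X1 f) 0) with hF
  set G := ∫ t, (xT f t : ℂ) * Er f t ^ 2 * k t ∂(vm (X1 f) 0) with hG
  have cjI : ∀ g : ℝ → ℂ, ∫ t, conj (g t) ∂(vm (X1 f) 0) = conj (∫ t, g t ∂(vm (X1 f) 0)) := fun g => integral_conj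
  have a' : ∫ t, conj (Er f t) * k t ∂(vm (X1 f) 0) = conj a := by
    rw [ha, ← cjI]
    refine integral_congr_ae (Eventually.of_forall fun t => ?_)
    simp
  have b' : ∫ t, conj (Er f t) * conj (k t) ∂(vm (X1 f) 0) = conj b := by
    rw [hb, ← cjI]
    refine integral_congr_ae (Eventually.of_forall fun t => ?_)
    simp
  have F' : ∫ t, (xT f t : ℂ) * conj (Er f t) ^ 2 * k t ∂(vm (X1 f) 0) = conj F := by
    rw [hF, ← cjI]
    refine integral_congr_ae (Eventually.of_forall fun t => ?_)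
    simp
  have G' : ∫ t, (xT f t : ℂ) * conj (Er f t) ^ 2 * conj (k t) ∂(vm (X1 f) 0) = conj G := by
    rw [hG, ← cjI]
    refine integral_congr_ae (Eventually.of_forall fun t => ?_)
    simp
  set D : ℂ := ((1 - ‖sr f‖ ^ 2 : ℝ) : ℂ) with hDdef
  have hD' : D = 1 - sr f * conj (sr f) := by
    rw [hDdef, hss]
    push_cast
    rfl
  have hD2 : (1 - (‖sr f‖ : ℂ) ^ 2) = D := by
    rw [hDdef]
    push_cast
    rfl
  have j1 : Integrable (fun t => Er f t * conj (k t)) (vm (X1 f) 0) := ic cE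
  have j2 : Integrable (fun t => (xT f t : ℂ) * Er f t ^ 2 * conj (k t)) (vm (X1 f) 0) := ic (cX.mul (cE.pow 2))
  have j3 : Integrable (fun t => conj (Er f t) * conj (k t)) (vm (X1 f) 0) := ic cEc
  have j4 : Integrable (fun t => (xT f t : ℂ) * conj (Er f t) ^ 2 * conj (k t)) (vm (X1 f) 0) :=
    ic (cX.mul (cEc.pow 2))
  have l1 : Integrable (fun t => Er f t * k t) (vm (X1 f) 0) := ik cE
  have l2 : Integrable (fun t => (xT f t : ℂ) * Er f t ^ 2 * k t) (vm (X1 f) 0) := ik (cX.mul (cE.pow 2))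
  have l3 : Integrable (fun t => conj (Er f t) * k t) (vm (X1 f) 0) := ik cEc
  have l4 : Integrable (fun t => (xT f t : ℂ) * conj (Er f t) ^ 2 * k t) (vm (X1 f) 0) :=
    ik (cX.mul (cEc.pow 2))
  -- the moments of the two functions
  have P1 : ∫ t, pht (Er f) (xT f) (3 / 4) (sr f) t * conj (k t) ∂(vm (X1 f) 0)
      = ((a + 3 / 2 * F) + sr f * (conj b + 3 / 2 * conj G)) / D := by
    have e : ∀ t, pht (Er f) (xT f) (3 / 4) (sr f) t * conj (k t)
        = (1 / D * (Er f t * conj (k t)) + 3 / 2 / D * ((xT f t : ℂ) * Er f t ^ 2 * conj (k t)))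
          + (sr f / D * (conj (Er f t) * conj (k t))
            + sr f * (3 / 2) / D * ((xT f t : ℂ) * conj (Er f t) ^ 2 * conj (k t))) := by
      intro t
      unfold pht
      simp only [map_add, map_mul, map_pow, Complex.conj_ofReal, map_ofNat]
      push_cast
      rw [hD2]
      ring
    simp only [e]
    have q1 : Integrable (fun t => 1 / D * (Er f t * conj (k t))
      + 3 / 2 / D * ((xT f t : ℂ) * Er f t ^ 2 * conj (k t))) (vm (X1 f) 0) := (j1.const_mul _).add (j2.const_mul _)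
    have q2 : Integrable (fun t => sr f / D * (conj (Er f t) * conj (k t))
      + sr f * (3 / 2) / D * ((xT f t : ℂ) * conj (Er f t) ^ 2 * conj (k t))) (vm (X1 f) 0) :=
      (j3.const_mul _).add (j4.const_mul _)
    rw [integral_add q1 q2, integral_add (j1.const_mul _) (j2.const_mul _),
      integral_add (j3.const_mul _) (j4.const_mul _),
      integral_const_mul, integral_const_mul, integral_const_mul, integral_const_mul, b', G', ← ha, ← hF]
    ring
  have P2 : ∫ t, pht (Er f) (xT f) (3 / 4) (sr f) t * k t ∂(vm (X1 f) 0)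
      = ((b + 3 / 2 * G) + sr f * (conj a + 3 / 2 * conj F)) / D := by
    have e : ∀ t, pht (Er f) (xT f) (3 / 4) (sr f) t * k t
        = (1 / D * (Er f t * k t) + 3 / 2 / D * ((xT f t : ℂ) * Er f t ^ 2 * k t))
          + (sr f / D * (conj (Er f t) * k t)
            + sr f * (3 / 2) / D * ((xT f t : ℂ) * conj (Er f t) ^ 2 * k t)) := by
      intro t
      unfold pht
      simp only [map_add, map_mul, map_pow, Complex.conj_ofReal, map_ofNat]
      push_cast
      rw [hD2]
      ring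
    simp only [e]
    have q1 : Integrable (fun t => 1 / D * (Er f t * k t)
      + 3 / 2 / D * ((xT f t : ℂ) * Er f t ^ 2 * k t)) (vm (X1 f) 0) := (l1.const_mul _).add (l2.const_mul _)
    have q2 : Integrable (fun t => sr f / D * (conj (Er f t) * k t)
      + sr f * (3 / 2) / D * ((xT f t : ℂ) * conj (Er f t) ^ 2 * k t)) (vm (X1 f) 0) :=
      (l3.const_mul _).add (l4.const_mul _)
    rw [integral_add q1 q2, integral_add (l1.const_mul _) (l2.const_mul _),
      integral_add (l3.const_mul _) (l4.const_mul _),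
      integral_const_mul, integral_const_mul, integral_const_mul, integral_const_mul, a', F', ← hb, ← hG]
    ring
  rw [P1, P2]
  -- the two variables
  obtain ⟨u, hu⟩ : ∃ u : ℂ, u = (conj a - conj (sr f) * b) / D := ⟨_, rfl⟩
  obtain ⟨v, hv⟩ : ∃ v : ℂ, v = (b - sr f * conj a) / D := ⟨_, rfl⟩
  have hDcj : conj D = D := Complex.conj_ofReal _
  have ea : a = conj u + sr f * conj v := by
    rw [hu, hv]
    simp only [map_div₀, map_sub, map_mul, Complex.conj_conj, hDcj]
    field_simp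
    rw [hD']
    ring
  have eb : conj b = conj v + conj (sr f) * conj u := by
    rw [hu, hv]
    simp only [map_div₀, map_sub, map_mul, Complex.conj_conj, hDcj]
    field_simp
    rw [hD']
    ring
  -- the functional
  have key := lin_le (μ := vm (X1 f) 0) (Ψ := fun t => Psi T b1 b2 u v (Er f t) (xT f t)) (k := k) hT
    (Eventually.of_forall hk) hkm
    (int_of_cont hX (by unfold Psi; fun_prop)) (int_of_cont hX (by unfold Psi; fun_prop))
  have I0 : ∫ t, Psi T b1 b2 u v (Er f t) (xT f t) * conj (k t) ∂(vm (X1 f) 0)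
      = 2 * T * u * a + 2 * (b1 * v + conj b2 * u) * conj b + 3 / 2 * (u * F - v * conj G) := by
    have e : ∀ t, Psi T b1 b2 u v (Er f t) (xT f t) * conj (k t)
        = (2 * T * u * (Er f t * conj (k t)) + 2 * (b1 * v + conj b2 * u) * (conj (Er f t) * conj (k t)))
          + (3 / 2 * u * ((xT f t : ℂ) * Er f t ^ 2 * conj (k t))
            + -(3 / 2 * v) * ((xT f t : ℂ) * conj (Er f t) ^ 2 * conj (k t))) := by
      intro t
      unfold Psi
      ring
    simp only [e]
    have q1 : Integrable (fun t => 2 * T * u * (Er f t * conj (k t))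
      + 2 * (b1 * v + conj b2 * u) * (conj (Er f t) * conj (k t))) (vm (X1 f) 0) :=
      (j1.const_mul _).add (j3.const_mul _)
    have q2 : Integrable (fun t => 3 / 2 * u * ((xT f t : ℂ) * Er f t ^ 2 * conj (k t))
            + -(3 / 2 * v) * ((xT f t : ℂ) * conj (Er f t) ^ 2 * conj (k t))) (vm (X1 f) 0) :=
      (j2.const_mul _).add (j4.const_mul _)
    rw [integral_add q1 q2, integral_add (j1.const_mul _) (j3.const_mul _),
      integral_add (j2.const_mul _) (j4.const_mul _),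
      integral_const_mul, integral_const_mul, integral_const_mul, integral_const_mul, b', G', ← ha, ← hF]
    ring
  have I1 : ((∫ t, ‖Psi T b1 b2 u v (Er f t) (xT f t)‖ ^ 2 ∂(vm (X1 f) 0) : ℝ) : ℂ)
      = ∫ t, Psi T b1 b2 u v (Er f t) (xT f t) * conj (Psi T b1 b2 u v (Er f t) (xT f t)) ∂(vm (X1 f) 0) := by
    rw [← integral_complex_ofReal]
    refine integral_congr_ae (Eventually.of_forall fun t => ?_)
    show ((‖Psi T b1 b2 u v (Er f t) (xT f t)‖ ^ 2 : ℝ) : ℂ)
      = Psi T b1 b2 u v (Er f t) (xT f t) * conj (Psi T b1 b2 u v (Er f t) (xT f t))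
    rw [Complex.mul_conj, Complex.normSq_eq_norm_sq]
  have I2 := congrArg Complex.re I1
  rw [mean_Psi hf h2, Complex.ofReal_re] at I2
  rw [I0, I2] at key
  have hH := h u v
  rw [HF_eq hT.ne'] at hH
  -- the left side
  have eL : (conj a * (((a + 3 / 2 * F) + sr f * (conj b + 3 / 2 * conj G)) / D)).re
      - (conj b * (((b + 3 / 2 * G) + sr f * (conj a + 3 / 2 * conj F)) / D)).re
      = (u * a + 3 / 2 * (u * F)).re - (v * conj b + 3 / 2 * (v * conj G)).re := by
    have c1 : ∀ z : ℂ, z.re = (conj z).re := fun z => (Complex.conj_re z).symm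
    have e1 : conj a * (((a + 3 / 2 * F) + sr f * (conj b + 3 / 2 * conj G)) / D)
        = conj a / D * (a + 3 / 2 * F) + conj a * sr f / D * (conj b + 3 / 2 * conj G) := by ring
    have e2 : conj b * (((b + 3 / 2 * G) + sr f * (conj a + 3 / 2 * conj F)) / D)
        = conj b / D * (b + 3 / 2 * G) + conj b * sr f / D * (conj a + 3 / 2 * conj F) := by ring
    have e3 : (conj b / D * (b + 3 / 2 * G)).re = (b / D * (conj b + 3 / 2 * conj G)).re := by
      rw [c1]
      simp only [map_mul, map_div₀, map_add, Complex.conj_conj, hDcj, map_ofNat]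
    have e4 : (conj b * sr f / D * (conj a + 3 / 2 * conj F)).re = (b * conj (sr f) / D * (a + 3 / 2 * F)).re := by
      rw [c1]
      simp only [map_mul, map_div₀, map_add, Complex.conj_conj, hDcj, map_ofNat]
    rw [e1, e2, Complex.add_re, Complex.add_re, e3, e4]
    have e5 : u * a + 3 / 2 * (u * F) = conj a / D * (a + 3 / 2 * F) - b * conj (sr f) / D * (a + 3 / 2 * F) := by
      rw [hu]
      ring
    have e6 : v * conj b + 3 / 2 * (v * conj G)
        = b / D * (conj b + 3 / 2 * conj G) - conj a * sr f / D * (conj b + 3 / 2 * conj G) := by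
      rw [hv]
      ring
    rw [e5, e6, Complex.sub_re, Complex.sub_re]
    ring
  have eu : ‖(a - sr f * conj b) / D‖ ^ 2 = ‖u‖ ^ 2 := by
    have : u = conj ((a - sr f * conj b) / D) := by
      rw [hu]
      simp only [map_div₀, map_sub, map_mul, Complex.conj_conj, hDcj]
    rw [this, RCLike.norm_conj]
  rw [eL, ← hv, eu]
  rw [← ea, ← eb] at hH
  have e7 : (2 * T * u * a + 2 * (b1 * v + conj b2 * u) * conj b + 3 / 2 * (u * F - v * conj G)).re
      = (2 * T * u * a + 2 * (b1 * v + conj b2 * u) * conj b - u * a + v * conj b).re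
        + ((u * a + 3 / 2 * (u * F)).re - (v * conj b + 3 / 2 * (v * conj G)).re) := by
    rw [← Complex.sub_re, ← Complex.add_re]
    congr 1
    ring
  rw [e7] at key
  linarith


end state

end Pool.Agent.FPX.SQW
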