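import Mathlib
import Pool.Agent.FPX.SQW
import Pool.Agent.FPX.SQE

/-
SQX (helper88): the weighted area bound from inequalities for the classes `St s`, surfaces, and the reduction
to finitely many classes with nodal certificates.
-/

open MeasureTheory Set Filter Measure Topology Manifold Bundle
open scoped ENNReal NNReal ContDiff ComplexConjugate

noncomputable section

namespace Pool.Agent.FPX.SQX

open Pool.Agent.FPX Pool.Agent.FPX.UMP Pool.Agent.FPX.UMQ Pool.Agent.FPX.UXA Pool.Agent.EWD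
open Pool.Agent.FPX.F54 (X1 X2 X_lt X_G1 X_G2)
open Pool.Agent.FPX.OMS (rF cF)
open Pool.Agent.FPX.SQA Pool.Agent.FPX.SQM Pool.Agent.FPX.SQN Pool.Agent.FPX.ALX Pool.Agent.FPX.ALY
open Pool.Agent.FPX.SQW

/-- the class inequality at the latitude `s` with the weight `w` -/
def ClassW (w : ℝ → ℝ) (s : ℝ) : Prop :=
  ∀ X : ℝ → ℝ, St s X → (∀ a, |X a| ≤ 0.62 * s) → ∃ b1 : ℝ, ∃ b2 : ℂ, ∀ u v : ℂ,
    0 ≤ HF 1 (mS X) b1 b2 (mG X) (mY X) u v + (1 - w (√(1 - s ^ 2))) * (‖u‖ ^ 2 - ‖v‖ ^ 2)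

/-- **the weighted area bound from the classes** -/
theorem area_Sw {w : ℝ → ℝ} {w₁ c₁ : ℝ} (hw : WPR.Wt w w₁ c₁)
    (H : ∀ s : ℝ, 0 ≤ s → s < 1 → ClassW w s)
    (M : Type) [MetricSpace M] [CompactSpace M] (γ : ℝ → M) (C : Calc M γ) (hγ : Bd γ) :
    2 * Real.pi * (∫ t in (0 : ℝ)..1, w t) ≤ C.vol := by
  have key := area_W (q := 3 / 4) (T := 1) hw (fun f hf h1 h2 => ?_) M γ C hγ
  · rwa [one_mul] at key
  · have hs := s_lt hf h1 h2
    obtain ⟨b1, b2, h⟩ := H (X1 f) h1 hs _ (st hf h1 h2) (SQO.Xa_le hf h1 h2)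
    have e : cF f = √(1 - X1 f ^ 2) := by
      unfold cF rF
      rw [h2]
      congr 1
      ring
    rw [← MX_eq hf h1 h2, ← sr_mG hf h1 h2, ← YX_eq hf h1 h2, ← e] at h
    exact stateW_H hf h2 one_pos h

section

variable {M : Type} [MetricSpace M] [ChartedSpace H74.FAC.HP M] [IsManifold (𝓡∂ 2) ∞ M] [CompactSpace M]
  [RiemannianBundle (fun x : M => TangentSpace (𝓡∂ 2) x)]
  [IsContMDiffRiemannianBundle (𝓡∂ 2) ∞ H74.FAC.E2 (fun x : M => TangentSpace (𝓡∂ 2) x)]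
  [IsRiemannianManifold (𝓡∂ 2) M]

/-- bound for the area of one surface -/
theorem area_of_vol {A₀ : ℝ}
    (H : ∀ (N : Type) [MetricSpace N] [CompactSpace N] (γ : ℝ → N) (C : Calc N γ), Bd γ → A₀ ≤ C.vol)
    (ho : H74.FAC.Orientable M) {φ : H74.FAC.S1 → M} (hφ : H74.FAC.IsometricFilling φ) :
    ENNReal.ofReal A₀ ≤ H74.FAC.area M := by
  obtain ⟨A⟩ := H74.FAC.exists_cov ho
  have : Nonempty M := ⟨φ 0⟩
  exact le_trans (ENNReal.ofReal_le_ofReal (H M _ (cal A hφ) (bd_gam hφ))) (cal_vol_le A hφ)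

end

open Pool.Agent.H74.Surf in
/-- **surfaces** -/
theorem surf_of_vol {A₀ : ℝ}
    (H : ∀ (N : Type) [MetricSpace N] [CompactSpace N] (γ : ℝ → N) (C : Calc N γ), Bd γ → A₀ ≤ C.vol)
    (M : Type) [MetricSpace M] [CompactSpace M] [ChartedSpace (EuclideanHalfSpace 2) M]
    [RiemannianSpace (𝓡∂ 2) M] (horient : H74.Surf.Orientable (𝓡∂ 2) M)
    (φ : H74.Surf.S1 → M) (hφ : H74.Surf.IsometricFilling (𝓡∂ 2) φ) :
    ENNReal.ofReal A₀ ≤ H74.Surf.area M :=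
  letI R : RiemannianSpace (𝓡∂ 2) M := inferInstance
  letI := R.smooth
  letI := R.metric
  letI := R.smoothMetric
  letI := R.dist_eq
  area_of_vol (M := M) H horient (φ := φ) ⟨hφ.dist_eq, hφ.range_eq⟩

open Pool.Agent.H74.Surf in
/-- **surfaces, weighted** -/
theorem surf_Sw {w : ℝ → ℝ} {w₁ c₁ : ℝ} (hw : WPR.Wt w w₁ c₁) (H : ∀ s : ℝ, 0 ≤ s → s < 1 → ClassW w s)
    (M : Type) [MetricSpace M] [CompactSpace M] [ChartedSpace (EuclideanHalfSpace 2) M]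
    [RiemannianSpace (𝓡∂ 2) M] (horient : H74.Surf.Orientable (𝓡∂ 2) M)
    (φ : H74.Surf.S1 → M) (hφ : H74.Surf.IsometricFilling (𝓡∂ 2) φ) :
    ENNReal.ofReal (2 * Real.pi * ∫ t in (0 : ℝ)..1, w t) ≤ H74.Surf.area M :=
  surf_of_vol (fun N _ _ γ C hγ => area_Sw hw H N γ C hγ) M horient φ hφ

/-! ### finitely many classes -/

/-- the certificate of the class `s'`: the form with `ω₁` at `u` and `ω₂` at `v` -/
def CertW (s' ω₁ ω₂ : ℝ) : Prop :=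
  ∀ X : ℝ → ℝ, St s' X → (∀ a, |X a| ≤ 0.62 * s') → ∃ b1 : ℝ, ∃ b2 : ℂ, ∀ u v : ℂ,
    0 ≤ HF 1 (mS X) b1 b2 (mG X) (mY X) u v + (ω₁ * ‖u‖ ^ 2 - ω₂ * ‖v‖ ^ 2)

/-- a certificate of a larger class gives the inequality at all latitudes where `1 - w` is in the range -/
theorem classW_of {w : ℝ → ℝ} {s s' ω₁ ω₂ : ℝ} (hc : CertW s' ω₁ ω₂) (h0 : 0 ≤ s) (hs : s ≤ s') (h1 : s' ≤ 1)
    (hw1 : ω₁ ≤ 1 - w (√(1 - s ^ 2))) (hw2 : 1 - w (√(1 - s ^ 2)) ≤ ω₂) : ClassW w s := by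
  intro X hX hb
  obtain ⟨b1, b2, h⟩ := hc X (hX.mono h0 hs h1) fun a => (hb a).trans (by nlinarith)
  refine ⟨b1, b2, fun u v => (h u v).trans ?_⟩
  have p1 := mul_le_mul_of_nonneg_right hw1 (sq_nonneg ‖u‖)
  have p2 := mul_le_mul_of_nonneg_right hw2 (sq_nonneg ‖v‖)
  linarith

end Pool.Agent.FPX.SQX
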