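import Mathlib
import Pool.Agent.FPX.SQX

/-
SQY (helper88): nodal certificates for the class `St s`, with weights: finite dimensional statement `CertS`
and its consequence `SQX.CertW s ω₁ ω₂`.
-/

open MeasureTheory Set Filter Topology Manifold
open scoped ENNReal NNReal ContDiff ComplexConjugate

noncomputable section

namespace Pool.Agent.FPX.SQE

open Pool.Agent.FPX.SQM Pool.Agent.FPX.SQN Pool.Agent.FPX.SQC Pool.Agent.FPX.SQD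
open Pool.Agent.FPX.ALX (St)
open Pool.Agent.FPX.NOD

/-- the analytic checks of the data for the class `s`, pointwise bound `xm` -/
structure Dat.OkS (D : Dat) (s xm : ℝ) : Prop where
  grid : Grid D.N D.r
  cell : ∀ i < D.N, CellOk s D.r i (D.k i) (D.C i)
  η0 : 0 ≤ D.η
  t1 : ∀ i < D.N, ∀ v, 0 ≤ v → v ≤ 1 → ‖ph 1 (pt D.r i v) - Fp (D.c1 i) v‖ ≤ D.η
  t3 : ∀ i < D.N, ∀ v, 0 ≤ v → v ≤ 1 → ‖ph 3 (pt D.r i v) - Fp (D.c3 i) v‖ ≤ D.η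
  t4 : ∀ i < D.N, ∀ v, 0 ≤ v → v ≤ 1 → ‖ph 4 (pt D.r i v) - Fp (D.c4 i) v‖ ≤ D.η
  ebr : ∀ i < D.N, D.k i = .reg → ((D.C i).H + (D.C i).L) / 4 ≤ D.eb i
  ebf : ∀ i < D.N, D.k i = .fst → ((D.C i).H + 2 * xm) / 2 ≤ D.eb i
  ebl : ∀ i < D.N, D.k i = .lst → ((D.C i).L + 2 * xm) / 2 ≤ D.eb i

/-- the admissible node values -/
structure Dat.AdmS (D : Dat) (xm : ℝ) (x : ℕ → ℝ) : Prop where
  last : x D.N = -x 0
  p : ∀ i < D.N, D.k i ≠ .lst → 0 ≤ (D.C i).H - (x (i + 1) - x i)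
  q : ∀ i < D.N, D.k i ≠ .fst → 0 ≤ (D.C i).L + (x (i + 1) - x i)
  bd : ∀ i, |x i| ≤ xm
  one : ‖Ln D.N D.r D.k D.C D.c1 x‖ ^ 2 ≤ fL D.N D.r D.k D.C D.eb xm D.η x

/-- the nodal form -/
def Dat.formS (D : Dat) (xm b1 be th t ω₁ ω₂ : ℝ) (x : ℕ → ℝ) (u v : ℂ) : ℝ :=
  AF 1 b1 be th (fS D.N D.r D.k D.C x)
    (9 / (16 * 1) * fQ D.N D.r D.k D.C D.eb xm 0 x + 9 / (16 * 1) / t * fQ D.N D.r D.k D.C D.eb xm D.η x
      + k2 1 be * (1 / th - 1) * (9 / 4 * fL D.N D.r D.k D.C D.eb xm D.η x))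
    (9 / (16 * 1) * fQ D.N D.r D.k D.C D.eb xm 0 x + 9 / (16 * 1) * t * fQ D.N D.r D.k D.C D.eb xm D.η x)
    (-(3 / 2) * Ln D.N D.r D.k D.C D.c3 x) (Qn D.N D.r D.k D.C D.c4 x) u v
    + (ω₁ * ‖u‖ ^ 2 - ω₂ * ‖v‖ ^ 2)

/-- **the finite dimensional statement** -/
def Dat.CertS (D : Dat) (xm b1 be th t ω₁ ω₂ : ℝ) : Prop :=
  ∀ x : ℕ → ℝ, D.AdmS xm x → ∀ u v : ℂ, 0 ≤ D.formS xm b1 be th t ω₁ ω₂ x u v

theorem ce_leS {k : Kd} {C : Cd} {d eb xm : ℝ} (hd : |d| ≤ 2 * xm)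
    (h1 : k = .reg → 0 < C.H + C.L ∧ (C.H + C.L) / 4 ≤ eb) (h2 : k = .fst → (C.H + 2 * xm) / 2 ≤ eb)
    (h3 : k = .lst → (C.L + 2 * xm) / 2 ≤ eb) : ce k C d ≤ eb := by
  have h4 := abs_le.1 hd
  cases k with
  | reg =>
    obtain ⟨h5, h6⟩ := h1 rfl
    refine le_trans ?_ h6
    unfold ce
    simp only
    rw [div_le_iff₀ h5]
    nlinarith [sq_nonneg (C.H - d - (C.L + d))]
  | fst =>
    have := h2 rfl
    unfold ce
    simp only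
    linarith
  | lst =>
    have := h3 rfl
    unfold ce
    simp only
    linarith

/-- **from the finite statement to the class `s`** -/
theorem certW_of {D : Dat} {s xm : ℝ} (hs0 : 0 < s) (hs1 : s ≤ 1) (hxm : 0.62 * s ≤ xm) (hD : D.OkS s xm)
    {b1 be th t ω₁ ω₂ : ℝ} (hk : 0 < k2 1 be) (hth : 0 < th)
    (hth1 : th ≤ 1) (ht : 0 < t) (hc : D.CertS xm b1 be th t ω₁ ω₂) : SQX.CertW s ω₁ ω₂ := by
  intro X hXs hb'
  have hX : St 1 X := hXs.mono hs0.le hs1 le_rfl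
  have hb : ∀ a, |X a| ≤ xm := fun a => (hb' a).trans hxm
  refine ⟨b1, be * conj (mG X), fun u v => ?_⟩
  have G := hD.grid
  have hcell := fun i hi => cell_le hXs hs0.le le_rfl hs0 hs1 (G.inc i hi) (hD.cell i hi)
  have heb : ∀ i < D.N, ce (D.k i) (D.C i) (X (Real.pi * D.r (i + 1)) - X (Real.pi * D.r i)) ≤ D.eb i := by
    intro i hi
    have a1 := abs_le.1 (hb (Real.pi * D.r (i + 1)))
    have a2 := abs_le.1 (hb (Real.pi * D.r i))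
    refine ce_leS (abs_le.2 ⟨by linarith, by linarith⟩) (fun h => ⟨?_, hD.ebr i hi h⟩) (hD.ebf i hi) (hD.ebl i hi)
    have := hD.cell i hi
    rw [h] at this
    exact this.1
  have hxc : ∀ i < D.N, ∀ v, 0 ≤ v → v ≤ 1 → |X (pt D.r i v) - Xh (xb X D.r i)
      (cd (D.k i) (D.C i) (X (Real.pi * D.r (i + 1)) - X (Real.pi * D.r i)))
      (cg (D.k i) (D.C i) (X (Real.pi * D.r (i + 1)) - X (Real.pi * D.r i))) v|
      ≤ ce (D.k i) (D.C i) (X (Real.pi * D.r (i + 1)) - X (Real.pi * D.r i)) := fun i hi => (hcell i hi).2.2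
  have hadm : D.AdmS xm (xn D.r X) := by
    refine ⟨xn_last hXs G, fun i hi => p_nonneg hXs hs0.le le_rfl hs0 hs1 G hD.cell hi,
      fun i hi => q_nonneg hXs hs0.le le_rfl hs0 hs1 G hD.cell hi, fun i => hb _, ?_⟩
    exact C1_le hX hb G hxc heb hD.η0 hD.t1
  have key := hc _ hadm u v
  have h1 := AF_le_HF (b1 := b1) one_pos hk hth hth1 ht (mS_le hX hb G hxc heb) (mY_le hX hb G hxc heb hD.t4)
    (mG_le hX hb G hxc heb hD.η0 hD.t3) u v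
  exact key.trans (add_le_add_left h1 _)

end Pool.Agent.FPX.SQE
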