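import Mathlib
import Pool.Agent.FPX.NOT
import Pool.Agent.FPX.NOR
import Pool.Agent.FPX.NOS
import Pool.Agent.FPX.SQY

/-
NOX (helper42): one integer record `GD` per grid and class. `GD.dat` is the data record of SQE; `GD.okS` derives
`Dat.OkS` from Booleans (grid, slopes by helper87's check, trigonometric data by `chkF`); `GD.geo`, `GD.fnOk` are
the corresponding statements for the records of NOR, NOU. The bounds `eb`, `Hp`, `Lq` are computed.
-/

set_option autoImplicit false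

noncomputable section

namespace Pool.Agent.FPX.NOX

open Pool.Agent.FPX.NOD Pool.Agent.FPX.NOT Pool.Agent.FPX.SQE

/-- a complex cubic with integer coefficients (over `S`) -/
structure T8 where
  x0 : ℤ
  y0 : ℤ
  x1 : ℤ
  y1 : ℤ
  x2 : ℤ
  y2 : ℤ
  x3 : ℤ
  y3 : ℤ
deriving Inhabited

/-- a cell: end points `a / d`, `b / d`, kind `0` regular, `1` first, otherwise last; `H, H', L, L'` over `M` -/
structure IC where
  a : ℤ
  b : ℤ
  k : ℕ
  H : ℤ
  H1 : ℤ
  L : ℤ
  L1 : ℤ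
deriving Inhabited

/-- the kind -/
def IC.kd (c : IC) : Kd :=
  match c.k with
  | 0 => .reg
  | 1 => .fst
  | _ => .lst

/-- the record: class `s = sn / sd`, pointwise bound `xm / M`, error `e / S` of the trigonometric data -/
structure GD where
  d : ℕ
  S : ℕ
  M : ℕ
  e : ℕ
  sn : ℕ
  sd : ℕ
  xm : ℕ
  cells : List IC
  c1 : List T8
  c3 : List T8
  c4 : List T8

/-- the majorants of a cell -/
def IC.cq (M : ℕ) (c : IC) : CQ := ⟨(c.H : ℚ) / M, (c.H1 : ℚ) / M, (c.L : ℚ) / M, (c.L1 : ℚ) / M⟩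

/-- the coefficients of a cubic -/
def T8.g (S : ℕ) (t : T8) : Fin 4 → Gq := ![gz S t.x0 t.y0, gz S t.x1 t.y1, gz S t.x2 t.y2, gz S t.x3 t.y3]

/-- the nodes -/
def nd (d : ℕ) (l : List IC) (i : ℕ) : ℚ :=
  match l[i]? with
  | some c => (c.a : ℚ) / d
  | none => 1 / 2

/-- bound of the error of a cell -/
def ebF (k : Kd) (C : CQ) (xm : ℚ) : ℚ :=
  match k with
  | .reg => (C.H + C.L) / 4
  | .fst => (C.H + 2 * xm) / 2
  | .lst => (C.L + 2 * xm) / 2

/-- upper bound of the increment -/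
def hpF (k : Kd) (C : CQ) (xm : ℚ) : ℚ :=
  match k with
  | .lst => 2 * xm
  | _ => min C.H (2 * xm)

/-- lower bound of the increment -/
def lqF (k : Kd) (C : CQ) (xm : ℚ) : ℚ :=
  match k with
  | .fst => 2 * xm
  | _ => min C.L (2 * xm)

/-- the coefficients of a list of cubics -/
def gF (S : ℕ) (l : List T8) (i : ℕ) : Fin 4 → Gq := (l.getD i default).g S

namespace GD

variable (G : GD)

def N : ℕ := G.cells.length

def s : ℚ := (G.sn : ℚ) / G.sd

def x : ℚ := (G.xm : ℚ) / G.M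

def η : ℚ := (G.e : ℚ) / G.S

def r (i : ℕ) : ℚ := nd G.d G.cells i

def k (i : ℕ) : Kd := (G.cells.getD i default).kd

def C (i : ℕ) : CQ := (G.cells.getD i default).cq G.M

def eb (i : ℕ) : ℚ := ebF (G.k i) (G.C i) G.x

def Hp (i : ℕ) : ℚ := hpF (G.k i) (G.C i) G.x

def Lq (i : ℕ) : ℚ := lqF (G.k i) (G.C i) G.x

/-- **the data record of SQE** -/
def dat : Dat where
  N := G.N
  r := rR G.r
  k := G.k
  C := cR G.C
  eb := fun i => (G.eb i : ℝ)
  c1 := fun i => NOD.toC (gre (gF G.S G.c1) i) (gim (gF G.S G.c1) i)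
  c3 := fun i => NOD.toC (gre (gF G.S G.c3) i) (gim (gF G.S G.c3) i)
  c4 := fun i => NOD.toC (gre (gF G.S G.c4) i) (gim (gF G.S G.c4) i)
  η := (G.η : ℝ)

end GD

/-! ### the grid -/

/-- the check of the end points -/
def chain (d : ℕ) : ℤ → List IC → Bool
  | a, [] => decide (2 * a = d)
  | a, c :: l => decide (c.a = a) && decide (a < c.b) && chain d c.b l

theorem chain_spec {d : ℕ} (hd : 0 < d) : ∀ {l : List IC} {a : ℤ}, chain d a l = true →
    nd d l 0 = (a : ℚ) / d ∧ nd d l l.length = 1 / 2 ∧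
      ∀ i (h : i < l.length), nd d l i = (l[i].a : ℚ) / d ∧ nd d l (i + 1) = (l[i].b : ℚ) / d ∧ l[i].a < l[i].b := by
  intro l
  induction l with
  | nil =>
    intro a h
    simp only [chain, decide_eq_true_eq] at h
    have hd' : (d : ℚ) ≠ 0 := by exact_mod_cast hd.ne'
    have e : (1 / 2 : ℚ) = (a : ℚ) / d := by
      rw [eq_div_iff hd']
      have h' : (2 * a : ℚ) = d := by exact_mod_cast h
      linarith
    refine ⟨?_, ?_, fun i h => absurd h (by simp)⟩
    · simpa [nd] using e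
    · simp [nd]
  | cons c l ih =>
    intro a h
    simp only [chain, Bool.and_eq_true, decide_eq_true_eq] at h
    obtain ⟨⟨h1, h2⟩, h3⟩ := h
    obtain ⟨i1, i2, i3⟩ := ih h3
    have sh : ∀ i, nd d (c :: l) (i + 1) = nd d l i := fun i => by simp [nd]
    have e0 : nd d (c :: l) 0 = (c.a : ℚ) / d := by simp [nd]
    refine ⟨by rw [e0, h1], ?_, ?_⟩
    · rw [List.length_cons, sh, i2]
    · intro i hi
      cases i with
      | zero =>
        refine ⟨e0, ?_, ?_⟩
        · rw [sh, i1]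
          simp
        · simp only [List.getElem_cons_zero]
          rw [h1]
          exact h2
      | succ i =>
        have hi' : i < l.length := by simpa using hi
        obtain ⟨j1, j2, j3⟩ := i3 i hi'
        refine ⟨?_, ?_, ?_⟩
        · rw [sh, j1]
          simp
        · rw [sh, j2]
          simp
        · simpa using j3

theorem getD_eq {α : Type} [Inhabited α] {l : List α} {i : ℕ} (h : i < l.length) : l.getD i default = l[i] := by
  simp [List.getD_eq_getElem?_getD, h]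

/-- the check of the trigonometric data -/
def chkT (m e d S : ℕ) (l : List IC) (q : List T8) : Bool :=
  decide (l.length ≤ q.length) && (l.zip q).all fun p =>
    chkF m ((p.1.a : ℚ) / d) ((p.1.b : ℚ) / d) (gz S p.2.x0 p.2.y0) (gz S p.2.x1 p.2.y1) (gz S p.2.x2 p.2.y2)
      (gz S p.2.x3 p.2.y3) ((e : ℚ) / S)

theorem all_zip {α β : Type} {l : List α} {q : List β} {f : α × β → Bool}
    (h : (decide (l.length ≤ q.length) && (l.zip q).all f) = true) {i : ℕ} (hi : i < l.length) :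
    ∃ hq : i < q.length, f (l[i], q[i]'hq) = true := by
  simp only [Bool.and_eq_true, decide_eq_true_eq, List.all_eq_true] at h
  obtain ⟨hl, ha⟩ := h
  have hc : i < q.length := lt_of_lt_of_le hi hl
  refine ⟨hc, ha _ ?_⟩
  rw [List.mem_iff_getElem]
  refine ⟨i, by rw [List.length_zip]; exact lt_min hi hc, ?_⟩
  simp

theorem chkT_spec {m e d S : ℕ} {l : List IC} {q : List T8} (h : chkT m e d S l q = true) (hd : 0 < d) {a : ℤ}
    (hch : chain d a l = true) : FnOk m l.length (nd d l) (gF S q) ((e : ℚ) / S) := by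
  intro i hi
  obtain ⟨hc, hok⟩ := all_zip h hi
  obtain ⟨_, _, i3⟩ := chain_spec hd hch
  obtain ⟨j1, j2, _⟩ := i3 i hi
  have e1 : gF S q i = (q[i]'hc).g S := by rw [gF, getD_eq hc]
  rw [j1, j2, e1]
  exact hok

/-- the basic checks -/
def GD.chk0 (G : GD) : Bool :=
  decide (0 < G.d) && decide (0 < G.S) && decide (0 < G.M) && decide (0 < G.sn) && decide (G.sn ≤ G.sd) &&
    decide (31 * G.sn * G.M ≤ 50 * G.sd * G.xm) &&
    (match G.cells with
      | [] => false
      | c :: _ => decide (2 * c.a = -(G.d : ℤ)) && chain G.d c.a G.cells)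

/-- what `chk0` gives -/
structure GD.Bas (G : GD) : Prop where
  d0 : 0 < G.d
  S0 : 0 < G.S
  M0 : 0 < G.M
  s0 : 0 < G.s
  s1 : G.s ≤ 1
  xm : 31 / 50 * G.s ≤ G.x
  a : ∃ a : ℤ, 2 * a = -(G.d : ℤ) ∧ chain G.d a G.cells = true

theorem GD.bas {G : GD} (h : G.chk0 = true) : G.Bas := by
  simp only [GD.chk0, Bool.and_eq_true, decide_eq_true_eq] at h
  obtain ⟨⟨⟨⟨⟨⟨hd, hS⟩, hM⟩, h1⟩, h2⟩, h3⟩, hg⟩ := h
  have hsd : 0 < G.sd := lt_of_lt_of_le h1 h2
  have hsd' : (0 : ℚ) < G.sd := by exact_mod_cast hsd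
  have hM' : (0 : ℚ) < G.M := by exact_mod_cast hM
  refine ⟨hd, hS, hM, ?_, ?_, ?_, ?_⟩
  · have : (0 : ℚ) < G.sn := by exact_mod_cast h1
    unfold GD.s
    positivity
  · unfold GD.s
    rw [div_le_one hsd']
    exact_mod_cast h2
  · unfold GD.s GD.x
    rw [div_mul_div_comm, div_le_div_iff₀ (by positivity) hM']
    have : (31 * G.sn * G.M : ℚ) ≤ 50 * G.sd * G.xm := by exact_mod_cast h3
    linarith
  · revert hg
    cases hcl : G.cells with
    | nil => intro hg; exact absurd hg (by simp)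
    | cons c l =>
      intro hg
      simp only [Bool.and_eq_true, decide_eq_true_eq] at hg
      exact ⟨c.a, hg.1, hg.2⟩

theorem GD.grid_of {G : GD} (h : G.Bas) : Grid G.N (rR G.r) := by
  obtain ⟨a, h1, h2⟩ := h.a
  have hd' : (G.d : ℝ) ≠ 0 := by exact_mod_cast h.d0.ne'
  have hdp : (0 : ℝ) < G.d := by exact_mod_cast h.d0
  obtain ⟨i1, i2, i3⟩ := chain_spec h.d0 h2
  refine ⟨?_, ?_, ?_⟩
  · show ((nd G.d G.cells 0 : ℚ) : ℝ) = _
    rw [i1]
    push_cast
    rw [div_eq_iff hd']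
    have : (2 * a : ℝ) = -(G.d : ℝ) := by exact_mod_cast h1
    linarith
  · show ((nd G.d G.cells G.cells.length : ℚ) : ℝ) = _
    rw [i2]
    push_cast
    rfl
  · intro i hi
    obtain ⟨j1, j2, j3⟩ := i3 i hi
    show ((nd G.d G.cells i : ℚ) : ℝ) < ((nd G.d G.cells (i + 1) : ℚ) : ℝ)
    rw [j1, j2]
    push_cast
    rw [div_lt_div_iff_of_pos_right hdp]
    exact_mod_cast j3

/-- the check of the slopes of a cell -/
def slC (s : ℚ) (d M : ℕ) (c : IC) : Bool :=
  NOS.chkS s ((c.a : ℚ) / d) ((c.b : ℚ) / d) c.kd ⟨(c.H : ℚ) / M, (c.H1 : ℚ) / M, (c.L : ℚ) / M, (c.L1 : ℚ) / M⟩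

/-- the check of the slopes -/
def GD.chkSl (G : GD) : Bool := G.cells.all fun c => slC G.s G.d G.M c

/-- the nodes of a cell -/
theorem GD.nodes {G : GD} (h : G.Bas) {i : ℕ} (hi : i < G.cells.length) :
    G.r i = (G.cells[i].a : ℚ) / G.d ∧ G.r (i + 1) = (G.cells[i].b : ℚ) / G.d := by
  obtain ⟨a, h1, h2⟩ := h.a
  obtain ⟨_, _, i3⟩ := chain_spec h.d0 h2
  obtain ⟨j1, j2, _⟩ := i3 i hi
  exact ⟨j1, j2⟩

theorem GD.sl_of {G : GD} (h : G.Bas) (hs : G.chkSl = true) {i : ℕ} (hi : i < G.cells.length) :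
    NOS.chkS G.s (G.r i) (G.r (i + 1)) (G.k i) ⟨(G.C i).H, (G.C i).H', (G.C i).L, (G.C i).L'⟩ = true := by
  have h1 := List.all_eq_true.1 hs _ (List.getElem_mem hi)
  obtain ⟨j1, j2⟩ := GD.nodes h hi
  have e1 : G.k i = G.cells[i].kd := by rw [GD.k, getD_eq hi]
  have e2 : G.C i = G.cells[i].cq G.M := by rw [GD.C, getD_eq hi]
  rw [j1, j2, e1, e2]
  exact h1

theorem GD.cell_of {G : GD} (h : G.Bas) (hs : G.chkSl = true) :
    ∀ i < G.N, CellOk G.s (rR G.r) i (G.k i) (cR G.C i) := fun _ hi =>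
  NOS.chkS_sound (GD.sl_of h hs hi) rfl rfl

/-- **the geometric data** -/
theorem GD.geo {G : GD} (h : G.Bas) (hs : G.chkSl = true) : Geo G.s G.N G.r G.k G.C G.Hp G.Lq G.x := by
  refine ⟨GD.grid_of h, GD.cell_of h hs, ?_, ?_⟩
  · intro i hi
    have h1 := GD.sl_of h hs hi
    unfold GD.Hp hpF
    cases hk : G.k i with
    | lst => exact Or.inl le_rfl
    | reg =>
      rw [hk] at h1
      simp only [NOS.chkS, Bool.and_eq_true, decide_eq_true_eq] at h1
      simp only
      rcases min_choice (G.C i).H (2 * G.x) with e | e <;> rw [e]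
      · exact Or.inr ⟨_, NOS.maj_of h1.1.2 rfl rfl⟩
      · exact Or.inl le_rfl
    | fst =>
      rw [hk] at h1
      simp only
      rcases min_choice (G.C i).H (2 * G.x) with e | e <;> rw [e]
      · exact Or.inr ⟨_, NOS.maj_of h1 rfl rfl⟩
      · exact Or.inl le_rfl
  · intro i hi
    have h1 := GD.sl_of h hs hi
    unfold GD.Lq lqF
    cases hk : G.k i with
    | fst => exact Or.inl le_rfl
    | reg =>
      rw [hk] at h1
      simp only [NOS.chkS, Bool.and_eq_true, decide_eq_true_eq] at h1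
      simp only
      rcases min_choice (G.C i).L (2 * G.x) with e | e <;> rw [e]
      · exact Or.inr ⟨_, NOS.mnj_of h1.2 rfl rfl⟩
      · exact Or.inl le_rfl
    | lst =>
      rw [hk] at h1
      simp only
      rcases min_choice (G.C i).L (2 * G.x) with e | e <;> rw [e]
      · exact Or.inr ⟨_, NOS.mnj_of h1 rfl rfl⟩
      · exact Or.inl le_rfl

/-- **the trigonometric data** -/
theorem GD.fnOk {G : GD} (h : G.Bas) {m : ℕ} {q : List T8} (hq : chkT m G.e G.d G.S G.cells q = true) :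
    FnOk m G.N G.r (gF G.S q) G.η := by
  obtain ⟨a, _, h2⟩ := h.a
  exact chkT_spec hq h.d0 h2

theorem GD.eta0 (G : GD) : 0 ≤ G.η := by
  unfold GD.η
  positivity

theorem GD.ebOk (G : GD) (i : ℕ) : NOD.ebOk (G.k i) (G.C i) G.x (G.eb i) = true := by
  unfold NOD.ebOk GD.eb ebF
  cases G.k i <;> exact decide_eq_true le_rfl

/-- **`Dat.OkS` from Booleans** -/
theorem GD.okS {G : GD} (h0 : G.chk0 = true) (hs : G.chkSl = true)
    (h1 : chkT 1 G.e G.d G.S G.cells G.c1 = true) (h3 : chkT 3 G.e G.d G.S G.cells G.c3 = true)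
    (h4 : chkT 4 G.e G.d G.S G.cells G.c4 = true) : G.dat.OkS (G.s : ℝ) (G.x : ℝ) := by
  have h := GD.bas h0
  refine ⟨GD.grid_of h, GD.cell_of h hs, ?_, fn_ok (GD.fnOk h h1), fn_ok (GD.fnOk h h3), fn_ok (GD.fnOk h h4),
    ?_, ?_, ?_⟩
  · show (0 : ℝ) ≤ (G.η : ℝ)
    exact_mod_cast G.eta0
  all_goals
    intro i _ hk
    have hk' : G.k i = _ := hk
    show _ ≤ ((ebF (G.k i) (G.C i) G.x : ℚ) : ℝ)
    rw [hk']
    unfold ebF
    simp only
    push_cast
    exact le_rfl

end Pool.Agent.FPX.NOX
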