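import Pool.Agent.FPX.CAX
import Pool.Agent.FPX.NOX

/-
CAR (helper88): from helper42's integer record `GD` (uniform grid) and integer lists to helper79's record
`CD` of the cell averages: one Boolean (plus the Booleans of NOX) gives `CD.Ok`.
-/

set_option autoImplicit false

open MeasureTheory Set Filter Topology

noncomputable section

namespace Pool.Agent.FPX.CAV

open Pool.Agent.FPX.NOD Pool.Agent.FPX.NOT Pool.Agent.FPX.NOX Pool.Agent.FPX.SQD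

/-! ### Booleans for `okU`, `okW`, `okV` -/

/-- Boolean of `okU` -/
def CD.bU (D : CD) (i : ℕ) : Bool :=
  if i + 1 < D.N then D.u i && D.u (i + 1) && decide (hs (D.H i) (D.H' i) (D.H (i + 1)) (D.H' (i + 1)) ≤ D.hb i)
  else decide (i + 1 = D.N) && D.u i && D.w 0 && decide (hs (D.H i) (D.H' i) (D.L 0) (D.L' 0) ≤ D.hb i)

/-- Boolean of `okW` -/
def CD.bW (D : CD) (i : ℕ) : Bool :=
  if i + 1 < D.N then D.w i && D.w (i + 1) && decide (hs (D.L i) (D.L' i) (D.L (i + 1)) (D.L' (i + 1)) ≤ D.lb i)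
  else decide (i + 1 = D.N) && D.w i && D.u 0 && decide (hs (D.L i) (D.L' i) (D.H 0) (D.H' 0) ≤ D.lb i)

/-- Boolean of `okV` -/
def CD.bV (D : CD) (i : ℕ) : Bool :=
  match D.ty i with
  | 0 => D.u i && D.w i && decide ((D.H i + |D.H' i| / 2) ^ 2 / 12 ≤ D.vc i) &&
      decide ((D.L i + |D.L' i| / 2) ^ 2 / 12 ≤ D.vc i)
  | 1 => decide (0 < i) && D.bW (i - 1) && D.bW i && decide (D.L i ^ 2 / 12 + D.L' i ^ 2 / 720 ≤ D.vc i)
  | 2 => decide (0 < i) && D.bU (i - 1) && D.bU i && decide (D.H i ^ 2 / 12 + D.H' i ^ 2 / 720 ≤ D.vc i)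
  | _ => decide (i = 0) && decide (0 < D.N) && D.bW (D.N - 1) && D.bU 0 &&
      decide (D.H 0 ^ 2 / 12 + D.H' 0 ^ 2 / 720 ≤ D.vc 0)

theorem CD.okU_of {D : CD} {i : ℕ} (h : D.bU i = true) : D.okU i := by
  unfold CD.bU at h
  unfold CD.okU
  split_ifs at h ⊢ with hi
  · simp only [Bool.and_eq_true, decide_eq_true_eq] at h
    exact ⟨h.1.1, h.1.2, h.2⟩
  · simp only [Bool.and_eq_true, decide_eq_true_eq] at h
    exact ⟨h.1.1.1, h.1.1.2, h.1.2, h.2⟩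

theorem CD.okW_of {D : CD} {i : ℕ} (h : D.bW i = true) : D.okW i := by
  unfold CD.bW at h
  unfold CD.okW
  split_ifs at h ⊢ with hi
  · simp only [Bool.and_eq_true, decide_eq_true_eq] at h
    exact ⟨h.1.1, h.1.2, h.2⟩
  · simp only [Bool.and_eq_true, decide_eq_true_eq] at h
    exact ⟨h.1.1.1, h.1.1.2, h.1.2, h.2⟩

theorem CD.okV_of {D : CD} {i : ℕ} (h : D.bV i = true) : D.okV i := by
  unfold CD.bV at h
  unfold CD.okV
  split at h <;> simp only [Bool.and_eq_true, decide_eq_true_eq] at h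
  · next e =>
    rw [e]
    obtain ⟨⟨⟨h1, h2⟩, h3⟩, h4⟩ := h
    refine ⟨h1, h2, max (D.H i + |D.H' i| / 2) (D.L i + |D.L' i| / 2), le_max_left _ _, le_max_right _ _, ?_⟩
    rcases max_choice (D.H i + |D.H' i| / 2) (D.L i + |D.L' i| / 2) with e | e <;> rw [e] <;> assumption
  · next e =>
    rw [e]
    obtain ⟨⟨⟨h1, h2⟩, h3⟩, h4⟩ := h
    have e1 : i = i - 1 + 1 := by omega
    refine ⟨i - 1, e1, CD.okW_of h2, ?_, h4⟩
    rw [← e1]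
    exact CD.okW_of h3
  · next e =>
    rw [e]
    obtain ⟨⟨⟨h1, h2⟩, h3⟩, h4⟩ := h
    have e1 : i = i - 1 + 1 := by omega
    refine ⟨i - 1, e1, CD.okU_of h2, ?_, h4⟩
    rw [← e1]
    exact CD.okU_of h3
  · next n e0 e1 e2 =>
    obtain ⟨⟨⟨⟨h1, h2⟩, h3⟩, h4⟩, h5⟩ := h
    have e3 : D.N = D.N - 1 + 1 := by omega
    split
    · exact absurd ‹_› e0
    · exact absurd ‹_› e1
    · exact absurd ‹_› e2
    · exact ⟨h1, D.N - 1, e3, CD.okW_of h3, CD.okU_of h4, h5⟩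

/-! ### the integer record -/

/-- the integer record: `hb`, `lb`, `vc` and the harmonics over `2^20`, `eta` over `2^30`, `e1 = g1 / (N 2^24)`,
`e3`, `e4` over `2^32` -/
structure CZ where
  G : GD
  hb : List ℕ
  lb : List ℕ
  ty : List ℕ
  vc : List ℕ
  r1 : List ℤ
  i1 : List ℤ
  r3 : List ℤ
  i3 : List ℤ
  r4 : List ℤ
  i4 : List ℤ
  eta : ℕ
  g1 : ℕ
  e3 : ℕ
  e4 : ℕ

/-- entries over `2^20` -/
def nq (l : List ℕ) (i : ℕ) : ℚ := ((l.getD i 0 : ℕ) : ℚ) / 1048576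

/-- entries over `2^20` -/
def zq (l : List ℤ) (i : ℕ) : ℚ := ((l.getD i 0 : ℤ) : ℚ) / 1048576

/-- bounded from above -/
def kU : Kd → Bool
  | .lst => false
  | _ => true

/-- bounded from below -/
def kW : Kd → Bool
  | .fst => false
  | _ => true

namespace CZ

/-- the record of rationals -/
def cd (Z : CZ) : CD where
  N := Z.G.N
  s := Z.G.s
  xm := Z.G.x
  u i := kU (Z.G.k i)
  w i := kW (Z.G.k i)
  H i := (Z.G.C i).H
  H' i := (Z.G.C i).H'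
  L i := (Z.G.C i).L
  L' i := (Z.G.C i).L'
  hb := nq Z.hb
  lb := nq Z.lb
  ty i := Z.ty.getD i 0
  vc := nq Z.vc
  r1 := zq Z.r1
  i1 := zq Z.i1
  r3 := zq Z.r3
  i3 := zq Z.i3
  r4 := zq Z.r4
  i4 := zq Z.i4
  η := (Z.eta : ℚ) / 1073741824
  e1 := (Z.g1 : ℚ) / (Z.G.N * 16777216)
  e3 := (Z.e3 : ℚ) / 4294967296
  e4 := (Z.e4 : ℚ) / 4294967296

/-- the check of the harmonic of a cell -/
def nearT (S e : ℕ) (η : ℚ) (t : T8) (a b : ℚ) : Bool :=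
  decide (|(t.x0 : ℚ) / S + (t.x2 : ℚ) / S / 12 - a| + |(t.y0 : ℚ) / S + (t.y2 : ℚ) / S / 12 - b| + (e : ℚ) / S ≤ η)

/-- the check of a harmonic -/
def chkH (Z : CZ) (q : List T8) (a b : ℕ → ℚ) : Bool :=
  (List.range Z.G.N).all fun i => nearT Z.G.S Z.G.e Z.cd.η (q.getD i default) (a i) (b i)

/-- the uniform grid: `a / d = (2 i - N) / (2 N)`, `b / d = (2 i - N + 2) / (2 N)` -/
def chkG (Z : CZ) : Bool :=
  (List.range Z.G.N).all fun i =>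
    decide ((Z.G.cells.getD i default).a * (2 * Z.G.N) = (2 * (i : ℤ) - Z.G.N) * Z.G.d) &&
      decide ((Z.G.cells.getD i default).b * (2 * Z.G.N) = (2 * (i : ℤ) - Z.G.N + 2) * Z.G.d)

/-- the check of the increments, variances and `|E⁴| ≤ 1` -/
def chkC (Z : CZ) : Bool :=
  (List.range Z.G.N).all fun i =>
    (Z.cd.bU i || decide (2 * Z.cd.xm ≤ Z.cd.hb i)) && (Z.cd.bW i || decide (2 * Z.cd.xm ≤ Z.cd.lb i)) && Z.cd.bV i &&
      decide (Z.cd.r4 i ^ 2 + Z.cd.i4 i ^ 2 ≤ 1)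

/-- the check of the errors -/
def chkE (Z : CZ) : Bool :=
  decide (1 < Z.G.N) &&
  decide (3927 / 1250 / (8 * (Z.G.N : ℚ) ^ 2) * (4 + 2 * Z.cd.xm) + Z.cd.η * Z.cd.xm ≤ Z.cd.e1) &&
  decide (3 * (3927 / 1250) / (8 * (Z.G.N : ℚ) ^ 2) * (4 + 2 * Z.cd.xm) + Z.cd.η * Z.cd.xm ≤ Z.cd.e3) &&
  decide (4 * (3927 / 1250) / (8 * (Z.G.N : ℚ) ^ 2) * (2 * Z.cd.xm * (4 + 2 * Z.cd.xm)) + Z.cd.η * Z.cd.xm ^ 2 ≤ Z.cd.e4)

/-- **all checks except those of NOX** -/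
def chk (Z : CZ) : Bool :=
  Z.chkG && Z.chkC && Z.chkE && Z.chkH Z.G.c1 Z.cd.r1 Z.cd.i1 && Z.chkH Z.G.c3 Z.cd.r3 Z.cd.i3 &&
    Z.chkH Z.G.c4 Z.cd.r4 Z.cd.i4

theorem all_range {N : ℕ} {f : ℕ → Bool} (h : (List.range N).all f = true) {i : ℕ} (hi : i < N) : f i = true :=
  List.all_eq_true.1 h i (List.mem_range.2 hi)

/-- the nodes are those of `ru` -/
theorem nodes {Z : CZ} (hB : Z.G.Bas) (hG : Z.chkG = true) {i : ℕ} (hi : i < Z.G.N) :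
    ru Z.G.N i = ((Z.G.r i : ℚ) : ℝ) ∧ ru Z.G.N (i + 1) = ((Z.G.r (i + 1) : ℚ) : ℝ) := by
  have h1 := all_range hG hi
  simp only [Bool.and_eq_true, decide_eq_true_eq] at h1
  obtain ⟨n1, n2⟩ := GD.nodes hB hi
  rw [getD_eq hi] at h1
  have hN : (0 : ℝ) < Z.G.N := by exact_mod_cast (lt_of_le_of_lt (Nat.zero_le _) hi)
  have hd : (0 : ℝ) < Z.G.d := by exact_mod_cast hB.d0
  have ha' : ((Z.G.cells[i].a : ℤ) : ℝ) * (2 * Z.G.N) = (2 * i - Z.G.N) * Z.G.d := by exact_mod_cast h1.1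
  have hb' : ((Z.G.cells[i].b : ℤ) : ℝ) * (2 * Z.G.N) = (2 * i - Z.G.N + 2) * Z.G.d := by exact_mod_cast h1.2
  have ea : ((Z.G.cells[i].a : ℤ) : ℝ) / Z.G.d = (2 * i - Z.G.N) / (2 * Z.G.N) := by
    rw [div_eq_div_iff hd.ne' (by positivity), ha']
  have eb : ((Z.G.cells[i].b : ℤ) : ℝ) / Z.G.d = (2 * i - Z.G.N + 2) / (2 * Z.G.N) := by
    rw [div_eq_div_iff hd.ne' (by positivity), hb']
  rw [n1, n2]
  unfold ru
  push_cast
  rw [ea, eb]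
  constructor <;> (field_simp; ring)

theorem maj_ok {Z : CZ} (hB : Z.G.Bas) (hs : Z.G.chkSl = true) (hG : Z.chkG = true) {i : ℕ} (hi : i < Z.G.N)
    (hu : kU (Z.G.k i) = true) : Maj Z.G.s (ru Z.G.N) i ((Z.G.C i).H : ℚ) ((Z.G.C i).H' : ℚ) := by
  have h1 := GD.sl_of hB hs hi
  obtain ⟨r0, r1⟩ := nodes hB hG hi
  cases hk : Z.G.k i with
  | lst =>
    rw [hk] at hu
    exact absurd hu (by simp [kU])
  | reg =>
    rw [hk] at h1
    simp only [NOS.chkS, Bool.and_eq_true, decide_eq_true_eq] at h1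
    exact NOS.maj_of h1.1.2 r0 r1
  | fst =>
    rw [hk] at h1
    exact NOS.maj_of h1 r0 r1

theorem mnj_ok {Z : CZ} (hB : Z.G.Bas) (hs : Z.G.chkSl = true) (hG : Z.chkG = true) {i : ℕ} (hi : i < Z.G.N)
    (hw : kW (Z.G.k i) = true) : Mnj Z.G.s (ru Z.G.N) i ((Z.G.C i).L : ℚ) ((Z.G.C i).L' : ℚ) := by
  have h1 := GD.sl_of hB hs hi
  obtain ⟨r0, r1⟩ := nodes hB hG hi
  cases hk : Z.G.k i with
  | fst =>
    rw [hk] at hw
    exact absurd hw (by simp [kW])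
  | reg =>
    rw [hk] at h1
    simp only [NOS.chkS, Bool.and_eq_true, decide_eq_true_eq] at h1
    exact NOS.mnj_of h1.2 r0 r1
  | lst =>
    rw [hk] at h1
    exact NOS.mnj_of h1 r0 r1

/-- the harmonics -/
theorem har_ok {Z : CZ} (hB : Z.G.Bas) (hG : Z.chkG = true) {m : ℕ} {q : List T8}
    (ht : chkT m Z.G.e Z.G.d Z.G.S Z.G.cells q = true) {a b : ℕ → ℚ} (hH : Z.chkH q a b = true) {i : ℕ}
    (hi : i < Z.G.N) : ‖pm m (ru Z.G.N) i - ((a i : ℝ) + (b i : ℝ) * Complex.I)‖ ≤ ((Z.cd.η : ℚ) : ℝ) := by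
  have h1 := GD.fnOk hB ht i hi
  obtain ⟨r0, r1⟩ := nodes hB hG hi
  have h2 := pm_le (m := m) (r := ru Z.G.N) (i := i)
    (c := NOT.cc (gF Z.G.S q i 0) (gF Z.G.S q i 1) (gF Z.G.S q i 2) (gF Z.G.S q i 3)) (η := (Z.G.η : ℝ))
    fun v h0 hv => NOT.chkF_pt h1 r0 r1 h0 hv
  have h3 := all_range hH hi
  unfold nearT at h3
  rw [decide_eq_true_eq] at h3
  obtain ⟨t, ht⟩ : ∃ t : T8, t = q.getD i default := ⟨_, rfl⟩
  rw [← ht] at h3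
  have e0 : gF Z.G.S q i 0 = gz Z.G.S t.x0 t.y0 := by
    rw [ht]
    rfl
  have e2 : gF Z.G.S q i 2 = gz Z.G.S t.x2 t.y2 := by
    rw [ht]
    rfl
  have h3' : |((t.x0 : ℝ) / Z.G.S + (t.x2 : ℝ) / Z.G.S / 12 - (a i : ℝ))|
      + |((t.y0 : ℝ) / Z.G.S + (t.y2 : ℝ) / Z.G.S / 12 - (b i : ℝ))| + (Z.G.e : ℝ) / Z.G.S ≤ ((Z.cd.η : ℚ) : ℝ) := by
    have h4 := (Rat.cast_le (K := ℝ)).2 h3
    push_cast at h4
    exact h4
  have e3 : NOT.cc (gF Z.G.S q i 0) (gF Z.G.S q i 1) (gF Z.G.S q i 2) (gF Z.G.S q i 3) 0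
      + NOT.cc (gF Z.G.S q i 0) (gF Z.G.S q i 1) (gF Z.G.S q i 2) (gF Z.G.S q i 3) 2 / 12
      = (((t.x0 : ℝ) / Z.G.S + (t.x2 : ℝ) / Z.G.S / 12 : ℝ) : ℂ)
        + (((t.y0 : ℝ) / Z.G.S + (t.y2 : ℝ) / Z.G.S / 12 : ℝ) : ℂ) * Complex.I := by
    have k0 : NOT.cc (gF Z.G.S q i 0) (gF Z.G.S q i 1) (gF Z.G.S q i 2) (gF Z.G.S q i 3) 0 = (gF Z.G.S q i 0).toC := rfl
    have k2 : NOT.cc (gF Z.G.S q i 0) (gF Z.G.S q i 1) (gF Z.G.S q i 2) (gF Z.G.S q i 3) 2 = (gF Z.G.S q i 2).toC := rfl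
    rw [k0, k2, e0, e2]
    apply Complex.ext
    · simp [NOT.Gq.toC]
    · simp [NOT.Gq.toC]
  rw [e3] at h2
  have hη : ((Z.G.η : ℚ) : ℝ) = (Z.G.e : ℝ) / Z.G.S := by
    unfold GD.η
    push_cast
    rfl
  rw [hη] at h2
  set P : ℝ := (t.x0 : ℝ) / Z.G.S + (t.x2 : ℝ) / Z.G.S / 12
  set Q : ℝ := (t.y0 : ℝ) / Z.G.S + (t.y2 : ℝ) / Z.G.S / 12
  have e4 : pm m (ru Z.G.N) i - ((a i : ℝ) + (b i : ℝ) * Complex.I)
      = (pm m (ru Z.G.N) i - ((P : ℂ) + (Q : ℂ) * Complex.I))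
        + (((P - (a i : ℝ) : ℝ) : ℂ) + ((Q - (b i : ℝ) : ℝ) : ℂ) * Complex.I) := by
    push_cast
    ring
  have e5 : ‖((P - (a i : ℝ) : ℝ) : ℂ) + ((Q - (b i : ℝ) : ℝ) : ℂ) * Complex.I‖
      ≤ |P - (a i : ℝ)| + |Q - (b i : ℝ)| := by
    refine (norm_add_le _ _).trans ?_
    rw [norm_mul, Complex.norm_I, mul_one, Complex.norm_real, Complex.norm_real]
    rfl
  rw [e4]
  refine (norm_add_le _ _).trans ?_
  linarith

/-- **`CD.Ok` from Booleans** -/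
theorem ok {Z : CZ} (h0 : Z.G.chk0 = true) (hs : Z.G.chkSl = true)
    (h1 : chkT 1 Z.G.e Z.G.d Z.G.S Z.G.cells Z.G.c1 = true) (h3 : chkT 3 Z.G.e Z.G.d Z.G.S Z.G.cells Z.G.c3 = true)
    (h4 : chkT 4 Z.G.e Z.G.d Z.G.S Z.G.cells Z.G.c4 = true) (hc : Z.chk = true) : Z.cd.Ok := by
  have hB := GD.bas h0
  simp only [chk, Bool.and_eq_true] at hc
  obtain ⟨⟨⟨⟨⟨cG, cC⟩, cE⟩, c1⟩, c3⟩, c4⟩ := hc
  simp only [chkE, Bool.and_eq_true, decide_eq_true_eq] at cE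
  obtain ⟨⟨⟨k0, k1⟩, k3⟩, k4⟩ := cE
  have hC : ∀ i < Z.G.N, (Z.cd.bU i = true ∨ 2 * Z.cd.xm ≤ Z.cd.hb i) ∧ (Z.cd.bW i = true ∨ 2 * Z.cd.xm ≤ Z.cd.lb i) ∧
      Z.cd.bV i = true ∧ Z.cd.r4 i ^ 2 + Z.cd.i4 i ^ 2 ≤ 1 := fun i hi => by
    have := all_range cC hi
    simp only [Bool.and_eq_true, Bool.or_eq_true, decide_eq_true_eq] at this
    exact ⟨this.1.1.1, this.1.1.2, this.1.2, this.2⟩
  exact
    { N1 := k0
      s0 := hB.s0
      s1 := hB.s1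
      hxm := hB.xm
      maj := fun i hi hu => maj_ok hB hs cG hi hu
      mnj := fun i hi hw => mnj_ok hB hs cG hi hw
      hup := fun i hi => (hC i hi).1.imp CD.okU_of id
      hlo := fun i hi => (hC i hi).2.1.imp CD.okW_of id
      var := fun i hi => CD.okV_of (hC i hi).2.2.1
      t1 := fun i hi => har_ok hB cG h1 c1 hi
      t3 := fun i hi => har_ok hB cG h3 c3 hi
      t4 := fun i hi => har_ok hB cG h4 c4 hi
      n4 := fun i hi => (hC i hi).2.2.2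
      he1 := k1
      he3 := k3
      he4 := k4 }

end CZ

end Pool.Agent.FPX.CAV
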