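import Pool.Agent.FPX.PLY

/-
CAT (helper79): sparse tables for PLX, coefficients = lists of integers.
-/

set_option autoImplicit false

noncomputable section

namespace Pool.Agent.FPX.CAT

open Pool.Agent.FPX.PLK

/-- lists of integers as coefficients -/
def OZ : Op (List ℤ) := ⟨[], addZ, fun a b => addZ a (b.map fun x => -x), fun c l => l.map fun x => c * x, fun _ => false⟩

theorem iz_nil (w : List ℝ) : iz w [] = 0 := by
  cases w <;> rfl

theorem iz_addZ : ∀ (w : List ℝ) (a b : List ℤ), iz w (addZ a b) = iz w a + iz w b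
  | [], a, b => by simp [iz]
  | v :: w, x :: a, y :: b => by
    simp only [addZ, iz, iz_addZ w a b]
    push_cast
    ring
  | v :: w, [], b => by simp [addZ, iz]
  | v :: w, x :: a, [] => by simp [addZ, iz]

theorem iz_map (c : ℤ) : ∀ (w : List ℝ) (a : List ℤ), iz w (a.map fun x => c * x) = c * iz w a
  | [], a => by simp [iz]
  | v :: w, [] => by simp [iz]
  | v :: w, x :: a => by
    simp only [List.map_cons, iz, iz_map c w a]
    push_cast
    ring

theorem iz_neg : ∀ (w : List ℝ) (a : List ℤ), iz w (a.map fun x => -x) = -iz w a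
  | [], a => by simp [iz]
  | v :: w, [] => by simp [iz]
  | v :: w, x :: a => by
    simp only [List.map_cons, iz, iz_neg w a]
    push_cast
    ring

theorem evOZ (w : List ℝ) : Ev OZ (iz w) where
  z := iz_nil w
  add := iz_addZ w
  sub := fun a b => by
    show iz w (addZ a (b.map fun x => -x)) = _
    rw [iz_addZ, iz_neg]
    ring
  sm := fun c a => iz_map c w a
  psd := fun a h => by simp [OZ] at h

/-- evaluation of the casted table -/
theorem lv_map {V : Type} (φ : V → ℝ) : ∀ (r : List V) (D : List ℝ), lv id (r.map φ) D = lv φ r D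
  | [], D => by simp
  | v :: r, [] => by simp
  | v :: r, d :: D => by simp [lv_map φ r D]

theorem qv_map {V : Type} (φ : V → ℝ) : ∀ (T : List (List V)) (D : List ℝ),
    qv id (T.map fun r => r.map φ) D = qv φ T D
  | [], D => by simp
  | r :: T, [] => by simp
  | r :: T, d :: D => by
    simp only [List.map_cons, qv_cons, lv_map, qv_map φ T D]

section sparse

variable {V : Type} {φ : V → ℝ} {z : V} (hz : φ z = 0)

include hz

theorem lv_rep1 (c : V) : ∀ (j : ℕ) (D : List ℝ), lv φ (List.replicate j z ++ [c]) D = φ c * D.getD j 0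
  | 0, [] => by simp
  | 0, d :: D => by simp
  | j + 1, [] => by simp
  | j + 1, d :: D => by
    simp only [List.replicate_succ, List.cons_append, lv_cons, hz, lv_rep1 c j D, List.getD_cons_succ]
    ring

theorem lv_rep2 (a b : V) : ∀ (j : ℕ) (D : List ℝ), lv φ (List.replicate j z ++ [a, b]) D
    = φ a * D.getD j 0 + φ b * D.getD (j + 1) 0
  | 0, [] => by simp
  | 0, [d] => by simp
  | 0, d :: e :: D => by simp
  | j + 1, [] => by simp
  | j + 1, d :: D => by
    simp only [List.replicate_succ, List.cons_append, lv_cons, hz, lv_rep2 a b j D, List.getD_cons_succ]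
    ring

omit hz in
theorem qv_rep (r : List V) : ∀ (j : ℕ) (D : List ℝ), qv φ (List.replicate j [] ++ [r]) D
    = D.getD j 0 * lv φ r (D.drop j)
  | 0, [] => by simp
  | 0, d :: D => by simp
  | j + 1, [] => by simp
  | j + 1, d :: D => by
    simp only [List.replicate_succ, List.cons_append, qv_cons, lv_nil, qv_rep r j D, List.getD_cons_succ,
      List.drop_succ_cons]
    ring

/-- the table of `c θ_j θ_{j+1}` -/
def tE (z c : V) (j : ℕ) : List (List V) := [] :: (List.replicate j [] ++ [[z, c]])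

/-- the table of `c (1 - θ_j) (1 - θ_{j+1})`, `n = -c` -/
def tP (z c n : V) (j : ℕ) : List (List V) :=
  (c :: (List.replicate j z ++ [n, n])) :: (List.replicate j [] ++ [[z, c]])

/-- the table of `c θ_j (1 - θ_0)`, `n = -c` -/
def tW (z c n : V) (j : ℕ) : List (List V) := (z :: (List.replicate j z ++ [c])) :: [List.replicate j z ++ [n]]

theorem pair_drop (c : V) : ∀ (j : ℕ) (D : List ℝ), D.getD j 0 * lv φ [z, c] (D.drop j)
    = φ c * (D.getD j 0 * D.getD (j + 1) 0)
  | 0, [] => by simp
  | 0, [d] => by simp [hz]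
  | 0, d :: e :: D => by
    simp [hz]
    ring
  | j + 1, [] => by simp
  | j + 1, d :: D => by
    simpa using pair_drop c j D

theorem qv_tE (c : V) (j : ℕ) (θ : List ℝ) : qv φ (tE z c j) (1 :: θ) = φ c * (θ.getD j 0 * θ.getD (j + 1) 0) := by
  unfold tE
  rw [qv_cons, lv_nil, qv_rep, pair_drop hz]
  ring

theorem qv_tP (c n : V) (hn : φ n = -φ c) (j : ℕ) (θ : List ℝ) : qv φ (tP z c n j) (1 :: θ)
    = φ c * ((1 - θ.getD j 0) * (1 - θ.getD (j + 1) 0)) := by
  unfold tP
  rw [qv_cons, lv_cons, lv_rep2 hz, qv_rep, pair_drop hz, hn]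
  ring

theorem qv_tW (c n : V) (hn : φ n = -φ c) (j : ℕ) {θ : List ℝ} (h : θ ≠ []) : qv φ (tW z c n j) (1 :: θ)
    = φ c * (θ.getD j 0 * (1 - θ.getD 0 0)) := by
  unfold tW
  cases θ with
  | nil => exact absurd rfl h
  | cons t θ =>
    rw [qv_cons, lv_cons, lv_rep1 hz, qv_cons, qv_nil, lv_rep1 hz, hz, hn]
    simp only [List.getD_cons_zero]
    ring

end sparse

/-- sum of tables over a list -/
def sumT (O : Op (List ℤ)) (f : ℕ → List (List (List ℤ))) : ℕ → List (List (List ℤ))
  | 0 => []
  | n + 1 => addR O (f n) (sumT O f n)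

theorem qv_sumT (w : List ℝ) (f : ℕ → List (List (List ℤ))) (D : List ℝ) : ∀ n : ℕ,
    qv (iz w) (sumT OZ f n) D = ∑ i ∈ Finset.range n, qv (iz w) (f i) D
  | 0 => by simp [sumT]
  | n + 1 => by
    rw [sumT, qv_addR (evOZ w), qv_sumT w f D n, Finset.sum_range_succ]
    ring

end Pool.Agent.FPX.CAT
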