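import Pool.Agent.FPX.NOE

/-
CAV (helper79): cell averages. Increments of the averages and the variance on a cell from one sided bounds of the
slopes on neighbouring cells.
-/

open MeasureTheory Set Filter Topology
open scoped ComplexConjugate

noncomputable section

namespace Pool.Agent.FPX.CAV

open Pool.Agent.FPX.NOD

/-! ### functions on `[0, 1]` -/

theorem ii {f : ℝ → ℝ} (hf : Continuous f) (a b : ℝ) : IntervalIntegrable f volume a b := hf.intervalIntegrable a b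

theorem int_const1 (c : ℝ) : ∫ _ in (0 : ℝ)..1, c = c := by simp

/-- **Chebyshev** -/
theorem cheb {f g : ℝ → ℝ} (hf : Continuous f) (hg : Continuous g)
    (mf : ∀ x y, 0 ≤ x → x ≤ y → y ≤ 1 → f x ≤ f y) (mg : ∀ x y, 0 ≤ x → x ≤ y → y ≤ 1 → g x ≤ g y) :
    (∫ v in (0 : ℝ)..1, f v) * (∫ v in (0 : ℝ)..1, g v) ≤ ∫ v in (0 : ℝ)..1, f v * g v := by
  obtain ⟨m, hm⟩ : ∃ m : ℝ, m = ∫ v in (0 : ℝ)..1, f v := ⟨_, rfl⟩
  have h0 : f 0 ≤ m := by
    rw [hm, ← int_const1 (f 0)]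
    exact intervalIntegral.integral_mono_on zero_le_one (by simp) (ii hf _ _) fun v hv => mf 0 v le_rfl hv.1 hv.2
  have h1 : m ≤ f 1 := by
    rw [hm, ← int_const1 (f 1)]
    exact intervalIntegral.integral_mono_on zero_le_one (ii hf _ _) (by simp) fun v hv => mf v 1 hv.1 hv.2 le_rfl
  obtain ⟨c, hc, hfc⟩ := intermediate_value_Icc (zero_le_one' ℝ) hf.continuousOn ⟨h0, h1⟩
  have key : 0 ≤ ∫ v in (0 : ℝ)..1, (f v - m) * (g v - g c) := by
    refine intervalIntegral.integral_nonneg zero_le_one fun v hv => ?_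
    rw [← hfc]
    rcases le_total c v with h | h
    · have a1 := mf c v hc.1 h hv.2
      have a2 := mg c v hc.1 h hv.2
      exact mul_nonneg (by linarith) (by linarith)
    · have a1 := mf v c hv.1 h hc.2
      have a2 := mg v c hv.1 h hc.2
      exact mul_nonneg_of_nonpos_of_nonpos (by linarith) (by linarith)
  have e : ∫ v in (0 : ℝ)..1, (f v - m) * (g v - g c)
      = (∫ v in (0 : ℝ)..1, f v * g v) - g c * (∫ v in (0 : ℝ)..1, f v) - m * (∫ v in (0 : ℝ)..1, g v) + m * g c := by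
    have e1 : ∀ v, (f v - m) * (g v - g c) = (f v * g v - g c * f v - m * g v) + m * g c := fun v => by ring
    simp only [e1]
    rw [intervalIntegral.integral_add (ii (by fun_prop) _ _) (ii (by fun_prop) _ _),
      intervalIntegral.integral_sub (ii (by fun_prop) _ _) (ii (by fun_prop) _ _),
      intervalIntegral.integral_sub (ii (by fun_prop) _ _) (ii (by fun_prop) _ _),
      intervalIntegral.integral_const_mul, intervalIntegral.integral_const_mul, int_const1]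
  rw [e, ← hm] at key
  rw [← hm]
  linarith

/-- **Bhatia, Davis** -/
theorem bd {f : ℝ → ℝ} (hf : Continuous f) {a b : ℝ} (ha : ∀ v, 0 ≤ v → v ≤ 1 → a ≤ f v)
    (hb : ∀ v, 0 ≤ v → v ≤ 1 → f v ≤ b) : (∫ v in (0 : ℝ)..1, f v ^ 2) - (∫ v in (0 : ℝ)..1, f v) ^ 2
      ≤ ((∫ v in (0 : ℝ)..1, f v) - a) * (b - ∫ v in (0 : ℝ)..1, f v) := by
  have key : 0 ≤ ∫ v in (0 : ℝ)..1, (f v - a) * (b - f v) :=
    intervalIntegral.integral_nonneg zero_le_one fun v hv =>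
      mul_nonneg (by linarith [ha v hv.1 hv.2]) (by linarith [hb v hv.1 hv.2])
  have e : ∫ v in (0 : ℝ)..1, (f v - a) * (b - f v)
      = (a + b) * (∫ v in (0 : ℝ)..1, f v) - (∫ v in (0 : ℝ)..1, f v ^ 2) - a * b := by
    have e1 : ∀ v, (f v - a) * (b - f v) = (a + b) * f v - f v ^ 2 - a * b := fun v => by ring
    simp only [e1]
    rw [intervalIntegral.integral_sub (ii (by fun_prop) _ _) (ii (by fun_prop) _ _),
      intervalIntegral.integral_sub (ii (by fun_prop) _ _) (ii (by fun_prop) _ _),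
      intervalIntegral.integral_const_mul, int_const1]
  rw [e] at key
  nlinarith

@[fun_prop] theorem cont_PH (H H' : ℝ) : Continuous fun v => PH H H' v := by
  unfold PH
  fun_prop

theorem PH_zero (H H' : ℝ) : PH H H' 0 = 0 := by
  unfold PH
  ring

theorem PH_one (H H' : ℝ) : PH H H' 1 = H := by
  unfold PH
  ring

theorem int_PH (L L' : ℝ) : ∫ v in (0 : ℝ)..1, PH L L' v = L / 2 - L' / 12 := by
  have h : ∀ v ∈ uIcc (0 : ℝ) 1, HasDerivAt (fun v => L * v ^ 2 / 2 - L' / 2 * (v ^ 2 / 2 - v ^ 3 / 3)) (PH L L' v) v := by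
    intro v _
    have h1 := ((hasDerivAt_pow 2 v).const_mul L).div_const 2
    have h2 := (((hasDerivAt_pow 2 v).div_const 2).sub ((hasDerivAt_pow 3 v).div_const 3)).const_mul (L' / 2)
    refine (h1.sub h2).congr_deriv ?_
    unfold PH
    push_cast
    ring
  rw [intervalIntegral.integral_eq_sub_of_hasDerivAt h (ii (cont_PH L L') _ _)]
  ring

theorem int_PH_sq (L L' : ℝ) : ∫ v in (0 : ℝ)..1, PH L L' v ^ 2 = L ^ 2 / 3 - L * L' / 12 + L' ^ 2 / 120 := by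
  have h : ∀ v ∈ uIcc (0 : ℝ) 1, HasDerivAt (fun v => L ^ 2 * v ^ 3 / 3 - L * L' * (v ^ 3 / 3 - v ^ 4 / 4)
      + L' ^ 2 / 4 * (v ^ 3 / 3 - v ^ 4 / 2 + v ^ 5 / 5)) (PH L L' v ^ 2) v := by
    intro v _
    have h1 := ((hasDerivAt_pow 3 v).const_mul (L ^ 2)).div_const 3
    have h2 := (((hasDerivAt_pow 3 v).div_const 3).sub ((hasDerivAt_pow 4 v).div_const 4)).const_mul (L * L')
    have h3 := ((((hasDerivAt_pow 3 v).div_const 3).sub ((hasDerivAt_pow 4 v).div_const 2)).add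
      ((hasDerivAt_pow 5 v).div_const 5)).const_mul (L' ^ 2 / 4)
    refine ((h1.sub h2).add h3).congr_deriv ?_
    unfold PH
    push_cast
    ring
  rw [intervalIntegral.integral_eq_sub_of_hasDerivAt h (ii ((cont_PH L L').pow 2) _ _)]
  ring

/-- monotone majorant -/
theorem PH_mono {L L' : ℝ} (h : ∀ v, 0 ≤ v → v ≤ 1 → 0 ≤ L + L' * (v - 1 / 2)) :
    ∀ x y, 0 ≤ x → x ≤ y → y ≤ 1 → PH L L' x ≤ PH L L' y := by
  intro x y hx hxy hy
  have h0 := h 0 le_rfl zero_le_one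
  have h1 := h 1 zero_le_one le_rfl
  have e : PH L L' y - PH L L' x = (y - x) * (L + L' * ((x + y) / 2 - 1 / 2)) := by
    unfold PH
    ring
  have h2 := h ((x + y) / 2) (by linarith) (by linarith)
  have h3 : 0 ≤ (y - x) * (L + L' * ((x + y) / 2 - 1 / 2)) := mul_nonneg (by linarith) h2
  linarith

section cells

variable {Zm Z Zp : ℝ → ℝ} (cm : Continuous Zm) (c0 : Continuous Z) (cp : Continuous Zp)
  (j1 : Zm 1 = Z 0) (j2 : Z 1 = Zp 0) {Lm Lm' L L' Lp Lp' : ℝ}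

include cm c0 cp j1 j2 in
/-- **variance from lower bounds of the slopes on three cells** -/
theorem var_lo (hL : ∀ v, 0 ≤ v → v ≤ 1 → 0 ≤ L + L' * (v - 1 / 2))
    (hm : ∀ x y, 0 ≤ x → x ≤ y → y ≤ 1 → -(PH Lm Lm' y - PH Lm Lm' x) ≤ Zm y - Zm x)
    (h0 : ∀ x y, 0 ≤ x → x ≤ y → y ≤ 1 → -(PH L L' y - PH L L' x) ≤ Z y - Z x)
    (hp : ∀ x y, 0 ≤ x → x ≤ y → y ≤ 1 → -(PH Lp Lp' y - PH Lp Lp' x) ≤ Zp y - Zp x) :
    (∫ v in (0 : ℝ)..1, Z v ^ 2) - (∫ v in (0 : ℝ)..1, Z v) ^ 2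
      ≤ ((∫ v in (0 : ℝ)..1, Z v) - (∫ v in (0 : ℝ)..1, Zm v) + (Lm / 2 + Lm' / 12 + (L / 2 - L' / 12)))
        * ((∫ v in (0 : ℝ)..1, Zp v) - (∫ v in (0 : ℝ)..1, Z v) + (L / 2 + L' / 12 + (Lp / 2 - Lp' / 12)))
        + (L ^ 2 / 12 + L' ^ 2 / 720) := by
  have cV : Continuous fun v => Z v + PH L L' v := c0.add (cont_PH L L')
  have mV : ∀ x y, 0 ≤ x → x ≤ y → y ≤ 1 → Z x + PH L L' x ≤ Z y + PH L L' y := fun x y h1 h2 h3 => by
    have := h0 x y h1 h2 h3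
    linarith
  -- covariance
  have k1 := cheb cV (cont_PH L L') mV (PH_mono hL)
  -- bounds by the neighbouring averages
  have b1 : ∀ v, 0 ≤ v → v ≤ 1 → (∫ w in (0 : ℝ)..1, Zm w) - (Lm / 2 + Lm' / 12) ≤ Z v + PH L L' v := by
    intro v hv0 hv1
    have e : ∫ w in (0 : ℝ)..1, (Zm w + PH Lm Lm' w - Lm) = (∫ w in (0 : ℝ)..1, Zm w) - (Lm / 2 + Lm' / 12) := by
      rw [intervalIntegral.integral_sub (ii (by fun_prop) _ _) (ii (by fun_prop) _ _),
        intervalIntegral.integral_add (ii cm _ _) (ii (cont_PH _ _) _ _), int_PH, int_const1]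
      ring
    rw [← e, ← int_const1 (Z v + PH L L' v)]
    refine intervalIntegral.integral_mono_on zero_le_one (ii (by fun_prop) _ _) (by simp) fun w hw => ?_
    have a1 := hm w 1 hw.1 hw.2 le_rfl
    have a2 := mV 0 v le_rfl hv0 hv1
    rw [PH_one] at a1
    rw [PH_zero] at a2
    linarith
  have b2 : ∀ v, 0 ≤ v → v ≤ 1 → Z v + PH L L' v ≤ (∫ w in (0 : ℝ)..1, Zp w) + (Lp / 2 - Lp' / 12) + L := by
    intro v hv0 hv1
    have e : ∫ w in (0 : ℝ)..1, (Zp w + PH Lp Lp' w + L) = (∫ w in (0 : ℝ)..1, Zp w) + (Lp / 2 - Lp' / 12) + L := by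
      rw [intervalIntegral.integral_add (ii (by fun_prop) _ _) (ii (by fun_prop) _ _),
        intervalIntegral.integral_add (ii cp _ _) (ii (cont_PH _ _) _ _), int_PH, int_const1]
    rw [← e, ← int_const1 (Z v + PH L L' v)]
    refine intervalIntegral.integral_mono_on zero_le_one (by simp) (ii (by fun_prop) _ _) fun w hw => ?_
    have a1 := hp 0 w le_rfl hw.1 hw.2
    have a2 := mV v 1 hv0 hv1 le_rfl
    rw [PH_one] at a2
    rw [PH_zero] at a1
    linarith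
  have k2 := bd cV b1 b2
  -- values
  have e1 : ∫ v in (0 : ℝ)..1, (Z v + PH L L' v) = (∫ v in (0 : ℝ)..1, Z v) + (L / 2 - L' / 12) := by
    rw [intervalIntegral.integral_add (ii c0 _ _) (ii (cont_PH _ _) _ _), int_PH]
  have e2 : ∫ v in (0 : ℝ)..1, (Z v + PH L L' v) ^ 2 = (∫ v in (0 : ℝ)..1, Z v ^ 2)
      + 2 * (∫ v in (0 : ℝ)..1, (Z v + PH L L' v) * PH L L' v) - (L ^ 2 / 3 - L * L' / 12 + L' ^ 2 / 120) := by
    have e3 : ∀ v, (Z v + PH L L' v) ^ 2 = Z v ^ 2 + 2 * ((Z v + PH L L' v) * PH L L' v) - PH L L' v ^ 2 :=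
      fun v => by ring
    simp only [e3]
    have cPH := cont_PH L L'
    rw [intervalIntegral.integral_sub (ii (by fun_prop) _ _) (ii (by fun_prop) _ _),
      intervalIntegral.integral_add (ii (by fun_prop) _ _) (ii (by fun_prop) _ _),
      intervalIntegral.integral_const_mul, int_PH_sq]
  rw [e2, e1] at k2
  rw [e1, int_PH] at k1
  nlinarith [k1, k2]

include cm c0 cp j1 j2 in
/-- **variance from upper bounds of the slopes on three cells** -/
theorem var_up (hL : ∀ v, 0 ≤ v → v ≤ 1 → 0 ≤ L + L' * (v - 1 / 2))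
    (hm : ∀ x y, 0 ≤ x → x ≤ y → y ≤ 1 → Zm y - Zm x ≤ PH Lm Lm' y - PH Lm Lm' x)
    (h0 : ∀ x y, 0 ≤ x → x ≤ y → y ≤ 1 → Z y - Z x ≤ PH L L' y - PH L L' x)
    (hp : ∀ x y, 0 ≤ x → x ≤ y → y ≤ 1 → Zp y - Zp x ≤ PH Lp Lp' y - PH Lp Lp' x) :
    (∫ v in (0 : ℝ)..1, Z v ^ 2) - (∫ v in (0 : ℝ)..1, Z v) ^ 2
      ≤ ((Lm / 2 + Lm' / 12 + (L / 2 - L' / 12)) - ((∫ v in (0 : ℝ)..1, Z v) - (∫ v in (0 : ℝ)..1, Zm v)))
        * ((L / 2 + L' / 12 + (Lp / 2 - Lp' / 12)) - ((∫ v in (0 : ℝ)..1, Zp v) - (∫ v in (0 : ℝ)..1, Z v)))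
        + (L ^ 2 / 12 + L' ^ 2 / 720) := by
  have h := var_lo (Zm := fun v => -Zm v) (Z := fun v => -Z v) (Zp := fun v => -Zp v) cm.neg c0.neg cp.neg
    (by simp [j1]) (by simp [j2]) hL (fun x y a b c => by have := hm x y a b c; linarith)
    (fun x y a b c => by have := h0 x y a b c; linarith) (fun x y a b c => by have := hp x y a b c; linarith)
  simp only [neg_sq, intervalIntegral.integral_neg] at h
  refine h.trans (le_of_eq ?_)
  ring

include c0 in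
/-- variance of a Lipschitz function -/
theorem var_lip {M : ℝ} (hu : ∀ x y, 0 ≤ x → x ≤ y → y ≤ 1 → Z y - Z x ≤ M * (y - x))
    (hl : ∀ x y, 0 ≤ x → x ≤ y → y ≤ 1 → -(M * (y - x)) ≤ Z y - Z x) :
    (∫ v in (0 : ℝ)..1, Z v ^ 2) - (∫ v in (0 : ℝ)..1, Z v) ^ 2 ≤ M ^ 2 / 12 := by
  have c1 : Continuous fun v : ℝ => M * v + Z v := by fun_prop
  have c2 : Continuous fun v : ℝ => M * v - Z v := by fun_prop
  have k := cheb c1 c2 (fun x y a b c => by have := hl x y a b c; linarith)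
    (fun x y a b c => by have := hu x y a b c; linarith)
  have i1 : ∫ v in (0 : ℝ)..1, M * v = M / 2 := by
    rw [intervalIntegral.integral_const_mul, integral_id]
    ring
  have e1 : ∫ v in (0 : ℝ)..1, (M * v + Z v) = M / 2 + ∫ v in (0 : ℝ)..1, Z v := by
    rw [intervalIntegral.integral_add (ii (by fun_prop) _ _) (ii c0 _ _), i1]
  have e2 : ∫ v in (0 : ℝ)..1, (M * v - Z v) = M / 2 - ∫ v in (0 : ℝ)..1, Z v := by
    rw [intervalIntegral.integral_sub (ii (by fun_prop) _ _) (ii c0 _ _), i1]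
  have e3 : ∫ v in (0 : ℝ)..1, (M * v + Z v) * (M * v - Z v) = M ^ 2 / 3 - ∫ v in (0 : ℝ)..1, Z v ^ 2 := by
    have e4 : ∀ v, (M * v + Z v) * (M * v - Z v) = M ^ 2 * v ^ 2 - Z v ^ 2 := fun v => by ring
    simp only [e4]
    rw [intervalIntegral.integral_sub (ii (by fun_prop) _ _) (ii (by fun_prop) _ _),
      intervalIntegral.integral_const_mul, integral_pow]
    norm_num
    ring
  rw [e1, e2, e3] at k
  nlinarith

include c0 cp j2 in
/-- increments of the averages, upper bound -/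
theorem inc_up (h0 : ∀ x y, 0 ≤ x → x ≤ y → y ≤ 1 → Z y - Z x ≤ PH L L' y - PH L L' x)
    (hp : ∀ x y, 0 ≤ x → x ≤ y → y ≤ 1 → Zp y - Zp x ≤ PH Lp Lp' y - PH Lp Lp' x) :
    (∫ v in (0 : ℝ)..1, Zp v) - (∫ v in (0 : ℝ)..1, Z v) ≤ L / 2 + L' / 12 + (Lp / 2 - Lp' / 12) := by
  have e : (∫ v in (0 : ℝ)..1, (PH Lp Lp' v - PH L L' v + L)) = L / 2 + L' / 12 + (Lp / 2 - Lp' / 12) := by
    rw [intervalIntegral.integral_add (ii (by fun_prop) _ _) (ii (by fun_prop) _ _),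
      intervalIntegral.integral_sub (ii (cont_PH _ _) _ _) (ii (cont_PH _ _) _ _), int_PH, int_PH, int_const1]
    ring
  rw [← intervalIntegral.integral_sub (ii cp _ _) (ii c0 _ _), ← e]
  refine intervalIntegral.integral_mono_on zero_le_one (ii (cp.sub c0) _ _)
    (ii (by fun_prop) _ _) fun v hv => ?_
  have a1 := hp 0 v le_rfl hv.1 hv.2
  have a2 := h0 v 1 hv.1 hv.2 le_rfl
  rw [PH_zero] at a1
  rw [PH_one] at a2
  linarith

include c0 cp j2 in
/-- increments of the averages, lower bound -/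
theorem inc_lo (h0 : ∀ x y, 0 ≤ x → x ≤ y → y ≤ 1 → -(PH L L' y - PH L L' x) ≤ Z y - Z x)
    (hp : ∀ x y, 0 ≤ x → x ≤ y → y ≤ 1 → -(PH Lp Lp' y - PH Lp Lp' x) ≤ Zp y - Zp x) :
    -(L / 2 + L' / 12 + (Lp / 2 - Lp' / 12)) ≤ (∫ v in (0 : ℝ)..1, Zp v) - (∫ v in (0 : ℝ)..1, Z v) := by
  have h := inc_up (Z := fun v => -Z v) (Zp := fun v => -Zp v) c0.neg cp.neg (by simp [j2])
    (fun x y a b c => by have := h0 x y a b c; linarith) (fun x y a b c => by have := hp x y a b c; linarith)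
  simp only [intervalIntegral.integral_neg] at h
  linarith

end cells

end Pool.Agent.FPX.CAV
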