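import Mathlib
import Pool.Agent.FPX.SQC
import Pool.Agent.FPX.SQX

/-
SQV (helper88): the hermitian form of the pilot with the quadratic part kept TOGETHER:
`S0 (|u|² + |v|²) - 2 Re (u conj v d) = mean (X² ω)`, `ω = |u|² + |v|² - 2 Re (u conj v E⁴) ≥ 0`; only an upper
bound of this mean and an approximation of `σ` (error squared) are needed.
-/

open MeasureTheory Set Filter Topology
open scoped ENNReal NNReal ContDiff ComplexConjugate

noncomputable section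

namespace Pool.Agent.FPX.SQV

open Pool.Agent.FPX.SQM Pool.Agent.FPX.SQN Pool.Agent.FPX.SQC Pool.Agent.FPX.ALX

/-- the weight of `X²` -/
def om (u v : ℂ) (a : ℝ) : ℝ :=
  ‖u‖ ^ 2 + ‖v‖ ^ 2 - 2 * ((u * conj v).re * Real.cos (4 * a) - (u * conj v).im * Real.sin (4 * a))

theorem om_eq (u v : ℂ) (a : ℝ) : om u v a = ‖u - v * Complex.exp (-(4 * a : ℝ) * Complex.I)‖ ^ 2 := by
  have nsq : ∀ z : ℂ, ‖z‖ ^ 2 = z.re ^ 2 + z.im ^ 2 := fun z => by
    rw [← Complex.normSq_eq_norm_sq, Complex.normSq_apply]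
    ring
  have e : Complex.exp (-(4 * a : ℝ) * Complex.I) = ⟨Real.cos (4 * a), -Real.sin (4 * a)⟩ := by
    have : (-(4 * a : ℝ) : ℂ) = ((-(4 * a) : ℝ) : ℂ) := by push_cast; rfl
    rw [this]
    apply Complex.ext
    · rw [Complex.exp_ofReal_mul_I_re, Real.cos_neg]
    · rw [Complex.exp_ofReal_mul_I_im, Real.sin_neg]
  have h := Real.sin_sq_add_cos_sq (4 * a)
  unfold om
  rw [e]
  simp only [nsq, Complex.sub_re, Complex.sub_im, Complex.mul_re, Complex.mul_im, Complex.conj_re, Complex.conj_im]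
  linear_combination (-(v.re ^ 2) - v.im ^ 2) * h

theorem om_nonneg (u v : ℂ) (a : ℝ) : 0 ≤ om u v a := by
  rw [om_eq]
  positivity

/-- **the quadratic part is the mean of `X² ω`** -/
theorem quad_mn {X : ℝ → ℝ} (hX : Continuous X) (u v : ℂ) :
    mS X * (‖u‖ ^ 2 + ‖v‖ ^ 2) - 2 * (u * conj v * mY X).re = QST.mn fun a => X a ^ 2 * om u v a := by
  have i0 : IntervalIntegrable (fun a => X a ^ 2) volume 0 (2 * Real.pi) := (hX.pow 2).intervalIntegrable _ _
  have i1 : IntervalIntegrable (fun a => X a ^ 2 * Real.cos (4 * a)) volume 0 (2 * Real.pi) :=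
    ((hX.pow 2).mul (by fun_prop)).intervalIntegrable _ _
  have i2 : IntervalIntegrable (fun a => X a ^ 2 * Real.sin (4 * a)) volume 0 (2 * Real.pi) :=
    ((hX.pow 2).mul (by fun_prop)).intervalIntegrable _ _
  have e : ∀ a, X a ^ 2 * om u v a = (‖u‖ ^ 2 + ‖v‖ ^ 2) * X a ^ 2
      + (-2 * (u * conj v).re * (X a ^ 2 * Real.cos (4 * a))
        + 2 * (u * conj v).im * (X a ^ 2 * Real.sin (4 * a))) := fun a => by
    unfold om
    ring
  unfold mS mY QST.mn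
  simp only [e]
  rw [intervalIntegral.integral_add (i0.const_mul _) ((i1.const_mul _).add (i2.const_mul _)),
    intervalIntegral.integral_add (i1.const_mul _) (i2.const_mul _), intervalIntegral.integral_const_mul,
    intervalIntegral.integral_const_mul, intervalIntegral.integral_const_mul, Complex.mul_re]
  ring

/-- the part of `σ` -/
theorem sig_le {b1 be th Es : ℝ} {σ s : ℂ} (hk : 0 < k2 1 be) (hth : 0 < th) (hth1 : th ≤ 1)
    (hs : ‖σ - s‖ ^ 2 ≤ Es) (u v : ℂ) :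
    (k2 1 be * (1 - th) * ‖s‖ ^ 2 - k2 1 be * (1 / th - 1) * Es) * ‖u‖ ^ 2
      - th * k1 1 b1 be ^ 2 / k2 1 be * ‖v‖ ^ 2 + 2 * (u * conj v * (((1 - th) * k1 1 b1 be : ℝ) * s)).re
      ≤ k2 1 be * ‖σ‖ ^ 2 * ‖u‖ ^ 2 + 2 * (u * conj v * ((k1 1 b1 be : ℝ) * σ)).re := by
  have h := AF_le_HF (T := 1) (b1 := b1) (be := be) (th := th) (t := 1) (S0 := 0) (S := 0) (ES := 0) (Ed := 0)
    (d := 0) (dn := 0) one_pos hk hth hth1 one_pos (by simp) (by simp) hs u v
  rw [HF_aff one_ne_zero] at h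
  unfold AF at h
  simp only [mul_zero, add_zero, sub_zero, zero_add] at h
  have e1 : (((1 : ℝ) - th) * k1 1 b1 be : ℝ) = (1 - th) * k1 1 b1 be := rfl
  nlinarith [h]

/-- **the pilot form from an upper bound of the mean of `X² ω` and an approximation of `σ`** -/
theorem HF_ge {X : ℝ → ℝ} (hX : Continuous X) {b1 be th Es W : ℝ} {s : ℂ} (hk : 0 < k2 1 be) (hth : 0 < th)
    (hth1 : th ≤ 1) (hs : ‖mG X - s‖ ^ 2 ≤ Es) (u v : ℂ) (hW : (QST.mn fun a => X a ^ 2 * om u v a) ≤ W) :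
    (k2 1 be * (1 - th) * ‖s‖ ^ 2 - k2 1 be * (1 / th - 1) * Es) * ‖u‖ ^ 2
      + (1 + 2 * b1 - b1 ^ 2 - th * k1 1 b1 be ^ 2 / k2 1 be) * ‖v‖ ^ 2
      + 2 * (u * conj v * (((1 - th) * k1 1 b1 be : ℝ) * s)).re - 9 / 16 * W
      ≤ HF 1 (mS X) b1 (be * conj (mG X)) (mG X) (mY X) u v := by
  rw [HF_aff one_ne_zero]
  have h1 := sig_le (b1 := b1) hk hth hth1 hs u v
  rw [← quad_mn hX] at hW
  have e : (u * conj v * (((k1 1 b1 be : ℝ) : ℂ) * mG X + ((9 / (16 * 1) : ℝ) : ℂ) * mY X)).re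
      = (u * conj v * (((k1 1 b1 be : ℝ) : ℂ) * mG X)).re + 9 / 16 * (u * conj v * mY X).re := by
    rw [mul_add, Complex.add_re]
    congr 1
    have : u * conj v * (((9 / (16 * 1) : ℝ) : ℂ) * mY X) = ((9 / 16 : ℝ) : ℂ) * (u * conj v * mY X) := by
      push_cast
      ring
    rw [this, Complex.re_ofReal_mul]
  rw [e]
  have e2 : b1 ^ 2 / (1 : ℝ) = b1 ^ 2 := div_one _
  rw [e2]
  nlinarith [h1, hW]

end Pool.Agent.FPX.SQV
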