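import Pool.Agent.FPX.CAV
import Pool.Agent.FPX.CAB
import Pool.Agent.FPX.SQV

/-
CAX (helper79): the pilot class `St s` with cell averages on the uniform grid: record of rational data, the finite
dimensional statement and its consequence `SQX.CertW`.
-/

set_option linter.unusedSectionVars false

open MeasureTheory Set Filter Topology
open scoped ComplexConjugate

noncomputable section

namespace Pool.Agent.FPX.CAV

open Pool.Agent.FPX.NOD Pool.Agent.FPX.ALX Pool.Agent.FPX.SQD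
open Pool.Agent.FPX.SQM Pool.Agent.FPX.SQN Pool.Agent.FPX.SQC Pool.Agent.FPX.SQV

/-- the uniform grid (units of `π`), all indices -/
def ru (N : ℕ) (i : ℕ) : ℝ := -(1 / 2) + i / N

theorem ru_inc {N : ℕ} (hN : 0 < N) (i : ℕ) : ru N i < ru N (i + 1) := by
  have : (0 : ℝ) < N := by exact_mod_cast hN
  unfold ru
  push_cast
  have : (i : ℝ) / N < (i + 1) / N := div_lt_div_of_pos_right (by linarith) this
  linarith

theorem ru_grid {N : ℕ} (hN : 0 < N) : Grid N (ru N) := by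
  have : (N : ℝ) ≠ 0 := by exact_mod_cast hN.ne'
  refine ⟨by simp [ru], ?_, fun i _ => ru_inc hN i⟩
  unfold ru
  rw [div_self this]
  norm_num

theorem pt_last {N : ℕ} (hN : 0 < N) (v : ℝ) : pt (ru N) N v = pt (ru N) 0 v + Real.pi := by
  have : (N : ℝ) ≠ 0 := by exact_mod_cast hN.ne'
  unfold pt ru
  push_cast
  field_simp
  ring

/-- upper bound of the slopes on the cell `i` -/
structure UBd (X : ℝ → ℝ) (r : ℕ → ℝ) (i : ℕ) (H H' : ℝ) : Prop where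
  inc : ∀ x y, 0 ≤ x → x ≤ y → y ≤ 1 → X (pt r i y) - X (pt r i x) ≤ PH H H' y - PH H H' x
  nn : ∀ v, 0 ≤ v → v ≤ 1 → 0 ≤ H + H' * (v - 1 / 2)

/-- lower bound of the slopes on the cell `i` -/
structure LBd (X : ℝ → ℝ) (r : ℕ → ℝ) (i : ℕ) (H H' : ℝ) : Prop where
  inc : ∀ x y, 0 ≤ x → x ≤ y → y ≤ 1 → -(PH H H' y - PH H H' x) ≤ X (pt r i y) - X (pt r i x)
  nn : ∀ v, 0 ≤ v → v ≤ 1 → 0 ≤ H + H' * (v - 1 / 2)

/-- half sum of the majorants of neighbouring cells -/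
def hs (H H' Hp Hp' : ℚ) : ℚ := H / 2 + H' / 12 + (Hp / 2 - Hp' / 12)

/-- the data of a class -/
structure CD where
  N : ℕ
  s : ℚ
  xm : ℚ
  u : ℕ → Bool
  w : ℕ → Bool
  H : ℕ → ℚ
  H' : ℕ → ℚ
  L : ℕ → ℚ
  L' : ℕ → ℚ
  hb : ℕ → ℚ
  lb : ℕ → ℚ
  ty : ℕ → ℕ
  vc : ℕ → ℚ
  r1 : ℕ → ℚ
  i1 : ℕ → ℚ
  r3 : ℕ → ℚ
  i3 : ℕ → ℚ
  r4 : ℕ → ℚ
  i4 : ℕ → ℚ
  η : ℚ
  e1 : ℚ
  e3 : ℚ
  e4 : ℚ

namespace CD

variable (D : CD)

/-- the increment `i` is bounded from above by the majorants -/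
def okU (i : ℕ) : Prop :=
  if i + 1 < D.N then D.u i = true ∧ D.u (i + 1) = true ∧ hs (D.H i) (D.H' i) (D.H (i + 1)) (D.H' (i + 1)) ≤ D.hb i
  else i + 1 = D.N ∧ D.u i = true ∧ D.w 0 = true ∧ hs (D.H i) (D.H' i) (D.L 0) (D.L' 0) ≤ D.hb i

/-- the increment `i` is bounded from below by the majorants -/
def okW (i : ℕ) : Prop :=
  if i + 1 < D.N then D.w i = true ∧ D.w (i + 1) = true ∧ hs (D.L i) (D.L' i) (D.L (i + 1)) (D.L' (i + 1)) ≤ D.lb i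
  else i + 1 = D.N ∧ D.w i = true ∧ D.u 0 = true ∧ hs (D.L i) (D.L' i) (D.H 0) (D.H' 0) ≤ D.lb i

/-- the check of the variance of the cell `i` -/
def okV (i : ℕ) : Prop :=
  match D.ty i with
  | 0 => D.u i = true ∧ D.w i = true ∧ ∃ M : ℚ, D.H i + |D.H' i| / 2 ≤ M ∧ D.L i + |D.L' i| / 2 ≤ M ∧
      M ^ 2 / 12 ≤ D.vc i
  | 1 => ∃ j, i = j + 1 ∧ D.okW j ∧ D.okW (j + 1) ∧ D.L i ^ 2 / 12 + D.L' i ^ 2 / 720 ≤ D.vc i
  | 2 => ∃ j, i = j + 1 ∧ D.okU j ∧ D.okU (j + 1) ∧ D.H i ^ 2 / 12 + D.H' i ^ 2 / 720 ≤ D.vc i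
  | _ => i = 0 ∧ ∃ j, D.N = j + 1 ∧ D.okW j ∧ D.okU 0 ∧ D.H 0 ^ 2 / 12 + D.H' 0 ^ 2 / 720 ≤ D.vc 0

/-- the analytic checks -/
structure Ok : Prop where
  N1 : 1 < D.N
  s0 : 0 < D.s
  s1 : D.s ≤ 1
  hxm : 31 / 50 * D.s ≤ D.xm
  maj : ∀ i < D.N, D.u i = true → Maj D.s (ru D.N) i (D.H i) (D.H' i)
  mnj : ∀ i < D.N, D.w i = true → Mnj D.s (ru D.N) i (D.L i) (D.L' i)
  hup : ∀ i < D.N, D.okU i ∨ 2 * D.xm ≤ D.hb i
  hlo : ∀ i < D.N, D.okW i ∨ 2 * D.xm ≤ D.lb i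
  var : ∀ i < D.N, D.okV i
  t1 : ∀ i < D.N, ‖pm 1 (ru D.N) i - ((D.r1 i : ℝ) + (D.i1 i : ℝ) * Complex.I)‖ ≤ D.η
  t3 : ∀ i < D.N, ‖pm 3 (ru D.N) i - ((D.r3 i : ℝ) + (D.i3 i : ℝ) * Complex.I)‖ ≤ D.η
  t4 : ∀ i < D.N, ‖pm 4 (ru D.N) i - ((D.r4 i : ℝ) + (D.i4 i : ℝ) * Complex.I)‖ ≤ D.η
  n4 : ∀ i < D.N, D.r4 i ^ 2 + D.i4 i ^ 2 ≤ 1
  he1 : 3927 / 1250 / (8 * D.N ^ 2) * (4 + 2 * D.xm) + D.η * D.xm ≤ D.e1
  he3 : 3 * (3927 / 1250) / (8 * D.N ^ 2) * (4 + 2 * D.xm) + D.η * D.xm ≤ D.e3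
  he4 : 4 * (3927 / 1250) / (8 * D.N ^ 2) * (2 * D.xm * (4 + 2 * D.xm)) + D.η * D.xm ^ 2 ≤ D.e4

/-- the bound of the variance of the cell `i` -/
def VB (z : ℕ → ℝ) (i : ℕ) : ℝ :=
  match D.ty i with
  | 0 => (D.vc i : ℝ)
  | 1 => (z i - z (i - 1) + (D.lb (i - 1) : ℝ)) * (z (i + 1) - z i + (D.lb i : ℝ)) + (D.vc i : ℝ)
  | 2 => ((D.hb (i - 1) : ℝ) - (z i - z (i - 1))) * ((D.hb i : ℝ) - (z (i + 1) - z i)) + (D.vc i : ℝ)
  | _ => (z D.N - z (D.N - 1) + (D.lb (D.N - 1) : ℝ)) * ((D.hb 0 : ℝ) - (z 1 - z 0)) + (D.vc i : ℝ)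

/-- mean of a sequence with rational weights -/
def lf (a : ℕ → ℚ) (z : ℕ → ℝ) : ℝ := (1 / D.N : ℝ) * ∑ i ∈ Finset.range D.N, (a i : ℝ) * z i

/-- admissible averages -/
structure Adm (z : ℕ → ℝ) : Prop where
  last : z D.N = -z 0
  hi : ∀ i < D.N, z (i + 1) - z i ≤ D.hb i
  lo : ∀ i < D.N, -(D.lb i : ℝ) ≤ z (i + 1) - z i
  c1 : |D.lf D.r1 z| ≤ D.e1
  s1 : |D.lf D.i1 z| ≤ D.e1

/-- the weight of the cell `i` -/
def wt (i : ℕ) (u v : ℂ) : ℝ := ‖u‖ ^ 2 + ‖v‖ ^ 2 - 2 * ((u * conj v).re * D.r4 i - (u * conj v).im * D.i4 i)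

/-- the form -/
def form (b1 be th tt ω₁ ω₂ : ℝ) (z : ℕ → ℝ) (u v : ℂ) : ℝ :=
  (ω₁ + be * (3 - be) * (1 - th) * (9 / 4) * (D.lf D.r3 z ^ 2 + D.lf D.i3 z ^ 2)
      - be * (3 - be) * (1 / th - 1) * (9 / 4 * (D.e3 : ℝ) ^ 2) - 9 / 16 * (D.e4 / tt)) * ‖u‖ ^ 2
    + (1 - ω₂ + 2 * b1 - b1 ^ 2 - th * (be * (1 - b1) + (1 + 3 * b1) / 2) ^ 2 / (be * (3 - be))
      - 9 / 16 * (D.e4 * tt)) * ‖v‖ ^ 2
    - 3 * (1 - th) * (be * (1 - b1) + (1 + 3 * b1) / 2)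
      * ((u * conj v).re * D.lf D.r3 z - (u * conj v).im * D.lf D.i3 z)
    - 9 / 16 * ((1 / D.N : ℝ) * ∑ i ∈ Finset.range D.N, (z i ^ 2 + D.VB z i) * D.wt i u v)

/-- **the finite dimensional statement** -/
def Cert (b1 be th tt ω₁ ω₂ : ℝ) : Prop :=
  ∀ z : ℕ → ℝ, D.Adm z → ∀ u v : ℂ, 0 ≤ D.form b1 be th tt ω₁ ω₂ z u v

section state

variable {D : CD} (hD : D.Ok) {X : ℝ → ℝ} (hX : St D.s X) (hb : ∀ a, |X a| ≤ 0.62 * (D.s : ℝ))

include hD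

theorem Ok.cs0 : (0 : ℝ) < D.s := by exact_mod_cast hD.s0

theorem Ok.cs1 : (D.s : ℝ) ≤ 1 := by exact_mod_cast hD.s1

theorem Ok.N0 : 0 < D.N := lt_trans one_pos hD.N1

include hb in
theorem Ok.bx (a : ℝ) : |X a| ≤ (D.xm : ℝ) := by
  have h : ((31 / 50 * D.s : ℚ) : ℝ) ≤ D.xm := by exact_mod_cast hD.hxm
  refine (hb a).trans (le_trans (le_of_eq ?_) h)
  push_cast
  norm_num

include hX

theorem Ok.ub {i : ℕ} (hi : i < D.N) (h : D.u i = true) : UBd X (ru D.N) i (D.H i) (D.H' i) :=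
  ⟨hup_of hX (Ok.cs0 hD).le le_rfl (Ok.cs0 hD) (Ok.cs1 hD) (ru_inc (Ok.N0 hD) i) (hD.maj i hi h),
    fun v h0 h1 => (hD.maj i hi h v h0 h1).1⟩

theorem Ok.lb {i : ℕ} (hi : i < D.N) (h : D.w i = true) : LBd X (ru D.N) i (D.L i) (D.L' i) :=
  ⟨hlo_of hX (Ok.cs0 hD).le le_rfl (Ok.cs0 hD) (Ok.cs1 hD) (ru_inc (Ok.N0 hD) i) (hD.mnj i hi h),
    fun v h0 h1 => (hD.mnj i hi h v h0 h1).1⟩

theorem Ok.ubN (h : D.w 0 = true) : UBd X (ru D.N) D.N (D.L 0) (D.L' 0) := by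
  have h1 := Ok.lb hD hX (Ok.N0 hD) h
  refine ⟨fun x y a b c => ?_, h1.nn⟩
  rw [pt_last (Ok.N0 hD), pt_last (Ok.N0 hD), hX.anti, hX.anti]
  have := h1.inc x y a b c
  linarith

theorem Ok.lbN (h : D.u 0 = true) : LBd X (ru D.N) D.N (D.H 0) (D.H' 0) := by
  have h1 := Ok.ub hD hX (Ok.N0 hD) h
  refine ⟨fun x y a b c => ?_, h1.nn⟩
  rw [pt_last (Ok.N0 hD), pt_last (Ok.N0 hD), hX.anti, hX.anti]
  have := h1.inc x y a b c
  linarith

omit hD in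
theorem cont_cell (N i : ℕ) : Continuous fun v => X (pt (ru N) i v) := by
  have h := hX.cont
  unfold pt
  fun_prop

omit hD in
theorem av_last {N : ℕ} (hN : 0 < N) : av X (ru N) N = -av X (ru N) 0 := by
  unfold av
  rw [← intervalIntegral.integral_neg]
  congr 1
  funext v
  rw [pt_last hN, hX.anti]

/-- upper majorants of the cells `i`, `i + 1` -/
theorem Ok.pairU {i : ℕ} (h : D.okU i) : ∃ A A' B B' : ℝ, UBd X (ru D.N) i A A' ∧ UBd X (ru D.N) (i + 1) B B' ∧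
    A / 2 + A' / 12 + (B / 2 - B' / 12) ≤ D.hb i ∧ i < D.N ∧ A = D.H i ∧ A' = D.H' i ∧
    (i + 1 < D.N → B = D.H (i + 1) ∧ B' = D.H' (i + 1)) := by
  unfold CD.okU at h
  split_ifs at h with hi
  · obtain ⟨h1, h2, h3⟩ := h
    have hi' : i < D.N := by omega
    refine ⟨_, _, _, _, Ok.ub hD hX hi' h1, Ok.ub hD hX hi h2, ?_, hi', rfl, rfl, fun _ => ⟨rfl, rfl⟩⟩
    have : ((hs (D.H i) (D.H' i) (D.H (i + 1)) (D.H' (i + 1)) : ℚ) : ℝ) ≤ D.hb i := by exact_mod_cast h3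
    unfold hs at this
    push_cast at this
    exact this
  · obtain ⟨h0, h1, h2, h3⟩ := h
    have hi' : i < D.N := by omega
    refine ⟨_, _, _, _, Ok.ub hD hX hi' h1,
      Eq.subst (motive := fun n => UBd X (ru D.N) n (D.L 0) (D.L' 0)) h0.symm (Ok.ubN hD hX h2), ?_, hi', rfl, rfl, fun hh => absurd hh hi⟩
    have : ((hs (D.H i) (D.H' i) (D.L 0) (D.L' 0) : ℚ) : ℝ) ≤ D.hb i := by exact_mod_cast h3
    unfold hs at this
    push_cast at this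
    exact this

/-- lower majorants of the cells `i`, `i + 1` -/
theorem Ok.pairW {i : ℕ} (h : D.okW i) : ∃ A A' B B' : ℝ, LBd X (ru D.N) i A A' ∧ LBd X (ru D.N) (i + 1) B B' ∧
    A / 2 + A' / 12 + (B / 2 - B' / 12) ≤ D.lb i ∧ i < D.N ∧ A = D.L i ∧ A' = D.L' i ∧
    (i + 1 < D.N → B = D.L (i + 1) ∧ B' = D.L' (i + 1)) ∧ (i + 1 = D.N → B = D.H 0 ∧ B' = D.H' 0) := by
  unfold CD.okW at h
  split_ifs at h with hi
  · obtain ⟨h1, h2, h3⟩ := h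
    have hi' : i < D.N := by omega
    refine ⟨_, _, _, _, Ok.lb hD hX hi' h1, Ok.lb hD hX hi h2, ?_, hi', rfl, rfl, fun _ => ⟨rfl, rfl⟩,
      fun hh => absurd hh (by omega)⟩
    have : ((hs (D.L i) (D.L' i) (D.L (i + 1)) (D.L' (i + 1)) : ℚ) : ℝ) ≤ D.lb i := by exact_mod_cast h3
    unfold hs at this
    push_cast at this
    exact this
  · obtain ⟨h0, h1, h2, h3⟩ := h
    have hi' : i < D.N := by omega
    refine ⟨_, _, _, _, Ok.lb hD hX hi' h1,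
      Eq.subst (motive := fun n => LBd X (ru D.N) n (D.H 0) (D.H' 0)) h0.symm (Ok.lbN hD hX h2), ?_, hi', rfl, rfl, fun hh => absurd hh hi,
      fun _ => ⟨rfl, rfl⟩⟩
    have : ((hs (D.L i) (D.L' i) (D.H 0) (D.H' 0) : ℚ) : ℝ) ≤ D.lb i := by exact_mod_cast h3
    unfold hs at this
    push_cast at this
    exact this

omit hD hX in
theorem joint (N i : ℕ) : pt (ru N) i 1 = pt (ru N) (i + 1) 0 := by
  rw [pt_one, pt_zero]

theorem Ok.inc_hi {i : ℕ} (h : D.okU i) : av X (ru D.N) (i + 1) - av X (ru D.N) i ≤ D.hb i := by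
  obtain ⟨A, A', B, B', h1, h2, h3, -⟩ := Ok.pairU hD hX h
  exact (inc_up (cont_cell hX _ _) (cont_cell hX _ _) (by rw [joint]) h1.inc h2.inc).trans h3

theorem Ok.inc_low {i : ℕ} (h : D.okW i) : -(D.lb i : ℝ) ≤ av X (ru D.N) (i + 1) - av X (ru D.N) i := by
  obtain ⟨A, A', B, B', h1, h2, h3, -⟩ := Ok.pairW hD hX h
  exact (neg_le_neg h3).trans (inc_lo (cont_cell hX _ _) (cont_cell hX _ _) (by rw [joint]) h1.inc h2.inc)

/-- **the variance of a cell** -/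
theorem Ok.var_le {i : ℕ} (hi : i < D.N) : (∫ v in (0 : ℝ)..1, X (pt (ru D.N) i v) ^ 2) - av X (ru D.N) i ^ 2
    ≤ D.VB (av X (ru D.N)) i := by
  have h := hD.var i hi
  unfold CD.okV at h
  unfold CD.VB
  split at h
  · obtain ⟨h1, h2, M, h3, h4, h5⟩ := h
    have k1 := Ok.ub hD hX hi h1
    have k2 := Ok.lb hD hX hi h2
    have h3' : (D.H i : ℝ) + |(D.H' i : ℝ)| / 2 ≤ M := by exact_mod_cast h3
    have h4' : (D.L i : ℝ) + |(D.L' i : ℝ)| / 2 ≤ M := by exact_mod_cast h4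
    have h5' : (M : ℝ) ^ 2 / 12 ≤ D.vc i := by exact_mod_cast h5
    have key : ∀ A A' : ℝ, A + |A'| / 2 ≤ M → ∀ x y : ℝ, 0 ≤ x → x ≤ y → y ≤ 1 →
        PH A A' y - PH A A' x ≤ M * (y - x) := by
      intro A A' hA x y a b c
      have e : PH A A' y - PH A A' x = (y - x) * (A + A' * ((x + y) / 2 - 1 / 2)) := by
        unfold PH
        ring
      rw [e, mul_comm (M : ℝ)]
      refine mul_le_mul_of_nonneg_left ?_ (by linarith)
      have e1 : A' * ((x + y) / 2 - 1 / 2) ≤ |A'| / 2 := by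
        have e2 : |(x + y) / 2 - 1 / 2| ≤ 1 / 2 := by
          rw [abs_le]
          constructor <;> linarith
        calc A' * ((x + y) / 2 - 1 / 2) ≤ |A' * ((x + y) / 2 - 1 / 2)| := le_abs_self _
          _ = |A'| * |(x + y) / 2 - 1 / 2| := abs_mul _ _
          _ ≤ |A'| * (1 / 2) := mul_le_mul_of_nonneg_left e2 (abs_nonneg _)
          _ = |A'| / 2 := by ring
      linarith
    exact (var_lip (cont_cell hX _ _) (fun x y a b c => (k1.inc x y a b c).trans (key _ _ h3' x y a b c))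
      (fun x y a b c => (neg_le_neg (key _ _ h4' x y a b c)).trans (k2.inc x y a b c))).trans h5'
  · obtain ⟨j, rfl, h1, h2, h3⟩ := h
    obtain ⟨A, A', B, B', a1, a2, a3, a4, rfl, rfl, a7, a8⟩ := Ok.pairW hD hX h1
    obtain ⟨B2, B2', C, C', b1, b2, b3, b4, rfl, rfl, b7, b8⟩ := Ok.pairW hD hX h2
    obtain ⟨rfl, rfl⟩ := a7 hi
    have k := var_lo (cont_cell hX D.N j) (cont_cell hX D.N (j + 1)) (cont_cell hX D.N (j + 1 + 1))
      (by rw [joint]) (by rw [joint]) a2.nn a1.inc a2.inc b2.inc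
    have c1 := Ok.inc_low hD hX h1
    have c2 := Ok.inc_low hD hX h2
    have d1 := inc_lo (cont_cell hX D.N j) (cont_cell hX D.N (j + 1)) (by rw [joint]) a1.inc a2.inc
    have d2 := inc_lo (cont_cell hX D.N (j + 1)) (cont_cell hX D.N (j + 1 + 1)) (by rw [joint]) a2.inc b2.inc
    have h3' : (D.L (j + 1) : ℝ) ^ 2 / 12 + (D.L' (j + 1) : ℝ) ^ 2 / 720 ≤ D.vc (j + 1) := by exact_mod_cast h3
    refine k.trans (add_le_add ?_ h3')
    simp only [Nat.add_sub_cancel]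
    unfold av
    exact mul_le_mul (by linarith) (by linarith) (by linarith) (by unfold av at c1; linarith)
  · obtain ⟨j, rfl, h1, h2, h3⟩ := h
    obtain ⟨A, A', B, B', a1, a2, a3, a4, rfl, rfl, a7⟩ := Ok.pairU hD hX h1
    obtain ⟨B2, B2', C, C', b1, b2, b3, b4, rfl, rfl, b7⟩ := Ok.pairU hD hX h2
    obtain ⟨rfl, rfl⟩ := a7 hi
    have k := var_up (cont_cell hX D.N j) (cont_cell hX D.N (j + 1)) (cont_cell hX D.N (j + 1 + 1))
      (by rw [joint]) (by rw [joint]) a2.nn a1.inc a2.inc b2.inc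
    have c1 := Ok.inc_hi hD hX h1
    have c2 := Ok.inc_hi hD hX h2
    have d1 := inc_up (cont_cell hX D.N j) (cont_cell hX D.N (j + 1)) (by rw [joint]) a1.inc a2.inc
    have d2 := inc_up (cont_cell hX D.N (j + 1)) (cont_cell hX D.N (j + 1 + 1)) (by rw [joint]) a2.inc b2.inc
    have h3' : (D.H (j + 1) : ℝ) ^ 2 / 12 + (D.H' (j + 1) : ℝ) ^ 2 / 720 ≤ D.vc (j + 1) := by exact_mod_cast h3
    refine k.trans (add_le_add ?_ h3')
    simp only [Nat.add_sub_cancel]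
    unfold av
    exact mul_le_mul (by linarith) (by linarith) (by linarith) (by unfold av at c1; linarith)
  · obtain ⟨rfl, j, hj, h1, h2, h3⟩ := h
    obtain ⟨A, A', B, B', a1, a2, a3, a4, rfl, rfl, a7, a8⟩ := Ok.pairW hD hX h1
    obtain ⟨B2, B2', C, C', b1, b2, b3, b4, rfl, rfl, b7⟩ := Ok.pairU hD hX h2
    obtain ⟨rfl, rfl⟩ := a8 hj.symm
    have k := var_up (Zm := fun v => -X (pt (ru D.N) j v)) (cont_cell hX D.N j).neg (cont_cell hX D.N 0)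
      (cont_cell hX D.N (0 + 1)) (by
        have t : pt (ru D.N) (j + 1) 0 = pt (ru D.N) 0 0 + Real.pi :=
          Eq.subst (motive := fun n => pt (ru D.N) n 0 = pt (ru D.N) 0 0 + Real.pi) hj (pt_last (Ok.N0 hD) 0)
        rw [joint, t, hX.anti, neg_neg]) (by rw [joint]) b1.nn
      (fun x y a b c => by have := a1.inc x y a b c; linarith) b1.inc b2.inc
    have d1 := inc_lo (cont_cell hX D.N j) (cont_cell hX D.N (j + 1)) (by rw [joint]) a1.inc a2.inc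
    have d2 := inc_up (cont_cell hX D.N 0) (cont_cell hX D.N (0 + 1)) (by rw [joint]) b1.inc b2.inc
    have c1 := Ok.inc_low hD hX h1
    have h3' : (D.H 0 : ℝ) ^ 2 / 12 + (D.H' 0 : ℝ) ^ 2 / 720 ≤ D.vc 0 := by exact_mod_cast h3
    have e1 : av X (ru D.N) D.N = -av X (ru D.N) 0 := av_last hX (Ok.N0 hD)
    have e1' : av X (ru D.N) (j + 1) = -av X (ru D.N) 0 :=
      Eq.subst (motive := fun n => av X (ru D.N) n = -av X (ru D.N) 0) hj e1
    refine k.trans (add_le_add ?_ h3')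
    simp only [intervalIntegral.integral_neg]
    have e2 : D.N - 1 = j := by omega
    rw [e2, e1]
    unfold av at e1' c1 ⊢
    rw [e1'] at c1 d1
    refine mul_le_mul (by linarith) (by linarith) (by linarith) (by linarith)

end state

/-! ### moments -/

/-- `2 |Re (u conj v w)| ≤ ..` -/
theorem wt_nonneg (D : CD) {i : ℕ} (h : D.r4 i ^ 2 + D.i4 i ^ 2 ≤ 1) (u v : ℂ) : 0 ≤ D.wt i u v := by
  have h' : (D.r4 i : ℝ) ^ 2 + (D.i4 i : ℝ) ^ 2 ≤ 1 := by exact_mod_cast h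
  have e : ∀ z : ℂ, ‖z‖ ^ 2 = z.re ^ 2 + z.im ^ 2 := fun z => by
    rw [← Complex.normSq_eq_norm_sq, Complex.normSq_apply]
    ring
  have key : ∀ a b : ℝ, a ^ 2 + b ^ 2 ≤ 1 →
      0 ≤ ‖u‖ ^ 2 + ‖v‖ ^ 2 - 2 * ((u * conj v).re * a - (u * conj v).im * b) := by
    intro a b hab
    rw [e, e]
    simp only [Complex.mul_re, Complex.mul_im, Complex.conj_re, Complex.conj_im]
    have k : 0 ≤ (u.re - (a * v.re + b * v.im)) ^ 2 + (u.im - (a * v.im - b * v.re)) ^ 2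
        + (1 - (a ^ 2 + b ^ 2)) * (v.re ^ 2 + v.im ^ 2) := by
      have : 0 ≤ (1 - (a ^ 2 + b ^ 2)) * (v.re ^ 2 + v.im ^ 2) := mul_nonneg (by linarith) (by positivity)
      positivity
    nlinarith [k]
  exact key _ _ h'

theorem sum_mean_le {N : ℕ} (hN : 0 < N) {a b : ℕ → ℂ} {η c : ℝ} (hη : ∀ i < N, ‖a i‖ ≤ η) (hc : ∀ i < N, ‖b i‖ ≤ c)
    (h0 : 0 ≤ η) : ‖((1 / N : ℝ) : ℂ) * ∑ i ∈ Finset.range N, a i * b i‖ ≤ η * c := by
  have hN' : (0 : ℝ) < N := by exact_mod_cast hN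
  rw [norm_mul, Complex.norm_real, Real.norm_eq_abs, abs_of_pos (by positivity)]
  have h1 : ‖∑ i ∈ Finset.range N, a i * b i‖ ≤ ∑ _i ∈ Finset.range N, η * c :=
    (norm_sum_le _ _).trans (Finset.sum_le_sum fun i hi => by
      rw [norm_mul]
      exact mul_le_mul (hη i (Finset.mem_range.1 hi)) (hc i (Finset.mem_range.1 hi)) (norm_nonneg _) h0)
  rw [Finset.sum_const, Finset.card_range, nsmul_eq_mul] at h1
  calc 1 / (N : ℝ) * ‖∑ i ∈ Finset.range N, a i * b i‖ ≤ 1 / (N : ℝ) * (N * (η * c)) :=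
        mul_le_mul_of_nonneg_left h1 (by positivity)
    _ = η * c := by field_simp

section state

variable {D : CD} (hD : D.Ok) {X : ℝ → ℝ} (hX : St D.s X) (hb : ∀ a, |X a| ≤ 0.62 * (D.s : ℝ))

include hD hX hb

theorem Ok.av_abs (i : ℕ) : |av X (ru D.N) i| ≤ (D.xm : ℝ) := by
  unfold av
  have := intervalIntegral.norm_integral_le_of_norm_le_const (a := (0 : ℝ)) (b := 1)
    (f := fun v => X (pt (ru D.N) i v)) (C := (D.xm : ℝ)) fun v _ => Ok.bx hD hb _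
  simpa using this

theorem Ok.sq_abs (i : ℕ) : |∫ v in (0 : ℝ)..1, X (pt (ru D.N) i v) ^ 2| ≤ (D.xm : ℝ) ^ 2 := by
  have := intervalIntegral.norm_integral_le_of_norm_le_const (a := (0 : ℝ)) (b := 1)
    (f := fun v => X (pt (ru D.N) i v) ^ 2) (C := (D.xm : ℝ) ^ 2) fun v _ => by
      rw [Real.norm_eq_abs, abs_pow]
      exact pow_le_pow_left₀ (abs_nonneg _) (Ok.bx hD hb _) 2
  simpa using this

theorem Ok.xm0 : (0 : ℝ) ≤ D.xm := (abs_nonneg _).trans (Ok.bx hD hb 0)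

/-- a linear moment -/
theorem Ok.lin {m : ℕ} (hm : Odd m) {a b : ℕ → ℚ} {e : ℚ}
    (ht : ∀ i < D.N, ‖pm m (ru D.N) i - ((a i : ℝ) + (b i : ℝ) * Complex.I)‖ ≤ D.η)
    (he : m * (3927 / 1250) / (8 * D.N ^ 2) * (4 + 2 * D.xm) + D.η * D.xm ≤ e) :
    ‖(⟨QST.mn fun a => X a * Real.cos (m * a), QST.mn fun a => X a * Real.sin (m * a)⟩ : ℂ)
      - ((D.lf a (av X (ru D.N)) : ℝ) + (D.lf b (av X (ru D.N)) : ℝ) * Complex.I)‖ ≤ e := by
  have hN := Ok.N0 hD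
  have hN' : (0 : ℝ) < D.N := by exact_mod_cast hN
  have hxm := Ok.xm0 hD hX hb
  have k1 := lin_av hX (Ok.cs0 hD).le (Ok.cs1 hD) (Ok.bx hD hb) hm hN (r := ru D.N) (fun i => rfl)
  rw [mean_lin hX.cont] at k1
  have hη : (0 : ℝ) ≤ D.η := (norm_nonneg _).trans (ht 0 hN)
  have k2 := sum_mean_le hN (a := fun i => pm m (ru D.N) i - ((a i : ℝ) + (b i : ℝ) * Complex.I))
    (b := fun i => (av X (ru D.N) i : ℂ)) (η := D.η) (c := D.xm) ht (fun i _ => by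
      rw [Complex.norm_real]
      exact Ok.av_abs hD hX hb i) hη
  have he' : ((m * (3927 / 1250) / (8 * D.N ^ 2) * (4 + 2 * D.xm) + D.η * D.xm : ℚ) : ℝ) ≤ e := by exact_mod_cast he
  push_cast at he'
  have hpi : Real.pi ≤ 3927 / 1250 := by
    have := Real.pi_lt_d4
    norm_num at this ⊢
    linarith
  have hpe : (m : ℝ) * Real.pi / (8 * D.N ^ 2) * (4 + 2 * D.xm) ≤ (m : ℝ) * (3927 / 1250) / (8 * D.N ^ 2) * (4 + 2 * D.xm) := by
    have : (0 : ℝ) ≤ m := Nat.cast_nonneg m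
    gcongr
  have e1 : (((1 / D.N : ℝ) : ℂ) * ∑ i ∈ Finset.range D.N, (pm m (ru D.N) i - ((a i : ℝ) + (b i : ℝ) * Complex.I))
      * (av X (ru D.N) i : ℂ)) = ((1 / D.N : ℝ) : ℂ) * ∑ i ∈ Finset.range D.N, pm m (ru D.N) i * av X (ru D.N) i
        - ((D.lf a (av X (ru D.N)) : ℝ) + (D.lf b (av X (ru D.N)) : ℝ) * Complex.I) := by
    unfold CD.lf
    push_cast
    simp only [sub_mul, Finset.sum_sub_distrib, mul_sub, add_mul, Finset.sum_add_distrib, mul_add]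
    congr 2
    rw [mul_assoc, Finset.sum_mul]
    congr 1
    exact Finset.sum_congr rfl fun i _ => by ring
  rw [e1] at k2
  set A : ℂ := ⟨QST.mn fun a => X a * Real.cos (m * a), QST.mn fun a => X a * Real.sin (m * a)⟩
  set B : ℂ := ((1 / D.N : ℝ) : ℂ) * ∑ i ∈ Finset.range D.N, pm m (ru D.N) i * av X (ru D.N) i
  set C : ℂ := ((D.lf a (av X (ru D.N)) : ℝ) + (D.lf b (av X (ru D.N)) : ℝ) * Complex.I)
  have e2 : A - C = (A - B) + (B - C) := by ring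
  rw [e2]
  refine (norm_add_le _ _).trans ?_
  linarith

theorem Ok.adm : D.Adm (av X (ru D.N)) := by
  have hl : ∀ i, |av X (ru D.N) (i + 1) - av X (ru D.N) i| ≤ 2 * (D.xm : ℝ) := fun i => by
    have a1 := abs_le.1 (Ok.av_abs hD hX hb i)
    have a2 := abs_le.1 (Ok.av_abs hD hX hb (i + 1))
    rw [abs_le]
    constructor <;> linarith
  have k := Ok.lin hD hX hb (m := 1) (by decide) hD.t1 (e := D.e1) (by simpa using hD.he1)
  have e1 : (⟨QST.mn fun a => X a * Real.cos ((1 : ℕ) * a),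
      QST.mn fun a => X a * Real.sin ((1 : ℕ) * a)⟩ : ℂ) = 0 := by
    have h1 := hX.mc
    have h2 := hX.ms
    unfold QST.mn
    apply Complex.ext
    · simp [h1]
    · simp [h2]
  rw [e1, zero_sub, norm_neg] at k
  refine ⟨av_last hX (Ok.N0 hD), fun i hi => ?_, fun i hi => ?_, ?_, ?_⟩
  · rcases hD.hup i hi with h | h
    · exact Ok.inc_hi hD hX h
    · have h' : 2 * (D.xm : ℝ) ≤ D.hb i := by exact_mod_cast h
      exact ((abs_le.1 (hl i)).2).trans h'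
  · rcases hD.hlo i hi with h | h
    · exact Ok.inc_low hD hX h
    · have h' : 2 * (D.xm : ℝ) ≤ D.lb i := by exact_mod_cast h
      exact (neg_le_neg h').trans (abs_le.1 (hl i)).1
  · refine le_trans ?_ ((Complex.abs_re_le_norm _).trans k)
    simp
  · refine le_trans ?_ ((Complex.abs_im_le_norm _).trans k)
    simp

/-- the quadratic part -/
theorem Ok.quad {tt : ℝ} (htt : 0 < tt) (u v : ℂ) : (QST.mn fun a => X a ^ 2 * om u v a)
    ≤ (1 / D.N : ℝ) * (∑ i ∈ Finset.range D.N, (av X (ru D.N) i ^ 2 + D.VB (av X (ru D.N)) i) * D.wt i u v)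
      + D.e4 * (‖u‖ ^ 2 / tt + tt * ‖v‖ ^ 2) := by
  have hN := Ok.N0 hD
  have hN' : (0 : ℝ) < D.N := by exact_mod_cast hN
  have hxm := Ok.xm0 hD hX hb
  rw [← quad_mn hX.cont]
  have k0 := sq_av hX (Ok.cs0 hD).le (Ok.cs1 hD) (Ok.bx hD hb) (m := 0) (by decide) hN (r := ru D.N) (fun i => rfl)
  have k4 := sq_av hX (Ok.cs0 hD).le (Ok.cs1 hD) (Ok.bx hD hb) (m := 4) (by decide) hN (r := ru D.N) (fun i => rfl)
  rw [mean_sq hX.cont] at k0 k4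
  obtain ⟨I, hI⟩ : ∃ I : ℕ → ℝ, I = fun i => ∫ v in (0 : ℝ)..1, X (pt (ru D.N) i v) ^ 2 := ⟨_, rfl⟩
  have hIa : ∀ i, |I i| ≤ (D.xm : ℝ) ^ 2 := fun i => by
    rw [hI]
    exact Ok.sq_abs hD hX hb i
  have hIe : ∀ i, (∫ v in (0 : ℝ)..1, X (pt (ru D.N) i v) ^ 2) = I i := fun i => by rw [hI]
  simp only [hIe] at k0 k4
  -- the mean of the squares
  have e0 : mS X = (1 / D.N : ℝ) * ∑ i ∈ Finset.range D.N, I i := by
    have p1 : ∀ i, pm 0 (ru D.N) i = 1 := fun i => by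
      unfold pm ph
      simp
    simp only [p1, one_mul, CharP.cast_eq_zero, zero_mul, zero_div] at k0
    have k := norm_le_zero_iff.1 k0
    have k' := congrArg Complex.re (sub_eq_zero.1 k)
    have e : (((1 / D.N : ℝ) : ℂ) * ∑ i ∈ Finset.range D.N, ((I i : ℝ) : ℂ)).re
        = (1 / D.N : ℝ) * ∑ i ∈ Finset.range D.N, I i := by
      rw [Complex.re_ofReal_mul, ← Complex.ofReal_sum, Complex.ofReal_re]
    rw [e] at k'
    rw [← k']
    unfold mS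
    simp
  -- the fourth harmonic
  have hη : (0 : ℝ) ≤ D.η := (norm_nonneg _).trans (hD.t4 0 hN)
  have k5 := sum_mean_le hN (a := fun i => pm 4 (ru D.N) i - ((D.r4 i : ℝ) + (D.i4 i : ℝ) * Complex.I))
    (b := fun i => (I i : ℂ)) (η := D.η) (c := (D.xm : ℝ) ^ 2) hD.t4 (fun i _ => by
      rw [Complex.norm_real]
      exact hIa i) hη
  obtain ⟨R, hR⟩ : ∃ R : ℝ, R = (1 / D.N : ℝ) * ∑ i ∈ Finset.range D.N, (D.r4 i : ℝ) * I i := ⟨_, rfl⟩
  obtain ⟨J, hJ⟩ : ∃ J : ℝ, J = (1 / D.N : ℝ) * ∑ i ∈ Finset.range D.N, (D.i4 i : ℝ) * I i := ⟨_, rfl⟩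
  have e1 : (((1 / D.N : ℝ) : ℂ) * ∑ i ∈ Finset.range D.N, (pm 4 (ru D.N) i - ((D.r4 i : ℝ) + (D.i4 i : ℝ) * Complex.I))
      * (I i : ℂ)) = ((1 / D.N : ℝ) : ℂ) * ∑ i ∈ Finset.range D.N, pm 4 (ru D.N) i * (I i : ℂ)
        - ((R : ℝ) + (J : ℝ) * Complex.I) := by
    rw [hR, hJ]
    push_cast
    simp only [sub_mul, Finset.sum_sub_distrib, mul_sub, add_mul, Finset.sum_add_distrib, mul_add]
    congr 2
    rw [mul_assoc, Finset.sum_mul]
    congr 1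
    exact Finset.sum_congr rfl fun i _ => by ring
  rw [e1] at k5
  have he4 : ((4 * (3927 / 1250) / (8 * D.N ^ 2) * (2 * D.xm * (4 + 2 * D.xm)) + D.η * D.xm ^ 2 : ℚ) : ℝ) ≤ D.e4 := by
    exact_mod_cast hD.he4
  push_cast at he4
  have hpi : Real.pi ≤ 3927 / 1250 := by
    have := Real.pi_lt_d4
    norm_num at this ⊢
    linarith
  have hpe : (4 : ℝ) * Real.pi / (8 * D.N ^ 2) * (2 * D.xm * (4 + 2 * D.xm))
      ≤ (4 : ℝ) * (3927 / 1250) / (8 * D.N ^ 2) * (2 * D.xm * (4 + 2 * D.xm)) := by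
    gcongr
  have k6 : ‖mY X - ((R : ℝ) + (J : ℝ) * Complex.I)‖ ≤ D.e4 := by
    have e2 : mY X = ⟨QST.mn fun a => X a ^ 2 * Real.cos ((4 : ℕ) * a),
      QST.mn fun a => X a ^ 2 * Real.sin ((4 : ℕ) * a)⟩ := by
      unfold mY
      apply Complex.ext <;> simp
    rw [← e2] at k4
    push_cast at k4
    set B : ℂ := ((1 / D.N : ℝ) : ℂ) * ∑ i ∈ Finset.range D.N, pm 4 (ru D.N) i * (I i : ℂ) with hB
    have e3 : mY X - ((R : ℝ) + (J : ℝ) * Complex.I) = (mY X - B) + (B - ((R : ℝ) + (J : ℝ) * Complex.I)) := by ring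
    rw [e3]
    refine (norm_add_le _ _).trans ?_
    have k4' : ‖mY X - B‖ ≤ 4 * Real.pi / (8 * D.N ^ 2) * (2 * D.xm * (4 + 2 * D.xm)) := by
      rw [hB]
      push_cast
      exact k4
    linarith
  -- the product
  have k7 : -(2 * (u * conj v * mY X).re) ≤ -(2 * ((u * conj v).re * R - (u * conj v).im * J))
      + D.e4 * (‖u‖ ^ 2 / tt + tt * ‖v‖ ^ 2) := by
    have e5 : (u * conj v * mY X).re = ((u * conj v).re * R - (u * conj v).im * J)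
        + (u * conj v * (mY X - ((R : ℝ) + (J : ℝ) * Complex.I))).re := by
      simp only [Complex.mul_re, Complex.sub_re, Complex.sub_im, Complex.add_re, Complex.add_im, Complex.mul_im,
        Complex.ofReal_re, Complex.ofReal_im, Complex.I_re, Complex.I_im]
      ring
    have h1 : -‖u * conj v * (mY X - ((R : ℝ) + (J : ℝ) * Complex.I))‖
        ≤ (u * conj v * (mY X - ((R : ℝ) + (J : ℝ) * Complex.I))).re :=
      (abs_le.1 (Complex.abs_re_le_norm _)).1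
    rw [norm_mul, norm_mul, RCLike.norm_conj] at h1
    have h2 : ‖u‖ * ‖v‖ * ‖mY X - ((R : ℝ) + (J : ℝ) * Complex.I)‖ ≤ ‖u‖ * ‖v‖ * D.e4 :=
      mul_le_mul_of_nonneg_left k6 (by positivity)
    have h3 : 2 * (‖u‖ * ‖v‖) ≤ ‖u‖ ^ 2 / tt + tt * ‖v‖ ^ 2 := by
      have e4 : ‖u‖ ^ 2 / tt + tt * ‖v‖ ^ 2 - 2 * (‖u‖ * ‖v‖) = (‖u‖ - tt * ‖v‖) ^ 2 / tt := by
        field_simp
        ring
      have : 0 ≤ (‖u‖ - tt * ‖v‖) ^ 2 / tt := by positivity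
      linarith
    have hE : 0 ≤ (D.e4 : ℝ) := (norm_nonneg _).trans k6
    have h4 := mul_le_mul_of_nonneg_left h3 hE
    rw [e5]
    nlinarith
  -- the sum
  have k8 : (1 / D.N : ℝ) * (∑ i ∈ Finset.range D.N, I i * D.wt i u v)
      ≤ (1 / D.N : ℝ) * (∑ i ∈ Finset.range D.N, (av X (ru D.N) i ^ 2 + D.VB (av X (ru D.N)) i) * D.wt i u v) := by
    refine mul_le_mul_of_nonneg_left (Finset.sum_le_sum fun i hi => ?_) (by positivity)
    have hiN := Finset.mem_range.1 hi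
    refine mul_le_mul_of_nonneg_right ?_ (wt_nonneg D (hD.n4 i hiN) u v)
    have := Ok.var_le hD hX hiN
    rw [hIe] at this
    linarith
  have e9 : (1 / D.N : ℝ) * (∑ i ∈ Finset.range D.N, I i * D.wt i u v)
      = mS X * (‖u‖ ^ 2 + ‖v‖ ^ 2) - 2 * ((u * conj v).re * R - (u * conj v).im * J) := by
    rw [e0, hR, hJ]
    have e10 : ∀ i, I i * D.wt i u v = (‖u‖ ^ 2 + ‖v‖ ^ 2) * I i - 2 * (u * conj v).re * ((D.r4 i : ℝ) * I i)
        + 2 * (u * conj v).im * ((D.i4 i : ℝ) * I i) := fun i => by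
      unfold CD.wt
      ring
    simp only [e10, Finset.sum_add_distrib, Finset.sum_sub_distrib, ← Finset.mul_sum]
    ring
  linarith

omit hX hb in
/-- **from the finite statement to the class** -/
theorem Ok.certW {b1 be th tt ω₁ ω₂ : ℝ} (hbe : 0 < be) (hbe3 : be < 3) (hth : 0 < th) (hth1 : th ≤ 1)
    (htt : 0 < tt) (hc : D.Cert b1 be th tt ω₁ ω₂) : SQX.CertW D.s ω₁ ω₂ := by
  intro X hX hb
  have hk2 : k2 1 be = be * (3 - be) := by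
    unfold k2
    ring
  have hk1 : k1 1 b1 be = be * (1 - b1) + (1 + 3 * b1) / 2 := by
    unfold k1
    ring
  have hk : 0 < k2 1 be := by
    rw [hk2]
    exact mul_pos hbe (by linarith)
  refine ⟨b1, be * conj (mG X), fun u v => ?_⟩
  have key := hc _ (Ok.adm hD hX hb) u v
  have k3 := Ok.lin hD hX hb (m := 3) (by decide) hD.t3 (e := D.e3) (by simpa using hD.he3)
  obtain ⟨R, hR⟩ : ∃ R : ℝ, R = D.lf D.r3 (av X (ru D.N)) := ⟨_, rfl⟩
  obtain ⟨J, hJ⟩ : ∃ J : ℝ, J = D.lf D.i3 (av X (ru D.N)) := ⟨_, rfl⟩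
  rw [← hR, ← hJ] at k3
  have e1 : mG X - -(3 / 2) * ((R : ℂ) + (J : ℂ) * Complex.I) = -(3 / 2 : ℂ) * (⟨QST.mn fun a => X a * Real.cos ((3 : ℕ) * a),
      QST.mn fun a => X a * Real.sin ((3 : ℕ) * a)⟩ - ((R : ℂ) + (J : ℂ) * Complex.I)) := by
    have : mG X = -(3 / 2 : ℂ) * ⟨QST.mn fun a => X a * Real.cos ((3 : ℕ) * a),
      QST.mn fun a => X a * Real.sin ((3 : ℕ) * a)⟩ := by
      unfold mG
      apply Complex.ext <;> simp
    rw [this]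
    ring
  have hs : ‖mG X - -(3 / 2) * ((R : ℂ) + (J : ℂ) * Complex.I)‖ ^ 2 ≤ 9 / 4 * (D.e3 : ℝ) ^ 2 := by
    rw [e1, norm_mul, mul_pow]
    have e2 : ‖(-(3 / 2) : ℂ)‖ ^ 2 = 9 / 4 := by
      rw [norm_neg]
      norm_num
    rw [e2]
    exact mul_le_mul_of_nonneg_left (pow_le_pow_left₀ (norm_nonneg _) k3 2) (by norm_num)
  have h1 := HF_ge hX.cont (b1 := b1) hk hth hth1 hs u v (Ok.quad hD hX hb htt u v)
  have e3 : ‖-(3 / 2) * ((R : ℂ) + (J : ℂ) * Complex.I)‖ ^ 2 = 9 / 4 * (R ^ 2 + J ^ 2) := by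
    rw [norm_mul, mul_pow, norm_neg]
    have : ‖(R : ℂ) + (J : ℂ) * Complex.I‖ ^ 2 = R ^ 2 + J ^ 2 := by
      rw [← Complex.normSq_eq_norm_sq, Complex.normSq_apply]
      simp
      ring
    rw [this]
    norm_num
  have e4 : (u * conj v * (((1 - th) * k1 1 b1 be : ℝ) * (-(3 / 2) * ((R : ℂ) + (J : ℂ) * Complex.I)))).re
      = -(3 / 2) * ((1 - th) * k1 1 b1 be) * ((u * conj v).re * R - (u * conj v).im * J) := by
    simp only [Complex.mul_re, Complex.mul_im, Complex.add_re, Complex.add_im, Complex.neg_re, Complex.neg_im,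
      Complex.ofReal_re, Complex.ofReal_im, Complex.I_re, Complex.I_im, Complex.div_ofNat_re, Complex.div_ofNat_im,
      Complex.re_ofNat, Complex.im_ofNat]
    ring
  rw [e3, e4, hk1, hk2] at h1
  unfold CD.form at key
  rw [← hR, ← hJ] at key
  refine key.trans (le_trans (le_of_eq ?_) (add_le_add_left h1 _))
  ring

end state

end CD

end Pool.Agent.FPX.CAV
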