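import Pool.Agent.FPX.CAT
import Pool.Agent.FPX.CAR

/-
CAZ (helper79): the finite dimensional statement of CAX (`b1 = 1`, `be = 3/2`, `th = 3/10`, `tt = 4`) from a
certificate of the engine PLY.
-/

set_option autoImplicit false

noncomputable section

namespace Pool.Agent.FPX.CAV

open Pool.Agent.FPX.PLK (CX P6 A3 iz w2 qv lv od OR qv_cons qv_nil lv_cons lv_nil ev3 certX2)
open Pool.Agent.FPX.CAT
open scoped ComplexConjugate

/-- engine data -/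
structure ED where
  cu : ℤ
  cv : ℤ
  B : ℕ
  W : ℕ
  S : ℕ
  o : ℕ
  off : ℕ
  bb : ℕ
  Ch : ℕ
  tag : ℕ
  dt : List ℕ
  g : ℕ
  W2 : ℕ
  o2 : ℕ
  gs : List ℕ
  ps : List ℕ

/-- `2^20` -/
def V20 : ℤ := 1048576

/-- `2^40` -/
def P40 : ℤ := 1099511627776

namespace CZ

variable (Z : CZ)

def zh (i : ℕ) : ℤ := ((Z.hb.getD i 0 : ℕ) : ℤ)

def zl (i : ℕ) : ℤ := ((Z.lb.getD i 0 : ℕ) : ℤ)

def zN : ℤ := (Z.G.N : ℤ)

def zr (l : List ℤ) (i : ℕ) : ℤ := l.getD i 0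

def zv (i : ℕ) : ℤ := ((Z.vc.getD i 0 : ℕ) : ℤ)

/-- the coefficient of the variance products of the cell `i`, times `c` -/
def wv (c : ℤ) (i : ℕ) : List ℤ :=
  [c * (-90 * Z.zN * V20 * V20 * P40), c * (-90 * Z.zN * V20 * V20 * P40), c * (90 * Z.zN * V20 * P40 * zr Z.r4 i),
    c * (-90 * Z.zN * V20 * P40 * zr Z.i4 i)]

/-- the table of the cell `i` -/
def tc (i : ℕ) : List (List (List ℤ)) :=
  match Z.ty.getD i 0 with
  | 0 => []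
  | 1 => tE [0, 0, 0, 0] (Z.wv (4 * ((Z.zl (i - 1) + Z.zh (i - 1)) * (Z.zl i + Z.zh i))) i) (i - 1)
  | 2 => tP [0, 0, 0, 0] (Z.wv (4 * ((Z.zl (i - 1) + Z.zh (i - 1)) * (Z.zl i + Z.zh i))) i)
      (Z.wv (-(4 * ((Z.zl (i - 1) + Z.zh (i - 1)) * (Z.zl i + Z.zh i)))) i) (i - 1)
  | _ => tW [0, 0, 0, 0] (Z.wv (4 * ((Z.zl (Z.G.N - 1) + Z.zh (Z.G.N - 1)) * (Z.zl 0 + Z.zh 0))) i)
      (Z.wv (-(4 * ((Z.zl (Z.G.N - 1) + Z.zh (Z.G.N - 1)) * (Z.zl 0 + Z.zh 0)))) i) (Z.G.N - 1)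

/-- list of the values of a function -/
def ls {α : Type} (n : ℕ) (f : ℕ → α) : List α := (List.range n).map f

/-- the certificate of the engine -/
def cx (E : ED) : CX where
  N := Z.G.N
  κ := V20
  Ls := ls Z.G.N Z.zl
  Hs := ls Z.G.N Z.zh
  F := [([E.cu, E.cv, 0, 0], ls Z.G.N fun i => ⟨if i = 0 then 1 else 0, 0, 0, 0, 0, 0⟩),
    ([-90 * Z.zN * V20 * P40, -90 * Z.zN * V20 * P40, 0, 0], ls Z.G.N fun i => ⟨Z.zv i, 0, 0, V20, 0, 0⟩),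
    ([0, 0, 90 * Z.zN * P40, 0], ls Z.G.N fun i => ⟨zr Z.r4 i * Z.zv i, 0, 0, zr Z.r4 i * V20, 0, 0⟩),
    ([0, 0, 0, -90 * Z.zN * P40], ls Z.G.N fun i => ⟨zr Z.i4 i * Z.zv i, 0, 0, zr Z.i4 i * V20, 0, 0⟩)]
  L := [ls Z.G.N fun i => ⟨if i = 0 then V20 else 0, 0, 0⟩, ls Z.G.N fun i => ⟨0, zr Z.r3 i, 0⟩,
    ls Z.G.N fun i => ⟨0, zr Z.i3 i, 0⟩]
  C := [[[0, 0, 0, 0], [0, 0, -336 * Z.zN * P40, 0], [0, 0, 0, 336 * Z.zN * P40]],
    [[567 * P40, 0, 0, 0], [0, 0, 0, 0]], [[567 * P40, 0, 0, 0]]]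
  T := sumT OZ Z.tc Z.G.N
  P := [ls Z.G.N fun i => ⟨if i = 0 then (Z.g1 : ℤ) * V20 else 0, 16777216 * zr Z.r1 i, 0⟩,
    ls Z.G.N fun i => ⟨if i = 0 then (Z.g1 : ℤ) * V20 else 0, -16777216 * zr Z.r1 i, 0⟩,
    ls Z.G.N fun i => ⟨if i = 0 then (Z.g1 : ℤ) * V20 else 0, 16777216 * zr Z.i1 i, 0⟩,
    ls Z.G.N fun i => ⟨if i = 0 then (Z.g1 : ℤ) * V20 else 0, -16777216 * zr Z.i1 i, 0⟩]
  B := E.B
  W := E.W
  S := E.S
  o := E.o
  off := E.off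
  bb := E.bb
  S1 := E.S
  off1 := E.off
  bb1 := E.bb
  Ch := E.Ch
  tag := E.tag
  dt := E.dt
  g := E.g
  W2 := E.W2
  o2 := E.o2
  gs := E.gs
  ps := E.ps

end CZ

theorem getD_ls {α : Type} (n : ℕ) (f : ℕ → α) (d : α) {i : ℕ} (h : i < n) : (CZ.ls n f).getD i d = f i := by
  unfold CZ.ls
  simp [List.getD_eq_getElem?_getD, h]

theorem getD_ls' {α : Type} (n : ℕ) (f : ℕ → α) (d : α) (hd : f n = d) {i : ℕ} (h : i ≤ n) :
    (CZ.ls n f).getD i d = f i := by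
  rcases Nat.lt_or_ge i n with h1 | h1
  · exact getD_ls n f d h1
  · have : i = n := le_antisymm h h1
    subst this
    rw [hd]
    unfold CZ.ls
    simp [List.getD_eq_getElem?_getD]

theorem iz4 (u v : ℂ) (a b c d : ℤ) : iz (w2 u v) [a, b, c, d] = a * ‖u‖ ^ 2 + b * ‖v‖ ^ 2
    + 2 * (c * (u * conj v).re) + 2 * (d * (u * conj v).im) := by
  unfold w2
  simp only [iz, Complex.normSq_eq_norm_sq]
  simp only [Complex.mul_re, Complex.mul_im, Complex.conj_re, Complex.conj_im]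
  ring

theorem iz_zero (w : List ℝ) : iz w [0, 0, 0, 0] = 0 := by
  rcases w with _ | ⟨a, _ | ⟨b, _ | ⟨c, _ | ⟨d, w⟩⟩⟩⟩ <;> simp [iz]

theorem nq_cast (l : List ℕ) (i : ℕ) : ((nq l i : ℚ) : ℝ) = ((((l.getD i 0 : ℕ) : ℤ) : ℝ)) / 1048576 := by
  unfold nq
  push_cast
  rfl

theorem zq_cast (l : List ℤ) (i : ℕ) : ((zq l i : ℚ) : ℝ) = (CZ.zr l i : ℝ) / 1048576 := by
  unfold zq CZ.zr
  push_cast
  rfl

section link

variable {Z : CZ} {E : ED} {z : ℕ → ℝ}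

theorem sum_ite {N : ℕ} (hN : 0 < N) (c : ℝ) : ∑ i ∈ Finset.range N, (if i = 0 then c else 0) = c := by
  rw [Finset.sum_ite_eq' (Finset.range N) 0 fun _ => c]
  simp [hN]

/-- weighted sum -/
def sz (N : ℕ) (l : List ℤ) (z : ℕ → ℝ) : ℝ := ∑ i ∈ Finset.range N, (CZ.zr l i : ℝ) * z i

theorem lf_eq (l : List ℤ) (D : CD) : D.lf (zq l) z = sz D.N l z / (D.N * 1048576) := by
  unfold CD.lf sz
  simp only [zq_cast]
  rw [Finset.mul_sum, Finset.sum_div]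
  refine Finset.sum_congr rfl fun i _ => ?_
  ring

theorem box (hN : 0 < Z.G.N) (h : Z.cd.Adm z) : (Z.cx E).Box z := by
  have hN' : (0 : ℝ) < Z.G.N := by exact_mod_cast hN
  refine ⟨h.last, fun i hi => ?_, fun i hi => ?_, ?_⟩
  · have hi' : i < Z.G.N := hi
    show -(((CZ.ls Z.G.N Z.zl).getD i 0 : ℤ) : ℝ) ≤ ((V20 : ℤ) : ℝ) * _
    rw [getD_ls _ _ _ hi']
    have h1 := h.lo i hi'
    have e : (Z.cd.lb i : ℝ) = (Z.zl i : ℝ) / 1048576 := by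
      exact nq_cast _ _
    rw [e] at h1
    unfold V20
    push_cast
    linarith
  · have hi' : i < Z.G.N := hi
    show ((V20 : ℤ) : ℝ) * _ ≤ (((CZ.ls Z.G.N Z.zh).getD i 0 : ℤ) : ℝ)
    rw [getD_ls _ _ _ hi']
    have h1 := h.hi i hi'
    have e : (Z.cd.hb i : ℝ) = (Z.zh i : ℝ) / 1048576 := by
      exact nq_cast _ _
    rw [e] at h1
    unfold V20
    push_cast
    linarith
  · have key : ∀ (l : List ℤ) (c : ℤ), (∑ i ∈ Finset.range Z.G.N,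
        ev3 ((CZ.ls Z.G.N fun i => (⟨if i = 0 then (Z.g1 : ℤ) * V20 else 0, c * CZ.zr l i, 0⟩ : A3)).getD i PLK.A3.zero)
          (z i) (z (i + 1))) = (Z.g1 : ℝ) * 1048576 + c * sz Z.G.N l z := by
      intro l c
      have e : ∀ i ∈ Finset.range Z.G.N,
          ev3 ((CZ.ls Z.G.N fun i => (⟨if i = 0 then (Z.g1 : ℤ) * V20 else 0, c * CZ.zr l i, 0⟩ : A3)).getD i PLK.A3.zero)
          (z i) (z (i + 1)) = (if i = 0 then (Z.g1 : ℝ) * 1048576 else 0) + c * ((CZ.zr l i : ℝ) * z i) := by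
        intro i hi
        rw [getD_ls _ _ _ (Finset.mem_range.1 hi)]
        unfold ev3 V20
        simp only
        split_ifs
        · push_cast
          ring
        · push_cast
          ring
      rw [Finset.sum_congr rfl e, Finset.sum_add_distrib, sum_ite hN, ← Finset.mul_sum]
      rfl
    have e1 : (Z.cd.e1 : ℝ) = Z.g1 / (Z.G.N * 16777216) := by
      show (((Z.g1 : ℚ) / (Z.G.N * 16777216) : ℚ) : ℝ) = _
      push_cast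
      rfl
    have c1 := h.c1
    have c2 := h.s1
    have q1 : Z.cd.lf Z.cd.r1 z = _ := lf_eq Z.r1 Z.cd
    have q2 : Z.cd.lf Z.cd.i1 z = _ := lf_eq Z.i1 Z.cd
    rw [q1, e1] at c1
    rw [q2, e1] at c2
    have hcd : Z.cd.N = Z.G.N := rfl
    rw [hcd] at c1 c2
    have lin : ∀ t : ℝ, |t / (Z.G.N * 1048576)| ≤ Z.g1 / (Z.G.N * 16777216) →
        -((Z.g1 : ℝ) * 1048576) ≤ 16777216 * t ∧ 16777216 * t ≤ (Z.g1 : ℝ) * 1048576 := by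
      intro t ht
      rw [abs_div, abs_of_pos (by positivity : (0 : ℝ) < Z.G.N * 1048576), div_le_div_iff₀ (by positivity) (by positivity)] at ht
      have h2 : |t| * 16777216 ≤ Z.g1 * 1048576 := by
        have h3 : (|t| * 16777216) * Z.G.N ≤ (Z.g1 * 1048576) * Z.G.N := by linarith
        exact le_of_mul_le_mul_right h3 hN'
      have h4 := abs_le.1 (le_refl |t|)
      constructor <;> linarith [neg_abs_le t, le_abs_self t]
    have l1 := lin _ c1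
    have l2 := lin _ c2
    intro f hf
    have hf' : f ∈ [CZ.ls Z.G.N fun i => (⟨if i = 0 then (Z.g1 : ℤ) * V20 else 0, 16777216 * CZ.zr Z.r1 i, 0⟩ : A3),
      CZ.ls Z.G.N fun i => ⟨if i = 0 then (Z.g1 : ℤ) * V20 else 0, -16777216 * CZ.zr Z.r1 i, 0⟩,
      CZ.ls Z.G.N fun i => ⟨if i = 0 then (Z.g1 : ℤ) * V20 else 0, 16777216 * CZ.zr Z.i1 i, 0⟩,
      CZ.ls Z.G.N fun i => ⟨if i = 0 then (Z.g1 : ℤ) * V20 else 0, -16777216 * CZ.zr Z.i1 i, 0⟩] := hf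
    simp only [List.mem_cons, List.not_mem_nil, or_false] at hf'
    show 0 ≤ ∑ i ∈ Finset.range Z.G.N, _
    rcases hf' with rfl | rfl | rfl | rfl <;> rw [key] <;> push_cast <;> linarith [l1.1, l1.2, l2.1, l2.2]

/-- the weight of a cell -/
def wtz (Z : CZ) (u v : ℂ) (i : ℕ) : ℝ := ‖u‖ ^ 2 + ‖v‖ ^ 2
    - 2 * ((u * conj v).re * ((CZ.zr Z.r4 i : ℝ) / 1048576) - (u * conj v).im * ((CZ.zr Z.i4 i : ℝ) / 1048576))

theorem wt_eq (u v : ℂ) (i : ℕ) : Z.cd.wt i u v = wtz Z u v i := by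
  unfold CD.wt wtz
  have e1 : (Z.cd.r4 i : ℝ) = (CZ.zr Z.r4 i : ℝ) / 1048576 := by
    exact zq_cast _ _
  have e2 : (Z.cd.i4 i : ℝ) = (CZ.zr Z.i4 i : ℝ) / 1048576 := by
    exact zq_cast _ _
  rw [e1, e2]

theorem iz_wv (u v : ℂ) (c : ℤ) (i : ℕ) : iz (w2 u v) (Z.wv c i)
    = c * (-90 * Z.G.N * 1048576 ^ 2 * 1099511627776) * wtz Z u v i := by
  unfold CZ.wv wtz CZ.zN V20 P40
  rw [iz4]
  push_cast
  ring

/-- the part of the base forms -/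
theorem valF (hN : 0 < Z.G.N) (u v : ℂ) : ((Z.cx E).F.map fun q => iz (w2 u v) q.1 * ∑ i ∈ Finset.range Z.G.N,
      (q.2.getD i PLK.P6.zero).ev (z i) (z (i + 1))).sum
    = E.cu * ‖u‖ ^ 2 + E.cv * ‖v‖ ^ 2 - 90 * Z.G.N * 1048576 ^ 2 * 1099511627776
      * ∑ i ∈ Finset.range Z.G.N, (z i ^ 2 + (Z.zv i : ℝ) / 1048576) * wtz Z u v i := by
  have k0 : ∑ i ∈ Finset.range Z.G.N, ((CZ.ls Z.G.N fun i => (⟨if i = 0 then 1 else 0, 0, 0, 0, 0, 0⟩ : P6 ℤ)).getD i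
      PLK.P6.zero).ev (z i) (z (i + 1)) = 1 := by
    rw [← sum_ite hN 1]
    refine Finset.sum_congr rfl fun i hi => ?_
    rw [getD_ls _ _ _ (Finset.mem_range.1 hi)]
    unfold PLK.P6.ev
    simp only
    split_ifs <;> push_cast <;> ring
  have k1 : ∀ a : ℕ → ℤ, ∑ i ∈ Finset.range Z.G.N, ((CZ.ls Z.G.N fun i => (⟨a i * Z.zv i, 0, 0, a i * V20, 0, 0⟩ : P6 ℤ)).getD i
      PLK.P6.zero).ev (z i) (z (i + 1)) = ∑ i ∈ Finset.range Z.G.N, (a i : ℝ) * (Z.zv i + 1048576 * z i ^ 2) := by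
    intro a
    refine Finset.sum_congr rfl fun i hi => ?_
    rw [getD_ls _ _ _ (Finset.mem_range.1 hi)]
    unfold PLK.P6.ev V20
    push_cast
    ring
  have k2 : ∑ i ∈ Finset.range Z.G.N, ((CZ.ls Z.G.N fun i => (⟨Z.zv i, 0, 0, V20, 0, 0⟩ : P6 ℤ)).getD i
      PLK.P6.zero).ev (z i) (z (i + 1)) = ∑ i ∈ Finset.range Z.G.N, ((Z.zv i : ℝ) + 1048576 * z i ^ 2) := by
    refine Finset.sum_congr rfl fun i hi => ?_
    rw [getD_ls _ _ _ (Finset.mem_range.1 hi)]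
    unfold PLK.P6.ev V20
    push_cast
    ring
  show (([([E.cu, E.cv, 0, 0], CZ.ls Z.G.N fun i => ⟨if i = 0 then 1 else 0, 0, 0, 0, 0, 0⟩),
    ([-90 * Z.zN * V20 * P40, -90 * Z.zN * V20 * P40, 0, 0], CZ.ls Z.G.N fun i => ⟨Z.zv i, 0, 0, V20, 0, 0⟩),
    ([0, 0, 90 * Z.zN * P40, 0], CZ.ls Z.G.N fun i => ⟨CZ.zr Z.r4 i * Z.zv i, 0, 0, CZ.zr Z.r4 i * V20, 0, 0⟩),
    ([0, 0, 0, -90 * Z.zN * P40], CZ.ls Z.G.N fun i => ⟨CZ.zr Z.i4 i * Z.zv i, 0, 0, CZ.zr Z.i4 i * V20, 0, 0⟩)] :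
      List (List ℤ × List (P6 ℤ))).map fun q => iz (w2 u v) q.1 * ∑ i ∈ Finset.range Z.G.N,
      (q.2.getD i PLK.P6.zero).ev (z i) (z (i + 1))).sum = _
  simp only [List.map_cons, List.map_nil, List.sum_cons, List.sum_nil, k0, k1, k2, iz4]
  have e : ∑ i ∈ Finset.range Z.G.N, (z i ^ 2 + (Z.zv i : ℝ) / 1048576) * wtz Z u v i
      = (‖u‖ ^ 2 + ‖v‖ ^ 2) / 1048576 * ∑ i ∈ Finset.range Z.G.N, ((Z.zv i : ℝ) + 1048576 * z i ^ 2)
        - 2 * (u * conj v).re / 1048576 ^ 2 * ∑ i ∈ Finset.range Z.G.N, (CZ.zr Z.r4 i : ℝ) * (Z.zv i + 1048576 * z i ^ 2)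
        + 2 * (u * conj v).im / 1048576 ^ 2 * ∑ i ∈ Finset.range Z.G.N, (CZ.zr Z.i4 i : ℝ) * (Z.zv i + 1048576 * z i ^ 2) := by
    rw [Finset.mul_sum, Finset.mul_sum, Finset.mul_sum, ← Finset.sum_sub_distrib, ← Finset.sum_add_distrib]
    refine Finset.sum_congr rfl fun i _ => ?_
    unfold wtz
    ring
  rw [e]
  unfold CZ.zN V20 P40
  push_cast
  ring

/-- the part of the products of linear forms -/
theorem valC (hN : 0 < Z.G.N) (u v : ℂ) : qv id ((Z.cx E).C.map fun r => r.map (iz (w2 u v)))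
      ((Z.cx E).L.map fun f => ∑ i ∈ Finset.range Z.G.N, ev3 (f.getD i PLK.A3.zero) (z i) (z (i + 1)))
    = 567 * 1099511627776 * (sz Z.G.N Z.r3 z ^ 2 + sz Z.G.N Z.i3 z ^ 2) * ‖u‖ ^ 2
      - 672 * Z.G.N * 1099511627776 * 1048576 * (sz Z.G.N Z.r3 z * (u * conj v).re - sz Z.G.N Z.i3 z * (u * conj v).im) := by
  have k0 : ∑ i ∈ Finset.range Z.G.N, ev3 ((CZ.ls Z.G.N fun i => (⟨if i = 0 then V20 else 0, 0, 0⟩ : A3)).getD i PLK.A3.zero)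
      (z i) (z (i + 1)) = 1048576 := by
    rw [← sum_ite hN 1048576]
    refine Finset.sum_congr rfl fun i hi => ?_
    rw [getD_ls _ _ _ (Finset.mem_range.1 hi)]
    unfold ev3 V20
    simp only
    split_ifs <;> push_cast <;> ring
  have k1 : ∀ l : List ℤ, ∑ i ∈ Finset.range Z.G.N, ev3 ((CZ.ls Z.G.N fun i => (⟨0, CZ.zr l i, 0⟩ : A3)).getD i PLK.A3.zero)
      (z i) (z (i + 1)) = sz Z.G.N l z := by
    intro l
    refine Finset.sum_congr rfl fun i hi => ?_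
    rw [getD_ls _ _ _ (Finset.mem_range.1 hi)]
    unfold ev3
    simp only
    push_cast
    ring
  show qv id (([[[0, 0, 0, 0], [0, 0, -336 * Z.zN * P40, 0], [0, 0, 0, 336 * Z.zN * P40]],
    [[567 * P40, 0, 0, 0], [0, 0, 0, 0]], [[567 * P40, 0, 0, 0]]] : List (List (List ℤ))).map fun r => r.map (iz (w2 u v)))
    ([CZ.ls Z.G.N fun i => (⟨if i = 0 then V20 else 0, 0, 0⟩ : A3), CZ.ls Z.G.N fun i => ⟨0, CZ.zr Z.r3 i, 0⟩,
    CZ.ls Z.G.N fun i => ⟨0, CZ.zr Z.i3 i, 0⟩].map fun f => ∑ i ∈ Finset.range Z.G.N, ev3 (f.getD i PLK.A3.zero) (z i) (z (i + 1))) = _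
  simp only [List.map_cons, List.map_nil, k0, k1, qv_cons, qv_nil, lv_cons, lv_nil, iz4, id]
  unfold CZ.zN P40
  push_cast
  ring

theorem par_q {θ : List ℝ} (h : (Z.cx E).Par z θ) {i : ℕ} (hi : i < Z.G.N) :
    ((Z.zl i : ℝ) + Z.zh i) * θ.getD i 0 = 1048576 * (z (i + 1) - z i + (Z.cd.lb i : ℝ)) := by
  have h1 := h.eq i hi
  have e1 : (Z.cx E).Ls.getD i 0 = Z.zl i := getD_ls _ _ _ hi
  have e2 : (Z.cx E).Hs.getD i 0 = Z.zh i := getD_ls _ _ _ hi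
  rw [e1, e2] at h1
  have e : (Z.cd.lb i : ℝ) = (Z.zl i : ℝ) / 1048576 := by
    exact nq_cast _ _
  have e3 : (((Z.cx E).κ : ℤ) : ℝ) = 1048576 := by
    show ((V20 : ℤ) : ℝ) = _
    unfold V20
    norm_num
  rw [h1, e, e3]
  ring

theorem par_p {θ : List ℝ} (h : (Z.cx E).Par z θ) {i : ℕ} (hi : i < Z.G.N) :
    ((Z.zl i : ℝ) + Z.zh i) * (1 - θ.getD i 0) = 1048576 * ((Z.cd.hb i : ℝ) - (z (i + 1) - z i)) := by
  have h1 := par_q h hi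
  have e : (Z.cd.lb i : ℝ) = (Z.zl i : ℝ) / 1048576 := by
    exact nq_cast _ _
  have e' : (Z.cd.hb i : ℝ) = (Z.zh i : ℝ) / 1048576 := by
    exact nq_cast _ _
  rw [e] at h1
  rw [e', mul_sub, h1]
  ring

/-- the table of one cell -/
theorem tc_eq (hOk : Z.cd.Ok) {θ : List ℝ} (h : (Z.cx E).Par z θ) (u v : ℂ) {i : ℕ} (hi : i < Z.G.N) :
    qv (iz (w2 u v)) (Z.tc i) (1 :: θ) = (2 * 1048576) ^ 2 * (-90 * Z.G.N * 1048576 ^ 2 * 1099511627776)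
      * ((Z.cd.VB z i - (Z.zv i : ℝ) / 1048576) * wtz Z u v i) := by
  have hz : iz (w2 u v) [0, 0, 0, 0] = 0 := iz_zero _
  have hvc : (Z.cd.vc i : ℝ) = (Z.zv i : ℝ) / 1048576 := by
    exact nq_cast _ _
  have hok := hOk.var i hi
  have hNN : Z.cd.N = Z.G.N := rfl
  have hN0 : 0 < Z.G.N := CD.Ok.N0 hOk
  unfold CD.okV at hok
  unfold CD.VB
  unfold CZ.tc
  have hty : Z.cd.ty i = Z.ty.getD i 0 := rfl
  rw [hty] at hok ⊢
  rw [← hvc]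
  have hneg : ∀ c : ℤ, iz (w2 u v) (Z.wv (-c) i) = -iz (w2 u v) (Z.wv c i) := fun c => by
    rw [iz_wv, iz_wv]
    push_cast
    ring
  rcases hT : Z.ty.getD i 0 with _ | _ | _ | t
  · simp only [hT] at hok ⊢
    simp
  · simp only [hT, zero_add] at hok ⊢
    obtain ⟨j, hj, -⟩ := hok
    subst hj
    simp only [Nat.add_sub_cancel]
    rw [qv_tE hz, iz_wv]
    have a1 := par_q h (i := j) (by omega)
    have a2 := par_q h hi
    push_cast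
    linear_combination (4 * (-90 * (Z.G.N : ℝ) * 1048576 ^ 2 * 1099511627776) * wtz Z u v (j + 1)
      * (((Z.zl (j + 1) : ℝ) + Z.zh (j + 1)) * θ.getD (j + 1) 0)) * a1
      + (4 * (-90 * (Z.G.N : ℝ) * 1048576 ^ 2 * 1099511627776) * wtz Z u v (j + 1)
        * (1048576 * (z (j + 1) - z j + (Z.cd.lb j : ℝ)))) * a2
  · simp only [hT, zero_add] at hok ⊢
    obtain ⟨j, hj, -⟩ := hok
    subst hj
    simp only [Nat.add_sub_cancel]
    rw [qv_tP hz _ _ (hneg _), iz_wv]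
    have a1 := par_p h (i := j) (by omega)
    have a2 := par_p h hi
    push_cast
    linear_combination (4 * (-90 * (Z.G.N : ℝ) * 1048576 ^ 2 * 1099511627776) * wtz Z u v (j + 1)
      * (((Z.zl (j + 1) : ℝ) + Z.zh (j + 1)) * (1 - θ.getD (j + 1) 0))) * a1
      + (4 * (-90 * (Z.G.N : ℝ) * 1048576 ^ 2 * 1099511627776) * wtz Z u v (j + 1)
        * (1048576 * ((Z.cd.hb j : ℝ) - (z (j + 1) - z j)))) * a2
  · simp only [hT] at hok ⊢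
    obtain ⟨hi0, j, hj, -⟩ := hok
    subst hi0
    have hj' : Z.G.N - 1 = j := by
      have : Z.G.N = j + 1 := hj
      omega
    have hθ : θ ≠ [] := by
      intro hh
      have := h.len
      rw [hh] at this
      have h2 : Z.G.N = 0 := this.symm
      omega
    rw [qv_tW hz _ _ (hneg _) _ hθ, iz_wv, hNN, hj']
    have a1 := par_q h (i := j) (by have : Z.G.N = j + 1 := hj; omega)
    have a2 := par_p h hN0
    have hjN : z (j + 1) = z Z.G.N := by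
      have : Z.G.N = j + 1 := hj
      rw [this]
    rw [hjN] at a1
    push_cast
    rw [zero_add] at a2
    linear_combination (4 * (-90 * (Z.G.N : ℝ) * 1048576 ^ 2 * 1099511627776) * wtz Z u v 0
      * (((Z.zl 0 : ℝ) + Z.zh 0) * (1 - θ.getD 0 0))) * a1
      + (4 * (-90 * (Z.G.N : ℝ) * 1048576 ^ 2 * 1099511627776) * wtz Z u v 0
        * (1048576 * (z Z.G.N - z j + (Z.cd.lb j : ℝ)))) * a2

/-- the constants -/
def ED.cok (E : ED) (Z : CZ) (ω₁ ω₂ : ℚ) : Bool :=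
  decide ((E.cu : ℚ) ≤ 160 * (Z.G.N : ℚ) ^ 2 * 1048576 ^ 2 * 1099511627776
    * (ω₁ - 189 / 16 * ((Z.e3 : ℚ) / 4294967296) ^ 2 - 9 / 64 * ((Z.e4 : ℚ) / 4294967296))) &&
  decide ((E.cv : ℚ) ≤ 160 * (Z.G.N : ℚ) ^ 2 * 1048576 ^ 2 * 1099511627776
    * (2 - ω₂ - 8 / 15 - 9 / 4 * ((Z.e4 : ℚ) / 4294967296)))

/-- **the finite dimensional statement from the certificate of the engine** -/
theorem cert_of (hOk : Z.cd.Ok) (hE : (Z.cx E).chk2 = true) {ω₁ ω₂ : ℚ} (hc : E.cok Z ω₁ ω₂ = true) :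
    Z.cd.Cert 1 (3 / 2) (3 / 10) 4 ω₁ ω₂ := by
  intro z hz u v
  have hN : 0 < Z.G.N := CD.Ok.N0 hOk
  have hN' : (0 : ℝ) < Z.G.N := by exact_mod_cast hN
  obtain ⟨θ, hp, hv⟩ := certX2 hE u v (box (E := E) hN hz)
  unfold CX.val at hv
  have hκ : (((Z.cx E).κ : ℤ) : ℝ) = 1048576 := by
    show ((V20 : ℤ) : ℝ) = _
    unfold V20
    norm_num
  have hcN : (Z.cx E).N = Z.G.N := rfl
  have hT : qv id ((Z.cx E).T.map fun r => r.map (iz (w2 u v))) (1 :: θ)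
      = (2 * 1048576) ^ 2 * (-90 * Z.G.N * 1048576 ^ 2 * 1099511627776)
        * ∑ i ∈ Finset.range Z.G.N, (Z.cd.VB z i - (Z.zv i : ℝ) / 1048576) * wtz Z u v i := by
    rw [qv_map]
    show qv _ (sumT OZ Z.tc Z.G.N) _ = _
    rw [qv_sumT, Finset.mul_sum]
    exact Finset.sum_congr rfl fun i hi => tc_eq hOk hp u v (Finset.mem_range.1 hi)
  rw [hcN, hκ, valF hN, valC hN, hT] at hv
  unfold CD.form
  have q3 : Z.cd.lf Z.cd.r3 z = _ := lf_eq Z.r3 Z.cd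
  have q4 : Z.cd.lf Z.cd.i3 z = _ := lf_eq Z.i3 Z.cd
  rw [q3, q4]
  have hNN : Z.cd.N = Z.G.N := rfl
  rw [hNN]
  simp only [wt_eq]
  have e3 : (Z.cd.e3 : ℝ) = (Z.e3 : ℝ) / 4294967296 := by
    show (((Z.e3 : ℚ) / 4294967296 : ℚ) : ℝ) = _
    push_cast
    rfl
  have e4 : (Z.cd.e4 : ℝ) = (Z.e4 : ℝ) / 4294967296 := by
    show (((Z.e4 : ℚ) / 4294967296 : ℚ) : ℝ) = _
    push_cast
    rfl
  rw [e3, e4]
  simp only [ED.cok, Bool.and_eq_true, decide_eq_true_eq] at hc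
  obtain ⟨c1, c2⟩ := hc
  have c1' : ((E.cu : ℚ) : ℝ) ≤ ((160 * (Z.G.N : ℚ) ^ 2 * 1048576 ^ 2 * 1099511627776
    * (ω₁ - 189 / 16 * ((Z.e3 : ℚ) / 4294967296) ^ 2 - 9 / 64 * ((Z.e4 : ℚ) / 4294967296)) : ℚ) : ℝ) := by exact_mod_cast c1
  have c2' : ((E.cv : ℚ) : ℝ) ≤ ((160 * (Z.G.N : ℚ) ^ 2 * 1048576 ^ 2 * 1099511627776
    * (2 - ω₂ - 8 / 15 - 9 / 4 * ((Z.e4 : ℚ) / 4294967296)) : ℚ) : ℝ) := by exact_mod_cast c2
  push_cast at c1' c2'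
  have d1 := mul_le_mul_of_nonneg_right c1' (sq_nonneg ‖u‖)
  have d2 := mul_le_mul_of_nonneg_right c2' (sq_nonneg ‖v‖)
  obtain ⟨A, hA⟩ : ∃ A : ℝ, A = ∑ i ∈ Finset.range Z.G.N, (z i ^ 2 + (Z.zv i : ℝ) / 1048576) * wtz Z u v i := ⟨_, rfl⟩
  obtain ⟨B, hB⟩ : ∃ B : ℝ, B = ∑ i ∈ Finset.range Z.G.N, (Z.cd.VB z i - (Z.zv i : ℝ) / 1048576) * wtz Z u v i := ⟨_, rfl⟩
  have hAB : ∑ i ∈ Finset.range Z.G.N, (z i ^ 2 + Z.cd.VB z i) * wtz Z u v i = A + B := by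
    rw [hA, hB, ← Finset.sum_add_distrib]
    exact Finset.sum_congr rfl fun i _ => by ring
  rw [← hA, ← hB] at hv
  rw [hAB]
  obtain ⟨n, hn⟩ : ∃ n : ℝ, n = (Z.G.N : ℝ) := ⟨_, rfl⟩
  rw [← hn] at hv d1 d2 hN' ⊢
  obtain ⟨R, hR⟩ : ∃ R : ℝ, R = sz Z.G.N Z.r3 z := ⟨_, rfl⟩
  obtain ⟨J, hJ⟩ : ∃ J : ℝ, J = sz Z.G.N Z.i3 z := ⟨_, rfl⟩
  rw [← hR, ← hJ] at hv ⊢
  have hpos : (0 : ℝ) < (2 * 1048576) ^ 2 * (160 * n ^ 2 * 1048576 ^ 2 * 1099511627776) := by positivity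
  refine nonneg_of_mul_nonneg_right ?_ hpos
  have hn0 : n ≠ 0 := hN'.ne'
  obtain ⟨r, hr⟩ : ∃ r : ℝ, r = R / (n * 1048576) := ⟨_, rfl⟩
  obtain ⟨j, hj⟩ : ∃ j : ℝ, j = J / (n * 1048576) := ⟨_, rfl⟩
  obtain ⟨q, hq⟩ : ∃ q : ℝ, q = 1 / n * (A + B) := ⟨_, rfl⟩
  have hR' : R = r * (n * 1048576) := by
    rw [hr]
    field_simp
  have hJ' : J = j * (n * 1048576) := by
    rw [hj]
    field_simp
  have hA' : A = n * q - B := by
    rw [hq]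
    field_simp
    ring
  rw [← hr, ← hj, ← hq]
  rw [hR', hJ', hA'] at hv
  nlinarith [hv, d1, d2]

/-- **the class from the certificate of the engine** -/
theorem certQ {Z : CZ} {E : ED} (hOk : Z.cd.Ok) (hE : (Z.cx E).chk2 = true) {s ω₁ ω₂ : ℚ} (hs : Z.cd.s = s)
    (hc : E.cok Z ω₁ ω₂ = true) : SQX.CertW (s : ℝ) (ω₁ : ℝ) (ω₂ : ℝ) := by
  have h := hOk.certW (b1 := 1) (be := 3 / 2) (th := 3 / 10) (tt := 4) (by norm_num) (by norm_num) (by norm_num)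
    (by norm_num) (by norm_num) (cert_of hOk hE hc)
  rwa [hs] at h

end link

end Pool.Agent.FPX.CAV
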