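import Mathlib
/-!
CEA. One-parameter families of symmetric matrices with polynomial entries that are positive semidefinite on an
interval, checked by the kernel.

A symmetric matrix is given by the rows of its upper triangle: row `i` is the list of the entries `(i, i), (i, i+1), ..`.
The entries of the family are polynomials with integer coefficients (list of coefficients, constant term first), all
lists of the same length. On an interval `[a1/q, a2/q]` the substitution `t = (a1 v + a2 u) / (q (u + v))` turns every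
entry into a homogeneous polynomial in `(u, v)`; all coefficient matrices are tested by an approximate elimination with
a diagonally dominant residue.

Main theorem: `psd_fam`.
-/
set_option autoImplicit false

namespace Pool.Agent.FPX.CEA

/-! ### forms -/

/-- scalar product of a list of entries with a list of real numbers -/
def dot {α : Type} (φ : α → ℝ) : List α → List ℝ → ℝ
  | a :: r, x :: v => φ a * x + dot φ r v
  | _, _ => 0

/-- quadratic form of an upper triangle -/
def qf {α : Type} (φ : α → ℝ) : List (List α) → List ℝ → ℝ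
  | (d :: r) :: B, x :: v => φ d * x ^ 2 + 2 * x * dot φ r v + qf φ B v
  | [] :: B, _ :: v => qf φ B v
  | _, _ => 0

/-- rows of an upper triangle of size `n` -/
def Tri {α : Type} : ℕ → List (List α) → Prop
  | 0, B => B = []
  | n + 1, B => ∃ d r B', B = (d :: r) :: B' ∧ r.length = n ∧ Tri n B'

/-- the same as a test -/
def triB {α : Type} : ℕ → List (List α) → Bool
  | 0, B => B.isEmpty
  | n + 1, (_ :: r) :: B' => Nat.beq r.length n && triB n B'
  | _ + 1, _ => false

theorem tri_of {α : Type} : ∀ (n : ℕ) (B : List (List α)), triB n B = true → Tri n B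
  | 0, B, h => by
    simp only [triB, List.isEmpty_iff] at h
    exact h
  | n + 1, [], h => by simp [triB] at h
  | n + 1, [] :: B, h => by simp [triB] at h
  | n + 1, (d :: r) :: B, h => by
    simp only [triB, Bool.and_eq_true] at h
    exact ⟨d, r, B, rfl, Nat.eq_of_beq_eq_true h.1, tri_of n B h.2⟩

/-! ### the test of one matrix -/

/-- sum of the absolute values -/
def asum : List ℤ → ℤ
  | [] => 0
  | a :: r => (a.natAbs : ℤ) + asum r

/-- `e + |r|` -/
def adda : List ℤ → List ℤ → List ℤ
  | x :: e, a :: r => (x + (a.natAbs : ℤ)) :: adda e r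
  | _, _ => []

/-- `r - c u` -/
def subv (c : ℤ) : List ℤ → List ℤ → List ℤ
  | a :: r, u :: us => (a - c * u) :: subv c r us
  | _, _ => []

/-- `B - D u uᵀ` -/
def sub1 (D : ℤ) : List (List ℤ) → List ℤ → List (List ℤ)
  | row :: B, u :: us => subv (D * u) row (u :: us) :: sub1 D B us
  | _, _ => []

/-- the elimination step: pivot `D`, column `us` (without its first entry `p`) -/
def stp (p D : ℤ) (next : List ℤ → List (List ℤ) → Bool) (e0 : ℤ) (e : List ℤ) (d : ℤ) (r : List ℤ)
    (B : List (List ℤ)) (us : List ℤ) : Bool :=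
  (fun ρ => decide (asum ρ + e0 ≤ d - D * p * p) && next (adda e ρ) (sub1 D B us)) (subv (D * p) r us)

/-- approximate elimination; `p` is the scale of the columns, `g` the reserve -/
def pst (p g : ℤ) : ℕ → List ℤ → List (List ℤ) → Bool
  | 0, _, _ => true
  | n + 1, e0 :: e, (d :: r) :: B =>
    (fun D => decide (0 ≤ D) && stp p D (pst p g n) e0 e d r B (r.map fun a => a / (D * p)))
      ((d - e0 - d / g) / (p * p))
  | _ + 1, _, _ => false

/-- `∑ e_i v_i²` -/
def sq : List ℤ → List ℝ → ℝ
  | x :: e, y :: v => (x : ℝ) * y ^ 2 + sq e v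
  | _, _ => 0

/-- the entries as real numbers -/
abbrev cz (a : ℤ) : ℝ := (a : ℝ)

theorem subv_len (c : ℤ) : ∀ (r us : List ℤ), r.length = us.length → (subv c r us).length = us.length
  | [], [], _ => rfl
  | [], _ :: _, h => by simp at h
  | _ :: _, [], h => by simp at h
  | a :: r, u :: us, h => by
    simp only [subv, List.length_cons] at h ⊢
    rw [subv_len c r us (by omega)]

theorem dot_subv (c : ℤ) : ∀ (r us : List ℤ) (v : List ℝ), r.length = us.length →
    dot cz (subv c r us) v = dot cz r v - c * dot cz us v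
  | [], [], v, _ => by cases v <;> simp [subv, dot]
  | [], _ :: _, _, h => by simp at h
  | _ :: _, [], _, h => by simp at h
  | a :: r, u :: us, [], _ => by simp [subv, dot]
  | a :: r, u :: us, x :: v, h => by
    have h1 := dot_subv c r us v (by simpa using h)
    simp only [subv, dot, h1, cz, Int.cast_sub, Int.cast_mul]
    ring

theorem tri_sub1 (D : ℤ) : ∀ (n : ℕ) (B : List (List ℤ)) (us : List ℤ), Tri n B → us.length = n →
    Tri n (sub1 D B us)
  | 0, B, us, h, hu => by
    subst h
    cases us <;> rfl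
  | n + 1, B, us, h, hu => by
    obtain ⟨d, r, B', rfl, hr, hB⟩ := h
    match us, hu with
    | u :: us, hu =>
      have hu' : us.length = n := by simpa using hu
      exact ⟨d - D * u * u, subv (D * u) r us, sub1 D B' us, rfl, by rw [subv_len _ _ _ (by omega)]; exact hu',
        tri_sub1 D n B' us hB hu'⟩

theorem qf_sub1 (D : ℤ) : ∀ (n : ℕ) (B : List (List ℤ)) (us : List ℤ) (v : List ℝ), Tri n B → us.length = n →
    v.length = n → qf cz (sub1 D B us) v = qf cz B v - D * dot cz us v ^ 2
  | 0, B, us, v, h, hu, hv => by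
    subst h
    have h1 : us = [] := List.length_eq_zero_iff.mp hu
    have h2 : v = [] := List.length_eq_zero_iff.mp hv
    subst h1 h2
    simp [sub1, qf, dot]
  | n + 1, B, us, v, h, hu, hv => by
    obtain ⟨d, r, B', rfl, hr, hB⟩ := h
    match us, hu, v, hv with
    | u :: us, hu, x :: v, hv =>
      have hu' : us.length = n := by simpa using hu
      have hv' : v.length = n := by simpa using hv
      have ih := qf_sub1 D n B' us v hB hu' hv'
      have hd := dot_subv (D * u) r us v (by omega)
      simp only [sub1, subv, qf, dot, ih, hd, cz, Int.cast_sub, Int.cast_mul]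
      ring

theorem sq_adda : ∀ (n : ℕ) (e ρ : List ℤ) (v : List ℝ), e.length = n → ρ.length = n → v.length = n →
    sq (adda e ρ) v = sq e v + sq (ρ.map fun a => (a.natAbs : ℤ)) v
  | 0, e, ρ, v, he, hρ, hv => by
    have h1 : e = [] := List.length_eq_zero_iff.mp he
    have h2 : ρ = [] := List.length_eq_zero_iff.mp hρ
    subst h1 h2
    simp [adda, sq]
  | n + 1, e, ρ, v, he, hρ, hv => by
    match e, he, ρ, hρ, v, hv with
    | x :: e, he, a :: ρ, hρ, y :: v, hv =>
      have ih := sq_adda n e ρ v (by simpa using he) (by simpa using hρ) (by simpa using hv)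
      simp only [adda, sq, List.map_cons, ih, Int.cast_add]
      ring

theorem adda_len : ∀ (n : ℕ) (e ρ : List ℤ), e.length = n → ρ.length = n → (adda e ρ).length = n
  | 0, e, ρ, he, hρ => by
    have h1 : e = [] := List.length_eq_zero_iff.mp he
    subst h1
    simp [adda]
  | n + 1, e, ρ, he, hρ => by
    match e, he, ρ, hρ with
    | x :: e, he, a :: ρ, hρ =>
      simp only [adda, List.length_cons]
      rw [adda_len n e ρ (by simpa using he) (by simpa using hρ)]

theorem dot_bd (x : ℝ) : ∀ (ρ : List ℤ) (v : List ℝ),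
    -((asum ρ : ℤ) : ℝ) * x ^ 2 - sq (ρ.map fun a => (a.natAbs : ℤ)) v ≤ 2 * x * dot cz ρ v
  | [], v => by simp [asum, sq, dot]
  | a :: ρ, [] => by
    have h : (0 : ℝ) ≤ ((asum (a :: ρ) : ℤ) : ℝ) := by
      have : ∀ l : List ℤ, 0 ≤ asum l := by
        intro l
        induction l with
        | nil => simp [asum]
        | cons b l ih => simp only [asum]; positivity
      exact_mod_cast this _
    simp only [sq, dot, List.map_cons]
    nlinarith [sq_nonneg x]
  | a :: ρ, y :: v => by
    have ih := dot_bd x ρ v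
    simp only [asum, sq, dot, List.map_cons, Int.cast_add, cz]
    have hn : (((a.natAbs : ℤ) : ℝ)) = |(a : ℝ)| := by
      rw [Int.natCast_natAbs]
      push_cast
      rfl
    rw [hn]
    have h1 : -(|(a : ℝ)| * (x ^ 2 + y ^ 2)) ≤ 2 * x * (a * y) := by
      rcases abs_cases (a : ℝ) with ⟨h, h0⟩ | ⟨h, h0⟩ <;> rw [h] <;> nlinarith [sq_nonneg (x + y), sq_nonneg (x - y)]
    nlinarith

theorem pst_sound (p g : ℤ) : ∀ (n : ℕ) (e : List ℤ) (B : List (List ℤ)) (v : List ℝ), pst p g n e B = true →
    Tri n B → e.length = n → v.length = n → sq e v ≤ qf cz B v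
  | 0, e, B, v, _, hB, he, hv => by
    subst hB
    have h1 : e = [] := List.length_eq_zero_iff.mp he
    have h2 : v = [] := List.length_eq_zero_iff.mp hv
    subst h1 h2
    simp [qf, sq]
  | n + 1, e, B, v, h, hB, he, hv => by
    obtain ⟨d, r, B', rfl, hr, hB'⟩ := hB
    match e, he, v, hv with
    | e0 :: e, he, x :: v, hv =>
      have he' : e.length = n := by simpa using he
      have hv' : v.length = n := by simpa using hv
      simp only [pst, stp, Bool.and_eq_true, decide_eq_true_eq] at h
      obtain ⟨h0, h1, h2⟩ := h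
      generalize hD : (d - e0 - d / g) / (p * p) = D at h0 h1 h2
      generalize hus : (r.map fun a => a / (D * p)) = us at h1 h2
      have hul : us.length = n := by rw [← hus]; simpa using hr
      generalize hρ : subv (D * p) r us = ρ at h1 h2
      have hρl : ρ.length = n := by rw [← hρ, subv_len _ _ _ (by omega)]; exact hul
      have ih := pst_sound p g n (adda e ρ) (sub1 D B' us) v h2 (tri_sub1 D n B' us hB' hul)
        (adda_len n e ρ he' hρl) hv'
      rw [sq_adda n e ρ v he' hρl hv', qf_sub1 D n B' us v hB' hul hv'] at ih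
      have hd : dot cz ρ v = dot cz r v - ((D * p : ℤ) : ℝ) * dot cz us v := by
        rw [← hρ]
        exact dot_subv (D * p) r us v (by omega)
      have hb := dot_bd x ρ v
      have h0' : (0 : ℝ) ≤ D := by exact_mod_cast h0
      have h1' : ((asum ρ : ℤ) : ℝ) + e0 ≤ d - D * p * p := by exact_mod_cast h1
      simp only [qf, sq, cz]
      push_cast at hd
      have h3 := mul_nonneg h0' (sq_nonneg (p * x + dot cz us v))
      have h4 := mul_le_mul_of_nonneg_right h1' (sq_nonneg x)
      have h5 : dot cz r v = dot cz ρ v + (D : ℝ) * p * dot cz us v := by linarith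
      have h6 : dot (fun a : ℤ => (a : ℝ)) r v = dot cz r v := rfl
      rw [h6, h5]
      nlinarith

/-! ### polynomials -/

/-- value of a polynomial -/
def ev (t : ℝ) : List ℤ → ℝ
  | [] => 0
  | a :: p => a + t * ev t p

/-- value of a homogeneous polynomial of degree `length - 1` -/
def evh (u v : ℝ) : List ℤ → ℝ
  | [] => 0
  | a :: L => a * v ^ L.length + u * evh u v L

/-- `(A1 v + A2 u) L` -/
def linc (A1 A2 : ℤ) : ℤ → List ℤ → List ℤ
  | c, [] => [A2 * c]
  | c, a :: L => (A1 * a + A2 * c) :: linc A1 A2 a L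

/-- `a R + L` -/
def addm (a : ℤ) : List ℤ → List ℤ → List ℤ
  | r :: R, l :: L => (a * r + l) :: addm a R L
  | _, _ => []

/-- homogeneous form of a polynomial; `rs` are the powers of `q (u + v)`, highest first -/
def hom (A1 A2 : ℤ) : List (List ℤ) → List ℤ → List ℤ
  | R :: rs, a :: p => addm a R (linc A1 A2 0 (hom A1 A2 rs p))
  | _, _ => []

/-- the powers of `q (u + v)` from degree `n - 1` down to `0` -/
def pws (q : ℤ) : ℕ → List (List ℤ)
  | 0 => []
  | 1 => [[1]]
  | n + 2 => (fun l => match l with
    | R :: rs => linc q q 0 R :: R :: rs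
    | [] => []) (pws q (n + 1))

theorem linc_len (A1 A2 : ℤ) : ∀ (L : List ℤ) (c : ℤ), (linc A1 A2 c L).length = L.length + 1
  | [], c => rfl
  | a :: L, c => by simp [linc, linc_len A1 A2 L a]

theorem evh_linc (A1 A2 : ℤ) (u v : ℝ) : ∀ (L : List ℤ) (c : ℤ),
    evh u v (linc A1 A2 c L) = A2 * c * v ^ L.length + (A1 * v + A2 * u) * evh u v L
  | [], c => by simp [linc, evh]
  | a :: L, c => by
    simp only [linc, evh, evh_linc A1 A2 u v L a, linc_len, List.length_cons, Int.cast_add, Int.cast_mul]
    ring

theorem addm_len (a : ℤ) : ∀ (n : ℕ) (R L : List ℤ), R.length = n → L.length = n → (addm a R L).length = n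
  | 0, R, L, hR, hL => by
    have h1 : R = [] := List.length_eq_zero_iff.mp hR
    subst h1
    simp [addm]
  | n + 1, R, L, hR, hL => by
    match R, hR, L, hL with
    | r :: R, hR, l :: L, hL =>
      simp only [addm, List.length_cons]
      rw [addm_len a n R L (by simpa using hR) (by simpa using hL)]

theorem evh_addm (a : ℤ) (u v : ℝ) : ∀ (n : ℕ) (R L : List ℤ), R.length = n → L.length = n →
    evh u v (addm a R L) = a * evh u v R + evh u v L
  | 0, R, L, hR, hL => by
    have h1 : R = [] := List.length_eq_zero_iff.mp hR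
    have h2 : L = [] := List.length_eq_zero_iff.mp hL
    subst h1 h2
    simp [addm, evh]
  | n + 1, R, L, hR, hL => by
    match R, hR, L, hL with
    | r :: R, hR, l :: L, hL =>
      have h1 : R.length = n := by simpa using hR
      have h2 : L.length = n := by simpa using hL
      simp only [addm, evh, evh_addm a u v n R L h1 h2, addm_len a n R L h1 h2, h1, h2, Int.cast_add, Int.cast_mul]
      ring

/-- the list of the powers is correct -/
def PW (q : ℤ) (u v : ℝ) : ℕ → List (List ℤ) → Prop
  | 0, rs => rs = []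
  | n + 1, rs => ∃ R rs', rs = R :: rs' ∧ R.length = n + 1 ∧ evh u v R = (q * (u + v)) ^ n ∧ PW q u v n rs'

theorem pws_ok (q : ℤ) (u v : ℝ) : ∀ n : ℕ, PW q u v n (pws q n)
  | 0 => rfl
  | 1 => ⟨[1], [], rfl, rfl, by simp [evh], rfl⟩
  | n + 2 => by
    have ih := pws_ok q u v (n + 1)
    obtain ⟨R, rs, h, hl, he, hp⟩ := ih
    refine ⟨linc q q 0 R, R :: rs, ?_, by rw [linc_len, hl], ?_, ⟨R, rs, rfl, hl, he, hp⟩⟩
    · simp only [pws, h]
    · rw [evh_linc, he]
      push_cast
      ring

theorem hom_spec (A1 A2 q : ℤ) (u v t : ℝ) (huv : u + v = 1) (ht : (q : ℝ) * t = A1 * v + A2 * u) :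
    ∀ (n : ℕ) (rs : List (List ℤ)) (p : List ℤ), PW q u v n rs → p.length = n →
      (hom A1 A2 rs p).length = n ∧ (0 < n → evh u v (hom A1 A2 rs p) = (q : ℝ) ^ (n - 1) * ev t p)
  | 0, rs, p, hr, hp => by
    have h1 : p = [] := List.length_eq_zero_iff.mp hp
    have h2 : rs = [] := hr
    subst h1 h2
    simp [hom]
  | n + 1, rs, p, hr, hp => by
    obtain ⟨R, rs', rfl, hRl, hRe, hrs⟩ := hr
    match p, hp with
    | a :: p, hp =>
      have hp' : p.length = n := by simpa using hp
      obtain ⟨h1, h2⟩ := hom_spec A1 A2 q u v t huv ht n rs' p hrs hp'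
      have h3 : (linc A1 A2 0 (hom A1 A2 rs' p)).length = n + 1 := by rw [linc_len, h1]
      refine ⟨by simp only [hom]; exact addm_len a (n + 1) _ _ hRl h3, fun _ => ?_⟩
      simp only [hom]
      rw [evh_addm a u v (n + 1) _ _ hRl h3, hRe, evh_linc, huv]
      simp only [ev, Nat.add_sub_cancel]
      rcases Nat.eq_zero_or_pos n with h0 | h0
      · subst h0
        have h4 : p = [] := List.length_eq_zero_iff.mp hp'
        subst h4
        have h5 : rs' = [] := hrs
        subst h5
        simp [hom, evh, ev]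
      · rw [h2 h0, ← ht]
        obtain ⟨k, rfl⟩ : ∃ k, n = k + 1 := ⟨n - 1, by omega⟩
        simp only [Nat.add_sub_cancel]
        push_cast
        ring

/-! ### families -/

/-- heads of the entries -/
def hds (S : ℤ) (M : List (List (List ℤ))) : List (List ℤ) := M.map fun r => r.map fun L => S * L.headD 0
/-- tails of the entries -/
def tls (M : List (List (List ℤ))) : List (List (List ℤ)) := M.map fun r => r.map fun L => L.tail

/-- test of all coefficient matrices; all entries have length `k` -/
def chl (S p g : ℤ) (n : ℕ) (z : List ℤ) : ℕ → List (List (List ℤ)) → Bool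
  | 0, _ => true
  | k + 1, M => pst p g n z (hds S M) && chl S p g n z k (tls M)

/-- all entries have length `k` -/
def lenB (k : ℕ) (M : List (List (List ℤ))) : Bool := M.all fun r => r.all fun L => Nat.beq L.length k

/-- test on the interval `[A1/q, A2/q]` -/
def chi (S p g : ℤ) (n : ℕ) (z : List ℤ) (k : ℕ) (rs : List (List ℤ)) (M : List (List (List ℤ)))
    (A1 A2 : ℤ) : Bool :=
  chl S p g n z k (M.map fun r => r.map fun L => hom A1 A2 rs L)

/-- test on the intervals between the points of a list -/
def chc (S p g : ℤ) (n : ℕ) (z : List ℤ) (k : ℕ) (rs : List (List ℤ)) (M : List (List (List ℤ))) :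
    ℤ → List ℤ → Bool
  | _, [] => true
  | a, b :: l => chi S p g n z k rs M a b && chc S p g n z k rs M b l

/-- the test of a family of size `n`, entries of length `k`, on the intervals between the points
`a / q`, `l_i / q` -/
def famB (S p g q : ℤ) (n k : ℕ) (M : List (List (List ℤ))) (a : ℤ) (l : List ℤ) : Bool :=
  decide (0 < S) && decide (0 < q) && decide (0 < k) && triB n M && lenB k M &&
    chc S p g n (List.replicate n 0) k (pws q k) M a l

theorem sq_zero (n : ℕ) : ∀ v : List ℝ, sq (List.replicate n 0) v = 0 := by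
  induction n with
  | zero => intro v; simp [sq]
  | succ n ih =>
    intro v
    cases v with
    | nil => simp [List.replicate_succ, sq]
    | cons y v => simp [List.replicate_succ, sq, ih v]

theorem dot_map {α β : Type} (φ : β → ℝ) (f : α → β) : ∀ (r : List α) (v : List ℝ),
    dot φ (r.map f) v = dot (fun a => φ (f a)) r v
  | [], v => by cases v <;> simp [dot]
  | a :: r, [] => by simp [dot]
  | a :: r, x :: v => by simp [dot, dot_map φ f r v]

theorem qf_map {α β : Type} (φ : β → ℝ) (f : α → β) : ∀ (n : ℕ) (B : List (List α)) (v : List ℝ), Tri n B →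
    qf φ (B.map fun r => r.map f) v = qf (fun a => φ (f a)) B v
  | 0, B, v, h => by subst h; cases v <;> simp [qf]
  | n + 1, B, v, h => by
    obtain ⟨d, r, B', rfl, hr, hB⟩ := h
    cases v with
    | nil => simp [qf]
    | cons x v =>
      simp only [List.map_cons, qf, dot_map, qf_map φ f n B' v hB]

theorem tri_map {α β : Type} (f : α → β) : ∀ (n : ℕ) (B : List (List α)), Tri n B →
    Tri n (B.map fun r => r.map f)
  | 0, B, h => by subst h; rfl
  | n + 1, B, h => by
    obtain ⟨d, r, B', rfl, hr, hB⟩ := h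
    exact ⟨f d, r.map f, B'.map fun r => r.map f, rfl, by simpa using hr, tri_map f n B' hB⟩

theorem dot_lin {α : Type} (φ ψ χ : α → ℝ) (a b : ℝ) : ∀ (r : List α) (v : List ℝ),
    (∀ x ∈ r, φ x = a * ψ x + b * χ x) → dot φ r v = a * dot ψ r v + b * dot χ r v
  | [], v, _ => by cases v <;> simp [dot]
  | c :: r, [], _ => by simp [dot]
  | c :: r, x :: v, h => by
    simp only [dot]
    rw [h c (by simp), dot_lin φ ψ χ a b r v fun y hy => h y (by simp [hy])]
    ring

theorem qf_lin {α : Type} (φ ψ χ : α → ℝ) (a b : ℝ) : ∀ (n : ℕ) (B : List (List α)) (v : List ℝ), Tri n B →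
    (∀ r ∈ B, ∀ x ∈ r, φ x = a * ψ x + b * χ x) → qf φ B v = a * qf ψ B v + b * qf χ B v
  | 0, B, v, h, _ => by subst h; cases v <;> simp [qf]
  | n + 1, B, v, h, hh => by
    obtain ⟨d, r, B', rfl, hr, hB⟩ := h
    cases v with
    | nil => simp [qf]
    | cons x v =>
      simp only [qf]
      rw [hh (d :: r) (by simp) d (by simp), dot_lin φ ψ χ a b r v fun y hy => hh (d :: r) (by simp) y (by simp [hy]),
        qf_lin φ ψ χ a b n B' v hB fun r' hr' => hh r' (by simp [hr'])]
      ring

theorem chl_sound (S p g : ℤ) (hS : 0 < S) (n : ℕ) (u w : ℝ) (hu : 0 ≤ u) (hw : 0 ≤ w) : ∀ (k : ℕ)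
    (M : List (List (List ℤ))) (v : List ℝ), chl S p g n (List.replicate n 0) k M = true → Tri n M →
    (∀ r ∈ M, ∀ L ∈ r, L.length = k) → v.length = n → 0 ≤ qf (evh u w) M v
  | 0, M, v, _, hM, hl, hv => by
    have h := qf_lin (evh u w) (fun _ => 0) (fun _ => 0) 0 0 n M v hM fun r hr L hL => by
      have h1 : L = [] := List.length_eq_zero_iff.mp (hl r hr L hL)
      subst h1
      simp [evh]
    rw [h]
    simp
  | k + 1, M, v, h, hM, hl, hv => by
    simp only [chl, Bool.and_eq_true] at h
    have h1 := pst_sound p g n (List.replicate n 0) (hds S M) v h.1 (tri_map _ n M hM) (by simp) hv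
    rw [sq_zero] at h1
    have h2 := chl_sound S p g hS n u w hu hw k (tls M) v h.2 (tri_map _ n M hM) (fun r hr L hL => by
      simp only [tls, List.mem_map] at hr
      obtain ⟨r', hr', rfl⟩ := hr
      simp only [List.mem_map] at hL
      obtain ⟨L', hL', rfl⟩ := hL
      have := hl r' hr' L' hL'
      simp [this]) hv
    unfold hds at h1
    unfold tls at h2
    rw [qf_map _ _ n M v hM] at h1 h2
    have hS' : (0 : ℝ) < S := by exact_mod_cast hS
    have h3 := qf_lin (evh u w) (fun L : List ℤ => cz (S * L.headD 0)) (fun L => evh u w L.tail)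
      (w ^ k / S) u n M v hM fun r hr L hL => by
        have h4 := hl r hr L hL
        match L, h4 with
        | a :: L, h4 =>
          have h5 : L.length = k := by simpa using h4
          simp only [evh, h5, List.headD_cons, List.tail_cons, cz, Int.cast_mul]
          field_simp
    rw [h3]
    have : 0 ≤ w ^ k / (S : ℝ) := by positivity
    positivity

theorem chi_sound (S p g q : ℤ) (hS : 0 < S) (hq : 0 < q) (n k : ℕ) (hk : 0 < k) (M : List (List (List ℤ)))
    (hM : Tri n M) (hl : ∀ r ∈ M, ∀ L ∈ r, L.length = k) (A1 A2 : ℤ)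
    (h : chi S p g n (List.replicate n 0) k (pws q k) M A1 A2 = true) (t : ℝ) (h1 : (A1 : ℝ) / q ≤ t)
    (h2 : t ≤ (A2 : ℝ) / q) (v : List ℝ) (hv : v.length = n) : 0 ≤ qf (ev t) M v := by
  have hq' : (0 : ℝ) < q := by exact_mod_cast hq
  obtain ⟨u, w, hu, hw, huw, ht⟩ : ∃ u w : ℝ, 0 ≤ u ∧ 0 ≤ w ∧ u + w = 1 ∧ (q : ℝ) * t = A1 * w + A2 * u := by
    rw [div_le_iff₀ hq'] at h1
    rw [le_div_iff₀ hq'] at h2
    rcases eq_or_lt_of_le (h1.trans h2) with h3 | h3
    · refine ⟨0, 1, le_refl _, zero_le_one, by ring, ?_⟩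
      have h4 : t * q = A1 := le_antisymm (by rw [h3]; exact h2) h1
      linarith
    · have h4 : (0 : ℝ) < A2 - A1 := by linarith
      refine ⟨(t * q - A1) / (A2 - A1), (A2 - t * q) / (A2 - A1), div_nonneg (by linarith) h4.le,
        div_nonneg (by linarith) h4.le, ?_, ?_⟩
      · rw [← add_div, div_eq_one_iff_eq h4.ne']
        ring
      · field_simp
        ring
  have h3 := chl_sound S p g hS n u w hu hw k _ v h (tri_map _ n M hM) (fun r hr L hL => by
    simp only [List.mem_map] at hr
    obtain ⟨r', hr', rfl⟩ := hr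
    simp only [List.mem_map] at hL
    obtain ⟨L', hL', rfl⟩ := hL
    exact (hom_spec A1 A2 q u w t huw ht k (pws q k) L' (pws_ok q u w k) (hl r' hr' L' hL')).1) hv
  rw [qf_map _ _ n M v hM] at h3
  have h4 := qf_lin (fun L => evh u w (hom A1 A2 (pws q k) L)) (ev t) (fun _ => 0) ((q : ℝ) ^ (k - 1)) 0 n M v hM
    fun r hr L hL => by
      have := (hom_spec A1 A2 q u w t huw ht k (pws q k) L (pws_ok q u w k) (hl r hr L hL)).2 hk
      simpa using this
  rw [h4] at h3
  simp only [zero_mul, add_zero] at h3
  exact nonneg_of_mul_nonneg_right h3 (pow_pos hq' _)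

theorem chc_sound (S p g q : ℤ) (hS : 0 < S) (hq : 0 < q) (n k : ℕ) (hk : 0 < k) (M : List (List (List ℤ)))
    (hM : Tri n M) (hl : ∀ r ∈ M, ∀ L ∈ r, L.length = k) (t : ℝ) (v : List ℝ) (hv : v.length = n) :
    ∀ (l : List ℤ) (a : ℤ), l ≠ [] → chc S p g n (List.replicate n 0) k (pws q k) M a l = true →
      (a : ℝ) / q ≤ t → t ≤ (l.getLastD 0 : ℝ) / q → 0 ≤ qf (ev t) M v
  | [], a, h, _, _, _ => absurd rfl h
  | [b], a, _, h, h1, h2 => by
    simp only [chc, Bool.and_true] at h
    exact chi_sound S p g q hS hq n k hk M hM hl a b h t h1 (by simpa using h2) v hv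
  | b :: c :: l, a, _, h, h1, h2 => by
    rw [chc, Bool.and_eq_true] at h
    rcases le_total t ((b : ℝ) / q) with h3 | h3
    · exact chi_sound S p g q hS hq n k hk M hM hl a b h.1 t h1 h3 v hv
    · exact chc_sound S p g q hS hq n k hk M hM hl t v hv (c :: l) b (by simp) h.2 h3 (by simpa using h2)

/-- the family is positive semidefinite on `[a/q, last/q]` -/
theorem psd_fam {S p g q : ℤ} {n k : ℕ} {M : List (List (List ℤ))} {a : ℤ} {l : List ℤ}
    (h : famB S p g q n k M a l = true) (hl : l ≠ []) {t : ℝ} (h1 : (a : ℝ) / q ≤ t)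
    (h2 : t ≤ (l.getLastD 0 : ℝ) / q) {v : List ℝ} (hv : v.length = n) : 0 ≤ qf (ev t) M v := by
  simp only [famB, Bool.and_eq_true, decide_eq_true_eq] at h
  obtain ⟨⟨⟨⟨⟨hS, hq⟩, hk⟩, hM⟩, hL⟩, hc⟩ := h
  refine chc_sound S p g q hS hq n k hk M (tri_of n M hM) (fun r hr L hL' => ?_) t v hv l a hl hc h1 h2
  simp only [lenB, List.all_eq_true] at hL
  exact Nat.eq_of_beq_eq_true (hL r hr L hL')

end Pool.Agent.FPX.CEA
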