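import Mathlib
import Pool.Agent.FPX.BRE

/-
CELT (helper98): the remainder `τ` of the start map in the class `St s'`: transport of the moments between a state and
its visual angle, the predicates `TAU X τ` (zero, constant, state dependent) and the majorants of BRE for them.
-/

open MeasureTheory Set Filter Topology Complex
open scoped ENNReal NNReal ContDiff ComplexConjugate

noncomputable section

namespace Pool.Agent.FPX.BRG

open Pool.Agent.FPX.BTN (va e1 nf ef tr_C)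
open Pool.Agent.FPX.CERQ (xT)
open Pool.Agent.FPX.UMP (Ef)
open Pool.Agent.FPX.F54 (X1 X2 X_lt)
open Pool.Agent.FPX.ALX (St Xa)
open Pool.Agent.FPX.BTG (mo)
open Pool.Agent.FPX.BTI

section tr

variable {f : ℝ → ℝ}

theorem zneg {w : ℂ} (hw : ‖w‖ = 1) (n : ℕ) : w ^ (-(n : ℤ)) = conj w ^ n := by
  have h : w * conj w = 1 := by rw [Complex.mul_conj, Complex.normSq_eq_norm_sq, hw]; norm_num
  rw [zpow_neg, zpow_natCast, ← inv_pow, eq_inv_of_mul_eq_one_right h]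

/-- **the moments of a state in the visual angle** -/
theorem Zr_tr (hf : Ef f) (h0 : 0 ≤ X1 f) (h2 : X2 f = 0) (r : ℕ) (n : ℤ) :
    Zr r (nf f) (xT f) (ef f) n = Zr r va (Xa (X1 f) f) e1 n := by
  have he : ∀ t, ‖ef f t‖ = 1 := fun t => C54.norm_ep (X_lt hf) t
  rcases Int.le_total 0 n with h | h
  · obtain ⟨m, rfl⟩ := Int.eq_ofNat_of_zero_le h
    unfold Zr
    simp only [zpow_natCast]
    exact tr_C hf h0 h2 (Φ := fun e x => (x : ℂ) ^ r * e ^ m) (by fun_prop)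
  · obtain ⟨m, hm⟩ := Int.eq_ofNat_of_zero_le (Int.neg_nonneg_of_nonpos h)
    have hn : n = -(m : ℤ) := by
      have : -n = (m : ℤ) := hm
      omega
    unfold Zr
    rw [hn]
    simp only [zneg (he _), zneg (BTN.norm_e1 _)]
    exact tr_C hf h0 h2 (Φ := fun e x => (x : ℂ) ^ r * conj e ^ m) (by fun_prop)

theorem vl_tr (hf : Ef f) (h0 : 0 ≤ X1 f) (h2 : X2 f = 0) :
    vl (nf f) (xT f) (ef f) = vl va (Xa (X1 f) f) e1 := by
  funext n
  unfold vl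
  rw [Zr_tr hf h0 h2]

end tr

/-! ### the predicates -/

/-- `mean (x²)` of a function of the visual angle -/
def qa (X : ℝ → ℝ) : ℝ := (Zr 2 va X e1 0).re

/-- no remainder -/
def Tau0 (_ : ℝ → ℝ) (t : ℂ) : Prop := t = 0

/-- constant bound -/
def TauC (r : ℝ) (_ : ℝ → ℝ) (t : ℂ) : Prop := ‖t‖ ≤ r

/-- state dependent bound -/
def TauS (L : Ly) (be : ℚ) (X : ℝ → ℝ) (t : ℂ) : Prop := ‖t‖ ≤ (L.sum (vl va X e1) + be * qa X) * qa X

/-- the bound at a state -/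
theorem tauS_of {f : ℝ → ℝ} (hf : Ef f) (h0 : 0 ≤ X1 f) (h2 : X2 f = 0) {L : Ly} {be : ℚ} {t : ℂ}
    (h : ‖t‖ ≤ (L.sum (vl (nf f) (xT f) (ef f)) + be * (Zr 2 (nf f) (xT f) (ef f) 0).re)
      * (Zr 2 (nf f) (xT f) (ef f) 0).re) : TauS L be (Xa (X1 f) f) t := by
  unfold TauS qa
  rwa [vl_tr hf h0 h2, Zr_tr hf h0 h2] at h

theorem mono_sum {L : Ly} (h : ∀ t ∈ L, 0 ≤ t.2.1) (u : ℤ → ℂ) : 0 ≤ L.sum u := by
  unfold Ly.sum
  refine List.sum_nonneg fun y hy => ?_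
  obtain ⟨t, ht, rfl⟩ := List.mem_map.1 hy
  have : (0 : ℝ) ≤ (t.2.1 : ℝ) := by exact_mod_cast h t ht
  positivity

/-- no remainder: the empty majorant -/
theorem hE_0 {u Z : ℤ → ℂ} {t : ℂ} (h : t = 0) (z : ℕ → ℂ) :
    2 * (z 2 * (t * conj (z 0))).re ≤ (e2 z u [] + eq2 z Z []).re := by
  rw [h]
  simp

/-- the majorant of the state dependent bound -/
theorem hE_S {s : ℝ} {X : ℝ → ℝ} (hX : St s X) (hb : ∀ a, |X a| ≤ 1) {t : ℂ} {L : Ly} {be Qb S1 W1 : ℚ}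
    (hQ : qa X ≤ Qb) (hY : okY L be Qb S1 W1 = true) (hτ : TauS L be X t) (z : ℕ → ℂ) :
    2 * (z 2 * (t * conj (z 0))).re ≤ (e2 z (vl va X e1) (eY L) + eq2 z (Zr 2 va X e1) (fY S1 W1)).re :=
  have H := fr_va hX hb
  hE_Y H.z2.1 H.z2.2 hQ hY hτ z

/-- the majorant of the constant bound -/
theorem hE_K {X : ℝ → ℝ} {r : ℝ} {t : ℂ} {t1 t3 : ℚ} (ht1 : 0 ≤ t1) (ht3 : 0 ≤ t3) (hr : r ^ 2 ≤ t1 * t3)
    (hτ : TauC r X t) (z : ℕ → ℂ) : 2 * (z 2 * (t * conj (z 0))).re ≤ (e2 z (vl va X e1)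
      [(t1, [(1, 0, 0)], [(1, 0, 0)]), (t3, [(1, 2, 0)], [(1, 2, 0)])] + eq2 z (Zr 2 va X e1) []).re := by
  refine hE_C (by simp [vl]) ht1 ht3 ?_ z
  have h0 : ‖t‖ ≤ r := hτ
  have h1 : ‖t‖ ^ 2 ≤ r ^ 2 := pow_le_pow_left₀ (norm_nonneg _) h0 2
  linarith

end Pool.Agent.FPX.BRG
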