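import Mathlib
import Pool.Agent.FPX.WPR
import Pool.Agent.FPX.XID
import Pool.Agent.FPX.OMX
import Pool.Agent.FPX.OMR
import Pool.Agent.FPX.BTA

/-
PCO (helper76): the coefficient functions of the certificates `Cert7`, `Cert7X` from polynomials in `c = cos r₀`
with rational coefficients: regularity, boundary conditions, the coefficient vector `BTN.vec` and the coefficient
`OM7.W7R` without derivatives; the radial functions of the displacement `xi8` from polynomials.
-/

open MeasureTheory Set Filter Topology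

noncomputable section

namespace Pool.Agent.FPX.PCO

open Pool.Agent.FPX.OM7 (Cof)
open Pool.Agent.FPX.WPR

/-! ### polynomials -/

/-- the value of a polynomial, coefficients in increasing order -/
def pe : List ℚ → ℝ → ℝ
  | [], _ => 0
  | a :: L, c => (a : ℝ) + c * pe L c

/-- the same over the rationals -/
def pq : List ℚ → ℚ → ℚ
  | [], _ => 0
  | a :: L, c => a + c * pq L c

/-- the sum of two polynomials -/
def pad : List ℚ → List ℚ → List ℚ
  | [], M => M
  | a :: L, [] => a :: L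
  | a :: L, b :: M => (a + b) :: pad L M

/-- the derivative -/
def der : List ℚ → List ℚ
  | [] => []
  | _ :: L => pad L (0 :: der L)

theorem pe_pq (L : List ℚ) (c : ℚ) : pe L (c : ℝ) = ((pq L c : ℚ) : ℝ) := by
  induction L with
  | nil => simp [pe, pq]
  | cons a L ih => simp only [pe, pq, ih]; push_cast; ring

theorem pe_pad (L M : List ℚ) (c : ℝ) : pe (pad L M) c = pe L c + pe M c := by
  induction L generalizing M with
  | nil => simp [pad, pe]
  | cons a L ih =>
    cases M with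
    | nil => simp [pad, pe]
    | cons b M => simp only [pad, pe, ih]; push_cast; ring

theorem hasDerivAt_pe (L : List ℚ) (c : ℝ) : HasDerivAt (pe L) (pe (der L) c) c := by
  induction L with
  | nil => exact hasDerivAt_const c 0
  | cons a L ih =>
    have h := ((hasDerivAt_id c).mul ih).const_add (a : ℝ)
    refine h.congr_deriv ?_
    simp only [der, pe_pad, pe, id_eq]
    push_cast
    ring

theorem contDiff_pe (L : List ℚ) : ContDiff ℝ ⊤ (pe L) := by
  induction L with
  | nil => exact contDiff_const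
  | cons a L ih => exact contDiff_const.add (contDiff_id.mul ih)

theorem continuous_pe (L : List ℚ) : Continuous (pe L) := (contDiff_pe L).continuous

/-- the function of `r = s²` -/
def pf (L : List ℚ) (r : ℝ) : ℝ := pe L (√(1 - r))

theorem contDiffOn_pf (L : List ℚ) : ContDiffOn ℝ 1 (pf L) (Iio 1) := by
  intro r hr
  have h0 : (1 : ℝ) - r ≠ 0 := by
    have : r < 1 := hr
    linarith
  have h1 : ContDiffAt ℝ 1 (fun r : ℝ => √(1 - r)) r := (contDiffAt_const.sub contDiffAt_id).sqrt h0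
  exact (((contDiff_pe L).of_le le_top).contDiffAt.comp r h1).contDiffWithinAt

theorem hasDerivAt_pf (L : List ℚ) {r : ℝ} (hr : r < 1) :
    HasDerivAt (pf L) (-(pe (der L) (√(1 - r)) / (2 * √(1 - r)))) r := by
  have h0 : (1 : ℝ) - r ≠ 0 := by linarith
  have h1 : HasDerivAt (fun r : ℝ => √(1 - r)) (-1 / (2 * √(1 - r))) r := by
    have := ((hasDerivAt_id r).const_sub 1).sqrt h0
    simpa using this
  have h2 := (hasDerivAt_pe L (√(1 - r))).comp r h1
  refine h2.congr_deriv ?_
  ring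

theorem deriv_pf (L : List ℚ) {r : ℝ} (hr : r < 1) :
    deriv (pf L) r = -(pe (der L) (√(1 - r)) / (2 * √(1 - r))) := (hasDerivAt_pf L hr).deriv

theorem sqrt_eq {s c : ℝ} (hc : 0 ≤ c) (h : s ^ 2 + c ^ 2 = 1) : √(1 - s ^ 2) = c := by
  have : 1 - s ^ 2 = c ^ 2 := by linarith
  rw [this, Real.sqrt_sq hc]

theorem pf_sc (L : List ℚ) {s c : ℝ} (hc : 0 ≤ c) (h : s ^ 2 + c ^ 2 = 1) : pf L (s ^ 2) = pe L c := by
  unfold pf
  rw [sqrt_eq hc h]

theorem deriv_sc (L : List ℚ) {s c : ℝ} (hc : 0 < c) (h : s ^ 2 + c ^ 2 = 1) :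
    deriv (pf L) (s ^ 2) = -(pe (der L) c / (2 * c)) := by
  have : s ^ 2 < 1 := by nlinarith
  rw [deriv_pf L this, sqrt_eq hc.le h]

theorem tendsto_pf (L : List ℚ) {k : ℕ} (hk : k ≠ 0) :
    Tendsto (fun c => pf L (1 - c ^ 2) * c ^ k) (𝓝[>] 0) (𝓝 0) := by
  have h1 : Continuous fun c : ℝ => pf L (1 - c ^ 2) * c ^ k := by
    unfold pf
    exact ((continuous_pe L).comp (by fun_prop)).mul (continuous_pow k)
  have h2 := h1.tendsto 0
  simp only [zero_pow hk, mul_zero] at h2
  exact h2.mono_left nhdsWithin_le_nhds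

theorem tendsto_pf1 (L : List ℚ) : Tendsto (fun c => pf L (1 - c ^ 2) * c) (𝓝[>] 0) (𝓝 0) := by
  simpa using tendsto_pf L one_ne_zero

/-! ### the class -/

/-- the polynomials of the certificate -/
structure PC where
  q : List ℚ
  z : List ℚ
  p : List ℚ
  x : List ℚ
  y : List ℚ
  g : List ℚ
  b : List ℚ

namespace PC

variable (P : PC)

/-- the coefficient functions -/
def cof : Cof := ⟨pf P.q, pf P.z, pf P.p, pf P.x, pf P.y, pf P.g, pf P.b⟩

theorem sm : P.cof.Sm :=
  ⟨contDiffOn_pf _, contDiffOn_pf _, contDiffOn_pf _, contDiffOn_pf _, contDiffOn_pf _, contDiffOn_pf _,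
    contDiffOn_pf _⟩

theorem bo : P.cof.Bo where
  Q := tendsto_pf _ two_ne_zero
  Z := tendsto_pf _ two_ne_zero
  P := tendsto_pf _ two_ne_zero
  x := tendsto_pf1 P.x
  y := tendsto_pf1 P.y
  g := tendsto_pf _ two_ne_zero
  b := tendsto_pf1 P.b

theorem cons_congr {n : ℕ} {a b : ℝ} {u v : Fin n → ℝ} (h : a = b) (h' : u = v) :
    Matrix.vecCons a u = Matrix.vecCons b v := by rw [h, h']

/-- the coefficient vector, `v₀ = w(c)` -/
def vc (P : PC) (v₀ μ s c : ℝ) : BTN.CV :=
  ![v₀,
    c * (-(c * pe (der P.q) c) - pe P.q c + pe P.z c - c * s ^ 2 * pe (der P.p) c + (6 * c ^ 2 + s ^ 2) * pe P.p c),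
    c ^ 2 / s ^ 2 * (2 * c * pe P.z c - s ^ 2 * pe (der P.z) c),
    c * s ^ 2 * pe P.p c,
    s ^ 2 * (-(2 * c * pe (der P.x) c) - 3 * pe P.x c - 2 * c * s ^ 2 * pe (der P.y) c
      + (16 * c ^ 2 + 3 * s ^ 2) * pe P.y c),
    s ^ 4 * pe P.y c,
    4 * c ^ 2 / s ^ 2 * (2 * c * pe P.g c - s ^ 2 * pe (der P.g) c),
    4 * c * pe P.g c,
    c * pe P.q c,
    c * pe P.z c,
    s ^ 2 * pe P.x c,
    pe P.b c,
    12 * c ^ 2 / s ^ 2 * pe P.b c,
    -(2 * c * pe (der P.b) c),
    μ]

variable {w : ℝ → ℝ} {w₁ c₁ : ℝ}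

/-- **the coefficient vector of helper15 without derivatives** -/
theorem vec_eq (hw : Wt w w₁ c₁) {μ s c : ℝ} (hc : 0 < c) (h : s ^ 2 + c ^ 2 = 1) :
    BTN.vec (Wp w w₁) P.cof μ s c = P.vc (w c) μ s c := by
  have hc1 : c ≤ 1 := by nlinarith [sq_nonneg s]
  have e0 : 2 * c * Wp w w₁ c - s ^ 2 * deriv (Wp w w₁) c = w c := by
    have := Wp_eqn hw (by linarith : -1 < c) hc1
    have e : s ^ 2 = 1 - c ^ 2 := by linarith
    rw [e]
    exact this
  unfold BTN.vec vc cof
  simp only [pf_sc _ hc.le h, deriv_sc _ hc h, e0]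
  have hc' : c ≠ 0 := hc.ne'
  refine cons_congr rfl (cons_congr ?_ (cons_congr ?_ (cons_congr rfl (cons_congr ?_ (cons_congr rfl
    (cons_congr ?_ (cons_congr rfl (cons_congr rfl (cons_congr rfl (cons_congr rfl (cons_congr rfl
    (cons_congr rfl (cons_congr ?_ rfl)))))))))))))
  · field_simp
    ring
  · field_simp
    ring
  · field_simp
    ring
  · field_simp
    ring
  · field_simp
    ring

end PC

end Pool.Agent.FPX.PCO
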