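import Mathlib
import Pool.Agent.FPX.PCO
import Pool.Agent.FPX.OMH
import Pool.Agent.FPX.XIR
import Pool.Agent.FPX.BTQ

/-
PCH (helper76): the coefficient functions of the classes OMG (`Cof9`) and OMH (`CofH`) from rational lists:
`Q, Z, P, g, p₁, p₂, g₅ = poly(c)/c`, `x, y, b, x₅, y₅, b₅ = poly(c)`, `c = √(1 - r)`; values and derivatives,
regularity, boundary conditions; the radial functions of the start maps `xi8`, `xi12` from rational lists.
-/

open MeasureTheory Set Filter Topology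

noncomputable section

namespace Pool.Agent.FPX.PCO

open Pool.Agent.FPX.OM7 (Cof)
open Pool.Agent.FPX.OMG (Cof9 CofH)
open Pool.Agent.FPX.WPR
open Pool.Agent.FPX.XIM (Rad rad_of_cont)

/-- the polynomials of BTQ -/
theorem pe_eq (L : List ℚ) (c : ℝ) : pe L c = BTQ.pe L c := by
  induction L with
  | nil => rfl
  | cons a L ih => rw [BTQ.pe_cons, ← ih]; rfl

/-! ### polynomials divided by `c` -/

/-- the function of `r = s²` -/
def pg (L : List ℚ) (r : ℝ) : ℝ := pe L (√(1 - r)) / √(1 - r)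

theorem contDiffOn_pg (L : List ℚ) : ContDiffOn ℝ 1 (pg L) (Iio 1) := by
  intro r hr
  have h0 : (1 : ℝ) - r ≠ 0 := by
    have : r < 1 := hr
    linarith
  have h2 : √(1 - r) ≠ 0 := by
    have : r < 1 := hr
    exact (Real.sqrt_pos.2 (by linarith)).ne'
  have h1 : ContDiffAt ℝ 1 (fun r : ℝ => √(1 - r)) r := (contDiffAt_const.sub contDiffAt_id).sqrt h0
  exact (((((contDiff_pe L).of_le le_top).contDiffAt.comp r h1)).div h1 h2).contDiffWithinAt

theorem hasDerivAt_pg (L : List ℚ) {r : ℝ} (hr : r < 1) : HasDerivAt (pg L)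
    ((pe L (√(1 - r)) - √(1 - r) * pe (der L) (√(1 - r))) / (2 * √(1 - r) ^ 3)) r := by
  have h0 : 0 < √(1 - r) := Real.sqrt_pos.2 (by linarith)
  have h1 : HasDerivAt (fun r : ℝ => √(1 - r)) (-1 / (2 * √(1 - r))) r := by
    have := ((hasDerivAt_id r).const_sub 1).sqrt (by show (1 : ℝ) - r ≠ 0; linarith)
    simpa using this
  have h2 := (hasDerivAt_pf L hr).div h1 h0.ne'
  refine h2.congr_deriv ?_
  unfold pf
  field_simp
  ring

theorem pg_sc (L : List ℚ) {s c : ℝ} (hc : 0 ≤ c) (h : s ^ 2 + c ^ 2 = 1) : pg L (s ^ 2) = pe L c / c := by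
  unfold pg
  rw [sqrt_eq hc h]

theorem dg_sc (L : List ℚ) {s c : ℝ} (hc : 0 < c) (h : s ^ 2 + c ^ 2 = 1) :
    deriv (pg L) (s ^ 2) = (pe L c - c * pe (der L) c) / (2 * c ^ 3) := by
  have : s ^ 2 < 1 := by nlinarith
  rw [(hasDerivAt_pg L this).deriv, sqrt_eq hc.le h]

theorem tendsto_pg (L : List ℚ) : Tendsto (fun c => pg L (1 - c ^ 2) * c ^ 2) (𝓝[>] 0) (𝓝 0) := by
  have h1 : Continuous fun c : ℝ => pe L c * c := (continuous_pe L).mul continuous_id
  have h2 := h1.tendsto 0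
  simp only [mul_zero] at h2
  refine (h2.mono_left nhdsWithin_le_nhds).congr' ?_
  filter_upwards [self_mem_nhdsWithin] with c hc
  have hc0 : 0 < c := hc
  unfold pg
  rw [sub_sub_cancel, Real.sqrt_sq hc0.le]
  field_simp

/-! ### the classes -/

/-- rational data of the class OMH: `q z p g p1 p2 g5` are divided by `c` -/
structure PH where
  q : List ℚ
  z : List ℚ
  p : List ℚ
  x : List ℚ
  y : List ℚ
  g : List ℚ
  b : List ℚ
  p1 : List ℚ
  p2 : List ℚ
  x5 : List ℚ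
  y5 : List ℚ
  g5 : List ℚ
  b5 : List ℚ

namespace PH

variable (P : PH)

/-- the functions of OM7 -/
def cof : Cof := ⟨pg P.q, pg P.z, pg P.p, pf P.x, pf P.y, pg P.g, pf P.b⟩

/-- the functions of OMG -/
def cof9 : Cof9 := ⟨P.cof, pg P.p1, pg P.p2, pf P.x5, pf P.y5⟩

/-- the functions of OMH -/
def cofH : CofH := ⟨P.cof9, pg P.g5, pf P.b5⟩

theorem sm : P.cof.Sm :=
  ⟨contDiffOn_pg _, contDiffOn_pg _, contDiffOn_pg _, contDiffOn_pf _, contDiffOn_pf _, contDiffOn_pg _,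
    contDiffOn_pf _⟩

theorem sm9 : P.cof9.Sm := ⟨P.sm, contDiffOn_pg _, contDiffOn_pg _, contDiffOn_pf _, contDiffOn_pf _⟩

theorem smH : P.cofH.Sm := ⟨P.sm9, contDiffOn_pg _, contDiffOn_pf _⟩

theorem bo : P.cof.Bo :=
  ⟨tendsto_pg _, tendsto_pg _, tendsto_pg _, tendsto_pf1 _, tendsto_pf1 _, tendsto_pg _, tendsto_pf1 _⟩

theorem bo9 : P.cof9.Bo := ⟨P.bo, tendsto_pg _, tendsto_pg _, tendsto_pf1 _, tendsto_pf1 _⟩

theorem boH : P.cofH.Bo := ⟨P.bo9, tendsto_pg _, tendsto_pf1 _⟩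

end PH

/-! ### the radial functions of the start maps -/

/-- the functions `k_j` -/
def kf {n : ℕ} (K : Fin n → List ℚ) (j : Fin n) : ℝ → ℝ := pe (K j)

/-- their derivatives -/
def kf' {n : ℕ} (K : Fin n → List ℚ) (j : Fin n) : ℝ → ℝ := pe (der (K j))

theorem kf_der {n : ℕ} (K : Fin n → List ℚ) (j : Fin n) (c : ℝ) : HasDerivAt (kf K j) (kf' K j c) c :=
  hasDerivAt_pe _ _

theorem kf'_cont {n : ℕ} (K : Fin n → List ℚ) (j : Fin n) : Continuous (kf' K j) := continuous_pe _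

theorem kf_cont {n : ℕ} (K : Fin n → List ℚ) (j : Fin n) : Continuous (kf K j) := continuous_pe _

theorem der_s2 {k k' : ℝ → ℝ} {c : ℝ} (h : HasDerivAt k (k' c) c) :
    HasDerivAt (fun c => (1 - c ^ 2) * k c) ((1 - c ^ 2) * k' c - 2 * c * k c) c := by
  have := ((hasDerivAt_pow 2 c).const_sub 1).mul h
  refine this.congr_deriv ?_
  push_cast
  ring

theorem rad_s2 {k k' : ℝ → ℝ} (h : ∀ c, HasDerivAt k (k' c) c) (hk : Continuous k) (hk' : Continuous k') :
    ∃ G G', Rad (fun c => (1 - c ^ 2) * k c) (fun c => (1 - c ^ 2) * k' c - 2 * c * k c) G G' :=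
  rad_of_cont (fun c => der_s2 (h c))
    (((continuous_const.sub (continuous_pow 2)).mul hk').sub ((continuous_const.mul continuous_id).mul hk))

/-- **the radial functions of `xi8`** -/
theorem rad_kap (K : Fin 8 → List ℚ) :
    ∃ G G' : Fin 8 → ℝ, ∀ j, Rad (BTI.kap (kf K) j) (BTI.dkap (kf K) (kf' K) j) (G j) (G' j) := by
  have h : ∀ j, ∃ G G', Rad (BTI.kap (kf K) j) (BTI.dkap (kf K) (kf' K) j) G G' := by
    have h1 : ∀ i, ∃ G G', Rad (kf K i) (kf' K i) G G' := fun i => rad_of_cont (kf_der K i) (kf'_cont K i)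
    have h2 : ∀ i, ∃ G G', Rad (fun c => (1 - c ^ 2) * kf K i c)
        (fun c => (1 - c ^ 2) * kf' K i c - 2 * c * kf K i c) G G' := fun i =>
      rad_s2 (kf_der K i) (kf_cont K i) (kf'_cont K i)
    intro j
    fin_cases j
    · exact h1 0
    · exact h1 1
    · exact h2 2
    · exact h1 3
    · exact h1 4
    · exact h2 5
    · exact h2 6
    · exact h1 7
  choose G G' H using h
  exact ⟨G, G', H⟩

/-- **the radial functions of the additional terms of `xi12`** -/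
theorem rad_mup (K : Fin 4 → List ℚ) :
    ∃ G G' : Fin 4 → ℝ, ∀ j, Rad (BU.mup (kf K) j) (BU.dmup (kf K) (kf' K) j) (G j) (G' j) := by
  have h : ∀ j, ∃ G G', Rad (BU.mup (kf K) j) (BU.dmup (kf K) (kf' K) j) G G' := by
    have h1 : ∀ i, ∃ G G', Rad (kf K i) (kf' K i) G G' := fun i => rad_of_cont (kf_der K i) (kf'_cont K i)
    have h2 : ∀ i, ∃ G G', Rad (fun c => (1 - c ^ 2) * kf K i c)
        (fun c => (1 - c ^ 2) * kf' K i c - 2 * c * kf K i c) G G' := fun i =>
      rad_s2 (kf_der K i) (kf_cont K i) (kf'_cont K i)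
    intro j
    fin_cases j
    · exact h1 0
    · exact h1 1
    · exact h1 2
    · exact h2 3
  choose G G' H using h
  exact ⟨G, G', H⟩

end Pool.Agent.FPX.PCO
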