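import Mathlib
import Pool.Agent.FPX.PCH
import Pool.Agent.FPX.CEL

/-
CEP (helper76): (1) the coefficient functions of the data of CEL are regular and satisfy the boundary conditions;
(2) PIECEWISE POLYNOMIAL WEIGHTS: `pw w₁ L` for a list `L` of pairs (right end, polynomial), constant `w₁` after the
last end: one Boolean `pwOk` gives continuity, the hypothesis `Wt` of WPR, the equation of `W` on every cell and
`W(0)` as a rational number `pwI`; (3) the list of latitude cells covers `(0, 1]`: from the cells to all real states.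
-/

open MeasureTheory Set Filter Topology

noncomputable section

namespace Pool.Agent.FPX.CEP

open Pool.Agent.FPX.BTQ
open Pool.Agent.FPX.CEL
open Pool.Agent.FPX.WPR
open Pool.Agent.FPX.XIM (Rad rad_of_cont)
open Pool.Agent.FPX.BTI (kap dkap)
open Pool.Agent.FPX.OMS (rF cF)
open Pool.Agent.FPX.OMR (Re)
open Pool.Agent.FPX.F54 (X1 X2)
open Pool.Agent.FPX.PCO (pq)

/-! ### regularity of the data -/

theorem pln_eq_pf (l : List ℚ) : pln l = PCO.pf l := funext fun _ => (PCO.pe_eq l _).symm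

theorem hat_eq_pg (l : List ℚ) : hat l = PCO.pg l := funext fun r => by
  unfold hat PCO.pg
  rw [PCO.pe_eq]

theorem cd_pln (l : List ℚ) : ContDiffOn ℝ 1 (pln l) (Iio 1) := by
  rw [pln_eq_pf]
  exact PCO.contDiffOn_pf l

theorem cd_hat (l : List ℚ) : ContDiffOn ℝ 1 (hat l) (Iio 1) := by
  rw [hat_eq_pg]
  exact PCO.contDiffOn_pg l

theorem td_pln (l : List ℚ) : Tendsto (fun c => pln l (1 - c ^ 2) * c) (𝓝[>] 0) (𝓝 0) := by
  rw [pln_eq_pf]
  exact PCO.tendsto_pf1 l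

theorem td_hat (l : List ℚ) : Tendsto (fun c => hat l (1 - c ^ 2) * c ^ 2) (𝓝[>] 0) (𝓝 0) := by
  rw [hat_eq_pg]
  exact PCO.tendsto_pg l

theorem td_zero : Tendsto (fun c : ℝ => (fun _ : ℝ => (0 : ℝ)) (1 - c ^ 2) * c) (𝓝[>] 0) (𝓝 0) := by
  simp

theorem sm (D : Dat) : D.cof.Sm :=
  ⟨⟨cd_hat _, cd_hat _, cd_hat _, cd_pln _, cd_pln _, cd_hat _, cd_pln _⟩, cd_hat _, cd_hat _,
    contDiffOn_const, contDiffOn_const⟩

theorem bo (D : Dat) : D.cof.Bo :=
  ⟨⟨td_hat _, td_hat _, td_hat _, td_pln _, td_pln _, td_hat _, td_pln _⟩, td_hat _, td_hat _, td_zero, td_zero⟩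

theorem cont_pe (l : List ℚ) : Continuous (pe l) :=
  continuous_iff_continuousAt.2 fun x => (CEL.hasDerivAt_pe l x).continuousAt

/-- **the radial functions of the start map** -/
theorem rad (D : Dat) :
    ∃ G G' : Fin 8 → ℝ, ∀ j, Rad (kap D.kk j) (dkap D.kk D.kk' j) (G j) (G' j) := by
  have d : ∀ i c, HasDerivAt (D.kk i) (D.kk' i c) c := fun i c => CEL.hasDerivAt_pe _ c
  have h : ∀ j, ∃ G G', Rad (kap D.kk j) (dkap D.kk D.kk' j) G G' := by
    have h1 : ∀ i, ∃ G G', Rad (D.kk i) (D.kk' i) G G' := fun i => rad_of_cont (d i) (cont_pe _)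
    have h2 : ∀ i, ∃ G G', Rad (fun c => (1 - c ^ 2) * D.kk i c)
        (fun c => (1 - c ^ 2) * D.kk' i c - 2 * c * D.kk i c) G G' := fun i =>
      PCO.rad_s2 (d i) (cont_pe _) (cont_pe _)
    intro j
    fin_cases j
    · exact h1 0
    · exact h1 1
    · exact h2 2
    · exact h1 3
    · exact h1 4
    · exact h2 5
    · exact h2 6
    · exact h1 7
  choose G G' H using h
  exact ⟨G, G', H⟩

/-! ### integrals of polynomials -/

theorem pe_q (l : List ℚ) (c : ℚ) : pe l (c : ℝ) = ((pq l c : ℚ) : ℝ) := by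
  rw [← PCO.pe_eq, PCO.pe_pq]

/-- `∑ a_i x^i / (n + i)` -/
def af : ℕ → List ℚ → List ℚ
  | _, [] => []
  | n, a :: l => (a / n) :: af (n + 1) l

theorem der_af (l : List ℚ) (n : ℕ) (x : ℝ) :
    HasDerivAt (fun x => x ^ (n + 1) * pe (af (n + 1) l) x) (x ^ n * pe l x) x := by
  induction l generalizing n with
  | nil =>
    simp only [af, pe_nil, mul_zero]
    exact hasDerivAt_const x 0
  | cons a l ih =>
    have h1 := ((hasDerivAt_pow (n + 1) x).mul_const ((a : ℝ) / ((n + 1 : ℕ) : ℝ))).add (ih (n + 1))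
    have e : (fun x : ℝ => x ^ (n + 1) * pe (af (n + 1) (a :: l)) x) =
        fun x : ℝ => x ^ (n + 1) * ((a : ℝ) / ((n + 1 : ℕ) : ℝ)) + x ^ (n + 1 + 1) * pe (af (n + 1 + 1) l) x := by
      funext y
      simp only [af, pe_cons]
      push_cast
      ring
    rw [e]
    refine h1.congr_deriv ?_
    rw [pe_cons]
    have hn : ((n + 1 : ℕ) : ℝ) ≠ 0 := by positivity
    have e2 : n + 1 - 1 = n := by omega
    rw [e2]
    field_simp
    ring

/-- the primitive -/
def anti (l : List ℚ) : List ℚ := 0 :: af 1 l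

theorem der_anti (l : List ℚ) (x : ℝ) : HasDerivAt (pe (anti l)) (pe l x) x := by
  have h := der_af l 0 x
  have e : (fun x : ℝ => x ^ (0 + 1) * pe (af (0 + 1) l) x) = pe (anti l) := by
    funext y
    simp only [anti, pe_cons]
    push_cast
    ring
  rw [e] at h
  simpa using h

theorem int_pe (l : List ℚ) (a b : ℝ) : ∫ x in a..b, pe l x = pe (anti l) b - pe (anti l) a :=
  intervalIntegral.integral_eq_sub_of_hasDerivAt (fun x _ => der_anti l x) ((cont_pe l).intervalIntegrable _ _)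

/-! ### piecewise polynomial weights -/

/-- the weight: list of pairs (right end, polynomial) -/
def pw (w₁ : ℚ) : List (ℚ × List ℚ) → ℝ → ℝ
  | [], _ => w₁
  | p :: L, c => if c ≤ (p.1 : ℝ) then pe p.2 c else pw w₁ L c

/-- the value at a point before the next end -/
def nxt (w₁ : ℚ) (b : ℚ) : List (ℚ × List ℚ) → ℚ
  | [] => w₁
  | p :: _ => pq p.2 b

/-- the check: increasing ends, continuity, last end `< 1` -/
def pwOk (w₁ : ℚ) : ℚ → List (ℚ × List ℚ) → Bool
  | a, [] => decide (a < 1)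
  | a, p :: L => decide (a < p.1) && decide (pq p.2 p.1 = nxt w₁ p.1 L) && pwOk w₁ p.1 L

/-- the last end -/
def lst : ℚ → List (ℚ × List ℚ) → ℚ
  | a, [] => a
  | _, p :: L => lst p.1 L

/-- the integral up to `1` -/
def pwI (w₁ : ℚ) : ℚ → List (ℚ × List ℚ) → ℚ
  | a, [] => w₁ * (1 - a)
  | a, p :: L => (pq (anti p.2) p.1 - pq (anti p.2) a) + pwI w₁ p.1 L

/-- the cells: left end, right end, polynomial -/
def cells (w₁ : ℚ) : ℚ → List (ℚ × List ℚ) → List (ℚ × ℚ × List ℚ)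
  | a, [] => [(a, 1, [w₁])]
  | a, p :: L => (a, p.1, p.2) :: cells w₁ p.1 L

variable {w₁ : ℚ}

theorem pwOk_cons {a : ℚ} {p : ℚ × List ℚ} {L : List (ℚ × List ℚ)} (h : pwOk w₁ a (p :: L) = true) :
    a < p.1 ∧ pq p.2 p.1 = nxt w₁ p.1 L ∧ pwOk w₁ p.1 L = true := by
  simp only [pwOk, Bool.and_eq_true, decide_eq_true_eq] at h
  exact ⟨h.1.1, h.1.2, h.2⟩

theorem pw_nxt {a : ℚ} {L : List (ℚ × List ℚ)} (h : pwOk w₁ a L = true) :
    pw w₁ L (a : ℝ) = ((nxt w₁ a L : ℚ) : ℝ) := by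
  cases L with
  | nil => rfl
  | cons p L =>
    have h1 := (pwOk_cons h).1
    have h2 : (a : ℝ) ≤ (p.1 : ℝ) := by exact_mod_cast h1.le
    simp only [pw, nxt, if_pos h2, pe_q]

theorem pw_cont {a : ℚ} {L : List (ℚ × List ℚ)} (h : pwOk w₁ a L = true) : Continuous (pw w₁ L) := by
  induction L generalizing a with
  | nil => exact continuous_const
  | cons p L ih =>
    obtain ⟨_, h2, h3⟩ := pwOk_cons h
    refine Continuous.if_le (cont_pe p.2) (ih h3) continuous_id continuous_const fun c hc => ?_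
    have hc' : c = (p.1 : ℝ) := hc
    rw [hc', pe_q, h2, pw_nxt h3]

theorem lst_ge {a : ℚ} {L : List (ℚ × List ℚ)} (h : pwOk w₁ a L = true) : a ≤ lst a L := by
  induction L generalizing a with
  | nil => exact le_rfl
  | cons p L ih =>
    obtain ⟨h1, _, h3⟩ := pwOk_cons h
    exact h1.le.trans (ih h3)

theorem lst_lt {a : ℚ} {L : List (ℚ × List ℚ)} (h : pwOk w₁ a L = true) : lst a L < 1 := by
  induction L generalizing a with
  | nil => simpa [pwOk, lst] using h
  | cons p L ih => exact ih (pwOk_cons h).2.2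

theorem pw_last {a : ℚ} {L : List (ℚ × List ℚ)} (h : pwOk w₁ a L = true) {c : ℝ} (hc : (lst a L : ℝ) ≤ c) :
    pw w₁ L c = w₁ := by
  induction L generalizing a with
  | nil => rfl
  | cons p L ih =>
    obtain ⟨_, h2, h3⟩ := pwOk_cons h
    have hc' : (lst p.1 L : ℝ) ≤ c := hc
    have hp : (p.1 : ℝ) ≤ c := le_trans (by exact_mod_cast lst_ge h3) hc'
    rcases hp.lt_or_eq with h4 | h4
    · simp only [pw, if_neg (not_le.2 h4)]
      exact ih h3 hc'
    · have e : c ≤ (p.1 : ℝ) := h4.ge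
      simp only [pw, if_pos e]
      rw [← h4, pe_q, h2, ← pw_nxt h3, h4]
      exact ih h3 hc'

/-- **the hypothesis of WPR** -/
theorem wt {a : ℚ} {L : List (ℚ × List ℚ)} (h : pwOk w₁ a L = true) :
    Wt (pw w₁ L) (w₁ : ℝ) ((lst a L : ℚ) : ℝ) where
  cont := pw_cont h
  lt := by exact_mod_cast lst_lt h
  eq := fun _ hc => pw_last h hc

theorem pw_int {a : ℚ} {L : List (ℚ × List ℚ)} (h : pwOk w₁ a L = true) :
    ∫ c in (a : ℝ)..1, pw w₁ L c = ((pwI w₁ a L : ℚ) : ℝ) := by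
  induction L generalizing a with
  | nil =>
    simp only [pw, pwI, intervalIntegral.integral_const, smul_eq_mul]
    push_cast
    ring
  | cons p L ih =>
    obtain ⟨h1, _, h3⟩ := pwOk_cons h
    have h1' : (a : ℝ) ≤ (p.1 : ℝ) := by exact_mod_cast h1.le
    have hc := pw_cont h
    rw [← intervalIntegral.integral_add_adjacent_intervals (hc.intervalIntegrable (a : ℝ) (p.1 : ℝ))
      (hc.intervalIntegrable (p.1 : ℝ) 1)]
    have e1 : ∫ c in (a : ℝ)..(p.1 : ℝ), pw w₁ (p :: L) c = ∫ c in (a : ℝ)..(p.1 : ℝ), pe p.2 c := by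
      refine intervalIntegral.integral_congr fun c hc => ?_
      rw [uIcc_of_le h1'] at hc
      simp only [pw, if_pos hc.2]
    have h4 : (p.1 : ℝ) ≤ 1 := by
      exact_mod_cast (lst_ge h3).trans (lst_lt h3).le
    have e2 : ∫ c in (p.1 : ℝ)..1, pw w₁ (p :: L) c = ∫ c in (p.1 : ℝ)..1, pw w₁ L c := by
      refine intervalIntegral.integral_congr fun c hc => ?_
      rw [uIcc_of_le h4] at hc
      show pw w₁ (p :: L) c = pw w₁ L c
      rcases hc.1.lt_or_eq with h5 | h5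
      · simp only [pw, if_neg (not_le.2 h5)]
      · have e : c ≤ (p.1 : ℝ) := h5.ge
        simp only [pw, if_pos e]
        rw [← h5, pe_q, (pwOk_cons h).2.1, pw_nxt h3]
    rw [e1, e2, ih h3, int_pe, pe_q, pe_q]
    simp only [pwI]
    push_cast
    ring

/-- **the value at zero** -/
theorem Wp_zero {L : List (ℚ × List ℚ)} (h : pwOk w₁ 0 L = true) :
    Wp (pw w₁ L) (w₁ : ℝ) 0 = ((pwI w₁ 0 L : ℚ) : ℝ) := by
  have := pw_int h
  rw [Rat.cast_zero] at this
  rw [WPR.Wp_zero (wt h), this]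

theorem pw_cell {a : ℚ} {L : List (ℚ × List ℚ)} (h : pwOk w₁ a L = true) {t : ℚ × ℚ × List ℚ}
    (ht : t ∈ cells w₁ a L) {c : ℝ} (hc : c ∈ Icc (t.1 : ℝ) t.2.1) : a ≤ t.1 ∧ pw w₁ L c = pe t.2.2 c := by
  induction L generalizing a with
  | nil =>
    simp only [cells, List.mem_singleton] at ht
    subst ht
    refine ⟨le_rfl, ?_⟩
    simp [pw]
  | cons p L ih =>
    obtain ⟨h1, h2, h3⟩ := pwOk_cons h
    simp only [cells, List.mem_cons] at ht
    rcases ht with rfl | ht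
    · refine ⟨le_rfl, ?_⟩
      simp only [pw, if_pos hc.2]
    · obtain ⟨h4, h5⟩ := ih h3 ht
      refine ⟨h1.le.trans h4, ?_⟩
      have h6 : (p.1 : ℝ) ≤ c := le_trans (by exact_mod_cast h4) hc.1
      rcases h6.lt_or_eq with h7 | h7
      · simp only [pw, if_neg (not_le.2 h7)]
        exact h5
      · have e : c ≤ (p.1 : ℝ) := h7.ge
        simp only [pw, if_pos e]
        rw [← h5, ← h7, pe_q, h2, pw_nxt h3]

theorem cover {a : ℚ} {L : List (ℚ × List ℚ)} {c : ℝ} (h0 : (a : ℝ) ≤ c) (h1 : c ≤ 1) :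
    ∃ t ∈ cells w₁ a L, c ∈ Icc (t.1 : ℝ) t.2.1 := by
  induction L generalizing a with
  | nil => exact ⟨(a, 1, [w₁]), by simp [cells], h0, by push_cast; exact h1⟩
  | cons p L ih =>
    rcases le_total c (p.1 : ℝ) with h | h
    · exact ⟨(a, p.1, p.2), by simp [cells], h0, h⟩
    · obtain ⟨t, ht, hc⟩ := ih h
      exact ⟨t, by simp only [cells, List.mem_cons]; exact Or.inr ht, hc⟩

/-- **the equation of `W` on a cell** -/
theorem hW {L : List (ℚ × List ℚ)} (h : pwOk w₁ 0 L = true) {t : ℚ × ℚ × List ℚ} (ht : t ∈ cells w₁ 0 L)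
    {f : ℝ → ℝ} (hf : Re f) (hc : cF f ∈ Icc (t.1 : ℝ) t.2.1) :
    2 * cF f * Wp (pw w₁ L) w₁ (cF f) - X1 f ^ 2 * deriv (Wp (pw w₁ L) w₁) (cF f) = pe t.2.2 (cF f) := by
  rw [← (pw_cell h ht hc).2, ← Wp_eqn (wt h) (by linarith [hf.c0]) OM7.cF_le]
  have := hf.c2
  have e : X1 f ^ 2 = 1 - cF f ^ 2 := by linarith
  rw [e]

/-- **from the cells to all real states** -/
theorem of_cells {L : List (ℚ × List ℚ)} {P : (ℝ → ℝ) → Prop}
    (H : ∀ t ∈ cells w₁ 0 L, ∀ f, Re f → cF f ∈ Icc (t.1 : ℝ) t.2.1 → P f) : ∀ f, Re f → P f := by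
  intro f hf
  obtain ⟨t, ht, hc⟩ := cover (w₁ := w₁) (a := 0) (L := L) (c := cF f) (by rw [Rat.cast_zero]; exact hf.c0.le)
    OM7.cF_le
  exact H t ht f hf hc

end Pool.Agent.FPX.CEP
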