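import Mathlib
import Pool.Agent.FPX.CEZ
import Pool.Agent.FPX.XIZL

/-
CEUL (helper22): the linear start map as a list of terms (`SM` of `CEZ`): coefficients polynomial in `c`, no remainder.
-/

open MeasureTheory Set Filter Topology Complex
open scoped ComplexConjugate

noncomputable section

set_option linter.unusedSectionVars false
set_option linter.unusedSimpArgs false

namespace Pool.Agent.FPX.CEL

open Pool.Agent.FPX.BTQ
open Pool.Agent.FPX.F54 (X1 X2)
open Pool.Agent.FPX.OMS (cF)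
open Pool.Agent.FPX.OMR (Re)
open Pool.Agent.FPX.XIM (xi14)
open Pool.Agent.FPX.XIP (l14 Bst11 Bk14)
open Pool.Agent.FPX.BTI (kap dkap)
open Pool.Agent.FPX.BU (mup dmup)
open Pool.Agent.FPX.BV (PsiL dL psiLeL uL Lin0 devLe_L PsiZ PsiLe Dev7 DevLe7 devK7)

/-- the deviation of `xi14` for the data -/
def bxZ (D : DatZ) : Dev7 :=
  Bst11 (xi14 (kap D.kk) (mup D.nn) D.mm) (l14 (kap D.kk) (dkap D.kk D.kk') (mup D.nn) (dmup D.nn D.nn') D.mm D.mm')

theorem bxZ_eq (D : DatZ) :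
    devK7 (bxZ D) = Bk14 (kap D.kk) (dkap D.kk D.kk') (mup D.nn) (dmup D.nn D.nn') D.mm D.mm' := rfl

/-- **the components of `uL` as polynomials in `c`** -/
def DatZ.ul (D : DatZ) : Fin 24 → List ℚ :=
  ![[1],
    lin [(-1, 1, 1, pd (D.k 0))],
    lin [(-1, 1, 2, pd (D.k 1)), (8, 2, 1, D.k 1)],
    lin [(-1, 1, 2, pd (D.n 0))],
    lin [(-1, 1, 3, pd (D.n 1)), (12, 2, 2, D.n 1)],
    lin [(-1, 1, 1, pd (D.k 0)), (4, 2, 0, D.k 0)],
    lin [(-1, 1, 2, pd (D.k 1))],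
    lin [(-1, 1, 2, pd (D.n 0)), (8, 2, 1, D.n 0)],
    lin [(-1, 1, 3, pd (D.n 1))],
    lin [(1, 2, 1, pmul (D.k 0) (D.k 0))],
    lin [(2, 2, 2, pmul (D.k 0) (D.k 1))],
    lin [(1, 2, 3, pmul (D.k 1) (D.k 1))],
    lin [(2, 2, 2, pmul (D.k 0) (D.n 0))],
    lin [(2, 2, 3, pmul (D.k 0) (D.n 1))],
    lin [(2, 2, 3, pmul (D.k 1) (D.n 0))],
    lin [(2, 2, 4, pmul (D.k 1) (D.n 1))],
    lin [(1, 2, 3, pmul (D.n 0) (D.n 0))],
    lin [(2, 2, 4, pmul (D.n 0) (D.n 1))],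
    lin [(1, 2, 5, pmul (D.n 1) (D.n 1))],
    lin [(1, 0, 1, D.k 0)],
    lin [(1, 0, 2, D.k 1)],
    lin [(1, 0, 2, D.n 0)],
    lin [(1, 0, 3, D.n 1)],
    []]

/-- **only the four linear terms** -/
def DatZ.isLin (D : DatZ) : Bool :=
  decide (D.k 2 = []) && (decide (D.k 3 = []) && (decide (D.k 4 = []) && (decide (D.k 5 = [])
    && (decide (D.k 6 = []) && (decide (D.k 7 = []) && (decide (D.n 2 = []) && (decide (D.n 3 = [])
    && (decide (D.m 0 = []) && decide (D.m 1 = [])))))))))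

variable {D : DatZ}

theorem pd_nil (c : ℝ) : pe (pd ([] : List ℚ)) c = 0 := by
  rfl

theorem lin0_of (h : D.isLin = true) (c : ℝ) : Lin0 D.kk D.kk' D.nn D.nn' D.mm D.mm' c := by
  unfold DatZ.isLin at h
  simp only [Bool.and_eq_true, decide_eq_true_eq] at h
  obtain ⟨h2, h3, h4, h5, h6, h7, g2, g3, m0, m1⟩ := h
  have z : ∀ l : List ℚ, l = [] → pe l c = 0 := fun l hl => by rw [hl]; rfl
  have z' : ∀ l : List ℚ, l = [] → pe (pd l) c = 0 := fun l hl => by rw [hl]; exact pd_nil c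
  refine ⟨fun j hj => ?_, fun j hj => ?_, fun j hj => ?_, fun j hj => ?_, fun j => ?_, fun j => ?_⟩
  · unfold Dat.kk
    fin_cases j
    · exact absurd hj (by decide)
    · exact absurd hj (by decide)
    · exact z _ h2
    · exact z _ h3
    · exact z _ h4
    · exact z _ h5
    · exact z _ h6
    · exact z _ h7
  · unfold Dat.kk'
    fin_cases j
    · exact absurd hj (by decide)
    · exact absurd hj (by decide)
    · exact z' _ h2
    · exact z' _ h3
    · exact z' _ h4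
    · exact z' _ h5
    · exact z' _ h6
    · exact z' _ h7
  · unfold DatZ.nn
    fin_cases j
    · exact absurd hj (by decide)
    · exact absurd hj (by decide)
    · exact z _ g2
    · exact z _ g3
  · unfold DatZ.nn'
    fin_cases j
    · exact absurd hj (by decide)
    · exact absurd hj (by decide)
    · exact z' _ g2
    · exact z' _ g3
  · unfold DatZ.mm
    fin_cases j
    · exact z _ m0
    · exact z _ m1
  · unfold DatZ.mm'
    fin_cases j
    · exact z' _ m0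
    · exact z' _ m1

/-- **the vector `uL` is polynomial in `c`** -/
theorem ul_eq {s c : ℝ} (hs : s ^ 2 = 1 - c ^ 2) (q : Fin 24) :
    uL D.kk D.kk' D.nn D.nn' s c q = pe (D.ul q) c := by
  have h4 : (1 - c ^ 2) ^ 2 = s ^ 4 := by rw [← hs]; ring
  have h6 : (1 - c ^ 2) ^ 3 = s ^ 6 := by rw [← hs]; ring
  have h8 : (1 - c ^ 2) ^ 4 = s ^ 8 := by rw [← hs]; ring
  have h10 : (1 - c ^ 2) ^ 5 = s ^ 10 := by rw [← hs]; ring
  have h2 : (1 - c ^ 2) ^ 1 = s ^ 2 := by rw [← hs]; ring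
  fin_cases q
  · show (1 : ℝ) = pe [1] c
    simp
  iterate 22
    · simp only [uL, DatZ.ul, Dat.kk, Dat.kk', DatZ.nn, DatZ.nn', h2, h4, h6, h8, h10, pe_lin_cons, pe_lin_nil,
        pe_pmul, Fin.reduceFinMk, Fin.zero_eta, Fin.mk_one, Matrix.cons_val_zero, Matrix.cons_val_one,
        Matrix.cons_val]
      push_cast
      ring
  · show (0 : ℝ) = pe [] c
    simp

/-- the weights of the 24 terms, `dL` -/
def dLq : Fin 24 → ℚ :=
  ![8 / 5, 2 / 5, 2 / 5, 1, 1, 2 / 5, 2 / 5, 1, 1, 1 / 10, 1 / 10, 1 / 10, 1 / 4, 1 / 4, 1 / 4, 1 / 4,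
    5 / 8, 5 / 8, 5 / 8, 117 / 25, 117 / 25, 101 / 10, 101 / 10, 0]

theorem dLq_eq (q : Fin 24) : ((dLq q : ℚ) : ℝ) = dL q := by
  fin_cases q <;> simp [dLq, dL]

theorem dLq_nonneg (q : Fin 24) : 0 ≤ dLq q := by
  revert q
  decide +kernel

/-- **the linear start map as a list of terms, no remainder** -/
theorem smL (h : D.isLin = true) : SM PsiL dLq D.ul (bxZ D) 23 23 (fun _ => 0) where
  le := by
    have e : (fun q => ((dLq q : ℚ) : ℝ)) = dL := funext dLq_eq
    rw [e]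
    exact psiLeL
  d0 := dLq_nonneg
  dev := by
    intro f H
    have hs : X1 f ^ 2 = 1 - cF f ^ 2 := by
      have := H.c2
      linarith
    refine ⟨uL D.kk D.kk' D.nn D.nn' (X1 f) (cF f), devLe_L H (lin0_of h _), fun q _ _ => ul_eq hs q, ?_, fun h => ?_⟩
    · show (0 : ℝ) = (0 : ℂ).re
      simp
    · exact absurd rfl h

end Pool.Agent.FPX.CEL
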