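import Mathlib
import Pool.Agent.FPX.CEUL

/-
CEU (helper22): the coefficient vectors of the deviation of `xi14` (48 slots, and 53 slots with the exact square of the
linear terms) as polynomials in `c`; the start map `xi14` as a list of terms (`SM` of `CEZ`).
-/

open MeasureTheory Set Filter Topology Complex
open scoped ComplexConjugate

noncomputable section

set_option linter.unusedSectionVars false
set_option linter.unusedSimpArgs false

namespace Pool.Agent.FPX.CEL

open Pool.Agent.FPX.BTQ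
open Pool.Agent.FPX.BTG (mo)
open Pool.Agent.FPX.BTN (nf ef)
open Pool.Agent.FPX.CERQ (xT)
open Pool.Agent.FPX.F54 (X1 X2)
open Pool.Agent.FPX.OMS (cF)
open Pool.Agent.FPX.OMR (Re)
open Pool.Agent.FPX.BTI (kap dkap u8)
open Pool.Agent.FPX.BU (mup dmup w14 u12)
open Pool.Agent.FPX.BV (CZ u14 uX w6 put48 put53 sqv sqw lnX d14 dX Psi14 PsiX psiLe14 psiLeX tau14 tauX devLe_B14
  devLe_BX)

/-! ### vectors put together -/

section

variable {α : Type}

/-- 28 + 14 components, two of them replaced -/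
def P42 (a : Fin 28 → α) (x y : α) (b : Fin 14 → α) : Fin 42 → α :=
  ![a 0, a 1, a 2, a 3, a 4, a 5, a 6, a 7, a 8, a 9, a 10, a 11, a 12, a 13, a 14, a 15, a 16, a 17, a 18, a 19, a
    20, a 21, a 22, a 23, a 24, a 25, x, y, b 0, b 1, b 2, b 3, b 4, b 5, b 6, b 7, b 8, b 9, b 10, b 11, b 12, b 13]

/-- 42 + 6 components -/
def P48 (u : Fin 42 → α) (w : Fin 6 → α) : Fin 48 → α :=
  ![u 0, u 1, u 2, u 3, u 4, u 5, u 6, u 7, u 8, u 9, u 10, u 11, u 12, u 13, u 14, u 15, u 16, u 17, u 18, u 19, u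
    20, u 21, u 22, u 23, u 24, u 25, u 26, u 27, u 28, u 29, u 30, u 31, u 32, u 33, u 34, u 35, u 36, u 37, u 38,
    u 39, u 40, u 41, w 0, w 1, w 2, w 3, w 4, w 5]

/-- 48 + 5 components -/
def P53 (u : Fin 48 → α) (w : Fin 5 → α) : Fin 53 → α :=
  ![u 0, u 1, u 2, u 3, u 4, u 5, u 6, u 7, u 8, u 9, u 10, u 11, u 12, u 13, u 14, u 15, u 16, u 17, u 18, u 19, u
    20, u 21, u 22, u 23, u 24, u 25, u 26, u 27, u 28, u 29, u 30, u 31, u 32, u 33, u 34, u 35, u 36, u 37, u 38,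
    u 39, u 40, u 41, u 42, u 43, u 44, u 45, u 46, u 47, w 0, w 1, w 2, w 3, w 4]

theorem P42_congr {a a' : Fin 28 → α} {x y x' y' : α} {b b' : Fin 14 → α}
    (h : ∀ i, i ≠ 26 → i ≠ 27 → a i = a' i) (h' : ∀ i, b i = b' i) (q : Fin 42) (h1 : q ≠ 26) (h2 : q ≠ 27) :
    P42 a x y b q = P42 a' x' y' b' q := by
  fin_cases q
  · exact h 0 (by decide) (by decide)
  · exact h 1 (by decide) (by decide)
  · exact h 2 (by decide) (by decide)
  · exact h 3 (by decide) (by decide)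
  · exact h 4 (by decide) (by decide)
  · exact h 5 (by decide) (by decide)
  · exact h 6 (by decide) (by decide)
  · exact h 7 (by decide) (by decide)
  · exact h 8 (by decide) (by decide)
  · exact h 9 (by decide) (by decide)
  · exact h 10 (by decide) (by decide)
  · exact h 11 (by decide) (by decide)
  · exact h 12 (by decide) (by decide)
  · exact h 13 (by decide) (by decide)
  · exact h 14 (by decide) (by decide)
  · exact h 15 (by decide) (by decide)
  · exact h 16 (by decide) (by decide)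
  · exact h 17 (by decide) (by decide)
  · exact h 18 (by decide) (by decide)
  · exact h 19 (by decide) (by decide)
  · exact h 20 (by decide) (by decide)
  · exact h 21 (by decide) (by decide)
  · exact h 22 (by decide) (by decide)
  · exact h 23 (by decide) (by decide)
  · exact h 24 (by decide) (by decide)
  · exact h 25 (by decide) (by decide)
  · exact absurd rfl h1
  · exact absurd rfl h2
  · exact h' 0
  · exact h' 1
  · exact h' 2
  · exact h' 3
  · exact h' 4
  · exact h' 5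
  · exact h' 6
  · exact h' 7
  · exact h' 8
  · exact h' 9
  · exact h' 10
  · exact h' 11
  · exact h' 12
  · exact h' 13

theorem P48_congr {u u' : Fin 42 → α} {w w' : Fin 6 → α}
    (h : ∀ i, i ≠ 26 → i ≠ 27 → u i = u' i) (h' : ∀ i, w i = w' i) (q : Fin 48) (h1 : q ≠ 26) (h2 : q ≠ 27) :
    P48 u w q = P48 u' w' q := by
  fin_cases q
  · exact h 0 (by decide) (by decide)
  · exact h 1 (by decide) (by decide)
  · exact h 2 (by decide) (by decide)
  · exact h 3 (by decide) (by decide)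
  · exact h 4 (by decide) (by decide)
  · exact h 5 (by decide) (by decide)
  · exact h 6 (by decide) (by decide)
  · exact h 7 (by decide) (by decide)
  · exact h 8 (by decide) (by decide)
  · exact h 9 (by decide) (by decide)
  · exact h 10 (by decide) (by decide)
  · exact h 11 (by decide) (by decide)
  · exact h 12 (by decide) (by decide)
  · exact h 13 (by decide) (by decide)
  · exact h 14 (by decide) (by decide)
  · exact h 15 (by decide) (by decide)
  · exact h 16 (by decide) (by decide)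
  · exact h 17 (by decide) (by decide)
  · exact h 18 (by decide) (by decide)
  · exact h 19 (by decide) (by decide)
  · exact h 20 (by decide) (by decide)
  · exact h 21 (by decide) (by decide)
  · exact h 22 (by decide) (by decide)
  · exact h 23 (by decide) (by decide)
  · exact h 24 (by decide) (by decide)
  · exact h 25 (by decide) (by decide)
  · exact absurd rfl h1
  · exact absurd rfl h2
  · exact h 28 (by decide) (by decide)
  · exact h 29 (by decide) (by decide)
  · exact h 30 (by decide) (by decide)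
  · exact h 31 (by decide) (by decide)
  · exact h 32 (by decide) (by decide)
  · exact h 33 (by decide) (by decide)
  · exact h 34 (by decide) (by decide)
  · exact h 35 (by decide) (by decide)
  · exact h 36 (by decide) (by decide)
  · exact h 37 (by decide) (by decide)
  · exact h 38 (by decide) (by decide)
  · exact h 39 (by decide) (by decide)
  · exact h 40 (by decide) (by decide)
  · exact h 41 (by decide) (by decide)
  · exact h' 0
  · exact h' 1
  · exact h' 2
  · exact h' 3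
  · exact h' 4
  · exact h' 5

theorem P53_congr {u u' : Fin 48 → α} {w w' : Fin 5 → α}
    (h : ∀ i, i ≠ 26 → i ≠ 27 → u i = u' i) (h' : ∀ i, w i = w' i) (q : Fin 53) (h1 : q ≠ 26) (h2 : q ≠ 27) :
    P53 u w q = P53 u' w' q := by
  fin_cases q
  · exact h 0 (by decide) (by decide)
  · exact h 1 (by decide) (by decide)
  · exact h 2 (by decide) (by decide)
  · exact h 3 (by decide) (by decide)
  · exact h 4 (by decide) (by decide)
  · exact h 5 (by decide) (by decide)
  · exact h 6 (by decide) (by decide)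
  · exact h 7 (by decide) (by decide)
  · exact h 8 (by decide) (by decide)
  · exact h 9 (by decide) (by decide)
  · exact h 10 (by decide) (by decide)
  · exact h 11 (by decide) (by decide)
  · exact h 12 (by decide) (by decide)
  · exact h 13 (by decide) (by decide)
  · exact h 14 (by decide) (by decide)
  · exact h 15 (by decide) (by decide)
  · exact h 16 (by decide) (by decide)
  · exact h 17 (by decide) (by decide)
  · exact h 18 (by decide) (by decide)
  · exact h 19 (by decide) (by decide)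
  · exact h 20 (by decide) (by decide)
  · exact h 21 (by decide) (by decide)
  · exact h 22 (by decide) (by decide)
  · exact h 23 (by decide) (by decide)
  · exact h 24 (by decide) (by decide)
  · exact h 25 (by decide) (by decide)
  · exact absurd rfl h1
  · exact absurd rfl h2
  · exact h 28 (by decide) (by decide)
  · exact h 29 (by decide) (by decide)
  · exact h 30 (by decide) (by decide)
  · exact h 31 (by decide) (by decide)
  · exact h 32 (by decide) (by decide)
  · exact h 33 (by decide) (by decide)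
  · exact h 34 (by decide) (by decide)
  · exact h 35 (by decide) (by decide)
  · exact h 36 (by decide) (by decide)
  · exact h 37 (by decide) (by decide)
  · exact h 38 (by decide) (by decide)
  · exact h 39 (by decide) (by decide)
  · exact h 40 (by decide) (by decide)
  · exact h 41 (by decide) (by decide)
  · exact h 42 (by decide) (by decide)
  · exact h 43 (by decide) (by decide)
  · exact h 44 (by decide) (by decide)
  · exact h 45 (by decide) (by decide)
  · exact h 46 (by decide) (by decide)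
  · exact h 47 (by decide) (by decide)
  · exact h' 0
  · exact h' 1
  · exact h' 2
  · exact h' 3
  · exact h' 4

end

set_option maxRecDepth 8000 in
theorem P42_pe (a : Fin 28 → List ℚ) (x y : List ℚ) (b : Fin 14 → List ℚ) (c : ℝ) (q : Fin 42) :
    pe (P42 a x y b q) c = P42 (fun i => pe (a i) c) (pe x c) (pe y c) (fun i => pe (b i) c) q := by
  fin_cases q <;> rfl

set_option maxRecDepth 8000 in
theorem P48_pe (u : Fin 42 → List ℚ) (w : Fin 6 → List ℚ) (c : ℝ) (q : Fin 48) :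
    pe (P48 u w q) c = P48 (fun i => pe (u i) c) (fun i => pe (w i) c) q := by
  fin_cases q <;> rfl

set_option maxRecDepth 8000 in
theorem P53_pe (u : Fin 48 → List ℚ) (w : Fin 5 → List ℚ) (c : ℝ) (q : Fin 53) :
    pe (P53 u w q) c = P53 (fun i => pe (u i) c) (fun i => pe (w i) c) q := by
  fin_cases q <;> rfl

set_option maxRecDepth 8000 in
theorem u12_P (k k' : Fin 8 → ℝ → ℝ) (n n' : Fin 4 → ℝ → ℝ) (s c : ℝ) (τ : ℂ) :
    u12 k k' n n' s c τ = P42 (u8 k k' s c τ) τ.re τ.im (w14 n n' s c) := rfl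

set_option maxRecDepth 8000 in
theorem put48_P (u : Fin 42 → ℝ) (w : Fin 6 → ℝ) : put48 u w = P48 u w := rfl

set_option maxRecDepth 8000 in
theorem put53_P (u : Fin 48 → ℝ) (w : Fin 5 → ℝ) : put53 u w = P53 u w := rfl

/-! ### the polynomials -/

/-- the components of `w14` as polynomials in `c` -/
def DatZ.wp (D : DatZ) : Fin 14 → List ℚ :=
  ![lin [(-1, 1, 2, pd (D.n 0))],
    lin [(-1, 1, 3, pd (D.n 1)), (12, 2, 2, D.n 1)],
    lin [(-2, 1, 1, pd (D.n 2)), (12, 2, 0, D.n 2), (2, 0, 1, D.n 2)],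
    lin [(-2, 1, 1, pd (D.n 3)), (4, 2, 0, D.n 3), (2, 0, 1, D.n 3)],
    lin [(-1, 1, 2, pd (D.n 0)), (8, 2, 1, D.n 0)],
    lin [(-1, 1, 3, pd (D.n 1))],
    lin [(-2, 1, 1, pd (D.n 2)), (2, 0, 1, D.n 2)],
    lin [(-2, 1, 1, pd (D.n 3)), (8, 2, 0, D.n 3), (2, 0, 1, D.n 3)],
    lin [(2, 0, 1, D.n 2)],
    lin [(2, 0, 1, D.n 3)],
    lin [(1, 0, 2, D.n 0)],
    lin [(2, 0, 1, D.n 3)],
    lin [(1, 0, 3, D.n 1)],
    lin [(2, 0, 1, D.n 2)]]

/-- the components of `w6` as polynomials in `c` -/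
def DatZ.w6p (D : DatZ) : Fin 6 → List ℚ :=
  ![lin [(-1 / 2, 1, 1, pd (D.m 0)), (1 / 2, 0, 1, D.m 0)],
    lin [(-1 / 2, 1, 2, pd (D.m 1)), (5, 2, 1, D.m 1), (1 / 2, 0, 2, D.m 1)],
    lin [(-1 / 2, 1, 1, pd (D.m 0)), (3, 2, 0, D.m 0), (1 / 2, 0, 1, D.m 0)],
    lin [(-1 / 2, 1, 2, pd (D.m 1)), (1 / 2, 0, 2, D.m 1)],
    lin [(1, 0, 1, D.m 0)],
    lin [(1, 0, 2, D.m 1)]]

/-- the products of the linear terms as polynomials in `c`: `2 a b, b², 2 a e, 2 b d, 2 a d, 2 b e, d², 2 d e, e²` -/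
def DatZ.sqp (D : DatZ) : Fin 9 → List ℚ :=
  ![lin [(2, 2, 2, pmul (D.k 0) (D.k 1))],
    lin [(1, 2, 3, pmul (D.k 1) (D.k 1))],
    lin [(2, 2, 3, pmul (D.k 0) (D.n 1))],
    lin [(2, 2, 3, pmul (D.k 1) (D.n 0))],
    lin [(2, 2, 2, pmul (D.k 0) (D.n 0))],
    lin [(2, 2, 4, pmul (D.k 1) (D.n 1))],
    lin [(1, 2, 3, pmul (D.n 0) (D.n 0))],
    lin [(2, 2, 4, pmul (D.n 0) (D.n 1))],
    lin [(1, 2, 5, pmul (D.n 1) (D.n 1))]]

/-- **the components of `u14` as polynomials in `c`** (without the remainder, slots 26, 27) -/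
def DatZ.uz (D : DatZ) : Fin 48 → List ℚ := P48 (P42 D.up [] [] D.wp) D.w6p

/-- the components of `sqv` as polynomials in `c` -/
def DatZ.sv (D : DatZ) (q : Fin 48) : List ℚ :=
  if q = 11 then D.sqp 0 else if q = 13 then D.sqp 1 else if q = 34 then D.sqp 2 else if q = 35 then D.sqp 3 else []

/-- **the components of `uX` as polynomials in `c`** (without the remainder, slots 26, 27) -/
def DatZ.ux (D : DatZ) : Fin 53 → List ℚ :=
  P53 (fun q => padd (D.uz q) (D.sv q)) ![D.sqp 4, D.sqp 5, D.sqp 6, D.sqp 7, D.sqp 8]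

variable {D : DatZ}

theorem wp_eq {s c : ℝ} (hs : s ^ 2 = 1 - c ^ 2) (q : Fin 14) : w14 D.nn D.nn' s c q = pe (D.wp q) c := by
  have h4 : s ^ 4 = (1 - c ^ 2) ^ 2 := by rw [← hs]; ring
  have h6 : s ^ 6 = (1 - c ^ 2) ^ 3 := by rw [← hs]; ring
  fin_cases q <;>
    · simp only [w14, DatZ.wp, DatZ.nn, DatZ.nn', hs, h4, h6, pe_lin_cons, pe_lin_nil, pe_pmul, Fin.reduceFinMk,
        Fin.zero_eta, Fin.mk_one, Matrix.cons_val_zero, Matrix.cons_val_one, Matrix.cons_val]
      push_cast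
      ring

theorem w6p_eq {s c : ℝ} (hs : s ^ 2 = 1 - c ^ 2) (q : Fin 6) : w6 D.mm D.mm' s c q = pe (D.w6p q) c := by
  have h4 : s ^ 4 = (1 - c ^ 2) ^ 2 := by rw [← hs]; ring
  fin_cases q <;>
    · simp only [w6, DatZ.w6p, DatZ.mm, DatZ.mm', hs, h4, pe_lin_cons, pe_lin_nil, pe_pmul, Fin.reduceFinMk,
        Fin.zero_eta, Fin.mk_one, Matrix.cons_val_zero, Matrix.cons_val_one, Matrix.cons_val]
      push_cast
      ring

/-- the products of the linear terms -/
def sq9 (a b d e : ℝ) : Fin 9 → ℝ :=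
  ![2 * a * b, b ^ 2, 2 * a * e, 2 * b * d, 2 * a * d, 2 * b * e, d ^ 2, 2 * d * e, e ^ 2]

theorem sqp_eq {s c : ℝ} (hs : s ^ 2 = 1 - c ^ 2) (q : Fin 9) :
    sq9 (lnX D.kk D.nn s c 0) (lnX D.kk D.nn s c 1) (lnX D.kk D.nn s c 2) (lnX D.kk D.nn s c 3) q =
      pe (D.sqp q) c := by
  have h4 : (1 - c ^ 2) ^ 2 = s ^ 4 := by rw [← hs]; ring
  have h6 : (1 - c ^ 2) ^ 3 = s ^ 6 := by rw [← hs]; ring
  have h8 : (1 - c ^ 2) ^ 4 = s ^ 8 := by rw [← hs]; ring
  have h10 : (1 - c ^ 2) ^ 5 = s ^ 10 := by rw [← hs]; ring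
  fin_cases q <;>
    · simp only [sq9, lnX, DatZ.sqp, Dat.kk, DatZ.nn, h4, h6, h8, h10, pe_lin_cons, pe_lin_nil, pe_pmul,
        Fin.reduceFinMk, Fin.zero_eta, Fin.mk_one, Matrix.cons_val_zero, Matrix.cons_val_one, Matrix.cons_val]
      push_cast
      ring

/-- **the vector `u14` is polynomial in `c`** -/
theorem uz_eq {s c : ℝ} (hs : s ^ 2 = 1 - c ^ 2) (τ : ℂ) (q : Fin 48) (h26 : q ≠ 26) (h27 : q ≠ 27) :
    u14 D.kk D.kk' D.nn D.nn' D.mm D.mm' s c τ q = pe (D.uz q) c := by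
  unfold u14 DatZ.uz
  rw [put48_P, u12_P, P48_pe]
  refine P48_congr (fun i h1 h2 => ?_) (fun i => w6p_eq hs i) q h26 h27
  rw [P42_pe]
  exact P42_congr (fun i h1 h2 => up_eq (D := D.toDat) hs τ i h1 h2) (fun i => wp_eq hs i) i h1 h2

theorem sv_eq {s c : ℝ} (hs : s ^ 2 = 1 - c ^ 2) (q : Fin 48) :
    sqv (lnX D.kk D.nn s c 0) (lnX D.kk D.nn s c 1) (lnX D.kk D.nn s c 2) (lnX D.kk D.nn s c 3) q =
      pe (D.sv q) c := by
  have k0 := sqp_eq (D := D) hs 0
  have k1 := sqp_eq (D := D) hs 1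
  have k2 := sqp_eq (D := D) hs 2
  have k3 := sqp_eq (D := D) hs 3
  unfold sqv DatZ.sv
  split_ifs
  · exact k0
  · exact k1
  · exact k2
  · exact k3
  · rfl

/-- **the vector `uX` is polynomial in `c`** -/
theorem ux_eq {s c : ℝ} (hs : s ^ 2 = 1 - c ^ 2) (τ : ℂ) (q : Fin 53) (h26 : q ≠ 26) (h27 : q ≠ 27) :
    uX D.kk D.kk' D.nn D.nn' D.mm D.mm' s c τ q = pe (D.ux q) c := by
  unfold uX DatZ.ux
  rw [put53_P, P53_pe]
  refine P53_congr (fun i h1 h2 => ?_) (fun i => ?_) q h26 h27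
  · rw [pe_padd, uz_eq hs τ i h1 h2, sv_eq hs i]
  · have k4 := sqp_eq (D := D) hs 4
    have k5 := sqp_eq (D := D) hs 5
    have k6 := sqp_eq (D := D) hs 6
    have k7 := sqp_eq (D := D) hs 7
    have k8 := sqp_eq (D := D) hs 8
    fin_cases i
    · exact k4
    · exact k5
    · exact k6
    · exact k7
    · exact k8

set_option maxRecDepth 8000 in
theorem u14_26 {s c : ℝ} (τ : ℂ) : u14 D.kk D.kk' D.nn D.nn' D.mm D.mm' s c τ 26 = τ.re := rfl

set_option maxRecDepth 8000 in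
theorem u14_27 {s c : ℝ} (τ : ℂ) : u14 D.kk D.kk' D.nn D.nn' D.mm D.mm' s c τ 27 = τ.im := rfl

theorem sqv_zero (a b d e : ℝ) (q : Fin 48) (h1 : q ≠ 11) (h2 : q ≠ 13) (h3 : q ≠ 34) (h4 : q ≠ 35) :
    sqv a b d e q = 0 := by
  unfold sqv
  rw [if_neg h1, if_neg h2, if_neg h3, if_neg h4]

set_option maxRecDepth 8000 in
theorem uX_26 {s c : ℝ} (τ : ℂ) : uX D.kk D.kk' D.nn D.nn' D.mm D.mm' s c τ 26 = τ.re := by
  unfold uX
  have e : ∀ (u : Fin 48 → ℝ) (w : Fin 5 → ℝ), put53 u w 26 = u 26 := fun _ _ => rfl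
  rw [e, u14_26, sqv_zero _ _ _ _ _ (by decide) (by decide) (by decide) (by decide), add_zero]

set_option maxRecDepth 8000 in
theorem uX_27 {s c : ℝ} (τ : ℂ) : uX D.kk D.kk' D.nn D.nn' D.mm D.mm' s c τ 27 = τ.im := by
  unfold uX
  have e : ∀ (u : Fin 48 → ℝ) (w : Fin 5 → ℝ), put53 u w 27 = u 27 := fun _ _ => rfl
  rw [e, u14_27, sqv_zero _ _ _ _ _ (by decide) (by decide) (by decide) (by decide), add_zero]

/-! ### the weights -/

/-- the weights of the 48 terms, `d14` -/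
def d14q : Fin 48 → ℚ :=
  ![8 / 5, 2 / 5, 2 / 5, 1 / 10, 1 / 10, 1 / 10, 5 / 8, 5 / 8, 5 / 8, 2 / 5, 2 / 5, 1 / 10, 1 / 10, 1 / 10,
    5 / 8, 5 / 8, 5 / 8, 5, 6 / 5, 6 / 5, 5, 6 / 5, 6 / 5, 3, 3, 1, 8 / 5, 8 / 5,
    1, 1, 1 / 4, 1 / 4, 1, 1, 1 / 4, 1 / 4, 3, 3, 101 / 10, 101 / 40, 101 / 10, 101 / 40,
    5 / 8, 5 / 8, 5 / 8, 5 / 8, 23 / 5, 23 / 5]

set_option maxRecDepth 8000 in
theorem d14q_eq (q : Fin 48) : ((d14q q : ℚ) : ℝ) = d14 q := by
  fin_cases q <;> simp [d14q, d14]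

set_option maxRecDepth 8000 in
theorem d14q_nonneg (q : Fin 48) : 0 ≤ d14q q := by
  revert q
  decide +kernel

/-- the weights of the 53 terms, `dX` -/
def dXq : Fin 53 → ℚ :=
  ![8 / 5, 2 / 5, 2 / 5, 1 / 10, 1 / 10, 1 / 10, 5 / 8, 5 / 8, 5 / 8, 2 / 5, 2 / 5, 1 / 10, 1 / 10, 1 / 10,
    5 / 8, 5 / 8, 5 / 8, 5, 6 / 5, 6 / 5, 5, 6 / 5, 6 / 5, 3, 3, 1, 8 / 5, 8 / 5,
    1, 1, 1 / 4, 1 / 4, 1, 1, 1 / 4, 1 / 4, 3, 3, 101 / 10, 101 / 40, 101 / 10, 101 / 40,
    5 / 8, 5 / 8, 5 / 8, 5 / 8, 23 / 5, 23 / 5, 1 / 4, 1 / 4, 5 / 8, 5 / 8, 5 / 8]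

set_option maxRecDepth 8000 in
theorem dXq_eq (q : Fin 53) : ((dXq q : ℚ) : ℝ) = dX q := by
  fin_cases q <;> simp [dXq, dX]

set_option maxRecDepth 8000 in
theorem dXq_nonneg (q : Fin 53) : 0 ≤ dXq q := by
  revert q
  decide +kernel

/-! ### the start maps as lists of terms -/

set_option maxRecDepth 8000 in
/-- **`xi14`, 48 terms** -/
theorem sm14 (D : DatZ) : SM Psi14 d14q D.uz (bxZ D) 26 27
    (fun f => tau14 D.kk D.nn D.mm f (mo (CZ Psi14) (nf f) (xT f) (ef f) 0)) where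
  le := by
    have e : (fun q => ((d14q q : ℚ) : ℝ)) = d14 := funext d14q_eq
    rw [e]
    exact psiLe14
  d0 := d14q_nonneg
  dev := by
    intro f H
    have hs : X1 f ^ 2 = 1 - cF f ^ 2 := by
      have := H.c2
      linarith
    exact ⟨_, devLe_B14 H D.kk D.kk' D.nn D.nn' D.mm D.mm', fun q h1 h2 => uz_eq hs _ q h1 h2, rfl, fun _ => rfl⟩

set_option maxRecDepth 8000 in
/-- **`xi14` with the exact square of the linear terms, 53 terms** -/
theorem smX (D : DatZ) : SM PsiX dXq D.ux (bxZ D) 26 27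
    (fun f => tauX D.kk D.nn D.mm f (mo (CZ PsiX) (nf f) (xT f) (ef f) 0)
      (mo (CZ PsiX) (nf f) (xT f) (ef f) 1)) where
  le := by
    have e : (fun q => ((dXq q : ℚ) : ℝ)) = dX := funext dXq_eq
    rw [e]
    exact psiLeX
  d0 := dXq_nonneg
  dev := by
    intro f H
    have hs : X1 f ^ 2 = 1 - cF f ^ 2 := by
      have := H.c2
      linarith
    exact ⟨_, devLe_BX H D.kk D.kk' D.nn D.nn' D.mm D.mm', fun q h1 h2 => ux_eq hs _ q h1 h2, uX_26 _,
      fun _ => uX_27 _⟩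

end Pool.Agent.FPX.CEL
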