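import Mathlib
import Pool.Agent.FPX.CEZE

/-
CHC (helper26): the latitude cell of CEZE with the distance from the Bernstein polynomials measured in the Chebyshev
basis (the sum of the absolute values of the Chebyshev coefficients instead of the sum of those of the powers).
-/

open MeasureTheory Set Filter Topology Complex
open scoped ComplexConjugate

noncomputable section

set_option linter.unusedSectionVars false
set_option linter.unusedSimpArgs false

namespace Pool.Agent.FPX.CEL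

open Pool.Agent.FPX.BTQ
open Pool.Agent.FPX.BTG (Sta Cls mo aK bK dev)
open Pool.Agent.FPX.ALX
open Pool.Agent.FPX.BTN (va e1 nf ef PolR pa pg bw bw_nonneg bw_sum)
open Pool.Agent.FPX.F54 (X1 X2)
open Pool.Agent.FPX.OMS (cF)
open Pool.Agent.FPX.CERQ (xT)
open Pool.Agent.FPX.OMR (Re)
open Pool.Agent.FPX.BU (PolH ph)
open Pool.Agent.FPX.BV (CZ PsiZ PsiLe Dev7 DevLe7 devK7 cZ)
open Pool.Agent.FPX.OMY (CertAtZ)

/-! ### the Chebyshev basis -/

/-- `∑ l_i cos ((k + i) t)` -/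
def ct : ℕ → List ℚ → ℝ → ℝ
  | _, [], _ => 0
  | k, a :: l, t => (a : ℝ) * Real.cos ((k : ℝ) * t) + ct (k + 1) l t

@[simp] theorem ct_nil (k : ℕ) (t : ℝ) : ct k [] t = 0 := rfl

@[simp] theorem ct_cons (k : ℕ) (a : ℚ) (l : List ℚ) (t : ℝ) :
    ct k (a :: l) t = (a : ℝ) * Real.cos ((k : ℝ) * t) + ct (k + 1) l t := rfl

theorem ct_padd (l l' : List ℚ) (t : ℝ) : ∀ k, ct k (padd l l') t = ct k l t + ct k l' t := by
  induction l generalizing l' with
  | nil => intro k; simp [padd]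
  | cons a l ih =>
    intro k
    cases l' with
    | nil => simp [padd]
    | cons b l' =>
      simp only [padd, ct_cons, ih]
      push_cast
      ring

theorem ct_psm (r : ℚ) (l : List ℚ) (t : ℝ) : ∀ k, ct k (psm r l) t = r * ct k l t := by
  induction l with
  | nil => intro k; simp [psm]
  | cons a l ih =>
    intro k
    have : psm r (a :: l) = (r * a) :: psm r l := rfl
    rw [this, ct_cons, ct_cons, ih]
    push_cast
    ring

theorem abs_ct_le (l : List ℚ) (t : ℝ) : ∀ k, |ct k l t| ≤ n1 l := by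
  induction l with
  | nil => intro k; simp [n1]
  | cons a l ih =>
    intro k
    have e : n1 (a :: l) = |a| + n1 l := rfl
    rw [e, ct_cons]
    push_cast
    refine (abs_add_le _ _).trans (add_le_add ?_ (ih (k + 1)))
    rw [abs_mul]
    calc |(a : ℝ)| * |Real.cos ((k : ℝ) * t)| ≤ |(a : ℝ)| * 1 :=
          mul_le_mul_of_nonneg_left (Real.abs_cos_le_one _) (abs_nonneg _)
      _ = |(a : ℝ)| := mul_one _

/-- the product with `cos t`, shifted index -/
theorem cos_mul_ct (l : List ℚ) (t : ℝ) : ∀ k, Real.cos t * ct (k + 1) l t = (ct (k + 2) l t + ct k l t) / 2 := by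
  induction l with
  | nil => intro k; simp
  | cons a l ih =>
    intro k
    have h := ih (k + 1)
    have e : Real.cos t * Real.cos (((k + 1 : ℕ) : ℝ) * t) =
        (Real.cos (((k + 2 : ℕ) : ℝ) * t) + Real.cos ((k : ℝ) * t)) / 2 := by
      have h1 : ((k + 2 : ℕ) : ℝ) * t = ((k + 1 : ℕ) : ℝ) * t + t := by push_cast; ring
      have h2 : (k : ℝ) * t = ((k + 1 : ℕ) : ℝ) * t - t := by push_cast; ring
      rw [h1, h2, Real.cos_add, Real.cos_sub]
      ring
    simp only [ct_cons]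
    calc Real.cos t * ((a : ℝ) * Real.cos (((k + 1 : ℕ) : ℝ) * t) + ct (k + 1 + 1) l t)
        = a * (Real.cos t * Real.cos (((k + 1 : ℕ) : ℝ) * t)) + Real.cos t * ct (k + 1 + 1) l t := by ring
      _ = a * ((Real.cos (((k + 2 : ℕ) : ℝ) * t) + Real.cos ((k : ℝ) * t)) / 2)
          + (ct (k + 1 + 2) l t + ct (k + 1) l t) / 2 := by rw [e, h]
      _ = _ := by
        have h3 : k + 2 + 1 = k + 1 + 2 := by omega
        rw [h3]
        ring

/-- multiplication by the variable in the Chebyshev basis -/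
def chx : List ℚ → List ℚ
  | [] => []
  | a :: l => padd (0 :: psm (1 / 2) (a :: l)) (padd (psm (1 / 2) l) [0, a / 2])

theorem ct_chx (l : List ℚ) (t : ℝ) : ct 0 (chx l) t = Real.cos t * ct 0 l t := by
  cases l with
  | nil => simp [chx]
  | cons a l =>
    have h : Real.cos t * ct 1 l t = (ct 2 l t + ct 0 l t) / 2 := cos_mul_ct l t 0
    have e0 : ct 0 (0 :: psm (1 / 2) (a :: l)) t = 1 / 2 * (a * Real.cos t + ct 2 l t) := by
      rw [ct_cons, ct_psm, ct_cons]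
      have e : ct (0 + 1 + 1) l t = ct 2 l t := rfl
      rw [e]
      push_cast
      ring_nf
    have e1 : ct 0 [0, a / 2] t = a / 2 * Real.cos t := by
      rw [ct_cons, ct_cons, ct_nil]
      push_cast
      ring_nf
    have e2 : ct 0 (a :: l) t = a + ct 1 l t := by
      rw [ct_cons]
      have e : ct (0 + 1) l t = ct 1 l t := rfl
      rw [e]
      simp
    rw [chx, ct_padd, ct_padd, e0, e1, e2, ct_psm]
    push_cast
    linear_combination (-1 : ℝ) * h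

/-- the coefficients in the Chebyshev basis -/
def tocheb : List ℚ → List ℚ
  | [] => []
  | a :: l => padd [a] (chx (tocheb l))

theorem ct_tocheb (l : List ℚ) (t : ℝ) : ct 0 (tocheb l) t = pe l (Real.cos t) := by
  induction l with
  | nil => simp [tocheb]
  | cons a l ih =>
    rw [tocheb, ct_padd, ct_chx, ih, pe_cons]
    simp

/-- the norm: the sum of the absolute values of the Chebyshev coefficients -/
def nc (l : List ℚ) : ℚ := n1 (tocheb l)

theorem abs_pe_le_nc (l : List ℚ) {x : ℝ} (hx : |x| ≤ 1) : |pe l x| ≤ nc l := by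
  obtain ⟨h1, h2⟩ := abs_le.1 hx
  have e : pe l x = ct 0 (tocheb l) (Real.arccos x) := by
    rw [ct_tocheb, Real.cos_arccos h1 h2]
  rw [e]
  exact abs_ct_le _ _ _

/-! ### the distance -/

section

variable {m n N : ℕ}

/-- the weighted distance of the polynomials `P` from `r` times the Bernstein polynomials of the control vectors, Chebyshev
norm -/
def dsc (P : Fin n → List ℚ) (a b r : ℚ) (V : Fin (m + 1) → Fin n → ℚ) (w : Fin n → ℚ) : ℚ :=
  (List.finRange n).foldr (fun i y =>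
    nc (padd (pcomp (P i) ((a + b) / 2) ((b - a) / 2)) (psm (-r) (bpx m (ex V i)))) * w i + y) 0

theorem dsc_sound {P : Fin n → List ℚ} {a b r : ℚ} {V : Fin (m + 1) → Fin n → ℚ} {w : Fin n → ℚ} (hab : a < b)
    (hw : ∀ i, 0 ≤ w i) {c : ℝ} (hc : c ∈ Icc (a : ℝ) b) :
    ∑ i, |pe (P i) c - r * (∑ j ∈ Finset.range (m + 1), bw m (tt a b c) j * (ex V i j : ℝ))| * (w i : ℝ) ≤
      dsc P a b r V w := by
  obtain ⟨x, hx, hcx, ht⟩ := cell_x hab hc
  unfold dsc
  rw [foldr_eq (fun i => nc (padd (pcomp (P i) ((a + b) / 2) ((b - a) / 2))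
    (psm (-r) (bpx m (ex V i)))) * w i)]
  push_cast
  refine Finset.sum_le_sum fun i _ => ?_
  have h5 : (0 : ℝ) ≤ w i := by exact_mod_cast hw i
  refine mul_le_mul_of_nonneg_right ?_ h5
  have h := abs_pe_le_nc (padd (pcomp (P i) ((a + b) / 2) ((b - a) / 2)) (psm (-r) (bpx m (ex V i)))) hx
  rw [pe_padd, pe_psm, pe_pcomp, hcx, pe_bpx, ← ht] at h
  refine le_trans (le_of_eq ?_) h
  congr 1
  push_cast
  ring

end

/-! ### the cell -/

section

variable {J L X : Type} [Fintype J] [Fintype L] [MeasurableSpace X] {ν : Measure X} {D : X → ℝ} {E : X → ℂ}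
  {m n N : ℕ}

/-- the error of a cell, Chebyshev norm -/
def errC (P : Fin n → List ℚ) (S : Fin N → List ℚ) (a b r μ ε : ℚ) (V : Fin (m + 1) → Fin n → ℚ)
    (U : Fin (m + 1) → Fin N → ℚ) (wv : Fin n → ℚ) (wu : Fin N → ℚ) : ℚ :=
  dsc P a b r V wv + 2 * μ * ((1 + 1 / ε) * dsc S a b 1 U wu ^ 2)

/-- **one latitude cell, any class, any degree, any bounds `dv`, `du` of the distances** -/
theorem gen_cellD {C : Cls J L (Fin n) (Fin N)} (S0 : Sta ν D E) {wv : Fin n → ℚ} {wu : Fin N → ℚ}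
    (hwu : ∀ q, 0 ≤ wu q) (HA : Apr C ν D E (fun i => (wv i : ℝ)) fun q => (wu q : ℝ))
    {i j : Fin N} {P : Fin n → List ℚ} {S : Fin N → List ℚ}
    {a b r μ ε dv du : ℚ} (hab : a < b) (hr : 0 < r) (hμ : 0 < μ) (hε : 0 < ε) {V : Fin (m + 1) → Fin n → ℚ}
    {U : Fin (m + 1) → Fin N → ℚ} {c : ℝ} (hc : c ∈ Icc (a : ℝ) b) {τ : ℂ}
    (hdv : ∑ i, |pe (P i) c - r * (∑ j ∈ Finset.range (m + 1), bw m (tt a b c) j * (ex V i j : ℝ))| * (wv i : ℝ) ≤ dv)
    (hdu : ∑ q, |pe (S q) c - (1 : ℚ) * (∑ j ∈ Finset.range (m + 1), bw m (tt a b c) j * (ex U q j : ℝ))|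
      * (wu q : ℝ) ≤ du)
    (h : ∀ l : Fin (m + 1), BTG.NC C ν D E (fun i => ((V l i : ℚ) : ℝ)) (uG i j (fun q => ((U l q : ℚ) : ℝ)) τ)
      ((μ * (1 + ε) / r : ℚ) : ℝ) 1) {v : Fin n → ℝ} {u : Fin N → ℝ} (hv : ∀ i, v i = pe (P i) c)
    (hu : ∀ q, q ≠ i → q ≠ j → u q = pe (S q) c) (hui : u i = τ.re) (huj : i ≠ j → u j = τ.im) :
    BTG.NC C ν D E v u μ ((r + (dv + 2 * μ * ((1 + 1 / ε) * du ^ 2)) : ℚ) : ℝ) := by
  have hr' : (0 : ℝ) < r := by exact_mod_cast hr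
  have hμ' : (0 : ℝ) < μ := by exact_mod_cast hμ
  have hε' : (0 : ℝ) < ε := by exact_mod_cast hε
  obtain ⟨ht0, ht1⟩ := tt_mem hab hc
  set t := tt a b c with ht
  set w : ℕ → Fin N → ℝ := fun l => uG i j (cx U l) τ with hw
  have h1 : BTG.NC C ν D E (∑ l ∈ Finset.range (m + 1), bw m t l • cx V l)
      (∑ l ∈ Finset.range (m + 1), bw m t l • w l) ((μ * (1 + ε) / r : ℚ) : ℝ) 1 := by
    refine BTG.NC.comb S0 (fun j _ => bw_nonneg ht0 ht1 j) (bw_sum m t)
      (by push_cast; positivity) fun l hl => ?_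
    have hl3 : l < m + 1 := Finset.mem_range.1 hl
    have e1 : ∀ {k : ℕ} (V : Fin (m + 1) → Fin k → ℚ), cx V l = fun i => ((V ⟨l, hl3⟩ i : ℚ) : ℝ) := by
      intro k V
      funext i
      unfold cx ex
      rw [dif_pos hl3]
    have e2 : w l = uG i j (fun q => ((U ⟨l, hl3⟩ q : ℚ) : ℝ)) τ := by
      rw [hw]
      show uG i j (cx U l) τ = _
      rw [e1 U]
    rw [e1 V, e2]
    exact h ⟨l, hl3⟩
  have h2 := h1.scale hr'
  have e3 : (r : ℝ) * ((μ * (1 + ε) / r : ℚ) : ℝ) = μ * (1 + ε) := by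
    push_cast
    field_simp
  rw [e3, mul_one] at h2
  have eu : ∀ q, (∑ l ∈ Finset.range (m + 1), bw m t l • w l) q =
      if q = i then τ.re else if q = j then τ.im
        else ∑ l ∈ Finset.range (m + 1), bw m t l * (ex U q l : ℝ) := by
    intro q
    rw [Finset.sum_apply]
    simp only [Pi.smul_apply, smul_eq_mul, hw, uG]
    have hb := bw_sum m t
    split_ifs
    · rw [← Finset.sum_mul, hb, one_mul]
    · rw [← Finset.sum_mul, hb, one_mul]
    · rfl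
  have hwu' : ∀ q, (0 : ℝ) ≤ (wu q : ℝ) := fun q => by exact_mod_cast hwu q
  have hδ : ∑ q, |u q - (∑ l ∈ Finset.range (m + 1), bw m t l • w l) q| * (wu q : ℝ) ≤ du := by
    refine le_trans (Finset.sum_le_sum fun q _ => ?_) hdu
    rw [eu]
    refine mul_le_mul_of_nonneg_right ?_ (hwu' q)
    split_ifs with h1 h2
    · rw [h1, hui, sub_self, abs_zero]
      exact abs_nonneg _
    · rw [h2, huj fun h => h1 (h2.trans h.symm), sub_self, abs_zero]
      exact abs_nonneg _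
    · rw [hu q h1 h2]
      push_cast
      rw [one_mul]
  have hv' : ∑ i, |v i - ((r : ℝ) • ∑ l ∈ Finset.range (m + 1), bw m t l • cx V l) i| * (wv i : ℝ) ≤ dv := by
    refine le_trans (Finset.sum_le_sum fun i _ => ?_) hdv
    rw [Pi.smul_apply, smul_eq_mul, sum_cx, hv]
  have hη : ∑ i, |v i - ((r : ℝ) • ∑ l ∈ Finset.range (m + 1), bw m t l • cx V l) i| * (wv i : ℝ)
      + 2 * (μ : ℝ) * ((1 + 1 / (ε : ℝ)) * (du : ℝ) ^ 2) ≤ (dv : ℝ) + 2 * (μ : ℝ) * ((1 + 1 / (ε : ℝ)) * (du : ℝ) ^ 2) := by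
    linarith
  have h3 := nearY S0 HA hμ'.le hε' h2 hδ hη
  push_cast
  exact h3

end

/-! ### the cell of the class `CZ` -/

section

variable {m N : ℕ} {Ψ : PsiZ (Fin N)} {d wu : Fin N → ℚ} {wv : Fin 29 → ℚ} {S : Fin N → List ℚ} {Bx : Dev7}
  {i j : Fin N} {τ : (ℝ → ℝ) → ℂ} {D : DatZ} {C : CellZ m N}

/-- the total error of the cell, Chebyshev norm -/
def CellZ.errWC (D : DatZ) (S : Fin N → List ℚ) (wv : Fin 29 → ℚ) (wu : Fin N → ℚ) (C : CellZ m N) (μ : ℚ) : ℚ :=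
  errC (D.vz C.w C.R C.η) S C.a C.b C.r μ C.ε C.V C.U wv wu

/-- **the check of a cell with the weights `wv`, `wu`, Chebyshev norm** -/
def CellZ.okC (D : DatZ) (S : Fin N → List ℚ) (wv : Fin 29 → ℚ) (wu : Fin N → ℚ) (C : CellZ m N) (μ T : ℚ) : Bool :=
  decide (0 ≤ C.a) && (decide (C.a < C.b) && (decide (0 < C.r) && (decide (0 < μ) && (decide (0 < C.ε)
    && (decide (∀ i, 0 ≤ wv i) && (decide (∀ q, 0 ≤ wu q)
    && (decide (C.r + C.errWC D S wv wu μ ≤ T) && chkRH D.pA (padd D.pA (psm 2 D.pG)) (padd D.pA (psm 2 D.pJ))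
      C.R C.a C.b C.η C.n)))))))

/-- **one latitude cell**: the certificate from the certificates at the control vectors -/
theorem cellZC_NC (HS : SM Ψ d S Bx i j τ) {μ T : ℚ} (HA : AprOn Ψ wv wu C.a C.b)
    (H : C.okC D S wv wu μ T = true) {W : ℝ → ℝ} {f : ℝ → ℝ}
    (hf : Re f) (hc : cF f ∈ Icc (C.a : ℝ) C.b)
    (hW : 2 * cF f * W (cF f) - X1 f ^ 2 * deriv W (cF f) = pe C.w (cF f))
    (h : ∀ l : Fin (m + 1), BTG.NC (CZ Ψ) (nf f) (xT f) (ef f) (fun i => ((C.V l i : ℚ) : ℝ))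
      (uG i j (fun q => ((C.U l q : ℚ) : ℝ)) (τ f)) ((C.mu μ : ℚ) : ℝ) 1) :
    CertAtZ (devK7 Bx) W D.cofZ μ T f := by
  unfold CellZ.okC at H
  simp only [Bool.and_eq_true, decide_eq_true_eq] at H
  obtain ⟨_ha, hab, hr, hμ, hε, hwv, hwu, hT, hP⟩ := H
  have hc0 := hf.c0
  have hs : X1 f ^ 2 = 1 - cF f ^ 2 := by
    have := hf.c2
    linarith
  have hμ' : (0 : ℝ) < μ := by exact_mod_cast hμ
  have hpol : PolH D.cofZ.H C.η (pe C.R (cF f)) (X1 f) (cF f) := by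
    have hA : pe D.pA (cF f) = cF f ^ 2 * pa D.cofZ.H.F.C (X1 f) (cF f) := pA_eq (D := D.toDat) hc0 hs
    have hG : pe D.pG (cF f) = cF f ^ 2 * pg D.cofZ.H.F.C (X1 f) (cF f) := pG_eq (D := D.toDat) hc0 hs
    have hJ : pe D.pJ (cF f) = cF f ^ 2 * ph D.cofZ.H (X1 f) (cF f) := pJ_eq (D := D.toDatH) hc0 hs
    refine polH_of' hab hP hc hc0 hs hA ?_ ?_
    · rw [pe_padd, pe_psm, hA, hG]
      push_cast
      ring
    · rw [pe_padd, pe_psm, hA, hJ]
      push_cast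
      ring
  obtain ⟨u, hD, hu, hui, huj⟩ := HS.dev f hf
  have h1 := gen_cellD (BTG.sta hf.hf hf.h0 hf.h2) hwu (HA f hf hc.1 hc.2) (P := D.vz C.w C.R C.η) (S := S)
    hab hr hμ hε hc (dsc_sound hab hwv hc) (dsc_sound hab hwu hc) h
    (fun i => vz_eq (η := C.η) hc0 hs hW i) hu hui huj
  have h2 := BV.certAtZX_of_NCR hμ'.le hf hpol hD h1
  intro K hK hK1 A B hA hB
  refine (h2 K hK hK1 A B hA hB).trans ?_
  have hT' : C.r + (dsc (D.vz C.w C.R C.η) C.a C.b C.r C.V wv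
      + 2 * μ * ((1 + 1 / C.ε) * dsc S C.a C.b 1 C.U wu ^ 2)) ≤ T := hT
  exact_mod_cast hT'

/-- **the cell theorem, arbitrary weights, Chebyshev norm** -/
theorem cellC (HS : SM Ψ d S Bx i j τ) {μ T s' : ℚ} (HA : AprOn Ψ wv wu C.a C.b) (hC : C.okC D S wv wu μ T = true)
    {TA : (ℝ → ℝ) → ℂ → Prop}
    (hT : ∀ f, Re f → (C.a : ℝ) ≤ cF f → cF f ≤ (C.b : ℝ) → TA (Xa (X1 f) f) (τ f)) (h0 : 0 ≤ s') (h1 : s' ≤ 1)
    (hs : 1 - C.a ^ 2 ≤ s' ^ 2) (H : ∀ l : Fin (m + 1), CtlZ Ψ i j TA s' (C.mu μ) (C.V l) (C.U l)) :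
    ASL.CellG (fun W f => CertAtZ (devK7 Bx) W D.cofZ μ T f) C.a C.b C.w := by
  intro W hW f R ha hb
  have ha0 : (0 : ℚ) ≤ C.a := by
    unfold CellZ.okC at hC
    simp only [Bool.and_eq_true, decide_eq_true_eq] at hC
    exact hC.1
  have hs2 : (1 : ℝ) - (C.a : ℝ) ^ 2 ≤ (s' : ℝ) ^ 2 := by exact_mod_cast hs
  have hle : X1 f ≤ (s' : ℝ) := ASM.s_le R (by exact_mod_cast ha0) ha (by exact_mod_cast h0) hs2
  have hs : X1 f ^ 2 = 1 - cF f ^ 2 := by
    have := R.c2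
    linarith
  refine cellZC_NC HS HA hC R ⟨ha, hb⟩ ?_ fun l => ?_
  · rw [hs]
    exact hW _ R.c0 ha hb
  · exact ctl_of (P := fun _ => True) (u := fun t => uG i j (fun q => ((C.U l q : ℚ) : ℝ)) t) R hle
      (by exact_mod_cast h1) trivial (hT f R ha hb) fun X hX hX1 _ t ht => H l X hX hX1 t ht

/-- **the cell theorem for a start map without remainder, Chebyshev norm** -/
theorem cellC0 (HS : SM Ψ d S Bx i j fun _ => 0) {μ T s' : ℚ} (HA : AprOn Ψ wv wu C.a C.b)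
    (hC : C.okC D S wv wu μ T = true) (h0 : 0 ≤ s') (h1 : s' ≤ 1)
    (hs : 1 - C.a ^ 2 ≤ s' ^ 2) (H : ∀ l : Fin (m + 1), CtlZ Ψ i j T0 s' (C.mu μ) (C.V l) (C.U l)) :
    ASL.CellG (fun W f => CertAtZ (devK7 Bx) W D.cofZ μ T f) C.a C.b C.w :=
  cellC HS HA hC (TA := T0) (fun _ _ _ _ => rfl) h0 h1 hs H

end

end Pool.Agent.FPX.CEL
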