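import Mathlib
import Pool.Agent.FPX.CHC

/-
CHD (helper26): scaling of the condition at a control vector: from the certificate at `(V, μ)` the one at `(t V, t μ)`,
`0 < t ≤ 1` (shared end points of cells with different scales `r`).
-/

open MeasureTheory Set Filter Topology Complex
open scoped ComplexConjugate

noncomputable section

set_option linter.unusedSectionVars false
set_option linter.unusedSimpArgs false

namespace Pool.Agent.FPX.BTG

section

variable {J L I Q : Type} [Fintype L] [Fintype I] [Fintype Q] {C : Cls J L I Q}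
variable {X : Type*} [MeasurableSpace X] {ν : Measure X} {D : X → ℝ} {E : X → ℂ}

theorem ker_sc (t : ℝ) (v : I → ℝ) (m : J → ℂ) (e : ℂ) (x : ℝ) :
    ker C (fun i => t * v i) m e x = (t : ℂ) * ker C v m e x := by
  unfold ker
  rw [Finset.mul_sum]
  refine Finset.sum_congr rfl fun i _ => ?_
  push_cast
  ring

theorem tht_sc (t : ℝ) (v : I → ℝ) (m : J → ℂ) (A B : ℂ) (a b : L → ℂ) :
    tht C (fun i => t * v i) m A B a b = t * tht C v m A B a b := by
  unfold tht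
  rw [Finset.mul_sum]
  refine Finset.sum_congr rfl fun i _ => ?_
  ring

theorem hh_sc (t : ℝ) (v : I → ℝ) (m : J → ℂ) (A B α β : ℂ) (γ δ : L → ℂ) (e : ℂ) (x : ℝ) :
    hh C (fun i => t * v i) m A B (t * α) (t * β) (fun l => t * γ l) (fun l => t * δ l) e x =
      (t : ℂ) * hh C v m A B α β γ δ e x := by
  unfold hh
  rw [ker_sc]
  have e1 : ∑ l, ((t : ℂ) * γ l * C.ρ l e x + (t : ℂ) * δ l * conj (C.ρ l e x)) =
      (t : ℂ) * ∑ l, (γ l * C.ρ l e x + δ l * conj (C.ρ l e x)) := by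
    rw [Finset.mul_sum]
    refine Finset.sum_congr rfl fun l _ => ?_
    ring
  rw [e1, map_mul, Complex.conj_ofReal]
  ring

theorem rst_sc (t : ℝ) (v : I → ℝ) (u : Q → ℝ) (μ : ℝ) (m : J → ℂ) (A B : ℂ) (a b : L → ℂ) (α β : ℂ)
    (γ δ : L → ℂ) : rst C (fun i => t * v i) u (t * μ) m A B a b (t * α) (t * β) (fun l => t * γ l)
      (fun l => t * δ l) = t * rst C v u μ m A B a b α β γ δ := by
  unfold rst
  rw [tht_sc]
  have e1 : ∑ l, (conj ((t : ℂ) * γ l) * conj (a l) + conj ((t : ℂ) * δ l) * b l) =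
      (t : ℂ) * ∑ l, (conj (γ l) * conj (a l) + conj (δ l) * b l) := by
    rw [Finset.mul_sum]
    refine Finset.sum_congr rfl fun l _ => ?_
    rw [map_mul, map_mul, Complex.conj_ofReal]
    ring
  rw [e1, map_mul, map_mul, Complex.conj_ofReal]
  have e2 : (t : ℂ) * conj α * conj (B - C.σ m * conj A) + (t : ℂ) * conj β * (A - C.σ m * conj B)
      + (t : ℂ) * ∑ l, (conj (γ l) * conj (a l) + conj (δ l) * b l) =
      (t : ℂ) * (conj α * conj (B - C.σ m * conj A) + conj β * (A - C.σ m * conj B)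
        + ∑ l, (conj (γ l) * conj (a l) + conj (δ l) * b l)) := by ring
  rw [e2, Complex.re_ofReal_mul]
  ring

/-- **scaling** -/
theorem RW.scale {t : ℝ} (ht : 0 < t) {v : I → ℝ} {u : Q → ℝ} {μ T : ℝ} (h : RW C ν D E v u μ T) :
    RW C ν D E (fun i => t * v i) u (t * μ) (t * T) := by
  obtain ⟨q, hq, hp, hT, h⟩ := h
  have hne : t ≠ 0 := ht.ne'
  refine ⟨fun e x => q e x / t, hq.div_const t, fun e x he hx => div_pos (hp e x he hx) ht, ?_, fun A B a b => ?_⟩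
  · have e : ∀ s, 1 / (q (E s) (D s) / t) = t * (1 / q (E s) (D s)) := fun s => by
      rw [one_div_div]
      ring
    simp only [e]
    rw [integral_const_mul]
    exact mul_le_mul_of_nonneg_left hT ht.le
  · obtain ⟨α, β, γ, δ, h'⟩ := h A B a b
    refine ⟨t * α, t * β, fun l => t * γ l, fun l => t * δ l, ?_⟩
    rw [rst_sc]
    have e : ∀ s, ‖hh C (fun i => t * v i) (mo C ν D E) A B (t * α) (t * β) (fun l => t * γ l) (fun l => t * δ l)
        (E s) (D s)‖ ^ 2 * (q (E s) (D s) / t) =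
        t * (‖hh C v (mo C ν D E) A B α β γ δ (E s) (D s)‖ ^ 2 * q (E s) (D s)) := fun s => by
      rw [hh_sc, norm_mul, Complex.norm_real, Real.norm_eq_abs, abs_of_pos ht]
      field_simp
    simp only [e]
    rw [integral_const_mul, ← mul_add]
    exact mul_nonpos_of_nonneg_of_nonpos ht.le h'

theorem RW.mono {v : I → ℝ} {u : Q → ℝ} {μ T T' : ℝ} (h : RW C ν D E v u μ T) (hT : T ≤ T') :
    RW C ν D E v u μ T' := by
  obtain ⟨q, hq, hp, h1, h⟩ := h
  exact ⟨q, hq, hp, h1.trans hT, h⟩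

end

end Pool.Agent.FPX.BTG

namespace Pool.Agent.FPX.CEL

open Pool.Agent.FPX.BTQ
open Pool.Agent.FPX.ALX
open Pool.Agent.FPX.BTN (va e1 nf ef)
open Pool.Agent.FPX.BV (CZ PsiZ)

section

variable {N : ℕ} {Ψ : PsiZ (Fin N)} {i j : Fin N}

/-- **scaling of the certificate at a control vector** -/
theorem CtlZ.scale {TA : (ℝ → ℝ) → ℂ → Prop} {s' μ t : ℚ} {V : Fin 29 → ℚ} {U : Fin N → ℚ}
    (H : CtlZ Ψ i j TA s' μ V U) (ht : 0 < t) (ht1 : t ≤ 1) : CtlZ Ψ i j TA s' (t * μ) (fun k => t * V k) U := by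
  intro X hX hb z hz
  have ht' : (0 : ℝ) < t := by exact_mod_cast ht
  have ht1' : (t : ℝ) ≤ 1 := by exact_mod_cast ht1
  have h := (BTG.RW.scale ht' (H X hX hb z hz)).mono (by rw [mul_one]; exact ht1' : (t : ℝ) * 1 ≤ 1)
  have e1 : (fun k => ((((fun k => t * V k) k : ℚ)) : ℝ)) = fun k => (t : ℝ) * ((V k : ℚ) : ℝ) := by
    funext k
    push_cast
    rfl
  have e2 : ((t * μ : ℚ) : ℝ) = (t : ℝ) * μ := by push_cast; rfl
  rw [e1, e2]
  exact h

/-- the kernel of the slot 14 is zero -/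
theorem kerZ_14 {v v' : Fin 29 → ℝ} (h : ∀ k, k ≠ 14 → v' k = v k) (m : BV.M10) (e : ℂ) (x : ℝ) :
    BTG.ker (CZ Ψ) v' m e x = BTG.ker (CZ Ψ) v m e x := by
  unfold BTG.ker
  refine Finset.sum_congr rfl fun k _ => ?_
  by_cases hk : k = 14
  · have e0 : (CZ Ψ).κ k m e x = 0 := by
      rw [hk]
      rfl
    rw [e0, mul_zero, mul_zero]
  · rw [h k hk]

theorem thtZ_14 {v v' : Fin 29 → ℝ} (h : ∀ k, k ≠ 14 → v' k = v k) (h14 : v' 14 ≤ v 14) (m : BV.M10) (A B : ℂ)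
    (a b : Fin 5 → ℂ) : BTG.tht (CZ Ψ) v' m A B a b ≤ BTG.tht (CZ Ψ) v m A B a b := by
  unfold BTG.tht
  refine Finset.sum_le_sum fun k _ => ?_
  by_cases hk : k = 14
  · have e0 : (CZ Ψ).θ k m A B a b = 2 * ‖B‖ ^ 2 := by
      rw [hk]
      rfl
    rw [e0, hk]
    exact mul_le_mul_of_nonneg_right h14 (by positivity)
  · rw [h k hk]

/-- **a smaller price `v₁₄`** -/
theorem RW_mono14 {X : Type*} [MeasurableSpace X] {ν : Measure X} {Dd : X → ℝ} {E : X → ℂ} {v v' : Fin 29 → ℝ}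
    {u : Fin N → ℝ} {μ T : ℝ} (h : ∀ k, k ≠ 14 → v' k = v k) (h14 : v' 14 ≤ v 14)
    (H : BTG.RW (CZ Ψ) ν Dd E v u μ T) : BTG.RW (CZ Ψ) ν Dd E v' u μ T := by
  obtain ⟨q, hq, hp, hT, H⟩ := H
  refine ⟨q, hq, hp, hT, fun A B a b => ?_⟩
  obtain ⟨α, β, γ, δ, H'⟩ := H A B a b
  refine ⟨α, β, γ, δ, le_trans (add_le_add ?_ (le_of_eq ?_)) H'⟩
  · unfold BTG.rst
    have := thtZ_14 (Ψ := Ψ) h h14 (BTG.mo (CZ Ψ) ν Dd E) A B a b
    linarith
  · refine integral_congr_ae (Filter.Eventually.of_forall fun s => ?_)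
    show ‖BTG.hh (CZ Ψ) v' _ A B α β γ δ (E s) (Dd s)‖ ^ 2 * _ = ‖BTG.hh (CZ Ψ) v _ A B α β γ δ (E s) (Dd s)‖ ^ 2 * _
    unfold BTG.hh
    rw [kerZ_14 (Ψ := Ψ) h]

theorem CtlZ.mono14 {TA : (ℝ → ℝ) → ℂ → Prop} {s' μ : ℚ} {V V' : Fin 29 → ℚ} {U : Fin N → ℚ}
    (H : CtlZ Ψ i j TA s' μ V U) (h : ∀ k, k ≠ 14 → V' k = V k) (h14 : V' 14 ≤ V 14) :
    CtlZ Ψ i j TA s' μ V' U := by
  intro X hX hb z hz
  refine RW_mono14 (fun k hk => ?_) ?_ (H X hX hb z hz)
  · rw [h k hk]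
  · exact_mod_cast h14

/-- the Boolean of a shared control point: `(V', μ') = t (V, μ)`, the same `U`, the smaller class, a smaller price `v₁₄` -/
def shOk14 (t s s' μ μ' : ℚ) (V V' : Fin 29 → ℚ) (U U' : Fin N → ℚ) : Bool :=
  decide (0 < t) && (decide (t ≤ 1) && (decide (0 ≤ s') && (decide (s' ≤ s) && (decide (s ≤ 1)
    && (decide (μ' = t * μ) && (decide (∀ k, k ≠ 14 → V' k = t * V k) && (decide (V' 14 ≤ t * V 14)
    && decide (∀ q, U' q = U q))))))))

/-- **a shared control point, cells with different `r`, `η`** -/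
theorem CtlZ.share14 {TA : (ℝ → ℝ) → ℂ → Prop} {t s s' μ μ' : ℚ} {V V' : Fin 29 → ℚ} {U U' : Fin N → ℚ}
    (H : CtlZ Ψ i j TA s μ V U) (h : shOk14 t s s' μ μ' V V' U U' = true) : CtlZ Ψ i j TA s' μ' V' U' := by
  unfold shOk14 at h
  simp only [Bool.and_eq_true, decide_eq_true_eq] at h
  obtain ⟨h1, h2, h3, h4, h5, h6, h7, h8, h9⟩ := h
  have e2 : U' = U := funext h9
  rw [e2, h6]
  exact ((H.scale h1 h2).mono14 h7 h8).mono h3 h4 h5 fun _ _ h => h

/-- the Boolean of a shared control point: `(V', μ') = t (V, μ)`, the same `U`, the smaller class -/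
def shOk (t s s' μ μ' : ℚ) (V V' : Fin 29 → ℚ) (U U' : Fin N → ℚ) : Bool :=
  decide (0 < t) && (decide (t ≤ 1) && (decide (0 ≤ s') && (decide (s' ≤ s) && (decide (s ≤ 1)
    && (decide (μ' = t * μ) && (decide (∀ k, V' k = t * V k) && decide (∀ q, U' q = U q)))))))

/-- **a shared control point** -/
theorem CtlZ.share {TA : (ℝ → ℝ) → ℂ → Prop} {t s s' μ μ' : ℚ} {V V' : Fin 29 → ℚ} {U U' : Fin N → ℚ}
    (H : CtlZ Ψ i j TA s μ V U) (h : shOk t s s' μ μ' V V' U U' = true) : CtlZ Ψ i j TA s' μ' V' U' := by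
  unfold shOk at h
  simp only [Bool.and_eq_true, decide_eq_true_eq] at h
  obtain ⟨h1, h2, h3, h4, h5, h6, h7, h8⟩ := h
  have e1 : V' = fun k => t * V k := funext h7
  have e2 : U' = U := funext h8
  rw [e1, e2, h6]
  exact (H.scale h1 h2).mono h3 h4 h5 fun _ _ h => h

end

end Pool.Agent.FPX.CEL
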