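import Mathlib

/-
MCW (helper52): the table checker of the core certificate of the modulus closing.
`V (a, m) = m W (ln (m / (a f0)), 4 m / κ)` with `W` bilinear on cells; members `(A, B, b)` stand for the
pointwise bounds `A + B ν - b y²`. With `σ = ln (f / f0)`, `f = m / a`, `k = 4 m / κ`:
`V_a = - f W_σ`, `V_m = W + W_σ + k W_k`, `y² = 4 m² / (κ a) = f k`.
All data are integers over one common denominator `S`; steps `1 / H` in `σ`, `1 / Kd` in `k`.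
With `n0 > 0` the flux is larger: `y² = f (k + n0 / Kd)` (tables with a constant side charge).
-/

noncomputable section

namespace Pool.Agent.FPX.MCW

/-- the line `-α + β ν` with the coefficient `b` of `y` lies below the members -/
def Sup (L : List (ℤ × ℤ × ℤ)) (S b α β : ℝ) : Prop :=
  ∀ ν y G : ℝ, 0 ≤ ν → 0 ≤ y →
    (∀ e ∈ L, -((e.1 : ℝ) / S) + (e.2.1 : ℝ) / S * ν - (e.2.2 : ℝ) / S * y ≤ G) →
    -α + β * ν - b * y ≤ G

/-- test of `Sup` for one line; `M` is the scale of `X` -/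
def supOk (M bb X β : ℤ) : List (ℤ × ℤ × ℤ) → Bool
  | [] => false
  | [e] => decide (β ≤ e.2.1) && decide (M * e.1 ≤ X) && decide (e.2.2 ≤ bb)
  | e :: e' :: l =>
    if β ≤ e.2.1 then decide (M * e.1 ≤ X) && decide (e.2.2 ≤ bb)
    else if β ≤ e'.2.1 then
      decide (M * (e.1 * (e'.2.1 - e.2.1) + (e'.1 - e.1) * (β - e.2.1)) ≤ X * (e'.2.1 - e.2.1)) &&
        decide (e.2.2 * (e'.2.1 - e.2.1) + (e'.2.2 - e.2.2) * (β - e.2.1) ≤ bb * (e'.2.1 - e.2.1))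
    else supOk M bb X β (e' :: l)

theorem sup_one {L : List (ℤ × ℤ × ℤ)} {S : ℝ} {e : ℤ × ℤ × ℤ} (he : e ∈ L) {b α β : ℝ}
    (h1 : (e.1 : ℝ) / S ≤ α) (h2 : β ≤ (e.2.1 : ℝ) / S) (h3 : (e.2.2 : ℝ) / S ≤ b) :
    Sup L S b α β := by
  intro ν y G hν hy hG
  have k1 := hG e he
  have k2 := mul_le_mul_of_nonneg_right h2 hν
  have k3 := mul_le_mul_of_nonneg_right h3 hy
  linarith

theorem sup_two {L : List (ℤ × ℤ × ℤ)} {S : ℝ} {e e' : ℤ × ℤ × ℤ} (he : e ∈ L)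
    (he' : e' ∈ L) {b α β t : ℝ} (ht0 : 0 ≤ t) (ht1 : t ≤ 1)
    (h1 : (1 - t) * ((e.1 : ℝ) / S) + t * ((e'.1 : ℝ) / S) ≤ α)
    (h2 : β ≤ (1 - t) * ((e.2.1 : ℝ) / S) + t * ((e'.2.1 : ℝ) / S))
    (h3 : (1 - t) * ((e.2.2 : ℝ) / S) + t * ((e'.2.2 : ℝ) / S) ≤ b) : Sup L S b α β := by
  intro ν y G hν hy hG
  have k1 := mul_le_mul_of_nonneg_left (hG e he) (show (0 : ℝ) ≤ 1 - t by linarith)
  have k1' := mul_le_mul_of_nonneg_left (hG e' he') ht0
  have k2 := mul_le_mul_of_nonneg_right h2 hν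
  have k3 := mul_le_mul_of_nonneg_right h3 hy
  nlinarith

theorem supOk_sound {S : ℝ} (hS : 0 < S) {M : ℤ} (hM : 0 < M) {bb X β : ℤ}
    {L₀ : List (ℤ × ℤ × ℤ)} : ∀ {L : List (ℤ × ℤ × ℤ)}, (∀ e ∈ L, e ∈ L₀) →
    supOk M bb X β L = true → Sup L₀ S (bb / S) ((X : ℝ) / (M * S)) (β / S)
  | [], _, h => by simp [supOk] at h
  | [e], hL, h => by
    simp only [supOk, Bool.and_eq_true, decide_eq_true_eq] at h
    obtain ⟨⟨h1, h2⟩, h3⟩ := h
    have hMr : (0 : ℝ) < M := by exact_mod_cast hM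
    refine sup_one (hL e (by simp)) ?_ ?_ ?_
    · rw [div_le_div_iff₀ hS (by positivity)]
      have : (M : ℝ) * e.1 ≤ X := by exact_mod_cast h2
      nlinarith
    · exact div_le_div_of_nonneg_right (by exact_mod_cast h1) hS.le
    · exact div_le_div_of_nonneg_right (by exact_mod_cast h3) hS.le
  | e :: e' :: l, hL, h => by
    have hMr : (0 : ℝ) < M := by exact_mod_cast hM
    rw [supOk] at h
    split_ifs at h with c1 c2
    · simp only [Bool.and_eq_true, decide_eq_true_eq] at h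
      obtain ⟨h2, h3⟩ := h
      refine sup_one (hL e (by simp)) ?_ ?_ ?_
      · rw [div_le_div_iff₀ hS (by positivity)]
        have : (M : ℝ) * e.1 ≤ X := by exact_mod_cast h2
        nlinarith
      · exact div_le_div_of_nonneg_right (by exact_mod_cast c1) hS.le
      · exact div_le_div_of_nonneg_right (by exact_mod_cast h3) hS.le
    · simp only [Bool.and_eq_true, decide_eq_true_eq] at h
      obtain ⟨h2, h3⟩ := h
      push Not at c1
      have d0 : (0 : ℝ) < e'.2.1 - e.2.1 := by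
        have : e.2.1 < e'.2.1 := lt_of_lt_of_le c1 c2
        have : ((e.2.1 : ℤ) : ℝ) < e'.2.1 := by exact_mod_cast this
        linarith
      have c1' : ((e.2.1 : ℤ) : ℝ) < β := by exact_mod_cast c1
      have c2' : (β : ℝ) ≤ (e'.2.1 : ℤ) := by exact_mod_cast c2
      have h2' : (M : ℝ) * (e.1 * (e'.2.1 - e.2.1) + (e'.1 - e.1) * (β - e.2.1)) ≤
          X * (e'.2.1 - e.2.1) := by exact_mod_cast h2
      have h3' : (e.2.2 : ℝ) * (e'.2.1 - e.2.1) + (e'.2.2 - e.2.2) * (β - e.2.1) ≤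
          bb * (e'.2.1 - e.2.1) := by exact_mod_cast h3
      set d : ℝ := (e'.2.1 : ℝ) - e.2.1 with hd
      refine sup_two (hL e (by simp)) (hL e' (by simp)) (t := ((β : ℝ) - e.2.1) / d) ?_ ?_ ?_ ?_ ?_
      · exact div_nonneg (by linarith) d0.le
      · rw [div_le_one d0]
        linarith
      · have e1 : (1 - ((β : ℝ) - e.2.1) / d) * ((e.1 : ℝ) / S) + ((β : ℝ) - e.2.1) / d * ((e'.1 : ℝ) / S) =
            (e.1 * d + (e'.1 - e.1) * (β - e.2.1)) / (d * S) := by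
          field_simp
          ring
        rw [e1, div_le_div_iff₀ (by positivity) (by positivity)]
        nlinarith [mul_le_mul_of_nonneg_right h2' hS.le]
      · have e1 : (1 - ((β : ℝ) - e.2.1) / d) * ((e.2.1 : ℝ) / S) +
            ((β : ℝ) - e.2.1) / d * ((e'.2.1 : ℝ) / S) = β / S := by
          have : ((e'.2.1 : ℤ) : ℝ) = d + e.2.1 := by rw [hd]; ring
          rw [this]
          field_simp
          ring
        rw [e1]
      · have e1 : (1 - ((β : ℝ) - e.2.1) / d) * ((e.2.2 : ℝ) / S) +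
            ((β : ℝ) - e.2.1) / d * ((e'.2.2 : ℝ) / S) =
            (e.2.2 * d + (e'.2.2 - e.2.2) * (β - e.2.1)) / (d * S) := by
          field_simp
          ring
        rw [e1, div_le_div_iff₀ (by positivity) hS]
        nlinarith [mul_le_mul_of_nonneg_right h3' hS.le]
    · exact supOk_sound hS hM (fun x hx => hL x (List.mem_cons_of_mem _ hx)) h

/-- convex combinations of four lines -/
theorem Sup.four {L : List (ℤ × ℤ × ℤ)} {S b α₀ β₀ α₁ β₁ α₂ β₂ α₃ β₃ s t α β : ℝ}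
    (h0 : Sup L S b α₀ β₀) (h1 : Sup L S b α₁ β₁) (h2 : Sup L S b α₂ β₂) (h3 : Sup L S b α₃ β₃)
    (hs0 : 0 ≤ s) (hs1 : s ≤ 1) (ht0 : 0 ≤ t) (ht1 : t ≤ 1)
    (hα : (1 - t) * ((1 - s) * α₀ + s * α₁) + t * ((1 - s) * α₂ + s * α₃) ≤ α)
    (hβ : β ≤ (1 - t) * ((1 - s) * β₀ + s * β₁) + t * ((1 - s) * β₂ + s * β₃)) : Sup L S b α β := by
  intro ν y G hν hy hG
  have k0 := h0 ν y G hν hy hG
  have k1 := h1 ν y G hν hy hG
  have k2 := h2 ν y G hν hy hG
  have k3 := h3 ν y G hν hy hG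
  have s0 : 0 ≤ 1 - s := by linarith
  have t0 : 0 ≤ 1 - t := by linarith
  have m0 := mul_le_mul_of_nonneg_left (add_le_add (mul_le_mul_of_nonneg_left k0 s0)
    (mul_le_mul_of_nonneg_left k1 hs0)) t0
  have m1 := mul_le_mul_of_nonneg_left (add_le_add (mul_le_mul_of_nonneg_left k2 s0)
    (mul_le_mul_of_nonneg_left k3 hs0)) ht0
  have m2 := mul_le_mul_of_nonneg_right hβ hν
  nlinarith

/-! ### one cell -/

/-- `W` on a cell, `s, t` the cell coordinates -/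
def cW (w0 w1 v0 v1 s t : ℝ) : ℝ := (1 - t) * ((1 - s) * w0 + s * w1) + t * ((1 - s) * v0 + s * v1)

/-- `W_σ` on a cell -/
def cS (H w0 w1 v0 v1 t : ℝ) : ℝ := H * ((1 - t) * (w1 - w0) + t * (v1 - v0))

/-- `W_k` on a cell -/
def cK (Kd w0 w1 v0 v1 s : ℝ) : ℝ := Kd * ((1 - s) * (v0 - w0) + s * (v1 - w1))

/-- `(1/S) × bb ≥` the interpolated coefficient `b` at `β` (no proof needed) -/
def bOf (β : ℤ) : List (ℤ × ℤ × ℤ) → ℤ
  | [] => 0
  | [e] => e.2.2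
  | e :: e' :: l =>
    if β ≤ e.2.1 then e.2.2
    else if β ≤ e'.2.1 then
      -(-(e.2.2 * (e'.2.1 - e.2.1) + (e'.2.2 - e.2.2) * (β - e.2.1)) / (e'.2.1 - e.2.1))
    else bOf β (e' :: l)

/-- the test of one cell: level `j`, midpoint value `fm` of `f` -/
def cellOk (L : List (ℤ × ℤ × ℤ)) (S H Kd n0 j fm w0 w1 v0 v1 : ℤ) : Bool :=
  let D0 := H * (w1 - w0)
  let D1 := H * (v1 - v0)
  let K0 := v0 - w0
  let K1 := v1 - w1
  let M := 2 * H * Kd * S
  let b0 := w0 + D0 + j * K0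
  let b1 := w1 + D0 + j * K1
  let b2 := v0 + D1 + (j + 1) * K0
  let b3 := v1 + D1 + (j + 1) * K1
  let bb := max (max (bOf b0 L) (bOf b1 L)) (max (bOf b2 L) (bOf b3 L))
  let g0 := Kd * D0 - bb * (j + n0)
  let g1 := Kd * D1 - bb * (j + 1 + n0)
  decide (0 ≤ g0) && decide (0 ≤ g1) &&
    supOk M bb (fm * (2 * H - 1) * g0) b0 L && supOk M bb (fm * (2 * H + 1) * g0) b1 L &&
    supOk M bb (fm * (2 * H - 1) * g1) b2 L && supOk M bb (fm * (2 * H + 1) * g1) b3 L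

/-- what a test of one cell has to give: the four corner lines are supported -/
def CellP (L : List (ℤ × ℤ × ℤ)) (S H Kd n0 j fm w0 w1 v0 v1 : ℤ) : Prop :=
  ∃ bb : ℤ, 0 ≤ Kd * (H * (w1 - w0)) - bb * (j + n0) ∧ 0 ≤ Kd * (H * (v1 - v0)) - bb * (j + 1 + n0) ∧
    Sup L S (bb / S) (((fm * (2 * H - 1) * (Kd * (H * (w1 - w0)) - bb * (j + n0)) : ℤ) : ℝ) /
      (((2 * H * Kd * S : ℤ) : ℝ) * S)) (((w0 + H * (w1 - w0) + j * (v0 - w0) : ℤ) : ℝ) / S) ∧
    Sup L S (bb / S) (((fm * (2 * H + 1) * (Kd * (H * (w1 - w0)) - bb * (j + n0)) : ℤ) : ℝ) /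
      (((2 * H * Kd * S : ℤ) : ℝ) * S)) (((w1 + H * (w1 - w0) + j * (v1 - w1) : ℤ) : ℝ) / S) ∧
    Sup L S (bb / S) (((fm * (2 * H - 1) * (Kd * (H * (v1 - v0)) - bb * (j + 1 + n0)) : ℤ) : ℝ) /
      (((2 * H * Kd * S : ℤ) : ℝ) * S)) (((v0 + H * (v1 - v0) + (j + 1) * (v0 - w0) : ℤ) : ℝ) / S) ∧
    Sup L S (bb / S) (((fm * (2 * H + 1) * (Kd * (H * (v1 - v0)) - bb * (j + 1 + n0)) : ℤ) : ℝ) /
      (((2 * H * Kd * S : ℤ) : ℝ) * S)) (((v1 + H * (v1 - v0) + (j + 1) * (v1 - w1) : ℤ) : ℝ) / S)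

theorem Sup.mono {L L' : List (ℤ × ℤ × ℤ)} {S b α β : ℝ} (h : Sup L S b α β) (hL : ∀ e ∈ L, e ∈ L') :
    Sup L' S b α β := fun ν y G hν hy hG => h ν y G hν hy fun e he => hG e (hL e he)

theorem CellP.mono {L L' : List (ℤ × ℤ × ℤ)} {S H Kd n0 j fm w0 w1 v0 v1 : ℤ}
    (h : CellP L S H Kd n0 j fm w0 w1 v0 v1) (hL : ∀ e ∈ L, e ∈ L') :
    CellP L' S H Kd n0 j fm w0 w1 v0 v1 := by
  obtain ⟨bb, g0, g1, s0, s1, s2, s3⟩ := h
  exact ⟨bb, g0, g1, s0.mono hL, s1.mono hL, s2.mono hL, s3.mono hL⟩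

theorem cellOk_P {L : List (ℤ × ℤ × ℤ)} {S H Kd n0 j fm w0 w1 v0 v1 : ℤ} (hS : 0 < S) (hH : 0 < H)
    (hK : 0 < Kd) (hc : cellOk L S H Kd n0 j fm w0 w1 v0 v1 = true) :
    CellP L S H Kd n0 j fm w0 w1 v0 v1 := by
  simp only [cellOk, Bool.and_eq_true, decide_eq_true_eq] at hc
  obtain ⟨⟨⟨⟨⟨g0, g1⟩, c0⟩, c1⟩, c2⟩, c3⟩ := hc
  have hSr : (0 : ℝ) < S := by exact_mod_cast hS
  have hM : (0 : ℤ) < 2 * H * Kd * S := by positivity
  refine ⟨_, g0, g1, ?_, ?_, ?_, ?_⟩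
  · exact supOk_sound hSr hM (L₀ := L) (fun e he => he) c0
  · exact supOk_sound hSr hM (L₀ := L) (fun e he => he) c1
  · exact supOk_sound hSr hM (L₀ := L) (fun e he => he) c2
  · exact supOk_sound hSr hM (L₀ := L) (fun e he => he) c3

/-- **the inequality on a cell** -/
theorem CellP.sound {L : List (ℤ × ℤ × ℤ)} {S H Kd n0 j fm w0 w1 v0 v1 : ℤ} (hS : 0 < S) (hH : 0 < H)
    (hK : 0 < Kd) (hn : 0 ≤ n0) (hj : 0 ≤ j) (hc : CellP L S H Kd n0 j fm w0 w1 v0 v1) {s t f k : ℝ}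
    (hs0 : 0 ≤ s) (hs1 : s ≤ 1) (ht0 : 0 ≤ t) (ht1 : t ≤ 1) (hk : k = (j + t) / Kd)
    (hf : (fm : ℝ) / S * (1 + (s - 1 / 2) / H) ≤ f) (hf0 : 0 ≤ f) {ν G : ℝ} (hν : 0 ≤ ν)
    (hG : ∀ e ∈ L, -((e.1 : ℝ) / S) + (e.2.1 : ℝ) / S * ν -
      (e.2.2 : ℝ) / S * (f * (k + n0 / Kd)) ≤ G) :
    -(f * cS H (w0 / S) (w1 / S) (v0 / S) (v1 / S) t) +
      (cW (w0 / S) (w1 / S) (v0 / S) (v1 / S) s t + cS H (w0 / S) (w1 / S) (v0 / S) (v1 / S) t +
        k * cK Kd (w0 / S) (w1 / S) (v0 / S) (v1 / S) s) * ν ≤ G := by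
  obtain ⟨bb, g0, g1, s0, s1, s2, s3⟩ := hc
  have hSr : (0 : ℝ) < S := by exact_mod_cast hS
  have hHr : (0 : ℝ) < H := by exact_mod_cast hH
  have hKr : (0 : ℝ) < Kd := by exact_mod_cast hK
  have hjr : (0 : ℝ) ≤ j := by exact_mod_cast hj
  have g0' : (0 : ℝ) ≤ Kd * (H * (w1 - w0)) - bb * (j + n0) := by exact_mod_cast g0
  have g1' : (0 : ℝ) ≤ Kd * (H * (v1 - v0)) - bb * (j + 1 + n0) := by exact_mod_cast g1
  have hnr : (0 : ℝ) ≤ n0 := by exact_mod_cast hn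
  have hk0 : 0 ≤ k + n0 / Kd := by
    rw [hk]
    positivity
  -- the slope above `b k`
  set U : ℝ := cS H (w0 / S) (w1 / S) (v0 / S) (v1 / S) t - bb / S * (k + n0 / Kd) with hU
  have eU : U = ((1 - t) * (Kd * (H * (w1 - w0)) - bb * (j + n0)) +
      t * (Kd * (H * (v1 - v0)) - bb * (j + 1 + n0))) / (Kd * S) := by
    rw [hU, hk]
    unfold cS
    field_simp
    ring
  have U0 : 0 ≤ U := by
    rw [eU]
    have : 0 ≤ 1 - t := by linarith
    positivity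
  have hfU : (fm : ℝ) / S * (1 + (s - 1 / 2) / H) * U ≤ f * U := mul_le_mul_of_nonneg_right hf U0
  have key : Sup L S (bb / S) (f * U) (cW (w0 / S) (w1 / S) (v0 / S) (v1 / S) s t +
      cS H (w0 / S) (w1 / S) (v0 / S) (v1 / S) t +
        k * cK Kd (w0 / S) (w1 / S) (v0 / S) (v1 / S) s) := by
    refine Sup.four s0 s1 s2 s3 hs0 hs1 ht0 ht1 (le_trans (le_of_eq ?_) hfU) (le_of_eq ?_)
    · rw [eU]
      push_cast
      field_simp
      ring
    · rw [hk]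
      unfold cW cS cK
      push_cast
      field_simp
      ring
  have h1 := key ν (f * (k + n0 / Kd)) G hν (mul_nonneg hf0 hk0) hG
  have e1 : f * U = f * cS H (w0 / S) (w1 / S) (v0 / S) (v1 / S) t - bb / S * (f * (k + n0 / Kd)) := by
    rw [hU]
    ring
  rw [e1] at h1
  linarith

/-! ### the table -/

/-- the data: scale `S`, steps `1/H`, `1/Kd`, side flux `n0 / Kd`, first node `f0 / S`, lower bound
`E / S` of `exp (1/H)`, base member `(0, B0, b0) / S`, lists of members `(α, B, b) / S` (`A = -α`) with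
thresholds (in units of `f (k + n0/Kd) × 2 Kd S`), upper bound `Wm` of the entries, rows `W`
(`k_j = j / Kd`) of values `/ S` -/
structure Tab where
  S : ℤ
  H : ℤ
  Kd : ℤ
  n0 : ℤ
  Wm : ℤ
  f0 : ℤ
  E : ℤ
  B0 : ℤ
  b0 : ℤ
  mem : List (ℤ × List (ℤ × ℤ × ℤ))
  W : List (List ℤ)

/-- all members -/
def Tab.L (T : Tab) : List (ℤ × ℤ × ℤ) := (0, T.B0, T.b0) :: T.mem.flatMap Prod.snd

/-- the first list with threshold at least `y` -/
def pick (y : ℤ) : List (ℤ × List (ℤ × ℤ × ℤ)) → List (ℤ × ℤ × ℤ)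
  | [] => []
  | [z] => z.2
  | z :: z' :: l => if y ≤ z.1 then z.2 else pick y (z' :: l)

theorem pick_mem (y : ℤ) : ∀ (l : List (ℤ × List (ℤ × ℤ × ℤ))), ∀ e ∈ pick y l, e ∈ l.flatMap Prod.snd
  | [], e, h => by simp [pick] at h
  | [z], e, h => by
    rw [pick] at h
    simpa using h
  | z :: z' :: l, e, h => by
    rw [pick] at h
    split_ifs at h with c
    · simp only [List.flatMap_cons, List.mem_append]
      exact Or.inl h
    · have := pick_mem y (z' :: l) e h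
      rw [List.flatMap_cons, List.mem_append]
      exact Or.inr this

/-- the list of a cell -/
def Tab.Lc (T : Tab) (j fm : ℤ) : List (ℤ × ℤ × ℤ) :=
  (0, T.B0, T.b0) :: pick (fm * (2 * (j + T.n0) + 1)) T.mem

theorem Tab.Lc_mem (T : Tab) (j fm : ℤ) : ∀ e ∈ T.Lc j fm, e ∈ T.L := by
  intro e he
  unfold Tab.Lc at he
  unfold Tab.L
  rcases List.mem_cons.1 he with h | h
  · rw [h]
    exact List.mem_cons_self
  · exact List.mem_cons_of_mem _ (pick_mem _ _ e h)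

/-- the midpoint values of `f` -/
def Tab.fm (T : Tab) : ℕ → ℤ
  | 0 => T.f0 * (2 * T.H + 1) / (2 * T.H)
  | i + 1 => T.fm i * T.E / T.S

/-- a pair of rows -/
def rowOk (T : Tab) (j : ℤ) : ℤ → List ℤ → List ℤ → Bool
  | fm, w0 :: w1 :: w, v0 :: v1 :: v =>
    cellOk (T.Lc j fm) T.S T.H T.Kd T.n0 j fm w0 w1 v0 v1 &&
      rowOk T j (fm * T.E / T.S) (w1 :: w) (v1 :: v)
  | _, [_], [_] => true
  | _, _, _ => false

/-- the cell to the left of the first node -/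
def leftOk (T : Tab) (j : ℤ) : List ℤ → List ℤ → Bool
  | w0 :: _, v0 :: _ =>
    decide (T.Kd * (w0 + j * (v0 - w0)) + T.b0 * (j + T.n0) ≤ T.Kd * T.B0) &&
      decide (T.Kd * (v0 + (j + 1) * (v0 - w0)) + T.b0 * (j + 1 + T.n0) ≤ T.Kd * T.B0)
  | _, _ => false

/-- all rows -/
def rowsOk (T : Tab) (f : ℤ) : ℤ → List (List ℤ) → Bool
  | j, w :: v :: r => leftOk T j w v && rowOk T j f w v && rowsOk T f (j + 1) (v :: r)
  | _, [_] => true
  | _, [] => false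

/-- the test of the table -/
def Tab.ok (T : Tab) : Bool :=
  decide (0 < T.S) && decide (0 < T.H) && decide (0 < T.Kd) && decide (0 < T.f0) && decide (0 < T.E) &&
    decide (0 ≤ T.b0) && decide (0 ≤ T.n0) && decide (0 ≤ T.B0) &&
    (T.L.all fun e => decide (0 ≤ e.2.2)) && (T.W.all fun r => r.all fun x => decide (x ≤ T.Wm)) &&
    decide (T.E * (6 * T.H ^ 3) ≤ T.S * (6 * T.H ^ 3 + 6 * T.H ^ 2 + 3 * T.H + 1)) &&
    rowsOk T (T.fm 0) 0 T.W

/-- the entry of row `j`, place `i` -/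
def Tab.w (T : Tab) (j i : ℕ) : ℤ := (T.W.getD j []).getD i 0

theorem rowOk_sound (T : Tab) (j : ℤ) : ∀ (w v : List ℤ) (i₀ : ℕ),
    rowOk T j (T.fm i₀) w v = true → w.length = v.length ∧ 1 ≤ w.length ∧
      ∀ i, i + 1 < w.length →
        cellOk (T.Lc j (T.fm (i₀ + i))) T.S T.H T.Kd T.n0 j (T.fm (i₀ + i)) (w.getD i 0) (w.getD (i + 1) 0) (v.getD i 0)
          (v.getD (i + 1) 0) = true
  | w0 :: w1 :: w, v0 :: v1 :: v, i₀, h => by
    rw [rowOk, Bool.and_eq_true] at h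
    obtain ⟨h1, h2⟩ := h
    obtain ⟨k1, k2, k3⟩ := rowOk_sound T j (w1 :: w) (v1 :: v) (i₀ + 1) h2
    refine ⟨by simpa using k1, by simp, fun i hi => ?_⟩
    cases i with
    | zero => simpa using h1
    | succ i =>
      have := k3 i (by simpa using hi)
      have e : i₀ + 1 + i = i₀ + (i + 1) := by ring
      rw [e] at this
      simpa using this
  | [_], [_], _, _ => by simp
  | [], [], _, h => by simp [rowOk] at h
  | [], _ :: _, _, h => by simp [rowOk] at h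
  | _ :: _, [], _, h => by simp [rowOk] at h
  | [_], _ :: _ :: _, _, h => by simp [rowOk] at h
  | _ :: _ :: _, [_], _, h => by simp [rowOk] at h

theorem rowsOk_sound (T : Tab) : ∀ (R : List (List ℤ)) (j₀ : ℤ),
    rowsOk T (T.fm 0) j₀ R = true → 1 ≤ R.length ∧ ∀ j, j + 1 < R.length →
      leftOk T (j₀ + j) (R.getD j []) (R.getD (j + 1) []) = true ∧
        rowOk T (j₀ + j) (T.fm 0) (R.getD j []) (R.getD (j + 1) []) = true
  | w :: v :: r, j₀, h => by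
    rw [rowsOk, Bool.and_eq_true, Bool.and_eq_true] at h
    obtain ⟨⟨h1, h2⟩, h3⟩ := h
    obtain ⟨k1, k2⟩ := rowsOk_sound T (v :: r) (j₀ + 1) h3
    refine ⟨by simp, fun j hj => ?_⟩
    cases j with
    | zero => simpa using And.intro h1 h2
    | succ j =>
      have := k2 j (by simpa using hj)
      have e : j₀ + 1 + (j : ℤ) = j₀ + ((j + 1 : ℕ) : ℤ) := by
        push_cast
        ring
      rw [e] at this
      simpa using this
  | [_], _, _ => by simp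
  | [], _, h => by simp [rowsOk] at h

/-! ### piecewise linear interpolation -/

/-- cut to `[0, 1]` -/
def cl (x : ℝ) : ℝ := max 0 (min 1 x)

theorem cl_of_le {x : ℝ} (h : x ≤ 0) : cl x = 0 := by
  unfold cl
  rw [max_eq_left]
  exact (min_le_right _ _).trans h

theorem cl_of_ge {x : ℝ} (h : 1 ≤ x) : cl x = 1 := by
  unfold cl
  rw [min_eq_left h, max_eq_right zero_le_one]

theorem cl_of_mem {x : ℝ} (h0 : 0 ≤ x) (h1 : x ≤ 1) : cl x = x := by
  unfold cl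
  rw [min_eq_right h1, max_eq_right h0]

theorem cl_cont : Continuous cl := by
  unfold cl
  fun_prop

/-- the interpolation of a sequence -/
def ip (a : ℕ → ℝ) (n : ℕ) (x : ℝ) : ℝ := a 0 + ∑ l ∈ Finset.range n, (a (l + 1) - a l) * cl (x - l)

theorem ip_cont (a : ℕ → ℝ) (n : ℕ) : Continuous (ip a n) := by
  unfold ip
  have := cl_cont
  fun_prop

theorem ip_of_le (a : ℕ → ℝ) (n : ℕ) {x : ℝ} (hx : x ≤ 0) : ip a n x = a 0 := by
  unfold ip
  rw [Finset.sum_eq_zero, add_zero]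
  intro l _
  rw [cl_of_le (by
    have : (0 : ℝ) ≤ l := Nat.cast_nonneg l
    linarith), mul_zero]

theorem ip_cell (a : ℕ → ℝ) {n i : ℕ} (hi : i < n) {s : ℝ} (h0 : 0 ≤ s) (h1 : s ≤ 1) :
    ip a n (i + s) = (1 - s) * a i + s * a (i + 1) := by
  unfold ip
  have e1 : ∀ m : ℕ, ∑ l ∈ Finset.range m, (a (l + 1) - a l) = a m - a 0 := fun m =>
    Finset.sum_range_sub a m
  have e2 : ∑ l ∈ Finset.range n, (a (l + 1) - a l) * cl ((i : ℝ) + s - l) =
      ∑ l ∈ Finset.range (i + 1), (a (l + 1) - a l) * cl ((i : ℝ) + s - l) := by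
    refine (Finset.sum_subset (Finset.range_subset_range.2 hi) fun l _ hl => ?_).symm
    have h2 : i + 1 ≤ l := by
      rw [Finset.mem_range] at hl
      omega
    have h3 : ((i : ℝ) + 1) ≤ l := by exact_mod_cast h2
    rw [cl_of_le (by linarith), mul_zero]
  rw [e2, Finset.sum_range_succ]
  have e3 : ∑ l ∈ Finset.range i, (a (l + 1) - a l) * cl ((i : ℝ) + s - l) =
      ∑ l ∈ Finset.range i, (a (l + 1) - a l) := by
    refine Finset.sum_congr rfl fun l hl => ?_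
    have h2 : l + 1 ≤ i := Finset.mem_range.1 hl
    have h3 : ((l : ℝ) + 1) ≤ i := by exact_mod_cast h2
    rw [cl_of_ge (by linarith), mul_one]
  have e4 : (i : ℝ) + s - i = s := by ring
  rw [e3, e1, e4, cl_of_mem h0 h1]
  ring

/-! ### the function `W` -/

/-- number of cells in a row -/
def Tab.I (T : Tab) : ℕ := (T.W.getD 0 []).length - 1

/-- number of row pairs -/
def Tab.J (T : Tab) : ℕ := T.W.length - 1

/-- real entries -/
def Tab.wr (T : Tab) (j i : ℕ) : ℝ := (T.w j i : ℝ) / T.S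

/-- one row as a function of `σ` -/
def Tab.row (T : Tab) (j : ℕ) (σ : ℝ) : ℝ :=
  ip (T.wr j) T.I (σ * T.H) + (T.b0 : ℝ) / T.S * ((j + T.n0) / T.Kd) * min σ 0

/-- the function `W` -/
def Tab.Wf (T : Tab) (σ k : ℝ) : ℝ := ip (fun j => T.row j σ) T.J (k * T.Kd)

theorem Tab.row_cont (T : Tab) (j : ℕ) : Continuous (T.row j) := by
  unfold Tab.row
  have := ip_cont (T.wr j) T.I
  fun_prop

theorem Tab.Wf_cont (T : Tab) : Continuous fun z : ℝ × ℝ => T.Wf z.1 z.2 := by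
  unfold Tab.Wf ip
  have h1 := cl_cont
  have h2 := T.row_cont
  fun_prop

/-- a polynomial piece -/
def pc (c : Fin 4 → ℝ) (σ k : ℝ) : ℝ := c 0 + c 1 * σ + c 2 * k + c 3 * (σ * k)

/-- the coefficients of the cell `(i, j)` -/
def Tab.ci (T : Tab) (i j : ℕ) : Fin 4 → ℝ :=
  let w0 := T.wr j i
  let w1 := T.wr j (i + 1)
  let v0 := T.wr (j + 1) i
  let v1 := T.wr (j + 1) (i + 1)
  let x : ℝ := v1 - v0 - w1 + w0
  ![w0 - i * (w1 - w0) - j * (v0 - w0) + i * j * x, T.H * (w1 - w0 - j * x), T.Kd * (v0 - w0 - i * x),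
    T.H * T.Kd * x]

/-- the coefficients of the cell to the left -/
def Tab.cL (T : Tab) (j : ℕ) : Fin 4 → ℝ :=
  ![T.wr j 0 - j * (T.wr (j + 1) 0 - T.wr j 0), (T.b0 : ℝ) / T.S * (T.n0 / T.Kd),
    T.Kd * (T.wr (j + 1) 0 - T.wr j 0), (T.b0 : ℝ) / T.S]

/-- the cells: `none` is the left one -/
def Tab.cc (T : Tab) : Option ℕ × ℕ → Fin 4 → ℝ
  | (some i, j) => T.ci i j
  | (none, j) => T.cL j

/-- membership of a point in a cell -/
def Tab.In (T : Tab) (c : Option ℕ × ℕ) (σ k : ℝ) : Prop :=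
  (match c.1 with
    | some i => (i : ℝ) ≤ σ * T.H ∧ σ * T.H ≤ i + 1
    | none => σ ≤ 0) ∧ (c.2 : ℝ) ≤ k * T.Kd ∧ k * T.Kd ≤ c.2 + 1

/-- the index set -/
def Tab.cells (T : Tab) : Finset (Option ℕ × ℕ) :=
  (insert none ((Finset.range T.I).image some)) ×ˢ Finset.range T.J

theorem Tab.ci_eq (T : Tab) (hH : (T.H : ℝ) ≠ 0) (hK : (T.Kd : ℝ) ≠ 0) (i j : ℕ) (s t : ℝ) :
    pc (T.ci i j) ((i + s) / T.H) ((j + t) / T.Kd) =
      cW (T.wr j i) (T.wr j (i + 1)) (T.wr (j + 1) i) (T.wr (j + 1) (i + 1)) s t := by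
  simp only [pc, Tab.ci, cW, Matrix.cons_val_zero, Matrix.cons_val_one, Matrix.cons_val]
  field_simp
  ring

theorem Tab.Wf_cell (T : Tab) (hH : 0 < T.H) (hK : 0 < T.Kd) {c : Option ℕ × ℕ} (hc : c ∈ T.cells)
    {σ k : ℝ} (h : T.In c σ k) : T.Wf σ k = pc (T.cc c) σ k := by
  have hHr : (0 : ℝ) < T.H := by exact_mod_cast hH
  have hKr : (0 : ℝ) < T.Kd := by exact_mod_cast hK
  obtain ⟨i', j⟩ := c
  obtain ⟨h1, h2, h3⟩ := h
  rw [Tab.cells, Finset.mem_product, Finset.mem_range] at hc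
  obtain ⟨hc1, hc2⟩ := hc
  have hj : j < T.J := hc2
  set t : ℝ := k * T.Kd - j with ht
  have ek : k * T.Kd = j + t := by rw [ht]; ring
  have ek' : k = (j + t) / T.Kd := by rw [← ek]; field_simp
  have h2' : (j : ℝ) ≤ k * T.Kd := h2
  have h3' : k * T.Kd ≤ (j : ℝ) + 1 := h3
  unfold Tab.Wf
  rw [ek, ip_cell _ hj (by linarith) (by linarith)]
  cases i' with
  | some i =>
    have h1' : (i : ℝ) ≤ σ * T.H ∧ σ * T.H ≤ i + 1 := h1
    have hi : i < T.I := by simpa using hc1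
    set s : ℝ := σ * T.H - i with hs
    have es : σ * T.H = i + s := by rw [hs]; ring
    have es' : σ = (i + s) / T.H := by rw [← es]; field_simp
    have hσ : 0 ≤ σ := by
      have : (0 : ℝ) ≤ i := Nat.cast_nonneg i
      have : 0 ≤ σ * T.H := by linarith [h1'.1]
      exact nonneg_of_mul_nonneg_left this hHr
    have e1 : ∀ j' : ℕ, T.row j' σ = (1 - s) * T.wr j' i + s * T.wr j' (i + 1) := fun j' => by
      unfold Tab.row
      rw [es, ip_cell _ hi (by linarith [h1'.1]) (by linarith [h1'.2]), min_eq_right hσ, mul_zero,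
        add_zero]
    rw [e1, e1, es', ek']
    change _ = pc (T.ci i j) _ _
    rw [T.ci_eq hHr.ne' hKr.ne']
    rfl
  | none =>
    have h1' : σ ≤ 0 := h1
    have e1 : ∀ j' : ℕ, T.row j' σ = T.wr j' 0 + (T.b0 : ℝ) / T.S * ((j' + T.n0) / T.Kd) * σ := fun j' => by
      unfold Tab.row
      rw [ip_of_le _ _ (mul_nonpos_of_nonpos_of_nonneg h1' hHr.le), min_eq_left h1']
    rw [e1, e1, ek']
    change _ = pc (T.cL j) _ _
    simp only [pc, Tab.cL, Matrix.cons_val_zero, Matrix.cons_val_one, Matrix.cons_val]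
    push_cast
    field_simp
    ring

/-- every point lies in a cell -/
theorem Tab.exists_cell (T : Tab) (hH : 0 < T.H) (hK : 0 < T.Kd) (hI : 0 < T.I) (hJ : 0 < T.J) {σ k : ℝ}
    (h1 : σ * T.H ≤ T.I) (h2 : 0 ≤ k) (h3 : k * T.Kd ≤ T.J) : ∃ c ∈ T.cells, T.In c σ k := by
  have hHr : (0 : ℝ) < T.H := by exact_mod_cast hH
  have hKr : (0 : ℝ) < T.Kd := by exact_mod_cast hK
  have one : ∀ (n : ℕ) (x : ℝ), 0 < n → 0 ≤ x → x ≤ n → ∃ i < n, (i : ℝ) ≤ x ∧ x ≤ i + 1 := by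
    intro n x hn hx0 hx1
    rcases hx1.eq_or_lt with h | h
    · refine ⟨n - 1, by omega, ?_, ?_⟩
      · rw [h]
        exact_mod_cast Nat.sub_le n 1
      · rw [h]
        have : ((n - 1 : ℕ) : ℝ) + 1 = n := by
          exact_mod_cast Nat.sub_add_cancel hn
        rw [this]
    · refine ⟨⌊x⌋₊, ?_, Nat.floor_le hx0, (Nat.lt_floor_add_one x).le⟩
      rw [Nat.floor_lt hx0]
      exact h
  obtain ⟨j, hj, hj1, hj2⟩ := one T.J (k * T.Kd) hJ (by positivity) h3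
  rcases le_total σ 0 with h | h
  · exact ⟨(none, j), by simp [Tab.cells, hj], h, hj1, hj2⟩
  · obtain ⟨i, hi, hi1, hi2⟩ := one T.I (σ * T.H) hI (by positivity) h1
    exact ⟨(some i, j), by simp [Tab.cells, hj, hi], ⟨hi1, hi2⟩, hj1, hj2⟩

/-! ### soundness -/

theorem cast_ediv_le {a b : ℤ} (hb : 0 < b) : ((a / b : ℤ) : ℝ) ≤ (a : ℝ) / b := by
  have hbr : (0 : ℝ) < b := by exact_mod_cast hb
  rw [le_div_iff₀ hbr]
  exact_mod_cast Int.ediv_mul_le a hb.ne'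

theorem Tab.fm_le (T : Tab) (hS : 0 < T.S) (hH : 0 < T.H) (hf : 0 < T.f0) (hE : 0 < T.E)
    (h : T.E * (6 * T.H ^ 3) ≤ T.S * (6 * T.H ^ 3 + 6 * T.H ^ 2 + 3 * T.H + 1)) : ∀ i : ℕ,
    0 ≤ T.fm i ∧ (T.fm i : ℝ) / T.S ≤ (T.f0 : ℝ) / T.S * Real.exp (((i : ℝ) + 1 / 2) / T.H) := by
  have hSr : (0 : ℝ) < T.S := by exact_mod_cast hS
  have hHr : (0 : ℝ) < T.H := by exact_mod_cast hH
  have hfr : (0 : ℝ) < T.f0 := by exact_mod_cast hf
  have hEr : (0 : ℝ) < T.E := by exact_mod_cast hE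
  have hexp : (T.E : ℝ) / T.S ≤ Real.exp (1 / T.H) := by
    have h1 := Real.sum_le_exp_of_nonneg (x := 1 / (T.H : ℝ)) (by positivity) 4
    refine le_trans ?_ h1
    have h2 : (T.E : ℝ) * (6 * T.H ^ 3) ≤ T.S * (6 * T.H ^ 3 + 6 * T.H ^ 2 + 3 * T.H + 1) := by
      exact_mod_cast h
    have e1 : ∑ i ∈ Finset.range 4, (1 / (T.H : ℝ)) ^ i / (i.factorial : ℝ) =
        (6 * T.H ^ 3 + 6 * T.H ^ 2 + 3 * T.H + 1) / (6 * T.H ^ 3) := by
      simp only [Finset.sum_range_succ, Finset.sum_range_zero, Nat.factorial]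
      push_cast
      field_simp
      ring
    rw [e1, div_le_div_iff₀ hSr (by positivity)]
    linarith
  intro i
  induction i with
  | zero =>
    refine ⟨Int.ediv_nonneg (by positivity) (by positivity), ?_⟩
    have h1 : ((T.fm 0 : ℤ) : ℝ) ≤ ((T.f0 * (2 * T.H + 1) : ℤ) : ℝ) / ((2 * T.H : ℤ) : ℝ) :=
      cast_ediv_le (by positivity)
    push_cast at h1
    have h2 : 1 + 1 / (2 * (T.H : ℝ)) ≤ Real.exp (((0 : ℕ) + 1 / 2 : ℝ) / T.H) := by
      have := Real.add_one_le_exp (1 / (2 * (T.H : ℝ)))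
      have e : (((0 : ℕ) + 1 / 2 : ℝ) / T.H) = 1 / (2 * (T.H : ℝ)) := by
        push_cast
        field_simp
        norm_num
      rw [e]
      linarith
    have h3 : (T.f0 : ℝ) * (2 * T.H + 1) / (2 * T.H) = T.f0 * (1 + 1 / (2 * (T.H : ℝ))) := by
      field_simp
    rw [h3] at h1
    have h4 : (T.f0 : ℝ) * (1 + 1 / (2 * (T.H : ℝ))) ≤ T.f0 * Real.exp (((0 : ℕ) + 1 / 2 : ℝ) / T.H) :=
      mul_le_mul_of_nonneg_left h2 hfr.le
    rw [div_mul_eq_mul_div]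
    exact div_le_div_of_nonneg_right (h1.trans h4) hSr.le
  | succ i ih =>
    obtain ⟨i1, i2⟩ := ih
    refine ⟨Int.ediv_nonneg (mul_nonneg i1 hE.le) hS.le, ?_⟩
    have h1 : ((T.fm (i + 1) : ℤ) : ℝ) ≤ ((T.fm i * T.E : ℤ) : ℝ) / (T.S : ℝ) := cast_ediv_le hS
    push_cast at h1
    have i1r : (0 : ℝ) ≤ T.fm i := by exact_mod_cast i1
    have e1 : Real.exp ((((i + 1 : ℕ) : ℝ) + 1 / 2) / T.H) =
        Real.exp (((i : ℝ) + 1 / 2) / T.H) * Real.exp (1 / T.H) := by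
      rw [← Real.exp_add]
      congr 1
      push_cast
      field_simp
      ring
    rw [e1]
    calc (T.fm (i + 1) : ℝ) / T.S ≤ (T.fm i : ℝ) * T.E / T.S / T.S :=
          div_le_div_of_nonneg_right h1 hSr.le
      _ = (T.fm i : ℝ) / T.S * (T.E / T.S) := by ring
      _ ≤ (T.f0 : ℝ) / T.S * Real.exp (((i : ℝ) + 1 / 2) / T.H) * Real.exp (1 / T.H) :=
          mul_le_mul i2 hexp (by positivity) (by positivity)
      _ = _ := by ring

/-- what the tests give -/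
structure Tab.Good (T : Tab) : Prop where
  S : 0 < T.S
  H : 0 < T.H
  K : 0 < T.Kd
  f : 0 < T.f0
  E : 0 < T.E
  b : 0 ≤ T.b0
  n : 0 ≤ T.n0
  B : 0 ≤ T.B0
  bs : ∀ e ∈ T.L, 0 ≤ e.2.2
  ws : ∀ r ∈ T.W, ∀ x ∈ r, x ≤ T.Wm
  e : T.E * (6 * T.H ^ 3) ≤ T.S * (6 * T.H ^ 3 + 6 * T.H ^ 2 + 3 * T.H + 1)
  /-- all rows have the length `I + 1` -/
  len : ∀ j, j < T.W.length → (T.W.getD j []).length = (T.W.getD 0 []).length
  cel : ∀ i j : ℕ, i < T.I → j < T.J → CellP T.L T.S T.H T.Kd T.n0 j (T.fm i) (T.w j i) (T.w j (i + 1))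
    (T.w (j + 1) i) (T.w (j + 1) (i + 1))
  lef : ∀ j : ℕ, j < T.J →
    T.Kd * (T.w j 0 + j * (T.w (j + 1) 0 - T.w j 0)) + T.b0 * (j + T.n0) ≤ T.Kd * T.B0 ∧
    T.Kd * (T.w (j + 1) 0 + (j + 1) * (T.w (j + 1) 0 - T.w j 0)) + T.b0 * (j + 1 + T.n0) ≤ T.Kd * T.B0

theorem rowsOk_len (T : Tab) {R : List (List ℤ)} (hr : rowsOk T (T.fm 0) 0 R = true) :
    ∀ j, j < R.length → (R.getD j []).length = (R.getD 0 []).length := by
  obtain ⟨-, h2⟩ := rowsOk_sound T R 0 hr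
  intro j
  induction j with
  | zero => exact fun _ => rfl
  | succ j ih =>
    intro hj
    obtain ⟨-, k2⟩ := h2 j hj
    have := (rowOk_sound T _ _ _ 0 k2).1
    rw [← this, ih (by omega)]

theorem Tab.good_of_ok {T : Tab} (h : T.ok = true) : T.Good := by
  simp only [Tab.ok, Bool.and_eq_true, decide_eq_true_eq, List.all_eq_true] at h
  obtain ⟨⟨⟨⟨⟨⟨⟨⟨⟨⟨⟨a1, a2⟩, a3⟩, a4⟩, a5⟩, a6⟩, a9⟩, a10⟩, a11⟩, a12⟩, a7⟩, a8⟩ := h
  obtain ⟨h1, h2⟩ := rowsOk_sound T T.W 0 a8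
  have hlen := rowsOk_len T a8
  refine ⟨a1, a2, a3, a4, a5, a6, a9, a10, a11, a12, a7, hlen, fun i j hi hj => ?_, fun j hj => ?_⟩
  · have hj' : j + 1 < T.W.length := by
      unfold Tab.J at hj
      omega
    obtain ⟨-, k2⟩ := h2 j hj'
    obtain ⟨m1, -, m3⟩ := rowOk_sound T _ _ _ 0 k2
    have hi' : i + 1 < (T.W.getD j []).length := by
      rw [hlen j (by omega)]
      unfold Tab.I at hi
      omega
    have := m3 i hi'
    rw [zero_add, zero_add] at this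
    exact (cellOk_P a1 a2 a3 this).mono (T.Lc_mem _ _)
  · have hj' : j + 1 < T.W.length := by
      unfold Tab.J at hj
      omega
    obtain ⟨k1, k2⟩ := h2 j hj'
    unfold Tab.w
    cases e1 : T.W.getD j [] with
    | nil =>
      rw [e1] at k1
      simp [leftOk] at k1
    | cons w0 w =>
      cases e2 : T.W.getD (j + 1) [] with
      | nil =>
        rw [e1, e2] at k1
        simp [leftOk] at k1
      | cons v0 v =>
        rw [e1, e2] at k1
        simp only [leftOk, Bool.and_eq_true, decide_eq_true_eq] at k1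
        simpa using k1

theorem Tab.Good.left {T : Tab} (h : T.Good) {j : ℕ} (hj : j < T.J) :
    T.Kd * (T.w j 0 + j * (T.w (j + 1) 0 - T.w j 0)) + T.b0 * (j + T.n0) ≤ T.Kd * T.B0 ∧
    T.Kd * (T.w (j + 1) 0 + (j + 1) * (T.w (j + 1) 0 - T.w j 0)) + T.b0 * (j + 1 + T.n0) ≤
      T.Kd * T.B0 := h.lef j hj

/-- **the inequality on every piece** -/
theorem Tab.Good.piece {T : Tab} (h : T.Good) {c : Option ℕ × ℕ} (hc : c ∈ T.cells)
    {σ k : ℝ} (hin : T.In c σ k) {ν G : ℝ} (hν : 0 ≤ ν)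
    (hG : ∀ e ∈ T.L, -((e.1 : ℝ) / T.S) + (e.2.1 : ℝ) / T.S * ν -
      (e.2.2 : ℝ) / T.S * ((T.f0 : ℝ) / T.S * Real.exp σ * (k + T.n0 / T.Kd)) ≤ G) :
    -((T.f0 : ℝ) / T.S * Real.exp σ * (T.cc c 1 + T.cc c 3 * k)) +
      (pc (T.cc c) σ k + (T.cc c 1 + T.cc c 3 * k) + k * (T.cc c 2 + T.cc c 3 * σ)) * ν ≤ G := by
  have hSr : (0 : ℝ) < T.S := by exact_mod_cast h.S
  have hHr : (0 : ℝ) < T.H := by exact_mod_cast h.H
  have hKr : (0 : ℝ) < T.Kd := by exact_mod_cast h.K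
  have hfr : (0 : ℝ) < T.f0 := by exact_mod_cast h.f
  have hbr : (0 : ℝ) ≤ T.b0 := by exact_mod_cast h.b
  obtain ⟨i', j⟩ := c
  obtain ⟨h1, h2, h3⟩ := hin
  rw [Tab.cells, Finset.mem_product, Finset.mem_range] at hc
  obtain ⟨hc1, hc2⟩ := hc
  have hj : j < T.J := hc2
  have hjr : (0 : ℝ) ≤ j := Nat.cast_nonneg j
  have h2' : (j : ℝ) ≤ k * T.Kd := h2
  have h3' : k * T.Kd ≤ (j : ℝ) + 1 := h3
  have hk0 : 0 ≤ k := by
    have : 0 ≤ k * T.Kd := hjr.trans h2'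
    exact nonneg_of_mul_nonneg_left this hKr
  set t : ℝ := k * T.Kd - j with ht
  have ek' : k = (j + t) / T.Kd := by
    rw [ht]
    field_simp
    ring
  cases i' with
  | some i =>
    have h1' : (i : ℝ) ≤ σ * T.H ∧ σ * T.H ≤ i + 1 := h1
    have hi : i < T.I := by simpa using hc1
    set s : ℝ := σ * T.H - i with hs
    have es' : σ = (i + s) / T.H := by
      rw [hs]
      field_simp
      ring
    have s0 : 0 ≤ s := by linarith [h1'.1]
    have s1 : s ≤ 1 := by linarith [h1'.2]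
    obtain ⟨f0, f1⟩ := T.fm_le h.S h.H h.f h.E h.e i
    have hfm0 : (0 : ℝ) ≤ T.fm i := by exact_mod_cast f0
    have hx : 0 ≤ 1 + (s - 1 / 2) / (T.H : ℝ) := by
      have h4 : (1 : ℝ) ≤ T.H := by exact_mod_cast h.H
      have h5 : -(1 / 2) ≤ (s - 1 / 2) / (T.H : ℝ) := by
        rw [le_div_iff₀ hHr]
        nlinarith
      linarith
    have hf : (T.fm i : ℝ) / T.S * (1 + (s - 1 / 2) / T.H) ≤ (T.f0 : ℝ) / T.S * Real.exp σ := by
      have h4 := mul_le_mul_of_nonneg_right f1 hx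
      have h5 : 1 + (s - 1 / 2) / (T.H : ℝ) ≤ Real.exp ((s - 1 / 2) / T.H) := by
        have := Real.add_one_le_exp ((s - 1 / 2) / (T.H : ℝ))
        linarith
      have h6 : Real.exp (((i : ℝ) + 1 / 2) / T.H) * Real.exp ((s - 1 / 2) / T.H) = Real.exp σ := by
        rw [← Real.exp_add]
        congr 1
        rw [es']
        field_simp
        ring
      calc (T.fm i : ℝ) / T.S * (1 + (s - 1 / 2) / T.H)
          ≤ (T.f0 : ℝ) / T.S * Real.exp (((i : ℝ) + 1 / 2) / T.H) * (1 + (s - 1 / 2) / T.H) := h4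
        _ ≤ (T.f0 : ℝ) / T.S * Real.exp (((i : ℝ) + 1 / 2) / T.H) * Real.exp ((s - 1 / 2) / T.H) :=
          mul_le_mul_of_nonneg_left h5 (by positivity)
        _ = (T.f0 : ℝ) / T.S * Real.exp σ := by rw [mul_assoc, h6]
    have key := CellP.sound h.S h.H h.K h.n (Int.natCast_nonneg j) (h.cel i j hi hj) s0 s1
      (t := t) (by linarith) (by linarith) (k := k) (by push_cast; exact ek') hf (by positivity) hν hG
    have e1 : cS (T.H : ℝ) ((T.w j i : ℝ) / T.S) ((T.w j (i + 1) : ℝ) / T.S)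
        ((T.w (j + 1) i : ℝ) / T.S) ((T.w (j + 1) (i + 1) : ℝ) / T.S) t =
        T.ci i j 1 + T.ci i j 3 * k := by
      simp only [cS, Tab.ci, Tab.wr, Matrix.cons_val_zero, Matrix.cons_val_one, Matrix.cons_val]
      rw [ek']
      field_simp
      ring
    have e2 : cK (T.Kd : ℝ) ((T.w j i : ℝ) / T.S) ((T.w j (i + 1) : ℝ) / T.S)
        ((T.w (j + 1) i : ℝ) / T.S) ((T.w (j + 1) (i + 1) : ℝ) / T.S) s =
        T.ci i j 2 + T.ci i j 3 * σ := by
      simp only [cK, Tab.ci, Tab.wr, Matrix.cons_val_zero, Matrix.cons_val_one, Matrix.cons_val]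
      rw [es']
      field_simp
      ring
    have e3 : cW ((T.w j i : ℝ) / T.S) ((T.w j (i + 1) : ℝ) / T.S)
        ((T.w (j + 1) i : ℝ) / T.S) ((T.w (j + 1) (i + 1) : ℝ) / T.S) s t = pc (T.ci i j) σ k := by
      rw [es', ek', T.ci_eq hHr.ne' hKr.ne']
      rfl
    rw [e1, e2, e3] at key
    exact key
  | none =>
    have h1' : σ ≤ 0 := h1
    obtain ⟨l1, l2⟩ := h.left hj
    have hnr : (0 : ℝ) ≤ T.n0 := by exact_mod_cast h.n
    have l1' : (T.Kd : ℝ) * (T.w j 0 + j * (T.w (j + 1) 0 - T.w j 0)) + T.b0 * (j + T.n0) ≤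
        T.Kd * T.B0 := by
      exact_mod_cast l1
    have l2' : (T.Kd : ℝ) * (T.w (j + 1) 0 + (j + 1) * (T.w (j + 1) 0 - T.w j 0)) +
        T.b0 * (j + 1 + T.n0) ≤ T.Kd * T.B0 := by
      exact_mod_cast l2
    have hm := hG (0, T.B0, T.b0) (by simp [Tab.L])
    simp only [Int.cast_zero, zero_div, neg_zero, zero_add] at hm
    change -((T.f0 : ℝ) / T.S * Real.exp σ * (T.cL j 1 + T.cL j 3 * k)) +
      (pc (T.cL j) σ k + (T.cL j 1 + T.cL j 3 * k) + k * (T.cL j 2 + T.cL j 3 * σ)) * ν ≤ G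
    have e1 : pc (T.cL j) σ k + (T.cL j 1 + T.cL j 3 * k) + k * (T.cL j 2 + T.cL j 3 * σ) ≤
        (T.B0 : ℝ) / T.S := by
      simp only [pc, Tab.cL, Tab.wr, Matrix.cons_val_zero, Matrix.cons_val_one, Matrix.cons_val]
      have h5 : (T.b0 : ℝ) / T.S * (σ * (2 * k + T.n0 / T.Kd)) ≤ 0 := by
        refine mul_nonpos_of_nonneg_of_nonpos (by positivity) ?_
        exact mul_nonpos_of_nonpos_of_nonneg h1' (by positivity)
      have h6 : ((T.w j 0 : ℝ) / T.S - j * ((T.w (j + 1) 0 : ℝ) / T.S - (T.w j 0 : ℝ) / T.S)) +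
          2 * (T.Kd * ((T.w (j + 1) 0 : ℝ) / T.S - (T.w j 0 : ℝ) / T.S)) * k +
          (T.b0 : ℝ) / T.S * (k + T.n0 / T.Kd) ≤ (T.B0 : ℝ) / T.S := by
        have t0 : 0 ≤ t := by linarith
        have t1 : 0 ≤ 1 - t := by linarith
        have m1 := mul_le_mul_of_nonneg_left l1' t1
        have m2 := mul_le_mul_of_nonneg_left l2' t0
        have e : ((T.w j 0 : ℝ) / T.S - j * ((T.w (j + 1) 0 : ℝ) / T.S - (T.w j 0 : ℝ) / T.S)) +
            2 * (T.Kd * ((T.w (j + 1) 0 : ℝ) / T.S - (T.w j 0 : ℝ) / T.S)) * k +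
            (T.b0 : ℝ) / T.S * (k + T.n0 / T.Kd) =
            ((1 - t) * ((T.Kd : ℝ) * (T.w j 0 + j * (T.w (j + 1) 0 - T.w j 0)) +
              T.b0 * (j + T.n0)) + t * ((T.Kd : ℝ) * (T.w (j + 1) 0 + (j + 1) *
              (T.w (j + 1) 0 - T.w j 0)) + T.b0 * (j + 1 + T.n0))) / (T.Kd * T.S) := by
          rw [ek']
          field_simp
          ring
        rw [e, div_le_div_iff₀ (by positivity) hSr]
        nlinarith
      nlinarith
    have e2 : T.cL j 1 + T.cL j 3 * k = (T.b0 : ℝ) / T.S * (k + T.n0 / T.Kd) := by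
      simp only [Tab.cL, Matrix.cons_val_one, Matrix.cons_val]
      ring
    have e3 := mul_le_mul_of_nonneg_right e1 hν
    rw [e2] at e3 ⊢
    have e4 : (T.b0 : ℝ) / T.S * ((T.f0 : ℝ) / T.S * Real.exp σ * (k + T.n0 / T.Kd)) =
        (T.f0 : ℝ) / T.S * Real.exp σ * ((T.b0 : ℝ) / T.S * (k + T.n0 / T.Kd)) := by ring
    rw [e4] at hm
    linarith

end Pool.Agent.FPX.MCW
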