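import Pool.Agent.FPX.KME
import Pool.Agent.FPX.MCW

/-
MCX (helper52): the core inequality of the modulus closing from a checked table (`MCW.Tab.ok`), on top of
`mcu_top` (helper95). `V (a, m) = m W (ln (m / a) - ln f0, 4 m / κ)`; the value function on the accounts
`x = (area, jac, charge)` is `U x = V (x 0 + a', x 2 + N a')` (shift by `a' > 0`: no singularity at 0).
`Par.core` is the plain form, `Par.coreK` the form with a constant side charge (`mcu_topU`, helper57).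
-/

open MeasureTheory Set Filter Topology
open scoped ENNReal NNReal

noncomputable section

namespace Pool.Agent.FPX.MCW

/-! ### the value function -/

/-- the logarithmic variable -/
def Tab.sg (T : Tab) (a m : ℝ) : ℝ := Real.log m - Real.log a - Real.log ((T.f0 : ℝ) / T.S)

/-- the value function -/
def Tab.V (T : Tab) (κ a m : ℝ) : ℝ := m * T.Wf (T.sg a m) (4 / κ * m)

/-- a piece of the value function -/
def Tab.Vc (T : Tab) (κ : ℝ) (c : Option ℕ × ℕ) (a m : ℝ) : ℝ := m * pc (T.cc c) (T.sg a m) (4 / κ * m)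

/-- the derivative of a piece in the area -/
def Tab.ga (T : Tab) (κ : ℝ) (c : Option ℕ × ℕ) (a m : ℝ) : ℝ :=
  -(m / a * (T.cc c 1 + T.cc c 3 * (4 / κ * m)))

/-- the derivative of a piece in the charge -/
def Tab.gm (T : Tab) (κ : ℝ) (c : Option ℕ × ℕ) (a m : ℝ) : ℝ :=
  pc (T.cc c) (T.sg a m) (4 / κ * m) + (T.cc c 1 + T.cc c 3 * (4 / κ * m)) +
    4 / κ * m * (T.cc c 2 + T.cc c 3 * T.sg a m)

theorem Tab.Vc_hasFDerivAt (T : Tab) (κ : ℝ) (c : Option ℕ × ℕ) {E : Type*} [NormedAddCommGroup E]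
    [NormedSpace ℝ E] {fa fm : E → ℝ} {A M : E →L[ℝ] ℝ} {x : E} (ha : HasFDerivAt fa A x)
    (hm : HasFDerivAt fm M x) (pa : 0 < fa x) (pm : 0 < fm x) :
    HasFDerivAt (fun z => T.Vc κ c (fa z) (fm z))
      (T.ga κ c (fa x) (fm x) • A + T.gm κ c (fa x) (fm x) • M) x := by
  have hσ := ((hm.log pm.ne').sub (ha.log pa.ne')).sub_const (Real.log ((T.f0 : ℝ) / T.S))
  have hk := hm.const_mul (4 / κ)
  have h1 := (((hσ.const_mul (T.cc c 1)).const_add (T.cc c 0)).add (hk.const_mul (T.cc c 2))).add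
    ((hσ.mul hk).const_mul (T.cc c 3))
  have h2 := hm.mul h1
  have h3 : HasFDerivAt (fun z => T.Vc κ c (fa z) (fm z)) _ x := h2
  refine h3.congr_fderiv ?_
  refine ContinuousLinearMap.ext fun z => ?_
  simp only [Tab.ga, Tab.gm, Tab.sg, pc, add_apply, sub_apply,
    smul_apply, smul_eq_mul, Pi.add_apply, Pi.mul_apply, Pi.sub_apply]
  field_simp
  ring

theorem Tab.V_cell (T : Tab) (hH : 0 < T.H) (hK : 0 < T.Kd) {κ : ℝ} {c : Option ℕ × ℕ}
    (hc : c ∈ T.cells) {a m : ℝ} (h : T.In c (T.sg a m) (4 / κ * m)) : T.V κ a m = T.Vc κ c a m := by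
  unfold Tab.V Tab.Vc
  rw [T.Wf_cell hH hK hc h]

theorem comp2 {E : Type*} [TopologicalSpace E] {F : ℝ → ℝ → ℝ} (hF : Continuous fun z : ℝ × ℝ => F z.1 z.2)
    {s : Set E} {f g : E → ℝ}
    (cf : ContinuousOn f s) (cg : ContinuousOn g s) : ContinuousOn (fun z => F (f z) (g z)) s := by
  have h3 : ContinuousOn (fun z => ((f z, g z) : ℝ × ℝ)) s := cf.prodMk cg
  exact hF.comp_continuousOn h3

theorem Tab.sg_cont {E : Type*} [TopologicalSpace E] (T : Tab) {s : Set E} {fa fm : E → ℝ}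
    (ca : ContinuousOn fa s) (cm : ContinuousOn fm s) (pa : ∀ z ∈ s, fa z ≠ 0)
    (pm : ∀ z ∈ s, fm z ≠ 0) : ContinuousOn (fun z => T.sg (fa z) (fm z)) s := by
  have a1 : ContinuousOn (fun z => Real.log (fm z)) s := cm.log pm
  have a2 : ContinuousOn (fun z => Real.log (fa z)) s := ca.log pa
  have h : ContinuousOn (fun z => Real.log (fm z) - Real.log (fa z) - Real.log ((T.f0 : ℝ) / T.S)) s :=
    (a1.sub a2).sub continuousOn_const
  exact h

theorem Tab.V_cont {E : Type*} [TopologicalSpace E] (T : Tab) (κ : ℝ) {s : Set E} {fa fm : E → ℝ}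
    (ca : ContinuousOn fa s) (cm : ContinuousOn fm s) (pa : ∀ z ∈ s, fa z ≠ 0)
    (pm : ∀ z ∈ s, fm z ≠ 0) : ContinuousOn (fun z => T.V κ (fa z) (fm z)) s := by
  have h1 := T.sg_cont ca cm pa pm
  have h2 : ContinuousOn (fun z => 4 / κ * fm z) s := continuousOn_const.mul cm
  have h4 : ContinuousOn (fun z => T.Wf (T.sg (fa z) (fm z)) (4 / κ * fm z)) s :=
    comp2 (F := T.Wf) T.Wf_cont h1 h2
  have h5 : ContinuousOn (fun z => fm z * T.Wf (T.sg (fa z) (fm z)) (4 / κ * fm z)) s := cm.mul h4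
  exact h5

theorem Tab.In_closed (T : Tab) (c : Option ℕ × ℕ) : IsClosed {p : ℝ × ℝ | T.In c p.1 p.2} := by
  obtain ⟨i, j⟩ := c
  have h2 : IsClosed {p : ℝ × ℝ | (j : ℝ) ≤ p.2 * T.Kd ∧ p.2 * T.Kd ≤ j + 1} := by
    have a1 : IsClosed {p : ℝ × ℝ | (j : ℝ) ≤ p.2 * T.Kd} := isClosed_le (by fun_prop) (by fun_prop)
    have a2 : IsClosed {p : ℝ × ℝ | p.2 * T.Kd ≤ j + 1} := isClosed_le (by fun_prop) (by fun_prop)
    exact a1.inter a2
  cases i with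
  | some i =>
    have h1 : IsClosed {p : ℝ × ℝ | (i : ℝ) ≤ p.1 * T.H ∧ p.1 * T.H ≤ i + 1} := by
      have a1 : IsClosed {p : ℝ × ℝ | (i : ℝ) ≤ p.1 * T.H} := isClosed_le (by fun_prop) (by fun_prop)
      have a2 : IsClosed {p : ℝ × ℝ | p.1 * T.H ≤ i + 1} := isClosed_le (by fun_prop) (by fun_prop)
      exact a1.inter a2
    exact h1.inter h2
  | none =>
    have h1 : IsClosed {p : ℝ × ℝ | p.1 ≤ 0} := isClosed_le (by fun_prop) (by fun_prop)
    exact h1.inter h2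

/-- the accounts: area, jac, charge -/
def mcD (a₁ N X : ℝ) : Set (Fin 3 → ℝ) :=
  {x | 0 ≤ x 0 ∧ x 0 ≤ a₁ ∧ 0 ≤ x 2 ∧ x 2 ≤ N * x 0 ∧ x 2 ≤ X}

theorem mcD_convex (a₁ N X : ℝ) : Convex ℝ (mcD a₁ N X) := by
  intro x hx y hy s t hs ht hst
  obtain ⟨x1, x2, x3, x4, x5⟩ := hx
  obtain ⟨y1, y2, y3, y4, y5⟩ := hy
  have e0 : (s • x + t • y) 0 = s * x 0 + t * y 0 := rfl
  have e2 : (s • x + t • y) 2 = s * x 2 + t * y 2 := rfl
  have es : s = 1 - t := by linarith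
  refine ⟨?_, ?_, ?_, ?_, ?_⟩
  · rw [e0]
    positivity
  · rw [e0]
    have h1 := mul_le_mul_of_nonneg_left x2 hs
    have h2 := mul_le_mul_of_nonneg_left y2 ht
    have h3 : s * a₁ + t * a₁ = a₁ := by rw [← add_mul, hst, one_mul]
    linarith
  · rw [e2]
    positivity
  · rw [e0, e2]
    have h1 := mul_le_mul_of_nonneg_left x4 hs
    have h2 := mul_le_mul_of_nonneg_left y4 ht
    linarith
  · rw [e2]
    have h1 := mul_le_mul_of_nonneg_left x5 hs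
    have h2 := mul_le_mul_of_nonneg_left y5 ht
    have h3 : s * X + t * X = X := by rw [← add_mul, hst, one_mul]
    linarith

/-- the value function on the accounts -/
def Tab.U (T : Tab) (κ a' N : ℝ) (x : Fin 3 → ℝ) : ℝ := T.V κ (x 0 + a') (x 2 + N * a')

/-- the functional of a cell -/
def Tab.gr (T : Tab) (κ a' N : ℝ) (c : Option ℕ × ℕ) (x : Fin 3 → ℝ) : (Fin 3 → ℝ) →L[ℝ] ℝ :=
  T.ga κ c (x 0 + a') (x 2 + N * a') • (ContinuousLinearMap.proj 0 : (Fin 3 → ℝ) →L[ℝ] ℝ) +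
    T.gm κ c (x 0 + a') (x 2 + N * a') • (ContinuousLinearMap.proj 2 : (Fin 3 → ℝ) →L[ℝ] ℝ)

theorem Tab.gr_apply (T : Tab) (κ a' N : ℝ) (c : Option ℕ × ℕ) (x y : Fin 3 → ℝ) :
    T.gr κ a' N c x y =
      T.ga κ c (x 0 + a') (x 2 + N * a') * y 0 + T.gm κ c (x 0 + a') (x 2 + N * a') * y 2 := rfl

/-- the cells at a point -/
def Tab.at' (T : Tab) (κ a' N : ℝ) (x : Fin 3 → ℝ) : Set (Option ℕ × ℕ) :=
  {c | c ∈ T.cells ∧ T.In c (T.sg (x 0 + a') (x 2 + N * a')) (4 / κ * (x 2 + N * a'))}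

/-- the functionals at a point -/
def Tab.Gs (T : Tab) (κ a' N : ℝ) (x : Fin 3 → ℝ) : Set ((Fin 3 → ℝ) →L[ℝ] ℝ) :=
  (fun c => T.gr κ a' N c x) '' T.at' κ a' N x

variable {T : Tab}

/-- the facts about the parameters -/
structure Tab.Par (T : Tab) (κ a' N X : ℝ) : Prop where
  g : T.Good
  hI : 0 < T.I
  hJ : 0 < T.J
  hκ : 0 < κ
  ha : 0 < a'
  hN : 0 < N
  hN1 : N ≤ (T.f0 : ℝ) / T.S * Real.exp (T.I / T.H)
  hX : 4 / κ * (X + N * a') * T.Kd ≤ T.J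

theorem Tab.Par.mem {κ a' N X : ℝ} (h : T.Par κ a' N X) {a₁ : ℝ} {x : Fin 3 → ℝ}
    (hx : x ∈ mcD a₁ N X) : 0 < x 0 + a' ∧ 0 < x 2 + N * a' ∧
      T.sg (x 0 + a') (x 2 + N * a') * T.H ≤ T.I ∧ 0 ≤ 4 / κ * (x 2 + N * a') ∧
      4 / κ * (x 2 + N * a') * T.Kd ≤ T.J := by
  obtain ⟨x1, x2, x3, x4, x5⟩ := hx
  have ha := h.ha
  have hN := h.hN
  have hκ := h.hκ
  have hHr : (0 : ℝ) < T.H := by exact_mod_cast h.g.H
  have hKr : (0 : ℝ) < T.Kd := by exact_mod_cast h.g.K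
  have hSr : (0 : ℝ) < T.S := by exact_mod_cast h.g.S
  have hfr : (0 : ℝ) < T.f0 := by exact_mod_cast h.g.f
  have pa : 0 < x 0 + a' := by linarith
  have pm : 0 < x 2 + N * a' := by positivity
  refine ⟨pa, pm, ?_, by positivity, ?_⟩
  · have h1 : x 2 + N * a' ≤ N * (x 0 + a') := by linarith
    have h2 : x 2 + N * a' ≤ (T.f0 : ℝ) / T.S * Real.exp (T.I / T.H) * (x 0 + a') :=
      h1.trans (mul_le_mul_of_nonneg_right h.hN1 pa.le)
    have h3 := Real.log_le_log pm h2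
    rw [Real.log_mul (by positivity) pa.ne', Real.log_mul (by positivity) (Real.exp_pos _).ne',
      Real.log_exp] at h3
    have h4 : T.sg (x 0 + a') (x 2 + N * a') ≤ T.I / T.H := by
      unfold Tab.sg
      linarith
    rw [le_div_iff₀ hHr] at h4
    exact h4
  · refine le_trans ?_ h.hX
    refine mul_le_mul_of_nonneg_right (mul_le_mul_of_nonneg_left (by linarith) (by positivity)) hKr.le

theorem Tab.Par.contOn {κ a' N X : ℝ} (h : T.Par κ a' N X) (a₁ : ℝ) :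
    ContinuousOn (T.U κ a' N) (mcD a₁ N X) := by
  exact T.V_cont κ (fa := fun x : Fin 3 → ℝ => x 0 + a') (fm := fun x : Fin 3 → ℝ => x 2 + N * a')
    ((continuous_apply 0).add continuous_const).continuousOn
    ((continuous_apply 2).add continuous_const).continuousOn
    (fun x hx => (h.mem hx).1.ne') fun x hx => (h.mem hx).2.1.ne'

theorem Tab.Par.upEx {κ a' N X : ℝ} (h : T.Par κ a' N X) (a₁ : ℝ) :
    ∀ x ∈ mcD a₁ N X, UpEx (T.U κ a' N) (mcD a₁ N X) (T.Gs κ a' N x) x := by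
  intro x hx
  obtain ⟨pa, pm, hσ, hk0, hk1⟩ := h.mem hx
  have hfin : (T.at' κ a' N x).Finite :=
    T.cells.finite_toSet.subset fun c hc => hc.1
  refine UpEx.of_cover hfin (fj := fun c z => T.Vc κ c (z 0 + a') (z 2 + N * a')) ?_ ?_ ?_
  · intro c _
    have e0 : HasFDerivAt (fun z : Fin 3 → ℝ => z 0 + a')
        (ContinuousLinearMap.proj 0 : (Fin 3 → ℝ) →L[ℝ] ℝ) x :=
      (ContinuousLinearMap.proj 0 : (Fin 3 → ℝ) →L[ℝ] ℝ).hasFDerivAt.add_const a'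
    have e2 : HasFDerivAt (fun z : Fin 3 → ℝ => z 2 + N * a')
        (ContinuousLinearMap.proj 2 : (Fin 3 → ℝ) →L[ℝ] ℝ) x :=
      (ContinuousLinearMap.proj 2 : (Fin 3 → ℝ) →L[ℝ] ℝ).hasFDerivAt.add_const (N * a')
    exact T.Vc_hasFDerivAt κ c e0 e2 pa pm
  · intro c hc
    exact (T.V_cell h.g.H h.g.K hc.1 hc.2).symm
  · -- near the point only its own cells occur
    have hcont : ContinuousAt (fun z : Fin 3 → ℝ =>
        (T.sg (z 0 + a') (z 2 + N * a'), 4 / κ * (z 2 + N * a'))) x := by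
      unfold Tab.sg
      have c0 : ContinuousAt (fun z : Fin 3 → ℝ => z 0 + a') x :=
        ((continuous_apply 0).add continuous_const).continuousAt
      have c2 : ContinuousAt (fun z : Fin 3 → ℝ => z 2 + N * a') x :=
        ((continuous_apply 2).add continuous_const).continuousAt
      exact (((c2.log pm.ne').sub (c0.log pa.ne')).sub continuousAt_const).prodMk
        (continuousAt_const.mul c2)
    have hev : ∀ᶠ z in 𝓝[mcD a₁ N X] x, ∀ c ∈ T.cells, c ∉ T.at' κ a' N x →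
        ¬ T.In c (T.sg (z 0 + a') (z 2 + N * a')) (4 / κ * (z 2 + N * a')) := by
      refine Filter.Eventually.filter_mono nhdsWithin_le_nhds ?_
      rw [Filter.eventually_all_finset]
      intro c hc
      by_cases hcx : c ∈ T.at' κ a' N x
      · exact Filter.Eventually.of_forall fun z hz => absurd hcx hz
      · have hn : (T.sg (x 0 + a') (x 2 + N * a'), 4 / κ * (x 2 + N * a')) ∈
            {p : ℝ × ℝ | T.In c p.1 p.2}ᶜ := fun hin => hcx ⟨hc, hin⟩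
        filter_upwards [hcont.eventually_mem ((T.In_closed c).isOpen_compl.mem_nhds hn)] with z hz _
        exact hz
    filter_upwards [hev, self_mem_nhdsWithin] with z hz hzD
    obtain ⟨-, -, g3, g4, g5⟩ := h.mem hzD
    obtain ⟨c, hc, hin⟩ := T.exists_cell h.g.H h.g.K h.hI h.hJ g3 g4 g5
    refine ⟨c, ?_, (T.V_cell h.g.H h.g.K hc hin).le⟩
    by_contra hcx
    exact hz c hc hcx hin

/-- the square of the multiplier -/
def Tab.Y (T : Tab) (κ a m : ℝ) : ℝ := m / a * (4 / κ * m + T.n0 / T.Kd)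

/-- **the pointwise inequality** at a point of the accounts -/
theorem Tab.Par.grad {κ a' N X : ℝ} (h : T.Par κ a' N X) {a₁ : ℝ} {x : Fin 3 → ℝ}
    (hx : x ∈ mcD a₁ N X) {A : (Fin 3 → ℝ) →L[ℝ] ℝ} (hA : A ∈ T.Gs κ a' N x) {y : Fin 3 → ℝ}
    (hy0 : y 0 = 1) (hy2 : 0 ≤ y 2) {G : ℝ}
    (hG : ∀ e ∈ T.L, -((e.1 : ℝ) / T.S) + (e.2.1 : ℝ) / T.S * y 2 -
      (e.2.2 : ℝ) / T.S * T.Y κ (x 0 + a') (x 2 + N * a') ≤ G) : A y ≤ G := by
  obtain ⟨pa, pm, hσ, hk0, hk1⟩ := h.mem hx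
  obtain ⟨c, hc, rfl⟩ := hA
  change T.gr κ a' N c x y ≤ G
  have hκ := h.hκ
  have hSr : (0 : ℝ) < T.S := by exact_mod_cast h.g.S
  have hfr : (0 : ℝ) < T.f0 := by exact_mod_cast h.g.f
  set a := x 0 + a' with ha
  set m := x 2 + N * a' with hm
  have hexp : (T.f0 : ℝ) / T.S * Real.exp (T.sg a m) = m / a := by
    unfold Tab.sg
    rw [Real.exp_sub, Real.exp_sub, Real.exp_log pm, Real.exp_log pa,
      Real.exp_log (by positivity)]
    field_simp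
  have key := h.g.piece hc.1 hc.2 hy2 (G := G) (by
    rw [hexp]
    exact hG)
  rw [hexp] at key
  rw [T.gr_apply, hy0, mul_one]
  exact key

theorem Tab.Good.wr_le (h : T.Good) (j i : ℕ) (hj : j < T.J + 1) (hi : i < T.I + 1) (hJ : 0 < T.J)
    (hI : 0 < T.I) : T.wr j i ≤ (T.Wm : ℝ) / T.S := by
  have hSr : (0 : ℝ) < T.S := by exact_mod_cast h.S
  unfold Tab.wr
  refine div_le_div_of_nonneg_right ?_ hSr.le
  have hj' : j < T.W.length := by
    unfold Tab.J at hj hJ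
    omega
  have hi' : i < (T.W.getD j []).length := by
    rw [h.len j hj']
    unfold Tab.I at hi hI
    omega
  have h1 : T.W.getD j [] ∈ T.W := by
    rw [List.getD_eq_getElem _ _ hj']
    exact List.getElem_mem hj'
  have h2 : (T.W.getD j []).getD i 0 ∈ T.W.getD j [] := by
    rw [List.getD_eq_getElem _ _ hi']
    exact List.getElem_mem hi'
  exact_mod_cast h.ws _ h1 _ h2

theorem Tab.Good.Wf_le (h : T.Good) (hI : 0 < T.I) (hJ : 0 < T.J) {σ k : ℝ}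
    (h1 : σ * T.H ≤ T.I) (h2 : 0 ≤ k) (h3 : k * T.Kd ≤ T.J) : T.Wf σ k ≤ (T.Wm : ℝ) / T.S := by
  have hH := h.H
  have hK := h.K
  have hHr : (0 : ℝ) < T.H := by exact_mod_cast h.H
  have hKr : (0 : ℝ) < T.Kd := by exact_mod_cast h.K
  have hSr : (0 : ℝ) < T.S := by exact_mod_cast h.S
  have hbr : (0 : ℝ) ≤ T.b0 := by exact_mod_cast h.b
  have hnr : (0 : ℝ) ≤ T.n0 := by exact_mod_cast h.n
  obtain ⟨c, hc, hin⟩ := T.exists_cell hH hK hI hJ h1 h2 h3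
  obtain ⟨i', j⟩ := c
  obtain ⟨g1, g2, g3⟩ := hin
  rw [Tab.cells, Finset.mem_product, Finset.mem_range] at hc
  obtain ⟨hc1, hc2⟩ := hc
  have hj : j < T.J := hc2
  have g2' : (j : ℝ) ≤ k * T.Kd := g2
  have g3' : k * T.Kd ≤ (j : ℝ) + 1 := g3
  set t : ℝ := k * T.Kd - j with ht
  have ek : k * T.Kd = j + t := by rw [ht]; ring
  have t0 : 0 ≤ t := by linarith
  have t1 : 0 ≤ 1 - t := by linarith
  set B : ℝ := (T.Wm : ℝ) / T.S with hB
  have hconv : ∀ {p q : ℝ}, p ≤ B → q ≤ B → ∀ {t : ℝ}, 0 ≤ t → 0 ≤ 1 - t →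
      (1 - t) * p + t * q ≤ B := by
    intro p q hp hq t t0 t1
    have m1 := mul_le_mul_of_nonneg_left hp t1
    have m2 := mul_le_mul_of_nonneg_left hq t0
    linarith
  unfold Tab.Wf
  rw [ek, ip_cell _ hj t0 (by linarith)]
  cases i' with
  | some i =>
    have g1' : (i : ℝ) ≤ σ * T.H ∧ σ * T.H ≤ i + 1 := g1
    have hi : i < T.I := by simpa using hc1
    set s : ℝ := σ * T.H - i with hs
    have es : σ * T.H = i + s := by rw [hs]; ring
    have hσ : 0 ≤ σ := by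
      have : (0 : ℝ) ≤ i := Nat.cast_nonneg i
      have : 0 ≤ σ * T.H := by linarith [g1'.1]
      exact nonneg_of_mul_nonneg_left this hHr
    have e1 : ∀ j' : ℕ, j' < T.J + 1 → T.row j' σ ≤ B := fun j' hj' => by
      unfold Tab.row
      rw [es, ip_cell _ hi (by linarith [g1'.1]) (by linarith [g1'.2]), min_eq_right hσ, mul_zero,
        add_zero]
      exact hconv (h.wr_le _ _ hj' (by omega) hJ hI) (h.wr_le _ _ hj' (by omega) hJ hI)
        (by linarith [g1'.1]) (by linarith [g1'.2])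
    exact hconv (e1 j (by omega)) (e1 (j + 1) (by omega)) t0 t1
  | none =>
    have g1' : σ ≤ 0 := g1
    have e1 : ∀ j' : ℕ, j' < T.J + 1 → T.row j' σ ≤ B := fun j' hj' => by
      unfold Tab.row
      rw [ip_of_le _ _ (mul_nonpos_of_nonpos_of_nonneg g1' hHr.le), min_eq_left g1']
      have h4 := h.wr_le j' 0 hj' (by omega) hJ hI
      have h5 : (T.b0 : ℝ) / T.S * ((j' + T.n0) / T.Kd) * σ ≤ 0 :=
        mul_nonpos_of_nonneg_of_nonpos (by positivity) g1'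
      linarith
    exact hconv (e1 j (by omega)) (e1 (j + 1) (by omega)) t0 t1

/-- the value at small areas -/
theorem Tab.Par.small {κ a' N X : ℝ} (h : T.Par κ a' N X) (hW : 0 ≤ T.Wm) {a₀ a₁ : ℝ}
    {x : Fin 3 → ℝ} (hx : x ∈ mcD a₁ N X) (hxa : x 0 ≤ a₀) :
    T.U κ a' N x ≤ N * (a₀ + a') * ((T.Wm : ℝ) / T.S) := by
  obtain ⟨pa, pm, g3, g4, g5⟩ := h.mem hx
  obtain ⟨x1, x2, x3, x4, x5⟩ := hx
  have hN0 := h.hN
  have hSr : (0 : ℝ) < T.S := by exact_mod_cast h.g.S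
  have hWr : (0 : ℝ) ≤ T.Wm := by exact_mod_cast hW
  unfold Tab.U Tab.V
  have k1 := h.g.Wf_le h.hI h.hJ g3 g4 g5
  have k2 : x 2 + N * a' ≤ N * (a₀ + a') := by
    have := mul_le_mul_of_nonneg_left hxa hN0.le
    linarith
  calc (x 2 + N * a') * T.Wf (T.sg (x 0 + a') (x 2 + N * a')) (4 / κ * (x 2 + N * a'))
      ≤ (x 2 + N * a') * ((T.Wm : ℝ) / T.S) := mul_le_mul_of_nonneg_left k1 pm.le
    _ ≤ N * (a₀ + a') * ((T.Wm : ℝ) / T.S) := mul_le_mul_of_nonneg_right k2 (by positivity)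

/-- the multiplier `2 m / √(κ a)` (plus a side flux `k`) is below `Y` -/
theorem Tab.Par.mult {κ a' N X : ℝ} (h : T.Par κ a' N X) {a₁ : ℝ} {x : Fin 3 → ℝ}
    (hx : x ∈ mcD a₁ N X) (hx0 : 0 < x 0) {k : ℝ} (hk : 4 / κ * k ≤ T.n0 / T.Kd) (hk0 : 0 ≤ k) :
    4 * x 2 * (x 2 + k) / (κ * x 0) ≤ T.Y κ (x 0 + a') (x 2 + N * a') := by
  obtain ⟨pa, pm, g3, g4, g5⟩ := h.mem hx
  obtain ⟨x1, x2, x3, x4, x5⟩ := hx
  have hN0 := h.hN
  have ha0 := h.ha
  have hκ0 := h.hκ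
  have h1 : x 2 / x 0 ≤ (x 2 + N * a') / (x 0 + a') := by
    rw [div_le_div_iff₀ hx0 pa]
    nlinarith
  have h2 : 4 / κ * (x 2 + k) ≤ 4 / κ * (x 2 + N * a') + T.n0 / T.Kd := by
    have h3 : 0 ≤ 4 / κ * (N * a') := by positivity
    have e : 4 / κ * (x 2 + k) = 4 / κ * x 2 + 4 / κ * k := by ring
    have e' : 4 / κ * (x 2 + N * a') = 4 / κ * x 2 + 4 / κ * (N * a') := by ring
    rw [e, e']
    linarith
  have e : 4 * x 2 * (x 2 + k) / (κ * x 0) = x 2 / x 0 * (4 / κ * (x 2 + k)) := by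
    field_simp
  rw [e]
  unfold Tab.Y
  exact mul_le_mul h1 h2 (by positivity) (by positivity)

/-! ### the core inequality -/

open Pool.Agent.EWD Pool.Agent.FPM

section core

variable {M : Type} [MetricSpace M] {γ : ℝ → M}

/-- the pointwise hypothesis: every member of the table -/
def Mem (T : Tab) (C : Calc M γ) (χ : M → ℝ) (ν F : Om → ℝ) (o : Om) : Prop :=
  ∀ y : ℝ, 0 ≤ y → ∀ e ∈ T.L,
    2 * y * gn C χ o + (-((e.1 : ℝ) / T.S) + (e.2.1 : ℝ) / T.S * ν o - (e.2.2 : ℝ) / T.S * y ^ 2) -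
      4 * |χ (C.pt o)| * ν o ≤ F o

theorem Tab.Par.mem0 {κ a' N X : ℝ} (h : T.Par κ a' N X) {C : Calc M γ} {χ : M → ℝ} {ν F : Om → ℝ}
    {o : Om} (hm : Mem T C χ ν F o) (hn : 0 ≤ ν o) : -(2 * 2 * |χ (C.pt o)| * ν o) ≤ F o := by
  have hSr : (0 : ℝ) < T.S := by exact_mod_cast h.g.S
  have h3 := hm 0 le_rfl (0, T.B0, T.b0) (by simp [Tab.L])
  have hB : (0 : ℝ) ≤ T.B0 := by exact_mod_cast h.g.B
  have h4 : (0 : ℝ) ≤ (T.B0 : ℝ) / T.S * ν o := mul_nonneg (by positivity) hn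
  simp only [Int.cast_zero, zero_div, neg_zero, zero_add, mul_zero, zero_mul] at h3
  norm_num at h3 ⊢
  linarith

theorem Tab.Par.memx {κ a' N X : ℝ} (h : T.Par κ a' N X) {C : Calc M γ} {χ : M → ℝ} {ν F : Om → ℝ}
    {o : Om} (hm : Mem T C χ ν F o) (hn : 0 ≤ ν o) {a₁ : ℝ} {x : Fin 3 → ℝ}
    (hx : x ∈ mcD a₁ N X) {A : (Fin 3 → ℝ) →L[ℝ] ℝ} (hA : A ∈ T.Gs κ a' N x) {y : Fin 3 → ℝ}
    (hy0 : y 0 = 1) (hy2 : y 2 = ν o) : A y - 2 * 2 * |χ (C.pt o)| * ν o ≤ F o := by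
  obtain ⟨pa, pm, -, g4, -⟩ := h.mem hx
  have hSr : (0 : ℝ) < T.S := by exact_mod_cast h.g.S
  have hKr : (0 : ℝ) < T.Kd := by exact_mod_cast h.g.K
  have hnr : (0 : ℝ) ≤ T.n0 := by exact_mod_cast h.g.n
  have hY0 : 0 ≤ T.Y κ (x 0 + a') (x 2 + N * a') := by
    unfold Tab.Y
    positivity
  set Y := T.Y κ (x 0 + a') (x 2 + N * a') with hY
  have h5 := h.grad hx hA hy0 (by rw [hy2]; exact hn) (G := F o + 4 * |χ (C.pt o)| * ν o)
    (fun e he => by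
      have h7 := hm (√Y) (Real.sqrt_nonneg _) e he
      rw [Real.sq_sqrt hY0] at h7
      have h6 : 0 ≤ 2 * √Y * gn C χ o := mul_nonneg (by positivity) (Real.sqrt_nonneg _)
      rw [hy2]
      linarith)
  linarith

theorem Tab.Par.memp {κ a' N X : ℝ} (h : T.Par κ a' N X) {C : Calc M γ} {χ : M → ℝ} {ν F : Om → ℝ}
    {o : Om} (hm : Mem T C χ ν F o) (hn : 0 ≤ ν o) {a₁ : ℝ} {x : Fin 3 → ℝ}
    (hx : x ∈ mcD a₁ N X) {A : (Fin 3 → ℝ) →L[ℝ] ℝ} (hA : A ∈ T.Gs κ a' N x) {y : Fin 3 → ℝ}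
    (hy0 : y 0 = 1) (hy2 : y 2 = ν o) {P : ℝ} (hP : 0 ≤ P)
    (hPY : P ^ 2 ≤ T.Y κ (x 0 + a') (x 2 + N * a')) :
    A y + 2 * P * gn C χ o - 2 * 2 * |χ (C.pt o)| * ν o ≤ F o := by
  have hSr : (0 : ℝ) < T.S := by exact_mod_cast h.g.S
  have h5 := h.grad hx hA hy0 (by rw [hy2]; exact hn)
    (G := F o + 4 * |χ (C.pt o)| * ν o - 2 * P * gn C χ o)
    (fun e he => by
      have h7 := hm P hP e he
      have hb : (0 : ℝ) ≤ (e.2.2 : ℝ) / T.S := by
        have : (0 : ℝ) ≤ (e.2.2 : ℤ) := by exact_mod_cast h.g.bs e he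
        positivity
      have h8 := mul_le_mul_of_nonneg_left hPY hb
      rw [hy2]
      linarith)
  linarith

theorem Tab.Par.memk {κ a' N X : ℝ} (h : T.Par κ a' N X) (hb1 : ∀ e ∈ T.L, e.2.2 ≤ T.S)
    {C : Calc M γ} {χ : M → ℝ} {ν F : Om → ℝ}
    {o : Om} (hm : Mem T C χ ν F o) (hn : 0 ≤ ν o) {a₁ : ℝ} {x : Fin 3 → ℝ}
    (hx : x ∈ mcD a₁ N X) {A : (Fin 3 → ℝ) →L[ℝ] ℝ} (hA : A ∈ T.Gs κ a' N x) {y : Fin 3 → ℝ}
    (hy0 : y 0 = 1) (hy2 : y 2 = ν o) {P z : ℝ} (hP : 0 ≤ P) (hz : 0 ≤ z)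
    (hPY : P ^ 2 + 2 * P * z ≤ T.Y κ (x 0 + a') (x 2 + N * a')) :
    A y - z ^ 2 + 2 * (P + z) * gn C χ o - 2 * 2 * |χ (C.pt o)| * ν o ≤ F o := by
  have hSr : (0 : ℝ) < T.S := by exact_mod_cast h.g.S
  have h5 := h.grad hx hA hy0 (by rw [hy2]; exact hn)
    (G := F o + 4 * |χ (C.pt o)| * ν o - 2 * (P + z) * gn C χ o + z ^ 2)
    (fun e he => by
      have h7 := hm (P + z) (by positivity) e he
      have hb : (0 : ℝ) ≤ (e.2.2 : ℝ) / T.S := by
        have : (0 : ℝ) ≤ (e.2.2 : ℤ) := by exact_mod_cast h.g.bs e he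
        positivity
      have hb' : (e.2.2 : ℝ) / T.S ≤ 1 := by
        rw [div_le_one hSr]
        exact_mod_cast hb1 e he
      have h8 := mul_le_mul_of_nonneg_left hPY hb
      have h9 := mul_le_mul_of_nonneg_right hb' (sq_nonneg z)
      rw [hy2]
      nlinarith)
  linarith

/-- the accounts of the core -/
def mcs (C : Calc M γ) (v : Fin 3 → M → ℝ) (ν : Om → ℝ) : Fin 3 → Om → ℝ := ![fun _ => 1, jac C v, ν]

theorem mcs_int (C : Calc M γ) {v : Fin 3 → M → ℝ} (hv : Sph γ v) {ν : Om → ℝ}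
    (hν : Integrable ν C.μ) (i : Fin 3) : Integrable (mcs C v ν i) C.μ := by
  have := C.fin
  fin_cases i
  · exact integrable_const _
  · exact jac_integrable C hv
  · exact hν

theorem mcs_0 (C : Calc M γ) (v : Fin 3 → M → ℝ) (χ : M → ℝ) (ν : Om → ℝ) (s : ℝ) :
    (fun i => supw C χ (mcs C v ν i) s) 0 = supa C χ s := by
  change supw C χ (fun _ => 1) s = _
  unfold supw supa
  simp [Measure.real]

theorem mcs_2 (C : Calc M γ) (v : Fin 3 → M → ℝ) (χ : M → ℝ) (ν : Om → ℝ) (s : ℝ) :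
    (fun i => supw C χ (mcs C v ν i) s) 2 = supw C χ ν s := rfl

theorem mcs_mem (C : Calc M γ) (v : Fin 3 → M → ℝ) {χ : M → ℝ} {ν : Om → ℝ} (hν : Integrable ν C.μ)
    (h2 : ∀ᵐ o ∂C.μ, 0 ≤ ν o) {N X s0 a₁ : ℝ} (hN : ∀ᵐ o ∂C.μ, ν o ≤ N)
    (haS : supa C χ s0 ≤ a₁) (hX : supw C χ ν s0 ≤ X) (s : ℝ) (hs : s0 ≤ s) :
    (fun i => supw C χ (mcs C v ν i) s) ∈ mcD a₁ N X := by
  have := C.fin
  have hmon : supw C χ ν s ≤ supw C χ ν s0 := by
    refine setIntegral_mono_set hν.integrableOn (ae_restrict_of_ae h2)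
      (LE.le.eventuallyLE fun o ho => ?_)
    have ho' : s < |χ (C.pt o)| := ho
    exact (hs.trans_lt ho' : s0 < |χ (C.pt o)|)
  refine ⟨?_, ?_, ?_, ?_, ?_⟩
  · rw [mcs_0]
    exact ENNReal.toReal_nonneg
  · rw [mcs_0]
    exact (supa_anti C χ hs).trans haS
  · rw [mcs_2]
    exact setIntegral_nonneg_of_ae_restrict (ae_restrict_of_ae h2)
  · rw [mcs_0, mcs_2]
    have h3 : ∫ o in {o | s < |χ (C.pt o)|}, ν o ∂C.μ ≤
        ∫ _ in {o | s < |χ (C.pt o)|}, N ∂C.μ :=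
      setIntegral_mono_ae hν.integrableOn (integrable_const _).integrableOn hN
    rw [setIntegral_const, smul_eq_mul, mul_comm] at h3
    exact h3
  · rw [mcs_2]
    exact hmon.trans hX

/-- the length condition of the multiplier `2 m / √(κ a)` -/
theorem len_ok {κ m a w : ℝ} (hκ : 0 < κ) (ha : 0 < a) (hm : 0 ≤ m) :
    0 ≤ 2 * m / √(κ * a) ∧ (0 : ℝ) ≤ 0 ∧ 2 * m ≤ 2 * m / √(κ * a) * √(κ * a) + 0 * w := by
  have hs : 0 < √(κ * a) := Real.sqrt_pos.2 (by positivity)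
  refine ⟨by positivity, le_rfl, ?_⟩
  rw [div_mul_cancel₀ _ hs.ne', zero_mul, add_zero]

/-- **the core inequality of a checked table** -/
theorem Tab.Par.core {κ' a' N X : ℝ} (h : T.Par κ' a' N X) (hW : 0 ≤ T.Wm) (C : Calc M γ)
    {v : Fin 3 → M → ℝ}
    (hv : Sph γ v) {χ : M → ℝ} (hχ : Lip χ) (eχ : EvenB γ χ) {κ a₀ a₁ ε : ℝ} (hI : IsopE C κ a₁ ε)
    (hκ : ∀ a, a₀ ≤ a → κ' * a ≤ κ * (a - ε)) (ha0 : 0 < a₀) {ν : Om → ℝ}
    (hν : Integrable ν C.μ) {F : Om → ℝ} (hF : Integrable F C.μ) (h2 : ∀ᵐ o ∂C.μ, 0 ≤ ν o)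
    (hN : ∀ᵐ o ∂C.μ, ν o ≤ N) {R : ℝ} (hR : 0 ≤ R) (gR : ∀ᵐ o ∂C.μ, |χ (C.pt o)| ≤ R) {s0 : ℝ}
    (hs0 : 0 ≤ s0) (haS : supa C χ s0 ≤ a₁) (hX : supw C χ ν s0 ≤ X)
    (hm : ∀ᵐ o ∂C.μ, s0 < |χ (C.pt o)| → Mem T C χ ν F o) :
    T.V κ' (supa C χ s0 + a') (supw C χ ν s0 + N * a') - 4 * s0 * supw C χ ν s0 -
      N * (a₀ + a') * ((T.Wm : ℝ) / T.S) - 4 * R * N * a₀ ≤
        ∫ o in {o | s0 < |χ (C.pt o)|}, F o ∂C.μ := by
  have hκ0 := h.hκ
  have hKr : (0 : ℝ) < T.Kd := by exact_mod_cast h.g.K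
  have hnr : (0 : ℝ) ≤ T.n0 := by exact_mod_cast h.g.n
  have hmain := mcu_top C hv hχ eχ hI hκ ha0 (Wim := fun _ => 0)
    (ae_of_all _ fun t _ => sq_nonneg _) (γs := mcs C v ν) (i0 := 0) (i1 := 1) (i2 := 2)
    (mcs_int C hv hν) rfl rfl hF (p := 2) (mcD_convex a₁ N X) (h.contOn a₁) (h.upEx a₁)
    (P := fun x => 2 * x 2 / √(κ' * x 0)) (Q := fun _ => 0)
    (fun x hx hxa => len_ok hκ0 (ha0.trans_le hxa) hx.2.2.1)
    zero_le_two (N := N) (R := R) (fun x hx hxa => h.small hW hx hxa)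
    h2 h.hN.le hN hR gR hs0 (mcs_mem C v hν h2 hN haS hX)
    (fun s hs => (supa_anti C χ hs.le).trans haS)
    (by
      filter_upwards [hm, h2] with o ho hn hs
      exact h.mem0 (ho hs) hn)
    (by
      filter_upwards [hm, h2] with o ho hn hs x hx A hA
      exact h.memx (ho hs) hn hx hA rfl rfl)
    (by
      filter_upwards [hm, h2] with o ho hn hs x hx hxa A hA
      have hx0 : 0 < x 0 := ha0.trans_le hxa
      have hx2 : 0 ≤ x 2 := hx.2.2.1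
      have h3 := h.mult hx hx0 (k := 0) (by rw [mul_zero]; positivity) le_rfl
      have h4 : (2 * x 2 / √(κ' * x 0)) ^ 2 = 4 * x 2 * (x 2 + 0) / (κ' * x 0) := by
        rw [div_pow, Real.sq_sqrt (by positivity)]
        ring
      have h5 := h.memp (ho hs) hn hx hA (y := fun i => mcs C v ν i o) rfl rfl (P := 2 * x 2 / √(κ' * x 0)) (by positivity)
        (by rw [h4]; exact h3)
      change A (fun i => mcs C v ν i o) + 2 * (2 * x 2 / √(κ' * x 0) + 0 * opn C v o) * gn C χ o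
        - 2 * 2 * |χ (C.pt o)| * ν o ≤ F o
      rw [zero_mul, add_zero]
      exact h5)
  have e3 : T.U κ' a' N (fun i => supw C χ (mcs C v ν i) s0) =
      T.V κ' (supa C χ s0 + a') (supw C χ ν s0 + N * a') := by
    unfold Tab.U
    rw [mcs_0, mcs_2]
  rw [e3] at hmain
  have e4 : supw C χ (mcs C v ν 2) s0 = supw C χ ν s0 := rfl
  rw [e4] at hmain
  linarith

/-- **the core inequality with a constant side charge `k` below the level `L`** -/
theorem Tab.Par.coreK {κ' a' N X : ℝ} (h : T.Par κ' a' N X) (hW : 0 ≤ T.Wm)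
    (hb1 : ∀ e ∈ T.L, e.2.2 ≤ T.S) (C : Calc M γ) {v : Fin 3 → M → ℝ}
    (hv : Sph γ v) {χ : M → ℝ} (hχ : Lip χ) (eχ : EvenB γ χ) {κ a₀ a₁ ε : ℝ} (hI : IsopE C κ a₁ ε)
    (hκ : ∀ a, a₀ ≤ a → κ' * a ≤ κ * (a - ε)) (ha0 : 0 < a₀) {ν : Om → ℝ}
    (hν : Integrable ν C.μ) {F : Om → ℝ} (hF : Integrable F C.μ) (h2 : ∀ᵐ o ∂C.μ, 0 ≤ ν o)
    (hN : ∀ᵐ o ∂C.μ, ν o ≤ N) {R : ℝ} (hR : 0 ≤ R) (gR : ∀ᵐ o ∂C.μ, |χ (C.pt o)| ≤ R) {s0 L : ℝ}
    (hs0 : 0 ≤ s0) (hL : s0 ≤ L) {k : ℝ} (hk : 0 ≤ k) (hk0 : 4 / κ' * k ≤ T.n0 / T.Kd) {b : ℝ}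
    (hb : a₀ ≤ b) (hbL : b ≤ supa C χ L) (haS : supa C χ s0 ≤ a₁) (hX : supw C χ ν s0 ≤ X)
    (hm : ∀ᵐ o ∂C.μ, s0 < |χ (C.pt o)| → Mem T C χ ν F o) :
    T.V κ' (supa C χ s0 + a') (supw C χ ν s0 + N * a') - 4 * s0 * supw C χ ν s0 +
      2 * k * (L - s0) - k ^ 2 / κ' * Real.log (supa C χ s0 / b) -
      N * (a₀ + a') * ((T.Wm : ℝ) / T.S) - 4 * R * N * a₀ ≤
        ∫ o in {o | s0 < |χ (C.pt o)|}, F o ∂C.μ := by
  have hκ0 := h.hκ
  have hKr : (0 : ℝ) < T.Kd := by exact_mod_cast h.g.K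
  have hnr : (0 : ℝ) ≤ T.n0 := by exact_mod_cast h.g.n
  have hmain := mcu_topU C hv hχ eχ hI hκ0 hκ ha0 (Wim := fun _ => 0)
    (ae_of_all _ fun t _ => sq_nonneg _) (γs := mcs C v ν) (i0 := 0) (i1 := 1) (i2 := 2)
    (mcs_int C hv hν) rfl rfl hF (p := 2) (mcD_convex a₁ N X) (h.contOn a₁) (h.upEx a₁)
    (P := fun x => 2 * x 2 / √(κ' * x 0)) (Q := fun _ => 0)
    (fun x hx hxa => len_ok hκ0 (ha0.trans_le hxa) hx.2.2.1)
    zero_le_two (N := N) (R := R) (fun x hx hxa => h.small hW hx hxa)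
    h2 h.hN.le hN hR gR hs0 hL hk hb hbL (mcs_mem C v hν h2 hN haS hX)
    (fun s hs => (supa_anti C χ hs.le).trans haS)
    (by
      filter_upwards [hm, h2] with o ho hn hs
      exact h.mem0 (ho hs) hn)
    (by
      filter_upwards [hm, h2] with o ho hn hs x hx A hA
      exact h.memx (ho hs) hn hx hA rfl rfl)
    (by
      filter_upwards [hm, h2] with o ho hn hs x hx hxa A hA
      have hx0 : 0 < x 0 := ha0.trans_le hxa
      have hx2 : 0 ≤ x 2 := hx.2.2.1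
      have h3 := h.mult hx hx0 (k := 0) (by rw [mul_zero]; positivity) le_rfl
      have h4 : (2 * x 2 / √(κ' * x 0)) ^ 2 = 4 * x 2 * (x 2 + 0) / (κ' * x 0) := by
        rw [div_pow, Real.sq_sqrt (by positivity)]
        ring
      have h5 := h.memp (ho hs) hn hx hA (y := fun i => mcs C v ν i o) rfl rfl (P := 2 * x 2 / √(κ' * x 0)) (by positivity)
        (by rw [h4]; exact h3)
      change A (fun i => mcs C v ν i o) + 2 * (2 * x 2 / √(κ' * x 0) + 0 * opn C v o) * gn C χ o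
        - 2 * 2 * |χ (C.pt o)| * ν o ≤ F o
      rw [zero_mul, add_zero]
      exact h5)
    (by
      filter_upwards [hm, h2] with o ho hn hs x hx hxb A hA
      have hx0 : 0 < x 0 := (ha0.trans_le hb).trans_le hxb
      have hx2 : 0 ≤ x 2 := hx.2.2.1
      have hsq : 0 < √(κ' * x 0) := Real.sqrt_pos.2 (by positivity)
      have h3 := h.mult hx hx0 hk0 hk
      have h4 : (2 * x 2 / √(κ' * x 0)) ^ 2 + 2 * (2 * x 2 / √(κ' * x 0)) * (k / √(κ' * x 0)) =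
          4 * x 2 * (x 2 + k) / (κ' * x 0) := by
        have e : κ' * x 0 = √(κ' * x 0) ^ 2 := (Real.sq_sqrt (by positivity)).symm
        rw [div_pow, mul_div_assoc', mul_div_assoc', div_mul_eq_mul_div, div_div, ← sq, ← e,
          ← add_div]
        ring
      have h6 : (k / √(κ' * x 0)) ^ 2 = k ^ 2 / κ' / x 0 := by
        rw [div_pow, Real.sq_sqrt (by positivity), div_div]
      have h5 := h.memk hb1 (ho hs) hn hx hA (y := fun i => mcs C v ν i o) rfl rfl (P := 2 * x 2 / √(κ' * x 0))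
        (z := k / √(κ' * x 0)) (by positivity) (by positivity) (by rw [h4]; exact h3)
      rw [h6] at h5
      change A (fun i => mcs C v ν i o) - k ^ 2 / κ' / x 0 +
        2 * (2 * x 2 / √(κ' * x 0) + k / √(κ' * x 0) + 0 * opn C v o) * gn C χ o
        - 2 * 2 * |χ (C.pt o)| * ν o ≤ F o
      rw [zero_mul, add_zero]
      exact h5)
  have e3 : T.U κ' a' N (fun i => supw C χ (mcs C v ν i) s0) =
      T.V κ' (supa C χ s0 + a') (supw C χ ν s0 + N * a') := by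
    unfold Tab.U
    rw [mcs_0, mcs_2]
  rw [e3] at hmain
  have e4 : supw C χ (mcs C v ν 2) s0 = supw C χ ν s0 := rfl
  rw [e4] at hmain
  linarith

end core

end Pool.Agent.FPX.MCW
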