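import Mathlib
import Pool.Agent.FPX.MCX

/-
CRS (helper89): the value function of a table is continuous on `{0 ≤ a ≤ A, 0 ≤ m ≤ N a}` including the point
`a = 0`; so a small shift of the accounts costs little, uniformly (`shift_ok`).
-/

open MeasureTheory Set Filter Topology
open scoped ENNReal NNReal

noncomputable section

namespace Pool.Agent.FPX

theorem cl_abs (x : ℝ) : |MCW.cl x| ≤ 1 := by
  unfold MCW.cl
  rw [abs_of_nonneg (le_max_left _ _)]
  exact max_le zero_le_one (min_le_left _ _)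

theorem ip_abs (a : ℕ → ℝ) (n : ℕ) (x : ℝ) :
    |MCW.ip a n x| ≤ |a 0| + ∑ l ∈ Finset.range n, (|a (l + 1)| + |a l|) := by
  unfold MCW.ip
  refine (abs_add_le _ _).trans (by
    have h : |∑ l ∈ Finset.range n, (a (l + 1) - a l) * MCW.cl (x - l)| ≤
        ∑ l ∈ Finset.range n, (|a (l + 1)| + |a l|) := by
      refine (Finset.abs_sum_le_sum_abs _ _).trans (Finset.sum_le_sum fun l _ => ?_)
      rw [abs_mul]
      have h1 : |a (l + 1) - a l| ≤ |a (l + 1)| + |a l| := abs_sub _ _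
      have h2 := mul_le_mul h1 (cl_abs (x - l)) (abs_nonneg _)
        (add_nonneg (abs_nonneg (a (l + 1))) (abs_nonneg (a l)))
      rw [mul_one] at h2
      exact h2
    linarith)

theorem row_abs (T : MCW.Tab) (j : ℕ) : ∃ C : ℝ, 0 ≤ C ∧ ∀ σ, |T.row j σ| ≤ C * (1 + |σ|) := by
  set A := |T.wr j 0| + ∑ l ∈ Finset.range T.I, (|T.wr j (l + 1)| + |T.wr j l|) with hA
  set B := |(T.b0 : ℝ) / T.S * ((j + T.n0) / T.Kd)| with hB
  have A0 : 0 ≤ A := add_nonneg (abs_nonneg _)
    (Finset.sum_nonneg fun l _ => add_nonneg (abs_nonneg _) (abs_nonneg _))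
  have B0 : 0 ≤ B := abs_nonneg _
  refine ⟨A + B, add_nonneg A0 B0, fun σ => ?_⟩
  unfold MCW.Tab.row
  have h1 := ip_abs (T.wr j) T.I (σ * T.H)
  have h2 : |(T.b0 : ℝ) / T.S * ((j + T.n0) / T.Kd) * min σ 0| ≤ B * |σ| := by
    rw [abs_mul]
    refine mul_le_mul_of_nonneg_left ?_ B0
    rcases le_total σ 0 with h | h
    · rw [min_eq_left h]
    · rw [min_eq_right h, abs_zero]
      exact abs_nonneg _
  have h3 := abs_add_le (MCW.ip (T.wr j) T.I (σ * T.H)) ((T.b0 : ℝ) / T.S * ((j + T.n0) / T.Kd) * min σ 0)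
  have h4 : 0 ≤ A * |σ| := mul_nonneg A0 (abs_nonneg _)
  have e : (A + B) * (1 + |σ|) = A + A * |σ| + B + B * |σ| := by ring
  rw [e]
  linarith

theorem Wf_abs (T : MCW.Tab) : ∃ C : ℝ, 0 ≤ C ∧ ∀ σ k, |T.Wf σ k| ≤ C * (1 + |σ|) := by
  choose c c0 hc using row_abs T
  refine ⟨c 0 + ∑ l ∈ Finset.range T.J, (c (l + 1) + c l), ?_, fun σ k => ?_⟩
  · have := c0 0
    have h : 0 ≤ ∑ l ∈ Finset.range T.J, (c (l + 1) + c l) :=
      Finset.sum_nonneg fun l _ => add_nonneg (c0 _) (c0 _)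
    linarith
  · unfold MCW.Tab.Wf
    refine (ip_abs _ _ _).trans ?_
    rw [add_mul, Finset.sum_mul]
    refine add_le_add (hc 0 σ) (Finset.sum_le_sum fun l _ => ?_)
    rw [add_mul]
    exact add_le_add (hc _ σ) (hc _ σ)

/-- the set of the accounts -/
def KAcc (A N : ℝ) : Set (ℝ × ℝ) := {z | 0 ≤ z.1 ∧ z.1 ≤ A ∧ 0 ≤ z.2 ∧ z.2 ≤ N * z.1}

theorem KAcc_compact (A : ℝ) {N : ℝ} (hN : 0 ≤ N) : IsCompact (KAcc A N) := by
  have h1 : IsClosed (KAcc A N) := by
    have a1 : IsClosed {z : ℝ × ℝ | 0 ≤ z.1} := isClosed_le continuous_const continuous_fst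
    have a2 : IsClosed {z : ℝ × ℝ | z.1 ≤ A} := isClosed_le continuous_fst continuous_const
    have a3 : IsClosed {z : ℝ × ℝ | 0 ≤ z.2} := isClosed_le continuous_const continuous_snd
    have a4 : IsClosed {z : ℝ × ℝ | z.2 ≤ N * z.1} :=
      isClosed_le continuous_snd (continuous_const.mul continuous_fst)
    exact a1.inter (a2.inter (a3.inter a4))
  refine (isCompact_Icc (a := ((0 : ℝ), (0 : ℝ))) (b := (A, N * A))).of_isClosed_subset h1 ?_
  rintro ⟨a, m⟩ ⟨p1, p2, p3, p4⟩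
  exact ⟨⟨p1, p3⟩, ⟨p2, p4.trans (mul_le_mul_of_nonneg_left p2 hN)⟩⟩

/-- squeeze at the points where the majorant vanishes -/
theorem contOn_of_maj {S : Set (ℝ × ℝ)} {f h : ℝ × ℝ → ℝ} (hh : ContinuousOn h S)
    (hf : ∀ z ∈ S, |f z| ≤ h z) (hc : ∀ z ∈ S, h z ≠ 0 → ContinuousWithinAt f S z) :
    ContinuousOn f S := by
  intro z hz
  by_cases h0 : h z = 0
  · have f0 : f z = 0 := by
      have := hf z hz
      rw [h0] at this
      exact abs_eq_zero.1 (le_antisymm this (abs_nonneg _))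
    have h1 : Tendsto h (𝓝[S] z) (𝓝 0) := by
      have := hh z hz
      unfold ContinuousWithinAt at this
      rwa [h0] at this
    unfold ContinuousWithinAt
    rw [f0]
    exact squeeze_zero_norm' (by
      filter_upwards [self_mem_nhdsWithin] with w hw
      rw [Real.norm_eq_abs]
      exact hf w hw) h1
  · exact hc z hz h0

/-- the majorant of `m log a` -/
theorem mloga_cont (A N : ℝ) :
    ContinuousOn (fun z : ℝ × ℝ => |z.2 * Real.log z.1|) (KAcc A N) := by
  refine contOn_of_maj (h := fun z => N * |z.1 * Real.log z.1|) ?_ ?_ ?_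
  · exact (continuous_const.mul (Real.continuous_mul_log.comp continuous_fst).abs).continuousOn
  · rintro ⟨a, m⟩ ⟨p1, p2, p3, p4⟩
    simp only at p1 p2 p3 p4 ⊢
    rw [abs_abs, abs_mul, abs_mul, abs_of_nonneg p3, abs_of_nonneg p1, ← mul_assoc]
    exact mul_le_mul_of_nonneg_right p4 (abs_nonneg _)
  · rintro ⟨a, m⟩ hz h0
    simp only at h0
    have ha : a ≠ 0 := by
      rintro rfl
      simp at h0
    have c1 : ContinuousAt (fun z : ℝ × ℝ => z.2 * Real.log z.1) (a, m) :=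
      continuousAt_snd.mul (continuousAt_fst.log ha)
    exact c1.abs.continuousWithinAt

theorem comp_at {F : ℝ → ℝ → ℝ} (hF : Continuous fun z : ℝ × ℝ => F z.1 z.2) {x : ℝ × ℝ}
    {f g : ℝ × ℝ → ℝ} (cf : ContinuousAt f x) (cg : ContinuousAt g x) :
    ContinuousAt (fun z => F (f z) (g z)) x := by
  have h1 : ContinuousAt (fun z => ((f z, g z) : ℝ × ℝ)) x := cf.prodMk cg
  exact hF.continuousAt.comp h1

/-- **continuity of the value function** -/
theorem V_contOn (T : MCW.Tab) (κ A N : ℝ) :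
    ContinuousOn (fun z : ℝ × ℝ => T.V κ z.1 z.2) (KAcc A N) := by
  obtain ⟨C, C0, hC⟩ := Wf_abs T
  set lf := Real.log ((T.f0 : ℝ) / T.S) with hlf
  refine contOn_of_maj (h := fun z => C * (z.2 * (1 + |lf|) + |z.2 * Real.log z.2| +
    |z.2 * Real.log z.1|)) ?_ ?_ ?_
  · have c1 : ContinuousOn (fun z : ℝ × ℝ => z.2 * (1 + |lf|) + |z.2 * Real.log z.2|) (KAcc A N) :=
      ((continuous_snd.mul continuous_const).add
        (Real.continuous_mul_log.comp continuous_snd).abs).continuousOn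
    exact continuousOn_const.mul (c1.add (mloga_cont A N))
  · rintro ⟨a, m⟩ ⟨p1, p2, p3, p4⟩
    simp only at p1 p2 p3 p4 ⊢
    unfold MCW.Tab.V
    rw [abs_mul, abs_of_nonneg p3]
    have h1 := mul_le_mul_of_nonneg_left (hC (T.sg a m) (4 / κ * m)) p3
    refine h1.trans ?_
    have h2 : m * |T.sg a m| ≤ |m * Real.log m| + |m * Real.log a| + m * |lf| := by
      unfold MCW.Tab.sg
      rw [← hlf, abs_mul, abs_mul, abs_of_nonneg p3]
      have h3 : |Real.log m - Real.log a - lf| ≤ |Real.log m| + |Real.log a| + |lf| := by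
        have := abs_sub (Real.log m - Real.log a) lf
        have := abs_sub (Real.log m) (Real.log a)
        linarith
      have := mul_le_mul_of_nonneg_left h3 p3
      linarith
    have h4 := mul_le_mul_of_nonneg_left h2 C0
    have e1 : m * (C * (1 + |T.sg a m|)) = C * m + C * (m * |T.sg a m|) := by ring
    have e2 : C * (m * (1 + |lf|) + |m * Real.log m| + |m * Real.log a|) =
        C * m + C * (|m * Real.log m| + |m * Real.log a| + m * |lf|) := by ring
    rw [e1, e2]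
    linarith
  · rintro ⟨a, m⟩ ⟨p1, p2, p3, p4⟩ h0
    simp only at p1 p2 p3 p4 h0
    have hm : m ≠ 0 := by
      rintro rfl
      simp at h0
    have ha : a ≠ 0 := by
      rintro rfl
      rw [mul_zero] at p4
      exact hm (le_antisymm p4 p3)
    have c1 : ContinuousAt (fun z : ℝ × ℝ => T.sg z.1 z.2) (a, m) := by
      unfold MCW.Tab.sg
      exact ((continuousAt_snd.log hm).sub (continuousAt_fst.log ha)).sub continuousAt_const
    have c2 : ContinuousAt (fun z : ℝ × ℝ => 4 / κ * z.2) (a, m) :=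
      continuousAt_const.mul continuousAt_snd
    have c3 := comp_at T.Wf_cont c1 c2
    exact (continuousAt_snd.mul c3).continuousWithinAt

/-- **the shift of the value function costs little** -/
theorem shift_ok (T : MCW.Tab) (κ : ℝ) {N δ : ℝ} (hN : 0 ≤ N) (hδ : 0 < δ) : ∃ t : ℝ, 0 < t ∧
    ∀ a' : ℝ, 0 ≤ a' → a' ≤ t → ∀ a m : ℝ, 0 ≤ a → a ≤ 4 → 0 ≤ m → m ≤ N * a →
      T.V κ a m - δ ≤ T.V κ (a + a') (m + N * a') := by
  have h1 := (KAcc_compact 5 hN).uniformContinuousOn_of_continuous (V_contOn T κ 5 N)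
  rw [Metric.uniformContinuousOn_iff] at h1
  obtain ⟨d, hd, h1⟩ := h1 δ hδ
  refine ⟨min 1 (d / (2 * (1 + N))), lt_min one_pos (by positivity), fun a' p0 p1 a m p2 p3 p4 p5 => ?_⟩
  have q1 : a' ≤ 1 := p1.trans (min_le_left _ _)
  have q2 : a' ≤ d / (2 * (1 + N)) := p1.trans (min_le_right _ _)
  rw [le_div_iff₀ (by positivity)] at q2
  have q3 : 0 ≤ N * a' := mul_nonneg hN p0
  have k1 : ((a, m) : ℝ × ℝ) ∈ KAcc 5 N := ⟨p2, by simp only; linarith, p4, p5⟩
  have k2 : ((a + a', m + N * a') : ℝ × ℝ) ∈ KAcc 5 N :=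
    ⟨by simp only; linarith, by simp only; linarith, by simp only; linarith, by simp only; linarith⟩
  have k3 : dist ((a, m) : ℝ × ℝ) (a + a', m + N * a') < d := by
    rw [Prod.dist_eq]
    simp only
    rw [dist_comm a, dist_comm m, Real.dist_eq, Real.dist_eq, add_sub_cancel_left, add_sub_cancel_left,
      abs_of_nonneg p0, abs_of_nonneg q3]
    exact max_lt (by nlinarith) (by nlinarith)
  have k4 := h1 _ k1 _ k2 k3
  rw [Real.dist_eq] at k4
  have k5 := (abs_lt.1 k4).2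
  simp only at k5
  linarith

end Pool.Agent.FPX
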