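import Mathlib
import Pool.Agent.FPX.VHD
import Pool.Agent.FPX.TRS

/-
FARP (helper99): the far part of the modulus closing. An odd Lipschitz field `η` is cut at the modulus
`t`; for every weight `w₂ ≥ 0` with total mass at most `m₂` and a core certificate for its charge on the
sets of area at most `a₁`, `∫ w₂ min(|η|, t)² ≤ ∫ |d η_t|² + error`, with the image of `v` outside.
-/

open MeasureTheory Set Filter Topology
open scoped ENNReal NNReal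

noncomputable section

namespace Pool.Agent.FPX

open Pool.Agent.EWD Pool.Agent.FPM

variable {M : Type} [MetricSpace M] {γ : ℝ → M}

/-- the conditions for every core set: charge `n` of `w₂`, total mass `m₂`, amplification `r - n a₁` -/
def FCore (C : Calc M γ) (f f₁ w₂ : Om → ℝ) (Lam : ℝ → ℝ) (B m₂ X K a₁ D : ℝ) (G : ℝ → ℝ) : Prop :=
  ∀ T, NullMeasurableSet T C.μ → C.μ.real T ≤ a₁ → ∃ (n : ℝ → ℝ) (b r : ℝ),
    CoreD Lam a₁ B n b 0 r ∧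
    (∀ S, NullMeasurableSet S C.μ → S ⊆ T → ∫ o in S, w₂ o ∂C.μ ≤ n (C.μ.real S)) ∧
    0 < G (a₁ - D - ∫ o in T, f₁ o ∂C.μ) + K * (X - ∫ o in T, f o ∂C.μ) ∧
    (m₂ + (r - n a₁)) *
      (G (a₁ - D - ∫ o in T, f₁ o ∂C.μ) + K * (X - ∫ o in T, f o ∂C.μ)) < 1

/-- **the far part for one odd function** -/
theorem far_scalar [CompactSpace M] (C : Calc M γ) (hγ : Bd γ) (hR : RegAE C)
    {v : Fin 3 → M → ℝ} (hv : Sph γ v) (deg : ∫ o, jac C v o ∂C.μ = 2 * Real.pi) {f : Om → ℝ}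
    (fint : Integrable f C.μ) (fnu : ∀ᵐ o ∂C.μ, nuC C v o ≤ f o) {X : ℝ} (fX : ∫ o, f o ∂C.μ ≤ X)
    {κ ε B K a₁ D m₂ : ℝ} {Lam : ℝ → ℝ} (hL : LevO C Lam ε) (hI : IsopO C κ ε) (hε : 0 ≤ ε)
    {G gg : ℝ → ℝ} (hN : VNum X K a₁ D G gg)
    {f₁ : Om → ℝ} (hf₁ : Integrable f₁ C.μ) (f₁0 : ∀ᵐ o ∂C.μ, 0 ≤ f₁ o) (f₁f : ∀ᵐ o ∂C.μ, f₁ o ≤ f o)
    (hα : ∀ g : M → ℝ, Lip g → ∀ s, 0 ≤ s → a₁ ≤ supa C g s →
      a₁ - D - supw C g f₁ s ≤ supw C g (jac C v) s)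
    {w₂ : Om → ℝ} (iw₂ : Integrable w₂ C.μ) (w₂0 : ∀ᵐ o ∂C.μ, 0 ≤ w₂ o)
    (w₂m : ∫ o, w₂ o ∂C.μ ≤ m₂) (hcert : FCore C f f₁ w₂ Lam B m₂ X K a₁ D G)
    {R : ℝ} (hR0 : 0 ≤ R) {g : M → ℝ} (hg : Lip g) (og : EWD.OddB γ g) (gR : ∀ x, |g x| ≤ R) :
    ∫ o, g (C.pt o) ^ 2 * w₂ o ∂C.μ ≤ ∫ o, gn C g o ^ 2 ∂C.μ + B * ε * R ^ 2 := by
  have := C.fin
  obtain ⟨n₀, b₀, r₀, D₀, -, -, -⟩ := hcert ∅ MeasurableSet.empty.nullMeasurableSet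
    (by simpa using hN.a0.le)
  have hB0 : 0 ≤ B := (div_nonneg D₀.f0 D₀.b0.le).trans D₀.fb
  have key := hardy_comp2 C hγ hR hv deg hI fint fnu (w := fun _ => 0) (w₂ := w₂)
    (X := X) (K := K) (lam := 1) (ρ := 0) (wB := 0) (m₂ := m₂) (a₁ := a₁) (D := D) (G := G)
    (gg := gg) (g := g) (R := R) (ε := ε) (δ := B * ε) (Lam := Lam) fX
    (integrable_const 0) (ae_of_all _ fun _ => le_rfl)
    (ae_of_all _ fun o => by
      change (0 : ℝ) ≤ 0 * f o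
      rw [zero_mul])
    (ae_of_all _ fun _ => le_rfl)
    iw₂ w₂0 w₂m zero_le_one le_rfl hN.K0 hN.a0 hN.A1 hN.haD hN.hX hN.hG
    hN.hgg hN.hgK hN.hG0 hg og hR0 (ae_of_all _ fun o => gR (C.pt o)) hε
    (by positivity) (hL g hg og) hf₁ f₁0 f₁f (hα g hg) (by
      intro t' ht' _ hta
      obtain ⟨n, b, r, Dn, hq, hp0, hp1⟩ := hcert {o | t' < |g (C.pt o)|} (meas_abs_lt C hg t') hta
      obtain ⟨k, ck, k0, kp, hc, hk⟩ := Dn.cert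
      refine ⟨n, k, ⟨Dn.mono, Dn.zero, ck, k0, kp, ?_, ?_⟩, hp0, ?_⟩
      · intro s _ hts
        have e1 : supw C g (fun o => 0 + w₂ o) s = supw C g w₂ s := by
          simp only [zero_add]
        rw [e1]
        have h1 := hq {o | s < |g (C.pt o)|} (meas_abs_lt C hg s) fun o ho => hts.trans_lt ho
        have h2 := Dn.lip (supa C g s - ε) (supa C g s) (by linarith)
        have h3 : supa C g s = C.μ.real {o | s < |g (C.pt o)|} := rfl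
        rw [← h3] at h1
        have h4 : supw C g w₂ s = ∫ o in {o | s < |g (C.pt o)|}, w₂ o ∂C.μ := rfl
        rw [h4]
        have h6 : B * (supa C g s - (supa C g s - ε)) = B * ε := by ring
        rw [h6] at h2
        linarith
      · intro a h0 h1
        have h2 := hc a h0 h1
        have h3 : min (0 / b * a) 0 = 0 := by
          rw [zero_div, zero_mul, min_self]
        rw [h3, add_zero] at h2
        rw [one_mul]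
        exact h2
      · have h3 : min (0 / b * a₁) 0 = 0 := by
          rw [zero_div, zero_mul, min_self]
        rw [h3, add_zero] at hk
        have e0 : supw C g (fun _ => (0 : ℝ)) t' = 0 := by
          unfold supw
          simp
        have e4 : supw C g f t' = ∫ o in {o | t' < |g (C.pt o)|}, f o ∂C.μ := rfl
        have e5 : supw C g f₁ t' = ∫ o in {o | t' < |g (C.pt o)|}, f₁ o ∂C.μ := rfl
        rw [e0]
        have h4 : 1 * 0 * (X - supw C g f t') + 1 * 0 + 1 * m₂ + ∫ u in (0 : ℝ)..a₁, k u ≤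
            m₂ + (r - n a₁) := by linarith
        rw [e4, e5] at *
        exact lt_of_le_of_lt (mul_le_mul_of_nonneg_right h4 hp0.le) hp1)
  have e1 : 1 * ∫ o, g (C.pt o) ^ 2 * (0 + w₂ o) ∂C.μ = ∫ o, g (C.pt o) ^ 2 * w₂ o ∂C.μ := by
    rw [one_mul]
    simp only [zero_add]
  rw [e1, one_mul] at key
  exact key

/-- **the far part for an arbitrary odd field** bounded by `R` in every component -/
theorem far_gen [CompactSpace M] (C : Calc M γ) (hγ : Bd γ) (hR : RegAE C)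
    {v : Fin 3 → M → ℝ} (hv : Sph γ v) (deg : ∫ o, jac C v o ∂C.μ = 2 * Real.pi) {f : Om → ℝ}
    (fint : Integrable f C.μ) (fnu : ∀ᵐ o ∂C.μ, nuC C v o ≤ f o) {X : ℝ} (fX : ∫ o, f o ∂C.μ ≤ X)
    {κ ε B K a₁ D m₂ : ℝ} {Lam : ℝ → ℝ} (hL : LevO C Lam ε) (hI : IsopO C κ ε) (hε : 0 ≤ ε)
    {G gg : ℝ → ℝ} (hN : VNum X K a₁ D G gg)
    {f₁ : Om → ℝ} (hf₁ : Integrable f₁ C.μ) (f₁0 : ∀ᵐ o ∂C.μ, 0 ≤ f₁ o) (f₁f : ∀ᵐ o ∂C.μ, f₁ o ≤ f o)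
    (hα : ∀ g : M → ℝ, Lip g → ∀ s, 0 ≤ s → a₁ ≤ supa C g s →
      a₁ - D - supw C g f₁ s ≤ supw C g (jac C v) s)
    {w₂ : Om → ℝ} (iw₂ : Integrable w₂ C.μ) (w₂0 : ∀ᵐ o ∂C.μ, 0 ≤ w₂ o)
    (w₂m : ∫ o, w₂ o ∂C.μ ≤ m₂) (hcert : FCore C f f₁ w₂ Lam B m₂ X K a₁ D G)
    {ξ : Fin 3 → M → ℝ} (hξ : ∀ i, Lip (ξ i)) (oξ : ∀ i, FPM.OddB γ (ξ i)) {R : ℝ} (hR0 : 0 ≤ R)
    (hb : ∀ i x, |ξ i x| ≤ R) :
    ∫ o, umod ξ (C.pt o) ^ 2 * w₂ o ∂C.μ ≤ ∫ o, Gη C ξ o ∂C.μ + 3 * (B * ε * R ^ 2) := by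
  have := C.fin
  have h1 : ∀ i, ∫ o, ξ i (C.pt o) ^ 2 * w₂ o ∂C.μ ≤
      ∫ o, gn C (ξ i) o ^ 2 ∂C.μ + B * ε * R ^ 2 := fun i =>
    far_scalar C hγ hR hv deg fint fnu fX hL hI hε hN hf₁ f₁0 f₁f hα iw₂ w₂0 w₂m hcert hR0
      (hξ i) (oξ i) (hb i)
  have i1 : ∀ i, Integrable (fun o => ξ i (C.pt o) ^ 2 * w₂ o) C.μ := fun i => by
    refine iw₂.bdd_mul (c := R ^ 2) ((aem_pt C (hξ i)).pow_const 2).aestronglyMeasurable ?_
    refine ae_of_all _ fun o => ?_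
    rw [Real.norm_eq_abs, abs_pow]
    exact pow_le_pow_left₀ (abs_nonneg _) (hb i _) 2
  have e1 : ∫ o, umod ξ (C.pt o) ^ 2 * w₂ o ∂C.μ =
      ∑ i, ∫ o, ξ i (C.pt o) ^ 2 * w₂ o ∂C.μ := by
    rw [← integral_finsetSum _ fun i _ => i1 i]
    refine integral_congr_ae (ae_of_all _ fun o => ?_)
    change _ = ∑ i, ξ i (C.pt o) ^ 2 * w₂ o
    rw [← Finset.sum_mul, ← umod_sq]
  have e2 : ∫ o, Gη C ξ o ∂C.μ = ∑ i, ∫ o, gn C (ξ i) o ^ 2 ∂C.μ := by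
    rw [← integral_finsetSum _ fun i _ => int_gn_sq C (hξ i)]
    refine integral_congr_ae (ae_of_all _ fun o => ?_)
    unfold Gη
    refine Finset.sum_congr rfl fun i _ => (gn_sq' C _ o).symm
  rw [e1, e2]
  have h2 := Finset.sum_le_sum fun i (_ : i ∈ Finset.univ) => h1 i
  rw [Finset.sum_add_distrib] at h2
  simpa using h2

/-- **the far part for the truncated field** -/
theorem far_field [CompactSpace M] (C : Calc M γ) (hγ : Bd γ) (hR : RegAE C)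
    {v : Fin 3 → M → ℝ} (hv : Sph γ v) (deg : ∫ o, jac C v o ∂C.μ = 2 * Real.pi) {f : Om → ℝ}
    (fint : Integrable f C.μ) (fnu : ∀ᵐ o ∂C.μ, nuC C v o ≤ f o) {X : ℝ} (fX : ∫ o, f o ∂C.μ ≤ X)
    {κ ε B K a₁ D m₂ : ℝ} {Lam : ℝ → ℝ} (hL : LevO C Lam ε) (hI : IsopO C κ ε) (hε : 0 ≤ ε)
    {G gg : ℝ → ℝ} (hN : VNum X K a₁ D G gg)
    {f₁ : Om → ℝ} (hf₁ : Integrable f₁ C.μ) (f₁0 : ∀ᵐ o ∂C.μ, 0 ≤ f₁ o) (f₁f : ∀ᵐ o ∂C.μ, f₁ o ≤ f o)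
    (hα : ∀ g : M → ℝ, Lip g → ∀ s, 0 ≤ s → a₁ ≤ supa C g s →
      a₁ - D - supw C g f₁ s ≤ supw C g (jac C v) s)
    {w₂ : Om → ℝ} (iw₂ : Integrable w₂ C.μ) (w₂0 : ∀ᵐ o ∂C.μ, 0 ≤ w₂ o)
    (w₂m : ∫ o, w₂ o ∂C.μ ≤ m₂) (hcert : FCore C f f₁ w₂ Lam B m₂ X K a₁ D G)
    {η : Fin 3 → M → ℝ} (hη : ∀ i, Lip (η i)) (oη : ∀ i, FPM.OddB γ (η i)) {t : ℝ} (ht : 0 < t) :
    ∫ o, min (umod η (C.pt o)) t ^ 2 * w₂ o ∂C.μ ≤
      ∫ o, Gη C (utr t η) o ∂C.μ + 3 * (B * ε * t ^ 2) := by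
  have hb : ∀ i x, |utr t η i x| ≤ t := fun i x => by
    have h1 := abs_le_umod (utr t η) i x
    rw [utr_umod ht] at h1
    exact h1.trans (min_le_right _ _)
  have h := far_gen C hγ hR hv deg fint fnu fX hL hI hε hN hf₁ f₁0 f₁f hα iw₂ w₂0 w₂m hcert
    (fun i => lip_utr ht hη i) (odd_utr oη) ht.le hb
  simp only [utr_umod ht] at h
  exact h

end Pool.Agent.FPX
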