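import Mathlib
import Pool.Agent.FPX.FARP

/-
FCU (helper99): closed form of the core certificate for a uniform charge of density `q`:
`y (a) = κ F (q a / κ)`, `F = ψ / φ`, `φ = 1 - x + x²/4 - x³/36`, `ψ = - x φ'` (Bessel functions up to .3 percent).
-/

open MeasureTheory Set Filter Topology
open scoped ENNReal NNReal

noncomputable section

namespace Pool.Agent.FPX

open Pool.Agent.EWD Pool.Agent.FPM

variable {M : Type} [MetricSpace M] {γ : ℝ → M}

/-- truncated Bessel series `J₀ (2 √x)` -/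
def phJ (x : ℝ) : ℝ := 1 - x + x ^ 2 / 4 - x ^ 3 / 36

/-- `- φ'` -/
def ppJ (x : ℝ) : ℝ := 1 - x / 2 + x ^ 2 / 12

/-- amplification of a uniform charge -/
def FJ (x : ℝ) : ℝ := x * ppJ x / phJ x

/-- `F' - 1` -/
def gJ (x : ℝ) : ℝ := x ^ 3 / 36 / phJ x + x * ppJ x ^ 2 / phJ x ^ 2

theorem ppJ_pos (x : ℝ) : 0 < ppJ x := by
  unfold ppJ
  nlinarith [sq_nonneg (x - 3)]

theorem phJ_has (x : ℝ) : HasDerivAt phJ (-ppJ x) x := by
  have h1 : HasDerivAt (fun x : ℝ => 1 - x + x ^ 2 / 4 - x ^ 3 / 36)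
      (0 - 1 + (2 : ℕ) * x ^ (2 - 1) * 1 / 4 - (3 : ℕ) * x ^ (3 - 1) * 1 / 36) x :=
    ((((hasDerivAt_const x (1 : ℝ)).sub (hasDerivAt_id x)).add
      (((hasDerivAt_id x).pow 2).div_const 4)).sub (((hasDerivAt_id x).pow 3).div_const 36))
  refine h1.congr_deriv ?_
  unfold ppJ
  push_cast
  ring

theorem phJ_anti : Antitone phJ :=
  antitone_of_deriv_nonpos (fun x => (phJ_has x).differentiableAt) fun x => by
    rw [(phJ_has x).deriv]
    linarith [ppJ_pos x]

theorem gJ_nonneg {x : ℝ} (hx : 0 ≤ x) (hp : 0 < phJ x) : 0 ≤ gJ x := by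
  unfold gJ
  positivity

theorem FJ_has {x : ℝ} (hp : 0 < phJ x) : HasDerivAt FJ (1 + gJ x) x := by
  have h1 : HasDerivAt (fun x : ℝ => x * ppJ x) (1 - x + x ^ 2 / 4) x := by
    have h2 : HasDerivAt ppJ (0 - 1 / 2 + (2 : ℕ) * x ^ (2 - 1) * 1 / 12) x :=
      (((hasDerivAt_const x (1 : ℝ)).sub ((hasDerivAt_id x).div_const 2)).add
        (((hasDerivAt_id x).pow 2).div_const 12))
    refine ((hasDerivAt_id x).mul h2).congr_deriv ?_
    unfold ppJ
    simp only [id]
    push_cast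
    ring
  refine (h1.div (phJ_has x) hp.ne').congr_deriv ?_
  unfold gJ
  have h3 : phJ x ≠ 0 := hp.ne'
  field_simp
  have e : phJ x = 1 - x + x ^ 2 / 4 - x ^ 3 / 36 := rfl
  have e2 : ppJ x = 1 - x / 2 + x ^ 2 / 12 := rfl
  rw [e, e2]
  ring

/-- the certificate -/
theorem coreD_unif {κ q a₁ B : ℝ} (hκ : 0 < κ) (hq : 0 < q) (ha : 0 < a₁) (hqB : q ≤ B)
    (hφ : 0 < phJ (q * a₁ / κ)) :
    CoreD (fun a => κ * a) a₁ B (fun a => q * max a 0) 1 0 (κ * FJ (q * a₁ / κ)) := by
  set x₁ := q * a₁ / κ with hx₁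
  have hx0 : 0 < x₁ := by positivity
  have hpos : ∀ x, x ≤ x₁ → 0 < phJ x := fun x hx => hφ.trans_le (phJ_anti hx)
  set cl : ℝ → ℝ := fun a => min (max (q * a / κ) 0) x₁ with hcl
  have ccl : Continuous cl := by
    rw [hcl]
    fun_prop
  have cl0 : ∀ a, 0 ≤ cl a := fun a => le_min (le_max_right _ _) hx0.le
  have cl1 : ∀ a, cl a ≤ x₁ := fun a => min_le_right _ _
  have cle : ∀ a, 0 ≤ a → a ≤ a₁ → cl a = q * a / κ := fun a h0 h1 => by
    have h2 : q * a / κ ≤ x₁ := div_le_div_of_nonneg_right (mul_le_mul_of_nonneg_left h1 hq.le) hκ.le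
    have h3 : 0 ≤ q * a / κ := by positivity
    rw [hcl]
    simp only
    rw [max_eq_left h3, min_eq_left h2]
  set k : ℝ → ℝ := fun a => q * gJ (cl a) with hk
  have ck : Continuous k := by
    have h1 : ContinuousOn gJ (Iic x₁) := by
      have h2 : ContinuousOn phJ (Iic x₁) :=
        (continuous_iff_continuousAt.2 fun x => (phJ_has x).continuousAt).continuousOn
      have h3 : Continuous ppJ := by unfold ppJ; fun_prop
      unfold gJ
      refine ContinuousOn.add ?_ ?_
      · exact ContinuousOn.div (by fun_prop) h2 fun x hx => (hpos x hx).ne'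
      · exact ContinuousOn.div (by fun_prop) (h2.pow 2) fun x hx => (pow_pos (hpos x hx) 2).ne'
    exact continuous_const.mul (h1.comp_continuous ccl fun a => cl1 a)
  have kp : ∀ a, 0 ≤ k a := fun a => mul_nonneg hq.le (gJ_nonneg (cl0 a) (hpos _ (cl1 a)))
  have k0 : ∀ a ≤ 0, k a = 0 := fun a h => by
    have h2 : cl a = 0 := by
      have h3 : q * a / κ ≤ 0 := div_nonpos_of_nonpos_of_nonneg (mul_nonpos_of_nonneg_of_nonpos hq.le h) hκ.le
      rw [hcl]
      simp only
      rw [max_eq_right h3, min_eq_left hx0.le]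
    rw [hk]
    simp only
    rw [h2]
    unfold gJ
    simp
  have key : ∀ a, 0 ≤ a → a ≤ a₁ → ∫ u in (0 : ℝ)..a, k u = κ * FJ (q * a / κ) - q * a := by
    intro a h0 h1
    have h2 : ∀ u ∈ uIcc (0 : ℝ) a, HasDerivAt (fun u => κ * FJ (q * u / κ) - q * u) (k u) u := by
      intro u hu
      rw [uIcc_of_le h0] at hu
      have h3 := cle u hu.1 (hu.2.trans h1)
      have h4 : 0 < phJ (q * u / κ) := by
        rw [← h3]
        exact hpos _ (cl1 u)
      have h5 : HasDerivAt (fun u : ℝ => q * u / κ) (q / κ) u := by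
        simpa using ((hasDerivAt_id u).const_mul q).div_const κ
      have h6 := ((HasDerivAt.comp u (FJ_has h4) h5).const_mul κ).sub ((hasDerivAt_id u).const_mul q)
      refine h6.congr_deriv ?_
      rw [hk]
      simp only
      rw [h3]
      field_simp
      ring
    rw [intervalIntegral.integral_eq_sub_of_hasDerivAt h2 (ck.intervalIntegrable _ _)]
    have h7 : FJ (q * 0 / κ) = 0 := by
      unfold FJ
      simp
    rw [h7]
    ring
  refine ⟨?_, ?_, ?_, one_pos, le_rfl, by simpa using hq.le.trans hqB, k, ck, k0, kp, ?_, ?_⟩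
  · intro x y hxy
    exact mul_le_mul_of_nonneg_left (max_le_max hxy le_rfl) hq.le
  · intro a h
    rw [max_eq_right h, mul_zero]
  · intro x y hxy
    have h1 : max y 0 ≤ max x 0 + (y - x) := by
      rcases le_total y 0 with h | h
      · rw [max_eq_right h]
        have := le_max_right x 0
        linarith
      · rw [max_eq_left h]
        have := le_max_left x 0
        linarith
    have h2 := mul_le_mul_of_nonneg_left h1 hq.le
    have h3 : q * (y - x) ≤ B * (y - x) := mul_le_mul_of_nonneg_right hqB (by linarith)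
    linarith
  · intro a h0 h1
    have h2 : min (0 / 1 * a) (0 : ℝ) = 0 := by simp
    rw [h2, key a h0.le h1, max_eq_left h0.le]
    have h3 := cle a h0.le h1
    have h4 : 0 < phJ (q * a / κ) := by
      rw [← h3]
      exact hpos _ (cl1 a)
    rw [hk]
    simp only
    rw [h3]
    set x := q * a / κ with hx
    have hxp : 0 < x := by positivity
    have e1 : κ * a * (q * gJ x) = κ ^ 2 * (x * gJ x) := by
      rw [hx]
      field_simp
    have e2 : q * a + 0 + (κ * FJ x - q * a) = κ * FJ x := by ring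
    rw [e1, e2, mul_pow]
    refine mul_le_mul_of_nonneg_left ?_ (sq_nonneg κ)
    have e3 : x * gJ x = x ^ 4 / 36 / phJ x + FJ x ^ 2 := by
      unfold gJ FJ
      field_simp
    rw [e3]
    have h5 : 0 ≤ x ^ 4 / 36 / phJ x := by positivity
    linarith
  · have h2 : min (0 / 1 * a₁) (0 : ℝ) = 0 := by simp
    rw [h2, key a₁ ha.le le_rfl, max_eq_left ha.le]
    linarith

/-- **closed form of `FCore` for a weight of density at most `q`** -/
theorem fcore_unif (C : Calc M γ) {f f₁ w₂ : Om → ℝ} {κ B q a₁ D X K m₂ : ℝ} {G gg : ℝ → ℝ}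
    (hN : VNum X K a₁ D G gg) (hκ : 0 < κ) (hq : 0 < q) (hqB : q ≤ B)
    (hφ : 0 < phJ (q * a₁ / κ)) (hG : 0 < G (a₁ - D))
    (hr : κ * FJ (q * a₁ / κ) * (G (a₁ - D) + K * X) < 1) (hm : m₂ ≤ q * a₁)
    (hf : Integrable f C.μ) (f0 : ∀ᵐ o ∂C.μ, 0 ≤ f o) (fX : ∫ o, f o ∂C.μ ≤ X)
    (hf₁ : Integrable f₁ C.μ) (f₁0 : ∀ᵐ o ∂C.μ, 0 ≤ f₁ o) (f₁f : ∀ᵐ o ∂C.μ, f₁ o ≤ f o)
    (iw : Integrable w₂ C.μ) (wq : ∀ᵐ o ∂C.μ, w₂ o ≤ q) :
    FCore C f f₁ w₂ (fun a => κ * a) B m₂ X K a₁ D G := by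
  have := C.fin
  have hpi := Real.pi_pos
  intro T hT hTa
  set y := ∫ o in T, f₁ o ∂C.μ with hy
  set ω := ∫ o in T, f o ∂C.μ with hω
  have y0 : 0 ≤ y := setIntegral_nonneg_of_ae f₁0
  have yω : y ≤ ω := setIntegral_mono_ae hf₁.integrableOn hf.integrableOn f₁f
  have ωX : ω ≤ X := (setIntegral_le_integral hf f0).trans fX
  have hA1 := hN.A1
  have hK := hN.K0
  have hX := hN.hX
  have haD := hN.haD
  set A := a₁ - D with hAd
  set A1 := a₁ - D - X with hA1d
  have hXω : 0 ≤ X - ω := by linarith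
  have hX0 : 0 ≤ X := y0.trans (yω.trans ωX)
  have hIcc : ∀ α ∈ Icc A1 A, α ≤ 2 * Real.pi + X := fun α h => h.2.trans haD
  -- `gg` is positive and at most `K` on the interval
  have hg0 : ∀ α ∈ Icc A1 A, 0 ≤ gg α := by
    intro α h
    have h1 := hN.hgg α h.1 (hIcc α h)
    have h2 : 0 < α := hA1.trans_le h.1
    have h3 : 0 < 4 * Real.pi - α := by linarith [hIcc α h]
    have h4 : 0 < 1 / (α * (4 * Real.pi - α)) := by positivity
    have h5 : 0 ≤ gg α ^ 2 / (2 * K) := by positivity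
    linarith
  have hd : ∀ α ∈ Icc A1 A, HasDerivAt G (-gg α) α := fun α h => hN.hG α h.1 (hIcc α h)
  have hcont : ContinuousOn G (Icc A1 A) := fun α h => (hd α h).continuousAt.continuousWithinAt
  have hanti : AntitoneOn G (Icc A1 A) := by
    refine antitoneOn_of_deriv_nonpos (convex_Icc _ _) hcont ?_ ?_
    · intro α h
      rw [interior_Icc] at h
      exact (hd α ⟨h.1.le, h.2.le⟩).differentiableAt.differentiableWithinAt
    · intro α h
      rw [interior_Icc] at h
      have h' : α ∈ Icc A1 A := ⟨h.1.le, h.2.le⟩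
      rw [(hd α h').deriv]
      linarith [hg0 α h']
  have hmono : MonotoneOn (fun α => G α + K * α) (Icc A1 A) := by
    have hd2 : ∀ α ∈ Icc A1 A, HasDerivAt (fun α => G α + K * α) (-gg α + K) α := fun α h => by
      refine ((hd α h).fun_add ((hasDerivAt_id α).const_mul K)).congr_deriv ?_
      rw [mul_one]
    refine monotoneOn_of_deriv_nonneg (convex_Icc _ _) ?_ ?_ ?_
    · exact fun α h => (hd2 α h).continuousAt.continuousWithinAt
    · intro α h
      rw [interior_Icc] at h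
      exact (hd2 α ⟨h.1.le, h.2.le⟩).differentiableAt.differentiableWithinAt
    · intro α h
      rw [interior_Icc] at h
      have h' : α ∈ Icc A1 A := ⟨h.1.le, h.2.le⟩
      rw [(hd2 α h').deriv]
      have := hN.hgK α h'.1 h'.2
      linarith
  have hyX : y ≤ X := yω.trans ωX
  have m1 : A - y ∈ Icc A1 A := ⟨by linarith, by linarith⟩
  have m2 : A ∈ Icc A1 A := ⟨by linarith, le_rfl⟩
  have h1 : G A ≤ G (A - y) := hanti m1 m2 (by linarith)
  have h2 : G (A - y) + K * (A - y) ≤ G A + K * A := hmono m1 m2 (by linarith)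
  have h3 : 0 ≤ K * (X - ω) := mul_nonneg hK.le hXω
  have h4 : K * y ≤ K * ω := mul_le_mul_of_nonneg_left yω hK.le
  have hR : G (A - y) + K * (X - ω) ≤ G A + K * X := by
    have e1 : K * (A - y) = K * A - K * y := by ring
    have e2 : K * (X - ω) = K * X - K * ω := by ring
    rw [e1] at h2
    rw [e2]
    linarith
  refine ⟨fun a => q * max a 0, 1, κ * FJ (q * a₁ / κ), coreD_unif hκ hq hN.a0 hqB hφ, ?_, ?_, ?_⟩
  · intro S hS _
    have h5 : ∫ o in S, w₂ o ∂C.μ ≤ ∫ _ in S, q ∂C.μ :=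
      setIntegral_mono_ae iw.integrableOn (integrable_const _).integrableOn wq
    rw [setIntegral_const, smul_eq_mul] at h5
    change _ ≤ q * max (C.μ.real S) 0
    rw [max_eq_left measureReal_nonneg]
    linarith
  · linarith
  · have hF : 0 < FJ (q * a₁ / κ) := by
      have := ppJ_pos (q * a₁ / κ)
      have := hN.a0
      unfold FJ
      positivity
    have h5 : m₂ + (κ * FJ (q * a₁ / κ) - q * max a₁ 0) ≤ κ * FJ (q * a₁ / κ) := by
      rw [max_eq_left hN.a0.le]
      linarith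
    have h6 : 0 < G (A - y) + K * (X - ω) := by linarith
    calc (m₂ + (κ * FJ (q * a₁ / κ) - q * max a₁ 0)) * (G (A - y) + K * (X - ω))
        ≤ κ * FJ (q * a₁ / κ) * (G (A - y) + K * (X - ω)) :=
          mul_le_mul_of_nonneg_right h5 h6.le
      _ ≤ κ * FJ (q * a₁ / κ) * (G A + K * X) :=
          mul_le_mul_of_nonneg_left hR (by positivity)
      _ < 1 := hr

end Pool.Agent.FPX
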