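import Mathlib
import Pool.Agent.FPX.KENP
import Pool.Agent.FPX.TRS
import Pool.Agent.FPX.HRS

/-
KENQ (helper28): the side condition of `GoodK` in terms of the modulus, and the bounded charge
`min ν N`, `N = 2 e^{2c}`, for admissible pairs with exceptional set.
-/

open MeasureTheory Set Filter Topology
open scoped ENNReal NNReal

noncomputable section

namespace Pool.Agent.FPX

open Pool.Agent.EWD Pool.Agent.FPM

variable {M : Type} [MetricSpace M] {γ : ℝ → M}

theorem umod_vv (η : Fin 3 → M → ℝ) (x : M) : umod η x = ‖vv (n := 0) η x‖ := by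
  have h : ‖vv (n := 0) η x‖ ^ 2 = umod η x ^ 2 := by
    rw [umod_sq, normsq3, Fin.sum_univ_three]
    rfl
  exact ((pow_left_inj₀ (norm_nonneg _) (umod_nonneg η x) two_ne_zero).1 h).symm

/-- `|T - v|` as a norm -/
theorem umod_eta (C : Calc M γ) (v T : Fin 3 → M → ℝ) (o : Om) :
    umod (etaK v T) (C.pt o) = ‖at' C T o - at' C v o‖ := by
  rw [umod_vv, vv_eta]
  rfl

/-- a component is at most the modulus -/
theorem gA_le_umod (v T : Fin 3 → M → ℝ) {a : E3} (ha : ‖a‖ = 1) (x : M) :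
    |gA v T a x| ≤ umod (etaK v T) x := by
  have h2 := abs_real_inner_le_norm a (vv (n := 0) (etaK v T) x)
  rw [ha, one_mul, ← umod_vv] at h2
  exact h2

/-- superlevel sets of a component and of the modulus -/
theorem supa_umod (C : Calc M γ) {v T : Fin 3 → M → ℝ} {a : E3} (ha : ‖a‖ = 1) {t x : ℝ}
    (h : x ≤ C.μ.real {o | t < |gA v T a (C.pt o)|}) : x ≤ supa C (umod (etaK v T)) t := by
  have := C.fin
  refine h.trans (ENNReal.toReal_mono (measure_ne_top _ _) (measure_mono fun o ho => ?_))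
  have ho' : t < |gA v T a (C.pt o)| := ho
  have h1 := gA_le_umod v T ha (C.pt o)
  have h2 := le_abs_self (umod (etaK v T) (C.pt o))
  exact ho'.trans_le (h1.trans h2)

/-- **the side condition of `GoodK` at one level of the modulus** -/
theorem side_level (C : Calc M γ) {v T : Fin 3 → M → ℝ} {a : E3} (ha : ‖a‖ = 1) {κI σ h L ε : ℝ}
    (hh : 0 < h)
    (hs : ∀ s, 0 ≤ s → s < σ → κI * ((σ - s) * h) ^ 2 / (4 * L ^ 2) + ε ≤
      C.μ.real {o | s * h < |gA v T a (C.pt o)|}) {t : ℝ} (ht : 0 ≤ t) (htσ : t < σ * h) :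
    κI * (σ * h - t) ^ 2 / (4 * L ^ 2) + ε ≤ supa C (umod (etaK v T)) t := by
  have h1 := hs (t / h) (by positivity) (by rwa [div_lt_iff₀ hh])
  have e1 : t / h * h = t := div_mul_cancel₀ t hh.ne'
  have e2 : (σ - t / h) * h = σ * h - t := by rw [sub_mul, e1]
  rw [e1, e2] at h1
  exact supa_umod C ha h1

/-- the level at which the area is still `b` -/
theorem side_area (C : Calc M γ) {v T : Fin 3 → M → ℝ} {a : E3} (ha : ‖a‖ = 1) {κI σ h L ε b : ℝ}
    (hh : 0 < h) (hκ : 0 < κI) (hL : 0 < L) (hb : 0 < b)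
    (hs : ∀ s, 0 ≤ s → s < σ → κI * ((σ - s) * h) ^ 2 / (4 * L ^ 2) + ε ≤
      C.μ.real {o | s * h < |gA v T a (C.pt o)|}) (ht : 0 ≤ σ * h - 2 * L * √(b / κI)) :
    b + ε ≤ supa C (umod (etaK v T)) (σ * h - 2 * L * √(b / κI)) := by
  have hbk : 0 < b / κI := by positivity
  have h0 : 0 < √(b / κI) := Real.sqrt_pos.2 hbk
  have h1 := side_level C ha hh hs ht (by
    have : 0 < 2 * L * √(b / κI) := by positivity
    linarith)
  have e : σ * h - (σ * h - 2 * L * √(b / κI)) = 2 * L * √(b / κI) := by ring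
  rw [e, mul_pow, Real.sq_sqrt hbk.le] at h1
  have e2 : κI * ((2 * L) ^ 2 * (b / κI)) / (4 * L ^ 2) = b := by
    field_simp
    ring
  rwa [e2] at h1

/-! ### the bounded charge -/

/-- the bounded charge -/
def nuN (C : Calc M γ) (v : Fin 3 → M → ℝ) (N : ℝ) (o : Om) : ℝ := min (nuC C v o) N

theorem nuC_nonneg (C : Calc M γ) (v : Fin 3 → M → ℝ) (o : Om) : 0 ≤ nuC C v o := nuv_nonneg _ _ _

theorem nuN_nonneg (C : Calc M γ) (v : Fin 3 → M → ℝ) {N : ℝ} (hN : 0 ≤ N) (o : Om) :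
    0 ≤ nuN C v N o := le_min (nuC_nonneg C v o) hN

theorem nuN_le (C : Calc M γ) (v : Fin 3 → M → ℝ) (N : ℝ) (o : Om) : nuN C v N o ≤ nuC C v o :=
  min_le_left _ _

theorem nuN_le' (C : Calc M γ) (v : Fin 3 → M → ℝ) (N : ℝ) (o : Om) : nuN C v N o ≤ N :=
  min_le_right _ _

variable [CompactSpace M]

theorem nuN_int (C : Calc M γ) {v : Fin 3 → M → ℝ} (hv : ∀ k, Lip (v k)) (N : ℝ) :
    Integrable (nuN C v N) C.μ :=
  nuC_cint C hv (φ := fun x => min x N) (continuous_id.min continuous_const)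

theorem nuC_int' (C : Calc M γ) {v : Fin 3 → M → ℝ} (hv : ∀ k, Lip (v k)) :
    Integrable (nuC C v) C.μ := nuC_cint C hv (φ := fun x => x) continuous_id

/-- **the charge of an admissible pair**: bounded by `2 e^{2 cm}`, and by `2 e^{2c}` up to a set whose
charge is at most `2 e^{2 cm} εA` -/
theorem AdmK.charge {C : Calc M γ} {φ G : ℝ → ℝ} {Ee c₀ X εA cm c : ℝ} {v : Fin 3 → M → ℝ}
    (h : AdmK C φ G Ee c₀ X εA cm c v) :
    c ≤ cm ∧ (∀ᵐ o ∂C.μ, nuC C v o ≤ 2 * Real.exp cm ^ 2) ∧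
      ∃ A : Set Om, NullMeasurableSet A C.μ ∧ C.μ.real A ≤ εA ∧
        (∀ᵐ o ∂C.μ, o ∉ A → nuC C v o ≤ 2 * Real.exp c ^ 2) ∧
        ∫ o, (nuC C v o - nuN C v (2 * Real.exp c ^ 2) o) ∂C.μ ≤ 2 * Real.exp cm ^ 2 * εA := by
  have := C.fin
  obtain ⟨c', A, hK, hA, hcm⟩ := h.cap
  have he := Real.exp_pos c'
  have h0 : Real.exp c' ^ 2 ≤ Real.exp cm ^ 2 :=
    pow_le_pow_left₀ he.le (Real.exp_le_exp.2 hcm) 2
  have h1 : ∀ᵐ o ∂C.μ, nuC C v o ≤ 2 * Real.exp cm ^ 2 := by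
    filter_upwards [hK.inA] with o ho
    exact (nu_le_of_InW hK.sph ho).trans (by linarith)
  have h2 : ∀ᵐ o ∂C.μ, o ∉ A → nuC C v o ≤ 2 * Real.exp c ^ 2 := by
    filter_upwards [hK.out] with o ho hoA
    exact nu_le_of_InW hK.sph (ho hoA)
  refine ⟨hK.le.trans hcm, h1, A, hK.meas, hA, h2, ?_⟩
  have i1 : Integrable (fun o => nuC C v o - nuN C v (2 * Real.exp c ^ 2) o) C.μ :=
    (nuC_int' C hK.sph.lip).sub (nuN_int C hK.sph.lip _)
  have i2 : Integrable (A.indicator fun _ => 2 * Real.exp cm ^ 2) C.μ :=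
    (integrable_const _).indicator₀ hK.meas
  have e : ∫ o, A.indicator (fun _ => 2 * Real.exp cm ^ 2) o ∂C.μ = 2 * Real.exp cm ^ 2 * C.μ.real A := by
    rw [integral_indicator₀ hK.meas, integral_const, smul_eq_mul, mul_comm]
    congr 1
    simp [Measure.real]
  have h3 : ∫ o, (nuC C v o - nuN C v (2 * Real.exp c ^ 2) o) ∂C.μ ≤
      ∫ o, A.indicator (fun _ => 2 * Real.exp cm ^ 2) o ∂C.μ := by
    refine integral_mono_ae i1 i2 ?_
    filter_upwards [h1, h2] with o k1 k2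
    by_cases ho : o ∈ A
    · rw [indicator_of_mem ho]
      have := nuN_nonneg C v (N := 2 * Real.exp c ^ 2) (by positivity) o
      linarith
    · rw [indicator_of_notMem ho]
      have : nuN C v (2 * Real.exp c ^ 2) o = nuC C v o := min_eq_left (k2 ho)
      linarith
  rw [e] at h3
  exact h3.trans (mul_le_mul_of_nonneg_left hA (by positivity))

/-- the error of the bounded charge against a bounded function on a set -/
theorem nuN_err {C : Calc M γ} {φ G : ℝ → ℝ} {Ee c₀ X εA cm c : ℝ} {v : Fin 3 → M → ℝ}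
    (h : AdmK C φ G Ee c₀ X εA cm c v) (S : Set Om) :
    ∫ o in S, nuC C v o ∂C.μ ≤ ∫ o in S, nuN C v (2 * Real.exp c ^ 2) o ∂C.μ +
      2 * Real.exp cm ^ 2 * εA := by
  obtain ⟨-, -, A, -, -, -, h1⟩ := h.charge
  have i1 := nuC_int' C h.sph.lip
  have i2 := nuN_int C h.sph.lip (2 * Real.exp c ^ 2)
  have h2 : ∫ o in S, (nuC C v o - nuN C v (2 * Real.exp c ^ 2) o) ∂C.μ ≤
      ∫ o, (nuC C v o - nuN C v (2 * Real.exp c ^ 2) o) ∂C.μ :=
    setIntegral_le_integral (i1.sub i2) (ae_of_all _ fun o => by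
      have := nuN_le C v (2 * Real.exp c ^ 2) o
      change 0 ≤ nuC C v o - nuN C v (2 * Real.exp c ^ 2) o
      linarith)
  rw [integral_sub i1.integrableOn i2.integrableOn] at h2
  linarith

end Pool.Agent.FPX
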