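import Mathlib
import Pool.Agent.FPX.KENQ
import Pool.Agent.FPX.MDR
import Pool.Agent.FPX.FCU
import Pool.Agent.FPX.MDA
import Pool.Agent.FPX.VDB

/-
FIND (helper28): the data layer of the modulus closing (penalty `φ = id`).

`PairM`: what is left of an admissible pair: the budget `∫ ν + G(c) ≤ X`, `ν ≤ 2 e^{2 cm}`.
`Fq`: the integrand `q - p dν + 32 (ν - min ν N)`, `N = 2 e^{2c}`; pointwise bounds with the charge `ν`
pass to `Fq` with the bounded charge `nuN = min ν N` (`fq_real`, `Fq_all`, `Fq_core`).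
`far_pack`: the far field for the weights `q θ`, in the form `hfar` of `mod_split`, `mod_static`.
`closingK_of`: from the integrals of `Fq` to `ClosingK`.
-/

open MeasureTheory Set Filter Topology
open scoped ENNReal NNReal

noncomputable section

namespace Pool.Agent.FPX

open Pool.Agent.EWD Pool.Agent.FPM

variable {M : Type} [MetricSpace M] {γ : ℝ → M}

theorem eta_eq (v T : Fin 3 → M → ℝ) : eta v T = etaK v T := rfl

/-- the pair, as seen by the modulus closing -/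
structure PairM (C : Calc M γ) (G : ℝ → ℝ) (Ee c₀ X cm c : ℝ) (v : Fin 3 → M → ℝ) : Prop where
  hc : c₀ ≤ c
  hcm : c ≤ cm
  sph : Sph γ v
  deg : ∫ o, jac C v o ∂C.μ = 2 * Real.pi
  tot : ∫ o, nuC C v o ∂C.μ + G c ≤ X
  bdd : ∀ᵐ o ∂C.μ, nuC C v o ≤ 2 * Real.exp cm ^ 2
  en : ∀ᵐ o ∂C.μ, ‖dx C v o‖ ^ 2 + ‖dy C v o‖ ^ 2 ≤ 2 * (Real.exp cm ^ 2 * Ee)

theorem AdmK.pairM [CompactSpace M] {C : Calc M γ} {G : ℝ → ℝ} {Ee c₀ X εA cm c : ℝ} {v : Fin 3 → M → ℝ}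
    (h : AdmK C (fun x => x) G Ee c₀ X εA cm c v) (hE : 0 ≤ Ee) : PairM C G Ee c₀ X cm c v where
  hc := h.hc
  hcm := h.charge.1
  sph := h.sph
  deg := h.deg
  tot := h.tot
  bdd := h.charge.2.1
  en := by
    obtain ⟨c', A, hK, hA, hcm⟩ := h.cap
    filter_upwards [hK.inA] with o ho
    have h0 : Real.exp c' ^ 2 ≤ Real.exp cm ^ 2 :=
      pow_le_pow_left₀ (Real.exp_pos c').le (Real.exp_le_exp.2 hcm) 2
    exact ho.s.trans (mul_le_mul_of_nonneg_left (mul_le_mul_of_nonneg_right h0 hE) (by norm_num))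

/-! ### the modulus -/

theorem umod_le8 {v T : Fin 3 → M → ℝ} (hv : Sph γ v) (hT : ∀ x, ‖vv (n := 0) T x‖ ≤ 7) (x : M) :
    umod (eta v T) x ≤ 8 := by
  rw [eta_eq, umod_vv, vv_eta]
  have h1 : ‖vv (n := 0) v x‖ = 1 := by
    have h2 : ‖vv (n := 0) v x‖ ^ 2 = 1 := by
      rw [normsq3]
      have h3 := hv.unit x
      rw [Fin.sum_univ_three] at h3
      exact h3
    exact ken_one (norm_nonneg _) h2
  exact (norm_sub_le _ _).trans (by linarith [hT x])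

/-! ### the integrand -/

/-- the integrand with the bounded charge -/
def Fq (C : Calc M γ) (p : ℝ) (q : Om → ℝ) (v T : Fin 3 → M → ℝ) (N : ℝ) (o : Om) : ℝ :=
  q o - p * dnuC C v T o + 32 * (nuC C v o - nuN C v N o)

/-- passing to the bounded charge -/
theorem fq_real {A x n u F p : ℝ} {Lb : ℝ → ℝ} (hLb : ∀ a b, 0 ≤ a → a ≤ b → Lb a ≤ Lb b) (h0 : 0 ≤ n)
    (hn : n ≤ x) (hp : p ≤ 2) (hu0 : 0 ≤ u) (hu8 : u ≤ 8) (h : A + Lb x - 2 * p * u * x ≤ F) :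
    A + Lb n - 2 * p * u * n ≤ F + 32 * (x - n) := by
  have h1 := hLb n x h0 hn
  have h2 : p * u * (x - n) ≤ 2 * 8 * (x - n) := by
    refine mul_le_mul_of_nonneg_right ?_ (by linarith)
    calc p * u ≤ 2 * u := mul_le_mul_of_nonneg_right hp hu0
      _ ≤ 2 * 8 := by linarith
  nlinarith

theorem psd_mono {δ x y : ℝ} (hδ : 0 ≤ δ) (h : x ≤ y) : psd δ x ≤ psd δ y := by
  unfold psd
  have h1 : 0 ≤ 1 + 3 / 2 * (δ / (1 + δ)) := by positivity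
  have := mul_le_mul_of_nonneg_left h h1
  linarith

theorem PSI_mono {l : List ℝ} (hl : ∀ δ ∈ l, 0 ≤ δ) {x y : ℝ} (h : x ≤ y) : PSI l x ≤ PSI l y := by
  induction l with
  | nil => exact h
  | cons δ l ih =>
    exact max_le_max (psd_mono (hl δ (by simp)) h) (ih fun δ' h' => hl δ' (by simp [h']))

variable [CompactSpace M]

theorem Fq_int (C : Calc M γ) {p : ℝ} {q : Om → ℝ} (hq : Integrable q C.μ) {v T : Fin 3 → M → ℝ}
    (hv : ∀ k, Lip (v k)) (hT : ∀ k, Lip (T k)) (N : ℝ) : Integrable (Fq C p q v T N) C.μ := by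
  have i1 : Integrable (dnuC C v T) C.μ := by
    have := dnuC_cint C hv hT (φ := fun _ => 1) continuous_const
    simpa only [one_mul] using this
  exact (hq.sub (i1.const_mul p)).add (((nuC_int' C hv).sub (nuN_int C hv N)).const_mul 32)

/-- the integral of the integrand -/
theorem Fq_le (C : Calc M γ) {p : ℝ} {q : Om → ℝ} (hq : Integrable q C.μ) {G : ℝ → ℝ}
    {Ee c₀ X εA cm c : ℝ} {v T : Fin 3 → M → ℝ} (h : AdmK C (fun x => x) G Ee c₀ X εA cm c v)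
    (hT : ∀ k, Lip (T k)) :
    ∫ o, Fq C p q v T (2 * Real.exp c ^ 2) o ∂C.μ ≤ ∫ o, q o ∂C.μ - p * ∫ o, dnuC C v T o ∂C.μ +
      64 * Real.exp cm ^ 2 * εA := by
  obtain ⟨-, -, A, -, -, -, h1⟩ := h.charge
  have hv := h.sph.lip
  have i1 : Integrable (dnuC C v T) C.μ := by
    have := dnuC_cint C hv hT (φ := fun _ => 1) continuous_const
    simpa only [one_mul] using this
  have i2 : Integrable (fun o => nuC C v o - nuN C v (2 * Real.exp c ^ 2) o) C.μ :=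
    (nuC_int' C hv).sub (nuN_int C hv _)
  have i3 : Integrable (fun o => q o - p * dnuC C v T o) C.μ := hq.sub (i1.const_mul p)
  have e : ∫ o, Fq C p q v T (2 * Real.exp c ^ 2) o ∂C.μ = (∫ o, q o ∂C.μ - p * ∫ o, dnuC C v T o ∂C.μ) +
      32 * ∫ o, (nuC C v o - nuN C v (2 * Real.exp c ^ 2) o) ∂C.μ := by
    have e1 : ∫ o, Fq C p q v T (2 * Real.exp c ^ 2) o ∂C.μ =
        ∫ o, ((q o - p * dnuC C v T o) + 32 * (nuC C v o - nuN C v (2 * Real.exp c ^ 2) o)) ∂C.μ := rfl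
    rw [e1, integral_add i3 (i2.const_mul 32), integral_sub hq (i1.const_mul p), integral_const_mul,
      integral_const_mul]
  rw [e]
  have h2 := mul_le_mul_of_nonneg_left h1 (by norm_num : (0 : ℝ) ≤ 32)
  linarith

omit [CompactSpace M] in
/-- pointwise bounds pass to the bounded charge -/
theorem Fq_of (C : Calc M γ) {p : ℝ} {q : Om → ℝ} {v T : Fin 3 → M → ℝ} (hv : Sph γ v)
    (hT : TZ C 2 1 7 T) (hp : p ≤ 2) {N : ℝ} (hN : 0 ≤ N) {A : ℝ} {Lb : ℝ → ℝ}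
    (hLb : ∀ a b, 0 ≤ a → a ≤ b → Lb a ≤ Lb b) {o : Om}
    (h : A + Lb (nuC C v o) - 2 * p * umod (eta v T) (C.pt o) * nuC C v o ≤ q o - p * dnuC C v T o) :
    A + Lb (nuN C v N o) - 2 * p * umod (eta v T) (C.pt o) * nuN C v N o ≤ Fq C p q v T N o :=
  fq_real hLb (nuN_nonneg C v hN o) (nuN_le C v N o) hp (umod_nonneg _ _) (umod_le8 hv hT.bd _) h

omit [CompactSpace M] in
/-- **everywhere** -/
theorem Fq_all (C : Calc M γ) (l : List ℝ) {v T : Fin 3 → M → ℝ} (hv : Sph γ v) (hT : TZ C 2 1 7 T)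
    {N : ℝ} (hN : 0 ≤ N) : ∀ᵐ o ∂C.μ,
    Gη C (eta v T) o + (1 - 4 * umod (eta v T) (C.pt o)) * nuN C v N o + PE (enb (dx C v o) (dy C v o)) ≤
      Fq C 2 (QMC C l v T) v T N o := by
  filter_upwards [mod_all C l hv hT] with o h
  have key := Fq_of C (q := QMC C l v T) hv hT le_rfl hN (A := Gη C (eta v T) o +
    PE (enb (dx C v o) (dy C v o))) (Lb := fun x => x) (fun a b _ hab => hab) (o := o) (by linarith)
  linarith

omit [CompactSpace M] in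
/-- **on `{ρ ≥ 1/4}`** -/
theorem Fq_core (C : Calc M γ) {l : List ℝ} (hl : ∀ δ ∈ l, 0 ≤ δ ∧ δ ≤ 5) {v T : Fin 3 → M → ℝ}
    (hv : Sph γ v) (hT : TZ C 2 1 7 T) {N : ℝ} (hN : 0 ≤ N) :
    ∀ᵐ o ∂C.μ, 1 / 4 ≤ umod (eta v T) (C.pt o) → ∀ r : ℝ, 0 ≤ r → r ≤ 1 →
    gn C (umod (eta v T)) o ^ 2 + r * (Gη C (eta v T) o - gn C (umod (eta v T)) o ^ 2) +
        (1 - r) * PSI l (nuN C v N o) + r * nuN C v N o - 4 * umod (eta v T) (C.pt o) * nuN C v N o +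
        PE (enb (dx C v o) (dy C v o)) ≤ Fq C 2 (QMC C l v T) v T N o := by
  filter_upwards [mod_core C hl hv hT] with o h hρ r r0 r1
  have h1 := h hρ r r0 r1
  have key := Fq_of C (q := QMC C l v T) hv hT le_rfl hN (A := gn C (umod (eta v T)) o ^ 2 +
    r * (Gη C (eta v T) o - gn C (umod (eta v T)) o ^ 2) +
    PE (enb (dx C v o) (dy C v o))) (Lb := fun x => (1 - r) * PSI l x + r * x)
    (fun a b _ hab => add_le_add (mul_le_mul_of_nonneg_left (PSI_mono (fun δ h => (hl δ h).1) hab)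
      (by linarith)) (mul_le_mul_of_nonneg_left hab r0)) (o := o) (by linarith)
  linarith

/-! ### the far field -/

/-- **the far field**, in the form `hfar` of `mod_split` and `mod_static` -/
theorem far_pack (C : Calc M γ) (hγ : Bd γ) (hR : RegAE C) {v : Fin 3 → M → ℝ} (hv : Sph γ v)
    (deg : ∫ o, jac C v o ∂C.μ = 2 * Real.pi) {X : ℝ} (fX : ∫ o, nuC C v o ∂C.μ ≤ X)
    {B a₁ D κ ε q K : ℝ} {G gg : ℝ → ℝ} (hB : ∫ o, PE (enb (dx C v o) (dy C v o)) ∂C.μ ≤ B)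
    (hBa : B ≤ a₁) (hD : 2 * √(a₁ * B) ≤ D) (hI : IsopO C κ ε) (hε : 0 ≤ ε) (hκ : 0 < κ)
    (hN : VNum X K a₁ D G gg) (hq : 0 < q) (hφ : 0 < phJ (q * a₁ / κ)) (hG : 0 < G (a₁ - D))
    (hr : κ * FJ (q * a₁ / κ) * (G (a₁ - D) + K * X) < 1)
    {η : Fin 3 → M → ℝ} (hη : ∀ i, Lip (η i)) (oη : ∀ i, FPM.OddB γ (η i)) {t : ℝ} (ht : 0 < t)
    {θ : Om → ℝ} (iθ : Integrable θ C.μ) (θ0 : ∀ o, 0 ≤ θ o) (θ1 : ∀ o, θ o ≤ 1)
    (hθ : ∫ o, θ o ∂C.μ = a₁) :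
    q * ∫ o, min (umod η (C.pt o)) t ^ 2 * θ o ∂C.μ ≤ ∫ o, Gη C (utr t η) o ∂C.μ + 3 * q * ε * t ^ 2 := by
  have i1 := nuC_int' C hv.lip
  have n0 : ∀ᵐ o ∂C.μ, 0 ≤ nuC C v o := ae_of_all _ fun o => nuC_nonneg C v o
  have i2 : Integrable (fun o => ac1 (nuC C v o)) C.μ := ac1_int i1 n0
  have iw : Integrable (fun o => q * θ o) C.μ := iθ.const_mul q
  have w1 : ∀ᵐ o ∂C.μ, q * θ o ≤ q := ae_of_all _ fun o => by
    have := mul_le_mul_of_nonneg_left (θ1 o) hq.le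
    linarith
  have w0 : ∀ᵐ o ∂C.μ, 0 ≤ q * θ o := ae_of_all _ fun o => mul_nonneg hq.le (θ0 o)
  have wm : ∫ o, q * θ o ∂C.μ ≤ q * a₁ := by rw [integral_const_mul, hθ]
  have hcert : FCore C (nuC C v) (fun o => ac1 (nuC C v o)) (fun o => q * θ o) (fun a => κ * a) q
      (q * a₁) X K a₁ D G :=
    fcore_unif C hN hκ hq le_rfl hφ hG hr le_rfl i1 n0 fX i2
      (ae_of_all _ fun o => ac1_nonneg (nuC_nonneg C v o)) (ae_of_all _ fun o => ac1_le _) iw w1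
  have key := far_field C hγ hR hv deg i1 (ae_of_all _ fun o => le_rfl) fX (LevO.of_isop hI) hI hε hN i2
    (ae_of_all _ fun o => ac1_nonneg (nuC_nonneg C v o)) (ae_of_all _ fun o => ac1_le _)
    (fun g _ s _ hs => vdp_ac C hv hB hBa hD i1 (ae_of_all _ fun o => le_rfl) g s hs) iw w0 wm hcert
    hη oη ht
  have e : ∫ o, min (umod η (C.pt o)) t ^ 2 * (q * θ o) ∂C.μ =
      q * ∫ o, min (umod η (C.pt o)) t ^ 2 * θ o ∂C.μ := by
    rw [← integral_const_mul]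
    refine integral_congr_ae (ae_of_all _ fun o => ?_)
    change min (umod η (C.pt o)) t ^ 2 * (q * θ o) = q * (min (umod η (C.pt o)) t ^ 2 * θ o)
    ring
  rw [e] at key
  linarith

/-! ### assembly -/

/-- the condition for one pair in terms of `Fq` -/
def GoodM (C : Calc M γ) (κ k Ee c δ ε σ : ℝ) (v : Fin 3 → M → ℝ) : Prop :=
  ∀ T : Fin 3 → M → ℝ, Pre γ T → TZ C 2 1 7 T → ∃ (p : ℝ) (q : Om → ℝ), 0 ≤ p ∧ p ≤ 2 ∧
    Integrable q C.μ ∧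
    (∀ᵐ o ∂C.μ, QLow (at' C v o) (dx C v o) (dy C v o) (dx C T o) (dy C T o) (q o)) ∧
    -δ ≤ ∫ o, Fq C p q v T (2 * Real.exp c ^ 2) o ∂C.μ ∧
    ∀ h : ℝ, 1 - Real.exp (-c) ≤ h →
      (∀ t, 0 ≤ t → t < σ * h → κ * (σ * h - t) ^ 2 / (4 * Lc Ee c ^ 2) + ε ≤
        supa C (umod (eta v T)) t) →
      p * k * (h - (1 - Real.exp (-c))) - δ ≤ ∫ o, Fq C p q v T (2 * Real.exp c ^ 2) o ∂C.μ

theorem GoodM.toK {C : Calc M γ} {G : ℝ → ℝ} {κ k Ee c₀ X εA cm c δ δ' ε σ : ℝ} {v : Fin 3 → M → ℝ}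
    (h : GoodM C κ k Ee c δ ε σ v) (hA : AdmK C (fun x => x) G Ee c₀ X εA cm c v) (hc : 0 < c)
    (hε : 64 * Real.exp cm ^ 2 * εA + δ ≤ δ') : GoodK C (fun _ => 1) κ k Ee c δ' ε σ v := by
  intro T hT hZ
  obtain ⟨p, q, hp0, hp2, hq, hQ, h1, h2⟩ := h T hT hZ
  have h3 := Fq_le C (p := p) hq hA hZ.lip
  have hq0 : 0 < 1 - Real.exp (-c) := by
    have : Real.exp (-c) < 1 := by
      rw [← Real.exp_zero]
      exact Real.exp_lt_exp.mpr (by linarith)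
    linarith
  simp only [one_mul]
  refine ⟨p, q, hp0, hp2, hq, hQ, by linarith, fun a h ha hh hs => ?_⟩
  have h4 := h2 h hh fun t ht ht' => side_level C ha (by linarith) hs ht ht'
  linarith

omit [CompactSpace M] in
/-- **from the modulus condition to `ClosingK`** -/
theorem closingK_of {κ Ee c₀ X σ : ℝ} {G G' : ℝ → ℝ} (hE : 0 ≤ Ee) (hc₀ : 0 < c₀)
    (h : ∀ δ : ℝ, 0 < δ → ∀ cm : ℝ, ∃ ε₂ : ℝ, 0 < ε₂ ∧ ∀ (M : Type) [MetricSpace M] [CompactSpace M]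
      [Nonempty M] (γ : ℝ → M) (C : Calc M γ) (ε : ℝ), 0 < ε → ε ≤ ε₂ → NearM C ε → C.vol < 2 * Real.pi →
      ∀ (c : ℝ) (v : Fin 3 → M → ℝ), PairM C G Ee c₀ X cm c v → GoodM C κ (G' c) Ee c δ ε σ v)
    {δ : ℝ} (hδ : 0 < δ) : ClosingK (fun x => x) (fun _ => 1) G G' κ Ee c₀ X σ δ := by
  set cm := c₀ + 64 * X / δ with hcm
  obtain ⟨ε₂, hε₂, h⟩ := h (δ / 16) (by positivity) cm
  have he := Real.exp_pos cm
  refine ⟨δ / (1024 * Real.exp cm ^ 2), ε₂, by positivity, hε₂, ?_⟩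
  intro M _ _ _ γ C ε hε0 hε hN hv c v hA
  have hP := hA.pairM hE
  refine (h M γ C ε hε0 hε hN hv c v hP).toK hA (hc₀.trans_le hA.hc) (le_of_eq ?_)
  have e : 64 * Real.exp cm ^ 2 * (δ / (1024 * Real.exp cm ^ 2)) = δ / 16 := by
    rw [mul_div_assoc', div_eq_div_iff (by positivity) (by norm_num)]
    ring
  rw [← hcm, e]
  ring

end Pool.Agent.FPX
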