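import Mathlib
import Pool.Agent.FPX.FINE
import Pool.Agent.FPX.FIND

/-
FINP (helper28): the end of the modulus closing for one pair (row FIN-S).
`CoreV`, `CoreK`: value functions of the core, without and with side charge; `core_low`: levels below
`1/4` (the members of the credit are only valid on `{1/4 ≤ u}`); `pair_main`: from the exterior
(`ext_main`), the core and the scalar conditions to the two inequalities of `GoodM`.
-/

open MeasureTheory Set Filter Topology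
open scoped ENNReal NNReal

noncomputable section

namespace Pool.Agent.FPX

open Pool.Agent.EWD Pool.Agent.FPM

variable {M : Type} [MetricSpace M] {γ : ℝ → M}

/-! ### scalar steps -/

/-- level `s ≥ 1/4`, no side charge -/
theorem fin_hi {Q X m mo s V b Mn A W F e e1 : ℝ} (hs : 1 / 4 ≤ s) (hX : m + mo ≤ X)
    (hM : -Mn ≤ Q * s ^ 2 - 4 * X * s) (hV : Mn - X - b ≤ V - m) (hA : V - 4 * s * m - e1 ≤ A)
    (hb : b ≤ W) (hF : A + W + (1 - 4 * s) * mo + Q * s ^ 2 - e ≤ F) : -(e + e1) ≤ F := by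
  have h1 : (4 * s - 1) * mo ≤ (4 * s - 1) * (X - m) :=
    mul_le_mul_of_nonneg_left (by linarith) (by linarith)
  linarith

/-- level `s ≥ 1/4`, side charge `k`, side level above -/
theorem fin_hiK {Q X m mo s V b Mn A W F e e1 k q τ T y : ℝ} (hs : 1 / 4 ≤ s) (hX : m + mo ≤ X)
    (hM : -Mn ≤ Q * s ^ 2 - (4 * X + 2 * k) * s)
    (hV : Mn - X - (b + 2 * k * (q - τ)) ≤ V - m) (hk : 0 ≤ k) (hy : y ≤ T + τ)
    (hA : V - 4 * s * m + 2 * k * (T - s) - e1 ≤ A)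
    (hb : b ≤ W) (hF : A + W + (1 - 4 * s) * mo + Q * s ^ 2 - e ≤ F) :
    2 * k * (y - q) - (e + e1) ≤ F := by
  have h1 : (4 * s - 1) * mo ≤ (4 * s - 1) * (X - m) :=
    mul_le_mul_of_nonneg_left (by linarith) (by linarith)
  have h2 : 2 * k * (y - q) ≤ 2 * k * (T + τ - q) :=
    mul_le_mul_of_nonneg_left (by linarith) (by linarith)
  linarith

/-- level `s ≥ 1/4`, side charge `k`, side level below -/
theorem fin_hiT {Q X m mo s V VK b Mn A W F e e1 k q τ T y : ℝ} (hs : 1 / 4 ≤ s) (hX : m + mo ≤ X)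
    (hM : -Mn ≤ Q * s ^ 2 - (4 * X + 2 * k) * s)
    (hV : Mn - X - (b + 2 * k * (q - τ)) ≤ VK - m) (hVK : VK ≤ V) (hk : 0 ≤ k) (hy : y ≤ T + τ)
    (hT : T ≤ s) (hA : V - 4 * s * m - e1 ≤ A)
    (hb : b ≤ W) (hF : A + W + (1 - 4 * s) * mo + Q * s ^ 2 - e ≤ F) :
    2 * k * (y - q) - (e + e1) ≤ F := by
  have h1 : (4 * s - 1) * mo ≤ (4 * s - 1) * (X - m) :=
    mul_le_mul_of_nonneg_left (by linarith) (by linarith)
  have h2 : 2 * k * (y - q) ≤ 2 * k * (s + τ - q) :=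
    mul_le_mul_of_nonneg_left (by linarith) (by linarith)
  linarith

/-- level `s < 1/4`: `A` is the core above `1/4`, `L` the logarithm of the areas -/
theorem fin_lo {Q m mo s Va V b A A' W F e e1 l β κ L : ℝ} (hQ : 0 < Q) (hs : s ≤ 1 / 4)
    (hmo : 0 ≤ mo) (hκ : 0 < κ) (hL : 0 ≤ L) (hl : 0 ≤ l)
    (hlm : l ≤ 2 * β * m) (hV : V + 4 * β ^ 2 * m ^ 2 / κ * L ≤ Va)
    (hc : m + l ^ 2 / Q - l / 2 ≤ V + b)
    (hA : Va - m - e1 ≤ A) (hA' : 2 * l * (1 / 4 - s) - l ^ 2 / κ * L + A ≤ A')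
    (hb : b ≤ W) (hF : A' + W + (1 - 4 * s) * mo + Q * s ^ 2 - e ≤ F) : -(e + e1) ≤ F := by
  have h1 : 0 ≤ (1 - 4 * s) * mo := mul_nonneg (by linarith) hmo
  have h2 : l ^ 2 ≤ 4 * β ^ 2 * m ^ 2 := by
    calc l ^ 2 ≤ (2 * β * m) ^ 2 := pow_le_pow_left₀ hl hlm 2
      _ = 4 * β ^ 2 * m ^ 2 := by ring
  have h3 : l ^ 2 / κ * L ≤ 4 * β ^ 2 * m ^ 2 / κ * L :=
    mul_le_mul_of_nonneg_right (div_le_div_of_nonneg_right h2 hκ.le) hL
  have h4 : 0 ≤ Q * s ^ 2 - 2 * l * s + l ^ 2 / Q := by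
    have e : Q * s ^ 2 - 2 * l * s + l ^ 2 / Q = (Q * s - l) ^ 2 / Q := by
      field_simp
      ring
    rw [e]
    positivity
  linarith

theorem fin_loK {Q m mo s Va V b A A' W F e e1 l β κ L k q τ T y : ℝ} (hQ : 0 < Q) (hs : s ≤ 1 / 4)
    (hmo : 0 ≤ mo) (hκ : 0 < κ) (hL : 0 ≤ L) (hl : 0 ≤ l)
    (hlm : l ≤ 2 * β * m) (hV : V + 4 * β ^ 2 * m ^ 2 / κ * L ≤ Va)
    (hc : m + l ^ 2 / Q - l / 2 ≤ V + b + 2 * k * (q - τ - 1 / 4)) (hk : 0 ≤ k) (hy : y ≤ T + τ)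
    (hA : Va - m + 2 * k * (T - 1 / 4) - e1 ≤ A)
    (hA' : 2 * l * (1 / 4 - s) - l ^ 2 / κ * L + A ≤ A')
    (hb : b ≤ W) (hF : A' + W + (1 - 4 * s) * mo + Q * s ^ 2 - e ≤ F) :
    2 * k * (y - q) - (e + e1) ≤ F := by
  have h1 : 2 * k * (y - q) ≤ 2 * k * (T + τ - q) :=
    mul_le_mul_of_nonneg_left (by linarith) (by linarith)
  have h2 := fin_lo (Va := Va) (V := V) (b := b + 2 * k * (q - τ - 1 / 4)) (A := A - 2 * k * (T - 1 / 4))
    (A' := A' - 2 * k * (T - 1 / 4)) (W := W + 2 * k * (q - τ - 1 / 4)) (F := F - 2 * k * (T + τ - q))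
    (e := e) (e1 := e1) hQ hs hmo hκ hL hl hlm hV (by linarith) (by linarith) (by linarith)
    (by linarith) (by linarith)
  linarith

/-! ### the core -/

/-- **the value of the core** for the levels `s ≥ ρ` and the modulus `H ≤ h s` -/
def CoreV (C : Calc M γ) (η : Fin 3 → M → ℝ) (F W ν : Om → ℝ) (R s0 s1 h ab : ℝ)
    (V : ℝ → ℝ → ℝ) (e : ℝ) : Prop :=
  ∀ H s : ℝ, s0 ≤ s → s ≤ s1 → s ≤ R → 0 ≤ H → H ≤ s → H ≤ h * s → supa C (umod η) s ≤ ab →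
    V (supa C (umod η) s) (supw C (umod η) ν s) - 4 * s * supw C (umod η) ν s - e ≤
      ∫ o in {o | s < |umod η (C.pt o)|}, coreF C η F W H o ∂C.μ

/-- the same with the side charge `k` up to the level `T`, where the area is at least `bb` -/
def CoreK (C : Calc M γ) (η : Fin 3 → M → ℝ) (F W ν : Om → ℝ) (R s0 s1 h ab bb k : ℝ)
    (V : ℝ → ℝ → ℝ) (e : ℝ) : Prop :=
  ∀ H s T : ℝ, s0 ≤ s → s ≤ s1 → s ≤ T → T ≤ R → 0 ≤ H → H ≤ s → H ≤ h * s →
    supa C (umod η) s ≤ ab → bb ≤ supa C (umod η) T →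
    V (supa C (umod η) s) (supw C (umod η) ν s) - 4 * s * supw C (umod η) ν s +
      2 * k * (T - s) - e ≤ ∫ o in {o | s < |umod η (C.pt o)|}, coreF C η F W H o ∂C.μ

/-- the values for larger area are smaller -/
def VSlope (V : ℝ → ℝ → ℝ) (al ab β κ N X : ℝ) : Prop :=
  ∀ a m : ℝ, al ≤ a → a ≤ ab → 0 ≤ m → m ≤ N * a → m ≤ X →
    V ab m + 4 * β ^ 2 * m ^ 2 / κ * Real.log (ab / a) ≤ V a m

theorem log_quot_nonneg {a ab : ℝ} (h0 : 0 ≤ a) (h : a ≤ ab) : 0 ≤ Real.log (ab / a) := by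
  rcases h0.eq_or_lt with h1 | h1
  · rw [← h1, div_zero, Real.log_zero]
  · exact Real.log_nonneg ((one_le_div h1).2 h)

theorem VSlope.le {V : ℝ → ℝ → ℝ} {al ab β κ N X : ℝ} (h : VSlope V al ab β κ N X) (hκ : 0 < κ)
    (h0 : 0 ≤ al) {a m : ℝ} (h1 : al ≤ a) (h2 : a ≤ ab) (h3 : 0 ≤ m) (h4 : m ≤ N * a) (h5 : m ≤ X) :
    V ab m ≤ V a m := by
  have h6 := h a m h1 h2 h3 h4 h5
  have h7 := log_quot_nonneg (h0.trans h1) h2
  have h8 : 0 ≤ 4 * β ^ 2 * m ^ 2 / κ * Real.log (ab / a) := by positivity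
  linarith

variable [CompactSpace M]

/-- levels below `1/4`: the base member between the levels `s` and `1/4` -/
theorem core_low0 (C : Calc M γ) {η : Fin 3 → M → ℝ} (hη : ∀ i, Lip (η i))
    {F ν W : Om → ℝ} (iF : Integrable F C.μ) (ν0 : ∀ᵐ o ∂C.μ, 0 ≤ ν o) (iW : Integrable W C.μ)
    (hout : ∀ᵐ o ∂C.μ, Gη C η o + W o + (1 - 2 * 2 * umod η (C.pt o)) * ν o ≤ F o)
    {s H : ℝ} (hH : 0 ≤ H) (hHs : H ≤ s) (hs : s ≤ 1 / 4) :
    ∫ o in {o | s < |umod η (C.pt o)| ∧ |umod η (C.pt o)| ≤ 1 / 4}, gn C (umod η) o ^ 2 ∂C.μ +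
      ∫ o in {o | 1 / 4 < |umod η (C.pt o)|}, coreF C η F W H o ∂C.μ ≤
      ∫ o in {o | s < |umod η (C.pt o)|}, coreF C η F W H o ∂C.μ := by
  have := C.fin
  have hu := lip_umod hη
  have u0 := fun o => umod_nonneg η (C.pt o)
  have ua : ∀ o, |umod η (C.pt o)| = umod η (C.pt o) := fun o => abs_of_nonneg (u0 o)
  have s0 : 0 ≤ s := hH.trans hHs
  have ms := meas_abs_lt C hu s
  have mq := meas_abs_lt C hu (1 / 4)
  have ig := int_gn_sq C hu
  have iC := coreF_int C hη iF iW hH hHs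
  set f : Om → ℝ := {o | s < |umod η (C.pt o)|}.indicator (coreF C η F W H) with hf
  have i1 : Integrable f C.μ := iC.integrable_indicator₀ ms
  have e1 : ∫ o in {o | s < |umod η (C.pt o)|}, coreF C η F W H o ∂C.μ =
      ∫ o in {o | s < |umod η (C.pt o)|}, f o ∂C.μ :=
    setIntegral_congr_ae₀ ms (ae_of_all _ fun o ho => by rw [hf, indicator_of_mem ho])
  have e2 : ∫ o in {o | 1 / 4 < |umod η (C.pt o)|}, coreF C η F W H o ∂C.μ =
      ∫ o in {o | 1 / 4 < |umod η (C.pt o)|}, f o ∂C.μ :=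
    setIntegral_congr_ae₀ mq (ae_of_all _ fun o ho => by
      have h1 : o ∈ {o | s < |umod η (C.pt o)|} := hs.trans_lt ho
      rw [hf, indicator_of_mem h1])
  rw [e1, e2, level_split C hu i1 hs]
  refine add_le_add ?_ le_rfl
  refine setIntegral_mono_ae_restrict ig.integrableOn i1.integrableOn ?_
  have m4 : NullMeasurableSet {o | s < |umod η (C.pt o)| ∧ |umod η (C.pt o)| ≤ 1 / 4} C.μ := by
    have : {o : Om | s < |umod η (C.pt o)| ∧ |umod η (C.pt o)| ≤ 1 / 4} =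
        {o | s < |umod η (C.pt o)|} \ {o | 1 / 4 < |umod η (C.pt o)|} := by
      ext o
      exact ⟨fun h => ⟨h.1, fun h' => absurd h.2 (not_le.2 h')⟩, fun h => ⟨h.1, not_lt.1 h.2⟩⟩
    rw [this]
    exact ms.diff mq
  filter_upwards [ae_restrict_of_ae hout, ae_restrict_of_ae (kato C hη), ae_restrict_of_ae ν0,
    ae_restrict_mem₀ m4] with o h1 h2 h3 h5
  have h6 : o ∈ {o | s < |umod η (C.pt o)|} := h5.1
  have h7 : s < umod η (C.pt o) := by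
    have := h5.1
    rwa [ua] at this
  have h8 : umod η (C.pt o) ≤ 1 / 4 := by
    have := h5.2
    rwa [ua] at this
  rw [hf, indicator_of_mem h6]
  unfold coreF
  have h9 : 0 < umod η (C.pt o) := s0.trans_lt h7
  have h10 : (H / umod η (C.pt o)) ^ 2 ≤ 1 := by
    refine pow_le_one₀ (div_nonneg hH h9.le) ?_
    rw [div_le_one h9]
    linarith
  have h11 : (H / umod η (C.pt o)) ^ 2 * (Gη C η o - gn C (umod η) o ^ 2) ≤
      1 * (Gη C η o - gn C (umod η) o ^ 2) := mul_le_mul_of_nonneg_right h10 (by linarith)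
  have h12 : 0 ≤ (1 - 2 * 2 * umod η (C.pt o)) * ν o := mul_nonneg (by linarith) h3
  linarith

/-- the same with the energy of the band -/
theorem core_low (C : Calc M γ) {v : Fin 3 → M → ℝ} (hv : Sph γ v)
    {η : Fin 3 → M → ℝ} (hη : ∀ i, Lip (η i)) (oη : ∀ i, FPM.OddB γ (η i)) {R : ℝ}
    (hR : ∀ x, umod η x ≤ R) {κ κ' a₀ a₁ ab ε : ℝ} (hI : IsopE C κ a₁ ε) (hκ0 : 0 < κ')
    (ha0 : 0 < a₀) (hκ : ∀ x, a₀ ≤ x → κ' * x ≤ κ * (x - ε)) (hab : ab ≤ a₁)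
    {F ν W : Om → ℝ} (iF : Integrable F C.μ) (ν0 : ∀ᵐ o ∂C.μ, 0 ≤ ν o) (iW : Integrable W C.μ)
    (hout : ∀ᵐ o ∂C.μ, Gη C η o + W o + (1 - 2 * 2 * umod η (C.pt o)) * ν o ≤ F o)
    {s H l : ℝ} (hH : 0 ≤ H) (hHs : H ≤ s) (hs : s ≤ 1 / 4) (hsa : supa C (umod η) s ≤ ab)
    (hq : a₀ ≤ supa C (umod η) (1 / 4)) (hl : 0 ≤ l) :
    2 * l * (1 / 4 - s) - l ^ 2 / κ' * Real.log (ab / supa C (umod η) (1 / 4)) +
      ∫ o in {o | 1 / 4 < |umod η (C.pt o)|}, coreF C η F W H o ∂C.μ ≤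
      ∫ o in {o | s < |umod η (C.pt o)|}, coreF C η F W H o ∂C.μ := by
  have hu := lip_umod hη
  have eu := even_umod oη
  have u0 := fun o => umod_nonneg η (C.pt o)
  have ua : ∀ o, |umod η (C.pt o)| = umod η (C.pt o) := fun o => abs_of_nonneg (u0 o)
  have gR : ∀ᵐ o ∂C.μ, |umod η (C.pt o)| ≤ R := ae_of_all _ fun o => by rw [ua]; exact hR _
  have key := core_low0 C hη iF ν0 iW hout hH hHs hs
  have hband := band_sq' (K := 1) (l := l) (c := 0) C hv hu eu hI (fun x hx => hκ x (hq.trans hx))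
    (ha0.trans_le hq) hab hκ0 one_pos le_rfl (by rw [zero_mul]; exact hl) gR (hH.trans hHs) hs hsa
    le_rfl
  have e3 : Psb l 0 1 κ' ab - Psb l 0 1 κ' (supa C (umod η) (1 / 4)) =
      l ^ 2 / κ' * Real.log (ab / supa C (umod η) (1 / 4)) := by
    have h1 : 0 < supa C (umod η) (1 / 4) := ha0.trans_le hq
    have h2 : 0 < ab := h1.trans_le ((supa_anti C _ hs).trans hsa)
    rw [Real.log_div h2.ne' h1.ne']
    unfold Psb
    ring
  rw [e3] at hband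
  linarith

/-! ### one pair -/

/-- a piece: range of `H / s`, range of levels, value functions without and with side charge -/
structure MPc where
  h0 : ℝ
  h1 : ℝ
  s0 : ℝ
  s1 : ℝ
  V : ℝ → ℝ → ℝ
  VK : ℝ → ℝ → ℝ

/-- **the scalar conditions** for the exterior form `Q` and the spare `b`: `X` = budget of the charge,
`k` = side charge, `q` = `σ (1 - e⁻ᶜ)`, `τ` = distance of the side level, `ab` = area of the core -/
structure ScalI (X k q τ ab β Q b : ℝ) (P : ℝ → Prop) (d : MPc) : Prop where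
  Q0 : 0 < Q
  hi : ∃ Mn : ℝ, (∀ s, d.s0 ≤ s → s ≤ d.s1 → -Mn ≤ Q * s ^ 2 - 4 * X * s) ∧
    ∀ m, 0 ≤ m → m ≤ X → P m → Mn - X - b ≤ d.V ab m - m
  hiK : ∃ Mn : ℝ, (∀ s, d.s0 ≤ s → s ≤ d.s1 → -Mn ≤ Q * s ^ 2 - (4 * X + 2 * k) * s) ∧
    ∀ m, 0 ≤ m → m ≤ X → P m → Mn - X - (b + 2 * k * (q - τ)) ≤ d.VK ab m - m
  lo : d.s0 ≤ 1 / 4 → ∀ m, 0 ≤ m → m ≤ X →
    ∃ l, 0 ≤ l ∧ l ≤ 2 * β * m ∧ m + l ^ 2 / Q - l / 2 ≤ d.V ab m + b
  loK : d.s0 ≤ 1 / 4 → ∀ m, 0 ≤ m → m ≤ X →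
    ∃ l, 0 ≤ l ∧ l ≤ 2 * β * m ∧ m + l ^ 2 / Q - l / 2 ≤ d.VK ab m + b + 2 * k * (q - τ - 1 / 4)

/-- **the far part** as the closing needs it: the entry `j` may depend on the level `s` of the core, the
field and the weight -/
def FarJ (C : Calc M γ) {J : Type} (u : M → ℝ) (R a0 an wt e : ℝ) (ν : Om → ℝ) (q b : J → ℝ)
    (P : J → ℝ → Prop) : Prop :=
  ∀ s : ℝ, 0 ≤ s → s ≤ R → supa C u s ≤ an → ∀ ξ : Fin 3 → M → ℝ, (∀ i, Lip (ξ i)) →
    (∀ i, FPM.OddB γ (ξ i)) → (∀ i x, |ξ i x| ≤ R) → ∀ θ : Om → ℝ, Integrable θ C.μ →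
    (∀ o, 0 ≤ θ o) → (∀ o, θ o ≤ 1) → (∀ o, s < u (C.pt o) → θ o = 1) → ∫ o, θ o ∂C.μ ≤ a0 →
    ∃ j, b j ≤ wt ∧ P j (supw C u ν s) ∧
      q j * ∫ o, umod ξ (C.pt o) ^ 2 * θ o ∂C.μ ≤ ∫ o, Gη C ξ o ∂C.μ + e

/-- **one pair**: from the far part, the values of the core and the scalar conditions to the total -/
theorem pair_main (C : Calc M γ) {v : Fin 3 → M → ℝ} (hv : Sph γ v)
    {η : Fin 3 → M → ℝ} (hη : ∀ i, Lip (η i)) (oη : ∀ i, FPM.OddB γ (η i)) {R : ℝ} (hR4 : 1 / 4 ≤ R)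
    (hR : ∀ x, umod η x ≤ R) {κ κ' a₀ a₁ ε : ℝ} (hI : IsopE C κ a₁ ε) (hκ0 : 0 < κ') {n : ℕ}
    {a w : ℕ → ℝ} (a0 : ∀ k, 0 < a k) (ha1 : a 0 ≤ a₁) (ad : ∀ k, k < n → a (k + 1) < a k)
    (ha0 : 0 < a₀) (ha0n : a₀ ≤ a n) (hκ : ∀ x, a₀ ≤ x → κ' * x ≤ κ * (x - ε)) (w0 : ∀ j, 0 ≤ w j)
    (hw : ∑ j ∈ Finset.range (n + 1), w j = 1) (hw0 : 0 < w 0)
    {F ν W : Om → ℝ} (iF : Integrable F C.μ) (iν : Integrable ν C.μ) (ν0 : ∀ᵐ o ∂C.μ, 0 ≤ ν o)
    {N X : ℝ} (hN : 0 ≤ N) (νN : ∀ᵐ o ∂C.μ, ν o ≤ N) (νX : ∫ o, ν o ∂C.μ ≤ X)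
    (iW : Integrable W C.μ)
    (hout : ∀ᵐ o ∂C.μ, Gη C η o + W o + (1 - 2 * 2 * umod η (C.pt o)) * ν o ≤ F o)
    {J I : Type} {q b : J → ℝ} {P : J → ℝ → Prop} {d : I → MPc} {Qf : J → I → ℝ} {e e1 : ℝ}
    (hq : ∀ j, 0 < q j)
    (hfar : FarJ C (umod η) R (a 0) (a n) (∫ o, W o ∂C.μ) e ν q b P)
    (hd : ∀ i, 0 ≤ (d i).h1 ∧ 1 / 4 ≤ (d i).s0)
    (hcov : ∀ s H : ℝ, 0 ≤ H → H ≤ s → s ≤ R → ∃ i, (d i).h0 * s ≤ H ∧ H ≤ (d i).h1 * s ∧
      (d i).s0 ≤ max s (1 / 4) ∧ max s (1 / 4) ≤ (d i).s1)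
    (hext : ∀ j i, ExtC a w n (q j) κ' (d i).h0 (d i).h1 (Qf j i))
    {ab : ℝ} (hab : a n ≤ ab)
    (core : ∀ i, CoreV C η F W ν R (d i).s0 (d i).s1 (d i).h1 (a n) (d i).V e1)
    {β k qs τ bb : ℝ} (hβ : β ≤ 1)
    (slope : ∀ i, VSlope (d i).V 0 ab β κ' N X)
    (scal : ∀ j i, ScalI X k qs τ ab β (Qf j i) (b j) (P j) (d i))
    (hk : 0 ≤ k) (hqs : τ + 1 / 4 ≤ qs) (hbb : a₀ ≤ bb)
    (coreK : ∀ i, CoreK C η F W ν R (d i).s0 (d i).s1 (d i).h1 (a n) bb k (d i).VK e1)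
    (slopeK : ∀ i, VSlope (d i).VK bb ab β κ' N X)
    (hVK : ∀ i m, 0 ≤ m → m ≤ X → (d i).VK ab m ≤ (d i).V ab m) :
    -(e + e1 + N * a₀) ≤ ∫ o, F o ∂C.μ ∧
      ∀ T y : ℝ, T ≤ R → bb ≤ supa C (umod η) T → y ≤ T + τ → qs ≤ y →
        2 * k * (y - qs) - (e + e1) ≤ ∫ o, F o ∂C.μ := by
  have := C.fin
  have hu := lip_umod hη
  have hR0 : 0 ≤ R := by linarith
  have u0 := fun o => umod_nonneg η (C.pt o)
  have ua : ∀ o, |umod η (C.pt o)| = umod η (C.pt o) := fun o => abs_of_nonneg (u0 o)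
  have ν0' : ∀ s, 0 ≤ supw C (umod η) ν s := fun s =>
    setIntegral_nonneg_of_ae_restrict (ae_restrict_of_ae ν0)
  have νle : ∀ s, supw C (umod η) ν s ≤ ∫ o, ν o ∂C.μ := fun s =>
    setIntegral_le_integral iν ν0
  have νNa : ∀ s, supw C (umod η) ν s ≤ N * supa C (umod η) s := fun s => by
    have h2 : ∫ o in {o | s < |umod η (C.pt o)|}, ν o ∂C.μ ≤
        ∫ _ in {o | s < |umod η (C.pt o)|}, N ∂C.μ :=
      setIntegral_mono_ae iν.integrableOn (integrable_const _).integrableOn νN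
    rw [setIntegral_const, smul_eq_mul] at h2
    have h3 : supa C (umod η) s = C.μ.real {o | s < |umod η (C.pt o)|} := rfl
    have h4 : supw C (umod η) ν s = ∫ o in {o | s < |umod η (C.pt o)|}, ν o ∂C.μ := rfl
    rw [h3, h4]
    linarith
  have sa0 : ∀ s, 0 ≤ supa C (umod η) s := fun s => ENNReal.toReal_nonneg
  obtain ⟨s, H, θ, ξ, H0, Hs, sR, hsa, -, iθ, θ0, θ1, hθ1, hθa, lξ, oξ, bξ, key⟩ :=
    ext_main C hv hη oη hR0 hR hI hκ0 a0 ha1 ad (fun x hx => hκ x (ha0n.trans hx)) w0 hw hw0 iF iν ν0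
      iW (p := 2) (c₀ := 1) zero_le_two hout
  obtain ⟨j, hbj, hPj, hfj⟩ := hfar s (H0.trans Hs) sR hsa ξ lξ oξ bξ θ iθ θ0 θ1 hθ1 hθa
  obtain ⟨i, c1, c2, c3, c4⟩ := hcov s H H0 Hs sR
  have hF := key (q j) e (d i).h0 (d i).h1 (Qf j i) (hq j) hfj (hext j i) c1 c2
  have e0 : (1 - 2 * 2 * s : ℝ) = 1 - 4 * s := by ring
  rw [e0] at hF
  have S := scal j i
  have hmo : 0 ≤ ∫ o, ν o ∂C.μ - supw C (umod η) ν s := by linarith [νle s]
  rcases le_or_gt (1 / 4) s with h4 | h4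
  · -- levels above `1/4`
    rw [max_eq_left h4] at c3 c4
    have mX : supw C (umod η) ν s ≤ X := (νle s).trans νX
    have hVm := (slope i).le hκ0 le_rfl (sa0 s) (hsa.trans hab) (ν0' s) (νNa s) mX
    have hcv := core i H s c3 c4 sR H0 Hs c2 hsa
    obtain ⟨Mn, hM, hV⟩ := S.hi
    obtain ⟨Mk, hMk, hVk⟩ := S.hiK
    have hsum : supw C (umod η) ν s + (∫ o, ν o ∂C.μ - supw C (umod η) ν s) ≤ X := by linarith
    refine ⟨?_, fun T y hTR hT hy hqy => ?_⟩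
    · have h5 := fin_hi h4 hsum (hM s c3 c4) (hV _ (ν0' s) mX hPj)
        (show (d i).V ab (supw C (umod η) ν s) - 4 * s * supw C (umod η) ν s - e1 ≤ _ by linarith)
        hbj hF
      have : 0 ≤ N * a₀ := by positivity
      linarith
    · rcases le_or_gt s T with hsT | hsT
      · have hbs : bb ≤ supa C (umod η) s := hT.trans (supa_anti C _ hsT)
        have hVKm := (slopeK i).le hκ0 (ha0.le.trans hbb) hbs (hsa.trans hab) (ν0' s) (νNa s) mX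
        have hck := coreK i H s T c3 c4 hsT hTR H0 Hs c2 hsa hT
        exact fin_hiK h4 hsum (hMk s c3 c4) (hVk _ (ν0' s) mX hPj) hk hy
          (show (d i).VK ab (supw C (umod η) ν s) - 4 * s * supw C (umod η) ν s +
            2 * k * (T - s) - e1 ≤ _ by linarith) hbj hF
      · exact fin_hiT h4 hsum (hMk s c3 c4) (hVk _ (ν0' s) mX hPj) (hVK i _ (ν0' s) mX) hk hy hsT.le
          (show (d i).V ab (supw C (umod η) ν s) - 4 * s * supw C (umod η) ν s - e1 ≤ _ by linarith)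
          hbj hF
  · -- levels below `1/4`
    rw [max_eq_right h4.le] at c3 c4
    have hH4 : H ≤ 1 / 4 := Hs.trans h4.le
    have c2' : H ≤ (d i).h1 * (1 / 4) :=
      c2.trans (mul_le_mul_of_nonneg_left h4.le (hd i).1)
    have hsa4 : supa C (umod η) (1 / 4) ≤ a n := (supa_anti C _ h4.le).trans hsa
    have m0 := ν0' (1 / 4)
    have mX : supw C (umod η) ν (1 / 4) ≤ X := (νle _).trans νX
    have hcv := core i H (1 / 4) c3 c4 hR4 H0 hH4 c2' hsa4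
    have hcv' : (d i).V (supa C (umod η) (1 / 4)) (supw C (umod η) ν (1 / 4)) -
        supw C (umod η) ν (1 / 4) - e1 ≤
        ∫ o in {o | 1 / 4 < |umod η (C.pt o)|}, coreF C η F W H o ∂C.μ := by linarith
    have hsl := slope i _ _ (sa0 (1 / 4)) (hsa4.trans hab) m0 (νNa (1 / 4)) mX
    have hlg : Real.log (a n / supa C (umod η) (1 / 4)) ≤ Real.log (ab / supa C (umod η) (1 / 4)) := by
      rcases (sa0 (1 / 4)).eq_or_lt with h5 | h5
      · rw [← h5, div_zero, div_zero]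
      · exact Real.log_le_log (div_pos (a0 n) h5) (div_le_div_of_nonneg_right hab h5.le)
    have hlg' := mul_le_mul_of_nonneg_left hlg
      (show 0 ≤ 4 * β ^ 2 * supw C (umod η) ν (1 / 4) ^ 2 / κ' by positivity)
    refine ⟨?_, fun T y hTR hT hy hqy => ?_⟩
    · obtain ⟨l, l0, l1, l2⟩ := S.lo c3 _ m0 mX
      rcases le_or_gt a₀ (supa C (umod η) (1 / 4)) with hsm | hsm
      · have hlow := core_low C hv hη oη hR hI hκ0 ha0 hκ
          (show a n ≤ a₁ from by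
            have : ∀ m, m ≤ n → a m ≤ a 0 := by
              intro m
              induction m with
              | zero => intro _; exact le_rfl
              | succ m ih => intro hm; exact (ad m (by omega)).le.trans (ih (by omega))
            exact (this n le_rfl).trans ha1) iF ν0 iW hout H0 Hs h4.le hsa hsm l0
        have h5 := fin_lo S.Q0 h4.le hmo hκ0 (log_quot_nonneg (sa0 _) hsa4) l0 l1
          (show (d i).V ab (supw C (umod η) ν (1 / 4)) + 4 * β ^ 2 * supw C (umod η) ν (1 / 4) ^ 2 / κ' *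
            Real.log (a n / supa C (umod η) (1 / 4)) ≤ _ by linarith) l2 hcv' hlow hbj hF
        have : 0 ≤ N * a₀ := by positivity
        linarith
      · have hlow := core_low0 C hη iF ν0 iW hout H0 Hs h4.le
        have hg : 0 ≤ ∫ o in {o | s < |umod η (C.pt o)| ∧ |umod η (C.pt o)| ≤ 1 / 4},
            gn C (umod η) o ^ 2 ∂C.μ := integral_nonneg fun o => sq_nonneg _
        have hVm := (slope i).le hκ0 le_rfl (sa0 (1 / 4)) (hsa4.trans hab) m0 (νNa (1 / 4)) mX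
        have h6 : supw C (umod η) ν (1 / 4) ≤ N * a₀ :=
          (νNa _).trans (mul_le_mul_of_nonneg_left hsm.le hN)
        have h7 : 0 ≤ l ^ 2 / Qf j i := div_nonneg (sq_nonneg _) S.Q0.le
        have h8 : β * supw C (umod η) ν (1 / 4) ≤ 1 * (N * a₀) := mul_le_mul hβ h6 m0 zero_le_one
        have h9 : 0 ≤ Qf j i * s ^ 2 := mul_nonneg S.Q0.le (sq_nonneg s)
        have h10 : 0 ≤ (1 - 4 * s) * (∫ o, ν o ∂C.μ - supw C (umod η) ν s) :=
          mul_nonneg (by linarith) hmo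
        linarith
    · have hT4 : 1 / 4 ≤ T := by linarith
      have hb4 : bb ≤ supa C (umod η) (1 / 4) := hT.trans (supa_anti C _ hT4)
      obtain ⟨l, l0, l1, l2⟩ := S.loK c3 _ m0 mX
      have hlow := core_low C hv hη oη hR hI hκ0 ha0 hκ
        (show a n ≤ a₁ from by
          have : ∀ m, m ≤ n → a m ≤ a 0 := by
            intro m
            induction m with
            | zero => intro _; exact le_rfl
            | succ m ih => intro hm; exact (ad m (by omega)).le.trans (ih (by omega))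
          exact (this n le_rfl).trans ha1) iF ν0 iW hout H0 Hs h4.le hsa (hbb.trans hb4) l0
      have hck := coreK i H (1 / 4) T c3 c4 hT4 hTR H0 hH4 c2' hsa4 hT
      have hck' : (d i).VK (supa C (umod η) (1 / 4)) (supw C (umod η) ν (1 / 4)) -
          supw C (umod η) ν (1 / 4) + 2 * k * (T - 1 / 4) - e1 ≤
          ∫ o in {o | 1 / 4 < |umod η (C.pt o)|}, coreF C η F W H o ∂C.μ := by linarith
      have hslK := slopeK i _ _ hb4 (hsa4.trans hab) m0 (νNa (1 / 4)) mX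
      exact fin_loK S.Q0 h4.le hmo hκ0 (log_quot_nonneg (sa0 _) hsa4) l0 l1
        (show (d i).VK ab (supw C (umod η) ν (1 / 4)) + 4 * β ^ 2 * supw C (umod η) ν (1 / 4) ^ 2 / κ' *
          Real.log (a n / supa C (umod η) (1 / 4)) ≤ _ by linarith) l2 hk hy hck' hlow hbj hF

end Pool.Agent.FPX
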