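import Mathlib
import Pool.Agent.FPX.SWS
import Pool.Agent.FPX.MCW
import Pool.Agent.FPX.FINP

/-
CRV (helper89): the pointwise side of the core of the modulus closing, from a certificate with reserve
(`MCR`, SWS). `TabC T Ψ`: the members of the table `T` (MCW) are below the credit `Ψ`; `tcOk`: Boolean for a
list of members. `coreT`: the integrand with the constant reserve `θ ≥ (H / u)²`; `coreT_le`: comparison with
`coreF`; `core_pt`: the pointwise inequality needed by `Tab.Par.core`.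
-/

open MeasureTheory Set Filter Topology
open scoped ENNReal NNReal

noncomputable section

namespace Pool.Agent.FPX

open Pool.Agent.EWD Pool.Agent.FPM

/-- a larger certificate -/
theorem MCR.of_le {Q Q' : E3 → E3 → E3 → E3 → E3 → ℝ} {ρ₀ θ : ℝ} {Ψ : ℝ → ℝ → ℝ → ℝ} (H : MCR Q ρ₀ θ Ψ)
    (hQ : ∀ v a b A B, Q v a b A B ≤ Q' v a b A B) : MCR Q' ρ₀ θ Ψ where
  rad := fun v a b A B T u h y z hv ha hb hAB hu hT hh hz => by
    have h1 := H.rad v a b A B T u h y z hv ha hb hAB hu hT hh hz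
    have h2 := hQ v a b A B
    linarith

/-! ### the members of a table -/

/-- the members of the table are below the credit `Ψ`; `0 ≤ B` -/
structure TabC (T : MCW.Tab) (Ψ : ℝ → ℝ → ℝ → ℝ) : Prop where
  B0 : ∀ e ∈ T.L, 0 ≤ (e.2.1 : ℝ) / T.S
  ln : ∀ e ∈ T.L, ∀ y p q : ℝ, 0 ≤ p → 0 ≤ q →
    -((e.1 : ℝ) / T.S) + (e.2.1 : ℝ) / T.S * (2 * q ^ 2) - (e.2.2 : ℝ) / T.S * y ^ 2 ≤ Ψ y p q

/-- the members of the table are members of the list (or the base member) -/
def tcOk (T : MCW.Tab) (Λ : List MQ) : Bool :=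
  decide (0 < T.S) && T.L.all fun e => decide (0 ≤ e.2.1) &&
    ((decide (0 ≤ e.1) && (decide (e.2.1 ≤ T.S) && decide (T.S ≤ e.2.2))) ||
      Λ.any fun t => decide (0 ≤ t.c) && (decide (t.b ≤ e.2.2 / T.S) &&
        (decide (-(e.1 / T.S) ≤ t.A) && decide (e.2.1 / T.S ≤ t.B))))

theorem tcOk_sound {T : MCW.Tab} {Λ : List MQ} (h : tcOk T Λ = true) (av : List WA) :
    TabC T (PST (Λ.map (MQ.mt av))) := by
  unfold tcOk at h
  rw [Bool.and_eq_true, decide_eq_true_eq, List.all_eq_true] at h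
  obtain ⟨hS, h⟩ := h
  have hS' : (0 : ℝ) < T.S := by exact_mod_cast hS
  refine ⟨fun e he => ?_, fun e he y p q hp hq => ?_⟩
  · have := h e he
    rw [Bool.and_eq_true, decide_eq_true_eq] at this
    have h1 : (0 : ℝ) ≤ e.2.1 := by exact_mod_cast this.1
    positivity
  · have := h e he
    rw [Bool.and_eq_true, Bool.or_eq_true] at this
    rcases this.2 with h1 | h1
    · simp only [Bool.and_eq_true, decide_eq_true_eq] at h1
      obtain ⟨g1, g2, g3⟩ := h1
      have g1' : (0 : ℝ) ≤ (e.1 : ℝ) / T.S := div_nonneg (by exact_mod_cast g1) hS'.le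
      have g2' : (e.2.1 : ℝ) / T.S ≤ 1 := by
        rw [div_le_one hS']
        exact_mod_cast g2
      have g3' : 1 ≤ (e.2.2 : ℝ) / T.S := by
        rw [one_le_div hS']
        exact_mod_cast g3
      have k1 := PST_base (Λ.map (MQ.mt av)) y p q
      have k2 := mul_le_mul_of_nonneg_right g2' (show 0 ≤ 2 * q ^ 2 by positivity)
      have k3 := mul_le_mul_of_nonneg_right g3' (sq_nonneg y)
      linarith
    · rw [List.any_eq_true] at h1
      obtain ⟨t, ht, h1⟩ := h1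
      simp only [Bool.and_eq_true, decide_eq_true_eq] at h1
      obtain ⟨g1, g2, g3, g4⟩ := h1
      have g1' : (0 : ℝ) ≤ t.c := by exact_mod_cast g1
      have g2' : (t.b : ℝ) ≤ (e.2.2 : ℝ) / T.S := by exact_mod_cast g2
      have g3' : -((e.1 : ℝ) / T.S) ≤ t.A := by exact_mod_cast g3
      have g4' : (e.2.1 : ℝ) / T.S ≤ t.B := by exact_mod_cast g4
      have k1 := PST_mem (List.mem_map_of_mem (f := MQ.mt av) ht) y p q
      have k0 : (MQ.mt av t).P y p q = t.A + t.B * (2 * q ^ 2) + t.c * p ^ 2 - t.b * y ^ 2 := rfl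
      rw [k0] at k1
      have k2 := mul_le_mul_of_nonneg_right g4' (show 0 ≤ 2 * q ^ 2 by positivity)
      have k3 := mul_le_mul_of_nonneg_right g2' (sq_nonneg y)
      have k4 : 0 ≤ (t.c : ℝ) * p ^ 2 := by positivity
      linarith

/-! ### the surface -/

section surface

variable {M : Type} [MetricSpace M] {γ : ℝ → M}

/-- the integrand of the core with the constant reserve `θ` -/
def coreT (C : Calc M γ) (η : Fin 3 → M → ℝ) (F : Om → ℝ) (θ : ℝ) (o : Om) : ℝ :=
  F o - θ * (Gη C η o - gn C (umod η) o ^ 2)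

theorem coreT_int (C : Calc M γ) {η : Fin 3 → M → ℝ} (hη : ∀ i, Lip (η i)) {F : Om → ℝ}
    (iF : Integrable F C.μ) (θ : ℝ) : Integrable (coreT C η F θ) C.μ := by
  have := C.fin
  exact iF.sub (((int_Gη C hη).sub (int_gn_sq C (lip_umod hη))).const_mul θ)

/-- the reserve is the larger one -/
theorem coreT_le [CompactSpace M] (C : Calc M γ) {η : Fin 3 → M → ℝ} (hη : ∀ i, Lip (η i)) {F : Om → ℝ}
    (iF : Integrable F C.μ) {θ H s h : ℝ} (hH : 0 ≤ H) (hs : H ≤ s) (h1 : H ≤ h * s) (h2 : h ^ 2 ≤ θ) :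
    ∫ o in {o | s < |umod η (C.pt o)|}, coreT C η F θ o ∂C.μ ≤
      ∫ o in {o | s < |umod η (C.pt o)|}, coreF C η F (fun _ => 0) H o ∂C.μ := by
  have := C.fin
  have hu := lip_umod hη
  refine setIntegral_mono_on_ae₀ (coreT_int C hη iF θ).integrableOn
    (coreF_int C hη iF (integrable_zero _ _ _) hH hs) (meas_abs_lt C hu s) ?_
  filter_upwards [kato C hη] with o ho hmem
  have h3 : s < umod η (C.pt o) := by
    have : s < |umod η (C.pt o)| := hmem
    rwa [abs_of_nonneg (umod_nonneg η _)] at this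
  have h4 : 0 < umod η (C.pt o) := (hH.trans hs).trans_lt h3
  have h0 : 0 ≤ s := hH.trans hs
  have h5 : (H / umod η (C.pt o)) ^ 2 ≤ θ := by
    rcases h0.eq_or_lt with hs0 | hs0
    · have : H = 0 := le_antisymm (by rw [hs0]; exact hs) hH
      rw [this, zero_div]
      have := sq_nonneg h
      norm_num
      linarith
    · have hh : 0 ≤ h := by
        by_contra hc
        push Not at hc
        have := mul_neg_of_neg_of_pos hc hs0
        linarith
      have h6 : H / umod η (C.pt o) ≤ h := by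
        rw [div_le_iff₀ h4]
        exact h1.trans (mul_le_mul_of_nonneg_left h3.le hh)
      exact (pow_le_pow_left₀ (div_nonneg hH h4.le) h6 2).trans h2
  have h6 := mul_le_mul_of_nonneg_right h5 (sub_nonneg.2 ho)
  unfold coreT coreF
  linarith

/-- the pointwise inequality of the members of the table -/
theorem core_pt {Q : E3 → E3 → E3 → E3 → E3 → ℝ} {ρ₀ θ : ℝ} {Ψ : ℝ → ℝ → ℝ → ℝ} (H : MCR Q ρ₀ θ Ψ)
    (hρ₀ : 0 < ρ₀) {T : MCW.Tab} (hT : TabC T Ψ) (C : Calc M γ) {v Tf : Fin 3 → M → ℝ} (hv : Sph γ v)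
    (hTf : TZ C 2 1 7 Tf) {N : ℝ} (hN : 0 ≤ N) : ∀ᵐ o ∂C.μ, ρ₀ ≤ |umod (eta v Tf) (C.pt o)| →
    ∀ y : ℝ, 0 ≤ y → ∀ e ∈ T.L, 2 * y * gn C (umod (eta v Tf)) o +
      (-((e.1 : ℝ) / T.S) + (e.2.1 : ℝ) / T.S * nuN C v N o - (e.2.2 : ℝ) / T.S * y ^ 2) -
      4 * |umod (eta v Tf) (C.pt o)| * nuN C v N o ≤
      coreT C (eta v Tf) (Fq C 2 (QC C Q v Tf) v Tf N) θ o := by
  filter_upwards [H.mod hρ₀ C hv hTf] with o ho hs y _ e he
  rw [abs_of_nonneg (umod_nonneg _ _)] at hs ⊢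
  have h1 := ho hs y
  have h2 := hT.ln e he y _ _ (pnC_nonneg C v o) (qnC_nonneg C v o)
  rw [← nuC_q] at h2
  have h3 := Fq_of C (q := QC C Q v Tf) hv hTf le_rfl hN
    (A := 2 * y * gn C (umod (eta v Tf)) o + θ * (Gη C (eta v Tf) o - gn C (umod (eta v Tf)) o ^ 2) -
      (e.1 : ℝ) / T.S - (e.2.2 : ℝ) / T.S * y ^ 2) (Lb := fun x => (e.2.1 : ℝ) / T.S * x)
    (fun a b _ hab => mul_le_mul_of_nonneg_left hab (hT.B0 e he)) (o := o) (by linarith)
  unfold coreT
  linarith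

end surface

end Pool.Agent.FPX
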