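import Mathlib
import Pool.Agent.FPX.CRV
import Pool.Agent.FPX.MCX

/-
CRX (helper89): the values of the core (`CoreV`, `CoreK` of FINP) from a certificate with reserve (`MCR`, SWS)
and a checked table (`MCW.Tab.Par`, MCX).
-/

open MeasureTheory Set Filter Topology
open scoped ENNReal NNReal

noncomputable section

namespace Pool.Agent.FPX

open Pool.Agent.EWD Pool.Agent.FPM

section surface

variable {M : Type} [MetricSpace M] {γ : ℝ → M}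

/-- **the value of the core from a checked table** -/
theorem coreV_tab [CompactSpace M] {Q : E3 → E3 → E3 → E3 → E3 → ℝ} {ρ₀ θ : ℝ} {Ψ : ℝ → ℝ → ℝ → ℝ}
    (H : MCR Q ρ₀ θ Ψ) (hρ₀ : 0 < ρ₀) {T : MCW.Tab} (hT : TabC T Ψ) {κ' a' N X : ℝ}
    (hP : T.Par κ' a' N X) (hW : 0 ≤ T.Wm) (C : Calc M γ) {v Tf : Fin 3 → M → ℝ} (hv : Sph γ v)
    (hTf : TZ C 2 1 7 Tf) (oη : ∀ i, FPM.OddB γ (eta v Tf i)) {κ a₀ a₁ ε : ℝ} (hI : IsopE C κ a₁ ε)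
    (hκ : ∀ a, a₀ ≤ a → κ' * a ≤ κ * (a - ε)) (ha0 : 0 < a₀) (iQ : Integrable (QC C Q v Tf) C.μ)
    {N₁ : ℝ} (hN0 : 0 ≤ N₁) (hN1 : N₁ ≤ N) (hX : ∫ o, nuN C v N₁ o ∂C.μ ≤ X) {s0 s1 h ab R e : ℝ}
    (hs0 : ρ₀ ≤ s0) (hh : h ^ 2 ≤ θ)
    (hab : ab ≤ a₁) (hR : 8 ≤ R) (he : N * (a₀ + a') * ((T.Wm : ℝ) / T.S) + 4 * R * N * a₀ ≤ e) :
    CoreV C (eta v Tf) (Fq C 2 (QC C Q v Tf) v Tf N₁) (fun _ => 0) (nuN C v N₁) R s0 s1 h ab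
      (fun a m => T.V κ' (a + a') (m + N * a')) e := by
  intro Hh s h1 _ _ hH hHs hHh hsa
  have := C.fin
  have hη : ∀ i, Lip (eta v Tf i) := lip_eta hv.lip hTf.lip
  have iF : Integrable (Fq C 2 (QC C Q v Tf) v Tf N₁) C.μ := Fq_int C iQ hv.lip hTf.lip N₁
  have hN := hP.hN
  have hs : 0 ≤ s := hH.trans hHs
  have k1 := coreT_le C hη iF hH hHs hHh hh
  have i2 := nuN_int C hv.lip N₁
  have n0 : ∀ᵐ o ∂C.μ, 0 ≤ nuN C v N₁ o := ae_of_all _ fun o => nuN_nonneg C v hN0 o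
  have k2 := hP.core hW C hv (lip_umod hη) (even_umod oη) hI hκ ha0 (ν := nuN C v N₁) i2
    (F := coreT C (eta v Tf) (Fq C 2 (QC C Q v Tf) v Tf N₁) θ) (coreT_int C hη iF θ) n0
    (ae_of_all _ fun o => (nuN_le' C v N₁ o).trans hN1) (R := R) (by linarith)
    (ae_of_all _ fun o => by
      rw [abs_of_nonneg (umod_nonneg _ _)]
      exact (umod_le8 hv hTf.bd _).trans hR) hs (hsa.trans hab)
    ((setIntegral_le_integral i2 n0).trans hX)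
    ((core_pt H hρ₀ hT C hv hTf hN0).mono fun o ho hso => ho ((hs0.trans h1).trans hso.le))
  linarith

/-- **the value of the core with the side charge `k` from a checked table** -/
theorem coreK_tab [CompactSpace M] {Q : E3 → E3 → E3 → E3 → E3 → ℝ} {ρ₀ θ : ℝ} {Ψ : ℝ → ℝ → ℝ → ℝ}
    (H : MCR Q ρ₀ θ Ψ) (hρ₀ : 0 < ρ₀) {T : MCW.Tab} (hT : TabC T Ψ) (hb1 : ∀ e ∈ T.L, e.2.2 ≤ T.S)
    {κ' a' N X : ℝ} (hP : T.Par κ' a' N X) (hW : 0 ≤ T.Wm) (C : Calc M γ) {v Tf : Fin 3 → M → ℝ}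
    (hv : Sph γ v) (hTf : TZ C 2 1 7 Tf) (oη : ∀ i, FPM.OddB γ (eta v Tf i)) {κ a₀ a₁ ε : ℝ}
    (hI : IsopE C κ a₁ ε) (hκ : ∀ a, a₀ ≤ a → κ' * a ≤ κ * (a - ε)) (ha0 : 0 < a₀)
    (iQ : Integrable (QC C Q v Tf) C.μ)
    {N₁ : ℝ} (hN0 : 0 ≤ N₁) (hN1 : N₁ ≤ N) (hX : ∫ o, nuN C v N₁ o ∂C.μ ≤ X) {k : ℝ} (hk : 0 ≤ k)
    (hk0 : 4 / κ' * k ≤ T.n0 / T.Kd) {s0 s1 h ab bb R e : ℝ} (hs0 : ρ₀ ≤ s0) (hh : h ^ 2 ≤ θ)
    (hab : ab ≤ a₁) (hbb : a₀ ≤ bb) (hR : 8 ≤ R)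
    (he : N * (a₀ + a') * ((T.Wm : ℝ) / T.S) + 4 * R * N * a₀ ≤ e) :
    CoreK C (eta v Tf) (Fq C 2 (QC C Q v Tf) v Tf N₁) (fun _ => 0) (nuN C v N₁) R s0 s1 h ab bb k
      (fun a m => T.V κ' (a + a') (m + N * a') - k ^ 2 / κ' * Real.log (a / bb)) e := by
  intro Hh s L h1 _ hsL _ hH hHs hHh hsa hbL
  have := C.fin
  have hη : ∀ i, Lip (eta v Tf i) := lip_eta hv.lip hTf.lip
  have iF : Integrable (Fq C 2 (QC C Q v Tf) v Tf N₁) C.μ := Fq_int C iQ hv.lip hTf.lip N₁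
  have hN := hP.hN
  have hs : 0 ≤ s := hH.trans hHs
  have k1 := coreT_le C hη iF hH hHs hHh hh
  have i2 := nuN_int C hv.lip N₁
  have n0 : ∀ᵐ o ∂C.μ, 0 ≤ nuN C v N₁ o := ae_of_all _ fun o => nuN_nonneg C v hN0 o
  have k2 := hP.coreK hW hb1 C hv (lip_umod hη) (even_umod oη) hI hκ ha0 (ν := nuN C v N₁) i2
    (F := coreT C (eta v Tf) (Fq C 2 (QC C Q v Tf) v Tf N₁) θ) (coreT_int C hη iF θ) n0
    (ae_of_all _ fun o => (nuN_le' C v N₁ o).trans hN1) (R := R) (by linarith)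
    (ae_of_all _ fun o => by
      rw [abs_of_nonneg (umod_nonneg _ _)]
      exact (umod_le8 hv hTf.bd _).trans hR) hs hsL hk hk0 hbb hbL (hsa.trans hab)
    ((setIntegral_le_integral i2 n0).trans hX)
    ((core_pt H hρ₀ hT C hv hTf hN0).mono fun o ho hso => ho ((hs0.trans h1).trans hso.le))
  linarith

end surface

end Pool.Agent.FPX
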