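import Mathlib
import Pool.Agent.FPX.FINP

/-
FIMX (helper6): interpolation of the values of the core in the share `r = (H / s)²`. The integrand of the core is
affine in `r`, so for `h² ≤ (1 - l) h₁² + l h₂²` the value `(1 - l) V₁ + l V₂` is admissible for `h`: tables at few
shares serve pieces of arbitrary width.
-/

open MeasureTheory Set Filter Topology
open scoped ENNReal NNReal

noncomputable section

namespace Pool.Agent.FPX

open Pool.Agent.EWD Pool.Agent.FPM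

variable {M : Type} [MetricSpace M] {γ : ℝ → M} [CompactSpace M]

/-- mixture of two values -/
def vmix (l : ℝ) (V₁ V₂ : ℝ → ℝ → ℝ) (a m : ℝ) : ℝ := (1 - l) * V₁ a m + l * V₂ a m

/-- the integral of the integrand of the core is concave in the share -/
theorem coreF_mix (C : Calc M γ) {η : Fin 3 → M → ℝ} (hη : ∀ i, Lip (η i)) {F W : Om → ℝ}
    (iF : Integrable F C.μ) (iW : Integrable W C.μ) {H s h₁ h₂ h l : ℝ} (hs : 0 ≤ s) (H0 : 0 ≤ H)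
    (Hs : H ≤ s) (Hh : H ≤ h * s) (p1 : 0 ≤ h₁) (q1 : h₁ ≤ 1) (p2 : 0 ≤ h₂) (q2 : h₂ ≤ 1)
    (hh : h ^ 2 ≤ (1 - l) * h₁ ^ 2 + l * h₂ ^ 2) :
    (1 - l) * ∫ o in {o | s < |umod η (C.pt o)|}, coreF C η F W (h₁ * s) o ∂C.μ +
      l * ∫ o in {o | s < |umod η (C.pt o)|}, coreF C η F W (h₂ * s) o ∂C.μ ≤
      ∫ o in {o | s < |umod η (C.pt o)|}, coreF C η F W H o ∂C.μ := by
  have e1 : h₁ * s ≤ s := by nlinarith
  have e2 : h₂ * s ≤ s := by nlinarith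
  have i1 := coreF_int C hη iF iW (H := h₁ * s) (s := s) (by positivity) e1
  have i2 := coreF_int C hη iF iW (H := h₂ * s) (s := s) (by positivity) e2
  have i0 := coreF_int C hη iF iW H0 Hs
  rw [← integral_const_mul, ← integral_const_mul,
    ← integral_add (i1.const_mul (1 - l)) (i2.const_mul l)]
  refine setIntegral_mono_ae_restrict ((i1.const_mul (1 - l)).add (i2.const_mul l)) i0 ?_
  filter_upwards [ae_restrict_of_ae (kato C hη)] with o ho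
  unfold coreF
  set D := Gη C η o - gn C (umod η) o ^ 2 with hD
  have hD0 : 0 ≤ D := by
    rw [hD]
    linarith
  set u := umod η (C.pt o) with hu
  have h1 : H ^ 2 ≤ ((1 - l) * h₁ ^ 2 + l * h₂ ^ 2) * s ^ 2 := by
    have h2 : H ^ 2 ≤ (h * s) ^ 2 := pow_le_pow_left₀ H0 Hh 2
    have h3 : h ^ 2 * s ^ 2 ≤ ((1 - l) * h₁ ^ 2 + l * h₂ ^ 2) * s ^ 2 :=
      mul_le_mul_of_nonneg_right hh (sq_nonneg s)
    have e : (h * s) ^ 2 = h ^ 2 * s ^ 2 := by ring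
    linarith
  have h4 : (H / u) ^ 2 ≤ (1 - l) * (h₁ * s / u) ^ 2 + l * (h₂ * s / u) ^ 2 := by
    rcases eq_or_ne u 0 with h0 | h0
    · rw [h0]
      simp
    · have hu2 : 0 < u ^ 2 := by positivity
      rw [div_pow, div_pow, div_pow, ← mul_div_assoc, ← mul_div_assoc, ← add_div]
      refine div_le_div_of_nonneg_right ?_ hu2.le
      have e : (1 - l) * (h₁ * s) ^ 2 + l * (h₂ * s) ^ 2 =
          ((1 - l) * h₁ ^ 2 + l * h₂ ^ 2) * s ^ 2 := by ring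
      rw [e]
      exact h1
  have h5 := mul_le_mul_of_nonneg_right h4 hD0
  nlinarith

/-- **interpolation of `CoreV`** -/
theorem CoreV.mix {C : Calc M γ} {η : Fin 3 → M → ℝ} (hη : ∀ i, Lip (η i)) {F W ν : Om → ℝ}
    (iF : Integrable F C.μ) (iW : Integrable W C.μ) {R s0 s1 h₁ h₂ h ab l : ℝ} {V₁ V₂ : ℝ → ℝ → ℝ}
    {e : ℝ} (p1 : 0 ≤ h₁) (q1 : h₁ ≤ 1) (p2 : 0 ≤ h₂) (q2 : h₂ ≤ 1) (l0 : 0 ≤ l) (l1 : l ≤ 1)
    (hh : h ^ 2 ≤ (1 - l) * h₁ ^ 2 + l * h₂ ^ 2) (c1 : CoreV C η F W ν R s0 s1 h₁ ab V₁ e)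
    (c2 : CoreV C η F W ν R s0 s1 h₂ ab V₂ e) :
    CoreV C η F W ν R s0 s1 h ab (vmix l V₁ V₂) e := by
  intro H s k1 k2 k3 k4 k5 k6 k7
  have hs : 0 ≤ s := k4.trans k5
  have e1 : h₁ * s ≤ s := by nlinarith
  have e2 : h₂ * s ≤ s := by nlinarith
  have a1 := c1 (h₁ * s) s k1 k2 k3 (by positivity) e1 le_rfl k7
  have a2 := c2 (h₂ * s) s k1 k2 k3 (by positivity) e2 le_rfl k7
  have a3 := coreF_mix C hη iF iW hs k4 k5 k6 p1 q1 p2 q2 hh (l := l)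
  have a4 := mul_le_mul_of_nonneg_left a1 (sub_nonneg.2 l1)
  have a5 := mul_le_mul_of_nonneg_left a2 l0
  unfold vmix
  linarith

/-- **interpolation of `CoreK`** -/
theorem CoreK.mix {C : Calc M γ} {η : Fin 3 → M → ℝ} (hη : ∀ i, Lip (η i)) {F W ν : Om → ℝ}
    (iF : Integrable F C.μ) (iW : Integrable W C.μ) {R s0 s1 h₁ h₂ h ab bb k l : ℝ}
    {V₁ V₂ : ℝ → ℝ → ℝ} {e : ℝ} (p1 : 0 ≤ h₁) (q1 : h₁ ≤ 1) (p2 : 0 ≤ h₂) (q2 : h₂ ≤ 1) (l0 : 0 ≤ l)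
    (l1 : l ≤ 1) (hh : h ^ 2 ≤ (1 - l) * h₁ ^ 2 + l * h₂ ^ 2)
    (c1 : CoreK C η F W ν R s0 s1 h₁ ab bb k V₁ e) (c2 : CoreK C η F W ν R s0 s1 h₂ ab bb k V₂ e) :
    CoreK C η F W ν R s0 s1 h ab bb k (vmix l V₁ V₂) e := by
  intro H s T k1 k2 k3 k3' k4 k5 k6 k7 k8
  have hs : 0 ≤ s := k4.trans k5
  have e1 : h₁ * s ≤ s := by nlinarith
  have e2 : h₂ * s ≤ s := by nlinarith
  have a1 := c1 (h₁ * s) s T k1 k2 k3 k3' (by positivity) e1 le_rfl k7 k8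
  have a2 := c2 (h₂ * s) s T k1 k2 k3 k3' (by positivity) e2 le_rfl k7 k8
  have a3 := coreF_mix C hη iF iW hs k4 k5 k6 p1 q1 p2 q2 hh (l := l)
  have a4 := mul_le_mul_of_nonneg_left a1 (sub_nonneg.2 l1)
  have a5 := mul_le_mul_of_nonneg_left a2 l0
  unfold vmix
  linarith

omit [CompactSpace M] in
/-- **interpolation of `VSlope`** -/
theorem VSlope.mix {V₁ V₂ : ℝ → ℝ → ℝ} {al ab β κ N X l : ℝ} (l0 : 0 ≤ l) (l1 : l ≤ 1)
    (c1 : VSlope V₁ al ab β κ N X) (c2 : VSlope V₂ al ab β κ N X) :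
    VSlope (vmix l V₁ V₂) al ab β κ N X := by
  intro a m k1 k2 k3 k4 k5
  have a1 := mul_le_mul_of_nonneg_left (c1 a m k1 k2 k3 k4 k5) (sub_nonneg.2 l1)
  have a2 := mul_le_mul_of_nonneg_left (c2 a m k1 k2 k3 k4 k5) l0
  unfold vmix
  linarith

end Pool.Agent.FPX
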