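import Mathlib
import Pool.Agent.FPX.FIND
import Pool.Agent.FPX.ASF

/-
FINM (helper93): the frame of the modulus closing (penalty `φ = id`, KENP + FIND).

`PairX`: a pair in a cell of the table of `c`: `∫ ν ≤ Xc`. `CellM κ Ee σ cl cu Xc k`: every pair with
`cl ≤ c ≤ cu` satisfies `GoodM` with the slope `k` of the cost, up to any error. `closesE_of_cellM`: from the
cells of a piecewise linear slope (KCELL) to `ClosesE (fun x => x) Ee c₀ X`, the form of ASE/ASF. `CellM.of_mono`: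
monotonicity in the data of the cell.
-/

open MeasureTheory Set Filter Topology
open scoped ENNReal NNReal

noncomputable section

namespace Pool.Agent.FPX

open Pool.Agent.EWD Pool.Agent.FPM Pool.Agent.FPX.VTB

variable {M : Type} [MetricSpace M] {γ : ℝ → M}

/-- the pair in one cell of the table of `c` -/
structure PairX (C : Calc M γ) (Ee Xc cm c : ℝ) (v : Fin 3 → M → ℝ) : Prop where
  hcm : c ≤ cm
  sph : Sph γ v
  deg : ∫ o, jac C v o ∂C.μ = 2 * Real.pi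
  tot : ∫ o, nuC C v o ∂C.μ ≤ Xc
  bdd : ∀ᵐ o ∂C.μ, nuC C v o ≤ 2 * Real.exp cm ^ 2
  en : ∀ᵐ o ∂C.μ, ‖dx C v o‖ ^ 2 + ‖dy C v o‖ ^ 2 ≤ 2 * (Real.exp cm ^ 2 * Ee)

theorem PairM.toX {C : Calc M γ} {G : ℝ → ℝ} {Ee c₀ X cm c Xc : ℝ} {v : Fin 3 → M → ℝ}
    (h : PairM C G Ee c₀ X cm c v) (hX : X - G c ≤ Xc) : PairX C Ee Xc cm c v where
  hcm := h.hcm
  sph := h.sph
  deg := h.deg
  tot := by have := h.tot; linarith
  bdd := h.bdd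
  en := h.en

/-- a smaller slope -/
theorem GoodM.mono_k {C : Calc M γ} {κ k k' Ee c δ ε σ : ℝ} {v : Fin 3 → M → ℝ}
    (h : GoodM C κ k Ee c δ ε σ v) (hk : k' ≤ k) : GoodM C κ k' Ee c δ ε σ v := by
  intro T hT hZ
  obtain ⟨p, q, hp0, hp2, hq, hQ, h1, h2⟩ := h T hT hZ
  refine ⟨p, q, hp0, hp2, hq, hQ, h1, fun hh h3 h4 => ?_⟩
  have h5 := h2 hh h3 h4
  have h6 : p * k' * (hh - (1 - Real.exp (-c))) ≤ p * k * (hh - (1 - Real.exp (-c))) :=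
    mul_le_mul_of_nonneg_right (mul_le_mul_of_nonneg_left hk hp0) (by linarith)
  linarith

/-- a larger error -/
theorem GoodM.mono_δ {C : Calc M γ} {κ k Ee c δ δ' ε σ : ℝ} {v : Fin 3 → M → ℝ}
    (h : GoodM C κ k Ee c δ ε σ v) (hδ : δ ≤ δ') : GoodM C κ k Ee c δ' ε σ v := by
  intro T hT hZ
  obtain ⟨p, q, hp0, hp2, hq, hQ, h1, h2⟩ := h T hT hZ
  exact ⟨p, q, hp0, hp2, hq, hQ, by linarith, fun hh h3 h4 => by linarith [h2 hh h3 h4]⟩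

/-- **one cell of the table of `c`**: all pairs of the cell are good, the tolerance does not depend on the
surface -/
def CellM (κ Ee σ cl cu Xc k : ℝ) : Prop :=
  ∀ δ : ℝ, 0 < δ → ∀ cm : ℝ, ∃ ε₂ : ℝ, 0 < ε₂ ∧ ∀ (M : Type) [MetricSpace M] [CompactSpace M]
    [Nonempty M] (γ : ℝ → M) (C : Calc M γ) (ε : ℝ), 0 < ε → ε ≤ ε₂ → NearM C ε → C.vol < 2 * Real.pi →
    ∀ (c : ℝ) (v : Fin 3 → M → ℝ), cl ≤ c → c ≤ cu → PairX C Ee Xc cm c v →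
      GoodM C κ k Ee c δ ε σ v

theorem CellM.of_mono {κ Ee σ cl cu Xc k cl' cu' Xc' k' : ℝ} (h : CellM κ Ee σ cl cu Xc k) (h1 : cl ≤ cl')
    (h2 : cu' ≤ cu) (h3 : Xc' ≤ Xc) (h4 : k' ≤ k) : CellM κ Ee σ cl' cu' Xc' k' := by
  intro δ hδ cm
  obtain ⟨ε₂, hε₂, h⟩ := h δ hδ cm
  refine ⟨ε₂, hε₂, fun M _ _ _ γ C ε hε0 hε hN hv c v hc1 hc2 hP => ?_⟩
  exact (h M γ C ε hε0 hε hN hv c v (h1.trans hc1) (hc2.trans h2)
    ⟨hP.hcm, hP.sph, hP.deg, hP.tot.trans h3, hP.bdd, hP.en⟩).mono_k h4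

/-- **two cells side by side** -/
theorem CellM.glue {κ Ee σ cl cm' cu Xc k : ℝ} (h : CellM κ Ee σ cl cm' Xc k)
    (h' : CellM κ Ee σ cm' cu Xc k) : CellM κ Ee σ cl cu Xc k := by
  intro δ hδ cm
  obtain ⟨ε₂, hε₂, h⟩ := h δ hδ cm
  obtain ⟨ε₃, hε₃, h'⟩ := h' δ hδ cm
  refine ⟨min ε₂ ε₃, lt_min hε₂ hε₃, fun M _ _ _ γ C ε hε0 hε hN hv c v hc1 hc2 hP => ?_⟩
  rcases le_total c cm' with h3 | h3
  · exact h M γ C ε hε0 (hε.trans (min_le_left _ _)) hN hv c v hc1 h3 hP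
  · exact h' M γ C ε hε0 (hε.trans (min_le_right _ _)) hN hv c v h3 hc2 hP

/-- one tolerance for a list of cells -/
theorem cells_common {α : Type*} (l : List α) {P : α → ℝ → Prop}
    (hP : ∀ a ∈ l, ∃ ε₂ : ℝ, 0 < ε₂ ∧ ∀ ε, 0 < ε → ε ≤ ε₂ → P a ε) :
    ∃ ε₂ : ℝ, 0 < ε₂ ∧ ∀ ε, 0 < ε → ε ≤ ε₂ → ∀ a ∈ l, P a ε := by
  induction l with
  | nil => exact ⟨1, one_pos, fun ε _ _ a ha => by simp at ha⟩
  | cons b l ih =>
    obtain ⟨e1, he1, h1⟩ := hP b (by simp)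
    obtain ⟨e2, he2, h2⟩ := ih fun a ha => hP a (by simp [ha])
    refine ⟨min e1 e2, lt_min he1 he2, fun ε h0 h a ha => ?_⟩
    rcases List.mem_cons.1 ha with h3 | h3
    · rw [h3]
      exact h1 ε h0 (h.trans (min_le_left _ _))
    · exact h2 ε h0 (h.trans (min_le_right _ _)) a h3

/-- **the modulus closing from the cells of the table of `c`** -/
theorem closingK_of_cells {κ X σ c₀ k₀ : ℚ} {L : List (ℚ × ℚ)} {Ee : ℝ} (hE : 0 ≤ Ee) (hc₀ : 0 < c₀)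
    (hk : 0 ≤ k₀) (hL : qOk k₀ L = true) (hX : X < qVal 0 k₀ L)
    (hC : ∀ r ∈ qCells c₀ 0 k₀ L, r.2.2.1 ≤ X →
      CellM κ Ee σ r.1 r.2.1 ((X : ℝ) - r.2.2.1) r.2.2.2) {δ : ℝ} (hδ : 0 < δ) :
    ClosingK (fun x => x) (fun _ => 1) (pkG c₀ k₀ (clQ L)) (pkD c₀ k₀ (clQ L)) κ Ee c₀ X σ δ := by
  refine closingK_of hE (by exact_mod_cast hc₀) (fun δ hδ cm => ?_) hδ
  have key := cells_common (qCells c₀ 0 k₀ L)
    (P := fun r ε => r.2.2.1 ≤ X → ∀ (M : Type) [MetricSpace M] [CompactSpace M] [Nonempty M]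
      (γ : ℝ → M) (C : Calc M γ), NearM C ε → C.vol < 2 * Real.pi →
      ∀ (c : ℝ) (v : Fin 3 → M → ℝ), (r.1 : ℝ) ≤ c → c ≤ r.2.1 → PairX C Ee ((X : ℝ) - r.2.2.1) cm c v →
      GoodM C κ (r.2.2.2 : ℚ) Ee c δ ε σ v) fun r hr => by
    by_cases hrX : r.2.2.1 ≤ X
    · obtain ⟨ε₂, hε₂, h⟩ := hC r hr hrX δ hδ cm
      exact ⟨ε₂, hε₂, fun ε h0 h1 _ M _ _ _ γ C hN hv c v h2 h3 hP => h M γ C ε h0 h1 hN hv c v h2 h3 hP⟩
    · exact ⟨1, one_pos, fun ε _ _ h => absurd h hrX⟩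
  obtain ⟨ε₂, hε₂, key⟩ := key
  refine ⟨ε₂, hε₂, fun M _ _ _ γ C ε hε0 hε hN hv c v hP => ?_⟩
  have rk : (0 : ℝ) ≤ k₀ := by exact_mod_cast hk
  have hpk := qOk_pkOk L k₀ hL
  have n0 : 0 ≤ ∫ o, nuC C v o ∂C.μ := integral_nonneg fun o => nuv_nonneg _ _ _
  have hcX : pkG c₀ k₀ (clQ L) c ≤ X := by
    have := hP.tot
    linarith
  have hXv : (X : ℝ) < pkVal 0 k₀ (clQ L) := by
    have h1 : ((X : ℚ) : ℝ) < ((qVal 0 k₀ L : ℚ) : ℝ) := by exact_mod_cast hX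
    rw [qVal_cast] at h1
    simpa using h1
  rcases pk_locate (clQ L) c₀ 0 k₀ hpk rk hP.hc with ⟨s, hs, q1, q2, q3, q4⟩ | ⟨_, q2⟩
  · obtain ⟨r, hr, e⟩ := qCells_cast L c₀ 0 k₀ s (by simpa using hs)
    subst e
    rw [zero_add] at q3
    have q1' : (r.1 : ℝ) ≤ c := q1
    have q2' : c ≤ (r.2.1 : ℝ) := q2
    have q3' : (r.2.2.1 : ℝ) ≤ pkG c₀ k₀ (clQ L) c := q3
    have q4' : pkD c₀ k₀ (clQ L) c ≤ (r.2.2.2 : ℝ) := q4
    have hrX : r.2.2.1 ≤ X := by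
      have : (r.2.2.1 : ℝ) ≤ X := q3'.trans hcX
      exact_mod_cast this
    exact (key ε hε0 hε r hr hrX M γ C hN hv c v q1' q2' (hP.toX (by linarith))).mono_k q4'
  · rw [zero_add] at q2
    linarith

/-- **the modulus closing** in the form of ASE -/
theorem closesE_of_cellM {κ X σ c₀ k₀ : ℚ} {L : List (ℚ × ℚ)} {Ee : ℝ} (hE : 1 ≤ Ee)
    (hκ : 0 < κ) (hκ' : (κ : ℝ) ≤ 10000 / 5439 * Real.pi) (hc₀ : 0 < c₀) (hσ0 : 0 < σ) (hσ : σ < 1)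
    (hX0 : 0 < X) (hX2 : X ≤ 6) (hk : 0 ≤ k₀) (hL : qOk k₀ L = true) (hX : X < qVal 0 k₀ L)
    (hC : ∀ r ∈ qCells c₀ 0 k₀ L, r.2.2.1 ≤ X →
      CellM κ Ee σ r.1 r.2.1 ((X : ℝ) - r.2.2.1) r.2.2.2) :
    ASX.ClosesE (fun x => x) Ee c₀ X := by
  have hpi := Real.pi_gt_three
  have hX2' : (X : ℝ) ≤ 6 := by exact_mod_cast hX2
  exact ASX.closesE_K (κM := pkLast k₀ (clQ L)) (LG := pkSlope k₀ (clQ L)) hE pen_id
    (pk_cost (by exact_mod_cast hk) (qOk_pkOk L k₀ hL)) (by exact_mod_cast hκ) hκ' (by exact_mod_cast hc₀)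
    (by exact_mod_cast hσ0) (by exact_mod_cast hσ) (by exact_mod_cast hX0) (by linarith)
    fun δ hδ => closingK_of_cells (by linarith) hc₀ hk hL hX hC hδ

end Pool.Agent.FPX
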