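import Mathlib
import Pool.Agent.FPX.FCU
import Pool.Agent.FPX.IMX

/-
FOU (helper99): far part with a resistance function `(K, G)` which depends on the charge `y` of the core.
The image account falls at most by half of the charge, so only `α ≥ α₀ - (X + y) / 2` matters.
-/

open MeasureTheory Set Filter Topology
open scoped ENNReal NNReal

noncomputable section

namespace Pool.Agent.FPX

open Pool.Agent.EWD Pool.Agent.FPM

variable {M : Type} [MetricSpace M] {γ : ℝ → M}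

/-- the Jacobian is at least `-ν / 2` -/
theorem fou_neg_half_nu (C : Calc M γ) {v : Fin 3 → M → ℝ} (hv : Sph γ v) :
    ∀ᵐ o ∂C.μ, -(nuC C v o) / 2 ≤ jac C v o := by
  filter_upwards [imc_ae C hv] with o ho
  have hν : 0 ≤ nuC C v o := nuv_nonneg _ _ _
  have h1 : ∀ e : ℝ, 0 < e → e ≤ 1 / 2 → 0 ≤ jac C v o * (2 - e) + nuC C v o := by
    intro e h0 h1
    have h2 := ho (e * (1 - e / 2)) (2 - e) 1 (by nlinarith) one_pos (by nlinarith)
    have h3 : 0 ≤ opn C v o ^ 2 * (e * (1 - e / 2)) := by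
      have : 0 < e * (1 - e / 2) := by nlinarith
      positivity
    linarith
  have h2 : 0 ≤ jac C v o * (2 - 0) + nuC C v o := by
    have hlim : Tendsto (fun e : ℝ => jac C v o * (2 - e) + nuC C v o) (𝓝[>] 0)
        (𝓝 (jac C v o * (2 - 0) + nuC C v o)) := by
      have hc : Continuous fun e : ℝ => jac C v o * (2 - e) + nuC C v o := by fun_prop
      exact (hc.tendsto 0).mono_left nhdsWithin_le_nhds
    refine ge_of_tendsto hlim ?_
    filter_upwards [Ioo_mem_nhdsGT (show (0 : ℝ) < 1 / 2 by norm_num)] with e he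
    exact h1 e he.1 he.2.le
  linarith

/-- data for the outer part when the core carries the charge `y` -/
def OutN (X α₀ Rm y : ℝ) : Prop :=
  ∃ (K : ℝ) (G gg : ℝ → ℝ), 0 < K ∧
    (∀ α, α₀ - (X + y) / 2 ≤ α → α ≤ 2 * Real.pi + X → HasDerivAt G (-gg α) α) ∧
    (∀ α, α₀ - (X + y) / 2 ≤ α → α ≤ 2 * Real.pi + X →
      1 / (α * (4 * Real.pi - α)) ≤ gg α - gg α ^ 2 / (2 * K)) ∧
    (∀ z, 0 ≤ z → z ≤ X → 0 ≤ G (2 * Real.pi + z) + K * z) ∧
    G (α₀ - y) + K * (X - y) ≤ Rm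

/-- the outer part at a crossing level -/
theorem comp_outN [CompactSpace M] (C : Calc M γ) (hγ : Bd γ) (hR : RegAE C) {v : Fin 3 → M → ℝ}
    (hv : Sph γ v) (hJ : ∫ o, jac C v o ∂C.μ = 2 * Real.pi) {κ ε : ℝ} (hI : IsopO C κ ε)
    {f : Om → ℝ} (hf : Integrable f C.μ) (hfn : ∀ᵐ o ∂C.μ, nuC C v o ≤ f o) {X : ℝ}
    (fX : ∫ o, f o ∂C.μ ≤ X) (hX : X < 2 * Real.pi) {a₁ α₀ Rm : ℝ} (hα₀ : X < α₀) (hRm : 0 < Rm)
    (hN : ∀ y, 0 ≤ y → y ≤ X → OutN X α₀ Rm y)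
    {χ : M → ℝ} (hχ : Lip χ) (oχ : EWD.OddB γ χ) {t : ℝ} (ht : 0 ≤ t)
    (hα : ∀ s, 0 ≤ s → a₁ ≤ supa C χ s → α₀ - supw C χ f s ≤ supw C χ (jac C v) s)
    (hc : ∀ s, 0 ≤ s → s < t → a₁ ≤ supa C χ s) :
    t ^ 2 ≤ Rm * ∫ o in {o | |χ (C.pt o)| < t}, gn C χ o ^ 2 ∂C.μ := by
  have := C.fin
  have hpi := Real.pi_pos
  have f0 : ∀ᵐ o ∂C.μ, 0 ≤ f o := by
    filter_upwards [hfn] with o ho
    exact (nuv_nonneg _ _ _).trans ho
  have hf0 : ∀ s, 0 ≤ supw C χ f s := fun s => setIntegral_nonneg_of_ae f0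
  have hfX : ∀ s, supw C χ f s ≤ X := fun s => (setIntegral_le_integral hf f0).trans fX
  have hX0 : 0 ≤ X := (hf0 0).trans (hfX 0)
  have iG := int_gn_sq C hχ
  have iJ : Integrable (jac C v) C.μ := jac_integrable C hv
  set E := ∫ o in {o | |χ (C.pt o)| < t}, gn C χ o ^ 2 ∂C.μ with hE
  have hE0 : 0 ≤ E := integral_nonneg fun o => by positivity
  -- the image account falls at most by half of the charge
  have hdrop : ∀ s' s, s' ≤ s → supw C χ (jac C v) s - (supw C χ f s' - supw C χ f s) / 2 ≤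
      supw C χ (jac C v) s' := by
    intro s' s hs
    have i1 : Integrable (fun o => jac C v o + f o / 2) C.μ := iJ.add (hf.div_const 2)
    have h1 : ∫ o in {o | s < |χ (C.pt o)|}, (jac C v o + f o / 2) ∂C.μ ≤
        ∫ o in {o | s' < |χ (C.pt o)|}, (jac C v o + f o / 2) ∂C.μ := by
      refine setIntegral_mono_set i1.integrableOn (ae_restrict_of_ae ?_) ?_
      · filter_upwards [fou_neg_half_nu C hv, hfn] with o h2 h3
        change 0 ≤ jac C v o + f o / 2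
        linarith
      · exact LE.le.eventuallyLE fun o ho => hs.trans_lt ho
    rw [integral_add iJ.integrableOn (hf.div_const 2).integrableOn,
      integral_add iJ.integrableOn (hf.div_const 2).integrableOn, integral_div, integral_div] at h1
    unfold supw
    linarith
  have hsum : ∀ s, supw C χ (jac C v) s ≤ 2 * Real.pi + X := by
    intro s
    have q1 := integral_add_compl₀ (meas_abs_lt C hχ s) iJ
    have q2 := integral_add_compl₀ (meas_abs_lt C hχ s) hf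
    have q3 : ∫ o in {o | s < |χ (C.pt o)|}ᶜ, -jac C v o ∂C.μ ≤
        ∫ o in {o | s < |χ (C.pt o)|}ᶜ, f o ∂C.μ := by
      refine setIntegral_mono_ae iJ.neg.integrableOn hf.integrableOn ?_
      filter_upwards [hfn, neg_nu_le_jac C hv] with o h4 h5
      linarith
    rw [integral_neg] at q3
    have q4 := hf0 s
    unfold supw at q4 ⊢
    linarith
  have hlow : ∀ s, 0 ≤ s → s < t → s ^ 2 ≤ Rm * E := by
    intro s hs hst
    set y := supw C χ f s with hy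
    obtain ⟨K, G, gg, hK, hG, hgg, hG0, hRy⟩ := hN y (hf0 s) (hfX s)
    have hyX : y ≤ X := hfX s
    have hy0 : 0 ≤ y := hf0 s
    have ha := hc s hs hst
    have h1 := hα s hs ha
    have hA1 : 0 < α₀ - (X + y) / 2 := by linarith
    have hgpos : ∀ α, α₀ - (X + y) / 2 ≤ α → α ≤ 2 * Real.pi + X → 0 ≤ gg α := by
      intro α h2 h3
      have h4 : 0 < 1 / (α * (4 * Real.pi - α)) := by
        have : 0 < α := by linarith
        have : 0 < 4 * Real.pi - α := by linarith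
        positivity
      have h5 := hgg α h2 h3
      have h6 : 0 ≤ gg α ^ 2 / (2 * K) := by positivity
      linarith
    have hanti := anti_of hG hgpos
    have key : ∀ d : ℝ, 0 < d → s ^ 2 ≤ (Rm + d) * E := by
      intro d hd
      obtain ⟨h2, h3⟩ := out_robin C hγ hR hv hJ hI hf hfn (w := fun _ => 0) (lam := 0) (ρ := 0) (wB := 0)
        fX (integrable_zero _ _ _) (ae_of_all _ fun _ => le_rfl)
        (ae_of_all _ fun o => by
          change (0 : ℝ) ≤ 0 * f o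
          rw [zero_mul])
        (ae_of_all _ fun _ => le_rfl) le_rfl le_rfl hK hA1 hX hG hgg hG0
        hd hχ oχ hs (fun s' h4 h5 => by
          have h6 := hdrop s' s h5
          have h7 := hfX s'
          linarith)
      have h4 := hsum s
      have h5 : G (supw C χ (jac C v) s) ≤ G (α₀ - y) :=
        hanti _ _ (by linarith) h1 h4
      set r := G (supw C χ (jac C v) s) + K * (X - supw C χ f s) + d with hr
      have h6 : r ≤ Rm + d := by
        rw [hr, ← hy]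
        linarith
      have h7 : ∫ o in {o | |χ (C.pt o)| < s}, gn C χ o ^ 2 ∂C.μ ≤ E := by
        refine setIntegral_mono_set iG.integrableOn (ae_of_all _ fun o => by positivity) ?_
        exact LE.le.eventuallyLE fun o ho => (show |χ (C.pt o)| < s from ho).trans hst
      have h8 : s ^ 2 * r⁻¹ ≤ E := by
        have h9 : s ^ 2 * (r⁻¹ - 0 * 0 * (X - supw C χ f s) - 0 * supw C χ (fun _ => 0) s) +
            0 * ∫ o, min |χ (C.pt o)| s ^ 2 * 0 ∂C.μ = s ^ 2 * r⁻¹ := by ring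
        rw [h9] at h3
        exact h3.trans h7
      rw [← div_eq_mul_inv, div_le_iff₀ h2] at h8
      calc s ^ 2 ≤ E * r := h8
        _ ≤ E * (Rm + d) := mul_le_mul_of_nonneg_left h6 hE0
        _ = (Rm + d) * E := mul_comm _ _
    have hlim : Tendsto (fun d : ℝ => (Rm + d) * E) (𝓝[>] 0) (𝓝 ((Rm + 0) * E)) := by
      have hcn : Continuous fun d : ℝ => (Rm + d) * E := by fun_prop
      exact (hcn.tendsto 0).mono_left nhdsWithin_le_nhds
    have h2 := ge_of_tendsto hlim (b := s ^ 2) (by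
      filter_upwards [self_mem_nhdsWithin] with d hd
      exact key d hd)
    rwa [add_zero] at h2
  rcases ht.eq_or_lt with h0 | h0
  · rw [← h0]
    have : 0 ≤ Rm * E := mul_nonneg hRm.le hE0
    simpa using this
  · have hlim : Tendsto (fun s : ℝ => s ^ 2) (𝓝[<] t) (𝓝 (t ^ 2)) :=
      ((continuous_pow 2).tendsto t).mono_left nhdsWithin_le_nhds
    refine le_of_tendsto hlim ?_
    filter_upwards [Ioo_mem_nhdsLT h0] with s hs
    exact hlow s hs.1.le hs.2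

/-- **the far part for one odd function**: uniform charge of density at most `q`, total mass `m₂`, core
certificate `n`, `k` on `(0, a₁]`, resistance at most `Rm` outside -/
theorem far_scalN [CompactSpace M] (C : Calc M γ) (hγ : Bd γ) (hR : RegAE C)
    {v : Fin 3 → M → ℝ} (hv : Sph γ v) (deg : ∫ o, jac C v o ∂C.μ = 2 * Real.pi) {f : Om → ℝ}
    (fint : Integrable f C.μ) (fnu : ∀ᵐ o ∂C.μ, nuC C v o ≤ f o) {X : ℝ} (fX : ∫ o, f o ∂C.μ ≤ X)
    (hX : X < 2 * Real.pi) {κ ε B a₁ α₀ Rm m₂ q : ℝ} (hI : IsopO C κ ε) (hε : 0 ≤ ε) (hκ : 0 < κ)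
    (ha : 0 < a₁) (hα₀ : X < α₀) (hRm : 0 < Rm)
    (hN : ∀ y, 0 ≤ y → y ≤ X → OutN X α₀ Rm y)
    (hα : ∀ g : M → ℝ, Lip g → ∀ s, 0 ≤ s → a₁ ≤ supa C g s →
      α₀ - supw C g f s ≤ supw C g (jac C v) s)
    (hq : 0 < q) (hφ : 0 < phJ (q * a₁ / κ)) (hqB : q ≤ B)
    (hr : κ * FJ (q * a₁ / κ) * Rm ≤ 1) (hm : m₂ ≤ q * a₁)
    {w₂ : Om → ℝ} (iw₂ : Integrable w₂ C.μ) (w₂0 : ∀ᵐ o ∂C.μ, 0 ≤ w₂ o) (w₂q : ∀ᵐ o ∂C.μ, w₂ o ≤ q)
    (w₂m : ∫ o, w₂ o ∂C.μ ≤ m₂)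
    {R : ℝ} (hR0 : 0 ≤ R) {g : M → ℝ} (hg : Lip g) (og : EWD.OddB γ g) (gR : ∀ x, |g x| ≤ R) :
    ∫ o, g (C.pt o) ^ 2 * w₂ o ∂C.μ ≤ ∫ o, gn C g o ^ 2 ∂C.μ + B * ε * R ^ 2 := by
  have := C.fin
  have iG := int_gn_sq C hg
  have hB0 : 0 ≤ B := hq.le.trans hqB
  have gR' : ∀ᵐ o ∂C.μ, |g (C.pt o)| ≤ R := ae_of_all _ fun o => gR (C.pt o)
  have Dn := coreD_unif hκ hq ha hqB hφ
  obtain ⟨k, ck, k0, kp, hc, hk⟩ := Dn.cert
  have hband : ∀ t, (∫ o in {o | t < |g (C.pt o)| ∧ |g (C.pt o)| ≤ R}, gn C g o ^ 2 ∂C.μ) +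
      ∫ o in {o | |g (C.pt o)| < t}, gn C g o ^ 2 ∂C.μ ≤ ∫ o, gn C g o ^ 2 ∂C.μ := by
    intro t
    set A := {o | t < |g (C.pt o)|} with hA
    have h1 : ∫ o in {o | t < |g (C.pt o)| ∧ |g (C.pt o)| ≤ R}, gn C g o ^ 2 ∂C.μ ≤
        ∫ o in A, gn C g o ^ 2 ∂C.μ :=
      setIntegral_mono_set iG.integrableOn (ae_of_all _ fun o => sq_nonneg _)
        (LE.le.eventuallyLE fun o ho => ho.1)
    have h2 : ∫ o in {o | |g (C.pt o)| < t}, gn C g o ^ 2 ∂C.μ ≤ ∫ o in Aᶜ, gn C g o ^ 2 ∂C.μ :=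
      setIntegral_mono_set iG.integrableOn (ae_of_all _ fun o => sq_nonneg _)
        (LE.le.eventuallyLE fun o ho => not_lt.2 (le_of_lt (show |g (C.pt o)| < t from ho)))
    have h3 := integral_add_compl₀ (meas_abs_lt C hg t) iG
    linarith
  have step : ∀ t, 0 ≤ t → t ≤ R → supa C g t ≤ a₁ → (∀ s, 0 ≤ s → s < t → a₁ ≤ supa C g s) →
      ∫ o, g (C.pt o) ^ 2 * w₂ o ∂C.μ ≤ ∫ o, gn C g o ^ 2 ∂C.μ + B * ε * R ^ 2 := by
    intro t t0 tR hta hcr
    have hcc : CoreCert C g w₂ (fun a => κ * a) ε (B * ε) 1 a₁ t (fun a => q * max a 0) k := by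
      refine ⟨Dn.mono, Dn.zero, ck, k0, kp, ?_, ?_⟩
      · intro s _ hts
        have h1 : supw C g w₂ s ≤ q * supa C g s := by
          have h2 : ∫ o in {o | s < |g (C.pt o)|}, w₂ o ∂C.μ ≤ ∫ _ in {o | s < |g (C.pt o)|}, q ∂C.μ :=
            setIntegral_mono_ae iw₂.integrableOn (integrable_const _).integrableOn w₂q
          rw [setIntegral_const, smul_eq_mul] at h2
          have h3 : supa C g s = C.μ.real {o | s < |g (C.pt o)|} := rfl
          have h4 : supw C g w₂ s = ∫ o in {o | s < |g (C.pt o)|}, w₂ o ∂C.μ := rfl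
          rw [h3, h4]
          linarith
        have h5 := Dn.lip (supa C g s - ε) (supa C g s) (by linarith)
        have h6 : B * (supa C g s - (supa C g s - ε)) = B * ε := by ring
        rw [h6] at h5
        have h7 : q * supa C g s ≤ q * max (supa C g s) 0 :=
          mul_le_mul_of_nonneg_left (le_max_left _ _) hq.le
        linarith
      · intro a h0 h1
        have h2 := hc a h0 h1
        have h3 : min (0 / 1 * a) (0 : ℝ) = 0 := by simp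
        rw [h3, add_zero] at h2
        rw [one_mul]
        exact h2
    have h1 := comp_in C hg gR' iw₂ t0 tR zero_le_one hε (by positivity) hta
      (LevO.of_isop hI g hg og) hcc
    have h2 := comp_outN C hγ hR hv deg hI fint fnu fX hX hα₀ hRm hN hg og t0 (hα g hg) hcr
    have i3 : Integrable (fun o => g (C.pt o) ^ 2 * w₂ o) C.μ := by
      refine iw₂.bdd_mul (c := R ^ 2) ((aem_pt C hg).pow_const 2).aestronglyMeasurable ?_
      refine ae_of_all _ fun o => ?_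
      rw [Real.norm_eq_abs, abs_pow]
      exact pow_le_pow_left₀ (abs_nonneg _) (gR _) 2
    have i4 : Integrable (fun o => min |g (C.pt o)| t ^ 2 * w₂ o) C.μ := by
      refine iw₂.bdd_mul (c := t ^ 2) ?_ (ae_of_all _ fun o => ?_)
      · exact (((aem_pt C (lip_abs hg)).min aemeasurable_const).pow_const 2).aestronglyMeasurable
      · rw [Real.norm_eq_abs, abs_pow, abs_of_nonneg (le_min (abs_nonneg _) t0)]
        exact pow_le_pow_left₀ (le_min (abs_nonneg _) t0) (min_le_right _ _) 2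
    have e6 : ∫ o, (g (C.pt o) ^ 2 - min |g (C.pt o)| t ^ 2) * w₂ o ∂C.μ =
        (∫ o, g (C.pt o) ^ 2 * w₂ o ∂C.μ) - ∫ o, min |g (C.pt o)| t ^ 2 * w₂ o ∂C.μ := by
      rw [← integral_sub i3 i4]
      refine integral_congr_ae (ae_of_all _ fun o => ?_)
      ring
    have e7 : ∫ o, min |g (C.pt o)| t ^ 2 * w₂ o ∂C.μ ≤ t ^ 2 * m₂ := by
      have h3 : ∫ o, min |g (C.pt o)| t ^ 2 * w₂ o ∂C.μ ≤ ∫ o, t ^ 2 * w₂ o ∂C.μ := by
        refine integral_mono_ae i4 (iw₂.const_mul _) ?_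
        filter_upwards [w₂0] with o hw0
        exact mul_le_mul_of_nonneg_right (pow_le_pow_left₀ (le_min (abs_nonneg _) t0)
          (min_le_right _ _) 2) hw0
      rw [integral_const_mul] at h3
      exact h3.trans (mul_le_mul_of_nonneg_left w₂m (by positivity))
    rw [e6, one_mul, one_mul] at h1
    have h4 := hband t
    set S := ∫ u in (0 : ℝ)..a₁, k u with hS
    have h5 : m₂ + S ≤ κ * FJ (q * a₁ / κ) := by
      have h6 : min (0 / 1 * a₁) (0 : ℝ) = 0 := by simp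
      rw [h6, add_zero, max_eq_left ha.le] at hk
      linarith
    have h6 : t ^ 2 * (m₂ + S) ≤ ∫ o in {o | |g (C.pt o)| < t}, gn C g o ^ 2 ∂C.μ := by
      set E := ∫ o in {o | |g (C.pt o)| < t}, gn C g o ^ 2 ∂C.μ with hE
      have hE0 : 0 ≤ E := integral_nonneg fun o => by positivity
      have hF0 : 0 ≤ κ * FJ (q * a₁ / κ) := by
        have := ppJ_pos (q * a₁ / κ)
        unfold FJ
        positivity
      calc t ^ 2 * (m₂ + S) ≤ t ^ 2 * (κ * FJ (q * a₁ / κ)) :=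
            mul_le_mul_of_nonneg_left h5 (sq_nonneg t)
        _ ≤ Rm * E * (κ * FJ (q * a₁ / κ)) := mul_le_mul_of_nonneg_right h2 hF0
        _ = (κ * FJ (q * a₁ / κ) * Rm) * E := by ring
        _ ≤ 1 * E := mul_le_mul_of_nonneg_right hr hE0
        _ = E := one_mul _
    nlinarith
  rcases lt_or_ge (supa C g 0) a₁ with h0 | h0
  · exact step 0 le_rfl hR0 h0.le fun s h1 h2 => absurd h2 (not_lt.2 h1)
  · obtain ⟨t, t0, tR, ht1, ht2⟩ := crossing C gR' ha h0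
    exact step t t0 tR ht1 ht2

/-- **the far part for an odd field** -/
theorem far_genN [CompactSpace M] (C : Calc M γ) (hγ : Bd γ) (hR : RegAE C)
    {v : Fin 3 → M → ℝ} (hv : Sph γ v) (deg : ∫ o, jac C v o ∂C.μ = 2 * Real.pi) {f : Om → ℝ}
    (fint : Integrable f C.μ) (fnu : ∀ᵐ o ∂C.μ, nuC C v o ≤ f o) {X : ℝ} (fX : ∫ o, f o ∂C.μ ≤ X)
    (hX : X < 2 * Real.pi) {κ ε B a₁ α₀ Rm m₂ q : ℝ} (hI : IsopO C κ ε) (hε : 0 ≤ ε) (hκ : 0 < κ)
    (ha : 0 < a₁) (hα₀ : X < α₀) (hRm : 0 < Rm)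
    (hN : ∀ y, 0 ≤ y → y ≤ X → OutN X α₀ Rm y)
    (hα : ∀ g : M → ℝ, Lip g → ∀ s, 0 ≤ s → a₁ ≤ supa C g s →
      α₀ - supw C g f s ≤ supw C g (jac C v) s)
    (hq : 0 < q) (hφ : 0 < phJ (q * a₁ / κ)) (hqB : q ≤ B)
    (hr : κ * FJ (q * a₁ / κ) * Rm ≤ 1) (hm : m₂ ≤ q * a₁)
    {w₂ : Om → ℝ} (iw₂ : Integrable w₂ C.μ) (w₂0 : ∀ᵐ o ∂C.μ, 0 ≤ w₂ o) (w₂q : ∀ᵐ o ∂C.μ, w₂ o ≤ q)
    (w₂m : ∫ o, w₂ o ∂C.μ ≤ m₂)
    {ξ : Fin 3 → M → ℝ} (hξ : ∀ i, Lip (ξ i)) (oξ : ∀ i, FPM.OddB γ (ξ i)) {R : ℝ} (hR0 : 0 ≤ R)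
    (hb : ∀ i x, |ξ i x| ≤ R) :
    ∫ o, umod ξ (C.pt o) ^ 2 * w₂ o ∂C.μ ≤ ∫ o, Gη C ξ o ∂C.μ + 3 * (B * ε * R ^ 2) := by
  have := C.fin
  have h1 : ∀ i, ∫ o, ξ i (C.pt o) ^ 2 * w₂ o ∂C.μ ≤
      ∫ o, gn C (ξ i) o ^ 2 ∂C.μ + B * ε * R ^ 2 := fun i =>
    far_scalN C hγ hR hv deg fint fnu fX hX hI hε hκ ha hα₀ hRm hN hα hq hφ hqB hr hm iw₂ w₂0 w₂q w₂m
      hR0 (hξ i) (oξ i) (hb i)
  have i1 : ∀ i, Integrable (fun o => ξ i (C.pt o) ^ 2 * w₂ o) C.μ := fun i => by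
    refine iw₂.bdd_mul (c := R ^ 2) ((aem_pt C (hξ i)).pow_const 2).aestronglyMeasurable ?_
    refine ae_of_all _ fun o => ?_
    rw [Real.norm_eq_abs, abs_pow]
    exact pow_le_pow_left₀ (abs_nonneg _) (hb i _) 2
  have e1 : ∫ o, umod ξ (C.pt o) ^ 2 * w₂ o ∂C.μ =
      ∑ i, ∫ o, ξ i (C.pt o) ^ 2 * w₂ o ∂C.μ := by
    rw [← integral_finsetSum _ fun i _ => i1 i]
    refine integral_congr_ae (ae_of_all _ fun o => ?_)
    change _ = ∑ i, ξ i (C.pt o) ^ 2 * w₂ o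
    rw [← Finset.sum_mul, ← umod_sq]
  have e2 : ∫ o, Gη C ξ o ∂C.μ = ∑ i, ∫ o, gn C (ξ i) o ^ 2 ∂C.μ := by
    rw [← integral_finsetSum _ fun i _ => int_gn_sq C (hξ i)]
    refine integral_congr_ae (ae_of_all _ fun o => ?_)
    unfold Gη
    refine Finset.sum_congr rfl fun i _ => (gn_sq' C _ o).symm
  rw [e1, e2]
  have h2 := Finset.sum_le_sum fun i (_ : i ∈ Finset.univ) => h1 i
  rw [Finset.sum_add_distrib] at h2
  simpa using h2

/-- **the hypothesis `hfar` of `mod_split`** -/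
theorem hfar_of [CompactSpace M] (C : Calc M γ) (hγ : Bd γ) (hR : RegAE C)
    {v : Fin 3 → M → ℝ} (hv : Sph γ v) (deg : ∫ o, jac C v o ∂C.μ = 2 * Real.pi) {f : Om → ℝ}
    (fint : Integrable f C.μ) (fnu : ∀ᵐ o ∂C.μ, nuC C v o ≤ f o) {X : ℝ} (fX : ∫ o, f o ∂C.μ ≤ X)
    (hX : X < 2 * Real.pi) {κ ε a₁ α₀ Rm q : ℝ} (hI : IsopO C κ ε) (hε : 0 ≤ ε) (hκ : 0 < κ)
    (ha : 0 < a₁) (hα₀ : X < α₀) (hRm : 0 < Rm)
    (hN : ∀ y, 0 ≤ y → y ≤ X → OutN X α₀ Rm y)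
    (hα : ∀ g : M → ℝ, Lip g → ∀ s, 0 ≤ s → a₁ ≤ supa C g s →
      α₀ - supw C g f s ≤ supw C g (jac C v) s)
    (hq : 0 < q) (hφ : 0 < phJ (q * a₁ / κ)) (hr : κ * FJ (q * a₁ / κ) * Rm ≤ 1)
    {η : Fin 3 → M → ℝ} (hη : ∀ i, Lip (η i)) (oη : ∀ i, FPM.OddB γ (η i)) {t : ℝ} (ht : 0 < t)
    {θ : Om → ℝ} (iθ : Integrable θ C.μ) (θ0 : ∀ o, 0 ≤ θ o) (θ1 : ∀ o, θ o ≤ 1)
    (hθ : ∫ o, θ o ∂C.μ = a₁) :
    q * ∫ o, min (umod η (C.pt o)) t ^ 2 * θ o ∂C.μ ≤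
      ∫ o, Gη C (utr t η) o ∂C.μ + 3 * q * ε * t ^ 2 := by
  have hb : ∀ i x, |utr t η i x| ≤ t := fun i x => by
    have h1 := abs_le_umod (utr t η) i x
    rw [utr_umod ht] at h1
    exact h1.trans (min_le_right _ _)
  have h := far_genN C hγ hR hv deg fint fnu fX hX hI hε hκ ha hα₀ hRm hN hα hq hφ le_rfl hr
    (m₂ := q * a₁) le_rfl (w₂ := fun o => q * θ o) (iθ.const_mul q)
    (ae_of_all _ fun o => mul_nonneg hq.le (θ0 o))
    (ae_of_all _ fun o => by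
      have := mul_le_mul_of_nonneg_left (θ1 o) hq.le
      linarith)
    (by rw [integral_const_mul, hθ])
    (fun i => lip_utr ht hη i) (odd_utr oη) ht.le hb
  simp only [utr_umod ht] at h
  have e : ∫ o, min (umod η (C.pt o)) t ^ 2 * (q * θ o) ∂C.μ =
      q * ∫ o, min (umod η (C.pt o)) t ^ 2 * θ o ∂C.μ := by
    rw [← integral_const_mul]
    refine integral_congr_ae (ae_of_all _ fun o => ?_)
    change min (umod η (C.pt o)) t ^ 2 * (q * θ o) = q * (min (umod η (C.pt o)) t ^ 2 * θ o)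
    ring
  rw [e] at h
  linarith

end Pool.Agent.FPX
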