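import Mathlib
import Pool.Agent.FPX.FOU

/-
FOA (helper99): the far part with an abstract bound of the outer resistance (`OutA`): whatever way the
resistance outside the sets of area `a₁` is bounded, the rest of the far part is the same.
-/

open MeasureTheory Set Filter Topology
open scoped ENNReal NNReal

noncomputable section

namespace Pool.Agent.FPX

open Pool.Agent.EWD Pool.Agent.FPM

variable {M : Type} [MetricSpace M] {γ : ℝ → M}

/-- the resistance outside the superlevel sets of area at least `a₁` of odd functions is at most `Rm` -/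
def OutA (C : Calc M γ) (a₁ Rm : ℝ) : Prop :=
  ∀ χ : M → ℝ, Lip χ → EWD.OddB γ χ → ∀ t : ℝ, 0 ≤ t → (∀ s, 0 ≤ s → s < t → a₁ ≤ supa C χ s) →
    t ^ 2 ≤ Rm * ∫ o in {o | |χ (C.pt o)| < t}, gn C χ o ^ 2 ∂C.μ

/-- **the far part for one odd function** -/
theorem far_scalA (C : Calc M γ) {κ ε B a₁ Rm m₂ q : ℝ} (hI : IsopO C κ ε) (hε : 0 ≤ ε) (hκ : 0 < κ)
    (ha : 0 < a₁) (hO : OutA C a₁ Rm) (hRm : 0 < Rm)
    (hq : 0 < q) (hφ : 0 < phJ (q * a₁ / κ)) (hqB : q ≤ B)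
    (hr : κ * FJ (q * a₁ / κ) * Rm ≤ 1) (hm : m₂ ≤ q * a₁)
    {w₂ : Om → ℝ} (iw₂ : Integrable w₂ C.μ) (w₂0 : ∀ᵐ o ∂C.μ, 0 ≤ w₂ o) (w₂q : ∀ᵐ o ∂C.μ, w₂ o ≤ q)
    (w₂m : ∫ o, w₂ o ∂C.μ ≤ m₂)
    {R : ℝ} (hR0 : 0 ≤ R) {g : M → ℝ} (hg : Lip g) (og : EWD.OddB γ g) (gR : ∀ x, |g x| ≤ R) :
    ∫ o, g (C.pt o) ^ 2 * w₂ o ∂C.μ ≤ ∫ o, gn C g o ^ 2 ∂C.μ + B * ε * R ^ 2 := by
  have := C.fin
  have iG := int_gn_sq C hg
  have hB0 : 0 ≤ B := hq.le.trans hqB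
  have gR' : ∀ᵐ o ∂C.μ, |g (C.pt o)| ≤ R := ae_of_all _ fun o => gR (C.pt o)
  have Dn := coreD_unif hκ hq ha hqB hφ
  obtain ⟨k, ck, k0, kp, hc, hk⟩ := Dn.cert
  have hband : ∀ t, (∫ o in {o | t < |g (C.pt o)| ∧ |g (C.pt o)| ≤ R}, gn C g o ^ 2 ∂C.μ) +
      ∫ o in {o | |g (C.pt o)| < t}, gn C g o ^ 2 ∂C.μ ≤ ∫ o, gn C g o ^ 2 ∂C.μ := by
    intro t
    set A := {o | t < |g (C.pt o)|} with hA
    have h1 : ∫ o in {o | t < |g (C.pt o)| ∧ |g (C.pt o)| ≤ R}, gn C g o ^ 2 ∂C.μ ≤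
        ∫ o in A, gn C g o ^ 2 ∂C.μ :=
      setIntegral_mono_set iG.integrableOn (ae_of_all _ fun o => sq_nonneg _)
        (LE.le.eventuallyLE fun o ho => ho.1)
    have h2 : ∫ o in {o | |g (C.pt o)| < t}, gn C g o ^ 2 ∂C.μ ≤ ∫ o in Aᶜ, gn C g o ^ 2 ∂C.μ :=
      setIntegral_mono_set iG.integrableOn (ae_of_all _ fun o => sq_nonneg _)
        (LE.le.eventuallyLE fun o ho => not_lt.2 (le_of_lt (show |g (C.pt o)| < t from ho)))
    have h3 := integral_add_compl₀ (meas_abs_lt C hg t) iG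
    linarith
  have step : ∀ t, 0 ≤ t → t ≤ R → supa C g t ≤ a₁ → (∀ s, 0 ≤ s → s < t → a₁ ≤ supa C g s) →
      ∫ o, g (C.pt o) ^ 2 * w₂ o ∂C.μ ≤ ∫ o, gn C g o ^ 2 ∂C.μ + B * ε * R ^ 2 := by
    intro t t0 tR hta hcr
    have hcc : CoreCert C g w₂ (fun a => κ * a) ε (B * ε) 1 a₁ t (fun a => q * max a 0) k := by
      refine ⟨Dn.mono, Dn.zero, ck, k0, kp, ?_, ?_⟩
      · intro s _ hts
        have h1 : supw C g w₂ s ≤ q * supa C g s := by
          have h2 : ∫ o in {o | s < |g (C.pt o)|}, w₂ o ∂C.μ ≤ ∫ _ in {o | s < |g (C.pt o)|}, q ∂C.μ :=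
            setIntegral_mono_ae iw₂.integrableOn (integrable_const _).integrableOn w₂q
          rw [setIntegral_const, smul_eq_mul] at h2
          have h3 : supa C g s = C.μ.real {o | s < |g (C.pt o)|} := rfl
          have h4 : supw C g w₂ s = ∫ o in {o | s < |g (C.pt o)|}, w₂ o ∂C.μ := rfl
          rw [h3, h4]
          linarith
        have h5 := Dn.lip (supa C g s - ε) (supa C g s) (by linarith)
        have h6 : B * (supa C g s - (supa C g s - ε)) = B * ε := by ring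
        rw [h6] at h5
        have h7 : q * supa C g s ≤ q * max (supa C g s) 0 :=
          mul_le_mul_of_nonneg_left (le_max_left _ _) hq.le
        linarith
      · intro a h0 h1
        have h2 := hc a h0 h1
        have h3 : min (0 / 1 * a) (0 : ℝ) = 0 := by simp
        rw [h3, add_zero] at h2
        rw [one_mul]
        exact h2
    have h1 := comp_in C hg gR' iw₂ t0 tR zero_le_one hε (by positivity) hta
      (LevO.of_isop hI g hg og) hcc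
    have h2 := hO g hg og t t0 hcr
    have i3 : Integrable (fun o => g (C.pt o) ^ 2 * w₂ o) C.μ := by
      refine iw₂.bdd_mul (c := R ^ 2) ((aem_pt C hg).pow_const 2).aestronglyMeasurable ?_
      refine ae_of_all _ fun o => ?_
      rw [Real.norm_eq_abs, abs_pow]
      exact pow_le_pow_left₀ (abs_nonneg _) (gR _) 2
    have i4 : Integrable (fun o => min |g (C.pt o)| t ^ 2 * w₂ o) C.μ := by
      refine iw₂.bdd_mul (c := t ^ 2) ?_ (ae_of_all _ fun o => ?_)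
      · exact (((aem_pt C (lip_abs hg)).min aemeasurable_const).pow_const 2).aestronglyMeasurable
      · rw [Real.norm_eq_abs, abs_pow, abs_of_nonneg (le_min (abs_nonneg _) t0)]
        exact pow_le_pow_left₀ (le_min (abs_nonneg _) t0) (min_le_right _ _) 2
    have e6 : ∫ o, (g (C.pt o) ^ 2 - min |g (C.pt o)| t ^ 2) * w₂ o ∂C.μ =
        (∫ o, g (C.pt o) ^ 2 * w₂ o ∂C.μ) - ∫ o, min |g (C.pt o)| t ^ 2 * w₂ o ∂C.μ := by
      rw [← integral_sub i3 i4]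
      refine integral_congr_ae (ae_of_all _ fun o => ?_)
      ring
    have e7 : ∫ o, min |g (C.pt o)| t ^ 2 * w₂ o ∂C.μ ≤ t ^ 2 * m₂ := by
      have h3 : ∫ o, min |g (C.pt o)| t ^ 2 * w₂ o ∂C.μ ≤ ∫ o, t ^ 2 * w₂ o ∂C.μ := by
        refine integral_mono_ae i4 (iw₂.const_mul _) ?_
        filter_upwards [w₂0] with o hw0
        exact mul_le_mul_of_nonneg_right (pow_le_pow_left₀ (le_min (abs_nonneg _) t0)
          (min_le_right _ _) 2) hw0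
      rw [integral_const_mul] at h3
      exact h3.trans (mul_le_mul_of_nonneg_left w₂m (by positivity))
    rw [e6, one_mul, one_mul] at h1
    have h4 := hband t
    set S := ∫ u in (0 : ℝ)..a₁, k u with hS
    have h5 : m₂ + S ≤ κ * FJ (q * a₁ / κ) := by
      have h6 : min (0 / 1 * a₁) (0 : ℝ) = 0 := by simp
      rw [h6, add_zero, max_eq_left ha.le] at hk
      linarith
    have h6 : t ^ 2 * (m₂ + S) ≤ ∫ o in {o | |g (C.pt o)| < t}, gn C g o ^ 2 ∂C.μ := by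
      set E := ∫ o in {o | |g (C.pt o)| < t}, gn C g o ^ 2 ∂C.μ with hE
      have hE0 : 0 ≤ E := integral_nonneg fun o => by positivity
      have hF0 : 0 ≤ κ * FJ (q * a₁ / κ) := by
        have := ppJ_pos (q * a₁ / κ)
        unfold FJ
        positivity
      calc t ^ 2 * (m₂ + S) ≤ t ^ 2 * (κ * FJ (q * a₁ / κ)) :=
            mul_le_mul_of_nonneg_left h5 (sq_nonneg t)
        _ ≤ Rm * E * (κ * FJ (q * a₁ / κ)) := mul_le_mul_of_nonneg_right h2 hF0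
        _ = (κ * FJ (q * a₁ / κ) * Rm) * E := by ring
        _ ≤ 1 * E := mul_le_mul_of_nonneg_right hr hE0
        _ = E := one_mul _
    nlinarith
  rcases lt_or_ge (supa C g 0) a₁ with h0 | h0
  · exact step 0 le_rfl hR0 h0.le fun s h1 h2 => absurd h2 (not_lt.2 h1)
  · obtain ⟨t, t0, tR, ht1, ht2⟩ := crossing C gR' ha h0
    exact step t t0 tR ht1 ht2

/-- **the far part for an odd field** -/
theorem far_genA (C : Calc M γ) {κ ε B a₁ Rm m₂ q : ℝ} (hI : IsopO C κ ε) (hε : 0 ≤ ε) (hκ : 0 < κ)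
    (ha : 0 < a₁) (hO : OutA C a₁ Rm) (hRm : 0 < Rm)
    (hq : 0 < q) (hφ : 0 < phJ (q * a₁ / κ)) (hqB : q ≤ B)
    (hr : κ * FJ (q * a₁ / κ) * Rm ≤ 1) (hm : m₂ ≤ q * a₁)
    {w₂ : Om → ℝ} (iw₂ : Integrable w₂ C.μ) (w₂0 : ∀ᵐ o ∂C.μ, 0 ≤ w₂ o) (w₂q : ∀ᵐ o ∂C.μ, w₂ o ≤ q)
    (w₂m : ∫ o, w₂ o ∂C.μ ≤ m₂)
    {ξ : Fin 3 → M → ℝ} (hξ : ∀ i, Lip (ξ i)) (oξ : ∀ i, FPM.OddB γ (ξ i)) {R : ℝ} (hR0 : 0 ≤ R)
    (hb : ∀ i x, |ξ i x| ≤ R) :
    ∫ o, umod ξ (C.pt o) ^ 2 * w₂ o ∂C.μ ≤ ∫ o, Gη C ξ o ∂C.μ + 3 * (B * ε * R ^ 2) := by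
  have := C.fin
  have h1 : ∀ i, ∫ o, ξ i (C.pt o) ^ 2 * w₂ o ∂C.μ ≤
      ∫ o, gn C (ξ i) o ^ 2 ∂C.μ + B * ε * R ^ 2 := fun i =>
    far_scalA C hI hε hκ ha hO hRm hq hφ hqB hr hm iw₂ w₂0 w₂q w₂m
      hR0 (hξ i) (oξ i) (hb i)
  have i1 : ∀ i, Integrable (fun o => ξ i (C.pt o) ^ 2 * w₂ o) C.μ := fun i => by
    refine iw₂.bdd_mul (c := R ^ 2) ((aem_pt C (hξ i)).pow_const 2).aestronglyMeasurable ?_
    refine ae_of_all _ fun o => ?_
    rw [Real.norm_eq_abs, abs_pow]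
    exact pow_le_pow_left₀ (abs_nonneg _) (hb i _) 2
  have e1 : ∫ o, umod ξ (C.pt o) ^ 2 * w₂ o ∂C.μ =
      ∑ i, ∫ o, ξ i (C.pt o) ^ 2 * w₂ o ∂C.μ := by
    rw [← integral_finsetSum _ fun i _ => i1 i]
    refine integral_congr_ae (ae_of_all _ fun o => ?_)
    change _ = ∑ i, ξ i (C.pt o) ^ 2 * w₂ o
    rw [← Finset.sum_mul, ← umod_sq]
  have e2 : ∫ o, Gη C ξ o ∂C.μ = ∑ i, ∫ o, gn C (ξ i) o ^ 2 ∂C.μ := by
    rw [← integral_finsetSum _ fun i _ => int_gn_sq C (hξ i)]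
    refine integral_congr_ae (ae_of_all _ fun o => ?_)
    unfold Gη
    refine Finset.sum_congr rfl fun i _ => (gn_sq' C _ o).symm
  rw [e1, e2]
  have h2 := Finset.sum_le_sum fun i (_ : i ∈ Finset.univ) => h1 i
  rw [Finset.sum_add_distrib] at h2
  simpa using h2

/-- the hypothesis `hfar` of `mod_split`, as a predicate -/
def HFar (C : Calc M γ) (a₁ q ε : ℝ) : Prop :=
  ∀ η : Fin 3 → M → ℝ, (∀ i, Lip (η i)) → (∀ i, FPM.OddB γ (η i)) → ∀ t : ℝ, 0 < t →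
    ∀ θ : Om → ℝ, Integrable θ C.μ → (∀ o, 0 ≤ θ o) → (∀ o, θ o ≤ 1) → ∫ o, θ o ∂C.μ = a₁ →
    q * ∫ o, min (umod η (C.pt o)) t ^ 2 * θ o ∂C.μ ≤ ∫ o, Gη C (utr t η) o ∂C.μ + 3 * q * ε * t ^ 2

/-- **`HFar` from a bound of the outer resistance** -/
theorem hfar_ofA [CompactSpace M] (C : Calc M γ) {κ ε a₁ Rm q : ℝ} (hI : IsopO C κ ε) (hε : 0 ≤ ε) (hκ : 0 < κ)
    (ha : 0 < a₁) (hO : OutA C a₁ Rm) (hRm : 0 < Rm)
    (hq : 0 < q) (hφ : 0 < phJ (q * a₁ / κ)) (hr : κ * FJ (q * a₁ / κ) * Rm ≤ 1) :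
    HFar C a₁ q ε := by
  intro η hη oη t ht θ iθ θ0 θ1 hθ
  have hb : ∀ i x, |utr t η i x| ≤ t := fun i x => by
    have h1 := abs_le_umod (utr t η) i x
    rw [utr_umod ht] at h1
    exact h1.trans (min_le_right _ _)
  have h := far_genA C hI hε hκ ha hO hRm hq hφ le_rfl hr
    (m₂ := q * a₁) le_rfl (w₂ := fun o => q * θ o) (iθ.const_mul q)
    (ae_of_all _ fun o => mul_nonneg hq.le (θ0 o))
    (ae_of_all _ fun o => by
      have := mul_le_mul_of_nonneg_left (θ1 o) hq.le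
      linarith)
    (by rw [integral_const_mul, hθ])
    (fun i => lip_utr ht hη i) (odd_utr oη) ht.le hb
  simp only [utr_umod ht] at h
  have e : ∫ o, min (umod η (C.pt o)) t ^ 2 * (q * θ o) ∂C.μ =
      q * ∫ o, min (umod η (C.pt o)) t ^ 2 * θ o ∂C.μ := by
    rw [← integral_const_mul]
    refine integral_congr_ae (ae_of_all _ fun o => ?_)
    change min (umod η (C.pt o)) t ^ 2 * (q * θ o) = q * (min (umod η (C.pt o)) t ^ 2 * θ o)
    ring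
  rw [e] at h
  linarith

end Pool.Agent.FPX
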