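import Mathlib
import Pool.Agent.FPX.FOA
import Pool.Agent.FPX.IMX

/-
FOI (helper99): the outer resistance by the isoperimetric inequality alone: `log (2π / (a₁ - ε)) / κ`.
-/

open MeasureTheory Set Filter Topology
open scoped ENNReal NNReal

noncomputable section

namespace Pool.Agent.FPX

open Pool.Agent.EWD Pool.Agent.FPM

variable {M : Type} [MetricSpace M] {γ : ℝ → M}

/-- the resistance -/
def ioR (κ ε V δ : ℝ) (x : Fin 2 → ℝ) : ℝ := (Real.log V - Real.log (x 0 - ε)) / κ + δ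

/-- the function of Hamilton and Jacobi -/
def ioS (κ ε V δ : ℝ) (t : ℝ) (x : Fin 2 → ℝ) : ℝ := -t ^ 2 * (ioR κ ε V δ x)⁻¹

/-- its derivative -/
def ioS' (κ ε V δ : ℝ) (t : ℝ) (x : Fin 2 → ℝ) : (ℝ × (Fin 2 → ℝ)) →L[ℝ] ℝ :=
  (-2 * t * (ioR κ ε V δ x)⁻¹) • ContinuousLinearMap.fst ℝ ℝ (Fin 2 → ℝ) -
    (t ^ 2 * (ioR κ ε V δ x ^ 2)⁻¹ * (κ * (x 0 - ε))⁻¹) •
      ((ContinuousLinearMap.proj 0).comp (ContinuousLinearMap.snd ℝ ℝ (Fin 2 → ℝ)))

theorem ioS'_one (κ ε V δ t : ℝ) (x : Fin 2 → ℝ) :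
    ioS' κ ε V δ t x (1, 0) = -2 * t * (ioR κ ε V δ x)⁻¹ := by
  simp [ioS']

theorem ioS'_two (κ ε V δ t : ℝ) (x y : Fin 2 → ℝ) :
    ioS' κ ε V δ t x (0, y) = -(t ^ 2 * (ioR κ ε V δ x ^ 2)⁻¹ * (κ * (x 0 - ε))⁻¹ * y 0) := by
  simp [ioS']

theorem ioS_has {κ ε V δ : ℝ} {t : ℝ} {x : Fin 2 → ℝ} (hκ : 0 < κ) (hx : 0 < x 0 - ε)
    (h0 : ioR κ ε V δ x ≠ 0) :
    HasFDerivAt (fun z : ℝ × (Fin 2 → ℝ) => ioS κ ε V δ z.1 z.2) (ioS' κ ε V δ t x) (t, x) := by
  have e1 : HasFDerivAt (fun z : ℝ × (Fin 2 → ℝ) => z.2 0)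
      ((ContinuousLinearMap.proj 0).comp (ContinuousLinearMap.snd ℝ ℝ (Fin 2 → ℝ))) (t, x) :=
    (((ContinuousLinearMap.proj (R := ℝ) (φ := fun _ : Fin 2 => ℝ) 0).comp
      (ContinuousLinearMap.snd ℝ ℝ (Fin 2 → ℝ))).hasFDerivAt)
  have e0 : HasFDerivAt (fun z : ℝ × (Fin 2 → ℝ) => z.1)
      (ContinuousLinearMap.fst ℝ ℝ (Fin 2 → ℝ)) (t, x) := hasFDerivAt_fst
  have e3 : HasFDerivAt (fun z : ℝ × (Fin 2 → ℝ) => Real.log (z.2 0 - ε)) _ (t, x) :=
    (e1.sub_const ε).log hx.ne'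
  have e4 : HasFDerivAt (fun z : ℝ × (Fin 2 → ℝ) => (Real.log V - Real.log (z.2 0 - ε)) * κ⁻¹ + δ) _
      (t, x) := ((e3.const_sub (Real.log V)).mul_const κ⁻¹).add_const δ
  have h0' : (Real.log V - Real.log (x 0 - ε)) * κ⁻¹ + δ ≠ 0 := by
    have : (Real.log V - Real.log (x 0 - ε)) * κ⁻¹ + δ = ioR κ ε V δ x := by
      unfold ioR
      rw [div_eq_mul_inv]
    rwa [this]
  have e5 : HasFDerivAt (fun z : ℝ × (Fin 2 → ℝ) =>
      ((Real.log V - Real.log (z.2 0 - ε)) * κ⁻¹ + δ)⁻¹) _ (t, x) :=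
    (hasDerivAt_inv (x := (Real.log V - Real.log (x 0 - ε)) * κ⁻¹ + δ) h0').comp_hasFDerivAt (t, x) e4
  have e6 : HasFDerivAt (fun z : ℝ × (Fin 2 → ℝ) => -z.1 ^ 2) _ (t, x) := (e0.pow 2).neg
  have e7 := e6.mul e5
  refine (e7.congr_fderiv ?_).congr_of_eventuallyEq (Eventually.of_forall fun z => ?_)
  · refine ContinuousLinearMap.ext fun z => ?_
    have hx' : x 0 - ε ≠ 0 := hx.ne'
    simp [ioS', ioR, div_eq_mul_inv]
    ring
  · simp [ioS, ioR, div_eq_mul_inv]

/-- **the outer resistance by area** -/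
theorem outA_iso [CompactSpace M] (C : Calc M γ) (hγ : Bd γ) (hR : RegAE C) {v : Fin 3 → M → ℝ}
    (hv : Sph γ v) {κ ε V : ℝ} (hκ : 0 < κ) (hε : 0 ≤ ε) (hI : IsopO C κ ε) (hV : C.μ.real univ ≤ V)
    {a₁ Rm : ℝ} (ha : ε < a₁) (hRm : 0 < Rm) (hr : Real.log V - Real.log (a₁ - ε) ≤ κ * Rm) :
    OutA C a₁ Rm := by
  intro χ hχ oχ t ht hc
  have := C.fin
  have hpi := Real.pi_pos
  have iJ : Integrable (jac C v) C.μ := jac_integrable C hv
  have iG : Integrable (fun o => gn C χ o ^ 2) C.μ := int_gn_sq C hχ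
  set E := ∫ o in {o | |χ (C.pt o)| < t}, gn C χ o ^ 2 ∂C.μ with hE
  have hE0 : 0 ≤ E := integral_nonneg fun o => by positivity
  have hmeas : ∀ t, NullMeasurableSet {o | -|χ (C.pt o)| < t} C.μ := fun t =>
    meas_pt_lt C (lip_abs hχ).neg t
  have hlow : ∀ s, 0 ≤ s → s < t → s ^ 2 ≤ Rm * E := by
    intro τ hτ hτt
    have hτa := hc τ hτ hτt
    have key : ∀ δ : ℝ, 0 < δ → τ ^ 2 ≤ (Rm + δ) * E := by
      intro δ hδ
      set γs : Fin 2 → Om → ℝ := ![fun _ => 1, jac C v] with hγs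
      have hn0 : ∀ s, nlev C χ (γs 0) s = C.μ.real {o | -|χ (C.pt o)| < s} := by
        intro s
        change ∫ _ in {o | -|χ (C.pt o)| < s}, (1 : ℝ) ∂C.μ = _
        rw [setIntegral_const, smul_eq_mul, mul_one]
      set Ds : Set (Fin 2 → ℝ) := {x | a₁ ≤ x 0 ∧ x 0 ≤ V} with hDs
      have hconv : Convex ℝ Ds := by
        intro x hx y hy a b ha0 hb0 hab
        obtain ⟨x1, x2⟩ := hx
        obtain ⟨y1, y2⟩ := hy
        have hb : b = 1 - a := by linarith
        refine ⟨?_, ?_⟩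
        · simp only [Pi.add_apply, Pi.smul_apply, smul_eq_mul]
          have h1 := mul_le_mul_of_nonneg_left x1 ha0
          have h2 := mul_le_mul_of_nonneg_left y1 hb0
          rw [hb] at h2 ⊢
          linarith
        · simp only [Pi.add_apply, Pi.smul_apply, smul_eq_mul]
          have h1 := mul_le_mul_of_nonneg_left x2 ha0
          have h2 := mul_le_mul_of_nonneg_left y2 hb0
          rw [hb] at h2 ⊢
          linarith
      have hxε : ∀ x ∈ Ds, 0 < x 0 - ε := fun x hx => by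
        have := hx.1
        linarith
      have hRpos : ∀ x ∈ Ds, δ ≤ ioR κ ε V δ x := by
        intro x hx
        have h1 := hxε x hx
        have h2 : Real.log (x 0 - ε) ≤ Real.log V := Real.log_le_log h1 (by linarith [hx.2])
        have h3 : 0 ≤ (Real.log V - Real.log (x 0 - ε)) / κ := div_nonneg (by linarith) hκ.le
        unfold ioR
        linarith
      have hFD : ∀ s, -τ ≤ s → s ≤ 0 → (fun i => nlev C χ (γs i) s) ∈ Ds := by
        intro s hs hs0
        refine ⟨?_, ?_⟩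
        · change a₁ ≤ nlev C χ (γs 0) s
          rw [hn0]
          refine hτa.trans ?_
          have e : supa C χ τ = C.μ.real {o | τ < |χ (C.pt o)|} := rfl
          rw [e]
          refine measureReal_mono ?_
          intro o ho
          have h1 : τ < |χ (C.pt o)| := ho
          change -|χ (C.pt o)| < s
          linarith
        · change nlev C χ (γs 0) s ≤ V
          rw [hn0]
          exact (measureReal_mono (subset_univ _)).trans hV
      have hmain := odd_hj C hγ hR hv hχ oχ hI (ι := Fin 2) (γs := γs) (i0 := 0) (i1 := 1)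
        (pot := fun _ => 0) (c := 1) (r0 := -τ) (r1 := 0) (L := 2 * τ * δ⁻¹) (D := Ds)
        (S := ioS κ ε V δ) (S' := ioS' κ ε V δ)
        (by
          intro i
          fin_cases i
          · exact integrable_const (1 : ℝ)
          · exact iJ)
        rfl rfl (integrable_const (0 : ℝ)) one_pos (by linarith) le_rfl (by positivity) hconv
        (fun s h1 h2 => hFD s h1 h2)
        (fun s x h1 h2 hx => ioS_has hκ (hxε x hx) (lt_of_lt_of_le hδ (hRpos x hx)).ne')
        (by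
          intro s x h1 h2 hx
          rw [ioS'_one]
          have h3 := hRpos x hx
          have h4 : (ioR κ ε V δ x)⁻¹ ≤ δ⁻¹ := inv_anti₀ hδ h3
          have h5 : 0 ≤ (ioR κ ε V δ x)⁻¹ := inv_nonneg.2 (hδ.le.trans h3)
          have h6 : -2 * s ≤ 2 * τ := by linarith
          exact mul_le_mul h6 h4 h5 (by positivity))
        (by
          refine ae_of_all _ fun o s x h1 hx h2 h3 => ?_
          rw [ioS'_two]
          have h4 : 0 ≤ s ^ 2 * (ioR κ ε V δ x ^ 2)⁻¹ * (κ * (x 0 - ε))⁻¹ * γs 0 o := by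
            have := hxε x hx
            have e : γs 0 o = 1 := rfl
            rw [e]
            positivity
          have h7 : 0 ≤ 2 * τ * δ⁻¹ * (s + |χ (C.pt o)|) := mul_nonneg (by positivity) (by linarith)
          linarith)
        (by
          refine ae_of_all _ fun s h1 h2 l V' hl hV' hll _ => ?_
          set x : Fin 2 → ℝ := fun i => nlev C χ (γs i) s with hx
          have hxD : x ∈ Ds := hFD s h1.le h2.le
          set ρ := ioR κ ε V δ x with hρ
          have hρp : 0 < ρ := lt_of_lt_of_le hδ (hRpos x hxD)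
          have e1 : nlev C χ (γs 0) s = x 0 := rfl
          rw [e1] at hll
          set y := κ * (x 0 - ε) with hy
          have hyp : 0 < y := mul_pos hκ (hxε x hxD)
          have hsq : 0 < √y := Real.sqrt_pos.2 hyp
          have hls : √y ≤ l := by
            rw [← Real.sqrt_sq hl]
            exact Real.sqrt_le_sqrt hll
          refine ⟨-2 * s * ρ⁻¹ * (√y)⁻¹, 0, ?_, le_rfl, ?_, 1, one_pos, ?_⟩
          · have : 0 ≤ -2 * s := by linarith
            positivity
          · rw [ioS'_one, zero_mul, add_zero]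
            have h3 : 0 ≤ -2 * s * ρ⁻¹ := by
              have : 0 ≤ -2 * s := by linarith
              positivity
            calc -2 * s * ρ⁻¹ = -2 * s * ρ⁻¹ * ((√y)⁻¹ * √y) := by
                  rw [inv_mul_cancel₀ hsq.ne', mul_one]
              _ ≤ -2 * s * ρ⁻¹ * ((√y)⁻¹ * l) :=
                  mul_le_mul_of_nonneg_left (mul_le_mul_of_nonneg_left hls (by positivity)) h3
              _ = _ := by ring
          · refine ae_of_all _ fun o h3 h4 => ?_
            rw [ioS'_two]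
            have e2 : (-2 * s * ρ⁻¹ * (√y)⁻¹ + 0 * opn C v o) ^ 2 = 4 * (s ^ 2 * (ρ ^ 2)⁻¹ * y⁻¹) := by
              have e3 : ((√y)⁻¹) ^ 2 = y⁻¹ := by
                rw [inv_pow, Real.sq_sqrt hyp.le]
              have e4 : (-2 * s * ρ⁻¹ * (√y)⁻¹ + 0 * opn C v o) ^ 2 =
                4 * (s ^ 2 * (ρ⁻¹) ^ 2 * ((√y)⁻¹) ^ 2) := by ring
              rw [e4, e3, inv_pow]
            rw [e2]
            have h7 : 0 ≤ 2 * τ * δ⁻¹ * (-|χ (C.pt o)| - s) := mul_nonneg (by positivity) (by linarith)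
            change _ ≤ 4 * 1 * (0 - -(s ^ 2 * (ρ ^ 2)⁻¹ * y⁻¹ * 1) + _)
            nlinarith)
      -- conclusion
      set A : Set Om := {o | -τ ≤ -|χ (C.pt o)| ∧ -|χ (C.pt o)| < 0} with hA
      have hAB : ∫ o in A, gn C χ o ^ 2 ∂C.μ ≤ E := by
        refine setIntegral_mono_set iG.integrableOn (ae_of_all _ fun o => by positivity) ?_
        refine LE.le.eventuallyLE fun o ho => ?_
        have h1 : -τ ≤ -|χ (C.pt o)| := ho.1
        change |χ (C.pt o)| < t
        linarith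
      have hQ : ∫ o in A, (0 + 1 * gn C χ o ^ 2) ∂C.μ = ∫ o in A, gn C χ o ^ 2 ∂C.μ := by
        refine integral_congr_ae (ae_of_all _ fun o => ?_)
        change 0 + 1 * gn C χ o ^ 2 = _
        ring
      rw [hQ] at hmain
      set x : Fin 2 → ℝ := fun i => nlev C χ (γs i) (-τ) with hx
      have hxD : x ∈ Ds := hFD (-τ) le_rfl (by linarith)
      have hrp : 0 < ioR κ ε V δ x := lt_of_lt_of_le hδ (hRpos x hxD)
      have hrR : ioR κ ε V δ x ≤ Rm + δ := by
        have h1 : Real.log (a₁ - ε) ≤ Real.log (x 0 - ε) :=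
          Real.log_le_log (by linarith) (by linarith [hxD.1])
        have h2 : (Real.log V - Real.log (x 0 - ε)) / κ ≤ Rm := by
          rw [div_le_iff₀ hκ]
          linarith
        unfold ioR
        linarith
      unfold ioS at hmain
      have h1 : τ ^ 2 * (ioR κ ε V δ x)⁻¹ ≤ E := by
        refine le_trans (le_of_eq ?_) (hmain.trans hAB)
        ring
      rw [← div_eq_mul_inv, div_le_iff₀ hrp] at h1
      have h2 := mul_le_mul_of_nonneg_left hrR hE0
      linarith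
    have hlim : Tendsto (fun d : ℝ => (Rm + d) * E) (𝓝[>] 0) (𝓝 ((Rm + 0) * E)) := by
      have hcn : Continuous fun d : ℝ => (Rm + d) * E := by fun_prop
      exact (hcn.tendsto 0).mono_left nhdsWithin_le_nhds
    have h2 := ge_of_tendsto hlim (b := τ ^ 2) (by
      filter_upwards [self_mem_nhdsWithin] with d hd
      exact key d hd)
    rwa [add_zero] at h2
  rcases ht.eq_or_lt with h0 | h0
  · rw [← h0]
    have : 0 ≤ Rm * E := mul_nonneg hRm.le hE0
    simpa using this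
  · have hlim : Tendsto (fun s : ℝ => s ^ 2) (𝓝[<] t) (𝓝 (t ^ 2)) :=
      ((continuous_pow 2).tendsto t).mono_left nhdsWithin_le_nhds
    refine le_of_tendsto hlim ?_
    filter_upwards [Ioo_mem_nhdsLT h0] with s hs
    exact hlow s hs.1.le hs.2

end Pool.Agent.FPX
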