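import Mathlib
import Pool.Agent.FPX.FINP
import Pool.Agent.FPX.FINM
import Pool.Agent.FPX.FOI
import Pool.Agent.FPM.IE58

/-
FINC (helper28): one cell of the modulus closing. Areas of the levels = fractions `ρ k` of half of the
volume; isoperimetric inequalities with `10000/5439 π` (odd and even); the far part by the isoperimetric
inequality alone (`far_half`); `cellM_of`: from the core (`CoreCell`) and the scalar conditions to `CellM`.
-/

open MeasureTheory Set Filter Topology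
open scoped ENNReal NNReal

noncomputable section

namespace Pool.Agent.FPX

open Pool.Agent.EWD Pool.Agent.FPM

variable {M : Type} [MetricSpace M] {γ : ℝ → M}

/-! ### scaling of the areas -/

theorem Psb_scale {l c K κ x r : ℝ} (hr : 0 < r) (hx : 0 < x) :
    Psb l (c / r) K κ (r * x) = Psb l c K κ x + l ^ 2 * Real.log r / (K * κ) := by
  unfold Psb
  rw [Real.log_mul hr.ne' hx.ne']
  have e1 : 2 * l * (c / r) * (r * x) = 2 * l * c * x := by
    field_simp
  have e2 : (c / r) ^ 2 * (r * x) ^ 2 = c ^ 2 * x ^ 2 := by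
    field_simp
  rw [e1, e2]
  ring

theorem gcost_scale {α w l : ℕ → ℝ} {n : ℕ} {q κ r : ℝ} (hr : 0 < r) (hα : ∀ k, 0 < α k) :
    gcost (fun k => r * α k) w n (q / r) κ l = gcost α w n q κ l := by
  unfold gcost
  have h0 := hα 0
  have e0 : q / r * (r * α 0) = q * α 0 := by field_simp
  rw [e0]
  congr 1
  refine Finset.sum_congr rfl fun k _ => ?_
  have e1 : l 0 * gkw w n k / (r * α 0) = l 0 * gkw w n k / α 0 / r := by
    rw [div_div, mul_comm (α 0) r]
  rw [e1, Psb_scale hr (hα k), Psb_scale hr (hα (k + 1))]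
  ring

theorem ExtC.scale {α w : ℕ → ℝ} {n : ℕ} {q κ h0 h1 Q r : ℝ} (h : ExtC α w n q κ h0 h1 Q) (hr : 0 < r)
    (hα : ∀ k, 0 < α k) : ExtC (fun k => r * α k) w n (q / r) κ h0 h1 Q := by
  obtain ⟨μ, ζ, c1, c2, c3, c4⟩ := h
  refine ⟨μ, ζ, c1, fun k hk => ?_, by rwa [gcost_scale hr hα], by rwa [gcost_scale hr hα]⟩
  have h1 := mul_le_mul_of_nonneg_left (c2 k hk) hr.le
  calc mvec w n μ ζ 0 * gkw w n k * (r * α k) = r * (mvec w n μ ζ 0 * gkw w n k * α k) := by ring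
    _ ≤ r * (α 0 * mvec w n μ ζ (k + 1)) := h1
    _ = r * α 0 * mvec w n μ ζ (k + 1) := by ring

/-! ### isoperimetric inequalities -/

/-- **even functions, areas at most half of the volume** -/
theorem isopE_half (C : Calc M γ) {κ ε : ℝ} (h : Isop C κ ε) : IsopE C κ (C.vol / 2) ε := by
  have := C.fin
  intro f hf he
  filter_upwards [h f hf he, ae_level (C.meas_pt hf)] with t ht t4
  refine ⟨ht.1, fun ha => ?_⟩
  have e1 : sup' C f t = (C.μ {o | t < f (C.pt o)}).toReal := by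
    unfold sup'
    congr 1
    refine le_antisymm ?_ (measure_mono fun o ho => le_of_lt (show t < f (C.pt o) from ho))
    have h1 : {o | t ≤ f (C.pt o)} ⊆ {o | t < f (C.pt o)} ∪ {o | f (C.pt o) = t} := by
      intro o ho
      rcases (show t ≤ f (C.pt o) from ho).lt_or_eq with h | h
      · exact Or.inl h
      · exact Or.inr h.symm
    refine (measure_mono h1).trans ((measure_union_le _ _).trans ?_)
    rw [t4, add_zero]
  have h2 := ht.2
  rw [e1, min_eq_left (by linarith)] at h2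
  exact h2

theorem IsopO.mono_k {C : Calc M γ} {κ κ' ε : ℝ} (h : IsopO C κ ε) (hκ' : 0 ≤ κ') (hκ : κ' ≤ κ) :
    IsopO C κ' ε := by
  intro g hg ho
  filter_upwards [h g hg ho] with t ht h0
  obtain ⟨h1, h2⟩ := ht h0
  refine ⟨h1, ?_⟩
  rcases le_or_gt 0 ((C.μ {o | t < |g (C.pt o)|}).toReal - ε) with h3 | h3
  · exact (mul_le_mul_of_nonneg_right hκ h3).trans h2
  · have h4 : κ' * ((C.μ {o | t < |g (C.pt o)|}).toReal - ε) ≤ 0 :=
      mul_nonpos_of_nonneg_of_nonpos hκ' h3.le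
    exact h4.trans (sq_nonneg _)

/-- a lower bound of the volume from the energy -/
theorem vol_lower [CompactSpace M] (C : Calc M γ) {v : Fin 3 → M → ℝ} (hv : Sph γ v)
    (deg : ∫ o, jac C v o ∂C.μ = 2 * Real.pi) {E : ℝ}
    (en : ∀ᵐ o ∂C.μ, ‖dx C v o‖ ^ 2 + ‖dy C v o‖ ^ 2 ≤ 2 * E) : 2 * Real.pi ≤ E * C.vol := by
  have := C.fin
  have hpi := Real.pi_pos
  have h1 := S2_ge_jac C hv
  rw [deg, abs_of_pos (by positivity)] at h1
  have h2 : ∫ o, S2 C v o ∂C.μ ≤ ∫ _, 2 * E ∂C.μ := by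
    refine integral_mono_ae (S2_int C hv.lip) (integrable_const _) ?_
    filter_upwards [en] with o ho
    exact ho
  rw [integral_const, smul_eq_mul] at h2
  have h3 : C.μ.real univ = C.vol := rfl
  rw [h3] at h2
  linarith

/-! ### the far part by area alone -/

/-- **the far part**: weights of mass at most half of the volume, `q = 2 κ' z / vol` -/
theorem far_half [CompactSpace M] (C : Calc M γ) (hγ : Bd γ) (hR : RegAE C) {v : Fin 3 → M → ℝ}
    (hv : Sph γ v) {κ' ε z V₀ : ℝ} (hκ' : 0 < κ') (hI : IsopO C κ' ε) (hε : 0 ≤ ε) (hz : 0 < z)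
    (hφ : 0 < phJ z) (hV₀ : 0 < V₀) (hV : V₀ ≤ C.vol) (hs : ε ≤ V₀ * (1 / 2 - Real.exp (-(1 / FJ z))))
    (hs' : ε < V₀ / 2)
    {ξ : Fin 3 → M → ℝ} (hξ : ∀ i, Lip (ξ i)) (oξ : ∀ i, FPM.OddB γ (ξ i))
    (hb : ∀ i x, |ξ i x| ≤ 8) {θ : Om → ℝ} (iθ : Integrable θ C.μ) (θ0 : ∀ o, 0 ≤ θ o)
    (θ1 : ∀ o, θ o ≤ 1) (hθ : ∫ o, θ o ∂C.μ ≤ C.vol / 2) :
    κ' * z / (C.vol / 2) * ∫ o, umod ξ (C.pt o) ^ 2 * θ o ∂C.μ ≤
      ∫ o, Gη C ξ o ∂C.μ + 384 * κ' * z / V₀ * ε := by
  have hvp : 0 < C.vol := hV₀.trans_le hV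
  set q := κ' * z / (C.vol / 2) with hq
  have q0 : 0 < q := by positivity
  have hF : 0 < FJ z := by
    unfold FJ
    have := ppJ_pos z
    positivity
  have e1 : q * (C.vol / 2) / κ' = z := by
    rw [hq]
    field_simp
  set Rm := 1 / (κ' * FJ z) with hRm
  have Rm0 : 0 < Rm := by positivity
  have hout : OutA C (C.vol / 2) Rm := by
    refine outA_iso C hγ hR hv hκ' hε hI (V := C.vol) le_rfl (by linarith) Rm0 ?_
    have e2 : κ' * Rm = 1 / FJ z := by
      rw [hRm]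
      field_simp
    rw [e2]
    have h1 : 0 < C.vol / 2 - ε := by linarith
    have h3 : ε ≤ C.vol * (1 / 2 - Real.exp (-(1 / FJ z))) := by
      rcases le_or_gt 0 (1 / 2 - Real.exp (-(1 / FJ z))) with h4 | h4
      · exact hs.trans (mul_le_mul_of_nonneg_right hV h4)
      · have : V₀ * (1 / 2 - Real.exp (-(1 / FJ z))) < 0 := mul_neg_of_pos_of_neg hV₀ h4
        linarith
    have h2 : C.vol * Real.exp (-(1 / FJ z)) ≤ C.vol / 2 - ε := by linarith
    have h5 := Real.log_le_log (by positivity) h2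
    rw [Real.log_mul hvp.ne' (Real.exp_pos _).ne', Real.log_exp] at h5
    linarith
  have key := far_genA C hI hε hκ' (by positivity) hout Rm0 q0 (by rw [e1]; exact hφ) le_rfl
    (by
      rw [e1, hRm]
      have : κ' * FJ z * (1 / (κ' * FJ z)) = 1 := by field_simp
      rw [this]) (m₂ := q * (C.vol / 2)) le_rfl (w₂ := fun o => q * θ o) (iθ.const_mul q)
    (ae_of_all _ fun o => mul_nonneg q0.le (θ0 o))
    (ae_of_all _ fun o => by
      have := mul_le_mul_of_nonneg_left (θ1 o) q0.le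
      linarith)
    (by
      rw [integral_const_mul]
      exact mul_le_mul_of_nonneg_left hθ q0.le) hξ oξ (R := 8) (by norm_num) hb
  have e3 : ∫ o, umod ξ (C.pt o) ^ 2 * (q * θ o) ∂C.μ = q * ∫ o, umod ξ (C.pt o) ^ 2 * θ o ∂C.μ := by
    rw [← integral_const_mul]
    refine integral_congr_ae (ae_of_all _ fun o => ?_)
    change umod ξ (C.pt o) ^ 2 * (q * θ o) = q * (umod ξ (C.pt o) ^ 2 * θ o)
    ring
  rw [e3] at key
  have h6 : 3 * (q * ε * 8 ^ 2) ≤ 384 * κ' * z / V₀ * ε := by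
    have h7 : q ≤ κ' * z / (V₀ / 2) := by
      rw [hq]
      exact div_le_div_of_nonneg_left (by positivity) (by positivity) (by linarith)
    have h8 : 384 * κ' * z / V₀ * ε = 192 * (κ' * z / (V₀ / 2)) * ε := by
      field_simp
      ring
    rw [h8]
    have := mul_le_mul_of_nonneg_right h7 hε
    linarith
  linarith

/-! ### one cell -/

/-- **the core of one cell**: integrand and value functions up to any error. `ρ n * (vol / 2)` = area of
the core -/
def CoreCell (Ee cl cu Xc ks ρn bb : ℝ) {I : Type} (d : I → MPc) : Prop :=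
  ∀ δ : ℝ, 0 < δ → ∀ cm : ℝ, ∃ ε₂ : ℝ, 0 < ε₂ ∧ ∀ (M : Type) [MetricSpace M] [CompactSpace M]
    [Nonempty M] (γ : ℝ → M) (C : Calc M γ) (ε : ℝ), 0 < ε → ε ≤ ε₂ → NearM C ε → C.vol < 2 * Real.pi →
    ∀ (c : ℝ) (v : Fin 3 → M → ℝ), cl ≤ c → c ≤ cu → PairX C Ee Xc cm c v →
    ∀ T : Fin 3 → M → ℝ, Pre γ T → TZ C 2 1 7 T → ∃ q : Om → ℝ, Integrable q C.μ ∧
      (∀ᵐ o ∂C.μ, QLow (at' C v o) (dx C v o) (dy C v o) (dx C T o) (dy C T o) (q o)) ∧
      (∀ᵐ o ∂C.μ, Gη C (eta v T) o + (1 - 4 * umod (eta v T) (C.pt o)) *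
        nuN C v (2 * Real.exp c ^ 2) o ≤ Fq C 2 q v T (2 * Real.exp c ^ 2) o) ∧
      ∀ i, CoreV C (eta v T) (Fq C 2 q v T (2 * Real.exp c ^ 2)) (fun _ => 0)
          (nuN C v (2 * Real.exp c ^ 2)) 8 (d i).s0 (d i).s1 (d i).h1 (C.vol / 2 * ρn) (d i).V δ ∧
        CoreK C (eta v T) (Fq C 2 q v T (2 * Real.exp c ^ 2)) (fun _ => 0)
          (nuN C v (2 * Real.exp c ^ 2)) 8 (d i).s0 (d i).s1 (d i).h1 (C.vol / 2 * ρn) bb ks
          (d i).VK δ

theorem Lc_mono {Ee c c' : ℝ} (h : c ≤ c') : Lc Ee c ≤ Lc Ee c' := by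
  unfold Lc
  have := Real.exp_le_exp.2 h
  gcongr

/-- **one cell of the modulus closing** -/
theorem cellM_of {κ Ee σ cl cu Xc k : ℝ} {ks κ' z ab bb τ qs β N : ℝ} {n : ℕ} {ρ w : ℕ → ℝ} {I : Type}
    {d : I → MPc} {Qf : I → ℝ} (hκ : 0 < κ) (hE : 0 ≤ Ee) (hσ : 0 < σ) (hX0 : 0 ≤ Xc)
    (hks0 : 0 ≤ ks) (hks : k ≤ σ * ks)
    (hκ'0 : 0 < κ') (hκ' : κ' < 10000 / 5439 * Real.pi) (hz : 0 < z) (hφ : 0 < phJ z)
    (hzF : FJ z * Real.log 2 < 1) (hN : 2 * Real.exp cu ^ 2 ≤ N)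
    (hqs : qs ≤ σ * (1 - Real.exp (-cl))) (hτq : τ + 1 / 4 ≤ qs) (hτ0 : 0 < τ)
    (hτ : 4 * Lc Ee cu ^ 2 * bb ≤ κ * τ ^ 2) (hbb : 0 < bb)
    (ρ0 : ρ 0 = 1) (ρp : ∀ j, 0 < ρ j) (ρd : ∀ j, j < n → ρ (j + 1) < ρ j)
    (hab : Real.pi * ρ n ≤ ab) (w0 : ∀ j, 0 ≤ w j)
    (hw : ∑ j ∈ Finset.range (n + 1), w j = 1) (hw0 : 0 < w 0) (hβ : β ≤ 1)
    (hd : ∀ i, 0 ≤ (d i).h1 ∧ 1 / 4 ≤ (d i).s0)
    (hcov : ∀ s H : ℝ, 0 ≤ H → H ≤ s → s ≤ 8 → ∃ i, (d i).h0 * s ≤ H ∧ H ≤ (d i).h1 * s ∧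
      (d i).s0 ≤ max s (1 / 4) ∧ max s (1 / 4) ≤ (d i).s1)
    (hext : ∀ i, ExtC ρ w n (κ' * z) κ' (d i).h0 (d i).h1 (Qf i))
    (slope : ∀ i, VSlope (d i).V 0 ab β κ' N Xc) (slopeK : ∀ i, VSlope (d i).VK bb ab β κ' N Xc)
    (scal : ∀ i, ScalI Xc ks qs τ ab β (Qf i) 0 (fun _ => True) (d i))
    (hVK : ∀ i m, 0 ≤ m → m ≤ Xc → (d i).VK ab m ≤ (d i).V ab m)
    (core : CoreCell Ee cl cu Xc ks (ρ n) bb d) : CellM κ Ee σ cl cu Xc k := by
  have hpi := Real.pi_pos
  intro δ hδ cm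
  obtain ⟨ε₂, hε₂, core⟩ := core (δ / 3) (by positivity) cm
  -- constants
  set κI : ℝ := 10000 / 5439 * Real.pi with hκI
  have κI0 : 0 < κI := hκ'0.trans hκ'
  have hg : 0 < κI - κ' := by linarith
  set E1 : ℝ := Real.exp cm ^ 2 * Ee + 1 with hE1
  have E10 : 0 < E1 := by positivity
  set V₀ : ℝ := 2 * Real.pi / E1 with hV₀
  have V₀0 : 0 < V₀ := by positivity
  have hF : 0 < FJ z := by
    unfold FJ
    have := ppJ_pos z
    positivity
  have hsf : 0 < 1 / 2 - Real.exp (-(1 / FJ z)) := by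
    have h1 : Real.log 2 < 1 / FJ z := by
      rw [lt_div_iff₀ hF]
      linarith
    have h2 : Real.exp (-(1 / FJ z)) < Real.exp (-Real.log 2) := Real.exp_lt_exp.2 (by linarith)
    have h3 : Real.exp (-Real.log 2) = 1 / 2 := by
      rw [Real.exp_neg, Real.exp_log (by norm_num)]
      norm_num
    rw [h3] at h2
    linarith
  have N0 : 0 < N := lt_of_lt_of_le (by positivity) hN
  have ρn0 := ρp n
  set A : ℝ := min (V₀ / 2 * ρ n) (min bb (δ / 3 / N)) with hA
  have A0 : 0 < A := lt_min (by positivity) (lt_min hbb (by positivity))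
  set e1 : ℝ := min (V₀ * (1 / 2 - Real.exp (-(1 / FJ z)))) (V₀ / 4) with he1
  have e10 : 0 < e1 := lt_min (by positivity) (by positivity)
  refine ⟨min ε₂ (min (A * ((κI - κ') / κI)) (min e1 (δ / 3 / (384 * κ' * z / V₀)))),
    lt_min hε₂ (lt_min (by positivity) (lt_min e10 (by positivity))), ?_⟩
  intro M _ _ _ γ C ε hε0 hε hN' hv c v hc1 hc2 hP
  have hεa : ε ≤ ε₂ := hε.trans (min_le_left _ _)
  have hεb : ε ≤ A * ((κI - κ') / κI) := hε.trans ((min_le_right _ _).trans (min_le_left _ _))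
  have hεc : ε ≤ e1 := hε.trans ((min_le_right _ _).trans ((min_le_right _ _).trans (min_le_left _ _)))
  have hεd : ε ≤ δ / 3 / (384 * κ' * z / V₀) :=
    hε.trans ((min_le_right _ _).trans ((min_le_right _ _).trans (min_le_right _ _)))
  intro T hT hZ
  obtain ⟨q, iq, hQ, hout, hcore⟩ := core M γ C ε hε0 hεa hN' hv c v hc1 hc2 hP T hT hZ
  have := C.fin
  have hsph := hP.sph
  -- the volume
  have hvol : V₀ ≤ C.vol := by
    have h1 := vol_lower C hsph hP.deg hP.en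
    have h2 : Real.exp cm ^ 2 * Ee * C.vol ≤ E1 * C.vol := by
      have : 0 ≤ C.vol := ENNReal.toReal_nonneg
      exact mul_le_mul_of_nonneg_right (by rw [hE1]; linarith) this
    rw [hV₀, div_le_iff₀ E10]
    linarith
  have hvp : 0 < C.vol := V₀0.trans_le hvol
  -- the field
  set η := eta v T with hη'
  have lη : ∀ i, Lip (η i) := fun i => (hZ.lip i).sub (hsph.lip i)
  have oη : ∀ i, FPM.OddB γ (η i) := fun i s => by
    have h1 := hT.odd i s
    have h2 := hsph.odd i s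
    rw [hη']
    unfold eta
    rw [h1, h2]
    ring
  have hu8 : ∀ x, umod η x ≤ 8 := fun x => umod_le8 hsph hZ.bd x
  -- isoperimetric inequalities
  have hIE : IsopE C κI (C.vol / 2) ε :=
    isopE_half C (isopE58e hN'.bd hN'.regpl hN'.colb hε0.le hN'.nm (by linarith))
  have hIO : IsopO C κ' ε :=
    IsopO.mono_k (isopO58 hN'.bd hN'.regpl hN'.colb hε0.le hN'.nm (by linarith)) hκ'0.le hκ'.le
  set a₀ : ℝ := ε * (κI / (κI - κ')) with ha₀
  have a₀0 : 0 < a₀ := by positivity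
  have a₀A : a₀ ≤ A := by
    have h1 := mul_le_mul_of_nonneg_right hεb (show 0 ≤ κI / (κI - κ') by positivity)
    have e : A * ((κI - κ') / κI) * (κI / (κI - κ')) = A := by
      field_simp
    rw [e] at h1
    exact h1
  have hκa : ∀ x, a₀ ≤ x → κ' * x ≤ κI * (x - ε) := fun x hx => by
    have h1 := mul_le_mul_of_nonneg_right hx hg.le
    have e : a₀ * (κI - κ') = ε * κI := by
      rw [ha₀]
      field_simp
    rw [e] at h1
    linarith
  have hN1 : 2 * Real.exp c ^ 2 ≤ N := by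
    have h1 : Real.exp c ^ 2 ≤ Real.exp cu ^ 2 :=
      pow_le_pow_left₀ (Real.exp_pos c).le (Real.exp_le_exp.2 hc2) 2
    linarith
  have hNc : (0 : ℝ) ≤ 2 * Real.exp c ^ 2 := by positivity
  have iν := nuN_int C hsph.lip (2 * Real.exp c ^ 2)
  have iν' := nuC_int' C hsph.lip
  have hνX : ∫ o, nuN C v (2 * Real.exp c ^ 2) o ∂C.μ ≤ Xc :=
    (integral_mono iν iν' fun o => min_le_left _ _).trans hP.tot
  have hfar : FarJ C (J := Unit) (umod η) 8 (C.vol / 2 * ρ 0) (C.vol / 2 * ρ n) (∫ _, (0 : ℝ) ∂C.μ)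
      (384 * κ' * z / V₀ * ε) (nuN C v (2 * Real.exp c ^ 2)) (fun _ => κ' * z / (C.vol / 2))
      (fun _ => 0) (fun _ _ => True) := by
    intro s _ _ _ ξ lξ oξ bξ θ iθ θ0 θ1 _ hθ
    rw [ρ0, mul_one] at hθ
    refine ⟨(), by simp, trivial, ?_⟩
    exact far_half C hN'.bd hN'.regae hsph hκ'0 hIO hε0.le hz hφ V₀0 hvol
      (hεc.trans (min_le_left _ _)) (by
        have := hεc.trans (min_le_right _ _)
        linarith) lξ oξ bξ iθ θ0 θ1 hθ
  have hmain := pair_main C hsph lη oη (R := 8) (by norm_num) hu8 hIE hκ'0 (n := n)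
    (a := fun j => C.vol / 2 * ρ j) (w := w) (a₀ := a₀) (fun j => mul_pos (by positivity) (ρp j))
    (by rw [ρ0, mul_one]) (fun j hj => mul_lt_mul_of_pos_left (ρd j hj) (by positivity)) a₀0
    (a₀A.trans ((min_le_left _ _).trans
      (mul_le_mul_of_nonneg_right (by linarith) ρn0.le))) hκa w0 hw hw0
    (F := Fq C 2 q v T (2 * Real.exp c ^ 2)) (ν := nuN C v (2 * Real.exp c ^ 2)) (W := fun _ => 0)
    (Fq_int C iq hsph.lip hZ.lip _) iν (ae_of_all _ fun o => nuN_nonneg C v hNc o)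
    (N := N) (X := Xc) N0.le (ae_of_all _ fun o => (min_le_right _ _).trans hN1) hνX
    (integrable_const 0)
    (hout.mono fun o h => by
      change _ ≤ _ at h
      have e : (1 - 2 * 2 * umod η (C.pt o)) = 1 - 4 * umod η (C.pt o) := by ring
      rw [e]
      linarith) (J := Unit) (I := I)
    (q := fun _ => κ' * z / (C.vol / 2)) (b := fun _ => 0) (P := fun _ _ => True) (d := d)
    (Qf := fun _ i => Qf i) (e := 384 * κ' * z / V₀ * ε) (e1 := δ / 3) (fun _ => by positivity)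
    hfar hd hcov (fun _ i => (hext i).scale (by positivity) ρp) (ab := ab)
    (le_trans (mul_le_mul_of_nonneg_right (by linarith) ρn0.le) hab) (fun i => (hcore i).1)
    (β := β) (k := ks) (qs := qs) (τ := τ) (bb := bb) hβ slope (fun _ i => scal i) hks0 hτq
    (a₀A.trans ((min_le_right _ _).trans (min_le_left _ _))) (fun i => (hcore i).2) slopeK hVK
  have hNa : N * a₀ ≤ δ / 3 := by
    have h1 : a₀ ≤ δ / 3 / N := a₀A.trans ((min_le_right _ _).trans (min_le_right _ _))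
    rw [le_div_iff₀ N0] at h1
    linarith
  have hfe : 384 * κ' * z / V₀ * ε ≤ δ / 3 := by
    have h0 : 0 < 384 * κ' * z / V₀ := by positivity
    rw [le_div_iff₀ h0] at hεd
    linarith
  refine ⟨2, q, by norm_num, le_rfl, iq, hQ, ?_, fun h hh hs => ?_⟩
  · have h1 := hmain.1
    linarith
  · have hcl : Real.exp (-c) ≤ Real.exp (-cl) := Real.exp_le_exp.2 (by linarith)
    have hqc : qs ≤ σ * (1 - Real.exp (-c)) :=
      hqs.trans (mul_le_mul_of_nonneg_left (by linarith) hσ.le)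
    have hqy : qs ≤ σ * h := hqc.trans (mul_le_mul_of_nonneg_left hh hσ.le)
    have hT0 : 0 ≤ σ * h - τ := by linarith
    have h2 := hs (σ * h - τ) hT0 (by linarith)
    have e2 : σ * h - (σ * h - τ) = τ := by ring
    rw [e2] at h2
    have hLc := Lc_pos Ee c
    have h3 : bb ≤ κ * τ ^ 2 / (4 * Lc Ee c ^ 2) := by
      rw [le_div_iff₀ (by positivity)]
      have h4 : Lc Ee c ^ 2 ≤ Lc Ee cu ^ 2 := pow_le_pow_left₀ hLc.le (Lc_mono hc2) 2
      have h5 := mul_le_mul_of_nonneg_right h4 hbb.le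
      linarith
    have h6 : bb ≤ supa C (umod η) (σ * h - τ) := by linarith
    have hT8 : σ * h - τ ≤ 8 := by
      by_contra hc
      have h7 : supa C (umod η) (σ * h - τ) = 0 := by
        unfold supa
        have : {o | σ * h - τ < |umod η (C.pt o)|} = ∅ := by
          ext o
          refine ⟨fun ho => ?_, fun ho => absurd ho (notMem_empty o)⟩
          have h8 : σ * h - τ < |umod η (C.pt o)| := ho
          rw [abs_of_nonneg (umod_nonneg η _)] at h8
          have := hu8 (C.pt o)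
          exact absurd h8 (by push Not; linarith)
        rw [this]
        simp
      linarith
    have h9 := hmain.2 (σ * h - τ) (σ * h) hT8 h6 (by linarith) hqy
    have h10 : 2 * k * (h - (1 - Real.exp (-c))) ≤ 2 * ks * (σ * h - qs) := by
      have h11 : 0 ≤ h - (1 - Real.exp (-c)) := by linarith
      have h12 := mul_le_mul_of_nonneg_right hks h11
      have h13 : ks * (σ * h - σ * (1 - Real.exp (-c))) ≤ ks * (σ * h - qs) :=
        mul_le_mul_of_nonneg_left (by linarith) hks0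
      have e14 : σ * ks * (h - (1 - Real.exp (-c))) = ks * (σ * h - σ * (1 - Real.exp (-c))) := by ring
      rw [e14] at h12
      linarith
    have : 0 ≤ N * a₀ := by positivity
    linarith

end Pool.Agent.FPX
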