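import Mathlib
import Pool.Agent.FPX.FINC
import Pool.Agent.FPX.EXR

/-
FINR (helper28): the cell theorem with ring zones (helper95's `ext_ring`). `ExtS`: the certificate of the
exterior in unit fractions of the volume; `pair_ring`, `cellM_ring`.
-/

open MeasureTheory Set Filter Topology
open scoped ENNReal NNReal

noncomputable section

namespace Pool.Agent.FPX

open Pool.Agent.EWD Pool.Agent.FPM

variable {M : Type} [MetricSpace M] {γ : ℝ → M}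

/-- certificate of the exterior form in unit fractions (`a 0 = 1`, `q = κ z`), `r0` a lower bound of half of
the volume (used only by ring members) -/
def ExtS (P : ℝ → ℝ → Prop) (cm r0 : ℝ) (a w : ℕ → ℝ) (n : ℕ) (A : ℕ → ℝ) (m : ℕ)
    (q κ h0 h1 S0 S1 Q : ℝ) : Prop :=
  ∃ (μ ζ xc RF Lz : ℝ) (lz : ℕ → ℝ) (z : ℕ → RZ), 0 ≤ mvec w n μ ζ 0 ∧
    (∀ k, k < n → mvec w n μ ζ 0 * gkw w n k * a k ≤ a 0 * mvec w n μ ζ (k + 1)) ∧
    (∀ i, i < m → (z i).Ok ∧ 0 ≤ lz i ∧ ((z i).b = 1 ∨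
      (P (z i).y (z i).b ∧ S1 * lz i ≤ (z i).η * √(κ * (r0 * A (i + 1)))))) ∧
    0 < xc ∧ h1 ≤ xc ∧ (1 < xc ∨ cm ≤ xc * S0) ∧
    (∀ x : ℕ → ℝ, h0 ≤ x 0 → (∀ i, i < m → x i ≤ x (i + 1)) → x m = 1 →
      RF ≤ 2 * (μ + ζ * w n) * x 0 +
        ∑ i ∈ Finset.range m, 2 * lz i * ((z i).G xc h1 (x (i + 1)) - (z i).G xc h1 (x i))) ∧
    ∑ i ∈ Finset.range m, lz i ^ 2 / κ * Real.log (A i / A (i + 1)) ≤ Lz ∧
    Q + 2 * ζ * h0 ≤ RF - gcost a w n q κ (mvec w n μ ζ) - Lz ∧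
    Q + 2 * ζ * h1 ≤ RF - gcost a w n q κ (mvec w n μ ζ) - Lz

/-- **scaling** -/
theorem ExtS.scale {P : ℝ → ℝ → Prop} {cm r0 r : ℝ} {a w A : ℕ → ℝ} {n m : ℕ}
    {q κ h0 h1 S0 S1 Q : ℝ} (h : ExtS P cm r0 a w n A m q κ h0 h1 S0 S1 Q) (hκ : 0 < κ) (hr : 0 < r)
    (hr0 : r0 ≤ r) (a0 : ∀ k, 0 < a k) (A0 : ∀ k, 0 < A k) :
    ExtR P cm (fun k => r * a k) w n (fun k => r * A k) m (q / r) κ h0 h1 S0 S1 Q := by
  obtain ⟨μ, ζ, xc, RF, Lz, lz, z, c1, c2, c3, c4, c5, c6, c7, c8, c9, c10⟩ := h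
  set z' : ℕ → RZ := fun i => if (z i).b = 1 then
    ⟨1, (z i).c, |S1 * lz i| / √(κ * (r * A (i + 1))) * (z i).c, |S1 * lz i| / √(κ * (r * A (i + 1)))⟩
    else z i with hz'
  have hb : ∀ i, (z' i).b = (z i).b := fun i => by
    rw [hz']
    by_cases h1 : (z i).b = 1
    · simp only [h1, if_true]
    · simp only [h1, if_false]
  have hc : ∀ i, (z' i).c = (z i).c := fun i => by
    rw [hz']
    by_cases h1 : (z i).b = 1
    · simp only [h1, if_true]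
    · simp only [h1, if_false]
  have hG : ∀ i c τ u, (z' i).G c τ u = (z i).G c τ u := fun i c τ u => by
    unfold RZ.G
    rw [hb, hc]
  refine ⟨μ, ζ, xc, RF, Lz, lz, z', c1, fun k hk => ?_, fun i hi => ?_, c4, c5, c6, fun x x1 x2 x3 => ?_,
    ?_, by rwa [gcost_scale hr a0], by rwa [gcost_scale hr a0]⟩
  · have h1 := mul_le_mul_of_nonneg_left (c2 k hk) hr.le
    calc mvec w n μ ζ 0 * gkw w n k * (r * a k) = r * (mvec w n μ ζ 0 * gkw w n k * a k) := by ring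
      _ ≤ r * (a 0 * mvec w n μ ζ (k + 1)) := h1
      _ = r * a 0 * mvec w n μ ζ (k + 1) := by ring
  · obtain ⟨d1, d2, d3⟩ := c3 i hi
    have hs : 0 < √(κ * (r * A (i + 1))) := Real.sqrt_pos.2 (by have := A0 (i + 1); positivity)
    by_cases h1 : (z i).b = 1
    · have e : z' i = ⟨1, (z i).c, |S1 * lz i| / √(κ * (r * A (i + 1))) * (z i).c,
          |S1 * lz i| / √(κ * (r * A (i + 1)))⟩ := by
        rw [hz']
        simp only [h1, if_true]
      have hbc := d1.bc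
      rw [h1] at hbc
      refine ⟨?_, d2, ?_, Or.inl (by rw [hb, h1])⟩
      · rw [e]
        exact ⟨one_pos, le_rfl, d1.c0, hbc, by positivity, by
          change _ * _ * ((3 - 1) / 2) ≤ _ * _
          norm_num⟩
      · rw [e]
        change S1 * lz i ≤ |S1 * lz i| / √(κ * (r * A (i + 1))) * √(κ * (r * A (i + 1)))
        rw [div_mul_cancel₀ _ hs.ne']
        exact le_abs_self _
    · have e : z' i = z i := by
        rw [hz']
        simp only [h1, if_false]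
      rcases d3 with d3 | ⟨d3, d4⟩
      · exact absurd d3 h1
      · rw [e]
        refine ⟨d1, d2, d4.trans (mul_le_mul_of_nonneg_left (Real.sqrt_le_sqrt ?_) d1.η0), Or.inr d3⟩
        exact mul_le_mul_of_nonneg_left (mul_le_mul_of_nonneg_right hr0 (A0 _).le) hκ.le
  · have := c7 x x1 x2 x3
    simp only [hG]
    exact this
  · refine le_trans (le_of_eq ?_) c8
    refine Finset.sum_congr rfl fun i _ => ?_
    rw [mul_div_mul_left _ _ hr.ne']

/-- the scalar conditions, `Q` for the levels of the piece, `Ql` for the levels below `1/4` -/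
structure ScalR (X k q τ ab β Q Ql b : ℝ) (P : ℝ → Prop) (d : MPc) : Prop where
  Q0 : 0 < Q
  Ql0 : 0 < Ql
  hi : ∃ Mn : ℝ, (∀ s, d.s0 ≤ s → s ≤ d.s1 → -Mn ≤ Q * s ^ 2 - 4 * X * s) ∧
    ∀ m, 0 ≤ m → m ≤ X → P m → Mn - X - b ≤ d.V ab m - m
  hiK : ∃ Mn : ℝ, (∀ s, d.s0 ≤ s → s ≤ d.s1 → -Mn ≤ Q * s ^ 2 - (4 * X + 2 * k) * s) ∧
    ∀ m, 0 ≤ m → m ≤ X → P m → Mn - X - (b + 2 * k * (q - τ)) ≤ d.VK ab m - m
  lo : d.s0 ≤ 1 / 4 → ∀ m, 0 ≤ m → m ≤ X →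
    ∃ l, 0 ≤ l ∧ l ≤ 2 * β * m ∧ m + l ^ 2 / Ql - l / 2 ≤ d.V ab m + b
  loK : d.s0 ≤ 1 / 4 → ∀ m, 0 ≤ m → m ≤ X →
    ∃ l, 0 ≤ l ∧ l ≤ 2 * β * m ∧ m + l ^ 2 / Ql - l / 2 ≤ d.VK ab m + b + 2 * k * (q - τ - 1 / 4)

theorem ScalI.toR {X k q τ ab β Q b : ℝ} {P : ℝ → Prop} {d : MPc} (h : ScalI X k q τ ab β Q b P d) :
    ScalR X k q τ ab β Q Q b P d := ⟨h.Q0, h.Q0, h.hi, h.hiK, h.lo, h.loK⟩

variable [CompactSpace M]

/-- **one pair, with ring zones** -/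
theorem pair_ring (C : Calc M γ) {v : Fin 3 → M → ℝ} (hv : Sph γ v)
    {η : Fin 3 → M → ℝ} (hη : ∀ i, Lip (η i)) (oη : ∀ i, FPM.OddB γ (η i)) {R : ℝ} (hR4 : 1 / 4 ≤ R)
    (hR : ∀ x, umod η x ≤ R) {κ κ' a₀ a₁ ε : ℝ} (hI : IsopE C κ a₁ ε) (hκ0 : 0 < κ') {n mz : ℕ}
    {a w A : ℕ → ℝ} (a0 : ∀ k, 0 < a k) (ha1 : a 0 ≤ a₁) (ad : ∀ k, k < n → a (k + 1) < a k)
    (A00 : A 0 = a n) (A0 : ∀ i, 0 < A i) (Ad : ∀ i, i < mz → A (i + 1) < A i)
    (ha0 : 0 < a₀) (ha0n : a₀ ≤ A mz) (hκ : ∀ x, a₀ ≤ x → κ' * x ≤ κ * (x - ε)) (w0 : ∀ j, 0 ≤ w j)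
    (hw : ∑ j ∈ Finset.range (n + 1), w j = 1) (hw0 : 0 < w 0)
    {F ν W : Om → ℝ} (iF : Integrable F C.μ) (iν : Integrable ν C.μ) (ν0 : ∀ᵐ o ∂C.μ, 0 ≤ ν o)
    {N X : ℝ} (hN : 0 ≤ N) (νN : ∀ᵐ o ∂C.μ, ν o ≤ N) (νX : ∫ o, ν o ∂C.μ ≤ X)
    (iW : Integrable W C.μ)
    (hout : ∀ᵐ o ∂C.μ, Gη C η o + W o + (1 - 2 * 2 * umod η (C.pt o)) * ν o ≤ F o)
    {PR : ℝ → ℝ → Prop} {cm : ℝ}
    (hPR : ∀ y0 b0, PR y0 b0 → ∀ᵐ o ∂C.μ, cm ≤ umod η (C.pt o) → ∀ y, 0 ≤ y → y ≤ y0 →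
      2 * y * gn C (umod η) o - b0 * y ^ 2 + W o + (1 - 2 * 2 * umod η (C.pt o)) * ν o ≤ F o)
    {J I : Type} {q b : J → ℝ} {P : J → ℝ → Prop} {d : I → MPc} {Qf Ql : J → I → ℝ} {e e1 : ℝ}
    (hq : ∀ j, 0 < q j)
    (hfar : FarJ C (umod η) R (a 0) (A mz) (∫ o, W o ∂C.μ) e ν q b P)
    (hd : ∀ i, 0 ≤ (d i).h1 ∧ 1 / 4 ≤ (d i).s0)
    (hcov : ∀ s H : ℝ, 0 ≤ H → H ≤ s → s ≤ R → ∃ i, (d i).h0 * s ≤ H ∧ H ≤ (d i).h1 * s ∧
      (d i).s0 ≤ max s (1 / 4) ∧ max s (1 / 4) ≤ (d i).s1)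
    (hext : ∀ j i, ExtR PR cm a w n A mz (q j) κ' (d i).h0 (d i).h1 (d i).s0 (d i).s1 (Qf j i))
    (hextl : ∀ j i, (d i).s0 ≤ 1 / 4 →
      ExtR PR cm a w n A mz (q j) κ' (d i).h0 (d i).h1 0 (1 / 4) (Ql j i))
    {ab : ℝ} (hab : A mz ≤ ab)
    (core : ∀ i, CoreV C η F W ν R (d i).s0 (d i).s1 (d i).h1 (A mz) (d i).V e1)
    {β k qs τ bb : ℝ} (hβ : β ≤ 1)
    (slope : ∀ i, VSlope (d i).V 0 ab β κ' N X)
    (scal : ∀ j i, ScalR X k qs τ ab β (Qf j i) (Ql j i) (b j) (P j) (d i))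
    (hk : 0 ≤ k) (hqs : τ + 1 / 4 ≤ qs) (hbb : a₀ ≤ bb)
    (coreK : ∀ i, CoreK C η F W ν R (d i).s0 (d i).s1 (d i).h1 (A mz) bb k (d i).VK e1)
    (slopeK : ∀ i, VSlope (d i).VK bb ab β κ' N X)
    (hVK : ∀ i m, 0 ≤ m → m ≤ X → (d i).VK ab m ≤ (d i).V ab m) :
    -(e + e1 + N * a₀) ≤ ∫ o, F o ∂C.μ ∧
      ∀ T y : ℝ, T ≤ R → bb ≤ supa C (umod η) T → y ≤ T + τ → qs ≤ y →
        2 * k * (y - qs) - (e + e1) ≤ ∫ o, F o ∂C.μ := by
  have := C.fin
  have hu := lip_umod hη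
  have hR0 : 0 ≤ R := by linarith
  have u0 := fun o => umod_nonneg η (C.pt o)
  have ua : ∀ o, |umod η (C.pt o)| = umod η (C.pt o) := fun o => abs_of_nonneg (u0 o)
  have ν0' : ∀ s, 0 ≤ supw C (umod η) ν s := fun s =>
    setIntegral_nonneg_of_ae_restrict (ae_restrict_of_ae ν0)
  have νle : ∀ s, supw C (umod η) ν s ≤ ∫ o, ν o ∂C.μ := fun s =>
    setIntegral_le_integral iν ν0
  have νNa : ∀ s, supw C (umod η) ν s ≤ N * supa C (umod η) s := fun s => by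
    have h2 : ∫ o in {o | s < |umod η (C.pt o)|}, ν o ∂C.μ ≤
        ∫ _ in {o | s < |umod η (C.pt o)|}, N ∂C.μ :=
      setIntegral_mono_ae iν.integrableOn (integrable_const _).integrableOn νN
    rw [setIntegral_const, smul_eq_mul] at h2
    have h3 : supa C (umod η) s = C.μ.real {o | s < |umod η (C.pt o)|} := rfl
    have h4 : supw C (umod η) ν s = ∫ o in {o | s < |umod η (C.pt o)|}, ν o ∂C.μ := rfl
    rw [h3, h4]
    linarith
  have sa0 : ∀ s, 0 ≤ supa C (umod η) s := fun s => ENNReal.toReal_nonneg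
  obtain ⟨s, H, θ, ξ, H0, Hs, sR, hsa, -, iθ, θ0, θ1, hθ1, hθa, lξ, oξ, bξ, key⟩ :=
    ext_ring C hv hη oη hR0 hR hI hκ0 a0 ha1 ad A00 A0 Ad (fun x hx => hκ x (ha0n.trans hx)) w0 hw
      hw0 iF iν ν0 iW (p := 2) (c₀ := 1) zero_le_two hout hPR
  obtain ⟨j, hbj, hPj, hfj⟩ := hfar s (H0.trans Hs) sR hsa ξ lξ oξ bξ θ iθ θ0 θ1 hθ1 hθa
  obtain ⟨i, c1, c2, c3, c4⟩ := hcov s H H0 Hs sR
  have e0 : (1 - 2 * 2 * s : ℝ) = 1 - 4 * s := by ring
  have S := scal j i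
  have hAa : A mz ≤ a₁ := by
    have h1 : ∀ m, m ≤ n → a m ≤ a 0 := by
      intro m
      induction m with
      | zero => intro _; exact le_rfl
      | succ m ih => intro hm; exact (ad m (by omega)).le.trans (ih (by omega))
    have h2 : ∀ m, m ≤ mz → A m ≤ A 0 := by
      intro m
      induction m with
      | zero => intro _; exact le_rfl
      | succ m ih => intro hm; exact (Ad m (by omega)).le.trans (ih (by omega))
    exact (h2 mz le_rfl).trans (A00.le.trans ((h1 n le_rfl).trans ha1))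
  have hmo : 0 ≤ ∫ o, ν o ∂C.μ - supw C (umod η) ν s := by linarith [νle s]
  rcases le_or_gt (1 / 4) s with h4 | h4
  · -- levels above `1/4`
    rw [max_eq_left h4] at c3 c4
    have hF := key (q j) e (d i).h0 (d i).h1 (d i).s0 (d i).s1 (Qf j i) (hq j) hfj (hext j i) c1 c2 c3 c4
    rw [e0] at hF
    have mX : supw C (umod η) ν s ≤ X := (νle s).trans νX
    have hVm := (slope i).le hκ0 le_rfl (sa0 s) (hsa.trans hab) (ν0' s) (νNa s) mX
    have hcv := core i H s c3 c4 sR H0 Hs c2 hsa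
    obtain ⟨Mn, hM, hV⟩ := S.hi
    obtain ⟨Mk, hMk, hVk⟩ := S.hiK
    have hsum : supw C (umod η) ν s + (∫ o, ν o ∂C.μ - supw C (umod η) ν s) ≤ X := by linarith
    refine ⟨?_, fun T y hTR hT hy hqy => ?_⟩
    · have h5 := fin_hi h4 hsum (hM s c3 c4) (hV _ (ν0' s) mX hPj)
        (show (d i).V ab (supw C (umod η) ν s) - 4 * s * supw C (umod η) ν s - e1 ≤ _ by linarith)
        hbj hF
      have : 0 ≤ N * a₀ := by positivity
      linarith
    · rcases le_or_gt s T with hsT | hsT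
      · have hbs : bb ≤ supa C (umod η) s := hT.trans (supa_anti C _ hsT)
        have hVKm := (slopeK i).le hκ0 (ha0.le.trans hbb) hbs (hsa.trans hab) (ν0' s) (νNa s) mX
        have hck := coreK i H s T c3 c4 hsT hTR H0 Hs c2 hsa hT
        exact fin_hiK h4 hsum (hMk s c3 c4) (hVk _ (ν0' s) mX hPj) hk hy
          (show (d i).VK ab (supw C (umod η) ν s) - 4 * s * supw C (umod η) ν s +
            2 * k * (T - s) - e1 ≤ _ by linarith) hbj hF
      · exact fin_hiT h4 hsum (hMk s c3 c4) (hVk _ (ν0' s) mX hPj) (hVK i _ (ν0' s) mX) hk hy hsT.le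
          (show (d i).V ab (supw C (umod η) ν s) - 4 * s * supw C (umod η) ν s - e1 ≤ _ by linarith)
          hbj hF
  · -- levels below `1/4`
    rw [max_eq_right h4.le] at c3 c4
    have hF := key (q j) e (d i).h0 (d i).h1 0 (1 / 4) (Ql j i) (hq j) hfj (hextl j i c3) c1 c2
      (H0.trans Hs) h4.le
    rw [e0] at hF
    have hH4 : H ≤ 1 / 4 := Hs.trans h4.le
    have c2' : H ≤ (d i).h1 * (1 / 4) :=
      c2.trans (mul_le_mul_of_nonneg_left h4.le (hd i).1)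
    have hsa4 : supa C (umod η) (1 / 4) ≤ A mz := (supa_anti C _ h4.le).trans hsa
    have m0 := ν0' (1 / 4)
    have mX : supw C (umod η) ν (1 / 4) ≤ X := (νle _).trans νX
    have hcv := core i H (1 / 4) c3 c4 hR4 H0 hH4 c2' hsa4
    have hcv' : (d i).V (supa C (umod η) (1 / 4)) (supw C (umod η) ν (1 / 4)) -
        supw C (umod η) ν (1 / 4) - e1 ≤
        ∫ o in {o | 1 / 4 < |umod η (C.pt o)|}, coreF C η F W H o ∂C.μ := by linarith
    have hsl := slope i _ _ (sa0 (1 / 4)) (hsa4.trans hab) m0 (νNa (1 / 4)) mX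
    have hlg : Real.log (A mz / supa C (umod η) (1 / 4)) ≤ Real.log (ab / supa C (umod η) (1 / 4)) := by
      rcases (sa0 (1 / 4)).eq_or_lt with h5 | h5
      · rw [← h5, div_zero, div_zero]
      · exact Real.log_le_log (div_pos (A0 mz) h5) (div_le_div_of_nonneg_right hab h5.le)
    have hlg' := mul_le_mul_of_nonneg_left hlg
      (show 0 ≤ 4 * β ^ 2 * supw C (umod η) ν (1 / 4) ^ 2 / κ' by positivity)
    refine ⟨?_, fun T y hTR hT hy hqy => ?_⟩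
    · obtain ⟨l, l0, l1, l2⟩ := S.lo c3 _ m0 mX
      rcases le_or_gt a₀ (supa C (umod η) (1 / 4)) with hsm | hsm
      · have hlow := core_low C hv hη oη hR hI hκ0 ha0 hκ
          hAa iF ν0 iW hout H0 Hs h4.le hsa hsm l0
        have h5 := fin_lo S.Ql0 h4.le hmo hκ0 (log_quot_nonneg (sa0 _) hsa4) l0 l1
          (show (d i).V ab (supw C (umod η) ν (1 / 4)) + 4 * β ^ 2 * supw C (umod η) ν (1 / 4) ^ 2 / κ' *
            Real.log (A mz / supa C (umod η) (1 / 4)) ≤ _ by linarith) l2 hcv' hlow hbj hF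
        have : 0 ≤ N * a₀ := by positivity
        linarith
      · have hlow := core_low0 C hη iF ν0 iW hout H0 Hs h4.le
        have hg : 0 ≤ ∫ o in {o | s < |umod η (C.pt o)| ∧ |umod η (C.pt o)| ≤ 1 / 4},
            gn C (umod η) o ^ 2 ∂C.μ := integral_nonneg fun o => sq_nonneg _
        have hVm := (slope i).le hκ0 le_rfl (sa0 (1 / 4)) (hsa4.trans hab) m0 (νNa (1 / 4)) mX
        have h6 : supw C (umod η) ν (1 / 4) ≤ N * a₀ :=
          (νNa _).trans (mul_le_mul_of_nonneg_left hsm.le hN)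
        have h7 : 0 ≤ l ^ 2 / Ql j i := div_nonneg (sq_nonneg _) S.Ql0.le
        have h8 : β * supw C (umod η) ν (1 / 4) ≤ 1 * (N * a₀) := mul_le_mul hβ h6 m0 zero_le_one
        have h9 : 0 ≤ Ql j i * s ^ 2 := mul_nonneg S.Ql0.le (sq_nonneg s)
        have h10 : 0 ≤ (1 - 4 * s) * (∫ o, ν o ∂C.μ - supw C (umod η) ν s) :=
          mul_nonneg (by linarith) hmo
        linarith
    · have hT4 : 1 / 4 ≤ T := by linarith
      have hb4 : bb ≤ supa C (umod η) (1 / 4) := hT.trans (supa_anti C _ hT4)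
      obtain ⟨l, l0, l1, l2⟩ := S.loK c3 _ m0 mX
      have hlow := core_low C hv hη oη hR hI hκ0 ha0 hκ
        hAa iF ν0 iW hout H0 Hs h4.le hsa (hbb.trans hb4) l0
      have hck := coreK i H (1 / 4) T c3 c4 hT4 hTR H0 hH4 c2' hsa4 hT
      have hck' : (d i).VK (supa C (umod η) (1 / 4)) (supw C (umod η) ν (1 / 4)) -
          supw C (umod η) ν (1 / 4) + 2 * k * (T - 1 / 4) - e1 ≤
          ∫ o in {o | 1 / 4 < |umod η (C.pt o)|}, coreF C η F W H o ∂C.μ := by linarith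
      have hslK := slopeK i _ _ hb4 (hsa4.trans hab) m0 (νNa (1 / 4)) mX
      exact fin_loK S.Ql0 h4.le hmo hκ0 (log_quot_nonneg (sa0 _) hsa4) l0 l1
        (show (d i).VK ab (supw C (umod η) ν (1 / 4)) + 4 * β ^ 2 * supw C (umod η) ν (1 / 4) ^ 2 / κ' *
          Real.log (A mz / supa C (umod η) (1 / 4)) ≤ _ by linarith) l2 hk hy hck' hlow hbj hF


omit [CompactSpace M]

/-- **the core of one cell, with ring members** `PR y b` on the levels `≥ cr` -/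
def CoreCellR (Ee cl cu Xc ks ρn bb : ℝ) (PR : ℝ → ℝ → Prop) (cr : ℝ) {I : Type} (d : I → MPc) : Prop :=
  ∀ δ : ℝ, 0 < δ → ∀ cm : ℝ, ∃ ε₂ : ℝ, 0 < ε₂ ∧ ∀ (M : Type) [MetricSpace M] [CompactSpace M]
    [Nonempty M] (γ : ℝ → M) (C : Calc M γ) (ε : ℝ), 0 < ε → ε ≤ ε₂ → NearM C ε → C.vol < 2 * Real.pi →
    ∀ (c : ℝ) (v : Fin 3 → M → ℝ), cl ≤ c → c ≤ cu → PairX C Ee Xc cm c v →
    ∀ T : Fin 3 → M → ℝ, Pre γ T → TZ C 2 1 7 T → ∃ q : Om → ℝ, Integrable q C.μ ∧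
      (∀ᵐ o ∂C.μ, QLow (at' C v o) (dx C v o) (dy C v o) (dx C T o) (dy C T o) (q o)) ∧
      (∀ᵐ o ∂C.μ, Gη C (eta v T) o + (1 - 4 * umod (eta v T) (C.pt o)) *
        nuN C v (2 * Real.exp c ^ 2) o ≤ Fq C 2 q v T (2 * Real.exp c ^ 2) o) ∧
      (∀ y0 b0, PR y0 b0 → ∀ᵐ o ∂C.μ, cr ≤ umod (eta v T) (C.pt o) → ∀ y, 0 ≤ y → y ≤ y0 →
        2 * y * gn C (umod (eta v T)) o - b0 * y ^ 2 + (1 - 4 * umod (eta v T) (C.pt o)) *
          nuN C v (2 * Real.exp c ^ 2) o ≤ Fq C 2 q v T (2 * Real.exp c ^ 2) o) ∧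
      ∀ i, CoreV C (eta v T) (Fq C 2 q v T (2 * Real.exp c ^ 2)) (fun _ => 0)
          (nuN C v (2 * Real.exp c ^ 2)) 8 (d i).s0 (d i).s1 (d i).h1 (C.vol / 2 * ρn) (d i).V δ ∧
        CoreK C (eta v T) (Fq C 2 q v T (2 * Real.exp c ^ 2)) (fun _ => 0)
          (nuN C v (2 * Real.exp c ^ 2)) 8 (d i).s0 (d i).s1 (d i).h1 (C.vol / 2 * ρn) bb ks
          (d i).VK δ


/-- **one cell of the modulus closing, with ring zones** -/
theorem cellM_ring {κ Ee σ cl cu Xc k : ℝ} {ks κ' z ab bb τ qs β N cr Vlo : ℝ} {n mz : ℕ}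
    {ρ w A : ℕ → ℝ} {PR : ℝ → ℝ → Prop} {I : Type} {d : I → MPc} {Qf Ql : I → ℝ}
    (hVlo : Vlo ≤ 0 ∨ Close Vlo) (hE : 0 ≤ Ee) (hσ : 0 < σ)
    (hks0 : 0 ≤ ks) (hks : k ≤ σ * ks)
    (hκ'0 : 0 < κ') (hκ' : κ' < 10000 / 5439 * Real.pi) (hz : 0 < z) (hφ : 0 < phJ z)
    (hzF : FJ z * Real.log 2 < 1) (hN : 2 * Real.exp cu ^ 2 ≤ N)
    (hqs : qs ≤ σ * (1 - Real.exp (-cl))) (hτq : τ + 1 / 4 ≤ qs) (hτ0 : 0 < τ)
    (hτ : 4 * Lc Ee cu ^ 2 * bb ≤ κ * τ ^ 2) (hbb : 0 < bb)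
    (ρ0 : ρ 0 = 1) (ρp : ∀ j, 0 < ρ j) (ρd : ∀ j, j < n → ρ (j + 1) < ρ j)
    (A00 : A 0 = ρ n) (Ap : ∀ j, 0 < A j) (Ad : ∀ j, j < mz → A (j + 1) < A j)
    (hab : Real.pi * A mz ≤ ab) (w0 : ∀ j, 0 ≤ w j)
    (hw : ∑ j ∈ Finset.range (n + 1), w j = 1) (hw0 : 0 < w 0) (hβ : β ≤ 1)
    (hd : ∀ i, 0 ≤ (d i).h1 ∧ 1 / 4 ≤ (d i).s0)
    (hcov : ∀ s H : ℝ, 0 ≤ H → H ≤ s → s ≤ 8 → ∃ i, (d i).h0 * s ≤ H ∧ H ≤ (d i).h1 * s ∧
      (d i).s0 ≤ max s (1 / 4) ∧ max s (1 / 4) ≤ (d i).s1)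
    (hext : ∀ i, ExtS PR cr (Vlo / 2) ρ w n A mz (κ' * z) κ' (d i).h0 (d i).h1 (d i).s0 (d i).s1 (Qf i))
    (hextl : ∀ i, (d i).s0 ≤ 1 / 4 →
      ExtS PR cr (Vlo / 2) ρ w n A mz (κ' * z) κ' (d i).h0 (d i).h1 0 (1 / 4) (Ql i))
    (slope : ∀ i, VSlope (d i).V 0 ab β κ' N Xc) (slopeK : ∀ i, VSlope (d i).VK bb ab β κ' N Xc)
    (scal : ∀ i, ScalR Xc ks qs τ ab β (Qf i) (Ql i) 0 (fun _ => True) (d i))
    (hVK : ∀ i m, 0 ≤ m → m ≤ Xc → (d i).VK ab m ≤ (d i).V ab m)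
    (core : CoreCellR Ee cl cu Xc ks (A mz) bb PR cr d) : CellM κ Ee σ cl cu Xc k := by
  have hpi := Real.pi_pos
  intro δ hδ cm
  obtain ⟨ε₂, hε₂, core⟩ := core (δ / 3) (by positivity) cm
  obtain ⟨ε₃, hε₃, hcl⟩ : ∃ ε₃ : ℝ, 0 < ε₃ ∧ ∀ (M : Type) [MetricSpace M] [CompactSpace M] [Nonempty M]
      (γ : ℝ → M) (C : Calc M γ) (ε : ℝ), ε ≤ ε₃ → NearM C ε → Vlo ≤ C.vol := by
    rcases hVlo with h | ⟨e, he, h⟩
    · exact ⟨1, one_pos, fun M _ _ _ γ C ε _ _ => h.trans ENNReal.toReal_nonneg⟩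
    · exact ⟨e, he, fun M _ _ _ γ C ε h1 h2 => h M γ C (NearM.mono h2 h1)⟩
  -- constants
  set κI : ℝ := 10000 / 5439 * Real.pi with hκI
  have κI0 : 0 < κI := hκ'0.trans hκ'
  have hg : 0 < κI - κ' := by linarith
  set E1 : ℝ := Real.exp cm ^ 2 * Ee + 1 with hE1
  have E10 : 0 < E1 := by positivity
  set V₀ : ℝ := 2 * Real.pi / E1 with hV₀
  have V₀0 : 0 < V₀ := by positivity
  have hF : 0 < FJ z := by
    unfold FJ
    have := ppJ_pos z
    positivity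
  have hsf : 0 < 1 / 2 - Real.exp (-(1 / FJ z)) := by
    have h1 : Real.log 2 < 1 / FJ z := by
      rw [lt_div_iff₀ hF]
      linarith
    have h2 : Real.exp (-(1 / FJ z)) < Real.exp (-Real.log 2) := Real.exp_lt_exp.2 (by linarith)
    have h3 : Real.exp (-Real.log 2) = 1 / 2 := by
      rw [Real.exp_neg, Real.exp_log (by norm_num)]
      norm_num
    rw [h3] at h2
    linarith
  have N0 : 0 < N := lt_of_lt_of_le (by positivity) hN
  have ρn0 := Ap mz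
  set Am : ℝ := min (V₀ / 2 * A mz) (min bb (δ / 3 / N)) with hAm
  have A0 : 0 < Am := lt_min (by positivity) (lt_min hbb (by positivity))
  set e1 : ℝ := min (V₀ * (1 / 2 - Real.exp (-(1 / FJ z)))) (V₀ / 4) with he1
  have e10 : 0 < e1 := lt_min (by positivity) (by positivity)
  refine ⟨min (min ε₂ ε₃) (min (Am * ((κI - κ') / κI)) (min e1 (δ / 3 / (384 * κ' * z / V₀)))),
    lt_min (lt_min hε₂ hε₃) (lt_min (by positivity) (lt_min e10 (by positivity))), ?_⟩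
  intro M _ _ _ γ C ε hε0 hε hN' hv c v hc1 hc2 hP
  have hεa : ε ≤ ε₂ := hε.trans ((min_le_left _ _).trans (min_le_left _ _))
  have hεv : ε ≤ ε₃ := hε.trans ((min_le_left _ _).trans (min_le_right _ _))
  have hεb : ε ≤ Am * ((κI - κ') / κI) := hε.trans ((min_le_right _ _).trans (min_le_left _ _))
  have hεc : ε ≤ e1 := hε.trans ((min_le_right _ _).trans ((min_le_right _ _).trans (min_le_left _ _)))
  have hεd : ε ≤ δ / 3 / (384 * κ' * z / V₀) :=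
    hε.trans ((min_le_right _ _).trans ((min_le_right _ _).trans (min_le_right _ _)))
  intro T hT hZ
  obtain ⟨q, iq, hQ, hout, hring, hcore⟩ := core M γ C ε hε0 hεa hN' hv c v hc1 hc2 hP T hT hZ
  have := C.fin
  have hsph := hP.sph
  -- the volume
  have hvol : V₀ ≤ C.vol := by
    have h1 := vol_lower C hsph hP.deg hP.en
    have h2 : Real.exp cm ^ 2 * Ee * C.vol ≤ E1 * C.vol := by
      have : 0 ≤ C.vol := ENNReal.toReal_nonneg
      exact mul_le_mul_of_nonneg_right (by rw [hE1]; linarith) this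
    rw [hV₀, div_le_iff₀ E10]
    linarith
  have hvp : 0 < C.vol := V₀0.trans_le hvol
  have hVl := hcl M γ C ε hεv hN'
  -- the field
  set η := eta v T with hη'
  have lη : ∀ i, Lip (η i) := fun i => (hZ.lip i).sub (hsph.lip i)
  have oη : ∀ i, FPM.OddB γ (η i) := fun i s => by
    have h1 := hT.odd i s
    have h2 := hsph.odd i s
    rw [hη']
    unfold eta
    rw [h1, h2]
    ring
  have hu8 : ∀ x, umod η x ≤ 8 := fun x => umod_le8 hsph hZ.bd x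
  -- isoperimetric inequalities
  have hIE : IsopE C κI (C.vol / 2) ε :=
    isopE_half C (isopE58e hN'.bd hN'.regpl hN'.colb hε0.le hN'.nm (by linarith))
  have hIO : IsopO C κ' ε :=
    IsopO.mono_k (isopO58 hN'.bd hN'.regpl hN'.colb hε0.le hN'.nm (by linarith)) hκ'0.le hκ'.le
  set a₀ : ℝ := ε * (κI / (κI - κ')) with ha₀
  have a₀0 : 0 < a₀ := by positivity
  have a₀A : a₀ ≤ Am := by
    have h1 := mul_le_mul_of_nonneg_right hεb (show 0 ≤ κI / (κI - κ') by positivity)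
    have e : Am * ((κI - κ') / κI) * (κI / (κI - κ')) = Am := by
      field_simp
    rw [e] at h1
    exact h1
  have hκa : ∀ x, a₀ ≤ x → κ' * x ≤ κI * (x - ε) := fun x hx => by
    have h1 := mul_le_mul_of_nonneg_right hx hg.le
    have e : a₀ * (κI - κ') = ε * κI := by
      rw [ha₀]
      field_simp
    rw [e] at h1
    linarith
  have hN1 : 2 * Real.exp c ^ 2 ≤ N := by
    have h1 : Real.exp c ^ 2 ≤ Real.exp cu ^ 2 :=
      pow_le_pow_left₀ (Real.exp_pos c).le (Real.exp_le_exp.2 hc2) 2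
    linarith
  have hNc : (0 : ℝ) ≤ 2 * Real.exp c ^ 2 := by positivity
  have iν := nuN_int C hsph.lip (2 * Real.exp c ^ 2)
  have iν' := nuC_int' C hsph.lip
  have hνX : ∫ o, nuN C v (2 * Real.exp c ^ 2) o ∂C.μ ≤ Xc :=
    (integral_mono iν iν' fun o => min_le_left _ _).trans hP.tot
  have hfar : FarJ C (J := Unit) (umod η) 8 (C.vol / 2 * ρ 0) (C.vol / 2 * A mz) (∫ _, (0 : ℝ) ∂C.μ)
      (384 * κ' * z / V₀ * ε) (nuN C v (2 * Real.exp c ^ 2)) (fun _ => κ' * z / (C.vol / 2))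
      (fun _ => 0) (fun _ _ => True) := by
    intro s _ _ _ ξ lξ oξ bξ θ iθ θ0 θ1 _ hθ
    rw [ρ0, mul_one] at hθ
    refine ⟨(), by simp, trivial, ?_⟩
    exact far_half C hN'.bd hN'.regae hsph hκ'0 hIO hε0.le hz hφ V₀0 hvol
      (hεc.trans (min_le_left _ _)) (by
        have := hεc.trans (min_le_right _ _)
        linarith) lξ oξ bξ iθ θ0 θ1 hθ
  have hmain := pair_ring C hsph lη oη (R := 8) (by norm_num) hu8 hIE hκ'0 (n := n) (mz := mz)
    (a := fun j => C.vol / 2 * ρ j) (w := w) (A := fun j => C.vol / 2 * A j) (a₀ := a₀) (fun j => mul_pos (by positivity) (ρp j))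
    (by rw [ρ0, mul_one]) (fun j hj => mul_lt_mul_of_pos_left (ρd j hj) (by positivity))
    (by rw [A00]) (fun j => mul_pos (by positivity) (Ap j))
    (fun j hj => mul_lt_mul_of_pos_left (Ad j hj) (by positivity)) a₀0
    (a₀A.trans ((min_le_left _ _).trans
      (mul_le_mul_of_nonneg_right (by linarith) ρn0.le))) hκa w0 hw hw0
    (F := Fq C 2 q v T (2 * Real.exp c ^ 2)) (ν := nuN C v (2 * Real.exp c ^ 2)) (W := fun _ => 0)
    (Fq_int C iq hsph.lip hZ.lip _) iν (ae_of_all _ fun o => nuN_nonneg C v hNc o)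
    (N := N) (X := Xc) N0.le (ae_of_all _ fun o => (min_le_right _ _).trans hN1) hνX
    (integrable_const 0)
    (hout.mono fun o h => by
      change _ ≤ _ at h
      have e : (1 - 2 * 2 * umod η (C.pt o)) = 1 - 4 * umod η (C.pt o) := by ring
      rw [e]
      linarith)
    (PR := PR) (cm := cr) (fun y0 b0 h => (hring y0 b0 h).mono fun o h1 h2 y h3 h4 => by
      have h5 := h1 h2 y h3 h4
      have e : (1 - 2 * 2 * umod η (C.pt o)) = 1 - 4 * umod η (C.pt o) := by ring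
      rw [e]
      linarith)
    (J := Unit) (I := I)
    (q := fun _ => κ' * z / (C.vol / 2)) (b := fun _ => 0) (P := fun _ _ => True) (d := d)
    (Qf := fun _ i => Qf i) (Ql := fun _ i => Ql i) (e := 384 * κ' * z / V₀ * ε) (e1 := δ / 3)
    (fun _ => by positivity)
    hfar hd hcov (fun _ i => (hext i).scale hκ'0 (by positivity) (by linarith) ρp Ap)
    (fun _ i hi => (hextl i hi).scale hκ'0 (by positivity) (by linarith) ρp Ap) (ab := ab)
    (le_trans (mul_le_mul_of_nonneg_right (by linarith) ρn0.le) hab) (fun i => (hcore i).1)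
    (β := β) (k := ks) (qs := qs) (τ := τ) (bb := bb) hβ slope (fun _ i => scal i) hks0 hτq
    (a₀A.trans ((min_le_right _ _).trans (min_le_left _ _))) (fun i => (hcore i).2) slopeK hVK
  have hNa : N * a₀ ≤ δ / 3 := by
    have h1 : a₀ ≤ δ / 3 / N := a₀A.trans ((min_le_right _ _).trans (min_le_right _ _))
    rw [le_div_iff₀ N0] at h1
    linarith
  have hfe : 384 * κ' * z / V₀ * ε ≤ δ / 3 := by
    have h0 : 0 < 384 * κ' * z / V₀ := by positivity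
    rw [le_div_iff₀ h0] at hεd
    linarith
  refine ⟨2, q, by norm_num, le_rfl, iq, hQ, ?_, fun h hh hs => ?_⟩
  · have h1 := hmain.1
    linarith
  · have hcl : Real.exp (-c) ≤ Real.exp (-cl) := Real.exp_le_exp.2 (by linarith)
    have hqc : qs ≤ σ * (1 - Real.exp (-c)) :=
      hqs.trans (mul_le_mul_of_nonneg_left (by linarith) hσ.le)
    have hqy : qs ≤ σ * h := hqc.trans (mul_le_mul_of_nonneg_left hh hσ.le)
    have hT0 : 0 ≤ σ * h - τ := by linarith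
    have h2 := hs (σ * h - τ) hT0 (by linarith)
    have e2 : σ * h - (σ * h - τ) = τ := by ring
    rw [e2] at h2
    have hLc := Lc_pos Ee c
    have h3 : bb ≤ κ * τ ^ 2 / (4 * Lc Ee c ^ 2) := by
      rw [le_div_iff₀ (by positivity)]
      have h4 : Lc Ee c ^ 2 ≤ Lc Ee cu ^ 2 := pow_le_pow_left₀ hLc.le (Lc_mono hc2) 2
      have h5 := mul_le_mul_of_nonneg_right h4 hbb.le
      linarith
    have h6 : bb ≤ supa C (umod η) (σ * h - τ) := by linarith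
    have hT8 : σ * h - τ ≤ 8 := by
      by_contra hc
      have h7 : supa C (umod η) (σ * h - τ) = 0 := by
        unfold supa
        have : {o | σ * h - τ < |umod η (C.pt o)|} = ∅ := by
          ext o
          refine ⟨fun ho => ?_, fun ho => absurd ho (notMem_empty o)⟩
          have h8 : σ * h - τ < |umod η (C.pt o)| := ho
          rw [abs_of_nonneg (umod_nonneg η _)] at h8
          have := hu8 (C.pt o)
          exact absurd h8 (by push Not; linarith)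
        rw [this]
        simp
      linarith
    have h9 := hmain.2 (σ * h - τ) (σ * h) hT8 h6 (by linarith) hqy
    have h10 : 2 * k * (h - (1 - Real.exp (-c))) ≤ 2 * ks * (σ * h - qs) := by
      have h11 : 0 ≤ h - (1 - Real.exp (-c)) := by linarith
      have h12 := mul_le_mul_of_nonneg_right hks h11
      have h13 : ks * (σ * h - σ * (1 - Real.exp (-c))) ≤ ks * (σ * h - qs) :=
        mul_le_mul_of_nonneg_left (by linarith) hks0
      have e14 : σ * ks * (h - (1 - Real.exp (-c))) = ks * (σ * h - σ * (1 - Real.exp (-c))) := by ring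
      rw [e14] at h12
      linarith
    have : 0 ≤ N * a₀ := by positivity
    linarith


end Pool.Agent.FPX
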