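import Mathlib
import Pool.Agent.FPX.CRX
import Pool.Agent.FPX.CRS
import Pool.Agent.FPX.FINR
import Pool.Agent.FPX.FIMX

/-
CRY (helper89): the core of one cell of the modulus closing (`CoreCellR` of FINR) from pieces.
`PieceV`, `PieceK`: the values of the core for one piece `d : MPc`, up to any error, for the certificate `Q`.
`pieceV_tab`, `pieceK_tab`: a piece from a certificate with reserve (`MCR`) and a checked table, with the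
unshifted value function `T.V κ'`. `PieceV.mix`, `PieceK.mix`: chords in `h²`. `RingQ`: a ring member.
`coreCellR_of`: all together.
-/

open MeasureTheory Set Filter Topology
open scoped ENNReal NNReal

noncomputable section

namespace Pool.Agent.FPX

open Pool.Agent.EWD Pool.Agent.FPM

/-- the values of the core for one piece, up to any error -/
def PieceV (Q : E3 → E3 → E3 → E3 → E3 → ℝ) (Ee cl cu Xc ρn : ℝ) (d : MPc) : Prop :=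
  ∀ δ : ℝ, 0 < δ → ∀ cm : ℝ, ∃ ε₂ : ℝ, 0 < ε₂ ∧ ∀ ε, 0 < ε → ε ≤ ε₂ → ∀ (M : Type) [MetricSpace M]
    [CompactSpace M] [Nonempty M] (γ : ℝ → M) (C : Calc M γ), NearM C ε → C.vol < 2 * Real.pi →
    ∀ (c : ℝ) (v : Fin 3 → M → ℝ), cl ≤ c → c ≤ cu → PairX C Ee Xc cm c v →
    ∀ T : Fin 3 → M → ℝ, Pre γ T → TZ C 2 1 7 T →
      CoreV C (eta v T) (Fq C 2 (QC C Q v T) v T (2 * Real.exp c ^ 2)) (fun _ => 0)
        (nuN C v (2 * Real.exp c ^ 2)) 8 d.s0 d.s1 d.h1 (C.vol / 2 * ρn) d.V δ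

/-- the values of the core for one piece with the side charge, up to any error -/
def PieceK (Q : E3 → E3 → E3 → E3 → E3 → ℝ) (Ee cl cu Xc ks ρn bb : ℝ) (d : MPc) : Prop :=
  ∀ δ : ℝ, 0 < δ → ∀ cm : ℝ, ∃ ε₂ : ℝ, 0 < ε₂ ∧ ∀ ε, 0 < ε → ε ≤ ε₂ → ∀ (M : Type) [MetricSpace M]
    [CompactSpace M] [Nonempty M] (γ : ℝ → M) (C : Calc M γ), NearM C ε → C.vol < 2 * Real.pi →
    ∀ (c : ℝ) (v : Fin 3 → M → ℝ), cl ≤ c → c ≤ cu → PairX C Ee Xc cm c v →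
    ∀ T : Fin 3 → M → ℝ, Pre γ T → TZ C 2 1 7 T →
      CoreK C (eta v T) (Fq C 2 (QC C Q v T) v T (2 * Real.exp c ^ 2)) (fun _ => 0)
        (nuN C v (2 * Real.exp c ^ 2)) 8 d.s0 d.s1 d.h1 (C.vol / 2 * ρn) bb ks d.VK δ

/-- a ring member `(y₀, b₀)` on the levels `≥ cr` -/
def RingQ (Q : E3 → E3 → E3 → E3 → E3 → ℝ) (cr y₀ b₀ : ℝ) : Prop :=
  0 < cr ∧ MCR Q cr 0 fun y _ q => 2 * q ^ 2 - if 0 ≤ y ∧ y ≤ y₀ then b₀ * y ^ 2 else y ^ 2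

theorem fin_common {I : Type} [Finite I] {P : I → ℝ → Prop}
    (h : ∀ i, ∃ e : ℝ, 0 < e ∧ ∀ ε, 0 < ε → ε ≤ e → P i ε) :
    ∃ e : ℝ, 0 < e ∧ ∀ ε, 0 < ε → ε ≤ e → ∀ i, P i ε := by
  have := Fintype.ofFinite I
  obtain ⟨e, he, hP⟩ := cells_common (Finset.univ.toList : List I) (P := P) fun i _ => h i
  exact ⟨e, he, fun ε h0 h1 i => hP ε h0 h1 i (Finset.mem_toList.2 (Finset.mem_univ i))⟩

/-- the base member for the bounded charge -/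
theorem MCQ.fq_all {M : Type} [MetricSpace M] {γ : ℝ → M} {Q : E3 → E3 → E3 → E3 → E3 → ℝ} {ψ : ℝ → ℝ}
    (H : MCQ Q ψ) (C : Calc M γ) {v T : Fin 3 → M → ℝ} (hv : Sph γ v) (hT : TZ C 2 1 7 T) {N : ℝ}
    (hN : 0 ≤ N) : ∀ᵐ o ∂C.μ, Gη C (eta v T) o + (1 - 4 * umod (eta v T) (C.pt o)) * nuN C v N o ≤
      Fq C 2 (QC C Q v T) v T N o := by
  filter_upwards [H.mod_all C hv hT] with o h
  have h0 : 0 ≤ PE (enb (dx C v o) (dy C v o)) := PE_nonneg (by unfold enb; positivity)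
  have key := Fq_of C (q := QC C Q v T) hv hT le_rfl hN (A := Gη C (eta v T) o)
    (Lb := fun x => x) (fun a b _ hab => hab) (o := o) (by linarith)
  linarith

/-- the ring member for the bounded charge -/
theorem RingQ.fq {M : Type} [MetricSpace M] {γ : ℝ → M} {Q : E3 → E3 → E3 → E3 → E3 → ℝ} {cr y₀ b₀ : ℝ}
    (H : RingQ Q cr y₀ b₀) (C : Calc M γ) {v T : Fin 3 → M → ℝ} (hv : Sph γ v) (hT : TZ C 2 1 7 T)
    {N : ℝ} (hN : 0 ≤ N) : ∀ᵐ o ∂C.μ, cr ≤ umod (eta v T) (C.pt o) → ∀ y, 0 ≤ y → y ≤ y₀ →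
      2 * y * gn C (umod (eta v T)) o - b₀ * y ^ 2 + (1 - 4 * umod (eta v T) (C.pt o)) * nuN C v N o ≤
        Fq C 2 (QC C Q v T) v T N o := by
  filter_upwards [H.2.mod H.1 C hv hT] with o h hρ y y0 y1
  have h1 := h hρ y
  rw [if_pos ⟨y0, y1⟩, ← nuC_q] at h1
  have key := Fq_of C (q := QC C Q v T) hv hT le_rfl hN
    (A := 2 * y * gn C (umod (eta v T)) o - b₀ * y ^ 2)
    (Lb := fun x => x) (fun a b _ hab => hab) (o := o) (by linarith)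
  linarith

/-- **the core of one cell from its pieces** -/
theorem coreCellR_of {Q : E3 → E3 → E3 → E3 → E3 → ℝ} {ψ : ℝ → ℝ} (H : MCQ Q ψ)
    {Ee cl cu Xc ks ρn bb cr : ℝ} {PR : ℝ → ℝ → Prop} (hPR : ∀ y₀ b₀, PR y₀ b₀ → RingQ Q cr y₀ b₀)
    {I : Type} [Finite I] {d : I → MPc} (hV : ∀ i, PieceV Q Ee cl cu Xc ρn (d i))
    (hK : ∀ i, PieceK Q Ee cl cu Xc ks ρn bb (d i)) : CoreCellR Ee cl cu Xc ks ρn bb PR cr d := by
  intro δ hδ cm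
  obtain ⟨e1, he1, h1⟩ := fin_common fun i => hV i δ hδ cm
  obtain ⟨e2, he2, h2⟩ := fin_common fun i => hK i δ hδ cm
  refine ⟨min e1 e2, lt_min he1 he2, fun M _ _ _ γ C ε hε0 hε hN hvol c v hc1 hc2 hP T hT hZ => ?_⟩
  have hNc : (0 : ℝ) ≤ 2 * Real.exp c ^ 2 := by positivity
  exact ⟨QC C Q v T, H.cint C hP.sph hZ.lip, H.ae_low C hP.sph, H.fq_all C hP.sph hZ hNc,
    fun y₀ b₀ hy => (hPR y₀ b₀ hy).fq C hP.sph hZ hNc, fun i =>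
    ⟨h1 ε hε0 (hε.trans (min_le_left _ _)) i M γ C hN hvol c v hc1 hc2 hP T hT hZ,
      h2 ε hε0 (hε.trans (min_le_right _ _)) i M γ C hN hvol c v hc1 hc2 hP T hT hZ⟩⟩

/-! ### chords -/

theorem PieceV.mix {Q : E3 → E3 → E3 → E3 → E3 → ℝ} {ψ : ℝ → ℝ} (H : MCQ Q ψ)
    {Ee cl cu Xc ρn l : ℝ} {d₁ d₂ d : MPc} (h1 : PieceV Q Ee cl cu Xc ρn d₁)
    (h2 : PieceV Q Ee cl cu Xc ρn d₂) (s01 : d₁.s0 ≤ d.s0) (s02 : d₂.s0 ≤ d.s0) (s11 : d.s1 ≤ d₁.s1)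
    (s12 : d.s1 ≤ d₂.s1) (p1 : 0 ≤ d₁.h1) (q1 : d₁.h1 ≤ 1) (p2 : 0 ≤ d₂.h1) (q2 : d₂.h1 ≤ 1)
    (l0 : 0 ≤ l) (l1 : l ≤ 1) (hh : d.h1 ^ 2 ≤ (1 - l) * d₁.h1 ^ 2 + l * d₂.h1 ^ 2)
    (hV : d.V = vmix l d₁.V d₂.V) : PieceV Q Ee cl cu Xc ρn d := by
  intro δ hδ cm
  obtain ⟨e1, he1, h1⟩ := h1 δ hδ cm
  obtain ⟨e2, he2, h2⟩ := h2 δ hδ cm
  refine ⟨min e1 e2, lt_min he1 he2, fun ε hε0 hε M _ _ _ γ C hN hvol c v hc1 hc2 hP T hT hZ => ?_⟩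
  have k1 := h1 ε hε0 (hε.trans (min_le_left _ _)) M γ C hN hvol c v hc1 hc2 hP T hT hZ
  have k2 := h2 ε hε0 (hε.trans (min_le_right _ _)) M γ C hN hvol c v hc1 hc2 hP T hT hZ
  rw [hV]
  have := C.fin
  refine CoreV.mix (lip_eta hP.sph.lip hZ.lip)
    (Fq_int C (H.cint C hP.sph hZ.lip) hP.sph.lip hZ.lip _) (integrable_zero _ _ _) p1 q1 p2 q2 l0 l1 hh
    (fun Hh s a1 a2 => k1 Hh s (s01.trans a1) (a2.trans s11))
    (fun Hh s a1 a2 => k2 Hh s (s02.trans a1) (a2.trans s12))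

theorem PieceK.mix {Q : E3 → E3 → E3 → E3 → E3 → ℝ} {ψ : ℝ → ℝ} (H : MCQ Q ψ)
    {Ee cl cu Xc ks ρn bb l : ℝ} {d₁ d₂ d : MPc} (h1 : PieceK Q Ee cl cu Xc ks ρn bb d₁)
    (h2 : PieceK Q Ee cl cu Xc ks ρn bb d₂) (s01 : d₁.s0 ≤ d.s0) (s02 : d₂.s0 ≤ d.s0)
    (s11 : d.s1 ≤ d₁.s1) (s12 : d.s1 ≤ d₂.s1) (p1 : 0 ≤ d₁.h1) (q1 : d₁.h1 ≤ 1) (p2 : 0 ≤ d₂.h1)
    (q2 : d₂.h1 ≤ 1) (l0 : 0 ≤ l) (l1 : l ≤ 1)
    (hh : d.h1 ^ 2 ≤ (1 - l) * d₁.h1 ^ 2 + l * d₂.h1 ^ 2)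
    (hV : d.VK = vmix l d₁.VK d₂.VK) : PieceK Q Ee cl cu Xc ks ρn bb d := by
  intro δ hδ cm
  obtain ⟨e1, he1, h1⟩ := h1 δ hδ cm
  obtain ⟨e2, he2, h2⟩ := h2 δ hδ cm
  refine ⟨min e1 e2, lt_min he1 he2, fun ε hε0 hε M _ _ _ γ C hN hvol c v hc1 hc2 hP T hT hZ => ?_⟩
  have k1 := h1 ε hε0 (hε.trans (min_le_left _ _)) M γ C hN hvol c v hc1 hc2 hP T hT hZ
  have k2 := h2 ε hε0 (hε.trans (min_le_right _ _)) M γ C hN hvol c v hc1 hc2 hP T hT hZ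
  rw [hV]
  have := C.fin
  refine CoreK.mix (lip_eta hP.sph.lip hZ.lip)
    (Fq_int C (H.cint C hP.sph hZ.lip) hP.sph.lip hZ.lip _) (integrable_zero _ _ _) p1 q1 p2 q2 l0 l1 hh
    (fun Hh s L a1 a2 => k1 Hh s L (s01.trans a1) (a2.trans s11))
    (fun Hh s L a1 a2 => k2 Hh s L (s02.trans a1) (a2.trans s12))

/-! ### pieces from tables -/

/-- the facts about a table which do not depend on the shift -/
structure TabP (T : MCW.Tab) (κ' N X : ℝ) : Prop where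
  g : T.Good
  hI : 0 < T.I
  hJ : 0 < T.J
  hW : 0 ≤ T.Wm
  hκ : 0 < κ'
  hκ1 : κ' < 10000 / 5439 * Real.pi
  hN : 0 < N
  hN1 : N ≤ (T.f0 : ℝ) / T.S * Real.exp (T.I / T.H)
  hX : 4 / κ' * X * T.Kd < T.J

theorem TabP.par {T : MCW.Tab} {κ' N X : ℝ} (h : TabP T κ' N X) {a' : ℝ} (ha : 0 < a')
    (h1 : 4 / κ' * (N * a') * T.Kd ≤ T.J - 4 / κ' * X * T.Kd) : T.Par κ' a' N X where
  g := h.g
  hI := h.hI
  hJ := h.hJ
  hκ := h.hκ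
  ha := ha
  hN := h.hN
  hN1 := h.hN1
  hX := by linarith

/-- the choice of the small parameters -/
theorem TabP.small {T : MCW.Tab} {κ' N X : ℝ} (h : TabP T κ' N X) {δ bb t : ℝ}
    (hδ : 0 < δ) (hbb : 0 < bb) (ht : 0 < t) : ∃ a' : ℝ, 0 < a' ∧ a' ≤ t ∧ a' ≤ bb ∧
      T.Par κ' a' N X ∧ N * (a' + a') * ((T.Wm : ℝ) / T.S) + 4 * 8 * N * a' ≤ δ := by
  have hS : (0 : ℝ) < T.S := by exact_mod_cast h.g.S
  have hKd : (0 : ℝ) < T.Kd := by exact_mod_cast h.g.K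
  have hW : (0 : ℝ) ≤ (T.Wm : ℝ) / T.S := div_nonneg (by exact_mod_cast h.hW) hS.le
  have hκ := h.hκ
  have hN := h.hN
  have hX := h.hX
  set B := 2 * N * ((T.Wm : ℝ) / T.S) + 32 * N + 1 with hB
  have B0 : 0 < B := by positivity
  set r := (T.J - 4 / κ' * X * T.Kd) / (4 / κ' * N * T.Kd) with hr
  have hd : 0 < 4 / κ' * N * T.Kd := by positivity
  have r0 : 0 < r := div_pos (by linarith) hd
  have m0 : 0 < min (min t bb) (min (δ / B) r) := lt_min (lt_min ht hbb) (lt_min (by positivity) r0)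
  refine ⟨min (min t bb) (min (δ / B) r), m0, ?_, ?_, ?_, ?_⟩
  · exact (min_le_left _ _).trans (min_le_left _ _)
  · exact (min_le_left _ _).trans (min_le_right _ _)
  · refine h.par m0 ?_
    have h1 : min (min t bb) (min (δ / B) r) ≤ r := (min_le_right _ _).trans (min_le_right _ _)
    rw [hr, le_div_iff₀ hd] at h1
    linarith
  · have h1 : min (min t bb) (min (δ / B) r) ≤ δ / B := (min_le_right _ _).trans (min_le_left _ _)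
    rw [le_div_iff₀ B0] at h1
    rw [hB] at h1
    linarith

section near

variable {M : Type} [MetricSpace M] [CompactSpace M] {γ : ℝ → M}

/-- the isoperimetric side of a surface near the model, for small `ε` -/
theorem near_iso {κ' a₀ ε : ℝ} (hκ1 : κ' < 10000 / 5439 * Real.pi) (hκ : 0 < κ') (ha0 : 0 < a₀)
    (hε0 : 0 < ε) (hε : ε ≤ a₀ * ((10000 / 5439 * Real.pi - κ') / (10000 / 5439 * Real.pi))) {C : Calc M γ}
    (hN : NearM C ε) (hvol : C.vol < 2 * Real.pi) : IsopE C (10000 / 5439 * Real.pi) (C.vol / 2) ε ∧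
      ∀ a, a₀ ≤ a → κ' * a ≤ 10000 / 5439 * Real.pi * (a - ε) := by
  have hpi := Real.pi_pos
  refine ⟨isopE_half C (isopE58e hN.bd hN.regpl hN.colb hε0.le hN.nm (by linarith)), fun a ha => ?_⟩
  set κI : ℝ := 10000 / 5439 * Real.pi with hκI
  have k0 : 0 < κI := hκ.trans hκ1
  have h1 : κI * ε ≤ a₀ * (κI - κ') := by
    have := mul_le_mul_of_nonneg_left hε k0.le
    have e : κI * (a₀ * ((κI - κ') / κI)) = a₀ * (κI - κ') := by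
      field_simp
    rw [e] at this
    exact this
  have h2 : a₀ * (κI - κ') ≤ a * (κI - κ') := mul_le_mul_of_nonneg_right ha (by linarith)
  linarith

end near

theorem PairX.nuN_le' {M : Type} [MetricSpace M] {γ : ℝ → M} [CompactSpace M] {C : Calc M γ}
    {Ee Xc cm c : ℝ} {v : Fin 3 → M → ℝ} (h : PairX C Ee Xc cm c v) (N : ℝ) :
    ∫ o, nuN C v N o ∂C.μ ≤ Xc :=
  (integral_mono (nuN_int C h.sph.lip N) (nuC_int' C h.sph.lip) fun _ => min_le_left _ _).trans h.tot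

theorem odd_eta' {M : Type} [MetricSpace M] {γ : ℝ → M} {v T : Fin 3 → M → ℝ} (hv : Sph γ v)
    (hT : Pre γ T) (i : Fin 3) : FPM.OddB γ (eta v T i) := fun s => by
  have h1 := hT.odd i s
  have h2 := hv.odd i s
  unfold eta
  rw [h1, h2]
  ring

/-- **the piece of a table** -/
theorem pieceV_tab {Q : E3 → E3 → E3 → E3 → E3 → ℝ} {ψ : ℝ → ℝ} (HQ : MCQ Q ψ) {ρ₀ θ : ℝ}
    {Ψ : ℝ → ℝ → ℝ → ℝ} (H : MCR Q ρ₀ θ Ψ) (hρ₀ : 0 < ρ₀) {T : MCW.Tab} (hT : TabC T Ψ)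
    {κ' N Xc : ℝ} (hP : TabP T κ' N Xc) {Ee cl cu ρn : ℝ}
    (hNc : 2 * Real.exp cu ^ 2 ≤ N) (hρ1 : ρn ≤ 1) {d : MPc} (hs0 : ρ₀ ≤ d.s0)
    (hh : d.h1 ^ 2 ≤ θ) (hV : d.V = T.V κ') : PieceV Q Ee cl cu Xc ρn d := by
  intro δ hδ cm
  obtain ⟨t, ht, hsh⟩ := shift_ok T κ' hP.hN.le (half_pos hδ)
  obtain ⟨a', ha, ha1, -, hPar, hsm⟩ := hP.small (half_pos hδ) one_pos ht
  have hpi := Real.pi_pos
  have k0 : 0 < 10000 / 5439 * Real.pi := hP.hκ.trans hP.hκ1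
  refine ⟨a' * ((10000 / 5439 * Real.pi - κ') / (10000 / 5439 * Real.pi)),
    mul_pos ha (div_pos (by linarith [hP.hκ1]) k0), ?_⟩
  intro ε hε0 hε M _ _ _ γ C hN hvol c v hc1 hc2 hPX Tf hTf hZ
  have := C.fin
  obtain ⟨hI, hκa⟩ := near_iso hP.hκ1 hP.hκ ha hε0 hε hN hvol
  have hv0 : 0 ≤ C.vol := ENNReal.toReal_nonneg
  have hN1 : 2 * Real.exp c ^ 2 ≤ N := by
    have h1 : Real.exp c ^ 2 ≤ Real.exp cu ^ 2 :=
      pow_le_pow_left₀ (Real.exp_pos c).le (Real.exp_le_exp.2 hc2) 2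
    linarith
  have hNc0 : (0 : ℝ) ≤ 2 * Real.exp c ^ 2 := by positivity
  have hab : C.vol / 2 * ρn ≤ C.vol / 2 := by
    have := mul_le_mul_of_nonneg_left hρ1 (show 0 ≤ C.vol / 2 by positivity)
    linarith
  have key := coreV_tab (s1 := d.s1) (e := δ / 2) H hρ₀ hT hPar hP.hW C hPX.sph hZ (odd_eta' hPX.sph hTf) hI hκa ha
    (HQ.cint C hPX.sph hZ.lip) hNc0 hN1 (hPX.nuN_le' _) hs0 hh hab (le_refl (8 : ℝ)) (by linarith)
  intro Hh s a1 a2 a3 a4 a5 a6 a7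
  have k1 := key Hh s a1 a2 a3 a4 a5 a6 a7
  simp only at k1
  rw [hV]
  have sa0 : 0 ≤ supa C (umod (eta v Tf)) s := ENNReal.toReal_nonneg
  have n0 : ∀ᵐ o ∂C.μ, 0 ≤ nuN C v (2 * Real.exp c ^ 2) o := ae_of_all _ fun o => nuN_nonneg C v hNc0 o
  have sw0 : 0 ≤ supw C (umod (eta v Tf)) (nuN C v (2 * Real.exp c ^ 2)) s :=
    setIntegral_nonneg_of_ae_restrict (ae_restrict_of_ae n0)
  have i2 := nuN_int C hPX.sph.lip (2 * Real.exp c ^ 2)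
  have swN : supw C (umod (eta v Tf)) (nuN C v (2 * Real.exp c ^ 2)) s ≤
      N * supa C (umod (eta v Tf)) s := by
    have h2 : ∫ o in {o | s < |umod (eta v Tf) (C.pt o)|}, nuN C v (2 * Real.exp c ^ 2) o ∂C.μ ≤
        ∫ _ in {o | s < |umod (eta v Tf) (C.pt o)|}, N ∂C.μ :=
      setIntegral_mono_ae i2.integrableOn (integrable_const _).integrableOn
        (ae_of_all _ fun o => (nuN_le' C v _ o).trans hN1)
    rw [setIntegral_const, smul_eq_mul] at h2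
    rw [mul_comm N]
    exact h2
  have k2 := hsh a' ha.le ha1 _ _ sa0 (a7.trans (hab.trans (by linarith [Real.pi_lt_four]))) sw0 swN
  linarith

/-- **the piece of a table with the side charge** -/
theorem pieceK_tab {Q : E3 → E3 → E3 → E3 → E3 → ℝ} {ψ : ℝ → ℝ} (HQ : MCQ Q ψ) {ρ₀ θ : ℝ}
    {Ψ : ℝ → ℝ → ℝ → ℝ} (H : MCR Q ρ₀ θ Ψ) (hρ₀ : 0 < ρ₀) {T : MCW.Tab} (hT : TabC T Ψ)
    (hb1 : ∀ e ∈ T.L, e.2.2 ≤ T.S)
    {κ' N Xc : ℝ} (hP : TabP T κ' N Xc) {Ee cl cu ks ρn bb : ℝ}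
    (hNc : 2 * Real.exp cu ^ 2 ≤ N) (hρ1 : ρn ≤ 1) (hk : 0 ≤ ks) (hk0 : 4 / κ' * ks ≤ T.n0 / T.Kd)
    (hbb : 0 < bb) {d : MPc} (hs0 : ρ₀ ≤ d.s0) (hh : d.h1 ^ 2 ≤ θ)
    (hV : d.VK = fun a m => T.V κ' a m - ks ^ 2 / κ' * Real.log (a / bb)) :
    PieceK Q Ee cl cu Xc ks ρn bb d := by
  intro δ hδ cm
  obtain ⟨t, ht, hsh⟩ := shift_ok T κ' hP.hN.le (half_pos hδ)
  obtain ⟨a', ha, ha1, hab', hPar, hsm⟩ := hP.small (half_pos hδ) hbb ht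
  have hpi := Real.pi_pos
  have k0 : 0 < 10000 / 5439 * Real.pi := hP.hκ.trans hP.hκ1
  refine ⟨a' * ((10000 / 5439 * Real.pi - κ') / (10000 / 5439 * Real.pi)),
    mul_pos ha (div_pos (by linarith [hP.hκ1]) k0), ?_⟩
  intro ε hε0 hε M _ _ _ γ C hN hvol c v hc1 hc2 hPX Tf hTf hZ
  have := C.fin
  obtain ⟨hI, hκa⟩ := near_iso hP.hκ1 hP.hκ ha hε0 hε hN hvol
  have hv0 : 0 ≤ C.vol := ENNReal.toReal_nonneg
  have hN1 : 2 * Real.exp c ^ 2 ≤ N := by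
    have h1 : Real.exp c ^ 2 ≤ Real.exp cu ^ 2 :=
      pow_le_pow_left₀ (Real.exp_pos c).le (Real.exp_le_exp.2 hc2) 2
    linarith
  have hNc0 : (0 : ℝ) ≤ 2 * Real.exp c ^ 2 := by positivity
  have hab : C.vol / 2 * ρn ≤ C.vol / 2 := by
    have := mul_le_mul_of_nonneg_left hρ1 (show 0 ≤ C.vol / 2 by positivity)
    linarith
  have key := coreK_tab (s1 := d.s1) (e := δ / 2) H hρ₀ hT hb1 hPar hP.hW C hPX.sph hZ (odd_eta' hPX.sph hTf) hI hκa ha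
    (HQ.cint C hPX.sph hZ.lip) hNc0 hN1 (hPX.nuN_le' _) hk hk0 hs0 hh hab hab' (le_refl (8 : ℝ))
    (by linarith)
  intro Hh s L a1 a2 a3 a3' a4 a5 a6 a7 a8
  have k1 := key Hh s L a1 a2 a3 a3' a4 a5 a6 a7 a8
  simp only at k1
  rw [hV]
  simp only
  have sa0 : 0 ≤ supa C (umod (eta v Tf)) s := ENNReal.toReal_nonneg
  have n0 : ∀ᵐ o ∂C.μ, 0 ≤ nuN C v (2 * Real.exp c ^ 2) o := ae_of_all _ fun o => nuN_nonneg C v hNc0 o
  have sw0 : 0 ≤ supw C (umod (eta v Tf)) (nuN C v (2 * Real.exp c ^ 2)) s :=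
    setIntegral_nonneg_of_ae_restrict (ae_restrict_of_ae n0)
  have i2 := nuN_int C hPX.sph.lip (2 * Real.exp c ^ 2)
  have swN : supw C (umod (eta v Tf)) (nuN C v (2 * Real.exp c ^ 2)) s ≤
      N * supa C (umod (eta v Tf)) s := by
    have h2 : ∫ o in {o | s < |umod (eta v Tf) (C.pt o)|}, nuN C v (2 * Real.exp c ^ 2) o ∂C.μ ≤
        ∫ _ in {o | s < |umod (eta v Tf) (C.pt o)|}, N ∂C.μ :=
      setIntegral_mono_ae i2.integrableOn (integrable_const _).integrableOn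
        (ae_of_all _ fun o => (nuN_le' C v _ o).trans hN1)
    rw [setIntegral_const, smul_eq_mul] at h2
    rw [mul_comm N]
    exact h2
  have k2 := hsh a' ha.le ha1 _ _ sa0 (a7.trans (hab.trans (by linarith [Real.pi_lt_four]))) sw0 swN
  linarith

end Pool.Agent.FPX
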