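import Mathlib
import Pool.Agent.FPX.CBD

/-
FOD (helper99): computable definitions of the outer table (leaf module for the data).
-/

namespace Pool.Agent.FPX.FOD

open Pool.Agent.FPX.VTB

/-- one interval `[w0, w1]` of the charge of the core: `g = h + c1 h² + c2 h³`, constant `K`,
`lG ≥ log ((4π - β) / β)` at `β = α₀ - w0` -/
structure Row where
  w0 : ℚ
  w1 : ℚ
  c1 : ℚ
  c2 : ℚ
  K : ℚ
  lG : ℚ

/-- upper bounds of the primitives of `h`, `h²`, `h³` at `β` -/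
def u1 (lG : ℚ) : ℚ := lG / (4 * 3.141592)

def u2 (β lG : ℚ) : ℚ :=
  1 / (8 * 3.141592 ^ 2) * u1 lG + 1 / (16 * 3.141592 ^ 2) * (β⁻¹ - (4 * 3.141593 - β)⁻¹)

def u3 (β lG : ℚ) : ℚ :=
  1 / (16 * 3.141592 ^ 2) * (3 * u2 β lG +
    1 / (8 * 3.141592) * (β⁻¹ ^ 2 - (4 * 3.141593 - β)⁻¹ ^ 2))

/-- the conditions of one row -/
def rowOk (X a Rm : ℚ) (r : Row) : Bool :=
  decide (0 ≤ r.w0 ∧ r.w0 ≤ r.w1 ∧ r.w1 ≤ X ∧ 0 < a - (X + r.w1) / 2 ∧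
    a - (X + r.w1) / 2 + X ≤ 157 / 25 ∧ a - r.w0 ≤ 157 / 25 ∧ 0 < r.K ∧ 0 ≤ r.c1 ∧ 0 ≤ r.c2 ∧
    1 ≤ 2 * r.K * r.c1 ∧
    (1 + r.c1 * hUp (a - (X + r.w1) / 2) + r.c2 * hUp (a - (X + r.w1) / 2) ^ 2) ^ 2 ≤
      2 * r.K * (r.c1 + r.c2 * hUp (a - (X + r.w1) / 2)) ∧
    hUp (a - (X + r.w1) / 2) * (1 + r.c1 * hUp (a - (X + r.w1) / 2) +
      r.c2 * hUp (a - (X + r.w1) / 2) ^ 2) ≤ r.K ∧
    lgOk ((4 * 3.141593 - (a - r.w0)) / (a - r.w0)) r.lG = true ∧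
    u1 r.lG + r.c1 * u2 (a - r.w0) r.lG + r.c2 * u3 (a - r.w0) r.lG + r.K * (X - r.w0) ≤ Rm)

/-- the rows are valid and cover `[p, X]` -/
def cover (X a Rm : ℚ) : ℚ → List Row → Bool
  | p, [] => decide (X < p)
  | p, r :: l => decide (r.w0 ≤ p) && rowOk X a Rm r && (decide (X ≤ r.w1) || cover X a Rm r.w1 l)

def ouOk (X a Rm : ℚ) (l : List Row) : Bool := decide (0 < Rm ∧ X < a) && cover X a Rm 0 l

/-- rational twins of `phJ`, `ppJ`, `FJ` (core certificate in closed form) -/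
def phQ (x : ℚ) : ℚ := 1 - x + x ^ 2 / 4 - x ^ 3 / 36

def ppQ (x : ℚ) : ℚ := 1 - x / 2 + x ^ 2 / 12

def FQ (x : ℚ) : ℚ := x * ppQ x / phQ x

/-- one entry of the far table: loss `D` of area, resistance `Rm`, parameter `z = q a₁ / κ` -/
structure Far where
  D : ℚ
  z : ℚ
  Rm : ℚ
  rows : List Row

/-- the conditions of an entry -/
def farOk (κ X a₁ : ℚ) (d : Far) : Bool :=
  decide (0 < κ ∧ 0 < a₁ ∧ X ≤ 157 / 25 ∧ 0 ≤ d.D ∧ d.D ≤ a₁ ∧ 0 < d.z ∧ 0 < phQ d.z ∧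
    κ * FQ d.z * d.Rm ≤ 1) &&
    ouOk X (a₁ - d.D) d.Rm d.rows

/-- the far table -/
def ftabOk (κ X a₁ : ℚ) (l : List Far) : Bool := l.all (farOk κ X a₁)

/-- the pairs `(q, b)`: coefficient `q`, lower bound `b` of the energy price; `(0, b)` at the end -/
def ftabQ (κ a₁ : ℚ) : ℚ → List Far → List (ℚ × ℚ)
  | b, [] => [(0, b)]
  | b, d :: l => (κ * d.z / a₁, b) :: ftabQ κ a₁ (d.D ^ 2 / (4 * a₁)) l

end Pool.Agent.FPX.FOD
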