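import Mathlib
import Pool.Agent.FPX.FOA
import Pool.Agent.FPX.FOD
import Pool.Agent.FPX.VTB
import Pool.Agent.FPX.VDB

/-
FON (helper99): `OutN` from a Boolean table; the hypothesis `hfar` of the modulus closing in numbers.
-/

open MeasureTheory Set Filter Topology
open scoped ENNReal NNReal

noncomputable section

namespace Pool.Agent.FPX

open Pool.Agent.EWD Pool.Agent.FPM Pool.Agent.FPX.VTB Pool.Agent.FPX.FOD

variable {M : Type} [MetricSpace M] {γ : ℝ → M}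

theorem imL_two_pi : imL (2 * Real.pi) = 0 := by
  unfold imL
  have : 4 * Real.pi - 2 * Real.pi = 2 * Real.pi := by ring
  rw [this, sub_self, mul_zero]

theorem imG2_two_pi : imG2 (2 * Real.pi) = 0 := by
  unfold imG2
  have : 4 * Real.pi - 2 * Real.pi = 2 * Real.pi := by ring
  rw [this, imL_two_pi]
  ring

theorem imG3_two_pi : imG3 (2 * Real.pi) = 0 := by
  unfold imG3
  have : 4 * Real.pi - 2 * Real.pi = 2 * Real.pi := by ring
  rw [this, imG2_two_pi]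
  ring

/-- the algebra: the cubic `g` satisfies the inequality on `[0, H]` if it does at the ends -/
theorem fon_alg {c1 c2 K H h : ℝ} (h1 : 0 ≤ c1) (h2 : 0 ≤ c2) (hK : 0 < K) (hh : 0 ≤ h) (hH : h ≤ H)
    (e0 : 1 ≤ 2 * K * c1) (e1 : (1 + c1 * H + c2 * H ^ 2) ^ 2 ≤ 2 * K * (c1 + c2 * H)) :
    h ≤ (h + c1 * h ^ 2 + c2 * h ^ 3) - (h + c1 * h ^ 2 + c2 * h ^ 3) ^ 2 / (2 * K) := by
  have key : (1 + c1 * h + c2 * h ^ 2) ^ 2 ≤ 2 * K * (c1 + c2 * h) := by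
    rcases hh.eq_or_lt with h0 | h0
    · rw [← h0]
      simpa using e0
    · have hHp : 0 < H := h0.trans_le hH
      set s := h / H with hs
      have s0 : 0 ≤ s := by positivity
      have s1 : s ≤ 1 := (div_le_one hHp).2 hH
      have eh : h = s * H := by rw [hs]; field_simp
      have s2 : s ^ 2 ≤ s := by nlinarith
      have s3 : s ^ 3 ≤ s := by nlinarith [mul_nonneg s0 (sub_nonneg.2 s2)]
      have s4 : s ^ 4 ≤ s := by nlinarith [mul_nonneg s0 (sub_nonneg.2 s3)]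
      have p1 : 0 ≤ 2 * c1 * H := by positivity
      have p2 : 0 ≤ (c1 ^ 2 + 2 * c2) * H ^ 2 := by positivity
      have p3 : 0 ≤ 2 * c1 * c2 * H ^ 3 := by positivity
      have p4 : 0 ≤ c2 ^ 2 * H ^ 4 := by positivity
      have q2 := mul_le_mul_of_nonneg_right s2 p2
      have q3 := mul_le_mul_of_nonneg_right s3 p3
      have q4 := mul_le_mul_of_nonneg_right s4 p4
      have ex : (1 + c1 * h + c2 * h ^ 2) ^ 2 = 1 + s * (2 * c1 * H) + s ^ 2 * ((c1 ^ 2 + 2 * c2) * H ^ 2) +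
          s ^ 3 * (2 * c1 * c2 * H ^ 3) + s ^ 4 * (c2 ^ 2 * H ^ 4) := by
        rw [eh]; ring
      have eX : (1 + c1 * H + c2 * H ^ 2) ^ 2 = 1 + 2 * c1 * H + (c1 ^ 2 + 2 * c2) * H ^ 2 +
          2 * c1 * c2 * H ^ 3 + c2 ^ 2 * H ^ 4 := by ring
      have er : 2 * K * (c1 + c2 * h) = (1 - s) * (2 * K * c1) + s * (2 * K * (c1 + c2 * H)) := by
        rw [eh]; ring
      have m1 := mul_le_mul_of_nonneg_left e1 s0
      have m0 := mul_le_mul_of_nonneg_left e0 (sub_nonneg.2 s1)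
      rw [er, ex]
      rw [eX] at m1
      linarith
  have h3 : (h + c1 * h ^ 2 + c2 * h ^ 3) ^ 2 = h ^ 2 * (1 + c1 * h + c2 * h ^ 2) ^ 2 := by ring
  have h4 : (h + c1 * h ^ 2 + c2 * h ^ 3) ^ 2 / (2 * K) ≤ c1 * h ^ 2 + c2 * h ^ 3 := by
    rw [div_le_iff₀ (by positivity), h3]
    calc h ^ 2 * (1 + c1 * h + c2 * h ^ 2) ^ 2 ≤ h ^ 2 * (2 * K * (c1 + c2 * h)) :=
          mul_le_mul_of_nonneg_left key (sq_nonneg h)
      _ = (c1 * h ^ 2 + c2 * h ^ 3) * (2 * K) := by ring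
  linarith

/-- upper bounds of the primitives -/
theorem fon_up {β lG : ℚ} (hβ : 0 < β) (hβ2 : β ≤ 157 / 25)
    (h : lgOk ((4 * 3.141593 - β) / β) lG = true) :
    imL β ≤ u1 lG ∧ imG2 β ≤ u2 β lG ∧ imG3 β ≤ u3 β lG := by
  have hpi := Real.pi_pos
  have p1 : (3.141592 : ℝ) < Real.pi := Real.pi_gt_d6
  have p2 : Real.pi < (3.141593 : ℝ) := Real.pi_lt_d6
  have ra : (0 : ℝ) < β := by exact_mod_cast hβ
  have ra2 : (β : ℝ) ≤ 157 / 25 := by
    have : ((157 / 25 : ℚ) : ℝ) = 157 / 25 := by push_cast; ring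
    rw [← this]
    exact_mod_cast hβ2
  have hl0 : (0 : ℝ) ≤ lG := by exact_mod_cast lgOk_nonneg h
  have hL : Real.log ((4 * 3.141593 - (β : ℝ)) / β) ≤ lG := by
    have e := lgOk_le h
    push_cast at e
    exact e
  have h1 : Real.log (4 * Real.pi - β) - Real.log β ≤ lG := by
    refine le_trans ?_ hL
    rw [Real.log_div (by linarith) ra.ne']
    have : Real.log (4 * Real.pi - β) ≤ Real.log (4 * 3.141593 - β) :=
      Real.log_le_log (by linarith) (by linarith)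
    linarith
  have h2 : imL β ≤ lG / (4 * 3.141592) := by
    unfold imL
    have e1 : (1 / (4 * Real.pi)) * (Real.log (4 * Real.pi - β) - Real.log β) ≤
        (1 / (4 * Real.pi)) * lG := mul_le_mul_of_nonneg_left h1 (by positivity)
    have e2 : (1 / (4 * Real.pi)) * (lG : ℝ) ≤ (1 / (4 * 3.141592)) * lG := by
      refine mul_le_mul_of_nonneg_right ?_ hl0
      exact one_div_le_one_div_of_le (by norm_num) (by linarith)
    have e3 : (1 / (4 * 3.141592)) * (lG : ℝ) = lG / (4 * 3.141592) := by ring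
    linarith
  have hu1 : imL β ≤ (u1 lG : ℝ) := by
    unfold u1
    push_cast
    exact h2
  have u1n : (0 : ℝ) ≤ u1 lG := by
    unfold u1
    push_cast
    positivity
  have hi : (4 * 3.141593 - (β : ℝ))⁻¹ ≤ (4 * Real.pi - β)⁻¹ := inv_anti₀ (by linarith) (by linarith)
  have hip : (0 : ℝ) < (4 * 3.141593 - (β : ℝ))⁻¹ := inv_pos.2 (by linarith)
  have hib : (4 * 3.141593 - (β : ℝ))⁻¹ ≤ (β : ℝ)⁻¹ := inv_anti₀ ra (by linarith)
  have sq1 : (3.141592 : ℝ) ^ 2 ≤ Real.pi ^ 2 := pow_le_pow_left₀ (by norm_num) p1.le 2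
  have hu2 : imG2 β ≤ (u2 β lG : ℝ) := by
    have a1 : (1 / (8 * Real.pi ^ 2)) * imL β ≤ 1 / (8 * 3.141592 ^ 2) * u1 lG := by
      have e1 : (1 / (8 * Real.pi ^ 2)) * imL β ≤ (1 / (8 * Real.pi ^ 2)) * u1 lG :=
        mul_le_mul_of_nonneg_left hu1 (by positivity)
      have e2 : (1 / (8 * Real.pi ^ 2)) * (u1 lG : ℝ) ≤ 1 / (8 * 3.141592 ^ 2) * u1 lG := by
        refine mul_le_mul_of_nonneg_right ?_ u1n
        exact one_div_le_one_div_of_le (by norm_num) (by linarith)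
      exact e1.trans e2
    have a2 : 1 / (16 * Real.pi ^ 2) * ((β : ℝ)⁻¹ - (4 * Real.pi - β)⁻¹) ≤
        1 / (16 * 3.141592 ^ 2) * ((β : ℝ)⁻¹ - (4 * 3.141593 - (β : ℝ))⁻¹) := by
      have e1 : 1 / (16 * Real.pi ^ 2) * ((β : ℝ)⁻¹ - (4 * Real.pi - β)⁻¹) ≤
          1 / (16 * Real.pi ^ 2) * ((β : ℝ)⁻¹ - (4 * 3.141593 - (β : ℝ))⁻¹) :=
        mul_le_mul_of_nonneg_left (by linarith) (by positivity)
      refine e1.trans (mul_le_mul_of_nonneg_right ?_ (by linarith))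
      exact one_div_le_one_div_of_le (by norm_num) (by linarith)
    unfold imG2 u2
    push_cast
    linarith
  have u2n : (0 : ℝ) ≤ u2 β lG := by
    unfold u2
    push_cast
    have : (0 : ℝ) ≤ (β : ℝ)⁻¹ - (4 * 3.141593 - (β : ℝ))⁻¹ := by linarith
    positivity
  have hu3 : imG3 β ≤ (u3 β lG : ℝ) := by
    have b0 : (4 * 3.141593 - (β : ℝ))⁻¹ ^ 2 ≤ (4 * Real.pi - β)⁻¹ ^ 2 :=
      pow_le_pow_left₀ hip.le hi 2
    have b1 : (4 * 3.141593 - (β : ℝ))⁻¹ ^ 2 ≤ (β : ℝ)⁻¹ ^ 2 := pow_le_pow_left₀ hip.le hib 2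
    have a1 : 1 / (8 * Real.pi) * ((β : ℝ)⁻¹ ^ 2 - (4 * Real.pi - β)⁻¹ ^ 2) ≤
        1 / (8 * 3.141592) * ((β : ℝ)⁻¹ ^ 2 - (4 * 3.141593 - (β : ℝ))⁻¹ ^ 2) := by
      have e1 : 1 / (8 * Real.pi) * ((β : ℝ)⁻¹ ^ 2 - (4 * Real.pi - β)⁻¹ ^ 2) ≤
          1 / (8 * Real.pi) * ((β : ℝ)⁻¹ ^ 2 - (4 * 3.141593 - (β : ℝ))⁻¹ ^ 2) :=
        mul_le_mul_of_nonneg_left (by linarith) (by positivity)
      refine e1.trans (mul_le_mul_of_nonneg_right ?_ (by linarith))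
      exact one_div_le_one_div_of_le (by norm_num) (by linarith)
    have a3 : (0 : ℝ) ≤ 1 / (8 * 3.141592) * ((β : ℝ)⁻¹ ^ 2 - (4 * 3.141593 - (β : ℝ))⁻¹ ^ 2) :=
      mul_nonneg (by norm_num) (by linarith)
    have a4 : 3 * imG2 β + 1 / (8 * Real.pi) * ((β : ℝ)⁻¹ ^ 2 - (4 * Real.pi - β)⁻¹ ^ 2) ≤
        3 * (u2 β lG : ℝ) + 1 / (8 * 3.141592) * ((β : ℝ)⁻¹ ^ 2 - (4 * 3.141593 - (β : ℝ))⁻¹ ^ 2) := by
      linarith
    have a5 : (1 / (16 * Real.pi ^ 2)) * (3 * imG2 β + 1 / (8 * Real.pi) *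
        ((β : ℝ)⁻¹ ^ 2 - (4 * Real.pi - β)⁻¹ ^ 2)) ≤
        1 / (16 * 3.141592 ^ 2) * (3 * (u2 β lG : ℝ) + 1 / (8 * 3.141592) *
          ((β : ℝ)⁻¹ ^ 2 - (4 * 3.141593 - (β : ℝ))⁻¹ ^ 2)) := by
      have e1 := mul_le_mul_of_nonneg_left a4 (show (0 : ℝ) ≤ 1 / (16 * Real.pi ^ 2) by positivity)
      refine e1.trans (mul_le_mul_of_nonneg_right ?_ (by linarith))
      exact one_div_le_one_div_of_le (by norm_num) (by linarith)
    unfold imG3 u3
    push_cast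
    exact a5
  exact ⟨hu1, hu2, hu3⟩

/-- the function `g` of a row -/
def rowg (r : FOD.Row) (α : ℝ) : ℝ := imh0 α + r.c1 * imh0 α ^ 2 + r.c2 * imh0 α ^ 3

/-- the function `G` of a row -/
def rowG (r : FOD.Row) (α : ℝ) : ℝ := imL α + r.c1 * imG2 α + r.c2 * imG3 α

/-- one row -/
theorem row_facts {X a Rm : ℚ} {r : FOD.Row} (h : rowOk X a Rm r = true) {y : ℝ} (h0 : (r.w0 : ℝ) ≤ y)
    (h1 : y ≤ r.w1) : (0 : ℝ) < r.K ∧ (0 : ℝ) ≤ r.c1 ∧ (0 : ℝ) ≤ r.c2 ∧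
    (∀ α, (a : ℝ) - (X + y) / 2 ≤ α → α ≤ 2 * Real.pi + X → HasDerivAt (rowG r) (-rowg r α) α) ∧
    (∀ α, (a : ℝ) - (X + y) / 2 ≤ α → α ≤ 2 * Real.pi + X →
      1 / (α * (4 * Real.pi - α)) ≤ rowg r α - rowg r α ^ 2 / (2 * r.K)) ∧
    (∀ z, 0 ≤ z → z ≤ (X : ℝ) → 0 ≤ rowG r (2 * Real.pi + z) + r.K * z) ∧
    rowG r (a - y) + r.K * (X - y) ≤ Rm ∧
    (∀ α, (a : ℝ) - (X + y) / 2 ≤ α → α ≤ 2 * Real.pi + X → 0 < α ∧ α < 4 * Real.pi ∧
      rowg r α ≤ r.K) := by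
  obtain ⟨q0, q01, q1X, qA, qA2, qb, qK, qc1, qc2, qe0, qe1, qg, ql, qR⟩ := of_decide_eq_true h
  have hpi := Real.pi_pos
  have p1 : (3.141592 : ℝ) < Real.pi := Real.pi_gt_d6
  have p2 : Real.pi < (3.141593 : ℝ) := Real.pi_lt_d6
  have r0 : (0 : ℝ) ≤ r.w0 := by exact_mod_cast q0
  have r01 : (r.w0 : ℝ) ≤ r.w1 := by exact_mod_cast q01
  have r1X : (r.w1 : ℝ) ≤ X := by exact_mod_cast q1X
  have c25 : ((157 / 25 : ℚ) : ℝ) = 157 / 25 := by push_cast; ring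
  have rA : (0 : ℝ) < a - (X + r.w1) / 2 := by exact_mod_cast qA
  have rA2 : (a : ℝ) - (X + r.w1) / 2 + X ≤ 157 / 25 := by
    rw [← c25]
    exact_mod_cast qA2
  have rb : (a : ℝ) - r.w0 ≤ 157 / 25 := by
    rw [← c25]
    exact_mod_cast qb
  have rK : (0 : ℝ) < r.K := by exact_mod_cast qK
  have rc1 : (0 : ℝ) ≤ r.c1 := by exact_mod_cast qc1
  have rc2 : (0 : ℝ) ≤ r.c2 := by exact_mod_cast qc2
  have re0 : (1 : ℝ) ≤ 2 * r.K * r.c1 := by exact_mod_cast qe0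
  set A : ℝ := (a : ℝ) - (X + r.w1) / 2 with hA
  set H : ℝ := ((hUp (a - (X + r.w1) / 2) : ℚ) : ℝ) with hH
  have re1 : (1 + r.c1 * H + r.c2 * H ^ 2) ^ 2 ≤ 2 * r.K * (r.c1 + r.c2 * H) := by
    rw [hH]
    exact_mod_cast qe1
  have rg : H * (1 + r.c1 * H + r.c2 * H ^ 2) ≤ r.K := by
    rw [hH]
    exact_mod_cast qg
  have hHA : imh0 A ≤ H := by
    have e1 : 0 < A * (4 * 3.141592 - A) := mul_pos rA (by linarith)
    have e2 : A * (4 * 3.141592 - A) ≤ A * (4 * Real.pi - A) :=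
      mul_le_mul_of_nonneg_left (by linarith) rA.le
    rw [hH]
    unfold imh0 hUp
    push_cast
    exact one_div_le_one_div_of_le e1 e2
  set gg : ℝ → ℝ := rowg r with hgg
  set G : ℝ → ℝ := rowG r with hG
  have hh : ∀ α, A ≤ α → α ≤ 2 * Real.pi + X → 0 < imh0 α ∧ imh0 α ≤ H := by
    intro α k1 k2
    obtain ⟨e1, e2⟩ := imh0_le rA k1 (by linarith)
    exact ⟨e1, e2.trans hHA⟩
  have hGd : ∀ α, A ≤ α → α ≤ 2 * Real.pi + X → HasDerivAt G (-gg α) α := by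
    intro α k1 k2
    have a0 : 0 < α := rA.trans_le k1
    have a1 : α < 4 * Real.pi := by linarith
    have d1 := imL_has a0 a1
    have d2 := (imG2_has a0 a1).const_mul (r.c1 : ℝ)
    have d3 := (imG3_has a0 a1).const_mul (r.c2 : ℝ)
    refine ((d1.fun_add d2).fun_add d3).congr_deriv ?_
    rw [hgg]
    have e : imh α = imh0 α := rfl
    rw [e]
    unfold rowg imh0
    ring
  have hggK : ∀ α, A ≤ α → α ≤ 2 * Real.pi + X → gg α ≤ r.K := by
    intro α k1 k2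
    obtain ⟨e1, e2⟩ := hh α k1 k2
    refine le_trans ?_ rg
    have m2 : imh0 α ^ 2 ≤ H ^ 2 := pow_le_pow_left₀ e1.le e2 2
    have m3 : imh0 α ^ 3 ≤ H ^ 3 := pow_le_pow_left₀ e1.le e2 3
    have n2 := mul_le_mul_of_nonneg_left m2 rc1
    have n3 := mul_le_mul_of_nonneg_left m3 rc2
    have e3 : H * (1 + r.c1 * H + r.c2 * H ^ 2) = H + r.c1 * H ^ 2 + r.c2 * H ^ 3 := by ring
    rw [e3]
    change imh0 α + r.c1 * imh0 α ^ 2 + r.c2 * imh0 α ^ 3 ≤ _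
    linarith
  -- monotonicity of `G + K α`
  have hmono : MonotoneOn (fun α => G α + r.K * α) (Icc A (2 * Real.pi + X)) := by
    have hd2 : ∀ α ∈ Icc A (2 * Real.pi + X), HasDerivAt (fun α => G α + r.K * α) (-gg α + r.K) α :=
      fun α k => by
        refine ((hGd α k.1 k.2).fun_add ((hasDerivAt_id α).const_mul (r.K : ℝ))).congr_deriv ?_
        rw [mul_one]
    refine monotoneOn_of_deriv_nonneg (convex_Icc _ _) ?_ ?_ ?_
    · exact fun α k => (hd2 α k).continuousAt.continuousWithinAt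
    · intro α k
      rw [interior_Icc] at k
      exact (hd2 α ⟨k.1.le, k.2.le⟩).differentiableAt.differentiableWithinAt
    · intro α k
      rw [interior_Icc] at k
      have k' : α ∈ Icc A (2 * Real.pi + X) := ⟨k.1.le, k.2.le⟩
      rw [(hd2 α k').deriv]
      have := hggK α k'.1 k'.2
      linarith
  have hG2 : G (2 * Real.pi) = 0 := by
    rw [hG]
    unfold rowG
    rw [imL_two_pi, imG2_two_pi, imG3_two_pi]
    ring
  have hlow : A ≤ (a : ℝ) - (X + y) / 2 := by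
    rw [hA]
    linarith
  refine ⟨rK, rc1, rc2, fun α k1 k2 => hGd α (hlow.trans k1) k2, fun α k1 k2 => ?_, fun z z0 zX => ?_, ?_,
    fun α k1 k2 => ⟨rA.trans_le (hlow.trans k1), by linarith, hggK α (hlow.trans k1) k2⟩⟩
  · obtain ⟨e1, e2⟩ := hh α (hlow.trans k1) k2
    exact fon_alg rc1 rc2 rK e1.le e2 re0 re1
  · have hX0 : (0 : ℝ) ≤ X := z0.trans zX
    have k := hmono (a := 2 * Real.pi) (b := 2 * Real.pi + z) ⟨by linarith, by linarith⟩
      ⟨by linarith, by linarith⟩ (by linarith)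
    simp only at k
    rw [hG2] at k
    linarith
  · -- the value
    obtain ⟨v1, v2, v3⟩ := fon_up (β := a - r.w0) (by
      have : (0 : ℝ) < a - r.w0 := by linarith
      exact_mod_cast this) qb ql
    push_cast at v1 v2 v3
    have k := hmono (a := a - y) (b := a - r.w0) ⟨by linarith, by linarith⟩
      ⟨by linarith, by linarith⟩ (by linarith)
    simp only at k
    have n2 := mul_le_mul_of_nonneg_left v2 rc1
    have n3 := mul_le_mul_of_nonneg_left v3 rc2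
    have rR : (u1 r.lG : ℝ) + r.c1 * u2 (a - r.w0) r.lG + r.c2 * u3 (a - r.w0) r.lG +
        r.K * (X - r.w0) ≤ Rm := by exact_mod_cast qR
    have e1 : G (a - r.w0) ≤ (u1 r.lG : ℝ) + r.c1 * u2 (a - r.w0) r.lG + r.c2 * u3 (a - r.w0) r.lG := by
      change imL ((a : ℝ) - r.w0) + r.c1 * imG2 ((a : ℝ) - r.w0) + r.c2 * imG3 ((a : ℝ) - r.w0) ≤ _
      linarith
    have e2 : r.K * ((a : ℝ) - r.w0) - r.K * (a - y) = r.K * (y - r.w0) := by ring
    have e3 : (r.K : ℝ) * (X - r.w0) = r.K * (X - y) + r.K * (y - r.w0) := by ring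
    linarith

theorem outN_row {X a Rm : ℚ} {r : FOD.Row} (h : rowOk X a Rm r = true) {y : ℝ} (h0 : (r.w0 : ℝ) ≤ y)
    (h1 : y ≤ r.w1) : OutN X a Rm y := by
  obtain ⟨k1, -, -, k2, k3, k4, k5, -⟩ := row_facts h h0 h1
  exact ⟨r.K, rowG r, rowg r, k1, k2, k3, k4, k5⟩

theorem outN_cover {X a Rm : ℚ} : ∀ {l : List FOD.Row} {p : ℚ}, cover X a Rm p l = true →
    ∀ y : ℝ, (p : ℝ) ≤ y → y ≤ X → OutN X a Rm y
  | [], p, h, y, h0, h1 => by
    have h2 : X < p := of_decide_eq_true h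
    have h3 : (X : ℝ) < p := by exact_mod_cast h2
    linarith
  | r :: l, p, h, y, h0, h1 => by
    simp only [cover, Bool.and_eq_true, Bool.or_eq_true, decide_eq_true_eq] at h
    obtain ⟨⟨k1, k2⟩, k3⟩ := h
    have k4 : (r.w0 : ℝ) ≤ p := by exact_mod_cast k1
    rcases le_or_gt y r.w1 with h2 | h2
    · exact outN_row k2 (k4.trans h0) h2
    · rcases k3 with k5 | k5
      · have k6 : (X : ℝ) ≤ r.w1 := by exact_mod_cast k5
        linarith
      · exact outN_cover k5 y h2.le h1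

/-- **`OutN` from the Boolean table** -/
theorem outN_of {X a Rm : ℚ} {l : List FOD.Row} (h : ouOk X a Rm l = true) :
    (0 : ℝ) < Rm ∧ (X : ℝ) < a ∧ ∀ y : ℝ, 0 ≤ y → y ≤ X → OutN X a Rm y := by
  simp only [ouOk, Bool.and_eq_true, decide_eq_true_eq] at h
  obtain ⟨⟨h1, h2⟩, h3⟩ := h
  refine ⟨by exact_mod_cast h1, by exact_mod_cast h2, fun y h0 hX => outN_cover h3 y ?_ hX⟩
  push_cast
  exact h0

theorem phQ_cast (x : ℚ) : ((phQ x : ℚ) : ℝ) = phJ x := by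
  unfold phQ phJ
  push_cast
  ring

theorem FQ_cast (x : ℚ) : ((FQ x : ℚ) : ℝ) = FJ x := by
  have h1 := phQ_cast x
  have h2 : ((ppQ x : ℚ) : ℝ) = ppJ x := by
    unfold ppQ ppJ
    push_cast
    ring
  unfold FQ FJ
  rw [← h1, ← h2]
  push_cast
  ring

theorem HFar.zero (C : Calc M γ) (a₁ ε : ℝ) : HFar C a₁ 0 ε := by
  intro η _ _ t _ θ _ _ _ _
  have h : 0 ≤ ∫ o, Gη C (utr t η) o ∂C.μ := integral_nonneg fun o => by
    change 0 ≤ Gη C (utr t η) o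
    unfold Gη
    positivity
  linarith

/-- **the far part in numbers**: one entry of the table -/
theorem hfar_pe [CompactSpace M] (C : Calc M γ) (hγ : Bd γ) (hR : RegAE C)
    {v : Fin 3 → M → ℝ} (hv : Sph γ v) (deg : ∫ o, jac C v o ∂C.μ = 2 * Real.pi) {f : Om → ℝ}
    (fint : Integrable f C.μ) (fnu : ∀ᵐ o ∂C.μ, nuC C v o ≤ f o) {κ X a₁ : ℚ}
    (fX : ∫ o, f o ∂C.μ ≤ X) {B : ℝ} (hB : ∫ o, PE (enb (dx C v o) (dy C v o)) ∂C.μ ≤ B)
    {d : Far} (hd : farOk κ X a₁ d = true) (hD : 4 * a₁ * B ≤ d.D ^ 2) {ε : ℝ} (hI : IsopO C κ ε)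
    (hε : 0 ≤ ε) : HFar C a₁ (κ * d.z / a₁) ε := by
  simp only [farOk, Bool.and_eq_true, decide_eq_true_eq] at hd
  obtain ⟨⟨k1, k2, k3, k4, k4', k5, k6, k7⟩, k8⟩ := hd
  obtain ⟨o1, o2, o3⟩ := outN_of k8
  push_cast at o2 o3
  have r1 : (0 : ℝ) < κ := by exact_mod_cast k1
  have r2 : (0 : ℝ) < a₁ := by exact_mod_cast k2
  have r4 : (0 : ℝ) ≤ d.D := by exact_mod_cast k4
  have r4' : (d.D : ℝ) ≤ a₁ := by exact_mod_cast k4'
  have r5 : (0 : ℝ) < d.z := by exact_mod_cast k5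
  have r3 : (X : ℝ) < 2 * Real.pi := by
    have h1 : (X : ℝ) ≤ 157 / 25 := by
      have : ((157 / 25 : ℚ) : ℝ) = 157 / 25 := by push_cast; ring
      rw [← this]
      exact_mod_cast k3
    have h2 : (3.141592 : ℝ) < Real.pi := Real.pi_gt_d6
    linarith
  have r6 : 0 < phJ d.z := by
    rw [← phQ_cast]
    exact_mod_cast k6
  have r7 : (κ : ℝ) * FJ d.z * d.Rm ≤ 1 := by
    rw [← FQ_cast]
    exact_mod_cast k7
  have e : (κ : ℝ) * d.z / a₁ * a₁ / κ = d.z := by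
    field_simp
  have hq : (0 : ℝ) < κ * d.z / a₁ := by positivity
  have hB0 : 0 ≤ B := (integral_nonneg fun o => PE_nonneg (enb_nonneg _ _)).trans hB
  have hDs : 2 * √((a₁ : ℝ) * B) ≤ d.D := by
    have h1 : √(4 * ((a₁ : ℝ) * B)) ≤ d.D := by
      rw [Real.sqrt_le_left r4]
      linarith
    have h2 : √(4 * ((a₁ : ℝ) * B)) = 2 * √((a₁ : ℝ) * B) := by
      rw [Real.sqrt_mul (by norm_num)]
      congr 1
      rw [show (4 : ℝ) = 2 ^ 2 by norm_num]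
      exact Real.sqrt_sq (by norm_num)
    rwa [h2] at h1
  have hBa : B ≤ a₁ := by
    have h1 : (d.D : ℝ) ^ 2 ≤ a₁ ^ 2 := pow_le_pow_left₀ r4 r4' 2
    have h2 : 4 * (a₁ : ℝ) * B ≤ a₁ * a₁ := by
      rw [← pow_two]
      linarith
    nlinarith [mul_nonneg r2.le hB0]
  have f0 : ∀ᵐ o ∂C.μ, 0 ≤ f o := by
    filter_upwards [fnu] with o ho
    exact (nuv_nonneg _ _ _).trans ho
  intro η hη oη t ht θ iθ θ0 θ1 hθ
  refine hfar_of C hγ hR hv deg fint fnu fX r3 hI hε r1 r2 o2 o1 o3 (fun g hg s _ hs => ?_) hq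
    (by rw [e]; exact r6) (by rw [e]; exact r7) hη oη ht iθ θ0 θ1 hθ
  have h1 := vdp_ac C hv hB hBa hDs fint fnu g s hs
  have h2 : supw C g (fun o => ac1 (f o)) s ≤ supw C g f s :=
    setIntegral_mono (ac1_int fint f0).integrableOn fint.integrableOn fun o => ac1_le _
  linarith

/-- **the far table**: some pair `(q, b)` of the list `ftabQ` has `b ≤ B` and the far part holds with `q` -/
theorem hfar_tab [CompactSpace M] (C : Calc M γ) (hγ : Bd γ) (hR : RegAE C)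
    {v : Fin 3 → M → ℝ} (hv : Sph γ v) (deg : ∫ o, jac C v o ∂C.μ = 2 * Real.pi) {f : Om → ℝ}
    (fint : Integrable f C.μ) (fnu : ∀ᵐ o ∂C.μ, nuC C v o ≤ f o) {κ X a₁ : ℚ} (ha : 0 < a₁)
    (fX : ∫ o, f o ∂C.μ ≤ X) {B : ℝ} (hB : ∫ o, PE (enb (dx C v o) (dy C v o)) ∂C.μ ≤ B)
    {ε : ℝ} (hI : IsopO C κ ε) (hε : 0 ≤ ε) : ∀ {l : List Far} {b : ℚ}, ftabOk κ X a₁ l = true →
    (b : ℝ) ≤ B → ∃ p ∈ ftabQ κ a₁ b l, (p.2 : ℝ) ≤ B ∧ HFar C a₁ p.1 ε
  | [], b, _, hb => ⟨(0, b), by simp [ftabQ], hb, by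
      have := HFar.zero C a₁ ε
      simpa using this⟩
  | d :: l, b, hl, hb => by
    simp only [ftabOk, List.all_cons, Bool.and_eq_true] at hl
    have ra : (0 : ℝ) < a₁ := by exact_mod_cast ha
    rcases le_or_gt (4 * (a₁ : ℝ) * B) (d.D ^ 2) with h | h
    · refine ⟨(κ * d.z / a₁, b), by simp [ftabQ], hb, ?_⟩
      have := hfar_pe C hγ hR hv deg fint fnu fX hB hl.1 h hI hε
      push_cast
      exact this
    · obtain ⟨p, hp, h1, h2⟩ := hfar_tab C hγ hR hv deg fint fnu ha fX hB hI hε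
        (b := d.D ^ 2 / (4 * a₁)) (by simpa only [ftabOk] using hl.2) (by
          push_cast
          rw [div_le_iff₀ (by positivity)]
          linarith)
      exact ⟨p, by simp [ftabQ, hp], h1, h2⟩

end Pool.Agent.FPX
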