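import Mathlib
import Pool.Agent.FPX.STC

/-
KMC (helper57): the side condition of scheme K in the static modulus closing. `SCA` is a static certificate
which uses the area inequality only; a constant charge `k` (the slope of the cost `K(c)`) is added on all
levels below `T`, where `{T < |χ|}` has area at least `b` (`stc_topk`). The price is explicit:
`(2 p k / κ) n (1 + log (N a / n)) + (k² / κ) log (a / b)`.
-/

open MeasureTheory Set Filter Topology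
open scoped ENNReal NNReal

noncomputable section

namespace Pool.Agent.FPX

open Pool.Agent.EWD Pool.Agent.FPM

variable {M : Type} [MetricSpace M] {γ : ℝ → M}

/-- the primitive of the charge `n` -/
def kD (N δ a n : ℝ) : ℝ := (n + δ) * (1 + Real.log (N * a + δ) - Real.log (n + δ))

theorem kD_nonneg {N δ a n : ℝ} (hδ : 0 < δ) (hn : 0 ≤ n) (h : n ≤ N * a) : 0 ≤ kD N δ a n := by
  unfold kD
  have h1 : Real.log (n + δ) ≤ Real.log (N * a + δ) :=
    Real.log_le_log (by linarith) (by linarith)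
  exact mul_nonneg (by linarith) (by linarith)

/-- monotone in both accounts -/
theorem kD_mono {N δ a a' n n' : ℝ} (hδ : 0 < δ) (hN : 0 ≤ N) (hn : 0 ≤ n) (hnn : n ≤ n') (ha : a ≤ a')
    (h : n' ≤ N * a') (h0 : n ≤ N * a) : kD N δ a n ≤ kD N δ a' n' := by
  have e1 : kD N δ a n ≤ kD N δ a' n := by
    unfold kD
    refine mul_le_mul_of_nonneg_left ?_ (by linarith)
    have h1 : Real.log (N * a + δ) ≤ Real.log (N * a' + δ) := by
      refine Real.log_le_log (by linarith) ?_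
      have := mul_le_mul_of_nonneg_left ha hN
      linarith
    linarith
  refine e1.trans ?_
  unfold kD
  set L := Real.log (N * a' + δ) with hL
  have h2 : Real.log (n' + δ) ≤ L := Real.log_le_log (by linarith) (by linarith)
  -- `x (1 + L - log x)` is monotone on `x ≤ e^L`
  have hx : 0 < n + δ := by linarith
  have hy : 0 < n' + δ := by linarith
  have h3 : Real.log (n' + δ) - Real.log (n + δ) ≤ (n' + δ) / (n + δ) - 1 := by
    rw [← Real.log_div hy.ne' hx.ne']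
    exact Real.log_le_sub_one_of_pos (div_pos hy hx)
  have h4 : (n + δ) * (Real.log (n' + δ) - Real.log (n + δ)) ≤ n' - n := by
    have h5 := mul_le_mul_of_nonneg_left h3 hx.le
    have h6 : (n + δ) * ((n' + δ) / (n + δ) - 1) = n' - n := by
      field_simp
      ring
    linarith
  have h7 : 0 ≤ (n' - n) * (L - Real.log (n' + δ)) := mul_nonneg (by linarith) (by linarith)
  nlinarith

/-- `kD` is concave in the charge -/
theorem kD_diff {N δ a n n' : ℝ} (hδ : 0 < δ) (hn : 0 ≤ n) (hnn : n ≤ n') :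
    (n' - n) * (Real.log (N * a + δ) - Real.log (n' + δ)) ≤ kD N δ a n' - kD N δ a n := by
  unfold kD
  set L := Real.log (N * a + δ) with hL
  have hx : 0 < n + δ := by linarith
  have hy : 0 < n' + δ := by linarith
  have h3 : Real.log (n' + δ) - Real.log (n + δ) ≤ (n' + δ) / (n + δ) - 1 := by
    rw [← Real.log_div hy.ne' hx.ne']
    exact Real.log_le_sub_one_of_pos (div_pos hy hx)
  have h4 : (n + δ) * (Real.log (n' + δ) - Real.log (n + δ)) ≤ n' - n := by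
    have h5 := mul_le_mul_of_nonneg_left h3 hx.le
    have h6 : (n + δ) * ((n' + δ) / (n + δ) - 1) = n' - n := by
      field_simp
      ring
    linarith
  nlinarith

/-- **the price of the side condition**: if it is at most `π X` at the full mass `X`, it is at most `π x` for
every mass `x ≤ X` -/
theorem kD_pay {κ p k N δ a D X π c₀ x : ℝ} (hδ : 0 < δ) (hx : 0 ≤ x) (hxX : x ≤ X) (hpk : 0 ≤ p * k)
    (hκ : 0 < κ)
    (hX : 2 * p * k / D * X + 2 * p * k / κ * kD N δ a X + c₀ ≤ π * X)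
    (hπ : π ≤ 2 * p * k / D + 2 * p * k / κ * (Real.log (N * a + δ) - Real.log (X + δ))) :
    2 * p * k / D * x + 2 * p * k / κ * kD N δ a x + c₀ ≤ π * x := by
  have h1 := kD_diff (N := N) (a := a) hδ hx hxX
  have h2 : 0 ≤ 2 * p * k / κ := div_nonneg (by linarith) hκ.le
  have h3 := mul_le_mul_of_nonneg_left h1 h2
  have h4 := mul_le_mul_of_nonneg_right hπ (show 0 ≤ X - x by linarith)
  nlinarith

/-- the derivative of `kD` -/
theorem kD_deriv {N δ a n : ℝ} (h1 : 0 < N * a + δ) (h2 : 0 < n + δ) :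
    HasFDerivAt (fun z : ℝ × ℝ => kD N δ z.1 z.2)
      (((n + δ) * (N / (N * a + δ))) • ContinuousLinearMap.fst ℝ ℝ ℝ +
        (Real.log (N * a + δ) - Real.log (n + δ)) • ContinuousLinearMap.snd ℝ ℝ ℝ) (a, n) := by
  have f1 : HasFDerivAt (fun z : ℝ × ℝ => z.1) (ContinuousLinearMap.fst ℝ ℝ ℝ) (a, n) := hasFDerivAt_fst
  have f2 : HasFDerivAt (fun z : ℝ × ℝ => z.2) (ContinuousLinearMap.snd ℝ ℝ ℝ) (a, n) := hasFDerivAt_snd
  have g1 : HasFDerivAt (fun z : ℝ × ℝ => N * z.1 + δ) (N • ContinuousLinearMap.fst ℝ ℝ ℝ) (a, n) :=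
    (f1.const_mul N).add_const δ
  have g2 : HasFDerivAt (fun z : ℝ × ℝ => z.2 + δ) (ContinuousLinearMap.snd ℝ ℝ ℝ) (a, n) := f2.add_const δ
  have l1 := g1.log h1.ne'
  have l2 := g2.log h2.ne'
  have h3 := g2.mul ((l1.const_add 1).sub l2)
  refine (h3.congr_fderiv ?_)
  refine ContinuousLinearMap.ext fun z => ?_
  simp
  field_simp
  ring

variable {ι : Type*} [Fintype ι]

/-- a static certificate which uses the area inequality only -/
structure SCA (C : Calc M γ) (γs : ι → Om → ℝ) (i0 i2 : ι) (K G : Om → ℝ) (κ p : ℝ)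
    (D : Set (ι → ℝ)) (Φ : (ι → ℝ) → ℝ) : Prop where
  cert : ∃ Φ' : (ι → ℝ) → (ι → ℝ) →L[ℝ] ℝ, (∀ x ∈ D, HasFDerivAt Φ (Φ' x) x) ∧
    ∀ᵐ o ∂C.μ, ∀ x ∈ D, K o * ((p * x i2) ^ 2 / (κ * x i0)) ≤ Φ' x (fun i => γs i o) + G o

omit [Fintype ι] in
theorem SCA.mono {C : Calc M γ} {γs : ι → Om → ℝ} {i0 i2 : ι} {K G : Om → ℝ} {κ p : ℝ}
    {D D' : Set (ι → ℝ)} {Φ : (ι → ℝ) → ℝ} (h : SCA C γs i0 i2 K G κ p D Φ) (hD : D' ⊆ D) :
    SCA C γs i0 i2 K G κ p D' Φ := by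
  obtain ⟨Φ', h1, h2⟩ := h.cert
  refine ⟨Φ', fun x hx => h1 x (hD hx), ?_⟩
  filter_upwards [h2] with o ho x hx
  exact ho x (hD hx)

omit [Fintype ι] in
/-- the certificate in the form of STC -/
theorem SCA.toSC {C : Calc M γ} (v : Fin 3 → M → ℝ) {γs : ι → Om → ℝ} {i0 : ι} (i1 : ι) {i2 : ι} {K G : Om → ℝ}
    {κ : ℝ} (Wim : ℝ → ℝ) {p : ℝ} {D : Set (ι → ℝ)} {Φ : (ι → ℝ) → ℝ} (h : SCA C γs i0 i2 K G κ p D Φ)
    (hκ : 0 < κ) (hp : 0 ≤ p) {N : ℝ} (hD : ∀ x ∈ D, 0 ≤ x i0 ∧ 0 ≤ x i2 ∧ x i2 ≤ N * x i0) :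
    SC C v γs i0 i1 i2 K G κ Wim p 0 D Φ := by
  obtain ⟨Φ', h1, h2⟩ := h.cert
  refine ⟨Φ', fun x => p * x i2 / √(κ * x i0), fun _ => 0, fun x hx => ⟨h1 x hx, ?_, le_rfl, ?_⟩, ?_⟩
  · exact div_nonneg (mul_nonneg hp (hD x hx).2.1) (Real.sqrt_nonneg _)
  · obtain ⟨a1, a2, a3⟩ := hD x hx
    rcases a1.eq_or_lt with a4 | a4
    · have a5 : x i2 = 0 := by
        rw [← a4, mul_zero] at a3
        linarith
      have a6 : (0 : ℝ) ≤ p * x i2 / √(κ * x i0) * √(κ * x i0) := by positivity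
      simp only [a5, mul_zero, zero_mul, add_zero, zero_div, le_refl]
    · have a5 : 0 < √(κ * x i0) := Real.sqrt_pos.2 (by positivity)
      rw [div_mul_cancel₀ _ a5.ne']
      linarith
  · filter_upwards [h2] with o ho x hx
    have h3 := ho x hx
    have a1 := (hD x hx).1
    have e : (p * x i2 / √(κ * x i0) + 0 * opn C v o) ^ 2 = (p * x i2) ^ 2 / (κ * x i0) := by
      rw [zero_mul, add_zero, div_pow, Real.sq_sqrt (by positivity)]
    rw [e]
    exact h3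

/-- the certificate with the charge `k` -/
theorem SCA.toSCk {C : Calc M γ} (v : Fin 3 → M → ℝ) {γs : ι → Om → ℝ} {i0 : ι} (i1 : ι) {i2 : ι} {K G : Om → ℝ}
    {κ : ℝ} (Wim : ℝ → ℝ) {p : ℝ} {D : Set (ι → ℝ)} {Φ : (ι → ℝ) → ℝ} (h : SCA C γs i0 i2 K G κ p D Φ)
    (hκ : 0 < κ) (hp : 0 ≤ p) {k : ℝ} (hk : 0 ≤ k) {N δ : ℝ} (hN : 0 ≤ N) (hδ : 0 < δ)
    (hK0 : ∀ᵐ o ∂C.μ, 0 ≤ K o) (hK1 : ∀ᵐ o ∂C.μ, K o ≤ 1)
    (h0 : γs i0 = fun _ => 1) (h2 : ∀ᵐ o ∂C.μ, 0 ≤ γs i2 o)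
    (hD : ∀ x ∈ D, 0 < x i0 ∧ 0 ≤ x i2 ∧ x i2 ≤ N * x i0) :
    SC C v γs i0 i1 i2 K G κ Wim p k D
      (fun x => Φ x + 2 * p * k / κ * kD N δ (x i0) (x i2) + k ^ 2 / κ * Real.log (x i0)) := by
  obtain ⟨Φ', h1, h3⟩ := h.cert
  set p0 : (ι → ℝ) →L[ℝ] ℝ := ContinuousLinearMap.proj i0 with hp0
  set p2 : (ι → ℝ) →L[ℝ] ℝ := ContinuousLinearMap.proj i2 with hp2
  refine ⟨fun x => Φ' x + (2 * p * k / κ) • (((x i2 + δ) * (N / (N * x i0 + δ))) • p0 +
      (Real.log (N * x i0 + δ) - Real.log (x i2 + δ)) • p2) + (k ^ 2 / κ) • ((x i0)⁻¹ • p0),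
    fun x => (p * x i2 + k) / √(κ * x i0), fun _ => 0, fun x hx => ⟨?_, ?_, le_rfl, ?_⟩, ?_⟩
  · obtain ⟨a1, a2, a3⟩ := hD x hx
    have a4 : 0 < N * x i0 + δ := by
      have := mul_nonneg hN a1.le
      linarith
    have e0 : HasFDerivAt (fun z : ι → ℝ => z i0) p0 x := p0.hasFDerivAt
    have e2 : HasFDerivAt (fun z : ι → ℝ => z i2) p2 x := p2.hasFDerivAt
    have e3 : HasFDerivAt (fun z : ι → ℝ => (z i0, z i2)) (p0.prod p2) x := e0.prodMk e2
    have e4 := (kD_deriv (N := N) (δ := δ) (a := x i0) (n := x i2) a4 (by linarith)).comp x e3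
    have e5 : HasFDerivAt (fun z : ι → ℝ => Real.log (z i0)) ((x i0)⁻¹ • p0) x := e0.log a1.ne'
    have e6 := ((h1 x hx).add (e4.const_mul (2 * p * k / κ))).add (e5.const_mul (k ^ 2 / κ))
    refine e6.congr_fderiv ?_
    refine ContinuousLinearMap.ext fun z => ?_
    simp [hp0, hp2]
  · obtain ⟨a1, a2, a3⟩ := hD x hx
    exact div_nonneg (add_nonneg (mul_nonneg hp a2) hk) (Real.sqrt_nonneg _)
  · obtain ⟨a1, a2, a3⟩ := hD x hx
    have a5 : 0 < √(κ * x i0) := Real.sqrt_pos.2 (by positivity)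
    rw [div_mul_cancel₀ _ a5.ne', zero_mul, add_zero]
  · filter_upwards [h3, hK0, hK1, h2] with o ho k0 k1 hν x hx
    obtain ⟨a1, a2, a3⟩ := hD x hx
    have h4 := ho x hx
    have hka : 0 < κ * x i0 := mul_pos hκ a1
    have e : ((p * x i2 + k) / √(κ * x i0) + 0 * opn C v o) ^ 2 =
        (p * x i2) ^ 2 / (κ * x i0) + (2 * p * k / κ * (x i2 / x i0) + k ^ 2 / κ * (x i0)⁻¹) := by
      rw [zero_mul, add_zero, div_pow, Real.sq_sqrt hka.le]
      field_simp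
      ring
    have hNa : 0 < N * x i0 + δ := by
      have := mul_nonneg hN a1.le
      linarith
    have c1 : 0 ≤ 2 * p * k / κ := by positivity
    have c2 : 0 ≤ k ^ 2 / κ := by positivity
    have hr : 0 ≤ 2 * p * k / κ * (x i2 / x i0) + k ^ 2 / κ * (x i0)⁻¹ := by positivity
    -- the derivative in the area
    have d1 : x i2 / x i0 ≤ (x i2 + δ) * (N / (N * x i0 + δ)) := by
      rw [← mul_div_assoc, div_le_div_iff₀ a1 hNa]
      nlinarith [mul_le_mul_of_nonneg_left a3 hδ.le]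
    have d2 : 0 ≤ (Real.log (N * x i0 + δ) - Real.log (x i2 + δ)) * γs i2 o := by
      refine mul_nonneg ?_ hν
      have := Real.log_le_log (show 0 < x i2 + δ by linarith) (show x i2 + δ ≤ N * x i0 + δ by linarith)
      linarith
    have hval : (Φ' x + (2 * p * k / κ) • (((x i2 + δ) * (N / (N * x i0 + δ))) • p0 +
        (Real.log (N * x i0 + δ) - Real.log (x i2 + δ)) • p2) + (k ^ 2 / κ) • ((x i0)⁻¹ • p0))
          (fun i => γs i o) = Φ' x (fun i => γs i o) + 2 * p * k / κ * ((x i2 + δ) * (N / (N * x i0 + δ)) +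
        (Real.log (N * x i0 + δ) - Real.log (x i2 + δ)) * γs i2 o) + k ^ 2 / κ * (x i0)⁻¹ := by
      have h5 : γs i0 o = 1 := by rw [h0]
      simp [hp0, hp2, h5]
      ring
    rw [e, hval]
    have h6 : K o * ((p * x i2) ^ 2 / (κ * x i0) + (2 * p * k / κ * (x i2 / x i0) + k ^ 2 / κ * (x i0)⁻¹)) ≤
        K o * ((p * x i2) ^ 2 / (κ * x i0)) + (2 * p * k / κ * (x i2 / x i0) + k ^ 2 / κ * (x i0)⁻¹) := by
      rw [mul_add]
      have := mul_le_mul_of_nonneg_right k1 hr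
      linarith
    have h7 : 2 * p * k / κ * (x i2 / x i0) ≤ 2 * p * k / κ * ((x i2 + δ) * (N / (N * x i0 + δ)) +
        (Real.log (N * x i0 + δ) - Real.log (x i2 + δ)) * γs i2 o) :=
      mul_le_mul_of_nonneg_left (by linarith) c1
    linarith

/-- **the static inequality with a constant charge `k` below the level `T`** -/
theorem stc_topk (C : Calc M γ) {v : Fin 3 → M → ℝ} (hv : Sph γ v) {χ : M → ℝ} (hχ : Lip χ)
    (eχ : EvenB γ χ) {κ κ' a₀ a₁ ε : ℝ} (hI : IsopE C κ a₁ ε) (hκ0 : 0 < κ')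
    (hκ : ∀ a, a₀ ≤ a → κ' * a ≤ κ * (a - ε)) (ha0 : 0 < a₀)
    {γs : ι → Om → ℝ} (hγs : ∀ i, Integrable (γs i) C.μ) {i0 i1 i2 : ι}
    (h0 : γs i0 = fun _ => 1) (h1 : γs i1 = jac C v) {K G F : Om → ℝ} (hF : Integrable F C.μ)
    {p : ℝ} {D : Set (ι → ℝ)} (hD : Convex ℝ D) {Φ : (ι → ℝ) → ℝ}
    (hS : SCA C γs i0 i2 K G κ' p D Φ) (hΦ : ∀ x ∈ D, 0 ≤ Φ x) (hp : 0 ≤ p) {N R : ℝ}
    (hK : ∀ᵐ o ∂C.μ, 0 < K o) (hK1 : ∀ᵐ o ∂C.μ, K o ≤ 1) (hG : ∀ᵐ o ∂C.μ, 0 ≤ G o)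
    (h2 : ∀ᵐ o ∂C.μ, 0 ≤ γs i2 o) (hN0 : 0 ≤ N) (hN : ∀ᵐ o ∂C.μ, γs i2 o ≤ N)
    (hDn : ∀ x ∈ D, 0 ≤ x i0 ∧ 0 ≤ x i2 ∧ x i2 ≤ N * x i0)
    (hR : 0 ≤ R) (gR : ∀ᵐ o ∂C.μ, |χ (C.pt o)| ≤ R) {s0 T : ℝ} (hs0 : 0 ≤ s0) (hT : s0 ≤ T)
    {k : ℝ} (hk : 0 ≤ k) {b : ℝ} (hb : a₀ ≤ b) (hbT : b ≤ supa C χ T) {δ : ℝ} (hδ : 0 < δ)
    (hmem : ∀ s, s0 ≤ s → (fun i => supw C χ (γs i) s) ∈ D)
    (ha : ∀ s, s0 < s → supa C χ s ≤ a₁)
    (hFp : ∀ᵐ o ∂C.μ, s0 < |χ (C.pt o)| →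
      gn C χ o ^ 2 / K o + G o - 2 * p * |χ (C.pt o)| * γs i2 o ≤ F o) :
    2 * k * (T - s0) - (2 * p * s0 * supw C χ (γs i2) s0 + (Φ (fun i => supw C χ (γs i) s0) +
        2 * p * k / κ' * kD N δ (supa C χ s0) (supw C χ (γs i2) s0) +
        k ^ 2 / κ' * Real.log (supa C χ s0 / b))) - 2 * p * R * N * a₀ ≤
      ∫ o in {o | s0 < |χ (C.pt o)|}, F o ∂C.μ := by
  have := C.fin
  have hb0 : 0 < b := ha0.trans_le hb
  have himg : ∀ᵐ t : ℝ, 0 < t → (fun _ : ℝ => (0 : ℝ)) (supj C χ v t) ≤ deriv (levw C χ v) t ^ 2 :=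
    ae_of_all _ fun t _ => sq_nonneg _
  have hsa : ∀ s, supw C χ (γs i0) s = supa C χ s := by
    intro s
    rw [h0]
    unfold supw supa
    simp [Measure.real]
  have hmono : ∀ s, s0 ≤ s → supw C χ (γs i2) s ≤ supw C χ (γs i2) s0 := by
    intro s hs
    refine setIntegral_mono_set (hγs i2).integrableOn (ae_restrict_of_ae h2)
      (LE.le.eventuallyLE fun o ho => ?_)
    have ho' : s < |χ (C.pt o)| := ho
    exact (hs.trans_lt ho' : s0 < |χ (C.pt o)|)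
  have haT : ∀ s, s ≤ T → b ≤ supa C χ s := fun s hs => hbT.trans (supa_anti C χ hs)
  -- the band
  set n0 := supw C χ (γs i2) s0 with hn0
  set Dk : Set (ι → ℝ) := (D ∩ {x | b ≤ x i0}) ∩ {x | p * x i2 + k ≤ p * n0 + k} with hDk
  have hDkc : Convex ℝ Dk := by
    refine (hD.inter ?_).inter ?_
    · intro x hx y hy α β hα hβ hab
      have hx' : b ≤ x i0 := hx
      have hy' : b ≤ y i0 := hy
      change b ≤ (α • x + β • y) i0
      simp only [Pi.add_apply, Pi.smul_apply, smul_eq_mul]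
      have k1 := mul_le_mul_of_nonneg_left hx' hα
      have k2 := mul_le_mul_of_nonneg_left hy' hβ
      have k3 : α * b + β * b = b := by
        rw [← add_mul, hab, one_mul]
      linarith
    · intro x hx y hy α β hα hβ hab
      have hx' : p * x i2 + k ≤ p * n0 + k := hx
      have hy' : p * y i2 + k ≤ p * n0 + k := hy
      change p * (α • x + β • y) i2 + k ≤ _
      simp only [Pi.add_apply, Pi.smul_apply, smul_eq_mul]
      have k1 := mul_le_mul_of_nonneg_left hx' hα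
      have k2 := mul_le_mul_of_nonneg_left hy' hβ
      have k3 : α * (p * n0 + k) + β * (p * n0 + k) = p * n0 + k := by
        rw [← add_mul, hab, one_mul]
      have k4 : α * k + β * k = k := by
        rw [← add_mul, hab, one_mul]
      nlinarith
  have hDkD : Dk ⊆ D := fun x hx => hx.1.1
  have hmemk : ∀ s, s0 ≤ s → s ≤ T → (fun i => supw C χ (γs i) s) ∈ Dk := by
    intro s hs hs'
    refine ⟨⟨hmem s hs, ?_⟩, ?_⟩
    · change b ≤ supw C χ (γs i0) s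
      rw [hsa]
      exact haT s hs'
    · change p * supw C χ (γs i2) s + k ≤ p * n0 + k
      have := mul_le_mul_of_nonneg_left (hmono s hs) hp
      linarith
  have hSk := (hS.mono hDkD).toSCk v i1 (fun _ => (0 : ℝ)) hκ0 hp hk hN0 hδ
    (hK.mono fun o h => h.le) hK1 h0 h2
    (fun x hx => ⟨hb0.trans_le hx.1.2, (hDn x hx.1.1).2.1, (hDn x hx.1.1).2.2⟩)
  have hband := stc_band C hv hχ eχ hI hκ himg hγs h0 h1 hF hDkc hSk hp hK h2 hN
    (B := p * n0 + k) (fun x hx => hx.2) hs0 hT hmemk (fun s a _ => ha s a)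
    (fun s _ hs' => hb.trans (haT s hs'.le))
    (by
      filter_upwards [hFp] with o ho a _
      exact ho a)
  -- the top
  have hS0 := hS.toSC v i1 (fun _ => (0 : ℝ)) hκ0 hp hDn
  have htop := stc_top C hv hχ eχ hI hκ ha0 himg hγs h0 h1 hF hD hS0 hΦ hp hK hG h2 hN0 hN hR gR
    (hs0.trans hT) (fun s hs => hmem s (hT.trans hs)) (fun s hs => ha s (hT.trans_lt hs))
    (by
      filter_upwards [hFp] with o ho a
      exact ho (hT.trans_lt a))
  -- the charge at the crossing level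
  obtain ⟨a1, a2, a3⟩ := hDn _ (hmem T hT)
  rw [hsa] at a1 a3
  have hkd : 0 ≤ 2 * p * k / κ' * kD N δ (supa C χ T) (supw C χ (γs i2) T) :=
    mul_nonneg (by positivity) (kD_nonneg hδ a2 a3)
  have hlog : k ^ 2 / κ' * Real.log b ≤ k ^ 2 / κ' * Real.log (supa C χ T) :=
    mul_le_mul_of_nonneg_left (Real.log_le_log hb0 hbT) (by positivity)
  have hlog2 : Real.log (supa C χ s0 / b) = Real.log (supa C χ s0) - Real.log b :=
    Real.log_div (hb0.trans_le (haT s0 hT)).ne' hb0.ne'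
  rw [level_split C hχ hF hT, hlog2]
  simp only [hsa] at hband
  linarith

end Pool.Agent.FPX
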