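import Mathlib
import Pool.Agent.FPX.VTB
import Pool.Agent.FPX.KENK
import Pool.Agent.FPX.KMC

/-
MCE (helper21): rational bounds on one `c`-cell `[a, b]` of the modulus closing: `e^c`, the charge bound
`2 e^{2c}`, the level `1 - e^{-c}`, the gradient bound `Lc Ee c`; square roots, logarithms and the price
`kD` of the side condition.
-/

noncomputable section

namespace Pool.Agent.FPX

open VTB

/-- rational data of a `c`-cell -/
structure CeD where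
  xl : ℚ
  xu : ℚ
  N : ℚ
  L : ℚ

/-- the check of the data on `[a, b]`; `se` bounds `√Ee` -/
def ceOk (se a b : ℚ) (d : CeD) : Bool :=
  decide (1 < d.xl ∧ d.xl ≤ eL a ∧ eU b ≤ d.xu ∧ b ≤ 15 ∧ 2 * d.xu ^ 2 ≤ d.N ∧ 0 ≤ d.L ∧
    0 ≤ se ∧ 2 * (se * d.xu + 1) ^ 2 ≤ d.L ^ 2)

/-- the bounds on a `c`-cell -/
structure CeB (Ee c xl xu N L : ℝ) : Prop where
  one : 1 < xl
  lo : xl ≤ Real.exp c
  up : Real.exp c ≤ xu
  N0 : 0 < N
  ch : 2 * Real.exp c ^ 2 ≤ N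
  q0 : 0 < 1 - 1 / xl
  q : 1 - 1 / xl ≤ 1 - Real.exp (-c)
  q1 : 1 - Real.exp (-c) < 1
  L0 : 0 ≤ L
  hL : Lc Ee c ≤ L

theorem ceOk_spec {se a b : ℚ} {d : CeD} (h : ceOk se a b d = true) {Ee c : ℝ} (hse : √Ee ≤ se)
    (ha : (a : ℝ) ≤ c) (hb : c ≤ b) : CeB Ee c d.xl d.xu d.N d.L := by
  obtain ⟨c1, c2, c3, c4, c5, c6, c7, c8⟩ := of_decide_eq_true h
  have h1 : (1 : ℝ) < d.xl := by exact_mod_cast c1
  have h5 : 2 * (d.xu : ℝ) ^ 2 ≤ d.N := by exact_mod_cast c5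
  have h6 : (0 : ℝ) ≤ d.L := by exact_mod_cast c6
  have h7 : (0 : ℝ) ≤ se := by exact_mod_cast c7
  have h8 : 2 * ((se : ℝ) * d.xu + 1) ^ 2 ≤ (d.L : ℝ) ^ 2 := by exact_mod_cast c8
  have e1 : (d.xl : ℝ) ≤ Real.exp c := by
    have k1 : (d.xl : ℝ) ≤ (eL a : ℝ) := by exact_mod_cast c2
    have k2 := eL_le a
    have k3 : Real.exp (a : ℝ) ≤ Real.exp c := Real.exp_le_exp.2 ha
    linarith
  have e2 : Real.exp c ≤ d.xu := by
    have k1 : (eU b : ℝ) ≤ d.xu := by exact_mod_cast c3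
    have k2 := le_eU (x := b) c4
    have k3 : Real.exp c ≤ Real.exp (b : ℝ) := Real.exp_le_exp.2 hb
    linarith
  have he := Real.exp_pos c
  have hch : 2 * Real.exp c ^ 2 ≤ d.N := by
    have := pow_le_pow_left₀ he.le e2 2
    linarith
  have hx0 : (0 : ℝ) < d.xl := by linarith
  have hq : 1 - 1 / (d.xl : ℝ) ≤ 1 - Real.exp (-c) := by
    rw [Real.exp_neg, one_div]
    have := inv_anti₀ hx0 e1
    linarith
  have hl1 : 1 / (d.xl : ℝ) < 1 := by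
    rw [div_lt_one hx0]
    exact h1
  refine ⟨h1, e1, e2, ?_, hch, by linarith, hq, ?_, h6, ?_⟩
  · have : 0 < 2 * Real.exp c ^ 2 := by positivity
    linarith
  · have := Real.exp_pos (-c)
    linarith
  · have k1 : √Ee * Real.exp c ≤ se * d.xu :=
      mul_le_mul hse e2 he.le h7
    have k2 : 0 ≤ √Ee * Real.exp c := mul_nonneg (Real.sqrt_nonneg _) he.le
    have k3 : 0 ≤ Lc Ee c := (Lc_pos Ee c).le
    have k4 : Lc Ee c ^ 2 ≤ (d.L : ℝ) ^ 2 := by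
      have e : Lc Ee c ^ 2 = 2 * (√Ee * Real.exp c + 1) ^ 2 := by
        unfold Lc
        rw [mul_pow, Real.sq_sqrt (by norm_num)]
      rw [e]
      have := pow_le_pow_left₀ (by linarith : 0 ≤ √Ee * Real.exp c + 1)
        (by linarith : √Ee * Real.exp c + 1 ≤ se * d.xu + 1) 2
      linarith
    exact (pow_le_pow_iff_left₀ k3 h6 two_ne_zero).1 k4

/-- upper bound of a square root -/
def sqUp (y w : ℚ) : Bool := decide (0 ≤ w ∧ y ≤ w ^ 2)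

theorem sqUp_le {y w : ℚ} (h : sqUp y w = true) {x : ℝ} (hx : x ≤ y) : √x ≤ w := by
  obtain ⟨h1, h2⟩ := of_decide_eq_true h
  have h1' : (0 : ℝ) ≤ w := by exact_mod_cast h1
  have h2' : (y : ℝ) ≤ (w : ℝ) ^ 2 := by exact_mod_cast h2
  exact Real.sqrt_le_iff.2 ⟨h1', hx.trans h2'⟩

/-- lower bound of a square root -/
def sqLo (y w : ℚ) : Bool := decide (w ^ 2 ≤ y ∨ w ≤ 0)

theorem sqLo_le {y w : ℚ} (h : sqLo y w = true) {x : ℝ} (hx : (y : ℝ) ≤ x) : (w : ℝ) ≤ √x := by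
  rcases of_decide_eq_true h with h1 | h1
  · have h1' : (w : ℝ) ^ 2 ≤ y := by exact_mod_cast h1
    exact Real.le_sqrt_of_sq_le (h1'.trans hx)
  · have h1' : (w : ℝ) ≤ 0 := by exact_mod_cast h1
    exact h1'.trans (Real.sqrt_nonneg _)

/-- the tip: `2 L √(b/κ) ≤ w` -/
def tipOk (κ L b w : ℚ) : Bool := decide (0 < κ ∧ 0 ≤ b ∧ 0 ≤ L ∧ 0 ≤ w ∧ 4 * L ^ 2 * b ≤ κ * w ^ 2)

theorem tipOk_le {κ L b w : ℚ} (h : tipOk κ L b w = true) {L' κ' : ℝ} (hL0 : 0 ≤ L') (hL : L' ≤ L)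
    (hκ : (κ : ℝ) ≤ κ') : 2 * L' * √((b : ℝ) / κ') ≤ w := by
  obtain ⟨h1, h2, h3, h4, h5⟩ := of_decide_eq_true h
  have h1' : (0 : ℝ) < κ := by exact_mod_cast h1
  have h2' : (0 : ℝ) ≤ b := by exact_mod_cast h2
  have h4' : (0 : ℝ) ≤ w := by exact_mod_cast h4
  have h5' : 4 * (L : ℝ) ^ 2 * b ≤ κ * (w : ℝ) ^ 2 := by exact_mod_cast h5
  have hκ0 : 0 < κ' := h1'.trans_le hκ
  have k0 : (0 : ℝ) ≤ 2 * L' * √((b : ℝ) / κ') := by positivity
  refine (pow_le_pow_iff_left₀ k0 h4' two_ne_zero).1 ?_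
  rw [mul_pow, Real.sq_sqrt (div_nonneg h2' hκ0.le), ← mul_div_assoc, div_le_iff₀ hκ0]
  have k1 : (2 * L') ^ 2 * (b : ℝ) ≤ 4 * (L : ℝ) ^ 2 * b := by
    have := pow_le_pow_left₀ hL0 hL 2
    nlinarith
  have k2 : (κ : ℝ) * (w : ℝ) ^ 2 ≤ (w : ℝ) ^ 2 * κ' := by
    rw [mul_comm]
    exact mul_le_mul_of_nonneg_left hκ (sq_nonneg _)
  linarith

/-- `log (x / b)` from above -/
theorem lgOk_div {y b l : ℚ} (h : lgOk (y / b) l = true) (hb : 0 < b) {x : ℝ} (hx : 0 < x)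
    (hxy : x ≤ y) : Real.log (x / (b : ℝ)) ≤ l := by
  have hb' : (0 : ℝ) < b := by exact_mod_cast hb
  refine le_trans (Real.log_le_log (by positivity) ?_) (lgOk_le h)
  push_cast
  exact div_le_div_of_nonneg_right hxy hb'.le

/-- the price `kD` from above: `lg` bounds `log ((N a + δ) / (n + δ))` -/
def kdOk (N δ a n lg w : ℚ) : Bool :=
  decide (0 < δ ∧ 0 ≤ n ∧ 0 ≤ N * a ∧ (n + δ) * (1 + lg) ≤ w) && lgOk ((N * a + δ) / (n + δ)) lg

theorem kdOk_le {N δ a n lg w : ℚ} (h : kdOk N δ a n lg w = true) :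
    kD (N : ℝ) δ a n ≤ w := by
  simp only [kdOk, Bool.and_eq_true] at h
  obtain ⟨h1, h2⟩ := h
  obtain ⟨c1, c2, c3, c4⟩ := of_decide_eq_true h1
  have d1 : (0 : ℝ) < δ := by exact_mod_cast c1
  have d2 : (0 : ℝ) ≤ n := by exact_mod_cast c2
  have d3 : (0 : ℝ) ≤ N * a := by exact_mod_cast c3
  have d4 : ((n : ℝ) + δ) * (1 + lg) ≤ w := by exact_mod_cast c4
  have h3 := lgOk_le h2
  push_cast at h3
  rw [Real.log_div (by positivity) (by positivity)] at h3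
  unfold kD
  have h4 : 1 + Real.log ((N : ℝ) * a + δ) - Real.log ((n : ℝ) + δ) ≤ 1 + lg := by linarith
  have := mul_le_mul_of_nonneg_left h4 (by linarith : (0 : ℝ) ≤ (n : ℝ) + δ)
  linarith

end Pool.Agent.FPX
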