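import Mathlib
import Pool.Agent.FPX.FINR
import Pool.Agent.FPX.FON
import Pool.Agent.FPX.MCE

/-
MCL (helper21): the scalar side of one cell of the modulus closing by one Boolean.

`Cell`: rational data of a `c`-cell; `Cell.ok`: the check (side constants, `exp`, `π`, `FJ`, fractions of
areas, weights); `chain`: cover of an interval; `covOk`: cover of `{0 ≤ H ≤ s ≤ 8}` by pieces; `cellM_ofB`:
helper28's `cellM_ring` from the Boolean, the cover, the exterior, the scalar conditions and the core;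
`cells_ofB`: from a list of certified cells to all cells of the table of `c`.
-/

open MeasureTheory Set Filter Topology
open scoped ENNReal NNReal

noncomputable section

namespace Pool.Agent.FPX.MCL

open Pool.Agent.EWD Pool.Agent.FPM Pool.Agent.FPX.VTB Pool.Agent.FPX.FOD

/-! ### lists -/

/-- entry of a list of fractions, default `1` -/
def fr (l : List ℚ) (j : ℕ) : ℝ := ((l.getD j 1 : ℚ) : ℝ)

/-- entry of a list of weights, default `0` -/
def wt (l : List ℚ) (j : ℕ) : ℝ := ((l.getD j 0 : ℚ) : ℝ)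

/-- positive, strictly decreasing -/
def decOk : List ℚ → Bool
  | x :: y :: l => decide (y < x) && decOk (y :: l)
  | [x] => decide (0 < x)
  | [] => true

theorem decOk_pos : ∀ {l : List ℚ}, decOk l = true → ∀ x ∈ l, 0 < x
  | [], _, x, hx => by simp at hx
  | [y], h, x, hx => by
    rw [List.mem_singleton] at hx
    rw [hx]
    exact of_decide_eq_true h
  | a :: b :: l, h, x, hx => by
    simp only [decOk, Bool.and_eq_true, decide_eq_true_eq] at h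
    have ih := decOk_pos h.2
    rcases List.mem_cons.1 hx with h1 | h1
    · rw [h1]
      exact (ih b (by simp)).trans h.1
    · exact ih x h1

theorem decOk_lt : ∀ {l : List ℚ}, decOk l = true → ∀ j, j + 1 < l.length → l.getD (j + 1) 1 < l.getD j 1
  | [], _, j, hj => by simp at hj
  | [y], _, j, hj => by simp at hj
  | a :: b :: l, h, j, hj => by
    simp only [decOk, Bool.and_eq_true, decide_eq_true_eq] at h
    rcases j with _ | j
    · simpa using h.1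
    · have := decOk_lt h.2 j (by simpa using hj)
      simpa using this

theorem getD_mem {l : List ℚ} {j : ℕ} {x : ℚ} (h : j < l.length) : l.getD j x ∈ l := by
  rw [List.getD_eq_getElem _ _ h]
  exact List.getElem_mem h

theorem fr_pos {l : List ℚ} (h : decOk l = true) (j : ℕ) : 0 < fr l j := by
  unfold fr
  rcases lt_or_ge j l.length with h1 | h1
  · exact_mod_cast decOk_pos h _ (getD_mem h1)
  · rw [List.getD_eq_default _ _ h1]
    norm_num

theorem wt_nonneg {l : List ℚ} (h : ∀ x ∈ l, 0 ≤ x) (j : ℕ) : 0 ≤ wt l j := by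
  unfold wt
  rcases lt_or_ge j l.length with h1 | h1
  · exact_mod_cast h _ (getD_mem h1)
  · rw [List.getD_eq_default _ _ h1]
    norm_num

theorem wt_sum : ∀ l : List ℚ, ∑ j ∈ Finset.range l.length, wt l j = ((l.sum : ℚ) : ℝ)
  | [] => by simp
  | x :: l => by
    rw [List.length_cons, Finset.sum_range_succ', List.sum_cons]
    have h1 : ∀ j, wt (x :: l) (j + 1) = wt l j := fun j => by simp [wt]
    simp only [h1, wt_sum l]
    have h2 : wt (x :: l) 0 = x := by simp [wt]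
    rw [h2]
    push_cast
    ring

/-! ### cover -/

/-- the strips from `a` to `b` with the break points `l` satisfy `f` -/
def chain (f : ℚ → ℚ → Bool) (b : ℚ) : ℚ → List ℚ → Bool
  | a, [] => f a b
  | a, x :: l => f a x && chain f b x l

theorem chain_sound {f : ℚ → ℚ → Bool} {b : ℚ} : ∀ {l : List ℚ} {a : ℚ}, chain f b a l = true →
    ∀ r : ℝ, (a : ℝ) ≤ r → r ≤ b → ∃ x y : ℚ, f x y = true ∧ (x : ℝ) ≤ r ∧ r ≤ y
  | [], a, h, r, h1, h2 => ⟨a, b, h, h1, h2⟩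
  | x :: l, a, h, r, h1, h2 => by
    simp only [chain, Bool.and_eq_true] at h
    rcases le_total r x with h3 | h3
    · exact ⟨a, x, h.1, h1, h3⟩
    · exact chain_sound h.2 r h3 h2

/-- a rectangle: `H / s` between `h0` and `h1`, levels between `s0` and `s1` -/
structure Rect where
  h0 : ℚ
  h1 : ℚ
  s0 : ℚ
  s1 : ℚ

/-- the rectangles cover `[0, 1] × [1/4, 8]`; `hs`, `ss` = inner break points -/
def covOk (hs ss : List ℚ) (P : List Rect) : Bool :=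
  P.all (fun p => decide (0 ≤ p.h1 ∧ 1 / 4 ≤ p.s0)) &&
  chain (fun x y => chain (fun s t => P.any fun p =>
    decide (p.h0 ≤ x ∧ y ≤ p.h1 ∧ p.s0 ≤ s ∧ t ≤ p.s1)) 8 (1 / 4) ss) 1 0 hs

theorem covOk_sound {hs ss : List ℚ} {P : List Rect} (h : covOk hs ss P = true) {s H : ℝ}
    (h1 : 0 ≤ H) (h2 : H ≤ s) (h3 : s ≤ 8) : ∃ p ∈ P, (p.h0 : ℝ) * s ≤ H ∧ H ≤ p.h1 * s ∧
      (p.s0 : ℝ) ≤ max s (1 / 4) ∧ max s (1 / 4) ≤ p.s1 := by
  simp only [covOk, Bool.and_eq_true] at h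
  have hs0 : 0 ≤ s := h1.trans h2
  obtain ⟨x, y, hf, x1, x2⟩ := chain_sound h.2 (H / s)
    (by rw [Rat.cast_zero]; exact div_nonneg h1 hs0) (by rw [Rat.cast_one]; exact div_le_one_of_le₀ h2 hs0)
  obtain ⟨u, t, hg, u1, u2⟩ := chain_sound hf (max s (1 / 4))
    (by push_cast; exact le_max_right _ _) (by
      push_cast
      exact max_le h3 (by norm_num))
  obtain ⟨p, hp, hpd⟩ := List.any_eq_true.1 hg
  obtain ⟨c1, c2, c3, c4⟩ := of_decide_eq_true hpd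
  have c1' : (p.h0 : ℝ) ≤ x := by exact_mod_cast c1
  have c2' : (y : ℝ) ≤ p.h1 := by exact_mod_cast c2
  have c3' : (p.s0 : ℝ) ≤ u := by exact_mod_cast c3
  have c4' : (t : ℝ) ≤ p.s1 := by exact_mod_cast c4
  refine ⟨p, hp, ?_, ?_, by linarith, by linarith⟩
  · rcases hs0.eq_or_lt with h4 | h4
    · rw [← h4, mul_zero]
      exact h1
    · have : (p.h0 : ℝ) ≤ H / s := c1'.trans x1
      rwa [le_div_iff₀ h4] at this
  · rcases hs0.eq_or_lt with h4 | h4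
    · rw [← h4, mul_zero]
      linarith
    · have : H / s ≤ p.h1 := x2.trans c2'
      rwa [div_le_iff₀ h4] at this

/-! ### the scalar data of a cell -/

/-- rational data of a `c`-cell `[cl, cu]`. `kap` = isoperimetric constant of the side condition, `kp` = of
the levels, `se` = bound of `√Ee`, `sg` = `σ`, `xl ≤ e^cl`, `e^cu ≤ xu`, `L` = bound of `Lc Ee cu`,
`rho` = fractions of the areas `[1, ρ₁, .., ρₙ]`, `w` = weights `[w₀, .., wₙ]`, `A` = fractions of the areas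
of the ring zones `[ρₙ, A₁, .., A_m]` -/
structure Cell where
  kap : ℚ
  se : ℚ
  sg : ℚ
  cl : ℚ
  cu : ℚ
  Xc : ℚ
  k : ℚ
  ks : ℚ
  kp : ℚ
  z : ℚ
  ab : ℚ
  bb : ℚ
  tau : ℚ
  qs : ℚ
  be : ℚ
  N : ℚ
  xl : ℚ
  xu : ℚ
  L : ℚ
  rho : List ℚ
  w : List ℚ
  A : List ℚ

/-- number of the last level -/
def Cell.n (D : Cell) : ℕ := D.rho.length - 1

/-- number of ring zones -/
def Cell.m (D : Cell) : ℕ := D.A.length - 1

/-- the check of the scalars -/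
def Cell.ok (D : Cell) : Bool :=
  decide (0 < D.kap ∧ 0 < D.sg ∧ 0 ≤ D.Xc ∧ 0 ≤ D.ks ∧ D.k ≤ D.sg * D.ks ∧ 0 < D.kp ∧
    D.kp ≤ 10000 / 5439 * (314159265358979 / 100000000000000) ∧ 0 < D.z ∧ 0 < phQ D.z ∧
    FQ D.z * (6931471808 / 10000000000) < 1 ∧ D.be ≤ 1) &&
  decide (D.cu ≤ 15 ∧ 0 < D.xl ∧ D.xl ≤ eL D.cl ∧ eU D.cu ≤ D.xu ∧ 2 * D.xu ^ 2 ≤ D.N ∧
    D.qs ≤ D.sg * (1 - 1 / D.xl) ∧ D.tau + 1 / 4 ≤ D.qs ∧ 0 < D.tau ∧ 0 < D.bb ∧ 0 ≤ D.se ∧
    0 ≤ D.L ∧ 2 * (D.se * D.xu + 1) ^ 2 ≤ D.L ^ 2 ∧ 4 * D.L ^ 2 * D.bb ≤ D.kap * D.tau ^ 2) &&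
  decide (D.rho.getD 0 0 = 1 ∧ D.w.length = D.rho.length ∧
    314159265358980 / 100000000000000 * D.A.getD D.m 1 ≤ D.ab ∧ D.w.sum = 1 ∧ 0 < D.w.getD 0 0 ∧
    D.A.getD 0 0 = D.rho.getD D.n 1) &&
  decOk D.rho && decOk D.A && D.w.all fun x => decide (0 ≤ x)

/-- **one cell of the modulus closing from the Boolean** -/
theorem cellM_ofB {D : Cell} (h : D.ok = true) {Ee : ℝ} (hE : 0 ≤ Ee) (hse : √Ee ≤ D.se) {cr Vlo : ℝ}
    (hVlo : Vlo ≤ 0 ∨ Close Vlo)
    {hs ss : List ℚ} {P : List Rect} (hc : covOk hs ss P = true) {I : Type} {d : I → MPc}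
    {PR : ℝ → ℝ → Prop} {Qf Ql : I → ℝ}
    {p : I → Rect} (hp : ∀ i, (d i).h0 = (p i).h0 ∧ (d i).h1 = (p i).h1 ∧ (d i).s0 = (p i).s0 ∧
      (d i).s1 = (p i).s1) (hpm : ∀ i, p i ∈ P) (hps : ∀ r ∈ P, ∃ i, p i = r)
    (hext : ∀ i, ExtS PR cr (Vlo / 2) (fr D.rho) (wt D.w) D.n (fr D.A) D.m (D.kp * D.z) D.kp
      (p i).h0 (p i).h1 (p i).s0 (p i).s1 (Qf i))
    (hextl : ∀ i, (p i).s0 ≤ 1 / 4 → ExtS PR cr (Vlo / 2) (fr D.rho) (wt D.w) D.n (fr D.A) D.m
      (D.kp * D.z) D.kp (p i).h0 (p i).h1 0 (1 / 4) (Ql i))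
    (slope : ∀ i, VSlope (d i).V 0 D.ab D.be D.kp D.N D.Xc)
    (slopeK : ∀ i, VSlope (d i).VK D.bb D.ab D.be D.kp D.N D.Xc)
    (scal : ∀ i, ScalR D.Xc D.ks D.qs D.tau D.ab D.be (Qf i) (Ql i) 0 (fun _ => True) (d i))
    (hVK : ∀ i m, 0 ≤ m → m ≤ (D.Xc : ℝ) → (d i).VK D.ab m ≤ (d i).V D.ab m)
    (core : CoreCellR Ee D.cl D.cu D.Xc D.ks (fr D.A D.m) D.bb PR cr d) :
    CellM D.kap Ee D.sg D.cl D.cu D.Xc D.k := by
  simp only [Cell.ok, Bool.and_eq_true] at h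
  obtain ⟨⟨⟨⟨⟨g1, g2⟩, g3⟩, g4⟩, g6⟩, g5⟩ := h
  obtain ⟨a1, a2, a3, a4, a5, a6, a7, a8, a9, a10, a11⟩ := of_decide_eq_true g1
  obtain ⟨b1, b2, b3, b4, b5, b6, b7, b8, b9, b10, b11, b12, b13⟩ := of_decide_eq_true g2
  obtain ⟨e1, e2, e3, e4, e5, e6⟩ := of_decide_eq_true g3
  have g5' : ∀ x ∈ D.w, 0 ≤ x := fun x hx => of_decide_eq_true (List.all_eq_true.1 g5 x hx)
  -- casts
  have a2' : (0 : ℝ) < D.sg := by exact_mod_cast a2
  have a4' : (0 : ℝ) ≤ D.ks := by exact_mod_cast a4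
  have a5' : (D.k : ℝ) ≤ D.sg * D.ks := by exact_mod_cast a5
  have a6' : (0 : ℝ) < D.kp := by exact_mod_cast a6
  have a7' : (D.kp : ℝ) ≤ 10000 / 5439 * (314159265358979 / 100000000000000) := by
    have := (Rat.cast_le (K := ℝ)).2 a7
    push_cast at this
    exact this
  have a8' : (0 : ℝ) < D.z := by exact_mod_cast a8
  have a9' : (0 : ℝ) < phJ D.z := by rw [← phQ_cast]; exact_mod_cast a9
  have a10' : FJ (D.z : ℝ) * (6931471808 / 10000000000) < 1 := by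
    have := (Rat.cast_lt (K := ℝ)).2 a10
    push_cast at this
    rwa [FQ_cast] at this
  have a11' : (D.be : ℝ) ≤ 1 := by exact_mod_cast a11
  have b2' : (0 : ℝ) < D.xl := by exact_mod_cast b2
  have b5' : 2 * (D.xu : ℝ) ^ 2 ≤ D.N := by exact_mod_cast b5
  have b6' : (D.qs : ℝ) ≤ D.sg * (1 - 1 / D.xl) := by exact_mod_cast b6
  have b7' : (D.tau : ℝ) + 1 / 4 ≤ D.qs := by
    have := (Rat.cast_le (K := ℝ)).2 b7
    push_cast at this
    exact this
  have b8' : (0 : ℝ) < D.tau := by exact_mod_cast b8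
  have b9' : (0 : ℝ) < D.bb := by exact_mod_cast b9
  have b10' : (0 : ℝ) ≤ D.se := by exact_mod_cast b10
  have b12' : 2 * ((D.se : ℝ) * D.xu + 1) ^ 2 ≤ (D.L : ℝ) ^ 2 := by exact_mod_cast b12
  have b13' : 4 * (D.L : ℝ) ^ 2 * D.bb ≤ D.kap * (D.tau : ℝ) ^ 2 := by exact_mod_cast b13
  have e3' : (314159265358980 / 100000000000000 : ℝ) * fr D.A D.m ≤ D.ab := by
    have := (Rat.cast_le (K := ℝ)).2 e3
    push_cast at this
    exact this
  -- exponentials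
  have hxl : (D.xl : ℝ) ≤ Real.exp D.cl := by
    have k1 : (D.xl : ℝ) ≤ (eL D.cl : ℝ) := by exact_mod_cast b3
    exact k1.trans (eL_le D.cl)
  have hxu : Real.exp D.cu ≤ D.xu := by
    have k1 : (eU D.cu : ℝ) ≤ D.xu := by exact_mod_cast b4
    exact (le_eU (x := D.cu) b1).trans k1
  have he := Real.exp_pos (D.cu : ℝ)
  have hN : 2 * Real.exp (D.cu : ℝ) ^ 2 ≤ D.N := by
    have := pow_le_pow_left₀ he.le hxu 2
    linarith
  have hq : (D.qs : ℝ) ≤ D.sg * (1 - Real.exp (-D.cl)) := by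
    refine b6'.trans (mul_le_mul_of_nonneg_left ?_ a2'.le)
    rw [Real.exp_neg, one_div]
    have := inv_anti₀ b2' hxl
    linarith
  have hL : Lc Ee D.cu ^ 2 ≤ (D.L : ℝ) ^ 2 := by
    have e : Lc Ee D.cu ^ 2 = 2 * (√Ee * Real.exp D.cu + 1) ^ 2 := by
      unfold Lc
      rw [mul_pow, Real.sq_sqrt (by norm_num)]
    rw [e]
    have k1 : √Ee * Real.exp (D.cu : ℝ) ≤ D.se * D.xu := mul_le_mul hse hxu he.le b10'
    have k2 : 0 ≤ √Ee * Real.exp (D.cu : ℝ) := mul_nonneg (Real.sqrt_nonneg _) he.le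
    have := pow_le_pow_left₀ (by linarith : 0 ≤ √Ee * Real.exp (D.cu : ℝ) + 1)
      (by linarith : √Ee * Real.exp (D.cu : ℝ) + 1 ≤ D.se * D.xu + 1) 2
    linarith
  have hτ : 4 * Lc Ee D.cu ^ 2 * (D.bb : ℝ) ≤ D.kap * (D.tau : ℝ) ^ 2 := by
    refine le_trans ?_ b13'
    have := mul_le_mul_of_nonneg_right hL b9'.le
    linarith
  -- `π`
  have p1 := Real.pi_gt_d20
  have p2 := Real.pi_lt_d20
  have hkp : (D.kp : ℝ) < 10000 / 5439 * Real.pi := by
    refine a7'.trans_lt ?_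
    have : (314159265358979 / 100000000000000 : ℝ) < Real.pi := by
      refine lt_trans ?_ p1
      norm_num
    exact mul_lt_mul_of_pos_left this (by norm_num)
  have hrn : 0 < fr D.A D.m := fr_pos g6 _
  have hab : Real.pi * fr D.A D.m ≤ D.ab := by
    refine le_trans ?_ e3'
    refine mul_le_mul_of_nonneg_right ?_ hrn.le
    refine p2.le.trans ?_
    norm_num
  -- `FJ`
  have hFJ : 0 < FJ (D.z : ℝ) := by
    unfold FJ
    have := ppJ_pos (D.z : ℝ)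
    positivity
  have hzF : FJ (D.z : ℝ) * Real.log 2 < 1 := by
    have h2 := Real.log_two_lt_d9
    refine lt_trans (mul_lt_mul_of_pos_left h2 hFJ) ?_
    have e : (0.6931471808 : ℝ) = 6931471808 / 10000000000 := by norm_num
    rw [e]
    exact a10'
  -- lists
  have hlen : 0 < D.rho.length := by
    rcases Nat.eq_zero_or_pos D.rho.length with h0 | h0
    · exfalso
      rw [List.length_eq_zero_iff.1 h0] at e1
      simp at e1
    · exact h0
  have hn : D.n + 1 = D.rho.length := by unfold Cell.n; omega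
  have hρ0 : fr D.rho 0 = 1 := by
    unfold fr
    rw [List.getD_eq_getElem _ _ hlen]
    rw [List.getD_eq_getElem _ _ hlen] at e1
    rw [e1]
    norm_num
  have hρd : ∀ j, j < D.n → fr D.rho (j + 1) < fr D.rho j := fun j hj => by
    unfold fr
    exact_mod_cast decOk_lt g4 j (by omega)
  have hρp := decOk_pos g4 _ (getD_mem (x := 1) (show D.n < D.rho.length by omega))
  have hlenA : 0 < D.A.length := by
    rcases Nat.eq_zero_or_pos D.A.length with h0 | h0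
    · exfalso
      rw [List.length_eq_zero_iff.1 h0] at e6
      simp only [List.getD_nil] at e6
      exact absurd e6.symm (ne_of_gt hρp)
    · exact h0
  have hA0 : fr D.A 0 = fr D.rho D.n := by
    unfold fr
    rw [List.getD_eq_getElem _ _ hlenA]
    rw [List.getD_eq_getElem _ _ hlenA] at e6
    rw [e6]
  have hAd : ∀ j, j < D.m → fr D.A (j + 1) < fr D.A j := fun j hj => by
    unfold fr
    exact_mod_cast decOk_lt g6 j (by unfold Cell.m at hj; omega)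
  have hw1 : ∑ j ∈ Finset.range (D.n + 1), wt D.w j = 1 := by
    rw [hn, ← e2, wt_sum, e4]
    norm_num
  have hw0 : 0 < wt D.w 0 := by
    unfold wt
    exact_mod_cast e5
  have hpd : ∀ r ∈ P, (0 : ℝ) ≤ r.h1 ∧ (1 / 4 : ℝ) ≤ r.s0 := by
    intro r hr
    have h1 := hc
    simp only [covOk, Bool.and_eq_true] at h1
    obtain ⟨c1, c2⟩ := of_decide_eq_true (List.all_eq_true.1 h1.1 r hr)
    have c2' := (Rat.cast_le (K := ℝ)).2 c2
    push_cast at c2'
    exact ⟨by exact_mod_cast c1, c2'⟩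
  refine cellM_ring (κ := D.kap) (Ee := Ee) (σ := D.sg) (cl := D.cl) (cu := D.cu) (Xc := D.Xc) (k := D.k)
    (ks := D.ks) (κ' := D.kp) (z := D.z) (ab := D.ab) (bb := D.bb) (τ := D.tau) (qs := D.qs)
    (β := D.be) (N := D.N) (cr := cr) (Vlo := Vlo) (n := D.n) (mz := D.m) (ρ := fr D.rho)
    (w := wt D.w) (A := fr D.A) (PR := PR) (d := d) (Qf := Qf) (Ql := Ql)
    hVlo hE a2' a4' a5' a6' hkp a8' a9' hzF hN hq b7' b8' hτ b9' hρ0 (fr_pos g4) hρd hA0 (fr_pos g6)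
    hAd hab (wt_nonneg g5') hw1 hw0 a11' (fun i => ?_) (fun s H h1 h2 h3 => ?_) (fun i => ?_)
    (fun i h0 => ?_) slope slopeK scal hVK core
  · obtain ⟨q1, q2, q3, q4⟩ := hp i
    rw [q2, q3]
    exact hpd _ (hpm i)
  · obtain ⟨r, hr, c1, c2, c3, c4⟩ := covOk_sound hc h1 h2 h3
    obtain ⟨i, hi⟩ := hps r hr
    obtain ⟨q1, q2, q3, q4⟩ := hp i
    rw [hi] at q1 q2 q3 q4
    exact ⟨i, by rw [q1]; exact c1, by rw [q2]; exact c2, by rw [q3]; exact c3, by rw [q4]; exact c4⟩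
  · obtain ⟨q1, q2, q3, q4⟩ := hp i
    rw [q1, q2, q3, q4]
    exact hext i
  · obtain ⟨q1, q2, q3, q4⟩ := hp i
    rw [q3] at h0
    rw [q1, q2]
    have h5 : (((p i).s0 : ℚ) : ℝ) ≤ ((1 / 4 : ℚ) : ℝ) := by
      push_cast
      exact h0
    exact hextl i ((Rat.cast_le (K := ℝ)).1 h5)

/-! ### the pieces as a list -/

/-- a piece: rectangle, value functions, exterior forms (for its levels and for the levels below `1/4`) -/
structure Pce where
  r : Rect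
  V : ℝ → ℝ → ℝ
  VK : ℝ → ℝ → ℝ
  Q : ℝ
  Ql : ℝ

/-- the piece in the form of `cellM_ring` -/
def Pce.pc (p : Pce) : MPc := ⟨p.r.h0, p.r.h1, p.r.s0, p.r.s1, p.V, p.VK⟩

/-- the exterior of a piece -/
structure Pce.Ext (p : Pce) (D : Cell) (PR : ℝ → ℝ → Prop) (cr Vlo : ℝ) : Prop where
  ext : ExtS PR cr (Vlo / 2) (fr D.rho) (wt D.w) D.n (fr D.A) D.m (D.kp * D.z) D.kp
    p.r.h0 p.r.h1 p.r.s0 p.r.s1 p.Q
  extl : p.r.s0 ≤ 1 / 4 → ExtS PR cr (Vlo / 2) (fr D.rho) (wt D.w) D.n (fr D.A) D.m (D.kp * D.z) D.kp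
    p.r.h0 p.r.h1 0 (1 / 4) p.Ql

/-- the scalar conditions of a piece -/
structure Pce.Sc (p : Pce) (D : Cell) : Prop where
  slope : VSlope p.V 0 D.ab D.be D.kp D.N D.Xc
  slopeK : VSlope p.VK D.bb D.ab D.be D.kp D.N D.Xc
  scal : ScalR D.Xc D.ks D.qs D.tau D.ab D.be p.Q p.Ql 0 (fun _ => True) p.pc
  hVK : ∀ m, 0 ≤ m → m ≤ (D.Xc : ℝ) → p.VK D.ab m ≤ p.V D.ab m

/-- **one cell of the modulus closing from the Booleans and a list of pieces** -/
theorem cellM_ofL {D : Cell} (h : D.ok = true) {Ee : ℝ} (hE : 0 ≤ Ee) (hse : √Ee ≤ D.se) {cr Vlo : ℝ}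
    (hVlo : Vlo ≤ 0 ∨ Close Vlo) {L : List Pce} {hs ss : List ℚ}
    (hc : covOk hs ss (L.map Pce.r) = true) {PR : ℝ → ℝ → Prop}
    (hext : ∀ p ∈ L, p.Ext D PR cr Vlo) (hsc : ∀ p ∈ L, p.Sc D)
    (core : CoreCellR Ee D.cl D.cu D.Xc D.ks (fr D.A D.m) D.bb PR cr
      (fun p : {p : Pce // p ∈ L} => p.1.pc)) :
    CellM D.kap Ee D.sg D.cl D.cu D.Xc D.k :=
  cellM_ofB (I := {p : Pce // p ∈ L}) (d := fun p => p.1.pc) (Qf := fun p => p.1.Q)
    (Ql := fun p => p.1.Ql) (p := fun p => p.1.r) h hE hse hVlo hc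
    (fun _ => ⟨rfl, rfl, rfl, rfl⟩) (fun i => List.mem_map.2 ⟨i.1, i.2, rfl⟩)
    (fun r hr => by
      obtain ⟨p, hp, e⟩ := List.mem_map.1 hr
      exact ⟨⟨p, hp⟩, e⟩)
    (fun i => (hext i.1 i.2).ext) (fun i => (hext i.1 i.2).extl) (fun i => (hsc i.1 i.2).slope)
    (fun i => (hsc i.1 i.2).slopeK) (fun i => (hsc i.1 i.2).scal) (fun i => (hsc i.1 i.2).hVK) core

/-! ### all cells of the table of `c` -/

/-- header of a certified cell -/
structure Hd where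
  cl : ℚ
  cu : ℚ
  Xc : ℚ
  k : ℚ

/-- every cell of the table of `c` with `g ≤ X` is contained in a certified cell -/
def cellsOk (X c₀ k₀ : ℚ) (L : List (ℚ × ℚ)) (Cs : List Hd) : Bool :=
  (qCells c₀ 0 k₀ L).all fun r => decide (X < r.2.2.1) ||
    Cs.any fun s => decide (s.cl ≤ r.1 ∧ r.2.1 ≤ s.cu ∧ X - r.2.2.1 ≤ s.Xc ∧ r.2.2.2 ≤ s.k)

/-- **all cells of the table of `c` from a list of certified cells** -/
theorem cells_ofB {X c₀ k₀ : ℚ} {L : List (ℚ × ℚ)} {Cs : List Hd} (h : cellsOk X c₀ k₀ L Cs = true)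
    {κ Ee σ : ℝ} (hC : ∀ s ∈ Cs, CellM κ Ee σ s.cl s.cu s.Xc s.k) :
    ∀ r ∈ qCells c₀ 0 k₀ L, r.2.2.1 ≤ X →
      CellM κ Ee σ r.1 r.2.1 ((X : ℝ) - r.2.2.1) r.2.2.2 := by
  intro r hr hX
  have h1 := List.all_eq_true.1 h r hr
  rw [Bool.or_eq_true] at h1
  rcases h1 with h1 | h1
  · exact absurd hX (not_le.2 (of_decide_eq_true h1))
  · obtain ⟨s, hs, hd⟩ := List.any_eq_true.1 h1
    obtain ⟨c1, c2, c3, c4⟩ := of_decide_eq_true hd
    have c3' : ((X - r.2.2.1 : ℚ) : ℝ) ≤ s.Xc := by exact_mod_cast c3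
    push_cast at c3'
    exact (hC s hs).of_mono (by exact_mod_cast c1) (by exact_mod_cast c2) c3' (by exact_mod_cast c4)

/-- the check of the table of `c` -/
def topOk (κ X σ c₀ k₀ : ℚ) (L : List (ℚ × ℚ)) (Cs : List Hd) : Bool :=
  decide (0 < κ ∧ κ ≤ 10000 / 5439 * (314159265358979 / 100000000000000) ∧ 0 < c₀ ∧ 0 < σ ∧ σ < 1 ∧
    0 < X ∧ X ≤ 6 ∧ 0 ≤ k₀ ∧ X < qVal 0 k₀ L) && qOk k₀ L && cellsOk X c₀ k₀ L Cs

/-- **the modulus closing from a list of certified cells** -/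
theorem closes_ofB {κ X σ c₀ k₀ : ℚ} {L : List (ℚ × ℚ)} {Cs : List Hd}
    (h : topOk κ X σ c₀ k₀ L Cs = true) {Ee : ℝ} (hE : 1 ≤ Ee)
    (hC : ∀ s ∈ Cs, CellM κ Ee σ s.cl s.cu s.Xc s.k) : ASX.ClosesE (fun x => x) Ee c₀ X := by
  simp only [topOk, Bool.and_eq_true] at h
  obtain ⟨⟨h1, h2⟩, h3⟩ := h
  obtain ⟨c1, c2, c3, c4, c5, c6, c7, c8, c9⟩ := of_decide_eq_true h1
  have c2' : (κ : ℝ) ≤ 10000 / 5439 * (314159265358979 / 100000000000000) := by
    have := (Rat.cast_le (K := ℝ)).2 c2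
    push_cast at this
    exact this
  have p1 := Real.pi_gt_d20
  have hκ : (κ : ℝ) ≤ 10000 / 5439 * Real.pi := by
    refine c2'.trans (mul_le_mul_of_nonneg_left ?_ (by norm_num))
    refine le_trans ?_ p1.le
    norm_num
  exact closesE_of_cellM hE c1 hκ c3 c4 c5 c6 c7 c8 h2 c9 (cells_ofB h3 hC)

end Pool.Agent.FPX.MCL
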