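import Mathlib
import Pool.Agent.FPX.CRY
import Pool.Agent.FPX.MCL

/-
CRZ (helper89): Booleans for the core of one cell. `tpOk`: the facts about a table (`TabP`) from integers;
`TabQ`: a table with its certificate, monotone in the budgets; `TabQ.pieceV`, `TabQ.pieceK`: the pieces;
`VE`: value functions built from tables by chords, `VE.v`, `VE.k`: the pieces of such a value function.
-/

open MeasureTheory Set Filter Topology
open scoped ENNReal NNReal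

noncomputable section

namespace Pool.Agent.FPX

open Pool.Agent.EWD Pool.Agent.FPM

/-- the check of the budgets of a table -/
def tpOk (κ N X : ℚ) (T : MCW.Tab) : Bool :=
  decide (0 < T.I ∧ 0 < T.J ∧ 0 ≤ T.Wm) &&
  decide (0 < κ ∧ κ ≤ 10000 / 5439 * (314159 / 100000) ∧ 0 < N ∧ 0 ≤ X ∧ 4 * X * T.Kd < T.J * κ) &&
  decide (N.num * T.S ^ (T.I + 1) ≤ T.f0 * T.E ^ T.I * N.den)

theorem exp_step {T : MCW.Tab} (g : T.Good) : (T.E : ℝ) / T.S ≤ Real.exp (1 / T.H) := by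
  have hSr : (0 : ℝ) < T.S := by exact_mod_cast g.S
  have hHr : (0 : ℝ) < T.H := by exact_mod_cast g.H
  have h1 := Real.sum_le_exp_of_nonneg (x := 1 / (T.H : ℝ)) (by positivity) 4
  refine le_trans ?_ h1
  have h2 : (T.E : ℝ) * (6 * T.H ^ 3) ≤ T.S * (6 * T.H ^ 3 + 6 * T.H ^ 2 + 3 * T.H + 1) := by
    exact_mod_cast g.e
  have e1 : ∑ i ∈ Finset.range 4, (1 / (T.H : ℝ)) ^ i / (i.factorial : ℝ) =
      (6 * T.H ^ 3 + 6 * T.H ^ 2 + 3 * T.H + 1) / (6 * T.H ^ 3) := by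
    simp only [Finset.sum_range_succ, Finset.sum_range_zero, Nat.factorial]
    push_cast
    field_simp
    ring
  rw [e1, div_le_div_iff₀ hSr (by positivity)]
  linarith

/-- **the facts about a table from the Booleans** -/
theorem tabP_of {κ N X : ℚ} {T : MCW.Tab} (g : T.Good) (h : tpOk κ N X T = true) :
    TabP T κ N X := by
  simp only [tpOk, Bool.and_eq_true] at h
  obtain ⟨⟨h1, h2⟩, h3⟩ := h
  obtain ⟨a1, a2, a3⟩ := of_decide_eq_true h1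
  obtain ⟨b1, b2, b3, b4, b5⟩ := of_decide_eq_true h2
  have h3 := of_decide_eq_true h3
  have hSr : (0 : ℝ) < T.S := by exact_mod_cast g.S
  have hHr : (0 : ℝ) < T.H := by exact_mod_cast g.H
  have hKr : (0 : ℝ) < T.Kd := by exact_mod_cast g.K
  have hfr : (0 : ℝ) < T.f0 := by exact_mod_cast g.f
  have hEr : (0 : ℝ) < T.E := by exact_mod_cast g.E
  have b1' : (0 : ℝ) < κ := by exact_mod_cast b1
  have b3' : (0 : ℝ) < N := by exact_mod_cast b3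
  refine ⟨g, a1, a2, a3, b1', ?_, b3', ?_, ?_⟩
  · have := (Rat.cast_le (K := ℝ)).2 b2
    push_cast at this
    have hp := Real.pi_gt_d6
    have hp' : (314159 / 100000 : ℝ) < Real.pi := by
      refine lt_trans ?_ hp
      norm_num
    linarith
  · have e1 : Real.exp (T.I / T.H) = Real.exp (1 / T.H) ^ T.I := by
      rw [← Real.exp_nat_mul]
      congr 1
      ring
    have e2 : ((T.E : ℝ) / T.S) ^ T.I ≤ Real.exp (1 / T.H) ^ T.I :=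
      pow_le_pow_left₀ (by positivity) (exp_step g) _
    rw [e1]
    refine le_trans ?_ (mul_le_mul_of_nonneg_left e2 (by positivity))
    have hd : (0 : ℝ) < N.den := by exact_mod_cast N.den_pos
    have h4 : (N.num : ℝ) * (T.S : ℝ) ^ (T.I + 1) ≤ T.f0 * T.E ^ T.I * N.den := by exact_mod_cast h3
    have e3 : (N : ℝ) = N.num / N.den := by
      rw [Rat.cast_def]
    rw [e3, div_pow, ← mul_div_mul_comm, div_le_div_iff₀ hd (by positivity)]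
    have e4 : (T.S : ℝ) * (T.S : ℝ) ^ T.I = T.S ^ (T.I + 1) := by rw [pow_succ]; ring
    rw [e4]
    exact h4
  · have h5 : (4 * (X : ℝ) * T.Kd) < T.J * κ := by exact_mod_cast b5
    have e : 4 / (κ : ℝ) * X * T.Kd = 4 * X * T.Kd / κ := by ring
    rw [e, div_lt_iff₀ b1']
    exact h5

/-- **a table with its certificate**: `ρ₀` = lowest level, `θ` = share, `κ'` = isoperimetric constant, `N` =
bound of the density of the charge, `X` = bound of the charge -/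
structure TabQ (Q : E3 → E3 → E3 → E3 → E3 → ℝ) (ρ₀ θ : ℝ) (T : MCW.Tab) (κ' N X : ℝ) : Prop where
  ρ : 0 < ρ₀
  ex : ∃ Ψ : ℝ → ℝ → ℝ → ℝ, MCR Q ρ₀ θ Ψ ∧ TabC T Ψ
  b : ∀ e ∈ T.L, e.2.2 ≤ T.S
  P : TabP T κ' N X

theorem TabP.mono {T : MCW.Tab} {κ' N X X' : ℝ} (h : TabP T κ' N X) (hX : X' ≤ X) :
    TabP T κ' N X' where
  g := h.g
  hI := h.hI
  hJ := h.hJ
  hW := h.hW
  hκ := h.hκ
  hκ1 := h.hκ1
  hN := h.hN
  hN1 := h.hN1
  hX := by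
    have hKr : (0 : ℝ) < T.Kd := by exact_mod_cast h.g.K
    have hκ := h.hκ
    refine lt_of_le_of_lt ?_ h.hX
    exact mul_le_mul_of_nonneg_right (mul_le_mul_of_nonneg_left hX (by positivity)) hKr.le

/-- the check that the prices are at most `1` -/
def tbOk (T : MCW.Tab) : Bool := T.L.all fun e => decide (e.2.2 ≤ T.S)

/-- **the table with its certificate from the Booleans** -/
theorem tabQ_of {av : List WA} (hav : ∀ a ∈ av, a.mw.Sw) {ρ θ : ℚ} {Λ : List MQ} {T : MCW.Tab}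
    (hρ : 0 < ρ) (h1 : mlOk ρ θ av Λ = true) (h2 : tcOk T Λ = true) (h3 : tbOk T = true)
    (h4 : T.Good) {κ N X : ℚ} (h5 : tpOk κ N X T = true) :
    TabQ (QW (av.map WA.mw)) ρ θ T κ N X where
  ρ := by exact_mod_cast hρ
  ex := ⟨_, mcr_q hav h1, tcOk_sound h2 av⟩
  b := fun e he => of_decide_eq_true (List.all_eq_true.1 h3 e he)
  P := tabP_of h4 h5

section pieces

variable {Q : E3 → E3 → E3 → E3 → E3 → ℝ} {ψ : ℝ → ℝ} {κ' N X : ℝ} {Ee cl cu Xc ks ρn bb : ℝ}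

/-- the value function of a table with the side charge -/
def kV (T : MCW.Tab) (κ' ks bb : ℝ) (a m : ℝ) : ℝ := T.V κ' a m - ks ^ 2 / κ' * Real.log (a / bb)

/-- the piece of one table -/
theorem TabQ.pieceV (HQ : MCQ Q ψ) {ρ₀ θ : ℝ} {T : MCW.Tab} (h : TabQ Q ρ₀ θ T κ' N X) (hX : Xc ≤ X)
    (hN : 2 * Real.exp cu ^ 2 ≤ N) (hρ : ρn ≤ 1) {d : MPc} (hs : ρ₀ ≤ d.s0) (hh : d.h1 ^ 2 ≤ θ)
    (hV : d.V = T.V κ') : PieceV Q Ee cl cu Xc ρn d := by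
  obtain ⟨Ψ, H, hT⟩ := h.ex
  exact pieceV_tab HQ H h.ρ hT (h.P.mono hX) hN hρ hs hh hV

/-- the piece of one table with the side charge -/
theorem TabQ.pieceK (HQ : MCQ Q ψ) {ρ₀ θ : ℝ} {T : MCW.Tab} (h : TabQ Q ρ₀ θ T κ' N X) (hX : Xc ≤ X)
    (hN : 2 * Real.exp cu ^ 2 ≤ N) (hρ : ρn ≤ 1) (hk : 0 ≤ ks) (hk0 : 4 / κ' * ks ≤ T.n0 / T.Kd)
    (hbb : 0 < bb) {d : MPc} (hs : ρ₀ ≤ d.s0) (hh : d.h1 ^ 2 ≤ θ) (hV : d.VK = kV T κ' ks bb) :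
    PieceK Q Ee cl cu Xc ks ρn bb d := by
  obtain ⟨Ψ, H, hT⟩ := h.ex
  exact pieceK_tab HQ H h.ρ hT h.b (h.P.mono hX) hN hρ hk hk0 hbb hs hh hV

/-- the piece of a chord of two tables -/
theorem TabQ.pieceV2 (HQ : MCQ Q ψ) {ρ₁ ρ₂ θ₁ θ₂ : ℝ} {T₁ T₂ : MCW.Tab}
    (h₁ : TabQ Q ρ₁ θ₁ T₁ κ' N X) (h₂ : TabQ Q ρ₂ θ₂ T₂ κ' N X) (hX : Xc ≤ X)
    (hN : 2 * Real.exp cu ^ 2 ≤ N) (hρ : ρn ≤ 1) (t1 : 0 ≤ θ₁) (u1 : θ₁ ≤ 1) (t2 : 0 ≤ θ₂)
    (u2 : θ₂ ≤ 1) {d : MPc} (hs1 : ρ₁ ≤ d.s0) (hs2 : ρ₂ ≤ d.s0) {l : ℝ} (l0 : 0 ≤ l) (l1 : l ≤ 1)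
    (hh : d.h1 ^ 2 ≤ (1 - l) * θ₁ + l * θ₂) (hV : d.V = vmix l (T₁.V κ') (T₂.V κ')) :
    PieceV Q Ee cl cu Xc ρn d := by
  have q1 : √θ₁ ≤ 1 := Real.sqrt_le_one.2 u1
  have q2 : √θ₂ ≤ 1 := Real.sqrt_le_one.2 u2
  refine PieceV.mix HQ
    (TabQ.pieceV HQ h₁ hX hN hρ (d := ⟨0, √θ₁, d.s0, d.s1, T₁.V κ', d.VK⟩) hs1
      (Real.sq_sqrt t1).le rfl)
    (TabQ.pieceV HQ h₂ hX hN hρ (d := ⟨0, √θ₂, d.s0, d.s1, T₂.V κ', d.VK⟩) hs2
      (Real.sq_sqrt t2).le rfl) le_rfl le_rfl le_rfl le_rfl (Real.sqrt_nonneg _) q1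
    (Real.sqrt_nonneg _) q2 l0 l1 ?_ hV
  simp only
  rw [Real.sq_sqrt t1, Real.sq_sqrt t2]
  exact hh

/-- the piece of a chord of two tables with the side charge -/
theorem TabQ.pieceK2 (HQ : MCQ Q ψ) {ρ₁ ρ₂ θ₁ θ₂ : ℝ} {T₁ T₂ : MCW.Tab}
    (h₁ : TabQ Q ρ₁ θ₁ T₁ κ' N X) (h₂ : TabQ Q ρ₂ θ₂ T₂ κ' N X) (hX : Xc ≤ X)
    (hN : 2 * Real.exp cu ^ 2 ≤ N) (hρ : ρn ≤ 1) (hk : 0 ≤ ks) (hk1 : 4 / κ' * ks ≤ T₁.n0 / T₁.Kd)
    (hk2 : 4 / κ' * ks ≤ T₂.n0 / T₂.Kd) (hbb : 0 < bb) (t1 : 0 ≤ θ₁) (u1 : θ₁ ≤ 1) (t2 : 0 ≤ θ₂)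
    (u2 : θ₂ ≤ 1) {d : MPc} (hs1 : ρ₁ ≤ d.s0) (hs2 : ρ₂ ≤ d.s0) {l : ℝ} (l0 : 0 ≤ l) (l1 : l ≤ 1)
    (hh : d.h1 ^ 2 ≤ (1 - l) * θ₁ + l * θ₂) (hV : d.VK = vmix l (kV T₁ κ' ks bb) (kV T₂ κ' ks bb)) :
    PieceK Q Ee cl cu Xc ks ρn bb d := by
  have q1 : √θ₁ ≤ 1 := Real.sqrt_le_one.2 u1
  have q2 : √θ₂ ≤ 1 := Real.sqrt_le_one.2 u2
  refine PieceK.mix HQ
    (TabQ.pieceK HQ h₁ hX hN hρ hk hk1 hbb (d := ⟨0, √θ₁, d.s0, d.s1, d.V, kV T₁ κ' ks bb⟩) hs1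
      (Real.sq_sqrt t1).le rfl)
    (TabQ.pieceK HQ h₂ hX hN hρ hk hk2 hbb (d := ⟨0, √θ₂, d.s0, d.s1, d.V, kV T₂ κ' ks bb⟩) hs2
      (Real.sq_sqrt t2).le rfl) le_rfl le_rfl le_rfl le_rfl (Real.sqrt_nonneg _) q1
    (Real.sqrt_nonneg _) q2 l0 l1 ?_ hV
  simp only
  rw [Real.sq_sqrt t1, Real.sq_sqrt t2]
  exact hh

end pieces

/-! ### the core of a cell in the form of `MCL.cellM_ofL` -/

/-- the facts about a cell used for the core -/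
structure CellF (D : MCL.Cell) : Prop where
  N : 2 * Real.exp D.cu ^ 2 ≤ D.N
  ρ : MCL.fr D.A D.m ≤ 1
  k : (0 : ℝ) ≤ D.ks
  bb : (0 : ℝ) < D.bb

theorem decOk_le {l : List ℚ} (h : MCL.decOk l = true) : ∀ j, j < l.length → l.getD j 1 ≤ l.getD 0 1
  | 0, _ => le_rfl
  | j + 1, hj => (MCL.decOk_lt h j hj).le.trans (decOk_le h j (by omega))

theorem cellF_of {D : MCL.Cell} (h : D.ok = true) : CellF D := by
  simp only [MCL.Cell.ok, Bool.and_eq_true] at h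
  obtain ⟨⟨⟨⟨⟨g1, g2⟩, g3⟩, g4⟩, g6⟩, g5⟩ := h
  obtain ⟨a1, a2, a3, a4, a5, a6, a7, a8, a9, a10, a11⟩ := of_decide_eq_true g1
  obtain ⟨b1, b2, b3, b4, b5, b6, b7, b8, b9, b10, b11, b12, b13⟩ := of_decide_eq_true g2
  obtain ⟨e1, e2, e3, e4, e5, e6⟩ := of_decide_eq_true g3
  have b5' : 2 * (D.xu : ℝ) ^ 2 ≤ D.N := by exact_mod_cast b5
  have hxu : Real.exp D.cu ≤ D.xu := by
    have k1 : (VTB.eU D.cu : ℝ) ≤ D.xu := by exact_mod_cast b4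
    exact (VTB.le_eU (x := D.cu) b1).trans k1
  have he := Real.exp_pos (D.cu : ℝ)
  refine ⟨?_, ?_, by exact_mod_cast a4, by exact_mod_cast b9⟩
  · have := pow_le_pow_left₀ he.le hxu 2
    linarith
  · unfold MCL.fr
    have h1 : D.A.getD D.m 1 ≤ D.A.getD 0 1 := by
      rcases Nat.eq_zero_or_pos D.A.length with h0 | h0
      · rw [List.length_eq_zero_iff.1 h0]
        simp
      · exact decOk_le g6 _ (by unfold MCL.Cell.m; omega)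
    have h2 : D.A.getD 0 1 ≤ 1 := by
      rcases Nat.eq_zero_or_pos D.A.length with h0 | h0
      · rw [List.length_eq_zero_iff.1 h0]
        simp
      · rw [List.getD_eq_getElem _ _ h0]
        rw [List.getD_eq_getElem _ _ h0] at e6
        rw [e6]
        have h3 : D.rho.getD D.n 1 ≤ D.rho.getD 0 1 := by
          rcases Nat.eq_zero_or_pos D.rho.length with h4 | h4
          · rw [List.length_eq_zero_iff.1 h4]
            simp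
          · exact decOk_le g4 _ (by unfold MCL.Cell.n; omega)
        refine h3.trans ?_
        rcases Nat.eq_zero_or_pos D.rho.length with h4 | h4
        · rw [List.length_eq_zero_iff.1 h4]
          simp
        · rw [List.getD_eq_getElem _ _ h4]
          rw [List.getD_eq_getElem _ _ h4] at e1
          exact e1.le
    exact_mod_cast h1.trans h2

/-- **the core of a cell from its list of pieces** -/
theorem core_ofL {Q : E3 → E3 → E3 → E3 → E3 → ℝ} {ψ : ℝ → ℝ} (HQ : MCQ Q ψ) {D : MCL.Cell}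
    {Ee cr : ℝ} {L : List MCL.Pce} {PR : ℝ → ℝ → Prop} (hPR : ∀ y₀ b₀, PR y₀ b₀ → RingQ Q cr y₀ b₀)
    (hV : ∀ p ∈ L, PieceV Q Ee D.cl D.cu D.Xc (MCL.fr D.A D.m) p.pc)
    (hK : ∀ p ∈ L, PieceK Q Ee D.cl D.cu D.Xc D.ks (MCL.fr D.A D.m) D.bb p.pc) :
    CoreCellR Ee D.cl D.cu D.Xc D.ks (MCL.fr D.A D.m) D.bb PR cr
      (fun p : {p : MCL.Pce // p ∈ L} => p.1.pc) := by
  have : Finite {p : MCL.Pce // p ∈ L} := L.finite_toSet
  exact coreCellR_of HQ hPR (fun p => hV p.1 p.2) fun p => hK p.1 p.2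

end Pool.Agent.FPX
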