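import Mathlib
import Pool.Agent.FPX.CEY
import Pool.Agent.FPX.BRG

/-
CSB (helper15): a priori bounds of the terms of the class `CZ` in terms of bounds of the moments (Bessel's inequality
for the four harmonics `E, conj E, E^n, conj E^n`).
-/

open MeasureTheory Set Filter Topology Complex
open scoped ComplexConjugate

noncomputable section

set_option linter.unusedSectionVars false

namespace Pool.Agent.FPX.CSB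

open Pool.Agent.FPX.BTG (Sta Cls mo aK bK dev)
open Pool.Agent.FPX.BTI (nI reb)
open Pool.Agent.FPX.CRD (Bm)
open Pool.Agent.FPX.BRG (bessel_gen cj)
open Pool.Agent.FPX.BV

variable {X : Type} [MeasurableSpace X]

/-- a state with bounds of the moments -/
structure Fz (ν : Measure X) (D : X → ℝ) (E : X → ℂ) (y ρ3 ρ5 ρ7 q : ℝ) : Prop extends Sta ν D E where
  en : ∀ n : ℕ, n ≠ 0 → ∫ t, E t ^ n ∂ν = 0
  h3 : ‖∫ t, (D t : ℂ) * E t ^ 3 ∂ν‖ ≤ ρ3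
  h5 : ‖∫ t, (D t : ℂ) * E t ^ 5 ∂ν‖ ≤ ρ5
  h7 : ‖∫ t, (D t : ℂ) * E t ^ 7 ∂ν‖ ≤ ρ7
  hq : ∫ t, D t ^ 2 ∂ν ≤ q
  hy : q ≤ y ^ 2
  y0 : 0 < y
  hs : 3 / 2 * ρ3 < 1

variable {ν : Measure X} {D : X → ℝ} {E : X → ℂ} {y ρ3 ρ5 ρ7 q : ℝ}

section

variable (H : Fz ν D E y ρ3 ρ5 ρ7 q)

include H

theorem Fz.bE : Bm E := ⟨H.mE, 1, fun t => (H.hE t).le⟩

theorem Fz.bn (n : ℕ) : Bm fun t => E t ^ n :=
  ⟨H.mE.pow_const n, 1, fun t => by rw [norm_pow, H.hE, one_pow]⟩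

theorem Fz.bD : Bm fun t => (D t : ℂ) :=
  ⟨Complex.measurable_ofReal.comp H.mD, 1, fun t => by rw [Complex.norm_real]; exact H.hD t⟩

theorem Fz.nE (t : X) : E t * conj (E t) = 1 := by
  rw [Complex.mul_conj, Complex.normSq_eq_norm_sq, H.hE]
  norm_num

theorem Fz.cje {n : ℕ} (hn : n ≠ 0) : ∫ t, conj (E t ^ n) ∂ν = 0 := by
  rw [cj, H.en n hn, map_zero]

theorem Fz.bessel (k : ℕ) {g : X → ℂ} (bg : Bm g) :
    ‖∫ t, g t * conj (E t) ∂ν‖ ^ 2 + ‖∫ t, g t * E t ∂ν‖ ^ 2 + ‖∫ t, g t * conj (E t ^ (k + 2)) ∂ν‖ ^ 2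
      + ‖∫ t, g t * E t ^ (k + 2) ∂ν‖ ^ 2 ≤ ∫ t, ‖g t‖ ^ 2 ∂ν := by
  have := H.pr
  have one : ∫ _t : X, (1 : ℂ) ∂ν = 1 := by simp
  have e2 := H.en 2 (by norm_num)
  have e1 := H.en (k + 1) (by omega)
  have e3 := H.en (k + 3) (by omega)
  have e4 := H.en (2 * k + 4) (by omega)
  have f2 := H.cje (n := 2) (by norm_num)
  have f1 := H.cje (n := k + 1) (by omega)
  have f3 := H.cje (n := k + 3) (by omega)
  have f4 := H.cje (n := 2 * k + 4) (by omega)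
  have cg : ∀ {φ ψ : X → ℂ} {w : ℂ}, (∀ t, φ t = ψ t) → ∫ t, ψ t ∂ν = w → ∫ t, φ t ∂ν = w := by
    intro φ ψ w h1 h2
    rw [← h2]
    exact integral_congr_ae (Eventually.of_forall h1)
  have B := bessel_gen (ν := ν) (e := ![fun t => E t, fun t => conj (E t), fun t => E t ^ (k + 2),
    fun t => conj (E t ^ (k + 2))]) (by
      intro i
      fin_cases i
      · exact H.bE
      · exact H.bE.conj
      · exact H.bn (k + 2)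
      · exact (H.bn (k + 2)).conj) bg (by
      intro i j
      fin_cases i <;> fin_cases j <;> simp only [Fin.zero_eta, Fin.mk_one, Fin.reduceFinMk, Matrix.cons_val,
        Matrix.cons_val_zero, Matrix.cons_val_one, map_pow, Complex.conj_conj, Fin.reduceEq, if_true, if_false]
      · exact cg (fun t => H.nE t) one
      · exact cg (ψ := fun t => E t ^ 2) (fun t => by ring) e2
      · exact cg (ψ := fun t => conj (E t ^ (k + 1))) (fun t => by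
          rw [map_pow]; linear_combination (conj (E t) ^ (k + 1)) * H.nE t) f1
      · exact cg (ψ := fun t => E t ^ (k + 3)) (fun t => by ring) e3
      · exact cg (ψ := fun t => conj (E t ^ 2)) (fun t => by rw [map_pow]; ring) f2
      · exact cg (ψ := fun _ => 1) (fun t => by linear_combination H.nE t) one
      · exact cg (ψ := fun t => conj (E t ^ (k + 3))) (fun t => by rw [map_pow]; ring) f3
      · exact cg (ψ := fun t => E t ^ (k + 1)) (fun t => by linear_combination (E t ^ (k + 1)) * H.nE t) e1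
      · exact cg (ψ := fun t => E t ^ (k + 1)) (fun t => by linear_combination (E t ^ (k + 1)) * H.nE t) e1
      · exact cg (ψ := fun t => E t ^ (k + 3)) (fun t => by ring) e3
      · exact cg (ψ := fun _ => 1) (fun t => by rw [← mul_pow, H.nE t, one_pow]) one
      · exact cg (ψ := fun t => E t ^ (2 * k + 4)) (fun t => by ring) e4
      · exact cg (ψ := fun t => conj (E t ^ (k + 3))) (fun t => by rw [map_pow]; ring) f3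
      · exact cg (ψ := fun t => conj (E t ^ (k + 1))) (fun t => by
          rw [map_pow]; linear_combination (conj (E t) ^ (k + 1)) * H.nE t) f1
      · exact cg (ψ := fun t => conj (E t ^ (2 * k + 4))) (fun t => by rw [map_pow]; ring) f4
      · exact cg (ψ := fun _ => 1) (fun t => by
          rw [mul_comm, ← mul_pow, H.nE t, one_pow]) one)
  simp only [Fin.sum_univ_four, Matrix.cons_val_zero, Matrix.cons_val_one, Matrix.cons_val, Complex.conj_conj]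
    at B
  exact B

/-- Bessel's inequality for `|K| ≤ 1` -/
theorem Fz.bes {K : X → ℂ} (hK : Measurable K) (hK1 : ∀ t, ‖K t‖ ≤ 1) (k : ℕ) :
    ‖∫ t, E t * conj (K t) ∂ν‖ ^ 2 + ‖∫ t, E t * K t ∂ν‖ ^ 2 + (‖∫ t, E t ^ (k + 2) * K t ∂ν‖ ^ 2
      + ‖∫ t, E t ^ (k + 2) * conj (K t) ∂ν‖ ^ 2) ≤ 1 := by
  have := H.pr
  have bK : Bm K := ⟨hK, 1, hK1⟩
  have h := H.bessel k bK
  have e1 : ‖∫ t, K t * conj (E t) ∂ν‖ = ‖∫ t, E t * conj (K t) ∂ν‖ := by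
    rw [← Complex.norm_conj, ← cj]
    congr 2
    funext t
    rw [map_mul, Complex.conj_conj, mul_comm]
  have e2 : ‖∫ t, K t * conj (E t ^ (k + 2)) ∂ν‖ = ‖∫ t, E t ^ (k + 2) * conj (K t) ∂ν‖ := by
    rw [← Complex.norm_conj, ← cj]
    congr 2
    funext t
    rw [map_mul, Complex.conj_conj, mul_comm]
  have e3 : ∫ t, K t * E t ∂ν = ∫ t, E t * K t ∂ν := by
    congr 1
    funext t
    ring
  have e4 : ∫ t, K t * E t ^ (k + 2) ∂ν = ∫ t, E t ^ (k + 2) * K t ∂ν := by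
    congr 1
    funext t
    ring
  rw [e1, e2, e3, e4] at h
  have h1 : ∫ t, ‖K t‖ ^ 2 ∂ν ≤ 1 := by
    have : ∫ t, ‖K t‖ ^ 2 ∂ν ≤ ∫ _t, (1 : ℝ) ∂ν := by
      refine integral_mono_of_nonneg (Eventually.of_forall fun _ => by positivity) (integrable_const _)
        (Eventually.of_forall fun t => ?_)
      exact pow_le_one₀ (norm_nonneg _) (hK1 t)
    simpa using this
  linarith

theorem Fz.q0 : 0 ≤ ∫ t, D t ^ 2 ∂ν := integral_nonneg fun t => sq_nonneg _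

/-- `mean |x| ≤ y` -/
theorem Fz.my : ∫ t, |D t| ∂ν ≤ y := by
  have := H.pr
  have hy := H.y0
  have iD : Integrable (fun t => D t ^ 2) ν := by
    refine Integrable.of_bound (H.mD.pow_const 2).aestronglyMeasurable 1 (Eventually.of_forall fun t => ?_)
    rw [Real.norm_eq_abs, abs_pow]
    exact pow_le_one₀ (abs_nonneg _) (H.hD t)
  have i1 : Integrable (fun t => D t ^ 2 * (1 / (2 * y)) + y / 2) ν := (iD.mul_const _).add (integrable_const _)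
  have h : ∫ t, |D t| ∂ν ≤ ∫ t, (D t ^ 2 * (1 / (2 * y)) + y / 2) ∂ν := by
    refine integral_mono_of_nonneg (Eventually.of_forall fun t => abs_nonneg _) i1
      (Eventually.of_forall fun t => ?_)
    show |D t| ≤ D t ^ 2 * (1 / (2 * y)) + y / 2
    have e : D t ^ 2 * (1 / (2 * y)) + y / 2 - |D t| = (|D t| - y) ^ 2 / (2 * y) := by
      rw [← sq_abs (D t)]
      field_simp
      ring
    have : 0 ≤ (|D t| - y) ^ 2 / (2 * y) := by positivity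
    linarith
  refine h.trans ?_
  rw [integral_add (iD.mul_const _) (integrable_const _), integral_mul_const]
  simp only [integral_const, probReal_univ, smul_eq_mul, one_mul]
  have h2 := H.hq.trans H.hy
  have : (∫ t, D t ^ 2 ∂ν) * (1 / (2 * y)) ≤ y ^ 2 * (1 / (2 * y)) :=
    mul_le_mul_of_nonneg_right h2 (by positivity)
  have e : y ^ 2 * (1 / (2 * y)) = y / 2 := by
    field_simp
  linarith

/-- the integrals of functions bounded by `|x|` -/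
theorem Fz.nx {φ : X → ℂ} (h : ∀ t, ‖φ t‖ ≤ |D t|) : ‖∫ t, φ t ∂ν‖ ≤ y := by
  have := H.pr
  have iD : Integrable (fun t => |D t|) ν := by
    refine Integrable.of_bound H.mD.abs.aestronglyMeasurable 1 (Eventually.of_forall fun t => ?_)
    rw [Real.norm_eq_abs, abs_abs]
    exact H.hD t
  refine (norm_integral_le_integral_norm _).trans (le_trans ?_ H.my)
  exact integral_mono_of_nonneg (Eventually.of_forall fun t => norm_nonneg _) iD (Eventually.of_forall h)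

/-- the integrals of functions bounded by `x²` -/
theorem Fz.nq {φ : X → ℂ} (h : ∀ t, ‖φ t‖ ≤ D t ^ 2) : ‖∫ t, φ t ∂ν‖ ≤ q := by
  have := H.pr
  have iD : Integrable (fun t => D t ^ 2) ν := by
    refine Integrable.of_bound (H.mD.pow_const 2).aestronglyMeasurable 1 (Eventually.of_forall fun t => ?_)
    rw [Real.norm_eq_abs, abs_pow]
    exact pow_le_one₀ (abs_nonneg _) (H.hD t)
  refine (norm_integral_le_integral_norm _).trans (le_trans ?_ H.hq)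
  exact integral_mono_of_nonneg (Eventually.of_forall fun t => norm_nonneg _) iD (Eventually.of_forall h)

end

/-! ### the two equations -/

/-- the norms of `A`, `B` from the two equations -/
theorem zz {A B a b σ : ℂ} {s : ℝ} (hs1 : s < 1) (hσ : ‖σ‖ ≤ s) (hA : A - σ * conj B = a) (hB : B - σ * conj A = b) :
    ‖A‖ ^ 2 + ‖B‖ ^ 2 ≤ (1 / (1 - s)) ^ 2 * (‖a‖ ^ 2 + ‖b‖ ^ 2) := by
  have n1 : ‖A‖ ≤ ‖a‖ + s * ‖B‖ := by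
    have e : A = a + σ * conj B := by rw [← hA]; ring
    calc ‖A‖ = ‖a + σ * conj B‖ := by rw [← e]
      _ ≤ ‖a‖ + ‖σ * conj B‖ := norm_add_le _ _
      _ ≤ ‖a‖ + s * ‖B‖ := by
        rw [norm_mul, Complex.norm_conj]
        gcongr
  have n2 : ‖B‖ ≤ ‖b‖ + s * ‖A‖ := by
    have e : B = b + σ * conj A := by rw [← hB]; ring
    calc ‖B‖ = ‖b + σ * conj A‖ := by rw [← e]
      _ ≤ ‖b‖ + ‖σ * conj A‖ := norm_add_le _ _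
      _ ≤ ‖b‖ + s * ‖A‖ := by
        rw [norm_mul, Complex.norm_conj]
        gcongr
  have hs0 : 0 ≤ s := (norm_nonneg _).trans hσ
  have a0 := norm_nonneg A
  have b0 := norm_nonneg B
  have a1 := norm_nonneg a
  have b1 := norm_nonneg b
  generalize ‖A‖ = x at *
  generalize ‖B‖ = z at *
  generalize ‖a‖ = u at *
  generalize ‖b‖ = v at *
  have h1 : (1 - s) * (x ^ 2 + z ^ 2) ≤ x * u + z * v := by
    nlinarith [mul_le_mul_of_nonneg_left n1 a0, mul_le_mul_of_nonneg_left n2 b0, sq_nonneg (x - z),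
      mul_nonneg hs0 (sq_nonneg (x - z))]
  have h2 : (x * u + z * v) ^ 2 ≤ (x ^ 2 + z ^ 2) * (u ^ 2 + v ^ 2) := by
    nlinarith [sq_nonneg (x * v - z * u)]
  have hp : 0 < 1 - s := by linarith
  rcases (by positivity : 0 ≤ x ^ 2 + z ^ 2).eq_or_lt with h0 | h0
  · rw [← h0]
    positivity
  · have h3 : ((1 - s) * (x ^ 2 + z ^ 2)) ^ 2 ≤ (x * u + z * v) ^ 2 := pow_le_pow_left₀ (by positivity) h1 2
    have h4 : (1 - s) ^ 2 * (x ^ 2 + z ^ 2) ≤ u ^ 2 + v ^ 2 := by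
      by_contra hcon
      push Not at hcon
      nlinarith [mul_lt_mul_of_pos_left hcon h0]
    rw [div_pow, one_pow, div_mul_eq_mul_div, one_mul, le_div_iff₀ (by positivity)]
    linarith

/-- `|A|, |B|` and a test function -/
theorem kn {α x z u v w : ℝ} (hα : 0 < α) (h1 : x ^ 2 + z ^ 2 ≤ α ^ 2 * w) (h2 : w + (u ^ 2 + v ^ 2) ≤ 1) :
    2 * (x * u + z * v) ≤ α := by
  have h : 2 * (x * u + z * v) * α ≤ α * α := by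
    nlinarith [sq_nonneg (x - α * u), sq_nonneg (z - α * v), mul_le_mul_of_nonneg_left h2 (sq_nonneg α)]
  exact le_of_mul_le_mul_right h hα

/-- the sums `(|A| + |B|) (u + v)` -/
theorem kn2 {α x z u v w : ℝ} (hα : 0 < α) (h1 : x ^ 2 + z ^ 2 ≤ α ^ 2 * w) (h2 : w + (u ^ 2 + v ^ 2) ≤ 1) :
    (x + z) * (u + v) ≤ α := by
  have h : (x + z) * (u + v) * α ≤ α * α := by
    nlinarith [sq_nonneg (x - α * u), sq_nonneg (z - α * v), sq_nonneg (x - α * v), sq_nonneg (z - α * u),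
      mul_le_mul_of_nonneg_left h2 (sq_nonneg α)]
  exact le_of_mul_le_mul_right h hα

/-- the square of `v + c Z` -/
theorem sN {α c v n Z w : ℝ} (hα : 0 < α) (hn : 0 ≤ n) (h : n ≤ v + c * Z) (h1 : Z ^ 2 ≤ α ^ 2 * w)
    (h2 : w + v ^ 2 ≤ 1) : n ^ 2 ≤ 1 + (α * c) ^ 2 := by
  have h3 : n ^ 2 ≤ (v + c * Z) ^ 2 := pow_le_pow_left₀ hn h 2
  have hZ : Z = α * (Z / α) := by field_simp
  set ζ := Z / α with hζ
  have h4 : ζ ^ 2 ≤ w := by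
    rw [hZ, mul_pow] at h1
    exact le_of_mul_le_mul_left h1 (by positivity)
  rw [hZ] at h3
  nlinarith [sq_nonneg (α * c * v - ζ), mul_le_mul_of_nonneg_left h4 (sq_nonneg (α * c)),
    mul_le_mul_of_nonneg_left h2 (sq_nonneg (α * c))]

/-- a rational bound of `√(1 + x²)` -/
theorem sq1 {n x : ℝ} (_hn : 0 ≤ n) (h : n ^ 2 ≤ 1 + x ^ 2) : n ≤ 1 + x ^ 2 / 2 := by
  by_contra hcon
  push Not at hcon
  nlinarith [sq_nonneg x, sq_nonneg (x ^ 2)]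


/-! ### the weights -/

/-- the bound of `|A|`, `|B|` -/
def al (r : ℝ) : ℝ := 1 / (1 - 3 / 2 * r)

/-- the part of `N` with the factor `Z` -/
def g3 (α r3 r5 : ℝ) : ℝ := α * (5 / 2 * r5 + 297 / 140 * r3)

/-- the part of `N₅` with the factor `Z` -/
def g5 (α r3 r5 r7 : ℝ) : ℝ := α * (7 / 2 * r7 + 3 / 2 * r3 + 99 / 28 * r5)

/-- the bound of `S`, `R` -/
def bS (α y r3 q : ℝ) : ℝ := y + α * (q + r3 + 99 / 140 * q)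

/-- the bound of `S₄`, `R₄` -/
def bV (α y r3 r5 q : ℝ) : ℝ := y + α * (2 * q + r5 + r3 + 99 / 70 * q)

/-- **the bounds of the terms** -/
def cR (α y r3 r5 r7 q : ℝ) : Fin 29 → ℝ :=
  ![α ^ 2, q * α ^ 2, q * α ^ 2, 2 * (q + r3) * α ^ 2 + 99 / 35 * α * y, r3 * α ^ 2, 5 * r5 * α ^ 2 + α,
    r3 ^ 2 * α ^ 2, 5 / 2 * r3 * r5 * α ^ 2 + α * r3, 99 / 35 * α * y, 99 / 35 * α * y, α,
    2 * (1 + g3 α r3 r5 ^ 2), r3 ^ 2 * α ^ 2, α * r3 + α ^ 2 * r3 * (5 * r5 + 6 * r3), 2 * α ^ 2,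
    (5 * r5 ^ 2 + 3 * r3 ^ 2) * α ^ 2 + α * (r5 + r3), 7 * r3 * r7 * α ^ 2 + α * (r5 + r3),
    3 * r3 * α ^ 2 + α, 7 * r7 * α ^ 2 + α, r3 * r5 * α ^ 2, r5 * α ^ 2,
    1 / 2 * (7 * r5 * r7 + 3 * r3 * r5) * α ^ 2 + α * r5, r5 ^ 2 * α ^ 2, 2 * (1 + g5 α r3 r5 r7 ^ 2),
    r5 ^ 2 * α ^ 2, α * r5 + α ^ 2 * r5 * (7 * r7 + 3 * r3 + 10 * r5),
    (2 * r3 + q) * α ^ 2 + 99 / 35 * α * y, (3 * q + 2 * r5) * α ^ 2 + 99 / 35 * α * y, q * α ^ 2]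

/-- bounds of the terms of the deviation -/
def PsiLeB {Q : Type} (Ψ : PsiZ Q) (α nN nP nS nV y r3 r5 r7 q : ℝ) (d : Q → ℝ) : Prop :=
  ∀ (m : M10) (A B N M S R G P O U V : ℂ), ‖m 0‖ ≤ r3 → ‖m 1‖ ≤ r5 → ‖m 2‖ ≤ r7 → ‖m 3‖ ≤ q → ‖m 4‖ ≤ q →
    ‖m 5‖ ≤ q → ‖m 6‖ ≤ q → ‖A‖ ≤ α → ‖B‖ ≤ α → ‖N‖ ≤ nN → ‖M‖ ≤ nN → ‖S‖ ≤ nS → ‖R‖ ≤ nS → ‖G‖ ≤ y →
    ‖P‖ ≤ nP → ‖O‖ ≤ nP → ‖U‖ ≤ nV → ‖V‖ ≤ nV → ∀ q, ‖Ψ q m A B N M S R G P O U V‖ ≤ d q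

section

variable {Q : Type} [Fintype Q] {Ψ : PsiZ Q}

/-- the norm of `N`, `M` -/
theorem bN {m : M10} {A B R : ℂ} {r3 r5 v Z : ℝ} (h0 : ‖m 0‖ ≤ r3) (h1 : ‖m 1‖ ≤ r5) (hB : ‖B‖ ≤ Z)
    (hAB : ‖A‖ + ‖B‖ ≤ 99 / 70 * Z) (hR : ‖R‖ ≤ v) :
    ‖R + 5 / 2 * conj B * m 1 - 3 / 2 * (A - conj B) * m 0‖ ≤ v + (5 / 2 * r5 + 297 / 140 * r3) * Z := by
  have n0 := norm_nonneg (m 0)
  have n1 := norm_nonneg (m 1)
  have nB := norm_nonneg B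
  have r30 : 0 ≤ r3 := n0.trans h0
  have r50 : 0 ≤ r5 := n1.trans h1
  have hZ : 0 ≤ Z := nB.trans hB
  have t1 : ‖5 / 2 * conj B * m 1‖ ≤ 5 / 2 * Z * r5 := by
    rw [norm_mul, norm_mul, Complex.norm_conj]
    have : ‖(5 / 2 : ℂ)‖ = 5 / 2 := by norm_num
    rw [this]
    gcongr
  have t2 : ‖3 / 2 * (A - conj B) * m 0‖ ≤ 3 / 2 * (99 / 70 * Z) * r3 := by
    rw [norm_mul, norm_mul]
    have : ‖(3 / 2 : ℂ)‖ = 3 / 2 := by norm_num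
    rw [this]
    have : ‖A - conj B‖ ≤ 99 / 70 * Z := (norm_sub_le _ _).trans (by
      rw [Complex.norm_conj]
      exact hAB)
    gcongr
  have t3 := norm_sub_le (R + 5 / 2 * conj B * m 1) (3 / 2 * (A - conj B) * m 0)
  have t4 := norm_add_le R (5 / 2 * conj B * m 1)
  nlinarith

/-- the norm of `N`, `M`, in terms of `|A|`, `|B|` -/
theorem bN' {m : M10} {A B R : ℂ} {r3 r5 v : ℝ} (h0 : ‖m 0‖ ≤ r3) (h1 : ‖m 1‖ ≤ r5) (hR : ‖R‖ ≤ v) :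
    ‖R + 5 / 2 * conj B * m 1 - 3 / 2 * (A - conj B) * m 0‖ ≤ v + 5 / 2 * r5 * ‖B‖ + 3 / 2 * r3 * (‖A‖ + ‖B‖) := by
  have n0 := norm_nonneg (m 0)
  have n1 := norm_nonneg (m 1)
  have nB := norm_nonneg B
  have nA := norm_nonneg A
  have t1 : ‖5 / 2 * conj B * m 1‖ ≤ 5 / 2 * ‖B‖ * r5 := by
    rw [norm_mul, norm_mul, Complex.norm_conj]
    have : ‖(5 / 2 : ℂ)‖ = 5 / 2 := by norm_num
    rw [this]
    gcongr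
  have t2 : ‖3 / 2 * (A - conj B) * m 0‖ ≤ 3 / 2 * (‖A‖ + ‖B‖) * r3 := by
    rw [norm_mul, norm_mul]
    have : ‖(3 / 2 : ℂ)‖ = 3 / 2 := by norm_num
    rw [this]
    have : ‖A - conj B‖ ≤ ‖A‖ + ‖B‖ := (norm_sub_le _ _).trans (by rw [Complex.norm_conj])
    gcongr
  have t3 := norm_sub_le (R + 5 / 2 * conj B * m 1) (3 / 2 * (A - conj B) * m 0)
  have t4 := norm_add_le R (5 / 2 * conj B * m 1)
  nlinarith

/-- the norm of `N₅`, `M₅` -/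
theorem bP {m : M10} {A B R : ℂ} {r3 r5 r7 v Z : ℝ} (h0 : ‖m 0‖ ≤ r3) (h1 : ‖m 1‖ ≤ r5) (h2 : ‖m 2‖ ≤ r7)
    (hA : ‖A‖ ≤ Z) (hB : ‖B‖ ≤ Z) (hAB : ‖A‖ + ‖B‖ ≤ 99 / 70 * Z) (hR : ‖R‖ ≤ v) :
    ‖R + 7 / 2 * conj B * m 2 - 3 / 2 * A * m 0 - 5 / 2 * (A - conj B) * m 1‖ ≤
      v + (7 / 2 * r7 + 3 / 2 * r3 + 99 / 28 * r5) * Z := by
  have n0 := norm_nonneg (m 0)
  have n1 := norm_nonneg (m 1)
  have n2 := norm_nonneg (m 2)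
  have nB := norm_nonneg B
  have nA := norm_nonneg A
  have hZ : 0 ≤ Z := nB.trans hB
  have t0 : ‖7 / 2 * conj B * m 2‖ ≤ 7 / 2 * Z * r7 := by
    rw [norm_mul, norm_mul, Complex.norm_conj]
    have : ‖(7 / 2 : ℂ)‖ = 7 / 2 := by norm_num
    rw [this]
    gcongr
  have t1 : ‖3 / 2 * A * m 0‖ ≤ 3 / 2 * Z * r3 := by
    rw [norm_mul, norm_mul]
    have : ‖(3 / 2 : ℂ)‖ = 3 / 2 := by norm_num
    rw [this]
    gcongr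
  have t2 : ‖5 / 2 * (A - conj B) * m 1‖ ≤ 5 / 2 * (99 / 70 * Z) * r5 := by
    rw [norm_mul, norm_mul]
    have : ‖(5 / 2 : ℂ)‖ = 5 / 2 := by norm_num
    rw [this]
    have : ‖A - conj B‖ ≤ 99 / 70 * Z := (norm_sub_le _ _).trans (by
      rw [Complex.norm_conj]
      exact hAB)
    gcongr
  have t3 := norm_sub_le (R + 7 / 2 * conj B * m 2 - 3 / 2 * A * m 0) (5 / 2 * (A - conj B) * m 1)
  have t4 := norm_sub_le (R + 7 / 2 * conj B * m 2) (3 / 2 * A * m 0)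
  have t5 := norm_add_le R (7 / 2 * conj B * m 2)
  nlinarith

/-- the norm of `N₅`, `M₅` in terms of `|A|`, `|B|` -/
theorem bP' {m : M10} {A B R : ℂ} {r3 r5 r7 v : ℝ} (h0 : ‖m 0‖ ≤ r3) (h1 : ‖m 1‖ ≤ r5) (h2 : ‖m 2‖ ≤ r7)
    (hR : ‖R‖ ≤ v) : ‖R + 7 / 2 * conj B * m 2 - 3 / 2 * A * m 0 - 5 / 2 * (A - conj B) * m 1‖ ≤
      v + 7 / 2 * r7 * ‖B‖ + 3 / 2 * r3 * ‖A‖ + 5 / 2 * r5 * (‖A‖ + ‖B‖) := by
  have n0 := norm_nonneg (m 0)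
  have n1 := norm_nonneg (m 1)
  have n2 := norm_nonneg (m 2)
  have nB := norm_nonneg B
  have nA := norm_nonneg A
  have t0 : ‖7 / 2 * conj B * m 2‖ ≤ 7 / 2 * ‖B‖ * r7 := by
    rw [norm_mul, norm_mul, Complex.norm_conj]
    have : ‖(7 / 2 : ℂ)‖ = 7 / 2 := by norm_num
    rw [this]
    gcongr
  have t1 : ‖3 / 2 * A * m 0‖ ≤ 3 / 2 * ‖A‖ * r3 := by
    rw [norm_mul, norm_mul]
    have : ‖(3 / 2 : ℂ)‖ = 3 / 2 := by norm_num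
    rw [this]
    gcongr
  have t2 : ‖5 / 2 * (A - conj B) * m 1‖ ≤ 5 / 2 * (‖A‖ + ‖B‖) * r5 := by
    rw [norm_mul, norm_mul]
    have : ‖(5 / 2 : ℂ)‖ = 5 / 2 := by norm_num
    rw [this]
    have : ‖A - conj B‖ ≤ ‖A‖ + ‖B‖ := (norm_sub_le _ _).trans (by rw [Complex.norm_conj])
    gcongr
  have t3 := norm_sub_le (R + 7 / 2 * conj B * m 2 - 3 / 2 * A * m 0) (5 / 2 * (A - conj B) * m 1)
  have t4 := norm_sub_le (R + 7 / 2 * conj B * m 2) (3 / 2 * A * m 0)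
  have t5 := norm_add_le R (7 / 2 * conj B * m 2)
  nlinarith

/-- the norm of `S`, `R` -/
theorem bS' {m : M10} {A B R : ℂ} {r3 q y Z : ℝ} (h0 : ‖m 0‖ ≤ r3) (h4 : ‖m 4‖ ≤ q) (h5 : ‖m 5‖ ≤ q)
    (hB : ‖B‖ ≤ Z) (hAB : ‖A‖ + ‖B‖ ≤ 99 / 70 * Z) (hR : ‖R‖ ≤ y) :
    ‖R + conj B * (m 5 - m 0) - 1 / 2 * (A - conj B) * m 4‖ ≤ y + Z * (q + r3 + 99 / 140 * q) := by
  have nB := norm_nonneg B
  have n4 := norm_nonneg (m 4)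
  have hZ : 0 ≤ Z := nB.trans hB
  have t1 : ‖conj B * (m 5 - m 0)‖ ≤ Z * (q + r3) := by
    rw [norm_mul, Complex.norm_conj]
    have : ‖m 5 - m 0‖ ≤ q + r3 := (norm_sub_le _ _).trans (add_le_add h5 h0)
    exact mul_le_mul hB this (norm_nonneg _) (nB.trans hB)
  have t2 : ‖1 / 2 * (A - conj B) * m 4‖ ≤ 1 / 2 * (99 / 70 * Z) * q := by
    rw [norm_mul, norm_mul]
    have : ‖(1 / 2 : ℂ)‖ = 1 / 2 := by norm_num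
    rw [this]
    have : ‖A - conj B‖ ≤ 99 / 70 * Z := (norm_sub_le _ _).trans (by
      rw [Complex.norm_conj]
      exact hAB)
    gcongr
  have t3 := norm_sub_le (R + conj B * (m 5 - m 0)) (1 / 2 * (A - conj B) * m 4)
  have t4 := norm_add_le R (conj B * (m 5 - m 0))
  nlinarith

/-- the norm of `S₄`, `R₄` -/
theorem bV' {m : M10} {A B R : ℂ} {r3 r5 q y Z : ℝ} (h0 : ‖m 0‖ ≤ r3) (h1 : ‖m 1‖ ≤ r5) (h4 : ‖m 4‖ ≤ q)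
    (h5 : ‖m 5‖ ≤ q) (h6 : ‖m 6‖ ≤ q) (hA : ‖A‖ ≤ Z) (hB : ‖B‖ ≤ Z) (hAB : ‖A‖ + ‖B‖ ≤ 99 / 70 * Z)
    (hR : ‖R‖ ≤ y) :
    ‖R + conj B * (3 / 2 * m 6 - m 1) - A * (m 0 + 1 / 2 * m 4) - (A - conj B) * m 5‖ ≤
      y + Z * (2 * q + r5 + r3 + 99 / 70 * q) := by
  have nB := norm_nonneg B
  have nA := norm_nonneg A
  have n5 := norm_nonneg (m 5)
  have hZ := nB.trans hB
  have e3 : ‖(3 / 2 : ℂ)‖ = 3 / 2 := by norm_num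
  have e1 : ‖(1 / 2 : ℂ)‖ = 1 / 2 := by norm_num
  have t1 : ‖conj B * (3 / 2 * m 6 - m 1)‖ ≤ Z * (3 / 2 * q + r5) := by
    rw [norm_mul, Complex.norm_conj]
    have h : ‖3 / 2 * m 6‖ ≤ 3 / 2 * q := by
      rw [norm_mul, e3]
      gcongr
    have : ‖3 / 2 * m 6 - m 1‖ ≤ 3 / 2 * q + r5 := (norm_sub_le _ _).trans (add_le_add h h1)
    exact mul_le_mul hB this (norm_nonneg _) hZ
  have t2 : ‖A * (m 0 + 1 / 2 * m 4)‖ ≤ Z * (r3 + 1 / 2 * q) := by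
    rw [norm_mul]
    have h : ‖1 / 2 * m 4‖ ≤ 1 / 2 * q := by
      rw [norm_mul, e1]
      gcongr
    have : ‖m 0 + 1 / 2 * m 4‖ ≤ r3 + 1 / 2 * q := (norm_add_le _ _).trans (add_le_add h0 h)
    exact mul_le_mul hA this (norm_nonneg _) hZ
  have t3 : ‖(A - conj B) * m 5‖ ≤ 99 / 70 * Z * q := by
    rw [norm_mul]
    have : ‖A - conj B‖ ≤ 99 / 70 * Z := (norm_sub_le _ _).trans (by
      rw [Complex.norm_conj]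
      exact hAB)
    exact mul_le_mul this h5 (norm_nonneg _) (by positivity)
  have u1 := norm_sub_le (R + conj B * (3 / 2 * m 6 - m 1) - A * (m 0 + 1 / 2 * m 4)) ((A - conj B) * m 5)
  have u2 := norm_sub_le (R + conj B * (3 / 2 * m 6 - m 1)) (A * (m 0 + 1 / 2 * m 4))
  have u3 := norm_add_le R (conj B * (3 / 2 * m 6 - m 1))
  nlinarith

/-- the facts about one `K` -/
structure KB (ν : Measure X) (E : X → ℂ) (α Z w : ℝ) (K : X → ℂ) (A B : ℂ) : Prop where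
  bm : Bm K
  k1 : ∀ t, ‖K t‖ ≤ 1
  α0 : 0 < α
  z0 : 0 ≤ Z
  z2 : Z ^ 2 ≤ α ^ 2 * w
  zα : Z ≤ α
  zA : ‖A‖ ≤ Z
  zB : ‖B‖ ≤ Z
  zAB : ‖A‖ + ‖B‖ ≤ 99 / 70 * Z
  ab2 : (‖A‖ + ‖B‖) ^ 2 ≤ 2 * α ^ 2
  J : ‖A‖ ^ 2 + ‖B‖ ^ 2 ≤ α ^ 2
  b3 : w + (‖∫ t, E t ^ 3 * K t ∂ν‖ ^ 2 + ‖∫ t, E t ^ 3 * conj (K t) ∂ν‖ ^ 2) ≤ 1
  b5 : w + (‖∫ t, E t ^ 5 * K t ∂ν‖ ^ 2 + ‖∫ t, E t ^ 5 * conj (K t) ∂ν‖ ^ 2) ≤ 1
  s3 : (‖A‖ + ‖B‖) * (‖∫ t, E t ^ 3 * K t ∂ν‖ + ‖∫ t, E t ^ 3 * conj (K t) ∂ν‖) ≤ α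
  s5 : (‖A‖ + ‖B‖) * (‖∫ t, E t ^ 5 * K t ∂ν‖ + ‖∫ t, E t ^ 5 * conj (K t) ∂ν‖) ≤ α
  k3 : 2 * (‖A‖ * ‖∫ t, E t ^ 3 * K t ∂ν‖ + ‖B‖ * ‖∫ t, E t ^ 3 * conj (K t) ∂ν‖) ≤ α
  k5 : 2 * (‖A‖ * ‖∫ t, E t ^ 5 * K t ∂ν‖ + ‖B‖ * ‖∫ t, E t ^ 5 * conj (K t) ∂ν‖) ≤ α
  k3' : 2 * (‖A‖ * ‖∫ t, conj (E t) ^ 3 * K t ∂ν‖ + ‖B‖ * ‖∫ t, conj (E t) ^ 3 * conj (K t) ∂ν‖) ≤ α
  k5' : 2 * (‖A‖ * ‖∫ t, conj (E t) ^ 5 * K t ∂ν‖ + ‖B‖ * ‖∫ t, conj (E t) ^ 5 * conj (K t) ∂ν‖) ≤ α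

theorem le2 {a b : ℝ} (hb : 0 ≤ b) (h : a ^ 2 ≤ b ^ 2) : a ≤ b := by
  by_contra hcon
  push Not at hcon
  nlinarith

theorem Fz.kb (H : Fz ν D E y ρ3 ρ5 ρ7 q) {K : X → ℂ} (hK : Measurable K) (hK1 : ∀ t, ‖K t‖ ≤ 1) {A B σ : ℂ}
    (hσ : ‖σ‖ ≤ 3 / 2 * ρ3) (hA : A - σ * conj B = ∫ t, E t * conj (K t) ∂ν)
    (hB : B - σ * conj A = ∫ t, E t * K t ∂ν) {α : ℝ} (hα : al ρ3 ≤ α) : ∃ Z w, KB ν E α Z w K A B := by
  have hz := zz H.hs hσ hA hB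
  have b3 : ‖∫ t, E t * conj (K t) ∂ν‖ ^ 2 + ‖∫ t, E t * K t ∂ν‖ ^ 2 + (‖∫ t, E t ^ 3 * K t ∂ν‖ ^ 2
      + ‖∫ t, E t ^ 3 * conj (K t) ∂ν‖ ^ 2) ≤ 1 := H.bes hK hK1 1
  have b5 : ‖∫ t, E t * conj (K t) ∂ν‖ ^ 2 + ‖∫ t, E t * K t ∂ν‖ ^ 2 + (‖∫ t, E t ^ 5 * K t ∂ν‖ ^ 2
      + ‖∫ t, E t ^ 5 * conj (K t) ∂ν‖ ^ 2) ≤ 1 := H.bes hK hK1 3
  have α1 : 0 < al ρ3 := by
    unfold al
    exact div_pos one_pos (by have := H.hs; linarith)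
  have α0 : 0 < α := α1.trans_le hα
  have hz' : ‖A‖ ^ 2 + ‖B‖ ^ 2 ≤ α ^ 2 * (‖∫ t, E t * conj (K t) ∂ν‖ ^ 2 + ‖∫ t, E t * K t ∂ν‖ ^ 2) := by
    refine hz.trans (mul_le_mul_of_nonneg_right ?_ (by positivity))
    exact pow_le_pow_left₀ α1.le hα 2
  clear hz
  generalize ‖∫ t, E t * conj (K t) ∂ν‖ ^ 2 + ‖∫ t, E t * K t ∂ν‖ ^ 2 = w at *
  have cjK : ∀ n : ℕ, ‖∫ t, conj (E t) ^ n * K t ∂ν‖ = ‖∫ t, E t ^ n * conj (K t) ∂ν‖ := fun n => by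
    rw [← Complex.norm_conj, ← cj]
    congr 2
    funext t
    rw [map_mul, map_pow, Complex.conj_conj]
  have cjK' : ∀ n : ℕ, ‖∫ t, conj (E t) ^ n * conj (K t) ∂ν‖ = ‖∫ t, E t ^ n * K t ∂ν‖ := fun n => by
    rw [← Complex.norm_conj, ← cj]
    congr 2
    funext t
    rw [map_mul, map_pow, Complex.conj_conj, Complex.conj_conj]
  have a0 := norm_nonneg A
  have b0 := norm_nonneg B
  have w1 : w ≤ 1 := by
    have := sq_nonneg ‖∫ t, E t ^ 3 * K t ∂ν‖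
    have := sq_nonneg ‖∫ t, E t ^ 3 * conj (K t) ∂ν‖
    linarith
  have hZw : ‖A‖ ^ 2 + ‖B‖ ^ 2 ≤ α ^ 2 := hz'.trans (by nlinarith [sq_nonneg α])
  have hZ2 : Real.sqrt (‖A‖ ^ 2 + ‖B‖ ^ 2) ^ 2 = ‖A‖ ^ 2 + ‖B‖ ^ 2 := Real.sq_sqrt (by positivity)
  have hZ0 : 0 ≤ Real.sqrt (‖A‖ ^ 2 + ‖B‖ ^ 2) := Real.sqrt_nonneg _
  refine ⟨Real.sqrt (‖A‖ ^ 2 + ‖B‖ ^ 2), w, ?_⟩
  generalize Real.sqrt (‖A‖ ^ 2 + ‖B‖ ^ 2) = Z at *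
  exact
    { bm := ⟨hK, 1, hK1⟩
      k1 := hK1
      α0 := α0
      z0 := hZ0
      z2 := by rw [hZ2]; exact hz'
      zα := le2 α0.le (by rw [hZ2]; exact hZw)
      zA := le2 hZ0 (by rw [hZ2]; nlinarith)
      zB := le2 hZ0 (by rw [hZ2]; nlinarith)
      zAB := le2 (by positivity) (by nlinarith [sq_nonneg (‖A‖ - ‖B‖)])
      ab2 := by nlinarith [sq_nonneg (‖A‖ - ‖B‖)]
      J := hZw
      b3 := b3
      b5 := b5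
      s3 := kn2 α0 hz' b3
      s5 := kn2 α0 hz' b5
      k3 := kn α0 hz' b3
      k5 := kn α0 hz' b5
      k3' := by
        rw [cjK, cjK']
        exact kn α0 hz' (by linarith)
      k5' := by
        rw [cjK, cjK']
        exact kn α0 hz' (by linarith) }

namespace KB

variable {α Z w : ℝ} {K : X → ℂ} {A B : ℂ} (k : KB ν E α Z w K A B)

include k

theorem abα : ‖A‖ + ‖B‖ ≤ 99 / 70 * α := k.zAB.trans (by have := k.zα; linarith)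

/-- the kernels with `x` -/
theorem kD (H : Fz ν D E y ρ3 ρ5 ρ7 q) {κ : X → ℂ} (hκ : ∀ t, ‖κ t‖ = |D t|) :
    2 * (‖A‖ * ‖∫ t, κ t * K t ∂ν‖ + ‖B‖ * ‖∫ t, κ t * conj (K t) ∂ν‖) ≤ 99 / 35 * α * y := by
  have y0 := H.y0
  have hAB := k.abα
  have e1 : ‖∫ t, κ t * K t ∂ν‖ ≤ y := H.nx fun t => by
    rw [norm_mul, hκ]
    exact mul_le_of_le_one_right (abs_nonneg _) (k.k1 t)
  have e2 : ‖∫ t, κ t * conj (K t) ∂ν‖ ≤ y := H.nx fun t => by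
    rw [norm_mul, hκ, Complex.norm_conj]
    exact mul_le_of_le_one_right (abs_nonneg _) (k.k1 t)
  calc 2 * (‖A‖ * ‖∫ t, κ t * K t ∂ν‖ + ‖B‖ * ‖∫ t, κ t * conj (K t) ∂ν‖) ≤ 2 * (‖A‖ * y + ‖B‖ * y) := by
        gcongr
    _ = 2 * y * (‖A‖ + ‖B‖) := by ring
    _ ≤ 2 * y * (99 / 70 * α) := by gcongr
    _ = 99 / 35 * α * y := by ring

/-- combinations of two kernels -/
theorem comb [IsProbabilityMeasure ν] {c1 c2 : ℂ} {φ1 φ2 : X → ℂ} {e1 e2 : ℝ} (h1 : Bm φ1) (h2 : Bm φ2)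
    (l1 : 2 * (‖A‖ * ‖∫ t, φ1 t * K t ∂ν‖ + ‖B‖ * ‖∫ t, φ1 t * conj (K t) ∂ν‖) ≤ α)
    (l2 : 2 * (‖A‖ * ‖∫ t, φ2 t * K t ∂ν‖ + ‖B‖ * ‖∫ t, φ2 t * conj (K t) ∂ν‖) ≤ α) (n1 : ‖c1‖ ≤ e1)
    (n2 : ‖c2‖ ≤ e2) :
    2 * (‖A‖ * ‖∫ t, (c1 * φ1 t + c2 * φ2 t) * K t ∂ν‖ + ‖B‖ * ‖∫ t, (c1 * φ1 t + c2 * φ2 t) * conj (K t) ∂ν‖)
        ≤ α * (e1 + e2) := by
  have α0 := k.α0
  have key : ∀ L : X → ℂ, Bm L → ‖∫ t, (c1 * φ1 t + c2 * φ2 t) * L t ∂ν‖ ≤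
      ‖c1‖ * ‖∫ t, φ1 t * L t ∂ν‖ + ‖c2‖ * ‖∫ t, φ2 t * L t ∂ν‖ := by
    intro L hL
    have e : ∀ t, (c1 * φ1 t + c2 * φ2 t) * L t = c1 * (φ1 t * L t) + c2 * (φ2 t * L t) := fun t => by ring
    simp only [e]
    rw [integral_add ((h1.mul hL).int.const_mul _) ((h2.mul hL).int.const_mul _), integral_const_mul,
      integral_const_mul]
    refine (norm_add_le _ _).trans (le_of_eq ?_)
    rw [norm_mul, norm_mul]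
  have j1 := key K k.bm
  have j2 := key (fun t => conj (K t)) k.bm.conj
  have a0 := norm_nonneg A
  have b0 := norm_nonneg B
  calc _ ≤ 2 * (‖A‖ * (‖c1‖ * ‖∫ t, φ1 t * K t ∂ν‖ + ‖c2‖ * ‖∫ t, φ2 t * K t ∂ν‖)
        + ‖B‖ * (‖c1‖ * ‖∫ t, φ1 t * conj (K t) ∂ν‖ + ‖c2‖ * ‖∫ t, φ2 t * conj (K t) ∂ν‖)) := by
        gcongr
    _ = ‖c1‖ * (2 * (‖A‖ * ‖∫ t, φ1 t * K t ∂ν‖ + ‖B‖ * ‖∫ t, φ1 t * conj (K t) ∂ν‖))
        + ‖c2‖ * (2 * (‖A‖ * ‖∫ t, φ2 t * K t ∂ν‖ + ‖B‖ * ‖∫ t, φ2 t * conj (K t) ∂ν‖)) := by ring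
    _ ≤ ‖c1‖ * α + ‖c2‖ * α := by gcongr
    _ ≤ e1 * α + e2 * α := by gcongr
    _ = α * (e1 + e2) := by ring

/-- `k J` -/
theorem mJ {x c : ℝ} (h : |x| ≤ c) : |x * (‖A‖ ^ 2 - ‖B‖ ^ 2)| ≤ c * α ^ 2 := by
  have hJ : |‖A‖ ^ 2 - ‖B‖ ^ 2| ≤ α ^ 2 := by
    have h1 := k.J
    have h2 := sq_nonneg ‖A‖
    have h3 := sq_nonneg ‖B‖
    rw [abs_le]
    constructor <;> linarith
  rw [abs_mul]
  exact mul_le_mul h hJ (abs_nonneg _) ((abs_nonneg _).trans h)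

/-- a term with a kernel -/
theorem ph {θ a b c : ℝ} {κ : X → ℂ} (hθ : |θ| ≤ a)
    (h : 2 * (‖A‖ * ‖∫ t, κ t * K t ∂ν‖ + ‖B‖ * ‖∫ t, κ t * conj (K t) ∂ν‖) ≤ b) (hc : a + b ≤ c) :
    |θ + 2 * (A * ∫ t, κ t * K t ∂ν).re - 2 * (B * ∫ t, κ t * conj (K t) ∂ν).re| ≤ c := by
  have e1 := Complex.abs_re_le_norm (A * ∫ t, κ t * K t ∂ν)
  have e2 := Complex.abs_re_le_norm (B * ∫ t, κ t * conj (K t) ∂ν)
  rw [norm_mul] at e1 e2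
  rw [abs_le] at *
  constructor <;> linarith [e1.1, e1.2, e2.1, e2.2, hθ.1, hθ.2]

/-- a term without kernel -/
theorem th {θ c : ℝ} (h : |θ| ≤ c) :
    |θ + 2 * (A * ∫ t, (0 : ℂ) * K t ∂ν).re - 2 * (B * ∫ t, (0 : ℂ) * conj (K t) ∂ν).re| ≤ c := by
  have z0 : (2 * (A * ∫ t, (0 : ℂ) * K t ∂ν).re - 2 * (B * ∫ t, (0 : ℂ) * conj (K t) ∂ν).re) = 0 := by
    simp
  rw [add_sub_assoc, z0, add_zero]
  exact h

/-- `N`, `M` -/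
theorem nm {m : M10} {r3 r5 : ℝ} (h0 : ‖m 0‖ ≤ r3) (h1 : ‖m 1‖ ≤ r5) :
    ‖n9 m A B (∫ t, E t ^ 3 * conj (K t) ∂ν)‖ ^ 2 ≤ 1 + g3 α r3 r5 ^ 2 ∧
      ‖m9 m A B (∫ t, E t ^ 3 * K t ∂ν)‖ ^ 2 ≤ 1 + g3 α r3 r5 ^ 2 := by
  have b3 := k.b3
  have s1 := sq_nonneg ‖∫ t, E t ^ 3 * K t ∂ν‖
  have s2 := sq_nonneg ‖∫ t, E t ^ 3 * conj (K t) ∂ν‖
  have hBA : ‖B‖ + ‖A‖ ≤ 99 / 70 * Z := by have := k.zAB; linarith
  exact ⟨sN k.α0 (norm_nonneg _) (bN h0 h1 k.zB k.zAB le_rfl) k.z2 (by linarith),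
    sN k.α0 (norm_nonneg _) (bN h0 h1 k.zA hBA le_rfl) k.z2 (by linarith)⟩

/-- `N₅`, `M₅` -/
theorem nm5 {m : M10} {r3 r5 r7 : ℝ} (h0 : ‖m 0‖ ≤ r3) (h1 : ‖m 1‖ ≤ r5) (h2 : ‖m 2‖ ≤ r7) :
    ‖n5 m A B (∫ t, E t ^ 5 * conj (K t) ∂ν)‖ ^ 2 ≤ 1 + g5 α r3 r5 r7 ^ 2 ∧
      ‖BV.m5 m A B (∫ t, E t ^ 5 * K t ∂ν)‖ ^ 2 ≤ 1 + g5 α r3 r5 r7 ^ 2 := by
  have b5 := k.b5
  have s1 := sq_nonneg ‖∫ t, E t ^ 5 * K t ∂ν‖
  have s2 := sq_nonneg ‖∫ t, E t ^ 5 * conj (K t) ∂ν‖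
  have hBA : ‖B‖ + ‖A‖ ≤ 99 / 70 * Z := by have := k.zAB; linarith
  exact ⟨sN k.α0 (norm_nonneg _) (bP h0 h1 h2 k.zA k.zB k.zAB le_rfl) k.z2 (by linarith),
    sN k.α0 (norm_nonneg _) (bP h0 h1 h2 k.zB k.zA hBA le_rfl) k.z2 (by linarith)⟩

/-- the term with `r₃ conj N` -/
theorem rn {m : M10} {r3 r5 : ℝ} (h0 : ‖m 0‖ ≤ r3) (h1 : ‖m 1‖ ≤ r5) :
    ‖(A + conj B) * (m 0 * conj (n9 m A B (∫ t, E t ^ 3 * conj (K t) ∂ν))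
      - conj (m 0) * m9 m A B (∫ t, E t ^ 3 * K t ∂ν))‖ ≤ α * r3 + α ^ 2 * r3 * (5 * r5 + 6 * r3) := by
  have n1 := bN' (A := A) (B := B) h0 h1 (le_refl ‖∫ t, E t ^ 3 * conj (K t) ∂ν‖)
  have n2 := bN' (A := B) (B := A) h0 h1 (le_refl ‖∫ t, E t ^ 3 * K t ∂ν‖)
  change ‖n9 m A B (∫ t, E t ^ 3 * conj (K t) ∂ν)‖ ≤ _ at n1
  change ‖m9 m A B (∫ t, E t ^ 3 * K t ∂ν)‖ ≤ _ at n2
  have s3 := k.s3
  have ab := k.ab2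
  have a0 := norm_nonneg A
  have b0 := norm_nonneg B
  have r30 : 0 ≤ r3 := (norm_nonneg _).trans h0
  have r50 : 0 ≤ r5 := (norm_nonneg _).trans h1
  have e1 : ‖A + conj B‖ ≤ ‖A‖ + ‖B‖ := (norm_add_le _ _).trans (by rw [Complex.norm_conj])
  have e2 : ‖m 0 * conj (n9 m A B (∫ t, E t ^ 3 * conj (K t) ∂ν))
      - conj (m 0) * m9 m A B (∫ t, E t ^ 3 * K t ∂ν)‖ ≤
      r3 * ((‖∫ t, E t ^ 3 * K t ∂ν‖ + ‖∫ t, E t ^ 3 * conj (K t) ∂ν‖) + (5 / 2 * r5 + 3 * r3) * (‖A‖ + ‖B‖)) := by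
    refine (norm_sub_le _ _).trans ?_
    rw [norm_mul, norm_mul, Complex.norm_conj, Complex.norm_conj]
    have j1 := mul_le_mul h0 n1 (norm_nonneg _) r30
    have j2 := mul_le_mul h0 n2 (norm_nonneg _) r30
    refine (add_le_add j1 j2).trans (le_of_eq ?_)
    ring
  rw [norm_mul]
  have u0 := norm_nonneg (∫ t, E t ^ 3 * K t ∂ν)
  have v0 := norm_nonneg (∫ t, E t ^ 3 * conj (K t) ∂ν)
  calc _ ≤ (‖A‖ + ‖B‖) * (r3 * ((‖∫ t, E t ^ 3 * K t ∂ν‖ + ‖∫ t, E t ^ 3 * conj (K t) ∂ν‖)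
        + (5 / 2 * r5 + 3 * r3) * (‖A‖ + ‖B‖))) := mul_le_mul e1 e2 (norm_nonneg _) (by positivity)
    _ = r3 * ((‖A‖ + ‖B‖) * (‖∫ t, E t ^ 3 * K t ∂ν‖ + ‖∫ t, E t ^ 3 * conj (K t) ∂ν‖))
        + r3 * (5 / 2 * r5 + 3 * r3) * (‖A‖ + ‖B‖) ^ 2 := by ring
    _ ≤ r3 * α + r3 * (5 / 2 * r5 + 3 * r3) * (2 * α ^ 2) := by gcongr
    _ = α * r3 + α ^ 2 * r3 * (5 * r5 + 6 * r3) := by ring

/-- the term with `r₅ conj N₅` -/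
theorem rn5 {m : M10} {r3 r5 r7 : ℝ} (h0 : ‖m 0‖ ≤ r3) (h1 : ‖m 1‖ ≤ r5) (h2 : ‖m 2‖ ≤ r7) :
    ‖(A + conj B) * (m 1 * conj (n5 m A B (∫ t, E t ^ 5 * conj (K t) ∂ν))
      - conj (m 1) * BV.m5 m A B (∫ t, E t ^ 5 * K t ∂ν))‖ ≤
      α * r5 + α ^ 2 * r5 * (7 * r7 + 3 * r3 + 10 * r5) := by
  have n1 := bP' (A := A) (B := B) h0 h1 h2 (le_refl ‖∫ t, E t ^ 5 * conj (K t) ∂ν‖)
  have n2 := bP' (A := B) (B := A) h0 h1 h2 (le_refl ‖∫ t, E t ^ 5 * K t ∂ν‖)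
  change ‖n5 m A B (∫ t, E t ^ 5 * conj (K t) ∂ν)‖ ≤ _ at n1
  change ‖BV.m5 m A B (∫ t, E t ^ 5 * K t ∂ν)‖ ≤ _ at n2
  have s5 := k.s5
  have ab := k.ab2
  have a0 := norm_nonneg A
  have b0 := norm_nonneg B
  have r30 : 0 ≤ r3 := (norm_nonneg _).trans h0
  have r50 : 0 ≤ r5 := (norm_nonneg _).trans h1
  have r70 : 0 ≤ r7 := (norm_nonneg _).trans h2
  have e1 : ‖A + conj B‖ ≤ ‖A‖ + ‖B‖ := (norm_add_le _ _).trans (by rw [Complex.norm_conj])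
  have e2 : ‖m 1 * conj (n5 m A B (∫ t, E t ^ 5 * conj (K t) ∂ν))
      - conj (m 1) * BV.m5 m A B (∫ t, E t ^ 5 * K t ∂ν)‖ ≤
      r5 * ((‖∫ t, E t ^ 5 * K t ∂ν‖ + ‖∫ t, E t ^ 5 * conj (K t) ∂ν‖)
        + (7 / 2 * r7 + 3 / 2 * r3 + 5 * r5) * (‖A‖ + ‖B‖)) := by
    refine (norm_sub_le _ _).trans ?_
    rw [norm_mul, norm_mul, Complex.norm_conj, Complex.norm_conj]
    have j1 := mul_le_mul h1 n1 (norm_nonneg _) r50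
    have j2 := mul_le_mul h1 n2 (norm_nonneg _) r50
    refine (add_le_add j1 j2).trans (le_of_eq ?_)
    ring
  rw [norm_mul]
  have u0 := norm_nonneg (∫ t, E t ^ 5 * K t ∂ν)
  have v0 := norm_nonneg (∫ t, E t ^ 5 * conj (K t) ∂ν)
  calc _ ≤ (‖A‖ + ‖B‖) * (r5 * ((‖∫ t, E t ^ 5 * K t ∂ν‖ + ‖∫ t, E t ^ 5 * conj (K t) ∂ν‖)
        + (7 / 2 * r7 + 3 / 2 * r3 + 5 * r5) * (‖A‖ + ‖B‖))) := mul_le_mul e1 e2 (norm_nonneg _) (by positivity)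
    _ = r5 * ((‖A‖ + ‖B‖) * (‖∫ t, E t ^ 5 * K t ∂ν‖ + ‖∫ t, E t ^ 5 * conj (K t) ∂ν‖))
        + r5 * (7 / 2 * r7 + 3 / 2 * r3 + 5 * r5) * (‖A‖ + ‖B‖) ^ 2 := by ring
    _ ≤ r5 * α + r5 * (7 / 2 * r7 + 3 / 2 * r3 + 5 * r5) * (2 * α ^ 2) := by gcongr
    _ = α * r5 + α ^ 2 * r5 * (7 * r7 + 3 * r3 + 10 * r5) := by ring

end KB

/-- the moments -/
structure Mb (m : M10) (r3 r5 r7 q : ℝ) : Prop where
  m0 : ‖m 0‖ ≤ r3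
  m1 : ‖m 1‖ ≤ r5
  m2 : ‖m 2‖ ≤ r7
  m3 : ‖m 3‖ ≤ q
  m4 : ‖m 4‖ ≤ q
  m5 : ‖m 5‖ ≤ q
  m6 : ‖m 6‖ ≤ q

theorem Fz.mb (H : Fz ν D E y ρ3 ρ5 ρ7 q) : Mb (mo (CZ Ψ) ν D E) ρ3 ρ5 ρ7 q := by
  have nD : ∀ t, ‖(D t : ℂ)‖ = |D t| := fun t => Complex.norm_real _
  have nDDE : ∀ (n : ℕ) t, ‖(D t : ℂ) ^ 2 * E t ^ n‖ ≤ D t ^ 2 := fun n t => by
    rw [norm_mul, norm_pow, norm_pow, H.hE, one_pow, mul_one, nD, sq_abs]
  exact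
    { m0 := H.h3
      m1 := H.h5
      m2 := H.h7
      m3 := H.nq (φ := fun t => (D t : ℂ) ^ 2) fun t => by rw [norm_pow, nD, sq_abs]
      m4 := H.nq (φ := fun t => (D t : ℂ) ^ 2 * E t ^ 2) (nDDE 2)
      m5 := H.nq (φ := fun t => (D t : ℂ) ^ 2 * E t ^ 4) (nDDE 4)
      m6 := H.nq (φ := fun t => (D t : ℂ) ^ 2 * E t ^ 6) (nDDE 6) }

theorem abs_c {x y a b : ℝ} (hx : |x| ≤ a) (hy : |y| ≤ b) : |x + y| ≤ a + b ∧ |x - y| ≤ a + b :=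
  ⟨(abs_add_le _ _).trans (add_le_add hx hy), (abs_sub _ _).trans (add_le_add hx hy)⟩

theorem abs_k {k x a : ℝ} (hk : 0 ≤ k) (hx : |x| ≤ a) : |k * x| ≤ k * a := by
  rw [abs_mul, abs_of_nonneg hk]
  exact mul_le_mul_of_nonneg_left hx hk

theorem abs_sq' {z : ℂ} {r : ℝ} (h : ‖z‖ ≤ r) : |‖z‖ ^ 2| ≤ r ^ 2 := by
  rw [abs_of_nonneg (sq_nonneg _)]
  exact pow_le_pow_left₀ (norm_nonneg _) h 2

theorem re_cm {z z' : ℂ} {r r' : ℝ} (h : ‖z‖ ≤ r) (h' : ‖z'‖ ≤ r') : |(conj z * z').re| ≤ r * r' :=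
  reb (by
    rw [norm_mul, Complex.norm_conj]
    exact mul_le_mul h h' (norm_nonneg _) ((norm_nonneg _).trans h))

/-- the terms -/
theorem KB.ph_le (H : Fz ν D E y ρ3 ρ5 ρ7 q) {α Z w : ℝ} {K : X → ℂ} {A B : ℂ} (k : KB ν E α Z w K A B)
    (i : Fin 29) : |BTG.ph (CZ Ψ) ν D E i K A B| ≤ cR α y ρ3 ρ5 ρ7 q i := by
  have := H.pr
  have M := H.mb (Ψ := Ψ)
  have hN := k.nm M.m0 M.m1
  have hN5 := k.nm5 M.m0 M.m1 M.m2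
  have hr := k.rn M.m0 M.m1
  have hr5 := k.rn5 M.m0 M.m1 M.m2
  have hE := H.hE
  have hE' : ∀ t, ‖conj (E t)‖ = 1 := fun t => by rw [Complex.norm_conj, hE]
  have nD : ∀ t, ‖(D t : ℂ)‖ = |D t| := fun t => Complex.norm_real _
  have nDE : ∀ (n : ℕ) t, ‖(D t : ℂ) * E t ^ n‖ = |D t| := fun n t => by
    rw [norm_mul, norm_pow, hE, one_pow, mul_one, nD]
  have nDE' : ∀ (n : ℕ) t, ‖(D t : ℂ) * conj (E t) ^ n‖ = |D t| := fun n t => by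
    rw [norm_mul, norm_pow, hE', one_pow, mul_one, nD]
  have bE : ∀ n : ℕ, Bm fun t => E t ^ n := H.bn
  have bE' : ∀ n : ℕ, Bm fun t => conj (E t) ^ n := fun n => by
    have := (H.bn n).conj
    simpa only [map_pow] using this
  have hA2 : ‖A‖ ≤ α := k.zA.trans k.zα
  have hB2 : ‖B‖ ≤ α := k.zB.trans k.zα
  set m := mo (CZ Ψ) ν D E with hm
  obtain ⟨m0, m1, m2, m3, m4, m5, m6⟩ := M
  have r30 : 0 ≤ ρ3 := (norm_nonneg _).trans m0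
  have r50 : 0 ≤ ρ5 := (norm_nonneg _).trans m1
  have hJ0 : |‖A‖ ^ 2 - ‖B‖ ^ 2| ≤ α ^ 2 := by
    have := k.mJ (x := 1) (c := 1) (by simp)
    simpa using this
  fin_cases i
  · show _ ≤ α ^ 2
    exact k.th hJ0
  · show _ ≤ q * α ^ 2
    exact k.th (k.mJ (reb m4))
  · show _ ≤ q * α ^ 2
    exact k.th (k.mJ (reb m3))
  · show _ ≤ 2 * (q + ρ3) * α ^ 2 + 99 / 35 * α * y
    exact k.ph (k.mJ (abs_k (by norm_num) (abs_c (reb m5) (reb m0)).2)) (k.kD H (nDE 2)) le_rfl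
  · show _ ≤ ρ3 * α ^ 2
    exact k.th (k.mJ (reb m0))
  · show _ ≤ 5 * ρ5 * α ^ 2 + α
    exact k.ph (k.mJ (abs_k (by norm_num) (reb m1))) k.k3 le_rfl
  · show _ ≤ ρ3 ^ 2 * α ^ 2
    exact k.th (k.mJ (abs_sq' m0))
  · show _ ≤ 5 / 2 * ρ3 * ρ5 * α ^ 2 + α * ρ3
    refine k.ph (κ := fun t => (((conj (m 0) * E t ^ 3).re : ℝ) : ℂ))
      (k.mJ (abs_k (by norm_num) (re_cm m0 m1))) (b := α * (1 / 2 * ρ3 + 1 / 2 * ρ3)) ?_ (le_of_eq (by ring))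
    have e : ∀ t, (((conj (m 0) * E t ^ 3).re : ℝ) : ℂ) = 1 / 2 * conj (m 0) * E t ^ 3
        + 1 / 2 * m 0 * conj (E t) ^ 3 := fun t => by
      rw [Complex.re_eq_add_conj]
      simp only [map_mul, map_pow, Complex.conj_conj]
      ring
    simp only [e]
    have n2 : ‖(1 / 2 : ℂ)‖ = 1 / 2 := by norm_num
    exact k.comb (bE 3) (bE' 3) k.k3 k.k3' (by rw [norm_mul, n2, Complex.norm_conj]; gcongr)
      (by rw [norm_mul, n2]; gcongr)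
  · show _ ≤ 99 / 35 * α * y
    exact k.ph (θ := 0) (a := 0) (by simp) (k.kD H (nDE' 2)) (by simp)
  · show _ ≤ 99 / 35 * α * y
    exact k.ph (θ := 0) (a := 0) (by simp) (k.kD H nD) (by simp)
  · show _ ≤ α
    exact k.ph (θ := 0) (a := 0) (by simp) k.k3' (by simp)
  · show _ ≤ 2 * (1 + g3 α ρ3 ρ5 ^ 2)
    refine k.th ?_
    show |2 * (‖n9 m A B (∫ t, E t ^ 3 * conj (K t) ∂ν)‖ ^ 2 - ‖m9 m A B (∫ t, E t ^ 3 * K t ∂ν)‖ ^ 2)| ≤ _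
    refine abs_k (by norm_num) ?_
    obtain ⟨h1, h2⟩ := hN
    have p1 := sq_nonneg ‖n9 m A B (∫ t, E t ^ 3 * conj (K t) ∂ν)‖
    have p2 := sq_nonneg ‖m9 m A B (∫ t, E t ^ 3 * K t ∂ν)‖
    rw [abs_le]
    constructor <;> linarith
  · show _ ≤ ρ3 ^ 2 * α ^ 2
    refine k.th ?_
    show |-(‖m 0‖ ^ 2 * (‖A‖ ^ 2 - ‖B‖ ^ 2))| ≤ _
    rw [abs_neg]
    exact k.mJ (abs_sq' m0)
  · show _ ≤ α * ρ3 + α ^ 2 * ρ3 * (5 * ρ5 + 6 * ρ3)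
    exact k.th (reb hr)
  · show _ ≤ 2 * α ^ 2
    refine k.th ?_
    show |2 * ‖B‖ ^ 2| ≤ _
    exact abs_k (by norm_num) (abs_sq' hB2)
  · show _ ≤ (5 * ρ5 ^ 2 + 3 * ρ3 ^ 2) * α ^ 2 + α * (ρ5 + ρ3)
    refine k.ph (k.mJ (abs_c (abs_k (by norm_num) (abs_sq' m1)) (abs_k (by norm_num) (abs_sq' m0))).2)
      (b := α * (ρ5 + ρ3)) ?_ le_rfl
    exact k.comb (bE 3) (bE' 5) k.k3 k.k5' (by rw [Complex.norm_conj]; exact m1) m0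
  · show _ ≤ 7 * ρ3 * ρ7 * α ^ 2 + α * (ρ5 + ρ3)
    refine k.ph (k.mJ (abs_k (by norm_num) (re_cm m0 m2))) (b := α * (ρ5 + ρ3)) ?_ (le_of_eq (by ring))
    exact k.comb (bE' 3) (bE 5) k.k3' k.k5 m1 (by rw [Complex.norm_conj]; exact m0)
  · show _ ≤ 3 * ρ3 * α ^ 2 + α
    refine k.ph (k.mJ (x := -3 * (m 0).re) (c := 3 * ρ3) ?_) k.k5' le_rfl
    rw [neg_mul, abs_neg]
    exact abs_k (by norm_num) (reb m0)
  · show _ ≤ 7 * ρ7 * α ^ 2 + α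
    exact k.ph (k.mJ (abs_k (by norm_num) (reb m2))) k.k5 le_rfl
  · show _ ≤ ρ3 * ρ5 * α ^ 2
    exact k.th (k.mJ (re_cm m0 m1))
  · show _ ≤ ρ5 * α ^ 2
    exact k.th (k.mJ (reb m1))
  · show _ ≤ 1 / 2 * (7 * ρ5 * ρ7 + 3 * ρ3 * ρ5) * α ^ 2 + α * ρ5
    refine k.ph (κ := fun t => (((conj (m 1) * E t ^ 5).re : ℝ) : ℂ))
      (k.mJ (abs_k (by norm_num) (abs_c (abs_k (by norm_num) (re_cm m1 m2)) (abs_k (by norm_num) (re_cm m0 m1))).2))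
      (b := α * (1 / 2 * ρ5 + 1 / 2 * ρ5)) ?_ (le_of_eq (by ring))
    have e : ∀ t, (((conj (m 1) * E t ^ 5).re : ℝ) : ℂ) = 1 / 2 * conj (m 1) * E t ^ 5
        + 1 / 2 * m 1 * conj (E t) ^ 5 := fun t => by
      rw [Complex.re_eq_add_conj]
      simp only [map_mul, map_pow, Complex.conj_conj]
      ring
    simp only [e]
    have n2 : ‖(1 / 2 : ℂ)‖ = 1 / 2 := by norm_num
    exact k.comb (bE 5) (bE' 5) k.k5 k.k5' (by rw [norm_mul, n2, Complex.norm_conj]; gcongr)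
      (by rw [norm_mul, n2]; gcongr)
  · show _ ≤ ρ5 ^ 2 * α ^ 2
    exact k.th (k.mJ (abs_sq' m1))
  · show _ ≤ 2 * (1 + g5 α ρ3 ρ5 ρ7 ^ 2)
    refine k.th ?_
    show |2 * (‖n5 m A B (∫ t, E t ^ 5 * conj (K t) ∂ν)‖ ^ 2 - ‖BV.m5 m A B (∫ t, E t ^ 5 * K t ∂ν)‖ ^ 2)| ≤ _
    refine abs_k (by norm_num) ?_
    obtain ⟨h1, h2⟩ := hN5
    have p1 := sq_nonneg ‖n5 m A B (∫ t, E t ^ 5 * conj (K t) ∂ν)‖
    have p2 := sq_nonneg ‖BV.m5 m A B (∫ t, E t ^ 5 * K t ∂ν)‖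
    rw [abs_le]
    constructor <;> linarith
  · show _ ≤ ρ5 ^ 2 * α ^ 2
    refine k.th ?_
    show |-(‖m 1‖ ^ 2 * (‖A‖ ^ 2 - ‖B‖ ^ 2))| ≤ _
    rw [abs_neg]
    exact k.mJ (abs_sq' m1)
  · show _ ≤ α * ρ5 + α ^ 2 * ρ5 * (7 * ρ7 + 3 * ρ3 + 10 * ρ5)
    exact k.th (reb hr5)
  · show _ ≤ (2 * ρ3 + q) * α ^ 2 + 99 / 35 * α * y
    refine k.ph (k.mJ (x := -(2 * (m 0).re + (m 4).re)) (c := 2 * ρ3 + q) ?_) (k.kD H (nDE' 4)) le_rfl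
    rw [abs_neg]
    exact (abs_c (abs_k (by norm_num) (reb m0)) (reb m4)).1
  · show _ ≤ (3 * q + 2 * ρ5) * α ^ 2 + 99 / 35 * α * y
    exact k.ph (k.mJ (abs_c (abs_k (by norm_num) (reb m6)) (abs_k (by norm_num) (reb m1))).2) (k.kD H (nDE 4))
      le_rfl
  · show _ ≤ q * α ^ 2
    exact k.th (k.mJ (reb m5))

/-- **a priori bounds of the terms of the class `CZ`** -/
theorem Fz.apr (H : Fz ν D E y ρ3 ρ5 ρ7 q) {α : ℝ} (hα : al ρ3 ≤ α) {d : Q → ℝ}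
    (hΨ : PsiLeB Ψ α (1 + g3 α ρ3 ρ5 ^ 2 / 2) (1 + g5 α ρ3 ρ5 ρ7 ^ 2 / 2) (bS α y ρ3 q)
      (bV α y ρ3 ρ5 q) y ρ3 ρ5 ρ7 q d) :
    CEL.Apr (CZ Ψ) ν D E (cR α y ρ3 ρ5 ρ7 q) d := by
  intro K hK hK1 A B hA hB
  have := H.pr
  have M := H.mb (Ψ := Ψ)
  have hσ : ‖(CZ Ψ).σ (mo (CZ Ψ) ν D E)‖ ≤ 3 / 2 * ρ3 := by
    show ‖3 / 2 * mo (CZ Ψ) ν D E 0‖ ≤ 3 / 2 * ρ3
    rw [norm_mul]
    have : ‖(3 / 2 : ℂ)‖ = 3 / 2 := by norm_num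
    rw [this]
    have := M.m0
    gcongr
  obtain ⟨Z, w, k⟩ := H.kb hK hK1 hσ hA hB hα
  refine ⟨fun i => k.ph_le H i, fun j => ?_⟩
  have hN := k.nm M.m0 M.m1
  have hN5 := k.nm5 M.m0 M.m1 M.m2
  have zα := k.zα
  have hBA : ‖B‖ + ‖A‖ ≤ 99 / 70 * Z := by have := k.zAB; linarith
  have y0 := H.y0
  have nD : ∀ t, ‖(D t : ℂ)‖ = |D t| := fun t => Complex.norm_real _
  have kx : ∀ n : ℕ, ‖∫ t, (D t : ℂ) * E t ^ n * K t ∂ν‖ ≤ y ∧ ‖∫ t, (D t : ℂ) * E t ^ n * conj (K t) ∂ν‖ ≤ y :=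
    fun n => ⟨H.nx fun t => by
      rw [norm_mul, norm_mul, norm_pow, H.hE, one_pow, mul_one, nD]
      exact mul_le_of_le_one_right (abs_nonneg _) (hK1 t), H.nx fun t => by
      rw [norm_mul, norm_mul, norm_pow, H.hE, one_pow, mul_one, nD, Complex.norm_conj]
      exact mul_le_of_le_one_right (abs_nonneg _) (hK1 t)⟩
  have hG : ‖∫ t, (D t : ℂ) * K t ∂ν‖ ≤ y := H.nx fun t => by
    rw [norm_mul, nD]
    exact mul_le_of_le_one_right (abs_nonneg _) (hK1 t)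
  have q0 : 0 ≤ q := H.q0.trans H.hq
  have r30 : 0 ≤ ρ3 := (norm_nonneg _).trans M.m0
  have r50 : 0 ≤ ρ5 := (norm_nonneg _).trans M.m1
  have tS : y + Z * (q + ρ3 + 99 / 140 * q) ≤ bS α y ρ3 q := by
    unfold bS
    gcongr
  have tV : y + Z * (2 * q + ρ5 + ρ3 + 99 / 70 * q) ≤ bV α y ρ3 ρ5 q := by
    unfold bV
    gcongr
  exact hΨ _ A B _ _ _ _ _ _ _ _ _ M.m0 M.m1 M.m2 M.m3 M.m4 M.m5 M.m6 (k.zA.trans zα) (k.zB.trans zα)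
    (sq1 (norm_nonneg _) hN.1) (sq1 (norm_nonneg _) hN.2)
    ((bS' M.m0 M.m4 M.m5 k.zB k.zAB (kx 2).2).trans tS) ((bS' M.m0 M.m4 M.m5 k.zA hBA (kx 2).1).trans tS) hG
    (sq1 (norm_nonneg _) hN5.1) (sq1 (norm_nonneg _) hN5.2)
    ((bV' M.m0 M.m1 M.m4 M.m5 M.m6 k.zA k.zB k.zAB (kx 4).2).trans tV)
    ((bV' M.m0 M.m1 M.m4 M.m5 M.m6 k.zB k.zA hBA (kx 4).1).trans tV) j

end

end Pool.Agent.FPX.CSB
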