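import Mathlib
import Pool.Agent.FPX.LF3A
import Pool.Agent.FPX.LF3B
import Pool.Agent.FPX.LF5A
import Pool.Agent.FPX.LF5B
import Pool.Agent.FPX.OMR

/-
LFR (helper69): the moments `r₃`, `r₅` of the states: `‖r₃‖ ≤ .21359 s`, `‖r₅‖ ≤ .12882 s` for all states, smaller
constants on the classes of `s`; the same for every function of the class `St s`.
-/

open MeasureTheory Set Filter Topology Real
open scoped NNReal

noncomputable section

namespace Pool.Agent.FPX.LF

open Pool.Agent.FPX.ALX (St Xa)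
open Pool.Agent.FPX.UMP (Ef)
open Pool.Agent.FPX.F54 (X1 X2)
open Pool.Agent.FPX.OMR (Re r3 r5 xR eR vR)
open Pool.Agent.FPX.OMS (rF cF)
open Pool.Agent.FPX.OMB (vm)
open Pool.Agent.FPX.CERQ (xT Er)

/-! ### tables -/

/-- a class of `s` and the bound of the ratio -/
structure Cl where
  lo : ℚ
  hi : ℚ
  k : ℚ

/-- the table of `r₃` -/
def T3 : List Cl :=
  [⟨0, 150 / 1000, 21359 / 100000⟩, ⟨150 / 1000, 300 / 1000, 21307 / 100000⟩,
   ⟨300 / 1000, 450 / 1000, 21166 / 100000⟩, ⟨450 / 1000, 600 / 1000, 20968 / 100000⟩,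
   ⟨600 / 1000, 700 / 1000, 20708 / 100000⟩, ⟨700 / 1000, 800 / 1000, 20507 / 100000⟩,
   ⟨800 / 1000, 900 / 1000, 20291 / 100000⟩, ⟨900 / 1000, 1, 20186 / 100000⟩]

/-- the table of `r₅` -/
def T5 : List Cl :=
  [⟨0, 150 / 1000, 12882 / 100000⟩, ⟨150 / 1000, 300 / 1000, 12839 / 100000⟩,
   ⟨300 / 1000, 450 / 1000, 12766 / 100000⟩, ⟨450 / 1000, 600 / 1000, 12623 / 100000⟩,
   ⟨600 / 1000, 700 / 1000, 12459 / 100000⟩, ⟨700 / 1000, 800 / 1000, 12415 / 100000⟩,
   ⟨800 / 1000, 900 / 1000, 12411 / 100000⟩, ⟨900 / 1000, 1, 12329 / 100000⟩]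

/-- bound over all `s ≤ S` -/
def mx : List Cl → ℚ → ℚ
  | [], _ => 0
  | c :: l, S => if S < c.lo then mx l S else max (c.k * min S c.hi) (mx l S)

theorem mx_le : ∀ {l : List Cl} {S : ℚ} {s y : ℝ}, s ≤ S →
    (∃ c ∈ l, (c.lo : ℝ) ≤ s ∧ s ≤ c.hi ∧ (0 : ℝ) ≤ c.k ∧ y ≤ c.k * s) → y ≤ (mx l S : ℚ)
  | [], _, _, _, _, h => by
    obtain ⟨c, hc, _⟩ := h
    simp at hc
  | c :: l, S, s, y, hs, h => by
    obtain ⟨d, hd, h1, h2, h3, h4⟩ := h
    rcases List.mem_cons.1 hd with e | hd
    · subst e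
      have hn : ¬S < d.lo := by
        intro hlt
        have : (S : ℝ) < d.lo := by exact_mod_cast hlt
        linarith
      unfold mx
      rw [if_neg hn]
      have h5 : s ≤ ((min S d.hi : ℚ) : ℝ) := by
        rw [Rat.cast_min]
        exact le_min hs h2
      have h6 : y ≤ ((d.k * min S d.hi : ℚ) : ℝ) := by
        rw [Rat.cast_mul]
        exact h4.trans (mul_le_mul_of_nonneg_left h5 h3)
      refine h6.trans ?_
      exact_mod_cast le_max_left _ _
    · have ih := mx_le (l := l) hs ⟨d, hd, h1, h2, h3, h4⟩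
      unfold mx
      split_ifs
      · exact ih
      · refine ih.trans ?_
        exact_mod_cast le_max_right _ _

/-! ### the classes -/

section

variable {s : ℝ} {X : ℝ → ℝ}

theorem mc3_tab (hX : St s X) (h0 : 0 ≤ s) (h1 : s ≤ 1) :
    ∃ c ∈ T3, (c.lo : ℝ) ≤ s ∧ s ≤ c.hi ∧ (0 : ℝ) ≤ c.k ∧ ‖mC 3 X‖ ≤ c.k * s := by
  unfold T3
  rcases le_total s (150 / 1000) with a1 | a1
  · exact ⟨⟨0, 150 / 1000, 21359 / 100000⟩, by simp, by push_cast; linarith, by push_cast; linarith,
      by push_cast; norm_num, by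
        have := cl3a hX (by push_cast; linarith) (by push_cast; linarith)
        push_cast
        exact this⟩
  rcases le_total s (300 / 1000) with a2 | a2
  · exact ⟨⟨150 / 1000, 300 / 1000, 21307 / 100000⟩, by simp, by push_cast; linarith, by push_cast; linarith,
      by push_cast; norm_num, by
        have := cl3b hX (by push_cast; linarith) (by push_cast; linarith)
        push_cast
        exact this⟩
  rcases le_total s (450 / 1000) with a3 | a3
  · exact ⟨⟨300 / 1000, 450 / 1000, 21166 / 100000⟩, by simp, by push_cast; linarith, by push_cast; linarith,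
      by push_cast; norm_num, by
        have := cl3c hX (by push_cast; linarith) (by push_cast; linarith)
        push_cast
        exact this⟩
  rcases le_total s (600 / 1000) with a4 | a4
  · exact ⟨⟨450 / 1000, 600 / 1000, 20968 / 100000⟩, by simp, by push_cast; linarith, by push_cast; linarith,
      by push_cast; norm_num, by
        have := cl3d hX (by push_cast; linarith) (by push_cast; linarith)
        push_cast
        exact this⟩
  rcases le_total s (700 / 1000) with a5 | a5
  · exact ⟨⟨600 / 1000, 700 / 1000, 20708 / 100000⟩, by simp, by push_cast; linarith, by push_cast; linarith,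
      by push_cast; norm_num, by
        have := cl3e hX (by push_cast; linarith) (by push_cast; linarith)
        push_cast
        exact this⟩
  rcases le_total s (800 / 1000) with a6 | a6
  · exact ⟨⟨700 / 1000, 800 / 1000, 20507 / 100000⟩, by simp, by push_cast; linarith, by push_cast; linarith,
      by push_cast; norm_num, by
        have := cl3f hX (by push_cast; linarith) (by push_cast; linarith)
        push_cast
        exact this⟩
  rcases le_total s (900 / 1000) with a7 | a7
  · exact ⟨⟨800 / 1000, 900 / 1000, 20291 / 100000⟩, by simp, by push_cast; linarith, by push_cast; linarith,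
      by push_cast; norm_num, by
        have := cl3g hX (by push_cast; linarith) (by push_cast; linarith)
        push_cast
        exact this⟩
  · exact ⟨⟨900 / 1000, 1, 20186 / 100000⟩, by simp, by push_cast; linarith, by push_cast; linarith,
      by push_cast; norm_num, by
        have := cl3h hX (by push_cast; linarith) (by push_cast; linarith)
        push_cast
        exact this⟩

theorem mc5_tab (hX : St s X) (h0 : 0 ≤ s) (h1 : s ≤ 1) :
    ∃ c ∈ T5, (c.lo : ℝ) ≤ s ∧ s ≤ c.hi ∧ (0 : ℝ) ≤ c.k ∧ ‖mC 5 X‖ ≤ c.k * s := by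
  unfold T5
  rcases le_total s (150 / 1000) with a1 | a1
  · exact ⟨⟨0, 150 / 1000, 12882 / 100000⟩, by simp, by push_cast; linarith, by push_cast; linarith,
      by push_cast; norm_num, by
        have := cl5a hX (by push_cast; linarith) (by push_cast; linarith)
        push_cast
        exact this⟩
  rcases le_total s (300 / 1000) with a2 | a2
  · exact ⟨⟨150 / 1000, 300 / 1000, 12839 / 100000⟩, by simp, by push_cast; linarith, by push_cast; linarith,
      by push_cast; norm_num, by
        have := cl5b hX (by push_cast; linarith) (by push_cast; linarith)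
        push_cast
        exact this⟩
  rcases le_total s (450 / 1000) with a3 | a3
  · exact ⟨⟨300 / 1000, 450 / 1000, 12766 / 100000⟩, by simp, by push_cast; linarith, by push_cast; linarith,
      by push_cast; norm_num, by
        have := cl5c hX (by push_cast; linarith) (by push_cast; linarith)
        push_cast
        exact this⟩
  rcases le_total s (600 / 1000) with a4 | a4
  · exact ⟨⟨450 / 1000, 600 / 1000, 12623 / 100000⟩, by simp, by push_cast; linarith, by push_cast; linarith,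
      by push_cast; norm_num, by
        have := cl5d hX (by push_cast; linarith) (by push_cast; linarith)
        push_cast
        exact this⟩
  rcases le_total s (700 / 1000) with a5 | a5
  · exact ⟨⟨600 / 1000, 700 / 1000, 12459 / 100000⟩, by simp, by push_cast; linarith, by push_cast; linarith,
      by push_cast; norm_num, by
        have := cl5e hX (by push_cast; linarith) (by push_cast; linarith)
        push_cast
        exact this⟩
  rcases le_total s (800 / 1000) with a6 | a6
  · exact ⟨⟨700 / 1000, 800 / 1000, 12415 / 100000⟩, by simp, by push_cast; linarith, by push_cast; linarith,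
      by push_cast; norm_num, by
        have := cl5f hX (by push_cast; linarith) (by push_cast; linarith)
        push_cast
        exact this⟩
  rcases le_total s (900 / 1000) with a7 | a7
  · exact ⟨⟨800 / 1000, 900 / 1000, 12411 / 100000⟩, by simp, by push_cast; linarith, by push_cast; linarith,
      by push_cast; norm_num, by
        have := cl5g hX (by push_cast; linarith) (by push_cast; linarith)
        push_cast
        exact this⟩
  · exact ⟨⟨900 / 1000, 1, 12329 / 100000⟩, by simp, by push_cast; linarith, by push_cast; linarith,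
      by push_cast; norm_num, by
        have := cl5h hX (by push_cast; linarith) (by push_cast; linarith)
        push_cast
        exact this⟩

/-- **the third harmonic of the class** -/
theorem mc3_le (hX : St s X) (h0 : 0 ≤ s) (h1 : s ≤ 1) : ‖mC 3 X‖ ≤ 21359 / 100000 * s := by
  obtain ⟨c, hc, _, _, _, h⟩ := mc3_tab hX h0 h1
  refine h.trans (mul_le_mul_of_nonneg_right ?_ h0)
  unfold T3 at hc
  simp only [List.mem_cons, List.not_mem_nil, or_false] at hc
  rcases hc with rfl | rfl | rfl | rfl | rfl | rfl | rfl | rfl <;> (push_cast; norm_num)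

/-- **the fifth harmonic of the class** -/
theorem mc5_le (hX : St s X) (h0 : 0 ≤ s) (h1 : s ≤ 1) : ‖mC 5 X‖ ≤ 12882 / 100000 * s := by
  obtain ⟨c, hc, _, _, _, h⟩ := mc5_tab hX h0 h1
  refine h.trans (mul_le_mul_of_nonneg_right ?_ h0)
  unfold T5 at hc
  simp only [List.mem_cons, List.not_mem_nil, or_false] at hc
  rcases hc with rfl | rfl | rfl | rfl | rfl | rfl | rfl | rfl <;> (push_cast; norm_num)

end

/-! ### the states -/

variable {f : ℝ → ℝ}

theorem mom_eq (H : Re f) (n : ℕ) : ∫ t, (xR f t : ℂ) * eR f t ^ n ∂(vR f) = mC n (Xa (X1 f) f) := by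
  have hs := ALY.st H.hf H.h0 H.h2
  have ex : xR f = xT f := by
    funext t
    unfold xR xT
    have : rF f = X1 f ^ 2 := by
      unfold rF
      rw [H.h2]
      ring
    rw [this, Real.sqrt_sq H.h0, H.h2]
  have ee : eR f = Er f := rfl
  have ev : vR f = vm (X1 f) 0 := rfl
  rw [ex, ee, ev, ALY.vm_mean H.hf H.h0 H.h2 (Φ := fun e x => (x : ℂ) * e ^ n) (by fun_prop)]
  have e : ∀ a : ℝ, ((Xa (X1 f) f a : ℝ) : ℂ) * Complex.exp (a * Complex.I) ^ n
      = ((Xa (X1 f) f a * cos (n * a) : ℝ) : ℂ) + ((Xa (X1 f) f a * sin (n * a) : ℝ) : ℂ) * Complex.I := by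
    intro a
    rw [← Complex.exp_nat_mul]
    have : (n : ℂ) * (a * Complex.I) = ((n * a : ℝ) : ℂ) * Complex.I := by
      push_cast
      ring
    rw [this, Complex.exp_mul_I, ← Complex.ofReal_cos, ← Complex.ofReal_sin]
    push_cast
    ring
  simp only [e]
  have i1 : IntervalIntegrable (fun a => ((Xa (X1 f) f a * cos (n * a) : ℝ) : ℂ)) volume 0 (2 * π) :=
    (Complex.continuous_ofReal.comp (hs.cont.mul (by fun_prop))).intervalIntegrable _ _
  have i2 : IntervalIntegrable (fun a => ((Xa (X1 f) f a * sin (n * a) : ℝ) : ℂ) * Complex.I) volume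
      0 (2 * π) := ((Complex.continuous_ofReal.comp (hs.cont.mul (by fun_prop))).mul continuous_const).intervalIntegrable _ _
  rw [intervalIntegral.integral_add i1 i2, intervalIntegral.integral_mul_const, intervalIntegral.integral_ofReal,
    intervalIntegral.integral_ofReal]
  unfold mC QST.mn
  apply Complex.ext
  · simp
  · simp

theorem r3_mC (H : Re f) : r3 f = mC 3 (Xa (X1 f) f) := mom_eq H 3

theorem r5_mC (H : Re f) : r5 f = mC 5 (Xa (X1 f) f) := mom_eq H 5

theorem s_le (H : Re f) : X1 f ≤ 1 := (ALY.s_lt H.hf H.h0 H.h2).le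

/-- **`‖r₃‖ ≤ .21359 s`** -/
theorem r3_le (H : Re f) : ‖r3 f‖ ≤ 21359 / 100000 * X1 f := by
  rw [r3_mC H]
  exact mc3_le (ALY.st H.hf H.h0 H.h2) H.h0 (s_le H)

/-- **`‖r₅‖ ≤ .12882 s`** -/
theorem r5_le (H : Re f) : ‖r5 f‖ ≤ 12882 / 100000 * X1 f := by
  rw [r5_mC H]
  exact mc5_le (ALY.st H.hf H.h0 H.h2) H.h0 (s_le H)

theorem r3_tab (H : Re f) : ∃ c ∈ T3, (c.lo : ℝ) ≤ X1 f ∧ X1 f ≤ c.hi ∧ (0 : ℝ) ≤ c.k ∧ ‖r3 f‖ ≤ c.k * X1 f := by
  rw [r3_mC H]
  exact mc3_tab (ALY.st H.hf H.h0 H.h2) H.h0 (s_le H)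

theorem r5_tab (H : Re f) : ∃ c ∈ T5, (c.lo : ℝ) ≤ X1 f ∧ X1 f ≤ c.hi ∧ (0 : ℝ) ≤ c.k ∧ ‖r5 f‖ ≤ c.k * X1 f := by
  rw [r5_mC H]
  exact mc5_tab (ALY.st H.hf H.h0 H.h2) H.h0 (s_le H)

theorem s_of_c (H : Re f) {a S : ℚ} (ha : (a : ℝ) ≤ cF f) (h0 : 0 ≤ a) (hS : 1 - a ^ 2 ≤ S ^ 2) (hS0 : 0 ≤ S) :
    X1 f ≤ S := by
  have h1 : cF f ^ 2 = 1 - X1 f ^ 2 := by
    have hr : rF f = X1 f ^ 2 := by
      unfold rF
      rw [H.h2]
      ring
    unfold cF
    rw [hr, Real.sq_sqrt]
    have := s_le H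
    nlinarith [H.h0]
  have ha0 : (0 : ℝ) ≤ a := by exact_mod_cast h0
  have hS' : (1 : ℝ) - (a : ℝ) ^ 2 ≤ (S : ℝ) ^ 2 := by exact_mod_cast hS
  have hS0' : (0 : ℝ) ≤ S := by exact_mod_cast hS0
  have h2 : (a : ℝ) ^ 2 ≤ cF f ^ 2 := pow_le_pow_left₀ ha0 ha 2
  exact le_of_sq_le_sq (by linarith) hS0'

/-- **`r₃` on a cell of the latitude** (`cF f ≥ a`) -/
theorem r3_cell (H : Re f) {a S r : ℚ} (ha : (a : ℝ) ≤ cF f) (h0 : 0 ≤ a) (hS : 1 - a ^ 2 ≤ S ^ 2) (hS0 : 0 ≤ S)
    (hr : mx T3 S ≤ r) : ‖r3 f‖ ≤ r :=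
  (mx_le (s_of_c H ha h0 hS hS0) (r3_tab H)).trans (by exact_mod_cast hr)

/-- **`r₅` on a cell of the latitude** (`cF f ≥ a`) -/
theorem r5_cell (H : Re f) {a S r : ℚ} (ha : (a : ℝ) ≤ cF f) (h0 : 0 ≤ a) (hS : 1 - a ^ 2 ≤ S ^ 2) (hS0 : 0 ≤ S)
    (hr : mx T5 S ≤ r) : ‖r5 f‖ ≤ r :=
  (mx_le (s_of_c H ha h0 hS hS0) (r5_tab H)).trans (by exact_mod_cast hr)

end Pool.Agent.FPX.LF
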