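import Mathlib
import Pool.Agent.FPX.LF7A
import Pool.Agent.FPX.LF7B
import Pool.Agent.FPX.LFR
import Pool.Agent.FPX.OMGR

/-
LFS (helper69): the moment `r₇` of the states: `‖r₇‖ ≤ .0925 s` for all states, smaller constants on the classes of `s`.
-/

open MeasureTheory Set Filter Topology Real
open scoped NNReal

noncomputable section

namespace Pool.Agent.FPX.LF

open Pool.Agent.FPX.ALX (St Xa)
open Pool.Agent.FPX.UMP (Ef)
open Pool.Agent.FPX.F54 (X1 X2)
open Pool.Agent.FPX.OMR (Re r7 xR eR vR)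
open Pool.Agent.FPX.OMS (rF cF)
open Pool.Agent.FPX.OMB (vm)
open Pool.Agent.FPX.CERQ (xT Er)

/-- the table of `r₇` -/
def T7 : List Cl :=
  [⟨0, 150 / 1000, 9250 / 100000⟩, ⟨150 / 1000, 300 / 1000, 9244 / 100000⟩,
   ⟨300 / 1000, 450 / 1000, 9174 / 100000⟩, ⟨450 / 1000, 600 / 1000, 9086 / 100000⟩,
   ⟨600 / 1000, 700 / 1000, 8977 / 100000⟩, ⟨700 / 1000, 800 / 1000, 8988 / 100000⟩,
   ⟨800 / 1000, 900 / 1000, 8991 / 100000⟩, ⟨900 / 1000, 1, 9064 / 100000⟩]

section

variable {s : ℝ} {X : ℝ → ℝ}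

theorem mc7_tab (hX : St s X) (h0 : 0 ≤ s) (h1 : s ≤ 1) :
    ∃ c ∈ T7, (c.lo : ℝ) ≤ s ∧ s ≤ c.hi ∧ (0 : ℝ) ≤ c.k ∧ ‖mC 7 X‖ ≤ c.k * s := by
  unfold T7
  rcases le_total s (150 / 1000) with a1 | a1
  · exact ⟨⟨0, 150 / 1000, 9250 / 100000⟩, by simp, by push_cast; linarith, by push_cast; linarith,
      by push_cast; norm_num, by
        have := cl7a hX (by push_cast; linarith) (by push_cast; linarith)
        push_cast
        exact this⟩
  rcases le_total s (300 / 1000) with a2 | a2
  · exact ⟨⟨150 / 1000, 300 / 1000, 9244 / 100000⟩, by simp, by push_cast; linarith, by push_cast; linarith,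
      by push_cast; norm_num, by
        have := cl7b hX (by push_cast; linarith) (by push_cast; linarith)
        push_cast
        exact this⟩
  rcases le_total s (450 / 1000) with a3 | a3
  · exact ⟨⟨300 / 1000, 450 / 1000, 9174 / 100000⟩, by simp, by push_cast; linarith, by push_cast; linarith,
      by push_cast; norm_num, by
        have := cl7c hX (by push_cast; linarith) (by push_cast; linarith)
        push_cast
        exact this⟩
  rcases le_total s (600 / 1000) with a4 | a4
  · exact ⟨⟨450 / 1000, 600 / 1000, 9086 / 100000⟩, by simp, by push_cast; linarith, by push_cast; linarith,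
      by push_cast; norm_num, by
        have := cl7d hX (by push_cast; linarith) (by push_cast; linarith)
        push_cast
        exact this⟩
  rcases le_total s (700 / 1000) with a5 | a5
  · exact ⟨⟨600 / 1000, 700 / 1000, 8977 / 100000⟩, by simp, by push_cast; linarith, by push_cast; linarith,
      by push_cast; norm_num, by
        have := cl7e hX (by push_cast; linarith) (by push_cast; linarith)
        push_cast
        exact this⟩
  rcases le_total s (800 / 1000) with a6 | a6
  · exact ⟨⟨700 / 1000, 800 / 1000, 8988 / 100000⟩, by simp, by push_cast; linarith, by push_cast; linarith,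
      by push_cast; norm_num, by
        have := cl7f hX (by push_cast; linarith) (by push_cast; linarith)
        push_cast
        exact this⟩
  rcases le_total s (900 / 1000) with a7 | a7
  · exact ⟨⟨800 / 1000, 900 / 1000, 8991 / 100000⟩, by simp, by push_cast; linarith, by push_cast; linarith,
      by push_cast; norm_num, by
        have := cl7g hX (by push_cast; linarith) (by push_cast; linarith)
        push_cast
        exact this⟩
  · exact ⟨⟨900 / 1000, 1, 9064 / 100000⟩, by simp, by push_cast; linarith, by push_cast; linarith,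
      by push_cast; norm_num, by
        have := cl7h hX (by push_cast; linarith) (by push_cast; linarith)
        push_cast
        exact this⟩

/-- **the seventh harmonic of the class** -/
theorem mc7_le (hX : St s X) (h0 : 0 ≤ s) (h1 : s ≤ 1) : ‖mC 7 X‖ ≤ 925 / 10000 * s := by
  obtain ⟨c, hc, _, _, _, h⟩ := mc7_tab hX h0 h1
  refine h.trans (mul_le_mul_of_nonneg_right ?_ h0)
  unfold T7 at hc
  simp only [List.mem_cons, List.not_mem_nil, or_false] at hc
  rcases hc with rfl | rfl | rfl | rfl | rfl | rfl | rfl | rfl <;> (push_cast; norm_num)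

end

variable {f : ℝ → ℝ}

theorem r7_mC (H : Re f) : r7 f = mC 7 (Xa (X1 f) f) := mom_eq H 7

/-- **`‖r₇‖ ≤ .0925 s`** -/
theorem r7_le (H : Re f) : ‖r7 f‖ ≤ 925 / 10000 * X1 f := by
  rw [r7_mC H]
  exact mc7_le (ALY.st H.hf H.h0 H.h2) H.h0 (s_le H)

theorem r7_tab (H : Re f) : ∃ c ∈ T7, (c.lo : ℝ) ≤ X1 f ∧ X1 f ≤ c.hi ∧ (0 : ℝ) ≤ c.k ∧ ‖r7 f‖ ≤ c.k * X1 f := by
  rw [r7_mC H]
  exact mc7_tab (ALY.st H.hf H.h0 H.h2) H.h0 (s_le H)

/-- **`r₇` on a cell of the latitude** (`cF f ≥ a`) -/
theorem r7_cell (H : Re f) {a S r : ℚ} (ha : (a : ℝ) ≤ cF f) (h0 : 0 ≤ a) (hS : 1 - a ^ 2 ≤ S ^ 2) (hS0 : 0 ≤ S)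
    (hr : mx T7 S ≤ r) : ‖r7 f‖ ≤ r :=
  (mx_le (s_of_c H ha h0 hS hS0) (r7_tab H)).trans (by exact_mod_cast hr)

end Pool.Agent.FPX.LF
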