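import Pool.Agent.FPX.QZD.C1
import Pool.Agent.FPX.QZD.C2
import Pool.Agent.FPX.QZD.C3
import Pool.Agent.FPX.QZD.C4
import Pool.Agent.FPX.QZD.C5

/-
QZE (helper16): `q₀ ≤ 0.13 s²` for all states (real frame).
-/

open MeasureTheory Set Filter Topology

noncomputable section

namespace Pool.Agent.FPX.QZ

open Pool.Agent.FPX.CAV
open Pool.Agent.FPX.ALX (St Xa)
open Pool.Agent.FPX.SQN (mS)
open Pool.Agent.FPX.OMR (Re q0)
open Pool.Agent.FPX.F54 (X1 X2)

theorem s1 : ((ZQZ1.cd.s : ℚ) : ℝ) = 1 := by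
  have : ZQZ1.cd.s = 1 := by decide +kernel
  rw [this]
  norm_num

theorem s2 : ((ZQZ2.cd.s : ℚ) : ℝ) = 817 / 1000 := by
  have : ZQZ2.cd.s = 817 / 1000 := by decide +kernel
  rw [this]
  norm_num

theorem s3 : ((ZQZ3.cd.s : ℚ) : ℝ) = 163 / 250 := by
  have : ZQZ3.cd.s = 163 / 250 := by decide +kernel
  rw [this]
  norm_num

theorem s4 : ((ZQZ4.cd.s : ℚ) : ℝ) = 251 / 500 := by
  have : ZQZ4.cd.s = 251 / 500 := by decide +kernel
  rw [this]
  norm_num

theorem s5 : ((ZQZ5.cd.s : ℚ) : ℝ) = 387 / 1000 := by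
  have : ZQZ5.cd.s = 387 / 1000 := by decide +kernel
  rw [this]
  norm_num

/-- **mean of the squares, all classes** -/
theorem mS_13 {s : ℝ} {X : ℝ → ℝ} (h0 : 0 ≤ s) (h1 : s < 1) (hX : St s X) (hb : ∀ a, |X a| ≤ 0.62 * s) :
    mS X ≤ 13 / 100 * s ^ 2 := by
  rcases le_or_gt s (19 / 50) with h | h
  · have k := mS_small hX
    have k2 : s ^ 2 ≤ (19 / 50) ^ 2 := pow_le_pow_left₀ h0 h 2
    have k3 : 0 ≤ mS X := by
      unfold mS QST.mn
      exact mul_nonneg (by positivity) (intervalIntegral.integral_nonneg (by positivity) fun a _ => sq_nonneg _)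
    nlinarith
  have hs : 0 < s := lt_trans (by norm_num) h
  rcases le_or_gt s (41 / 100) with a | a
  · exact mS_range ZQZ5_ok (σ := 461 / 1250) (lo := 38 / 100) (hi := 41 / 100) BQZ5 hs h1 (by linarith) a (by norm_num)
      (by rw [s5]; norm_num) (by rw [s5]; norm_num) (by rw [s5]; norm_num) (by norm_num) hX hb
  rcases le_or_gt s (53 / 100) with b | b
  · exact mS_range ZQZ4_ok (σ := 589 / 1250) (lo := 41 / 100) (hi := 53 / 100) BQZ4 hs h1 a.le b (by norm_num)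
      (by rw [s4]; norm_num) (by rw [s4]; norm_num) (by rw [s4]; norm_num) (by norm_num) hX hb
  rcases le_or_gt s (6775 / 10000) with c | c
  · exact mS_range ZQZ3_ok (σ := 3017 / 5000) (lo := 53 / 100) (hi := 6775 / 10000) BQZ3 hs h1 b.le c (by norm_num)
      (by rw [s3]; norm_num) (by rw [s3]; norm_num) (by rw [s3]; norm_num) (by norm_num) hX hb
  rcases le_or_gt s (831 / 1000) with d | d
  · exact mS_range ZQZ2_ok (σ := 3771 / 5000) (lo := 6775 / 10000) (hi := 831 / 1000) BQZ2 hs h1 c.le d (by norm_num)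
      (by rw [s2]; norm_num) (by rw [s2]; norm_num) (by rw [s2]; norm_num) (by norm_num) hX hb
  · exact mS_range ZQZ1_ok (σ := 4577 / 5000) (lo := 831 / 1000) (hi := 1) BQZ1 hs h1 d.le h1.le (by norm_num)
      (by rw [s1]; norm_num) (by rw [s1]; norm_num) (by rw [s1]; norm_num) (by norm_num) hX hb

/-- **`q₀ ≤ 0.13 s²` for all states in the real frame** -/
theorem q0_13 {f : ℝ → ℝ} (H : Re f) : q0 f ≤ 13 / 100 * X1 f ^ 2 := by
  rw [q0_eq H]
  refine mS_13 H.h0 H.lt1 (ALY.st H.hf H.h0 H.h2) fun a => ?_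
  have := BTN.Xa_bd H.hf H.h0 H.h2 a
  have e : (0.62 : ℝ) = 31 / 50 := by norm_num
  rw [e]
  exact this

end Pool.Agent.FPX.QZ
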