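import Mathlib
import Pool.Agent.FPX.CSB
import Pool.Agent.FPX.CEZE
import Pool.Agent.FPX.CEUL
import Pool.Agent.FPX.LFS
import Pool.Agent.FPX.QZE

/-
CSC (helper15): the a priori weights of the class `CZ` on a cell of the latitude, computable in `ℚ`, for the terms
`PsiL` of the linear start map and `Psi14`, `PsiX` of the start map `xi14` (`AprOn` of CEZE).
-/

open MeasureTheory Set Filter Topology Complex
open scoped ComplexConjugate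

noncomputable section

set_option linter.unusedSectionVars false
set_option linter.unusedSimpArgs false

namespace Pool.Agent.FPX.CSB

open Pool.Agent.FPX.BTG (Sta Cls mo aK bK dev)
open Pool.Agent.FPX.BTI (nI reb)
open Pool.Agent.FPX.CRD (Bm)
open Pool.Agent.FPX.BTN (nf ef nf_fun xT_fun ef_fun)
open Pool.Agent.FPX.CERQ (xT)
open Pool.Agent.FPX.F54 (X1 X2)
open Pool.Agent.FPX.OMS (cF)
open Pool.Agent.FPX.OMR (Re xR eR vR r3 r5 r7 q0)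
open Pool.Agent.FPX.BV
open Pool.Agent.FPX.LF (T3 T5 T7 mx)
open Pool.Agent.FPX.CEL (AprOn Apr)

/-! ### the real states -/

theorem fz_of {f : ℝ → ℝ} (H : Re f) {y ρ3 ρ5 ρ7 q : ℝ} (h3 : ‖r3 f‖ ≤ ρ3) (h5 : ‖r5 f‖ ≤ ρ5) (h7 : ‖r7 f‖ ≤ ρ7)
    (hq : q0 f ≤ q) (hy : q ≤ y ^ 2) (y0 : 0 < y) (hs : 3 / 2 * ρ3 < 1) :
    Fz (nf f) (xT f) (ef f) y ρ3 ρ5 ρ7 q where
  toSta := BTG.sta H.hf H.h0 H.h2
  en n hn := by
    rw [nf_fun H, ef_fun H]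
    exact H.en hn
  h3 := by
    rw [nf_fun H, ef_fun H, xT_fun H]
    exact h3
  h5 := by
    rw [nf_fun H, ef_fun H, xT_fun H]
    exact h5
  h7 := by
    rw [nf_fun H, ef_fun H, xT_fun H]
    exact h7
  hq := by
    rw [nf_fun H, xT_fun H]
    exact hq
  hy := hy
  y0 := y0
  hs := hs

/-! ### rational bounds -/

/-- bounds of `|A|, |B|`, of the mean of `|x|`, of `|r₃|, |r₅|, |r₇|`, of `q₀` -/
structure Bd where
  al : ℚ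
  y : ℚ
  r3 : ℚ
  r5 : ℚ
  r7 : ℚ
  q : ℚ

/-- **the check of the bounds** on the states with `|ζ| ≤ S` -/
def Bd.ok (b : Bd) (S : ℚ) : Bool :=
  decide (0 ≤ S) && (decide (mx T3 S ≤ b.r3) && (decide (mx T5 S ≤ b.r5) && (decide (mx T7 S ≤ b.r7)
    && (decide (13 / 100 * S ^ 2 ≤ b.q) && (decide (b.q ≤ b.y ^ 2) && (decide (0 < b.y)
      && (decide (3 / 2 * b.r3 < 1) && decide (1 ≤ b.al * (1 - 3 / 2 * b.r3)))))))))

/-- the rational weights -/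
def cQ (α y r3 r5 r7 q : ℚ) : Fin 29 → ℚ :=
  ![α ^ 2, q * α ^ 2, q * α ^ 2, 2 * (q + r3) * α ^ 2 + 99 / 35 * α * y, r3 * α ^ 2, 5 * r5 * α ^ 2 + α,
    r3 ^ 2 * α ^ 2, 5 / 2 * r3 * r5 * α ^ 2 + α * r3, 99 / 35 * α * y, 99 / 35 * α * y, α,
    2 * (1 + (α * (5 / 2 * r5 + 297 / 140 * r3)) ^ 2), r3 ^ 2 * α ^ 2,
    α * r3 + α ^ 2 * r3 * (5 * r5 + 6 * r3), 2 * α ^ 2,
    (5 * r5 ^ 2 + 3 * r3 ^ 2) * α ^ 2 + α * (r5 + r3), 7 * r3 * r7 * α ^ 2 + α * (r5 + r3),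
    3 * r3 * α ^ 2 + α, 7 * r7 * α ^ 2 + α, r3 * r5 * α ^ 2, r5 * α ^ 2,
    1 / 2 * (7 * r5 * r7 + 3 * r3 * r5) * α ^ 2 + α * r5, r5 ^ 2 * α ^ 2,
    2 * (1 + (α * (7 / 2 * r7 + 3 / 2 * r3 + 99 / 28 * r5)) ^ 2),
    r5 ^ 2 * α ^ 2, α * r5 + α ^ 2 * r5 * (7 * r7 + 3 * r3 + 10 * r5),
    (2 * r3 + q) * α ^ 2 + 99 / 35 * α * y, (3 * q + 2 * r5) * α ^ 2 + 99 / 35 * α * y, q * α ^ 2]

theorem cQ_eq (α y r3 r5 r7 q : ℚ) (i : Fin 29) : ((cQ α y r3 r5 r7 q i : ℚ) : ℝ) = cR α y r3 r5 r7 q i := by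
  fin_cases i <;> simp only [cQ, cR, CSB.g3, CSB.g5, Matrix.cons_val_zero, Matrix.cons_val_one, Matrix.cons_val,
    Fin.reduceFinMk, Fin.zero_eta, Fin.mk_one] <;> push_cast <;> rfl

/-- **the weights of the components of the vector** -/
def Bd.wv (b : Bd) : Fin 29 → ℚ := cQ b.al b.y b.r3 b.r5 b.r7 b.q

/-- the bounds hold at the real states -/
theorem Bd.fz {b : Bd} {S : ℚ} (h : b.ok S = true) {f : ℝ → ℝ} (H : Re f) {a : ℚ} (ha : (a : ℝ) ≤ cF f)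
    (ha0 : 0 ≤ a) (hS : 1 - a ^ 2 ≤ S ^ 2) : Fz (nf f) (xT f) (ef f) b.y b.r3 b.r5 b.r7 b.q ∧
      CSB.al b.r3 ≤ b.al := by
  unfold Bd.ok at h
  simp only [Bool.and_eq_true, decide_eq_true_eq] at h
  obtain ⟨hS0, h3, h5, h7, hq, hy, y0, hs, hα⟩ := h
  have hs' : (3 : ℝ) / 2 * (b.r3 : ℝ) < 1 := by
    have := (Rat.cast_lt (K := ℝ)).2 hs
    push_cast at this
    exact this
  have hX : X1 f ≤ S := LF.s_of_c H ha ha0 hS hS0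
  have hX0 := H.h0
  have hS0' : (0 : ℝ) ≤ S := by exact_mod_cast hS0
  have hq' : (13 : ℝ) / 100 * (S : ℝ) ^ 2 ≤ (b.q : ℝ) := by
    have := (Rat.cast_le (K := ℝ)).2 hq
    push_cast at this
    exact this
  refine ⟨fz_of H (LF.r3_cell H ha ha0 hS hS0 h3) (LF.r5_cell H ha ha0 hS hS0 h5) (LF.r7_cell H ha ha0 hS hS0 h7)
    ?_ (by exact_mod_cast hy) (by exact_mod_cast y0) hs', ?_⟩
  · refine (QZ.q0_13 H).trans (le_trans ?_ hq')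
    gcongr
  · unfold CSB.al
    have hα' : (1 : ℝ) ≤ (b.al : ℝ) * (1 - 3 / 2 * (b.r3 : ℝ)) := by
      have := (Rat.cast_le (K := ℝ)).2 hα
      push_cast at this
      exact this
    rw [div_le_iff₀ (by linarith)]
    exact hα'

/-- **`AprOn` from the bounds** -/
theorem Bd.aprOn {N : ℕ} {Ψ : PsiZ (Fin N)} {b : Bd} {S : ℚ} (h : b.ok S = true) {a c : ℚ} (ha0 : 0 ≤ a)
    (hS : 1 - a ^ 2 ≤ S ^ 2) {wu : Fin N → ℚ}
    (hΨ : PsiLeB Ψ b.al (1 + g3 b.al b.r3 b.r5 ^ 2 / 2) (1 + g5 b.al b.r3 b.r5 b.r7 ^ 2 / 2) (bS b.al b.y b.r3 b.q)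
      (bV b.al b.y b.r3 b.r5 b.q) b.y b.r3 b.r5 b.r7 b.q fun j => (wu j : ℝ)) : AprOn Ψ b.wv wu a c := by
  intro f H h1 _h2
  obtain ⟨F, hα⟩ := Bd.fz h H h1 ha0 hS
  have e : (fun i => ((b.wv i : ℚ) : ℝ)) = cR b.al b.y b.r3 b.r5 b.r7 b.q := funext fun i => cQ_eq _ _ _ _ _ _ i
  rw [e]
  exact F.apr hα hΨ

/-! ### the terms of the linear start map -/

/-- the bounds of the terms `PsiL` -/
def dLR (α nN nP r3 r5 : ℝ) : Fin 24 → ℝ :=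
  ![α, α * r3, α * r3, α * r5, α * r5, α * r3, α * r3, α * r5, α * r5, α * r3 ^ 2, α * r3 ^ 2, α * r3 ^ 2,
    α * (r3 * r5), α * (r3 * r5), α * (r3 * r5), α * (r3 * r5), α * r5 ^ 2, α * r5 ^ 2, α * r5 ^ 2,
    nN, nN, nP, nP, 0]

theorem psiLeB_L {α nN nP nS nV y r3 r5 r7 q : ℝ} : PsiLeB PsiL α nN nP nS nV y r3 r5 r7 q (dLR α nN nP r3 r5) := by
  intro m A B N M S R G P O U V h0 h1 h2 h3 h4 h5 h6 hA hB hN hM hS hR hG hP hO hU hV j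
  have c0 : ‖conj (m 0)‖ ≤ r3 := by rwa [Complex.norm_conj]
  have c1 : ‖conj (m 1)‖ ≤ r5 := by rwa [Complex.norm_conj]
  have cA : ‖conj A‖ ≤ α := by rwa [Complex.norm_conj]
  have r30 : 0 ≤ r3 := (norm_nonneg _).trans h0
  have r50 : 0 ≤ r5 := (norm_nonneg _).trans h1
  have a0 : 0 ≤ α := (norm_nonneg _).trans hA
  have k : ∀ {x z : ℂ} {a b : ℝ}, ‖x‖ ≤ a → ‖z‖ ≤ b → 0 ≤ a → ‖x * z‖ ≤ a * b := by
    intro x z a b hx hz ha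
    rw [norm_mul]
    exact mul_le_mul hx hz (norm_nonneg _) ha
  have k2 : ∀ {z : ℂ} {b : ℝ}, ‖z‖ ≤ b → ‖z ^ 2‖ ≤ b ^ 2 := by
    intro z b h
    rw [norm_pow]
    exact pow_le_pow_left₀ (norm_nonneg _) h 2
  fin_cases j
  · exact hB
  · exact k hB h0 a0
  · exact k hB c0 a0
  · exact k hB h1 a0
  · exact k hB c1 a0
  · exact k cA h0 a0
  · exact k cA c0 a0
  · exact k cA h1 a0
  · exact k cA c1 a0
  · exact k cA (k2 h0) a0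
  · show ‖conj A * (m 0 * conj (m 0))‖ ≤ α * r3 ^ 2
    rw [pow_two]
    exact k cA (k h0 c0 r30) a0
  · exact k cA (k2 c0) a0
  · exact k cA (k h0 h1 r30) a0
  · exact k cA (k h0 c1 r30) a0
  · exact k cA (k c0 h1 r30) a0
  · exact k cA (k c0 c1 r30) a0
  · exact k cA (k2 h1) a0
  · show ‖conj A * (m 1 * conj (m 1))‖ ≤ α * r5 ^ 2
    rw [pow_two]
    exact k cA (k h1 c1 r50) a0
  · exact k cA (k2 c1) a0
  · exact hM
  · show ‖conj N‖ ≤ nN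
    rwa [Complex.norm_conj]
  · exact hO
  · show ‖conj P‖ ≤ nP
    rwa [Complex.norm_conj]
  · show ‖(0 : ℂ)‖ ≤ 0
    rw [norm_zero]

/-- **the weights of the terms `PsiL`** -/
def Bd.wL (b : Bd) : Fin 24 → ℚ :=
  ![b.al, b.al * b.r3, b.al * b.r3, b.al * b.r5, b.al * b.r5, b.al * b.r3, b.al * b.r3, b.al * b.r5, b.al * b.r5,
    b.al * b.r3 ^ 2, b.al * b.r3 ^ 2, b.al * b.r3 ^ 2, b.al * (b.r3 * b.r5), b.al * (b.r3 * b.r5),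
    b.al * (b.r3 * b.r5), b.al * (b.r3 * b.r5), b.al * b.r5 ^ 2, b.al * b.r5 ^ 2, b.al * b.r5 ^ 2,
    1 + (b.al * (5 / 2 * b.r5 + 297 / 140 * b.r3)) ^ 2 / 2, 1 + (b.al * (5 / 2 * b.r5 + 297 / 140 * b.r3)) ^ 2 / 2,
    1 + (b.al * (7 / 2 * b.r7 + 3 / 2 * b.r3 + 99 / 28 * b.r5)) ^ 2 / 2,
    1 + (b.al * (7 / 2 * b.r7 + 3 / 2 * b.r3 + 99 / 28 * b.r5)) ^ 2 / 2, 0]

theorem Bd.wL_eq (b : Bd) (j : Fin 24) : ((b.wL j : ℚ) : ℝ) =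
    dLR b.al (1 + g3 b.al b.r3 b.r5 ^ 2 / 2) (1 + g5 b.al b.r3 b.r5 b.r7 ^ 2 / 2) b.r3 b.r5 j := by
  fin_cases j <;> simp only [Bd.wL, dLR, CSB.g3, CSB.g5, Matrix.cons_val_zero, Matrix.cons_val_one, Matrix.cons_val,
    Fin.reduceFinMk, Fin.zero_eta, Fin.mk_one] <;> push_cast <;> rfl

/-- **the a priori weights of the linear class on a cell** -/
theorem Bd.aprL {b : Bd} {S : ℚ} (h : b.ok S = true) {a : ℚ} (ha0 : 0 ≤ a) (hS : 1 - a ^ 2 ≤ S ^ 2) (c : ℚ) :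
    AprOn PsiL b.wv b.wL a c := by
  refine Bd.aprOn h ha0 hS ?_
  have e : (fun j => ((b.wL j : ℚ) : ℝ)) =
      dLR b.al (1 + g3 b.al b.r3 b.r5 ^ 2 / 2) (1 + g5 b.al b.r3 b.r5 b.r7 ^ 2 / 2) b.r3 b.r5 := funext b.wL_eq
  rw [e]
  exact psiLeB_L

/-- larger weights, checked -/
def Bd.okL (b : Bd) (S a : ℚ) (wv : Fin 29 → ℚ) (wu : Fin 24 → ℚ) : Bool :=
  b.ok S && (decide (0 ≤ a) && (decide (1 - a ^ 2 ≤ S ^ 2) && (decide (∀ i, b.wv i ≤ wv i)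
    && decide (∀ j, b.wL j ≤ wu j))))

/-- **the a priori weights of the linear class on a cell, any larger weights** -/
theorem Bd.aprL' {b : Bd} {S a : ℚ} {wv : Fin 29 → ℚ} {wu : Fin 24 → ℚ} (h : b.okL S a wv wu = true) (c : ℚ) :
    AprOn PsiL wv wu a c := by
  unfold Bd.okL at h
  simp only [Bool.and_eq_true, decide_eq_true_eq] at h
  obtain ⟨h0, ha, hS, hv, hu⟩ := h
  intro f H h1 h2
  exact (Bd.aprL h0 ha hS c f H h1 h2).mono (fun i => by exact_mod_cast hv i) fun j => by exact_mod_cast hu j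

end Pool.Agent.FPX.CSB
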