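import Mathlib
import Pool.Agent.FPX.CBE
import Pool.Agent.FPX.CTO_0
import Pool.Agent.FPX.CTO_1
import Pool.Agent.FPX.CTO_2
import Pool.Agent.FPX.CTO_3
import Pool.Agent.FPX.CTO_4
import Pool.Agent.FPX.CTO_5
import Pool.Agent.FPX.CTO_6
import Pool.Agent.FPX.CTO_7
import Pool.Agent.FPX.CTO_8
import Pool.Agent.FPX.CTO_9
import Pool.Agent.FPX.CTO_10
import Pool.Agent.FPX.CTO_11
import Pool.Agent.FPX.CTO_12
import Pool.Agent.FPX.CTO_13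
import Pool.Agent.FPX.CTO_14
import Pool.Agent.FPX.CTO_15
import Pool.Agent.FPX.CTO_16
import Pool.Agent.FPX.CTO_17
import Pool.Agent.FPX.CTO_18
import Pool.Agent.FPX.CTO_19
import Pool.Agent.FPX.CTO_20
import Pool.Agent.FPX.CTO_21
import Pool.Agent.FPX.CTO_22
import Pool.Agent.FPX.CTO_23
import Pool.Agent.FPX.CTO_24
import Pool.Agent.FPX.CTO_25
import Pool.Agent.FPX.CTO_26
import Pool.Agent.FPX.CTO_27
import Pool.Agent.FPX.CTO_28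
import Pool.Agent.FPX.CTO_29
import Pool.Agent.FPX.CTO_30
import Pool.Agent.FPX.CTO_31
import Pool.Agent.FPX.CTO_32
import Pool.Agent.FPX.CTO_33
import Pool.Agent.FPX.CTO_34
import Pool.Agent.FPX.CTO_35
import Pool.Agent.FPX.CTO_36
import Pool.Agent.FPX.CTO_37
import Pool.Agent.FPX.CTO_38

/-
CTO_A: assembly of the closing table (generated by FAC58_emit.py, helper58).
-/

namespace Pool.Agent.FPX.CTO

open Pool.Agent.FPX VTB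

theorem hC : ∀ r ∈ qCells c₀ 0 k₀ L, r.2.2.1 ≤ X →
    ∃ ds e, colOk κ X σ se B lφ ζ P r ds e = true := by
  rw [hRL, RL]
  refine List.forall_mem_cons.2 ⟨fun _ => ⟨ds0, e0, ok0⟩, ?_⟩
  refine List.forall_mem_cons.2 ⟨fun _ => ⟨ds1, e1, ok1⟩, ?_⟩
  refine List.forall_mem_cons.2 ⟨fun _ => ⟨ds2, e2, ok2⟩, ?_⟩
  refine List.forall_mem_cons.2 ⟨fun _ => ⟨ds3, e3, ok3⟩, ?_⟩
  refine List.forall_mem_cons.2 ⟨fun _ => ⟨ds4, e4, ok4⟩, ?_⟩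
  refine List.forall_mem_cons.2 ⟨fun _ => ⟨ds5, e5, ok5⟩, ?_⟩
  refine List.forall_mem_cons.2 ⟨fun _ => ⟨ds6, e6, ok6⟩, ?_⟩
  refine List.forall_mem_cons.2 ⟨fun _ => ⟨ds7, e7, ok7⟩, ?_⟩
  refine List.forall_mem_cons.2 ⟨fun _ => ⟨ds8, e8, ok8⟩, ?_⟩
  refine List.forall_mem_cons.2 ⟨fun _ => ⟨ds9, e9, ok9⟩, ?_⟩
  refine List.forall_mem_cons.2 ⟨fun _ => ⟨ds10, e10, ok10⟩, ?_⟩
  refine List.forall_mem_cons.2 ⟨fun _ => ⟨ds11, e11, ok11⟩, ?_⟩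
  refine List.forall_mem_cons.2 ⟨fun _ => ⟨ds12, e12, ok12⟩, ?_⟩
  refine List.forall_mem_cons.2 ⟨fun _ => ⟨ds13, e13, ok13⟩, ?_⟩
  refine List.forall_mem_cons.2 ⟨fun _ => ⟨ds14, e14, ok14⟩, ?_⟩
  refine List.forall_mem_cons.2 ⟨fun _ => ⟨ds15, e15, ok15⟩, ?_⟩
  refine List.forall_mem_cons.2 ⟨fun _ => ⟨ds16, e16, ok16⟩, ?_⟩
  refine List.forall_mem_cons.2 ⟨fun _ => ⟨ds17, e17, ok17⟩, ?_⟩
  refine List.forall_mem_cons.2 ⟨fun _ => ⟨ds18, e18, ok18⟩, ?_⟩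
  refine List.forall_mem_cons.2 ⟨fun _ => ⟨ds19, e19, ok19⟩, ?_⟩
  refine List.forall_mem_cons.2 ⟨fun _ => ⟨ds20, e20, ok20⟩, ?_⟩
  refine List.forall_mem_cons.2 ⟨fun _ => ⟨ds21, e21, ok21⟩, ?_⟩
  refine List.forall_mem_cons.2 ⟨fun _ => ⟨ds22, e22, ok22⟩, ?_⟩
  refine List.forall_mem_cons.2 ⟨fun _ => ⟨ds23, e23, ok23⟩, ?_⟩
  refine List.forall_mem_cons.2 ⟨fun _ => ⟨ds24, e24, ok24⟩, ?_⟩
  refine List.forall_mem_cons.2 ⟨fun _ => ⟨ds25, e25, ok25⟩, ?_⟩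
  refine List.forall_mem_cons.2 ⟨fun _ => ⟨ds26, e26, ok26⟩, ?_⟩
  refine List.forall_mem_cons.2 ⟨fun _ => ⟨ds27, e27, ok27⟩, ?_⟩
  refine List.forall_mem_cons.2 ⟨fun _ => ⟨ds28, e28, ok28⟩, ?_⟩
  refine List.forall_mem_cons.2 ⟨fun _ => ⟨ds29, e29, ok29⟩, ?_⟩
  refine List.forall_mem_cons.2 ⟨fun _ => ⟨ds30, e30, ok30⟩, ?_⟩
  refine List.forall_mem_cons.2 ⟨fun _ => ⟨ds31, e31, ok31⟩, ?_⟩
  refine List.forall_mem_cons.2 ⟨fun _ => ⟨ds32, e32, ok32⟩, ?_⟩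
  refine List.forall_mem_cons.2 ⟨fun _ => ⟨ds33, e33, ok33⟩, ?_⟩
  refine List.forall_mem_cons.2 ⟨fun _ => ⟨ds34, e34, ok34⟩, ?_⟩
  refine List.forall_mem_cons.2 ⟨fun _ => ⟨ds35, e35, ok35⟩, ?_⟩
  refine List.forall_mem_cons.2 ⟨fun _ => ⟨ds36, e36, ok36⟩, ?_⟩
  refine List.forall_mem_cons.2 ⟨fun _ => ⟨ds37, e37, ok37⟩, ?_⟩
  refine List.forall_mem_cons.2 ⟨fun _ => ⟨ds38, e38, ok38⟩, ?_⟩
  exact fun r hr => absurd hr List.not_mem_nil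

end Pool.Agent.FPX.CTO
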