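import Mathlib
import Pool.Agent.FPX.CBE
import Pool.Agent.FPX.CTP_0
import Pool.Agent.FPX.CTP_1
import Pool.Agent.FPX.CTP_2
import Pool.Agent.FPX.CTP_3
import Pool.Agent.FPX.CTP_4
import Pool.Agent.FPX.CTP_5
import Pool.Agent.FPX.CTP_6
import Pool.Agent.FPX.CTP_7
import Pool.Agent.FPX.CTP_8
import Pool.Agent.FPX.CTP_9
import Pool.Agent.FPX.CTP_10
import Pool.Agent.FPX.CTP_11
import Pool.Agent.FPX.CTP_12
import Pool.Agent.FPX.CTP_13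
import Pool.Agent.FPX.CTP_14
import Pool.Agent.FPX.CTP_15
import Pool.Agent.FPX.CTP_16
import Pool.Agent.FPX.CTP_17
import Pool.Agent.FPX.CTP_18
import Pool.Agent.FPX.CTP_19
import Pool.Agent.FPX.CTP_20
import Pool.Agent.FPX.CTP_21
import Pool.Agent.FPX.CTP_22

/-
CTP_A: assembly of the closing table (generated by FAC58_emit.py, helper58).
-/

namespace Pool.Agent.FPX.CTP

open Pool.Agent.FPX VTB

theorem hC : ∀ r ∈ qCells c₀ 0 k₀ L, r.2.2.1 ≤ X →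
    ∃ ds e, colOk κ X σ se B lφ ζ P r ds e = true := by
  rw [hRL, RL]
  refine List.forall_mem_cons.2 ⟨fun _ => ⟨ds0, e0, ok0⟩, ?_⟩
  refine List.forall_mem_cons.2 ⟨fun _ => ⟨ds1, e1, ok1⟩, ?_⟩
  refine List.forall_mem_cons.2 ⟨fun _ => ⟨ds2, e2, ok2⟩, ?_⟩
  refine List.forall_mem_cons.2 ⟨fun _ => ⟨ds3, e3, ok3⟩, ?_⟩
  refine List.forall_mem_cons.2 ⟨fun _ => ⟨ds4, e4, ok4⟩, ?_⟩
  refine List.forall_mem_cons.2 ⟨fun _ => ⟨ds5, e5, ok5⟩, ?_⟩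
  refine List.forall_mem_cons.2 ⟨fun _ => ⟨ds6, e6, ok6⟩, ?_⟩
  refine List.forall_mem_cons.2 ⟨fun _ => ⟨ds7, e7, ok7⟩, ?_⟩
  refine List.forall_mem_cons.2 ⟨fun _ => ⟨ds8, e8, ok8⟩, ?_⟩
  refine List.forall_mem_cons.2 ⟨fun _ => ⟨ds9, e9, ok9⟩, ?_⟩
  refine List.forall_mem_cons.2 ⟨fun _ => ⟨ds10, e10, ok10⟩, ?_⟩
  refine List.forall_mem_cons.2 ⟨fun _ => ⟨ds11, e11, ok11⟩, ?_⟩
  refine List.forall_mem_cons.2 ⟨fun _ => ⟨ds12, e12, ok12⟩, ?_⟩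
  refine List.forall_mem_cons.2 ⟨fun _ => ⟨ds13, e13, ok13⟩, ?_⟩
  refine List.forall_mem_cons.2 ⟨fun _ => ⟨ds14, e14, ok14⟩, ?_⟩
  refine List.forall_mem_cons.2 ⟨fun _ => ⟨ds15, e15, ok15⟩, ?_⟩
  refine List.forall_mem_cons.2 ⟨fun _ => ⟨ds16, e16, ok16⟩, ?_⟩
  refine List.forall_mem_cons.2 ⟨fun _ => ⟨ds17, e17, ok17⟩, ?_⟩
  refine List.forall_mem_cons.2 ⟨fun _ => ⟨ds18, e18, ok18⟩, ?_⟩
  refine List.forall_mem_cons.2 ⟨fun _ => ⟨ds19, e19, ok19⟩, ?_⟩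
  refine List.forall_mem_cons.2 ⟨fun _ => ⟨ds20, e20, ok20⟩, ?_⟩
  refine List.forall_mem_cons.2 ⟨fun _ => ⟨ds21, e21, ok21⟩, ?_⟩
  refine List.forall_mem_cons.2 ⟨fun _ => ⟨ds22, e22, ok22⟩, ?_⟩
  exact fun r hr => absurd hr List.not_mem_nil

end Pool.Agent.FPX.CTP
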