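import Mathlib
import Pool.Agent.FPX.CUTDefs
import Pool.Agent.FPX.FME
import Pool.Agent.FPX.KCT
import Pool.Agent.FPX.SPH

/-
CUF (helper11): the cut-off flux `FluxC` is integrable in the direction and continuous in the map.
-/

open MeasureTheory Set Filter Topology
open scoped ENNReal NNReal

noncomputable section

namespace Pool.Agent.FPX

open Pool.Agent.EWD

/-- the cut-off kernel -/
def Kc (χ : ℝ → ℝ) (y ξ p : E3) : ℝ :=
  χ ‖y‖ * (inner ℝ p (crs y ξ) / (‖y‖ ^ 2 - inner ℝ y p ^ 2))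

private theorem crs_smul_smul (a b : ℝ) (y ξ : E3) : crs (a • y) (b • ξ) = (a * b) • crs y ξ := by
  ext i
  fin_cases i
  · change (a * y 1) * (b * ξ 2) - (a * y 2) * (b * ξ 1) = (a * b) * (y 1 * ξ 2 - y 2 * ξ 1)
    ring
  · change (a * y 2) * (b * ξ 0) - (a * y 0) * (b * ξ 2) = (a * b) * (y 2 * ξ 0 - y 0 * ξ 2)
    ring
  · change (a * y 0) * (b * ξ 1) - (a * y 1) * (b * ξ 0) = (a * b) * (y 0 * ξ 1 - y 1 * ξ 0)
    ring

/-- the kernel in terms of the direction -/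
theorem Kc_eq (χ : ℝ → ℝ) {y : E3} (hy : y ≠ 0) (ξ p : E3) : Kc χ y ξ p =
    χ ‖y‖ * (inner ℝ p (crs ((‖y‖⁻¹ : ℝ) • y) ((‖y‖⁻¹ : ℝ) • ξ)) / sq2 ((‖y‖⁻¹ : ℝ) • y) p) := by
  have hn : ‖y‖ ≠ 0 := norm_ne_zero_iff.2 hy
  unfold Kc sq2
  rw [crs_smul_smul, inner_smul_left, inner_smul_right]
  simp only [conj_trivial]
  have e1 : 1 - (‖y‖⁻¹ * inner ℝ y p) ^ 2 = (‖y‖⁻¹ * ‖y‖⁻¹) * (‖y‖ ^ 2 - inner ℝ y p ^ 2) := by
    field_simp
  rw [e1, mul_div_mul_left _ _ (mul_ne_zero (inv_ne_zero hn) (inv_ne_zero hn))]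

theorem Kc_meas {χ : ℝ → ℝ} (hχ : Continuous χ) :
    Measurable (fun q : E3 × E3 × E3 => Kc χ q.1 q.2.1 q.2.2) := by
  have c1 : Continuous (fun q : E3 × E3 × E3 => crs q.1 q.2.1) :=
    crs_cont.comp (f := fun q : E3 × E3 × E3 => (q.1, q.2.1)) (by fun_prop)
  have c2 : Continuous (fun q : E3 × E3 × E3 => (inner ℝ q.2.2 (crs q.1 q.2.1) : ℝ)) := by fun_prop
  have c3 : Continuous (fun q : E3 × E3 × E3 => ‖q.1‖ ^ 2 - (inner ℝ q.1 q.2.2 : ℝ) ^ 2) := by fun_prop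
  have c4 : Continuous (fun q : E3 × E3 × E3 => χ ‖q.1‖) := hχ.comp (by fun_prop)
  exact c4.measurable.mul (c2.measurable.div c3.measurable)

theorem Kc_meas' {χ : ℝ → ℝ} (_hχ : Continuous χ) (y ξ : E3) : Measurable (fun p => Kc χ y ξ p) := by
  have c2 : Continuous (fun p : E3 => (inner ℝ p (crs y ξ) : ℝ)) := by fun_prop
  have c3 : Continuous (fun p : E3 => ‖y‖ ^ 2 - (inner ℝ y p : ℝ) ^ 2) := by fun_prop
  exact measurable_const.mul (c2.measurable.div c3.measurable)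

attribute [local irreducible] Kc

private theorem CUF_kb {v η : E3} (hv : ‖v‖ = 1) :
    ∫⁻ p, ENNReal.ofReal |inner ℝ p (crs v η) / sq2 v p| ∂PP ≤ ENNReal.ofReal (‖η‖ * (Real.pi / 2)) := by
  have h1 : ∀ᵐ p ∂PP, ENNReal.ofReal |inner ℝ p (crs v η) / sq2 v p| ≤
      ENNReal.ofReal (‖η‖ * (1 / √(sq2 v p))) := by
    filter_upwards [ae_norm, ae_sq2 v hv] with p hp hs
    apply ENNReal.ofReal_le_ofReal
    rw [abs_div, abs_of_pos hs]
    have h2 : |(inner ℝ p (crs v η) : ℝ)| ≤ √(sq2 v p) * ‖η‖ := by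
      refine abs_le_of_sq_le_sq ?_ (by positivity)
      rw [mul_pow, Real.sq_sqrt hs.le]
      exact inner_crs_le hv hp η
    have hs2 : 0 < √(sq2 v p) := Real.sqrt_pos.2 hs
    rw [div_le_iff₀ hs]
    have h4 : √(sq2 v p) * √(sq2 v p) = sq2 v p := Real.mul_self_sqrt hs.le
    calc |(inner ℝ p (crs v η) : ℝ)| ≤ √(sq2 v p) * ‖η‖ := h2
      _ = ‖η‖ * (1 / √(sq2 v p)) * (√(sq2 v p) * √(sq2 v p)) := by field_simp
      _ = _ := by rw [h4]
  refine (lintegral_mono_ae h1).trans ?_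
  have hi := (int_inv hv).1.const_mul ‖η‖
  rw [← ofReal_integral_eq_lintegral_ofReal hi (Eventually.of_forall fun p => by positivity),
    integral_const_mul, (int_inv hv).2]

theorem Kc_zero {χ : ℝ → ℝ} {y : E3} (h : χ ‖y‖ = 0) (ξ p : E3) : Kc χ y ξ p = 0 := by
  unfold Kc
  rw [h, zero_mul]

/-- the mean of the kernel -/
theorem Kc_bd {χ : ℝ → ℝ} {c : ℝ} (hχ : CutF χ c) (y ξ : E3) :
    ∫⁻ p, ENNReal.ofReal |Kc χ y ξ p| ∂PP ≤ ENNReal.ofReal (χ ‖y‖ * (‖ξ‖ / c * (Real.pi / 2))) := by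
  have hc := hχ.pos
  rcases le_or_gt ‖y‖ c with h | h
  · have e : ∀ p, Kc χ y ξ p = 0 := fun p => Kc_zero (hχ.zero _ h) ξ p
    simp [e]
  · have hn : 0 < ‖y‖ := hc.trans h
    have hy : y ≠ 0 := norm_pos_iff.1 hn
    have h0 := (hχ.rng ‖y‖).1
    have hv : ‖(‖y‖⁻¹ : ℝ) • y‖ = 1 := by
      rw [norm_smul, norm_inv, norm_norm, inv_mul_cancel₀ hn.ne']
    have e : ∀ p, ENNReal.ofReal |Kc χ y ξ p| = ENNReal.ofReal (χ ‖y‖) * ENNReal.ofReal
        |inner ℝ p (crs ((‖y‖⁻¹ : ℝ) • y) ((‖y‖⁻¹ : ℝ) • ξ)) / sq2 ((‖y‖⁻¹ : ℝ) • y) p| := by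
      intro p
      rw [Kc_eq χ hy, abs_mul, abs_of_nonneg h0, ENNReal.ofReal_mul h0]
    simp_rw [e]
    rw [lintegral_const_mul' _ _ ENNReal.ofReal_ne_top, ENNReal.ofReal_mul h0]
    refine mul_le_mul' le_rfl ((CUF_kb hv).trans (ENNReal.ofReal_le_ofReal ?_))
    refine mul_le_mul_of_nonneg_right ?_ (by positivity)
    rw [norm_smul, norm_inv, norm_norm, div_eq_inv_mul]
    exact mul_le_mul_of_nonneg_right (inv_anti₀ hc h.le) (norm_nonneg _)

/-- the kernel is continuous in mean -/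
theorem Kc_cont {χ : ℝ → ℝ} {c : ℝ} (hχ : CutF χ c) {y ξ : ℕ → E3} {y₀ ξ₀ : E3}
    (hy : Tendsto y atTop (𝓝 y₀)) (hξ : Tendsto ξ atTop (𝓝 ξ₀)) :
    Tendsto (fun j => ∫⁻ p, ENNReal.ofReal |Kc χ (y j) (ξ j) p - Kc χ y₀ ξ₀ p| ∂PP) atTop (𝓝 0) := by
  have hc := hχ.pos
  have hχt : Tendsto (fun j => χ ‖y j‖) atTop (𝓝 (χ ‖y₀‖)) := (hχ.cont.tendsto _).comp hy.norm
  rcases le_or_gt ‖y₀‖ c with h | h
  · have e : ∀ p, Kc χ y₀ ξ₀ p = 0 := fun p => Kc_zero (hχ.zero _ h) ξ₀ p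
    simp only [e, sub_zero]
    have t1 : Tendsto (fun j => ENNReal.ofReal (χ ‖y j‖ * (‖ξ j‖ / c * (Real.pi / 2)))) atTop (𝓝 0) := by
      have h1 : Tendsto (fun j => χ ‖y j‖ * (‖ξ j‖ / c * (Real.pi / 2))) atTop
          (𝓝 (χ ‖y₀‖ * (‖ξ₀‖ / c * (Real.pi / 2)))) :=
        hχt.mul ((hξ.norm.div_const c).mul_const _)
      rw [hχ.zero _ h, zero_mul] at h1
      have h2 := ENNReal.tendsto_ofReal h1
      rwa [ENNReal.ofReal_zero] at h2
    exact tendsto_of_tendsto_of_tendsto_of_le_of_le tendsto_const_nhds t1 (fun _ => zero_le)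
      fun j => Kc_bd hχ (y j) (ξ j)
  · have hn : 0 < ‖y₀‖ := hc.trans h
    have hy0 : y₀ ≠ 0 := norm_pos_iff.1 hn
    set v : ℕ → E3 := fun j => (‖y j‖⁻¹ : ℝ) • y j with hv
    set v₀ : E3 := (‖y₀‖⁻¹ : ℝ) • y₀ with hv₀
    set η : ℕ → E3 := fun j => (‖y j‖⁻¹ : ℝ) • ξ j with hη
    set η₀ : E3 := (‖y₀‖⁻¹ : ℝ) • ξ₀ with hη₀
    have hinv : Tendsto (fun j => ‖y j‖⁻¹) atTop (𝓝 ‖y₀‖⁻¹) := hy.norm.inv₀ hn.ne'
    have hvt : Tendsto v atTop (𝓝 v₀) := hinv.smul hy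
    have hηt : Tendsto η atTop (𝓝 η₀) := hinv.smul hξ
    have hv01 : ‖v₀‖ = 1 := by
      rw [hv₀, norm_smul, norm_inv, norm_norm, inv_mul_cancel₀ hn.ne']
    have hev : ∀ᶠ j in atTop, c < ‖y j‖ := hy.norm.eventually_const_lt h
    set K1 : E3 → E3 → E3 → ℝ := fun v η p => inner ℝ p (crs v η) / sq2 v p with hK1
    have mK1 : ∀ v η : E3, Measurable fun p => K1 v η p := by
      intro v η
      simp only [hK1]
      unfold sq2
      fun_prop
    -- mean convergence of the kernel without cut-off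
    have hk : Tendsto (fun j => ∫⁻ p, ENNReal.ofReal |K1 (v j) (η j) p - K1 v₀ η₀ p| ∂PP) atTop (𝓝 0) := by
      rw [ENNReal.tendsto_atTop_zero]
      intro ε hε
      rcases eq_or_ne ε ⊤ with h1 | h1
      · exact ⟨0, fun n _ => by rw [h1]; exact le_top⟩
      have hε' : 0 < ε.toReal := ENNReal.toReal_pos hε.ne' h1
      obtain ⟨δ, hδ, hk⟩ := kernel_cont (B := ‖η₀‖ + 1) (ε := ε.toReal) hε'
      have g1 : ∀ᶠ j in atTop, ‖v j - v₀‖ < δ := by
        have := (Metric.tendsto_nhds.1 hvt) δ hδ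
        simpa [dist_eq_norm] using this
      have g2 : ∀ᶠ j in atTop, ‖η j - η₀‖ < min δ 1 := by
        have := (Metric.tendsto_nhds.1 hηt) (min δ 1) (lt_min hδ one_pos)
        simpa [dist_eq_norm] using this
      obtain ⟨N, hN⟩ := eventually_atTop.1 ((g1.and g2).and hev)
      refine ⟨N, fun j hj => ?_⟩
      obtain ⟨⟨a1, a2⟩, a3⟩ := hN j hj
      have hvj : ‖v j‖ = 1 := by
        simp only [hv]
        rw [norm_smul, norm_inv, norm_norm, inv_mul_cancel₀ (hc.trans a3).ne']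
      have hηj : ‖η j‖ ≤ ‖η₀‖ + 1 := by
        have e : η j = η₀ + (η j - η₀) := by abel
        rw [e]
        refine (norm_add_le _ _).trans ?_
        have := a2.le.trans (min_le_right _ _)
        linarith
      have := hk (v j) v₀ (η j) η₀ hvj hv01 hηj (by linarith [norm_nonneg η₀]) a1.le
        (a2.le.trans (min_le_left _ _))
      refine this.trans ?_
      rw [ENNReal.ofReal_toReal h1]
    have t2 : Tendsto (fun j => ENNReal.ofReal |χ ‖y j‖ - χ ‖y₀‖| *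
        ENNReal.ofReal (‖η₀‖ * (Real.pi / 2))) atTop (𝓝 0) := by
      have h1 : Tendsto (fun j => |χ ‖y j‖ - χ ‖y₀‖|) atTop (𝓝 0) := by
        simpa using (hχt.sub_const (χ ‖y₀‖)).abs
      have h2 := ENNReal.Tendsto.mul_const (ENNReal.tendsto_ofReal h1)
        (b := ENNReal.ofReal (‖η₀‖ * (Real.pi / 2))) (Or.inr ENNReal.ofReal_ne_top)
      rwa [ENNReal.ofReal_zero, zero_mul] at h2
    have t3 := hk.add t2
    rw [add_zero] at t3
    refine tendsto_of_tendsto_of_tendsto_of_le_of_le' tendsto_const_nhds t3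
      (Eventually.of_forall fun _ => zero_le) ?_
    filter_upwards [hev] with j hj
    have hyj : y j ≠ 0 := norm_pos_iff.1 (hc.trans hj)
    have key : ∀ p, ENNReal.ofReal |Kc χ (y j) (ξ j) p - Kc χ y₀ ξ₀ p| ≤
        ENNReal.ofReal |K1 (v j) (η j) p - K1 v₀ η₀ p|
        + ENNReal.ofReal |χ ‖y j‖ - χ ‖y₀‖| * ENNReal.ofReal |K1 v₀ η₀ p| := by
      intro p
      rw [← ENNReal.ofReal_mul (abs_nonneg _), ← ENNReal.ofReal_add (abs_nonneg _) (by positivity)]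
      refine ENNReal.ofReal_le_ofReal ?_
      rw [Kc_eq χ hyj, Kc_eq χ hy0]
      change |χ ‖y j‖ * K1 (v j) (η j) p - χ ‖y₀‖ * K1 v₀ η₀ p| ≤ _
      have e : χ ‖y j‖ * K1 (v j) (η j) p - χ ‖y₀‖ * K1 v₀ η₀ p =
          χ ‖y j‖ * (K1 (v j) (η j) p - K1 v₀ η₀ p) + (χ ‖y j‖ - χ ‖y₀‖) * K1 v₀ η₀ p := by ring
      rw [e]
      refine (abs_add_le _ _).trans ?_
      rw [abs_mul, abs_mul, abs_of_nonneg (hχ.rng _).1]
      have := mul_le_of_le_one_left (abs_nonneg (K1 (v j) (η j) p - K1 v₀ η₀ p)) (hχ.rng ‖y j‖).2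
      linarith
    refine (lintegral_mono key).trans ?_
    have hm : Measurable fun p => ENNReal.ofReal |K1 (v j) (η j) p - K1 v₀ η₀ p| :=
      ((mK1 _ _).sub (mK1 _ _)).norm.ennreal_ofReal
    rw [lintegral_add_left hm, lintegral_const_mul' _ _ ENNReal.ofReal_ne_top]
    exact add_le_add le_rfl (mul_le_mul' le_rfl (CUF_kb hv01))

/-- the kernel tends to zero in mean where the cut-off vanishes in the limit; the second argument
only has to be bounded -/
theorem Kc_cont0 {χ : ℝ → ℝ} {c : ℝ} (hχ : CutF χ c) {K : ℝ} {y ξ : ℕ → E3} {y₀ : E3} (ξ₀ : E3)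
    (hy : Tendsto y atTop (𝓝 y₀)) (h : ‖y₀‖ ≤ c) (hξ : ∀ j, ‖ξ j‖ ≤ K) :
    Tendsto (fun j => ∫⁻ p, ENNReal.ofReal |Kc χ (y j) (ξ j) p - Kc χ y₀ ξ₀ p| ∂PP) atTop (𝓝 0) := by
  have hc := hχ.pos
  have hχt : Tendsto (fun j => χ ‖y j‖) atTop (𝓝 (χ ‖y₀‖)) := (hχ.cont.tendsto _).comp hy.norm
  have e : ∀ p, Kc χ y₀ ξ₀ p = 0 := fun p => Kc_zero (hχ.zero _ h) ξ₀ p
  simp only [e, sub_zero]
  have t1 : Tendsto (fun j => ENNReal.ofReal (χ ‖y j‖ * (K / c * (Real.pi / 2)))) atTop (𝓝 0) := by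
    have h1 : Tendsto (fun j => χ ‖y j‖ * (K / c * (Real.pi / 2))) atTop
        (𝓝 (χ ‖y₀‖ * (K / c * (Real.pi / 2)))) := hχt.mul_const _
    rw [hχ.zero _ h, zero_mul] at h1
    have h2 := ENNReal.tendsto_ofReal h1
    rwa [ENNReal.ofReal_zero] at h2
  refine tendsto_of_tendsto_of_tendsto_of_le_of_le tendsto_const_nhds t1 (fun _ => zero_le)
    fun j => (Kc_bd hχ (y j) (ξ j)).trans (ENNReal.ofReal_le_ofReal ?_)
  have h0 := (hχ.rng ‖y j‖).1
  have := hξ j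
  gcongr

variable {M : Type} [MetricSpace M] {γ : ℝ → M}

theorem flc_eq (C : Calc M γ) (χ : ℝ → ℝ) (θ : M → ℝ) (T : Fin 3 → M → ℝ) (p : E3) (o : Om) :
    flc C χ θ T p o = C.gx θ o * Kc χ (at' C T o) (dy C T o) p
      - C.gy θ o * Kc χ (at' C T o) (dx C T o) p := by
  unfold flc Kc
  ring

/-- measurability and integrability of the density of the cut-off flux -/
theorem fluxC_meas (C : Calc M γ) {χ : ℝ → ℝ} {c : ℝ} (hχ : CutF χ c) {T : Fin 3 → M → ℝ}
    (hT : ∀ k, Lip (T k)) {θ : M → ℝ} (hθ : Lip θ) :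
    AEStronglyMeasurable (fun q : Om × E3 => flc C χ θ T q.2 q.1) (C.μ.prod PP) ∧
    Integrable (fun q : Om × E3 => flc C χ θ T q.2 q.1) (C.μ.prod PP) ∧
    Integrable (fun p => FluxC C χ θ T p) PP := by
  have := C.fin
  have hc := hχ.pos
  obtain ⟨m1, m2, m0⟩ := meas_dx C hT
  have k1 : AEMeasurable (fun q : Om × E3 => Kc χ (at' C T q.1) (dy C T q.1) q.2) (C.μ.prod PP) :=
    Measurable.comp_aemeasurable (g := fun q : E3 × E3 × E3 => Kc χ q.1 q.2.1 q.2.2)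
      (f := fun q : Om × E3 => (at' C T q.1, dy C T q.1, q.2)) (Kc_meas hχ.cont)
      (m0.comp_fst.prodMk (m2.comp_fst.prodMk measurable_snd.aemeasurable))
  have k2 : AEMeasurable (fun q : Om × E3 => Kc χ (at' C T q.1) (dx C T q.1) q.2) (C.μ.prod PP) :=
    Measurable.comp_aemeasurable (g := fun q : E3 × E3 × E3 => Kc χ q.1 q.2.1 q.2.2)
      (f := fun q : Om × E3 => (at' C T q.1, dx C T q.1, q.2)) (Kc_meas hχ.cont)
      (m0.comp_fst.prodMk (m1.comp_fst.prodMk measurable_snd.aemeasurable))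
  have hm : AEMeasurable (fun q : Om × E3 => flc C χ θ T q.2 q.1) (C.μ.prod PP) := by
    simp_rw [flc_eq]
    exact ((C.meas_gx hθ).comp_fst.mul k1).sub ((C.meas_gy hθ).comp_fst.mul k2)
  obtain ⟨⟨B1, b1⟩, ⟨B2, b2⟩⟩ := bdd_dx C hT
  obtain ⟨⟨B3, b3⟩, ⟨B4, b4⟩⟩ := bdd_grad C hθ
  have hi : Integrable (fun q : Om × E3 => flc C χ θ T q.2 q.1) (C.μ.prod PP) := by
    refine ⟨hm.aestronglyMeasurable, ?_⟩
    unfold HasFiniteIntegral
    have e : ∀ q : Om × E3, ‖flc C χ θ T q.2 q.1‖ₑ = ENNReal.ofReal |flc C χ θ T q.2 q.1| := fun q => by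
      rw [Real.enorm_eq_ofReal_abs]
    simp_rw [e]
    have hmn : AEMeasurable (fun q : Om × E3 => ENNReal.ofReal |flc C χ θ T q.2 q.1|) (C.μ.prod PP) :=
      hm.norm.ennreal_ofReal
    rw [lintegral_prod _ hmn]
    have hb : ∀ᵐ o ∂C.μ, ∫⁻ p, ENNReal.ofReal |flc C χ θ T p o| ∂PP ≤
        ENNReal.ofReal (|B3| * (|B2| / c * (Real.pi / 2)) + |B4| * (|B1| / c * (Real.pi / 2))) := by
      filter_upwards [b1, b2, b3, b4] with o h1 h2 h3 h4
      have g : ∀ p, ENNReal.ofReal |flc C χ θ T p o| ≤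
          ENNReal.ofReal |C.gx θ o| * ENNReal.ofReal |Kc χ (at' C T o) (dy C T o) p|
          + ENNReal.ofReal |C.gy θ o| * ENNReal.ofReal |Kc χ (at' C T o) (dx C T o) p| := by
        intro p
        rw [← ENNReal.ofReal_mul (abs_nonneg _), ← ENNReal.ofReal_mul (abs_nonneg _),
          ← ENNReal.ofReal_add (by positivity) (by positivity), flc_eq, ← abs_mul, ← abs_mul]
        exact ENNReal.ofReal_le_ofReal (abs_sub _ _)
      refine (lintegral_mono g).trans ?_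
      have ma : Measurable fun p => ENNReal.ofReal |C.gx θ o| *
          ENNReal.ofReal |Kc χ (at' C T o) (dy C T o) p| :=
        ((Kc_meas' hχ.cont _ _).norm.ennreal_ofReal).const_mul _
      rw [lintegral_add_left ma, lintegral_const_mul' _ _ ENNReal.ofReal_ne_top,
        lintegral_const_mul' _ _ ENNReal.ofReal_ne_top, ENNReal.ofReal_add (by positivity) (by positivity),
        ENNReal.ofReal_mul (abs_nonneg _), ENNReal.ofReal_mul (abs_nonneg _)]
      have r := hχ.rng ‖at' C T o‖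
      refine add_le_add (mul_le_mul' (ENNReal.ofReal_le_ofReal (h3.trans (le_abs_self _)))
        ((Kc_bd hχ _ _).trans (ENNReal.ofReal_le_ofReal ?_)))
        (mul_le_mul' (ENNReal.ofReal_le_ofReal (h4.trans (le_abs_self _)))
        ((Kc_bd hχ _ _).trans (ENNReal.ofReal_le_ofReal ?_)))
      · have h5 : 0 ≤ ‖dy C T o‖ / c * (Real.pi / 2) := by positivity
        refine (mul_le_of_le_one_left h5 r.2).trans ?_
        have := h2.trans (le_abs_self _)
        gcongr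
      · have h5 : 0 ≤ ‖dx C T o‖ / c * (Real.pi / 2) := by positivity
        refine (mul_le_of_le_one_left h5 r.2).trans ?_
        have := h1.trans (le_abs_self _)
        gcongr
    refine (lintegral_mono_ae hb).trans_lt ?_
    rw [lintegral_const]
    exact ENNReal.mul_lt_top ENNReal.ofReal_lt_top (measure_lt_top _ _)
  exact ⟨hm.aestronglyMeasurable, hi, hi.integral_prod_right⟩

private theorem tendsto_E3 {a : ℕ → E3} {b : E3} (h : ∀ k, Tendsto (fun j => a j k) atTop (𝓝 (b k))) :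
    Tendsto a atTop (𝓝 b) := by
  have h1 : Tendsto (fun j => (WithLp.toLp 2 (fun k => a j k) : E3)) atTop
      (𝓝 (WithLp.toLp 2 (fun k => b k))) :=
    ((PiLp.continuous_toLp 2 (fun _ : Fin 3 => ℝ)).tendsto _).comp (tendsto_pi_nhds.2 h)
  exact h1

/-- the cut-off flux is continuous in the map; the derivatives only have to converge where the norm
of the limit is larger than `c` -/
theorem fluxC_cont (C : Calc M γ) {χ : ℝ → ℝ} {c : ℝ} (hχ : CutF χ c) {K : ℝ}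
    {T : ℕ → Fin 3 → M → ℝ} {T₀ : Fin 3 → M → ℝ} (hT : ∀ j k, Lip (T j k)) (hT₀ : ∀ k, Lip (T₀ k))
    (hB : ∀ j, ∀ᵐ o ∂C.μ, ‖dx C (T j) o‖ ≤ K ∧ ‖dy C (T j) o‖ ≤ K)
    (hB₀ : ∀ᵐ o ∂C.μ, ‖dx C T₀ o‖ ≤ K ∧ ‖dy C T₀ o‖ ≤ K)
    (hc : ∀ᵐ o ∂C.μ, (∀ k, Tendsto (fun j => T j k (C.pt o)) atTop (𝓝 (T₀ k (C.pt o)))) ∧
      (c < ‖at' C T₀ o‖ → ∀ k, Tendsto (fun j => C.gx (T j k) o) atTop (𝓝 (C.gx (T₀ k) o)) ∧
        Tendsto (fun j => C.gy (T j k) o) atTop (𝓝 (C.gy (T₀ k) o))))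
    {θ : M → ℝ} (hθ : LipschitzWith 1 θ) :
    Tendsto (fun j => ∫ p, |FluxC C χ θ (T j) p - FluxC C χ θ T₀ p| ∂PP) atTop (𝓝 0) := by
  have : IsFiniteMeasure C.μ := C.fin
  have hLθ : Lip θ := ⟨1, hθ⟩
  have hcp := hχ.pos
  set D : ℕ → Om → ℝ≥0∞ := fun j o => ∫⁻ p, ENNReal.ofReal |flc C χ θ (T j) p o - flc C χ θ T₀ p o| ∂PP
    with hD
  set Q1 : ℕ → Om → ℝ≥0∞ := fun j o => ∫⁻ p, ENNReal.ofReal
    |Kc χ (at' C (T j) o) (dy C (T j) o) p - Kc χ (at' C T₀ o) (dy C T₀ o) p| ∂PP with hQ1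
  set Q2 : ℕ → Om → ℝ≥0∞ := fun j o => ∫⁻ p, ENNReal.ofReal
    |Kc χ (at' C (T j) o) (dx C (T j) o) p - Kc χ (at' C T₀ o) (dx C T₀ o) p| ∂PP with hQ2
  have hflx : ∀ᵐ o ∂C.μ, ∀ j, D j o ≤ Q1 j o + Q2 j o := by
    filter_upwards [C.ae_grad_le hθ] with o ho j
    have g1 : |C.gx θ o| ≤ 1 := by
      rw [← sq_le_one_iff_abs_le_one]
      have := sq_nonneg (C.gy θ o)
      simp only [NNReal.coe_one, one_pow] at ho
      linarith
    have g2 : |C.gy θ o| ≤ 1 := by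
      rw [← sq_le_one_iff_abs_le_one]
      have := sq_nonneg (C.gx θ o)
      simp only [NNReal.coe_one, one_pow] at ho
      linarith
    have hm : Measurable fun p => ENNReal.ofReal
        |Kc χ (at' C (T j) o) (dy C (T j) o) p - Kc χ (at' C T₀ o) (dy C T₀ o) p| :=
      ((Kc_meas' hχ.cont _ _).sub (Kc_meas' hχ.cont _ _)).norm.ennreal_ofReal
    simp only [hD, hQ1, hQ2]
    rw [← lintegral_add_left hm]
    refine lintegral_mono fun p => ?_
    rw [← ENNReal.ofReal_add (abs_nonneg _) (abs_nonneg _)]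
    refine ENNReal.ofReal_le_ofReal ?_
    have e : flc C χ θ (T j) p o - flc C χ θ T₀ p o =
        C.gx θ o * (Kc χ (at' C (T j) o) (dy C (T j) o) p - Kc χ (at' C T₀ o) (dy C T₀ o) p)
        - C.gy θ o * (Kc χ (at' C (T j) o) (dx C (T j) o) p - Kc χ (at' C T₀ o) (dx C T₀ o) p) := by
      rw [flc_eq, flc_eq]
      ring
    rw [e]
    refine (abs_sub _ _).trans ?_
    rw [abs_mul, abs_mul]
    exact add_le_add (mul_le_of_le_one_left (abs_nonneg _) g1) (mul_le_of_le_one_left (abs_nonneg _) g2)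
  -- convergence of the inner integral
  have hDt : ∀ᵐ o ∂C.μ, Tendsto (fun j => D j o) atTop (𝓝 0) := by
    filter_upwards [hflx, hc, ae_all_iff.2 hB] with o ho1 ho2 ho3
    have ta : Tendsto (fun j => at' C (T j) o) atTop (𝓝 (at' C T₀ o)) := by
      refine tendsto_E3 fun k => ?_
      fin_cases k
      · exact ho2.1 0
      · exact ho2.1 1
      · exact ho2.1 2
    have t3 : Tendsto (fun j => Q1 j o + Q2 j o) atTop (𝓝 0) := by
      rcases le_or_gt ‖at' C T₀ o‖ c with h | h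
      · have t4 := (Kc_cont0 hχ (dy C T₀ o) ta h fun j => (ho3 j).2).add
          (Kc_cont0 hχ (dx C T₀ o) ta h fun j => (ho3 j).1)
        rw [add_zero] at t4
        exact t4
      · have ho4 := ho2.2 h
        have tx : Tendsto (fun j => dx C (T j) o) atTop (𝓝 (dx C T₀ o)) := by
          refine tendsto_E3 fun k => ?_
          fin_cases k
          · exact (ho4 0).1
          · exact (ho4 1).1
          · exact (ho4 2).1
        have ty : Tendsto (fun j => dy C (T j) o) atTop (𝓝 (dy C T₀ o)) := by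
          refine tendsto_E3 fun k => ?_
          fin_cases k
          · exact (ho4 0).2
          · exact (ho4 1).2
          · exact (ho4 2).2
        have t4 := (Kc_cont hχ ta ty).add (Kc_cont hχ ta tx)
        rw [add_zero] at t4
        exact t4
    exact tendsto_of_tendsto_of_tendsto_of_le_of_le tendsto_const_nhds t3 (fun _ => zero_le)
      fun j => ho1 j
  -- domination
  have hDb : ∀ j, ∀ᵐ o ∂C.μ, D j o ≤ ENNReal.ofReal (4 * (K / c * (Real.pi / 2))) := by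
    intro j
    filter_upwards [hflx, hB j, hB₀] with o ho1 ho2 ho3
    have hK0 : 0 ≤ K := (norm_nonneg _).trans ho3.1
    have tri : ∀ a b a' b' : E3, ‖b‖ ≤ K → ‖b'‖ ≤ K →
        ∫⁻ p, ENNReal.ofReal |Kc χ a b p - Kc χ a' b' p| ∂PP ≤
          ENNReal.ofReal (2 * (K / c * (Real.pi / 2))) := by
      intro a b a' b' hb hb'
      have one : ∀ a b : E3, ‖b‖ ≤ K → ∫⁻ p, ENNReal.ofReal |Kc χ a b p| ∂PP ≤
          ENNReal.ofReal (K / c * (Real.pi / 2)) := by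
        intro a b hb
        refine (Kc_bd hχ a b).trans (ENNReal.ofReal_le_ofReal ?_)
        have h5 : 0 ≤ ‖b‖ / c * (Real.pi / 2) := by positivity
        refine (mul_le_of_le_one_left h5 (hχ.rng ‖a‖).2).trans ?_
        gcongr
      calc ∫⁻ p, ENNReal.ofReal |Kc χ a b p - Kc χ a' b' p| ∂PP
          ≤ ∫⁻ p, (ENNReal.ofReal |Kc χ a b p| + ENNReal.ofReal |Kc χ a' b' p|) ∂PP := by
            refine lintegral_mono fun p => ?_
            rw [← ENNReal.ofReal_add (abs_nonneg _) (abs_nonneg _)]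
            exact ENNReal.ofReal_le_ofReal (abs_sub _ _)
        _ = ∫⁻ p, ENNReal.ofReal |Kc χ a b p| ∂PP + ∫⁻ p, ENNReal.ofReal |Kc χ a' b' p| ∂PP :=
            lintegral_add_left (Kc_meas' hχ.cont _ _).norm.ennreal_ofReal _
        _ ≤ ENNReal.ofReal (K / c * (Real.pi / 2)) + ENNReal.ofReal (K / c * (Real.pi / 2)) :=
            add_le_add (one _ _ hb) (one _ _ hb')
        _ = ENNReal.ofReal (2 * (K / c * (Real.pi / 2))) := by
            rw [← ENNReal.ofReal_add (by positivity) (by positivity)]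
            congr 1
            ring
    refine (ho1 j).trans ((add_le_add (tri _ _ _ _ ho2.2 ho3.2) (tri _ _ _ _ ho2.1 ho3.1)).trans ?_)
    rw [← ENNReal.ofReal_add (by positivity) (by positivity)]
    apply ENNReal.ofReal_le_ofReal
    linarith
  -- measurability
  have mflx : ∀ j, AEMeasurable (fun q : Om × E3 => ENNReal.ofReal
      |flc C χ θ (T j) q.2 q.1 - flc C χ θ T₀ q.2 q.1|) (C.μ.prod PP) := fun j =>
    ((fluxC_meas C hχ (hT j) hLθ).1.sub (fluxC_meas C hχ hT₀ hLθ).1).norm.aemeasurable.ennreal_ofReal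
  have hDm : ∀ j, AEMeasurable (D j) C.μ := fun j => (mflx j).lintegral_prod_right'
  have hlim : Tendsto (fun j => ∫⁻ o, D j o ∂C.μ) atTop (𝓝 0) := by
    have h := tendsto_lintegral_of_dominated_convergence' (F := D) (f := fun _ => 0)
      (fun _ => ENNReal.ofReal (4 * (K / c * (Real.pi / 2)))) hDm hDb (by
        rw [lintegral_const]
        exact (ENNReal.mul_lt_top ENNReal.ofReal_lt_top (measure_lt_top _ _)).ne) hDt
    rwa [lintegral_zero] at h
  -- the outer integral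
  have hle : ∀ j, ∫⁻ p, ENNReal.ofReal |FluxC C χ θ (T j) p - FluxC C χ θ T₀ p| ∂PP ≤
      ∫⁻ o, D j o ∂C.μ := by
    intro j
    have i1 := (fluxC_meas C hχ (hT j) hLθ).2.1.prod_left_ae
    have i2 := (fluxC_meas C hχ hT₀ hLθ).2.1.prod_left_ae
    calc ∫⁻ p, ENNReal.ofReal |FluxC C χ θ (T j) p - FluxC C χ θ T₀ p| ∂PP
        ≤ ∫⁻ p, (∫⁻ o, ENNReal.ofReal |flc C χ θ (T j) p o - flc C χ θ T₀ p o| ∂C.μ) ∂PP := by
          refine lintegral_mono_ae ?_
          filter_upwards [i1, i2] with p h1 h2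
          unfold FluxC
          rw [← integral_sub h1 h2, ← Real.enorm_eq_ofReal_abs]
          refine (enorm_integral_le_lintegral_enorm _).trans (le_of_eq ?_)
          refine lintegral_congr fun o => ?_
          rw [Real.enorm_eq_ofReal_abs]
      _ = ∫⁻ o, D j o ∂C.μ := by
          rw [hD]
          exact (lintegral_lintegral_swap (f := fun o p =>
            ENNReal.ofReal |flc C χ θ (T j) p o - flc C χ θ T₀ p o|) (mflx j)).symm
  have hz : Tendsto (fun j => (∫⁻ o, D j o ∂C.μ).toReal) atTop (𝓝 0) := by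
    have h := (ENNReal.tendsto_toReal ENNReal.zero_ne_top).comp hlim
    rw [ENNReal.toReal_zero] at h
    exact h
  refine squeeze_zero (fun j => integral_nonneg fun p => abs_nonneg _) (fun j => ?_) hz
  have hfin : ∫⁻ o, D j o ∂C.μ ≠ ⊤ := by
    refine ne_top_of_le_ne_top ?_ (lintegral_mono_ae (hDb j))
    rw [lintegral_const]
    exact (ENNReal.mul_lt_top ENNReal.ofReal_lt_top (measure_lt_top _ _)).ne
  have hms : AEStronglyMeasurable (fun p => |FluxC C χ θ (T j) p - FluxC C χ θ T₀ p|) PP :=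
    ((fluxC_meas C hχ (hT j) hLθ).2.2.sub (fluxC_meas C hχ hT₀ hLθ).2.2).norm.aestronglyMeasurable
  rw [integral_eq_lintegral_of_nonneg_ae (Eventually.of_forall fun p => abs_nonneg _) hms]
  exact ENNReal.toReal_mono hfin (hle j)

end Pool.Agent.FPX
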