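import Mathlib
import Pool.Agent.FPX.KGM
import Pool.Agent.FPX.NLG

/-
DGH (helper69): two odd maps into the sphere which are never opposite have the same degree:
`jac v - jac F` is the differential of `⟨F × v, d(v + F)⟩ / (1 + ⟨v,F⟩)`.
-/

open MeasureTheory Set Filter Topology
open scoped ENNReal NNReal

noncomputable section

namespace Pool.Agent.FPX

open Pool.Agent.EWD

section
variable {v F a b c d : E3}

private theorem DGH_cross (hv : ‖v‖ = 1) (hF : ‖F‖ = 1) (ha : inner ℝ v a = (0 : ℝ))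
    (hd : inner ℝ F d = (0 : ℝ)) :
    (inner ℝ v (crs F d) : ℝ) * inner ℝ a F =
      (1 + inner ℝ v F) * (inner ℝ a (crs F d) - inner ℝ a (crs v d))
        + inner ℝ v d * inner ℝ a (crs v F) := by
  have h := congrArg (fun x : E3 => (inner ℝ a x : ℝ)) (crs_move hv hF hd)
  simp only [inner_add_right, inner_smul_right, inner_sub_right] at h
  rw [real_inner_comm v a, ha] at h
  linarith

private theorem DGH_par (hv : ‖v‖ = 1) (ha : inner ℝ v a = (0 : ℝ)) (hb : inner ℝ v b = (0 : ℝ))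
    (w : E3) : (inner ℝ w (crs a b) : ℝ) = inner ℝ v w * inner ℝ v (crs a b) := by
  have h1 : (inner ℝ v v : ℝ) = 1 := inner_self_one hv
  simp only [inner3, crs0, crs1, crs2] at *
  linear_combination (-(w 0 * (a 1 * b 2 - a 2 * b 1)) - w 1 * (a 2 * b 0 - a 0 * b 2)
    - w 2 * (a 0 * b 1 - a 1 * b 0)) * h1
    + ((w 0 * (v 1 * b 2 - v 2 * b 1) + w 1 * (v 2 * b 0 - v 0 * b 2)
    + w 2 * (v 0 * b 1 - v 1 * b 0))) * ha
    + (-(w 0 * (v 1 * a 2 - v 2 * a 1)) - w 1 * (v 2 * a 0 - v 0 * a 2)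
    - w 2 * (v 0 * a 1 - v 1 * a 0)) * hb

/-- the pointwise identity, multiplied by `(1 + z)²` -/
theorem DGH_point (hv : ‖v‖ = 1) (hF : ‖F‖ = 1) (ha : inner ℝ v a = (0 : ℝ))
    (hb : inner ℝ v b = (0 : ℝ)) (hc : inner ℝ F c = (0 : ℝ)) (hd : inner ℝ F d = (0 : ℝ)) :
    -((inner ℝ a F + inner ℝ v c) * inner ℝ (crs v F) (b + d)
        - (inner ℝ b F + inner ℝ v d) * inner ℝ (crs v F) (a + c))
      + (1 + inner ℝ v F) * (inner ℝ (crs a F) (b + d) + inner ℝ (crs v c) (b + d)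
        - inner ℝ (crs b F) (a + c) - inner ℝ (crs v d) (a + c))
      = -(1 + inner ℝ v F) ^ 2 * (inner ℝ v (crs a b) - inner ℝ F (crs c d) : ℝ) := by
  have k1 := DGH_cross hv hF ha hd
  have k2 := DGH_cross hv hF hb hc
  have k3 := DGH_par hv ha hb F
  have k4 := DGH_par hF hc hd v
  have k5 := DGH_par hv ha hb (crs (crs v F) F)
  have k6 := DGH_par hF hc hd (crs (crs v F) v)
  have e5 : (inner ℝ (crs (crs v F) F) (crs a b) : ℝ)
      = inner ℝ (crs v F) a * inner ℝ F b - inner ℝ F a * inner ℝ (crs v F) b := by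
    simp only [inner3, crs0, crs1, crs2]
    ring
  have e6 : (inner ℝ (crs (crs v F) v) (crs c d) : ℝ)
      = inner ℝ (crs v F) c * inner ℝ v d - inner ℝ v c * inner ℝ (crs v F) d := by
    simp only [inner3, crs0, crs1, crs2]
    ring
  have f5 : (inner ℝ v (crs (crs v F) F) : ℝ) = inner ℝ v F ^ 2 - 1 := by
    have h1 : (inner ℝ v v : ℝ) = 1 := inner_self_one hv
    have h2 : (inner ℝ F F : ℝ) = 1 := inner_self_one hF
    have : (inner ℝ v (crs (crs v F) F) : ℝ) = inner ℝ v F ^ 2 - inner ℝ v v * inner ℝ F F := by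
      simp only [inner3, crs0, crs1, crs2]
      ring
    rw [this, h1, h2, one_mul]
  have f6 : (inner ℝ F (crs (crs v F) v) : ℝ) = 1 - inner ℝ v F ^ 2 := by
    have h1 : (inner ℝ v v : ℝ) = 1 := inner_self_one hv
    have h2 : (inner ℝ F F : ℝ) = 1 := inner_self_one hF
    have : (inner ℝ F (crs (crs v F) v) : ℝ) = inner ℝ v v * inner ℝ F F - inner ℝ v F ^ 2 := by
      simp only [inner3, crs0, crs1, crs2]
      ring
    rw [this, h1, h2, one_mul]
  rw [e5, f5] at k5
  rw [e6, f6] at k6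
  have c1 : (inner ℝ a F : ℝ) = inner ℝ F a := real_inner_comm _ _
  have c2 : (inner ℝ b F : ℝ) = inner ℝ F b := real_inner_comm _ _
  have c3 : (inner ℝ F v : ℝ) = inner ℝ v F := real_inner_comm _ _
  have g1 : (inner ℝ (crs a F) (b + d) : ℝ) = -inner ℝ F (crs a b) + inner ℝ a (crs F d) := by
    simp only [inner3, crs0, crs1, crs2, PiLp.add_apply]
    ring
  have g2 : (inner ℝ (crs v c) (b + d) : ℝ) = inner ℝ b (crs v c) + inner ℝ v (crs c d) := by
    simp only [inner3, crs0, crs1, crs2, PiLp.add_apply]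
    ring
  have g3 : (inner ℝ (crs b F) (a + c) : ℝ) = inner ℝ F (crs a b) + inner ℝ b (crs F c) := by
    simp only [inner3, crs0, crs1, crs2, PiLp.add_apply]
    ring
  have g4 : (inner ℝ (crs v d) (a + c) : ℝ) = inner ℝ a (crs v d) - inner ℝ v (crs c d) := by
    simp only [inner3, crs0, crs1, crs2, PiLp.add_apply]
    ring
  have g5 : ∀ x : E3, (inner ℝ v (crs F x) : ℝ) = inner ℝ (crs v F) x := by
    intro x
    simp only [inner3, crs0, crs1, crs2]
    ring
  have g6 : (inner ℝ a (crs v F) : ℝ) = inner ℝ (crs v F) a := real_inner_comm _ _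
  have g7 : (inner ℝ b (crs v F) : ℝ) = inner ℝ (crs v F) b := real_inner_comm _ _
  rw [g5, g6, c1] at k1
  rw [g5, g7, c2] at k2
  rw [c3] at k4
  rw [g1, g2, g3, g4, inner_add_right, inner_add_right, c1, c2, k3, k4]
  linear_combination k5 + k6 - k1 + k2

end

variable {M : Type} [MetricSpace M] [CompactSpace M] {γ : ℝ → M} (C : Calc M γ)

private theorem DGH_zlip {v F : Fin 3 → M → ℝ} (hv : Sph γ v) (hF : Sph γ F) :
    Lip fun x => v 0 x * F 0 x + v 1 x * F 1 x + v 2 x * F 2 x :=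
  (((hv.lip 0).mul (hF.lip 0)).add ((hv.lip 1).mul (hF.lip 1))).add ((hv.lip 2).mul (hF.lip 2))

omit [MetricSpace M] [CompactSpace M] in
private theorem DGH_vv (v F : Fin 3 → M → ℝ) (x : M) :
    (inner ℝ (vv (n := 0) v x) (vv (n := 0) F x) : ℝ) = v 0 x * F 0 x + v 1 x * F 1 x + v 2 x * F 2 x := by
  rw [inner3]
  rfl

/-- the multiplier `1 / (1 + ⟨v,F⟩)` -/
def qz (v F : Fin 3 → M → ℝ) (x : M) : ℝ := 1 / (1 + inner ℝ (vv (n := 0) v x) (vv (n := 0) F x))

omit [CompactSpace M] in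
/-- the inner product of two maps is differentiable almost everywhere -/
theorem ae_inner_vF {v F : Fin 3 → M → ℝ} (hv : ∀ k, Lip (v k)) (hF : ∀ k, Lip (F k)) :
    ∀ᵐ o ∂C.μ,
      HasDerivAt (fun s => inner ℝ (vv (n := 0) v (C.px o s)) (vv (n := 0) F (C.px o s)))
        (inner ℝ (dx C v o) (at' C F o) + inner ℝ (at' C v o) (dx C F o) : ℝ) 0 ∧
      HasDerivAt (fun s => inner ℝ (vv (n := 0) v (C.py o s)) (vv (n := 0) F (C.py o s)))
        (inner ℝ (dy C v o) (at' C F o) + inner ℝ (at' C v o) (dy C F o) : ℝ) 0 := by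
  have h1 : ∀ᵐ o ∂C.μ, ∀ k, HasDerivAt (fun s => v k (C.px o s)) (C.gx (v k) o) 0 ∧
      HasDerivAt (fun s => v k (C.py o s)) (C.gy (v k) o) 0 :=
    ae_all_iff.mpr fun k => C.ae_has (hv k)
  have h2 : ∀ᵐ o ∂C.μ, ∀ k, HasDerivAt (fun s => F k (C.px o s)) (C.gx (F k) o) 0 ∧
      HasDerivAt (fun s => F k (C.py o s)) (C.gy (F k) o) 0 :=
    ae_all_iff.mpr fun k => C.ae_has (hF k)
  filter_upwards [h1, h2] with o k1 k2
  refine ⟨?_, ?_⟩
  · have h3 := (((k1 0).1.fun_mul (k2 0).1).fun_add ((k1 1).1.fun_mul (k2 1).1)).fun_add ((k1 2).1.fun_mul (k2 2).1)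
    have e : (fun s => (inner ℝ (vv (n := 0) v (C.px o s)) (vv (n := 0) F (C.px o s)) : ℝ))
        = fun s => v 0 (C.px o s) * F 0 (C.px o s) + v 1 (C.px o s) * F 1 (C.px o s)
          + v 2 (C.px o s) * F 2 (C.px o s) := funext fun s => DGH_vv v F _
    rw [e]
    refine h3.congr_deriv ?_
    rw [inner3, inner3]
    change _ = C.gx (v 0) o * F 0 (C.px o 0) + C.gx (v 1) o * F 1 (C.px o 0) + C.gx (v 2) o * F 2 (C.px o 0)
      + (v 0 (C.px o 0) * C.gx (F 0) o + v 1 (C.px o 0) * C.gx (F 1) o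
        + v 2 (C.px o 0) * C.gx (F 2) o)
    ring
  · have h3 := (((k1 0).2.fun_mul (k2 0).2).fun_add ((k1 1).2.fun_mul (k2 1).2)).fun_add ((k1 2).2.fun_mul (k2 2).2)
    have e : (fun s => (inner ℝ (vv (n := 0) v (C.py o s)) (vv (n := 0) F (C.py o s)) : ℝ))
        = fun s => v 0 (C.py o s) * F 0 (C.py o s) + v 1 (C.py o s) * F 1 (C.py o s)
          + v 2 (C.py o s) * F 2 (C.py o s) := funext fun s => DGH_vv v F _
    rw [e]
    refine h3.congr_deriv ?_
    rw [inner3, inner3, C.same o]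
    change _ = C.gy (v 0) o * F 0 (C.px o 0) + C.gy (v 1) o * F 1 (C.px o 0) + C.gy (v 2) o * F 2 (C.px o 0)
      + (v 0 (C.px o 0) * C.gy (F 0) o + v 1 (C.px o 0) * C.gy (F 1) o
        + v 2 (C.px o 0) * C.gy (F 2) o)
    ring

/-- `jac v - jac F` integrates to zero if `v` and `F` are never opposite -/
theorem jac_eq {v F : Fin 3 → M → ℝ} (hv : Sph γ v) (hF : Sph γ F)
    (hz : ∀ x, 0 < 1 + (inner ℝ (vv (n := 0) v x) (vv (n := 0) F x) : ℝ)) :
    ∫ o, Jac C v o ∂C.μ = ∫ o, Jac C F o ∂C.μ := by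
  have hzl : Lip fun x => 1 + (inner ℝ (vv (n := 0) v x) (vv (n := 0) F x) : ℝ) := by
    have h := (lip_const (M := M) 1).add (DGH_zlip hv hF)
    have e : (fun x => 1 + (inner ℝ (vv (n := 0) v x) (vv (n := 0) F x) : ℝ))
        = fun x => (1 : ℝ) + (v 0 x * F 0 x + v 1 x * F 1 x + v 2 x * F 2 x) :=
      funext fun x => by rw [DGH_vv]
    rw [e]
    exact h
  rcases isEmpty_or_nonempty M with hM | hM
  · have h0 : ∀ w : Fin 3 → M → ℝ, ∀ o, Jac C w o = 0 := fun w o => (hM.false (C.pt o)).elim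
    simp only [h0]
  obtain ⟨x₀, -, hx₀⟩ := isCompact_univ.exists_isMinOn (univ_nonempty (α := M)) hzl.cont.continuousOn
  set c : ℝ := 1 + (inner ℝ (vv (n := 0) v x₀) (vv (n := 0) F x₀) : ℝ) with hc
  have hc0 : 0 < c := hz x₀
  have hcx : ∀ x, c ≤ 1 + (inner ℝ (vv (n := 0) v x) (vv (n := 0) F x) : ℝ) := fun x =>
    hx₀ (mem_univ x)
  have hq : Lip (qz v F) := (lip_const (M := M) 1).div hzl hc0 hcx
  have hG : ∀ i, Lip fun x => v i x + F i x := fun i => (hv.lip i).add (hF.lip i)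
  have eq : EvenB γ (qz v F) := by
    intro t
    unfold qz
    rw [DGH_vv, DGH_vv]
    simp only [hv.odd _ t, hF.odd _ t]
    ring_nf
  have oG : ∀ i, OddB γ fun x => v i x + F i x := fun i t => by
    change v i (γ (t + Real.pi)) + F i (γ (t + Real.pi)) = -(v i (γ t) + F i (γ t))
    rw [hv.odd i t, hF.odd i t]
    ring
  have h := nlg C hq hv.lip hF.lip hG eq hv.odd hF.odd oG
  have key : ∀ᵐ o ∂C.μ, nlD C (qz v F) v F (fun i x => v i x + F i x) o = Jac C F o - Jac C v o := by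
    have h1 : ∀ᵐ o ∂C.μ, ∀ i, C.gx (fun x => v i x + F i x) o = C.gx (v i) o + C.gx (F i) o ∧
        C.gy (fun x => v i x + F i x) o = C.gy (v i) o + C.gy (F i) o :=
      ae_all_iff.mpr fun i => C.ae_add (hv.lip i) (hF.lip i)
    filter_upwards [h1, ae_inner_vF C hv.lip hF.lip, ae_perp C hv, ae_perp C hF] with o k1 k2 k3 k4
    have e1 : dx C (fun i x => v i x + F i x) o = dx C v o + dx C F o := by
      ext i
      fin_cases i
      · exact (k1 0).1
      · exact (k1 1).1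
      · exact (k1 2).1
    have e2 : dy C (fun i x => v i x + F i x) o = dy C v o + dy C F o := by
      ext i
      fin_cases i
      · exact (k1 0).2
      · exact (k1 1).2
      · exact (k1 2).2
    have hvn := norm_at (C := C) hv o
    have hFn := norm_at (C := C) hF o
    have hzo : 0 < 1 + (inner ℝ (at' C v o) (at' C F o) : ℝ) := hz (C.pt o)
    have e3 : C.gx (qz v F) o = -(inner ℝ (dx C v o) (at' C F o) + inner ℝ (at' C v o) (dx C F o))
        / (1 + inner ℝ (at' C v o) (at' C F o)) ^ 2 := by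
      have h5 := ((k2.1.const_add (1 : ℝ)).fun_inv hzo.ne').deriv
      have e : (fun s => qz v F (C.px o s)) = fun s => (1 + (inner ℝ (vv (n := 0) v (C.px o s))
          (vv (n := 0) F (C.px o s)) : ℝ))⁻¹ := funext fun s => by
        unfold qz
        rw [one_div]
      change deriv (fun s => qz v F (C.px o s)) 0 = _
      rw [e]
      exact h5
    have e4 : C.gy (qz v F) o = -(inner ℝ (dy C v o) (at' C F o) + inner ℝ (at' C v o) (dy C F o))
        / (1 + inner ℝ (at' C v o) (at' C F o)) ^ 2 := by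
      have hzo' : 1 + (inner ℝ (vv (n := 0) v (C.py o 0)) (vv (n := 0) F (C.py o 0)) : ℝ) ≠ 0 :=
        (hz _).ne'
      have h5 := ((k2.2.const_add (1 : ℝ)).fun_inv hzo').deriv
      have e : (fun s => qz v F (C.py o s)) = fun s => (1 + (inner ℝ (vv (n := 0) v (C.py o s))
          (vv (n := 0) F (C.py o s)) : ℝ))⁻¹ := funext fun s => by
        unfold qz
        rw [one_div]
      change deriv (fun s => qz v F (C.py o s)) 0 = _
      rw [e, h5, C.same o]
      rfl
    have e5 : qz v F (C.pt o) = 1 / (1 + inner ℝ (at' C v o) (at' C F o)) := rfl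
    have h6 := DGH_point hvn hFn k3.1 k3.2 k4.1 k4.2
    unfold nlD Jac
    rw [e1, e2, e3, e4, e5]
    set z1 : ℝ := 1 + inner ℝ (at' C v o) (at' C F o) with hz1
    have h7 : crs (at' C v o) (at' C F o) = crs (at' C v o) (at' C F o) := rfl
    field_simp
    linear_combination h6
  have h2 := h.2
  rw [integral_congr_ae key, integral_sub (Jac_int C hF.lip) (Jac_int C hv.lip)] at h2
  linarith

omit [CompactSpace M] in
theorem jac_neg (v : Fin 3 → M → ℝ) (o : Om) : jac C v o = -Jac C v o := by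
  unfold jac Jac
  simp only [inner3, crs0, crs1, crs2]
  ring

/-- the version for `jac` -/
theorem jac_eq_jac {v F : Fin 3 → M → ℝ} (hv : Sph γ v) (hF : Sph γ F)
    (hz : ∀ x, 0 < 1 + (inner ℝ (vv (n := 0) v x) (vv (n := 0) F x) : ℝ)) :
    ∫ o, jac C v o ∂C.μ = ∫ o, jac C F o ∂C.μ := by
  simp only [jac_neg, integral_neg]
  rw [jac_eq C hv hF hz]

end Pool.Agent.FPX
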