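import Mathlib
import Pool.Agent.FPX.CEP
import Pool.Agent.FPX.CEG
import Pool.Agent.FPX.OMZ

/-
DZT (helper73): the coefficient functions of the data `DatZ` of CEG (helper11), class of forms with `C₃`, `C₅`, `S₄`
(`CertZ` of OMZ, helper8) and start map `xi14` (XIS, helper22): regularity, boundary conditions, radial functions of the
start map.
-/

open MeasureTheory Set Filter Topology

noncomputable section

namespace Pool.Agent.FPX.DZT

open Pool.Agent.FPX.BTQ
open Pool.Agent.FPX.CEL (hat pln pd Dat DatH DatZ)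
open Pool.Agent.FPX.CEP
open Pool.Agent.FPX.XIM (Rad rad_of_cont)
open Pool.Agent.FPX.BTI (kap dkap)
open Pool.Agent.FPX.BU (mup dmup)

/-! ### the forms -/

theorem sm9 (D : DatH) : D.cof9.Sm :=
  ⟨⟨cd_hat _, cd_hat _, cd_hat _, cd_pln _, cd_pln _, cd_hat _, cd_pln _⟩, cd_hat _, cd_hat _, cd_pln _, cd_pln _⟩

theorem bo9 (D : DatH) : D.cof9.Bo :=
  ⟨⟨td_hat _, td_hat _, td_hat _, td_pln _, td_pln _, td_hat _, td_pln _⟩, td_hat _, td_hat _, td_pln _, td_pln _⟩

theorem smH (D : DatH) : D.cofH.Sm := ⟨sm9 D, cd_hat _, cd_pln _⟩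

theorem boH (D : DatH) : D.cofH.Bo := ⟨bo9 D, td_hat _, td_pln _⟩

/-- **the coefficient functions are regular** -/
theorem smZ (D : DatZ) : D.cofZ.Sm := ⟨smH _, cd_hat _, cd_hat _⟩

/-- **the coefficient functions satisfy the conditions at the boundary** -/
theorem boZ (D : DatZ) : D.cofZ.Bo := ⟨boH _, td_hat _, td_hat _⟩

/-! ### the start map -/

theorem pe_kf {n : ℕ} (K : Fin n → List ℚ) : (fun j c => pe (K j) c) = PCO.kf K := by
  funext j c
  exact (PCO.pe_eq _ _).symm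

theorem pe_kf' {n : ℕ} (K : Fin n → List ℚ) : (fun j c => pe (pd (K j)) c) = PCO.kf' K := by
  funext j c
  have h1 : HasDerivAt (pe (K j)) (pe (pd (K j)) c) c := CEL.hasDerivAt_pe _ _
  have e : pe (K j) = PCO.pe (K j) := funext fun c => (PCO.pe_eq _ c).symm
  rw [e] at h1
  exact h1.unique (PCO.hasDerivAt_pe _ _)

theorem kk_eq (D : Dat) : D.kk = PCO.kf D.k := pe_kf D.k

theorem kk'_eq (D : Dat) : D.kk' = PCO.kf' D.k := pe_kf' D.k

theorem nn_eq (D : DatZ) : D.nn = PCO.kf D.n := pe_kf D.n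

theorem nn'_eq (D : DatZ) : D.nn' = PCO.kf' D.n := pe_kf' D.n

theorem mm_eq (D : DatZ) : D.mm = PCO.kf D.m := pe_kf D.m

theorem mm'_eq (D : DatZ) : D.mm' = PCO.kf' D.m := pe_kf' D.m

/-- the radial functions of the terms of `xi8` -/
theorem rad8 (D : DatZ) : ∃ G G' : Fin 8 → ℝ, ∀ j, Rad (kap D.kk j) (dkap D.kk D.kk' j) (G j) (G' j) :=
  CEP.rad D.toDat

/-- the radial functions of the terms of `xi12` -/
theorem rad4 (D : DatZ) : ∃ G G' : Fin 4 → ℝ, ∀ j, Rad (mup D.nn j) (dmup D.nn D.nn' j) (G j) (G' j) := by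
  rw [nn_eq, nn'_eq]
  exact PCO.rad_mup D.n

/-- the radial functions of the terms of `xi14` -/
theorem rad2 (D : DatZ) : ∃ G G' : Fin 2 → ℝ, ∀ j, Rad (D.mm j) (D.mm' j) (G j) (G' j) := by
  have h : ∀ j, ∃ G G', Rad (D.mm j) (D.mm' j) G G' := fun j =>
    rad_of_cont (fun c => CEL.hasDerivAt_pe _ c) (cont_pe _)
  choose G G' H using h
  exact ⟨G, G', H⟩

end Pool.Agent.FPX.DZT
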