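import Mathlib
import Pool.Agent.FPX.XIR

/-
OMHR (helper73): the rotation of the certificate `CertH` of OMH to the states with `ζ = X1 f ≥ 0`.
-/

open MeasureTheory Set Filter Topology Complex
open scoped ENNReal NNReal ContDiff ComplexConjugate

noncomputable section

namespace Pool.Agent.FPX.OM7

open Pool.Agent.FPX Pool.Agent.FPX.UMP Pool.Agent.FPX.UMQ Pool.Agent.FPX.UXA Pool.Agent.EWD
open Pool.Agent.FPX.F54 (X1 X2 X_lt sF)
open Pool.Agent.FPX.S54 (mS ME YY de Sn)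
open Pool.Agent.FPX.OMB (vm vm_int vm_prob bm_ep bm_real)
open Pool.Agent.FPX.OMS (rF cF cF_eq ME_vm)
open Pool.Agent.FPX.SYS (CE)
open Pool.Agent.FPX.CERQ (ep_per)
open Pool.Agent.FPX.OMG
open Pool.Agent.FPX.XIP (rot_e3 rot_cp5 rot_cm5)

namespace Rot

variable {f f' : ℝ → ℝ} {φ r : ℝ} {u : ℂ}

/-- the kernel of the form in `|C₅|²`, rotated -/
theorem mknr (R : Rot f f' φ r u) (F : CofH) (t : ℝ) : mkN F f (t + φ) = conj u * mkN F f' t := by
  have e : conj (u ^ 5 * CE 5 f') * (u * C54.ep (X1 f') (X2 f') t) ^ 5 =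
      conj (CE 5 f') * C54.ep (X1 f') (X2 f') t ^ 5 := by
    have h : u ^ 5 * conj u ^ 5 = 1 := by rw [← mul_pow, R.uu, one_pow]
    simp only [map_mul, map_pow]
    linear_combination (conj (CE 5 f') * C54.ep (X1 f') (X2 f') t ^ 5) * h
  unfold mkN
  rw [R.ee, R.ze, R.rr, R.ce 5, e, map_mul]
  ring

theorem mkhr (R : Rot f f' φ r u) (F : CofH) (t : ℝ) : mkH F f (t + φ) = conj u * mkH F f' t := by
  unfold mkH
  rw [R.mk9r, R.mknr, mul_add]

theorem mhper (R : Rot f f' φ r u) (F : CofH) (t : ℝ) : mkH F f (t + 2 * Real.pi) = mkH F f t := by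
  unfold mkH mkN
  rw [R.m9per, ep_per]

theorem wn (R : Rot f f' φ r u) (F : CofH) : WN F f = WN F f' := by
  have h6 : conj u ^ 6 * u ^ 6 = 1 := by rw [← mul_pow, R.cu, one_pow]
  have h5 : conj u ^ 5 * u ^ 5 = 1 := by rw [← mul_pow, R.cu, one_pow]
  have q1 : conj (u * YY (X1 f') (X2 f')) * (conj (u ^ 5 * CE 5 f') * (u ^ 6 * D7 f')) =
      conj (YY (X1 f') (X2 f')) * (conj (CE 5 f') * D7 f') := by
    simp only [map_mul, map_pow]
    linear_combination (conj (YY (X1 f') (X2 f')) * (conj (CE 5 f') * D7 f')) * h6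
  have q2 : u * YY (X1 f') (X2 f') * (conj (u ^ 5 * CE 5 f') * (u ^ 4 * E3 f')) =
      YY (X1 f') (X2 f') * (conj (CE 5 f') * E3 f') := by
    simp only [map_mul, map_pow]
    linear_combination (YY (X1 f') (X2 f') * (conj (CE 5 f') * E3 f')) * h5
  unfold WN
  rw [R.rr, R.cc, R.ze, R.ce 5, R.d7, rot_e3 R, R.ns, q1, q2]

theorem wh (R : Rot f f' φ r u) (W : ℝ → ℝ) (F : CofH) : WH W F f = WH W F f' := by
  unfold WH
  rw [R.w9, R.wn]

theorem bb5 (R : Rot f f' φ r u) (b : ℝ → ℝ) (A B N M : ℂ) :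
    bv5 b f (u * A) (u * B) (u ^ 5 * N) (u ^ 5 * M) = bv5 b f' A B N M := by
  unfold bv5
  rw [R.nn1, R.nn1, R.nn, R.nn, R.ce 5, R.ns, R.rr, R.cc, R.ze]
  have hc := R.cu
  have h5 : conj u ^ 5 * u ^ 5 = 1 := by rw [← mul_pow, R.cu, one_pow]
  have e1 : (conj (u * YY (X1 f') (X2 f')) * (u * A) + u * YY (X1 f') (X2 f') * conj (u * B)) =
      conj (YY (X1 f') (X2 f')) * A + YY (X1 f') (X2 f') * conj B := by
    simp only [map_mul]
    linear_combination (conj (YY (X1 f') (X2 f')) * A + YY (X1 f') (X2 f') * conj B) * hc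
  have e2 : (u ^ 5 * CE 5 f' * conj (u ^ 5 * N) - conj (u ^ 5 * CE 5 f') * (u ^ 5 * M)) =
      CE 5 f' * conj N - conj (CE 5 f') * M := by
    simp only [map_mul, map_pow]
    linear_combination (CE 5 f' * conj N - conj (CE 5 f') * M) * h5
  rw [e1, e2]

/-- the rotated certificate -/
theorem certH (R : Rot f f' φ r u) {Bk : DevK} (HR : RotK Bk) {W : ℝ → ℝ} {F : CofH} {μ T : ℝ}
    (H : CertAtH Bk W F μ T f') : CertAtH Bk W F μ T f := by
  intro K hK hK1 A B hA hB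
  have hcu := R.cu
  have huc := R.uu
  have hK' : Measurable fun t => pe K (t + φ) := (pe_meas hK).comp (measurable_id.add_const φ)
  have hK1' : ∀ t, ‖pe K (t + φ)‖ ≤ 1 := fun t => hK1 _
  obtain ⟨A', eA⟩ : ∃ A', A = u * A' := ⟨conj u * A, by rw [← mul_assoc, huc, one_mul]⟩
  obtain ⟨B', eB⟩ : ∃ B', B = u * B' := ⟨conj u * B, by rw [← mul_assoc, huc, one_mul]⟩
  have g3 : ∀ t, C54.ep (X1 f) (X2 f) (t + 2 * Real.pi) ^ 3 = C54.ep (X1 f) (X2 f) t ^ 3 := fun t => by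
    rw [ep_per]
  have g3' : ∀ t, C54.ep (X1 f) (X2 f) (t + φ) ^ 3 = u ^ 3 * C54.ep (X1 f') (X2 f') t ^ 3 := fun t => by
    rw [R.ee, mul_pow]
  have g5 : ∀ t, C54.ep (X1 f) (X2 f) (t + 2 * Real.pi) ^ 5 = C54.ep (X1 f) (X2 f) t ^ 5 := fun t => by
    rw [ep_per]
  have g5' : ∀ t, C54.ep (X1 f) (X2 f) (t + φ) ^ 5 = u ^ 5 * C54.ep (X1 f') (X2 f') t ^ 5 := fun t => by
    rw [R.ee, mul_pow]
  rw [R.itc (G := fun t => C54.ep (X1 f) (X2 f) t) (ep_per _ _) R.ee] at hA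
  rw [R.it (G := fun t => C54.ep (X1 f) (X2 f) t) (ep_per _ _) R.ee] at hB
  have hu0 : u ≠ 0 := fun h => by rw [h, zero_mul] at huc; exact zero_ne_one huc
  have a1 : A' - sF f' * conj B' = ∫ t, C54.ep (X1 f') (X2 f') t * conj (pe K (t + φ)) ∂(vm (X1 f') (X2 f')) := by
    refine mul_left_cancel₀ hu0 ?_
    rw [← hA, R.sf, eA, eB]
    simp only [map_mul]
    linear_combination (u * sF f' * conj B') * huc
  have a2 : B' - sF f' * conj A' = ∫ t, C54.ep (X1 f') (X2 f') t * pe K (t + φ) ∂(vm (X1 f') (X2 f')) := by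
    refine mul_left_cancel₀ hu0 ?_
    rw [← hB, R.sf, eA, eB]
    simp only [map_mul]
    linear_combination (u * sF f' * conj A') * huc
  have key := H (fun t => pe K (t + φ)) hK' hK1' A' B' a1 a2
  rw [← HR f f' φ r u R K hK hK1 A' B'] at key
  rw [eA, eB, R.it (G := mkH F f) (R.mhper F) (R.mkhr F), R.itc (G := mkH F f) (R.mhper F) (R.mkhr F),
    R.itc (G := fun t => C54.ep (X1 f) (X2 f) t ^ 3) g3 g3', R.it (G := fun t => C54.ep (X1 f) (X2 f) t ^ 3) g3 g3',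
    R.itc (G := fun t => C54.ep (X1 f) (X2 f) t ^ 5) g5 g5', R.it (G := fun t => C54.ep (X1 f) (X2 f) t ^ 5) g5 g5',
    R.cp, R.cm, R.bb, rot_cp5 R, rot_cm5 R, R.bb5, R.nn1, R.nn1, R.wh]
  have r1 : ∀ a z : ℂ, u * a * (conj u * z) = a * z := fun a z => by
    linear_combination (a * z) * hcu
  rw [r1, r1]
  exact key

end Rot

/-- **the certificate `CertH` holds if it holds for the states with `ζ ≥ 0`** -/
theorem certH_of_real {Bk : DevK} (HR : RotK Bk) {W : ℝ → ℝ} {F : CofH} {μ T : ℝ}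
    (H : ∀ f, Ef f → 0 ≤ X1 f → X2 f = 0 → CertAtH Bk W F μ T f) : CertH Bk W F μ T := by
  intro f hf
  obtain ⟨f', φ, r, u, R⟩ := exists_Rot hf
  exact R.certH HR (H f' R.hf' (by rw [R.x1]; exact R.r0) R.x2)

end Pool.Agent.FPX.OM7
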