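import Mathlib
import Pool.Agent.FPX.OMHR

/-
FSR (helper73): start maps and certificates at the states with `ζ = X1 f ≥ 0`: `SMap` (the system of the
coordinates, `IsDevK`, rotation covariance of the deviation `Bk`), `CertR`, `BdR` (certificate and bound of the
deviation at these states only) give the certificate and the bound at all states. Instances: the stereographic maps
of `xi8 (kap k)` and of `xi12 (kap k) (mup n)`, admissibility (`DispS`) from a size condition at these states.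
-/

open MeasureTheory Set Filter Topology Complex
open scoped ENNReal NNReal ContDiff ComplexConjugate

noncomputable section

namespace Pool.Agent.FPX.FST

open Pool.Agent.FPX Pool.Agent.FPX.UMP Pool.Agent.FPX.UMQ Pool.Agent.FPX.UXA Pool.Agent.EWD
open Pool.Agent.FPX.F54 (X1 X2 sF)
open Pool.Agent.FPX.S54 (YY)
open Pool.Agent.FPX.OMB (vm)
open Pool.Agent.FPX.OMS (cF cF_eq)
open Pool.Agent.FPX.CST (Sys)
open Pool.Agent.FPX.OMR (Re)
open Pool.Agent.FPX.OM7 (Rot RotK RotDev exists_Rot pe pe_meas rotK_devK devK)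
open Pool.Agent.FPX.OMG (DevK IsDevK Cof9 CofH CertAt9 CertAtH CertH certH_of_9 isDevK_of)
open Pool.Agent.FPX.XIM (Rad xi8 dxi8 xi12 dxi12 DispS St1 St2 dSt1 dSt2 mo_xi8 mo_xi12 xi8_neg xi12_neg)
open Pool.Agent.FPX.XIP (B8 Bk12 isDev_xi8 isDevK_xi12 rotDev_B8 rotK_B12 rot_xi8 rot_xi12)
open Pool.Agent.FPX.BTI (kap dkap)
open Pool.Agent.FPX.BU (mup dmup)

/-! ### any start map -/

/-- a start map with the deviation `Bk` -/
structure SMap {n : ℕ} (Φ : Fin (n + 2) → (ℝ → ℝ) → ℝ) (dΦ : Fin (n + 2) → (ℝ → ℝ) → (ℝ → ℝ) → ℝ)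
    (Bk : DevK) : Prop where
  sys : ∃ K L : ℝ, Sys Φ dΦ K L
  dev : IsDevK Φ dΦ Bk
  rot : RotK Bk

/-- the certificate at the states with `ζ ≥ 0` -/
def CertR (Bk : DevK) (W : ℝ → ℝ) (F : CofH) (μ T : ℝ) : Prop := ∀ f, Re f → CertAtH Bk W F μ T f

/-- the bound of the deviation at the states with `ζ ≥ 0` -/
def BdR (Bk : DevK) (N : ℝ) : Prop :=
  ∀ f, Re f → ∀ K : ℝ → ℂ, Measurable K → (∀ t, ‖K t‖ ≤ 1) → ∀ A B : ℂ,
    A - sF f * conj B = ∫ t, C54.ep (X1 f) (X2 f) t * conj (K t) ∂(vm (X1 f) (X2 f)) →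
    B - sF f * conj A = ∫ t, C54.ep (X1 f) (X2 f) t * K t ∂(vm (X1 f) (X2 f)) → ‖Bk f K A B‖ ≤ N

section gen

variable {n : ℕ} {Φ : Fin (n + 2) → (ℝ → ℝ) → ℝ} {dΦ : Fin (n + 2) → (ℝ → ℝ) → (ℝ → ℝ) → ℝ} {Bk : DevK}

theorem CertR.certH (HR : RotK Bk) {W : ℝ → ℝ} {F : CofH} {μ T : ℝ} (H : CertR Bk W F μ T) :
    CertH Bk W F μ T := OM7.certH_of_real HR fun f hf h0 h2 => H f ⟨hf, h0, h2⟩

/-- the class of OMG -/
theorem certR_of_9 {W : ℝ → ℝ} {F : Cof9} {μ T : ℝ} (HR : RotK Bk) (H : ∀ f, Re f → CertAt9 Bk W F μ T f) :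
    CertR Bk W ⟨F, fun _ => 0, fun _ => 0⟩ μ T := fun f hf =>
  certH_of_9 (OM7.cert9_of_real HR fun f hf h0 h2 => H f ⟨hf, h0, h2⟩) f hf.hf

/-- the bound at all the states -/
theorem BdR.all (HR : RotK Bk) {N : ℝ} (H : BdR Bk N) : ∀ f, Ef f → ∀ K : ℝ → ℂ, Measurable K →
    (∀ t, ‖K t‖ ≤ 1) → ∀ A B : ℂ,
    A - sF f * conj B = ∫ t, C54.ep (X1 f) (X2 f) t * conj (K t) ∂(vm (X1 f) (X2 f)) →
    B - sF f * conj A = ∫ t, C54.ep (X1 f) (X2 f) t * K t ∂(vm (X1 f) (X2 f)) → ‖Bk f K A B‖ ≤ N := by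
  intro f hf K hK hK1 A B hA hB
  obtain ⟨f', φ, r, u, R⟩ := exists_Rot hf
  have huc := R.uu
  have hK' : Measurable fun t => pe K (t + φ) := (pe_meas hK).comp (measurable_id.add_const φ)
  have hK1' : ∀ t, ‖pe K (t + φ)‖ ≤ 1 := fun t => hK1 _
  obtain ⟨A', eA⟩ : ∃ A', A = u * A' := ⟨conj u * A, by rw [← mul_assoc, huc, one_mul]⟩
  obtain ⟨B', eB⟩ : ∃ B', B = u * B' := ⟨conj u * B, by rw [← mul_assoc, huc, one_mul]⟩
  rw [R.itc (G := fun t => C54.ep (X1 f) (X2 f) t) (CERQ.ep_per _ _) R.ee] at hA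
  rw [R.it (G := fun t => C54.ep (X1 f) (X2 f) t) (CERQ.ep_per _ _) R.ee] at hB
  have hu0 : u ≠ 0 := fun h => by rw [h, zero_mul] at huc; exact zero_ne_one huc
  have a1 : A' - sF f' * conj B' = ∫ t, C54.ep (X1 f') (X2 f') t * conj (pe K (t + φ)) ∂(vm (X1 f') (X2 f')) := by
    refine mul_left_cancel₀ hu0 ?_
    rw [← hA, R.sf, eA, eB]
    simp only [map_mul]
    linear_combination (u * sF f' * conj B') * huc
  have a2 : B' - sF f' * conj A' = ∫ t, C54.ep (X1 f') (X2 f') t * pe K (t + φ) ∂(vm (X1 f') (X2 f')) := by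
    refine mul_left_cancel₀ hu0 ?_
    rw [← hB, R.sf, eA, eB]
    simp only [map_mul]
    linear_combination (u * sF f' * conj A') * huc
  have key := H f' ⟨R.hf', by rw [R.x1]; exact R.r0, R.x2⟩ _ hK' hK1' A' B' a1 a2
  rw [← HR f f' φ r u R K hK hK1 A' B', ← eA, ← eB] at key
  exact key

end gen

/-! ### admissible displacements -/

/-- the size condition at one state: `|ξ| ≤ a c`, `a s + a² c² / 4 < 1` -/
def Sz (ξ : (ℝ → ℝ) → ℂ) (f : ℝ → ℝ) : Prop :=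
  ∃ a : ℝ, ‖ξ f‖ ≤ a * cF f ∧ a * X1 f + a ^ 2 * cF f ^ 2 / 4 < 1

/-- the condition `pos` of `DispS` from the states with `ζ ≥ 0` -/
theorem pos_real {ξ : (ℝ → ℝ) → ℂ} (hrot : ∀ (f f' : ℝ → ℝ) (φ r : ℝ) (u : ℂ), Rot f f' φ r u → ξ f = u * ξ f')
    (H : ∀ f, Re f → Sz ξ f) : ∀ f, Ef f →
    (conj (YY (X1 f) (X2 f)) * ξ f).re < S54.cc (X1 f) (X2 f) * (1 - ‖ξ f‖ ^ 2 / 4) := by
  intro f hf
  obtain ⟨f', φ, r, u, R⟩ := exists_Rot hf
  have R0 : Re f' := ⟨R.hf', by rw [R.x1]; exact R.r0, R.x2⟩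
  obtain ⟨a, h1, h2⟩ := H f' R0
  have hc : 0 < cF f' := OM7.cF_pos R.hf'
  have e1 : conj (YY (X1 f) (X2 f)) * ξ f = ((X1 f' : ℝ) : ℂ) * ξ f' := by
    rw [R.ze, hrot f f' φ r u R, map_mul]
    have : conj (YY (X1 f') (X2 f')) = ((X1 f' : ℝ) : ℂ) := by
      rw [R0.h2]
      apply Complex.ext <;> simp [YY]
    rw [this]
    linear_combination ((X1 f' : ℝ) : ℂ) * ξ f' * R.cu
  have e2 : S54.cc (X1 f) (X2 f) = cF f' := by rw [cF_eq, R.cc]
  rw [e1, e2, hrot f f' φ r u R, R.nn1, Complex.re_ofReal_mul]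
  have h3 : (ξ f').re ≤ a * cF f' := (Complex.re_le_norm _).trans h1
  have h4 := mul_le_mul_of_nonneg_left h3 R0.h0
  have h5 : ‖ξ f'‖ ^ 2 ≤ (a * cF f') ^ 2 := pow_le_pow_left₀ (norm_nonneg _) h1 2
  have h6 := mul_lt_mul_of_pos_left h2 hc
  nlinarith [mul_le_mul_of_nonneg_left h5 hc.le]

section eight

variable {k k' : Fin 8 → ℝ → ℝ}

/-- **`xi8` is admissible from the size at the states with `ζ ≥ 0`** -/
theorem dispS8 {G G' : Fin 8 → ℝ} (Hk : ∀ j, Rad (kap k j) (dkap k k' j) (G j) (G' j))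
    (H : ∀ f, Re f → Sz (xi8 (kap k)) f) : ∃ A B, DispS (xi8 (kap k)) (dxi8 (kap k) (dkap k k')) A B := by
  obtain ⟨A, B, M⟩ := mo_xi8 Hk
  exact ⟨A, B, { M with
    neg := fun f hf => xi8_neg _ hf
    pos := pos_real (fun f f' φ r u R => rot_xi8 R _) H }⟩

/-- **the stereographic start map of `xi8`** -/
theorem smap8 {A B : ℝ} (DS : DispS (xi8 (kap k)) (dxi8 (kap k) (dkap k k')) A B) :
    SMap (n := 0) ![St1 (xi8 (kap k)), St2 (xi8 (kap k))]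
      ![dSt1 (xi8 (kap k)) (dxi8 (kap k) (dkap k k')), dSt2 (xi8 (kap k)) (dxi8 (kap k) (dkap k k'))]
      (devK (B8 (kap k) (dkap k k'))) where
  sys := ⟨_, _, DS.sys⟩
  dev := isDevK_of (isDev_xi8 DS)
  rot := rotK_devK (rotDev_B8 _ _)

end eight

section twelve

variable {k k' : Fin 8 → ℝ → ℝ} {m m' : Fin 4 → ℝ → ℝ}

/-- **`xi12` is admissible from the size at the states with `ζ ≥ 0`** -/
theorem dispS12 {G G' : Fin 8 → ℝ} {E E' : Fin 4 → ℝ} (Hk : ∀ j, Rad (kap k j) (dkap k k' j) (G j) (G' j))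
    (Hm : ∀ j, Rad (mup m j) (dmup m m' j) (E j) (E' j)) (H : ∀ f, Re f → Sz (xi12 (kap k) (mup m)) f) :
    ∃ A B, DispS (xi12 (kap k) (mup m)) (dxi12 (kap k) (dkap k k') (mup m) (dmup m m')) A B := by
  obtain ⟨A, B, M⟩ := mo_xi12 Hk Hm
  exact ⟨A, B, { M with
    neg := fun f hf => xi12_neg _ _ hf
    pos := pos_real (fun f f' φ r u R => rot_xi12 R _ _) H }⟩

/-- **the stereographic start map of `xi12`** -/
theorem smap12 {A B : ℝ} (DS : DispS (xi12 (kap k) (mup m)) (dxi12 (kap k) (dkap k k') (mup m) (dmup m m')) A B) :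
    SMap (n := 0) ![St1 (xi12 (kap k) (mup m)), St2 (xi12 (kap k) (mup m))]
      ![dSt1 (xi12 (kap k) (mup m)) (dxi12 (kap k) (dkap k k') (mup m) (dmup m m')),
        dSt2 (xi12 (kap k) (mup m)) (dxi12 (kap k) (dkap k k') (mup m) (dmup m m'))]
      (Bk12 (kap k) (dkap k k') (mup m) (dmup m m')) where
  sys := ⟨_, _, DS.sys⟩
  dev := isDevK_xi12 DS
  rot := rotK_B12 _ _ _ _

end twelve

end Pool.Agent.FPX.FST
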