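import Mathlib
import Pool.Agent.FPX.XSP
import Pool.Agent.FPX.OMH

/-
XSQ (helper11): the class of forms with `C₅` (OMG, OMH) as input of the start map: `Raw`, `RawP` from
certificates `Cert9`, `CertH`.
-/

open MeasureTheory Set Filter Topology Complex
open scoped ENNReal NNReal ComplexConjugate ContDiff

noncomputable section

namespace Pool.Agent.FPX.OMG

open Pool.Agent.FPX Pool.Agent.FPX.UMP Pool.Agent.FPX.UMQ Pool.Agent.FPX.UXA Pool.Agent.EWD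
open Pool.Agent.FPX.CST (Sys gv gt lab nu cu du)
open Pool.Agent.FPX.XCO (Raw RawP psi2 psi2_fam psi2_cont)

variable {n' : ℕ} {Φ' : Fin (n' + 2) → (ℝ → ℝ) → ℝ} {dΦ' : Fin (n' + 2) → (ℝ → ℝ) → (ℝ → ℝ) → ℝ} {K' L' : ℝ}
variable {Bk : DevK} {W : ℝ → ℝ}

theorem Cof9.Sm.toH {F : Cof9} (H : F.Sm) : CofH.Sm ⟨F, fun _ => 0, fun _ => 0⟩ :=
  ⟨H, contDiffOn_const, contDiffOn_const⟩

theorem Cof9.Bo.toH {F : Cof9} (H : F.Bo) : CofH.Bo ⟨F, fun _ => 0, fun _ => 0⟩ :=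
  ⟨H, by simp, by simp⟩

/-- `Raw` from one certificate -/
theorem raw9_Raw (S' : Sys Φ' dΦ' K' L') (HD : IsDevK Φ' dΦ' Bk) {F : Cof9}
    (hW : ContDiffOn ℝ 1 W (Ioi 0)) (hW0 : ContinuousOn W (Ici 0)) (HF : F.Sm) (HB : F.Bo) {μ T : ℝ}
    (H : Cert9 Bk W F μ T) : Raw Φ' μ (W 0) T := fun _ he => raw9 S' HD hW hW0 HF HB H he

/-- `Raw` from one certificate -/
theorem rawH_Raw (S' : Sys Φ' dΦ' K' L') (HD : IsDevK Φ' dΦ' Bk) {F : CofH}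
    (hW : ContDiffOn ℝ 1 W (Ioi 0)) (hW0 : ContinuousOn W (Ici 0)) (HF : F.Sm) (HB : F.Bo) {μ T : ℝ}
    (H : CertH Bk W F μ T) : Raw Φ' μ (W 0) T := fun _ he => rawH S' HD hW hW0 HF HB H he

/-- **a family of certificates with the same form gives the inequality with `ψ(ν)`** -/
theorem rawHP (S' : Sys Φ' dΦ' K' L') (HD : IsDevK Φ' dΦ' Bk) {F : CofH}
    (hW : ContDiffOn ℝ 1 W (Ioi 0)) (hW0 : ContinuousOn W (Ici 0)) (HF : F.Sm) (HB : F.Bo) {ι : Type}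
    {μ Ti : ι → ℝ} (H : ∀ i, CertH Bk W F (μ i) (Ti i)) {ψ : ℝ → ℝ} (hψ : Continuous ψ)
    {T : ℝ} (h : ∀ x, 0 ≤ x → ∃ i, ψ x ≤ μ i * x + (T - Ti i)) : RawP Φ' ψ (W 0) T := fun _ he =>
  rawH_phi S' HD hW hW0 HF HB H hψ h he

/-- two certificates -/
theorem rawHP2 (S' : Sys Φ' dΦ' K' L') (HD : IsDevK Φ' dΦ' Bk) {F : CofH}
    (hW : ContDiffOn ℝ 1 W (Ioi 0)) (hW0 : ContinuousOn W (Ici 0)) (HF : F.Sm) (HB : F.Bo)
    {μ μ₂ t T : ℝ} (H : CertH Bk W F μ T) (H2 : CertH Bk W F μ₂ (T + t)) :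
    RawP Φ' (psi2 μ μ₂ t) (W 0) T :=
  rawHP S' HD hW hW0 HF HB (ι := Bool) (μ := fun i => if i then μ₂ else μ)
    (Ti := fun i => if i then T + t else T)
    (fun i => by cases i <;> simpa) (psi2_cont _ _ _) fun x _ => psi2_fam x

/-- the same for `Cert9` -/
theorem raw9P (S' : Sys Φ' dΦ' K' L') (HD : IsDevK Φ' dΦ' Bk) {F : Cof9}
    (hW : ContDiffOn ℝ 1 W (Ioi 0)) (hW0 : ContinuousOn W (Ici 0)) (HF : F.Sm) (HB : F.Bo) {ι : Type}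
    {μ Ti : ι → ℝ} (H : ∀ i, Cert9 Bk W F (μ i) (Ti i)) {ψ : ℝ → ℝ} (hψ : Continuous ψ)
    {T : ℝ} (h : ∀ x, 0 ≤ x → ∃ i, ψ x ≤ μ i * x + (T - Ti i)) : RawP Φ' ψ (W 0) T :=
  rawHP S' HD hW hW0 HF.toH HB.toH (fun i => certH_of_9 (H i)) hψ h

/-- two certificates `Cert9` -/
theorem raw9P2 (S' : Sys Φ' dΦ' K' L') (HD : IsDevK Φ' dΦ' Bk) {F : Cof9}
    (hW : ContDiffOn ℝ 1 W (Ioi 0)) (hW0 : ContinuousOn W (Ici 0)) (HF : F.Sm) (HB : F.Bo)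
    {μ μ₂ t T : ℝ} (H : Cert9 Bk W F μ T) (H2 : Cert9 Bk W F μ₂ (T + t)) :
    RawP Φ' (psi2 μ μ₂ t) (W 0) T :=
  rawHP2 S' HD hW hW0 HF.toH HB.toH (certH_of_9 H) (certH_of_9 H2)

end Pool.Agent.FPX.OMG
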