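import Mathlib
import Pool.Agent.FPX.ASI
import Pool.Agent.FPX.XSQ
import Pool.Agent.FPX.XSE
import Pool.Agent.FPX.FSR

/-
FST (helper73): the start side put together. From `SMap`, `CertR`, `BdR` of FSR (everything at the states with
`ζ = X1 f ≥ 0` only) to `RawP`, `StartE`, `StartPh` and, with the closing theorem, to the sharp bound.
-/

open MeasureTheory Set Filter Topology Complex
open scoped ENNReal NNReal ContDiff ComplexConjugate Manifold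

noncomputable section

namespace Pool.Agent.FPX.FST

open Pool.Agent.FPX Pool.Agent.FPX.UMP Pool.Agent.FPX.UMQ Pool.Agent.EWD Pool.Agent.FPX.UXA
  Pool.Agent.FPM Pool.Agent.FPX.XCO Pool.Agent.FPX.VTB Pool.Agent.FPX.ASX
open Pool.Agent.FPX.CST (Sys cu du)
open Pool.Agent.FPX.OMG (DevK CofH)

variable {n : ℕ} {Φ : Fin (n + 2) → (ℝ → ℝ) → ℝ} {dΦ : Fin (n + 2) → (ℝ → ℝ) → (ℝ → ℝ) → ℝ} {Bk : DevK}

/-- **the constant of the start map from the states with `ζ ≥ 0`** -/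
theorem nB_real (S : SMap Φ dΦ Bk) {N : ℝ} (hN : 0 ≤ N) (H : BdR Bk N) : ∀ f h k : ℝ → ℝ, Ef f → Var h k →
    ‖(CST.vv (cu Φ f) (du dΦ f h) + I * CST.vv (cu Φ f) (du dΦ f k)) / 2‖ ≤ N :=
  nB_of_devK S.dev hN (H.all S.rot)

variable {W : ℝ → ℝ} {F : CofH}

/-- one certificate -/
theorem rawP (S : SMap Φ dΦ Bk) (hW : ContDiffOn ℝ 1 W (Ioi 0)) (hW0 : ContinuousOn W (Ici 0)) (HF : F.Sm)
    (HB : F.Bo) {μ T : ℝ} (H : CertR Bk W F μ T) : RawP Φ (fun x => μ * x) (W 0) T := by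
  obtain ⟨K, L, S'⟩ := S.sys
  exact rawP_H S' S.dev hW hW0 HF HB (H.certH S.rot)

/-- a family of certificates -/
theorem rawPf (S : SMap Φ dΦ Bk) (hW : ContDiffOn ℝ 1 W (Ioi 0)) (hW0 : ContinuousOn W (Ici 0)) (HF : F.Sm)
    (HB : F.Bo) {ι : Type} {μ T : ι → ℝ} (H : ∀ i, CertR Bk W F (μ i) (T i)) {ψ : ℝ → ℝ} (hψ : Continuous ψ)
    {T₀ : ℝ} (hψT : ∀ x, 0 ≤ x → ∃ i, ψ x ≤ μ i * x + (T₀ - T i)) : RawP Φ ψ (W 0) T₀ := by
  obtain ⟨K, L, S'⟩ := S.sys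
  exact rawP_Hf S' S.dev hW hW0 HF HB (fun i => (H i).certH S.rot) hψ hψT

/-- two certificates -/
theorem rawP2 (S : SMap Φ dΦ Bk) (hW : ContDiffOn ℝ 1 W (Ioi 0)) (hW0 : ContinuousOn W (Ici 0)) (HF : F.Sm)
    (HB : F.Bo) {μ μ₂ t T : ℝ} (H : CertR Bk W F μ T) (H2 : CertR Bk W F μ₂ (T + t)) :
    RawP Φ (psi2 μ μ₂ t) (W 0) T := by
  obtain ⟨K, L, S'⟩ := S.sys
  exact rawP_H2 S' S.dev hW hW0 HF HB (H.certH S.rot) (H2.certH S.rot)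

/-- **`StartE`** (deviation itself) from one certificate -/
theorem startE (S : SMap Φ dΦ Bk) (hW : ContDiffOn ℝ 1 W (Ioi 0)) (hW0 : ContinuousOn W (Ici 0)) (HF : F.Sm)
    (HB : F.Bo) {μ T : ℝ} (hμ : 0 < μ) (hT : 0 ≤ T) (H : CertR Bk W F μ T) {N : ℝ} (hN0 : 0 ≤ N)
    (hN : BdR Bk N) {c₀ : ℝ} (hc₀ : 0 ≤ c₀) (hN1 : N < Real.exp c₀) :
    StartE 2 (2 * Real.pi * (T - W 0) / μ) c₀ := by
  obtain ⟨K, L, S'⟩ := S.sys
  exact startE_of_raw S' hμ hT (OMG.rawH_Raw S' S.dev hW hW0 HF HB (H.certH S.rot)) hN0 (nB_real S hN0 hN) hc₀ hN1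

/-- **`StartPh`** for every continuous penalty `φ` with `μ φ ≤ ψ` on the range of the deviation -/
theorem startPh (S : SMap Φ dΦ Bk) {φ ψ : ℝ → ℝ} (hφ : Continuous φ) {μ w T : ℝ} (hμ : 0 < μ)
    (hT : 0 ≤ T) (H : RawP Φ ψ w T) {N : ℝ} (hN0 : 0 ≤ N) (hN : BdR Bk N)
    {c₀ : ℝ} (hc₀ : 0 ≤ c₀) (hN1 : N < Real.exp c₀) (hψ0 : ∀ x, 0 ≤ x → 0 ≤ ψ x)
    (hφψ : ∀ x, 0 ≤ x → x ≤ 2 * Real.exp c₀ ^ 2 → μ * φ x ≤ ψ x) :
    StartPh φ 2 (2 * Real.pi * (T - w) / μ) c₀ := by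
  obtain ⟨K, L, S'⟩ := S.sys
  exact startPh_of_raw S' hφ hμ hT H hN0 (nB_real S hN0 hN) hc₀ hN1 hψ0 hφψ

section final

variable {lφ : List (ℚ × ℚ)}

/-- **the sharp bound from one certificate at the states with `ζ ≥ 0` and the closing theorem** -/
theorem two_pi (S : SMap Φ dΦ Bk) (hW : ContDiffOn ℝ 1 W (Ioi 0)) (hW0 : ContinuousOn W (Ici 0)) (HF : F.Sm)
    (HB : F.Bo) (hφ : qOk 1 lφ = true) {μ T w ms xm N c₀ X : ℚ} (hT : 0 ≤ T)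
    (H : CertR Bk W F μ T) (hN : BdR Bk N)
    (hw : (w : ℝ) ≤ W 0) (hCl : Closes (pkG 0 1 (clQ lφ)) c₀ X) (hxs : xsOk (μ / ms) T w X = true)
    (hph : phOk ms c₀ xm lφ = true) (hN1 : expOk N c₀ = true)
    (M : Type) [MetricSpace M] [CompactSpace M] [ChartedSpace (EuclideanHalfSpace 2) M]
    [Pool.Agent.H74.Surf.RiemannianSpace (𝓡∂ 2) M]
    (horient : Pool.Agent.H74.Surf.Orientable (𝓡∂ 2) M) (σ : Pool.Agent.H74.Surf.S1 → M)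
    (hσ : Pool.Agent.H74.Surf.IsometricFilling (𝓡∂ 2) σ) :
    ENNReal.ofReal (2 * Real.pi) ≤ Pool.Agent.H74.Surf.area M := by
  obtain ⟨K, L, S'⟩ := S.sys
  exact two_pi_H S' S.dev hW hW0 HF HB hφ hT (H.certH S.rot) (nB_real S (exp_lt hN1).1 hN) hw hCl hxs hph hN1
    M horient σ hσ

/-- **the sharp bound from two certificates at the states with `ζ ≥ 0` and the closing theorem** -/
theorem two_pi2 (S : SMap Φ dΦ Bk) (hW : ContDiffOn ℝ 1 W (Ioi 0)) (hW0 : ContinuousOn W (Ici 0)) (HF : F.Sm)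
    (HB : F.Bo) (hφ : qOk 1 lφ = true) {μ μ₂ t T w x₁ xm N c₀ X : ℚ} (hT : 0 ≤ T)
    (H : CertR Bk W F μ T) (H2 : CertR Bk W F μ₂ (T + t)) (hN : BdR Bk N)
    (hw : (w : ℝ) ≤ W 0) (hCl : Closes (pkG 0 1 (clQ lφ)) c₀ X) (hxs : xsOk μ T w X = true)
    (hps : psOk μ μ₂ t c₀ x₁ xm lφ = true) (hN1 : expOk N c₀ = true)
    (M : Type) [MetricSpace M] [CompactSpace M] [ChartedSpace (EuclideanHalfSpace 2) M]
    [Pool.Agent.H74.Surf.RiemannianSpace (𝓡∂ 2) M]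
    (horient : Pool.Agent.H74.Surf.Orientable (𝓡∂ 2) M) (σ : Pool.Agent.H74.Surf.S1 → M)
    (hσ : Pool.Agent.H74.Surf.IsometricFilling (𝓡∂ 2) σ) :
    ENNReal.ofReal (2 * Real.pi) ≤ Pool.Agent.H74.Surf.area M := by
  obtain ⟨K, L, S'⟩ := S.sys
  exact two_pi_H2 S' S.dev hW hW0 HF HB hφ hT (H.certH S.rot) (H2.certH S.rot) (nB_real S (exp_lt hN1).1 hN) hw
    hCl hxs hps hN1 M horient σ hσ

/-- **the sharp bound from one certificate at the states with `ζ ≥ 0` and the closing theorem for `φ = id`** -/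
theorem two_pi_id (S : SMap Φ dΦ Bk) (hW : ContDiffOn ℝ 1 W (Ioi 0)) (hW0 : ContinuousOn W (Ici 0)) (HF : F.Sm)
    (HB : F.Bo) {μ T w N c₀ X : ℚ} (hT : 0 ≤ T) (H : CertR Bk W F μ T) (hN : BdR Bk N)
    (hw : (w : ℝ) ≤ W 0) (hCl : Closes (fun x => x) c₀ X) (hxs : xsOk μ T w X = true)
    (hN1 : expOk N c₀ = true)
    (M : Type) [MetricSpace M] [CompactSpace M] [ChartedSpace (EuclideanHalfSpace 2) M]
    [Pool.Agent.H74.Surf.RiemannianSpace (𝓡∂ 2) M]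
    (horient : Pool.Agent.H74.Surf.Orientable (𝓡∂ 2) M) (σ : Pool.Agent.H74.Surf.S1 → M)
    (hσ : Pool.Agent.H74.Surf.IsometricFilling (𝓡∂ 2) σ) :
    ENNReal.ofReal (2 * Real.pi) ≤ Pool.Agent.H74.Surf.area M := by
  obtain ⟨K, L, S'⟩ := S.sys
  exact two_pi_HI S' S.dev hW hW0 HF HB hT (H.certH S.rot) (nB_real S (exp_lt hN1).1 hN) hw hCl hxs hN1
    M horient σ hσ

end final

end Pool.Agent.FPX.FST
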