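import Mathlib
import Pool.Agent.FPX.XSP

/-
XCH (helper76): the start map WITH CHARGES. Two certificates `(μ, T)` and `(μ₂, T + t)` with the same form give
`StartR r τ E X c₀`, `r = μ₂/μ - 1`, `τ = t/μ`, `X = 2 π (T - W 0)/μ`: near minimal metrics carry a map `U` of the
class with `∫ ν + r ∫_S ν ≤ X + e + τ |S|` for EVERY measurable set `S`. Equivalent to `StartPh` for
`φ = max x ((1 + r) x - τ)`.
-/

open MeasureTheory Set Filter Topology Complex
open scoped ENNReal NNReal ComplexConjugate ContDiff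

noncomputable section

namespace Pool.Agent.FPX.XCO

open Pool.Agent.FPX Pool.Agent.FPX.UMP Pool.Agent.FPX.UMQ Pool.Agent.EWD Pool.Agent.FPX.UXA
  Pool.Agent.FPX.CST Pool.Agent.FPX.CNU Pool.Agent.FPM

/-- the penalty of two rows -/
def ph2 (r τ x : ℝ) : ℝ := max x ((1 + r) * x - τ)

theorem ph2_cont (r τ : ℝ) : Continuous (ph2 r τ) := by
  unfold ph2
  fun_prop

theorem le_ph2 (r τ x : ℝ) : x ≤ ph2 r τ x := le_max_left _ _

theorem ph2_ge (r τ x : ℝ) : (1 + r) * x - τ ≤ ph2 r τ x := le_max_right _ _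

theorem psi2_eq {μ μ₂ t : ℝ} (hμ : 0 < μ) (x : ℝ) : psi2 μ μ₂ t x = μ * ph2 (μ₂ / μ - 1) (t / μ) x := by
  unfold psi2 ph2
  rw [mul_max_of_nonneg _ _ hμ.le]
  congr 1
  field_simp
  ring

/-- **the start map with charges over all measurable sets** -/
def StartR (r τ Ee X c₀ : ℝ) : Prop :=
  ∀ e : ℝ, 0 < e → ∃ ε : ℝ, 0 < ε ∧ ∀ (M : Type) [MetricSpace M] [CompactSpace M] [Nonempty M]
    (γ : ℝ → M) (C : Calc M γ), NearM C ε → C.vol < 2 * Real.pi →
    ∃ U : Fin 3 → M → ℝ, KY C 2 Ee U (fun _ => c₀) ∧ ∫ o, jac C U o ∂C.μ = 2 * Real.pi ∧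
      ∀ S : Set Om, NullMeasurableSet S C.μ →
        ∫ o, nuC C U o ∂C.μ + r * ∫ o in S, nuC C U o ∂C.μ ≤ X + e + τ * C.μ.real S

theorem StartR.mono {r τ Ee X X' c₀ : ℝ} (h : StartR r τ Ee X c₀) (hX : X ≤ X') : StartR r τ Ee X' c₀ := by
  intro e he
  obtain ⟨ε, hε, h⟩ := h e he
  refine ⟨ε, hε, fun M _ _ _ γ C hC hv => ?_⟩
  obtain ⟨U, h1, h2, h3⟩ := h M γ C hC hv
  exact ⟨U, h1, h2, fun S hS => by linarith [h3 S hS]⟩

/-- `StartPh` gives the charges -/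
theorem startR_of_ph {r τ Ee X c₀ : ℝ} (h : StartPh (ph2 r τ) Ee X c₀) : StartR r τ Ee X c₀ := by
  intro e he
  obtain ⟨ε, hε, h⟩ := h e he
  refine ⟨ε, hε, fun M _ _ _ γ C hC hv => ?_⟩
  obtain ⟨U, h1, h2, h3⟩ := h M γ C hC hv
  refine ⟨U, h1, h2, fun S hS => ?_⟩
  have := C.fin
  have hL := h1.sph.lip
  have i1 : Integrable (fun o => nuC C U o) C.μ := nuC_cint C hL continuous_id
  have i2 : Integrable (fun o => ph2 r τ (nuC C U o)) C.μ := nuC_cint C hL (ph2_cont r τ)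
  have e1 : r * ∫ o in S, nuC C U o ∂C.μ - τ * C.μ.real S = ∫ o in S, (r * nuC C U o - τ) ∂C.μ := by
    rw [integral_sub (i1.integrableOn.const_mul r) (integrable_const τ), integral_const_mul, setIntegral_const,
      smul_eq_mul, mul_comm τ]
  have e2 : ∫ o in S, (r * nuC C U o - τ) ∂C.μ ≤ ∫ o, (ph2 r τ (nuC C U o) - nuC C U o) ∂C.μ := by
    have i3 : Integrable (fun o => ph2 r τ (nuC C U o) - nuC C U o) C.μ := i2.sub i1
    have h4 : ∫ o in S, (r * nuC C U o - τ) ∂C.μ ≤ ∫ o in S, (ph2 r τ (nuC C U o) - nuC C U o) ∂C.μ :=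
      setIntegral_mono_on₀ ((i1.const_mul r).sub (integrable_const τ)).integrableOn i3.integrableOn hS
        fun o _ => by
          have := ph2_ge r τ (nuC C U o)
          linarith
    refine h4.trans (setIntegral_le_integral i3 (Eventually.of_forall fun o => ?_))
    have := le_ph2 r τ (nuC C U o)
    show 0 ≤ ph2 r τ (nuC C U o) - nuC C U o
    linarith
  rw [integral_sub i2 i1] at e2
  have h5 : Ph C (ph2 r τ) U = ∫ o, ph2 r τ (nuC C U o) ∂C.μ := rfl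
  rw [h5] at h3
  linarith

/-- the charges give `StartPh` (with `X' > X`) -/
theorem ph_of_startR {r τ Ee X c₀ : ℝ} (h : StartR r τ Ee X c₀) : StartPh (ph2 r τ) Ee X c₀ := by
  intro e he
  obtain ⟨ε, hε, h⟩ := h (e / 2) (by positivity)
  refine ⟨ε, hε, fun M _ _ _ γ C hC hv => ?_⟩
  obtain ⟨U, h1, h2, h3⟩ := h M γ C hC hv
  refine ⟨U, h1, h2, ?_⟩
  have := C.fin
  have hL := h1.sph.lip
  have i1 : Integrable (fun o => nuC C U o) C.μ := nuC_cint C hL continuous_id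
  have hS : NullMeasurableSet {o | 0 < r * nuC C U o - τ} C.μ :=
    nullMeasurableSet_lt aemeasurable_const ((i1.aemeasurable.const_mul r).sub_const τ)
  have h4 := h3 _ hS
  have i3 : Integrable (fun o => r * nuC C U o - τ) C.μ := (i1.const_mul r).sub (integrable_const τ)
  have e1 : r * ∫ o in {o | 0 < r * nuC C U o - τ}, nuC C U o ∂C.μ
      - τ * C.μ.real {o | 0 < r * nuC C U o - τ} =
      ∫ o in {o | 0 < r * nuC C U o - τ}, (r * nuC C U o - τ) ∂C.μ := by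
    rw [integral_sub (i1.integrableOn.const_mul r) (integrable_const τ), integral_const_mul, setIntegral_const,
      smul_eq_mul, mul_comm τ]
  have e2 : ∫ o, ph2 r τ (nuC C U o) ∂C.μ = ∫ o, nuC C U o ∂C.μ
      + ∫ o in {o | 0 < r * nuC C U o - τ}, (r * nuC C U o - τ) ∂C.μ := by
    rw [← integral_indicator₀ hS, ← integral_add i1 (i3.indicator₀ hS)]
    congr 1
    funext o
    unfold ph2
    by_cases ho : 0 < r * nuC C U o - τ
    · rw [indicator_of_mem (show o ∈ {o | 0 < r * nuC C U o - τ} from ho), max_eq_right (by linarith)]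
      ring
    · rw [indicator_of_notMem (show o ∉ {o | 0 < r * nuC C U o - τ} from ho),
        max_eq_left (by linarith [not_lt.1 ho])]
      ring
  show ∫ o, ph2 r τ (nuC C U o) ∂C.μ < X + e
  rw [e2, ← e1]
  linarith

variable {n : ℕ} {Φ : Fin (n + 2) → (ℝ → ℝ) → ℝ} {dΦ : Fin (n + 2) → (ℝ → ℝ) → (ℝ → ℝ) → ℝ} {K L : ℝ}

/-- **the start map with charges from two rows** (any class of forms: `RawP Φ (psi2 μ μ₂ t) w T`) -/
theorem startR_of_raw2 (S : Sys Φ dΦ K L) {μ μ₂ t w T : ℝ} (hμ : 0 < μ) (hT : 0 ≤ T)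
    (H : RawP Φ (psi2 μ μ₂ t) w T) {N : ℝ} (hN0 : 0 ≤ N) (hN : ∀ f h k : ℝ → ℝ, Ef f → Var h k →
      ‖(CST.vv (cu Φ f) (du dΦ f h) + I * CST.vv (cu Φ f) (du dΦ f k)) / 2‖ ≤ N)
    {c₀ : ℝ} (hc₀ : 0 ≤ c₀) (hN1 : N < Real.exp c₀) :
    StartR (μ₂ / μ - 1) (t / μ) 2 (2 * Real.pi * (T - w) / μ) c₀ :=
  startR_of_ph (startPh_of_raw S (ph2_cont _ _) hμ hT H hN0 hN hc₀ hN1 (fun _ hx => psi2_nonneg hμ.le hx)
    fun x _ _ => (psi2_eq hμ x).ge)

end Pool.Agent.FPX.XCO
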