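import Mathlib
import Pool.Agent.FPX.FST
import Pool.Agent.FPX.OMZR
import Pool.Agent.FPX.XCH
import Pool.Agent.FPX.XIZ

/-
FSZ (helper73): the class of forms with `C₅` and `S₄` (`CertZ` of OMZ, helper8) as input of the start side: family of
certificates (`rawZ_phi`), `RawP` from certificates at the states with `ζ ≥ 0`; `StartR` for any start map `SMap`;
the stereographic start map of `xi14`.
-/

open MeasureTheory Set Filter Topology Complex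
open scoped ENNReal NNReal ContDiff ComplexConjugate Manifold

noncomputable section

namespace Pool.Agent.FPX.FST

open Pool.Agent.FPX Pool.Agent.FPX.UMP Pool.Agent.FPX.UMQ Pool.Agent.EWD Pool.Agent.FPX.UXA
  Pool.Agent.FPM Pool.Agent.FPX.XCO Pool.Agent.FPX.VTB Pool.Agent.FPX.ASX
open Pool.Agent.FPX.CST (Sys cu du nu)
open Pool.Agent.FPX.OMG (DevK IsDevK CofH)
open Pool.Agent.FPX.OMR (Re)
open Pool.Agent.FPX.OMY (CofZ CertAtZ CertZ hstZ sysS GZ_small lz_small)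

/-- the inequality for the raw map with a function of the deviation from a family of certificates `CertZ` -/
theorem rawZ_phi {n' : ℕ} {Φ' : Fin (n' + 2) → (ℝ → ℝ) → ℝ} {dΦ' : Fin (n' + 2) → (ℝ → ℝ) → (ℝ → ℝ) → ℝ} {K' L' : ℝ}
    (S' : Sys Φ' dΦ' K' L') {Bk : DevK} (HD : IsDevK Φ' dΦ' Bk) {W : ℝ → ℝ} {F : CofZ}
    (hW : ContDiffOn ℝ 1 W (Ioi 0)) (hW0 : ContinuousOn W (Ici 0)) (HF : F.Sm) (HB : F.Bo)
    {ι : Type} {μ T : ι → ℝ} (H : ∀ i, CertZ Bk W F (μ i) (T i)) {ψ : ℝ → ℝ} (hψ : Continuous ψ) {T₀ : ℝ}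
    (hψT : ∀ x, 0 ≤ x → ∃ i, ψ x ≤ μ i * x + (T₀ - T i)) : RawP Φ' ψ (W 0) T₀ := fun _ he =>
  CST.raw_le_phi sysS S' hW hW0 HF.cG (fun _ hε => GZ_small HB hε)
    (fun i => HF.cl i) (fun _ hε => lz_small HB hε) hψ
    (fun f h k hf V => by
      have hn : 0 ≤ nu (cu Φ' f) (du dΦ' f h) (du dΦ' f k) := by
        rw [HD f h k hf V]
        positivity
      obtain ⟨i, hi⟩ := hψT _ hn
      have := hstZ HD hW HF (H i) hf V
      linarith) he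

/-- the certificate at the states with `ζ ≥ 0` -/
def CertRZ (Bk : DevK) (W : ℝ → ℝ) (F : CofZ) (μ T : ℝ) : Prop := ∀ f, Re f → CertAtZ Bk W F μ T f

variable {n : ℕ} {Φ : Fin (n + 2) → (ℝ → ℝ) → ℝ} {dΦ : Fin (n + 2) → (ℝ → ℝ) → (ℝ → ℝ) → ℝ} {Bk : DevK}
variable {W : ℝ → ℝ} {F : CofZ}

theorem CertRZ.certZ (HR : OM7.RotK Bk) {μ T : ℝ} (H : CertRZ Bk W F μ T) : CertZ Bk W F μ T :=
  OM7.certZ_of_real HR fun f hf h0 h2 => H f ⟨hf, h0, h2⟩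

/-- one certificate -/
theorem rawPZ (S : SMap Φ dΦ Bk) (hW : ContDiffOn ℝ 1 W (Ioi 0)) (hW0 : ContinuousOn W (Ici 0)) (HF : F.Sm)
    (HB : F.Bo) {μ T : ℝ} (H : CertRZ Bk W F μ T) : RawP Φ (fun x => μ * x) (W 0) T := by
  obtain ⟨K, L, S'⟩ := S.sys
  exact rawZ_phi S' S.dev hW hW0 HF HB (ι := Unit) (μ := fun _ => μ) (T := fun _ => T) (fun _ => H.certZ S.rot)
    (continuous_const.mul continuous_id) fun x _ => ⟨(), by simp⟩

/-- two certificates -/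
theorem rawPZ2 (S : SMap Φ dΦ Bk) (hW : ContDiffOn ℝ 1 W (Ioi 0)) (hW0 : ContinuousOn W (Ici 0)) (HF : F.Sm)
    (HB : F.Bo) {μ μ₂ t T : ℝ} (H : CertRZ Bk W F μ T) (H2 : CertRZ Bk W F μ₂ (T + t)) :
    RawP Φ (psi2 μ μ₂ t) (W 0) T := by
  obtain ⟨K, L, S'⟩ := S.sys
  exact rawZ_phi S' S.dev hW hW0 HF HB (ι := Bool) (μ := fun i => if i then μ₂ else μ)
    (T := fun i => if i then T + t else T)
    (fun i => by cases i <;> simp [H.certZ S.rot, H2.certZ S.rot]) (psi2_cont _ _ _) fun x _ => psi2_fam x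

/-- **the start map with charges** for any class of forms -/
theorem startR (S : SMap Φ dΦ Bk) {μ μ₂ t w T : ℝ} (hμ : 0 < μ) (hT : 0 ≤ T)
    (H : RawP Φ (psi2 μ μ₂ t) w T) {N : ℝ} (hN0 : 0 ≤ N) (hN : BdR Bk N) {c₀ : ℝ} (hc₀ : 0 ≤ c₀)
    (hN1 : N < Real.exp c₀) : StartR (μ₂ / μ - 1) (t / μ) 2 (2 * Real.pi * (T - w) / μ) c₀ := by
  obtain ⟨K, L, S'⟩ := S.sys
  exact startR_of_raw2 S' hμ hT H hN0 (nB_real S hN0 hN) hc₀ hN1

section fourteen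

open Pool.Agent.FPX.XIM (Rad xi14 dxi14 DispS St1 St2 dSt1 dSt2 mo_xi14 xi14_neg)
open Pool.Agent.FPX.XIP (Bk14 isDevK_xi14 rot_xi14 rotK_B14)

variable {κ κ' : Fin 8 → ℝ → ℝ} {μ μ' : Fin 4 → ℝ → ℝ} {ν ν' : Fin 2 → ℝ → ℝ}

/-- **`xi14` is admissible from the size at the states with `ζ ≥ 0`** -/
theorem dispS14 {G G' : Fin 8 → ℝ} {E E' : Fin 4 → ℝ} {H H' : Fin 2 → ℝ} (R8 : ∀ j, Rad (κ j) (κ' j) (G j) (G' j))
    (R4 : ∀ j, Rad (μ j) (μ' j) (E j) (E' j)) (R2 : ∀ j, Rad (ν j) (ν' j) (H j) (H' j))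
    (h : ∀ f, Re f → Sz (xi14 κ μ ν) f) : ∃ A B, DispS (xi14 κ μ ν) (dxi14 κ κ' μ μ' ν ν') A B := by
  obtain ⟨A, B, M⟩ := mo_xi14 R8 R4 R2
  exact ⟨A, B, { M with
    neg := fun f hf => xi14_neg _ _ _ hf
    pos := pos_real (fun f f' φ r u R => rot_xi14 R _ _ _) h }⟩

/-- **the stereographic start map of `xi14`** -/
theorem smap14 {A B : ℝ} (DS : DispS (xi14 κ μ ν) (dxi14 κ κ' μ μ' ν ν') A B) :
    SMap (n := 0) ![St1 (xi14 κ μ ν), St2 (xi14 κ μ ν)]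
      ![dSt1 (xi14 κ μ ν) (dxi14 κ κ' μ μ' ν ν'), dSt2 (xi14 κ μ ν) (dxi14 κ κ' μ μ' ν ν')]
      (Bk14 κ κ' μ μ' ν ν') where
  sys := ⟨_, _, DS.sys⟩
  dev := isDevK_xi14 DS
  rot := rotK_B14 _ _ _ _ _ _

end fourteen

end Pool.Agent.FPX.FST
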