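import Mathlib
import Pool.Agent.FPX.OMX

/-
XEC (helper16): the constant of the start map (`|A'|, |B'| ≤ N`) from a certificate of OMX with zero forms.
-/

open MeasureTheory Set Filter Topology Complex
open scoped ENNReal NNReal ContDiff ComplexConjugate

noncomputable section

namespace Pool.Agent.FPX.XEC

open Pool.Agent.FPX Pool.Agent.FPX.UMP Pool.Agent.FPX.UMQ Pool.Agent.FPX.UXA Pool.Agent.EWD
open Pool.Agent.FPX.F54 (X1 X2 dX1 dX2 X_lt vF sF)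
open Pool.Agent.FPX.OMB (vm)
open Pool.Agent.FPX.CST (cu du nu ja)
open Pool.Agent.FPX.OMS (rF cF Aa Ba Kc Kc_meas Kc_le AB_eq)
open Pool.Agent.FPX.SYS (K0)
open Pool.Agent.FPX.OM7

/-- no forms -/
def F0 : Cof := ⟨fun _ => 0, fun _ => 0, fun _ => 0, fun _ => 0, fun _ => 0, fun _ => 0, fun _ => 0⟩

theorem W1_zero (f : ℝ → ℝ) : W1 F0 f = 0 := by
  unfold W1 F0
  simp

theorem W7_zero (f : ℝ → ℝ) : W7 (fun _ => 0) F0 f = 0 := by
  unfold W7
  rw [W1_zero]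
  simp

theorem mk7_zero (f : ℝ → ℝ) (t : ℝ) : mk7 F0 f t = 0 := by
  unfold mk7 F0
  simp

theorem bv_zero (f : ℝ → ℝ) (A B N M : ℂ) : bv F0 f A B N M = 0 := by
  unfold bv F0
  simp

/-- `ν` and the part of type `K` of the velocity -/
theorem nu_half {n : ℕ} (u p q : Fin (n + 2) → ℝ) : nu u p q = 2 * ‖(CST.vv u p + I * CST.vv u q) / 2‖ ^ 2 := by
  unfold nu ja
  rw [← Complex.normSq_eq_norm_sq]
  generalize CST.vv u p = a
  generalize CST.vv u q = b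
  simp only [Complex.normSq_apply, Complex.mul_im, Complex.mul_re, Complex.conj_re, Complex.conj_im,
    Complex.div_ofNat_re, Complex.div_ofNat_im, Complex.add_re, Complex.add_im, Complex.I_re, Complex.I_im]
  ring

/-- the certificate with zero forms at one state -/
theorem certAt_zero {Bx : Dev} {T : ℝ} {f : ℝ → ℝ} : CertAtX Bx (fun _ => 0) F0 (1 / 2) T f ↔
    ∀ K : ℝ → ℂ, Measurable K → (∀ t, ‖K t‖ ≤ 1) → ∀ A B : ℂ,
      A - sF f * conj B = ∫ t, C54.ep (X1 f) (X2 f) t * conj (K t) ∂(vm (X1 f) (X2 f)) →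
      B - sF f * conj A = ∫ t, C54.ep (X1 f) (X2 f) t * K t ∂(vm (X1 f) (X2 f)) →
      ‖devK Bx f K A B‖ ^ 2 ≤ T := by
  unfold CertAtX
  have e : ∀ x : ℝ, 2 * (1 / 2) * x = x := fun x => by ring
  simp only [W7_zero, bv_zero, mk7_zero, zero_mul, integral_zero, mul_zero, Complex.zero_re, sub_zero,
    add_zero, zero_add, e]

variable {n' : ℕ} {Φ' : Fin (n' + 2) → (ℝ → ℝ) → ℝ} {dΦ' : Fin (n' + 2) → (ℝ → ℝ) → (ℝ → ℝ) → ℝ}

/-- **the constant of the start map from a certificate with zero forms**: the hypothesis `hN` of `start_of_raw4` -/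
theorem nB_of_cert {Bx : Dev} (HD : IsDev Φ' dΦ' Bx) {N : ℝ} (hN : 0 ≤ N)
    (H : Cert7X Bx (fun _ => 0) F0 (1 / 2) (N ^ 2)) : ∀ f h k : ℝ → ℝ, Ef f → Var h k →
      ‖(CST.vv (cu Φ' f) (du dΦ' f h) + I * CST.vv (cu Φ' f) (du dΦ' f k)) / 2‖ ≤ N := by
  intro f h k hf V
  refine (sq_le_sq₀ (norm_nonneg _) hN).1 ?_
  have h1 := nu_half (cu Φ' f) (du dΦ' f h) (du dΦ' f k)
  rw [HD f h k hf V] at h1
  obtain ⟨e1, e2⟩ := AB_eq hf V
  have h2 := certAt_zero.1 (H f hf) (Kc h k) (Kc_meas V) (Kc_le V) _ _ e1 e2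
  unfold devK at h2
  rw [(NC_pm hf V).1, (NC_pm hf V).2, (NS_pm hf V).1, (NS_pm hf V).2, K0_pm hf V] at h1
  linarith

/-- the certificate with zero forms at one state, any `μ` -/
theorem certAt_zero' {Bx : Dev} {μ T : ℝ} {f : ℝ → ℝ} : CertAtX Bx (fun _ => 0) F0 μ T f ↔
    ∀ K : ℝ → ℂ, Measurable K → (∀ t, ‖K t‖ ≤ 1) → ∀ A B : ℂ,
      A - sF f * conj B = ∫ t, C54.ep (X1 f) (X2 f) t * conj (K t) ∂(vm (X1 f) (X2 f)) →
      B - sF f * conj A = ∫ t, C54.ep (X1 f) (X2 f) t * K t ∂(vm (X1 f) (X2 f)) →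
      2 * μ * ‖devK Bx f K A B‖ ^ 2 ≤ T := by
  unfold CertAtX
  simp only [W7_zero, bv_zero, mk7_zero, zero_mul, integral_zero, mul_zero, Complex.zero_re, sub_zero,
    add_zero, zero_add]

/-- **the constant of the start map from a certificate with zero forms**, any normalisation -/
theorem nB_of_cert' {Bx : Dev} (HD : IsDev Φ' dΦ' Bx) {μ T N : ℝ} (hμ : 0 < μ) (hN : 0 ≤ N)
    (hT : T ≤ 2 * μ * N ^ 2) (H : Cert7X Bx (fun _ => 0) F0 μ T) : ∀ f h k : ℝ → ℝ, Ef f → Var h k →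
      ‖(CST.vv (cu Φ' f) (du dΦ' f h) + I * CST.vv (cu Φ' f) (du dΦ' f k)) / 2‖ ≤ N := by
  refine nB_of_cert HD hN fun f hf => certAt_zero.2 fun K hK hK1 A B hA hB => ?_
  have h1 := certAt_zero'.1 (H f hf) K hK hK1 A B hA hB
  have h2 : 2 * μ * ‖devK Bx f K A B‖ ^ 2 ≤ 2 * μ * N ^ 2 := h1.trans hT
  exact le_of_mul_le_mul_left h2 (by positivity)

end Pool.Agent.FPX.XEC
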