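import Mathlib
import Pool.Agent.FPX.ASH
import Pool.Agent.FPX.CEL
import Pool.Agent.FPX.XEC

/-
XNC (helper8): the constant `|B'| ≤ N` of the start map from a certificate `Cert9` with zero forms (any deviation `Bk`);
the data of CEL with empty lists are zero forms, so the cells of CEL with zero control vectors give `N`.
-/

open MeasureTheory Set Filter Topology Complex
open scoped ENNReal NNReal ComplexConjugate

noncomputable section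

namespace Pool.Agent.FPX.XNC

open Pool.Agent.FPX Pool.Agent.FPX.UMP Pool.Agent.FPX.UMQ Pool.Agent.FPX.UXA
open Pool.Agent.FPX.F54 (X1 X2 X_lt)
open Pool.Agent.FPX.OMB (vm)
open Pool.Agent.FPX.CST (cu du)
open Pool.Agent.FPX.OMS (rF cF)
open Pool.Agent.FPX.OM7 (RotK cert9_of_real)
open Pool.Agent.FPX.OMG (DevK IsDevK Cof9 W9 WP mk9 mkP CertAt9 Cert9)
open Pool.Agent.FPX.OMR (Re)
open Pool.Agent.FPX.XEC (F0 W7_zero mk7_zero bv_zero)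

/-- no forms -/
def Z9 : Cof9 := ⟨F0, fun _ => 0, fun _ => 0, fun _ => 0, fun _ => 0⟩

theorem WP_zero (f : ℝ → ℝ) : WP Z9 f = 0 := by
  unfold WP Z9
  simp

theorem mkP_zero (f : ℝ → ℝ) (t : ℝ) : mkP Z9 f t = 0 := by
  unfold mkP Z9
  simp

theorem mk9_zero (f : ℝ → ℝ) (t : ℝ) : mk9 Z9 f t = 0 := by
  have h1 : OM7.mk7 Z9.C f t = 0 := mk7_zero f t
  unfold mk9
  rw [mkP_zero, h1, add_zero]

theorem W9_zero (f : ℝ → ℝ) : W9 (fun _ => 0) Z9 f = 0 := by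
  have h1 : OM7.W7 (fun _ => 0) Z9.C f = 0 := W7_zero f
  unfold W9
  rw [WP_zero, h1, add_zero]

/-- the certificate with zero forms at one state -/
theorem certAt9_zero {Bk : DevK} {μ T : ℝ} {f : ℝ → ℝ} : CertAt9 Bk (fun _ => 0) Z9 μ T f ↔
    ∀ K : ℝ → ℂ, Measurable K → (∀ t, ‖K t‖ ≤ 1) → ∀ A B : ℂ,
      A - F54.sF f * conj B = ∫ t, C54.ep (X1 f) (X2 f) t * conj (K t) ∂(vm (X1 f) (X2 f)) →
      B - F54.sF f * conj A = ∫ t, C54.ep (X1 f) (X2 f) t * K t ∂(vm (X1 f) (X2 f)) →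
      2 * μ * ‖Bk f K A B‖ ^ 2 ≤ T := by
  have eb : ∀ A B N M : ℂ, OM7.bv Z9.C f A B N M = 0 := fun A B N M => bv_zero f A B N M
  unfold CertAt9
  simp only [W9_zero, eb, mk9_zero, zero_mul, integral_zero, mul_zero, Complex.zero_re, sub_zero,
    add_zero, zero_add]

variable {n' : ℕ} {Φ' : Fin (n' + 2) → (ℝ → ℝ) → ℝ} {dΦ' : Fin (n' + 2) → (ℝ → ℝ) → (ℝ → ℝ) → ℝ}

/-- **the constant of the start map from a certificate `Cert9` with zero forms**: hypothesis `hN` of `two_pi_H`,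
`start_of_raw` .. -/
theorem nB_of_cert9 {Bk : DevK} (HD : IsDevK Φ' dΦ' Bk) {μ T N : ℝ} (hμ : 0 < μ) (hN : 0 ≤ N)
    (hT : T ≤ 2 * μ * N ^ 2) (H : Cert9 Bk (fun _ => 0) Z9 μ T) : ∀ f h k : ℝ → ℝ, Ef f → Var h k →
      ‖(CST.vv (cu Φ' f) (du dΦ' f h) + I * CST.vv (cu Φ' f) (du dΦ' f k)) / 2‖ ≤ N := by
  refine ASX.nB_of_devK HD hN fun f hf K hK hK1 A B hA hB => ?_
  have h1 := certAt9_zero.1 (H f hf) K hK hK1 A B hA hB
  have h2 : 2 * μ * ‖Bk f K A B‖ ^ 2 ≤ 2 * μ * N ^ 2 := h1.trans hT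
  exact (sq_le_sq₀ (norm_nonneg _) hN).1 (le_of_mul_le_mul_left h2 (by positivity))

/-- the same from the states of the real frame -/
theorem nB_of_real9 {Bk : DevK} (HD : IsDevK Φ' dΦ' Bk) (HR : RotK Bk) {μ T N : ℝ} (hμ : 0 < μ) (hN : 0 ≤ N)
    (hT : T ≤ 2 * μ * N ^ 2) (H : ∀ f, Re f → CertAt9 Bk (fun _ => 0) Z9 μ T f) : ∀ f h k : ℝ → ℝ, Ef f → Var h k →
      ‖(CST.vv (cu Φ' f) (du dΦ' f h) + I * CST.vv (cu Φ' f) (du dΦ' f k)) / 2‖ ≤ N :=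
  nB_of_cert9 HD hμ hN hT (cert9_of_real HR fun f hf h0 h2 => H f ⟨hf, h0, h2⟩)

/-- any bound of the deviation for the states of the real frame -/
theorem nB_of_realK {Bk : DevK} (HD : IsDevK Φ' dΦ' Bk) (HR : RotK Bk) {N : ℝ} (hN : 0 ≤ N)
    (H : ∀ f, Re f → ∀ K : ℝ → ℂ, Measurable K → (∀ t, ‖K t‖ ≤ 1) → ∀ A B : ℂ,
      A - F54.sF f * conj B = ∫ t, C54.ep (X1 f) (X2 f) t * conj (K t) ∂(vm (X1 f) (X2 f)) →
      B - F54.sF f * conj A = ∫ t, C54.ep (X1 f) (X2 f) t * K t ∂(vm (X1 f) (X2 f)) →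
      ‖Bk f K A B‖ ≤ N) : ∀ f h k : ℝ → ℝ, Ef f → Var h k →
      ‖(CST.vv (cu Φ' f) (du dΦ' f h) + I * CST.vv (cu Φ' f) (du dΦ' f k)) / 2‖ ≤ N := by
  refine nB_of_real9 HD HR (μ := 1 / 2) (T := N ^ 2) (by norm_num) hN (le_of_eq (by ring)) fun f hf =>
    certAt9_zero.2 fun K hK hK1 A B hA hB => ?_
  have h := pow_le_pow_left₀ (norm_nonneg _) (H f hf K hK hK1 A B hA hB) 2
  linarith

/-! ### the cells of CEL with zero forms -/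

/-- the data of CEL with zero forms -/
def dz (k : Fin 8 → List ℚ) : CEL.Dat := ⟨[], [], [], [], [], [], [], [], [], k⟩

theorem hat_nil : CEL.hat [] = fun _ => 0 := by
  funext r
  unfold CEL.hat
  simp

theorem pln_nil : CEL.pln [] = fun _ => 0 := by
  funext r
  unfold CEL.pln
  simp

theorem cof_dz (k : Fin 8 → List ℚ) : (dz k).cof = Z9 := by
  unfold CEL.Dat.cof dz Z9 F0
  simp only [hat_nil, pln_nil]

/-- **`|B'| ≤ N` for the start map `xi8` with polynomial coefficients from cells of CEL with zero forms** -/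
theorem nB_of_cells {k : Fin 8 → List ℚ} (HD : OM7.IsDev Φ' dΦ' (XIP.B8 (BTI.kap (dz k).kk) (BTI.dkap (dz k).kk (dz k).kk')))
    {μ T N : ℚ} (hμ : 0 < μ) (hN : 0 ≤ N) (hT : T ≤ 2 * μ * N ^ 2)
    (H : ∀ f, Re f → CertAt9 (OM7.devK (XIP.B8 (BTI.kap (dz k).kk) (BTI.dkap (dz k).kk (dz k).kk'))) (fun _ => 0)
      (dz k).cof μ T f) : ∀ f h k : ℝ → ℝ, Ef f → Var h k →
      ‖(CST.vv (cu Φ' f) (du dΦ' f h) + I * CST.vv (cu Φ' f) (du dΦ' f k)) / 2‖ ≤ N := by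
  have hT' : (T : ℝ) ≤ 2 * μ * N ^ 2 := by exact_mod_cast hT
  refine nB_of_real9 (OMG.isDevK_of HD) (OM7.rotK_devK (XIP.rotDev_B8 _ _)) (by exact_mod_cast hμ)
    (by exact_mod_cast hN) hT' fun f hf => ?_
  have h := H f hf
  rw [cof_dz] at h
  exact h

/-- one cell: no condition on the forms is left -/
theorem cell_N {k : Fin 8 → List ℚ} {C : CEL.Cell} {μ T : ℚ} (H : C.ok (dz k) μ T = true) (hw : C.w = []) {f : ℝ → ℝ}
    (hf : Re f) (hc : cF f ∈ Icc (C.a : ℝ) C.b)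
    (hτ : ‖BTI.tau8 (dz k).kk f (BTG.mo (BTI.C9 BTI.Psi8) (BTN.nf f) (CERQ.xT f) (BTN.ef f) 0)‖ ≤ C.τ)
    {s' : ℝ} (hs' : X1 f ≤ s') (h1 : s' ≤ 1) {P : (ℝ → ℝ) → Prop} (hP : P (ALX.Xa (X1 f) f))
    (h : ∀ j : Fin 3, ∀ τ : ℂ, ‖τ‖ ≤ C.τ → ∀ X, ALX.St s' X → (∀ a, |X a| ≤ 31 / 50 * s') → P X →
      BTG.RW (BTI.C9 BTI.Psi8) BTN.va X BTN.e1 (fun i => ((C.V j i : ℚ) : ℝ)) (CEL.uT (C.U j) τ) ((μ / C.r : ℚ) : ℝ) 1) :
    CertAt9 (OM7.devK (XIP.B8 (BTI.kap (dz k).kk) (BTI.dkap (dz k).kk (dz k).kk'))) (fun _ => 0) (dz k).cof μ T f :=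
  CEL.cell_RW H hf hc (by rw [hw]; simp) hτ hs' h1 hP h

end Pool.Agent.FPX.XNC
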