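import Mathlib
import Pool.Agent.FPX.FSZ
import Pool.Agent.FPX.ASL
import Pool.Agent.FPX.DZT
import Pool.Agent.FPX.XNC

/-
FSW (helper73): THE START SIDE OF THE PRODUCTION CLASS: forms with `C₃`, `C₅`, `S₄` (`CertZ`), start map `xi14`, data
`DatZ` of CEG (helper11). Certificates and the bound of the start map only at the states with `ζ = X1 f ≥ 0`. The
certificate from the list of latitude cells; `RawP`, `StartE`, `StartR`, `StartPh`; with the closing theorem the sharp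
bound.
-/

open MeasureTheory Set Filter Topology Complex
open scoped ENNReal NNReal ContDiff ComplexConjugate Manifold

noncomputable section

namespace Pool.Agent.FPX.FSW

open Pool.Agent.FPX Pool.Agent.FPX.UMP Pool.Agent.FPX.UMQ Pool.Agent.EWD Pool.Agent.FPX.UXA
  Pool.Agent.FPM Pool.Agent.FPX.XCO Pool.Agent.FPX.VTB Pool.Agent.FPX.ASX
open Pool.Agent.FPX.F54 (X1 X2)
open Pool.Agent.FPX.OMB (vm)
open Pool.Agent.FPX.OMS (cF)
open Pool.Agent.FPX.CST (Sys cu du)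
open Pool.Agent.FPX.OMR (Re q0)
open Pool.Agent.FPX.OM7 (RotK)
open Pool.Agent.FPX.OMG (DevK)
open Pool.Agent.FPX.OMY (CofZ CofS CertAtZ WS mkS WZ mkZ)
open Pool.Agent.FPX.XIM (Rad xi14 dxi14 DispS St1 St2 dSt1 dSt2)
open Pool.Agent.FPX.XIP (Bk14)
open Pool.Agent.FPX.BTI (kap dkap)
open Pool.Agent.FPX.BU (mup dmup)
open Pool.Agent.FPX.CEL (Dat DatZ)
open Pool.Agent.FPX.WPP
open Pool.Agent.FPX.ASL (WL contDiffOn_WL continuousOn_WL WL_ge)
open Pool.Agent.FPX.FST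

/-! ### the certificate from the list of cells -/

section cells

variable {Bk : DevK} {F : CofZ} {μ T : ℝ}

/-- the certificate on the cell `[a, b]` for every function `W` with the polynomial weight `l` on the cell -/
def CellZ (Bk : DevK) (F : CofZ) (μ T : ℝ) (a b : ℚ) (l : List ℚ) : Prop :=
  ∀ W : ℝ → ℝ, (∀ c : ℝ, 0 < c → (a : ℝ) ≤ c → c ≤ (b : ℝ) → 2 * c * W c - (1 - c ^ 2) * deriv W c = BTQ.pe l c) →
    ∀ f, Re f → (a : ℝ) ≤ cF f → cF f ≤ (b : ℝ) → CertAtZ Bk W F μ T f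

/-- a cell from the certificates at its states -/
theorem cellZ_of {a b : ℚ} {l : List ℚ} (H : ∀ (W : ℝ → ℝ) (f : ℝ → ℝ), Re f → cF f ∈ Icc (a : ℝ) b →
    2 * cF f * W (cF f) - X1 f ^ 2 * deriv W (cF f) = BTQ.pe l (cF f) → CertAtZ Bk W F μ T f) :
    CellZ Bk F μ T a b l := fun W hW f hf h1 h2 => H W f hf ⟨h1, h2⟩ (by
  have hs : X1 f ^ 2 = 1 - cF f ^ 2 := by
    have := hf.c2
    linarith
  rw [hs]
  exact hW _ hf.c0 h1 h2)

/-- two neighbouring cells -/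
theorem CellZ.glue {a x b : ℚ} {l : List ℚ} (hax : a ≤ x) (hxb : x ≤ b) (H1 : CellZ Bk F μ T a x l)
    (H2 : CellZ Bk F μ T x b l) : CellZ Bk F μ T a b l := by
  intro W hW f hf h1 h2
  have e1 : (a : ℝ) ≤ x := by exact_mod_cast hax
  have e2 : (x : ℝ) ≤ b := by exact_mod_cast hxb
  rcases le_total (cF f) (x : ℝ) with h | h
  · exact H1 W (fun c k0 k1 k2 => hW c k0 k1 (k2.trans e2)) f hf h1 h
  · exact H2 W (fun c k0 k1 k2 => hW c k0 (e1.trans k1) k2) f hf h h2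

/-- a larger right side -/
theorem CellZ.le {a b : ℚ} {l : List ℚ} {T' : ℝ} (H : CellZ Bk F μ T a b l) (h : T ≤ T') : CellZ Bk F μ T' a b l :=
  fun W hW f hf h1 h2 K hK hb A B hA hB => (H W hW f hf h1 h2 K hK hb A B hA hB).trans h

/-- **the certificate from the list of cells** -/
theorem certRZ_of_list {L : List (ℚ × List ℚ)} {m : List ℚ} (hk : okW 0 L m = true)
    (H : AllC (CellZ Bk F μ T) 0 L m) : CertRZ Bk (WL L m) F μ T := by
  intro f R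
  have hc0 := R.c0
  have hc1 : cF f ≤ 1 := OM7.cF_le
  obtain ⟨x, y, l, h, h3, h4, h5, h6, h7, h8⟩ := exists_cell H hk (c := cF f) (by push_cast; exact hc0.le) hc1
  refine h _ (fun c k0 k1 k2 => ?_) f R h6 h7
  rw [WL, Wp_eqn (wt_pw hk) (by linarith)]
  exact h8 c k1 k2

end cells

/-! ### the start map -/

/-- the displacement of the data -/
abbrev xiZ (D : DatZ) : (ℝ → ℝ) → ℂ := xi14 (kap D.kk) (mup D.nn) D.mm

/-- its derivative -/
abbrev dxiZ (D : DatZ) : (ℝ → ℝ) → (ℝ → ℝ) → ℂ :=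
  dxi14 (kap D.kk) (dkap D.kk D.kk') (mup D.nn) (dmup D.nn D.nn') D.mm D.mm'

/-- the start map of the data -/
def Phi (D : DatZ) : Fin (0 + 2) → (ℝ → ℝ) → ℝ := ![St1 (xiZ D), St2 (xiZ D)]

/-- its derivative -/
def dPhi (D : DatZ) : Fin (0 + 2) → (ℝ → ℝ) → (ℝ → ℝ) → ℝ := ![dSt1 (xiZ D) (dxiZ D), dSt2 (xiZ D) (dxiZ D)]

/-- the deviation -/
abbrev BkZ (D : DatZ) : DevK := Bk14 (kap D.kk) (dkap D.kk D.kk') (mup D.nn) (dmup D.nn D.nn') D.mm D.mm'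

/-- the size condition -/
def SzZ (D : DatZ) : Prop := ∀ f, Re f → Sz (xiZ D) f

variable {D : DatZ}

theorem dispS (H : SzZ D) : ∃ A B, DispS (xiZ D) (dxiZ D) A B := by
  obtain ⟨G, G', h8⟩ := DZT.rad8 D
  obtain ⟨E, E', h4⟩ := DZT.rad4 D
  obtain ⟨N, N', h2⟩ := DZT.rad2 D
  exact dispS14 h8 h4 h2 H

/-- **the start map of the data** -/
theorem smap (H : SzZ D) : SMap (Phi D) (dPhi D) (BkZ D) := by
  obtain ⟨A, B, DS⟩ := dispS H
  exact smap14 DS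

/-! ### the bound of the start map -/

/-- the class with zero forms -/
def Z0 : CofZ := ⟨⟨XNC.Z9, fun _ => 0, fun _ => 0⟩, ⟨fun _ => 0, fun _ => 0⟩⟩

/-- the certificate with zero forms at one state -/
theorem certAtZ_zero {Bk : DevK} {μ T : ℝ} {f : ℝ → ℝ} (H : CertAtZ Bk (fun _ => 0) Z0 μ T f) (K : ℝ → ℂ)
    (hK : Measurable K) (hb : ∀ t, ‖K t‖ ≤ 1) (A B : ℂ)
    (hA : A - F54.sF f * conj B = ∫ t, C54.ep (X1 f) (X2 f) t * conj (K t) ∂(vm (X1 f) (X2 f)))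
    (hB : B - F54.sF f * conj A = ∫ t, C54.ep (X1 f) (X2 f) t * K t ∂(vm (X1 f) (X2 f))) :
    2 * μ * ‖Bk f K A B‖ ^ 2 ≤ T := by
  have h := H K hK hb A B hA hB
  have e1 : WZ (fun _ => 0) Z0 f = 0 := by
    simp [WZ, Z0, OMG.WH, OMG.WN, WS, XNC.W9_zero]
  have e2 : ∀ t, mkZ Z0 f t = 0 := fun t => by
    simp [mkZ, Z0, OMG.mkH, OMG.mkN, mkS, XNC.mk9_zero]
  have e3 : ∀ x y : ℂ, OM7.bv Z0.H.F.C f A B x y = 0 := fun x y => XEC.bv_zero f A B x y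
  have e4 : ∀ x y : ℂ, OMG.bv5 Z0.H.b5 f A B x y = 0 := fun x y => by
    have : Z0.H.b5 = fun _ => (0 : ℝ) := rfl
    simp [OMG.bv5, this]
  simp only [e1, e2, e3, e4, zero_mul, mul_zero, integral_zero, zero_add, add_zero, sub_zero, Complex.zero_re] at h
  exact h

/-- **the bound of the deviation from a certificate with zero forms at the states with `ζ ≥ 0`** -/
theorem bdR_of_zero {Bk : DevK} {μ T N : ℝ} (hμ : 0 < μ) (hN : 0 ≤ N) (hT : T ≤ 2 * μ * N ^ 2)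
    (H : CertRZ Bk (fun _ => 0) Z0 μ T) : BdR Bk N := by
  intro f hf K hK hb A B hA hB
  have h := certAtZ_zero (H f hf) K hK hb A B hA hB
  have h2 : ‖Bk f K A B‖ ^ 2 ≤ N ^ 2 := by
    have : 2 * μ * ‖Bk f K A B‖ ^ 2 ≤ 2 * μ * N ^ 2 := h.trans hT
    exact le_of_mul_le_mul_left this (by positivity)
  exact (sq_le_sq₀ (norm_nonneg _) hN).1 h2

/-! ### the start side -/

variable {L : List (ℚ × List ℚ)} {m : List ℚ}

/-- the inequality for the raw map, one row -/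
theorem raw1 (H : SzZ D) (hk : okW 0 L m = true) {μ T : ℝ} (C : CertRZ (BkZ D) (WL L m) D.cofZ μ T) :
    RawP (Phi D) (fun x => μ * x) (WL L m 0) T :=
  rawPZ (smap H) (contDiffOn_WL hk) (continuousOn_WL hk) (DZT.smZ D) (DZT.boZ D) C

/-- the same with a function of the deviation, two rows -/
theorem raw2 (H : SzZ D) (hk : okW 0 L m = true) {μ μ₂ t T : ℝ} (C : CertRZ (BkZ D) (WL L m) D.cofZ μ T)
    (C2 : CertRZ (BkZ D) (WL L m) D.cofZ μ₂ (T + t)) : RawP (Phi D) (psi2 μ μ₂ t) (WL L m 0) T :=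
  rawPZ2 (smap H) (contDiffOn_WL hk) (continuousOn_WL hk) (DZT.smZ D) (DZT.boZ D) C C2

/-- **the start map, `φ = id`** -/
theorem startE (H : SzZ D) (hk : okW 0 L m = true) {μ T : ℝ} (hμ : 0 < μ) (hT : 0 ≤ T)
    (C : CertRZ (BkZ D) (WL L m) D.cofZ μ T) {N : ℝ} (hN0 : 0 ≤ N) (hN : BdR (BkZ D) N) {c₀ : ℝ} (hc₀ : 0 ≤ c₀)
    (hN1 : N < Real.exp c₀) : StartE 2 (2 * Real.pi * (T - WL L m 0) / μ) c₀ := by
  obtain ⟨K, L', S'⟩ := (smap H).sys
  have hr : Raw (Phi D) μ (WL L m 0) T := fun _ he => OMY.rawZ S' (smap H).dev (contDiffOn_WL hk)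
    (continuousOn_WL hk) (DZT.smZ D) (DZT.boZ D) (C.certZ (smap H).rot) he
  exact startE_of_raw S' hμ hT hr hN0 (nB_real (smap H) hN0 hN) hc₀ hN1

/-- **the start map with charges over all measurable sets**, two rows -/
theorem startR (H : SzZ D) (hk : okW 0 L m = true) {μ μ₂ t T : ℝ} (hμ : 0 < μ) (hT : 0 ≤ T)
    (C : CertRZ (BkZ D) (WL L m) D.cofZ μ T) (C2 : CertRZ (BkZ D) (WL L m) D.cofZ μ₂ (T + t))
    {N : ℝ} (hN0 : 0 ≤ N) (hN : BdR (BkZ D) N) {c₀ : ℝ} (hc₀ : 0 ≤ c₀) (hN1 : N < Real.exp c₀) :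
    StartR (μ₂ / μ - 1) (t / μ) 2 (2 * Real.pi * (T - WL L m 0) / μ) c₀ :=
  FST.startR (smap H) hμ hT (raw2 H hk C C2) hN0 hN hc₀ hN1

/-- **the start map for a penalty**, two rows -/
theorem startPh (H : SzZ D) (hk : okW 0 L m = true) {φ : ℝ → ℝ} (hφ : Continuous φ) {μ μ₂ t T : ℝ} (hμ : 0 < μ)
    (hT : 0 ≤ T) (C : CertRZ (BkZ D) (WL L m) D.cofZ μ T) (C2 : CertRZ (BkZ D) (WL L m) D.cofZ μ₂ (T + t))
    {N : ℝ} (hN0 : 0 ≤ N) (hN : BdR (BkZ D) N) {c₀ : ℝ} (hc₀ : 0 ≤ c₀) (hN1 : N < Real.exp c₀)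
    (hφψ : ∀ x, 0 ≤ x → x ≤ 2 * Real.exp c₀ ^ 2 → μ * φ x ≤ psi2 μ μ₂ t x) :
    StartPh φ 2 (2 * Real.pi * (T - WL L m 0) / μ) c₀ :=
  FST.startPh (smap H) hφ hμ hT (raw2 H hk C C2) hN0 hN hc₀ hN1 (fun _ hx => psi2_nonneg hμ.le hx) hφψ

section final

variable {lφ : List (ℚ × ℚ)} {μ μ₂ t T w ms x₁ xm N c₀ X : ℚ}

/-- **the sharp bound, one certificate, `φ = id`** -/
theorem two_pi_id (H : SzZ D) (hk : okW 0 L m = true) (hT : 0 ≤ T)
    (C : CertRZ (BkZ D) (WL L m) D.cofZ μ T) (hN : BdR (BkZ D) N) (hw : w ≤ iW 0 L m)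
    (hCl : Closes (fun x => x) c₀ X) (hxs : xsOk μ T w X = true) (hN1 : expOk N c₀ = true)
    (M : Type) [MetricSpace M] [CompactSpace M] [ChartedSpace (EuclideanHalfSpace 2) M]
    [Pool.Agent.H74.Surf.RiemannianSpace (𝓡∂ 2) M]
    (horient : Pool.Agent.H74.Surf.Orientable (𝓡∂ 2) M) (σ : Pool.Agent.H74.Surf.S1 → M)
    (hσ : Pool.Agent.H74.Surf.IsometricFilling (𝓡∂ 2) σ) :
    ENNReal.ofReal (2 * Real.pi) ≤ Pool.Agent.H74.Surf.area M := by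
  obtain ⟨K, L', S'⟩ := (smap H).sys
  exact two_pi_of_rawI S' hT (raw1 H hk C) (nB_real (smap H) (exp_lt hN1).1 hN) (WL_ge hk hw) hCl hxs hN1
    M horient σ hσ

/-- **the sharp bound, one certificate, the penalty of the table** -/
theorem two_pi_1 (H : SzZ D) (hk : okW 0 L m = true) (hφ : qOk 1 lφ = true) (hT : 0 ≤ T)
    (C : CertRZ (BkZ D) (WL L m) D.cofZ μ T) (hN : BdR (BkZ D) N) (hw : w ≤ iW 0 L m)
    (hCl : Closes (pkG 0 1 (clQ lφ)) c₀ X) (hxs : xsOk (μ / ms) T w X = true)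
    (hph : phOk ms c₀ xm lφ = true) (hN1 : expOk N c₀ = true)
    (M : Type) [MetricSpace M] [CompactSpace M] [ChartedSpace (EuclideanHalfSpace 2) M]
    [Pool.Agent.H74.Surf.RiemannianSpace (𝓡∂ 2) M]
    (horient : Pool.Agent.H74.Surf.Orientable (𝓡∂ 2) M) (σ : Pool.Agent.H74.Surf.S1 → M)
    (hσ : Pool.Agent.H74.Surf.IsometricFilling (𝓡∂ 2) σ) :
    ENNReal.ofReal (2 * Real.pi) ≤ Pool.Agent.H74.Surf.area M := by
  obtain ⟨K, L', S'⟩ := (smap H).sys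
  exact two_pi_of_raw1 S' hφ hT (raw1 H hk C) (nB_real (smap H) (exp_lt hN1).1 hN) (WL_ge hk hw) hCl hxs hph hN1
    M horient σ hσ

/-- **the sharp bound, two certificates, the penalty of the table** -/
theorem two_pi_2 (H : SzZ D) (hk : okW 0 L m = true) (hφ : qOk 1 lφ = true) (hT : 0 ≤ T)
    (C : CertRZ (BkZ D) (WL L m) D.cofZ μ T) (C2 : CertRZ (BkZ D) (WL L m) D.cofZ μ₂ (T + t))
    (hN : BdR (BkZ D) N) (hw : w ≤ iW 0 L m)
    (hCl : Closes (pkG 0 1 (clQ lφ)) c₀ X) (hxs : xsOk μ T w X = true)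
    (hps : psOk μ μ₂ t c₀ x₁ xm lφ = true) (hN1 : expOk N c₀ = true)
    (M : Type) [MetricSpace M] [CompactSpace M] [ChartedSpace (EuclideanHalfSpace 2) M]
    [Pool.Agent.H74.Surf.RiemannianSpace (𝓡∂ 2) M]
    (horient : Pool.Agent.H74.Surf.Orientable (𝓡∂ 2) M) (σ : Pool.Agent.H74.Surf.S1 → M)
    (hσ : Pool.Agent.H74.Surf.IsometricFilling (𝓡∂ 2) σ) :
    ENNReal.ofReal (2 * Real.pi) ≤ Pool.Agent.H74.Surf.area M := by
  obtain ⟨K, L', S'⟩ := (smap H).sys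
  exact two_pi_of_raw2 S' hφ hT (raw2 H hk C C2) (nB_real (smap H) (exp_lt hN1).1 hN) (WL_ge hk hw) hCl hxs hps hN1
    M horient σ hσ

end final

end Pool.Agent.FPX.FSW
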