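import Mathlib
import Pool.Agent.FPX.FSW
import Pool.Agent.FPX.CEUL
import Pool.Agent.FPX.CEZE
import Pool.Agent.FPX.ASR

/-
EJN (helper38): the join for the production class (forms `CofZ`, linear start map): from the cells (`CellZ.ok` or
`CellZ.okW`) and the certificates at the control vectors (`CtlZ` for `PsiL`, no remainder) to `CertRZ`, for a list of
cells which may be finer than the pieces of the weight.
-/

open MeasureTheory Set Filter Topology Complex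
open scoped ComplexConjugate

noncomputable section

set_option linter.unusedSectionVars false

namespace Pool.Agent.FPX.EJN

open Pool.Agent.FPX.BTQ (pe)
open Pool.Agent.FPX.OMS (cF)
open Pool.Agent.FPX.OMR (Re)
open Pool.Agent.FPX.OMY (CertAtZ)
open Pool.Agent.FPX.BV (PsiL devK7)
open Pool.Agent.FPX.CEL
open Pool.Agent.FPX.WPP
open Pool.Agent.FPX.ASL (WL)
open Pool.Agent.FPX.FST
open Pool.Agent.FPX.FSW (BkZ)

/-- the certificate at a control vector, linear start map -/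
abbrev CtlL (s' μ : ℚ) (V : Fin 29 → ℚ) (U : Fin 24 → ℚ) : Prop :=
  CtlZ PsiL 23 23 T0 s' μ V U

/-- a smaller class -/
theorem CtlL.mono {s' s'' μ : ℚ} {V : Fin 29 → ℚ} {U : Fin 24 → ℚ} (H : CtlL s' μ V U) (h0 : 0 ≤ s'')
    (hs : s'' ≤ s') (h1 : s' ≤ 1) : CtlL s'' μ V U := CtlZ.mono H h0 hs h1 fun _ _ h => h

/-- **one cell** -/
theorem cell {D : DatZ} (hL : D.isLin = true) {m : ℕ} {C : CellZ m 24} {μ T s' : ℚ}
    (hC : C.ok D D.ul dLq μ T = true) (h0 : 0 ≤ s') (h1 : s' ≤ 1) (hs : 1 - C.a ^ 2 ≤ s' ^ 2)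
    (H : ∀ l : Fin (m + 1), CtlL s' (C.mu μ) (C.V l) (C.U l)) :
    FSW.CellZ (BkZ D) D.cofZ μ T C.a C.b C.w :=
  cellG (smL hL) hC (TA := T0) (fun _ _ _ _ => rfl) h0 h1 hs H

/-- **one cell**, general a priori weights -/
theorem cellW {D : DatZ} (hL : D.isLin = true) {m : ℕ} {C : CellZ m 24} {μ T s' : ℚ} {wv : Fin 29 → ℚ}
    {wu : Fin 24 → ℚ} (HA : AprOn PsiL wv wu C.a C.b) (hC : C.okW D D.ul wv wu μ T = true) (h0 : 0 ≤ s')
    (h1 : s' ≤ 1) (hs : 1 - C.a ^ 2 ≤ s' ^ 2) (H : ∀ l : Fin (m + 1), CtlL s' (C.mu μ) (C.V l) (C.U l)) :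
    FSW.CellZ (BkZ D) D.cofZ μ T C.a C.b C.w :=
  cellG0 (smL hL) HA hC h0 h1 hs H

/-- **one row**: `L`, `m` the pieces of the weight, `N`, `n` the cells of the row -/
theorem certRZ {D : DatZ} {μ T : ℝ} {L N : List (ℚ × List ℚ)} {m n : List ℚ} (hk : okW 0 L m = true)
    (hs : ASL.subs L m 0 N n = true) (H : AllC (FSW.CellZ (BkZ D) D.cofZ μ T) 0 N n) :
    CertRZ (BkZ D) (WL L m) D.cofZ μ T :=
  fun f R => ASL.real_of_sub (P := fun W f => CertAtZ (BkZ D) W D.cofZ μ T f) hk hs H f R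

end Pool.Agent.FPX.EJN
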