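import Mathlib
import Pool.Agent.FPX.EJN
import Pool.Agent.FPX.CHD

/-
ECH (helper86): glue of the cell modules of the production class: the cell theorem with the Chebyshev norm, a control
point used in a cell with another scale and another class.
-/

open MeasureTheory Set Filter Topology Complex
open scoped ComplexConjugate

noncomputable section

set_option linter.unusedSectionVars false

namespace Pool.Agent.FPX.EJN

open Pool.Agent.FPX.BV (PsiL devK7)
open Pool.Agent.FPX.CEL
open Pool.Agent.FPX.WPP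
open Pool.Agent.FPX.FSW (BkZ)

/-- the vector of a control point in a cell: `t` times the vector of the certificate, the price `e` in the slot 14 -/
def tv (t e : ℚ) (v : Fin 29 → ℚ) (i : Fin 29) : ℚ := if i = 14 then e else t * v i

/-- the numbers of a control point: `0 < t ≤ 1`, `0 ≤ s' ≤ s ≤ 1`, `e ≤ t v₁₄` -/
def tsOk (t s s' e : ℚ) (v : Fin 29 → ℚ) : Bool :=
  decide (0 < t) && (decide (t ≤ 1) && (decide (0 ≤ s') && (decide (s' ≤ s) && (decide (s ≤ 1)
    && decide (e ≤ t * v 14)))))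

/-- **a control point in a cell** -/
theorem CtlL.at {t e s s' μ μ' : ℚ} {v : Fin 29 → ℚ} {u : Fin 24 → ℚ} (H : CtlL s μ v u)
    (h : tsOk t s s' e v = true) (hμ : μ' = t * μ) : CtlL s' μ' (tv t e v) u := by
  unfold tsOk at h
  simp only [Bool.and_eq_true, decide_eq_true_eq] at h
  obtain ⟨h1, h2, h3, h4, h5, h6⟩ := h
  rw [hμ]
  refine ((CtlZ.scale H h1 h2).mono14 (fun k hk => ?_) ?_).mono h3 h4 h5 fun _ _ h => h
  · unfold tv
    rw [if_neg hk]
  · unfold tv
    rw [if_pos rfl]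
    exact h6

/-- the numbers of a cell: `0 ≤ s' ≤ 1`, `1 - a² ≤ s'²` -/
def spOk (a s' : ℚ) : Bool := decide (0 ≤ s') && (decide (s' ≤ 1) && decide (1 - a ^ 2 ≤ s' ^ 2))

/-- **one cell, Chebyshev norm** -/
theorem cellC {D : DatZ} (hL : D.isLin = true) {m : ℕ} {C : CellZ m 24} {μ T s' : ℚ} {wv : Fin 29 → ℚ}
    {wu : Fin 24 → ℚ} (HA : AprOn PsiL wv wu C.a C.b) (hC : C.okC D D.ul wv wu μ T = true)
    (hs : spOk C.a s' = true) (H : ∀ l : Fin (m + 1), CtlL s' (C.mu μ) (C.V l) (C.U l)) :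
    FSW.CellZ (BkZ D) D.cofZ μ T C.a C.b C.w := by
  unfold spOk at hs
  simp only [Bool.and_eq_true, decide_eq_true_eq] at hs
  obtain ⟨h0, h1, h2⟩ := hs
  exact cellC0 (smL hL) HA hC h0 h1 h2 H

end Pool.Agent.FPX.EJN
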