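import Mathlib
import Pool.Agent.FPX.CEZ

/-
EV_A0_0 (helper86): the control vector A0_0.
-/

noncomputable section

set_option linter.all false
set_option maxRecDepth 100000

namespace Pool.Agent.FPX.EV_A0_0

def sp : ℚ := 1

def mu : ℚ := 33554432 / 223476055

def v : Fin 29 → ℚ :=
  ![250803 / 262144, -12897663 / 67108864, -45073211 / 67108864, 62843 / 262144, 13365789 / 67108864,
    7893181 / 67108864, 15906647 / 67108864, 15906681 / 67108864, 58310589 / 67108864, -5634155 / 8388608,
    3437915 / 67108864, -2438355 / 67108864, 9 / 67108864, 0, 65 / 67108864, -3274585 / 33554432,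
    -3241245 / 67108864, 394567 / 4194304, 84225 / 67108864, -6482459 / 33554432, -1946515 / 4194304,
    -7970493 / 33554432, -498157 / 2097152, -827 / 1048576, -1 / 2097152, 0, -1713445 / 8388608, -4307361 / 33554432,
    -12136605 / 67108864]

def u : Fin 24 → ℚ :=
  ![1, -1 / 33554432, 19 / 67108864, -1 / 67108864, -117 / 67108864, -7 / 67108864, 5 / 67108864, 1 / 67108864,
    -19 / 33554432, 1 / 67108864, -1 / 33554432, 1 / 67108864, -1 / 67108864, 5 / 67108864, 1 / 67108864,
    -1 / 33554432, 0, -1 / 33554432, -1 / 33554432, -25794367 / 67108864, 9796605 / 67108864, 151251 / 1048576,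
    1138277 / 16777216, 0]

end Pool.Agent.FPX.EV_A0_0
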