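import Mathlib
import Pool.Agent.FPX.CEZ

/-
EV_A0_1 (helper86): the control vector A0_1.
-/

noncomputable section

set_option linter.all false
set_option maxRecDepth 100000

namespace Pool.Agent.FPX.EV_A0_1

def sp : ℚ := 1

def mu : ℚ := 33554432 / 223476055

def v : Fin 29 → ℚ :=
  ![125903 / 131072, -4436931 / 33554432, -45073405 / 67108864, 15174349 / 67108864, 13427579 / 67108864,
    7649061 / 67108864, 7953489 / 33554432, 12883413 / 67108864, 55819887 / 67108864, -21313521 / 33554432,
    1688373 / 33554432, -564097 / 16777216, -85 / 67108864, -181967 / 33554432, 65 / 67108864, -4155927 / 67108864,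
    -1401107 / 33554432, 1550919 / 16777216, 35965 / 33554432, -16873925 / 67108864, -15207653 / 33554432,
    -18801667 / 67108864, -15940563 / 67108864, -140701 / 33554432, 157 / 33554432, 228473 / 33554432,
    -3339419 / 16777216, -8286921 / 67108864, -12180777 / 67108864]

def u : Fin 24 → ℚ :=
  ![1, -75499 / 67108864, 9949 / 16777216, -38101 / 67108864, 221967 / 16777216, -9431 / 8388608, 39937 / 67108864,
    -38119 / 67108864, 110887 / 8388608, -13 / 67108864, 5 / 16777216, -3 / 33554432, 9 / 67108864, -51 / 67108864,
    -7 / 67108864, 5 / 16777216, -1 / 67108864, 1 / 4194304, 21 / 67108864, -12859429 / 33554432, 9756651 / 67108864,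
    2429543 / 16777216, 1833089 / 33554432, 0]

end Pool.Agent.FPX.EV_A0_1
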