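import Mathlib
import Pool.Agent.FPX.CEZ

/-
EV_A0_2 (helper86): the control vector A0_2.
-/

noncomputable section

set_option linter.all false
set_option maxRecDepth 100000

namespace Pool.Agent.FPX.EV_A0_2

def sp : ℚ := 1

def mu : ℚ := 33554432 / 223476055

def v : Fin 29 → ℚ :=
  ![1010617 / 1048576, -1335909 / 16777216, -44996045 / 67108864, 14335761 / 67108864, 6736063 / 33554432,
    7400009 / 67108864, 1956101 / 8388608, 316983 / 2097152, 53526207 / 67108864, -10083113 / 16777216,
    1662299 / 33554432, -2086075 / 67108864, -12045 / 33554432, -21289 / 2097152, 65 / 67108864, -504059 / 16777216,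
    -1216817 / 33554432, 3042843 / 33554432, 61263 / 67108864, -19787823 / 67108864, -29648855 / 67108864,
    -10626871 / 33554432, -8188783 / 33554432, -479765 / 67108864, -491 / 16777216, 198363 / 16777216,
    -12991267 / 67108864, -993749 / 8388608, -12285601 / 67108864]

def u : Fin 24 → ℚ :=
  ![1, -197733 / 67108864, 98011 / 33554432, -87753 / 67108864, 98111 / 4194304, -283887 / 67108864,
    130227 / 67108864, -23161 / 67108864, 763441 / 33554432, 2077 / 16777216, -793 / 8388608, 303 / 16777216,
    -6233 / 67108864, -1371 / 33554432, 2379 / 67108864, 1041 / 67108864, 1167 / 67108864, 519 / 33554432,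
    23 / 8388608, -6399621 / 16777216, 9675161 / 67108864, 609119 / 4194304, 2891557 / 67108864, 0]

end Pool.Agent.FPX.EV_A0_2
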