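import Mathlib
import Pool.Agent.FPX.CEZ

/-
EV_A0_3 (helper86): the control vector A0_3.
-/

noncomputable section

set_option linter.all false
set_option maxRecDepth 100000

namespace Pool.Agent.FPX.EV_A0_3

def sp : ℚ := 1

def mu : ℚ := 33554432 / 223476055

def v : Fin 29 → ℚ :=
  ![1013941 / 1048576, -1138323 / 33554432, -11207437 / 16777216, 13569313 / 67108864, 13488177 / 67108864,
    446815 / 4194304, 15137629 / 67108864, 7665565 / 67108864, 25708317 / 33554432, -38179477 / 67108864,
    3280319 / 67108864, -963311 / 33554432, -3621 / 4194304, -956721 / 67108864, 65 / 67108864, -54117 / 33554432,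
    -2127989 / 67108864, 1490159 / 16777216, 13051 / 16777216, -10918339 / 33554432, -28855433 / 67108864,
    -23334049 / 67108864, -17210129 / 67108864, -650697 / 67108864, -8161 / 16777216, 256399 / 16777216,
    -1576437 / 8388608, -3804739 / 33554432, -776813 / 4194304]

def u : Fin 24 → ℚ :=
  ![1, -358663 / 67108864, 450533 / 67108864, -70159 / 33554432, 1010471 / 33554432, -613669 / 67108864,
    32363 / 8388608, 3461 / 4194304, 976985 / 33554432, 24165 / 67108864, -18159 / 67108864, 3411 / 67108864,
    -1159 / 4194304, -2115 / 33554432, 871 / 8388608, 1589 / 67108864, 1779 / 33554432, 1623 / 67108864,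
    185 / 67108864, -25436415 / 67108864, 4778447 / 33554432, 4880029 / 33554432, 2229247 / 67108864, 0]

end Pool.Agent.FPX.EV_A0_3
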