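import Mathlib
import Pool.Agent.FPX.EDAT
import Pool.Agent.FPX.ECH
import Pool.Agent.FPX.CSC
import Pool.Agent.FPX.EV_A0_0
import Pool.Agent.FPX.EV_A0_1
import Pool.Agent.FPX.EV_A0_2
import Pool.Agent.FPX.EV_A0_3

/-
ECA_0 (helper86): the latitude cell [0, 1/20], row A.
-/

noncomputable section

set_option linter.all false
set_option maxRecDepth 100000

namespace Pool.Agent.FPX.ECA_0

open Pool.Agent.FPX.CEL
open Pool.Agent.FPX.EJN
open Pool.Agent.FPX.EDAT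

open Pool.Agent.FPX.BV (PsiL)
open Pool.Agent.FPX.FSW (BkZ)

def C : CellZ 3 24 where
  a := 0
  b := 1 / 20
  r := 131071 / 131072
  ε := 1 / 1023
  w := [32873000013 / 34359738368, 1971963195 / 8589934592, -6084971175 / 8589934592, 4505565625 / 1073741824]
  R := [4194303 / 4194304, 0, 267759313 / 268435456, 107913073 / 1073741824]
  η := 1 / 524288
  n := 4
  V := ![tv (1) (1 / 1048568) EV_A0_0.v, tv (1) (1 / 1048568) EV_A0_1.v, tv (1) (1 / 1048568) EV_A0_2.v,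
    tv (1) (1 / 1048568) EV_A0_3.v]
  U := ![EV_A0_0.u, EV_A0_1.u, EV_A0_2.u, EV_A0_3.u]

def wv : Fin 29 → ℚ := ![1029 / 500, 67 / 250, 67 / 250, 283 / 100, 52 / 125, 338 / 125, 21 / 250, 209 / 500,
    183 / 125, 183 / 125, 287 / 200, 4233 / 1000, 21 / 250, 21 / 20, 1029 / 250, 7 / 8, 731 / 1000, 2681 / 1000,
    2741 / 1000, 13 / 250, 127 / 500, 67 / 200, 4 / 125, 824 / 125, 4 / 125, 161 / 200, 1281 / 500, 1387 / 500,
    67 / 250]

def wu : Fin 24 → ℚ := ![287 / 200, 29 / 100, 29 / 100, 177 / 1000, 177 / 1000, 29 / 100, 29 / 100, 177 / 1000,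
    177 / 1000, 59 / 1000, 59 / 1000, 59 / 1000, 9 / 250, 9 / 250, 9 / 250, 9 / 250, 11 / 500, 11 / 500, 11 / 500,
    1559 / 1000, 1559 / 1000, 537 / 250, 537 / 250, 0]

def sp : ℚ := 1

def bd : CSB.Bd := ⟨2869 / 2000, 1803 / 5000, 2019 / 10000, 1233 / 10000, 907 / 10000, 13 / 100⟩

theorem apr : AprOn PsiL wv wu C.a C.b := CSB.Bd.aprL' (by decide +kernel : bd.okL sp C.a wv wu = true) _

theorem ok : C.okC D D.ul wv wu muA TA = true := by decide +kernel

/-- **the cell** -/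
theorem cell
    (H0 : CtlL EV_A0_0.sp EV_A0_0.mu EV_A0_0.v EV_A0_0.u)
    (H1 : CtlL EV_A0_1.sp EV_A0_1.mu EV_A0_1.v EV_A0_1.u)
    (H2 : CtlL EV_A0_2.sp EV_A0_2.mu EV_A0_2.v EV_A0_2.u)
    (H3 : CtlL EV_A0_3.sp EV_A0_3.mu EV_A0_3.v EV_A0_3.u) :
    FSW.CellZ (BkZ D) D.cofZ ((muA : ℚ) : ℝ) ((TA : ℚ) : ℝ) C.a C.b C.w := by
  refine EJN.cellC EDAT.isLin apr ok (by decide +kernel : spOk C.a sp = true) fun l => ?_
  fin_cases l
  · exact H0.at (t := 1) (e := 1 / 1048568) (by decide +kernel) (by decide +kernel)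
  · exact H1.at (t := 1) (e := 1 / 1048568) (by decide +kernel) (by decide +kernel)
  · exact H2.at (t := 1) (e := 1 / 1048568) (by decide +kernel) (by decide +kernel)
  · exact H3.at (t := 1) (e := 1 / 1048568) (by decide +kernel) (by decide +kernel)

end Pool.Agent.FPX.ECA_0
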