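import Mathlib
import Pool.Agent.FPX.CEZ

/-
EV_A1_1 (helper86): the control vector A1_1.
-/

noncomputable section

set_option linter.all false
set_option maxRecDepth 100000

namespace Pool.Agent.FPX.EV_A1_1

def sp : ℚ := 65455 / 65536

def mu : ℚ := 33554432 / 223476055

def v : Fin 29 → ℚ :=
  ![508495 / 524288, 790885 / 67108864, -44663775 / 67108864, 3200693 / 16777216, 13504409 / 67108864,
    6898059 / 67108864, 14627027 / 67108864, 1296919 / 16777216, 49307063 / 67108864, -18013253 / 33554432,
    3236025 / 67108864, -6903 / 262144, -45971 / 33554432, -1232195 / 67108864, 65 / 67108864, 899885 / 33554432,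
    -1822275 / 67108864, 5835583 / 67108864, 43143 / 67108864, -11943175 / 33554432, -28061961 / 67108864,
    -25414353 / 67108864, -18041887 / 67108864, -821631 / 67108864, -31363 / 33554432, 628871 / 33554432,
    -3057933 / 16777216, -3634475 / 33554432, -3143111 / 16777216]

def u : Fin 24 → ℚ :=
  ![1, -519545 / 67108864, 352349 / 33554432, -96443 / 33554432, 1237165 / 33554432, -471653 / 33554432,
    387499 / 67108864, 66919 / 33554432, 2381719 / 67108864, 4999 / 8388608, -14969 / 33554432, 5603 / 67108864,
    -30835 / 67108864, -5829 / 67108864, 11539 / 67108864, 2183 / 67108864, 2971 / 33554432, 281 / 8388608,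
    51 / 16777216, -3159297 / 8388608, 9438685 / 67108864, 9774221 / 67108864, 1566557 / 67108864, 0]

end Pool.Agent.FPX.EV_A1_1
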