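import Mathlib
import Pool.Agent.FPX.CEZ

/-
EV_A1_2 (helper86): the control vector A1_2.
-/

noncomputable section

set_option linter.all false
set_option maxRecDepth 100000

namespace Pool.Agent.FPX.EV_A1_2

def sp : ℚ := 65455 / 65536

def mu : ℚ := 33554432 / 223476055

def v : Fin 29 → ℚ :=
  ![509837 / 524288, 1697671 / 33554432, -44408983 / 67108864, 12108349 / 67108864, 13492147 / 67108864,
    1661291 / 16777216, 6931801 / 33554432, 742963 / 16777216, 47381597 / 67108864, -8503787 / 16777216,
    3199599 / 67108864, -404643 / 16777216, -135845 / 67108864, -366457 / 16777216, 65 / 67108864,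
    1738041 / 33554432, -1579467 / 67108864, 5703471 / 67108864, 4461 / 8388608, -25071363 / 67108864,
    -27241511 / 67108864, -27122887 / 67108864, -9634475 / 33554432, -965131 / 67108864, -121025 / 67108864,
    1385527 / 67108864, -5919305 / 33554432, -432803 / 4194304, -3188597 / 16777216]

def u : Fin 24 → ℚ :=
  ![1, -179775 / 16777216, 1056985 / 67108864, -248319 / 67108864, 1348851 / 33554432, -1394245 / 67108864,
    554419 / 67108864, 275993 / 67108864, 1298577 / 33554432, 63347 / 67108864, -5893 / 8388608, 8771 / 67108864,
    -24601 / 33554432, -1561 / 16777216, 18313 / 67108864, 2307 / 67108864, 4777 / 33554432, 2441 / 67108864,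
    27 / 16777216, -25070645 / 67108864, 9283723 / 67108864, 1221849 / 8388608, 508037 / 33554432, 0]

end Pool.Agent.FPX.EV_A1_2
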