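import Mathlib
import Pool.Agent.FPX.CEZ

/-
EV_A1_3 (helper86): the control vector A1_3.
-/

noncomputable section

set_option linter.all false
set_option maxRecDepth 100000

namespace Pool.Agent.FPX.EV_A1_3

def sp : ℚ := 65455 / 65536

def mu : ℚ := 33554432 / 223476055

def v : Fin 29 → ℚ :=
  ![511027 / 524288, 5580033 / 67108864, -5507867 / 8388608, 1435135 / 8388608, 13444507 / 67108864,
    799131 / 8388608, 12866947 / 67108864, 996857 / 67108864, 45627331 / 67108864, -8033857 / 16777216,
    3169591 / 67108864, -185005 / 8388608, -179393 / 67108864, -831201 / 33554432, 65 / 67108864, 1235643 / 16777216,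
    -347589 / 16777216, 2782919 / 33554432, 14851 / 33554432, -6385321 / 16777216, -1650211 / 4194304,
    -28496483 / 67108864, -20830625 / 67108864, -541943 / 33554432, -218989 / 67108864, 1425037 / 67108864,
    -2858857 / 16777216, -822803 / 8388608, -12953419 / 67108864]

def u : Fin 24 → ℚ :=
  ![1, -948215 / 67108864, 740477 / 33554432, -74521 / 16777216, 1359779 / 33554432, -975705 / 33554432,
    372871 / 33554432, 122627 / 16777216, 1325341 / 33554432, 92791 / 67108864, -17001 / 16777216, 12459 / 67108864,
    -72941 / 67108864, -4247 / 67108864, 3341 / 8388608, 389 / 16777216, 7167 / 33554432, 1669 / 67108864,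
    49 / 67108864, -24829003 / 67108864, 9098143 / 67108864, 9758749 / 67108864, 568699 / 67108864, 0]

end Pool.Agent.FPX.EV_A1_3
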