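import Mathlib
import Pool.Agent.FPX.EDAT
import Pool.Agent.FPX.ECH
import Pool.Agent.FPX.CSC
import Pool.Agent.FPX.EV_A0_3
import Pool.Agent.FPX.EV_A1_1
import Pool.Agent.FPX.EV_A1_2
import Pool.Agent.FPX.EV_A1_3

/-
ECA_1 (helper86): the latitude cell [1/20, 1/10], row A.
-/

noncomputable section

set_option linter.all false
set_option maxRecDepth 100000

namespace Pool.Agent.FPX.ECA_1

open Pool.Agent.FPX.CEL
open Pool.Agent.FPX.EJN
open Pool.Agent.FPX.EDAT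

open Pool.Agent.FPX.BV (PsiL)
open Pool.Agent.FPX.FSW (BkZ)

def C : CellZ 3 24 where
  a := 1 / 20
  b := 1 / 10
  r := 131071 / 131072
  ε := 1 / 1023
  w := [65773918149 / 68719476736, 29490975 / 134217728, -2093859225 / 4294967296, 999416375 / 2147483648]
  R := [536856573 / 536870912, 424245 / 268435456, 1037263631 / 1073741824, 331963999 / 1073741824]
  η := 1 / 524288
  n := 4
  V := ![tv (1) (1 / 1048568) EV_A0_3.v, tv (1) (1 / 1048568) EV_A1_1.v, tv (1) (1 / 1048568) EV_A1_2.v,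
    tv (1) (1 / 1048568) EV_A1_3.v]
  U := ![EV_A0_3.u, EV_A1_1.u, EV_A1_2.u, EV_A1_3.u]

def wv : Fin 29 → ℚ := ![257 / 125, 267 / 1000, 267 / 1000, 353 / 125, 83 / 200, 2701 / 1000, 21 / 250, 417 / 1000,
    1461 / 1000, 1461 / 1000, 717 / 500, 4227 / 1000, 21 / 250, 1047 / 1000, 514 / 125, 873 / 1000, 729 / 1000,
    1339 / 500, 1369 / 500, 13 / 250, 127 / 500, 167 / 500, 4 / 125, 6579 / 1000, 4 / 125, 803 / 1000, 2557 / 1000,
    346 / 125, 267 / 1000]

def wu : Fin 24 → ℚ := ![717 / 500, 29 / 100, 29 / 100, 177 / 1000, 177 / 1000, 29 / 100, 29 / 100, 177 / 1000,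
    177 / 1000, 59 / 1000, 59 / 1000, 59 / 1000, 9 / 250, 9 / 250, 9 / 250, 9 / 250, 11 / 500, 11 / 500, 11 / 500,
    1557 / 1000, 1557 / 1000, 429 / 200, 429 / 200, 0]

def sp : ℚ := 65455 / 65536

def bd : CSB.Bd := ⟨7169 / 5000, 1801 / 5000, 2017 / 10000, 77 / 625, 453 / 5000, 1297 / 10000⟩

theorem apr : AprOn PsiL wv wu C.a C.b := CSB.Bd.aprL' (by decide +kernel : bd.okL sp C.a wv wu = true) _

theorem ok : C.okC D D.ul wv wu muA TA = true := by decide +kernel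

/-- **the cell** -/
theorem cell
    (H0 : CtlL EV_A0_3.sp EV_A0_3.mu EV_A0_3.v EV_A0_3.u)
    (H1 : CtlL EV_A1_1.sp EV_A1_1.mu EV_A1_1.v EV_A1_1.u)
    (H2 : CtlL EV_A1_2.sp EV_A1_2.mu EV_A1_2.v EV_A1_2.u)
    (H3 : CtlL EV_A1_3.sp EV_A1_3.mu EV_A1_3.v EV_A1_3.u) :
    FSW.CellZ (BkZ D) D.cofZ ((muA : ℚ) : ℝ) ((TA : ℚ) : ℝ) C.a C.b C.w := by
  refine EJN.cellC EDAT.isLin apr ok (by decide +kernel : spOk C.a sp = true) fun l => ?_
  fin_cases l
  · exact H0.at (t := 1) (e := 1 / 1048568) (by decide +kernel) (by decide +kernel)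
  · exact H1.at (t := 1) (e := 1 / 1048568) (by decide +kernel) (by decide +kernel)
  · exact H2.at (t := 1) (e := 1 / 1048568) (by decide +kernel) (by decide +kernel)
  · exact H3.at (t := 1) (e := 1 / 1048568) (by decide +kernel) (by decide +kernel)

end Pool.Agent.FPX.ECA_1
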