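import Mathlib
import Pool.Agent.FPX.CEZ

/-
EV_A10_1 (helper86): the control vector A10_1.
-/

noncomputable section

set_option linter.all false
set_option maxRecDepth 100000

namespace Pool.Agent.FPX.EV_A10_1

def sp : ℚ := 14189 / 16384

def mu : ℚ := 33554432 / 223476055

def v : Fin 29 → ℚ :=
  ![523279 / 524288, 7360591 / 67108864, -11733743 / 33554432, 4981845 / 67108864, 6083979 / 67108864,
    1290465 / 67108864, -35688841 / 67108864, -10521393 / 67108864, 14971015 / 33554432, -6770269 / 67108864,
    2746819 / 67108864, 349479 / 67108864, 1512085 / 67108864, -1622437 / 67108864, 97 / 67108864,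
    10554591 / 67108864, -816019 / 33554432, 455911 / 16777216, 20127 / 67108864, 19427065 / 67108864,
    -3061045 / 33554432, -14384797 / 67108864, -38100157 / 33554432, -448729 / 67108864, -3319843 / 67108864,
    -6685183 / 67108864, -319257 / 16777216, -472631 / 67108864, -13532139 / 67108864]

def u : Fin 24 → ℚ :=
  ![1, -7151199 / 67108864, 9979765 / 67108864, 2025023 / 67108864, -778487 / 67108864, -420395 / 1048576,
    842369 / 16777216, 17438003 / 67108864, -875837 / 67108864, 249975 / 16777216, -166955 / 33554432,
    27791 / 67108864, -779701 / 67108864, -437 / 8388608, 130071 / 67108864, 633 / 67108864, 75979 / 33554432,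
    175 / 8388608, -1 / 16777216, -3390319 / 16777216, 564473 / 16777216, 5282819 / 67108864, 25559 / 67108864, 0]

end Pool.Agent.FPX.EV_A10_1
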