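import Mathlib
import Pool.Agent.FPX.CEZ

/-
EV_A10_2 (helper86): the control vector A10_2.
-/

noncomputable section

set_option linter.all false
set_option maxRecDepth 100000

namespace Pool.Agent.FPX.EV_A10_2

def sp : ℚ := 14189 / 16384

def mu : ℚ := 33554432 / 223476055

def v : Fin 29 → ℚ :=
  ![130843 / 131072, 6722481 / 67108864, -11320907 / 33554432, 4877705 / 67108864, 5687473 / 67108864,
    145601 / 8388608, -37210827 / 67108864, -9931743 / 67108864, 15084209 / 33554432, -801167 / 8388608,
    2701807 / 67108864, 5849 / 1048576, 884523 / 33554432, -1533251 / 67108864, 97 / 67108864, 2507057 / 16777216,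
    -1604897 / 67108864, 1694691 / 67108864, 9795 / 33554432, 20175951 / 67108864, -5517457 / 67108864,
    -3179099 / 16777216, -38168205 / 33554432, -21233 / 4194304, -43329 / 1048576, -6988425 / 67108864,
    -955831 / 67108864, -189017 / 33554432, -13241757 / 67108864]

def u : Fin 24 → ℚ :=
  ![1, -1799325 / 16777216, 4876263 / 33554432, 2231287 / 67108864, -364989 / 67108864, -6972719 / 16777216,
    400401 / 8388608, 9030115 / 33554432, -36177 / 4194304, 1004981 / 67108864, -317267 / 67108864, 6241 / 16777216,
    -767899 / 67108864, -6981 / 67108864, 15131 / 8388608, 1111 / 67108864, 146603 / 67108864, 1339 / 33554432,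
    3 / 16777216, -13011881 / 67108864, 512311 / 16777216, 4966159 / 67108864, 22713 / 33554432, 0]

end Pool.Agent.FPX.EV_A10_2
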