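import Mathlib
import Pool.Agent.FPX.CEZ

/-
EV_A10_3 (helper86): the control vector A10_3.
-/

noncomputable section

set_option linter.all false
set_option maxRecDepth 100000

namespace Pool.Agent.FPX.EV_A10_3

def sp : ℚ := 14189 / 16384

def mu : ℚ := 33554432 / 223476055

def v : Fin 29 → ℚ :=
  ![1046899 / 1048576, 769705 / 8388608, -21905385 / 67108864, 4764351 / 67108864, 5304595 / 67108864,
    131207 / 8388608, -38449493 / 67108864, -2323111 / 16777216, 30449793 / 67108864, -6090163 / 67108864,
    2649407 / 67108864, 99077 / 16777216, 2062493 / 67108864, -362509 / 16777216, 129 / 67108864, 9488811 / 67108864,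
    -194051 / 8388608, 392961 / 16777216, 9383 / 33554432, 20545429 / 67108864, -4958705 / 67108864,
    -11044549 / 67108864, -18948849 / 16777216, -230105 / 67108864, -997961 / 33554432, -7235205 / 67108864,
    -656197 / 67108864, -149785 / 33554432, -6465369 / 33554432]

def u : Fin 24 → ℚ :=
  ![1, -3599789 / 33554432, 2366449 / 16777216, 1211429 / 33554432, -10389 / 67108864, -7206321 / 16777216,
    1505849 / 33554432, 18550511 / 67108864, -268367 / 67108864, 1004291 / 67108864, -299727 / 67108864,
    22363 / 67108864, -374481 / 33554432, -3993 / 33554432, 111763 / 67108864, 149 / 8388608, 139637 / 67108864,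
    1489 / 33554432, 1 / 4194304, -6233031 / 33554432, 930113 / 33554432, 1162091 / 16777216, 49569 / 67108864, 0]

end Pool.Agent.FPX.EV_A10_3
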