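import Mathlib
import Pool.Agent.FPX.CEZ

/-
EV_A9_3 (helper86): the control vector A9_3.
-/

noncomputable section

set_option linter.all false
set_option maxRecDepth 100000

namespace Pool.Agent.FPX.EV_A9_3

def sp : ℚ := 29263 / 32768

def mu : ℚ := 33554432 / 223476055

def v : Fin 29 → ℚ :=
  ![1046291 / 1048576, 8043179 / 67108864, -12176011 / 33554432, 317691 / 4194304, 6487491 / 67108864,
    713321 / 33554432, -4245369 / 8388608, -2760037 / 16777216, 29783539 / 67108864, -7182951 / 67108864,
    2785179 / 67108864, 160465 / 33554432, 1283715 / 67108864, -1712813 / 67108864, 97 / 67108864,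
    2761509 / 16777216, -1636351 / 67108864, 978897 / 33554432, 20307 / 67108864, 18315305 / 67108864,
    -3383511 / 33554432, -8006461 / 33554432, -18883005 / 16777216, -138605 / 16777216, -924039 / 16777216,
    -396347 / 4194304, -202047 / 8388608, -73159 / 8388608, -13791539 / 67108864]

def u : Fin 24 → ℚ :=
  ![1, -441533 / 4194304, 5064217 / 33554432, 227067 / 8388608, -73509 / 4194304, -25878301 / 67108864,
    3501541 / 67108864, 8364107 / 33554432, -1124627 / 67108864, 988947 / 67108864, -43543 / 8388608,
    30675 / 67108864, -97979 / 8388608, 1807 / 67108864, 138047 / 67108864, -159 / 33554432, 155315 / 67108864,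
    -179 / 16777216, 1 / 67108864, -14110333 / 67108864, 621273 / 16777216, 2795939 / 33554432, -12889 / 67108864, 0]

end Pool.Agent.FPX.EV_A9_3
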