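import Mathlib
import Pool.Agent.FPX.CEZ

/-
EV_A11_1 (helper86): the control vector A11_1.
-/

noncomputable section

set_option linter.all false
set_option maxRecDepth 100000

namespace Pool.Agent.FPX.EV_A11_1

def sp : ℚ := 27367 / 32768

def mu : ℚ := 33554432 / 223476055

def v : Fin 29 → ℚ :=
  ![523579 / 524288, 174755 / 2097152, -21168623 / 67108864, 2325537 / 33554432, 4921653 / 67108864,
    467249 / 33554432, -4960895 / 8388608, -8653145 / 67108864, 960349 / 2097152, -5770991 / 67108864,
    2597021 / 67108864, 209139 / 33554432, 589037 / 16777216, -1366821 / 67108864, 129 / 67108864,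
    8949395 / 67108864, -1500041 / 67108864, 1448989 / 67108864, 8971 / 33554432, 20916839 / 67108864,
    -2199943 / 33554432, -9372705 / 67108864, -75252481 / 67108864, -120479 / 67108864, -1218185 / 67108864,
    -7481981 / 67108864, -89139 / 16777216, -221075 / 67108864, -6309873 / 33554432]

def u : Fin 24 → ℚ :=
  ![1, -3600973 / 33554432, 9179375 / 67108864, 20425 / 524288, 10771 / 2097152, -232499 / 524288,
    2820325 / 67108864, 9520471 / 33554432, 41989 / 67108864, 250903 / 16777216, -282183 / 67108864, 1235 / 4194304,
    -365031 / 33554432, -4515 / 33554432, 102473 / 67108864, 1277 / 67108864, 132683 / 67108864, 3295 / 67108864,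
    5 / 16777216, -5960109 / 33554432, 417785 / 16777216, 541325 / 8388608, 13465 / 16777216, 0]

end Pool.Agent.FPX.EV_A11_1
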