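import Mathlib
import Pool.Agent.FPX.CEZ

/-
EV_A11_2 (helper86): the control vector A11_2.
-/

noncomputable section

set_option linter.all false
set_option maxRecDepth 100000

namespace Pool.Agent.FPX.EV_A11_2

def sp : ℚ := 27367 / 32768

def mu : ℚ := 33554432 / 223476055

def v : Fin 29 → ℚ :=
  ![1047269 / 1048576, 637493 / 8388608, -641279 / 2097152, 4528581 / 67108864, 4552345 / 67108864,
    829845 / 67108864, -40640973 / 67108864, -7964193 / 67108864, 31067527 / 67108864, -2746789 / 33554432,
    79289 / 2097152, 437357 / 67108864, 2686167 / 67108864, -644789 / 33554432, 129 / 67108864, 4198463 / 33554432,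
    -711165 / 33554432, 333059 / 16777216, 16831 / 67108864, 10454457 / 33554432, -3886967 / 67108864,
    -7697415 / 67108864, -74031729 / 67108864, -1279 / 8388608, -210241 / 67108864, -959037 / 8388608,
    -19619 / 16777216, -9919 / 4194304, -12288189 / 67108864]

def u : Fin 24 → ℚ :=
  ![1, -3580247 / 33554432, 8833615 / 67108864, 1395597 / 33554432, 319999 / 33554432, -30643277 / 67108864,
    162735 / 4194304, 19399251 / 67108864, 45685 / 8388608, 249293 / 16777216, -32969 / 8388608, 4345 / 16777216,
    -704035 / 67108864, -7593 / 67108864, 92923 / 67108864, 61 / 4194304, 3879 / 2097152, 165 / 4194304,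
    3 / 16777216, -355561 / 2097152, 187709 / 8388608, 501465 / 8388608, 10629 / 16777216, 0]

end Pool.Agent.FPX.EV_A11_2
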