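import Mathlib
import Pool.Agent.FPX.CEZ

/-
EV_A11_3 (helper86): the control vector A11_3.
-/

noncomputable section

set_option linter.all false
set_option maxRecDepth 100000

namespace Pool.Agent.FPX.EV_A11_3

def sp : ℚ := 27367 / 32768

def mu : ℚ := 33554432 / 223476055

def v : Fin 29 → ℚ :=
  ![1047365 / 1048576, 1173491 / 16777216, -19994821 / 67108864, 4392483 / 67108864, 4201615 / 67108864,
    367739 / 33554432, -41224637 / 67108864, -3623417 / 33554432, 7861491 / 16777216, -5247943 / 67108864,
    2469777 / 67108864, 227173 / 33554432, 3066797 / 67108864, -611543 / 33554432, 289 / 67108864,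
    7853265 / 67108864, -659927 / 33554432, 611167 / 33554432, 7773 / 33554432, 20553079 / 67108864,
    -3423823 / 67108864, -6055515 / 67108864, -71976629 / 67108864, 97965 / 67108864, 1102021 / 67108864,
    -7790055 / 67108864, 5461 / 2097152, -109859 / 67108864, -1493367 / 8388608]

def u : Fin 24 → ℚ :=
  ![1, -3537133 / 33554432, 2113773 / 16777216, 2940197 / 67108864, 813041 / 67108864, -3933771 / 8388608,
    1187133 / 33554432, 19585049 / 67108864, 332491 / 33554432, 985397 / 67108864, -122809 / 33554432,
    7653 / 33554432, -672317 / 67108864, -3987 / 67108864, 83791 / 67108864, 497 / 67108864, 114677 / 67108864,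
    85 / 4194304, 1 / 16777216, -10842629 / 67108864, 1351299 / 67108864, 3698863 / 67108864, 10973 / 33554432, 0]

end Pool.Agent.FPX.EV_A11_3
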