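import Mathlib
import Pool.Agent.FPX.CEZ

/-
EV_A12_1 (helper86): the control vector A12_1.
-/

noncomputable section

set_option linter.all false
set_option maxRecDepth 100000

namespace Pool.Agent.FPX.EV_A12_1

def sp : ℚ := 52429 / 65536

def mu : ℚ := 33554432 / 223476055

def v : Fin 29 → ℚ :=
  ![523783 / 524288, 4205437 / 67108864, -19362429 / 67108864, 4229331 / 67108864, 3780607 / 67108864,
    311111 / 33554432, -41921569 / 67108864, -399125 / 4194304, 7975021 / 16777216, -4953179 / 67108864,
    1194423 / 33554432, 474729 / 67108864, 1762153 / 33554432, -1143297 / 67108864, 289 / 67108864,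
    7200875 / 67108864, -1197147 / 67108864, 545219 / 33554432, 14007 / 67108864, 10065003 / 33554432,
    -1433935 / 33554432, -4085237 / 67108864, -34752219 / 33554432, 113899 / 33554432, 2678541 / 67108864,
    -3965685 / 33554432, 239317 / 33554432, -51209 / 67108864, -2884321 / 16777216]

def u : Fin 24 → ℚ :=
  ![1, -3485491 / 33554432, 8001071 / 67108864, 3119101 / 67108864, 511701 / 33554432, -32462817 / 67108864,
    2099003 / 67108864, 4952209 / 16777216, 1024881 / 67108864, 485643 / 33554432, -111913 / 33554432,
    1601 / 8388608, -317153 / 33554432, 35 / 8388608, 72811 / 67108864, -19 / 16777216, 51675 / 33554432,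
    -155 / 67108864, -5 / 67108864, -5100097 / 33554432, 585379 / 33554432, 830861 / 16777216, -1329 / 33554432, 0]

end Pool.Agent.FPX.EV_A12_1
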