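import Mathlib
import Pool.Agent.FPX.CEZ

/-
EV_A12_2 (helper86): the control vector A12_2.
-/

noncomputable section

set_option linter.all false
set_option maxRecDepth 100000

namespace Pool.Agent.FPX.EV_A12_2

def sp : ℚ := 52429 / 65536

def mu : ℚ := 33554432 / 223476055

def v : Fin 29 → ℚ :=
  ![1047643 / 1048576, 3842171 / 67108864, -18904571 / 67108864, 252903 / 4194304, 3386433 / 67108864,
    261893 / 33554432, -42085363 / 67108864, -2742131 / 33554432, 16207397 / 33554432, -4704173 / 67108864,
    2296807 / 67108864, 246051 / 33554432, 4053287 / 67108864, -1078991 / 67108864, 289 / 67108864,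
    6561167 / 67108864, -519291 / 33554432, 484209 / 33554432, 12225 / 67108864, 9601469 / 33554432,
    -1191887 / 33554432, -2163035 / 67108864, -65831547 / 67108864, 354675 / 67108864, 586321 / 8388608,
    -1992053 / 16777216, 373359 / 33554432, -12039 / 67108864, -5556989 / 33554432]

def u : Fin 24 → ℚ :=
  ![1, -850385 / 8388608, 7500157 / 67108864, 3257763 / 67108864, 527001 / 33554432, -4171723 / 8388608,
    1805161 / 67108864, 9891527 / 33554432, 337293 / 16777216, 118687 / 8388608, -202493 / 67108864, 1343 / 8388608,
    -294043 / 33554432, 7677 / 67108864, 62451 / 67108864, -889 / 67108864, 22687 / 16777216, -2545 / 67108864,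
    -5 / 67108864, -4783899 / 33554432, 254439 / 16777216, 1478369 / 33554432, -40395 / 67108864, 0]

end Pool.Agent.FPX.EV_A12_2
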