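import Mathlib
import Pool.Agent.FPX.CEZ

/-
EV_A12_3 (helper86): the control vector A12_3.
-/

noncomputable section

set_option linter.all false
set_option maxRecDepth 100000

namespace Pool.Agent.FPX.EV_A12_3

def sp : ℚ := 52429 / 65536

def mu : ℚ := 33554432 / 223476055

def v : Fin 29 → ℚ :=
  ![1047707 / 1048576, 3589763 / 67108864, -4670345 / 16777216, 3840779 / 67108864, 755993 / 16777216,
    109841 / 16777216, -5192741 / 8388608, -4578315 / 67108864, 1030243 / 2097152, -1120917 / 16777216,
    274263 / 8388608, 507835 / 67108864, 4703227 / 67108864, -1038429 / 67108864, 417 / 67108864, 2985965 / 33554432,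
    -53267 / 4194304, 428611 / 33554432, 10451 / 67108864, 17933743 / 67108864, -123333 / 4194304,
    -352565 / 67108864, -60642957 / 67108864, 473959 / 67108864, 7315785 / 67108864, -984099 / 8388608,
    973559 / 67108864, 3273 / 16777216, -10692163 / 67108864]

def u : Fin 24 → ℚ :=
  ![1, -205441 / 2097152, 7004849 / 67108864, 3336011 / 67108864, 433803 / 33554432, -17102109 / 33554432,
    758935 / 33554432, 19459433 / 67108864, 1586001 / 67108864, 921223 / 67108864, -5717 / 2097152, 9083 / 67108864,
    -67197 / 8388608, 7983 / 33554432, 53379 / 67108864, -1585 / 67108864, 39213 / 33554432, -4657 / 67108864,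
    69 / 67108864, -2237495 / 16777216, 222169 / 16777216, 652843 / 16777216, -77545 / 67108864, 0]

end Pool.Agent.FPX.EV_A12_3
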