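import Mathlib
import Pool.Agent.FPX.CEZ

/-
EV_A13_1 (helper86): the control vector A13_1.
-/

noncomputable section

set_option linter.all false
set_option maxRecDepth 100000

namespace Pool.Agent.FPX.EV_A13_1

def sp : ℚ := 49235 / 65536

def mu : ℚ := 33554432 / 223476055

def v : Fin 29 → ℚ :=
  ![65491 / 65536, 1667687 / 33554432, -18455859 / 67108864, 3635361 / 67108864, 1330677 / 33554432,
    177461 / 33554432, -10247573 / 16777216, -918093 / 16777216, 16760379 / 33554432, -4263163 / 67108864,
    2091459 / 67108864, 32723 / 4194304, 2677515 / 33554432, -997869 / 67108864, 417 / 67108864, 2691345 / 33554432,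
    -333167 / 33554432, 746007 / 67108864, 8679 / 67108864, 2083771 / 8388608, -1562593 / 67108864,
    1457909 / 67108864, -3465091 / 4194304, 593245 / 67108864, 4972387 / 33554432, -3888687 / 33554432,
    1200413 / 67108864, 9561 / 16777216, -2567477 / 16777216]

def u : Fin 24 → ℚ :=
  ![1, -6345421 / 67108864, 3254639 / 33554432, 3414573 / 67108864, 686109 / 67108864, -35035205 / 67108864,
    1230585 / 67108864, 2392203 / 8388608, 1824145 / 67108864, 446477 / 33554432, -40839 / 16777216, 927 / 8388608,
    -487103 / 67108864, 757 / 2097152, 22141 / 33554432, -2289 / 67108864, 66095 / 67108864, -6789 / 67108864,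
    141 / 67108864, -8332089 / 67108864, 379751 / 33554432, 1132975 / 33554432, -28701 / 16777216, 0]

end Pool.Agent.FPX.EV_A13_1
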