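import Mathlib
import Pool.Agent.FPX.CEZ

/-
EV_A13_2 (helper86): the control vector A13_2.
-/

noncomputable section

set_option linter.all false
set_option maxRecDepth 100000

namespace Pool.Agent.FPX.EV_A13_2

def sp : ℚ := 49235 / 65536

def mu : ℚ := 33554432 / 223476055

def v : Fin 29 → ℚ :=
  ![1047901 / 1048576, 399011 / 8388608, -9231947 / 33554432, 3407119 / 67108864, 1165199 / 33554432,
    284497 / 67108864, -19865831 / 33554432, -2762219 / 67108864, 34112015 / 67108864, -2035579 / 33554432,
    1978143 / 67108864, 537667 / 67108864, 6124947 / 67108864, -981053 / 67108864, 417 / 67108864, 302745 / 4194304,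
    -226307 / 33554432, 645623 / 67108864, 6919 / 67108864, 15063975 / 67108864, -612781 / 33554432,
    3156649 / 67108864, -48727941 / 67108864, 704937 / 67108864, 1647621 / 8388608, -3774845 / 33554432,
    173253 / 8388608, 24695 / 33554432, -4924767 / 33554432]

def u : Fin 24 → ℚ :=
  ![1, -1513909 / 16777216, 1505053 / 16777216, 3432417 / 67108864, 286215 / 67108864, -35785595 / 67108864,
    237533 / 16777216, 9258423 / 33554432, 986973 / 33554432, 858221 / 67108864, -145559 / 67108864, 1537 / 16777216,
    -216197 / 33554432, 33279 / 67108864, 18235 / 33554432, -2873 / 67108864, 54077 / 67108864, -8583 / 67108864,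
    297 / 67108864, -7728785 / 67108864, 327093 / 33554432, 485491 / 16777216, -151155 / 67108864, 0]

end Pool.Agent.FPX.EV_A13_2
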