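import Mathlib
import Pool.Agent.FPX.CEZ

/-
EV_A13_3 (helper86): the control vector A13_3.
-/

noncomputable section

set_option linter.all false
set_option maxRecDepth 100000

namespace Pool.Agent.FPX.EV_A13_3

def sp : ℚ := 49235 / 65536

def mu : ℚ := 67108864 / 446950405

def v : Fin 29 → ℚ :=
  ![1047939 / 1048576, 48413 / 1048576, -2346673 / 8388608, 789739 / 16777216, 2032303 / 67108864, 113393 / 33554432,
    -37538083 / 67108864, -942291 / 33554432, 34719365 / 67108864, -243151 / 4194304, 927941 / 33554432,
    34469 / 4194304, 890439 / 8388608, -996247 / 67108864, 737 / 67108864, 2196705 / 33554432, -228103 / 67108864,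
    278287 / 33554432, 5401 / 67108864, 13410715 / 67108864, -957111 / 67108864, 4680039 / 67108864,
    -40087351 / 67108864, 804413 / 67108864, 8658621 / 33554432, -55953 / 524288, 762639 / 33554432,
    52433 / 67108864, -9435613 / 67108864]

def u : Fin 24 → ℚ :=
  ![1, -44647 / 524288, 5583669 / 67108864, 1688497 / 33554432, -126065 / 33554432, -36469719 / 67108864,
    43863 / 4194304, 17592211 / 67108864, 2015117 / 67108864, 204593 / 16777216, -8119 / 4194304, 5155 / 67108864,
    -189131 / 33554432, 5027 / 8388608, 15011 / 33554432, -399 / 8388608, 43711 / 67108864, -9293 / 67108864,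
    247 / 33554432, -7142929 / 67108864, 283455 / 33554432, 1650783 / 67108864, -43875 / 16777216, 0]

end Pool.Agent.FPX.EV_A13_3
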