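import Mathlib
import Pool.Agent.FPX.EDAT
import Pool.Agent.FPX.ECH
import Pool.Agent.FPX.CSC
import Pool.Agent.FPX.EV_A12_3
import Pool.Agent.FPX.EV_A13_1
import Pool.Agent.FPX.EV_A13_2
import Pool.Agent.FPX.EV_A13_3

/-
ECA_13 (helper86): the latitude cell [33/50, 18/25], row A.
-/

noncomputable section

set_option linter.all false
set_option maxRecDepth 100000

namespace Pool.Agent.FPX.ECA_13

open Pool.Agent.FPX.CEL
open Pool.Agent.FPX.EJN
open Pool.Agent.FPX.EDAT

open Pool.Agent.FPX.BV (PsiL)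
open Pool.Agent.FPX.FSW (BkZ)

def C : CellZ 3 24 where
  a := 33 / 50
  b := 18 / 25
  r := 131071 / 131072
  ε := 1 / 1023
  w := [231013111011 / 274877906944, 89720002225 / 137438953472, -184650595625 / 206158430208,
    380934921875 / 927712935936]
  R := [-12317825267 / 1073741824, 8052184767 / 134217728, -104010201951 / 1073741824, 14792885567 / 268435456]
  η := 13 / 1048576
  n := 7
  V := ![tv (1) (13 / 2097136) EV_A12_3.v, tv (1) (13 / 2097136) EV_A13_1.v, tv (1) (13 / 2097136) EV_A13_2.v,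
    tv (262141 / 262142) (13 / 2097136) EV_A13_3.v]
  U := ![EV_A12_3.u, EV_A13_1.u, EV_A13_2.u, EV_A13_3.u]

def wv : Fin 29 → ℚ := ![423 / 250, 1 / 8, 1 / 8, 1767 / 1000, 261 / 1000, 209 / 100, 41 / 1000, 131 / 500,
    499 / 500, 499 / 500, 1301 / 1000, 1531 / 500, 41 / 1000, 141 / 250, 423 / 125, 129 / 250, 223 / 500,
    2083 / 1000, 1051 / 500, 1 / 40, 79 / 500, 49 / 250, 3 / 200, 4153 / 1000, 3 / 200, 417 / 1000, 1643 / 1000,
    843 / 500, 1 / 8]

def wu : Fin 24 → ℚ := ![1301 / 1000, 201 / 1000, 201 / 1000, 61 / 500, 61 / 500, 201 / 1000, 201 / 1000, 61 / 500,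
    61 / 500, 31 / 1000, 31 / 1000, 31 / 1000, 19 / 1000, 19 / 1000, 19 / 1000, 19 / 1000, 3 / 250, 3 / 250, 3 / 250,
    633 / 500, 633 / 500, 1539 / 1000, 1539 / 1000, 0]

def sp : ℚ := 49235 / 65536

def bd : CSB.Bd := ⟨13007 / 10000, 271 / 1000, 1541 / 10000, 933 / 10000, 169 / 2500, 367 / 5000⟩

theorem apr : AprOn PsiL wv wu C.a C.b := CSB.Bd.aprL' (by decide +kernel : bd.okL sp C.a wv wu = true) _

theorem ok : C.okC D D.ul wv wu muA TA = true := by decide +kernel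

/-- **the cell** -/
theorem cell
    (H0 : CtlL EV_A12_3.sp EV_A12_3.mu EV_A12_3.v EV_A12_3.u)
    (H1 : CtlL EV_A13_1.sp EV_A13_1.mu EV_A13_1.v EV_A13_1.u)
    (H2 : CtlL EV_A13_2.sp EV_A13_2.mu EV_A13_2.v EV_A13_2.u)
    (H3 : CtlL EV_A13_3.sp EV_A13_3.mu EV_A13_3.v EV_A13_3.u) :
    FSW.CellZ (BkZ D) D.cofZ ((muA : ℚ) : ℝ) ((TA : ℚ) : ℝ) C.a C.b C.w := by
  refine EJN.cellC EDAT.isLin apr ok (by decide +kernel : spOk C.a sp = true) fun l => ?_
  fin_cases l
  · exact H0.at (t := 1) (e := 13 / 2097136) (by decide +kernel) (by decide +kernel)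
  · exact H1.at (t := 1) (e := 13 / 2097136) (by decide +kernel) (by decide +kernel)
  · exact H2.at (t := 1) (e := 13 / 2097136) (by decide +kernel) (by decide +kernel)
  · exact H3.at (t := 262141 / 262142) (e := 13 / 2097136) (by decide +kernel) (by decide +kernel)

end Pool.Agent.FPX.ECA_13
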