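import Mathlib
import Pool.Agent.FPX.CEZ

/-
EV_A14_1 (helper86): the control vector A14_1.
-/

noncomputable section

set_option linter.all false
set_option maxRecDepth 100000

namespace Pool.Agent.FPX.EV_A14_1

def sp : ℚ := 45481 / 65536

def mu : ℚ := 67108864 / 446950405

def v : Fin 29 → ℚ :=
  ![524029 / 524288, 3002517 / 67108864, -9538811 / 33554432, 1455533 / 33554432, 867051 / 33554432,
    169053 / 67108864, -8831577 / 16777216, -1006929 / 67108864, 35326585 / 67108864, -463707 / 8388608,
    1733667 / 67108864, 565343 / 67108864, 2031617 / 16777216, -1011439 / 67108864, 737 / 67108864,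
    985721 / 16777216, -4013 / 67108864, 467505 / 67108864, 1939 / 33554432, 11763637 / 67108864, -344167 / 33554432,
    1550853 / 16777216, -7855507 / 16777216, 903883 / 67108864, 10730291 / 33554432, -6774247 / 67108864,
    52017 / 2097152, 1733 / 2097152, -9020849 / 67108864]

def u : Fin 24 → ℚ :=
  ![1, -5374297 / 67108864, 2573007 / 33554432, 1661089 / 33554432, -785559 / 67108864, -37154473 / 67108864,
    226619 / 33554432, 16670481 / 67108864, 2058115 / 67108864, 778519 / 67108864, -57107 / 33554432,
    4161 / 67108864, -162065 / 33554432, 23599 / 33554432, 23559 / 67108864, -3515 / 67108864, 1041 / 2097152,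
    -10045 / 67108864, 43 / 4194304, -6556989 / 67108864, 119901 / 16777216, 1359465 / 67108864, -25021 / 8388608, 0]

end Pool.Agent.FPX.EV_A14_1
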