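import Mathlib
import Pool.Agent.FPX.CEZ

/-
EV_A14_2 (helper86): the control vector A14_2.
-/

noncomputable section

set_option linter.all false
set_option maxRecDepth 100000

namespace Pool.Agent.FPX.EV_A14_2

def sp : ℚ := 45481 / 65536

def mu : ℚ := 67108864 / 446950405

def v : Fin 29 → ℚ :=
  ![1048075 / 1048576, 1478291 / 33554432, -9839337 / 33554432, 2643189 / 67108864, 1468667 / 67108864,
    124037 / 67108864, -8045755 / 16777216, -20223 / 8388608, 35949769 / 67108864, -1770073 / 33554432,
    801245 / 33554432, 144729 / 16777216, 9348797 / 67108864, -264659 / 16777216, 737 / 67108864, 1790301 / 33554432,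
    230931 / 67108864, 97443 / 16777216, 649 / 16777216, 10068591 / 67108864, -488141 / 67108864, 943927 / 8388608,
    -20848481 / 67108864, 30973 / 2097152, 13241101 / 33554432, -1556615 / 16777216, 219681 / 8388608,
    50419 / 67108864, -8612983 / 67108864]

def u : Fin 24 → ℚ :=
  ![1, -4982695 / 67108864, 1190511 / 16777216, 1596857 / 33554432, -728061 / 33554432, -590201 / 1048576,
    118575 / 33554432, 15443435 / 67108864, 1992111 / 67108864, 733571 / 67108864, -50325 / 33554432, 861 / 16777216,
    -270635 / 67108864, 12991 / 16777216, 18445 / 67108864, -3583 / 67108864, 6147 / 16777216, -4847 / 33554432,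
    913 / 67108864, -187141 / 2097152, 410253 / 67108864, 1101071 / 67108864, -212607 / 67108864, 0]

end Pool.Agent.FPX.EV_A14_2
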