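import Mathlib
import Pool.Agent.FPX.CEZ

/-
EV_A14_3 (helper86): the control vector A14_3.
-/

noncomputable section

set_option linter.all false
set_option maxRecDepth 100000

namespace Pool.Agent.FPX.EV_A14_3

def sp : ℚ := 45481 / 65536

def mu : ℚ := 16777216 / 111737175

def v : Fin 29 → ℚ :=
  ![1048105 / 1048576, 355643 / 8388608, -20665717 / 67108864, 2365153 / 67108864, 617423 / 33554432,
    89871 / 67108864, -27741715 / 67108864, 38385 / 4194304, 18283369 / 33554432, -3364635 / 67108864,
    732733 / 33554432, 296807 / 33554432, 5533143 / 33554432, -286527 / 16777216, 1601 / 67108864,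
    3344363 / 67108864, 56209 / 8388608, 20211 / 4194304, 1667 / 67108864, 548181 / 4194304, -343717 / 67108864,
    1082553 / 8388608, -240061 / 2097152, 1061533 / 67108864, 8245965 / 16777216, -5490845 / 67108864,
    56227 / 2097152, 42857 / 67108864, -8197229 / 67108864]

def u : Fin 24 → ℚ :=
  ![1, -569669 / 8388608, 139095 / 2097152, 2993581 / 67108864, -1032853 / 33554432, -9588579 / 16777216,
    9115 / 8388608, 3493973 / 16777216, 1840725 / 67108864, 684715 / 67108864, -44349 / 33554432, 359 / 8388608,
    -222503 / 67108864, 52757 / 67108864, 14411 / 67108864, -3417 / 67108864, 9039 / 33554432, -2143 / 16777216,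
    127 / 8388608, -679801 / 8388608, 176121 / 33554432, 220907 / 16777216, -209515 / 67108864, 0]

end Pool.Agent.FPX.EV_A14_3
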