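import Mathlib
import Pool.Agent.FPX.EDAT
import Pool.Agent.FPX.ECH
import Pool.Agent.FPX.CSC
import Pool.Agent.FPX.EV_A13_3
import Pool.Agent.FPX.EV_A14_1
import Pool.Agent.FPX.EV_A14_2
import Pool.Agent.FPX.EV_A14_3

/-
ECA_14 (helper86): the latitude cell [18/25, 39/50], row A.
-/

noncomputable section

set_option linter.all false
set_option maxRecDepth 100000

namespace Pool.Agent.FPX.ECA_14

open Pool.Agent.FPX.CEL
open Pool.Agent.FPX.EJN
open Pool.Agent.FPX.EDAT

open Pool.Agent.FPX.BV (PsiL)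
open Pool.Agent.FPX.FSW (BkZ)

def C : CellZ 3 24 where
  a := 18 / 25
  b := 39 / 50
  r := 262141 / 262144
  ε := 1 / 1023
  w := [211752250251 / 274877906944, 121576094675 / 137438953472, -39157885625 / 34359738368,
    75776328125 / 154618822656]
  R := [-43567722025 / 1073741824, 193864022307 / 1073741824, -35342453227 / 134217728, 70713544473 / 536870912]
  η := 23 / 1048576
  n := 7
  V := ![tv (1) (23 / 2097128) EV_A13_3.v, tv (1) (23 / 2097128) EV_A14_1.v, tv (1) (23 / 2097128) EV_A14_2.v,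
    tv (262140 / 262141) (23 / 2097128) EV_A14_3.v]
  U := ![EV_A13_3.u, EV_A14_1.u, EV_A14_2.u, EV_A14_3.u]

def wv : Fin 29 → ℚ := ![813 / 500, 51 / 500, 51 / 500, 63 / 40, 117 / 500, 1979 / 1000, 17 / 500, 117 / 500,
    113 / 125, 113 / 125, 319 / 250, 721 / 250, 17 / 500, 487 / 1000, 813 / 250, 57 / 125, 99 / 250, 1977 / 1000,
    397 / 200, 21 / 1000, 141 / 1000, 43 / 250, 13 / 1000, 3779 / 1000, 13 / 1000, 177 / 500, 1473 / 1000,
    1491 / 1000, 51 / 500]

def wu : Fin 24 → ℚ := ![319 / 250, 23 / 125, 23 / 125, 111 / 1000, 111 / 1000, 23 / 125, 23 / 125, 111 / 1000,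
    111 / 1000, 27 / 1000, 27 / 1000, 27 / 1000, 2 / 125, 2 / 125, 2 / 125, 2 / 125, 1 / 100, 1 / 100, 1 / 100,
    1221 / 1000, 1221 / 1000, 289 / 200, 289 / 200, 0]

def sp : ℚ := 45481 / 65536

def bd : CSB.Bd := ⟨12751 / 10000, 313 / 1250, 719 / 5000, 173 / 2000, 623 / 10000, 627 / 10000⟩

theorem apr : AprOn PsiL wv wu C.a C.b := CSB.Bd.aprL' (by decide +kernel : bd.okL sp C.a wv wu = true) _

theorem ok : C.okC D D.ul wv wu muA TA = true := by decide +kernel

/-- **the cell** -/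
theorem cell
    (H0 : CtlL EV_A13_3.sp EV_A13_3.mu EV_A13_3.v EV_A13_3.u)
    (H1 : CtlL EV_A14_1.sp EV_A14_1.mu EV_A14_1.v EV_A14_1.u)
    (H2 : CtlL EV_A14_2.sp EV_A14_2.mu EV_A14_2.v EV_A14_2.u)
    (H3 : CtlL EV_A14_3.sp EV_A14_3.mu EV_A14_3.v EV_A14_3.u) :
    FSW.CellZ (BkZ D) D.cofZ ((muA : ℚ) : ℝ) ((TA : ℚ) : ℝ) C.a C.b C.w := by
  refine EJN.cellC EDAT.isLin apr ok (by decide +kernel : spOk C.a sp = true) fun l => ?_
  fin_cases l
  · exact H0.at (t := 1) (e := 23 / 2097128) (by decide +kernel) (by decide +kernel)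
  · exact H1.at (t := 1) (e := 23 / 2097128) (by decide +kernel) (by decide +kernel)
  · exact H2.at (t := 1) (e := 23 / 2097128) (by decide +kernel) (by decide +kernel)
  · exact H3.at (t := 262140 / 262141) (e := 23 / 2097128) (by decide +kernel) (by decide +kernel)

end Pool.Agent.FPX.ECA_14
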