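import Mathlib
import Pool.Agent.FPX.CEZ

/-
EV_A15_1 (helper86): the control vector A15_1.
-/

noncomputable section

set_option linter.all false
set_option maxRecDepth 100000

namespace Pool.Agent.FPX.EV_A15_1

def sp : ℚ := 10253 / 16384

def mu : ℚ := 16777216 / 111737175

def v : Fin 29 → ℚ :=
  ![524109 / 524288, 2731079 / 67108864, -21634571 / 67108864, 521861 / 16777216, 500517 / 33554432,
    55671 / 67108864, -1453061 / 4194304, 1390103 / 67108864, 37183573 / 67108864, -1594557 / 33554432,
    332127 / 16777216, 608307 / 67108864, 12798871 / 67108864, -1233575 / 67108864, 1601 / 67108864,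
    777027 / 16777216, 667935 / 67108864, 64237 / 16777216, 91 / 8388608, 3740137 / 33554432, -49753 / 16777216,
    9769407 / 67108864, 345995 / 4194304, 565965 / 33554432, 19750251 / 33554432, -2377605 / 33554432,
    230137 / 8388608, 17619 / 33554432, -7780153 / 67108864]

def u : Fin 24 → ℚ :=
  ![1, -4132353 / 67108864, 258607 / 4194304, 698611 / 16777216, -1336945 / 33554432, -38936499 / 67108864,
    -91913 / 67108864, 12512751 / 67108864, 52845 / 2097152, 9935 / 1048576, -38367 / 33554432, 2305 / 67108864,
    -174315 / 67108864, 26833 / 33554432, 2595 / 16777216, -3257 / 67108864, 11521 / 67108864, -467 / 4194304,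
    1127 / 67108864, -2444103 / 33554432, 294277 / 67108864, 665919 / 67108864, -101 / 32768, 0]

end Pool.Agent.FPX.EV_A15_1
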