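import Mathlib
import Pool.Agent.FPX.CEZ

/-
EV_A15_2 (helper86): the control vector A15_2.
-/

noncomputable section

set_option linter.all false
set_option maxRecDepth 100000

namespace Pool.Agent.FPX.EV_A15_2

def sp : ℚ := 10253 / 16384

def mu : ℚ := 16777216 / 111737175

def v : Fin 29 → ℚ :=
  ![1048229 / 1048576, 2552103 / 67108864, -11488375 / 33554432, 1799489 / 67108864, 798655 / 67108864,
    32331 / 67108864, -17506579 / 67108864, 1048419 / 33554432, 4724257 / 8388608, -751895 / 16777216,
    1185687 / 67108864, 624117 / 67108864, 7488255 / 33554432, -1361311 / 67108864, 1601 / 67108864,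
    749471 / 16777216, 435049 / 33554432, 201861 / 67108864, 9 / 4194304, 1646369 / 16777216, -27493 / 16777216,
    2659841 / 16777216, 21229663 / 67108864, 1185469 / 67108864, 47389703 / 67108864, -3831727 / 67108864,
    1831827 / 67108864, 6291 / 16777216, -7355903 / 67108864]

def u : Fin 24 → ℚ :=
  ![1, -459193 / 8388608, 1949611 / 33554432, 630757 / 16777216, -3213671 / 67108864, -39481575 / 67108864,
    -204337 / 67108864, 10806779 / 67108864, 728315 / 33554432, 583071 / 67108864, -33169 / 33554432,
    1881 / 67108864, -131567 / 67108864, 12635 / 16777216, 7413 / 67108864, -1435 / 33554432, 3587 / 33554432,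
    -177 / 2097152, 137 / 8388608, -4356405 / 67108864, 247523 / 67108864, 489349 / 67108864, -188623 / 67108864, 0]

end Pool.Agent.FPX.EV_A15_2
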