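import Mathlib
import Pool.Agent.FPX.CEZ

/-
EV_A15_3 (helper86): the control vector A15_3.
-/

noncomputable section

set_option linter.all false
set_option maxRecDepth 100000

namespace Pool.Agent.FPX.EV_A15_3

def sp : ℚ := 10253 / 16384

def mu : ℚ := 16777216 / 111737175

def v : Fin 29 → ℚ :=
  ![131033 / 131072, 2130861 / 67108864, -3105231 / 8388608, 1519143 / 67108864, 313369 / 33554432, 17245 / 67108864,
    -1201259 / 8388608, 674415 / 16777216, 38375875 / 67108864, -2802783 / 67108864, 520873 / 33554432,
    642423 / 67108864, 18474757 / 67108864, -1537579 / 67108864, 2241 / 67108864, 3051465 / 67108864,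
    508875 / 33554432, 4921 / 2097152, -75 / 33554432, 6700151 / 67108864, -7133 / 8388608, 11206651 / 67108864,
    41098097 / 67108864, 1217525 / 67108864, 29180659 / 33554432, -2692609 / 67108864, 1767185 / 67108864,
    2103 / 8388608, -3439645 / 33554432]

def u : Fin 24 → ℚ :=
  ![1, -801619 / 16777216, 3700457 / 67108864, 1102357 / 33554432, -1724467 / 33554432, -2502263 / 4194304,
    -259119 / 67108864, 4513175 / 33554432, 1202255 / 67108864, 263541 / 33554432, -56665 / 67108864,
    1523 / 67108864, -3051 / 2097152, 22187 / 33554432, 41 / 524288, -2385 / 67108864, 2261 / 33554432,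
    -4111 / 67108864, 467 / 33554432, -3841655 / 67108864, 206499 / 67108864, 355797 / 67108864, -40429 / 16777216, 0]

end Pool.Agent.FPX.EV_A15_3
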