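import Mathlib
import Pool.Agent.FPX.EDAT
import Pool.Agent.FPX.ECH
import Pool.Agent.FPX.CSC
import Pool.Agent.FPX.EV_A14_3
import Pool.Agent.FPX.EV_A15_1
import Pool.Agent.FPX.EV_A15_2
import Pool.Agent.FPX.EV_A15_3

/-
ECA_15 (helper86): the latitude cell [39/50, 21/25], row A.
-/

noncomputable section

set_option linter.all false
set_option maxRecDepth 100000

namespace Pool.Agent.FPX.ECA_15

open Pool.Agent.FPX.CEL
open Pool.Agent.FPX.EJN
open Pool.Agent.FPX.EDAT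

open Pool.Agent.FPX.BV (PsiL)
open Pool.Agent.FPX.FSW (BkZ)

def C : CellZ 3 24 where
  a := 39 / 50
  b := 21 / 25
  r := 65535 / 65536
  ε := 1 / 1023
  w := [23434070835 / 34359738368, 39417664125 / 34359738368, -5939109375 / 4294967296, 2389296875 / 4294967296]
  R := [-23119505535 / 134217728, 733940697241 / 1073741824, -970370536619 / 1073741824, 54155727363 / 134217728]
  η := 25 / 524288
  n := 9
  V := ![tv (1) (5 / 209712) EV_A14_3.v, tv (1) (5 / 209712) EV_A15_1.v, tv (1) (5 / 209712) EV_A15_2.v,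
    tv (1) (5 / 209712) EV_A15_3.v]
  U := ![EV_A14_3.u, EV_A15_1.u, EV_A15_2.u, EV_A15_3.u]

def wv : Fin 29 → ℚ := ![771 / 500, 79 / 1000, 79 / 1000, 27 / 20, 1 / 5, 1843 / 1000, 13 / 500, 1 / 5, 397 / 500,
    397 / 500, 621 / 500, 2681 / 1000, 13 / 500, 79 / 200, 3083 / 1000, 383 / 1000, 337 / 1000, 1841 / 1000,
    231 / 125, 2 / 125, 121 / 1000, 18 / 125, 1 / 100, 3371 / 1000, 1 / 100, 57 / 200, 159 / 125, 127 / 100,
    79 / 1000]

def wu : Fin 24 → ℚ := ![621 / 500, 161 / 1000, 161 / 1000, 97 / 1000, 97 / 1000, 161 / 1000, 161 / 1000, 97 / 1000,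
    97 / 1000, 21 / 1000, 21 / 1000, 21 / 1000, 13 / 1000, 13 / 1000, 13 / 1000, 13 / 1000, 1 / 125, 1 / 125,
    1 / 125, 1171 / 1000, 1171 / 1000, 1343 / 1000, 1343 / 1000, 0]

def sp : ℚ := 10253 / 16384

def bd : CSB.Bd := ⟨6207 / 5000, 2259 / 10000, 81 / 625, 39 / 500, 281 / 5000, 51 / 1000⟩

theorem apr : AprOn PsiL wv wu C.a C.b := CSB.Bd.aprL' (by decide +kernel : bd.okL sp C.a wv wu = true) _

theorem ok : C.okC D D.ul wv wu muA TA = true := by decide +kernel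

/-- **the cell** -/
theorem cell
    (H0 : CtlL EV_A14_3.sp EV_A14_3.mu EV_A14_3.v EV_A14_3.u)
    (H1 : CtlL EV_A15_1.sp EV_A15_1.mu EV_A15_1.v EV_A15_1.u)
    (H2 : CtlL EV_A15_2.sp EV_A15_2.mu EV_A15_2.v EV_A15_2.u)
    (H3 : CtlL EV_A15_3.sp EV_A15_3.mu EV_A15_3.v EV_A15_3.u) :
    FSW.CellZ (BkZ D) D.cofZ ((muA : ℚ) : ℝ) ((TA : ℚ) : ℝ) C.a C.b C.w := by
  refine EJN.cellC EDAT.isLin apr ok (by decide +kernel : spOk C.a sp = true) fun l => ?_
  fin_cases l
  · exact H0.at (t := 1) (e := 5 / 209712) (by decide +kernel) (by decide +kernel)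
  · exact H1.at (t := 1) (e := 5 / 209712) (by decide +kernel) (by decide +kernel)
  · exact H2.at (t := 1) (e := 5 / 209712) (by decide +kernel) (by decide +kernel)
  · exact H3.at (t := 1) (e := 5 / 209712) (by decide +kernel) (by decide +kernel)

end Pool.Agent.FPX.ECA_15
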