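import Mathlib
import Pool.Agent.FPX.CEZ

/-
EV_A16_1 (helper86): the control vector A16_1.
-/

noncomputable section

set_option linter.all false
set_option maxRecDepth 100000

namespace Pool.Agent.FPX.EV_A16_1

def sp : ℚ := 35559 / 65536

def mu : ℚ := 16777216 / 111737175

def v : Fin 29 → ℚ :=
  ![65523 / 65536, 1777913 / 67108864, -13175267 / 33554432, 80361 / 4194304, 483573 / 67108864, 4651 / 67108864,
    -2941785 / 67108864, 3198343 / 67108864, 19430363 / 33554432, -2632119 / 67108864, 230461 / 16777216,
    657675 / 67108864, 21424811 / 67108864, -421117 / 16777216, 2241 / 67108864, 3096117 / 67108864,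
    570221 / 33554432, 120459 / 67108864, -25 / 4194304, 850107 / 8388608, -12879 / 67108864, 11679391 / 67108864,
    57693277 / 67108864, 311059 / 16777216, 33758359 / 33554432, -108959 / 4194304, 1713331 / 67108864,
    9809 / 67108864, -6480949 / 67108864]

def u : Fin 24 → ℚ :=
  ![1, -2817507 / 67108864, 1766229 / 33554432, 970181 / 33554432, -3648843 / 67108864, -40498935 / 67108864,
    -38177 / 8388608, 235829 / 2097152, 990763 / 67108864, 480397 / 67108864, -48615 / 67108864, 613 / 33554432,
    -34639 / 33554432, 39317 / 67108864, 3443 / 67108864, -993 / 33554432, 2293 / 67108864, -175 / 4194304,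
    201 / 16777216, -853157 / 16777216, 172411 / 67108864, 122127 / 33554432, -139501 / 67108864, 0]

end Pool.Agent.FPX.EV_A16_1
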