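import Mathlib
import Pool.Agent.FPX.CEZ

/-
EV_A16_2 (helper86): the control vector A16_2.
-/

noncomputable section

set_option linter.all false
set_option maxRecDepth 100000

namespace Pool.Agent.FPX.EV_A16_2

def sp : ℚ := 35559 / 65536

def mu : ℚ := 16777216 / 111737175

def v : Fin 29 → ℚ :=
  ![1048377 / 1048576, 1256097 / 67108864, -28194029 / 67108864, 528887 / 33554432, 361473 / 67108864,
    -1109 / 33554432, 317403 / 4194304, 1812739 / 33554432, 19662835 / 33554432, -2445299 / 67108864,
    400591 / 33554432, 674661 / 67108864, 6290193 / 16777216, -466265 / 16777216, 2241 / 67108864,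
    1627263 / 33554432, 612579 / 33554432, 45437 / 33554432, -447 / 67108864, 7604341 / 67108864, 6419 / 67108864,
    11941943 / 67108864, 19218507 / 16777216, 1256029 / 67108864, 78536571 / 67108864, -322167 / 33554432,
    50657 / 2097152, 2001 / 33554432, -6046123 / 67108864]

def u : Fin 24 → ℚ :=
  ![1, -1211445 / 33554432, 3392087 / 67108864, 1643519 / 67108864, -3630763 / 67108864, -20484237 / 33554432,
    -155823 / 33554432, 6015481 / 67108864, 766915 / 67108864, 215737 / 33554432, -2565 / 4194304, 485 / 33554432,
    -2941 / 4194304, 32221 / 67108864, 2203 / 67108864, -95 / 4194304, 1211 / 67108864, -425 / 16777216,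
    37 / 4194304, -1497711 / 33554432, 142265 / 67108864, 162581 / 67108864, -111559 / 67108864, 0]

end Pool.Agent.FPX.EV_A16_2
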