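import Mathlib
import Pool.Agent.FPX.CEZ

/-
EV_A16_3 (helper86): the control vector A16_3.
-/

noncomputable section

set_option linter.all false
set_option maxRecDepth 100000

namespace Pool.Agent.FPX.EV_A16_3

def sp : ℚ := 35559 / 65536

def mu : ℚ := 33554432 / 223472645

def v : Fin 29 → ℚ :=
  ![1048439 / 1048576, 426049 / 67108864, -7655415 / 16777216, 212579 / 16777216, 130953 / 33554432,
    -2673 / 33554432, 511355 / 2097152, 3957847 / 67108864, 39758101 / 67108864, -69761 / 2097152, 10679 / 1048576,
    347091 / 33554432, 31733697 / 67108864, -1042075 / 33554432, 3329 / 67108864, 1774289 / 33554432,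
    310745 / 16777216, 33973 / 33554432, -409 / 67108864, 4782209 / 33554432, 13789 / 67108864, 5978781 / 33554432,
    102251247 / 67108864, 312557 / 16777216, 95269047 / 67108864, 620515 / 67108864, 744037 / 33554432,
    509 / 67108864, -2763019 / 33554432]

def u : Fin 24 → ℚ :=
  ![1, -1021123 / 33554432, 3212669 / 67108864, 1346651 / 67108864, -3340595 / 67108864, -20741021 / 33554432,
    -287475 / 67108864, 4605873 / 67108864, 576143 / 67108864, 380229 / 67108864, -16871 / 33554432, 749 / 67108864,
    -31425 / 67108864, 12587 / 33554432, 697 / 33554432, -1117 / 67108864, 649 / 67108864, -1041 / 67108864,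
    417 / 67108864, -323489 / 8388608, 28707 / 16777216, 26735 / 16777216, -42837 / 33554432, 0]

end Pool.Agent.FPX.EV_A16_3
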