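import Mathlib
import Pool.Agent.FPX.EDAT
import Pool.Agent.FPX.ECH
import Pool.Agent.FPX.CSC
import Pool.Agent.FPX.EV_A15_3
import Pool.Agent.FPX.EV_A16_1
import Pool.Agent.FPX.EV_A16_2
import Pool.Agent.FPX.EV_A16_3

/-
ECA_16 (helper86): the latitude cell [21/25, 89/100], row A.
-/

noncomputable section

set_option linter.all false
set_option maxRecDepth 100000

namespace Pool.Agent.FPX.ECA_16

open Pool.Agent.FPX.CEL
open Pool.Agent.FPX.EJN
open Pool.Agent.FPX.EDAT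

open Pool.Agent.FPX.BV (PsiL)
open Pool.Agent.FPX.FSW (BkZ)

def C : CellZ 3 24 where
  a := 21 / 25
  b := 89 / 100
  r := 65535 / 65536
  ε := 1 / 1023
  w := [305916502101 / 1073741824000, 26301976983 / 10737418240, -12027387105 / 4294967296, 2293740125 / 2147483648]
  R := [-967637294835 / 1073741824, 1757336084113 / 536870912, -2131716673915 / 536870912, 866569539235 / 536870912]
  η := 35 / 524288
  n := 9
  V := ![tv (1) (7 / 209712) EV_A15_3.v, tv (1) (7 / 209712) EV_A16_1.v, tv (1) (7 / 209712) EV_A16_2.v,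
    tv (131069 / 131070) (7 / 209712) EV_A16_3.v]
  U := ![EV_A15_3.u, EV_A16_1.u, EV_A16_2.u, EV_A16_3.u]

def wv : Fin 29 → ℚ := ![291 / 200, 7 / 125, 7 / 125, 1111 / 1000, 83 / 500, 213 / 125, 19 / 1000, 83 / 500,
    167 / 250, 167 / 250, 603 / 500, 312 / 125, 19 / 1000, 307 / 1000, 2909 / 1000, 311 / 1000, 277 / 1000,
    1703 / 1000, 427 / 250, 3 / 250, 1 / 10, 117 / 1000, 7 / 1000, 2997 / 1000, 7 / 1000, 11 / 50, 211 / 200,
    207 / 200, 7 / 125]

def wu : Fin 24 → ℚ := ![603 / 500, 69 / 500, 69 / 500, 83 / 1000, 83 / 1000, 69 / 500, 69 / 500, 83 / 1000,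
    83 / 1000, 2 / 125, 2 / 125, 2 / 125, 1 / 100, 1 / 100, 1 / 100, 1 / 100, 3 / 500, 3 / 500, 3 / 500, 281 / 250,
    281 / 250, 5 / 4, 5 / 4, 0]

def sp : ℚ := 35559 / 65536

def bd : CSB.Bd := ⟨12059 / 10000, 979 / 5000, 569 / 5000, 137 / 2000, 493 / 10000, 383 / 10000⟩

theorem apr : AprOn PsiL wv wu C.a C.b := CSB.Bd.aprL' (by decide +kernel : bd.okL sp C.a wv wu = true) _

theorem ok : C.okC D D.ul wv wu muA TA = true := by decide +kernel

/-- **the cell** -/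
theorem cell
    (H0 : CtlL EV_A15_3.sp EV_A15_3.mu EV_A15_3.v EV_A15_3.u)
    (H1 : CtlL EV_A16_1.sp EV_A16_1.mu EV_A16_1.v EV_A16_1.u)
    (H2 : CtlL EV_A16_2.sp EV_A16_2.mu EV_A16_2.v EV_A16_2.u)
    (H3 : CtlL EV_A16_3.sp EV_A16_3.mu EV_A16_3.v EV_A16_3.u) :
    FSW.CellZ (BkZ D) D.cofZ ((muA : ℚ) : ℝ) ((TA : ℚ) : ℝ) C.a C.b C.w := by
  refine EJN.cellC EDAT.isLin apr ok (by decide +kernel : spOk C.a sp = true) fun l => ?_
  fin_cases l
  · exact H0.at (t := 1) (e := 7 / 209712) (by decide +kernel) (by decide +kernel)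
  · exact H1.at (t := 1) (e := 7 / 209712) (by decide +kernel) (by decide +kernel)
  · exact H2.at (t := 1) (e := 7 / 209712) (by decide +kernel) (by decide +kernel)
  · exact H3.at (t := 131069 / 131070) (e := 7 / 209712) (by decide +kernel) (by decide +kernel)

end Pool.Agent.FPX.ECA_16
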