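import Mathlib
import Pool.Agent.FPX.CEZ

/-
EV_A17_1 (helper86): the control vector A17_1.
-/

noncomputable section

set_option linter.all false
set_option maxRecDepth 100000

namespace Pool.Agent.FPX.EV_A17_1

def sp : ℚ := 14941 / 32768

def mu : ℚ := 33554432 / 223472645

def v : Fin 29 → ℚ :=
  ![262123 / 262144, -238881 / 67108864, -32449939 / 67108864, 171115 / 16777216, 22793 / 8388608, -7865 / 67108864,
    3189479 / 8388608, 527965 / 8388608, 20051903 / 33554432, -1030991 / 33554432, 589297 / 67108864,
    709791 / 67108864, 18534763 / 33554432, -2259411 / 67108864, 3329 / 67108864, 3783803 / 67108864,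
    628533 / 33554432, 24797 / 33554432, -47 / 8388608, 11134787 / 67108864, 307 / 1048576, 11969987 / 67108864,
    61233917 / 33554432, 311395 / 16777216, 13579311 / 8388608, 1632395 / 67108864, 1381709 / 67108864,
    -1165 / 33554432, -2554645 / 33554432]

def u : Fin 24 → ℚ :=
  ![1, -1737847 / 67108864, 3067705 / 67108864, 1109671 / 67108864, -194611 / 4194304, -20946573 / 33554432,
    -268535 / 67108864, 1740151 / 33554432, 423129 / 67108864, 169609 / 33554432, -3491 / 8388608, 569 / 67108864,
    -9433 / 33554432, 19547 / 67108864, 187 / 16777216, -795 / 67108864, 203 / 67108864, -499 / 67108864,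
    137 / 33554432, -2261873 / 67108864, 46477 / 33554432, 31141 / 33554432, -32471 / 33554432, 0]

end Pool.Agent.FPX.EV_A17_1
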