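import Mathlib
import Pool.Agent.FPX.CEZ

/-
EV_A17_2 (helper86): the control vector A17_2.
-/

noncomputable section

set_option linter.all false
set_option maxRecDepth 100000

namespace Pool.Agent.FPX.EV_A17_2

def sp : ℚ := 14941 / 32768

def mu : ℚ := 33554432 / 223472645

def v : Fin 29 → ℚ :=
  ![262121 / 262144, -1101351 / 67108864, -17285575 / 33554432, 531779 / 67108864, 58595 / 33554432,
    -7993 / 67108864, 36276941 / 67108864, 4428927 / 67108864, 40428507 / 67108864, -937439 / 33554432,
    497017 / 67108864, 45439 / 4194304, 43764107 / 67108864, -2459301 / 67108864, 3329 / 67108864,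
    2052911 / 33554432, 1228289 / 67108864, 35499 / 67108864, -73 / 16777216, 13446059 / 67108864, 2243 / 8388608,
    2956079 / 16777216, 145667871 / 67108864, 307417 / 16777216, 62368879 / 33554432, 2750409 / 67108864,
    1249327 / 67108864, -1847 / 33554432, -4637833 / 67108864]

def u : Fin 24 → ℚ :=
  ![1, -180303 / 8388608, 1448787 / 33554432, 872765 / 67108864, -1355465 / 33554432, -21166249 / 33554432,
    -115091 / 33554432, 1216421 / 33554432, 291821 / 67108864, 296719 / 67108864, -5571 / 16777216, 417 / 67108864,
    -10525 / 67108864, 13997 / 67108864, 95 / 16777216, -257 / 33554432, 21 / 16777216, -29 / 8388608,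
    157 / 67108864, -485507 / 16777216, 72813 / 67108864, 34261 / 67108864, -45665 / 67108864, 0]

end Pool.Agent.FPX.EV_A17_2
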