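import Mathlib
import Pool.Agent.FPX.CEZ

/-
EV_A17_3 (helper86): the control vector A17_3.
-/

noncomputable section

set_option linter.all false
set_option maxRecDepth 100000

namespace Pool.Agent.FPX.EV_A17_3

def sp : ℚ := 14941 / 32768

def mu : ℚ := 67108864 / 446940175

def v : Fin 29 → ℚ :=
  ![262135 / 262144, -562321 / 16777216, -18794433 / 33554432, 201119 / 33554432, 69001 / 67108864, -7009 / 67108864,
    26825939 / 33554432, 285165 / 4194304, 10181515 / 16777216, -1665951 / 67108864, 204477 / 33554432,
    46643 / 4194304, 57321179 / 67108864, -671575 / 16777216, 5377 / 67108864, 4525885 / 67108864, 284711 / 16777216,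
    25087 / 67108864, -211 / 67108864, 16774701 / 67108864, 14579 / 67108864, 5750911 / 33554432, 11331751 / 4194304,
    600565 / 33554432, 9612521 / 4194304, 3982835 / 67108864, 544965 / 33554432, -3831 / 67108864,
    -4074609 / 67108864]

def u : Fin 24 → ℚ :=
  ![1, -584089 / 33554432, 330153 / 8388608, 662201 / 67108864, -137927 / 4194304, -42823763 / 67108864,
    -184889 / 67108864, 1591587 / 67108864, 197401 / 67108864, 63107 / 16777216, -17125 / 67108864, 145 / 33554432,
    -2817 / 33554432, 4857 / 33554432, 191 / 67108864, -165 / 33554432, 31 / 67108864, -27 / 16777216, 47 / 33554432,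
    -1626683 / 67108864, 27589 / 33554432, 18151 / 67108864, -31301 / 67108864, 0]

end Pool.Agent.FPX.EV_A17_3
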