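import Mathlib
import Pool.Agent.FPX.EDAT
import Pool.Agent.FPX.ECH
import Pool.Agent.FPX.CSC
import Pool.Agent.FPX.EV_A16_3
import Pool.Agent.FPX.EV_A17_1
import Pool.Agent.FPX.EV_A17_2
import Pool.Agent.FPX.EV_A17_3

/-
ECA_17 (helper86): the latitude cell [89/100, 93/100], row A.
-/

noncomputable section

set_option linter.all false
set_option maxRecDepth 100000

namespace Pool.Agent.FPX.ECA_17

open Pool.Agent.FPX.CEL
open Pool.Agent.FPX.EJN
open Pool.Agent.FPX.EDAT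

open Pool.Agent.FPX.BV (PsiL)
open Pool.Agent.FPX.FSW (BkZ)

def C : CellZ 3 24 where
  a := 89 / 100
  b := 93 / 100
  r := 131069 / 131072
  ε := 1 / 1023
  w := [-2436059681683 / 8796093022208, 9234015070125 / 2199023255552, -2531518820625 / 549755813888,
    231418984375 / 137438953472]
  R := [-6202418872813 / 1073741824, 5269459960989 / 268435456, -1494063193069 / 67108864, 9054959010187 / 1073741824]
  η := 13 / 131072
  n := 10
  V := ![tv (1) (13 / 262138) EV_A16_3.v, tv (1) (13 / 262138) EV_A17_1.v, tv (1) (13 / 262138) EV_A17_2.v,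
    tv (262135 / 262138) (13 / 262138) EV_A17_3.v]
  U := ![EV_A16_3.u, EV_A17_1.u, EV_A17_2.u, EV_A17_3.u]

def wv : Fin 29 → ℚ := ![341 / 250, 37 / 1000, 37 / 1000, 879 / 1000, 131 / 1000, 1561 / 1000, 13 / 1000, 131 / 1000,
    68 / 125, 68 / 125, 146 / 125, 2329 / 1000, 13 / 1000, 9 / 40, 341 / 125, 6 / 25, 217 / 1000, 39 / 25, 391 / 250,
    1 / 125, 79 / 1000, 9 / 100, 1 / 200, 1331 / 500, 1 / 200, 79 / 500, 421 / 500, 203 / 250, 37 / 1000]

def wu : Fin 24 → ℚ := ![146 / 125, 14 / 125, 14 / 125, 17 / 250, 17 / 250, 14 / 125, 14 / 125, 17 / 250, 17 / 250,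
    11 / 1000, 11 / 1000, 11 / 1000, 7 / 1000, 7 / 1000, 7 / 1000, 7 / 1000, 1 / 250, 1 / 250, 1 / 250, 1083 / 1000,
    1083 / 1000, 583 / 500, 583 / 500, 0]

def sp : ℚ := 14941 / 32768

def bd : CSB.Bd := ⟨11677 / 10000, 1647 / 10000, 957 / 10000, 36 / 625, 83 / 2000, 271 / 10000⟩

theorem apr : AprOn PsiL wv wu C.a C.b := CSB.Bd.aprL' (by decide +kernel : bd.okL sp C.a wv wu = true) _

theorem ok : C.okC D D.ul wv wu muA TA = true := by decide +kernel

/-- **the cell** -/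
theorem cell
    (H0 : CtlL EV_A16_3.sp EV_A16_3.mu EV_A16_3.v EV_A16_3.u)
    (H1 : CtlL EV_A17_1.sp EV_A17_1.mu EV_A17_1.v EV_A17_1.u)
    (H2 : CtlL EV_A17_2.sp EV_A17_2.mu EV_A17_2.v EV_A17_2.u)
    (H3 : CtlL EV_A17_3.sp EV_A17_3.mu EV_A17_3.v EV_A17_3.u) :
    FSW.CellZ (BkZ D) D.cofZ ((muA : ℚ) : ℝ) ((TA : ℚ) : ℝ) C.a C.b C.w := by
  refine EJN.cellC EDAT.isLin apr ok (by decide +kernel : spOk C.a sp = true) fun l => ?_
  fin_cases l
  · exact H0.at (t := 1) (e := 13 / 262138) (by decide +kernel) (by decide +kernel)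
  · exact H1.at (t := 1) (e := 13 / 262138) (by decide +kernel) (by decide +kernel)
  · exact H2.at (t := 1) (e := 13 / 262138) (by decide +kernel) (by decide +kernel)
  · exact H3.at (t := 262135 / 262138) (e := 13 / 262138) (by decide +kernel) (by decide +kernel)

end Pool.Agent.FPX.ECA_17
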