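import Mathlib
import Pool.Agent.FPX.CEZ

/-
EV_A18_1 (helper86): the control vector A18_1.
-/

noncomputable section

set_option linter.all false
set_option maxRecDepth 100000

namespace Pool.Agent.FPX.EV_A18_1

def sp : ℚ := 24089 / 65536

def mu : ℚ := 67108864 / 446940175

def v : Fin 29 → ℚ :=
  ![1048561 / 1048576, -3110563 / 67108864, -39537877 / 67108864, 9535 / 2097152, 16455 / 33554432, -1569 / 16777216,
    66832713 / 67108864, 582861 / 8388608, 20474439 / 33554432, -188655 / 8388608, 342909 / 67108864,
    380365 / 33554432, 33840881 / 33554432, -2856527 / 67108864, 5377 / 67108864, 4840899 / 67108864,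
    535845 / 33554432, 8635 / 33554432, -151 / 67108864, 2408995 / 8388608, 6005 / 33554432, 11259853 / 67108864,
    207468985 / 67108864, 589859 / 33554432, 175445353 / 67108864, 2453565 / 33554432, 970375 / 67108864,
    -3955 / 67108864, -912969 / 16777216]

def u : Fin 24 → ℚ :=
  ![1, -120317 / 8388608, 2448311 / 67108864, 63063 / 8388608, -458049 / 16777216, -21596151 / 33554432,
    -75551 / 33554432, 480773 / 33554432, 126167 / 67108864, 3425 / 1048576, -3317 / 16777216, 199 / 67108864,
    -121 / 4194304, 811 / 8388608, 3 / 4194304, -187 / 67108864, -1 / 16777216, -17 / 67108864, 21 / 33554432,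
    -695081 / 33554432, 41991 / 67108864, 6003 / 67108864, -1279 / 4194304, 0]

end Pool.Agent.FPX.EV_A18_1
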