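import Mathlib
import Pool.Agent.FPX.CEZ

/-
EV_A18_2 (helper86): the control vector A18_2.
-/

noncomputable section

set_option linter.all false
set_option maxRecDepth 100000

namespace Pool.Agent.FPX.EV_A18_2

def sp : ℚ := 24089 / 65536

def mu : ℚ := 67108864 / 446940175

def v : Fin 29 → ℚ :=
  ![262141 / 262144, -4132533 / 67108864, -5219589 / 8388608, 221033 / 67108864, 1593 / 16777216, -4921 / 67108864,
    81862619 / 67108864, 4722891 / 67108864, 41156163 / 67108864, -1340241 / 67108864, 139617 / 33554432,
    388157 / 33554432, 39991289 / 33554432, -3041987 / 67108864, 5377 / 67108864, 5211031 / 67108864,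
    485191 / 33554432, 11525 / 67108864, -3 / 2097152, 5585433 / 16777216, 4257 / 33554432, 10918343 / 67108864,
    118528115 / 33554432, 287799 / 16777216, 100369699 / 33554432, 5895757 / 67108864, 835619 / 67108864,
    -3391 / 67108864, -1588703 / 33554432]

def u : Fin 24 → ℚ :=
  ![1, -384413 / 33554432, 1103357 / 33554432, 180847 / 33554432, -175111 / 8388608, -21795039 / 33554432,
    -14183 / 8388608, 447785 / 67108864, 75721 / 67108864, 184965 / 67108864, -4843 / 33554432, 31 / 16777216,
    -179 / 67108864, 1991 / 33554432, 1 / 33554432, -51 / 33554432, 1 / 67108864, -1 / 67108864, 5 / 16777216,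
    -289041 / 16777216, 7555 / 16777216, 537 / 67108864, -12415 / 67108864, 0]

end Pool.Agent.FPX.EV_A18_2
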