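import Mathlib
import Pool.Agent.FPX.CEZ

/-
EV_A18_3 (helper86): the control vector A18_3.
-/

noncomputable section

set_option linter.all false
set_option maxRecDepth 100000

namespace Pool.Agent.FPX.EV_A18_3

def sp : ℚ := 24089 / 65536

def mu : ℚ := 67108864 / 446933355

def v : Fin 29 → ℚ :=
  ![1048567 / 1048576, -5358149 / 67108864, -46015317 / 67108864, 154947 / 67108864, -4315 / 33554432,
    -1787 / 33554432, 114675093 / 67108864, 2369067 / 33554432, 41345755 / 67108864, -1156815 / 67108864,
    219061 / 67108864, 793219 / 67108864, 111864003 / 67108864, -3243759 / 67108864, 8929 / 67108864,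
    5641093 / 67108864, 826373 / 67108864, 3765 / 33554432, -29 / 33554432, 6529063 / 16777216, 2887 / 33554432,
    2617375 / 16777216, 299843007 / 67108864, 1115003 / 67108864, 131087261 / 33554432, 6952297 / 67108864,
    685289 / 67108864, -2593 / 67108864, -2630819 / 67108864]

def u : Fin 24 → ℚ :=
  ![1, -74117 / 8388608, 939755 / 33554432, 31087 / 8388608, -502291 / 33554432, -171987 / 262144, -80395 / 67108864,
    119867 / 67108864, 45041 / 67108864, 149475 / 67108864, -843 / 8388608, 19 / 16777216, 443 / 67108864,
    2409 / 67108864, -5 / 33554432, -27 / 33554432, 0, 1 / 16777216, 5 / 33554432, -230941 / 16777216,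
    2605 / 8388608, -1369 / 67108864, -7443 / 67108864, 0]

end Pool.Agent.FPX.EV_A18_3
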