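import Mathlib
import Pool.Agent.FPX.CEZ

/-
EV_A19_1 (helper86): the control vector A19_1.
-/

noncomputable section

set_option linter.all false
set_option maxRecDepth 100000

namespace Pool.Agent.FPX.EV_A19_1

def sp : ℚ := 18351 / 65536

def mu : ℚ := 67108864 / 446933355

def v : Fin 29 → ℚ :=
  ![1048569 / 1048576, -6175663 / 67108864, -47832731 / 67108864, 3467 / 2097152, -18587 / 67108864,
    -2687 / 67108864, 68279079 / 33554432, 4748215 / 67108864, 1295991 / 2097152, -517251 / 33554432,
    178955 / 67108864, 402243 / 33554432, 66844497 / 33554432, -1689125 / 33554432, 8929 / 67108864,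
    2963893 / 33554432, 182567 / 16777216, 2431 / 33554432, -35 / 67108864, 14316885 / 33554432, 1963 / 33554432,
    2542525 / 16777216, 169548575 / 33554432, 272715 / 16777216, 302420363 / 67108864, 7656623 / 67108864,
    146265 / 16777216, -1035 / 33554432, -1133053 / 33554432]

def u : Fin 24 → ℚ :=
  ![1, -475743 / 67108864, 830385 / 33554432, 173587 / 67108864, -743239 / 67108864, -44321197 / 67108864,
    -7313 / 8388608, -97781 / 67108864, 24269 / 67108864, 125811 / 67108864, -1199 / 16777216, 11 / 16777216,
    219 / 16777216, 335 / 16777216, -9 / 33554432, -3 / 8388608, 1 / 33554432, 1 / 16777216, 1 / 67108864,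
    -768815 / 67108864, 7307 / 33554432, -2693 / 67108864, -2037 / 33554432, 0]

end Pool.Agent.FPX.EV_A19_1
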