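import Mathlib
import Pool.Agent.FPX.CEZ

/-
EV_A19_2 (helper86): the control vector A19_2.
-/

noncomputable section

set_option linter.all false
set_option maxRecDepth 100000

namespace Pool.Agent.FPX.EV_A19_2

def sp : ℚ := 18351 / 65536

def mu : ℚ := 67108864 / 446933355

def v : Fin 29 → ℚ :=
  ![524285 / 524288, -7082135 / 67108864, -12621867 / 16777216, 74763 / 67108864, -11759 / 33554432,
    -1779 / 67108864, 158495261 / 67108864, 2369253 / 33554432, 20794803 / 33554432, -905833 / 67108864,
    140363 / 67108864, 204081 / 16777216, 19382415 / 8388608, -3519941 / 67108864, 8929 / 67108864, 195029 / 2097152,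
    307737 / 33554432, 1493 / 33554432, -17 / 67108864, 31459771 / 67108864, 151 / 4194304, 153487 / 1048576,
    380468749 / 67108864, 1063315 / 67108864, 343248441 / 67108864, 4195489 / 33554432, 477915 / 67108864,
    -1421 / 67108864, -935065 / 33554432]

def u : Fin 24 → ℚ :=
  ![1, -183131 / 33554432, 351389 / 16777216, 111123 / 67108864, -30717 / 4194304, -44631455 / 67108864,
    -38259 / 67108864, -58887 / 16777216, 12785 / 67108864, 3175 / 2097152, -1553 / 33554432, 23 / 67108864,
    95 / 8388608, 357 / 33554432, -3 / 16777216, -11 / 67108864, 1 / 67108864, 1 / 16777216, 3 / 67108864,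
    -76827 / 8388608, 9393 / 67108864, -287 / 8388608, -539 / 16777216, 0]

end Pool.Agent.FPX.EV_A19_2
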