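import Mathlib
import Pool.Agent.FPX.CEZ

/-
EV_A19_3 (helper86): the control vector A19_3.
-/

noncomputable section

set_option linter.all false
set_option maxRecDepth 100000

namespace Pool.Agent.FPX.EV_A19_3

def sp : ℚ := 18351 / 65536

def mu : ℚ := 67108864 / 446933355

def v : Fin 29 → ℚ :=
  ![524285 / 524288, -8095289 / 67108864, -29057097 / 33554432, 48489 / 67108864, -22325 / 67108864, -281 / 16777216,
    237605249 / 67108864, 4707319 / 67108864, 2606151 / 4194304, -770015 / 67108864, 51877 / 33554432,
    414405 / 33554432, 241188291 / 67108864, -3669207 / 67108864, 180537 / 33554432, 6582273 / 67108864,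
    239249 / 33554432, 881 / 33554432, -9 / 67108864, 1082747 / 2097152, 357 / 16777216, 9425761 / 67108864,
    525109623 / 67108864, 1032159 / 67108864, 500674653 / 67108864, 4578325 / 33554432, 181863 / 33554432,
    -461 / 33554432, -716833 / 33554432]

def u : Fin 24 → ℚ :=
  ![1, -266919 / 67108864, 548091 / 33554432, 34087 / 33554432, -310221 / 67108864, -44964245 / 67108864,
    -11961 / 33554432, -65575 / 16777216, 6321 / 67108864, 38359 / 33554432, -1927 / 67108864, 3 / 16777216,
    575 / 67108864, 357 / 67108864, -7 / 67108864, -1 / 16777216, 1 / 67108864, 1 / 67108864, 0, -460743 / 67108864,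
    5783 / 67108864, -1727 / 67108864, -1071 / 67108864, 0]

end Pool.Agent.FPX.EV_A19_3
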