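import Mathlib
import Pool.Agent.FPX.CEZ

/-
EV_A2_1 (helper86): the control vector A2_1.
-/

noncomputable section

set_option linter.all false
set_option maxRecDepth 100000

namespace Pool.Agent.FPX.EV_A2_1

def sp : ℚ := 8151 / 8192

def mu : ℚ := 33554432 / 223476055

def v : Fin 29 → ℚ :=
  ![512231 / 524288, 1941285 / 16777216, -21858565 / 33554432, 10853739 / 67108864, 13397037 / 67108864,
    6140919 / 67108864, 11870739 / 67108864, -244535 / 16777216, 21936531 / 33554432, -30255707 / 67108864,
    3139577 / 67108864, -1341505 / 67108864, -223063 / 67108864, -929489 / 33554432, 65 / 67108864,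
    1602265 / 16777216, -1201191 / 67108864, 2714103 / 33554432, 5927 / 16777216, -26011733 / 67108864,
    -12782599 / 33554432, -7467519 / 16777216, -22391647 / 67108864, -300659 / 16777216, -316477 / 67108864,
    732273 / 33554432, -2758063 / 16777216, -389999 / 4194304, -3288131 / 16777216]

def u : Fin 24 → ℚ :=
  ![1, -1177297 / 67108864, 1904707 / 67108864, -347881 / 67108864, 2742959 / 67108864, -2508471 / 67108864,
    937029 / 67108864, 704865 / 67108864, 169035 / 4194304, 122221 / 67108864, -88843 / 67108864, 8073 / 33554432,
    -96661 / 67108864, -2327 / 67108864, 35133 / 67108864, 837 / 67108864, 2389 / 8388608, 929 / 67108864,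
    -7 / 33554432, -1536711 / 4194304, 4456303 / 33554432, 9742725 / 67108864, 30259 / 16777216, 0]

end Pool.Agent.FPX.EV_A2_1
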