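import Mathlib
import Pool.Agent.FPX.CEZ

/-
EV_A2_2 (helper86): the control vector A2_2.
-/

noncomputable section

set_option linter.all false
set_option maxRecDepth 100000

namespace Pool.Agent.FPX.EV_A2_2

def sp : ℚ := 8151 / 8192

def mu : ℚ := 33554432 / 223476055

def v : Fin 29 → ℚ :=
  ![256633 / 262144, 4765315 / 33554432, -43280147 / 67108864, 5146765 / 33554432, 6657105 / 33554432,
    5889567 / 67108864, 10641423 / 67108864, -678077 / 16777216, 42289993 / 67108864, -28507617 / 67108864,
    3115983 / 67108864, -1213035 / 67108864, -16651 / 4194304, -2018491 / 67108864, 65 / 67108864,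
    3832863 / 33554432, -1065699 / 67108864, 2642527 / 33554432, 4795 / 16777216, -25767433 / 67108864,
    -24709319 / 67108864, -482949 / 1048576, -24287115 / 67108864, -324161 / 16777216, -453503 / 67108864,
    707889 / 33554432, -5309507 / 33554432, -2949615 / 33554432, -13368655 / 67108864]

def u : Fin 24 → ℚ :=
  ![1, -1435927 / 67108864, 2399983 / 67108864, -391975 / 67108864, 20045 / 524288, -1585859 / 33554432,
    1152663 / 67108864, 991677 / 67108864, 162307 / 4194304, 157733 / 67108864, -113313 / 67108864, 20345 / 67108864,
    -15719 / 8388608, 1959 / 67108864, 22589 / 33554432, -367 / 33554432, 25061 / 67108864, -763 / 67108864,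
    -7 / 16777216, -12153919 / 33554432, 8696473 / 67108864, 1213759 / 8388608, -223639 / 67108864, 0]

end Pool.Agent.FPX.EV_A2_2
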