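import Mathlib
import Pool.Agent.FPX.CEZ

/-
EV_A2_3 (helper86): the control vector A2_3.
-/

noncomputable section

set_option linter.all false
set_option maxRecDepth 100000

namespace Pool.Agent.FPX.EV_A2_3

def sp : ℚ := 8151 / 8192

def mu : ℚ := 33554432 / 223476055

def v : Fin 29 → ℚ :=
  ![257063 / 262144, 10929831 / 67108864, -21378313 / 33554432, 9793689 / 67108864, 6596637 / 33554432,
    5641345 / 67108864, 2302441 / 16777216, -2113447 / 33554432, 40865205 / 67108864, -26881177 / 67108864,
    774289 / 16777216, -1093827 / 67108864, -302127 / 67108864, -1072865 / 33554432, 65 / 67108864,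
    2183607 / 16777216, -973443 / 67108864, 2568963 / 33554432, 15863 / 67108864, -12485273 / 33554432,
    -11921995 / 33554432, -7912321 / 16777216, -13220675 / 33554432, -2673 / 131072, -315027 / 33554432,
    647409 / 33554432, -10199125 / 67108864, -5564975 / 67108864, -6791123 / 33554432]

def u : Fin 24 → ℚ :=
  ![1, -857133 / 33554432, 2935169 / 67108864, -211355 / 33554432, 2253547 / 67108864, -3923493 / 67108864,
    688947 / 33554432, 677897 / 33554432, 596633 / 16777216, 49369 / 16777216, -2175 / 1048576, 12265 / 33554432,
    -158975 / 67108864, 7925 / 67108864, 28015 / 33554432, -2793 / 67108864, 31995 / 67108864, -1595 / 33554432,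
    5 / 4194304, -11997311 / 33554432, 8456845 / 67108864, 9658221 / 67108864, -120331 / 16777216, 0]

end Pool.Agent.FPX.EV_A2_3
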