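import Mathlib
import Pool.Agent.FPX.CEZ

/-
EV_A20_1 (helper86): the control vector A20_1.
-/

noncomputable section

set_option linter.all false
set_option maxRecDepth 100000

namespace Pool.Agent.FPX.EV_A20_1

def sp : ℚ := 6521 / 32768

def mu : ℚ := 67108864 / 446946995

def v : Fin 29 → ℚ :=
  ![1048571 / 1048576, -2402409 / 16777216, -39731647 / 67108864, 4237 / 33554432, -20885 / 67108864, -65 / 67108864,
    119323523 / 33554432, 1165215 / 16777216, 41860633 / 67108864, -70811 / 8388608, 48703 / 67108864,
    847491 / 67108864, 251593155 / 67108864, -3892885 / 67108864, 361063 / 67108864, 886699 / 8388608,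
    274027 / 67108864, -17 / 33554432, 1 / 33554432, 9853395 / 16777216, -37 / 67108864, 4415095 / 33554432,
    239661673 / 33554432, 985453 / 67108864, 244111013 / 33554432, 1288061 / 8388608, 24059 / 8388608,
    -41 / 33554432, -390845 / 33554432]

def u : Fin 24 → ℚ :=
  ![1, -58605 / 33554432, 318745 / 33554432, 53 / 2097152, -17781 / 67108864, -22731025 / 33554432, -1099 / 67108864,
    -311653 / 67108864, -1621 / 67108864, 39433 / 67108864, -9 / 8388608, -3 / 67108864, 139 / 67108864,
    -11 / 8388608, 1 / 67108864, 1 / 67108864, 0, 0, 0, -230059 / 67108864, 85 / 33554432, -99 / 16777216,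
    135 / 33554432, 0]

end Pool.Agent.FPX.EV_A20_1
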