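import Mathlib
import Pool.Agent.FPX.CEZ

/-
EV_A20_2 (helper86): the control vector A20_2.
-/

noncomputable section

set_option linter.all false
set_option maxRecDepth 100000

namespace Pool.Agent.FPX.EV_A20_2

def sp : ℚ := 6521 / 32768

def mu : ℚ := 67108864 / 446946995

def v : Fin 29 → ℚ :=
  ![524191 / 524288, -11459141 / 67108864, -8611343 / 33554432, -7 / 8388608, -17 / 33554432, 7 / 67108864,
    229748831 / 67108864, 4548737 / 67108864, 41996027 / 67108864, -170445 / 33554432, -3 / 16777216,
    868175 / 67108864, 263082425 / 67108864, -4139717 / 67108864, 361063 / 67108864, 7691111 / 67108864,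
    23 / 16777216, 1 / 16777216, 0, 45311453 / 67108864, 1 / 16777216, 2020281 / 16777216, 408168571 / 67108864,
    927767 / 67108864, 234288371 / 33554432, 2886895 / 16777216, 3 / 67108864, 9 / 67108864, -1 / 262144]

def u : Fin 24 → ℚ :=
  ![1, 1 / 1048576, 253 / 33554432, -193 / 67108864, 501 / 16777216, -46031489 / 67108864, 125 / 67108864,
    -861 / 67108864, 181 / 67108864, 1 / 16777216, 1 / 8388608, 0, -1 / 4194304, 5 / 33554432, 0, 0, 0, 0, 0,
    -11 / 67108864, -19 / 67108864, 45 / 67108864, -15 / 33554432, 0]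

end Pool.Agent.FPX.EV_A20_2
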