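import Mathlib
import Pool.Agent.FPX.EDAT
import Pool.Agent.FPX.ECH
import Pool.Agent.FPX.CSC
import Pool.Agent.FPX.EV_A19_3
import Pool.Agent.FPX.EV_A20_1
import Pool.Agent.FPX.EV_A20_2

/-
ECA_20 (helper86): the latitude cell [49/50, 1], row A.
-/

noncomputable section

set_option linter.all false
set_option maxRecDepth 100000

namespace Pool.Agent.FPX.ECA_20

open Pool.Agent.FPX.CEL
open Pool.Agent.FPX.EJN
open Pool.Agent.FPX.EDAT

open Pool.Agent.FPX.BV (PsiL)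
open Pool.Agent.FPX.FSW (BkZ)

def C : CellZ 2 24 where
  a := 49 / 50
  b := 1
  r := 262139 / 262144
  ε := 1 / 1023
  w := [67144405599 / 137438953472, 71505105725 / 68719476736, -18185928125 / 34359738368]
  R := [26479191 / 1048576]
  η := 11283 / 1048576
  n := 9
  V := ![tv (262131 / 262139) (11283 / 2097112) EV_A19_3.v, tv (1) (11283 / 2097112) EV_A20_1.v,
    tv (1) (11283 / 2097112) EV_A20_2.v]
  U := ![EV_A19_3.u, EV_A20_1.u, EV_A20_2.u]

def wv : Fin 29 → ℚ := ![1141 / 1000, 3 / 500, 3 / 500, 327 / 1000, 49 / 1000, 243 / 200, 3 / 1000, 49 / 1000,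
    219 / 1000, 219 / 1000, 1069 / 1000, 411 / 200, 3 / 1000, 8 / 125, 1141 / 500, 83 / 1000, 79 / 1000, 607 / 500,
    152 / 125, 1 / 500, 3 / 100, 4 / 125, 1 / 1000, 211 / 100, 1 / 1000, 43 / 1000, 161 / 500, 59 / 200, 3 / 500]

def wu : Fin 24 → ℚ := ![1069 / 1000, 23 / 500, 23 / 500, 7 / 250, 7 / 250, 23 / 500, 23 / 500, 7 / 250, 7 / 250,
    1 / 500, 1 / 500, 1 / 500, 1 / 500, 1 / 500, 1 / 500, 1 / 500, 1 / 1000, 1 / 1000, 1 / 1000, 507 / 500,
    507 / 500, 257 / 250, 257 / 250, 0]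

def sp : ℚ := 6521 / 32768

def bd : CSB.Bd := ⟨10681 / 10000, 361 / 5000, 17 / 400, 16 / 625, 23 / 1250, 13 / 2500⟩

theorem apr : AprOn PsiL wv wu C.a C.b := CSB.Bd.aprL' (by decide +kernel : bd.okL sp C.a wv wu = true) _

theorem ok : C.okC D D.ul wv wu muA TA = true := by decide +kernel

/-- **the cell** -/
theorem cell
    (H0 : CtlL EV_A19_3.sp EV_A19_3.mu EV_A19_3.v EV_A19_3.u)
    (H1 : CtlL EV_A20_1.sp EV_A20_1.mu EV_A20_1.v EV_A20_1.u)
    (H2 : CtlL EV_A20_2.sp EV_A20_2.mu EV_A20_2.v EV_A20_2.u) :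
    FSW.CellZ (BkZ D) D.cofZ ((muA : ℚ) : ℝ) ((TA : ℚ) : ℝ) C.a C.b C.w := by
  refine EJN.cellC EDAT.isLin apr ok (by decide +kernel : spOk C.a sp = true) fun l => ?_
  fin_cases l
  · exact H0.at (t := 262131 / 262139) (e := 11283 / 2097112) (by decide +kernel) (by decide +kernel)
  · exact H1.at (t := 1) (e := 11283 / 2097112) (by decide +kernel) (by decide +kernel)
  · exact H2.at (t := 1) (e := 11283 / 2097112) (by decide +kernel) (by decide +kernel)

end Pool.Agent.FPX.ECA_20
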