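import Mathlib
import Pool.Agent.FPX.CEZ

/-
EV_A3_1 (helper86): the control vector A3_1.
-/

noncomputable section

set_option linter.all false
set_option maxRecDepth 100000

namespace Pool.Agent.FPX.EV_A3_1

def sp : ℚ := 64795 / 65536

def mu : ℚ := 33554432 / 223476055

def v : Fin 29 → ℚ :=
  ![515091 / 524288, 6164665 / 33554432, -42233279 / 67108864, 9293789 / 67108864, 817031 / 4194304,
    2696553 / 33554432, 7778469 / 67108864, -5741479 / 67108864, 19720209 / 33554432, -12627367 / 33554432,
    3078327 / 67108864, -243655 / 16777216, -337929 / 67108864, -2272967 / 67108864, 65 / 67108864,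
    9803131 / 67108864, -440579 / 33554432, 2495397 / 33554432, 12545 / 67108864, -24173897 / 67108864,
    -22978631 / 67108864, -32389837 / 67108864, -28595045 / 67108864, -5627 / 262144, -12597 / 1048576,
    1173855 / 67108864, -9779235 / 67108864, -1307673 / 16777216, -6897979 / 33554432]

def u : Fin 24 → ℚ :=
  ![1, -124537 / 4194304, 3470279 / 67108864, -453517 / 67108864, 971043 / 33554432, -2337595 / 33554432,
    400785 / 16777216, 1719673 / 67108864, 1088093 / 33554432, 237211 / 67108864, -41271 / 16777216,
    28719 / 67108864, -96089 / 33554432, 1731 / 8388608, 33439 / 33554432, -4841 / 67108864, 38923 / 67108864,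
    -2799 / 33554432, 179 / 67108864, -11840709 / 33554432, 4108621 / 33554432, 9606399 / 67108864,
    -184797 / 16777216, 0]

end Pool.Agent.FPX.EV_A3_1
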