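import Mathlib
import Pool.Agent.FPX.CEZ

/-
EV_A3_2 (helper86): the control vector A3_2.
-/

noncomputable section

set_option linter.all false
set_option maxRecDepth 100000

namespace Pool.Agent.FPX.EV_A3_2

def sp : ℚ := 64795 / 65536

def mu : ℚ := 33554432 / 223476055

def v : Fin 29 → ℚ :=
  ![1031653 / 1048576, 13362687 / 67108864, -41623451 / 67108864, 2213559 / 16777216, 1614205 / 8388608,
    2573999 / 33554432, 6144933 / 67108864, -109945 / 1048576, 9543479 / 16777216, -23749943 / 67108864,
    1532129 / 33554432, -216169 / 16777216, -366121 / 67108864, -1183963 / 33554432, 65 / 67108864,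
    10683871 / 67108864, -416045 / 33554432, 4839685 / 67108864, 10437 / 67108864, -22824999 / 67108864,
    -11051903 / 33554432, -16416139 / 33554432, -31007377 / 67108864, -186297 / 8388608, -255449 / 16777216,
    980703 / 67108864, -4676349 / 33554432, -2451457 / 33554432, -7003543 / 33554432]

def u : Fin 24 → ℚ :=
  ![1, -286327 / 8388608, 4045137 / 67108864, -470935 / 67108864, 187077 / 8388608, -2757687 / 33554432,
    1837927 / 67108864, 2160941 / 67108864, 232935 / 8388608, 281165 / 67108864, -96183 / 33554432, 4111 / 8388608,
    -229507 / 67108864, 21397 / 67108864, 78525 / 67108864, -7347 / 67108864, 23415 / 33554432, -545 / 4194304,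
    397 / 67108864, -23334549 / 67108864, 3977081 / 33554432, 9535369 / 67108864, -910197 / 67108864, 0]

end Pool.Agent.FPX.EV_A3_2
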