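import Mathlib
import Pool.Agent.FPX.CEZ

/-
EV_A3_3 (helper86): the control vector A3_3.
-/

noncomputable section

set_option linter.all false
set_option maxRecDepth 100000

namespace Pool.Agent.FPX.EV_A3_3

def sp : ℚ := 64795 / 65536

def mu : ℚ := 33554432 / 223476055

def v : Fin 29 → ℚ :=
  ![516517 / 524288, 14090351 / 67108864, -20468725 / 33554432, 8466863 / 67108864, 12717669 / 67108864,
    2454005 / 33554432, 4348977 / 67108864, -8133137 / 67108864, 2315799 / 4194304, -22356809 / 67108864,
    3053171 / 67108864, -763203 / 67108864, -190799 / 33554432, -2435391 / 67108864, 65 / 67108864,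
    2849629 / 16777216, -203771 / 16777216, 2343055 / 33554432, 4617 / 33554432, -21091745 / 67108864,
    -10613519 / 33554432, -33013451 / 67108864, -16795265 / 33554432, -380213 / 16777216, -19803 / 1048576,
    365717 / 33554432, -8922987 / 67108864, -4585837 / 67108864, -3549745 / 16777216]

def u : Fin 24 → ℚ :=
  ![1, -2598133 / 67108864, 2313119 / 33554432, -468955 / 67108864, 500353 / 33554432, -803071 / 8388608,
    2067825 / 67108864, 669703 / 16777216, 1508059 / 67108864, 327265 / 67108864, -109407 / 33554432,
    36575 / 67108864, -67305 / 16777216, 113 / 262144, 45001 / 33554432, -9671 / 67108864, 6921 / 8388608,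
    -11899 / 67108864, 639 / 67108864, -22958595 / 67108864, 959405 / 8388608, 9443271 / 67108864,
    -1014683 / 67108864, 0]

end Pool.Agent.FPX.EV_A3_3
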