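import Mathlib
import Pool.Agent.FPX.EDAT
import Pool.Agent.FPX.ECH
import Pool.Agent.FPX.CSC
import Pool.Agent.FPX.EV_A2_3
import Pool.Agent.FPX.EV_A3_1
import Pool.Agent.FPX.EV_A3_2
import Pool.Agent.FPX.EV_A3_3

/-
ECA_3 (helper86): the latitude cell [3/20, 1/5], row A.
-/

noncomputable section

set_option linter.all false
set_option maxRecDepth 100000

namespace Pool.Agent.FPX.ECA_3

open Pool.Agent.FPX.CEL
open Pool.Agent.FPX.EJN
open Pool.Agent.FPX.EDAT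

open Pool.Agent.FPX.BV (PsiL)
open Pool.Agent.FPX.FSW (BkZ)

def C : CellZ 3 24 where
  a := 3 / 20
  b := 1 / 5
  r := 131071 / 131072
  ε := 1 / 1023
  w := [64783545673 / 68719476736, 15738350325 / 34359738368, -7697144475 / 4294967296, 6045649875 / 2147483648]
  R := [268110725 / 268435456, 29511011 / 1073741824, 827564249 / 1073741824, 439571109 / 536870912]
  η := 1 / 524288
  n := 4
  V := ![tv (1) (1 / 1048568) EV_A2_3.v, tv (1) (1 / 1048568) EV_A3_1.v, tv (1) (1 / 1048568) EV_A3_2.v,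
    tv (1) (1 / 1048568) EV_A3_3.v]
  U := ![EV_A2_3.u, EV_A3_1.u, EV_A3_2.u, EV_A3_3.u]

def wv : Fin 29 → ℚ := ![1019 / 500, 259 / 1000, 259 / 1000, 693 / 250, 407 / 1000, 267 / 100, 41 / 500, 409 / 1000,
    36 / 25, 36 / 25, 357 / 250, 4161 / 1000, 41 / 500, 51 / 50, 163 / 40, 427 / 500, 143 / 200, 331 / 125,
    2707 / 1000, 1 / 20, 249 / 1000, 327 / 1000, 31 / 1000, 1289 / 200, 31 / 1000, 391 / 500, 2513 / 1000,
    1357 / 500, 259 / 1000]

def wu : Fin 24 → ℚ := ![357 / 250, 57 / 200, 57 / 200, 7 / 40, 7 / 40, 57 / 200, 57 / 200, 7 / 40, 7 / 40,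
    57 / 1000, 57 / 1000, 57 / 1000, 7 / 200, 7 / 200, 7 / 200, 7 / 200, 11 / 500, 11 / 500, 11 / 500, 1541 / 1000,
    1541 / 1000, 264 / 125, 264 / 125, 0]

def sp : ℚ := 64795 / 65536

def bd : CSB.Bd := ⟨7137 / 5000, 1783 / 5000, 499 / 2500, 1219 / 10000, 897 / 10000, 1271 / 10000⟩

theorem apr : AprOn PsiL wv wu C.a C.b := CSB.Bd.aprL' (by decide +kernel : bd.okL sp C.a wv wu = true) _

theorem ok : C.okC D D.ul wv wu muA TA = true := by decide +kernel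

/-- **the cell** -/
theorem cell
    (H0 : CtlL EV_A2_3.sp EV_A2_3.mu EV_A2_3.v EV_A2_3.u)
    (H1 : CtlL EV_A3_1.sp EV_A3_1.mu EV_A3_1.v EV_A3_1.u)
    (H2 : CtlL EV_A3_2.sp EV_A3_2.mu EV_A3_2.v EV_A3_2.u)
    (H3 : CtlL EV_A3_3.sp EV_A3_3.mu EV_A3_3.v EV_A3_3.u) :
    FSW.CellZ (BkZ D) D.cofZ ((muA : ℚ) : ℝ) ((TA : ℚ) : ℝ) C.a C.b C.w := by
  refine EJN.cellC EDAT.isLin apr ok (by decide +kernel : spOk C.a sp = true) fun l => ?_
  fin_cases l
  · exact H0.at (t := 1) (e := 1 / 1048568) (by decide +kernel) (by decide +kernel)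
  · exact H1.at (t := 1) (e := 1 / 1048568) (by decide +kernel) (by decide +kernel)
  · exact H2.at (t := 1) (e := 1 / 1048568) (by decide +kernel) (by decide +kernel)
  · exact H3.at (t := 1) (e := 1 / 1048568) (by decide +kernel) (by decide +kernel)

end Pool.Agent.FPX.ECA_3
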