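import Mathlib
import Pool.Agent.FPX.CEZ

/-
EV_A4_1 (helper86): the control vector A4_1.
-/

noncomputable section

set_option linter.all false
set_option maxRecDepth 100000

namespace Pool.Agent.FPX.EV_A4_1

def sp : ℚ := 16053 / 16384

def mu : ℚ := 33554432 / 223476055

def v : Fin 29 → ℚ :=
  ![1034449 / 1048576, 926137 / 4194304, -20125783 / 33554432, 8079451 / 67108864, 12521829 / 67108864,
    4668011 / 67108864, 2553327 / 67108864, -9229795 / 67108864, 35931653 / 67108864, -10481839 / 33554432,
    3042077 / 67108864, -20679 / 2097152, -397143 / 67108864, -2502853 / 67108864, 65 / 67108864, 6056579 / 33554432,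
    -798071 / 67108864, 2266265 / 33554432, 2007 / 16777216, -9679223 / 33554432, -1271891 / 4194304,
    -33194621 / 67108864, -36173203 / 67108864, -775665 / 33554432, -378165 / 16777216, 241085 / 33554432,
    -8493283 / 67108864, -533591 / 8388608, -14391031 / 67108864]

def u : Fin 24 → ℚ :=
  ![1, -2905653 / 67108864, 5207397 / 67108864, -233535 / 33554432, 126183 / 16777216, -916715 / 8388608,
    574445 / 16777216, 3196387 / 67108864, 576189 / 33554432, 373365 / 67108864, -61319 / 16777216, 40273 / 67108864,
    -308921 / 67108864, 36459 / 67108864, 101481 / 67108864, -5999 / 33554432, 63897 / 67108864, -15073 / 67108864,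
    441 / 33554432, -176427 / 524288, 231135 / 2097152, 4675609 / 33554432, -139905 / 8388608, 0]

end Pool.Agent.FPX.EV_A4_1
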