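import Mathlib
import Pool.Agent.FPX.CEZ

/-
EV_A4_2 (helper86): the control vector A4_2.
-/

noncomputable section

set_option linter.all false
set_option maxRecDepth 100000

namespace Pool.Agent.FPX.EV_A4_2

def sp : ℚ := 16053 / 16384

def mu : ℚ := 33554432 / 223476055

def v : Fin 29 → ℚ :=
  ![517799 / 524288, 7620241 / 33554432, -39489557 / 67108864, 3872099 / 33554432, 12288903 / 67108864,
    4433133 / 67108864, 74417 / 8388608, -10128109 / 67108864, 17477947 / 33554432, -9841103 / 33554432,
    1516981 / 33554432, -568721 / 67108864, -200001 / 33554432, -635705 / 16777216, 65 / 67108864, 1582713 / 8388608,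
    -101637 / 8388608, 2188245 / 33554432, 3861 / 33554432, -8620565 / 33554432, -9735757 / 33554432,
    -16557261 / 33554432, -19463293 / 33554432, -97651 / 4194304, -1787873 / 67108864, 44197 / 16777216,
    -8060405 / 67108864, -3962333 / 67108864, -14563815 / 67108864]

def u : Fin 24 → ℚ :=
  ![1, -805661 / 16777216, 5794637 / 67108864, -222879 / 33554432, -5091 / 8388608, -2077961 / 16777216,
    1261395 / 33554432, 1895317 / 33554432, 94289 / 8388608, 210799 / 33554432, -270889 / 67108864, 43481 / 67108864,
    -350995 / 67108864, 43933 / 67108864, 112781 / 67108864, -7061 / 33554432, 73051 / 67108864, -9143 / 33554432,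
    573 / 33554432, -2772205 / 8388608, 3550789 / 33554432, 2309521 / 16777216, -578705 / 33554432, 0]

end Pool.Agent.FPX.EV_A4_2
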