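import Mathlib
import Pool.Agent.FPX.CEZ

/-
EV_A4_3 (helper86): the control vector A4_3.
-/

noncomputable section

set_option linter.all false
set_option maxRecDepth 100000

namespace Pool.Agent.FPX.EV_A4_3

def sp : ℚ := 16053 / 16384

def mu : ℚ := 33554432 / 223476055

def v : Fin 29 → ℚ :=
  ![1036667 / 1048576, 15421881 / 67108864, -4833289 / 8388608, 3725983 / 33554432, 12022955 / 67108864,
    2102517 / 33554432, -1477709 / 67108864, -10849323 / 67108864, 17056297 / 33554432, -18502411 / 67108864,
    1513479 / 33554432, -241693 / 33554432, -193353 / 33554432, -320009 / 8388608, 65 / 67108864, 408313 / 2097152,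
    -848777 / 67108864, 2109725 / 33554432, 499 / 4194304, -7453297 / 33554432, -9298977 / 33554432,
    -16404989 / 33554432, -41752785 / 67108864, -389199 / 16777216, -2075741 / 67108864, -168617 / 67108864,
    -7627911 / 67108864, -3670107 / 67108864, -14704429 / 67108864]

def u : Fin 24 → ℚ :=
  ![1, -442361 / 8388608, 6355801 / 67108864, -200633 / 33554432, -69205 / 8388608, -2334615 / 16777216,
    2729817 / 67108864, 4453669 / 67108864, 22957 / 4194304, 117469 / 16777216, -293773 / 67108864, 22959 / 33554432,
    -196671 / 33554432, 24871 / 33554432, 122961 / 67108864, -7775 / 33554432, 82319 / 67108864, -5205 / 16777216,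
    329 / 16777216, -21748393 / 67108864, 6798729 / 67108864, 9102983 / 67108864, -575603 / 33554432, 0]

end Pool.Agent.FPX.EV_A4_3
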