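import Mathlib
import Pool.Agent.FPX.EDAT
import Pool.Agent.FPX.ECH
import Pool.Agent.FPX.CSC
import Pool.Agent.FPX.EV_A3_3
import Pool.Agent.FPX.EV_A4_1
import Pool.Agent.FPX.EV_A4_2
import Pool.Agent.FPX.EV_A4_3

/-
ECA_4 (helper86): the latitude cell [1/5, 1/4], row A.
-/

noncomputable section

set_option linter.all false
set_option maxRecDepth 100000

namespace Pool.Agent.FPX.ECA_4

open Pool.Agent.FPX.CEL
open Pool.Agent.FPX.EJN
open Pool.Agent.FPX.EDAT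

open Pool.Agent.FPX.BV (PsiL)
open Pool.Agent.FPX.FSW (BkZ)

def C : CellZ 3 24 where
  a := 1 / 5
  b := 1 / 4
  r := 131071 / 131072
  ε := 1 / 1023
  w := [64970715061 / 68719476736, 12816777735 / 34359738368, -4964314125 / 4294967296, 1523700375 / 1073741824]
  R := [534708387 / 536870912, 74714535 / 1073741824, 602488467 / 1073741824, 626349397 / 536870912]
  η := 1 / 524288
  n := 4
  V := ![tv (1) (1 / 1048568) EV_A3_3.v, tv (1) (1 / 1048568) EV_A4_1.v, tv (1) (1 / 1048568) EV_A4_2.v,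
    tv (1) (1 / 1048568) EV_A4_3.v]
  U := ![EV_A3_3.u, EV_A4_1.u, EV_A4_2.u, EV_A4_3.u]

def wv : Fin 29 → ℚ := ![1011 / 500, 253 / 1000, 253 / 1000, 2727 / 1000, 2 / 5, 661 / 250, 2 / 25, 403 / 1000,
    711 / 500, 711 / 500, 711 / 500, 2053 / 500, 2 / 25, 499 / 500, 1011 / 250, 419 / 500, 351 / 500, 1311 / 500,
    2681 / 1000, 49 / 1000, 49 / 200, 321 / 1000, 3 / 100, 1583 / 250, 3 / 100, 191 / 250, 99 / 40, 667 / 250,
    253 / 1000]

def wu : Fin 24 → ℚ := ![711 / 500, 141 / 500, 141 / 500, 43 / 250, 43 / 250, 141 / 500, 141 / 500, 43 / 250,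
    43 / 250, 7 / 125, 7 / 125, 7 / 125, 17 / 500, 17 / 500, 17 / 500, 17 / 500, 21 / 1000, 21 / 1000, 21 / 1000,
    1527 / 1000, 1527 / 1000, 2083 / 1000, 2083 / 1000, 0]

def sp : ℚ := 16053 / 16384

def bd : CSB.Bd := ⟨14219 / 10000, 707 / 2000, 989 / 5000, 151 / 1250, 889 / 10000, 1249 / 10000⟩

theorem apr : AprOn PsiL wv wu C.a C.b := CSB.Bd.aprL' (by decide +kernel : bd.okL sp C.a wv wu = true) _

theorem ok : C.okC D D.ul wv wu muA TA = true := by decide +kernel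

/-- **the cell** -/
theorem cell
    (H0 : CtlL EV_A3_3.sp EV_A3_3.mu EV_A3_3.v EV_A3_3.u)
    (H1 : CtlL EV_A4_1.sp EV_A4_1.mu EV_A4_1.v EV_A4_1.u)
    (H2 : CtlL EV_A4_2.sp EV_A4_2.mu EV_A4_2.v EV_A4_2.u)
    (H3 : CtlL EV_A4_3.sp EV_A4_3.mu EV_A4_3.v EV_A4_3.u) :
    FSW.CellZ (BkZ D) D.cofZ ((muA : ℚ) : ℝ) ((TA : ℚ) : ℝ) C.a C.b C.w := by
  refine EJN.cellC EDAT.isLin apr ok (by decide +kernel : spOk C.a sp = true) fun l => ?_
  fin_cases l
  · exact H0.at (t := 1) (e := 1 / 1048568) (by decide +kernel) (by decide +kernel)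
  · exact H1.at (t := 1) (e := 1 / 1048568) (by decide +kernel) (by decide +kernel)
  · exact H2.at (t := 1) (e := 1 / 1048568) (by decide +kernel) (by decide +kernel)
  · exact H3.at (t := 1) (e := 1 / 1048568) (by decide +kernel) (by decide +kernel)

end Pool.Agent.FPX.ECA_4
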