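import Mathlib
import Pool.Agent.FPX.CEZ

/-
EV_A5_1 (helper86): the control vector A5_1.
-/

noncomputable section

set_option linter.all false
set_option maxRecDepth 100000

namespace Pool.Agent.FPX.EV_A5_1

def sp : ℚ := 63455 / 65536

def mu : ℚ := 33554432 / 223476055

def v : Fin 29 → ℚ :=
  ![1037845 / 1048576, 3900833 / 16777216, -9460785 / 16777216, 3579855 / 33554432, 11757101 / 67108864,
    1988461 / 33554432, -443811 / 8388608, -11570535 / 67108864, 2079331 / 4194304, -17322617 / 67108864,
    3019959 / 67108864, -398049 / 67108864, -186729 / 33554432, -2577321 / 67108864, 65 / 67108864,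
    6735163 / 33554432, -442235 / 33554432, 2031205 / 33554432, 2061 / 16777216, -12571725 / 67108864,
    -4431097 / 16777216, -32505437 / 67108864, -44578533 / 67108864, -1551175 / 67108864, -2363319 / 67108864,
    -257013 / 33554432, -3597707 / 33554432, -1688925 / 33554432, -7422613 / 33554432]

def u : Fin 24 → ℚ :=
  ![1, -3855139 / 67108864, 6917149 / 67108864, -356891 / 67108864, -16677 / 1048576, -10365067 / 67108864,
    734235 / 16777216, 5116369 / 67108864, -20193 / 67108864, 518157 / 67108864, -316683 / 67108864,
    48361 / 67108864, -13615 / 2097152, 27793 / 33554432, 66577 / 33554432, -16991 / 67108864, 22895 / 16777216,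
    -23367 / 67108864, 1493 / 67108864, -10659575 / 33554432, 3247933 / 33554432, 1120991 / 8388608,
    -1144967 / 67108864, 0]

end Pool.Agent.FPX.EV_A5_1
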