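import Mathlib
import Pool.Agent.FPX.CEZ

/-
EV_A5_2 (helper86): the control vector A5_2.
-/

noncomputable section

set_option linter.all false
set_option maxRecDepth 100000

namespace Pool.Agent.FPX.EV_A5_2

def sp : ℚ := 63455 / 65536

def mu : ℚ := 33554432 / 223476055

def v : Fin 29 → ℚ :=
  ![1038731 / 1048576, 15544035 / 67108864, -36958771 / 67108864, 6910455 / 67108864, 1432283 / 8388608,
    3755583 / 67108864, -5738259 / 67108864, -6057325 / 33554432, 16279227 / 33554432, -1015281 / 4194304,
    3014067 / 67108864, -320385 / 67108864, -344081 / 67108864, -642965 / 16777216, 65 / 67108864,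
    3432601 / 16777216, -940791 / 67108864, 1952187 / 33554432, 4535 / 33554432, -10019977 / 67108864,
    -16855991 / 67108864, -31976453 / 67108864, -47477009 / 67108864, -764423 / 33554432, -2663509 / 67108864,
    -449729 / 33554432, -6763301 / 67108864, -3099771 / 67108864, -3738457 / 16777216]

def u : Fin 24 → ℚ :=
  ![1, -4170623 / 67108864, 7452273 / 67108864, -72329 / 16777216, -96731 / 4194304, -5720063 / 33554432,
    3126035 / 67108864, 5847897 / 67108864, -99093 / 16777216, 566477 / 67108864, -42107 / 8388608, 50029 / 67108864,
    -478279 / 67108864, 29869 / 33554432, 71109 / 33554432, -2217 / 8388608, 100953 / 67108864, -3153 / 8388608,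
    785 / 33554432, -20865679 / 67108864, 6184919 / 67108864, 8810891 / 67108864, -1094475 / 67108864, 0]

end Pool.Agent.FPX.EV_A5_2
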