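import Mathlib
import Pool.Agent.FPX.CEZ

/-
EV_A5_3 (helper86): the control vector A5_3.
-/

noncomputable section

set_option linter.all false
set_option maxRecDepth 100000

namespace Pool.Agent.FPX.EV_A5_3

def sp : ℚ := 63455 / 65536

def mu : ℚ := 33554432 / 223476055

def v : Fin 29 → ℚ :=
  ![1039541 / 1048576, 15309937 / 67108864, -36031863 / 67108864, 6694493 / 67108864, 11132849 / 67108864,
    3542349 / 67108864, -3993731 / 33554432, -12502901 / 67108864, 15983581 / 33554432, -3814517 / 16777216,
    3007445 / 67108864, -249595 / 67108864, -296221 / 67108864, -2548459 / 67108864, 65 / 67108864,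
    13868109 / 67108864, -125827 / 8388608, 1873377 / 33554432, 317 / 2097152, -7410195 / 67108864,
    -999987 / 4194304, -3907483 / 8388608, -50341763 / 67108864, -746245 / 33554432, -2952189 / 67108864,
    -654421 / 33554432, -6335139 / 67108864, -1419251 / 33554432, -7510833 / 33554432]

def u : Fin 24 → ℚ :=
  ![1, -4475405 / 67108864, 7933405 / 67108864, -197547 / 67108864, -482855 / 16777216, -391967 / 2097152,
    3286431 / 67108864, 6632277 / 67108864, -719859 / 67108864, 612887 / 67108864, -88257 / 16777216,
    50837 / 67108864, -259429 / 33554432, 61361 / 67108864, 149433 / 67108864, -2209 / 8388608, 54907 / 33554432,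
    -25973 / 67108864, 3 / 131072, -10196473 / 33554432, 5873269 / 67108864, 2158031 / 16777216, -510441 / 33554432,
    0]

end Pool.Agent.FPX.EV_A5_3
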