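import Mathlib
import Pool.Agent.FPX.EDAT
import Pool.Agent.FPX.ECH
import Pool.Agent.FPX.CSC
import Pool.Agent.FPX.EV_A4_3
import Pool.Agent.FPX.EV_A5_1
import Pool.Agent.FPX.EV_A5_2
import Pool.Agent.FPX.EV_A5_3

/-
ECA_5 (helper86): the latitude cell [1/4, 3/10], row A.
-/

noncomputable section

set_option linter.all false
set_option maxRecDepth 100000

namespace Pool.Agent.FPX.ECA_5

open Pool.Agent.FPX.CEL
open Pool.Agent.FPX.EJN
open Pool.Agent.FPX.EDAT

open Pool.Agent.FPX.BV (PsiL)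
open Pool.Agent.FPX.FSW (BkZ)

def C : CellZ 3 24 where
  a := 1 / 4
  b := 3 / 10
  r := 131071 / 131072
  ε := 1 / 1023
  w := [127151583887 / 137438953472, 9336842685 / 17179869184, -3371801475 / 2147483648, 442364625 / 268435456]
  R := [265410347 / 268435456, 167656381 / 1073741824, 232172231 / 1073741824, 1744518911 / 1073741824]
  η := 1 / 524288
  n := 4
  V := ![tv (1) (1 / 1048568) EV_A4_3.v, tv (1) (1 / 1048568) EV_A5_1.v, tv (1) (1 / 1048568) EV_A5_2.v,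
    tv (1) (1 / 1048568) EV_A5_3.v]
  U := ![EV_A4_3.u, EV_A5_1.u, EV_A5_2.u, EV_A5_3.u]

def wv : Fin 29 → ℚ := ![2003 / 1000, 49 / 200, 49 / 200, 2669 / 1000, 49 / 125, 2611 / 1000, 77 / 1000, 197 / 500,
    699 / 500, 699 / 500, 283 / 200, 2019 / 500, 77 / 1000, 97 / 100, 801 / 200, 409 / 500, 687 / 1000, 259 / 100,
    1323 / 500, 47 / 1000, 6 / 25, 313 / 1000, 29 / 1000, 6189 / 1000, 29 / 1000, 371 / 500, 97 / 40, 326 / 125,
    49 / 200]

def wu : Fin 24 → ℚ := ![283 / 200, 277 / 1000, 277 / 1000, 169 / 1000, 169 / 1000, 277 / 1000, 277 / 1000,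
    169 / 1000, 169 / 1000, 11 / 200, 11 / 200, 11 / 200, 17 / 500, 17 / 500, 17 / 500, 17 / 500, 21 / 1000,
    21 / 1000, 21 / 1000, 151 / 100, 151 / 100, 256 / 125, 256 / 125, 0]

def sp : ℚ := 63455 / 65536

def bd : CSB.Bd := ⟨283 / 200, 873 / 2500, 391 / 2000, 597 / 5000, 439 / 5000, 1219 / 10000⟩

theorem apr : AprOn PsiL wv wu C.a C.b := CSB.Bd.aprL' (by decide +kernel : bd.okL sp C.a wv wu = true) _

theorem ok : C.okC D D.ul wv wu muA TA = true := by decide +kernel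

/-- **the cell** -/
theorem cell
    (H0 : CtlL EV_A4_3.sp EV_A4_3.mu EV_A4_3.v EV_A4_3.u)
    (H1 : CtlL EV_A5_1.sp EV_A5_1.mu EV_A5_1.v EV_A5_1.u)
    (H2 : CtlL EV_A5_2.sp EV_A5_2.mu EV_A5_2.v EV_A5_2.u)
    (H3 : CtlL EV_A5_3.sp EV_A5_3.mu EV_A5_3.v EV_A5_3.u) :
    FSW.CellZ (BkZ D) D.cofZ ((muA : ℚ) : ℝ) ((TA : ℚ) : ℝ) C.a C.b C.w := by
  refine EJN.cellC EDAT.isLin apr ok (by decide +kernel : spOk C.a sp = true) fun l => ?_
  fin_cases l
  · exact H0.at (t := 1) (e := 1 / 1048568) (by decide +kernel) (by decide +kernel)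
  · exact H1.at (t := 1) (e := 1 / 1048568) (by decide +kernel) (by decide +kernel)
  · exact H2.at (t := 1) (e := 1 / 1048568) (by decide +kernel) (by decide +kernel)
  · exact H3.at (t := 1) (e := 1 / 1048568) (by decide +kernel) (by decide +kernel)

end Pool.Agent.FPX.ECA_5
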