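import Mathlib
import Pool.Agent.FPX.CEZ

/-
EV_A6_1 (helper86): the control vector A6_1.
-/

noncomputable section

set_option linter.all false
set_option maxRecDepth 100000

namespace Pool.Agent.FPX.EV_A6_1

def sp : ℚ := 31259 / 32768

def mu : ℚ := 33554432 / 223476055

def v : Fin 29 → ℚ :=
  ![260123 / 262144, 15075771 / 67108864, -35104981 / 67108864, 6478527 / 67108864, 675469 / 4194304,
    1664549 / 33554432, -10236417 / 67108864, -12891155 / 67108864, 31375869 / 67108864, -14271639 / 67108864,
    3000821 / 67108864, -44701 / 16777216, -248385 / 67108864, -1262531 / 33554432, 65 / 67108864,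
    14005815 / 67108864, -1072471 / 67108864, 3589133 / 67108864, 701 / 4194304, -2399899 / 33554432,
    -15143597 / 67108864, -30543273 / 67108864, -6650757 / 8388608, -1456131 / 67108864, -3240605 / 67108864,
    -859111 / 33554432, -5906981 / 67108864, -1288599 / 33554432, -15089695 / 67108864]

def u : Fin 24 → ℚ :=
  ![1, -4780215 / 67108864, 8414829 / 67108864, -105907 / 67108864, -2316445 / 67108864, -3411447 / 16777216,
    3446963 / 67108864, 3708153 / 33554432, -261005 / 16777216, 659315 / 67108864, -369231 / 67108864,
    12913 / 16777216, -139861 / 16777216, 63025 / 67108864, 19583 / 8388608, -17625 / 67108864, 118673 / 67108864,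
    -3343 / 8388608, 751 / 33554432, -19920213 / 67108864, 2780795 / 33554432, 264169 / 2097152, -236791 / 16777216,
    0]

end Pool.Agent.FPX.EV_A6_1
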