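import Mathlib
import Pool.Agent.FPX.CEZ

/-
EV_A6_2 (helper86): the control vector A6_2.
-/

noncomputable section

set_option linter.all false
set_option maxRecDepth 100000

namespace Pool.Agent.FPX.EV_A6_2

def sp : ℚ := 31259 / 32768

def mu : ℚ := 33554432 / 223476055

def v : Fin 29 → ℚ :=
  ![1041199 / 1048576, 7333475 / 33554432, -34135583 / 67108864, 6295833 / 67108864, 1306953 / 8388608,
    195247 / 4194304, -6273373 / 33554432, -13123547 / 67108864, 30904123 / 67108864, -6688449 / 33554432,
    374183 / 8388608, -14361 / 8388608, -182091 / 67108864, -2483725 / 67108864, 65 / 67108864, 14021149 / 67108864,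
    -1147801 / 67108864, 3431929 / 67108864, 12539 / 67108864, -2131711 / 67108864, -7149799 / 33554432,
    -14819539 / 33554432, -14009137 / 16777216, -702875 / 33554432, -219843 / 4194304, -2151553 / 67108864,
    -1370695 / 16777216, -2332701 / 67108864, -15116949 / 67108864]

def u : Fin 24 → ℚ :=
  ![1, -5074311 / 67108864, 8842137 / 67108864, 9939 / 67108864, -2604343 / 67108864, -7388175 / 33554432,
    894691 / 16777216, 8253187 / 67108864, -657665 / 33554432, 703827 / 67108864, -190717 / 33554432,
    12903 / 16777216, -298997 / 33554432, 31077 / 33554432, 162035 / 67108864, -16777 / 67108864, 31755 / 16777216,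
    -26403 / 67108864, 1359 / 67108864, -19428227 / 67108864, 2624615 / 33554432, 2063239 / 16777216,
    -850439 / 67108864, 0]

end Pool.Agent.FPX.EV_A6_2
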