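import Mathlib
import Pool.Agent.FPX.CEZ

/-
EV_A6_3 (helper86): the control vector A6_3.
-/

noncomputable section

set_option linter.all false
set_option maxRecDepth 100000

namespace Pool.Agent.FPX.EV_A6_3

def sp : ℚ := 31259 / 32768

def mu : ℚ := 33554432 / 223476055

def v : Fin 29 → ℚ :=
  ![1041921 / 1048576, 442119 / 2097152, -33145451 / 67108864, 6136567 / 67108864, 2521301 / 16777216,
    2927913 / 67108864, -7429735 / 33554432, -13221323 / 67108864, 15269507 / 33554432, -12563865 / 67108864,
    745897 / 16777216, -57049 / 67108864, -95569 / 67108864, -2429241 / 67108864, 65 / 67108864, 13935977 / 67108864,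
    -1222223 / 67108864, 1638241 / 33554432, 1729 / 8388608, 112499 / 16777216, -13474897 / 67108864,
    -3573013 / 8388608, -3669955 / 4194304, -84001 / 4194304, -469067 / 8388608, -2592743 / 67108864,
    -316633 / 4194304, -2106745 / 67108864, -15099465 / 67108864]

def u : Fin 24 → ℚ :=
  ![1, -83569 / 1048576, 9194589 / 67108864, 147911 / 67108864, -2763029 / 67108864, -497329 / 2097152,
    1837193 / 33554432, 4559235 / 33554432, -47145 / 2097152, 744803 / 67108864, -389117 / 67108864,
    50823 / 67108864, -158083 / 16777216, 14737 / 16777216, 165179 / 67108864, -15399 / 67108864, 134211 / 67108864,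
    -25023 / 67108864, 583 / 33554432, -18921967 / 67108864, 4942845 / 67108864, 8032301 / 67108864,
    -93603 / 8388608, 0]

end Pool.Agent.FPX.EV_A6_3
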