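import Mathlib
import Pool.Agent.FPX.EDAT
import Pool.Agent.FPX.ECH
import Pool.Agent.FPX.CSC
import Pool.Agent.FPX.EV_A5_3
import Pool.Agent.FPX.EV_A6_1
import Pool.Agent.FPX.EV_A6_2
import Pool.Agent.FPX.EV_A6_3

/-
ECA_6 (helper86): the latitude cell [3/10, 7/20], row A.
-/

noncomputable section

set_option linter.all false
set_option maxRecDepth 100000

namespace Pool.Agent.FPX.ECA_6

open Pool.Agent.FPX.CEL
open Pool.Agent.FPX.EJN
open Pool.Agent.FPX.EDAT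

open Pool.Agent.FPX.BV (PsiL)
open Pool.Agent.FPX.FSW (BkZ)

def C : CellZ 3 24 where
  a := 3 / 10
  b := 7 / 20
  r := 131071 / 131072
  ε := 1 / 1023
  w := [123223386017 / 137438953472, 25957956195 / 34359738368, -8837462175 / 4294967296, 4243423625 / 2147483648]
  R := [1043229071 / 1073741824, 175552375 / 536870912, -377072985 / 1073741824, 2418958765 / 1073741824]
  η := 1 / 524288
  n := 4
  V := ![tv (1) (1 / 1048568) EV_A5_3.v, tv (1) (1 / 1048568) EV_A6_1.v, tv (1) (1 / 1048568) EV_A6_2.v,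
    tv (1) (1 / 1048568) EV_A6_3.v]
  U := ![EV_A5_3.u, EV_A6_1.u, EV_A6_2.u, EV_A6_3.u]

def wv : Fin 29 → ℚ := ![989 / 500, 47 / 200, 47 / 200, 2599 / 1000, 381 / 1000, 2571 / 1000, 37 / 500, 383 / 1000,
    1369 / 1000, 1369 / 1000, 1407 / 1000, 1977 / 500, 37 / 500, 117 / 125, 989 / 250, 397 / 500, 167 / 250, 51 / 20,
    651 / 250, 9 / 200, 233 / 1000, 38 / 125, 7 / 250, 3009 / 500, 7 / 250, 143 / 200, 473 / 200, 2537 / 1000,
    47 / 200]

def wu : Fin 24 → ℚ := ![1407 / 1000, 271 / 1000, 271 / 1000, 83 / 500, 83 / 500, 271 / 1000, 271 / 1000, 83 / 500,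
    83 / 500, 53 / 1000, 53 / 1000, 53 / 1000, 4 / 125, 4 / 125, 4 / 125, 4 / 125, 1 / 50, 1 / 50, 1 / 50,
    1489 / 1000, 1489 / 1000, 401 / 200, 401 / 200, 0]

def sp : ℚ := 31259 / 32768

def bd : CSB.Bd := ⟨14063 / 10000, 3441 / 10000, 963 / 5000, 1177 / 10000, 173 / 2000, 74 / 625⟩

theorem apr : AprOn PsiL wv wu C.a C.b := CSB.Bd.aprL' (by decide +kernel : bd.okL sp C.a wv wu = true) _

theorem ok : C.okC D D.ul wv wu muA TA = true := by decide +kernel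

/-- **the cell** -/
theorem cell
    (H0 : CtlL EV_A5_3.sp EV_A5_3.mu EV_A5_3.v EV_A5_3.u)
    (H1 : CtlL EV_A6_1.sp EV_A6_1.mu EV_A6_1.v EV_A6_1.u)
    (H2 : CtlL EV_A6_2.sp EV_A6_2.mu EV_A6_2.v EV_A6_2.u)
    (H3 : CtlL EV_A6_3.sp EV_A6_3.mu EV_A6_3.v EV_A6_3.u) :
    FSW.CellZ (BkZ D) D.cofZ ((muA : ℚ) : ℝ) ((TA : ℚ) : ℝ) C.a C.b C.w := by
  refine EJN.cellC EDAT.isLin apr ok (by decide +kernel : spOk C.a sp = true) fun l => ?_
  fin_cases l
  · exact H0.at (t := 1) (e := 1 / 1048568) (by decide +kernel) (by decide +kernel)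
  · exact H1.at (t := 1) (e := 1 / 1048568) (by decide +kernel) (by decide +kernel)
  · exact H2.at (t := 1) (e := 1 / 1048568) (by decide +kernel) (by decide +kernel)
  · exact H3.at (t := 1) (e := 1 / 1048568) (by decide +kernel) (by decide +kernel)

end Pool.Agent.FPX.ECA_6
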