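import Mathlib
import Pool.Agent.FPX.CEZ

/-
EV_A7_1 (helper86): the control vector A7_1.
-/

noncomputable section

set_option linter.all false
set_option maxRecDepth 100000

namespace Pool.Agent.FPX.EV_A7_1

def sp : ℚ := 61391 / 65536

def mu : ℚ := 33554432 / 223476055

def v : Fin 29 → ℚ :=
  ![130325 / 131072, 13628477 / 67108864, -16077645 / 33554432, 2988655 / 33554432, 2428703 / 16777216,
    1365933 / 33554432, -2146491 / 8388608, -13319099 / 67108864, 15086951 / 33554432, -2937707 / 16777216,
    1486861 / 33554432, 395 / 33554432, -4523 / 33554432, -74211 / 2097152, 65 / 67108864, 3462701 / 16777216,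
    -648347 / 33554432, 3121033 / 67108864, 7565 / 33554432, 3032605 / 67108864, -12650203 / 67108864,
    -27529133 / 67108864, -15350371 / 16777216, -641143 / 33554432, -1993661 / 33554432, -3033935 / 67108864,
    -4649477 / 67108864, -940373 / 33554432, -7541085 / 33554432]

def u : Fin 24 → ℚ :=
  ![1, -2811281 / 33554432, 1193427 / 8388608, 285753 / 67108864, -1461629 / 33554432, -17052763 / 67108864,
    3770171 / 67108864, 9983419 / 67108864, -1702709 / 67108864, 785791 / 67108864, -198417 / 33554432,
    6255 / 8388608, -333341 / 33554432, 27889 / 33554432, 84169 / 33554432, -1753 / 8388608, 141407 / 67108864,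
    -23661 / 67108864, 977 / 67108864, -18415705 / 67108864, 4636419 / 67108864, 1952925 / 16777216,
    -161753 / 16777216, 0]

end Pool.Agent.FPX.EV_A7_1
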