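import Mathlib
import Pool.Agent.FPX.CEZ

/-
EV_A7_2 (helper86): the control vector A7_2.
-/

noncomputable section

set_option linter.all false
set_option maxRecDepth 100000

namespace Pool.Agent.FPX.EV_A7_2

def sp : ℚ := 61391 / 65536

def mu : ℚ := 33554432 / 223476055

def v : Fin 29 → ℚ :=
  ![1043205 / 1048576, 12998969 / 67108864, -31144413 / 67108864, 1460365 / 16777216, 4662961 / 33554432,
    1272463 / 33554432, -19486723 / 67108864, -830141 / 4194304, 29915429 / 67108864, -2754875 / 16777216,
    1480669 / 33554432, 52553 / 67108864, 48837 / 33554432, -2307115 / 67108864, 65 / 67108864, 13665125 / 67108864,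
    -1370233 / 67108864, 2967341 / 67108864, 1025 / 4194304, 5528493 / 67108864, -1480601 / 8388608,
    -13161693 / 33554432, -63935847 / 67108864, -1209203 / 67108864, -2090133 / 33554432, -3482989 / 67108864,
    -4240373 / 67108864, -418321 / 16777216, -7510075 / 33554432]

def u : Fin 24 → ℚ :=
  ![1, -5876703 / 67108864, 9825301 / 67108864, 55715 / 8388608, -1477081 / 33554432, -18198571 / 67108864,
    3829749 / 67108864, 2719181 / 16777216, -909369 / 33554432, 411619 / 33554432, -400033 / 67108864,
    48517 / 67108864, -696803 / 67108864, 50295 / 67108864, 169265 / 67108864, -1517 / 8388608, 147445 / 67108864,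
    -5317 / 16777216, 747 / 67108864, -17895175 / 67108864, 4335981 / 67108864, 3785449 / 33554432,
    -540375 / 67108864, 0]

end Pool.Agent.FPX.EV_A7_2
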