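import Mathlib
import Pool.Agent.FPX.CEZ

/-
EV_A7_3 (helper86): the control vector A7_3.
-/

noncomputable section

set_option linter.all false
set_option maxRecDepth 100000

namespace Pool.Agent.FPX.EV_A7_3

def sp : ℚ := 61391 / 65536

def mu : ℚ := 33554432 / 223476055

def v : Fin 29 → ℚ :=
  ![260911 / 262144, 6159549 / 33554432, -15068599 / 33554432, 5719429 / 67108864, 4463631 / 33554432,
    1183915 / 33554432, -21739971 / 67108864, -6566019 / 33554432, 7437669 / 16777216, -10359887 / 67108864,
    2944817 / 67108864, 99033 / 67108864, 28295 / 8388608, -1115551 / 33554432, 65 / 67108864, 418775 / 2097152,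
    -1433679 / 67108864, 2816661 / 67108864, 8725 / 33554432, 7815211 / 67108864, -2766479 / 16777216,
    -1562731 / 4194304, -33100733 / 33554432, -1127459 / 67108864, -2147547 / 33554432, -1961913 / 33554432,
    -120075 / 2097152, -742567 / 33554432, -14914011 / 67108864]

def u : Fin 24 → ℚ :=
  ![1, -762819 / 8388608, 156509 / 1048576, 311287 / 33554432, -2860803 / 67108864, -9666615 / 33554432,
    1924767 / 33554432, 11765865 / 67108864, -924889 / 33554432, 213975 / 16777216, -199475 / 33554432,
    46489 / 67108864, -720865 / 67108864, 43603 / 67108864, 42001 / 16777216, -5081 / 33554432, 151783 / 67108864,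
    -9181 / 33554432, 555 / 67108864, -17365267 / 67108864, 1011783 / 16777216, 7312777 / 67108864,
    -442349 / 67108864, 0]

end Pool.Agent.FPX.EV_A7_3
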