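import Mathlib
import Pool.Agent.FPX.EDAT
import Pool.Agent.FPX.ECH
import Pool.Agent.FPX.CSC
import Pool.Agent.FPX.EV_A6_3
import Pool.Agent.FPX.EV_A7_1
import Pool.Agent.FPX.EV_A7_2
import Pool.Agent.FPX.EV_A7_3

/-
ECA_7 (helper86): the latitude cell [7/20, 2/5], row A.
-/

noncomputable section

set_option linter.all false
set_option maxRecDepth 100000

namespace Pool.Agent.FPX.ECA_7

open Pool.Agent.FPX.CEL
open Pool.Agent.FPX.EJN
open Pool.Agent.FPX.EDAT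

open Pool.Agent.FPX.BV (PsiL)
open Pool.Agent.FPX.FSW (BkZ)

def C : CellZ 3 24 where
  a := 7 / 20
  b := 2 / 5
  r := 131071 / 131072
  ε := 1 / 1023
  w := [34351743035 / 34359738368, -5491219545 / 34359738368, 2801642625 / 4294967296, -376829125 / 536870912]
  R := [1001613197 / 1073741824, 706567183 / 1073741824, -1389122645 / 1073741824, 3379427687 / 1073741824]
  η := 1 / 524288
  n := 4
  V := ![tv (1) (1 / 1048568) EV_A6_3.v, tv (1) (1 / 1048568) EV_A7_1.v, tv (1) (1 / 1048568) EV_A7_2.v,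
    tv (1) (1 / 1048568) EV_A7_3.v]
  U := ![EV_A6_3.u, EV_A7_1.u, EV_A7_2.u, EV_A7_3.u]

def wv : Fin 29 → ℚ := ![1949 / 1000, 223 / 1000, 223 / 1000, 629 / 250, 369 / 1000, 1261 / 500, 7 / 100, 371 / 1000,
    667 / 500, 667 / 500, 349 / 250, 482 / 125, 7 / 100, 179 / 200, 1949 / 500, 153 / 200, 129 / 200, 1251 / 500,
    639 / 250, 43 / 1000, 113 / 500, 293 / 1000, 13 / 500, 5817 / 1000, 13 / 500, 683 / 1000, 1147 / 500, 613 / 250,
    223 / 1000]

def wu : Fin 24 → ℚ := ![349 / 250, 33 / 125, 33 / 125, 81 / 500, 81 / 500, 33 / 125, 33 / 125, 81 / 500, 81 / 500,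
    1 / 20, 1 / 20, 1 / 20, 31 / 1000, 31 / 1000, 31 / 1000, 31 / 1000, 19 / 1000, 19 / 1000, 19 / 1000, 183 / 125,
    183 / 125, 391 / 200, 391 / 200, 0]

def sp : ℚ := 61391 / 65536

def bd : CSB.Bd := ⟨349 / 250, 1689 / 5000, 1891 / 10000, 231 / 2000, 17 / 200, 1141 / 10000⟩

theorem apr : AprOn PsiL wv wu C.a C.b := CSB.Bd.aprL' (by decide +kernel : bd.okL sp C.a wv wu = true) _

theorem ok : C.okC D D.ul wv wu muA TA = true := by decide +kernel

/-- **the cell** -/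
theorem cell
    (H0 : CtlL EV_A6_3.sp EV_A6_3.mu EV_A6_3.v EV_A6_3.u)
    (H1 : CtlL EV_A7_1.sp EV_A7_1.mu EV_A7_1.v EV_A7_1.u)
    (H2 : CtlL EV_A7_2.sp EV_A7_2.mu EV_A7_2.v EV_A7_2.u)
    (H3 : CtlL EV_A7_3.sp EV_A7_3.mu EV_A7_3.v EV_A7_3.u) :
    FSW.CellZ (BkZ D) D.cofZ ((muA : ℚ) : ℝ) ((TA : ℚ) : ℝ) C.a C.b C.w := by
  refine EJN.cellC EDAT.isLin apr ok (by decide +kernel : spOk C.a sp = true) fun l => ?_
  fin_cases l
  · exact H0.at (t := 1) (e := 1 / 1048568) (by decide +kernel) (by decide +kernel)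
  · exact H1.at (t := 1) (e := 1 / 1048568) (by decide +kernel) (by decide +kernel)
  · exact H2.at (t := 1) (e := 1 / 1048568) (by decide +kernel) (by decide +kernel)
  · exact H3.at (t := 1) (e := 1 / 1048568) (by decide +kernel) (by decide +kernel)

end Pool.Agent.FPX.ECA_7
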