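import Mathlib
import Pool.Agent.FPX.CEZ

/-
EV_A8_1 (helper86): the control vector A8_1.
-/

noncomputable section

set_option linter.all false
set_option maxRecDepth 100000

namespace Pool.Agent.FPX.EV_A8_1

def sp : ℚ := 60065 / 65536

def mu : ℚ := 33554432 / 223476055

def v : Fin 29 → ℚ :=
  ![1044363 / 1048576, 11638913 / 67108864, -1820619 / 4194304, 5597429 / 67108864, 2132151 / 16777216,
    1095359 / 33554432, -11996447 / 33554432, -12981819 / 67108864, 29585925 / 67108864, -2425069 / 16777216,
    1464153 / 33554432, 36379 / 16777216, 355079 / 67108864, -2155091 / 67108864, 65 / 67108864, 13136477 / 67108864,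
    -748599 / 33554432, 2665979 / 67108864, 9251 / 33554432, 5051559 / 33554432, -1285877 / 8388608,
    -23684009 / 67108864, -34233205 / 33554432, -1045711 / 67108864, -2204815 / 33554432, -4364661 / 67108864,
    -430553 / 8388608, -324235 / 16777216, -14808049 / 67108864]

def u : Fin 24 → ℚ :=
  ![1, -3164229 / 33554432, 1276035 / 8388608, 799303 / 67108864, -692229 / 16777216, -10233989 / 33554432,
    3869493 / 67108864, 98865 / 524288, -117597 / 4194304, 444293 / 33554432, -6217 / 1048576, 44467 / 67108864,
    -372477 / 33554432, 9233 / 16777216, 41689 / 16777216, -8189 / 67108864, 78067 / 33554432, -15465 / 67108864,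
    365 / 67108864, -8417675 / 33554432, 234889 / 4194304, 7054713 / 67108864, -86023 / 16777216, 0]

end Pool.Agent.FPX.EV_A8_1
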