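import Mathlib
import Pool.Agent.FPX.CEZ

/-
EV_A8_2 (helper86): the control vector A8_2.
-/

noncomputable section

set_option linter.all false
set_option maxRecDepth 100000

namespace Pool.Agent.FPX.EV_A8_2

def sp : ℚ := 60065 / 65536

def mu : ℚ := 33554432 / 223476055

def v : Fin 29 → ℚ :=
  ![522405 / 524288, 5454257 / 33554432, -28126287 / 67108864, 5489231 / 67108864, 8120217 / 67108864,
    1011725 / 33554432, -26184215 / 67108864, -6359113 / 33554432, 14757447 / 33554432, -2278095 / 16777216,
    1453827 / 33554432, 93357 / 33554432, 505717 / 67108864, -2070705 / 67108864, 65 / 67108864, 6396753 / 33554432,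
    -1550603 / 67108864, 78697 / 2097152, 9665 / 33554432, 3045377 / 16777216, -1191829 / 8388608,
    -22250375 / 67108864, -35231267 / 33554432, -238825 / 16777216, -2223037 / 33554432, -149915 / 2097152,
    -3057579 / 67108864, -1128063 / 67108864, -14657999 / 67108864]

def u : Fin 24 → ℚ :=
  ![1, -3263027 / 33554432, 5156667 / 33554432, 248225 / 16777216, -2553063 / 67108864, -21591539 / 67108864,
    962411 / 16777216, 6769659 / 33554432, -1828423 / 67108864, 916487 / 67108864, -196275 / 33554432,
    41945 / 67108864, -762975 / 67108864, 7271 / 16777216, 40831 / 16777216, -1537 / 16777216, 158779 / 67108864,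
    -12071 / 67108864, 105 / 33554432, -16296059 / 67108864, 3480913 / 67108864, 847417 / 8388608,
    -127237 / 33554432, 0]

end Pool.Agent.FPX.EV_A8_2
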