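import Mathlib
import Pool.Agent.FPX.CEZ

/-
EV_A8_3 (helper86): the control vector A8_3.
-/

noncomputable section

set_option linter.all false
set_option maxRecDepth 100000

namespace Pool.Agent.FPX.EV_A8_3

def sp : ℚ := 60065 / 65536

def mu : ℚ := 33554432 / 223476055

def v : Fin 29 → ℚ :=
  ![1045209 / 1048576, 10180267 / 67108864, -6788241 / 16777216, 5385937 / 67108864, 3855405 / 33554432,
    1866475 / 67108864, -7061331 / 16777216, -48291 / 262144, 7381169 / 16777216, -8586221 / 67108864,
    2881459 / 67108864, 223433 / 67108864, 680801 / 67108864, -1982731 / 67108864, 97 / 67108864, 387305 / 2097152,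
    -1586457 / 67108864, 2374799 / 67108864, 19827 / 67108864, 1744551 / 8388608, -4407929 / 33554432,
    -20739637 / 67108864, -72062001 / 67108864, -858899 / 67108864, -4361823 / 67108864, -2602797 / 33554432,
    -671351 / 16777216, -489157 / 33554432, -7234331 / 33554432]

def u : Fin 24 → ℚ :=
  ![1, -1672099 / 16777216, 5165209 / 33554432, 298783 / 16777216, -2253671 / 67108864, -177245 / 524288,
    118457 / 2097152, 3595091 / 16777216, -212641 / 8388608, 938835 / 67108864, -191881 / 33554432, 39217 / 67108864,
    -773721 / 67108864, 21617 / 67108864, 158135 / 67108864, -2209 / 33554432, 159411 / 67108864, -2227 / 16777216,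
    125 / 67108864, -7876035 / 33554432, 3219445 / 67108864, 3245437 / 33554432, -181357 / 67108864, 0]

end Pool.Agent.FPX.EV_A8_3
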