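import Mathlib
import Pool.Agent.FPX.EDAT
import Pool.Agent.FPX.ECH
import Pool.Agent.FPX.CSC
import Pool.Agent.FPX.EV_A7_3
import Pool.Agent.FPX.EV_A8_1
import Pool.Agent.FPX.EV_A8_2
import Pool.Agent.FPX.EV_A8_3

/-
ECA_8 (helper86): the latitude cell [2/5, 9/20], row A.
-/

noncomputable section

set_option linter.all false
set_option maxRecDepth 100000

namespace Pool.Agent.FPX.ECA_8

open Pool.Agent.FPX.CEL
open Pool.Agent.FPX.EJN
open Pool.Agent.FPX.EDAT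

open Pool.Agent.FPX.BV (PsiL)
open Pool.Agent.FPX.FSW (BkZ)

def C : CellZ 3 24 where
  a := 2 / 5
  b := 9 / 20
  r := 131071 / 131072
  ε := 1 / 1023
  w := [28163094699 / 34359738368, 38155423455 / 34359738368, -1268111925 / 536870912, 114687125 / 67108864]
  R := [454895153 / 536870912, 1392919461 / 1073741824, -774801207 / 268435456, 299979005 / 67108864]
  η := 1 / 524288
  n := 4
  V := ![tv (1) (1 / 1048568) EV_A7_3.v, tv (1) (1 / 1048568) EV_A8_1.v, tv (1) (1 / 1048568) EV_A8_2.v,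
    tv (1) (1 / 1048568) EV_A8_3.v]
  U := ![EV_A7_3.u, EV_A8_1.u, EV_A8_2.u, EV_A8_3.u]

def wv : Fin 29 → ℚ := ![1917 / 1000, 21 / 100, 21 / 100, 303 / 125, 71 / 200, 617 / 250, 33 / 500, 357 / 1000,
    259 / 200, 259 / 200, 277 / 200, 937 / 250, 33 / 500, 851 / 1000, 1917 / 500, 733 / 1000, 31 / 50, 2449 / 1000,
    5 / 2, 41 / 1000, 217 / 1000, 7 / 25, 1 / 40, 699 / 125, 1 / 40, 81 / 125, 1107 / 500, 2357 / 1000, 21 / 100]

def wu : Fin 24 → ℚ := ![277 / 200, 257 / 1000, 257 / 1000, 157 / 1000, 157 / 1000, 257 / 1000, 257 / 1000,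
    157 / 1000, 157 / 1000, 6 / 125, 6 / 125, 6 / 125, 29 / 1000, 29 / 1000, 29 / 1000, 29 / 1000, 9 / 500, 9 / 500,
    9 / 500, 1437 / 1000, 1437 / 1000, 949 / 500, 949 / 500, 0]

def sp : ℚ := 60065 / 65536

def bd : CSB.Bd := ⟨3461 / 2500, 3307 / 10000, 1851 / 10000, 113 / 1000, 831 / 10000, 1093 / 10000⟩

theorem apr : AprOn PsiL wv wu C.a C.b := CSB.Bd.aprL' (by decide +kernel : bd.okL sp C.a wv wu = true) _

theorem ok : C.okC D D.ul wv wu muA TA = true := by decide +kernel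

/-- **the cell** -/
theorem cell
    (H0 : CtlL EV_A7_3.sp EV_A7_3.mu EV_A7_3.v EV_A7_3.u)
    (H1 : CtlL EV_A8_1.sp EV_A8_1.mu EV_A8_1.v EV_A8_1.u)
    (H2 : CtlL EV_A8_2.sp EV_A8_2.mu EV_A8_2.v EV_A8_2.u)
    (H3 : CtlL EV_A8_3.sp EV_A8_3.mu EV_A8_3.v EV_A8_3.u) :
    FSW.CellZ (BkZ D) D.cofZ ((muA : ℚ) : ℝ) ((TA : ℚ) : ℝ) C.a C.b C.w := by
  refine EJN.cellC EDAT.isLin apr ok (by decide +kernel : spOk C.a sp = true) fun l => ?_
  fin_cases l
  · exact H0.at (t := 1) (e := 1 / 1048568) (by decide +kernel) (by decide +kernel)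
  · exact H1.at (t := 1) (e := 1 / 1048568) (by decide +kernel) (by decide +kernel)
  · exact H2.at (t := 1) (e := 1 / 1048568) (by decide +kernel) (by decide +kernel)
  · exact H3.at (t := 1) (e := 1 / 1048568) (by decide +kernel) (by decide +kernel)

end Pool.Agent.FPX.ECA_8
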