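import Mathlib
import Pool.Agent.FPX.CEZ

/-
EV_A9_1 (helper86): the control vector A9_1.
-/

noncomputable section

set_option linter.all false
set_option maxRecDepth 100000

namespace Pool.Agent.FPX.EV_A9_1

def sp : ℚ := 29263 / 32768

def mu : ℚ := 33554432 / 223476055

def v : Fin 29 → ℚ :=
  ![522861 / 524288, 9451591 / 67108864, -13089747 / 33554432, 1320673 / 16777216, 7301373 / 67108864,
    854747 / 33554432, -15152995 / 33554432, -750423 / 4194304, 3691807 / 8388608, -8060059 / 67108864,
    178455 / 4194304, 65037 / 16777216, 53497 / 4194304, -947377 / 33554432, 97 / 67108864, 11994009 / 67108864,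
    -811203 / 33554432, 1115643 / 33554432, 5081 / 16777216, 15732773 / 67108864, -4048533 / 33554432,
    -600903 / 2097152, -73660543 / 67108864, -762499 / 67108864, -4277225 / 67108864, -2806955 / 33554432,
    -2313227 / 67108864, -828531 / 67108864, -14279465 / 67108864]

def u : Fin 24 → ℚ :=
  ![1, -6850805 / 67108864, 5173971 / 33554432, 698627 / 33554432, -122209 / 4194304, -5945827 / 16777216,
    3731781 / 67108864, 3805307 / 16777216, -787221 / 33554432, 961201 / 67108864, -374989 / 67108864,
    4561 / 8388608, -784503 / 67108864, 14143 / 67108864, 76477 / 33554432, -1341 / 33554432, 40015 / 16777216,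
    -717 / 8388608, 33 / 67108864, -15208067 / 67108864, 2957909 / 67108864, 6202465 / 67108864, -3375 / 2097152, 0]

end Pool.Agent.FPX.EV_A9_1
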