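import Mathlib
import Pool.Agent.FPX.CEZ

/-
EV_A9_2 (helper86): the control vector A9_2.
-/

noncomputable section

set_option linter.all false
set_option maxRecDepth 100000

namespace Pool.Agent.FPX.EV_A9_2

def sp : ℚ := 29263 / 32768

def mu : ℚ := 33554432 / 223476055

def v : Fin 29 → ℚ :=
  ![1046031 / 1048576, 8725217 / 67108864, -25236321 / 67108864, 5184327 / 67108864, 6890943 / 67108864,
    1562807 / 67108864, -16118193 / 33554432, -1444863 / 8388608, 14812525 / 33554432, -474727 / 4194304,
    2823551 / 67108864, 146193 / 33554432, 1055479 / 67108864, -901595 / 33554432, 97 / 67108864, 2884371 / 16777216,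
    -820389 / 33554432, 2091941 / 67108864, 20495 / 67108864, 8602653 / 33554432, -7411911 / 67108864,
    -17641049 / 67108864, -9357795 / 8388608, -660113 / 67108864, -1018003 / 16777216, -1499481 / 16777216,
    -1955725 / 67108864, -697875 / 67108864, -7025515 / 33554432]

def u : Fin 24 → ℚ :=
  ![1, -6977943 / 67108864, 10277511 / 67108864, 803991 / 33554432, -787083 / 33554432, -24851475 / 67108864,
    227111 / 4194304, 4004599 / 16777216, -1373803 / 67108864, 978011 / 67108864, -362779 / 67108864,
    33555 / 67108864, -788001 / 67108864, 7077 / 67108864, 73015 / 33554432, -1261 / 67108864, 39671 / 16777216,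
    -2815 / 67108864, 3 / 33554432, -14659371 / 67108864, 1356113 / 33554432, 5900979 / 67108864, -51127 / 67108864,
    0]

end Pool.Agent.FPX.EV_A9_2
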