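import Mathlib
import Pool.Agent.FPX.CEZ

/-
EV_B0_0 (helper86): the control vector B0_0.
-/

noncomputable section

set_option linter.all false
set_option maxRecDepth 100000

namespace Pool.Agent.FPX.EV_B0_0

def sp : ℚ := 1

def mu : ℚ := 16777216 / 59564175

def v : Fin 29 → ℚ :=
  ![30023447 / 33554432, -12061173 / 67108864, -10538177 / 16777216, 15045443 / 67108864, 12499527 / 67108864,
    7381891 / 67108864, 7438129 / 33554432, 7437755 / 33554432, 13633107 / 16777216, -5269097 / 8388608,
    803787 / 16777216, -2280357 / 67108864, 105 / 16777216, -35 / 16777216, 15 / 16777216, -1531057 / 16777216,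
    -1515517 / 33554432, 2952055 / 33554432, 4923 / 4194304, -6064377 / 33554432, -14563399 / 33554432,
    -14909289 / 67108864, -7453513 / 33554432, -24789 / 33554432, -785 / 67108864, 235 / 33554432,
    -6409789 / 33554432, -1007095 / 8388608, -11349663 / 67108864]

def u : Fin 24 → ℚ :=
  ![1, 249 / 67108864, -547 / 67108864, 269 / 67108864, -893 / 67108864, 89 / 16777216, -369 / 67108864,
    329 / 67108864, 521 / 33554432, -3 / 8388608, 27 / 67108864, -7 / 67108864, 5 / 67108864, 125 / 67108864,
    -5 / 67108864, -3 / 4194304, 1 / 33554432, -47 / 67108864, -3 / 16777216, -12897233 / 33554432,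
    4898377 / 33554432, 2419991 / 16777216, 4553109 / 67108864, 0]

end Pool.Agent.FPX.EV_B0_0
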