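import Mathlib
import Pool.Agent.FPX.CEZ

/-
EV_B0_1 (helper86): the control vector B0_1.
-/

noncomputable section

set_option linter.all false
set_option maxRecDepth 100000

namespace Pool.Agent.FPX.EV_B0_1

def sp : ℚ := 1

def mu : ℚ := 16777216 / 59564175

def v : Fin 29 → ℚ :=
  ![60396977 / 67108864, -6426097 / 67108864, -42156281 / 67108864, 860307 / 4194304, 12589565 / 67108864,
    7038517 / 67108864, 3718683 / 16777216, 10640931 / 67108864, 25521193 / 33554432, -9681067 / 16777216,
    3129699 / 67108864, -2025335 / 67108864, -3947 / 67108864, -509207 / 67108864, 15 / 16777216,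
    -1386825 / 33554432, -302187 / 8388608, 5750177 / 67108864, 7691 / 8388608, -17572053 / 67108864,
    -14050513 / 33554432, -18911005 / 67108864, -3729911 / 16777216, -184631 / 33554432, 7301 / 67108864,
    636547 / 67108864, -12327779 / 67108864, -7595221 / 67108864, -11418385 / 67108864]

def u : Fin 24 → ℚ :=
  ![1, -28915 / 16777216, 65269 / 67108864, -933 / 1048576, 1337951 / 67108864, -29177 / 16777216, 63501 / 67108864,
    -15063 / 16777216, 660007 / 33554432, 29 / 8388608, -133 / 33554432, 67 / 67108864, -13 / 16777216,
    -1157 / 67108864, 55 / 67108864, 221 / 33554432, -7 / 33554432, 27 / 4194304, 7 / 4194304, -25680147 / 67108864,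
    9735229 / 67108864, 2434543 / 16777216, 805731 / 16777216, 0]

end Pool.Agent.FPX.EV_B0_1
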