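import Mathlib
import Pool.Agent.FPX.CEZ

/-
EV_B0_2 (helper86): the control vector B0_2.
-/

noncomputable section

set_option linter.all false
set_option maxRecDepth 100000

namespace Pool.Agent.FPX.EV_B0_2

def sp : ℚ := 1

def mu : ℚ := 16777216 / 59564175

def v : Fin 29 → ℚ :=
  ![60687577 / 67108864, -33265 / 1048576, -41925481 / 67108864, 6345081 / 33554432, 12614379 / 67108864,
    6685869 / 67108864, 14157109 / 67108864, 3584467 / 33554432, 48085491 / 67108864, -17852967 / 33554432,
    191737 / 4194304, -1801801 / 67108864, -27119 / 33554432, -447369 / 33554432, 15 / 16777216, -50611 / 33554432,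
    -995049 / 33554432, 5574463 / 67108864, 12205 / 16777216, -20422223 / 67108864, -13492975 / 33554432,
    -21822299 / 67108864, -8047429 / 33554432, -152135 / 16777216, -1895 / 4194304, 959151 / 67108864,
    -5897217 / 33554432, -1779119 / 16777216, -363243 / 2097152]

def u : Fin 24 → ℚ :=
  ![1, -179323 / 33554432, 112601 / 16777216, -4385 / 2097152, 2021769 / 67108864, -38351 / 4194304,
    129437 / 33554432, 55347 / 67108864, 1954215 / 67108864, 24155 / 67108864, -9073 / 33554432, 213 / 4194304,
    -2317 / 8388608, -4271 / 67108864, 3481 / 33554432, 803 / 33554432, 889 / 16777216, 1637 / 67108864, 3 / 1048576,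
    -25436425 / 67108864, 2389229 / 16777216, 9760061 / 67108864, 2229105 / 67108864, 0]

end Pool.Agent.FPX.EV_B0_2
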