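import Mathlib
import Pool.Agent.FPX.CEZ

/-
EV_B1_1 (helper86): the control vector B1_1.
-/

noncomputable section

set_option linter.all false
set_option maxRecDepth 100000

namespace Pool.Agent.FPX.EV_B1_1

def sp : ℚ := 65455 / 65536

def mu : ℚ := 33554432 / 119130475

def v : Fin 29 → ℚ :=
  ![60960563 / 67108864, 2163377 / 67108864, -20845999 / 33554432, 2903979 / 16777216, 12638283 / 67108864,
    791633 / 8388608, 839703 / 4194304, 1848901 / 33554432, 11282089 / 16777216, -32687453 / 67108864,
    751489 / 16777216, -394569 / 16777216, -104135 / 67108864, -320009 / 16777216, 15 / 16777216, 2570203 / 67108864,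
    -781725 / 33554432, 1349645 / 16777216, 36149 / 67108864, -23261173 / 67108864, -25870287 / 67108864,
    -24731539 / 67108864, -17276559 / 67108864, -847687 / 67108864, -8827 / 8388608, 1281025 / 67108864,
    -5630357 / 33554432, -6637451 / 67108864, -11829725 / 67108864]

def u : Fin 24 → ℚ :=
  ![1, -150577 / 16777216, 838705 / 67108864, -6915 / 2097152, 2691791 / 67108864, -1112033 / 67108864,
    455341 / 67108864, 42759 / 16777216, 2582427 / 67108864, 48289 / 67108864, -36301 / 67108864, 6819 / 67108864,
    -37181 / 67108864, -3415 / 33554432, 3495 / 16777216, 2537 / 67108864, 7155 / 67108864, 2655 / 67108864,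
    83 / 33554432, -12596193 / 33554432, 9377991 / 67108864, 9782043 / 67108864, 618931 / 33554432, 0]

end Pool.Agent.FPX.EV_B1_1
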