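import Mathlib
import Pool.Agent.FPX.CEZ

/-
EV_B1_2 (helper86): the control vector B1_2.
-/

noncomputable section

set_option linter.all false
set_option maxRecDepth 100000

namespace Pool.Agent.FPX.EV_B1_2

def sp : ℚ := 65455 / 65536

def mu : ℚ := 33554432 / 119130475

def v : Fin 29 → ℚ :=
  ![61172467 / 67108864, 5218571 / 67108864, -41207587 / 67108864, 10737035 / 67108864, 6286655 / 33554432,
    1494687 / 16777216, 12033281 / 67108864, 932257 / 67108864, 10667625 / 16777216, -30052925 / 67108864,
    1482093 / 33554432, -1384127 / 67108864, -83905 / 33554432, -97167 / 4194304, 15 / 16777216, 2311137 / 33554432,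
    -1300237 / 67108864, 2602575 / 33554432, 27775 / 67108864, -5971573 / 16777216, -12346159 / 33554432,
    -13324899 / 33554432, -19480499 / 67108864, -1013645 / 67108864, -102315 / 33554432, 1332689 / 67108864,
    -10694369 / 67108864, -6155851 / 67108864, -12114013 / 67108864]

def u : Fin 24 → ℚ :=
  ![1, -948203 / 67108864, 1480873 / 67108864, -149049 / 33554432, 340017 / 8388608, -975685 / 33554432,
    745729 / 67108864, 30653 / 4194304, 2650813 / 67108864, 92785 / 67108864, -67997 / 67108864, 6229 / 33554432,
    -72933 / 67108864, -4277 / 67108864, 6681 / 16777216, 49 / 2097152, 3583 / 16777216, 1681 / 67108864,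
    3 / 4194304, -12414505 / 33554432, 4549079 / 33554432, 2439689 / 16777216, 568591 / 67108864, 0]

end Pool.Agent.FPX.EV_B1_2
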