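import Mathlib
import Pool.Agent.FPX.CEZ

/-
EV_B10_1 (helper86): the control vector B10_1.
-/

noncomputable section

set_option linter.all false
set_option maxRecDepth 100000

namespace Pool.Agent.FPX.EV_B10_1

def sp : ℚ := 14189 / 16384

def mu : ℚ := 16777216 / 59388225

def v : Fin 29 → ℚ :=
  ![62847961 / 67108864, 5751153 / 67108864, -20515373 / 67108864, 4471985 / 67108864, 4970951 / 67108864,
    61305 / 4194304, -9041311 / 16777216, -1091703 / 8388608, 14271031 / 33554432, -5697783 / 67108864,
    2487667 / 67108864, 372747 / 67108864, 1921307 / 67108864, -1358009 / 67108864, 121 / 67108864,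
    2226235 / 16777216, -1464821 / 67108864, 368057 / 16777216, 4425 / 16777216, 19401201 / 67108864,
    -4635167 / 67108864, -647551 / 4194304, -35666989 / 33554432, -216055 / 67108864, -244273 / 8388608,
    -6806365 / 67108864, -607927 / 67108864, -275369 / 67108864, -12136027 / 67108864]

def u : Fin 24 → ℚ :=
  ![1, -901979 / 8388608, 9487491 / 67108864, 2428423 / 67108864, 5451 / 33554432, -28844129 / 67108864,
    94403 / 2097152, 581241 / 2097152, -17073 / 4194304, 251607 / 16777216, -300071 / 67108864, 11143 / 33554432,
    -375783 / 33554432, -1105 / 8388608, 111869 / 67108864, 83 / 4194304, 70107 / 33554432, 1653 / 33554432,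
    17 / 67108864, -3116191 / 16777216, 28953 / 1048576, 4648733 / 67108864, 55171 / 67108864, 0]

end Pool.Agent.FPX.EV_B10_1
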