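import Mathlib
import Pool.Agent.FPX.CEZ

/-
EV_B9_1 (helper86): the control vector B9_1.
-/

noncomputable section

set_option linter.all false
set_option maxRecDepth 100000

namespace Pool.Agent.FPX.EV_B9_1

def sp : ℚ := 29263 / 32768

def mu : ℚ := 8388608 / 29689225

def v : Fin 29 → ℚ :=
  ![15705533 / 16777216, 7530959 / 67108864, -22824713 / 67108864, 1192381 / 16777216, 760475 / 8388608,
    1334703 / 67108864, -31934083 / 67108864, -5191061 / 33554432, 6979295 / 16777216, -3360197 / 33554432,
    1307597 / 33554432, 151187 / 33554432, 596981 / 33554432, -401609 / 16777216, 91 / 67108864, 10374989 / 67108864,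
    -1542951 / 67108864, 1834861 / 67108864, 19169 / 67108864, 17306791 / 67108864, -6334305 / 67108864,
    -15036499 / 67108864, -71047367 / 67108864, -260643 / 33554432, -882057 / 16777216, -2981729 / 33554432,
    -1510003 / 67108864, -271389 / 33554432, -101165 / 524288]

def u : Fin 24 → ℚ :=
  ![1, -1769895 / 16777216, 10157149 / 67108864, 454373 / 16777216, -590795 / 33554432, -12946759 / 33554432,
    3514057 / 67108864, 16761067 / 67108864, -571019 / 33554432, 991117 / 67108864, -21823 / 4194304,
    30661 / 67108864, -196659 / 16777216, 593 / 33554432, 69217 / 33554432, -79 / 33554432, 39009 / 16777216,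
    -439 / 67108864, -1 / 8388608, -14110495 / 67108864, 1239131 / 33554432, 5594653 / 67108864, -3151 / 33554432, 0]

end Pool.Agent.FPX.EV_B9_1
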