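import Mathlib
import Pool.Agent.FPX.EDAT
import Pool.Agent.FPX.ECH
import Pool.Agent.FPX.CSC
import Pool.Agent.FPX.EV_B10_1
import Pool.Agent.FPX.EV_B9_1

/-
ECB_10 (helper86): the latitude cell [1/2, 11/20], row B.
-/

noncomputable section

set_option linter.all false
set_option maxRecDepth 100000

namespace Pool.Agent.FPX.ECB_10

open Pool.Agent.FPX.CEL
open Pool.Agent.FPX.EJN
open Pool.Agent.FPX.EDAT

open Pool.Agent.FPX.BV (PsiL)
open Pool.Agent.FPX.FSW (BkZ)

def C : CellZ 1 24 where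
  a := 1 / 2
  b := 11 / 20
  r := 279527 / 262144
  ε := 1 / 255
  w := [126349953651 / 137438953472, 13540289655 / 34359738368, -5711418825 / 8589934592, 409596875 / 1073741824]
  R := [264238363 / 1073741824, 2693589669 / 536870912, -11357460313 / 1073741824, 10505540437 / 1073741824]
  η := 3 / 1048576
  n := 4
  V := ![tv (279428 / 279527) (3 / 2236216) EV_B9_1.v, tv (279474 / 279527) (3 / 2236216) EV_B10_1.v]
  U := ![EV_B9_1.u, EV_B10_1.u]

def wv : Fin 29 → ℚ := ![369 / 200, 181 / 1000, 181 / 1000, 221 / 100, 13 / 40, 47 / 20, 29 / 500, 163 / 500,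
    1201 / 1000, 1201 / 1000, 1359 / 1000, 88 / 25, 29 / 500, 189 / 250, 369 / 100, 663 / 1000, 281 / 500, 583 / 250,
    473 / 200, 7 / 200, 199 / 1000, 253 / 1000, 11 / 500, 5099 / 1000, 11 / 500, 143 / 250, 203 / 100, 1069 / 500,
    181 / 1000]

def wu : Fin 24 → ℚ := ![1359 / 1000, 239 / 1000, 239 / 1000, 147 / 1000, 147 / 1000, 239 / 1000, 239 / 1000,
    147 / 1000, 147 / 1000, 21 / 500, 21 / 500, 21 / 500, 13 / 500, 13 / 500, 13 / 500, 13 / 500, 2 / 125, 2 / 125,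
    2 / 125, 69 / 50, 69 / 50, 71 / 40, 71 / 40, 0]

def sp : ℚ := 14189 / 16384

def bd : CSB.Bd := ⟨6791 / 5000, 5 / 16, 879 / 5000, 43 / 400, 779 / 10000, 61 / 625⟩

theorem apr : AprOn PsiL wv wu C.a C.b := CSB.Bd.aprL' (by decide +kernel : bd.okL sp C.a wv wu = true) _

theorem ok : C.okC D D.ul wv wu muB TB = true := by decide +kernel

/-- **the cell** -/
theorem cell
    (H0 : CtlL EV_B9_1.sp EV_B9_1.mu EV_B9_1.v EV_B9_1.u)
    (H1 : CtlL EV_B10_1.sp EV_B10_1.mu EV_B10_1.v EV_B10_1.u) :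
    FSW.CellZ (BkZ D) D.cofZ ((muB : ℚ) : ℝ) ((TB : ℚ) : ℝ) C.a C.b C.w := by
  refine EJN.cellC EDAT.isLin apr ok (by decide +kernel : spOk C.a sp = true) fun l => ?_
  fin_cases l
  · exact H0.at (t := 279428 / 279527) (e := 3 / 2236216) (by decide +kernel) (by decide +kernel)
  · exact H1.at (t := 279474 / 279527) (e := 3 / 2236216) (by decide +kernel) (by decide +kernel)

end Pool.Agent.FPX.ECB_10
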