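import Mathlib
import Pool.Agent.FPX.CEZ

/-
EV_B11_1 (helper86): the control vector B11_1.
-/

noncomputable section

set_option linter.all false
set_option maxRecDepth 100000

namespace Pool.Agent.FPX.EV_B11_1

def sp : ℚ := 27367 / 32768

def mu : ℚ := 33554432 / 118633225

def v : Fin 29 → ℚ :=
  ![62951887 / 67108864, 273309 / 4194304, -9361643 / 33554432, 4130823 / 67108864, 984453 / 16777216,
    686321 / 67108864, -38880209 / 67108864, -426043 / 4194304, 14757009 / 33554432, -1228827 / 16777216,
    2322663 / 67108864, 106885 / 16777216, 713999 / 16777216, -1143745 / 67108864, 271 / 67108864,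
    3685087 / 33554432, -624809 / 33554432, 1144953 / 67108864, 14663 / 67108864, 1215135 / 4194304,
    -1597051 / 33554432, -2835259 / 33554432, -33982183 / 33554432, 46513 / 33554432, 897055 / 67108864,
    -7347795 / 67108864, 87475 / 33554432, -97567 / 67108864, -2805839 / 16777216]

def u : Fin 24 → ℚ :=
  ![1, -7094425 / 67108864, 4234001 / 33554432, 1476755 / 33554432, 867697 / 67108864, -31495573 / 67108864,
    2379169 / 67108864, 19664805 / 67108864, 677307 / 67108864, 987777 / 67108864, -245465 / 67108864,
    1897 / 8388608, -674729 / 67108864, -2415 / 33554432, 83597 / 67108864, 141 / 16777216, 57509 / 33554432,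
    789 / 33554432, -1 / 33554432, -10839353 / 67108864, 1342797 / 67108864, 3695671 / 67108864, 25567 / 67108864, 0]

end Pool.Agent.FPX.EV_B11_1
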