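import Mathlib
import Pool.Agent.FPX.EDAT
import Pool.Agent.FPX.ECH
import Pool.Agent.FPX.CSC
import Pool.Agent.FPX.EV_B10_1
import Pool.Agent.FPX.EV_B11_1

/-
ECB_11 (helper86): the latitude cell [11/20, 3/5], row B.
-/

noncomputable section

set_option linter.all false
set_option maxRecDepth 100000

namespace Pool.Agent.FPX.ECB_11

open Pool.Agent.FPX.CEL
open Pool.Agent.FPX.EJN
open Pool.Agent.FPX.EDAT

open Pool.Agent.FPX.BV (PsiL)
open Pool.Agent.FPX.FSW (BkZ)

def C : CellZ 1 24 where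
  a := 11 / 20
  b := 3 / 5
  r := 139737 / 131072
  ε := 1 / 255
  w := [105853594955 / 137438953472, 4818825315 / 4294967296, -15836653575 / 8589934592, 2179055375 / 2147483648]
  R := [-740247145 / 1073741824, 10847974771 / 1073741824, -21253058501 / 1073741824, 8241399735 / 536870912]
  η := 1 / 262144
  n := 5
  V := ![tv (1) (1 / 558948) EV_B10_1.v, tv (279137 / 279474) (1 / 558948) EV_B11_1.v]
  U := ![EV_B10_1.u, EV_B11_1.u]

def wv : Fin 29 → ℚ := ![1799 / 1000, 41 / 250, 41 / 250, 2079 / 1000, 61 / 200, 1137 / 500, 13 / 250, 307 / 1000,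
    1143 / 1000, 1143 / 1000, 1341 / 1000, 1689 / 500, 13 / 250, 87 / 125, 3597 / 1000, 619 / 1000, 527 / 1000,
    282 / 125, 2287 / 1000, 4 / 125, 187 / 1000, 59 / 250, 1 / 50, 4809 / 1000, 1 / 50, 263 / 500, 479 / 250,
    401 / 200, 41 / 250]

def wu : Fin 24 → ℚ := ![1341 / 1000, 57 / 250, 57 / 250, 7 / 50, 7 / 50, 57 / 250, 57 / 250, 7 / 50, 7 / 50,
    39 / 1000, 39 / 1000, 39 / 1000, 3 / 125, 3 / 125, 3 / 125, 3 / 125, 3 / 200, 3 / 200, 3 / 200, 269 / 200,
    269 / 200, 1703 / 1000, 1703 / 1000, 0]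

def sp : ℚ := 27367 / 32768

def bd : CSB.Bd := ⟨1341 / 1000, 753 / 2500, 339 / 2000, 1037 / 10000, 751 / 10000, 907 / 10000⟩

theorem apr : AprOn PsiL wv wu C.a C.b := CSB.Bd.aprL' (by decide +kernel : bd.okL sp C.a wv wu = true) _

theorem ok : C.okC D D.ul wv wu muB TB = true := by decide +kernel

/-- **the cell** -/
theorem cell
    (H0 : CtlL EV_B10_1.sp EV_B10_1.mu EV_B10_1.v EV_B10_1.u)
    (H1 : CtlL EV_B11_1.sp EV_B11_1.mu EV_B11_1.v EV_B11_1.u) :
    FSW.CellZ (BkZ D) D.cofZ ((muB : ℚ) : ℝ) ((TB : ℚ) : ℝ) C.a C.b C.w := by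
  refine EJN.cellC EDAT.isLin apr ok (by decide +kernel : spOk C.a sp = true) fun l => ?_
  fin_cases l
  · exact H0.at (t := 1) (e := 1 / 558948) (by decide +kernel) (by decide +kernel)
  · exact H1.at (t := 279137 / 279474) (e := 1 / 558948) (by decide +kernel) (by decide +kernel)

end Pool.Agent.FPX.ECB_11
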