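import Mathlib
import Pool.Agent.FPX.CEZ

/-
EV_B12_1 (helper86): the control vector B12_1.
-/

noncomputable section

set_option linter.all false
set_option maxRecDepth 100000

namespace Pool.Agent.FPX.EV_B12_1

def sp : ℚ := 52429 / 65536

def mu : ℚ := 33554432 / 118633225

def v : Fin 29 → ℚ :=
  ![3935761 / 4194304, 1667787 / 33554432, -8730485 / 33554432, 903633 / 16777216, 2828971 / 67108864,
    203857 / 33554432, -39265671 / 67108864, -4301049 / 67108864, 7736771 / 16777216, -4200647 / 67108864,
    2064181 / 67108864, 119373 / 16777216, 4370301 / 67108864, -966843 / 67108864, 391 / 67108864,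
    2795281 / 33554432, -202377 / 16777216, 400625 / 33554432, 9813 / 67108864, 2119079 / 8388608,
    -1827745 / 67108864, -36469 / 8388608, -57491251 / 67108864, 13993 / 2097152, 6647031 / 67108864,
    -7440043 / 67108864, 928785 / 67108864, 17199 / 67108864, -10041365 / 67108864]

def u : Fin 24 → ℚ :=
  ![1, -6596509 / 67108864, 7003085 / 67108864, 209883 / 4194304, 940087 / 67108864, -4279175 / 8388608,
    378837 / 16777216, 19567945 / 67108864, 808249 / 33554432, 923639 / 67108864, -91175 / 33554432, 2235 / 16777216,
    -539105 / 67108864, 7851 / 33554432, 52943 / 67108864, -1613 / 67108864, 19583 / 16777216, -4741 / 67108864,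
    3 / 4194304, -8944643 / 67108864, 879889 / 67108864, 1301725 / 33554432, -19405 / 16777216, 0]

end Pool.Agent.FPX.EV_B12_1
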