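import Mathlib
import Pool.Agent.FPX.EDAT
import Pool.Agent.FPX.ECH
import Pool.Agent.FPX.CSC
import Pool.Agent.FPX.EV_B11_1
import Pool.Agent.FPX.EV_B12_1

/-
ECB_12 (helper86): the latitude cell [3/5, 33/50], row B.
-/

noncomputable section

set_option linter.all false
set_option maxRecDepth 100000

namespace Pool.Agent.FPX.ECB_12

open Pool.Agent.FPX.CEL
open Pool.Agent.FPX.EJN
open Pool.Agent.FPX.EDAT

open Pool.Agent.FPX.BV (PsiL)
open Pool.Agent.FPX.FSW (BkZ)

def C : CellZ 1 24 where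
  a := 3 / 5
  b := 33 / 50
  r := 279137 / 262144
  ε := 1 / 255
  w := [117064097585 / 137438953472, 45157236275 / 68719476736, -50544254375 / 51539607552,
    75775421875 / 154618822656]
  R := [-3489985151 / 1073741824, 12251019787 / 536870912, -10963031115 / 268435456, 7237555041 / 268435456]
  η := 9 / 1048576
  n := 6
  V := ![tv (1) (9 / 2233096) EV_B11_1.v, tv (1) (9 / 2233096) EV_B12_1.v]
  U := ![EV_B11_1.u, EV_B12_1.u]

def wv : Fin 29 → ℚ := ![44 / 25, 147 / 1000, 147 / 1000, 391 / 200, 289 / 1000, 1101 / 500, 6 / 125, 29 / 100,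
    271 / 250, 271 / 250, 1327 / 1000, 3253 / 1000, 6 / 125, 323 / 500, 88 / 25, 579 / 1000, 62 / 125, 2193 / 1000,
    1107 / 500, 29 / 1000, 7 / 40, 11 / 50, 9 / 500, 4541 / 1000, 9 / 500, 481 / 1000, 226 / 125, 1873 / 1000,
    147 / 1000]

def wu : Fin 24 → ℚ := ![1327 / 1000, 109 / 500, 109 / 500, 33 / 250, 33 / 250, 109 / 500, 109 / 500, 33 / 250,
    33 / 250, 9 / 250, 9 / 250, 9 / 250, 11 / 500, 11 / 500, 11 / 500, 11 / 500, 7 / 500, 7 / 500, 7 / 500,
    657 / 500, 657 / 500, 409 / 250, 409 / 250, 0]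

def sp : ℚ := 52429 / 65536

def bd : CSB.Bd := ⟨6633 / 5000, 2887 / 10000, 1641 / 10000, 497 / 5000, 9 / 125, 833 / 10000⟩

theorem apr : AprOn PsiL wv wu C.a C.b := CSB.Bd.aprL' (by decide +kernel : bd.okL sp C.a wv wu = true) _

theorem ok : C.okC D D.ul wv wu muB TB = true := by decide +kernel

/-- **the cell** -/
theorem cell
    (H0 : CtlL EV_B11_1.sp EV_B11_1.mu EV_B11_1.v EV_B11_1.u)
    (H1 : CtlL EV_B12_1.sp EV_B12_1.mu EV_B12_1.v EV_B12_1.u) :
    FSW.CellZ (BkZ D) D.cofZ ((muB : ℚ) : ℝ) ((TB : ℚ) : ℝ) C.a C.b C.w := by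
  refine EJN.cellC EDAT.isLin apr ok (by decide +kernel : spOk C.a sp = true) fun l => ?_
  fin_cases l
  · exact H0.at (t := 1) (e := 9 / 2233096) (by decide +kernel) (by decide +kernel)
  · exact H1.at (t := 1) (e := 9 / 2233096) (by decide +kernel) (by decide +kernel)

end Pool.Agent.FPX.ECB_12
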