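import Mathlib
import Pool.Agent.FPX.CEZ

/-
EV_B13_1 (helper86): the control vector B13_1.
-/

noncomputable section

set_option linter.all false
set_option maxRecDepth 100000

namespace Pool.Agent.FPX.EV_B13_1

def sp : ℚ := 49235 / 65536

def mu : ℚ := 8388608 / 29669675

def v : Fin 29 → ℚ :=
  ![31480765 / 33554432, 2895091 / 67108864, -4379177 / 16777216, 742999 / 16777216, 474113 / 16777216,
    208461 / 67108864, -2223605 / 4194304, -878857 / 33554432, 32587271 / 67108864, -3648179 / 67108864,
    1745265 / 67108864, 258909 / 33554432, 3298121 / 33554432, -461981 / 33554432, 691 / 67108864,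
    4093259 / 67108864, -54301 / 16777216, 129633 / 16777216, 2497 / 33554432, 6297547 / 33554432, -27341 / 2097152,
    139223 / 2097152, -19163487 / 33554432, 759447 / 67108864, 7960473 / 33554432, -3389837 / 33554432,
    1448151 / 67108864, 26047 / 33554432, -8856781 / 67108864]

def u : Fin 24 → ℚ :=
  ![1, -2866697 / 33554432, 1391461 / 16777216, 1701703 / 33554432, -104845 / 33554432, -1140419 / 2097152,
    172539 / 16777216, 17700985 / 67108864, 2052493 / 67108864, 820299 / 67108864, -129171 / 67108864,
    1263 / 16777216, -378041 / 67108864, 20469 / 33554432, 29541 / 67108864, -3277 / 67108864, 21575 / 33554432,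
    -9619 / 67108864, 489 / 67108864, -892067 / 8388608, 560223 / 67108864, 25605 / 1048576, -179435 / 67108864, 0]

end Pool.Agent.FPX.EV_B13_1
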