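import Mathlib
import Pool.Agent.FPX.CEZ

/-
EV_B14_1 (helper86): the control vector B14_1.
-/

noncomputable section

set_option linter.all false
set_option maxRecDepth 100000

namespace Pool.Agent.FPX.EV_B14_1

def sp : ℚ := 45481 / 65536

def mu : ℚ := 33554432 / 118659575

def v : Fin 29 → ℚ :=
  ![31490601 / 33554432, 674701 / 16777216, -19264949 / 67108864, 2223647 / 67108864, 1148285 / 67108864,
    20153 / 16777216, -6633669 / 16777216, 300501 / 33554432, 17167377 / 33554432, -3161173 / 67108864,
    1377869 / 67108864, 556951 / 67108864, 5090315 / 33554432, -1061903 / 67108864, 1503 / 67108864,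
    1547825 / 33554432, 428717 / 67108864, 299673 / 67108864, 1453 / 67108864, 8083019 / 67108864, -37949 / 8388608,
    8215431 / 67108864, -4089657 / 33554432, 62663 / 4194304, 30385103 / 67108864, -2610747 / 33554432,
    853643 / 33554432, 20607 / 33554432, -7701265 / 67108864]

def u : Fin 24 → ℚ :=
  ![1, -4569377 / 67108864, 553447 / 8388608, 3018743 / 67108864, -1046467 / 33554432, -38366853 / 67108864,
    54475 / 67108864, 7029213 / 33554432, 934703 / 33554432, 343109 / 33554432, -1377 / 1048576, 1407 / 33554432,
    -220583 / 67108864, 13511 / 16777216, 1751 / 8388608, -3495 / 67108864, 17331 / 67108864, -275 / 2097152,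
    1053 / 67108864, -5431689 / 67108864, 347925 / 67108864, 217179 / 16777216, -214549 / 67108864, 0]

end Pool.Agent.FPX.EV_B14_1
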