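import Mathlib
import Pool.Agent.FPX.CEZ

/-
EV_B15_1 (helper86): the control vector B15_1.
-/

noncomputable section

set_option linter.all false
set_option maxRecDepth 100000

namespace Pool.Agent.FPX.EV_B15_1

def sp : ℚ := 10253 / 16384

def mu : ℚ := 33554432 / 118659575

def v : Fin 29 → ℚ :=
  ![62990513 / 67108864, 2070257 / 67108864, -2895715 / 8388608, 356059 / 16777216, 579195 / 67108864,
    13685 / 67108864, -2428517 / 16777216, 2563293 / 67108864, 18019489 / 33554432, -659485 / 16777216,
    122313 / 8388608, 602469 / 67108864, 16888907 / 67108864, -357353 / 16777216, 263 / 8388608, 1408663 / 33554432,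
    60697 / 4194304, 144669 / 67108864, -7 / 2097152, 6001071 / 67108864, -42353 / 67108864, 5305123 / 33554432,
    37256713 / 67108864, 143675 / 8388608, 53767793 / 67108864, -647889 / 16777216, 209447 / 8388608, 969 / 4194304,
    -3237437 / 33554432]

def u : Fin 24 → ℚ :=
  ![1, -3209547 / 67108864, 1845147 / 33554432, 1109523 / 33554432, -883171 / 16777216, -40033877 / 67108864,
    -276275 / 67108864, 2262395 / 16777216, 1209825 / 67108864, 528165 / 67108864, -28195 / 33554432,
    1497 / 67108864, -95057 / 67108864, 45241 / 67108864, 2491 / 33554432, -151 / 4194304, 1999 / 33554432,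
    -4081 / 67108864, 965 / 67108864, -1918151 / 33554432, 102177 / 33554432, 342577 / 67108864, -164347 / 67108864,
    0]

end Pool.Agent.FPX.EV_B15_1
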