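import Mathlib
import Pool.Agent.FPX.CEZ

/-
EV_B16_1 (helper86): the control vector B16_1.
-/

noncomputable section

set_option linter.all false
set_option maxRecDepth 100000

namespace Pool.Agent.FPX.EV_B16_1

def sp : ℚ := 35559 / 65536

def mu : ℚ := 33554432 / 118751375

def v : Fin 29 → ℚ :=
  ![62951419 / 67108864, 242451 / 33554432, -28548047 / 67108864, 396095 / 33554432, 119567 / 33554432,
    -3073 / 33554432, 3566929 / 16777216, 3739709 / 67108864, 18654377 / 33554432, -8209 / 262144, 640449 / 67108864,
    650557 / 67108864, 14390235 / 33554432, -972175 / 33554432, 3123 / 67108864, 3290817 / 67108864,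
    592309 / 33554432, 61811 / 67108864, -103 / 16777216, 8652261 / 67108864, 8441 / 33554432, 11288139 / 67108864,
    93885729 / 67108864, 1177905 / 67108864, 43712441 / 33554432, 267441 / 33554432, 1407703 / 67108864,
    -45 / 33554432, -2604059 / 33554432]

def u : Fin 24 → ℚ :=
  ![1, -2038523 / 67108864, 1612135 / 33554432, 673563 / 33554432, -853637 / 16777216, -41469549 / 67108864,
    -74149 / 16777216, 4571939 / 67108864, 568235 / 67108864, 380961 / 67108864, -16809 / 33554432, 737 / 67108864,
    -14747 / 33554432, 25221 / 67108864, 629 / 33554432, -1103 / 67108864, 231 / 33554432, -935 / 67108864,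
    103 / 16777216, -2584899 / 67108864, 56919 / 33554432, 99009 / 67108864, -42677 / 33554432, 0]

end Pool.Agent.FPX.EV_B16_1
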