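import Mathlib
import Pool.Agent.FPX.EDAT
import Pool.Agent.FPX.ECH
import Pool.Agent.FPX.CSC
import Pool.Agent.FPX.EV_B15_1
import Pool.Agent.FPX.EV_B16_1

/-
ECB_16 (helper86): the latitude cell [21/25, 89/100], row B.
-/

noncomputable section

set_option linter.all false
set_option maxRecDepth 100000

namespace Pool.Agent.FPX.ECB_16

open Pool.Agent.FPX.CEL
open Pool.Agent.FPX.EJN
open Pool.Agent.FPX.EDAT

open Pool.Agent.FPX.BV (PsiL)
open Pool.Agent.FPX.FSW (BkZ)

def C : CellZ 1 24 where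
  a := 21 / 25
  b := 89 / 100
  r := 279415 / 262144
  ε := 1 / 255
  w := [305916502101 / 1073741824000, 26301976983 / 10737418240, -12027387105 / 4294967296, 2293740125 / 2147483648]
  R := [-967637294835 / 1073741824, 1757336084113 / 536870912, -2131716673915 / 536870912, 866569539235 / 536870912]
  η := 35 / 524288
  n := 9
  V := ![tv (279199 / 279415) (7 / 223532) EV_B15_1.v, tv (1) (7 / 223532) EV_B16_1.v]
  U := ![EV_B15_1.u, EV_B16_1.u]

def wv : Fin 29 → ℚ := ![291 / 200, 7 / 125, 7 / 125, 1111 / 1000, 83 / 500, 213 / 125, 19 / 1000, 83 / 500,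
    167 / 250, 167 / 250, 603 / 500, 312 / 125, 19 / 1000, 307 / 1000, 2909 / 1000, 311 / 1000, 277 / 1000,
    1703 / 1000, 427 / 250, 3 / 250, 1 / 10, 117 / 1000, 7 / 1000, 2997 / 1000, 7 / 1000, 11 / 50, 211 / 200,
    207 / 200, 7 / 125]

def wu : Fin 24 → ℚ := ![603 / 500, 69 / 500, 69 / 500, 83 / 1000, 83 / 1000, 69 / 500, 69 / 500, 83 / 1000,
    83 / 1000, 2 / 125, 2 / 125, 2 / 125, 1 / 100, 1 / 100, 1 / 100, 1 / 100, 3 / 500, 3 / 500, 3 / 500, 281 / 250,
    281 / 250, 5 / 4, 5 / 4, 0]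

def sp : ℚ := 35559 / 65536

def bd : CSB.Bd := ⟨12059 / 10000, 979 / 5000, 569 / 5000, 137 / 2000, 493 / 10000, 383 / 10000⟩

theorem apr : AprOn PsiL wv wu C.a C.b := CSB.Bd.aprL' (by decide +kernel : bd.okL sp C.a wv wu = true) _

theorem ok : C.okC D D.ul wv wu muB TB = true := by decide +kernel

/-- **the cell** -/
theorem cell
    (H0 : CtlL EV_B15_1.sp EV_B15_1.mu EV_B15_1.v EV_B15_1.u)
    (H1 : CtlL EV_B16_1.sp EV_B16_1.mu EV_B16_1.v EV_B16_1.u) :
    FSW.CellZ (BkZ D) D.cofZ ((muB : ℚ) : ℝ) ((TB : ℚ) : ℝ) C.a C.b C.w := by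
  refine EJN.cellC EDAT.isLin apr ok (by decide +kernel : spOk C.a sp = true) fun l => ?_
  fin_cases l
  · exact H0.at (t := 279199 / 279415) (e := 7 / 223532) (by decide +kernel) (by decide +kernel)
  · exact H1.at (t := 1) (e := 7 / 223532) (by decide +kernel) (by decide +kernel)

end Pool.Agent.FPX.ECB_16
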