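import Mathlib
import Pool.Agent.FPX.CEZ

/-
EV_B17_1 (helper86): the control vector B17_1.
-/

noncomputable section

set_option linter.all false
set_option maxRecDepth 100000

namespace Pool.Agent.FPX.EV_B17_1

def sp : ℚ := 14941 / 32768

def mu : ℚ := 8388608 / 29680725

def v : Fin 29 → ℚ :=
  ![31485847 / 33554432, -508873 / 16777216, -4372759 / 8388608, 371455 / 67108864, 30063 / 33554432,
    -3465 / 33554432, 24027965 / 33554432, 4300705 / 67108864, 19111947 / 33554432, -784543 / 33554432,
    382685 / 67108864, 699763 / 67108864, 6418845 / 8388608, -1256717 / 33554432, 5045 / 67108864,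
    2110271 / 33554432, 1084677 / 67108864, 11255 / 33554432, -25 / 8388608, 3867989 / 16777216, 14445 / 67108864,
    5420473 / 33554432, 41463889 / 16777216, 1130535 / 67108864, 139768991 / 67108864, 1853163 / 33554432,
    515077 / 33554432, -3917 / 67108864, -961893 / 16777216]

def u : Fin 24 → ℚ :=
  ![1, -1162463 / 67108864, 2664633 / 67108864, 655357 / 67108864, -2235123 / 67108864, -42809491 / 67108864,
    -187229 / 67108864, 767847 / 33554432, 187853 / 67108864, 63237 / 16777216, -16979 / 67108864, 281 / 67108864,
    -2313 / 33554432, 4709 / 33554432, 137 / 67108864, -307 / 67108864, -3 / 33554432, -31 / 33554432, 41 / 33554432,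
    -812653 / 33554432, 54427 / 67108864, 14539 / 67108864, -30105 / 67108864, 0]

end Pool.Agent.FPX.EV_B17_1
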