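import Mathlib
import Pool.Agent.FPX.CEZ

/-
EV_B18_1 (helper86): the control vector B18_1.
-/

noncomputable section

set_option linter.all false
set_option maxRecDepth 100000

namespace Pool.Agent.FPX.EV_B18_1

def sp : ℚ := 24089 / 65536

def mu : ℚ := 16777216 / 59240325

def v : Fin 29 → ℚ :=
  ![63101173 / 67108864, -2494233 / 33554432, -42586665 / 67108864, 70677 / 33554432, -5485 / 33554432,
    -3389 / 67108864, 101657387 / 67108864, 1116595 / 16777216, 38881349 / 67108864, -136413 / 8388608,
    205145 / 67108864, 93191 / 8388608, 49158803 / 33554432, -761493 / 16777216, 2099 / 16777216, 1322311 / 16777216,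
    98435 / 8388608, 6619 / 67108864, -51 / 67108864, 24383917 / 67108864, 2673 / 33554432, 4935643 / 33554432,
    270468573 / 67108864, 525175 / 33554432, 58477309 / 16777216, 3260029 / 33554432, 162079 / 16777216,
    -2515 / 67108864, -2491133 / 67108864]

def u : Fin 24 → ℚ :=
  ![1, -588419 / 67108864, 1900897 / 67108864, 241365 / 67108864, -998625 / 67108864, -2751139 / 4194304,
    -79555 / 67108864, 36523 / 33554432, 39847 / 67108864, 149803 / 67108864, -823 / 8388608, 35 / 33554432,
    49 / 4194304, 2181 / 67108864, -23 / 67108864, -43 / 67108864, -1 / 33554432, 11 / 67108864, 3 / 33554432,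
    -923285 / 67108864, 2529 / 8388608, -1241 / 33554432, -6665 / 67108864, 0]

end Pool.Agent.FPX.EV_B18_1
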