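import Mathlib
import Pool.Agent.FPX.EDAT
import Pool.Agent.FPX.ECH
import Pool.Agent.FPX.CSC
import Pool.Agent.FPX.EV_B17_1
import Pool.Agent.FPX.EV_B18_1

/-
ECB_18 (helper86): the latitude cell [93/100, 24/25], row B.
-/

noncomputable section

set_option linter.all false
set_option maxRecDepth 100000

namespace Pool.Agent.FPX.ECB_18

open Pool.Agent.FPX.CEL
open Pool.Agent.FPX.EJN
open Pool.Agent.FPX.EDAT

open Pool.Agent.FPX.BV (PsiL)
open Pool.Agent.FPX.FSW (BkZ)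

def C : CellZ 1 24 where
  a := 93 / 100
  b := 24 / 25
  r := 69837 / 65536
  ε := 1 / 255
  w := [245128539413 / 274877906944, 20044179425 / 68719476736, -3276164375 / 12884901888, 4095015625 / 57982058496]
  R := [-54582556047705 / 1073741824, 176516475500559 / 1073741824, -47592465859513 / 268435456,
    17119598783691 / 268435456]
  η := 21 / 131072
  n := 11
  V := ![tv (1) (7 / 93116) EV_B17_1.v, tv (46463 / 46558) (7 / 93116) EV_B18_1.v]
  U := ![EV_B17_1.u, EV_B18_1.u]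

def wv : Fin 29 → ℚ := ![641 / 500, 23 / 1000, 23 / 1000, 67 / 100, 1 / 10, 717 / 500, 1 / 125, 1 / 10, 17 / 40,
    17 / 40, 1133 / 1000, 441 / 200, 1 / 125, 159 / 1000, 641 / 250, 179 / 1000, 33 / 200, 179 / 125, 359 / 250,
    1 / 200, 61 / 1000, 17 / 250, 3 / 1000, 2413 / 1000, 3 / 1000, 11 / 100, 647 / 1000, 307 / 500, 23 / 1000]

def wu : Fin 24 → ℚ := ![1133 / 1000, 89 / 1000, 89 / 1000, 27 / 500, 27 / 500, 89 / 1000, 89 / 1000, 27 / 500,
    27 / 500, 7 / 1000, 7 / 1000, 7 / 1000, 1 / 200, 1 / 200, 1 / 200, 1 / 200, 3 / 1000, 3 / 1000, 3 / 1000,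
    263 / 250, 263 / 250, 138 / 125, 138 / 125, 0]

def sp : ℚ := 24089 / 65536

def bd : CSB.Bd := ⟨5661 / 5000, 1327 / 10000, 389 / 5000, 47 / 1000, 169 / 5000, 11 / 625⟩

theorem apr : AprOn PsiL wv wu C.a C.b := CSB.Bd.aprL' (by decide +kernel : bd.okL sp C.a wv wu = true) _

theorem ok : C.okC D D.ul wv wu muB TB = true := by decide +kernel

/-- **the cell** -/
theorem cell
    (H0 : CtlL EV_B17_1.sp EV_B17_1.mu EV_B17_1.v EV_B17_1.u)
    (H1 : CtlL EV_B18_1.sp EV_B18_1.mu EV_B18_1.v EV_B18_1.u) :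
    FSW.CellZ (BkZ D) D.cofZ ((muB : ℚ) : ℝ) ((TB : ℚ) : ℝ) C.a C.b C.w := by
  refine EJN.cellC EDAT.isLin apr ok (by decide +kernel : spOk C.a sp = true) fun l => ?_
  fin_cases l
  · exact H0.at (t := 1) (e := 7 / 93116) (by decide +kernel) (by decide +kernel)
  · exact H1.at (t := 46463 / 46558) (e := 7 / 93116) (by decide +kernel) (by decide +kernel)

end Pool.Agent.FPX.ECB_18
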