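import Mathlib
import Pool.Agent.FPX.CEZ

/-
EV_B19_1 (helper86): the control vector B19_1.
-/

noncomputable section

set_option linter.all false
set_option maxRecDepth 100000

namespace Pool.Agent.FPX.EV_B19_1

def sp : ℚ := 18351 / 65536

def mu : ℚ := 16777216 / 59240325

def v : Fin 29 → ℚ :=
  ![31550999 / 33554432, -7574751 / 67108864, -54303855 / 67108864, 10539 / 16777216, -2891 / 8388608,
    -975 / 67108864, 218114415 / 67108864, 2216875 / 33554432, 9802901 / 16777216, -181633 / 16777216,
    12109 / 8388608, 389547 / 33554432, 55025269 / 16777216, -1723721 / 33554432, 339513 / 67108864,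
    6179325 / 67108864, 457651 / 67108864, 1423 / 67108864, -3 / 33554432, 32452717 / 67108864, 147 / 8388608,
    8880621 / 67108864, 484439663 / 67108864, 60737 / 4194304, 459158651 / 67108864, 8598863 / 67108864,
    172243 / 33554432, -409 / 33554432, -1362097 / 67108864]

def u : Fin 24 → ℚ :=
  ![1, -65797 / 16777216, 279009 / 16777216, 61039 / 67108864, -71241 / 16777216, -22477967 / 33554432,
    -5453 / 16777216, -303085 / 67108864, 69 / 1048576, 76967 / 67108864, -1741 / 67108864, 9 / 67108864,
    305 / 33554432, 129 / 33554432, -1 / 8388608, -1 / 33554432, 1 / 67108864, 1 / 67108864, 0, -7197 / 1048576,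
    649 / 8388608, -915 / 33554432, -761 / 67108864, 0]

end Pool.Agent.FPX.EV_B19_1
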