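import Mathlib
import Pool.Agent.FPX.EDAT
import Pool.Agent.FPX.ECH
import Pool.Agent.FPX.CSC
import Pool.Agent.FPX.EV_B18_1
import Pool.Agent.FPX.EV_B19_1

/-
ECB_19 (helper86): the latitude cell [24/25, 49/50], row B.
-/

noncomputable section

set_option linter.all false
set_option maxRecDepth 100000

namespace Pool.Agent.FPX.ECB_19

open Pool.Agent.FPX.CEL
open Pool.Agent.FPX.EJN
open Pool.Agent.FPX.EDAT

open Pool.Agent.FPX.BV (PsiL)
open Pool.Agent.FPX.FSW (BkZ)

def C : CellZ 1 24 where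
  a := 24 / 25
  b := 49 / 50
  r := 139389 / 131072
  ε := 1 / 255
  w := [272974573077 / 274877906944, 963331425 / 68719476736, -491495625 / 68719476736]
  R := [-742478544204187 / 1073741824, 289952188620553 / 134217728, -603979732510223 / 268435456,
    838860764352641 / 1073741824]
  η := 279 / 1048576
  n := 12
  V := ![tv (1) (93 / 743408) EV_B18_1.v, tv (1) (93 / 743408) EV_B19_1.v]
  U := ![EV_B18_1.u, EV_B19_1.u]

def wv : Fin 29 → ℚ := ![1207 / 1000, 13 / 1000, 13 / 1000, 483 / 1000, 73 / 1000, 329 / 250, 1 / 200, 73 / 1000,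
    157 / 500, 157 / 500, 1099 / 1000, 1057 / 500, 1 / 200, 21 / 200, 2413 / 1000, 63 / 500, 119 / 1000, 263 / 200,
    659 / 500, 3 / 1000, 11 / 250, 6 / 125, 1 / 500, 2229 / 1000, 1 / 500, 71 / 1000, 471 / 1000, 219 / 500,
    13 / 1000]

def wu : Fin 24 → ℚ := ![1099 / 1000, 33 / 500, 33 / 500, 1 / 25, 1 / 25, 33 / 500, 33 / 500, 1 / 25, 1 / 25,
    1 / 250, 1 / 250, 1 / 250, 3 / 1000, 3 / 1000, 3 / 1000, 3 / 1000, 1 / 500, 1 / 500, 1 / 500, 1029 / 1000,
    1029 / 1000, 529 / 500, 529 / 500, 0]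

def sp : ℚ := 18351 / 65536

def bd : CSB.Bd := ⟨1373 / 1250, 101 / 1000, 597 / 10000, 9 / 250, 259 / 10000, 51 / 5000⟩

theorem apr : AprOn PsiL wv wu C.a C.b := CSB.Bd.aprL' (by decide +kernel : bd.okL sp C.a wv wu = true) _

theorem ok : C.okC D D.ul wv wu muB TB = true := by decide +kernel

/-- **the cell** -/
theorem cell
    (H0 : CtlL EV_B18_1.sp EV_B18_1.mu EV_B18_1.v EV_B18_1.u)
    (H1 : CtlL EV_B19_1.sp EV_B19_1.mu EV_B19_1.v EV_B19_1.u) :
    FSW.CellZ (BkZ D) D.cofZ ((muB : ℚ) : ℝ) ((TB : ℚ) : ℝ) C.a C.b C.w := by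
  refine EJN.cellC EDAT.isLin apr ok (by decide +kernel : spOk C.a sp = true) fun l => ?_
  fin_cases l
  · exact H0.at (t := 1) (e := 93 / 743408) (by decide +kernel) (by decide +kernel)
  · exact H1.at (t := 1) (e := 93 / 743408) (by decide +kernel) (by decide +kernel)

end Pool.Agent.FPX.ECB_19
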