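import Mathlib
import Pool.Agent.FPX.CEZ

/-
EV_B2_1 (helper86): the control vector B2_1.
-/

noncomputable section

set_option linter.all false
set_option maxRecDepth 100000

namespace Pool.Agent.FPX.EV_B2_1

def sp : ℚ := 8151 / 8192

def mu : ℚ := 8388608 / 29782725

def v : Fin 29 → ℚ :=
  ![15347063 / 16777216, 1033851 / 8388608, -40720881 / 67108864, 9858645 / 67108864, 6253543 / 33554432,
    2812257 / 33554432, 10627969 / 67108864, -458321 / 16777216, 20106249 / 33554432, -6854575 / 16777216,
    2922469 / 67108864, -148747 / 8388608, -230627 / 67108864, -1829301 / 67108864, 15 / 16777216,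
    6674319 / 67108864, -1037375 / 67108864, 2505851 / 33554432, 19433 / 67108864, -24507649 / 67108864,
    -23514567 / 67108864, -7141989 / 16777216, -21688723 / 67108864, -1179601 / 67108864, -171007 / 33554432,
    1384347 / 67108864, -2531989 / 16777216, -5674361 / 67108864, -3099429 / 16777216]

def u : Fin 24 → ℚ :=
  ![1, -1294323 / 67108864, 2124651 / 67108864, -187317 / 33554432, 1368487 / 33554432, -2791517 / 67108864,
    259093 / 16777216, 811053 / 67108864, 2716585 / 67108864, 34353 / 16777216, -99829 / 67108864, 18121 / 67108864,
    -108853 / 67108864, -1129 / 67108864, 39553 / 67108864, 181 / 33554432, 10777 / 33554432, 119 / 16777216,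
    -29 / 33554432, -12232743 / 33554432, 4409013 / 33554432, 9735329 / 67108864, -24633 / 16777216, 0]

end Pool.Agent.FPX.EV_B2_1
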