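import Mathlib
import Pool.Agent.FPX.CEZ

/-
EV_B2_2 (helper86): the control vector B2_2.
-/

noncomputable section

set_option linter.all false
set_option maxRecDepth 100000

namespace Pool.Agent.FPX.EV_B2_2

def sp : ℚ := 8151 / 8192

def mu : ℚ := 33554432 / 118734375

def v : Fin 29 → ℚ :=
  ![61749169 / 67108864, 5127869 / 33554432, -5014913 / 8388608, 4594777 / 33554432, 12379513 / 67108864,
    2646679 / 33554432, 8641801 / 67108864, -1983081 / 33554432, 38344471 / 67108864, -25223035 / 67108864,
    2906109 / 67108864, -1026355 / 67108864, -283523 / 67108864, -503343 / 16777216, 61 / 67108864,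
    8195653 / 67108864, -913387 / 67108864, 4820997 / 67108864, 3721 / 16777216, -2928793 / 8388608,
    -349581 / 1048576, -14848513 / 33554432, -1550635 / 4194304, -1284157 / 67108864, -591051 / 67108864,
    303737 / 16777216, -4785001 / 33554432, -5221695 / 67108864, -398265 / 2097152]

def u : Fin 24 → ℚ :=
  ![1, -1714261 / 67108864, 733785 / 16777216, -26421 / 4194304, 563457 / 16777216, -3923465 / 67108864,
    1377899 / 67108864, 677853 / 33554432, 2386545 / 67108864, 197473 / 67108864, -139199 / 67108864,
    24531 / 67108864, -19871 / 8388608, 3955 / 33554432, 14007 / 16777216, -697 / 16777216, 31993 / 67108864,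
    -3183 / 67108864, 77 / 67108864, -23994627 / 67108864, 4228427 / 33554432, 1207279 / 8388608, -30087 / 4194304, 0]

end Pool.Agent.FPX.EV_B2_2
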