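import Mathlib
import Pool.Agent.FPX.EDAT
import Pool.Agent.FPX.ECH
import Pool.Agent.FPX.CSC
import Pool.Agent.FPX.EV_B1_2
import Pool.Agent.FPX.EV_B2_1
import Pool.Agent.FPX.EV_B2_2

/-
ECB_2 (helper86): the latitude cell [1/10, 3/20], row B.
-/

noncomputable section

set_option linter.all false
set_option maxRecDepth 100000

namespace Pool.Agent.FPX.ECB_2

open Pool.Agent.FPX.CEL
open Pool.Agent.FPX.EJN
open Pool.Agent.FPX.EDAT

open Pool.Agent.FPX.BV (PsiL)
open Pool.Agent.FPX.FSW (BkZ)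

def C : CellZ 2 24 where
  a := 1 / 10
  b := 3 / 20
  r := 70077 / 65536
  ε := 1 / 255
  w := [65774442433 / 68719476736, 57015885 / 268435456, -1543361025 / 4294967296, -49151625 / 536870912]
  R := [1073459671 / 1073741824, 2316405 / 268435456, 120241665 / 134217728, 581878077 / 1073741824]
  η := 1 / 524288
  n := 4
  V := ![tv (280307 / 280308) (1 / 1121232) EV_B1_2.v, tv (1) (1 / 1121232) EV_B2_1.v,
    tv (93125 / 93436) (1 / 1121232) EV_B2_2.v]
  U := ![EV_B1_2.u, EV_B2_1.u, EV_B2_2.u]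

def wv : Fin 29 → ℚ := ![2049 / 1000, 33 / 125, 33 / 125, 561 / 200, 103 / 250, 2689 / 1000, 83 / 1000, 207 / 500,
    727 / 500, 727 / 500, 179 / 125, 2101 / 500, 83 / 1000, 1037 / 1000, 2049 / 500, 433 / 500, 181 / 250,
    2667 / 1000, 1363 / 500, 51 / 1000, 63 / 250, 331 / 1000, 31 / 1000, 3263 / 500, 31 / 1000, 159 / 200,
    2541 / 1000, 687 / 250, 33 / 125]

def wu : Fin 24 → ℚ := ![179 / 125, 36 / 125, 36 / 125, 22 / 125, 22 / 125, 36 / 125, 36 / 125, 22 / 125, 22 / 125,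
    29 / 500, 29 / 500, 29 / 500, 9 / 250, 9 / 250, 9 / 250, 9 / 250, 11 / 500, 11 / 500, 11 / 500, 1551 / 1000,
    1551 / 1000, 533 / 250, 533 / 250, 0]

def sp : ℚ := 8151 / 8192

def bd : CSB.Bd := ⟨7157 / 5000, 3589 / 10000, 2009 / 10000, 1227 / 10000, 451 / 5000, 161 / 1250⟩

theorem apr : AprOn PsiL wv wu C.a C.b := CSB.Bd.aprL' (by decide +kernel : bd.okL sp C.a wv wu = true) _

theorem ok : C.okC D D.ul wv wu muB TB = true := by decide +kernel

/-- **the cell** -/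
theorem cell
    (H0 : CtlL EV_B1_2.sp EV_B1_2.mu EV_B1_2.v EV_B1_2.u)
    (H1 : CtlL EV_B2_1.sp EV_B2_1.mu EV_B2_1.v EV_B2_1.u)
    (H2 : CtlL EV_B2_2.sp EV_B2_2.mu EV_B2_2.v EV_B2_2.u) :
    FSW.CellZ (BkZ D) D.cofZ ((muB : ℚ) : ℝ) ((TB : ℚ) : ℝ) C.a C.b C.w := by
  refine EJN.cellC EDAT.isLin apr ok (by decide +kernel : spOk C.a sp = true) fun l => ?_
  fin_cases l
  · exact H0.at (t := 280307 / 280308) (e := 1 / 1121232) (by decide +kernel) (by decide +kernel)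
  · exact H1.at (t := 1) (e := 1 / 1121232) (by decide +kernel) (by decide +kernel)
  · exact H2.at (t := 93125 / 93436) (e := 1 / 1121232) (by decide +kernel) (by decide +kernel)

end Pool.Agent.FPX.ECB_2
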