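import Mathlib
import Pool.Agent.FPX.CEZ

/-
EV_B20_1 (helper86): the control vector B20_1.
-/

noncomputable section

set_option linter.all false
set_option maxRecDepth 100000

namespace Pool.Agent.FPX.EV_B20_1

def sp : ℚ := 6521 / 32768

def mu : ℚ := 33554432 / 118987675

def v : Fin 29 → ℚ :=
  ![62824583 / 67108864, -10689975 / 67108864, -8314265 / 33554432, -1875 / 33554432, -2311 / 67108864,
    31 / 16777216, 216286149 / 67108864, 2133365 / 33554432, 39324497 / 67108864, -321769 / 67108864,
    -189 / 16777216, 812647 / 67108864, 246189951 / 67108864, -1936675 / 33554432, 169033 / 33554432,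
    7191171 / 67108864, 8239 / 67108864, -105 / 33554432, 1 / 67108864, 21146373 / 33554432, -43 / 16777216,
    3792217 / 33554432, 385200409 / 67108864, 869965 / 67108864, 219795843 / 33554432, 10800965 / 67108864,
    311 / 8388608, 99 / 67108864, -483 / 2097152]

def u : Fin 24 → ℚ :=
  ![1, 2067 / 33554432, 22917 / 67108864, -4157 / 33554432, 36575 / 67108864, -46022503 / 67108864, 2855 / 67108864,
    -46093 / 67108864, -497 / 33554432, 273 / 67108864, 29 / 8388608, -1 / 33554432, -55 / 67108864, -7 / 8388608,
    1 / 67108864, 1 / 67108864, 0, 0, 0, 33 / 33554432, -351 / 33554432, 167 / 67108864, 21 / 8388608, 0]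

end Pool.Agent.FPX.EV_B20_1
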