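import Mathlib
import Pool.Agent.FPX.CEZ

/-
EV_B3_1 (helper86): the control vector B3_1.
-/

noncomputable section

set_option linter.all false
set_option maxRecDepth 100000

namespace Pool.Agent.FPX.EV_B3_1

def sp : ℚ := 64795 / 65536

def mu : ℚ := 33554432 / 118734375

def v : Fin 29 → ℚ :=
  ![30956961 / 33554432, 3034715 / 16777216, -615029 / 1048576, 8500505 / 67108864, 381245 / 2097152,
    2472547 / 33554432, 3290425 / 33554432, -377711 / 4194304, 18189405 / 33554432, -11482177 / 33554432,
    1440285 / 33554432, -860891 / 67108864, -82797 / 16777216, -2184709 / 67108864, 61 / 67108864,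
    4826873 / 33554432, -396549 / 33554432, 4613105 / 67108864, 5241 / 33554432, -22190177 / 67108864,
    -21153909 / 67108864, -30666601 / 67108864, -1743427 / 4194304, -1380011 / 67108864, -105917 / 8388608,
    64265 / 4194304, -8977831 / 67108864, -4753539 / 67108864, -13042203 / 67108864]

def u : Fin 24 → ℚ :=
  ![1, -2135541 / 67108864, 1871705 / 33554432, -464339 / 67108864, 220337 / 8388608, -1268123 / 16777216,
    1716107 / 67108864, 1922563 / 67108864, 128239 / 4194304, 257907 / 67108864, -89037 / 33554432, 15373 / 33554432,
    -104803 / 33554432, 2125 / 8388608, 72365 / 67108864, -5903 / 67108864, 42585 / 67108864, -861 / 8388608,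
    123 / 33554432, -22965 / 65536, 4046075 / 33554432, 2393715 / 16777216, -105915 / 8388608, 0]

end Pool.Agent.FPX.EV_B3_1
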