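import Mathlib
import Pool.Agent.FPX.CEZ

/-
EV_B3_2 (helper86): the control vector B3_2.
-/

noncomputable section

set_option linter.all false
set_option maxRecDepth 100000

namespace Pool.Agent.FPX.EV_B3_2

def sp : ℚ := 64795 / 65536

def mu : ℚ := 8388608 / 29475875

def v : Fin 29 → ℚ :=
  ![62474943 / 67108864, 13362841 / 67108864, -19347595 / 33554432, 1998033 / 16777216, 12023541 / 67108864,
    2318329 / 33554432, 4134155 / 67108864, -7718491 / 67108864, 34987611 / 67108864, -10553341 / 33554432,
    360583 / 8388608, -359871 / 33554432, -181581 / 33554432, -1152859 / 33554432, 61 / 67108864,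
    10798271 / 67108864, -765525 / 67108864, 4428343 / 67108864, 8595 / 67108864, -2497929 / 8388608,
    -20057737 / 67108864, -31238371 / 67108864, -31718919 / 67108864, -720147 / 33554432, -149213 / 8388608,
    349835 / 33554432, -8431831 / 67108864, -67673 / 1048576, -6710815 / 33554432]

def u : Fin 24 → ℚ :=
  ![1, -2597315 / 67108864, 2314067 / 33554432, -472985 / 67108864, 501135 / 33554432, -1603385 / 16777216,
    517499 / 16777216, 333133 / 8388608, 755449 / 33554432, 327061 / 67108864, -219155 / 67108864, 4587 / 8388608,
    -134483 / 33554432, 14545 / 33554432, 22531 / 16777216, -9757 / 67108864, 27 / 32768, -5979 / 33554432,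
    323 / 33554432, -22963597 / 67108864, 7677485 / 67108864, 4723661 / 33554432, -1025093 / 67108864, 0]

end Pool.Agent.FPX.EV_B3_2
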