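import Mathlib
import Pool.Agent.FPX.CEZ

/-
EV_B4_1 (helper86): the control vector B4_1.
-/

noncomputable section

set_option linter.all false
set_option maxRecDepth 100000

namespace Pool.Agent.FPX.EV_B4_1

def sp : ℚ := 16053 / 16384

def mu : ℚ := 8388608 / 29475875

def v : Fin 29 → ℚ :=
  ![62696937 / 67108864, 7328905 / 33554432, -36558305 / 67108864, 7026375 / 67108864, 177693 / 1048576,
    1985539 / 33554432, -678017 / 33554432, -10314587 / 67108864, 16093509 / 33554432, -17447423 / 67108864,
    2859863 / 67108864, -454047 / 67108864, -371047 / 67108864, -2427133 / 67108864, 61 / 67108864,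
    12397557 / 67108864, -198675 / 16777216, 3987435 / 67108864, 3671 / 33554432, -1770395 / 8388608,
    -17571907 / 67108864, -15541303 / 33554432, -4928529 / 8388608, -1476981 / 67108864, -978727 / 33554432,
    -145147 / 67108864, -1801923 / 16777216, -1731513 / 33554432, -6952857 / 33554432]

def u : Fin 24 → ℚ :=
  ![1, -1769575 / 33554432, 397829 / 4194304, -409747 / 67108864, -35283 / 4194304, -2330075 / 16777216,
    10689 / 262144, 2214249 / 33554432, 182029 / 33554432, 469849 / 67108864, -147375 / 33554432, 46193 / 67108864,
    -49157 / 8388608, 50311 / 67108864, 123365 / 67108864, -15781 / 67108864, 82285 / 67108864, -21053 / 67108864,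
    21 / 1048576, -10878735 / 33554432, 6801791 / 67108864, 4555567 / 33554432, -1167891 / 67108864, 0]

end Pool.Agent.FPX.EV_B4_1
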