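import Mathlib
import Pool.Agent.FPX.CEZ

/-
EV_B5_1 (helper86): the control vector B5_1.
-/

noncomputable section

set_option linter.all false
set_option maxRecDepth 100000

namespace Pool.Agent.FPX.EV_B5_1

def sp : ℚ := 63455 / 65536

def mu : ℚ := 33554432 / 118410525

def v : Fin 29 → ℚ :=
  ![7825111 / 8388608, 7233307 / 33554432, -1059891 / 2097152, 1571749 / 16777216, 655247 / 4194304,
    1665049 / 33554432, -3746997 / 33554432, -11818749 / 67108864, 1877197 / 4194304, -14323693 / 67108864,
    1414953 / 33554432, -116207 / 33554432, -285183 / 67108864, -75129 / 2097152, 61 / 67108864, 13091433 / 67108864,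
    -117963 / 8388608, 440639 / 8388608, 4727 / 33554432, -3496811 / 33554432, -7524805 / 33554432,
    -14739021 / 33554432, -23689065 / 33554432, -704603 / 33554432, -2782181 / 67108864, -1223017 / 67108864,
    -2979611 / 33554432, -2664831 / 67108864, -884229 / 4194304]

def u : Fin 24 → ℚ :=
  ![1, -4479369 / 67108864, 3976563 / 33554432, -103191 / 33554432, -1965311 / 67108864, -783281 / 4194304,
    3296947 / 67108864, 51665 / 524288, -738381 / 67108864, 613579 / 67108864, -177235 / 33554432, 6393 / 8388608,
    -259805 / 33554432, 62229 / 67108864, 150101 / 67108864, -2243 / 8388608, 13751 / 8388608, -26351 / 67108864,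
    393 / 16777216, -20400167 / 67108864, 5873585 / 67108864, 4320087 / 33554432, -257441 / 16777216, 0]

end Pool.Agent.FPX.EV_B5_1
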