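import Mathlib
import Pool.Agent.FPX.CEZ

/-
EV_B6_1 (helper86): the control vector B6_1.
-/

noncomputable section

set_option linter.all false
set_option maxRecDepth 100000

namespace Pool.Agent.FPX.EV_B6_1

def sp : ℚ := 31259 / 32768

def mu : ℚ := 33554432 / 118536325

def v : Fin 29 → ℚ :=
  ![31338261 / 33554432, 13336483 / 67108864, -7789995 / 16777216, 2879693 / 33554432, 9485391 / 67108864,
    2748707 / 67108864, -13965699 / 67108864, -389811 / 2097152, 14332767 / 33554432, -11779773 / 67108864,
    2805101 / 67108864, -51477 / 67108864, -24237 / 16777216, -2287839 / 67108864, 61 / 67108864,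
    13133621 / 67108864, -574491 / 33554432, 3078899 / 67108864, 3251 / 16777216, 451861 / 67108864,
    -6329013 / 33554432, -26918873 / 67108864, -13810473 / 16777216, -1267219 / 67108864, -885533 / 16777216,
    -2434105 / 67108864, -4758911 / 67108864, -1973631 / 67108864, -7103585 / 33554432]

def u : Fin 24 → ℚ :=
  ![1, -2677919 / 33554432, 9221967 / 67108864, 139861 / 67108864, -2808603 / 67108864, -3977893 / 16777216,
    3687657 / 67108864, 4554229 / 33554432, -384119 / 16777216, 746101 / 67108864, -390753 / 67108864,
    12773 / 16777216, -19809 / 2097152, 59749 / 67108864, 165983 / 67108864, -7791 / 33554432, 134637 / 67108864,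
    -793 / 2097152, 1181 / 67108864, -9463663 / 33554432, 1235171 / 16777216, 8039771 / 67108864, -751011 / 67108864,
    0]

end Pool.Agent.FPX.EV_B6_1
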