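import Mathlib
import Pool.Agent.FPX.CEZ

/-
EV_B7_1 (helper86): the control vector B7_1.
-/

noncomputable section

set_option linter.all false
set_option maxRecDepth 100000

namespace Pool.Agent.FPX.EV_B7_1

def sp : ℚ := 61391 / 65536

def mu : ℚ := 4194304 / 14829525

def v : Fin 29 → ℚ :=
  ![62728451 / 67108864, 11587027 / 67108864, -7075039 / 16777216, 2683079 / 33554432, 4193479 / 33554432,
    1110083 / 33554432, -1277367 / 4194304, -12372123 / 67108864, 27905627 / 67108864, -4851817 / 33554432,
    2766897 / 67108864, 94861 / 67108864, 102395 / 33554432, -2098159 / 67108864, 61 / 67108864, 3153071 / 16777216,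
    -1349789 / 67108864, 661013 / 16777216, 16459 / 67108864, 3705419 / 33554432, -5191295 / 33554432,
    -11760453 / 33554432, -31132227 / 33554432, -66365 / 4194304, -4061459 / 67108864, -3687729 / 67108864,
    -901113 / 16777216, -1387947 / 67108864, -7010429 / 33554432]

def u : Fin 24 → ℚ :=
  ![1, -1528265 / 16777216, 5024127 / 33554432, 616479 / 67108864, -2904583 / 67108864, -19337249 / 67108864,
    3864129 / 67108864, 11767973 / 67108864, -1880251 / 67108864, 857657 / 67108864, -400509 / 67108864,
    46673 / 67108864, -361545 / 33554432, 44015 / 67108864, 84397 / 33554432, -10195 / 67108864, 152403 / 67108864,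
    -18535 / 67108864, 545 / 67108864, -542775 / 2097152, 4042891 / 67108864, 7319165 / 67108864, -219775 / 33554432,
    0]

end Pool.Agent.FPX.EV_B7_1
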