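import Mathlib
import Pool.Agent.FPX.CEZ

/-
EV_B8_1 (helper86): the control vector B8_1.
-/

noncomputable section

set_option linter.all false
set_option maxRecDepth 100000

namespace Pool.Agent.FPX.EV_B8_1

def sp : ℚ := 60065 / 65536

def mu : ℚ := 33554432 / 118696975

def v : Fin 29 → ℚ :=
  ![62790057 / 67108864, 4777645 / 33554432, -12737639 / 33554432, 5053499 / 67108864, 904733 / 8388608,
    27317 / 1048576, -3319699 / 8388608, -11636011 / 67108864, 13841879 / 33554432, -8037397 / 67108864,
    676625 / 16777216, 211295 / 67108864, 630283 / 67108864, -931139 / 33554432, 91 / 67108864, 11652911 / 67108864,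
    -1495087 / 67108864, 556889 / 16777216, 585 / 2097152, 6601971 / 33554432, -8262865 / 67108864,
    -19493603 / 67108864, -67778409 / 67108864, -101035 / 8388608, -2068535 / 33554432, -611823 / 8388608,
    -2515391 / 67108864, -911589 / 67108864, -13594025 / 67108864]

def u : Fin 24 → ℚ :=
  ![1, -3350745 / 33554432, 5181287 / 33554432, 596049 / 33554432, -2282871 / 67108864, -354649 / 1048576,
    237811 / 4194304, 1799633 / 8388608, -863877 / 33554432, 940883 / 67108864, -385023 / 67108864, 39297 / 67108864,
    -388193 / 33554432, 10741 / 33554432, 158771 / 67108864, -4317 / 67108864, 80071 / 33554432, -4415 / 33554432,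
    53 / 33554432, -123077 / 524288, 3213623 / 67108864, 6495683 / 67108864, -87809 / 33554432, 0]

end Pool.Agent.FPX.EV_B8_1
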