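import Mathlib
import Pool.Agent.FPX.EDAT
import Pool.Agent.FPX.ECH
import Pool.Agent.FPX.CSC
import Pool.Agent.FPX.EV_B8_1
import Pool.Agent.FPX.EV_B9_1

/-
ECB_9 (helper86): the latitude cell [9/20, 1/2], row B.
-/

noncomputable section

set_option linter.all false
set_option maxRecDepth 100000

namespace Pool.Agent.FPX.ECB_9

open Pool.Agent.FPX.CEL
open Pool.Agent.FPX.EJN
open Pool.Agent.FPX.EDAT

open Pool.Agent.FPX.BV (PsiL)
open Pool.Agent.FPX.FSW (BkZ)

def C : CellZ 1 24 where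
  a := 9 / 20
  b := 1 / 2
  r := 69857 / 65536
  ε := 1 / 255
  w := [113873305161 / 137438953472, 8227982025 / 8589934592, -15718689675 / 8589934592, 2539500625 / 2147483648]
  R := [354301647 / 536870912, 1364871143 / 536870912, -378755705 / 67108864, 6985631129 / 1073741824]
  η := 3 / 1048576
  n := 4
  V := ![tv (279287 / 279428) (3 / 2235424) EV_B8_1.v, tv (1) (3 / 2235424) EV_B9_1.v]
  U := ![EV_B8_1.u, EV_B9_1.u]

def wv : Fin 29 → ℚ := ![1887 / 1000, 49 / 250, 49 / 250, 2327 / 1000, 343 / 1000, 121 / 50, 63 / 1000, 43 / 125,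
    313 / 250, 313 / 250, 687 / 500, 1827 / 500, 63 / 1000, 811 / 1000, 1887 / 500, 88 / 125, 297 / 500, 12 / 5,
    487 / 200, 19 / 500, 21 / 100, 269 / 1000, 3 / 125, 5371 / 1000, 3 / 125, 77 / 125, 533 / 250, 2257 / 1000,
    49 / 250]

def wu : Fin 24 → ℚ := ![687 / 500, 1 / 4, 1 / 4, 153 / 1000, 153 / 1000, 1 / 4, 1 / 4, 153 / 1000, 153 / 1000,
    23 / 500, 23 / 500, 23 / 500, 7 / 250, 7 / 250, 7 / 250, 7 / 250, 17 / 1000, 17 / 1000, 17 / 1000, 707 / 500,
    707 / 500, 1843 / 1000, 1843 / 1000, 0]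

def sp : ℚ := 29263 / 32768

def bd : CSB.Bd := ⟨1717 / 1250, 3221 / 10000, 1813 / 10000, 1109 / 10000, 803 / 10000, 1037 / 10000⟩

theorem apr : AprOn PsiL wv wu C.a C.b := CSB.Bd.aprL' (by decide +kernel : bd.okL sp C.a wv wu = true) _

theorem ok : C.okC D D.ul wv wu muB TB = true := by decide +kernel

/-- **the cell** -/
theorem cell
    (H0 : CtlL EV_B8_1.sp EV_B8_1.mu EV_B8_1.v EV_B8_1.u)
    (H1 : CtlL EV_B9_1.sp EV_B9_1.mu EV_B9_1.v EV_B9_1.u) :
    FSW.CellZ (BkZ D) D.cofZ ((muB : ℚ) : ℝ) ((TB : ℚ) : ℝ) C.a C.b C.w := by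
  refine EJN.cellC EDAT.isLin apr ok (by decide +kernel : spOk C.a sp = true) fun l => ?_
  fin_cases l
  · exact H0.at (t := 279287 / 279428) (e := 3 / 2235424) (by decide +kernel) (by decide +kernel)
  · exact H1.at (t := 1) (e := 3 / 2235424) (by decide +kernel) (by decide +kernel)

end Pool.Agent.FPX.ECB_9
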