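import Mathlib
import Pool.Agent.FPX.EDAT
import Pool.Agent.FPX.ECH
import Pool.Agent.FPX.ECA_0
import Pool.Agent.FPX.ECA_1
import Pool.Agent.FPX.ECA_2
import Pool.Agent.FPX.ECA_3
import Pool.Agent.FPX.ECA_4
import Pool.Agent.FPX.ECA_5
import Pool.Agent.FPX.ECA_6
import Pool.Agent.FPX.ECA_7
import Pool.Agent.FPX.ECA_8
import Pool.Agent.FPX.ECA_9
import Pool.Agent.FPX.ECA_10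
import Pool.Agent.FPX.ECA_11
import Pool.Agent.FPX.ECA_12
import Pool.Agent.FPX.ECA_13
import Pool.Agent.FPX.ECA_14
import Pool.Agent.FPX.ECA_15
import Pool.Agent.FPX.ECA_16
import Pool.Agent.FPX.ECA_17
import Pool.Agent.FPX.ECA_18
import Pool.Agent.FPX.ECA_19
import Pool.Agent.FPX.ECA_20

/-
ECL (helper86): the row of the certificate from the cells.
-/

noncomputable section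

set_option linter.all false
set_option maxRecDepth 100000

namespace Pool.Agent.FPX.ECL

open Pool.Agent.FPX.CEL
open Pool.Agent.FPX.EJN
open Pool.Agent.FPX.EDAT
open Pool.Agent.FPX.WPP

open Pool.Agent.FPX.BV (PsiL)
open Pool.Agent.FPX.FSW (BkZ)
open Pool.Agent.FPX.ASL (WL)
open Pool.Agent.FPX.FST

def LA : List (ℚ × List ℚ) :=
  [(ECA_0.C.b, ECA_0.C.w), (ECA_1.C.b, ECA_1.C.w), (ECA_2.C.b, ECA_2.C.w), (ECA_3.C.b, ECA_3.C.w), (ECA_4.C.b,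
    ECA_4.C.w), (ECA_5.C.b, ECA_5.C.w), (ECA_6.C.b, ECA_6.C.w), (ECA_7.C.b, ECA_7.C.w), (ECA_8.C.b, ECA_8.C.w),
    (ECA_9.C.b, ECA_9.C.w), (ECA_10.C.b, ECA_10.C.w), (ECA_11.C.b, ECA_11.C.w), (ECA_12.C.b, ECA_12.C.w),
    (ECA_13.C.b, ECA_13.C.w), (ECA_14.C.b, ECA_14.C.w), (ECA_15.C.b, ECA_15.C.w), (ECA_16.C.b, ECA_16.C.w),
    (ECA_17.C.b, ECA_17.C.w), (ECA_18.C.b, ECA_18.C.w), (ECA_19.C.b, ECA_19.C.w)]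

def mA : List ℚ := ECA_20.C.w

theorem subA : ASL.subs L m 0 LA mA = true := by decide +kernel

/-- **the cells of the row A** -/
theorem allA
    (H_A0_0 : CtlL EV_A0_0.sp EV_A0_0.mu EV_A0_0.v EV_A0_0.u)
    (H_A0_1 : CtlL EV_A0_1.sp EV_A0_1.mu EV_A0_1.v EV_A0_1.u)
    (H_A0_2 : CtlL EV_A0_2.sp EV_A0_2.mu EV_A0_2.v EV_A0_2.u)
    (H_A0_3 : CtlL EV_A0_3.sp EV_A0_3.mu EV_A0_3.v EV_A0_3.u)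
    (H_A1_1 : CtlL EV_A1_1.sp EV_A1_1.mu EV_A1_1.v EV_A1_1.u)
    (H_A1_2 : CtlL EV_A1_2.sp EV_A1_2.mu EV_A1_2.v EV_A1_2.u)
    (H_A1_3 : CtlL EV_A1_3.sp EV_A1_3.mu EV_A1_3.v EV_A1_3.u)
    (H_A2_1 : CtlL EV_A2_1.sp EV_A2_1.mu EV_A2_1.v EV_A2_1.u)
    (H_A2_2 : CtlL EV_A2_2.sp EV_A2_2.mu EV_A2_2.v EV_A2_2.u)
    (H_A2_3 : CtlL EV_A2_3.sp EV_A2_3.mu EV_A2_3.v EV_A2_3.u)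
    (H_A3_1 : CtlL EV_A3_1.sp EV_A3_1.mu EV_A3_1.v EV_A3_1.u)
    (H_A3_2 : CtlL EV_A3_2.sp EV_A3_2.mu EV_A3_2.v EV_A3_2.u)
    (H_A3_3 : CtlL EV_A3_3.sp EV_A3_3.mu EV_A3_3.v EV_A3_3.u)
    (H_A4_1 : CtlL EV_A4_1.sp EV_A4_1.mu EV_A4_1.v EV_A4_1.u)
    (H_A4_2 : CtlL EV_A4_2.sp EV_A4_2.mu EV_A4_2.v EV_A4_2.u)
    (H_A4_3 : CtlL EV_A4_3.sp EV_A4_3.mu EV_A4_3.v EV_A4_3.u)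
    (H_A5_1 : CtlL EV_A5_1.sp EV_A5_1.mu EV_A5_1.v EV_A5_1.u)
    (H_A5_2 : CtlL EV_A5_2.sp EV_A5_2.mu EV_A5_2.v EV_A5_2.u)
    (H_A5_3 : CtlL EV_A5_3.sp EV_A5_3.mu EV_A5_3.v EV_A5_3.u)
    (H_A6_1 : CtlL EV_A6_1.sp EV_A6_1.mu EV_A6_1.v EV_A6_1.u)
    (H_A6_2 : CtlL EV_A6_2.sp EV_A6_2.mu EV_A6_2.v EV_A6_2.u)
    (H_A6_3 : CtlL EV_A6_3.sp EV_A6_3.mu EV_A6_3.v EV_A6_3.u)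
    (H_A7_1 : CtlL EV_A7_1.sp EV_A7_1.mu EV_A7_1.v EV_A7_1.u)
    (H_A7_2 : CtlL EV_A7_2.sp EV_A7_2.mu EV_A7_2.v EV_A7_2.u)
    (H_A7_3 : CtlL EV_A7_3.sp EV_A7_3.mu EV_A7_3.v EV_A7_3.u)
    (H_A8_1 : CtlL EV_A8_1.sp EV_A8_1.mu EV_A8_1.v EV_A8_1.u)
    (H_A8_2 : CtlL EV_A8_2.sp EV_A8_2.mu EV_A8_2.v EV_A8_2.u)
    (H_A8_3 : CtlL EV_A8_3.sp EV_A8_3.mu EV_A8_3.v EV_A8_3.u)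
    (H_A9_1 : CtlL EV_A9_1.sp EV_A9_1.mu EV_A9_1.v EV_A9_1.u)
    (H_A9_2 : CtlL EV_A9_2.sp EV_A9_2.mu EV_A9_2.v EV_A9_2.u)
    (H_A9_3 : CtlL EV_A9_3.sp EV_A9_3.mu EV_A9_3.v EV_A9_3.u)
    (H_A10_1 : CtlL EV_A10_1.sp EV_A10_1.mu EV_A10_1.v EV_A10_1.u)
    (H_A10_2 : CtlL EV_A10_2.sp EV_A10_2.mu EV_A10_2.v EV_A10_2.u)
    (H_A10_3 : CtlL EV_A10_3.sp EV_A10_3.mu EV_A10_3.v EV_A10_3.u)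
    (H_A11_1 : CtlL EV_A11_1.sp EV_A11_1.mu EV_A11_1.v EV_A11_1.u)
    (H_A11_2 : CtlL EV_A11_2.sp EV_A11_2.mu EV_A11_2.v EV_A11_2.u)
    (H_A11_3 : CtlL EV_A11_3.sp EV_A11_3.mu EV_A11_3.v EV_A11_3.u)
    (H_A12_1 : CtlL EV_A12_1.sp EV_A12_1.mu EV_A12_1.v EV_A12_1.u)
    (H_A12_2 : CtlL EV_A12_2.sp EV_A12_2.mu EV_A12_2.v EV_A12_2.u)
    (H_A12_3 : CtlL EV_A12_3.sp EV_A12_3.mu EV_A12_3.v EV_A12_3.u)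
    (H_A13_1 : CtlL EV_A13_1.sp EV_A13_1.mu EV_A13_1.v EV_A13_1.u)
    (H_A13_2 : CtlL EV_A13_2.sp EV_A13_2.mu EV_A13_2.v EV_A13_2.u)
    (H_A13_3 : CtlL EV_A13_3.sp EV_A13_3.mu EV_A13_3.v EV_A13_3.u)
    (H_A14_1 : CtlL EV_A14_1.sp EV_A14_1.mu EV_A14_1.v EV_A14_1.u)
    (H_A14_2 : CtlL EV_A14_2.sp EV_A14_2.mu EV_A14_2.v EV_A14_2.u)
    (H_A14_3 : CtlL EV_A14_3.sp EV_A14_3.mu EV_A14_3.v EV_A14_3.u)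
    (H_A15_1 : CtlL EV_A15_1.sp EV_A15_1.mu EV_A15_1.v EV_A15_1.u)
    (H_A15_2 : CtlL EV_A15_2.sp EV_A15_2.mu EV_A15_2.v EV_A15_2.u)
    (H_A15_3 : CtlL EV_A15_3.sp EV_A15_3.mu EV_A15_3.v EV_A15_3.u)
    (H_A16_1 : CtlL EV_A16_1.sp EV_A16_1.mu EV_A16_1.v EV_A16_1.u)
    (H_A16_2 : CtlL EV_A16_2.sp EV_A16_2.mu EV_A16_2.v EV_A16_2.u)
    (H_A16_3 : CtlL EV_A16_3.sp EV_A16_3.mu EV_A16_3.v EV_A16_3.u)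
    (H_A17_1 : CtlL EV_A17_1.sp EV_A17_1.mu EV_A17_1.v EV_A17_1.u)
    (H_A17_2 : CtlL EV_A17_2.sp EV_A17_2.mu EV_A17_2.v EV_A17_2.u)
    (H_A17_3 : CtlL EV_A17_3.sp EV_A17_3.mu EV_A17_3.v EV_A17_3.u)
    (H_A18_1 : CtlL EV_A18_1.sp EV_A18_1.mu EV_A18_1.v EV_A18_1.u)
    (H_A18_2 : CtlL EV_A18_2.sp EV_A18_2.mu EV_A18_2.v EV_A18_2.u)
    (H_A18_3 : CtlL EV_A18_3.sp EV_A18_3.mu EV_A18_3.v EV_A18_3.u)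
    (H_A19_1 : CtlL EV_A19_1.sp EV_A19_1.mu EV_A19_1.v EV_A19_1.u)
    (H_A19_2 : CtlL EV_A19_2.sp EV_A19_2.mu EV_A19_2.v EV_A19_2.u)
    (H_A19_3 : CtlL EV_A19_3.sp EV_A19_3.mu EV_A19_3.v EV_A19_3.u)
    (H_A20_1 : CtlL EV_A20_1.sp EV_A20_1.mu EV_A20_1.v EV_A20_1.u)
    (H_A20_2 : CtlL EV_A20_2.sp EV_A20_2.mu EV_A20_2.v EV_A20_2.u) :
    AllC (FSW.CellZ (BkZ D) D.cofZ ((muA : ℚ) : ℝ) ((TA : ℚ) : ℝ)) 0 LA mA := by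
  exact ⟨ECA_0.cell H_A0_0 H_A0_1 H_A0_2 H_A0_3,
    ECA_1.cell H_A0_3 H_A1_1 H_A1_2 H_A1_3,
    ECA_2.cell H_A1_3 H_A2_1 H_A2_2 H_A2_3,
    ECA_3.cell H_A2_3 H_A3_1 H_A3_2 H_A3_3,
    ECA_4.cell H_A3_3 H_A4_1 H_A4_2 H_A4_3,
    ECA_5.cell H_A4_3 H_A5_1 H_A5_2 H_A5_3,
    ECA_6.cell H_A5_3 H_A6_1 H_A6_2 H_A6_3,
    ECA_7.cell H_A6_3 H_A7_1 H_A7_2 H_A7_3,
    ECA_8.cell H_A7_3 H_A8_1 H_A8_2 H_A8_3,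
    ECA_9.cell H_A8_3 H_A9_1 H_A9_2 H_A9_3,
    ECA_10.cell H_A9_3 H_A10_1 H_A10_2 H_A10_3,
    ECA_11.cell H_A10_3 H_A11_1 H_A11_2 H_A11_3,
    ECA_12.cell H_A11_3 H_A12_1 H_A12_2 H_A12_3,
    ECA_13.cell H_A12_3 H_A13_1 H_A13_2 H_A13_3,
    ECA_14.cell H_A13_3 H_A14_1 H_A14_2 H_A14_3,
    ECA_15.cell H_A14_3 H_A15_1 H_A15_2 H_A15_3,
    ECA_16.cell H_A15_3 H_A16_1 H_A16_2 H_A16_3,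
    ECA_17.cell H_A16_3 H_A17_1 H_A17_2 H_A17_3,
    ECA_18.cell H_A17_3 H_A18_1 H_A18_2 H_A18_3,
    ECA_19.cell H_A18_3 H_A19_1 H_A19_2 H_A19_3,
    ECA_20.cell H_A19_3 H_A20_1 H_A20_2⟩

/-- **the certificate of the row A** -/
theorem certA
    (H_A0_0 : CtlL EV_A0_0.sp EV_A0_0.mu EV_A0_0.v EV_A0_0.u)
    (H_A0_1 : CtlL EV_A0_1.sp EV_A0_1.mu EV_A0_1.v EV_A0_1.u)
    (H_A0_2 : CtlL EV_A0_2.sp EV_A0_2.mu EV_A0_2.v EV_A0_2.u)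
    (H_A0_3 : CtlL EV_A0_3.sp EV_A0_3.mu EV_A0_3.v EV_A0_3.u)
    (H_A1_1 : CtlL EV_A1_1.sp EV_A1_1.mu EV_A1_1.v EV_A1_1.u)
    (H_A1_2 : CtlL EV_A1_2.sp EV_A1_2.mu EV_A1_2.v EV_A1_2.u)
    (H_A1_3 : CtlL EV_A1_3.sp EV_A1_3.mu EV_A1_3.v EV_A1_3.u)
    (H_A2_1 : CtlL EV_A2_1.sp EV_A2_1.mu EV_A2_1.v EV_A2_1.u)
    (H_A2_2 : CtlL EV_A2_2.sp EV_A2_2.mu EV_A2_2.v EV_A2_2.u)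
    (H_A2_3 : CtlL EV_A2_3.sp EV_A2_3.mu EV_A2_3.v EV_A2_3.u)
    (H_A3_1 : CtlL EV_A3_1.sp EV_A3_1.mu EV_A3_1.v EV_A3_1.u)
    (H_A3_2 : CtlL EV_A3_2.sp EV_A3_2.mu EV_A3_2.v EV_A3_2.u)
    (H_A3_3 : CtlL EV_A3_3.sp EV_A3_3.mu EV_A3_3.v EV_A3_3.u)
    (H_A4_1 : CtlL EV_A4_1.sp EV_A4_1.mu EV_A4_1.v EV_A4_1.u)
    (H_A4_2 : CtlL EV_A4_2.sp EV_A4_2.mu EV_A4_2.v EV_A4_2.u)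
    (H_A4_3 : CtlL EV_A4_3.sp EV_A4_3.mu EV_A4_3.v EV_A4_3.u)
    (H_A5_1 : CtlL EV_A5_1.sp EV_A5_1.mu EV_A5_1.v EV_A5_1.u)
    (H_A5_2 : CtlL EV_A5_2.sp EV_A5_2.mu EV_A5_2.v EV_A5_2.u)
    (H_A5_3 : CtlL EV_A5_3.sp EV_A5_3.mu EV_A5_3.v EV_A5_3.u)
    (H_A6_1 : CtlL EV_A6_1.sp EV_A6_1.mu EV_A6_1.v EV_A6_1.u)
    (H_A6_2 : CtlL EV_A6_2.sp EV_A6_2.mu EV_A6_2.v EV_A6_2.u)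
    (H_A6_3 : CtlL EV_A6_3.sp EV_A6_3.mu EV_A6_3.v EV_A6_3.u)
    (H_A7_1 : CtlL EV_A7_1.sp EV_A7_1.mu EV_A7_1.v EV_A7_1.u)
    (H_A7_2 : CtlL EV_A7_2.sp EV_A7_2.mu EV_A7_2.v EV_A7_2.u)
    (H_A7_3 : CtlL EV_A7_3.sp EV_A7_3.mu EV_A7_3.v EV_A7_3.u)
    (H_A8_1 : CtlL EV_A8_1.sp EV_A8_1.mu EV_A8_1.v EV_A8_1.u)
    (H_A8_2 : CtlL EV_A8_2.sp EV_A8_2.mu EV_A8_2.v EV_A8_2.u)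
    (H_A8_3 : CtlL EV_A8_3.sp EV_A8_3.mu EV_A8_3.v EV_A8_3.u)
    (H_A9_1 : CtlL EV_A9_1.sp EV_A9_1.mu EV_A9_1.v EV_A9_1.u)
    (H_A9_2 : CtlL EV_A9_2.sp EV_A9_2.mu EV_A9_2.v EV_A9_2.u)
    (H_A9_3 : CtlL EV_A9_3.sp EV_A9_3.mu EV_A9_3.v EV_A9_3.u)
    (H_A10_1 : CtlL EV_A10_1.sp EV_A10_1.mu EV_A10_1.v EV_A10_1.u)
    (H_A10_2 : CtlL EV_A10_2.sp EV_A10_2.mu EV_A10_2.v EV_A10_2.u)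
    (H_A10_3 : CtlL EV_A10_3.sp EV_A10_3.mu EV_A10_3.v EV_A10_3.u)
    (H_A11_1 : CtlL EV_A11_1.sp EV_A11_1.mu EV_A11_1.v EV_A11_1.u)
    (H_A11_2 : CtlL EV_A11_2.sp EV_A11_2.mu EV_A11_2.v EV_A11_2.u)
    (H_A11_3 : CtlL EV_A11_3.sp EV_A11_3.mu EV_A11_3.v EV_A11_3.u)
    (H_A12_1 : CtlL EV_A12_1.sp EV_A12_1.mu EV_A12_1.v EV_A12_1.u)
    (H_A12_2 : CtlL EV_A12_2.sp EV_A12_2.mu EV_A12_2.v EV_A12_2.u)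
    (H_A12_3 : CtlL EV_A12_3.sp EV_A12_3.mu EV_A12_3.v EV_A12_3.u)
    (H_A13_1 : CtlL EV_A13_1.sp EV_A13_1.mu EV_A13_1.v EV_A13_1.u)
    (H_A13_2 : CtlL EV_A13_2.sp EV_A13_2.mu EV_A13_2.v EV_A13_2.u)
    (H_A13_3 : CtlL EV_A13_3.sp EV_A13_3.mu EV_A13_3.v EV_A13_3.u)
    (H_A14_1 : CtlL EV_A14_1.sp EV_A14_1.mu EV_A14_1.v EV_A14_1.u)
    (H_A14_2 : CtlL EV_A14_2.sp EV_A14_2.mu EV_A14_2.v EV_A14_2.u)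
    (H_A14_3 : CtlL EV_A14_3.sp EV_A14_3.mu EV_A14_3.v EV_A14_3.u)
    (H_A15_1 : CtlL EV_A15_1.sp EV_A15_1.mu EV_A15_1.v EV_A15_1.u)
    (H_A15_2 : CtlL EV_A15_2.sp EV_A15_2.mu EV_A15_2.v EV_A15_2.u)
    (H_A15_3 : CtlL EV_A15_3.sp EV_A15_3.mu EV_A15_3.v EV_A15_3.u)
    (H_A16_1 : CtlL EV_A16_1.sp EV_A16_1.mu EV_A16_1.v EV_A16_1.u)
    (H_A16_2 : CtlL EV_A16_2.sp EV_A16_2.mu EV_A16_2.v EV_A16_2.u)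
    (H_A16_3 : CtlL EV_A16_3.sp EV_A16_3.mu EV_A16_3.v EV_A16_3.u)
    (H_A17_1 : CtlL EV_A17_1.sp EV_A17_1.mu EV_A17_1.v EV_A17_1.u)
    (H_A17_2 : CtlL EV_A17_2.sp EV_A17_2.mu EV_A17_2.v EV_A17_2.u)
    (H_A17_3 : CtlL EV_A17_3.sp EV_A17_3.mu EV_A17_3.v EV_A17_3.u)
    (H_A18_1 : CtlL EV_A18_1.sp EV_A18_1.mu EV_A18_1.v EV_A18_1.u)
    (H_A18_2 : CtlL EV_A18_2.sp EV_A18_2.mu EV_A18_2.v EV_A18_2.u)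
    (H_A18_3 : CtlL EV_A18_3.sp EV_A18_3.mu EV_A18_3.v EV_A18_3.u)
    (H_A19_1 : CtlL EV_A19_1.sp EV_A19_1.mu EV_A19_1.v EV_A19_1.u)
    (H_A19_2 : CtlL EV_A19_2.sp EV_A19_2.mu EV_A19_2.v EV_A19_2.u)
    (H_A19_3 : CtlL EV_A19_3.sp EV_A19_3.mu EV_A19_3.v EV_A19_3.u)
    (H_A20_1 : CtlL EV_A20_1.sp EV_A20_1.mu EV_A20_1.v EV_A20_1.u)
    (H_A20_2 : CtlL EV_A20_2.sp EV_A20_2.mu EV_A20_2.v EV_A20_2.u) :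
    CertRZ (BkZ D) (WL L m) D.cofZ ((muA : ℚ) : ℝ) ((TA : ℚ) : ℝ) :=
  EJN.certRZ okL subA (allA H_A0_0 H_A0_1 H_A0_2 H_A0_3 H_A1_1 H_A1_2 H_A1_3 H_A2_1 H_A2_2 H_A2_3 H_A3_1 H_A3_2 H_A3_3 H_A4_1 H_A4_2 H_A4_3 H_A5_1 H_A5_2 H_A5_3 H_A6_1 H_A6_2 H_A6_3 H_A7_1 H_A7_2 H_A7_3 H_A8_1 H_A8_2 H_A8_3 H_A9_1 H_A9_2 H_A9_3 H_A10_1 H_A10_2 H_A10_3 H_A11_1 H_A11_2 H_A11_3 H_A12_1 H_A12_2 H_A12_3 H_A13_1 H_A13_2 H_A13_3 H_A14_1 H_A14_2 H_A14_3 H_A15_1 H_A15_2 H_A15_3 H_A16_1 H_A16_2 H_A16_3 H_A17_1 H_A17_2 H_A17_3 H_A18_1 H_A18_2 H_A18_3 H_A19_1 H_A19_2 H_A19_3 H_A20_1 H_A20_2)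


end Pool.Agent.FPX.ECL
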