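import Mathlib
import Pool.Agent.FPX.EDAT
import Pool.Agent.FPX.ECH
import Pool.Agent.FPX.ECB_0
import Pool.Agent.FPX.ECB_1
import Pool.Agent.FPX.ECB_2
import Pool.Agent.FPX.ECB_3
import Pool.Agent.FPX.ECB_4
import Pool.Agent.FPX.ECB_5
import Pool.Agent.FPX.ECB_6
import Pool.Agent.FPX.ECB_7
import Pool.Agent.FPX.ECB_8
import Pool.Agent.FPX.ECB_9
import Pool.Agent.FPX.ECB_10
import Pool.Agent.FPX.ECB_11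
import Pool.Agent.FPX.ECB_12
import Pool.Agent.FPX.ECB_13
import Pool.Agent.FPX.ECB_14
import Pool.Agent.FPX.ECB_15
import Pool.Agent.FPX.ECB_16
import Pool.Agent.FPX.ECB_17
import Pool.Agent.FPX.ECB_18
import Pool.Agent.FPX.ECB_19
import Pool.Agent.FPX.ECB_20

/-
ECLB (helper86): the row of the certificate from the cells.
-/

noncomputable section

set_option linter.all false
set_option maxRecDepth 100000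

namespace Pool.Agent.FPX.ECLB

open Pool.Agent.FPX.CEL
open Pool.Agent.FPX.EJN
open Pool.Agent.FPX.EDAT
open Pool.Agent.FPX.WPP

open Pool.Agent.FPX.BV (PsiL)
open Pool.Agent.FPX.FSW (BkZ)
open Pool.Agent.FPX.ASL (WL)
open Pool.Agent.FPX.FST

def LB : List (ℚ × List ℚ) :=
  [(ECB_0.C.b, ECB_0.C.w), (ECB_1.C.b, ECB_1.C.w), (ECB_2.C.b, ECB_2.C.w), (ECB_3.C.b, ECB_3.C.w), (ECB_4.C.b,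
    ECB_4.C.w), (ECB_5.C.b, ECB_5.C.w), (ECB_6.C.b, ECB_6.C.w), (ECB_7.C.b, ECB_7.C.w), (ECB_8.C.b, ECB_8.C.w),
    (ECB_9.C.b, ECB_9.C.w), (ECB_10.C.b, ECB_10.C.w), (ECB_11.C.b, ECB_11.C.w), (ECB_12.C.b, ECB_12.C.w),
    (ECB_13.C.b, ECB_13.C.w), (ECB_14.C.b, ECB_14.C.w), (ECB_15.C.b, ECB_15.C.w), (ECB_16.C.b, ECB_16.C.w),
    (ECB_17.C.b, ECB_17.C.w), (ECB_18.C.b, ECB_18.C.w), (ECB_19.C.b, ECB_19.C.w)]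

def mB : List ℚ := ECB_20.C.w

theorem subB : ASL.subs L m 0 LB mB = true := by decide +kernel

/-- **the cells of the row B** -/
theorem allB
    (H_B0_0 : CtlL EV_B0_0.sp EV_B0_0.mu EV_B0_0.v EV_B0_0.u)
    (H_B0_1 : CtlL EV_B0_1.sp EV_B0_1.mu EV_B0_1.v EV_B0_1.u)
    (H_B0_2 : CtlL EV_B0_2.sp EV_B0_2.mu EV_B0_2.v EV_B0_2.u)
    (H_B1_1 : CtlL EV_B1_1.sp EV_B1_1.mu EV_B1_1.v EV_B1_1.u)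
    (H_B1_2 : CtlL EV_B1_2.sp EV_B1_2.mu EV_B1_2.v EV_B1_2.u)
    (H_B2_1 : CtlL EV_B2_1.sp EV_B2_1.mu EV_B2_1.v EV_B2_1.u)
    (H_B2_2 : CtlL EV_B2_2.sp EV_B2_2.mu EV_B2_2.v EV_B2_2.u)
    (H_B3_1 : CtlL EV_B3_1.sp EV_B3_1.mu EV_B3_1.v EV_B3_1.u)
    (H_B3_2 : CtlL EV_B3_2.sp EV_B3_2.mu EV_B3_2.v EV_B3_2.u)
    (H_B4_1 : CtlL EV_B4_1.sp EV_B4_1.mu EV_B4_1.v EV_B4_1.u)
    (H_B5_1 : CtlL EV_B5_1.sp EV_B5_1.mu EV_B5_1.v EV_B5_1.u)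
    (H_B6_1 : CtlL EV_B6_1.sp EV_B6_1.mu EV_B6_1.v EV_B6_1.u)
    (H_B7_1 : CtlL EV_B7_1.sp EV_B7_1.mu EV_B7_1.v EV_B7_1.u)
    (H_B8_1 : CtlL EV_B8_1.sp EV_B8_1.mu EV_B8_1.v EV_B8_1.u)
    (H_B9_1 : CtlL EV_B9_1.sp EV_B9_1.mu EV_B9_1.v EV_B9_1.u)
    (H_B10_1 : CtlL EV_B10_1.sp EV_B10_1.mu EV_B10_1.v EV_B10_1.u)
    (H_B11_1 : CtlL EV_B11_1.sp EV_B11_1.mu EV_B11_1.v EV_B11_1.u)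
    (H_B12_1 : CtlL EV_B12_1.sp EV_B12_1.mu EV_B12_1.v EV_B12_1.u)
    (H_B13_1 : CtlL EV_B13_1.sp EV_B13_1.mu EV_B13_1.v EV_B13_1.u)
    (H_B14_1 : CtlL EV_B14_1.sp EV_B14_1.mu EV_B14_1.v EV_B14_1.u)
    (H_B15_1 : CtlL EV_B15_1.sp EV_B15_1.mu EV_B15_1.v EV_B15_1.u)
    (H_B16_1 : CtlL EV_B16_1.sp EV_B16_1.mu EV_B16_1.v EV_B16_1.u)
    (H_B17_1 : CtlL EV_B17_1.sp EV_B17_1.mu EV_B17_1.v EV_B17_1.u)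
    (H_B18_1 : CtlL EV_B18_1.sp EV_B18_1.mu EV_B18_1.v EV_B18_1.u)
    (H_B19_1 : CtlL EV_B19_1.sp EV_B19_1.mu EV_B19_1.v EV_B19_1.u)
    (H_B20_1 : CtlL EV_B20_1.sp EV_B20_1.mu EV_B20_1.v EV_B20_1.u) :
    AllC (FSW.CellZ (BkZ D) D.cofZ ((muB : ℚ) : ℝ) ((TB : ℚ) : ℝ)) 0 LB mB := by
  exact ⟨ECB_0.cell H_B0_0 H_B0_1 H_B0_2,
    ECB_1.cell H_B0_2 H_B1_1 H_B1_2,
    ECB_2.cell H_B1_2 H_B2_1 H_B2_2,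
    ECB_3.cell H_B2_2 H_B3_1 H_B3_2,
    ECB_4.cell H_B3_2 H_B4_1,
    ECB_5.cell H_B4_1 H_B5_1,
    ECB_6.cell H_B5_1 H_B6_1,
    ECB_7.cell H_B6_1 H_B7_1,
    ECB_8.cell H_B7_1 H_B8_1,
    ECB_9.cell H_B8_1 H_B9_1,
    ECB_10.cell H_B9_1 H_B10_1,
    ECB_11.cell H_B10_1 H_B11_1,
    ECB_12.cell H_B11_1 H_B12_1,
    ECB_13.cell H_B12_1 H_B13_1,
    ECB_14.cell H_B13_1 H_B14_1,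
    ECB_15.cell H_B14_1 H_B15_1,
    ECB_16.cell H_B15_1 H_B16_1,
    ECB_17.cell H_B16_1 H_B17_1,
    ECB_18.cell H_B17_1 H_B18_1,
    ECB_19.cell H_B18_1 H_B19_1,
    ECB_20.cell H_B19_1 H_B20_1⟩

/-- **the certificate of the row B** -/
theorem certB
    (H_B0_0 : CtlL EV_B0_0.sp EV_B0_0.mu EV_B0_0.v EV_B0_0.u)
    (H_B0_1 : CtlL EV_B0_1.sp EV_B0_1.mu EV_B0_1.v EV_B0_1.u)
    (H_B0_2 : CtlL EV_B0_2.sp EV_B0_2.mu EV_B0_2.v EV_B0_2.u)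
    (H_B1_1 : CtlL EV_B1_1.sp EV_B1_1.mu EV_B1_1.v EV_B1_1.u)
    (H_B1_2 : CtlL EV_B1_2.sp EV_B1_2.mu EV_B1_2.v EV_B1_2.u)
    (H_B2_1 : CtlL EV_B2_1.sp EV_B2_1.mu EV_B2_1.v EV_B2_1.u)
    (H_B2_2 : CtlL EV_B2_2.sp EV_B2_2.mu EV_B2_2.v EV_B2_2.u)
    (H_B3_1 : CtlL EV_B3_1.sp EV_B3_1.mu EV_B3_1.v EV_B3_1.u)
    (H_B3_2 : CtlL EV_B3_2.sp EV_B3_2.mu EV_B3_2.v EV_B3_2.u)
    (H_B4_1 : CtlL EV_B4_1.sp EV_B4_1.mu EV_B4_1.v EV_B4_1.u)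
    (H_B5_1 : CtlL EV_B5_1.sp EV_B5_1.mu EV_B5_1.v EV_B5_1.u)
    (H_B6_1 : CtlL EV_B6_1.sp EV_B6_1.mu EV_B6_1.v EV_B6_1.u)
    (H_B7_1 : CtlL EV_B7_1.sp EV_B7_1.mu EV_B7_1.v EV_B7_1.u)
    (H_B8_1 : CtlL EV_B8_1.sp EV_B8_1.mu EV_B8_1.v EV_B8_1.u)
    (H_B9_1 : CtlL EV_B9_1.sp EV_B9_1.mu EV_B9_1.v EV_B9_1.u)
    (H_B10_1 : CtlL EV_B10_1.sp EV_B10_1.mu EV_B10_1.v EV_B10_1.u)
    (H_B11_1 : CtlL EV_B11_1.sp EV_B11_1.mu EV_B11_1.v EV_B11_1.u)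
    (H_B12_1 : CtlL EV_B12_1.sp EV_B12_1.mu EV_B12_1.v EV_B12_1.u)
    (H_B13_1 : CtlL EV_B13_1.sp EV_B13_1.mu EV_B13_1.v EV_B13_1.u)
    (H_B14_1 : CtlL EV_B14_1.sp EV_B14_1.mu EV_B14_1.v EV_B14_1.u)
    (H_B15_1 : CtlL EV_B15_1.sp EV_B15_1.mu EV_B15_1.v EV_B15_1.u)
    (H_B16_1 : CtlL EV_B16_1.sp EV_B16_1.mu EV_B16_1.v EV_B16_1.u)
    (H_B17_1 : CtlL EV_B17_1.sp EV_B17_1.mu EV_B17_1.v EV_B17_1.u)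
    (H_B18_1 : CtlL EV_B18_1.sp EV_B18_1.mu EV_B18_1.v EV_B18_1.u)
    (H_B19_1 : CtlL EV_B19_1.sp EV_B19_1.mu EV_B19_1.v EV_B19_1.u)
    (H_B20_1 : CtlL EV_B20_1.sp EV_B20_1.mu EV_B20_1.v EV_B20_1.u) :
    CertRZ (BkZ D) (WL L m) D.cofZ ((muB : ℚ) : ℝ) ((TB : ℚ) : ℝ) :=
  EJN.certRZ okL subB (allB H_B0_0 H_B0_1 H_B0_2 H_B1_1 H_B1_2 H_B2_1 H_B2_2 H_B3_1 H_B3_2 H_B4_1 H_B5_1 H_B6_1 H_B7_1 H_B8_1 H_B9_1 H_B10_1 H_B11_1 H_B12_1 H_B13_1 H_B14_1 H_B15_1 H_B16_1 H_B17_1 H_B18_1 H_B19_1 H_B20_1)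


end Pool.Agent.FPX.ECLB
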