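import Mathlib
import Pool.Agent.FPX.SWU

/-
FPX, SWH (helper29): the pointwise side of the closing for a list of taxes `ζ` and polygons `P`, from the
Booleans of SWB with integer weights.
-/

open MeasureTheory Set Filter Topology
open scoped ENNReal NNReal

noncomputable section

namespace Pool.Agent.FPX.SWL

open Pool.Agent.EWD Pool.Agent.FPX

theorem zw_ok {S : ℕ} {zw : List (List ℤ × List ℤ)} (h : zw.all (wtZ S) = true) :
    ∀ w ∈ zw.map (wq S), WtP w := fun w hw => by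
  obtain ⟨z, hz, e⟩ := List.mem_map.1 hw
  rw [← e]
  exact wtZ_ok (List.all_eq_true.1 h z hz)

theorem zu_ok {S : ℕ} {zu : List (List ℤ × List ℤ)} (h : zu.all (wtY S) = true) :
    ∀ w ∈ zu.map (wq S), WtQ w := fun w hw => by
  obtain ⟨z, hz, e⟩ := List.mem_map.1 hw
  rw [← e]
  exact wtY_ok (List.all_eq_true.1 h z hz)

/-- **the pointwise inequalities for all taxes** -/
theorem hQ_of {S : ℕ} {zw zu : List (List ℤ × List ℤ)} {lφ : List (ℚ × ℚ)} {ζ : List ℚ}
    {P : List ((ℚ × ℚ) × List (ℚ × ℚ))} {ν₀ r0 : ℚ} {last : ℕ} {c : List (ℚ × ℕ)}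
    {L : List (ℚ × ℚ × ℕ × ℕ)} (hw : zw.all (wtZ S) = true) (hu : zu.all (wtY S) = true)
    (ho : qOk 1 lφ = true) (hi : ixC zw.length last c = true)
    (hL : ixL zw.length zu.length L = true)
    (h : ∀ i, i < P.length → plOk (0, 0) (Pi' P i).1 (Pi' P i).2 = true ∧
      loL lφ (Pi' P i).1 (Pi' P i).2 (ζ.getD i 0) ν₀ = true ∧
      tbL lφ (Pi' P i).1 (Pi' P i).2 (ζ.getD i 0) (zw.map (wq S)) (zu.map (wq S)) last c ν₀ r0 L =
        true) :
    ∀ i, i < P.length → ∃ Q, PWE (pkD 0 1 (clQ lφ))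
      (fun x => plc (0, 0) (Pi' P i).1 (Pi' P i).2 (pkG 0 1 (clQ lφ) x) / 4) 1
      (fun v a b => PE (enb a b) - (ζ.getD i 0 : ℚ) * pkG 0 1 (clQ lφ) (nuv v a b)) Q := fun i hiP => by
  obtain ⟨h1, h2, h3⟩ := h i hiP
  refine tabU_ok ho h1 (zw_ok hw) (zu_ok hu) ?_ ?_ h2 h3
  · rw [List.length_map]
    exact hi
  · rw [List.length_map, List.length_map]
    exact hL

end Pool.Agent.FPX.SWL
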