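import Mathlib
import Pool.Agent.FPX.SWB
import Pool.Agent.FPX.SXCH

/-
FPX, SXCT6 (helper29): data of the pointwise side of the closing: the cells.
-/

namespace Pool.Agent.FPX.SWL

theorem SXC_t12 : plOk (0, 0) (Pi' SXC_P 12).1 (Pi' SXC_P 12).2 = true ∧
    loL SXC_l (Pi' SXC_P 12).1 (Pi' SXC_P 12).2 (SXC_z.getD 12 0) (1) = true ∧
    tbL SXC_l (Pi' SXC_P 12).1 (Pi' SXC_P 12).2 (SXC_z.getD 12 0) (SXC_zw.map (wq 100000))
      (SXC_zu.map (wq 100000)) 36 SXC_c (1) (7071/10000) SXC_L = true :=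
  ⟨by decide +kernel, by decide +kernel, by decide +kernel⟩

end Pool.Agent.FPX.SWL
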