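import Mathlib
import Pool.Agent.FPX.SWH
import Pool.Agent.FPX.SXCW
import Pool.Agent.FPX.SXCT0
import Pool.Agent.FPX.SXCT1
import Pool.Agent.FPX.SXCT2
import Pool.Agent.FPX.SXCT3
import Pool.Agent.FPX.SXCT4
import Pool.Agent.FPX.SXCT5
import Pool.Agent.FPX.SXCT6

/-
FPX, SXCF (helper29): the pointwise side of the closing for the data of SXCH.
-/

namespace Pool.Agent.FPX.SWL

open Pool.Agent.EWD Pool.Agent.FPX

theorem SXC_P_length : SXC_P.length = 13 := rfl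

/-- **the pointwise inequalities of the closing** -/
theorem SXC_hQ : ∀ i, i < SXC_P.length → ∃ Q, PWE (pkD 0 1 (clQ SXC_l))
    (fun x => plc (0, 0) (Pi' SXC_P i).1 (Pi' SXC_P i).2 (pkG 0 1 (clQ SXC_l) x) / 4) 1
    (fun v a b => PE (enb a b) - (SXC_z.getD i 0 : ℚ) * pkG 0 1 (clQ SXC_l) (nuv v a b)) Q := by
  refine hQ_of SXC_w_ok SXC_u_ok SXC_lo SXC_ix SXC_iL (ν₀ := 1) (r0 := 7071/10000) fun i hi => ?_
  rw [SXC_P_length] at hi
  interval_cases i
  · exact SXC_t0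
  · exact SXC_t1
  · exact SXC_t2
  · exact SXC_t3
  · exact SXC_t4
  · exact SXC_t5
  · exact SXC_t6
  · exact SXC_t7
  · exact SXC_t8
  · exact SXC_t9
  · exact SXC_t10
  · exact SXC_t11
  · exact SXC_t12

end Pool.Agent.FPX.SWL
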