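import Mathlib
import Pool.Agent.FPX.ASC
import Pool.Agent.FPX.SXCF
import Pool.Agent.FPX.CTO_A

/-
ECLO (helper58): the closing from the table CTO (data: helper81, polygons: helper29).
-/

namespace Pool.Agent.FPX.ECLO

open Pool.Agent.FPX Pool.Agent.EWD Pool.Agent.FPX.SWL Pool.Agent.FPX.ASX

/-- the penalty -/
def lphi : List (ℚ × ℚ) := CTO.lφ

def c0 : ℚ := CTO.c₀

def X : ℚ := CTO.X

def x1 : ℚ := 1

def xm : ℚ := 7

theorem eP : CTO.P = SXC_P := by decide +kernel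

theorem el : CTO.lφ = SXC_l := by decide +kernel

theorem ez : CTO.ζ = SXC_z := by decide +kernel

theorem closes' : ASX.Closes (pkG 0 1 (clQ CTO.lφ)) ((CTO.c₀ : ℚ) : ℝ) ((CTO.X : ℚ) : ℝ) := by
  refine closes_cols (by decide +kernel) CTO.hd ?_ CTO.hC
  rw [eP, el, ez]
  exact SXC_hQ

/-- **the closing** -/
theorem closes : ASX.Closes (pkG 0 1 (clQ lphi)) ((c0 : ℚ) : ℝ) ((X : ℚ) : ℝ) := closes'

end Pool.Agent.FPX.ECLO
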