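import Mathlib
import Pool.Agent.FPX.ASX

/-
VLH (helper30): the law `pkG 0 1 (clQ lφ)` of the closing B1 against the lines of the V stage: a Boolean check that the
law is below chords on consecutive intervals, and the check of `φ x ≤ x + θ (r x - τ)₊` on `[0, 2 e^{2 c₀}]`.
-/

noncomputable section

namespace Pool.Agent.FPX.VST

open Pool.Agent.FPX Pool.Agent.FPX.ASX Pool.Agent.FPX.VTB

/-- the last point of the list of `(x₁, slope, offset)` -/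
def lnEnd : ℚ → List (ℚ × ℚ × ℚ) → ℚ
  | x, [] => x
  | _, p :: l => lnEnd p.1 l

/-- the law is below the lines on consecutive intervals -/
def lnOk (lφ : List (ℚ × ℚ)) : ℚ → List (ℚ × ℚ × ℚ) → Bool
  | _, [] => true
  | x, p :: l => decide (qG 0 1 lφ x ≤ p.2.1 * x - p.2.2 ∧ qG 0 1 lφ p.1 ≤ p.2.1 * p.1 - p.2.2) && lnOk lφ p.1 l

theorem lnOk_sound {lφ : List (ℚ × ℚ)} (hφ : qOk 1 lφ = true) : ∀ (l : List (ℚ × ℚ × ℚ)) (x₀ : ℚ),
    lnOk lφ x₀ l = true → l ≠ [] → ∀ x : ℝ, (x₀ : ℝ) ≤ x → x ≤ (lnEnd x₀ l : ℚ) →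
      ∃ p ∈ l, pkG 0 1 (clQ lφ) x ≤ p.2.1 * x - p.2.2 := by
  intro l
  induction l with
  | nil =>
    intro x₀ _ h
    exact absurd rfl h
  | cons p l ih =>
    intro x₀ h _ x hx hx1
    rw [lnOk, Bool.and_eq_true] at h
    obtain ⟨h1, h2⟩ := h
    obtain ⟨h3, h4⟩ := of_decide_eq_true h1
    rcases le_total x (p.1 : ℝ) with hxp | hxp
    · refine ⟨p, List.mem_cons_self, ?_⟩
      have := pkG_le_aff hφ (μ := 1) (a := p.2.1) (b := -p.2.2) (x₀ := x₀) (x₁ := p.1) zero_le_one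
        (by rw [one_mul]; linarith) (by rw [one_mul]; linarith) hx hxp
      rw [Rat.cast_one, one_mul, Rat.cast_neg, ← sub_eq_add_neg] at this
      exact this
    · rcases l.eq_nil_or_concat with hl | hl
      · subst hl
        refine ⟨p, List.mem_cons_self, ?_⟩
        have hxe : x = (p.1 : ℝ) := le_antisymm hx1 hxp
        have := pkG_le_aff hφ (μ := 1) (a := p.2.1) (b := -p.2.2) (x₀ := x₀) (x₁ := p.1) zero_le_one
          (by rw [one_mul]; linarith) (by rw [one_mul]; linarith) hx hxe.le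
        rw [Rat.cast_one, one_mul, Rat.cast_neg, ← sub_eq_add_neg] at this
        exact this
      · have hne : l ≠ [] := by
          rintro rfl
          obtain ⟨a, b, hab⟩ := hl
          simp at hab
        obtain ⟨q, hq, hq2⟩ := ih p.1 h2 hne x hxp hx1
        exact ⟨q, List.mem_cons_of_mem _ hq, hq2⟩

/-- the line hypothesis of the V stage -/
theorem line_of {lφ : List (ℚ × ℚ)} (hφ : qOk 1 lφ = true) {l : List (ℚ × ℚ × ℚ)} (hne : l ≠ [])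
    (h : lnOk lφ 0 l = true) {L : List (ℝ × ℝ × ℝ)}
    (hL : ∀ s ∈ l, ∃ p ∈ L, p.1 = (s.2.1 : ℝ) ∧ p.2.1 = (s.2.2 : ℝ)) {c₁ xm : ℚ} (hc : c₁ ≤ 15)
    (hx : 2 * eU c₁ ^ 2 ≤ xm) (he : xm ≤ lnEnd 0 l) :
    ∀ x : ℝ, 0 ≤ x → x ≤ 2 * Real.exp (c₁ : ℝ) ^ 2 → ∃ p ∈ L, pkG 0 1 (clQ lφ) x ≤ p.1 * x - p.2.1 := by
  intro x h0 h1
  have h2 : x ≤ (xm : ℝ) := range_le hc hx h1
  have h3 : (xm : ℝ) ≤ (lnEnd 0 l : ℚ) := by exact_mod_cast he
  obtain ⟨s, hs, hs2⟩ := lnOk_sound hφ l 0 h hne x (by simpa using h0) (h2.trans h3)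
  obtain ⟨p, hp, e1, e2⟩ := hL s hs
  exact ⟨p, hp, by rw [e1, e2]; exact hs2⟩

/-- the second condition, from the check `psOk` -/
theorem theta_of {lφ : List (ℚ × ℚ)} (hφ : qOk 1 lφ = true) {θ r τ c₀ x₁ xm : ℚ} (hθ : 0 ≤ θ)
    (h : psOk 1 (1 + θ * r) (θ * τ) c₀ x₁ xm lφ = true) :
    ∀ x : ℝ, 0 ≤ x → x ≤ 2 * Real.exp (c₀ : ℝ) ^ 2 →
      pkG 0 1 (clQ lφ) x ≤ x + θ * max (r * x - τ) 0 := by
  intro x h0 h1
  have h2 := le_of_psOk hφ h x h0 h1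
  have hθr : (0 : ℝ) ≤ θ := by exact_mod_cast hθ
  have e : XCO.psi2 ((1 : ℚ) : ℝ) ((1 + θ * r : ℚ) : ℝ) ((θ * τ : ℚ) : ℝ) x = x + θ * max (r * x - τ) 0 := by
    unfold XCO.psi2
    push_cast
    rw [mul_max_of_nonneg _ _ hθr, mul_zero, ← max_add_add_left, max_comm]
    congr 1
    · ring
    · ring
  rw [e, Rat.cast_one, one_mul] at h2
  exact h2

/-- the chords of the law LB up to `50`: `(right end, slope, offset)` -/
def lbLn : List (ℚ × ℚ × ℚ) :=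
  [(1, 1, 0), (11 / 10, 51 / 50, 1 / 50), (3 / 2, 21 / 20, 53 / 1000), (2, 27 / 25, 49 / 500),
   (14 / 5, 227 / 200, 26 / 125), (4, 477 / 400, 369 / 1000), (11 / 2, 493 / 400, 529 / 1000),
   (8, 51 / 40, 3051 / 4000), (13, 107 / 80, 5051 / 4000), (25, 563 / 400, 8691 / 4000),
   (50, 291 / 200, 13441 / 4000)]

/-- the law LB -/
def lbL : List (ℚ × ℚ) :=
  [(1, 1), (1 / 10, 26 / 25), (2 / 5, 53 / 50), (1 / 2, 11 / 10), (4 / 5, 117 / 100), (6 / 5, 243 / 200),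
   (3 / 2, 5 / 4), (5 / 2, 13 / 10), (5, 11 / 8), (12, 36 / 25), (25, 147 / 100), (70, 3 / 2)]

theorem lbL_ok : qOk 1 lbL = true := by decide +kernel

theorem lbLn_ok : lnOk lbL 0 lbLn = true := by decide +kernel

end Pool.Agent.FPX.VST
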