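import Mathlib
import Pool.Agent.FPX.ASC
import Pool.Agent.FPX.SXCF
import Pool.Agent.FPX.VLH
import Pool.Agent.FPX.CTP_A

/-
ECLP (helper58): the closing after the V stage, from the table CTP (data: helper81, polygons: helper29).
-/

namespace Pool.Agent.FPX.ECLP

open Pool.Agent.FPX Pool.Agent.EWD Pool.Agent.FPX.SWL Pool.Agent.FPX.ASX

def X : ℚ := CTP.X

theorem eP : CTP.P = SXC_P := by decide +kernel

theorem el : CTP.lφ = SXC_l := by decide +kernel

theorem ez : CTP.ζ = SXC_z := by decide +kernel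

theorem closes' : ASX.Closes (pkG 0 1 (clQ CTP.lφ)) ((CTP.c₀ : ℚ) : ℝ) ((CTP.X : ℚ) : ℝ) := by
  refine closes_cols (by decide +kernel) CTP.hd ?_ CTP.hC
  rw [eP, el, ez]
  exact SXC_hQ

theorem eb : VST.lbL = CTP.lφ := by decide +kernel

theorem ec : (79 / 50 : ℚ) = CTP.c₀ := by decide +kernel

/-- **the closing** -/
theorem closes : ASX.Closes (pkG 0 1 (clQ VST.lbL)) ((79 / 50 : ℚ) : ℝ) ((X : ℚ) : ℝ) := by
  rw [eb, ec]
  exact closes'

end Pool.Agent.FPX.ECLP
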