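import Mathlib
import Pool.Agent.FPX.QSA

/-
QSH (helper50): the modal inequality of QST for Hermitian data. For a Lipschitz function `g` with
`g (t + π) = -g t`, complex Fourier coefficients `u_s = uk g s` (frequency `2 s + 1`), positive Hermitian matrices
`H`, `G` and numbers `η ≥ 0`, `p₀ ≤ η (2 N + 1)²`:
`Σ_r H[(2 s + 1) u] + Σ_r G[u] + Σ_{s} (η (2 s + 1)² - p₀) |u_s|² ≤ mean (g'² (h + η)) + mean (g² (γ - p₀))`,
`h (t) = Σ H k l e^{2 i (k - l) t}`, `γ (t) = Σ G k l e^{2 i (k - l) t}`.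
-/

set_option autoImplicit false

open MeasureTheory Set Filter Topology
open scoped NNReal

noncomputable section

namespace Pool.Agent.FPX.QSH

open Pool.Agent.FPX.UMP.EU Complex
open Pool.Agent.FPX.QST (mn vk uk hs_congr parseval_cos inj_odd odd_sq Wn mem_Wn ca sa uk_nat uk_neg uk_deriv
  deriv_odd tail_sq gs gs' int_lim ac_deriv ac_cont ac_near ac_odd ac_bd ac_lim)

/-! ### Parseval for the products with harmonics -/

theorem parseval_sin {F : ℝ → ℝ} (hF : Continuous F) (n : ℤ) :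
    HasSum (fun k : ℤ => (vk F k * (starRingEnd ℂ) (vk F (k - n))).im)
      (mn fun t => -(F t ^ 2 * Real.sin (n * t))) := by
  have hFc : Continuous fun t => (F t : ℂ) := Complex.continuous_ofReal.comp hF
  have he : Continuous fun t : ℝ => I * ((F t : ℂ) * cexp (I * n * t)) := by fun_prop
  have cG : Continuous fun t => (F t : ℂ) + I * ((F t : ℂ) * cexp (I * n * t)) := hFc.add he
  have pG := parseval cG
  have p0 := parseval hFc
  have e1 : ∀ k, fc (fun t => (F t : ℂ) + I * ((F t : ℂ) * cexp (I * n * t))) k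
      = vk F k + I * vk F (k - n) := by
    intro k
    refine (fc_add hFc he k).trans ?_
    refine congrArg₂ (· + ·) rfl ?_
    rw [fc_mul_const]
    congr 1
    exact fc_shift _ n k
  simp only [e1] at pG
  have p1 : HasSum (fun k : ℤ => ‖vk F (k - n)‖ ^ 2)
      ((2 * Real.pi)⁻¹ * ∫ t in (0 : ℝ)..(2 * Real.pi), ‖(F t : ℂ)‖ ^ 2) := by
    have := (Equiv.subRight n).hasSum_iff (f := fun k : ℤ => ‖vk F k‖ ^ 2)
      (a := (2 * Real.pi)⁻¹ * ∫ t in (0 : ℝ)..(2 * Real.pi), ‖(F t : ℂ)‖ ^ 2)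
    exact this.2 p0
  have key := ((pG.sub p0).sub p1).mul_left (1 / 2 : ℝ)
  have e2 : ∀ k, (1 / 2 : ℝ) * (‖vk F k + I * vk F (k - n)‖ ^ 2 - ‖fc (fun t => (F t : ℂ)) k‖ ^ 2
      - ‖vk F (k - n)‖ ^ 2) = (vk F k * (starRingEnd ℂ) (vk F (k - n))).im := by
    intro k
    change (1 / 2 : ℝ) * (‖vk F k + I * vk F (k - n)‖ ^ 2 - ‖vk F k‖ ^ 2 - ‖vk F (k - n)‖ ^ 2) = _
    rw [nsq, nsq, nsq]
    simp only [Complex.add_re, Complex.add_im, Complex.mul_re, Complex.mul_im, Complex.conj_re, Complex.conj_im,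
      Complex.I_re, Complex.I_im]
    ring
  simp only [e2] at key
  refine hs_congr key ?_
  unfold mn
  have hn : ∀ t : ℝ, ‖(F t : ℂ) + I * ((F t : ℂ) * cexp (I * n * t))‖ ^ 2
      = 2 * F t ^ 2 + 2 * -(F t ^ 2 * Real.sin (n * t)) := by
    intro t
    have e : cexp (I * n * t) = ⟨Real.cos (n * t), Real.sin (n * t)⟩ := by
      have h1 : I * n * t = ((n * t : ℝ) : ℂ) * I := by
        push_cast
        ring
      rw [h1]
      apply Complex.ext
      · rw [Complex.exp_ofReal_mul_I_re]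
      · rw [Complex.exp_ofReal_mul_I_im]
    rw [e, nsq]
    simp only [Complex.add_re, Complex.add_im, Complex.mul_re, Complex.mul_im, Complex.ofReal_re,
      Complex.ofReal_im, Complex.I_re, Complex.I_im]
    have h2 := Real.sin_sq_add_cos_sq (n * t)
    linear_combination (F t ^ 2) * h2
  have hn0 : ∀ t : ℝ, ‖(F t : ℂ)‖ ^ 2 = F t ^ 2 := by
    intro t
    rw [nsq]
    simp
  simp only [hn, hn0]
  have i1 : IntervalIntegrable (fun t => F t ^ 2) volume 0 (2 * Real.pi) :=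
    (hF.pow 2).intervalIntegrable _ _
  have i2 : IntervalIntegrable (fun t => -(F t ^ 2 * Real.sin (n * t))) volume 0 (2 * Real.pi) :=
    ((hF.pow 2).mul (by fun_prop)).neg.intervalIntegrable _ _
  rw [intervalIntegral.integral_add (i1.const_mul 2) (i2.const_mul 2),
    intervalIntegral.integral_const_mul, intervalIntegral.integral_const_mul]
  ring

/-- the complex moments `mean (F² e^{-2 i m t})` -/
def cm (F : ℝ → ℝ) (m : ℤ) : ℂ :=
  ⟨mn fun t => F t ^ 2 * Real.cos (2 * m * t), mn fun t => -(F t ^ 2 * Real.sin (2 * m * t))⟩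

theorem odd_cm {F : ℝ → ℝ} (hF : Continuous F) (ho : ∀ t, F (t + Real.pi) = -F t) (m : ℤ) :
    HasSum (fun s : ℤ => uk F s * (starRingEnd ℂ) (uk F (s - m))) (cm F m) := by
  rw [Complex.hasSum_iff]
  refine ⟨QST.odd_cos hF ho m, ?_⟩
  have h := parseval_sin hF (2 * m)
  have h0 : ∀ k, k ∉ Set.range (fun s : ℤ => 2 * s + 1) →
      (vk F k * (starRingEnd ℂ) (vk F (k - 2 * m))).im = 0 := by
    intro k hk
    obtain ⟨j, rfl⟩ : ∃ j, k = 2 * j := by
      rcases Int.even_or_odd k with ⟨j, hj⟩ | ⟨j, hj⟩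
      · exact ⟨j, by omega⟩
      · exact absurd ⟨j, hj.symm⟩ hk
    have : vk F (2 * j) = 0 := fc_even (Complex.continuous_ofReal.comp hF) (fun t => by
      simp only [Function.comp, ho t, Complex.ofReal_neg]) j
    rw [this]
    simp
  have h1 := (inj_odd.hasSum_iff h0).2 h
  have e1 : (fun s : ℤ => (uk F s * (starRingEnd ℂ) (uk F (s - m))).im)
      = (fun k : ℤ => (vk F k * (starRingEnd ℂ) (vk F (k - 2 * m))).im) ∘ fun s : ℤ => 2 * s + 1 := by
    funext s
    simp only [Function.comp, uk]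
    congr 4
    ring
  rw [e1]
  refine hs_congr h1 ?_
  simp only [cm]
  congr 1
  funext t
  push_cast
  ring_nf

/-! ### the positive part -/

/-- the trigonometric polynomial of a Hermitian matrix -/
def hc (K : ℕ) (H : ℕ → ℕ → ℂ) (t : ℝ) : ℝ :=
  ∑ k ∈ Finset.range (K + 1), ∑ l ∈ Finset.range (K + 1),
    ((H k l).re * Real.cos (2 * ((k : ℤ) - l : ℤ) * t) - (H k l).im * Real.sin (2 * ((k : ℤ) - l : ℤ) * t))

/-- the value of the form at the window `r` -/
def wv (K : ℕ) (H : ℕ → ℕ → ℂ) (y : ℤ → ℂ) (r : ℤ) : ℝ :=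
  (∑ k ∈ Finset.range (K + 1), ∑ l ∈ Finset.range (K + 1), H k l * (y (r - k) * (starRingEnd ℂ) (y (r - l)))).re

/-- positive Hermitian forms -/
def Psd (K : ℕ) (H : ℕ → ℕ → ℂ) : Prop :=
  ∀ v : ℕ → ℂ, 0 ≤ (∑ k ∈ Finset.range (K + 1), ∑ l ∈ Finset.range (K + 1), H k l * (v k * (starRingEnd ℂ) (v l))).re

theorem wv_nonneg {K : ℕ} {H : ℕ → ℕ → ℂ} (hH : Psd K H) (y : ℤ → ℂ) (r : ℤ) : 0 ≤ wv K H y r :=
  hH fun k => y (r - k)

theorem hc_cont (K : ℕ) (H : ℕ → ℕ → ℂ) : Continuous (hc K H) := by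
  unfold hc
  fun_prop

theorem hasSum_wv {F : ℝ → ℝ} (hF : Continuous F) (ho : ∀ t, F (t + Real.pi) = -F t) (K : ℕ) (H : ℕ → ℕ → ℂ) :
    HasSum (fun r : ℤ => wv K H (uk F) r) (mn fun t => F t ^ 2 * hc K H t) := by
  have h1 : ∀ k l : ℕ, HasSum (fun r : ℤ => (H k l * (uk F (r - k) * (starRingEnd ℂ) (uk F (r - l)))).re)
      (mn fun t => F t ^ 2 * ((H k l).re * Real.cos (2 * ((k : ℤ) - l : ℤ) * t)
        - (H k l).im * Real.sin (2 * ((k : ℤ) - l : ℤ) * t))) := by
    intro k l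
    have h2 := odd_cm hF ho ((l : ℤ) - k)
    have h3 := (Equiv.subRight (k : ℤ)).hasSum_iff
      (f := fun s : ℤ => uk F s * (starRingEnd ℂ) (uk F (s - ((l : ℤ) - k)))) (a := cm F ((l : ℤ) - k))
    have h4 := (Complex.hasSum_iff _ _).1 ((h3.2 h2).mul_left (H k l))
    have h5 : (fun r : ℤ => (H k l * (uk F (r - k) * (starRingEnd ℂ) (uk F (r - l)))).re)
        = fun r : ℤ => (H k l * ((fun s : ℤ => uk F s * (starRingEnd ℂ) (uk F (s - ((l : ℤ) - k))))
          ∘ (Equiv.subRight (k : ℤ))) r).re := by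
      funext r
      simp only [Function.comp, Equiv.subRight_apply]
      rw [show r - (k : ℤ) - ((l : ℤ) - k) = r - l by ring]
    rw [h5]
    refine hs_congr h4.1 ?_
    have i1 : IntervalIntegrable (fun t => F t ^ 2 * Real.cos (2 * ((l : ℤ) - k : ℤ) * t)) volume 0
        (2 * Real.pi) := ((hF.pow 2).mul (by fun_prop)).intervalIntegrable _ _
    have i2 : IntervalIntegrable (fun t => -(F t ^ 2 * Real.sin (2 * ((l : ℤ) - k : ℤ) * t))) volume 0
        (2 * Real.pi) := ((hF.pow 2).mul (by fun_prop)).neg.intervalIntegrable _ _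
    rw [Complex.mul_re]
    simp only [cm]
    unfold mn
    rw [mul_left_comm, mul_left_comm (H k l).im, ← mul_sub, ← intervalIntegral.integral_const_mul,
      ← intervalIntegral.integral_const_mul, ← intervalIntegral.integral_sub (i1.const_mul _) (i2.const_mul _)]
    congr 1
    refine intervalIntegral.integral_congr fun t _ => ?_
    have e1 : Real.cos (2 * ((l : ℤ) - k : ℤ) * t) = Real.cos (2 * ((k : ℤ) - l : ℤ) * t) := by
      rw [← Real.cos_neg]
      congr 1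
      push_cast
      ring
    have e2 : Real.sin (2 * ((l : ℤ) - k : ℤ) * t) = -Real.sin (2 * ((k : ℤ) - l : ℤ) * t) := by
      rw [← Real.sin_neg]
      congr 1
      push_cast
      ring
    simp only [e1, e2]
    ring
  have h5 := hasSum_sum (s := Finset.range (K + 1)) fun k _ => hasSum_sum (s := Finset.range (K + 1))
    fun l _ => h1 k l
  have e5 : (fun r : ℤ => wv K H (uk F) r) = fun r : ℤ => ∑ k ∈ Finset.range (K + 1), ∑ l ∈ Finset.range (K + 1),
      (H k l * (uk F (r - k) * (starRingEnd ℂ) (uk F (r - l)))).re := by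
    funext r
    simp only [wv, Complex.re_sum]
  rw [e5]
  refine hs_congr h5 ?_
  have i0 : ∀ k l : ℕ, IntervalIntegrable (fun t => F t ^ 2 * ((H k l).re * Real.cos (2 * ((k : ℤ) - l : ℤ) * t)
        - (H k l).im * Real.sin (2 * ((k : ℤ) - l : ℤ) * t))) volume 0 (2 * Real.pi) := fun k l =>
    ((hF.pow 2).mul (by fun_prop)).intervalIntegrable _ _
  have i1 : ∀ k : ℕ, IntervalIntegrable (fun t => ∑ l ∈ Finset.range (K + 1), F t ^ 2 * ((H k l).re * Real.cos (2 * ((k : ℤ) - l : ℤ) * t)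
        - (H k l).im * Real.sin (2 * ((k : ℤ) - l : ℤ) * t))) volume 0 (2 * Real.pi) := fun k =>
    (continuous_finsetSum _ fun l _ => (hF.pow 2).mul (by fun_prop)).intervalIntegrable _ _
  unfold mn hc
  simp only [Finset.mul_sum]
  rw [intervalIntegral.integral_finsetSum fun k _ => i1 k, Finset.mul_sum]
  refine Finset.sum_congr rfl fun k _ => ?_
  rw [intervalIntegral.integral_finsetSum fun l _ => i0 k l, Finset.mul_sum]

/-- **the positive part** -/
theorem part_c {F : ℝ → ℝ} (hF : Continuous F) (ho : ∀ t, F (t + Real.pi) = -F t) {K : ℕ} {H : ℕ → ℕ → ℂ}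
    (hH : Psd K H) (S : Finset ℤ) : ∑ r ∈ S, wv K H (uk F) r ≤ mn fun t => F t ^ 2 * hc K H t :=
  sum_le_hasSum S (fun r _ => wv_nonneg hH _ r) (hasSum_wv hF ho K H)

/-! ### the inequality for functions of class `C¹` -/

/-- multiplication by the frequency -/
def fr (y : ℤ → ℂ) (s : ℤ) : ℂ := ((2 * s + 1 : ℝ) : ℂ) * y s

theorem wv_deriv {g g' : ℝ → ℝ} (hd : ∀ t, HasDerivAt g (g' t) t) (hc' : Continuous g')
    (ho : ∀ t, g (t + Real.pi) = -g t) (K : ℕ) (H : ℕ → ℕ → ℂ) (r : ℤ) :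
    wv K H (uk g') r = wv K H (fr (uk g)) r := by
  unfold wv
  congr 1
  refine Finset.sum_congr rfl fun k _ => Finset.sum_congr rfl fun l _ => ?_
  congr 1
  rw [uk_deriv hd hc' ho, uk_deriv hd hc' ho]
  simp only [fr, map_mul, Complex.conj_I, Complex.conj_ofReal]
  have hI : I * -I = 1 := by
    rw [mul_neg, Complex.I_mul_I, neg_neg]
  linear_combination (((2 * (r - k : ℤ) + 1 : ℝ) : ℂ) * uk g (r - k) * (((2 * (r - l : ℤ) + 1 : ℝ) : ℂ)
    * (starRingEnd ℂ) (uk g (r - l)))) * hI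

theorem part_e {g g' : ℝ → ℝ} (hd : ∀ t, HasDerivAt g (g' t) t) (hc' : Continuous g')
    (ho : ∀ t, g (t + Real.pi) = -g t) {N : ℕ} {eta p0 : ℝ} (he : 0 ≤ eta) (hT : p0 ≤ eta * (2 * N + 1) ^ 2) :
    ∑ s ∈ Wn N, (eta * (2 * s + 1) ^ 2 - p0) * ‖uk g s‖ ^ 2
      ≤ eta * (mn fun t => g' t ^ 2) - p0 * mn fun t => g t ^ 2 := by
  have hg : Continuous g := continuous_iff_continuousAt.2 fun t => (hd t).continuousAt
  have hA := odd_sq hg ho
  have hB : HasSum (fun s : ℤ => (2 * (s : ℝ) + 1) ^ 2 * ‖uk g s‖ ^ 2) (mn fun t => g' t ^ 2) := by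
    have h := odd_sq hc' (deriv_odd hd ho)
    convert h using 1
    funext s
    rw [uk_deriv hd hc' ho s, norm_mul, norm_mul, Complex.norm_I, one_mul, mul_pow, Complex.norm_real,
      Real.norm_eq_abs, sq_abs]
  have hS := (hB.mul_left eta).sub (hA.mul_left p0)
  have e : (fun s : ℤ => eta * ((2 * (s : ℝ) + 1) ^ 2 * ‖uk g s‖ ^ 2) - p0 * ‖uk g s‖ ^ 2)
      = fun s : ℤ => (eta * (2 * s + 1) ^ 2 - p0) * ‖uk g s‖ ^ 2 := by
    funext s
    ring
  rw [e] at hS
  refine sum_le_hasSum (Wn N) (fun s hs => mul_nonneg ?_ (sq_nonneg _)) hS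
  have h3 := mul_le_mul_of_nonneg_left (tail_sq hs) he
  linarith

/-- the finite form -/
def Fin0 (N K J : ℕ) (H G : ℕ → ℕ → ℂ) (eta p0 : ℝ) (u : ℤ → ℂ) : ℝ :=
  ∑ r ∈ Finset.Ico ((K : ℤ) - N) N, wv K H (fr u) r + ∑ r ∈ Finset.Ico ((J : ℤ) - N) N, wv J G u r
    + ∑ s ∈ Wn N, (eta * (2 * s + 1) ^ 2 - p0) * ‖u s‖ ^ 2

theorem main_C1 {g g' : ℝ → ℝ} (hd : ∀ t, HasDerivAt g (g' t) t) (hc' : Continuous g')
    (ho : ∀ t, g (t + Real.pi) = -g t) {N K J : ℕ} {H G : ℕ → ℕ → ℂ} (hH : Psd K H) (hG : Psd J G)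
    {eta p0 : ℝ} (he : 0 ≤ eta) (hT : p0 ≤ eta * (2 * N + 1) ^ 2) :
    Fin0 N K J H G eta p0 (uk g) ≤ (mn fun t => g' t ^ 2 * hc K H t) + eta * (mn fun t => g' t ^ 2)
      + ((mn fun t => g t ^ 2 * hc J G t) - p0 * mn fun t => g t ^ 2) := by
  have hg : Continuous g := continuous_iff_continuousAt.2 fun t => (hd t).continuousAt
  have h1 := part_c hc' (deriv_odd hd ho) hH (Finset.Ico ((K : ℤ) - N) N)
  simp only [wv_deriv hd hc' ho] at h1
  have h2 := part_c hg ho hG (Finset.Ico ((J : ℤ) - N) N)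
  have h3 := part_e hd hc' ho he hT
  unfold Fin0
  linarith

/-! ### Lipschitz functions -/

theorem wv_cont (K : ℕ) (H : ℕ → ℕ → ℂ) (r : ℤ) : Continuous fun y : ℤ → ℂ => wv K H y r := by
  unfold wv
  refine Complex.continuous_re.comp (continuous_finsetSum _ fun k _ => continuous_finsetSum _ fun l _ =>
    continuous_const.mul ((continuous_apply _).mul (Complex.continuous_conj.comp (continuous_apply _))))

theorem fr_cont : Continuous fr := by
  refine continuous_pi fun s => ?_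
  unfold fr
  exact continuous_const.mul (continuous_apply _)

theorem Fin0_cont (N K J : ℕ) (H G : ℕ → ℕ → ℂ) (eta p0 : ℝ) : Continuous (Fin0 N K J H G eta p0) := by
  unfold Fin0
  refine ((continuous_finsetSum _ fun r _ => (wv_cont K H r).comp fr_cont).add
    (continuous_finsetSum _ fun r _ => wv_cont J G r)).add (continuous_finsetSum _ fun s _ => ?_)
  exact continuous_const.mul ((continuous_apply s).norm.pow 2)

section lim

variable {g : ℝ → ℝ} {C : ℝ≥0} (hL : LipschitzWith C g)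
include hL

theorem lim_gs (t : ℝ) : Tendsto (fun d => gs g d t) (𝓝[>] 0) (𝓝 (g t)) := by
  rw [tendsto_iff_norm_sub_tendsto_zero]
  have h1 : Tendsto (fun d : ℝ => (C : ℝ) * d) (𝓝[>] 0) (𝓝 (C * 0)) :=
    (tendsto_id.mono_left nhdsWithin_le_nhds).const_mul _
  rw [mul_zero] at h1
  refine squeeze_zero' (Eventually.of_forall fun d => norm_nonneg _) ?_ h1
  filter_upwards [self_mem_nhdsWithin] with d hd
  rw [Real.norm_eq_abs]
  exact ac_near hL hd t

theorem bd_gs : ∃ B : ℝ, 0 ≤ B ∧ ∀ᶠ d in 𝓝[>] (0 : ℝ), ∀ t ∈ Set.uIoc (0 : ℝ) (2 * Real.pi), |gs g d t| ≤ B := by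
  obtain ⟨C0, hC0⟩ := isCompact_Icc.exists_bound_of_continuousOn
    (s := Icc (0 : ℝ) (2 * Real.pi)) (f := g) hL.continuous.continuousOn
  have hC00 : 0 ≤ C0 := (norm_nonneg _).trans (hC0 0 ⟨le_rfl, by positivity⟩)
  refine ⟨C0 + C, add_nonneg hC00 C.coe_nonneg, ?_⟩
  have h1 : ∀ᶠ d in 𝓝[>] (0 : ℝ), d < 1 :=
    (tendsto_id.mono_left nhdsWithin_le_nhds).eventually (gt_mem_nhds one_pos)
  filter_upwards [self_mem_nhdsWithin, h1] with d hd hd1 t ht
  have hd0 : 0 < d := hd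
  have h2 := ac_near hL hd0 t
  rw [Set.uIoc_of_le (by positivity)] at ht
  have h3 := hC0 t ⟨ht.1.le, ht.2⟩
  rw [Real.norm_eq_abs] at h3
  have h4 : |gs g d t| ≤ |gs g d t - g t| + |g t| := by
    have := abs_add_le (gs g d t - g t) (g t)
    rwa [sub_add_cancel] at this
  have h5 : (C : ℝ) * d ≤ C * 1 := mul_le_mul_of_nonneg_left hd1.le C.coe_nonneg
  linarith

theorem cont_gs (d : ℝ) : Continuous (gs g d) :=
  continuous_iff_continuousAt.2 fun t => (ac_deriv hL d t).continuousAt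

theorem lim_ca (i : ℕ) : Tendsto (fun d => ca (gs g d) i) (𝓝[>] 0) (𝓝 (ca g i)) := by
  obtain ⟨B, hB, hbd⟩ := bd_gs hL
  unfold ca
  refine (int_lim (F := fun d t => gs g d t * Real.cos ((2 * i + 1) * t)) (C := B)
    (fun d => (cont_gs hL d).mul (by fun_prop)) ?_ fun t => (lim_gs hL t).mul_const _).const_mul _
  filter_upwards [hbd] with d hd t ht
  rw [abs_mul]
  calc |gs g d t| * |Real.cos ((2 * i + 1) * t)| ≤ B * 1 :=
      mul_le_mul (hd t ht) (Real.abs_cos_le_one _) (abs_nonneg _) hB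
    _ = B := mul_one _

theorem lim_sa (i : ℕ) : Tendsto (fun d => sa (gs g d) i) (𝓝[>] 0) (𝓝 (sa g i)) := by
  obtain ⟨B, hB, hbd⟩ := bd_gs hL
  unfold sa
  refine (int_lim (F := fun d t => gs g d t * Real.sin ((2 * i + 1) * t)) (C := B)
    (fun d => (cont_gs hL d).mul (by fun_prop)) ?_ fun t => (lim_gs hL t).mul_const _).const_mul _
  filter_upwards [hbd] with d hd t ht
  rw [abs_mul]
  calc |gs g d t| * |Real.sin ((2 * i + 1) * t)| ≤ B * 1 :=
      mul_le_mul (hd t ht) (Real.abs_sin_le_one _) (abs_nonneg _) hB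
    _ = B := mul_one _

theorem lim_uk (s : ℤ) : Tendsto (fun d => uk (gs g d) s) (𝓝[>] 0) (𝓝 (uk g s)) := by
  have key : ∀ i : ℕ, Tendsto (fun d => uk (gs g d) (i : ℤ)) (𝓝[>] 0) (𝓝 (uk g (i : ℤ))) := by
    intro i
    have e : ∀ d, uk (gs g d) (i : ℤ) = ((ca (gs g d) i : ℝ) : ℂ) / 2 - ((sa (gs g d) i : ℝ) : ℂ) / 2 * I := by
      intro d
      rw [uk_nat (cont_gs hL d)]
      apply Complex.ext
      · simp
      · simp
        ring
    have e' : uk g (i : ℤ) = ((ca g i : ℝ) : ℂ) / 2 - ((sa g i : ℝ) : ℂ) / 2 * I := by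
      rw [uk_nat hL.continuous]
      apply Complex.ext
      · simp
      · simp
        ring
    simp only [e, e']
    exact (((Complex.continuous_ofReal.tendsto _).comp (lim_ca hL i)).div_const _).sub
      ((((Complex.continuous_ofReal.tendsto _).comp (lim_sa hL i)).div_const _).mul_const _)
  rcases lt_or_ge s 0 with h | h
  · obtain ⟨i, hi⟩ : ∃ i : ℕ, s = -(i : ℤ) - 1 := ⟨(-s - 1).toNat, by
      rw [Int.toNat_of_nonneg (by omega)]
      ring⟩
    rw [hi]
    simp only [uk_neg]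
    exact (Complex.continuous_conj.tendsto _).comp (key i)
  · obtain ⟨i, rfl⟩ : ∃ i : ℕ, s = (i : ℤ) := ⟨s.toNat, (Int.toNat_of_nonneg h).symm⟩
    exact key i

theorem lim_sq {q : ℝ → ℝ} (hq : Continuous q) :
    Tendsto (fun d => mn fun t => gs g d t ^ 2 * q t) (𝓝[>] 0) (𝓝 (mn fun t => g t ^ 2 * q t)) := by
  obtain ⟨B, hB, hbd⟩ := bd_gs hL
  obtain ⟨C1, hC1⟩ := isCompact_Icc.exists_bound_of_continuousOn
    (s := Icc (0 : ℝ) (2 * Real.pi)) (f := q) hq.continuousOn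
  unfold mn
  refine (int_lim (F := fun d t => gs g d t ^ 2 * q t) (C := B ^ 2 * C1)
    (fun d => ((cont_gs hL d).pow 2).mul hq) ?_ fun t => ((lim_gs hL t).pow 2).mul_const _).const_mul _
  filter_upwards [hbd] with d hd t ht
  rw [abs_mul, abs_pow]
  have ht' := ht
  rw [Set.uIoc_of_le (by positivity)] at ht'
  have h3 := hC1 t ⟨ht'.1.le, ht'.2⟩
  rw [Real.norm_eq_abs] at h3
  exact mul_le_mul (pow_le_pow_left₀ (abs_nonneg _) (hd t ht) 2) h3 (abs_nonneg _) (by positivity)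

theorem lim_dsq {q : ℝ → ℝ} (hq : Continuous q) :
    Tendsto (fun d => mn fun t => gs' g d t ^ 2 * q t) (𝓝[>] 0) (𝓝 (mn fun t => deriv g t ^ 2 * q t)) := by
  obtain ⟨C2, hC2⟩ := isCompact_Icc.exists_bound_of_continuousOn
    (s := Icc (0 : ℝ) (2 * Real.pi)) (f := q) hq.continuousOn
  unfold mn
  refine Tendsto.const_mul _ ?_
  refine intervalIntegral.tendsto_integral_filter_of_dominated_convergence (fun _ => (C : ℝ) ^ 2 * C2)
    (Eventually.of_forall fun d => (((ac_cont hL d).pow 2).mul hq).aestronglyMeasurable) ?_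
    intervalIntegrable_const ?_
  · filter_upwards [self_mem_nhdsWithin] with d hd
    have hd0 : 0 < d := hd
    refine Eventually.of_forall fun t ht => ?_
    rw [Set.uIoc_of_le (by positivity)] at ht
    have h3 := hC2 t ⟨ht.1.le, ht.2⟩
    rw [Real.norm_eq_abs] at h3 ⊢
    rw [abs_mul, abs_pow]
    exact mul_le_mul (pow_le_pow_left₀ (abs_nonneg _) (ac_bd hL hd0 t) 2) h3 (abs_nonneg _) (by positivity)
  · filter_upwards [hL.ae_differentiableAt_real] with t ht _
    exact ((ac_lim ht).pow 2).mul_const _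

end lim

/-- **the modal inequality for Lipschitz functions** -/
theorem main {g : ℝ → ℝ} {C : ℝ≥0} (hL : LipschitzWith C g) (ho : ∀ t, g (t + Real.pi) = -g t) {N K J : ℕ}
    {H G : ℕ → ℕ → ℂ} (hH : Psd K H) (hG : Psd J G) {eta p0 : ℝ} (he : 0 ≤ eta)
    (hT : p0 ≤ eta * (2 * N + 1) ^ 2) :
    Fin0 N K J H G eta p0 (uk g) ≤ (mn fun t => deriv g t ^ 2 * hc K H t) + eta * (mn fun t => deriv g t ^ 2)
      + ((mn fun t => g t ^ 2 * hc J G t) - p0 * mn fun t => g t ^ 2) := by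
  have h1 := lim_dsq hL (hc_cont K H)
  have h2 := lim_dsq hL (continuous_const (y := (1 : ℝ)))
  have h3 := lim_sq hL (hc_cont J G)
  have h4 := lim_sq hL (continuous_const (y := (1 : ℝ)))
  simp only [mul_one] at h2 h4
  have h5 : Tendsto (fun d => Fin0 N K J H G eta p0 (uk (gs g d))) (𝓝[>] 0)
      (𝓝 (Fin0 N K J H G eta p0 (uk g))) :=
    ((Fin0_cont N K J H G eta p0).tendsto _).comp (tendsto_pi_nhds.2 fun s => lim_uk hL s)
  refine le_of_tendsto_of_tendsto h5 ((h1.add (h2.const_mul eta)).add (h3.sub (h4.const_mul p0))) ?_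
  exact Eventually.of_forall fun d => main_C1 (ac_deriv hL d) (ac_cont hL d) (ac_odd hL ho d) hH hG he hT

end Pool.Agent.FPX.QSH
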