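import Mathlib
import Pool.Agent.FPX.QSH
import Pool.Agent.FPX.ALX

/-
MOD (helper50): the modal certificate in the visual angle. For a state `X` of the class `St s`, `s ≤ s'`, a
positive Hermitian multiplier `W` of the slope constraint (weight `w = Σ W k l e^{2 i (k - l) a} + ω ≥ 0`), a
positive matrix `G` for `X²` and `p₀ ≤ ω c² (2 N + 1)²` one has a finite quadratic form in the modes of `X`
below `mean (X² γ) - p₀ mean (X²)`.
-/

set_option autoImplicit false

open MeasureTheory Set Filter Topology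
open scoped NNReal

noncomputable section

namespace Pool.Agent.FPX.MOD

open Complex
open Pool.Agent.FPX.QST (mn uk Wn ca sa)
open Pool.Agent.FPX.QSH (hc wv Psd fr)
open Pool.Agent.FPX.ALX (St D2)

/-! ### sums against a matrix -/

/-- the sum of a matrix against a kernel -/
def lam (K : ℕ) (A τ : ℕ → ℕ → ℂ) : ℂ :=
  ∑ k ∈ Finset.range (K + 1), ∑ l ∈ Finset.range (K + 1), A k l * τ k l

theorem lam_add (K : ℕ) (A B τ : ℕ → ℕ → ℂ) : lam K (fun k l => A k l + B k l) τ = lam K A τ + lam K B τ := by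
  unfold lam
  rw [← Finset.sum_add_distrib]
  refine Finset.sum_congr rfl fun k _ => ?_
  rw [← Finset.sum_add_distrib]
  exact Finset.sum_congr rfl fun l _ => add_mul _ _ _

/-- the coefficients of the convolution with `(a, b)` -/
def dl (a b : ℝ) (k k' : ℕ) : ℝ := (if k = k' then a else 0) + if k = k' + 1 then b else 0

theorem sum_dl (a b : ℝ) {K k' : ℕ} (hk : k' ∈ Finset.range (K + 1)) (f : ℕ → ℂ) :
    ∑ k ∈ Finset.range (K + 2), ((dl a b k k' : ℝ) : ℂ) * f k = a * f k' + b * f (k' + 1) := by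
  have h1 : k' ∈ Finset.range (K + 2) := Finset.mem_range.2 (by have := Finset.mem_range.1 hk; omega)
  have h2 : k' + 1 ∈ Finset.range (K + 2) := Finset.mem_range.2 (by have := Finset.mem_range.1 hk; omega)
  have e : ∀ k, ((dl a b k k' : ℝ) : ℂ) * f k = (if k = k' then (a : ℂ) * f k else 0)
      + if k = k' + 1 then (b : ℂ) * f k else 0 := by
    intro k
    unfold dl
    split_ifs <;> push_cast <;> ring
  simp only [e]
  rw [Finset.sum_add_distrib, Finset.sum_ite_eq' (Finset.range (K + 2)) k' fun k => (a : ℂ) * f k, if_pos h1,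
    Finset.sum_ite_eq' (Finset.range (K + 2)) (k' + 1) fun k => (b : ℂ) * f k, if_pos h2]

/-- the matrix convolved with `(a, b)` -/
def cv (K : ℕ) (a b : ℝ) (A : ℕ → ℕ → ℂ) (k l : ℕ) : ℂ :=
  ∑ k' ∈ Finset.range (K + 1), ∑ l' ∈ Finset.range (K + 1), A k' l' * (((dl a b k k' : ℝ) : ℂ) * ((dl a b l l' : ℝ) : ℂ))

theorem lam_cv (K : ℕ) (a b : ℝ) (A τ : ℕ → ℕ → ℂ) : lam (K + 1) (cv K a b A) τ
    = lam K A fun k l => a * (a * τ k l + b * τ k (l + 1)) + b * (a * τ (k + 1) l + b * τ (k + 1) (l + 1)) := by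
  unfold lam cv
  have e1 : ∀ k l, (∑ k' ∈ Finset.range (K + 1), ∑ l' ∈ Finset.range (K + 1),
      A k' l' * (((dl a b k k' : ℝ) : ℂ) * ((dl a b l l' : ℝ) : ℂ))) * τ k l
      = ∑ k' ∈ Finset.range (K + 1), ∑ l' ∈ Finset.range (K + 1),
        A k' l' * (((dl a b k k' : ℝ) : ℂ) * (((dl a b l l' : ℝ) : ℂ) * τ k l)) := by
    intro k l
    rw [Finset.sum_mul]
    refine Finset.sum_congr rfl fun k' _ => ?_
    rw [Finset.sum_mul]
    exact Finset.sum_congr rfl fun l' _ => by ring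
  simp only [e1]
  -- move the sums over `k'`, `l'` outside
  have e2 : (∑ k ∈ Finset.range (K + 1 + 1), ∑ l ∈ Finset.range (K + 1 + 1), ∑ k' ∈ Finset.range (K + 1),
      ∑ l' ∈ Finset.range (K + 1), A k' l' * (((dl a b k k' : ℝ) : ℂ) * (((dl a b l l' : ℝ) : ℂ) * τ k l)))
      = ∑ k' ∈ Finset.range (K + 1), ∑ l' ∈ Finset.range (K + 1), A k' l' * ∑ k ∈ Finset.range (K + 1 + 1),
        ((dl a b k k' : ℝ) : ℂ) * ∑ l ∈ Finset.range (K + 1 + 1), ((dl a b l l' : ℝ) : ℂ) * τ k l := by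
    have f1 : ∀ k, (∑ l ∈ Finset.range (K + 1 + 1), ∑ k' ∈ Finset.range (K + 1),
        ∑ l' ∈ Finset.range (K + 1), A k' l' * (((dl a b k k' : ℝ) : ℂ) * (((dl a b l l' : ℝ) : ℂ) * τ k l)))
        = ∑ k' ∈ Finset.range (K + 1), ∑ l' ∈ Finset.range (K + 1), A k' l' * (((dl a b k k' : ℝ) : ℂ)
          * ∑ l ∈ Finset.range (K + 1 + 1), ((dl a b l l' : ℝ) : ℂ) * τ k l) := by
      intro k
      rw [Finset.sum_comm]
      refine Finset.sum_congr rfl fun k' _ => ?_
      rw [Finset.sum_comm]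
      refine Finset.sum_congr rfl fun l' _ => ?_
      rw [Finset.mul_sum, Finset.mul_sum]
    simp only [f1]
    rw [Finset.sum_comm]
    refine Finset.sum_congr rfl fun k' _ => ?_
    rw [Finset.sum_comm]
    refine Finset.sum_congr rfl fun l' _ => ?_
    rw [Finset.mul_sum]
  rw [e2]
  refine Finset.sum_congr rfl fun k' hk => Finset.sum_congr rfl fun l' hl => ?_
  congr 1
  have e3 : ∀ k, ∑ l ∈ Finset.range (K + 1 + 1), ((dl a b l l' : ℝ) : ℂ) * τ k l
      = a * τ k l' + b * τ k (l' + 1) := fun k => sum_dl a b hl _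
  simp only [e3]
  exact sum_dl a b hk _

/-- the constant matrix on the first two indices -/
def on2 (x : ℝ) (k l : ℕ) : ℂ := if k ≤ 1 ∧ l ≤ 1 then (x : ℂ) else 0

theorem sum_le1 (K : ℕ) (f : ℕ → ℂ) :
    ∑ l ∈ Finset.range (K + 1 + 1), (if l ≤ 1 then f l else 0) = f 0 + f 1 := by
  rw [Finset.sum_range_succ', Finset.sum_range_succ']
  have : ∀ l : ℕ, ¬ (l + 1 + 1 ≤ 1) := fun l => by omega
  simp only [this, if_false, Finset.sum_const_zero, zero_add, zero_le, if_true, le_refl]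
  ring

theorem lam_on2 (K : ℕ) (x : ℝ) (τ : ℕ → ℕ → ℂ) :
    lam (K + 1) (on2 x) τ = x * (τ 0 0 + τ 0 1 + (τ 1 0 + τ 1 1)) := by
  unfold lam
  have h1 : ∀ k, ∑ l ∈ Finset.range (K + 1 + 1), on2 x k l * τ k l
      = if k ≤ 1 then (x : ℂ) * (τ k 0 + τ k 1) else 0 := by
    intro k
    by_cases hk : k ≤ 1
    · rw [if_pos hk, mul_add, ← sum_le1 K fun l => (x : ℂ) * τ k l]
      refine Finset.sum_congr rfl fun l _ => ?_
      unfold on2
      by_cases hl : l ≤ 1
      · rw [if_pos ⟨hk, hl⟩, if_pos hl]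
      · rw [if_neg fun h => hl h.2, if_neg hl, zero_mul]
    · rw [if_neg hk]
      refine Finset.sum_eq_zero fun l _ => ?_
      unfold on2
      rw [if_neg fun h => hk h.1, zero_mul]
  simp only [h1]
  rw [sum_le1 K fun k => (x : ℂ) * (τ k 0 + τ k 1)]
  ring

/-- the kernel of a trigonometric polynomial -/
def te (t : ℝ) (k l : ℕ) : ℂ :=
  ((Real.cos (2 * ((k : ℤ) - l : ℤ) * t) : ℝ) : ℂ) + ((Real.sin (2 * ((k : ℤ) - l : ℤ) * t) : ℝ) : ℂ) * I

theorem hc_eq (K : ℕ) (H : ℕ → ℕ → ℂ) (t : ℝ) : hc K H t = (lam K H (te t)).re := by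
  unfold hc lam te
  rw [Complex.re_sum]
  refine Finset.sum_congr rfl fun k _ => ?_
  rw [Complex.re_sum]
  refine Finset.sum_congr rfl fun l _ => ?_
  generalize Real.cos (2 * ((k : ℤ) - l : ℤ) * t) = x
  generalize Real.sin (2 * ((k : ℤ) - l : ℤ) * t) = y
  simp only [Complex.mul_re, Complex.add_re, Complex.add_im, Complex.mul_im, Complex.ofReal_re, Complex.ofReal_im,
    Complex.I_re, Complex.I_im]
  ring

theorem te_exp (t : ℝ) (k l : ℕ) : te t k l = cexp (((2 * ((k : ℝ) - l) * t : ℝ) : ℂ) * I) := by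
  have e : 2 * ((((k : ℤ) - l : ℤ)) : ℝ) * t = 2 * ((k : ℝ) - l) * t := by
    push_cast
    ring
  unfold te
  rw [e]
  generalize 2 * ((k : ℝ) - l) * t = x
  apply Complex.ext
  · rw [Complex.exp_ofReal_mul_I_re]
    simp only [Complex.add_re, Complex.mul_re, Complex.ofReal_re, Complex.ofReal_im, Complex.I_re, Complex.I_im]
    ring
  · rw [Complex.exp_ofReal_mul_I_im]
    simp only [Complex.add_im, Complex.mul_im, Complex.ofReal_re, Complex.ofReal_im, Complex.I_re, Complex.I_im]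
    ring

theorem wv_eq (K : ℕ) (H : ℕ → ℕ → ℂ) (y : ℤ → ℂ) (r : ℤ) :
    wv K H y r = (lam K H fun k l => y (r - k) * (starRingEnd ℂ) (y (r - l))).re := rfl

/-- the multiplier of `X'²` -/
def Hs (K : ℕ) (c s : ℝ) (W : ℕ → ℕ → ℂ) (ω : ℝ) (k l : ℕ) : ℂ :=
  cv K ((1 + c) / 2) ((1 - c) / 2) W k l + on2 (ω * s ^ 2 / 4) k l

/-- sequences seen by the factor of `D2` -/
def vd (c : ℝ) (v : ℕ → ℂ) (k : ℕ) : ℂ := (((1 + c) / 2 : ℝ) : ℂ) * v k + (((1 - c) / 2 : ℝ) : ℂ) * v (k + 1)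

theorem lam_Hs (K : ℕ) (c s : ℝ) (W : ℕ → ℕ → ℂ) (ω : ℝ) (v : ℕ → ℂ) :
    lam (K + 1) (Hs K c s W ω) (fun k l => v k * (starRingEnd ℂ) (v l))
      = lam K W (fun k l => vd c v k * (starRingEnd ℂ) (vd c v l))
        + ((ω * s ^ 2 / 4 : ℝ) : ℂ) * ((v 0 + v 1) * (starRingEnd ℂ) (v 0 + v 1)) := by
  unfold Hs
  rw [lam_add, lam_cv, lam_on2]
  congr 1
  · unfold lam
    refine Finset.sum_congr rfl fun k _ => Finset.sum_congr rfl fun l _ => ?_
    congr 1
    simp only [vd, map_add, map_mul, Complex.conj_ofReal]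
    ring
  · rw [map_add]
    ring

theorem psd_Hs {K : ℕ} {c s : ℝ} {W : ℕ → ℕ → ℂ} (hW : Psd K W) {ω : ℝ} (hω : 0 ≤ ω) :
    Psd (K + 1) (Hs K c s W ω) := by
  intro v
  have h := lam_Hs K c s W ω v
  have h1 := hW (vd c v)
  change 0 ≤ (lam (K + 1) (Hs K c s W ω) (fun k l => v k * (starRingEnd ℂ) (v l))).re
  rw [h, Complex.add_re, Complex.re_ofReal_mul, Complex.mul_conj, Complex.ofReal_re]
  exact add_nonneg h1 (mul_nonneg (by positivity) (normSq_nonneg _))

theorem hc_Hs {c s : ℝ} (hcs : c ^ 2 + s ^ 2 = 1) (K : ℕ) (W : ℕ → ℕ → ℂ) (ω t : ℝ) :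
    hc (K + 1) (Hs K c s W ω) t + ω * c ^ 2 = (hc K W t + ω) * D2 s t := by
  rw [hc_eq, hc_eq]
  unfold Hs
  rw [lam_add, lam_cv, lam_on2]
  have e1 : ∀ k l : ℕ, (((1 + c) / 2 : ℝ) : ℂ) * ((((1 + c) / 2 : ℝ) : ℂ) * te t k l + (((1 - c) / 2 : ℝ) : ℂ) * te t k (l + 1))
      + (((1 - c) / 2 : ℝ) : ℂ) * ((((1 + c) / 2 : ℝ) : ℂ) * te t (k + 1) l + (((1 - c) / 2 : ℝ) : ℂ) * te t (k + 1) (l + 1))
      = ((D2 s t : ℝ) : ℂ) * te t k l := by
    intro k l
    have a1 : te t (k + 1) (l + 1) = te t k l := by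
      rw [te_exp, te_exp]
      congr 3
      push_cast
      ring
    have a2 : te t (k + 1) l = te t k l * cexp (((2 * t : ℝ) : ℂ) * I) := by
      rw [te_exp, te_exp, ← Complex.exp_add]
      congr 1
      push_cast
      ring
    have a3 : te t k (l + 1) = te t k l * cexp (-(((2 * t : ℝ) : ℂ) * I)) := by
      rw [te_exp, te_exp, ← Complex.exp_add]
      congr 1
      push_cast
      ring
    have a4 : cexp (((2 * t : ℝ) : ℂ) * I) + cexp (-(((2 * t : ℝ) : ℂ) * I)) = ((2 * Real.cos (2 * t) : ℝ) : ℂ) := by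
      have := Complex.two_cos ((2 * t : ℝ) : ℂ)
      rw [← neg_mul, ← this]
      push_cast
      ring
    rw [a1, a2, a3]
    have a5 : D2 s t = ((1 + c) / 2) ^ 2 + ((1 - c) / 2) ^ 2 + ((1 + c) / 2) * ((1 - c) / 2) * (2 * Real.cos (2 * t)) := by
      unfold D2
      have b1 := Real.cos_two_mul t
      have b2 := Real.sin_sq_add_cos_sq t
      rw [b1]
      have b3 : Real.cos t ^ 2 = 1 - Real.sin t ^ 2 := by linarith
      rw [b3]
      have b4 : s ^ 2 = 1 - c ^ 2 := by linarith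
      rw [b4]
      ring
    rw [a5]
    push_cast
    push_cast at a4
    linear_combination (((1 + c) / 2) * ((1 - c) / 2) * te t k l : ℂ) * a4
  simp only [e1]
  have e2 : lam K W (fun k l => ((D2 s t : ℝ) : ℂ) * te t k l) = ((D2 s t : ℝ) : ℂ) * lam K W (te t) := by
    unfold lam
    rw [Finset.mul_sum]
    refine Finset.sum_congr rfl fun k _ => ?_
    rw [Finset.mul_sum]
    exact Finset.sum_congr rfl fun l _ => by ring
  have e3 : te t 0 0 + te t 0 1 + (te t 1 0 + te t 1 1) = ((2 + 2 * Real.cos (2 * t) : ℝ) : ℂ) := by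
    unfold te
    have c1 : Real.cos (2 * ((((0 : ℕ) : ℤ) - ((1 : ℕ) : ℤ) : ℤ) : ℝ) * t) = Real.cos (2 * t) := by
      rw [← Real.cos_neg]
      congr 1
      push_cast
      ring
    have c2 : Real.sin (2 * ((((0 : ℕ) : ℤ) - ((1 : ℕ) : ℤ) : ℤ) : ℝ) * t) = -Real.sin (2 * t) := by
      rw [← Real.sin_neg]
      congr 1
      push_cast
      ring
    have c3 : 2 * ((((1 : ℕ) : ℤ) - ((0 : ℕ) : ℤ) : ℤ) : ℝ) * t = 2 * t := by
      push_cast
      ring
    rw [c1, c2, c3]
    simp only [sub_self, Int.cast_zero, mul_zero, zero_mul, Real.cos_zero, Real.sin_zero]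
    push_cast
    ring
  rw [e2, e3, Complex.add_re, Complex.re_ofReal_mul, Complex.re_ofReal_mul, Complex.ofReal_re]
  unfold D2
  have b1 := Real.cos_two_mul t
  have b2 := Real.sin_sq_add_cos_sq t
  have b3 : Real.cos t ^ 2 = 1 - Real.sin t ^ 2 := by linarith
  have b4 : s ^ 2 = 1 - c ^ 2 := by linarith
  rw [b1, b3, b4]
  ring

theorem hc_nonneg {K : ℕ} {W : ℕ → ℕ → ℂ} (hW : Psd K W) (t : ℝ) : 0 ≤ hc K W t := by
  have h := hW fun k => cexp (((2 * (k : ℝ) * t : ℝ) : ℂ) * I)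
  rw [hc_eq]
  unfold lam
  have e : ∀ k l : ℕ, te t k l = cexp (((2 * (k : ℝ) * t : ℝ) : ℂ) * I)
      * (starRingEnd ℂ) (cexp (((2 * (l : ℝ) * t : ℝ) : ℂ) * I)) := by
    intro k l
    rw [te_exp, ← Complex.exp_conj, ← Complex.exp_add]
    congr 1
    simp only [map_mul, Complex.conj_ofReal, Complex.conj_I]
    push_cast
    ring
  simp only [e]
  exact h

/-! ### moments -/

theorem uk_int {g : ℝ → ℝ} (hg : Continuous g) (j : ℤ) :
    uk g j = ⟨mn fun t => g t * Real.cos ((2 * j + 1) * t), -mn fun t => g t * Real.sin ((2 * j + 1) * t)⟩ := by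
  unfold uk QST.vk UMP.EU.fc mn
  have e1 : ∀ t : ℝ, cexp (-(I * ((2 * j + 1 : ℤ) : ℂ) * t)) * (g t : ℂ)
      = ((g t * Real.cos ((2 * j + 1) * t) : ℝ) : ℂ) - ((g t * Real.sin ((2 * j + 1) * t) : ℝ) : ℂ) * I := by
    intro t
    have h1 : -(I * ((2 * j + 1 : ℤ) : ℂ) * t) = ((-((2 * j + 1) * t) : ℝ) : ℂ) * I := by
      push_cast
      ring
    have e : cexp (((-((2 * j + 1) * t) : ℝ) : ℂ) * I) = ⟨Real.cos ((2 * j + 1) * t), -Real.sin ((2 * j + 1) * t)⟩ := by
      apply Complex.ext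
      · rw [Complex.exp_ofReal_mul_I_re, Real.cos_neg]
      · rw [Complex.exp_ofReal_mul_I_im, Real.sin_neg]
    rw [h1, e]
    generalize Real.cos ((2 * j + 1) * t) = cw
    generalize Real.sin ((2 * j + 1) * t) = sw
    apply Complex.ext
    · simp only [Complex.mul_re, Complex.sub_re, Complex.ofReal_re, Complex.ofReal_im, Complex.I_re, Complex.I_im]
      ring
    · simp only [Complex.mul_im, Complex.sub_im, Complex.ofReal_re, Complex.ofReal_im, Complex.I_re, Complex.I_im]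
      ring
  rw [intervalIntegral.integral_congr (g := fun t : ℝ => ((g t * Real.cos ((2 * j + 1) * t) : ℝ) : ℂ)
    - ((g t * Real.sin ((2 * j + 1) * t) : ℝ) : ℂ) * I) fun t _ => e1 t]
  have i1 : IntervalIntegrable (fun t : ℝ => ((g t * Real.cos ((2 * j + 1) * t) : ℝ) : ℂ)) volume 0 (2 * Real.pi) :=
    (Complex.continuous_ofReal.comp (hg.mul (by fun_prop))).intervalIntegrable _ _
  have i2 : IntervalIntegrable (fun t : ℝ => ((g t * Real.sin ((2 * j + 1) * t) : ℝ) : ℂ) * I) volume 0 (2 * Real.pi) :=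
    ((Complex.continuous_ofReal.comp (hg.mul (by fun_prop))).mul continuous_const).intervalIntegrable _ _
  rw [intervalIntegral.integral_sub i1 i2, intervalIntegral.integral_mul_const,
    intervalIntegral.integral_ofReal, intervalIntegral.integral_ofReal]
  have : (1 / (2 * (Real.pi : ℂ))) = (((2 * Real.pi)⁻¹ : ℝ) : ℂ) := by
    push_cast
    rw [one_div]
  rw [this]
  apply Complex.ext
  · simp
  · simp

theorem mn_cosj {g : ℝ → ℝ} (hg : Continuous g) (j : ℤ) :
    (mn fun t => g t * Real.cos ((2 * j + 1) * t)) = (uk g j).re := by rw [uk_int hg]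

theorem mn_sinj {g : ℝ → ℝ} (hg : Continuous g) (j : ℤ) :
    (mn fun t => g t * Real.sin ((2 * j + 1) * t)) = -(uk g j).im := by
  rw [uk_int hg]
  simp

variable {s : ℝ} {X : ℝ → ℝ}

theorem mn_cs (h : St s X) (j : ℤ) : (mn fun a => Real.cos (2 * j * a) * Real.sin a * deriv X a)
    = -((j + 1 / 2) * (uk X j).re - (j - 1 / 2) * (uk X (j - 1)).re) := by
  have hX := h.cont
  have hd : ∀ a : ℝ, HasDerivAt (fun a => Real.cos (2 * j * a) * Real.sin a)
      ((j + 1 / 2) * Real.cos ((2 * j + 1) * a) - (j - 1 / 2) * Real.cos ((2 * (j - 1 : ℤ) + 1) * a)) a := by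
    intro a
    have h1 : HasDerivAt (fun a => Real.cos (2 * j * a)) (-Real.sin (2 * j * a) * (2 * j * 1)) a :=
      ((hasDerivAt_id a).const_mul _).cos
    refine (h1.mul (Real.hasDerivAt_sin a)).congr_deriv ?_
    rw [show (2 * (j : ℝ) + 1) * a = 2 * j * a + a by ring,
      show (2 * ((j - 1 : ℤ) : ℝ) + 1) * a = 2 * j * a - a by push_cast; ring, Real.cos_add, Real.cos_sub]
    ring
  have hp : Real.cos (2 * j * (2 * Real.pi)) * Real.sin (2 * Real.pi) = Real.cos (2 * j * 0) * Real.sin 0 := by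
    rw [Real.sin_two_pi, Real.sin_zero, mul_zero, mul_zero]
  rw [h.ibp (φ := fun a => Real.cos (2 * j * a) * Real.sin a) hd (by fun_prop) hp]
  rw [← mn_cosj hX j, ← mn_cosj hX (j - 1), ← ALX.mn_mul, ← ALX.mn_mul, ← ALX.mn_sub]
  · congr 2
    funext a
    ring
  · exact (continuous_const.mul (hX.mul (by fun_prop))).intervalIntegrable _ _
  · exact (continuous_const.mul (hX.mul (by fun_prop))).intervalIntegrable _ _

theorem mn_ss (h : St s X) (j : ℤ) : (mn fun a => Real.sin (2 * j * a) * Real.sin a * deriv X a)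
    = (j + 1 / 2) * (uk X j).im - (j - 1 / 2) * (uk X (j - 1)).im := by
  have hX := h.cont
  have hd : ∀ a : ℝ, HasDerivAt (fun a => Real.sin (2 * j * a) * Real.sin a)
      ((j + 1 / 2) * Real.sin ((2 * j + 1) * a) - (j - 1 / 2) * Real.sin ((2 * (j - 1 : ℤ) + 1) * a)) a := by
    intro a
    have h1 : HasDerivAt (fun a => Real.sin (2 * j * a)) (Real.cos (2 * j * a) * (2 * j * 1)) a :=
      ((hasDerivAt_id a).const_mul _).sin
    refine (h1.mul (Real.hasDerivAt_sin a)).congr_deriv ?_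
    rw [show (2 * (j : ℝ) + 1) * a = 2 * j * a + a by ring,
      show (2 * ((j - 1 : ℤ) : ℝ) + 1) * a = 2 * j * a - a by push_cast; ring, Real.sin_add, Real.sin_sub]
    ring
  have hp : Real.sin (2 * j * (2 * Real.pi)) * Real.sin (2 * Real.pi) = Real.sin (2 * j * 0) * Real.sin 0 := by
    rw [Real.sin_two_pi, Real.sin_zero, mul_zero, mul_zero]
  rw [h.ibp (φ := fun a => Real.sin (2 * j * a) * Real.sin a) hd (by fun_prop) hp]
  have e3 : (mn fun a => X a * ((j + 1 / 2) * Real.sin ((2 * j + 1) * a)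
      - (j - 1 / 2) * Real.sin ((2 * (j - 1 : ℤ) + 1) * a)))
      = (j + 1 / 2) * (mn fun t => X t * Real.sin ((2 * j + 1) * t))
        - (j - 1 / 2) * mn fun t => X t * Real.sin ((2 * (j - 1 : ℤ) + 1) * t) := by
    rw [← ALX.mn_mul, ← ALX.mn_mul, ← ALX.mn_sub]
    · congr 1
      funext a
      ring
    · exact (continuous_const.mul (hX.mul (by fun_prop))).intervalIntegrable _ _
    · exact (continuous_const.mul (hX.mul (by fun_prop))).intervalIntegrable _ _
  rw [e3, mn_sinj hX j, mn_sinj hX (j - 1)]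
  ring

theorem mn_cosz (j : ℤ) : (mn fun t => Real.cos (2 * j * t)) = if j = 0 then 1 else 0 := by
  unfold mn
  have hpi := Real.pi_ne_zero
  by_cases hj : j = 0
  · rw [if_pos hj, hj]
    simp only [Int.cast_zero, mul_zero, zero_mul, Real.cos_zero, intervalIntegral.integral_const, sub_zero,
      smul_eq_mul, mul_one]
    exact inv_mul_cancel₀ (by positivity)
  · rw [if_neg hj]
    have hj' : (2 * (j : ℝ)) ≠ 0 := mul_ne_zero two_ne_zero (by exact_mod_cast hj)
    rw [intervalIntegral.integral_comp_mul_left (fun t => Real.cos t) hj', integral_cos]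
    have e : Real.sin (2 * (j : ℝ) * (2 * Real.pi)) = 0 := by
      have := Real.sin_int_mul_pi (4 * j)
      rw [← this]
      congr 1
      push_cast
      ring
    rw [e]
    simp

theorem mn_sinz (j : ℤ) : (mn fun t => Real.sin (2 * j * t)) = 0 := by
  unfold mn
  by_cases hj : j = 0
  · rw [hj]
    simp
  · have hj' : (2 * (j : ℝ)) ≠ 0 := mul_ne_zero two_ne_zero (by exact_mod_cast hj)
    rw [intervalIntegral.integral_comp_mul_left (fun t => Real.sin t) hj', integral_sin]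
    have e : Real.cos (2 * (j : ℝ) * (2 * Real.pi)) = 1 := by
      rw [show 2 * (j : ℝ) * (2 * Real.pi) = ((2 * j : ℤ) : ℝ) * (2 * Real.pi) by push_cast; ring,
        Real.cos_int_mul_two_pi]
    rw [e]
    simp

/-! ### the scalar inequality -/

theorem hc_mean (K : ℕ) (W : ℕ → ℕ → ℂ) : mn (hc K W) = ∑ k ∈ Finset.range (K + 1), (W k k).re := by
  have c0 : ∀ k l : ℕ, Continuous fun t : ℝ => (W k l).re * Real.cos (2 * ((k : ℤ) - l : ℤ) * t)
      - (W k l).im * Real.sin (2 * ((k : ℤ) - l : ℤ) * t) := fun k l => by fun_prop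
  have i1 : ∀ k : ℕ, IntervalIntegrable (fun t : ℝ => ∑ l ∈ Finset.range (K + 1),
      ((W k l).re * Real.cos (2 * ((k : ℤ) - l : ℤ) * t) - (W k l).im * Real.sin (2 * ((k : ℤ) - l : ℤ) * t)))
      volume 0 (2 * Real.pi) := fun k =>
    (continuous_finsetSum _ fun l _ => c0 k l).intervalIntegrable _ _
  have e : ∀ k l : ℕ, (mn fun t => (W k l).re * Real.cos (2 * ((k : ℤ) - l : ℤ) * t)
      - (W k l).im * Real.sin (2 * ((k : ℤ) - l : ℤ) * t)) = if l = k then (W k l).re else 0 := by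
    intro k l
    have j1 : IntervalIntegrable (fun t => (W k l).re * Real.cos (2 * ((k : ℤ) - l : ℤ) * t)) volume 0
        (2 * Real.pi) := (Continuous.intervalIntegrable (by fun_prop) _ _)
    have j2 : IntervalIntegrable (fun t => (W k l).im * Real.sin (2 * ((k : ℤ) - l : ℤ) * t)) volume 0
        (2 * Real.pi) := (Continuous.intervalIntegrable (by fun_prop) _ _)
    rw [ALX.mn_sub j1 j2, ALX.mn_mul, ALX.mn_mul, mn_cosz, mn_sinz]
    by_cases h : l = k
    · rw [if_pos h, if_pos (by rw [h, sub_self])]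
      ring
    · rw [if_neg h, if_neg fun h' => h (by
        have : (k : ℤ) = l := sub_eq_zero.1 h'
        exact_mod_cast this.symm)]
      ring
  have e2 : mn (hc K W) = ∑ k ∈ Finset.range (K + 1), ∑ l ∈ Finset.range (K + 1),
      mn fun t => (W k l).re * Real.cos (2 * ((k : ℤ) - l : ℤ) * t)
        - (W k l).im * Real.sin (2 * ((k : ℤ) - l : ℤ) * t) := by
    unfold mn hc
    rw [intervalIntegral.integral_finsetSum fun k _ => i1 k, Finset.mul_sum]
    refine Finset.sum_congr rfl fun k _ => ?_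
    rw [intervalIntegral.integral_finsetSum fun l _ => (c0 k l).intervalIntegrable _ _, Finset.mul_sum]
  rw [e2]
  refine Finset.sum_congr rfl fun k hk => ?_
  simp only [e]
  rw [Finset.sum_ite_eq' (Finset.range (K + 1)) k fun l => (W k l).re, if_pos hk]

/-- the linear functional of the modes that comes from the multiplier -/
def ln (u : ℤ → ℂ) (j : ℤ) : ℂ := ((j + 1 / 2 : ℝ) : ℂ) * (starRingEnd ℂ) (u j)
  - ((j - 1 / 2 : ℝ) : ℂ) * (starRingEnd ℂ) (u (j - 1))

theorem hc_lin (h : St s X) (K : ℕ) (W : ℕ → ℕ → ℂ) : (mn fun a => hc K W a * Real.sin a * deriv X a)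
    = -(lam K W fun k l => ln (uk X) ((k : ℤ) - l)).re := by
  have i0 : ∀ k l : ℕ, IntervalIntegrable (fun a : ℝ => ((W k l).re * Real.cos (2 * ((k : ℤ) - l : ℤ) * a)
      - (W k l).im * Real.sin (2 * ((k : ℤ) - l : ℤ) * a)) * Real.sin a * deriv X a) volume 0 (2 * Real.pi) :=
    fun k l => h.int1 (by fun_prop) _ _
  have i1 : ∀ k : ℕ, IntervalIntegrable (fun a : ℝ => ∑ l ∈ Finset.range (K + 1),
      ((W k l).re * Real.cos (2 * ((k : ℤ) - l : ℤ) * a)
      - (W k l).im * Real.sin (2 * ((k : ℤ) - l : ℤ) * a)) * Real.sin a * deriv X a) volume 0 (2 * Real.pi) := by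
    intro k
    have := h.int1 (φ := fun a => ∑ l ∈ Finset.range (K + 1),
      ((W k l).re * Real.cos (2 * ((k : ℤ) - l : ℤ) * a)
      - (W k l).im * Real.sin (2 * ((k : ℤ) - l : ℤ) * a)) * Real.sin a)
      (continuous_finsetSum _ fun l _ => by fun_prop) 0 (2 * Real.pi)
    refine this.congr fun a _ => ?_
    simp only [Finset.sum_mul]
  have e2 : (mn fun a => hc K W a * Real.sin a * deriv X a) = ∑ k ∈ Finset.range (K + 1),
      ∑ l ∈ Finset.range (K + 1), mn fun a => ((W k l).re * Real.cos (2 * ((k : ℤ) - l : ℤ) * a)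
      - (W k l).im * Real.sin (2 * ((k : ℤ) - l : ℤ) * a)) * Real.sin a * deriv X a := by
    unfold mn hc
    simp only [Finset.sum_mul]
    rw [intervalIntegral.integral_finsetSum fun k _ => i1 k, Finset.mul_sum]
    refine Finset.sum_congr rfl fun k _ => ?_
    rw [intervalIntegral.integral_finsetSum fun l _ => i0 k l, Finset.mul_sum]
  rw [e2]
  unfold lam
  rw [Complex.re_sum, ← Finset.sum_neg_distrib]
  refine Finset.sum_congr rfl fun k _ => ?_
  rw [Complex.re_sum, ← Finset.sum_neg_distrib]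
  refine Finset.sum_congr rfl fun l _ => ?_
  have e3 : (fun a => ((W k l).re * Real.cos (2 * ((k : ℤ) - l : ℤ) * a)
      - (W k l).im * Real.sin (2 * ((k : ℤ) - l : ℤ) * a)) * Real.sin a * deriv X a)
      = fun a => (W k l).re * (Real.cos (2 * ((k : ℤ) - l : ℤ) * a) * Real.sin a * deriv X a)
        - (W k l).im * (Real.sin (2 * ((k : ℤ) - l : ℤ) * a) * Real.sin a * deriv X a) := by
    funext a
    ring
  rw [e3, ALX.mn_sub, ALX.mn_mul, ALX.mn_mul, mn_cs h, mn_ss h]
  · simp only [ln, Complex.mul_re, Complex.sub_re, Complex.sub_im, Complex.mul_im, Complex.conj_re, Complex.conj_im,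
      Complex.ofReal_re, Complex.ofReal_im]
    ring
  · exact (h.int1 (φ := fun a => Real.cos (2 * ((k : ℤ) - l : ℤ) * a) * Real.sin a) (by fun_prop) _ _).const_mul _
  · exact (h.int1 (φ := fun a => Real.sin (2 * ((k : ℤ) - l : ℤ) * a) * Real.sin a) (by fun_prop) _ _).const_mul _

theorem St.u0 (h : St s X) : uk X 0 = 0 := by
  have h1 := h.mc
  have h2 := h.ms
  rw [uk_int h.cont]
  unfold mn
  apply Complex.ext
  · simp only [Int.cast_zero, mul_zero, zero_add, one_mul, Complex.zero_re]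
    rw [h1, mul_zero]
  · simp only [Int.cast_zero, mul_zero, zero_add, one_mul, Complex.zero_im]
    rw [h2, mul_zero, neg_zero]

theorem St.u1 (h : St s X) : uk X (-1) = 0 := by
  have h1 := QST.uk_neg (g := X) 0
  rw [St.u0 h, map_zero] at h1
  simpa using h1

/-- **the scalar modal inequality** -/
theorem scal {s' c : ℝ} (h : St s X) (h0 : 0 ≤ s) (hs : s ≤ s') (h1 : s' ≤ 1) (hcs : c ^ 2 + s' ^ 2 = 1)
    {N K J : ℕ} {W G : ℕ → ℕ → ℂ} (hW : Psd K W) (hG : Psd J G) {ω p0 : ℝ} (hω : 0 ≤ ω)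
    (hT : p0 ≤ ω * c ^ 2 * (2 * N + 1) ^ 2) :
    QSH.Fin0 N (K + 1) J (Hs K c s' W ω) G (ω * c ^ 2) p0 (uk X)
      - s' ^ 2 * (∑ k ∈ Finset.range (K + 1), (W k k).re + ω)
      + 2 * s' ^ 2 * (lam K W fun k l => ln (uk X) ((k : ℤ) - l)).re
      ≤ (mn fun t => X t ^ 2 * hc J G t) - p0 * mn fun t => X t ^ 2 := by
  obtain ⟨C, hC⟩ := h.lip
  have hX := h.cont
  have k1 := QSH.main hC h.anti (N := N) (psd_Hs (c := c) (s := s') hW hω) hG (by positivity : 0 ≤ ω * c ^ 2) hT
  have h' := h.mono h0 hs h1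
  have k2 := h'.shor (w := fun a => hc K W a + ω) ((QSH.hc_cont K W).add continuous_const)
    fun a => add_nonneg (hc_nonneg hW a) hω
  have iH : IntervalIntegrable (fun t => deriv X t ^ 2 * hc (K + 1) (Hs K c s' W ω) t) volume 0 (2 * Real.pi) :=
    h.int2 (QSH.hc_cont _ _) _ _
  have i1 : IntervalIntegrable (fun t => ω * c ^ 2 * deriv X t ^ 2) volume 0 (2 * Real.pi) := by
    have := (h.int2 (φ := fun _ => (1 : ℝ)) continuous_const 0 (2 * Real.pi)).const_mul (ω * c ^ 2)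
    simpa using this
  have k3 : (mn fun t => deriv X t ^ 2 * hc (K + 1) (Hs K c s' W ω) t) + ω * c ^ 2 * (mn fun t => deriv X t ^ 2)
      = mn fun a => deriv X a ^ 2 * ((hc K W a + ω) * D2 s' a) := by
    rw [← ALX.mn_mul, ← ALX.mn_add iH i1]
    congr 1
    funext a
    rw [← hc_Hs hcs K W ω a]
    ring
  have k4 : mn (fun a => hc K W a + ω) = ∑ k ∈ Finset.range (K + 1), (W k k).re + ω := by
    rw [ALX.mn_add ((QSH.hc_cont K W).intervalIntegrable _ _) (continuous_const.intervalIntegrable _ _), hc_mean]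
    congr 1
    have := ALX.mn_mul ω fun _ => 1
    rw [QST.mn_one, mul_one] at this
    simpa using this
  have k5 : (mn fun a => (hc K W a + ω) * Real.sin a * deriv X a)
      = -(lam K W fun k l => ln (uk X) ((k : ℤ) - l)).re := by
    have e : (fun a => (hc K W a + ω) * Real.sin a * deriv X a)
        = fun a => hc K W a * Real.sin a * deriv X a + ω * (Real.sin a * deriv X a) := by
      funext a
      ring
    rw [e, ALX.mn_add (h.int1 (φ := fun a => hc K W a * Real.sin a) ((QSH.hc_cont K W).mul (by fun_prop)) _ _)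
      ((h.int1 Real.continuous_sin _ _).const_mul _), hc_lin h, ALX.mn_mul]
    have e2 : (mn fun a => Real.sin a * deriv X a) = 0 := by
      have := mn_cs h 0
      simp only [Int.cast_zero, mul_zero, zero_mul, Real.cos_zero, one_mul, zero_sub] at this
      rw [this, St.u0 h, St.u1 h]
      simp
    rw [e2]
    ring
  rw [k3] at k1
  rw [k4, k5] at k2
  linarith

end Pool.Agent.FPX.MOD
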