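import Mathlib
import Pool.Agent.FPX.MOD

/-
MOE (helper50): the modal certificate with matrix multipliers. Components `z : Fin m → ℂ`, `Y a s = z a * U s`,
`U 0 = 1` (the slot of the constant), `U s = uk X s` otherwise (`uk X 0 = uk X (-1) = 0`, so the mode `0` is free).
All matrices are real. The form
`Re Σ T a s b t Y a s conj (Y b t) + mean (X² Σ G ...) - Σ p z_a conj z_b mean (X²)` is nonnegative for every state
as soon as one explicit finite matrix is positive.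
-/

set_option autoImplicit false

open MeasureTheory Set Filter Topology
open scoped NNReal

noncomputable section

namespace Pool.Agent.FPX.MOE

open Complex
open Pool.Agent.FPX.QST (mn uk Wn mem_Wn)
open Pool.Agent.FPX.QSH (hc wv Psd fr cm)
open Pool.Agent.FPX.ALX (St D2)
open Pool.Agent.FPX.MOD (lam dl cv on2 Hs ln)

variable {m : ℕ}

/-- the Hermitian matrix of a real four index matrix at `z` -/
def hz (A : Fin m → ℕ → Fin m → ℕ → ℝ) (z : Fin m → ℂ) (k l : ℕ) : ℂ :=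
  ∑ a, ∑ b, ((A a k b l : ℝ) : ℂ) * (z a * (starRingEnd ℂ) (z b))

/-- the value of a real matrix at `z` -/
def rz (A : Fin m → Fin m → ℝ) (z : Fin m → ℂ) : ℝ := ∑ a, ∑ b, A a b * (z a * (starRingEnd ℂ) (z b)).re

/-- positive matrices -/
def P4 (K : ℕ) (A : Fin m → ℕ → Fin m → ℕ → ℝ) : Prop :=
  ∀ x : Fin m → ℕ → ℝ, 0 ≤ ∑ a, ∑ b, ∑ k ∈ Finset.range (K + 1), ∑ l ∈ Finset.range (K + 1),
    A a k b l * (x a k * x b l)

def P2 (A : Fin m → Fin m → ℝ) : Prop := ∀ x : Fin m → ℝ, 0 ≤ ∑ a, ∑ b, A a b * (x a * x b)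

theorem rz_nonneg {A : Fin m → Fin m → ℝ} (hA : P2 A) (z : Fin m → ℂ) : 0 ≤ rz A z := by
  have h1 := hA fun a => (z a).re
  have h2 := hA fun a => (z a).im
  have e : rz A z = (∑ a, ∑ b, A a b * ((z a).re * (z b).re)) + ∑ a, ∑ b, A a b * ((z a).im * (z b).im) := by
    unfold rz
    rw [← Finset.sum_add_distrib]
    refine Finset.sum_congr rfl fun a _ => ?_
    rw [← Finset.sum_add_distrib]
    refine Finset.sum_congr rfl fun b _ => ?_
    simp only [Complex.mul_re, Complex.conj_re, Complex.conj_im]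
    ring
  rw [e]
  exact add_nonneg h1 h2

theorem rz_mono {A B : Fin m → Fin m → ℝ} (h : P2 fun a b => B a b - A a b) (z : Fin m → ℂ) : rz A z ≤ rz B z := by
  have h1 := rz_nonneg h z
  have e : rz (fun a b => B a b - A a b) z = rz B z - rz A z := by
    unfold rz
    rw [← Finset.sum_sub_distrib]
    refine Finset.sum_congr rfl fun a _ => ?_
    rw [← Finset.sum_sub_distrib]
    exact Finset.sum_congr rfl fun b _ => sub_mul _ _ _
  rw [e] at h1
  linarith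

theorem rz_mul (c : ℝ) (A : Fin m → Fin m → ℝ) (z : Fin m → ℂ) : rz (fun a b => c * A a b) z = c * rz A z := by
  unfold rz
  rw [Finset.mul_sum]
  refine Finset.sum_congr rfl fun a _ => ?_
  rw [Finset.mul_sum]
  exact Finset.sum_congr rfl fun b _ => by ring

theorem swap4 {ι κ α β M : Type*} [AddCommMonoid M] (I : Finset ι) (J : Finset κ) (A : Finset α) (B : Finset β)
    (F : ι → κ → α → β → M) : ∑ i ∈ I, ∑ j ∈ J, ∑ a ∈ A, ∑ b ∈ B, F i j a b
      = ∑ a ∈ A, ∑ b ∈ B, ∑ i ∈ I, ∑ j ∈ J, F i j a b := by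
  have e1 : ∀ i, ∑ j ∈ J, ∑ a ∈ A, ∑ b ∈ B, F i j a b = ∑ a ∈ A, ∑ b ∈ B, ∑ j ∈ J, F i j a b := by
    intro i
    rw [Finset.sum_comm]
    refine Finset.sum_congr rfl fun a _ => ?_
    rw [Finset.sum_comm]
  simp only [e1]
  rw [Finset.sum_comm]
  refine Finset.sum_congr rfl fun a _ => ?_
  rw [Finset.sum_comm]

/-- sums against a four index matrix -/
theorem lam_hz (K : ℕ) (A : Fin m → ℕ → Fin m → ℕ → ℝ) (z : Fin m → ℂ) (τ : ℕ → ℕ → ℂ) :
    lam K (hz A z) τ = ∑ a, ∑ b, (z a * (starRingEnd ℂ) (z b)) * lam K (fun k l => ((A a k b l : ℝ) : ℂ)) τ := by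
  unfold lam hz
  have e1 : ∀ k l, (∑ a, ∑ b, ((A a k b l : ℝ) : ℂ) * (z a * (starRingEnd ℂ) (z b))) * τ k l
      = ∑ a, ∑ b, (z a * (starRingEnd ℂ) (z b)) * (((A a k b l : ℝ) : ℂ) * τ k l) := by
    intro k l
    rw [Finset.sum_mul]
    refine Finset.sum_congr rfl fun a _ => ?_
    rw [Finset.sum_mul]
    exact Finset.sum_congr rfl fun b _ => by ring
  simp only [e1, Finset.mul_sum]
  exact swap4 _ _ _ _ _

theorem psd_hz {K : ℕ} {A : Fin m → ℕ → Fin m → ℕ → ℝ} (hA : P4 K A) (z : Fin m → ℂ) : Psd K (hz A z) := by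
  intro v
  change 0 ≤ (lam K (hz A z) fun k l => v k * (starRingEnd ℂ) (v l)).re
  have h1 := hA fun a k => (z a * v k).re
  have h2 := hA fun a k => (z a * v k).im
  have e : (lam K (hz A z) fun k l => v k * (starRingEnd ℂ) (v l)).re
      = (∑ a, ∑ b, ∑ k ∈ Finset.range (K + 1), ∑ l ∈ Finset.range (K + 1),
        A a k b l * ((z a * v k).re * (z b * v l).re)) + ∑ a, ∑ b, ∑ k ∈ Finset.range (K + 1),
        ∑ l ∈ Finset.range (K + 1), A a k b l * ((z a * v k).im * (z b * v l).im) := by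
    rw [lam_hz, Complex.re_sum, ← Finset.sum_add_distrib]
    refine Finset.sum_congr rfl fun a _ => ?_
    rw [Complex.re_sum, ← Finset.sum_add_distrib]
    refine Finset.sum_congr rfl fun b _ => ?_
    unfold lam
    rw [Finset.mul_sum, Complex.re_sum, ← Finset.sum_add_distrib]
    refine Finset.sum_congr rfl fun k _ => ?_
    rw [Finset.mul_sum, Complex.re_sum, ← Finset.sum_add_distrib]
    refine Finset.sum_congr rfl fun l _ => ?_
    simp only [Complex.mul_re, Complex.mul_im, Complex.conj_re, Complex.conj_im, Complex.ofReal_re,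
      Complex.ofReal_im]
    ring
  rw [e]
  exact add_nonneg h1 h2

/-! ### windows -/

/-- the coefficient of `y_s conj y_t` in the sum of the windows -/
def tp (K N : ℕ) (A : ℕ → ℕ → ℝ) (s t : ℤ) : ℝ :=
  ∑ k ∈ Finset.range (K + 1), ∑ l ∈ Finset.range (K + 1),
    if s + k = t + l ∧ (K : ℤ) - N ≤ s + k ∧ s + k < N then A k l else 0

theorem sum_tp (K N : ℕ) (A : ℕ → ℕ → ℝ) (y : ℤ → ℂ) :
    ∑ r ∈ Finset.Ico ((K : ℤ) - N) N, lam K (fun k l => ((A k l : ℝ) : ℂ)) (fun k l => y (r - k) * (starRingEnd ℂ) (y (r - l)))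
      = ∑ s ∈ Wn N, ∑ t ∈ Wn N, ((tp K N A s t : ℝ) : ℂ) * (y s * (starRingEnd ℂ) (y t)) := by
  have e1 : ∀ s t, ((tp K N A s t : ℝ) : ℂ) * (y s * (starRingEnd ℂ) (y t)) = ∑ k ∈ Finset.range (K + 1),
      ∑ l ∈ Finset.range (K + 1), if s + k = t + l ∧ (K : ℤ) - N ≤ s + k ∧ s + k < N then
        ((A k l : ℝ) : ℂ) * (y s * (starRingEnd ℂ) (y t)) else 0 := by
    intro s t
    unfold tp
    push_cast
    rw [Finset.sum_mul]
    refine Finset.sum_congr rfl fun k _ => ?_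
    rw [Finset.sum_mul]
    refine Finset.sum_congr rfl fun l _ => ?_
    split_ifs <;> simp
  simp only [e1]
  rw [swap4]
  unfold lam
  rw [Finset.sum_comm]
  refine Finset.sum_congr rfl fun k hk => ?_
  rw [Finset.sum_comm]
  refine Finset.sum_congr rfl fun l hl => ?_
  have hk' := Finset.mem_range.1 hk
  have hl' := Finset.mem_range.1 hl
  -- the inner sum
  have e2 : ∀ s ∈ Wn N, (∑ t ∈ Wn N, if s + k = t + l ∧ (K : ℤ) - N ≤ s + k ∧ s + k < N then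
        ((A k l : ℝ) : ℂ) * (y s * (starRingEnd ℂ) (y t)) else 0)
      = if (K : ℤ) - N ≤ s + k ∧ s + k < N then ((A k l : ℝ) : ℂ) * (y s * (starRingEnd ℂ) (y (s + k - l))) else 0 := by
    intro s _
    by_cases h : (K : ℤ) - N ≤ s + k ∧ s + k < N
    · rw [if_pos h, Finset.sum_eq_single (s + k - l)]
      · rw [if_pos ⟨by ring, h⟩]
      · intro t _ ht
        rw [if_neg]
        rintro ⟨h1, _⟩
        exact ht (by linarith)
      · intro h'
        exfalso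
        refine h' (mem_Wn.2 ⟨?_, ?_⟩) <;> omega
    · rw [if_neg h]
      exact Finset.sum_eq_zero fun t _ => if_neg fun h' => h h'.2
  rw [Finset.sum_congr rfl e2, ← Finset.sum_filter]
  refine Finset.sum_bij (fun r _ => r - k) ?_ ?_ ?_ ?_
  · intro r hr
    have := Finset.mem_Ico.1 hr
    refine Finset.mem_filter.2 ⟨mem_Wn.2 ⟨?_, ?_⟩, ?_, ?_⟩ <;> omega
  · intro r1 _ r2 _ h
    linarith
  · intro s hs
    obtain ⟨_, h2⟩ := Finset.mem_filter.1 hs
    exact ⟨s + k, Finset.mem_Ico.2 h2, by ring⟩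
  · intro r _
    simp only [sub_add_cancel]

/-- the matrix of the multiplier of `X'²` -/
def H4 (K : ℕ) (c s2 : ℝ) (W : Fin m → ℕ → Fin m → ℕ → ℝ) (ω : Fin m → Fin m → ℝ) (a : Fin m) (k : ℕ)
    (b : Fin m) (l : ℕ) : ℝ :=
  (∑ k' ∈ Finset.range (K + 1), ∑ l' ∈ Finset.range (K + 1),
    W a k' b l' * (dl ((1 + c) / 2) ((1 - c) / 2) k k' * dl ((1 + c) / 2) ((1 - c) / 2) l l'))
  + if k ≤ 1 ∧ l ≤ 1 then ω a b * s2 / 4 else 0

theorem sum_sym {ω : Fin m → Fin m → ℝ} (hω : ∀ a b, ω a b = ω b a) (z : Fin m → ℂ) :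
    ∑ a, ∑ b, ((ω a b : ℝ) : ℂ) * (z a * (starRingEnd ℂ) (z b)) = ((rz ω z : ℝ) : ℂ) := by
  have hc : (starRingEnd ℂ) (∑ a, ∑ b, ((ω a b : ℝ) : ℂ) * (z a * (starRingEnd ℂ) (z b)))
      = ∑ a, ∑ b, ((ω a b : ℝ) : ℂ) * (z a * (starRingEnd ℂ) (z b)) := by
    rw [map_sum]
    simp only [map_sum, map_mul, Complex.conj_ofReal, Complex.conj_conj]
    rw [Finset.sum_comm]
    refine Finset.sum_congr rfl fun a _ => Finset.sum_congr rfl fun b _ => ?_
    rw [hω b a]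
    ring
  have h := Complex.conj_eq_iff_re.1 hc
  rw [← h]
  congr 1
  unfold rz
  rw [Complex.re_sum]
  refine Finset.sum_congr rfl fun a _ => ?_
  rw [Complex.re_sum]
  refine Finset.sum_congr rfl fun b _ => ?_
  rw [Complex.re_ofReal_mul]

theorem Hs_hz (K : ℕ) (c s' : ℝ) (W : Fin m → ℕ → Fin m → ℕ → ℝ) {ω : Fin m → Fin m → ℝ}
    (hω : ∀ a b, ω a b = ω b a) (z : Fin m → ℂ) :
    Hs K c s' (hz W z) (rz ω z) = hz (H4 K c (s' ^ 2) W ω) z := by
  funext k l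
  unfold Hs hz H4 cv on2
  have e1 : (if k ≤ 1 ∧ l ≤ 1 then ((rz ω z * s' ^ 2 / 4 : ℝ) : ℂ) else 0)
      = ∑ a, ∑ b, (((if k ≤ 1 ∧ l ≤ 1 then ω a b * s' ^ 2 / 4 else 0 : ℝ)) : ℂ) * (z a * (starRingEnd ℂ) (z b)) := by
    split_ifs
    · push_cast
      rw [← sum_sym hω z]
      simp only [Finset.sum_mul, Finset.sum_div]
      refine Finset.sum_congr rfl fun a _ => Finset.sum_congr rfl fun b _ => ?_
      ring
    · simp
  rw [e1]
  have e2 : (∑ k' ∈ Finset.range (K + 1), ∑ l' ∈ Finset.range (K + 1),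
      (∑ a, ∑ b, ((W a k' b l' : ℝ) : ℂ) * (z a * (starRingEnd ℂ) (z b)))
        * (((dl ((1 + c) / 2) ((1 - c) / 2) k k' : ℝ) : ℂ) * ((dl ((1 + c) / 2) ((1 - c) / 2) l l' : ℝ) : ℂ)))
      = ∑ a, ∑ b, ∑ k' ∈ Finset.range (K + 1), ∑ l' ∈ Finset.range (K + 1),
        (((W a k' b l' : ℝ) : ℂ) * (((dl ((1 + c) / 2) ((1 - c) / 2) k k' : ℝ) : ℂ)
          * ((dl ((1 + c) / 2) ((1 - c) / 2) l l' : ℝ) : ℂ))) * (z a * (starRingEnd ℂ) (z b)) := by
    rw [← swap4]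
    refine Finset.sum_congr rfl fun k' _ => Finset.sum_congr rfl fun l' _ => ?_
    rw [Finset.sum_mul]
    refine Finset.sum_congr rfl fun a _ => ?_
    rw [Finset.sum_mul]
    exact Finset.sum_congr rfl fun b _ => by ring
  rw [e2, ← Finset.sum_add_distrib]
  refine Finset.sum_congr rfl fun a _ => ?_
  rw [← Finset.sum_add_distrib]
  refine Finset.sum_congr rfl fun b _ => ?_
  push_cast
  rw [add_mul, Finset.sum_mul]
  congr 1
  refine Finset.sum_congr rfl fun k' _ => ?_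
  rw [Finset.sum_mul]

/-- the sum of a diagonal of a matrix -/
def wj (K : ℕ) (A : ℕ → ℕ → ℝ) (j : ℤ) : ℝ :=
  ∑ k ∈ Finset.range (K + 1), ∑ l ∈ Finset.range (K + 1), if (k : ℤ) - l = j then A k l else 0

theorem sum_wj {K N : ℕ} (A : ℕ → ℕ → ℝ) (φ : ℤ → ℂ) (d : ℤ)
    (hd : ∀ k ∈ Finset.range (K + 1), ∀ l ∈ Finset.range (K + 1), (k : ℤ) - l - d ∈ Wn N) :
    ∑ t ∈ Wn N, ((wj K A (t + d) : ℝ) : ℂ) * φ t = lam K (fun k l => ((A k l : ℝ) : ℂ)) fun k l => φ ((k : ℤ) - l - d) := by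
  have e1 : ∀ t, ((wj K A (t + d) : ℝ) : ℂ) * φ t = ∑ k ∈ Finset.range (K + 1), ∑ l ∈ Finset.range (K + 1),
      if (k : ℤ) - l = t + d then ((A k l : ℝ) : ℂ) * φ t else 0 := by
    intro t
    unfold wj
    push_cast
    rw [Finset.sum_mul]
    refine Finset.sum_congr rfl fun k _ => ?_
    rw [Finset.sum_mul]
    refine Finset.sum_congr rfl fun l _ => ?_
    split_ifs <;> simp
  simp only [e1]
  unfold lam
  rw [Finset.sum_comm]
  refine Finset.sum_congr rfl fun k hk => ?_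
  rw [Finset.sum_comm]
  refine Finset.sum_congr rfl fun l hl => ?_
  rw [Finset.sum_eq_single ((k : ℤ) - l - d)]
  · rw [if_pos (by ring)]
  · intro t _ ht
    exact if_neg fun h => ht (by linarith)
  · exact fun h => absurd (hd k hk l hl) h

theorem lin_eq {K N : ℕ} (hKN : K + 1 ≤ N) (A : ℕ → ℕ → ℝ) (u : ℤ → ℂ) :
    lam K (fun k l => ((A k l : ℝ) : ℂ)) (fun k l => ln u ((k : ℤ) - l))
      = ∑ t ∈ Wn N, (((2 * t + 1) / 2 * (wj K A t - wj K A (t + 1)) : ℝ) : ℂ) * (starRingEnd ℂ) (u t) := by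
  have h1 := sum_wj (K := K) (N := N) A (fun t => ((t + 1 / 2 : ℝ) : ℂ) * (starRingEnd ℂ) (u t)) 0 (by
    intro k hk l hl
    have := Finset.mem_range.1 hk
    have := Finset.mem_range.1 hl
    refine mem_Wn.2 ⟨?_, ?_⟩ <;> omega)
  have h2 := sum_wj (K := K) (N := N) A (fun t => ((t + 1 / 2 : ℝ) : ℂ) * (starRingEnd ℂ) (u t)) 1 (by
    intro k hk l hl
    have := Finset.mem_range.1 hk
    have := Finset.mem_range.1 hl
    refine mem_Wn.2 ⟨?_, ?_⟩ <;> omega)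
  have e1 : (∑ t ∈ Wn N, (((2 * t + 1) / 2 * (wj K A t - wj K A (t + 1)) : ℝ) : ℂ) * (starRingEnd ℂ) (u t))
      = (∑ t ∈ Wn N, ((wj K A (t + 0) : ℝ) : ℂ) * (((t + 1 / 2 : ℝ) : ℂ) * (starRingEnd ℂ) (u t)))
        - ∑ t ∈ Wn N, ((wj K A (t + 1) : ℝ) : ℂ) * (((t + 1 / 2 : ℝ) : ℂ) * (starRingEnd ℂ) (u t)) := by
    rw [← Finset.sum_sub_distrib]
    refine Finset.sum_congr rfl fun t _ => ?_
    rw [add_zero]
    push_cast
    ring
  rw [e1, h1, h2]
  unfold lam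
  rw [← Finset.sum_sub_distrib]
  refine Finset.sum_congr rfl fun k _ => ?_
  rw [← Finset.sum_sub_distrib]
  refine Finset.sum_congr rfl fun l _ => ?_
  simp only [ln, sub_zero]
  push_cast
  ring

/-! ### the slots -/

/-- the modes, with the constant in the slot `0` -/
def U (X : ℝ → ℝ) (s : ℤ) : ℂ := if s = 0 then 1 else uk X s

def Y (z : Fin m → ℂ) (X : ℝ → ℝ) (a : Fin m) (s : ℤ) : ℂ := z a * U X s

/-- the reflection of the slots -/
def rf (s : ℤ) : ℤ := if s = 0 ∨ s = -1 then s else -s - 1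

/-- the data of a certificate -/
structure Dat (m : ℕ) where
  N : ℕ
  K : ℕ
  J : ℕ
  c : ℝ
  s2 : ℝ
  W : Fin m → ℕ → Fin m → ℕ → ℝ
  G : Fin m → ℕ → Fin m → ℕ → ℝ
  om : Fin m → Fin m → ℝ
  p : Fin m → Fin m → ℝ
  R : Fin m → ℤ → Fin m → ℤ → ℝ

/-- the block of the modes -/
def Dat.E (D : Dat m) (a : Fin m) (s : ℤ) (b : Fin m) (t : ℤ) : ℝ :=
  (2 * s + 1) * (2 * t + 1) * tp (D.K + 1) D.N (fun k l => H4 D.K D.c D.s2 D.W D.om a k b l) s t
    + tp D.J D.N (fun k l => D.G a k b l) s t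
    + if s = t then D.om a b * D.c ^ 2 * (2 * s + 1) ^ 2 - D.p a b else 0

/-- the entry of the constant -/
def Dat.k0 (D : Dat m) (a b : Fin m) : ℝ :=
  -(D.s2 * (∑ k ∈ Finset.range (D.K + 1), D.W a k b k + D.om a b))

/-- the linear entries -/
def Dat.l0 (D : Dat m) (a b : Fin m) (t : ℤ) : ℝ :=
  D.s2 * (2 * t + 1) * (wj D.K (fun k l => D.W a k b l) t - wj D.K (fun k l => D.W a k b l) (t + 1))

def Dat.M0 (D : Dat m) (a : Fin m) (s : ℤ) (b : Fin m) (t : ℤ) : ℝ :=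
  if s = 0 then (if t = 0 then D.k0 a b else D.l0 a b t) else if t = 0 then 0 else D.E a s b t

/-- the matrix of the certificate -/
def Dat.M (D : Dat m) (T : Fin m → ℤ → Fin m → ℤ → ℝ) (a : Fin m) (s : ℤ) (b : Fin m) (t : ℤ) : ℝ :=
  T a s b t + D.M0 a s b t + (D.R a s b t - D.R a (rf t) b (rf s))

theorem inner {N : ℕ} (hN : 1 ≤ N) (κ : ℝ) (lm : ℤ → ℝ) (E : ℤ → ℤ → ℝ) {u : ℤ → ℂ} (u0 : u 0 = 0) :
    ∑ s ∈ Wn N, ∑ t ∈ Wn N, (((if s = 0 then (if t = 0 then κ else lm t) else if t = 0 then 0 else E s t : ℝ)) : ℂ)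
        * ((if s = 0 then 1 else u s) * (starRingEnd ℂ) (if t = 0 then 1 else u t))
      = (κ : ℂ) + ∑ t ∈ Wn N, ((lm t : ℝ) : ℂ) * (starRingEnd ℂ) (u t)
        + ∑ s ∈ Wn N, ∑ t ∈ Wn N, ((E s t : ℝ) : ℂ) * (u s * (starRingEnd ℂ) (u t)) := by
  have h0 : (0 : ℤ) ∈ Wn N := mem_Wn.2 ⟨by omega, by omega⟩
  have e : ∀ s t : ℤ, (((if s = 0 then (if t = 0 then κ else lm t) else if t = 0 then 0 else E s t : ℝ)) : ℂ)
        * ((if s = 0 then 1 else u s) * (starRingEnd ℂ) (if t = 0 then 1 else u t))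
      = (if s = 0 then ((if t = 0 then (κ : ℂ) else 0) + ((lm t : ℝ) : ℂ) * (starRingEnd ℂ) (u t)) else 0)
        + ((E s t : ℝ) : ℂ) * (u s * (starRingEnd ℂ) (u t)) := by
    intro s t
    by_cases hs : s = 0
    · by_cases ht : t = 0
      · rw [hs, ht]
        simp [u0]
      · rw [hs]
        simp [u0, ht]
    · by_cases ht : t = 0
      · rw [ht]
        simp [u0, hs]
      · simp [hs, ht]
  simp only [e, Finset.sum_add_distrib]
  congr 1
  have e2 : ∀ s : ℤ, (∑ t ∈ Wn N, if s = 0 then ((if t = 0 then (κ : ℂ) else 0)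
      + ((lm t : ℝ) : ℂ) * (starRingEnd ℂ) (u t)) else 0)
      = if s = 0 then (κ : ℂ) + ∑ t ∈ Wn N, ((lm t : ℝ) : ℂ) * (starRingEnd ℂ) (u t) else 0 := by
    intro s
    split_ifs
    · rw [Finset.sum_add_distrib, Finset.sum_ite_eq' (Wn N) 0 fun _ => (κ : ℂ), if_pos h0]
    · exact Finset.sum_const_zero
  simp only [e2]
  rw [Finset.sum_ite_eq' (Wn N) 0 fun _ => (κ : ℂ) + ∑ t ∈ Wn N, ((lm t : ℝ) : ℂ) * (starRingEnd ℂ) (u t), if_pos h0]

variable {s s' : ℝ} {X : ℝ → ℝ}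

/-- the finite form of the multipliers in the slots -/
theorem fin_eq (h : St s X) (D : Dat m) (hs2 : D.s2 = s' ^ 2) (hω : ∀ a b, D.om a b = D.om b a)
    (hKN : D.K + 1 ≤ D.N) (z : Fin m → ℂ) :
    QSH.Fin0 D.N (D.K + 1) D.J (Hs D.K D.c s' (hz D.W z) (rz D.om z)) (hz D.G z) (rz D.om z * D.c ^ 2) (rz D.p z)
        (uk X) - s' ^ 2 * (∑ k ∈ Finset.range (D.K + 1), (hz D.W z k k).re + rz D.om z)
        + 2 * s' ^ 2 * (lam D.K (hz D.W z) fun k l => ln (uk X) ((k : ℤ) - l)).re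
      = (∑ a, ∑ b, ∑ s ∈ Wn D.N, ∑ t ∈ Wn D.N, ((D.M0 a s b t : ℝ) : ℂ)
        * (Y z X a s * (starRingEnd ℂ) (Y z X b t))).re := by
  set u := uk X with hu
  have u0 : u 0 = 0 := MOD.St.u0 h
  -- the right side
  have r1 : ∀ a b, ∑ s ∈ Wn D.N, ∑ t ∈ Wn D.N, ((D.M0 a s b t : ℝ) : ℂ) * (Y z X a s * (starRingEnd ℂ) (Y z X b t))
      = (z a * (starRingEnd ℂ) (z b)) * ((D.k0 a b : ℂ) + ∑ t ∈ Wn D.N, ((D.l0 a b t : ℝ) : ℂ) * (starRingEnd ℂ) (u t)
        + ∑ s ∈ Wn D.N, ∑ t ∈ Wn D.N, ((D.E a s b t : ℝ) : ℂ) * (u s * (starRingEnd ℂ) (u t))) := by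
    intro a b
    rw [← inner (N := D.N) (by omega) (D.k0 a b) (D.l0 a b) (fun s t => D.E a s b t) u0, Finset.mul_sum]
    refine Finset.sum_congr rfl fun s _ => ?_
    rw [Finset.mul_sum]
    refine Finset.sum_congr rfl fun t _ => ?_
    simp only [Dat.M0, Y, U, map_mul]
    ring
  simp only [r1]
  -- the pieces of the left side
  have p1 : ∑ r ∈ Finset.Ico (((D.K + 1 : ℕ) : ℤ) - D.N) D.N, wv (D.K + 1) (Hs D.K D.c s' (hz D.W z) (rz D.om z)) (fr u) r
      = (∑ a, ∑ b, (z a * (starRingEnd ℂ) (z b)) * ∑ s ∈ Wn D.N, ∑ t ∈ Wn D.N,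
        (((2 * s + 1) * (2 * t + 1) * tp (D.K + 1) D.N (fun k l => H4 D.K D.c D.s2 D.W D.om a k b l) s t : ℝ) : ℂ)
          * (u s * (starRingEnd ℂ) (u t))).re := by
    rw [Hs_hz D.K D.c s' D.W hω z, ← hs2]
    have e1 : ∀ r, wv (D.K + 1) (hz (H4 D.K D.c D.s2 D.W D.om) z) (fr u) r
        = (∑ a, ∑ b, (z a * (starRingEnd ℂ) (z b)) * lam (D.K + 1) (fun k l => ((H4 D.K D.c D.s2 D.W D.om a k b l : ℝ) : ℂ))
          fun k l => fr u (r - k) * (starRingEnd ℂ) (fr u (r - l))).re := by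
      intro r
      rw [Pool.Agent.FPX.MOD.wv_eq, lam_hz]
    simp only [e1]
    rw [← Complex.re_sum, Finset.sum_comm]
    congr 1
    refine Finset.sum_congr rfl fun a _ => ?_
    rw [Finset.sum_comm]
    refine Finset.sum_congr rfl fun b _ => ?_
    rw [← Finset.mul_sum, sum_tp]
    congr 1
    refine Finset.sum_congr rfl fun s _ => Finset.sum_congr rfl fun t _ => ?_
    simp only [fr, map_mul, Complex.conj_ofReal]
    push_cast
    ring
  have p2 : ∑ r ∈ Finset.Ico ((D.J : ℤ) - D.N) D.N, wv D.J (hz D.G z) u r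
      = (∑ a, ∑ b, (z a * (starRingEnd ℂ) (z b)) * ∑ s ∈ Wn D.N, ∑ t ∈ Wn D.N,
        ((tp D.J D.N (fun k l => D.G a k b l) s t : ℝ) : ℂ) * (u s * (starRingEnd ℂ) (u t))).re := by
    have e1 : ∀ r, wv D.J (hz D.G z) u r
        = (∑ a, ∑ b, (z a * (starRingEnd ℂ) (z b)) * lam D.J (fun k l => ((D.G a k b l : ℝ) : ℂ))
          fun k l => u (r - k) * (starRingEnd ℂ) (u (r - l))).re := by
      intro r
      rw [Pool.Agent.FPX.MOD.wv_eq, lam_hz]
    simp only [e1]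
    rw [← Complex.re_sum, Finset.sum_comm]
    congr 1
    refine Finset.sum_congr rfl fun a _ => ?_
    rw [Finset.sum_comm]
    refine Finset.sum_congr rfl fun b _ => ?_
    rw [← Finset.mul_sum, sum_tp]
  have p3 : ∑ s ∈ Wn D.N, (rz D.om z * D.c ^ 2 * (2 * s + 1) ^ 2 - rz D.p z) * ‖u s‖ ^ 2
      = (∑ a, ∑ b, (z a * (starRingEnd ℂ) (z b)) * ∑ s ∈ Wn D.N, ∑ t ∈ Wn D.N,
        (((if s = t then D.om a b * D.c ^ 2 * (2 * s + 1) ^ 2 - D.p a b else 0 : ℝ)) : ℂ)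
          * (u s * (starRingEnd ℂ) (u t))).re := by
    have e1 : ∀ a b, ∑ s ∈ Wn D.N, ∑ t ∈ Wn D.N,
        (((if s = t then D.om a b * D.c ^ 2 * (2 * s + 1) ^ 2 - D.p a b else 0 : ℝ)) : ℂ)
          * (u s * (starRingEnd ℂ) (u t)) = ∑ s ∈ Wn D.N,
          ((D.om a b * D.c ^ 2 * (2 * s + 1) ^ 2 - D.p a b : ℝ) : ℂ) * ((‖u s‖ ^ 2 : ℝ) : ℂ) := by
      intro a b
      refine Finset.sum_congr rfl fun s hs => ?_
      rw [Finset.sum_eq_single s]
      · rw [if_pos rfl, Complex.mul_conj, Complex.normSq_eq_norm_sq]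
      · intro t _ ht
        rw [if_neg fun h => ht h.symm]
        simp
      · exact fun h => absurd hs h
    have e2 : ∀ s : ℤ, (rz D.om z * D.c ^ 2 * (2 * s + 1) ^ 2 - rz D.p z) * ‖u s‖ ^ 2
        = (∑ a, ∑ b, (z a * (starRingEnd ℂ) (z b)) * (((D.om a b * D.c ^ 2 * (2 * s + 1) ^ 2 - D.p a b : ℝ) : ℂ)
          * ((‖u s‖ ^ 2 : ℝ) : ℂ))).re := by
      intro s
      unfold rz
      simp only [Complex.re_sum, Finset.sum_mul]
      rw [← Finset.sum_sub_distrib, Finset.sum_mul]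
      refine Finset.sum_congr rfl fun a _ => ?_
      rw [← Finset.sum_sub_distrib, Finset.sum_mul]
      refine Finset.sum_congr rfl fun b _ => ?_
      rw [← Complex.ofReal_mul, Complex.re_mul_ofReal]
      ring
    simp only [e1, e2]
    rw [← Complex.re_sum, Finset.sum_comm]
    congr 1
    refine Finset.sum_congr rfl fun a _ => ?_
    rw [Finset.sum_comm]
    refine Finset.sum_congr rfl fun b _ => ?_
    rw [Finset.mul_sum]
  have p4 : s' ^ 2 * (∑ k ∈ Finset.range (D.K + 1), (hz D.W z k k).re + rz D.om z)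
      = -(∑ a, ∑ b, (z a * (starRingEnd ℂ) (z b)) * ((D.k0 a b : ℝ) : ℂ)).re := by
    unfold rz hz Dat.k0
    rw [← hs2]
    simp only [Complex.re_sum]
    rw [Finset.sum_comm, ← Finset.sum_add_distrib, Finset.mul_sum, ← Finset.sum_neg_distrib]
    refine Finset.sum_congr rfl fun a _ => ?_
    rw [Finset.sum_comm, ← Finset.sum_add_distrib, Finset.mul_sum, ← Finset.sum_neg_distrib]
    refine Finset.sum_congr rfl fun b _ => ?_
    rw [Complex.re_mul_ofReal]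
    simp only [Complex.re_ofReal_mul]
    rw [← Finset.sum_mul]
    ring
  have p5 : 2 * s' ^ 2 * (lam D.K (hz D.W z) fun k l => ln u ((k : ℤ) - l)).re
      = (∑ a, ∑ b, (z a * (starRingEnd ℂ) (z b)) * ∑ t ∈ Wn D.N, ((D.l0 a b t : ℝ) : ℂ) * (starRingEnd ℂ) (u t)).re := by
    rw [lam_hz, ← Complex.re_ofReal_mul, Finset.mul_sum]
    congr 1
    refine Finset.sum_congr rfl fun a _ => ?_
    rw [Finset.mul_sum]
    refine Finset.sum_congr rfl fun b _ => ?_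
    rw [lin_eq hKN, mul_left_comm]
    congr 1
    rw [Finset.mul_sum]
    refine Finset.sum_congr rfl fun t _ => ?_
    unfold Dat.l0
    rw [hs2]
    push_cast
    ring
  have e3 : ∀ a b, ∑ s ∈ Wn D.N, ∑ t ∈ Wn D.N, ((D.E a s b t : ℝ) : ℂ) * (u s * (starRingEnd ℂ) (u t))
      = (∑ s ∈ Wn D.N, ∑ t ∈ Wn D.N,
        (((2 * s + 1) * (2 * t + 1) * tp (D.K + 1) D.N (fun k l => H4 D.K D.c D.s2 D.W D.om a k b l) s t : ℝ) : ℂ)
          * (u s * (starRingEnd ℂ) (u t))) + (∑ s ∈ Wn D.N, ∑ t ∈ Wn D.N,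
        ((tp D.J D.N (fun k l => D.G a k b l) s t : ℝ) : ℂ) * (u s * (starRingEnd ℂ) (u t)))
        + ∑ s ∈ Wn D.N, ∑ t ∈ Wn D.N,
        (((if s = t then D.om a b * D.c ^ 2 * (2 * s + 1) ^ 2 - D.p a b else 0 : ℝ)) : ℂ)
          * (u s * (starRingEnd ℂ) (u t)) := by
    intro a b
    rw [← Finset.sum_add_distrib, ← Finset.sum_add_distrib]
    refine Finset.sum_congr rfl fun s _ => ?_
    rw [← Finset.sum_add_distrib, ← Finset.sum_add_distrib]
    refine Finset.sum_congr rfl fun t _ => ?_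
    unfold Dat.E
    push_cast
    ring
  have key : ∀ F1 F2 F3 F4 F5 : Fin m → Fin m → ℂ,
      (∑ a, ∑ b, (z a * (starRingEnd ℂ) (z b)) * F1 a b) + (∑ a, ∑ b, (z a * (starRingEnd ℂ) (z b)) * F2 a b)
        + (∑ a, ∑ b, (z a * (starRingEnd ℂ) (z b)) * F3 a b) + (∑ a, ∑ b, (z a * (starRingEnd ℂ) (z b)) * F4 a b)
        + (∑ a, ∑ b, (z a * (starRingEnd ℂ) (z b)) * F5 a b)
      = ∑ a, ∑ b, (z a * (starRingEnd ℂ) (z b)) * (F4 a b + F5 a b + (F1 a b + F2 a b + F3 a b)) := by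
    intro F1 F2 F3 F4 F5
    rw [← Finset.sum_add_distrib, ← Finset.sum_add_distrib, ← Finset.sum_add_distrib, ← Finset.sum_add_distrib]
    refine Finset.sum_congr rfl fun a _ => ?_
    rw [← Finset.sum_add_distrib, ← Finset.sum_add_distrib, ← Finset.sum_add_distrib, ← Finset.sum_add_distrib]
    exact Finset.sum_congr rfl fun b _ => by ring
  unfold QSH.Fin0
  rw [p1, p2, p3, p4, p5, sub_neg_eq_add, ← Complex.add_re, ← Complex.add_re, ← Complex.add_re, ← Complex.add_re]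
  congr 1
  simp only [e3]
  exact key _ _ _ _ _

/-! ### null forms -/

theorem rf_rf (s : ℤ) : rf (rf s) = s := by
  unfold rf
  by_cases h1 : s = 0 ∨ s = -1
  · rw [if_pos h1, if_pos h1]
  · rw [if_neg h1, if_neg (by omega)]
    ring

theorem rf_mem {N : ℕ} {s : ℤ} (hs : s ∈ Wn N) : rf s ∈ Wn N := by
  have := mem_Wn.1 hs
  unfold rf
  split_ifs
  · exact hs
  · exact mem_Wn.2 ⟨by omega, by omega⟩

theorem U_rf (h : St s X) (k : ℤ) : U X (rf k) = (starRingEnd ℂ) (U X k) := by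
  unfold U rf
  by_cases h0 : k = 0
  · rw [h0]
    simp
  · by_cases h1 : k = -1
    · rw [h1]
      have := MOD.St.u1 h
      simp [this]
    · have h2 : ¬ (k = 0 ∨ k = -1) := by omega
      have h3 : ¬ (-k - 1 = 0) := by omega
      rw [if_neg h2, if_neg h3, if_neg h0, QST.uk_neg]

theorem null (h : St s X) (N : ℕ) (R : ℤ → ℤ → ℝ) :
    ∑ s ∈ Wn N, ∑ t ∈ Wn N, ((R s t - R (rf t) (rf s) : ℝ) : ℂ) * (U X s * (starRingEnd ℂ) (U X t)) = 0 := by
  have e : ∑ s ∈ Wn N, ∑ t ∈ Wn N, ((R (rf t) (rf s) : ℝ) : ℂ) * (U X s * (starRingEnd ℂ) (U X t))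
      = ∑ s ∈ Wn N, ∑ t ∈ Wn N, ((R s t : ℝ) : ℂ) * (U X s * (starRingEnd ℂ) (U X t)) := by
    have e1 : ∑ s ∈ Wn N, ∑ t ∈ Wn N, ((R (rf t) (rf s) : ℝ) : ℂ) * (U X s * (starRingEnd ℂ) (U X t))
        = ∑ s ∈ Wn N, ∑ t ∈ Wn N, ((R t s : ℝ) : ℂ) * (U X (rf s) * (starRingEnd ℂ) (U X (rf t))) := by
      refine Finset.sum_bij' (fun s _ => rf s) (fun s _ => rf s) (fun s hs => rf_mem hs) (fun s hs => rf_mem hs)
        (fun s _ => rf_rf s) (fun s _ => rf_rf s) fun s _ => ?_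
      refine Finset.sum_bij' (fun s _ => rf s) (fun s _ => rf s) (fun s hs => rf_mem hs) (fun s hs => rf_mem hs)
        (fun s _ => rf_rf s) (fun s _ => rf_rf s) fun t _ => ?_
      simp only [rf_rf]
    rw [e1, Finset.sum_comm]
    refine Finset.sum_congr rfl fun t _ => Finset.sum_congr rfl fun s _ => ?_
    rw [U_rf h, U_rf h, Complex.conj_conj, mul_comm ((starRingEnd ℂ) (U X s)) (U X t)]
  have e2 : ∀ s t, ((R s t - R (rf t) (rf s) : ℝ) : ℂ) * (U X s * (starRingEnd ℂ) (U X t))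
      = ((R s t : ℝ) : ℂ) * (U X s * (starRingEnd ℂ) (U X t))
        - ((R (rf t) (rf s) : ℝ) : ℂ) * (U X s * (starRingEnd ℂ) (U X t)) := by
    intro s t
    push_cast
    ring
  simp only [e2, Finset.sum_sub_distrib]
  rw [e, sub_self]

/-! ### the certificate -/

/-- a form in the slots -/
def Frm (N : ℕ) (T : Fin m → ℤ → Fin m → ℤ → ℝ) (z : Fin m → ℂ) (X : ℝ → ℝ) : ℝ :=
  (∑ a, ∑ b, ∑ s ∈ Wn N, ∑ t ∈ Wn N, ((T a s b t : ℝ) : ℂ) * (Y z X a s * (starRingEnd ℂ) (Y z X b t))).re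

theorem Frm_add (N : ℕ) (T T' : Fin m → ℤ → Fin m → ℤ → ℝ) (z : Fin m → ℂ) (X : ℝ → ℝ) :
    Frm N (fun a s b t => T a s b t + T' a s b t) z X = Frm N T z X + Frm N T' z X := by
  unfold Frm
  rw [← Complex.add_re]
  congr 1
  rw [← Finset.sum_add_distrib]
  refine Finset.sum_congr rfl fun a _ => ?_
  rw [← Finset.sum_add_distrib]
  refine Finset.sum_congr rfl fun b _ => ?_
  rw [← Finset.sum_add_distrib]
  refine Finset.sum_congr rfl fun s _ => ?_
  rw [← Finset.sum_add_distrib]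
  refine Finset.sum_congr rfl fun t _ => ?_
  push_cast
  ring

theorem Frm_null (h : St s X) (N : ℕ) (R : Fin m → ℤ → Fin m → ℤ → ℝ) (z : Fin m → ℂ) :
    Frm N (fun a s b t => R a s b t - R a (rf t) b (rf s)) z X = 0 := by
  unfold Frm
  have e : ∀ a b, ∑ s ∈ Wn N, ∑ t ∈ Wn N, ((R a s b t - R a (rf t) b (rf s) : ℝ) : ℂ)
      * (Y z X a s * (starRingEnd ℂ) (Y z X b t)) = 0 := by
    intro a b
    have h1 := null h N fun s t => R a s b t
    have e1 : ∑ s ∈ Wn N, ∑ t ∈ Wn N, ((R a s b t - R a (rf t) b (rf s) : ℝ) : ℂ)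
      * (Y z X a s * (starRingEnd ℂ) (Y z X b t)) = (z a * (starRingEnd ℂ) (z b)) * ∑ s ∈ Wn N, ∑ t ∈ Wn N,
        ((R a s b t - R a (rf t) b (rf s) : ℝ) : ℂ) * (U X s * (starRingEnd ℂ) (U X t)) := by
      rw [Finset.mul_sum]
      refine Finset.sum_congr rfl fun s _ => ?_
      rw [Finset.mul_sum]
      refine Finset.sum_congr rfl fun t _ => ?_
      simp only [Y, map_mul]
      ring
    rw [e1, h1, mul_zero]
  simp only [e, Finset.sum_const_zero, Complex.zero_re]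

/-- positivity of a real matrix on the slots (the slot `-1` is empty) -/
def PM (N : ℕ) (M : Fin m → ℤ → Fin m → ℤ → ℝ) : Prop :=
  ∀ x : Fin m → ℤ → ℝ, (∀ a, x a (-1) = 0) → 0 ≤ ∑ a, ∑ b, ∑ s ∈ Wn N, ∑ t ∈ Wn N, M a s b t * (x a s * x b t)

theorem Frm_nonneg (h : St s X) {N : ℕ} {M : Fin m → ℤ → Fin m → ℤ → ℝ} (hM : PM N M) (z : Fin m → ℂ) :
    0 ≤ Frm N M z X := by
  have y1 : ∀ a, Y z X a (-1) = 0 := by
    intro a
    unfold Y U
    rw [if_neg (by norm_num), MOD.St.u1 h, mul_zero]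
  have h1 := hM (fun a s => (Y z X a s).re) fun a => by rw [y1, Complex.zero_re]
  have h2 := hM (fun a s => (Y z X a s).im) fun a => by rw [y1, Complex.zero_im]
  have e : Frm N M z X = (∑ a, ∑ b, ∑ s ∈ Wn N, ∑ t ∈ Wn N, M a s b t * ((Y z X a s).re * (Y z X b t).re))
      + ∑ a, ∑ b, ∑ s ∈ Wn N, ∑ t ∈ Wn N, M a s b t * ((Y z X a s).im * (Y z X b t).im) := by
    unfold Frm
    simp only [Complex.re_sum]
    rw [← Finset.sum_add_distrib]
    refine Finset.sum_congr rfl fun a _ => ?_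
    rw [← Finset.sum_add_distrib]
    refine Finset.sum_congr rfl fun b _ => ?_
    rw [← Finset.sum_add_distrib]
    refine Finset.sum_congr rfl fun s _ => ?_
    rw [← Finset.sum_add_distrib]
    refine Finset.sum_congr rfl fun t _ => ?_
    rw [Complex.re_ofReal_mul, Complex.mul_re, Complex.conj_re, Complex.conj_im]
    ring
  rw [e]
  exact add_nonneg h1 h2

/-- **the modal certificate** -/
theorem modal (h : St s X) (h0 : 0 ≤ s) (hs : s ≤ s') (h1 : s' ≤ 1) (D : Dat m) (hs2 : D.s2 = s' ^ 2)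
    (hcs : D.c ^ 2 + s' ^ 2 = 1) (hω : ∀ a b, D.om a b = D.om b a) (hKN : D.K + 1 ≤ D.N)
    (hW : P4 D.K D.W) (hG : P4 D.J D.G) (hom : P2 D.om)
    (hT : P2 fun a b => D.om a b * D.c ^ 2 * (2 * D.N + 1) ^ 2 - D.p a b)
    {T : Fin m → ℤ → Fin m → ℤ → ℝ} (hM : PM D.N (D.M T)) (z : Fin m → ℂ) :
    0 ≤ Frm D.N T z X + ((mn fun t => X t ^ 2 * hc D.J (hz D.G z) t) - rz D.p z * mn fun t => X t ^ 2) := by
  have k0 : rz D.p z ≤ rz D.om z * D.c ^ 2 * (2 * D.N + 1) ^ 2 := by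
    have a1 := rz_mono hT z
    have a2 : rz (fun a b => D.om a b * D.c ^ 2 * (2 * D.N + 1) ^ 2) z = rz D.om z * D.c ^ 2 * (2 * D.N + 1) ^ 2 := by
      have a3 := rz_mul (D.c ^ 2 * (2 * D.N + 1) ^ 2) D.om z
      have a4 : (fun a b => D.om a b * D.c ^ 2 * (2 * (D.N : ℝ) + 1) ^ 2)
          = fun a b => D.c ^ 2 * (2 * (D.N : ℝ) + 1) ^ 2 * D.om a b := by
        funext a b
        ring
      rw [a4, a3]
      ring
    linarith
  have k1 := MOD.scal h h0 hs h1 hcs (N := D.N) (psd_hz hW z) (psd_hz hG z) (rz_nonneg hom z) k0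
  rw [fin_eq h D hs2 hω hKN z] at k1
  have k2 := Frm_nonneg h hM z
  have k3 : Frm D.N (D.M T) z X = Frm D.N T z X + Frm D.N D.M0 z X + 0 := by
    rw [← Frm_null h D.N D.R z, ← Frm_add, ← Frm_add]
    rfl
  rw [k3] at k2
  unfold Frm at k2 ⊢
  linarith

/-! ### the symbol of `X²` -/

theorem hc_cm {X : ℝ → ℝ} (hX : Continuous X) (K : ℕ) (H : ℕ → ℕ → ℂ) :
    (mn fun t => X t ^ 2 * hc K H t) = (lam K H fun k l => cm X ((l : ℤ) - k)).re := by
  have c0 : ∀ k l : ℕ, Continuous fun t : ℝ => X t ^ 2 * ((H k l).re * Real.cos (2 * ((k : ℤ) - l : ℤ) * t)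
      - (H k l).im * Real.sin (2 * ((k : ℤ) - l : ℤ) * t)) := fun k l => (hX.pow 2).mul (by fun_prop)
  have i1 : ∀ k : ℕ, IntervalIntegrable (fun t : ℝ => ∑ l ∈ Finset.range (K + 1), X t ^ 2 *
      ((H k l).re * Real.cos (2 * ((k : ℤ) - l : ℤ) * t) - (H k l).im * Real.sin (2 * ((k : ℤ) - l : ℤ) * t)))
      volume 0 (2 * Real.pi) := fun k =>
    (continuous_finsetSum _ fun l _ => c0 k l).intervalIntegrable _ _
  have e2 : (mn fun t => X t ^ 2 * hc K H t) = ∑ k ∈ Finset.range (K + 1), ∑ l ∈ Finset.range (K + 1),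
      mn fun t => X t ^ 2 * ((H k l).re * Real.cos (2 * ((k : ℤ) - l : ℤ) * t)
        - (H k l).im * Real.sin (2 * ((k : ℤ) - l : ℤ) * t)) := by
    unfold mn hc
    simp only [Finset.mul_sum]
    rw [intervalIntegral.integral_finsetSum fun k _ => i1 k, Finset.mul_sum]
    refine Finset.sum_congr rfl fun k _ => ?_
    rw [intervalIntegral.integral_finsetSum fun l _ => (c0 k l).intervalIntegrable _ _, Finset.mul_sum]
  rw [e2]
  unfold lam
  rw [Complex.re_sum]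
  refine Finset.sum_congr rfl fun k _ => ?_
  rw [Complex.re_sum]
  refine Finset.sum_congr rfl fun l _ => ?_
  have e3 : (fun t => X t ^ 2 * ((H k l).re * Real.cos (2 * ((k : ℤ) - l : ℤ) * t)
        - (H k l).im * Real.sin (2 * ((k : ℤ) - l : ℤ) * t)))
      = fun t => (H k l).re * (X t ^ 2 * Real.cos (2 * ((l : ℤ) - k : ℤ) * t))
        - (H k l).im * -(X t ^ 2 * Real.sin (2 * ((l : ℤ) - k : ℤ) * t)) := by
    funext t
    have e1 : Real.cos (2 * ((l : ℤ) - k : ℤ) * t) = Real.cos (2 * ((k : ℤ) - l : ℤ) * t) := by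
      rw [← Real.cos_neg]
      congr 1
      push_cast
      ring
    have e2 : Real.sin (2 * ((l : ℤ) - k : ℤ) * t) = -Real.sin (2 * ((k : ℤ) - l : ℤ) * t) := by
      rw [← Real.sin_neg]
      congr 1
      push_cast
      ring
    rw [e1, e2]
    ring
  have j1 : IntervalIntegrable (fun t => (H k l).re * (X t ^ 2 * Real.cos (2 * ((l : ℤ) - k : ℤ) * t))) volume 0
      (2 * Real.pi) := (continuous_const.mul ((hX.pow 2).mul (by fun_prop))).intervalIntegrable _ _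
  have j2 : IntervalIntegrable (fun t => (H k l).im * -(X t ^ 2 * Real.sin (2 * ((l : ℤ) - k : ℤ) * t))) volume 0
      (2 * Real.pi) := (continuous_const.mul ((hX.pow 2).mul (by fun_prop)).neg).intervalIntegrable _ _
  rw [e3, ALX.mn_sub j1 j2, ALX.mn_mul, ALX.mn_mul, Complex.mul_re]
  rfl

/-- the sum of a diagonal of a matrix (`l - k = j`) -/
def wl (K : ℕ) (A : ℕ → ℕ → ℝ) (j : ℤ) : ℝ :=
  ∑ k ∈ Finset.range (K + 1), ∑ l ∈ Finset.range (K + 1), if (l : ℤ) - k = j then A k l else 0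

theorem sum_wl {K : ℕ} (A : ℕ → ℕ → ℝ) (φ : ℤ → ℂ) :
    lam K (fun k l => ((A k l : ℝ) : ℂ)) (fun k l => φ ((l : ℤ) - k))
      = ∑ j ∈ Finset.Ico (-(K : ℤ)) (K + 1), ((wl K A j : ℝ) : ℂ) * φ j := by
  have e1 : ∀ j, ((wl K A j : ℝ) : ℂ) * φ j = ∑ k ∈ Finset.range (K + 1), ∑ l ∈ Finset.range (K + 1),
      if (l : ℤ) - k = j then ((A k l : ℝ) : ℂ) * φ j else 0 := by
    intro j
    unfold wl
    push_cast
    rw [Finset.sum_mul]
    refine Finset.sum_congr rfl fun k _ => ?_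
    rw [Finset.sum_mul]
    refine Finset.sum_congr rfl fun l _ => ?_
    split_ifs <;> simp
  simp only [e1]
  unfold lam
  symm
  rw [Finset.sum_comm]
  refine Finset.sum_congr rfl fun k hk => ?_
  rw [Finset.sum_comm]
  refine Finset.sum_congr rfl fun l hl => ?_
  have hk' := Finset.mem_range.1 hk
  have hl' := Finset.mem_range.1 hl
  rw [Finset.sum_eq_single ((l : ℤ) - k)]
  · rw [if_pos rfl]
  · intro j _ hj
    exact if_neg fun h => hj h.symm
  · exact fun h => absurd (Finset.mem_Ico.2 ⟨by omega, by omega⟩) h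

/-- the quadratic part with the symbol `q` -/
def Qf (J : ℕ) (q : Fin m → Fin m → ℤ → ℝ) (z : Fin m → ℂ) (X : ℝ → ℝ) : ℝ :=
  (∑ a, ∑ b, (z a * (starRingEnd ℂ) (z b)) * ∑ j ∈ Finset.Ico (-(J : ℤ)) (J + 1), ((q a b j : ℝ) : ℂ) * cm X j).re

theorem cm_zero (X : ℝ → ℝ) : cm X 0 = ((mn fun t => X t ^ 2 : ℝ) : ℂ) := by
  unfold cm
  apply Complex.ext
  · simp
  · simp only [Int.cast_zero, mul_zero, zero_mul, Real.sin_zero, neg_zero, Complex.ofReal_im]
    unfold mn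
    simp

/-- the symbol of a matrix -/
theorem hc_Qf {X : ℝ → ℝ} (hX : Continuous X) {J : ℕ} {G : Fin m → ℕ → Fin m → ℕ → ℝ} {p : Fin m → Fin m → ℝ}
    {q : Fin m → Fin m → ℤ → ℝ}
    (hq : ∀ a b, ∀ j ∈ Finset.Ico (-(J : ℤ)) (J + 1), wl J (fun k l => G a k b l) j = q a b j + if j = 0 then p a b else 0)
    (z : Fin m → ℂ) :
    (mn fun t => X t ^ 2 * hc J (hz G z) t) - rz p z * (mn fun t => X t ^ 2) = Qf J q z X := by
  rw [hc_cm hX, lam_hz]
  have e1 : ∀ a b, lam J (fun k l => ((G a k b l : ℝ) : ℂ)) (fun k l => cm X ((l : ℤ) - k))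
      = (∑ j ∈ Finset.Ico (-(J : ℤ)) (J + 1), ((q a b j : ℝ) : ℂ) * cm X j)
        + ((p a b : ℝ) : ℂ) * ((mn fun t => X t ^ 2 : ℝ) : ℂ) := by
    intro a b
    rw [sum_wl (fun k l => G a k b l) (cm X), ← cm_zero]
    have e2 : ∀ j ∈ Finset.Ico (-(J : ℤ)) (J + 1), ((wl J (fun k l => G a k b l) j : ℝ) : ℂ) * cm X j
        = ((q a b j : ℝ) : ℂ) * cm X j + if j = 0 then ((p a b : ℝ) : ℂ) * cm X j else 0 := by
      intro j hj
      rw [hq a b j hj]
      split_ifs <;> push_cast <;> ring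
    rw [Finset.sum_congr rfl e2, Finset.sum_add_distrib,
      Finset.sum_ite_eq' (Finset.Ico (-(J : ℤ)) (J + 1)) 0 fun j => ((p a b : ℝ) : ℂ) * cm X j,
      if_pos (Finset.mem_Ico.2 ⟨by omega, by omega⟩)]
  simp only [e1, mul_add, Finset.sum_add_distrib]
  rw [Complex.add_re]
  have e3 : (∑ a, ∑ b, (z a * (starRingEnd ℂ) (z b)) * (((p a b : ℝ) : ℂ) * ((mn fun t => X t ^ 2 : ℝ) : ℂ))).re
      = rz p z * mn fun t => X t ^ 2 := by
    unfold rz
    rw [Complex.re_sum, Finset.sum_mul]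
    refine Finset.sum_congr rfl fun a _ => ?_
    rw [Complex.re_sum, Finset.sum_mul]
    refine Finset.sum_congr rfl fun b _ => ?_
    rw [← Complex.ofReal_mul, Complex.re_mul_ofReal]
    ring
  rw [e3]
  unfold Qf
  ring

/-- **the modal certificate for a form with the symbol `q`** -/
theorem modalq (h : St s X) (h0 : 0 ≤ s) (hs : s ≤ s') (h1 : s' ≤ 1) (D : Dat m) (hs2 : D.s2 = s' ^ 2)
    (hcs : D.c ^ 2 + s' ^ 2 = 1) (hω : ∀ a b, D.om a b = D.om b a) (hKN : D.K + 1 ≤ D.N)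
    (hW : P4 D.K D.W) (hG : P4 D.J D.G) (hom : P2 D.om)
    (hT : P2 fun a b => D.om a b * D.c ^ 2 * (2 * D.N + 1) ^ 2 - D.p a b)
    {T : Fin m → ℤ → Fin m → ℤ → ℝ} (hM : PM D.N (D.M T)) {q : Fin m → Fin m → ℤ → ℝ}
    (hq : ∀ a b, ∀ j ∈ Finset.Ico (-(D.J : ℤ)) (D.J + 1),
      wl D.J (fun k l => D.G a k b l) j = q a b j + if j = 0 then D.p a b else 0) (z : Fin m → ℂ) :
    0 ≤ Frm D.N T z X + Qf D.J q z X := by
  have k1 := modal h h0 hs h1 D hs2 hcs hω hKN hW hG hom hT hM z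
  rwa [hc_Qf h.cont hq z] at k1

end Pool.Agent.FPX.MOE
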