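import Mathlib
import Pool.Agent.FPX.MOE

/-
MOP (helper50): products of nonnegative linear forms in the modal certificate. A nonnegative form is a vector
`f : ℤ → ℂ` of coefficients in the slots with `Σ f s U s` real and nonnegative on the class of `s'`.
The means of `φ N₊` with `φ = |Σ p_j e^{ija}|²` are such forms.
-/

set_option autoImplicit false

open MeasureTheory Set Filter Topology
open scoped NNReal

noncomputable section

namespace Pool.Agent.FPX.MOP

open Complex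
open Pool.Agent.FPX.QST (mn uk Wn mem_Wn)
open Pool.Agent.FPX.ALX (St Np)
open Pool.Agent.FPX.MOE (U Y Frm Qf P4 P2 PM Dat wl)

variable {m : ℕ} {s s' : ℝ} {X : ℝ → ℝ}

/-! ### the moments -/

/-- `mean (X e^{ija})` -/
def Xh (X : ℝ → ℝ) (j : ℤ) : ℂ := ⟨mn fun t => X t * Real.cos (j * t), mn fun t => X t * Real.sin (j * t)⟩

theorem Xh_odd (hX : Continuous X) (k : ℤ) : Xh X (-(2 * k + 1)) = uk X k := by
  rw [Pool.Agent.FPX.MOD.uk_int hX]
  unfold Xh
  have e1 : (fun t => X t * Real.cos (((-(2 * k + 1) : ℤ) : ℝ) * t)) = fun t => X t * Real.cos ((2 * k + 1) * t) := by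
    funext t
    rw [← Real.cos_neg]
    congr 2
    push_cast
    ring
  have e2 : (fun t => X t * Real.sin (((-(2 * k + 1) : ℤ) : ℝ) * t))
      = fun t => (-1) * (X t * Real.sin ((2 * k + 1) * t)) := by
    funext t
    rw [show (((-(2 * k + 1) : ℤ) : ℝ) * t) = -((2 * k + 1) * t) by push_cast; ring, Real.sin_neg]
    ring
  rw [e1, e2, ALX.mn_mul, neg_one_mul]

theorem cos_pi (k : ℤ) (a : ℝ) : Real.cos (((2 * k : ℤ) : ℝ) * (a + Real.pi)) = Real.cos (((2 * k : ℤ) : ℝ) * a) := by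
  rw [show ((2 * k : ℤ) : ℝ) * (a + Real.pi) = ((2 * k : ℤ) : ℝ) * a + k * (2 * Real.pi) by push_cast; ring,
    Real.cos_add_int_mul_two_pi]

theorem sin_pi (k : ℤ) (a : ℝ) : Real.sin (((2 * k : ℤ) : ℝ) * (a + Real.pi)) = Real.sin (((2 * k : ℤ) : ℝ) * a) := by
  rw [show ((2 * k : ℤ) : ℝ) * (a + Real.pi) = ((2 * k : ℤ) : ℝ) * a + k * (2 * Real.pi) by push_cast; ring,
    Real.sin_add_int_mul_two_pi]

theorem Xh_even (h : St s X) (k : ℤ) : Xh X (2 * k) = 0 := by
  unfold Xh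
  have e1 : (mn fun t => X t * Real.cos (((2 * k : ℤ) : ℝ) * t)) = 0 := by
    refine ALX.mn_anti (h.cont.mul (by fun_prop)) fun a => ?_
    rw [cos_pi, h.anti]
    ring
  have e2 : (mn fun t => X t * Real.sin (((2 * k : ℤ) : ℝ) * t)) = 0 := by
    refine ALX.mn_anti (h.cont.mul (by fun_prop)) fun a => ?_
    rw [sin_pi, h.anti]
    ring
  rw [e1, e2]
  rfl

theorem mn_cosz (j : ℤ) : (mn fun a => Real.cos (j * a)) = if j = 0 then 1 else 0 := by
  obtain ⟨n, rfl | rfl⟩ := j.eq_nat_or_neg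
  · have h := ALX.mn_cos n
    have e : (fun a : ℝ => Real.cos (((n : ℤ) : ℝ) * a)) = fun a => Real.cos ((n : ℝ) * a) := by
      funext a
      rw [Int.cast_natCast]
    rw [e, h]
    simp only [Int.natCast_eq_zero]
  · have h := ALX.mn_cos n
    have e : (fun a : ℝ => Real.cos (((-(n : ℤ) : ℤ) : ℝ) * a)) = fun a => Real.cos ((n : ℝ) * a) := by
      funext a
      rw [← Real.cos_neg]
      congr 1
      push_cast
      ring
    rw [e, h]
    simp only [neg_eq_zero, Int.natCast_eq_zero]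

theorem mn_sinz (j : ℤ) : (mn fun a => Real.sin (j * a)) = 0 := by
  obtain ⟨n, rfl | rfl⟩ := j.eq_nat_or_neg
  · have h := ALX.mn_sin n
    have e : (fun a : ℝ => Real.sin (((n : ℤ) : ℝ) * a)) = fun a => Real.sin ((n : ℝ) * a) := by
      funext a
      rw [Int.cast_natCast]
    rw [e, h]
  · have h := ALX.mn_sin n
    have e : (fun a : ℝ => Real.sin (((-(n : ℤ) : ℤ) : ℝ) * a)) = fun a => (-1) * Real.sin ((n : ℝ) * a) := by
      funext a
      rw [neg_one_mul, ← Real.sin_neg]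
      congr 1
      push_cast
      ring
    rw [e, ALX.mn_mul, h, mul_zero]

theorem per_cosz (j : ℤ) : Real.cos ((j : ℝ) * (2 * Real.pi)) = Real.cos ((j : ℝ) * 0) := by
  have := Real.cos_add_int_mul_two_pi 0 j
  rw [zero_add] at this
  rw [this, mul_zero]

theorem per_sinz (j : ℤ) : Real.sin ((j : ℝ) * (2 * Real.pi)) = Real.sin ((j : ℝ) * 0) := by
  have := Real.sin_add_int_mul_two_pi 0 j
  rw [zero_add] at this
  rw [this, mul_zero]

/-- `mean (e^{ija} N₊)` -/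
def ej (s : ℝ) (X : ℝ → ℝ) (j : ℤ) : ℂ :=
  ⟨mn fun a => Real.cos (j * a) * Np s X a, mn fun a => Real.sin (j * a) * Np s X a⟩

theorem ej_eq (h : St s X) (j : ℤ) :
    ej s X j = (s : ℂ) * (if j = 0 then 1 else 0) + I * j * Xh X j
      + (s : ℂ) / 2 * (((j : ℂ) - 1) * Xh X (j - 1) - ((j : ℂ) + 1) * Xh X (j + 1)) := by
  have c1 := h.mn_np (ALX.der_cos j) (by fun_prop) (per_cosz j)
  have c2 := h.mn_np (ALX.der_sin j) (by fun_prop) (per_sinz j)
  have e : (fun a => X a * (-((j : ℝ) * Real.sin (j * a)) * (1 - s * Real.sin a) - Real.cos (j * a) * (s * Real.cos a)))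
      = fun a => (-j * (X a * Real.sin (j * a)) + s / 2 * (j - 1) * (X a * Real.cos ((j - 1) * a)))
        - s / 2 * (j + 1) * (X a * Real.cos ((j + 1) * a)) := by
    funext a
    rw [ALX.cos_m, ALX.cos_p]
    ring
  rw [e, ALX.mn_sub ((h.isin _ _).add (h.icos _ _)) (h.icos _ _), ALX.mn_add (h.isin _ _) (h.icos _ _),
    ALX.mn_mul, ALX.mn_mul, ALX.mn_mul, mn_cosz] at c1
  have e' : (fun a => X a * ((j : ℝ) * Real.cos (j * a) * (1 - s * Real.sin a) - Real.sin (j * a) * (s * Real.cos a)))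
      = fun a => (j * (X a * Real.cos (j * a)) + s / 2 * (j - 1) * (X a * Real.sin ((j - 1) * a)))
        - s / 2 * (j + 1) * (X a * Real.sin ((j + 1) * a)) := by
    funext a
    rw [ALX.sin_m, ALX.sin_p]
    ring
  rw [e', ALX.mn_sub ((h.icos _ _).add (h.isin _ _)) (h.isin _ _), ALX.mn_add (h.icos _ _) (h.isin _ _),
    ALX.mn_mul, ALX.mn_mul, ALX.mn_mul, mn_sinz] at c2
  have q1 : Xh X (j - 1) = ⟨mn fun t => X t * Real.cos (((j : ℝ) - 1) * t), mn fun t => X t * Real.sin (((j : ℝ) - 1) * t)⟩ := by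
    unfold Xh
    push_cast
    rfl
  have q2 : Xh X (j + 1) = ⟨mn fun t => X t * Real.cos (((j : ℝ) + 1) * t), mn fun t => X t * Real.sin (((j : ℝ) + 1) * t)⟩ := by
    unfold Xh
    push_cast
    rfl
  rw [q1, q2]
  unfold ej Xh
  rw [c1, c2]
  have k1 : (s : ℂ) / 2 = ((s / 2 : ℝ) : ℂ) := by push_cast; ring
  have k2 : (j : ℂ) - 1 = (((j : ℝ) - 1 : ℝ) : ℂ) := by push_cast; ring
  have k3 : (j : ℂ) + 1 = (((j : ℝ) + 1 : ℝ) : ℂ) := by push_cast; ring
  have k4 : (s : ℂ) * (if j = 0 then 1 else 0) = ((s * (if j = 0 then 1 else 0) : ℝ) : ℂ) := by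
    split_ifs <;> push_cast <;> ring
  have k5 : (j : ℂ) = (((j : ℝ) : ℝ) : ℂ) := by push_cast; rfl
  rw [k1, k2, k3, k4, k5]
  apply Complex.ext
  · simp only [Complex.add_re, Complex.mul_re, Complex.sub_re, Complex.sub_im, Complex.mul_im, Complex.ofReal_re,
      Complex.ofReal_im, Complex.I_re, Complex.I_im]
    ring
  · simp only [Complex.mul_re, Complex.sub_re, Complex.sub_im, Complex.mul_im, Complex.ofReal_re,
      Complex.ofReal_im, Complex.I_re, Complex.I_im, Complex.add_im]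
    ring

/-! ### in the slots -/

/-- the coefficient of `U t` in `mean (e^{ida} N₊)` -/
def bt (s' : ℝ) (d t : ℤ) : ℂ :=
  if t = 0 then (if d = 0 then (s' : ℂ) else 0)
  else (2 * (t : ℂ) + 1) * ((if d = -2 * t - 1 then -I else 0)
    + (s' : ℂ) / 2 * ((if d = -2 * t - 2 then 1 else 0) - if d = -2 * t then 1 else 0))

theorem sum_one {N : ℕ} {t₀ : ℤ} (h : t₀ ∈ Wn N) (F : ℤ → ℂ) :
    ∑ t ∈ Wn N, (if t = t₀ then F t else 0) = F t₀ := by
  rw [Finset.sum_ite_eq' (Wn N) t₀ F, if_pos h]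

theorem ej_slots (h : St s' X) {N : ℕ} {d : ℤ} (hd : -(2 * (N : ℤ)) < d) (hd' : d < 2 * N) :
    ej s' X d = ∑ t ∈ Wn N, bt s' d t * U X t := by
  have u0 : uk X 0 = 0 := MOD.St.u0 h
  have e0 : ∀ t : ℤ, bt s' d t * U X t = (if t = 0 then (if d = 0 then (s' : ℂ) else 0) else 0)
      + ((if d = -2 * t - 1 then (2 * (t : ℂ) + 1) * -I * uk X t else 0)
        + ((if d = -2 * t - 2 then (2 * (t : ℂ) + 1) * ((s' : ℂ) / 2) * uk X t else 0)
          - if d = -2 * t then (2 * (t : ℂ) + 1) * ((s' : ℂ) / 2) * uk X t else 0)) := by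
    intro t
    unfold bt U
    by_cases ht : t = 0
    · subst ht
      simp only [if_pos, u0, mul_zero, ite_self, sub_zero, add_zero, mul_one]
    · rw [if_neg ht, if_neg ht, if_neg ht]
      split_ifs <;> ring
  simp only [e0, Finset.sum_add_distrib, Finset.sum_sub_distrib]
  have z0 : (0 : ℤ) ∈ Wn N := mem_Wn.2 ⟨by omega, by omega⟩
  rw [sum_one z0 fun _ => (if d = 0 then (s' : ℂ) else 0), ej_eq h]
  rcases Int.even_or_odd d with hd2 | hd2
  · obtain ⟨r, hr⟩ := hd2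
    have hr2 : d = 2 * r := by omega
    have a1 : ∑ t ∈ Wn N, (if d = -2 * t - 1 then (2 * (t : ℂ) + 1) * -I * uk X t else 0) = 0 :=
      Finset.sum_eq_zero fun t _ => if_neg (by omega)
    have a2 : ∑ t ∈ Wn N, (if d = -2 * t - 2 then (2 * (t : ℂ) + 1) * ((s' : ℂ) / 2) * uk X t else 0)
        = (2 * ((-r - 1 : ℤ) : ℂ) + 1) * ((s' : ℂ) / 2) * uk X (-r - 1) := by
      rw [← sum_one (t₀ := -r - 1) (N := N) (mem_Wn.2 ⟨by omega, by omega⟩)
        fun t => (2 * (t : ℂ) + 1) * ((s' : ℂ) / 2) * uk X t]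
      refine Finset.sum_congr rfl fun t _ => ?_
      exact if_congr (by omega) rfl rfl
    have a3 : ∑ t ∈ Wn N, (if d = -2 * t then (2 * (t : ℂ) + 1) * ((s' : ℂ) / 2) * uk X t else 0)
        = (2 * ((-r : ℤ) : ℂ) + 1) * ((s' : ℂ) / 2) * uk X (-r) := by
      rw [← sum_one (t₀ := -r) (N := N) (mem_Wn.2 ⟨by omega, by omega⟩)
        fun t => (2 * (t : ℂ) + 1) * ((s' : ℂ) / 2) * uk X t]
      refine Finset.sum_congr rfl fun t _ => ?_
      exact if_congr (by omega) rfl rfl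
    have b1 : Xh X d = 0 := by rw [hr2, Xh_even h]
    have b2 : Xh X (d - 1) = uk X (-r) := by rw [← Xh_odd h.cont]; congr 1; omega
    have b3 : Xh X (d + 1) = uk X (-r - 1) := by rw [← Xh_odd h.cont]; congr 1; omega
    rw [a1, a2, a3, b1, b2, b3, hr2]
    push_cast
    split_ifs <;> ring
  · obtain ⟨r, hr⟩ := hd2
    have a1 : ∑ t ∈ Wn N, (if d = -2 * t - 1 then (2 * (t : ℂ) + 1) * -I * uk X t else 0)
        = (2 * ((-r - 1 : ℤ) : ℂ) + 1) * -I * uk X (-r - 1) := by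
      rw [← sum_one (t₀ := -r - 1) (N := N) (mem_Wn.2 ⟨by omega, by omega⟩)
        fun t => (2 * (t : ℂ) + 1) * -I * uk X t]
      refine Finset.sum_congr rfl fun t _ => ?_
      exact if_congr (by omega) rfl rfl
    have a2 : ∑ t ∈ Wn N, (if d = -2 * t - 2 then (2 * (t : ℂ) + 1) * ((s' : ℂ) / 2) * uk X t else 0) = 0 :=
      Finset.sum_eq_zero fun t _ => if_neg (by omega)
    have a3 : ∑ t ∈ Wn N, (if d = -2 * t then (2 * (t : ℂ) + 1) * ((s' : ℂ) / 2) * uk X t else 0) = 0 :=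
      Finset.sum_eq_zero fun t _ => if_neg (by omega)
    have b1 : Xh X d = uk X (-r - 1) := by rw [← Xh_odd h.cont]; congr 1; omega
    have b2 : Xh X (d - 1) = 0 := by
      rw [show d - 1 = 2 * r by omega, Xh_even h]
    have b3 : Xh X (d + 1) = 0 := by
      rw [show d + 1 = 2 * (r + 1) by omega, Xh_even h]
    rw [a1, a2, a3, b1, b2, b3, hr]
    push_cast
    rw [if_neg (by omega), if_neg (by omega)]
    ring

/-! ### nonnegative forms -/

/-- a nonnegative linear form on the class of `s'` -/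
def NN (N : ℕ) (s' : ℝ) (f : ℤ → ℂ) : Prop :=
  ∀ X, St s' X → ∃ r : ℝ, 0 ≤ r ∧ ∑ t ∈ Wn N, f t * U X t = (r : ℂ)

/-- with its reflection -/
def NN2 (N : ℕ) (s' : ℝ) (f : ℤ → ℂ) : Prop := NN N s' f ∧ NN N s' fun t => (starRingEnd ℂ) (f t)

theorem NN_one {N : ℕ} (hN : 1 ≤ N) : NN2 N s' fun t => if t = 0 then 1 else 0 := by
  have k : NN N s' fun t => if t = 0 then 1 else 0 := by
    intro X _
    refine ⟨1, zero_le_one, ?_⟩
    have e : ∀ t, (if t = 0 then (1 : ℂ) else 0) * U X t = if t = 0 then U X t else 0 := by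
      intro t
      split_ifs <;> ring
    simp only [e]
    rw [sum_one (mem_Wn.2 ⟨by omega, by omega⟩) (U X)]
    simp [U]
  refine ⟨k, ?_⟩
  have e : (fun t : ℤ => (starRingEnd ℂ) (if t = 0 then (1 : ℂ) else 0)) = fun t => if t = 0 then (1 : ℂ) else 0 := by
    funext t
    split_ifs <;> simp
  rw [e]
  exact k

theorem NN.add {N : ℕ} {f g : ℤ → ℂ} (hf : NN N s' f) (hg : NN N s' g) : NN N s' fun t => f t + g t := by
  intro X hX
  obtain ⟨r, h1, h2⟩ := hf X hX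
  obtain ⟨r', h3, h4⟩ := hg X hX
  refine ⟨r + r', add_nonneg h1 h3, ?_⟩
  push_cast
  rw [← h2, ← h4, ← Finset.sum_add_distrib]
  exact Finset.sum_congr rfl fun t _ => by ring

theorem NN.smul {N : ℕ} {f : ℤ → ℂ} (hf : NN N s' f) {c : ℝ} (hc : 0 ≤ c) : NN N s' fun t => (c : ℂ) * f t := by
  intro X hX
  obtain ⟨r, h1, h2⟩ := hf X hX
  refine ⟨c * r, mul_nonneg hc h1, ?_⟩
  push_cast
  rw [← h2, Finset.mul_sum]
  exact Finset.sum_congr rfl fun t _ => by ring

/-- the autocorrelation of `p` -/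
def ac (J : ℕ) (p : ℕ → ℂ) (d : ℤ) : ℂ :=
  ∑ k ∈ Finset.range (J + 1), ∑ l ∈ Finset.range (J + 1), if (k : ℤ) - l = d then p k * (starRingEnd ℂ) (p l) else 0

/-- the form of the mean of `φ N₊`, with the coefficients `φ` -/
def lf (s' : ℝ) (φ : ℤ → ℂ) (t : ℤ) : ℂ :=
  if t = 0 then (s' : ℂ) * φ 0
  else (2 * (t : ℂ) + 1) * (-I * φ (-2 * t - 1) + (s' : ℂ) / 2 * (φ (-2 * t - 2) - φ (-2 * t)))

theorem lf_ac (J : ℕ) (p : ℕ → ℂ) (t : ℤ) :
    lf s' (ac J p) t = ∑ k ∈ Finset.range (J + 1), ∑ l ∈ Finset.range (J + 1),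
      p k * (starRingEnd ℂ) (p l) * bt s' ((k : ℤ) - l) t := by
  unfold lf bt ac
  by_cases ht : t = 0
  · rw [if_pos ht, Finset.mul_sum]
    refine Finset.sum_congr rfl fun k _ => ?_
    rw [Finset.mul_sum]
    refine Finset.sum_congr rfl fun l _ => ?_
    rw [if_pos ht]
    split_ifs <;> ring
  · rw [if_neg ht]
    have e : ∀ A B C : ℕ → ℕ → ℂ, (2 * (t : ℂ) + 1) * (-I * (∑ k ∈ Finset.range (J + 1), ∑ l ∈ Finset.range (J + 1), A k l)
        + (s' : ℂ) / 2 * ((∑ k ∈ Finset.range (J + 1), ∑ l ∈ Finset.range (J + 1), B k l)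
          - ∑ k ∈ Finset.range (J + 1), ∑ l ∈ Finset.range (J + 1), C k l))
        = ∑ k ∈ Finset.range (J + 1), ∑ l ∈ Finset.range (J + 1),
          (2 * (t : ℂ) + 1) * (-I * A k l + (s' : ℂ) / 2 * (B k l - C k l)) := by
      intro A B C
      simp only [Finset.mul_sum, ← Finset.sum_add_distrib, ← Finset.sum_sub_distrib]
    rw [e]
    refine Finset.sum_congr rfl fun k _ => Finset.sum_congr rfl fun l _ => ?_
    rw [if_neg ht]
    split_ifs <;> ring

theorem cexp_re_im (x : ℝ) : cexp ((x : ℂ) * I) = ⟨Real.cos x, Real.sin x⟩ := by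
  apply Complex.ext
  · rw [Complex.exp_ofReal_mul_I_re]
  · rw [Complex.exp_ofReal_mul_I_im]

/-- the weight -/
def ph (J : ℕ) (p : ℕ → ℂ) (a : ℝ) : ℝ :=
  Complex.normSq (∑ k ∈ Finset.range (J + 1), p k * cexp (((k : ℝ) * a : ℝ) * I))

theorem ph_eq (J : ℕ) (p : ℕ → ℂ) (a : ℝ) :
    ph J p a = ∑ k ∈ Finset.range (J + 1), ∑ l ∈ Finset.range (J + 1),
      ((p k * (starRingEnd ℂ) (p l)).re * Real.cos (((k : ℤ) - l : ℤ) * a)
        - (p k * (starRingEnd ℂ) (p l)).im * Real.sin (((k : ℤ) - l : ℤ) * a)) := by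
  have e1 : (ph J p a : ℂ) = ∑ k ∈ Finset.range (J + 1), ∑ l ∈ Finset.range (J + 1),
      (p k * (starRingEnd ℂ) (p l)) * cexp ((((((k : ℤ) - l : ℤ) : ℝ) * a : ℝ) : ℂ) * I) := by
    unfold ph
    rw [← Complex.mul_conj, map_sum, Finset.sum_mul]
    refine Finset.sum_congr rfl fun k _ => ?_
    rw [Finset.mul_sum]
    refine Finset.sum_congr rfl fun l _ => ?_
    rw [map_mul, ← Complex.exp_conj]
    have e2 : (starRingEnd ℂ) ((((l : ℝ) * a : ℝ) : ℂ) * I) = -((((l : ℝ) * a : ℝ) : ℂ) * I) := by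
      rw [map_mul, Complex.conj_ofReal, Complex.conj_I]
      ring
    rw [e2, Complex.exp_neg]
    have e3 : ((((((k : ℤ) - l : ℤ) : ℝ) * a : ℝ) : ℂ) * I) = (((k : ℝ) * a : ℝ) : ℂ) * I - (((l : ℝ) * a : ℝ) : ℂ) * I := by
      push_cast
      ring
    rw [e3, Complex.exp_sub]
    field_simp
  have e2 : ph J p a = (∑ k ∈ Finset.range (J + 1), ∑ l ∈ Finset.range (J + 1),
      (p k * (starRingEnd ℂ) (p l)) * cexp ((((((k : ℤ) - l : ℤ) : ℝ) * a : ℝ) : ℂ) * I)).re := by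
    rw [← e1, Complex.ofReal_re]
  rw [e2, Complex.re_sum]
  refine Finset.sum_congr rfl fun k _ => ?_
  rw [Complex.re_sum]
  refine Finset.sum_congr rfl fun l _ => ?_
  rw [cexp_re_im, Complex.mul_re]

theorem ph_nonneg (J : ℕ) (p : ℕ → ℂ) (a : ℝ) : 0 ≤ ph J p a := Complex.normSq_nonneg _

theorem ph_cont (J : ℕ) (p : ℕ → ℂ) : Continuous (ph J p) := by
  unfold ph
  fun_prop

/-- the mean of `φ N₊` -/
theorem mn_ph (h : St s' X) (J : ℕ) (p : ℕ → ℂ) :
    (mn fun a => ph J p a * Np s' X a) = (∑ k ∈ Finset.range (J + 1), ∑ l ∈ Finset.range (J + 1),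
      (p k * (starRingEnd ℂ) (p l)) * ej s' X ((k : ℤ) - l)).re := by
  have i0 : ∀ k l : ℕ, IntervalIntegrable (fun a : ℝ => ((p k * (starRingEnd ℂ) (p l)).re * Real.cos (((k : ℤ) - l : ℤ) * a)
        - (p k * (starRingEnd ℂ) (p l)).im * Real.sin (((k : ℤ) - l : ℤ) * a)) * Np s' X a) volume 0 (2 * Real.pi) :=
    fun k l => h.int_np (by fun_prop) _ _
  have e1 : (fun a => ph J p a * Np s' X a) = fun a => ∑ k ∈ Finset.range (J + 1), ∑ l ∈ Finset.range (J + 1),
      ((p k * (starRingEnd ℂ) (p l)).re * Real.cos (((k : ℤ) - l : ℤ) * a)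
        - (p k * (starRingEnd ℂ) (p l)).im * Real.sin (((k : ℤ) - l : ℤ) * a)) * Np s' X a := by
    funext a
    rw [ph_eq, Finset.sum_mul]
    refine Finset.sum_congr rfl fun k _ => ?_
    rw [Finset.sum_mul]
  have i1 : ∀ k : ℕ, IntervalIntegrable (fun a : ℝ => ∑ l ∈ Finset.range (J + 1),
      ((p k * (starRingEnd ℂ) (p l)).re * Real.cos (((k : ℤ) - l : ℤ) * a)
        - (p k * (starRingEnd ℂ) (p l)).im * Real.sin (((k : ℤ) - l : ℤ) * a)) * Np s' X a) volume 0 (2 * Real.pi) := by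
    intro k
    have := IntervalIntegrable.sum (Finset.range (J + 1)) fun l _ => i0 k l
    refine this.congr fun t _ => ?_
    simp
  rw [e1]
  unfold mn
  rw [intervalIntegral.integral_finsetSum fun k _ => i1 k, Finset.mul_sum, Complex.re_sum]
  refine Finset.sum_congr rfl fun k _ => ?_
  rw [intervalIntegral.integral_finsetSum fun l _ => i0 k l, Finset.mul_sum, Complex.re_sum]
  refine Finset.sum_congr rfl fun l _ => ?_
  have e2 : (fun a : ℝ => ((p k * (starRingEnd ℂ) (p l)).re * Real.cos (((k : ℤ) - l : ℤ) * a)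
        - (p k * (starRingEnd ℂ) (p l)).im * Real.sin (((k : ℤ) - l : ℤ) * a)) * Np s' X a)
      = fun a => (p k * (starRingEnd ℂ) (p l)).re * (Real.cos (((k : ℤ) - l : ℤ) * a) * Np s' X a)
        - (p k * (starRingEnd ℂ) (p l)).im * (Real.sin (((k : ℤ) - l : ℤ) * a) * Np s' X a) := by
    funext a
    ring
  rw [e2]
  change mn _ = _
  have j1 : IntervalIntegrable (fun a : ℝ => (p k * (starRingEnd ℂ) (p l)).re * (Real.cos (((k : ℤ) - l : ℤ) * a) * Np s' X a))
      volume 0 (2 * Real.pi) := by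
    have := h.int_np (φ := fun a => (p k * (starRingEnd ℂ) (p l)).re * Real.cos (((k : ℤ) - l : ℤ) * a)) (by fun_prop) 0
      (2 * Real.pi)
    refine this.congr fun t _ => ?_
    ring
  have j2 : IntervalIntegrable (fun a : ℝ => (p k * (starRingEnd ℂ) (p l)).im * (Real.sin (((k : ℤ) - l : ℤ) * a) * Np s' X a))
      volume 0 (2 * Real.pi) := by
    have := h.int_np (φ := fun a => (p k * (starRingEnd ℂ) (p l)).im * Real.sin (((k : ℤ) - l : ℤ) * a)) (by fun_prop) 0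
      (2 * Real.pi)
    refine this.congr fun t _ => ?_
    ring
  rw [ALX.mn_sub j1 j2, ALX.mn_mul, ALX.mn_mul, Complex.mul_re]
  rfl

theorem ej_neg (s : ℝ) (X : ℝ → ℝ) (j : ℤ) : ej s X (-j) = (starRingEnd ℂ) (ej s X j) := by
  unfold ej
  have e1 : (fun a => Real.cos (((-j : ℤ) : ℝ) * a) * Np s X a) = fun a => Real.cos (j * a) * Np s X a := by
    funext a
    rw [← Real.cos_neg]
    congr 2
    push_cast
    ring
  have e2 : (fun a => Real.sin (((-j : ℤ) : ℝ) * a) * Np s X a) = fun a => (-1) * (Real.sin (j * a) * Np s X a) := by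
    funext a
    rw [show ((-j : ℤ) : ℝ) * a = -(j * a) by push_cast; ring, Real.sin_neg]
    ring
  rw [e1, e2, ALX.mn_mul]
  apply Complex.ext
  · simp
  · simp

theorem herm_real (J : ℕ) (p : ℕ → ℂ) (s : ℝ) (X : ℝ → ℝ) :
    (∑ k ∈ Finset.range (J + 1), ∑ l ∈ Finset.range (J + 1), (p k * (starRingEnd ℂ) (p l)) * ej s X ((k : ℤ) - l)).im = 0 := by
  rw [← Complex.conj_eq_iff_im]
  rw [map_sum]
  simp only [map_sum, map_mul, Complex.conj_conj]
  rw [Finset.sum_comm]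
  refine Finset.sum_congr rfl fun k _ => Finset.sum_congr rfl fun l _ => ?_
  rw [← ej_neg, neg_sub]
  ring

theorem NN_ac {N J : ℕ} (hJ : J + 1 ≤ 2 * N) (p : ℕ → ℂ) : NN N s' (lf s' (ac J p)) := by
  intro X hX
  refine ⟨mn fun a => ph J p a * Np s' X a, ?_, ?_⟩
  · unfold mn
    refine mul_nonneg (by positivity) ?_
    refine intervalIntegral.integral_nonneg_of_ae_restrict Real.two_pi_pos.le ?_
    refine ae_restrict_of_ae ?_
    filter_upwards [hX.np] with a ha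
    exact mul_nonneg (ph_nonneg J p a) ha
  · have e1 : (mn fun a => ph J p a * Np s' X a : ℝ) = (∑ k ∈ Finset.range (J + 1), ∑ l ∈ Finset.range (J + 1),
      (p k * (starRingEnd ℂ) (p l)) * ej s' X ((k : ℤ) - l)) := by
      rw [mn_ph hX]
      apply Complex.ext
      · rw [Complex.ofReal_re]
      · rw [Complex.ofReal_im, herm_real]
    rw [e1]
    have e2 : ∀ k ∈ Finset.range (J + 1), ∀ l ∈ Finset.range (J + 1), (p k * (starRingEnd ℂ) (p l)) * ej s' X ((k : ℤ) - l)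
        = ∑ t ∈ Wn N, (p k * (starRingEnd ℂ) (p l) * bt s' ((k : ℤ) - l) t) * U X t := by
      intro k hk l hl
      have := Finset.mem_range.1 hk
      have := Finset.mem_range.1 hl
      rw [ej_slots (N := N) hX (by omega) (by omega), Finset.mul_sum]
      exact Finset.sum_congr rfl fun t _ => by ring
    have e3 : ∀ t, lf s' (ac J p) t * U X t = ∑ k ∈ Finset.range (J + 1), ∑ l ∈ Finset.range (J + 1),
        (p k * (starRingEnd ℂ) (p l) * bt s' ((k : ℤ) - l) t) * U X t := by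
      intro t
      rw [lf_ac, Finset.sum_mul]
      refine Finset.sum_congr rfl fun k _ => ?_
      rw [Finset.sum_mul]
    simp only [e3]
    rw [Finset.sum_comm]
    refine Finset.sum_congr rfl fun k hk => ?_
    rw [Finset.sum_comm]
    exact Finset.sum_congr rfl fun l hl => (e2 k hk l hl).symm

/-- the reflection of the generator -/
def rp (p : ℕ → ℂ) (k : ℕ) : ℂ := (-1) ^ k * (starRingEnd ℂ) (p k)

theorem ac_rp (J : ℕ) (p : ℕ → ℂ) (d : ℤ) :
    ac J (rp p) d = (if Even d then 1 else -1) * (starRingEnd ℂ) (ac J p d) := by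
  unfold ac rp
  simp only [map_sum, Finset.mul_sum]
  refine Finset.sum_congr rfl fun k _ => Finset.sum_congr rfl fun l _ => ?_
  by_cases h : (k : ℤ) - l = d
  · rw [if_pos h, if_pos h]
    have e : ((-1 : ℂ) ^ k * (-1) ^ l) = if Even d then 1 else -1 := by
      rw [← pow_add]
      by_cases hd : Even d
      · rw [if_pos hd]
        refine Even.neg_one_pow ?_
        rw [← Int.even_coe_nat]
        rw [← h] at hd
        push_cast
        have := hd.add (even_two_mul (l : ℤ))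
        have e2 : (k : ℤ) - l + 2 * l = k + l := by ring
        rwa [e2] at this
      · rw [if_neg hd]
        refine Odd.neg_one_pow ?_
        rw [← Nat.not_even_iff_odd]
        intro h2
        apply hd
        rw [← h]
        rw [← Int.even_coe_nat] at h2
        push_cast at h2
        have := h2.sub (even_two_mul (l : ℤ))
        have e2 : (k : ℤ) + l - 2 * l = k - l := by ring
        rwa [e2] at this
    rw [← e]
    simp only [map_mul, map_pow, map_neg, map_one, Complex.conj_conj]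
    ring
  · rw [if_neg h, if_neg h]
    simp

theorem lf_rp (J : ℕ) (p : ℕ → ℂ) (t : ℤ) : lf s' (ac J (rp p)) t = (starRingEnd ℂ) (lf s' (ac J p) t) := by
  unfold lf
  simp only [ac_rp]
  have h1 : ¬ Even (-2 * t - 1) := by
    rw [Int.not_even_iff_odd]
    exact ⟨-t - 1, by ring⟩
  have h2 : Even (-2 * t - 2) := ⟨-t - 1, by ring⟩
  have h3 : Even (-2 * t) := ⟨-t, by ring⟩
  rw [if_pos Even.zero, if_neg h1, if_pos h2, if_pos h3]
  split_ifs
  · rw [map_mul, Complex.conj_ofReal]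
    ring
  · simp only [map_mul, map_add, map_sub, Complex.conj_ofReal, Complex.conj_I, map_div₀, map_neg]
    have e1 : (starRingEnd ℂ) (t : ℂ) = t := by
      have : (t : ℂ) = ((t : ℝ) : ℂ) := by push_cast; rfl
      rw [this, Complex.conj_ofReal]
    have e2 : (starRingEnd ℂ) (2 : ℂ) = 2 := Complex.conj_ofNat 2
    rw [e1, e2, map_one]
    ring

/-- **the squares give nonnegative forms** -/
theorem NN2_ac {N J : ℕ} (hJ : J + 1 ≤ 2 * N) (p : ℕ → ℂ) : NN2 N s' (lf s' (ac J p)) := by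
  refine ⟨NN_ac hJ p, ?_⟩
  have e : (fun t => (starRingEnd ℂ) (lf s' (ac J p) t)) = lf s' (ac J (rp p)) := by
    funext t
    rw [lf_rp]
  rw [e]
  exact NN_ac hJ (rp p)

/-! ### the products -/

/-- a product of two forms, with its reflection -/
def TP (K : Fin m → Fin m → ℂ) (f g : ℤ → ℂ) (a : Fin m) (s : ℤ) (b : Fin m) (t : ℤ) : ℝ :=
  2 * (K a b * (f s * (starRingEnd ℂ) (g t))).re

def PH (K : Fin m → Fin m → ℂ) : Prop := ∀ z : Fin m → ℂ, 0 ≤ (∑ a, ∑ b, K a b * (z a * (starRingEnd ℂ) (z b))).re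

theorem PH_vec (v : Fin m → ℂ) : PH fun a b => v a * (starRingEnd ℂ) (v b) := by
  intro z
  have e : ∑ a, ∑ b, v a * (starRingEnd ℂ) (v b) * (z a * (starRingEnd ℂ) (z b))
      = (∑ a, v a * z a) * (starRingEnd ℂ) (∑ a, v a * z a) := by
    rw [map_sum, Finset.sum_mul]
    refine Finset.sum_congr rfl fun a _ => ?_
    rw [Finset.mul_sum]
    refine Finset.sum_congr rfl fun b _ => ?_
    rw [map_mul]
    ring
  rw [e, Complex.mul_conj, Complex.ofReal_re]
  exact Complex.normSq_nonneg _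

theorem PH.add {K K' : Fin m → Fin m → ℂ} (h : PH K) (h' : PH K') : PH fun a b => K a b + K' a b := by
  intro z
  have e : ∑ a, ∑ b, (K a b + K' a b) * (z a * (starRingEnd ℂ) (z b))
      = (∑ a, ∑ b, K a b * (z a * (starRingEnd ℂ) (z b))) + ∑ a, ∑ b, K' a b * (z a * (starRingEnd ℂ) (z b)) := by
    rw [← Finset.sum_add_distrib]
    refine Finset.sum_congr rfl fun a _ => ?_
    rw [← Finset.sum_add_distrib]
    exact Finset.sum_congr rfl fun b _ => by ring
  rw [e, Complex.add_re]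
  exact add_nonneg (h z) (h' z)

theorem PH_conj {K : Fin m → Fin m → ℂ} (h : PH K) : PH fun a b => (starRingEnd ℂ) (K a b) := by
  intro z
  have h1 := h fun a => (starRingEnd ℂ) (z a)
  have e : ∑ a, ∑ b, (starRingEnd ℂ) (K a b) * (z a * (starRingEnd ℂ) (z b))
      = (starRingEnd ℂ) (∑ a, ∑ b, K a b * ((starRingEnd ℂ) (z a) * (starRingEnd ℂ) ((starRingEnd ℂ) (z b)))) := by
    simp only [map_sum, map_mul, Complex.conj_conj]
  rw [e, Complex.conj_re]
  exact h1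

theorem prod_eq (K : Fin m → Fin m → ℂ) (f g : ℤ → ℂ) (N : ℕ) (z : Fin m → ℂ) (X : ℝ → ℝ) :
    ∑ a, ∑ b, ∑ s ∈ Wn N, ∑ t ∈ Wn N, (K a b * (f s * (starRingEnd ℂ) (g t))) * (Y z X a s * (starRingEnd ℂ) (Y z X b t))
      = (∑ a, ∑ b, K a b * (z a * (starRingEnd ℂ) (z b)))
        * ((∑ s ∈ Wn N, f s * U X s) * (starRingEnd ℂ) (∑ t ∈ Wn N, g t * U X t)) := by
  rw [Finset.sum_mul]
  refine Finset.sum_congr rfl fun a _ => ?_
  rw [Finset.sum_mul]
  refine Finset.sum_congr rfl fun b _ => ?_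
  rw [Finset.sum_mul, Finset.mul_sum]
  refine Finset.sum_congr rfl fun s _ => ?_
  rw [map_sum, Finset.mul_sum, Finset.mul_sum]
  refine Finset.sum_congr rfl fun t _ => ?_
  unfold Y
  simp only [map_mul]
  ring

theorem prod_nonneg {N : ℕ} (hX : St s' X) {K : Fin m → Fin m → ℂ} (hK : PH K) {f g : ℤ → ℂ} (hf : NN N s' f)
    (hg : NN N s' g) (z : Fin m → ℂ) :
    0 ≤ (∑ a, ∑ b, ∑ s ∈ Wn N, ∑ t ∈ Wn N, (K a b * (f s * (starRingEnd ℂ) (g t)))
      * (Y z X a s * (starRingEnd ℂ) (Y z X b t))).re := by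
  obtain ⟨r, h1, h2⟩ := hf X hX
  obtain ⟨r', h3, h4⟩ := hg X hX
  rw [prod_eq, h2, h4, Complex.conj_ofReal, ← Complex.ofReal_mul, Complex.re_mul_ofReal]
  exact mul_nonneg (hK z) (mul_nonneg h1 h3)

theorem Frm_TP {N : ℕ} (hX : St s' X) {K : Fin m → Fin m → ℂ} (hK : PH K) {f g : ℤ → ℂ} (hf : NN2 N s' f)
    (hg : NN2 N s' g) (z : Fin m → ℂ) : 0 ≤ Frm N (TP K f g) z X := by
  have h1 := prod_nonneg hX hK hf.1 hg.1 z
  have h2 := prod_nonneg hX (PH_conj hK) hf.2 hg.2 z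
  have e : Frm N (TP K f g) z X = (∑ a, ∑ b, ∑ s ∈ Wn N, ∑ t ∈ Wn N, (K a b * (f s * (starRingEnd ℂ) (g t)))
      * (Y z X a s * (starRingEnd ℂ) (Y z X b t))).re
      + (∑ a, ∑ b, ∑ s ∈ Wn N, ∑ t ∈ Wn N, ((starRingEnd ℂ) (K a b) * ((starRingEnd ℂ) (f s)
        * (starRingEnd ℂ) ((starRingEnd ℂ) (g t)))) * (Y z X a s * (starRingEnd ℂ) (Y z X b t))).re := by
    unfold Pool.Agent.FPX.MOE.Frm TP
    rw [← Complex.add_re]
    congr 1
    rw [← Finset.sum_add_distrib]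
    refine Finset.sum_congr rfl fun a _ => ?_
    rw [← Finset.sum_add_distrib]
    refine Finset.sum_congr rfl fun b _ => ?_
    rw [← Finset.sum_add_distrib]
    refine Finset.sum_congr rfl fun s _ => ?_
    rw [← Finset.sum_add_distrib]
    refine Finset.sum_congr rfl fun t _ => ?_
    rw [← add_mul]
    congr 1
    rw [← Complex.add_conj]
    simp only [map_mul]
  rw [e]
  exact add_nonneg h1 h2

theorem Frm_sum {ι : Type*} (P : Finset ι) (F : ι → Fin m → ℤ → Fin m → ℤ → ℝ) (N : ℕ) (z : Fin m → ℂ) (X : ℝ → ℝ) :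
    Frm N (fun a s b t => ∑ i ∈ P, F i a s b t) z X = ∑ i ∈ P, Frm N (F i) z X := by
  classical
  induction P using Finset.induction_on with
  | empty => simp [Pool.Agent.FPX.MOE.Frm]
  | insert i P hi ih =>
    rw [Finset.sum_insert hi, ← ih, ← MOE.Frm_add]
    congr 1
    funext a s b t
    rw [Finset.sum_insert hi]

/-- **the modal certificate with products** -/
theorem modalp (h : St s X) (h0 : 0 ≤ s) (hs : s ≤ s') (h1 : s' ≤ 1) (D : Dat m) (hs2 : D.s2 = s' ^ 2)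
    (hcs : D.c ^ 2 + s' ^ 2 = 1) (hω : ∀ a b, D.om a b = D.om b a) (hKN : D.K + 1 ≤ D.N)
    (hW : P4 D.K D.W) (hG : P4 D.J D.G) (hom : P2 D.om)
    (hT : P2 fun a b => D.om a b * D.c ^ 2 * (2 * D.N + 1) ^ 2 - D.p a b)
    {T : Fin m → ℤ → Fin m → ℤ → ℝ} {ι : Type*} (P : Finset ι) (K : ι → Fin m → Fin m → ℂ) (f g : ι → ℤ → ℂ)
    (hK : ∀ i ∈ P, PH (K i)) (hf : ∀ i ∈ P, NN2 D.N s' (f i)) (hg : ∀ i ∈ P, NN2 D.N s' (g i))
    (hM : PM D.N (D.M fun a s b t => T a s b t - ∑ i ∈ P, TP (K i) (f i) (g i) a s b t))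
    {q : Fin m → Fin m → ℤ → ℝ}
    (hq : ∀ a b, ∀ j ∈ Finset.Ico (-(D.J : ℤ)) (D.J + 1),
      wl D.J (fun k l => D.G a k b l) j = q a b j + if j = 0 then D.p a b else 0) (z : Fin m → ℂ) :
    0 ≤ Frm D.N T z X + Qf D.J q z X := by
  have hX : St s' X := h.mono h0 hs h1
  have k1 := MOE.modalq h h0 hs h1 D hs2 hcs hω hKN hW hG hom hT hM hq z
  have k2 : 0 ≤ ∑ i ∈ P, Frm D.N (TP (K i) (f i) (g i)) z X :=
    Finset.sum_nonneg fun i hi => Frm_TP hX (hK i hi) (hf i hi) (hg i hi) z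
  have k3 : Frm D.N T z X = Frm D.N (fun a s b t => T a s b t - ∑ i ∈ P, TP (K i) (f i) (g i) a s b t) z X
      + ∑ i ∈ P, Frm D.N (TP (K i) (f i) (g i)) z X := by
    rw [← Frm_sum, ← MOE.Frm_add]
    congr 1
    funext a s b t
    ring
  rw [k3]
  linarith

end Pool.Agent.FPX.MOP
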