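import Mathlib
import Pool.Agent.FPX.MOP

/-
MOBA (helper66): slots by natural numbers, elimination test for small integer matrices, digits of packed numbers.
-/

set_option autoImplicit false

open Finset

noncomputable section

namespace Pool.Agent.FPX.MOB

open Pool.Agent.FPX.QST (Wn mem_Wn)
open Pool.Agent.FPX.MOE (rf PM P4 P2)

/-! ### slots -/

/-- the slots in the order `0, 1, -2, 2, -3, ..` -/
def sl (p : ℕ) : ℤ := if p = 0 then 0 else if p % 2 = 1 then ((p + 1) / 2 : ℕ) else -((p / 2 + 1 : ℕ) : ℤ)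

/-- the reflection -/
def rp (p : ℕ) : ℕ := if p = 0 then 0 else if p % 2 = 1 then p + 1 else p - 1

theorem cs (p : ℕ) : p = 0 ∨ (∃ j, p = 2 * j + 1) ∨ ∃ j, p = 2 * j + 2 := by
  rcases Nat.even_or_odd' p with ⟨k, rfl | rfl⟩
  · rcases Nat.eq_zero_or_pos k with rfl | h
    · exact Or.inl rfl
    · exact Or.inr (Or.inr ⟨k - 1, by omega⟩)
  · exact Or.inr (Or.inl ⟨k, rfl⟩)

theorem sl0 : sl 0 = 0 := rfl

theorem sl1 (j : ℕ) : sl (2 * j + 1) = j + 1 := by
  unfold sl
  rw [if_neg (by omega), if_pos (by omega)]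
  omega

theorem sl2 (j : ℕ) : sl (2 * j + 2) = -(j : ℤ) - 2 := by
  unfold sl
  rw [if_neg (by omega), if_neg (by omega)]
  omega

theorem rp0 : rp 0 = 0 := rfl

theorem rp1 (j : ℕ) : rp (2 * j + 1) = 2 * j + 2 := by
  unfold rp
  rw [if_neg (by omega), if_pos (by omega)]

theorem rp2 (j : ℕ) : rp (2 * j + 2) = 2 * j + 1 := by
  unfold rp
  rw [if_neg (by omega), if_neg (by omega)]
  omega

theorem rp_rp (p : ℕ) : rp (rp p) = p := by
  rcases cs p with rfl | ⟨j, rfl⟩ | ⟨j, rfl⟩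
  · rfl
  · rw [rp1, rp2]
  · rw [rp2, rp1]

theorem rf_sl (p : ℕ) : rf (sl p) = sl (rp p) := by
  unfold rf
  rcases cs p with rfl | ⟨j, rfl⟩ | ⟨j, rfl⟩
  · simp [sl0, rp0]
  · rw [rp1, sl1, sl2, if_neg (by omega)]
    ring
  · rw [rp2, sl1, sl2, if_neg (by omega)]
    ring

theorem rp_lt {N p : ℕ} (hp : p < 2 * N - 1) : rp p < 2 * N - 1 := by
  unfold rp
  split_ifs <;> omega

theorem sl_ne (p : ℕ) : sl p ≠ -1 := by
  unfold sl
  split_ifs <;> omega

theorem sl_inj {p q : ℕ} (h : sl p = sl q) : p = q := by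
  unfold sl at h
  split_ifs at h <;> omega

theorem sl_mem {N p : ℕ} (hp : p < 2 * N - 1) : sl p ∈ Wn N := by
  refine mem_Wn.2 ?_
  unfold sl
  split_ifs <;> omega

theorem sl_surj {N : ℕ} {s : ℤ} (hs : s ∈ Wn N) (h1 : s ≠ -1) : ∃ p, p < 2 * N - 1 ∧ sl p = s := by
  have := mem_Wn.1 hs
  rcases lt_trichotomy s 0 with h | h | h
  · refine ⟨(2 * (-s - 1)).toNat, ?_, ?_⟩
    · omega
    · unfold sl
      split_ifs <;> omega
  · exact ⟨0, by omega, by simp [sl, h]⟩
  · refine ⟨(2 * s - 1).toNat, ?_, ?_⟩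
    · omega
    · unfold sl
      split_ifs <;> omega

/-- sums over the slots -/
theorem sum_sl {M : Type*} [AddCommMonoid M] (N : ℕ) (F : ℤ → M) (h0 : F (-1) = 0) :
    ∑ s ∈ Wn N, F s = ∑ p ∈ range (2 * N - 1), F (sl p) := by
  symm
  have e : ∑ p ∈ range (2 * N - 1), F (sl p) = ∑ s ∈ (range (2 * N - 1)).image sl, F s := by
    rw [Finset.sum_image]
    intro p _ q _ h
    exact sl_inj h
  rw [e]
  refine Finset.sum_subset ?_ ?_
  · intro s hs
    obtain ⟨p, hp, rfl⟩ := Finset.mem_image.1 hs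
    exact sl_mem (Finset.mem_range.1 hp)
  · intro s hs hs'
    by_cases h1 : s = -1
    · rw [h1, h0]
    · exfalso
      obtain ⟨p, hp, rfl⟩ := sl_surj hs h1
      exact hs' (Finset.mem_image.2 ⟨p, Finset.mem_range.2 hp, rfl⟩)

variable {m : ℕ}

/-- positivity in the order of the slots -/
theorem PM_of {N : ℕ} {M : Fin m → ℤ → Fin m → ℤ → ℝ}
    (h : ∀ x : ℕ → ℕ → ℝ, 0 ≤ ∑ a : Fin m, ∑ b : Fin m, ∑ p ∈ range (2 * N - 1), ∑ q ∈ range (2 * N - 1),
      M a (sl p) b (sl q) * (x a p * x b q)) : PM N M := by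
  intro x hx
  classical
  have h1 := h fun a p => if ha : a < m then x ⟨a, ha⟩ (sl p) else 0
  refine h1.trans (le_of_eq ?_)
  refine Finset.sum_congr rfl fun a _ => Finset.sum_congr rfl fun b _ => ?_
  rw [sum_sl N fun s => ∑ t ∈ Wn N, M a s b t * (x a s * x b t)]
  · refine Finset.sum_congr rfl fun p _ => ?_
    rw [sum_sl N fun t => M a (sl p) b t * (x a (sl p) * x b t)]
    · refine Finset.sum_congr rfl fun q _ => ?_
      simp
    · rw [hx b]
      ring
  · refine Finset.sum_eq_zero fun t _ => ?_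
    rw [hx a]
    ring

/-! ### elimination -/

/-- `r . v` -/
def dot : List ℤ → List ℝ → ℝ
  | a :: r, x :: v => a * x + dot r v
  | _, _ => 0

/-- value of the form with the rows of the upper triangle -/
def qf : List (List ℤ) → List ℝ → ℝ
  | (d :: r) :: rs, x :: v => d * x ^ 2 + 2 * x * dot r v + qf rs v
  | _, _ => 0

/-- the rows have the lengths `n, n - 1, ..` -/
def tri : List (List ℤ) → Bool
  | [] => true
  | r :: rs => and (Nat.beq r.length (rs.length + 1)) (tri rs)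

/-- `x - ⌈a b / d⌉` for each entry -/
def su (a d : ℤ) : List ℤ → List ℤ → List ℤ
  | b :: l, x :: r => Int.add x (Int.ediv (Int.neg (Int.mul a b)) d) :: su a d l r
  | _, _ => []

/-- elimination of one row, with the slack `g` on the diagonal -/
def upd (g d : ℤ) : List ℤ → List (List ℤ) → List (List ℤ)
  | a :: l, (x :: r) :: rs => (Int.sub (Int.add x (Int.ediv (Int.neg (Int.mul a a)) d)) g :: su a d l r) :: upd g d l rs
  | _, _ => []

def zr : List ℤ → Bool
  | [] => true
  | a :: l => decide (a = 0) && zr l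

/-- the elimination test -/
def el : ℕ → List (List ℤ) → Bool
  | 0, l => l.isEmpty
  | n + 1, (d :: r) :: rs =>
    if d = 0 then zr r && el n rs else decide (0 < d) && el n (upd n d r rs)
  | _, _ => false

def sq : List ℝ → ℝ
  | x :: v => x ^ 2 + sq v
  | _ => 0

theorem sq_nonneg' : ∀ v : List ℝ, 0 ≤ sq v
  | [] => le_refl _
  | x :: v => add_nonneg (sq_nonneg x) (sq_nonneg' v)

theorem tri_cons {r : List ℤ} {rs : List (List ℤ)} : tri (r :: rs) = true ↔ r.length = rs.length + 1 ∧ tri rs = true := by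
  simp [tri, Nat.beq_eq]

theorem ediv_bd (a : ℤ) {d : ℤ} (hd : 0 < d) : ((a / d : ℤ) : ℝ) ≤ a / d ∧ (a : ℝ) / d < (a / d : ℤ) + 1 := by
  have hd' : (0 : ℝ) < d := by exact_mod_cast hd
  constructor
  · rw [le_div_iff₀ hd']
    exact_mod_cast Int.ediv_mul_le a hd.ne'
  · rw [div_lt_iff₀ hd']
    exact_mod_cast Int.lt_ediv_add_one_mul_self a hd

theorem su_bd (a : ℤ) {d : ℤ} (hd : 0 < d) (y : ℝ) : ∀ (l r : List ℤ) (v : List ℝ), l.length = r.length → v.length = r.length →
    -(r.length * y ^ 2 + sq v) ≤ 2 * y * (dot r v - a * dot l v / d - dot (su a d l r) v)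
  | [], [], [], _, _ => by simp [dot, sq, su]
  | b :: l, x :: r, z :: v, h1, h2 => by
    have ih := su_bd a hd y l r v (by simpa using h1) (by simpa using h2)
    obtain ⟨e1, e2⟩ := ediv_bd (-(a * b)) hd
    have e3 : Int.add x (Int.ediv (Int.neg (Int.mul a b)) d) = x + (-(a * b)) / d := rfl
    simp only [dot, su, sq, List.length_cons, e3]
    push_cast at e1 e2 ⊢
    set θ : ℝ := -(a * b : ℝ) / d - ((-(a * b) / d : ℤ) : ℝ) with hθ
    have t0 : 0 ≤ θ := by rw [hθ]; linarith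
    have t1 : θ ≤ 1 := by rw [hθ]; linarith
    have e4 : (2 : ℝ) * y * ((x * z + dot r v) - a * (b * z + dot l v) / d
        - ((x + ((-(a * b) / d : ℤ) : ℝ)) * z + dot (su a d l r) v))
        = 2 * y * (dot r v - a * dot l v / d - dot (su a d l r) v) + 2 * θ * (y * z) := by
      rw [hθ]
      ring
    rw [e4]
    have e5 : -(y ^ 2 + z ^ 2) ≤ 2 * θ * (y * z) := by
      nlinarith [mul_nonneg t0 (sq_nonneg (y + z)), mul_nonneg (sub_nonneg.2 t1) (add_nonneg (sq_nonneg y) (sq_nonneg z))]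
    nlinarith

theorem upd_bd {d : ℤ} (hd : 0 < d) (g : ℤ) : ∀ (l : List ℤ) (rs : List (List ℤ)) (v : List ℝ), tri rs = true →
    l.length = rs.length → v.length = rs.length →
    (g - (rs.length - 1)) * sq v ≤ qf rs v - dot l v ^ 2 / d - qf (upd g d l rs) v
  | [], [], [], _, _, _ => by simp [dot, sq, upd, qf]
  | a :: l, [] :: rs, _ :: _, h, _, _ => by simp [tri] at h
  | a :: l, (x :: r) :: rs, z :: v, ht, h1, h2 => by
    obtain ⟨t1, t2⟩ := tri_cons.1 ht
    have ih := upd_bd hd g l rs v t2 (by simpa using h1) (by simpa using h2)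
    have l1 : r.length = rs.length := by simpa using t1
    have s1 := su_bd a hd z l r v (by rw [l1]; simpa using h1) (by rw [l1]; simpa using h2)
    obtain ⟨e1, e2⟩ := ediv_bd (-(a * a)) hd
    have e3 : Int.sub (Int.add x (Int.ediv (Int.neg (Int.mul a a)) d)) g = x + (-(a * a)) / d - g := rfl
    have hd' : (0 : ℝ) < d := by exact_mod_cast hd
    simp only [dot, qf, sq, upd, List.length_cons, e3]
    push_cast at e1 e2 s1 ⊢
    rw [l1] at s1
    have e4 : (x * z ^ 2 + 2 * z * dot r v + qf rs v) - (a * z + dot l v) ^ 2 / d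
        - ((x + ((-(a * a) / d : ℤ) : ℝ) - g) * z ^ 2 + 2 * z * dot (su a d l r) v + qf (upd g d l rs) v)
        = (g + (-(a * a : ℝ) / d - ((-(a * a) / d : ℤ) : ℝ))) * z ^ 2 + 2 * z * (dot r v - a * dot l v / d - dot (su a d l r) v)
          + (qf rs v - dot l v ^ 2 / d - qf (upd g d l rs) v) := by
      field_simp
      ring
    rw [e4]
    have e5 : 0 ≤ (-(a * a : ℝ) / d - ((-(a * a) / d : ℤ) : ℝ)) * z ^ 2 := mul_nonneg (by linarith) (sq_nonneg z)
    nlinarith
  | [], _ :: _, _, _, h1, _ => by simp at h1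
  | _ :: _, [], _, _, h1, _ => by simp at h1
  | [], [], _ :: _, _, _, h2 => by simp at h2
  | _ :: _, _ :: _, [], _, _, h2 => by simp at h2

theorem su_len (a d : ℤ) : ∀ l r : List ℤ, l.length = r.length → (su a d l r).length = r.length
  | [], [], _ => rfl
  | b :: l, x :: r, h => by simp [su, su_len a d l r (by simpa using h)]
  | [], _ :: _, h => by simp at h
  | _ :: _, [], h => by simp at h

theorem upd_tri (g d : ℤ) : ∀ (l : List ℤ) (rs : List (List ℤ)), tri rs = true → l.length = rs.length →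
    tri (upd g d l rs) = true ∧ (upd g d l rs).length = rs.length
  | [], [], _, _ => by simp [upd, tri]
  | a :: l, [] :: rs, h, _ => by simp [tri] at h
  | a :: l, (x :: r) :: rs, h, h1 => by
    obtain ⟨t1, t2⟩ := tri_cons.1 h
    obtain ⟨i1, i2⟩ := upd_tri g d l rs t2 (by simpa using h1)
    have l1 : r.length = rs.length := by simpa using t1
    have l2 := su_len a d l r (by rw [l1]; simpa using h1)
    simp only [upd]
    refine ⟨tri_cons.2 ⟨?_, i1⟩, by simp [i2]⟩
    simp [l2, l1, i2]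
  | [], _ :: _, _, h1 => by simp at h1
  | _ :: _, [], _, h1 => by simp at h1

theorem zr_dot : ∀ (l : List ℤ) (v : List ℝ), zr l = true → dot l v = 0
  | [], v, _ => by cases v <;> rfl
  | a :: l, [], _ => rfl
  | a :: l, x :: v, h => by
    simp only [zr, Bool.and_eq_true] at h
    have h1 : a = 0 := by
      have := h.1
      simpa using this
    rw [dot, zr_dot l v h.2, h1]
    simp

/-- **soundness of the elimination** -/
theorem el_sound : ∀ (n : ℕ) (rs : List (List ℤ)) (v : List ℝ), el n rs = true → tri rs = true → rs.length = n →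
    v.length = n → 0 ≤ qf rs v
  | 0, [], _, _, _, _, _ => by simp [qf]
  | 0, _ :: _, _, h, _, _, _ => by simp [el] at h
  | n + 1, [], _, _, _, h, _ => by simp at h
  | n + 1, [] :: rs, _, h, _, _, _ => by simp [el] at h
  | n + 1, (d :: r) :: rs, [], _, _, _, h => by simp at h
  | n + 1, (d :: r) :: rs, x :: v, h, ht, hl, hv => by
    obtain ⟨t1, t2⟩ := tri_cons.1 ht
    have hl' : rs.length = n := by simpa using hl
    have hv' : v.length = n := by simpa using hv
    have l1 : r.length = rs.length := by simpa using t1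
    rw [el] at h
    split_ifs at h with h0
    · rw [Bool.and_eq_true] at h
      have ih := el_sound n rs v h.2 t2 hl' hv'
      rw [qf, zr_dot r v h.1, h0]
      simpa using ih
    · rw [Bool.and_eq_true, decide_eq_true_eq] at h
      obtain ⟨hd, h2⟩ := h
      obtain ⟨u1, u2⟩ := upd_tri n d r rs t2 l1
      have ih := el_sound n (upd n d r rs) v h2 u1 (u2.trans hl') hv'
      have b1 := upd_bd hd n r rs v t2 l1 (hv'.trans hl'.symm)
      have hd' : (0 : ℝ) < d := by exact_mod_cast hd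
      rw [hl'] at b1
      have b2 : 0 ≤ ((n : ℤ) - ((n : ℕ) - 1) : ℝ) * sq v := by
        have : ((n : ℤ) - ((n : ℕ) - 1) : ℝ) = 1 := by push_cast; ring
        rw [this, one_mul]
        exact sq_nonneg' v
      have b3 : (d : ℝ) * x ^ 2 + 2 * x * dot r v + dot r v ^ 2 / d = (d * x + dot r v) ^ 2 / d := by
        field_simp
        ring
      have b4 : 0 ≤ ((d : ℝ) * x + dot r v) ^ 2 / d := by positivity
      rw [qf]
      nlinarith

/-! ### matrices given by functions -/

/-- `k` entries of the row `i` from the column `j` -/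
def row (A : ℕ → ℕ → ℤ) (i : ℕ) : ℕ → ℕ → List ℤ
  | _, 0 => []
  | j, k + 1 => A i j :: row A i (j + 1) k

/-- `k` rows from the row `i` -/
def rws (A : ℕ → ℕ → ℤ) : ℕ → ℕ → List (List ℤ)
  | _, 0 => []
  | i, k + 1 => row A i i (k + 1) :: rws A (i + 1) k

/-- a list of values -/
def vl (x : ℕ → ℝ) : ℕ → ℕ → List ℝ
  | _, 0 => []
  | i, k + 1 => x i :: vl x (i + 1) k

theorem row_len (A : ℕ → ℕ → ℤ) (i : ℕ) : ∀ k j, (row A i j k).length = k
  | 0, _ => rfl
  | k + 1, j => by simp [row, row_len A i k (j + 1)]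

theorem rws_len (A : ℕ → ℕ → ℤ) : ∀ k i, (rws A i k).length = k
  | 0, _ => rfl
  | k + 1, i => by simp [rws, rws_len A k (i + 1)]

theorem vl_len (x : ℕ → ℝ) : ∀ k i, (vl x i k).length = k
  | 0, _ => rfl
  | k + 1, i => by simp [vl, vl_len x k (i + 1)]

theorem rws_tri (A : ℕ → ℕ → ℤ) : ∀ k i, tri (rws A i k) = true
  | 0, _ => rfl
  | k + 1, i => by
    rw [rws]
    exact tri_cons.2 ⟨by rw [row_len, rws_len], rws_tri A k (i + 1)⟩

theorem dot_row (A : ℕ → ℕ → ℤ) (x : ℕ → ℝ) (i : ℕ) : ∀ k j,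
    dot (row A i j k) (vl x j k) = ∑ q ∈ range k, A i (j + q) * x (j + q)
  | 0, _ => by simp [row, dot]
  | k + 1, j => by
    rw [row, vl, dot, dot_row A x i k (j + 1), Finset.sum_range_succ', add_comm]
    congr 1
    · refine Finset.sum_congr rfl fun q _ => ?_
      rw [show j + 1 + q = j + (q + 1) by ring]

theorem qf_rws (A : ℕ → ℕ → ℤ) (hA : ∀ i j, A i j = A j i) (x : ℕ → ℝ) : ∀ k i,
    qf (rws A i k) (vl x i k) = ∑ p ∈ range k, ∑ q ∈ range k, A (i + p) (i + q) * (x (i + p) * x (i + q))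
  | 0, _ => by simp [rws, qf]
  | k + 1, i => by
    have ih := qf_rws A hA x k (i + 1)
    have d := dot_row A x i k (i + 1)
    simp only [rws, row, vl, qf]
    rw [ih, d, Finset.sum_range_succ']
    simp only [Finset.sum_range_succ' _ k, Finset.sum_add_distrib, Nat.add_zero]
    have e1 : ∑ p ∈ range k, ∑ q ∈ range k, (A (i + 1 + p) (i + 1 + q) : ℝ) * (x (i + 1 + p) * x (i + 1 + q))
        = ∑ p ∈ range k, ∑ q ∈ range k, (A (i + (p + 1)) (i + (q + 1)) : ℝ) * (x (i + (p + 1)) * x (i + (q + 1))) := by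
      refine Finset.sum_congr rfl fun p _ => Finset.sum_congr rfl fun q _ => ?_
      rw [show i + 1 + p = i + (p + 1) by ring, show i + 1 + q = i + (q + 1) by ring]
    have e2 : ∑ p ∈ range k, (A (i + (p + 1)) i : ℝ) * (x (i + (p + 1)) * x i)
        = x i * ∑ q ∈ range k, (A i (i + 1 + q) : ℝ) * x (i + 1 + q) := by
      rw [Finset.mul_sum]
      refine Finset.sum_congr rfl fun p _ => ?_
      rw [show i + 1 + p = i + (p + 1) by ring, hA (i + (p + 1)) i]
      ring
    have e3 : ∑ q ∈ range k, (A i (i + (q + 1)) : ℝ) * (x i * x (i + (q + 1)))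
        = x i * ∑ q ∈ range k, (A i (i + 1 + q) : ℝ) * x (i + 1 + q) := by
      rw [Finset.mul_sum]
      refine Finset.sum_congr rfl fun p _ => ?_
      rw [show i + 1 + p = i + (p + 1) by ring]
      ring
    rw [e1, e2, e3]
    ring

/-- the test of a symmetric matrix -/
def psd (n : ℕ) (A : ℕ → ℕ → ℤ) : Bool := el n (rws A 0 n)

theorem psd_ok {n : ℕ} {A : ℕ → ℕ → ℤ} (hA : ∀ i j, A i j = A j i) (h : psd n A = true) (x : ℕ → ℝ) :
    0 ≤ ∑ p ∈ range n, ∑ q ∈ range n, (A p q : ℝ) * (x p * x q) := by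
  have h1 := el_sound n _ (vl x 0 n) h (rws_tri A n 0) (rws_len A n 0) (vl_len x n 0)
  rw [qf_rws A hA] at h1
  simpa using h1

theorem sum_flat {M : Type*} [AddCommMonoid M] (n : ℕ) (f : ℕ → M) : ∀ k : ℕ,
    ∑ i ∈ range (k * n), f i = ∑ a ∈ range k, ∑ l ∈ range n, f (a * n + l)
  | 0 => by simp
  | k + 1 => by
    rw [Nat.succ_mul, Finset.sum_range_add, sum_flat n f k, Finset.sum_range_succ]

/-- the extension of a vector -/
def xt (x : Fin m → ℕ → ℝ) (a k : ℕ) : ℝ := if h : a < m then x ⟨a, h⟩ k else 0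

theorem xt_val (x : Fin m → ℕ → ℝ) (a : Fin m) (k : ℕ) : xt x a k = x a k := by
  unfold xt
  rw [dif_pos a.2]

/-- four index matrices -/
theorem P4_of {K : ℕ} {F : ℕ → ℕ → ℤ} (hF : ∀ i j, F i j = F j i) (h : psd (m * (K + 1)) F = true) {L : ℝ} (hL : 0 ≤ L)
    {A : Fin m → ℕ → Fin m → ℕ → ℝ}
    (hA : ∀ a k b l, k < K + 1 → l < K + 1 → A a k b l = F (a * (K + 1) + k) (b * (K + 1) + l) / L) : P4 K A := by
  intro x
  have h1 := psd_ok hF h fun i => xt x (i / (K + 1)) (i % (K + 1))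
  rw [sum_flat] at h1
  simp only [sum_flat] at h1
  have e : ∀ a k, k < K + 1 → xt x ((a * (K + 1) + k) / (K + 1)) ((a * (K + 1) + k) % (K + 1)) = xt x a k := by
    intro a k hk
    have e1 : (a * (K + 1) + k) / (K + 1) = a := by
      rw [add_comm, Nat.add_mul_div_right _ _ (Nat.succ_pos K), Nat.div_eq_of_lt hk, zero_add]
    have e2 : (a * (K + 1) + k) % (K + 1) = k := by
      rw [add_comm, Nat.add_mul_mod_self_right, Nat.mod_eq_of_lt hk]
    rw [e1, e2]
  have e2 : ∑ a : Fin m, ∑ b : Fin m, ∑ k ∈ range (K + 1), ∑ l ∈ range (K + 1), A a k b l * (x a k * x b l)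
      = (∑ a ∈ range m, ∑ k ∈ range (K + 1), ∑ b ∈ range m, ∑ l ∈ range (K + 1),
        (F (a * (K + 1) + k) (b * (K + 1) + l) : ℝ) * (xt x ((a * (K + 1) + k) / (K + 1)) ((a * (K + 1) + k) % (K + 1))
          * xt x ((b * (K + 1) + l) / (K + 1)) ((b * (K + 1) + l) % (K + 1)))) / L := by
    rw [← Fin.sum_univ_eq_sum_range (fun a => ∑ k ∈ range (K + 1), ∑ b ∈ range m, ∑ l ∈ range (K + 1),
        (F (a * (K + 1) + k) (b * (K + 1) + l) : ℝ) * (xt x ((a * (K + 1) + k) / (K + 1)) ((a * (K + 1) + k) % (K + 1))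
          * xt x ((b * (K + 1) + l) / (K + 1)) ((b * (K + 1) + l) % (K + 1)))), Finset.sum_div]
    refine Finset.sum_congr rfl fun a _ => ?_
    rw [Finset.sum_comm, Finset.sum_div]
    refine Finset.sum_congr rfl fun k hk => ?_
    rw [← Fin.sum_univ_eq_sum_range (fun b => ∑ l ∈ range (K + 1),
        (F (a * (K + 1) + k) (b * (K + 1) + l) : ℝ) * (xt x ((a * (K + 1) + k) / (K + 1)) ((a * (K + 1) + k) % (K + 1))
          * xt x ((b * (K + 1) + l) / (K + 1)) ((b * (K + 1) + l) % (K + 1)))), Finset.sum_div]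
    refine Finset.sum_congr rfl fun b _ => ?_
    rw [Finset.sum_div]
    refine Finset.sum_congr rfl fun l hl => ?_
    rw [e _ k (Finset.mem_range.1 hk), e _ l (Finset.mem_range.1 hl), xt_val, xt_val,
      hA a k b l (Finset.mem_range.1 hk) (Finset.mem_range.1 hl)]
    ring
  rw [e2]
  exact div_nonneg h1 hL

theorem P2_of {F : ℕ → ℕ → ℤ} (hF : ∀ i j, F i j = F j i) (h : psd m F = true) {L : ℝ} (hL : 0 ≤ L)
    {A : Fin m → Fin m → ℝ} (hA : ∀ a b : Fin m, A a b = F a b / L) : P2 A := by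
  intro x
  have h1 := psd_ok hF h fun i => xt (fun a _ => x a) i 0
  have e2 : ∑ a : Fin m, ∑ b : Fin m, A a b * (x a * x b)
      = (∑ a ∈ range m, ∑ b ∈ range m, (F a b : ℝ) * (xt (fun a _ => x a) a 0 * xt (fun a _ => x a) b 0)) / L := by
    rw [← Fin.sum_univ_eq_sum_range (fun a => ∑ b ∈ range m,
      (F a b : ℝ) * (xt (fun a _ => x a) a 0 * xt (fun a _ => x a) b 0)), Finset.sum_div]
    refine Finset.sum_congr rfl fun a _ => ?_
    rw [← Fin.sum_univ_eq_sum_range (fun b =>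
      (F a b : ℝ) * (xt (fun a _ => x a) a 0 * xt (fun a _ => x a) b 0)), Finset.sum_div]
    refine Finset.sum_congr rfl fun b _ => ?_
    rw [xt_val, xt_val, hA]
    ring
  rw [e2]
  exact div_nonneg h1 hL

end Pool.Agent.FPX.MOB
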