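import Mathlib
import Pool.Agent.FPX.MOBA

/-
MOBB (helper66): the integer data of a modal certificate; window sums; class sums.
-/

set_option autoImplicit false

open Finset

noncomputable section

namespace Pool.Agent.FPX.MOB

open Pool.Agent.FPX.QST (Wn mem_Wn)
open Pool.Agent.FPX.MOE (rf PM P4 P2 Dat tp wj wl H4)
open Pool.Agent.FPX.MOD (dl)

/-! ### digits -/

/-- index of a symmetric table -/
def tr (i j : ℕ) : ℕ := if Nat.ble i j then Nat.add (Nat.div (Nat.mul j (j + 1)) 2) i else Nat.add (Nat.div (Nat.mul i (i + 1)) 2) j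

theorem tr_comm (i j : ℕ) : tr i j = tr j i := by
  unfold tr
  simp only [Nat.ble_eq]
  rcases lt_trichotomy i j with h | h | h
  · rw [if_pos h.le, if_neg (by omega)]
  · rw [h]
  · rw [if_neg (by omega), if_pos h.le]

/-- digit of a table with a tag of 64 bits, signed -/
def dz (w c i : ℕ) : ℤ :=
  Int.sub (Int.ofNat (Nat.mod (Nat.shiftRight c (Nat.add 64 (Nat.mul w i))) (Nat.pow 2 w))) (Int.ofNat (Nat.pow 2 (Nat.sub w 1)))

/-- digit of a packed number -/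
def dn (w c i : ℕ) : ℕ := Nat.mod (Nat.shiftRight c (Nat.mul w i)) (Nat.pow 2 w)

/-- packing of `f i, .., f (i + k - 1)`, lowest digit first -/
def pn (w : ℕ) (f : ℕ → ℕ) : ℕ → ℕ
  | 0 => 0
  | k + 1 => Nat.add (pn w f k) (Nat.mul (f k) (Nat.pow 2 (Nat.mul w k)))

theorem pn_lt {w : ℕ} {f : ℕ → ℕ} : ∀ {k : ℕ}, (∀ i < k, f i < 2 ^ w) → pn w f k < 2 ^ (w * k)
  | 0, _ => by simp [pn]
  | k + 1, h => by
    have ih := pn_lt (k := k) fun i hi => h i (by omega)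
    have h1 := h k (by omega)
    simp only [pn, Nat.add_eq, Nat.mul_eq, Nat.pow_eq]
    have e : 2 ^ (w * (k + 1)) = 2 ^ w * 2 ^ (w * k) := by
      rw [← pow_add]
      congr 1
      ring
    rw [e]
    have h2 : (f k + 1) * 2 ^ (w * k) ≤ 2 ^ w * 2 ^ (w * k) := Nat.mul_le_mul_right _ h1
    nlinarith

theorem dn_pn {w : ℕ} {f : ℕ → ℕ} : ∀ {k : ℕ}, (∀ i < k, f i < 2 ^ w) → ∀ {i : ℕ}, i < k → dn w (pn w f k) i = f i
  | 0, _, i, hi => by omega
  | k + 1, h, i, hi => by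
    have h0 := pn_lt (k := k) fun i hi => h i (by omega)
    change ((pn w f k + f k * 2 ^ (w * k)) >>> (w * i)) % 2 ^ w = f i
    rw [Nat.shiftRight_eq_div_pow]
    rcases Nat.lt_or_ge i k with h1 | h1
    · have ih := dn_pn (k := k) (fun i hi => h i (by omega)) h1
      change ((pn w f k) >>> (w * i)) % 2 ^ w = f i at ih
      rw [Nat.shiftRight_eq_div_pow] at ih
      have e : 2 ^ (w * k) = 2 ^ (w * i) * (2 ^ w * 2 ^ (w * (k - i - 1))) := by
        rw [← pow_add, ← pow_add]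
        congr 1
        obtain ⟨j, rfl⟩ := Nat.exists_eq_add_of_lt h1
        rw [show i + j + 1 - i - 1 = j by omega]
        ring
      rw [e, show pn w f k + f k * (2 ^ (w * i) * (2 ^ w * 2 ^ (w * (k - i - 1))))
        = pn w f k + 2 ^ (w * i) * (2 ^ w * (f k * 2 ^ (w * (k - i - 1)))) by ring,
        Nat.add_mul_div_left _ _ (by positivity), Nat.add_mul_mod_self_left, ih]
    · have h2 : i = k := by omega
      subst h2
      rw [Nat.add_mul_div_right _ _ (by positivity), Nat.div_eq_of_lt h0, zero_add, Nat.mod_eq_of_lt (h i (by omega))]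

/-! ### window sums -/

/-- natural position of a slot -/
def wp (N p : ℕ) : ℕ :=
  if Nat.beq p 0 then N else if Nat.beq (Nat.mod p 2) 1 then Nat.add N (Nat.div (p + 1) 2) else Nat.sub N (Nat.add (Nat.div p 2) 1)

theorem wp_eq {N p : ℕ} (hp : p < 2 * N - 1) : (wp N p : ℤ) = sl p + N := by
  unfold wp
  rcases cs p with rfl | ⟨j, rfl⟩ | ⟨j, rfl⟩
  · rw [if_pos (by rfl), sl0]
    ring
  · rw [if_neg (by rw [Nat.beq_eq]; omega), if_pos (by rw [Nat.beq_eq]; show (2 * j + 1) % 2 = 1; omega), sl1]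
    show ((N + (2 * j + 1 + 1) / 2 : ℕ) : ℤ) = _
    omega
  · rw [if_neg (by rw [Nat.beq_eq]; omega), if_neg (by rw [Nat.beq_eq]; show ¬ (2 * j + 2) % 2 = 1; omega), sl2]
    show ((N - ((2 * j + 2) / 2 + 1) : ℕ) : ℤ) = _
    omega

/-- sum of one window diagonal with an offset -/
def tn (f : ℕ → ℕ → ℕ) (off K N2 u v : ℕ) : ℕ → ℕ
  | 0 => 0
  | k + 1 => Nat.add (tn f off K N2 u v k)
      (if and (Nat.ble v (Nat.add u k)) (and (Nat.ble (Nat.add u k) (Nat.add v K)) (and (Nat.ble K (Nat.add u k))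
        (Nat.ble (Nat.add u (k + 1)) N2))) then f k (Nat.sub (Nat.add u k) v) else off)

theorem tn_eq (f : ℕ → ℕ → ℕ) (g : ℕ → ℕ → ℤ) (off K N2 u v : ℕ) : ∀ n : ℕ, n ≤ K + 1 →
    (∀ k l, k ≤ K → l ≤ K → (f k l : ℤ) = g k l + off) →
    (tn f off K N2 u v n : ℤ) = n * off + ∑ k ∈ range n,
      if v ≤ u + k ∧ u + k ≤ v + K ∧ K ≤ u + k ∧ u + k < N2 then g k (u + k - v) else 0
  | 0, _, _ => by simp [tn]
  | n + 1, hn, h => by
    have ih := tn_eq f g off K N2 u v n (by omega) h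
    rw [Finset.sum_range_succ]
    simp only [tn, Nat.add_eq, Nat.sub_eq, Bool.and_eq_true, Nat.ble_eq]
    push_cast
    rw [ih]
    by_cases c : v ≤ u + n ∧ u + n ≤ v + K ∧ K ≤ u + n ∧ u + n < N2
    · rw [if_pos c, if_pos (by omega)]
      rw [h n (u + n - v) (by omega) (by omega)]
      ring
    · rw [if_neg c, if_neg (by omega)]
      ring

/-- the windows of `MOE` -/
theorem tp_eq (K N : ℕ) (A : ℕ → ℕ → ℝ) {s t : ℤ} {u v : ℕ} (hu : (u : ℤ) = s + N) (hv : (v : ℤ) = t + N) :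
    tp K N A s t = ∑ k ∈ range (K + 1),
      if v ≤ u + k ∧ u + k ≤ v + K ∧ K ≤ u + k ∧ u + k < 2 * N then A k (u + k - v) else 0 := by
  unfold tp
  refine Finset.sum_congr rfl fun k hk => ?_
  have hk' := Finset.mem_range.1 hk
  by_cases c : v ≤ u + k ∧ u + k ≤ v + K ∧ K ≤ u + k ∧ u + k < 2 * N
  · rw [if_pos c, Finset.sum_eq_single (u + k - v)]
    · rw [if_pos (by omega)]
    · intro l _ hl
      exact if_neg (by omega)
    · intro h
      exfalso
      exact h (Finset.mem_range.2 (by omega))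
  · rw [if_neg c]
    refine Finset.sum_eq_zero fun l hl => if_neg ?_
    have hl' := Finset.mem_range.1 hl
    omega

theorem tp_symm (K N : ℕ) (A B : ℕ → ℕ → ℝ) (h : ∀ k l, A k l = B l k) (s t : ℤ) : tp K N A s t = tp K N B t s := by
  unfold tp
  rw [Finset.sum_comm]
  refine Finset.sum_congr rfl fun l _ => Finset.sum_congr rfl fun k _ => ?_
  rw [h]
  refine if_congr ?_ rfl rfl
  constructor <;> rintro ⟨h1, h2, h3⟩ <;> refine ⟨by omega, by omega, by omega⟩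

/-- out of the band the windows vanish -/
theorem tp_zero {K N : ℕ} (A : ℕ → ℕ → ℝ) {s t : ℤ} (h : (K : ℤ) < s - t ∨ (K : ℤ) < t - s) : tp K N A s t = 0 := by
  unfold tp
  refine Finset.sum_eq_zero fun k hk => Finset.sum_eq_zero fun l hl => if_neg ?_
  have hk' := Finset.mem_range.1 hk
  have hl' := Finset.mem_range.1 hl
  omega

/-! ### the multiplier -/

/-- convolution of one index -/
def cz (K : ℕ) (d0 d1 : ℤ) (f : ℕ → ℤ) (k : ℕ) : ℤ :=
  Int.add (if Nat.ble k K then Int.mul d0 (f k) else 0) (if Nat.ble 1 k then Int.mul d1 (f (Nat.sub k 1)) else 0)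

theorem sum_dlr (K : ℕ) (d0 d1 : ℝ) (f : ℕ → ℝ) {k : ℕ} (hk : k ≤ K + 1) :
    ∑ k' ∈ range (K + 1), f k' * dl d0 d1 k k' = (if k ≤ K then d0 * f k else 0) + if 1 ≤ k then d1 * f (k - 1) else 0 := by
  have e : ∀ k', f k' * dl d0 d1 k k' = (if k' = k then d0 * f k' else 0) + if k' = k - 1 ∧ 1 ≤ k then d1 * f k' else 0 := by
    intro k'
    unfold dl
    by_cases h1 : k = k'
    · rw [if_pos h1, if_neg (by omega), if_pos h1.symm, if_neg (by omega)]
      ring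
    · by_cases h2 : k = k' + 1
      · rw [if_neg h1, if_pos h2, if_neg (by omega), if_pos (by omega)]
        ring
      · rw [if_neg h1, if_neg h2, if_neg (by omega), if_neg (by omega)]
        ring
  simp only [e, Finset.sum_add_distrib]
  congr 1
  · rw [Finset.sum_ite_eq' (range (K + 1)) k fun k' => d0 * f k']
    refine if_congr ?_ rfl rfl
    rw [Finset.mem_range]
    omega
  · by_cases h : 1 ≤ k
    · rw [if_pos h, Finset.sum_eq_single (k - 1)]
      · rw [if_pos ⟨rfl, h⟩]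
      · intro j _ hj
        exact if_neg fun hc => hj hc.1
      · intro h'
        exfalso
        exact h' (Finset.mem_range.2 (by omega))
    · rw [if_neg h]
      exact Finset.sum_eq_zero fun j _ => if_neg fun hc => h hc.2

/-! ### the data -/

/-- the integers of a certificate. Tables: digits of width `w`, offset `2^(w-1)`, first digit at the bit 64. -/
structure Cd where
  m : ℕ
  N : ℕ
  K : ℕ
  J : ℕ
  /-- `T` vanishes outside the first `NT` slots -/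
  NT : ℕ
  /-- `s' = sn / h`, `c = cn / h` -/
  sn : ℕ
  cn : ℕ
  h : ℕ
  /-- common denominator -/
  L : ℕ
  w : ℕ
  /-- width of the digits of the convolved multiplier -/
  wH : ℕ
  cW : ℕ
  cG : ℕ
  cO : ℕ
  cP : ℕ
  /-- `LK = L_K L_2²`: denominators of the products (1 if there are none) -/
  LK : ℕ
  /-- coefficients `a p b q` -/
  T : ℕ → ℕ → ℕ → ℕ → ℤ
  /-- symbol `a b (j + J)` -/
  q : ℕ → ℕ → ℕ → ℤ

namespace Cd

variable (D : Cd)

/-- digit of a table with a tag -/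
def rw (c i : ℕ) : ℕ := Nat.mod (Nat.shiftRight c (Nat.add 64 (Nat.mul D.w i))) (Nat.pow 2 D.w)

def off : ℕ := Nat.pow 2 (Nat.sub D.w 1)

def offH : ℕ := Nat.pow 2 (Nat.sub D.wH 1)

def Wn (a k b l : ℕ) : ℕ := D.rw D.cW (tr (Nat.add (Nat.mul a (D.K + 1)) k) (Nat.add (Nat.mul b (D.K + 1)) l))
def Gn (a k b l : ℕ) : ℕ := D.rw D.cG (tr (Nat.add (Nat.mul a (D.J + 1)) k) (Nat.add (Nat.mul b (D.J + 1)) l))

def sg (x : ℕ) : ℤ := Int.sub (Int.ofNat x) (Int.ofNat D.off)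

def W (a k b l : ℕ) : ℤ := D.sg (D.Wn a k b l)
def G (a k b l : ℕ) : ℤ := D.sg (D.Gn a k b l)
def om (a b : ℕ) : ℤ := D.sg (D.rw D.cO (tr a b))
def p (a b : ℕ) : ℤ := D.sg (D.rw D.cP (tr a b))

theorem Wn_comm (a k b l : ℕ) : D.Wn a k b l = D.Wn b l a k := by
  unfold Wn
  rw [tr_comm]

theorem Gn_comm (a k b l : ℕ) : D.Gn a k b l = D.Gn b l a k := by
  unfold Gn
  rw [tr_comm]

theorem W_comm (a k b l : ℕ) : D.W a k b l = D.W b l a k := by
  unfold W
  rw [Wn_comm]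

theorem G_comm (a k b l : ℕ) : D.G a k b l = D.G b l a k := by
  unfold G
  rw [Gn_comm]

theorem om_comm (a b : ℕ) : D.om a b = D.om b a := by
  unfold om
  rw [tr_comm]

theorem p_comm (a b : ℕ) : D.p a b = D.p b a := by
  unfold p
  rw [tr_comm]

def d0 : ℤ := Int.add (Int.ofNat D.h) (Int.ofNat D.cn)
def d1 : ℤ := Int.sub (Int.ofNat D.h) (Int.ofNat D.cn)

/-- the convolved multiplier, times `4 h² L` -/
def Hz (a k b l : ℕ) : ℤ :=
  Int.add (cz D.K D.d0 D.d1 (fun k' => cz D.K D.d0 D.d1 (fun l' => D.W a k' b l') l) k)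
    (if and (Nat.ble k 1) (Nat.ble l 1) then Int.mul (D.om a b) (Int.ofNat (Nat.mul D.sn D.sn)) else 0)

def Hf (a b i : ℕ) : ℤ := Int.add (D.Hz a (Nat.div i (D.K + 2)) b (Nat.mod i (D.K + 2))) (Int.ofNat D.offH)

/-- packed table of one block -/
def hN (a b : ℕ) : ℕ := pn D.wH (fun i => (D.Hf a b i).toNat) (Nat.mul (D.K + 2) (D.K + 2))

/-- range of the table -/
def rgb (a b : ℕ) : ℕ → Bool
  | 0 => true
  | n + 1 => and (rgb a b n) (match D.Hf a b n with
    | Int.ofNat x => Nat.blt x (Nat.pow 2 D.wH)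
    | Int.negSucc _ => false)

/-- window sums of the three tables -/
def TH (a b u v : ℕ) : ℤ :=
  Int.sub (Int.ofNat (tn (fun k l => dn D.wH (D.hN a b) (Nat.add (Nat.mul k (D.K + 2)) l)) D.offH (D.K + 1) (Nat.mul 2 D.N) u v
    (D.K + 2))) (Int.ofNat (Nat.mul (D.K + 2) D.offH))

def TG (a b u v : ℕ) : ℤ :=
  Int.sub (Int.ofNat (tn (fun k l => D.Gn a k b l) D.off D.J (Nat.mul 2 D.N) u v (D.J + 1)))
    (Int.ofNat (Nat.mul (D.J + 1) D.off))

def TW (a b u v : ℕ) : ℤ :=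
  Int.sub (Int.ofNat (tn (fun k l => D.Wn a k b l) D.off D.K (Nat.mul 2 D.N) u v (D.K + 1)))
    (Int.ofNat (Nat.mul (D.K + 1) D.off))

/-- `2 s + 1` at the position `u` -/
def od (u : ℕ) : ℤ := Int.sub (Int.ofNat (Nat.add (Nat.mul 2 u) 1)) (Int.ofNat (Nat.mul 2 D.N))

def h4 : ℤ := Int.ofNat (Nat.mul 4 (Nat.mul D.h D.h))
def s4 : ℤ := Int.ofNat (Nat.mul 4 (Nat.mul D.sn D.sn))
def c4 : ℤ := Int.ofNat (Nat.mul 4 (Nat.mul D.cn D.cn))

/-- the block of the modes, times `4 h² L`, at the positions `u v` -/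
def E (a b u v : ℕ) : ℤ :=
  Int.add (if Nat.ble (Nat.add (Nat.sub u v) (Nat.sub v u)) (D.K + 1) then
      Int.mul (Int.mul (D.od u) (D.od v)) (D.TH a b u v) else 0)
    (Int.add (if Nat.ble (Nat.add (Nat.sub u v) (Nat.sub v u)) D.J then Int.mul D.h4 (D.TG a b u v) else 0)
      (if Nat.beq u v then Int.sub (Int.mul (Int.mul (D.om a b) D.c4) (Int.mul (D.od u) (D.od u))) (Int.mul D.h4 (D.p a b)) else 0))

/-- diagonal sum -/
def dsm (a b : ℕ) : ℕ → ℤ
  | 0 => 0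
  | k + 1 => Int.add (dsm a b k) (D.W a k b k)

/-- the entry of the constant, times `-4 h² L` -/
def k0 (a b : ℕ) : ℤ := Int.mul D.s4 (Int.add (D.dsm a b (D.K + 1)) (D.om a b))

/-- the linear entries, times `4 h² L` -/
def l0 (a b u : ℕ) : ℤ :=
  if and (Nat.ble D.N (Nat.add u (D.K + 1))) (Nat.ble u (Nat.add D.N D.K)) then
    Int.mul D.s4 (Int.mul (D.od u) (Int.sub (D.TW a b D.N u) (D.TW a b D.N (u + 1)))) else 0

/-- class sum of the multipliers -/
def Ms (a b p q : ℕ) : ℤ :=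
  if Nat.beq p 0 then
    (if Nat.beq q 0 then Int.mul (-4) (D.k0 a b) else Int.add (D.l0 a b (wp D.N q)) (D.l0 b a (wp D.N (rp q))))
  else if Nat.beq q 0 then Int.add (D.l0 b a (wp D.N p)) (D.l0 a b (wp D.N (rp p)))
  else Int.mul 2 (Int.add (D.E a b (wp D.N p) (wp D.N q)) (D.E a b (wp D.N (rp q)) (wp D.N (rp p))))

/-- class sum of `T` -/
def Ts (a b p q : ℕ) : ℤ :=
  if and (Nat.blt p D.NT) (Nat.blt q D.NT) then
    Int.mul D.h4 (Int.add (Int.add (D.T a p b q) (D.T b q a p)) (Int.add (D.T a (rp q) b (rp p)) (D.T b (rp p) a (rp q)))) else 0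

/-- **the class sums** -/
def S (a b p q' : ℕ) : ℤ := Int.mul (Int.ofNat D.LK) (Int.add (D.Ts a b p (rp q')) (D.Ms a b p (rp q')))

/-- `T` with its support -/
def Tc (a p b q : ℕ) : ℤ := if p < D.NT ∧ q < D.NT then D.T a p b q else 0

/-! ### the real data -/

/-- the data of `MOE` -/
def dat (R : Fin D.m → ℤ → Fin D.m → ℤ → ℝ) : Dat D.m where
  N := D.N
  K := D.K
  J := D.J
  c := D.cn / D.h
  s2 := (D.sn / D.h) ^ 2
  W := fun a k b l => D.W a k b l / D.L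
  G := fun a k b l => D.G a k b l / D.L
  om := fun a b => D.om a b / D.L
  p := fun a b => D.p a b / D.L
  R := R

variable {D}

theorem sg_eq (x : ℕ) : D.sg x = (x : ℤ) - D.off := rfl

theorem W_eq (a k b l : ℕ) : ((D.Wn a k b l : ℕ) : ℤ) = D.W a k b l + D.off := by
  unfold W
  rw [sg_eq]
  ring

theorem G_eq (a k b l : ℕ) : ((D.Gn a k b l : ℕ) : ℤ) = D.G a k b l + D.off := by
  unfold G
  rw [sg_eq]
  ring

theorem cz_eq (K : ℕ) (d0 d1 : ℤ) (f : ℕ → ℤ) (k : ℕ) :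
    cz K d0 d1 f k = (if k ≤ K then d0 * f k else 0) + if 1 ≤ k then d1 * f (k - 1) else 0 := by
  unfold cz
  simp only [Nat.ble_eq]
  rfl

theorem cz_cast (K : ℕ) (d0 d1 : ℤ) (f : ℕ → ℤ) {k : ℕ} (hk : k ≤ K + 1) :
    ((cz K d0 d1 f k : ℤ) : ℝ) = ∑ k' ∈ range (K + 1), (f k' : ℝ) * dl d0 d1 k k' := by
  rw [cz_eq, sum_dlr K d0 d1 (fun k => (f k : ℝ)) hk]
  push_cast
  rfl

theorem dl_mul (x a b : ℝ) (k k' : ℕ) : dl (x * a) (x * b) k k' = x * dl a b k k' := by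
  unfold dl
  split_ifs <;> ring

/-- the convolved multiplier -/
theorem Hz_eq (hh : 0 < D.h) (a b : Fin D.m) {k l : ℕ} (hk : k ≤ D.K + 1) (hl : l ≤ D.K + 1)
    (R : Fin D.m → ℤ → Fin D.m → ℤ → ℝ) :
    ((D.Hz a k b l : ℤ) : ℝ) / (4 * (D.h : ℝ) ^ 2 * D.L)
      = H4 D.K (D.dat R).c (D.dat R).s2 (D.dat R).W (D.dat R).om a k b l := by
  have hh' : (D.h : ℝ) ≠ 0 := by positivity
  have e0 : ((D.d0 : ℤ) : ℝ) = 2 * D.h * ((1 + D.cn / D.h) / 2) := by
    have : D.d0 = (D.h : ℤ) + D.cn := rfl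
    rw [this]
    push_cast
    field_simp
  have e1 : ((D.d1 : ℤ) : ℝ) = 2 * D.h * ((1 - D.cn / D.h) / 2) := by
    have : D.d1 = (D.h : ℤ) - D.cn := rfl
    rw [this]
    push_cast
    field_simp
  have e2 : ((D.Hz a k b l : ℤ) : ℝ) = (∑ k' ∈ range (D.K + 1), ∑ l' ∈ range (D.K + 1), (D.W a k' b l' : ℝ)
      * (4 * D.h ^ 2 * (dl ((1 + D.cn / D.h) / 2) ((1 - D.cn / D.h) / 2) k k'
        * dl ((1 + D.cn / D.h) / 2) ((1 - D.cn / D.h) / 2) l l'))) + if k ≤ 1 ∧ l ≤ 1 then (D.om a b : ℝ) * D.sn ^ 2 else 0 := by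
    have u : D.Hz a k b l = cz D.K D.d0 D.d1 (fun k' => cz D.K D.d0 D.d1 (fun l' => D.W a k' b l') l) k
      + if k ≤ 1 ∧ l ≤ 1 then D.om a b * (D.sn * D.sn : ℕ) else 0 := by
      unfold Hz
      simp only [Bool.and_eq_true, Nat.ble_eq]
      rfl
    rw [u]
    push_cast
    congr 1
    · rw [cz_cast _ _ _ _ hk]
      refine Finset.sum_congr rfl fun k' _ => ?_
      rw [cz_cast _ _ _ _ hl, Finset.sum_mul]
      refine Finset.sum_congr rfl fun l' _ => ?_
      rw [e0, e1, dl_mul, dl_mul]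
      ring
    · split_ifs <;> ring
  rw [e2]
  unfold H4 dat
  simp only
  rw [add_div, Finset.sum_div]
  congr 1
  · refine Finset.sum_congr rfl fun k' _ => ?_
    rw [Finset.sum_div]
    refine Finset.sum_congr rfl fun l' _ => ?_
    by_cases hL : (D.L : ℝ) = 0
    · rw [hL]
      simp
    · field_simp
  · split_ifs
    · by_cases hL : (D.L : ℝ) = 0
      · rw [hL]
        simp
      · field_simp
    · simp

theorem rgb_ok {a b : ℕ} : ∀ {n : ℕ}, D.rgb a b n = true → ∀ i < n, 0 ≤ D.Hf a b i ∧ (D.Hf a b i).toNat < 2 ^ D.wH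
  | 0, _, i, hi => by omega
  | n + 1, h, i, hi => by
    rw [rgb, Bool.and_eq_true] at h
    rcases Nat.lt_or_ge i n with h1 | h1
    · exact rgb_ok h.1 i h1
    · have : i = n := by omega
      subst this
      have h2 := h.2
      cases hx : D.Hf a b i with
      | ofNat x =>
        rw [hx] at h2
        have h3 : x < 2 ^ D.wH := Nat.blt_eq ▸ h2
        exact ⟨Int.natCast_nonneg x, h3⟩
      | negSucc x =>
        rw [hx] at h2
        simp at h2

/-- the table of a block -/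
theorem hN_eq {a b : ℕ} (h : D.rgb a b (Nat.mul (D.K + 2) (D.K + 2)) = true) {k l : ℕ} (hk : k ≤ D.K + 1) (hl : l ≤ D.K + 1) :
    ((dn D.wH (D.hN a b) (Nat.add (Nat.mul k (D.K + 2)) l) : ℕ) : ℤ) = D.Hz a k b l + D.offH := by
  have h1 := rgb_ok h
  have hi : k * (D.K + 2) + l < (D.K + 2) * (D.K + 2) := by nlinarith
  have h2 := dn_pn (w := D.wH) (f := fun i => (D.Hf a b i).toNat) (k := (D.K + 2) * (D.K + 2)) (fun i hi => (h1 i hi).2) hi
  have h3 : dn D.wH (D.hN a b) (Nat.add (Nat.mul k (D.K + 2)) l) = (D.Hf a b (k * (D.K + 2) + l)).toNat := h2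
  rw [h3, Int.toNat_of_nonneg (h1 _ hi).1]
  have e1 : (k * (D.K + 2) + l) / (D.K + 2) = k := by
    rw [add_comm, Nat.add_mul_div_right _ _ (by omega), Nat.div_eq_of_lt (by omega), zero_add]
  have e2 : (k * (D.K + 2) + l) % (D.K + 2) = l := by
    rw [add_comm, Nat.add_mul_mod_self_right, Nat.mod_eq_of_lt (by omega)]
  have h4 : D.Hf a b (k * (D.K + 2) + l) = D.Hz a ((k * (D.K + 2) + l) / (D.K + 2)) b ((k * (D.K + 2) + l) % (D.K + 2)) + D.offH := rfl
  rw [h4, e1, e2]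

/-- the three window sums -/
theorem tw_eq {f : ℕ → ℕ → ℕ} {g : ℕ → ℕ → ℤ} {o K N : ℕ} {s t : ℤ} {u v : ℕ} (hu : (u : ℤ) = s + N)
    (hv : (v : ℤ) = t + N) (h : ∀ k l, k ≤ K → l ≤ K → (f k l : ℤ) = g k l + o) {A : ℕ → ℕ → ℝ} {c : ℝ}
    (hA : ∀ k l, k ≤ K → l ≤ K → A k l = g k l / c) :
    tp K N A s t = ((Int.sub (Int.ofNat (tn f o K (Nat.mul 2 N) u v (K + 1))) (Int.ofNat (Nat.mul (K + 1) o)) : ℤ) : ℝ) / c := by
  have h1 := tn_eq f g o K (2 * N) u v (K + 1) le_rfl h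
  have e : Int.sub (Int.ofNat (tn f o K (Nat.mul 2 N) u v (K + 1))) (Int.ofNat (Nat.mul (K + 1) o))
      = (tn f o K (2 * N) u v (K + 1) : ℤ) - ((K + 1) * o : ℕ) := rfl
  rw [e, h1, tp_eq K N A hu hv]
  push_cast
  rw [add_sub_cancel_left, Finset.sum_div]
  refine Finset.sum_congr rfl fun k hk => ?_
  have hk' := Finset.mem_range.1 hk
  by_cases c1 : v ≤ u + k ∧ u + k ≤ v + K ∧ K ≤ u + k ∧ u + k < 2 * N
  · rw [if_pos c1, if_pos c1, hA k (u + k - v) (by omega) (by omega)]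
  · rw [if_neg c1, if_neg c1]
    simp

/-- the real block of the modes -/
theorem E_eq (hh : 0 < D.h) (hL : 0 < D.L) (a b : Fin D.m) (hr : D.rgb a b (Nat.mul (D.K + 2) (D.K + 2)) = true)
    (R : Fin D.m → ℤ → Fin D.m → ℤ → ℝ) {s t : ℤ} {u v : ℕ} (hu : (u : ℤ) = s + D.N) (hv : (v : ℤ) = t + D.N) :
    (D.dat R).E a s b t = (D.E a b u v : ℝ) / (4 * (D.h : ℝ) ^ 2 * D.L) := by
  have hh' : (D.h : ℝ) ≠ 0 := by positivity
  have hL' : (D.L : ℝ) ≠ 0 := by positivity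
  have ou : ((D.od u : ℤ) : ℝ) = 2 * s + 1 := by
    have : D.od u = ((2 * u + 1 : ℕ) : ℤ) - (2 * D.N : ℕ) := rfl
    rw [this]
    push_cast
    have hu' : (u : ℝ) = s + D.N := by exact_mod_cast hu
    rw [hu']
    ring
  have ov : ((D.od v : ℤ) : ℝ) = 2 * t + 1 := by
    have : D.od v = ((2 * v + 1 : ℕ) : ℤ) - (2 * D.N : ℕ) := rfl
    rw [this]
    push_cast
    have hv' : (v : ℝ) = t + D.N := by exact_mod_cast hv
    rw [hv']
    ring
  have e1 : tp (D.K + 1) D.N (fun k l => H4 D.K (D.dat R).c (D.dat R).s2 (D.dat R).W (D.dat R).om a k b l) s t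
      = (D.TH a b u v : ℝ) / (4 * (D.h : ℝ) ^ 2 * D.L) :=
    tw_eq hu hv (fun k l hk hl => hN_eq hr hk hl) (fun k l hk hl => (Hz_eq hh a b hk hl R).symm)
  have e2 : tp D.J D.N (fun k l => (D.dat R).G a k b l) s t = (D.TG a b u v : ℝ) / D.L :=
    tw_eq hu hv (fun k l _ _ => G_eq (a : ℕ) k b l) (fun k l _ _ => rfl)
  have e3 : ((D.E a b u v : ℤ) : ℝ) = (if (u - v) + (v - u) ≤ D.K + 1 then (2 * s + 1) * (2 * t + 1) * (D.TH a b u v : ℝ) else 0)
      + ((if (u - v) + (v - u) ≤ D.J then 4 * (D.h : ℝ) ^ 2 * (D.TG a b u v : ℝ) else 0)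
      + if s = t then (D.om a b : ℝ) * (4 * D.cn ^ 2) * (2 * s + 1) ^ 2 - 4 * D.h ^ 2 * D.p a b else 0) := by
    have u1 : D.E a b u v = (if (u - v) + (v - u) ≤ D.K + 1 then D.od u * D.od v * D.TH a b u v else 0)
        + ((if (u - v) + (v - u) ≤ D.J then ((4 * (D.h * D.h) : ℕ) : ℤ) * D.TG a b u v else 0)
        + if u = v then D.om a b * ((4 * (D.cn * D.cn) : ℕ) : ℤ) * (D.od u * D.od u) - ((4 * (D.h * D.h) : ℕ) : ℤ) * D.p a b else 0) := by
      unfold E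
      simp only [Nat.ble_eq, Nat.beq_eq]
      rfl
    rw [u1]
    push_cast
    rw [ou, ov]
    have c1 : (u = v) = (s = t) := by
      apply propext
      constructor <;> intro h <;> omega
    simp only [c1]
    split_ifs <;> ring
  rw [e3]
  unfold MOE.Dat.E
  change (2 * (s : ℝ) + 1) * (2 * t + 1) * tp (D.K + 1) D.N (fun k l => H4 D.K (D.dat R).c (D.dat R).s2 (D.dat R).W
      (D.dat R).om a k b l) s t + tp D.J D.N (fun k l => (D.dat R).G a k b l) s t
    + (if s = t then (D.om a b / D.L : ℝ) * (D.cn / D.h) ^ 2 * (2 * s + 1) ^ 2 - D.p a b / D.L else 0) = _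
  have z1 : tp (D.K + 1) D.N (fun k l => H4 D.K (D.dat R).c (D.dat R).s2 (D.dat R).W (D.dat R).om a k b l) s t
      = (if (u - v) + (v - u) ≤ D.K + 1 then (D.TH a b u v : ℝ) else 0) / (4 * (D.h : ℝ) ^ 2 * D.L) := by
    split_ifs with hc
    · exact e1
    · rw [zero_div]
      exact tp_zero _ (by omega)
  have z2 : tp D.J D.N (fun k l => (D.dat R).G a k b l) s t = (if (u - v) + (v - u) ≤ D.J then (D.TG a b u v : ℝ) else 0) / D.L := by
    split_ifs with hc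
    · exact e2
    · rw [zero_div]
      exact tp_zero _ (by omega)
  rw [z1, z2]
  split_ifs <;> field_simp <;> ring

theorem dE_symm (R : Fin D.m → ℤ → Fin D.m → ℤ → ℝ) (a b : Fin D.m) (s t : ℤ) :
    (D.dat R).E a s b t = (D.dat R).E b t a s := by
  unfold MOE.Dat.E
  have e1 : tp ((D.dat R).K + 1) (D.dat R).N (fun k l => H4 (D.dat R).K (D.dat R).c (D.dat R).s2 (D.dat R).W (D.dat R).om a k b l) s t
      = tp ((D.dat R).K + 1) (D.dat R).N (fun k l => H4 (D.dat R).K (D.dat R).c (D.dat R).s2 (D.dat R).W (D.dat R).om b k a l) t s := by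
    refine tp_symm _ _ _ _ (fun k l => ?_) s t
    unfold H4
    rw [Finset.sum_comm]
    congr 1
    · refine Finset.sum_congr rfl fun k' _ => Finset.sum_congr rfl fun l' _ => ?_
      have : (D.dat R).W a l' b k' = (D.dat R).W b k' a l' := by
        change ((D.W a l' b k' : ℤ) : ℝ) / D.L = (D.W b k' a l' : ℤ) / D.L
        rw [W_comm]
      rw [this]
      ring
    · have : (D.dat R).om a b = (D.dat R).om b a := by
        change ((D.om a b : ℤ) : ℝ) / D.L = (D.om b a : ℤ) / D.L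
        rw [om_comm]
      rw [this]
      exact if_congr and_comm rfl rfl
  have e2 : tp (D.dat R).J (D.dat R).N (fun k l => (D.dat R).G a k b l) s t
      = tp (D.dat R).J (D.dat R).N (fun k l => (D.dat R).G b k a l) t s := by
    refine tp_symm _ _ _ _ (fun k l => ?_) s t
    change ((D.G a k b l : ℤ) : ℝ) / D.L = (D.G b l a k : ℤ) / D.L
    rw [G_comm]
  rw [e1, e2]
  have e3 : (D.dat R).om a b = (D.dat R).om b a := by
    change ((D.om a b : ℤ) : ℝ) / D.L = (D.om b a : ℤ) / D.L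
    rw [om_comm]
  have e4 : (D.dat R).p a b = (D.dat R).p b a := by
    change ((D.p a b : ℤ) : ℝ) / D.L = (D.p b a : ℤ) / D.L
    rw [p_comm]
  rw [e3, e4]
  by_cases h : s = t
  · subst h
    ring
  · rw [if_neg h, if_neg fun h' => h h'.symm]
    ring

theorem wj_tp {K N : ℕ} (h : K + 1 ≤ N) (A : ℕ → ℕ → ℝ) (j : ℤ) : wj K A j = tp K N A 0 j := by
  unfold MOE.wj tp
  refine Finset.sum_congr rfl fun k hk => Finset.sum_congr rfl fun l hl => ?_
  have hk' := Finset.mem_range.1 hk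
  refine if_congr ?_ rfl rfl
  constructor
  · intro e
    refine ⟨by omega, by omega, by omega⟩
  · rintro ⟨e, _, _⟩
    omega

/-- the linear entries -/
theorem l0_eq (hh : 0 < D.h) (hL : 0 < D.L) (hKN : D.K + 1 ≤ D.N) (a b : Fin D.m)
    (R : Fin D.m → ℤ → Fin D.m → ℤ → ℝ) {t : ℤ} {v : ℕ} (hv : (v : ℤ) = t + D.N) :
    (D.dat R).l0 a b t = (D.l0 a b v : ℝ) / (4 * (D.h : ℝ) ^ 2 * D.L) := by
  have hh' : (D.h : ℝ) ≠ 0 := by positivity
  have hL' : (D.L : ℝ) ≠ 0 := by positivity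
  have ov : ((D.od v : ℤ) : ℝ) = 2 * t + 1 := by
    have : D.od v = ((2 * v + 1 : ℕ) : ℤ) - (2 * D.N : ℕ) := rfl
    rw [this]
    push_cast
    have hv' : (v : ℝ) = t + D.N := by exact_mod_cast hv
    rw [hv']
    ring
  unfold MOE.Dat.l0
  rw [wj_tp (N := D.N) (K := (D.dat R).K) hKN, wj_tp (N := D.N) (K := (D.dat R).K) hKN]
  have e1 : tp (D.dat R).K D.N (fun k l => (D.dat R).W a k b l) 0 t = (D.TW a b D.N v : ℝ) / D.L :=
    tw_eq (by ring) hv (fun k l _ _ => W_eq (a : ℕ) k b l) (fun k l _ _ => rfl)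
  have e2 : tp (D.dat R).K D.N (fun k l => (D.dat R).W a k b l) 0 (t + 1) = (D.TW a b D.N (v + 1) : ℝ) / D.L :=
    tw_eq (by ring) (by push_cast; rw [hv]; ring) (fun k l _ _ => W_eq (a : ℕ) k b l) (fun k l _ _ => rfl)
  have e3 : ((D.l0 a b v : ℤ) : ℝ) = if D.N ≤ v + (D.K + 1) ∧ v ≤ D.N + D.K then
      4 * D.sn ^ 2 * ((2 * t + 1) * ((D.TW a b D.N v : ℝ) - D.TW a b D.N (v + 1))) else 0 := by
    have u1 : D.l0 a b v = if D.N ≤ v + (D.K + 1) ∧ v ≤ D.N + D.K then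
        ((4 * (D.sn * D.sn) : ℕ) : ℤ) * (D.od v * (D.TW a b D.N v - D.TW a b D.N (v + 1))) else 0 := by
      unfold l0
      simp only [Bool.and_eq_true, Nat.ble_eq]
      rfl
    rw [u1]
    push_cast
    rw [ov]
    split_ifs <;> ring
  rw [e3]
  change ((D.sn : ℝ) / D.h) ^ 2 * (2 * t + 1) * (tp (D.dat R).K D.N (fun k l => (D.dat R).W a k b l) 0 t
    - tp (D.dat R).K D.N (fun k l => (D.dat R).W a k b l) 0 (t + 1)) = _
  by_cases hc : D.N ≤ v + (D.K + 1) ∧ v ≤ D.N + D.K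
  · rw [if_pos hc, e1, e2]
    field_simp
  · rw [if_neg hc, tp_zero, tp_zero, sub_zero, mul_zero, zero_div]
    · change (D.K : ℤ) < 0 - (t + 1) ∨ (D.K : ℤ) < (t + 1) - 0
      omega
    · change (D.K : ℤ) < 0 - t ∨ (D.K : ℤ) < t - 0
      omega

theorem dsm_eq (a b : ℕ) : ∀ n : ℕ, D.dsm a b n = ∑ k ∈ range n, D.W a k b k
  | 0 => by simp [dsm]
  | n + 1 => by
    rw [Finset.sum_range_succ, ← dsm_eq a b n]
    rfl

/-- the entry of the constant -/
theorem k0_eq (hh : 0 < D.h) (hL : 0 < D.L) (a b : Fin D.m) (R : Fin D.m → ℤ → Fin D.m → ℤ → ℝ) :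
    (D.dat R).k0 a b = -(D.k0 a b : ℝ) / (4 * (D.h : ℝ) ^ 2 * D.L) := by
  have hh' : (D.h : ℝ) ≠ 0 := by positivity
  have hL' : (D.L : ℝ) ≠ 0 := by positivity
  have e : D.k0 a b = ((4 * (D.sn * D.sn) : ℕ) : ℤ) * (D.dsm a b (D.K + 1) + D.om a b) := rfl
  rw [e, dsm_eq]
  unfold MOE.Dat.k0
  change -(((D.sn : ℝ) / D.h) ^ 2 * (∑ k ∈ range (D.K + 1), ((D.W a k b k : ℤ) : ℝ) / D.L + (D.om a b : ℝ) / D.L)) = _
  rw [← Finset.sum_div]
  push_cast
  field_simp

theorem sl_zero (p : ℕ) : sl p = 0 ↔ p = 0 := by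
  constructor
  · intro h
    exact sl_inj (h.trans sl0.symm)
  · rintro rfl
    rfl

theorem rp_zero (p : ℕ) : rp p = 0 ↔ p = 0 := by
  constructor
  · intro h
    rw [← rp_rp p, h, rp0]
  · rintro rfl
    rfl

/-- the four entries of a class -/
def four {m : ℕ} (B : Fin m → ℤ → Fin m → ℤ → ℝ) (a : Fin m) (p : ℕ) (b : Fin m) (q : ℕ) : ℝ :=
  B a (sl p) b (sl q) + B b (sl q) a (sl p) + B a (sl (rp q)) b (sl (rp p)) + B b (sl (rp p)) a (sl (rp q))

theorem Ms_eq (hh : 0 < D.h) (hL : 0 < D.L) (hKN : D.K + 1 ≤ D.N) (a b : Fin D.m)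
    (hr : D.rgb a b (Nat.mul (D.K + 2) (D.K + 2)) = true) (R : Fin D.m → ℤ → Fin D.m → ℤ → ℝ) {p q : ℕ}
    (hp : p < 2 * D.N - 1) (hq : q < 2 * D.N - 1) :
    four (D.dat R).M0 a p b q = (D.Ms a b p q : ℝ) / (4 * (D.h : ℝ) ^ 2 * D.L) := by
  have wq := wp_eq hq
  have wpp := wp_eq hp
  have wq' := wp_eq (rp_lt hq)
  have wp' := wp_eq (rp_lt hp)
  unfold four Ms MOE.Dat.M0
  simp only [sl_zero, rp_zero, Nat.beq_eq]
  by_cases h1 : p = 0
  · by_cases h2 : q = 0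
    · simp only [h1, h2, if_true]
      rw [k0_eq hh hL a b R, k0_eq hh hL b a R]
      have : D.k0 b a = D.k0 a b := by
        have e1 : D.k0 b a = ((4 * (D.sn * D.sn) : ℕ) : ℤ) * (D.dsm b a (D.K + 1) + D.om b a) := rfl
        have e2 : D.k0 a b = ((4 * (D.sn * D.sn) : ℕ) : ℤ) * (D.dsm a b (D.K + 1) + D.om a b) := rfl
        rw [e1, e2, dsm_eq, dsm_eq, om_comm]
        congr 2
        exact Finset.sum_congr rfl fun k _ => W_comm D b k a k
      rw [this]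
      have e3 : Int.mul (-4) (D.k0 a b) = -4 * D.k0 a b := rfl
      rw [e3]
      push_cast
      ring
    · simp only [h1, h2, if_true, if_false]
      rw [l0_eq hh hL hKN a b R wq, l0_eq hh hL hKN b a R wq']
      have e3 : Int.add (D.l0 a b (wp D.N q)) (D.l0 b a (wp D.N (rp q))) = D.l0 a b (wp D.N q) + D.l0 b a (wp D.N (rp q)) := rfl
      rw [e3]
      push_cast
      ring
  · by_cases h2 : q = 0
    · simp only [h1, h2, if_true, if_false]
      rw [l0_eq hh hL hKN b a R wpp, l0_eq hh hL hKN a b R wp']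
      have e3 : Int.add (D.l0 b a (wp D.N p)) (D.l0 a b (wp D.N (rp p))) = D.l0 b a (wp D.N p) + D.l0 a b (wp D.N (rp p)) := rfl
      rw [e3]
      push_cast
      ring
    · simp only [h1, h2, if_false]
      rw [dE_symm R b a, dE_symm R b a, E_eq hh hL a b hr R wpp wq, E_eq hh hL a b hr R wq' wp']
      have e3 : Int.mul 2 (Int.add (D.E a b (wp D.N p) (wp D.N q)) (D.E a b (wp D.N (rp q)) (wp D.N (rp p))))
        = 2 * (D.E a b (wp D.N p) (wp D.N q) + D.E a b (wp D.N (rp q)) (wp D.N (rp p))) := rfl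
      rw [e3]
      push_cast
      ring

end Cd

end Pool.Agent.FPX.MOB
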