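import Mathlib
import Pool.Agent.FPX.MOBB

/-
MOB (helper66): the modal certificate from integer data.
-/

set_option autoImplicit false

open Finset

noncomputable section

namespace Pool.Agent.FPX.MOB

open Pool.Agent.FPX.QST (Wn mem_Wn)
open Pool.Agent.FPX.ALX (St)
open Pool.Agent.FPX.MOE (rf PM P4 P2 Dat tp wj wl H4 Frm Qf)
open Pool.Agent.FPX.MOP (NN2 PH TP)

variable {m : ℕ}

/-! ### from the class sums to the matrix -/

/-- what the test of the class sums provides -/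
def Eng (m n : ℕ) (X : ℕ → ℕ → ℕ → ℕ → ℝ) : Prop :=
  ∃ P : ℕ → ℕ → ℕ → ℕ → ℝ, (∀ a p b q, P a p b q = P b q a p) ∧
    (∀ x : ℕ → ℕ → ℝ, 0 ≤ ∑ a ∈ range m, ∑ b ∈ range m, ∑ p ∈ range n, ∑ q ∈ range n, P a p b q * (x a p * x b q)) ∧
    ∀ x : ℕ → ℕ → ℝ, 0 ≤ ∑ a ∈ range m, ∑ b ∈ range m, ∑ p ∈ range n, ∑ q ∈ range n,
      (X a p b q - (P a p b q + P a (rp q) b (rp p)) / 2) * (x a p * x b q)

/-- the inverse of `sl` -/
def ps (s : ℤ) : ℕ := if s = 0 then 0 else if 0 < s then (2 * s - 1).toNat else (-2 * s - 2).toNat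

theorem ps_sl (p : ℕ) : ps (sl p) = p := by
  unfold ps
  rcases cs p with rfl | ⟨j, rfl⟩ | ⟨j, rfl⟩
  · simp [sl0]
  · rw [sl1, if_neg (by omega), if_pos (by omega)]
    omega
  · rw [sl2, if_neg (by omega), if_neg (by omega)]
    omega

theorem four_symm (B : Fin m → ℤ → Fin m → ℤ → ℝ) (a : Fin m) (p : ℕ) (b : Fin m) (q : ℕ) :
    Cd.four B b q a p = Cd.four B a p b q := by
  unfold Cd.four
  ring

theorem sum4_swap (n : ℕ) (F : Fin m → Fin m → ℕ → ℕ → ℝ) :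
    ∑ a, ∑ b, ∑ p ∈ range n, ∑ q ∈ range n, F a b p q = ∑ a, ∑ b, ∑ p ∈ range n, ∑ q ∈ range n, F b a q p := by
  rw [Finset.sum_comm]
  refine Finset.sum_congr rfl fun a _ => Finset.sum_congr rfl fun b _ => ?_
  rw [Finset.sum_comm]

theorem sum_fin (n : ℕ) (F : ℕ → ℕ → ℕ → ℕ → ℝ) :
    ∑ a ∈ range m, ∑ b ∈ range m, ∑ p ∈ range n, ∑ q ∈ range n, F a b p q
      = ∑ a : Fin m, ∑ b : Fin m, ∑ p ∈ range n, ∑ q ∈ range n, F a b p q := by
  rw [← Fin.sum_univ_eq_sum_range (fun a => ∑ b ∈ range m, ∑ p ∈ range n, ∑ q ∈ range n, F a b p q)]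
  refine Finset.sum_congr rfl fun a _ => ?_
  rw [← Fin.sum_univ_eq_sum_range (fun b => ∑ p ∈ range n, ∑ q ∈ range n, F a b p q)]

/-- **null forms from the class sums** -/
theorem PM_core {N : ℕ} {B : Fin m → ℤ → Fin m → ℤ → ℝ} {X : ℕ → ℕ → ℕ → ℕ → ℝ} {Λ : ℝ} (hΛ : 0 < Λ)
    (hX : ∀ a b : Fin m, ∀ p < 2 * N - 1, ∀ q < 2 * N - 1, X a p b q = Λ * Cd.four B a p b q)
    (hE : Eng m (2 * N - 1) X) :
    ∃ R : Fin m → ℤ → Fin m → ℤ → ℝ, PM N fun a s b t => B a s b t + (R a s b t - R a (rf t) b (rf s)) := by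
  obtain ⟨P, P1, P2, P3⟩ := hE
  refine ⟨fun a s b t => (P a (ps s) b (ps t) / (4 * Λ) - B a s b t) / 2, PM_of fun x => ?_⟩
  have h2 := P2 x
  have h3 := P3 x
  rw [sum_fin (2 * N - 1) (fun a b p q => P a p b q * (x a p * x b q))] at h2
  rw [sum_fin (2 * N - 1) (fun a b p q => (X a p b q - (P a p b q + P a (rp q) b (rp p)) / 2) * (x a p * x b q))] at h3
  simp only [rf_sl, ps_sl]
  -- symmetrise
  set Z : Fin m → Fin m → ℕ → ℕ → ℝ := fun a b p q => (B a (sl p) b (sl q) + ((P a p b q / (4 * Λ) - B a (sl p) b (sl q)) / 2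
    - (P a (rp q) b (rp p) / (4 * Λ) - B a (sl (rp q)) b (sl (rp p))) / 2)) * (x a p * x b q) with hZ
  have e1 : ∑ a, ∑ b, ∑ p ∈ range (2 * N - 1), ∑ q ∈ range (2 * N - 1), Z a b p q
      = (1 / (4 * Λ)) * ((∑ a : Fin m, ∑ b : Fin m, ∑ p ∈ range (2 * N - 1), ∑ q ∈ range (2 * N - 1),
          (X a p b q - (P a p b q + P a (rp q) b (rp p)) / 2) * (x a p * x b q))
        + ∑ a : Fin m, ∑ b : Fin m, ∑ p ∈ range (2 * N - 1), ∑ q ∈ range (2 * N - 1), P a p b q * (x a p * x b q)) := by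
    have e2 : ∑ a, ∑ b, ∑ p ∈ range (2 * N - 1), ∑ q ∈ range (2 * N - 1), Z a b p q
        = ∑ a, ∑ b, ∑ p ∈ range (2 * N - 1), ∑ q ∈ range (2 * N - 1), (Z a b p q + Z b a q p) / 2 := by
      have e3 := sum4_swap (2 * N - 1) Z
      have e4 : ∑ a, ∑ b, ∑ p ∈ range (2 * N - 1), ∑ q ∈ range (2 * N - 1), (Z a b p q + Z b a q p) / 2
          = ((∑ a, ∑ b, ∑ p ∈ range (2 * N - 1), ∑ q ∈ range (2 * N - 1), Z a b p q)
            + ∑ a, ∑ b, ∑ p ∈ range (2 * N - 1), ∑ q ∈ range (2 * N - 1), Z b a q p) / 2 := by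
        simp only [← Finset.sum_add_distrib, Finset.sum_div]
      rw [e4, ← e3]
      ring
    rw [e2]
    simp only [← Finset.sum_add_distrib, Finset.mul_sum]
    refine Finset.sum_congr rfl fun a _ => Finset.sum_congr rfl fun b _ => ?_
    refine Finset.sum_congr rfl fun p hp => Finset.sum_congr rfl fun q hq => ?_
    rw [hX a b p (Finset.mem_range.1 hp) q (Finset.mem_range.1 hq), hZ]
    have s1 : P b q a p = P a p b q := P1 _ _ _ _
    have s2 : P b (rp p) a (rp q) = P a (rp q) b (rp p) := P1 _ _ _ _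
    simp only [s1, s2, Cd.four]
    field_simp
    ring
  have e5 : 0 ≤ ∑ a, ∑ b, ∑ p ∈ range (2 * N - 1), ∑ q ∈ range (2 * N - 1), Z a b p q := by
    rw [e1]
    exact mul_nonneg (by positivity) (add_nonneg h3 h2)
  exact e5

/-! ### the test of the header -/

def al : ℕ → (ℕ → Bool) → Bool
  | 0, _ => true
  | n + 1, f => and (al n f) (f n)

theorem al_ok {f : ℕ → Bool} : ∀ {n : ℕ}, al n f = true → ∀ i < n, f i = true
  | 0, _, i, hi => by omega
  | n + 1, h, i, hi => by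
    rw [al, Bool.and_eq_true] at h
    rcases Nat.lt_or_ge i n with h1 | h1
    · exact al_ok h.1 i h1
    · rw [show i = n by omega]
      exact h.2

namespace Cd

variable (D : Cd)

/-- sum of the diagonal `l - k = i - J` of `G` -/
def ws (a b i : ℕ) : ℕ → ℤ
  | 0 => 0
  | k + 1 => Int.add (ws a b i k)
      (if and (Nat.ble D.J (Nat.add k i)) (Nat.ble (Nat.add k i) (Nat.add D.J D.J)) then
        D.G a k b (Nat.sub (Nat.add k i) D.J) else 0)

/-- the symbol identity -/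
def sym : Bool := al D.m fun a => al D.m fun b => al (2 * D.J + 1) fun i =>
  decide (D.ws a b i (D.J + 1) = Int.add (D.q a b i) (if Nat.beq i D.J then D.p a b else 0))

/-- the tail -/
def tl (a b : ℕ) : ℤ :=
  Int.sub (Int.mul (D.om a b) (Int.ofNat (Nat.mul (Nat.mul D.cn D.cn) (Nat.mul (2 * D.N + 1) (2 * D.N + 1)))))
    (Int.mul (Int.ofNat (Nat.mul D.h D.h)) (D.p a b))

def fW (i j : ℕ) : ℤ := D.sg (D.rw D.cW (tr i j))
def fG (i j : ℕ) : ℤ := D.sg (D.rw D.cG (tr i j))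

/-- all conditions besides the finite matrix -/
def hdr : Bool :=
  and (Nat.blt 0 D.h) (and (Nat.blt 0 D.L) (and (Nat.blt 0 D.LK) (and (Nat.beq (Nat.mod D.NT 2) 1)
    (and (Nat.ble (D.K + 1) D.N) (and (Nat.beq (Nat.add (Nat.mul D.sn D.sn) (Nat.mul D.cn D.cn)) (Nat.mul D.h D.h))
      (and (psd (D.m * (D.K + 1)) D.fW) (and (psd (D.m * (D.J + 1)) D.fG) (and (psd D.m D.om) (and (psd D.m D.tl)
        (and D.sym (al D.m fun b => al (b + 1) fun a => D.rgb a b (Nat.mul (D.K + 2) (D.K + 2)))))))))))))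

variable {D}

theorem ws_eq (a b i : ℕ) : ∀ n : ℕ, n ≤ D.J + 1 → D.ws a b i n
    = ∑ k ∈ range n, if D.J ≤ k + i ∧ k + i ≤ D.J + D.J then D.G a k b (k + i - D.J) else 0
  | 0, _ => by simp [ws]
  | n + 1, h => by
    rw [Finset.sum_range_succ, ← ws_eq a b i n (by omega)]
    have e : D.ws a b i (n + 1) = D.ws a b i n
      + if D.J ≤ n + i ∧ n + i ≤ D.J + D.J then D.G a n b (n + i - D.J) else 0 := by
      rw [ws]
      simp only [Bool.and_eq_true, Nat.ble_eq]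
      rfl
    rw [e]

theorem wl_eq (a b : ℕ) {j : ℤ} {i : ℕ} (hj : (i : ℤ) = j + D.J) (L : ℝ) :
    wl D.J (fun k l => (D.G a k b l : ℝ) / L) j = (D.ws a b i (D.J + 1) : ℝ) / L := by
  rw [ws_eq a b i _ le_rfl]
  unfold MOE.wl
  push_cast
  rw [Finset.sum_div]
  refine Finset.sum_congr rfl fun k hk => ?_
  have hk' := Finset.mem_range.1 hk
  by_cases c : D.J ≤ k + i ∧ k + i ≤ D.J + D.J
  · rw [if_pos c, Finset.sum_eq_single (k + i - D.J)]
    · rw [if_pos (by omega)]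
    · intro l _ hl
      exact if_neg (by omega)
    · intro h
      exfalso
      exact h (Finset.mem_range.2 (by omega))
  · rw [if_neg c, zero_div]
    refine Finset.sum_eq_zero fun l hl => if_neg ?_
    have hl' := Finset.mem_range.1 hl
    omega

theorem rp_NT (h : D.NT % 2 = 1) (p : ℕ) : rp p < D.NT ↔ p < D.NT := by
  rcases cs p with rfl | ⟨j, rfl⟩ | ⟨j, rfl⟩
  · rw [rp0]
  · rw [rp1]
    omega
  · rw [rp2]
    omega

/-- the class sums of `T` -/
theorem Ts_eq (hh : 0 < D.h) (hL : 0 < D.L) (hNT : D.NT % 2 = 1) {T : Fin D.m → ℤ → Fin D.m → ℤ → ℝ}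
    (hT : ∀ a b : Fin D.m, ∀ p < 2 * D.N - 1, ∀ q < 2 * D.N - 1, T a (sl p) b (sl q) = D.Tc a p b q / D.L)
    (a b : Fin D.m) {p q : ℕ} (hp : p < 2 * D.N - 1) (hq : q < 2 * D.N - 1) :
    four T a p b q = (D.Ts a b p q : ℝ) / (4 * (D.h : ℝ) ^ 2 * D.L) := by
  have hh' : (D.h : ℝ) ≠ 0 := by positivity
  have hL' : (D.L : ℝ) ≠ 0 := by positivity
  unfold four
  rw [hT a b p hp q hq, hT b a q hq p hp, hT a b _ (rp_lt hq) _ (rp_lt hp), hT b a _ (rp_lt hp) _ (rp_lt hq)]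
  unfold Tc
  simp only [rp_NT hNT]
  have e : D.Ts a b p q = if p < D.NT ∧ q < D.NT then ((4 * (D.h * D.h) : ℕ) : ℤ) * (D.T a p b q + D.T b q a p
      + (D.T a (rp q) b (rp p) + D.T b (rp p) a (rp q))) else 0 := by
    unfold Ts
    simp only [Bool.and_eq_true, Nat.blt_eq]
    rfl
  rw [e]
  by_cases c : p < D.NT ∧ q < D.NT
  · rw [if_pos c, if_pos c, if_pos c.symm, if_pos c.symm, if_pos c]
    push_cast
    field_simp
    ring
  · rw [if_neg c, if_neg c, if_neg fun h => c h.symm, if_neg fun h => c h.symm, if_neg c]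
    simp

/-- the scale -/
def sc (D : Cd) : ℝ := 4 * (D.h : ℝ) ^ 2 * D.L * D.LK

/-- **the modal certificate** -/
theorem main (ht : D.hdr = true) {ι : Type*} (P : Finset ι) (K : ι → Fin D.m → Fin D.m → ℂ) (f g : ι → ℤ → ℂ)
    (hK : ∀ i ∈ P, PH (K i)) (hf : ∀ i ∈ P, NN2 D.N (D.sn / D.h) (f i)) (hg : ∀ i ∈ P, NN2 D.N (D.sn / D.h) (g i))
    {X : ℕ → ℕ → ℕ → ℕ → ℝ} (hE : Eng D.m (2 * D.N - 1) X) (hXs : ∀ a p b q, X b q a p = X a p b q)
    (hX : ∀ a b : Fin D.m, a ≤ b → ∀ p < 2 * D.N - 1, ∀ q < 2 * D.N - 1,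
      X a p b q = D.S a b p (rp q) - D.sc * ∑ i ∈ P, four (TP (K i) (f i) (g i)) a p b q)
    {T : Fin D.m → ℤ → Fin D.m → ℤ → ℝ}
    (hT : ∀ a b : Fin D.m, ∀ p < 2 * D.N - 1, ∀ q < 2 * D.N - 1, T a (sl p) b (sl q) = D.Tc a p b q / D.L)
    {q : Fin D.m → Fin D.m → ℤ → ℝ} (hq : ∀ a b : Fin D.m, ∀ i < 2 * D.J + 1, q a b ((i : ℤ) - D.J) = D.q a b i / D.L)
    {s : ℝ} {Y : ℝ → ℝ} (h : St s Y) (h0 : 0 ≤ s) (hs : s ≤ D.sn / D.h) (z : Fin D.m → ℂ) :
    0 ≤ Frm D.N T z Y + Qf D.J q z Y := by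
  simp only [hdr, Bool.and_eq_true, Nat.ble_eq, Nat.beq_eq, Nat.blt_eq] at ht
  obtain ⟨t1, t2, t3, t4, t5, t6, t7, t8, t9, t10, t11, t12⟩ := ht
  have hh' : (D.h : ℝ) ≠ 0 := by positivity
  have hL' : (D.L : ℝ) ≠ 0 := by positivity
  have hrg : ∀ a b : Fin D.m, a ≤ b → D.rgb a b (Nat.mul (D.K + 2) (D.K + 2)) = true := by
    intro a b hab
    have h1 := al_ok t12 b b.2
    exact al_ok h1 a (by have : (a : ℕ) ≤ b := hab; omega)
  -- the matrix
  set B : Fin D.m → ℤ → Fin D.m → ℤ → ℝ := fun a s b t => (T a s b t - ∑ i ∈ P, TP (K i) (f i) (g i) a s b t)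
    + (D.dat 0).M0 a s b t with hB
  have hsc : 0 < D.sc := by
    unfold sc
    positivity
  have fB : ∀ a b : Fin D.m, ∀ p q : ℕ, four B a p b q = four T a p b q
      - (∑ i ∈ P, four (TP (K i) (f i) (g i)) a p b q) + four (D.dat 0).M0 a p b q := by
    intro a b p q
    simp only [four, hB, Finset.sum_add_distrib]
    ring
  have X1 : ∀ a b : Fin D.m, a ≤ b → ∀ p < 2 * D.N - 1, ∀ q < 2 * D.N - 1, X a p b q = D.sc * four B a p b q := by
    intro a b hab p hp q hq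
    rw [hX a b hab p hp q hq, fB, Ts_eq t1 t2 t4 hT a b hp hq, Ms_eq t1 t2 t5 a b (hrg a b hab) 0 hp hq]
    have e : D.S a b p (rp q) = (D.LK : ℤ) * (D.Ts a b p q + D.Ms a b p q) := by
      unfold S
      rw [rp_rp]
      rfl
    rw [e]
    unfold sc
    push_cast
    field_simp
    ring
  have X2 : ∀ a b : Fin D.m, ∀ p < 2 * D.N - 1, ∀ q < 2 * D.N - 1, X a p b q = D.sc * four B a p b q := by
    intro a b p hp q hq
    rcases le_total a b with hab | hab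
    · exact X1 a b hab p hp q hq
    · rw [← hXs, X1 b a hab q hq p hp, four_symm]
  obtain ⟨R, hR⟩ := PM_core hsc X2 hE
  have hs1 : (D.sn : ℝ) / D.h ≤ 1 := by
    rw [div_le_one (by positivity)]
    have : D.sn * D.sn ≤ D.h * D.h := by
      have : D.sn * D.sn + D.cn * D.cn = D.h * D.h := t6
      omega
    exact_mod_cast Nat.mul_self_le_mul_self_iff.1 this
  have hcs : ((D.dat R).c) ^ 2 + ((D.sn : ℝ) / D.h) ^ 2 = 1 := by
    change ((D.cn : ℝ) / D.h) ^ 2 + ((D.sn : ℝ) / D.h) ^ 2 = 1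
    have e : (D.sn : ℝ) * D.sn + D.cn * D.cn = D.h * D.h := by
      have : D.sn * D.sn + D.cn * D.cn = D.h * D.h := t6
      exact_mod_cast this
    field_simp
    linarith
  refine MOP.modalp h h0 hs hs1 (D.dat R) rfl hcs ?_ t5 ?_ ?_ ?_ ?_ P K f g hK hf hg ?_ ?_ z
  · intro a b
    change ((D.om a b : ℤ) : ℝ) / D.L = (D.om b a : ℤ) / D.L
    rw [om_comm]
  · exact P4_of (F := D.fW) (fun i j => by unfold fW; rw [tr_comm]) t7 (by positivity) fun a k b l _ _ => rfl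
  · exact P4_of (F := D.fG) (fun i j => by unfold fG; rw [tr_comm]) t8 (by positivity) fun a k b l _ _ => rfl
  · exact P2_of (F := D.om) (fun i j => om_comm D i j) t9 (L := D.L) (by positivity) fun a b => rfl
  · refine P2_of (F := D.tl) (fun i j => ?_) t10 (L := D.h ^ 2 * D.L) (by positivity) fun a b => ?_
    · unfold tl
      rw [om_comm, p_comm]
    · have e : D.tl a b = D.om a b * ((D.cn * D.cn * ((2 * D.N + 1) * (2 * D.N + 1)) : ℕ) : ℤ)
          - ((D.h * D.h : ℕ) : ℤ) * D.p a b := rfl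
      rw [e]
      change (D.om a b : ℝ) / D.L * ((D.cn : ℝ) / D.h) ^ 2 * (2 * (D.N : ℝ) + 1) ^ 2 - (D.p a b : ℝ) / D.L = _
      push_cast
      field_simp
  · have e : (fun a s b t => T a s b t - ∑ i ∈ P, TP (K i) (f i) (g i) a s b t) = fun a s b t =>
        (T a s b t - ∑ i ∈ P, TP (K i) (f i) (g i) a s b t) := rfl
    exact hR
  · intro a b j hj
    have hj' := Finset.mem_Ico.1 hj
    change wl D.J (fun k l => (D.G a k b l : ℝ) / D.L) j = q a b j + if j = 0 then (D.p a b : ℝ) / D.L else 0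
    have hj2 : -(D.J : ℤ) ≤ j ∧ j < D.J + 1 := hj'
    obtain ⟨i, hi⟩ : ∃ i : ℕ, (i : ℤ) = j + D.J := ⟨(j + D.J).toNat, by omega⟩
    rw [wl_eq a b hi]
    have hi2 : i < 2 * D.J + 1 := by omega
    have h1 := al_ok (al_ok (al_ok t11 a a.2) b b.2) i hi2
    rw [decide_eq_true_eq] at h1
    rw [h1, show j = (i : ℤ) - D.J by omega, hq a b i hi2]
    have e : Int.add (D.q a b i) (if Nat.beq i D.J then D.p a b else 0) = D.q a b i + if i = D.J then D.p a b else 0 := by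
      simp only [Nat.beq_eq]
      rfl
    rw [e]
    have c1 : ((i : ℤ) - D.J = 0) = (i = D.J) := by
      apply propext
      constructor <;> intro h <;> omega
    simp only [c1]
    push_cast
    rw [add_div]
    congr 1
    split_ifs <;> simp

end Cd

end Pool.Agent.FPX.MOB
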