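import Mathlib
import Pool.Agent.FPX.MOB

/-
MOBP (helper66): products of nonnegative forms in the class sums; the forms of a family of squares.
-/

set_option autoImplicit false

open Finset

noncomputable section

namespace Pool.Agent.FPX.MOB

open Pool.Agent.FPX.QST (Wn mem_Wn)
open Pool.Agent.FPX.ALX (St)
open Pool.Agent.FPX.MOE (rf)
open Pool.Agent.FPX.MOP (NN NN2 PH TP lf ac NN2_ac)

variable {m : ℕ} {s' : ℝ}

/-- the class sum of a product -/
theorem four_TP {K : Fin m → Fin m → ℂ} (hK : ∀ a b, K b a = (starRingEnd ℂ) (K a b)) {f g : ℤ → ℂ} {n : ℕ}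
    (hf : ∀ p < n, f (sl (rp p)) = (starRingEnd ℂ) (f (sl p)))
    (hg : ∀ p < n, g (sl (rp p)) = (starRingEnd ℂ) (g (sl p))) (a b : Fin m) {p q : ℕ} (hp : p < n) (hq : q < n) :
    Cd.four (TP K f g) a p b q = 4 * (K a b * (f (sl p) * (starRingEnd ℂ) (g (sl q))
      + (starRingEnd ℂ) (f (sl q)) * g (sl p))).re := by
  unfold Cd.four TP
  rw [hf p hp, hf q hq, hg p hp, hg q hq, hK a b]
  have e1 : ((starRingEnd ℂ) (K a b) * (f (sl q) * (starRingEnd ℂ) (g (sl p)))).re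
      = (K a b * ((starRingEnd ℂ) (f (sl q)) * g (sl p))).re := by
    rw [← Complex.conj_re]
    simp only [map_mul, Complex.conj_conj]
  have e2 : ((starRingEnd ℂ) (K a b) * ((starRingEnd ℂ) (f (sl p)) * (starRingEnd ℂ) ((starRingEnd ℂ) (g (sl q))))).re
      = (K a b * (f (sl p) * (starRingEnd ℂ) (g (sl q)))).re := by
    rw [← Complex.conj_re]
    simp only [map_mul, Complex.conj_conj]
  rw [e1, e2]
  simp only [Complex.conj_conj, mul_add, Complex.add_re]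
  ring

/-- hermitian coefficients give real forms -/
theorem lf_rf {φ : ℤ → ℂ} (hφ : ∀ d, φ (-d) = (starRingEnd ℂ) (φ d)) {t : ℤ} (ht : t ≠ -1) :
    lf s' φ (rf t) = (starRingEnd ℂ) (lf s' φ t) := by
  unfold rf
  by_cases h0 : t = 0
  · subst h0
    rw [if_pos (Or.inl rfl)]
    unfold lf
    rw [if_pos rfl, map_mul, Complex.conj_ofReal, ← hφ, neg_zero]
  · rw [if_neg (by omega)]
    unfold lf
    rw [if_neg (by omega), if_neg h0]
    simp only [map_mul, map_add, map_sub, Complex.conj_ofReal, Complex.conj_I, map_div₀, map_neg, ← hφ]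
    have e1 : (starRingEnd ℂ) (t : ℂ) = t := by
      have : (t : ℂ) = ((t : ℝ) : ℂ) := by push_cast; rfl
      rw [this, Complex.conj_ofReal]
    have e2 : (starRingEnd ℂ) (2 : ℂ) = 2 := Complex.conj_ofNat 2
    rw [e1, e2, map_one]
    have e3 : -2 * (-t - 1) - 1 = -(-2 * t - 1) := by ring
    have e4 : -2 * (-t - 1) - 2 = -(-2 * t) := by ring
    have e5 : -2 * (-t - 1) = -(-2 * t - 2) := by ring
    rw [e3, e4, e5]
    push_cast
    ring

theorem ac_neg (J : ℕ) (p : ℕ → ℂ) (d : ℤ) : ac J p (-d) = (starRingEnd ℂ) (ac J p d) := by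
  unfold ac
  rw [map_sum]
  simp only [map_sum]
  rw [Finset.sum_comm]
  refine Finset.sum_congr rfl fun k _ => Finset.sum_congr rfl fun l _ => ?_
  by_cases h : (k : ℤ) - l = d
  · rw [if_pos h, if_pos (by omega), map_mul, Complex.conj_conj]
    ring
  · rw [if_neg h, if_neg (by omega), map_zero]

/-! ### a family of squares with integer data -/

/-- `2 h L₂` times the form at the slot `j > 0`, from the coefficients `L₂ φ_d = a_d + i b_d`, `d ≥ 0` -/
def FR (sn h : ℕ) (a b : ℕ → ℤ) (p : ℕ) : ℤ :=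
  if Nat.beq p 0 then Int.mul (Int.ofNat (Nat.mul 2 sn)) (a 0)
  else (fun j => Int.mul (Int.ofNat (Nat.add (Nat.mul 2 j) 1)) (Int.sub (Int.mul (Int.ofNat sn) (Int.sub (a (Nat.add (Nat.mul 2 j) 2)) (a (Nat.mul 2 j))))
    (Int.mul (Int.ofNat (Nat.mul 2 h)) (b (Nat.add (Nat.mul 2 j) 1))))) (Nat.div (Nat.add p 1) 2)

def FI (sn h : ℕ) (a b : ℕ → ℤ) (p : ℕ) : ℤ :=
  if Nat.beq p 0 then 0
  else (fun j v => if Nat.beq (Nat.mod p 2) 1 then v j else Int.neg (v j)) (Nat.div (Nat.add p 1) 2)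
    (fun j => Int.mul (Int.ofNat (Nat.add (Nat.mul 2 j) 1)) (Int.sub (Int.mul (Int.ofNat sn) (Int.sub (b (Nat.mul 2 j)) (b (Nat.add (Nat.mul 2 j) 2))))
    (Int.mul (Int.ofNat (Nat.mul 2 h)) (a (Nat.add (Nat.mul 2 j) 1)))))

theorem FR_rp (sn h : ℕ) (a b : ℕ → ℤ) (p : ℕ) : FR sn h a b (rp p) = FR sn h a b p := by
  rcases cs p with rfl | ⟨j, rfl⟩ | ⟨j, rfl⟩
  · rfl
  · rw [rp1]
    unfold FR
    rw [if_neg (by rw [Nat.beq_eq]; omega), if_neg (by rw [Nat.beq_eq]; omega)]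
    have e1 : Nat.div (Nat.add (2 * j + 2) 1) 2 = j + 1 := by
      show (2 * j + 2 + 1) / 2 = j + 1
      omega
    have e2 : Nat.div (Nat.add (2 * j + 1) 1) 2 = j + 1 := by
      show (2 * j + 1 + 1) / 2 = j + 1
      omega
    rw [e1, e2]
  · rw [rp2]
    unfold FR
    rw [if_neg (by rw [Nat.beq_eq]; omega), if_neg (by rw [Nat.beq_eq]; omega)]
    have e1 : Nat.div (Nat.add (2 * j + 2) 1) 2 = j + 1 := by
      show (2 * j + 2 + 1) / 2 = j + 1
      omega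
    have e2 : Nat.div (Nat.add (2 * j + 1) 1) 2 = j + 1 := by
      show (2 * j + 1 + 1) / 2 = j + 1
      omega
    rw [e1, e2]

theorem FI_rp (sn h : ℕ) (a b : ℕ → ℤ) (p : ℕ) : FI sn h a b (rp p) = -FI sn h a b p := by
  rcases cs p with rfl | ⟨j, rfl⟩ | ⟨j, rfl⟩
  · rfl
  · rw [rp1]
    unfold FI
    rw [if_neg (by rw [Nat.beq_eq]; omega), if_neg (by rw [Nat.beq_eq]; omega)]
    have e1 : Nat.div (Nat.add (2 * j + 2) 1) 2 = j + 1 := by
      show (2 * j + 2 + 1) / 2 = j + 1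
      omega
    have e2 : Nat.div (Nat.add (2 * j + 1) 1) 2 = j + 1 := by
      show (2 * j + 1 + 1) / 2 = j + 1
      omega
    have e3 : ¬ Nat.beq (Nat.mod (2 * j + 2) 2) 1 = true := by
      rw [Nat.beq_eq]
      show ¬ (2 * j + 2) % 2 = 1
      omega
    have e4 : Nat.beq (Nat.mod (2 * j + 1) 2) 1 = true := by
      rw [Nat.beq_eq]
      show (2 * j + 1) % 2 = 1
      omega
    rw [e1, e2]
    simp only [if_neg e3, if_pos e4]
    rfl
  · rw [rp2]
    unfold FI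
    rw [if_neg (by rw [Nat.beq_eq]; omega), if_neg (by rw [Nat.beq_eq]; omega)]
    have e1 : Nat.div (Nat.add (2 * j + 2) 1) 2 = j + 1 := by
      show (2 * j + 2 + 1) / 2 = j + 1
      omega
    have e2 : Nat.div (Nat.add (2 * j + 1) 1) 2 = j + 1 := by
      show (2 * j + 1 + 1) / 2 = j + 1
      omega
    have e3 : ¬ Nat.beq (Nat.mod (2 * j + 2) 2) 1 = true := by
      rw [Nat.beq_eq]
      show ¬ (2 * j + 2) % 2 = 1
      omega
    have e4 : Nat.beq (Nat.mod (2 * j + 1) 2) 1 = true := by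
      rw [Nat.beq_eq]
      show (2 * j + 1) % 2 = 1
      omega
    rw [e1, e2]
    simp only [if_neg e3, if_pos e4]
    exact (Int.neg_neg _).symm

/-- the forms at the slots -/
theorem lf_eq {sn h L2 : ℕ} (hh : 0 < h) (hL : 0 < L2) {φ : ℤ → ℂ} {a b : ℕ → ℤ} (hφ : ∀ d, φ (-d) = (starRingEnd ℂ) (φ d))
    {N : ℕ} (hab : ∀ d ≤ 2 * N, φ d = ((a d : ℝ) + (b d : ℝ) * Complex.I) / L2) (hb0 : b 0 = 0) {p : ℕ} (hp : p < 2 * N - 1) :
    lf ((sn : ℝ) / h) φ (sl p) = ((FR sn h a b p : ℝ) + (FI sn h a b p : ℝ) * Complex.I) / (2 * h * L2) := by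
  have hh' : (h : ℂ) ≠ 0 := by exact_mod_cast hh.ne'
  have hL' : (L2 : ℂ) ≠ 0 := by exact_mod_cast hL.ne'
  have key : ∀ j : ℕ, 2 * (j + 1) + 2 ≤ 2 * N →
      lf ((sn : ℝ) / h) φ (sl (2 * j + 1)) = ((FR sn h a b (2 * j + 1) : ℝ) + (FI sn h a b (2 * j + 1) : ℝ) * Complex.I) / (2 * h * L2) := by
    intro j hj
    rw [sl1]
    unfold lf FR FI
    rw [if_neg (by omega), if_neg (by rw [Nat.beq_eq]; omega), if_neg (by rw [Nat.beq_eq]; omega)]
    have e2 : Nat.div (Nat.add (2 * j + 1) 1) 2 = j + 1 := by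
      show (2 * j + 1 + 1) / 2 = j + 1
      omega
    have e4 : Nat.beq (Nat.mod (2 * j + 1) 2) 1 = true := by
      rw [Nat.beq_eq]
      show (2 * j + 1) % 2 = 1
      omega
    rw [e2]
    simp only [if_pos e4]
    have i1 : -2 * ((j : ℤ) + 1) - 1 = -((2 * (j + 1) + 1 : ℕ) : ℤ) := by push_cast; ring
    have i2 : -2 * ((j : ℤ) + 1) - 2 = -((2 * (j + 1) + 2 : ℕ) : ℤ) := by push_cast; ring
    have i3 : -2 * ((j : ℤ) + 1) = -((2 * (j + 1) : ℕ) : ℤ) := by push_cast; ring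
    rw [i1, i2, i3, hφ, hφ, hφ, hab _ (by omega), hab _ (by omega), hab _ (by omega)]
    have r1 : Int.mul (Int.ofNat (Nat.add (Nat.mul 2 (j + 1)) 1)) (Int.sub (Int.mul (Int.ofNat sn) (Int.sub (a (Nat.add (Nat.mul 2 (j + 1)) 2)) (a (Nat.mul 2 (j + 1)))))
        (Int.mul (Int.ofNat (Nat.mul 2 h)) (b (Nat.add (Nat.mul 2 (j + 1)) 1))))
        = ((2 * (j + 1) + 1 : ℕ) : ℤ) * (sn * (a (2 * (j + 1) + 2) - a (2 * (j + 1))) - ((2 * h : ℕ) : ℤ) * b (2 * (j + 1) + 1)) := rfl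
    have r2 : Int.mul (Int.ofNat (Nat.add (Nat.mul 2 (j + 1)) 1)) (Int.sub (Int.mul (Int.ofNat sn) (Int.sub (b (Nat.mul 2 (j + 1))) (b (Nat.add (Nat.mul 2 (j + 1)) 2))))
        (Int.mul (Int.ofNat (Nat.mul 2 h)) (a (Nat.add (Nat.mul 2 (j + 1)) 1))))
        = ((2 * (j + 1) + 1 : ℕ) : ℤ) * (sn * (b (2 * (j + 1)) - b (2 * (j + 1) + 2)) - ((2 * h : ℕ) : ℤ) * a (2 * (j + 1) + 1)) := rfl
    rw [r1, r2]
    simp only [map_div₀, map_add, map_mul, Complex.conj_ofReal, Complex.conj_I, Complex.conj_natCast]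
    push_cast
    field_simp
    have hI : Complex.I ^ 2 = -1 := Complex.I_sq
    ring_nf
    rw [hI]
    ring
  rcases cs p with rfl | ⟨j, rfl⟩ | ⟨j, rfl⟩
  · rw [sl0]
    have r1 : FR sn h a b 0 = ((2 * sn : ℕ) : ℤ) * a 0 := rfl
    have r2 : FI sn h a b 0 = 0 := rfl
    have r3 : φ 0 = ((a 0 : ℝ) + (b 0 : ℝ) * Complex.I) / L2 := by
      have := hab 0 (Nat.zero_le _)
      simpa using this
    unfold lf
    rw [if_pos rfl, r1, r2, r3, hb0]
    push_cast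
    field_simp
    ring
  · exact key j (by omega)
  · have e1 : sl (2 * j + 2) = rf (sl (2 * j + 1)) := by rw [rf_sl, rp1]
    rw [e1, lf_rf hφ (sl_ne _), key j (by omega)]
    have e2 : FR sn h a b (2 * j + 2) = FR sn h a b (2 * j + 1) := by
      rw [← FR_rp, rp2]
    have e3 : FI sn h a b (2 * j + 2) = -FI sn h a b (2 * j + 1) := by
      rw [← FI_rp, rp1]
    rw [e2, e3]
    simp only [map_div₀, map_add, map_mul, Complex.conj_ofReal, Complex.conj_I, Complex.conj_natCast]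
    have e5 : (starRingEnd ℂ) (2 : ℂ) = 2 := Complex.conj_ofNat 2
    rw [e5]
    push_cast
    ring

end Pool.Agent.FPX.MOB
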