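import Mathlib
import Pool.Agent.FPX.CEA
/-!
PSB. Positive semidefinite integer matrices of large size, checked by the kernel with packed natural numbers.

The matrix `M` (size `n`) is given by the rows of its upper triangle: row `i` is ONE natural number whose digits in
base `B` (lowest first) are `M i j + H`, `j = i, i + 1, ..`.  The approximate factor `G` (size `n × K`) is given by its
rows: row `i` is one natural number with the digits `G i k + h` in base `b`.  The test: `M - G Gᵀ` has all its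
off-diagonal entries bounded by `ε` and all its diagonal entries at least `n ε`.
-/
set_option autoImplicit false

namespace Pool.Agent.FPX.PSB

open Pool.Agent.FPX.CEA (dot qf Tri)

/-! ### digits and packed numbers -/

/-- the digits in base `b`, lowest first -/
def digs (b : ℕ) : ℕ → ℕ → List ℕ
  | 0, _ => []
  | n + 1, c => c % b :: digs b n (c / b)

/-- digits as a number, lowest first -/
def pk (X : ℕ) : List ℕ → ℕ
  | [] => 0
  | a :: l => a + X * pk X l

/-- digits as a number, highest first -/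
def rv (X : ℕ) : List ℕ → ℕ
  | [] => 0
  | a :: l => a * X ^ l.length + rv X l

/-- sum of the digits -/
def sm : List ℕ → ℕ
  | [] => 0
  | a :: l => a + sm l

/-- scalar product -/
def dt : List ℕ → List ℕ → ℕ
  | a :: l, c :: m => a * c + dt l m
  | _, _ => 0

/-- computation of `rv`: `q X^n + rv X (digs b n c)` -/
def rvc (b X : ℕ) : ℕ → ℕ → ℕ → ℕ
  | 0, _, q => q
  | n + 1, c, q => rvc b X n (c / b) (q * X + c % b)

/-- computation of `pk`: `p + w pk X (digs b n c)` -/
def pkc (b X : ℕ) : ℕ → ℕ → ℕ → ℕ → ℕ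
  | 0, _, _, p => p
  | n + 1, c, w, p => pkc b X n (c / b) (w * X) (p + w * (c % b))

theorem digs_len (b : ℕ) : ∀ n c : ℕ, (digs b n c).length = n
  | 0, _ => rfl
  | n + 1, c => by simp [digs, digs_len b n (c / b)]

theorem digs_lt {b : ℕ} (hb : 0 < b) : ∀ n c : ℕ, ∀ a ∈ digs b n c, a < b
  | 0, _, a, h => by simp [digs] at h
  | n + 1, c, a, h => by
    simp only [digs, List.mem_cons] at h
    rcases h with h | h
    · rw [h]
      exact Nat.mod_lt _ hb
    · exact digs_lt hb n (c / b) a h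

theorem rvc_eq (b X : ℕ) : ∀ n c q : ℕ, rvc b X n c q = q * X ^ n + rv X (digs b n c)
  | 0, c, q => by simp [rvc, digs, rv]
  | n + 1, c, q => by
    rw [rvc, rvc_eq b X n, digs, rv, digs_len]
    ring

theorem pkc_eq (b X : ℕ) : ∀ n c w p : ℕ, pkc b X n c w p = p + w * pk X (digs b n c)
  | 0, c, w, p => by simp [pkc, digs, pk]
  | n + 1, c, w, p => by
    rw [pkc, pkc_eq b X n, digs, pk]
    ring

theorem rv_lt {b X : ℕ} (hb : 0 < b) (hX : 0 < X) : ∀ l : List ℕ, (∀ a ∈ l, a < b) →
    (X - 1) * rv X l ≤ (b - 1) * (X ^ l.length - 1)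
  | [], _ => by simp [rv]
  | a :: l, h => by
    have ih := rv_lt hb hX l fun c hc => h c (List.mem_cons_of_mem _ hc)
    have ha : a < b := h a (by simp)
    obtain ⟨Y, rfl⟩ : ∃ Y, X = Y + 1 := ⟨X - 1, by omega⟩
    obtain ⟨d, rfl⟩ : ∃ d, b = d + 1 := ⟨b - 1, by omega⟩
    simp only [rv, List.length_cons, Nat.add_sub_cancel] at ih ⊢
    obtain ⟨Z, hZ⟩ : ∃ Z, (Y + 1) ^ l.length = Z + 1 := ⟨(Y + 1) ^ l.length - 1, by
      have := Nat.one_le_pow l.length (Y + 1) (by omega); omega⟩
    rw [hZ, Nat.add_sub_cancel] at ih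
    have e : (Y + 1) ^ (l.length + 1) - 1 = Y * (Z + 1) + Z := by
      rw [pow_succ, hZ]
      have : (Z + 1) * (Y + 1) = Y * (Z + 1) + Z + 1 := by ring
      omega
    rw [e, hZ]
    have h1 : a ≤ d := by omega
    calc Y * (a * (Z + 1) + rv (Y + 1) l) = a * (Y * (Z + 1)) + Y * rv (Y + 1) l := by ring
      _ ≤ d * (Y * (Z + 1)) + d * Z := Nat.add_le_add (Nat.mul_le_mul_right _ h1) ih
      _ = d * (Y * (Z + 1) + Z) := by ring

/-- the middle digit of a product is the scalar product -/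
theorem mid_aux {b X : ℕ} (hb : 0 < b) (hX : 0 < X) : ∀ l m : List ℕ, l.length = m.length → (∀ a ∈ l, a < b) →
    (∀ a ∈ m, a < b) → ∃ lo hi : ℕ, X * (pk X l * rv X m) = lo * X + X ^ l.length * (dt l m) + X ^ l.length * X * hi ∧
      (X - 1) * (lo * X) ≤ (l.length * (b - 1) ^ 2) * (X ^ l.length - 1)
  | [], [], _, _, _ => ⟨0, 0, by simp [pk, dt], by simp⟩
  | [], _ :: _, h, _, _ => by simp at h
  | _ :: _, [], h, _, _ => by simp at h
  | a :: l, c :: m, h, hl, hm => by
    have hlen : l.length = m.length := by simpa using h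
    obtain ⟨lo, hi, h1, h2⟩ := mid_aux hb hX l m hlen (fun d hd => hl d (List.mem_cons_of_mem _ hd))
      fun d hd => hm d (List.mem_cons_of_mem _ hd)
    have ha : a < b := hl a (by simp)
    have hr := rv_lt hb hX m fun d hd => hm d (List.mem_cons_of_mem _ hd)
    refine ⟨lo * X + a * rv X m, hi + pk X l * c, ?_, ?_⟩
    · simp only [pk, rv, dt, List.length_cons, ← hlen, pow_succ]
      have : X * ((a + X * pk X l) * (c * X ^ l.length + rv X m)) =
        X * (X * (pk X l * rv X m)) + X * (a * rv X m) + X * X ^ l.length * (a * c)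
          + X * X ^ l.length * X * (pk X l * c) := by ring
      rw [this, h1]
      ring
    · simp only [List.length_cons]
      rw [← hlen] at hr
      obtain ⟨Y, rfl⟩ : ∃ Y, X = Y + 1 := ⟨X - 1, by omega⟩
      obtain ⟨d, rfl⟩ : ∃ d, b = d + 1 := ⟨b - 1, by omega⟩
      simp only [Nat.add_sub_cancel] at h2 hr ⊢
      obtain ⟨Z, hZ⟩ : ∃ Z, (Y + 1) ^ l.length = Z + 1 := ⟨(Y + 1) ^ l.length - 1, by
        have := Nat.one_le_pow l.length (Y + 1) (by omega); omega⟩
      rw [hZ, Nat.add_sub_cancel] at h2 hr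
      have e : (Y + 1) ^ (l.length + 1) - 1 = Z * (Y + 1) + Y := by
        rw [pow_succ, hZ]
        have : (Z + 1) * (Y + 1) = Z * (Y + 1) + Y + 1 := by ring
        omega
      rw [e]
      have h1 : a ≤ d := by omega
      have h3 : Y * (a * rv (Y + 1) m) ≤ d * (d * Z) := by
        calc Y * (a * rv (Y + 1) m) = a * (Y * rv (Y + 1) m) := by ring
          _ ≤ d * (d * Z) := Nat.mul_le_mul h1 hr
      calc Y * ((lo * (Y + 1) + a * rv (Y + 1) m) * (Y + 1))
          = (Y * (lo * (Y + 1))) * (Y + 1) + (Y * (a * rv (Y + 1) m)) * (Y + 1) := by ring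
        _ ≤ (l.length * d ^ 2 * Z) * (Y + 1) + (d * (d * Z)) * (Y + 1) :=
          Nat.add_le_add (Nat.mul_le_mul_right _ h2) (Nat.mul_le_mul_right _ h3)
        _ = (l.length + 1) * d ^ 2 * (Z * (Y + 1)) := by ring
        _ ≤ (l.length + 1) * d ^ 2 * (Z * (Y + 1) + Y) := Nat.mul_le_mul_left _ (by omega)

theorem dt_le {b : ℕ} : ∀ l m : List ℕ, (∀ a ∈ l, a < b) → (∀ a ∈ m, a < b) → dt l m ≤ l.length * (b - 1) ^ 2
  | [], _, _, _ => by simp [dt]
  | _ :: _, [], _, _ => by simp [dt]
  | a :: l, c :: m, hl, hm => by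
    have ih := dt_le l m (fun d hd => hl d (List.mem_cons_of_mem _ hd)) fun d hd => hm d (List.mem_cons_of_mem _ hd)
    have ha : a < b := hl a (by simp)
    have hc : c < b := hm c (by simp)
    have h1 : a * c ≤ (b - 1) * (b - 1) := Nat.mul_le_mul (by omega) (by omega)
    simp only [dt, List.length_cons]
    calc a * c + dt l m ≤ (b - 1) * (b - 1) + l.length * (b - 1) ^ 2 := Nat.add_le_add h1 ih
      _ = (l.length + 1) * (b - 1) ^ 2 := by ring

theorem mid_eq {b X K : ℕ} (hb : 0 < b) (hX : K * (b - 1) ^ 2 < X) (hX1 : 1 < X) (hK : 0 < K) {l m : List ℕ}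
    (hl : l.length = K) (hm : m.length = K) (h1 : ∀ a ∈ l, a < b) (h2 : ∀ a ∈ m, a < b) :
    pk X l * rv X m / X ^ (K - 1) % X = dt l m := by
  obtain ⟨lo, hi, e, hlo⟩ := mid_aux hb (by omega : 0 < X) l m (by omega) h1 h2
  have hd := dt_le l m h1 h2
  rw [hl] at e hlo hd
  have hZ : 0 < X ^ K := Nat.pow_pos (by omega)
  have h3 : lo * X < X ^ K := by
    by_contra hc
    have h4 : (X - 1) * X ^ K ≤ (X - 1) * (lo * X) := Nat.mul_le_mul_left _ (by omega)
    have h5 : K * (b - 1) ^ 2 * (X ^ K - 1) ≤ (X - 1) * (X ^ K - 1) := Nat.mul_le_mul_right _ (by omega)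
    have h6 : (X - 1) * X ^ K ≤ (X - 1) * (X ^ K - 1) := le_trans h4 (le_trans hlo h5)
    have h7 := Nat.le_of_mul_le_mul_left h6 (by omega)
    omega
  have e2 : X ^ K = X * X ^ (K - 1) := by
    conv_lhs => rw [show K = (K - 1) + 1 by omega, pow_succ]
    ring
  have e3 : pk X l * rv X m / X ^ (K - 1) = dt l m + X * hi := by
    rw [← Nat.mul_div_mul_left (pk X l * rv X m) (X ^ (K - 1)) (by omega : 0 < X), ← e2, e]
    rw [show lo * X + X ^ K * dt l m + X ^ K * X * hi = lo * X + X ^ K * (dt l m + X * hi) by ring,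
      Nat.add_mul_div_left _ _ hZ, Nat.div_eq_of_lt h3, Nat.zero_add]
  rw [e3, Nat.add_mul_mod_self_left, Nat.mod_eq_of_lt (by omega)]

/-! ### the test -/

/-- entries of one row: digits of `r` against the scalar products with `q`; `t` is `h` times the row sum -/
def ents (X Z B ε C t p : ℕ) : List ℕ → List ℕ → ℕ → Bool
  | q :: qs, u :: us, r =>
    (fun m s => Nat.ble s (m + ε) && (Nat.ble m (s + ε) && ents X Z B ε C t p qs us (r / B)))
      (p * q / Z % X + C) (r % B + (t + u))
  | _, _, _ => true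

/-- all rows -/
def rws (X Z B ε nε C : ℕ) : List ℕ → List ℕ → List ℕ → List ℕ → Bool
  | p :: ps, q :: qs, u :: us, r :: rs =>
    Nat.ble (p * q / Z % X + C + nε) (r % B + (u + u)) &&
      (ents X Z B ε C u p qs us (r / B) && rws X Z B ε nε C ps qs us rs)
  | _, _, _, _ => true

/-- the complete test; `Ms` packed rows of the matrix, `Gs` packed rows of the factor -/
def test (b h X K B H ε : ℕ) (n : ℕ) (Gs Ms : List ℕ) : Bool :=
  Nat.ble (K * (b - 1) ^ 2 + 1) X && (Nat.ble 2 X && (Nat.ble 1 K && (Nat.ble 1 b && (Nat.beq Gs.length n &&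
    (Nat.beq Ms.length n &&
  rws X (X ^ (K - 1)) B ε (n * ε) (K * h ^ 2 + H) (Gs.map fun c => pkc b X K c 1 0) (Gs.map fun c => rvc b X K c 0)
    (Gs.map fun c => h * sm (digs b K c)) Ms)))))

/-! ### soundness -/

/-- entry `k` as a real number, without its offset -/
def en (h : ℕ) (l : List ℕ) (k : ℕ) : ℝ := (l.getD k 0 : ℝ) - h

/-- the linear form of column `k` -/
def lf (h k : ℕ) : List (List ℕ) → List ℝ → ℝ
  | a :: A, x :: v => en h a k * x + lf h k A v
  | _, _ => 0

/-- scalar product of two rows without offset -/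
def sp (h K : ℕ) (l m : List ℕ) : ℝ := ∑ k ∈ Finset.range K, en h l k * en h m k

/-- sum of the absolute values -/
def ab : List ℝ → ℝ
  | [] => 0
  | x :: v => |x| + ab v

/-- sum of the squares -/
def s2 : List ℝ → ℝ
  | [] => 0
  | x :: v => x ^ 2 + s2 v

theorem ab_nonneg : ∀ v : List ℝ, 0 ≤ ab v
  | [] => le_refl _
  | x :: v => add_nonneg (abs_nonneg x) (ab_nonneg v)

theorem s2_nonneg : ∀ v : List ℝ, 0 ≤ s2 v
  | [] => le_refl _
  | x :: v => add_nonneg (sq_nonneg x) (s2_nonneg v)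

theorem ab_sq : ∀ v : List ℝ, ab v ^ 2 ≤ v.length * s2 v
  | [] => by simp [ab, s2]
  | x :: v => by
    have ih := ab_sq v
    have h1 : |x| ^ 2 = x ^ 2 := sq_abs x
    have h2 := ab_nonneg v
    have h3 := s2_nonneg v
    simp only [ab, s2, List.length_cons, Nat.cast_add, Nat.cast_one]
    have hn : (0 : ℝ) ≤ v.length := Nat.cast_nonneg _
    have h4 : 2 * (|x| * ab v) ≤ v.length * x ^ 2 + s2 v := by
      rcases Nat.eq_zero_or_pos v.length with h0 | h0
      · have : v = [] := List.length_eq_zero_iff.mp h0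
        subst this
        simp [ab, s2]
      · have hp : (0 : ℝ) < v.length := by exact_mod_cast h0
        have h5 : 2 * (|x| * ab v) * v.length ≤ (v.length * x ^ 2 + s2 v) * v.length := by
          have e : ((v.length : ℝ) * |x| - ab v) ^ 2 =
              v.length ^ 2 * x ^ 2 - 2 * (v.length * |x| * ab v) + ab v ^ 2 := by
            rw [← h1]
            ring
          nlinarith [sq_nonneg ((v.length : ℝ) * |x| - ab v)]
        exact le_of_mul_le_mul_right h5 hp
    nlinarith

theorem dt_sum : ∀ (K : ℕ) (l m : List ℕ), l.length = K → m.length = K →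
    ((dt l m : ℕ) : ℝ) = ∑ k ∈ Finset.range K, (l.getD k 0 : ℝ) * (m.getD k 0 : ℝ)
  | 0, l, m, hl, hm => by
    have h1 : l = [] := List.length_eq_zero_iff.mp hl
    subst h1
    simp [dt]
  | K + 1, a :: l, c :: m, hl, hm => by
    have ih := dt_sum K l m (by simpa using hl) (by simpa using hm)
    rw [Finset.sum_range_succ']
    simp only [dt, List.getD_cons_succ, List.getD_cons_zero, Nat.cast_add, Nat.cast_mul, ih]
    ring
  | K + 1, [], _, hl, _ => by simp at hl
  | K + 1, _ :: _, [], _, hm => by simp at hm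

theorem sm_sum : ∀ (K : ℕ) (l : List ℕ), l.length = K →
    ((sm l : ℕ) : ℝ) = ∑ k ∈ Finset.range K, (l.getD k 0 : ℝ)
  | 0, l, hl => by
    have h1 : l = [] := List.length_eq_zero_iff.mp hl
    subst h1
    simp [sm]
  | K + 1, a :: l, hl => by
    have ih := sm_sum K l (by simpa using hl)
    rw [Finset.sum_range_succ']
    simp only [sm, List.getD_cons_succ, List.getD_cons_zero, Nat.cast_add, ih]
    ring
  | K + 1, [], hl => by simp at hl

theorem sp_eq (h K : ℕ) (l m : List ℕ) (hl : l.length = K) (hm : m.length = K) :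
    sp h K l m = (dt l m : ℕ) - (h * sm l : ℕ) - (h * sm m : ℕ) + (K * h ^ 2 : ℕ) := by
  unfold sp en
  push_cast
  rw [dt_sum K l m hl hm, sm_sum K l hl, sm_sum K m hm, Finset.mul_sum, Finset.mul_sum,
    ← Finset.sum_sub_distrib, ← Finset.sum_sub_distrib]
  have : (K : ℝ) * (h : ℝ) ^ 2 = ∑ _k ∈ Finset.range K, (h : ℝ) ^ 2 := by
    rw [Finset.sum_const, Finset.card_range, nsmul_eq_mul]
  rw [this, ← Finset.sum_add_distrib]
  refine Finset.sum_congr rfl fun k _ => ?_
  ring

/-- the rows of the matrix -/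
def rowsd (B : ℕ) : List ℕ → List (List ℕ)
  | [] => []
  | r :: rs => digs B (rs.length + 1) r :: rowsd B rs

/-- `∑ sp a A_j v_j` -/
def spd (h K : ℕ) (a : List ℕ) : List (List ℕ) → List ℝ → ℝ
  | c :: A, x :: v => sp h K a c * x + spd h K a A v
  | _, _ => 0

theorem spd_eq (h K : ℕ) (a : List ℕ) : ∀ (A : List (List ℕ)) (v : List ℝ),
    spd h K a A v = ∑ k ∈ Finset.range K, en h a k * lf h k A v
  | [], v => by cases v <;> simp [spd, lf]
  | c :: A, [] => by simp [spd, lf]
  | c :: A, x :: v => by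
    simp only [spd, lf, spd_eq h K a A v, sp]
    rw [Finset.sum_mul, ← Finset.sum_add_distrib]
    refine Finset.sum_congr rfl fun k _ => ?_
    ring

section Sound

variable {b h X K B H ε : ℕ}

theorem ents_sound (hb : 0 < b) (hX : K * (b - 1) ^ 2 < X) (hX1 : 1 < X) (hK : 0 < K) {a : List ℕ}
    (ha : a.length = K) (ha' : ∀ d ∈ a, d < b) : ∀ (A : List (List ℕ)) (r : ℕ) (v : List ℝ),
    (∀ l ∈ A, l.length = K ∧ ∀ d ∈ l, d < b) → v.length = A.length →
    ents X (X ^ (K - 1)) B ε (K * h ^ 2 + H) (h * sm a) (pk X a) (A.map (rv X)) (A.map fun l => h * sm l) r = true →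
    |dot (fun d : ℕ => (d : ℝ) - H) (digs B A.length r) v - spd h K a A v| ≤ ε * ab v
  | [], r, v, _, hv, _ => by
    have : v = [] := List.length_eq_zero_iff.mp (by simpa using hv)
    subst this
    simp [digs, dot, spd, ab]
  | c :: A, r, [], _, hv, _ => by simp at hv
  | c :: A, r, x :: v, hA, hv, ht => by
    simp only [List.map_cons, ents, Bool.and_eq_true, Nat.ble_eq] at ht
    obtain ⟨h1, h2, h3⟩ := ht
    obtain ⟨hc, hc'⟩ := hA c (by simp)
    have ih := ents_sound hb hX hX1 hK ha ha' A (r / B) v (fun l hl => hA l (List.mem_cons_of_mem _ hl))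
      (by simpa using hv) h3
    rw [mid_eq hb hX hX1 hK ha hc ha' hc'] at h1 h2
    have e := sp_eq h K a c ha hc
    have h1' : ((r % B : ℕ) : ℝ) + ((h * sm a : ℕ) + (h * sm c : ℕ)) ≤ (dt a c : ℕ) + ((K * h ^ 2 : ℕ) + (H : ℝ)) + ε := by
      exact_mod_cast h1
    have h2' : ((dt a c : ℕ) : ℝ) + ((K * h ^ 2 : ℕ) + (H : ℝ)) ≤ (r % B : ℕ) + ((h * sm a : ℕ) + (h * sm c : ℕ)) + ε := by
      exact_mod_cast h2
    have h4 : |((r % B : ℕ) : ℝ) - H - sp h K a c| ≤ ε := by
      rw [e, abs_le]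
      constructor <;> linarith
    simp only [List.length_cons, digs, dot, spd, ab]
    have e2 : (((r % B : ℕ) : ℝ) - H) * x + dot (fun d : ℕ => (d : ℝ) - H) (digs B A.length (r / B)) v
        - (sp h K a c * x + spd h K a A v) = (((r % B : ℕ) : ℝ) - H - sp h K a c) * x +
          (dot (fun d : ℕ => (d : ℝ) - H) (digs B A.length (r / B)) v - spd h K a A v) := by ring
    rw [e2]
    refine le_trans (abs_add_le _ _) ?_
    rw [abs_mul]
    have h5 := mul_le_mul_of_nonneg_right h4 (abs_nonneg x)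
    linarith

theorem rws_sound {n : ℕ} (hb : 0 < b) (hX : K * (b - 1) ^ 2 < X) (hX1 : 1 < X) (hK : 0 < K) :
    ∀ (A : List (List ℕ)) (rs : List ℕ) (v : List ℝ),
    (∀ l ∈ A, l.length = K ∧ ∀ d ∈ l, d < b) → rs.length = A.length → v.length = A.length →
    rws X (X ^ (K - 1)) B ε (n * ε) (K * h ^ 2 + H) (A.map (pk X)) (A.map (rv X)) (A.map fun l => h * sm l) rs = true →
    (∑ k ∈ Finset.range K, lf h k A v ^ 2) + n * ε * s2 v - ε * ab v ^ 2 ≤
      qf (fun d : ℕ => (d : ℝ) - H) (rowsd B rs) v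
  | [], rs, v, _, hr, hv, _ => by
    have h1 : v = [] := List.length_eq_zero_iff.mp (by simpa using hv)
    have h2 : rs = [] := List.length_eq_zero_iff.mp (by simpa using hr)
    subst h1 h2
    simp [lf, s2, ab, rowsd, qf]
  | a :: A, [], _, _, hr, _, _ => by simp at hr
  | a :: A, _ :: _, [], _, _, hv, _ => by simp at hv
  | a :: A, r :: rs, x :: v, hA, hr, hv, ht => by
    have hr' : rs.length = A.length := by simpa using hr
    have hv' : v.length = A.length := by simpa using hv
    simp only [List.map_cons, rws, Bool.and_eq_true, Nat.ble_eq] at ht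
    obtain ⟨h1, h2, h3⟩ := ht
    obtain ⟨ha, ha'⟩ := hA a (by simp)
    have hA' : ∀ l ∈ A, l.length = K ∧ ∀ d ∈ l, d < b := fun l hl => hA l (List.mem_cons_of_mem _ hl)
    have ih := rws_sound (n := n) hb hX hX1 hK A rs v hA' hr' hv' h3
    have he := ents_sound hb hX hX1 hK ha ha' A (r / B) v hA' hv' h2
    rw [mid_eq hb hX hX1 hK ha ha ha' ha'] at h1
    have e := sp_eq h K a a ha ha
    have h1' : ((dt a a : ℕ) : ℝ) + ((K * h ^ 2 : ℕ) + (H : ℝ)) + n * ε ≤
        (r % B : ℕ) + ((h * sm a : ℕ) + (h * sm a : ℕ)) := by exact_mod_cast h1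
    simp only [rowsd, hr', digs, qf, lf, s2, ab]
    have e3 : (∑ k ∈ Finset.range K, (en h a k * x + lf h k A v) ^ 2) =
        sp h K a a * x ^ 2 + 2 * x * spd h K a A v + ∑ k ∈ Finset.range K, lf h k A v ^ 2 := by
      rw [spd_eq, sp, Finset.sum_mul, Finset.mul_sum, ← Finset.sum_add_distrib, ← Finset.sum_add_distrib]
      refine Finset.sum_congr rfl fun k _ => ?_
      ring
    rw [e3]
    set D := dot (fun d : ℕ => (d : ℝ) - H) (digs B A.length (r / B)) v with hD
    have h6 : -(2 * |x| * (ε * ab v)) ≤ 2 * x * (D - spd h K a A v) := by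
      have h7 : |2 * x * (D - spd h K a A v)| ≤ 2 * |x| * (ε * ab v) := by
        rw [abs_mul, abs_mul, abs_two]
        exact mul_le_mul_of_nonneg_left he (by positivity)
      exact (abs_le.1 h7).1
    have h8 : |x| ^ 2 = x ^ 2 := sq_abs x
    have h9 : (sp h K a a + n * ε) * x ^ 2 ≤ (((r % B : ℕ) : ℝ) - H) * x ^ 2 := by
      refine mul_le_mul_of_nonneg_right ?_ (sq_nonneg x)
      rw [e]
      linarith
    have h10 : (0 : ℝ) ≤ ε := Nat.cast_nonneg _
    nlinarith [mul_nonneg h10 (sq_nonneg x)]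

/-- **the matrix is positive semidefinite** -/
theorem psd {n : ℕ} {Gs Ms : List ℕ} (ht : test b h X K B H ε n Gs Ms = true) (v : List ℝ) (hv : v.length = n) :
    0 ≤ qf (fun d : ℕ => (d : ℝ) - H) (rowsd B Ms) v := by
  simp only [test, Bool.and_eq_true, Nat.ble_eq, Nat.beq_eq] at ht
  obtain ⟨h1, h2, h3, h4, h5, h6, h7⟩ := ht
  set A := Gs.map (digs b K) with hA
  have e1 : (Gs.map fun c => pkc b X K c 1 0) = A.map (pk X) := by
    rw [hA, List.map_map]
    refine List.map_congr_left fun c _ => ?_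
    rw [pkc_eq]
    simp
  have e2 : (Gs.map fun c => rvc b X K c 0) = A.map (rv X) := by
    rw [hA, List.map_map]
    refine List.map_congr_left fun c _ => ?_
    rw [rvc_eq]
    simp
  have e3 : (Gs.map fun c => h * sm (digs b K c)) = A.map fun l => h * sm l := by
    rw [hA, List.map_map]
    rfl
  rw [e1, e2, e3] at h7
  have hl : A.length = n := by rw [hA, List.length_map, h5]
  have hA' : ∀ l ∈ A, l.length = K ∧ ∀ d ∈ l, d < b := by
    intro l hl
    rw [hA, List.mem_map] at hl
    obtain ⟨c, _, rfl⟩ := hl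
    exact ⟨digs_len b K c, digs_lt (by omega) K c⟩
  have key := rws_sound (n := n) (by omega) (by omega) (by omega) (by omega) A Ms v hA' (by omega) (by omega) h7
  have hs := ab_sq v
  rw [hv] at hs
  have h10 : (0 : ℝ) ≤ ε := Nat.cast_nonneg _
  have h11 : (0 : ℝ) ≤ ∑ k ∈ Finset.range K, lf h k A v ^ 2 := Finset.sum_nonneg fun k _ => sq_nonneg _
  nlinarith [mul_le_mul_of_nonneg_left hs h10]

end Sound

end Pool.Agent.FPX.PSB
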