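import Mathlib
import Pool.Agent.FPX.PSB
/-!
PSC. Certificates for Hermitian forms in `z ∈ ℂ²` with coefficients quadratic in a real vector `D`.

Data: four quadratic forms `F1, F2, F3, F4` in `D` (upper triangles, digits with offset `H`), linear forms `l_k(D)`,
`k < R` (given by columns, digits with offset `lam`), multipliers `K_{kl}`, `k < l` (Hermitian `2 × 2`, positive
semidefinite, given by columns, digits with offset `kap`), an approximate factor.  The test checks with natural numbers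
only that `F - 2 ∑_{k<l} K_{kl} l_k l_l` is positive semidefinite as a form in `z ⊗ D`.
-/
set_option autoImplicit false

namespace Pool.Agent.FPX.PSC

open Pool.Agent.FPX.CEA (dot qf Tri triB tri_of)
open Pool.Agent.FPX.PSB

/-! ### the test of positivity on lists of digits -/

/-- entries of one row -/
def entsL (Y Z ε C t p : ℕ) : List ℕ → List ℕ → List ℕ → Bool
  | q :: qs, u :: us, r :: rs =>
    (fun m s => Nat.ble s (m + ε) && (Nat.ble m (s + ε) && entsL Y Z ε C t p qs us rs))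
      (p * q / Z % Y + C) (r + (t + u))
  | _, _, _ => true

/-- all rows -/
def rwsL (Y Z ε nε C : ℕ) : List ℕ → List ℕ → List ℕ → List (List ℕ) → Bool
  | p :: ps, q :: qs, u :: us, (r :: rs) :: M =>
    Nat.ble (p * q / Z % Y + C + nε) (r + (u + u)) &&
      (entsL Y Z ε C u p qs us rs && rwsL Y Z ε nε C ps qs us M)
  | _, _, _, _ => true

/-- the complete test -/
def testL (b h Y K H ε n : ℕ) (Gs : List ℕ) (M : List (List ℕ)) : Bool :=
  Nat.ble (K * (b - 1) ^ 2 + 1) Y && (Nat.ble 2 Y && (Nat.ble 1 K && (Nat.ble 1 b && (Nat.beq Gs.length n &&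
  rwsL Y (Y ^ (K - 1)) ε (n * ε) (K * h ^ 2 + H) (Gs.map fun c => pkc b Y K c 1 0) (Gs.map fun c => rvc b Y K c 0)
    (Gs.map fun c => h * sm (digs b K c)) M))))

/-- the data of a literal without its tag (the tag keeps the literals apart in the caches of the kernel) -/
def utg (c : ℕ) : ℕ := c / 18446744073709551616

/-! ### the multipliers -/

/-- the positivity of the `2 × 2` matrices of one column -/
def kch (b kap : ℕ) : ℕ → ℕ → ℕ → ℕ → ℕ → Bool
  | 0, _, _, _, _ => true
  | n + 1, c1, c2, c3, c4 =>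
    (fun x y u v => Nat.ble kap (c1 % b) && (Nat.ble kap (c2 % b) && (Nat.ble (u * u + v * v) (x * y) &&
      kch b kap n (c1 / b) (c2 / b) (c3 / b) (c4 / b))))
      (c1 % b - kap) (c2 % b - kap) ((c3 % b - kap) + (kap - c3 % b)) ((c4 % b - kap) + (kap - c4 % b))

/-- all columns; column `l` has `l` entries -/
def kchs (b kap : ℕ) : ℕ → List ℕ → List ℕ → List ℕ → List ℕ → Bool
  | l, c1 :: K1, c2 :: K2, c3 :: K3, c4 :: K4 => kch b kap l c1 c2 c3 c4 && kchs b kap (l + 1) K1 K2 K3 K4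
  | _, _, _, _, _ => true

/-- the columns of the multiplier matrix, all of length `R` -/
def kcols (b kap R : ℕ) : ℕ → List ℕ → List (List ℕ)
  | l, c :: K => (digs b l c ++ List.replicate (R - l) kap) :: kcols b kap R (l + 1) K
  | _, [] => []

/-- `∑ Z^k`, `k < n` -/
def on (Z : ℕ) : ℕ → ℕ
  | 0 => 0
  | n + 1 => 1 + Z * on Z n

/-- the packed (highest first) columns -/
def kpk (b kap Z R : ℕ) : ℕ → List ℕ → List ℕ
  | l, c :: K => (rvc b Z l c 0 * Z ^ (R - l) + kap * on Z (R - l)) :: kpk b kap Z R (l + 1) K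
  | _, [] => []

/-- `∑ w_l c_l` -/
def wsum (R : ℕ) : List ℕ → List (List ℕ) → List ℕ
  | w :: ws, c :: cs => List.zipWith (fun x y => w * x + y) c (wsum R ws cs)
  | _, _ => List.replicate R 0

/-- `∑ c_l` -/
def vsum (R : ℕ) : List (List ℕ) → List ℕ
  | c :: cs => List.zipWith (fun x y => x + y) c (vsum R cs)
  | [] => List.replicate R 0

/-- the column `T = K L` with offset -/
def tl (P Q lam : ℕ) : List ℕ → List ℕ → List ℕ
  | a :: A, b :: B => (a + P - (lam * b + Q)) :: tl P Q lam A B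
  | _, _ => []

/-! ### the matrix after the products -/

/-- one row -/
def mrow (Z Y C p r u : ℕ) : List ℕ → List ℕ → List ℕ → List ℕ → List ℕ
  | p' :: ps, r' :: rs, u' :: us, f :: fs =>
    (f + (u + u') - (p * r' / Y % Z + p' * r / Y % Z + C)) :: mrow Z Y C p r u ps rs us fs
  | _, _, _, _ => []

/-- no truncation in the row -/
def mrc (Z Y C p r u : ℕ) : List ℕ → List ℕ → List ℕ → List ℕ → Bool
  | p' :: ps, r' :: rs, u' :: us, f :: fs =>
    Nat.ble (p * r' / Y % Z + p' * r / Y % Z + C) (f + (u + u')) && mrc Z Y C p r u ps rs us fs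
  | _, _, _, _ => true

/-- the matrix -/
def mmat (Z Y C : ℕ) : List ℕ → List ℕ → List ℕ → List (List ℕ) → List (List ℕ)
  | p :: ps, r :: rs, u :: us, F :: Fs => mrow Z Y C p r u (p :: ps) (r :: rs) (u :: us) F :: mmat Z Y C ps rs us Fs
  | _, _, _, _ => []

/-- no truncation -/
def mmc (Z Y C : ℕ) : List ℕ → List ℕ → List ℕ → List (List ℕ) → Bool
  | p :: ps, r :: rs, u :: us, F :: Fs => mrc Z Y C p r u (p :: ps) (r :: rs) (u :: us) F && mmc Z Y C ps rs us Fs
  | _, _, _, _ => true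

/-! ### the real matrix of size `4 m` -/

/-- groups of the first row -/
def wa (H : ℕ) : List ℕ → List ℕ → List ℕ → List ℕ
  | x1 :: m1, x3 :: m3, x4 :: m4 => x1 :: H :: x3 :: (2 * H - x4) :: wa H m1 m3 m4
  | _, _, _ => []
/-- groups of the second row -/
def wb (H : ℕ) : List ℕ → List ℕ → List ℕ → List ℕ
  | x1 :: m1, x3 :: m3, x4 :: m4 => H :: x1 :: x4 :: x3 :: wb H m1 m3 m4
  | _, _, _ => []
/-- groups of the third row -/
def wc (H : ℕ) : List ℕ → List ℕ → List ℕ → List ℕ
  | x2 :: m2, x3 :: m3, x4 :: m4 => x3 :: x4 :: x2 :: H :: wc H m2 m3 m4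
  | _, _, _ => []
/-- groups of the fourth row -/
def wd (H : ℕ) : List ℕ → List ℕ → List ℕ → List ℕ
  | x2 :: m2, x3 :: m3, x4 :: m4 => (2 * H - x4) :: x3 :: H :: x2 :: wd H m2 m3 m4
  | _, _, _ => []

/-- the matrix of size `4 m`, upper triangle -/
def wm (H : ℕ) : List (List ℕ) → List (List ℕ) → List (List ℕ) → List (List ℕ) → List (List ℕ)
  | (x1 :: m1) :: M1, (x2 :: m2) :: M2, (x3 :: m3) :: M3, (x4 :: m4) :: M4 =>
    (x1 :: H :: x3 :: (2 * H - x4) :: wa H m1 m3 m4) :: (x1 :: x4 :: x3 :: wb H m1 m3 m4) ::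
      (x2 :: H :: wc H m2 m3 m4) :: (x2 :: wd H m2 m3 m4) :: wm H M1 M2 M3 M4
  | _, _, _, _ => []

/-- the digits are at most `2 H` -/
def leB (c : ℕ) (M : List (List ℕ)) : Bool := M.all fun r => r.all fun x => Nat.ble x c

/-- the columns `T`, packed (highest first), and `tau s_L + lam s_T` -/
def tpk (P lam kap o B : ℕ) (A s : ℕ) : ℕ := A + P * o - (lam * B + kap * s * o)

/-- the test of the products: from the columns of `L` (digit lists) and the packed columns of `K` to the matrix -/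
def stB (Z R lam kap tau : ℕ) (Lc : List (List ℕ)) (Kp : List ℕ) (F : List (List ℕ)) (k : List (List ℕ) → Bool) :
    Bool :=
  (fun (pL rT us : List ℕ) => mmc Z (Z ^ (R - 1)) (2 * R * lam * tau) pL rT us F &&
      k (mmat Z (Z ^ (R - 1)) (2 * R * lam * tau) pL rT us F))
    (Lc.map (pk Z))
    (Lc.map fun a => tpk (R * lam * kap + tau) lam kap (on Z R) (sm Kp) (dt a Kp) (sm a))
    (Lc.map fun a => tau * sm a + lam * (tpk (R * lam * kap + tau) lam kap (on Z R) (sm Kp) (dt a Kp) (sm a) % (Z - 1)))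

/-- all lists have length `R` and entries below `b` -/
def okc (R b : ℕ) (L : List (List ℕ)) : Bool := L.all fun l => Nat.beq l.length R && l.all fun x => Nat.ble (x + 1) b

/-- rows of a matrix from literals with tags -/
def rowst (B : ℕ) (F : List ℕ) : List (List ℕ) := rowsd B (F.map utg)

/-- columns of digits from literals with tags -/
def colst (b R : ℕ) (L : List ℕ) : List (List ℕ) := L.map fun c => digs b R (utg c)

/-- the conditions on the parameters -/
def par (m R bL lam bK kap tau Z : ℕ) (F1 F2 F3 F4 Lc : List (List ℕ)) (K1 K2 K3 K4 : List ℕ) : Bool :=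
  Nat.ble 1 R && (Nat.ble 1 bL && (Nat.ble lam bL && (Nat.ble (kap + 1) bK && (Nat.ble (R * bL * bK) tau &&
  (Nat.ble bL (2 * tau + 1) && (Nat.ble (R * (2 * tau) ^ 2 + 1) Z && (Nat.ble (R * (2 * tau) + 3) Z &&
  (triB m F1 && (triB m F2 && (triB m F3 && (triB m F4 && (Nat.beq Lc.length m && (okc R bL Lc &&
  (Nat.beq K1.length R && (Nat.beq K2.length R && (Nat.beq K3.length R && Nat.beq K4.length R))))))))))))))))

/-- **the test** -/
def chk (m R bL lam bK kap tau Z H : ℕ) (b h Y ε : ℕ) (F1 F2 F3 F4 Lc : List (List ℕ))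
    (K1 K2 K3 K4 Gs : List ℕ) : Bool :=
  par m R bL lam bK kap tau Z F1 F2 F3 F4 Lc K1 K2 K3 K4 &&
  (kchs bK kap 0 (K1.map utg) (K2.map utg) (K3.map utg) (K4.map utg) &&
  (stB Z R lam kap tau Lc (kpk bK kap Z R 0 (K1.map utg)) F1 fun M1 =>
    stB Z R lam kap tau Lc (kpk bK kap Z R 0 (K2.map utg)) F2 fun M2 =>
    stB Z R lam kap tau Lc (kpk bK kap Z R 0 (K3.map utg)) F3 fun M3 =>
    stB Z R lam kap tau Lc (kpk bK kap Z R 0 (K4.map utg)) F4 fun M4 =>
      leB (2 * H) M4 && testL b h Y (4 * m) H ε (4 * m) (Gs.map utg) (wm H M1 M2 M3 M4)))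

/-! ### soundness of the test of positivity -/

section SoundL

variable {b h X K H ε : ℕ}

theorem entsL_sound (hb : 0 < b) (hX : K * (b - 1) ^ 2 < X) (hX1 : 1 < X) (hK : 0 < K) {a : List ℕ}
    (ha : a.length = K) (ha' : ∀ d ∈ a, d < b) : ∀ (A : List (List ℕ)) (rs : List ℕ) (v : List ℝ),
    (∀ l ∈ A, l.length = K ∧ ∀ d ∈ l, d < b) → rs.length = A.length → v.length = A.length →
    entsL X (X ^ (K - 1)) ε (K * h ^ 2 + H) (h * sm a) (pk X a) (A.map (rv X)) (A.map fun l => h * sm l) rs = true →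
    |dot (fun d : ℕ => (d : ℝ) - H) rs v - spd h K a A v| ≤ ε * ab v
  | [], rs, v, _, hr, hv, _ => by
    have : v = [] := List.length_eq_zero_iff.mp (by simpa using hv)
    have h2 : rs = [] := List.length_eq_zero_iff.mp (by simpa using hr)
    subst this h2
    simp [dot, spd, ab]
  | c :: A, rs, [], _, _, hv, _ => by simp at hv
  | c :: A, [], x :: v, _, hr, _, _ => by simp at hr
  | c :: A, r :: rs, x :: v, hA, hr, hv, ht => by
    simp only [List.map_cons, entsL, Bool.and_eq_true, Nat.ble_eq] at ht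
    obtain ⟨h1, h2, h3⟩ := ht
    obtain ⟨hc, hc'⟩ := hA c (by simp)
    have ih := entsL_sound hb hX hX1 hK ha ha' A rs v (fun l hl => hA l (List.mem_cons_of_mem _ hl))
      (by simpa using hr) (by simpa using hv) h3
    rw [mid_eq hb hX hX1 hK ha hc ha' hc'] at h1 h2
    have e := sp_eq h K a c ha hc
    have h1' : (r : ℝ) + ((h * sm a : ℕ) + (h * sm c : ℕ)) ≤ (dt a c : ℕ) + ((K * h ^ 2 : ℕ) + (H : ℝ)) + ε := by
      exact_mod_cast h1
    have h2' : ((dt a c : ℕ) : ℝ) + ((K * h ^ 2 : ℕ) + (H : ℝ)) ≤ r + ((h * sm a : ℕ) + (h * sm c : ℕ)) + ε := by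
      exact_mod_cast h2
    have h4 : |(r : ℝ) - H - sp h K a c| ≤ ε := by
      rw [e, abs_le]
      constructor <;> linarith
    simp only [dot, spd, ab]
    have e2 : ((r : ℝ) - H) * x + dot (fun d : ℕ => (d : ℝ) - H) rs v
        - (sp h K a c * x + spd h K a A v) = ((r : ℝ) - H - sp h K a c) * x +
          (dot (fun d : ℕ => (d : ℝ) - H) rs v - spd h K a A v) := by ring
    rw [e2]
    refine le_trans (abs_add_le _ _) ?_
    rw [abs_mul]
    have h5 := mul_le_mul_of_nonneg_right h4 (abs_nonneg x)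
    linarith

theorem rwsL_sound {n : ℕ} (hb : 0 < b) (hX : K * (b - 1) ^ 2 < X) (hX1 : 1 < X) (hK : 0 < K) :
    ∀ (A : List (List ℕ)) (M : List (List ℕ)) (v : List ℝ),
    (∀ l ∈ A, l.length = K ∧ ∀ d ∈ l, d < b) → Tri A.length M → v.length = A.length →
    rwsL X (X ^ (K - 1)) ε (n * ε) (K * h ^ 2 + H) (A.map (pk X)) (A.map (rv X)) (A.map fun l => h * sm l) M = true →
    (∑ k ∈ Finset.range K, lf h k A v ^ 2) + n * ε * s2 v - ε * ab v ^ 2 ≤
      qf (fun d : ℕ => (d : ℝ) - H) M v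
  | [], M, v, _, hr, hv, _ => by
    have h1 : v = [] := List.length_eq_zero_iff.mp (by simpa using hv)
    have h2 : M = [] := hr
    subst h1 h2
    simp [lf, s2, ab, qf]
  | _ :: _, _, [], _, _, hv, _ => by simp at hv
  | a :: A, M, x :: v, hA, hM, hv, ht => by
    obtain ⟨r, rs, M', rfl, hr, hM'⟩ := hM
    have hv' : v.length = A.length := by simpa using hv
    simp only [List.map_cons, rwsL, Bool.and_eq_true, Nat.ble_eq] at ht
    obtain ⟨h1, h2, h3⟩ := ht
    obtain ⟨ha, ha'⟩ := hA a (by simp)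
    have hA' : ∀ l ∈ A, l.length = K ∧ ∀ d ∈ l, d < b := fun l hl => hA l (List.mem_cons_of_mem _ hl)
    have ih := rwsL_sound (n := n) hb hX hX1 hK A M' v hA' hM' hv' h3
    have he := entsL_sound hb hX hX1 hK ha ha' A rs v hA' hr hv' h2
    rw [mid_eq hb hX hX1 hK ha ha ha' ha'] at h1
    have e := sp_eq h K a a ha ha
    have h1' : ((dt a a : ℕ) : ℝ) + ((K * h ^ 2 : ℕ) + (H : ℝ)) + n * ε ≤
        r + ((h * sm a : ℕ) + (h * sm a : ℕ)) := by exact_mod_cast h1
    simp only [qf, lf, s2, ab]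
    have e3 : (∑ k ∈ Finset.range K, (en h a k * x + lf h k A v) ^ 2) =
        sp h K a a * x ^ 2 + 2 * x * spd h K a A v + ∑ k ∈ Finset.range K, lf h k A v ^ 2 := by
      rw [spd_eq, sp, Finset.sum_mul, Finset.mul_sum, ← Finset.sum_add_distrib, ← Finset.sum_add_distrib]
      refine Finset.sum_congr rfl fun k _ => ?_
      ring
    rw [e3]
    set D := dot (fun d : ℕ => (d : ℝ) - H) rs v with hD
    have h6 : -(2 * |x| * (ε * ab v)) ≤ 2 * x * (D - spd h K a A v) := by
      have h7 : |2 * x * (D - spd h K a A v)| ≤ 2 * |x| * (ε * ab v) := by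
        rw [abs_mul, abs_mul, abs_two]
        exact mul_le_mul_of_nonneg_left he (by positivity)
      exact (abs_le.1 h7).1
    have h8 : |x| ^ 2 = x ^ 2 := sq_abs x
    have h9 : (sp h K a a + n * ε) * x ^ 2 ≤ ((r : ℝ) - H) * x ^ 2 := by
      refine mul_le_mul_of_nonneg_right ?_ (sq_nonneg x)
      rw [e]
      linarith
    have h10 : (0 : ℝ) ≤ ε := Nat.cast_nonneg _
    nlinarith [mul_nonneg h10 (sq_nonneg x)]

theorem psdL {n : ℕ} {Gs : List ℕ} {M : List (List ℕ)} (ht : testL b h X K H ε n Gs M = true) (hM : Tri n M)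
    (v : List ℝ) (hv : v.length = n) : 0 ≤ qf (fun d : ℕ => (d : ℝ) - H) M v := by
  simp only [testL, Bool.and_eq_true, Nat.ble_eq, Nat.beq_eq] at ht
  obtain ⟨h1, h2, h3, h4, h5, h7⟩ := ht
  set A := Gs.map (digs b K) with hA
  have e1 : (Gs.map fun c => pkc b X K c 1 0) = A.map (pk X) := by
    rw [hA, List.map_map]
    refine List.map_congr_left fun c _ => ?_
    rw [pkc_eq]
    simp
  have e2 : (Gs.map fun c => rvc b X K c 0) = A.map (rv X) := by
    rw [hA, List.map_map]
    refine List.map_congr_left fun c _ => ?_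
    rw [rvc_eq]
    simp
  have e3 : (Gs.map fun c => h * sm (digs b K c)) = A.map fun l => h * sm l := by
    rw [hA, List.map_map]
    rfl
  rw [e1, e2, e3] at h7
  have hl : A.length = n := by rw [hA, List.length_map, h5]
  have hA' : ∀ l ∈ A, l.length = K ∧ ∀ d ∈ l, d < b := by
    intro l hl
    rw [hA, List.mem_map] at hl
    obtain ⟨c, _, rfl⟩ := hl
    exact ⟨digs_len b K c, digs_lt (by omega) K c⟩
  have key := rwsL_sound (n := n) (by omega) (by omega) (by omega) (by omega) A M v hA' (by rw [hl]; exact hM)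
    (by omega) h7
  have hs := ab_sq v
  rw [hv] at hs
  have h10 : (0 : ℝ) ≤ ε := Nat.cast_nonneg _
  have h11 : (0 : ℝ) ≤ ∑ k ∈ Finset.range K, lf h k A v ^ 2 := Finset.sum_nonneg fun k _ => sq_nonneg _
  nlinarith [mul_le_mul_of_nonneg_left hs h10]

end SoundL

/-! ### the weaving -/

/-- the vector `x ⊗ (a, b, c, d)` -/
def yv (a b c d : ℝ) : List ℝ → List ℝ
  | x :: v => x * a :: x * b :: x * c :: x * d :: yv a b c d v
  | [] => []

theorem yv_len (a b c d : ℝ) : ∀ v : List ℝ, (yv a b c d v).length = 4 * v.length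
  | [] => rfl
  | x :: v => by simp only [yv, List.length_cons, yv_len a b c d v]; ring

section Weave

variable {H : ℕ} (a b c d : ℝ)

theorem sub_off {x : ℕ} (hx : x ≤ 2 * H) : (((2 * H - x : ℕ) : ℝ) - H) = -((x : ℝ) - H) := by
  push_cast [hx]
  ring

theorem dot_wa : ∀ (n : ℕ) (m1 m3 m4 : List ℕ) (v : List ℝ), m1.length = n → m3.length = n → m4.length = n →
    v.length = n → (∀ x ∈ m4, x ≤ 2 * H) →
    dot (fun e : ℕ => (e : ℝ) - H) (wa H m1 m3 m4) (yv a b c d v) =
      a * dot (fun e : ℕ => (e : ℝ) - H) m1 v + c * dot (fun e : ℕ => (e : ℝ) - H) m3 v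
        - d * dot (fun e : ℕ => (e : ℝ) - H) m4 v
  | 0, m1, m3, m4, v, h1, h3, h4, hv, _ => by
    obtain rfl := List.length_eq_zero_iff.mp h1
    obtain rfl := List.length_eq_zero_iff.mp h3
    obtain rfl := List.length_eq_zero_iff.mp h4
    obtain rfl := List.length_eq_zero_iff.mp hv
    simp [wa, yv, dot]
  | n + 1, x1 :: m1, x3 :: m3, x4 :: m4, x :: v, h1, h3, h4, hv, h => by
    have ih := dot_wa n m1 m3 m4 v (by simpa using h1) (by simpa using h3) (by simpa using h4) (by simpa using hv)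
      fun y hy => h y (List.mem_cons_of_mem _ hy)
    have hx := sub_off (H := H) (h x4 (by simp))
    simp only [wa, yv, dot, ih, hx]
    ring
  | n + 1, [], _, _, _, h1, _, _, _, _ => by simp at h1
  | n + 1, _ :: _, [], _, _, _, h1, _, _, _ => by simp at h1
  | n + 1, _ :: _, _ :: _, [], _, _, _, h1, _, _ => by simp at h1
  | n + 1, _ :: _, _ :: _, _ :: _, [], _, _, _, h1, _ => by simp at h1

theorem dot_wb : ∀ (n : ℕ) (m1 m3 m4 : List ℕ) (v : List ℝ), m1.length = n → m3.length = n → m4.length = n →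
    v.length = n →
    dot (fun e : ℕ => (e : ℝ) - H) (wb H m1 m3 m4) (yv a b c d v) =
      b * dot (fun e : ℕ => (e : ℝ) - H) m1 v + d * dot (fun e : ℕ => (e : ℝ) - H) m3 v
        + c * dot (fun e : ℕ => (e : ℝ) - H) m4 v
  | 0, m1, m3, m4, v, h1, h3, h4, hv => by
    obtain rfl := List.length_eq_zero_iff.mp h1
    obtain rfl := List.length_eq_zero_iff.mp h3
    obtain rfl := List.length_eq_zero_iff.mp h4
    obtain rfl := List.length_eq_zero_iff.mp hv
    simp [wb, yv, dot]
  | n + 1, x1 :: m1, x3 :: m3, x4 :: m4, x :: v, h1, h3, h4, hv => by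
    have ih := dot_wb n m1 m3 m4 v (by simpa using h1) (by simpa using h3) (by simpa using h4) (by simpa using hv)
    simp only [wb, yv, dot, ih]
    ring
  | n + 1, [], _, _, _, h1, _, _, _ => by simp at h1
  | n + 1, _ :: _, [], _, _, _, h1, _, _ => by simp at h1
  | n + 1, _ :: _, _ :: _, [], _, _, _, h1, _ => by simp at h1
  | n + 1, _ :: _, _ :: _, _ :: _, [], _, _, _, h1 => by simp at h1

theorem dot_wc : ∀ (n : ℕ) (m2 m3 m4 : List ℕ) (v : List ℝ), m2.length = n → m3.length = n → m4.length = n →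
    v.length = n →
    dot (fun e : ℕ => (e : ℝ) - H) (wc H m2 m3 m4) (yv a b c d v) =
      c * dot (fun e : ℕ => (e : ℝ) - H) m2 v + a * dot (fun e : ℕ => (e : ℝ) - H) m3 v
        + b * dot (fun e : ℕ => (e : ℝ) - H) m4 v
  | 0, m1, m3, m4, v, h1, h3, h4, hv => by
    obtain rfl := List.length_eq_zero_iff.mp h1
    obtain rfl := List.length_eq_zero_iff.mp h3
    obtain rfl := List.length_eq_zero_iff.mp h4
    obtain rfl := List.length_eq_zero_iff.mp hv
    simp [wc, yv, dot]
  | n + 1, x1 :: m1, x3 :: m3, x4 :: m4, x :: v, h1, h3, h4, hv => by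
    have ih := dot_wc n m1 m3 m4 v (by simpa using h1) (by simpa using h3) (by simpa using h4) (by simpa using hv)
    simp only [wc, yv, dot, ih]
    ring
  | n + 1, [], _, _, _, h1, _, _, _ => by simp at h1
  | n + 1, _ :: _, [], _, _, _, h1, _, _ => by simp at h1
  | n + 1, _ :: _, _ :: _, [], _, _, _, h1, _ => by simp at h1
  | n + 1, _ :: _, _ :: _, _ :: _, [], _, _, _, h1 => by simp at h1

theorem dot_wd : ∀ (n : ℕ) (m2 m3 m4 : List ℕ) (v : List ℝ), m2.length = n → m3.length = n → m4.length = n →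
    v.length = n → (∀ x ∈ m4, x ≤ 2 * H) →
    dot (fun e : ℕ => (e : ℝ) - H) (wd H m2 m3 m4) (yv a b c d v) =
      d * dot (fun e : ℕ => (e : ℝ) - H) m2 v + b * dot (fun e : ℕ => (e : ℝ) - H) m3 v
        - a * dot (fun e : ℕ => (e : ℝ) - H) m4 v
  | 0, m1, m3, m4, v, h1, h3, h4, hv, _ => by
    obtain rfl := List.length_eq_zero_iff.mp h1
    obtain rfl := List.length_eq_zero_iff.mp h3
    obtain rfl := List.length_eq_zero_iff.mp h4
    obtain rfl := List.length_eq_zero_iff.mp hv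
    simp [wd, yv, dot]
  | n + 1, x1 :: m1, x3 :: m3, x4 :: m4, x :: v, h1, h3, h4, hv, h => by
    have ih := dot_wd n m1 m3 m4 v (by simpa using h1) (by simpa using h3) (by simpa using h4) (by simpa using hv)
      fun y hy => h y (List.mem_cons_of_mem _ hy)
    have hx := sub_off (H := H) (h x4 (by simp))
    simp only [wd, yv, dot, ih, hx]
    ring
  | n + 1, [], _, _, _, h1, _, _, _, _ => by simp at h1
  | n + 1, _ :: _, [], _, _, _, h1, _, _, _ => by simp at h1
  | n + 1, _ :: _, _ :: _, [], _, _, _, h1, _, _ => by simp at h1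
  | n + 1, _ :: _, _ :: _, _ :: _, [], _, _, _, h1, _ => by simp at h1

/-- the value of the Hermitian form with the components `x, y, u, w` at `z = (a + i b, c + i d)` -/
def hv (a b c d x y u w : ℝ) : ℝ := (a ^ 2 + b ^ 2) * x + (c ^ 2 + d ^ 2) * y + 2 * (a * c + b * d) * u
  - 2 * (a * d - b * c) * w

theorem qf_wm : ∀ (n : ℕ) (M1 M2 M3 M4 : List (List ℕ)) (v : List ℝ), Tri n M1 → Tri n M2 → Tri n M3 → Tri n M4 →
    v.length = n → (∀ r ∈ M4, ∀ x ∈ r, x ≤ 2 * H) →
    qf (fun e : ℕ => (e : ℝ) - H) (wm H M1 M2 M3 M4) (yv a b c d v) =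
      hv a b c d (qf (fun e : ℕ => (e : ℝ) - H) M1 v) (qf (fun e : ℕ => (e : ℝ) - H) M2 v)
        (qf (fun e : ℕ => (e : ℝ) - H) M3 v) (qf (fun e : ℕ => (e : ℝ) - H) M4 v)
  | 0, M1, M2, M3, M4, v, h1, h2, h3, h4, hv', _ => by
    obtain rfl : M1 = [] := h1
    obtain rfl : M2 = [] := h2
    obtain rfl : M3 = [] := h3
    obtain rfl : M4 = [] := h4
    obtain rfl := List.length_eq_zero_iff.mp hv'
    simp [wm, yv, qf, hv]
  | n + 1, M1, M2, M3, M4, [], _, _, _, _, hv', _ => by simp at hv'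
  | n + 1, M1, M2, M3, M4, x :: v, h1, h2, h3, h4, hv', h => by
    obtain ⟨x1, m1, M1, rfl, l1, h1⟩ := h1
    obtain ⟨x2, m2, M2, rfl, l2, h2⟩ := h2
    obtain ⟨x3, m3, M3, rfl, l3, h3⟩ := h3
    obtain ⟨x4, m4, M4, rfl, l4, h4⟩ := h4
    have lv : v.length = n := by simpa using hv'
    have ih := qf_wm n M1 M2 M3 M4 v h1 h2 h3 h4 lv fun r hr => h r (List.mem_cons_of_mem _ hr)
    have hm : ∀ y ∈ m4, y ≤ 2 * H := fun y hy => h (x4 :: m4) (by simp) y (List.mem_cons_of_mem _ hy)
    have hx := sub_off (H := H) (h (x4 :: m4) (by simp) x4 (by simp))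
    simp only [wm, yv, qf, dot, dot_wa (H := H) a b c d n m1 m3 m4 v l1 l3 l4 lv hm,
      dot_wb (H := H) a b c d n m1 m3 m4 v l1 l3 l4 lv, dot_wc (H := H) a b c d n m2 m3 m4 v l2 l3 l4 lv,
      dot_wd (H := H) a b c d n m2 m3 m4 v l2 l3 l4 lv hm, ih, hx]
    unfold hv
    ring

end Weave

section WeaveTri

variable {H : ℕ}

theorem wa_len : ∀ (n : ℕ) (m1 m3 m4 : List ℕ), m1.length = n → m3.length = n → m4.length = n →
    (wa H m1 m3 m4).length = 4 * n
  | 0, m1, m3, m4, h1, _, _ => by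
    obtain rfl := List.length_eq_zero_iff.mp h1
    simp [wa]
  | n + 1, x1 :: m1, x3 :: m3, x4 :: m4, h1, h3, h4 => by
    have ih := wa_len n m1 m3 m4 (by simpa using h1) (by simpa using h3) (by simpa using h4)
    simp only [wa, List.length_cons, ih]
    ring
  | n + 1, [], _, _, h1, _, _ => by simp at h1
  | n + 1, _ :: _, [], _, _, h1, _ => by simp at h1
  | n + 1, _ :: _, _ :: _, [], _, _, h1 => by simp at h1

theorem wb_len : ∀ (n : ℕ) (m1 m3 m4 : List ℕ), m1.length = n → m3.length = n → m4.length = n →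
    (wb H m1 m3 m4).length = 4 * n
  | 0, m1, m3, m4, h1, _, _ => by
    obtain rfl := List.length_eq_zero_iff.mp h1
    simp [wb]
  | n + 1, x1 :: m1, x3 :: m3, x4 :: m4, h1, h3, h4 => by
    have ih := wb_len n m1 m3 m4 (by simpa using h1) (by simpa using h3) (by simpa using h4)
    simp only [wb, List.length_cons, ih]
    ring
  | n + 1, [], _, _, h1, _, _ => by simp at h1
  | n + 1, _ :: _, [], _, _, h1, _ => by simp at h1
  | n + 1, _ :: _, _ :: _, [], _, _, h1 => by simp at h1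

theorem wc_len : ∀ (n : ℕ) (m1 m3 m4 : List ℕ), m1.length = n → m3.length = n → m4.length = n →
    (wc H m1 m3 m4).length = 4 * n
  | 0, m1, m3, m4, h1, _, _ => by
    obtain rfl := List.length_eq_zero_iff.mp h1
    simp [wc]
  | n + 1, x1 :: m1, x3 :: m3, x4 :: m4, h1, h3, h4 => by
    have ih := wc_len n m1 m3 m4 (by simpa using h1) (by simpa using h3) (by simpa using h4)
    simp only [wc, List.length_cons, ih]
    ring
  | n + 1, [], _, _, h1, _, _ => by simp at h1
  | n + 1, _ :: _, [], _, _, h1, _ => by simp at h1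
  | n + 1, _ :: _, _ :: _, [], _, _, h1 => by simp at h1

theorem wd_len : ∀ (n : ℕ) (m1 m3 m4 : List ℕ), m1.length = n → m3.length = n → m4.length = n →
    (wd H m1 m3 m4).length = 4 * n
  | 0, m1, m3, m4, h1, _, _ => by
    obtain rfl := List.length_eq_zero_iff.mp h1
    simp [wd]
  | n + 1, x1 :: m1, x3 :: m3, x4 :: m4, h1, h3, h4 => by
    have ih := wd_len n m1 m3 m4 (by simpa using h1) (by simpa using h3) (by simpa using h4)
    simp only [wd, List.length_cons, ih]
    ring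
  | n + 1, [], _, _, h1, _, _ => by simp at h1
  | n + 1, _ :: _, [], _, _, h1, _ => by simp at h1
  | n + 1, _ :: _, _ :: _, [], _, _, h1 => by simp at h1

theorem tri_wm : ∀ (n : ℕ) (M1 M2 M3 M4 : List (List ℕ)), Tri n M1 → Tri n M2 → Tri n M3 → Tri n M4 →
    Tri (4 * n) (wm H M1 M2 M3 M4)
  | 0, M1, M2, M3, M4, h1, h2, h3, h4 => by
    obtain rfl : M1 = [] := h1
    rfl
  | n + 1, M1, M2, M3, M4, h1, h2, h3, h4 => by
    obtain ⟨x1, m1, M1, rfl, l1, h1⟩ := h1
    obtain ⟨x2, m2, M2, rfl, l2, h2⟩ := h2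
    obtain ⟨x3, m3, M3, rfl, l3, h3⟩ := h3
    obtain ⟨x4, m4, M4, rfl, l4, h4⟩ := h4
    have ih := tri_wm n M1 M2 M3 M4 h1 h2 h3 h4
    rw [show 4 * (n + 1) = 4 * n + 1 + 1 + 1 + 1 by ring]
    refine ⟨_, _, _, rfl, ?_, _, _, _, rfl, ?_, _, _, _, rfl, ?_, _, _, _, rfl, ?_, ih⟩
    · simp only [List.length_cons, wa_len (H := H) n m1 m3 m4 l1 l3 l4]
    · simp only [List.length_cons, wb_len (H := H) n m1 m3 m4 l1 l3 l4]
    · simp only [List.length_cons, wc_len (H := H) n m2 m3 m4 l2 l3 l4]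
    · simp only [wd_len (H := H) n m2 m3 m4 l2 l3 l4]

end WeaveTri

/-! ### the multipliers -/

/-- the Hermitian form of a positive semidefinite matrix is nonnegative -/
theorem hv_nonneg (a b c d : ℝ) {x y u w : ℝ} (hx : 0 ≤ x) (hy : 0 ≤ y) (h : u ^ 2 + w ^ 2 ≤ x * y) :
    0 ≤ hv a b c d x y u w := by
  have h1 : hv a b c d x y u w = (a ^ 2 + b ^ 2) * x + (c ^ 2 + d ^ 2) * y
      + 2 * ((a * c + b * d) * u + (b * c - a * d) * w) := by
    unfold hv
    ring
  rw [h1]
  set P := a ^ 2 + b ^ 2 with hP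
  set Q := c ^ 2 + d ^ 2 with hQ
  set S := (a * c + b * d) * u + (b * c - a * d) * w with hS
  have hP0 : 0 ≤ P := by positivity
  have hQ0 : 0 ≤ Q := by positivity
  have h2 : S ^ 2 ≤ (P * Q) * (u ^ 2 + w ^ 2) := by
    have : (P * Q) * (u ^ 2 + w ^ 2) - S ^ 2 = ((a * c + b * d) * w - (b * c - a * d) * u) ^ 2 := by
      rw [hP, hQ, hS]
      ring
    nlinarith [sq_nonneg ((a * c + b * d) * w - (b * c - a * d) * u)]
  have h3 : S ^ 2 ≤ (P * x) * (Q * y) := by
    calc S ^ 2 ≤ (P * Q) * (u ^ 2 + w ^ 2) := h2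
      _ ≤ (P * Q) * (x * y) := mul_le_mul_of_nonneg_left h (mul_nonneg hP0 hQ0)
      _ = (P * x) * (Q * y) := by ring
  have h4 : (2 * S) ^ 2 ≤ (P * x + Q * y) ^ 2 := by nlinarith [sq_nonneg (P * x - Q * y)]
  have h5 := abs_le_abs_of_sq_le_sq h4
  have h6 : 0 ≤ P * x + Q * y := add_nonneg (mul_nonneg hP0 hx) (mul_nonneg hQ0 hy)
  rw [abs_of_nonneg h6] at h5
  have := neg_abs_le (2 * S)
  linarith
where
  abs_le_abs_of_sq_le_sq {p q : ℝ} (h : p ^ 2 ≤ q ^ 2) : |p| ≤ |q| := sq_le_sq.1 h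

theorem natdist (x k : ℕ) : (((x - k) + (k - x) : ℕ) : ℝ) ^ 2 = ((x : ℝ) - k) ^ 2 := by
  rcases le_total k x with h | h
  · rw [Nat.sub_eq_zero_of_le h, Nat.add_zero, Nat.cast_sub h]
  · rw [Nat.sub_eq_zero_of_le h, Nat.zero_add, Nat.cast_sub h]
    ring

/-- positivity of the entries of one column -/
theorem kch_sound {bb kap : ℕ} (a b c d : ℝ) : ∀ (n : ℕ) (c1 c2 c3 c4 : ℕ), kch bb kap n c1 c2 c3 c4 = true →
    ∀ k < n, 0 ≤ hv a b c d (en kap (digs bb n c1) k) (en kap (digs bb n c2) k) (en kap (digs bb n c3) k)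
      (en kap (digs bb n c4) k)
  | 0, _, _, _, _, _, k, hk => by omega
  | n + 1, c1, c2, c3, c4, h, k, hk => by
    simp only [kch, Bool.and_eq_true, Nat.ble_eq] at h
    obtain ⟨h1, h2, h3, h4⟩ := h
    cases k with
    | zero =>
      simp only [digs, en, List.getD_cons_zero]
      refine hv_nonneg a b c d ?_ ?_ ?_
      · have : ((kap : ℕ) : ℝ) ≤ ((c1 % bb : ℕ) : ℝ) := by exact_mod_cast h1
        linarith
      · have : ((kap : ℕ) : ℝ) ≤ ((c2 % bb : ℕ) : ℝ) := by exact_mod_cast h2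
        linarith
      · have h5 : ((((c3 % bb - kap) + (kap - c3 % bb) : ℕ) : ℝ)) ^ 2 + (((c4 % bb - kap) + (kap - c4 % bb) : ℕ) : ℝ) ^ 2 ≤
            ((c1 % bb - kap : ℕ) : ℝ) * ((c2 % bb - kap : ℕ) : ℝ) := by
          have : (((c3 % bb - kap) + (kap - c3 % bb)) ^ 2 + ((c4 % bb - kap) + (kap - c4 % bb)) ^ 2 : ℕ) ≤
              (c1 % bb - kap) * (c2 % bb - kap) := by
            calc _ = ((c3 % bb - kap) + (kap - c3 % bb)) * ((c3 % bb - kap) + (kap - c3 % bb))
                + ((c4 % bb - kap) + (kap - c4 % bb)) * ((c4 % bb - kap) + (kap - c4 % bb)) := by ring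
              _ ≤ _ := h3
          exact_mod_cast this
        rw [natdist, natdist, Nat.cast_sub h1, Nat.cast_sub h2] at h5
        exact h5
    | succ k =>
      have ih := kch_sound a b c d n _ _ _ _ h4 k (by omega)
      simp only [digs, en, List.getD_cons_succ]
      exact ih

theorem en_append_lt {kap : ℕ} {l m : List ℕ} {k : ℕ} (h : k < l.length) : en kap (l ++ m) k = en kap l k := by
  unfold en
  rw [List.getD_append _ _ _ _ h]

theorem en_append_ge {kap : ℕ} {l : List ℕ} {n k : ℕ} (h : l.length ≤ k) (h2 : k < l.length + n) :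
    en kap (l ++ List.replicate n kap) k = 0 := by
  unfold en
  rw [List.getD_append_right _ _ _ _ h]
  have : k - l.length < n := by omega
  rw [List.getD_eq_getElem _ _ (by simpa using this)]
  simp

/-- the entry `(k, l)` of the multiplier matrix -/
def ke (bb kap R : ℕ) (K : List ℕ) (k l : ℕ) : ℝ := en kap ((kcols bb kap R 0 K).getD l []) k

theorem kcols_len {bb kap R : ℕ} : ∀ (K : List ℕ) (l : ℕ), (kcols bb kap R l K).length = K.length
  | [], _ => rfl
  | c :: K, l => by simp [kcols, kcols_len K (l + 1)]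

theorem kcols_get {bb kap R : ℕ} : ∀ (K : List ℕ) (l0 l : ℕ), l < K.length →
    (kcols bb kap R l0 K).getD l [] = digs bb (l0 + l) (K.getD l 0) ++ List.replicate (R - (l0 + l)) kap
  | [], _, l, h => by simp at h
  | c :: K, l0, 0, h => by simp [kcols]
  | c :: K, l0, l + 1, h => by
    have ih := kcols_get (bb := bb) (kap := kap) (R := R) K (l0 + 1) l (by simpa using h)
    simp only [kcols, List.getD_cons_succ, ih]
    rw [show l0 + 1 + l = l0 + (l + 1) by ring]

theorem kchs_get {bb kap : ℕ} : ∀ (K1 K2 K3 K4 : List ℕ) (l0 l : ℕ), kchs bb kap l0 K1 K2 K3 K4 = true →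
    l < K1.length → l < K2.length → l < K3.length → l < K4.length →
    kch bb kap (l0 + l) (K1.getD l 0) (K2.getD l 0) (K3.getD l 0) (K4.getD l 0) = true
  | [], _, _, _, _, l, _, h, _, _, _ => by simp at h
  | _ :: _, [], _, _, _, l, _, _, h, _, _ => by simp at h
  | _ :: _, _ :: _, [], _, _, l, _, _, _, h, _ => by simp at h
  | _ :: _, _ :: _, _ :: _, [], _, l, _, _, _, _, h => by simp at h
  | c1 :: K1, c2 :: K2, c3 :: K3, c4 :: K4, l0, 0, h, _, _, _, _ => by
    simp only [kchs, Bool.and_eq_true] at h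
    simpa using h.1
  | c1 :: K1, c2 :: K2, c3 :: K3, c4 :: K4, l0, l + 1, h, h1, h2, h3, h4 => by
    simp only [kchs, Bool.and_eq_true] at h
    have ih := kchs_get K1 K2 K3 K4 (l0 + 1) l h.2 (by simpa using h1) (by simpa using h2) (by simpa using h3)
      (by simpa using h4)
    simp only [List.getD_cons_succ]
    rw [show l0 + (l + 1) = l0 + 1 + l by ring]
    exact ih

/-- the entries of the multiplier matrices are positive semidefinite -/
theorem ke_nonneg {bb kap R : ℕ} (a b c d : ℝ) {K1 K2 K3 K4 : List ℕ} (h : kchs bb kap 0 K1 K2 K3 K4 = true)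
    (h1 : K1.length = R) (h2 : K2.length = R) (h3 : K3.length = R) (h4 : K4.length = R) {k l : ℕ} (hk : k < R)
    (hl : l < R) : 0 ≤ hv a b c d (ke bb kap R K1 k l) (ke bb kap R K2 k l) (ke bb kap R K3 k l)
      (ke bb kap R K4 k l) := by
  unfold ke
  rw [kcols_get K1 0 l (by omega), kcols_get K2 0 l (by omega), kcols_get K3 0 l (by omega),
    kcols_get K4 0 l (by omega)]
  simp only [Nat.zero_add]
  rcases Nat.lt_or_ge k l with hkl | hkl
  · rw [en_append_lt (by rw [digs_len]; exact hkl), en_append_lt (by rw [digs_len]; exact hkl),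
      en_append_lt (by rw [digs_len]; exact hkl), en_append_lt (by rw [digs_len]; exact hkl)]
    have := kchs_get K1 K2 K3 K4 0 l h (by omega) (by omega) (by omega) (by omega)
    rw [Nat.zero_add] at this
    exact kch_sound a b c d l _ _ _ _ this k hkl
  · rw [en_append_ge (by rw [digs_len]; exact hkl) (by rw [digs_len]; omega),
      en_append_ge (by rw [digs_len]; exact hkl) (by rw [digs_len]; omega),
      en_append_ge (by rw [digs_len]; exact hkl) (by rw [digs_len]; omega),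
      en_append_ge (by rw [digs_len]; exact hkl) (by rw [digs_len]; omega)]
    simp [hv]

/-! ### the columns `T = K L` -/

theorem rv_on (Z : ℕ) : ∀ n : ℕ, rv Z (List.replicate n 1) = on Z n
  | 0 => rfl
  | n + 1 => by
    have ih := rv_on Z n
    have e : ∀ n : ℕ, on Z (n + 1) = Z ^ n + on Z n := by
      intro n
      induction n with
      | zero => simp [on]
      | succ n ih =>
        calc on Z (n + 1 + 1) = 1 + Z * on Z (n + 1) := rfl
          _ = 1 + Z * (Z ^ n + on Z n) := by rw [ih]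
          _ = Z ^ (n + 1) + (1 + Z * on Z n) := by ring
          _ = Z ^ (n + 1) + on Z (n + 1) := rfl
    rw [List.replicate_succ, rv, ih, e]
    simp

theorem rv_rep (Z k : ℕ) : ∀ n : ℕ, rv Z (List.replicate n k) = k * on Z n := by
  intro n
  rw [← rv_on]
  induction n with
  | zero => simp [rv]
  | succ n ih =>
    rw [List.replicate_succ, List.replicate_succ, rv, rv, ih]
    simp only [List.length_replicate]
    ring

theorem rv_append (Z : ℕ) (m : List ℕ) : ∀ l : List ℕ, rv Z (l ++ m) = rv Z l * Z ^ m.length + rv Z m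
  | [] => by simp [rv]
  | a :: l => by
    rw [List.cons_append, rv, rv, rv_append Z m l, List.length_append, pow_add]
    ring

theorem kpk_eq {bb kap Z R : ℕ} : ∀ (K : List ℕ) (l : ℕ), kpk bb kap Z R l K = (kcols bb kap R l K).map (rv Z)
  | [], _ => rfl
  | c :: K, l => by
    simp only [kpk, kcols, List.map_cons, kpk_eq K (l + 1)]
    rw [rv_append, rvc_eq, rv_rep]
    simp

theorem kcols_lenR {bb kap R : ℕ} : ∀ (K : List ℕ) (l : ℕ), l + K.length ≤ R + 1 → K.length ≤ R →
    ∀ c ∈ kcols bb kap R l K, l + K.length ≤ R → c.length = R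
  | [], _, _, _, c, h, _ => by simp [kcols] at h
  | c0 :: K, l, _, _, c, h, hl => by
    simp only [kcols, List.mem_cons, List.length_cons] at h hl
    rcases h with rfl | h
    · rw [List.length_append, digs_len, List.length_replicate]
      omega
    · exact kcols_lenR K (l + 1) (by omega) (by omega) c h (by omega)

theorem kcols_lt {bb kap R : ℕ} (hb : kap < bb) : ∀ (K : List ℕ) (l : ℕ), ∀ c ∈ kcols bb kap R l K, ∀ x ∈ c, x < bb
  | [], _, c, h, _, _ => by simp [kcols] at h
  | c0 :: K, l, c, h, x, hx => by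
    simp only [kcols, List.mem_cons] at h
    rcases h with rfl | h
    · rw [List.mem_append] at hx
      rcases hx with hx | hx
      · exact digs_lt (by omega) _ _ x hx
      · rw [List.eq_of_mem_replicate hx]
        exact hb
    · exact kcols_lt hb K (l + 1) c h x hx

/-- `∑ w_l c_l` at one place -/
def aw (k : ℕ) : List ℕ → List (List ℕ) → ℕ
  | w :: ws, c :: cs => w * c.getD k 0 + aw k ws cs
  | _, _ => 0

/-- `∑ c_l` at one place -/
def bw (k : ℕ) : List (List ℕ) → ℕ
  | c :: cs => c.getD k 0 + bw k cs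
  | [] => 0

theorem getD_zip (f : ℕ → ℕ → ℕ) : ∀ (c d : List ℕ) (k : ℕ), k < c.length → k < d.length →
    (List.zipWith f c d).getD k 0 = f (c.getD k 0) (d.getD k 0)
  | [], _, k, h, _ => by simp at h
  | _ :: _, [], k, _, h => by simp at h
  | x :: c, y :: d, 0, _, _ => by simp
  | x :: c, y :: d, k + 1, h1, h2 => by
    simpa using getD_zip f c d k (by simpa using h1) (by simpa using h2)

theorem wsum_len {R : ℕ} : ∀ (ws : List ℕ) (cs : List (List ℕ)), (∀ c ∈ cs, c.length = R) →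
    (wsum R ws cs).length = R
  | [], cs, _ => by simp [wsum]
  | _ :: _, [], _ => by simp [wsum]
  | w :: ws, c :: cs, h => by
    simp only [wsum, List.length_zipWith, wsum_len ws cs fun d hd => h d (List.mem_cons_of_mem _ hd)]
    rw [h c (by simp), Nat.min_self]

theorem vsum_len {R : ℕ} : ∀ (cs : List (List ℕ)), (∀ c ∈ cs, c.length = R) → (vsum R cs).length = R
  | [], _ => by simp [vsum]
  | c :: cs, h => by
    simp only [vsum, List.length_zipWith, vsum_len cs fun d hd => h d (List.mem_cons_of_mem _ hd)]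
    rw [h c (by simp), Nat.min_self]

theorem wsum_get {R k : ℕ} (hk : k < R) : ∀ (ws : List ℕ) (cs : List (List ℕ)), (∀ c ∈ cs, c.length = R) →
    (wsum R ws cs).getD k 0 = aw k ws cs
  | [], cs, _ => by simp [wsum, aw, hk]
  | _ :: _, [], _ => by simp [wsum, aw, hk]
  | w :: ws, c :: cs, h => by
    have h' : ∀ d ∈ cs, d.length = R := fun d hd => h d (List.mem_cons_of_mem _ hd)
    rw [wsum, getD_zip _ _ _ _ (by rw [h c (by simp)]; exact hk) (by rw [wsum_len ws cs h']; exact hk),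
      wsum_get hk ws cs h', aw]

theorem vsum_get {R k : ℕ} (hk : k < R) : ∀ (cs : List (List ℕ)), (∀ c ∈ cs, c.length = R) →
    (vsum R cs).getD k 0 = bw k cs
  | [], _ => by simp [vsum, bw, hk]
  | c :: cs, h => by
    have h' : ∀ d ∈ cs, d.length = R := fun d hd => h d (List.mem_cons_of_mem _ hd)
    rw [vsum, getD_zip _ _ _ _ (by rw [h c (by simp)]; exact hk) (by rw [vsum_len cs h']; exact hk),
      vsum_get hk cs h', bw]

theorem rv_zip (Z w : ℕ) : ∀ (n : ℕ) (c d : List ℕ), c.length = n → d.length = n →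
    rv Z (List.zipWith (fun x y => w * x + y) c d) = w * rv Z c + rv Z d
  | 0, c, d, hc, hd => by
    obtain rfl := List.length_eq_zero_iff.mp hc
    obtain rfl := List.length_eq_zero_iff.mp hd
    simp [rv]
  | n + 1, x :: c, y :: d, hc, hd => by
    have hc' : c.length = n := by simpa using hc
    have hd' : d.length = n := by simpa using hd
    have ih := rv_zip Z w n c d hc' hd'
    simp only [List.zipWith_cons_cons, rv, ih, List.length_zipWith, hc', hd', Nat.min_self]
    ring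
  | n + 1, [], _, hc, _ => by simp at hc
  | n + 1, _ :: _, [], _, hd => by simp at hd

theorem rv_wsum {R : ℕ} (Z : ℕ) : ∀ (ws : List ℕ) (cs : List (List ℕ)), (∀ c ∈ cs, c.length = R) →
    rv Z (wsum R ws cs) = dt ws (cs.map (rv Z))
  | [], cs, _ => by
    rw [wsum, rv_rep]
    · simp [dt]
    · intro _ _ _ _ h; cases h
  | _ :: _, [], _ => by
    rw [wsum, rv_rep]
    · simp [dt]
    · intro _ _ _ _ _ h; cases h
  | w :: ws, c :: cs, h => by
    have h' : ∀ d ∈ cs, d.length = R := fun d hd => h d (List.mem_cons_of_mem _ hd)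
    rw [wsum, rv_zip Z w R _ _ (h c (by simp)) (wsum_len ws cs h'), rv_wsum Z ws cs h']
    simp [dt]

theorem rv_vsum {R : ℕ} (Z : ℕ) : ∀ (cs : List (List ℕ)), (∀ c ∈ cs, c.length = R) →
    rv Z (vsum R cs) = sm (cs.map (rv Z))
  | [], _ => by
    rw [vsum, rv_rep]
    simp [sm]
  | c :: cs, h => by
    have h' : ∀ d ∈ cs, d.length = R := fun d hd => h d (List.mem_cons_of_mem _ hd)
    have e : List.zipWith (fun x y => x + y) c (vsum R cs) = List.zipWith (fun x y => 1 * x + y) c (vsum R cs) := by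
      simp
    rw [vsum, e, rv_zip Z 1 R _ _ (h c (by simp)) (vsum_len cs h'), rv_vsum Z cs h']
    simp [sm]

theorem tl_len (P Q lam : ℕ) : ∀ (n : ℕ) (A B : List ℕ), A.length = n → B.length = n → (tl P Q lam A B).length = n
  | 0, A, B, hA, _ => by
    obtain rfl := List.length_eq_zero_iff.mp hA
    simp [tl]
  | n + 1, a :: A, b :: B, hA, hB => by
    simp only [tl, List.length_cons, tl_len P Q lam n A B (by simpa using hA) (by simpa using hB)]
  | n + 1, [], _, hA, _ => by simp at hA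
  | n + 1, _ :: _, [], _, hB => by simp at hB

theorem tl_get (P Q lam : ℕ) : ∀ (n : ℕ) (A B : List ℕ), A.length = n → B.length = n → ∀ k < n,
    (tl P Q lam A B).getD k 0 = A.getD k 0 + P - (lam * B.getD k 0 + Q)
  | 0, _, _, _, _, k, hk => by omega
  | n + 1, a :: A, b :: B, hA, hB, k, hk => by
    cases k with
    | zero => simp [tl]
    | succ k =>
      simpa [tl] using tl_get P Q lam n A B (by simpa using hA) (by simpa using hB) k (by omega)
  | n + 1, [], _, hA, _, _, _ => by simp at hA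
  | n + 1, _ :: _, [], _, hB, _, _ => by simp at hB

theorem rv_tl (Z P Q lam : ℕ) : ∀ (n : ℕ) (A B : List ℕ), A.length = n → B.length = n →
    (∀ k < n, lam * B.getD k 0 + Q ≤ A.getD k 0 + P) →
    rv Z (tl P Q lam A B) + (lam * rv Z B + Q * on Z n) = rv Z A + P * on Z n
  | 0, A, B, hA, hB, _ => by
    obtain rfl := List.length_eq_zero_iff.mp hA
    obtain rfl := List.length_eq_zero_iff.mp hB
    simp [tl, rv, on]
  | n + 1, a :: A, b :: B, hA, hB, h => by
    have hA' : A.length = n := by simpa using hA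
    have hB' : B.length = n := by simpa using hB
    have ih := rv_tl Z P Q lam n A B hA' hB' fun k hk => by simpa using h (k + 1) (by omega)
    have h0 : lam * b + Q ≤ a + P := by simpa using h 0 (by omega)
    have e : on Z (n + 1) = Z ^ n + on Z n := by
      rw [← rv_on, ← rv_on, List.replicate_succ, rv]
      simp
    simp only [tl, rv, tl_len P Q lam n A B hA' hB', hA', hB', e]
    have h1 : (a + P - (lam * b + Q)) * Z ^ n + (lam * b + Q) * Z ^ n = (a + P) * Z ^ n := by
      rw [← Nat.add_mul, Nat.sub_add_cancel h0]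
    calc (a + P - (lam * b + Q)) * Z ^ n + rv Z (tl P Q lam A B) +
          (lam * (b * Z ^ n + rv Z B) + Q * (Z ^ n + on Z n))
        = ((a + P - (lam * b + Q)) * Z ^ n + (lam * b + Q) * Z ^ n)
          + (rv Z (tl P Q lam A B) + (lam * rv Z B + Q * on Z n)) := by ring
      _ = (a + P) * Z ^ n + (rv Z A + P * on Z n) := by rw [h1, ih]
      _ = _ := by ring
  | n + 1, [], _, hA, _, _ => by simp at hA
  | n + 1, _ :: _, [], _, hB, _ => by simp at hB

theorem sm_lt {b : ℕ} : ∀ (l : List ℕ), (∀ a ∈ l, a < b) → sm l ≤ l.length * (b - 1)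
  | [], _ => by simp [sm]
  | a :: l, h => by
    have ih := sm_lt l fun c hc => h c (List.mem_cons_of_mem _ hc)
    have ha : a < b := h a (by simp)
    have h1 : a ≤ b - 1 := by omega
    simp only [sm, List.length_cons, Nat.add_mul, Nat.one_mul]
    omega

theorem rv_mod {Z : ℕ} (hZ : 2 < Z) : ∀ l : List ℕ, rv Z l % (Z - 1) = sm l % (Z - 1)
  | [] => by simp [rv, sm]
  | a :: l => by
    have ih := rv_mod hZ l
    have h1 : Z ^ l.length % (Z - 1) = 1 % (Z - 1) := by
      have h2 : Z % (Z - 1) = 1 % (Z - 1) := by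
        conv_lhs => rw [show Z = 1 + (Z - 1) by omega]
        rw [show 1 + (Z - 1) - 1 = Z - 1 by omega, Nat.add_mod_right]
      rw [Nat.pow_mod, h2, ← Nat.pow_mod, one_pow]
    rw [rv, sm, Nat.add_mod, Nat.mul_mod, h1, ih]
    rw [← Nat.mul_mod, ← Nat.add_mod, Nat.mul_one]

theorem getD_mem_lt {b : ℕ} : ∀ (l : List ℕ) (k : ℕ), (∀ x ∈ l, x < b) → 0 < b → l.getD k 0 < b
  | [], k, _, hb => by simpa using hb
  | a :: l, 0, h, _ => by simpa using h a (by simp)
  | a :: l, k + 1, h, hb => by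
    simpa using getD_mem_lt l k (fun x hx => h x (List.mem_cons_of_mem _ hx)) hb

theorem en_abs {b o : ℕ} {l : List ℕ} (k : ℕ) (h : ∀ x ∈ l, x < b) (ho : o ≤ b) (hb : 0 < b) : |en o l k| ≤ b := by
  have h1 := getD_mem_lt l k h hb
  have h1' : ((l.getD k 0 : ℕ) : ℝ) ≤ b := by exact_mod_cast h1.le
  have h2 : (0 : ℝ) ≤ ((l.getD k 0 : ℕ) : ℝ) := Nat.cast_nonneg _
  have h3 : (o : ℝ) ≤ b := by exact_mod_cast ho
  have h4 : (0 : ℝ) ≤ o := Nat.cast_nonneg _
  unfold en
  rw [abs_le]
  constructor <;> linarith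

theorem aw_sum (lam kap k : ℕ) : ∀ (n : ℕ) (ws : List ℕ) (cs : List (List ℕ)), ws.length = n → cs.length = n →
    ((aw k ws cs : ℕ) : ℝ) - lam * (bw k cs : ℕ) - kap * (sm ws : ℕ) + n * lam * kap =
      ∑ l ∈ Finset.range n, en lam ws l * en kap (cs.getD l []) k
  | 0, ws, cs, hw, hc => by
    obtain rfl := List.length_eq_zero_iff.mp hw
    obtain rfl := List.length_eq_zero_iff.mp hc
    simp [aw, bw, sm]
  | n + 1, w :: ws, c :: cs, hw, hc => by
    have ih := aw_sum lam kap k n ws cs (by simpa using hw) (by simpa using hc)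
    rw [Finset.sum_range_succ']
    have e : ∑ l ∈ Finset.range n, en lam (w :: ws) (l + 1) * en kap ((c :: cs).getD (l + 1) []) k =
        ∑ l ∈ Finset.range n, en lam ws l * en kap (cs.getD l []) k := by
      refine Finset.sum_congr rfl fun l _ => ?_
      simp [en]
    rw [e, ← ih]
    simp only [aw, bw, sm, en, List.getD_cons_zero]
    push_cast
    ring
  | n + 1, [], _, hw, _ => by simp at hw
  | n + 1, _ :: _, [], _, hc => by simp at hc

section Tcol

variable {R bL bK lam kap tau Z : ℕ}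

/-- the column `T` for the column `a` of `L` -/
def tcol (R lam kap tau : ℕ) (Kc : List (List ℕ)) (a : List ℕ) : List ℕ :=
  tl (R * lam * kap + tau) (kap * sm a) lam (wsum R a Kc) (vsum R Kc)

theorem t_fact (hbL : 0 < bL) (hbK : 0 < bK) {ws : List ℕ} {cs : List (List ℕ)} (hws : ws.length = R)
    (hcs : cs.length = R) (hc : ∀ c ∈ cs, ∀ x ∈ c, x < bK) (hw : ∀ x ∈ ws, x < bL)
    (hlam : lam ≤ bL) (hkap : kap ≤ bK) (htau : R * bL * bK ≤ tau) (k : ℕ) :
    lam * bw k cs + kap * sm ws ≤ aw k ws cs + (R * lam * kap + tau) ∧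
      ((aw k ws cs + (R * lam * kap + tau) - (lam * bw k cs + kap * sm ws) : ℕ) : ℝ) - tau =
        ∑ l ∈ Finset.range R, en lam ws l * en kap (cs.getD l []) k ∧
      aw k ws cs + (R * lam * kap + tau) - (lam * bw k cs + kap * sm ws) ≤ 2 * tau := by
  have e := aw_sum lam kap k R ws cs hws hcs
  set S := ∑ l ∈ Finset.range R, en lam ws l * en kap (cs.getD l []) k with hS
  have hb : |S| ≤ tau := by
    calc |S| ≤ ∑ l ∈ Finset.range R, |en lam ws l * en kap (cs.getD l []) k| := Finset.abs_sum_le_sum_abs _ _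
      _ ≤ ∑ _l ∈ Finset.range R, (bL : ℝ) * bK := by
        refine Finset.sum_le_sum fun l hl => ?_
        rw [abs_mul]
        refine mul_le_mul (en_abs l hw hlam hbL) ?_ (abs_nonneg _) (Nat.cast_nonneg _)
        refine en_abs k ?_ hkap hbK
        have hl' : l < cs.length := by rw [hcs]; exact Finset.mem_range.1 hl
        rw [List.getD_eq_getElem _ _ hl']
        exact hc _ (List.getElem_mem hl')
      _ = R * bL * bK := by
        rw [Finset.sum_const, Finset.card_range, nsmul_eq_mul]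
        ring
      _ ≤ tau := by exact_mod_cast htau
  have hb1 := (abs_le.1 hb).1
  have hb2 := (abs_le.1 hb).2
  have h1 : ((lam * bw k cs + kap * sm ws : ℕ) : ℝ) ≤ ((aw k ws cs + (R * lam * kap + tau) : ℕ) : ℝ) := by
    push_cast
    linarith
  have h1' : lam * bw k cs + kap * sm ws ≤ aw k ws cs + (R * lam * kap + tau) := by exact_mod_cast h1
  have h2 : ((aw k ws cs + (R * lam * kap + tau) - (lam * bw k cs + kap * sm ws) : ℕ) : ℝ) - tau = S := by
    rw [Nat.cast_sub h1']
    push_cast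
    linarith
  refine ⟨h1', h2, ?_⟩
  have h3 : ((aw k ws cs + (R * lam * kap + tau) - (lam * bw k cs + kap * sm ws) : ℕ) : ℝ) ≤ ((2 * tau : ℕ) : ℝ) := by
    rw [Nat.cast_mul, Nat.cast_ofNat]
    linarith
  exact_mod_cast h3

theorem mem_getD {l : List ℕ} {x : ℕ} (h : x ∈ l) : ∃ k < l.length, l.getD k 0 = x := by
  obtain ⟨k, hk, rfl⟩ := List.getElem_of_mem h
  exact ⟨k, hk, List.getD_eq_getElem _ _ hk⟩

variable (hbL : 0 < bL) (hbK : 0 < bK) {Kc : List (List ℕ)} (hKl : Kc.length = R)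
  (hKc : ∀ c ∈ Kc, c.length = R ∧ ∀ x ∈ c, x < bK) (hlam : lam ≤ bL) (hkap : kap ≤ bK) (htau : R * bL * bK ≤ tau)
include hbL hbK hKl hKc hlam hkap htau

theorem tcol_spec {a : List ℕ} (ha : a.length = R) (ha' : ∀ x ∈ a, x < bL) :
    (tcol R lam kap tau Kc a).length = R ∧ (∀ x ∈ tcol R lam kap tau Kc a, x < 2 * tau + 1) ∧
      (∀ k < R, en tau (tcol R lam kap tau Kc a) k = ∑ l ∈ Finset.range R, en lam a l * en kap (Kc.getD l []) k) ∧
      rv Z (tcol R lam kap tau Kc a) = tpk (R * lam * kap + tau) lam kap (on Z R) (sm (Kc.map (rv Z)))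
        (dt a (Kc.map (rv Z))) (sm a) := by
  have hKc1 : ∀ c ∈ Kc, c.length = R := fun c hc => (hKc c hc).1
  have hKc2 : ∀ c ∈ Kc, ∀ x ∈ c, x < bK := fun c hc => (hKc c hc).2
  have lA := wsum_len (R := R) a Kc hKc1
  have lB := vsum_len (R := R) Kc hKc1
  have lT : (tcol R lam kap tau Kc a).length = R := tl_len _ _ _ R _ _ lA lB
  have gT : ∀ k < R, (tcol R lam kap tau Kc a).getD k 0 =
      aw k a Kc + (R * lam * kap + tau) - (lam * bw k Kc + kap * sm a) := by
    intro k hk
    unfold tcol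
    rw [tl_get _ _ _ R _ _ lA lB k hk, wsum_get hk a Kc hKc1, vsum_get hk Kc hKc1]
  have F := fun k => t_fact (R := R) (lam := lam) (kap := kap) (tau := tau) hbL hbK ha hKl hKc2 ha' hlam hkap htau k
  refine ⟨lT, ?_, ?_, ?_⟩
  · intro x hx
    obtain ⟨k, hk, rfl⟩ := mem_getD hx
    rw [lT] at hk
    rw [gT k hk]
    have := (F k).2.2
    omega
  · intro k hk
    unfold en
    rw [gT k hk]
    exact (F k).2.1
  · have h1 := rv_tl Z (R * lam * kap + tau) (kap * sm a) lam R _ _ lA lB fun k hk => by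
      rw [wsum_get hk a Kc hKc1, vsum_get hk Kc hKc1]
      exact (F k).1
    rw [rv_wsum Z a Kc hKc1, rv_vsum Z Kc hKc1] at h1
    unfold tpk tcol
    omega

end Tcol

/-! ### the matrix after the products -/

section Mmat

variable {R Z lam tau H b' : ℕ}

/-- scalar product with two offsets -/
def spl (lam tau R : ℕ) (a t : List ℕ) : ℝ := ∑ k ∈ Finset.range R, en lam a k * en tau t k

theorem spl_eq (a t : List ℕ) (ha : a.length = R) (ht : t.length = R) :
    spl lam tau R a t = (dt a t : ℕ) - (tau * sm a : ℕ) - (lam * sm t : ℕ) + (R * lam * tau : ℕ) := by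
  unfold spl en
  push_cast
  rw [dt_sum R a t ha ht, sm_sum R a ha, sm_sum R t ht, Finset.mul_sum, Finset.mul_sum,
    ← Finset.sum_sub_distrib, ← Finset.sum_sub_distrib]
  have : (R : ℝ) * (lam : ℝ) * tau = ∑ _k ∈ Finset.range R, (lam : ℝ) * tau := by
    rw [Finset.sum_const, Finset.card_range, nsmul_eq_mul]
    ring
  rw [this, ← Finset.sum_add_distrib]
  refine Finset.sum_congr rfl fun k _ => ?_
  ring

/-- the entry -/
theorem ent_eq (hb : 0 < b') (hZ : R * (b' - 1) ^ 2 < Z) (hZ1 : 1 < Z) (hR : 0 < R) {a t a' t' : List ℕ}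
    (ha : a.length = R ∧ ∀ x ∈ a, x < b') (ht : t.length = R ∧ ∀ x ∈ t, x < b')
    (ha' : a'.length = R ∧ ∀ x ∈ a', x < b') (ht' : t'.length = R ∧ ∀ x ∈ t', x < b') {f : ℕ}
    (h : pk Z a * rv Z t' / Z ^ (R - 1) % Z + pk Z a' * rv Z t / Z ^ (R - 1) % Z + 2 * R * lam * tau ≤
      f + ((tau * sm a + lam * sm t) + (tau * sm a' + lam * sm t'))) :
    ((f + ((tau * sm a + lam * sm t) + (tau * sm a' + lam * sm t')) - (pk Z a * rv Z t' / Z ^ (R - 1) % Z +
      pk Z a' * rv Z t / Z ^ (R - 1) % Z + 2 * R * lam * tau) : ℕ) : ℝ) - H =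
      ((f : ℝ) - H) - (spl lam tau R a t' + spl lam tau R a' t) := by
  rw [mid_eq hb hZ hZ1 hR ha.1 ht'.1 ha.2 ht'.2, mid_eq hb hZ hZ1 hR ha'.1 ht.1 ha'.2 ht.2] at h ⊢
  rw [Nat.cast_sub h, spl_eq a t' ha.1 ht'.1, spl_eq a' t ha'.1 ht.1]
  push_cast
  ring

variable (hb : 0 < b') (hZ : R * (b' - 1) ^ 2 < Z) (hZ1 : 1 < Z) (hR : 0 < R) (T : List ℕ → List ℕ)
include hb hZ hZ1 hR

theorem mrow_sound {a t : List ℕ} (ha : a.length = R ∧ ∀ x ∈ a, x < b') (ht : t.length = R ∧ ∀ x ∈ t, x < b') :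
    ∀ (A : List (List ℕ)) (fs : List ℕ) (v : List ℝ),
    (∀ c ∈ A, (c.length = R ∧ ∀ x ∈ c, x < b') ∧ ((T c).length = R ∧ ∀ x ∈ T c, x < b')) → fs.length = A.length →
    v.length = A.length →
    mrc Z (Z ^ (R - 1)) (2 * R * lam * tau) (pk Z a) (rv Z t) (tau * sm a + lam * sm t) (A.map (pk Z))
      (A.map fun c => rv Z (T c)) (A.map fun c => tau * sm c + lam * sm (T c)) fs = true →
    (mrow Z (Z ^ (R - 1)) (2 * R * lam * tau) (pk Z a) (rv Z t) (tau * sm a + lam * sm t) (A.map (pk Z))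
      (A.map fun c => rv Z (T c)) (A.map fun c => tau * sm c + lam * sm (T c)) fs).length = A.length ∧
    dot (fun d : ℕ => (d : ℝ) - H) (mrow Z (Z ^ (R - 1)) (2 * R * lam * tau) (pk Z a) (rv Z t)
      (tau * sm a + lam * sm t) (A.map (pk Z)) (A.map fun c => rv Z (T c))
      (A.map fun c => tau * sm c + lam * sm (T c)) fs) v =
      dot (fun d : ℕ => (d : ℝ) - H) fs v
        - ∑ k ∈ Finset.range R, (en lam a k * lf tau k (A.map T) v + lf lam k A v * en tau t k)
  | [], fs, v, _, hf, hv, _ => by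
    have h1 : v = [] := List.length_eq_zero_iff.mp (by simpa using hv)
    have h2 : fs = [] := List.length_eq_zero_iff.mp (by simpa using hf)
    subst h1 h2
    simp [mrow, dot, lf]
  | _ :: _, [], _, _, hf, _, _ => by simp at hf
  | _ :: _, _ :: _, [], _, _, hv, _ => by simp at hv
  | c :: A, f :: fs, x :: v, hA, hf, hv, h => by
    simp only [List.map_cons, mrc, Bool.and_eq_true, Nat.ble_eq] at h
    obtain ⟨h1, h2⟩ := h
    obtain ⟨hc, hc'⟩ := hA c (by simp)
    obtain ⟨ih1, ih2⟩ := mrow_sound ha ht A fs v (fun d hd => hA d (List.mem_cons_of_mem _ hd))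
      (by simpa using hf) (by simpa using hv) h2
    have e := ent_eq (H := H) (lam := lam) (tau := tau) hb hZ hZ1 hR ha ht hc hc' h1
    refine ⟨by simp only [List.map_cons, mrow, List.length_cons, ih1], ?_⟩
    simp only [List.map_cons, mrow, dot, ih2, e, lf]
    have e3 : ∑ k ∈ Finset.range R, (en lam a k * (en tau (T c) k * x + lf tau k (A.map T) v)
        + (en lam c k * x + lf lam k A v) * en tau t k) =
        (spl lam tau R a (T c) + spl lam tau R c t) * x +
          ∑ k ∈ Finset.range R, (en lam a k * lf tau k (A.map T) v + lf lam k A v * en tau t k) := by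
      unfold spl
      rw [← Finset.sum_add_distrib, Finset.sum_mul, ← Finset.sum_add_distrib]
      refine Finset.sum_congr rfl fun k _ => ?_
      ring
    rw [e3]
    ring

theorem mmat_sound : ∀ (A : List (List ℕ)) (F : List (List ℕ)) (v : List ℝ),
    (∀ c ∈ A, (c.length = R ∧ ∀ x ∈ c, x < b') ∧ ((T c).length = R ∧ ∀ x ∈ T c, x < b')) → Tri A.length F →
    v.length = A.length →
    mmc Z (Z ^ (R - 1)) (2 * R * lam * tau) (A.map (pk Z)) (A.map fun c => rv Z (T c))
      (A.map fun c => tau * sm c + lam * sm (T c)) F = true →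
    Tri A.length (mmat Z (Z ^ (R - 1)) (2 * R * lam * tau) (A.map (pk Z)) (A.map fun c => rv Z (T c))
      (A.map fun c => tau * sm c + lam * sm (T c)) F) ∧
    qf (fun d : ℕ => (d : ℝ) - H) (mmat Z (Z ^ (R - 1)) (2 * R * lam * tau) (A.map (pk Z))
      (A.map fun c => rv Z (T c)) (A.map fun c => tau * sm c + lam * sm (T c)) F) v =
      qf (fun d : ℕ => (d : ℝ) - H) F v - 2 * ∑ k ∈ Finset.range R, lf lam k A v * lf tau k (A.map T) v
  | [], F, v, _, hF, hv, _ => by
    have h1 : v = [] := List.length_eq_zero_iff.mp (by simpa using hv)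
    have h2 : F = [] := hF
    subst h1 h2
    refine ⟨rfl, ?_⟩
    simp [mmat, qf, lf]
  | _ :: _, _, [], _, _, hv, _ => by simp at hv
  | a :: A, F, x :: v, hA, hF, hv, h => by
    obtain ⟨f, fs, F', rfl, hf, hF'⟩ := hF
    simp only [List.map_cons, mmc, Bool.and_eq_true] at h
    obtain ⟨h1, h2⟩ := h
    obtain ⟨ha, ha'⟩ := hA a (by simp)
    have hA' : ∀ c ∈ A, (c.length = R ∧ ∀ x ∈ c, x < b') ∧ ((T c).length = R ∧ ∀ x ∈ T c, x < b') :=
      fun d hd => hA d (List.mem_cons_of_mem _ hd)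
    obtain ⟨ih1, ih2⟩ := mmat_sound A F' v hA' hF' (by simpa using hv) h2
    simp only [mrc, Bool.and_eq_true, Nat.ble_eq] at h1
    obtain ⟨h3, h4⟩ := h1
    have e := ent_eq (H := H) (lam := lam) (tau := tau) hb hZ hZ1 hR ha ha' ha ha' h3
    obtain ⟨j1, j2⟩ := mrow_sound (H := H) (lam := lam) (tau := tau) hb hZ hZ1 hR T ha ha' A fs v hA' hf
      (by simpa using hv) h4
    refine ⟨⟨_, _, _, rfl, j1, ih1⟩, ?_⟩
    simp only [List.map_cons, mmat, mrow, qf, j2, ih2, e, lf]
    have e3 : ∑ k ∈ Finset.range R, (en lam a k * x + lf lam k A v) * (en tau (T a) k * x + lf tau k (A.map T) v) =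
        spl lam tau R a (T a) * x ^ 2 +
          x * ∑ k ∈ Finset.range R, (en lam a k * lf tau k (A.map T) v + lf lam k A v * en tau (T a) k) +
          ∑ k ∈ Finset.range R, lf lam k A v * lf tau k (A.map T) v := by
      unfold spl
      rw [Finset.sum_mul, Finset.mul_sum, ← Finset.sum_add_distrib, ← Finset.sum_add_distrib]
      refine Finset.sum_congr rfl fun k _ => ?_
      ring
    rw [e3]
    ring

end Mmat

/-! ### the theorem -/

section Final

variable {m R bL lam bK kap tau Z H : ℕ}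

theorem okc_sound {b : ℕ} {L : List (List ℕ)} (h : okc R b L = true) : ∀ l ∈ L, l.length = R ∧ ∀ x ∈ l, x < b := by
  intro l hl
  unfold okc at h
  rw [List.all_eq_true] at h
  have := h l hl
  simp only [Bool.and_eq_true, Nat.beq_eq, List.all_eq_true, Nat.ble_eq] at this
  exact ⟨this.1, fun x hx => this.2 x hx⟩

/-- the linear form `T_k` in terms of the forms `l` -/
theorem lf_T {Kc : List (List ℕ)} (T : List ℕ → List ℕ) {k : ℕ}
    (hT : ∀ a : List ℕ, a.length = R → (∀ x ∈ a, x < bL) →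
      en tau (T a) k = ∑ l ∈ Finset.range R, en lam a l * en kap (Kc.getD l []) k) :
    ∀ (A : List (List ℕ)) (v : List ℝ), (∀ c ∈ A, c.length = R ∧ ∀ x ∈ c, x < bL) →
    lf tau k (A.map T) v = ∑ l ∈ Finset.range R, en kap (Kc.getD l []) k * lf lam l A v
  | [], v, _ => by simp [lf]
  | a :: A, [], _ => by simp [lf]
  | a :: A, x :: v, h => by
    have ih := lf_T T hT A v fun c hc => h c (List.mem_cons_of_mem _ hc)
    obtain ⟨h1, h2⟩ := h a (by simp)
    simp only [List.map_cons, lf, ih, hT a h1 h2]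
    rw [Finset.sum_mul, ← Finset.sum_add_distrib]
    refine Finset.sum_congr rfl fun l _ => ?_
    ring

theorem stB_sound (hR : 0 < R) (hbL : 0 < bL) (hlam : lam ≤ bL) (hkap : kap < bK) (htau : R * bL * bK ≤ tau)
    (hb2 : bL ≤ 2 * tau + 1) (hZ : R * (2 * tau) ^ 2 < Z) (hZ2 : R * (2 * tau) + 2 < Z)
    {Lc : List (List ℕ)} (hLm : Lc.length = m) (hL : ∀ l ∈ Lc, l.length = R ∧ ∀ x ∈ l, x < bL) {K : List ℕ}
    (hK : K.length = R) {F : List (List ℕ)} (hF : Tri m F) {k : List (List ℕ) → Bool}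
    (h : stB Z R lam kap tau Lc (kpk bK kap Z R 0 K) F k = true) (D : List ℝ) (hD : D.length = m) :
    ∃ M, Tri m M ∧ k M = true ∧ qf (fun d : ℕ => (d : ℝ) - H) M D = qf (fun d : ℕ => (d : ℝ) - H) F D
      - 2 * ∑ i ∈ Finset.range R, ∑ l ∈ Finset.range R, ke bK kap R K i l * (lf lam i Lc D * lf lam l Lc D) := by
  set Kc := kcols bK kap R 0 K with hKcdef
  have hKl : Kc.length = R := by rw [hKcdef, kcols_len, hK]
  have hKc : ∀ c ∈ Kc, c.length = R ∧ ∀ x ∈ c, x < bK := fun c hc =>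
    ⟨kcols_lenR K 0 (by omega) (by omega) c hc (by omega), kcols_lt hkap K 0 c hc⟩
  have spec := fun (a : List ℕ) (ha : a.length = R) (ha' : ∀ x ∈ a, x < bL) =>
    tcol_spec (Z := Z) hbL (by omega : 0 < bK) hKl hKc hlam hkap.le htau ha ha'
  set T := tcol R lam kap tau Kc with hT
  have hA : ∀ c ∈ Lc, (c.length = R ∧ ∀ x ∈ c, x < 2 * tau + 1) ∧ ((T c).length = R ∧ ∀ x ∈ T c, x < 2 * tau + 1) :=
    fun c hc => by
      obtain ⟨h1, h2⟩ := hL c hc
      obtain ⟨s1, s2, _, _⟩ := spec c h1 h2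
      exact ⟨⟨h1, fun x hx => lt_of_lt_of_le (h2 x hx) hb2⟩, s1, s2⟩
  unfold stB at h
  simp only [Bool.and_eq_true] at h
  rw [kpk_eq] at h
  have e1 : (Lc.map fun a => tpk (R * lam * kap + tau) lam kap (on Z R) (sm (Kc.map (rv Z))) (dt a (Kc.map (rv Z))) (sm a)) =
      Lc.map fun c => rv Z (T c) := by
    refine List.map_congr_left fun c hc => ?_
    obtain ⟨h1, h2⟩ := hL c hc
    exact (spec c h1 h2).2.2.2.symm
  have e2 : (Lc.map fun a => tau * sm a + lam * (tpk (R * lam * kap + tau) lam kap (on Z R) (sm (Kc.map (rv Z)))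
      (dt a (Kc.map (rv Z))) (sm a) % (Z - 1))) = Lc.map fun c => tau * sm c + lam * sm (T c) := by
    refine List.map_congr_left fun c hc => ?_
    obtain ⟨h1, h2⟩ := hL c hc
    obtain ⟨s1, s2, _, s4⟩ := spec c h1 h2
    rw [← s4, rv_mod (by omega)]
    have := sm_lt (T c) s2
    rw [s1, Nat.add_sub_cancel] at this
    rw [Nat.mod_eq_of_lt (by omega)]
  rw [e1, e2] at h
  obtain ⟨hm, hk⟩ := h
  have key := mmat_sound (H := H) (lam := lam) (tau := tau) (b' := 2 * tau + 1) (by omega)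
    (by rw [Nat.add_sub_cancel]; exact hZ) (by omega) hR T Lc F D hA (by rw [hLm]; exact hF) (by rw [hLm, hD]) hm
  refine ⟨_, by rw [← hLm]; exact key.1, hk, ?_⟩
  rw [key.2]
  congr 2
  refine Finset.sum_congr rfl fun i hi => ?_
  have hi' := Finset.mem_range.1 hi
  rw [lf_T (R := R) (bL := bL) (lam := lam) (kap := kap) (tau := tau) (Kc := Kc) (k := i) T
    (fun a ha ha' => (spec a ha ha').2.2.1 i hi') Lc D hL, Finset.mul_sum]
  refine Finset.sum_congr rfl fun l _ => ?_
  unfold ke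
  ring

theorem hv_sub (a b c d x y u w x' y' u' w' : ℝ) :
    hv a b c d (x - 2 * x') (y - 2 * y') (u - 2 * u') (w - 2 * w') = hv a b c d x y u w - 2 * hv a b c d x' y' u' w' := by
  unfold hv
  ring

theorem hv_sum (a b c d : ℝ) (R : ℕ) (x y u w : ℕ → ℕ → ℝ) (e : ℕ → ℝ) :
    hv a b c d (∑ i ∈ Finset.range R, ∑ l ∈ Finset.range R, x i l * (e i * e l))
      (∑ i ∈ Finset.range R, ∑ l ∈ Finset.range R, y i l * (e i * e l))
      (∑ i ∈ Finset.range R, ∑ l ∈ Finset.range R, u i l * (e i * e l))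
      (∑ i ∈ Finset.range R, ∑ l ∈ Finset.range R, w i l * (e i * e l)) =
    ∑ i ∈ Finset.range R, ∑ l ∈ Finset.range R, hv a b c d (x i l) (y i l) (u i l) (w i l) * (e i * e l) := by
  have h1 : hv a b c d (∑ i ∈ Finset.range R, ∑ l ∈ Finset.range R, x i l * (e i * e l))
      (∑ i ∈ Finset.range R, ∑ l ∈ Finset.range R, y i l * (e i * e l))
      (∑ i ∈ Finset.range R, ∑ l ∈ Finset.range R, u i l * (e i * e l))
      (∑ i ∈ Finset.range R, ∑ l ∈ Finset.range R, w i l * (e i * e l)) =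
    (a ^ 2 + b ^ 2) * (∑ i ∈ Finset.range R, ∑ l ∈ Finset.range R, x i l * (e i * e l))
      + (c ^ 2 + d ^ 2) * (∑ i ∈ Finset.range R, ∑ l ∈ Finset.range R, y i l * (e i * e l))
      + 2 * (a * c + b * d) * (∑ i ∈ Finset.range R, ∑ l ∈ Finset.range R, u i l * (e i * e l))
      - 2 * (a * d - b * c) * (∑ i ∈ Finset.range R, ∑ l ∈ Finset.range R, w i l * (e i * e l)) := rfl
  rw [h1]
  simp only [Finset.mul_sum]
  rw [← Finset.sum_add_distrib, ← Finset.sum_add_distrib, ← Finset.sum_sub_distrib]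
  refine Finset.sum_congr rfl fun i _ => ?_
  rw [← Finset.sum_add_distrib, ← Finset.sum_add_distrib, ← Finset.sum_sub_distrib]
  refine Finset.sum_congr rfl fun l _ => ?_
  unfold hv
  ring

/-- **the certificate**: if the linear forms are nonnegative at `D` then the Hermitian form is nonnegative. -/
theorem cert {b h Y ε : ℕ} {F1 F2 F3 F4 Lc : List (List ℕ)} {K1 K2 K3 K4 Gs : List ℕ}
    (ht : chk m R bL lam bK kap tau Z H b h Y ε F1 F2 F3 F4 Lc K1 K2 K3 K4 Gs = true) (D : List ℝ)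
    (hD : D.length = m) (hl : ∀ k < R, 0 ≤ lf lam k Lc D) (z1 z2 z3 z4 : ℝ) :
    0 ≤ hv z1 z2 z3 z4 (qf (fun d : ℕ => (d : ℝ) - H) F1 D) (qf (fun d : ℕ => (d : ℝ) - H) F2 D)
      (qf (fun d : ℕ => (d : ℝ) - H) F3 D) (qf (fun d : ℕ => (d : ℝ) - H) F4 D) := by
  unfold chk at ht
  rw [Bool.and_eq_true, Bool.and_eq_true] at ht
  obtain ⟨hp, hk, hs⟩ := ht
  simp only [par, Bool.and_eq_true, Nat.ble_eq, Nat.beq_eq] at hp
  obtain ⟨p1, p2, p3, p4, p5, p6, p7, p8, t1, t2, t3, t4, p9, p10, l1, l2, l3, l4⟩ := hp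
  have hL := okc_sound p10
  have T1 := tri_of m F1 t1
  have T2 := tri_of m F2 t2
  have T3 := tri_of m F3 t3
  have T4 := tri_of m F4 t4
  have lm : ∀ K : List ℕ, (K.map utg).length = K.length := fun K => List.length_map _
  obtain ⟨M1, m1, hs, e1⟩ := stB_sound (H := H) (by omega) (by omega) p3 (by omega) p5 p6 (by omega) (by omega) p9 hL
    (by rw [lm]; exact l1) T1 hs D hD
  obtain ⟨M2, m2, hs, e2⟩ := stB_sound (H := H) (by omega) (by omega) p3 (by omega) p5 p6 (by omega) (by omega) p9 hL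
    (by rw [lm]; exact l2) T2 hs D hD
  obtain ⟨M3, m3, hs, e3⟩ := stB_sound (H := H) (by omega) (by omega) p3 (by omega) p5 p6 (by omega) (by omega) p9 hL
    (by rw [lm]; exact l3) T3 hs D hD
  obtain ⟨M4, m4, hs, e4⟩ := stB_sound (H := H) (by omega) (by omega) p3 (by omega) p5 p6 (by omega) (by omega) p9 hL
    (by rw [lm]; exact l4) T4 hs D hD
  rw [Bool.and_eq_true] at hs
  obtain ⟨hle, hs⟩ := hs
  have hle' : ∀ r ∈ M4, ∀ x ∈ r, x ≤ 2 * H := by
    intro r hr x hx
    unfold leB at hle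
    rw [List.all_eq_true] at hle
    have := hle r hr
    rw [List.all_eq_true] at this
    exact Nat.ble_eq.mp (this x hx)
  have h0 := psdL hs (tri_wm m M1 M2 M3 M4 m1 m2 m3 m4) (yv z1 z2 z3 z4 D) (by rw [yv_len, hD])
  rw [qf_wm (H := H) z1 z2 z3 z4 m M1 M2 M3 M4 D m1 m2 m3 m4 hD hle', e1, e2, e3, e4, hv_sub, hv_sum] at h0
  have h2 : 0 ≤ ∑ i ∈ Finset.range R, ∑ l ∈ Finset.range R, hv z1 z2 z3 z4 (ke bK kap R (K1.map utg) i l)
      (ke bK kap R (K2.map utg) i l) (ke bK kap R (K3.map utg) i l) (ke bK kap R (K4.map utg) i l) *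
      (lf lam i Lc D * lf lam l Lc D) := by
    refine Finset.sum_nonneg fun i hi => Finset.sum_nonneg fun l hl' => ?_
    have hi' := Finset.mem_range.1 hi
    have hl'' := Finset.mem_range.1 hl'
    exact mul_nonneg (ke_nonneg z1 z2 z3 z4 hk (by rw [lm]; exact l1) (by rw [lm]; exact l2) (by rw [lm]; exact l3)
      (by rw [lm]; exact l4) hi' hl'') (mul_nonneg (hl i hi') (hl l hl''))
  linarith

end Final

end Pool.Agent.FPX.PSC
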