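import Mathlib
import Pool.Agent.FPX.PSC
/-!
PSD3. Positivity modulo null forms, with products of nonnegative forms (the computable core of the modal certificate).

Three components `a < 3`, `n0 = 2 n1 + 1` slots `p < n0`, reflection `rp` (swap of neighbours `2 j + 1, 2 j + 2`).
The base form is given by symmetric tables `S a b p q'`, `a ≤ b` (`q' = rp q`), as packed rows of the upper triangle;
forms `f i p` and multipliers `K i j` (Hermitian, positive, `i ≤ j`) and a factor are packed numbers.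
-/
set_option autoImplicit false

namespace Pool.Agent.FPX.PSD3

open Pool.Agent.FPX.PSB
open Pool.Agent.FPX.PSC

/-! ### definitions -/

/-- the reflection -/
def rp : ℕ → ℕ
  | 0 => 0
  | p + 1 => if p % 2 = 0 then p + 2 else p

/-- swap of neighbours -/
def sw {α : Type} : List α → List α
  | x :: y :: l => y :: x :: sw l
  | l => l

/-- swap of neighbours after the first entry -/
def sw0 {α : Type} : List α → List α
  | x :: l => x :: sw l
  | [] => []

/-- two-sided bound -/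
def ob (ε m t : ℕ) : Bool := Nat.ble t (m + ε) && Nat.ble m (t + ε)

/-- two-sided bound of `s + t - m` -/
def obz (ε m t : ℕ) : ℤ → Bool
  | Int.ofNat x => ob ε m (x + t)
  | Int.negSucc x => ob ε (m + (x + 1)) t

/-- lower bound `m + nε ≤ s + t` -/
def lbz (nε m t : ℕ) : ℤ → Bool
  | Int.ofNat x => Nat.ble (m + nε) (x + t)
  | Int.negSucc x => Nat.ble (m + nε + (x + 1)) t

/-- the entries of one row -/
def ents (Z X ε C4 p r w : ℕ) (S : ℕ → ℤ) : ℕ → List ℕ → List ℕ → List ℕ → Bool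
  | q, p' :: ps, r' :: rs, w' :: ws =>
    obz ε (2 * ((p * r' + p' * r) / Z % X) + C4) (2 * (w + w')) (S q) && ents Z X ε C4 p r w S (q + 1) ps rs ws
  | _, _, _, _ => true

/-- a block off the diagonal -/
def blk (Z X ε C4 : ℕ) (S : ℕ → ℕ → ℤ) : ℕ → List ℕ → List ℕ → List ℕ → Bool
  | i, p :: ps, r :: rs, w :: ws =>
    ents Z X ε C4 p r w (S i) i (p :: ps) (r :: rs) (w :: ws) && blk Z X ε C4 S (i + 1) ps rs ws
  | _, _, _, _ => true

/-- the rows of a diagonal block, in pairs -/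
def blkd (Z X ε nε C4 : ℕ) (S : ℕ → ℕ → ℤ) : ℕ → List ℕ → List ℕ → List ℕ → Bool
  | i, p :: p' :: ps, r :: r' :: rs, w :: w' :: ws =>
    (obz ε (2 * ((p * r + p * r) / Z % X) + C4) (2 * (w + w)) (S i i) &&
      (lbz nε (2 * ((p * r' + p' * r) / Z % X) + C4) (2 * (w + w')) (S i (i + 1)) &&
        (ents Z X ε C4 p r w (S i) (i + 2) ps rs ws &&
          ents Z X ε C4 p' r' w' (S (i + 1)) (i + 1) (p' :: ps) (r' :: rs) (w' :: ws)))) &&
            blkd Z X ε nε C4 S (i + 2) ps rs ws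
  | _, _, _, _ => true

/-- a diagonal block -/
def blk0 (Z X ε nε C4 : ℕ) (S : ℕ → ℕ → ℤ) : List ℕ → List ℕ → List ℕ → Bool
  | p :: ps, r :: rs, w :: ws =>
    lbz nε (2 * ((p * r + p * r) / Z % X) + C4) (2 * (w + w)) (S 0 0) &&
      (ents Z X ε C4 p r w (S 0) 1 ps rs ws && blkd Z X ε nε C4 S 1 ps rs ws)
  | _, _, _ => true

/-- distance of two numbers -/
def ds (a b : ℕ) : ℕ := (a - b) + (b - a)

/-- positivity of a Hermitian `3 × 3` matrix, all entries with offset `κ` -/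
def p3 (κ a b c x y u v s t : ℕ) : Bool :=
  Nat.ble κ a && (Nat.ble κ b && (Nat.ble κ c &&
  (fun a' b' c' q1 q2 q3 re im => Nat.ble q1 (a' * b') && (Nat.ble q2 (a' * c') && (Nat.ble q3 (b' * c') &&
      Nat.ble (re * re + im * im) ((a' * b' - q1) * (a' * c' - q2)))))
    (a - κ) (b - κ) (c - κ) (ds x κ * ds x κ + ds y κ * ds y κ) (ds u κ * ds u κ + ds v κ * ds v κ)
    (ds s κ * ds s κ + ds t κ * ds t κ)
    (ds ((a - κ) * s + κ * (x + u + y + v)) ((a - κ) * κ + (x * u + y * v) + 2 * κ * κ))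
    (ds ((a - κ) * t + (y * u + κ * (x + v))) ((a - κ) * κ + (x * v + κ * (y + u))))))

/-- one column of multipliers; order `a b c x y u v s t` -/
def kch3 (bK κ : ℕ) : ℕ → ℕ → ℕ → ℕ → ℕ → ℕ → ℕ → ℕ → ℕ → ℕ → Bool
  | 0, _, _, _, _, _, _, _, _, _ => true
  | n + 1, a, b, c, x, y, u, v, s, t =>
    p3 κ (a % bK) (b % bK) (c % bK) (x % bK) (y % bK) (u % bK) (v % bK) (s % bK) (t % bK) &&
      kch3 bK κ n (a / bK) (b / bK) (c / bK) (x / bK) (y / bK) (u / bK) (v / bK) (s / bK) (t / bK)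

/-- all columns -/
def kchs3 (bK κ : ℕ) : ℕ → List ℕ → List ℕ → List ℕ → List ℕ → List ℕ → List ℕ → List ℕ → List ℕ → List ℕ → Bool
  | l, a :: A, b :: B, c :: C, x :: X, y :: Y, u :: U, v :: V, s :: S, t :: T =>
    kch3 bK κ l a b c x y u v s t && kchs3 bK κ (l + 1) A B C X Y U V S T
  | _, _, _, _, _, _, _, _, _, _ => true

/-- packed columns of the real matrix of one block -/
def kps (κO XF : ℕ) (R I : List ℕ) : List ℕ :=
  List.zipWith (fun r i => r * XF + (κO - i)) R I ++ List.zipWith (fun r i => (κO - i) * XF + (κO - r)) R I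

/-- the packed right sides of the forms -/
def rts (X R lam kap tau : ℕ) (g : List (List ℕ)) (Kp : List ℕ) : List ℕ :=
  g.map fun a => tpk (R * lam * kap + tau) lam kap (on X R) (sm Kp) (dt a Kp) (sm a)

/-- the test of one block: `PU` packed left sides, `RE` packed (swapped) factor rows, `sa`, `sb` digit sums -/
def bk (X XR lam : ℕ) (sa sb RE RT : List ℕ) (k : List ℕ → List ℕ → Bool) : Bool :=
  k (List.zipWith (fun e t => e * XR + t) RE RT)
    (List.zipWith (fun s t => s + lam * (t % (X - 1))) (List.zipWith (fun s s' => s + s') sa sb) RT)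

/-- the blocks -/
def fin (nF bL lam bK kap tau X b h K ε nε : ℕ) (Fl : List ℕ)
    (K00 K11 K22 R01 I01 R02 I02 R12 I12 : List ℕ) (G0 G1 G2 : List ℕ) (S : ℕ → ℕ → ℕ → ℕ → ℤ) : Bool :=
  (fun (g : List (List ℕ)) (F Ss : List ℕ) (R0 R1 R2 : List ℕ) (O : ℕ) (Z XK XF XR C4 : ℕ) =>
    (fun (U0 U1 U2 : List ℕ) (a0 a1 a2 b0 b1 b2 E0 E1 E2 Zo : List ℕ) =>
      bk X XR lam a0 b0 E0 (rts X (2 * nF) lam kap tau g (kps (2 * kap * O) XF (kpk bK kap X nF 1 (K00.map utg)) Zo))
        (fun r w => blk0 Z X ε nε C4 (S 0 0) U0 r w) &&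
      (bk X XR lam a0 b1 E1 (rts X (2 * nF) lam kap tau g (kps (2 * kap * O) XF (kpk bK kap X nF 1 (R01.map utg))
        (kpk bK kap X nF 1 (I01.map utg)))) (fun r w => blk Z X ε C4 (S 0 1) 0 U0 r w) &&
      (bk X XR lam a0 b2 E2 (rts X (2 * nF) lam kap tau g (kps (2 * kap * O) XF (kpk bK kap X nF 1 (R02.map utg))
        (kpk bK kap X nF 1 (I02.map utg)))) (fun r w => blk Z X ε C4 (S 0 2) 0 U0 r w) &&
      (bk X XR lam a1 b1 E1 (rts X (2 * nF) lam kap tau g (kps (2 * kap * O) XF (kpk bK kap X nF 1 (K11.map utg)) Zo))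
        (fun r w => blk0 Z X ε nε C4 (S 1 1) U1 r w) &&
      (bk X XR lam a1 b2 E2 (rts X (2 * nF) lam kap tau g (kps (2 * kap * O) XF (kpk bK kap X nF 1 (R12.map utg))
        (kpk bK kap X nF 1 (I12.map utg)))) (fun r w => blk Z X ε C4 (S 1 2) 0 U1 r w) &&
      bk X XR lam a2 b2 E2 (rts X (2 * nF) lam kap tau g (kps (2 * kap * O) XF (kpk bK kap X nF 1 (K22.map utg)) Zo))
        (fun r w => blk0 Z X ε nε C4 (S 2 2) U2 r w))))))
      (List.zipWith (fun c f => pkc b X K (utg c) 1 0 + XK * f) G0 F)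
      (List.zipWith (fun c f => pkc b X K (utg c) 1 0 + XK * f) G1 F)
      (List.zipWith (fun c f => pkc b X K (utg c) 1 0 + XK * f) G2 F)
      (List.zipWith (fun r s => h * (r % (X - 1)) + s) R0 Ss) (List.zipWith (fun r s => h * (r % (X - 1)) + s) R1 Ss)
      (List.zipWith (fun r s => h * (r % (X - 1)) + s) R2 Ss)
      (sw0 (R0.map fun r => h * (r % (X - 1)))) (sw0 (R1.map fun r => h * (r % (X - 1))))
      (sw0 (R2.map fun r => h * (r % (X - 1)))) (sw0 R0) (sw0 R1) (sw0 R2) (List.replicate nF (kap * O)))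
    (Fl.map fun c => digs bL (2 * nF) (utg c)) (Fl.map fun c => pkc bL X (2 * nF) (utg c) 1 0)
    (Fl.map fun c => tau * sm (digs bL (2 * nF) (utg c))) (G0.map fun c => rvc b X K (utg c) 0)
    (G1.map fun c => rvc b X K (utg c) 0) (G2.map fun c => rvc b X K (utg c) 0) (on X nF)
    (X ^ (K + 2 * nF - 1)) (X ^ K) (X ^ nF) (X ^ (2 * nF)) (4 * (K * h ^ 2 + 2 * nF * lam * tau))

/-- the conditions on the parameters -/
def par (n1 nF bL lam bK kap tau X b K ε nε : ℕ) (Fl : List ℕ)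
    (K00 K11 K22 R01 I01 R02 I02 R12 I12 : List ℕ) (G0 G1 G2 : List ℕ) : Bool :=
  Nat.ble 1 K && (Nat.ble 1 b && (Nat.ble 1 bL && (Nat.ble lam bL && (Nat.ble (kap + 1) bK &&
  (Nat.ble bK (2 * kap + 1) && (Nat.ble (2 * nF * bL * (2 * kap + 1)) tau &&
  (Nat.ble (2 * ((K + 2 * nF) * ((b + bL) * (b + 2 * tau))) + 3) X && (Nat.ble (K * b + 2) X &&
  (Nat.ble (2 * nF * (2 * tau) + 2) X && (Nat.ble (3 * (2 * n1 + 1) * ε) nε && (Nat.beq Fl.length (2 * n1 + 1) &&
  (Nat.beq G0.length (2 * n1 + 1) && (Nat.beq G1.length (2 * n1 + 1) && (Nat.beq G2.length (2 * n1 + 1) &&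
  (Nat.beq K00.length nF && (Nat.beq K11.length nF && (Nat.beq K22.length nF && (Nat.beq R01.length nF &&
  (Nat.beq I01.length nF && (Nat.beq R02.length nF && (Nat.beq I02.length nF && (Nat.beq R12.length nF &&
  Nat.beq I12.length nF))))))))))))))))))))))

/-- **the test** -/
def chk (n1 nF bL lam bK kap tau X b h K ε nε : ℕ) (Fl : List ℕ)
    (K00 K11 K22 R01 I01 R02 I02 R12 I12 : List ℕ) (G0 G1 G2 : List ℕ) (S : ℕ → ℕ → ℕ → ℕ → ℤ) : Bool :=
  par n1 nF bL lam bK kap tau X b K ε nε Fl K00 K11 K22 R01 I01 R02 I02 R12 I12 G0 G1 G2 &&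
  (kchs3 bK kap 1 (K00.map utg) (K11.map utg) (K22.map utg) (R01.map utg) (I01.map utg) (R02.map utg) (I02.map utg)
    (R12.map utg) (I12.map utg) &&
  fin nF bL lam bK kap tau X b h K ε nε Fl K00 K11 K22 R01 I01 R02 I02 R12 I12 G0 G1 G2 S)

/-! ### the middle digit -/

theorem mid_aux2 {b c X : ℕ} (hb : 0 < b) (hc : 0 < c) (hX : 0 < X) : ∀ l m : List ℕ, l.length = m.length →
    (∀ a ∈ l, a < b) → (∀ a ∈ m, a < c) →
    ∃ lo hi : ℕ, X * (pk X l * rv X m) = lo * X + X ^ l.length * (dt l m) + X ^ l.length * X * hi ∧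
      (X - 1) * (lo * X) ≤ (l.length * ((b - 1) * (c - 1))) * (X ^ l.length - 1)
  | [], [], _, _, _ => ⟨0, 0, by simp [pk, dt], by simp⟩
  | [], _ :: _, h, _, _ => by simp at h
  | _ :: _, [], h, _, _ => by simp at h
  | a :: l, e :: m, h, hl, hm => by
    have hlen : l.length = m.length := by simpa using h
    obtain ⟨lo, hi, h1, h2⟩ := mid_aux2 hb hc hX l m hlen (fun d hd => hl d (List.mem_cons_of_mem _ hd))
      fun d hd => hm d (List.mem_cons_of_mem _ hd)
    have ha : a < b := hl a (by simp)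
    have hr := rv_lt hc hX m fun d hd => hm d (List.mem_cons_of_mem _ hd)
    refine ⟨lo * X + a * rv X m, hi + pk X l * e, ?_, ?_⟩
    · simp only [pk, rv, dt, List.length_cons, ← hlen, pow_succ]
      have : X * ((a + X * pk X l) * (e * X ^ l.length + rv X m)) =
        X * (X * (pk X l * rv X m)) + X * (a * rv X m) + X * X ^ l.length * (a * e)
          + X * X ^ l.length * X * (pk X l * e) := by ring
      rw [this, h1]
      ring
    · simp only [List.length_cons]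
      rw [← hlen] at hr
      obtain ⟨Y, rfl⟩ : ∃ Y, X = Y + 1 := ⟨X - 1, by omega⟩
      obtain ⟨d, rfl⟩ : ∃ d, b = d + 1 := ⟨b - 1, by omega⟩
      obtain ⟨g, rfl⟩ : ∃ g, c = g + 1 := ⟨c - 1, by omega⟩
      simp only [Nat.add_sub_cancel] at h2 hr ⊢
      obtain ⟨Z, hZ⟩ : ∃ Z, (Y + 1) ^ l.length = Z + 1 := ⟨(Y + 1) ^ l.length - 1, by
        have := Nat.one_le_pow l.length (Y + 1) (by omega); omega⟩
      rw [hZ, Nat.add_sub_cancel] at h2 hr
      have e1 : (Y + 1) ^ (l.length + 1) - 1 = Z * (Y + 1) + Y := by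
        rw [pow_succ, hZ]
        have : (Z + 1) * (Y + 1) = Z * (Y + 1) + Y + 1 := by ring
        omega
      rw [e1]
      have h1 : a ≤ d := by omega
      have h3 : Y * (a * rv (Y + 1) m) ≤ d * (g * Z) := by
        calc Y * (a * rv (Y + 1) m) = a * (Y * rv (Y + 1) m) := by ring
          _ ≤ d * (g * Z) := Nat.mul_le_mul h1 hr
      calc Y * ((lo * (Y + 1) + a * rv (Y + 1) m) * (Y + 1))
          = (Y * (lo * (Y + 1))) * (Y + 1) + (Y * (a * rv (Y + 1) m)) * (Y + 1) := by ring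
        _ ≤ (l.length * (d * g) * Z) * (Y + 1) + (d * (g * Z)) * (Y + 1) :=
          Nat.add_le_add (Nat.mul_le_mul_right _ h2) (Nat.mul_le_mul_right _ h3)
        _ = (l.length + 1) * (d * g) * (Z * (Y + 1)) := by ring
        _ ≤ (l.length + 1) * (d * g) * (Z * (Y + 1) + Y) := Nat.mul_le_mul_left _ (by omega)

theorem dt_le2 {b c : ℕ} : ∀ l m : List ℕ, (∀ a ∈ l, a < b) → (∀ a ∈ m, a < c) →
    dt l m ≤ l.length * ((b - 1) * (c - 1))
  | [], _, _, _ => by simp [dt]
  | _ :: _, [], _, _ => by simp [dt]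
  | a :: l, e :: m, hl, hm => by
    have ih := dt_le2 l m (fun d hd => hl d (List.mem_cons_of_mem _ hd)) fun d hd => hm d (List.mem_cons_of_mem _ hd)
    have ha : a < b := hl a (by simp)
    have hc : e < c := hm e (by simp)
    have h1 : a * e ≤ (b - 1) * (c - 1) := Nat.mul_le_mul (by omega) (by omega)
    simp only [dt, List.length_cons]
    calc a * e + dt l m ≤ (b - 1) * (c - 1) + l.length * ((b - 1) * (c - 1)) := Nat.add_le_add h1 ih
      _ = (l.length + 1) * ((b - 1) * (c - 1)) := by ring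

/-- the middle digit of a sum of two products -/
theorem mid2 {b c X L : ℕ} (hb : 0 < b) (hc : 0 < c) (hX : 2 * (L * ((b - 1) * (c - 1))) < X) (hX1 : 1 < X) (hL : 0 < L)
    {l m l' m' : List ℕ} (hl : l.length = L) (hm : m.length = L) (hl' : l'.length = L) (hm' : m'.length = L)
    (h1 : ∀ a ∈ l, a < b) (h2 : ∀ a ∈ m, a < c) (h1' : ∀ a ∈ l', a < b) (h2' : ∀ a ∈ m', a < c) :
    (pk X l * rv X m + pk X l' * rv X m') / X ^ (L - 1) % X = dt l m + dt l' m' := by
  obtain ⟨lo, hi, e, hlo⟩ := mid_aux2 hb hc (by omega : 0 < X) l m (by omega) h1 h2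
  obtain ⟨lo', hi', e', hlo'⟩ := mid_aux2 hb hc (by omega : 0 < X) l' m' (by omega) h1' h2'
  have hd := dt_le2 l m h1 h2
  have hd' := dt_le2 l' m' h1' h2'
  rw [hl] at e hlo hd
  rw [hl'] at e' hlo' hd'
  set W := L * ((b - 1) * (c - 1)) with hW
  have hZ : 0 < X ^ L := Nat.pow_pos (by omega)
  have h3 : (lo + lo') * X < X ^ L := by
    by_contra hcn
    have h4 : (X - 1) * X ^ L ≤ (X - 1) * ((lo + lo') * X) := Nat.mul_le_mul_left _ (by omega)
    have h4' : (X - 1) * ((lo + lo') * X) = (X - 1) * (lo * X) + (X - 1) * (lo' * X) := by ring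
    have h5 : W * (X ^ L - 1) + W * (X ^ L - 1) ≤ (X - 1) * (X ^ L - 1) := by
      rw [← Nat.add_mul]
      exact Nat.mul_le_mul_right _ (by omega)
    have h6 : (X - 1) * X ^ L ≤ (X - 1) * (X ^ L - 1) := by omega
    have h7 := Nat.le_of_mul_le_mul_left h6 (by omega)
    omega
  have e2 : X ^ L = X * X ^ (L - 1) := by
    conv_lhs => rw [show L = (L - 1) + 1 by omega, pow_succ]
    ring
  have e3 : (pk X l * rv X m + pk X l' * rv X m') / X ^ (L - 1) = (dt l m + dt l' m') + X * (hi + hi') := by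
    rw [← Nat.mul_div_mul_left _ (X ^ (L - 1)) (by omega : 0 < X), ← e2, Nat.mul_add, e, e']
    rw [show lo * X + X ^ L * dt l m + X ^ L * X * hi + (lo' * X + X ^ L * dt l' m' + X ^ L * X * hi')
      = (lo + lo') * X + X ^ L * ((dt l m + dt l' m') + X * (hi + hi')) by ring,
      Nat.add_mul_div_left _ _ hZ, Nat.div_eq_of_lt h3, Nat.zero_add]
  rw [e3, Nat.add_mul_mod_self_left, Nat.mod_eq_of_lt (by omega)]

/-! ### from the lists to the indices -/

theorem ob_iff {ε m t : ℕ} : ob ε m t = true ↔ t ≤ m + ε ∧ m ≤ t + ε := by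
  unfold ob
  rw [Bool.and_eq_true, Nat.ble_eq, Nat.ble_eq]

theorem obz_iff {ε m t : ℕ} {s : ℤ} : obz ε m t s = true ↔ s + t ≤ m + ε ∧ (m : ℤ) ≤ s + t + ε := by
  cases s with
  | ofNat x =>
    unfold obz
    rw [ob_iff]
    simp only [Int.ofNat_eq_natCast]
    omega
  | negSucc x =>
    unfold obz
    rw [ob_iff, Int.negSucc_eq]
    omega

theorem lbz_iff {nε m t : ℕ} {s : ℤ} : lbz nε m t s = true ↔ (m : ℤ) + nε ≤ s + t := by
  cases s with
  | ofNat x =>
    unfold lbz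
    rw [Nat.ble_eq]
    simp only [Int.ofNat_eq_natCast]
    omega
  | negSucc x =>
    unfold lbz
    rw [Nat.ble_eq, Int.negSucc_eq]
    omega

/-- the value of the entry -/
def mv (Z X C4 p r p' r' : ℕ) : ℕ := 2 * ((p * r' + p' * r) / Z % X) + C4

theorem ents_get {Z X ε C4 p r w : ℕ} {S : ℕ → ℤ} : ∀ (n q : ℕ) (ps rs ws : List ℕ), ps.length = n → rs.length = n →
    ws.length = n → ents Z X ε C4 p r w S q ps rs ws = true → ∀ k < n,
    S (q + k) + (2 * (w + ws.getD k 0) : ℕ) ≤ (mv Z X C4 p r (ps.getD k 0) (rs.getD k 0) : ℕ) + (ε : ℤ) ∧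
    ((mv Z X C4 p r (ps.getD k 0) (rs.getD k 0) : ℕ) : ℤ) ≤ S (q + k) + (2 * (w + ws.getD k 0) : ℕ) + ε
  | 0, _, _, _, _, _, _, _, _, k, hk => by omega
  | n + 1, q, p' :: ps, r' :: rs, w' :: ws, h1, h2, h3, h, k, hk => by
    rw [ents, Bool.and_eq_true, obz_iff] at h
    cases k with
    | zero => simpa [mv] using h.1
    | succ k =>
      have ih := ents_get n (q + 1) ps rs ws (by simpa using h1) (by simpa using h2) (by simpa using h3) h.2 k (by omega)
      rw [show q + 1 + k = q + (k + 1) by ring] at ih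
      simpa using ih
  | n + 1, _, [], _, _, h1, _, _, _, _, _ => by simp at h1
  | n + 1, _, _ :: _, [], _, _, h2, _, _, _, _ => by simp at h2
  | n + 1, _, _ :: _, _ :: _, [], _, _, h3, _, _, _ => by simp at h3

/-- the statement of the test at one entry; `dg = true` for a diagonal entry -/
def EB (Z X ε nε C4 : ℕ) (dg : Bool) (s : ℤ) (Ps Rs Ws : List ℕ) (p q : ℕ) : Prop :=
  (dg = false → s + (2 * (Ws.getD p 0 + Ws.getD q 0) : ℕ) ≤
    (mv Z X C4 (Ps.getD p 0) (Rs.getD p 0) (Ps.getD q 0) (Rs.getD q 0) : ℕ) + (ε : ℤ)) ∧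
  (dg = false → ((mv Z X C4 (Ps.getD p 0) (Rs.getD p 0) (Ps.getD q 0) (Rs.getD q 0) : ℕ) : ℤ) ≤
    s + (2 * (Ws.getD p 0 + Ws.getD q 0) : ℕ) + ε) ∧
  (dg = true → ((mv Z X C4 (Ps.getD p 0) (Rs.getD p 0) (Ps.getD q 0) (Rs.getD q 0) : ℕ) : ℤ) + nε ≤
    s + (2 * (Ws.getD p 0 + Ws.getD q 0) : ℕ))

theorem EB_shift {Z X ε nε C4 : ℕ} {dg : Bool} {t : ℤ} {Ps Rs Ws : List ℕ} {p r w i k : ℕ}
    (h : EB Z X ε nε C4 dg t Ps Rs Ws i k) :
    EB Z X ε nε C4 dg t (p :: Ps) (r :: Rs) (w :: Ws) (i + 1) (k + 1) := by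
  unfold EB at h ⊢
  simp only [List.getD_cons_succ]
  exact h

theorem blk_get {Z X ε C4 : ℕ} {S : ℕ → ℕ → ℤ} (nε : ℕ) : ∀ (n j : ℕ) (Ps Rs Ws : List ℕ), Ps.length = n →
    Rs.length = n → Ws.length = n → blk Z X ε C4 S j Ps Rs Ws = true → ∀ i k, i ≤ k → k < n →
    EB Z X ε nε C4 false (S (j + i) (j + k)) Ps Rs Ws i k
  | 0, _, _, _, _, _, _, _, _, i, k, _, hk => by omega
  | n + 1, j, p :: Ps, r :: Rs, w :: Ws, h1, h2, h3, h, i, k, hi, hk => by
    rw [blk, Bool.and_eq_true] at h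
    cases i with
    | zero =>
      have := ents_get (n + 1) j (p :: Ps) (r :: Rs) (w :: Ws) h1 h2 h3 h.1 k hk
      refine ⟨fun _ => ?_, fun _ => ?_, fun hc => by simp at hc⟩
      · simpa using this.1
      · simpa using this.2
    | succ i =>
      obtain ⟨k, rfl⟩ : ∃ k', k = k' + 1 := ⟨k - 1, by omega⟩
      have := blk_get nε n (j + 1) Ps Rs Ws (by simpa using h1) (by simpa using h2) (by simpa using h3)
        h.2 i k (by omega) (by omega)
      rw [show j + 1 + i = j + (i + 1) by ring, show j + 1 + k = j + (k + 1) by ring] at this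
      exact EB_shift this
  | n + 1, _, [], _, _, h1, _, _, _, _, _, _, _ => by simp at h1
  | n + 1, _, _ :: _, [], _, _, h2, _, _, _, _, _, _ => by simp at h2
  | n + 1, _, _ :: _, _ :: _, [], _, _, h3, _, _, _, _, _ => by simp at h3

/-- the diagonal entries of the rows in pairs: `(i, k)` with `i` even and `k = i + 1` -/
def dg1 (i k : ℕ) : Bool := i % 2 == 0 && k == i + 1

theorem dg1_ss (i k : ℕ) : dg1 (i + 2) (k + 2) = dg1 i k := by
  unfold dg1
  rw [Nat.add_mod_right, show (k + 2 == i + 2 + 1) = (k == i + 1) by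
    rw [Bool.eq_iff_iff, beq_iff_eq, beq_iff_eq]; omega]

theorem blkd_get {Z X ε nε C4 : ℕ} {S : ℕ → ℕ → ℤ} : ∀ (n j : ℕ) (Ps Rs Ws : List ℕ), Ps.length = 2 * n →
    Rs.length = 2 * n → Ws.length = 2 * n → blkd Z X ε nε C4 S j Ps Rs Ws = true → ∀ i k, i ≤ k →
    k < 2 * n → EB Z X ε nε C4 (dg1 i k) (S (j + i) (j + k)) Ps Rs Ws i k
  | 0, _, _, _, _, _, _, _, _, i, k, _, hk => by omega
  | n + 1, j, p :: p' :: Ps, r :: r' :: Rs, w :: w' :: Ws, h1, h2, h3, h, i, k, hi, hk => by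
    have l1 : Ps.length = 2 * n := by simp only [List.length_cons] at h1; omega
    have l2 : Rs.length = 2 * n := by simp only [List.length_cons] at h2; omega
    have l3 : Ws.length = 2 * n := by simp only [List.length_cons] at h3; omega
    simp only [blkd, Bool.and_eq_true, obz_iff, lbz_iff] at h
    obtain ⟨⟨h5, h6, h7, h8⟩, h9⟩ := h
    match i, k, hi, hk with
    | 0, 0, _, _ =>
      refine ⟨fun _ => ?_, fun _ => ?_, fun hc => by simp [dg1] at hc⟩
      · simpa [mv] using h5.1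
      · simpa [mv] using h5.2
    | 0, 1, _, _ =>
      refine ⟨fun hc => by simp [dg1] at hc, fun hc => by simp [dg1] at hc, fun _ => ?_⟩
      simpa [mv] using h6
    | 0, k + 2, _, hk =>
      have := ents_get (2 * n) (j + 2) Ps Rs Ws l1 l2 l3 h7 k (by omega)
      rw [show j + 2 + k = j + (k + 2) by ring] at this
      refine ⟨fun _ => ?_, fun _ => ?_, fun hc => by simp [dg1] at hc⟩
      · simp only [List.getD_cons_zero, List.getD_cons_succ, Nat.add_zero]
        exact this.1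
      · simp only [List.getD_cons_zero, List.getD_cons_succ, Nat.add_zero]
        exact this.2
    | 1, k + 1, _, hk =>
      have := ents_get (2 * n + 1) (j + 1) (p' :: Ps) (r' :: Rs) (w' :: Ws) (by simp [l1]) (by simp [l2])
        (by simp [l3]) h8 k (by omega)
      rw [show j + 1 + k = j + (k + 1) by ring] at this
      refine ⟨fun _ => ?_, fun _ => ?_, fun hc => by simp [dg1] at hc⟩
      · simp only [List.getD_cons_zero, List.getD_cons_succ] at this ⊢
        exact this.1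
      · simp only [List.getD_cons_zero, List.getD_cons_succ] at this ⊢
        exact this.2
    | i + 2, k + 2, hi, hk =>
      rw [dg1_ss]
      have := blkd_get n (j + 2) Ps Rs Ws l1 l2 l3 h9 i k (by omega) (by omega)
      rw [show j + 2 + i = j + (i + 2) by ring, show j + 2 + k = j + (k + 2) by ring] at this
      exact EB_shift (EB_shift this)
  | n + 1, _, [], _, _, h1, _, _, _, _, _, _, _ => by simp at h1
  | n + 1, _, [_], _, _, h1, _, _, _, _, _, _, _ => by simp only [List.length_cons, List.length_nil] at h1; omega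
  | n + 1, _, _ :: _ :: _, [], _, _, h2, _, _, _, _, _, _ => by simp at h2
  | n + 1, _, _ :: _ :: _, [_], _, _, h2, _, _, _, _, _, _ => by
    simp only [List.length_cons, List.length_nil] at h2; omega
  | n + 1, _, _ :: _ :: _, _ :: _ :: _, [], _, _, h3, _, _, _, _, _ => by simp at h3
  | n + 1, _, _ :: _ :: _, _ :: _ :: _, [_], _, _, h3, _, _, _, _, _ => by
    simp only [List.length_cons, List.length_nil] at h3; omega

theorem rp_zero : rp 0 = 0 := rfl

theorem rp_succ (p : ℕ) : rp (p + 1) = if p % 2 = 0 then p + 2 else p := rfl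

theorem blk0_get {Z X ε nε C4 : ℕ} {S : ℕ → ℕ → ℤ} (n : ℕ) (Ps Rs Ws : List ℕ) (h1 : Ps.length = 2 * n + 1)
    (h2 : Rs.length = 2 * n + 1) (h3 : Ws.length = 2 * n + 1)
    (h : blk0 Z X ε nε C4 S Ps Rs Ws = true) (i k : ℕ) (hi : i ≤ k) (hk : k < 2 * n + 1) :
    EB Z X ε nε C4 (k == rp i) (S i k) Ps Rs Ws i k := by
  match Ps, Rs, Ws, h1, h2, h3, h with
  | p :: Ps, r :: Rs, w :: Ws, h1, h2, h3, h =>
    have l1 : Ps.length = 2 * n := by simpa using h1
    have l2 : Rs.length = 2 * n := by simpa using h2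
    have l3 : Ws.length = 2 * n := by simpa using h3
    simp only [blk0, Bool.and_eq_true, lbz_iff] at h
    obtain ⟨h5, h6, h7⟩ := h
    match i, k, hi, hk with
    | 0, 0, _, _ =>
      refine ⟨fun hc => by simp [rp] at hc, fun hc => by simp [rp] at hc, fun _ => ?_⟩
      simpa [mv] using h5
    | 0, k + 1, _, hk =>
      have := ents_get (2 * n) 1 Ps Rs Ws l1 l2 l3 h6 k (by omega)
      rw [show 1 + k = k + 1 by ring] at this
      refine ⟨fun _ => ?_, fun _ => ?_, fun hc => by simp [rp] at hc⟩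
      · simp only [List.getD_cons_zero, List.getD_cons_succ]
        exact this.1
      · simp only [List.getD_cons_zero, List.getD_cons_succ]
        exact this.2
    | i + 1, k + 1, hi, hk =>
      have e : (k + 1 == rp (i + 1)) = dg1 i k := by
        unfold dg1
        rw [Bool.eq_iff_iff, beq_iff_eq, Bool.and_eq_true, beq_iff_eq, beq_iff_eq, rp_succ]
        split_ifs with hp <;> omega
      rw [e]
      have := blkd_get n 1 Ps Rs Ws l1 l2 l3 h7 i k (by omega) (by omega)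
      rw [show 1 + i = i + 1 by ring, show 1 + k = k + 1 by ring] at this
      exact EB_shift this
  | [], _, _, h1, _, _, _ => simp at h1
  | _ :: _, [], _, _, h2, _, _ => simp at h2
  | _ :: _, _ :: _, [], _, _, h3, _ => simp at h3

theorem rp_rp : ∀ p : ℕ, rp (rp p) = p
  | 0 => rfl
  | p + 1 => by
    rw [rp_succ]
    by_cases h : p % 2 = 0
    · rw [if_pos h, rp_succ, if_neg (by omega)]
    · rw [if_neg h]
      obtain ⟨q, rfl⟩ : ∃ q, p = q + 1 := ⟨p - 1, by omega⟩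
      rw [rp_succ, if_pos (by omega)]

theorem rp_lt {n p : ℕ} (h : p < 2 * n + 1) : rp p < 2 * n + 1 := by
  cases p with
  | zero => simp [rp]
  | succ p =>
    rw [rp_succ]
    split_ifs <;> omega

theorem sw_get {α : Type} (d : α) : ∀ (n : ℕ) (l : List α), l.length = 2 * n → ∀ q < 2 * n,
    (sw l).getD q d = l.getD (if q % 2 = 0 then q + 1 else q - 1) d
  | 0, _, _, q, hq => by omega
  | n + 1, x :: y :: l, h, q, hq => by
    have hl : l.length = 2 * n := by simp only [List.length_cons] at h; omega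
    match q, hq with
    | 0, _ => simp [sw]
    | 1, _ => simp [sw]
    | q + 2, hq =>
      have ih := sw_get d n l hl q (by omega)
      simp only [sw, List.getD_cons_succ, ih, Nat.add_mod_right]
      by_cases hp : q % 2 = 0
      · rw [if_pos hp, if_pos hp]
        simp
      · rw [if_neg hp, if_neg hp]
        obtain ⟨t, rfl⟩ : ∃ t, q = t + 1 := ⟨q - 1, by omega⟩
        simp
  | n + 1, [], h, _, _ => by simp at h
  | n + 1, [_], h, _, _ => by simp only [List.length_cons, List.length_nil] at h; omega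

theorem sw0_get {α : Type} (d : α) {n : ℕ} {l : List α} (h : l.length = 2 * n + 1) {q : ℕ} (hq : q < 2 * n + 1) :
    (sw0 l).getD q d = l.getD (rp q) d := by
  cases l with
  | nil => simp at h
  | cons x l =>
    have hl : l.length = 2 * n := by simpa using h
    cases q with
    | zero => simp [sw0, rp]
    | succ q =>
      simp only [sw0, List.getD_cons_succ]
      rw [sw_get d n l hl q (by omega), rp_succ]
      by_cases hp : q % 2 = 0
      · rw [if_pos hp, if_pos hp]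
        simp
      · rw [if_neg hp, if_neg hp]
        obtain ⟨t, rfl⟩ : ∃ t, q = t + 1 := ⟨q - 1, by omega⟩
        simp

theorem sw_len {α : Type} : ∀ (n : ℕ) (l : List α), l.length = n → (sw l).length = n
  | 0, l, h => by
    obtain rfl := List.length_eq_zero_iff.mp h
    rfl
  | 1, [x], _ => rfl
  | n + 2, x :: y :: l, h => by
    simp only [sw, List.length_cons, sw_len n l (by simpa using h)]
  | 1, [], h => by simp at h
  | 1, _ :: _ :: _, h => by simp at h
  | n + 2, [], h => by simp at h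
  | n + 2, [_], h => by simp at h

theorem sw0_len {α : Type} {n : ℕ} {l : List α} (h : l.length = n) : (sw0 l).length = n := by
  cases l with
  | nil => simpa [sw0] using h
  | cons x l =>
    simp only [sw0, List.length_cons] at h ⊢
    rw [sw_len l.length l rfl]
    exact h


/-! ### positive matrices of size 3 -/

/-- the form of a Hermitian matrix of size 3 in real coordinates -/
def h3 (A B C X Y U V S T a b c d e f : ℝ) : ℝ :=
  A * (a ^ 2 + b ^ 2) + B * (c ^ 2 + d ^ 2) + C * (e ^ 2 + f ^ 2) + 2 * (X * (a * c + b * d) - Y * (b * c - a * d))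
    + 2 * (U * (a * e + b * f) - V * (b * e - a * f)) + 2 * (S * (c * e + d * f) - T * (d * e - c * f))

theorem h3_nonneg {A B C X Y U V S T : ℝ} (hA : 0 ≤ A) (hB : 0 ≤ B) (hC : 0 ≤ C) (h1 : X ^ 2 + Y ^ 2 ≤ A * B)
    (h2 : U ^ 2 + V ^ 2 ≤ A * C) (h3' : S ^ 2 + T ^ 2 ≤ B * C)
    (h4 : (A * S - (X * U + Y * V)) ^ 2 + (A * T - (X * V - Y * U)) ^ 2 ≤
      (A * B - (X ^ 2 + Y ^ 2)) * (A * C - (U ^ 2 + V ^ 2))) (a b c d e f : ℝ) :
    0 ≤ h3 A B C X Y U V S T a b c d e f := by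
  rcases hA.eq_or_lt with hA0 | hA0
  · subst hA0
    have x0 : X = 0 := by nlinarith [sq_nonneg X, sq_nonneg Y]
    have y0 : Y = 0 := by nlinarith [sq_nonneg X, sq_nonneg Y]
    have u0 : U = 0 := by nlinarith [sq_nonneg U, sq_nonneg V]
    have v0 : V = 0 := by nlinarith [sq_nonneg U, sq_nonneg V]
    subst x0 y0 u0 v0
    have := hv_nonneg c d e f hB hC (u := S) (w := -T) (by linarith [neg_sq T])
    unfold hv at this
    unfold h3
    linarith
  · have k1 := hv_nonneg c d e f (x := A * B - (X ^ 2 + Y ^ 2)) (y := A * C - (U ^ 2 + V ^ 2))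
      (u := A * S - (X * U + Y * V)) (w := -(A * T - (X * V - Y * U))) (by linarith) (by linarith)
      (by linarith [neg_sq (A * T - (X * V - Y * U))])
    have k2 : A * h3 A B C X Y U V S T a b c d e f =
        (A * a + (X * c + Y * d) + (U * e + V * f)) ^ 2 + (A * b + (X * d - Y * c) + (U * f - V * e)) ^ 2
          + hv c d e f (A * B - (X ^ 2 + Y ^ 2)) (A * C - (U ^ 2 + V ^ 2)) (A * S - (X * U + Y * V))
            (-(A * T - (X * V - Y * U))) := by
      unfold h3 hv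
      ring
    have k3 : 0 ≤ A * h3 A B C X Y U V S T a b c d e f := by
      rw [k2]
      positivity
    exact nonneg_of_mul_nonneg_right k3 hA0

theorem ds_sq (a b : ℕ) : ((ds a b : ℕ) : ℝ) ^ 2 = ((a : ℝ) - b) ^ 2 := natdist a b

theorem p3_sound {κ a b c x y u v s t : ℕ} (h : p3 κ a b c x y u v s t = true) (a1 a2 c1 c2 e1 e2 : ℝ) :
    0 ≤ h3 ((a : ℝ) - κ) ((b : ℝ) - κ) ((c : ℝ) - κ) ((x : ℝ) - κ) ((y : ℝ) - κ) ((u : ℝ) - κ) ((v : ℝ) - κ)
      ((s : ℝ) - κ) ((t : ℝ) - κ) a1 a2 c1 c2 e1 e2 := by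
  simp only [p3, Bool.and_eq_true, Nat.ble_eq] at h
  obtain ⟨ha, hb, hc, h1, h2, h3', h4⟩ := h
  have ca : ((a - κ : ℕ) : ℝ) = (a : ℝ) - κ := Nat.cast_sub ha
  have cb : ((b - κ : ℕ) : ℝ) = (b : ℝ) - κ := Nat.cast_sub hb
  have cc : ((c - κ : ℕ) : ℝ) = (c : ℝ) - κ := Nat.cast_sub hc
  have sq : ∀ m k : ℕ, ((ds m k * ds m k : ℕ) : ℝ) = ((m : ℝ) - k) ^ 2 := by
    intro m k
    rw [← ds_sq, pow_two]
    push_cast
    ring
  have f1 : ((x : ℝ) - κ) ^ 2 + ((y : ℝ) - κ) ^ 2 ≤ ((a : ℝ) - κ) * ((b : ℝ) - κ) := by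
    have : ((ds x κ * ds x κ + ds y κ * ds y κ : ℕ) : ℝ) ≤ (((a - κ) * (b - κ) : ℕ) : ℝ) := by exact_mod_cast h1
    rw [Nat.cast_add, sq, sq, Nat.cast_mul, ca, cb] at this
    exact this
  have f2 : ((u : ℝ) - κ) ^ 2 + ((v : ℝ) - κ) ^ 2 ≤ ((a : ℝ) - κ) * ((c : ℝ) - κ) := by
    have : ((ds u κ * ds u κ + ds v κ * ds v κ : ℕ) : ℝ) ≤ (((a - κ) * (c - κ) : ℕ) : ℝ) := by exact_mod_cast h2
    rw [Nat.cast_add, sq, sq, Nat.cast_mul, ca, cc] at this
    exact this
  have f3 : ((s : ℝ) - κ) ^ 2 + ((t : ℝ) - κ) ^ 2 ≤ ((b : ℝ) - κ) * ((c : ℝ) - κ) := by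
    have : ((ds s κ * ds s κ + ds t κ * ds t κ : ℕ) : ℝ) ≤ (((b - κ) * (c - κ) : ℕ) : ℝ) := by exact_mod_cast h3'
    rw [Nat.cast_add, sq, sq, Nat.cast_mul, cb, cc] at this
    exact this
  have ka : (0 : ℝ) ≤ (a : ℝ) - κ := by rw [← ca]; exact Nat.cast_nonneg _
  have kb : (0 : ℝ) ≤ (b : ℝ) - κ := by rw [← cb]; exact Nat.cast_nonneg _
  have kc : (0 : ℝ) ≤ (c : ℝ) - κ := by rw [← cc]; exact Nat.cast_nonneg _
  refine h3_nonneg ka kb kc f1 f2 f3 ?_ a1 a2 c1 c2 e1 e2
  have g1 : ds x κ * ds x κ + ds y κ * ds y κ ≤ (a - κ) * (b - κ) := h1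
  have g2 : ds u κ * ds u κ + ds v κ * ds v κ ≤ (a - κ) * (c - κ) := h2
  have S1 : ((ds x κ * ds x κ + ds y κ * ds y κ : ℕ) : ℝ) = ((x : ℝ) - κ) ^ 2 + ((y : ℝ) - κ) ^ 2 := by
    rw [Nat.cast_add, sq, sq]
  have S2 : ((ds u κ * ds u κ + ds v κ * ds v κ : ℕ) : ℝ) = ((u : ℝ) - κ) ^ 2 + ((v : ℝ) - κ) ^ 2 := by
    rw [Nat.cast_add, sq, sq]
  have := (Nat.cast_le (α := ℝ)).2 h4
  rw [Nat.cast_add, sq, sq, Nat.cast_mul, Nat.cast_sub g1, Nat.cast_sub g2, S1, S2] at this
  push_cast [ca, cb, cc] at this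
  refine le_trans (le_of_eq ?_) this
  ring

/-- the entries of one column -/
theorem kch3_sound {bb κ : ℕ} (a1 a2 c1 c2 e1 e2 : ℝ) : ∀ (n a b c x y u v s t : ℕ),
    kch3 bb κ n a b c x y u v s t = true → ∀ k < n,
    0 ≤ h3 (en κ (digs bb n a) k) (en κ (digs bb n b) k) (en κ (digs bb n c) k) (en κ (digs bb n x) k)
      (en κ (digs bb n y) k) (en κ (digs bb n u) k) (en κ (digs bb n v) k) (en κ (digs bb n s) k)
      (en κ (digs bb n t) k) a1 a2 c1 c2 e1 e2
  | 0, _, _, _, _, _, _, _, _, _, _, k, hk => by omega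
  | n + 1, a, b, c, x, y, u, v, s, t, h, k, hk => by
    rw [kch3, Bool.and_eq_true] at h
    cases k with
    | zero =>
      simp only [digs, en, List.getD_cons_zero]
      exact p3_sound h.1 a1 a2 c1 c2 e1 e2
    | succ k =>
      have ih := kch3_sound a1 a2 c1 c2 e1 e2 n _ _ _ _ _ _ _ _ _ h.2 k (by omega)
      simp only [digs, en, List.getD_cons_succ]
      exact ih

theorem kchs3_get {bb κ : ℕ} : ∀ (j : ℕ) (A B C X Y U V S T : List ℕ) (l0 : ℕ),
    kchs3 bb κ l0 A B C X Y U V S T = true →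
    j < A.length → j < B.length → j < C.length → j < X.length → j < Y.length → j < U.length → j < V.length →
    j < S.length → j < T.length →
    kch3 bb κ (l0 + j) (A.getD j 0) (B.getD j 0) (C.getD j 0) (X.getD j 0) (Y.getD j 0) (U.getD j 0) (V.getD j 0)
      (S.getD j 0) (T.getD j 0) = true
  | _, [], _, _, _, _, _, _, _, _, _, _, h, _, _, _, _, _, _, _, _ => by simp at h
  | _, _ :: _, [], _, _, _, _, _, _, _, _, _, _, h, _, _, _, _, _, _, _ => by simp at h
  | _, _ :: _, _ :: _, [], _, _, _, _, _, _, _, _, _, _, h, _, _, _, _, _, _ => by simp at h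
  | _, _ :: _, _ :: _, _ :: _, [], _, _, _, _, _, _, _, _, _, _, h, _, _, _, _, _ => by simp at h
  | _, _ :: _, _ :: _, _ :: _, _ :: _, [], _, _, _, _, _, _, _, _, _, _, h, _, _, _, _ => by simp at h
  | _, _ :: _, _ :: _, _ :: _, _ :: _, _ :: _, [], _, _, _, _, _, _, _, _, _, _, h, _, _, _ => by simp at h
  | _, _ :: _, _ :: _, _ :: _, _ :: _, _ :: _, _ :: _, [], _, _, _, _, _, _, _, _, _, _, h, _, _ => by simp at h
  | _, _ :: _, _ :: _, _ :: _, _ :: _, _ :: _, _ :: _, _ :: _, [], _, _, _, _, _, _, _, _, _, _, h, _ => by simp at h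
  | _, _ :: _, _ :: _, _ :: _, _ :: _, _ :: _, _ :: _, _ :: _, _ :: _, [], _, _, _, _, _, _, _, _, _, _, h => by
    simp at h
  | 0, a :: A, b :: B, c :: C, x :: X, y :: Y, u :: U, v :: V, s :: S, t :: T, l0, h, _, _, _, _, _, _, _, _, _ => by
    rw [kchs3, Bool.and_eq_true] at h
    simpa using h.1
  | j + 1, a :: A, b :: B, c :: C, x :: X, y :: Y, u :: U, v :: V, s :: S, t :: T, l0, h, h1, h2, h3, h4, h5, h6, h7,
      h8, h9 => by
    rw [kchs3, Bool.and_eq_true] at h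
    have ih := kchs3_get j A B C X Y U V S T (l0 + 1) h.2 (by simpa using h1) (by simpa using h2) (by simpa using h3)
      (by simpa using h4) (by simpa using h5) (by simpa using h6) (by simpa using h7) (by simpa using h8)
      (by simpa using h9)
    simp only [List.getD_cons_succ]
    rw [show l0 + (j + 1) = l0 + 1 + j by ring]
    exact ih

/-! ### the multipliers -/

/-- entry `(i, j)` of one component of the multipliers -/
def k1 (bb κ R : ℕ) (K : List ℕ) (i j : ℕ) : ℝ := en κ ((kcols bb κ R 1 K).getD j []) i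

theorem k1_lt {bb κ R : ℕ} {K : List ℕ} (hK : K.length = R) {i j : ℕ} (hj : j < R) (hij : i ≤ j) :
    k1 bb κ R K i j = en κ (digs bb (1 + j) (K.getD j 0)) i := by
  unfold k1
  rw [kcols_get K 1 j (by omega), en_append_lt (by rw [digs_len]; omega)]

theorem k1_ge {bb κ R : ℕ} {K : List ℕ} (hK : K.length = R) {i j : ℕ} (hj : j < R) (hi : i < R) (hij : j < i) :
    k1 bb κ R K i j = 0 := by
  unfold k1
  rw [kcols_get K 1 j (by omega), en_append_ge (by rw [digs_len]; omega) (by rw [digs_len]; omega)]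

theorem kcols_len1 {bb κ R : ℕ} : ∀ (K : List ℕ) (l : ℕ), l + K.length ≤ R + 1 →
    ∀ c ∈ kcols bb κ R l K, c.length = R
  | [], _, _, c, h => by simp [kcols] at h
  | c0 :: K, l, hl, c, h => by
    simp only [kcols, List.mem_cons, List.length_cons] at h hl
    rcases h with rfl | h
    · rw [List.length_append, digs_len, List.length_replicate]
      omega
    · exact kcols_len1 K (l + 1) (by omega) c h

/-- **the multipliers are positive** -/
theorem k1_pos {bb κ R : ℕ} {A B C X Y U V S T : List ℕ} (h : kchs3 bb κ 1 A B C X Y U V S T = true)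
    (hA : A.length = R) (hB : B.length = R) (hC : C.length = R) (hX : X.length = R) (hY : Y.length = R)
    (hU : U.length = R) (hV : V.length = R) (hS : S.length = R) (hT : T.length = R) {i j : ℕ} (hi : i < R) (hj : j < R)
    (a1 a2 c1 c2 e1 e2 : ℝ) :
    0 ≤ h3 (k1 bb κ R A i j) (k1 bb κ R B i j) (k1 bb κ R C i j) (k1 bb κ R X i j) (k1 bb κ R Y i j)
      (k1 bb κ R U i j) (k1 bb κ R V i j) (k1 bb κ R S i j) (k1 bb κ R T i j) a1 a2 c1 c2 e1 e2 := by
  rcases Nat.lt_or_ge j i with hij | hij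
  · rw [k1_ge hA hj hi hij, k1_ge hB hj hi hij, k1_ge hC hj hi hij, k1_ge hX hj hi hij, k1_ge hY hj hi hij,
      k1_ge hU hj hi hij, k1_ge hV hj hi hij, k1_ge hS hj hi hij, k1_ge hT hj hi hij]
    simp [h3]
  · rw [k1_lt hA hj hij, k1_lt hB hj hij, k1_lt hC hj hij, k1_lt hX hj hij, k1_lt hY hj hij,
      k1_lt hU hj hij, k1_lt hV hj hij, k1_lt hS hj hij, k1_lt hT hj hij]
    have := kchs3_get j A B C X Y U V S T 1 h (by omega) (by omega) (by omega) (by omega) (by omega) (by omega)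
      (by omega) (by omega) (by omega)
    exact kch3_sound a1 a2 c1 c2 e1 e2 (1 + j) _ _ _ _ _ _ _ _ _ this i (by omega)


/-! ### the columns of one block -/

/-- negative digits -/
def ng (κ : ℕ) (l : List ℕ) : List ℕ := l.map fun x => 2 * κ - x

theorem rv_ng {κ X : ℕ} : ∀ l : List ℕ, (∀ x ∈ l, x ≤ 2 * κ) → rv X (ng κ l) + rv X l = 2 * κ * on X l.length
  | [], _ => by simp [ng, rv, on]
  | a :: l, h => by
    have ih := rv_ng (κ := κ) (X := X) l fun x hx => h x (List.mem_cons_of_mem _ hx)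
    have ha := h a (by simp)
    have e : on X (l.length + 1) = X ^ l.length + on X l.length := by
      rw [← rv_on, ← rv_on, List.replicate_succ, rv]
      simp
    unfold ng at ih ⊢
    simp only [List.map_cons, rv, List.length_map, List.length_cons, e]
    calc (2 * κ - a) * X ^ l.length + rv X (List.map (fun x => 2 * κ - x) l) + (a * X ^ l.length + rv X l)
        = ((2 * κ - a) + a) * X ^ l.length + (rv X (List.map (fun x => 2 * κ - x) l) + rv X l) := by ring
      _ = 2 * κ * X ^ l.length + 2 * κ * on X l.length := by rw [Nat.sub_add_cancel ha, ih]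
      _ = _ := by ring

theorem rv_ng' {κ X n : ℕ} {l : List ℕ} (hl : l.length = n) (h : ∀ x ∈ l, x ≤ 2 * κ) :
    2 * κ * on X n - rv X l = rv X (ng κ l) := by
  have := rv_ng (X := X) l h
  rw [hl] at this
  omega

/-- the columns of the real matrix of one block -/
def kcb (κ : ℕ) (Rc Ic : List (List ℕ)) : List (List ℕ) :=
  List.zipWith (fun r i => r ++ ng κ i) Rc Ic ++ List.zipWith (fun r i => ng κ i ++ ng κ r) Rc Ic

theorem zw_eq {κ X n : ℕ} : ∀ (Rc Ic : List (List ℕ)), (∀ c ∈ Rc, c.length = n ∧ ∀ x ∈ c, x ≤ 2 * κ) →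
    (∀ c ∈ Ic, c.length = n ∧ ∀ x ∈ c, x ≤ 2 * κ) →
    List.zipWith (fun r i => r * X ^ n + (2 * κ * on X n - i)) (Rc.map (rv X)) (Ic.map (rv X)) =
      (List.zipWith (fun r i => r ++ ng κ i) Rc Ic).map (rv X) ∧
    List.zipWith (fun r i => (2 * κ * on X n - i) * X ^ n + (2 * κ * on X n - r)) (Rc.map (rv X)) (Ic.map (rv X)) =
      (List.zipWith (fun r i => ng κ i ++ ng κ r) Rc Ic).map (rv X)
  | [], _, _, _ => by simp
  | _ :: _, [], _, _ => by simp
  | r :: Rc, i :: Ic, h1, h2 => by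
    obtain ⟨ih1, ih2⟩ := zw_eq (X := X) Rc Ic (fun c hc => h1 c (List.mem_cons_of_mem _ hc))
      fun c hc => h2 c (List.mem_cons_of_mem _ hc)
    obtain ⟨a1, a2⟩ := h1 r (by simp)
    obtain ⟨b1, b2⟩ := h2 i (by simp)
    simp only [List.map_cons, List.zipWith_cons_cons, ih1, ih2, rv_append, rv_ng' a1 a2, rv_ng' b1 b2]
    have e : ∀ l : List ℕ, (ng κ l).length = l.length := fun l => by simp [ng]
    rw [e i, e r, a1, b1]
    exact ⟨rfl, rfl⟩

theorem kps_eq {κ X n : ℕ} {Rc Ic : List (List ℕ)} (h1 : ∀ c ∈ Rc, c.length = n ∧ ∀ x ∈ c, x ≤ 2 * κ)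
    (h2 : ∀ c ∈ Ic, c.length = n ∧ ∀ x ∈ c, x ≤ 2 * κ) :
    kps (2 * κ * on X n) (X ^ n) (Rc.map (rv X)) (Ic.map (rv X)) = (kcb κ Rc Ic).map (rv X) := by
  obtain ⟨e1, e2⟩ := zw_eq (X := X) Rc Ic h1 h2
  unfold kps kcb
  rw [e1, e2, List.map_append]

theorem gm {α β : Type} (f : α → β) (d : α) (e : β) : ∀ (l : List α) (k : ℕ), k < l.length →
    (l.map f).getD k e = f (l.getD k d)
  | [], k, h => by simp at h
  | x :: l, 0, _ => by simp
  | x :: l, k + 1, h => by simpa using gm f d e l k (by simpa using h)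

theorem gz {α β γ : Type} (f : α → β → γ) (d : α) (e : β) (c : γ) : ∀ (l : List α) (m : List β) (k : ℕ),
    k < l.length → k < m.length → (List.zipWith f l m).getD k c = f (l.getD k d) (m.getD k e)
  | [], _, k, h, _ => by simp at h
  | _ :: _, [], k, _, h => by simp at h
  | x :: l, y :: m, 0, _, _ => by simp
  | x :: l, y :: m, k + 1, h1, h2 => by simpa using gz f d e c l m k (by simpa using h1) (by simpa using h2)

theorem en_ng {κ k : ℕ} {l : List ℕ} (hk : k < l.length) (h : ∀ x ∈ l, x ≤ 2 * κ) : en κ (ng κ l) k = -en κ l k := by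
  unfold en ng
  rw [gm (fun x => 2 * κ - x) 0 0 l k hk]
  have : l.getD k 0 ≤ 2 * κ := by
    rw [List.getD_eq_getElem _ _ hk]
    exact h _ (List.getElem_mem hk)
  rw [Nat.cast_sub this]
  push_cast
  ring

section Kcb

variable {κ n : ℕ} {Rc Ic : List (List ℕ)}

theorem getD_mem {α : Type} {l : List α} {k : ℕ} (d : α) (h : k < l.length) : l.getD k d ∈ l := by
  rw [List.getD_eq_getElem _ _ h]
  exact List.getElem_mem h

variable (h1 : ∀ c ∈ Rc, c.length = n ∧ ∀ x ∈ c, x ≤ 2 * κ) (h2 : ∀ c ∈ Ic, c.length = n ∧ ∀ x ∈ c, x ≤ 2 * κ)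
  (l1 : Rc.length = n) (l2 : Ic.length = n)
include h1 h2 l1 l2

omit h1 h2 in
theorem kcb_len : (kcb κ Rc Ic).length = 2 * n := by
  unfold kcb
  rw [List.length_append, List.length_zipWith, List.length_zipWith, l1, l2]
  omega

theorem kcb_ok : ∀ c ∈ kcb κ Rc Ic, c.length = 2 * n ∧ ∀ x ∈ c, x < 2 * κ + 1 := by
  have key : ∀ k < n, ((Rc.getD k []) ++ ng κ (Ic.getD k [])).length = 2 * n ∧
      (∀ x ∈ (Rc.getD k []) ++ ng κ (Ic.getD k []), x < 2 * κ + 1) ∧
      (ng κ (Ic.getD k []) ++ ng κ (Rc.getD k [])).length = 2 * n ∧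
      ∀ x ∈ ng κ (Ic.getD k []) ++ ng κ (Rc.getD k []), x < 2 * κ + 1 := by
    intro k hk
    obtain ⟨a1, a2⟩ := h1 _ (getD_mem [] (by omega : k < Rc.length))
    obtain ⟨b1, b2⟩ := h2 _ (getD_mem [] (by omega : k < Ic.length))
    refine ⟨?_, ?_, ?_, ?_⟩
    · rw [List.length_append, ng, List.length_map, a1, b1]
      ring
    · intro x hx
      rw [List.mem_append] at hx
      rcases hx with hx | hx
      · exact Nat.lt_succ_of_le (a2 x hx)
      · rw [ng, List.mem_map] at hx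
        obtain ⟨y, _, rfl⟩ := hx
        omega
    · rw [List.length_append, ng, ng, List.length_map, List.length_map, a1, b1]
      ring
    · intro x hx
      rw [List.mem_append] at hx
      rcases hx with hx | hx
      · rw [ng, List.mem_map] at hx
        obtain ⟨y, _, rfl⟩ := hx
        omega
      · rw [ng, List.mem_map] at hx
        obtain ⟨y, _, rfl⟩ := hx
        omega
  intro c hc
  unfold kcb at hc
  rw [List.mem_append] at hc
  rcases hc with hc | hc
  · obtain ⟨k, hk, rfl⟩ := List.getElem_of_mem hc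
    have hk' : k < n := by rw [List.length_zipWith, l1, l2] at hk; omega
    rw [← List.getD_eq_getElem _ [] hk, gz _ [] [] [] Rc Ic k (by omega) (by omega)]
    exact ⟨(key k hk').1, (key k hk').2.1⟩
  · obtain ⟨k, hk, rfl⟩ := List.getElem_of_mem hc
    have hk' : k < n := by rw [List.length_zipWith, l1, l2] at hk; omega
    rw [← List.getD_eq_getElem _ [] hk, gz _ [] [] [] Rc Ic k (by omega) (by omega)]
    exact ⟨(key k hk').2.2.1, (key k hk').2.2.2⟩

theorem kcb_get {i j : ℕ} (hi : i < n) (hj : j < n) :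
    en κ ((kcb κ Rc Ic).getD j []) i = en κ (Rc.getD j []) i ∧
    en κ ((kcb κ Rc Ic).getD j []) (n + i) = -en κ (Ic.getD j []) i ∧
    en κ ((kcb κ Rc Ic).getD (n + j) []) i = -en κ (Ic.getD j []) i ∧
    en κ ((kcb κ Rc Ic).getD (n + j) []) (n + i) = -en κ (Rc.getD j []) i := by
  obtain ⟨a1, a2⟩ := h1 _ (getD_mem [] (by omega : j < Rc.length))
  obtain ⟨b1, b2⟩ := h2 _ (getD_mem [] (by omega : j < Ic.length))
  have z1 : (List.zipWith (fun r i => r ++ ng κ i) Rc Ic).length = n := by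
    rw [List.length_zipWith, l1, l2, Nat.min_self]
  have e1 : (kcb κ Rc Ic).getD j [] = Rc.getD j [] ++ ng κ (Ic.getD j []) := by
    unfold kcb
    rw [List.getD_append _ _ _ _ (by omega), gz _ [] [] [] Rc Ic j (by omega) (by omega)]
  have e2 : (kcb κ Rc Ic).getD (n + j) [] = ng κ (Ic.getD j []) ++ ng κ (Rc.getD j []) := by
    unfold kcb
    rw [List.getD_append_right _ _ _ _ (by omega), z1, show n + j - n = j by omega,
      gz _ [] [] [] Rc Ic j (by omega) (by omega)]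
  have ln : ∀ l : List ℕ, (ng κ l).length = l.length := fun l => by simp [ng]
  rw [e1, e2]
  refine ⟨?_, ?_, ?_, ?_⟩
  · unfold en
    rw [List.getD_append _ _ _ _ (by omega)]
  · unfold en
    rw [List.getD_append_right _ _ _ _ (by omega), a1, show n + i - n = i by omega]
    exact en_ng (by omega) b2
  · have : en κ (ng κ (Ic.getD j []) ++ ng κ (Rc.getD j [])) i = en κ (ng κ (Ic.getD j [])) i := by
      unfold en
      rw [List.getD_append _ _ _ _ (by rw [ln]; omega)]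
    rw [this]
    exact en_ng (by omega) b2
  · have : en κ (ng κ (Ic.getD j []) ++ ng κ (Rc.getD j [])) (n + i) = en κ (ng κ (Rc.getD j [])) i := by
      unfold en
      rw [List.getD_append_right _ _ _ _ (by rw [ln]; omega), ln, b1, show n + i - n = i by omega]
    rw [this]
    exact en_ng (by omega) a2

/-- the product part -/
theorem prod_sum (x y : ℕ → ℝ) :
    ∑ k ∈ Finset.range (2 * n), x k * ∑ l ∈ Finset.range (2 * n), y l * en κ ((kcb κ Rc Ic).getD l []) k =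
    ∑ i ∈ Finset.range n, ∑ j ∈ Finset.range n,
      (en κ (Rc.getD j []) i * (x i * y j - x (n + i) * y (n + j))
        - en κ (Ic.getD j []) i * (x i * y (n + j) + x (n + i) * y j)) := by
  have s2 : ∀ f : ℕ → ℝ, ∑ k ∈ Finset.range (2 * n), f k =
      ∑ k ∈ Finset.range n, (f k + f (n + k)) := by
    intro f
    rw [two_mul, Finset.sum_range_add, Finset.sum_add_distrib]
  rw [s2]
  refine Finset.sum_congr rfl fun i hi => ?_
  have hi' := Finset.mem_range.1 hi
  rw [s2, s2, Finset.mul_sum, Finset.mul_sum, ← Finset.sum_add_distrib]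
  refine Finset.sum_congr rfl fun j hj => ?_
  obtain ⟨g1, g2, g3, g4⟩ := kcb_get h1 h2 l1 l2 hi' (Finset.mem_range.1 hj)
  rw [g1, g2, g3, g4]
  ring

end Kcb

/-! ### one entry -/

theorem dt_app : ∀ (l m l' m' : List ℕ), l.length = l'.length → dt (l ++ m) (l' ++ m') = dt l l' + dt m m'
  | [], _, [], _, _ => by simp [dt]
  | a :: l, m, c :: l', m', h => by
    simp only [List.cons_append, dt, dt_app l m l' m' (by simpa using h)]
    ring
  | [], _, _ :: _, _, h => by simp at h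
  | _ :: _, _, [], _, h => by simp at h

theorem pk_app (X : ℕ) (m : List ℕ) : ∀ l : List ℕ, pk X (l ++ m) = pk X l + X ^ l.length * pk X m
  | [] => by simp [pk]
  | a :: l => by
    rw [List.cons_append, pk, pk, pk_app X m l, List.length_cons, pow_succ]
    ring

/-- a vector of digits -/
def VD (n b : ℕ) (l : List ℕ) : Prop := l.length = n ∧ ∀ x ∈ l, x < b

section Entry

variable {K R b h X lam tau bL : ℕ}

/-- the true value of one ordered pair -/
def tr (h lam tau K R : ℕ) (a c g t : List ℕ) : ℝ := sp h K a c + spl lam tau R g t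

theorem tr_eq {a c g t : List ℕ} (ha : a.length = K) (hc : c.length = K) (hg : g.length = R) (ht : t.length = R) :
    tr h lam tau K R a c g t = ((dt (a ++ g) (c ++ t) : ℕ) : ℝ)
      - ((h * sm a + tau * sm g : ℕ) + (h * sm c + lam * sm t : ℕ) : ℝ) + ((K * h ^ 2 + R * lam * tau : ℕ) : ℝ) := by
  unfold tr
  rw [sp_eq h K a c ha hc, spl_eq g t hg ht, dt_app a g c t (by omega)]
  push_cast
  ring

/-- **the test at one entry** -/
theorem entry {nε ε : ℕ} {dg : Bool} {s : ℤ} (hK : 0 < K) (hb : 0 < b)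
    (hX : 2 * ((K + R) * ((b + bL) * (b + 2 * tau))) + 3 ≤ X) {a c g t a' c' g' t' : List ℕ}
    (ha : VD K b a) (hc : VD K b c) (hg : VD R bL g) (ht : VD R (2 * tau + 1) t)
    (ha' : VD K b a') (hc' : VD K b c') (hg' : VD R bL g') (ht' : VD R (2 * tau + 1) t') {w w' : ℕ}
    (hw : w = h * sm a + tau * sm g + (h * sm c + lam * sm t))
    (hw' : w' = h * sm a' + tau * sm g' + (h * sm c' + lam * sm t'))
    (H1 : dg = false → s + (2 * (w + w') : ℕ) ≤ (2 * ((pk X (a ++ g) * rv X (c' ++ t') +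
      pk X (a' ++ g') * rv X (c ++ t)) / X ^ (K + R - 1) % X) + 4 * (K * h ^ 2 + R * lam * tau) : ℕ) + (ε : ℤ))
    (H2 : dg = false → (((2 * ((pk X (a ++ g) * rv X (c' ++ t') +
      pk X (a' ++ g') * rv X (c ++ t)) / X ^ (K + R - 1) % X) + 4 * (K * h ^ 2 + R * lam * tau) : ℕ)) : ℤ) ≤
        s + (2 * (w + w') : ℕ) + ε)
    (H3 : dg = true → (((2 * ((pk X (a ++ g) * rv X (c' ++ t') +
      pk X (a' ++ g') * rv X (c ++ t)) / X ^ (K + R - 1) % X) + 4 * (K * h ^ 2 + R * lam * tau) : ℕ)) : ℤ) + nε ≤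
        s + (2 * (w + w') : ℕ)) :
    (dg = false → |(s : ℝ) - 2 * (tr h lam tau K R a c' g t' + tr h lam tau K R a' c g' t)| ≤ ε) ∧
    (dg = true → (nε : ℝ) ≤ (s : ℝ) - 2 * (tr h lam tau K R a c' g t' + tr h lam tau K R a' c g' t)) := by
  have V1 : ∀ {l m : List ℕ}, VD K b l → VD R bL m → (l ++ m).length = K + R ∧ ∀ x ∈ l ++ m, x < b + bL := by
    intro l m hl hm
    refine ⟨by rw [List.length_append, hl.1, hm.1], fun x hx => ?_⟩
    rw [List.mem_append] at hx
    rcases hx with hx | hx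
    · have := hl.2 x hx
      omega
    · have := hm.2 x hx
      omega
  have V2 : ∀ {l m : List ℕ}, VD K b l → VD R (2 * tau + 1) m →
      (l ++ m).length = K + R ∧ ∀ x ∈ l ++ m, x < b + 2 * tau + 1 := by
    intro l m hl hm
    refine ⟨by rw [List.length_append, hl.1, hm.1], fun x hx => ?_⟩
    rw [List.mem_append] at hx
    rcases hx with hx | hx
    · have := hl.2 x hx
      omega
    · have := hm.2 x hx
      omega
  have hXX : 2 * ((K + R) * ((b + bL - 1) * (b + 2 * tau + 1 - 1))) < X := by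
    have : (K + R) * ((b + bL - 1) * (b + 2 * tau + 1 - 1)) ≤ (K + R) * ((b + bL) * (b + 2 * tau)) :=
      Nat.mul_le_mul_left _ (Nat.mul_le_mul (by omega) (by omega))
    omega
  have e := mid2 (b := b + bL) (c := b + 2 * tau + 1) (X := X) (L := K + R) (by omega) (by omega) hXX (by omega)
    (by omega) (V1 ha hg).1 (V2 hc' ht').1 (V1 ha' hg').1 (V2 hc ht).1 (V1 ha hg).2 (V2 hc' ht').2 (V1 ha' hg').2
    (V2 hc ht).2
  rw [e] at H1 H2 H3
  have t1 := tr_eq (h := h) (lam := lam) (tau := tau) ha.1 hc'.1 hg.1 ht'.1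
  have t2 := tr_eq (h := h) (lam := lam) (tau := tau) ha'.1 hc.1 hg'.1 ht.1
  set D1 := dt (a ++ g) (c' ++ t')
  set D2 := dt (a' ++ g') (c ++ t)
  have key : (s : ℝ) - 2 * (tr h lam tau K R a c' g t' + tr h lam tau K R a' c g' t) =
      ((s + (2 * (w + w') : ℕ) : ℤ) : ℝ) - ((2 * (D1 + D2) + 4 * (K * h ^ 2 + R * lam * tau) : ℕ) : ℝ) := by
    rw [t1, t2, hw, hw']
    push_cast
    ring
  rw [key]
  refine ⟨fun hd => ?_, fun hd => ?_⟩
  · have h1 : (((s + (2 * (w + w') : ℕ) : ℤ)) : ℝ) ≤ ((2 * (D1 + D2) + 4 * (K * h ^ 2 + R * lam * tau) : ℕ) : ℝ) + ε := by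
      exact_mod_cast H1 hd
    have h2 : (((2 * (D1 + D2) + 4 * (K * h ^ 2 + R * lam * tau) : ℕ)) : ℝ) ≤ ((s + (2 * (w + w') : ℕ) : ℤ) : ℝ) + ε := by
      exact_mod_cast H2 hd
    rw [abs_le]
    constructor <;> linarith
  · have h3 : (((2 * (D1 + D2) + 4 * (K * h ^ 2 + R * lam * tau) : ℕ)) : ℝ) + nε ≤ ((s + (2 * (w + w') : ℕ) : ℤ) : ℝ) := by
      exact_mod_cast H3 hd
    linarith

end Entry


/-! ### one block -/

section Block

variable {n1 nF bL lam bK kap tau X b h K ε nε : ℕ}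

/-- digit rows of a factor -/
def dgr (b K : ℕ) (G : List ℕ) : List (List ℕ) := G.map fun c => digs b K (utg c)

/-- entries of the factor -/
def gma (b h K : ℕ) (G : List ℕ) (p k : ℕ) : ℝ := en h ((dgr b K G).getD p []) k

/-- real parts of the forms -/
def fre (bL lam nF : ℕ) (Fl : List ℕ) (i p : ℕ) : ℝ := en lam ((dgr bL (2 * nF) Fl).getD p []) i

/-- imaginary parts of the forms -/
def fim (bL lam nF : ℕ) (Fl : List ℕ) (i p : ℕ) : ℝ := en lam ((dgr bL (2 * nF) Fl).getD p []) (nF + i)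

/-- the value of one ordered pair, in terms of the data -/
def vl (K nF : ℕ) (ga gb : ℕ → ℕ → ℝ) (fr fi : ℕ → ℕ → ℝ) (kr ki : ℕ → ℕ → ℝ) (p q : ℕ) : ℝ :=
  (∑ k ∈ Finset.range K, ga p k * gb (rp q) k) + ∑ i ∈ Finset.range nF, ∑ j ∈ Finset.range nF,
    (kr i j * (fr i p * fr j q - fi i p * fi j q) - ki i j * (fr i p * fi j q + fi i p * fr j q))

theorem vd_dgr {b K : ℕ} (hb : 0 < b) {G : List ℕ} {p : ℕ} (hp : p < G.length) : VD K b ((dgr b K G).getD p []) := by
  unfold dgr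
  rw [gm (fun c => digs b K (utg c)) 0 [] G p hp]
  exact ⟨digs_len b K _, digs_lt hb K _⟩

/-- the result of the test of a block -/
def BR (n1 K nF ε nε : ℕ) (dgb : Bool) (S : ℕ → ℕ → ℤ) (ga gb : ℕ → ℕ → ℝ) (fr fi : ℕ → ℕ → ℝ)
    (kr ki : ℕ → ℕ → ℝ) : Prop :=
  ∀ p q, p ≤ q → q < 2 * n1 + 1 →
    ((dgb && q == rp p) = false → |(S p q : ℝ) - 2 * (vl K nF ga gb fr fi kr ki p q + vl K nF ga gb fr fi kr ki q p)| ≤ ε) ∧
    ((dgb && q == rp p) = true → (nε : ℝ) ≤
      (S p q : ℝ) - 2 * (vl K nF ga gb fr fi kr ki p q + vl K nF ga gb fr fi kr ki q p))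

variable (hK : 0 < K) (hb : 0 < b) (hbL : 0 < bL) (hlam : lam ≤ bL)
  (htau : 2 * nF * bL * (2 * kap + 1) ≤ tau)
  (hX : 2 * ((K + 2 * nF) * ((b + bL) * (b + 2 * tau))) + 3 ≤ X) (hX2 : K * b + 2 ≤ X)
  (hX3 : 2 * nF * (2 * tau) + 2 ≤ X)
include hK hb hbL hlam htau hX hX2 hX3

theorem block_sound {Fl Ga Gb : List ℕ} {S : ℕ → ℕ → ℤ} (hF : Fl.length = 2 * n1 + 1) (hGa : Ga.length = 2 * n1 + 1)
    (hGb : Gb.length = 2 * n1 + 1) {Rc Ic : List (List ℕ)} (h1 : ∀ c ∈ Rc, c.length = nF ∧ ∀ x ∈ c, x ≤ 2 * kap)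
    (h2 : ∀ c ∈ Ic, c.length = nF ∧ ∀ x ∈ c, x ≤ 2 * kap) (l1 : Rc.length = nF) (l2 : Ic.length = nF) {dgb : Bool}
    {k : List ℕ → List ℕ → Bool} {Ps : List ℕ}
    (hPs : Ps = List.zipWith (fun c f => pkc b X K (utg c) 1 0 + X ^ K * f) Ga
      (Fl.map fun c => pkc bL X (2 * nF) (utg c) 1 0))
    (hk : ∀ Rs Ws : List ℕ, Rs.length = 2 * n1 + 1 → Ws.length = 2 * n1 + 1 → k Rs Ws = true →
      ∀ p q, p ≤ q → q < 2 * n1 + 1 → EB (X ^ (K + 2 * nF - 1)) X ε nε (4 * (K * h ^ 2 + 2 * nF * lam * tau))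
        (dgb && q == rp p) (S p q) Ps Rs Ws p q)
    (H : bk X (X ^ (2 * nF)) lam
      (List.zipWith (fun r s => h * (r % (X - 1)) + s) (Ga.map fun c => rvc b X K (utg c) 0)
        (Fl.map fun c => tau * sm (digs bL (2 * nF) (utg c))))
      (sw0 ((Gb.map fun c => rvc b X K (utg c) 0).map fun r => h * (r % (X - 1))))
      (sw0 (Gb.map fun c => rvc b X K (utg c) 0))
      (rts X (2 * nF) lam kap tau (Fl.map fun c => digs bL (2 * nF) (utg c))
        (kps (2 * kap * on X nF) (X ^ nF) (Rc.map (rv X)) (Ic.map (rv X)))) k = true) :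
    BR n1 K nF ε nε dgb S (gma b h K Ga) (gma b h K Gb) (fre bL lam nF Fl) (fim bL lam nF Fl)
      (fun i j => en kap (Rc.getD j []) i) (fun i j => en kap (Ic.getD j []) i) := by
  set R := 2 * nF with hR
  set n0 := 2 * n1 + 1 with hn0
  rw [kps_eq h1 h2] at H
  have okc := kcb_ok h1 h2 l1 l2
  have lkc := kcb_len (κ := kap) l1 l2
  set Kc := kcb kap Rc Ic with hKc
  -- the columns `T`
  set T := tcol R lam kap tau Kc with hT
  have spec := fun (a : List ℕ) (ha : a.length = R) (ha' : ∀ x ∈ a, x < bL) =>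
    tcol_spec (R := R) (bL := bL) (bK := 2 * kap + 1) (lam := lam) (kap := kap) (tau := tau) (Z := X) hbL
      (by omega) (Kc := Kc) lkc okc hlam (by omega) htau ha ha'
  set g := dgr bL R Fl with hg
  have gl : g.length = n0 := by rw [hg, dgr, List.length_map, hF]
  have vg : ∀ p < n0, VD R bL (g.getD p []) := fun p hp => vd_dgr hbL (by omega)
  have va : ∀ p < n0, VD K b ((dgr b K Ga).getD p []) := fun p hp => vd_dgr hb (by omega)
  have vb : ∀ p < n0, VD K b ((dgr b K Gb).getD p []) := fun p hp => vd_dgr hb (by omega)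
  have vt : ∀ p < n0, VD R (2 * tau + 1) (T (g.getD p [])) := fun p hp =>
    ⟨(spec _ (vg p hp).1 (vg p hp).2).1, (spec _ (vg p hp).1 (vg p hp).2).2.1⟩
  -- the lists of the test
  set RT := rts X R lam kap tau g (Kc.map (rv X)) with hRT
  have lRT : RT.length = n0 := by rw [hRT, rts, List.length_map, gl]
  have gRT : ∀ q < n0, RT.getD q 0 = rv X (T (g.getD q [])) := by
    intro q hq
    rw [hRT, rts, gm _ [] 0 g q (by omega)]
    exact (spec _ (vg q hq).1 (vg q hq).2).2.2.2.symm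
  have smd : ∀ {l : List ℕ}, VD K b l → rv X l % (X - 1) = sm l := by
    intro l hl
    have h3 := sm_lt l hl.2
    rw [hl.1] at h3
    have h4 : K * (b - 1) ≤ K * b := Nat.mul_le_mul_left _ (by omega)
    rw [rv_mod (by omega), Nat.mod_eq_of_lt (by omega)]
  have smt : ∀ {l : List ℕ}, VD R (2 * tau + 1) l → rv X l % (X - 1) = sm l := by
    intro l hl
    have h3 := sm_lt l hl.2
    rw [hl.1, Nat.add_sub_cancel] at h3
    rw [rv_mod (by omega), Nat.mod_eq_of_lt (by omega)]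
  have grb : ∀ (G : List ℕ), ∀ q, q < G.length → (G.map fun c => rvc b X K (utg c) 0).getD q 0 =
      rv X ((dgr b K G).getD q []) := by
    intro G q hq
    rw [gm _ 0 0 G q hq, dgr, gm (fun c => digs b K (utg c)) 0 [] G q hq, rvc_eq]
    simp
  unfold bk at H
  set Rs := List.zipWith (fun e t => e * X ^ R + t) (sw0 (Gb.map fun c => rvc b X K (utg c) 0)) RT with hRs
  set Ws := List.zipWith (fun s t => s + lam * (t % (X - 1)))
    (List.zipWith (fun s s' => s + s') (List.zipWith (fun r s => h * (r % (X - 1)) + s)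
      (Ga.map fun c => rvc b X K (utg c) 0) (Fl.map fun c => tau * sm (digs bL R (utg c))))
      (sw0 ((Gb.map fun c => rvc b X K (utg c) 0).map fun r => h * (r % (X - 1))))) RT with hWs
  have lsb : (sw0 (Gb.map fun c => rvc b X K (utg c) 0)).length = n0 := by
    rw [sw0_len (n := n0)]
    rw [List.length_map, hGb]
  have lsb' : (sw0 ((Gb.map fun c => rvc b X K (utg c) 0).map fun r => h * (r % (X - 1)))).length = n0 := by
    rw [sw0_len (n := n0)]
    rw [List.length_map, List.length_map, hGb]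
  have la : (List.zipWith (fun r s => h * (r % (X - 1)) + s)
      (Ga.map fun c => rvc b X K (utg c) 0) (Fl.map fun c => tau * sm (digs bL R (utg c)))).length = n0 := by
    rw [List.length_zipWith, List.length_map, List.length_map, hGa, hF, Nat.min_self]
  have lab : (List.zipWith (fun s s' => s + s') (List.zipWith (fun r s => h * (r % (X - 1)) + s)
      (Ga.map fun c => rvc b X K (utg c) 0) (Fl.map fun c => tau * sm (digs bL R (utg c))))
      (sw0 ((Gb.map fun c => rvc b X K (utg c) 0).map fun r => h * (r % (X - 1))))).length = n0 := by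
    rw [List.length_zipWith, la, lsb', Nat.min_self]
  have lRs : Rs.length = n0 := by rw [hRs, List.length_zipWith, lsb, lRT, Nat.min_self]
  have lWs : Ws.length = n0 := by rw [hWs, List.length_zipWith, lab, lRT, Nat.min_self]
  have gPs : ∀ p < n0, Ps.getD p 0 = pk X ((dgr b K Ga).getD p [] ++ g.getD p []) := by
    intro p hp
    rw [hPs, gz _ 0 0 0 Ga _ p (by omega) (by rw [List.length_map]; omega),
      gm _ 0 0 Fl p (by omega), pk_app, (va p hp).1, dgr, gm (fun c => digs b K (utg c)) 0 [] Ga p (by omega),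
      hg, dgr, gm (fun c => digs bL R (utg c)) 0 [] Fl p (by omega), pkc_eq, pkc_eq]
    simp
  have gRs : ∀ q < n0, Rs.getD q 0 = rv X ((dgr b K Gb).getD (rp q) [] ++ T (g.getD q [])) := by
    intro q hq
    have hr := rp_lt hq
    rw [hRs, gz _ 0 0 0 _ RT q (by omega) (by omega), gRT q hq, sw0_get 0 (n := n1) (by rw [List.length_map, hGb]) hq,
      grb Gb (rp q) (by omega), rv_append, (vt q hq).1]
  have gWs : ∀ q < n0, Ws.getD q 0 = h * sm ((dgr b K Ga).getD q []) + tau * sm (g.getD q []) +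
      (h * sm ((dgr b K Gb).getD (rp q) []) + lam * sm (T (g.getD q []))) := by
    intro q hq
    have hr := rp_lt hq
    rw [hWs, gz _ 0 0 0 _ RT q (by omega) (by omega), gRT q hq, smt (vt q hq),
      gz _ 0 0 0 _ _ q (by omega) (by omega), gz _ 0 0 0 _ _ q (by rw [List.length_map]; omega)
        (by rw [List.length_map]; omega), grb Ga q (by omega), smd (va q hq), gm _ 0 0 Fl q (by omega),
      sw0_get 0 (n := n1) (by rw [List.length_map, List.length_map, hGb]) hq,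
      gm _ 0 0 _ (rp q) (by rw [List.length_map]; omega), grb Gb (rp q) (by omega), smd (vb (rp q) hr)]
    have e : g.getD q [] = digs bL R (utg (Fl.getD q 0)) := by
      rw [hg, dgr, gm (fun c => digs bL R (utg c)) 0 [] Fl q (by omega)]
    rw [e]
    ring
  have key := hk Rs Ws lRs lWs H
  intro p q hpq hq
  have hp : p < n0 := by omega
  have hrp := rp_lt hp
  have hrq := rp_lt hq
  obtain ⟨k1, k2, k3⟩ := key p q hpq hq
  unfold mv at k1 k2 k3
  rw [gPs p hp, gPs q hq, gRs p hp, gRs q hq] at k1 k2 k3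
  have ent := entry (K := K) (R := R) (b := b) (h := h) (X := X) (lam := lam) (tau := tau) (bL := bL) (nε := nε) (ε := ε)
    (dg := dgb && q == rp p) (s := S p q) hK hb hX (va p hp) (vb (rp p) hrp) (vg p hp) (vt p hp)
    (va q hq) (vb (rp q) hrq) (vg q hq) (vt q hq) (gWs p hp) (gWs q hq) k1 k2 k3
  have tv : ∀ p q, p < n0 → q < n0 → tr h lam tau K R ((dgr b K Ga).getD p []) ((dgr b K Gb).getD (rp q) [])
      (g.getD p []) (T (g.getD q [])) = vl K nF (gma b h K Ga) (gma b h K Gb) (fre bL lam nF Fl) (fim bL lam nF Fl)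
      (fun i j => en kap (Rc.getD j []) i) (fun i j => en kap (Ic.getD j []) i) p q := by
    intro p q hp hq
    unfold tr vl sp spl gma fre fim
    congr 1
    have e1 : ∑ k ∈ Finset.range R, en lam (g.getD p []) k * en tau (T (g.getD q [])) k =
        ∑ k ∈ Finset.range R, en lam (g.getD p []) k *
          ∑ l ∈ Finset.range R, en lam (g.getD q []) l * en kap (Kc.getD l []) k := by
      refine Finset.sum_congr rfl fun k hk' => ?_
      rw [(spec _ (vg q hq).1 (vg q hq).2).2.2.1 k (Finset.mem_range.1 hk')]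
    rw [e1, hR, hKc, prod_sum h1 h2 l1 l2 (fun k => en lam (g.getD p []) k) (fun l => en lam (g.getD q []) l)]
  rw [tv p q hp hq, tv q p hq hp] at ent
  exact ent

end Block


/-! ### the final inequality -/

/-- the values of the table -/
def SS (s : ℕ → ℕ → ℤ) (p q : ℕ) : ℝ := if p ≤ q then (s p q : ℝ) else (s q p : ℝ)

theorem SS_symm (s : ℕ → ℕ → ℤ) (p q : ℕ) : SS s p q = SS s q p := by
  unfold SS
  rcases Nat.lt_trichotomy p q with h | h | h
  · rw [if_pos h.le, if_neg (by omega)]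
  · rw [h]
  · rw [if_neg (by omega), if_pos h.le]

/-- the multipliers as complex matrices -/
def km (bK kap nF : ℕ) (K00 K11 K22 R01 I01 R02 I02 R12 I12 : List ℕ) (i j : ℕ) (a b : ℕ) : ℂ :=
  match a, b with
  | 0, 0 => ⟨k1 bK kap nF (K00.map utg) i j, 0⟩
  | 1, 1 => ⟨k1 bK kap nF (K11.map utg) i j, 0⟩
  | 2, 2 => ⟨k1 bK kap nF (K22.map utg) i j, 0⟩
  | 0, 1 => ⟨k1 bK kap nF (R01.map utg) i j, k1 bK kap nF (I01.map utg) i j⟩
  | 0, 2 => ⟨k1 bK kap nF (R02.map utg) i j, k1 bK kap nF (I02.map utg) i j⟩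
  | 1, 2 => ⟨k1 bK kap nF (R12.map utg) i j, k1 bK kap nF (I12.map utg) i j⟩
  | 1, 0 => ⟨k1 bK kap nF (R01.map utg) i j, -k1 bK kap nF (I01.map utg) i j⟩
  | 2, 0 => ⟨k1 bK kap nF (R02.map utg) i j, -k1 bK kap nF (I02.map utg) i j⟩
  | 2, 1 => ⟨k1 bK kap nF (R12.map utg) i j, -k1 bK kap nF (I12.map utg) i j⟩
  | _, _ => 0

/-- the forms as complex numbers -/
def fc (bL lam nF : ℕ) (Fl : List ℕ) (i p : ℕ) : ℂ := ⟨fre bL lam nF Fl i p, fim bL lam nF Fl i p⟩

/-- the table after the products, `a ≤ b` -/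
def XU (nF : ℕ) (S : ℕ → ℕ → ℕ → ℕ → ℤ) (f : ℕ → ℕ → ℂ) (K : ℕ → ℕ → ℕ → ℕ → ℂ) (a b p q : ℕ) : ℝ :=
  SS (S a b) p q - 2 * ∑ i ∈ Finset.range nF, ∑ j ∈ Finset.range nF, (K i j a b * (f i p * f j q + f i q * f j p)).re

/-- the matrix after the products -/
def XX (nF : ℕ) (S : ℕ → ℕ → ℕ → ℕ → ℤ) (f : ℕ → ℕ → ℂ) (K : ℕ → ℕ → ℕ → ℕ → ℂ) (a p b q : ℕ) : ℝ :=
  if a ≤ b then XU nF S f K a b p (rp q) else XU nF S f K b a q (rp p)

theorem XU_symm (nF : ℕ) (S : ℕ → ℕ → ℕ → ℕ → ℤ) (f : ℕ → ℕ → ℂ) (K : ℕ → ℕ → ℕ → ℕ → ℂ) (a b p q : ℕ) :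
    XU nF S f K a b p q = XU nF S f K a b q p := by
  unfold XU
  rw [SS_symm]
  congr 2
  refine Finset.sum_congr rfl fun i _ => Finset.sum_congr rfl fun j _ => ?_
  rw [add_comm (f i p * f j q)]

/-- a diagonally dominant form is nonnegative -/
theorem dom {ι : Type} [DecidableEq ι] (s : Finset ι) (E : ι → ι → ℝ) (ε nε : ℝ) (hε : 0 ≤ ε) (hn : s.card * ε ≤ nε)
    (h1 : ∀ i ∈ s, ∀ j ∈ s, i ≠ j → |E i j| ≤ ε) (h2 : ∀ i ∈ s, nε ≤ E i i) (x : ι → ℝ) :
    0 ≤ ∑ i ∈ s, ∑ j ∈ s, E i j * (x i * x j) := by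
  have key : ∑ i ∈ s, ∑ j ∈ s, (-(ε * (|x i| * |x j|)) + if i = j then nε * x i ^ 2 else 0) ≤
      ∑ i ∈ s, ∑ j ∈ s, E i j * (x i * x j) := by
    refine Finset.sum_le_sum fun i hi => Finset.sum_le_sum fun j hj => ?_
    by_cases hij : i = j
    · subst hij
      rw [if_pos rfl]
      have h3 := mul_le_mul_of_nonneg_right (h2 i hi) (mul_self_nonneg (x i))
      have h4 : 0 ≤ ε * (|x i| * |x i|) := by positivity
      nlinarith
    · rw [if_neg hij, add_zero]
      have h3 := h1 i hi j hj hij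
      have h4 : |E i j * (x i * x j)| ≤ ε * (|x i| * |x j|) := by
        rw [abs_mul, abs_mul]
        exact mul_le_mul_of_nonneg_right h3 (by positivity)
      exact (abs_le.1 h4).1
  refine le_trans ?_ key
  have e : ∑ i ∈ s, ∑ j ∈ s, (-(ε * (|x i| * |x j|)) + if i = j then nε * x i ^ 2 else 0) =
      nε * ∑ i ∈ s, x i ^ 2 - ε * (∑ i ∈ s, |x i|) ^ 2 := by
    simp only [Finset.sum_add_distrib, Finset.sum_ite_eq]
    rw [pow_two (∑ i ∈ s, |x i|), Finset.sum_mul_sum, Finset.mul_sum, Finset.mul_sum]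
    simp only [Finset.mul_sum, Finset.sum_neg_distrib]
    rw [Finset.sum_congr rfl fun i hi => if_pos hi]
    ring
  rw [e]
  have h3 : (∑ i ∈ s, |x i|) ^ 2 ≤ s.card * ∑ i ∈ s, x i ^ 2 := by
    refine le_trans sq_sum_le_card_mul_sum_sq (le_of_eq ?_)
    congr 1
    exact Finset.sum_congr rfl fun i _ => sq_abs (x i)
  have h4 : 0 ≤ ∑ i ∈ s, x i ^ 2 := Finset.sum_nonneg fun i _ => sq_nonneg _
  nlinarith [mul_le_mul_of_nonneg_left h3 hε, mul_le_mul_of_nonneg_right hn h4]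

/-- four sums as two sums over pairs -/
theorem four (m n : ℕ) (F : ℕ → ℕ → ℕ → ℕ → ℝ) :
    ∑ a ∈ Finset.range m, ∑ b ∈ Finset.range m, ∑ p ∈ Finset.range n, ∑ q ∈ Finset.range n, F a p b q =
    ∑ i ∈ Finset.range m ×ˢ Finset.range n, ∑ j ∈ Finset.range m ×ˢ Finset.range n, F i.1 i.2 j.1 j.2 := by
  simp only [Finset.sum_product]
  refine Finset.sum_congr rfl fun a _ => ?_
  rw [Finset.sum_comm]

theorem gsum {ι : Type} (s : Finset ι) (t : Finset ℕ) (g : ι → ℕ → ℝ) (y : ι → ℝ) :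
    ∑ i ∈ s, ∑ j ∈ s, (4 * ∑ k ∈ t, g i k * g j k) * (y i * y j) = 4 * ∑ k ∈ t, (∑ i ∈ s, g i k * y i) ^ 2 := by
  have e1 : ∀ k, (∑ i ∈ s, g i k * y i) ^ 2 = ∑ i ∈ s, ∑ j ∈ s, (g i k * g j k) * (y i * y j) := by
    intro k
    rw [pow_two, Finset.sum_mul_sum]
    refine Finset.sum_congr rfl fun i _ => Finset.sum_congr rfl fun j _ => ?_
    ring
  simp only [e1]
  have e2 : ∑ k ∈ t, ∑ i ∈ s, ∑ j ∈ s, (g i k * g j k) * (y i * y j) =
      ∑ i ∈ s, ∑ j ∈ s, ∑ k ∈ t, (g i k * g j k) * (y i * y j) := by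
    rw [Finset.sum_comm]
    refine Finset.sum_congr rfl fun i _ => ?_
    rw [Finset.sum_comm]
  rw [e2, Finset.mul_sum]
  refine Finset.sum_congr rfl fun i _ => ?_
  rw [Finset.mul_sum]
  refine Finset.sum_congr rfl fun j _ => ?_
  rw [← Finset.sum_mul]
  ring

section Main

variable {n1 nF bL lam bK kap tau X b h K ε nε : ℕ} {Fl K00 K11 K22 R01 I01 R02 I02 R12 I12 G0 G1 G2 : List ℕ}
  {S : ℕ → ℕ → ℕ → ℕ → ℤ}

theorem cols_ok (h1 : kap < bK) (h2 : bK ≤ 2 * kap + 1) {K : List ℕ} (hK : K.length = nF) :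
    (∀ c ∈ kcols bK kap nF 1 (K.map utg), c.length = nF ∧ ∀ x ∈ c, x ≤ 2 * kap) ∧
      (kcols bK kap nF 1 (K.map utg)).length = nF := by
  refine ⟨fun c hc => ⟨kcols_len1 _ 1 (by rw [List.length_map]; omega) c hc, fun x hx => ?_⟩, ?_⟩
  · have := kcols_lt h1 _ 1 c hc x hx
    omega
  · rw [kcols_len, List.length_map, hK]

theorem rep_ok : (∀ c ∈ List.replicate nF (List.replicate nF kap), c.length = nF ∧ ∀ x ∈ c, x ≤ 2 * kap) ∧
    (List.replicate nF (List.replicate nF kap)).length = nF := by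
  refine ⟨fun c hc => ?_, List.length_replicate⟩
  rw [List.eq_of_mem_replicate hc]
  refine ⟨List.length_replicate, fun x hx => ?_⟩
  rw [List.eq_of_mem_replicate hx]
  omega

theorem rep_map : (List.replicate nF (List.replicate nF kap)).map (rv X) = List.replicate nF (kap * on X nF) := by
  rw [List.map_replicate, rv_rep]

theorem rep_en {i j : ℕ} (hi : i < nF) (hj : j < nF) :
    en kap ((List.replicate nF (List.replicate nF kap)).getD j []) i = 0 := by
  have e1 : (List.replicate nF (List.replicate nF kap)).getD j [] = List.replicate nF kap := by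
    rw [List.getD_eq_getElem _ _ (by rw [List.length_replicate]; exact hj), List.getElem_replicate]
  have e2 : (List.replicate nF kap).getD i 0 = kap := by
    rw [List.getD_eq_getElem _ _ (by rw [List.length_replicate]; exact hi), List.getElem_replicate]
  unfold en
  rw [e1, e2, sub_self]

/-- the six blocks -/
theorem blocks (ht : chk n1 nF bL lam bK kap tau X b h K ε nε Fl K00 K11 K22 R01 I01 R02 I02 R12 I12 G0 G1 G2 S = true) :
    (BR n1 K nF ε nε true (S 0 0) (gma b h K G0) (gma b h K G0) (fre bL lam nF Fl) (fim bL lam nF Fl)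
      (k1 bK kap nF (K00.map utg)) (fun i j => en kap ((List.replicate nF (List.replicate nF kap)).getD j []) i)) ∧
    (BR n1 K nF ε nε false (S 0 1) (gma b h K G0) (gma b h K G1) (fre bL lam nF Fl) (fim bL lam nF Fl)
      (k1 bK kap nF (R01.map utg)) (k1 bK kap nF (I01.map utg))) ∧
    (BR n1 K nF ε nε false (S 0 2) (gma b h K G0) (gma b h K G2) (fre bL lam nF Fl) (fim bL lam nF Fl)
      (k1 bK kap nF (R02.map utg)) (k1 bK kap nF (I02.map utg))) ∧
    (BR n1 K nF ε nε true (S 1 1) (gma b h K G1) (gma b h K G1) (fre bL lam nF Fl) (fim bL lam nF Fl)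
      (k1 bK kap nF (K11.map utg)) (fun i j => en kap ((List.replicate nF (List.replicate nF kap)).getD j []) i)) ∧
    (BR n1 K nF ε nε false (S 1 2) (gma b h K G1) (gma b h K G2) (fre bL lam nF Fl) (fim bL lam nF Fl)
      (k1 bK kap nF (R12.map utg)) (k1 bK kap nF (I12.map utg))) ∧
    (BR n1 K nF ε nε true (S 2 2) (gma b h K G2) (gma b h K G2) (fre bL lam nF Fl) (fim bL lam nF Fl)
      (k1 bK kap nF (K22.map utg)) (fun i j => en kap ((List.replicate nF (List.replicate nF kap)).getD j []) i)) ∧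
    3 * (2 * n1 + 1) * ε ≤ nε := by
  unfold chk at ht
  rw [Bool.and_eq_true, Bool.and_eq_true] at ht
  obtain ⟨hp, hk, hf⟩ := ht
  simp only [par, Bool.and_eq_true, Nat.ble_eq, Nat.beq_eq] at hp
  obtain ⟨p1, p2, p3, p4, p5, p6, p7, p8, p9, p10, p11, p12, p13, p14, p15, q1, q2, q3, q4, q5, q6, q7, q8, q9⟩ := hp
  simp only [fin, Bool.and_eq_true, kpk_eq] at hf
  obtain ⟨f1, f2, f3, f4, f5, f6⟩ := hf
  have C := fun {K : List ℕ} (hK : K.length = nF) => cols_ok (nF := nF) (kap := kap) (bK := bK) (by omega) p6 hK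
  have off : ∀ (T : ℕ → ℕ → ℤ) (Ps : List ℕ), Ps.length = 2 * n1 + 1 → ∀ Rs Ws : List ℕ, Rs.length = 2 * n1 + 1 →
      Ws.length = 2 * n1 + 1 →
      blk (X ^ (K + 2 * nF - 1)) X ε (4 * (K * h ^ 2 + 2 * nF * lam * tau)) T 0 Ps Rs Ws = true →
      ∀ p q, p ≤ q → q < 2 * n1 + 1 → EB (X ^ (K + 2 * nF - 1)) X ε nε (4 * (K * h ^ 2 + 2 * nF * lam * tau))
        (false && q == rp p) (T p q) Ps Rs Ws p q := by
    intro T Ps h0 Rs Ws h1 h2 h3 p q hpq hq
    have := blk_get nε (2 * n1 + 1) 0 Ps Rs Ws h0 h1 h2 h3 p q hpq hq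
    simpa using this
  have dia : ∀ (T : ℕ → ℕ → ℤ) (Ps : List ℕ), Ps.length = 2 * n1 + 1 → ∀ Rs Ws : List ℕ, Rs.length = 2 * n1 + 1 →
      Ws.length = 2 * n1 + 1 →
      blk0 (X ^ (K + 2 * nF - 1)) X ε nε (4 * (K * h ^ 2 + 2 * nF * lam * tau)) T Ps Rs Ws = true →
      ∀ p q, p ≤ q → q < 2 * n1 + 1 → EB (X ^ (K + 2 * nF - 1)) X ε nε (4 * (K * h ^ 2 + 2 * nF * lam * tau))
        (true && q == rp p) (T p q) Ps Rs Ws p q := by
    intro T Ps h0 Rs Ws h1 h2 h3 p q hpq hq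
    have := blk0_get n1 Ps Rs Ws h0 h1 h2 h3 p q hpq hq
    simpa using this
  have lP : ∀ G : List ℕ, G.length = 2 * n1 + 1 → (List.zipWith (fun c f => pkc b X K (utg c) 1 0 + X ^ K * f) G
      (Fl.map fun c => pkc bL X (2 * nF) (utg c) 1 0)).length = 2 * n1 + 1 := by
    intro G hG
    rw [List.length_zipWith, List.length_map, hG, p12, Nat.min_self]
  rw [← rep_map (X := X)] at f1 f4 f6
  refine ⟨?_, ?_, ?_, ?_, ?_, ?_, p11⟩
  · exact block_sound (by omega) (by omega) (by omega) p4 p7 p8 p9 p10 p12 p13 p13 (C q1).1 rep_ok.1 (C q1).2 rep_ok.2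
      rfl (dia (S 0 0) _ (lP G0 p13)) f1
  · exact block_sound (by omega) (by omega) (by omega) p4 p7 p8 p9 p10 p12 p13 p14 (C q4).1 (C q5).1 (C q4).2 (C q5).2
      rfl (off (S 0 1) _ (lP G0 p13)) f2
  · exact block_sound (by omega) (by omega) (by omega) p4 p7 p8 p9 p10 p12 p13 p15 (C q6).1 (C q7).1 (C q6).2 (C q7).2
      rfl (off (S 0 2) _ (lP G0 p13)) f3
  · exact block_sound (by omega) (by omega) (by omega) p4 p7 p8 p9 p10 p12 p14 p14 (C q2).1 rep_ok.1 (C q2).2 rep_ok.2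
      rfl (dia (S 1 1) _ (lP G1 p14)) f4
  · exact block_sound (by omega) (by omega) (by omega) p4 p7 p8 p9 p10 p12 p14 p15 (C q8).1 (C q9).1 (C q8).2 (C q9).2
      rfl (off (S 1 2) _ (lP G1 p14)) f5
  · exact block_sound (by omega) (by omega) (by omega) p4 p7 p8 p9 p10 p12 p15 p15 (C q3).1 rep_ok.1 (C q3).2 rep_ok.2
      rfl (dia (S 2 2) _ (lP G2 p15)) f6

/-- **the multipliers are positive** -/
theorem km_pos (ht : chk n1 nF bL lam bK kap tau X b h K ε nε Fl K00 K11 K22 R01 I01 R02 I02 R12 I12 G0 G1 G2 S = true)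
    {i j : ℕ} (hi : i < nF) (hj : j < nF) (z : Fin 3 → ℂ) :
    0 ≤ (∑ a : Fin 3, ∑ b : Fin 3, km bK kap nF K00 K11 K22 R01 I01 R02 I02 R12 I12 i j a b *
      (z a * (starRingEnd ℂ) (z b))).re := by
  unfold chk at ht
  rw [Bool.and_eq_true, Bool.and_eq_true] at ht
  obtain ⟨hp, hk, _⟩ := ht
  simp only [par, Bool.and_eq_true, Nat.ble_eq, Nat.beq_eq] at hp
  obtain ⟨_, _, _, _, _, _, _, _, _, _, _, _, _, _, _, q1, q2, q3, q4, q5, q6, q7, q8, q9⟩ := hp
  have L : ∀ {l : List ℕ}, l.length = nF → (l.map utg).length = nF := fun h => by rw [List.length_map, h]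
  have key := k1_pos hk (L q1) (L q2) (L q3) (L q4) (L q5) (L q6) (L q7) (L q8) (L q9) hi hj (z 0).re (z 0).im (z 1).re
    (z 1).im (z 2).re (z 2).im
  refine le_of_le_of_eq key ?_
  simp only [Fin.sum_univ_three, Fin.isValue, Fin.val_zero, Fin.val_one, Fin.val_two, km, Complex.add_re,
    Complex.mul_re, Complex.mul_im, Complex.conj_re, Complex.conj_im]
  unfold h3
  ring

/-- the value of a pair in complex notation -/
theorem vl_add {ga gb : ℕ → ℕ → ℝ} {kr ki : ℕ → ℕ → ℝ} {Kc : ℕ → ℕ → ℂ}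
    (hKc : ∀ i j, i < nF → j < nF → Kc i j = ⟨kr i j, ki i j⟩) (p q : ℕ) :
    vl K nF ga gb (fre bL lam nF Fl) (fim bL lam nF Fl) kr ki p q +
      vl K nF ga gb (fre bL lam nF Fl) (fim bL lam nF Fl) kr ki q p =
    (∑ k ∈ Finset.range K, ga p k * gb (rp q) k) + (∑ k ∈ Finset.range K, ga q k * gb (rp p) k) +
      ∑ i ∈ Finset.range nF, ∑ j ∈ Finset.range nF,
        (Kc i j * (fc bL lam nF Fl i p * fc bL lam nF Fl j q + fc bL lam nF Fl i q * fc bL lam nF Fl j p)).re := by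
  unfold vl
  have e : ∑ i ∈ Finset.range nF, ∑ j ∈ Finset.range nF,
        (Kc i j * (fc bL lam nF Fl i p * fc bL lam nF Fl j q + fc bL lam nF Fl i q * fc bL lam nF Fl j p)).re =
      (∑ i ∈ Finset.range nF, ∑ j ∈ Finset.range nF,
        (kr i j * (fre bL lam nF Fl i p * fre bL lam nF Fl j q - fim bL lam nF Fl i p * fim bL lam nF Fl j q)
          - ki i j * (fre bL lam nF Fl i p * fim bL lam nF Fl j q + fim bL lam nF Fl i p * fre bL lam nF Fl j q))) +
      ∑ i ∈ Finset.range nF, ∑ j ∈ Finset.range nF,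
        (kr i j * (fre bL lam nF Fl i q * fre bL lam nF Fl j p - fim bL lam nF Fl i q * fim bL lam nF Fl j p)
          - ki i j * (fre bL lam nF Fl i q * fim bL lam nF Fl j p + fim bL lam nF Fl i q * fre bL lam nF Fl j p)) := by
    rw [← Finset.sum_add_distrib]
    refine Finset.sum_congr rfl fun i hi => ?_
    rw [← Finset.sum_add_distrib]
    refine Finset.sum_congr rfl fun j hj => ?_
    rw [hKc i j (Finset.mem_range.1 hi) (Finset.mem_range.1 hj)]
    simp only [fc, Complex.mul_re, Complex.mul_im, Complex.add_re, Complex.add_im]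
    ring
  rw [e]
  ring

/-- the factor -/
def gx (b h K : ℕ) (G0 G1 G2 : List ℕ) (a p k : ℕ) : ℝ :=
  match a with
  | 0 => gma b h K G0 p k
  | 1 => gma b h K G1 p k
  | 2 => gma b h K G2 p k
  | _ => 0

/-- the positive matrix -/
noncomputable def PP (b h K : ℕ) (G0 G1 G2 : List ℕ) (a p c q : ℕ) : ℝ :=
  4 * ∑ k ∈ Finset.range K, gx b h K G0 G1 G2 a p k * gx b h K G0 G1 G2 c q k

/-- the rest after the factor -/
noncomputable def EE (nF b h K : ℕ) (G0 G1 G2 : List ℕ) (S : ℕ → ℕ → ℕ → ℕ → ℤ) (f : ℕ → ℕ → ℂ) (Kc : ℕ → ℕ → ℕ → ℕ → ℂ)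
    (a p c q : ℕ) : ℝ :=
  XX nF S f Kc a p c q - (PP b h K G0 G1 G2 a p c q + PP b h K G0 G1 G2 a (rp q) c (rp p)) / 2

theorem PP_symm (a p c q : ℕ) : PP b h K G0 G1 G2 a p c q = PP b h K G0 G1 G2 c q a p := by
  unfold PP
  congr 1
  exact Finset.sum_congr rfl fun k _ => mul_comm _ _

theorem EE_swap {f : ℕ → ℕ → ℂ} {Kc : ℕ → ℕ → ℕ → ℕ → ℂ} {a p c q : ℕ} (hac : c < a) :
    EE nF b h K G0 G1 G2 S f Kc a p c q = EE nF b h K G0 G1 G2 S f Kc c q a p := by
  unfold EE
  have e1 : XX nF S f Kc a p c q = XX nF S f Kc c q a p := by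
    unfold XX
    rw [if_neg (by omega), if_pos hac.le]
  rw [e1, PP_symm a p c q, PP_symm a (rp q) c (rp p)]

/-- the bound of one entry -/
theorem eb {dgb : Bool} {T : ℕ → ℕ → ℤ} {ga gb : ℕ → ℕ → ℝ} {kr ki : ℕ → ℕ → ℝ} {Kc : ℕ → ℕ → ℂ}
    (H : BR n1 K nF ε nε dgb T ga gb (fre bL lam nF Fl) (fim bL lam nF Fl) kr ki)
    (hKc : ∀ i j, i < nF → j < nF → Kc i j = ⟨kr i j, ki i j⟩) {p q : ℕ} (hp : p < 2 * n1 + 1) (hq : q < 2 * n1 + 1)
    {e : ℝ} (he : e = SS T p (rp q) - 2 * (∑ i ∈ Finset.range nF, ∑ j ∈ Finset.range nF,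
      (Kc i j * (fc bL lam nF Fl i p * fc bL lam nF Fl j (rp q) + fc bL lam nF Fl i (rp q) * fc bL lam nF Fl j p)).re)
      - 2 * ((∑ k ∈ Finset.range K, ga p k * gb q k) + ∑ k ∈ Finset.range K, ga (rp q) k * gb (rp p) k)) :
    ((dgb && q == p) = false → |e| ≤ ε) ∧ ((dgb && q == p) = true → (nε : ℝ) ≤ e) := by
  have hr := rp_lt hq
  have v := vl_add (K := K) (Fl := Fl) (bL := bL) (lam := lam) (ga := ga) (gb := gb) hKc p (rp q)
  rw [rp_rp q] at v
  have e1 : e = SS T p (rp q) - 2 * (vl K nF ga gb (fre bL lam nF Fl) (fim bL lam nF Fl) kr ki p (rp q) +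
      vl K nF ga gb (fre bL lam nF Fl) (fim bL lam nF Fl) kr ki (rp q) p) := by
    rw [v, he]
    ring
  have b1 : (q == p) = (rp q == rp p) := by
    rw [Bool.eq_iff_iff, beq_iff_eq, beq_iff_eq]
    exact ⟨fun h => by rw [h], fun h => by rw [← rp_rp q, h, rp_rp]⟩
  have b2 : (q == p) = (p == rp (rp q)) := by
    rw [rp_rp, Bool.eq_iff_iff, beq_iff_eq, beq_iff_eq]
    exact eq_comm
  rcases le_total p (rp q) with h | h
  · have := H p (rp q) h hr
    unfold SS at e1
    rw [if_pos h] at e1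
    rw [e1, b1]
    exact this
  · have := H (rp q) p h hp
    rw [SS_symm] at e1
    unfold SS at e1
    rw [if_pos h] at e1
    rw [e1, b2, add_comm (vl K nF ga gb _ _ kr ki p (rp q))]
    exact this

section Fin

variable (ht : chk n1 nF bL lam bK kap tau X b h K ε nε Fl K00 K11 K22 R01 I01 R02 I02 R12 I12 G0 G1 G2 S = true)
include ht

theorem EE_bound {a c : ℕ} (hac : a ≤ c) (hc : c < 3) {p q : ℕ} (hp : p < 2 * n1 + 1) (hq : q < 2 * n1 + 1) :
    (¬(a = c ∧ q = p) → |EE nF b h K G0 G1 G2 S (fc bL lam nF Fl)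
      (km bK kap nF K00 K11 K22 R01 I01 R02 I02 R12 I12) a p c q| ≤ ε) ∧
    (a = c ∧ q = p → (nε : ℝ) ≤ EE nF b h K G0 G1 G2 S (fc bL lam nF Fl)
      (km bK kap nF K00 K11 K22 R01 I01 R02 I02 R12 I12) a p c q) := by
  obtain ⟨b1, b2, b3, b4, b5, b6, _⟩ := blocks ht
  have val : ∀ (a c : ℕ), a ≤ c → EE nF b h K G0 G1 G2 S (fc bL lam nF Fl)
      (km bK kap nF K00 K11 K22 R01 I01 R02 I02 R12 I12) a p c q =
      SS (S a c) p (rp q) - 2 * (∑ i ∈ Finset.range nF, ∑ j ∈ Finset.range nF,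
      (km bK kap nF K00 K11 K22 R01 I01 R02 I02 R12 I12 i j a c * (fc bL lam nF Fl i p * fc bL lam nF Fl j (rp q)
        + fc bL lam nF Fl i (rp q) * fc bL lam nF Fl j p)).re)
      - 2 * ((∑ k ∈ Finset.range K, gx b h K G0 G1 G2 a p k * gx b h K G0 G1 G2 c q k)
        + ∑ k ∈ Finset.range K, gx b h K G0 G1 G2 a (rp q) k * gx b h K G0 G1 G2 c (rp p) k) := by
    intro a c h
    unfold EE XX XU PP
    rw [if_pos h]
    ring
  have fin1 : ∀ {dgb : Bool} {e : ℝ} {P : Prop} [Decidable P], (P ↔ (dgb && q == p) = true) →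
      (((dgb && q == p) = false → |e| ≤ ε) ∧ ((dgb && q == p) = true → (nε : ℝ) ≤ e)) →
      (¬P → |e| ≤ ε) ∧ (P → (nε : ℝ) ≤ e) := by
    intro dgb e P _ h1 h2
    refine ⟨fun h => h2.1 ?_, fun h => h2.2 (h1.1 h)⟩
    rw [h1, Bool.not_eq_true] at h
    exact h
  have rz := fun i j (hi : i < nF) (hj : j < nF) => rep_en (kap := kap) hi hj
  match a, c, hac, hc with
  | 0, 0, _, _ =>
    refine fin1 (dgb := true) (by simp) (eb b1 (Kc := fun i j => km bK kap nF K00 K11 K22 R01 I01 R02 I02 R12 I12 i j 0 0)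
      (fun i j hi hj => ?_) hp hq (val 0 0 le_rfl))
    simp only [km, rz i j hi hj]
  | 0, 1, h, _ =>
    refine fin1 (dgb := false) (by simp) (eb b2 (Kc := fun i j => km bK kap nF K00 K11 K22 R01 I01 R02 I02 R12 I12 i j 0 1)
      (fun i j hi hj => rfl) hp hq (val 0 1 h))
  | 0, 2, h, _ =>
    refine fin1 (dgb := false) (by simp) (eb b3 (Kc := fun i j => km bK kap nF K00 K11 K22 R01 I01 R02 I02 R12 I12 i j 0 2)
      (fun i j hi hj => rfl) hp hq (val 0 2 h))
  | 1, 1, _, _ =>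
    refine fin1 (dgb := true) (by simp) (eb b4 (Kc := fun i j => km bK kap nF K00 K11 K22 R01 I01 R02 I02 R12 I12 i j 1 1)
      (fun i j hi hj => ?_) hp hq (val 1 1 le_rfl))
    simp only [km, rz i j hi hj]
  | 1, 2, h, _ =>
    refine fin1 (dgb := false) (by simp) (eb b5 (Kc := fun i j => km bK kap nF K00 K11 K22 R01 I01 R02 I02 R12 I12 i j 1 2)
      (fun i j hi hj => rfl) hp hq (val 1 2 h))
  | a + 3, c, h, h' => omega
  | 2, 2, _, _ =>
    refine fin1 (dgb := true) (by simp) (eb b6 (Kc := fun i j => km bK kap nF K00 K11 K22 R01 I01 R02 I02 R12 I12 i j 2 2)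
      (fun i j hi hj => ?_) hp hq (val 2 2 le_rfl))
    simp only [km, rz i j hi hj]

/-- **the matrix after the products is positive modulo null forms** -/
theorem psd3 : ∃ P : ℕ → ℕ → ℕ → ℕ → ℝ, (∀ a p c q, P a p c q = P c q a p) ∧
    (∀ x : ℕ → ℕ → ℝ, 0 ≤ ∑ a ∈ Finset.range 3, ∑ c ∈ Finset.range 3, ∑ p ∈ Finset.range (2 * n1 + 1),
      ∑ q ∈ Finset.range (2 * n1 + 1), P a p c q * (x a p * x c q)) ∧
    (∀ x : ℕ → ℕ → ℝ, 0 ≤ ∑ a ∈ Finset.range 3, ∑ c ∈ Finset.range 3, ∑ p ∈ Finset.range (2 * n1 + 1),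
      ∑ q ∈ Finset.range (2 * n1 + 1), (XX nF S (fc bL lam nF Fl)
        (km bK kap nF K00 K11 K22 R01 I01 R02 I02 R12 I12) a p c q - (P a p c q + P a (rp q) c (rp p)) / 2)
          * (x a p * x c q)) := by
  refine ⟨PP b h K G0 G1 G2, PP_symm, fun x => ?_, fun x => ?_⟩
  · rw [four 3 (2 * n1 + 1) fun a p c q => PP b h K G0 G1 G2 a p c q * (x a p * x c q)]
    have e : ∑ i ∈ Finset.range 3 ×ˢ Finset.range (2 * n1 + 1), ∑ j ∈ Finset.range 3 ×ˢ Finset.range (2 * n1 + 1),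
        PP b h K G0 G1 G2 i.1 i.2 j.1 j.2 * (x i.1 i.2 * x j.1 j.2) =
        4 * ∑ k ∈ Finset.range K, (∑ i ∈ Finset.range 3 ×ˢ Finset.range (2 * n1 + 1),
          gx b h K G0 G1 G2 i.1 i.2 k * x i.1 i.2) ^ 2 := by
      exact gsum (Finset.range 3 ×ˢ Finset.range (2 * n1 + 1)) (Finset.range K)
        (fun i k => gx b h K G0 G1 G2 i.1 i.2 k) fun i => x i.1 i.2
    rw [e]
    exact mul_nonneg (by norm_num) (Finset.sum_nonneg fun k _ => sq_nonneg _)
  · rw [four 3 (2 * n1 + 1) fun a p c q => (XX nF S (fc bL lam nF Fl)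
        (km bK kap nF K00 K11 K22 R01 I01 R02 I02 R12 I12) a p c q
          - (PP b h K G0 G1 G2 a p c q + PP b h K G0 G1 G2 a (rp q) c (rp p)) / 2) * (x a p * x c q)]
    obtain ⟨_, _, _, _, _, _, hn⟩ := blocks ht
    refine dom (Finset.range 3 ×ˢ Finset.range (2 * n1 + 1)) (fun i j => EE nF b h K G0 G1 G2 S (fc bL lam nF Fl)
      (km bK kap nF K00 K11 K22 R01 I01 R02 I02 R12 I12) i.1 i.2 j.1 j.2) ε nε (Nat.cast_nonneg _) ?_ ?_ ?_
      (fun i => x i.1 i.2)
    · rw [Finset.card_product, Finset.card_range, Finset.card_range]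
      exact_mod_cast hn
    · rintro ⟨a, p⟩ hi ⟨c, q⟩ hj hne
      simp only [Finset.mem_product, Finset.mem_range] at hi hj
      rcases Nat.lt_or_ge c a with hl | hl
      · have := (EE_bound ht hl.le hi.1 hj.2 hi.2).1 (by omega)
        change |EE nF b h K G0 G1 G2 S _ _ a p c q| ≤ _
        rw [EE_swap hl]
        exact this
      · refine (EE_bound ht hl hj.1 hi.2 hj.2).1 fun hc => hne ?_
        rw [hc.1, hc.2]
    · rintro ⟨a, p⟩ hi
      simp only [Finset.mem_product, Finset.mem_range] at hi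
      exact (EE_bound ht le_rfl hi.1 hi.2 hi.2).2 ⟨rfl, rfl⟩

end Fin

end Main

end Pool.Agent.FPX.PSD3
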