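import Mathlib
import Pool.Agent.FPX.MOBP
import Pool.Agent.FPX.PSD3

/-
MOBC (helper66): the test of helper59 (`PSD3`) as the engine of the modal certificate; three components.
-/

set_option autoImplicit false

open Finset

noncomputable section

namespace Pool.Agent.FPX.MOB

open Pool.Agent.FPX.QST (Wn mem_Wn)
open Pool.Agent.FPX.ALX (St)
open Pool.Agent.FPX.MOE (rf PM P4 P2 Dat Frm Qf)
open Pool.Agent.FPX.MOP (NN2 PH TP lf ac NN2_ac)
open Pool.Agent.FPX.PSD3 (chk psd3 XX XU SS SS_symm km fc km_pos)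

theorem rp_same : PSD3.rp = rp := by
  funext p
  cases p with
  | zero => rfl
  | succ p =>
    rw [PSD3.rp_succ]
    unfold rp
    by_cases h : p % 2 = 0
    · rw [if_pos h, if_neg (by omega), if_pos (by omega)]
    · rw [if_neg h, if_neg (by omega), if_neg (by omega)]
      omega

/-- positive matrices on three components -/
theorem PH_of {m' : ℕ} (h : m' = 3) (k : ℕ → ℕ → ℂ) {c : ℝ} (hc : 0 ≤ c)
    (H : ∀ z : Fin 3 → ℂ, 0 ≤ (∑ a : Fin 3, ∑ b : Fin 3, k a b * (z a * (starRingEnd ℂ) (z b))).re) :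
    PH fun a b : Fin m' => (c : ℂ) * k a b := by
  subst h
  intro z
  have e : ∑ a : Fin 3, ∑ b : Fin 3, (c : ℂ) * k a b * (z a * (starRingEnd ℂ) (z b))
      = (c : ℂ) * ∑ a : Fin 3, ∑ b : Fin 3, k a b * (z a * (starRingEnd ℂ) (z b)) := by
    rw [Finset.mul_sum]
    refine Finset.sum_congr rfl fun a _ => ?_
    rw [Finset.mul_sum]
    refine Finset.sum_congr rfl fun b _ => ?_
    ring
  rw [e, Complex.re_ofReal_mul]
  exact mul_nonneg hc (H z)

theorem km_herm {bK kap nF : ℕ} {K00 K11 K22 R01 I01 R02 I02 R12 I12 : List ℕ} (i j : ℕ) {a b : ℕ} (ha : a < 3) (hb : b < 3) :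
    km bK kap nF K00 K11 K22 R01 I01 R02 I02 R12 I12 i j b a
      = (starRingEnd ℂ) (km bK kap nF K00 K11 K22 R01 I01 R02 I02 R12 I12 i j a b) := by
  match a, b, ha, hb with
  | 0, 0, _, _ => apply Complex.ext <;> simp [km]
  | 0, 1, _, _ => apply Complex.ext <;> simp [km]
  | 0, 2, _, _ => apply Complex.ext <;> simp [km]
  | 1, 0, _, _ => apply Complex.ext <;> simp [km]
  | 1, 1, _, _ => apply Complex.ext <;> simp [km]
  | 1, 2, _, _ => apply Complex.ext <;> simp [km]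
  | 2, 0, _, _ => apply Complex.ext <;> simp [km]
  | 2, 1, _, _ => apply Complex.ext <;> simp [km]
  | 2, 2, _, _ => apply Complex.ext <;> simp [km]

/-- symmetrisation of the engine -/
theorem Eng_symm {m n : ℕ} {X : ℕ → ℕ → ℕ → ℕ → ℝ} (h : Eng m n X) :
    Eng m n fun a p b q => (X a p b q + X b q a p) / 2 := by
  obtain ⟨P, P1, P2, P3⟩ := h
  refine ⟨P, P1, P2, fun x => ?_⟩
  have h3 := P3 x
  have e : ∑ a ∈ range m, ∑ b ∈ range m, ∑ p ∈ range n, ∑ q ∈ range n,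
      X b q a p * (x a p * x b q) = ∑ a ∈ range m, ∑ b ∈ range m, ∑ p ∈ range n, ∑ q ∈ range n,
      X a p b q * (x a p * x b q) := by
    rw [Finset.sum_comm]
    refine Finset.sum_congr rfl fun a _ => Finset.sum_congr rfl fun b _ => ?_
    rw [Finset.sum_comm]
    refine Finset.sum_congr rfl fun p _ => Finset.sum_congr rfl fun q _ => ?_
    ring
  have e2 : ∑ a ∈ range m, ∑ b ∈ range m, ∑ p ∈ range n, ∑ q ∈ range n,
      ((X a p b q + X b q a p) / 2 - (P a p b q + P a (rp q) b (rp p)) / 2) * (x a p * x b q)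
      = (∑ a ∈ range m, ∑ b ∈ range m, ∑ p ∈ range n, ∑ q ∈ range n,
        (X a p b q - (P a p b q + P a (rp q) b (rp p)) / 2) * (x a p * x b q))
        + ((∑ a ∈ range m, ∑ b ∈ range m, ∑ p ∈ range n, ∑ q ∈ range n, X b q a p * (x a p * x b q))
          - ∑ a ∈ range m, ∑ b ∈ range m, ∑ p ∈ range n, ∑ q ∈ range n, X a p b q * (x a p * x b q)) / 2 := by
    simp only [← Finset.sum_sub_distrib, Finset.sum_div, ← Finset.sum_add_distrib]
    refine Finset.sum_congr rfl fun a _ => Finset.sum_congr rfl fun b _ => ?_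
    refine Finset.sum_congr rfl fun p _ => Finset.sum_congr rfl fun q _ => ?_
    ring
  rw [e2, e, sub_self, zero_div, add_zero]
  exact h3

namespace Cd

variable {D : Cd}

theorem four_tau {m : ℕ} (B : Fin m → ℤ → Fin m → ℤ → ℝ) (a : Fin m) (p : ℕ) (b : Fin m) (q : ℕ) :
    four B a (rp q) b (rp p) = four B a p b q := by
  unfold four
  rw [rp_rp, rp_rp]
  ring

/-- the real form of the tables -/
def tb (D : Cd) (a : Fin D.m) (s : ℤ) (b : Fin D.m) (t : ℤ) : ℝ :=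
  D.Tc a (ps s) b (ps t) / D.L + (D.dat 0).M0 a s b t

/-- **the table is the class sum** -/
theorem S_four (ht : D.hdr = true) {a b : Fin D.m} (hab : a ≤ b) {p q : ℕ} (hp : p < 2 * D.N - 1) (hq : q < 2 * D.N - 1) :
    ((D.S a b p (rp q) : ℤ) : ℝ) = D.sc * four D.tb a p b q := by
  simp only [hdr, Bool.and_eq_true, Nat.ble_eq, Nat.beq_eq, Nat.blt_eq] at ht
  obtain ⟨t1, t2, t3, t4, t5, t6, t7, t8, t9, t10, t11, t12⟩ := ht
  have hh' : (D.h : ℝ) ≠ 0 := by positivity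
  have hL' : (D.L : ℝ) ≠ 0 := by positivity
  have hrg : D.rgb a b (Nat.mul (D.K + 2) (D.K + 2)) = true :=
    al_ok (al_ok t12 b b.2) a (by have : (a : ℕ) ≤ b := hab; omega)
  have e1 := Ts_eq t1 t2 t4 (T := fun a s b t => D.Tc a (ps s) b (ps t) / D.L)
    (fun a b p _ q _ => by simp only [ps_sl]) a b hp hq
  have e2 := Ms_eq t1 t2 t5 a b hrg 0 hp hq
  have e3 : four D.tb a p b q = four (fun a s b t => (D.Tc a (ps s) b (ps t) / D.L : ℝ)) a p b q
      + four (D.dat 0).M0 a p b q := by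
    unfold four tb
    ring
  have e : D.S a b p (rp q) = (D.LK : ℤ) * (D.Ts a b p q + D.Ms a b p q) := by
    unfold S
    rw [rp_rp]
    rfl
  rw [e3, e1, e2, e]
  unfold sc
  push_cast
  field_simp

section
variable {n1 nF bL lam bK kap tau Xb b h K ε nε : ℕ} {Fl K00 K11 K22 R01 I01 R02 I02 R12 I12 G0 G1 G2 : List ℕ}

/-- **the modal certificate with the test of `PSD3`** -/
theorem main3 (ht : D.hdr = true) (hm : D.m = 3) (hn : n1 + 1 = D.N)
    (hc : chk n1 nF bL lam bK kap tau Xb b h K ε nε Fl K00 K11 K22 R01 I01 R02 I02 R12 I12 G0 G1 G2 D.S = true)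
    {f : ℕ → ℤ → ℂ} (hf : ∀ i < nF, NN2 D.N (D.sn / D.h) (f i)) {DF : ℝ} (hDF : 0 < DF)
    (hfv : ∀ i < nF, ∀ p < 2 * D.N - 1, fc bL lam nF Fl i p = DF * f i (sl p))
    (hfr : ∀ i < nF, ∀ p < 2 * D.N - 1, f i (sl (rp p)) = (starRingEnd ℂ) (f i (sl p)))
    {T : Fin D.m → ℤ → Fin D.m → ℤ → ℝ}
    (hT : ∀ a b : Fin D.m, ∀ p < 2 * D.N - 1, ∀ q < 2 * D.N - 1, T a (sl p) b (sl q) = D.Tc a p b q / D.L)
    {q : Fin D.m → Fin D.m → ℤ → ℝ} (hq : ∀ a b : Fin D.m, ∀ i < 2 * D.J + 1, q a b ((i : ℤ) - D.J) = D.q a b i / D.L)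
    {s : ℝ} {Y : ℝ → ℝ} (hY : St s Y) (h0 : 0 ≤ s) (hs : s ≤ D.sn / D.h) (z : Fin D.m → ℂ) :
    0 ≤ Frm D.N T z Y + Qf D.J q z Y := by
  have ht' := ht
  simp only [hdr, Bool.and_eq_true, Nat.ble_eq, Nat.beq_eq, Nat.blt_eq] at ht'
  obtain ⟨t1, t2, t3, -⟩ := ht'
  have hsc : 0 < D.sc := by
    unfold sc
    positivity
  have h1N : 2 * n1 + 1 = 2 * D.N - 1 := by omega
  set k := km bK kap nF K00 K11 K22 R01 I01 R02 I02 R12 I12 with hk
  set c : ℝ := DF ^ 2 / (2 * D.sc) with hcd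
  have hc0 : 0 ≤ c := by positivity
  have hE : Eng D.m (2 * D.N - 1) (XX nF D.S (fc bL lam nF Fl) k) := by
    have h3 := psd3 hc
    rw [h1N, rp_same] at h3
    rw [hm]
    exact h3
  refine main ht (range nF ×ˢ range nF) (fun ij a b => (c : ℂ) * k ij.1 ij.2 a b) (fun ij => f ij.1) (fun ij => f ij.2)
    ?_ ?_ ?_ (Eng_symm hE) (fun a p b q => by ring) ?_ hT hq hY h0 hs z
  · rintro ⟨i, j⟩ hij
    have h2 := Finset.mem_product.1 hij
    exact PH_of hm (k i j) hc0 (km_pos hc (Finset.mem_range.1 h2.1) (Finset.mem_range.1 h2.2))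
  · rintro ⟨i, j⟩ hij
    exact hf i (Finset.mem_range.1 (Finset.mem_product.1 hij).1)
  · rintro ⟨i, j⟩ hij
    exact hf j (Finset.mem_range.1 (Finset.mem_product.1 hij).2)
  · -- the table
    have v : ∀ a b : Fin D.m, a ≤ b → ∀ p < 2 * D.N - 1, ∀ q < 2 * D.N - 1,
        XU nF D.S (fc bL lam nF Fl) k a b p (rp q)
          = D.S a b p (rp q) - D.sc * ∑ i ∈ range nF ×ˢ range nF,
            four (TP (fun a b => (c : ℂ) * k i.1 i.2 a b) (f i.1) (f i.2)) a p b q := by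
      intro a b hab p hp q hq
      have hrq := rp_lt hq
      have e1 : SS (D.S a b) p (rp q) = D.S a b p (rp q) := by
        unfold SS
        split_ifs
        · rfl
        · have s1 := S_four ht hab hp hq
          have s2 := S_four ht hab hrq (rp_lt hp)
          rw [four_tau, rp_rp] at s2
          rw [s1, s2]
      unfold XU
      rw [e1, Finset.sum_product, Finset.mul_sum, Finset.mul_sum]
      congr 1
      refine Finset.sum_congr rfl fun i hi => ?_
      rw [Finset.mul_sum, Finset.mul_sum]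
      refine Finset.sum_congr rfl fun j hj => ?_
      have hi' := Finset.mem_range.1 hi
      have hj' := Finset.mem_range.1 hj
      rw [four_TP (n := 2 * D.N - 1) (fun a b => ?_) (hfr i hi') (hfr j hj') a b hp hq]
      · rw [hfv i hi' p hp, hfv j hj' p hp, hfv i hi' _ hrq, hfv j hj' _ hrq, hfr i hi' q hq, hfr j hj' q hq]
        have e2 : (c : ℂ) * k i j a b * (f i (sl p) * (starRingEnd ℂ) (f j (sl q)) + (starRingEnd ℂ) (f i (sl q)) * f j (sl p))
            = ((c : ℝ) : ℂ) * (k i j a b * (f i (sl p) * (starRingEnd ℂ) (f j (sl q))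
              + (starRingEnd ℂ) (f i (sl q)) * f j (sl p))) := by ring
        have e3 : k i j a b * ((DF : ℂ) * f i (sl p) * ((DF : ℂ) * (starRingEnd ℂ) (f j (sl q)))
            + (DF : ℂ) * (starRingEnd ℂ) (f i (sl q)) * ((DF : ℂ) * f j (sl p)))
            = ((DF ^ 2 : ℝ) : ℂ) * (k i j a b * (f i (sl p) * (starRingEnd ℂ) (f j (sl q))
              + (starRingEnd ℂ) (f i (sl q)) * f j (sl p))) := by
          push_cast
          ring
        rw [e2, e3, Complex.re_ofReal_mul, Complex.re_ofReal_mul, hcd]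
        field_simp
        ring
      · have := km_herm (bK := bK) (kap := kap) (nF := nF) (K00 := K00) (K11 := K11) (K22 := K22) (R01 := R01) (I01 := I01)
          (R02 := R02) (I02 := I02) (R12 := R12) (I12 := I12) i j (a.2.trans_eq hm) (b.2.trans_eq hm)
        rw [hk, this, map_mul, Complex.conj_ofReal]
    intro a b hab p hp q hq
    have e1 : XX nF D.S (fc bL lam nF Fl) k a p b q = XU nF D.S (fc bL lam nF Fl) k a b p (rp q) := by
      unfold XX
      rw [if_pos (show (a : ℕ) ≤ b from hab), rp_same]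
    have e2 : XX nF D.S (fc bL lam nF Fl) k b q a p = XU nF D.S (fc bL lam nF Fl) k a b p (rp q) := by
      unfold XX
      rw [rp_same]
      rcases hab.lt_or_eq with h | h
      · rw [if_neg (by have : (a : ℕ) < b := h; omega)]
      · subst h
        rw [if_pos le_rfl, v a a le_rfl q hq p hp, v a a le_rfl p hp q hq, S_four ht le_rfl hp hq, S_four ht le_rfl hq hp,
          four_symm]
        simp only [four_symm _ a p a q]
    rw [e1, e2, ← v a b hab p hp q hq]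
    ring

/-- without products -/
theorem main0 (ht : D.hdr = true) (hm : D.m = 3) (hn : n1 + 1 = D.N)
    (hc : chk n1 0 bL lam bK kap tau Xb b h K ε nε Fl K00 K11 K22 R01 I01 R02 I02 R12 I12 G0 G1 G2 D.S = true)
    {T : Fin D.m → ℤ → Fin D.m → ℤ → ℝ}
    (hT : ∀ a b : Fin D.m, ∀ p < 2 * D.N - 1, ∀ q < 2 * D.N - 1, T a (sl p) b (sl q) = D.Tc a p b q / D.L)
    {q : Fin D.m → Fin D.m → ℤ → ℝ} (hq : ∀ a b : Fin D.m, ∀ i < 2 * D.J + 1, q a b ((i : ℤ) - D.J) = D.q a b i / D.L)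
    {s : ℝ} {Y : ℝ → ℝ} (hY : St s Y) (h0 : 0 ≤ s) (hs : s ≤ D.sn / D.h) (z : Fin D.m → ℂ) :
    0 ≤ Frm D.N T z Y + Qf D.J q z Y :=
  main3 ht hm hn hc (f := fun _ _ => 0) (fun i hi => absurd hi (Nat.not_lt_zero i)) one_pos
    (fun i hi => absurd hi (Nat.not_lt_zero i)) (fun i hi => absurd hi (Nat.not_lt_zero i)) hT hq hY h0 hs z

end

end Cd

/-! ### a family of squares -/

/-- the integers of a family of squares `|p_i|²`, `p_i` of degree `DP`. Tables: digits of width `w` (`wA`), offset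
`2^(w-1)`, first digit at the bit 64, index `i (DP + 1) + k`. -/
structure Sq where
  DP : ℕ
  w : ℕ
  /-- real and imaginary parts of the coefficients -/
  cX : ℕ
  cY : ℕ
  wA : ℕ
  /-- real and imaginary parts of the autocorrelation -/
  cA : ℕ
  cB : ℕ

namespace Sq

variable (Q : Sq)

def ix (i k : ℕ) : ℕ := Nat.add (Nat.mul i (Nat.add Q.DP 1)) k

def x (i k : ℕ) : ℤ := dz Q.w Q.cX (Q.ix i k)
def y (i k : ℕ) : ℤ := dz Q.w Q.cY (Q.ix i k)
def A (i d : ℕ) : ℤ := dz Q.wA Q.cA (Q.ix i d)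
def B (i d : ℕ) : ℤ := dz Q.wA Q.cB (Q.ix i d)

def sA (i d : ℕ) : ℕ → ℤ
  | 0 => 0
  | l + 1 => Int.add (sA i d l) (Int.add (Int.mul (Q.x i (Nat.add l d)) (Q.x i l)) (Int.mul (Q.y i (Nat.add l d)) (Q.y i l)))

def sB (i d : ℕ) : ℕ → ℤ
  | 0 => 0
  | l + 1 => Int.add (sB i d l) (Int.sub (Int.mul (Q.y i (Nat.add l d)) (Q.x i l)) (Int.mul (Q.x i (Nat.add l d)) (Q.y i l)))

/-- the autocorrelations are right -/
def okA (nF : ℕ) : Bool := al nF fun i => al (Nat.add Q.DP 1) fun d =>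
  and (decide (Q.A i d = Q.sA i d (Nat.sub (Nat.add Q.DP 1) d))) (decide (Q.B i d = Q.sB i d (Nat.sub (Nat.add Q.DP 1) d)))

def aF (i d : ℕ) : ℤ := if Nat.ble d Q.DP then Q.A i d else 0
def bF (i d : ℕ) : ℤ := if Nat.ble d Q.DP then Q.B i d else 0

/-- digit of a number -/
def dg (b c k : ℕ) : ℕ := Nat.mod (Nat.div c (Nat.pow b k)) b

/-- the packed forms are right -/
def okF (sn h bL lam nF : ℕ) : ℕ → List ℕ → Bool
  | _, [] => true
  | p, c :: l => and (al nF fun i => and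
      (decide (Int.ofNat (dg bL (PSC.utg c) i) = Int.add (FR sn h (Q.aF i) (Q.bF i) p) (Int.ofNat lam)))
      (decide (Int.ofNat (dg bL (PSC.utg c) (Nat.add nF i)) = Int.add (FI sn h (Q.aF i) (Q.bF i) p) (Int.ofNat lam))))
      (okF sn h bL lam nF (p + 1) l)

def pc (i k : ℕ) : ℂ := (Q.x i k : ℝ) + (Q.y i k : ℝ) * Complex.I

variable {Q}

theorem sA_eq (i d : ℕ) : ∀ n : ℕ, Q.sA i d n = ∑ l ∈ range n, (Q.x i (l + d) * Q.x i l + Q.y i (l + d) * Q.y i l)
  | 0 => rfl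
  | n + 1 => by
    rw [Finset.sum_range_succ, ← sA_eq i d n]
    rfl

theorem sB_eq (i d : ℕ) : ∀ n : ℕ, Q.sB i d n = ∑ l ∈ range n, (Q.y i (l + d) * Q.x i l - Q.x i (l + d) * Q.y i l)
  | 0 => rfl
  | n + 1 => by
    rw [Finset.sum_range_succ, ← sB_eq i d n]
    rfl

theorem ac_nat (J : ℕ) (p : ℕ → ℂ) (d : ℕ) :
    ac J p d = ∑ l ∈ range (J + 1 - d), p (l + d) * (starRingEnd ℂ) (p l) := by
  unfold ac
  rw [Finset.sum_comm]
  have e : ∀ l ∈ range (J + 1), (∑ k ∈ range (J + 1), if (k : ℤ) - l = d then p k * (starRingEnd ℂ) (p l) else 0)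
      = if l < J + 1 - d then p (l + d) * (starRingEnd ℂ) (p l) else 0 := by
    intro l _
    by_cases h : l < J + 1 - d
    · rw [if_pos h, Finset.sum_eq_single (l + d)]
      · rw [if_pos (by omega)]
      · intro k _ hk
        exact if_neg (by omega)
      · intro h1
        exfalso
        exact h1 (Finset.mem_range.2 (by omega))
    · rw [if_neg h]
      refine Finset.sum_eq_zero fun k hk => if_neg ?_
      have := Finset.mem_range.1 hk
      omega
  rw [Finset.sum_congr rfl e, ← Finset.sum_filter]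
  refine Finset.sum_congr ?_ fun _ _ => rfl
  ext l
  simp only [Finset.mem_filter, Finset.mem_range]
  omega

theorem ac_val {nF : ℕ} (h : Q.okA nF = true) {i : ℕ} (hi : i < nF) (d : ℕ) :
    ac Q.DP (Q.pc i) d = (Q.aF i d : ℝ) + (Q.bF i d : ℝ) * Complex.I := by
  rw [ac_nat]
  unfold aF bF
  simp only [Nat.ble_eq]
  by_cases hd : d ≤ Q.DP
  · rw [if_pos hd, if_pos hd]
    have h1 := al_ok (al_ok h i hi) d (show d < Q.DP + 1 by omega)
    simp only [Bool.and_eq_true, decide_eq_true_eq] at h1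
    rw [h1.1, h1.2]
    change _ = (((Q.sA i d (Q.DP + 1 - d) : ℤ) : ℝ) : ℂ) + (((Q.sB i d (Q.DP + 1 - d) : ℤ) : ℝ) : ℂ) * Complex.I
    rw [sA_eq, sB_eq]
    push_cast
    rw [Finset.sum_mul, ← Finset.sum_add_distrib]
    refine Finset.sum_congr rfl fun l _ => ?_
    unfold pc
    simp only [map_add, map_mul, Complex.conj_ofReal, Complex.conj_I]
    push_cast
    have hI : Complex.I ^ 2 = -1 := Complex.I_sq
    ring_nf
    rw [hI]
    ring
  · rw [if_neg hd, if_neg hd, show Q.DP + 1 - d = 0 by omega]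
    simp

theorem dg_digs (b : ℕ) : ∀ (n c k : ℕ), k < n → (PSB.digs b n c).getD k 0 = dg b c k
  | 0, _, _, h => by omega
  | n + 1, c, 0, _ => by
    change c % b = c / b ^ 0 % b
    rw [pow_zero, Nat.div_one]
  | n + 1, c, k + 1, h => by
    rw [PSB.digs, List.getD_cons_succ, dg_digs b n (c / b) k (by omega)]
    unfold dg
    change c / b / b ^ k % b = c / b ^ (k + 1) % b
    rw [Nat.div_div_eq_div_mul, pow_succ, mul_comm (b ^ k) b]

theorem okF_get {sn h bL lam nF : ℕ} : ∀ (l : List ℕ) (p0 : ℕ), Q.okF sn h bL lam nF p0 l = true → ∀ p < l.length, ∀ i < nF,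
    ((dg bL (PSC.utg (l.getD p 0)) i : ℕ) : ℤ) = FR sn h (Q.aF i) (Q.bF i) (p0 + p) + lam ∧
    ((dg bL (PSC.utg (l.getD p 0)) (nF + i) : ℕ) : ℤ) = FI sn h (Q.aF i) (Q.bF i) (p0 + p) + lam
  | [], _, _, p, hp, _, _ => by simp at hp
  | c :: l, p0, hk, p, hp, i, hi => by
    rw [okF, Bool.and_eq_true] at hk
    cases p with
    | zero =>
      have h1 := al_ok hk.1 i hi
      simp only [Bool.and_eq_true, decide_eq_true_eq] at h1
      exact h1
    | succ p =>
      have ih := okF_get l (p0 + 1) hk.2 p (by simpa using hp) i hi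
      rw [show p0 + 1 + p = p0 + (p + 1) by ring] at ih
      simpa using ih

/-- the forms of the family at the slots -/
theorem fc_eq {sn h bL lam nF N : ℕ} {Fl : List ℕ} (hh : 0 < h) (hA : Q.okA nF = true)
    (hF : Q.okF sn h bL lam nF 0 Fl = true) (hl : Fl.length = 2 * N - 1) {i : ℕ} (hi : i < nF) {p : ℕ} (hp : p < 2 * N - 1) :
    fc bL lam nF Fl i p = ((2 * h : ℝ) : ℂ) * lf ((sn : ℝ) / h) (ac Q.DP (Q.pc i)) (sl p) := by
  have hb0 : Q.bF i 0 = 0 := by
    have h1 := ac_neg Q.DP (Q.pc i) 0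
    have h2 := ac_val hA hi 0
    rw [neg_zero] at h1
    rw [Nat.cast_zero] at h2
    rw [h2] at h1
    have h3 := congrArg Complex.im h1
    simp only [Complex.add_im, Complex.mul_im, Complex.ofReal_im, Complex.ofReal_re, Complex.I_im, Complex.I_re,
      Complex.conj_im] at h3
    have h4 : (Q.bF i 0 : ℝ) = 0 := by linarith
    exact_mod_cast h4
  have e := lf_eq (sn := sn) (L2 := 1) hh one_pos (φ := ac Q.DP (Q.pc i)) (a := Q.aF i) (b := Q.bF i)
    (ac_neg Q.DP (Q.pc i)) (N := N) (fun d _ => by rw [ac_val hA hi d, Nat.cast_one, div_one]) hb0 hp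
  obtain ⟨g1, g2⟩ := okF_get Fl 0 hF p (by omega) i hi
  rw [zero_add] at g1 g2
  have hh' : (h : ℂ) ≠ 0 := by exact_mod_cast hh.ne'
  have hfre : PSD3.fre bL lam nF Fl i p = FR sn h (Q.aF i) (Q.bF i) p := by
    unfold PSD3.fre PSD3.dgr PSB.en
    rw [PSD3.gm _ 0 [] Fl p (by omega), dg_digs _ _ _ _ (by omega)]
    have : (((dg bL (PSC.utg (Fl.getD p 0)) i : ℕ) : ℤ) : ℝ) = ((FR sn h (Q.aF i) (Q.bF i) p + lam : ℤ) : ℝ) := by rw [g1]
    push_cast at this
    linarith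
  have hfim : PSD3.fim bL lam nF Fl i p = FI sn h (Q.aF i) (Q.bF i) p := by
    unfold PSD3.fim PSD3.dgr PSB.en
    rw [PSD3.gm _ 0 [] Fl p (by omega), dg_digs _ _ _ _ (by omega)]
    have : (((dg bL (PSC.utg (Fl.getD p 0)) (nF + i) : ℕ) : ℤ) : ℝ) = ((FI sn h (Q.aF i) (Q.bF i) p + lam : ℤ) : ℝ) := by
      rw [g2]
    push_cast at this
    linarith
  rw [e]
  unfold PSD3.fc
  rw [hfre, hfim]
  push_cast
  field_simp
  apply Complex.ext <;> simp

end Sq

namespace Cd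

variable {D : Cd} {n1 nF bL lam bK kap tau Xb b h K ε nε : ℕ} {Fl K00 K11 K22 R01 I01 R02 I02 R12 I12 G0 G1 G2 : List ℕ}

/-- **the modal certificate with products of squares** -/
theorem mainS (Q : Sq) (ht : D.hdr = true) (hm : D.m = 3) (hn : n1 + 1 = D.N) (hQ : Q.DP + 1 ≤ 2 * D.N)
    (hA : Q.okA nF = true) (hF : Q.okF D.sn D.h bL lam nF 0 Fl = true)
    (hc : chk n1 nF bL lam bK kap tau Xb b h K ε nε Fl K00 K11 K22 R01 I01 R02 I02 R12 I12 G0 G1 G2 D.S = true)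
    {T : Fin D.m → ℤ → Fin D.m → ℤ → ℝ}
    (hT : ∀ a b : Fin D.m, ∀ p < 2 * D.N - 1, ∀ q < 2 * D.N - 1, T a (sl p) b (sl q) = D.Tc a p b q / D.L)
    {q : Fin D.m → Fin D.m → ℤ → ℝ} (hq : ∀ a b : Fin D.m, ∀ i < 2 * D.J + 1, q a b ((i : ℤ) - D.J) = D.q a b i / D.L)
    {s : ℝ} {Y : ℝ → ℝ} (hY : St s Y) (h0 : 0 ≤ s) (hs : s ≤ D.sn / D.h) (z : Fin D.m → ℂ) :
    0 ≤ Frm D.N T z Y + Qf D.J q z Y := by
  have hh : 0 < D.h := by
    have ht' := ht
    simp only [hdr, Bool.and_eq_true, Nat.blt_eq] at ht'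
    exact ht'.1
  have hl : Fl.length = 2 * D.N - 1 := by
    have hc' := hc
    unfold chk at hc'
    rw [Bool.and_eq_true] at hc'
    simp only [PSD3.par, Bool.and_eq_true, Nat.ble_eq, Nat.beq_eq] at hc'
    obtain ⟨⟨_, _, _, _, _, _, _, _, _, _, _, h12, _⟩, _⟩ := hc'
    omega
  have hh' : (0 : ℝ) < 2 * D.h := by positivity
  refine main3 ht hm hn hc (f := fun i => lf ((D.sn : ℝ) / D.h) (ac Q.DP (Q.pc i))) (fun i _ => NN2_ac hQ (Q.pc i)) hh'
    (fun i hi p hp => ?_) (fun i hi p _ => ?_) hT hq hY h0 hs z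
  · exact Sq.fc_eq hh hA hF hl hi hp
  · rw [← rf_sl]
    exact lf_rf (ac_neg Q.DP (Q.pc i)) (sl_ne p)

end Cd

end Pool.Agent.FPX.MOB
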