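import Mathlib
import Pool.Agent.FPX.MOP

/-
MOL (helper50): linear forms in the slots and their products as lists over any ring; the same lists serve the
kernel computation and the real form.
-/

set_option autoImplicit false

noncomputable section

namespace Pool.Agent.FPX.MOL

open Complex
open Pool.Agent.FPX.QST (mn uk Wn mem_Wn)
open Pool.Agent.FPX.QSH (cm)
open Pool.Agent.FPX.MOE (U Y Qf)

variable {m : ℕ} {R S : Type*}

/-- a linear form: component, slot, coefficient -/
abbrev LF (m : ℕ) (R : Type*) := List (Fin m × ℤ × R)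

/-- products of linear forms -/
abbrev OP (m : ℕ) (R : Type*) := List (R × LF m R × LF m R)

/-- symbols: coefficient, two components, frequency -/
abbrev QL (m : ℕ) (R : Type*) := List (R × Fin m × Fin m × ℤ)

section ring

variable [CommRing R] [CommRing S]

/-- the coefficient at a slot -/
def co (l : LF m R) (a : Fin m) (s : ℤ) : R := (l.map fun e => if e.1 = a ∧ e.2.1 = s then e.2.2 else 0).sum

/-- the matrix of a list of products -/
def TO (P : OP m R) (a : Fin m) (s : ℤ) (b : Fin m) (t : ℤ) : R :=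
  (P.map fun e => e.1 * (co e.2.1 a s * co e.2.2 b t)).sum

/-- the symbol of a list -/
def qO (Q : QL m R) (a b : Fin m) (j : ℤ) : R :=
  (Q.map fun e => if e.2.1 = a ∧ e.2.2.1 = b ∧ e.2.2.2 = j then e.1 else 0).sum

def mapL (φ : R →+* S) (l : LF m R) : LF m S := l.map fun e => (e.1, e.2.1, φ e.2.2)

def mapO (φ : R →+* S) (P : OP m R) : OP m S := P.map fun e => (φ e.1, mapL φ e.2.1, mapL φ e.2.2)

def mapQ (φ : R →+* S) (Q : QL m R) : QL m S := Q.map fun e => (φ e.1, e.2.1, e.2.2.1, e.2.2.2)

theorem co_map (φ : R →+* S) (l : LF m R) (a : Fin m) (s : ℤ) : co (mapL φ l) a s = φ (co l a s) := by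
  unfold co mapL
  rw [List.map_map, map_list_sum, List.map_map]
  congr 1
  refine List.map_congr_left fun e _ => ?_
  simp only [Function.comp]
  split_ifs
  · rfl
  · exact (map_zero φ).symm

theorem TO_map (φ : R →+* S) (P : OP m R) (a : Fin m) (s : ℤ) (b : Fin m) (t : ℤ) :
    TO (mapO φ P) a s b t = φ (TO P a s b t) := by
  unfold TO mapO
  rw [List.map_map, map_list_sum, List.map_map]
  congr 1
  refine List.map_congr_left fun e _ => ?_
  simp only [Function.comp, co_map, map_mul]

theorem qO_map (φ : R →+* S) (Q : QL m R) (a b : Fin m) (j : ℤ) : qO (mapQ φ Q) a b j = φ (qO Q a b j) := by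
  unfold qO mapQ
  rw [List.map_map, map_list_sum, List.map_map]
  congr 1
  refine List.map_congr_left fun e _ => ?_
  simp only [Function.comp]
  split_ifs
  · rfl
  · exact (map_zero φ).symm

/-- a multiple of a linear form -/
def sm (c : R) (l : LF m R) : LF m R := l.map fun e => (e.1, e.2.1, c * e.2.2)

theorem co_sm (c : R) (l : LF m R) (a : Fin m) (s : ℤ) : co (sm c l) a s = c * co l a s := by
  unfold co sm
  rw [List.map_map, ← List.sum_map_mul_left]
  congr 1
  refine List.map_congr_left fun e _ => ?_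
  simp only [Function.comp]
  split_ifs
  · rfl
  · rw [mul_zero]

theorem co_append (l l' : LF m R) (a : Fin m) (s : ℤ) : co (l ++ l') a s = co l a s + co l' a s := by
  unfold co
  rw [List.map_append, List.sum_append]

theorem TO_append (P P' : OP m R) (a : Fin m) (s : ℤ) (b : Fin m) (t : ℤ) :
    TO (P ++ P') a s b t = TO P a s b t + TO P' a s b t := by
  unfold TO
  rw [List.map_append, List.sum_append]

theorem qO_append (Q Q' : QL m R) (a b : Fin m) (j : ℤ) : qO (Q ++ Q') a b j = qO Q a b j + qO Q' a b j := by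
  unfold qO
  rw [List.map_append, List.sum_append]

theorem mapL_append (φ : R →+* S) (l l' : LF m R) : mapL φ (l ++ l') = mapL φ l ++ mapL φ l' := by
  unfold mapL
  rw [List.map_append]

theorem mapL_sm (φ : R →+* S) (c : R) (l : LF m R) : mapL φ (sm c l) = sm (φ c) (mapL φ l) := by
  unfold mapL sm
  rw [List.map_map, List.map_map]
  refine List.map_congr_left fun e _ => ?_
  simp only [Function.comp, map_mul]

end ring

/-! ### values -/

variable (z : Fin m → ℂ) (X : ℝ → ℝ)

/-- the value of a linear form -/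
def val (l : LF m ℝ) : ℂ := (l.map fun e => (e.2.2 : ℂ) * Y z X e.1 e.2.1).sum

/-- the value of a list of products -/
def OV (P : OP m ℝ) : ℝ := (P.map fun e => e.1 * (val z X e.2.1 * (starRingEnd ℂ) (val z X e.2.2)).re).sum

/-- the value of a symbol -/
def QV (Q : QL m ℝ) : ℝ := (Q.map fun e => e.1 * (z e.2.1 * (starRingEnd ℂ) (z e.2.2.1) * cm X e.2.2.2).re).sum

theorem val_nil : val z X [] = 0 := rfl

theorem val_cons (a : Fin m) (s : ℤ) (c : ℝ) (l : LF m ℝ) :
    val z X ((a, s, c) :: l) = (c : ℂ) * Y z X a s + val z X l := by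
  unfold val
  rw [List.map_cons, List.sum_cons]

theorem val_append (l l' : LF m ℝ) : val z X (l ++ l') = val z X l + val z X l' := by
  unfold val
  rw [List.map_append, List.sum_append]

theorem val_sm (c : ℝ) (l : LF m ℝ) : val z X (sm c l) = (c : ℂ) * val z X l := by
  unfold val sm
  rw [List.map_map, ← List.sum_map_mul_left]
  congr 1
  refine List.map_congr_left fun e _ => ?_
  simp only [Function.comp]
  push_cast
  ring

theorem OV_nil : OV z X [] = 0 := rfl

theorem OV_cons (c : ℝ) (l l' : LF m ℝ) (P : OP m ℝ) :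
    OV z X ((c, l, l') :: P) = c * (val z X l * (starRingEnd ℂ) (val z X l')).re + OV z X P := by
  unfold OV
  rw [List.map_cons, List.sum_cons]

theorem OV_append (P P' : OP m ℝ) : OV z X (P ++ P') = OV z X P + OV z X P' := by
  unfold OV
  rw [List.map_append, List.sum_append]

theorem QV_nil : QV z X [] = 0 := rfl

theorem QV_cons (c : ℝ) (a b : Fin m) (j : ℤ) (Q : QL m ℝ) :
    QV z X ((c, a, b, j) :: Q) = c * (z a * (starRingEnd ℂ) (z b) * cm X j).re + QV z X Q := by
  unfold QV
  rw [List.map_cons, List.sum_cons]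

theorem QV_append (Q Q' : QL m ℝ) : QV z X (Q ++ Q') = QV z X Q + QV z X Q' := by
  unfold QV
  rw [List.map_append, List.sum_append]

/-- all slots in the window -/
def okL {R : Type*} (N : ℕ) (l : LF m R) : Prop := ∀ e ∈ l, e.2.1 ∈ Wn N

def okO {R : Type*} (N : ℕ) (P : OP m R) : Prop := ∀ e ∈ P, okL N e.2.1 ∧ okL N e.2.2

def okQ {R : Type*} (J : ℕ) (Q : QL m R) : Prop := ∀ e ∈ Q, e.2.2.2 ∈ Finset.Ico (-(J : ℤ)) (J + 1)

theorem sum_co {N : ℕ} {l : LF m ℝ} (h : okL N l) :
    ∑ a, ∑ s ∈ Wn N, ((co l a s : ℝ) : ℂ) * Y z X a s = val z X l := by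
  induction l with
  | nil => simp [co, val]
  | cons e l ih =>
    obtain ⟨a₀, s₀, c⟩ := e
    have h1 : okL N l := fun e he => h e (List.mem_cons_of_mem _ he)
    have h2 : s₀ ∈ Wn N := h (a₀, s₀, c) List.mem_cons_self
    rw [val_cons, ← ih h1]
    have e1 : ∀ a s, ((co ((a₀, s₀, c) :: l) a s : ℝ) : ℂ) * Y z X a s
        = (if a = a₀ then (if s = s₀ then (c : ℂ) * Y z X a s else 0) else 0) + ((co l a s : ℝ) : ℂ) * Y z X a s := by
      intro a s
      unfold co
      rw [List.map_cons, List.sum_cons]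
      push_cast
      rw [add_mul]
      congr 1
      by_cases ha : a = a₀
      · by_cases hs : s = s₀
        · rw [if_pos ⟨ha.symm, hs.symm⟩, if_pos ha, if_pos hs]
        · rw [if_neg fun h => hs h.2.symm, if_pos ha, if_neg hs, Complex.ofReal_zero, zero_mul]
      · rw [if_neg fun h => ha h.1.symm, if_neg ha, Complex.ofReal_zero, zero_mul]
    simp only [e1, Finset.sum_add_distrib]
    congr 1
    have e2 : ∀ a, (∑ s ∈ Wn N, if a = a₀ then (if s = s₀ then (c : ℂ) * Y z X a s else 0) else 0)
        = if a = a₀ then (c : ℂ) * Y z X a s₀ else 0 := by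
      intro a
      split_ifs
      · rw [Finset.sum_ite_eq' (Wn N) s₀ fun s => (c : ℂ) * Y z X a s, if_pos h2]
      · exact Finset.sum_const_zero
    simp only [e2]
    rw [Finset.sum_ite_eq' Finset.univ a₀ fun a => (c : ℂ) * Y z X a s₀, if_pos (Finset.mem_univ _)]

theorem Frm_outer {N : ℕ} (f g : Fin m → ℤ → ℝ) :
    MOE.Frm N (fun a s b t => f a s * g b t) z X
      = ((∑ a, ∑ s ∈ Wn N, ((f a s : ℝ) : ℂ) * Y z X a s)
        * (starRingEnd ℂ) (∑ b, ∑ t ∈ Wn N, ((g b t : ℝ) : ℂ) * Y z X b t)).re := by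
  unfold MOE.Frm
  congr 1
  rw [Finset.sum_mul]
  refine Finset.sum_congr rfl fun a _ => ?_
  rw [Finset.sum_mul]
  rw [Finset.sum_comm]
  refine Finset.sum_congr rfl fun s _ => ?_
  rw [map_sum, Finset.mul_sum]
  refine Finset.sum_congr rfl fun b _ => ?_
  rw [map_sum, Finset.mul_sum]
  refine Finset.sum_congr rfl fun t _ => ?_
  rw [map_mul, Complex.conj_ofReal]
  push_cast
  ring

theorem Frm_smul {N : ℕ} (c : ℝ) (T : Fin m → ℤ → Fin m → ℤ → ℝ) :
    MOE.Frm N (fun a s b t => c * T a s b t) z X = c * MOE.Frm N T z X := by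
  unfold MOE.Frm
  rw [← Complex.re_ofReal_mul]
  congr 1
  simp only [Finset.mul_sum]
  refine Finset.sum_congr rfl fun a _ => Finset.sum_congr rfl fun b _ => Finset.sum_congr rfl fun s _ =>
    Finset.sum_congr rfl fun t _ => ?_
  push_cast
  ring

/-- **the form of a list of products** -/
theorem Frm_TO {N : ℕ} {P : OP m ℝ} (h : okO N P) : MOE.Frm N (TO P) z X = OV z X P := by
  induction P with
  | nil =>
    unfold MOE.Frm TO OV
    simp
  | cons e P ih =>
    obtain ⟨c, l, l'⟩ := e
    have h1 : okO N P := fun e he => h e (List.mem_cons_of_mem _ he)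
    have h2 := h (c, l, l') List.mem_cons_self
    rw [OV_cons, ← ih h1, ← sum_co z X h2.1, ← sum_co z X h2.2, ← Frm_outer, ← Frm_smul, ← MOE.Frm_add]
    congr 1

/-- **the form of a list of symbols** -/
theorem Qf_qO {J : ℕ} {Q : QL m ℝ} (h : okQ J Q) : Qf J (qO Q) z X = QV z X Q := by
  induction Q with
  | nil =>
    unfold Qf qO QV
    simp
  | cons e Q ih =>
    obtain ⟨c, a₀, b₀, j₀⟩ := e
    have h1 : okQ J Q := fun e he => h e (List.mem_cons_of_mem _ he)
    have h2 := h (c, a₀, b₀, j₀) List.mem_cons_self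
    rw [QV_cons, ← ih h1]
    have e1 : ∀ a b j, ((qO ((c, a₀, b₀, j₀) :: Q) a b j : ℝ) : ℂ) * cm X j
        = (if a = a₀ then (if b = b₀ then (if j = j₀ then (c : ℂ) * cm X j else 0) else 0) else 0)
          + ((qO Q a b j : ℝ) : ℂ) * cm X j := by
      intro a b j
      unfold qO
      rw [List.map_cons, List.sum_cons]
      push_cast
      rw [add_mul]
      congr 1
      by_cases ha : a = a₀
      · by_cases hb : b = b₀
        · by_cases hj : j = j₀
          · rw [if_pos ⟨ha.symm, hb.symm, hj.symm⟩, if_pos ha, if_pos hb, if_pos hj]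
          · rw [if_neg fun h => hj h.2.2.symm, if_pos ha, if_pos hb, if_neg hj, Complex.ofReal_zero, zero_mul]
        · rw [if_neg fun h => hb h.2.1.symm, if_pos ha, if_neg hb, Complex.ofReal_zero, zero_mul]
      · rw [if_neg fun h => ha h.1.symm, if_neg ha, Complex.ofReal_zero, zero_mul]
    unfold Qf
    rw [← Complex.re_ofReal_mul, ← Complex.add_re]
    congr 1
    simp only [e1, Finset.sum_add_distrib, mul_add]
    congr 1
    have e2 : ∀ a b, (∑ j ∈ Finset.Ico (-(J : ℤ)) (J + 1), if a = a₀ then (if b = b₀ then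
        (if j = j₀ then (c : ℂ) * cm X j else 0) else 0) else 0)
        = if a = a₀ then (if b = b₀ then (c : ℂ) * cm X j₀ else 0) else 0 := by
      intro a b
      split_ifs
      · rw [Finset.sum_ite_eq' (Finset.Ico (-(J : ℤ)) (J + 1)) j₀ fun j => (c : ℂ) * cm X j, if_pos h2]
      · exact Finset.sum_const_zero
      · exact Finset.sum_const_zero
    simp only [e2]
    have e3 : ∀ a, (∑ b, z a * (starRingEnd ℂ) (z b) * (if a = a₀ then (if b = b₀ then (c : ℂ) * cm X j₀ else 0) else 0))
        = if a = a₀ then z a * (starRingEnd ℂ) (z b₀) * ((c : ℂ) * cm X j₀) else 0 := by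
      intro a
      by_cases ha : a = a₀
      · simp only [if_pos ha]
        have e4 : ∀ b, z a * (starRingEnd ℂ) (z b) * (if b = b₀ then (c : ℂ) * cm X j₀ else 0)
            = if b = b₀ then z a * (starRingEnd ℂ) (z b) * ((c : ℂ) * cm X j₀) else 0 := by
          intro b
          split_ifs
          · rfl
          · rw [mul_zero]
        simp only [e4]
        rw [Finset.sum_ite_eq' Finset.univ b₀ fun b => z a * (starRingEnd ℂ) (z b) * ((c : ℂ) * cm X j₀),
          if_pos (Finset.mem_univ _)]
      · simp only [if_neg ha, mul_zero]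
        exact Finset.sum_const_zero
    simp only [e3]
    rw [Finset.sum_ite_eq' Finset.univ a₀ fun a => z a * (starRingEnd ℂ) (z b₀) * ((c : ℂ) * cm X j₀),
      if_pos (Finset.mem_univ _)]
    ring

end Pool.Agent.FPX.MOL
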