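import Mathlib
import Pool.Agent.FPX.MOL
import Pool.Agent.FPX.BRX
import Pool.Agent.FPX.BRH

/-
MOC (helper50): the lists of `BRX` (components in `ℕ`, modes `mean (x E^n)`) in the slots of `MOE`.
-/

set_option autoImplicit false

open MeasureTheory Set Filter Topology

noncomputable section

namespace Pool.Agent.FPX.MOC

open Complex
open Pool.Agent.FPX.QST (uk Wn mem_Wn)
open Pool.Agent.FPX.QSH (cm)
open Pool.Agent.FPX.ALX (St)
open Pool.Agent.FPX.MOE (U Y)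
open Pool.Agent.FPX.BTN (va e1 int_va e1_cont norm_e1)
open Pool.Agent.FPX.BRG (Zr vl ev e2 eq2 ev_cons ev_nil e2_cons e2_nil eq2_cons eq2_nil)
open Pool.Agent.FPX.MOL (LF OP QL co TO qO mapL mapO mapQ OV QV okL okO okQ)

variable {s : ℝ} {X : ℝ → ℝ}

/-! ### the moments -/

theorem e1_zpow (n : ℤ) (a : ℝ) : e1 a ^ n = ⟨Real.cos (n * a), Real.sin (n * a)⟩ := by
  unfold e1
  rw [← Complex.exp_int_mul]
  have e : (n : ℂ) * ((a : ℂ) * I) = ((((n : ℝ) * a : ℝ)) : ℂ) * I := by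
    push_cast
    ring
  rw [e]
  exact MOP.cexp_re_im _

theorem int_cos_sin {g : ℝ → ℝ} (hg : Continuous g) (n : ℤ) :
    ∫ a, (g a : ℂ) * e1 a ^ n ∂va
      = ⟨QST.mn fun a => g a * Real.cos (n * a), QST.mn fun a => g a * Real.sin (n * a)⟩ := by
  rw [int_va]
  have e : ∀ a : ℝ, (g a : ℂ) * e1 a ^ n = ((g a * Real.cos (n * a) : ℝ) : ℂ) + ((g a * Real.sin (n * a) : ℝ) : ℂ) * I := by
    intro a
    rw [e1_zpow]
    generalize Real.cos (n * a) = cw
    generalize Real.sin (n * a) = sw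
    apply Complex.ext
    · simp
    · simp
  have i1 : IntervalIntegrable (fun a : ℝ => ((g a * Real.cos (n * a) : ℝ) : ℂ)) volume 0 (2 * Real.pi) :=
    (Complex.continuous_ofReal.comp (hg.mul (by fun_prop))).intervalIntegrable _ _
  have i2 : IntervalIntegrable (fun a : ℝ => ((g a * Real.sin (n * a) : ℝ) : ℂ) * I) volume 0 (2 * Real.pi) :=
    ((Complex.continuous_ofReal.comp (hg.mul (by fun_prop))).mul continuous_const).intervalIntegrable _ _
  simp only [e]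
  rw [intervalIntegral.integral_add i1 i2, intervalIntegral.integral_mul_const, intervalIntegral.integral_ofReal,
    intervalIntegral.integral_ofReal]
  unfold QST.mn
  generalize (∫ a in (0 : ℝ)..(2 * Real.pi), g a * Real.cos (n * a)) = c1
  generalize (∫ a in (0 : ℝ)..(2 * Real.pi), g a * Real.sin (n * a)) = c2
  apply Complex.ext
  · simp
  · simp

theorem zr1 (hX : Continuous X) (n : ℤ) : Zr 1 va X e1 n = MOP.Xh X n := by
  unfold Zr MOP.Xh
  simp only [pow_one]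
  exact int_cos_sin hX n

theorem zr2 (hX : Continuous X) (j : ℤ) : Zr 2 va X e1 (-(2 * j)) = cm X j := by
  unfold Zr
  have e : ∀ a, (X a : ℂ) ^ 2 * e1 a ^ (-(2 * j)) = ((X a ^ 2 : ℝ) : ℂ) * e1 a ^ (-(2 * j)) := by
    intro a
    push_cast
    rfl
  simp only [e]
  rw [int_cos_sin (g := fun a => X a ^ 2) (hX.pow 2)]
  unfold cm
  have e1 : (fun a => X a ^ 2 * Real.cos (((-(2 * j) : ℤ) : ℝ) * a)) = fun t => X t ^ 2 * Real.cos (2 * j * t) := by
    funext a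
    rw [← Real.cos_neg]
    congr 2
    push_cast
    ring
  have e2 : (fun a => X a ^ 2 * Real.sin (((-(2 * j) : ℤ) : ℝ) * a)) = fun t => (-1) * (X t ^ 2 * Real.sin (2 * j * t)) := by
    funext a
    rw [show ((-(2 * j) : ℤ) : ℝ) * a = -(2 * j * a) by push_cast; ring, Real.sin_neg]
    ring
  rw [e1, e2, ALX.mn_mul]
  apply Complex.ext
  · rfl
  · simp only [neg_one_mul]
    unfold QST.mn
    rw [← mul_neg, ← intervalIntegral.integral_neg]

/-- the slot of a mode -/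
def sl (n : ℤ) : ℤ := if n = 0 then 0 else (-n - 1) / 2

def okM (n : ℤ) : Bool := n = 0 || (n % 2 = 1 && n ≠ -1)

theorem vl_sl (hX : St s X) {n : ℤ} (h : okM n = true) : vl va X e1 n = U X (sl n) := by
  unfold vl U sl
  unfold okM at h
  by_cases h0 : n = 0
  · rw [if_pos h0, if_pos h0, if_pos rfl]
  · simp only [h0, decide_false, Bool.false_or, Bool.and_eq_true, decide_eq_true_eq, ne_eq] at h
    obtain ⟨h1, h2⟩ := h
    have h3 : ¬ ((-n - 1) / 2 = 0) := by omega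
    rw [if_neg h0, if_neg h0, if_neg h3, zr1 hX.cont, ← MOP.Xh_odd hX.cont]
    congr 1
    omega

/-! ### the lists -/

variable {m : ℕ} [NeZero m]

def cvL (m : ℕ) [NeZero m] (l : BRG.Lf) : LF m ℚ := l.map fun t => (Fin.ofNat m t.2.1, sl t.2.2, t.1)

def cvT (m : ℕ) [NeZero m] (T : BRG.Tf) : OP m ℚ := T.map fun t => (t.1, cvL m t.2.1, cvL m t.2.2)

def cvQ (m : ℕ) [NeZero m] (q : BRG.Qf) : QL m ℚ :=
  q.map fun t => (t.1, Fin.ofNat m t.2.1, Fin.ofNat m t.2.2.1, -t.2.2.2 / 2)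

def chL (m N : ℕ) (l : BRG.Lf) : Bool :=
  l.all fun t => decide (t.2.1 < m) && (okM t.2.2 && (decide (-(N : ℤ) ≤ sl t.2.2) && decide (sl t.2.2 < N)))

def chT (m N : ℕ) (T : BRG.Tf) : Bool := T.all fun t => chL m N t.2.1 && chL m N t.2.2

def chQ (m J : ℕ) (q : BRG.Qf) : Bool :=
  q.all fun t => decide (t.2.1 < m) && (decide (t.2.2.1 < m) && (decide (t.2.2.2 % 2 = 0)
    && (decide (-(J : ℤ) ≤ -t.2.2.2 / 2) && decide (-t.2.2.2 / 2 < (J : ℤ) + 1))))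

/-- the restriction of the components -/
def zf (m : ℕ) (z : ℕ → ℂ) (a : Fin m) : ℂ := z a

theorem zf_of {z : ℕ → ℂ} {a : ℕ} (h : a < m) : zf m z (Fin.ofNat m a) = z a := by
  unfold zf
  rw [Fin.val_ofNat, Nat.mod_eq_of_lt h]

omit [NeZero m] in
theorem chL_cons {N : ℕ} {t : ℚ × ℕ × ℤ} {l : BRG.Lf} (h : chL m N (t :: l) = true) :
    (t.2.1 < m ∧ okM t.2.2 = true ∧ -(N : ℤ) ≤ sl t.2.2 ∧ sl t.2.2 < N) ∧ chL m N l = true := by
  unfold chL at h ⊢
  rw [List.all_cons] at h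
  simp only [Bool.and_eq_true, decide_eq_true_eq] at h
  exact ⟨⟨h.1.1, h.1.2.1, h.1.2.2.1, h.1.2.2.2⟩, h.2⟩

theorem val_cv (hX : St s X) {N : ℕ} (z : ℕ → ℂ) {l : BRG.Lf} (h : chL m N l = true) :
    MOL.val (zf m z) X (mapL (Rat.castHom ℝ) (cvL m l)) = ev z (vl va X e1) l := by
  induction l with
  | nil => rfl
  | cons t l ih =>
    obtain ⟨⟨h1, h2, -, -⟩, h5⟩ := chL_cons h
    have e : mapL (Rat.castHom ℝ) (cvL m (t :: l))
        = (Fin.ofNat m t.2.1, sl t.2.2, ((t.1 : ℚ) : ℝ)) :: mapL (Rat.castHom ℝ) (cvL m l) := rfl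
    rw [e, MOL.val_cons, ih h5, ev_cons]
    unfold Y
    rw [zf_of h1, vl_sl hX h2, Complex.ofReal_ratCast]

theorem ok_cv {N : ℕ} {l : BRG.Lf} (h : chL m N l = true) : okL N (mapL (Rat.castHom ℝ) (cvL m l)) := by
  induction l with
  | nil =>
    intro e he
    exact absurd he List.not_mem_nil
  | cons t l ih =>
    obtain ⟨⟨-, -, h3, h4⟩, h5⟩ := chL_cons h
    intro e he
    have e' : mapL (Rat.castHom ℝ) (cvL m (t :: l))
        = (Fin.ofNat m t.2.1, sl t.2.2, ((t.1 : ℚ) : ℝ)) :: mapL (Rat.castHom ℝ) (cvL m l) := rfl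
    rw [e'] at he
    rcases List.mem_cons.1 he with rfl | he
    · exact mem_Wn.2 ⟨h3, h4⟩
    · exact ih h5 e he

omit [NeZero m] in
theorem chT_cons {N : ℕ} {t : ℚ × BRG.Lf × BRG.Lf} {T : BRG.Tf} (h : chT m N (t :: T) = true) :
    (chL m N t.2.1 = true ∧ chL m N t.2.2 = true) ∧ chT m N T = true := by
  unfold chT at h ⊢
  rw [List.all_cons] at h
  simpa only [Bool.and_eq_true] using h

theorem OV_cv (hX : St s X) {N : ℕ} (z : ℕ → ℂ) {T : BRG.Tf} (h : chT m N T = true) :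
    OV (zf m z) X (mapO (Rat.castHom ℝ) (cvT m T)) = (e2 z (vl va X e1) T).re := by
  induction T with
  | nil => rfl
  | cons t T ih =>
    obtain ⟨⟨h1, h2⟩, h3⟩ := chT_cons h
    have e : mapO (Rat.castHom ℝ) (cvT m (t :: T)) = (((t.1 : ℚ) : ℝ), mapL (Rat.castHom ℝ) (cvL m t.2.1),
        mapL (Rat.castHom ℝ) (cvL m t.2.2)) :: mapO (Rat.castHom ℝ) (cvT m T) := rfl
    rw [e, MOL.OV_cons, ih h3, e2_cons, Complex.add_re, val_cv hX z h1, val_cv hX z h2]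
    congr 1
    rw [← Complex.ofReal_ratCast, Complex.re_ofReal_mul]

theorem okO_cv {N : ℕ} {T : BRG.Tf} (h : chT m N T = true) : okO N (mapO (Rat.castHom ℝ) (cvT m T)) := by
  induction T with
  | nil =>
    intro e he
    exact absurd he List.not_mem_nil
  | cons t T ih =>
    obtain ⟨⟨h1, h2⟩, h3⟩ := chT_cons h
    intro e he
    have e' : mapO (Rat.castHom ℝ) (cvT m (t :: T)) = (((t.1 : ℚ) : ℝ), mapL (Rat.castHom ℝ) (cvL m t.2.1),
        mapL (Rat.castHom ℝ) (cvL m t.2.2)) :: mapO (Rat.castHom ℝ) (cvT m T) := rfl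
    rw [e'] at he
    rcases List.mem_cons.1 he with rfl | he
    · exact ⟨ok_cv h1, ok_cv h2⟩
    · exact ih h3 e he

omit [NeZero m] in
theorem chQ_cons {J : ℕ} {t : ℚ × ℕ × ℕ × ℤ} {q : BRG.Qf} (h : chQ m J (t :: q) = true) :
    (t.2.1 < m ∧ t.2.2.1 < m ∧ t.2.2.2 % 2 = 0 ∧ -(J : ℤ) ≤ -t.2.2.2 / 2 ∧ -t.2.2.2 / 2 < (J : ℤ) + 1)
      ∧ chQ m J q = true := by
  unfold chQ at h ⊢
  rw [List.all_cons] at h
  simp only [Bool.and_eq_true, decide_eq_true_eq] at h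
  exact ⟨⟨h.1.1, h.1.2.1, h.1.2.2.1, h.1.2.2.2.1, h.1.2.2.2.2⟩, h.2⟩

theorem QV_cv (hX : St s X) {J : ℕ} (z : ℕ → ℂ) {q : BRG.Qf} (h : chQ m J q = true) :
    QV (zf m z) X (mapQ (Rat.castHom ℝ) (cvQ m q)) = (eq2 z (Zr 2 va X e1) q).re := by
  induction q with
  | nil => rfl
  | cons t q ih =>
    obtain ⟨⟨h1, h2, h3, -, -⟩, h6⟩ := chQ_cons h
    have e : mapQ (Rat.castHom ℝ) (cvQ m (t :: q)) = (((t.1 : ℚ) : ℝ), Fin.ofNat m t.2.1, Fin.ofNat m t.2.2.1,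
        -t.2.2.2 / 2) :: mapQ (Rat.castHom ℝ) (cvQ m q) := rfl
    have e2 : Zr 2 va X e1 t.2.2.2 = cm X (-t.2.2.2 / 2) := by
      rw [← zr2 hX.cont]
      congr 1
      omega
    rw [e, MOL.QV_cons, ih h6, eq2_cons, Complex.add_re, zf_of h1, zf_of h2, e2]
    congr 1
    rw [← Complex.ofReal_ratCast, Complex.re_ofReal_mul]

theorem okQ_cv {J : ℕ} {q : BRG.Qf} (h : chQ m J q = true) : okQ J (mapQ (Rat.castHom ℝ) (cvQ m q)) := by
  induction q with
  | nil =>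
    intro e he
    exact absurd he List.not_mem_nil
  | cons t q ih =>
    obtain ⟨⟨-, -, -, h4, h5⟩, h6⟩ := chQ_cons h
    intro e he
    have e' : mapQ (Rat.castHom ℝ) (cvQ m (t :: q)) = (((t.1 : ℚ) : ℝ), Fin.ofNat m t.2.1, Fin.ofNat m t.2.2.1,
        -t.2.2.2 / 2) :: mapQ (Rat.castHom ℝ) (cvQ m q) := rfl
    rw [e'] at he
    rcases List.mem_cons.1 he with rfl | he
    · exact Finset.mem_Ico.2 ⟨h4, h5⟩
    · exact ih h6 e he

/-- **from the slots to the lists of `BRX`** -/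
theorem of_slots (hX : St s X) {N J : ℕ} {T : BRG.Tf} {q : BRG.Qf} (hT : chT m N T = true) (hq : chQ m J q = true)
    (h : ∀ z : Fin m → ℂ, 0 ≤ MOE.Frm N (fun a s b t => ((TO (cvT m T) a s b t : ℚ) : ℝ)) z X
      + MOE.Qf J (fun a b j => ((qO (cvQ m q) a b j : ℚ) : ℝ)) z X) (z : ℕ → ℂ) :
    0 ≤ (e2 z (vl va X e1) T + eq2 z (Zr 2 va X e1) q).re := by
  have k := h (zf m z)
  have a1 : (fun (a : Fin m) (s : ℤ) (b : Fin m) (t : ℤ) => ((TO (cvT m T) a s b t : ℚ) : ℝ))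
      = TO (mapO (Rat.castHom ℝ) (cvT m T)) := by
    funext a s b t
    rw [MOL.TO_map]
    rfl
  have a2 : (fun (a b : Fin m) (j : ℤ) => ((qO (cvQ m q) a b j : ℚ) : ℝ)) = qO (mapQ (Rat.castHom ℝ) (cvQ m q)) := by
    funext a b j
    rw [MOL.qO_map]
    rfl
  rw [a1, a2, MOL.Frm_TO _ _ (okO_cv hT), MOL.Qf_qO _ _ (okQ_cv hq), OV_cv hX z hT, QV_cv hX z hq] at k
  rw [Complex.add_re]
  exact k

end Pool.Agent.FPX.MOC
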