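import Mathlib
import Pool.Agent.FPX.MOB
import Pool.Agent.FPX.MOC

/-
MOT (helper50): the tables `T`, `q` of `MOB.Cd` against the rational lists of `BRX`, with rounding: the error of the
table is absorbed by the diagonal.
-/

set_option autoImplicit false

open MeasureTheory Finset

noncomputable section

namespace Pool.Agent.FPX.MOT

open Complex
open Pool.Agent.FPX.QST (mn uk Wn mem_Wn)
open Pool.Agent.FPX.QSH (cm)
open Pool.Agent.FPX.ALX (St)
open Pool.Agent.FPX.MOE (U Y Qf)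
open Pool.Agent.FPX.MOB (Cd dn pn al al_ok)
open Pool.Agent.FPX.MOL (LF OP QL co TO qO mapL mapO mapQ)
open Pool.Agent.FPX.MOC (cvL cvT cvQ chL chT chQ okM of_slots)

variable {m : ℕ}

/-! ### diagonal dominance -/

theorem re_symm (z w : ℂ) : (z * (starRingEnd ℂ) w).re = (w * (starRingEnd ℂ) z).re := by
  simp only [Complex.mul_re, Complex.conj_re, Complex.conj_im]
  ring

theorem re_bd (z w : ℂ) : |(z * (starRingEnd ℂ) w).re| ≤ (‖z‖ ^ 2 + ‖w‖ ^ 2) / 2 := by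
  have h1 : |(z * (starRingEnd ℂ) w).re| ≤ ‖z‖ * ‖w‖ := by
    refine (Complex.abs_re_le_norm _).trans ?_
    rw [norm_mul, Complex.norm_conj]
  nlinarith [sq_nonneg (‖z‖ - ‖w‖)]

theorem dd {κ : Type*} [DecidableEq κ] (I : Finset κ) (A : κ → κ → ℝ) {e f : ℝ} (he : 0 ≤ e)
    (h1 : ∀ i ∈ I, ∀ j ∈ I, i ≠ j → |A i j + A j i| ≤ 2 * e) (h2 : ∀ i ∈ I, e * I.card + f ≤ A i i) (y : κ → ℂ) :
    f * ∑ i ∈ I, ‖y i‖ ^ 2 ≤ ∑ i ∈ I, ∑ j ∈ I, A i j * (y i * (starRingEnd ℂ) (y j)).re := by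
  have s1 : ∑ i ∈ I, ∑ j ∈ I, A i j * (y i * (starRingEnd ℂ) (y j)).re
      = ∑ i ∈ I, ∑ j ∈ I, (A i j + A j i) / 2 * (y i * (starRingEnd ℂ) (y j)).re := by
    have e1 : ∑ i ∈ I, ∑ j ∈ I, A i j * (y i * (starRingEnd ℂ) (y j)).re
        = ∑ i ∈ I, ∑ j ∈ I, A j i * (y i * (starRingEnd ℂ) (y j)).re := by
      rw [Finset.sum_comm]
      refine Finset.sum_congr rfl fun i _ => Finset.sum_congr rfl fun j _ => ?_
      rw [re_symm]
    have e2 : ∑ i ∈ I, ∑ j ∈ I, (A i j + A j i) / 2 * (y i * (starRingEnd ℂ) (y j)).re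
        = (∑ i ∈ I, ∑ j ∈ I, A i j * (y i * (starRingEnd ℂ) (y j)).re
          + ∑ i ∈ I, ∑ j ∈ I, A j i * (y i * (starRingEnd ℂ) (y j)).re) / 2 := by
      rw [← Finset.sum_add_distrib, Finset.sum_div]
      refine Finset.sum_congr rfl fun i _ => ?_
      rw [← Finset.sum_add_distrib, Finset.sum_div]
      refine Finset.sum_congr rfl fun j _ => ?_
      ring
    rw [e2, ← e1]
    ring
  rw [s1]
  have s2 : ∑ i ∈ I, ∑ j ∈ I, ((if i = j then (A i i + e) * ‖y i‖ ^ 2 else 0) - e * ((‖y i‖ ^ 2 + ‖y j‖ ^ 2) / 2))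
      ≤ ∑ i ∈ I, ∑ j ∈ I, (A i j + A j i) / 2 * (y i * (starRingEnd ℂ) (y j)).re := by
    refine Finset.sum_le_sum fun i hi => Finset.sum_le_sum fun j hj => ?_
    split_ifs with h
    · subst h
      have e3 : (y i * (starRingEnd ℂ) (y i)).re = ‖y i‖ ^ 2 := by
        rw [Complex.mul_conj, Complex.normSq_eq_norm_sq, Complex.ofReal_re]
      rw [e3]
      apply le_of_eq
      ring
    · have a1 := h1 i hi j hj h
      have a2 := re_bd (y i) (y j)
      have a3 : |(A i j + A j i) / 2 * (y i * (starRingEnd ℂ) (y j)).re| ≤ e * ((‖y i‖ ^ 2 + ‖y j‖ ^ 2) / 2) := by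
        rw [abs_mul]
        refine mul_le_mul ?_ a2 (abs_nonneg _) he
        rw [abs_div, abs_two]
        linarith
      have a4 := (abs_le.1 a3).1
      linarith
  refine le_trans ?_ s2
  have s3 : ∑ i ∈ I, ∑ j ∈ I, ((if i = j then (A i i + e) * ‖y i‖ ^ 2 else 0) - e * ((‖y i‖ ^ 2 + ‖y j‖ ^ 2) / 2))
      = ∑ i ∈ I, (A i i + e - e * I.card) * ‖y i‖ ^ 2 := by
    have b1 : ∀ i ∈ I, ∑ j ∈ I, ((if i = j then (A i i + e) * ‖y i‖ ^ 2 else 0) - e * ((‖y i‖ ^ 2 + ‖y j‖ ^ 2) / 2))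
        = (A i i + e) * ‖y i‖ ^ 2 - e * ((I.card * ‖y i‖ ^ 2 + ∑ j ∈ I, ‖y j‖ ^ 2) / 2) := by
      intro i hi
      rw [Finset.sum_sub_distrib, Finset.sum_ite_eq, if_pos hi, ← Finset.mul_sum, ← Finset.sum_div,
        Finset.sum_add_distrib, Finset.sum_const, nsmul_eq_mul]
    rw [Finset.sum_congr rfl b1, Finset.sum_sub_distrib, ← Finset.mul_sum, ← Finset.sum_div, Finset.sum_add_distrib,
      Finset.sum_const, nsmul_eq_mul, ← Finset.mul_sum]
    have b2 : ∑ i ∈ I, (A i i + e - e * I.card) * ‖y i‖ ^ 2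
        = ∑ i ∈ I, (A i i + e) * ‖y i‖ ^ 2 - e * I.card * ∑ i ∈ I, ‖y i‖ ^ 2 := by
      rw [Finset.mul_sum, ← Finset.sum_sub_distrib]
      refine Finset.sum_congr rfl fun i _ => ?_
      ring
    rw [b2]
    ring
  rw [s3, Finset.mul_sum]
  refine Finset.sum_le_sum fun i hi => mul_le_mul_of_nonneg_right ?_ (by positivity)
  have := h2 i hi
  linarith

/-! ### the symbol -/

theorem cm_neg (X : ℝ → ℝ) (j : ℤ) : cm X (-j) = (starRingEnd ℂ) (cm X j) := by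
  unfold cm
  apply Complex.ext
  · simp only [Complex.conj_re]
    congr 1
    funext t
    rw [← Real.cos_neg (2 * (j : ℝ) * t)]
    congr 2
    push_cast
    ring
  · simp only [Complex.conj_im]
    rw [show -(QST.mn fun t => -(X t ^ 2 * Real.sin (2 * (j : ℝ) * t)))
      = QST.mn fun t => (-1) * -(X t ^ 2 * Real.sin (2 * (j : ℝ) * t)) by rw [ALX.mn_mul]; ring]
    congr 1
    funext t
    rw [show 2 * ((-j : ℤ) : ℝ) * t = -(2 * (j : ℝ) * t) by push_cast; ring, Real.sin_neg]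
    ring

theorem cm_le {X : ℝ → ℝ} (hX : Continuous X) (hb : ∀ a, |X a| ≤ 1) (j : ℤ) : ‖cm X j‖ ≤ 1 := by
  have e := MOC.zr2 hX j
  rw [← e]
  unfold BRG.Zr
  have h : ∀ a : ℝ, ‖(X a : ℂ) ^ 2 * BTN.e1 a ^ (-(2 * j))‖ ≤ 1 := by
    intro a
    rw [norm_mul, norm_zpow, BTN.norm_e1, one_zpow, mul_one, norm_pow, Complex.norm_real, Real.norm_eq_abs]
    exact pow_le_one₀ (abs_nonneg _) (hb a)
  have h2 := norm_integral_le_of_norm_le_const (μ := BTN.va) (C := 1) (Filter.Eventually.of_forall h)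
  refine h2.trans ?_
  rw [one_mul]
  exact le_of_eq (by simp)

theorem Qf_bd {J : ℕ} {q : Fin m → Fin m → ℤ → ℝ} {e : ℝ} {X : ℝ → ℝ} (hX : Continuous X) (hb : ∀ a, |X a| ≤ 1)
    (h : ∀ a b, ∀ j ∈ Finset.Ico (-(J : ℤ)) (J + 1), |q a b j + q b a (-j)| ≤ 2 * e) (z : Fin m → ℂ) :
    -(e * ((2 * J + 1) * m)) * ∑ a, ‖z a‖ ^ 2 ≤ Qf J q z X := by
  have w0 : ∀ a b j, (z b * (starRingEnd ℂ) (z a) * cm X (-j)).re = (z a * (starRingEnd ℂ) (z b) * cm X j).re := by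
    intro a b j
    rw [cm_neg]
    have : z b * (starRingEnd ℂ) (z a) * (starRingEnd ℂ) (cm X j) = (starRingEnd ℂ) (z a * (starRingEnd ℂ) (z b) * cm X j) := by
      rw [map_mul, map_mul, Complex.conj_conj]
      ring
    rw [this, Complex.conj_re]
  have e0 : Qf J q z X = ∑ a, ∑ b, ∑ j ∈ Finset.Ico (-(J : ℤ)) (J + 1), q a b j * (z a * (starRingEnd ℂ) (z b) * cm X j).re := by
    unfold Qf
    simp only [Complex.re_sum, Finset.mul_sum]
    refine Finset.sum_congr rfl fun a _ => Finset.sum_congr rfl fun b _ => Finset.sum_congr rfl fun j _ => ?_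
    rw [← Complex.re_ofReal_mul]
    congr 1
    ring
  have e1 : Qf J q z X = ∑ a, ∑ b, ∑ j ∈ Finset.Ico (-(J : ℤ)) (J + 1),
      q b a (-j) * (z a * (starRingEnd ℂ) (z b) * cm X j).re := by
    rw [e0, Finset.sum_comm]
    refine Finset.sum_congr rfl fun a _ => Finset.sum_congr rfl fun b _ => ?_
    refine Finset.sum_nbij' (fun j => -j) (fun j => -j) ?_ ?_ ?_ ?_ ?_
    · intro j hj
      rw [Finset.mem_Ico] at hj ⊢
      omega
    · intro j hj
      rw [Finset.mem_Ico] at hj ⊢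
      omega
    · intro j _
      ring
    · intro j _
      ring
    · intro j _
      have := w0 a b (-j)
      rw [neg_neg] at this
      rw [neg_neg, this]
  have e2 : Qf J q z X = ∑ a, ∑ b, ∑ j ∈ Finset.Ico (-(J : ℤ)) (J + 1),
      (q a b j + q b a (-j)) / 2 * (z a * (starRingEnd ℂ) (z b) * cm X j).re := by
    have e3 : Qf J q z X = (Qf J q z X + Qf J q z X) / 2 := by ring
    rw [e3]
    nth_rewrite 1 [e0]
    rw [e1]
    simp only [← Finset.sum_add_distrib, Finset.sum_div]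
    refine Finset.sum_congr rfl fun a _ => Finset.sum_congr rfl fun b _ => Finset.sum_congr rfl fun j _ => ?_
    ring
  rw [e2]
  have s1 : ∑ a, ∑ b, ∑ j ∈ Finset.Ico (-(J : ℤ)) (J + 1), -(e * ((‖z a‖ ^ 2 + ‖z b‖ ^ 2) / 2))
      ≤ ∑ a, ∑ b, ∑ j ∈ Finset.Ico (-(J : ℤ)) (J + 1), (q a b j + q b a (-j)) / 2 * (z a * (starRingEnd ℂ) (z b) * cm X j).re := by
    refine Finset.sum_le_sum fun a _ => Finset.sum_le_sum fun b _ => Finset.sum_le_sum fun j hj => ?_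
    have a1 := h a b j hj
    have a2 : |(z a * (starRingEnd ℂ) (z b) * cm X j).re| ≤ (‖z a‖ ^ 2 + ‖z b‖ ^ 2) / 2 := by
      have b1 : |(z a * (starRingEnd ℂ) (z b) * cm X j).re| ≤ ‖z a‖ * ‖z b‖ := by
        refine (Complex.abs_re_le_norm _).trans ?_
        rw [norm_mul, norm_mul, Complex.norm_conj]
        exact mul_le_of_le_one_right (by positivity) (cm_le hX hb j)
      nlinarith [sq_nonneg (‖z a‖ - ‖z b‖)]
    have he : 0 ≤ e := by linarith [abs_nonneg (q a b j + q b a (-j))]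
    have a3 : |(q a b j + q b a (-j)) / 2 * (z a * (starRingEnd ℂ) (z b) * cm X j).re| ≤ e * ((‖z a‖ ^ 2 + ‖z b‖ ^ 2) / 2) := by
      rw [abs_mul]
      refine mul_le_mul ?_ a2 (abs_nonneg _) he
      rw [abs_div, abs_two]
      linarith
    exact (abs_le.1 a3).1
  refine le_trans (le_of_eq ?_) s1
  have c1 : (Finset.Ico (-(J : ℤ)) (J + 1)).card = 2 * J + 1 := by
    rw [Int.card_Ico]
    omega
  simp only [Finset.sum_const, c1, nsmul_eq_mul, Finset.sum_neg_distrib, Finset.sum_add_distrib, ← Finset.mul_sum,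
    ← Finset.sum_div, mul_neg]
  simp only [Finset.card_univ, Fintype.card_fin]
  push_cast
  ring

/-! ### packed sums -/

/-- a list of coefficients with indices -/
abbrev ZL := List (ℤ × ℕ)

/-- coefficient of the index `k` -/
def cf (l : ZL) (k : ℕ) : ℤ := (l.map fun t => if t.2 = k then t.1 else 0).sum

/-- value at the base `2^w` -/
def pk (w : ℕ) : ZL → ℤ
  | [] => 0
  | t :: l => Int.add (Int.mul t.1 (Int.ofNat (Nat.pow 2 (Nat.mul w t.2)))) (pk w l)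

/-- sum of the absolute values -/
def l1 : ZL → ℕ
  | [] => 0
  | t :: l => Nat.add (Int.natAbs t.1) (l1 l)

theorem cf_cons (t : ℤ × ℕ) (l : ZL) (k : ℕ) : cf (t :: l) k = (if t.2 = k then t.1 else 0) + cf l k := by
  unfold cf
  rw [List.map_cons, List.sum_cons]

theorem pk_cons (w : ℕ) (t : ℤ × ℕ) (l : ZL) : pk w (t :: l) = t.1 * 2 ^ (w * t.2) + pk w l := by
  change t.1 * ((2 ^ (w * t.2) : ℕ) : ℤ) + pk w l = _
  push_cast
  ring

theorem pk_eq (w n : ℕ) : ∀ l : ZL, (∀ t ∈ l, t.2 < n) → pk w l = ∑ k ∈ range n, cf l k * 2 ^ (w * k)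
  | [], _ => by simp [pk, cf]
  | t :: l, h => by
    have ih := pk_eq w n l fun t ht => h t (List.mem_cons_of_mem _ ht)
    have h0 := h t List.mem_cons_self
    rw [pk_cons, ih]
    simp only [cf_cons, add_mul, Finset.sum_add_distrib, ite_mul, zero_mul]
    rw [Finset.sum_ite_eq, if_pos (Finset.mem_range.2 h0)]

theorem cf_bd : ∀ (l : ZL) (k : ℕ), |cf l k| ≤ l1 l
  | [], k => by simp [cf, l1]
  | t :: l, k => by
    have ih := cf_bd l k
    rw [cf_cons]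
    have e : ((l1 (t :: l) : ℕ) : ℤ) = |t.1| + l1 l := by
      change ((t.1.natAbs + l1 l : ℕ) : ℤ) = _
      push_cast
      rfl
    rw [e]
    refine (abs_add_le _ _).trans (add_le_add ?_ ih)
    split_ifs
    · exact le_rfl
    · rw [abs_zero]
      exact abs_nonneg _

/-- products -/
abbrev ZT := List (ℤ × ZL × ZL)

def xt (T : ZT) (i j : ℕ) : ℤ := (T.map fun e => e.1 * (cf e.2.1 i * cf e.2.2 j)).sum

def pT (w n : ℕ) : ZT → ℤ
  | [] => 0
  | e :: T => Int.add (Int.mul e.1 (Int.mul (pk w e.2.1) (pk (Nat.mul w n) e.2.2))) (pT w n T)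

def bT : ZT → ℕ
  | [] => 0
  | e :: T => Nat.add (Nat.mul (Int.natAbs e.1) (Nat.mul (l1 e.2.1) (l1 e.2.2))) (bT T)

theorem xt_cons (e : ℤ × ZL × ZL) (T : ZT) (i j : ℕ) : xt (e :: T) i j = e.1 * (cf e.2.1 i * cf e.2.2 j) + xt T i j := by
  unfold xt
  rw [List.map_cons, List.sum_cons]

theorem xt_bd : ∀ (T : ZT) (i j : ℕ), |xt T i j| ≤ bT T
  | [], i, j => by simp [xt, bT]
  | e :: T, i, j => by
    have ih := xt_bd T i j
    rw [xt_cons]
    have h : ((bT (e :: T) : ℕ) : ℤ) = |e.1| * (l1 e.2.1 * l1 e.2.2) + bT T := by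
      change ((e.1.natAbs * (l1 e.2.1 * l1 e.2.2) + bT T : ℕ) : ℤ) = _
      push_cast
      rfl
    rw [h]
    refine (abs_add_le _ _).trans (add_le_add ?_ ih)
    rw [abs_mul, abs_mul]
    exact mul_le_mul_of_nonneg_left (mul_le_mul (cf_bd _ _) (cf_bd _ _) (abs_nonneg _) (by positivity)) (abs_nonneg _)

/-- all indices below `n` -/
def lt1 (n : ℕ) (l : ZL) : Prop := ∀ t ∈ l, t.2 < n

def lt2 (n : ℕ) (T : ZT) : Prop := ∀ e ∈ T, lt1 n e.2.1 ∧ lt1 n e.2.2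

theorem pT_eq (w n : ℕ) : ∀ T : ZT, lt2 n T →
    pT w n T = ∑ i ∈ range n, ∑ j ∈ range n, xt T i j * (2 ^ (w * i) * 2 ^ (w * n * j))
  | [], _ => by simp [pT, xt]
  | e :: T, h => by
    have ih := pT_eq w n T fun t ht => h t (List.mem_cons_of_mem _ ht)
    have h0 := h e List.mem_cons_self
    have e0 : pT w n (e :: T) = e.1 * (pk w e.2.1 * pk (w * n) e.2.2) + pT w n T := rfl
    rw [e0, ih, pk_eq w n _ h0.1, pk_eq (w * n) n _ h0.2, Finset.sum_mul_sum, Finset.mul_sum, ← Finset.sum_add_distrib]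
    refine Finset.sum_congr rfl fun i _ => ?_
    rw [Finset.mul_sum, ← Finset.sum_add_distrib]
    refine Finset.sum_congr rfl fun j _ => ?_
    rw [xt_cons]
    ring

theorem pT_eq2 (w : ℕ) {n : ℕ} (hn : 0 < n) (T : ZT) (h : lt2 n T) :
    pT w n T = ∑ k ∈ range (n * n), xt T (k % n) (k / n) * 2 ^ (w * k) := by
  rw [pT_eq w n T h, Finset.sum_comm]
  have e : ∀ j ∈ range n, ∑ i ∈ range n, xt T i j * (2 ^ (w * i) * 2 ^ (w * n * j))
      = ∑ i ∈ range n, xt T ((j * n + i) % n) ((j * n + i) / n) * 2 ^ (w * (j * n + i)) := by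
    intro j _
    refine Finset.sum_congr rfl fun i hi => ?_
    have hi' := Finset.mem_range.1 hi
    rw [Nat.mul_comm j n, Nat.mul_add_mod, Nat.mod_eq_of_lt hi', Nat.mul_add_div hn, Nat.div_eq_of_lt hi', add_zero,
      ← pow_add]
    congr 2
    ring
  rw [Finset.sum_congr rfl e]
  exact (MOB.sum_flat n (fun k => xt T (k % n) (k / n) * 2 ^ (w * k)) n).symm

/-- the number with the digits `x k + 2^(w-1)` -/
def pF (w n : ℕ) (P : ℤ) : ℕ := Int.toNat (Int.add P (Int.ofNat (pn w (fun _ => Nat.pow 2 (Nat.sub w 1)) n)))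

/-- signed digit -/
def dg (w F k : ℕ) : ℤ := Int.sub (Int.ofNat (dn w F k)) (Int.ofNat (Nat.pow 2 (Nat.sub w 1)))

theorem pn_cast (w : ℕ) (f : ℕ → ℕ) : ∀ n : ℕ, ((pn w f n : ℕ) : ℤ) = ∑ k ∈ range n, (f k : ℤ) * 2 ^ (w * k)
  | 0 => by simp [pn]
  | n + 1 => by
    rw [Finset.sum_range_succ, ← pn_cast w f n]
    change ((pn w f n + f n * 2 ^ (w * n) : ℕ) : ℤ) = _
    push_cast
    ring

theorem dg_eq {w n : ℕ} (hw : 0 < w) {x : ℕ → ℤ} {P : ℤ} (hP : P = ∑ k ∈ range n, x k * 2 ^ (w * k))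
    (hx : ∀ k < n, |x k| < 2 ^ (w - 1)) {k : ℕ} (hk : k < n) : dg w (pF w n P) k = x k := by
  set f : ℕ → ℕ := fun k => (x k + 2 ^ (w - 1)).toNat with hf
  have h1 : ∀ k < n, (f k : ℤ) = x k + 2 ^ (w - 1) := by
    intro k hk
    have := (abs_lt.1 (hx k hk)).1
    rw [hf]
    exact Int.toNat_of_nonneg (by linarith)
  have h2 : ∀ k < n, f k < 2 ^ w := by
    intro k hk
    have a1 := (abs_lt.1 (hx k hk)).2
    have a2 := h1 k hk
    have a3 : (2 : ℤ) ^ w = 2 ^ (w - 1) + 2 ^ (w - 1) := by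
      obtain ⟨v, rfl⟩ := Nat.exists_eq_add_of_lt hw
      rw [show 0 + v + 1 - 1 = v by omega, show 0 + v + 1 = v + 1 by omega, pow_succ]
      ring
    have a4 : (f k : ℤ) < 2 ^ w := by linarith
    exact_mod_cast a4
  have h3 : pF w n P = pn w f n := by
    unfold pF
    have : Int.add P (Int.ofNat (pn w (fun _ => Nat.pow 2 (Nat.sub w 1)) n)) = ((pn w f n : ℕ) : ℤ) := by
      change P + ((pn w (fun _ => 2 ^ (w - 1)) n : ℕ) : ℤ) = _
      rw [pn_cast, pn_cast, hP, ← Finset.sum_add_distrib]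
      refine Finset.sum_congr rfl fun k hk => ?_
      rw [h1 k (Finset.mem_range.1 hk)]
      push_cast
      ring
    rw [this]
    exact Int.toNat_natCast _
  rw [h3]
  unfold dg
  rw [MOB.dn_pn h2 hk]
  change (f k : ℤ) - ((2 ^ (w - 1) : ℕ) : ℤ) = x k
  rw [h1 k hk]
  push_cast
  ring

/-! ### the rational lists -/

/-- index of a mode -/
def ix : ℤ → ℕ
  | Int.ofNat k => Nat.pred k
  | Int.negSucc k => Nat.pred k

def okm (NT : ℕ) : ℤ → Bool
  | Int.ofNat k => or (Nat.beq k 0) (and (Nat.beq (Nat.mod k 2) 1) (and (Nat.blt 1 k) (Nat.ble k NT)))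
  | Int.negSucc k => and (Nat.beq (Nat.mod k 2) 0) (and (Nat.blt 1 k) (Nat.ble k NT))

theorem okm_ok {NT : ℕ} (h0 : 0 < NT) {n : ℤ} (h : okm NT n = true) :
    okM n = true ∧ ix n < NT ∧ MOC.sl n = MOB.sl (ix n) := by
  rcases n with k | k
  · unfold okm at h
    simp only [Bool.or_eq_true, Bool.and_eq_true, Nat.beq_eq, Nat.blt_eq, Nat.ble_eq] at h
    rcases h with rfl | ⟨h1, h2, h3⟩
    · exact ⟨rfl, h0, rfl⟩
    · have h1' : k % 2 = 1 := h1
      obtain ⟨j, rfl⟩ : ∃ j, k = 2 * j + 3 := ⟨(k - 3) / 2, by omega⟩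
      refine ⟨?_, ?_, ?_⟩
      · unfold okM
        simp only [Int.ofNat_eq_natCast, Bool.or_eq_true, Bool.and_eq_true, decide_eq_true_eq, ne_eq]
        right
        constructor <;> omega
      · change 2 * j + 3 - 1 < NT
        omega
      · change MOC.sl ((2 * j + 3 : ℕ) : ℤ) = MOB.sl (2 * j + 2)
        rw [MOB.sl2]
        unfold MOC.sl
        rw [if_neg (by omega)]
        omega
  · unfold okm at h
    simp only [Bool.and_eq_true, Nat.beq_eq, Nat.blt_eq, Nat.ble_eq] at h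
    obtain ⟨h1, h2, h3⟩ := h
    have h1' : k % 2 = 0 := h1
    obtain ⟨j, rfl⟩ : ∃ j, k = 2 * j + 2 := ⟨(k - 2) / 2, by omega⟩
    refine ⟨?_, ?_, ?_⟩
    · unfold okM
      simp only [Bool.or_eq_true, Bool.and_eq_true, decide_eq_true_eq, ne_eq, Int.negSucc_eq]
      right
      constructor <;> omega
    · change 2 * j + 2 - 1 < NT
      omega
    · change MOC.sl (Int.negSucc (2 * j + 2)) = MOB.sl (2 * j + 1)
      rw [MOB.sl1]
      unfold MOC.sl
      rw [Int.negSucc_eq, if_neg (by omega)]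
      omega

/-- scaled integers -/
def zi (D : ℕ) (c : ℚ) : ℤ := Int.mul c.num (Int.ofNat (Nat.div D c.den))

def okz (D : ℕ) (c : ℚ) : Bool := Nat.beq (Nat.mod D c.den) 0

theorem zi_eq {D : ℕ} {c : ℚ} (h : okz D c = true) : ((zi D c : ℤ) : ℝ) = D * ((c : ℚ) : ℝ) := by
  unfold okz at h
  rw [Nat.beq_eq] at h
  have h' : D % c.den = 0 := h
  obtain ⟨d, hd⟩ := Nat.dvd_of_mod_eq_zero h'
  have hc : (0 : ℝ) < c.den := by exact_mod_cast c.den_pos
  have e1 : zi D c = c.num * (D / c.den : ℕ) := rfl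
  rw [e1, hd, Nat.mul_div_cancel_left _ c.den_pos]
  have e2 : ((c : ℚ) : ℝ) = c.num / c.den := Rat.cast_def c
  rw [e2]
  push_cast
  field_simp

def cL (NT D : ℕ) (l : BRG.Lf) : ZL := l.map fun t => (zi D t.1, Nat.add (Nat.mul t.2.1 NT) (ix t.2.2))

def cT (NT D1 D2 : ℕ) (T : BRG.Tf) : ZT := T.map fun t => (zi D2 t.1, cL NT D1 t.2.1, cL NT D1 t.2.2)

def okl (m NT D : ℕ) (l : BRG.Lf) : Bool := l.all fun t => and (Nat.blt t.2.1 m) (and (okm NT t.2.2) (okz D t.1))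

def okt (m NT D1 D2 : ℕ) (T : BRG.Tf) : Bool :=
  T.all fun t => and (okz D2 t.1) (and (okl m NT D1 t.2.1) (okl m NT D1 t.2.2))

theorem okl_cons {m NT D : ℕ} {t : ℚ × ℕ × ℤ} {l : BRG.Lf} (h : okl m NT D (t :: l) = true) :
    (t.2.1 < m ∧ okm NT t.2.2 = true ∧ okz D t.1 = true) ∧ okl m NT D l = true := by
  unfold okl at h ⊢
  rw [List.all_cons] at h
  simp only [Bool.and_eq_true, Nat.blt_eq] at h
  exact ⟨⟨h.1.1, h.1.2.1, h.1.2.2⟩, h.2⟩

theorem okt_cons {m NT D1 D2 : ℕ} {t : ℚ × BRG.Lf × BRG.Lf} {T : BRG.Tf} (h : okt m NT D1 D2 (t :: T) = true) :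
    (okz D2 t.1 = true ∧ okl m NT D1 t.2.1 = true ∧ okl m NT D1 t.2.2 = true) ∧ okt m NT D1 D2 T = true := by
  unfold okt at h ⊢
  rw [List.all_cons] at h
  simpa only [Bool.and_eq_true] using h

theorem idx_inj {NT a b p q : ℕ} (hp : p < NT) (hq : q < NT) : a * NT + p = b * NT + q ↔ a = b ∧ p = q := by
  constructor
  · intro h
    have h1 : (a * NT + p) % NT = (b * NT + q) % NT := by rw [h]
    rw [Nat.mul_comm a, Nat.mul_comm b, Nat.mul_add_mod, Nat.mul_add_mod, Nat.mod_eq_of_lt hp, Nat.mod_eq_of_lt hq] at h1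
    subst h1
    have h2 : a * NT = b * NT := by omega
    exact ⟨Nat.eq_of_mul_eq_mul_right (by omega) h2, rfl⟩
  · rintro ⟨rfl, rfl⟩
    rfl

theorem cL_lt {m NT D : ℕ} (h0 : 0 < NT) : ∀ {l : BRG.Lf}, okl m NT D l = true → lt1 (m * NT) (cL NT D l)
  | [], _ => fun t ht => absurd ht List.not_mem_nil
  | t :: l, h => by
    obtain ⟨⟨h1, h2, -⟩, h4⟩ := okl_cons h
    have ih := cL_lt h0 h4
    intro e he
    rcases List.mem_cons.1 he with rfl | he
    · have h5 := (okm_ok h0 h2).2.1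
      change t.2.1 * NT + ix t.2.2 < m * NT
      have : (t.2.1 + 1) * NT ≤ m * NT := Nat.mul_le_mul_right _ h1
      rw [Nat.add_mul, one_mul] at this
      omega
    · exact ih e he

theorem cT_lt {m NT D1 D2 : ℕ} (h0 : 0 < NT) : ∀ {T : BRG.Tf}, okt m NT D1 D2 T = true → lt2 (m * NT) (cT NT D1 D2 T)
  | [], _ => fun t ht => absurd ht List.not_mem_nil
  | t :: T, h => by
    obtain ⟨⟨-, h2, h3⟩, h4⟩ := okt_cons h
    have ih := cT_lt h0 h4
    intro e he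
    rcases List.mem_cons.1 he with rfl | he
    · exact ⟨cL_lt h0 h2, cL_lt h0 h3⟩
    · exact ih e he

theorem chL_of {m NT D N : ℕ} (h0 : 0 < NT) (hN : NT ≤ 2 * N - 1) : ∀ {l : BRG.Lf}, okl m NT D l = true → chL m N l = true
  | [], _ => rfl
  | t :: l, h => by
    obtain ⟨⟨h1, h2, -⟩, h4⟩ := okl_cons h
    have ih := chL_of h0 hN h4
    obtain ⟨k1, k2, k3⟩ := okm_ok h0 h2
    have k4 : MOB.sl (ix t.2.2) ∈ Wn N := MOB.sl_mem (by omega)
    rw [← k3] at k4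
    obtain ⟨k5, k6⟩ := mem_Wn.1 k4
    unfold chL at ih ⊢
    rw [List.all_cons, ih, Bool.and_true]
    simp only [Bool.and_eq_true, decide_eq_true_eq]
    exact ⟨h1, k1, k5, k6⟩

theorem chT_of {m NT D1 D2 N : ℕ} (h0 : 0 < NT) (hN : NT ≤ 2 * N - 1) : ∀ {T : BRG.Tf}, okt m NT D1 D2 T = true →
    chT m N T = true
  | [], _ => rfl
  | t :: T, h => by
    obtain ⟨⟨-, h2, h3⟩, h4⟩ := okt_cons h
    have ih := chT_of h0 hN h4
    unfold chT at ih ⊢
    rw [List.all_cons, ih, Bool.and_true, chL_of h0 hN h2, chL_of h0 hN h3]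
    rfl

section conv

variable [NeZero m]

omit [NeZero m] in
theorem co_cons {R : Type*} [CommRing R] (e : Fin m × ℤ × R) (l : LF m R) (a : Fin m) (s : ℤ) :
    co (e :: l) a s = (if e.1 = a ∧ e.2.1 = s then e.2.2 else 0) + co l a s := by
  unfold co
  rw [List.map_cons, List.sum_cons]

theorem cf_cL {NT D : ℕ} (h0 : 0 < NT) (a : Fin m) {p : ℕ} (hp : p < NT) : ∀ {l : BRG.Lf}, okl m NT D l = true →
    ((cf (cL NT D l) (a * NT + p) : ℤ) : ℝ) = D * ((co (cvL m l) a (MOB.sl p) : ℚ) : ℝ)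
  | [], _ => by simp [cf, cL, co, cvL]
  | t :: l, h => by
    obtain ⟨⟨h1, h2, h3⟩, h4⟩ := okl_cons h
    have ih := cf_cL h0 a hp h4
    obtain ⟨-, k2, k3⟩ := okm_ok h0 h2
    have e1 : cL NT D (t :: l) = (zi D t.1, t.2.1 * NT + ix t.2.2) :: cL NT D l := rfl
    have e2 : cvL m (t :: l) = (Fin.ofNat m t.2.1, MOC.sl t.2.2, t.1) :: cvL m l := rfl
    rw [e1, e2, cf_cons, co_cons]
    push_cast
    rw [ih, mul_add]
    congr 1
    have c : (t.2.1 * NT + ix t.2.2 = a * NT + p) ↔ (Fin.ofNat m t.2.1 = a ∧ MOC.sl t.2.2 = MOB.sl p) := by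
      rw [idx_inj k2 hp, k3]
      constructor
      · rintro ⟨u1, u2⟩
        refine ⟨?_, by rw [u2]⟩
        apply Fin.ext
        rw [Fin.val_ofNat, Nat.mod_eq_of_lt h1, u1]
      · rintro ⟨u1, u2⟩
        refine ⟨?_, MOB.sl_inj u2⟩
        rw [← u1, Fin.val_ofNat, Nat.mod_eq_of_lt h1]
    by_cases hc : t.2.1 * NT + ix t.2.2 = a * NT + p
    · rw [if_pos hc, if_pos (c.1 hc), zi_eq h3]
    · rw [if_neg hc, if_neg fun h => hc (c.2 h)]
      simp

theorem co_zero {NT D : ℕ} (h0 : 0 < NT) (a : Fin m) {p : ℕ} (hp : NT ≤ p) : ∀ {l : BRG.Lf}, okl m NT D l = true →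
    co (cvL m l) a (MOB.sl p) = 0
  | [], _ => by simp [co, cvL]
  | t :: l, h => by
    obtain ⟨⟨-, h2, -⟩, h4⟩ := okl_cons h
    have ih := co_zero h0 a hp h4
    obtain ⟨-, k2, k3⟩ := okm_ok h0 h2
    have e2 : cvL m (t :: l) = (Fin.ofNat m t.2.1, MOC.sl t.2.2, t.1) :: cvL m l := rfl
    rw [e2, co_cons, ih, add_zero, if_neg]
    rintro ⟨-, u2⟩
    rw [k3] at u2
    have := MOB.sl_inj u2
    omega

omit [NeZero m] in
theorem TO_cons {R : Type*} [CommRing R] (e : R × LF m R × LF m R) (P : OP m R) (a : Fin m) (s : ℤ) (b : Fin m) (t : ℤ) :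
    TO (e :: P) a s b t = e.1 * (co e.2.1 a s * co e.2.2 b t) + TO P a s b t := by
  unfold TO
  rw [List.map_cons, List.sum_cons]

theorem xt_cT {NT D1 D2 : ℕ} (h0 : 0 < NT) (a b : Fin m) {p q : ℕ} (hp : p < NT) (hq : q < NT) : ∀ {T : BRG.Tf},
    okt m NT D1 D2 T = true →
    ((xt (cT NT D1 D2 T) (a * NT + p) (b * NT + q) : ℤ) : ℝ)
      = D1 ^ 2 * D2 * ((TO (cvT m T) a (MOB.sl p) b (MOB.sl q) : ℚ) : ℝ)
  | [], _ => by simp [xt, cT, TO, cvT]
  | t :: T, h => by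
    obtain ⟨⟨h1, h2, h3⟩, h4⟩ := okt_cons h
    have ih := xt_cT h0 a b hp hq h4
    have e1 : cT NT D1 D2 (t :: T) = (zi D2 t.1, cL NT D1 t.2.1, cL NT D1 t.2.2) :: cT NT D1 D2 T := rfl
    have e2 : cvT m (t :: T) = (t.1, cvL m t.2.1, cvL m t.2.2) :: cvT m T := rfl
    rw [e1, e2, xt_cons, TO_cons]
    push_cast
    rw [ih, zi_eq h1, cf_cL h0 a hp h2, cf_cL h0 b hq h3]
    ring

theorem TO_zero {NT D1 D2 : ℕ} (h0 : 0 < NT) (a b : Fin m) {p q : ℕ} (hpq : NT ≤ p ∨ NT ≤ q) : ∀ {T : BRG.Tf},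
    okt m NT D1 D2 T = true → TO (cvT m T) a (MOB.sl p) b (MOB.sl q) = 0
  | [], _ => by simp [TO, cvT]
  | t :: T, h => by
    obtain ⟨⟨-, h2, h3⟩, h4⟩ := okt_cons h
    have ih := TO_zero h0 a b hpq h4
    have e2 : cvT m (t :: T) = (t.1, cvL m t.2.1, cvL m t.2.2) :: cvT m T := rfl
    rw [e2, TO_cons, ih, add_zero]
    rcases hpq with hp | hq
    · rw [co_zero h0 a hp h2]
      ring
    · rw [co_zero h0 b hq h3]
      ring

/-! ### the symbol -/

def cQ (m J D : ℕ) (q : BRG.Qf) : ZL := q.map fun t =>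
  (zi D t.1, Nat.add (Nat.mul (Nat.add (Nat.mul t.2.1 m) t.2.2.1) (Nat.add (Nat.mul 2 J) 1)) (Int.toNat (Int.add (-t.2.2.2 / 2) (Int.ofNat J))))

def okq (D : ℕ) (q : BRG.Qf) : Bool := q.all fun t => okz D t.1

omit [NeZero m] in
theorem cQ_lt {J D : ℕ} : ∀ {q : BRG.Qf}, chQ m J q = true → lt1 (m * m * (2 * J + 1)) (cQ m J D q)
  | [], _ => fun t ht => absurd ht List.not_mem_nil
  | t :: q, h => by
    obtain ⟨⟨h1, h2, h3, h4, h5⟩, h6⟩ := MOC.chQ_cons h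
    have ih := cQ_lt (D := D) h6
    intro e he
    rcases List.mem_cons.1 he with rfl | he
    · change (t.2.1 * m + t.2.2.1) * (2 * J + 1) + (-t.2.2.2 / 2 + (J : ℤ)).toNat < m * m * (2 * J + 1)
      have a1 : t.2.1 * m + t.2.2.1 + 1 ≤ m * m := by
        have : (t.2.1 + 1) * m ≤ m * m := Nat.mul_le_mul_right _ h1
        rw [Nat.add_mul, one_mul] at this
        omega
      have a2 : (t.2.1 * m + t.2.2.1 + 1) * (2 * J + 1) ≤ m * m * (2 * J + 1) := Nat.mul_le_mul_right _ a1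
      have a3 : (-t.2.2.2 / 2 + (J : ℤ)).toNat < 2 * J + 1 := by omega
      rw [Nat.add_mul, one_mul] at a2
      omega
    · exact ih e he

theorem cf_cQ {J D : ℕ} (a b : Fin m) {i : ℕ} (hi : i < 2 * J + 1) : ∀ {q : BRG.Qf}, chQ m J q = true → okq D q = true →
    ((cf (cQ m J D q) ((a * m + b) * (2 * J + 1) + i) : ℤ) : ℝ) = D * ((qO (cvQ m q) a b ((i : ℤ) - J) : ℚ) : ℝ)
  | [], _, _ => by simp [cf, cQ, qO, cvQ]
  | t :: q, h, hd => by
    obtain ⟨⟨h1, h2, h3, h4, h5⟩, h6⟩ := MOC.chQ_cons h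
    unfold okq at hd
    rw [List.all_cons, Bool.and_eq_true] at hd
    have ih := cf_cQ a b hi h6 hd.2
    have e1 : cQ m J D (t :: q) = (zi D t.1, (t.2.1 * m + t.2.2.1) * (2 * J + 1) + (-t.2.2.2 / 2 + (J : ℤ)).toNat)
      :: cQ m J D q := rfl
    have e2 : cvQ m (t :: q) = (t.1, Fin.ofNat m t.2.1, Fin.ofNat m t.2.2.1, -t.2.2.2 / 2) :: cvQ m q := rfl
    have e3 : qO (cvQ m (t :: q)) a b ((i : ℤ) - J) = (if Fin.ofNat m t.2.1 = a ∧ Fin.ofNat m t.2.2.1 = b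
        ∧ -t.2.2.2 / 2 = (i : ℤ) - J then t.1 else 0) + qO (cvQ m q) a b ((i : ℤ) - J) := by
      rw [e2]
      unfold qO
      rw [List.map_cons, List.sum_cons]
    rw [e1, e3, cf_cons]
    have c : ((t.2.1 * m + t.2.2.1) * (2 * J + 1) + (-t.2.2.2 / 2 + (J : ℤ)).toNat = (a * m + b) * (2 * J + 1) + i)
        ↔ (Fin.ofNat m t.2.1 = a ∧ Fin.ofNat m t.2.2.1 = b ∧ -t.2.2.2 / 2 = (i : ℤ) - J) := by
      have hb : (b : ℕ) < m := b.2
      rw [idx_inj (by omega) hi, idx_inj h2 hb]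
      constructor
      · rintro ⟨⟨u1, u2⟩, u3⟩
        refine ⟨?_, ?_, by omega⟩
        · apply Fin.ext
          rw [Fin.val_ofNat, Nat.mod_eq_of_lt h1, u1]
        · apply Fin.ext
          rw [Fin.val_ofNat, Nat.mod_eq_of_lt h2, u2]
      · rintro ⟨u1, u2, u3⟩
        refine ⟨⟨?_, ?_⟩, by omega⟩
        · rw [← u1, Fin.val_ofNat, Nat.mod_eq_of_lt h1]
        · rw [← u2, Fin.val_ofNat, Nat.mod_eq_of_lt h2]
    by_cases hc : (t.2.1 * m + t.2.2.1) * (2 * J + 1) + (-t.2.2.2 / 2 + (J : ℤ)).toNat = (a * m + b) * (2 * J + 1) + i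
    · rw [if_pos hc, if_pos (c.1 hc)]
      push_cast
      rw [ih, zi_eq hd.1]
      ring
    · rw [if_neg hc, if_neg fun h => hc (c.2 h)]
      push_cast
      rw [ih]
      ring

end conv

/-! ### the comparison -/

/-- the form of the table -/
def Tr (D : Cd) (a : Fin D.m) (s : ℤ) (b : Fin D.m) (t : ℤ) : ℝ := D.Tc a (MOB.ps s) b (MOB.ps t) / D.L

def qr (D : Cd) (a b : Fin D.m) (j : ℤ) : ℝ := D.q a b (j + D.J).toNat / D.L

theorem Y1 {s : ℝ} {X : ℝ → ℝ} (h : St s X) (z : Fin m → ℂ) (a : Fin m) : Y z X a (-1) = 0 := by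
  unfold Y U
  rw [if_neg (by norm_num), MOD.St.u1 h, mul_zero]

/-- the form of an error matrix -/
theorem Frm_bd {s : ℝ} {X : ℝ → ℝ} (h : St s X) {N NT : ℕ} (h0 : 0 < NT) (hN : NT ≤ 2 * N - 1)
    {δ : Fin m → ℤ → Fin m → ℤ → ℝ} {e f : ℝ} (he : 0 ≤ e) (hf : 0 ≤ f)
    (hz : ∀ a b, ∀ p < 2 * N - 1, ∀ q < 2 * N - 1, NT ≤ p ∨ NT ≤ q → δ a (MOB.sl p) b (MOB.sl q) = 0)
    (h1 : ∀ a b, ∀ p < NT, ∀ q < NT, ¬ (a = b ∧ p = q) →
      |δ a (MOB.sl p) b (MOB.sl q) + δ b (MOB.sl q) a (MOB.sl p)| ≤ 2 * e)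
    (h2 : ∀ a, ∀ p < NT, e * (m * NT : ℕ) + f ≤ δ a (MOB.sl p) a (MOB.sl p)) (z : Fin m → ℂ) :
    f * ∑ a, ‖z a‖ ^ 2 ≤ MOE.Frm N δ z X := by
  have e0 : MOE.Frm N δ z X = ∑ a, ∑ b, ∑ s ∈ Wn N, ∑ t ∈ Wn N, δ a s b t * (Y z X a s * (starRingEnd ℂ) (Y z X b t)).re := by
    unfold MOE.Frm
    simp only [Complex.re_sum, Complex.re_ofReal_mul]
  have e1 : MOE.Frm N δ z X = ∑ a, ∑ b, ∑ p ∈ range NT, ∑ q ∈ range NT, δ a (MOB.sl p) b (MOB.sl q)
      * (Y z X a (MOB.sl p) * (starRingEnd ℂ) (Y z X b (MOB.sl q))).re := by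
    rw [e0]
    refine Finset.sum_congr rfl fun a _ => Finset.sum_congr rfl fun b _ => ?_
    rw [MOB.sum_sl N (fun s => ∑ t ∈ Wn N, δ a s b t * (Y z X a s * (starRingEnd ℂ) (Y z X b t)).re)
      (by simp only [Y1 h, zero_mul, Complex.zero_re, mul_zero, Finset.sum_const_zero])]
    have e2 : ∀ p, ∑ t ∈ Wn N, δ a (MOB.sl p) b t * (Y z X a (MOB.sl p) * (starRingEnd ℂ) (Y z X b t)).re
        = ∑ q ∈ range (2 * N - 1), δ a (MOB.sl p) b (MOB.sl q) * (Y z X a (MOB.sl p) * (starRingEnd ℂ) (Y z X b (MOB.sl q))).re :=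
      fun p => MOB.sum_sl N (fun t => δ a (MOB.sl p) b t * (Y z X a (MOB.sl p) * (starRingEnd ℂ) (Y z X b t)).re)
        (by simp only [Y1 h, map_zero, mul_zero, Complex.zero_re])
    simp only [e2]
    have hs : range NT ⊆ range (2 * N - 1) := Finset.range_subset_range.2 hN
    symm
    refine (Finset.sum_congr rfl fun p hp => ?_).trans (Finset.sum_subset hs ?_)
    · refine Finset.sum_subset hs fun q hq hq' => ?_
      rw [hz a b p (Finset.mem_range.1 (hs hp)) q (Finset.mem_range.1 hq)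
        (Or.inr (not_lt.1 fun h => hq' (Finset.mem_range.2 h))), zero_mul]
    · intro p hp hp'
      refine Finset.sum_eq_zero fun q hq => ?_
      rw [hz a b p (Finset.mem_range.1 hp) q (Finset.mem_range.1 hq)
        (Or.inl (not_lt.1 fun h => hp' (Finset.mem_range.2 h))), zero_mul]
  set I : Finset (Fin m × ℕ) := Finset.univ ×ˢ range NT with hI
  have e3 : MOE.Frm N δ z X = ∑ i ∈ I, ∑ j ∈ I, δ i.1 (MOB.sl i.2) j.1 (MOB.sl j.2)
      * (Y z X i.1 (MOB.sl i.2) * (starRingEnd ℂ) (Y z X j.1 (MOB.sl j.2))).re := by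
    rw [e1, hI, Finset.sum_product]
    refine Finset.sum_congr rfl fun a _ => ?_
    rw [Finset.sum_comm]
    refine Finset.sum_congr rfl fun p _ => ?_
    rw [Finset.sum_product]
  have hc : I.card = m * NT := by
    rw [hI, Finset.card_product, Finset.card_univ, Fintype.card_fin, Finset.card_range]
  have key := dd I (fun i j => δ i.1 (MOB.sl i.2) j.1 (MOB.sl j.2)) (e := e) (f := f) he (by
    intro i hi j hj hij
    have hi' := Finset.mem_range.1 (Finset.mem_product.1 hi).2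
    have hj' := Finset.mem_range.1 (Finset.mem_product.1 hj).2
    exact h1 i.1 j.1 i.2 hi' j.2 hj' fun hh => hij (Prod.ext hh.1 hh.2)) (by
    intro i hi
    have hi' := Finset.mem_range.1 (Finset.mem_product.1 hi).2
    rw [hc]
    exact h2 i.1 i.2 hi') fun i => Y z X i.1 (MOB.sl i.2)
  rw [← e3] at key
  refine le_trans (mul_le_mul_of_nonneg_left ?_ hf) key
  have e4 : ∑ a, ‖z a‖ ^ 2 = ∑ i ∈ (Finset.univ : Finset (Fin m)) ×ˢ {0}, ‖Y z X i.1 (MOB.sl i.2)‖ ^ 2 := by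
    rw [Finset.sum_product]
    refine Finset.sum_congr rfl fun a _ => ?_
    rw [Finset.sum_singleton]
    change _ = ‖z a * U X (MOB.sl 0)‖ ^ 2
    rw [MOB.sl0]
    unfold U
    rw [if_pos rfl, mul_one]
  rw [e4]
  refine Finset.sum_le_sum_of_subset_of_nonneg ?_ fun i _ _ => by positivity
  refine Finset.product_subset_product (Finset.Subset.refl _) ?_
  intro x hx
  rw [Finset.mem_singleton.1 hx]
  exact Finset.mem_range.2 h0

/-! ### the test -/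

def nn : ℤ → Bool
  | Int.ofNat _ => true
  | Int.negSucc _ => false

theorem nn_ok {x : ℤ} (h : nn x = true) : 0 ≤ x := by
  rcases x with x | x
  · exact Int.natCast_nonneg x
  · exact absurd h Bool.false_ne_true

/-- residual of one entry of the table -/
def rs (D : Cd) (w n F Dd i j : ℕ) : ℤ :=
  Int.sub (Int.mul (Int.ofNat D.L) (Int.add (dg w F (Nat.add (Nat.mul j n) i)) (dg w F (Nat.add (Nat.mul i n) j))))
    (Int.mul (Int.ofNat Dd) (Int.add (D.T (Nat.div i D.NT) (Nat.mod i D.NT) (Nat.div j D.NT) (Nat.mod j D.NT))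
      (D.T (Nat.div j D.NT) (Nat.mod j D.NT) (Nat.div i D.NT) (Nat.mod i D.NT))))

/-- the test of one entry -/
def t1 (D : Cd) (w n F Dd i j : ℕ) : Bool :=
  if Nat.beq i j then
    nn (Int.sub (rs D w n F Dd i j) (Int.ofNat (Nat.mul Dd (Nat.add n (Nat.mul (Nat.add (Nat.mul 2 D.J) 1) D.m)))))
  else Nat.ble (Int.natAbs (rs D w n F Dd i j)) Dd

def tT (D : Cd) (w n F Dd : ℕ) : Bool := al n fun j => al (j + 1) fun i => t1 D w n F Dd i j

/-- residual of one entry of the symbol -/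
def rq (D : Cd) (w F D3 a b i : ℕ) : ℤ :=
  Int.sub (Int.mul (Int.ofNat D.L)
      (Int.add (dg w F (Nat.add (Nat.mul (Nat.add (Nat.mul a D.m) b) (Nat.add (Nat.mul 2 D.J) 1)) i))
        (dg w F (Nat.add (Nat.mul (Nat.add (Nat.mul b D.m) a) (Nat.add (Nat.mul 2 D.J) 1)) (Nat.sub (Nat.mul 2 D.J) i)))))
    (Int.mul (Int.ofNat D3) (Int.add (D.q a b i) (D.q b a (Nat.sub (Nat.mul 2 D.J) i))))

def tQ (D : Cd) (w F D3 : ℕ) : Bool :=
  al D.m fun b => al (b + 1) fun a => al (2 * D.J + 1) fun i => Nat.ble (Int.natAbs (rq D w F D3 a b i)) D3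

/-- **the test of the tables against the lists** -/
def chk (D : Cd) (w D1 D2 wq D3 : ℕ) (T : BRG.Tf) (q : BRG.Qf) : Bool :=
  and (Nat.blt 0 D.m) (and (Nat.blt 0 D.L) (and (Nat.blt 0 D.NT) (and (Nat.ble D.NT (2 * D.N - 1)) (and (Nat.blt 0 w)
    (and (Nat.blt 0 wq) (and (Nat.blt 0 D1) (and (Nat.blt 0 D2) (and (Nat.blt 0 D3) (and (okt D.m D.NT D1 D2 T)
      (and (chQ D.m D.J q) (and (okq D3 q)
        (and (Nat.blt (bT (cT D.NT D1 D2 T)) (Nat.pow 2 (Nat.sub w 1))) (and (Nat.blt (l1 (cQ D.m D.J D3 q)) (Nat.pow 2 (Nat.sub wq 1)))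
          (and (tT D w (D.m * D.NT) (pF w (D.m * D.NT * (D.m * D.NT)) (pT w (D.m * D.NT) (cT D.NT D1 D2 T))) (D1 * D1 * D2))
            (tQ D wq (pF wq (D.m * D.m * (2 * D.J + 1)) (pk wq (cQ D.m D.J D3 q))) D3)))))))))))))))

theorem nabs_le {x : ℤ} {n : ℕ} (h : x.natAbs ≤ n) : |(x : ℝ)| ≤ n := by
  have h1 : |x| ≤ (n : ℤ) := by
    rw [← Int.natCast_natAbs]
    exact_mod_cast h
  exact_mod_cast h1

/-- one entry of the table -/
theorem t1_ok {D : Cd} {w D1 D2 : ℕ} {T : BRG.Tf} (h0 : 0 < D.NT) (hL : 0 < D.L) (hw : 0 < w) (hD1 : 0 < D1) (hD2 : 0 < D2)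
    [NeZero D.m] (hT : okt D.m D.NT D1 D2 T = true)
    (hb : bT (cT D.NT D1 D2 T) < 2 ^ (w - 1)) {a b : Fin D.m} {p q : ℕ} (hp : p < D.NT) (hq : q < D.NT)
    (h : t1 D w (D.m * D.NT) (pF w (D.m * D.NT * (D.m * D.NT)) (pT w (D.m * D.NT) (cT D.NT D1 D2 T))) (D1 * D1 * D2)
      (a * D.NT + p) (b * D.NT + q) = true) :
    (¬ (a = b ∧ p = q) → |(((TO (cvT D.m T) a (MOB.sl p) b (MOB.sl q) : ℚ) : ℝ) - D.T a p b q / D.L)
        + (((TO (cvT D.m T) b (MOB.sl q) a (MOB.sl p) : ℚ) : ℝ) - D.T b q a p / D.L)| ≤ 2 * (1 / (2 * D.L)))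
      ∧ (a = b ∧ p = q → 1 / (2 * (D.L : ℝ)) * (D.m * D.NT : ℕ) + 1 / (2 * D.L) * ((2 * D.J + 1) * D.m)
        ≤ ((TO (cvT D.m T) a (MOB.sl p) b (MOB.sl q) : ℚ) : ℝ) - D.T a p b q / D.L) := by
  have hL' : (0 : ℝ) < D.L := by exact_mod_cast hL
  have hm : 0 < D.m := Nat.pos_of_ne_zero (NeZero.ne _)
  set n := D.m * D.NT with hn
  have hn0 : 0 < n := Nat.mul_pos hm h0
  set F := pF w (n * n) (pT w n (cT D.NT D1 D2 T)) with hF
  have ia : ∀ (a : Fin D.m) {p : ℕ}, p < D.NT → a * D.NT + p < n := by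
    intro a p hp
    have : (a + 1) * D.NT ≤ D.m * D.NT := Nat.mul_le_mul_right _ a.2
    rw [Nat.add_mul, one_mul] at this
    omega
  have hi := ia a hp
  have hj := ia b hq
  set i := (a : ℕ) * D.NT + p with hi'
  set j := (b : ℕ) * D.NT + q with hj'
  have hdg : ∀ {i j : ℕ}, i < n → j < n → dg w F (j * n + i) = xt (cT D.NT D1 D2 T) i j := by
    intro i j hi hj
    have hk : j * n + i < n * n := by
      have : (j + 1) * n ≤ n * n := Nat.mul_le_mul_right _ hj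
      rw [Nat.add_mul, one_mul] at this
      omega
    rw [hF, dg_eq hw (pT_eq2 w hn0 _ (cT_lt h0 hT)) (fun k _ => ?_) hk]
    · rw [Nat.mul_comm j n, Nat.mul_add_mod, Nat.mod_eq_of_lt hi, Nat.mul_add_div hn0, Nat.div_eq_of_lt hi, add_zero]
    · refine lt_of_le_of_lt (xt_bd _ _ _) ?_
      exact_mod_cast hb
  have d1 : i / D.NT = a ∧ i % D.NT = p := by
    rw [hi', Nat.mul_comm, Nat.mul_add_mod, Nat.mod_eq_of_lt hp, Nat.mul_add_div h0, Nat.div_eq_of_lt hp, add_zero]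
    exact ⟨rfl, rfl⟩
  have d2 : j / D.NT = b ∧ j % D.NT = q := by
    rw [hj', Nat.mul_comm, Nat.mul_add_mod, Nat.mod_eq_of_lt hq, Nat.mul_add_div h0, Nat.div_eq_of_lt hq, add_zero]
    exact ⟨rfl, rfl⟩
  have hr : rs D w n F (D1 * D1 * D2) i j = (D.L : ℤ) * (xt (cT D.NT D1 D2 T) i j + xt (cT D.NT D1 D2 T) j i)
      - ((D1 * D1 * D2 : ℕ) : ℤ) * (D.T a p b q + D.T b q a p) := by
    have : rs D w n F (D1 * D1 * D2) i j = (D.L : ℤ) * (dg w F (j * n + i) + dg w F (i * n + j))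
      - ((D1 * D1 * D2 : ℕ) : ℤ) * (D.T (i / D.NT) (i % D.NT) (j / D.NT) (j % D.NT)
        + D.T (j / D.NT) (j % D.NT) (i / D.NT) (i % D.NT)) := rfl
    rw [this, hdg hi hj, hdg hj hi, d1.1, d1.2, d2.1, d2.2]
  have hDd : (0 : ℝ) < ((D1 * D1 * D2 : ℕ) : ℝ) := by positivity
  have hrr : ((rs D w n F (D1 * D1 * D2) i j : ℤ) : ℝ) = ((D1 * D1 * D2 : ℕ) : ℝ) * D.L
      * ((((TO (cvT D.m T) a (MOB.sl p) b (MOB.sl q) : ℚ) : ℝ) - D.T a p b q / D.L)
        + (((TO (cvT D.m T) b (MOB.sl q) a (MOB.sl p) : ℚ) : ℝ) - D.T b q a p / D.L)) := by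
    rw [hr]
    push_cast
    rw [hi', hj', xt_cT h0 a b hp hq hT, xt_cT h0 b a hq hp hT]
    field_simp
    ring
  constructor
  · intro hne
    have hij : i ≠ j := fun hh => hne (by
      have := (idx_inj hp hq).1 hh
      exact ⟨Fin.ext this.1, this.2⟩)
    unfold t1 at h
    rw [if_neg (by rw [Nat.beq_eq]; exact hij), Nat.ble_eq] at h
    have h2 := nabs_le h
    rw [hrr, abs_mul, abs_of_pos (mul_pos hDd hL')] at h2
    have h3 : ((D1 * D1 * D2 : ℕ) : ℝ) * (D.L * |(((TO (cvT D.m T) a (MOB.sl p) b (MOB.sl q) : ℚ) : ℝ) - D.T a p b q / D.L)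
        + (((TO (cvT D.m T) b (MOB.sl q) a (MOB.sl p) : ℚ) : ℝ) - D.T b q a p / D.L)|) ≤ ((D1 * D1 * D2 : ℕ) : ℝ) * 1 := by
      rw [← mul_assoc, mul_one]
      exact h2
    have h4 := le_of_mul_le_mul_left h3 hDd
    rw [show 2 * (1 / (2 * (D.L : ℝ))) = 1 / D.L by field_simp, le_div_iff₀ hL']
    linarith
  · rintro ⟨rfl, rfl⟩
    have hij : i = j := rfl
    unfold t1 at h
    rw [if_pos (by rw [Nat.beq_eq])] at h
    have h2 := nn_ok h
    have h3 : (((D1 * D1 * D2) * (n + (2 * D.J + 1) * D.m) : ℕ) : ℤ) ≤ rs D w n F (D1 * D1 * D2) i j := by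
      have : (0 : ℤ) ≤ rs D w n F (D1 * D1 * D2) i j - (((D1 * D1 * D2) * (n + (2 * D.J + 1) * D.m) : ℕ) : ℤ) := h2
      linarith
    have h4 : ((((D1 * D1 * D2) * (n + (2 * D.J + 1) * D.m) : ℕ) : ℤ) : ℝ) ≤ ((rs D w n F (D1 * D1 * D2) i j : ℤ) : ℝ) := by
      exact_mod_cast h3
    rw [hrr] at h4
    set x := (((TO (cvT D.m T) a (MOB.sl p) a (MOB.sl p) : ℚ) : ℝ) - D.T a p a p / D.L) with hx
    have h5 : ((D1 * D1 * D2 : ℕ) : ℝ) * ((n : ℝ) + (2 * D.J + 1) * D.m) ≤ ((D1 * D1 * D2 : ℕ) : ℝ) * (D.L * (x + x)) := by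
      have e1 : ((((D1 * D1 * D2) * (n + (2 * D.J + 1) * D.m) : ℕ) : ℤ) : ℝ)
          = ((D1 * D1 * D2 : ℕ) : ℝ) * ((n : ℝ) + (2 * D.J + 1) * D.m) := by push_cast; ring
      rw [e1] at h4
      exact h4.trans_eq (mul_assoc _ _ _)
    have h6 := le_of_mul_le_mul_left h5 hDd
    have h7 : 1 / (2 * (D.L : ℝ)) * (n : ℕ) + 1 / (2 * D.L) * ((2 * D.J + 1) * D.m) = ((n : ℝ) + (2 * D.J + 1) * D.m) / (2 * D.L) := by
      field_simp
    rw [h7, div_le_iff₀ (by positivity)]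
    linarith

/-- one entry of the symbol -/
theorem q1_ok {D : Cd} {w D3 : ℕ} {q : BRG.Qf} (hL : 0 < D.L) (hw : 0 < w) (hD3 : 0 < D3) [NeZero D.m]
    (hq : chQ D.m D.J q = true) (hq2 : okq D3 q = true) (hb : l1 (cQ D.m D.J D3 q) < 2 ^ (w - 1)) {a b : Fin D.m} {i : ℕ}
    (hi : i < 2 * D.J + 1)
    (h : Nat.ble (Int.natAbs (rq D w (pF w (D.m * D.m * (2 * D.J + 1)) (pk w (cQ D.m D.J D3 q))) D3 a b i)) D3 = true) :
    |(((qO (cvQ D.m q) a b ((i : ℤ) - D.J) : ℚ) : ℝ) - D.q a b i / D.L)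
      + (((qO (cvQ D.m q) b a (((2 * D.J - i : ℕ) : ℤ) - D.J) : ℚ) : ℝ) - D.q b a (2 * D.J - i) / D.L)| ≤ 2 * (1 / (2 * D.L)) := by
  have hL' : (0 : ℝ) < D.L := by exact_mod_cast hL
  have hD3' : (0 : ℝ) < D3 := by exact_mod_cast hD3
  set n := D.m * D.m * (2 * D.J + 1) with hn
  set F := pF w n (pk w (cQ D.m D.J D3 q)) with hF
  have ia : ∀ (a b : Fin D.m) {i : ℕ}, i < 2 * D.J + 1 → (a * D.m + b) * (2 * D.J + 1) + i < n := by
    intro a b i hi
    have a1 : (a : ℕ) * D.m + b + 1 ≤ D.m * D.m := by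
      have : ((a : ℕ) + 1) * D.m ≤ D.m * D.m := Nat.mul_le_mul_right _ a.2
      rw [Nat.add_mul, one_mul] at this
      omega
    have a2 : ((a : ℕ) * D.m + b + 1) * (2 * D.J + 1) ≤ D.m * D.m * (2 * D.J + 1) := Nat.mul_le_mul_right _ a1
    rw [Nat.add_mul _ 1, one_mul] at a2
    omega
  have hdg : ∀ (a b : Fin D.m) {i : ℕ}, i < 2 * D.J + 1 →
      dg w F ((a * D.m + b) * (2 * D.J + 1) + i) = cf (cQ D.m D.J D3 q) ((a * D.m + b) * (2 * D.J + 1) + i) := by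
    intro a b i hi
    rw [hF, dg_eq hw (pk_eq w n _ (cQ_lt hq)) (fun k _ => ?_) (ia a b hi)]
    refine lt_of_le_of_lt (cf_bd _ _) ?_
    exact_mod_cast hb
  have hi2 : 2 * D.J - i < 2 * D.J + 1 := by omega
  have hr : rq D w F D3 a b i = (D.L : ℤ) * (cf (cQ D.m D.J D3 q) ((a * D.m + b) * (2 * D.J + 1) + i)
      + cf (cQ D.m D.J D3 q) ((b * D.m + a) * (2 * D.J + 1) + (2 * D.J - i)))
      - (D3 : ℤ) * (D.q a b i + D.q b a (2 * D.J - i)) := by
    have : rq D w F D3 a b i = (D.L : ℤ) * (dg w F ((a * D.m + b) * (2 * D.J + 1) + i)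
      + dg w F ((b * D.m + a) * (2 * D.J + 1) + (2 * D.J - i))) - (D3 : ℤ) * (D.q a b i + D.q b a (2 * D.J - i)) := rfl
    rw [this, hdg a b hi, hdg b a hi2]
  rw [Nat.ble_eq] at h
  have h2 := nabs_le h
  have h3 : ((rq D w F D3 a b i : ℤ) : ℝ) = D3 * (D.L * ((((qO (cvQ D.m q) a b ((i : ℤ) - D.J) : ℚ) : ℝ) - D.q a b i / D.L)
      + (((qO (cvQ D.m q) b a (((2 * D.J - i : ℕ) : ℤ) - D.J) : ℚ) : ℝ) - D.q b a (2 * D.J - i) / D.L))) := by
    rw [hr, Int.cast_sub, Int.cast_mul, Int.cast_mul, Int.cast_add, Int.cast_add, cf_cQ a b hi hq hq2, cf_cQ b a hi2 hq hq2]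
    simp only [Int.cast_natCast]
    field_simp
    ring
  rw [h3, abs_mul, abs_mul, abs_of_pos hD3', abs_of_pos hL'] at h2
  have h4 : (D3 : ℝ) * (D.L * |(((qO (cvQ D.m q) a b ((i : ℤ) - D.J) : ℚ) : ℝ) - D.q a b i / D.L)
      + (((qO (cvQ D.m q) b a (((2 * D.J - i : ℕ) : ℤ) - D.J) : ℚ) : ℝ) - D.q b a (2 * D.J - i) / D.L)|) ≤ D3 * 1 := by
    rw [mul_one]
    exact h2
  have h5 := le_of_mul_le_mul_left h4 hD3'
  rw [show 2 * (1 / (2 * (D.L : ℝ))) = 1 / D.L by field_simp, le_div_iff₀ hL']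
  linarith

theorem Qf_add (J : ℕ) (q q' : Fin m → Fin m → ℤ → ℝ) (z : Fin m → ℂ) (X : ℝ → ℝ) :
    Qf J (fun a b j => q a b j + q' a b j) z X = Qf J q z X + Qf J q' z X := by
  unfold Qf
  rw [← Complex.add_re]
  congr 1
  simp only [Complex.ofReal_add, add_mul, Finset.sum_add_distrib, mul_add]

/-- **from the certificate with the tables to the form with the lists** -/
theorem main {D : Cd} {w D1 D2 wq D3 : ℕ} {T : BRG.Tf} {q : BRG.Qf} (hc : chk D w D1 D2 wq D3 T q = true) {s : ℝ}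
    {X : ℝ → ℝ} (hX : St s X) (hb : ∀ a, |X a| ≤ 1)
    (h : ∀ z : Fin D.m → ℂ, 0 ≤ MOE.Frm D.N (Tr D) z X + Qf D.J (qr D) z X) (z : ℕ → ℂ) :
    0 ≤ (BRG.e2 z (BRG.vl BTN.va X BTN.e1) T + BRG.eq2 z (BRG.Zr 2 BTN.va X BTN.e1) q).re := by
  unfold chk at hc
  simp only [Bool.and_eq_true, Nat.blt_eq, Nat.ble_eq] at hc
  obtain ⟨c1, c2, c3, c4, c5, c6, c7, c8, c9, c10, c11, c12, c13, c14, c15, c16⟩ := hc
  haveI : NeZero D.m := ⟨by omega⟩
  have hL : (0 : ℝ) < D.L := by exact_mod_cast c2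
  refine of_slots hX (chT_of c3 c4 c10) c11 (fun z => ?_) z
  set δ : Fin D.m → ℤ → Fin D.m → ℤ → ℝ := fun a s b t => ((TO (cvT D.m T) a s b t : ℚ) : ℝ) - Tr D a s b t with hδ
  set δq : Fin D.m → Fin D.m → ℤ → ℝ := fun a b j => ((qO (cvQ D.m q) a b j : ℚ) : ℝ) - qr D a b j with hδq
  have e1 : MOE.Frm D.N (fun a s b t => ((TO (cvT D.m T) a s b t : ℚ) : ℝ)) z X = MOE.Frm D.N (Tr D) z X + MOE.Frm D.N δ z X := by
    rw [← MOE.Frm_add]
    congr 1
    funext a s b t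
    rw [hδ]
    ring
  have e2 : Qf D.J (fun a b j => ((qO (cvQ D.m q) a b j : ℚ) : ℝ)) z X = Qf D.J (qr D) z X + Qf D.J δq z X := by
    rw [← Qf_add]
    congr 1
    funext a b j
    rw [hδq]
    ring
  have n0 : 0 < D.m * D.NT := Nat.mul_pos c1 c3
  have ia : ∀ (a : Fin D.m) {p : ℕ}, p < D.NT → a * D.NT + p < D.m * D.NT := by
    intro a p hp
    have : (a + 1) * D.NT ≤ D.m * D.NT := Nat.mul_le_mul_right _ a.2
    rw [Nat.add_mul, one_mul] at this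
    omega
  have key : ∀ {a b : Fin D.m} {p q : ℕ}, p < D.NT → q < D.NT → a * D.NT + p ≤ b * D.NT + q → _ :=
    fun {a b p q} hp hq hij => t1_ok c3 c2 c5 c7 c8 c10 c13 hp hq
      (al_ok (al_ok c15 (b * D.NT + q) (ia b hq)) (a * D.NT + p) (by omega))
  have hTr : ∀ (a b : Fin D.m) {p q : ℕ}, p < D.NT → q < D.NT → Tr D a (MOB.sl p) b (MOB.sl q) = D.T a p b q / D.L := by
    intro a b p q hp hq
    unfold Tr Cd.Tc
    rw [MOB.ps_sl, MOB.ps_sl, if_pos ⟨hp, hq⟩]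
  have k1 := Frm_bd hX c3 c4 (δ := δ) (e := 1 / (2 * (D.L : ℝ))) (f := 1 / (2 * (D.L : ℝ)) * ((2 * D.J + 1) * D.m))
    (by positivity) (by positivity) (by
      intro a b p _ q _ hpq
      rw [hδ]
      simp only
      rw [TO_zero c3 a b hpq c10]
      unfold Tr Cd.Tc
      rw [MOB.ps_sl, MOB.ps_sl, if_neg (by omega)]
      simp) (by
      intro a b p hp q hq hne
      rw [hδ]
      simp only
      rw [hTr a b hp hq, hTr b a hq hp]
      rcases Nat.le_total (a * D.NT + p) (b * D.NT + q) with hij | hij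
      · exact (key hp hq hij).1 hne
      · rw [add_comm]
        exact (key hq hp hij).1 fun hh => hne ⟨hh.1.symm, hh.2.symm⟩) (by
      intro a p hp
      rw [hδ]
      simp only
      rw [hTr a a hp hp]
      exact (key hp hp le_rfl).2 ⟨rfl, rfl⟩) z
  have k2 := Qf_bd hX.cont hb (J := D.J) (q := δq) (e := 1 / (2 * (D.L : ℝ))) (by
      have key2 : ∀ (a b : Fin D.m), a ≤ b → ∀ j ∈ Finset.Ico (-(D.J : ℤ)) (D.J + 1),
          |δq a b j + δq b a (-j)| ≤ 2 * (1 / (2 * (D.L : ℝ))) := by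
        intro a b hab j hj
        rw [Finset.mem_Ico] at hj
        obtain ⟨i, hi⟩ : ∃ i : ℕ, (i : ℤ) = j + D.J := ⟨(j + D.J).toNat, by omega⟩
        have hi1 : i < 2 * D.J + 1 := by omega
        have hab' : (a : ℕ) < b + 1 := by
          have : (a : ℕ) ≤ b := hab
          omega
        have k := q1_ok (a := a) (b := b) c2 c6 c9 c11 c12 c14 hi1 (al_ok (al_ok (al_ok c16 b b.2) a hab') i hi1)
        have j1 : (i : ℤ) - D.J = j := by omega
        have j2 : ((2 * D.J - i : ℕ) : ℤ) - D.J = -j := by omega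
        have j3 : (j + D.J).toNat = i := by omega
        have j4 : (-j + D.J).toNat = 2 * D.J - i := by omega
        rw [j1, j2] at k
        rw [hδq]
        simp only
        unfold qr
        rw [j3, j4]
        exact k
      intro a b j hj
      rcases le_total a b with hab | hab
      · exact key2 a b hab j hj
      · have := key2 b a hab (-j) (by
          rw [Finset.mem_Ico] at hj ⊢
          omega)
        rw [neg_neg, add_comm] at this
        exact this) z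
  have k0 := h z
  rw [e1, e2]
  linarith

end Pool.Agent.FPX.MOT
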