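import Mathlib
import Pool.Agent.FPX.MOBC
import Pool.Agent.FPX.MOT
import Pool.Agent.FPX.CELT
import Pool.Agent.FPX.CEN
import Pool.Agent.FPX.CEY
import Pool.Agent.FPX.ASL

/-
MCP (helper66): a control point from the modal certificate. `NN s' T q` is the property that both engines prove for the
lists of a control point; `nn_of_modal`, `nn_of_modalS` derive it from the Boolean tests of MOB, PSD3 and MOT; `ctlY_of`
is the control point for `Psi8` with the state dependent remainder.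
-/

open MeasureTheory Set Filter Topology Complex
open scoped ComplexConjugate

noncomputable section

namespace Pool.Agent.FPX.MCP

open Pool.Agent.FPX.ALX (St)
open Pool.Agent.FPX.BTN (va e1)
open Pool.Agent.FPX.BTI
open Pool.Agent.FPX.BRG
open Pool.Agent.FPX.MOB (Cd Sq)

/-- the form with the lists `T`, `q` is nonnegative for all states of the class `s'` -/
def NN (s' : ℝ) (T : Tf) (q : Qf) : Prop :=
  ∀ X : ℝ → ℝ, St s' X → (∀ a, |X a| ≤ 31 / 50 * s') → ∀ z : ℕ → ℂ,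
    0 ≤ (e2 z (vl va X e1) T + eq2 z (Zr 2 va X e1) q).re

theorem NN.mono {s' s'' : ℝ} {T : Tf} {q : Qf} (h : NN s' T q) (h0 : 0 ≤ s'') (hs : s'' ≤ s') (h1 : s' ≤ 1) :
    NN s'' T q := fun X hX hb z => h X (hX.mono h0 hs h1) (fun a => (hb a).trans (by linarith)) z

section

variable {D : Cd} {n1 nF bL lam bK kap tau Xb b h K ε nε w D1 D2 wq D3 : ℕ}
  {Fl K00 K11 K22 R01 I01 R02 I02 R12 I12 G0 G1 G2 : List ℕ} {T : Tf} {q : Qf}

theorem hTr (D : Cd) (a b : Fin D.m) (p : ℕ) (_ : p < 2 * D.N - 1) (q : ℕ) (_ : q < 2 * D.N - 1) :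
    MOT.Tr D a (MOB.sl p) b (MOB.sl q) = D.Tc a p b q / D.L := by
  unfold MOT.Tr
  rw [MOB.ps_sl, MOB.ps_sl]

theorem hqr (D : Cd) (a b : Fin D.m) (i : ℕ) (_ : i < 2 * D.J + 1) :
    MOT.qr D a b ((i : ℤ) - D.J) = D.q a b i / D.L := by
  unfold MOT.qr
  have : ((i : ℤ) - D.J + D.J).toNat = i := by omega
  rw [this]

/-- **modal certificate without products** -/
theorem nn_of_modal (ht : D.hdr = true) (hm : D.m = 3) (hn : n1 + 1 = D.N)
    (hc : PSD3.chk n1 0 bL lam bK kap tau Xb b h K ε nε Fl K00 K11 K22 R01 I01 R02 I02 R12 I12 G0 G1 G2 D.S = true)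
    (hT : MOT.chk D w D1 D2 wq D3 T q = true) {s' : ℝ} (h0 : 0 ≤ s') (hs : s' ≤ D.sn / D.h) (h1 : s' ≤ 1) :
    NN s' T q := by
  intro X hX hb z
  refine MOT.main hT hX (fun a => (hb a).trans (by linarith)) (fun z => ?_) z
  exact Cd.main0 ht hm hn hc (hTr D) (hqr D) hX h0 hs z

/-- **modal certificate with products of squares** -/
theorem nn_of_modalS (Q : Sq) (ht : D.hdr = true) (hm : D.m = 3) (hn : n1 + 1 = D.N) (hQ : Q.DP + 1 ≤ 2 * D.N)
    (hA : Q.okA nF = true) (hF : Q.okF D.sn D.h bL lam nF 0 Fl = true)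
    (hc : PSD3.chk n1 nF bL lam bK kap tau Xb b h K ε nε Fl K00 K11 K22 R01 I01 R02 I02 R12 I12 G0 G1 G2 D.S = true)
    (hT : MOT.chk D w D1 D2 wq D3 T q = true) {s' : ℝ} (h0 : 0 ≤ s') (hs : s' ≤ D.sn / D.h) (h1 : s' ≤ 1) :
    NN s' T q := by
  intro X hX hb z
  refine MOT.main hT hX (fun a => (hb a).trans (by linarith)) (fun z => ?_) z
  exact Cd.mainS Q ht hm hn hQ hA hF hc (hTr D) (hqr D) hX h0 hs z

end

/-- **a control point for `Psi8`**, state dependent remainder -/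
def CtlY (s' : ℝ) (L : Ly) (be Qb : ℚ) (V : Fin 21 → ℚ) (U : Fin 28 → ℚ) (μ : ℚ) : Prop :=
  ∀ X, St s' X → (∀ a, |X a| ≤ 31 / 50 * s') → qa X ≤ Qb → ∀ τ, TauS L be X τ →
    BTG.RW (C9 Psi8) va X e1 (fun i => ((V i : ℚ) : ℝ)) (ut U τ) (μ : ℝ) 1

theorem ctlY_of {s' : ℝ} {V : Fin 21 → ℚ} {U : Fin 28 → ℚ} {μ im : ℚ} {L : Ly} {be Qb S1 W1 k3 k4 : ℚ} (h1 : s' ≤ 1)
    (hμ : 0 < μ) (him : im * (2 * μ) ≤ 1) (hY : okY L be Qb S1 W1 = true) (hk : Pok V im 0 0 (dv8 U) k3 k4 = true)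
    (h : NN s' (PT V im 0 0 (dv8 U) k3 k4 ++ smT (-1) (eY L)) (PQ V (dv8 U) ++ smQ (-1) (fY S1 W1))) :
    CtlY s' L be Qb V U μ := by
  intro X hX hb hQ τ hτ
  have hb1 : ∀ a, |X a| ≤ 1 := fun a => (hb a).trans (by linarith)
  exact RW_of_PT8Y hX hb1 hμ him hQ hY hτ hk fun z => h X hX hb z

section

open Pool.Agent.FPX.BTN (nf ef)
open Pool.Agent.FPX.CERQ (xT)
open Pool.Agent.FPX.F54 (X1)
open Pool.Agent.FPX.OMS (cF)
open Pool.Agent.FPX.OMR (Re)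
open Pool.Agent.FPX.ALX (Xa)
open Pool.Agent.FPX.BTG (mo)
open Pool.Agent.FPX.XIP (B8)
open Pool.Agent.FPX.CEL (Dat CellN)
open Pool.Agent.FPX.ASL (CellW)

/-- the bounds of the remainder and of `q₀` on the cell -/
def TauY (D : Dat) (a b : ℚ) (L : Ly) (be Qb : ℚ) : Prop := ∀ f, Re f → (a : ℝ) ≤ cF f → cF f ≤ (b : ℝ) →
  qa (Xa (X1 f) f) ≤ (Qb : ℝ) ∧ TauS L be (Xa (X1 f) f) (BTI.tau8 D.kk f (mo (C9 Psi8) (nf f) (xT f) (ef f) 0))

/-- **a cell from its control points**, `Psi8`, state dependent remainder, exact factor `1 / s²` -/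
theorem cellY {D : Dat} {C : CellN} {μ T s' be Qb : ℚ} {L : Ly} (hC : C.okE D μ T = true)
    (hτ : TauY D C.a C.b L be Qb) (h0 : 0 ≤ s') (h1 : s' ≤ 1) (hs : 1 - C.a ^ 2 ≤ s' ^ 2)
    (H : ∀ j ≤ C.n, CtlY (s' : ℝ) L be Qb (C.V j) (C.U j) (μ * (1 + C.ε) / C.r)) :
    CellW (B8 (BTI.kap D.kk) (BTI.dkap D.kk D.kk')) D.cof μ T C.a C.b C.w := by
  intro W hW f R ha hb
  have ha0 : (0 : ℚ) ≤ C.a := by
    have h := hC
    unfold CellN.okE CellN.num at h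
    simp only [Bool.and_eq_true, decide_eq_true_eq] at h
    exact h.1.1
  have hs2 : (1 : ℝ) - (C.a : ℝ) ^ 2 ≤ (s' : ℝ) ^ 2 := by exact_mod_cast hs
  have hle : X1 f ≤ (s' : ℝ) := ASM.s_le R (by exact_mod_cast ha0) ha (by exact_mod_cast h0) hs2
  have hss : X1 f ^ 2 = 1 - cF f ^ 2 := by
    have := R.c2
    linarith
  obtain ⟨hq, ht⟩ := hτ f R ha hb
  refine CEL.cellE_NC hC R ⟨ha, hb⟩ ?_ fun j hj => ?_
  · rw [hss]
    exact hW _ R.c0 ha hb
  · exact CEL.ctl_of R hle (by exact_mod_cast h1) (P := fun X => qa X ≤ (Qb : ℝ)) hq (TA := TauS L be) ht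
      (u := fun t => CEL.uT (C.U j) t) fun X hX hX1 hP t hT => H j hj X hX hX1 hP t hT

end

end Pool.Agent.FPX.MCP
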