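import Pool.Agent.FPX.PLX
/-!
PLY (helper1). Packed certificates for PLX, two and three components.
-/
set_option autoImplicit false

noncomputable section

namespace Pool.Agent.FPX.PLK

open List (Forall₂)

/-! ### three components -/

/-- the 3 x 3 test: diagonal `a, d, f`, entries `b = (12)`, `c = (13)`, `e = (23)`, each real number a difference -/
def t3 (a a' d d' f f' b1 b2 b3 b4 c1 c2 c3 c4 e1 e2 e3 e4 : ℕ) : Bool :=
  Nat.ble (Nat.succ a') a && (Nat.ble d' d && (Nat.ble f' f &&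
  (Nat.ble (Nat.add (sqn (dst b1 b2)) (sqn (dst b3 b4))) (Nat.mul (Nat.sub a a') (Nat.sub d d')) &&
  (Nat.ble (Nat.add (sqn (dst c1 c2)) (sqn (dst c3 c4))) (Nat.mul (Nat.sub a a') (Nat.sub f f')) &&
  Nat.ble (Nat.add
    (sqn (dst
      (Nat.add (Nat.mul (Nat.sub a a') e1) (Nat.add (Nat.add (Nat.mul b1 c2) (Nat.mul b2 c1)) (Nat.add (Nat.mul b3 c4) (Nat.mul b4 c3))))
      (Nat.add (Nat.mul (Nat.sub a a') e2) (Nat.add (Nat.add (Nat.mul b1 c1) (Nat.mul b2 c2)) (Nat.add (Nat.mul b3 c3) (Nat.mul b4 c4))))))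
    (sqn (dst
      (Nat.add (Nat.mul (Nat.sub a a') e3) (Nat.add (Nat.add (Nat.mul b1 c4) (Nat.mul b2 c3)) (Nat.add (Nat.mul b3 c1) (Nat.mul b4 c2))))
      (Nat.add (Nat.mul (Nat.sub a a') e4) (Nat.add (Nat.add (Nat.mul b1 c3) (Nat.mul b2 c4)) (Nat.add (Nat.mul b3 c2) (Nat.mul b4 c1)))))))
    (Nat.mul (Nat.sub (Nat.mul (Nat.sub a a') (Nat.sub d d')) (Nat.add (sqn (dst b1 b2)) (sqn (dst b3 b4))))
      (Nat.sub (Nat.mul (Nat.sub a a') (Nat.sub f f')) (Nat.add (sqn (dst c1 c2)) (sqn (dst c3 c4)))))))))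

theorem t3_sound {a a' d d' f f' b1 b2 b3 b4 c1 c2 c3 c4 e1 e2 e3 e4 : ℕ}
    (h : t3 a a' d d' f f' b1 b2 b3 b4 c1 c2 c3 c4 e1 e2 e3 e4 = true) :
    ∃ A D F br bi cr ci er ei : ℝ, A = (a : ℝ) - a' ∧ D = (d : ℝ) - d' ∧ F = (f : ℝ) - f' ∧ br = (b1 : ℝ) - b2 ∧
      bi = (b3 : ℝ) - b4 ∧ cr = (c1 : ℝ) - c2 ∧ ci = (c3 : ℝ) - c4 ∧ er = (e1 : ℝ) - e2 ∧ ei = (e3 : ℝ) - e4 ∧
      0 < A ∧ br ^ 2 + bi ^ 2 ≤ A * D ∧ cr ^ 2 + ci ^ 2 ≤ A * F ∧
      (A * er - (br * cr + bi * ci)) ^ 2 + (A * ei - (br * ci - bi * cr)) ^ 2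
        ≤ (A * D - (br ^ 2 + bi ^ 2)) * (A * F - (cr ^ 2 + ci ^ 2)) := by
  simp only [t3, Bool.and_eq_true, Nat.ble_eq] at h
  obtain ⟨h1, h2, h3, h4, h5, h6⟩ := h
  refine ⟨_, _, _, _, _, _, _, _, _, rfl, rfl, rfl, rfl, rfl, rfl, rfl, rfl, rfl, ?_⟩
  have ha : a' < a := h1
  have ha' : a' ≤ a := ha.le
  have eA : ((a - a' : ℕ) : ℝ) = (a : ℝ) - a' := Nat.cast_sub ha'
  have eD : ((d - d' : ℕ) : ℝ) = (d : ℝ) - d' := Nat.cast_sub h2
  have eF : ((f - f' : ℕ) : ℝ) = (f : ℝ) - f' := Nat.cast_sub h3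
  have k4 : (dst b1 b2 * dst b1 b2 + dst b3 b4 * dst b3 b4 : ℕ) ≤ ((a - a') * (d - d') : ℕ) := h4
  have k5 : (dst c1 c2 * dst c1 c2 + dst c3 c4 * dst c3 c4 : ℕ) ≤ ((a - a') * (f - f') : ℕ) := h5
  have q4 : ((dst b1 b2 * dst b1 b2 + dst b3 b4 * dst b3 b4 : ℕ) : ℝ) ≤ (((a - a') * (d - d') : ℕ) : ℝ) := by
    exact_mod_cast k4
  have q5 : ((dst c1 c2 * dst c1 c2 + dst c3 c4 * dst c3 c4 : ℕ) : ℝ) ≤ (((a - a') * (f - f') : ℕ) : ℝ) := by
    exact_mod_cast k5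
  obtain ⟨rp, hrp⟩ : ∃ x, x = (a - a') * e1 + ((b1 * c2 + b2 * c1) + (b3 * c4 + b4 * c3)) := ⟨_, rfl⟩
  obtain ⟨rn, hrn⟩ : ∃ x, x = (a - a') * e2 + ((b1 * c1 + b2 * c2) + (b3 * c3 + b4 * c4)) := ⟨_, rfl⟩
  obtain ⟨ip', hip⟩ : ∃ x, x = (a - a') * e3 + ((b1 * c4 + b2 * c3) + (b3 * c1 + b4 * c2)) := ⟨_, rfl⟩
  obtain ⟨im', him⟩ : ∃ x, x = (a - a') * e4 + ((b1 * c3 + b2 * c4) + (b3 * c2 + b4 * c1)) := ⟨_, rfl⟩
  have k6 : (dst rp rn * dst rp rn + dst ip' im' * dst ip' im' : ℕ)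
      ≤ ((a - a') * (d - d') - (dst b1 b2 * dst b1 b2 + dst b3 b4 * dst b3 b4))
        * ((a - a') * (f - f') - (dst c1 c2 * dst c1 c2 + dst c3 c4 * dst c3 c4)) := by
    rw [hrp, hrn, hip, him]
    exact h6
  have q6 : ((dst rp rn * dst rp rn + dst ip' im' * dst ip' im' : ℕ) : ℝ)
      ≤ ((((a - a') * (d - d') - (dst b1 b2 * dst b1 b2 + dst b3 b4 * dst b3 b4))
        * ((a - a') * (f - f') - (dst c1 c2 * dst c1 c2 + dst c3 c4 * dst c3 c4)) : ℕ) : ℝ) := by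
    exact_mod_cast k6
  rw [Nat.cast_mul (_ - _) (_ - _), Nat.cast_sub k4, Nat.cast_sub k5] at q6
  push_cast [eA, eD, eF] at q4 q5 q6
  have er : (rp : ℝ) - rn = ((a : ℝ) - a') * ((e1 : ℝ) - e2) - (((b1 : ℝ) - b2) * ((c1 : ℝ) - c2)
      + ((b3 : ℝ) - b4) * ((c3 : ℝ) - c4)) := by
    rw [hrp, hrn]
    push_cast [eA]
    ring
  have ei : (ip' : ℝ) - im' = ((a : ℝ) - a') * ((e3 : ℝ) - e4) - (((b1 : ℝ) - b2) * ((c3 : ℝ) - c4)
      - ((b3 : ℝ) - b4) * ((c1 : ℝ) - c2)) := by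
    rw [hip, him]
    push_cast [eA]
    ring
  have sq (u v : ℕ) : (dst u v : ℝ) * dst u v = ((u : ℝ) - v) ^ 2 := by
    rw [← dst_sq]
    ring
  rw [sq, sq] at q4 q5
  rw [sq, sq, sq, sq, sq, sq, er, ei] at q6
  exact ⟨by rw [sub_pos]; exact_mod_cast ha, q4, q5, q6⟩

theorem quad3 {A D F br bi cr ci er ei : ℝ} (hA : 0 < A) (h1 : br ^ 2 + bi ^ 2 ≤ A * D)
    (h2 : cr ^ 2 + ci ^ 2 ≤ A * F)
    (h3 : (A * er - (br * cr + bi * ci)) ^ 2 + (A * ei - (br * ci - bi * cr)) ^ 2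
      ≤ (A * D - (br ^ 2 + bi ^ 2)) * (A * F - (cr ^ 2 + ci ^ 2))) (z1 z2 z3 : ℂ) :
    0 ≤ A * Complex.normSq z1 + D * Complex.normSq z2 + F * Complex.normSq z3
      + br * (2 * ((starRingEnd ℂ) z1 * z2).re) + bi * -(2 * ((starRingEnd ℂ) z1 * z2).im)
      + cr * (2 * ((starRingEnd ℂ) z1 * z3).re) + ci * -(2 * ((starRingEnd ℂ) z1 * z3).im)
      + er * (2 * ((starRingEnd ℂ) z2 * z3).re) + ei * -(2 * ((starRingEnd ℂ) z2 * z3).im) := by
  have hw : (2 * ((starRingEnd ℂ) z2 * z3).re) ^ 2 + (-(2 * ((starRingEnd ℂ) z2 * z3).im)) ^ 2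
      = 4 * (Complex.normSq z2 * Complex.normSq z3) := by
    rw [Complex.normSq_apply, Complex.normSq_apply]
    simp only [Complex.mul_re, Complex.mul_im, Complex.conj_re, Complex.conj_im]
    ring
  have q := quad2 (sub_nonneg.2 h1) (sub_nonneg.2 h2) h3 (Complex.normSq_nonneg z2) (Complex.normSq_nonneg z3) hw
  have s := Complex.normSq_nonneg ((A : ℂ) * z1 + ((br : ℂ) + bi * Complex.I) * z2 + ((cr : ℂ) + ci * Complex.I) * z3)
  refine nonneg_of_mul_nonneg_right (a := A) ?_ hA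
  rw [Complex.normSq_apply] at s q
  simp only [Complex.normSq_apply, Complex.add_re, Complex.add_im, Complex.mul_re, Complex.mul_im, Complex.conj_re,
    Complex.conj_im, Complex.ofReal_re, Complex.ofReal_im, Complex.I_re, Complex.I_im] at s q ⊢
  linarith

/-- weights of a vector with three components -/
def w3 (z1 z2 z3 : ℂ) : List ℝ :=
  [Complex.normSq z1, Complex.normSq z2, Complex.normSq z3,
    2 * ((starRingEnd ℂ) z1 * z2).re, -(2 * ((starRingEnd ℂ) z1 * z2).im),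
    2 * ((starRingEnd ℂ) z1 * z3).re, -(2 * ((starRingEnd ℂ) z1 * z3).im),
    2 * ((starRingEnd ℂ) z2 * z3).re, -(2 * ((starRingEnd ℂ) z2 * z3).im)]

/-- nine digits -/
def dig9 (B : ℕ) (p : ℕ) (k : ℕ → ℕ → ℕ → ℕ → ℕ → ℕ → ℕ → ℕ → ℕ → Bool) : Bool :=
  k (Nat.mod p B) (Nat.mod (Nat.div p B) B) (Nat.mod (Nat.div (Nat.div p B) B) B)
    (Nat.mod (Nat.div (Nat.div (Nat.div p B) B) B) B)
    (Nat.mod (Nat.div (Nat.div (Nat.div (Nat.div p B) B) B) B) B)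
    (Nat.mod (Nat.div (Nat.div (Nat.div (Nat.div (Nat.div p B) B) B) B) B) B)
    (Nat.mod (Nat.div (Nat.div (Nat.div (Nat.div (Nat.div (Nat.div p B) B) B) B) B) B) B)
    (Nat.mod (Nat.div (Nat.div (Nat.div (Nat.div (Nat.div (Nat.div (Nat.div p B) B) B) B) B) B) B) B)
    (Nat.mod (Nat.div (Nat.div (Nat.div (Nat.div (Nat.div (Nat.div (Nat.div (Nat.div p B) B) B) B) B) B) B) B) B)

def psd3 (B : ℕ) : PV → Bool
  | ⟨p, n, b⟩ => Nat.ble (Nat.succ b) B &&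
    dig9 B p fun a d f b1 b3 c1 c3 e1 e3 => dig9 B n fun a' d' f' b2 b4 c2 c4 e2 e4 =>
      t3 a a' d d' f f' b1 b2 b3 b4 c1 c2 c3 c4 e1 e2 e3 e4

def O3 (B : ℕ) : Op PV := ⟨⟨0, 0, 0⟩, PV.add, PV.sub, PV.sm, psd3 B⟩

theorem rl3 (B : ℕ) (z1 z2 z3 : ℂ) : Rl (O3 B) (RV B 9 (w3 z1 z2 z3)) where
  z := RV.zero
  add := RV.add
  sub := RV.sub
  sm := fun c h => h.sm c
  psd := by
    rintro ⟨p, n, b⟩ s hR h
    simp only [O3, psd3, dig9, Bool.and_eq_true, Nat.ble_eq] at h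
    obtain ⟨h1, h2⟩ := h
    rw [hR.digits (show b < B from h1)]
    obtain ⟨A, D, F, br, bi, cr, ci, er, ei, eA, eD, eF, ebr, ebi, ecr, eci, eer, eei, hA, k1, k2, k3⟩ := t3_sound h2
    have := quad3 hA k1 k2 k3 z1 z2 z3
    rw [eA, eD, eF, ebr, ebi, ecr, eci, eer, eei] at this
    simp only [dgs, w3, ip]
    linarith

/-- `|u z|²` for a row of three -/
def one3 (B : ℕ) : Cx × Cx × Cx → PV
  | (u, v, w) => mkV B [u.nsq, v.nsq, w.nsq, cjp u v, cjq u v, cjp u w, cjq u w, cjp v w, cjq v w]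
      [0, 0, 0, cjn u v, cjm u v, cjn u w, cjm u w, cjn v w, cjm v w]

def psi3 (z1 z2 z3 : ℂ) (u : Cx × Cx × Cx) : ℂ := u.1.ev * z1 + u.2.1.ev * z2 + u.2.2.ev * z3

theorem one3_ok (B : ℕ) (z1 z2 z3 : ℂ) (u : Cx × Cx × Cx) :
    RV B 9 (w3 z1 z2 z3) (one3 B u) (Complex.normSq (psi3 z1 z2 z3 u)) := by
  obtain ⟨u, v, w⟩ := u
  have h := mkV_ok (B := B) (w := w3 z1 z2 z3) (K := 9)
    (P := [u.nsq, v.nsq, w.nsq, cjp u v, cjq u v, cjp u w, cjq u w, cjp v w, cjq v w])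
    (N := [0, 0, 0, cjn u v, cjm u v, cjn u w, cjm u w, cjn v w, cjm v w]) rfl rfl
  have e : ip (w3 z1 z2 z3) [u.nsq, v.nsq, w.nsq, cjp u v, cjq u v, cjp u w, cjq u w, cjp v w, cjq v w]
      - ip (w3 z1 z2 z3) [0, 0, 0, cjn u v, cjm u v, cjn u w, cjm u w, cjn v w, cjm v w]
      = Complex.normSq (psi3 z1 z2 z3 (u, v, w)) := by
    simp only [w3, ip]
    have h1 := cj_re u v
    have h2 := cj_im u v
    have h3 := cj_re u w
    have h4 := cj_im u w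
    have h5 := cj_re v w
    have h6 := cj_im v w
    rw [Cx.nsq_eq, Cx.nsq_eq, Cx.nsq_eq]
    have h7 : Complex.normSq (psi3 z1 z2 z3 (u, v, w)) = Complex.normSq z1 * Complex.normSq u.ev
        + Complex.normSq z2 * Complex.normSq v.ev + Complex.normSq z3 * Complex.normSq w.ev
        + 2 * ((starRingEnd ℂ) z1 * z2).re * ((starRingEnd ℂ) u.ev * v.ev).re
        - 2 * ((starRingEnd ℂ) z1 * z2).im * ((starRingEnd ℂ) u.ev * v.ev).im
        + 2 * ((starRingEnd ℂ) z1 * z3).re * ((starRingEnd ℂ) u.ev * w.ev).re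
        - 2 * ((starRingEnd ℂ) z1 * z3).im * ((starRingEnd ℂ) u.ev * w.ev).im
        + 2 * ((starRingEnd ℂ) z2 * z3).re * ((starRingEnd ℂ) v.ev * w.ev).re
        - 2 * ((starRingEnd ℂ) z2 * z3).im * ((starRingEnd ℂ) v.ev * w.ev).im := by
      unfold psi3
      simp only [Complex.normSq_apply, Complex.add_re, Complex.add_im, Complex.mul_re, Complex.mul_im,
        Complex.conj_re, Complex.conj_im]
      ring
    rw [h7, ← h1, ← h2, ← h3, ← h4, ← h5, ← h6]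
    push_cast
    ring
  rw [e] at h
  exact h

def addW3 (u v : Cx × Cx × Cx) : Cx × Cx × Cx := (u.1.add v.1, u.2.1.add v.2.1, u.2.2.add v.2.2)

def S3 (B : ℕ) : Sq (Cx × Cx × Cx) PV :=
  ⟨one3 B, fun u v => PV.sub (PV.sub (one3 B (addW3 u v)) (one3 B u)) (one3 B v)⟩

theorem rs3 (B : ℕ) (z1 z2 z3 : ℂ) : Rs (S3 B) (RV B 9 (w3 z1 z2 z3)) (psi3 z1 z2 z3) where
  one := one3_ok B z1 z2 z3
  two := fun u v => by
    have h := ((one3_ok B z1 z2 z3 (addW3 u v)).sub (one3_ok B z1 z2 z3 u)).sub (one3_ok B z1 z2 z3 v)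
    have e : Complex.normSq (psi3 z1 z2 z3 (addW3 u v)) - Complex.normSq (psi3 z1 z2 z3 u)
        - Complex.normSq (psi3 z1 z2 z3 v)
        = 2 * ((starRingEnd ℂ) (psi3 z1 z2 z3 u) * psi3 z1 z2 z3 v).re := by
      have h1 : psi3 z1 z2 z3 (addW3 u v) = psi3 z1 z2 z3 u + psi3 z1 z2 z3 v := by
        unfold psi3 addW3
        simp only [Cx.ev_add]
        ring
      rw [h1, Complex.normSq_add]
      have h2 : (psi3 z1 z2 z3 u * (starRingEnd ℂ) (psi3 z1 z2 z3 v)).re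
          = ((starRingEnd ℂ) (psi3 z1 z2 z3 u) * psi3 z1 z2 z3 v).re := by
        simp only [Complex.mul_re, Complex.conj_re, Complex.conj_im]
        ring
      rw [h2]
      ring
    rw [e] at h
    exact h

/-! ### data -/

/-- certificate. Statement: `N`, `κ`, `Ls`, `Hs`, `F`, `L`, `C`, `T`, `P`. Data: the rest -/
structure CX where
  N : ℕ
  κ : ℤ
  Ls : List ℤ
  Hs : List ℤ
  F : List (List ℤ × List (P6 ℤ))
  L : List (List A3)
  C : List (List (List ℤ))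
  T : List (List (List ℤ))
  P : List (List A3)
  B : ℕ
  W : ℕ
  S : ℕ
  o : ℕ
  off : ℕ
  bb : ℕ
  Ch : ℕ
  tag : ℕ
  dt : List ℕ
  g : ℕ
  W2 : ℕ
  o2 : ℕ
  gs : List ℕ
  S1 : ℕ
  off1 : ℕ
  bb1 : ℕ
  ps : List ℕ

/-- hypotheses on the node values -/
structure CX.Box (D : CX) (x : ℕ → ℝ) : Prop where
  anti : x D.N = -x 0
  lo : ∀ i < D.N, -((D.Ls.getD i 0 : ℤ) : ℝ) ≤ D.κ * (x (i + 1) - x i)
  hi : ∀ i < D.N, D.κ * (x (i + 1) - x i) ≤ ((D.Hs.getD i 0 : ℤ) : ℝ)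
  pos : ∀ f ∈ D.P, 0 ≤ ∑ i ∈ Finset.range D.N, ev3 (f.getD i A3.zero) (x i) (x (i + 1))

/-- the variables in the box `[0, 1]` -/
structure CX.Par (D : CX) (x : ℕ → ℝ) (θ : List ℝ) : Prop where
  len : θ.length = D.N
  box : ∀ t ∈ θ, 0 ≤ t ∧ t ≤ 1
  eq : ∀ i < D.N, ((D.Ls.getD i 0 : ℝ) + (D.Hs.getD i 0 : ℝ)) * θ.getD i 0 = D.Ls.getD i 0 + D.κ * (x (i + 1) - x i)

/-- value of the form with the weights `w` -/
def CX.val (D : CX) (w : List ℝ) (x : ℕ → ℝ) (θ : List ℝ) : ℝ :=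
  (2 * D.κ : ℝ) ^ 2 * ((D.F.map fun q => iz w q.1 * ∑ i ∈ Finset.range D.N,
      (q.2.getD i P6.zero).ev (x i) (x (i + 1))).sum
    + qv id (D.C.map fun r => r.map (iz w))
      (D.L.map fun f => ∑ i ∈ Finset.range D.N, ev3 (f.getD i A3.zero) (x i) (x (i + 1))))
    + qv id (D.T.map fun r => r.map (iz w)) (1 :: θ)

/-- consistency of the data -/
def CX.pre (K : ℕ) (D : CX) : Bool :=
  Nat.ble 1 D.W && (Nat.beq D.off (Nat.mul D.S (od D.B (List.replicate K D.o))) &&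
    (Nat.beq D.off1 (Nat.mul D.S1 (od D.B (List.replicate K D.o))) && (Nat.ble (Nat.mul D.S1 D.W) D.bb1 &&
    (Nat.ble (Nat.mul D.S D.W) D.bb && (Nat.ble D.o D.W && (Nat.beq D.Ls.length D.N && (Nat.beq D.Hs.length D.N &&
      ((D.F.all fun q => Nat.beq q.1.length K) && ((D.C.all fun r => r.all fun c => Nat.beq c.length K) &&
        ((D.T.all fun r => r.all fun c => Nat.beq c.length K) &&
        (lenOk D.N (D.F.map fun q => (ofZ D.B q.1, q.2)) && decide (0 < D.κ))))))))))))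

/-- pairs of chunks -/
def decP (f : ℕ → PV) (C : ℕ) : ℕ → ℕ → List (PV × PV)
  | 0, _ => []
  | k + 1, x => (f (Nat.mod x C), f (Nat.mod (Nat.div x C) C)) :: decP f C k (Nat.div (Nat.div x C) C)

theorem mem_decP {f : ℕ → PV} {C : ℕ} : ∀ {k x : ℕ} {d : PV × PV}, d ∈ decP f C k x →
    (∃ c, d.1 = f c) ∧ ∃ c, d.2 = f c
  | 0, _, _, h => by simp [decP] at h
  | k + 1, x, d, h => by
    rcases List.mem_cons.1 h with rfl | h
    · exact ⟨⟨_, rfl⟩, ⟨_, rfl⟩⟩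
    · exact mem_decP h

/-- the products with their data -/
def CX.prs (D : CX) (f : ℕ → PV) : List (List A3 × List (PV × PV)) :=
  List.zipWith (fun p x => (p, decP f D.Ch D.N (Nat.div x D.tag))) D.P D.ps

/-- the rows of the data -/
def CX.rows (D : CX) (f : ℕ → PV) : List (List PV) := decT f D.Ch D.N (D.dt.map fun x => Nat.div x D.tag)

theorem inc_par {κ : ℤ} : ∀ (n : ℕ) (Ls Hs : List ℤ) (θ : List ℝ) (x : ℕ → ℝ), Ls.length = n → Hs.length = n →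
    Inc κ Ls (addZ Ls Hs) θ (nds x n) → θ.length = n ∧ ∀ i < n,
      ((Ls.getD i 0 : ℝ) + (Hs.getD i 0 : ℝ)) * θ.getD i 0 = Ls.getD i 0 + κ * (x (i + 1) - x i)
  | 0, Ls, Hs, θ, x, h1, h2, h => by
    rw [List.length_eq_zero_iff] at h1 h2
    subst h1 h2
    cases θ with
    | nil => simp
    | cons t θ => simp [nds, addZ, Inc] at h
  | n + 1, Ls, Hs, θ, x, h1, h2, h => by
    cases Ls with
    | nil => simp at h1
    | cons l Ls =>
      cases Hs with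
      | nil => simp at h2
      | cons g Hs =>
        obtain ⟨m, hm⟩ := nds_head (fun i => x (i + 1)) n
        cases θ with
        | nil =>
          simp only [nds] at h
          rw [hm] at h
          simp [addZ, Inc] at h
        | cons t θ =>
          simp only [nds] at h
          rw [hm] at h
          simp only [addZ, Inc] at h
          rw [← hm] at h
          have ih := inc_par n Ls Hs θ (fun i => x (i + 1)) (by simpa using h1) (by simpa using h2) h.2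
          refine ⟨by simp [ih.1], fun i hi => ?_⟩
          cases i with
          | zero =>
            have := h.1
            push_cast at this
            simpa using this
          | succ i => simpa using ih.2 i (by omega)

theorem certXA {W : Type} {K : ℕ} (D : CX) {O : Op PV} {S : Sq W PV} {ψ : W → ℂ} {w : List ℝ}
    (H : Rl O (RV D.B K w)) (hS : Rs S (RV D.B K w) ψ) (hp : D.pre K = true) {f f1 : ℕ → PV}
    (hf : ∀ c, f c = ⟨Nat.mul D.S (od D.B (dgs D.W K c)), D.off, D.bb⟩)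
    (hf1 : ∀ c, f1 c = ⟨Nat.mul D.S1 (od D.B (dgs D.W K c)), D.off1, D.bb1⟩) {G : List (ℕ × List W)}
    (h : chkX O S D.N D.κ D.Ls D.Hs (D.F.map fun q => (ofZ D.B q.1, q.2)) D.L (D.C.map fun r => r.map (ofZ D.B)) G
      (D.T.map fun r => r.map (ofZ D.B)) (D.prs f1) (D.rows f) = true) {x : ℕ → ℝ} (hx : D.Box x) :
    ∃ θ, D.Par x θ ∧ 0 ≤ D.val w x θ := by
  simp only [CX.pre, Bool.and_eq_true, List.all_eq_true, Nat.ble_eq, decide_eq_true_eq] at hp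
  obtain ⟨p1, p2, p2', p3', p3, p4, p5, p6, p7, p8, p8', p9, p10⟩ := hp
  have q2 := Nat.eq_of_beq_eq_true p2
  have q2' := Nat.eq_of_beq_eq_true p2'
  have q5 := Nat.eq_of_beq_eq_true p5
  have q6 := Nat.eq_of_beq_eq_true p6
  have hdec : ∀ c, ∃ t, RV D.B K w (f c) t := fun c => by
    rw [hf]
    exact dec_ok (W := D.W) (S := D.S) (o := D.o) (c := c) (by omega) rfl q2 p3 p4
  have hdec1 : ∀ c, ∃ t, RV D.B K w (f1 c) t := fun c => by
    rw [hf1]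
    exact dec_ok (W := D.W) (S := D.S1) (o := D.o) (c := c) (by omega) rfl q2' p3' p4
  have hd : ∀ ds ∈ D.rows f, ∀ d ∈ ds, ∃ t, RV D.B K w d t := by
    intro ds hds d hd
    obtain ⟨k, y, rfl⟩ := mem_decT hds
    obtain ⟨c, rfl⟩ := mem_decR hd
    exact hdec c
  have hP : ∀ q ∈ D.prs f1, ∀ p ∈ q.2, (∃ t, RV D.B K w p.1 t) ∧ ∃ t, RV D.B K w p.2 t := by
    intro q hq p hp
    obtain ⟨i, hi, rfl⟩ := List.mem_iff_getElem.1 hq
    simp only [CX.prs, List.getElem_zipWith] at hp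
    obtain ⟨⟨c, hc⟩, ⟨c', hc'⟩⟩ := mem_decP hp
    rw [hc, hc']
    exact ⟨hdec1 c, hdec1 c'⟩
  have hF : Forall₂ (fun (q : PV × List (P6 ℤ)) (q' : ℝ × List (P6 ℤ)) => RV D.B K w q.1 q'.1 ∧ q.2 = q'.2)
      (D.F.map fun q => (ofZ D.B q.1, q.2)) (D.F.map fun q => (iz w q.1, q.2)) := by
    rw [List.forall₂_map_left_iff, List.forall₂_map_right_iff]
    refine List.forall₂_same.2 fun q hq => ⟨ofZ_ok (Nat.eq_of_beq_eq_true (p7 q hq)), rfl⟩
  have hC : ∀ C : List (List (List ℤ)), (∀ r ∈ C, ∀ c ∈ r, Nat.beq c.length K = true) →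
      Forall₂ (Forall₂ (RV D.B K w)) (C.map fun r => r.map (ofZ D.B)) (C.map fun r => r.map (iz w)) := by
    intro C hC
    rw [List.forall₂_map_left_iff, List.forall₂_map_right_iff]
    refine List.forall₂_same.2 fun r hr => ?_
    rw [List.forall₂_map_left_iff, List.forall₂_map_right_iff]
    exact List.forall₂_same.2 fun c hc => ofZ_ok (Nat.eq_of_beq_eq_true (hC r hr c hc))
  have hpos : ∀ q ∈ D.prs f1, 0 ≤ sum3 q.1 (nds x D.N) := by
    intro q hq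
    obtain ⟨i, hi, rfl⟩ := List.mem_iff_getElem.1 hq
    simp only [CX.prs, List.getElem_zipWith, sum3_nds]
    exact hx.pos _ (List.getElem_mem _)
  obtain ⟨θ, hb, hI, key⟩ := certX H hS hF (hC D.C p8) (hC D.T p8') hP hd p10 p9 h
    (bd_nds D.N D.Ls D.Hs x q5 q6 hx.lo hx.hi) (by rw [nds_last, nds_headI, hx.anti]) q5 hpos
  obtain ⟨l1, l2⟩ := inc_par D.N D.Ls D.Hs θ x q5 q6 hI
  refine ⟨θ, ⟨l1, hb, l2⟩, ?_⟩
  unfold CX.val
  simp only [List.map_map, Function.comp_def, sum6_nds, sum3_nds] at key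
  exact key

/-- the complete test, two components -/
def CX.chk2 (D : CX) : Bool :=
  D.pre 4 && chkX (O2 D.B) (S2 D.B) D.N D.κ D.Ls D.Hs (D.F.map fun q => (ofZ D.B q.1, q.2)) D.L
    (D.C.map fun r => r.map (ofZ D.B)) (D.gs.map fun x => (D.g, decW2 D.W2 D.o2 D.L.length (Nat.div x D.tag)))
    (D.T.map fun r => r.map (ofZ D.B)) (D.prs fun c => ⟨Nat.mul D.S1 (sp4 D.B D.W c), D.off1, D.bb1⟩)
    (D.rows fun c => ⟨Nat.mul D.S (sp4 D.B D.W c), D.off, D.bb⟩)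

/-- **certificate with two components** -/
theorem certX2 {D : CX} (h : D.chk2 = true) (z1 z2 : ℂ) {x : ℕ → ℝ} (hx : D.Box x) :
    ∃ θ, D.Par x θ ∧ 0 ≤ D.val (w2 z1 z2) x θ := by
  simp only [CX.chk2, Bool.and_eq_true] at h
  exact certXA D (rl2 D.B z1 z2) (rs2 D.B z1 z2) h.1 (fun c => by rw [sp4_eq])
    (fun c => by rw [sp4_eq]) h.2 hx

/-- nine digits of `c` in base `W` written in base `B` -/
def sp9 (B W c : ℕ) : ℕ :=
  Nat.add (Nat.mod c W) (Nat.mul B (Nat.add (Nat.mod (Nat.div c W) W)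
    (Nat.mul B (Nat.add (Nat.mod (Nat.div (Nat.div c W) W) W)
    (Nat.mul B (Nat.add (Nat.mod (Nat.div (Nat.div (Nat.div c W) W) W) W)
    (Nat.mul B (Nat.add (Nat.mod (Nat.div (Nat.div (Nat.div (Nat.div c W) W) W) W) W)
    (Nat.mul B (Nat.add (Nat.mod (Nat.div (Nat.div (Nat.div (Nat.div (Nat.div c W) W) W) W) W) W)
    (Nat.mul B (Nat.add (Nat.mod (Nat.div (Nat.div (Nat.div (Nat.div (Nat.div (Nat.div c W) W) W) W) W) W) W)
    (Nat.mul B (Nat.add (Nat.mod (Nat.div (Nat.div (Nat.div (Nat.div (Nat.div (Nat.div (Nat.div c W) W) W) W) W) W) W) W)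
    (Nat.mul B (Nat.mod (Nat.div (Nat.div (Nat.div (Nat.div (Nat.div (Nat.div (Nat.div (Nat.div c W) W) W) W) W) W) W) W)
      W))))))))))))))))

theorem sp9_eq (B W c : ℕ) : sp9 B W c = od B (dgs W 9 c) := by
  simp [sp9, dgs, od]

/-- digits of a complex row -/
def decW3 (W o : ℕ) : ℕ → ℕ → List (Cx × Cx × Cx)
  | 0, _ => []
  | k + 1, x =>
    (⟨Nat.mod x W, o, Nat.mod (Nat.div x W) W, o⟩,
      ⟨Nat.mod (Nat.div (Nat.div x W) W) W, o, Nat.mod (Nat.div (Nat.div (Nat.div x W) W) W) W, o⟩,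
      ⟨Nat.mod (Nat.div (Nat.div (Nat.div (Nat.div x W) W) W) W) W, o,
        Nat.mod (Nat.div (Nat.div (Nat.div (Nat.div (Nat.div x W) W) W) W) W) W, o⟩)
      :: decW3 W o k (Nat.div (Nat.div (Nat.div (Nat.div (Nat.div (Nat.div x W) W) W) W) W) W)

/-- the complete test, three components -/
def CX.chk3 (D : CX) : Bool :=
  D.pre 9 && chkX (O3 D.B) (S3 D.B) D.N D.κ D.Ls D.Hs (D.F.map fun q => (ofZ D.B q.1, q.2)) D.L
    (D.C.map fun r => r.map (ofZ D.B)) (D.gs.map fun x => (D.g, decW3 D.W2 D.o2 D.L.length (Nat.div x D.tag)))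
    (D.T.map fun r => r.map (ofZ D.B)) (D.prs fun c => ⟨Nat.mul D.S1 (sp9 D.B D.W c), D.off1, D.bb1⟩)
    (D.rows fun c => ⟨Nat.mul D.S (sp9 D.B D.W c), D.off, D.bb⟩)

/-- **certificate with three components** -/
theorem certX3 {D : CX} (h : D.chk3 = true) (z1 z2 z3 : ℂ) {x : ℕ → ℝ} (hx : D.Box x) :
    ∃ θ, D.Par x θ ∧ 0 ≤ D.val (w3 z1 z2 z3) x θ := by
  simp only [CX.chk3, Bool.and_eq_true] at h
  exact certXA D (rl3 D.B z1 z2 z3) (rs3 D.B z1 z2 z3) h.1 (fun c => by rw [sp9_eq])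
    (fun c => by rw [sp9_eq]) h.2 hx

end Pool.Agent.FPX.PLK
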