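import Mathlib
import Pool.Agent.FPX.BRX
import Pool.Agent.FPX.PLY

/-
NCA (helper87): expansion of helper84's lists (`BRG.Tf`, `BRG.Qf`) in the real variables
`y = (1, Re u₃, Im u₃, …, Re u₉, Im u₉)` and `Z = (Z₀, Re Z₂, Im Z₂, …, Im Z₈)`: Hermitian `3 × 3` forms with rational
entries as coefficients, evaluation theorems; comparison, bounds, positivity of such forms.
-/

open Complex
open scoped ComplexConjugate

noncomputable section

namespace Pool.Agent.FPX.NCA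

/-! ### Hermitian forms -/

/-- a Hermitian `3 × 3` form with rational entries -/
structure H9 where
  a : ℚ
  b : ℚ
  c : ℚ
  r12 : ℚ
  i12 : ℚ
  r13 : ℚ
  i13 : ℚ
  r23 : ℚ
  i23 : ℚ

namespace H9

def ev (h : H9) (z : ℕ → ℂ) : ℝ :=
  h.a * ‖z 0‖ ^ 2 + h.b * ‖z 1‖ ^ 2 + h.c * ‖z 2‖ ^ 2
    + 2 * (((h.r12 : ℂ) + (h.i12 : ℂ) * I) * conj (z 0) * z 1).re
    + 2 * (((h.r13 : ℂ) + (h.i13 : ℂ) * I) * conj (z 0) * z 2).re
    + 2 * (((h.r23 : ℂ) + (h.i23 : ℂ) * I) * conj (z 1) * z 2).re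

def zero : H9 := ⟨0, 0, 0, 0, 0, 0, 0, 0, 0⟩

def add (h k : H9) : H9 :=
  ⟨h.a + k.a, h.b + k.b, h.c + k.c, h.r12 + k.r12, h.i12 + k.i12, h.r13 + k.r13, h.i13 + k.i13, h.r23 + k.r23,
    h.i23 + k.i23⟩

def sm (q : ℚ) (h : H9) : H9 :=
  ⟨q * h.a, q * h.b, q * h.c, q * h.r12, q * h.i12, q * h.r13, q * h.i13, q * h.r23, q * h.i23⟩

variable {z : ℕ → ℂ}

/-- in real coordinates -/
theorem ev_eq (h : H9) (z : ℕ → ℂ) : h.ev z =
    h.a * ((z 0).re ^ 2 + (z 0).im ^ 2) + h.b * ((z 1).re ^ 2 + (z 1).im ^ 2)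
      + h.c * ((z 2).re ^ 2 + (z 2).im ^ 2)
      + 2 * (h.r12 * ((z 0).re * (z 1).re + (z 0).im * (z 1).im) - h.i12 * ((z 0).re * (z 1).im - (z 0).im * (z 1).re))
      + 2 * (h.r13 * ((z 0).re * (z 2).re + (z 0).im * (z 2).im) - h.i13 * ((z 0).re * (z 2).im - (z 0).im * (z 2).re))
      + 2 * (h.r23 * ((z 1).re * (z 2).re + (z 1).im * (z 2).im)
        - h.i23 * ((z 1).re * (z 2).im - (z 1).im * (z 2).re)) := by
  have n2 : ∀ w : ℂ, ‖w‖ ^ 2 = w.re ^ 2 + w.im ^ 2 := fun w => by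
    rw [← Complex.normSq_eq_norm_sq, Complex.normSq_apply]
    ring
  unfold ev
  rw [n2, n2, n2]
  have q0 : ∀ q : ℚ, ((q : ℂ)).re = (q : ℝ) := fun q => Complex.ratCast_re q
  have q1 : ∀ q : ℚ, ((q : ℂ)).im = 0 := fun q => Complex.ratCast_im q
  simp only [Complex.mul_re, Complex.mul_im, Complex.add_re, Complex.add_im, Complex.I_re, Complex.I_im,
    Complex.conj_re, Complex.conj_im, q0, q1]
  ring

@[simp] theorem ev_zero (z : ℕ → ℂ) : zero.ev z = 0 := by
  rw [ev_eq]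
  simp [zero]

theorem ev_add (h k : H9) : (h.add k).ev z = h.ev z + k.ev z := by
  rw [ev_eq, ev_eq, ev_eq]
  simp only [add]
  push_cast
  ring

theorem ev_sm (q : ℚ) (h : H9) : (h.sm q).ev z = q * h.ev z := by
  rw [ev_eq, ev_eq]
  simp only [sm]
  push_cast
  ring

/-- adds `w Re (z_a conj z_b)` -/
def addR (a b : ℕ) (w : ℚ) (h : H9) : H9 :=
  match h with
  | ⟨x0, x1, x2, x3, x4, x5, x6, x7, x8⟩ =>
    match a, b with
    | 0, 0 => ⟨x0 + w, x1, x2, x3, x4, x5, x6, x7, x8⟩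
    | 1, 1 => ⟨x0, x1 + w, x2, x3, x4, x5, x6, x7, x8⟩
    | 2, 2 => ⟨x0, x1, x2 + w, x3, x4, x5, x6, x7, x8⟩
    | 0, 1 => ⟨x0, x1, x2, x3 + w / 2, x4, x5, x6, x7, x8⟩
    | 1, 0 => ⟨x0, x1, x2, x3 + w / 2, x4, x5, x6, x7, x8⟩
    | 0, 2 => ⟨x0, x1, x2, x3, x4, x5 + w / 2, x6, x7, x8⟩
    | 2, 0 => ⟨x0, x1, x2, x3, x4, x5 + w / 2, x6, x7, x8⟩
    | 1, 2 => ⟨x0, x1, x2, x3, x4, x5, x6, x7 + w / 2, x8⟩
    | 2, 1 => ⟨x0, x1, x2, x3, x4, x5, x6, x7 + w / 2, x8⟩
    | _, _ => ⟨x0, x1, x2, x3, x4, x5, x6, x7, x8⟩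

/-- adds `w Im (z_a conj z_b)` -/
def addI (a b : ℕ) (w : ℚ) (h : H9) : H9 :=
  match h with
  | ⟨x0, x1, x2, x3, x4, x5, x6, x7, x8⟩ =>
    match a, b with
    | 0, 1 => ⟨x0, x1, x2, x3, x4 + w / 2, x5, x6, x7, x8⟩
    | 1, 0 => ⟨x0, x1, x2, x3, x4 - w / 2, x5, x6, x7, x8⟩
    | 0, 2 => ⟨x0, x1, x2, x3, x4, x5, x6 + w / 2, x7, x8⟩
    | 2, 0 => ⟨x0, x1, x2, x3, x4, x5, x6 - w / 2, x7, x8⟩
    | 1, 2 => ⟨x0, x1, x2, x3, x4, x5, x6, x7, x8 + w / 2⟩
    | 2, 1 => ⟨x0, x1, x2, x3, x4, x5, x6, x7, x8 - w / 2⟩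
    | _, _ => ⟨x0, x1, x2, x3, x4, x5, x6, x7, x8⟩

theorem addR_ev {a b : ℕ} (ha : a < 3) (hb : b < 3) (w : ℚ) (h : H9) :
    (h.addR a b w).ev z = h.ev z + w * (z a * conj (z b)).re := by
  rw [ev_eq, ev_eq]
  rcases h with ⟨x0, x1, x2, x3, x4, x5, x6, x7, x8⟩
  interval_cases a <;> interval_cases b <;>
    simp only [addR, Complex.mul_re, Complex.conj_re, Complex.conj_im] <;> push_cast <;> ring

theorem addI_ev {a b : ℕ} (ha : a < 3) (hb : b < 3) (w : ℚ) (h : H9) :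
    (h.addI a b w).ev z = h.ev z + w * (z a * conj (z b)).im := by
  rw [ev_eq, ev_eq]
  rcases h with ⟨x0, x1, x2, x3, x4, x5, x6, x7, x8⟩
  interval_cases a <;> interval_cases b <;>
    simp only [addI, Complex.mul_im, Complex.conj_re, Complex.conj_im] <;> push_cast <;> ring

end H9

/-- one monomial -/
def mono (a b : ℕ) (re im : ℚ) : H9 := (H9.zero.addR a b re).addI a b (-im)

theorem mono_ev {a b : ℕ} (ha : a < 3) (hb : b < 3) (re im : ℚ) (z : ℕ → ℂ) :
    (mono a b re im).ev z = (z a * conj (z b) * ((re : ℂ) + (im : ℂ) * I)).re := by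
  unfold mono
  rw [H9.addI_ev ha hb, H9.addR_ev ha hb, H9.ev_zero]
  have q0 : ∀ q : ℚ, ((q : ℂ)).re = (q : ℝ) := fun q => Complex.ratCast_re q
  have q1 : ∀ q : ℚ, ((q : ℂ)).im = 0 := fun q => Complex.ratCast_im q
  rw [Complex.mul_re (z a * conj (z b))]
  simp only [Complex.add_re, Complex.add_im, Complex.mul_re, Complex.mul_im, Complex.I_re, Complex.I_im, q0, q1]
  push_cast
  ring

/-! ### real variables -/

/-- `1, Re u₃, Im u₃, Re u₅, …, Im u₉` -/
def yv (u : ℤ → ℂ) (k : ℕ) : ℝ := if k = 0 then 1 else if k % 2 = 1 then (u (k + 2)).re else (u (k + 1)).im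

/-- `Z₀, Re Z₂, Im Z₂, Re Z₄, …, Im Z₈` -/
def Zv (Z : ℤ → ℂ) (k : ℕ) : ℝ := if k = 0 then (Z 0).re else if k % 2 = 1 then (Z (k + 1)).re else (Z k).im

/-- signs -/
inductive Sg
  | z
  | p
  | n

def Sg.r : Sg → ℝ
  | .z => 0
  | .p => 1
  | .n => -1

def Sg.app (s : Sg) (w : ℚ) : ℚ :=
  match s with
  | .z => 0
  | .p => w
  | .n => -w

theorem Sg.app_cast (s : Sg) (w : ℚ) : ((s.app w : ℚ) : ℝ) = s.r * w := by
  cases s <;> simp [Sg.app, Sg.r]

/-- index of the real part of `u_n`, and the sign of the imaginary part -/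
def md : ℤ → ℕ × Sg
  | Int.ofNat 0 => (0, .z)
  | Int.ofNat (k + 1) => (k - 1, .p)
  | Int.negSucc k => (k - 1, .n)

/-- modes `0, ±3, ±5, ±7, ±9` -/
def okm (n : ℤ) : Bool := n == 0 || (n.natAbs % 2 == 1 && (Nat.ble 3 n.natAbs && Nat.ble n.natAbs 9))

theorem okm_cases {n : ℤ} (h : okm n = true) :
    n = 0 ∨ n = 3 ∨ n = -3 ∨ n = 5 ∨ n = -5 ∨ n = 7 ∨ n = -7 ∨ n = 9 ∨ n = -9 := by
  simp only [okm, Bool.or_eq_true, beq_iff_eq, Bool.and_eq_true, Nat.ble_eq] at h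
  omega

theorem md_lt {n : ℤ} (h : okm n = true) : (md n).1 < 8 := by
  rcases okm_cases h with h | h | h | h | h | h | h | h | h <;> rw [h] <;> decide

theorem um {u : ℤ → ℂ} (h0 : u 0 = 1) (hu : ∀ n, u (-n) = conj (u n)) {n : ℤ} (h : okm n = true) :
    u n = (yv u (md n).1 : ℂ) + ((md n).2.r : ℂ) * (yv u ((md n).1 + 1) : ℂ) * I := by
  have key : ∀ m : ℤ, u m = ((u m).re : ℂ) + (1 : ℝ) * ((u m).im : ℂ) * I := fun m => by
    rw [Complex.ofReal_one, one_mul]
    exact (Complex.re_add_im _).symm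
  have key2 : ∀ m : ℤ, u (-m) = ((u m).re : ℂ) + (-1 : ℝ) * ((u m).im : ℂ) * I := fun m => by
    rw [hu]
    apply Complex.ext <;> simp
  rcases okm_cases h with h | h | h | h | h | h | h | h | h <;> rw [h]
  · rw [h0]
    simp [md, yv, Sg.r]
  · exact key 3
  · exact key2 3
  · exact key 5
  · exact key2 5
  · exact key 7
  · exact key2 7
  · exact key 9
  · exact key2 9

/-! ### tables -/

/-- change of an entry -/
def mdf {α : Type} (f : α → α) : List α → ℕ → List α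
  | [], _ => []
  | a :: l, 0 => f a :: l
  | a :: l, k + 1 => a :: mdf f l k

theorem mdf_length {α : Type} (f : α → α) : ∀ (l : List α) (k : ℕ), (mdf f l k).length = l.length
  | [], _ => rfl
  | _ :: _, 0 => rfl
  | _ :: l, k + 1 => by simp [mdf, mdf_length f l k]

theorem mdf_getD {α : Type} (f : α → α) (d : α) : ∀ (l : List α) (k : ℕ), k < l.length → ∀ i,
    (mdf f l k).getD i d = if i = k then f (l.getD i d) else l.getD i d
  | [], _, h, _ => by simp at h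
  | a :: l, 0, _, i => by
    cases i <;> simp [mdf]
  | a :: l, k + 1, h, i => by
    rcases i with _ | i
    · simp [mdf]
    · have := mdf_getD f d l k (by simpa using h) i
      simpa [mdf] using this

/-- entry of a table -/
def getH (tab : List (List H9)) (k j : ℕ) : H9 := (tab.getD k []).getD j H9.zero

/-- change of the coefficient of `y_k y_l` -/
def up (k l : ℕ) (f : H9 → H9) (tab : List (List H9)) : List (List H9) :=
  match Nat.ble k l with
  | true => mdf (fun r => mdf f r (l - k)) tab k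
  | false => mdf (fun r => mdf f r (k - l)) tab l

/-- upper triangular shape -/
def Shp (tab : List (List H9)) : Prop := tab.map List.length = [9, 8, 7, 6, 5, 4, 3, 2, 1]

theorem Shp.len {tab : List (List H9)} (h : Shp tab) : tab.length = 9 := by
  have := congrArg List.length h
  simpa using this

theorem Shp.row {tab : List (List H9)} (h : Shp tab) {k : ℕ} (hk : k < 9) : (tab.getD k []).length = 9 - k := by
  have e : (tab.getD k []).length = (tab.map List.length).getD k 0 := by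
    rw [List.getD_eq_getElem?_getD, List.getD_eq_getElem?_getD, List.getElem?_map]
    cases tab[k]? <;> rfl
  rw [e, h]
  interval_cases k <;> rfl

theorem Shp.mdf {tab : List (List H9)} (h : Shp tab) (g : List H9 → List H9) (hg : ∀ r, (g r).length = r.length)
    (k : ℕ) : Shp (mdf g tab k) := by
  unfold Shp at h ⊢
  rw [← h]
  clear h
  induction tab generalizing k with
  | nil => rfl
  | cons r tab ih =>
    rcases k with _ | k
    · simp [NCA.mdf, hg]
    · simp [NCA.mdf, ih]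

theorem Shp.up {tab : List (List H9)} (h : Shp tab) (k l : ℕ) (f : H9 → H9) : Shp (up k l f tab) := by
  unfold NCA.up
  split
  · exact h.mdf _ (fun r => mdf_length f r _) _
  · exact h.mdf _ (fun r => mdf_length f r _) _

/-- the form: sum over `k ≤ l ≤ 8` of the entry times `y_k y_l` -/
def qH (z : ℕ → ℂ) (tab : List (List H9)) (y : ℕ → ℝ) : ℝ :=
  ∑ k ∈ Finset.range 9, ∑ j ∈ Finset.range (9 - k), (getH tab k j).ev z * (y k * y (k + j))

theorem getH_mdf {tab : List (List H9)} (h : Shp tab) (f : H9 → H9) {k0 j0 : ℕ} (hk : k0 < 9) (hj : j0 < 9 - k0)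
    (k j : ℕ) : getH (mdf (fun r => mdf f r j0) tab k0) k j =
      if k = k0 ∧ j = j0 then f (getH tab k j) else getH tab k j := by
  unfold getH
  rw [mdf_getD _ _ _ _ (by rw [h.len]; exact hk)]
  by_cases e : k = k0
  · rw [if_pos e, mdf_getD _ _ _ _ (by rw [e, h.row hk]; exact hj)]
    simp [e]
  · rw [if_neg e, if_neg (fun h => e h.1)]

theorem qH_mdf {z : ℕ → ℂ} {tab : List (List H9)} (h : Shp tab) {f : H9 → H9} {v : ℝ}
    (hf : ∀ x, (f x).ev z = x.ev z + v) {k0 j0 : ℕ} (hk : k0 < 9) (hj : j0 < 9 - k0) (y : ℕ → ℝ) :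
    qH z (mdf (fun r => mdf f r j0) tab k0) y = qH z tab y + v * (y k0 * y (k0 + j0)) := by
  have e : ∀ k j, (getH (mdf (fun r => mdf f r j0) tab k0) k j).ev z * (y k * y (k + j)) =
      (getH tab k j).ev z * (y k * y (k + j)) + if k = k0 then (if j = j0 then v * (y k * y (k + j)) else 0) else 0 := by
    intro k j
    rw [getH_mdf h f hk hj]
    by_cases e1 : k = k0
    · by_cases e2 : j = j0
      · rw [if_pos ⟨e1, e2⟩, if_pos e1, if_pos e2, hf]
        ring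
      · rw [if_neg (fun h => e2 h.2), if_pos e1, if_neg e2, add_zero]
    · rw [if_neg (fun h => e1 h.1), if_neg e1, add_zero]
  unfold qH
  simp only [e, Finset.sum_add_distrib]
  congr 1
  rw [Finset.sum_eq_single k0]
  · simp only [if_true]
    rw [Finset.sum_ite_eq' (Finset.range (9 - k0)) j0, if_pos (Finset.mem_range.2 hj)]
  · intro k _ hne
    simp [hne]
  · intro hn
    exact absurd (Finset.mem_range.2 hk) hn

theorem qH_up {z : ℕ → ℂ} {tab : List (List H9)} (h : Shp tab) {f : H9 → H9} {v : ℝ}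
    (hf : ∀ x, (f x).ev z = x.ev z + v) {k l : ℕ} (hk : k < 9) (hl : l < 9) (y : ℕ → ℝ) :
    qH z (up k l f tab) y = qH z tab y + v * (y k * y l) := by
  unfold up
  split
  next hb =>
    have hkl : k ≤ l := Nat.le_of_ble_eq_true hb
    rw [qH_mdf h hf hk (by omega) y]
    rw [show k + (l - k) = l by omega]
  next hb =>
    have hkl : ¬ k ≤ l := fun hh => by
      rw [Nat.ble_eq_true_of_le hh] at hb
      exact Bool.noConfusion hb
    rw [qH_mdf h hf hl (by omega) y]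
    rw [show l + (k - l) = k by omega, mul_comm (y l)]

/-! ### forcing the evaluation -/

def frH {β : Type} (h : H9) (k : H9 → β) : β :=
  match h with
  | ⟨x0, x1, x2, x3, x4, x5, x6, x7, x8⟩ => k ⟨x0, x1, x2, x3, x4, x5, x6, x7, x8⟩

theorem frH_eq {β : Type} (h : H9) (k : H9 → β) : frH h k = k h := by
  cases h
  rfl

def frR {β : Type} : List H9 → (List H9 → β) → β
  | [], k => k []
  | h :: t, k => frH h fun h' => frR t fun t' => k (h' :: t')

theorem frR_eq {β : Type} : ∀ (l : List H9) (k : List H9 → β), frR l k = k l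
  | [], _ => rfl
  | h :: t, k => by simp only [frR, frH_eq, frR_eq t]

def frT {β : Type} : List (List H9) → (List (List H9) → β) → β
  | [], k => k []
  | h :: t, k => frR h fun h' => frT t fun t' => k (h' :: t')

theorem frT_eq {β : Type} : ∀ (l : List (List H9)) (k : List (List H9) → β), frT l k = k l
  | [], _ => rfl
  | h :: t, k => by simp only [frT, frR_eq, frT_eq t]

/-! ### the expansion of `Tf` -/

/-- the parts of a monomial `w z_a u_n conj (z_b u_m)` with `(k, s)`, `(l, s')` -/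
def e2R (a b k l : ℕ) (s s' : Sg) (w : ℚ) (tab : List (List H9)) : List (List H9) :=
  match s, s' with
  | .z, _ => tab
  | _, .z => tab
  | s, s' => up (k + 1) (l + 1) (H9.addR a b (s.app (s'.app w))) tab

def e3I (a b k l : ℕ) (s : Sg) (w : ℚ) (tab : List (List H9)) : List (List H9) :=
  match s with
  | .z => tab
  | s => up (k + 1) l (H9.addI a b (-(s.app w))) tab

def e4I (a b k l : ℕ) (s' : Sg) (w : ℚ) (tab : List (List H9)) : List (List H9) :=
  match s' with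
  | .z => tab
  | s' => up k (l + 1) (H9.addI a b (s'.app w)) tab

/-- adds one monomial -/
def ms (a : ℕ) (n : ℤ) (b : ℕ) (m : ℤ) (w : ℚ) (tab : List (List H9)) : List (List H9) :=
  match md n, md m with
  | (k, s), (l, s') =>
    match Nat.beq a b with
    | true => e2R a b k l s s' w (up k l (H9.addR a b w) tab)
    | false => e4I a b k l s' w (e3I a b k l s w (e2R a b k l s s' w (up k l (H9.addR a b w) tab)))

def inner (a : ℕ) (n : ℤ) (cq : ℚ) : BRG.Lf → List (List H9) → List (List H9)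
  | [], tab => tab
  | t :: l, tab => inner a n cq l (ms a n t.2.1 t.2.2 (cq * t.1) tab)

def outer {β : Type} (c : ℚ) (l' : BRG.Lf) : BRG.Lf → List (List H9) → (List (List H9) → β) → β
  | [], tab, k => k tab
  | t :: l, tab, k => frT (inner t.2.1 t.2.2 (c * t.1) l' tab) fun tab' => outer c l' l tab' k

def goT : BRG.Tf → List (List H9) → List (List H9)
  | [], tab => tab
  | t :: T, tab => outer t.1 t.2.2 t.2.1 tab fun tab' => goT T tab'

def tab0 : List (List H9) :=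
  [List.replicate 9 H9.zero, List.replicate 8 H9.zero, List.replicate 7 H9.zero, List.replicate 6 H9.zero,
    List.replicate 5 H9.zero, List.replicate 4 H9.zero, List.replicate 3 H9.zero, List.replicate 2 H9.zero,
    List.replicate 1 H9.zero]

/-- **the table of the rank one terms** -/
def tT (T : BRG.Tf) : List (List H9) := goT T tab0

/-- components `< 3`, modes `0, ±3, ±5, ±7, ±9` -/
def okL (l : BRG.Lf) : Bool := l.all fun t => Nat.blt t.2.1 3 && okm t.2.2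

def okT (T : BRG.Tf) : Bool := T.all fun t => okL t.2.1 && okL t.2.2

theorem okL_mem {l : BRG.Lf} (h : okL l = true) {t : ℚ × ℕ × ℤ} (ht : t ∈ l) : t.2.1 < 3 ∧ okm t.2.2 = true := by
  unfold okL at h
  rw [List.all_eq_true] at h
  have := h t ht
  rw [Bool.and_eq_true] at this
  exact ⟨Nat.le_of_ble_eq_true this.1, this.2⟩

section exp

variable {z : ℕ → ℂ} {u : ℤ → ℂ} (h0 : u 0 = 1) (hu : ∀ n, u (-n) = conj (u n))

theorem e2R_ev {a b k l : ℕ} (ha : a < 3) (hb : b < 3) (hk : k < 8) (hl : l < 8) (s s' : Sg) (w : ℚ)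
    {tab : List (List H9)} (h : Shp tab) (y : ℕ → ℝ) : Shp (e2R a b k l s s' w tab) ∧
    qH z (e2R a b k l s s' w tab) y = qH z tab y
      + w * (z a * conj (z b)).re * (s.r * s'.r * (y (k + 1) * y (l + 1))) := by
  have key : ∀ s s' : Sg, qH z (up (k + 1) (l + 1) (H9.addR a b (s.app (s'.app w))) tab) y = qH z tab y
      + w * (z a * conj (z b)).re * (s.r * s'.r * (y (k + 1) * y (l + 1))) := by
    intro s s'
    rw [qH_up h (fun x => H9.addR_ev ha hb _ x) (by omega) (by omega), Sg.app_cast, Sg.app_cast]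
    ring
  cases s <;> cases s'
  case z.z => exact ⟨h, by simp [e2R, Sg.r]⟩
  case z.p => exact ⟨h, by simp [e2R, Sg.r]⟩
  case z.n => exact ⟨h, by simp [e2R, Sg.r]⟩
  case p.z => exact ⟨h, by simp [e2R, Sg.r]⟩
  case n.z => exact ⟨h, by simp [e2R, Sg.r]⟩
  case p.p => exact ⟨h.up _ _ _, key .p .p⟩
  case p.n => exact ⟨h.up _ _ _, key .p .n⟩
  case n.p => exact ⟨h.up _ _ _, key .n .p⟩
  case n.n => exact ⟨h.up _ _ _, key .n .n⟩

theorem e3I_ev {a b k l : ℕ} (ha : a < 3) (hb : b < 3) (hk : k < 8) (hl : l < 9) (s : Sg) (w : ℚ)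
    {tab : List (List H9)} (h : Shp tab) (y : ℕ → ℝ) : Shp (e3I a b k l s w tab) ∧
    qH z (e3I a b k l s w tab) y = qH z tab y - w * (z a * conj (z b)).im * (s.r * (y (k + 1) * y l)) := by
  have key : ∀ s : Sg, qH z (up (k + 1) l (H9.addI a b (-(s.app w))) tab) y = qH z tab y
      - w * (z a * conj (z b)).im * (s.r * (y (k + 1) * y l)) := by
    intro s
    rw [qH_up h (fun x => H9.addI_ev ha hb _ x) (by omega) hl, Rat.cast_neg, Sg.app_cast]
    ring
  cases s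
  case z => exact ⟨h, by simp [e3I, Sg.r]⟩
  case p => exact ⟨h.up _ _ _, key .p⟩
  case n => exact ⟨h.up _ _ _, key .n⟩

theorem e4I_ev {a b k l : ℕ} (ha : a < 3) (hb : b < 3) (hk : k < 9) (hl : l < 8) (s : Sg) (w : ℚ)
    {tab : List (List H9)} (h : Shp tab) (y : ℕ → ℝ) : Shp (e4I a b k l s w tab) ∧
    qH z (e4I a b k l s w tab) y = qH z tab y + w * (z a * conj (z b)).im * (s.r * (y k * y (l + 1))) := by
  have key : ∀ s : Sg, qH z (up k (l + 1) (H9.addI a b (s.app w)) tab) y = qH z tab y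
      + w * (z a * conj (z b)).im * (s.r * (y k * y (l + 1))) := by
    intro s
    rw [qH_up h (fun x => H9.addI_ev ha hb _ x) hk (by omega), Sg.app_cast]
    ring
  cases s
  case z => exact ⟨h, by simp [e4I, Sg.r]⟩
  case p => exact ⟨h.up _ _ _, key .p⟩
  case n => exact ⟨h.up _ _ _, key .n⟩

include h0 hu in
theorem ms_ev {a b : ℕ} {n m : ℤ} (ha : a < 3) (hb : b < 3) (hn : okm n = true) (hm : okm m = true) (w : ℚ)
    {tab : List (List H9)} (h : Shp tab) : Shp (ms a n b m w tab) ∧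
    qH z (ms a n b m w tab) (yv u) = qH z tab (yv u) + ((w : ℂ) * (z a * u n * conj (z b * u m))).re := by
  have hk := md_lt hn
  have hl := md_lt hm
  have en := um h0 hu hn
  have em := um h0 hu hm
  unfold ms
  rcases hd : md n with ⟨k, s⟩
  rcases hd' : md m with ⟨l, s'⟩
  rw [hd] at hk en
  rw [hd'] at hl em
  simp only at hk hl en em ⊢
  have h1 : Shp (up k l (H9.addR a b w) tab) := h.up _ _ _
  have q1 := qH_up (z := z) h (fun x => H9.addR_ev ha hb w x) (show k < 9 by omega) (show l < 9 by omega) (yv u)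
  obtain ⟨h2, q2⟩ := e2R_ev (z := z) ha hb hk hl s s' w h1 (yv u)
  obtain ⟨h3, q3⟩ := e3I_ev (z := z) ha hb hk (show l < 9 by omega) s w h2 (yv u)
  obtain ⟨h4, q4⟩ := e4I_ev (z := z) ha hb (show k < 9 by omega) hl s' w h3 (yv u)
  have e : ((w : ℂ) * (z a * u n * conj (z b * u m))).re =
      w * (z a * conj (z b)).re * (yv u k * yv u l)
      + w * (z a * conj (z b)).re * (s.r * s'.r * (yv u (k + 1) * yv u (l + 1)))
      - w * (z a * conj (z b)).im * (s.r * (yv u (k + 1) * yv u l))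
      + w * (z a * conj (z b)).im * (s'.r * (yv u k * yv u (l + 1))) := by
    have q0 : ∀ q : ℚ, ((q : ℂ)).re = (q : ℝ) := fun q => Complex.ratCast_re q
    have q1 : ∀ q : ℚ, ((q : ℂ)).im = 0 := fun q => Complex.ratCast_im q
    rw [en, em]
    simp only [map_mul, map_add, Complex.mul_re, Complex.mul_im, Complex.add_re, Complex.add_im, Complex.I_re,
      Complex.I_im, Complex.conj_re, Complex.conj_im, Complex.ofReal_re, Complex.ofReal_im, q0, q1]
    ring
  rw [e]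
  split
  next hab =>
    have hab' : a = b := Nat.eq_of_beq_eq_true hab
    refine ⟨h2, ?_⟩
    rw [q2, q1]
    have hi : (z a * conj (z b)).im = 0 := by
      rw [hab', Complex.mul_conj]
      exact Complex.ofReal_im _
    rw [hi]
    ring
  next hab =>
    refine ⟨h4, ?_⟩
    rw [q4, q3, q2, q1]
    ring

include h0 hu in
theorem inner_ev {a : ℕ} {n : ℤ} (ha : a < 3) (hn : okm n = true) (cq : ℚ) (l : BRG.Lf) (hl : okL l = true)
    {tab : List (List H9)} (h : Shp tab) : Shp (inner a n cq l tab) ∧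
    qH z (inner a n cq l tab) (yv u) = qH z tab (yv u) + ((cq : ℂ) * (z a * u n * conj (BRG.ev z u l))).re := by
  induction l generalizing tab with
  | nil => exact ⟨h, by simp [inner]⟩
  | cons t l ih =>
    have ht := okL_mem hl List.mem_cons_self
    have hl' : okL l = true := by
      unfold okL at hl ⊢
      rw [List.all_cons, Bool.and_eq_true] at hl
      exact hl.2
    obtain ⟨h1, q1⟩ := ms_ev (z := z) h0 hu ha ht.1 hn ht.2 (cq * t.1) h
    obtain ⟨h2, q2⟩ := ih hl' h1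
    refine ⟨h2, ?_⟩
    unfold inner
    rw [q2, q1, add_assoc, ← Complex.add_re]
    congr 2
    have : conj ((t.1 : ℚ) : ℂ) = ((t.1 : ℚ) : ℂ) := map_ratCast _ _
    simp only [BRG.ev_cons, map_add, map_mul, this]
    push_cast
    ring

include h0 hu in
theorem outer_ev {β : Type} (c : ℚ) (l' : BRG.Lf) (hl' : okL l' = true) (l : BRG.Lf) (hl : okL l = true)
    {tab : List (List H9)} (h : Shp tab) (k : List (List H9) → β) : ∃ tab', outer c l' l tab k = k tab' ∧ Shp tab' ∧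
    qH z tab' (yv u) = qH z tab (yv u) + ((c : ℂ) * (BRG.ev z u l * conj (BRG.ev z u l'))).re := by
  induction l generalizing tab with
  | nil => exact ⟨tab, rfl, h, by simp⟩
  | cons t l ih =>
    have ht := okL_mem hl List.mem_cons_self
    have hl2 : okL l = true := by
      unfold okL at hl ⊢
      rw [List.all_cons, Bool.and_eq_true] at hl
      exact hl.2
    obtain ⟨h1, q1⟩ := inner_ev (z := z) h0 hu ht.1 ht.2 (c * t.1) l' hl' h
    obtain ⟨tab', e, h2, q2⟩ := ih hl2 h1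
    refine ⟨tab', ?_, h2, ?_⟩
    · unfold outer
      rw [frT_eq]
      exact e
    · rw [q2, q1, add_assoc, ← Complex.add_re]
      congr 2
      rw [BRG.ev_cons]
      push_cast
      ring

include h0 hu in
theorem goT_ev (T : BRG.Tf) (hT : okT T = true) {tab : List (List H9)} (h : Shp tab) :
    qH z (goT T tab) (yv u) = qH z tab (yv u) + (BRG.e2 z u T).re := by
  induction T generalizing tab with
  | nil => simp [goT]
  | cons t T ih =>
    unfold okT at hT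
    rw [List.all_cons, Bool.and_eq_true, Bool.and_eq_true] at hT
    obtain ⟨tab', e, h2, q2⟩ := outer_ev (z := z) h0 hu t.1 t.2.2 hT.1.2 t.2.1 hT.1.1 h (fun tab' => goT T tab')
    unfold goT
    rw [e, ih hT.2 h2, q2, BRG.e2_cons, Complex.add_re, add_assoc]

theorem shp_tab0 : Shp tab0 := rfl

theorem qH_tab0 (y : ℕ → ℝ) : qH z tab0 y = 0 := by
  unfold qH
  refine Finset.sum_eq_zero fun k hk => Finset.sum_eq_zero fun j hj => ?_
  have : getH tab0 k j = H9.zero := by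
    have hk := Finset.mem_range.1 hk
    have hj := Finset.mem_range.1 hj
    interval_cases k <;> simp only [Nat.reduceSub] at hj <;> interval_cases j <;> rfl
  rw [this, H9.ev_zero, zero_mul]

include h0 hu in
/-- **the expansion of the rank one terms** -/
theorem tT_ev {T : BRG.Tf} (h : okT T = true) : (BRG.e2 z u T).re = qH z (tT T) (yv u) := by
  unfold tT
  rw [goT_ev h0 hu T h shp_tab0, qH_tab0, zero_add]

end exp

/-! ### the expansion of `Qf` -/

/-- index of the real part of `Z_n`, and the sign of the imaginary part -/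
def mdz : ℤ → ℕ × Sg
  | Int.ofNat 0 => (0, .z)
  | Int.ofNat (k + 1) => (k, .p)
  | Int.negSucc k => (k, .n)

/-- modes `0, ±2, …, ±8` -/
def okz (n : ℤ) : Bool := n.natAbs % 2 == 0 && Nat.ble n.natAbs 8

theorem okz_cases {n : ℤ} (h : okz n = true) :
    n = 0 ∨ n = 2 ∨ n = -2 ∨ n = 4 ∨ n = -4 ∨ n = 6 ∨ n = -6 ∨ n = 8 ∨ n = -8 := by
  simp only [okz, beq_iff_eq, Bool.and_eq_true, Nat.ble_eq] at h
  omega

theorem mdz_lt {n : ℤ} (h : okz n = true) : (mdz n).1 < 8 := by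
  rcases okz_cases h with h | h | h | h | h | h | h | h | h <;> rw [h] <;> decide

theorem zm {Z : ℤ → ℂ} (hZ : ∀ n, Z (-n) = conj (Z n)) {n : ℤ} (h : okz n = true) :
    Z n = (Zv Z (mdz n).1 : ℂ) + ((mdz n).2.r : ℂ) * (Zv Z ((mdz n).1 + 1) : ℂ) * I := by
  have key : ∀ m : ℤ, Z m = ((Z m).re : ℂ) + (1 : ℝ) * ((Z m).im : ℂ) * I := fun m => by
    rw [Complex.ofReal_one, one_mul]
    exact (Complex.re_add_im _).symm
  have key2 : ∀ m : ℤ, Z (-m) = ((Z m).re : ℂ) + (-1 : ℝ) * ((Z m).im : ℂ) * I := fun m => by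
    rw [hZ]
    apply Complex.ext <;> simp
  rcases okz_cases h with h | h | h | h | h | h | h | h | h <;> rw [h]
  · have h1 := hZ 0
    rw [neg_zero] at h1
    have h2 : (Z 0).im = 0 := Complex.conj_eq_iff_im.1 h1.symm
    apply Complex.ext
    · simp [mdz, Zv, Sg.r]
    · simp [mdz, Sg.r, h2]
  · exact key 2
  · exact key2 2
  · exact key 4
  · exact key2 4
  · exact key 6
  · exact key2 6
  · exact key 8
  · exact key2 8

def mqI (a b k : ℕ) (s : Sg) (w : ℚ) (r : List H9) : List H9 :=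
  match s with
  | .z => r
  | s => mdf (H9.addI a b (-(s.app w))) r (k + 1)

/-- adds the term `w z_a conj z_b Z_n` -/
def mq (a b : ℕ) (n : ℤ) (w : ℚ) (r : List H9) : List H9 :=
  match mdz n with
  | (k, s) => mqI a b k s w (mdf (H9.addR a b w) r k)

def goQ : BRG.Qf → List H9 → List H9
  | [], r => r
  | t :: Q, r => frR (mq t.2.1 t.2.2.1 t.2.2.2 t.1 r) fun r' => goQ Q r'

/-- **the list of the terms with `x²`** -/
def tQ (Q : BRG.Qf) : List H9 := goQ Q (List.replicate 9 H9.zero)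

/-- components `< 3`, modes `0, ±2, …, ±8` -/
def okQ (Q : BRG.Qf) : Bool := Q.all fun t => Nat.blt t.2.1 3 && (Nat.blt t.2.2.1 3 && okz t.2.2.2)

/-- the linear form in the `Zv` -/
def lH (z : ℕ → ℂ) (r : List H9) (Y : ℕ → ℝ) : ℝ := ∑ k ∈ Finset.range 9, (r.getD k H9.zero).ev z * Y k

theorem lH_mdf {z : ℕ → ℂ} {r : List H9} (h : r.length = 9) {f : H9 → H9} {v : ℝ}
    (hf : ∀ x, (f x).ev z = x.ev z + v) {k0 : ℕ} (hk : k0 < 9) (Y : ℕ → ℝ) :
    lH z (mdf f r k0) Y = lH z r Y + v * Y k0 := by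
  have e : ∀ k, ((mdf f r k0).getD k H9.zero).ev z * Y k =
      (r.getD k H9.zero).ev z * Y k + if k = k0 then v * Y k else 0 := by
    intro k
    rw [mdf_getD _ _ _ _ (by rw [h]; exact hk)]
    by_cases e1 : k = k0
    · rw [if_pos e1, if_pos e1, hf]
      ring
    · rw [if_neg e1, if_neg e1, add_zero]
  unfold lH
  simp only [e, Finset.sum_add_distrib]
  rw [Finset.sum_ite_eq' (Finset.range 9) k0, if_pos (Finset.mem_range.2 hk)]

theorem mqI_ev {z : ℕ → ℂ} {a b k : ℕ} (ha : a < 3) (hb : b < 3) (hk : k < 8) (s : Sg) (w : ℚ) {r : List H9}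
    (h : r.length = 9) (Y : ℕ → ℝ) : (mqI a b k s w r).length = 9 ∧
    lH z (mqI a b k s w r) Y = lH z r Y - w * (z a * conj (z b)).im * (s.r * Y (k + 1)) := by
  have key : ∀ s : Sg, lH z (mdf (H9.addI a b (-(s.app w))) r (k + 1)) Y =
      lH z r Y - w * (z a * conj (z b)).im * (s.r * Y (k + 1)) := by
    intro s
    rw [lH_mdf h (fun x => H9.addI_ev ha hb _ x) (by omega), Rat.cast_neg, Sg.app_cast]
    ring
  cases s
  case z => exact ⟨h, by simp [mqI, Sg.r]⟩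
  case p => exact ⟨by rw [← h]; exact mdf_length _ _ _, key .p⟩
  case n => exact ⟨by rw [← h]; exact mdf_length _ _ _, key .n⟩

theorem mq_ev {z : ℕ → ℂ} {Z : ℤ → ℂ} (hZ : ∀ n, Z (-n) = conj (Z n)) {a b : ℕ} {n : ℤ} (ha : a < 3) (hb : b < 3)
    (hn : okz n = true) (w : ℚ) {r : List H9} (h : r.length = 9) : (mq a b n w r).length = 9 ∧
    lH z (mq a b n w r) (Zv Z) = lH z r (Zv Z) + ((w : ℂ) * (z a * conj (z b) * Z n)).re := by
  have hk := mdz_lt hn
  have en := zm hZ hn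
  unfold mq
  rcases hd : mdz n with ⟨k, s⟩
  rw [hd] at hk en
  simp only at hk en ⊢
  have h1 : (mdf (H9.addR a b w) r k).length = 9 := by rw [mdf_length]; exact h
  have q1 := lH_mdf (z := z) h (fun x => H9.addR_ev ha hb w x) (show k < 9 by omega) (Zv Z)
  obtain ⟨h2, q2⟩ := mqI_ev (z := z) ha hb hk s w h1 (Zv Z)
  refine ⟨h2, ?_⟩
  rw [q2, q1]
  have q0 : ∀ q : ℚ, ((q : ℂ)).re = (q : ℝ) := fun q => Complex.ratCast_re q
  have q1 : ∀ q : ℚ, ((q : ℂ)).im = 0 := fun q => Complex.ratCast_im q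
  rw [en]
  simp only [Complex.mul_re, Complex.mul_im, Complex.add_re, Complex.add_im, Complex.I_re,
    Complex.I_im, Complex.conj_re, Complex.conj_im, Complex.ofReal_re, Complex.ofReal_im, q0, q1]
  ring

theorem goQ_ev {z : ℕ → ℂ} {Z : ℤ → ℂ} (hZ : ∀ n, Z (-n) = conj (Z n)) (Q : BRG.Qf) (hQ : okQ Q = true)
    {r : List H9} (h : r.length = 9) : lH z (goQ Q r) (Zv Z) = lH z r (Zv Z) + (BRG.eq2 z Z Q).re := by
  induction Q generalizing r with
  | nil => simp [goQ]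
  | cons t Q ih =>
    unfold okQ at hQ
    rw [List.all_cons, Bool.and_eq_true, Bool.and_eq_true, Bool.and_eq_true] at hQ
    obtain ⟨h2, q2⟩ := mq_ev (z := z) hZ (Nat.le_of_ble_eq_true hQ.1.1) (Nat.le_of_ble_eq_true hQ.1.2.1) hQ.1.2.2
      t.1 h
    unfold goQ
    rw [frR_eq, ih hQ.2 h2, q2, BRG.eq2_cons, Complex.add_re, add_assoc]

/-- **the expansion of the terms with `x²`** -/
theorem tQ_ev {z : ℕ → ℂ} {Z : ℤ → ℂ} (hZ : ∀ n, Z (-n) = conj (Z n)) {Q : BRG.Qf} (h : okQ Q = true) :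
    (BRG.eq2 z Z Q).re = ∑ k ∈ Finset.range 9, ((tQ Q).getD k H9.zero).ev z * Zv Z k := by
  have h1 := goQ_ev (z := z) hZ Q h (r := List.replicate 9 H9.zero) rfl
  have h2 : lH z (List.replicate 9 H9.zero) (Zv Z) = 0 := by
    unfold lH
    refine Finset.sum_eq_zero fun k hk => ?_
    have hk := Finset.mem_range.1 hk
    have : (List.replicate 9 H9.zero).getD k H9.zero = H9.zero := by
      interval_cases k <;> rfl
    rw [this, H9.ev_zero, zero_mul]
  rw [h2, zero_add] at h1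
  exact h1.symm

/-! ### bounds, comparison -/

namespace H9

/-- a diagonal majorant of `± h` -/
def gersh (h : H9) : H9 :=
  ⟨|h.a| + (|h.r12| + |h.i12|) + (|h.r13| + |h.i13|), |h.b| + (|h.r12| + |h.i12|) + (|h.r23| + |h.i23|),
    |h.c| + (|h.r13| + |h.i13|) + (|h.r23| + |h.i23|), 0, 0, 0, 0, 0, 0⟩

theorem off_le (r i x y x' y' : ℝ) : |2 * (r * (x * x' + y * y') - i * (x * y' - y * x'))| ≤
    (|r| + |i|) * (x ^ 2 + y ^ 2) + (|r| + |i|) * (x' ^ 2 + y' ^ 2) := by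
  have h1 : |2 * (x * x' + y * y')| ≤ (x ^ 2 + y ^ 2) + (x' ^ 2 + y' ^ 2) := by
    rw [abs_le]
    constructor <;> nlinarith [sq_nonneg (x - x'), sq_nonneg (y - y'), sq_nonneg (x + x'), sq_nonneg (y + y')]
  have h2 : |2 * (x * y' - y * x')| ≤ (x ^ 2 + y ^ 2) + (x' ^ 2 + y' ^ 2) := by
    rw [abs_le]
    constructor <;> nlinarith [sq_nonneg (x - y'), sq_nonneg (y - x'), sq_nonneg (x + y'), sq_nonneg (y + x')]
  have e : 2 * (r * (x * x' + y * y') - i * (x * y' - y * x')) =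
      r * (2 * (x * x' + y * y')) - i * (2 * (x * y' - y * x')) := by ring
  rw [e]
  calc |r * (2 * (x * x' + y * y')) - i * (2 * (x * y' - y * x'))|
      ≤ |r * (2 * (x * x' + y * y'))| + |i * (2 * (x * y' - y * x'))| := abs_sub _ _
    _ = |r| * |2 * (x * x' + y * y')| + |i| * |2 * (x * y' - y * x')| := by
        rw [abs_mul r, abs_mul i]
    _ ≤ |r| * ((x ^ 2 + y ^ 2) + (x' ^ 2 + y' ^ 2)) + |i| * ((x ^ 2 + y ^ 2) + (x' ^ 2 + y' ^ 2)) :=
        add_le_add (mul_le_mul_of_nonneg_left h1 (abs_nonneg _)) (mul_le_mul_of_nonneg_left h2 (abs_nonneg _))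
    _ = _ := by ring

theorem abs_ev_le (h : H9) (z : ℕ → ℂ) : |h.ev z| ≤ (gersh h).ev z := by
  rw [ev_eq, ev_eq]
  have d : ∀ (q : ℚ) (w : ℂ), |(q : ℝ) * (w.re ^ 2 + w.im ^ 2)| ≤ |(q : ℝ)| * (w.re ^ 2 + w.im ^ 2) := fun q w => by
    rw [abs_mul, abs_of_nonneg (by positivity : (0 : ℝ) ≤ w.re ^ 2 + w.im ^ 2)]
  have d0 := d h.a (z 0)
  have d1 := d h.b (z 1)
  have d2 := d h.c (z 2)
  have o1 := off_le h.r12 h.i12 (z 0).re (z 0).im (z 1).re (z 1).im
  have o2 := off_le h.r13 h.i13 (z 0).re (z 0).im (z 2).re (z 2).im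
  have o3 := off_le h.r23 h.i23 (z 1).re (z 1).im (z 2).re (z 2).im
  simp only [gersh]
  push_cast
  rw [abs_le] at d0 d1 d2 o1 o2 o3 ⊢
  constructor <;> nlinarith [d0.1, d0.2, d1.1, d1.2, d2.1, d2.2, o1.1, o1.2, o2.1, o2.2, o3.1, o3.2]

theorem le_gersh (h : H9) (z : ℕ → ℂ) : h.ev z ≤ (gersh h).ev z := (le_abs_self _).trans (abs_ev_le h z)

theorem neg_le_gersh (h : H9) (z : ℕ → ℂ) : -h.ev z ≤ (gersh h).ev z := (neg_le_abs _).trans (abs_ev_le h z)

/-- `|h.ev z| ≤ absB h (‖z 0‖² + ‖z 1‖² + ‖z 2‖²)` -/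
def absB (h : H9) : ℚ := max (gersh h).a (max (gersh h).b (gersh h).c)

theorem diag_le {h : H9} {t : ℚ} (h1 : h.a ≤ t) (h2 : h.b ≤ t) (h3 : h.c ≤ t) (h12 : h.r12 = 0) (k12 : h.i12 = 0)
    (h13 : h.r13 = 0) (k13 : h.i13 = 0) (h23 : h.r23 = 0) (k23 : h.i23 = 0) (z : ℕ → ℂ) :
    h.ev z ≤ t * (‖z 0‖ ^ 2 + ‖z 1‖ ^ 2 + ‖z 2‖ ^ 2) := by
  unfold ev
  rw [h12, k12, h13, k13, h23, k23]
  simp only [Rat.cast_zero, zero_mul, add_zero, Complex.zero_re, mul_zero]
  have g1 : (h.a : ℝ) ≤ t := by exact_mod_cast h1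
  have g2 : (h.b : ℝ) ≤ t := by exact_mod_cast h2
  have g3 : (h.c : ℝ) ≤ t := by exact_mod_cast h3
  have := mul_le_mul_of_nonneg_right g1 (by positivity : 0 ≤ ‖z 0‖ ^ 2)
  have := mul_le_mul_of_nonneg_right g2 (by positivity : 0 ≤ ‖z 1‖ ^ 2)
  have := mul_le_mul_of_nonneg_right g3 (by positivity : 0 ≤ ‖z 2‖ ^ 2)
  linarith

theorem absB_ev (h : H9) (z : ℕ → ℂ) : |h.ev z| ≤ absB h * (‖z 0‖ ^ 2 + ‖z 1‖ ^ 2 + ‖z 2‖ ^ 2) :=
  (abs_ev_le h z).trans (diag_le (le_max_left _ _) ((le_max_left _ _).trans (le_max_right _ _))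
    ((le_max_right _ _).trans (le_max_right _ _)) rfl rfl rfl rfl rfl rfl z)

end H9

def cl (x y t : ℚ) : Bool := decide (x - y ≤ t) && decide (y - x ≤ t)

theorem cl_abs {x y t : ℚ} (h : cl x y t = true) : |x - y| ≤ t := by
  simp only [cl, Bool.and_eq_true, decide_eq_true_eq] at h
  exact abs_le.2 ⟨by linarith [h.2], h.1⟩

/-- all entries differ by at most `t` -/
def near (h k : H9) (t : ℚ) : Bool :=
  cl h.a k.a t && (cl h.b k.b t && (cl h.c k.c t && (cl h.r12 k.r12 t && (cl h.i12 k.i12 t &&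
    (cl h.r13 k.r13 t && (cl h.i13 k.i13 t && (cl h.r23 k.r23 t && cl h.i23 k.i23 t)))))))

theorem diff_ev {h k : H9} {t : ℚ} (c1 : |h.a - k.a| ≤ t) (c2 : |h.b - k.b| ≤ t) (c3 : |h.c - k.c| ≤ t)
    (c4 : |h.r12 - k.r12| ≤ t) (c5 : |h.i12 - k.i12| ≤ t) (c6 : |h.r13 - k.r13| ≤ t) (c7 : |h.i13 - k.i13| ≤ t)
    (c8 : |h.r23 - k.r23| ≤ t) (c9 : |h.i23 - k.i23| ≤ t) (z : ℕ → ℂ) :
    |h.ev z - k.ev z| ≤ 5 * t * (‖z 0‖ ^ 2 + ‖z 1‖ ^ 2 + ‖z 2‖ ^ 2) := by
  have e : h.ev z - k.ev z = (h.add (k.sm (-1))).ev z := by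
    rw [H9.ev_add, H9.ev_sm]
    push_cast
    ring
  rw [e]
  refine (H9.abs_ev_le _ z).trans ?_
  have hh : (5 : ℝ) * t = ((5 * t : ℚ) : ℝ) := by push_cast; ring
  rw [hh]
  have s : ∀ x y : ℚ, x + -1 * y = x - y := fun x y => by ring
  refine H9.diag_le ?_ ?_ ?_ rfl rfl rfl rfl rfl rfl z <;> simp only [H9.gersh, H9.add, H9.sm, s] <;> linarith

theorem near_ev {h k : H9} {t : ℚ} (hn : near h k t = true) (z : ℕ → ℂ) :
    |h.ev z - k.ev z| ≤ 5 * t * (‖z 0‖ ^ 2 + ‖z 1‖ ^ 2 + ‖z 2‖ ^ 2) := by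
  simp only [near, Bool.and_eq_true] at hn
  obtain ⟨c1, c2, c3, c4, c5, c6, c7, c8, c9⟩ := hn
  exact diff_ev (cl_abs c1) (cl_abs c2) (cl_abs c3) (cl_abs c4) (cl_abs c5) (cl_abs c6) (cl_abs c7) (cl_abs c8)
    (cl_abs c9) z

/-! ### comparison with integers -/

/-- `|S x - c| ≤ 1` -/
def nz (x : ℚ) (c : ℤ) (S : ℕ) : Bool := Nat.ble (Int.natAbs ((S : ℤ) * x.num - c * (x.den : ℤ))) x.den

theorem nz_abs {x : ℚ} {c : ℤ} {S : ℕ} (h : nz x c S = true) : |(S : ℚ) * x - c| ≤ 1 := by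
  have h1 : Int.natAbs ((S : ℤ) * x.num - c * (x.den : ℤ)) ≤ x.den := Nat.le_of_ble_eq_true h
  have h2 : |(S : ℤ) * x.num - c * (x.den : ℤ)| ≤ (x.den : ℤ) := by
    rw [Int.abs_eq_natAbs]
    exact_mod_cast h1
  have h3 : |((S : ℚ) * x.num - c * (x.den : ℚ))| ≤ (x.den : ℚ) := by exact_mod_cast h2
  have hd : (0 : ℚ) < x.den := by exact_mod_cast x.pos
  have e : (S : ℚ) * x - c = ((S : ℚ) * x.num - c * (x.den : ℚ)) / x.den := by
    rw [eq_div_iff hd.ne']
    have : x * x.den = x.num := Rat.mul_den_eq_num x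
    linear_combination (S : ℚ) * this
  rw [e, abs_div, abs_of_pos hd, div_le_one hd]
  exact h3

/-- all nine entries of `S h` within `1` of the integers `c` -/
def nearZ (h : H9) (c : List ℤ) (S : ℕ) : Bool :=
  match c with
  | [c0, c1, c2, c3, c4, c5, c6, c7, c8] =>
    nz h.a c0 S && (nz h.b c1 S && (nz h.c c2 S && (nz h.r12 c3 S && (nz h.i12 c4 S &&
      (nz h.r13 c5 S && (nz h.i13 c6 S && (nz h.r23 c7 S && nz h.i23 c8 S)))))))
  | _ => false

theorem iz_w3 (z : ℕ → ℂ) (c0 c1 c2 c3 c4 c5 c6 c7 c8 : ℤ) :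
    PLK.iz (PLK.w3 (z 0) (z 1) (z 2)) [c0, c1, c2, c3, c4, c5, c6, c7, c8] =
      (⟨c0, c1, c2, c3, c4, c5, c6, c7, c8⟩ : H9).ev z := by
  rw [H9.ev_eq]
  simp only [PLK.iz, PLK.w3, Complex.normSq_apply, Complex.mul_re, Complex.mul_im, Complex.conj_re, Complex.conj_im]
  push_cast
  ring

theorem nearZ_ev {h : H9} {c : List ℤ} {S : ℕ} (hn : nearZ h c S = true) (z : ℕ → ℂ) :
    |S * h.ev z - PLK.iz (PLK.w3 (z 0) (z 1) (z 2)) c| ≤ 5 * (‖z 0‖ ^ 2 + ‖z 1‖ ^ 2 + ‖z 2‖ ^ 2) := by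
  unfold nearZ at hn
  split at hn
  next c0 c1 c2 c3 c4 c5 c6 c7 c8 =>
    simp only [Bool.and_eq_true] at hn
    obtain ⟨k1, k2, k3, k4, k5, k6, k7, k8, k9⟩ := hn
    have := diff_ev (h := h.sm S) (k := ⟨c0, c1, c2, c3, c4, c5, c6, c7, c8⟩) (t := 1) (nz_abs k1) (nz_abs k2)
      (nz_abs k3) (nz_abs k4) (nz_abs k5) (nz_abs k6) (nz_abs k7) (nz_abs k8) (nz_abs k9) z
    rw [iz_w3]
    rw [H9.ev_sm] at this
    simpa using this
  next => exact absurd hn (by simp)

/-- **one Boolean for both lists**: the tables are well formed and within `1` of the integers -/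
def chkTQ (T : BRG.Tf) (Q : BRG.Qf) (ct : List (List (List ℤ))) (cq : List (List ℤ)) (S : ℕ) : Bool :=
  okT T && (okQ Q && (allZ2 (tT T) ct S && allZ (tQ Q) cq S))
where
  allZ : List H9 → List (List ℤ) → ℕ → Bool
    | [], [], _ => true
    | h :: r, c :: l, S => nearZ h c S && allZ r l S
    | _, _, _ => false
  allZ2 : List (List H9) → List (List (List ℤ)) → ℕ → Bool
    | [], [], _ => true
    | h :: r, c :: l, S => allZ h c S && allZ2 r l S
    | _, _, _ => false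

theorem allZ_get : ∀ {r : List H9} {l : List (List ℤ)} {S : ℕ}, chkTQ.allZ r l S = true →
    ∀ k, k < r.length → nearZ (r.getD k H9.zero) (l.getD k []) S = true
  | [], _, _, _, _, hk => by simp at hk
  | _ :: _, [], _, h, _, _ => by simp [chkTQ.allZ] at h
  | a :: r, c :: l, S, h, k, hk => by
    simp only [chkTQ.allZ, Bool.and_eq_true] at h
    rcases k with _ | k
    · simpa using h.1
    · simpa using allZ_get h.2 k (by simpa using hk)

theorem allZ2_get : ∀ {r : List (List H9)} {l : List (List (List ℤ))} {S : ℕ}, chkTQ.allZ2 r l S = true →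
    ∀ k, k < r.length → chkTQ.allZ (r.getD k []) (l.getD k []) S = true
  | [], _, _, _, _, hk => by simp at hk
  | _ :: _, [], _, h, _, _ => by simp [chkTQ.allZ2] at h
  | a :: r, c :: l, S, h, k, hk => by
    simp only [chkTQ.allZ2, Bool.and_eq_true] at h
    rcases k with _ | k
    · simpa using h.1
    · simpa using allZ2_get h.2 k (by simpa using hk)

theorem shp_inner (a : ℕ) (n : ℤ) (cq : ℚ) : ∀ (l : BRG.Lf) {tab : List (List H9)}, Shp tab → Shp (inner a n cq l tab)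
  | [], _, h => h
  | t :: l, tab, h => by
    unfold inner
    refine shp_inner a n cq l ?_
    unfold ms
    rcases md n with ⟨k, s⟩
    rcases md t.2.2 with ⟨m, s'⟩
    have h1 : Shp (up k m (H9.addR a t.2.1 (cq * t.1)) tab) := h.up _ _ _
    have h2 : Shp (e2R a t.2.1 k m s s' (cq * t.1) (up k m (H9.addR a t.2.1 (cq * t.1)) tab)) := by
      cases s <;> cases s' <;> first | exact h1 | exact h1.up _ _ _
    simp only
    split
    · exact h2
    · have h3 : Shp (e3I a t.2.1 k m s (cq * t.1) (e2R a t.2.1 k m s s' (cq * t.1)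
          (up k m (H9.addR a t.2.1 (cq * t.1)) tab))) := by
        cases s
        · exact h2
        · exact h2.up _ _ _
        · exact h2.up _ _ _
      cases s'
      · exact h3
      · exact h3.up _ _ _
      · exact h3.up _ _ _

theorem shp_outer (c : ℚ) (l' : BRG.Lf) (k : List (List H9) → List (List H9))
    (hk : ∀ tab, Shp tab → Shp (k tab)) : ∀ (l : BRG.Lf) {tab : List (List H9)}, Shp tab → Shp (outer c l' l tab k)
  | [], _, h => hk _ h
  | t :: l, tab, h => by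
    unfold outer
    rw [frT_eq]
    exact shp_outer c l' k hk l (shp_inner _ _ _ _ h)

theorem shp_goT : ∀ (T : BRG.Tf) {tab : List (List H9)}, Shp tab → Shp (goT T tab)
  | [], _, h => h
  | t :: T, tab, h => by
    unfold goT
    exact shp_outer _ _ _ (fun _ h => shp_goT T h) _ h

theorem shp_tT (T : BRG.Tf) : Shp (tT T) := shp_goT T shp_tab0

theorem len_goQ : ∀ (Q : BRG.Qf) {r : List H9}, r.length = 9 → (goQ Q r).length = 9
  | [], _, h => h
  | t :: Q, r, h => by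
    unfold goQ
    rw [frR_eq]
    refine len_goQ Q ?_
    unfold mq
    rcases mdz t.2.2.2 with ⟨k, s⟩
    cases s <;> simp only [mqI, mdf_length] <;> exact h

theorem len_tQ (Q : BRG.Qf) : (tQ Q).length = 9 := len_goQ Q rfl

theorem chkTQ_okT {T : BRG.Tf} {Q : BRG.Qf} {ct : List (List (List ℤ))} {cq : List (List ℤ)} {S : ℕ}
    (h : chkTQ T Q ct cq S = true) : okT T = true := by
  unfold chkTQ at h
  rw [Bool.and_eq_true] at h
  exact h.1

theorem chkTQ_okQ {T : BRG.Tf} {Q : BRG.Qf} {ct : List (List (List ℤ))} {cq : List (List ℤ)} {S : ℕ}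
    (h : chkTQ T Q ct cq S = true) : okQ Q = true := by
  unfold chkTQ at h
  rw [Bool.and_eq_true, Bool.and_eq_true] at h
  exact h.2.1

theorem chkTQ_T {T : BRG.Tf} {Q : BRG.Qf} {ct : List (List (List ℤ))} {cq : List (List ℤ)} {S : ℕ}
    (h : chkTQ T Q ct cq S = true) {k j : ℕ} (hk : k < 9) (hj : j < 9 - k) :
    nearZ (getH (tT T) k j) ((ct.getD k []).getD j []) S = true := by
  unfold chkTQ at h
  rw [Bool.and_eq_true, Bool.and_eq_true, Bool.and_eq_true] at h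
  have s := shp_tT T
  have h1 := allZ2_get h.2.2.1 k (by rw [s.len]; exact hk)
  exact allZ_get h1 j (by rw [s.row hk]; exact hj)

theorem chkTQ_Q {T : BRG.Tf} {Q : BRG.Qf} {ct : List (List (List ℤ))} {cq : List (List ℤ)} {S : ℕ}
    (h : chkTQ T Q ct cq S = true) {k : ℕ} (hk : k < 9) :
    nearZ ((tQ Q).getD k H9.zero) (cq.getD k []) S = true := by
  unfold chkTQ at h
  rw [Bool.and_eq_true, Bool.and_eq_true, Bool.and_eq_true] at h
  exact allZ_get h.2.2.2 k (by rw [len_tQ]; exact hk)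

/-- **value of the form of the two lists from integer tables** -/
theorem chkTQ_ev {z : ℕ → ℂ} {u Z : ℤ → ℂ} (h0 : u 0 = 1) (hu : ∀ n, u (-n) = conj (u n))
    (hZ : ∀ n, Z (-n) = conj (Z n)) {T : BRG.Tf} {Q : BRG.Qf} {ct : List (List (List ℤ))} {cq : List (List ℤ)} {S : ℕ}
    (h : chkTQ T Q ct cq S = true) :
    |S * (BRG.e2 z u T + BRG.eq2 z Z Q).re
      - ((∑ k ∈ Finset.range 9, ∑ j ∈ Finset.range (9 - k),
          PLK.iz (PLK.w3 (z 0) (z 1) (z 2)) ((ct.getD k []).getD j []) * (yv u k * yv u (k + j)))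
        + ∑ k ∈ Finset.range 9, PLK.iz (PLK.w3 (z 0) (z 1) (z 2)) (cq.getD k []) * Zv Z k)| ≤
      5 * (‖z 0‖ ^ 2 + ‖z 1‖ ^ 2 + ‖z 2‖ ^ 2) *
        ((∑ k ∈ Finset.range 9, ∑ j ∈ Finset.range (9 - k), |yv u k * yv u (k + j)|)
          + ∑ k ∈ Finset.range 9, |Zv Z k|) := by
  have e1 := tT_ev (z := z) h0 hu (chkTQ_okT h)
  have e2 := tQ_ev (z := z) hZ (chkTQ_okQ h)
  set D := 5 * (‖z 0‖ ^ 2 + ‖z 1‖ ^ 2 + ‖z 2‖ ^ 2) with hD
  rw [Complex.add_re, e1, e2]
  unfold qH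
  have e : (S : ℝ) * ((∑ k ∈ Finset.range 9, ∑ j ∈ Finset.range (9 - k),
        (getH (tT T) k j).ev z * (yv u k * yv u (k + j)))
      + ∑ k ∈ Finset.range 9, ((tQ Q).getD k H9.zero).ev z * Zv Z k)
      - ((∑ k ∈ Finset.range 9, ∑ j ∈ Finset.range (9 - k),
          PLK.iz (PLK.w3 (z 0) (z 1) (z 2)) ((ct.getD k []).getD j []) * (yv u k * yv u (k + j)))
        + ∑ k ∈ Finset.range 9, PLK.iz (PLK.w3 (z 0) (z 1) (z 2)) (cq.getD k []) * Zv Z k) =
      (∑ k ∈ Finset.range 9, ∑ j ∈ Finset.range (9 - k),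
        (S * (getH (tT T) k j).ev z - PLK.iz (PLK.w3 (z 0) (z 1) (z 2)) ((ct.getD k []).getD j []))
          * (yv u k * yv u (k + j)))
      + ∑ k ∈ Finset.range 9, (S * ((tQ Q).getD k H9.zero).ev z
          - PLK.iz (PLK.w3 (z 0) (z 1) (z 2)) (cq.getD k [])) * Zv Z k := by
    simp only [sub_mul, Finset.sum_sub_distrib, mul_add, Finset.mul_sum, mul_assoc]
    ring
  rw [e]
  refine (abs_add_le _ _).trans ?_
  rw [mul_add]
  refine add_le_add ?_ ?_
  · rw [Finset.mul_sum]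
    refine (Finset.abs_sum_le_sum_abs _ _).trans (Finset.sum_le_sum fun k hk => ?_)
    rw [Finset.mul_sum]
    refine (Finset.abs_sum_le_sum_abs _ _).trans (Finset.sum_le_sum fun j hj => ?_)
    rw [abs_mul]
    exact mul_le_mul_of_nonneg_right (nearZ_ev (chkTQ_T h (Finset.mem_range.1 hk) (Finset.mem_range.1 hj)) z)
      (abs_nonneg _)
  · rw [Finset.mul_sum]
    refine (Finset.abs_sum_le_sum_abs _ _).trans (Finset.sum_le_sum fun k hk => ?_)
    rw [abs_mul]
    exact mul_le_mul_of_nonneg_right (nearZ_ev (chkTQ_Q h (Finset.mem_range.1 hk)) z) (abs_nonneg _)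

/-! ### positivity -/

/-- `2 × 2`: `b |z|² + c |w|² + 2 Re ((r + i I) conj z w) ≥ 0` -/
def psd2 (b c r i : ℚ) : Bool := decide (0 ≤ b) && (decide (0 ≤ c) && decide (r * r + i * i ≤ b * c))

theorem psd2_ev {b c r i : ℚ} (h : psd2 b c r i = true) (x y x' y' : ℝ) :
    0 ≤ b * (x ^ 2 + y ^ 2) + c * (x' ^ 2 + y' ^ 2) + 2 * (r * (x * x' + y * y') - i * (x * y' - y * x')) := by
  simp only [psd2, Bool.and_eq_true, decide_eq_true_eq] at h
  obtain ⟨hb, hc, hd⟩ := h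
  have hb : (0 : ℝ) ≤ b := by exact_mod_cast hb
  have hc : (0 : ℝ) ≤ c := by exact_mod_cast hc
  have hd : (r : ℝ) * r + i * i ≤ b * c := by exact_mod_cast hd
  set S := (b : ℝ) * (x ^ 2 + y ^ 2) + c * (x' ^ 2 + y' ^ 2) with hS
  set T := (r : ℝ) * (x * x' + y * y') - i * (x * y' - y * x') with hT
  have hS0 : 0 ≤ S := by positivity
  have h1 : (2 * T) ^ 2 ≤ S ^ 2 := by
    have e1 : T ^ 2 + ((r : ℝ) * (x * y' - y * x') + i * (x * x' + y * y')) ^ 2 =
        (r * r + i * i) * ((x ^ 2 + y ^ 2) * (x' ^ 2 + y' ^ 2)) := by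
      rw [hT]
      ring
    have e2 : (r * r + i * i) * ((x ^ 2 + y ^ 2) * (x' ^ 2 + y' ^ 2)) ≤
        (b * c : ℝ) * ((x ^ 2 + y ^ 2) * (x' ^ 2 + y' ^ 2)) := mul_le_mul_of_nonneg_right hd (by positivity)
    have e3 : S ^ 2 - 4 * ((b * c : ℝ) * ((x ^ 2 + y ^ 2) * (x' ^ 2 + y' ^ 2))) =
        (b * (x ^ 2 + y ^ 2) - c * (x' ^ 2 + y' ^ 2)) ^ 2 := by
      rw [hS]
      ring
    nlinarith [sq_nonneg ((b : ℝ) * (x ^ 2 + y ^ 2) - c * (x' ^ 2 + y' ^ 2)),
      sq_nonneg ((r : ℝ) * (x * y' - y * x') + i * (x * x' + y * y'))]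
  have h2 := abs_le_of_sq_le_sq h1 hS0
  linarith [(abs_le.1 h2).1]

/-- positivity of a Hermitian form: elimination of `z 0`, then `2 × 2` -/
def psd9 (h : H9) : Bool :=
  (decide (0 < h.a) && psd2 (h.a * h.b - (h.r12 * h.r12 + h.i12 * h.i12)) (h.a * h.c - (h.r13 * h.r13 + h.i13 * h.i13))
    (h.a * h.r23 - (h.r12 * h.r13 + h.i12 * h.i13)) (h.a * h.i23 - (h.r12 * h.i13 - h.i12 * h.r13))) ||
  (decide (h.a = 0) && (decide (h.r12 = 0) && (decide (h.i12 = 0) && (decide (h.r13 = 0) && (decide (h.i13 = 0) &&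
    psd2 h.b h.c h.r23 h.i23)))))

theorem psd9_ev {h : H9} (hp : psd9 h = true) (z : ℕ → ℂ) : 0 ≤ h.ev z := by
  rw [H9.ev_eq]
  simp only [psd9, Bool.or_eq_true, Bool.and_eq_true, decide_eq_true_eq] at hp
  rcases hp with ⟨ha, hq⟩ | ⟨h1, h2, h3, h4, h5, hq⟩
  · have ha : (0 : ℝ) < h.a := by exact_mod_cast ha
    have q := psd2_ev hq (z 1).re (z 1).im (z 2).re (z 2).im
    push_cast at q
    refine nonneg_of_mul_nonneg_right (a := (h.a : ℝ)) ?_ ha
    have e : (h.a : ℝ) * (h.a * ((z 0).re ^ 2 + (z 0).im ^ 2) + h.b * ((z 1).re ^ 2 + (z 1).im ^ 2)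
      + h.c * ((z 2).re ^ 2 + (z 2).im ^ 2)
      + 2 * (h.r12 * ((z 0).re * (z 1).re + (z 0).im * (z 1).im) - h.i12 * ((z 0).re * (z 1).im - (z 0).im * (z 1).re))
      + 2 * (h.r13 * ((z 0).re * (z 2).re + (z 0).im * (z 2).im) - h.i13 * ((z 0).re * (z 2).im - (z 0).im * (z 2).re))
      + 2 * (h.r23 * ((z 1).re * (z 2).re + (z 1).im * (z 2).im)
        - h.i23 * ((z 1).re * (z 2).im - (z 1).im * (z 2).re))) =
      (h.a * (z 0).re + (h.r12 * (z 1).re - h.i12 * (z 1).im) + (h.r13 * (z 2).re - h.i13 * (z 2).im)) ^ 2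
      + (h.a * (z 0).im + (h.r12 * (z 1).im + h.i12 * (z 1).re) + (h.r13 * (z 2).im + h.i13 * (z 2).re)) ^ 2
      + ((h.a * h.b - (h.r12 * h.r12 + h.i12 * h.i12)) * ((z 1).re ^ 2 + (z 1).im ^ 2)
        + (h.a * h.c - (h.r13 * h.r13 + h.i13 * h.i13)) * ((z 2).re ^ 2 + (z 2).im ^ 2)
        + 2 * ((h.a * h.r23 - (h.r12 * h.r13 + h.i12 * h.i13)) * ((z 1).re * (z 2).re + (z 1).im * (z 2).im)
          - (h.a * h.i23 - (h.r12 * h.i13 - h.i12 * h.r13)) * ((z 1).re * (z 2).im - (z 1).im * (z 2).re))) := by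
      ring
    rw [e]
    positivity
  · have q := psd2_ev hq (z 1).re (z 1).im (z 2).re (z 2).im
    rw [h1, h2, h3, h4, h5]
    simp only [Rat.cast_zero, zero_mul, sub_zero, mul_zero, add_zero, zero_add]
    exact q

end Pool.Agent.FPX.NCA
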