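import Mathlib
import Pool.Agent.FPX.NCA

/-
NCI (helper87): fast canonical form of helper84's lists `BRG.Tf`: a sum of rank one terms is turned into the matrix of
its coefficients over the indices `(component, mode)`, by ONE big integer (packed linear forms: the product of the
packed forms is the packed matrix), then elimination of the components `4` and `3`.
-/

open Complex
open scoped ComplexConjugate

noncomputable section

namespace Pool.Agent.FPX.NCI

open Pool.Agent.FPX.NCA (mdf mdf_length)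
open Pool.Agent.FPX.BRG (Lf Tf e2 cf rs lin1 rsT elim elim_le lam)

/-! ### digits -/

/-- packing -/
def odZ (B : ℤ) : List ℤ → ℤ
  | [] => 0
  | d :: l => d + B * odZ B l

/-- value -/
def vz : List ℂ → List ℤ → ℂ
  | w :: ws, d :: l => w * (d : ℂ) + vz ws l
  | _, _ => 0

@[simp] theorem vz_nil (w : List ℂ) : vz w [] = 0 := by cases w <;> rfl

theorem odZ_mdf (B c : ℤ) : ∀ (l : List ℤ) (i : ℕ), i < l.length →
    odZ B (mdf (fun x => x + c) l i) = odZ B l + c * B ^ i
  | [], _, h => by simp at h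
  | a :: l, 0, _ => by
    simp only [mdf, odZ, pow_zero]
    ring
  | a :: l, i + 1, h => by
    simp only [mdf, odZ]
    rw [odZ_mdf B c l i (by simpa using h)]
    ring

theorem vz_mdf (c : ℤ) : ∀ (w : List ℂ) (l : List ℤ) (i : ℕ), i < l.length → i < w.length →
    vz w (mdf (fun x => x + c) l i) = vz w l + (c : ℂ) * w.getD i 0
  | _, [], _, h, _ => by simp at h
  | [], _ :: _, _, _, h => by simp at h
  | w :: ws, a :: l, 0, _, _ => by
    simp only [mdf, vz, List.getD_cons_zero]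
    push_cast
    ring
  | w :: ws, a :: l, i + 1, h, h' => by
    simp only [mdf, vz, List.getD_cons_succ]
    rw [vz_mdf c ws l i (by simpa using h) (by simpa using h')]
    ring

theorem mem_mdf (c : ℤ) {b : ℕ} : ∀ (l : List ℤ) (i : ℕ), (∀ d ∈ l, d.natAbs ≤ b) →
    ∀ d ∈ mdf (fun x => x + c) l i, d.natAbs ≤ c.natAbs + b
  | [], _, _, d, hd => by simp [mdf] at hd
  | a :: l, 0, h, d, hd => by
    simp only [mdf, List.mem_cons] at hd
    rcases hd with rfl | hd
    · have := h a List.mem_cons_self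
      omega
    · have := h d (List.mem_cons_of_mem _ hd)
      omega
  | a :: l, i + 1, h, d, hd => by
    simp only [mdf, List.mem_cons] at hd
    rcases hd with rfl | hd
    · have := h d List.mem_cons_self
      omega
    · exact mem_mdf c l i (fun d hd => h d (List.mem_cons_of_mem _ hd)) d hd

/-! ### indices -/

/-- modes up to `13` -/
def okn (n : ℤ) : Bool := n == 0 || (n.natAbs % 2 == 1 && (Nat.ble 3 n.natAbs && Nat.ble n.natAbs 13))

theorem okn_cases {n : ℤ} (h : okn n = true) : n = 0 ∨ n = 3 ∨ n = -3 ∨ n = 5 ∨ n = -5 ∨ n = 7 ∨ n = -7 ∨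
    n = 9 ∨ n = -9 ∨ n = 11 ∨ n = -11 ∨ n = 13 ∨ n = -13 := by
  simp only [okn, Bool.or_eq_true, beq_iff_eq, Bool.and_eq_true, Nat.ble_eq] at h
  omega

/-- number of a mode -/
def mi : ℤ → ℕ
  | Int.ofNat 0 => 0
  | Int.ofNat (k + 1) => k - 1
  | Int.negSucc k => k

/-- the indices of the components `0, 1, 2` -/
def I3 : List (ℕ × ℤ) :=
  [(0, 0), (1, 0), (2, 0), (0, 3), (1, 3), (2, 3), (0, -3), (1, -3), (2, -3), (0, 5), (1, 5), (2, 5),
    (0, -5), (1, -5), (2, -5), (0, 7), (1, 7), (2, 7), (0, -7), (1, -7), (2, -7), (0, 9), (1, 9), (2, 9),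
    (0, -9), (1, -9), (2, -9), (0, 11), (1, 11), (2, 11), (0, -11), (1, -11), (2, -11), (0, 13), (1, 13), (2, 13),
    (0, -13), (1, -13), (2, -13)]

/-- all indices, `M` modes -/
def IX (M : ℕ) : List (ℕ × ℤ) := I3.take (3 * M) ++ [(3, 0), (4, 0)]

theorem IX_len {M : ℕ} (hM : M ≤ 13) : (IX M).length = 3 * M + 2 := by
  have : I3.length = 39 := rfl
  simp only [IX, List.length_append, List.length_take, this, List.length_cons, List.length_nil]
  omega

/-- number of an index -/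
def ixm (M a : ℕ) (n : ℤ) : ℕ :=
  match Nat.blt a 3 with
  | true => 3 * mi n + a
  | false => 3 * M + (a - 3)

def okI (M a : ℕ) (n : ℤ) : Bool :=
  (Nat.blt a 3 && (okn n && Nat.blt (mi n) M)) || ((Nat.beq a 3 || Nat.beq a 4) && n == 0)

theorem okI_cases {M a : ℕ} {n : ℤ} (h : okI M a n = true) :
    (a < 3 ∧ okn n = true ∧ mi n < M) ∨ ((a = 3 ∨ a = 4) ∧ n = 0) := by
  simp only [okI, Bool.or_eq_true, Bool.and_eq_true, Nat.blt_eq, beq_iff_eq] at h
  rcases h with ⟨h1, h2, h3⟩ | ⟨h1 | h1, h2⟩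
  · exact Or.inl ⟨h1, h2, h3⟩
  · exact Or.inr ⟨Or.inl (Nat.eq_of_beq_eq_true h1), h2⟩
  · exact Or.inr ⟨Or.inr (Nat.eq_of_beq_eq_true h1), h2⟩

theorem ixm_lt {M a : ℕ} {n : ℤ} (h : okI M a n = true) : ixm M a n < 3 * M + 2 := by
  have h := okI_cases h
  unfold ixm
  rcases h with ⟨h1, h2, h3⟩ | ⟨h1, h2⟩
  · have : Nat.blt a 3 = true := by rwa [Nat.blt_eq]
    rw [this]
    simp only
    omega
  · have : Nat.blt a 3 = false := by
      rw [Bool.eq_false_iff, ne_eq, Nat.blt_eq]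
      omega
    rw [this]
    simp only
    omega

theorem IX_get {M a : ℕ} {n : ℤ} (hM : M ≤ 13) (h : okI M a n = true) : (IX M)[ixm M a n]? = some (a, n) := by
  have h := okI_cases h
  have l3 : I3.length = 39 := rfl
  unfold ixm IX
  rcases h with ⟨h1, h2, h3⟩ | ⟨h1, h2⟩
  · have : Nat.blt a 3 = true := by rwa [Nat.blt_eq]
    rw [this]
    simp only
    rw [List.getElem?_append_left (by rw [List.length_take, l3]; omega), List.getElem?_take_of_lt (by omega)]
    rcases okn_cases h2 with h | h | h | h | h | h | h | h | h | h | h | h | h <;> subst h <;> interval_cases a <;> rfl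
  · have : Nat.blt a 3 = false := by
      rw [Bool.eq_false_iff, ne_eq, Nat.blt_eq]
      omega
    rw [this]
    simp only
    have e : (I3.take (3 * M)).length = 3 * M := by rw [List.length_take, l3]; omega
    rw [List.getElem?_append_right (by rw [e]; omega), e, h2]
    rcases h1 with rfl | rfl
    · simp
    · simp

/-- the weights -/
def Wt (M : ℕ) (z : ℕ → ℂ) (u : ℤ → ℂ) : List ℂ := (IX M).map fun i => z i.1 * u i.2

theorem Wt_len {M : ℕ} (hM : M ≤ 13) (z : ℕ → ℂ) (u : ℤ → ℂ) : (Wt M z u).length = 3 * M + 2 := by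
  unfold Wt
  rw [List.length_map, IX_len hM]

theorem Wt_get {M a : ℕ} {n : ℤ} (hM : M ≤ 13) (h : okI M a n = true) (z : ℕ → ℂ) (u : ℤ → ℂ) :
    (Wt M z u).getD (ixm M a n) 0 = z a * u n := by
  unfold Wt
  rw [List.getD_eq_getElem?_getD, List.getElem?_map, IX_get hM h]
  rfl

/-! ### linear forms -/

/-- `D q`, if the denominator divides `D` -/
def zc (D : ℕ) (q : ℚ) : ℤ := Int.mul q.num (Int.ofNat (D / q.den))

theorem zc_eq {D : ℕ} {q : ℚ} (h : D % q.den = 0) : ((zc D q : ℤ) : ℚ) = D * q := by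
  have hd : q.den ∣ D := Nat.dvd_of_mod_eq_zero h
  obtain ⟨k, rfl⟩ := hd
  have hp : 0 < q.den := q.pos
  have e : zc (q.den * k) q = q.num * (k : ℤ) := by
    unfold zc
    rw [Nat.mul_div_cancel_left _ hp]
    rfl
  rw [e]
  push_cast
  have : q * q.den = q.num := Rat.mul_den_eq_num q
  linear_combination -(k : ℚ) * this

theorem zc_eqC {D : ℕ} {q : ℚ} (h : D % q.den = 0) : ((zc D q : ℤ) : ℂ) = D * (q : ℂ) := by
  have := zc_eq h
  exact_mod_cast congrArg (fun x : ℚ => (x : ℂ)) this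

def okE (M D : ℕ) (t : ℚ × ℕ × ℤ) : Bool := Nat.beq (D % t.1.den) 0 && okI M t.2.1 t.2.2

def okLf (M D : ℕ) (l : Lf) : Bool := l.all fun t => okE M D t

def pkL (M D e : ℕ) : Lf → ℤ
  | [] => 0
  | t :: l => Int.add (Int.mul (zc D t.1) (Int.ofNat (2 ^ (e * ixm M t.2.1 t.2.2)))) (pkL M D e l)

def sbL (D : ℕ) : Lf → ℕ
  | [] => 0
  | t :: l => Nat.add (Int.natAbs (zc D t.1)) (sbL D l)

theorem pkL_spec {M D : ℕ} (hM : M ≤ 13) (z : ℕ → ℂ) (u : ℤ → ℂ) : ∀ l : Lf, okLf M D l = true →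
    ∃ p : List ℤ, p.length = 3 * M + 2 ∧ (∀ e, pkL M D e l = odZ (2 ^ e) p) ∧
      vz (Wt M z u) p = D * BRG.ev z u l ∧ ∀ d ∈ p, d.natAbs ≤ sbL D l
  | [], _ => by
    refine ⟨List.replicate (3 * M + 2) 0, List.length_replicate, fun e => ?_, ?_, ?_⟩
    · have : ∀ n : ℕ, odZ (2 ^ e) (List.replicate n 0) = 0 := fun n => by
        induction n with
        | zero => rfl
        | succ n ih => simp [List.replicate_succ, odZ, ih]
      rw [this]
      rfl
    · have : ∀ (n : ℕ) (w : List ℂ), vz w (List.replicate n 0) = 0 := fun n => by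
        induction n with
        | zero => intro w; simp
        | succ n ih =>
          intro w
          cases w <;> simp [List.replicate_succ, vz, ih]
      rw [this]
      simp
    · intro d hd
      rw [(List.mem_replicate.1 hd).2]
      simp
  | t :: l, h => by
    unfold okLf at h
    rw [List.all_cons, Bool.and_eq_true] at h
    obtain ⟨h1, h2⟩ := h
    obtain ⟨p, a1, a2, a3, a4⟩ := pkL_spec hM z u l h2
    unfold okE at h1
    rw [Bool.and_eq_true] at h1
    have hi := ixm_lt h1.2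
    have h0 := Nat.eq_of_beq_eq_true h1.1
    refine ⟨mdf (fun x => x + zc D t.1) p (ixm M t.2.1 t.2.2), by rw [mdf_length, a1], fun e => ?_, ?_, ?_⟩
    · rw [odZ_mdf _ _ _ _ (by rw [a1]; exact hi), ← a2 e]
      show zc D t.1 * ((2 ^ (e * ixm M t.2.1 t.2.2) : ℕ) : ℤ) + pkL M D e l = _
      rw [pow_mul]
      push_cast
      ring
    · rw [vz_mdf _ _ _ _ (by rw [a1]; exact hi) (by rw [Wt_len hM]; exact hi), a3, Wt_get hM h1.2,
        BRG.ev_cons, zc_eqC h0]
      ring
    · exact fun d hd => mem_mdf _ _ _ a4 d hd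

/-! ### matrices -/

def mv (W : List ℂ) : List ℂ → List (List ℤ) → ℂ
  | w :: ws, r :: rs => w * conj (vz W r) + mv W ws rs
  | _, _ => 0

@[simp] theorem mv_nil (W w : List ℂ) : mv W w [] = 0 := by cases w <;> rfl

/-- the packed matrix `N` with entries bounded by `b` and value `v` -/
def RM (K e : ℕ) (W : List ℂ) (N : ℤ) (b : ℕ) (v : ℂ) : Prop :=
  ∃ R : List (List ℤ), R.length = K ∧ (∀ r ∈ R, r.length = K) ∧ N = odZ (2 ^ (e * K)) (R.map (odZ (2 ^ e))) ∧
    (∀ r ∈ R, ∀ d ∈ r, d.natAbs ≤ b) ∧ v = mv W W R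

def zadd : List ℤ → List ℤ → List ℤ := List.zipWith (· + ·)

theorem odZ_zadd (B : ℤ) : ∀ p q : List ℤ, p.length = q.length → odZ B (zadd p q) = odZ B p + odZ B q
  | [], [], _ => rfl
  | a :: p, b :: q, h => by
    have ih := odZ_zadd B p q (by simpa using h)
    simp only [zadd, List.zipWith_cons_cons, odZ] at ih ⊢
    rw [ih]
    ring

theorem vz_zadd : ∀ (w : List ℂ) (p q : List ℤ), p.length = q.length → vz w (zadd p q) = vz w p + vz w q
  | _, [], [], _ => by simp [zadd]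
  | [], _ :: _, _ :: _, _ => by simp [vz]
  | w :: ws, a :: p, b :: q, h => by
    have ih := vz_zadd ws p q (by simpa using h)
    simp only [zadd, List.zipWith_cons_cons, vz] at ih ⊢
    rw [ih]
    push_cast
    ring

theorem mem_zadd {b b' : ℕ} : ∀ p q : List ℤ, (∀ d ∈ p, d.natAbs ≤ b) → (∀ d ∈ q, d.natAbs ≤ b') →
    ∀ d ∈ zadd p q, d.natAbs ≤ b + b'
  | [], _, _, _, d, hd => by simp [zadd] at hd
  | _ :: _, [], _, _, d, hd => by simp [zadd] at hd
  | x :: p, y :: q, hp, hq, d, hd => by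
    simp only [zadd, List.zipWith_cons_cons, List.mem_cons] at hd
    rcases hd with rfl | hd
    · have := hp x List.mem_cons_self
      have := hq y List.mem_cons_self
      omega
    · exact mem_zadd p q (fun d hd => hp d (List.mem_cons_of_mem _ hd))
        (fun d hd => hq d (List.mem_cons_of_mem _ hd)) d hd

theorem len_zadd {K : ℕ} {p q : List ℤ} (hp : p.length = K) (hq : q.length = K) : (zadd p q).length = K := by
  simp [zadd, hp, hq]

theorem RM_add_aux (K e : ℕ) (W : List ℂ) {b b' : ℕ} : ∀ (ws : List ℂ) (R S : List (List ℤ)), R.length = S.length →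
    (∀ r ∈ R, r.length = K) → (∀ r ∈ S, r.length = K) → (∀ r ∈ R, ∀ d ∈ r, d.natAbs ≤ b) →
    (∀ r ∈ S, ∀ d ∈ r, d.natAbs ≤ b') →
    (List.zipWith zadd R S).length = R.length ∧ (∀ r ∈ List.zipWith zadd R S, r.length = K) ∧
    odZ (2 ^ (e * K)) ((List.zipWith zadd R S).map (odZ (2 ^ e))) = odZ (2 ^ (e * K)) (R.map (odZ (2 ^ e)))
      + odZ (2 ^ (e * K)) (S.map (odZ (2 ^ e))) ∧
    (∀ r ∈ List.zipWith zadd R S, ∀ d ∈ r, d.natAbs ≤ b + b') ∧
    mv W ws (List.zipWith zadd R S) = mv W ws R + mv W ws S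
  | ws, [], [], _, _, _, _, _ => by simp [odZ]
  | ws, r :: R, s :: S, hl, hR, hS, bR, bS => by
    have hr := hR r List.mem_cons_self
    have hs := hS s List.mem_cons_self
    have hrs : r.length = s.length := hr.trans hs.symm
    obtain ⟨a1, a2, a3, a4, _⟩ := RM_add_aux K e W (ws.tail) R S (by simpa using hl)
      (fun r hr => hR r (List.mem_cons_of_mem _ hr)) (fun r hr => hS r (List.mem_cons_of_mem _ hr))
      (fun r hr => bR r (List.mem_cons_of_mem _ hr)) (fun r hr => bS r (List.mem_cons_of_mem _ hr))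
    refine ⟨by simp [a1], ?_, ?_, ?_, ?_⟩
    · intro t ht
      rw [List.zipWith_cons_cons, List.mem_cons] at ht
      rcases ht with rfl | ht
      · exact len_zadd hr hs
      · exact a2 t ht
    · rw [List.zipWith_cons_cons, List.map_cons, List.map_cons, List.map_cons]
      simp only [odZ]
      rw [a3, odZ_zadd _ _ _ hrs]
      ring
    · intro t ht
      rw [List.zipWith_cons_cons, List.mem_cons] at ht
      rcases ht with rfl | ht
      · exact mem_zadd _ _ (bR r List.mem_cons_self) (bS s List.mem_cons_self)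
      · exact a4 t ht
    · rcases ws with _ | ⟨w, ws⟩
      · simp [mv]
      · obtain ⟨_, _, _, _, a5⟩ := RM_add_aux K e W ws R S (by simpa using hl)
          (fun r hr => hR r (List.mem_cons_of_mem _ hr)) (fun r hr => hS r (List.mem_cons_of_mem _ hr))
          (fun r hr => bR r (List.mem_cons_of_mem _ hr)) (fun r hr => bS r (List.mem_cons_of_mem _ hr))
        rw [List.zipWith_cons_cons]
        simp only [mv]
        rw [a5, vz_zadd _ _ _ hrs, map_add]
        ring

theorem RM.add {K e : ℕ} {W : List ℂ} {N N' : ℤ} {b b' : ℕ} {v v' : ℂ} (h : RM K e W N b v)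
    (h' : RM K e W N' b' v') : RM K e W (N + N') (b + b') (v + v') := by
  obtain ⟨R, r1, r2, r3, r4, r5⟩ := h
  obtain ⟨S, s1, s2, s3, s4, s5⟩ := h'
  obtain ⟨a1, a2, a3, a4, a5⟩ := RM_add_aux K e W W R S (r1.trans s1.symm) r2 s2 r4 s4
  exact ⟨_, a1.trans r1, a2, by rw [a3, r3, s3], a4, by rw [a5, r5, s5]⟩

theorem RM.zero (K e : ℕ) (W : List ℂ) : RM K e W 0 0 0 := by
  refine ⟨List.replicate K (List.replicate K 0), List.length_replicate, ?_, ?_, ?_, ?_⟩
  · intro r hr
    rw [(List.mem_replicate.1 hr).2, List.length_replicate]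
  · have : ∀ (B : ℤ) (n : ℕ), odZ B (List.replicate n 0) = 0 := fun B n => by
      induction n with
      | zero => rfl
      | succ n ih => simp [List.replicate_succ, odZ, ih]
    rw [List.map_replicate, this, this]
  · intro r hr d hd
    rw [(List.mem_replicate.1 hr).2] at hd
    rw [(List.mem_replicate.1 hd).2]
    simp
  · have h1 : ∀ (n : ℕ) (w : List ℂ), vz w (List.replicate n 0) = 0 := fun n => by
      induction n with
      | zero => intro w; simp
      | succ n ih =>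
        intro w
        cases w <;> simp [List.replicate_succ, vz, ih]
    have h2 : ∀ (n : ℕ) (w : List ℂ), mv W w (List.replicate n (List.replicate K 0)) = 0 := fun n => by
      induction n with
      | zero => intro w; simp
      | succ n ih =>
        intro w
        cases w <;> simp [List.replicate_succ, mv, h1, ih]
    rw [h2]

theorem odZ_smul (B c : ℤ) : ∀ l : List ℤ, odZ B (l.map fun x => c * x) = c * odZ B l
  | [] => by simp [odZ]
  | a :: l => by
    rw [List.map_cons]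
    simp only [odZ]
    rw [odZ_smul B c l]
    ring

theorem vz_smul (c : ℤ) : ∀ (w : List ℂ) (l : List ℤ), vz w (l.map fun x => c * x) = (c : ℂ) * vz w l
  | _, [] => by simp
  | [], _ :: _ => by simp [vz]
  | w :: ws, a :: l => by
    rw [List.map_cons]
    simp only [vz]
    rw [vz_smul c ws l]
    push_cast
    ring

theorem mv_rank (W : List ℂ) (c : ℤ) (q : List ℤ) : ∀ (ws : List ℂ) (p : List ℤ),
    mv W ws (p.map fun x => q.map fun y => c * x * y) = (c : ℂ) * (vz ws p * conj (vz W q))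
  | _, [] => by simp
  | [], _ :: _ => by simp [mv, vz]
  | w :: ws, a :: p => by
    rw [List.map_cons]
    simp only [mv, vz]
    rw [mv_rank W c q ws p, vz_smul, map_mul]
    have : conj (((c * a : ℤ) : ℂ)) = ((c * a : ℤ) : ℂ) := map_intCast _ _
    rw [this]
    push_cast
    ring

theorem RM.rank {K e : ℕ} {W : List ℂ} {p q : List ℤ} (hp : p.length = K) (hq : q.length = K) {b b' : ℕ}
    (bp : ∀ d ∈ p, d.natAbs ≤ b) (bq : ∀ d ∈ q, d.natAbs ≤ b') (c : ℤ) :
    RM K e W (c * (odZ (2 ^ (e * K)) p * odZ (2 ^ e) q)) (c.natAbs * (b * b')) ((c : ℂ) * (vz W p * conj (vz W q))) := by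
  refine ⟨p.map fun x => q.map fun y => c * x * y, by rw [List.length_map, hp], ?_, ?_, ?_, ?_⟩
  · intro r hr
    obtain ⟨x, _, rfl⟩ := List.mem_map.1 hr
    rw [List.length_map, hq]
  · rw [List.map_map]
    have : ((odZ (2 ^ e)) ∘ fun x => q.map fun y => c * x * y) = fun x => (c * odZ (2 ^ e) q) * x := by
      funext x
      simp only [Function.comp_apply]
      rw [odZ_smul]
      ring
    rw [this, odZ_smul]
    ring
  · intro r hr d hd
    obtain ⟨x, hx, rfl⟩ := List.mem_map.1 hr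
    obtain ⟨y, hy, rfl⟩ := List.mem_map.1 hd
    rw [Int.natAbs_mul, Int.natAbs_mul, mul_assoc]
    exact Nat.mul_le_mul_left _ (Nat.mul_le_mul (bp x hx) (bq y hy))
  · rw [mv_rank]

/-! ### the packed matrix of a list -/

def pkT (M Dc Dl e : ℕ) : Tf → ℤ
  | [] => 0
  | t :: T => Int.add (Int.mul (zc Dc t.1) (Int.mul (pkL M Dl (e * (3 * M + 2)) t.2.1) (pkL M Dl e t.2.2)))
      (pkT M Dc Dl e T)

def bdT (Dc Dl : ℕ) : Tf → ℕ
  | [] => 0
  | t :: T => Nat.add (Nat.mul (Int.natAbs (zc Dc t.1)) (Nat.mul (sbL Dl t.2.1) (sbL Dl t.2.2))) (bdT Dc Dl T)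

def okTf (M Dc Dl : ℕ) (T : Tf) : Bool :=
  T.all fun t => Nat.beq (Dc % t.1.den) 0 && (okLf M Dl t.2.1 && okLf M Dl t.2.2)

theorem pkT_spec {M Dc Dl : ℕ} (hM : M ≤ 13) (z : ℕ → ℂ) (u : ℤ → ℂ) (e : ℕ) : ∀ T : Tf,
    okTf M Dc Dl T = true → RM (3 * M + 2) e (Wt M z u) (pkT M Dc Dl e T) (bdT Dc Dl T)
      ((Dc : ℂ) * ((Dl : ℂ) * (Dl : ℂ)) * e2 z u T)
  | [], _ => by
    have := RM.zero (3 * M + 2) e (Wt M z u)
    simpa [pkT, bdT] using this
  | t :: T, h => by
    unfold okTf at h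
    rw [List.all_cons, Bool.and_eq_true, Bool.and_eq_true, Bool.and_eq_true] at h
    obtain ⟨⟨h0, h1, h2⟩, h3⟩ := h
    have h0 := Nat.eq_of_beq_eq_true h0
    obtain ⟨p, a1, a2, a3, a4⟩ := pkL_spec hM z u t.2.1 h1
    obtain ⟨q, b1, b2, b3, b4⟩ := pkL_spec hM z u t.2.2 h2
    have r := RM.rank (e := e) (W := Wt M z u) a1 b1 a4 b4 (zc Dc t.1)
    have ih := pkT_spec hM z u e T h3
    have s := r.add ih
    have e1 : pkT M Dc Dl e (t :: T) = zc Dc t.1 * (odZ (2 ^ (e * (3 * M + 2))) p * odZ (2 ^ e) q)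
        + pkT M Dc Dl e T := by
      rw [← a2, ← b2]
      rfl
    have e2' : bdT Dc Dl (t :: T) = (zc Dc t.1).natAbs * (sbL Dl t.2.1 * sbL Dl t.2.2) + bdT Dc Dl T := rfl
    rw [e1, e2']
    have e3 : (Dc : ℂ) * ((Dl : ℂ) * (Dl : ℂ)) * e2 z u (t :: T) =
        ((zc Dc t.1 : ℤ) : ℂ) * (vz (Wt M z u) p * conj (vz (Wt M z u) q))
          + (Dc : ℂ) * ((Dl : ℂ) * (Dl : ℂ)) * e2 z u T := by
      rw [BRG.e2_cons, zc_eqC h0, a3, b3, map_mul]
      have : conj ((Dl : ℂ)) = (Dl : ℂ) := map_natCast _ _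
      rw [this]
      ring
    rw [e3]
    exact s

/-! ### decoding -/

def odN (B : ℕ) : List ℕ → ℕ
  | [] => 0
  | d :: l => d + B * odN B l

def dec (e : ℕ) : ℕ → ℕ → List ℕ
  | 0, _ => []
  | n + 1, x => Nat.mod x (2 ^ e) :: dec e n (Nat.div x (2 ^ e))

theorem dec_od (e : ℕ) : ∀ l : List ℕ, (∀ d ∈ l, d < 2 ^ e) → dec e l.length (odN (2 ^ e) l) = l
  | [], _ => rfl
  | a :: l, h => by
    have ha := h a List.mem_cons_self
    have ih := dec_od e l fun d hd => h d (List.mem_cons_of_mem _ hd)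
    have hp : 0 < 2 ^ e := by positivity
    show ((a + 2 ^ e * odN (2 ^ e) l) % 2 ^ e) :: dec e l.length ((a + 2 ^ e * odN (2 ^ e) l) / 2 ^ e) = a :: l
    rw [Nat.add_mul_mod_self_left, Nat.mod_eq_of_lt ha, Nat.add_mul_div_left _ _ hp, Nat.div_eq_of_lt ha, zero_add, ih]

theorem odN_lt (e : ℕ) : ∀ l : List ℕ, (∀ d ∈ l, d < 2 ^ e) → odN (2 ^ e) l < 2 ^ (e * l.length)
  | [], _ => by simp [odN]
  | a :: l, h => by
    have ha := h a List.mem_cons_self
    have ih := odN_lt e l fun d hd => h d (List.mem_cons_of_mem _ hd)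
    have e1 : 2 ^ (e * (a :: l).length) = 2 ^ e * 2 ^ (e * l.length) := by
      rw [List.length_cons, mul_add, mul_one, pow_add]
      ring
    rw [e1]
    simp only [odN]
    nlinarith

def gs (e : ℕ) : ℕ → ℕ
  | 0 => 0
  | n + 1 => 1 + 2 ^ e * gs e n

theorem odZ_shift (e : ℕ) (h : ℤ) : ∀ l : List ℤ, odZ (2 ^ e) (l.map fun d => d + h) =
    odZ (2 ^ e) l + h * (gs e l.length : ℕ)
  | [] => by simp [odZ, gs]
  | a :: l => by
    rw [List.map_cons]
    simp only [odZ, List.length_cons, gs]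
    rw [odZ_shift e h l]
    push_cast
    ring

theorem odN_cast (B : ℕ) : ∀ l : List ℕ, ((odN B l : ℕ) : ℤ) = odZ B (l.map (fun n : ℕ => (n : ℤ)))
  | [] => rfl
  | a :: l => by
    rw [List.map_cons]
    simp only [odN, odZ]
    push_cast
    rw [odN_cast B l]

/-- the rows of a packed matrix -/
def rowsOf (e K : ℕ) (N : ℤ) : List (List ℤ) :=
  (dec (e * K) K (Int.toNat (Int.add N (Int.ofNat (Nat.mul (2 ^ (e - 1)) (Nat.mul (gs e K) (gs (e * K) K))))))).map
    fun r => (dec e K r).map fun d => Int.sub (Int.ofNat d) (Int.ofNat (2 ^ (e - 1)))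

theorem rowsOf_eq {e K b : ℕ} {R : List (List ℤ)} (h1 : R.length = K) (h2 : ∀ r ∈ R, r.length = K)
    (h3 : ∀ r ∈ R, ∀ d ∈ r, d.natAbs ≤ b) (hb : b < 2 ^ (e - 1)) (he : 1 ≤ e) :
    rowsOf e K (odZ (2 ^ (e * K)) (R.map (odZ (2 ^ e)))) = R := by
  set h : ℕ := 2 ^ (e - 1) with hh
  have hB : 2 ^ e = 2 * h := by
    rw [hh, ← pow_succ']
    congr 1
    omega
  have key : ∀ r ∈ R, ∀ d ∈ r, (((d + h).toNat : ℕ) : ℤ) = d + h ∧ (d + h).toNat < 2 ^ e := by
    intro r hr d hd
    have := h3 r hr d hd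
    rw [hB]
    omega
  -- the rows of natural numbers
  set F : List ℤ → List ℕ := fun r => r.map (fun d : ℤ => (d + (h : ℤ)).toNat) with hF
  have Flt : ∀ r ∈ R, ∀ n ∈ F r, n < 2 ^ e := by
    intro r hr n hn
    obtain ⟨d, hd, rfl⟩ := List.mem_map.1 hn
    exact (key r hr d hd).2
  have Flen : ∀ r ∈ R, (F r).length = K := by
    intro r hr
    rw [hF, List.length_map, h2 r hr]
  have Fval : ∀ r ∈ R, ((odN (2 ^ e) (F r) : ℕ) : ℤ) = odZ (2 ^ e) r + h * (gs e K : ℕ) := by
    intro r hr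
    rw [odN_cast, hF, List.map_map]
    have e1 : (r.map ((fun n : ℕ => (n : ℤ)) ∘ fun d => (d + (h : ℤ)).toNat)) = r.map fun d => d + (h : ℤ) :=
      List.map_congr_left fun d hd => (key r hr d hd).1
    rw [e1]
    have := odZ_shift e (h : ℤ) r
    rw [h2 r hr] at this
    push_cast
    exact this
  have Fbd : ∀ n ∈ R.map fun r => odN (2 ^ e) (F r), n < 2 ^ (e * K) := by
    intro n hn
    obtain ⟨r, hr, rfl⟩ := List.mem_map.1 hn
    have := odN_lt e (F r) (Flt r hr)
    rwa [Flen r hr] at this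
  have e1 : ((odN (2 ^ (e * K)) (R.map fun r => odN (2 ^ e) (F r)) : ℕ) : ℤ) =
      odZ (2 ^ (e * K)) (R.map (odZ (2 ^ e))) + ((h * (gs e K * gs (e * K) K) : ℕ) : ℤ) := by
    rw [odN_cast, List.map_map]
    have e2 : (R.map ((fun n : ℕ => (n : ℤ)) ∘ fun r => odN (2 ^ e) (F r))) =
        (R.map (odZ (2 ^ e))).map fun d => d + (h : ℤ) * (gs e K : ℕ) := by
      rw [List.map_map]
      exact List.map_congr_left fun r hr => Fval r hr
    rw [e2]
    have := odZ_shift (e * K) ((h : ℤ) * (gs e K : ℕ)) (R.map (odZ (2 ^ e)))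
    rw [List.length_map, h1] at this
    push_cast at this ⊢
    rw [this]
    ring
  unfold rowsOf
  have e3 : Int.toNat (Int.add (odZ (2 ^ (e * K)) (R.map (odZ (2 ^ e))))
      (Int.ofNat (Nat.mul (2 ^ (e - 1)) (Nat.mul (gs e K) (gs (e * K) K))))) =
      odN (2 ^ (e * K)) (R.map fun r => odN (2 ^ e) (F r)) := by
    have : Int.add (odZ (2 ^ (e * K)) (R.map (odZ (2 ^ e))))
      (Int.ofNat (Nat.mul (2 ^ (e - 1)) (Nat.mul (gs e K) (gs (e * K) K)))) =
        ((odN (2 ^ (e * K)) (R.map fun r => odN (2 ^ e) (F r)) : ℕ) : ℤ) := e1.symm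
    rw [this, Int.toNat_natCast]
  rw [e3]
  have e4 : dec (e * K) K (odN (2 ^ (e * K)) (R.map fun r => odN (2 ^ e) (F r))) = R.map fun r => odN (2 ^ e) (F r) := by
    have := dec_od (e * K) (R.map fun r => odN (2 ^ e) (F r)) Fbd
    rwa [List.length_map, h1] at this
  rw [e4, List.map_map]
  conv_rhs => rw [← List.map_id R]
  refine List.map_congr_left fun r hr => ?_
  simp only [Function.comp_apply, id]
  have e5 : dec e K (odN (2 ^ e) (F r)) = F r := by
    have := dec_od e (F r) (Flt r hr)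
    rwa [Flen r hr] at this
  rw [e5, hF, List.map_map]
  conv_rhs => rw [← List.map_id r]
  refine List.map_congr_left fun d hd => ?_
  have := (key r hr d hd).1
  simp only [Function.comp_apply, id]
  show (((d + h).toNat : ℕ) : ℤ) - ((h : ℕ) : ℤ) = d
  rw [this]
  ring

/-! ### back to lists -/

def ent : List (ℕ × ℤ) → List ℤ → Lf
  | i :: is, d :: ds => if d = 0 then ent is ds else ((d : ℚ), i) :: ent is ds
  | _, _ => []

theorem ent_ev (z : ℕ → ℂ) (u : ℤ → ℂ) : ∀ (is : List (ℕ × ℤ)) (ds : List ℤ),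
    BRG.ev z u (ent is ds) = vz (is.map fun i => z i.1 * u i.2) ds
  | [], ds => by cases ds <;> simp [ent, vz]
  | i :: is, [] => by simp [ent]
  | i :: is, d :: ds => by
    have ih := ent_ev z u is ds
    unfold ent
    rw [List.map_cons]
    simp only [vz]
    split_ifs with h
    · rw [ih, h]
      simp
    · rw [BRG.ev_cons, ih]
      push_cast
      ring

def toT (c : ℚ) (ixs : List (ℕ × ℤ)) : List (ℕ × ℤ) → List (List ℤ) → Tf
  | i :: is, r :: rs =>
    match ent ixs r with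
    | [] => toT c ixs is rs
    | x :: l => (c, [(1, i)], x :: l) :: toT c ixs is rs
  | _, _ => []

theorem toT_ev (z : ℕ → ℂ) (u : ℤ → ℂ) (c : ℚ) (ixs : List (ℕ × ℤ)) : ∀ (is : List (ℕ × ℤ)) (rs : List (List ℤ)),
    e2 z u (toT c ixs is rs) = (c : ℂ) * mv (ixs.map fun i => z i.1 * u i.2) (is.map fun i => z i.1 * u i.2) rs
  | [], rs => by cases rs <;> simp [toT, mv]
  | i :: is, [] => by simp [toT]
  | i :: is, r :: rs => by
    have ih := toT_ev z u c ixs is rs
    have he := ent_ev z u ixs r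
    unfold toT
    rw [List.map_cons]
    simp only [mv]
    rw [← he]
    split
    next h0 =>
      rw [ih, h0]
      simp
    next x l h0 =>
      rw [BRG.e2_cons, ih, h0]
      simp only [BRG.ev_cons, BRG.ev_nil]
      push_cast
      ring

/-! ### the canonical form -/

def frN {β : Type} (n : ℕ) (k : ℕ → β) : β :=
  match n with
  | 0 => k 0
  | m + 1 => k (m + 1)

theorem frN_eq {β : Type} (n : ℕ) (k : ℕ → β) : frN n k = k n := by
  cases n <;> rfl

def lcL : Lf → ℕ
  | [] => 1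
  | t :: l => Nat.lcm t.1.den (lcL l)

def lcT : Tf → ℕ
  | [] => 1
  | t :: T => Nat.lcm (Nat.lcm (lcL t.2.1) (lcL t.2.2)) (lcT T)

def lcC : Tf → ℕ
  | [] => 1
  | t :: T => Nat.lcm t.1.den (lcC T)

/-- **canonical form** (modes: number `M ≤ 13`; components `0 .. 4`, `3` and `4` only in the mode `0`) -/
def can (M : ℕ) (T : Tf) : Tf :=
  frN (lcC T) fun Dc => frN (lcT T) fun Dl => frN (bdT Dc Dl T) fun b => frN (Nat.log2 b + 2) fun e =>
    match okTf M Dc Dl T && (Nat.ble M 13 && (Nat.blt b (2 ^ (e - 1)) && (Nat.ble 1 e &&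
      Nat.ble 1 (Dc * (Dl * Dl))))) with
    | true => toT (1 / ((Dc * (Dl * Dl) : ℕ) : ℚ)) (IX M) (IX M) (rowsOf e (3 * M + 2) (pkT M Dc Dl e T))
    | false => T

/-- **the canonical form has the same value** -/
theorem e2_can (M : ℕ) (z : ℕ → ℂ) (u : ℤ → ℂ) (T : Tf) : e2 z u (can M T) = e2 z u T := by
  unfold can
  rw [frN_eq, frN_eq, frN_eq, frN_eq]
  split
  next h =>
    simp only [Bool.and_eq_true, Nat.ble_eq, Nat.blt_eq] at h
    obtain ⟨h1, hM, h2, h3, h4⟩ := h
    set Dc := lcC T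
    set Dl := lcT T
    set b := bdT Dc Dl T with hb
    set e := Nat.log2 b + 2
    obtain ⟨R, r1, r2, r3, r4, r5⟩ := pkT_spec hM z u e T h1
    rw [r3, rowsOf_eq r1 r2 r4 h2 h3, toT_ev]
    have : mv (Wt M z u) (Wt M z u) R = (Dc : ℂ) * ((Dl : ℂ) * (Dl : ℂ)) * e2 z u T := r5.symm
    unfold Wt at this
    rw [this]
    have hD : ((Dc : ℂ) * ((Dl : ℂ) * (Dl : ℂ))) ≠ 0 := by
      have : ((Dc * (Dl * Dl) : ℕ) : ℂ) ≠ 0 := by
        exact_mod_cast (show Dc * (Dl * Dl) ≠ 0 by omega)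
      push_cast at this
      exact this
    push_cast
    rw [← mul_assoc, one_div, inv_mul_cancel₀ hD, one_mul]
  next => rfl

/-! ### elimination -/

/-- `lin1` without the terms with coefficient `0` -/
def linP (i : ℕ) (T : Tf) : Lf :=
  T.flatMap fun t => (if cf i t.2.2 = 0 then [] else BRG.smL (t.1 / 2 * cf i t.2.2) (rs i t.2.1))
    ++ (if cf i t.2.1 = 0 then [] else BRG.smL (t.1 / 2 * cf i t.2.1) (rs i t.2.2))

theorem linP_ev (z : ℕ → ℂ) (u : ℤ → ℂ) (i : ℕ) : ∀ T : Tf, BRG.ev z u (linP i T) = BRG.ev z u (lin1 i T)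
  | [] => rfl
  | t :: T => by
    have ih := linP_ev z u i T
    have a1 : linP i (t :: T) = ((if cf i t.2.2 = 0 then [] else BRG.smL (t.1 / 2 * cf i t.2.2) (rs i t.2.1))
      ++ (if cf i t.2.1 = 0 then [] else BRG.smL (t.1 / 2 * cf i t.2.1) (rs i t.2.2))) ++ linP i T := rfl
    have a2 : lin1 i (t :: T) = (BRG.smL (t.1 / 2 * cf i t.2.2) (rs i t.2.1)
      ++ BRG.smL (t.1 / 2 * cf i t.2.1) (rs i t.2.2)) ++ lin1 i T := rfl
    rw [a1, a2, BRG.ev_append, BRG.ev_append, BRG.ev_append, BRG.ev_append, ih]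
    congr 1
    congr 1
    · split_ifs with h
      · rw [h, BRG.ev_smL]
        simp
      · rfl
    · split_ifs with h
      · rw [h, BRG.ev_smL]
        simp
      · rfl

def elimP (i : ℕ) (κ : ℚ) (T : Tf) : Tf := (-κ, linP i T, linP i T) :: rsT i T

theorem elimP_le {z : ℕ → ℂ} {u : ℤ → ℂ} (h0 : u 0 = 1) {i : ℕ} {κ : ℚ} {T : Tf} (h : BRG.okT i T = true)
    (hκ : 0 ≤ κ) (h1 : 1 ≤ κ * lam i T) : (e2 z u (elimP i κ T)).re ≤ (e2 z u T).re := by
  have := elim_le (z := z) h0 h hκ h1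
  unfold elimP
  unfold elim at this
  rw [BRG.e2_cons] at this ⊢
  simp only [linP_ev]
  exact this

/-- **elimination of the components `3` and `4`** -/
def finT (M : ℕ) (k3 k4 : ℚ) (T : Tf) : Tf := can M (elimP 4 k4 (elimP 3 k3 (can M T)))

def okFin (M : ℕ) (k3 k4 : ℚ) (T : Tf) : Bool :=
  BRG.okT 3 (can M T) && (0 ≤ k3 && (1 ≤ k3 * lam 3 (can M T) && (BRG.okT 4 (elimP 3 k3 (can M T)) &&
    (0 ≤ k4 && 1 ≤ k4 * lam 4 (elimP 3 k3 (can M T))))))

theorem fin_le {M : ℕ} {k3 k4 : ℚ} {T : Tf} {z : ℕ → ℂ} {u : ℤ → ℂ} (h0 : u 0 = 1) (h : okFin M k3 k4 T = true) :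
    (e2 z u (finT M k3 k4 T)).re ≤ (e2 z u T).re := by
  unfold okFin at h
  simp only [Bool.and_eq_true, decide_eq_true_eq] at h
  obtain ⟨o3, a3, b3, o4, a4, b4⟩ := h
  have i3 := elimP_le (z := z) h0 o3 a3 b3
  have i4 := elimP_le (z := z) h0 o4 a4 b4
  unfold finT
  rw [e2_can]
  rw [e2_can] at i3
  exact i4.trans i3

end Pool.Agent.FPX.NCI
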