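import Pool.Agent.FPX.NCA
import Pool.Agent.FPX.CAT

/-
NCN (helper39): comparison of the lists of the certificate bridge with integer tables of size `R`: the proposition
`Near` used by NCD, and the instance from helper87's expansion for `R = 9`.
-/

set_option autoImplicit false

open scoped ComplexConjugate

noncomputable section

namespace Pool.Agent.FPX.NCD

open Pool.Agent.FPX.NCA (H9 getH qH tT tQ okT okQ yv Zv)
open Pool.Agent.FPX.PLK (iz w3)
open Pool.Agent.FPX.CAT

/-- `|z 0|² + |z 1|² + |z 2|²` -/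
def nz (z : ℕ → ℂ) : ℝ := ‖z 0‖ ^ 2 + ‖z 1‖ ^ 2 + ‖z 2‖ ^ 2

theorem nz_nonneg (z : ℕ → ℂ) : 0 ≤ nz z := by
  unfold nz
  positivity

/-- the form of an integer table of size `R` -/
def qC (R : ℕ) (w : List ℝ) (C : List (List (List ℤ))) (y : ℕ → ℝ) : ℝ :=
  ∑ k ∈ Finset.range R, ∑ j ∈ Finset.range (R - k), iz w ((C.getD k []).getD j []) * (y k * y (k + j))

/-- **the lists against the integer tables**: `Sc` times the form of the lists is at least the form of the tables
minus `B |z|²` -/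
def Near (R : ℕ) (C : List (List (List ℤ))) (Qm : List (List ℤ)) (Sc : ℚ) (B : ℕ) (T : BRG.Tf) (Q : BRG.Qf) : Prop :=
  ∀ (z : ℕ → ℂ) (u Z : ℤ → ℂ), u 0 = 1 → (∀ n, u (-n) = conj (u n)) → (∀ n, Z (-n) = conj (Z n)) →
    (∀ n, ‖u n‖ ≤ 1) → (∀ n, ‖Z n‖ ≤ 1) →
    qC R (w3 (z 0) (z 1) (z 2)) C (yv u)
      + ∑ k ∈ Finset.range R, iz (w3 (z 0) (z 1) (z 2)) (Qm.getD k []) * Zv Z k - B * nz z
      ≤ Sc * (BRG.e2 z u T + BRG.eq2 z Z Q).re

theorem Near.mono {R : ℕ} {C : List (List (List ℤ))} {Qm : List (List ℤ)} {Sc : ℚ} {B B' : ℕ} {T : BRG.Tf}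
    {Q : BRG.Qf} (h : Near R C Qm Sc B T Q) (hB : B ≤ B') : Near R C Qm Sc B' T Q :=
  fun z u Z h0 h1 h2 h3 h4 => by
    have h5 := h z u Z h0 h1 h2 h3 h4
    have h6 : (B : ℝ) * nz z ≤ B' * nz z := mul_le_mul_of_nonneg_right (by exact_mod_cast hB) (nz_nonneg z)
    linarith

/-- from bounds of the entries -/
theorem near_of {R : ℕ} {C : List (List (List ℤ))} {Qm : List (List ℤ)} {Sc : ℚ} {b : ℕ} {T : BRG.Tf} {Q : BRG.Qf}
    {g : (ℕ → ℂ) → ℕ → ℕ → ℝ} {q : (ℕ → ℂ) → ℕ → ℝ}
    (hT : ∀ (z : ℕ → ℂ) (u : ℤ → ℂ), u 0 = 1 → (∀ n, u (-n) = conj (u n)) → (BRG.e2 z u T).re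
      = ∑ k ∈ Finset.range R, ∑ j ∈ Finset.range (R - k), g z k j * (yv u k * yv u (k + j)))
    (hQ : ∀ (z : ℕ → ℂ) (Z : ℤ → ℂ), (∀ n, Z (-n) = conj (Z n)) → (BRG.eq2 z Z Q).re
      = ∑ k ∈ Finset.range R, q z k * Zv Z k)
    (hg : ∀ z, ∀ k < R, ∀ j < R - k, |Sc * g z k j - iz (w3 (z 0) (z 1) (z 2)) ((C.getD k []).getD j [])| ≤ b * nz z)
    (hq : ∀ z, ∀ k < R, |Sc * q z k - iz (w3 (z 0) (z 1) (z 2)) (Qm.getD k [])| ≤ b * nz z) :
    Near R C Qm Sc (b * (R * (R + 3) / 2)) T Q := by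
  intro z u Z h0 h1 h2 h3 h4
  rw [Complex.add_re, hT z u h0 h1, hQ z Z h2]
  have hn := nz_nonneg z
  have hy : ∀ k, |yv u k| ≤ 1 := fun k => by
    unfold yv
    split_ifs
    · simp
    · exact (Complex.abs_re_le_norm _).trans (h3 _)
    · exact (Complex.abs_im_le_norm _).trans (h3 _)
  have hY : ∀ k, |Zv Z k| ≤ 1 := fun k => by
    unfold Zv
    split_ifs
    · exact (Complex.abs_re_le_norm _).trans (h4 _)
    · exact (Complex.abs_re_le_norm _).trans (h4 _)
    · exact (Complex.abs_im_le_norm _).trans (h4 _)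
  have cnt : ∑ k ∈ Finset.range R, ((R - k : ℕ) : ℝ) = R * (R + 1) / 2 := by
    have : ∑ k ∈ Finset.range R, (R - k) = ∑ k ∈ Finset.range (R + 1), k := by
      rw [Finset.sum_range_succ' (fun k => k), ← Finset.sum_range_reflect]
      simp only [add_zero]
      refine Finset.sum_congr rfl fun k hk => ?_
      have := Finset.mem_range.1 hk
      omega
    have h5 : ∑ k ∈ Finset.range R, ((R - k : ℕ) : ℝ) = ((∑ k ∈ Finset.range (R + 1), k : ℕ) : ℝ) := by
      rw [← this]
      push_cast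
      rfl
    have h6 : (∑ k ∈ Finset.range (R + 1), k) * 2 = R * (R + 1) := by
      rw [Finset.sum_range_id_mul_two, Nat.add_sub_cancel, mul_comm]
    have h7 : ((∑ k ∈ Finset.range (R + 1), k : ℕ) : ℝ) * 2 = R * (R + 1) := by exact_mod_cast h6
    rw [h5]
    linarith
  have c1 : qC R (w3 (z 0) (z 1) (z 2)) C (yv u) - b * nz z * (R * (R + 1) / 2)
      ≤ Sc * ∑ k ∈ Finset.range R, ∑ j ∈ Finset.range (R - k), g z k j * (yv u k * yv u (k + j)) := by
    have e1 : Sc * (∑ k ∈ Finset.range R, ∑ j ∈ Finset.range (R - k), g z k j * (yv u k * yv u (k + j)))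
        - qC R (w3 (z 0) (z 1) (z 2)) C (yv u) = ∑ k ∈ Finset.range R, ∑ j ∈ Finset.range (R - k),
        (Sc * g z k j - iz (w3 (z 0) (z 1) (z 2)) ((C.getD k []).getD j [])) * (yv u k * yv u (k + j)) := by
      unfold qC
      simp only [Finset.mul_sum, ← Finset.sum_sub_distrib]
      exact Finset.sum_congr rfl fun k _ => Finset.sum_congr rfl fun j _ => by ring
    have e2 : ∑ k ∈ Finset.range R, ∑ j ∈ Finset.range (R - k), -(b * nz z) = -(b * nz z * (R * (R + 1) / 2)) := by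
      simp only [Finset.sum_const, Finset.card_range, nsmul_eq_mul]
      rw [← Finset.sum_mul, cnt]
      ring
    have e3 : ∑ k ∈ Finset.range R, ∑ j ∈ Finset.range (R - k), -(b * nz z)
        ≤ Sc * (∑ k ∈ Finset.range R, ∑ j ∈ Finset.range (R - k), g z k j * (yv u k * yv u (k + j)))
          - qC R (w3 (z 0) (z 1) (z 2)) C (yv u) := by
      rw [e1]
      refine Finset.sum_le_sum fun k hk => Finset.sum_le_sum fun j hj => ?_
      have a1 := hg z k (Finset.mem_range.1 hk) j (Finset.mem_range.1 hj)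
      have a2 : |yv u k * yv u (k + j)| ≤ 1 := by
        rw [abs_mul]
        exact mul_le_one₀ (hy k) (abs_nonneg _) (hy _)
      have a3 := mul_le_mul a1 a2 (abs_nonneg _) (by positivity)
      rw [← abs_mul, mul_one] at a3
      exact (abs_le.1 a3).1
    linarith
  have c2 : ∑ k ∈ Finset.range R, iz (w3 (z 0) (z 1) (z 2)) (Qm.getD k []) * Zv Z k - b * nz z * R
      ≤ Sc * ∑ k ∈ Finset.range R, q z k * Zv Z k := by
    have e1 : Sc * (∑ k ∈ Finset.range R, q z k * Zv Z k)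
        - ∑ k ∈ Finset.range R, iz (w3 (z 0) (z 1) (z 2)) (Qm.getD k []) * Zv Z k
        = ∑ k ∈ Finset.range R, (Sc * q z k - iz (w3 (z 0) (z 1) (z 2)) (Qm.getD k [])) * Zv Z k := by
      rw [Finset.mul_sum, ← Finset.sum_sub_distrib]
      exact Finset.sum_congr rfl fun k _ => by ring
    have e2 : ∑ k ∈ Finset.range R, -((b : ℝ) * nz z) = -(b * nz z * R) := by
      simp only [Finset.sum_const, Finset.card_range, nsmul_eq_mul]
      ring
    have e3 : ∑ k ∈ Finset.range R, -((b : ℝ) * nz z) ≤ Sc * (∑ k ∈ Finset.range R, q z k * Zv Z k)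
        - ∑ k ∈ Finset.range R, iz (w3 (z 0) (z 1) (z 2)) (Qm.getD k []) * Zv Z k := by
      rw [e1]
      refine Finset.sum_le_sum fun k hk => ?_
      have a1 := hq z k (Finset.mem_range.1 hk)
      have a3 := mul_le_mul a1 (hY k) (abs_nonneg _) (by positivity)
      rw [← abs_mul, mul_one] at a3
      exact (abs_le.1 a3).1
    linarith
  have hd : ((R * (R + 3) / 2 : ℕ) : ℝ) = R * (R + 1) / 2 + R := by
    have h5 : R * (R + 3) / 2 * 2 = R * (R + 3) := by
      refine Nat.div_mul_cancel ?_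
      rcases Nat.even_or_odd R with h | h
      · exact (h.two_dvd).mul_right _
      · exact ((h.add_odd (by decide : Odd 3)).two_dvd).mul_left _
    have h6 : ((R * (R + 3) / 2 : ℕ) : ℝ) * 2 = R * (R + 3) := by exact_mod_cast h5
    linarith
  have e : ((b * (R * (R + 3) / 2) : ℕ) : ℝ) * nz z = b * nz z * (R * (R + 1) / 2) + b * nz z * R := by
    rw [Nat.cast_mul, hd]
    ring
  rw [e]
  linarith

/-! ### rational tables against integer tables -/

/-- the form of a list of nine integers -/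
def ofL : List ℤ → H9
  | [a, b, c, d, e, f, g, h, i] => ⟨a, b, c, d, e, f, g, h, i⟩
  | _ => H9.zero

theorem ofL_ev {c : List ℤ} (h : c.length = 9) (z : ℕ → ℂ) :
    (ofL c).ev z = iz (w3 (z 0) (z 1) (z 2)) c := by
  rcases c with _ | ⟨a, _ | ⟨b, _ | ⟨c, _ | ⟨d, _ | ⟨e, _ | ⟨f, _ | ⟨g, _ | ⟨h', _ | ⟨i, _ | ⟨j, l⟩⟩⟩⟩⟩⟩⟩⟩⟩⟩ <;>
    simp at h
  rw [H9.ev_eq]
  unfold w3
  simp only [ofL, iz, Complex.normSq_apply, Complex.mul_re, Complex.mul_im, Complex.conj_re, Complex.conj_im]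
  push_cast
  ring

/-- comparison of two rows -/
def nearR (Sc : ℚ) : List H9 → List (List ℤ) → Bool
  | [], [] => true
  | h :: r, c :: s => Nat.beq c.length 9 && (NCA.near (h.sm Sc) (ofL c) 1 && nearR Sc r s)
  | _, _ => false

/-- comparison of two tables -/
def nearT (Sc : ℚ) : List (List H9) → List (List (List ℤ)) → Bool
  | [], [] => true
  | r :: T, s :: C => nearR Sc r s && nearT Sc T C
  | _, _ => false

theorem nearR_ev {Sc : ℚ} (z : ℕ → ℂ) : ∀ (r : List H9) (s : List (List ℤ)), nearR Sc r s = true → ∀ j,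
    |Sc * (r.getD j H9.zero).ev z - iz (w3 (z 0) (z 1) (z 2)) (s.getD j [])| ≤ 5 * nz z
  | [], [], _, j => by
    have := nz_nonneg z
    simp [iz_nil]
    linarith
  | h :: r, c :: s, hh, j => by
    simp only [nearR, Bool.and_eq_true] at hh
    obtain ⟨h1, h2, h3⟩ := hh
    cases j with
    | zero =>
      have k := NCA.near_ev h2 z
      rw [H9.ev_sm, ofL_ev (Nat.eq_of_beq_eq_true h1)] at k
      simp only [List.getD_cons_zero]
      unfold nz
      refine k.trans (le_of_eq ?_)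
      push_cast
      ring
    | succ j =>
      simp only [List.getD_cons_succ]
      exact nearR_ev z r s h3 j
  | [], _ :: _, hh, _ => by simp [nearR] at hh
  | _ :: _, [], hh, _ => by simp [nearR] at hh

theorem nearT_ev {Sc : ℚ} (z : ℕ → ℂ) : ∀ (T : List (List H9)) (C : List (List (List ℤ))), nearT Sc T C = true →
    ∀ k j, |Sc * (getH T k j).ev z - iz (w3 (z 0) (z 1) (z 2)) ((C.getD k []).getD j [])| ≤ 5 * nz z
  | [], [], _, k, j => by
    have := nz_nonneg z
    simp [iz_nil, getH]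
    linarith
  | r :: T, s :: C, hh, k, j => by
    simp only [nearT, Bool.and_eq_true] at hh
    obtain ⟨h1, h2⟩ := hh
    cases k with
    | zero =>
      have := nearR_ev z r s h1 j
      simpa [getH] using this
    | succ k =>
      have := nearT_ev z T C h2 k j
      simpa [getH] using this
  | [], _ :: _, hh, _, _ => by simp [nearT] at hh
  | _ :: _, [], hh, _, _ => by simp [nearT] at hh

/-- the instance of helper87's expansion, tables of size nine -/
theorem near9 {C : List (List (List ℤ))} {Qm : List (List ℤ)} {Sc : ℚ} {T : BRG.Tf} {Q : BRG.Qf} (okt : okT T = true)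
    (okq : okQ Q = true) (nT : nearT Sc (tT T) C = true) (nQ : nearR Sc (tQ Q) Qm = true) : Near 9 C Qm Sc 270 T Q :=
  near_of (b := 5) (g := fun z k j => (getH (tT T) k j).ev z) (q := fun z k => ((tQ Q).getD k H9.zero).ev z)
    (fun z u h0 hu => NCA.tT_ev (z := z) h0 hu okt) (fun z Z hZ => NCA.tQ_ev (z := z) hZ okq)
    (fun z k _ j _ => by
      have := nearT_ev z _ _ nT k j
      exact_mod_cast this) fun z k _ => by
      have := nearR_ev z _ _ nQ k
      exact_mod_cast this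

end Pool.Agent.FPX.NCD
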