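import Mathlib
import Pool.Agent.FPX.NCI
import Pool.Agent.FPX.NCN

/-
NCR (helper87): fast check of helper39's comparison `NCD.Near` for a list `BRG.Tf` with `R` modes (`R = 9, 11, 13`):
after the packed canonical form (NCI) everything is done with integers.
-/

open Complex
open scoped ComplexConjugate

noncomputable section

namespace Pool.Agent.FPX.NCR

open Pool.Agent.FPX.NCA (H9 mdf mdf_length mdf_getD Sg md mdz yv Zv diff_ev iz_w3)
open Pool.Agent.FPX.NCI (okn okn_cases mi frN frN_eq zc zc_eq zc_eqC IX can elimP finT okFin lcL lcT lcC bdT okTf pkT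
  pkT_spec rowsOf rowsOf_eq toT toT_ev Wt mv e2_can)
open Pool.Agent.FPX.BRG (Lf Tf Qf e2 eq2)
open Pool.Agent.FPX.PLK (iz w3)
open Pool.Agent.FPX.NCD (nz Near near_of)

/-! ### integer forms -/

structure Z9 where
  a : ℤ
  b : ℤ
  c : ℤ
  r12 : ℤ
  i12 : ℤ
  r13 : ℤ
  i13 : ℤ
  r23 : ℤ
  i23 : ℤ

namespace Z9

def H (h : Z9) : H9 := ⟨h.a, h.b, h.c, h.r12, h.i12, h.r13, h.i13, h.r23, h.i23⟩

def ev (h : Z9) (z : ℕ → ℂ) : ℝ := h.H.ev z

def zero : Z9 := ⟨0, 0, 0, 0, 0, 0, 0, 0, 0⟩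

@[simp] theorem ev_zero (z : ℕ → ℂ) : zero.ev z = 0 := by
  unfold ev
  rw [H9.ev_eq]
  simp [zero, H]

/-- adds `2 w Re (z_a conj z_b)` -/
def addR (a b : ℕ) (w : ℤ) (h : Z9) : Z9 :=
  match h with
  | ⟨x0, x1, x2, x3, x4, x5, x6, x7, x8⟩ =>
    match a, b with
    | 0, 0 => ⟨Int.add x0 (Int.add w w), x1, x2, x3, x4, x5, x6, x7, x8⟩
    | 1, 1 => ⟨x0, Int.add x1 (Int.add w w), x2, x3, x4, x5, x6, x7, x8⟩
    | 2, 2 => ⟨x0, x1, Int.add x2 (Int.add w w), x3, x4, x5, x6, x7, x8⟩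
    | 0, 1 => ⟨x0, x1, x2, Int.add x3 w, x4, x5, x6, x7, x8⟩
    | 1, 0 => ⟨x0, x1, x2, Int.add x3 w, x4, x5, x6, x7, x8⟩
    | 0, 2 => ⟨x0, x1, x2, x3, x4, Int.add x5 w, x6, x7, x8⟩
    | 2, 0 => ⟨x0, x1, x2, x3, x4, Int.add x5 w, x6, x7, x8⟩
    | 1, 2 => ⟨x0, x1, x2, x3, x4, x5, x6, Int.add x7 w, x8⟩
    | 2, 1 => ⟨x0, x1, x2, x3, x4, x5, x6, Int.add x7 w, x8⟩
    | _, _ => ⟨x0, x1, x2, x3, x4, x5, x6, x7, x8⟩

/-- adds `2 w Im (z_a conj z_b)` -/
def addI (a b : ℕ) (w : ℤ) (h : Z9) : Z9 :=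
  match h with
  | ⟨x0, x1, x2, x3, x4, x5, x6, x7, x8⟩ =>
    match a, b with
    | 0, 1 => ⟨x0, x1, x2, x3, Int.add x4 w, x5, x6, x7, x8⟩
    | 1, 0 => ⟨x0, x1, x2, x3, Int.sub x4 w, x5, x6, x7, x8⟩
    | 0, 2 => ⟨x0, x1, x2, x3, x4, x5, Int.add x6 w, x7, x8⟩
    | 2, 0 => ⟨x0, x1, x2, x3, x4, x5, Int.sub x6 w, x7, x8⟩
    | 1, 2 => ⟨x0, x1, x2, x3, x4, x5, x6, x7, Int.add x8 w⟩
    | 2, 1 => ⟨x0, x1, x2, x3, x4, x5, x6, x7, Int.sub x8 w⟩
    | _, _ => ⟨x0, x1, x2, x3, x4, x5, x6, x7, x8⟩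

theorem addR_ev {z : ℕ → ℂ} {a b : ℕ} (ha : a < 3) (hb : b < 3) (w : ℤ) (h : Z9) :
    (h.addR a b w).ev z = h.ev z + 2 * w * (z a * conj (z b)).re := by
  unfold ev
  rw [H9.ev_eq, H9.ev_eq]
  rcases h with ⟨x0, x1, x2, x3, x4, x5, x6, x7, x8⟩
  have ea : ∀ x y : ℤ, Int.add x y = x + y := fun _ _ => rfl
  interval_cases a <;> interval_cases b <;>
    simp only [addR, H, ea, Complex.mul_re, Complex.conj_re, Complex.conj_im] <;> push_cast <;> ring

theorem addI_ev {z : ℕ → ℂ} {a b : ℕ} (ha : a < 3) (hb : b < 3) (w : ℤ) (h : Z9) :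
    (h.addI a b w).ev z = h.ev z + 2 * w * (z a * conj (z b)).im := by
  unfold ev
  rw [H9.ev_eq, H9.ev_eq]
  rcases h with ⟨x0, x1, x2, x3, x4, x5, x6, x7, x8⟩
  have ea : ∀ x y : ℤ, Int.add x y = x + y := fun _ _ => rfl
  have es : ∀ x y : ℤ, Int.sub x y = x - y := fun _ _ => rfl
  interval_cases a <;> interval_cases b <;>
    simp only [addI, H, ea, es, Complex.mul_im, Complex.conj_re, Complex.conj_im] <;> push_cast <;> ring

end Z9

/-! ### modes -/

def sz (s : Sg) (w : ℤ) : ℤ :=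
  match s with
  | .z => 0
  | .p => w
  | .n => Int.neg w

theorem sz_cast (s : Sg) (w : ℤ) : ((sz s w : ℤ) : ℝ) = s.r * w := by
  have en : ∀ x : ℤ, Int.neg x = -x := fun _ => rfl
  cases s <;> simp [sz, Sg.r, en]

/-- modes `0, ±3, …` with `|n| ≤ R` -/
def okm (R : ℕ) (n : ℤ) : Bool := okn n && Nat.ble (n.natAbs) R

theorem md_fst (n : ℤ) : (md n).1 = n.natAbs - 2 := by
  rcases n with (_ | k) | k
  · rfl
  · show k - 1 = (k + 1) - 2
    omega
  · show k - 1 = (k + 1) - 2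
    omega

theorem md_lt {R : ℕ} {n : ℤ} (hR : 9 ≤ R) (h : okm R n = true) : (md n).1 + 1 < R := by
  simp only [okm, Bool.and_eq_true, Nat.ble_eq] at h
  rw [md_fst]
  omega

theorem um {u : ℤ → ℂ} (h0 : u 0 = 1) (hu : ∀ n, u (-n) = conj (u n)) {n : ℤ} (h : okn n = true) :
    u n = (yv u (md n).1 : ℂ) + ((md n).2.r : ℂ) * (yv u ((md n).1 + 1) : ℂ) * I := by
  have key : ∀ m : ℤ, u m = ((u m).re : ℂ) + (1 : ℝ) * ((u m).im : ℂ) * I := fun m => by
    rw [Complex.ofReal_one, one_mul]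
    exact (Complex.re_add_im _).symm
  have key2 : ∀ m : ℤ, u (-m) = ((u m).re : ℂ) + (-1 : ℝ) * ((u m).im : ℂ) * I := fun m => by
    rw [hu]
    apply Complex.ext <;> simp
  rcases okn_cases h with h | h | h | h | h | h | h | h | h | h | h | h | h <;> rw [h]
  · rw [h0]
    simp [md, yv, Sg.r]
  · exact key 3
  · exact key2 3
  · exact key 5
  · exact key2 5
  · exact key 7
  · exact key2 7
  · exact key 9
  · exact key2 9
  · exact key 11
  · exact key2 11
  · exact key 13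
  · exact key2 13

/-! ### tables -/

abbrev Tb := List (List Z9)

def getZ (tab : Tb) (k j : ℕ) : Z9 := (tab.getD k []).getD j Z9.zero

def up (k l : ℕ) (f : Z9 → Z9) (tab : Tb) : Tb :=
  match Nat.ble k l with
  | true => mdf (fun r => mdf f r (l - k)) tab k
  | false => mdf (fun r => mdf f r (k - l)) tab l

def Shp (R : ℕ) (tab : Tb) : Prop := tab.length = R ∧ ∀ k < R, (tab.getD k []).length = R - k

theorem Shp.mdf {R : ℕ} {tab : Tb} (h : Shp R tab) (g : List Z9 → List Z9) (hg : ∀ r, (g r).length = r.length)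
    (k : ℕ) : Shp R (mdf g tab k) := by
  refine ⟨by rw [mdf_length]; exact h.1, fun i hi => ?_⟩
  by_cases hk : k < tab.length
  · rw [mdf_getD _ _ _ _ hk]
    split_ifs with e
    · rw [hg]
      exact h.2 i hi
    · exact h.2 i hi
  · have : NCA.mdf g tab k = tab := by
      clear h hi
      induction tab generalizing k with
      | nil => rfl
      | cons a l ih =>
        rcases k with _ | k
        · simp at hk
        · simp only [NCA.mdf]
          rw [ih k (by simpa using hk)]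
    rw [this]
    exact h.2 i hi

theorem Shp.up {R : ℕ} {tab : Tb} (h : Shp R tab) (k l : ℕ) (f : Z9 → Z9) : Shp R (up k l f tab) := by
  unfold NCR.up
  split
  · exact h.mdf _ (fun r => mdf_length f r _) _
  · exact h.mdf _ (fun r => mdf_length f r _) _

/-- the form of a table -/
def qZ (R : ℕ) (z : ℕ → ℂ) (tab : Tb) (y : ℕ → ℝ) : ℝ :=
  ∑ k ∈ Finset.range R, ∑ j ∈ Finset.range (R - k), (getZ tab k j).ev z * (y k * y (k + j))

theorem getZ_mdf {R : ℕ} {tab : Tb} (h : Shp R tab) (f : Z9 → Z9) {k0 j0 : ℕ} (hk : k0 < R) (hj : j0 < R - k0)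
    (k j : ℕ) : getZ (mdf (fun r => mdf f r j0) tab k0) k j =
      if k = k0 ∧ j = j0 then f (getZ tab k j) else getZ tab k j := by
  unfold getZ
  rw [mdf_getD _ _ _ _ (by rw [h.1]; exact hk)]
  by_cases e : k = k0
  · rw [if_pos e, mdf_getD _ _ _ _ (by rw [e, h.2 k0 hk]; exact hj)]
    simp [e]
  · rw [if_neg e, if_neg (fun h => e h.1)]

theorem qZ_mdf {R : ℕ} {z : ℕ → ℂ} {tab : Tb} (h : Shp R tab) {f : Z9 → Z9} {v : ℝ}
    (hf : ∀ x, (f x).ev z = x.ev z + v) {k0 j0 : ℕ} (hk : k0 < R) (hj : j0 < R - k0) (y : ℕ → ℝ) :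
    qZ R z (mdf (fun r => mdf f r j0) tab k0) y = qZ R z tab y + v * (y k0 * y (k0 + j0)) := by
  have e : ∀ k j, (getZ (mdf (fun r => mdf f r j0) tab k0) k j).ev z * (y k * y (k + j)) =
      (getZ tab k j).ev z * (y k * y (k + j)) + if k = k0 then (if j = j0 then v * (y k * y (k + j)) else 0) else 0 := by
    intro k j
    rw [getZ_mdf h f hk hj]
    by_cases e1 : k = k0
    · by_cases e2 : j = j0
      · rw [if_pos ⟨e1, e2⟩, if_pos e1, if_pos e2, hf]
        ring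
      · rw [if_neg (fun h => e2 h.2), if_pos e1, if_neg e2, add_zero]
    · rw [if_neg (fun h => e1 h.1), if_neg e1, add_zero]
  unfold qZ
  simp only [e, Finset.sum_add_distrib]
  congr 1
  rw [Finset.sum_eq_single k0]
  · simp only [if_true]
    rw [Finset.sum_ite_eq' (Finset.range (R - k0)) j0, if_pos (Finset.mem_range.2 hj)]
  · intro k _ hne
    simp [hne]
  · intro hn
    exact absurd (Finset.mem_range.2 hk) hn

theorem qZ_up {R : ℕ} {z : ℕ → ℂ} {tab : Tb} (h : Shp R tab) {f : Z9 → Z9} {v : ℝ}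
    (hf : ∀ x, (f x).ev z = x.ev z + v) {k l : ℕ} (hk : k < R) (hl : l < R) (y : ℕ → ℝ) :
    qZ R z (up k l f tab) y = qZ R z tab y + v * (y k * y l) := by
  unfold up
  split
  next hb =>
    have hkl : k ≤ l := Nat.le_of_ble_eq_true hb
    rw [qZ_mdf h hf hk (by omega) y]
    rw [show k + (l - k) = l by omega]
  next hb =>
    have hkl : ¬ k ≤ l := fun hh => by
      rw [Nat.ble_eq_true_of_le hh] at hb
      exact Bool.noConfusion hb
    rw [qZ_mdf h hf hl (by omega) y]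
    rw [show l + (k - l) = k by omega, mul_comm (y l)]

/-! ### forcing -/

def frH {β : Type} (h : Z9) (k : Z9 → β) : β :=
  match h with
  | ⟨x0, x1, x2, x3, x4, x5, x6, x7, x8⟩ => k ⟨x0, x1, x2, x3, x4, x5, x6, x7, x8⟩

theorem frH_eq {β : Type} (h : Z9) (k : Z9 → β) : frH h k = k h := by
  cases h
  rfl

def frR {β : Type} : List Z9 → (List Z9 → β) → β
  | [], k => k []
  | h :: t, k => frH h fun h' => frR t fun t' => k (h' :: t')

theorem frR_eq {β : Type} : ∀ (l : List Z9) (k : List Z9 → β), frR l k = k l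
  | [], _ => rfl
  | h :: t, k => by simp only [frR, frH_eq, frR_eq t]

def frT {β : Type} : Tb → (Tb → β) → β
  | [], k => k []
  | h :: t, k => frR h fun h' => frT t fun t' => k (h' :: t')

theorem frT_eq {β : Type} : ∀ (l : Tb) (k : Tb → β), frT l k = k l
  | [], _ => rfl
  | h :: t, k => by simp only [frT, frR_eq, frT_eq t]

/-! ### expansion of lists with integer entries -/

def e2R (a b k l : ℕ) (s s' : Sg) (w : ℤ) (tab : Tb) : Tb :=
  match s, s' with
  | .z, _ => tab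
  | _, .z => tab
  | s, s' => up (k + 1) (l + 1) (Z9.addR a b (sz s (sz s' w))) tab

def e3I (a b k l : ℕ) (s : Sg) (w : ℤ) (tab : Tb) : Tb :=
  match s with
  | .z => tab
  | s => up (k + 1) l (Z9.addI a b (Int.neg (sz s w))) tab

def e4I (a b k l : ℕ) (s' : Sg) (w : ℤ) (tab : Tb) : Tb :=
  match s' with
  | .z => tab
  | s' => up k (l + 1) (Z9.addI a b (sz s' w)) tab

/-- adds the monomial `w (z_a u_n) conj (z_b u_m)` (twice the real part) -/
def ms (a : ℕ) (n : ℤ) (b : ℕ) (m : ℤ) (w : ℤ) (tab : Tb) : Tb :=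
  match md n, md m with
  | (k, s), (l, s') =>
    match Nat.beq a b with
    | true => e2R a b k l s s' w (up k l (Z9.addR a b w) tab)
    | false => e4I a b k l s' w (e3I a b k l s w (e2R a b k l s s' w (up k l (Z9.addR a b w) tab)))

def inner (a : ℕ) (n : ℤ) (cq : ℤ) : Lf → Tb → Tb
  | [], tab => tab
  | t :: l, tab => inner a n cq l (ms a n t.2.1 t.2.2 (Int.mul cq t.1.num) tab)

def outer {β : Type} (c : ℤ) (l' : Lf) : Lf → Tb → (Tb → β) → β
  | [], tab, k => k tab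
  | t :: l, tab, k => frT (inner t.2.1 t.2.2 (Int.mul c t.1.num) l' tab) fun tab' => outer c l' l tab' k

def goT : Tf → Tb → Tb
  | [], tab => tab
  | t :: T, tab => outer t.1.num t.2.2 t.2.1 tab fun tab' => goT T tab'

def tab0 : ℕ → Tb
  | 0 => []
  | R + 1 => List.replicate (R + 1) Z9.zero :: tab0 R

/-- twice the table of a list with integer entries -/
def tZ (R : ℕ) (T : Tf) : Tb := goT T (tab0 R)

/-- integer entries, components `< 3`, modes `|n| ≤ R` -/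
def okL (R : ℕ) (l : Lf) : Bool := l.all fun t => Nat.beq t.1.den 1 && (Nat.blt t.2.1 3 && okm R t.2.2)

def okZ (R : ℕ) (T : Tf) : Bool := T.all fun t => Nat.beq t.1.den 1 && (okL R t.2.1 && okL R t.2.2)

theorem den1 {q : ℚ} (h : Nat.beq q.den 1 = true) : (q : ℂ) = (q.num : ℂ) := by
  have h := Nat.eq_of_beq_eq_true h
  have : q = q.num := by
    rw [Rat.coe_int_num_of_den_eq_one h]
  exact_mod_cast congrArg (fun x : ℚ => (x : ℂ)) this

section exp

variable {R : ℕ} (hR : 9 ≤ R) {z : ℕ → ℂ} {u : ℤ → ℂ} (h0 : u 0 = 1) (hu : ∀ n, u (-n) = conj (u n))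

theorem e2R_ev {a b k l : ℕ} (ha : a < 3) (hb : b < 3) (hk : k + 1 < R) (hl : l + 1 < R) (s s' : Sg) (w : ℤ)
    {tab : Tb} (h : Shp R tab) (y : ℕ → ℝ) : Shp R (e2R a b k l s s' w tab) ∧
    qZ R z (e2R a b k l s s' w tab) y = qZ R z tab y
      + 2 * w * (z a * conj (z b)).re * (s.r * s'.r * (y (k + 1) * y (l + 1))) := by
  have key : ∀ s s' : Sg, qZ R z (up (k + 1) (l + 1) (Z9.addR a b (sz s (sz s' w))) tab) y = qZ R z tab y
      + 2 * w * (z a * conj (z b)).re * (s.r * s'.r * (y (k + 1) * y (l + 1))) := by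
    intro s s'
    rw [qZ_up h (fun x => Z9.addR_ev ha hb _ x) hk hl, sz_cast, sz_cast]
    ring
  cases s <;> cases s'
  case z.z => exact ⟨h, by simp [e2R, Sg.r]⟩
  case z.p => exact ⟨h, by simp [e2R, Sg.r]⟩
  case z.n => exact ⟨h, by simp [e2R, Sg.r]⟩
  case p.z => exact ⟨h, by simp [e2R, Sg.r]⟩
  case n.z => exact ⟨h, by simp [e2R, Sg.r]⟩
  case p.p => exact ⟨h.up _ _ _, key .p .p⟩
  case p.n => exact ⟨h.up _ _ _, key .p .n⟩
  case n.p => exact ⟨h.up _ _ _, key .n .p⟩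
  case n.n => exact ⟨h.up _ _ _, key .n .n⟩

theorem e3I_ev {a b k l : ℕ} (ha : a < 3) (hb : b < 3) (hk : k + 1 < R) (hl : l < R) (s : Sg) (w : ℤ)
    {tab : Tb} (h : Shp R tab) (y : ℕ → ℝ) : Shp R (e3I a b k l s w tab) ∧
    qZ R z (e3I a b k l s w tab) y = qZ R z tab y - 2 * w * (z a * conj (z b)).im * (s.r * (y (k + 1) * y l)) := by
  have en : ∀ x : ℤ, Int.neg x = -x := fun _ => rfl
  have key : ∀ s : Sg, qZ R z (up (k + 1) l (Z9.addI a b (Int.neg (sz s w))) tab) y = qZ R z tab y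
      - 2 * w * (z a * conj (z b)).im * (s.r * (y (k + 1) * y l)) := by
    intro s
    rw [qZ_up h (fun x => Z9.addI_ev ha hb _ x) hk hl, en, Int.cast_neg, sz_cast]
    ring
  cases s
  case z => exact ⟨h, by simp [e3I, Sg.r]⟩
  case p => exact ⟨h.up _ _ _, key .p⟩
  case n => exact ⟨h.up _ _ _, key .n⟩

theorem e4I_ev {a b k l : ℕ} (ha : a < 3) (hb : b < 3) (hk : k < R) (hl : l + 1 < R) (s : Sg) (w : ℤ)
    {tab : Tb} (h : Shp R tab) (y : ℕ → ℝ) : Shp R (e4I a b k l s w tab) ∧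
    qZ R z (e4I a b k l s w tab) y = qZ R z tab y + 2 * w * (z a * conj (z b)).im * (s.r * (y k * y (l + 1))) := by
  have key : ∀ s : Sg, qZ R z (up k (l + 1) (Z9.addI a b (sz s w)) tab) y = qZ R z tab y
      + 2 * w * (z a * conj (z b)).im * (s.r * (y k * y (l + 1))) := by
    intro s
    rw [qZ_up h (fun x => Z9.addI_ev ha hb _ x) hk hl, sz_cast]
    ring
  cases s
  case z => exact ⟨h, by simp [e4I, Sg.r]⟩
  case p => exact ⟨h.up _ _ _, key .p⟩
  case n => exact ⟨h.up _ _ _, key .n⟩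

include hR h0 hu in
theorem ms_ev {a b : ℕ} {n m : ℤ} (ha : a < 3) (hb : b < 3) (hn : okm R n = true) (hm : okm R m = true) (w : ℤ)
    {tab : Tb} (h : Shp R tab) : Shp R (ms a n b m w tab) ∧
    qZ R z (ms a n b m w tab) (yv u) = qZ R z tab (yv u) + 2 * ((w : ℂ) * (z a * u n * conj (z b * u m))).re := by
  have hk := md_lt hR hn
  have hl := md_lt hR hm
  have on : okn n = true := by
    unfold okm at hn
    rw [Bool.and_eq_true] at hn
    exact hn.1
  have om : okn m = true := by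
    unfold okm at hm
    rw [Bool.and_eq_true] at hm
    exact hm.1
  have en := um h0 hu on
  have em := um h0 hu om
  unfold ms
  rcases hd : md n with ⟨k, s⟩
  rcases hd' : md m with ⟨l, s'⟩
  rw [hd] at hk en
  rw [hd'] at hl em
  simp only at hk hl en em ⊢
  have h1 : Shp R (up k l (Z9.addR a b w) tab) := h.up _ _ _
  have q1 := qZ_up (z := z) h (fun x => Z9.addR_ev ha hb w x) (show k < R by omega) (show l < R by omega) (yv u)
  obtain ⟨h2, q2⟩ := e2R_ev (z := z) ha hb hk hl s s' w h1 (yv u)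
  obtain ⟨h3, q3⟩ := e3I_ev (z := z) ha hb hk (show l < R by omega) s w h2 (yv u)
  obtain ⟨h4, q4⟩ := e4I_ev (z := z) ha hb (show k < R by omega) hl s' w h3 (yv u)
  have e : 2 * ((w : ℂ) * (z a * u n * conj (z b * u m))).re =
      2 * w * (z a * conj (z b)).re * (yv u k * yv u l)
      + 2 * w * (z a * conj (z b)).re * (s.r * s'.r * (yv u (k + 1) * yv u (l + 1)))
      - 2 * w * (z a * conj (z b)).im * (s.r * (yv u (k + 1) * yv u l))
      + 2 * w * (z a * conj (z b)).im * (s'.r * (yv u k * yv u (l + 1))) := by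
    rw [en, em]
    simp only [map_mul, map_add, Complex.mul_re, Complex.mul_im, Complex.add_re, Complex.add_im, Complex.I_re,
      Complex.I_im, Complex.conj_re, Complex.conj_im, Complex.ofReal_re, Complex.ofReal_im, Complex.intCast_re,
      Complex.intCast_im]
    ring
  rw [e]
  split
  next hab =>
    have hab' : a = b := Nat.eq_of_beq_eq_true hab
    refine ⟨h2, ?_⟩
    rw [q2, q1]
    have hi : (z a * conj (z b)).im = 0 := by
      rw [hab', Complex.mul_conj]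
      exact Complex.ofReal_im _
    rw [hi]
    ring
  next hab =>
    refine ⟨h4, ?_⟩
    rw [q4, q3, q2, q1]
    ring

theorem okL_cons {t : ℚ × ℕ × ℤ} {l : Lf} (h : okL R (t :: l) = true) :
    Nat.beq t.1.den 1 = true ∧ t.2.1 < 3 ∧ okm R t.2.2 = true ∧ okL R l = true := by
  unfold okL at h ⊢
  rw [List.all_cons, Bool.and_eq_true, Bool.and_eq_true, Bool.and_eq_true] at h
  exact ⟨h.1.1, Nat.le_of_ble_eq_true h.1.2.1, h.1.2.2, h.2⟩

include hR h0 hu in
theorem inner_ev {a : ℕ} {n : ℤ} (ha : a < 3) (hn : okm R n = true) (cq : ℤ) (l : Lf) (hl : okL R l = true)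
    {tab : Tb} (h : Shp R tab) : Shp R (inner a n cq l tab) ∧
    qZ R z (inner a n cq l tab) (yv u) = qZ R z tab (yv u) + 2 * ((cq : ℂ) * (z a * u n * conj (BRG.ev z u l))).re := by
  induction l generalizing tab with
  | nil => exact ⟨h, by simp [inner]⟩
  | cons t l ih =>
    obtain ⟨d1, c1, c2, c3⟩ := okL_cons hl
    obtain ⟨h1, q1⟩ := ms_ev (z := z) hR h0 hu ha c1 hn c2 (Int.mul cq t.1.num) h
    obtain ⟨h2, q2⟩ := ih c3 h1
    refine ⟨h2, ?_⟩
    unfold inner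
    rw [q2, q1, add_assoc, ← mul_add, ← Complex.add_re]
    congr 3
    have hc : conj ((t.1 : ℚ) : ℂ) = ((t.1 : ℚ) : ℂ) := map_ratCast _ _
    have em : ((Int.mul cq t.1.num : ℤ) : ℂ) = (cq : ℂ) * (t.1 : ℂ) := by
      rw [den1 d1]
      exact_mod_cast rfl
    rw [em]
    simp only [BRG.ev_cons, map_add, map_mul, hc]
    ring

include hR h0 hu in
theorem outer_ev {β : Type} (c : ℤ) (l' : Lf) (hl' : okL R l' = true) (l : Lf) (hl : okL R l = true)
    {tab : Tb} (h : Shp R tab) (k : Tb → β) : ∃ tab', outer c l' l tab k = k tab' ∧ Shp R tab' ∧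
    qZ R z tab' (yv u) = qZ R z tab (yv u) + 2 * ((c : ℂ) * (BRG.ev z u l * conj (BRG.ev z u l'))).re := by
  induction l generalizing tab with
  | nil => exact ⟨tab, rfl, h, by simp⟩
  | cons t l ih =>
    obtain ⟨d1, c1, c2, c3⟩ := okL_cons hl
    obtain ⟨h1, q1⟩ := inner_ev (z := z) hR h0 hu c1 c2 (Int.mul c t.1.num) l' hl' h
    obtain ⟨tab', e, h2, q2⟩ := ih c3 h1
    refine ⟨tab', ?_, h2, ?_⟩
    · unfold outer
      rw [frT_eq]
      exact e
    · rw [q2, q1, add_assoc, ← mul_add, ← Complex.add_re]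
      congr 3
      have em : ((Int.mul c t.1.num : ℤ) : ℂ) = (c : ℂ) * (t.1 : ℂ) := by
        rw [den1 d1]
        exact_mod_cast rfl
      rw [em]
      simp only [BRG.ev_cons]
      ring

include hR h0 hu in
theorem goT_ev (T : Tf) (hT : okZ R T = true) {tab : Tb} (h : Shp R tab) :
    Shp R (goT T tab) ∧ qZ R z (goT T tab) (yv u) = qZ R z tab (yv u) + 2 * (e2 z u T).re := by
  induction T generalizing tab with
  | nil => exact ⟨h, by simp [goT]⟩
  | cons t T ih =>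
    unfold okZ at hT
    rw [List.all_cons, Bool.and_eq_true, Bool.and_eq_true, Bool.and_eq_true] at hT
    obtain ⟨tab', e, h2, q2⟩ := outer_ev (z := z) hR h0 hu t.1.num t.2.2 hT.1.2.2 t.2.1 hT.1.2.1 h
      (fun tab' => goT T tab')
    obtain ⟨h3, q3⟩ := ih hT.2 h2
    unfold goT
    rw [e]
    refine ⟨h3, ?_⟩
    rw [q3, q2, BRG.e2_cons, Complex.add_re, den1 hT.1.1]
    ring

theorem shp_tab0 : ∀ R : ℕ, Shp R (tab0 R)
  | 0 => ⟨rfl, fun k hk => by omega⟩
  | R + 1 => by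
    obtain ⟨h1, h2⟩ := shp_tab0 R
    refine ⟨by simp [tab0, h1], fun k hk => ?_⟩
    rcases k with _ | k
    · simp [tab0]
    · have := h2 k (by omega)
      simp only [tab0, List.getD_cons_succ]
      rw [this]
      omega

theorem get_tab0 : ∀ R k j : ℕ, getZ (tab0 R) k j = Z9.zero
  | 0, k, j => by simp [getZ, tab0]
  | R + 1, 0, j => by
    simp only [getZ, tab0, List.getD_cons_zero]
    rw [List.getD_eq_getElem?_getD]
    rcases lt_or_ge j (R + 1) with h | h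
    · rw [List.getElem?_replicate_of_lt h]
      rfl
    · rw [List.getElem?_eq_none (by simpa using h)]
      rfl
  | R + 1, k + 1, j => by
    have := get_tab0 R k j
    simpa [getZ, tab0] using this

theorem qZ_tab0 (R : ℕ) (y : ℕ → ℝ) : qZ R z (tab0 R) y = 0 := by
  unfold qZ
  refine Finset.sum_eq_zero fun k _ => Finset.sum_eq_zero fun j _ => ?_
  rw [get_tab0, Z9.ev_zero, zero_mul]

include hR h0 hu in
theorem tZ_ev {T : Tf} (h : okZ R T = true) : Shp R (tZ R T) ∧ 2 * (e2 z u T).re = qZ R z (tZ R T) (yv u) := by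
  obtain ⟨h1, h2⟩ := goT_ev (z := z) hR h0 hu T h (shp_tab0 R)
  refine ⟨h1, ?_⟩
  unfold tZ
  rw [h2, qZ_tab0, zero_add]

end exp

/-! ### the terms with `x²` -/

/-- even modes `|n| < R` -/
def oke (R : ℕ) (n : ℤ) : Bool := Nat.beq (n.natAbs % 2) 0 && Nat.blt n.natAbs R

theorem mdz_fst (n : ℤ) : (mdz n).1 = n.natAbs - 1 := by
  rcases n with (_ | k) | k
  · rfl
  · show k = (k + 1) - 1
    omega
  · show k = (k + 1) - 1
    omega

theorem zm {Z : ℤ → ℂ} (hZ : ∀ n, Z (-n) = conj (Z n)) {n : ℤ} (h : n.natAbs % 2 = 0) :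
    Z n = (Zv Z (mdz n).1 : ℂ) + ((mdz n).2.r : ℂ) * (Zv Z ((mdz n).1 + 1) : ℂ) * I := by
  have key : ∀ k : ℕ, (k + 1) % 2 = 0 → Zv Z k = (Z ((k : ℤ) + 1)).re ∧ Zv Z (k + 1) = (Z ((k : ℤ) + 1)).im := by
    intro k hk
    have h1 : k ≠ 0 := by omega
    have h2 : k % 2 = 1 := by omega
    have h3 : ¬ (k + 1) % 2 = 1 := by omega
    unfold Zv
    rw [if_neg h1, if_pos h2, if_neg (by omega), if_neg h3]
    push_cast
    exact ⟨rfl, rfl⟩
  rcases n with (_ | k) | k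
  · have h1 := hZ 0
    rw [neg_zero] at h1
    have h2 : (Z 0).im = 0 := Complex.conj_eq_iff_im.1 h1.symm
    show Z 0 = _
    apply Complex.ext
    · simp [mdz, Zv, Sg.r]
    · simp [mdz, Sg.r, h2]
  · obtain ⟨e1, e2⟩ := key k h
    show Z ((k : ℤ) + 1) = ((Zv Z k : ℝ) : ℂ) + ((1 : ℝ) : ℂ) * ((Zv Z (k + 1) : ℝ) : ℂ) * I
    rw [e1, e2, Complex.ofReal_one, one_mul]
    exact (Complex.re_add_im _).symm
  · obtain ⟨e1, e2⟩ := key k h
    have e3 : Z (Int.negSucc k) = conj (Z ((k : ℤ) + 1)) := by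
      rw [← hZ]
      rfl
    show Z (Int.negSucc k) = ((Zv Z k : ℝ) : ℂ) + ((-1 : ℝ) : ℂ) * ((Zv Z (k + 1) : ℝ) : ℂ) * I
    rw [e3, e1, e2]
    apply Complex.ext <;> simp

def lZ (R : ℕ) (z : ℕ → ℂ) (r : List Z9) (Y : ℕ → ℝ) : ℝ := ∑ k ∈ Finset.range R, (r.getD k Z9.zero).ev z * Y k

theorem lZ_mdf {R : ℕ} {z : ℕ → ℂ} {r : List Z9} (h : r.length = R) {f : Z9 → Z9} {v : ℝ}
    (hf : ∀ x, (f x).ev z = x.ev z + v) {k0 : ℕ} (hk : k0 < R) (Y : ℕ → ℝ) :
    lZ R z (mdf f r k0) Y = lZ R z r Y + v * Y k0 := by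
  have e : ∀ k, ((mdf f r k0).getD k Z9.zero).ev z * Y k =
      (r.getD k Z9.zero).ev z * Y k + if k = k0 then v * Y k else 0 := by
    intro k
    rw [mdf_getD _ _ _ _ (by rw [h]; exact hk)]
    by_cases e1 : k = k0
    · rw [if_pos e1, if_pos e1, hf]
      ring
    · rw [if_neg e1, if_neg e1, add_zero]
  unfold lZ
  simp only [e, Finset.sum_add_distrib]
  rw [Finset.sum_ite_eq' (Finset.range R) k0, if_pos (Finset.mem_range.2 hk)]

def mqI (a b k : ℕ) (s : Sg) (w : ℤ) (r : List Z9) : List Z9 :=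
  match s with
  | .z => r
  | s => mdf (Z9.addI a b (Int.neg (sz s w))) r (k + 1)

/-- adds the term `w z_a conj z_b Z_n` (twice the real part) -/
def mq (a b : ℕ) (n : ℤ) (w : ℤ) (r : List Z9) : List Z9 :=
  match mdz n with
  | (k, s) => mqI a b k s w (mdf (Z9.addR a b w) r k)

def goQ (D : ℕ) : Qf → List Z9 → List Z9
  | [], r => r
  | t :: Q, r => frR (mq t.2.1 t.2.2.1 t.2.2.2 (zc D t.1) r) fun r' => goQ D Q r'

/-- `2 D` times the list of the terms with `x²` -/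
def tQZ (R D : ℕ) (Q : Qf) : List Z9 := goQ D Q (List.replicate R Z9.zero)

def okQZ (R D : ℕ) (Q : Qf) : Bool :=
  Q.all fun t => Nat.beq (D % t.1.den) 0 && (Nat.blt t.2.1 3 && (Nat.blt t.2.2.1 3 && oke R t.2.2.2))

theorem mq_ev {R : ℕ} (hR : 9 ≤ R) {z : ℕ → ℂ} {Z : ℤ → ℂ} (hZ : ∀ n, Z (-n) = conj (Z n)) {a b : ℕ} {n : ℤ}
    (ha : a < 3) (hb : b < 3) (hn : oke R n = true) (w : ℤ) {r : List Z9} (h : r.length = R) :
    (mq a b n w r).length = R ∧
    lZ R z (mq a b n w r) (Zv Z) = lZ R z r (Zv Z) + 2 * ((w : ℂ) * (z a * conj (z b) * Z n)).re := by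
  unfold oke at hn
  rw [Bool.and_eq_true, Nat.blt_eq] at hn
  have hn2 := Nat.eq_of_beq_eq_true hn.1
  have en := zm hZ hn2
  have hf := mdz_fst n
  have ene : ∀ x : ℤ, Int.neg x = -x := fun _ => rfl
  unfold mq
  rcases hd : mdz n with ⟨k, s⟩
  rw [hd] at hf en
  simp only at hf en ⊢
  have hk : k < R := by omega
  have hk1 : k + 1 < R := by omega
  have h1 : (mdf (Z9.addR a b w) r k).length = R := by rw [mdf_length]; exact h
  have q1 := lZ_mdf (z := z) h (fun x => Z9.addR_ev ha hb w x) hk (Zv Z)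
  have key : ∀ s : Sg, lZ R z (mdf (Z9.addI a b (Int.neg (sz s w))) (mdf (Z9.addR a b w) r k) (k + 1)) (Zv Z) =
      lZ R z (mdf (Z9.addR a b w) r k) (Zv Z) - 2 * w * (z a * conj (z b)).im * (s.r * Zv Z (k + 1)) := by
    intro s
    rw [lZ_mdf h1 (fun x => Z9.addI_ev ha hb _ x) hk1, ene, Int.cast_neg, sz_cast]
    ring
  have h2 : (mqI a b k s w (mdf (Z9.addR a b w) r k)).length = R ∧
      lZ R z (mqI a b k s w (mdf (Z9.addR a b w) r k)) (Zv Z) =
      lZ R z (mdf (Z9.addR a b w) r k) (Zv Z) - 2 * w * (z a * conj (z b)).im * (s.r * Zv Z (k + 1)) := by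
    clear en hd
    cases s
    · exact ⟨h1, by simp [mqI, Sg.r]⟩
    · exact ⟨(mdf_length _ _ _).trans h1, key .p⟩
    · exact ⟨(mdf_length _ _ _).trans h1, key .n⟩
  refine ⟨h2.1, ?_⟩
  rw [h2.2, q1, en]
  simp only [Complex.mul_re, Complex.mul_im, Complex.add_re, Complex.add_im, Complex.I_re,
    Complex.I_im, Complex.conj_re, Complex.conj_im, Complex.ofReal_re, Complex.ofReal_im, Complex.intCast_re,
    Complex.intCast_im]
  ring

theorem goQ_ev {R D : ℕ} (hR : 9 ≤ R) {z : ℕ → ℂ} {Z : ℤ → ℂ} (hZ : ∀ n, Z (-n) = conj (Z n)) (Q : Qf)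
    (hQ : okQZ R D Q = true) {r : List Z9} (h : r.length = R) :
    (goQ D Q r).length = R ∧ lZ R z (goQ D Q r) (Zv Z) = lZ R z r (Zv Z) + 2 * (D * (eq2 z Z Q).re) := by
  induction Q generalizing r with
  | nil => exact ⟨h, by simp [goQ]⟩
  | cons t Q ih =>
    unfold okQZ at hQ
    rw [List.all_cons, Bool.and_eq_true, Bool.and_eq_true, Bool.and_eq_true, Bool.and_eq_true] at hQ
    obtain ⟨⟨d1, c1, c2, c3⟩, hQ2⟩ := hQ
    obtain ⟨h2, q2⟩ := mq_ev (z := z) hR hZ (Nat.le_of_ble_eq_true c1) (Nat.le_of_ble_eq_true c2) c3 (zc D t.1) h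
    obtain ⟨h3, q3⟩ := ih hQ2 h2
    unfold goQ
    rw [frR_eq]
    refine ⟨h3, ?_⟩
    rw [q3, q2, BRG.eq2_cons, Complex.add_re, zc_eqC (Nat.eq_of_beq_eq_true d1)]
    have e : ((D : ℂ) * (t.1 : ℂ) * (z t.2.1 * conj (z t.2.2.1) * Z t.2.2.2)).re =
        D * ((t.1 : ℂ) * (z t.2.1 * conj (z t.2.2.1) * Z t.2.2.2)).re := by
      rw [mul_assoc, ← Complex.ofReal_natCast, Complex.re_ofReal_mul]
    rw [e]
    ring

theorem tQZ_ev {R D : ℕ} (hR : 9 ≤ R) {z : ℕ → ℂ} {Z : ℤ → ℂ} (hZ : ∀ n, Z (-n) = conj (Z n)) {Q : Qf}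
    (h : okQZ R D Q = true) : (tQZ R D Q).length = R ∧
    2 * (D * (eq2 z Z Q).re) = ∑ k ∈ Finset.range R, ((tQZ R D Q).getD k Z9.zero).ev z * Zv Z k := by
  obtain ⟨h1, h2⟩ := goQ_ev (z := z) hR hZ Q h (r := List.replicate R Z9.zero) List.length_replicate
  have h3 : lZ R z (List.replicate R Z9.zero) (Zv Z) = 0 := by
    unfold lZ
    refine Finset.sum_eq_zero fun k hk => ?_
    have hk := Finset.mem_range.1 hk
    rw [List.getD_eq_getElem?_getD, List.getElem?_replicate_of_lt hk]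
    simp
  rw [h3, zero_add] at h2
  exact ⟨h1, h2.symm⟩

/-! ### comparison -/

/-- `|S x / D - c| ≤ 1` -/
def nzz (x c : ℤ) (S D : ℕ) : Bool :=
  Nat.ble (Int.natAbs (Int.sub (Int.mul (Int.ofNat S) x) (Int.mul c (Int.ofNat D)))) D

theorem nzz_abs {x c : ℤ} {S D : ℕ} (hD : 0 < D) (h : nzz x c S D = true) :
    |(S : ℚ) / D * x - c| ≤ 1 := by
  have h1 : Int.natAbs ((S : ℤ) * x - c * (D : ℤ)) ≤ D := Nat.le_of_ble_eq_true h
  have h2 : |(S : ℤ) * x - c * (D : ℤ)| ≤ (D : ℤ) := by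
    rw [Int.abs_eq_natAbs]
    exact_mod_cast h1
  have h3 : |((S : ℚ) * x - c * (D : ℚ))| ≤ (D : ℚ) := by exact_mod_cast h2
  have hd : (0 : ℚ) < D := by exact_mod_cast hD
  have e : (S : ℚ) / D * x - c = ((S : ℚ) * x - c * (D : ℚ)) / D := by
    field_simp
  rw [e, abs_div, abs_of_pos hd, div_le_one hd]
  exact h3

def nearZ (h : Z9) (c : List ℤ) (S D : ℕ) : Bool :=
  match c with
  | [c0, c1, c2, c3, c4, c5, c6, c7, c8] =>
    nzz h.a c0 S D && (nzz h.b c1 S D && (nzz h.c c2 S D && (nzz h.r12 c3 S D && (nzz h.i12 c4 S D &&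
      (nzz h.r13 c5 S D && (nzz h.i13 c6 S D && (nzz h.r23 c7 S D && nzz h.i23 c8 S D)))))))
  | _ => false

theorem nearZ_ev {h : Z9} {c : List ℤ} {S D : ℕ} (hD : 0 < D) (hn : nearZ h c S D = true) (z : ℕ → ℂ) :
    |((S : ℚ) : ℝ) * (h.ev z / D) - iz (w3 (z 0) (z 1) (z 2)) c| ≤ (5 : ℕ) * nz z := by
  unfold nearZ at hn
  split at hn
  next c0 c1 c2 c3 c4 c5 c6 c7 c8 =>
    simp only [Bool.and_eq_true] at hn
    obtain ⟨k1, k2, k3, k4, k5, k6, k7, k8, k9⟩ := hn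
    have := diff_ev (h := h.H.sm ((S : ℚ) / D)) (k := ⟨c0, c1, c2, c3, c4, c5, c6, c7, c8⟩) (t := 1)
      (nzz_abs hD k1) (nzz_abs hD k2) (nzz_abs hD k3) (nzz_abs hD k4) (nzz_abs hD k5) (nzz_abs hD k6)
      (nzz_abs hD k7) (nzz_abs hD k8) (nzz_abs hD k9) z
    rw [iz_w3]
    rw [H9.ev_sm] at this
    have e : ((S : ℚ) : ℝ) * (h.ev z / D) = (((S : ℚ) / D : ℚ) : ℝ) * h.H.ev z := by
      unfold Z9.ev
      push_cast
      ring
    rw [e]
    refine this.trans ?_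
    unfold nz
    push_cast
    linarith
  next => exact absurd hn (by simp)

def cmp1 (S D : ℕ) : List Z9 → List (List ℤ) → Bool
  | [], _ => true
  | h :: r, c :: l => nearZ h c S D && cmp1 S D r l
  | _, _ => false

def cmp2 (S D : ℕ) : Tb → List (List (List ℤ)) → Bool
  | [], _ => true
  | h :: r, c :: l => cmp1 S D h c && cmp2 S D r l
  | _, _ => false

theorem cmp1_get {S D : ℕ} : ∀ {r : List Z9} {l : List (List ℤ)}, cmp1 S D r l = true →
    ∀ k, k < r.length → nearZ (r.getD k Z9.zero) (l.getD k []) S D = true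
  | [], _, _, _, hk => by simp at hk
  | _ :: _, [], h, _, _ => by simp [cmp1] at h
  | a :: r, c :: l, h, k, hk => by
    simp only [cmp1, Bool.and_eq_true] at h
    rcases k with _ | k
    · simpa using h.1
    · simpa using cmp1_get h.2 k (by simpa using hk)

theorem cmp2_get {S D : ℕ} : ∀ {r : Tb} {l : List (List (List ℤ))}, cmp2 S D r l = true →
    ∀ k, k < r.length → cmp1 S D (r.getD k []) (l.getD k []) = true
  | [], _, _, _, hk => by simp at hk
  | _ :: _, [], h, _, _ => by simp [cmp2] at h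
  | a :: r, c :: l, h, k, hk => by
    simp only [cmp2, Bool.and_eq_true] at h
    rcases k with _ | k
    · simpa using h.1
    · simpa using cmp2_get h.2 k (by simpa using hk)

/-- the packed canonical form with integer entries and its denominator -/
def canD (M : ℕ) (T : Tf) (k : ℕ → Tf → Bool) : Bool :=
  frN (lcC T) fun Dc => frN (lcT T) fun Dl => frN (bdT Dc Dl T) fun b => frN (Nat.log2 b + 2) fun e =>
    match okTf M Dc Dl T && (Nat.ble M 13 && (Nat.blt b (2 ^ (e - 1)) && (Nat.ble 1 e &&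
      Nat.ble 1 (Dc * (Dl * Dl))))) with
    | true => frN (Dc * (Dl * Dl)) fun D => k D (toT 1 (IX M) (IX M) (rowsOf e (3 * M + 2) (pkT M Dc Dl e T)))
    | false => false

theorem canD_spec {M : ℕ} {T : Tf} {k : ℕ → Tf → Bool} (h : canD M T k = true) :
    ∃ D T', k D T' = true ∧ 0 < D ∧ ∀ (z : ℕ → ℂ) (u : ℤ → ℂ), e2 z u T' = D * e2 z u T := by
  unfold canD at h
  rw [frN_eq, frN_eq, frN_eq, frN_eq] at h
  split at h
  next hc =>
    rw [frN_eq] at h
    simp only [Bool.and_eq_true, Nat.ble_eq, Nat.blt_eq] at hc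
    obtain ⟨h1, hM, h2, h3, h4⟩ := hc
    refine ⟨_, _, h, h4, fun z u => ?_⟩
    set Dc := lcC T
    set Dl := lcT T
    set b := bdT Dc Dl T with hb
    set e := Nat.log2 b + 2
    obtain ⟨R, r1, r2, r3, r4, r5⟩ := pkT_spec hM z u e T h1
    rw [r3, rowsOf_eq r1 r2 r4 h2 h3, toT_ev]
    have : mv (Wt M z u) (Wt M z u) R = (Dc : ℂ) * ((Dl : ℂ) * (Dl : ℂ)) * e2 z u T := r5.symm
    unfold Wt at this
    rw [this]
    push_cast
    ring
  next => exact absurd h (by simp)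

def lcQ : Qf → ℕ
  | [] => 1
  | t :: Q => Nat.lcm t.1.den (lcQ Q)

/-- comparison of the rank one terms -/
def nearT (R : ℕ) (T : Tf) (C : List (List (List ℤ))) (S : ℕ) : Bool :=
  canD R T fun D T' => okZ R T' && frN (2 * D) fun D2 => cmp2 S D2 (tZ R T') C

/-- comparison of the terms with `x²` -/
def nearQ (R : ℕ) (Q : Qf) (Qm : List (List ℤ)) (S : ℕ) : Bool :=
  frN (lcQ Q) fun D => Nat.ble 1 D && (okQZ R D Q && frN (2 * D) fun D2 => cmp1 S D2 (tQZ R D Q) Qm)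

/-- **comparison of a list with components `0, 1, 2` with the tables** -/
theorem near_ok {R : ℕ} (hR : 9 ≤ R) {T : Tf} {Q : Qf} {C : List (List (List ℤ))} {Qm : List (List ℤ)} {S : ℕ}
    (hT : nearT R T C S = true) (hQ : nearQ R Q Qm S = true) :
    Near R C Qm (S : ℚ) (5 * (R * (R + 3) / 2)) T Q := by
  obtain ⟨D, T', hk, hD, hv⟩ := canD_spec hT
  rw [frN_eq, Bool.and_eq_true] at hk
  unfold nearQ at hQ
  rw [frN_eq, frN_eq, Bool.and_eq_true, Bool.and_eq_true, Nat.ble_eq] at hQ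
  obtain ⟨o1, o2⟩ := hk
  obtain ⟨hE, p1, p2⟩ := hQ
  have hD2 : 0 < 2 * D := by omega
  have hE2 : 0 < 2 * lcQ Q := by omega
  have hDr : (0 : ℝ) < D := by exact_mod_cast hD
  have hEr : (0 : ℝ) < lcQ Q := by exact_mod_cast hE
  refine near_of (g := fun z k j => (getZ (tZ R T') k j).ev z / ((2 * D : ℕ) : ℝ))
    (q := fun z k => ((tQZ R (lcQ Q) Q).getD k Z9.zero).ev z / ((2 * lcQ Q : ℕ) : ℝ)) ?_ ?_ ?_ ?_
  · intro z u h0 hu
    have h1 := (tZ_ev (z := z) hR h0 hu o1).2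
    rw [hv z u] at h1
    have e : ((D : ℂ) * e2 z u T).re = D * (e2 z u T).re := by
      rw [← Complex.ofReal_natCast, Complex.re_ofReal_mul]
    rw [e] at h1
    have e2' : ∑ k ∈ Finset.range R, ∑ j ∈ Finset.range (R - k),
        (getZ (tZ R T') k j).ev z / ((2 * D : ℕ) : ℝ) * (yv u k * yv u (k + j)) =
        (1 / ((2 * D : ℕ) : ℝ)) * qZ R z (tZ R T') (yv u) := by
      unfold qZ
      simp only [Finset.mul_sum]
      exact Finset.sum_congr rfl fun k _ => Finset.sum_congr rfl fun j _ => by ring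
    rw [e2', ← h1]
    push_cast
    field_simp
  · intro z Z hZ
    have h1 := (tQZ_ev (z := z) hR hZ p1).2
    have e2' : ∑ k ∈ Finset.range R, ((tQZ R (lcQ Q) Q).getD k Z9.zero).ev z / ((2 * lcQ Q : ℕ) : ℝ) * Zv Z k =
        (1 / ((2 * lcQ Q : ℕ) : ℝ)) * ∑ k ∈ Finset.range R, ((tQZ R (lcQ Q) Q).getD k Z9.zero).ev z * Zv Z k := by
      rw [Finset.mul_sum]
      exact Finset.sum_congr rfl fun k _ => by ring
    rw [e2', ← h1]
    push_cast
    field_simp
  · intro z k hk j hj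
    have h1 := (tZ_ev (z := z) (u := fun _ => 1) hR rfl (fun n => by simp) o1).1
    refine nearZ_ev hD2 (cmp1_get (cmp2_get o2 k (by rw [h1.1]; exact hk)) j (by rw [h1.2 k hk]; exact hj)) z
  · intro z k hk
    have h1 := (tQZ_ev (z := z) (Z := fun _ => 1) hR (fun n => by simp) p1).1
    exact nearZ_ev hE2 (cmp1_get p2 k (by rw [h1]; exact hk)) z

/-! ### all at once -/

/-- the elimination and the comparison for a raw list `T` with the components `0 .. 4` -/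
def chkF (R : ℕ) (k3 k4 : ℚ) (T : Tf) (Q : Qf) (C : List (List (List ℤ))) (Qm : List (List ℤ)) (S : ℕ) : Bool :=
  Nat.ble 9 R && (okFin R k3 k4 T && (nearT R (elimP 4 k4 (elimP 3 k3 (can R T))) C S && nearQ R Q Qm S))

/-- **the comparison for the eliminated list** -/
theorem chkF_near {R : ℕ} {k3 k4 : ℚ} {T : Tf} {Q : Qf} {C : List (List (List ℤ))} {Qm : List (List ℤ)} {S : ℕ}
    (h : chkF R k3 k4 T Q C Qm S = true) : Near R C Qm (S : ℚ) (5 * (R * (R + 3) / 2)) (finT R k3 k4 T) Q := by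
  unfold chkF at h
  rw [Bool.and_eq_true, Bool.and_eq_true, Bool.and_eq_true, Nat.ble_eq] at h
  have := near_ok h.1 h.2.2.1 h.2.2.2
  intro z u Z h0 h1 h2 h3 h4
  have := this z u Z h0 h1 h2 h3 h4
  unfold finT
  rwa [e2_can]

/-- **positivity of the raw list** -/
theorem chkF_raw {R : ℕ} {k3 k4 : ℚ} {T : Tf} {Q : Qf} {C : List (List (List ℤ))} {Qm : List (List ℤ)} {S : ℕ}
    (h : chkF R k3 k4 T Q C Qm S = true) {u Z : ℤ → ℂ} (h0 : u 0 = 1)
    (hp : ∀ z : ℕ → ℂ, 0 ≤ (e2 z u (finT R k3 k4 T) + eq2 z Z Q).re) (z : ℕ → ℂ) :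
    0 ≤ (e2 z u T + eq2 z Z Q).re := by
  unfold chkF at h
  rw [Bool.and_eq_true, Bool.and_eq_true] at h
  have h1 := NCI.fin_le (z := z) h0 h.2.1
  have h2 := hp z
  rw [Complex.add_re] at h2 ⊢
  linarith

end Pool.Agent.FPX.NCR
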