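import Pool.Agent.FPX.NCK
import Pool.Agent.FPX.NCR

/-
NCL (helper19): ONE Boolean for the raw lists of a control point (any number of free components `z₃, z₄, …`), conclusion
`NCD.Near`: rank one terms by `NCK.chk`, terms with `x²` by helper87's `NCR.nearQ`.
-/

set_option autoImplicit false

open Complex Finset
open scoped ComplexConjugate

noncomputable section

namespace Pool.Agent.FPX.NCL

open BRG (Lf Tf Qf)
open NCA (yv Zv)
open NCD (nz nz_nonneg Near qC)
open PLK (iz w3)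

/-- the terms with `x²` -/
theorem q_low {R : ℕ} (hR : 9 ≤ R) {Q : Qf} {Qm : List (List ℤ)} {S : ℕ} (hQ : NCR.nearQ R Q Qm S = true)
    (z : ℕ → ℂ) {Z : ℤ → ℂ} (hZ : ∀ n, Z (-n) = conj (Z n)) (hb : ∀ n, ‖Z n‖ ≤ 1) :
    ∑ k ∈ range R, iz (w3 (z 0) (z 1) (z 2)) (Qm.getD k []) * Zv Z k - 5 * nz z * R ≤ S * (BRG.eq2 z Z Q).re := by
  unfold NCR.nearQ at hQ
  rw [NCI.frN_eq, NCI.frN_eq, Bool.and_eq_true, Bool.and_eq_true, Nat.ble_eq] at hQ
  obtain ⟨hE, p1, p2⟩ := hQ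
  set D := NCR.lcQ Q with hD
  have hE2 : 0 < 2 * D := by omega
  have hEr : (0 : ℝ) < D := by exact_mod_cast hE
  have h1 := NCR.tQZ_ev (z := z) hR hZ p1
  have hY : ∀ k, |Zv Z k| ≤ 1 := fun k => by
    unfold Zv
    split_ifs
    · exact (Complex.abs_re_le_norm _).trans (hb _)
    · exact (Complex.abs_re_le_norm _).trans (hb _)
    · exact (Complex.abs_im_le_norm _).trans (hb _)
  have e1 : (S : ℝ) * (BRG.eq2 z Z Q).re = ∑ k ∈ range R, (((S : ℚ) : ℝ) *
      (((NCR.tQZ R D Q).getD k NCR.Z9.zero).ev z / ((2 * D : ℕ) : ℝ))) * Zv Z k := by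
    have e2 : ∑ k ∈ range R, (((S : ℚ) : ℝ) * (((NCR.tQZ R D Q).getD k NCR.Z9.zero).ev z / ((2 * D : ℕ) : ℝ))) * Zv Z k =
        (S / ((2 * D : ℕ) : ℝ)) * ∑ k ∈ range R, ((NCR.tQZ R D Q).getD k NCR.Z9.zero).ev z * Zv Z k := by
      rw [Finset.mul_sum]
      refine Finset.sum_congr rfl fun k _ => ?_
      push_cast
      ring
    rw [e2, ← h1.2]
    push_cast
    field_simp
  rw [e1]
  have e3 : ∑ k ∈ range R, (-(5 * nz z)) = -(5 * nz z * R) := by
    simp only [Finset.sum_const, Finset.card_range, nsmul_eq_mul]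
    ring
  have e4 : ∑ k ∈ range R, (-(5 * nz z)) ≤ ∑ k ∈ range R, (((S : ℚ) : ℝ) *
      (((NCR.tQZ R D Q).getD k NCR.Z9.zero).ev z / ((2 * D : ℕ) : ℝ)) - iz (w3 (z 0) (z 1) (z 2)) (Qm.getD k []))
        * Zv Z k := by
    refine Finset.sum_le_sum fun k hk => ?_
    have hk := Finset.mem_range.1 hk
    have a1 := NCR.nearZ_ev hE2 (NCR.cmp1_get p2 k (by rw [h1.1]; exact hk)) z
    have hn := nz_nonneg z
    have a3 := mul_le_mul a1 (hY k) (abs_nonneg _) (by positivity)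
    rw [← abs_mul, mul_one] at a3
    have := (abs_le.1 a3).1
    push_cast at this ⊢
    linarith
  simp only [sub_mul, Finset.sum_sub_distrib] at e4
  linarith

/-- the number of pairs -/
theorem cnt (R : ℕ) : ∑ k ∈ range R, ((R - k : ℕ) : ℝ) = R * (R + 1) / 2 := by
  have : ∑ k ∈ range R, (R - k) = ∑ k ∈ range (R + 1), k := by
    rw [Finset.sum_range_succ' (fun k => k), ← Finset.sum_range_reflect]
    simp only [add_zero]
    refine Finset.sum_congr rfl fun k hk => ?_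
    have := Finset.mem_range.1 hk
    omega
  have h5 : ∑ k ∈ range R, ((R - k : ℕ) : ℝ) = ((∑ k ∈ range (R + 1), k : ℕ) : ℝ) := by
    rw [← this]
    push_cast
    rfl
  have h6 : (∑ k ∈ range (R + 1), k) * 2 = R * (R + 1) := by
    rw [Finset.sum_range_id_mul_two, Nat.add_sub_cancel, mul_comm]
  have h7 : ((∑ k ∈ range (R + 1), k : ℕ) : ℝ) * 2 = R * (R + 1) := by exact_mod_cast h6
  rw [h5]
  linarith

/-- the rank one terms -/
theorem t_low {R E D Dc w : ℕ} {Ls : List ℕ} {V : List (List ℤ)} {T : Tf} {C : List (List (List ℤ))} {S : ℕ}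
    (h : NCK.chk R E D Dc w Ls V T C S = true) (z : ℕ → ℂ) {u : ℤ → ℂ} (h0 : u 0 = 1)
    (hu : ∀ n, u (-n) = conj (u n)) (hb : ∀ n, ‖u n‖ ≤ 1) :
    qC R (w3 (z 0) (z 1) (z 2)) C (yv u) - 5 * nz z * (R * (R + 1) / 2) ≤ S * (BRG.e2 z u T).re := by
  have h1 := NCK.chk_ok h z u h0 hu
  have hy : ∀ k, |yv u k| ≤ 1 := fun k => by
    unfold yv
    split_ifs
    · simp
    · exact (Complex.abs_re_le_norm _).trans (hb _)
    · exact (Complex.abs_im_le_norm _).trans (hb _)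
  refine le_trans ?_ h1
  have hn := nz_nonneg z
  have e2 : ∑ k ∈ range R, ∑ j ∈ range (R - k), (5 * nz z) = 5 * nz z * (R * (R + 1) / 2) := by
    simp only [Finset.sum_const, Finset.card_range, nsmul_eq_mul]
    rw [← Finset.sum_mul, cnt]
    ring
  rw [← e2]
  unfold qC
  simp only [← Finset.sum_sub_distrib]
  refine Finset.sum_le_sum fun k _ => Finset.sum_le_sum fun j _ => ?_
  have a2 : |yv u k * yv u (k + j)| ≤ 1 := by
    rw [abs_mul]
    exact mul_le_one₀ (hy k) (abs_nonneg _) (hy _)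
  have a3 := mul_le_mul_of_nonneg_left a2 (by positivity : 0 ≤ 5 * nz z)
  linarith

/-- **the Boolean of a control point** -/
def chkN (R E D Dc w : ℕ) (Ls : List ℕ) (V : List (List ℤ)) (T : Tf) (Q : Qf) (C : List (List (List ℤ)))
    (Qm : List (List ℤ)) (S : ℕ) : Bool :=
  Nat.ble 9 R && (NCK.chk R E D Dc w Ls V T C S && NCR.nearQ R Q Qm S)

/-- **the raw lists against the tables** -/
theorem near_of_chkN {R E D Dc w : ℕ} {Ls : List ℕ} {V : List (List ℤ)} {T : Tf} {Q : Qf} {C : List (List (List ℤ))}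
    {Qm : List (List ℤ)} {S : ℕ} (h : chkN R E D Dc w Ls V T Q C Qm S = true) :
    Near R C Qm (S : ℚ) (5 * (R * (R + 3) / 2)) T Q := by
  unfold chkN at h
  rw [Bool.and_eq_true, Bool.and_eq_true, Nat.ble_eq] at h
  intro z u Z h0 h1 h2 h3 h4
  have c1 := t_low h.2.1 z h0 h1 h3
  have c2 := q_low h.1 h.2.2 z h2 h4
  have hd : ((R * (R + 3) / 2 : ℕ) : ℝ) = R * (R + 1) / 2 + R := by
    have h5 : R * (R + 3) / 2 * 2 = R * (R + 3) := by
      refine Nat.div_mul_cancel ?_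
      rcases Nat.even_or_odd R with h | h
      · exact (h.two_dvd).mul_right _
      · exact ((h.add_odd (by decide : Odd 3)).two_dvd).mul_left _
    have h6 : ((R * (R + 3) / 2 : ℕ) : ℝ) * 2 = R * (R + 3) := by exact_mod_cast h5
    linarith
  have e : ((5 * (R * (R + 3) / 2) : ℕ) : ℝ) * nz z = 5 * nz z * (R * (R + 1) / 2) + 5 * nz z * R := by
    rw [Nat.cast_mul, hd]
    push_cast
    ring
  rw [e, Complex.add_re]
  push_cast
  linarith

end Pool.Agent.FPX.NCL
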