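import Mathlib
import Pool.Agent.FPX.BWLR
import Pool.Agent.FPX.BWP
import Pool.Agent.FPX.MCP
import Pool.Agent.FPX.NCL

/-
ECT (helper11): one control point of the production class (forms `CofZ`, linear start map, weight with two parameters):
the data on the side of the lists (`CTD`), and the condition `CtlZ` of the latitude cells from `NN` (nonnegativity of the
lists on the class `St s'`, the common conclusion of the engines).
-/

open MeasureTheory Set Filter Topology Complex
open scoped ComplexConjugate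

noncomputable section

set_option linter.unusedSectionVars false
set_option linter.unusedSimpArgs false

namespace Pool.Agent.FPX.ECT

open Pool.Agent.FPX.BTN (va e1)
open Pool.Agent.FPX.ALX (St)
open Pool.Agent.FPX.BV (PsiL)
open Pool.Agent.FPX.BRG
open Pool.Agent.FPX.MCP (NN)

/-- a linear form from integers over `P` -/
def mkL (P : ℕ) (l : List (ℤ × ℕ × ℤ)) : Lf := l.map fun t => (mkRat t.1 P, t.2)

/-- **the data of a control point**: class `s`, parameter `mu`, `im` (at most `1 / (2 mu)`), weight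
`kap |1 + a e² + b e⁴|²`, control vectors `v`, `U`, multipliers `M` (integers over `P`) of the harmonics
`1, -1, 3, -3, 5, -5` -/
structure CTD where
  s : ℚ
  mu : ℚ
  im : ℚ
  a : ℚ
  b : ℚ
  kap : ℚ
  v : Fin 29 → ℚ
  U : Fin 24 → ℚ
  P : ℕ
  M : List (ℤ × List (ℤ × ℕ × ℤ))

/-- the form -/
def CTD.F (d : CTD) : Fm := FL d.v d.im d.U

/-- the multipliers -/
def CTD.mf (d : CTD) : ℤ → Lf := mfL (d.M.map fun p => (p.1, mkL d.P p.2))

/-- the rank one terms (components `0, …, 6`) -/
def CTD.T (d : CTD) : Tf := d.F.P0 d.mf d.a d.b d.kap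

/-- the terms with `x²` -/
def CTD.Q (d : CTD) : Qf := d.F.PQ d.a d.b d.kap

/-- the numerical conditions -/
def CTD.ok (d : CTD) : Bool :=
  decide (d.s ≤ 1) && (decide (0 < d.mu) && (decide (d.im * (2 * d.mu) ≤ 1) &&
    (decide (|d.a| + |d.b| < 1) && decide (kap2 d.a d.b ≤ d.kap))))

variable {d : CTD}

/-- **the control condition of the cells** from the lists after the eliminations `ks` -/
theorem ctl_ks (h : d.ok = true) {ks : List (ℕ × ℚ)} (hk : elsFok ks d.T = true)
    (hN : NN (d.s : ℝ) (elsF ks d.T) d.Q) : CEL.CtlZ PsiL 23 23 CEL.T0 d.s d.mu d.v d.U := by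
  unfold CTD.ok at h
  simp only [Bool.and_eq_true, decide_eq_true_eq] at h
  obtain ⟨h1, hμ, him, hab, hka⟩ := h
  have h1' : (d.s : ℝ) ≤ 1 := by exact_mod_cast h1
  refine CEL.ctlZ_zero fun X hX hb => ?_
  have hb1 : ∀ t, |X t| ≤ 1 := fun t => (hb t).trans (by linarith)
  refine Fm.of_P (fr_va hX hb1) (semL (fr_va hX hb1) hμ him (uG_hu d.U 0)) (FL_par _ _ _) (mf := d.mf) (a := d.a)
    (b := d.b) (κ := d.kap) (ks := ks) ?_ fun z => hN X hX hb z
  unfold Fm.Pok
  simp only [Bool.and_eq_true, decide_eq_true_eq]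
  exact ⟨hk, hab, hka⟩

/-- **the control condition of the cells** from `NN` of the raw lists -/
theorem ctl_of (h : d.ok = true) (hN : NN (d.s : ℝ) d.T d.Q) : CEL.CtlZ PsiL 23 23 CEL.T0 d.s d.mu d.v d.U :=
  ctl_ks h (ks := []) rfl hN

/-- the same for any list `T'` below the list of the form -/
theorem ctl_le (h : d.ok = true) {T' : Tf}
    (hT' : ∀ X, St (d.s : ℝ) X → ∀ z : ℕ → ℂ, (e2 z (vl va X e1) T').re ≤ (e2 z (vl va X e1) d.T).re)
    (hN : NN (d.s : ℝ) T' d.Q) : CEL.CtlZ PsiL 23 23 CEL.T0 d.s d.mu d.v d.U := by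
  refine ctl_of h fun X hX hb z => ?_
  have h1 := hN X hX hb z
  have h2 := hT' X hX z
  rw [Complex.add_re] at h1 ⊢
  linarith

end Pool.Agent.FPX.ECT
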