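import Pool.Agent.FPX.HAS
import Pool.Agent.FPX.AVT

/-
HAB (helper81): Booleans of the checks in the hat form, `GeoH` of an integer record, the record `AvgH` (fields as in
`AVT.Avg`, variance bound `VBh`), the forms of `VBh` in terms of the indices below `N`.
-/

set_option autoImplicit false

noncomputable section

namespace Pool.Agent.FPX.HAA

open Pool.Agent.FPX.NOD Pool.Agent.FPX.CAV Pool.Agent.FPX.NOX
open Pool.Agent.FPX.NOT (Gq)
open Pool.Agent.FPX.AVS (wm)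

/-- a state and its hat averages -/
structure AvgH (R : ℕ) (D : CD) (a : ℕ → ℕ → Gq) (e : ℕ → ℚ) (u Z : ℤ → ℂ) (z A : ℕ → ℝ) : Prop where
  last : z D.N = -z 0
  hi : ∀ i < D.N, z (i + 1) - z i ≤ D.hb i
  lo : ∀ i < D.N, -(D.lb i : ℝ) ≤ z (i + 1) - z i
  bd : ∀ i, |z i| ≤ D.xm
  one : ‖wm D.N a 1 z‖ ≤ e 1
  lin : ∀ n : ℕ, 1 < n → n ≤ R → n % 2 = 1 → ‖u n - wm D.N a n z‖ ≤ e n
  A0 : ∀ i < D.N, z i ^ 2 ≤ A i
  A1 : ∀ i < D.N, A i ≤ z i ^ 2 + VBh D z i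
  zero : Z 0 = wm D.N a 0 A
  quad : ∀ n : ℕ, 1 ≤ n → n ≤ R → n % 2 = 0 → ‖Z n - wm D.N a n A‖ ≤ e n

/-! ### the forms of the variance bound -/

/-- lower form of the increment `k` -/
def Qn (D : CD) (z : ℕ → ℝ) (k : ℕ) : ℝ := z (k + 1) - z k + D.lb k

/-- upper form of the increment `k` -/
def Pn (D : CD) (z : ℕ → ℝ) (k : ℕ) : ℝ := D.hb k - (z (k + 1) - z k)

section forms

variable {D : CD} (z : ℕ → ℝ) {k : ℕ}

theorem QE_mid (h : k < D.N) : QE D z k = Qn D z k := by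
  unfold QE Qn dzE lbE
  rw [ex_mid h, ex_mid h]

theorem QE_low (h : k < D.N) : QE D z ((k : ℤ) - D.N) = Pn D z k := by
  unfold QE Pn dzE lbE
  rw [ex_low h, ex_low h]
  ring

theorem QE_high : QE D z ((k : ℤ) + D.N) = Pn D z k := by
  unfold QE Pn dzE lbE
  rw [ex_high, ex_high]
  ring

theorem PE_mid (h : k < D.N) : PE D z k = Pn D z k := by
  unfold PE Pn dzE hbE
  rw [ex_mid h, ex_mid h]

theorem PE_low (h : k < D.N) : PE D z ((k : ℤ) - D.N) = Qn D z k := by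
  unfold PE Qn dzE hbE
  rw [ex_low h, ex_low h]
  ring

theorem PE_high : PE D z ((k : ℤ) + D.N) = Qn D z k := by
  unfold PE Qn dzE hbE
  rw [ex_high, ex_high]
  ring

/-- lower type in the interior -/
theorem VB_L (ht : D.ty (k + 2) = 1) (h : k + 3 < D.N) : VBh D z (k + 2) = Qn D z (k + 1) * Qn D z (k + 2)
    + Qn D z (k + 2) * Qn D z k + Qn D z (k + 1) * Qn D z (k + 3) + D.vc (k + 2) := by
  unfold VBh
  rw [ht]
  have e1 : ((k + 2 : ℕ) : ℤ) - 1 = ((k + 1 : ℕ) : ℤ) := by push_cast; ring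
  have e2 : ((k + 2 : ℕ) : ℤ) - 2 = ((k : ℕ) : ℤ) := by push_cast; ring
  have e3 : ((k + 2 : ℕ) : ℤ) + 1 = ((k + 3 : ℕ) : ℤ) := by push_cast; ring
  simp only [e1, e2, e3]
  rw [QE_mid z (by omega), QE_mid z (by omega), QE_mid z (by omega), QE_mid z (by omega)]

/-- lower type at the last centre -/
theorem VB_Llast (ht : D.ty (k + 2) = 1) (h : k + 3 = D.N) : VBh D z (k + 2) = Qn D z (k + 1) * Qn D z (k + 2)
    + Qn D z (k + 2) * Qn D z k + Qn D z (k + 1) * Pn D z 0 + D.vc (k + 2) := by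
  unfold VBh
  rw [ht]
  have e1 : ((k + 2 : ℕ) : ℤ) - 1 = ((k + 1 : ℕ) : ℤ) := by push_cast; ring
  have e2 : ((k + 2 : ℕ) : ℤ) - 2 = ((k : ℕ) : ℤ) := by push_cast; ring
  have e3 : ((k + 2 : ℕ) : ℤ) + 1 = ((0 : ℕ) : ℤ) + D.N := by
    rw [← h]
    push_cast
    ring
  simp only [e1, e2, e3]
  rw [QE_mid z (by omega), QE_mid z (by omega), QE_mid z (by omega), QE_high z]

/-- upper type in the interior -/
theorem VB_H (ht : D.ty (k + 2) = 2) (h : k + 3 < D.N) : VBh D z (k + 2) = Pn D z (k + 1) * Pn D z (k + 2)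
    + Pn D z (k + 2) * Pn D z k + Pn D z (k + 1) * Pn D z (k + 3) + D.vc (k + 2) := by
  unfold VBh
  rw [ht]
  have e1 : ((k + 2 : ℕ) : ℤ) - 1 = ((k + 1 : ℕ) : ℤ) := by push_cast; ring
  have e2 : ((k + 2 : ℕ) : ℤ) - 2 = ((k : ℕ) : ℤ) := by push_cast; ring
  have e3 : ((k + 2 : ℕ) : ℤ) + 1 = ((k + 3 : ℕ) : ℤ) := by push_cast; ring
  simp only [e1, e2, e3]
  rw [PE_mid z (by omega), PE_mid z (by omega), PE_mid z (by omega), PE_mid z (by omega)]

/-- upper type at the centre `0` -/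
theorem VB_H0 (ht : D.ty 0 = 2) (h : D.N = k + 3) : VBh D z 0 = Qn D z (k + 2) * Pn D z 0
    + Pn D z 0 * Qn D z (k + 1) + Qn D z (k + 2) * Pn D z 1 + D.vc 0 := by
  unfold VBh
  rw [ht]
  have e1 : ((0 : ℕ) : ℤ) - 1 = ((k + 2 : ℕ) : ℤ) - D.N := by
    rw [h]
    push_cast
    ring
  have e2 : ((0 : ℕ) : ℤ) - 2 = ((k + 1 : ℕ) : ℤ) - D.N := by
    rw [h]
    push_cast
    ring
  have e3 : ((0 : ℕ) : ℤ) + 1 = ((1 : ℕ) : ℤ) := by norm_num
  simp only [e1, e2, e3]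
  rw [PE_mid z (by omega), PE_mid z (by omega), PE_low z (by omega), PE_low z (by omega)]

/-- upper type at the centre `1` -/
theorem VB_H1 (ht : D.ty 1 = 2) (h : D.N = k + 3) : VBh D z 1 = Pn D z 0 * Pn D z 1
    + Pn D z 1 * Qn D z (k + 2) + Pn D z 0 * Pn D z 2 + D.vc 1 := by
  unfold VBh
  rw [ht]
  have e1 : ((1 : ℕ) : ℤ) - 1 = ((0 : ℕ) : ℤ) := by norm_num
  have e2 : ((1 : ℕ) : ℤ) - 2 = ((k + 2 : ℕ) : ℤ) - D.N := by
    rw [h]
    push_cast
    ring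
  have e3 : ((1 : ℕ) : ℤ) + 1 = ((2 : ℕ) : ℤ) := by norm_num
  simp only [e1, e2, e3]
  rw [PE_mid z (by omega), PE_mid z (by omega), PE_low z (by omega), PE_mid z (by omega)]

end forms

/-- Boolean of `okH` -/
def bH (D : CD) (k : ℤ) : Bool := uE D (k - 1) && (uE D k && (uE D (k + 1) &&
  decide (hs3q (HE D (k - 1)) (HE' D (k - 1)) (HE D k) (HE D (k + 1)) (HE' D (k + 1)) ≤ hbE D k)))

/-- Boolean of `okL` -/
def bL (D : CD) (k : ℤ) : Bool := wE D (k - 1) && (wE D k && (wE D (k + 1) &&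
  decide (hs3q (LE D (k - 1)) (LE' D (k - 1)) (LE D k) (LE D (k + 1)) (LE' D (k + 1)) ≤ lbE D k)))

/-- Boolean of `okVh` -/
def bVh (D : CD) (i : ℕ) : Bool :=
  match D.ty i with
  | 0 => uE D ((i : ℤ) - 1) && (uE D i && (wE D ((i : ℤ) - 1) && (wE D i &&
      (decide ((HE D ((i : ℤ) - 1) + |HE' D ((i : ℤ) - 1)| / 2) ^ 2 / 6 ≤ D.vc i) &&
      (decide ((HE D i + |HE' D i| / 2) ^ 2 / 6 ≤ D.vc i) &&
      (decide ((LE D ((i : ℤ) - 1) + |LE' D ((i : ℤ) - 1)| / 2) ^ 2 / 6 ≤ D.vc i) &&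
      decide ((LE D i + |LE' D i| / 2) ^ 2 / 6 ≤ D.vc i)))))))
  | 1 => bL D ((i : ℤ) - 2) && (bL D ((i : ℤ) - 1) && (bL D i && (bL D ((i : ℤ) + 1) &&
      decide (vPq (LE D ((i : ℤ) - 1)) (LE' D ((i : ℤ) - 1)) (LE D i) (LE' D i) ≤ D.vc i))))
  | _ => bH D ((i : ℤ) - 2) && (bH D ((i : ℤ) - 1) && (bH D i && (bH D ((i : ℤ) + 1) &&
      decide (vPq (HE D ((i : ℤ) - 1)) (HE' D ((i : ℤ) - 1)) (HE D i) (HE' D i) ≤ D.vc i))))

theorem okH_of {D : CD} {k : ℤ} (h : bH D k = true) : okH D k := by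
  simp only [bH, Bool.and_eq_true, decide_eq_true_eq] at h
  exact h

theorem okL_of {D : CD} {k : ℤ} (h : bL D k = true) : okL D k := by
  simp only [bL, Bool.and_eq_true, decide_eq_true_eq] at h
  exact h

theorem okVh_of {D : CD} {i : ℕ} (h : bVh D i = true) : okVh D i := by
  unfold bVh at h
  unfold okVh
  split at h <;> simp only [Bool.and_eq_true, decide_eq_true_eq] at h
  · next e =>
    rw [e]
    obtain ⟨h1, h2, h3, h4, h5, h6, h7, h8⟩ := h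
    refine ⟨⟨h1, h2, h3, h4⟩, max (max (HE D ((i : ℤ) - 1) + |HE' D ((i : ℤ) - 1)| / 2) (HE D i + |HE' D i| / 2))
      (max (LE D ((i : ℤ) - 1) + |LE' D ((i : ℤ) - 1)| / 2) (LE D i + |LE' D i| / 2)),
      ⟨(le_max_left _ _).trans (le_max_left _ _), (le_max_right _ _).trans (le_max_left _ _)⟩,
      ⟨(le_max_left _ _).trans (le_max_right _ _), (le_max_right _ _).trans (le_max_right _ _)⟩, ?_⟩
    rcases max_choice (max (HE D ((i : ℤ) - 1) + |HE' D ((i : ℤ) - 1)| / 2) (HE D i + |HE' D i| / 2))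
      (max (LE D ((i : ℤ) - 1) + |LE' D ((i : ℤ) - 1)| / 2) (LE D i + |LE' D i| / 2)) with e | e <;> rw [e]
    · rcases max_choice (HE D ((i : ℤ) - 1) + |HE' D ((i : ℤ) - 1)| / 2) (HE D i + |HE' D i| / 2) with e | e <;> rw [e] <;>
        assumption
    · rcases max_choice (LE D ((i : ℤ) - 1) + |LE' D ((i : ℤ) - 1)| / 2) (LE D i + |LE' D i| / 2) with e | e <;> rw [e] <;>
        assumption
  · next e =>
    rw [e]
    obtain ⟨h1, h2, h3, h4, h5⟩ := h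
    exact ⟨okL_of h1, okL_of h2, okL_of h3, okL_of h4, h5⟩
  · next n e0 e1 =>
    obtain ⟨h1, h2, h3, h4, h5⟩ := h
    split
    · exact absurd ‹_› e0
    · exact absurd ‹_› e1
    · exact ⟨okH_of h1, okH_of h2, okH_of h3, okH_of h4, h5⟩

/-- the check of the increments and variances, hat form -/
def chkHat (D : CD) : Bool :=
  Nat.ble 3 D.N && (List.range D.N).all fun i =>
    (bH D i || decide (2 * D.xm ≤ D.hb i)) && ((bL D i || decide (2 * D.xm ≤ D.lb i)) && bVh D i)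

/-- **the geometric checks of an integer record** -/
theorem geoH_of {Z : CZ} (h0 : Z.G.chk0 = true) (hs : Z.G.chkSl = true) (hG : Z.chkG = true)
    (hC : chkHat Z.cd = true) : GeoH Z.cd := by
  have hB := NOX.GD.bas h0
  simp only [chkHat, Bool.and_eq_true, Nat.ble_eq, List.all_eq_true, List.mem_range, Bool.or_eq_true,
    decide_eq_true_eq] at hC
  obtain ⟨hN, hC⟩ := hC
  exact
    { N3 := hN
      s0 := hB.s0
      s1 := hB.s1
      hxm := hB.xm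
      maj := fun i hi hu => CZ.maj_ok hB hs hG hi hu
      mnj := fun i hi hw => CZ.mnj_ok hB hs hG hi hw
      hup := fun i hi => (hC i hi).1.imp okH_of id
      hlo := fun i hi => (hC i hi).2.1.imp okL_of id
      var := fun i hi => okVh_of (hC i hi).2.2 }

end Pool.Agent.FPX.HAA
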