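import Pool.Agent.FPX.NCD
import Pool.Agent.FPX.HAB

/-
NCH (helper39): the integer record of a certificate with three components on the hat averages (`AvgH` of HAB), with
one majorant matrix per cell for the weights of `x²`, and its statement record for the engine.
-/

set_option autoImplicit false

open Set Filter
open scoped ComplexConjugate

noncomputable section

namespace Pool.Agent.FPX.NCD

open Pool.Agent.FPX.CAV Pool.Agent.FPX.CAT
open Pool.Agent.FPX.HAA (AvgH VBh Qn Pn QE PE GeoH chkHat QE_mid QE_low QE_high PE_mid PE_low PE_high)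
open Pool.Agent.FPX.AVS (wm)
open Pool.Agent.FPX.NCB (gl gr el wm_re wm_im)
open Pool.Agent.FPX.NOT (Gq)
open Pool.Agent.FPX.NCA (yv Zv)
open Pool.Agent.FPX.PLK (ST P6 A3 iz w3 qv lv lz addZ qv_cons qv_nil lv_cons lv_nil lz_cons lz_nil ev3 addR qv_addR)

/-! ### the moments of the hat averages -/

section avg

variable {h : ℕ} {D : CD} {a : ℕ → ℕ → Gq} {e : ℕ → ℚ} {u Z : ℤ → ℂ} {z A : ℕ → ℝ}
  (H : AvgH (2 * h + 1) D a e u Z z A)

include H

/-- all linear moments -/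
theorem yv_leH {k : ℕ} (h1 : 1 ≤ k) (h8 : k < 2 * h + 1) :
    |yv u k - ∑ i ∈ Finset.range D.N, (gl a k i : ℝ) * z i| ≤ el e k := by
  unfold yv gl el
  rw [if_neg (by omega)]
  by_cases h2 : k % 2 = 1
  · simp only [h2, if_true]
    have h3 := (Complex.abs_re_le_norm _).trans (H.lin (k + 2) (by omega) (by omega) (by omega))
    rw [Complex.sub_re, wm_re] at h3
    exact_mod_cast h3
  · simp only [h2, if_false]
    have h3 := (Complex.abs_im_le_norm _).trans (H.lin (k + 1) (by omega) (by omega) (by omega))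
    rw [Complex.sub_im, wm_im] at h3
    exact_mod_cast h3

/-- the box variables of the linear moments -/
theorem ex_tauH : ∃ τ : ℕ → ℝ, (∀ k, 0 ≤ τ k ∧ τ k ≤ 1) ∧ ∀ k, 1 ≤ k → k < 2 * h + 1 →
    yv u k = ∑ i ∈ Finset.range D.N, (gl a k i : ℝ) * z i + el e k * (2 * τ k - 1) := by
  have key : ∀ k, ∃ t : ℝ, (0 ≤ t ∧ t ≤ 1) ∧ (1 ≤ k → k < 2 * h + 1 →
      yv u k = ∑ i ∈ Finset.range D.N, (gl a k i : ℝ) * z i + el e k * (2 * t - 1)) := by
    intro k
    by_cases hk : 1 ≤ k ∧ k < 2 * h + 1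
    · have h1 := yv_leH H hk.1 hk.2
      set r := yv u k - ∑ i ∈ Finset.range D.N, (gl a k i : ℝ) * z i with hr
      have he : (0 : ℝ) ≤ el e k := (abs_nonneg _).trans h1
      rcases eq_or_lt_of_le he with h0 | h0
      · refine ⟨1 / 2, by norm_num, fun _ _ => ?_⟩
        rw [← h0] at h1 ⊢
        have : r = 0 := abs_eq_zero.1 (le_antisymm h1 (abs_nonneg _))
        rw [hr] at this
        linarith
      · obtain ⟨a1, a2⟩ := abs_le.1 h1
        refine ⟨(r / el e k + 1) / 2, ⟨?_, ?_⟩, fun _ _ => ?_⟩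
        · have : -1 ≤ r / el e k := by
            rw [le_div_iff₀ h0]
            linarith
          linarith
        · have : r / el e k ≤ 1 := by
            rw [div_le_one h0]
            exact a2
          linarith
        · have e1 : (el e k : ℝ) * (2 * ((r / el e k + 1) / 2) - 1) = r := by
            field_simp
            ring
          rw [e1, hr]
          ring
    · exact ⟨0, by norm_num, fun h1 h2 => absurd ⟨h1, h2⟩ hk⟩
  choose t ht using key
  exact ⟨t, fun k => (ht k).1, fun k => (ht k).2⟩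

/-- a harmonic of the quadratic part -/
theorem quad_nH {n : ℕ} (h1 : 1 ≤ n) (h2 : n ≤ 2 * h + 1) (h3 : n % 2 = 0) (q q' : ℝ) :
    q * (∑ i ∈ Finset.range D.N, ((a n i).re : ℝ) * A i) + q' * (∑ i ∈ Finset.range D.N, ((a n i).im : ℝ) * A i)
      - ‖(q : ℂ) - q' * Complex.I‖ * e n ≤ q * (Z n).re + q' * (Z n).im := by
  have h1 := H.quad n h1 h2 h3
  rw [← wm_re, ← wm_im]
  set w := wm D.N a n A with hw
  have h2 : -(‖(q : ℂ) - q' * Complex.I‖ * e n) ≤ (((q : ℂ) - q' * Complex.I) * (Z n - w)).re := by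
    have h3 := (abs_le.1 (Complex.abs_re_le_norm (((q : ℂ) - q' * Complex.I) * (Z n - w)))).1
    rw [norm_mul] at h3
    have h4 : ‖(q : ℂ) - q' * Complex.I‖ * ‖Z n - w‖ ≤ ‖(q : ℂ) - q' * Complex.I‖ * e n :=
      mul_le_mul_of_nonneg_left h1 (norm_nonneg _)
    linarith
  have h5 : (((q : ℂ) - q' * Complex.I) * (Z n - w)).re = q * ((Z n).re - w.re) + q' * ((Z n).im - w.im) := by
    simp only [Complex.mul_re, Complex.sub_re, Complex.sub_im, Complex.mul_im, Complex.ofReal_re, Complex.ofReal_im,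
      Complex.I_re, Complex.I_im]
    ring
  rw [h5] at h2
  linarith

/-- the quadratic part: `p i` majorises the weight of the cell `i` -/
theorem quad_geH {q p : ℕ → ℝ} (hp : ∀ i < D.N, 0 ≤ p i)
    (hK : ∀ i < D.N, ∑ k ∈ Finset.range (2 * h + 1), q k * gr a k i ≤ p i) :
    ∑ i ∈ Finset.range D.N, ((∑ k ∈ Finset.range (2 * h + 1), q k * gr a k i) * (z i ^ 2 + VBh D z i)
        - p i * VBh D z i)
      - ∑ m ∈ Finset.range h, ‖(q (2 * m + 1) : ℂ) - q (2 * m + 2) * Complex.I‖ * e (2 * m + 2)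
      ≤ ∑ k ∈ Finset.range (2 * h + 1), q k * Zv Z k := by
  have k1 : ∑ i ∈ Finset.range D.N, ((∑ k ∈ Finset.range (2 * h + 1), q k * gr a k i) * (z i ^ 2 + VBh D z i)
        - p i * VBh D z i)
      ≤ ∑ i ∈ Finset.range D.N, (∑ k ∈ Finset.range (2 * h + 1), q k * gr a k i) * A i := by
    refine Finset.sum_le_sum fun i hi => ?_
    have hi' := Finset.mem_range.1 hi
    have a0 := H.A0 i hi'
    have a1 := H.A1 i hi'
    have p0 := hp i hi'
    have p1 := hK i hi'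
    nlinarith [mul_nonneg p0 (sub_nonneg.2 a0), mul_nonneg (sub_nonneg.2 p1) (sub_nonneg.2 a1)]
  have e1 : ∑ i ∈ Finset.range D.N, (∑ k ∈ Finset.range (2 * h + 1), q k * gr a k i) * A i
      = ∑ k ∈ Finset.range (2 * h + 1), q k * ∑ i ∈ Finset.range D.N, (gr a k i : ℝ) * A i := by
    simp only [Finset.sum_mul, Finset.mul_sum]
    rw [Finset.sum_comm]
    exact Finset.sum_congr rfl fun k _ => Finset.sum_congr rfl fun i _ => by ring
  rw [e1] at k1
  have z0 : (Z 0).re = ∑ i ∈ Finset.range D.N, ((a 0 i).re : ℝ) * A i := by rw [H.zero, wm_re]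
  have key : ∑ m ∈ Finset.range h, (q (2 * m + 1) * (∑ i ∈ Finset.range D.N, (gr a (2 * m + 1) i : ℝ) * A i)
      + q (2 * m + 2) * ∑ i ∈ Finset.range D.N, (gr a (2 * m + 2) i : ℝ) * A i)
      - ∑ m ∈ Finset.range h, ‖(q (2 * m + 1) : ℂ) - q (2 * m + 2) * Complex.I‖ * e (2 * m + 2)
      ≤ ∑ m ∈ Finset.range h, (q (2 * m + 1) * Zv Z (2 * m + 1) + q (2 * m + 2) * Zv Z (2 * m + 2)) := by
    rw [← Finset.sum_sub_distrib]
    refine Finset.sum_le_sum fun m hm => ?_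
    have hm' := Finset.mem_range.1 hm
    have b := quad_nH H (n := 2 * m + 2) (by omega) (by omega) (by omega) (q (2 * m + 1)) (q (2 * m + 2))
    have g1 : ∀ i, gr a (2 * m + 1) i = (a (2 * m + 2) i).re := fun i => by
      unfold gr
      rw [if_neg (by omega), if_pos (by omega)]
    have g2 : ∀ i, gr a (2 * m + 2) i = (a (2 * m + 2) i).im := fun i => by
      unfold gr
      rw [if_neg (by omega), if_neg (by omega)]
    have c1 : Zv Z (2 * m + 1) = (Z ((2 * m + 2 : ℕ) : ℤ)).re := by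
      unfold Zv
      rw [if_neg (by omega), if_pos (by omega)]
      norm_num [add_assoc]
    have c2 : Zv Z (2 * m + 2) = (Z ((2 * m + 2 : ℕ) : ℤ)).im := by
      unfold Zv
      rw [if_neg (by omega), if_neg (by omega)]
    simp only [g1, g2, c1, c2]
    exact b
  rw [NCG.sum_pairs (fun k => q k * ∑ i ∈ Finset.range D.N, (gr a k i : ℝ) * A i)] at k1
  rw [NCG.sum_pairs fun k => q k * Zv Z k]
  have c0 : Zv Z 0 = (Z 0).re := rfl
  have g0 : ∀ i, gr a 0 i = (a 0 i).re := fun i => rfl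
  simp only [g0] at k1
  rw [c0, z0]
  linarith

end avg

/-! ### tables of products -/

/-- the table with the entry `c` at the rows `a`, `b` -/
def tS (c : List ℤ) (a b : ℕ) : List (List (List ℤ)) :=
  if a ≤ b then List.replicate a [] ++ [List.replicate (b - a) [] ++ [c]]
  else List.replicate b [] ++ [List.replicate (a - b) [] ++ [c]]

theorem qv_tS (w : List ℝ) (c : List ℤ) (a b : ℕ) (X : List ℝ) :
    qv (iz w) (tS c a b) X = iz w c * (X.getD a 0 * X.getD b 0) := by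
  have h0 : iz w ([] : List ℤ) = 0 := iz_nil w
  have hd : ∀ p k : ℕ, (X.drop p).getD k 0 = X.getD (p + k) 0 := fun p k => by
    simp [List.getD_eq_getElem?_getD, List.getElem?_drop]
  unfold tS
  split
  · next h =>
    rw [qv_rep, lv_rep1 h0, hd, Nat.add_sub_cancel' h]
    ring
  · next h =>
    rw [qv_rep, lv_rep1 h0, hd, Nat.add_sub_cancel' (by omega)]
    ring

/-- the value of a factor: the flag says `1 - θ` -/
def fv (Θ : List ℝ) (f : Bool × ℕ) : ℝ := if f.1 then 1 - Θ.getD f.2 0 else Θ.getD f.2 0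

/-- the table of `M` times the product of two factors -/
def tX (f g : Bool × ℕ) (M : List ℤ) : List (List (List ℤ)) :=
  match f.1, g.1 with
  | false, false => tS M (f.2 + 1) (g.2 + 1)
  | true, false => addR OZ (tS M 0 (g.2 + 1)) (tS (M.map fun x => -x) (f.2 + 1) (g.2 + 1))
  | false, true => addR OZ (tS M 0 (f.2 + 1)) (tS (M.map fun x => -x) (f.2 + 1) (g.2 + 1))
  | true, true => addR OZ (addR OZ (tS M 0 0) (tS (M.map fun x => -x) 0 (f.2 + 1)))
      (addR OZ (tS (M.map fun x => -x) 0 (g.2 + 1)) (tS M (f.2 + 1) (g.2 + 1)))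

theorem qv_tX (w : List ℝ) (f g : Bool × ℕ) (M : List ℤ) (Θ : List ℝ) :
    qv (iz w) (tX f g M) (1 :: Θ) = iz w M * (fv Θ f * fv Θ g) := by
  obtain ⟨f1, f2⟩ := f
  obtain ⟨g1, g2⟩ := g
  cases f1 <;> cases g1 <;>
    simp only [tX, fv, qv_addR (evOZ w), qv_tS, iz_neg, List.getD_cons_succ, List.getD_cons_zero, if_true,
      Bool.false_eq_true, if_false] <;> ring

/-- the factor of the extended index `m - N` -/
def fx (N : ℕ) (f : Bool) (m : ℕ) : Bool × ℕ :=
  if m < N then (!f, m) else if m < 2 * N then (f, m - N) else (!f, m - 2 * N)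

theorem fx_lt {N : ℕ} {f : Bool} {m : ℕ} (_h : m < 3 * N) : (fx N f m).2 < N := by
  unfold fx
  split
  · next h1 => exact h1
  · split
    · next h1 h2 =>
      show m - N < N
      omega
    · next h1 h2 =>
      show m - 2 * N < N
      omega

/-- the form of a factor -/
def Wv (D : CD) (x : ℕ → ℝ) (f : Bool × ℕ) : ℝ := if f.1 then Pn D x f.2 else Qn D x f.2

theorem fx_val {D : CD} (x : ℕ → ℝ) {f : Bool} {m : ℕ} (h : m < 3 * D.N) :
    Wv D x (fx D.N f m) = if f then PE D x ((m : ℤ) - D.N) else QE D x ((m : ℤ) - D.N) := by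
  unfold fx
  split
  · next h1 =>
    cases f <;> simp only [Wv, Bool.not_true, Bool.not_false, if_true, Bool.false_eq_true, if_false]
    · rw [QE_low x h1]
    · rw [PE_low x h1]
  · split
    · next h1 h2 =>
      have e : (m : ℤ) - D.N = ((m - D.N : ℕ) : ℤ) := by omega
      cases f <;> simp only [Wv, if_true, Bool.false_eq_true, if_false, e]
      · rw [QE_mid x (by omega)]
      · rw [PE_mid x (by omega)]
    · next h1 h2 =>
      have e : (m : ℤ) - D.N = ((m - 2 * D.N : ℕ) : ℤ) + D.N := by omega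
      cases f <;> simp only [Wv, Bool.not_true, Bool.not_false, if_true, Bool.false_eq_true, if_false, e]
      · rw [QE_high x]
      · rw [PE_high x]

/-- the variance bound in terms of the factors -/
theorem VBh_eq {D : CD} (h3 : 3 ≤ D.N) (x : ℕ → ℝ) {i : ℕ} (hi : i < D.N) {f : Bool}
    (hf : (f = false ∧ D.ty i = 1) ∨ (f = true ∧ D.ty i ≠ 0 ∧ D.ty i ≠ 1)) :
    VBh D x i = Wv D x (fx D.N f (i + D.N - 1)) * Wv D x (fx D.N f (i + D.N))
      + Wv D x (fx D.N f (i + D.N)) * Wv D x (fx D.N f (i + D.N - 2))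
      + Wv D x (fx D.N f (i + D.N - 1)) * Wv D x (fx D.N f (i + D.N + 1)) + D.vc i := by
  have e1 : ((i + D.N - 1 : ℕ) : ℤ) - D.N = (i : ℤ) - 1 := by omega
  have e2 : ((i + D.N : ℕ) : ℤ) - D.N = (i : ℤ) := by omega
  have e3 : ((i + D.N - 2 : ℕ) : ℤ) - D.N = (i : ℤ) - 2 := by omega
  have e4 : ((i + D.N + 1 : ℕ) : ℤ) - D.N = (i : ℤ) + 1 := by omega
  rw [fx_val x (by omega), fx_val x (by omega), fx_val x (by omega), fx_val x (by omega), e1, e2, e3, e4]
  rcases hf with ⟨rfl, ht⟩ | ⟨rfl, h0, h1⟩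
  · simp only [Bool.false_eq_true, if_false]
    unfold VBh
    rw [ht]
    rfl
  · simp only [if_true]
    unfold VBh
    split
    · exact absurd ‹_› h0
    · exact absurd ‹_› h1
    · rfl

/-! ### the record -/

/-- the integer record: fields of `ND` (`Kp`, `kap` are not used), `PP` the majorants of the weights of `x²` per cell
in the unit `U` -/
structure NH extends ND where
  U : ℕ
  PP : List (List ℤ)

namespace NH

variable (D : NH)

/-- the majorant of the cell `i` -/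
def pp (i : ℕ) : List ℤ := D.PP.getD i []

/-- the coefficient of the variance in the cell `i` -/
def Kd (i : ℕ) : List ℤ := addZ (D.toND.Kx i) ((D.pp i).map fun x => -(D.U : ℤ) * x)

/-- the coefficient of a variance product of the cell `i`, times `c` -/
def wh (c : ℤ) (i : ℕ) : List ℤ := (D.Kd i).map fun x => c * V20 * D.toND.zS * x

/-- the scale of a product -/
def hp (f g : Bool × ℕ) : ℤ := 4 * (D.toND.hh f.2 * D.toND.hh g.2)

/-- the three products -/
def vt (f : Bool) (i : ℕ) : List (List (List ℤ)) :=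
  let a := fx D.toND.N f (i + D.toND.N - 1)
  let b := fx D.toND.N f (i + D.toND.N)
  let c := fx D.toND.N f (i + D.toND.N - 2)
  let d := fx D.toND.N f (i + D.toND.N + 1)
  addR OZ (tX a b (D.wh (D.hp a b) i)) (addR OZ (tX b c (D.wh (D.hp b c) i)) (tX a d (D.wh (D.hp a d) i)))

/-- the table of the cell `i` -/
def th (i : ℕ) : List (List (List ℤ)) :=
  match D.Z.ty.getD i 0 with
  | 0 => []
  | 1 => D.vt false i
  | _ => D.vt true i

/-- the matrix of the constant -/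
def M0 : List ℤ := addZ (D.Ks.map fun x => -(D.toND.zN * D.toND.zS ^ 2 * V20) * x)
  (sumL (fun i => (D.pp i).map fun x => -(D.toND.zS * D.U * D.toND.zv i) * x) D.toND.N)

/-- **the statement record** -/
def st : ST where
  N := D.toND.N
  M := 2 * D.h
  κ := V20
  Ls := ls D.toND.N D.toND.zl
  Hs := ls D.toND.N D.toND.zh
  F := (D.M0, ls D.toND.N fun i => ⟨if i = 0 then 1 else 0, 0, 0, 0, 0, 0⟩)
    :: (List.range D.toND.R).map fun k => ((D.Q.getD k []).map fun x => D.toND.zS * x,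
        ls D.toND.N fun i => ⟨D.toND.gri k i * D.toND.zv i, 0, 0, D.toND.gri k i * V20, 0, 0⟩)
  L := D.toND.st.L
  C := D.toND.st.C
  T := (sumT OZ D.th D.toND.N).map fun r => r.map fun c => addZ c ND.z9
  P := D.toND.st.P

end NH

theorem par_nd {D : NH} {x : ℕ → ℝ} {θ : List ℝ} (h : D.st.Par x θ) : D.toND.st.Par x θ :=
  ⟨h.len, h.box, h.eq⟩

theorem box_nd {D : NH} {x : ℕ → ℝ} {τ : List ℝ} (h : D.toND.st.Box x τ) : D.st.Box x τ :=
  ⟨h.anti, h.lo, h.hi, h.len, h.box, h.pos⟩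

section ev

variable {D : NH} {x : ℕ → ℝ}

theorem iz_Kd (w : List ℝ) (i : ℕ) : iz w (D.Kd i) = iz w (D.toND.Kx i) - D.U * iz w (D.pp i) := by
  unfold NH.Kd
  rw [iz_addZ, iz_map]
  push_cast
  ring

theorem iz_wh (w : List ℝ) (c : ℤ) (i : ℕ) : iz w (D.wh c i) = c * V20 * D.toND.zS * iz w (D.Kd i) := by
  unfold NH.wh
  rw [iz_map]
  push_cast
  ring

/-- the part of the base forms -/
theorem valFH (hN : 0 < D.toND.N) (w : List ℝ) : (D.st.F.map fun q => iz w q.1 * ∑ i ∈ Finset.range D.toND.N,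
      (q.2.getD i PLK.P6.zero).ev (x i) (x (i + 1))).sum
    = 1048576 * (-(D.toND.N * (D.G.S : ℝ) ^ 2 * iz w D.Ks) + D.G.S * ∑ i ∈ Finset.range D.toND.N,
      (iz w (D.toND.Kx i) * (x i ^ 2 + (D.toND.zv i : ℝ) / 1048576)
        - D.U * iz w (D.pp i) * ((D.toND.zv i : ℝ) / 1048576))) := by
  have k0 : ∑ i ∈ Finset.range D.toND.N, ((ls D.toND.N fun i => (⟨if i = 0 then 1 else 0, 0, 0, 0, 0, 0⟩ : P6 ℤ)).getD i
      PLK.P6.zero).ev (x i) (x (i + 1)) = 1 := by
    rw [← sum_ite hN 1]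
    refine Finset.sum_congr rfl fun i hi => ?_
    rw [getD_ls _ _ _ (Finset.mem_range.1 hi)]
    unfold PLK.P6.ev
    simp only
    split_ifs <;> push_cast <;> ring
  have k2 : ∀ k : ℕ, ∑ i ∈ Finset.range D.toND.N, ((ls D.toND.N fun i => (⟨D.toND.gri k i * D.toND.zv i, 0, 0,
      D.toND.gri k i * V20, 0, 0⟩ : P6 ℤ)).getD i PLK.P6.zero).ev (x i) (x (i + 1))
      = ∑ i ∈ Finset.range D.toND.N, (D.toND.gri k i : ℝ) * (D.toND.zv i + 1048576 * x i ^ 2) := by
    intro k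
    refine Finset.sum_congr rfl fun i hi => ?_
    rw [getD_ls _ _ _ (Finset.mem_range.1 hi)]
    unfold PLK.P6.ev V20
    push_cast
    ring
  have e1 : (D.st.F.map fun q => iz w q.1 * ∑ i ∈ Finset.range D.toND.N,
      (q.2.getD i PLK.P6.zero).ev (x i) (x (i + 1))).sum
      = iz w D.M0 * 1
        + ∑ k ∈ Finset.range D.toND.R, iz w ((D.Q.getD k []).map fun x => D.toND.zS * x)
          * ∑ i ∈ Finset.range D.toND.N, (D.toND.gri k i : ℝ) * (D.toND.zv i + 1048576 * x i ^ 2) := by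
    unfold NH.st
    simp only [List.map_cons, List.sum_cons, List.map_map, Function.comp_def, k0, k2, sum_map_range]
  have e0 : iz w D.M0 = -(D.toND.zN * D.toND.zS ^ 2 * V20) * iz w D.Ks
      - D.toND.zS * ∑ i ∈ Finset.range D.toND.N, D.U * iz w (D.pp i) * D.toND.zv i := by
    unfold NH.M0
    rw [iz_addZ, iz_map, iz_sumL, Finset.mul_sum]
    simp only [iz_map]
    rw [sub_eq_add_neg, ← Finset.sum_neg_distrib]
    push_cast
    congr 1
    exact Finset.sum_congr rfl fun i _ => by ring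
  rw [e1, e0]
  simp only [iz_map]
  have e2 : ∑ k ∈ Finset.range D.toND.R, ((D.toND.zS : ℤ) : ℝ) * iz w (D.Q.getD k [])
      * ∑ i ∈ Finset.range D.toND.N, (D.toND.gri k i : ℝ) * (D.toND.zv i + 1048576 * x i ^ 2)
      = D.toND.zS * ∑ i ∈ Finset.range D.toND.N, iz w (D.toND.Kx i) * (D.toND.zv i + 1048576 * x i ^ 2) := by
    simp only [iz_Kx, Finset.sum_mul, Finset.mul_sum]
    rw [Finset.sum_comm]
    refine Finset.sum_congr rfl fun i _ => Finset.sum_congr rfl fun k _ => ?_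
    ring
  have e3 : ∑ i ∈ Finset.range D.toND.N, (iz w (D.toND.Kx i) * (x i ^ 2 + (D.toND.zv i : ℝ) / 1048576)
      - D.U * iz w (D.pp i) * ((D.toND.zv i : ℝ) / 1048576))
      = 1 / 1048576 * (∑ i ∈ Finset.range D.toND.N, iz w (D.toND.Kx i) * (D.toND.zv i + 1048576 * x i ^ 2))
        - 1 / 1048576 * ∑ i ∈ Finset.range D.toND.N, D.U * iz w (D.pp i) * D.toND.zv i := by
    rw [Finset.mul_sum, Finset.mul_sum, ← Finset.sum_sub_distrib]
    exact Finset.sum_congr rfl fun i _ => by ring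
  rw [e2, e3]
  unfold ND.zN ND.zS ND.N V20
  push_cast
  ring

theorem Wv_par {θ : List ℝ} (h : D.st.Par x θ) {f : Bool × ℕ} (hf : f.2 < D.toND.N) (τ : List ℝ) :
    (D.toND.hh f.2 : ℝ) * fv (θ ++ τ) f = 1048576 * Wv D.Z.cd x f := by
  obtain ⟨b, p⟩ := f
  have hl : θ.length = D.toND.N := h.len
  have hp : p < D.toND.N := hf
  have e : (θ ++ τ).getD p 0 = θ.getD p 0 := List.getD_append _ _ _ _ (by rw [hl]; exact hp)
  cases b
  · simp only [fv, Wv, Bool.false_eq_true, if_false, e]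
    have := par_q (par_nd h) hp
    unfold ND.hh Qn
    push_cast
    exact this
  · simp only [fv, Wv, if_true, e]
    have := par_p (par_nd h) hp
    unfold ND.hh Pn
    push_cast
    exact this

/-- the table of one cell -/
theorem th_eq (h3 : 3 ≤ D.toND.N) {θ τ : List ℝ} (h : D.st.Par x θ) (w : List ℝ) {i : ℕ} (hi : i < D.toND.N) :
    qv (iz w) (D.th i) (1 :: (θ ++ τ)) = (2 * 1048576) ^ 2 * (1048576 * D.G.S)
      * (iz w (D.Kd i) * (VBh D.Z.cd x i - (D.toND.zv i : ℝ) / 1048576)) := by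
  have hvc : (D.Z.cd.vc i : ℝ) = (D.toND.zv i : ℝ) / 1048576 := nq_cast _ _
  have hty : D.Z.cd.ty i = D.Z.ty.getD i 0 := rfl
  have hNN : D.Z.cd.N = D.toND.N := rfl
  have key : ∀ f : Bool, VBh D.Z.cd x i = Wv D.Z.cd x (fx D.toND.N f (i + D.toND.N - 1)) * Wv D.Z.cd x (fx D.toND.N f (i + D.toND.N))
      + Wv D.Z.cd x (fx D.toND.N f (i + D.toND.N)) * Wv D.Z.cd x (fx D.toND.N f (i + D.toND.N - 2))
      + Wv D.Z.cd x (fx D.toND.N f (i + D.toND.N - 1)) * Wv D.Z.cd x (fx D.toND.N f (i + D.toND.N + 1)) + D.Z.cd.vc i →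
      qv (iz w) (D.vt f i) (1 :: (θ ++ τ)) = (2 * 1048576) ^ 2 * (1048576 * D.G.S)
      * (iz w (D.Kd i) * (VBh D.Z.cd x i - (D.toND.zv i : ℝ) / 1048576)) := by
    intro f hv
    have a1 := Wv_par h (f := fx D.toND.N f (i + D.toND.N - 1)) (fx_lt (by omega)) τ
    have a2 := Wv_par h (f := fx D.toND.N f (i + D.toND.N)) (fx_lt (by omega)) τ
    have a3 := Wv_par h (f := fx D.toND.N f (i + D.toND.N - 2)) (fx_lt (by omega)) τ
    have a4 := Wv_par h (f := fx D.toND.N f (i + D.toND.N + 1)) (fx_lt (by omega)) τ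
    rw [hv, hvc]
    unfold NH.vt
    simp only [qv_addR (evOZ w), qv_tX, iz_wh]
    unfold NH.hp ND.zS V20
    push_cast
    generalize fx D.toND.N f (i + D.toND.N - 1) = fa at *
    generalize fx D.toND.N f (i + D.toND.N) = fb at *
    generalize fx D.toND.N f (i + D.toND.N - 2) = fc at *
    generalize fx D.toND.N f (i + D.toND.N + 1) = fd at *
    generalize iz w (D.Kd i) = K
    linear_combination (4 * (1048576 * (D.G.S : ℝ)) * K) * ((D.toND.hh fb.2 * fv (θ ++ τ) fb) * a1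
      + (1048576 * Wv D.Z.cd x fa) * a2 + (D.toND.hh fc.2 * fv (θ ++ τ) fc) * a2
      + (1048576 * Wv D.Z.cd x fb) * a3 + (D.toND.hh fd.2 * fv (θ ++ τ) fd) * a1
      + (1048576 * Wv D.Z.cd x fa) * a4)
  unfold NH.th
  rcases hT : D.Z.ty.getD i 0 with _ | _ | t
  · have : VBh D.Z.cd x i = (D.toND.zv i : ℝ) / 1048576 := by
      rw [← hvc]
      unfold VBh
      rw [hty, hT]
      rfl
    simp [this]
  · exact key false (VBh_eq (by rw [hNN]; exact h3) x (by rw [hNN]; exact hi) (Or.inl ⟨rfl, by rw [hty, hT]⟩))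
  · exact key true (VBh_eq (by rw [hNN]; exact h3) x (by rw [hNN]; exact hi) (Or.inr ⟨rfl, by rw [hty, hT]; omega,
      by rw [hty, hT]; omega⟩))

theorem qv_pad (w : List ℝ) (T : List (List (List ℤ))) (X : List ℝ) :
    qv id ((T.map fun r => r.map fun c => addZ c ND.z9).map fun r => r.map (iz w)) X = qv (iz w) T X := by
  have e : ((T.map fun r => r.map fun c => addZ c ND.z9).map fun r => r.map (iz w)) = T.map fun r => r.map (iz w) := by
    rw [List.map_map]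
    refine List.map_congr_left fun r _ => ?_
    show (r.map fun c => addZ c ND.z9).map (iz w) = r.map (iz w)
    rw [List.map_map]
    refine List.map_congr_left fun c _ => ?_
    show iz w (addZ c ND.z9) = iz w c
    rw [iz_addZ, iz_z9, add_zero]
  rw [e, qv_map]

end ev

/-! ### the certificate -/

section cert

variable {D : NH} {x A : ℕ → ℝ} {u Z : ℤ → ℂ}

theorem sum_t1H (hS : 0 < D.G.S) (h : AvgH D.toND.R D.Z.cd D.G.a D.toND.e u Z x A) :
    |∑ i ∈ Finset.range D.toND.N, ((D.toND.zt 1 i).1 : ℝ) * x i| ≤ D.toND.ze 1 ∧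
      |∑ i ∈ Finset.range D.toND.N, ((D.toND.zt 1 i).2 : ℝ) * x i| ≤ D.toND.ze 1 := by
  have hS' : (0 : ℝ) < D.G.S := by exact_mod_cast hS
  have h1 := h.one
  have e1 : (D.toND.e 1 : ℝ) = (D.toND.ze 1 : ℝ) / D.G.S := by
    unfold ND.e ND.ze
    push_cast
    rfl
  have hr : (wm D.toND.N D.G.a 1 x).re = (∑ i ∈ Finset.range D.toND.N, ((D.toND.zt 1 i).1 : ℝ) * x i) / D.G.S := by
    rw [wm_re, Finset.sum_div]
    refine Finset.sum_congr rfl fun i _ => ?_
    unfold TG.a NCE.aL ND.zt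
    simp only [one_ne_zero, if_false]
    push_cast
    ring
  have hi : (wm D.toND.N D.G.a 1 x).im = (∑ i ∈ Finset.range D.toND.N, ((D.toND.zt 1 i).2 : ℝ) * x i) / D.G.S := by
    rw [wm_im, Finset.sum_div]
    refine Finset.sum_congr rfl fun i _ => ?_
    unfold TG.a NCE.aL ND.zt
    simp only [one_ne_zero, if_false]
    push_cast
    ring
  have a1 := (Complex.abs_re_le_norm (wm D.toND.N D.G.a 1 x)).trans h1
  have a2 := (Complex.abs_im_le_norm (wm D.toND.N D.G.a 1 x)).trans h1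
  rw [hr, e1, abs_div, abs_of_pos hS', div_le_div_iff_of_pos_right hS'] at a1
  rw [hi, e1, abs_div, abs_of_pos hS', div_le_div_iff_of_pos_right hS'] at a2
  exact ⟨a1, a2⟩

theorem boxH (hS : 0 < D.G.S) (h : AvgH D.toND.R D.Z.cd D.G.a D.toND.e u Z x A) {τ : List ℝ}
    (hl : τ.length = 2 * D.h) (ht : ∀ t ∈ τ, 0 ≤ t ∧ t ≤ 1) : D.st.Box x τ := by
  obtain ⟨b1, b2⟩ := sum_t1H hS h
  refine ⟨h.last, fun i hi => ?_, fun i hi => ?_, hl, ht, ?_⟩
  · have hi' : i < D.toND.N := hi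
    show -(((ls D.toND.N D.toND.zl).getD i 0 : ℤ) : ℝ) ≤ ((V20 : ℤ) : ℝ) * _
    rw [getD_ls _ _ _ hi']
    have h1 := h.lo i hi'
    have e : (D.Z.cd.lb i : ℝ) = (D.toND.zl i : ℝ) / 1048576 := nq_cast _ _
    rw [e] at h1
    unfold V20
    push_cast
    linarith
  · have hi' : i < D.toND.N := hi
    show ((V20 : ℤ) : ℝ) * _ ≤ (((ls D.toND.N D.toND.zh).getD i 0 : ℤ) : ℝ)
    rw [getD_ls _ _ _ hi']
    have h1 := h.hi i hi'
    have e : (D.Z.cd.hb i : ℝ) = (D.toND.zh i : ℝ) / 1048576 := nq_cast _ _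
    rw [e] at h1
    unfold V20
    push_cast
    linarith
  · have key : ∀ f : ℕ → ℤ, (∑ i ∈ Finset.range D.toND.N, ev3 ((ls D.toND.N fun i => (⟨0, f i, 0⟩ : A3)).getD i
        PLK.A3.zero) (x i) (x (i + 1))) = ∑ i ∈ Finset.range D.toND.N, (f i : ℝ) * x i := by
      intro f
      refine Finset.sum_congr rfl fun i hi => ?_
      rw [getD_ls _ _ _ (Finset.mem_range.1 hi)]
      unfold ev3
      push_cast
      ring
    have kz : ∀ c : ℤ, lz [c] (1 :: τ) = c := fun c => by simp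
    intro f hf
    have hf' : f ∈ [((ls D.toND.N fun i => (⟨0, (D.toND.zt 1 i).1, 0⟩ : A3)), [D.toND.ze 1]),
      (ls D.toND.N fun i => ⟨0, -(D.toND.zt 1 i).1, 0⟩, [D.toND.ze 1]),
      (ls D.toND.N fun i => ⟨0, (D.toND.zt 1 i).2, 0⟩, [D.toND.ze 1]),
      (ls D.toND.N fun i => ⟨0, -(D.toND.zt 1 i).2, 0⟩, [D.toND.ze 1])] := hf
    simp only [List.mem_cons, List.not_mem_nil, or_false] at hf'
    have c1 := abs_le.1 b1
    have c2 := abs_le.1 b2
    show 0 ≤ ∑ i ∈ Finset.range D.toND.N, _ + _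
    rcases hf' with rfl | rfl | rfl | rfl <;> simp only [key, kz] <;> push_cast <;>
      (try simp only [neg_mul, Finset.sum_neg_distrib]) <;> linarith [c1.1, c1.2, c2.1, c2.2]

/-- **the integer form is nonnegative** -/
theorem int_formH (hN : D.G.N = D.Z.G.N) (hS : 0 < D.G.S) (h3 : 3 ≤ D.toND.N)
    (hC : shp D.C D.toND.R = true) (h : AvgH D.toND.R D.Z.cd D.G.a D.toND.e u Z x A) {w : List ℝ}
    (hEng : ∀ τ : List ℝ, D.st.Box x τ → ∃ θ, D.st.Par x θ ∧ 0 ≤ D.st.val w x θ τ)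
    (hP : ∀ i < D.toND.N, 0 ≤ iz w (D.pp i)) (hK : ∀ i < D.toND.N, iz w (D.Kd i) ≤ 0) :
    iz w D.Ks - ∑ m ∈ Finset.range D.h, ‖((iz w (D.Q.getD (2 * m + 1) []) : ℝ) : ℂ)
        - ((iz w (D.Q.getD (2 * m + 2) []) : ℝ) : ℂ) * Complex.I‖ * D.toND.e (2 * m + 2)
      ≤ qC D.toND.R w D.C (yv u) + ∑ k ∈ Finset.range D.toND.R, iz w (D.Q.getD k []) * Zv Z k := by
  have hN0 : 0 < D.toND.N := by omega
  have hN0' : (0 : ℝ) < D.toND.N := by exact_mod_cast hN0
  have hS' : (0 : ℝ) < D.G.S := by exact_mod_cast hS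
  obtain ⟨t, ht, hy⟩ := ex_tauH h
  obtain ⟨τ, hτ⟩ : ∃ τ : List ℝ, τ = (List.range (2 * D.h)).map fun k => t (k + 1) := ⟨_, rfl⟩
  have hl : τ.length = 2 * D.h := by simp [hτ]
  have hb : ∀ a ∈ τ, 0 ≤ a ∧ a ≤ 1 := by
    intro a ha
    rw [hτ] at ha
    obtain ⟨k, -, rfl⟩ := List.mem_map.1 ha
    exact ht _
  have hg : ∀ k, k < 2 * D.h → τ.getD k 0 = t (k + 1) := by
    intro k hk
    rw [hτ]
    simp [List.getD_eq_getElem?_getD, hk]
  obtain ⟨θ, hp, hv⟩ := hEng τ (boxH hS h hl hb)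
  have hL := valL (D := D.toND) (x := x) τ (y := yv u) (by simp [yv]) hS'.ne' (fun k h1 h9 => by
    have hy' := hy k h1 h9
    have hNN : D.Z.cd.N = D.toND.N := rfl
    rw [hNN] at hy'
    rw [hy', hg (k - 1) (by unfold ND.R at h9; omega), show k - 1 + 1 = k by omega])
  have hL' : D.st.L.map (D.st.lf x τ) = ((List.range D.toND.R).map fun k => D.G.S * yv u k) ++ xt D.toND x := hL
  have hC' : qv id (D.st.C.map fun r => r.map (iz w)) (((List.range D.toND.R).map fun k => D.G.S * yv u k)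
      ++ xt D.toND x) = 1048576 * (D.toND.N * (D.G.S : ℝ) ^ 2 * qC D.toND.R w D.C (yv u)) :=
    valC (D := D.toND) hC w (yv u) (xt D.toND x)
  have hT : qv id (D.st.T.map fun r => r.map (iz w)) (1 :: (θ ++ τ))
      = ∑ i ∈ Finset.range D.toND.N, (2 * 1048576) ^ 2 * (1048576 * (D.G.S : ℝ))
        * (iz w (D.Kd i) * (VBh D.Z.cd x i - (D.toND.zv i : ℝ) / 1048576)) := by
    show qv id (((sumT OZ D.th D.toND.N).map fun r => r.map fun c => addZ c ND.z9).map fun r => r.map (iz w)) _ = _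
    rw [qv_pad, qv_sumT]
    exact Finset.sum_congr rfl fun i hi => th_eq h3 hp w (Finset.mem_range.1 hi)
  unfold ST.val at hv
  have hκ : ((D.st.κ : ℤ) : ℝ) = 1048576 := by
    show ((V20 : ℤ) : ℝ) = _
    unfold V20
    norm_num
  have hcN : D.st.N = D.toND.N := rfl
  rw [hcN, hκ, hL', hC', hT, valFH hN0] at hv
  -- the quadratic part
  have hgr : ∀ i, ∑ k ∈ Finset.range (2 * D.h + 1), iz w (D.Q.getD k []) * (gr D.G.a k i : ℝ)
      = iz w (D.toND.Kx i) / (D.toND.N * D.G.S) := by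
    intro i
    rw [iz_Kx, Finset.sum_div]
    refine Finset.sum_congr rfl fun k _ => ?_
    rw [gr_eq hN hN0 hS]
    unfold ND.N
    ring
  have hq := quad_geH h (q := fun k => iz w (D.Q.getD k [])) (p := fun i => D.U * iz w (D.pp i) / (D.toND.N * D.G.S))
    (fun i hi => by
      have := hP i hi
      positivity) (fun i hi => by
      rw [hgr]
      have h1 := hK i hi
      rw [iz_Kd] at h1
      rw [div_le_div_iff_of_pos_right (by positivity)]
      linarith)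
  simp only [hgr] at hq
  rw [show 2 * D.h + 1 = D.toND.R from rfl] at hq
  have hNN : D.Z.cd.N = D.toND.N := rfl
  rw [hNN] at hq
  obtain ⟨E, hE⟩ : ∃ E : ℝ, E = ∑ m ∈ Finset.range D.h, ‖((iz w (D.Q.getD (2 * m + 1) []) : ℝ) : ℂ)
        - ((iz w (D.Q.getD (2 * m + 2) []) : ℝ) : ℂ) * Complex.I‖ * D.toND.e (2 * m + 2) := ⟨_, rfl⟩
  rw [← hE] at hq ⊢
  have hsum : ∑ i ∈ Finset.range D.toND.N, (iz w (D.toND.Kx i) / (D.toND.N * D.G.S) * (x i ^ 2 + VBh D.Z.cd x i)
        - D.U * iz w (D.pp i) / (D.toND.N * D.G.S) * VBh D.Z.cd x i)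
      = 1 / (D.toND.N * D.G.S) * (∑ i ∈ Finset.range D.toND.N, (iz w (D.toND.Kx i) * (x i ^ 2 + (D.toND.zv i : ℝ) / 1048576)
          - D.U * iz w (D.pp i) * ((D.toND.zv i : ℝ) / 1048576))
        + ∑ i ∈ Finset.range D.toND.N, iz w (D.Kd i) * (VBh D.Z.cd x i - (D.toND.zv i : ℝ) / 1048576)) := by
    rw [← Finset.sum_add_distrib, Finset.mul_sum]
    refine Finset.sum_congr rfl fun i _ => ?_
    rw [iz_Kd]
    ring
  rw [hsum] at hq
  rw [← Finset.mul_sum] at hv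
  obtain ⟨a1, ha1⟩ : ∃ a1 : ℝ, a1 = ∑ i ∈ Finset.range D.toND.N, (iz w (D.toND.Kx i) * (x i ^ 2 + (D.toND.zv i : ℝ) / 1048576)
      - D.U * iz w (D.pp i) * ((D.toND.zv i : ℝ) / 1048576)) := ⟨_, rfl⟩
  obtain ⟨a2, ha2⟩ : ∃ a2 : ℝ, a2 = ∑ i ∈ Finset.range D.toND.N, iz w (D.Kd i)
      * (VBh D.Z.cd x i - (D.toND.zv i : ℝ) / 1048576) := ⟨_, rfl⟩
  rw [← ha1, ← ha2] at hv hq
  obtain ⟨c, hc⟩ : ∃ c : ℝ, c = qC D.toND.R w D.C (yv u) := ⟨_, rfl⟩
  obtain ⟨ks, hks⟩ : ∃ ks : ℝ, ks = iz w D.Ks := ⟨_, rfl⟩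
  rw [← hc, ← hks] at hv ⊢
  have key : 0 ≤ (D.toND.N * (D.G.S : ℝ) ^ 2) * (c - ks + 1 / (D.toND.N * D.G.S) * (a1 + a2)) := by
    have e1 : (D.toND.N * (D.G.S : ℝ) ^ 2) * (c - ks + 1 / (D.toND.N * D.G.S) * (a1 + a2))
        = D.toND.N * (D.G.S : ℝ) ^ 2 * (c - ks) + D.G.S * (a1 + a2) := by
      field_simp
    rw [e1]
    have : 0 ≤ ((2 * 1048576 : ℝ) ^ 2 * 1048576) * (D.toND.N * (D.G.S : ℝ) ^ 2 * (c - ks) + D.G.S * (a1 + a2)) := by
      refine hv.trans (le_of_eq ?_)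
      ring
    exact nonneg_of_mul_nonneg_right this (by norm_num)
  have key2 := nonneg_of_mul_nonneg_right key (by positivity)
  linarith

end cert

open Pool.Agent.FPX.BTN (va e1)
open Pool.Agent.FPX.BRG (vl Zr fr_va)
open Pool.Agent.FPX.ALX (St)

/-- **the condition of the certificate bridge** -/
theorem certH {D : NH} (hN : D.G.N = D.Z.G.N) (hS : 0 < D.G.S) (h3 : 3 ≤ D.toND.N) (hC : shp D.C D.toND.R = true)
    {T : BRG.Tf} {Q : BRG.Qf} {Sc : ℚ} (hSc : 0 < Sc) {B : ℕ} (hNear : Near D.toND.R D.C D.Q Sc B T Q)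
    (hP : ∀ i < D.toND.N, ∀ z0 z1 z2, 0 ≤ iz (w3 z0 z1 z2) (D.pp i))
    (hK : ∀ i < D.toND.N, ∀ z0 z1 z2, iz (w3 z0 z1 z2) (D.Kd i) ≤ 0)
    (hKs : ∀ z : ℕ → ℂ, ∑ m ∈ Finset.range D.h, ‖((iz (w3 (z 0) (z 1) (z 2)) (D.Q.getD (2 * m + 1) []) : ℝ) : ℂ)
        - ((iz (w3 (z 0) (z 1) (z 2)) (D.Q.getD (2 * m + 2) []) : ℝ) : ℂ) * Complex.I‖ * D.toND.e (2 * m + 2)
        + B * nz z ≤ iz (w3 (z 0) (z 1) (z 2)) D.Ks)
    (hEng : ∀ z0 z1 z2 : ℂ, D.st.Good (w3 z0 z1 z2)) {s : ℝ} (hs : s ≤ 1)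
    {X : ℝ → ℝ} (hX : St s X) (hb : ∀ a, |X a| ≤ 0.62 * s) {x A : ℕ → ℝ}
    (hA : AvgH D.toND.R D.Z.cd D.G.a D.toND.e (vl va X e1) (Zr 2 va X e1) x A) (z : ℕ → ℂ) :
    0 ≤ (BRG.e2 z (vl va X e1) T + BRG.eq2 z (Zr 2 va X e1) Q).re := by
  have hb1 : ∀ a, |X a| ≤ 1 := fun a => by
    have h2 := hb a
    linarith
  have key := int_formH hN hS h3 hC hA (w := w3 (z 0) (z 1) (z 2)) (fun τ hτ => hEng _ _ _ x τ hτ)
    (fun i hi => hP i hi _ _ _) fun i hi => hK i hi _ _ _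
  have H := fr_va hX hb1
  have u0 : vl va X e1 0 = 1 := by simp [vl]
  have c1 := hNear z (vl va X e1) (Zr 2 va X e1) u0 (fun n => H.vl_neg n) (fun n => H.zc 2 n) (norm_vl hb1)
    (norm_Zr hb1 2)
  have hSc' : (0 : ℝ) < Sc := by exact_mod_cast hSc
  have c3 := hKs z
  refine nonneg_of_mul_nonneg_right ?_ hSc'
  linarith

/-! ### Booleans -/

namespace NH

/-- positivity of the majorants `P_i` and of `P_i - K_i` -/
def chkK (D : NH) : Bool :=
  (List.range D.toND.N).all fun i => KPL.psdZ (D.pp i) && KPL.psdZ ((D.Kd i).map fun x => -x)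

/-- the small checks -/
def chkN (D : NH) : Bool :=
  Nat.ble 3 D.toND.N && (Nat.beq D.G.N D.toND.N && (Nat.blt 0 D.G.S && shp D.C D.toND.R))

end NH

theorem chkK_okH {D : NH} (h : D.chkK = true) : (∀ i < D.toND.N, ∀ z0 z1 z2, 0 ≤ iz (w3 z0 z1 z2) (D.pp i)) ∧
    ∀ i < D.toND.N, ∀ z0 z1 z2, iz (w3 z0 z1 z2) (D.Kd i) ≤ 0 := by
  simp only [NH.chkK, Bool.and_eq_true, List.all_eq_true, List.mem_range] at h
  refine ⟨fun i hi z0 z1 z2 => KPL.psdZ_ok (h i hi).1 z0 z1 z2, fun i hi z0 z1 z2 => ?_⟩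
  have := KPL.psdZ_ok (h i hi).2 z0 z1 z2
  rw [iz_neg] at this
  linarith

/-- **the condition of the certificate bridge from Booleans and the record of the hat averages** -/
theorem certH_of {D : NH} (cN : D.chkN = true)
    {T : BRG.Tf} {Q : BRG.Qf} {Sc : ℚ} (hSc : 0 < Sc) {B : ℕ} (hNear : Near D.toND.R D.C D.Q Sc B T Q)
    (cK : D.chkK = true) (cS : D.toND.chkS B = true)
    (hEng : ∀ z0 z1 z2 : ℂ, D.st.Good (w3 z0 z1 z2)) {s : ℝ} (hs : s ≤ 1)
    {X : ℝ → ℝ} (hX : St s X) (hb : ∀ a, |X a| ≤ 0.62 * s) {x A : ℕ → ℝ}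
    (hA : AvgH D.toND.R D.Z.cd D.G.a D.toND.e (vl va X e1) (Zr 2 va X e1) x A) (z : ℕ → ℂ) :
    0 ≤ (BRG.e2 z (vl va X e1) T + BRG.eq2 z (Zr 2 va X e1) Q).re := by
  simp only [NH.chkN, Bool.and_eq_true] at cN
  obtain ⟨m1, m2, m3, m4⟩ := cN
  have h3 : 3 ≤ D.toND.N := Nat.le_of_ble_eq_true m1
  have hS : 0 < D.G.S := Nat.le_of_ble_eq_true m3
  obtain ⟨k1, k2⟩ := chkK_okH cK
  exact certH (Nat.eq_of_beq_eq_true m2) hS h3 m4 hSc hNear k1 k2 (chkS_ok hS cS) hEng hs hX hb hA z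

end Pool.Agent.FPX.NCD
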