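import Pool.Agent.FPX.PLG
/-!
PLO (helper1). The fast test of the certificates with three components: same record, same conclusion.
-/
set_option autoImplicit false

noncomputable section

namespace Pool.Agent.FPX.PLK

open List (Forall₂)

/-- linear combination of packed rows with the chunks of a row -/
def cmbG (C : ℕ) : PV → List (List PV) → PV
  | M, l :: L => PV.add (PV.out (PV.hd C M) (pkL C l)) (cmbG C (PV.tl C M) L)
  | _, [] => ⟨0, 0, 0⟩

/-- linear combination of packed rows with a list of chunks -/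
def cmbC (C : ℕ) : List PV → List (List PV) → PV
  | g :: G, l :: L => PV.add (PV.out g (pkL C l)) (cmbC C G L)
  | _, _ => ⟨0, 0, 0⟩

/-- first row of a list of lists -/
def hdL : List (List PV) → List PV
  | [] => []
  | x :: _ => x

def tlL : List (List PV) → List (List PV)
  | [] => []
  | _ :: l => l

/-- minus `h` times a row -/
def PV.ngs (h : ℕ) : PV → PV
  | ⟨p, n, b⟩ => ⟨Nat.mul h n, Nat.mul h p, Nat.mul h b⟩

/-- substitution in the products and minus the squares -/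
def sbM (C h : ℕ) (LA : List (List PV)) (c : List (List PV)) (G : List PV) (L : List (List PV)) : PV :=
  PV.add (cmbC C (hdL c) L) (cmbG C (PV.ngs h (hdE G)) LA)

def sbF (C h : ℕ) (LA : List (List PV)) : List (List PV) → List PV → List (List PV) → List PV
  | c, G, l :: L => addT (prL C l (sbM C h LA c G (l :: L))) (sbF C h LA (tlL c) (tlE G) L)
  | _, _, [] => []

def sbT (B C h : ℕ) (LA : List (List PV)) : List (List PV) → List PV → List (List PV) → Bool
  | c, G, l :: L => Nat.ble (Nat.succ (PV.ngs h (hdE G)).b) B &&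
    (Nat.ble (Nat.succ (sbM C h LA c G (l :: L)).b) B && sbT B C h LA (tlL c) (tlE G) L)
  | _, _, [] => true

section F

variable {B K : ℕ} {w : List ℝ}

theorem RV.ngs {x : PV} {t : ℝ} (h : RV B K w x t) (a : ℕ) : RV B K w (PV.ngs a x) (-(a * t)) := by
  have h1 := h.swap.mulN a
  have e : (a : ℝ) * -t = -(a * t) := by ring
  rw [e] at h1
  exact h1

theorem cmbG_ok (hw : w.length = K) {D : List ℝ} : ∀ (L : List (List ℤ)) (M : PV) (t : ℝ),
    RR B K w (vals L D) M t → M.b < B → (∀ l ∈ L, l.length ≤ D.length) →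
    RR B K w D (cmbG (B ^ K) M (L.map fun l => l.map pkZ)) t
  | [], M, t, h, _, _ => by
    have e : t = 0 := by
      obtain ⟨P, N, _, _, _, _, _, _, a7⟩ := h
      rw [a7]
      simp [vals, wf]
    rw [e]
    simpa [cmbG] using RR.zero
  | l :: L, M, t, h, hb, hl => by
    obtain ⟨s, t', h1, h2, h3⟩ := RR.uncons hw h hb
    have ih := cmbG_ok hw L (PV.tl (B ^ K) M) t' h2 (by rw [tl_b]; exact hb) fun m hm => hl m (by simp [hm])
    have h4 := out_pkI hw h1 l D (hl l (by simp))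
    rw [← pkL_eq] at h4
    rw [h3, mul_comm]
    exact RV.add h4 ih

theorem cmbC_eq (C : ℕ) : ∀ (G : List PV) (L : List (List ℤ)), cmbC C G (L.map fun l => l.map pkZ) = cmbS C G L
  | [], L => by cases L <;> rfl
  | g :: G, [] => rfl
  | g :: G, l :: L => by
    simp only [List.map_cons, cmbC, cmbS, pkL_eq, cmbC_eq C G L]

theorem FV.split {Y : List ℝ} {xs : List PV} {d : ℝ} {D : List ℝ} {t : ℝ} (h : FV B K w Y xs (d :: D) t) :
    ∃ r t', RR B K w Y (hdE xs) r ∧ FV B K w Y (tlE xs) D t' ∧ t = d * r + t' := by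
  cases xs with
  | nil =>
    simp only [FV] at h
    exact ⟨0, 0, RR.zero, by simp [tlE, FV], by simp [h]⟩
  | cons x xs => exact h

theorem sbF_ok (hw : w.length = K) {D : List ℝ} {LA : List (List ℤ)} (hA : ∀ l ∈ LA, l.length ≤ D.length) (h : ℕ) :
    ∀ (L : List (List ℤ)) (G : List (List PV)) (G' : List (List ℝ)) (Q : List PV) (q : ℝ),
    Forall₂ (Forall₂ (RV B K w)) G G' → FV B K w (vals LA D) Q (vals L D) q → (∀ l ∈ L, l.length ≤ D.length) →
    sbT B (B ^ K) h (LA.map fun l => l.map pkZ) G Q (L.map fun l => l.map pkZ) = true →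
    TV B K w (sbF (B ^ K) h (LA.map fun l => l.map pkZ) G Q (L.map fun l => l.map pkZ)) D
      (qv id G' (vals L D) - h * q)
  | [], G, G', Q, q, _, hq, _, _ => by
    have e : q = 0 := by
      cases Q with
      | nil => simpa [FV, vals] using hq
      | cons a Q => simp [FV, vals] at hq
    simp [sbF, TV, vals, e]
  | l :: L, G, G', Q, q, hG, hq, hl, hb => by
    simp only [List.map_cons, sbT, Bool.and_eq_true, Nat.ble_eq] at hb
    obtain ⟨b1, b2, b3⟩ := hb
    obtain ⟨r, t', h1, h2, h3⟩ := FV.split hq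
    have hG1 : Forall₂ (RV B K w) (hdL G) (G'.headD []) := by
      cases hG with
      | nil => exact .nil
      | cons h _ => exact h
    have hG2 : Forall₂ (Forall₂ (RV B K w)) (tlL G) G'.tail := by
      cases hG with
      | nil => exact .nil
      | cons _ h => exact h
    have e1 : qv id G' (vals (l :: L) D) = lz l D * lv id (G'.headD []) (vals (l :: L) D)
        + qv id G'.tail (vals L D) := by
      cases G' with
      | nil => simp
      | cons g G' => simp [vals]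
    have ih := sbF_ok hw hA h L (tlL G) G'.tail (tlE Q) t' hG2 h2 (fun m hm => hl m (by simp [hm])) b3
    have k1 := cmbS_ok hw (D := D) hG1 (L := l :: L) hl
    rw [← cmbC_eq] at k1
    have k2 := cmbG_ok hw LA (PV.ngs h (hdE Q)) _ (RV.ngs h1 h) b1 hA
    have k3 := RV.add k1 k2
    have k4 := prS_ok hw l _ D _ (hl l (by simp)) b2 k3
    rw [← prL_eq] at k4
    have k5 := TV.add k4 ih
    have e2 : lz l D * (lv id (G'.headD []) (vals (l :: L) D) + -(h * r))
        + (qv id G'.tail (vals L D) - h * t') = qv id G' (vals (l :: L) D) - h * q := by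
      rw [e1, h3]
      ring
    rw [e2] at k5
    exact k5

end F

/-- sum of the rows of the squares -/
def sumG (B C W V o m : ℕ) : List ℕ → List PV
  | x :: l => addT (sqG B C W V o m x) (sumG B C W V o m l)
  | [] => []

theorem sumG_ok {B : ℕ} {Y : List ℝ} {z1 z2 z3 : ℂ} {W : ℕ} (hW : 0 < W) (V o : ℕ) : ∀ l : List ℕ,
    ∃ t, 0 ≤ t ∧ FV B 9 (w3 z1 z2 z3) Y (sumG B (B ^ 9) W V o Y.length l) Y t
  | [] => ⟨0, le_refl _, by simp [sumG, FV]⟩
  | x :: l => by
    obtain ⟨s, s0, h1⟩ := sqG_ok (B := B) (Y := Y) (z1 := z1) (z2 := z2) (z3 := z3) hW V o x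
    obtain ⟨t, t0, h2⟩ := sumG_ok (B := B) (Y := Y) (z1 := z1) (z2 := z2) (z3 := z3) hW V o l
    exact ⟨s + t, add_nonneg s0 t0, FV.add h1 h2⟩

/-- minus the sum of the products -/
def prodL (f : ℕ → PV) (C CN n : ℕ) : List (List PV) → List (ℕ × ℕ) → List PV
  | q :: P, (x, y) :: ps => addT (prL C q (PV.ngs 1 (lamS f C CN n x y))) (prodL f C CN n P ps)
  | _, _ => []

/-- tests of the products -/
def prodU (t : ℕ → Bool) (f : ℕ → PV) (B C CN n : ℕ) : List (List PV) → List (ℕ × ℕ) → Bool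
  | _ :: P, (x, y) :: ps => lamT t CN n x && (lamT t CN n y && (Nat.ble (Nat.succ (PV.ngs 1 (lamS f C CN n x y)).b) B &&
      prodU t f B C CN n P ps))
  | _, _ => true

theorem prodL_ok {B K : ℕ} {w : List ℝ} (hw : w.length = K) {f : ℕ → PV} {g : ℕ → ℝ}
    (hf : ∀ c, RV B K w (f c) (g c)) {t : ℕ → Bool} (ht : ∀ c, t c = true → 0 ≤ g c) (CN n : ℕ) {D : List ℝ}
    (hl : D.length = n) (hD : Box D) : ∀ (P : List (List ℤ))
    (ps : List (ℕ × ℕ)), (∀ q ∈ P, q.length ≤ n + 1) → (∀ q ∈ P, 0 ≤ lz q (1 :: D)) →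
    prodU t f B (B ^ K) CN n (P.map fun l => l.map pkZ) ps = true →
    ∃ z, TV B K w (prodL f (B ^ K) CN n (P.map fun l => l.map pkZ) ps) (1 :: D) z ∧ z ≤ 0
  | [], ps, _, _, _ => ⟨0, by simp [prodL, TV], le_refl _⟩
  | _ :: _, [], _, _, _ => ⟨0, by simp [prodL, TV], le_refl _⟩
  | q :: P, (x, y) :: ps, h1, h2, h => by
    simp only [List.map_cons, prodU, Bool.and_eq_true, Nat.ble_eq] at h
    obtain ⟨g1, g2, g3, g4⟩ := h
    obtain ⟨z, k1, k2⟩ := prodL_ok hw hf ht CN n hl hD P ps (fun q hq => h1 q (by simp [hq]))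
      (fun q hq => h2 q (by simp [hq])) g4
    obtain ⟨s, r, a1, a2, a3⟩ := lam_ok hw hf ht CN n x y D hl hD g1 g2
    have a4 : RR B K w (1 :: D) (lamS f (B ^ K) CN n x y) (1 * s + r) := RR.cons hw (d := 1) a1 a2
    have a5 := prS_ok hw q (PV.ngs 1 (lamS f (B ^ K) CN n x y)) (1 :: D) _ (by
      rw [List.length_cons, hl]
      exact h1 q (by simp)) g3 (RV.ngs a4 1)
    rw [← prL_eq] at a5
    refine ⟨_, TV.add a5 k1, ?_⟩
    have a6 := h2 q (by simp)
    have a7 : 0 ≤ lz q (1 :: D) * (1 * s + r) := mul_nonneg a6 (by linarith)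
    push_cast
    linarith

/-- the complete fast test, three components -/
def CY.fst3 (D : CY) (E : Eng 9 (Cx × Cx × Cx)) : Bool :=
  let st := D.st
  let C := Nat.pow D.B 9
  let CN := Nat.pow (Nat.pow 2 D.ws) 9
  let n := Nat.add st.N st.M
  let hh := addZ st.Ls st.Hs
  let hn := hh.map fun x => -x
  let es := hh.map fun x => 2 * x
  let hs := hh.map Int.toNat
  let x0 := PN.nrm (PN.ad st.Ls.sum ⟨0, 0⟩)
  let rs := rhos x0 st.Ls
  let κN := Nat.mul 2 (Int.toNat st.κ)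
  let F := st.F.map fun q => (ofZ D.B q.1, q.2)
  let s := runS C es (srs E.O (2 * st.κ) st.Ls.sum st.Ls (locP E.O F))
  let G := sumG D.B C D.W2 (Nat.pow D.W2 6) D.o2 st.L.length (D.gs.map fun x => Nat.div x D.tag)
  let g2 := Nat.div D.g 2
  let L := st.L.map (rowL κN x0 rs hs)
  let P := st.P.map (rowL κN x0 rs hs)
  let Cc := st.C.map fun r => r.map (ofZ D.B)
  let j := jn D.tag (Nat.pow 2 D.pb)
  let ps := D.ps.map fun q => (j q.1, j q.2)
  Nat.beq st.Ls.length st.N && (Nat.beq st.Hs.length st.N && ((st.F.all fun q => Nat.beq q.1.length 9) &&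
    ((st.C.all fun r => r.all fun c => Nat.beq c.length 9) && ((st.T.all fun r => r.all fun c => Nat.beq c.length 9) &&
    (fitT (Nat.succ n) st.T && ((st.L.all fun q => Nat.ble q.2.length (Nat.succ st.M)) &&
    ((st.P.all fun q => Nat.ble q.2.length (Nat.succ st.M)) && (lenOk st.N F && (decide (0 < st.κ) &&
    (Nat.ble (Nat.succ (tabM C hn s).b) D.B && (sbT D.B C g2 L Cc G L && (Nat.ble 1 D.W2 &&
    (prodU E.tc E.f D.B C CN n P ps &&
    finS E.T E.t E.tg E.sp 9 D.ws D.v D.B D.S D.o D.oe D.be D.W1 n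
      (addT (addT (tabS C hn s) (sbF C g2 L Cc G L))
        (addT (st.T.map (pkR D.B C)) (prodL E.f C CN n P ps)))
      (j D.dg) (D.dt.map fun q => (j q.1, j q.2.1, j q.2.2)))))))))))))))

theorem bd_nonneg {κ' : ℤ} : ∀ {Ls Hs : List ℤ} {xs : List ℝ}, Bd κ' Ls Hs xs → ∀ z ∈ addZ Ls Hs, 0 ≤ z
  | l :: ls, h :: hs, x :: y :: xs, ⟨h1, h2, h3⟩ => by
    intro z hz
    simp only [addZ, List.mem_cons] at hz
    rcases hz with rfl | hz
    · have : (0 : ℝ) ≤ ((l + h : ℤ) : ℝ) := by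
        push_cast
        linarith
      exact_mod_cast this
    · exact bd_nonneg h3 z hz
  | [], [], [x], _ => fun z hz => by simp [addZ] at hz

theorem toNat_map : ∀ l : List ℤ, (∀ z ∈ l, 0 ≤ z) → ((l.map Int.toNat).map fun h : ℕ => (h : ℤ)) = l
  | [], _ => rfl
  | a :: l, h => by
    simp only [List.map_cons]
    rw [Int.toNat_of_nonneg (h a (by simp)), toNat_map l fun z hz => h z (by simp [hz])]

theorem certF {D : CY} {E : Eng 9 (Cx × Cx × Cx)} {z1 z2 z3 : ℂ} (H : Rl E.O (RV D.B 9 (w3 z1 z2 z3)))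
    (kit : Kit 9 (w3 z1 z2 z3) E.T E.sv)
    (ht : ∀ a b d e e', E.t a b d e e' = true → pairL E.T 9 (2 ^ D.ws) D.B D.S D.o (ofs 9 D.o E.sv) a b d e e' = true)
    (htg : ∀ a b d e e', E.tg a b d e e' = true → tgL E.T 9 (2 ^ D.ws) D.B D.S D.o D.oe E.sv a b d e e' = true)
    (hsp : ∀ x, E.sp x = od D.W1 (dgs (2 ^ D.ws) 9 x))
    {g : ℕ → ℝ} (hf : ∀ c, RV D.B 9 (w3 z1 z2 z3) (E.f c) (g c)) (htc : ∀ c, E.tc c = true → 0 ≤ g c)
    (h : D.fst3 E = true) : D.st.Good (w3 z1 z2 z3) := by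
  intro x τ hx
  simp only [CY.fst3, Bool.and_eq_true, List.all_eq_true, Nat.ble_eq, decide_eq_true_eq] at h
  obtain ⟨p1, p2, p3, p4, p5, p6, p7, p8, p9, p10, p11, p12, pW, p13, p14⟩ := h
  have q1 := Nat.eq_of_beq_eq_true p1
  have q2 := Nat.eq_of_beq_eq_true p2
  have hbd := bd_nds D.st.N D.st.Ls D.st.Hs x q1 q2 hx.lo hx.hi
  obtain ⟨θ, hb, hI⟩ := ex_inc hbd
  have hnn := bd_nonneg hbd
  obtain ⟨l1, l2⟩ := inc_par D.st.N D.st.Ls D.st.Hs θ x q1 q2 hI
  refine ⟨θ, ⟨l1, hb, l2⟩, ?_⟩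
  obtain ⟨i1, i2⟩ := inc_len hI
  generalize hhd : addZ D.st.Ls D.st.Hs = hh at hI p11 p12 p13 p14 i1 hnn
  have hs := inc_sum hI 0
  rw [nds_last, nds_headI, hx.anti] at hs
  have h0 : 2 * (D.st.κ : ℝ) * (nds x D.st.N).headI = (D.st.Ls.sum : ℤ) + -lz hh θ := by
    rw [hs, nds_headI]
    ring
  have hDl : (θ ++ τ).length = D.st.N + D.st.M := by
    rw [List.length_append, l1, hx.len]
  have hD : Box (θ ++ τ) := by
    intro d hd
    rcases List.mem_append.1 hd with hd | hd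
    · exact hb d hd
    · exact hx.box d hd
  -- the rows of the linear forms
  have hxz : (PN.nrm (PN.ad D.st.Ls.sum ⟨0, 0⟩)).z = D.st.Ls.sum := by
    rw [PN.nrm_z, PN.ad_z]
    simp [PN.z]
  have hκ : ((Nat.mul 2 (Int.toNat D.st.κ) : ℕ) : ℤ) = 2 * D.st.κ := by
    change ((2 * D.st.κ.toNat : ℕ) : ℤ) = _
    rw [Nat.cast_mul, Int.toNat_of_nonneg p10.le]
    rfl
  have hR : ∀ q, rowL (Nat.mul 2 (Int.toNat D.st.κ)) (PN.nrm (PN.ad D.st.Ls.sum ⟨0, 0⟩))
      (rhos (PN.nrm (PN.ad D.st.Ls.sum ⟨0, 0⟩)) D.st.Ls) (hh.map Int.toNat) q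
      = (rowE (2 * D.st.κ) D.st.Ls.sum D.st.Ls (hh.map fun x => 2 * x) (hh.map fun x => -x) q).map pkZ := by
    intro q
    rw [rowL_eq _ _ _ _ _ (by rw [List.length_map, i1, ← i2]), toNat_map hh hnn, hxz, hκ]
  have hRm : ∀ l : List (List A3 × List ℤ), l.map (rowL (Nat.mul 2 (Int.toNat D.st.κ))
      (PN.nrm (PN.ad D.st.Ls.sum ⟨0, 0⟩)) (rhos (PN.nrm (PN.ad D.st.Ls.sum ⟨0, 0⟩)) D.st.Ls) (hh.map Int.toNat))
      = (l.map (rowE (2 * D.st.κ) D.st.Ls.sum D.st.Ls (hh.map fun x => 2 * x) (hh.map fun x => -x))).map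
        fun l => l.map pkZ := by
    intro l
    rw [List.map_map]
    exact List.map_congr_left fun q _ => hR q
  rw [hRm] at p12 p13 p14
  rw [hRm] at p14
  -- chain part
  have hF : Forall₂ (fun (q : PV × List (P6 ℤ)) (q' : ℝ × List (P6 ℤ)) => RV D.B 9 (w3 z1 z2 z3) q.1 q'.1 ∧ q.2 = q'.2)
      (D.st.F.map fun q => (ofZ D.B q.1, q.2)) (D.st.F.map fun q => (iz (w3 z1 z2 z3) q.1, q.2)) := by
    rw [List.forall₂_map_left_iff, List.forall₂_map_right_iff]
    refine List.forall₂_same.2 fun q hq => ⟨ofZ_ok (Nat.eq_of_beq_eq_true (p3 q hq)), rfl⟩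
  have hps := srs_par H (2 * D.st.κ) D.st.Ls.sum D.st.Ls (locP_par H hF)
  have hlF : (locP OR (D.st.F.map fun q => (iz (w3 z1 z2 z3) q.1, q.2))).length = D.st.N := by
    have hne : (D.st.F.map fun q => (ofZ D.B q.1, q.2)) ≠ [] := by
      intro h
      rw [h] at p9
      simp [lenOk] at p9
    have hall : ∀ q ∈ (D.st.F.map fun q => (ofZ D.B q.1, q.2)), q.2.length = D.st.N := by
      intro q hq
      generalize (D.st.F.map fun q => (ofZ D.B q.1, q.2)) = F at p9 hq
      cases F with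
      | nil => simp at hq
      | cons a F =>
        simp only [lenOk, List.all_eq_true] at p9
        exact Nat.eq_of_beq_eq_true (p9 q hq)
    rw [← locP_length E.O D.st.N hall hne]
    exact (locP_par H hF).length_eq.symm
  have hsl : (srs OR (2 * D.st.κ) D.st.Ls.sum D.st.Ls (locP OR (D.st.F.map fun q => (iz (w3 z1 z2 z3) q.1, q.2)))).length
      = θ.length := by
    rw [srs_length _ _ _ _ _ (by rw [hlF, q1]), i2]
  have t1 := tabS_ok kit.len (τ := τ) (e := hh.map fun x => 2 * x) (hn := hh.map fun x => -x) hps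
    (by rw [List.length_map, i1]) hsl (by rw [List.length_map, i1]) p11
  rw [lz_neg, sum6_srs hI h0, sum6_locP] at t1
  -- linear forms
  have hrow : ∀ q, lz (rowE (2 * D.st.κ) D.st.Ls.sum D.st.Ls (hh.map fun x => 2 * x) (hh.map fun x => -x) q)
      (1 :: (θ ++ τ)) = (2 * D.st.κ : ℝ) * D.st.lf x τ q := by
    intro q
    rw [rowE_ok hI h0 q, sum3_nds]
    rfl
  have hlen : ∀ q : List A3 × List ℤ, q.2.length ≤ D.st.M + 1 →
      (rowE (2 * D.st.κ) D.st.Ls.sum D.st.Ls (hh.map fun x => 2 * x) (hh.map fun x => -x) q).length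
        ≤ D.st.N + D.st.M + 1 := by
    intro q hq
    have := rowE_length hI (M := D.st.M) hq
    rw [l1] at this
    exact this
  have hC : Forall₂ (Forall₂ (RV D.B 9 (w3 z1 z2 z3))) (D.st.C.map fun r => r.map (ofZ D.B))
      (D.st.C.map fun r => r.map (iz (w3 z1 z2 z3))) := by
    rw [List.forall₂_map_left_iff, List.forall₂_map_right_iff]
    refine List.forall₂_same.2 fun r hr => ?_
    rw [List.forall₂_map_left_iff, List.forall₂_map_right_iff]
    exact List.forall₂_same.2 fun c hc => ofZ_ok (Nat.eq_of_beq_eq_true (p4 r hr c hc))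
  have hLl : ∀ l ∈ D.st.L.map (rowE (2 * D.st.κ) D.st.Ls.sum D.st.Ls (hh.map fun x => 2 * x) (hh.map fun x => -x)),
      l.length ≤ (1 :: (θ ++ τ)).length := by
    intro l hl
    obtain ⟨q, hq, rfl⟩ := List.mem_map.1 hl
    rw [List.length_cons, hDl]
    exact hlen q (p7 q hq)
  obtain ⟨q, q0, hq⟩ := sumG_ok (B := D.B) (Y := vals (D.st.L.map (rowE (2 * D.st.κ) D.st.Ls.sum D.st.Ls
    (hh.map fun x => 2 * x) (hh.map fun x => -x))) (1 :: (θ ++ τ))) (z1 := z1) (z2 := z2) (z3 := z3) (W := D.W2)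
    pW (Nat.pow D.W2 6) D.o2 (D.gs.map fun x => Nat.div x D.tag)
  have hvl : (vals (D.st.L.map (rowE (2 * D.st.κ) D.st.Ls.sum D.st.Ls (hh.map fun x => 2 * x)
      (hh.map fun x => -x))) (1 :: (θ ++ τ))).length = D.st.L.length := by
    simp [vals]
  rw [hvl] at hq
  have t2 := sbF_ok kit.len hLl (Nat.div D.g 2) _ _ _ _ q hC hq hLl p12
  have e2 : vals (D.st.L.map (rowE (2 * D.st.κ) D.st.Ls.sum D.st.Ls (hh.map fun x => 2 * x) (hh.map fun x => -x)))
      (1 :: (θ ++ τ)) = (D.st.L.map (D.st.lf x τ)).map fun y => (2 * D.st.κ : ℝ) * y := by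
    unfold vals
    rw [List.map_map, List.map_map]
    exact List.map_congr_left fun q _ => hrow q
  rw [e2, qv_scale] at t2
  -- table
  have t3 := pkT_ok (B := D.B) kit.len D.st.T (1 :: (θ ++ τ)) (fun r hr c hc => Nat.eq_of_beq_eq_true (p5 r hr c hc))
    (by rw [List.length_cons, hDl]; exact p6)
  -- products
  obtain ⟨z, t4, hz⟩ := prodL_ok kit.len hf htc ((2 ^ D.ws) ^ 9) (D.st.N + D.st.M) hDl hD
    (D.st.P.map (rowE (2 * D.st.κ) D.st.Ls.sum D.st.Ls (hh.map fun x => 2 * x) (hh.map fun x => -x)))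
    (D.ps.map fun q => (jn D.tag (Nat.pow 2 D.pb) q.1, jn D.tag (Nat.pow 2 D.pb) q.2))
    (fun q hq => by
      obtain ⟨r, hr, rfl⟩ := List.mem_map.1 hq
      exact hlen r (p8 r hr)) (fun q hq => by
      obtain ⟨r, hr, rfl⟩ := List.mem_map.1 hq
      rw [hrow]
      have h1 := hx.pos r hr
      have h2 : (0 : ℝ) < D.st.κ := by exact_mod_cast p10
      positivity) p13
  have key := finS_ok kit ht htg hsp p14 hDl hD (TV.add (TV.add t1 t2) (TV.add t3 t4))
  have hg : (0 : ℝ) ≤ (Nat.div D.g 2 : ℕ) * q := mul_nonneg (Nat.cast_nonneg _) q0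
  unfold ST.val
  simp only [List.map_map, Function.comp_def, sum6_nds] at key
  linarith

/-- the complete test, three components -/
def CY.fast3 (D : CY) : Bool := Nat.ble D.o (Nat.pow 2 D.ws) && D.fst3 D.E3

/-- **certificate with three components** -/
theorem certF3 {D : CY} (h : D.fast3 = true) (z1 z2 z3 : ℂ) : D.st.Good (w3 z1 z2 z3) := by
  simp only [CY.fast3, Bool.and_eq_true, Nat.ble_eq] at h
  have kit := kit3 z1 z2 z3
  refine certF (E := D.E3) (rl3 D.B z1 z2 z3) kit (fun a b d e e' h => ?_) (fun _ _ _ _ _ h => h)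
    (fun x => sp9_eq _ _ x) (g := fun c => D.S1 * (ip (w3 z1 z2 z3) (dgs (2 ^ D.ws) 9 c)
      - D.o * ip (w3 z1 z2 z3) (List.replicate 9 1))) (fun c => ?_) (fun c hc => ?_) h.2
  · exact (pr3_eq (2 ^ D.ws) D.B D.S D.o a b d e e').symm.trans h
  · have := dec_val (B := D.B) (K := 9) (S := D.S1) (w := w3 z1 z2 z3) (show 0 < 2 ^ D.ws by positivity) h.1 c
    rw [← sp9_eq] at this
    exact this
  · have h1 := kit.sound (dgs (2 ^ D.ws) 9 c) (List.replicate 9 D.o) (dgs_length _ _) (by simp) hc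
    rw [ip_rep D.o] at h1
    exact mul_nonneg (Nat.cast_nonneg _) (by linarith)

end Pool.Agent.FPX.PLK
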