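import Pool.Agent.FPX.PLS
/-!
PLP (helper1). Certificates with packed rows for two and three components.
-/
set_option autoImplicit false

noncomputable section

namespace Pool.Agent.FPX.PLK

open List (Forall₂)

/-! ### two components -/

def T2 : List ℕ → List ℕ → Bool
  | [a, d, r, i], [a', d', r', i'] => t2 a a' d d' r r' i i'
  | _, _ => false

def sv2 : List ℕ := [3, 3, 0, 0]

theorem cross_le (z1 z2 : ℂ) : |2 * ((starRingEnd ℂ) z1 * z2).re| ≤ Complex.normSq z1 + Complex.normSq z2 ∧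
    |-(2 * ((starRingEnd ℂ) z1 * z2).im)| ≤ Complex.normSq z1 + Complex.normSq z2 := by
  simp only [Complex.normSq_apply, Complex.mul_re, Complex.mul_im, Complex.conj_re, Complex.conj_im]
  constructor
  · rw [abs_le]
    constructor <;> nlinarith [sq_nonneg (z1.re + z2.re), sq_nonneg (z1.im + z2.im), sq_nonneg (z1.re - z2.re),
      sq_nonneg (z1.im - z2.im)]
  · rw [abs_le]
    constructor <;> nlinarith [sq_nonneg (z1.re + z2.im), sq_nonneg (z1.im + z2.re), sq_nonneg (z1.re - z2.im),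
      sq_nonneg (z1.im - z2.re)]

theorem prod_ge {v a : ℝ} {r q S : ℕ} (h : |v| ≤ a) (hr : r ≤ S) (hq : q ≤ S) : -(S * a) ≤ v * r - v * q := by
  have h1 : (r : ℝ) ≤ S := by exact_mod_cast hr
  have h2 : (0 : ℝ) ≤ r := Nat.cast_nonneg _
  have h1' : (q : ℝ) ≤ S := by exact_mod_cast hq
  have h2' : (0 : ℝ) ≤ q := Nat.cast_nonneg _
  have h5 : |(r : ℝ) - q| ≤ S := abs_le.2 ⟨by linarith, by linarith⟩
  have h6 : |v * ((r : ℝ) - q)| ≤ a * S := by
    rw [abs_mul]
    exact mul_le_mul h h5 (abs_nonneg _) ((abs_nonneg v).trans h)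
  have := (abs_le.1 h6).1
  linarith

theorem diag_ge {a : ℝ} {r q S : ℕ} (ha : 0 ≤ a) (hq : q ≤ S) : -(S * a) ≤ a * r - a * q := by
  have h1 : (q : ℝ) ≤ S := by exact_mod_cast hq
  have h2 : (0 : ℝ) ≤ r := Nat.cast_nonneg _
  have h3 := mul_le_mul_of_nonneg_left h1 ha
  have h4 := mul_nonneg ha h2
  linarith

theorem kit2 (z1 z2 : ℂ) : Kit 4 (w2 z1 z2) T2 sv2 where
  pos := by norm_num
  len := rfl
  slen := rfl
  sound := by
    intro P N hP hN h
    match P, N, hP, hN with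
    | [a, d, r, i], [a', d', r', i'], _, _ =>
      simp only [T2] at h
      obtain ⟨k1, k2, k3⟩ := t2_sound h
      have hw : (2 * ((starRingEnd ℂ) z1 * z2).re) ^ 2 + (-(2 * ((starRingEnd ℂ) z1 * z2).im)) ^ 2
          = 4 * (Complex.normSq z1 * Complex.normSq z2) := by
        rw [Complex.normSq_apply, Complex.normSq_apply]
        simp only [Complex.mul_re, Complex.mul_im, Complex.conj_re, Complex.conj_im]
        ring
      have := quad2 k1 k2 k3 (Complex.normSq_nonneg z1) (Complex.normSq_nonneg z2) hw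
      simp only [w2, ip]
      linarith
  rem := by
    intro R Q S hR hQ h h'
    match R, Q, hR, hQ with
    | [a, b, c, d], [a', b', c', d'], _, _ =>
      obtain ⟨c1, c2⟩ := cross_le z1 z2
      have h1 := prod_ge c1 (h c (by simp)) (h' c' (by simp))
      have h2 := prod_ge c2 (h d (by simp)) (h' d' (by simp))
      have h3 := diag_ge (r := a) (Complex.normSq_nonneg z1) (h' a' (by simp))
      have h4 := diag_ge (r := b) (Complex.normSq_nonneg z2) (h' b' (by simp))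
      simp only [w2, ip, sv2]
      push_cast
      linarith

def pr2 (W B S o f1 f0 : ℕ) (a b d e e' : ℕ) : Bool :=
  dig4 W a fun a1 a2 a3 a4 => dig4 W b fun b1 b2 b3 b4 => dig4 W d fun d1 d2 d3 d4 =>
    t2 a1 o a2 o a3 o a4 o && (t2 b1 o b2 o b3 o b4 o && (t2 d1 o d2 o d3 o d4 o &&
      dig4 B e fun e1 e2 e3 e4 => dig4 B e' fun g1 g2 g3 g4 =>
        t2 (Nat.add (Nat.add b1 d1) (Nat.div e1 S)) (Nat.add (Nat.add a1 f1) (Nat.div g1 S))
          (Nat.add (Nat.add b2 d2) (Nat.div e2 S)) (Nat.add (Nat.add a2 f1) (Nat.div g2 S))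
          (Nat.add (Nat.add b3 d3) (Nat.div e3 S)) (Nat.add (Nat.add a3 f0) (Nat.div g3 S))
          (Nat.add (Nat.add b4 d4) (Nat.div e4 S)) (Nat.add (Nat.add a4 f0) (Nat.div g4 S))))

theorem pr2_eq (W B S o a b d e e' : ℕ) : pr2 W B S o (Nat.add o 3) (Nat.add o 0) a b d e e'
    = pairL T2 4 W B S o (ofs 4 o sv2) a b d e e' := rfl

/-- the data for two components -/
def CY.E2 (D : CY) : Eng 4 (Cx × Cx) where
  O := O2 D.B
  S := S2 D.B
  T := T2
  t := pr2 (Nat.pow 2 D.ws) D.B D.S D.o (Nat.add D.o 3) (Nat.add D.o 0)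
  tg := tgL T2 4 (Nat.pow 2 D.ws) D.B D.S D.o D.oe sv2
  tc := fun c => T2 (dgs (Nat.pow 2 D.ws) 4 c) (List.replicate 4 D.o)
  sp := sp4 D.W1 (Nat.pow 2 D.ws)
  f := fun c => ⟨Nat.mul D.S1 (sp4 D.B (Nat.pow 2 D.ws) c), Nat.mul D.S1 (od D.B (List.replicate 4 D.o)),
    Nat.mul D.S1 (Nat.pow 2 D.ws)⟩
  G := D.gs.map fun x => (D.g, decW2 D.W2 D.o2 D.st.L.length (Nat.div x D.tag))
  sv := sv2

/-- the complete test, two components -/
def CY.chk2 (D : CY) : Bool := Nat.ble D.o (Nat.pow 2 D.ws) && D.chk D.E2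

/-- **certificate with two components** -/
theorem certY2 {D : CY} (h : D.chk2 = true) (z1 z2 : ℂ) : D.st.Good (w2 z1 z2) := by
  simp only [CY.chk2, Bool.and_eq_true, Nat.ble_eq] at h
  have kit := kit2 z1 z2
  refine certY (E := D.E2) (rl2 D.B z1 z2) (rs2 D.B z1 z2) kit (fun a b d e e' h => ?_) (fun _ _ _ _ _ h => h)
    (fun x => sp4_eq _ _ x) (g := fun c => D.S1 * (ip (w2 z1 z2) (dgs (2 ^ D.ws) 4 c)
      - D.o * ip (w2 z1 z2) (List.replicate 4 1))) (fun c => ?_) (fun c hc => ?_) h.2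
  · exact (pr2_eq (2 ^ D.ws) D.B D.S D.o a b d e e').symm.trans h
  · have := dec_val (B := D.B) (K := 4) (S := D.S1) (w := w2 z1 z2) (show 0 < 2 ^ D.ws by positivity) h.1 c
    rw [← sp4_eq] at this
    exact this
  · have h1 := kit.sound (dgs (2 ^ D.ws) 4 c) (List.replicate 4 D.o) (dgs_length _ _) (by simp) hc
    rw [ip_rep D.o] at h1
    exact mul_nonneg (Nat.cast_nonneg _) (by linarith)

/-! ### three components -/

def T3 : List ℕ → List ℕ → Bool
  | [a, d, f, b1, b3, c1, c3, e1, e3], [a', d', f', b2, b4, c2, c4, e2, e4] =>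
    t3 a a' d d' f f' b1 b2 b3 b4 c1 c2 c3 c4 e1 e2 e3 e4
  | _, _ => false

def sv3 : List ℕ := [5, 5, 5, 0, 0, 0, 0, 0, 0]

theorem kit3 (z1 z2 z3 : ℂ) : Kit 9 (w3 z1 z2 z3) T3 sv3 where
  pos := by norm_num
  len := rfl
  slen := rfl
  sound := by
    intro P N hP hN h
    match P, N, hP, hN with
    | [a, d, f, b1, b3, c1, c3, e1, e3], [a', d', f', b2, b4, c2, c4, e2, e4], _, _ =>
      simp only [T3] at h
      obtain ⟨A, D, F, br, bi, cr, ci, er, ei, eA, eD, eF, ebr, ebi, ecr, eci, eer, eei, hA, k1, k2, k3⟩ := t3_sound h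
      have := quad3 hA k1 k2 k3 z1 z2 z3
      rw [eA, eD, eF, ebr, ebi, ecr, eci, eer, eei] at this
      simp only [w3, ip]
      linarith
  rem := by
    intro R Q S hR hQ h h'
    match R, Q, hR, hQ with
    | [a, b, c, r1, r2, r3, r4, r5, r6], [a', b', c', q1, q2, q3, q4, q5, q6], _, _ =>
      obtain ⟨c1, c2⟩ := cross_le z1 z2
      obtain ⟨c3, c4⟩ := cross_le z1 z3
      obtain ⟨c5, c6⟩ := cross_le z2 z3
      have h1 := prod_ge c1 (h r1 (by simp)) (h' q1 (by simp))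
      have h2 := prod_ge c2 (h r2 (by simp)) (h' q2 (by simp))
      have h3 := prod_ge c3 (h r3 (by simp)) (h' q3 (by simp))
      have h4 := prod_ge c4 (h r4 (by simp)) (h' q4 (by simp))
      have h5 := prod_ge c5 (h r5 (by simp)) (h' q5 (by simp))
      have h6 := prod_ge c6 (h r6 (by simp)) (h' q6 (by simp))
      have a1 := diag_ge (r := a) (Complex.normSq_nonneg z1) (h' a' (by simp))
      have a2 := diag_ge (r := b) (Complex.normSq_nonneg z2) (h' b' (by simp))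
      have a3 := diag_ge (r := c) (Complex.normSq_nonneg z3) (h' c' (by simp))
      simp only [w3, ip, sv3]
      push_cast
      linarith

def pr3 (W B S o f1 f0 : ℕ) (a b d e e' : ℕ) : Bool :=
  dig9 W a fun a1 a2 a3 a4 a5 a6 a7 a8 a9 => dig9 W b fun b1 b2 b3 b4 b5 b6 b7 b8 b9 =>
  dig9 W d fun d1 d2 d3 d4 d5 d6 d7 d8 d9 =>
    t3 a1 o a2 o a3 o a4 o a5 o a6 o a7 o a8 o a9 o && (t3 b1 o b2 o b3 o b4 o b5 o b6 o b7 o b8 o b9 o &&
    (t3 d1 o d2 o d3 o d4 o d5 o d6 o d7 o d8 o d9 o &&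
      dig9 B e fun e1 e2 e3 e4 e5 e6 e7 e8 e9 => dig9 B e' fun g1 g2 g3 g4 g5 g6 g7 g8 g9 =>
        t3 (Nat.add (Nat.add b1 d1) (Nat.div e1 S)) (Nat.add (Nat.add a1 f1) (Nat.div g1 S))
          (Nat.add (Nat.add b2 d2) (Nat.div e2 S)) (Nat.add (Nat.add a2 f1) (Nat.div g2 S))
          (Nat.add (Nat.add b3 d3) (Nat.div e3 S)) (Nat.add (Nat.add a3 f1) (Nat.div g3 S))
          (Nat.add (Nat.add b4 d4) (Nat.div e4 S)) (Nat.add (Nat.add a4 f0) (Nat.div g4 S))
          (Nat.add (Nat.add b5 d5) (Nat.div e5 S)) (Nat.add (Nat.add a5 f0) (Nat.div g5 S))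
          (Nat.add (Nat.add b6 d6) (Nat.div e6 S)) (Nat.add (Nat.add a6 f0) (Nat.div g6 S))
          (Nat.add (Nat.add b7 d7) (Nat.div e7 S)) (Nat.add (Nat.add a7 f0) (Nat.div g7 S))
          (Nat.add (Nat.add b8 d8) (Nat.div e8 S)) (Nat.add (Nat.add a8 f0) (Nat.div g8 S))
          (Nat.add (Nat.add b9 d9) (Nat.div e9 S)) (Nat.add (Nat.add a9 f0) (Nat.div g9 S))))

theorem pr3_eq (W B S o a b d e e' : ℕ) : pr3 W B S o (Nat.add o 5) (Nat.add o 0) a b d e e'
    = pairL T3 9 W B S o (ofs 9 o sv3) a b d e e' := rfl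

/-- the data for three components -/
def CY.E3 (D : CY) : Eng 9 (Cx × Cx × Cx) where
  O := O3 D.B
  S := S3 D.B
  T := T3
  t := pr3 (Nat.pow 2 D.ws) D.B D.S D.o (Nat.add D.o 5) (Nat.add D.o 0)
  tg := tgL T3 9 (Nat.pow 2 D.ws) D.B D.S D.o D.oe sv3
  tc := fun c => T3 (dgs (Nat.pow 2 D.ws) 9 c) (List.replicate 9 D.o)
  sp := sp9 D.W1 (Nat.pow 2 D.ws)
  f := fun c => ⟨Nat.mul D.S1 (sp9 D.B (Nat.pow 2 D.ws) c), Nat.mul D.S1 (od D.B (List.replicate 9 D.o)),
    Nat.mul D.S1 (Nat.pow 2 D.ws)⟩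
  G := D.gs.map fun x => (D.g, decW3 D.W2 D.o2 D.st.L.length (Nat.div x D.tag))
  sv := sv3

/-- the complete test, three components -/
def CY.chk3 (D : CY) : Bool := Nat.ble D.o (Nat.pow 2 D.ws) && D.chk D.E3

/-- **certificate with three components** -/
theorem certY3 {D : CY} (h : D.chk3 = true) (z1 z2 z3 : ℂ) : D.st.Good (w3 z1 z2 z3) := by
  simp only [CY.chk3, Bool.and_eq_true, Nat.ble_eq] at h
  have kit := kit3 z1 z2 z3
  refine certY (E := D.E3) (rl3 D.B z1 z2 z3) (rs3 D.B z1 z2 z3) kit (fun a b d e e' h => ?_) (fun _ _ _ _ _ h => h)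
    (fun x => sp9_eq _ _ x) (g := fun c => D.S1 * (ip (w3 z1 z2 z3) (dgs (2 ^ D.ws) 9 c)
      - D.o * ip (w3 z1 z2 z3) (List.replicate 9 1))) (fun c => ?_) (fun c hc => ?_) h.2
  · exact (pr3_eq (2 ^ D.ws) D.B D.S D.o a b d e e').symm.trans h
  · have := dec_val (B := D.B) (K := 9) (S := D.S1) (w := w3 z1 z2 z3) (show 0 < 2 ^ D.ws by positivity) h.1 c
    rw [← sp9_eq] at this
    exact this
  · have h1 := kit.sound (dgs (2 ^ D.ws) 9 c) (List.replicate 9 D.o) (dgs_length _ _) (by simp) hc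
    rw [ip_rep D.o] at h1
    exact mul_nonneg (Nat.cast_nonneg _) (by linarith)

end Pool.Agent.FPX.PLK
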