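import Mathlib
import Pool.Agent.FPX.ECT
import Pool.Agent.FPX.NCH
import Pool.Agent.FPX.PLO
import Pool.Agent.FPX.PLP

/-
ECU (helper11): `NN` of the raw lists of a control point from the record of the averages (`ND`: boxes, `NH`: hats), the
comparison of the lists with the record (`NCL.chkN`) and the engine (`Good`).
-/

open MeasureTheory Set Filter Topology Complex
open scoped ComplexConjugate

noncomputable section

set_option linter.unusedSectionVars false
set_option linter.unusedSimpArgs false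

namespace Pool.Agent.FPX.ECT

open Pool.Agent.FPX.BTN (va e1)
open Pool.Agent.FPX.ALX (St)
open Pool.Agent.FPX.BV (PsiL)
open Pool.Agent.FPX.BRG
open Pool.Agent.FPX.MCP (NN)
open Pool.Agent.FPX.NCD
open Pool.Agent.FPX.PLK (w3)

/-- the number of rounding units -/
def rB (R : ℕ) : ℕ := 5 * (R * (R + 3) / 2)

variable {T : Tf} {Q : Qf} {S E Dd Dc w : ℕ} {Ls : List ℕ} {V : List (List ℤ)}

/-- **boxes** -/
theorem nn_box {D : NCD.ND} (c0 : D.Z.G.chk0 = true) (cs : D.Z.G.chkSl = true) (cG : D.Z.chkG = true)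
    (cC : D.Z.chkC = true) {η : ℚ} (cT : D.G.chkR D.R η = true) {M : ℕ} (cM : D.chkM M η = true)
    (hS : Nat.blt 0 S = true) (hL : NCL.chkN D.R E Dd Dc w Ls V T Q D.C D.Q S = true)
    (cK : D.chkK = true) (cS : D.chkS (rB D.R) = true) (hEng : ∀ z0 z1 z2 : ℂ, D.st.Good (w3 z0 z1 z2)) :
    NN (D.Z.cd.s : ℝ) T Q := by
  intro X hX hb z
  have hS' : 0 < S := by
    have := Nat.le_of_ble_eq_true (show Nat.ble (0 + 1) S = true from hS)
    omega
  exact cert_of c0 cs cG cC cT cM (Sc := (S : ℚ)) (by exact_mod_cast hS') (NCL.near_of_chkN hL) cK cS hEng hX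
    (fun a => (hb a).trans (le_of_eq (by norm_num))) z

/-- **hats**, the state theorem as hypothesis -/
theorem nn_hat {D : NCD.NH} (cN : D.chkN = true)
    (hS : Nat.blt 0 S = true) (hL : NCL.chkN D.toND.R E Dd Dc w Ls V T Q D.C D.Q S = true)
    (cK : D.chkK = true) (cS : D.toND.chkS (rB D.toND.R) = true)
    (hEng : ∀ z0 z1 z2 : ℂ, D.st.Good (w3 z0 z1 z2)) (h1 : (D.Z.cd.s : ℝ) ≤ 1)
    (hA : ∀ X : ℝ → ℝ, St (D.Z.cd.s : ℝ) X → (∀ a, |X a| ≤ 0.62 * (D.Z.cd.s : ℝ)) → ∃ x A : ℕ → ℝ,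
      HAA.AvgH D.toND.R D.Z.cd D.G.a D.toND.e (vl va X e1) (Zr 2 va X e1) x A) :
    NN (D.Z.cd.s : ℝ) T Q := by
  intro X hX hb z
  have hb' : ∀ a, |X a| ≤ 0.62 * (D.Z.cd.s : ℝ) := fun a => (hb a).trans (le_of_eq (by norm_num))
  have hS' : 0 < S := by
    have := Nat.le_of_ble_eq_true (show Nat.ble (0 + 1) S = true from hS)
    omega
  obtain ⟨x, A, h⟩ := hA X hX hb'
  exact certH_of cN (Sc := (S : ℚ)) (by exact_mod_cast hS') (NCL.near_of_chkN hL) cK cS hEng h1 hX hb' h z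

variable {d : CTD}

/-- **the control point** for a class at least as large as `d.s` -/
theorem ctl_nn (h : d.ok = true) {s : ℚ} (h0 : (decide (0 ≤ d.s) && (decide (d.s ≤ s) && decide (s ≤ 1))) = true)
    (hN : NN (s : ℝ) d.T d.Q) : CEL.CtlZ PsiL 23 23 CEL.T0 d.s d.mu d.v d.U := by
  simp only [Bool.and_eq_true, decide_eq_true_eq] at h0
  obtain ⟨h0, h1, h2⟩ := h0
  exact ctl_of h (hN.mono (by exact_mod_cast h0) (by exact_mod_cast h1) (by exact_mod_cast h2))

end Pool.Agent.FPX.ECT
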