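import Pool.Agent.FPX.CAX

/-
HAA (helper81): hat averages. Definitions and the elementary facts: increments of the hat averages from one sided
bounds of the slopes, variance from a monotone majorant.
-/

set_option autoImplicit false

open MeasureTheory Set Filter Topology
open scoped ComplexConjugate

noncomputable section

namespace Pool.Agent.FPX.HAA

open Pool.Agent.FPX.NOD Pool.Agent.FPX.CAV

/-- the hat average with the centre `k` -/
def ht (G : ℝ → ℝ) (k : ℝ) : ℝ :=
  (∫ v in (0 : ℝ)..1, v * G (k - 1 + v)) + ∫ v in (0 : ℝ)..1, (1 - v) * G (k + v)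

/-- the state in the variable of the cells -/
def qf (X : ℝ → ℝ) (N : ℕ) (t : ℝ) : ℝ := X (Real.pi * (-(1 / 2) + t / N))

variable {G F : ℝ → ℝ}

theorem int_v : ∫ v in (0 : ℝ)..1, v = 1 / 2 := by
  rw [integral_id]
  norm_num

theorem int_1v : ∫ v in (0 : ℝ)..1, (1 - v) = 1 / 2 := by
  rw [intervalIntegral.integral_sub (ii (by fun_prop) _ _) (ii (by fun_prop) _ _), int_const1, int_v]
  norm_num

theorem ht_add (hG : Continuous G) (hF : Continuous F) (k : ℝ) : ht (fun t => G t + F t) k = ht G k + ht F k := by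
  unfold ht
  have e1 : ∀ v, v * (G (k - 1 + v) + F (k - 1 + v)) = v * G (k - 1 + v) + v * F (k - 1 + v) := fun v => by ring
  have e2 : ∀ v, (1 - v) * (G (k + v) + F (k + v)) = (1 - v) * G (k + v) + (1 - v) * F (k + v) := fun v => by ring
  simp only [e1, e2]
  rw [intervalIntegral.integral_add (ii (by fun_prop) _ _) (ii (by fun_prop) _ _),
    intervalIntegral.integral_add (ii (by fun_prop) _ _) (ii (by fun_prop) _ _)]
  ring

theorem ht_smul (c k : ℝ) : ht (fun t => c * G t) k = c * ht G k := by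
  unfold ht
  have e1 : ∀ v, v * (c * G (k - 1 + v)) = c * (v * G (k - 1 + v)) := fun v => by ring
  have e2 : ∀ v, (1 - v) * (c * G (k + v)) = c * ((1 - v) * G (k + v)) := fun v => by ring
  simp only [e1, e2]
  rw [intervalIntegral.integral_const_mul, intervalIntegral.integral_const_mul]
  ring

theorem ht_neg (k : ℝ) : ht (fun t => -G t) k = -ht G k := by
  have h := ht_smul (G := G) (-1) k
  simp only [neg_one_mul] at h
  exact h

theorem ht_sub (hG : Continuous G) (hF : Continuous F) (k : ℝ) : ht (fun t => G t - F t) k = ht G k - ht F k := by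
  have h := ht_add (F := fun t => -F t) hG hF.neg k
  rw [ht_neg] at h
  simp only [← sub_eq_add_neg] at h
  exact h

theorem ht_const (c k : ℝ) : ht (fun _ => c) k = c := by
  unfold ht
  rw [intervalIntegral.integral_mul_const, intervalIntegral.integral_mul_const, int_v, int_1v]
  ring

/-- the hat average is monotone -/
theorem ht_mono (hG : Continuous G) (hF : Continuous F) (k : ℝ) (h : ∀ t ∈ Icc (k - 1) (k + 1), G t ≤ F t) :
    ht G k ≤ ht F k := by
  unfold ht
  refine add_le_add
    (intervalIntegral.integral_mono_on zero_le_one (ii (by fun_prop) _ _) (ii (by fun_prop) _ _) fun v hv => ?_)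
    (intervalIntegral.integral_mono_on zero_le_one (ii (by fun_prop) _ _) (ii (by fun_prop) _ _) fun v hv => ?_)
  · exact mul_le_mul_of_nonneg_left (h _ ⟨by linarith [hv.1], by linarith [hv.2]⟩) hv.1
  · exact mul_le_mul_of_nonneg_left (h _ ⟨by linarith [hv.1], by linarith [hv.2]⟩) (by linarith [hv.2])

/-- bound of the hat average -/
theorem ht_abs (hG : Continuous G) {x : ℝ} (h : ∀ t, |G t| ≤ x) (k : ℝ) : |ht G k| ≤ x := by
  rw [abs_le]
  constructor
  · have := ht_mono (G := fun _ => -x) (F := G) continuous_const hG k fun t _ => (abs_le.1 (h t)).1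
    rwa [ht_const] at this
  · have := ht_mono (G := G) (F := fun _ => x) hG continuous_const k fun t _ => (abs_le.1 (h t)).2
    rwa [ht_const] at this

theorem ht_nonneg (hG : Continuous G) (k : ℝ) (h : ∀ t ∈ Icc (k - 1) (k + 1), 0 ≤ G t) : 0 ≤ ht G k := by
  have := ht_mono (G := fun _ => 0) continuous_const hG k h
  rwa [ht_const] at this

/-- **Cauchy** -/
theorem ht_sq (hG : Continuous G) (k : ℝ) : ht G k ^ 2 ≤ ht (fun t => G t ^ 2) k := by
  obtain ⟨m, hm⟩ : ∃ m : ℝ, m = ht G k := ⟨_, rfl⟩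
  have h0 : 0 ≤ ht (fun t => (G t - m) ^ 2) k := ht_nonneg (by fun_prop) k fun t _ => sq_nonneg _
  have e : (fun t => (G t - m) ^ 2) = fun t => (G t ^ 2 + (-(2 * m)) * G t) + m ^ 2 := by
    funext t
    ring
  rw [e, ht_add (by fun_prop) continuous_const, ht_add (by fun_prop) (by fun_prop), ht_smul, ht_const, ← hm] at h0
  rw [← hm]
  nlinarith

/-- **Chebyshev for the hat average** -/
theorem ht_cheb (hG : Continuous G) (hF : Continuous F) (k : ℝ) (mG : MonotoneOn G (Icc (k - 1) (k + 1)))
    (mF : MonotoneOn F (Icc (k - 1) (k + 1))) : ht G k * ht F k ≤ ht (fun t => G t * F t) k := by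
  obtain ⟨m, hm⟩ : ∃ m : ℝ, m = ht G k := ⟨_, rfl⟩
  have l0 : k - 1 ∈ Icc (k - 1) (k + 1) := ⟨le_rfl, by linarith⟩
  have l1 : k + 1 ∈ Icc (k - 1) (k + 1) := ⟨by linarith, le_rfl⟩
  have h0 : G (k - 1) ≤ m := by
    rw [hm, ← ht_const (G (k - 1)) k]
    exact ht_mono continuous_const hG k fun t ht' => mG l0 ht' ht'.1
  have h1 : m ≤ G (k + 1) := by
    rw [hm]
    have := ht_mono (F := fun _ => G (k + 1)) hG continuous_const k fun t ht' => mG ht' l1 ht'.2
    rwa [ht_const] at this
  obtain ⟨c, hc, hfc⟩ := intermediate_value_Icc (by linarith : k - 1 ≤ k + 1) hG.continuousOn ⟨h0, h1⟩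
  have key : 0 ≤ ht (fun t => (G t - m) * (F t - F c)) k := by
    refine ht_nonneg (by fun_prop) k fun t ht' => ?_
    rw [← hfc]
    rcases le_total c t with h | h
    · exact mul_nonneg (by linarith [mG hc ht' h]) (by linarith [mF hc ht' h])
    · exact mul_nonneg_of_nonpos_of_nonpos (by linarith [mG ht' hc h]) (by linarith [mF ht' hc h])
  have e : (fun t => (G t - m) * (F t - F c)) = fun t => ((G t * F t + (-F c) * G t) + (-m) * F t) + m * F c := by
    funext t
    ring
  rw [e, ht_add (by fun_prop) continuous_const, ht_add (by fun_prop) (by fun_prop),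
    ht_add (by fun_prop) (by fun_prop), ht_smul, ht_smul, ht_const, ← hm] at key
  rw [← hm]
  linarith

/-! ### increments -/

/-- weight of the majorants of three neighbouring cells -/
def hs3 (A A' B C C' : ℝ) : ℝ := A / 6 + A' / 24 + 2 / 3 * B + (C / 6 - C' / 24)

theorem int_vPH (H H' : ℝ) : ∫ v in (0 : ℝ)..1, v * PH H H' v = H / 3 - H' / 24 := by
  have h : ∀ v ∈ uIcc (0 : ℝ) 1, HasDerivAt (fun v => H * v ^ 3 / 3 - H' / 2 * (v ^ 3 / 3 - v ^ 4 / 4)) (v * PH H H' v) v := by
    intro v _
    have h1 := ((hasDerivAt_pow 3 v).const_mul H).div_const 3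
    have h2 := (((hasDerivAt_pow 3 v).div_const 3).sub ((hasDerivAt_pow 4 v).div_const 4)).const_mul (H' / 2)
    refine (h1.sub h2).congr_deriv ?_
    unfold PH
    push_cast
    ring
  rw [intervalIntegral.integral_eq_sub_of_hasDerivAt h (ii (by fun_prop) _ _)]
  ring

theorem int_1vPH (H H' : ℝ) : ∫ v in (0 : ℝ)..1, (1 - v) * PH H H' v = H / 6 - H' / 24 := by
  have e : ∀ v, (1 - v) * PH H H' v = PH H H' v - v * PH H H' v := fun v => by ring
  simp only [e]
  rw [intervalIntegral.integral_sub (ii (by fun_prop) _ _) (ii (by fun_prop) _ _), int_PH, int_vPH]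
  ring

/-- upper bound of the slopes on the cell `[k, k + 1]` -/
def Up (q : ℝ → ℝ) (k H H' : ℝ) : Prop :=
  ∀ x y, 0 ≤ x → x ≤ y → y ≤ 1 → q (k + y) - q (k + x) ≤ PH H H' y - PH H H' x

/-- lower bound of the slopes on the cell `[k, k + 1]` -/
def Lo (q : ℝ → ℝ) (k H H' : ℝ) : Prop :=
  ∀ x y, 0 ≤ x → x ≤ y → y ≤ 1 → -(PH H H' y - PH H H' x) ≤ q (k + y) - q (k + x)

theorem Lo.neg {q : ℝ → ℝ} {k H H' : ℝ} (h : Lo q k H H') : Up (fun t => -q t) k H H' := fun x y a b c => by
  have := h x y a b c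
  linarith

theorem Up.neg {q : ℝ → ℝ} {k H H' : ℝ} (h : Up q k H H') : Lo (fun t => -q t) k H H' := fun x y a b c => by
  have := h x y a b c
  linarith

/-- **increments of the hat averages, upper bound** -/
theorem ht_inc {q : ℝ → ℝ} (hq : Continuous q) {k A A' B B' C C' : ℝ} (h1 : Up q (k - 1) A A') (h2 : Up q k B B')
    (h3 : Up q (k + 1) C C') : ht q (k + 1) - ht q k ≤ hs3 A A' B C C' := by
  have e0 : ht q (k + 1) - ht q k = (∫ v in (0 : ℝ)..1, v * (q (k + v) - q (k - 1 + v)))
      + ∫ v in (0 : ℝ)..1, (1 - v) * (q (k + 1 + v) - q (k + v)) := by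
    unfold ht
    have a1 : ∀ v, v * (q (k + v) - q (k - 1 + v)) = v * q (k + v) - v * q (k - 1 + v) := fun v => by ring
    have a2 : ∀ v, (1 - v) * (q (k + 1 + v) - q (k + v)) = (1 - v) * q (k + 1 + v) - (1 - v) * q (k + v) :=
      fun v => by ring
    simp only [a1, a2]
    rw [intervalIntegral.integral_sub (ii (by fun_prop) _ _) (ii (by fun_prop) _ _),
      intervalIntegral.integral_sub (ii (by fun_prop) _ _) (ii (by fun_prop) _ _)]
    have a3 : ∀ v : ℝ, k + 1 - 1 + v = k + v := fun v => by ring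
    simp only [a3]
    ring
  have e1 : hs3 A A' B C C' = (∫ v in (0 : ℝ)..1, v * (PH B B' v + A - PH A A' v))
      + ∫ v in (0 : ℝ)..1, (1 - v) * (PH C C' v + B - PH B B' v) := by
    have a1 : ∀ v, v * (PH B B' v + A - PH A A' v) = v * PH B B' v + A * v - v * PH A A' v := fun v => by ring
    have a2 : ∀ v, (1 - v) * (PH C C' v + B - PH B B' v) = (1 - v) * PH C C' v + B * (1 - v) - (1 - v) * PH B B' v :=
      fun v => by ring
    simp only [a1, a2]
    rw [intervalIntegral.integral_sub (ii (by fun_prop) _ _) (ii (by fun_prop) _ _),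
      intervalIntegral.integral_sub (ii (by fun_prop) _ _) (ii (by fun_prop) _ _),
      intervalIntegral.integral_add (ii (by fun_prop) _ _) (ii (by fun_prop) _ _),
      intervalIntegral.integral_add (ii (by fun_prop) _ _) (ii (by fun_prop) _ _),
      intervalIntegral.integral_const_mul, intervalIntegral.integral_const_mul, int_v, int_1v,
      int_vPH, int_vPH, int_1vPH, int_1vPH]
    unfold hs3
    ring
  rw [e0, e1]
  refine add_le_add
    (intervalIntegral.integral_mono_on zero_le_one (ii (by fun_prop) _ _) (ii (by fun_prop) _ _) fun v hv => ?_)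
    (intervalIntegral.integral_mono_on zero_le_one (ii (by fun_prop) _ _) (ii (by fun_prop) _ _) fun v hv => ?_)
  · refine mul_le_mul_of_nonneg_left ?_ hv.1
    have b1 := h2 0 v le_rfl hv.1 hv.2
    have b2 := h1 v 1 hv.1 hv.2 le_rfl
    rw [PH_zero, add_zero] at b1
    rw [PH_one, show k - 1 + 1 = k by ring] at b2
    linarith
  · refine mul_le_mul_of_nonneg_left ?_ (by linarith [hv.2])
    have b1 := h3 0 v le_rfl hv.1 hv.2
    have b2 := h2 v 1 hv.1 hv.2 le_rfl
    rw [PH_zero, add_zero] at b1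
    rw [PH_one] at b2
    linarith

/-- **increments of the hat averages, lower bound** -/
theorem ht_dec {q : ℝ → ℝ} (hq : Continuous q) {k A A' B B' C C' : ℝ} (h1 : Lo q (k - 1) A A') (h2 : Lo q k B B')
    (h3 : Lo q (k + 1) C C') : -hs3 A A' B C C' ≤ ht q (k + 1) - ht q k := by
  have h := ht_inc (q := fun t => -q t) hq.neg h1.neg h2.neg h3.neg
  rw [ht_neg, ht_neg] at h
  linarith

end Pool.Agent.FPX.HAA
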