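import Pool.Agent.FPX.AVT
import Pool.Agent.FPX.HAA

/-
HAT (helper87): moments from hat averages. The phase is compared with `lh y` times its piecewise linear interpolation
at the grid points; with `lh y = tan y / y` the difference has mean zero on every cell, so one integration by parts
gives an error of the third order in the width of the cells.
-/

set_option autoImplicit false

open MeasureTheory Set Filter Topology Real
open scoped NNReal ComplexConjugate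

noncomputable section

namespace Pool.Agent.FPX.HAT

open Pool.Agent.FPX.NOD (pt Fp Grid)
open Pool.Agent.FPX.ALX (St)
open Pool.Agent.FPX.SQD (ph)
open Pool.Agent.FPX.NOT (Gq)
open Pool.Agent.FPX.CAV

/-! ### series -/

theorem sin_err {x : ℝ} (hx : |x| ≤ 1) : |sin x - (x - x ^ 3 / 6 + x ^ 5 / 120)| ≤ |x| ^ 7 / 2520 := by
  have nx : ‖((x : ℂ) * Complex.I)‖ = |x| := by
    rw [norm_mul, Complex.norm_I, mul_one, Complex.norm_real, Real.norm_eq_abs]
  have h := Complex.exp_bound' (x := (x : ℂ) * Complex.I) (n := 7) (by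
    rw [nx, div_le_iff₀ (by positivity)]
    push_cast
    linarith)
  rw [nx] at h
  have h2 := (Complex.abs_im_le_norm _).trans h
  have e : (Complex.exp ((x : ℂ) * Complex.I) - ∑ j ∈ Finset.range 7, ((x : ℂ) * Complex.I) ^ j / (j.factorial : ℂ)).im
      = sin x - (x - x ^ 3 / 6 + x ^ 5 / 120) := by
    have i2 : Complex.I ^ 2 = -1 := Complex.I_sq
    have i3 : Complex.I ^ 3 = -Complex.I := by rw [pow_succ, i2]; ring
    have i4 : Complex.I ^ 4 = 1 := by rw [show (4 : ℕ) = 2 + 2 from rfl, pow_add, i2]; ring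
    have i5 : Complex.I ^ 5 = Complex.I := by rw [show (5 : ℕ) = 4 + 1 from rfl, pow_add, i4]; ring
    have i6 : Complex.I ^ 6 = -1 := by rw [show (6 : ℕ) = 4 + 2 from rfl, pow_add, i4, i2]; ring
    have s : ∑ j ∈ Finset.range 7, ((x : ℂ) * Complex.I) ^ j / (j.factorial : ℂ)
        = ((1 - x ^ 2 / 2 + x ^ 4 / 24 - x ^ 6 / 720 : ℝ) : ℂ)
          + ((x - x ^ 3 / 6 + x ^ 5 / 120 : ℝ) : ℂ) * Complex.I := by
      simp only [Finset.sum_range_succ, Finset.range_zero, Finset.sum_empty, Nat.factorial, mul_pow, i2, i3, i4,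
        i5, i6]
      push_cast
      ring
    rw [s, Complex.exp_mul_I, ← Complex.ofReal_cos, ← Complex.ofReal_sin]
    simp only [Complex.sub_im, Complex.add_im, Complex.mul_im, Complex.ofReal_re, Complex.ofReal_im, Complex.I_re,
      Complex.I_im]
    ring
  rw [e] at h2
  refine h2.trans (le_of_eq ?_)
  have e3 : (Nat.factorial 7 : ℝ) = 5040 := by norm_num [Nat.factorial]
  rw [e3]
  ring

theorem cos_err {x : ℝ} (hx : |x| ≤ 1) : |cos x - (1 - x ^ 2 / 2 + x ^ 4 / 24 - x ^ 6 / 720)| ≤ |x| ^ 8 / 20160 := by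
  have nx : ‖((x : ℂ) * Complex.I)‖ = |x| := by
    rw [norm_mul, Complex.norm_I, mul_one, Complex.norm_real, Real.norm_eq_abs]
  have h := Complex.exp_bound' (x := (x : ℂ) * Complex.I) (n := 8) (by
    rw [nx, div_le_iff₀ (by positivity)]
    push_cast
    linarith)
  rw [nx] at h
  have h2 := (Complex.abs_re_le_norm _).trans h
  have e : (Complex.exp ((x : ℂ) * Complex.I) - ∑ j ∈ Finset.range 8, ((x : ℂ) * Complex.I) ^ j / (j.factorial : ℂ)).re
      = cos x - (1 - x ^ 2 / 2 + x ^ 4 / 24 - x ^ 6 / 720) := by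
    have i2 : Complex.I ^ 2 = -1 := Complex.I_sq
    have i3 : Complex.I ^ 3 = -Complex.I := by rw [pow_succ, i2]; ring
    have i4 : Complex.I ^ 4 = 1 := by rw [show (4 : ℕ) = 2 + 2 from rfl, pow_add, i2]; ring
    have i5 : Complex.I ^ 5 = Complex.I := by rw [show (5 : ℕ) = 4 + 1 from rfl, pow_add, i4]; ring
    have i6 : Complex.I ^ 6 = -1 := by rw [show (6 : ℕ) = 4 + 2 from rfl, pow_add, i4, i2]; ring
    have i7 : Complex.I ^ 7 = -Complex.I := by rw [show (7 : ℕ) = 4 + 3 from rfl, pow_add, i4, i3]; ring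
    have s : ∑ j ∈ Finset.range 8, ((x : ℂ) * Complex.I) ^ j / (j.factorial : ℂ)
        = ((1 - x ^ 2 / 2 + x ^ 4 / 24 - x ^ 6 / 720 : ℝ) : ℂ)
          + ((x - x ^ 3 / 6 + x ^ 5 / 120 - x ^ 7 / 5040 : ℝ) : ℂ) * Complex.I := by
      simp only [Finset.sum_range_succ, Finset.range_zero, Finset.sum_empty, Nat.factorial, mul_pow, i2, i3, i4,
        i5, i6, i7]
      push_cast
      ring
    rw [s, Complex.exp_mul_I, ← Complex.ofReal_cos, ← Complex.ofReal_sin]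
    simp only [Complex.sub_re, Complex.add_re, Complex.mul_re, Complex.ofReal_re, Complex.ofReal_im, Complex.I_re,
      Complex.I_im]
    ring
  rw [e] at h2
  refine h2.trans (le_of_eq ?_)
  have e3 : (Nat.factorial 8 : ℝ) = 40320 := by norm_num [Nat.factorial]
  rw [e3]
  ring

/-! ### the primitive of the error of the interpolation -/

/-- the factor -/
def lh (y : ℝ) : ℝ := tan y / y

section prim

variable {y : ℝ}

theorem cos_lo (h0 : 0 < y) (h1 : y ≤ 4 / 5) : 1 ≤ cos y * (1 + 7 / 10 * y ^ 2) := by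
  have h := (abs_le.1 (cos_err (x := y) (by rw [abs_of_pos h0]; linarith))).1
  rw [abs_of_pos h0] at h
  obtain ⟨Y, hY⟩ : ∃ Y, Y = y ^ 2 := ⟨_, rfl⟩
  have hY0 : 0 ≤ Y := by rw [hY]; positivity
  have hY1 : Y ≤ 16 / 25 := by rw [hY]; nlinarith
  have e4 : y ^ 4 = Y ^ 2 := by rw [hY]; ring
  have e6 : y ^ 6 = Y ^ 3 := by rw [hY]; ring
  have e8 : y ^ 8 = Y ^ 4 := by rw [hY]; ring
  rw [e4, e6, e8, ← hY] at h
  have h2 : 1 - Y / 2 + Y ^ 2 / 24 - Y ^ 3 / 720 - Y ^ 4 / 20160 ≤ cos y := by linarith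
  have h3 := mul_le_mul_of_nonneg_right h2 (by positivity : (0 : ℝ) ≤ 1 + 7 / 10 * Y)
  rw [← hY]
  refine le_trans ?_ h3
  have y2 : Y ^ 2 ≤ 16 / 25 * Y := by nlinarith
  have y3 : Y ^ 3 ≤ 16 / 25 * Y ^ 2 := by nlinarith [sq_nonneg Y]
  have y4 : Y ^ 4 ≤ 16 / 25 * Y ^ 3 := by nlinarith [pow_nonneg hY0 3]
  have y5 : Y ^ 5 ≤ 16 / 25 * Y ^ 4 := by nlinarith [pow_nonneg hY0 4]
  have p3 : 0 ≤ Y ^ 3 := by positivity
  nlinarith

theorem cos_pos' (h0 : 0 < y) (h1 : y ≤ 4 / 5) : 0 < cos y := by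
  have := cos_lo h0 h1
  by_contra h
  have : cos y * (1 + 7 / 10 * y ^ 2) ≤ 0 := mul_nonpos_of_nonpos_of_nonneg (not_lt.1 h) (by positivity)
  linarith

/-- `sin² y - y² cos y` -/
theorem num_bd (h0 : 0 < y) (h1 : y ≤ 4 / 5) :
    0 ≤ sin y ^ 2 - y ^ 2 * cos y ∧ sin y ^ 2 - y ^ 2 * cos y ≤ y ^ 4 / 6 + y ^ 6 / 360 := by
  have hs := abs_le.1 (sin_err (x := y) (by rw [abs_of_pos h0]; linarith))
  have hc := abs_le.1 (cos_err (x := y) (by rw [abs_of_pos h0]; linarith))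
  rw [abs_of_pos h0] at hs hc
  obtain ⟨Y, hY⟩ : ∃ Y, Y = y ^ 2 := ⟨_, rfl⟩
  have hY0 : 0 ≤ Y := by rw [hY]; positivity
  have hY1 : Y ≤ 16 / 25 := by rw [hY]; nlinarith
  have e3 : y ^ 3 = y * Y := by rw [hY]; ring
  have e4 : y ^ 4 = Y ^ 2 := by rw [hY]; ring
  have e5 : y ^ 5 = y * Y ^ 2 := by rw [hY]; ring
  have e6 : y ^ 6 = Y ^ 3 := by rw [hY]; ring
  have e7 : y ^ 7 = y * Y ^ 3 := by rw [hY]; ring
  have e8 : y ^ 8 = Y ^ 4 := by rw [hY]; ring
  rw [e3, e5, e7] at hs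
  rw [e4, e6, e8, ← hY] at hc
  have y2 : Y ^ 2 ≤ 16 / 25 * Y := by nlinarith
  have y3 : Y ^ 3 ≤ 16 / 25 * Y ^ 2 := by nlinarith [sq_nonneg Y]
  have y4 : Y ^ 4 ≤ 16 / 25 * Y ^ 3 := by nlinarith [pow_nonneg hY0 3]
  have y5 : Y ^ 5 ≤ 16 / 25 * Y ^ 4 := by nlinarith [pow_nonneg hY0 4]
  have y6 : Y ^ 6 ≤ 16 / 25 * Y ^ 5 := by nlinarith [pow_nonneg hY0 5]
  have y7 : Y ^ 7 ≤ 16 / 25 * Y ^ 6 := by nlinarith [pow_nonneg hY0 6]
  have p2 : 0 ≤ Y ^ 2 := by positivity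
  have p3 : 0 ≤ Y ^ 3 := by positivity
  have p4 : 0 ≤ Y ^ 4 := by positivity
  have p5 : 0 ≤ Y ^ 5 := by positivity
  have p6 : 0 ≤ Y ^ 6 := by positivity
  have p7 : 0 ≤ Y ^ 7 := by positivity
  -- `sin y = y g`
  obtain ⟨g, hg⟩ : ∃ g, g = sin y / y := ⟨_, rfl⟩
  have hg1 : sin y = y * g := by rw [hg]; field_simp
  have g1 : g ≤ 1 - Y / 6 + Y ^ 2 / 120 + Y ^ 3 / 2520 := by
    have : y * g ≤ y * (1 - Y / 6 + Y ^ 2 / 120 + Y ^ 3 / 2520) := by
      rw [← hg1]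
      linarith [hs.2]
    exact le_of_mul_le_mul_left this h0
  have g2 : 1 - Y / 6 + Y ^ 2 / 120 - Y ^ 3 / 2520 ≤ g := by
    have : y * (1 - Y / 6 + Y ^ 2 / 120 - Y ^ 3 / 2520) ≤ y * g := by
      rw [← hg1]
      linarith [hs.1]
    exact le_of_mul_le_mul_left this h0
  have l0 : 0 ≤ 1 - Y / 6 + Y ^ 2 / 120 - Y ^ 3 / 2520 := by nlinarith
  have s1 : g ^ 2 ≤ (1 - Y / 6 + Y ^ 2 / 120 + Y ^ 3 / 2520) ^ 2 := pow_le_pow_left₀ (l0.trans g2) g1 2
  have s2 : (1 - Y / 6 + Y ^ 2 / 120 - Y ^ 3 / 2520) ^ 2 ≤ g ^ 2 := pow_le_pow_left₀ l0 g2 2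
  have e : sin y ^ 2 - y ^ 2 * cos y = Y * (g ^ 2 - cos y) := by
    rw [hg1, hY]
    ring
  rw [e, e4, e6]
  constructor
  · refine mul_nonneg hY0 ?_
    nlinarith [hc.2]
  · have k : g ^ 2 - cos y ≤ Y / 6 + Y ^ 2 / 360 := by nlinarith [hc.1]
    have := mul_le_mul_of_nonneg_left k hY0
    nlinarith

/-- the last inequality -/
theorem fin_bd {Y t : ℝ} (hY0 : 0 ≤ Y) (hY1 : Y ≤ 16 / 25) (ht0 : 0 ≤ t) (ht1 : t ≤ 1) :
    t * ((1 - t) / 12 + Y ^ 2 / 2520) ^ 2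
      + Y * ((1 - t) * ((1 + t) + 2 * (1 + Y / 60) * (1 + 7 / 10 * Y)) / 48 + Y ^ 2 / 20160) ^ 2
      ≤ ((1 + 2 * Y) / 31) ^ 2 := by
  have y2 : Y ^ 2 ≤ 16 / 25 * Y := by nlinarith
  have hq0 : 0 ≤ 1 - t := by linarith
  -- first part
  have a1 : t * (1 - t) ^ 2 ≤ 4 / 27 := by nlinarith [sq_nonneg (3 * t - 1), mul_nonneg hq0 (sq_nonneg (3 * t - 1)), mul_nonneg ht0 (sq_nonneg (3 * t - 1))]
  have a2 : t * (1 - t) ≤ 1 / 4 := by nlinarith [sq_nonneg (2 * t - 1)]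
  have hY2 : 0 ≤ Y ^ 2 := by positivity
  have A : t * ((1 - t) / 12 + Y ^ 2 / 2520) ^ 2 ≤ 1 / 972 + Y ^ 2 / 60480 + (Y ^ 2 / 2520) ^ 2 := by
    have e : t * ((1 - t) / 12 + Y ^ 2 / 2520) ^ 2 = t * (1 - t) ^ 2 / 144 + t * (1 - t) * (Y ^ 2 / 15120)
        + t * (Y ^ 2 / 2520) ^ 2 := by ring
    rw [e]
    have b1 : t * (1 - t) * (Y ^ 2 / 15120) ≤ 1 / 4 * (Y ^ 2 / 15120) := mul_le_mul_of_nonneg_right a2 (by positivity)
    have b2 : t * (Y ^ 2 / 2520) ^ 2 ≤ 1 * (Y ^ 2 / 2520) ^ 2 := mul_le_mul_of_nonneg_right ht1 (by positivity)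
    linarith
  -- second part
  have B : (1 - t) * ((1 + t) + 2 * (1 + Y / 60) * (1 + 7 / 10 * Y)) / 48 + Y ^ 2 / 20160
      ≤ (3 + 43 / 30 * Y + 7 / 300 * Y ^ 2) / 48 + Y ^ 2 / 20160 := by
    have h : (1 - t) * ((1 + t) + 2 * (1 + Y / 60) * (1 + 7 / 10 * Y)) ≤ 3 + 43 / 30 * Y + 7 / 300 * Y ^ 2 := by
      have : 0 ≤ t * (2 * (1 + Y / 60) * (1 + 7 / 10 * Y)) := by positivity
      nlinarith [sq_nonneg t]
    linarith
  have B0 : 0 ≤ (1 - t) * ((1 + t) + 2 * (1 + Y / 60) * (1 + 7 / 10 * Y)) / 48 + Y ^ 2 / 20160 := by positivity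
  have B2 := mul_le_mul_of_nonneg_left (pow_le_pow_left₀ B0 B 2) hY0
  have y3 : Y ^ 3 ≤ 16 / 25 * Y ^ 2 := by nlinarith
  have p3 : 0 ≤ Y ^ 3 := by positivity
  have y4 : Y ^ 4 ≤ 16 / 25 * Y ^ 3 := by nlinarith
  have p4 : 0 ≤ Y ^ 4 := by positivity
  have y5 : Y ^ 5 ≤ 16 / 25 * Y ^ 4 := by nlinarith
  nlinarith


/-- **the primitive is small** -/
theorem prim_bd {T : ℝ} (h0 : 0 < y) (h1 : y ≤ 4 / 5) (hT : |T| ≤ 1) :
    ((sin (y * T) - T * sin y) / (2 * y)) ^ 2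
      + (((cos y - cos (y * T)) / y + lh y * (1 - T ^ 2) * sin y / 2) / 2) ^ 2
      ≤ (y ^ 2 / 31 * (1 + 2 * y ^ 2)) ^ 2 := by
  have hyT : |y * T| ≤ y := by
    rw [abs_mul, abs_of_pos h0]
    exact mul_le_of_le_one_right h0.le hT
  have hy1 : |y| ≤ 1 := by rw [abs_of_pos h0]; linarith
  have s1 := sin_err (x := y * T) (hyT.trans (by linarith))
  have s2 := sin_err hy1
  have c1 := cos_err hy1
  have c2 := cos_err (x := y * T) (hyT.trans (by linarith))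
  rw [abs_of_pos h0] at s2 c1
  obtain ⟨Y, hY⟩ : ∃ Y, Y = y ^ 2 := ⟨_, rfl⟩
  obtain ⟨t, ht⟩ : ∃ t, t = T ^ 2 := ⟨_, rfl⟩
  have hY0 : 0 ≤ Y := by rw [hY]; positivity
  have hY1 : Y ≤ 16 / 25 := by rw [hY]; nlinarith
  have ht0 : 0 ≤ t := by rw [ht]; positivity
  have ht1 : t ≤ 1 := by
    rw [ht, ← sq_abs]
    exact pow_le_one₀ (abs_nonneg _) hT
  have hq0 : 0 ≤ 1 - t := by linarith
  have hcos := cos_pos' h0 h1
  -- the sine
  have hT7 : |y * T| ^ 7 ≤ |T| * y ^ 7 := by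
    rw [abs_mul, abs_of_pos h0, mul_pow, mul_comm]
    refine mul_le_mul_of_nonneg_right ?_ (by positivity)
    calc |T| ^ 7 = |T| * |T| ^ 6 := by ring
      _ ≤ |T| * 1 := mul_le_mul_of_nonneg_left (pow_le_one₀ (abs_nonneg _) hT) (abs_nonneg _)
      _ = |T| := mul_one _
  have A : |(sin (y * T) - T * sin y) / (2 * y)| ≤ |T| * (y ^ 2 * ((1 - t) / 12 + Y ^ 2 / 2520)) := by
    rw [abs_div, abs_of_pos (by positivity : 0 < 2 * y), div_le_iff₀ (by positivity)]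
    have e : sin (y * T) - T * sin y = T * (y ^ 3 * ((1 - t) / 6 * (1 - Y * (1 + t) / 20)))
        + (sin (y * T) - (y * T - (y * T) ^ 3 / 6 + (y * T) ^ 5 / 120))
        + -(T * (sin y - (y - y ^ 3 / 6 + y ^ 5 / 120))) := by
      rw [ht, hY]
      ring
    rw [e]
    refine (abs_add_three _ _ _).trans ?_
    have b1 : |T * (y ^ 3 * ((1 - t) / 6 * (1 - Y * (1 + t) / 20)))| ≤ |T| * (y ^ 3 * ((1 - t) / 6)) := by
      rw [abs_mul]
      refine mul_le_mul_of_nonneg_left ?_ (abs_nonneg _)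
      have k1 : 0 ≤ 1 - Y * (1 + t) / 20 := by nlinarith
      have k2 : 1 - Y * (1 + t) / 20 ≤ 1 := by
        have : 0 ≤ Y * (1 + t) := by positivity
        linarith
      rw [abs_of_nonneg (by positivity)]
      refine mul_le_mul_of_nonneg_left ?_ (by positivity)
      exact mul_le_of_le_one_right (by positivity) k2
    have b2 : |-(T * (sin y - (y - y ^ 3 / 6 + y ^ 5 / 120)))| ≤ |T| * (y ^ 7 / 2520) := by
      rw [abs_neg, abs_mul]
      exact mul_le_mul_of_nonneg_left s2 (abs_nonneg _)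
    have b3 := s1.trans (div_le_div_of_nonneg_right hT7 (by norm_num))
    have e3 : |T| * (y ^ 2 * ((1 - t) / 12 + Y ^ 2 / 2520)) * (2 * y)
        = |T| * (y ^ 3 * ((1 - t) / 6)) + |T| * y ^ 7 / 2520 + |T| * (y ^ 7 / 2520) := by
      rw [hY]
      ring
    rw [e3]
    linarith
  -- the cosine
  have hT8 : |y * T| ^ 8 ≤ y ^ 8 := pow_le_pow_left₀ (abs_nonneg _) hyT 8
  have hD := num_bd h0 h1
  obtain ⟨D, hDe⟩ : ∃ D, D = (sin y ^ 2 - y ^ 2 * cos y) / (2 * y * cos y) := ⟨_, rfl⟩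
  have D0 : 0 ≤ D := by
    rw [hDe]
    exact div_nonneg hD.1 (by positivity)
  have D1 : D ≤ y ^ 3 / 12 * ((1 + Y / 60) * (1 + 7 / 10 * Y)) := by
    rw [hDe, div_le_iff₀ (by positivity)]
    refine hD.2.trans ?_
    have e : y ^ 4 / 6 + y ^ 6 / 360 = y ^ 4 / 6 * (1 + Y / 60) := by
      rw [hY]
      ring
    have e2 : y ^ 3 / 12 * ((1 + Y / 60) * (1 + 7 / 10 * Y)) * (2 * y * cos y)
        = y ^ 4 / 6 * (1 + Y / 60) * (cos y * (1 + 7 / 10 * Y)) := by ring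
    rw [e, e2]
    have := cos_lo h0 h1
    rw [← hY] at this
    exact le_mul_of_one_le_right (by positivity) this
  have B : |((cos y - cos (y * T)) / y + lh y * (1 - T ^ 2) * sin y / 2) / 2|
      ≤ y ^ 3 * ((1 - t) * ((1 + t) + 2 * (1 + Y / 60) * (1 + 7 / 10 * Y)) / 48 + Y ^ 2 / 20160) := by
    have e : ((cos y - cos (y * T)) / y + lh y * (1 - T ^ 2) * sin y / 2) / 2
        = ((1 - t ^ 2) * y ^ 3 / 24 - (1 - t ^ 3) * y ^ 5 / 720 + (1 - t) * D
          + ((cos y - (1 - y ^ 2 / 2 + y ^ 4 / 24 - y ^ 6 / 720))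
            - (cos (y * T) - (1 - (y * T) ^ 2 / 2 + (y * T) ^ 4 / 24 - (y * T) ^ 6 / 720))) / y) / 2 := by
      rw [hDe, ht, lh, tan_eq_sin_div_cos]
      have := hcos.ne'
      field_simp
      ring
    rw [e, abs_div, abs_two, div_le_iff₀ two_pos]
    have r1 : |((cos y - (1 - y ^ 2 / 2 + y ^ 4 / 24 - y ^ 6 / 720))
            - (cos (y * T) - (1 - (y * T) ^ 2 / 2 + (y * T) ^ 4 / 24 - (y * T) ^ 6 / 720))) / y| ≤ y ^ 7 / 10080 := by
      rw [abs_div, abs_of_pos h0, div_le_iff₀ h0]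
      refine (abs_sub _ _).trans ?_
      have := c2.trans (div_le_div_of_nonneg_right hT8 (by norm_num))
      calc |cos y - (1 - y ^ 2 / 2 + y ^ 4 / 24 - y ^ 6 / 720)|
            + |cos (y * T) - (1 - (y * T) ^ 2 / 2 + (y * T) ^ 4 / 24 - (y * T) ^ 6 / 720)|
          ≤ y ^ 8 / 20160 + y ^ 8 / 20160 := add_le_add c1 this
        _ = y ^ 7 / 10080 * y := by ring
    have r2 : 0 ≤ (1 - t ^ 2) * y ^ 3 / 24 - (1 - t ^ 3) * y ^ 5 / 720 := by
      have e2 : (1 - t ^ 2) * y ^ 3 / 24 - (1 - t ^ 3) * y ^ 5 / 720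
          = y ^ 3 * (1 - t) * ((1 + t) / 24 - (1 + t + t ^ 2) * Y / 720) := by
        rw [hY]
        ring
      rw [e2]
      have : 0 ≤ (1 + t) / 24 - (1 + t + t ^ 2) * Y / 720 := by
        have t2 : t ^ 2 ≤ 1 := pow_le_one₀ ht0 ht1
        have : (1 + t + t ^ 2) * Y ≤ 3 * 1 := mul_le_mul (by linarith) (by linarith) hY0 (by norm_num)
        linarith
      positivity
    have r3 : (1 - t ^ 2) * y ^ 3 / 24 - (1 - t ^ 3) * y ^ 5 / 720 ≤ (1 - t) * (1 + t) * y ^ 3 / 24 := by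
      have : 0 ≤ (1 - t ^ 3) * y ^ 5 / 720 := by
        have : t ^ 3 ≤ 1 := pow_le_one₀ ht0 ht1
        have : 0 ≤ 1 - t ^ 3 := by linarith
        positivity
      have e3 : (1 - t) * (1 + t) * y ^ 3 / 24 = (1 - t ^ 2) * y ^ 3 / 24 := by ring
      linarith
    have r4 : (1 - t) * D ≤ (1 - t) * (y ^ 3 / 12 * ((1 + Y / 60) * (1 + 7 / 10 * Y))) :=
      mul_le_mul_of_nonneg_left D1 hq0
    have r5 : 0 ≤ (1 - t) * D := mul_nonneg hq0 D0
    have e4 : y ^ 3 * ((1 - t) * ((1 + t) + 2 * (1 + Y / 60) * (1 + 7 / 10 * Y)) / 48 + Y ^ 2 / 20160) * 2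
        = (1 - t) * (1 + t) * y ^ 3 / 24 + (1 - t) * (y ^ 3 / 12 * ((1 + Y / 60) * (1 + 7 / 10 * Y)))
          + y ^ 7 / 10080 := by
      rw [hY]
      ring
    rw [e4]
    refine (abs_add_le _ _).trans (add_le_add ?_ r1)
    rw [abs_of_nonneg (add_nonneg r2 r5)]
    linarith
  have A2 := pow_le_pow_left₀ (abs_nonneg _) A 2
  have B2 := pow_le_pow_left₀ (abs_nonneg _) B 2
  rw [sq_abs] at A2 B2
  refine (add_le_add A2 B2).trans ?_
  have key := mul_le_mul_of_nonneg_left (fin_bd hY0 hY1 ht0 ht1) (sq_nonneg Y)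
  have e5 : (|T| * (y ^ 2 * ((1 - t) / 12 + Y ^ 2 / 2520))) ^ 2
      + (y ^ 3 * ((1 - t) * ((1 + t) + 2 * (1 + Y / 60) * (1 + 7 / 10 * Y)) / 48 + Y ^ 2 / 20160)) ^ 2
      = Y ^ 2 * (t * ((1 - t) / 12 + Y ^ 2 / 2520) ^ 2
        + Y * ((1 - t) * ((1 + t) + 2 * (1 + Y / 60) * (1 + 7 / 10 * Y)) / 48 + Y ^ 2 / 20160) ^ 2) := by
    have hy6 : y ^ 6 = Y ^ 3 := by rw [hY]; ring
    rw [mul_pow, sq_abs, mul_pow, mul_pow (y ^ 3), ← ht, ← hY, ← pow_mul y 3 2, hy6]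
    ring
  rw [e5]
  refine key.trans (le_of_eq ?_)
  rw [← hY]
  ring

end prim

/-! ### one cell -/

/-- one cell -/
theorem cell_hat {y : ℝ} (hy : 0 < y) (hy2 : y ≤ 4 / 5) (α : ℝ) {Z : ℝ → ℝ} {K : ℝ≥0} (hZ : LipschitzWith K Z) :
    ‖(∫ v in (0 : ℝ)..1, Complex.exp (((α + 2 * y * v : ℝ) : ℂ) * Complex.I) * (Z v : ℂ))
      - (lh y : ℂ) * (Complex.exp ((α : ℂ) * Complex.I) * ((∫ v in (0 : ℝ)..1, (1 - v) * Z v : ℝ) : ℂ)
        + Complex.exp (((α + 2 * y : ℝ) : ℂ) * Complex.I) * ((∫ v in (0 : ℝ)..1, v * Z v : ℝ) : ℂ))‖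
      ≤ y ^ 2 / 31 * (1 + 2 * y ^ 2) * ∫ v in (0 : ℝ)..1, |deriv Z v| := by
  have hyc : (y : ℂ) ≠ 0 := by exact_mod_cast hy.ne'
  have hI : Complex.I ≠ 0 := Complex.I_ne_zero
  have hk : (2 * Complex.I * (y : ℂ)) ≠ 0 := by simp [hyc]
  have hcos := cos_pos' hy hy2
  have cZ := hZ.continuous
  have cZ' : Continuous fun v => (Z v : ℂ) := Complex.continuous_ofReal.comp cZ
  set f : ℝ → ℂ := fun v => Complex.exp (((α + 2 * y * v : ℝ) : ℂ) * Complex.I) with hf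
  have cf : Continuous f := by
    rw [hf]
    fun_prop
  have df : ∀ v, HasDerivAt f (2 * Complex.I * y * f v) v := by
    intro v
    have k1 : HasDerivAt (fun v : ℝ => ((α + 2 * y * v : ℝ) : ℂ) * Complex.I) (((2 * y * 1 : ℝ) : ℂ) * Complex.I) v := by
      have k0 : HasDerivAt (fun v : ℝ => α + 2 * y * v) (2 * y * 1) v :=
        ((hasDerivAt_id v).const_mul (2 * y)).const_add α
      exact k0.ofReal_comp.mul_const _
    refine k1.cexp.congr_deriv ?_
    rw [hf]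
    push_cast
    ring
  have f0 : f 0 = Complex.exp ((α : ℂ) * Complex.I) := by simp [hf]
  have f1 : f 1 = Complex.exp (((α + 2 * y : ℝ) : ℂ) * Complex.I) := by simp [hf]
  set P : ℝ → ℂ := fun v => (f v - f 0) / (2 * Complex.I * y)
    - (lh y : ℂ) * (((v - v ^ 2 / 2 : ℝ) : ℂ) * f 0 + ((v ^ 2 / 2 : ℝ) : ℂ) * f 1) with hPd
  have dP : ∀ v, HasDerivAt P (f v - (lh y : ℂ) * (((1 - v : ℝ) : ℂ) * f 0 + ((v : ℝ) : ℂ) * f 1)) v := by
    intro v
    have a1 : HasDerivAt (fun v : ℝ => ((v - v ^ 2 / 2 : ℝ) : ℂ)) ((1 - v : ℝ) : ℂ) v := by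
      have : HasDerivAt (fun v : ℝ => v - v ^ 2 / 2) (1 - v) v := by
        refine ((hasDerivAt_id v).sub ((hasDerivAt_pow 2 v).div_const 2)).congr_deriv ?_
        simp
      exact this.ofReal_comp
    have a2 : HasDerivAt (fun v : ℝ => ((v ^ 2 / 2 : ℝ) : ℂ)) ((v : ℝ) : ℂ) v := by
      have : HasDerivAt (fun v : ℝ => v ^ 2 / 2) v v := by
        refine ((hasDerivAt_pow 2 v).div_const 2).congr_deriv ?_
        simp
      exact this.ofReal_comp
    have k1 := ((a1.mul_const (f 0)).add (a2.mul_const (f 1))).const_mul (lh y : ℂ)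
    refine ((((df v).sub_const (f 0)).div_const (2 * Complex.I * y)).sub k1).congr_deriv ?_
    have : 2 * Complex.I * (y : ℂ) * f v / (2 * Complex.I * y) = f v := by
      field_simp
    rw [this]
  have cp : Continuous fun v => f v - (lh y : ℂ) * (((1 - v : ℝ) : ℂ) * f 0 + ((v : ℝ) : ℂ) * f 1) := by fun_prop
  have h := AVL.ibp dP cp hZ
  -- the value of `P`
  have pv : ∀ v : ℝ, P v = Complex.exp (((α + y : ℝ) : ℂ) * Complex.I)
      * (⟨(sin (y * (2 * v - 1)) - (2 * v - 1) * sin y) / (2 * y),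
        ((cos y - cos (y * (2 * v - 1))) / y + lh y * (1 - (2 * v - 1) ^ 2) * sin y / 2) / 2⟩ : ℂ) := by
    intro v
    have e1 : f v = Complex.exp (((α + y : ℝ) : ℂ) * Complex.I) * Complex.exp (((y * (2 * v - 1) : ℝ) : ℂ) * Complex.I) := by
      rw [hf]
      simp only
      rw [← Complex.exp_add]
      congr 1
      push_cast
      ring
    have e2 : f 0 = Complex.exp (((α + y : ℝ) : ℂ) * Complex.I) * Complex.exp (((-y : ℝ) : ℂ) * Complex.I) := by
      rw [f0, ← Complex.exp_add]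
      congr 1
      push_cast
      ring
    have e3 : f 1 = Complex.exp (((α + y : ℝ) : ℂ) * Complex.I) * Complex.exp (((y : ℝ) : ℂ) * Complex.I) := by
      rw [f1, ← Complex.exp_add]
      congr 1
      push_cast
      ring
    have k : (Complex.exp (((y * (2 * v - 1) : ℝ) : ℂ) * Complex.I) - Complex.exp (((-y : ℝ) : ℂ) * Complex.I))
          / (2 * Complex.I * y)
        - (lh y : ℂ) * (((v - v ^ 2 / 2 : ℝ) : ℂ) * Complex.exp (((-y : ℝ) : ℂ) * Complex.I)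
          + ((v ^ 2 / 2 : ℝ) : ℂ) * Complex.exp (((y : ℝ) : ℂ) * Complex.I))
        = (⟨(sin (y * (2 * v - 1)) - (2 * v - 1) * sin y) / (2 * y),
          ((cos y - cos (y * (2 * v - 1))) / y + lh y * (1 - (2 * v - 1) ^ 2) * sin y / 2) / 2⟩ : ℂ) := by
      have q : ∀ w : ℂ, w / (2 * Complex.I * y) = (((1 / (2 * y) : ℝ) : ℂ)) * (-Complex.I * w) := by
        intro w
        push_cast
        field_simp
        linear_combination w * Complex.I_sq
      rw [q]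
      have hl : lh y * cos y = sin y / y := by
        rw [lh, tan_eq_sin_div_cos]
        field_simp
      apply Complex.ext
      · simp only [Complex.sub_re, Complex.add_re, Complex.neg_re, Complex.mul_re, Complex.neg_im, Complex.ofReal_re,
          Complex.ofReal_im, zero_mul, sub_zero, neg_zero, zero_sub,
          Complex.sub_im, Complex.I_re, Complex.I_im, Complex.exp_ofReal_mul_I_re, Complex.exp_ofReal_mul_I_im, cos_neg,
          sin_neg]
        have e4 : lh y * ((v - v ^ 2 / 2) * cos y + v ^ 2 / 2 * cos y) = v * (lh y * cos y) := by ring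
        rw [e4, hl]
        field_simp
        ring
      · simp only [Complex.sub_im, Complex.add_im, Complex.neg_re, Complex.mul_im, Complex.neg_im, Complex.ofReal_re,
          Complex.ofReal_im, zero_mul, add_zero, neg_zero,
          Complex.sub_re, Complex.I_re, Complex.I_im, Complex.exp_ofReal_mul_I_re, Complex.exp_ofReal_mul_I_im, cos_neg,
          sin_neg]
        field_simp
        ring
    rw [← k]
    have : P v = (f v - f 0) / (2 * Complex.I * y)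
      - (lh y : ℂ) * (((v - v ^ 2 / 2 : ℝ) : ℂ) * f 0 + ((v ^ 2 / 2 : ℝ) : ℂ) * f 1) := rfl
    rw [this, e1, e2, e3]
    ring
  have P0 : P 0 = 0 := by
    rw [hPd]
    simp
  have P1 : P 1 = 0 := by
    rw [pv]
    have : (⟨(sin (y * (2 * 1 - 1)) - (2 * 1 - 1) * sin y) / (2 * y),
        ((cos y - cos (y * (2 * 1 - 1))) / y + lh y * (1 - (2 * 1 - 1) ^ 2) * sin y / 2) / 2⟩ : ℂ) = 0 := by
      apply Complex.ext
      · simp only [Complex.zero_re]
        norm_num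
      · simp only [Complex.zero_im]
        norm_num
    rw [this, mul_zero]
  have e1 : ∫ v in (0 : ℝ)..1, (f v - (lh y : ℂ) * (((1 - v : ℝ) : ℂ) * f 0 + ((v : ℝ) : ℂ) * f 1)) * (Z v : ℂ)
      = (∫ v in (0 : ℝ)..1, f v * (Z v : ℂ)) - (lh y : ℂ) * (f 0 * ((∫ v in (0 : ℝ)..1, (1 - v) * Z v : ℝ) : ℂ)
        + f 1 * ((∫ v in (0 : ℝ)..1, v * Z v : ℝ) : ℂ)) := by
    have c1 : Continuous fun v : ℝ => (((1 - v) * Z v : ℝ) : ℂ) := by
      exact Complex.continuous_ofReal.comp (by fun_prop)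
    have c2 : Continuous fun v : ℝ => ((v * Z v : ℝ) : ℂ) := by
      exact Complex.continuous_ofReal.comp (by fun_prop)
    have e2 : ∀ v : ℝ, (f v - (lh y : ℂ) * (((1 - v : ℝ) : ℂ) * f 0 + ((v : ℝ) : ℂ) * f 1)) * (Z v : ℂ)
        = f v * (Z v : ℂ) - ((lh y : ℂ) * f 0 * (((1 - v) * Z v : ℝ) : ℂ) + (lh y : ℂ) * f 1 * ((v * Z v : ℝ) : ℂ)) := by
      intro v
      push_cast
      ring
    have i1 : IntervalIntegrable (fun v => f v * (Z v : ℂ)) volume 0 1 := (cf.mul cZ').intervalIntegrable _ _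
    have i2 : IntervalIntegrable (fun v : ℝ => (lh y : ℂ) * f 0 * (((1 - v) * Z v : ℝ) : ℂ)) volume 0 1 :=
      (c1.const_mul _).intervalIntegrable _ _
    have i3 : IntervalIntegrable (fun v : ℝ => (lh y : ℂ) * f 1 * ((v * Z v : ℝ) : ℂ)) volume 0 1 :=
      (c2.const_mul _).intervalIntegrable _ _
    simp only [e2]
    rw [intervalIntegral.integral_sub i1 (i2.add i3), intervalIntegral.integral_add i2 i3,
      intervalIntegral.integral_const_mul, intervalIntegral.integral_const_mul, intervalIntegral.integral_ofReal,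
      intervalIntegral.integral_ofReal]
    ring
  rw [← f0, ← f1, ← e1, h, P0, P1, zero_mul, zero_mul, sub_zero, zero_sub, norm_neg]
  have a1 : AbsolutelyContinuousOnInterval Z 0 1 :=
    (hZ.lipschitzOnWith (s := uIcc 0 1)).absolutelyContinuousOnInterval
  have iZ : IntervalIntegrable (deriv Z) volume 0 1 := a1.intervalIntegrable_deriv
  have k := intervalIntegral.norm_integral_le_of_norm_le (μ := volume) (f := fun v => P v * ((deriv Z v : ℝ) : ℂ))
    (g := fun v => y ^ 2 / 31 * (1 + 2 * y ^ 2) * |deriv Z v|) zero_le_one (Eventually.of_forall fun v hv => ?_)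
    (iZ.abs.const_mul _)
  · rw [intervalIntegral.integral_const_mul] at k
    exact k
  · rw [norm_mul, Complex.norm_real, Real.norm_eq_abs]
    refine mul_le_mul_of_nonneg_right ?_ (abs_nonneg _)
    rw [pv, norm_mul, Complex.norm_exp_ofReal_mul_I, one_mul]
    have hT : |2 * v - 1| ≤ 1 := by
      rw [abs_le]
      constructor <;> linarith [hv.1, hv.2]
    have k1 := prim_bd hy hy2 hT
    have k2 : ‖(⟨(sin (y * (2 * v - 1)) - (2 * v - 1) * sin y) / (2 * y),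
        ((cos y - cos (y * (2 * v - 1))) / y + lh y * (1 - (2 * v - 1) ^ 2) * sin y / 2) / 2⟩ : ℂ)‖ ^ 2
        ≤ (y ^ 2 / 31 * (1 + 2 * y ^ 2)) ^ 2 := by
      rw [← Complex.normSq_eq_norm_sq, Complex.normSq_apply]
      refine (le_of_eq ?_).trans k1
      ring
    exact (abs_le_of_sq_le_sq' k2 (by positivity)).2

/-! ### the grid -/

open Pool.Agent.FPX.HAA (ht qf)

section grid

variable {N : ℕ}

theorem pt_eq {r : ℕ → ℝ} (hr : ∀ i, r i = -(1 / 2) + (i : ℝ) / N) (i : ℕ) (v : ℝ) :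
    pt r i v = π * (-(1 / 2) + ((i : ℝ) + v) / N) := by
  unfold pt
  rw [dr_eq hr, hr]
  ring

theorem qf_per {W : ℝ → ℝ} {m : ℕ} (hp : ∀ a, ph m (a + π) * (W (a + π) : ℂ) = ph m a * (W a : ℂ)) (hN : 0 < N)
    {b : ℝ} (t : ℝ) : ph m (b + π) * (qf W N (t + N) : ℂ) = ph m b * (qf W N t : ℂ) := by
  have hN' : (0 : ℝ) < N := by exact_mod_cast hN
  have e : qf W N (t + N) = W (π * (-(1 / 2) + t / N) + π) := by
    unfold qf
    congr 1
    field_simp
    ring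
  rw [e]
  have h := hp (π * (-(1 / 2) + t / N))
  -- `ph m (a + b) = ph m a * ph m b`
  have hadd : ∀ a c : ℝ, ph m (a + c) = ph m a * ph m c := by
    intro a c
    unfold ph
    rw [← Complex.exp_add]
    congr 1
    push_cast
    ring
  rw [hadd] at h ⊢
  have hne : ph m (π * (-(1 / 2) + t / N)) ≠ 0 := Complex.exp_ne_zero _
  have h2 : ph m π * (W (π * (-(1 / 2) + t / N) + π) : ℂ) = (W (π * (-(1 / 2) + t / N)) : ℂ) := by
    refine mul_left_cancel₀ hne ?_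
    rw [← mul_assoc]
    exact h
  rw [mul_assoc, h2]
  rfl

/-- summation by parts of the hats -/
theorem sum_hat {W : ℝ → ℝ} {m : ℕ}
    (hp : ∀ a, ph m (a + π) * (W (a + π) : ℂ) = ph m a * (W a : ℂ)) (hN : 0 < N) {r : ℕ → ℝ}
    (hr : ∀ i, r i = -(1 / 2) + (i : ℝ) / N) :
    ∑ i ∈ Finset.range N, (ph m (π * r i) * ((∫ v in (0 : ℝ)..1, (1 - v) * W (pt r i v) : ℝ) : ℂ)
        + ph m (π * r (i + 1)) * ((∫ v in (0 : ℝ)..1, v * W (pt r i v) : ℝ) : ℂ))
      = ∑ i ∈ Finset.range N, ph m (π * r i) * (ht (qf W N) i : ℂ) := by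
  have hN' : (0 : ℝ) < N := by exact_mod_cast hN
  set g : ℕ → ℂ := fun i => ph m (π * r i) * ((∫ v in (0 : ℝ)..1, v * qf W N ((i : ℝ) - 1 + v) : ℝ) : ℂ) with hg
  have e1 : ∀ i : ℕ, ((∫ v in (0 : ℝ)..1, v * W (pt r i v) : ℝ) : ℂ)
      = ((∫ v in (0 : ℝ)..1, v * qf W N (((i + 1 : ℕ) : ℝ) - 1 + v) : ℝ) : ℂ) := by
    intro i
    congr 1
    refine intervalIntegral.integral_congr fun v _ => ?_
    rw [pt_eq hr]
    unfold qf
    congr 3
    push_cast
    ring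
  have e2 : ∀ i : ℕ, ((∫ v in (0 : ℝ)..1, (1 - v) * W (pt r i v) : ℝ) : ℂ)
      = ((∫ v in (0 : ℝ)..1, (1 - v) * qf W N ((i : ℝ) + v) : ℝ) : ℂ) := by
    intro i
    congr 1
    refine intervalIntegral.integral_congr fun v _ => ?_
    rw [pt_eq hr]
    rfl
  have e3 : ∑ i ∈ Finset.range N, (g (i + 1) - g i) = 0 := by
    rw [Finset.sum_range_sub]
    have k : g N = g 0 := by
      rw [hg]
      simp only
      rw [← intervalIntegral.integral_ofReal, ← intervalIntegral.integral_ofReal, ← intervalIntegral.integral_const_mul,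
        ← intervalIntegral.integral_const_mul]
      refine intervalIntegral.integral_congr fun v _ => ?_
      have hrN : π * r N = π * r 0 + π := by
        rw [hr, hr, div_self hN'.ne']
        push_cast
        ring
      have k2 := qf_per hp hN (b := π * r 0) (((0 : ℕ) : ℝ) - 1 + v)
      have k3 : (((0 : ℕ) : ℝ) - 1 + v) + N = (N : ℝ) - 1 + v := by
        push_cast
        ring
      rw [k3] at k2
      rw [hrN]
      push_cast at k2 ⊢
      linear_combination (v : ℂ) * k2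
    rw [k, sub_self]
  have e4 : ∀ i : ℕ, ph m (π * r i) * (ht (qf W N) i : ℂ)
      = ph m (π * r i) * ((∫ v in (0 : ℝ)..1, (1 - v) * W (pt r i v) : ℝ) : ℂ) + g i := by
    intro i
    rw [e2, hg]
    unfold ht
    push_cast
    ring
  have e5 : ∀ i : ℕ, ph m (π * r (i + 1)) * ((∫ v in (0 : ℝ)..1, v * W (pt r i v) : ℝ) : ℂ) = g (i + 1) := by
    intro i
    rw [e1]
  simp only [e4, e5]
  rw [Finset.sum_add_distrib, Finset.sum_add_distrib]
  rw [Finset.sum_sub_distrib] at e3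
  linear_combination e3

/-- **moments from hat averages**, general form -/
theorem gen_hat {W : ℝ → ℝ} {K : ℝ≥0} (hW : LipschitzWith K W) {m : ℕ} (hm : 0 < m)
    (hp : ∀ a, ph m (a + π) * (W (a + π) : ℂ) = ph m a * (W a : ℂ)) (hN : 0 < N) {r : ℕ → ℝ}
    (hr : ∀ i, r i = -(1 / 2) + (i : ℝ) / N) {y : ℝ} (hyd : y = m * π / (2 * N)) (hy2 : y ≤ 4 / 5)
    {T : ℝ} (hT : ∫ a in (-(π / 2))..(π / 2), |deriv W a| ≤ T) :
    ‖((1 / (2 * π) : ℝ) : ℂ) * (∫ a in (0 : ℝ)..(2 * π), ph m a * (W a : ℂ))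
      - ((lh y * (1 / N) : ℝ) : ℂ) * ∑ i ∈ Finset.range N, ph m (π * r i) * (ht (qf W N) i : ℂ)‖
      ≤ y ^ 2 / (31 * N) * (1 + 2 * y ^ 2) * T := by
  have hpi := pi_pos
  have hN' : (0 : ℝ) < N := by exact_mod_cast hN
  have hm' : (0 : ℝ) < m := by exact_mod_cast hm
  have hy : 0 < y := by
    rw [hyd]
    positivity
  have G := grid_of hN hr
  have cW : Continuous fun a => (W a : ℂ) := Complex.continuous_ofReal.comp hW.continuous
  have cF : Continuous fun a => ph m a * (W a : ℂ) := (SQD.cont_ph m).mul cW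
  have hptz : ∀ i, pt r i 0 = π * r i := fun i => by unfold pt; ring
  have hpto : ∀ i, pt r i 1 = π * r (i + 1) := fun i => by unfold pt; ring
  have hph : ∀ i v, ph m (pt r i v) = Complex.exp (((m * (π * r i) + 2 * y * v : ℝ) : ℂ) * Complex.I) := by
    intro i v
    unfold ph pt
    rw [dr_eq hr, hyd]
    congr 1
    have : (N : ℂ) ≠ 0 := by exact_mod_cast hN'.ne'
    push_cast
    field_simp
  have e0 : (1 / (2 * π) : ℝ) * (∫ a in (0 : ℝ)..(2 * π), ph m a * (W a : ℂ))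
      - ((lh y * (1 / N) : ℝ) : ℂ) * ∑ i ∈ Finset.range N, ph m (π * r i) * (ht (qf W N) i : ℂ)
      = ∑ i ∈ Finset.range N, ((1 / N : ℝ) : ℂ) * ((∫ v in (0 : ℝ)..1, ph m (pt r i v) * (W (pt r i v) : ℂ))
        - (lh y : ℂ) * (ph m (π * r i) * ((∫ v in (0 : ℝ)..1, (1 - v) * W (pt r i v) : ℝ) : ℂ)
          + ph m (π * r (i + 1)) * ((∫ v in (0 : ℝ)..1, v * W (pt r i v) : ℝ) : ℂ))) := by
    rw [← sum_hat hp hN hr, NOD.mean_cells cF hp G, Finset.mul_sum, ← Finset.sum_sub_distrib]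
    refine Finset.sum_congr rfl fun i _ => ?_
    rw [dr_eq hr]
    push_cast
    ring
  rw [e0]
  have key : ∀ i ∈ Finset.range N, ‖((1 / N : ℝ) : ℂ) * ((∫ v in (0 : ℝ)..1, ph m (pt r i v) * (W (pt r i v) : ℂ))
        - (lh y : ℂ) * (ph m (π * r i) * ((∫ v in (0 : ℝ)..1, (1 - v) * W (pt r i v) : ℝ) : ℂ)
          + ph m (π * r (i + 1)) * ((∫ v in (0 : ℝ)..1, v * W (pt r i v) : ℝ) : ℂ)))‖
      ≤ y ^ 2 / (31 * N) * (1 + 2 * y ^ 2) * ∫ a in (π * r i)..(π * r (i + 1)), |deriv W a| := by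
    intro i _
    rw [norm_mul, Complex.norm_real, Real.norm_eq_abs, abs_of_pos (by positivity)]
    have hZ : LipschitzWith (K * ⟨π / N, by positivity⟩) fun v => W (pt r i v) := by
      refine hW.comp (LipschitzWith.of_dist_le_mul fun x y => ?_)
      rw [Real.dist_eq, Real.dist_eq]
      have e : pt r i x - pt r i y = π / N * (x - y) := by
        unfold pt
        rw [dr_eq hr]
        ring
      rw [e, abs_mul, abs_of_pos (by positivity)]
      rfl
    have h := cell_hat hy hy2 (m * (π * r i)) hZ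
    rw [tv_cell hr] at h
    have q1 : ∀ v, Complex.exp (((m * (π * r i) + 2 * y * v : ℝ) : ℂ) * Complex.I) = ph m (pt r i v) :=
      fun v => (hph i v).symm
    have q2 : Complex.exp (((m * (π * r i) + 2 * y : ℝ) : ℂ) * Complex.I) = ph m (π * r (i + 1)) := by
      rw [← hpto, hph, mul_one]
    have q3 : Complex.exp (((m * (π * r i) : ℝ) : ℂ) * Complex.I) = ph m (π * r i) := by
      have := hph i 0
      rw [mul_zero, add_zero, hptz] at this
      exact this.symm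
    simp only [q1, q2, q3] at h
    have h2 := mul_le_mul_of_nonneg_left h (by positivity : (0 : ℝ) ≤ 1 / N)
    refine h2.trans (le_of_eq ?_)
    field_simp
  refine (norm_sum_le _ _).trans ((Finset.sum_le_sum key).trans ?_)
  rw [← Finset.mul_sum]
  refine mul_le_mul_of_nonneg_left ?_ (by positivity)
  have hi : ∀ a b, IntervalIntegrable (fun t => |deriv W t|) volume a b := fun a b =>
    ((hW.lipschitzOnWith (s := uIcc a b)).absolutelyContinuousOnInterval).intervalIntegrable_deriv.abs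
  have e2 := intervalIntegral.sum_integral_adjacent_intervals (a := fun i => π * r i) (n := N)
    (f := fun t => |deriv W t|) (μ := volume) fun i _ => hi _ _
  rw [G.zero, G.last, show π * -(1 / 2) = -(π / 2) by ring, show π * (1 / 2) = π / 2 by ring] at e2
  rw [e2]
  exact hT

/-- the mean itself -/
theorem gen_hat0 {W : ℝ → ℝ} (hW : Continuous W) (hp : ∀ a, W (a + π) = W a) (hN : 0 < N) {r : ℕ → ℝ}
    (hr : ∀ i, r i = -(1 / 2) + (i : ℝ) / N) :
    ((1 / (2 * π) : ℝ) : ℂ) * (∫ a in (0 : ℝ)..(2 * π), ph 0 a * (W a : ℂ))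
      = ((1 / N : ℝ) : ℂ) * ∑ i ∈ Finset.range N, (ht (qf W N) i : ℂ) := by
  have G := grid_of hN hr
  have cW : Continuous fun a => (W a : ℂ) := Complex.continuous_ofReal.comp hW
  have cF : Continuous fun a => ph 0 a * (W a : ℂ) := (SQD.cont_ph 0).mul cW
  have p0 : ∀ a, ph 0 a = 1 := fun a => by simp [ph]
  have hp' : ∀ a, ph 0 (a + π) * (W (a + π) : ℂ) = ph 0 a * (W a : ℂ) := fun a => by rw [p0, p0, hp]
  have h := sum_hat hp' hN hr
  simp only [p0, one_mul] at h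
  rw [← h, NOD.mean_cells cF hp' G, Finset.mul_sum]
  refine Finset.sum_congr rfl fun i _ => ?_
  rw [dr_eq hr]
  congr 1
  have c1 : Continuous fun v => W (pt r i v) := by
    unfold pt
    fun_prop
  have c2 : Continuous fun v => (1 - v) * W (pt r i v) := (continuous_const.sub continuous_id).mul c1
  have c3 : Continuous fun v => v * W (pt r i v) := continuous_id.mul c1
  rw [← Complex.ofReal_add, ← intervalIntegral.integral_add (ii c2 _ _) (ii c3 _ _),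
    ← intervalIntegral.integral_ofReal]
  refine intervalIntegral.integral_congr fun v _ => ?_
  simp only [p0, one_mul]
  congr 1
  ring

end grid

/-! ### rational data -/

/-- the trigonometric data for hats up to the harmonic `R` -/
structure TrgH (R N : ℕ) (a : ℕ → ℕ → Gq) (η : ℕ → ℚ) : Prop where
  zero : ∀ i < N, a 0 i = ⟨1 / N, 0⟩
  pos : ∀ n : ℕ, 1 ≤ n → n ≤ R → ∀ i < N,
    ‖((lh (n * π / (2 * N)) * (1 / N) : ℝ) : ℂ) * ph n (π * ru N i) - (a n i).toC‖ ≤ η n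

theorem TrgH.mono {R R' N : ℕ} {a : ℕ → ℕ → Gq} {η : ℕ → ℚ} (h : TrgH R' N a η) (hR : R ≤ R') : TrgH R N a η :=
  ⟨h.zero, fun n h1 h2 => h.pos n h1 (h2.trans hR)⟩

open Pool.Agent.FPX.AVS (wm yq y_le)

/-- the error of a moment -/
theorem mom_errH {N n : ℕ} (hN : 0 < N) {a : ℕ → ℕ → Gq} {η : ℚ} {m : ℂ} {x : ℕ → ℝ} {C T b : ℝ}
    (h1 : ‖m - ((lh (n * π / (2 * N)) * (1 / N) : ℝ) : ℂ) * ∑ i ∈ Finset.range N, ph n (π * ru N i) * (x i : ℂ)‖
      ≤ (n * π / (2 * N)) ^ 2 / (31 * N) * (1 + 2 * (n * π / (2 * N)) ^ 2) * T) (hT0 : 0 ≤ T) (hTC : T ≤ C)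
    (ht : ∀ i < N, ‖((lh (n * π / (2 * N)) * (1 / N) : ℝ) : ℂ) * ph n (π * ru N i) - (a n i).toC‖ ≤ η)
    (hx : ∀ i, |x i| ≤ b) :
    ‖m - wm N a n x‖ ≤ ((yq N n : ℚ) : ℝ) ^ 2 / (31 * N) * (1 + 2 * ((yq N n : ℚ) : ℝ) ^ 2) * C + N * (η * b) := by
  have hN' : (0 : ℝ) < N := by exact_mod_cast hN
  have hp := pi_pos
  have hη : (0 : ℝ) ≤ η := (norm_nonneg _).trans (ht 0 hN)
  set y : ℝ := n * π / (2 * N) with hy
  have hy0 : 0 ≤ y := by positivity
  have hyq : y ≤ ((yq N n : ℚ) : ℝ) := y_le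
  obtain ⟨L, hL⟩ : ∃ L : ℂ, L = ((lh y * (1 / N) : ℝ) : ℂ) := ⟨_, rfl⟩
  rw [← hL] at h1 ht
  have k2 : ‖L * (∑ i ∈ Finset.range N, ph n (π * ru N i) * (x i : ℂ)) - wm N a n x‖ ≤ N * (η * b) := by
    unfold wm
    rw [Finset.mul_sum, ← Finset.sum_sub_distrib]
    have h2 : ∀ i ∈ Finset.range N, ‖L * (ph n (π * ru N i) * (x i : ℂ)) - (a n i).toC * (x i : ℂ)‖ ≤ η * b := by
      intro i hi
      have e : L * (ph n (π * ru N i) * (x i : ℂ)) - (a n i).toC * (x i : ℂ)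
          = (L * ph n (π * ru N i) - (a n i).toC) * (x i : ℂ) := by ring
      rw [e, norm_mul, Complex.norm_real, Real.norm_eq_abs]
      exact mul_le_mul (ht i (Finset.mem_range.1 hi)) (hx i) (abs_nonneg _) hη
    refine (norm_sum_le _ _).trans ((Finset.sum_le_sum h2).trans (le_of_eq ?_))
    rw [Finset.sum_const, Finset.card_range, nsmul_eq_mul]
  have k1 : y ^ 2 / (31 * N) * (1 + 2 * y ^ 2) * T
      ≤ ((yq N n : ℚ) : ℝ) ^ 2 / (31 * N) * (1 + 2 * ((yq N n : ℚ) : ℝ) ^ 2) * C := by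
    have : 0 ≤ ((yq N n : ℚ) : ℝ) := hy0.trans hyq
    gcongr
  have e : m - wm N a n x = (m - L * (∑ i ∈ Finset.range N, ph n (π * ru N i) * (x i : ℂ)))
      + (L * (∑ i ∈ Finset.range N, ph n (π * ru N i) * (x i : ℂ)) - wm N a n x) := by ring
  rw [e]
  exact (norm_add_le _ _).trans (add_le_add (h1.trans k1) k2)

/-- the smallness of `y` -/
theorem y_small {R N n : ℕ} (hn : n ≤ R) (h : yq N R ≤ 4 / 5) : n * π / (2 * N) ≤ 4 / 5 := by
  have h1 : (yq N n : ℚ) ≤ yq N R := by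
    unfold yq
    have : (n : ℚ) ≤ ((R : ℕ) : ℚ) := by exact_mod_cast hn
    gcongr
  have h2 : ((yq N n : ℚ) : ℝ) ≤ ((4 / 5 : ℚ) : ℝ) := by exact_mod_cast h1.trans h
  have h3 : (((4 / 5 : ℚ) : ℝ)) = 4 / 5 := by norm_num
  rw [h3] at h2
  exact y_le.trans h2

/-- the rational error constant: harmonic `n`, total variation `C`, bound `b`, data error `η` -/
def eh (N n : ℕ) (C b η : ℚ) : ℚ := yq N n ^ 2 / (31 * N) * (1 + 2 * yq N n ^ 2) * C + N * (η * b)

section state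

variable {X : ℝ → ℝ} {N : ℕ}

/-- **linear moments of a state from hat averages** -/
theorem lin_hat {R n : ℕ} {a : ℕ → ℕ → Gq} {η : ℕ → ℚ} (hT : TrgH R N a η) (hN : 0 < N) (hs : yq N R ≤ 4 / 5)
    {K : ℝ≥0} (hK : LipschitzWith K X) (anti : ∀ a, X (a + π) = -X a) {xm C : ℚ} (hb : ∀ a, |X a| ≤ (xm : ℝ))
    (htv : ∫ a in (-(π / 2))..(π / 2), |deriv X a| ≤ (C : ℝ)) (hn : n ≤ R) (ho : n % 2 = 1) :
    ‖((1 / (2 * π) : ℝ) : ℂ) * (∫ a in (0 : ℝ)..(2 * π), ph n a * (X a : ℂ)) - wm N a n fun i => ht (qf X N) i‖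
      ≤ ((eh N n C xm (η n) : ℚ) : ℝ) := by
  have hodd : Odd n := Nat.odd_iff.2 ho
  have hle : -(π / 2) ≤ π / 2 := by linarith [pi_pos]
  have htv0 : 0 ≤ ∫ a in (-(π / 2))..(π / 2), |deriv X a| :=
    intervalIntegral.integral_nonneg hle fun _ _ => abs_nonneg _
  have k := gen_hat hK hodd.pos (fun a => by rw [SQD.ph_odd hodd, anti]; push_cast; ring) hN
    (r := ru N) (fun _ => rfl) rfl (y_small hn hs) le_rfl
  have cq : Continuous (qf X N) := by
    have := hK.continuous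
    unfold qf
    fun_prop
  have k2 := mom_errH hN (x := fun i => ht (qf X N) i) k htv0 htv (fun i hi => hT.pos n hodd.pos hn i hi)
    (b := (xm : ℝ)) fun i => HAA.ht_abs cq (fun t => hb _) _
  refine k2.trans (le_of_eq ?_)
  unfold eh
  push_cast
  ring

/-- **moments of the square from hat averages of the square** -/
theorem sq_hat {R n : ℕ} {a : ℕ → ℕ → Gq} {η : ℕ → ℚ} (hT : TrgH R N a η) (hN : 0 < N) (hs : yq N R ≤ 4 / 5)
    {K : ℝ≥0} (hK : LipschitzWith K fun a => X a ^ 2) (anti : ∀ a, X (a + π) = -X a) {xm C : ℚ}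
    (hb : ∀ a, |X a| ≤ (xm : ℝ)) (htv : ∫ a in (-(π / 2))..(π / 2), |deriv (fun a => X a ^ 2) a| ≤ (C : ℝ))
    (h1 : 1 ≤ n) (hn : n ≤ R) (he : n % 2 = 0) :
    ‖((1 / (2 * π) : ℝ) : ℂ) * (∫ a in (0 : ℝ)..(2 * π), ph n a * ((X a ^ 2 : ℝ) : ℂ))
        - wm N a n fun i => ht (fun t => qf X N t ^ 2) i‖ ≤ ((eh N n C (xm ^ 2) (η n) : ℚ) : ℝ) := by
  have heven : Even n := Nat.even_iff.2 he
  have hle : -(π / 2) ≤ π / 2 := by linarith [pi_pos]
  have htv0 : 0 ≤ ∫ a in (-(π / 2))..(π / 2), |deriv (fun a => X a ^ 2) a| :=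
    intervalIntegral.integral_nonneg hle fun _ _ => abs_nonneg _
  have k := gen_hat hK (m := n) (by omega) (fun a => by rw [SQD.ph_even heven, anti, neg_sq]) hN
    (r := ru N) (fun _ => rfl) rfl (y_small hn hs) le_rfl
  have cq : Continuous fun t => qf X N t ^ 2 := by
    have c2 : Continuous fun t : ℝ => π * (-(1 / 2) + t / N) := by fun_prop
    exact hK.continuous.comp c2
  have k2 := mom_errH hN (x := fun i => ht (fun t => qf X N t ^ 2) i) k htv0 htv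
    (fun i hi => hT.pos n h1 hn i hi) (b := (xm : ℝ) ^ 2) fun i => HAA.ht_abs cq (fun t => by
      rw [abs_of_nonneg (sq_nonneg _), ← sq_abs]
      exact pow_le_pow_left₀ (abs_nonneg _) (hb _) 2) _
  refine k2.trans (le_of_eq ?_)
  unfold eh
  push_cast
  ring

/-- **the mean of the square** -/
theorem zero_hat {R : ℕ} {a : ℕ → ℕ → Gq} {η : ℕ → ℚ} (hT : TrgH R N a η) (hN : 0 < N)
    (hX : Continuous X) (anti : ∀ a, X (a + π) = -X a) :
    ((1 / (2 * π) : ℝ) : ℂ) * (∫ a in (0 : ℝ)..(2 * π), ph 0 a * ((X a ^ 2 : ℝ) : ℂ))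
      = wm N a 0 fun i => ht (fun t => qf X N t ^ 2) i := by
  have k := gen_hat0 (W := fun a => X a ^ 2) (hX.pow 2) (fun a => by rw [anti, neg_sq]) hN (r := ru N) fun _ => rfl
  rw [k]
  unfold wm
  rw [Finset.mul_sum]
  refine Finset.sum_congr rfl fun i hi => ?_
  rw [hT.zero i (Finset.mem_range.1 hi)]
  congr 1
  apply Complex.ext <;> simp [Gq.toC]

end state

end Pool.Agent.FPX.HAT
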