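import Pool.Agent.FPX.HAG
import Pool.Agent.FPX.HAT

/-
HAE (helper16): hat averages. The record `AvgH` of a state of `St s` from the geometry (`GeoH`), the trigonometric data
(`TrgH`) and the checks of the errors; the total variation constants `C₁` (of `X`) and `C₂` (of `X²`) are parameters.
-/

set_option autoImplicit false

open MeasureTheory Set Filter Topology Real
open scoped NNReal ComplexConjugate

noncomputable section

namespace Pool.Agent.FPX.HAE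

open Pool.Agent.FPX.CAV Pool.Agent.FPX.NOD
open Pool.Agent.FPX.ALX (St)
open Pool.Agent.FPX.SQD (ph)
open Pool.Agent.FPX.NOT (Gq)
open Pool.Agent.FPX.BTN (va e1)
open Pool.Agent.FPX.BRG (vl Zr fr_va)
open Pool.Agent.FPX.AVS (wm yq Zr_va)
open Pool.Agent.FPX.HAT (TrgH eh lin_hat sq_hat zero_hat)
open Pool.Agent.FPX.HAA

/-- the checks of the errors -/
structure ErrH (R : ℕ) (D : CD) (C₁ C₂ : ℚ) (η e : ℕ → ℚ) : Prop where
  small : yq D.N R ≤ 4 / 5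
  odd : ∀ n, 1 ≤ n → n ≤ R → n % 2 = 1 → eh D.N n C₁ D.xm (η n) ≤ e n
  even : ∀ n, 1 ≤ n → n ≤ R → n % 2 = 0 → eh D.N n C₂ (D.xm ^ 2) (η n) ≤ e n

/-- **a state and its hat averages** -/
theorem avgH_tv {R : ℕ} (hR : 1 ≤ R) {D : CD} (hG : GeoH D) {a : ℕ → ℕ → Gq} {C₁ C₂ : ℚ} {η e : ℕ → ℚ}
    (hT : TrgH R D.N a η) (hE : ErrH R D C₁ C₂ η e) {X : ℝ → ℝ} (hX : St D.s X) (hb : ∀ a, |X a| ≤ 0.62 * (D.s : ℝ))
    (tv1 : ∫ a in (-(π / 2))..(π / 2), |deriv X a| ≤ (C₁ : ℝ))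
    (tv2 : ∫ a in (-(π / 2))..(π / 2), |deriv (fun a => X a ^ 2) a| ≤ (C₂ : ℝ)) :
    AvgH R D a e (vl va X e1) (Zr 2 va X e1) (zH X D.N) (aH X D.N) := by
  have hN := GeoH.N0 hG
  have hxb := GeoH.bx hG hb
  obtain ⟨K, hK⟩ := hX.lip
  obtain ⟨K2, hK2⟩ := AVL.lip_sq hX hxb
  have lin : ∀ n : ℕ, 1 ≤ n → n ≤ R → n % 2 = 1 → ‖Zr 1 va X e1 n - wm D.N a n (zH X D.N)‖ ≤ (e n : ℝ) := by
    intro n h1n h9 h2n
    have k := lin_hat hT hN hE.small hK hX.anti hxb tv1 h9 h2n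
    have e1 : Zr 1 va X e1 n = ((1 / (2 * π) : ℝ) : ℂ) * ∫ a in (0 : ℝ)..(2 * π), ph n a * (X a : ℂ) := by
      rw [Zr_va]
      simp only [pow_one]
    rw [← e1] at k
    exact k.trans (by exact_mod_cast hE.odd n h1n h9 h2n)
  refine avgH_geo hG hX hb ?_ (fun n h1 h9 h2 => ?_) ?_ fun n h1 h9 h2 => ?_
  · have k := lin 1 le_rfl hR rfl
    have k0 := (fr_va hX (fun a => ?_)).z1p
    · have e0 : Zr 1 va X e1 ((1 : ℕ) : ℤ) = 0 := by exact_mod_cast k0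
      rw [e0, zero_sub, norm_neg] at k
      exact k
    · have h1 := GeoH.cs1 hG
      have h2 := hb a
      linarith
  · have k := lin n h1.le h9 h2
    have hne : (n : ℤ) ≠ 0 := by
      have : 0 < n := by omega
      exact_mod_cast this.ne'
    have e1 : vl va X e1 (n : ℤ) = Zr 1 va X e1 n := by
      unfold vl
      rw [if_neg hne]
    rw [e1]
    exact k
  · have k := zero_hat hT hN hX.cont hX.anti
    have q1 : Zr 2 va X e1 ((0 : ℕ) : ℤ) = ((1 / (2 * π) : ℝ) : ℂ) * ∫ a in (0 : ℝ)..(2 * π), ph 0 a * ((X a ^ 2 : ℝ) : ℂ) :=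
      Zr_va 2 0
    rw [← q1] at k
    exact k
  · have k := sq_hat hT hN hE.small hK2 hX.anti hxb tv2 h1 h9 h2
    rw [← Zr_va] at k
    exact k.trans (by exact_mod_cast hE.even n h1 h9 h2)

/-- the check of the errors -/
def errHB (R : ℕ) (D : CD) (C₁ C₂ : ℚ) (η e : ℕ → ℚ) : Bool :=
  decide (yq D.N R ≤ 4 / 5) && ((List.range R).all fun k =>
    if k % 2 = 0 then decide (eh D.N (k + 1) C₁ D.xm (η (k + 1)) ≤ e (k + 1))
    else decide (eh D.N (k + 1) C₂ (D.xm ^ 2) (η (k + 1)) ≤ e (k + 1)))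

theorem errH_of {R : ℕ} {D : CD} {C₁ C₂ : ℚ} {η e : ℕ → ℚ} (h : errHB R D C₁ C₂ η e = true) : ErrH R D C₁ C₂ η e := by
  simp only [errHB, Bool.and_eq_true, List.all_eq_true, decide_eq_true_eq, List.mem_range] at h
  obtain ⟨h3, h4⟩ := h
  refine ⟨h3, fun n h5 h6 h7 => ?_, fun n h5 h6 h7 => ?_⟩
  · obtain ⟨k, rfl⟩ : ∃ k, n = k + 1 := ⟨n - 1, by omega⟩
    have := h4 k (by omega)
    rw [if_pos (by omega : k % 2 = 0), decide_eq_true_eq] at this
    exact this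
  · obtain ⟨k, rfl⟩ : ∃ k, n = k + 1 := ⟨n - 1, by omega⟩
    have := h4 k (by omega)
    rw [if_neg (by omega : ¬ k % 2 = 0), decide_eq_true_eq] at this
    exact this

end Pool.Agent.FPX.HAE
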