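import Mathlib
import Pool.Agent.FPX.QZE
import Pool.Agent.FPX.HAE

/-
TVW (helper16): the total variation of a state of `St s` and of its square over the half period.
-/

set_option autoImplicit false

open MeasureTheory Set Filter Topology Real
open scoped NNReal

noncomputable section

namespace Pool.Agent.FPX.TVW

open Pool.Agent.FPX.ALX (St)
open Pool.Agent.FPX.SQN (mS)
open Pool.Agent.FPX.CAV (ZQZ1 ZQZ1_ok)
open Pool.Agent.FPX.QZ (BQZ1)

/-- functions with the period `π` -/
theorem half {F : ℝ → ℝ} (hF : Continuous F) (hp : ∀ a, F (a + π) = F a) :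
    ∫ a in (0 : ℝ)..(2 * π), F a = 2 * ∫ a in (-(π / 2))..(π / 2), F a := by
  have per : Function.Periodic F π := hp
  have e1 : ∫ a in (0 : ℝ)..(2 * π), F a = (∫ a in (0 : ℝ)..π, F a) + ∫ a in π..(2 * π), F a :=
    (intervalIntegral.integral_add_adjacent_intervals (hF.intervalIntegrable _ _) (hF.intervalIntegrable _ _)).symm
  have e2 : ∫ a in π..(2 * π), F a = ∫ a in (0 : ℝ)..π, F a := by
    have := per.intervalIntegral_add_eq π 0
    rw [show π + π = 2 * π by ring, zero_add] at this
    exact this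
  have e3 : ∫ a in (0 : ℝ)..π, F a = ∫ a in (-(π / 2))..(π / 2), F a := by
    have := per.intervalIntegral_add_eq 0 (-(π / 2))
    rw [zero_add, show -(π / 2) + π = π / 2 by ring] at this
    exact this
  rw [e1, e2, e3]
  ring

theorem ac {G : ℝ → ℝ} {K : ℝ≥0} (hK : LipschitzWith K G) (a b : ℝ) : AbsolutelyContinuousOnInterval G a b :=
  (hK.lipschitzOnWith (s := uIcc a b)).absolutelyContinuousOnInterval

theorem ac_sin (a b : ℝ) : AbsolutelyContinuousOnInterval Real.sin a b :=
  Real.contDiff_sin.contDiffOn.absolutelyContinuousOnInterval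

/-- integration by parts against `sin` -/
theorem by_sin {G : ℝ → ℝ} {K : ℝ≥0} (hK : LipschitzWith K G) (anti : ∀ a, G (a + π) = -G a) :
    ∫ a in (-(π / 2))..(π / 2), sin a * deriv G a = -∫ a in (-(π / 2))..(π / 2), cos a * G a := by
  have h := (ac_sin (-(π / 2)) (π / 2)).integral_mul_deriv_eq_deriv_mul (ac hK _ _)
  have e := anti (-(π / 2))
  rw [show -(π / 2) + π = π / 2 by ring] at e
  rw [h, Real.sin_neg, Real.sin_pi_div_two, e]
  have : (fun x => deriv Real.sin x * G x) = fun x => cos x * G x := by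
    funext x
    rw [Real.deriv_sin]
  rw [this]
  ring

section state

variable {s : ℝ} {X : ℝ → ℝ}

/-- the bound of the slope -/
theorem slope (hX : St s X) : ∀ᵐ a, |deriv X a| ≤ s + s * (sin a * deriv X a) := by
  filter_upwards [hX.up, hX.lo] with a h1 h2
  rw [abs_le]
  constructor <;> nlinarith

theorem ile : -(π / 2) ≤ π / 2 := by linarith [pi_pos]

/-- **the total variation of a state** -/
theorem tv_st (hX : St s X) : ∫ a in (-(π / 2))..(π / 2), |deriv X a| ≤ π * s := by
  obtain ⟨K, hK⟩ := hX.lip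
  have i1 : IntervalIntegrable (deriv X) volume (-(π / 2)) (π / 2) := (ac hK _ _).intervalIntegrable_deriv
  have i2 : IntervalIntegrable (fun a => sin a * deriv X a) volume (-(π / 2)) (π / 2) :=
    hX.int1 Real.continuous_sin _ _
  have ic : IntervalIntegrable (fun _ : ℝ => s) volume (-(π / 2)) (π / 2) := intervalIntegrable_const
  have k := intervalIntegral.integral_mono_ae ile i1.abs (ic.add (i2.const_mul s)) (slope hX)
  refine k.trans (le_of_eq ?_)
  have e : ∫ a in (-(π / 2))..(π / 2), (s + s * (sin a * deriv X a)) = π * s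
      + s * ∫ a in (-(π / 2))..(π / 2), sin a * deriv X a := by
    rw [intervalIntegral.integral_add ic (i2.const_mul s), intervalIntegral.integral_const_mul,
      intervalIntegral.integral_const]
    rw [smul_eq_mul]
    ring
  rw [e, by_sin hK hX.anti]
  have h0 : ∫ a in (-(π / 2))..(π / 2), cos a * X a = 0 := by
    have h := half (F := fun a => cos a * X a) (Real.continuous_cos.mul hX.cont) fun a => by
      rw [Real.cos_add_pi, hX.anti]
      ring
    have h2 : ∫ a in (0 : ℝ)..(2 * π), cos a * X a = 0 := by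
      have e : (fun a => cos a * X a) = fun a => X a * cos a := by
        funext a
        ring
      rw [e]
      exact hX.mc
    rw [h2] at h
    linarith
  rw [h0]
  ring

/-- the variation of the square from the mean of the square -/
theorem tv_q (hX : St s X) (h0 : 0 ≤ s) {Q τ : ℝ} (hτ : 0 < τ) (hb : ∃ b, ∀ a, |X a| ≤ b) (hq : mS X ≤ Q * s ^ 2) :
    ∫ a in (-(π / 2))..(π / 2), |deriv (fun a => X a ^ 2) a| ≤ π * s ^ 2 * (τ + Q / τ + Q * s) := by
  obtain ⟨K, hK⟩ := hX.lip
  obtain ⟨b, hb⟩ := hb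
  have hcx := hX.cont
  have hb0 : 0 ≤ b := (abs_nonneg _).trans (hb 0)
  have hp := pi_pos
  -- the function |X| X
  have hA : LipschitzWith K fun a => |X a| := by
    have := lipschitzWith_one_norm (E := ℝ)
    have h2 := this.comp hK
    rw [one_mul] at h2
    exact h2
  obtain ⟨L, hL⟩ : ∃ L : ℝ≥0, LipschitzWith L fun a => |X a| * X a := by
    refine ⟨Real.toNNReal (2 * b * K), LipschitzWith.of_dist_le_mul fun x y => ?_⟩
    rw [Real.dist_eq, Real.coe_toNNReal _ (by positivity), Real.dist_eq]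
    have h1 : |(|X x| - |X y|)| ≤ K * |x - y| := by simpa [Real.dist_eq] using hA.dist_le_mul x y
    have h2 : |X x - X y| ≤ K * |x - y| := by simpa [Real.dist_eq] using hK.dist_le_mul x y
    have e : |X x| * X x - |X y| * X y = |X x| * (X x - X y) + (|X x| - |X y|) * X y := by ring
    rw [e]
    refine (abs_add_le _ _).trans ?_
    rw [abs_mul, abs_mul, abs_abs]
    have := mul_le_mul (hb x) h2 (abs_nonneg _) hb0
    have := mul_le_mul h1 (hb y) (abs_nonneg _) (by positivity)
    linarith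
  have dG : ∀ᵐ a, deriv (fun a => |X a| * X a) a = 2 * (|X a| * deriv X a) := by
    filter_upwards [hK.ae_differentiableAt_real, hA.ae_differentiableAt_real] with a h1 h2
    have h3 := (h2.hasDerivAt.fun_mul h1.hasDerivAt).deriv
    rw [h3]
    rcases lt_trichotomy (X a) 0 with hz | hz | hz
    · have h4 : deriv (fun a => |X a|) a = -1 * deriv X a := ((hasDerivAt_abs_neg hz).comp a h1.hasDerivAt).deriv
      rw [h4, abs_of_neg hz]
      ring
    · rw [hz]
      simp
    · have h4 : deriv (fun a => |X a|) a = 1 * deriv X a := ((hasDerivAt_abs_pos hz).comp a h1.hasDerivAt).deriv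
      rw [h4, abs_of_pos hz]
      ring
  have iA : IntervalIntegrable (fun a => |X a|) volume (-(π / 2)) (π / 2) := hcx.abs.intervalIntegrable _ _
  have iS : IntervalIntegrable (fun a => sin a * (|X a| * deriv X a)) volume (-(π / 2)) (π / 2) := by
    have := hX.int1 (φ := fun a => sin a * |X a|) (Real.continuous_sin.mul hcx.abs) (-(π / 2)) (π / 2)
    exact this.congr fun a _ => by ring
  have hsin : ∫ a in (-(π / 2))..(π / 2), sin a * (|X a| * deriv X a)
      = -(1 / 2) * ∫ a in (-(π / 2))..(π / 2), cos a * (|X a| * X a) := by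
    have h := by_sin hL fun a => by rw [hX.anti, abs_neg]; ring
    have e : ∫ a in (-(π / 2))..(π / 2), sin a * deriv (fun a => |X a| * X a) a
        = 2 * ∫ a in (-(π / 2))..(π / 2), sin a * (|X a| * deriv X a) := by
      rw [← intervalIntegral.integral_const_mul]
      refine intervalIntegral.integral_congr_ae ?_
      filter_upwards [dG] with a ha _
      rw [ha]
      ring
    rw [e] at h
    linarith
  -- the mean of the square
  have hI : ∫ a in (-(π / 2))..(π / 2), X a ^ 2 ≤ π * (Q * s ^ 2) := by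
    have h := half (F := fun a => X a ^ 2) (hcx.pow 2) fun a => by rw [hX.anti, neg_sq]
    have h2 : mS X = (2 * π)⁻¹ * ∫ a in (0 : ℝ)..(2 * π), X a ^ 2 := rfl
    rw [h2, h] at hq
    have h3 : (2 * π)⁻¹ * (2 * ∫ a in (-(π / 2))..(π / 2), X a ^ 2) = π⁻¹ * ∫ a in (-(π / 2))..(π / 2), X a ^ 2 := by
      field_simp
    rw [h3] at hq
    rwa [inv_mul_le_iff₀ hp] at hq
  have i2 : IntervalIntegrable (fun a => X a ^ 2) volume (-(π / 2)) (π / 2) := (hcx.pow 2).intervalIntegrable _ _
  have hI0 : 0 ≤ ∫ a in (-(π / 2))..(π / 2), X a ^ 2 := intervalIntegral.integral_nonneg ile fun _ _ => sq_nonneg _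
  -- Cauchy
  have hC : 2 * s * ∫ a in (-(π / 2))..(π / 2), |X a| ≤ π * s ^ 2 * (τ + Q / τ) := by
    have k : ∀ a ∈ Icc (-(π / 2)) (π / 2), 2 * s * |X a| ≤ τ * s ^ 2 + τ⁻¹ * X a ^ 2 := fun a _ => by
      have h1 : 0 ≤ τ⁻¹ * (|X a| - τ * s) ^ 2 := by positivity
      have h2 : τ⁻¹ * (|X a| - τ * s) ^ 2 = τ⁻¹ * X a ^ 2 - 2 * s * |X a| + τ * s ^ 2 := by
        rw [← sq_abs (X a)]
        field_simp
        ring
      linarith
    have ic : IntervalIntegrable (fun _ : ℝ => τ * s ^ 2) volume (-(π / 2)) (π / 2) := intervalIntegrable_const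
    have k2 := intervalIntegral.integral_mono_on ile (iA.const_mul (2 * s)) (ic.add (i2.const_mul τ⁻¹)) k
    rw [intervalIntegral.integral_const_mul] at k2
    refine k2.trans ?_
    have e : ∫ a in (-(π / 2))..(π / 2), (τ * s ^ 2 + τ⁻¹ * X a ^ 2) = π * (τ * s ^ 2)
        + τ⁻¹ * ∫ a in (-(π / 2))..(π / 2), X a ^ 2 := by
      rw [intervalIntegral.integral_add ic (i2.const_mul τ⁻¹),
        intervalIntegral.integral_const_mul (τ⁻¹) fun a => X a ^ 2, intervalIntegral.integral_const, smul_eq_mul]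
      ring
    rw [e]
    have := mul_le_mul_of_nonneg_left hI (by positivity : 0 ≤ τ⁻¹)
    have e3 : π * s ^ 2 * (τ + Q / τ) = π * (τ * s ^ 2) + τ⁻¹ * (π * (Q * s ^ 2)) := by
      field_simp
    rw [e3]
    linarith
  have hcos : s * -∫ a in (-(π / 2))..(π / 2), cos a * (|X a| * X a) ≤ s * (π * (Q * s ^ 2)) := by
    refine mul_le_mul_of_nonneg_left (le_trans ?_ hI) h0
    rw [← intervalIntegral.integral_neg]
    refine intervalIntegral.integral_mono_on ile ?_ i2 fun a ha => ?_
    · exact (Real.continuous_cos.mul (hcx.abs.mul hcx)).neg.intervalIntegrable _ _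
    · have c0 : 0 ≤ cos a := Real.cos_nonneg_of_mem_Icc ha
      have c1 := Real.cos_le_one a
      have h1 : |(|X a| * X a)| = X a ^ 2 := by rw [abs_mul, abs_abs, ← sq, sq_abs]
      have h2 := neg_abs_le (|X a| * X a)
      have h3 : 0 ≤ X a ^ 2 := sq_nonneg _
      rw [h1] at h2
      nlinarith
  -- the derivative of the square
  have dS : ∀ᵐ a, |deriv (fun a => X a ^ 2) a| ≤ 2 * s * |X a| + 2 * s * (sin a * (|X a| * deriv X a)) := by
    filter_upwards [hK.ae_differentiableAt_real, slope hX] with a h1 h2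
    have : deriv (fun a => X a ^ 2) a = 2 * X a * deriv X a := by
      have := (h1.hasDerivAt.fun_pow 2).deriv
      simpa using this
    rw [this, abs_mul, abs_mul, abs_two]
    have := mul_le_mul_of_nonneg_left h2 (abs_nonneg (X a))
    nlinarith
  obtain ⟨M, hM⟩ : ∃ M : ℝ≥0, LipschitzWith M fun a => X a ^ 2 := AVL.lip_sq hX hb
  have k := intervalIntegral.integral_mono_ae ile (ac hM _ _).intervalIntegrable_deriv.abs
    ((iA.const_mul (2 * s)).add (iS.const_mul (2 * s))) dS
  refine k.trans ?_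
  rw [intervalIntegral.integral_add (iA.const_mul _) (iS.const_mul _), intervalIntegral.integral_const_mul,
    intervalIntegral.integral_const_mul, hsin]
  have e3 : π * s ^ 2 * (τ + Q / τ + Q * s) = π * s ^ 2 * (τ + Q / τ) + s * (π * (Q * s ^ 2)) := by ring
  rw [e3]
  linarith

/-- **the total variation of the square of a state** -/
theorem tv_sq (hX : St s X) (h0 : 0 ≤ s) (h1 : s ≤ 1) (hb : ∀ a, |X a| ≤ 0.62 * s) :
    ∫ a in (-(π / 2))..(π / 2), |deriv (fun a => X a ^ 2) a| ≤ 267 / 100 * s ^ 2 := by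
  have hp : π ≤ 31416 / 10000 := by
    have := Real.pi_lt_d4
    norm_num at this ⊢
    linarith
  have hp0 := pi_pos
  have hs2 : 0 ≤ s ^ 2 := sq_nonneg _
  rcases le_or_gt s (97 / 100) with h | h
  · have k := tv_q hX h0 (τ := 9 / 25) (by norm_num) ⟨_, hb⟩ (QZ.mS_13 h0 (by linarith) hX hb)
    refine k.trans ?_
    have e : (9 / 25 : ℝ) + 13 / 100 / (9 / 25) + 13 / 100 * s ≤ 84722 / 100000 := by
      have := mul_le_mul_of_nonneg_left h (by norm_num : (0 : ℝ) ≤ 13 / 100)
      norm_num at this ⊢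
      linarith
    calc π * s ^ 2 * (9 / 25 + 13 / 100 / (9 / 25) + 13 / 100 * s) ≤ π * s ^ 2 * (84722 / 100000) :=
          mul_le_mul_of_nonneg_left e (by positivity)
      _ = π * (84722 / 100000 * s ^ 2) := by ring
      _ ≤ 31416 / 10000 * (84722 / 100000 * s ^ 2) := mul_le_mul_of_nonneg_right hp (by positivity)
      _ ≤ 267 / 100 * s ^ 2 := by nlinarith
  · have hq : mS X ≤ 1123 / 10000 * s ^ 2 := by
      rcases lt_or_eq_of_le h1 with h2 | h2
      · exact QZ.mS_range ZQZ1_ok (σ := 197 / 200) (lo := 97 / 100) (hi := 1) BQZ1 (by linarith) h2 h.le h2.le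
          (by norm_num) (by rw [QZ.s1]; norm_num) (by rw [QZ.s1]; norm_num) (by rw [QZ.s1]; norm_num) (by norm_num) hX hb
      · have hX' : St ((ZQZ1.cd.s : ℚ) : ℝ) X := by rw [QZ.s1, ← h2]; exact hX
        have k := QZ.mS_of ZQZ1_ok BQZ1 hX' (fun a => by rw [QZ.s1, ← h2]; exact hb a)
        rw [h2]
        refine k.trans ?_
        norm_num
    have k := tv_q hX h0 (τ := 67 / 200) (by norm_num) ⟨_, hb⟩ hq
    refine k.trans ?_
    have e : (67 / 200 : ℝ) + 1123 / 10000 / (67 / 200) + 1123 / 10000 * s ≤ 84722 / 100000 := by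
      have := mul_le_mul_of_nonneg_left h1 (by norm_num : (0 : ℝ) ≤ 1123 / 10000)
      norm_num at this ⊢
      linarith
    calc π * s ^ 2 * (67 / 200 + 1123 / 10000 / (67 / 200) + 1123 / 10000 * s) ≤ π * s ^ 2 * (84722 / 100000) :=
          mul_le_mul_of_nonneg_left e (by positivity)
      _ = π * (84722 / 100000 * s ^ 2) := by ring
      _ ≤ 31416 / 10000 * (84722 / 100000 * s ^ 2) := mul_le_mul_of_nonneg_right hp (by positivity)
      _ ≤ 267 / 100 * s ^ 2 := by nlinarith

end state

open Pool.Agent.FPX.CAV Pool.Agent.FPX.NOT Pool.Agent.FPX.HAA Pool.Agent.FPX.HAE Pool.Agent.FPX.HAT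
open Pool.Agent.FPX.BTN (va e1)
open Pool.Agent.FPX.BRG (vl Zr)

/-- **a state and its hat averages** -/
theorem avgH_of {R : ℕ} (hR : 1 ≤ R) {D : CD} (hG : GeoH D) {a : ℕ → ℕ → Gq} {η e : ℕ → ℚ} (hT : TrgH R D.N a η)
    (hE : ErrH R D (3927 / 1250 * D.s) (267 / 100 * D.s ^ 2) η e) {X : ℝ → ℝ} (hX : St D.s X)
    (hb : ∀ a, |X a| ≤ 0.62 * (D.s : ℝ)) :
    AvgH R D a e (vl va X e1) (Zr 2 va X e1) (zH X D.N) (aH X D.N) := by
  have h0 : (0 : ℝ) ≤ D.s := (GeoH.cs0 hG).le
  have h1 := GeoH.cs1 hG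
  refine avgH_tv hR hG hT hE hX hb ((tv_st hX).trans ?_) ((tv_sq hX h0 h1 hb).trans ?_)
  · push_cast
    exact mul_le_mul_of_nonneg_right AVS.pi_le h0
  · push_cast
    exact le_rfl

end Pool.Agent.FPX.TVW
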