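import Pool.Agent.FPX.NCH
import Pool.Agent.FPX.TVW

/-
NCM (helper39): the condition of the certificate bridge for a state from the Booleans of a record of the hat averages.
-/

set_option autoImplicit false

open MeasureTheory Set Filter Topology Real

noncomputable section

namespace Pool.Agent.FPX.NCD

open Pool.Agent.FPX.CAV
open Pool.Agent.FPX.HAA (AvgH GeoH)
open Pool.Agent.FPX.HAT (TrgH)
open Pool.Agent.FPX.PLK (iz w3)
open Pool.Agent.FPX.BTN (va e1)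
open Pool.Agent.FPX.BRG (vl Zr)
open Pool.Agent.FPX.ALX (St)

/-- the error check of the record -/
def NH.chkE (D : NH) (η : ℚ) : Bool :=
  HAE.errHB D.toND.R D.Z.cd (3927 / 1250 * D.Z.cd.s) (267 / 100 * D.Z.cd.s ^ 2) (fun _ => η) D.toND.e

/-- **the condition of the certificate bridge from the record of the hat averages** -/
theorem cert_hat {D : NH} (hG : GeoH D.Z.cd) {η : ℚ} (hT : TrgH D.toND.R D.Z.cd.N D.G.a fun _ => η)
    (cE : D.chkE η = true) (cN : D.chkN = true)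
    {T : BRG.Tf} {Q : BRG.Qf} {Sc : ℚ} (hSc : 0 < Sc) {B : ℕ} (hNear : Near D.toND.R D.C D.Q Sc B T Q)
    (cK : D.chkK = true) (cS : D.toND.chkS B = true)
    (hEng : ∀ z0 z1 z2 : ℂ, D.st.Good (w3 z0 z1 z2))
    {X : ℝ → ℝ} (hX : St D.Z.cd.s X) (hb : ∀ a, |X a| ≤ 0.62 * (D.Z.cd.s : ℝ)) (z : ℕ → ℂ) :
    0 ≤ (BRG.e2 z (vl va X e1) T + BRG.eq2 z (Zr 2 va X e1) Q).re :=
  certH_of cN hSc hNear cK cS hEng (GeoH.cs1 hG) hX hb
    (TVW.avgH_of (by unfold ND.R; omega) hG hT (HAE.errH_of cE) hX hb) z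

/-- the same with the trigonometric data of a table with the same `N` -/
theorem cert_hatG {D : NH} (hG : GeoH D.Z.cd) {η : ℚ} (hT : TrgH D.toND.R D.G.N D.G.a fun _ => η)
    (cE : D.chkE η = true) (cN : D.chkN = true)
    {T : BRG.Tf} {Q : BRG.Qf} {Sc : ℚ} (hSc : 0 < Sc) {B : ℕ} (hNear : Near D.toND.R D.C D.Q Sc B T Q)
    (cK : D.chkK = true) (cS : D.toND.chkS B = true)
    (hEng : ∀ z0 z1 z2 : ℂ, D.st.Good (w3 z0 z1 z2))
    {X : ℝ → ℝ} (hX : St D.Z.cd.s X) (hb : ∀ a, |X a| ≤ 0.62 * (D.Z.cd.s : ℝ)) (z : ℕ → ℂ) :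
    0 ≤ (BRG.e2 z (vl va X e1) T + BRG.eq2 z (Zr 2 va X e1) Q).re := by
  have hN : D.G.N = D.Z.cd.N := by
    simp only [NH.chkN, Bool.and_eq_true] at cN
    exact Nat.eq_of_beq_eq_true cN.2.1
  rw [hN] at hT
  exact cert_hat hG hT cE cN hSc hNear cK cS hEng hX hb z

end Pool.Agent.FPX.NCD
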