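import Mathlib
import Pool.Agent.FPX.ECU
import Pool.Agent.FPX.NCM
import Pool.Agent.FPX.PLD

/-
ECW (helper11): `NN` of the raw lists of a control point from Booleans only (record of the hat averages `NH`).
-/

open MeasureTheory Set Filter Topology Complex
open scoped ComplexConjugate

noncomputable section

set_option linter.unusedSectionVars false
set_option linter.unusedSimpArgs false

namespace Pool.Agent.FPX.ECT

open Pool.Agent.FPX.BTN (va e1)
open Pool.Agent.FPX.ALX (St)
open Pool.Agent.FPX.BRG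
open Pool.Agent.FPX.MCP (NN)
open Pool.Agent.FPX.NCD
open Pool.Agent.FPX.PLK (w3)

variable {T : Tf} {Q : Qf} {S E Dd Dc w : ℕ} {Ls : List ℕ} {V : List (List ℤ)}

/-- **hats**: the geometry and the trigonometric table as hypotheses, all else Booleans -/
theorem nn_hatG {D : NCD.NH} (hG : HAA.GeoH D.Z.cd) {η : ℚ} (hT : HAT.TrgH D.toND.R D.G.N D.G.a fun _ => η)
    (cE : D.chkE η = true) (cN : D.chkN = true)
    (hS : Nat.blt 0 S = true) (hL : NCL.chkN D.toND.R E Dd Dc w Ls V T Q D.C D.Q S = true)
    (cK : D.chkK = true) (cS : D.toND.chkS (rB D.toND.R) = true)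
    (hEng : ∀ z0 z1 z2 : ℂ, D.st.Good (w3 z0 z1 z2)) : NN (D.Z.cd.s : ℝ) T Q := by
  intro X hX hb z
  have hS' : 0 < S := by
    have := Nat.le_of_ble_eq_true (show Nat.ble (0 + 1) S = true from hS)
    omega
  exact cert_hatG hG hT cE cN (Sc := (S : ℚ)) (by exact_mod_cast hS') (NCL.near_of_chkN hL) cK cS hEng hX
    (fun a => (hb a).trans (le_of_eq (by norm_num))) z

end Pool.Agent.FPX.ECT
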