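import Pool.Agent.FPX.HAV

/-
HAV2 (helper22): the second variance lemma for the hat averages. For a function `G` which is monotone on `[c - 3, c + 3]`
the variance of `G` for the hat average with the centre `c` is at most `(a ^ 2 + 14 a b + b ^ 2) / 16` with
`a = E0 - E-` and `b = E+ - E0`. Equality holds for a jump at the centre.
-/

set_option autoImplicit false

open MeasureTheory Set Filter Topology

noncomputable section

namespace Pool.Agent.FPX.HAV

open Pool.Agent.FPX.NOD Pool.Agent.FPX.CAV Pool.Agent.FPX.HAA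

/-- one half of the hat: the second moment and the two moments of a monotone function -/
theorem half {R : ℝ → ℝ} (hR : Continuous R) (hm : MonotoneOn R (Icc 0 1)) (h0 : 0 ≤ R 0) :
    (∫ v in (0 : ℝ)..1, (1 - v) * R v ^ 2) ≤ (∫ v in (0 : ℝ)..1, R v) ^ 2 / 2 ∧
      (∫ v in (0 : ℝ)..1, R v) ^ 2 / 2 ≤ R 1 * ∫ v in (0 : ℝ)..1, (1 - v) * R v := by
  obtain ⟨T, hT⟩ : ∃ T : ℝ → ℝ, T = fun x => ∫ u in (0 : ℝ)..x, R u := ⟨_, rfl⟩
  have hd : ∀ x, HasDerivAt T (R x) x := fun x => by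
    rw [hT]
    exact (hR.integral_hasStrictDerivAt 0 x).hasDerivAt
  have hTc : Continuous T := continuous_iff_continuousAt.2 fun x => (hd x).continuousAt
  have T0 : T 0 = 0 := by rw [hT]; simp
  have T1 : T 1 = ∫ v in (0 : ℝ)..1, R v := by rw [hT]
  have pos : ∀ v ∈ Icc (0 : ℝ) 1, 0 ≤ R v := fun v hv => h0.trans (hm ⟨le_rfl, zero_le_one⟩ hv hv.1)
  have key : ∫ v in (0 : ℝ)..1, R v * (T 1 - T v) = T 1 ^ 2 / 2 := by
    have e : ∀ x ∈ uIcc (0 : ℝ) 1, HasDerivAt (fun v => -((T 1 - T v) ^ 2 / 2)) (R x * (T 1 - T x)) x := fun x _ => by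
      have h1 := ((((hd x).const_sub (T 1)).fun_pow 2).div_const 2).fun_neg
      refine h1.congr_deriv ?_
      push_cast
      ring
    rw [intervalIntegral.integral_eq_sub_of_hasDerivAt e (ii (by fun_prop) _ _), T0]
    ring
  -- the tail integral
  have tail : ∀ v ∈ Icc (0 : ℝ) 1, (1 - v) * R v ≤ T 1 - T v ∧ T 1 - T v ≤ (1 - v) * R 1 := fun v hv => by
    have e : T 1 - T v = ∫ u in v..1, R u := by
      rw [hT]
      simp only
      rw [intervalIntegral.integral_interval_sub_left (ii hR _ _) (ii hR _ _)]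
    rw [e]
    constructor
    · have : ∫ _u in v..1, R v ≤ ∫ u in v..1, R u :=
        intervalIntegral.integral_mono_on hv.2 (ii (by fun_prop) _ _) (ii hR _ _) fun u hu =>
          hm hv ⟨hv.1.trans hu.1, hu.2⟩ hu.1
      rwa [intervalIntegral.integral_const, smul_eq_mul] at this
    · have : ∫ u in v..1, R u ≤ ∫ _u in v..1, R 1 :=
        intervalIntegral.integral_mono_on hv.2 (ii hR _ _) (ii (by fun_prop) _ _) fun u hu =>
          hm ⟨hv.1.trans hu.1, hu.2⟩ ⟨zero_le_one, le_rfl⟩ hu.2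
      rwa [intervalIntegral.integral_const, smul_eq_mul] at this
  rw [← T1, ← key]
  constructor
  · refine intervalIntegral.integral_mono_on zero_le_one (ii (by fun_prop) _ _) (ii (by fun_prop) _ _) fun v hv => ?_
    have := mul_le_mul_of_nonneg_left (tail v hv).1 (pos v hv)
    nlinarith
  · rw [← intervalIntegral.integral_const_mul]
    refine intervalIntegral.integral_mono_on zero_le_one (ii (by fun_prop) _ _) (ii (by fun_prop) _ _) fun v hv => ?_
    have := mul_le_mul_of_nonneg_left (tail v hv).2 (pos v hv)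
    nlinarith

/-- the algebra of one half -/
theorem alg1 {S P W r a : ℝ} (hP : 0 ≤ P) (hS : 2 * P ≤ S) (hr : 2 * P ≤ r) (h1 : W ≤ S ^ 2 / 2)
    (h2 : S ^ 2 / 2 ≤ r * P) (ha : a = S - 2 * P + r / 2) :
    16 * (W - P ^ 2) ≤ a ^ 2 + 14 * a * P + P ^ 2 ∧ P ≤ a := by
  have hPa : P ≤ a := by rw [ha]; linarith
  refine ⟨?_, hPa⟩
  have main : 8 * S ^ 2 ≤ a ^ 2 + 14 * a * P + 17 * P ^ 2 := by
    rcases hP.eq_or_lt with h | h
    · rw [← h] at h2 ⊢
      have : S ^ 2 ≤ 0 := by linarith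
      nlinarith [sq_nonneg a]
    · -- `X = 4 P (S - 2 P) + S ^ 2 ≤ 4 P a`
      have hX : 4 * P * (S - 2 * P) + S ^ 2 ≤ 4 * P * a := by
        rw [ha]
        nlinarith
      have hX0 : 0 ≤ 4 * P * (S - 2 * P) + S ^ 2 := by
        have := mul_nonneg h.le (sub_nonneg.2 hS)
        nlinarith [sq_nonneg S]
      have hX2 : (4 * P * (S - 2 * P) + S ^ 2) ^ 2 ≤ (4 * P * a) ^ 2 := pow_le_pow_left₀ hX0 hX 2
      have h3 : 0 ≤ (S - 2 * P) ^ 3 * (S + 14 * P) :=
        mul_nonneg (pow_nonneg (sub_nonneg.2 hS) 3) (by linarith)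
      have h4 : 56 * P ^ 2 * (4 * P * (S - 2 * P) + S ^ 2) ≤ 56 * P ^ 2 * (4 * P * a) :=
        mul_le_mul_of_nonneg_left hX (by positivity)
      have h5 : 16 * P ^ 2 * (8 * S ^ 2) ≤ 16 * P ^ 2 * (a ^ 2 + 14 * a * P + 17 * P ^ 2) := by
        nlinarith
      exact le_of_mul_le_mul_left h5 (by positivity)
  linarith

/-- the algebra of the two halves -/
theorem alg2 {a P W b M U x y : ℝ} (hP : 0 ≤ P) (hM : 0 ≤ M) (h1 : 16 * (W - P ^ 2) ≤ a ^ 2 + 14 * a * P + P ^ 2)
    (h2 : P ≤ a) (h3 : 16 * (U - M ^ 2) ≤ b ^ 2 + 14 * b * M + M ^ 2) (h4 : M ≤ b) (hx : b + P ≤ x) (hy : a + M ≤ y) :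
    16 * (U + W - (P - M) ^ 2) ≤ x ^ 2 + 14 * x * y + y ^ 2 := by
  have k0 : (b + P) ^ 2 + 14 * (b + P) * (a + M) + (a + M) ^ 2 ≤ x ^ 2 + 14 * x * y + y ^ 2 := by
    have i1 : 0 ≤ b + P := by linarith
    have i2 : 0 ≤ a + M := by linarith
    have i3 := pow_le_pow_left₀ i1 hx 2
    have i4 := pow_le_pow_left₀ i2 hy 2
    have i5 := mul_le_mul hx hy i2 (i1.trans hx)
    nlinarith
  have k1 : M * P ≤ b * P := mul_le_mul_of_nonneg_right h4 hP
  have k2 : P * M ≤ a * M := mul_le_mul_of_nonneg_right h2 hM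
  have k3 : M * P ≤ b * a := mul_le_mul h4 h2 hP (hM.trans h4)
  nlinarith

/-- reflection of the unit interval -/
theorem refl01 (f : ℝ → ℝ) : ∫ v in (0 : ℝ)..1, f (1 - v) = ∫ v in (0 : ℝ)..1, f v := by
  rw [intervalIntegral.integral_comp_sub_left (fun v => f v) 1]
  norm_num

/-- the second variance lemma for a function with the value `0` at the centre -/
theorem var20 {G : ℝ → ℝ} (hc : Continuous G) (c : ℝ) (hm : MonotoneOn G (Icc (c - 3) (c + 3))) (h0 : G c = 0) :
    16 * (ht (fun t => G t ^ 2) c - ht G c ^ 2) ≤ (ht G c - ht G (c - 1)) ^ 2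
      + 14 * (ht G c - ht G (c - 1)) * (ht G (c + 1) - ht G c) + (ht G (c + 1) - ht G c) ^ 2 := by
  have mem : ∀ x : ℝ, -3 ≤ x → x ≤ 3 → c + x ∈ Icc (c - 3) (c + 3) := fun x a b => ⟨by linarith, by linarith⟩
  have mo : ∀ x y : ℝ, -3 ≤ x → x ≤ y → y ≤ 3 → G (c + x) ≤ G (c + y) := fun x y a b d =>
    hm (mem x a (by linarith)) (mem y (by linarith) d) (by linarith)
  have hc0 : G (c + 0) = 0 := by rw [add_zero, h0]
  -- the two halves
  obtain ⟨R, hR⟩ : ∃ R : ℝ → ℝ, R = fun v => G (c + v) := ⟨_, rfl⟩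
  obtain ⟨L, hL⟩ : ∃ L : ℝ → ℝ, L = fun v => -G (c - v) := ⟨_, rfl⟩
  have cR : Continuous R := by rw [hR]; fun_prop
  have cL : Continuous L := by rw [hL]; fun_prop
  have mR : MonotoneOn R (Icc 0 1) := fun x hx y hy hxy => by
    rw [hR]
    exact mo x y (by linarith [hx.1]) hxy (by linarith [hy.2])
  have mL : MonotoneOn L (Icc 0 1) := fun x hx y hy hxy => by
    rw [hL]
    have := mo (-y) (-x) (by linarith [hy.2]) (by linarith) (by linarith [hx.1])
    rw [← sub_eq_add_neg, ← sub_eq_add_neg] at this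
    simpa using this
  have zR : R 0 = 0 := by rw [hR]; simpa using h0
  have zL : L 0 = 0 := by rw [hL]; simpa using h0
  obtain ⟨r1, r2⟩ := half cR mR zR.ge
  obtain ⟨l1, l2⟩ := half cL mL zL.ge
  -- Chebyshev
  have cheb : ∀ F : ℝ → ℝ, Continuous F → MonotoneOn F (Icc 0 1) →
      2 * (∫ v in (0 : ℝ)..1, (1 - v) * F v) ≤ ∫ v in (0 : ℝ)..1, F v := fun F hF mF => by
    have h1 := lin_mono hF mF
    have h2 : (∫ v in (0 : ℝ)..1, F v) = (∫ v in (0 : ℝ)..1, (1 - v) * F v) + ∫ v in (0 : ℝ)..1, v * F v := by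
      rw [← intervalIntegral.integral_add (ii (by fun_prop) _ _) (ii (by fun_prop) _ _)]
      refine intervalIntegral.integral_congr fun v _ => ?_
      ring
    linarith
  have top : ∀ F : ℝ → ℝ, Continuous F → MonotoneOn F (Icc 0 1) →
      2 * (∫ v in (0 : ℝ)..1, (1 - v) * F v) ≤ F 1 := fun F hF mF => by
    have h1 : ∫ v in (0 : ℝ)..1, (1 - v) * F v ≤ ∫ v in (0 : ℝ)..1, (1 - v) * F 1 :=
      intervalIntegral.integral_mono_on zero_le_one (ii (by fun_prop) _ _) (ii (by fun_prop) _ _) fun v hv =>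
        mul_le_mul_of_nonneg_left (mF hv ⟨zero_le_one, le_rfl⟩ hv.2) (sub_nonneg.2 hv.2)
    rw [intervalIntegral.integral_mul_const, int_1v] at h1
    linarith
  have nonn : ∀ F : ℝ → ℝ, MonotoneOn F (Icc 0 1) → F 0 = 0 → 0 ≤ ∫ v in (0 : ℝ)..1, (1 - v) * F v :=
    fun F mF z => intervalIntegral.integral_nonneg zero_le_one fun v hv =>
      mul_nonneg (sub_nonneg.2 hv.2) (z.ge.trans (mF ⟨le_rfl, zero_le_one⟩ hv hv.1))
  obtain ⟨aR, aR'⟩ := alg1 (nonn R mR zR) (cheb R cR mR) (top R cR mR) r1 r2 rfl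
  obtain ⟨aL, aL'⟩ := alg1 (nonn L mL zL) (cheb L cL mL) (top L cL mL) l1 l2 rfl
  -- the three averages in terms of the halves
  have w1 : ∀ F : ℝ → ℝ, Continuous F → ∫ v in (0 : ℝ)..1, v * F v
      = (∫ v in (0 : ℝ)..1, F v) - ∫ v in (0 : ℝ)..1, (1 - v) * F v := fun F hF => by
    rw [← intervalIntegral.integral_sub (ii (by fun_prop) _ _) (ii (by fun_prop) _ _)]
    refine intervalIntegral.integral_congr fun v _ => ?_
    ring
  have eL1 : ∫ v in (0 : ℝ)..1, v * G (c - 1 + v) = -∫ v in (0 : ℝ)..1, (1 - v) * L v := by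
    rw [← refl01 (fun v => (1 - v) * L v), ← intervalIntegral.integral_neg]
    refine intervalIntegral.integral_congr fun v _ => ?_
    simp only [hL]
    rw [show c - (1 - v) = c - 1 + v by ring]
    ring
  have eL2 : ∫ v in (0 : ℝ)..1, (1 - v) * G (c - 1 + v) = -∫ v in (0 : ℝ)..1, v * L v := by
    rw [← refl01 (fun v => v * L v), ← intervalIntegral.integral_neg]
    refine intervalIntegral.integral_congr fun v _ => ?_
    simp only [hL]
    rw [show c - (1 - v) = c - 1 + v by ring]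
    ring
  have eL3 : ∫ v in (0 : ℝ)..1, v * G (c - 1 + v) ^ 2 = ∫ v in (0 : ℝ)..1, (1 - v) * L v ^ 2 := by
    rw [← refl01 (fun v => (1 - v) * L v ^ 2)]
    refine intervalIntegral.integral_congr fun v _ => ?_
    simp only [hL]
    rw [show c - (1 - v) = c - 1 + v by ring]
    ring
  have E0 : ht G c = (∫ v in (0 : ℝ)..1, (1 - v) * R v) - ∫ v in (0 : ℝ)..1, (1 - v) * L v := by
    unfold ht
    rw [eL1, hR]
    ring
  have E2 : ht (fun t => G t ^ 2) c = (∫ v in (0 : ℝ)..1, (1 - v) * L v ^ 2) + ∫ v in (0 : ℝ)..1, (1 - v) * R v ^ 2 := by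
    unfold ht
    rw [eL3, hR]
  have Ep : (∫ v in (0 : ℝ)..1, R v) - (∫ v in (0 : ℝ)..1, (1 - v) * R v) + R 1 / 2 ≤ ht G (c + 1) := by
    have a1 : ∫ v in (0 : ℝ)..1, (1 - v) * R 1 ≤ ∫ v in (0 : ℝ)..1, (1 - v) * G (c + 1 + v) := by
      refine intervalIntegral.integral_mono_on zero_le_one (ii (by fun_prop) _ _) (ii (by fun_prop) _ _) fun v hv => ?_
      have := mo 1 (1 + v) (by norm_num) (by linarith [hv.1]) (by linarith [hv.2])
      rw [← add_assoc] at this
      rw [hR]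
      exact mul_le_mul_of_nonneg_left this (sub_nonneg.2 hv.2)
    rw [intervalIntegral.integral_mul_const, int_1v] at a1
    have a2 := w1 R cR
    have a3 : ∫ v in (0 : ℝ)..1, v * G (c + 1 - 1 + v) = ∫ v in (0 : ℝ)..1, v * R v := by
      rw [hR, show c + 1 - 1 = c by ring]
    unfold ht
    rw [a3]
    linarith
  have Em : ht G (c - 1) ≤ -((∫ v in (0 : ℝ)..1, L v) - (∫ v in (0 : ℝ)..1, (1 - v) * L v) + L 1 / 2) := by
    have a1 : ∫ v in (0 : ℝ)..1, v * G (c - 1 - 1 + v) ≤ ∫ v in (0 : ℝ)..1, v * -L 1 := by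
      refine intervalIntegral.integral_mono_on zero_le_one (ii (by fun_prop) _ _) (ii (by fun_prop) _ _) fun v hv => ?_
      have := mo (-2 + v) (-1) (by linarith [hv.1]) (by linarith [hv.2]) (by norm_num)
      rw [show c + (-2 + v) = c - 1 - 1 + v by ring, show c + -1 = c - 1 by ring] at this
      rw [hL]
      simp only [neg_neg]
      exact mul_le_mul_of_nonneg_left this hv.1
    rw [intervalIntegral.integral_mul_const, int_v] at a1
    have a2 := w1 L cL
    unfold ht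
    rw [eL2]
    linarith
  have := alg2 (nonn R mR zR) (nonn L mL zL) aR aR' aL aL' (x := ht G c - ht G (c - 1)) (y := ht G (c + 1) - ht G c)
    (by linarith) (by linarith)
  rw [E2]
  rw [E0] at this ⊢
  exact this

/-- **the second variance lemma for the hat averages** -/
theorem var_mono2 {G : ℝ → ℝ} (hc : Continuous G) (c : ℝ) (hm : MonotoneOn G (Icc (c - 3) (c + 3))) :
    16 * (ht (fun t => G t ^ 2) c - ht G c ^ 2) ≤ (ht G c - ht G (c - 1)) ^ 2
      + 14 * (ht G c - ht G (c - 1)) * (ht G (c + 1) - ht G c) + (ht G (c + 1) - ht G c) ^ 2 := by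
  have key := var20 (G := fun t => G t - G c) (by fun_prop) c
    (fun x hx y hy hxy => by
      have := hm hx hy hxy
      simp only
      linarith) (sub_self _)
  have e1 : ∀ k, ht (fun t => G t - G c) k = ht G k - G c := fun k => by
    rw [ht_sub (F := fun _ => G c) hc continuous_const, ht_const]
  have e2 : ht (fun t => (G t - G c) ^ 2) c = ht (fun t => G t ^ 2) c + -(2 * G c) * ht G c + G c ^ 2 := by
    have e : (fun t => (G t - G c) ^ 2) = fun t => (G t ^ 2 + (-(2 * G c)) * G t) + G c ^ 2 := by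
      funext t
      ring
    rw [e, ht_add (by fun_prop) continuous_const, ht_add (by fun_prop) (by fun_prop), ht_smul, ht_const]
  simp only [e1, e2] at key
  nlinarith

end Pool.Agent.FPX.HAV
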