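import Pool.Agent.FPX.HVN
import Pool.Agent.FPX.HAV2
import Pool.Agent.FPX.TVW

/-
HVO (helper22): the second variance bound `VNh` for a state (same checks as for `VBh`) and the record `AvgL`.
The text of `var_lo2`, `GeoH.var_L2`, `GeoH.var_H2` follows helper81's HAK and HAS.
-/

set_option autoImplicit false

open MeasureTheory Set Filter Topology
open scoped NNReal

noncomputable section

namespace Pool.Agent.FPX.HAA

open Pool.Agent.FPX.NOD Pool.Agent.FPX.CAV Pool.Agent.FPX.NOX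
open Pool.Agent.FPX.ALX (St)
open Pool.Agent.FPX.NOT (Gq)
open Pool.Agent.FPX.AVS (wm)

/-- the second variance bound from lower bounds of the slopes on six cells -/
theorem var_lo2 {q : ℝ → ℝ} (cq : Continuous q) {c : ℝ} {L L' : Fin 6 → ℝ}
    (hL : ∀ j, ∀ v, 0 ≤ v → v ≤ 1 → 0 ≤ L j + L' j * (v - 1 / 2)) (h : ∀ j : Fin 6, Lo q (c - 3 + j) (L j) (L' j))
    {l : Fin 4 → ℝ} (h1 : hs3 (L 1) (L' 1) (L 2) (L 3) (L' 3) ≤ l 1)
    (h2 : hs3 (L 2) (L' 2) (L 3) (L 4) (L' 4) ≤ l 2) :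
    16 * (ht (fun t => q t ^ 2) c - ht q c ^ 2)
      ≤ (ht q c - ht q (c - 1) + l 1) ^ 2 + 14 * (ht q c - ht q (c - 1) + l 1) * (ht q (c + 1) - ht q c + l 2)
        + (ht q (c + 1) - ht q c + l 2) ^ 2 + 16 * vP (L 2) (L' 2) (L 3) (L' 3) := by
  obtain ⟨P, hP⟩ : ∃ P : ℝ → ℝ, P = PP c L L' := ⟨_, rfl⟩
  have cP : Continuous P := by
    rw [hP]
    fun_prop
  have hc : ∀ m : Fin 6, ∀ v, 0 ≤ v → v ≤ 1 → P (c - 3 + m + v) = sL L m + PH (L m) (L' m) v := fun m v a b => by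
    rw [hP]
    exact PP_cell c L L' m a b
  obtain ⟨G, hG⟩ : ∃ G : ℝ → ℝ, G = fun t => q t + P t := ⟨_, rfl⟩
  have cG : Continuous G := by
    rw [hG]
    exact cq.add cP
  have mG : MonotoneOn G (Icc (c - 3) (c + 3)) := mono6 fun m x y hx hxy hy => by
    have := h m x y hx hxy hy
    simp only [hG]
    rw [hc m x hx (hxy.trans hy), hc m y (hx.trans hxy) hy]
    linarith
  have mP : MonotoneOn P (Icc (c - 3) (c + 3)) := mono6 fun m x y hx hxy hy => by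
    rw [hc m x hx (hxy.trans hy), hc m y (hx.trans hxy) hy]
    linarith [PH_mono (hL m) x y hx hxy hy]
  have hUp : ∀ m : Fin 6, Up P (c - 3 + m) (L m) (L' m) := fun m x y hx hxy hy => by
    rw [hc m x hx (hxy.trans hy), hc m y (hx.trans hxy) hy]
    linarith
  have u1 : Up P (c - 2) (L 1) (L' 1) := by
    have := hUp 1
    rwa [show c - 3 + (((1 : Fin 6) : ℕ) : ℝ) = c - 2 by norm_num; ring] at this
  have u2 : Up P (c - 1) (L 2) (L' 2) := by
    have := hUp 2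
    rwa [show c - 3 + (((2 : Fin 6) : ℕ) : ℝ) = c - 1 by norm_num; ring] at this
  have u3 : Up P c (L 3) (L' 3) := by
    have := hUp 3
    rwa [show c - 3 + (((3 : Fin 6) : ℕ) : ℝ) = c by norm_num] at this
  have u4 : Up P (c + 1) (L 4) (L' 4) := by
    have := hUp 4
    rwa [show c - 3 + (((4 : Fin 6) : ℕ) : ℝ) = c + 1 by norm_num; ring] at this
  have d1 : ht P c - ht P (c - 1) ≤ l 1 := by
    have := ht_inc cP (k := c - 1) (by rwa [show c - 1 - 1 = c - 2 by ring]) u2 (by rwa [show c - 1 + 1 = c by ring])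
    rw [show c - 1 + 1 = c by ring] at this
    exact this.trans h1
  have d2 : ht P (c + 1) - ht P c ≤ l 2 := (ht_inc cP (k := c) u2 u3 u4).trans h2
  have eG : ∀ k, ht G k = ht q k + ht P k := fun k => by rw [hG, ht_add cq cP]
  -- steps of the majorant
  have s1 : ht G (c - 1) ≤ ht G c := by
    have := ht_step cG (k := c - 1) (mG.mono (Icc_subset_Icc (by linarith) (by linarith)))
    rwa [show c - 1 + 1 = c by ring] at this
  have s2 : ht G c ≤ ht G (c + 1) := ht_step cG (mG.mono (Icc_subset_Icc (by linarith) (by linarith)))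
  have hv := HAV.var_mono2 cG c mG
  have hcov := ht_cheb cG cP c (mG.mono (Icc_subset_Icc (by linarith) (by linarith)))
    (mP.mono (Icc_subset_Icc (by linarith) (by linarith)))
  have hvP : ht (fun t => P t ^ 2) c - ht P c ^ 2 = vP (L 2) (L' 2) (L 3) (L' 3) := by
    refine PP_var (s := sL L 2) (fun v a b => ?_) fun v a b => ?_
    · have := hc 2 v a b
      rwa [show c - 3 + (((2 : Fin 6) : ℕ) : ℝ) = c - 1 by norm_num; ring] at this
    · have := hc 3 v a b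
      rw [show c - 3 + (((3 : Fin 6) : ℕ) : ℝ) = c by norm_num] at this
      rw [this]
      simp [sL, Fin.sum_univ_succ]
      ring
  have e2 : ht (fun t => q t ^ 2) c = ht (fun t => G t ^ 2) c + -2 * ht (fun t => G t * P t) c + ht (fun t => P t ^ 2) c := by
    rw [← ht_smul, ← ht_add (by fun_prop) (by fun_prop), ← ht_add (by fun_prop) (by fun_prop)]
    congr 1
    funext t
    simp only [hG]
    ring
  have e4 := eG (c - 1)
  have e5 := eG c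
  have e6 := eG (c + 1)
  -- the products
  have n1 : 0 ≤ ht G c - ht G (c - 1) := by linarith
  have n2 : 0 ≤ ht G (c + 1) - ht G c := by linarith
  have l1 : ht G c - ht G (c - 1) ≤ ht q c - ht q (c - 1) + l 1 := by linarith
  have l2 : ht G (c + 1) - ht G c ≤ ht q (c + 1) - ht q c + l 2 := by linarith
  have m1 : (ht G c - ht G (c - 1)) * (ht G (c + 1) - ht G c)
      ≤ (ht q c - ht q (c - 1) + l 1) * (ht q (c + 1) - ht q c + l 2) := mul_le_mul l1 l2 n2 (n1.trans l1)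
  have m2 := pow_le_pow_left₀ n1 l1 2
  have m3 := pow_le_pow_left₀ n2 l2 2
  have e8 : ht q c ^ 2 = ht G c ^ 2 - 2 * (ht G c * ht P c) + ht P c ^ 2 := by
    rw [e5]
    ring
  rw [e2, e8, ← hvP]
  linarith

/-- the second variance bound from upper bounds of the slopes on six cells -/
theorem var_up2 {q : ℝ → ℝ} (cq : Continuous q) {c : ℝ} {L L' : Fin 6 → ℝ}
    (hL : ∀ j, ∀ v, 0 ≤ v → v ≤ 1 → 0 ≤ L j + L' j * (v - 1 / 2)) (h : ∀ j : Fin 6, Up q (c - 3 + j) (L j) (L' j))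
    {l : Fin 4 → ℝ} (h1 : hs3 (L 1) (L' 1) (L 2) (L 3) (L' 3) ≤ l 1)
    (h2 : hs3 (L 2) (L' 2) (L 3) (L 4) (L' 4) ≤ l 2) :
    16 * (ht (fun t => q t ^ 2) c - ht q c ^ 2)
      ≤ (l 1 - (ht q c - ht q (c - 1))) ^ 2 + 14 * (l 1 - (ht q c - ht q (c - 1))) * (l 2 - (ht q (c + 1) - ht q c))
        + (l 2 - (ht q (c + 1) - ht q c)) ^ 2 + 16 * vP (L 2) (L' 2) (L 3) (L' 3) := by
  have k := var_lo2 (q := fun t => -q t) cq.neg (c := c) hL (fun j => (h j).neg) h1 h2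
  simp only [ht_neg, neg_sq] at k
  refine k.trans (le_of_eq ?_)
  ring

section state

variable {D : CD} (hG : GeoH D) {X : ℝ → ℝ} (hX : St D.s X)

include hG hX

/-- the second variance bound from the lower majorants -/
theorem GeoH.var_L2 {i : ℕ} (hi : i < D.N) (a0 : okL D ((i : ℤ) - 2)) (a1 : okL D ((i : ℤ) - 1))
    (a2 : okL D i) (a3 : okL D ((i : ℤ) + 1)) :
    16 * (ht (fun t => qf X D.N t ^ 2) i - ht (qf X D.N) i ^ 2)
      ≤ (ht (qf X D.N) i - ht (qf X D.N) (i - 1) + lbE D ((i : ℤ) - 1)) ^ 2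
        + 14 * (ht (qf X D.N) i - ht (qf X D.N) (i - 1) + lbE D ((i : ℤ) - 1))
          * (ht (qf X D.N) (i + 1) - ht (qf X D.N) i + lbE D i)
        + (ht (qf X D.N) (i + 1) - ht (qf X D.N) i + lbE D i) ^ 2
        + 16 * ((vPq (LE D ((i : ℤ) - 1)) (LE' D ((i : ℤ) - 1)) (LE D i) (LE' D i) : ℚ) : ℝ) := by
  have hN3 := hG.N3
  have c0 : (i : ℤ) - 3 + (((0 : Fin 6) : ℕ) : ℤ) = i - 3 := by norm_num
  have c1 : (i : ℤ) - 3 + (((1 : Fin 6) : ℕ) : ℤ) = i - 2 := by norm_num; ring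
  have c2 : (i : ℤ) - 3 + (((2 : Fin 6) : ℕ) : ℤ) = i - 1 := by norm_num; ring
  have c3 : (i : ℤ) - 3 + (((3 : Fin 6) : ℕ) : ℤ) = i := by norm_num
  have c4 : (i : ℤ) - 3 + (((4 : Fin 6) : ℕ) : ℤ) = i + 1 := by norm_num; ring
  have c5 : (i : ℤ) - 3 + (((5 : Fin 6) : ℕ) : ℤ) = i + 2 := by norm_num; ring
  have d1 : (i : ℤ) - 2 + (((1 : Fin 4) : ℕ) : ℤ) = i - 1 := by norm_num; ring
  have d2 : (i : ℤ) - 2 + (((2 : Fin 4) : ℕ) : ℤ) = i := by norm_num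
  obtain ⟨p0, p1, p2, p3⟩ := a0
  obtain ⟨q0, q1, q2, q3⟩ := a1
  obtain ⟨r0, r1, r2, r3⟩ := a2
  obtain ⟨s0, s1, s2, s3⟩ := a3
  rw [show (i : ℤ) - 2 - 1 = i - 3 by ring] at p0 p3
  rw [show (i : ℤ) - 2 + 1 = i - 1 by ring] at p2 p3
  rw [show (i : ℤ) - 1 - 1 = i - 2 by ring] at q0 q3
  rw [show (i : ℤ) - 1 + 1 = i by ring] at q2 q3
  rw [show (i : ℤ) + 1 - 1 = i by ring] at s0 s3
  rw [show (i : ℤ) + 1 + 1 = i + 2 by ring] at s2 s3
  have hw : ∀ j : Fin 6, wE D ((i : ℤ) - 3 + (j : ℕ)) = true := by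
    intro j
    have e : j = 0 ∨ j = 1 ∨ j = 2 ∨ j = 3 ∨ j = 4 ∨ j = 5 := by
      fin_cases j <;> decide
    rcases e with rfl | rfl | rfl | rfl | rfl | rfl
    · rw [c0]; exact p0
    · rw [c1]; exact p1
    · rw [c2]; exact p2
    · rw [c3]; exact r1
    · rw [c4]; exact s1
    · rw [c5]; exact s2
  have hL : ∀ j : Fin 6, ∀ v, 0 ≤ v → v ≤ 1 → 0 ≤ (fun j : Fin 6 => (LE D ((i : ℤ) - 3 + (j : ℕ)) : ℝ)) j
      + (fun j : Fin 6 => (LE' D ((i : ℤ) - 3 + (j : ℕ)) : ℝ)) j * (v - 1 / 2) := fun j v a b =>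
    GeoH.nnL hG (by have := j.2; omega) (by have := j.2; omega) (hw j) v a b
  have hlo : ∀ j : Fin 6, Lo (qf X D.N) ((i : ℝ) - 3 + (j : ℕ)) ((fun j : Fin 6 => (LE D ((i : ℤ) - 3 + (j : ℕ)) : ℝ)) j)
      ((fun j : Fin 6 => (LE' D ((i : ℤ) - 3 + (j : ℕ)) : ℝ)) j) := fun j => by
    have := GeoH.lo hG hX (k := (i : ℤ) - 3 + (j : ℕ)) (by have := j.2; omega) (by have := j.2; omega) (hw j)
    push_cast at this
    exact this
  have t1 : hs3 (LE D ((i : ℤ) - 2)) (LE' D ((i : ℤ) - 2)) (LE D ((i : ℤ) - 1)) (LE D i) (LE' D i)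
      ≤ lbE D ((i : ℤ) - 1) := by
    rw [← hs3_cast]
    exact_mod_cast q3
  have t2 : hs3 (LE D ((i : ℤ) - 1)) (LE' D ((i : ℤ) - 1)) (LE D i) (LE D ((i : ℤ) + 1)) (LE' D ((i : ℤ) + 1))
      ≤ lbE D i := by
    rw [← hs3_cast]
    exact_mod_cast r3
  have k := var_lo2 (cq hX) (c := (i : ℝ)) hL hlo (l := fun j : Fin 4 => (lbE D ((i : ℤ) - 2 + (j : ℕ)) : ℝ))
    (by simp only [c1, c2, c3, d1]; exact t1) (by simp only [c2, c3, c4, d2]; exact t2)
  simp only [c2, c3, d1, d2] at k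
  rw [vP_cast]
  exact k

/-- the second variance bound from the upper majorants -/
theorem GeoH.var_H2 {i : ℕ} (hi : i < D.N) (a0 : okH D ((i : ℤ) - 2)) (a1 : okH D ((i : ℤ) - 1))
    (a2 : okH D i) (a3 : okH D ((i : ℤ) + 1)) :
    16 * (ht (fun t => qf X D.N t ^ 2) i - ht (qf X D.N) i ^ 2)
      ≤ (hbE D ((i : ℤ) - 1) - (ht (qf X D.N) i - ht (qf X D.N) (i - 1))) ^ 2
        + 14 * (hbE D ((i : ℤ) - 1) - (ht (qf X D.N) i - ht (qf X D.N) (i - 1)))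
          * (hbE D i - (ht (qf X D.N) (i + 1) - ht (qf X D.N) i))
        + (hbE D i - (ht (qf X D.N) (i + 1) - ht (qf X D.N) i)) ^ 2
        + 16 * ((vPq (HE D ((i : ℤ) - 1)) (HE' D ((i : ℤ) - 1)) (HE D i) (HE' D i) : ℚ) : ℝ) := by
  have hN3 := hG.N3
  have c0 : (i : ℤ) - 3 + (((0 : Fin 6) : ℕ) : ℤ) = i - 3 := by norm_num
  have c1 : (i : ℤ) - 3 + (((1 : Fin 6) : ℕ) : ℤ) = i - 2 := by norm_num; ring
  have c2 : (i : ℤ) - 3 + (((2 : Fin 6) : ℕ) : ℤ) = i - 1 := by norm_num; ring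
  have c3 : (i : ℤ) - 3 + (((3 : Fin 6) : ℕ) : ℤ) = i := by norm_num
  have c4 : (i : ℤ) - 3 + (((4 : Fin 6) : ℕ) : ℤ) = i + 1 := by norm_num; ring
  have c5 : (i : ℤ) - 3 + (((5 : Fin 6) : ℕ) : ℤ) = i + 2 := by norm_num; ring
  have d1 : (i : ℤ) - 2 + (((1 : Fin 4) : ℕ) : ℤ) = i - 1 := by norm_num; ring
  have d2 : (i : ℤ) - 2 + (((2 : Fin 4) : ℕ) : ℤ) = i := by norm_num
  obtain ⟨p0, p1, p2, p3⟩ := a0
  obtain ⟨q0, q1, q2, q3⟩ := a1
  obtain ⟨r0, r1, r2, r3⟩ := a2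
  obtain ⟨s0, s1, s2, s3⟩ := a3
  rw [show (i : ℤ) - 2 - 1 = i - 3 by ring] at p0 p3
  rw [show (i : ℤ) - 2 + 1 = i - 1 by ring] at p2 p3
  rw [show (i : ℤ) - 1 - 1 = i - 2 by ring] at q0 q3
  rw [show (i : ℤ) - 1 + 1 = i by ring] at q2 q3
  rw [show (i : ℤ) + 1 - 1 = i by ring] at s0 s3
  rw [show (i : ℤ) + 1 + 1 = i + 2 by ring] at s2 s3
  have hw : ∀ j : Fin 6, uE D ((i : ℤ) - 3 + (j : ℕ)) = true := by
    intro j
    have e : j = 0 ∨ j = 1 ∨ j = 2 ∨ j = 3 ∨ j = 4 ∨ j = 5 := by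
      fin_cases j <;> decide
    rcases e with rfl | rfl | rfl | rfl | rfl | rfl
    · rw [c0]; exact p0
    · rw [c1]; exact p1
    · rw [c2]; exact p2
    · rw [c3]; exact r1
    · rw [c4]; exact s1
    · rw [c5]; exact s2
  have hL : ∀ j : Fin 6, ∀ v, 0 ≤ v → v ≤ 1 → 0 ≤ (fun j : Fin 6 => (HE D ((i : ℤ) - 3 + (j : ℕ)) : ℝ)) j
      + (fun j : Fin 6 => (HE' D ((i : ℤ) - 3 + (j : ℕ)) : ℝ)) j * (v - 1 / 2) := fun j v a b =>
    GeoH.nnH hG (by have := j.2; omega) (by have := j.2; omega) (hw j) v a b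
  have hlo : ∀ j : Fin 6, Up (qf X D.N) ((i : ℝ) - 3 + (j : ℕ)) ((fun j : Fin 6 => (HE D ((i : ℤ) - 3 + (j : ℕ)) : ℝ)) j)
      ((fun j : Fin 6 => (HE' D ((i : ℤ) - 3 + (j : ℕ)) : ℝ)) j) := fun j => by
    have := GeoH.up hG hX (k := (i : ℤ) - 3 + (j : ℕ)) (by have := j.2; omega) (by have := j.2; omega) (hw j)
    push_cast at this
    exact this
  have t1 : hs3 (HE D ((i : ℤ) - 2)) (HE' D ((i : ℤ) - 2)) (HE D ((i : ℤ) - 1)) (HE D i) (HE' D i)
      ≤ hbE D ((i : ℤ) - 1) := by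
    rw [← hs3_cast]
    exact_mod_cast q3
  have t2 : hs3 (HE D ((i : ℤ) - 1)) (HE' D ((i : ℤ) - 1)) (HE D i) (HE D ((i : ℤ) + 1)) (HE' D ((i : ℤ) + 1))
      ≤ hbE D i := by
    rw [← hs3_cast]
    exact_mod_cast r3
  have k := var_up2 (cq hX) (c := (i : ℝ)) hL hlo (l := fun j : Fin 4 => (hbE D ((i : ℤ) - 2 + (j : ℕ)) : ℝ))
    (by simp only [c1, c2, c3, d1]; exact t1) (by simp only [c2, c3, c4, d2]; exact t2)
  simp only [c2, c3, d1, d2] at k
  rw [vP_cast]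
  exact k

/-- **the second variance bound at a centre** -/
theorem GeoH.var_le2 {i : ℕ} (hi : i < D.N) :
    ht (fun t => qf X D.N t ^ 2) i - ht (qf X D.N) i ^ 2 ≤ VNh D (fun i => ht (qf X D.N) i) i := by
  have hN := GeoH.N0 hG
  have hN3 := hG.N3
  have hdz : ∀ k : ℤ, -(D.N : ℤ) ≤ k → k < 2 * D.N → dzE D (fun i => ht (qf X D.N) i) k
      = ht (qf X D.N) (k + 1) - ht (qf X D.N) k := fun k h0 h1 => dzE_eq hX hN h0 h1
  have z1 := hdz ((i : ℤ) - 1) (by omega) (by omega)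
  have z2 := hdz (i : ℤ) (by omega) (by omega)
  push_cast at z1 z2
  rw [show (i : ℝ) - 1 + 1 = i by ring] at z1
  have h := hG.var i hi
  have old := GeoH.var_le hG hX varMono hi
  unfold okVh at h
  unfold VBh at old
  unfold VNh
  split at h
  · rename_i e
    rw [e] at old ⊢
    exact old
  · rename_i e
    obtain ⟨a0, a1, a2, a3, a4⟩ := h
    have k := GeoH.var_L2 hG hX hi a0 a1 a2 a3
    have a4' : ((vPq (LE D ((i : ℤ) - 1)) (LE' D ((i : ℤ) - 1)) (LE D i) (LE' D i) : ℚ) : ℝ) ≤ D.vc i := by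
      exact_mod_cast a4
    rw [e]
    simp only
    unfold QE
    rw [z1, z2]
    linarith
  · rename_i e
    obtain ⟨a0, a1, a2, a3, a4⟩ := h
    have k := GeoH.var_H2 hG hX hi a0 a1 a2 a3
    have a4' : ((vPq (HE D ((i : ℤ) - 1)) (HE' D ((i : ℤ) - 1)) (HE D i) (HE' D i) : ℚ) : ℝ) ≤ D.vc i := by
      exact_mod_cast a4
    split
    · rename_i e0
      exact absurd e0 (by assumption)
    · rename_i e1
      exact absurd e1 (by assumption)
    · unfold PE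
      rw [z1, z2]
      linarith

end state

end Pool.Agent.FPX.HAA

namespace Pool.Agent.FPX.HVO

open Pool.Agent.FPX.HAA Pool.Agent.FPX.CAV
open Pool.Agent.FPX.ALX (St)
open Pool.Agent.FPX.NOT (Gq)

/-- **the record with both variance bounds** -/
theorem avgL_of {R : ℕ} (hR : 1 ≤ R) {D : CD} (hG : GeoH D) {a : ℕ → ℕ → Gq} {η e : ℕ → ℚ} (hT : HAT.TrgH R D.N a η)
    (hE : HAE.ErrH R D (3927 / 1250 * D.s) (267 / 100 * D.s ^ 2) η e) {X : ℝ → ℝ} (hX : St D.s X)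
    (hb : ∀ a, |X a| ≤ 0.62 * (D.s : ℝ)) :
    AvgL R D a e (BRG.vl BTN.va X BTN.e1) (BRG.Zr 2 BTN.va X BTN.e1) (zH X D.N) (aH X D.N) :=
  { TVW.avgH_of hR hG hT hE hX hb with
    A2 := fun i hi => by
      have k := GeoH.var_le2 hG hX hi
      have k' : aH X D.N i - zH X D.N i ^ 2 ≤ VNh D (zH X D.N) i := k
      linarith }

end Pool.Agent.FPX.HVO
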