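import Pool.Agent.FPX.NCW
import Pool.Agent.FPX.HVO

/-
NCX (helper39): the condition of the certificate bridge for a state from the Booleans of a record `NW` (hat averages,
combination of the two variance bounds).
-/

set_option autoImplicit false

open MeasureTheory Set Filter Topology Real

noncomputable section

namespace Pool.Agent.FPX.NCD

open Pool.Agent.FPX.CAV
open Pool.Agent.FPX.HAA (AvgH AvgL GeoH)
open Pool.Agent.FPX.HAT (TrgH)
open Pool.Agent.FPX.PLK (iz w3)
open Pool.Agent.FPX.BTN (va e1)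
open Pool.Agent.FPX.BRG (vl Zr)
open Pool.Agent.FPX.ALX (St)

/-- **the condition of the certificate bridge from the record of the hat averages** -/
theorem cert_hatL {D : NW} (hG : GeoH D.Z.cd) {η : ℚ} (hT : TrgH D.toND.R D.G.N D.G.a fun _ => η)
    (cE : D.toNH.chkE η = true) (cN : D.toNH.chkN = true) (cL : D.chkL = true)
    {T : BRG.Tf} {Q : BRG.Qf} {Sc : ℚ} (hSc : 0 < Sc) {B : ℕ} (hNear : Near D.toND.R D.C D.Q Sc B T Q)
    (cK : D.toNH.chkK = true) (cS : D.toND.chkS B = true)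
    (hEng : ∀ z0 z1 z2 : ℂ, D.st.Good (w3 z0 z1 z2))
    {X : ℝ → ℝ} (hX : St D.Z.cd.s X) (hb : ∀ a, |X a| ≤ 0.62 * (D.Z.cd.s : ℝ)) (z : ℕ → ℂ) :
    0 ≤ (BRG.e2 z (vl va X e1) T + BRG.eq2 z (Zr 2 va X e1) Q).re := by
  have hN : D.G.N = D.Z.cd.N := by
    simp only [NH.chkN, Bool.and_eq_true] at cN
    exact Nat.eq_of_beq_eq_true cN.2.1
  rw [hN] at hT
  exact certW_of cN cL hSc hNear cK cS hEng (GeoH.cs1 hG) hX hb
    (HVO.avgL_of (by unfold ND.R; omega) hG hT (HAE.errH_of cE) hX hb) z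

end Pool.Agent.FPX.NCD
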