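import Pool.Agent.FPX.ECW
import Pool.Agent.FPX.NCX
import Pool.Agent.FPX.HAB

/-
ECX (helper79): `NN` of the raw lists of a control point from the Booleans of a hat record, without open hypothesis:
`nn_hatB` (record `NH`), `nn_hatL` (record `NW`, combination of the two variance bounds).  The engine enters as
`D.st.Good` (`certF3 ok`, `certQ3 ok`).
-/

open MeasureTheory Set Filter Topology Complex
open scoped ComplexConjugate

noncomputable section

namespace Pool.Agent.FPX.ECT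

open Pool.Agent.FPX.BRG
open Pool.Agent.FPX.MCP (NN)
open Pool.Agent.FPX.PLK (w3)

variable {T : Tf} {Q : Qf} {S E Dd Dc w : ℕ} {Ls : List ℕ} {V : List (List ℤ)}

/-- **hats, record `NH`** -/
theorem nn_hatB {D : NCD.NH} (c0 : D.Z.G.chk0 = true) (cs : D.Z.G.chkSl = true) (cG : D.Z.chkG = true)
    (cH : HAA.chkHat D.Z.cd = true) {R' : ℕ} {η : ℚ} (cT : HAT.TrgH R' D.G.N D.G.a fun _ => η)
    (hR : Nat.ble D.toND.R R' = true) (cE : D.chkE η = true) (cN : D.chkN = true)
    (hS : Nat.blt 0 S = true) (hL : NCL.chkN D.toND.R E Dd Dc w Ls V T Q D.C D.Q S = true)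
    (cK : D.chkK = true) (cS : D.toND.chkS (rB D.toND.R) = true)
    (hEng : ∀ z0 z1 z2 : ℂ, D.st.Good (w3 z0 z1 z2)) : NN (D.Z.cd.s : ℝ) T Q := by
  intro X hX hb z
  have hS' : 0 < S := by
    have := Nat.le_of_ble_eq_true (show Nat.ble (0 + 1) S = true from hS)
    omega
  exact NCD.cert_hatG (HAA.geoH_of c0 cs cG cH) (cT.mono (Nat.le_of_ble_eq_true hR)) cE cN (Sc := (S : ℚ))
    (by exact_mod_cast hS') (NCL.near_of_chkN hL) cK cS hEng hX (fun a => (hb a).trans (le_of_eq (by norm_num))) z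

/-- **hats, record `NW`** -/
theorem nn_hatL {D : NCD.NW} (c0 : D.Z.G.chk0 = true) (cs : D.Z.G.chkSl = true) (cG : D.Z.chkG = true)
    (cH : HAA.chkHat D.Z.cd = true) {R' : ℕ} {η : ℚ} (cT : HAT.TrgH R' D.G.N D.G.a fun _ => η)
    (hR : Nat.ble D.toND.R R' = true) (cE : D.toNH.chkE η = true) (cN : D.toNH.chkN = true) (cL : D.chkL = true)
    (hS : Nat.blt 0 S = true) (hL : NCL.chkN D.toND.R E Dd Dc w Ls V T Q D.C D.Q S = true)
    (cK : D.toNH.chkK = true) (cS : D.toND.chkS (rB D.toND.R) = true)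
    (hEng : ∀ z0 z1 z2 : ℂ, D.st.Good (w3 z0 z1 z2)) : NN (D.Z.cd.s : ℝ) T Q := by
  intro X hX hb z
  have hS' : 0 < S := by
    have := Nat.le_of_ble_eq_true (show Nat.ble (0 + 1) S = true from hS)
    omega
  exact NCD.cert_hatL (HAA.geoH_of c0 cs cG cH) (cT.mono (Nat.le_of_ble_eq_true hR)) cE cN cL (Sc := (S : ℚ))
    (by exact_mod_cast hS') (NCL.near_of_chkN hL) cK cS hEng hX (fun a => (hb a).trans (le_of_eq (by norm_num))) z

end Pool.Agent.FPX.ECT
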