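import Mathlib
import Pool.Agent.FPX.EJN
import Pool.Agent.FPX.ASE
import Pool.Agent.FPX.XCH

/-
EEND (helper38): THE END of the production class with the closing in the form `ClosesE`: from the data, the
certificate(s) of the row(s) (`CertRZ`, or the lists of cells), the bound of the start map and the numbers to the sharp
bound; one row (deviation itself), and two rows with a stage `StartR → StartE` (V stage) in between.
-/

open MeasureTheory Set Filter Topology Complex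
open scoped ENNReal NNReal ContDiff ComplexConjugate Manifold

noncomputable section

namespace Pool.Agent.FPX.EEND

open Pool.Agent.FPX Pool.Agent.FPX.VTB Pool.Agent.FPX.ASX Pool.Agent.FPX.XCO
open Pool.Agent.FPX.CEL (DatZ)
open Pool.Agent.FPX.WPP
open Pool.Agent.FPX.ASL (WL WL_ge)
open Pool.Agent.FPX.FST
open Pool.Agent.FPX.FSW (SzZ BkZ CellZ)

/-- the numbers of the end: `T`, the start value and `N < e^{c₀}` -/
def numOk (μ T w N c₀ X : ℚ) : Bool := decide (0 ≤ T) && xsOk μ T w X && expOk N c₀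

theorem numOk_spec {μ T w N c₀ X : ℚ} (h : numOk μ T w N c₀ X = true) :
    0 ≤ T ∧ xsOk μ T w X = true ∧ expOk N c₀ = true := by
  simp only [numOk, Bool.and_eq_true, decide_eq_true_eq] at h
  exact ⟨h.1.1, h.1.2, h.2⟩

theorem numOk_mu {μ T w N c₀ X : ℚ} (h : numOk μ T w N c₀ X = true) : (0 : ℝ) < (μ : ℝ) := by
  have := (of_decide_eq_true (numOk_spec h).2.1).1
  exact_mod_cast this

variable {D : DatZ} {L Lc Ld : List (ℚ × List ℚ)} {m mc md : List ℚ} {μ T w N c₀ X : ℚ}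

/-- **the start map with a value below `X`** -/
theorem startE_c (hSz : SzZ D) (hk : okW 0 L m = true) (C : CertRZ (BkZ D) (WL L m) D.cofZ μ T)
    (hN : BdR (BkZ D) N) (hw : w ≤ iW 0 L m) (hn : numOk μ T w N c₀ X = true) :
    ∃ Xs : ℝ, Xs < X ∧ StartE 2 Xs c₀ := by
  obtain ⟨h1, h2, h3⟩ := numOk_spec hn
  obtain ⟨e1, e2, e3⟩ := exp_lt h3
  exact ⟨_, xs_lt h2 (WL_ge hk hw), FSW.startE hSz hk (numOk_mu hn) (by exact_mod_cast h1) C e1 hN e2 e3⟩

/-- the same from the list of cells -/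
theorem startE (hSz : SzZ D) (hk : okW 0 L m = true) (hs : ASL.subs L m 0 Lc mc = true)
    (H : AllC (CellZ (BkZ D) D.cofZ μ T) 0 Lc mc) (hN : BdR (BkZ D) N) (hw : w ≤ iW 0 L m)
    (hn : numOk μ T w N c₀ X = true) : ∃ Xs : ℝ, Xs < X ∧ StartE 2 Xs c₀ :=
  startE_c hSz hk (EJN.certRZ hk hs H) hN hw hn

/-- **THE END, one row, closing in the form `ClosesE`**, from the certificate of the row -/
theorem two_pi_c (hSz : SzZ D) (hk : okW 0 L m = true) (C : CertRZ (BkZ D) (WL L m) D.cofZ μ T)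
    (hN : BdR (BkZ D) N) (hw : w ≤ iW 0 L m) (hn : numOk μ T w N c₀ X = true)
    (hCl : ClosesE (fun x => x) 2 c₀ X)
    (M : Type) [MetricSpace M] [CompactSpace M] [ChartedSpace (EuclideanHalfSpace 2) M]
    [Pool.Agent.H74.Surf.RiemannianSpace (𝓡∂ 2) M]
    (horient : Pool.Agent.H74.Surf.Orientable (𝓡∂ 2) M) (σ : Pool.Agent.H74.Surf.S1 → M)
    (hσ : Pool.Agent.H74.Surf.IsometricFilling (𝓡∂ 2) σ) :
    ENNReal.ofReal (2 * Real.pi) ≤ Pool.Agent.H74.Surf.area M := by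
  obtain ⟨Xs, h1, h2⟩ := startE_c hSz hk C hN hw hn
  exact two_pi_of_startE h2 hCl h1 M horient σ hσ

/-- the same from the list of cells -/
theorem two_pi (hSz : SzZ D) (hk : okW 0 L m = true) (hs : ASL.subs L m 0 Lc mc = true)
    (H : AllC (CellZ (BkZ D) D.cofZ μ T) 0 Lc mc) (hN : BdR (BkZ D) N) (hw : w ≤ iW 0 L m)
    (hn : numOk μ T w N c₀ X = true) (hCl : ClosesE (fun x => x) 2 c₀ X)
    (M : Type) [MetricSpace M] [CompactSpace M] [ChartedSpace (EuclideanHalfSpace 2) M]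
    [Pool.Agent.H74.Surf.RiemannianSpace (𝓡∂ 2) M]
    (horient : Pool.Agent.H74.Surf.Orientable (𝓡∂ 2) M) (σ : Pool.Agent.H74.Surf.S1 → M)
    (hσ : Pool.Agent.H74.Surf.IsometricFilling (𝓡∂ 2) σ) :
    ENNReal.ofReal (2 * Real.pi) ≤ Pool.Agent.H74.Surf.area M :=
  two_pi_c hSz hk (EJN.certRZ hk hs H) hN hw hn hCl M horient σ hσ

section v

variable {μ₂ T₂ r τ X₀ XK c₁ : ℚ}

/-- **the start map with charges with a value below `X₀`**, two rows: `(μ, T)` and `((1 + r) μ, T + τ μ)` -/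
theorem startR_c (hSz : SzZ D) (hk : okW 0 L m = true) (C : CertRZ (BkZ D) (WL L m) D.cofZ μ T)
    (C2 : CertRZ (BkZ D) (WL L m) D.cofZ μ₂ T₂) (hr : μ₂ = (1 + r) * μ) (hτ : T₂ = T + τ * μ)
    (hN : BdR (BkZ D) N) (hw : w ≤ iW 0 L m) (hn : numOk μ T w N c₀ X₀ = true) :
    StartR r τ 2 X₀ c₀ := by
  obtain ⟨h1, h2, h3⟩ := numOk_spec hn
  obtain ⟨e1, e2, e3⟩ := exp_lt h3
  have hμ := numOk_mu hn
  have C3 : FST.CertRZ (BkZ D) (WL L m) D.cofZ μ₂ (T + ((τ * μ : ℚ) : ℝ)) := by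
    rw [hτ] at C2
    push_cast at C2 ⊢
    exact C2
  have key := FSW.startR hSz hk hμ (by exact_mod_cast h1) C C3 e1 hN e2 e3
  have k1 : ((μ₂ : ℚ) : ℝ) / μ - 1 = r := by
    rw [hr]
    push_cast
    field_simp
    ring
  have k2 : ((τ * μ : ℚ) : ℝ) / μ = τ := by
    push_cast
    field_simp
  rw [k1, k2] at key
  exact key.mono (xs_lt h2 (WL_ge hk hw)).le

/-- **THE END, two rows, a stage in between, closing in the form `ClosesE`** -/
theorem two_pi_v (hSz : SzZ D) (hk : okW 0 L m = true) (C : CertRZ (BkZ D) (WL L m) D.cofZ μ T)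
    (C2 : CertRZ (BkZ D) (WL L m) D.cofZ μ₂ T₂) (hr : μ₂ = (1 + r) * μ) (hτ : T₂ = T + τ * μ)
    (hN : BdR (BkZ D) N) (hw : w ≤ iW 0 L m) (hn : numOk μ T w N c₀ X₀ = true)
    (hV : StartR r τ 2 X₀ c₀ → StartE 2 XK c₁) (hCl : ClosesE (fun x => x) 2 c₁ X) (hX : XK < X)
    (M : Type) [MetricSpace M] [CompactSpace M] [ChartedSpace (EuclideanHalfSpace 2) M]
    [Pool.Agent.H74.Surf.RiemannianSpace (𝓡∂ 2) M]
    (horient : Pool.Agent.H74.Surf.Orientable (𝓡∂ 2) M) (σ : Pool.Agent.H74.Surf.S1 → M)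
    (hσ : Pool.Agent.H74.Surf.IsometricFilling (𝓡∂ 2) σ) :
    ENNReal.ofReal (2 * Real.pi) ≤ Pool.Agent.H74.Surf.area M :=
  two_pi_of_startE (hV (startR_c hSz hk C C2 hr hτ hN hw hn)) hCl (by exact_mod_cast hX) M horient σ hσ

end v

end Pool.Agent.FPX.EEND
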