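import Mathlib
import Pool.Agent.FPX.EEND

/-
EENDB (helper38): the end of the production class with the closing by the table of the penalty (`Closes`), two rows.
-/

open MeasureTheory Set Filter Topology Complex
open scoped ENNReal NNReal ContDiff ComplexConjugate Manifold

noncomputable section

namespace Pool.Agent.FPX.EEND

open Pool.Agent.FPX Pool.Agent.FPX.VTB Pool.Agent.FPX.ASX Pool.Agent.FPX.XCO
open Pool.Agent.FPX.CEL (DatZ)
open Pool.Agent.FPX.WPP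
open Pool.Agent.FPX.ASL (WL WL_ge)
open Pool.Agent.FPX.FST
open Pool.Agent.FPX.FSW (SzZ BkZ)

/-- the numbers of the end with the penalty `lφ`, rows `(μ, T)` and `(μ₂, T₂)` -/
def numB (μ T w N c₀ X μ₂ T₂ x₁ xm : ℚ) (lφ : List (ℚ × ℚ)) : Bool :=
  qOk 1 lφ && (decide (0 ≤ T) && (xsOk μ T w X && (psOk μ μ₂ (T₂ - T) c₀ x₁ xm lφ && expOk N c₀)))

variable {D : DatZ} {L : List (ℚ × List ℚ)} {m : List ℚ} {lφ : List (ℚ × ℚ)}
  {μ T w N c₀ X μ₂ T₂ x₁ xm : ℚ}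

/-- **THE END, two rows, closing by the table of the penalty** -/
theorem two_pi_b (hSz : SzZ D) (hk : okW 0 L m = true) (C : CertRZ (BkZ D) (WL L m) D.cofZ μ T)
    (C2 : CertRZ (BkZ D) (WL L m) D.cofZ μ₂ T₂) (hN : BdR (BkZ D) N) (hw : w ≤ iW 0 L m)
    (hn : numB μ T w N c₀ X μ₂ T₂ x₁ xm lφ = true) (hCl : Closes (pkG 0 1 (clQ lφ)) c₀ X)
    (M : Type) [MetricSpace M] [CompactSpace M] [ChartedSpace (EuclideanHalfSpace 2) M]
    [Pool.Agent.H74.Surf.RiemannianSpace (𝓡∂ 2) M]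
    (horient : Pool.Agent.H74.Surf.Orientable (𝓡∂ 2) M) (σ : Pool.Agent.H74.Surf.S1 → M)
    (hσ : Pool.Agent.H74.Surf.IsometricFilling (𝓡∂ 2) σ) :
    ENNReal.ofReal (2 * Real.pi) ≤ Pool.Agent.H74.Surf.area M := by
  simp only [numB, Bool.and_eq_true, decide_eq_true_eq] at hn
  obtain ⟨h1, h2, h3, h4, h5⟩ := hn
  have C3 : FST.CertRZ (BkZ D) (WL L m) D.cofZ μ₂ ((T : ℝ) + ((T₂ - T : ℚ) : ℝ)) := by
    have e : (T : ℝ) + ((T₂ - T : ℚ) : ℝ) = (T₂ : ℝ) := by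
      push_cast
      ring
    rw [e]
    exact C2
  exact FSW.two_pi_2 hSz hk h1 h2 C C3 hN hw hCl h3 h4 h5 M horient σ hσ

end Pool.Agent.FPX.EEND
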