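import Mathlib
import Pool.Agent.FPX.EEND

/-
EENDL (helper38): the end of the production class, two rows, a stage which ends with a start map for a penalty `φ`
(V stage with the law LB), closing in the form `ClosesE` (or `Closes`) for the same penalty.
-/

open MeasureTheory Set Filter Topology Complex
open scoped ENNReal NNReal ContDiff ComplexConjugate Manifold

noncomputable section

namespace Pool.Agent.FPX.EEND

open Pool.Agent.FPX Pool.Agent.FPX.VTB Pool.Agent.FPX.ASX Pool.Agent.FPX.XCO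
open Pool.Agent.FPX.CEL (DatZ)
open Pool.Agent.FPX.WPP
open Pool.Agent.FPX.ASL (WL WL_ge)
open Pool.Agent.FPX.FST
open Pool.Agent.FPX.FSW (SzZ BkZ)

variable {D : DatZ} {L : List (ℚ × List ℚ)} {m : List ℚ} {φ : ℝ → ℝ}
  {μ T w N c₀ X μ₂ T₂ r τ X₀ XK c₁ : ℚ}

/-- **THE END, two rows, a stage `StartR → StartPh` in between, closing for the penalty of the stage** -/
theorem two_pi_l (hSz : SzZ D) (hk : okW 0 L m = true) (C : CertRZ (BkZ D) (WL L m) D.cofZ μ T)
    (C2 : CertRZ (BkZ D) (WL L m) D.cofZ μ₂ T₂) (hr : μ₂ = (1 + r) * μ) (hτ : T₂ = T + τ * μ)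
    (hN : BdR (BkZ D) N) (hw : w ≤ iW 0 L m) (hn : numOk μ T w N c₀ X₀ = true)
    (hV : StartR r τ 2 X₀ c₀ → StartPh φ 2 XK c₁) (hCl : Closes φ c₁ X) (hX : XK < X)
    (M : Type) [MetricSpace M] [CompactSpace M] [ChartedSpace (EuclideanHalfSpace 2) M]
    [Pool.Agent.H74.Surf.RiemannianSpace (𝓡∂ 2) M]
    (horient : Pool.Agent.H74.Surf.Orientable (𝓡∂ 2) M) (σ : Pool.Agent.H74.Surf.S1 → M)
    (hσ : Pool.Agent.H74.Surf.IsometricFilling (𝓡∂ 2) σ) :
    ENNReal.ofReal (2 * Real.pi) ≤ Pool.Agent.H74.Surf.area M :=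
  two_pi_of_start (φ := φ) (hV (startR_c hSz hk C C2 hr hτ hN hw hn)) (fun Xs h1 h2 => hCl Xs h1 h2)
    (by exact_mod_cast hX) M horient σ hσ

end Pool.Agent.FPX.EEND
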