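import Mathlib
import Pool.Agent.FPX.OMX
import Pool.Agent.FPX.OMP

/-
XEN (helper16): the kernel of a first order functional of a state, the bound of the two parts of a pair of
variations by the `L²` norm of the kernel, and the exact `L²` norm for combinations of `v`, `L₃`, `K₂`, `K₀`.
-/

open MeasureTheory Set Filter Topology Complex
open scoped ENNReal NNReal ComplexConjugate

noncomputable section

namespace Pool.Agent.FPX.XEN

open Pool.Agent.FPX Pool.Agent.FPX.UMP Pool.Agent.FPX.UMQ Pool.Agent.FPX.UXA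
open Pool.Agent.FPX.F54 (X1 X2 dX1 dX2 X_lt X_G1 X_G2 vF sF sF_lt)
open Pool.Agent.FPX.S54 (YY de mS ME)
open Pool.Agent.FPX.OMB (vm vm_int vm_prob bm_ep bm_real)
open Pool.Agent.FPX.CRD (Bm)
open Pool.Agent.FPX.OMS (rF cF cF_eq Aa Ba Kc ME_vm Kc_meas Kc_le AB_eq)
open Pool.Agent.FPX.SYS (CE K2 K0)
open Pool.Agent.FPX.OM7 (L3 L3_vm K2_vm K0_vm int_E bm_de bm_pow bm_nsq par1 two_pm)

section mean

variable {X : Type*} [MeasurableSpace X] {μ : Measure X} [IsProbabilityMeasure μ]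

/-- a mean with a factor of modulus at most one -/
theorem mean_le {G K : X → ℂ} (bG : Bm G) (bK : Bm K) (hK : ∀ x, ‖K x‖ ≤ 1) {Γ : ℝ} (h0 : 0 ≤ Γ)
    (h : ∫ x, ‖G x‖ ^ 2 ∂μ ≤ Γ ^ 2) : ‖∫ x, G x * K x ∂μ‖ ≤ Γ := by
  refine le_of_forall_pos_le_add fun ε hε => ?_
  have hl : 0 < Γ + ε := by linarith
  refine (norm_integral_le_integral_norm _).trans ?_
  have i1 : Integrable (fun x => (Γ + ε) / 2 + 1 / (2 * (Γ + ε)) * ‖G x‖ ^ 2) μ :=
    (integrable_const _).add ((bm_nsq bG).const_mul _)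
  refine (integral_mono (bG.mul bK).int.norm i1 fun x => ?_).trans ?_
  · show ‖G x * K x‖ ≤ (Γ + ε) / 2 + 1 / (2 * (Γ + ε)) * ‖G x‖ ^ 2
    rw [norm_mul]
    have e1 : ‖G x‖ * ‖K x‖ ≤ ‖G x‖ := by
      have := mul_le_mul_of_nonneg_left (hK x) (norm_nonneg (G x))
      linarith
    have e2 : (Γ + ε) / 2 + 1 / (2 * (Γ + ε)) * ‖G x‖ ^ 2 - ‖G x‖ = (Γ + ε - ‖G x‖) ^ 2 / (2 * (Γ + ε)) := by
      field_simp
      ring
    have e3 : 0 ≤ (Γ + ε - ‖G x‖) ^ 2 / (2 * (Γ + ε)) := by positivity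
    linarith
  · rw [integral_add (integrable_const _) ((bm_nsq bG).const_mul _), integral_const, integral_const_mul]
    simp only [probReal_univ, one_smul]
    have h1 : 1 / (2 * (Γ + ε)) * ∫ x, ‖G x‖ ^ 2 ∂μ ≤ 1 / (2 * (Γ + ε)) * (Γ + ε) ^ 2 := by
      refine mul_le_mul_of_nonneg_left (h.trans ?_) (by positivity)
      exact pow_le_pow_left₀ h0 (by linarith) 2
    have h2 : 1 / (2 * (Γ + ε)) * (Γ + ε) ^ 2 = (Γ + ε) / 2 := by
      field_simp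
    linarith

end mean

/-- `G` is the kernel of the functional `ℓ` at the state `f` -/
structure Kn (f : ℝ → ℝ) (ℓ : (ℝ → ℝ) → ℂ) (G : ℝ → ℂ) : Prop where
  bm : Bm G
  eq : ∀ h : ℝ → ℝ, Measurable h → (∀ t, |h t| ≤ 1) → ℓ h = 2 * ∫ t, G t * (h t : ℂ) ∂(vm (X1 f) (X2 f))

namespace Kn

variable {f : ℝ → ℝ} {ℓ ℓ' : (ℝ → ℝ) → ℂ} {G G' : ℝ → ℂ}

theorem add (hf : Ef f) (H : Kn f ℓ G) (H' : Kn f ℓ' G') :
    Kn f (fun h => ℓ h + ℓ' h) (fun t => G t + G' t) where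
  bm := H.bm.add H'.bm
  eq := fun h hm hb => by
    have := vm_prob (X_lt hf)
    have bh := bm_real hm hb
    rw [H.eq h hm hb, H'.eq h hm hb, ← mul_add, ← integral_add (H.bm.mul bh).int (H'.bm.mul bh).int]
    congr 2
    funext t
    ring

theorem smul (H : Kn f ℓ G) (z : ℂ) : Kn f (fun h => z * ℓ h) (fun t => z * G t) where
  bm := (Bm.const z).mul H.bm
  eq := fun h hm hb => by
    rw [H.eq h hm hb]
    have e : (fun t => z * G t * (h t : ℂ)) = fun t => z * (G t * (h t : ℂ)) := by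
      funext t
      ring
    rw [e, integral_const_mul]
    ring

theorem cj (H : Kn f ℓ G) : Kn f (fun h => conj (ℓ h)) (fun t => conj (G t)) where
  bm := H.bm.conj
  eq := fun h hm hb => by
    rw [H.eq h hm hb, map_mul, map_ofNat]
    congr 1
    rw [← integral_conj]
    congr 1
    funext t
    rw [map_mul, Complex.conj_ofReal]

theorem congr (H : Kn f ℓ G) (h1 : ∀ h, ℓ h = ℓ' h) (h2 : ∀ t, G t = G' t) : Kn f ℓ' G' := by
  have e1 : ℓ = ℓ' := funext h1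
  have e2 : G = G' := funext h2
  rw [← e1, ← e2]
  exact H

/-- the two parts of a pair of variations -/
theorem pair (hf : Ef f) (H : Kn f ℓ G) {h k : ℝ → ℝ} (V : Var h k) :
    (ℓ h - I * ℓ k) / 2 = ∫ t, G t * conj (Kc h k t) ∂(vm (X1 f) (X2 f)) ∧
      (ℓ h + I * ℓ k) / 2 = ∫ t, G t * Kc h k t ∂(vm (X1 f) (X2 f)) := by
  have := vm_prob (X_lt hf)
  obtain ⟨e1, e2⟩ := two_pm (μ := vm (X1 f) (X2 f)) H.bm (bm_real V.mesh V.bh) (bm_real V.mesk V.bk)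
    (fun t => Complex.ofReal_im _) (fun t => Complex.ofReal_im _)
  rw [← H.eq h V.mesh V.bh, ← H.eq k V.mesk V.bk] at e1 e2
  exact ⟨e1, e2⟩

/-- **the bound by the `L²` norm of the kernel** -/
theorem le (hf : Ef f) (H : Kn f ℓ G) {h k : ℝ → ℝ} (V : Var h k) {Γ : ℝ} (h0 : 0 ≤ Γ)
    (hG : ∫ t, ‖G t‖ ^ 2 ∂(vm (X1 f) (X2 f)) ≤ Γ ^ 2) :
    ‖(ℓ h - I * ℓ k) / 2‖ ≤ Γ ∧ ‖(ℓ h + I * ℓ k) / 2‖ ≤ Γ := by
  have := vm_prob (X_lt hf)
  obtain ⟨e1, e2⟩ := H.pair hf V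
  have bK : Bm (Kc h k) := ⟨Kc_meas V, 1, Kc_le V⟩
  rw [e1, e2]
  exact ⟨mean_le H.bm bK.conj (fun t => by rw [RCLike.norm_conj]; exact Kc_le V t) h0 hG,
    mean_le H.bm bK (Kc_le V) h0 hG⟩

end Kn

variable {f : ℝ → ℝ}

/-- the harmonic `ε` at the state `f` -/
def ee (f : ℝ → ℝ) (t : ℝ) : ℂ := C54.ep (X1 f) (X2 f) t

/-- the deviation `δ` at the state `f` -/
def dd (f : ℝ → ℝ) (t : ℝ) : ℂ := (de (X1 f) (X2 f) f t : ℂ)

theorem bm_ee (hf : Ef f) : Bm (ee f) := bm_ep (X_lt hf)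

theorem bm_dd (hf : Ef f) : Bm (dd f) := bm_de hf

theorem ee_norm (hf : Ef f) (t : ℝ) : ‖ee f t‖ = 1 := C54.norm_ep (X_lt hf) t

theorem ee_conj (hf : Ef f) (t : ℝ) : ee f t * conj (ee f t) = 1 := by
  rw [Complex.mul_conj, Complex.normSq_eq_norm_sq, ee_norm hf]
  simp

/-- the kernel of `v` -/
def Gv (f : ℝ → ℝ) (t : ℝ) : ℂ := ((1 / (1 - ‖sF f‖ ^ 2) : ℝ) : ℂ) * (ee f t + sF f * conj (ee f t))

theorem one_sub_pos (hf : Ef f) : 0 < 1 - ‖sF f‖ ^ 2 := by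
  have h1 := sF_lt hf
  have h2 := norm_nonneg (sF f)
  nlinarith

theorem kn_v (hf : Ef f) : Kn f (vF f) (Gv f) := by
  have hp := one_sub_pos hf
  have hc : (1 : ℂ) - sF f * conj (sF f) ≠ 0 := by
    rw [Complex.mul_conj, Complex.normSq_eq_norm_sq]
    have e : (1 : ℂ) - ((‖sF f‖ ^ 2 : ℝ) : ℂ) = ((1 - ‖sF f‖ ^ 2 : ℝ) : ℂ) := by push_cast; ring
    rw [e]
    exact Complex.ofReal_ne_zero.2 hp.ne'
  have hd : ((1 / (1 - ‖sF f‖ ^ 2) : ℝ) : ℂ) = 1 / (1 - sF f * conj (sF f)) := by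
    rw [Complex.mul_conj, Complex.normSq_eq_norm_sq]
    push_cast
    ring
  -- the kernel of `ε`
  have k1 : Kn f (fun h => vF f h - sF f * conj (vF f h)) (ee f) := by
    refine ⟨bm_ee hf, fun h hm hb => ?_⟩
    have hi : IntervalIntegrable h volume 0 (2 * Real.pi) := by
      rw [intervalIntegrable_iff, uIoc_of_le Real.two_pi_pos.le]
      exact Measure.integrableOn_of_bounded (M := 1) measure_Ioc_lt_top.ne hm.aestronglyMeasurable
        (Eventually.of_forall fun t => hb t)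
    rw [F54.vF_eq hf hi, S54.Lm_eq (X_lt hf) 1 h, ME_vm (X_lt hf) 1 h]
    congr 1
    refine integral_congr_ae (Eventually.of_forall fun t => ?_)
    simp only [pow_one]
    exact mul_comm _ _
  have k2 := (Kn.add hf k1 (k1.cj.smul (sF f))).smul ((1 / (1 - ‖sF f‖ ^ 2) : ℝ) : ℂ)
  refine k2.congr (fun h => ?_) fun t => rfl
  rw [hd]
  simp only [map_sub, map_mul, Complex.conj_conj]
  field_simp
  ring

theorem kn_L3 (hf : Ef f) : Kn f (L3 f) (fun t => ee f t ^ 3) :=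
  ⟨bm_pow (bm_ee hf) 3, fun _ _ _ => L3_vm hf⟩

theorem kn_K2 (hf : Ef f) : Kn f (K2 f) (fun t => dd f t * ee f t ^ 2) :=
  ⟨(bm_dd hf).mul (bm_pow (bm_ee hf) 2), fun h _ _ => K2_vm hf h⟩

theorem kn_K0 (hf : Ef f) : Kn f (fun h => ((K0 f h : ℝ) : ℂ)) (dd f) :=
  ⟨bm_dd hf, fun h _ _ => K0_vm hf h⟩

/-- coefficients of a first order functional -/
structure Co where
  a : ℂ
  b : ℂ
  g : ℂ
  g' : ℂ
  φ : ℂ
  φ' : ℂ
  ω : ℂ

/-- the functional `a v + b conj v + g L₃ + g' conj L₃ + φ K₂ + φ' conj K₂ + ω K₀` -/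
def Co.fn (C : Co) (f h : ℝ → ℝ) : ℂ :=
  C.a * vF f h + C.b * conj (vF f h) + (C.g * L3 f h + C.g' * conj (L3 f h))
    + (C.φ * K2 f h + C.φ' * conj (K2 f h) + C.ω * ((K0 f h : ℝ) : ℂ))

/-- its kernel -/
def Co.ker (C : Co) (f : ℝ → ℝ) (t : ℝ) : ℂ :=
  C.a * Gv f t + C.b * conj (Gv f t) + (C.g * ee f t ^ 3 + C.g' * conj (ee f t ^ 3))
    + (C.φ * (dd f t * ee f t ^ 2) + C.φ' * conj (dd f t * ee f t ^ 2) + C.ω * dd f t)

theorem Co.kn (C : Co) (hf : Ef f) : Kn f (C.fn f) (C.ker f) :=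
  Kn.add hf (Kn.add hf (Kn.add hf ((kn_v hf).smul C.a) ((kn_v hf).cj.smul C.b))
    (Kn.add hf ((kn_L3 hf).smul C.g) ((kn_L3 hf).cj.smul C.g')))
    (Kn.add hf (Kn.add hf ((kn_K2 hf).smul C.φ) ((kn_K2 hf).cj.smul C.φ')) ((kn_K0 hf).smul C.ω))

/-- coefficient of `ε` -/
def Co.P (C : Co) (f : ℝ → ℝ) : ℂ := (C.a + C.b * conj (sF f)) * ((1 / (1 - ‖sF f‖ ^ 2) : ℝ) : ℂ)

/-- coefficient of `conj ε` -/
def Co.Q (C : Co) (f : ℝ → ℝ) : ℂ := (C.a * sF f + C.b) * ((1 / (1 - ‖sF f‖ ^ 2) : ℝ) : ℂ)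

/-- the part with `δ` -/
def Co.psi (C : Co) (f : ℝ → ℝ) (t : ℝ) : ℂ :=
  C.φ * (dd f t * ee f t ^ 2) + C.φ' * conj (dd f t * ee f t ^ 2) + C.ω * dd f t

theorem Co.ker_eq (C : Co) (f : ℝ → ℝ) (t : ℝ) : C.ker f t =
    C.P f * ee f t + (C.Q f * conj (ee f t) + (C.g * ee f t ^ 3 + (C.g' * conj (ee f t ^ 3) + C.psi f t))) := by
  unfold Co.ker Co.P Co.Q Co.psi Gv
  simp only [map_mul, map_add, Complex.conj_conj, Complex.conj_ofReal]
  ring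

/-- the bound of the `L²` norm of the kernel -/
def Co.N2 (C : Co) (f : ℝ → ℝ) (T : ℝ) : ℝ :=
  ‖C.P f‖ ^ 2 + ‖C.Q f‖ ^ 2 + ‖C.g‖ ^ 2 + ‖C.g'‖ ^ 2
    + (conj (C.P f) * C.φ' * conj (CE 3 f) + conj (C.Q f) * C.φ * CE 3 f
      + conj C.g * (C.φ' * conj (CE 5 f) + C.ω * conj (CE 3 f))
      + conj C.g' * (C.φ * CE 5 f + C.ω * CE 3 f)).re + T

theorem int_dE (hf : Ef f) (n : ℕ) : ∫ t, dd f t * ee f t ^ n ∂(vm (X1 f) (X2 f)) = CE n f / 2 := by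
  rw [SYS.CE_ME hf, ME_vm (X_lt hf) n]
  unfold dd ee
  ring

theorem dd_conj (f : ℝ → ℝ) (t : ℝ) : conj (dd f t) = dd f t := Complex.conj_ofReal _

theorem int_dEc (hf : Ef f) (n : ℕ) :
    ∫ t, dd f t * conj (ee f t ^ n) ∂(vm (X1 f) (X2 f)) = conj (CE n f) / 2 := by
  have h := congrArg conj (int_dE hf n)
  rw [← integral_conj, map_div₀, map_ofNat] at h
  rw [← h]
  congr 1
  funext t
  rw [map_mul, dd_conj]

theorem alg1 {z w : ℂ} (h : z * w = 1) (P Q g g' p q u v : ℂ) :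
    (P * z + (Q * w + (g * z ^ 3 + g' * w ^ 3))) * (p * w + (q * z + (u * w ^ 3 + v * z ^ 3))) =
      (P * p + Q * q + g * u + g' * v) + ((P * q + Q * v + g * p) * z ^ 2 + (P * u + Q * p + g' * q) * w ^ 2
        + (P * v + g * q) * z ^ 4 + (Q * u + g' * p) * w ^ 4 + (g * v) * z ^ 6 + (g' * u) * w ^ 6) := by
  have hz : z ≠ 0 := left_ne_zero_of_mul_eq_one h
  obtain rfl : w = z⁻¹ := eq_inv_of_mul_eq_one_right h
  field_simp
  ring

theorem alg2 {z w : ℂ} (h : z * w = 1) (φ φ' ω p q u v : ℂ) :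
    (φ * z ^ 2 + φ' * w ^ 2 + ω) * (p * w + (q * z + (u * w ^ 3 + v * z ^ 3))) =
      (φ * p + φ' * v + ω * q) * z + (φ * u + φ' * q + ω * p) * w + (φ * q + ω * v) * z ^ 3
        + (φ' * p + ω * u) * w ^ 3 + (φ * v) * z ^ 5 + (φ' * u) * w ^ 5 := by
  have hz : z ≠ 0 := left_ne_zero_of_mul_eq_one h
  obtain rfl : w = z⁻¹ := eq_inv_of_mul_eq_one_right h
  field_simp
  ring

theorem lin6 {X : Type*} [MeasurableSpace X] {μ : Measure X} [IsFiniteMeasure μ] {F₁ F₂ F₃ F₄ F₅ F₆ : X → ℂ}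
    (h₁ : Bm F₁) (h₂ : Bm F₂) (h₃ : Bm F₃) (h₄ : Bm F₄) (h₅ : Bm F₅) (h₆ : Bm F₆) (c₁ c₂ c₃ c₄ c₅ c₆ : ℂ) :
    ∫ x, (c₁ * F₁ x + c₂ * F₂ x + c₃ * F₃ x + c₄ * F₄ x + c₅ * F₅ x + c₆ * F₆ x) ∂μ =
      c₁ * (∫ x, F₁ x ∂μ) + c₂ * (∫ x, F₂ x ∂μ) + c₃ * (∫ x, F₃ x ∂μ) + c₄ * (∫ x, F₄ x ∂μ)
        + c₅ * (∫ x, F₅ x ∂μ) + c₆ * (∫ x, F₆ x ∂μ) := by
  have b : ∀ {F : X → ℂ} (c : ℂ), Bm F → Bm fun x => c * F x := fun c h => (Bm.const c).mul h
  have e1 := (b c₁ h₁).add (b c₂ h₂)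
  have e2 := e1.add (b c₃ h₃)
  have e3 := e2.add (b c₄ h₄)
  have e4 := e3.add (b c₅ h₅)
  rw [integral_add e4.int (b c₆ h₆).int, integral_add e3.int (b c₅ h₅).int,
    integral_add e2.int (b c₄ h₄).int, integral_add e1.int (b c₃ h₃).int,
    integral_add (b c₁ h₁).int (b c₂ h₂).int]
  simp only [integral_const_mul]

/-- the trigonometric part -/
def Co.R (C : Co) (f : ℝ → ℝ) (t : ℝ) : ℂ :=
  C.P f * ee f t + (C.Q f * conj (ee f t) + (C.g * ee f t ^ 3 + C.g' * conj (ee f t) ^ 3))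

theorem Co.ker_R (C : Co) (f : ℝ → ℝ) (t : ℝ) : C.ker f t = C.R f t + C.psi f t := by
  rw [Co.ker_eq]
  unfold Co.R
  rw [map_pow]
  ring

theorem bm_R (C : Co) (hf : Ef f) : Bm (C.R f) :=
  ((Bm.const _).mul (bm_ee hf)).add (((Bm.const _).mul (bm_ee hf).conj).add
    (((Bm.const _).mul (bm_pow (bm_ee hf) 3)).add ((Bm.const _).mul (bm_pow (bm_ee hf).conj 3))))

theorem bm_psi (C : Co) (hf : Ef f) : Bm (C.psi f) := by
  have b := (bm_dd hf).mul (bm_pow (bm_ee hf) 2)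
  exact (((Bm.const _).mul b).add ((Bm.const _).mul b.conj)).add ((Bm.const _).mul (bm_dd hf))

theorem int_e (hf : Ef f) {n : ℕ} (hn : n ≠ 0) : ∫ t, ee f t ^ n ∂(vm (X1 f) (X2 f)) = 0 := int_E hf hn

theorem int_ec (hf : Ef f) {n : ℕ} (hn : n ≠ 0) : ∫ t, conj (ee f t) ^ n ∂(vm (X1 f) (X2 f)) = 0 := by
  have h := congrArg conj (int_e hf hn)
  rw [← integral_conj, map_zero] at h
  rw [← h]
  congr 1
  funext t
  rw [map_pow]

theorem R_norm (C : Co) (hf : Ef f) : ∫ t, ‖C.R f t‖ ^ 2 ∂(vm (X1 f) (X2 f)) =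
    ‖C.P f‖ ^ 2 + ‖C.Q f‖ ^ 2 + ‖C.g‖ ^ 2 + ‖C.g'‖ ^ 2 := by
  have := vm_prob (X_lt hf)
  have bE := bm_ee hf
  have n2 : ∀ z : ℂ, ((‖z‖ ^ 2 : ℝ) : ℂ) = z * conj z := fun z => by
    rw [Complex.mul_conj, Complex.normSq_eq_norm_sq]
  apply Complex.ofReal_injective
  rw [← integral_complex_ofReal]
  have e : ∀ t, ((‖C.R f t‖ ^ 2 : ℝ) : ℂ) =
      (C.P f * conj (C.P f) + C.Q f * conj (C.Q f) + C.g * conj C.g + C.g' * conj C.g')
      + ((C.P f * conj (C.Q f) + C.Q f * conj C.g' + C.g * conj (C.P f)) * ee f t ^ 2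
        + (C.P f * conj C.g + C.Q f * conj (C.P f) + C.g' * conj (C.Q f)) * conj (ee f t) ^ 2
        + (C.P f * conj C.g' + C.g * conj (C.Q f)) * ee f t ^ 4
        + (C.Q f * conj C.g + C.g' * conj (C.P f)) * conj (ee f t) ^ 4
        + (C.g * conj C.g') * ee f t ^ 6 + (C.g' * conj C.g) * conj (ee f t) ^ 6) := fun t => by
    rw [n2, ← alg1 (ee_conj hf t)]
    unfold Co.R
    simp only [map_add, map_mul, map_pow, Complex.conj_conj]
  rw [integral_congr_ae (Eventually.of_forall e)]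
  have b : ∀ n, Bm fun t => ee f t ^ n := fun n => bm_pow bE n
  have b' : ∀ n, Bm fun t => conj (ee f t) ^ n := fun n => bm_pow bE.conj n
  have bb : ∀ {F : ℝ → ℂ} (c : ℂ), Bm F → Bm fun x => c * F x := fun c h => (Bm.const c).mul h
  rw [integral_add (integrable_const _)
    ((((((bb _ (b 2)).add (bb _ (b' 2))).add (bb _ (b 4))).add (bb _ (b' 4))).add (bb _ (b 6))).add
      (bb _ (b' 6))).int, lin6 (b 2) (b' 2) (b 4) (b' 4) (b 6) (b' 6), int_e hf (by norm_num),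
    int_ec hf (by norm_num), int_e hf (by norm_num), int_ec hf (by norm_num), int_e hf (by norm_num),
    int_ec hf (by norm_num), integral_const]
  push_cast [n2]
  simp

theorem psiR (C : Co) (hf : Ef f) : ∫ t, C.psi f t * conj (C.R f t) ∂(vm (X1 f) (X2 f)) =
    (C.φ * conj (C.Q f) + C.ω * conj C.g') * (CE 3 f / 2)
      + (C.φ' * conj (C.P f) + C.ω * conj C.g) * (conj (CE 3 f) / 2)
      + (C.φ * conj C.g') * (CE 5 f / 2) + (C.φ' * conj C.g) * (conj (CE 5 f) / 2) := by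
  have := vm_prob (X_lt hf)
  have bE := bm_ee hf
  have bD := bm_dd hf
  have e : ∀ t, C.psi f t * conj (C.R f t) =
      (C.φ * conj (C.P f) + C.φ' * conj C.g' + C.ω * conj (C.Q f)) * (dd f t * ee f t ^ 1)
        + (C.φ * conj C.g + C.φ' * conj (C.Q f) + C.ω * conj (C.P f)) * (dd f t * conj (ee f t ^ 1))
        + (C.φ * conj (C.Q f) + C.ω * conj C.g') * (dd f t * ee f t ^ 3)
        + (C.φ' * conj (C.P f) + C.ω * conj C.g) * (dd f t * conj (ee f t ^ 3))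
        + (C.φ * conj C.g') * (dd f t * ee f t ^ 5) + (C.φ' * conj C.g) * (dd f t * conj (ee f t ^ 5)) := by
    intro t
    have h := alg2 (ee_conj hf t) C.φ C.φ' C.ω (conj (C.P f)) (conj (C.Q f)) (conj C.g) (conj C.g')
    unfold Co.psi Co.R
    simp only [map_add, map_mul, map_pow, Complex.conj_conj, dd_conj]
    simp only [pow_one]
    linear_combination (dd f t) * h
  rw [integral_congr_ae (Eventually.of_forall e)]
  have b : ∀ n, Bm fun t => dd f t * ee f t ^ n := fun n => bD.mul (bm_pow bE n)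
  have b' : ∀ n, Bm fun t => dd f t * conj (ee f t ^ n) := fun n => bD.mul (bm_pow bE n).conj
  rw [lin6 (b 1) (b' 1) (b 3) (b' 3) (b 5) (b' 5), int_dE hf, int_dEc hf, int_dE hf, int_dEc hf, int_dE hf,
    int_dEc hf, SYS.CE_one hf]
  simp

/-- **the `L²` norm of the kernel** -/
theorem Co.ker_norm (C : Co) (hf : Ef f) : ∫ t, ‖C.ker f t‖ ^ 2 ∂(vm (X1 f) (X2 f)) =
    C.N2 f (∫ t, ‖C.psi f t‖ ^ 2 ∂(vm (X1 f) (X2 f))) := by
  have := vm_prob (X_lt hf)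
  have bR := bm_R C hf
  have bP := bm_psi C hf
  have e : ∀ t, ‖C.ker f t‖ ^ 2 = ‖C.R f t‖ ^ 2 + 2 * (C.psi f t * conj (C.R f t)).re + ‖C.psi f t‖ ^ 2 := by
    intro t
    rw [C.ker_R]
    generalize C.R f t = r
    generalize C.psi f t = p
    rw [← Complex.normSq_eq_norm_sq, ← Complex.normSq_eq_norm_sq, ← Complex.normSq_eq_norm_sq]
    simp only [Complex.normSq_apply, Complex.mul_re, Complex.add_re, Complex.add_im, Complex.conj_re,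
      Complex.conj_im]
    ring
  have i1 := bm_nsq (μ := vm (X1 f) (X2 f)) bR
  have i2 := bm_nsq (μ := vm (X1 f) (X2 f)) bP
  have i3 : Integrable (fun t => 2 * (C.psi f t * conj (C.R f t)).re) (vm (X1 f) (X2 f)) :=
    (bP.mul bR.conj).int.re.const_mul 2
  have i13 : Integrable (fun t => ‖C.R f t‖ ^ 2 + 2 * (C.psi f t * conj (C.R f t)).re)
    (vm (X1 f) (X2 f)) := i1.add i3
  rw [integral_congr_ae (Eventually.of_forall e), integral_add i13 i2, integral_add i1 i3,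
    integral_const_mul, show (∫ t, (C.psi f t * conj (C.R f t)).re ∂(vm (X1 f) (X2 f))) =
      (∫ t, C.psi f t * conj (C.R f t) ∂(vm (X1 f) (X2 f))).re from integral_re (bP.mul bR.conj).int,
    R_norm C hf, psiR C hf]
  unfold Co.N2
  have e2 : ((C.φ * conj (C.Q f) + C.ω * conj C.g') * (CE 3 f / 2)
      + (C.φ' * conj (C.P f) + C.ω * conj C.g) * (conj (CE 3 f) / 2)
      + (C.φ * conj C.g') * (CE 5 f / 2) + (C.φ' * conj C.g) * (conj (CE 5 f) / 2)) =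
      ((1 / 2 : ℝ) : ℂ) * (conj (C.P f) * C.φ' * conj (CE 3 f) + conj (C.Q f) * C.φ * CE 3 f
      + conj C.g * (C.φ' * conj (CE 5 f) + C.ω * conj (CE 3 f))
      + conj C.g' * (C.φ * CE 5 f + C.ω * CE 3 f)) := by
    push_cast
    ring
  rw [e2, Complex.re_ofReal_mul]
  ring

/-- the part with `δ` -/
theorem Co.psi_norm (C : Co) (hf : Ef f) : ∫ t, ‖C.psi f t‖ ^ 2 ∂(vm (X1 f) (X2 f)) ≤
    (‖C.φ‖ + ‖C.φ'‖ + ‖C.ω‖) ^ 2 * S54.S0 f := by
  have := vm_prob (X_lt hf)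
  have bD := bm_dd hf
  have h1 : ∀ t, ‖C.psi f t‖ ^ 2 ≤ (‖C.φ‖ + ‖C.φ'‖ + ‖C.ω‖) ^ 2 * ‖dd f t‖ ^ 2 := by
    intro t
    have e1 : ‖C.psi f t‖ ≤ (‖C.φ‖ + ‖C.φ'‖ + ‖C.ω‖) * ‖dd f t‖ := by
      unfold Co.psi
      refine (norm_add₃_le).trans (le_of_eq ?_)
      simp only [norm_mul, norm_pow, RCLike.norm_conj, ee_norm hf]
      ring
    calc ‖C.psi f t‖ ^ 2 ≤ ((‖C.φ‖ + ‖C.φ'‖ + ‖C.ω‖) * ‖dd f t‖) ^ 2 :=
          pow_le_pow_left₀ (norm_nonneg _) e1 2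
      _ = _ := mul_pow _ _ _
  have h2 := integral_mono (bm_nsq (μ := vm (X1 f) (X2 f)) (bm_psi C hf))
    ((bm_nsq (μ := vm (X1 f) (X2 f)) bD).const_mul ((‖C.φ‖ + ‖C.φ'‖ + ‖C.ω‖) ^ 2)) h1
  rw [integral_const_mul] at h2
  refine h2.trans (le_of_eq ?_)
  congr 1
  have h3 := ME_vm (X_lt hf) 0 (fun t => de (X1 f) (X2 f) f t ^ 2)
  have h4 : S54.S0 f = (ME ((0 : ℕ) : ℤ) (X1 f) (X2 f) fun t => de (X1 f) (X2 f) f t ^ 2).re := rfl
  rw [h4, h3]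
  have h5 : (fun t => ((de (X1 f) (X2 f) f t ^ 2 : ℝ) : ℂ) * C54.ep (X1 f) (X2 f) t ^ 0) =
      fun t => ((‖dd f t‖ ^ 2 : ℝ) : ℂ) := by
    funext t
    unfold dd
    rw [pow_zero, mul_one, Complex.norm_real, Real.norm_eq_abs, sq_abs]
  rw [h5, integral_complex_ofReal, Complex.ofReal_re]

end Pool.Agent.FPX.XEN
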