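import Mathlib
import Pool.Agent.FPX.XEN
import Pool.Agent.FPX.XEC
import Pool.Agent.FPX.BTP9
import Pool.Agent.FPX.BTM

/-
XENB (helper16): the constant of the start map with eight terms, an analytic bound from bounds of the coefficients.
-/

open MeasureTheory Set Filter Topology Complex
open scoped ENNReal NNReal ComplexConjugate

noncomputable section

namespace Pool.Agent.FPX.XEN

open Pool.Agent.FPX Pool.Agent.FPX.UMP Pool.Agent.FPX.UMQ Pool.Agent.FPX.UXA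
open Pool.Agent.FPX.F54 (X1 X2 X_lt vF sF)
open Pool.Agent.FPX.S54 (YY de mS ME)
open Pool.Agent.FPX.OMB (vm vm_prob)
open Pool.Agent.FPX.CRD (Bm)
open Pool.Agent.FPX.OMS (rF cF)
open Pool.Agent.FPX.SYS (CE)
open Pool.Agent.FPX.OM7 (bm_pow)

/-! ### the level of `K` -/

/-- `z = ∫ G K` -/
structure Km (f : ℝ → ℝ) (K : ℝ → ℂ) (z : ℂ) (G : ℝ → ℂ) : Prop where
  bm : Bm G
  eq : z = ∫ t, G t * K t ∂(vm (X1 f) (X2 f))

namespace Km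

variable {f : ℝ → ℝ} {K : ℝ → ℂ} {z z' : ℂ} {G G' : ℝ → ℂ}

theorem add (hf : Ef f) (bK : Bm K) (H : Km f K z G) (H' : Km f K z' G') :
    Km f K (z + z') (fun t => G t + G' t) where
  bm := H.bm.add H'.bm
  eq := by
    have := vm_prob (X_lt hf)
    rw [H.eq, H'.eq, ← integral_add (H.bm.mul bK).int (H'.bm.mul bK).int]
    congr 1
    funext t
    ring

theorem smul (H : Km f K z G) (w : ℂ) : Km f K (w * z) (fun t => w * G t) where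
  bm := (Bm.const w).mul H.bm
  eq := by
    rw [H.eq, ← integral_const_mul]
    congr 1
    funext t
    ring

theorem congr (H : Km f K z G) (h1 : z = z') (h2 : ∀ t, G t = G' t) : Km f K z' G' := by
  have e2 : G = G' := funext h2
  rw [← h1, ← e2]
  exact H

theorem le (hf : Ef f) (H : Km f K z G) (hK : Measurable K) (hK1 : ∀ t, ‖K t‖ ≤ 1) {Γ : ℝ} (h0 : 0 ≤ Γ)
    (hG : ∫ t, ‖G t‖ ^ 2 ∂(vm (X1 f) (X2 f)) ≤ Γ ^ 2) : ‖z‖ ≤ Γ := by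
  have := vm_prob (X_lt hf)
  rw [H.eq]
  exact mean_le H.bm ⟨hK, 1, hK1⟩ hK1 h0 hG

end Km

variable {f : ℝ → ℝ} {K : ℝ → ℂ}

/-- the kernel of `B` -/
theorem km_B (hf : Ef f) (hK : Measurable K) (hK1 : ∀ t, ‖K t‖ ≤ 1) {A B : ℂ}
    (hA : A - sF f * conj B = ∫ t, ee f t * conj (K t) ∂(vm (X1 f) (X2 f)))
    (hB : B - sF f * conj A = ∫ t, ee f t * K t ∂(vm (X1 f) (X2 f))) : Km f K B (Gv f) := by
  have hp := one_sub_pos hf
  have bK : Bm K := ⟨hK, 1, hK1⟩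
  have hc : (1 : ℂ) - sF f * conj (sF f) ≠ 0 := by
    rw [Complex.mul_conj, Complex.normSq_eq_norm_sq]
    have e : (1 : ℂ) - ((‖sF f‖ ^ 2 : ℝ) : ℂ) = ((1 - ‖sF f‖ ^ 2 : ℝ) : ℂ) := by push_cast; ring
    rw [e]
    exact Complex.ofReal_ne_zero.2 hp.ne'
  have hd : ((1 / (1 - ‖sF f‖ ^ 2) : ℝ) : ℂ) = 1 / (1 - sF f * conj (sF f)) := by
    rw [Complex.mul_conj, Complex.normSq_eq_norm_sq]
    push_cast
    ring
  have k1 : Km f K (B - sF f * conj A) (ee f) := ⟨bm_ee hf, hB⟩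
  have k2 : Km f K (conj (A - sF f * conj B)) (fun t => conj (ee f t)) := by
    refine ⟨(bm_ee hf).conj, ?_⟩
    rw [hA, ← integral_conj]
    congr 1
    funext t
    rw [map_mul, Complex.conj_conj]
  refine ((Km.add hf bK k1 (k2.smul (sF f))).smul ((1 / (1 - ‖sF f‖ ^ 2) : ℝ) : ℂ)).congr ?_ fun t => rfl
  rw [hd]
  simp only [map_sub, map_mul, Complex.conj_conj]
  field_simp
  ring

/-- the kernel of `conj A` -/
theorem km_A (hf : Ef f) (hK : Measurable K) (hK1 : ∀ t, ‖K t‖ ≤ 1) {A B : ℂ}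
    (hA : A - sF f * conj B = ∫ t, ee f t * conj (K t) ∂(vm (X1 f) (X2 f)))
    (hB : B - sF f * conj A = ∫ t, ee f t * K t ∂(vm (X1 f) (X2 f))) :
    Km f K (conj A) (fun t => conj (Gv f t)) := by
  have hp := one_sub_pos hf
  have bK : Bm K := ⟨hK, 1, hK1⟩
  have hc : (1 : ℂ) - sF f * conj (sF f) ≠ 0 := by
    rw [Complex.mul_conj, Complex.normSq_eq_norm_sq]
    have e : (1 : ℂ) - ((‖sF f‖ ^ 2 : ℝ) : ℂ) = ((1 - ‖sF f‖ ^ 2 : ℝ) : ℂ) := by push_cast; ring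
    rw [e]
    exact Complex.ofReal_ne_zero.2 hp.ne'
  have hd : ((1 / (1 - ‖sF f‖ ^ 2) : ℝ) : ℂ) = 1 / (1 - sF f * conj (sF f)) := by
    rw [Complex.mul_conj, Complex.normSq_eq_norm_sq]
    push_cast
    ring
  have k1 : Km f K (B - sF f * conj A) (ee f) := ⟨bm_ee hf, hB⟩
  have k2 : Km f K (conj (A - sF f * conj B)) (fun t => conj (ee f t)) := by
    refine ⟨(bm_ee hf).conj, ?_⟩
    rw [hA, ← integral_conj]
    congr 1
    funext t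
    rw [map_mul, Complex.conj_conj]
  refine ((Km.add hf bK k2 (k1.smul (conj (sF f)))).smul ((1 / (1 - ‖sF f‖ ^ 2) : ℝ) : ℂ)).congr ?_ fun t => ?_
  · rw [hd]
    simp only [map_sub, map_mul, Complex.conj_conj]
    field_simp
    ring
  · unfold Gv
    simp only [map_mul, map_add, Complex.conj_conj, Complex.conj_ofReal]

/-- **the combination of the functionals as a mean against the kernel** -/
theorem Co.km (C : Co) (hf : Ef f) (hK : Measurable K) (hK1 : ∀ t, ‖K t‖ ≤ 1) {A B : ℂ}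
    (hA : A - sF f * conj B = ∫ t, ee f t * conj (K t) ∂(vm (X1 f) (X2 f)))
    (hB : B - sF f * conj A = ∫ t, ee f t * K t ∂(vm (X1 f) (X2 f))) :
    Km f K (C.a * B + C.b * conj A
      + (C.g * (∫ t, ee f t ^ 3 * K t ∂(vm (X1 f) (X2 f)))
        + C.g' * conj (∫ t, ee f t ^ 3 * conj (K t) ∂(vm (X1 f) (X2 f))))
      + (C.φ * (∫ t, dd f t * ee f t ^ 2 * K t ∂(vm (X1 f) (X2 f)))
        + C.φ' * conj (∫ t, dd f t * ee f t ^ 2 * conj (K t) ∂(vm (X1 f) (X2 f)))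
        + C.ω * (∫ t, dd f t * K t ∂(vm (X1 f) (X2 f))))) (C.ker f) := by
  have bK : Bm K := ⟨hK, 1, hK1⟩
  have cj : ∀ G : ℝ → ℂ, Bm G → Km f K (conj (∫ t, G t * conj (K t) ∂(vm (X1 f) (X2 f))))
      (fun t => conj (G t)) := fun G bG => by
    refine ⟨bG.conj, ?_⟩
    rw [← integral_conj]
    congr 1
    funext t
    rw [map_mul, Complex.conj_conj]
  have b3 : Bm fun t => ee f t ^ 3 := bm_pow (bm_ee hf) 3
  have b2 : Bm fun t => dd f t * ee f t ^ 2 := (bm_dd hf).mul (bm_pow (bm_ee hf) 2)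
  exact Km.add hf bK (Km.add hf bK (Km.add hf bK ((km_B hf hK hK1 hA hB).smul C.a)
      ((km_A hf hK hK1 hA hB).smul C.b))
    (Km.add hf bK (Km.smul ⟨b3, rfl⟩ C.g) ((cj _ b3).smul C.g')))
    (Km.add hf bK (Km.add hf bK (Km.smul ⟨b2, rfl⟩ C.φ) ((cj _ b2).smul C.φ'))
      (Km.smul ⟨bm_dd hf, rfl⟩ C.ω))

/-! ### the coefficients of the deviation with eight terms -/

open Pool.Agent.FPX.BTI (M9 Psi8 mn8 C9 n9 m9 s9 r9 DevLe)
open Pool.Agent.FPX.BTG (mo aK bK dev)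
open Pool.Agent.FPX.BTN (nf)
open Pool.Agent.FPX.CERQ (xT)
open Pool.Agent.FPX.OMR (Re xR eR vR r3 r5 q0 q4 tR)

/-- coefficient of `L₃` -/
def g8c (u : Fin 28 → ℝ) (m : M9) : ℂ := u 17 + u 18 * conj (m 0) + u 19 * m 0

/-- coefficient of `conj L₃` -/
def h8c (u : Fin 28 → ℝ) (m : M9) : ℂ := u 20 + u 21 * m 0 + u 22 * conj (m 0)

/-- coefficient of `B` -/
def a8c (u : Fin 28 → ℝ) (m : M9) : ℂ :=
  u 0 + (u 1 * m 0 + u 2 * conj (m 0) + u 3 * (m 0 * conj (m 0)) + u 4 * m 0 ^ 2 + u 5 * conj (m 0) ^ 2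
    + u 6 * m 4 + u 7 * m 3 + u 8 * conj (m 4)) - 3 / 2 * m 0 * g8c u m
    + (5 / 2 * conj (m 1) + 3 / 2 * conj (m 0)) * h8c u m - 1 / 2 * u 23 * m 4
    + u 24 * (conj (m 5) - conj (m 0) + 1 / 2 * conj (m 4))

/-- coefficient of `conj A` -/
def b8c (u : Fin 28 → ℝ) (m : M9) : ℂ :=
  (u 9 * m 0 + u 10 * conj (m 0) + u 11 * (m 0 * conj (m 0)) + u 12 * m 0 ^ 2 + u 13 * conj (m 0) ^ 2
    + u 14 * m 4 + u 15 * m 3 + u 16 * conj (m 4)) + (u 26 + Complex.I * u 27)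
    + (5 / 2 * m 1 + 3 / 2 * m 0) * g8c u m - 3 / 2 * conj (m 0) * h8c u m
    + u 23 * (m 5 - m 0 + 1 / 2 * m 4) - 1 / 2 * u 24 * conj (m 4)

theorem dev8_eq (u : Fin 28 → ℝ) (m : M9) (A B : ℂ) (p q : Fin 3 → ℂ) : dev (C9 Psi8) u m A B p q =
    a8c u m * B + b8c u m * conj A + (g8c u m * p 0 + h8c u m * conj (q 0))
      + (u 23 * p 1 + u 24 * conj (q 1) + u 25 * p 2) := by
  unfold dev
  show ∑ i, (u i : ℂ) * Psi8 i m A B (n9 m A B (q 0)) (m9 m A B (p 0)) (s9 m A B (q 1)) (r9 m A B (p 1)) (p 2) = _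
  have c2 : conj (2 : ℂ) = 2 := map_ofNat _ 2
  have c3 : conj (3 : ℂ) = 3 := map_ofNat _ 3
  have c5 : conj (5 : ℂ) = 5 := map_ofNat _ 5
  simp only [Fin.sum_univ_succ, Fin.sum_univ_zero, Psi8, mn8, n9, m9, s9, r9]
  simp [c2, c3, c5]
  unfold a8c b8c g8c h8c
  ring

/-! ### the kernel of the deviation in the real frame -/

/-- the moments of the state -/
abbrev m8 (f : ℝ → ℝ) : M9 := mo (C9 Psi8) (nf f) (xT f) (BTN.ef f)

/-- the coefficients at the state `f` -/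
def C8 (u : Fin 28 → ℝ) (f : ℝ → ℝ) : Co :=
  ⟨a8c u (m8 f), b8c u (m8 f), g8c u (m8 f), h8c u (m8 f), tR f * u 23, tR f * u 24, tR f * u 25⟩

theorem tR_conj (f : ℝ → ℝ) : conj (tR f) = tR f := Complex.conj_ofReal _

theorem m8_0 (H : Re f) : m8 f 0 = r3 f := by
  have e : BTN.M3 (nf f) (xT f) (BTN.ef f) = m8 f 0 := rfl
  rw [← e, BTN.rM3 H]

theorem m8_1 (H : Re f) : m8 f 1 = r5 f := by
  have e : BTN.M5 (nf f) (xT f) (BTN.ef f) = m8 f 1 := rfl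
  rw [← e, BTN.rM5 H]

theorem tC3 (H : Re f) : tR f * CE 3 f = 2 * r3 f := by
  have hc := H.cC
  have h := H.c3
  unfold tR
  push_cast
  field_simp
  linear_combination h

theorem tC5 (H : Re f) : tR f * CE 5 f = 2 * r5 f := by
  have hc := H.cC
  have h := H.c5
  unfold tR
  push_cast
  field_simp
  linear_combination h

theorem tR_norm (H : Re f) : ‖tR f‖ = X1 f / cF f := by
  have := H.c0
  have := H.h0
  unfold tR
  rw [Complex.norm_real, Real.norm_eq_abs, abs_of_nonneg (by positivity)]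

theorem tR_S0 (H : Re f) : ‖tR f‖ ^ 2 * S54.S0 f = q0 f := by
  have hc := H.c0.ne'
  rw [tR_norm H, div_pow, div_mul_eq_mul_div, H.s0]
  field_simp

/-- the deviation is the mean against the kernel -/
theorem dev8_km (H : Re f) (u : Fin 28 → ℝ) (hK : Measurable K) (hK1 : ∀ t, ‖K t‖ ≤ 1) {A B : ℂ}
    (hA : A - sF f * conj B = ∫ t, ee f t * conj (K t) ∂(vm (X1 f) (X2 f)))
    (hB : B - sF f * conj A = ∫ t, ee f t * K t ∂(vm (X1 f) (X2 f))) :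
    Km f K (dev (C9 Psi8) u (m8 f) A B (aK (C9 Psi8) (nf f) (xT f) (BTN.ef f) K)
      (bK (C9 Psi8) (nf f) (xT f) (BTN.ef f) K)) ((C8 u f).ker f) := by
  refine (Co.km (C8 u f) H.hf hK hK1 hA hB).congr ?_ fun t => rfl
  have k0 : aK (C9 Psi8) (nf f) (xT f) (BTN.ef f) K 0 = ∫ t, ee f t ^ 3 * K t ∂(vm (X1 f) (X2 f)) := rfl
  have k0' : bK (C9 Psi8) (nf f) (xT f) (BTN.ef f) K 0 = ∫ t, ee f t ^ 3 * conj (K t) ∂(vm (X1 f) (X2 f)) := rfl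
  have k1 : aK (C9 Psi8) (nf f) (xT f) (BTN.ef f) K 1 =
      tR f * ∫ t, dd f t * ee f t ^ 2 * K t ∂(vm (X1 f) (X2 f)) := by
    have h := BTN.t_intR H (fun t => ee f t ^ 2 * K t)
    simp only [← mul_assoc] at h
    exact h.symm
  have k1' : bK (C9 Psi8) (nf f) (xT f) (BTN.ef f) K 1 =
      tR f * ∫ t, dd f t * ee f t ^ 2 * conj (K t) ∂(vm (X1 f) (X2 f)) := by
    have h := BTN.t_intR H (fun t => ee f t ^ 2 * conj (K t))
    simp only [← mul_assoc] at h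
    exact h.symm
  have k2 : aK (C9 Psi8) (nf f) (xT f) (BTN.ef f) K 2 = tR f * ∫ t, dd f t * K t ∂(vm (X1 f) (X2 f)) :=
    (BTN.t_intR H K).symm
  rw [dev8_eq, k0, k0', k1, k1', k2]
  simp only [C8, map_mul, tR_conj]
  ring

theorem sq_re (z w : ℂ) : ‖z + w‖ ^ 2 = ‖z‖ ^ 2 + 2 * (conj z * w).re + ‖w‖ ^ 2 := by
  rw [← Complex.normSq_eq_norm_sq, ← Complex.normSq_eq_norm_sq, ← Complex.normSq_eq_norm_sq]
  simp only [Complex.normSq_apply, Complex.mul_re, Complex.add_re, Complex.add_im, Complex.conj_re,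
    Complex.conj_im]
  ring

/-- **the `L²` norm of the kernel in the real frame** -/
theorem ker8_norm (H : Re f) (u : Fin 28 → ℝ) : ∫ t, ‖(C8 u f).ker f t‖ ^ 2 ∂(vm (X1 f) (X2 f)) ≤
    ‖(C8 u f).P f + u 24 * conj (r3 f)‖ ^ 2 + ‖(C8 u f).Q f + u 23 * r3 f‖ ^ 2
      + ‖g8c u (m8 f) + (u 24 * conj (r5 f) + u 25 * conj (r3 f))‖ ^ 2
      + ‖h8c u (m8 f) + (u 23 * r5 f + u 25 * r3 f)‖ ^ 2 + (|u 23| + |u 24| + |u 25|) ^ 2 * q0 f := by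
  rw [Co.ker_norm _ H.hf]
  have hT := Co.psi_norm (C8 u f) H.hf
  have e1 : (‖(C8 u f).φ‖ + ‖(C8 u f).φ'‖ + ‖(C8 u f).ω‖) ^ 2 * S54.S0 f =
      (|u 23| + |u 24| + |u 25|) ^ 2 * q0 f := by
    rw [← tR_S0 H]
    simp only [C8, norm_mul, Complex.norm_real, Real.norm_eq_abs]
    ring
  rw [e1] at hT
  unfold Co.N2
  have t3 : conj (tR f * CE 3 f) = 2 * conj (r3 f) := by rw [tC3 H, map_mul, map_ofNat]
  have t5 : conj (tR f * CE 5 f) = 2 * conj (r5 f) := by rw [tC5 H, map_mul, map_ofNat]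
  rw [map_mul, tR_conj] at t3 t5
  have e2 : conj ((C8 u f).P f) * (C8 u f).φ' * conj (CE 3 f) + conj ((C8 u f).Q f) * (C8 u f).φ * CE 3 f
      + conj (C8 u f).g * ((C8 u f).φ' * conj (CE 5 f) + (C8 u f).ω * conj (CE 3 f))
      + conj (C8 u f).g' * ((C8 u f).φ * CE 5 f + (C8 u f).ω * CE 3 f) =
      ((2 : ℝ) : ℂ) * (conj ((C8 u f).P f) * (u 24 * conj (r3 f)) + conj ((C8 u f).Q f) * (u 23 * r3 f)
        + conj (g8c u (m8 f)) * (u 24 * conj (r5 f) + u 25 * conj (r3 f))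
        + conj (h8c u (m8 f)) * (u 23 * r5 f + u 25 * r3 f)) := by
    have h3 := tC3 H
    have h5 := tC5 H
    show conj ((C8 u f).P f) * (tR f * u 24) * conj (CE 3 f) + conj ((C8 u f).Q f) * (tR f * u 23) * CE 3 f
      + conj (g8c u (m8 f)) * ((tR f * u 24) * conj (CE 5 f) + (tR f * u 25) * conj (CE 3 f))
      + conj (h8c u (m8 f)) * ((tR f * u 23) * CE 5 f + (tR f * u 25) * CE 3 f) = _
    push_cast
    linear_combination (conj ((C8 u f).P f) * u 24 + conj (g8c u (m8 f)) * u 25) * t3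
      + (conj ((C8 u f).Q f) * u 23 + conj (h8c u (m8 f)) * u 25) * h3
      + (conj (g8c u (m8 f)) * u 24) * t5 + (conj (h8c u (m8 f)) * u 23) * h5
  rw [e2, Complex.re_ofReal_mul, sq_re ((C8 u f).P f) (u 24 * conj (r3 f)), sq_re ((C8 u f).Q f) (u 23 * r3 f),
    sq_re (g8c u (m8 f)) (u 24 * conj (r5 f) + u 25 * conj (r3 f)),
    sq_re (h8c u (m8 f)) (u 23 * r5 f + u 25 * r3 f)]
  simp only [Complex.add_re]
  show ‖(C8 u f).P f‖ ^ 2 + ‖(C8 u f).Q f‖ ^ 2 + ‖g8c u (m8 f)‖ ^ 2 + ‖h8c u (m8 f)‖ ^ 2 + _ + _ ≤ _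
  have p1 := sq_nonneg ‖(u 24 : ℂ) * conj (r3 f)‖
  have p2 := sq_nonneg ‖(u 23 : ℂ) * r3 f‖
  have p3 := sq_nonneg ‖(u 24 : ℂ) * conj (r5 f) + u 25 * conj (r3 f)‖
  have p4 := sq_nonneg ‖(u 23 : ℂ) * r5 f + u 25 * r3 f‖
  linarith

/-! ### bounds -/

/-- the combinations of the coefficients that enter the bound -/
def cmb (u : Fin 28 → ℝ) : Fin 26 → ℝ :=
  ![u 1 - 3 / 2 * u 17, u 2 + 3 / 2 * u 20, u 3 - 3 / 2 * u 18 + 3 / 2 * u 21, u 4 - 3 / 2 * u 19,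
    u 5 + 3 / 2 * u 22, u 6 - 1 / 2 * u 23, u 8 + 1 / 2 * u 24, u 7, u 9 + 3 / 2 * u 17,
    u 9 + 3 / 2 * u 17 + 3 / 2, u 10 - 3 / 2 * u 20, u 11 + 3 / 2 * u 18 - 3 / 2 * u 21,
    u 12 + 3 / 2 * u 19, u 13 - 3 / 2 * u 22, u 14 + 1 / 2 * u 23, u 16 - 1 / 2 * u 24, u 15,
    u 17, u 18, u 19, u 20, u 21, u 22, u 23, u 24, u 25]

/-- bound of `|a - 1|` -/
def bA (y : Fin 26 → ℝ) (ρ ρ' q : ℝ) : ℝ :=
  (y 0 + y 1) * ρ + (y 2 + y 3 + y 4) * ρ ^ 2 + 5 / 2 * ρ' * (y 20 + (y 21 + y 22) * ρ)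
    + (y 5 + y 6 + y 24 + y 7) * q

/-- bound of `|b|` (`z = y 8`) or of `|b + σ|` (`z = y 9`) -/
def bB (z : ℝ) (y : Fin 26 → ℝ) (t ρ ρ' q : ℝ) : ℝ :=
  (z + y 10) * ρ + (y 11 + y 12 + y 13) * ρ ^ 2 + 5 / 2 * ρ' * (y 17 + (y 18 + y 19) * ρ)
    + (y 14 + y 15 + y 23 + y 16) * q + t

/-- bounds of the coefficients of `E`, `conj E`, `E³`, `conj E³` -/
def bP (y : Fin 26 → ℝ) (t ρ ρ' q : ℝ) : ℝ :=
  (1 + bA y ρ ρ' q + (bB (y 8) y t ρ ρ' q + y 23 * ρ) * (3 / 2 * ρ) + y 24 * ρ * (3 / 2 * ρ) ^ 2)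
    / (1 - (3 / 2 * ρ) ^ 2)

def bQ (y : Fin 26 → ℝ) (t ρ ρ' q : ℝ) : ℝ :=
  ((bA y ρ ρ' q + y 24 * ρ) * (3 / 2 * ρ) + bB (y 9) y t ρ ρ' q + y 23 * ρ * (3 / 2 * ρ) ^ 2)
    / (1 - (3 / 2 * ρ) ^ 2)

def bG (y : Fin 26 → ℝ) (ρ ρ' : ℝ) : ℝ := y 17 + (y 18 + y 19) * ρ + (y 24 * ρ' + y 25 * ρ)

def bH (y : Fin 26 → ℝ) (ρ ρ' : ℝ) : ℝ := y 20 + (y 21 + y 22) * ρ + (y 23 * ρ' + y 25 * ρ)

/-- **the bound of the square of the deviation** -/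
def nb2 (y : Fin 26 → ℝ) (t ρ ρ' q : ℝ) : ℝ :=
  bP y t ρ ρ' q ^ 2 + bQ y t ρ ρ' q ^ 2 + bG y ρ ρ' ^ 2 + bH y ρ ρ' ^ 2 + (y 23 + y 24 + y 25) ^ 2 * q

theorem nm {c y : ℝ} {z : ℂ} {Z : ℝ} (h : |c| ≤ y) (hz : ‖z‖ ≤ Z) : ‖(c : ℂ) * z‖ ≤ y * Z := by
  rw [norm_mul, Complex.norm_real, Real.norm_eq_abs]
  exact mul_le_mul h hz (norm_nonneg _) ((abs_nonneg _).trans h)

section alg

variable {u : Fin 28 → ℝ} {m : M9} {y : Fin 26 → ℝ} {t ρ ρ' q : ℝ}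

theorem g8c_le (hy : ∀ i, |cmb u i| ≤ y i) (h0 : ‖m 0‖ ≤ ρ) : ‖g8c u m‖ ≤ y 17 + (y 18 + y 19) * ρ := by
  have c0 : ‖conj (m 0)‖ ≤ ρ := by rwa [Complex.norm_conj]
  have e1 : ‖(u 17 : ℂ)‖ ≤ y 17 := by
    rw [Complex.norm_real, Real.norm_eq_abs]
    exact hy 17
  have e2 := nm (show |u 18| ≤ y 18 from hy 18) c0
  have e3 := nm (show |u 19| ≤ y 19 from hy 19) h0
  unfold g8c
  refine norm_add₃_le.trans ?_
  linarith

theorem h8c_le (hy : ∀ i, |cmb u i| ≤ y i) (h0 : ‖m 0‖ ≤ ρ) : ‖h8c u m‖ ≤ y 20 + (y 21 + y 22) * ρ := by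
  have c0 : ‖conj (m 0)‖ ≤ ρ := by rwa [Complex.norm_conj]
  have e1 : ‖(u 20 : ℂ)‖ ≤ y 20 := by
    rw [Complex.norm_real, Real.norm_eq_abs]
    exact hy 20
  have e2 := nm (show |u 21| ≤ y 21 from hy 21) h0
  have e3 := nm (show |u 22| ≤ y 22 from hy 22) c0
  unfold h8c
  refine norm_add₃_le.trans ?_
  linarith

theorem a8c_le (hy : ∀ i, |cmb u i| ≤ y i) (hu : u 0 = 1) (h0 : ‖m 0‖ ≤ ρ) (h1 : ‖m 1‖ ≤ ρ') (h3 : ‖m 3‖ ≤ q)
    (h4 : ‖m 4‖ ≤ q) (h5 : ‖m 5‖ ≤ q) : ‖a8c u m + u 24 * conj (m 0) - 1‖ ≤ bA y ρ ρ' q := by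
  have hρ : 0 ≤ ρ := (norm_nonneg _).trans h0
  have c0 : ‖conj (m 0)‖ ≤ ρ := by rwa [Complex.norm_conj]
  have c4 : ‖conj (m 4)‖ ≤ q := by rwa [Complex.norm_conj]
  have c5 : ‖conj (m 5)‖ ≤ q := by rwa [Complex.norm_conj]
  have s1 : ‖m 0 * conj (m 0)‖ ≤ ρ ^ 2 := by
    rw [norm_mul, sq]
    exact mul_le_mul h0 c0 (norm_nonneg _) hρ
  have s2 : ‖m 0 ^ 2‖ ≤ ρ ^ 2 := by
    rw [norm_pow]
    exact pow_le_pow_left₀ (norm_nonneg _) h0 2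
  have s3 : ‖conj (m 0) ^ 2‖ ≤ ρ ^ 2 := by
    rw [norm_pow]
    exact pow_le_pow_left₀ (norm_nonneg _) c0 2
  have s4 : ‖5 / 2 * conj (m 1) * h8c u m‖ ≤ 5 / 2 * ρ' * (y 20 + (y 21 + y 22) * ρ) := by
    rw [norm_mul, norm_mul, Complex.norm_conj]
    have : ‖(5 / 2 : ℂ)‖ = 5 / 2 := by norm_num
    rw [this]
    exact mul_le_mul (mul_le_mul_of_nonneg_left h1 (by norm_num)) (h8c_le hy h0) (norm_nonneg _)
      (mul_nonneg (by norm_num) ((norm_nonneg _).trans h1))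
  have t0 := nm (hy 0) h0
  have t1 := nm (hy 1) c0
  have t2 := nm (hy 2) s1
  have t3 := nm (hy 3) s2
  have t4 := nm (hy 4) s3
  have t5 := nm (hy 5) h4
  have t6 := nm (hy 6) c4
  have t7 := nm (show |u 7| ≤ y 7 from hy 7) h3
  have t8 := nm (show |u 24| ≤ y 24 from hy 24) c5
  have e : a8c u m + u 24 * conj (m 0) - 1 = ((cmb u 0 : ℝ) : ℂ) * m 0 + ((cmb u 1 : ℝ) : ℂ) * conj (m 0)
      + ((cmb u 2 : ℝ) : ℂ) * (m 0 * conj (m 0)) + ((cmb u 3 : ℝ) : ℂ) * m 0 ^ 2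
      + ((cmb u 4 : ℝ) : ℂ) * conj (m 0) ^ 2 + ((cmb u 5 : ℝ) : ℂ) * m 4
      + ((cmb u 6 : ℝ) : ℂ) * conj (m 4) + (u 7 : ℂ) * m 3 + (u 24 : ℂ) * conj (m 5)
      + 5 / 2 * conj (m 1) * h8c u m := by
    show _ = ((u 1 - 3 / 2 * u 17 : ℝ) : ℂ) * m 0 + ((u 2 + 3 / 2 * u 20 : ℝ) : ℂ) * conj (m 0)
      + ((u 3 - 3 / 2 * u 18 + 3 / 2 * u 21 : ℝ) : ℂ) * (m 0 * conj (m 0)) + ((u 4 - 3 / 2 * u 19 : ℝ) : ℂ) * m 0 ^ 2
      + ((u 5 + 3 / 2 * u 22 : ℝ) : ℂ) * conj (m 0) ^ 2 + ((u 6 - 1 / 2 * u 23 : ℝ) : ℂ) * m 4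
      + ((u 8 + 1 / 2 * u 24 : ℝ) : ℂ) * conj (m 4) + (u 7 : ℂ) * m 3 + (u 24 : ℂ) * conj (m 5)
      + 5 / 2 * conj (m 1) * h8c u m
    unfold a8c h8c g8c
    rw [hu]
    push_cast
    ring
  rw [e]
  refine (norm_add_le _ _).trans ?_
  refine (add_le_add_left (norm_add_le _ _) _).trans ?_
  refine (add_le_add_left (add_le_add_left (norm_add_le _ _) _) _).trans ?_
  refine (add_le_add_left (add_le_add_left (add_le_add_left (norm_add_le _ _) _) _) _).trans ?_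
  refine (add_le_add_left (add_le_add_left (add_le_add_left (add_le_add_left (norm_add_le _ _) _) _) _) _).trans ?_
  refine (add_le_add_left (add_le_add_left (add_le_add_left (add_le_add_left (add_le_add_left
    (norm_add_le _ _) _) _) _) _) _).trans ?_
  refine (add_le_add_left (add_le_add_left (add_le_add_left (add_le_add_left (add_le_add_left
    (add_le_add_left (norm_add₄_le) _) _) _) _) _) _).trans ?_
  unfold bA
  nlinarith [t0, t1, t2, t3, t4, t5, t6, t7, t8, s4]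

theorem b8c_le (hy : ∀ i, |cmb u i| ≤ y i) {w z : ℝ} (hz : |u 9 + 3 / 2 * u 17 + w| ≤ z)
    (ht : ‖(u 26 + Complex.I * u 27 : ℂ)‖ ≤ t) (h0 : ‖m 0‖ ≤ ρ) (h1 : ‖m 1‖ ≤ ρ') (h3 : ‖m 3‖ ≤ q)
    (h4 : ‖m 4‖ ≤ q) (h5 : ‖m 5‖ ≤ q) :
    ‖b8c u m + u 23 * m 0 + w * m 0‖ ≤ bB z y t ρ ρ' q := by
  have hρ : 0 ≤ ρ := (norm_nonneg _).trans h0
  have c0 : ‖conj (m 0)‖ ≤ ρ := by rwa [Complex.norm_conj]
  have c4 : ‖conj (m 4)‖ ≤ q := by rwa [Complex.norm_conj]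
  have s1 : ‖m 0 * conj (m 0)‖ ≤ ρ ^ 2 := by
    rw [norm_mul, sq]
    exact mul_le_mul h0 c0 (norm_nonneg _) hρ
  have s2 : ‖m 0 ^ 2‖ ≤ ρ ^ 2 := by
    rw [norm_pow]
    exact pow_le_pow_left₀ (norm_nonneg _) h0 2
  have s3 : ‖conj (m 0) ^ 2‖ ≤ ρ ^ 2 := by
    rw [norm_pow]
    exact pow_le_pow_left₀ (norm_nonneg _) c0 2
  have s4 : ‖5 / 2 * m 1 * g8c u m‖ ≤ 5 / 2 * ρ' * (y 17 + (y 18 + y 19) * ρ) := by
    rw [norm_mul, norm_mul]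
    have : ‖(5 / 2 : ℂ)‖ = 5 / 2 := by norm_num
    rw [this]
    exact mul_le_mul (mul_le_mul_of_nonneg_left h1 (by norm_num)) (g8c_le hy h0) (norm_nonneg _)
      (mul_nonneg (by norm_num) ((norm_nonneg _).trans h1))
  have t0 := nm hz h0
  have t1 := nm (hy 10) c0
  have t2 := nm (hy 11) s1
  have t3 := nm (hy 12) s2
  have t4 := nm (hy 13) s3
  have t5 := nm (hy 14) h4
  have t6 := nm (hy 15) c4
  have t7 := nm (show |u 15| ≤ y 16 from hy 16) h3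
  have t8 := nm (show |u 23| ≤ y 23 from hy 23) h5
  have e : b8c u m + u 23 * m 0 + w * m 0 = ((u 9 + 3 / 2 * u 17 + w : ℝ) : ℂ) * m 0
      + ((cmb u 10 : ℝ) : ℂ) * conj (m 0)
      + ((cmb u 11 : ℝ) : ℂ) * (m 0 * conj (m 0)) + ((cmb u 12 : ℝ) : ℂ) * m 0 ^ 2
      + ((cmb u 13 : ℝ) : ℂ) * conj (m 0) ^ 2 + ((cmb u 14 : ℝ) : ℂ) * m 4
      + ((cmb u 15 : ℝ) : ℂ) * conj (m 4) + (u 15 : ℂ) * m 3 + (u 23 : ℂ) * m 5
      + 5 / 2 * m 1 * g8c u m + (u 26 + Complex.I * u 27) := by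
    show _ = ((u 9 + 3 / 2 * u 17 + w : ℝ) : ℂ) * m 0 + ((u 10 - 3 / 2 * u 20 : ℝ) : ℂ) * conj (m 0)
      + ((u 11 + 3 / 2 * u 18 - 3 / 2 * u 21 : ℝ) : ℂ) * (m 0 * conj (m 0)) + ((u 12 + 3 / 2 * u 19 : ℝ) : ℂ) * m 0 ^ 2
      + ((u 13 - 3 / 2 * u 22 : ℝ) : ℂ) * conj (m 0) ^ 2 + ((u 14 + 1 / 2 * u 23 : ℝ) : ℂ) * m 4
      + ((u 16 - 1 / 2 * u 24 : ℝ) : ℂ) * conj (m 4) + (u 15 : ℂ) * m 3 + (u 23 : ℂ) * m 5
      + 5 / 2 * m 1 * g8c u m + (u 26 + Complex.I * u 27)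
    unfold b8c g8c h8c
    push_cast
    ring
  rw [e]
  refine (norm_add_le _ _).trans ?_
  refine (add_le_add_left (norm_add_le _ _) _).trans ?_
  refine (add_le_add_left (add_le_add_left (norm_add_le _ _) _) _).trans ?_
  refine (add_le_add_left (add_le_add_left (add_le_add_left (norm_add_le _ _) _) _) _).trans ?_
  refine (add_le_add_left (add_le_add_left (add_le_add_left (add_le_add_left (norm_add_le _ _) _) _) _) _).trans ?_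
  refine (add_le_add_left (add_le_add_left (add_le_add_left (add_le_add_left (add_le_add_left
    (norm_add_le _ _) _) _) _) _) _).trans ?_
  refine (add_le_add_left (add_le_add_left (add_le_add_left (add_le_add_left (add_le_add_left
    (add_le_add_left (norm_add_le _ _) _) _) _) _) _) _).trans ?_
  refine (add_le_add_left (add_le_add_left (add_le_add_left (add_le_add_left (add_le_add_left
    (add_le_add_left (add_le_add_left (norm_add₄_le) _) _) _) _) _) _) _).trans ?_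
  unfold bB
  nlinarith [t0, t1, t2, t3, t4, t5, t6, t7, t8, s4]

/-- division by `1 - |σ|²` -/
theorem div_le {X : ℂ} {s S N : ℝ} (hs : 0 ≤ s) (hS : s ≤ S) (hS1 : S < 1) (hX : ‖X‖ ≤ N) :
    ‖X * ((1 / (1 - s ^ 2) : ℝ) : ℂ)‖ ≤ N / (1 - S ^ 2) := by
  have h1 : s ^ 2 ≤ S ^ 2 := pow_le_pow_left₀ hs hS 2
  have h2 : 0 < 1 - S ^ 2 := by nlinarith
  have h3 : 0 < 1 - s ^ 2 := by linarith
  rw [norm_mul, Complex.norm_real, Real.norm_eq_abs, abs_of_pos (by positivity), div_eq_mul_one_div N]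
  refine mul_le_mul hX (one_div_le_one_div_of_le h2 (by linarith)) (by positivity) ((norm_nonneg _).trans hX)

theorem bound_P (hy : ∀ i, |cmb u i| ≤ y i) (hu : u 0 = 1) (ht : ‖(u 26 + Complex.I * u 27 : ℂ)‖ ≤ t)
    (h0 : ‖m 0‖ ≤ ρ) (h1 : ‖m 1‖ ≤ ρ') (h3 : ‖m 3‖ ≤ q) (h4 : ‖m 4‖ ≤ q) (h5 : ‖m 5‖ ≤ q) (hρ : 3 / 2 * ρ < 1)
    {σ : ℂ} (hσ : σ = 3 / 2 * m 0) :
    ‖(a8c u m + b8c u m * conj σ) * ((1 / (1 - ‖σ‖ ^ 2) : ℝ) : ℂ) + u 24 * conj (m 0)‖ ≤ bP y t ρ ρ' q := by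
  have hρ0 : 0 ≤ ρ := (norm_nonneg _).trans h0
  have nσ : ‖σ‖ ≤ 3 / 2 * ρ := by
    rw [hσ, norm_mul]
    have : ‖(3 / 2 : ℂ)‖ = 3 / 2 := by norm_num
    rw [this]
    linarith
  have nσ1 : ‖σ‖ < 1 := by linarith
  have hD : 0 < 1 - ‖σ‖ ^ 2 := by nlinarith [norm_nonneg σ]
  have hDc : (1 : ℂ) - ((‖σ‖ ^ 2 : ℝ) : ℂ) ≠ 0 := by
    have e : (1 : ℂ) - ((‖σ‖ ^ 2 : ℝ) : ℂ) = ((1 - ‖σ‖ ^ 2 : ℝ) : ℂ) := by push_cast; ring
    rw [e]
    exact Complex.ofReal_ne_zero.2 hD.ne'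
  have e : (a8c u m + b8c u m * conj σ) * ((1 / (1 - ‖σ‖ ^ 2) : ℝ) : ℂ) + u 24 * conj (m 0) =
      (1 + (a8c u m + u 24 * conj (m 0) - 1) + (b8c u m + u 23 * m 0 + ((0 : ℝ) : ℂ) * m 0) * conj σ
        + (-(u 23 * m 0) * conj σ + -(u 24 * conj (m 0)) * ((‖σ‖ ^ 2 : ℝ) : ℂ)))
        * ((1 / (1 - ‖σ‖ ^ 2) : ℝ) : ℂ) := by
    push_cast
    push_cast at hDc
    field_simp
    ring
  rw [e]
  refine div_le (norm_nonneg _) nσ hρ ?_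
  have a1 := a8c_le hy hu h0 h1 h3 h4 h5
  have a2 := b8c_le (w := 0) (z := y 8) hy (by simpa [cmb] using hy 8) ht h0 h1 h3 h4 h5
  have nc : ‖conj σ‖ ≤ 3 / 2 * ρ := by rwa [Complex.norm_conj]
  have a3 : ‖(b8c u m + u 23 * m 0 + ((0 : ℝ) : ℂ) * m 0) * conj σ‖ ≤ bB (y 8) y t ρ ρ' q * (3 / 2 * ρ) := by
    rw [norm_mul]
    exact mul_le_mul a2 nc (norm_nonneg _) ((norm_nonneg _).trans a2)
  have a4 : ‖-((u 23 : ℂ) * m 0) * conj σ‖ ≤ y 23 * ρ * (3 / 2 * ρ) := by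
    have h := nm (show |u 23| ≤ y 23 from hy 23) h0
    rw [norm_mul, norm_neg]
    exact mul_le_mul h nc (norm_nonneg _) ((norm_nonneg _).trans h)
  have a5 : ‖-((u 24 : ℂ) * conj (m 0)) * ((‖σ‖ ^ 2 : ℝ) : ℂ)‖ ≤ y 24 * ρ * (3 / 2 * ρ) ^ 2 := by
    have h := nm (show |u 24| ≤ y 24 from hy 24) (show ‖conj (m 0)‖ ≤ ρ by rwa [Complex.norm_conj])
    rw [norm_mul, norm_neg, Complex.norm_real, Real.norm_eq_abs, abs_of_nonneg (sq_nonneg _)]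
    exact mul_le_mul h (pow_le_pow_left₀ (norm_nonneg _) nσ 2) (sq_nonneg _) ((norm_nonneg _).trans h)
  have n1 : ‖(1 : ℂ)‖ = 1 := norm_one
  refine (norm_add₃_le.trans (add_le_add_right (norm_add_le _ _) _)).trans ?_
  refine (add_le_add_left (add_le_add_left (norm_add_le _ _) _) _).trans ?_
  linarith

theorem bound_Q (hy : ∀ i, |cmb u i| ≤ y i) (hu : u 0 = 1) (ht : ‖(u 26 + Complex.I * u 27 : ℂ)‖ ≤ t)
    (h0 : ‖m 0‖ ≤ ρ) (h1 : ‖m 1‖ ≤ ρ') (h3 : ‖m 3‖ ≤ q) (h4 : ‖m 4‖ ≤ q) (h5 : ‖m 5‖ ≤ q) (hρ : 3 / 2 * ρ < 1)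
    {σ : ℂ} (hσ : σ = 3 / 2 * m 0) :
    ‖(a8c u m * σ + b8c u m) * ((1 / (1 - ‖σ‖ ^ 2) : ℝ) : ℂ) + u 23 * m 0‖ ≤ bQ y t ρ ρ' q := by
  have hρ0 : 0 ≤ ρ := (norm_nonneg _).trans h0
  have nσ : ‖σ‖ ≤ 3 / 2 * ρ := by
    rw [hσ, norm_mul]
    have : ‖(3 / 2 : ℂ)‖ = 3 / 2 := by norm_num
    rw [this]
    linarith
  have nσ1 : ‖σ‖ < 1 := by linarith
  have hD : 0 < 1 - ‖σ‖ ^ 2 := by nlinarith [norm_nonneg σ]
  have hDc : (1 : ℂ) - ((‖σ‖ ^ 2 : ℝ) : ℂ) ≠ 0 := by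
    have e : (1 : ℂ) - ((‖σ‖ ^ 2 : ℝ) : ℂ) = ((1 - ‖σ‖ ^ 2 : ℝ) : ℂ) := by push_cast; ring
    rw [e]
    exact Complex.ofReal_ne_zero.2 hD.ne'
  have e : (a8c u m * σ + b8c u m) * ((1 / (1 - ‖σ‖ ^ 2) : ℝ) : ℂ) + u 23 * m 0 =
      ((a8c u m + u 24 * conj (m 0) - 1) * σ + (b8c u m + u 23 * m 0 + ((3 / 2 : ℝ) : ℂ) * m 0)
        + (-(u 24 * conj (m 0)) * σ + -(u 23 * m 0) * ((‖σ‖ ^ 2 : ℝ) : ℂ)))
        * ((1 / (1 - ‖σ‖ ^ 2) : ℝ) : ℂ) := by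
    push_cast
    push_cast at hDc
    field_simp
    linear_combination (2 : ℂ) * hσ
  rw [e]
  refine div_le (norm_nonneg _) nσ hρ ?_
  have a1 := a8c_le hy hu h0 h1 h3 h4 h5
  have a2 := b8c_le (w := 3 / 2) (z := y 9) hy (by simpa [cmb] using hy 9) ht h0 h1 h3 h4 h5
  have a3 : ‖(a8c u m + u 24 * conj (m 0) - 1) * σ‖ ≤ bA y ρ ρ' q * (3 / 2 * ρ) := by
    rw [norm_mul]
    exact mul_le_mul a1 nσ (norm_nonneg _) ((norm_nonneg _).trans a1)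
  have a4 : ‖-((u 24 : ℂ) * conj (m 0)) * σ‖ ≤ y 24 * ρ * (3 / 2 * ρ) := by
    have h := nm (show |u 24| ≤ y 24 from hy 24) (show ‖conj (m 0)‖ ≤ ρ by rwa [Complex.norm_conj])
    rw [norm_mul, norm_neg]
    exact mul_le_mul h nσ (norm_nonneg _) ((norm_nonneg _).trans h)
  have a5 : ‖-((u 23 : ℂ) * m 0) * ((‖σ‖ ^ 2 : ℝ) : ℂ)‖ ≤ y 23 * ρ * (3 / 2 * ρ) ^ 2 := by
    have h := nm (show |u 23| ≤ y 23 from hy 23) h0
    rw [norm_mul, norm_neg, Complex.norm_real, Real.norm_eq_abs, abs_of_nonneg (sq_nonneg _)]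
    exact mul_le_mul h (pow_le_pow_left₀ (norm_nonneg _) nσ 2) (sq_nonneg _) ((norm_nonneg _).trans h)
  refine (norm_add₃_le.trans (add_le_add_right (norm_add_le _ _) _)).trans ?_
  linarith

end alg

/-- **the bound of the deviation at one state** -/
theorem devK_le8 {f : ℝ → ℝ} {K : ℝ → ℂ} (H : Re f) {Bx : OM7.Dev} {u : Fin 28 → ℝ} (hD : DevLe Bx Psi8 u f)
    {y : Fin 26 → ℝ} {t ρ ρ' q N : ℝ} (hy : ∀ i, |cmb u i| ≤ y i) (hu : u 0 = 1)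
    (ht : ‖(u 26 + Complex.I * u 27 : ℂ)‖ ≤ t) (h3 : ‖r3 f‖ ≤ ρ) (h5 : ‖r5 f‖ ≤ ρ') (h0 : q0 f ≤ q)
    (h2 : ‖OMR.q2 f‖ ≤ q) (h4 : ‖q4 f‖ ≤ q) (hρ : 3 / 2 * ρ < 1) (hN : 0 ≤ N) (hn : nb2 y t ρ ρ' q ≤ N ^ 2)
    (hK : Measurable K) (hK1 : ∀ t, ‖K t‖ ≤ 1) {A B : ℂ}
    (hA : A - sF f * conj B = ∫ t, ee f t * conj (K t) ∂(vm (X1 f) (X2 f)))
    (hB : B - sF f * conj A = ∫ t, ee f t * K t ∂(vm (X1 f) (X2 f))) : ‖OM7.devK Bx f K A B‖ ≤ N := by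
  refine (BTI.devK_leR H hD K A B).trans ?_
  refine (dev8_km H u hK hK1 hA hB).le H.hf hK hK1 hN ((ker8_norm H u).trans ?_)
  refine le_trans ?_ hn
  have hq0 : 0 ≤ q0 f := by
    unfold q0
    exact integral_nonneg fun t => sq_nonneg _
  have m0 : ‖m8 f 0‖ ≤ ρ := by rw [m8_0 H]; exact h3
  have m1 : ‖m8 f 1‖ ≤ ρ' := by rw [m8_1 H]; exact h5
  have m3 : ‖m8 f 3‖ ≤ q := by
    have e : m8 f 3 = ((q0 f : ℝ) : ℂ) := by
      have e1 : m8 f 3 = ∫ t, (xT f t : ℂ) ^ 2 ∂(nf f) := rfl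
      rw [e1, BTN.nf_fun H, BTN.xT_fun H]
      unfold q0
      rw [← integral_complex_ofReal]
      congr 1
      funext t
      push_cast
      rfl
    rw [e, Complex.norm_real, Real.norm_eq_abs, abs_of_nonneg hq0]
    exact h0
  have m4 : ‖m8 f 4‖ ≤ q := by rw [show m8 f 4 = OMR.q2 f from BTI.mo4 H]; exact h2
  have m5 : ‖m8 f 5‖ ≤ q := by rw [show m8 f 5 = q4 f from BTI.mo5 H]; exact h4
  have hσ : sF f = 3 / 2 * m8 f 0 := by rw [m8_0 H]; exact H.sf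
  have eP : (C8 u f).P f + u 24 * conj (r3 f) =
      (a8c u (m8 f) + b8c u (m8 f) * conj (sF f)) * ((1 / (1 - ‖sF f‖ ^ 2) : ℝ) : ℂ) + u 24 * conj (m8 f 0) := by
    rw [m8_0 H]
    rfl
  have eQ : (C8 u f).Q f + u 23 * r3 f =
      (a8c u (m8 f) * sF f + b8c u (m8 f)) * ((1 / (1 - ‖sF f‖ ^ 2) : ℝ) : ℂ) + u 23 * m8 f 0 := by
    rw [m8_0 H]
    rfl
  have bp := bound_P hy hu ht m0 m1 m3 m4 m5 hρ hσ
  have bq := bound_Q hy hu ht m0 m1 m3 m4 m5 hρ hσ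
  have hg := g8c_le hy m0
  have hh := h8c_le hy m0
  rw [eP, eQ]
  have g1 : ‖g8c u (m8 f) + (u 24 * conj (r5 f) + u 25 * conj (r3 f))‖ ≤ bG y ρ ρ' := by
    have e1 := nm (show |u 24| ≤ y 24 from hy 24) (show ‖conj (r5 f)‖ ≤ ρ' by rwa [Complex.norm_conj])
    have e2 := nm (show |u 25| ≤ y 25 from hy 25) (show ‖conj (r3 f)‖ ≤ ρ by rwa [Complex.norm_conj])
    unfold bG
    refine (norm_add_le _ _).trans ?_
    refine (add_le_add_right (norm_add_le _ _) _).trans ?_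
    linarith
  have g2 : ‖h8c u (m8 f) + (u 23 * r5 f + u 25 * r3 f)‖ ≤ bH y ρ ρ' := by
    have e1 := nm (show |u 23| ≤ y 23 from hy 23) h5
    have e2 := nm (show |u 25| ≤ y 25 from hy 25) h3
    unfold bH
    refine (norm_add_le _ _).trans ?_
    refine (add_le_add_right (norm_add_le _ _) _).trans ?_
    linarith
  have g3 : (|u 23| + |u 24| + |u 25|) ^ 2 * q0 f ≤ (y 23 + y 24 + y 25) ^ 2 * q := by
    have e1 : |u 23| ≤ y 23 := hy 23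
    have e2 : |u 24| ≤ y 24 := hy 24
    have e3 : |u 25| ≤ y 25 := hy 25
    have n1 := abs_nonneg (u 23)
    have n2 := abs_nonneg (u 24)
    have n3 := abs_nonneg (u 25)
    exact mul_le_mul (pow_le_pow_left₀ (by positivity) (by linarith) 2) h0 hq0 (sq_nonneg _)
  unfold nb2
  have f1 := pow_le_pow_left₀ (norm_nonneg _) bp 2
  have f2 := pow_le_pow_left₀ (norm_nonneg _) bq 2
  have f3 := pow_le_pow_left₀ (norm_nonneg _) g1 2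
  have f4 := pow_le_pow_left₀ (norm_nonneg _) g2 2
  linarith

/-! ### a priori bounds of the moments -/

variable {f : ℝ → ℝ}

/-- `|mean (g E^n)|² ≤ mean (g²) / 2` for a real function `g` (after `BTN.bessel3`) -/
theorem bessel (H : Re f) {n : ℕ} (hn : n ≠ 0) {g : ℝ → ℝ} (hg : Bm fun t => (g t : ℂ)) :
    2 * ‖∫ t, (g t : ℂ) * eR f t ^ n ∂(vR f)‖ ^ 2 ≤ ∫ t, g t ^ 2 ∂(vR f) := by
  have := H.prob
  have bE : Bm (eR f) := ⟨H.cte.measurable, 1, fun t => (H.ne1 t).le⟩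
  have bE3 : Bm fun t => eR f t ^ n := bm_pow bE n
  have bE6 : Bm fun t => eR f t ^ (2 * n) := bm_pow bE (2 * n)
  set z : ℂ := ∫ t, (g t : ℂ) * eR f t ^ n ∂(vR f) with hz
  have bp : Bm fun t => (((conj z * eR f t ^ n).re : ℝ) : ℂ) := BTN.bm_re ((Bm.const _).mul bE3)
  -- mean of `g Re (conj z E³)`
  have i1 : ∫ t, g t * (conj z * eR f t ^ n).re ∂(vR f) = ‖z‖ ^ 2 := by
    have h1 : ∫ t, conj z * ((g t : ℂ) * eR f t ^ n) ∂(vR f) = conj z * z := integral_const_mul _ _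
    have h2 := congrArg Complex.re h1
    have i : Integrable (fun t => conj z * ((g t : ℂ) * eR f t ^ n)) (vR f) := ((Bm.const _).mul (hg.mul bE3)).int
    rw [← RCLike.re_eq_complex_re, ← integral_re i] at h2
    have e1 : ∀ t, RCLike.re (conj z * ((g t : ℂ) * eR f t ^ n)) = g t * (conj z * eR f t ^ n).re := by
      intro t
      rw [RCLike.re_eq_complex_re, mul_left_comm, Complex.re_ofReal_mul]
    simp only [e1] at h2
    rw [h2, RCLike.re_eq_complex_re, mul_comm, Complex.mul_conj, Complex.ofReal_re, Complex.normSq_eq_norm_sq]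
  -- mean of `(Re (conj z E³))²`
  have i2 : ∫ t, (conj z * eR f t ^ n).re ^ 2 ∂(vR f) = ‖z‖ ^ 2 / 2 := by
    have e1 : ∀ t, (conj z * eR f t ^ n).re ^ 2 = ‖z‖ ^ 2 / 2 + RCLike.re (conj z ^ 2 / 2 * eR f t ^ (2 * n)) := by
      intro t
      have n3 : ‖conj z * eR f t ^ n‖ ^ 2 = ‖z‖ ^ 2 := by
        rw [norm_mul, norm_pow, H.ne1, one_pow, mul_one, Complex.norm_conj]
      have e2 : conj z ^ 2 / 2 * eR f t ^ (2 * n) = (conj z * eR f t ^ n) ^ 2 / 2 := by ring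
      rw [e2, RCLike.re_eq_complex_re]
      generalize conj z * eR f t ^ n = w at n3
      rw [← n3, ← Complex.normSq_eq_norm_sq, Complex.normSq_apply]
      have e3 : (w ^ 2 / 2).re = (w.re * w.re - w.im * w.im) / 2 := by
        have : (w ^ 2 / 2) = w ^ 2 * ((1 / 2 : ℝ) : ℂ) := by
          push_cast
          ring
        rw [this, Complex.mul_re, Complex.ofReal_re, Complex.ofReal_im, mul_zero, sub_zero, pow_two, Complex.mul_re]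
        ring
      rw [e3]
      ring
    have i : Integrable (fun t => conj z ^ 2 / 2 * eR f t ^ (2 * n)) (vR f) := ((Bm.const _).mul bE6).int
    simp only [e1]
    rw [integral_add (integrable_const _) i.re, integral_re i, integral_const_mul, H.en (by omega), mul_zero,
      map_zero, add_zero, integral_const]
    simp
  have ig : Integrable (fun t => g t ^ 2) (vR f) := by
    have h := (hg.mul hg).int (μ := vR f)
    have h2 := h.re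
    refine h2.congr (Eventually.of_forall fun t => ?_)
    show RCLike.re ((g t : ℂ) * (g t : ℂ)) = g t ^ 2
    rw [RCLike.re_eq_complex_re, ← Complex.ofReal_mul, Complex.ofReal_re, pow_two]
  have ip : Integrable (fun t => (conj z * eR f t ^ n).re ^ 2) (vR f) := by
    have h2 := ((bp.mul bp).int (μ := vR f)).re
    refine h2.congr (Eventually.of_forall fun t => ?_)
    show RCLike.re ((((conj z * eR f t ^ n).re : ℝ) : ℂ) * (((conj z * eR f t ^ n).re : ℝ) : ℂ)) =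
      (conj z * eR f t ^ n).re ^ 2
    rw [RCLike.re_eq_complex_re, ← Complex.ofReal_mul, Complex.ofReal_re, pow_two]
  have igp : Integrable (fun t => g t * (conj z * eR f t ^ n).re) (vR f) := by
    have h2 := ((hg.mul bp).int (μ := vR f)).re
    refine h2.congr (Eventually.of_forall fun t => ?_)
    show RCLike.re ((g t : ℂ) * (((conj z * eR f t ^ n).re : ℝ) : ℂ)) = g t * (conj z * eR f t ^ n).re
    rw [RCLike.re_eq_complex_re, ← Complex.ofReal_mul, Complex.ofReal_re]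
  have key : 0 ≤ ∫ t, (g t - 2 * (conj z * eR f t ^ n).re) ^ 2 ∂(vR f) := integral_nonneg fun t => sq_nonneg _
  have e : ∫ t, (g t - 2 * (conj z * eR f t ^ n).re) ^ 2 ∂(vR f) =
      (∫ t, g t ^ 2 ∂(vR f)) - 4 * (∫ t, g t * (conj z * eR f t ^ n).re ∂(vR f))
        + 4 * ∫ t, (conj z * eR f t ^ n).re ^ 2 ∂(vR f) := by
    have i3 : Integrable (fun t => g t ^ 2 - 4 * (g t * (conj z * eR f t ^ n).re)) (vR f) :=
      ig.sub (igp.const_mul 4)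
    rw [← integral_const_mul, ← integral_const_mul, ← integral_sub ig (igp.const_mul 4),
      ← integral_add i3 (ip.const_mul 4)]
    exact integral_congr_ae (Eventually.of_forall fun t => by ring)
  rw [e, i1, i2] at key
  linarith


theorem bm_x (H : Re f) : Bm fun t => (xR f t : ℂ) :=
  ⟨Complex.measurable_ofReal.comp H.ctx.measurable, 1, fun t => by
    rw [Complex.norm_real, Real.norm_eq_abs, ← BTN.xT_xR H]
    exact BTN.xT_le H.hf H.h0 H.h2 t⟩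

theorem r3_le (H : Re f) : ‖r3 f‖ ≤ 6 / 25 := by
  have h := SIG.sF_le H.hf
  rw [H.sf, norm_mul] at h
  have : ‖(3 / 2 : ℂ)‖ = 3 / 2 := by norm_num
  rw [this] at h
  linarith

theorem r3_sq (H : Re f) : 2 * ‖r3 f‖ ^ 2 ≤ q0 f := bessel H (by norm_num) (bm_x H)

theorem r5_sq (H : Re f) : 2 * ‖r5 f‖ ^ 2 ≤ q0 f := bessel H (by norm_num) (bm_x H)

theorem q0_nn (f : ℝ → ℝ) : 0 ≤ q0 f := by
  unfold q0
  exact integral_nonneg fun t => sq_nonneg _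

theorem q_le (H : Re f) (n : ℕ) : ‖∫ t, (xR f t : ℂ) ^ 2 * eR f t ^ n ∂(vR f)‖ ≤ q0 f := by
  have := H.prob
  refine (norm_integral_le_integral_norm _).trans (le_of_eq ?_)
  unfold q0
  congr 1
  funext t
  rw [norm_mul, norm_pow, norm_pow, H.ne1, one_pow, mul_one, Complex.norm_real, Real.norm_eq_abs, sq_abs]

theorem q2_le (H : Re f) : ‖OMR.q2 f‖ ≤ q0 f := q_le H 2

theorem q4_le (H : Re f) : ‖q4 f‖ ≤ q0 f := q_le H 4

/-- `q₀ ≤ (0.62 s)²` -/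
theorem q0_le (H : Re f) : q0 f ≤ (31 / 50 * X1 f) ^ 2 := by
  have h1 := H.s0
  have h2 := BTN.S0_le H
  have hc := H.c0
  have h3 : cF f ^ 2 * q0 f ≤ cF f ^ 2 * (31 / 50 * X1 f) ^ 2 := by
    rw [← h1]
    calc X1 f ^ 2 * S54.S0 f ≤ X1 f ^ 2 * (31 / 50 * cF f) ^ 2 := mul_le_mul_of_nonneg_left h2 (sq_nonneg _)
      _ = _ := by ring
  exact le_of_mul_le_mul_left h3 (by positivity)

/-- **the bound of the deviation at one state, from an a priori bound `q₀ ≤ q`** -/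
theorem devK_le8q {K : ℝ → ℂ} (H : Re f) {Bx : OM7.Dev} {u : Fin 28 → ℝ} (hD : DevLe Bx Psi8 u f)
    {y : Fin 26 → ℝ} {t ρ ρ' q N : ℝ} (hy : ∀ i, |cmb u i| ≤ y i) (hu : u 0 = 1)
    (ht : ‖(u 26 + Complex.I * u 27 : ℂ)‖ ≤ t) (h0 : q0 f ≤ q) (hρ0 : 0 ≤ ρ) (hρ0' : 0 ≤ ρ')
    (h3 : 6 / 25 ≤ ρ ∨ q ≤ 2 * ρ ^ 2) (h5 : q ≤ 2 * ρ' ^ 2) (hρ : 3 / 2 * ρ < 1) (hN : 0 ≤ N)
    (hn : nb2 y t ρ ρ' q ≤ N ^ 2) (hK : Measurable K) (hK1 : ∀ t, ‖K t‖ ≤ 1) {A B : ℂ}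
    (hA : A - sF f * conj B = ∫ t, ee f t * conj (K t) ∂(vm (X1 f) (X2 f)))
    (hB : B - sF f * conj A = ∫ t, ee f t * K t ∂(vm (X1 f) (X2 f))) : ‖OM7.devK Bx f K A B‖ ≤ N := by
  have e3 : ‖r3 f‖ ≤ ρ := by
    rcases h3 with h | h
    · exact (r3_le H).trans h
    · refine (sq_le_sq₀ (norm_nonneg _) hρ0).1 ?_
      have := r3_sq H
      linarith
  have e5 : ‖r5 f‖ ≤ ρ' := by
    refine (sq_le_sq₀ (norm_nonneg _) hρ0').1 ?_
    have := r5_sq H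
    linarith
  exact devK_le8 H hD hy hu ht e3 e5 h0 ((q2_le H).trans h0) ((q4_le H).trans h0) hρ hN hn hK hK1 hA hB

section final

variable {n' : ℕ} {Φ' : Fin (n' + 2) → (ℝ → ℝ) → ℝ} {dΦ' : Fin (n' + 2) → (ℝ → ℝ) → (ℝ → ℝ) → ℝ}

/-- **the constant of the start map with eight terms**: hypothesis `hN` of `start_of_raw4`, `start_of_raw` ... -/
theorem nB_of_dev {Bx : OM7.Dev} (HD : OM7.IsDev Φ' dΦ' Bx) (HR : OM7.RotDev Bx) {N : ℝ} (hN : 0 ≤ N)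
    (H : ∀ f, Re f → ∃ (u : Fin 28 → ℝ) (y : Fin 26 → ℝ) (t ρ ρ' q : ℝ), DevLe Bx Psi8 u f ∧
      (∀ i, |cmb u i| ≤ y i) ∧ u 0 = 1 ∧ ‖(u 26 + Complex.I * u 27 : ℂ)‖ ≤ t ∧ q0 f ≤ q ∧ 0 ≤ ρ ∧ 0 ≤ ρ' ∧
      (6 / 25 ≤ ρ ∨ q ≤ 2 * ρ ^ 2) ∧ q ≤ 2 * ρ' ^ 2 ∧ 3 / 2 * ρ < 1 ∧ nb2 y t ρ ρ' q ≤ N ^ 2) :
    ∀ f h k : ℝ → ℝ, Ef f → Var h k →
      ‖(CST.vv (CST.cu Φ' f) (CST.du dΦ' f h) + Complex.I * CST.vv (CST.cu Φ' f) (CST.du dΦ' f k)) / 2‖ ≤ N := by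
  refine XEC.nB_of_cert HD hN (OM7.cert_of_realX HR fun f hf h0 h2 => XEC.certAt_zero.2 ?_)
  intro K hK hK1 A B hA hB
  have R : Re f := ⟨hf, h0, h2⟩
  obtain ⟨u, y, t, ρ, ρ', q, hD, hy, hu, ht, hq, hρ0, hρ0', h3, h5, hρ, hn⟩ := H f R
  exact pow_le_pow_left₀ (norm_nonneg _)
    (devK_le8q R hD hy hu ht hq hρ0 hρ0' h3 h5 hρ hN hn hK hK1 hA hB) 2

end final

end Pool.Agent.FPX.XEN
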