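import Mathlib
import Pool.Agent.FPX.XENB
import Pool.Agent.FPX.XIQ
import Pool.Agent.FPX.PCO

/-
XENC (helper16): the constant of the start map `xi8` with polynomial coefficient functions: ball arithmetic over the
rationals, one Boolean per latitude cell.
-/

open MeasureTheory Set Filter Topology Complex
open scoped ENNReal NNReal ComplexConjugate

noncomputable section

namespace Pool.Agent.FPX.XEN

/-! ### balls -/

/-- a ball with rational centre and radius -/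
structure Bl where
  m : ℚ
  r : ℚ
deriving DecidableEq

namespace Bl

/-- `x` is in the ball -/
def Has (B : Bl) (x : ℝ) : Prop := |x - (B.m : ℝ)| ≤ (B.r : ℝ)

def add (B C : Bl) : Bl := ⟨B.m + C.m, B.r + C.r⟩

def mul (B C : Bl) : Bl := ⟨B.m * C.m, |B.m| * C.r + |C.m| * B.r + B.r * C.r⟩

def pt (q : ℚ) : Bl := ⟨q, 0⟩

/-- bound of the modulus -/
def ab (B : Bl) : ℚ := |B.m| + B.r

theorem Has.r0 {B : Bl} {x : ℝ} (h : B.Has x) : 0 ≤ (B.r : ℝ) := (abs_nonneg _).trans h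

theorem Has.add {B C : Bl} {x y : ℝ} (h : B.Has x) (k : C.Has y) : (B.add C).Has (x + y) := by
  unfold Has at *
  unfold Bl.add
  push_cast
  have e : x + y - ((B.m : ℝ) + C.m) = (x - B.m) + (y - C.m) := by ring
  rw [e]
  exact (abs_add_le _ _).trans (add_le_add h k)

theorem Has.mul {B C : Bl} {x y : ℝ} (h : B.Has x) (k : C.Has y) : (B.mul C).Has (x * y) := by
  have h0 := h.r0
  have k0 := k.r0
  unfold Has at *
  unfold Bl.mul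
  push_cast
  have e : x * y - (B.m : ℝ) * C.m = (B.m : ℝ) * (y - C.m) + (C.m : ℝ) * (x - B.m) + (x - B.m) * (y - C.m) := by ring
  rw [e]
  refine (abs_add_three _ _ _).trans ?_
  rw [abs_mul, abs_mul, abs_mul]
  have h1 := mul_le_mul_of_nonneg_left k (abs_nonneg (B.m : ℝ))
  have h2 := mul_le_mul_of_nonneg_left h (abs_nonneg (C.m : ℝ))
  have h3 := mul_le_mul h k (abs_nonneg _) h0
  linarith

theorem Has.pt (q : ℚ) : (Bl.pt q).Has (q : ℝ) := by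
  unfold Has Bl.pt
  simp

theorem Has.ab {B : Bl} {x : ℝ} (h : B.Has x) : |x| ≤ (B.ab : ℝ) := by
  unfold Has at h
  unfold Bl.ab
  push_cast
  have e : x = (B.m : ℝ) + (x - B.m) := by ring
  calc |x| = |(B.m : ℝ) + (x - B.m)| := by rw [← e]
    _ ≤ |(B.m : ℝ)| + |x - B.m| := abs_add_le _ _
    _ ≤ _ := by linarith

end Bl

/-! ### expressions -/

/-- polynomial expressions -/
inductive Ex where
  | v (i : ℕ)
  | q (r : ℚ)
  | add (a b : Ex)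
  | mul (a b : Ex)

namespace Ex

def evR (e : ℕ → ℝ) : Ex → ℝ
  | v i => e i
  | q r => (r : ℝ)
  | add a b => evR e a + evR e b
  | mul a b => evR e a * evR e b

def evB (e : ℕ → Bl) : Ex → Bl
  | v i => e i
  | q r => Bl.pt r
  | add a b => (evB e a).add (evB e b)
  | mul a b => (evB e a).mul (evB e b)

theorem sound {e : ℕ → ℝ} {E : ℕ → Bl} (h : ∀ i, (E i).Has (e i)) : ∀ x : Ex, (evB E x).Has (evR e x)
  | v i => h i
  | q r => Bl.Has.pt r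
  | add a b => (sound h a).add (sound h b)
  | mul a b => (sound h a).mul (sound h b)

end Ex

/-- a polynomial with rational coefficients -/
def pv (p : List ℚ) (x : ℝ) : ℝ := p.foldr (fun a t => (a : ℝ) + x * t) 0

def pB (p : List ℚ) (x : Bl) : Bl := p.foldr (fun a t => (Bl.pt a).add (x.mul t)) (Bl.pt 0)

theorem pB_has (p : List ℚ) {x : ℝ} {X : Bl} (h : X.Has x) : (pB p X).Has (pv p x) := by
  induction p with
  | nil =>
    have := Bl.Has.pt 0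
    simpa [pB, pv] using this
  | cons a p ih => exact (Bl.Has.pt a).add (h.mul ih)

/-- the derivative of a polynomial -/
def dv : List ℚ → ℝ → ℝ
  | [], _ => 0
  | _ :: p, x => pv p x + x * dv p x

def dB : List ℚ → Bl → Bl
  | [], _ => Bl.pt 0
  | _ :: p, x => (pB p x).add (x.mul (dB p x))

theorem dB_has : ∀ (p : List ℚ) {x : ℝ} {X : Bl}, X.Has x → (dB p X).Has (dv p x)
  | [], x, X, _ => by
    have := Bl.Has.pt 0
    simpa [dB, dv] using this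
  | _ :: p, _, _, h => (pB_has p h).add (h.mul (dB_has p h))

theorem pv_der : ∀ (p : List ℚ) (x : ℝ), HasDerivAt (pv p) (dv p x) x
  | [], x => by
    have e : pv [] = fun _ : ℝ => (0 : ℝ) := rfl
    rw [e]
    exact hasDerivAt_const x 0
  | a :: p, x => by
    have e : pv (a :: p) = fun t : ℝ => (a : ℝ) + t * pv p t := rfl
    rw [e]
    have h := ((hasDerivAt_id x).mul (pv_der p x)).const_add (a : ℝ)
    simpa [dv] using h

/-! ### the combinations of the coefficients -/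

open Ex in
/-- `r x` -/
def sq' (r : ℚ) (x : Ex) : Ex := mul (q r) x

open Ex in
/-- the combinations: variables `c, s², k₀ .. k₇, k₀' .. k₇'` -/
def cmE : Fin 26 → Ex :=
  ![sq' (-1) (mul (v 1) (add (mul (v 0) (v 10)) (sq' (3 / 2) (v 2)))),
    mul (v 1) (add (sq' (-1) (mul (mul (v 0) (v 1)) (v 11)))
      (mul (add (sq' 8 (mul (v 0) (v 0))) (sq' (3 / 2) (v 1))) (v 3))),
    add (sq' (-2) (mul (mul (v 0) (v 1)) (v 12)))
      (mul (add (sq' 8 (mul (v 0) (v 0))) (sq' 2 (v 1))) (v 4)),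
    mul (mul (v 1) (v 1)) (add (sq' (-2) (mul (v 0) (v 13))) (sq' (-4) (v 5))),
    mul (mul (v 1) (v 1)) (add (sq' (-2) (mul (mul (v 0) (v 1)) (v 14)))
      (mul (add (sq' 28 (mul (v 0) (v 0))) (sq' 8 (v 1))) (v 6))),
    add (sq' (-1 / 2) (mul (mul (v 0) (v 1)) (v 15))) (mul (mul (v 0) (v 0)) (v 7)),
    add (add (sq' (-1 / 2) (mul (mul (v 0) (v 1)) (v 17))) (sq' (1 / 2) (mul (v 1) (v 8))))
      (mul (add (sq' 3 (mul (v 0) (v 0))) (v 1)) (v 9)),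
    add (sq' (-1 / 2) (mul (mul (v 0) (v 1)) (v 16)))
      (mul (add (sq' 2 (mul (v 0) (v 0))) (sq' (1 / 2) (v 1))) (v 8)),
    add (sq' (-1) (mul (mul (v 0) (v 1)) (v 10)))
      (mul (add (sq' 4 (mul (v 0) (v 0))) (sq' (3 / 2) (v 1))) (v 2)),
    add (add (sq' (-1) (mul (mul (v 0) (v 1)) (v 10)))
      (mul (add (sq' 4 (mul (v 0) (v 0))) (sq' (3 / 2) (v 1))) (v 2))) (q (3 / 2)),
    sq' (-1) (mul (mul (v 1) (v 1)) (add (mul (v 0) (v 11)) (sq' (3 / 2) (v 3)))),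
    add (sq' (-2) (mul (mul (v 0) (v 1)) (v 12)))
      (mul (add (sq' 4 (mul (v 0) (v 0))) (sq' 2 (v 1))) (v 4)),
    mul (v 1) (add (add (sq' (-2) (mul (mul (v 0) (v 1)) (v 13)))
      (mul (add (sq' 20 (mul (v 0) (v 0))) (sq' 8 (v 1))) (v 5)))
      (mul (mul (v 0) (v 0)) (mul (v 2) (v 2)))),
    mul (mul (v 1) (mul (v 1) (v 1))) (add (sq' (-2) (mul (v 0) (v 14))) (sq' (-4) (v 6))),
    add (add (sq' (-1 / 2) (mul (mul (v 0) (v 1)) (v 15)))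
      (mul (add (sq' 2 (mul (v 0) (v 0))) (v 1)) (v 7))) (sq' (1 / 2) (mul (v 1) (v 8))),
    sq' (-1 / 2) (mul (mul (v 0) (v 1)) (v 17)),
    add (sq' (-1 / 2) (mul (mul (v 0) (v 1)) (v 16)))
      (mul (add (mul (v 0) (v 0)) (sq' (1 / 2) (v 1))) (v 8)),
    mul (v 1) (v 2), sq' 2 (mul (v 1) (v 4)), sq' 4 (mul (mul (v 1) (v 1)) (v 5)),
    mul (mul (v 1) (v 1)) (v 3), sq' 2 (mul (v 1) (v 4)), sq' 4 (mul (mul (v 1) (mul (v 1) (v 1))) (v 6)),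
    mul (v 1) (v 7), mul (v 1) (v 9), mul (v 1) (v 8)]

open Pool.Agent.FPX.BTI (u8)

/-- the values of the variables -/
def eR' (k k' : Fin 8 → ℝ → ℝ) (s c : ℝ) : ℕ → ℝ
  | 0 => c
  | 1 => s ^ 2
  | 2 => k 0 c
  | 3 => k 1 c
  | 4 => k 2 c
  | 5 => k 3 c
  | 6 => k 4 c
  | 7 => k 5 c
  | 8 => k 6 c
  | 9 => k 7 c
  | 10 => k' 0 c
  | 11 => k' 1 c
  | 12 => k' 2 c
  | 13 => k' 3 c
  | 14 => k' 4 c
  | 15 => k' 5 c
  | 16 => k' 6 c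
  | 17 => k' 7 c
  | _ => 0

theorem cmE_eq (k k' : Fin 8 → ℝ → ℝ) (s c : ℝ) (τ : ℂ) (i : Fin 26) :
    (cmE i).evR (eR' k k' s c) = cmb (u8 k k' s c τ) i := by
  fin_cases i <;> simp only [cmE, cmb, u8, Ex.evR, sq', eR', Fin.zero_eta, Fin.mk_one, Fin.reduceFinMk,
    Matrix.cons_val] <;> push_cast <;> ring

/-! ### the Boolean of a latitude cell -/

/-- the balls of the variables -/
def eB (P : Fin 8 → List ℚ) (C : Bl) : ℕ → Bl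
  | 0 => C
  | 1 => (Bl.pt 1).add ((Bl.pt (-1)).mul (C.mul C))
  | 2 => pB (P 0) C
  | 3 => pB (P 1) C
  | 4 => pB (P 2) C
  | 5 => pB (P 3) C
  | 6 => pB (P 4) C
  | 7 => pB (P 5) C
  | 8 => pB (P 6) C
  | 9 => pB (P 7) C
  | 10 => dB (P 0) C
  | 11 => dB (P 1) C
  | 12 => dB (P 2) C
  | 13 => dB (P 3) C
  | 14 => dB (P 4) C
  | 15 => dB (P 5) C
  | 16 => dB (P 6) C
  | 17 => dB (P 7) C
  | _ => Bl.pt 0

theorem eB_has (P : Fin 8 → List ℚ) {C : Bl} {s c : ℝ} (h : C.Has c) (hs : s ^ 2 = 1 - c ^ 2) :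
    ∀ i, (eB P C i).Has (eR' (fun j => pv (P j)) (fun j => dv (P j)) s c i)
  | 0 => h
  | 1 => by
    have h1 := (Bl.Has.pt 1).add ((Bl.Has.pt (-1)).mul (h.mul h))
    have e : s ^ 2 = ((1 : ℚ) : ℝ) + ((-1 : ℚ) : ℝ) * (c * c) := by
      push_cast
      rw [hs]
      ring
    show Bl.Has _ (s ^ 2)
    rw [e]
    exact h1
  | 2 => pB_has _ h
  | 3 => pB_has _ h
  | 4 => pB_has _ h
  | 5 => pB_has _ h
  | 6 => pB_has _ h
  | 7 => pB_has _ h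
  | 8 => pB_has _ h
  | 9 => pB_has _ h
  | 10 => dB_has _ h
  | 11 => dB_has _ h
  | 12 => dB_has _ h
  | 13 => dB_has _ h
  | 14 => dB_has _ h
  | 15 => dB_has _ h
  | 16 => dB_has _ h
  | 17 => dB_has _ h
  | n + 18 => by
    have := Bl.Has.pt 0
    simpa [eB, eR'] using this

def yQ (P : Fin 8 → List ℚ) (C : Bl) (i : Fin 26) : ℚ := ((cmE i).evB (eB P C)).ab

/-- the rational version of `nb2` -/
def aQ (y : Fin 26 → ℚ) (ρ ρ' q : ℚ) : ℚ :=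
  (y 0 + y 1) * ρ + (y 2 + y 3 + y 4) * ρ ^ 2 + 5 / 2 * ρ' * (y 20 + (y 21 + y 22) * ρ)
    + (y 5 + y 6 + y 24 + y 7) * q

def bQ' (z : ℚ) (y : Fin 26 → ℚ) (t ρ ρ' q : ℚ) : ℚ :=
  (z + y 10) * ρ + (y 11 + y 12 + y 13) * ρ ^ 2 + 5 / 2 * ρ' * (y 17 + (y 18 + y 19) * ρ)
    + (y 14 + y 15 + y 23 + y 16) * q + t

def nbQ (y : Fin 26 → ℚ) (t ρ ρ' q : ℚ) : ℚ :=
  let A := aQ y ρ ρ' q
  let D := 1 - (3 / 2 * ρ) ^ 2
  ((1 + A + (bQ' (y 8) y t ρ ρ' q + y 23 * ρ) * (3 / 2 * ρ) + y 24 * ρ * (3 / 2 * ρ) ^ 2) / D) ^ 2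
    + (((A + y 24 * ρ) * (3 / 2 * ρ) + bQ' (y 9) y t ρ ρ' q + y 23 * ρ * (3 / 2 * ρ) ^ 2) / D) ^ 2
    + (y 17 + (y 18 + y 19) * ρ + (y 24 * ρ' + y 25 * ρ)) ^ 2
    + (y 20 + (y 21 + y 22) * ρ + (y 23 * ρ' + y 25 * ρ)) ^ 2 + (y 23 + y 24 + y 25) ^ 2 * q

theorem nbQ_cast (y : Fin 26 → ℚ) (t ρ ρ' q : ℚ) :
    ((nbQ y t ρ ρ' q : ℚ) : ℝ) = nb2 (fun i => (y i : ℝ)) t ρ ρ' q := by
  unfold nbQ nb2 bP bQ bG bH bA bB aQ bQ'
  push_cast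
  ring

/-- bound of the part of `ξ` without the first term -/
def pQ (κ : Fin 8 → ℚ) (b S ρ q : ℚ) : ℚ :=
  2 * b * S ^ 3 * κ 1 * ρ + 4 * b * S * κ 2 * ρ ^ 2 + 4 * b * S ^ 3 * κ 3 * ρ ^ 2
    + 4 * b * S ^ 5 * κ 4 * ρ ^ 2 + b * S * κ 5 * q + b * S * κ 6 * q + b * S * κ 7 * q

/-- the data of a cell: its right end, bounds of `|r₃|`, `|r₅|`, `s` -/
structure Cel where
  b : ℚ
  ρ : ℚ
  ρ' : ℚ
  S : ℚ

/-- the moduli of the coefficient functions on the cell -/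
def kQ (P : Fin 8 → List ℚ) (C : Bl) (j : Fin 8) : ℚ := (pB (P j) C).ab

/-- **the check of a cell** `a ≤ c ≤ b` -/
def celOk (P : Fin 8 → List ℚ) (Q N a : ℚ) (d : Cel) : Bool :=
  let C : Bl := ⟨(a + d.b) / 2, (d.b - a) / 2⟩
  let q := Q * (1 - a ^ 2)
  let p := pQ (kQ P C) d.b d.S d.ρ q
  decide (0 ≤ a) && decide (a ≤ d.b) && decide (d.b ≤ 1) && decide (0 ≤ d.ρ) && decide (0 ≤ d.ρ')
    && (decide (6 / 25 ≤ d.ρ) || decide (q ≤ 2 * d.ρ ^ 2)) && decide (q ≤ 2 * d.ρ' ^ 2)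
    && decide (3 / 2 * d.ρ < 1) && decide (0 ≤ d.S) && decide (1 - a ^ 2 ≤ d.S ^ 2)
    && decide (nbQ (yQ P C) (p * (4 * d.b * d.S * kQ P C 0 * d.ρ + p) / 4) d.ρ d.ρ' q ≤ N ^ 2)

open Pool.Agent.FPX.OM7 Pool.Agent.FPX.OMR Pool.Agent.FPX.BTI
open Pool.Agent.FPX.F54 (X1 X2 sF)
open Pool.Agent.FPX.OMS (cF)

open Pool.Agent.FPX.PCO (pe der)

theorem pv_pe (p : List ℚ) : pv p = pe p := by
  induction p with
  | nil => rfl
  | cons a p ih =>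
    funext x
    have e : pv (a :: p) x = (a : ℝ) + x * pv p x := rfl
    rw [e, ih]
    rfl

theorem dv_pe (p : List ℚ) : dv p = pe (der p) := by
  funext x
  have h := pv_der p x
  rw [pv_pe] at h
  exact h.unique (PCO.hasDerivAt_pe p x)

/-- the coefficient functions and their derivatives -/
def kP (P : Fin 8 → List ℚ) (j : Fin 8) : ℝ → ℝ := pe (P j)

def kP' (P : Fin 8 → List ℚ) (j : Fin 8) : ℝ → ℝ := pe (der (P j))

theorem kP_eq (P : Fin 8 → List ℚ) : (fun j => pv (P j)) = kP P := by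
  funext j
  exact pv_pe (P j)

theorem kP_eq' (P : Fin 8 → List ℚ) : (fun j => dv (P j)) = kP' P := by
  funext j
  exact dv_pe (P j)

theorem pb8_le {k : Fin 8 → ℝ → ℝ} {κ : Fin 8 → ℚ} {s c : ℝ} {b S ρ q : ℚ} (hk : ∀ j, |k j c| ≤ (κ j : ℝ))
    (hs0 : 0 ≤ s) (hs : s ≤ S) (hc0 : 0 ≤ c) (hc : c ≤ b) (hρ : (0 : ℝ) ≤ ρ) (hq : (0 : ℝ) ≤ q) :
    pb8 k s c ρ q ≤ ((pQ κ b S ρ q : ℚ) : ℝ) := by
  unfold pb8 pQ
  push_cast
  have hb0 : (0 : ℝ) ≤ b := hc0.trans hc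
  have hS0 : (0 : ℝ) ≤ S := hs0.trans hs
  have s3 : s ^ 3 ≤ (S : ℝ) ^ 3 := pow_le_pow_left₀ hs0 hs 3
  have s5 : s ^ 5 ≤ (S : ℝ) ^ 5 := pow_le_pow_left₀ hs0 hs 5
  have n3 : 0 ≤ s ^ 3 := by positivity
  have n5 : 0 ≤ s ^ 5 := by positivity
  have hρ2 : (0 : ℝ) ≤ (ρ : ℝ) ^ 2 := sq_nonneg _
  have g : ∀ {x X y Y z Z w : ℝ}, 0 ≤ x → x ≤ X → 0 ≤ y → y ≤ Y → 0 ≤ z → z ≤ Z → 0 ≤ w →
      x * y * z * w ≤ X * Y * Z * w := by
    intro x X y Y z Z w h1 h2 h3 h4 h5 h6 h7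
    have hX := h1.trans h2
    have hY := h3.trans h4
    have hZ := h5.trans h6
    gcongr
  have k0 : ∀ j, 0 ≤ |k j c| := fun j => abs_nonneg _
  have e1 := g hc0 hc n3 s3 (k0 1) (hk 1) hρ
  have e2 := g hc0 hc hs0 hs (k0 2) (hk 2) hρ2
  have e3 := g hc0 hc n3 s3 (k0 3) (hk 3) hρ2
  have e4 := g hc0 hc n5 s5 (k0 4) (hk 4) hρ2
  have e5 := g hc0 hc hs0 hs (k0 5) (hk 5) hq
  have e6 := g hc0 hc hs0 hs (k0 6) (hk 6) hq
  have e7 := g hc0 hc hs0 hs (k0 7) (hk 7) hq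
  linarith

/-- **soundness of the check of a cell** -/
theorem celOk_sound {P : Fin 8 → List ℚ} {Q N a : ℚ} {d : Cel} (h : celOk P Q N a d = true) (hQ : 0 ≤ Q)
    {f : ℝ → ℝ} (H : Re f) (ha : (a : ℝ) ≤ cF f) (hb : cF f ≤ (d.b : ℝ)) (hq : q0 f ≤ (Q : ℝ) * X1 f ^ 2) :
    ∃ (u : Fin 28 → ℝ) (y : Fin 26 → ℝ) (t ρ ρ' q : ℝ), DevLe (XIP.B8 (kap (kP P)) (dkap (kP P) (kP' P))) Psi8 u f ∧
      (∀ i, |cmb u i| ≤ y i) ∧ u 0 = 1 ∧ ‖(u 26 + Complex.I * u 27 : ℂ)‖ ≤ t ∧ q0 f ≤ q ∧ 0 ≤ ρ ∧ 0 ≤ ρ' ∧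
      (6 / 25 ≤ ρ ∨ q ≤ 2 * ρ ^ 2) ∧ q ≤ 2 * ρ' ^ 2 ∧ 3 / 2 * ρ < 1 ∧ nb2 y t ρ ρ' q ≤ (N : ℝ) ^ 2 := by
  unfold celOk at h
  simp only [Bool.and_eq_true, Bool.or_eq_true, decide_eq_true_eq] at h
  obtain ⟨⟨⟨⟨⟨⟨⟨⟨⟨⟨a0, ab⟩, b1⟩, r0⟩, r0'⟩, h3⟩, h5⟩, hr⟩, S0⟩, hS⟩, hn⟩ := h
  set C : Bl := ⟨(a + d.b) / 2, (d.b - a) / 2⟩ with hC
  set q : ℚ := Q * (1 - a ^ 2) with hqd
  set p : ℚ := pQ (kQ P C) d.b d.S d.ρ q with hp
  have a0' : (0 : ℝ) ≤ a := by exact_mod_cast a0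
  have S0' : (0 : ℝ) ≤ d.S := by exact_mod_cast S0
  have r0R : (0 : ℝ) ≤ d.ρ := by exact_mod_cast r0
  have hc2 := H.c2
  have hs0 := H.h0
  have hcF : 0 ≤ cF f := H.c0.le
  have hs2 : X1 f ^ 2 = 1 - cF f ^ 2 := by linarith
  have has : X1 f ^ 2 ≤ 1 - (a : ℝ) ^ 2 := by
    rw [hs2]
    have := pow_le_pow_left₀ a0' ha 2
    linarith
  have hSs : X1 f ≤ (d.S : ℝ) := by
    refine (sq_le_sq₀ hs0 S0').1 (has.trans ?_)
    exact_mod_cast hS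
  have hCc : C.Has (cF f) := by
    unfold Bl.Has
    rw [hC]
    push_cast
    rw [abs_le]
    constructor <;> linarith
  have hQ' : (0 : ℝ) ≤ Q := by exact_mod_cast hQ
  have hqq : q0 f ≤ (q : ℝ) := by
    refine hq.trans ?_
    rw [hqd]
    push_cast
    exact mul_le_mul_of_nonneg_left has hQ'
  have q0' : (0 : ℝ) ≤ q := (q0_nn f).trans hqq
  have hk : ∀ j, |kP P j (cF f)| ≤ (kQ P C j : ℝ) := fun j => by
    rw [← kP_eq]
    exact (pB_has (P j) hCc).ab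
  have hr3 : ‖m8 f 0‖ ≤ (d.ρ : ℝ) := by
    rw [m8_0 H]
    rcases h3 with h | h
    · have h' : ((6 / 25 : ℚ) : ℝ) ≤ (d.ρ : ℝ) := by exact_mod_cast h
      have e : ((6 / 25 : ℚ) : ℝ) = 6 / 25 := by norm_num
      exact (r3_le H).trans (e ▸ h')
    · refine (sq_le_sq₀ (norm_nonneg _) r0R).1 ?_
      have h1 := r3_sq H
      have h2 : (q : ℝ) ≤ 2 * (d.ρ : ℝ) ^ 2 := by exact_mod_cast h
      linarith
  have m3 : ‖m8 f 3‖ ≤ (q : ℝ) := by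
    have e : m8 f 3 = ((q0 f : ℝ) : ℂ) := by
      have e1 : m8 f 3 = ∫ t, (CERQ.xT f t : ℂ) ^ 2 ∂(BTN.nf f) := rfl
      rw [e1, BTN.nf_fun H, BTN.xT_fun H]
      unfold q0
      rw [← integral_complex_ofReal]
      congr 1
      funext t
      push_cast
      rfl
    rw [e, Complex.norm_real, Real.norm_eq_abs, abs_of_nonneg (q0_nn f)]
    exact hqq
  have m4 : ‖m8 f 4‖ ≤ (q : ℝ) := by
    rw [show m8 f 4 = OMR.q2 f from BTI.mo4 H]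
    exact (q2_le H).trans hqq
  have hpb : pb8 (kP P) (X1 f) (cF f) d.ρ q ≤ (p : ℝ) := pb8_le hk hs0 hSs hcF hb r0R q0'
  have hpb0 : 0 ≤ pb8 (kP P) (X1 f) (cF f) d.ρ q := by
    unfold pb8
    positivity
  have ht : ‖tau8 (kP P) f (m8 f 0)‖ ≤ ((p * (4 * d.b * d.S * kQ P C 0 * d.ρ + p) / 4 : ℚ) : ℝ) := by
    refine (tau8_mo H (kP P) Psi8 hr3 m3 m4).trans ?_
    push_cast
    have hb0 : (0 : ℝ) ≤ d.b := hcF.trans hb
    have e : 4 * cF f * X1 f * |kP P 0 (cF f)| * d.ρ ≤ 4 * (d.b : ℝ) * d.S * kQ P C 0 * d.ρ := by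
      have := hk 0
      have := abs_nonneg (kP P 0 (cF f))
      gcongr
    have e0 : 0 ≤ 4 * cF f * X1 f * |kP P 0 (cF f)| * (d.ρ : ℝ) := by positivity
    have := mul_le_mul hpb (add_le_add e hpb) (by positivity) (hpb0.trans hpb)
    linarith
  refine ⟨u8 (kP P) (kP' P) (X1 f) (cF f) (tau8 (kP P) f (m8 f 0)), fun i => (yQ P C i : ℝ),
    ((p * (4 * d.b * d.S * kQ P C 0 * d.ρ + p) / 4 : ℚ) : ℝ), d.ρ, d.ρ', q, devLe_B8 H (kP P) (kP' P), ?_, rfl, ?_,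
    hqq, r0R, by exact_mod_cast r0', ?_, by exact_mod_cast h5, ?_, ?_⟩
  · intro i
    rw [← cmE_eq, ← kP_eq, ← kP_eq']
    exact (Ex.sound (eB_has P hCc hs2) (cmE i)).ab
  · have e : ((u8 (kP P) (kP' P) (X1 f) (cF f) (tau8 (kP P) f (m8 f 0)) 26 : ℝ) : ℂ)
        + Complex.I * ((u8 (kP P) (kP' P) (X1 f) (cF f) (tau8 (kP P) f (m8 f 0)) 27 : ℝ) : ℂ)
        = tau8 (kP P) f (m8 f 0) := by
      have e1 : u8 (kP P) (kP' P) (X1 f) (cF f) (tau8 (kP P) f (m8 f 0)) 26 = (tau8 (kP P) f (m8 f 0)).re := rfl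
      have e2 : u8 (kP P) (kP' P) (X1 f) (cF f) (tau8 (kP P) f (m8 f 0)) 27 = (tau8 (kP P) f (m8 f 0)).im := rfl
      rw [e1, e2, mul_comm Complex.I]
      exact Complex.re_add_im _
    rw [e]
    exact ht
  · rcases h3 with h | h
    · left
      have : ((6 / 25 : ℚ) : ℝ) ≤ (d.ρ : ℝ) := by exact_mod_cast h
      have e : ((6 / 25 : ℚ) : ℝ) = 6 / 25 := by norm_num
      rwa [e] at this
    · right
      exact_mod_cast h
  · have : ((3 / 2 * d.ρ : ℚ) : ℝ) < ((1 : ℚ) : ℝ) := by exact_mod_cast hr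
    push_cast at this
    exact this
  · rw [← nbQ_cast]
    exact_mod_cast hn

/-- the cells cover `[a, 1]` -/
def celsOk (P : Fin 8 → List ℚ) (Q N : ℚ) : ℚ → List Cel → Bool
  | a, [] => decide (1 ≤ a)
  | a, d :: l => celOk P Q N a d && celsOk P Q N d.b l

theorem celsOk_sound {P : Fin 8 → List ℚ} {Q N : ℚ} (hQ : 0 ≤ Q) {f : ℝ → ℝ} (H : Re f)
    (hq : q0 f ≤ (Q : ℝ) * X1 f ^ 2) : ∀ (l : List Cel) (a : ℚ), celsOk P Q N a l = true → (a : ℝ) ≤ cF f →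
    (X1 f = 0 → l ≠ []) →
    ∃ (u : Fin 28 → ℝ) (y : Fin 26 → ℝ) (t ρ ρ' q : ℝ), DevLe (XIP.B8 (kap (kP P)) (dkap (kP P) (kP' P))) Psi8 u f ∧
      (∀ i, |cmb u i| ≤ y i) ∧ u 0 = 1 ∧ ‖(u 26 + Complex.I * u 27 : ℂ)‖ ≤ t ∧ q0 f ≤ q ∧ 0 ≤ ρ ∧ 0 ≤ ρ' ∧
      (6 / 25 ≤ ρ ∨ q ≤ 2 * ρ ^ 2) ∧ q ≤ 2 * ρ' ^ 2 ∧ 3 / 2 * ρ < 1 ∧ nb2 y t ρ ρ' q ≤ (N : ℝ) ^ 2
  | [], a, h, ha, h1 => by
    exfalso
    have h0 : (1 : ℝ) ≤ a := by
      have : (1 : ℚ) ≤ a := by simpa [celsOk] using h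
      exact_mod_cast this
    have := H.c2
    have := H.c0
    have hs : X1 f = 0 := by
      have : X1 f ^ 2 ≤ 0 := by nlinarith
      exact pow_eq_zero_iff (two_ne_zero) |>.1 (le_antisymm this (sq_nonneg _))
    exact h1 hs rfl
  | d :: l, a, h, ha, h1 => by
    simp only [celsOk, Bool.and_eq_true] at h
    rcases le_total (cF f) (d.b : ℝ) with hb | hb
    · exact celOk_sound h.1 hQ H ha hb hq
    · rcases eq_or_lt_of_le hb with e | e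
      · exact celOk_sound h.1 hQ H ha e.ge hq
      refine celsOk_sound hQ H hq l d.b h.2 hb fun hs hl => ?_
      have h2 : (1 : ℝ) ≤ d.b := by
        rw [hl] at h
        have : (1 : ℚ) ≤ d.b := by simpa [celsOk] using h.2
        exact_mod_cast this
      have := H.c2
      have := H.c0
      rw [hs] at *
      nlinarith

section final

open Pool.Agent.FPX Pool.Agent.FPX.UMP Pool.Agent.FPX.UMQ Pool.Agent.FPX.UXA
open Pool.Agent.FPX.XIM (xi8 dxi8 St1 St2 dSt1 dSt2 DispS)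

variable {A' B' : ℝ}

/-- **the constant of the start map `xi8` from a list of cells** -/
theorem nB_of_cells {P : Fin 8 → List ℚ} (DS : DispS (xi8 (kap (kP P))) (dxi8 (kap (kP P)) (dkap (kP P) (kP' P))) A' B')
    {Q N : ℚ} {l : List Cel} (hQ : 0 ≤ Q) (hN : 0 ≤ N) (hl : celsOk P Q N 0 l = true)
    (hq : ∀ f, Re f → q0 f ≤ (Q : ℝ) * X1 f ^ 2) :
    ∀ f h k : ℝ → ℝ, Ef f → Var h k →
      ‖(CST.vv (CST.cu ![St1 (xi8 (kap (kP P))), St2 (xi8 (kap (kP P)))] f)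
          (CST.du ![dSt1 (xi8 (kap (kP P))) (dxi8 (kap (kP P)) (dkap (kP P) (kP' P))),
            dSt2 (xi8 (kap (kP P))) (dxi8 (kap (kP P)) (dkap (kP P) (kP' P)))] f h)
        + Complex.I * CST.vv (CST.cu ![St1 (xi8 (kap (kP P))), St2 (xi8 (kap (kP P)))] f)
          (CST.du ![dSt1 (xi8 (kap (kP P))) (dxi8 (kap (kP P)) (dkap (kP P) (kP' P))),
            dSt2 (xi8 (kap (kP P))) (dxi8 (kap (kP P)) (dkap (kP P) (kP' P)))] f k)) / 2‖ ≤ (N : ℝ) := by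
  have hN' : (0 : ℝ) ≤ N := by exact_mod_cast hN
  refine nB_of_dev (XIP.isDev_xi8 DS) (XIP.rotDev_B8 _ _) hN' fun f H => ?_
  refine celsOk_sound hQ H (hq f H) l 0 hl (by push_cast; exact H.c0.le) fun _ h0 => ?_
  rw [h0] at hl
  have h2 : (1 : ℚ) ≤ 0 := by simpa [celsOk] using hl
  exact absurd h2 (by norm_num)

/-- the landed bound: `Q = 961 / 2500` -/
theorem q0_le' (f : ℝ → ℝ) (H : Re f) : q0 f ≤ ((961 / 2500 : ℚ) : ℝ) * X1 f ^ 2 := by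
  refine (q0_le H).trans (le_of_eq ?_)
  push_cast
  ring

end final

end Pool.Agent.FPX.XEN
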