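import Mathlib
import Pool.Agent.FPX.XIR
import Pool.Agent.FPX.BTS
import Pool.Agent.FPX.BTP9

/-
XIN (helper8): size of the displacements `xi8`, `xi12` in the real frame from bounds of the moments of the state, and a
Boolean check on a latitude cell for polynomial coefficients.
-/

open MeasureTheory Set Filter Topology Complex
open scoped ENNReal NNReal ComplexConjugate

noncomputable section

namespace Pool.Agent.FPX.XIN

open Pool.Agent.FPX Pool.Agent.FPX.UMP Pool.Agent.FPX.UXA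
open Pool.Agent.FPX.F54 (X1 X2 X_lt sF)
open Pool.Agent.FPX.OMS (rF cF)
open Pool.Agent.FPX.OMR (Re q0 q2 r3 r5)
open Pool.Agent.FPX.XIM (xi8 xi12 x4)
open Pool.Agent.FPX.BTN (nf ef)
open Pool.Agent.FPX.CERQ (xT)
open Pool.Agent.FPX.BTG (mo)
open Pool.Agent.FPX.BTI (C9 Psi8 kap M9 Mm)
open Pool.Agent.FPX.BU (mup)
open Pool.Agent.FPX.BTQ
open Pool.Agent.FPX.BTS (nnb nnb_sound)

/-- phase correct bound -/
theorem re2 (a b : ℝ) (z : ℂ) : ‖(a : ℂ) * z + b * conj z‖ ≤ max |a + b| |a - b| * ‖z‖ := by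
  set M := max |a + b| |a - b| with hM
  have hM0 : 0 ≤ M := (abs_nonneg _).trans (le_max_left _ _)
  refine (sq_le_sq₀ (norm_nonneg _) (mul_nonneg hM0 (norm_nonneg _))).1 ?_
  have h1 : (a + b) ^ 2 ≤ M ^ 2 := by
    rw [← sq_abs]
    exact pow_le_pow_left₀ (abs_nonneg _) (le_max_left _ _) 2
  have h2 : (a - b) ^ 2 ≤ M ^ 2 := by
    rw [← sq_abs (a - b)]
    exact pow_le_pow_left₀ (abs_nonneg _) (le_max_right _ _) 2
  rw [mul_pow, ← Complex.normSq_eq_norm_sq, ← Complex.normSq_eq_norm_sq, Complex.normSq_apply, Complex.normSq_apply]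
  have e1 : ((a : ℂ) * z + b * conj z).re = (a + b) * z.re := by
    simp
    ring
  have e2 : ((a : ℂ) * z + b * conj z).im = (a - b) * z.im := by
    simp
    ring
  rw [e1, e2]
  nlinarith [mul_le_mul_of_nonneg_right h1 (mul_self_nonneg z.re), mul_le_mul_of_nonneg_right h2 (mul_self_nonneg z.im)]

/-- the bound of `|xi8| / c` -/
def bx (k : Fin 8 → ℝ → ℝ) (s c r q q' : ℝ) : ℝ :=
  2 * s * |k 0 c| * r + 2 * s ^ 3 * |k 1 c| * r + 4 * s * (|k 2 c| + s ^ 2 * |k 3 c| + s ^ 4 * |k 4 c|) * r ^ 2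
    + s * (|k 6 c| * q + max |k 5 c + k 7 c| |k 5 c - k 7 c| * q')

/-- the bound of `|x4| / c` -/
def bx4 (n : Fin 4 → ℝ → ℝ) (s c r p : ℝ) : ℝ :=
  2 * s ^ 3 * |n 0 c| * p + 2 * s ^ 5 * |n 1 c| * p + 4 * s * |n 2 c| * (r * p) + 4 * s * |n 3 c| * (r * p)

variable {f : ℝ → ℝ}

/-- **the size of `xi8`** -/
theorem xi8_le (H : Re f) (k : Fin 8 → ℝ → ℝ) {m : M9} (E : Mm f m) {r q q' : ℝ} (hr : ‖m 0‖ ≤ r) (hq : ‖m 3‖ ≤ q)
    (hq' : ‖m 4‖ ≤ q') : ‖xi8 (kap k) f‖ ≤ bx k (X1 f) (cF f) r q q' * cF f := by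
  have hr0 : 0 ≤ r := (norm_nonneg _).trans hr
  have hq0 : 0 ≤ q := (norm_nonneg _).trans hq
  have hq0' : 0 ≤ q' := (norm_nonneg _).trans hq'
  have hc := H.c0.le
  have h0 := H.h0
  have hM0 : 0 ≤ max |k 5 (cF f) + k 7 (cF f)| |k 5 (cF f) - k 7 (cF f)| := (abs_nonneg _).trans (le_max_left _ _)
  rcases h0.lt_or_eq with hs | hs
  · have e := BTI.re_xi8 (k := k) H hs E
    have nr : ∀ x : ℝ, ‖(x : ℂ)‖ = |x| := fun x => Complex.norm_real x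
    have ac : |cF f| = cF f := abs_of_nonneg hc
    have as : |X1 f| = X1 f := abs_of_nonneg h0
    have n2 : ‖(2 : ℂ)‖ = 2 := by norm_num
    have n4 : ‖(4 : ℂ)‖ = 4 := by norm_num
    have n00 := norm_nonneg (m 0)
    have hr2 : ‖m 0‖ ^ 2 ≤ r ^ 2 := pow_le_pow_left₀ n00 hr 2
    have b0 : ‖(2 : ℂ) * cF f * X1 f * k 0 (cF f) * m 0‖ ≤ 2 * cF f * X1 f * |k 0 (cF f)| * r := by
      simp only [norm_mul, nr, ac, as, n2]
      gcongr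
    have b1 : ‖(2 : ℂ) * cF f * X1 f ^ 3 * k 1 (cF f) * conj (m 0)‖ ≤ 2 * cF f * X1 f ^ 3 * |k 1 (cF f)| * r := by
      simp only [norm_mul, norm_pow, nr, ac, as, n2, Complex.norm_conj]
      gcongr
    have b2 : ‖(4 : ℂ) * cF f * X1 f * k 2 (cF f) * (m 0 * conj (m 0))‖ ≤
        4 * cF f * X1 f * |k 2 (cF f)| * r ^ 2 := by
      simp only [norm_mul, nr, ac, as, n4, Complex.norm_conj]
      rw [← pow_two]
      gcongr
    have b3 : ‖(4 : ℂ) * cF f * X1 f ^ 3 * k 3 (cF f) * m 0 ^ 2‖ ≤ 4 * cF f * X1 f ^ 3 * |k 3 (cF f)| * r ^ 2 := by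
      simp only [norm_mul, norm_pow, nr, ac, as, n4]
      gcongr
    have b4 : ‖(4 : ℂ) * cF f * X1 f ^ 5 * k 4 (cF f) * conj (m 0) ^ 2‖ ≤
        4 * cF f * X1 f ^ 5 * |k 4 (cF f)| * r ^ 2 := by
      simp only [norm_mul, norm_pow, nr, ac, as, n4, Complex.norm_conj]
      gcongr
    have b57 : ‖(cF f : ℂ) * X1 f * k 5 (cF f) * m 4 + cF f * X1 f * k 7 (cF f) * conj (m 4)‖ ≤
        cF f * X1 f * (max |k 5 (cF f) + k 7 (cF f)| |k 5 (cF f) - k 7 (cF f)| * q') := by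
      have e1 : (cF f : ℂ) * X1 f * k 5 (cF f) * m 4 + cF f * X1 f * k 7 (cF f) * conj (m 4) =
          (cF f : ℂ) * X1 f * ((k 5 (cF f) : ℂ) * m 4 + k 7 (cF f) * conj (m 4)) := by ring
      rw [e1, norm_mul, norm_mul, nr, nr, ac, as]
      refine mul_le_mul_of_nonneg_left ?_ (by positivity)
      exact (re2 _ _ _).trans (mul_le_mul_of_nonneg_left hq' hM0)
    have b6 : ‖(cF f : ℂ) * X1 f * k 6 (cF f) * m 3‖ ≤ cF f * X1 f * |k 6 (cF f)| * q := by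
      simp only [norm_mul, nr, ac, as]
      gcongr
    have e2 : xi8 (kap k) f = 2 * cF f * X1 f * k 0 (cF f) * m 0 + (2 * cF f * X1 f ^ 3 * k 1 (cF f) * conj (m 0)
        + (4 * cF f * X1 f * k 2 (cF f) * (m 0 * conj (m 0)) + (4 * cF f * X1 f ^ 3 * k 3 (cF f) * m 0 ^ 2
        + (4 * cF f * X1 f ^ 5 * k 4 (cF f) * conj (m 0) ^ 2 + (cF f * X1 f * k 6 (cF f) * m 3
        + (cF f * X1 f * k 5 (cF f) * m 4 + cF f * X1 f * k 7 (cF f) * conj (m 4))))))) := by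
      rw [e]
      ring
    rw [e2]
    have c6 := (norm_add_le ((cF f : ℂ) * X1 f * k 6 (cF f) * m 3)
      ((cF f : ℂ) * X1 f * k 5 (cF f) * m 4 + cF f * X1 f * k 7 (cF f) * conj (m 4))).trans (add_le_add b6 b57)
    have c4 := (norm_add_le ((4 : ℂ) * cF f * X1 f ^ 5 * k 4 (cF f) * conj (m 0) ^ 2) _).trans (add_le_add b4 c6)
    have c3 := (norm_add_le ((4 : ℂ) * cF f * X1 f ^ 3 * k 3 (cF f) * m 0 ^ 2) _).trans (add_le_add b3 c4)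
    have c2 := (norm_add_le ((4 : ℂ) * cF f * X1 f * k 2 (cF f) * (m 0 * conj (m 0))) _).trans (add_le_add b2 c3)
    have c1 := (norm_add_le ((2 : ℂ) * cF f * X1 f ^ 3 * k 1 (cF f) * conj (m 0)) _).trans (add_le_add b1 c2)
    have c0 := (norm_add_le ((2 : ℂ) * cF f * X1 f * k 0 (cF f) * m 0) _).trans (add_le_add b0 c1)
    refine c0.trans (le_of_eq ?_)
    unfold bx
    ring
  · rw [(BTI.z_l8 (k := k) (k' := k) H hs.symm).1, norm_zero]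
    unfold bx
    positivity

/-- **the size of `xi12`** -/
theorem xi12_le (H : Re f) (k : Fin 8 → ℝ → ℝ) (n : Fin 4 → ℝ → ℝ) {m : M9} (E : Mm f m)
    (h5 : (X1 f : ℂ) * SYS.CE 5 f = 2 * cF f * m 1) {r p q q' : ℝ} (hr : ‖m 0‖ ≤ r) (hp : ‖m 1‖ ≤ p) (hq : ‖m 3‖ ≤ q)
    (hq' : ‖m 4‖ ≤ q') : ‖xi12 (kap k) (mup n) f‖ ≤
      (bx k (X1 f) (cF f) r q q' + bx4 n (X1 f) (cF f) r p) * cF f := by
  have hr0 : 0 ≤ r := (norm_nonneg _).trans hr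
  have hp0 : 0 ≤ p := (norm_nonneg _).trans hp
  have hq0 : 0 ≤ q := (norm_nonneg _).trans hq
  have hq0' : 0 ≤ q' := (norm_nonneg _).trans hq'
  have hc := H.c0.le
  have h0 := H.h0
  have hM0 : 0 ≤ max |k 5 (cF f) + k 7 (cF f)| |k 5 (cF f) - k 7 (cF f)| := (abs_nonneg _).trans (le_max_left _ _)
  rcases h0.lt_or_eq with hs | hs
  · have h1 := xi8_le H k E hr hq hq'
    have h2 := BU.x4_le H hs n E h5 hr hp
    unfold xi12
    refine (norm_add_le _ _).trans ((add_le_add h1 h2).trans (le_of_eq ?_))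
    unfold bx4
    ring
  · rw [(BU.z_l12 (k := k) (k' := k) (n := n) (n' := n) H hs.symm).1, norm_zero]
    unfold bx bx4
    positivity

/-! ### the moments of the state -/

theorem m3_eq (H : Re f) : mo (C9 Psi8) (nf f) (xT f) (ef f) 3 = ((q0 f : ℝ) : ℂ) := by
  unfold q0
  rw [BTI.xR_eq H.hf H.h0 H.h2, BTI.vR_eq H.h2, ← integral_complex_ofReal]
  show ∫ t, (xT f t : ℂ) ^ 2 ∂(nf f) = _
  congr 1
  funext t
  push_cast
  ring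

theorem q0_nn (f : ℝ → ℝ) : 0 ≤ q0 f := by
  unfold q0
  exact integral_nonneg fun t => sq_nonneg _

theorem h5_mo (H : Re f) : (X1 f : ℂ) * SYS.CE 5 f = 2 * cF f * mo (C9 Psi8) (nf f) (xT f) (ef f) 1 := by
  have h := H.c5
  rw [BTI.r5_eq (Ψ := Psi8) H.hf H.h0 H.h2] at h
  exact h

theorem xi8_size (H : Re f) (k : Fin 8 → ℝ → ℝ) {r q q' : ℝ} (hr : ‖r3 f‖ ≤ r) (hq : q0 f ≤ q) (hq' : ‖q2 f‖ ≤ q') :
    ‖xi8 (kap k) f‖ ≤ bx k (X1 f) (cF f) r q q' * cF f := by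
  refine xi8_le H k (BTI.mm_mo Psi8 H) ?_ ?_ ?_
  · rw [← BTI.r3_eq H.hf H.h0 H.h2]
    exact hr
  · rw [m3_eq H, Complex.norm_real, Real.norm_eq_abs, abs_of_nonneg (q0_nn f)]
    exact hq
  · rw [BTI.mo4 H]
    exact hq'

theorem xi12_size (H : Re f) (k : Fin 8 → ℝ → ℝ) (n : Fin 4 → ℝ → ℝ) {r p q q' : ℝ} (hr : ‖r3 f‖ ≤ r)
    (hp : ‖r5 f‖ ≤ p) (hq : q0 f ≤ q) (hq' : ‖q2 f‖ ≤ q') :
    ‖xi12 (kap k) (mup n) f‖ ≤ (bx k (X1 f) (cF f) r q q' + bx4 n (X1 f) (cF f) r p) * cF f := by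
  refine xi12_le H k n (BTI.mm_mo Psi8 H) (h5_mo H) ?_ ?_ ?_ ?_
  · rw [← BTI.r3_eq H.hf H.h0 H.h2]
    exact hr
  · rw [← BTI.r5_eq H.hf H.h0 H.h2]
    exact hp
  · rw [m3_eq H, Complex.norm_real, Real.norm_eq_abs, abs_of_nonneg (q0_nn f)]
    exact hq
  · rw [BTI.mo4 H]
    exact hq'

/-! ### polynomial coefficients on a latitude cell -/

/-- `|P| ≤ K` on `[a, b]` -/
def ab (P : List ℚ) (K a b : ℚ) (n : ℕ) : Bool := nnb (padd [K] (psm (-1) P)) a b n && nnb (padd [K] P) a b n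

theorem ab_sound {P : List ℚ} {K a b : ℚ} {n : ℕ} (hab : a < b) (H : ab P K a b n = true) {c : ℝ}
    (hc : c ∈ Icc (a : ℝ) b) : |pe P c| ≤ K := by
  unfold ab at H
  rw [Bool.and_eq_true] at H
  have h1 := nnb_sound n hab H.1 hc
  have h2 := nnb_sound n hab H.2 hc
  rw [pe_padd, pe_psm] at h1
  rw [pe_padd] at h2
  simp only [pe_cons, pe_nil] at h1 h2
  push_cast at h1 h2
  rw [abs_le]
  constructor <;> linarith

/-- the data of the size check on a cell: `[a, b]`, `S ≥ s`, bounds of the moments, bounds `K` of `|k_j|` (`K 5` is the bound of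
`|k₅ ± k₇|`, `K 7` is not used), bounds `L` of `|n_j|`, the size `A` -/
structure Sc where
  a : ℚ
  b : ℚ
  S : ℚ
  r : ℚ
  p : ℚ
  q : ℚ
  q' : ℚ
  n : ℕ
  K : Fin 8 → ℚ
  L : Fin 4 → ℚ
  A : ℚ

/-- the bound of the size -/
def Sc.bd (C : Sc) : ℚ :=
  2 * C.S * C.K 0 * C.r + 2 * C.S ^ 3 * C.K 1 * C.r + 4 * C.S * (C.K 2 + C.S ^ 2 * C.K 3 + C.S ^ 4 * C.K 4) * C.r ^ 2
    + C.S * (C.K 6 * C.q + C.K 5 * C.q')

def Sc.bd4 (C : Sc) : ℚ :=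
  2 * C.S ^ 3 * C.L 0 * C.p + 2 * C.S ^ 5 * C.L 1 * C.p + 4 * C.S * C.L 2 * (C.r * C.p) + 4 * C.S * C.L 3 * (C.r * C.p)

/-- the check of the size of `xi8` -/
def Sc.ok8 (C : Sc) (k : Fin 8 → List ℚ) : Bool :=
  decide (0 ≤ C.a) && decide (C.a < C.b) && decide (0 ≤ C.S) && decide (1 - C.a ^ 2 ≤ C.S ^ 2) && decide (0 ≤ C.r)
    && decide (0 ≤ C.q) && decide (0 ≤ C.q') && ab (k 0) (C.K 0) C.a C.b C.n && ab (k 1) (C.K 1) C.a C.b C.n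
    && ab (k 2) (C.K 2) C.a C.b C.n && ab (k 3) (C.K 3) C.a C.b C.n && ab (k 4) (C.K 4) C.a C.b C.n
    && ab (k 6) (C.K 6) C.a C.b C.n && ab (padd (k 5) (k 7)) (C.K 5) C.a C.b C.n
    && ab (padd (k 5) (psm (-1) (k 7))) (C.K 5) C.a C.b C.n

/-- the check of the parts of `xi12` -/
def Sc.ok4 (C : Sc) (n : Fin 4 → List ℚ) : Bool :=
  decide (0 ≤ C.p) && ab (n 0) (C.L 0) C.a C.b C.n && ab (n 1) (C.L 1) C.a C.b C.n
    && ab (n 2) (C.L 2) C.a C.b C.n && ab (n 3) (C.L 3) C.a C.b C.n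

/-- the last condition -/
def Sc.fin (C : Sc) (B : ℚ) : Bool := decide (0 ≤ C.A) && decide (B ≤ C.A) && decide (C.A * C.S + C.A ^ 2 * C.b ^ 2 / 4 < 1)

theorem s_le {C : Sc} (hS : 0 ≤ C.S) (h : 1 - C.a ^ 2 ≤ C.S ^ 2) (ha : 0 ≤ C.a) (H : Re f)
    (hc : cF f ∈ Icc (C.a : ℝ) C.b) : X1 f ≤ C.S := by
  have hS' : (0 : ℝ) ≤ C.S := by exact_mod_cast hS
  have h' : 1 - (C.a : ℝ) ^ 2 ≤ (C.S : ℝ) ^ 2 := by exact_mod_cast h
  have ha' : (0 : ℝ) ≤ C.a := by exact_mod_cast ha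
  refine (sq_le_sq₀ H.h0 hS').1 ?_
  have h2 := H.c2
  have h3 : (C.a : ℝ) ^ 2 ≤ cF f ^ 2 := pow_le_pow_left₀ ha' hc.1 2
  linarith

theorem bx_le {C : Sc} {k : Fin 8 → List ℚ} (h : C.ok8 k = true) (H : Re f) (hc : cF f ∈ Icc (C.a : ℝ) C.b) :
    bx (fun j c => pe (k j) c) (X1 f) (cF f) C.r C.q C.q' ≤ ((C.bd : ℚ) : ℝ) ∧ X1 f ≤ C.S := by
  unfold Sc.ok8 at h
  simp only [Bool.and_eq_true, decide_eq_true_eq] at h
  obtain ⟨⟨⟨⟨⟨⟨⟨⟨⟨⟨⟨⟨⟨⟨ha, hab⟩, hS⟩, hs⟩, hr⟩, hq⟩, hq'⟩, h0⟩, h1⟩, h2⟩, h3⟩, h4⟩, h6⟩, h5⟩, h7⟩ := h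
  have es := s_le hS hs ha H hc
  have hS' : (0 : ℝ) ≤ C.S := by exact_mod_cast hS
  have hr' : (0 : ℝ) ≤ C.r := by exact_mod_cast hr
  have hq1 : (0 : ℝ) ≤ C.q := by exact_mod_cast hq
  have hq2 : (0 : ℝ) ≤ C.q' := by exact_mod_cast hq'
  have e0 := ab_sound hab h0 hc
  have e1 := ab_sound hab h1 hc
  have e2 := ab_sound hab h2 hc
  have e3 := ab_sound hab h3 hc
  have e4 := ab_sound hab h4 hc
  have e6 := ab_sound hab h6 hc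
  have e5 := ab_sound hab h5 hc
  have e7 := ab_sound hab h7 hc
  rw [pe_padd] at e5
  rw [pe_padd, pe_psm] at e7
  have e7' : |pe (k 5) (cF f) - pe (k 7) (cF f)| ≤ C.K 5 := by
    refine le_trans (le_of_eq ?_) e7
    push_cast
    ring_nf
  have e57 : max |pe (k 5) (cF f) + pe (k 7) (cF f)| |pe (k 5) (cF f) - pe (k 7) (cF f)| ≤ C.K 5 := max_le e5 e7'
  refine ⟨?_, es⟩
  have h00 := H.h0
  have n0 := (abs_nonneg _).trans e0
  have n1 := (abs_nonneg _).trans e1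
  have n2 := (abs_nonneg _).trans e2
  have n3 := (abs_nonneg _).trans e3
  have n4 := (abs_nonneg _).trans e4
  have n5 := (abs_nonneg _).trans e5
  have n6 := (abs_nonneg _).trans e6
  unfold bx Sc.bd
  push_cast
  have p3 : X1 f ^ 3 ≤ (C.S : ℝ) ^ 3 := pow_le_pow_left₀ h00 es 3
  have p2 : X1 f ^ 2 ≤ (C.S : ℝ) ^ 2 := pow_le_pow_left₀ h00 es 2
  have p4 : X1 f ^ 4 ≤ (C.S : ℝ) ^ 4 := pow_le_pow_left₀ h00 es 4
  gcongr

theorem bx4_le {C : Sc} {k : Fin 8 → List ℚ} {n : Fin 4 → List ℚ} (h : C.ok8 k = true) (h4 : C.ok4 n = true) (H : Re f)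
    (hc : cF f ∈ Icc (C.a : ℝ) C.b) : bx4 (fun j c => pe (n j) c) (X1 f) (cF f) C.r C.p ≤ ((C.bd4 : ℚ) : ℝ) := by
  have es := (bx_le h H hc).2
  unfold Sc.ok8 at h
  simp only [Bool.and_eq_true, decide_eq_true_eq] at h
  obtain ⟨⟨⟨⟨⟨⟨⟨⟨⟨⟨⟨⟨⟨⟨ha, hab⟩, hS⟩, hs⟩, hr⟩, hq⟩, hq'⟩, -⟩, -⟩, -⟩, -⟩, -⟩, -⟩, -⟩, -⟩ := h
  unfold Sc.ok4 at h4
  simp only [Bool.and_eq_true, decide_eq_true_eq] at h4
  obtain ⟨⟨⟨⟨hp, h0⟩, h1⟩, h2⟩, h3⟩ := h4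
  have hS' : (0 : ℝ) ≤ C.S := by exact_mod_cast hS
  have hr' : (0 : ℝ) ≤ C.r := by exact_mod_cast hr
  have hp' : (0 : ℝ) ≤ C.p := by exact_mod_cast hp
  have e0 := ab_sound hab h0 hc
  have e1 := ab_sound hab h1 hc
  have e2 := ab_sound hab h2 hc
  have e3 := ab_sound hab h3 hc
  have h00 := H.h0
  have n0 := (abs_nonneg _).trans e0
  have n1 := (abs_nonneg _).trans e1
  have n2 := (abs_nonneg _).trans e2
  have n3 := (abs_nonneg _).trans e3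
  unfold bx4 Sc.bd4
  push_cast
  gcongr

/-- **the size of `xi8` on a latitude cell**: the bounds of the moments are hypotheses -/
theorem size8 {C : Sc} {k : Fin 8 → List ℚ} (h : C.ok8 k = true) (hf : C.fin C.bd = true) (H : Re f)
    (hc : cF f ∈ Icc (C.a : ℝ) C.b) (hr : ‖r3 f‖ ≤ C.r) (hq : q0 f ≤ C.q) (hq' : ‖q2 f‖ ≤ C.q') :
    ‖xi8 (kap fun j c => pe (k j) c) f‖ ≤ C.A * cF f ∧ (C.A : ℝ) * X1 f + (C.A : ℝ) ^ 2 * cF f ^ 2 / 4 < 1 := by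
  unfold Sc.fin at hf
  simp only [Bool.and_eq_true, decide_eq_true_eq] at hf
  obtain ⟨⟨hA, hB⟩, hE⟩ := hf
  obtain ⟨h1, h2⟩ := bx_le h H hc
  have hA' : (0 : ℝ) ≤ C.A := by exact_mod_cast hA
  have hB' : ((C.bd : ℚ) : ℝ) ≤ C.A := by exact_mod_cast hB
  have hE' : (C.A : ℝ) * C.S + (C.A : ℝ) ^ 2 * (C.b : ℝ) ^ 2 / 4 < 1 := by exact_mod_cast hE
  have hc0 := H.c0.le
  refine ⟨(xi8_size H _ hr hq hq').trans (mul_le_mul_of_nonneg_right (h1.trans hB') hc0), lt_of_le_of_lt ?_ hE'⟩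
  have := hc.2
  gcongr

/-- **the size of `xi12` on a latitude cell** -/
theorem size12 {C : Sc} {k : Fin 8 → List ℚ} {n : Fin 4 → List ℚ} (h : C.ok8 k = true) (h4 : C.ok4 n = true)
    (hf : C.fin (C.bd + C.bd4) = true) (H : Re f) (hc : cF f ∈ Icc (C.a : ℝ) C.b) (hr : ‖r3 f‖ ≤ C.r) (hp : ‖r5 f‖ ≤ C.p)
    (hq : q0 f ≤ C.q) (hq' : ‖q2 f‖ ≤ C.q') :
    ‖xi12 (kap fun j c => pe (k j) c) (mup fun j c => pe (n j) c) f‖ ≤ C.A * cF f ∧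
      (C.A : ℝ) * X1 f + (C.A : ℝ) ^ 2 * cF f ^ 2 / 4 < 1 := by
  unfold Sc.fin at hf
  simp only [Bool.and_eq_true, decide_eq_true_eq] at hf
  obtain ⟨⟨hA, hB⟩, hE⟩ := hf
  obtain ⟨h1, h2⟩ := bx_le h H hc
  have h3 := bx4_le h h4 H hc
  have hA' : (0 : ℝ) ≤ C.A := by exact_mod_cast hA
  have hB' : ((C.bd : ℚ) : ℝ) + ((C.bd4 : ℚ) : ℝ) ≤ C.A := by exact_mod_cast hB
  have hE' : (C.A : ℝ) * C.S + (C.A : ℝ) ^ 2 * (C.b : ℝ) ^ 2 / 4 < 1 := by exact_mod_cast hE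
  have hc0 := H.c0.le
  refine ⟨(xi12_size H _ _ hr hp hq hq').trans (mul_le_mul_of_nonneg_right (by linarith) hc0), lt_of_le_of_lt ?_ hE'⟩
  have := hc.2
  gcongr

/-! ### several cells -/

/-- the cells of the list cover `(x, 1]` -/
def cov : ℚ → List Sc → Bool
  | x, [] => decide (1 ≤ x)
  | x, C :: l => decide (C.a ≤ x) && cov C.b l

theorem cov_sound : ∀ {l : List Sc} {x : ℚ}, cov x l = true → ∀ {c : ℝ}, (x : ℝ) < c → c ≤ 1 →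
    ∃ C ∈ l, c ∈ Icc (C.a : ℝ) C.b
  | [], x, h, c, hx, h1 => by
    have : (1 : ℝ) ≤ x := by
      have := of_decide_eq_true h
      exact_mod_cast this
    linarith
  | C :: l, x, h, c, hx, h1 => by
    rw [cov, Bool.and_eq_true, decide_eq_true_eq] at h
    rcases le_or_gt c (C.b : ℝ) with hb | hb
    · refine ⟨C, by simp, ?_, hb⟩
      have : (C.a : ℝ) ≤ x := by exact_mod_cast h.1
      linarith
    · obtain ⟨C', hC, h2⟩ := cov_sound h.2 hb h1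
      exact ⟨C', by simp [hC], h2⟩

/-- **the size of `xi8` at all latitudes** -/
theorem size8_all {l : List Sc} {k : Fin 8 → List ℚ} (hl : cov 0 l = true)
    (h : ∀ C ∈ l, C.ok8 k = true ∧ C.fin C.bd = true)
    (hm : ∀ C ∈ l, ∀ f, Re f → cF f ∈ Icc (C.a : ℝ) C.b → ‖r3 f‖ ≤ C.r ∧ q0 f ≤ C.q ∧ ‖q2 f‖ ≤ C.q') :
    ∀ f, Re f → ∃ a : ℝ, ‖xi8 (kap fun j c => pe (k j) c) f‖ ≤ a * cF f ∧ a * X1 f + a ^ 2 * cF f ^ 2 / 4 < 1 := by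
  intro f H
  have h1 : cF f ≤ 1 := by
    have h2 := H.c2
    have h3 := H.c0
    nlinarith [sq_nonneg (X1 f)]
  obtain ⟨C, hC, hc⟩ := cov_sound hl (c := cF f) (by simpa using H.c0) h1
  obtain ⟨m1, m2, m3⟩ := hm C hC f H hc
  exact ⟨C.A, size8 (h C hC).1 (h C hC).2 H hc m1 m2 m3⟩

/-- **the size of `xi12` at all latitudes** -/
theorem size12_all {l : List Sc} {k : Fin 8 → List ℚ} {n : Fin 4 → List ℚ} (hl : cov 0 l = true)
    (h : ∀ C ∈ l, C.ok8 k = true ∧ C.ok4 n = true ∧ C.fin (C.bd + C.bd4) = true)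
    (hm : ∀ C ∈ l, ∀ f, Re f → cF f ∈ Icc (C.a : ℝ) C.b → ‖r3 f‖ ≤ C.r ∧ ‖r5 f‖ ≤ C.p ∧ q0 f ≤ C.q ∧ ‖q2 f‖ ≤ C.q') :
    ∀ f, Re f → ∃ a : ℝ, ‖xi12 (kap fun j c => pe (k j) c) (mup fun j c => pe (n j) c) f‖ ≤ a * cF f ∧
      a * X1 f + a ^ 2 * cF f ^ 2 / 4 < 1 := by
  intro f H
  have h1 : cF f ≤ 1 := by
    have h2 := H.c2
    have h3 := H.c0
    nlinarith [sq_nonneg (X1 f)]
  obtain ⟨C, hC, hc⟩ := cov_sound hl (c := cF f) (by simpa using H.c0) h1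
  obtain ⟨m1, m2, m3, m4⟩ := hm C hC f H hc
  exact ⟨C.A, size12 (h C hC).1 (h C hC).2.1 (h C hC).2.2 H hc m1 m2 m3 m4⟩

end Pool.Agent.FPX.XIN
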