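import Mathlib
import Pool.Agent.FPX.FST
import Pool.Agent.FPX.ASL
import Pool.Agent.FPX.CEP
import Pool.Agent.FPX.XENC
import Pool.Agent.FPX.XCH
import Pool.Agent.FPX.XIN
import Pool.Agent.FPX.XNC

/-
FSX (helper73): the start side for the polynomial data `CEL.Dat` (helper15), start map `xi8`: from the size
condition, the certificate `Cert9` of the list of cells (ASL, helper86) and the bound of the start map to `Raw`,
`RawP`, `StartE`, `StartPh` and, with the closing theorem, to the sharp bound.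
-/

open MeasureTheory Set Filter Topology Complex
open scoped ENNReal NNReal ContDiff ComplexConjugate Manifold

noncomputable section

namespace Pool.Agent.FPX.FSX

open Pool.Agent.FPX Pool.Agent.FPX.UMP Pool.Agent.FPX.UMQ Pool.Agent.EWD Pool.Agent.FPX.UXA
  Pool.Agent.FPM Pool.Agent.FPX.XCO Pool.Agent.FPX.VTB Pool.Agent.FPX.ASX
open Pool.Agent.FPX.F54 (X1 X2)
open Pool.Agent.FPX.CST (Sys cu du)
open Pool.Agent.FPX.OMR (Re q0)
open Pool.Agent.FPX.OM7 (devK)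
open Pool.Agent.FPX.OMG (DevK Cof9 CofH Cert9 CertAt9 certH_of_9 isDevK_of)
open Pool.Agent.FPX.XIM (Rad xi8 dxi8 DispS St1 St2 dSt1 dSt2)
open Pool.Agent.FPX.XIP (B8)
open Pool.Agent.FPX.BTI (kap dkap)
open Pool.Agent.FPX.CEL (Dat)
open Pool.Agent.FPX.WPP (okW iW)
open Pool.Agent.FPX.ASL (WL contDiffOn_WL continuousOn_WL WL_ge)
open Pool.Agent.FPX.FST

/-- the start map of the data -/
def Phi (D : Dat) : Fin (0 + 2) → (ℝ → ℝ) → ℝ := ![St1 (xi8 (kap D.kk)), St2 (xi8 (kap D.kk))]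

/-- its derivative -/
def dPhi (D : Dat) : Fin (0 + 2) → (ℝ → ℝ) → (ℝ → ℝ) → ℝ :=
  ![dSt1 (xi8 (kap D.kk)) (dxi8 (kap D.kk) (dkap D.kk D.kk')), dSt2 (xi8 (kap D.kk)) (dxi8 (kap D.kk) (dkap D.kk D.kk'))]

/-- the deviation -/
abbrev Bx (D : Dat) : OM7.Dev := B8 (kap D.kk) (dkap D.kk D.kk')

/-- the size condition -/
def SzD (D : Dat) : Prop := ∀ f, Re f → Sz (xi8 (kap D.kk)) f

/-- the bound of the start map -/
def NB (D : Dat) (N : ℝ) : Prop := ∀ f h k : ℝ → ℝ, Ef f → Var h k →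
  ‖(CST.vv (cu (Phi D) f) (du (dPhi D) f h) + I * CST.vv (cu (Phi D) f) (du (dPhi D) f k)) / 2‖ ≤ N

variable {D : Dat}

theorem dispS (H : SzD D) : ∃ A B, DispS (xi8 (kap D.kk)) (dxi8 (kap D.kk) (dkap D.kk D.kk')) A B := by
  obtain ⟨G, G', h⟩ := CEP.rad D
  exact dispS8 h H

/-- **the start map of the data** -/
theorem smap (H : SzD D) : SMap (Phi D) (dPhi D) (devK (Bx D)) := by
  obtain ⟨A, B, DS⟩ := dispS H
  exact smap8 DS

/-- **the size condition from the bound `q₀ ≤ Q s²`**, one Boolean per cell of XIN -/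
theorem szD_of {Q : ℚ} (hQ : 0 ≤ Q) (hq : ∀ f, Re f → q0 f ≤ (Q : ℝ) * X1 f ^ 2) {l : List XIN.Sc}
    (hl : XIN.cov 0 l = true) (h : ∀ C ∈ l, C.ok8 D.k = true ∧ C.fin C.bd = true ∧
      decide (Q * C.S ^ 2 ≤ C.q ∧ C.q ≤ C.q' ∧ 0 ≤ C.r ∧ (6 / 25 ≤ C.r ∨ C.q ≤ 2 * C.r ^ 2)) = true) : SzD D := by
  refine XIN.size8_all hl (fun C hC => ⟨(h C hC).1, (h C hC).2.1⟩) fun C hC f H hc => ?_
  obtain ⟨k1, -, k3⟩ := h C hC
  obtain ⟨d1, d2, d3, d4⟩ := of_decide_eq_true k3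
  have hS : X1 f ≤ (C.S : ℝ) := (XIN.bx_le k1 H hc).2
  have rQ : (0 : ℝ) ≤ Q := by exact_mod_cast hQ
  have e1 : X1 f ^ 2 ≤ (C.S : ℝ) ^ 2 := pow_le_pow_left₀ H.h0 hS 2
  have e2 : (Q : ℝ) * (C.S : ℝ) ^ 2 ≤ C.q := by exact_mod_cast d1
  have e3 : q0 f ≤ C.q := ((hq f H).trans (mul_le_mul_of_nonneg_left e1 rQ)).trans e2
  have e4 : (C.q : ℝ) ≤ C.q' := by exact_mod_cast d2
  refine ⟨?_, e3, (XEN.q2_le H).trans (e3.trans e4)⟩
  rcases d4 with d4 | d4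
  · have r1 : ((6 / 25 : ℚ) : ℝ) ≤ C.r := by exact_mod_cast d4
    have := XEN.r3_le H
    push_cast at r1
    linarith
  · have r1 : (C.q : ℝ) ≤ 2 * (C.r : ℝ) ^ 2 := by exact_mod_cast d4
    have r2 : (0 : ℝ) ≤ C.r := by exact_mod_cast d3
    have := XEN.r3_sq H
    exact (sq_le_sq₀ (norm_nonneg _) r2).1 (by linarith)

theorem kk_eq (D : Dat) : D.kk = XEN.kP D.k := by
  funext j c
  exact (PCO.pe_eq _ _).symm

theorem kk'_eq (D : Dat) : D.kk' = XEN.kP' D.k := by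
  funext j c
  have h1 : HasDerivAt (BTQ.pe (D.k j)) (BTQ.pe (CEL.pd (D.k j)) c) c := CEL.hasDerivAt_pe _ _
  have e : BTQ.pe (D.k j) = PCO.pe (D.k j) := funext fun c => (PCO.pe_eq _ c).symm
  rw [e] at h1
  exact h1.unique (PCO.hasDerivAt_pe _ _)

/-- **the bound of the start map from the list of cells of XENC** -/
theorem nB_cells (H : SzD D) {Q N : ℚ} {l : List XEN.Cel} (hQ : 0 ≤ Q) (hN : 0 ≤ N)
    (hl : XEN.celsOk D.k Q N 0 l = true) (hq : ∀ f, Re f → q0 f ≤ (Q : ℝ) * X1 f ^ 2) : NB D N := by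
  obtain ⟨A, B, DS⟩ := dispS H
  unfold NB Phi dPhi
  rw [kk_eq, kk'_eq] at DS ⊢
  exact XEN.nB_of_cells DS hQ hN hl hq

/-- **the bound of the start map from certificates with zero forms** -/
theorem nB_cert (H : SzD D) {μ T N : ℚ} (hμ : 0 < μ) (hN : 0 ≤ N) (hT : T ≤ 2 * μ * N ^ 2)
    (C : ∀ f, Re f → CertAt9 (devK (Bx D)) (fun _ => 0) (XNC.dz D.k).cof μ T f) : NB D N := by
  obtain ⟨A, B, DS⟩ := dispS H
  exact XNC.nB_of_cells (k := D.k) (XIP.isDev_xi8 DS) hμ hN hT C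

/-- the bound from the real states -/
theorem nB_of_BdR (H : SzD D) {N : ℝ} (hN : 0 ≤ N) (h : BdR (devK (Bx D)) N) : NB D N := nB_real (smap H) hN h

/-! ### certificates -/

theorem certR_of_cert9 {Bk : DevK} {W : ℝ → ℝ} {F : Cof9} {μ T : ℝ} (H : Cert9 Bk W F μ T) :
    CertR Bk W ⟨F, fun _ => 0, fun _ => 0⟩ μ T := fun f hf => certH_of_9 H f hf.hf

/-- the coefficient functions as an element of the class OMH -/
def cofH (D : Dat) : CofH := ⟨D.cof, fun _ => 0, fun _ => 0⟩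

theorem smH (D : Dat) : (cofH D).Sm := OMG.Cof9.Sm.toH (CEP.sm D)

theorem boH (D : Dat) : (cofH D).Bo := OMG.Cof9.Bo.toH (CEP.bo D)

variable {L : List (ℚ × List ℚ)} {m : List ℚ}

/-- the inequality for the raw map, one row -/
theorem raw1 (H : SzD D) (hk : okW 0 L m = true) {μ T : ℝ} (C : Cert9 (devK (Bx D)) (WL L m) D.cof μ T) :
    Raw (Phi D) μ (WL L m 0) T := by
  obtain ⟨K, L', S'⟩ := (smap H).sys
  exact OMG.raw9_Raw S' (smap H).dev (contDiffOn_WL hk) (continuousOn_WL hk) (CEP.sm D) (CEP.bo D) C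

/-- the same with a function of the deviation, two rows -/
theorem raw2 (H : SzD D) (hk : okW 0 L m = true) {μ μ₂ t T : ℝ} (C : Cert9 (devK (Bx D)) (WL L m) D.cof μ T)
    (C2 : Cert9 (devK (Bx D)) (WL L m) D.cof μ₂ (T + t)) : RawP (Phi D) (psi2 μ μ₂ t) (WL L m 0) T := by
  obtain ⟨K, L', S'⟩ := (smap H).sys
  exact OMG.raw9P2 S' (smap H).dev (contDiffOn_WL hk) (continuousOn_WL hk) (CEP.sm D) (CEP.bo D) C C2

/-- **the start map, `φ = id`** -/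
theorem startE (H : SzD D) (hk : okW 0 L m = true) {μ T : ℝ} (hμ : 0 < μ) (hT : 0 ≤ T)
    (C : Cert9 (devK (Bx D)) (WL L m) D.cof μ T) {N : ℝ} (hN0 : 0 ≤ N) (hN : NB D N) {c₀ : ℝ} (hc₀ : 0 ≤ c₀)
    (hN1 : N < Real.exp c₀) : StartE 2 (2 * Real.pi * (T - WL L m 0) / μ) c₀ := by
  obtain ⟨K, L', S'⟩ := (smap H).sys
  exact startE_of_raw S' hμ hT (raw1 H hk C) hN0 hN hc₀ hN1

/-- **the start map with charges over all measurable sets**, two rows -/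
theorem startR (H : SzD D) (hk : okW 0 L m = true) {μ μ₂ t T : ℝ} (hμ : 0 < μ) (hT : 0 ≤ T)
    (C : Cert9 (devK (Bx D)) (WL L m) D.cof μ T) (C2 : Cert9 (devK (Bx D)) (WL L m) D.cof μ₂ (T + t))
    {N : ℝ} (hN0 : 0 ≤ N) (hN : NB D N) {c₀ : ℝ} (hc₀ : 0 ≤ c₀) (hN1 : N < Real.exp c₀) :
    StartR (μ₂ / μ - 1) (t / μ) 2 (2 * Real.pi * (T - WL L m 0) / μ) c₀ := by
  obtain ⟨K, L', S'⟩ := (smap H).sys
  exact startR_of_raw2 S' hμ hT (raw2 H hk C C2) hN0 hN hc₀ hN1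

/-- **the start map for a penalty**, two rows -/
theorem startPh (H : SzD D) (hk : okW 0 L m = true) {φ : ℝ → ℝ} (hφ : Continuous φ) {μ μ₂ t T : ℝ} (hμ : 0 < μ)
    (hT : 0 ≤ T) (C : Cert9 (devK (Bx D)) (WL L m) D.cof μ T) (C2 : Cert9 (devK (Bx D)) (WL L m) D.cof μ₂ (T + t))
    {N : ℝ} (hN0 : 0 ≤ N) (hN : NB D N) {c₀ : ℝ} (hc₀ : 0 ≤ c₀) (hN1 : N < Real.exp c₀)
    (hφψ : ∀ x, 0 ≤ x → x ≤ 2 * Real.exp c₀ ^ 2 → μ * φ x ≤ psi2 μ μ₂ t x) :
    StartPh φ 2 (2 * Real.pi * (T - WL L m 0) / μ) c₀ := by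
  obtain ⟨K, L', S'⟩ := (smap H).sys
  exact startPh_of_raw S' hφ hμ hT (raw2 H hk C C2) hN0 hN hc₀ hN1 (fun x hx => psi2_nonneg hμ.le hx) hφψ

section final

variable {lφ : List (ℚ × ℚ)} {μ μ₂ t T w ms x₁ xm N c₀ X : ℚ}

/-- **the sharp bound, one certificate, `φ = id`** -/
theorem two_pi_id (H : SzD D) (hk : okW 0 L m = true) (hT : 0 ≤ T)
    (C : Cert9 (devK (Bx D)) (WL L m) D.cof μ T) (hN : NB D N) (hw : w ≤ iW 0 L m)
    (hCl : Closes (fun x => x) c₀ X) (hxs : xsOk μ T w X = true) (hN1 : expOk N c₀ = true)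
    (M : Type) [MetricSpace M] [CompactSpace M] [ChartedSpace (EuclideanHalfSpace 2) M]
    [Pool.Agent.H74.Surf.RiemannianSpace (𝓡∂ 2) M]
    (horient : Pool.Agent.H74.Surf.Orientable (𝓡∂ 2) M) (σ : Pool.Agent.H74.Surf.S1 → M)
    (hσ : Pool.Agent.H74.Surf.IsometricFilling (𝓡∂ 2) σ) :
    ENNReal.ofReal (2 * Real.pi) ≤ Pool.Agent.H74.Surf.area M := by
  obtain ⟨K, L', S'⟩ := (smap H).sys
  exact two_pi_HI S' (smap H).dev (contDiffOn_WL hk) (continuousOn_WL hk) (smH D) (boH D) hT (certH_of_9 C) hN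
    (WL_ge hk hw) hCl hxs hN1 M horient σ hσ

/-- **the sharp bound, one certificate, the penalty of the table** -/
theorem two_pi_1 (H : SzD D) (hk : okW 0 L m = true) (hφ : qOk 1 lφ = true) (hT : 0 ≤ T)
    (C : Cert9 (devK (Bx D)) (WL L m) D.cof μ T) (hN : NB D N) (hw : w ≤ iW 0 L m)
    (hCl : Closes (pkG 0 1 (clQ lφ)) c₀ X) (hxs : xsOk (μ / ms) T w X = true)
    (hph : phOk ms c₀ xm lφ = true) (hN1 : expOk N c₀ = true)
    (M : Type) [MetricSpace M] [CompactSpace M] [ChartedSpace (EuclideanHalfSpace 2) M]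
    [Pool.Agent.H74.Surf.RiemannianSpace (𝓡∂ 2) M]
    (horient : Pool.Agent.H74.Surf.Orientable (𝓡∂ 2) M) (σ : Pool.Agent.H74.Surf.S1 → M)
    (hσ : Pool.Agent.H74.Surf.IsometricFilling (𝓡∂ 2) σ) :
    ENNReal.ofReal (2 * Real.pi) ≤ Pool.Agent.H74.Surf.area M := by
  obtain ⟨K, L', S'⟩ := (smap H).sys
  exact two_pi_H S' (smap H).dev (contDiffOn_WL hk) (continuousOn_WL hk) (smH D) (boH D) hφ hT (certH_of_9 C) hN
    (WL_ge hk hw) hCl hxs hph hN1 M horient σ hσ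

/-- **the sharp bound, two certificates, the penalty of the table** -/
theorem two_pi_2 (H : SzD D) (hk : okW 0 L m = true) (hφ : qOk 1 lφ = true) (hT : 0 ≤ T)
    (C : Cert9 (devK (Bx D)) (WL L m) D.cof μ T) (C2 : Cert9 (devK (Bx D)) (WL L m) D.cof μ₂ (T + t))
    (hN : NB D N) (hw : w ≤ iW 0 L m)
    (hCl : Closes (pkG 0 1 (clQ lφ)) c₀ X) (hxs : xsOk μ T w X = true)
    (hps : psOk μ μ₂ t c₀ x₁ xm lφ = true) (hN1 : expOk N c₀ = true)
    (M : Type) [MetricSpace M] [CompactSpace M] [ChartedSpace (EuclideanHalfSpace 2) M]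
    [Pool.Agent.H74.Surf.RiemannianSpace (𝓡∂ 2) M]
    (horient : Pool.Agent.H74.Surf.Orientable (𝓡∂ 2) M) (σ : Pool.Agent.H74.Surf.S1 → M)
    (hσ : Pool.Agent.H74.Surf.IsometricFilling (𝓡∂ 2) σ) :
    ENNReal.ofReal (2 * Real.pi) ≤ Pool.Agent.H74.Surf.area M := by
  obtain ⟨K, L', S'⟩ := (smap H).sys
  exact two_pi_H2 S' (smap H).dev (contDiffOn_WL hk) (continuousOn_WL hk) (smH D) (boH D) hφ hT (certH_of_9 C)
    (certH_of_9 C2) hN (WL_ge hk hw) hCl hxs hps hN1 M horient σ hσ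

end final

end Pool.Agent.FPX.FSX
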