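import Mathlib
import Pool.Agent.FPX.XENC
import Pool.Agent.FPX.XIR
import Pool.Agent.FPX.XNC
import Pool.Agent.FPX.BUP

/-
XEND (helper16): the constant of the start map with twelve terms (`Psi12`, class `CH`): kernel with the fifth
harmonics, its `L²` norm, lists of coefficients.
-/

open MeasureTheory Set Filter Topology Complex
open scoped ENNReal NNReal ComplexConjugate

noncomputable section

namespace Pool.Agent.FPX.XEN

open Pool.Agent.FPX Pool.Agent.FPX.UMP Pool.Agent.FPX.UMQ Pool.Agent.FPX.UXA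
open Pool.Agent.FPX.F54 (X1 X2 X_lt vF)
open Pool.Agent.FPX.S54 (YY de mS ME)
open Pool.Agent.FPX.OMB (vm vm_prob)
open Pool.Agent.FPX.CRD (Bm)
open Pool.Agent.FPX.OMS (rF cF)
open Pool.Agent.FPX.SYS (CE)
open Pool.Agent.FPX.OM7 (bm_pow bm_nsq)

/-! ### the fifth harmonics -/

/-- the part with the fifth harmonics -/
def R5 (γ γ' : ℂ) (f : ℝ → ℝ) (t : ℝ) : ℂ := γ * ee f t ^ 5 + γ' * conj (ee f t) ^ 5

variable {f : ℝ → ℝ} {K : ℝ → ℂ}

theorem bm_R5 (γ γ' : ℂ) (hf : Ef f) : Bm (R5 γ γ' f) :=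
  ((Bm.const _).mul (bm_pow (bm_ee hf) 5)).add ((Bm.const _).mul (bm_pow (bm_ee hf).conj 5))

theorem lin2 {X : Type*} [MeasurableSpace X] {μ : Measure X} [IsFiniteMeasure μ] {F₁ F₂ : X → ℂ}
    (h₁ : Bm F₁) (h₂ : Bm F₂) (c₁ c₂ : ℂ) :
    ∫ x, (c₁ * F₁ x + c₂ * F₂ x) ∂μ = c₁ * (∫ x, F₁ x ∂μ) + c₂ * (∫ x, F₂ x ∂μ) := by
  rw [integral_add ((Bm.const c₁).mul h₁).int ((Bm.const c₂).mul h₂).int]
  simp only [integral_const_mul]

theorem alg3 {z w : ℂ} (h : z * w = 1) (P Q g g' p q : ℂ) :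
    (P * z + (Q * w + (g * z ^ 3 + g' * w ^ 3))) * (p * w ^ 5 + q * z ^ 5) =
      (g * p + 0) * w ^ 2 + (g' * q) * z ^ 2 + (P * p) * w ^ 4 + (Q * q) * z ^ 4 + (P * q) * z ^ 6 + (Q * p) * w ^ 6
        + ((g * q) * z ^ 8 + (g' * p) * w ^ 8) := by
  have hz : z ≠ 0 := left_ne_zero_of_mul_eq_one h
  obtain rfl : w = z⁻¹ := eq_inv_of_mul_eq_one_right h
  field_simp
  ring

theorem alg4 {z w : ℂ} (h : z * w = 1) (φ φ' ω p q : ℂ) :
    (φ * z ^ 2 + φ' * w ^ 2 + ω) * (p * w ^ 5 + q * z ^ 5) =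
      (φ * p) * w ^ 3 + (φ * q) * z ^ 7 + (φ' * p) * w ^ 7 + (φ' * q) * z ^ 3 + (ω * p) * w ^ 5 + (ω * q) * z ^ 5 := by
  have hz : z ≠ 0 := left_ne_zero_of_mul_eq_one h
  obtain rfl : w = z⁻¹ := eq_inv_of_mul_eq_one_right h
  field_simp
  ring

theorem RR5 (C : Co) (γ γ' : ℂ) (hf : Ef f) :
    ∫ t, C.R f t * conj (R5 γ γ' f t) ∂(vm (X1 f) (X2 f)) = 0 := by
  have := vm_prob (X_lt hf)
  have bE := bm_ee hf
  have e : ∀ t, C.R f t * conj (R5 γ γ' f t) =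
      ((C.g * conj γ + 0) * conj (ee f t) ^ 2 + (C.g' * conj γ') * ee f t ^ 2 + (C.P f * conj γ) * conj (ee f t) ^ 4
        + (C.Q f * conj γ') * ee f t ^ 4 + (C.P f * conj γ') * ee f t ^ 6 + (C.Q f * conj γ) * conj (ee f t) ^ 6)
        + ((C.g * conj γ') * ee f t ^ 8 + (C.g' * conj γ) * conj (ee f t) ^ 8) := fun t => by
    rw [← alg3 (ee_conj hf t)]
    unfold Co.R R5
    simp only [map_add, map_mul, map_pow, Complex.conj_conj]
  rw [integral_congr_ae (Eventually.of_forall e)]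
  have b : ∀ n, Bm fun t => ee f t ^ n := fun n => bm_pow bE n
  have b' : ∀ n, Bm fun t => conj (ee f t) ^ n := fun n => bm_pow bE.conj n
  have bb : ∀ {F : ℝ → ℂ} (c : ℂ), Bm F → Bm fun x => c * F x := fun c h => (Bm.const c).mul h
  rw [integral_add ((((((bb _ (b' 2)).add (bb _ (b 2))).add (bb _ (b' 4))).add (bb _ (b 4))).add (bb _ (b 6))).add
      (bb _ (b' 6))).int ((bb _ (b 8)).add (bb _ (b' 8))).int, lin6 (b' 2) (b 2) (b' 4) (b 4) (b 6) (b' 6),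
    lin2 (b 8) (b' 8), int_e hf (by norm_num), int_ec hf (by norm_num), int_e hf (by norm_num),
    int_ec hf (by norm_num), int_e hf (by norm_num), int_ec hf (by norm_num), int_e hf (by norm_num),
    int_ec hf (by norm_num)]
  simp

theorem psiR5 (C : Co) (γ γ' : ℂ) (hf : Ef f) : ∫ t, C.psi f t * conj (R5 γ γ' f t) ∂(vm (X1 f) (X2 f)) =
    (C.φ * conj γ) * (conj (CE 3 f) / 2) + (C.φ * conj γ') * (CE 7 f / 2) + (C.φ' * conj γ) * (conj (CE 7 f) / 2)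
      + (C.φ' * conj γ') * (CE 3 f / 2) + (C.ω * conj γ) * (conj (CE 5 f) / 2)
      + (C.ω * conj γ') * (CE 5 f / 2) := by
  have := vm_prob (X_lt hf)
  have bE := bm_ee hf
  have bD := bm_dd hf
  have e : ∀ t, C.psi f t * conj (R5 γ γ' f t) =
      (C.φ * conj γ) * (dd f t * conj (ee f t ^ 3)) + (C.φ * conj γ') * (dd f t * ee f t ^ 7)
        + (C.φ' * conj γ) * (dd f t * conj (ee f t ^ 7)) + (C.φ' * conj γ') * (dd f t * ee f t ^ 3)
        + (C.ω * conj γ) * (dd f t * conj (ee f t ^ 5)) + (C.ω * conj γ') * (dd f t * ee f t ^ 5) := by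
    intro t
    have h := alg4 (ee_conj hf t) C.φ C.φ' C.ω (conj γ) (conj γ')
    unfold Co.psi R5
    simp only [map_add, map_mul, map_pow, Complex.conj_conj, dd_conj]
    linear_combination (dd f t) * h
  rw [integral_congr_ae (Eventually.of_forall e)]
  have b : ∀ n, Bm fun t => dd f t * ee f t ^ n := fun n => bD.mul (bm_pow bE n)
  have b' : ∀ n, Bm fun t => dd f t * conj (ee f t ^ n) := fun n => bD.mul (bm_pow bE n).conj
  rw [lin6 (b' 3) (b 7) (b' 7) (b 3) (b' 5) (b 5), int_dE hf, int_dEc hf, int_dE hf, int_dEc hf, int_dE hf,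
    int_dEc hf]

theorem R5_norm (γ γ' : ℂ) (hf : Ef f) : ∫ t, ‖R5 γ γ' f t‖ ^ 2 ∂(vm (X1 f) (X2 f)) = ‖γ‖ ^ 2 + ‖γ'‖ ^ 2 := by
  have := vm_prob (X_lt hf)
  have bE := bm_ee hf
  have n2 : ∀ z : ℂ, ((‖z‖ ^ 2 : ℝ) : ℂ) = z * conj z := fun z => by
    rw [Complex.mul_conj, Complex.normSq_eq_norm_sq]
  apply Complex.ofReal_injective
  rw [← integral_complex_ofReal]
  have e : ∀ t, ((‖R5 γ γ' f t‖ ^ 2 : ℝ) : ℂ) = (γ * conj γ + γ' * conj γ')
      + ((γ * conj γ') * ee f t ^ 10 + (γ' * conj γ) * conj (ee f t) ^ 10) := fun t => by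
    have h := ee_conj hf t
    rw [n2]
    unfold R5
    simp only [map_add, map_mul, map_pow, Complex.conj_conj]
    generalize ee f t = z at h
    have hz : z ≠ 0 := left_ne_zero_of_mul_eq_one h
    have e : conj z = z⁻¹ := eq_inv_of_mul_eq_one_right h
    rw [e]
    field_simp
    ring
  rw [integral_congr_ae (Eventually.of_forall e)]
  have b : ∀ n, Bm fun t => ee f t ^ n := fun n => bm_pow bE n
  have b' : ∀ n, Bm fun t => conj (ee f t) ^ n := fun n => bm_pow bE.conj n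
  have bb : ∀ {F : ℝ → ℂ} (c : ℂ), Bm F → Bm fun x => c * F x := fun c h => (Bm.const c).mul h
  rw [integral_add (integrable_const _) ((bb _ (b 10)).add (bb _ (b' 10))).int, lin2 (b 10) (b' 10),
    int_e hf (by norm_num), int_ec hf (by norm_num), integral_const]
  push_cast [n2]
  simp

theorem sq_add_re (r p : ℂ) : ‖r + p‖ ^ 2 = ‖r‖ ^ 2 + 2 * (r * conj p).re + ‖p‖ ^ 2 := by
  rw [← Complex.normSq_eq_norm_sq, ← Complex.normSq_eq_norm_sq, ← Complex.normSq_eq_norm_sq]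
  simp only [Complex.normSq_apply, Complex.mul_re, Complex.add_re, Complex.add_im, Complex.conj_re,
    Complex.conj_im]
  ring

theorem bm_ker (C : Co) (hf : Ef f) : Bm (C.ker f) := by
  have e : C.ker f = fun t => C.R f t + C.psi f t := funext fun t => C.ker_R f t
  rw [e]
  exact (bm_R C hf).add (bm_psi C hf)

/-- **the `L²` norm of the kernel with fifth harmonics** -/
theorem ker5_norm (C : Co) (γ γ' : ℂ) (hf : Ef f) :
    ∫ t, ‖C.ker f t + R5 γ γ' f t‖ ^ 2 ∂(vm (X1 f) (X2 f)) =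
      C.N2 f (∫ t, ‖C.psi f t‖ ^ 2 ∂(vm (X1 f) (X2 f))) + (‖γ‖ ^ 2 + ‖γ'‖ ^ 2
        + ((C.φ * conj γ) * conj (CE 3 f) + (C.φ * conj γ') * CE 7 f + (C.φ' * conj γ) * conj (CE 7 f)
          + (C.φ' * conj γ') * CE 3 f + (C.ω * conj γ) * conj (CE 5 f) + (C.ω * conj γ') * CE 5 f).re) := by
  have := vm_prob (X_lt hf)
  have bk := bm_ker C hf
  have b5 := bm_R5 γ γ' hf
  have i1 := bm_nsq (μ := vm (X1 f) (X2 f)) bk
  have i2 := bm_nsq (μ := vm (X1 f) (X2 f)) b5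
  have i3 : Integrable (fun t => 2 * (C.ker f t * conj (R5 γ γ' f t)).re) (vm (X1 f) (X2 f)) :=
    (bk.mul b5.conj).int.re.const_mul 2
  have i13 : Integrable (fun t => ‖C.ker f t‖ ^ 2 + 2 * (C.ker f t * conj (R5 γ γ' f t)).re)
    (vm (X1 f) (X2 f)) := i1.add i3
  have e0 : ∫ t, C.ker f t * conj (R5 γ γ' f t) ∂(vm (X1 f) (X2 f)) =
      ∫ t, C.psi f t * conj (R5 γ γ' f t) ∂(vm (X1 f) (X2 f)) := by
    have e : ∀ t, C.ker f t * conj (R5 γ γ' f t) = C.R f t * conj (R5 γ γ' f t) + C.psi f t * conj (R5 γ γ' f t) :=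
      fun t => by rw [C.ker_R]; ring
    rw [integral_congr_ae (Eventually.of_forall e), integral_add ((bm_R C hf).mul b5.conj).int
      ((bm_psi C hf).mul b5.conj).int, RR5 C γ γ' hf, zero_add]
  rw [integral_congr_ae (Eventually.of_forall fun t => sq_add_re (C.ker f t) (R5 γ γ' f t)), integral_add i13 i2,
    integral_add i1 i3, integral_const_mul,
    show (∫ t, (C.ker f t * conj (R5 γ γ' f t)).re ∂(vm (X1 f) (X2 f))) =
      (∫ t, C.ker f t * conj (R5 γ γ' f t) ∂(vm (X1 f) (X2 f))).re from integral_re (bk.mul b5.conj).int,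
    e0, R5_norm γ γ' hf, psiR5 C γ γ' hf, C.ker_norm hf]
  have e2 : (C.φ * conj γ) * (conj (CE 3 f) / 2) + (C.φ * conj γ') * (CE 7 f / 2)
      + (C.φ' * conj γ) * (conj (CE 7 f) / 2) + (C.φ' * conj γ') * (CE 3 f / 2)
      + (C.ω * conj γ) * (conj (CE 5 f) / 2) + (C.ω * conj γ') * (CE 5 f / 2) =
      ((1 / 2 : ℝ) : ℂ) * ((C.φ * conj γ) * conj (CE 3 f) + (C.φ * conj γ') * CE 7 f
        + (C.φ' * conj γ) * conj (CE 7 f) + (C.φ' * conj γ') * CE 3 f + (C.ω * conj γ) * conj (CE 5 f)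
        + (C.ω * conj γ') * CE 5 f) := by
    push_cast
    ring
  rw [e2, Complex.re_ofReal_mul]
  ring

/-! ### the deviation with twelve terms -/

open Pool.Agent.FPX.BTI (M9)
open Pool.Agent.FPX.BU (Psi12 CH PsiH n9 m9 s9 r9 n5 m5 DevLe5 devK5 sum42)
open Pool.Agent.FPX.BTG (mo aK bK dev)
open Pool.Agent.FPX.BTN (nf)
open Pool.Agent.FPX.CERQ (xT)
open Pool.Agent.FPX.OMR (Re xR eR vR r3 r5 r7 q0 q4 tR)

/-- coefficient of `L₃` -/
def g12 (u : Fin 42 → ℝ) (m : M9) : ℂ := u 17 + u 18 * conj (m 0) + u 19 * m 0 + u 36 * conj (m 1)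

/-- coefficient of `conj L₃` -/
def h12 (u : Fin 42 → ℝ) (m : M9) : ℂ := u 20 + u 21 * m 0 + u 22 * conj (m 0) + u 37 * m 1

/-- coefficient of `L₅` -/
def γ12 (u : Fin 42 → ℝ) (m : M9) : ℂ := u 38 + u 39 * conj (m 0)

/-- coefficient of `conj L₅` -/
def δ12 (u : Fin 42 → ℝ) (m : M9) : ℂ := u 40 + u 41 * m 0

/-- coefficient of `B` -/
def a12 (u : Fin 42 → ℝ) (m : M9) : ℂ :=
  u 0 + (u 1 * m 0 + u 2 * conj (m 0) + u 3 * (m 0 * conj (m 0)) + u 4 * m 0 ^ 2 + u 5 * conj (m 0) ^ 2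
    + u 6 * m 4 + u 7 * m 3 + u 8 * conj (m 4))
    + (u 28 * m 1 + u 29 * conj (m 1) + u 30 * (m 0 * conj (m 1)) + u 31 * (conj (m 0) * m 1))
    - 3 / 2 * m 0 * g12 u m + (5 / 2 * conj (m 1) + 3 / 2 * conj (m 0)) * h12 u m - 1 / 2 * u 23 * m 4
    + u 24 * (conj (m 5) - conj (m 0) + 1 / 2 * conj (m 4))
    - (3 / 2 * m 0 + 5 / 2 * m 1) * γ12 u m + (7 / 2 * conj (m 2) + 5 / 2 * conj (m 1)) * δ12 u m

/-- coefficient of `conj A` -/
def b12 (u : Fin 42 → ℝ) (m : M9) : ℂ :=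
  (u 9 * m 0 + u 10 * conj (m 0) + u 11 * (m 0 * conj (m 0)) + u 12 * m 0 ^ 2 + u 13 * conj (m 0) ^ 2
    + u 14 * m 4 + u 15 * m 3 + u 16 * conj (m 4)) + (u 26 + Complex.I * u 27)
    + (u 32 * m 1 + u 33 * conj (m 1) + u 34 * (m 0 * conj (m 1)) + u 35 * (conj (m 0) * m 1))
    + (5 / 2 * m 1 + 3 / 2 * m 0) * g12 u m - 3 / 2 * conj (m 0) * h12 u m
    + u 23 * (m 5 - m 0 + 1 / 2 * m 4) - 1 / 2 * u 24 * conj (m 4)
    + (7 / 2 * m 2 + 5 / 2 * m 1) * γ12 u m - (3 / 2 * conj (m 0) + 5 / 2 * conj (m 1)) * δ12 u m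

theorem dev12_eq (u : Fin 42 → ℝ) (m : M9) (A B : ℂ) (p q : Fin 4 → ℂ) : dev (CH Psi12) u m A B p q =
    a12 u m * B + b12 u m * conj A + (g12 u m * p 0 + h12 u m * conj (q 0))
      + (u 23 * p 1 + u 24 * conj (q 1) + u 25 * p 2) + (γ12 u m * p 3 + δ12 u m * conj (q 3)) := by
  unfold dev
  show ∑ i, (u i : ℂ) * Psi12 i m A B (n9 m A B (q 0)) (m9 m A B (p 0)) (s9 m A B (q 1)) (r9 m A B (p 1)) (p 2)
    (n5 m A B (q 3)) (m5 m A B (p 3)) = _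
  have c2 : conj (2 : ℂ) = 2 := map_ofNat _ 2
  have c3 : conj (3 : ℂ) = 3 := map_ofNat _ 3
  have c5 : conj (5 : ℂ) = 5 := map_ofNat _ 5
  have c7 : conj (7 : ℂ) = 7 := map_ofNat _ 7
  rw [sum42]
  simp only [Psi12, BU.liH, BTI.Psi8, BTI.mn8, n9, m9, s9, r9, n5, m5, Matrix.cons_val_zero, Matrix.cons_val_one,
    Matrix.cons_val]
  simp only [map_add, map_sub, map_mul, map_div₀, map_one, Complex.conj_conj, c2, c3, c5, c7]
  unfold a12 b12 g12 h12 γ12 δ12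
  ring

/-! ### the kernel of the deviation in the real frame -/

/-- the moments of the state -/
abbrev m12 (f : ℝ → ℝ) : M9 := mo (CH Psi12) (nf f) (xT f) (BTN.ef f)

/-- the coefficients at the state `f` -/
def C12 (u : Fin 42 → ℝ) (f : ℝ → ℝ) : Co :=
  ⟨a12 u (m12 f), b12 u (m12 f), g12 u (m12 f), h12 u (m12 f), tR f * u 23, tR f * u 24, tR f * u 25⟩

/-- the kernel of the deviation -/
def ker12 (u : Fin 42 → ℝ) (f : ℝ → ℝ) (t : ℝ) : ℂ :=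
  (C12 u f).ker f t + R5 (γ12 u (m12 f)) (δ12 u (m12 f)) f t

theorem tCm (H : Re f) (n : ℕ) : tR f * CE n f = 2 * ∫ t, (xT f t : ℂ) * BTN.ef f t ^ n ∂(nf f) := by
  have h := BTN.t_intR H (fun t => BTN.ef f t ^ n)
  rw [← h]
  have e : ∫ t, (de (X1 f) (X2 f) f t : ℂ) * BTN.ef f t ^ n ∂(nf f) = CE n f / 2 := int_dE H.hf n
  rw [e]
  show tR f * CE n f = 2 * (tR f * (CE n f / 2))
  ring

theorem tC3' (H : Re f) : tR f * CE 3 f = 2 * m12 f 0 := tCm H 3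

theorem tC5' (H : Re f) : tR f * CE 5 f = 2 * m12 f 1 := tCm H 5

theorem tC7' (H : Re f) : tR f * CE 7 f = 2 * m12 f 2 := tCm H 7

/-- the deviation is the mean against the kernel -/
theorem dev12_km (H : Re f) (u : Fin 42 → ℝ) (hK : Measurable K) (hK1 : ∀ t, ‖K t‖ ≤ 1) {A B : ℂ}
    (hA : A - F54.sF f * conj B = ∫ t, ee f t * conj (K t) ∂(vm (X1 f) (X2 f)))
    (hB : B - F54.sF f * conj A = ∫ t, ee f t * K t ∂(vm (X1 f) (X2 f))) :
    Km f K (dev (CH Psi12) u (m12 f) A B (aK (CH Psi12) (nf f) (xT f) (BTN.ef f) K)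
      (bK (CH Psi12) (nf f) (xT f) (BTN.ef f) K)) (ker12 u f) := by
  have bK' : Bm K := ⟨hK, 1, hK1⟩
  have b5 : Bm fun t => ee f t ^ 5 := bm_pow (bm_ee H.hf) 5
  have c5 : Km f K (conj (∫ t, ee f t ^ 5 * conj (K t) ∂(vm (X1 f) (X2 f)))) (fun t => conj (ee f t ^ 5)) := by
    refine ⟨b5.conj, ?_⟩
    rw [← integral_conj]
    congr 1
    funext t
    rw [map_mul, Complex.conj_conj]
  refine (Km.add H.hf bK' (Co.km (C12 u f) H.hf hK hK1 hA hB)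
    (Km.add H.hf bK' (Km.smul ⟨b5, rfl⟩ (γ12 u (m12 f))) (c5.smul (δ12 u (m12 f))))).congr ?_ fun t => ?_
  · have k0 : aK (CH Psi12) (nf f) (xT f) (BTN.ef f) K 0 = ∫ t, ee f t ^ 3 * K t ∂(vm (X1 f) (X2 f)) := rfl
    have k0' : bK (CH Psi12) (nf f) (xT f) (BTN.ef f) K 0 = ∫ t, ee f t ^ 3 * conj (K t) ∂(vm (X1 f) (X2 f)) := rfl
    have k3 : aK (CH Psi12) (nf f) (xT f) (BTN.ef f) K 3 = ∫ t, ee f t ^ 5 * K t ∂(vm (X1 f) (X2 f)) := rfl
    have k3' : bK (CH Psi12) (nf f) (xT f) (BTN.ef f) K 3 = ∫ t, ee f t ^ 5 * conj (K t) ∂(vm (X1 f) (X2 f)) := rfl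
    have k1 : aK (CH Psi12) (nf f) (xT f) (BTN.ef f) K 1 =
        tR f * ∫ t, dd f t * ee f t ^ 2 * K t ∂(vm (X1 f) (X2 f)) := by
      have h := BTN.t_intR H (fun t => ee f t ^ 2 * K t)
      simp only [← mul_assoc] at h
      exact h.symm
    have k1' : bK (CH Psi12) (nf f) (xT f) (BTN.ef f) K 1 =
        tR f * ∫ t, dd f t * ee f t ^ 2 * conj (K t) ∂(vm (X1 f) (X2 f)) := by
      have h := BTN.t_intR H (fun t => ee f t ^ 2 * conj (K t))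
      simp only [← mul_assoc] at h
      exact h.symm
    have k2 : aK (CH Psi12) (nf f) (xT f) (BTN.ef f) K 2 = tR f * ∫ t, dd f t * K t ∂(vm (X1 f) (X2 f)) :=
      (BTN.t_intR H K).symm
    rw [dev12_eq, k0, k0', k1, k1', k2, k3, k3']
    simp only [C12, map_mul, tR_conj]
    ring
  · unfold ker12 R5
    rw [map_pow]

/-- **the `L²` norm of the kernel in the real frame** -/
theorem ker12_norm (H : Re f) (u : Fin 42 → ℝ) : ∫ t, ‖ker12 u f t‖ ^ 2 ∂(vm (X1 f) (X2 f)) ≤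
    ‖(C12 u f).P f + u 24 * conj (m12 f 0)‖ ^ 2 + ‖(C12 u f).Q f + u 23 * m12 f 0‖ ^ 2
      + ‖g12 u (m12 f) + (u 24 * conj (m12 f 1) + u 25 * conj (m12 f 0))‖ ^ 2
      + ‖h12 u (m12 f) + (u 23 * m12 f 1 + u 25 * m12 f 0)‖ ^ 2
      + ‖γ12 u (m12 f) + (u 23 * conj (m12 f 0) + u 24 * conj (m12 f 2) + u 25 * conj (m12 f 1))‖ ^ 2
      + ‖δ12 u (m12 f) + (u 23 * m12 f 2 + u 24 * m12 f 0 + u 25 * m12 f 1)‖ ^ 2
      + (|u 23| + |u 24| + |u 25|) ^ 2 * q0 f := by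
  unfold ker12
  rw [ker5_norm _ _ _ H.hf]
  have hT := Co.psi_norm (C12 u f) H.hf
  have e1 : (‖(C12 u f).φ‖ + ‖(C12 u f).φ'‖ + ‖(C12 u f).ω‖) ^ 2 * S54.S0 f =
      (|u 23| + |u 24| + |u 25|) ^ 2 * q0 f := by
    rw [← tR_S0 H]
    simp only [C12, norm_mul, Complex.norm_real, Real.norm_eq_abs]
    ring
  rw [e1] at hT
  have h3 := tC3' H
  have h5 := tC5' H
  have h7 := tC7' H
  have t3 := congrArg conj h3
  have t5 := congrArg conj h5
  have t7 := congrArg conj h7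
  simp only [map_mul, tR_conj, map_ofNat] at t3 t5 t7
  unfold Co.N2
  have e2 : conj ((C12 u f).P f) * (C12 u f).φ' * conj (CE 3 f) + conj ((C12 u f).Q f) * (C12 u f).φ * CE 3 f
      + conj (C12 u f).g * ((C12 u f).φ' * conj (CE 5 f) + (C12 u f).ω * conj (CE 3 f))
      + conj (C12 u f).g' * ((C12 u f).φ * CE 5 f + (C12 u f).ω * CE 3 f) =
      ((2 : ℝ) : ℂ) * (conj ((C12 u f).P f) * (u 24 * conj (m12 f 0)) + conj ((C12 u f).Q f) * (u 23 * m12 f 0)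
        + conj (g12 u (m12 f)) * (u 24 * conj (m12 f 1) + u 25 * conj (m12 f 0))
        + conj (h12 u (m12 f)) * (u 23 * m12 f 1 + u 25 * m12 f 0)) := by
    show conj ((C12 u f).P f) * (tR f * u 24) * conj (CE 3 f) + conj ((C12 u f).Q f) * (tR f * u 23) * CE 3 f
      + conj (g12 u (m12 f)) * ((tR f * u 24) * conj (CE 5 f) + (tR f * u 25) * conj (CE 3 f))
      + conj (h12 u (m12 f)) * ((tR f * u 23) * CE 5 f + (tR f * u 25) * CE 3 f) = _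
    push_cast
    linear_combination (conj ((C12 u f).P f) * u 24 + conj (g12 u (m12 f)) * u 25) * t3
      + (conj ((C12 u f).Q f) * u 23 + conj (h12 u (m12 f)) * u 25) * h3
      + (conj (g12 u (m12 f)) * u 24) * t5 + (conj (h12 u (m12 f)) * u 23) * h5
  have e3 : (C12 u f).φ * conj (γ12 u (m12 f)) * conj (CE 3 f) + (C12 u f).φ * conj (δ12 u (m12 f)) * CE 7 f
      + (C12 u f).φ' * conj (γ12 u (m12 f)) * conj (CE 7 f) + (C12 u f).φ' * conj (δ12 u (m12 f)) * CE 3 f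
      + (C12 u f).ω * conj (γ12 u (m12 f)) * conj (CE 5 f) + (C12 u f).ω * conj (δ12 u (m12 f)) * CE 5 f =
      ((2 : ℝ) : ℂ) * (conj (γ12 u (m12 f)) * (u 23 * conj (m12 f 0) + u 24 * conj (m12 f 2) + u 25 * conj (m12 f 1))
        + conj (δ12 u (m12 f)) * (u 23 * m12 f 2 + u 24 * m12 f 0 + u 25 * m12 f 1)) := by
    show (tR f * u 23) * conj (γ12 u (m12 f)) * conj (CE 3 f) + (tR f * u 23) * conj (δ12 u (m12 f)) * CE 7 f
      + (tR f * u 24) * conj (γ12 u (m12 f)) * conj (CE 7 f) + (tR f * u 24) * conj (δ12 u (m12 f)) * CE 3 f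
      + (tR f * u 25) * conj (γ12 u (m12 f)) * conj (CE 5 f) + (tR f * u 25) * conj (δ12 u (m12 f)) * CE 5 f = _
    push_cast
    linear_combination (u 23 * conj (γ12 u (m12 f))) * t3 + (u 23 * conj (δ12 u (m12 f))) * h7
      + (u 24 * conj (γ12 u (m12 f))) * t7 + (u 24 * conj (δ12 u (m12 f))) * h3
      + (u 25 * conj (γ12 u (m12 f))) * t5 + (u 25 * conj (δ12 u (m12 f))) * h5
  rw [e2, e3, Complex.re_ofReal_mul, Complex.re_ofReal_mul, sq_re ((C12 u f).P f) (u 24 * conj (m12 f 0)),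
    sq_re ((C12 u f).Q f) (u 23 * m12 f 0),
    sq_re (g12 u (m12 f)) (u 24 * conj (m12 f 1) + u 25 * conj (m12 f 0)),
    sq_re (h12 u (m12 f)) (u 23 * m12 f 1 + u 25 * m12 f 0),
    sq_re (γ12 u (m12 f)) (u 23 * conj (m12 f 0) + u 24 * conj (m12 f 2) + u 25 * conj (m12 f 1)),
    sq_re (δ12 u (m12 f)) (u 23 * m12 f 2 + u 24 * m12 f 0 + u 25 * m12 f 1)]
  simp only [Complex.add_re]
  show ‖(C12 u f).P f‖ ^ 2 + ‖(C12 u f).Q f‖ ^ 2 + ‖g12 u (m12 f)‖ ^ 2 + ‖h12 u (m12 f)‖ ^ 2 + _ + _ + _ ≤ _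
  have p1 := sq_nonneg ‖(u 24 : ℂ) * conj (m12 f 0)‖
  have p2 := sq_nonneg ‖(u 23 : ℂ) * m12 f 0‖
  have p3 := sq_nonneg ‖(u 24 : ℂ) * conj (m12 f 1) + u 25 * conj (m12 f 0)‖
  have p4 := sq_nonneg ‖(u 23 : ℂ) * m12 f 1 + u 25 * m12 f 0‖
  have p5 := sq_nonneg ‖(u 23 : ℂ) * conj (m12 f 0) + u 24 * conj (m12 f 2) + u 25 * conj (m12 f 1)‖
  have p6 := sq_nonneg ‖(u 23 : ℂ) * m12 f 2 + u 24 * m12 f 0 + u 25 * m12 f 1‖
  linarith

end Pool.Agent.FPX.XEN
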