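import Mathlib
import Pool.Agent.FPX.XIR
import Pool.Agent.FPX.XENB

/-
XTB (helper47): sharper bounds of the remainder `ξ² / 4 - (c s κ₀)² r₃²` of the stereographic start map with eight or
twelve terms: phase-correct bound of the terms of degree two, from `|r₃| ≤ r`, `|r₅| ≤ p`, `q₀ ≤ q`.
-/

open MeasureTheory Set Filter Topology Complex
open scoped ComplexConjugate

noncomputable section

namespace Pool.Agent.FPX.BTI

open Pool.Agent.FPX.BTG (Sta Cls mo aK bK dev)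
open Pool.Agent.FPX.BTN (va e1 nf ef bw)
open Pool.Agent.FPX.UMP (Ef)
open Pool.Agent.FPX.F54 (X1 X2 X_lt)
open Pool.Agent.FPX.OMS (rF cF cF_eq)
open Pool.Agent.FPX.CERQ (xT)
open Pool.Agent.FPX.OMR (Re)
open Pool.Agent.FPX.XIM (xi8 xi12 x4)

/-- `|a z + b + d conj z| ≤ K` for `|z| ≤ 1` -/
def Ph (a b d K : ℝ) : Prop := ∀ z : ℂ, ‖z‖ ≤ 1 → ‖(a : ℂ) * z + b + d * conj z‖ ≤ K

theorem ph_sq (a b d : ℝ) (z : ℂ) : ‖(a : ℂ) * z + b + d * conj z‖ ^ 2 =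
    (b + (a + d) * z.re) ^ 2 + (a - d) ^ 2 * z.im ^ 2 := by
  rw [← Complex.normSq_eq_norm_sq, Complex.normSq_apply]
  simp only [Complex.add_re, Complex.add_im, Complex.mul_re, Complex.mul_im, Complex.ofReal_re, Complex.ofReal_im,
    Complex.conj_re, Complex.conj_im]
  ring

theorem z_sq {z : ℂ} (h : ‖z‖ ≤ 1) : z.re ^ 2 + z.im ^ 2 ≤ 1 := by
  have h1 : ‖z‖ ^ 2 ≤ 1 := by
    have := norm_nonneg z
    nlinarith
  rw [← Complex.normSq_eq_norm_sq, Complex.normSq_apply] at h1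
  nlinarith

/-- first criterion -/
theorem ph_of1 {a b d K : ℝ} (hK : 0 ≤ K) (h : (|b| + |a + d|) ^ 2 + (a - d) ^ 2 ≤ K ^ 2) : Ph a b d K := by
  intro z hz
  refine (sq_le_sq₀ (norm_nonneg _) hK).1 ?_
  rw [ph_sq]
  have hz2 := z_sq hz
  have h1 : |z.re| ≤ 1 := (Complex.abs_re_le_norm z).trans hz
  have h2 : (b + (a + d) * z.re) ^ 2 ≤ (|b| + |a + d|) ^ 2 := by
    rw [← sq_abs]
    refine pow_le_pow_left₀ (abs_nonneg _) ?_ 2
    refine (abs_add_le _ _).trans ?_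
    rw [abs_mul]
    have := mul_le_mul_of_nonneg_left h1 (abs_nonneg (a + d))
    linarith
  have h3 : z.im ^ 2 ≤ 1 := by nlinarith [sq_nonneg z.re]
  have h4 := mul_le_mul_of_nonneg_left h3 (sq_nonneg (a - d))
  linarith

/-- second criterion (the exact value when `(a + d)² < (a - d)²`, that is `a d < 0`) -/
theorem ph_of2 {a b d K : ℝ} (hK : 0 ≤ K) (had : a * d < 0)
    (h : (a - d) ^ 2 * (b ^ 2 + -(4 * a * d)) ≤ -(4 * a * d) * K ^ 2) : Ph a b d K := by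
  intro z hz
  refine (sq_le_sq₀ (norm_nonneg _) hK).1 ?_
  rw [ph_sq]
  have hz2 := z_sq hz
  have hD : 0 < -(4 * a * d) := by linarith
  have h4 : (a - d) ^ 2 * z.im ^ 2 ≤ (a - d) ^ 2 * (1 - z.re ^ 2) :=
    mul_le_mul_of_nonneg_left (by linarith) (sq_nonneg _)
  have h5 : -(4 * a * d) * ((b + (a + d) * z.re) ^ 2 + (a - d) ^ 2 * (1 - z.re ^ 2)) ≤
      (a - d) ^ 2 * (b ^ 2 + -(4 * a * d)) := by
    have := sq_nonneg (b * (a + d) - (-(4 * a * d)) * z.re)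
    nlinarith [this]
  have h6 : -(4 * a * d) * ((b + (a + d) * z.re) ^ 2 + (a - d) ^ 2 * (1 - z.re ^ 2)) ≤
      -(4 * a * d) * K ^ 2 := h5.trans h
  have h7 := le_of_mul_le_mul_left h6 hD
  linarith

/-- the third criterion: sum of absolute values -/
theorem ph_of3 {a b d K : ℝ} (h : |a| + |b| + |d| ≤ K) : Ph a b d K := by
  intro z hz
  have nr : ∀ x : ℝ, ‖(x : ℂ)‖ = |x| := fun x => Complex.norm_real x
  have e1 : ‖(a : ℂ) * z‖ ≤ |a| := by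
    rw [norm_mul, nr]
    exact mul_le_of_le_one_right (abs_nonneg _) hz
  have e2 : ‖(d : ℂ) * conj z‖ ≤ |d| := by
    rw [norm_mul, nr, Complex.norm_conj]
    exact mul_le_of_le_one_right (abs_nonneg _) hz
  have := (norm_add_le ((a : ℂ) * z + b) (d * conj z)).trans (add_le_add ((norm_add_le _ _).trans
    (add_le_add e1 (le_of_eq (nr b)))) e2)
  linarith

theorem Ph.le {a b d K : ℝ} (h : Ph a b d K) (hK : 0 ≤ K) {q0 : ℝ} {q2 : ℂ} (h0 : 0 ≤ q0) (h2 : ‖q2‖ ≤ q0) :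
    ‖(a : ℂ) * q2 + b * q0 + d * conj q2‖ ≤ K * q0 := by
  rcases h0.lt_or_eq with hq | hq
  · have hz : ‖q2 / (q0 : ℂ)‖ ≤ 1 := by
      rw [norm_div, Complex.norm_real, Real.norm_eq_abs, abs_of_pos hq]
      exact (div_le_one hq).2 h2
    have hq' : (q0 : ℂ) ≠ 0 := Complex.ofReal_ne_zero.2 hq.ne'
    have e : (a : ℂ) * q2 + b * q0 + d * conj q2 = ((a : ℂ) * (q2 / q0) + b + d * conj (q2 / q0)) * q0 := by
      rw [map_div₀, Complex.conj_ofReal]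
      field_simp
    rw [e, norm_mul, Complex.norm_real, Real.norm_eq_abs, abs_of_pos hq]
    exact mul_le_mul_of_nonneg_right (h _ hz) hq.le
  · have h2' : q2 = 0 := by
      rw [← hq] at h2
      exact norm_le_zero_iff.1 h2
    rw [h2', ← hq]
    simp

/-- the sharper bound of the part of degree two (and of the second linear term) -/
def pc8 (k : Fin 8 → ℝ → ℝ) (s c r q K : ℝ) : ℝ :=
  2 * c * s ^ 3 * |k 1 c| * r + 4 * c * s * (|k 2 c| + s ^ 2 * |k 3 c| + s ^ 4 * |k 4 c|) * r ^ 2 + c * s * K * q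

theorem rest8_ph {f : ℝ → ℝ} (H : Re f) (hs : 0 < X1 f) (k : Fin 8 → ℝ → ℝ) {m : M9} (E : Mm f m) {r q K : ℝ}
    {q0 : ℝ} (hr : ‖m 0‖ ≤ r) (h3 : m 3 = (q0 : ℂ)) (h0 : 0 ≤ q0) (hq0 : q0 ≤ q) (h4 : ‖m 4‖ ≤ q0) (hK : 0 ≤ K)
    (hP : Ph (k 5 (cF f)) (k 6 (cF f)) (k 7 (cF f)) K) :
    ‖xi8 (kap k) f - 2 * cF f * X1 f * k 0 (cF f) * m 0‖ ≤ pc8 k (X1 f) (cF f) r q K := by
  have hr0 : 0 ≤ r := (norm_nonneg _).trans hr
  have hc := H.c0.le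
  have hs0 := H.h0
  have e : xi8 (kap k) f - 2 * cF f * X1 f * k 0 (cF f) * m 0 = 2 * cF f * X1 f ^ 3 * k 1 (cF f) * conj (m 0)
      + (4 * cF f * X1 f * k 2 (cF f) * (m 0 * conj (m 0)) + 4 * cF f * X1 f ^ 3 * k 3 (cF f) * m 0 ^ 2
        + 4 * cF f * X1 f ^ 5 * k 4 (cF f) * conj (m 0) ^ 2
        + cF f * X1 f * (k 5 (cF f) * m 4 + k 6 (cF f) * m 3 + k 7 (cF f) * conj (m 4))) := by
    rw [re_xi8 H hs E]
    ring
  have nr : ∀ x : ℝ, ‖(x : ℂ)‖ = |x| := fun x => Complex.norm_real x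
  have ac : |cF f| = cF f := abs_of_nonneg hc
  have as : |X1 f| = X1 f := abs_of_nonneg hs0
  have n2 : ‖(2 : ℂ)‖ = 2 := by norm_num
  have n4 : ‖(4 : ℂ)‖ = 4 := by norm_num
  have n00 := norm_nonneg (m 0)
  have hr2 : ‖m 0‖ ^ 2 ≤ r ^ 2 := pow_le_pow_left₀ n00 hr 2
  have b1 : ‖(2 : ℂ) * cF f * X1 f ^ 3 * k 1 (cF f) * conj (m 0)‖ ≤ 2 * cF f * X1 f ^ 3 * |k 1 (cF f)| * r := by
    simp only [norm_mul, norm_pow, nr, ac, as, n2, Complex.norm_conj]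
    gcongr
  have b2 : ‖(4 : ℂ) * cF f * X1 f * k 2 (cF f) * (m 0 * conj (m 0))‖ ≤
      4 * cF f * X1 f * |k 2 (cF f)| * r ^ 2 := by
    simp only [norm_mul, nr, ac, as, n4, Complex.norm_conj]
    rw [← pow_two]
    gcongr
  have b3 : ‖(4 : ℂ) * cF f * X1 f ^ 3 * k 3 (cF f) * m 0 ^ 2‖ ≤ 4 * cF f * X1 f ^ 3 * |k 3 (cF f)| * r ^ 2 := by
    simp only [norm_mul, norm_pow, nr, ac, as, n4]
    gcongr
  have b4 : ‖(4 : ℂ) * cF f * X1 f ^ 5 * k 4 (cF f) * conj (m 0) ^ 2‖ ≤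
      4 * cF f * X1 f ^ 5 * |k 4 (cF f)| * r ^ 2 := by
    simp only [norm_mul, norm_pow, nr, ac, as, n4, Complex.norm_conj]
    gcongr
  have b5 : ‖(cF f : ℂ) * X1 f * (k 5 (cF f) * m 4 + k 6 (cF f) * m 3 + k 7 (cF f) * conj (m 4))‖ ≤
      cF f * X1 f * K * q := by
    rw [h3]
    simp only [norm_mul, nr, ac, as]
    calc cF f * X1 f * ‖(k 5 (cF f) : ℂ) * m 4 + k 6 (cF f) * q0 + k 7 (cF f) * conj (m 4)‖
        ≤ cF f * X1 f * (K * q0) := mul_le_mul_of_nonneg_left (hP.le hK h0 h4) (mul_nonneg hc hs0)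
      _ ≤ cF f * X1 f * (K * q) := by gcongr
      _ = _ := by ring
  rw [e]
  refine (norm_add_le _ _).trans ?_
  refine (add_le_add b1 ((norm_add_le _ _).trans (add_le_add
    ((norm_add_le _ _).trans (add_le_add ((norm_add_le _ _).trans
    (add_le_add b2 b3)) b4)) b5))).trans (le_of_eq ?_)
  unfold pc8
  ring

/-- **sharper bound of the remainder** -/
theorem tau8_ph {f : ℝ → ℝ} (H : Re f) (k : Fin 8 → ℝ → ℝ) {m : M9} (E : Mm f m) {r q K : ℝ}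
    {q0 : ℝ} (hr : ‖m 0‖ ≤ r) (h3 : m 3 = (q0 : ℂ)) (h0 : 0 ≤ q0) (hq0 : q0 ≤ q) (h4 : ‖m 4‖ ≤ q0) (hK : 0 ≤ K)
    (hP : Ph (k 5 (cF f)) (k 6 (cF f)) (k 7 (cF f)) K) (hm : X1 f = 0 → m 0 = 0) : ‖tau8 k f (m 0)‖ ≤
      pc8 k (X1 f) (cF f) r q K * (4 * cF f * X1 f * |k 0 (cF f)| * r + pc8 k (X1 f) (cF f) r q K) / 4 := by
  have hr0 : 0 ≤ r := (norm_nonneg _).trans hr
  have hq0' : 0 ≤ q := h0.trans hq0
  have hc := H.c0.le
  have hs0 := H.h0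
  have hpb : 0 ≤ pc8 k (X1 f) (cF f) r q K := by
    unfold pc8
    positivity
  rcases hs0.lt_or_eq with hs | hs
  · set ρ : ℂ := xi8 (kap k) f - 2 * cF f * X1 f * k 0 (cF f) * m 0 with hρ
    have e : tau8 k f (m 0) = ρ * (2 * (2 * cF f * X1 f * k 0 (cF f) * m 0) + ρ) / 4 := by
      unfold tau8
      rw [hρ]
      push_cast
      ring
    have nr : ∀ x : ℝ, ‖(x : ℂ)‖ = |x| := fun x => Complex.norm_real x
    have ac : |cF f| = cF f := abs_of_nonneg hc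
    have as : |X1 f| = X1 f := abs_of_nonneg hs0
    have n2 : ‖(2 : ℂ)‖ = 2 := by norm_num
    have n4 : ‖(4 : ℂ)‖ = 4 := by norm_num
    have bρ : ‖ρ‖ ≤ pc8 k (X1 f) (cF f) r q K := rest8_ph H hs k E hr h3 h0 hq0 h4 hK hP
    have b8 : ‖(2 : ℂ) * (2 * cF f * X1 f * k 0 (cF f) * m 0)‖ ≤ 4 * cF f * X1 f * |k 0 (cF f)| * r := by
      simp only [norm_mul, nr, ac, as, n2]
      calc 2 * (2 * cF f * X1 f * |k 0 (cF f)| * ‖m 0‖) = 4 * cF f * X1 f * |k 0 (cF f)| * ‖m 0‖ := by ring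
        _ ≤ _ := by gcongr
    rw [e, norm_div, norm_mul, n4]
    have b9 := (norm_add_le ((2 : ℂ) * (2 * cF f * X1 f * k 0 (cF f) * m 0)) ρ).trans (add_le_add b8 bρ)
    gcongr
  · have et : tau8 k f (m 0) = 0 := by
      unfold tau8
      rw [(z_l8 (k := k) (k' := k) H hs.symm).1, hm hs.symm]
      ring
    rw [et, norm_zero]
    positivity

/-- the moments of degree two at a state -/
theorem mo3_q0 {f : ℝ → ℝ} (H : Re f) {Q : Type} (Ψ : Psi9 Q) :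
    mo (C9 Ψ) (nf f) (xT f) (ef f) 3 = ((OMR.q0 f : ℝ) : ℂ) := by
  unfold OMR.q0
  rw [xR_eq H.hf H.h0 H.h2, vR_eq H.h2, ← integral_complex_ofReal]
  show ∫ t, (xT f t : ℂ) ^ 2 ∂(nf f) = _
  congr 1
  funext t
  push_cast
  ring

theorem mo4_q2 {f : ℝ → ℝ} (H : Re f) {Q : Type} (Ψ : Psi9 Q) :
    mo (C9 Ψ) (nf f) (xT f) (ef f) 4 = OMR.q2 f := by
  unfold OMR.q2
  rw [xR_eq H.hf H.h0 H.h2, eR_eq H.h2, vR_eq H.h2]
  rfl

/-- **the remainder at a state**, `|r₃| ≤ r`, `q₀ ≤ q`, `|κ₅ z + κ₆ + κ₇ conj z| ≤ K` for `|z| ≤ 1` -/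
theorem tau8_st {f : ℝ → ℝ} (H : Re f) (k : Fin 8 → ℝ → ℝ) {Q : Type} [Fintype Q] (Ψ : Psi9 Q) {r q K : ℝ}
    (hr : ‖mo (C9 Ψ) (nf f) (xT f) (ef f) 0‖ ≤ r) (hq : OMR.q0 f ≤ q) (hK : 0 ≤ K)
    (hP : Ph (k 5 (cF f)) (k 6 (cF f)) (k 7 (cF f)) K) :
    ‖tau8 k f (mo (C9 Ψ) (nf f) (xT f) (ef f) 0)‖ ≤
      pc8 k (X1 f) (cF f) r q K * (4 * cF f * X1 f * |k 0 (cF f)| * r + pc8 k (X1 f) (cF f) r q K) / 4 := by
  refine tau8_ph H k (mm_mo Ψ H) hr (mo3_q0 H Ψ) (XEN.q0_nn f) hq ?_ hK hP fun h => z_mo Ψ H h 0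
  rw [mo4_q2 H]
  exact XEN.q2_le H

/-- the same with `|r₃|² ≤ q₀ / 2` (Bessel): only a bound of `q₀` is needed -/
theorem r3_of_q0 {f : ℝ → ℝ} (H : Re f) {Q : Type} [Fintype Q] (Ψ : Psi9 Q) {q r : ℝ} (hq : OMR.q0 f ≤ q)
    (hr0 : 0 ≤ r) (hr : q ≤ 2 * r ^ 2) : ‖mo (C9 Ψ) (nf f) (xT f) (ef f) 0‖ ≤ r := by
  rw [← r3_eq H.hf H.h0 H.h2]
  have := XEN.r3_sq H
  refine (sq_le_sq₀ (norm_nonneg _) hr0).1 ?_
  linarith

end Pool.Agent.FPX.BTI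

namespace Pool.Agent.FPX.BU

open Pool.Agent.FPX.BTG (Sta Cls mo aK bK dev)
open Pool.Agent.FPX.BTN (va e1 nf ef bw)
open Pool.Agent.FPX.F54 (X1 X2 X_lt)
open Pool.Agent.FPX.OMS (rF cF cF_eq)
open Pool.Agent.FPX.CERQ (xT)
open Pool.Agent.FPX.SYS (CE)
open Pool.Agent.FPX.OMR (Re)
open Pool.Agent.FPX.XIM (xi8 xi12 x4)
open Pool.Agent.FPX.BTI (kap Mm pc8)

/-- the sharper bound for `xi12` -/
def pc12 (k : Fin 8 → ℝ → ℝ) (n : Fin 4 → ℝ → ℝ) (s c r p q K : ℝ) : ℝ :=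
  pc8 k s c r q K + 2 * c * s ^ 3 * |n 0 c| * p + 2 * c * s ^ 5 * |n 1 c| * p
    + 4 * c * s * |n 2 c| * (r * p) + 4 * c * s * |n 3 c| * (r * p)

/-- **sharper bound of the remainder of `xi12`** -/
theorem tau12_ph {f : ℝ → ℝ} (H : Re f) (k : Fin 8 → ℝ → ℝ) (n : Fin 4 → ℝ → ℝ) {m : M9} (E : Mm f m)
    (h5 : (X1 f : ℂ) * CE 5 f = 2 * cF f * m 1) {r p q K : ℝ} {q0 : ℝ} (hr : ‖m 0‖ ≤ r) (hp : ‖m 1‖ ≤ p)
    (h3 : m 3 = (q0 : ℂ)) (h0 : 0 ≤ q0) (hq0 : q0 ≤ q) (h4 : ‖m 4‖ ≤ q0) (hK : 0 ≤ K)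
    (hP : BTI.Ph (k 5 (cF f)) (k 6 (cF f)) (k 7 (cF f)) K) (hm : X1 f = 0 → m 0 = 0) : ‖tau12 k n f (m 0)‖ ≤
      pc12 k n (X1 f) (cF f) r p q K
        * (4 * cF f * X1 f * |k 0 (cF f)| * r + pc12 k n (X1 f) (cF f) r p q K) / 4 := by
  have hr0 : 0 ≤ r := (norm_nonneg _).trans hr
  have hp0 : 0 ≤ p := (norm_nonneg _).trans hp
  have hq0' : 0 ≤ q := h0.trans hq0
  have hc := H.c0.le
  have hs0 := H.h0
  have hpb : 0 ≤ pc12 k n (X1 f) (cF f) r p q K := by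
    unfold pc12 pc8
    positivity
  rcases hs0.lt_or_eq with hs | hs
  · set ρ : ℂ := (xi8 (kap k) f - 2 * cF f * X1 f * k 0 (cF f) * m 0) + x4 (mup n) f with hρ
    have e : tau12 k n f (m 0) = ρ * (2 * (2 * cF f * X1 f * k 0 (cF f) * m 0) + ρ) / 4 := by
      unfold tau12 xi12
      rw [hρ]
      push_cast
      ring
    have nr : ∀ x : ℝ, ‖(x : ℂ)‖ = |x| := fun x => Complex.norm_real x
    have ac : |cF f| = cF f := abs_of_nonneg hc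
    have as : |X1 f| = X1 f := abs_of_nonneg hs0
    have n2 : ‖(2 : ℂ)‖ = 2 := by norm_num
    have n4 : ‖(4 : ℂ)‖ = 4 := by norm_num
    have bρ : ‖ρ‖ ≤ pc12 k n (X1 f) (cF f) r p q K := by
      rw [hρ]
      refine (norm_add_le _ _).trans ((add_le_add (BTI.rest8_ph H hs k E hr h3 h0 hq0 h4 hK hP)
        (x4_le H hs n E h5 hr hp)).trans (le_of_eq ?_))
      unfold pc12
      ring
    have b8 : ‖(2 : ℂ) * (2 * cF f * X1 f * k 0 (cF f) * m 0)‖ ≤ 4 * cF f * X1 f * |k 0 (cF f)| * r := by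
      simp only [norm_mul, nr, ac, as, n2]
      calc 2 * (2 * cF f * X1 f * |k 0 (cF f)| * ‖m 0‖) = 4 * cF f * X1 f * |k 0 (cF f)| * ‖m 0‖ := by ring
        _ ≤ _ := by gcongr
    rw [e, norm_div, norm_mul, n4]
    have b9 := (norm_add_le ((2 : ℂ) * (2 * cF f * X1 f * k 0 (cF f) * m 0)) ρ).trans (add_le_add b8 bρ)
    gcongr
  · have et : tau12 k n f (m 0) = 0 := by
      unfold tau12
      rw [(z_l12 (k := k) (k' := k) (n := n) (n' := n) H hs.symm).1, hm hs.symm]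
      ring
    rw [et, norm_zero]
    positivity

end Pool.Agent.FPX.BU
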