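import Mathlib
import Pool.Agent.FPX.XEND
import Pool.Agent.FPX.QZE
import Pool.Agent.FPX.XTB

/-
XENF (helper16): the constant of the start map `xi12` with polynomial coefficient functions: one Boolean per latitude
cell (balls with rational centres, lists of linear combinations of the coefficients).
-/

open MeasureTheory Set Filter Topology Complex
open scoped ENNReal NNReal ComplexConjugate

noncomputable section

namespace Pool.Agent.FPX.XEN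

open Pool.Agent.FPX.BTI (M9 u8 kap dkap)
open Pool.Agent.FPX.BU (Psi12 CH PsiH DevLe5 devK5 mup dmup u12 w14 tau12 pb12 devLe_B12 tau12_mo)
open Pool.Agent.FPX.BTG (mo aK bK dev)
open Pool.Agent.FPX.BTN (nf)
open Pool.Agent.FPX.CERQ (xT)
open Pool.Agent.FPX.OMR (Re q0 r3 r5 r7)
open Pool.Agent.FPX.F54 (X1 X2)
open Pool.Agent.FPX.OMS (cF)
open Pool.Agent.FPX.PCO (pe der)

/-! ### linear combinations -/

/-- `∑ r u_i` -/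
def lcv (u : Fin 42 → ℝ) : List (ℚ × Fin 42) → ℝ
  | [] => 0
  | (r, i) :: l => (r : ℝ) * u i + lcv u l

def lcB (U : Fin 42 → Bl) : List (ℚ × Fin 42) → Bl
  | [] => Bl.pt 0
  | (r, i) :: l => ((Bl.pt r).mul (U i)).add (lcB U l)

theorem lcB_has {u : Fin 42 → ℝ} {U : Fin 42 → Bl} (h : ∀ i, (U i).Has (u i)) :
    ∀ l : List (ℚ × Fin 42), (lcB U l).Has (lcv u l)
  | [] => by
    have := Bl.Has.pt 0
    simpa [lcB, lcv] using this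
  | (r, i) :: l => ((Bl.Has.pt r).mul (h i)).add (lcB_has h l)

/-- `∑ c_j z_j` with linear combinations `c_j` of the coefficients -/
def sv (u : Fin 42 → ℝ) (z : ℕ → ℂ) : List (List (ℚ × Fin 42) × ℕ) → ℂ
  | [] => 0
  | (l, j) :: L => (lcv u l : ℂ) * z j + sv u z L

def sb (U : Fin 42 → Bl) (Z : ℕ → ℚ) : List (List (ℚ × Fin 42) × ℕ) → ℚ
  | [] => 0
  | (l, j) :: L => (lcB U l).ab * Z j + sb U Z L

theorem sv_le {u : Fin 42 → ℝ} {U : Fin 42 → Bl} {z : ℕ → ℂ} {Z : ℕ → ℚ} (h : ∀ i, (U i).Has (u i))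
    (hz : ∀ j, ‖z j‖ ≤ (Z j : ℝ)) : ∀ L : List (List (ℚ × Fin 42) × ℕ), ‖sv u z L‖ ≤ ((sb U Z L : ℚ) : ℝ)
  | [] => by simp [sv, sb]
  | (l, j) :: L => by
    have h1 := (lcB_has h l).ab
    have h2 := sv_le h hz L
    have h3 : ‖(lcv u l : ℂ) * z j‖ ≤ ((lcB U l).ab : ℝ) * (Z j : ℝ) := nm h1 (hz j)
    show ‖(lcv u l : ℂ) * z j + sv u z L‖ ≤ (((lcB U l).ab * Z j + sb U Z L : ℚ) : ℝ)
    push_cast
    exact (norm_add_le _ _).trans (add_le_add h3 h2)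

/-! ### the lists -/

/-- the monomials of the moments -/
def zM (m : M9) : ℕ → ℂ
  | 0 => 1
  | 1 => m 0
  | 2 => conj (m 0)
  | 3 => m 0 * conj (m 0)
  | 4 => m 0 ^ 2
  | 5 => conj (m 0) ^ 2
  | 6 => m 4
  | 7 => conj (m 4)
  | 8 => m 3
  | 9 => m 5
  | 10 => conj (m 5)
  | 11 => m 1
  | 12 => conj (m 1)
  | 13 => m 0 * conj (m 1)
  | 14 => conj (m 0) * m 1
  | 15 => m 0 * m 1
  | 16 => conj (m 0) * conj (m 1)
  | 17 => m 1 * conj (m 1)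
  | 18 => m 2
  | 19 => conj (m 2)
  | 20 => m 0 * conj (m 2)
  | 21 => conj (m 0) * m 2
  | _ => 0

/-- their bounds -/
def Zb (ρ ρ' ρ₂ q : ℚ) : ℕ → ℚ
  | 0 => 1
  | 1 => ρ
  | 2 => ρ
  | 3 => ρ * ρ
  | 4 => ρ * ρ
  | 5 => ρ * ρ
  | 6 => q
  | 7 => q
  | 8 => q
  | 9 => q
  | 10 => q
  | 11 => ρ'
  | 12 => ρ'
  | 13 => ρ * ρ'
  | 14 => ρ * ρ'
  | 15 => ρ * ρ'
  | 16 => ρ * ρ'
  | 17 => ρ' * ρ'
  | 18 => ρ₂
  | 19 => ρ₂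
  | 20 => ρ * ρ₂
  | 21 => ρ * ρ₂
  | _ => 0

theorem zM_le {m : M9} {ρ ρ' ρ₂ q : ℚ} (h0 : ‖m 0‖ ≤ (ρ : ℝ)) (h1 : ‖m 1‖ ≤ (ρ' : ℝ)) (h2 : ‖m 2‖ ≤ (ρ₂ : ℝ))
    (h3 : ‖m 3‖ ≤ (q : ℝ)) (h4 : ‖m 4‖ ≤ (q : ℝ)) (h5 : ‖m 5‖ ≤ (q : ℝ)) : ∀ j, ‖zM m j‖ ≤ (Zb ρ ρ' ρ₂ q j : ℝ) := by
  have c0 : ‖conj (m 0)‖ ≤ (ρ : ℝ) := by rwa [Complex.norm_conj]
  have c1 : ‖conj (m 1)‖ ≤ (ρ' : ℝ) := by rwa [Complex.norm_conj]
  have c2 : ‖conj (m 2)‖ ≤ (ρ₂ : ℝ) := by rwa [Complex.norm_conj]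
  have c4 : ‖conj (m 4)‖ ≤ (q : ℝ) := by rwa [Complex.norm_conj]
  have c5 : ‖conj (m 5)‖ ≤ (q : ℝ) := by rwa [Complex.norm_conj]
  have P : ∀ {x y : ℂ} {a b : ℚ}, ‖x‖ ≤ (a : ℝ) → ‖y‖ ≤ (b : ℝ) → ‖x * y‖ ≤ ((a * b : ℚ) : ℝ) := by
    intro x y a b hx hy
    rw [norm_mul]
    push_cast
    exact mul_le_mul hx hy (norm_nonneg _) ((norm_nonneg _).trans hx)
  intro j
  match j with
  | 0 => simp [zM, Zb]
  | 1 => exact h0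
  | 2 => exact c0
  | 3 => exact P h0 c0
  | 4 =>
    show ‖m 0 ^ 2‖ ≤ _
    rw [pow_two]
    exact P h0 h0
  | 5 =>
    show ‖conj (m 0) ^ 2‖ ≤ _
    rw [pow_two]
    exact P c0 c0
  | 6 => exact h4
  | 7 => exact c4
  | 8 => exact h3
  | 9 => exact h5
  | 10 => exact c5
  | 11 => exact h1
  | 12 => exact c1
  | 13 => exact P h0 c1
  | 14 => exact P c0 h1
  | 15 => exact P h0 h1
  | 16 => exact P c0 c1
  | 17 => exact P h1 c1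
  | 18 => exact h2
  | 19 => exact c2
  | 20 => exact P h0 c2
  | 21 => exact P c0 h2
  | _ + 22 => simp [zM, Zb]

/-- `a - 1 + u₂₄ conj r₃ - (3/2) u₂₃ |r₃|²` -/
def LA : List (List (ℚ × Fin 42) × ℕ) :=
  [([(1, 1), (-3 / 2, 17), (-3 / 2, 38)], 1), ([(1, 2), (3 / 2, 20)], 2),
    ([(1, 3), (-3 / 2, 18), (3 / 2, 21), (-3 / 2, 39), (-3 / 2, 23)], 3), ([(1, 4), (-3 / 2, 19)], 4),
    ([(1, 5), (3 / 2, 22)], 5), ([(1, 6), (-1 / 2, 23)], 6), ([(1, 8), (1 / 2, 24)], 7), ([(1, 7)], 8),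
    ([(1, 24)], 10), ([(1, 28), (-5 / 2, 38)], 11), ([(1, 29), (5 / 2, 20), (5 / 2, 40)], 12),
    ([(1, 30), (-3 / 2, 36), (5 / 2, 21), (5 / 2, 41)], 13), ([(1, 31), (3 / 2, 37), (-5 / 2, 39)], 14),
    ([(5 / 2, 22)], 16), ([(5 / 2, 37)], 17), ([(7 / 2, 40)], 19), ([(7 / 2, 41)], 20)]

/-- `b + u₂₃ r₃ + (3/2) r₃ - (3/2) u₂₄ |r₃|²` -/
def LB : List (List (ℚ × Fin 42) × ℕ) :=
  [([(1, 9), (3 / 2, 17), (3 / 2, 0)], 1), ([(1, 10), (-3 / 2, 20), (-3 / 2, 40)], 2),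
    ([(1, 11), (3 / 2, 18), (-3 / 2, 21), (-3 / 2, 41), (-3 / 2, 24)], 3), ([(1, 12), (3 / 2, 19)], 4),
    ([(1, 13), (-3 / 2, 22)], 5), ([(1, 14), (1 / 2, 23)], 6), ([(1, 16), (-1 / 2, 24)], 7), ([(1, 15)], 8),
    ([(1, 23)], 9), ([(1, 32), (5 / 2, 17), (5 / 2, 38)], 11), ([(1, 33), (-5 / 2, 40)], 12),
    ([(1, 34), (3 / 2, 36), (-5 / 2, 41)], 13), ([(1, 35), (5 / 2, 18), (-3 / 2, 37), (5 / 2, 39)], 14),
    ([(5 / 2, 19)], 15), ([(5 / 2, 36)], 17), ([(7 / 2, 38)], 18), ([(7 / 2, 39)], 21)]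

/-- `g + u₂₄ conj r₅ + u₂₅ conj r₃` -/
def LG : List (List (ℚ × Fin 42) × ℕ) :=
  [([(1, 17)], 0), ([(1, 18), (1, 25)], 2), ([(1, 19)], 1), ([(1, 36), (1, 24)], 12)]

/-- `h + u₂₃ r₅ + u₂₅ r₃` -/
def LH : List (List (ℚ × Fin 42) × ℕ) :=
  [([(1, 20)], 0), ([(1, 21), (1, 25)], 1), ([(1, 22)], 2), ([(1, 37), (1, 23)], 11)]

/-- the coefficient of `E⁵` -/
def LC : List (List (ℚ × Fin 42) × ℕ) :=
  [([(1, 38)], 0), ([(1, 39), (1, 23)], 2), ([(1, 24)], 19), ([(1, 25)], 12)]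

/-- the coefficient of `conj E⁵` -/
def LD : List (List (ℚ × Fin 42) × ℕ) :=
  [([(1, 40)], 0), ([(1, 41), (1, 24)], 1), ([(1, 23)], 18), ([(1, 25)], 11)]

theorem LA_eq (u : Fin 42 → ℝ) (hu : u 0 = 1) (m : M9) :
    a12 u m - 1 + u 24 * conj (m 0) - u 23 * m 0 * conj (3 / 2 * m 0) = sv u (zM m) LA := by
  simp only [LA, sv, lcv, zM, a12, g12, h12, γ12, δ12, hu, map_mul, map_div₀, map_ofNat]
  push_cast
  ring

theorem LB_eq (u : Fin 42 → ℝ) (hu : u 0 = 1) (m : M9) :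
    b12 u m + u 23 * m 0 + 3 / 2 * m 0 - u 24 * conj (m 0) * (3 / 2 * m 0) =
      sv u (zM m) LB + (u 26 + Complex.I * u 27) := by
  simp only [LB, sv, lcv, zM, b12, g12, h12, γ12, δ12, hu]
  push_cast
  ring

theorem LG_eq (u : Fin 42 → ℝ) (m : M9) :
    g12 u m + (u 24 * conj (m 1) + u 25 * conj (m 0)) = sv u (zM m) LG := by
  simp only [LG, sv, lcv, zM, g12]
  push_cast
  ring

theorem LH_eq (u : Fin 42 → ℝ) (m : M9) :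
    h12 u m + (u 23 * m 1 + u 25 * m 0) = sv u (zM m) LH := by
  simp only [LH, sv, lcv, zM, h12]
  push_cast
  ring

theorem LC_eq (u : Fin 42 → ℝ) (m : M9) :
    γ12 u m + (u 23 * conj (m 0) + u 24 * conj (m 2) + u 25 * conj (m 1)) = sv u (zM m) LC := by
  simp only [LC, sv, lcv, zM, γ12]
  push_cast
  ring

theorem LD_eq (u : Fin 42 → ℝ) (m : M9) :
    δ12 u m + (u 23 * m 2 + u 24 * m 0 + u 25 * m 1) = sv u (zM m) LD := by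
  simp only [LD, sv, lcv, zM, δ12]
  push_cast
  ring

/-! ### the bound of the deviation -/

/-- **the bound of the square of the deviation** -/
def nb12 (U : Fin 42 → Bl) (t ρ ρ' ρ₂ q : ℚ) : ℚ :=
  let a := sb U (Zb ρ ρ' ρ₂ q) LA
  let b := sb U (Zb ρ ρ' ρ₂ q) LB + t
  let s := 3 / 2 * ρ
  let D := 1 - s * s
  (1 + (a + b * s) / D) ^ 2 + ((a * s + b) / D) ^ 2 + sb U (Zb ρ ρ' ρ₂ q) LG ^ 2 + sb U (Zb ρ ρ' ρ₂ q) LH ^ 2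
    + sb U (Zb ρ ρ' ρ₂ q) LC ^ 2 + sb U (Zb ρ ρ' ρ₂ q) LD ^ 2 + ((U 23).ab + (U 24).ab + (U 25).ab) ^ 2 * q

theorem PQ_le {a b x σ : ℂ} {α β ρ : ℝ} (hσ : ‖σ‖ ≤ ρ) (hρ : ρ < 1) (ha : ‖a‖ ≤ α) (hb : ‖b‖ ≤ β)
    (hx : x * ((1 - ‖σ‖ ^ 2 : ℝ) : ℂ) = a + b * σ) : ‖x‖ ≤ (α + β * ρ) / (1 - ρ * ρ) := by
  have n0 := norm_nonneg σ
  have hD : 0 < 1 - ‖σ‖ ^ 2 := by nlinarith
  have hR : 0 < 1 - ρ * ρ := by nlinarith
  have h1 : ‖x‖ * (1 - ‖σ‖ ^ 2) ≤ α + β * ρ := by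
    have e : ‖x * ((1 - ‖σ‖ ^ 2 : ℝ) : ℂ)‖ = ‖x‖ * (1 - ‖σ‖ ^ 2) := by
      rw [norm_mul, Complex.norm_real, Real.norm_eq_abs, abs_of_pos hD]
    rw [← e, hx]
    refine (norm_add_le _ _).trans (add_le_add ha ?_)
    rw [norm_mul]
    exact mul_le_mul hb hσ n0 ((norm_nonneg _).trans hb)
  rw [le_div_iff₀ hR]
  have h2 : 1 - ρ * ρ ≤ 1 - ‖σ‖ ^ 2 := by nlinarith
  exact (mul_le_mul_of_nonneg_left h2 (norm_nonneg x)).trans h1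

/-- **the bound of the deviation at one state** -/
theorem devK_le12 {f : ℝ → ℝ} {K : ℝ → ℂ} (H : Re f) {Bx : BU.Dev5} {u u' : Fin 42 → ℝ} {U : Fin 42 → Bl}
    (hD : DevLe5 Bx Psi12 u f) (hU : ∀ i, (U i).Has (u' i)) (hu : ∀ i, i ≠ 26 → i ≠ 27 → u i = u' i) (h0 : u 0 = 1)
    {t ρ ρ' ρ₂ q N : ℚ} (ht : ‖(u 26 + Complex.I * u 27 : ℂ)‖ ≤ (t : ℝ)) (h3 : ‖m12 f 0‖ ≤ (ρ : ℝ))
    (h5 : ‖m12 f 1‖ ≤ (ρ' : ℝ)) (h7 : ‖m12 f 2‖ ≤ (ρ₂ : ℝ)) (m3 : ‖m12 f 3‖ ≤ (q : ℝ)) (m4 : ‖m12 f 4‖ ≤ (q : ℝ))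
    (m5 : ‖m12 f 5‖ ≤ (q : ℝ)) (hq : q0 f ≤ q) (hρ : 3 / 2 * ρ < 1) (hN : 0 ≤ N) (hn : nb12 U t ρ ρ' ρ₂ q ≤ N ^ 2)
    (hK : Measurable K) (hK1 : ∀ t, ‖K t‖ ≤ 1) {A B : ℂ}
    (hA : A - F54.sF f * conj B = ∫ t, ee f t * conj (K t) ∂(OMB.vm (X1 f) (X2 f)))
    (hB : B - F54.sF f * conj A = ∫ t, ee f t * K t ∂(OMB.vm (X1 f) (X2 f))) : ‖devK5 Bx f K A B‖ ≤ (N : ℝ) := by
  refine (BU.devK5_leR H hD K A B).trans ?_
  refine (dev12_km H u hK hK1 hA hB).le H.hf hK hK1 (by exact_mod_cast hN) ((ker12_norm H u).trans ?_)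
  have hz := zM_le h3 h5 h7 m3 m4 m5
  -- the lists do not use the slots `26, 27`
  have lc : ∀ l : List (ℚ × Fin 42), (∀ x ∈ l, x.2 ≠ 26 ∧ x.2 ≠ 27) → lcv u l = lcv u' l := by
    intro l
    induction l with
    | nil => intro _; rfl
    | cons a l ih =>
      intro h
      have h1 := h a List.mem_cons_self
      have h2 := ih fun x hx => h x (List.mem_cons_of_mem _ hx)
      show (a.1 : ℝ) * u a.2 + lcv u l = (a.1 : ℝ) * u' a.2 + lcv u' l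
      rw [hu _ h1.1 h1.2, h2]
  have sL : ∀ L : List (List (ℚ × Fin 42) × ℕ), (∀ y ∈ L, ∀ x ∈ y.1, x.2 ≠ 26 ∧ x.2 ≠ 27) →
      sv u (zM (m12 f)) L = sv u' (zM (m12 f)) L := by
    intro L
    induction L with
    | nil => intro _; rfl
    | cons a L ih =>
      intro h
      have h1 := lc a.1 (h a List.mem_cons_self)
      have h2 := ih fun y hy => h y (List.mem_cons_of_mem _ hy)
      show (lcv u a.1 : ℂ) * zM (m12 f) a.2 + sv u (zM (m12 f)) L = (lcv u' a.1 : ℂ) * zM (m12 f) a.2 + _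
      rw [h1, h2]
  have bL : ∀ L : List (List (ℚ × Fin 42) × ℕ), (∀ y ∈ L, ∀ x ∈ y.1, x.2 ≠ 26 ∧ x.2 ≠ 27) →
      ‖sv u (zM (m12 f)) L‖ ≤ ((sb U (Zb ρ ρ' ρ₂ q) L : ℚ) : ℝ) := fun L h => by
    rw [sL L h]
    exact sv_le hU hz L
  have bA := bL LA (by decide)
  have bB := bL LB (by decide)
  have bG := bL LG (by decide)
  have bH := bL LH (by decide)
  have bC := bL LC (by decide)
  have bD := bL LD (by decide)
  set α : ℝ := ((sb U (Zb ρ ρ' ρ₂ q) LA : ℚ) : ℝ) with hα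
  set β : ℝ := ((sb U (Zb ρ ρ' ρ₂ q) LB : ℚ) : ℝ) with hβ
  have hσ : F54.sF f = 3 / 2 * m12 f 0 := by
    have e : m12 f 0 = r3 f := m8_0 H
    rw [e]
    exact H.sf
  have nσ : ‖F54.sF f‖ ≤ 3 / 2 * (ρ : ℝ) := by
    rw [hσ, norm_mul]
    have : ‖(3 / 2 : ℂ)‖ = 3 / 2 := by norm_num
    rw [this]
    linarith
  have hρ1 : 3 / 2 * (ρ : ℝ) < 1 := by
    have h : ((3 / 2 * ρ : ℚ) : ℝ) < ((1 : ℚ) : ℝ) := by exact_mod_cast hρ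
    push_cast at h
    exact h
  have hp := one_sub_pos H.hf
  have hpc : (1 : ℂ) - ((‖F54.sF f‖ : ℝ) : ℂ) ^ 2 ≠ 0 := by
    have e : (1 : ℂ) - ((‖F54.sF f‖ : ℝ) : ℂ) ^ 2 = ((1 - ‖F54.sF f‖ ^ 2 : ℝ) : ℂ) := by push_cast; ring
    rw [e]
    exact Complex.ofReal_ne_zero.2 hp.ne'
  have ns : ((‖F54.sF f‖ : ℝ) : ℂ) ^ 2 = F54.sF f * conj (F54.sF f) := by
    rw [Complex.mul_conj, Complex.normSq_eq_norm_sq]
    push_cast
    rfl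
  have a1 : ‖a12 u (m12 f) - 1 + u 24 * conj (m12 f 0) - u 23 * m12 f 0 * conj (3 / 2 * m12 f 0)‖ ≤ α := by
    rw [LA_eq u h0]
    exact bA
  have b1 : ‖b12 u (m12 f) + u 23 * m12 f 0 + 3 / 2 * m12 f 0 - u 24 * conj (m12 f 0) * (3 / 2 * m12 f 0)‖ ≤
      β + t := by
    rw [LB_eq u h0]
    exact (norm_add_le _ _).trans (add_le_add bB ht)
  have hc1 : ‖conj (F54.sF f)‖ ≤ 3 / 2 * (ρ : ℝ) := by rwa [Complex.norm_conj]
  have eP : ‖(C12 u f).P f + u 24 * conj (m12 f 0)‖ ≤ 1 + (α + (β + t) * (3 / 2 * ρ)) / (1 - 3 / 2 * ρ * (3 / 2 * ρ)) := by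
    have e : (C12 u f).P f + u 24 * conj (m12 f 0) = 1 + ((C12 u f).P f + u 24 * conj (m12 f 0) - 1) := by ring
    rw [e]
    refine (norm_add_le _ _).trans ?_
    rw [norm_one]
    refine add_le_add_right (PQ_le hc1 hρ1 a1 b1 ?_) 1
    have hn : ‖conj (F54.sF f)‖ = ‖F54.sF f‖ := Complex.norm_conj _
    rw [hn]
    show ((a12 u (m12 f) + b12 u (m12 f) * conj (F54.sF f)) * ((1 / (1 - ‖F54.sF f‖ ^ 2) : ℝ) : ℂ)
      + u 24 * conj (m12 f 0) - 1) * ((1 - ‖F54.sF f‖ ^ 2 : ℝ) : ℂ) = _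
    rw [← hσ]
    push_cast
    field_simp
    rw [ns]
    ring
  have eQ : ‖(C12 u f).Q f + u 23 * m12 f 0‖ ≤ (β + t + α * (3 / 2 * ρ)) / (1 - 3 / 2 * ρ * (3 / 2 * ρ)) := by
    refine PQ_le nσ hρ1 b1 a1 ?_
    show ((a12 u (m12 f) * F54.sF f + b12 u (m12 f)) * ((1 / (1 - ‖F54.sF f‖ ^ 2) : ℝ) : ℂ)
      + u 23 * m12 f 0) * ((1 - ‖F54.sF f‖ ^ 2 : ℝ) : ℂ) = _
    rw [← hσ]
    push_cast
    field_simp
    rw [ns]
    ring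
  have g1 : ‖g12 u (m12 f) + (u 24 * conj (m12 f 1) + u 25 * conj (m12 f 0))‖ ≤
      ((sb U (Zb ρ ρ' ρ₂ q) LG : ℚ) : ℝ) := by rw [LG_eq]; exact bG
  have g2 : ‖h12 u (m12 f) + (u 23 * m12 f 1 + u 25 * m12 f 0)‖ ≤ ((sb U (Zb ρ ρ' ρ₂ q) LH : ℚ) : ℝ) := by
    rw [LH_eq]; exact bH
  have g3 : ‖γ12 u (m12 f) + (u 23 * conj (m12 f 0) + u 24 * conj (m12 f 2) + u 25 * conj (m12 f 1))‖ ≤
      ((sb U (Zb ρ ρ' ρ₂ q) LC : ℚ) : ℝ) := by rw [LC_eq]; exact bC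
  have g4 : ‖δ12 u (m12 f) + (u 23 * m12 f 2 + u 24 * m12 f 0 + u 25 * m12 f 1)‖ ≤
      ((sb U (Zb ρ ρ' ρ₂ q) LD : ℚ) : ℝ) := by rw [LD_eq]; exact bD
  have g5 : (|u 23| + |u 24| + |u 25|) ^ 2 * q0 f ≤ (((U 23).ab : ℝ) + (U 24).ab + (U 25).ab) ^ 2 * q := by
    have e1 : |u 23| ≤ ((U 23).ab : ℝ) := by rw [hu 23 (by decide) (by decide)]; exact (hU 23).ab
    have e2 : |u 24| ≤ ((U 24).ab : ℝ) := by rw [hu 24 (by decide) (by decide)]; exact (hU 24).ab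
    have e3 : |u 25| ≤ ((U 25).ab : ℝ) := by rw [hu 25 (by decide) (by decide)]; exact (hU 25).ab
    have n1 := abs_nonneg (u 23)
    have n2 := abs_nonneg (u 24)
    have n3 := abs_nonneg (u 25)
    exact mul_le_mul (pow_le_pow_left₀ (by positivity) (by linarith) 2) hq (q0_nn f) (sq_nonneg _)
  have hn' : ((nb12 U t ρ ρ' ρ₂ q : ℚ) : ℝ) ≤ (N : ℝ) ^ 2 := by exact_mod_cast hn
  refine le_trans ?_ hn'
  unfold nb12
  push_cast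
  have f1 := pow_le_pow_left₀ (norm_nonneg _) eP 2
  have f2 := pow_le_pow_left₀ (norm_nonneg _) eQ 2
  have f3 := pow_le_pow_left₀ (norm_nonneg _) g1 2
  have f4 := pow_le_pow_left₀ (norm_nonneg _) g2 2
  have f5 := pow_le_pow_left₀ (norm_nonneg _) g3 2
  have f6 := pow_le_pow_left₀ (norm_nonneg _) g4 2
  have e7 : (α * (3 / 2 * (ρ : ℝ)) + (β + t)) / (1 - 3 / 2 * ρ * (3 / 2 * ρ)) =
    (β + t + α * (3 / 2 * ρ)) / (1 - 3 / 2 * ρ * (3 / 2 * ρ)) := by rw [add_comm]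
  rw [e7]
  linarith

/-! ### the coefficients as expressions -/

open Ex in
/-- the coefficients `u12` (slots `26, 27`: zero): variables `c, s², k₀ .. k₇, k₀' .. k₇', n₀ .. n₃, n₀' .. n₃'` -/
def uE : Fin 42 → Ex :=
  let c := v 0
  let S := v 1
  let S2 := mul S S
  let S3 := mul S S2
  let cc := mul c c
  let cS := mul c S
  ![q 1,
    sq' (-1) (mul cS (v 10)),
    add (sq' (-1) (mul (mul c S2) (v 11))) (sq' 8 (mul (mul cc S) (v 3))),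
    add (sq' (-2) (mul cS (v 12))) (mul (add (sq' 8 cc) (sq' 2 S)) (v 4)),
    add (sq' (-2) (mul (mul c S2) (v 13))) (sq' 2 (mul S2 (v 5))),
    add (sq' (-2) (mul (mul c S3) (v 14))) (mul (mul S2 (add (sq' 28 cc) (sq' 2 S))) (v 6)),
    add (sq' (-1 / 2) (mul cS (v 15))) (mul (add cc (sq' (1 / 2) S)) (v 7)),
    add (sq' (-1 / 2) (mul cS (v 16))) (mul (add (sq' 2 cc) (sq' (1 / 2) S)) (v 8)),
    add (sq' (-1 / 2) (mul cS (v 17))) (add (sq' 3 (mul cc (v 9))) (sq' (1 / 2) (mul S (add (v 8) (v 9))))),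
    add (sq' (-1) (mul cS (v 10))) (sq' 4 (mul cc (v 2))),
    sq' (-1) (mul (mul c S2) (v 11)),
    add (sq' (-2) (mul cS (v 12))) (mul (add (sq' 4 cc) (sq' 2 S)) (v 4)),
    add (add (sq' (-2) (mul (mul c S2) (v 13))) (mul (mul S (add (sq' 20 cc) (sq' 2 S))) (v 5)))
      (mul (mul cc S) (mul (v 2) (v 2))),
    add (sq' (-2) (mul (mul c S3) (v 14))) (sq' 2 (mul S3 (v 6))),
    add (sq' (-1 / 2) (mul cS (v 15))) (add (sq' 2 (mul cc (v 7))) (sq' (1 / 2) (mul S (add (v 7) (v 8))))),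
    add (sq' (-1 / 2) (mul cS (v 16))) (mul (add cc (sq' (1 / 2) S)) (v 8)),
    add (sq' (-1 / 2) (mul cS (v 17))) (sq' (1 / 2) (mul S (v 9))),
    mul S (v 2), sq' 2 (mul S (v 4)), sq' 4 (mul S2 (v 5)), mul S2 (v 3), sq' 2 (mul S (v 4)),
    sq' 4 (mul S3 (v 6)), mul S (v 7), mul S (v 9), mul S (v 8), q 0, q 0,
    sq' (-1) (mul (mul c S2) (v 22)),
    add (sq' (-1) (mul (mul c S3) (v 23))) (sq' 12 (mul (mul cc S2) (v 19))),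
    add (sq' (-2) (mul cS (v 24))) (mul (add (sq' 12 cc) (sq' 2 S)) (v 20)),
    add (sq' (-2) (mul cS (v 25))) (mul (add (sq' 4 cc) (sq' 2 S)) (v 21)),
    add (sq' (-1) (mul (mul c S2) (v 22))) (sq' 8 (mul (mul cc S) (v 18))),
    sq' (-1) (mul (mul c S3) (v 23)),
    add (sq' (-2) (mul cS (v 24))) (sq' 2 (mul S (v 20))),
    add (sq' (-2) (mul cS (v 25))) (mul (add (sq' 8 cc) (sq' 2 S)) (v 21)),
    sq' 2 (mul S (v 20)), sq' 2 (mul S (v 21)), mul S2 (v 18), sq' 2 (mul S (v 21)), mul S3 (v 19),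
    sq' 2 (mul S (v 20))]

/-- the values of the variables -/
def eRn (k k' : Fin 8 → ℝ → ℝ) (n n' : Fin 4 → ℝ → ℝ) (s c : ℝ) : ℕ → ℝ
  | 0 => c
  | 1 => s ^ 2
  | 2 => k 0 c
  | 3 => k 1 c
  | 4 => k 2 c
  | 5 => k 3 c
  | 6 => k 4 c
  | 7 => k 5 c
  | 8 => k 6 c
  | 9 => k 7 c
  | 10 => k' 0 c
  | 11 => k' 1 c
  | 12 => k' 2 c
  | 13 => k' 3 c
  | 14 => k' 4 c
  | 15 => k' 5 c
  | 16 => k' 6 c
  | 17 => k' 7 c
  | 18 => n 0 c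
  | 19 => n 1 c
  | 20 => n 2 c
  | 21 => n 3 c
  | 22 => n' 0 c
  | 23 => n' 1 c
  | 24 => n' 2 c
  | 25 => n' 3 c
  | _ => 0

theorem uE_eq (k k' : Fin 8 → ℝ → ℝ) (n n' : Fin 4 → ℝ → ℝ) (s c : ℝ) (i : Fin 42) :
    (uE i).evR (eRn k k' n n' s c) = u12 k k' n n' s c 0 i := by
  fin_cases i <;> simp only [uE, u12, u8, w14, Ex.evR, sq', eRn, Fin.zero_eta, Fin.mk_one, Fin.reduceFinMk,
    Matrix.cons_val, Complex.zero_re, Complex.zero_im] <;> push_cast <;> ring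

theorem u12_ne (k k' : Fin 8 → ℝ → ℝ) (n n' : Fin 4 → ℝ → ℝ) (s c : ℝ) (τ : ℂ) {i : Fin 42} (h6 : i ≠ 26)
    (h7 : i ≠ 27) : u12 k k' n n' s c τ i = u12 k k' n n' s c 0 i := by
  fin_cases i <;> first | exact absurd rfl h6 | exact absurd rfl h7 |
    simp only [u12, u8, Fin.zero_eta, Fin.mk_one, Fin.reduceFinMk, Matrix.cons_val]

/-- the balls of the variables -/
def eBn (P : Fin 8 → List ℚ) (M : Fin 4 → List ℚ) (C : Bl) : ℕ → Bl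
  | 0 => C
  | 1 => (Bl.pt 1).add ((Bl.pt (-1)).mul (C.mul C))
  | 2 => pB (P 0) C
  | 3 => pB (P 1) C
  | 4 => pB (P 2) C
  | 5 => pB (P 3) C
  | 6 => pB (P 4) C
  | 7 => pB (P 5) C
  | 8 => pB (P 6) C
  | 9 => pB (P 7) C
  | 10 => dB (P 0) C
  | 11 => dB (P 1) C
  | 12 => dB (P 2) C
  | 13 => dB (P 3) C
  | 14 => dB (P 4) C
  | 15 => dB (P 5) C
  | 16 => dB (P 6) C
  | 17 => dB (P 7) C
  | 18 => pB (M 0) C
  | 19 => pB (M 1) C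
  | 20 => pB (M 2) C
  | 21 => pB (M 3) C
  | 22 => dB (M 0) C
  | 23 => dB (M 1) C
  | 24 => dB (M 2) C
  | 25 => dB (M 3) C
  | _ => Bl.pt 0

/-- the functions `n_j` -/
def nP (M : Fin 4 → List ℚ) (j : Fin 4) : ℝ → ℝ := pe (M j)

def nP' (M : Fin 4 → List ℚ) (j : Fin 4) : ℝ → ℝ := pe (der (M j))

theorem eBn_has (P : Fin 8 → List ℚ) (M : Fin 4 → List ℚ) {C : Bl} {s c : ℝ} (h : C.Has c) (hs : s ^ 2 = 1 - c ^ 2) :
    ∀ i, (eBn P M C i).Has (eRn (kP P) (kP' P) (nP M) (nP' M) s c i)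
  | 0 => h
  | 1 => by
    have h1 := (Bl.Has.pt 1).add ((Bl.Has.pt (-1)).mul (h.mul h))
    have e : s ^ 2 = ((1 : ℚ) : ℝ) + ((-1 : ℚ) : ℝ) * (c * c) := by
      push_cast
      rw [hs]
      ring
    show Bl.Has _ (s ^ 2)
    rw [e]
    exact h1
  | 2 => by rw [← kP_eq, ← kP_eq']; exact pB_has _ h
  | 3 => by rw [← kP_eq, ← kP_eq']; exact pB_has _ h
  | 4 => by rw [← kP_eq, ← kP_eq']; exact pB_has _ h
  | 5 => by rw [← kP_eq, ← kP_eq']; exact pB_has _ h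
  | 6 => by rw [← kP_eq, ← kP_eq']; exact pB_has _ h
  | 7 => by rw [← kP_eq, ← kP_eq']; exact pB_has _ h
  | 8 => by rw [← kP_eq, ← kP_eq']; exact pB_has _ h
  | 9 => by rw [← kP_eq, ← kP_eq']; exact pB_has _ h
  | 10 => by rw [← kP_eq, ← kP_eq']; exact dB_has _ h
  | 11 => by rw [← kP_eq, ← kP_eq']; exact dB_has _ h
  | 12 => by rw [← kP_eq, ← kP_eq']; exact dB_has _ h
  | 13 => by rw [← kP_eq, ← kP_eq']; exact dB_has _ h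
  | 14 => by rw [← kP_eq, ← kP_eq']; exact dB_has _ h
  | 15 => by rw [← kP_eq, ← kP_eq']; exact dB_has _ h
  | 16 => by rw [← kP_eq, ← kP_eq']; exact dB_has _ h
  | 17 => by rw [← kP_eq, ← kP_eq']; exact dB_has _ h
  | 18 => by show Bl.Has _ (pe (M 0) c); rw [← pv_pe]; exact pB_has _ h
  | 19 => by show Bl.Has _ (pe (M 1) c); rw [← pv_pe]; exact pB_has _ h
  | 20 => by show Bl.Has _ (pe (M 2) c); rw [← pv_pe]; exact pB_has _ h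
  | 21 => by show Bl.Has _ (pe (M 3) c); rw [← pv_pe]; exact pB_has _ h
  | 22 => by show Bl.Has _ (pe (der (M 0)) c); rw [← dv_pe]; exact dB_has _ h
  | 23 => by show Bl.Has _ (pe (der (M 1)) c); rw [← dv_pe]; exact dB_has _ h
  | 24 => by show Bl.Has _ (pe (der (M 2)) c); rw [← dv_pe]; exact dB_has _ h
  | 25 => by show Bl.Has _ (pe (der (M 3)) c); rw [← dv_pe]; exact dB_has _ h
  | n + 26 => by
    have := Bl.Has.pt 0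
    simpa [eBn, eRn] using this

/-- the balls of the coefficients -/
def UB (P : Fin 8 → List ℚ) (M : Fin 4 → List ℚ) (C : Bl) (i : Fin 42) : Bl := (uE i).evB (eBn P M C)

/-! ### the Boolean of a latitude cell -/

/-- bound of the part of `ξ` without the first term -/
def pQ12 (κ : Fin 8 → ℚ) (ν : Fin 4 → ℚ) (b S ρ ρ' q : ℚ) : ℚ :=
  pQ κ b S ρ q + 2 * b * S ^ 3 * ν 0 * ρ' + 2 * b * S ^ 5 * ν 1 * ρ' + 4 * b * S * ν 2 * (ρ * ρ')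
    + 4 * b * S * ν 3 * (ρ * ρ')

theorem pb12_le {k : Fin 8 → ℝ → ℝ} {n : Fin 4 → ℝ → ℝ} {κ : Fin 8 → ℚ} {ν : Fin 4 → ℚ} {s c : ℝ}
    {b S ρ ρ' q : ℚ} (hk : ∀ j, |k j c| ≤ (κ j : ℝ)) (hn : ∀ j, |n j c| ≤ (ν j : ℝ))
    (hs0 : 0 ≤ s) (hs : s ≤ S) (hc0 : 0 ≤ c) (hc : c ≤ b) (hρ : (0 : ℝ) ≤ ρ) (hρ' : (0 : ℝ) ≤ ρ') (hq : (0 : ℝ) ≤ q) :
    pb12 k n s c ρ ρ' q ≤ ((pQ12 κ ν b S ρ ρ' q : ℚ) : ℝ) := by
  have h8 := pb8_le (k := k) hk hs0 hs hc0 hc hρ hq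
  unfold pb12 pQ12
  push_cast
  have hb0 : (0 : ℝ) ≤ b := hc0.trans hc
  have hS0 : (0 : ℝ) ≤ S := hs0.trans hs
  have s3 : s ^ 3 ≤ (S : ℝ) ^ 3 := pow_le_pow_left₀ hs0 hs 3
  have s5 : s ^ 5 ≤ (S : ℝ) ^ 5 := pow_le_pow_left₀ hs0 hs 5
  have n3 : 0 ≤ s ^ 3 := by positivity
  have n5 : 0 ≤ s ^ 5 := by positivity
  have hρ2 : (0 : ℝ) ≤ (ρ : ℝ) * ρ' := mul_nonneg hρ hρ'
  have g : ∀ {x X y Y z Z w : ℝ}, 0 ≤ x → x ≤ X → 0 ≤ y → y ≤ Y → 0 ≤ z → z ≤ Z → 0 ≤ w →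
      x * y * z * w ≤ X * Y * Z * w := by
    intro x X y Y z Z w h1 h2 h3 h4 h5 h6 h7
    have hX := h1.trans h2
    have hY := h3.trans h4
    have hZ := h5.trans h6
    gcongr
  have k0 : ∀ j, 0 ≤ |n j c| := fun j => abs_nonneg _
  have e0 := g hc0 hc n3 s3 (k0 0) (hn 0) hρ'
  have e1 := g hc0 hc n5 s5 (k0 1) (hn 1) hρ'
  have e2 := g hc0 hc hs0 hs (k0 2) (hn 2) hρ2
  have e3 := g hc0 hc hs0 hs (k0 3) (hn 3) hρ2
  linarith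

/-- the moduli of the functions `n_j` on the cell -/
def nQ (M : Fin 4 → List ℚ) (C : Bl) (j : Fin 4) : ℚ := (pB (M j) C).ab

/-- **the check of a cell** `a ≤ c ≤ d.1`, `d.2`: upper bound of `s`; hypotheses `q₀ ≤ Q s²`, `|r₃| ≤ R₃ s`,
`|r₅| ≤ R₅ s`, `|r₇| ≤ R₇ s` -/
def cel12 (P : Fin 8 → List ℚ) (M : Fin 4 → List ℚ) (Q R₃ R₅ R₇ N a : ℚ) (d : ℚ × ℚ) : Bool :=
  let C : Bl := ⟨(a + d.1) / 2, (d.1 - a) / 2⟩
  let q := Q * (1 - a ^ 2)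
  let ρ := min (6 / 25) (R₃ * d.2)
  let ρ' := R₅ * d.2
  let ρ₂ := R₇ * d.2
  let p := pQ12 (kQ P C) (nQ M C) d.1 d.2 ρ ρ' q
  decide (0 ≤ a) && decide (a ≤ d.1) && decide (d.1 ≤ 1) && decide (0 ≤ R₃) && decide (0 ≤ R₅) && decide (0 ≤ R₇)
    && decide (0 ≤ Q) && decide (0 ≤ N) && decide (0 ≤ d.2) && decide (1 - a ^ 2 ≤ d.2 ^ 2)
    && decide (nb12 (UB P M C) (p * (4 * d.1 * d.2 * kQ P C 0 * ρ + p) / 4) ρ ρ' ρ₂ q ≤ N ^ 2)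

/-- the bounds of a state -/
structure Bds (Q R₃ R₅ R₇ : ℚ) (f : ℝ → ℝ) : Prop where
  q : q0 f ≤ (Q : ℝ) * X1 f ^ 2
  r3 : ‖r3 f‖ ≤ (R₃ : ℝ) * X1 f
  r5 : ‖r5 f‖ ≤ (R₅ : ℝ) * X1 f
  r7 : ‖r7 f‖ ≤ (R₇ : ℝ) * X1 f

/-- **soundness of the check of a cell** -/
theorem cel12_sound {P : Fin 8 → List ℚ} {M : Fin 4 → List ℚ} {Q R₃ R₅ R₇ N a : ℚ} {d : ℚ × ℚ}
    (h : cel12 P M Q R₃ R₅ R₇ N a d = true) {f : ℝ → ℝ} (H : Re f) (hB : Bds Q R₃ R₅ R₇ f)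
    (ha : (a : ℝ) ≤ cF f) (hb : cF f ≤ (d.1 : ℝ)) {K : ℝ → ℂ} (hK : Measurable K) (hK1 : ∀ t, ‖K t‖ ≤ 1) {A B : ℂ}
    (hA : A - F54.sF f * conj B = ∫ t, ee f t * conj (K t) ∂(OMB.vm (X1 f) (X2 f)))
    (hB' : B - F54.sF f * conj A = ∫ t, ee f t * K t ∂(OMB.vm (X1 f) (X2 f))) :
    ‖XIP.Bk12 (kap (kP P)) (dkap (kP P) (kP' P)) (mup (nP M)) (dmup (nP M) (nP' M)) f K A B‖ ≤ (N : ℝ) := by
  unfold cel12 at h
  simp only [Bool.and_eq_true, decide_eq_true_eq] at h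
  obtain ⟨⟨⟨⟨⟨⟨⟨⟨⟨⟨a0, ab⟩, b1⟩, hR3⟩, hR5⟩, hR7⟩, hQ⟩, hN⟩, S0⟩, hS⟩, hn⟩ := h
  set C : Bl := ⟨(a + d.1) / 2, (d.1 - a) / 2⟩ with hC
  set q : ℚ := Q * (1 - a ^ 2) with hqd
  set ρ : ℚ := min (6 / 25) (R₃ * d.2) with hρd
  set p : ℚ := pQ12 (kQ P C) (nQ M C) d.1 d.2 ρ (R₅ * d.2) q with hp
  have a0' : (0 : ℝ) ≤ a := by exact_mod_cast a0
  have S0' : (0 : ℝ) ≤ d.2 := by exact_mod_cast S0
  have ρ0 : 0 ≤ ρ := le_min (by norm_num) (mul_nonneg hR3 S0)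
  have hρ1 : 3 / 2 * ρ < 1 := by
    have : ρ ≤ 6 / 25 := min_le_left _ _
    linarith
  have r0R : (0 : ℝ) ≤ ρ := by exact_mod_cast ρ0
  have r0R' : (0 : ℝ) ≤ ((R₅ * d.2 : ℚ) : ℝ) := by exact_mod_cast mul_nonneg hR5 S0
  have hR3' : (0 : ℝ) ≤ R₃ := by exact_mod_cast hR3
  have hR5' : (0 : ℝ) ≤ R₅ := by exact_mod_cast hR5
  have hR7' : (0 : ℝ) ≤ R₇ := by exact_mod_cast hR7
  have hc2 := H.c2
  have hs0 := H.h0
  have hcF : 0 ≤ cF f := H.c0.le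
  have hs2 : X1 f ^ 2 = 1 - cF f ^ 2 := by linarith
  have has : X1 f ^ 2 ≤ 1 - (a : ℝ) ^ 2 := by
    rw [hs2]
    have := pow_le_pow_left₀ a0' ha 2
    linarith
  have hSs : X1 f ≤ (d.2 : ℝ) := by
    refine (sq_le_sq₀ hs0 S0').1 (has.trans ?_)
    exact_mod_cast hS
  have hCc : C.Has (cF f) := by
    unfold Bl.Has
    rw [hC]
    push_cast
    rw [abs_le]
    constructor <;> linarith
  have hQ' : (0 : ℝ) ≤ Q := by exact_mod_cast hQ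
  have hqq : q0 f ≤ (q : ℝ) := by
    refine hB.q.trans ?_
    rw [hqd]
    push_cast
    exact mul_le_mul_of_nonneg_left has hQ'
  have q0' : (0 : ℝ) ≤ q := (q0_nn f).trans hqq
  have hk : ∀ j, |kP P j (cF f)| ≤ (kQ P C j : ℝ) := fun j => by
    rw [← kP_eq]
    exact (pB_has (P j) hCc).ab
  have hnn : ∀ j, |nP M j (cF f)| ≤ (nQ M C j : ℝ) := fun j => by
    have e : nP M j = pv (M j) := (pv_pe (M j)).symm
    rw [e]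
    exact (pB_has (M j) hCc).ab
  have hr3 : ‖m12 f 0‖ ≤ (ρ : ℝ) := by
    have e : m12 f 0 = r3 f := m8_0 H
    rw [e, hρd]
    push_cast
    refine le_min ((r3_le H).trans (le_of_eq (by norm_num))) (hB.r3.trans ?_)
    exact mul_le_mul_of_nonneg_left hSs hR3'
  have hr5 : ‖m12 f 1‖ ≤ ((R₅ * d.2 : ℚ) : ℝ) := by
    have e : m12 f 1 = r5 f := m8_1 H
    rw [e]
    push_cast
    exact hB.r5.trans (mul_le_mul_of_nonneg_left hSs hR5')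
  have hr7 : ‖m12 f 2‖ ≤ ((R₇ * d.2 : ℚ) : ℝ) := by
    have e : m12 f 2 = r7 f := (BTI.r7_eq (Ψ := BU.Ψ0) H.hf H.h0 H.h2).symm
    rw [e]
    push_cast
    exact hB.r7.trans (mul_le_mul_of_nonneg_left hSs hR7')
  have m3 : ‖m12 f 3‖ ≤ (q : ℝ) := by
    have e : m12 f 3 = ((q0 f : ℝ) : ℂ) := BTI.mo3_q0 H (Ψ := BTI.Psi8)
    rw [e, Complex.norm_real, Real.norm_eq_abs, abs_of_nonneg (q0_nn f)]
    exact hqq
  have m4 : ‖m12 f 4‖ ≤ (q : ℝ) := by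
    rw [show m12 f 4 = OMR.q2 f from BTI.mo4_q2 H BTI.Psi8]
    exact (q2_le H).trans hqq
  have m5 : ‖m12 f 5‖ ≤ (q : ℝ) := by
    rw [show m12 f 5 = OMR.q4 f from BTI.mo5 (Ψ := BTI.Psi8) H]
    exact (q4_le H).trans hqq
  set τ := tau12 (kP P) (nP M) f (m12 f 0) with hτ
  have hpb : pb12 (kP P) (nP M) (X1 f) (cF f) ρ ((R₅ * d.2 : ℚ) : ℝ) q ≤ (p : ℝ) :=
    pb12_le hk hnn hs0 hSs hcF hb r0R r0R' q0'
  have hpb0 : 0 ≤ pb12 (kP P) (nP M) (X1 f) (cF f) ρ ((R₅ * d.2 : ℚ) : ℝ) q := by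
    unfold pb12 BTI.pb8
    positivity
  have ht : ‖τ‖ ≤ ((p * (4 * d.1 * d.2 * kQ P C 0 * ρ + p) / 4 : ℚ) : ℝ) := by
    refine (tau12_mo H (kP P) (nP M) Psi12 hr3 hr5 m3 m4).trans ?_
    have hb0 : (0 : ℝ) ≤ d.1 := hcF.trans hb
    have e : 4 * cF f * X1 f * |kP P 0 (cF f)| * ρ ≤ 4 * (d.1 : ℝ) * d.2 * kQ P C 0 * ρ := by
      have := hk 0
      have := abs_nonneg (kP P 0 (cF f))
      gcongr
    have e0 : 0 ≤ 4 * cF f * X1 f * |kP P 0 (cF f)| * (ρ : ℝ) := by positivity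
    have := mul_le_mul hpb (add_le_add e hpb) (by positivity) (hpb0.trans hpb)
    have e2 : ((p * (4 * d.1 * d.2 * kQ P C 0 * ρ + p) / 4 : ℚ) : ℝ) =
        (p : ℝ) * (4 * (d.1 : ℝ) * d.2 * kQ P C 0 * ρ + p) / 4 := by push_cast; ring
    rw [e2]
    linarith
  have hu : ∀ i : Fin 42, i ≠ 26 → i ≠ 27 → u12 (kP P) (kP' P) (nP M) (nP' M) (X1 f) (cF f) τ i =
      u12 (kP P) (kP' P) (nP M) (nP' M) (X1 f) (cF f) 0 i := fun i h6 h7 => u12_ne _ _ _ _ _ _ τ h6 h7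
  refine devK_le12 (Bx := XIP.Bst9 (XIM.xi12 (kap (kP P)) (mup (nP M)))
    (XIP.l12 (kap (kP P)) (dkap (kP P) (kP' P)) (mup (nP M)) (dmup (nP M) (nP' M)))) H
    (u := u12 (kP P) (kP' P) (nP M) (nP' M) (X1 f) (cF f) τ)
    (u' := u12 (kP P) (kP' P) (nP M) (nP' M) (X1 f) (cF f) 0) (U := UB P M C)
    (devLe_B12 H (kP P) (kP' P) (nP M) (nP' M)) (fun i => ?_) hu rfl (t := p * (4 * d.1 * d.2 * kQ P C 0 * ρ + p) / 4)
    (ρ := ρ) (ρ' := R₅ * d.2) (ρ₂ := R₇ * d.2) (q := q) ?_ hr3 hr5 hr7 m3 m4 m5 hqq hρ1 hN hn hK hK1 hA hB'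
  · rw [← uE_eq]
    exact Ex.sound (eBn_has P M hCc hs2) (uE i)
  · have e : ((u12 (kP P) (kP' P) (nP M) (nP' M) (X1 f) (cF f) τ 26 : ℝ) : ℂ)
        + Complex.I * ((u12 (kP P) (kP' P) (nP M) (nP' M) (X1 f) (cF f) τ 27 : ℝ) : ℂ) = τ := by
      have e1 : u12 (kP P) (kP' P) (nP M) (nP' M) (X1 f) (cF f) τ 26 = τ.re := rfl
      have e2 : u12 (kP P) (kP' P) (nP M) (nP' M) (X1 f) (cF f) τ 27 = τ.im := rfl
      rw [e1, e2, mul_comm Complex.I]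
      exact Complex.re_add_im _
    rw [e]
    exact ht

/-- the cells cover `[a, 1]` -/
def cels12 (P : Fin 8 → List ℚ) (M : Fin 4 → List ℚ) (Q R₃ R₅ R₇ N : ℚ) : ℚ → List (ℚ × ℚ) → Bool
  | a, [] => decide (1 ≤ a)
  | a, d :: l => cel12 P M Q R₃ R₅ R₇ N a d && cels12 P M Q R₃ R₅ R₇ N d.1 l

theorem cels12_sound {P : Fin 8 → List ℚ} {M : Fin 4 → List ℚ} {Q R₃ R₅ R₇ N : ℚ}
    {f : ℝ → ℝ} (H : Re f) (hB : Bds Q R₃ R₅ R₇ f) {K : ℝ → ℂ}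
    (hK : Measurable K) (hK1 : ∀ t, ‖K t‖ ≤ 1) {A B : ℂ}
    (hA : A - F54.sF f * conj B = ∫ t, ee f t * conj (K t) ∂(OMB.vm (X1 f) (X2 f)))
    (hB' : B - F54.sF f * conj A = ∫ t, ee f t * K t ∂(OMB.vm (X1 f) (X2 f))) :
    ∀ (l : List (ℚ × ℚ)) (a : ℚ), cels12 P M Q R₃ R₅ R₇ N a l = true → (a : ℝ) ≤ cF f → (X1 f = 0 → l ≠ []) →
      ‖XIP.Bk12 (kap (kP P)) (dkap (kP P) (kP' P)) (mup (nP M)) (dmup (nP M) (nP' M)) f K A B‖ ≤ (N : ℝ)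
  | [], a, h, ha, h1 => by
    exfalso
    have h0 : (1 : ℝ) ≤ a := by
      have : (1 : ℚ) ≤ a := by simpa [cels12] using h
      exact_mod_cast this
    have := H.c2
    have := H.c0
    have hs : X1 f = 0 := by
      have : X1 f ^ 2 ≤ 0 := by nlinarith
      exact pow_eq_zero_iff (two_ne_zero) |>.1 (le_antisymm this (sq_nonneg _))
    exact h1 hs rfl
  | d :: l, a, h, ha, h1 => by
    simp only [cels12, Bool.and_eq_true] at h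
    rcases le_total (cF f) (d.1 : ℝ) with hb | hb
    · exact cel12_sound h.1 H hB ha hb hK hK1 hA hB'
    · rcases eq_or_lt_of_le hb with e | e
      · exact cel12_sound h.1 H hB ha e.ge hK hK1 hA hB'
      refine cels12_sound H hB hK hK1 hA hB' l d.1 h.2 hb fun hs hl => ?_
      have h2 : (1 : ℝ) ≤ d.1 := by
        rw [hl] at h
        have : (1 : ℚ) ≤ d.1 := by simpa [cels12] using h.2
        exact_mod_cast this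
      have := H.c2
      have := H.c0
      rw [hs] at *
      nlinarith

/-- the landed bounds: `Q = 13 / 100`, `R = 51 / 200` for all three harmonics -/
theorem q0_13' (f : ℝ → ℝ) (H : Re f) : q0 f ≤ ((13 / 100 : ℚ) : ℝ) * X1 f ^ 2 := by
  refine (QZ.q0_13 H).trans (le_of_eq ?_)
  push_cast
  ring

theorem of_sq {f : ℝ → ℝ} (H : Re f) {z : ℂ} (h : 2 * ‖z‖ ^ 2 ≤ q0 f) : ‖z‖ ≤ ((51 / 200 : ℚ) : ℝ) * X1 f := by
  have h2 := q0_13' f H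
  have h0 := H.h0
  push_cast at h2 ⊢
  refine (sq_le_sq₀ (norm_nonneg _) (by positivity)).1 ?_
  nlinarith [sq_nonneg (X1 f)]

theorem bds_0 (f : ℝ → ℝ) (H : Re f) : Bds (13 / 100) (51 / 200) (51 / 200) (51 / 200) f :=
  ⟨q0_13' f H, of_sq H (r3_sq H), of_sq H (r5_sq H), of_sq H (bessel H (by norm_num) (bm_x H))⟩

section final

open Pool.Agent.FPX Pool.Agent.FPX.UMP Pool.Agent.FPX.UMQ Pool.Agent.FPX.UXA
open Pool.Agent.FPX.XIM (xi12 dxi12 St1 St2 dSt1 dSt2 DispS)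

variable {A' B' : ℝ}

/-- **the constant of the start map `xi12` from a list of cells** -/
theorem nB_of_cells12 {P : Fin 8 → List ℚ} {M : Fin 4 → List ℚ}
    (DS : DispS (xi12 (kap (kP P)) (mup (nP M)))
      (dxi12 (kap (kP P)) (dkap (kP P) (kP' P)) (mup (nP M)) (dmup (nP M) (nP' M))) A' B')
    {Q R₃ R₅ R₇ N : ℚ} {l : List (ℚ × ℚ)} (hl : cels12 P M Q R₃ R₅ R₇ N 0 l = true)
    (hB : ∀ f, Re f → Bds Q R₃ R₅ R₇ f) :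
    ∀ f h k : ℝ → ℝ, Ef f → Var h k →
      ‖(CST.vv (CST.cu ![St1 (xi12 (kap (kP P)) (mup (nP M))), St2 (xi12 (kap (kP P)) (mup (nP M)))] f)
          (CST.du ![dSt1 (xi12 (kap (kP P)) (mup (nP M)))
            (dxi12 (kap (kP P)) (dkap (kP P) (kP' P)) (mup (nP M)) (dmup (nP M) (nP' M))),
            dSt2 (xi12 (kap (kP P)) (mup (nP M)))
            (dxi12 (kap (kP P)) (dkap (kP P) (kP' P)) (mup (nP M)) (dmup (nP M) (nP' M)))] f h)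
        + Complex.I * CST.vv (CST.cu ![St1 (xi12 (kap (kP P)) (mup (nP M))), St2 (xi12 (kap (kP P)) (mup (nP M)))] f)
          (CST.du ![dSt1 (xi12 (kap (kP P)) (mup (nP M)))
            (dxi12 (kap (kP P)) (dkap (kP P) (kP' P)) (mup (nP M)) (dmup (nP M) (nP' M))),
            dSt2 (xi12 (kap (kP P)) (mup (nP M)))
            (dxi12 (kap (kP P)) (dkap (kP P) (kP' P)) (mup (nP M)) (dmup (nP M) (nP' M)))] f k)) / 2‖ ≤ (N : ℝ) := by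
  have hN : 0 ≤ N := by
    rcases l with _ | ⟨d, l⟩
    · have h2 : (1 : ℚ) ≤ 0 := by simpa [cels12] using hl
      exact absurd h2 (by norm_num)
    · simp only [cels12, Bool.and_eq_true] at hl
      have h := hl.1
      unfold cel12 at h
      simp only [Bool.and_eq_true, decide_eq_true_eq] at h
      obtain ⟨⟨⟨⟨-, hN⟩, -⟩, -⟩, -⟩ := h
      exact hN
  have hN' : (0 : ℝ) ≤ N := by exact_mod_cast hN
  refine XNC.nB_of_realK (XIP.isDevK_xi12 DS) (XIP.rotK_B12 _ _ _ _) hN' fun f H K hK hK1 A B hA hB' => ?_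
  refine cels12_sound H (hB f H) hK hK1 hA hB' l 0 hl (by push_cast; exact H.c0.le) fun _ h0 => ?_
  rw [h0] at hl
  have h2 : (1 : ℚ) ≤ 0 := by simpa [cels12] using hl
  exact absurd h2 (by norm_num)

end final

end Pool.Agent.FPX.XEN
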