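import Mathlib
import Pool.Agent.FPX.XENF
import Pool.Agent.FPX.FSW
import Pool.Agent.FPX.FSX

/-
XENG (helper16): the constant of the start map of the data `DatZ` without the terms of `S₄` from the cells of XENF.
-/

open MeasureTheory Set Filter Topology Complex
open scoped ENNReal NNReal ComplexConjugate

noncomputable section

namespace Pool.Agent.FPX.XEN

open Pool.Agent.FPX.XIP (Bk12 Bk14 BstK BstZ at9 at11 Bst9 Bst11 Nm9 Nm11 L9 L11 l12 l14 gv8 gw8 gv gw)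
open Pool.Agent.FPX.XIM (xi12 xi14 x2 q2s g8)
open Pool.Agent.FPX.OMR (Re q0 r3)
open Pool.Agent.FPX.F54 (X1)
open Pool.Agent.FPX.OMS (cF)
open Pool.Agent.FPX.CEL (Dat DatZ)
open Pool.Agent.FPX.FSW (BkZ)

variable {κ κ' : Fin 8 → ℝ → ℝ} {μ μ' : Fin 4 → ℝ → ℝ} {ν ν' : Fin 2 → ℝ → ℝ}

/-- the deviation of `xi14` without the terms of `S₄` -/
theorem Bk14_zero (h : ∀ j c, ν j c = 0) (h' : ∀ j c, ν' j c = 0) : Bk14 κ κ' μ μ' ν ν' = Bk12 κ κ' μ μ' := by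
  have e1 : xi14 κ μ ν = xi12 κ μ := by
    funext f
    unfold xi14 x2 q2s g8
    simp [h]
  have e2 : ∀ f A B N M S R D P O U V, Bst11 (xi14 κ μ ν) (l14 κ κ' μ μ' ν ν') f A B N M S R D P O U V =
      Bst9 (xi12 κ μ) (l12 κ κ' μ μ') f A B N M S R D P O := by
    intro f A B N M S R D P O U V
    unfold Bst11 Bst9 Nm11 Nm9 L11 L9
    rw [e1]
    have j : ∀ i : Fin 9, l14 κ κ' μ μ' ν ν' f (Fin.castAdd 2 i) = l12 κ κ' μ μ' f i := by
      intro i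
      unfold l14 gv8 gw8 gv gw q2s g8
      fin_cases i <;> simp [h, h']
    have j0 : l14 κ κ' μ μ' ν ν' f 0 = l12 κ κ' μ μ' f 0 := j 0
    have j1 : l14 κ κ' μ μ' ν ν' f 1 = l12 κ κ' μ μ' f 1 := j 1
    have j2 : l14 κ κ' μ μ' ν ν' f 2 = l12 κ κ' μ μ' f 2 := j 2
    have j3 : l14 κ κ' μ μ' ν ν' f 3 = l12 κ κ' μ μ' f 3 := j 3
    have j4 : l14 κ κ' μ μ' ν ν' f 4 = l12 κ κ' μ μ' f 4 := j 4
    have j5 : l14 κ κ' μ μ' ν ν' f 5 = l12 κ κ' μ μ' f 5 := j 5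
    have j6 : l14 κ κ' μ μ' ν ν' f 6 = l12 κ κ' μ μ' f 6 := j 6
    have j7 : l14 κ κ' μ μ' ν ν' f 7 = l12 κ κ' μ μ' f 7 := j 7
    have j8 : l14 κ κ' μ μ' ν ν' f 8 = l12 κ κ' μ μ' f 8 := j 8
    have j9 : l14 κ κ' μ μ' ν ν' f 9 = 0 := by
      unfold l14 g8
      simp [h]
    have j10 : l14 κ κ' μ μ' ν ν' f 10 = 0 := by
      unfold l14 g8
      simp [h]
    rw [j0, j1, j2, j3, j4, j5, j6, j7, j8, j9, j10]
    ring
  funext f K A B
  exact e2 _ _ _ _ _ _ _ _ _ _ _ _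

theorem nn_eq (D : DatZ) : D.nn = nP D.n := by
  funext j c
  exact (PCO.pe_eq _ _).symm

theorem nn'_eq (D : DatZ) : D.nn' = nP' D.n := by
  funext j c
  have h1 : HasDerivAt (BTQ.pe (D.n j)) (BTQ.pe (CEL.pd (D.n j)) c) c := CEL.hasDerivAt_pe _ _
  have e : BTQ.pe (D.n j) = PCO.pe (D.n j) := funext fun c => (PCO.pe_eq _ c).symm
  rw [e] at h1
  exact h1.unique (PCO.hasDerivAt_pe _ _)

/-- no terms of `S₄` in the start map -/
def noS4 (D : DatZ) : Bool := decide (D.m 0 = [] ∧ D.m 1 = [])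

theorem BkZ_eq {D : DatZ} (hm : noS4 D = true) : BkZ D =
    Bk12 (BTI.kap (kP D.k)) (BTI.dkap (kP D.k) (kP' D.k)) (BU.mup (nP D.n)) (BU.dmup (nP D.n) (nP' D.n)) := by
  obtain ⟨h0, h1⟩ := of_decide_eq_true hm
  have hm' : ∀ j, D.m j = [] := fun j => by
    fin_cases j
    · exact h0
    · exact h1
  have e : BkZ D = Bk12 (BTI.kap D.kk) (BTI.dkap D.kk D.kk') (BU.mup D.nn) (BU.dmup D.nn D.nn') := by
    refine Bk14_zero (fun j c => ?_) fun j c => ?_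
    · unfold DatZ.mm
      rw [hm' j]
      simp [BTQ.pe]
    · unfold DatZ.mm'
      rw [hm' j]
      simp [BTQ.pe, CEL.pd]
  rw [e, FSX.kk_eq, FSX.kk'_eq, nn_eq, nn'_eq]

/-- **the bound of the start map of the data from the list of cells** -/
theorem bdR_of_cells {D : DatZ} (hm : noS4 D = true) {Q R₃ R₅ R₇ N : ℚ} {l : List (ℚ × ℚ)}
    (hl : cels12 D.k D.n Q R₃ R₅ R₇ N 0 l = true) (hB : ∀ f, Re f → Bds Q R₃ R₅ R₇ f) : FST.BdR (BkZ D) N := by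
  intro f H K hK hK1 A B hA hB'
  rw [BkZ_eq hm]
  refine cels12_sound H (hB f H) hK hK1 hA hB' l 0 hl (by push_cast; exact H.c0.le) fun _ h0 => ?_
  rw [h0] at hl
  have h2 : (1 : ℚ) ≤ 0 := by simpa [cels12] using hl
  exact absurd h2 (by norm_num)

end Pool.Agent.FPX.XEN
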