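import Mathlib
import Pool.Agent.FPX.XENH
import Pool.Agent.FPX.LFS

/-
XENI (helper16): the bounds of `q₀`, `r₃`, `r₅`, `r₇` of QZE, LFR and LFS for the cells of XENF.
-/

noncomputable section

namespace Pool.Agent.FPX.XEN

open Pool.Agent.FPX.OMR (Re)
open Pool.Agent.FPX.CEL (DatZ)
open Pool.Agent.FPX.FSW (BkZ)

/-- the bounds with helper69's constants, all three moments -/
theorem bds_2 (f : ℝ → ℝ) (H : Re f) :
    Bds (13 / 100) (21359 / 100000) (12882 / 100000) (925 / 10000) f where
  q := q0_13' f H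
  r3 := (bds_1 f H).r3
  r5 := (bds_1 f H).r5
  r7 := (LF.r7_le H).trans (le_of_eq (by push_cast; ring))

/-- **the bound of the start map of the data** -/
theorem bdR_2 {D : DatZ} (hm : noS4 D = true) {N : ℚ} {l : List (ℚ × ℚ)}
    (hl : cels12 D.k D.n (13 / 100) (21359 / 100000) (12882 / 100000) (925 / 10000) N 0 l = true) :
    FST.BdR (BkZ D) N :=
  bdR_of_cells hm hl bds_2

end Pool.Agent.FPX.XEN
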