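import Mathlib
import Pool.Agent.FPX.EDAT
import Pool.Agent.FPX.XENI

/-
ENB (helper16): the bound of the start map of the data of EDAT: `‖R‖ ≤ N` for all states.  Written by emit_enb.py.
-/

noncomputable section

set_option linter.all false
set_option maxRecDepth 100000

namespace Pool.Agent.FPX.ENB

open Pool.Agent.FPX.FSW (BkZ)

/-- the bound of the start map -/
def N : ℚ := 803 / 500

/-- the cells: (right end of the cell in the cosine, upper bound of the sine at the left end) -/
def L : List (ℚ × ℚ) :=
  [(3 / 200, 1), (3 / 50, 1), (27 / 200, 999 / 1000), (23 / 100, 991 / 1000), (7 / 20, 487 / 500),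
   (101 / 200, 937 / 1000), (141 / 200, 108 / 125), (49 / 50, 71 / 100), (1, 199 / 1000)]

theorem noS : XEN.noS4 EDAT.D = true := by decide +kernel

theorem okL : XEN.cels12 EDAT.D.k EDAT.D.n (13 / 100) (21359 / 100000) (12882 / 100000) (925 / 10000) N 0 L = true := by
  decide +kernel

/-- **the bound of the start map** -/
theorem nb : FST.BdR (BkZ EDAT.D) ((N : ℚ) : ℝ) := XEN.bdR_2 noS okL

end Pool.Agent.FPX.ENB
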