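import Mathlib
import Pool.Agent.FPX.ECL
import Pool.Agent.FPX.EP_A0_0
import Pool.Agent.FPX.EP_A0_1
import Pool.Agent.FPX.EP_A0_2
import Pool.Agent.FPX.EP_A0_3
import Pool.Agent.FPX.EP_A1_1
import Pool.Agent.FPX.EP_A1_2
import Pool.Agent.FPX.EP_A1_3
import Pool.Agent.FPX.EP_A2_1
import Pool.Agent.FPX.EP_A2_2
import Pool.Agent.FPX.EP_A2_3
import Pool.Agent.FPX.EP_A3_1
import Pool.Agent.FPX.EP_A3_2
import Pool.Agent.FPX.EP_A3_3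
import Pool.Agent.FPX.EP_A4_1
import Pool.Agent.FPX.EP_A4_2
import Pool.Agent.FPX.EP_A4_3
import Pool.Agent.FPX.EP_A5_1
import Pool.Agent.FPX.EP_A5_2
import Pool.Agent.FPX.EP_A5_3
import Pool.Agent.FPX.EP_A6_1
import Pool.Agent.FPX.EP_A6_2
import Pool.Agent.FPX.EP_A6_3
import Pool.Agent.FPX.EP_A7_1
import Pool.Agent.FPX.EP_A7_2
import Pool.Agent.FPX.EP_A7_3
import Pool.Agent.FPX.EP_A8_1
import Pool.Agent.FPX.EP_A8_2
import Pool.Agent.FPX.EP_A8_3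
import Pool.Agent.FPX.EP_A9_1
import Pool.Agent.FPX.EP_A9_2
import Pool.Agent.FPX.EP_A9_3
import Pool.Agent.FPX.EP_A10_1
import Pool.Agent.FPX.EP_A10_2
import Pool.Agent.FPX.EP_A10_3
import Pool.Agent.FPX.EP_A11_1
import Pool.Agent.FPX.EP_A11_2
import Pool.Agent.FPX.EP_A11_3
import Pool.Agent.FPX.EP_A12_1
import Pool.Agent.FPX.EP_A12_2
import Pool.Agent.FPX.EP_A12_3
import Pool.Agent.FPX.EP_A13_1
import Pool.Agent.FPX.EP_A13_2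
import Pool.Agent.FPX.EP_A13_3
import Pool.Agent.FPX.EP_A14_1
import Pool.Agent.FPX.EP_A14_2
import Pool.Agent.FPX.EP_A14_3
import Pool.Agent.FPX.EP_A15_1
import Pool.Agent.FPX.EP_A15_2
import Pool.Agent.FPX.EP_A15_3
import Pool.Agent.FPX.EP_A16_1
import Pool.Agent.FPX.EP_A16_2
import Pool.Agent.FPX.EP_A16_3
import Pool.Agent.FPX.EP_A17_1
import Pool.Agent.FPX.EP_A17_2
import Pool.Agent.FPX.EP_A17_3
import Pool.Agent.FPX.EP_A18_1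
import Pool.Agent.FPX.EP_A18_2
import Pool.Agent.FPX.EP_A18_3
import Pool.Agent.FPX.EP_A19_1
import Pool.Agent.FPX.EP_A19_2
import Pool.Agent.FPX.EP_A19_3
import Pool.Agent.FPX.EP_A20_1
import Pool.Agent.FPX.EP_A20_2

/-
EROW (helper86): the certificate of the row from the control points.
-/

noncomputable section

set_option linter.all false
set_option maxRecDepth 100000

namespace Pool.Agent.FPX.EROW

open Pool.Agent.FPX.CEL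
open Pool.Agent.FPX.EJN
open Pool.Agent.FPX.EDAT
open Pool.Agent.FPX.WPP

open Pool.Agent.FPX.FSW (BkZ)
open Pool.Agent.FPX.ASL (WL)
open Pool.Agent.FPX.FST

/-- **the row A** -/
theorem certA : CertRZ (BkZ D) (WL L m) D.cofZ ((muA : ℚ) : ℝ) ((TA : ℚ) : ℝ) :=
  ECL.certA EP_A0_0.ctl
    EP_A0_1.ctl
    EP_A0_2.ctl
    EP_A0_3.ctl
    EP_A1_1.ctl
    EP_A1_2.ctl
    EP_A1_3.ctl
    EP_A2_1.ctl
    EP_A2_2.ctl
    EP_A2_3.ctl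
    EP_A3_1.ctl
    EP_A3_2.ctl
    EP_A3_3.ctl
    EP_A4_1.ctl
    EP_A4_2.ctl
    EP_A4_3.ctl
    EP_A5_1.ctl
    EP_A5_2.ctl
    EP_A5_3.ctl
    EP_A6_1.ctl
    EP_A6_2.ctl
    EP_A6_3.ctl
    EP_A7_1.ctl
    EP_A7_2.ctl
    EP_A7_3.ctl
    EP_A8_1.ctl
    EP_A8_2.ctl
    EP_A8_3.ctl
    EP_A9_1.ctl
    EP_A9_2.ctl
    EP_A9_3.ctl
    EP_A10_1.ctl
    EP_A10_2.ctl
    EP_A10_3.ctl
    EP_A11_1.ctl
    EP_A11_2.ctl
    EP_A11_3.ctl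
    EP_A12_1.ctl
    EP_A12_2.ctl
    EP_A12_3.ctl
    EP_A13_1.ctl
    EP_A13_2.ctl
    EP_A13_3.ctl
    EP_A14_1.ctl
    EP_A14_2.ctl
    EP_A14_3.ctl
    EP_A15_1.ctl
    EP_A15_2.ctl
    EP_A15_3.ctl
    EP_A16_1.ctl
    EP_A16_2.ctl
    EP_A16_3.ctl
    EP_A17_1.ctl
    EP_A17_2.ctl
    EP_A17_3.ctl
    EP_A18_1.ctl
    EP_A18_2.ctl
    EP_A18_3.ctl
    EP_A19_1.ctl
    EP_A19_2.ctl
    EP_A19_3.ctl
    EP_A20_1.ctl
    EP_A20_2.ctl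


end Pool.Agent.FPX.EROW
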