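import Mathlib
import Pool.Agent.FPX.XIN
import Pool.Agent.FPX.XIZ
import Pool.Agent.FPX.XENB
import Pool.Agent.FPX.FSW

/-
XIJ (helper73): the size of the displacement `xi14` in the real frame, the Boolean check on a latitude cell for
polynomial coefficients, and the size condition `SzZ` of the data `DatZ` from the bounds `q₀ ≤ Q s²`, `|r₃| ≤ κ₃ s`,
`|r₅| ≤ κ₅ s`.
-/

open MeasureTheory Set Filter Topology Complex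
open scoped ENNReal NNReal ComplexConjugate

noncomputable section

namespace Pool.Agent.FPX.XIN

open Pool.Agent.FPX.BTQ (pe padd psm)
open Pool.Agent.FPX.F54 (X1 X2)
open Pool.Agent.FPX.OMS (rF cF)
open Pool.Agent.FPX.OMR (Re r3 r5 q0 q2 q4)
open Pool.Agent.FPX.BTI (kap)
open Pool.Agent.FPX.BU (mup)
open Pool.Agent.FPX.XIM (xi12 xi14 x2)
open Pool.Agent.FPX.CEL (DatZ)
open Pool.Agent.FPX.FSW (SzZ)

variable {f : ℝ → ℝ}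

/-- the bound of `|x2| / c` -/
def bx2 (p : Fin 2 → ℝ → ℝ) (s c q : ℝ) : ℝ := s * |p 0 c| * q + s ^ 3 * |p 1 c| * q

/-- **the size of `xi14`** -/
theorem xi14_size (H : Re f) (k : Fin 8 → ℝ → ℝ) (n : Fin 4 → ℝ → ℝ) (p : Fin 2 → ℝ → ℝ) {r r' q q' q'' : ℝ}
    (hr : ‖r3 f‖ ≤ r) (hp : ‖r5 f‖ ≤ r') (hq : q0 f ≤ q) (hq' : ‖q2 f‖ ≤ q') (hq'' : ‖q4 f‖ ≤ q'') :
    ‖xi14 (kap k) (mup n) p f‖ ≤
      (bx k (X1 f) (cF f) r q q' + bx4 n (X1 f) (cF f) r r' + bx2 p (X1 f) (cF f) q'') * cF f := by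
  have hr0 : 0 ≤ r := (norm_nonneg _).trans hr
  have hp0 : 0 ≤ r' := (norm_nonneg _).trans hp
  have hq0 : 0 ≤ q := (q0_nn f).trans hq
  have hq0' : 0 ≤ q' := (norm_nonneg _).trans hq'
  have hq0'' : 0 ≤ q'' := (norm_nonneg _).trans hq''
  have hc := H.c0.le
  have h0 := H.h0
  have hM0 : 0 ≤ max |k 5 (cF f) + k 7 (cF f)| |k 5 (cF f) - k 7 (cF f)| := (abs_nonneg _).trans (le_max_left _ _)
  rcases h0.lt_or_eq with hs | hs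
  · have h1 := xi12_size H k n hr hp hq hq'
    have h2 := BV.x2_le H hs p H.se4 hq''
    unfold xi14
    refine (norm_add_le _ _).trans ((add_le_add h1 h2).trans (le_of_eq ?_))
    unfold bx2
    ring
  · rw [(BV.z_l14 (k := k) (k' := k) (n := n) (n' := n) (p := p) (p' := p) H hs.symm).1, norm_zero]
    unfold bx bx4 bx2
    positivity

/-! ### polynomial coefficients on a latitude cell -/

/-- the data of the size check of `xi14` on a cell: those of `Sc`, bounds `M` of `|m_j|` -/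
structure Sd extends Sc where
  M : Fin 2 → ℚ

/-- the bound of the part with `S₄` -/
def Sd.bd2 (C : Sd) : ℚ := C.S * C.M 0 * C.q + C.S ^ 3 * C.M 1 * C.q

/-- the check of the parts with `S₄` -/
def Sd.ok2 (C : Sd) (m : Fin 2 → List ℚ) : Bool := ab (m 0) (C.M 0) C.a C.b C.n && ab (m 1) (C.M 1) C.a C.b C.n

/-- the bounds of the moments from `q₀ ≤ Q s²`, `|r₃| ≤ κ₃ s`, `|r₅| ≤ κ₅ s` -/
def Sd.okm (C : Sd) (Q κ₃ κ₅ : ℚ) : Bool :=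
  decide (Q * C.S ^ 2 ≤ C.q ∧ C.q ≤ C.q' ∧ κ₃ * C.S ≤ C.r ∧ κ₅ * C.S ≤ C.p)

/-- **the check of a cell** -/
def Sd.okZ (C : Sd) (k : Fin 8 → List ℚ) (n : Fin 4 → List ℚ) (m : Fin 2 → List ℚ) (Q κ₃ κ₅ : ℚ) : Bool :=
  C.toSc.ok8 k && C.toSc.ok4 n && C.ok2 m && C.okm Q κ₃ κ₅ && C.toSc.fin (C.toSc.bd + C.toSc.bd4 + C.bd2)

theorem bx2_le {C : Sd} {k : Fin 8 → List ℚ} {m : Fin 2 → List ℚ} (h : C.toSc.ok8 k = true) (h2 : C.ok2 m = true)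
    (H : Re f) (hc : cF f ∈ Icc (C.a : ℝ) C.b) :
    bx2 (fun j c => pe (m j) c) (X1 f) (cF f) C.q ≤ ((C.bd2 : ℚ) : ℝ) := by
  have es := (bx_le h H hc).2
  unfold Sc.ok8 at h
  simp only [Bool.and_eq_true, decide_eq_true_eq] at h
  obtain ⟨⟨⟨⟨⟨⟨⟨⟨⟨⟨⟨⟨⟨⟨ha, hab⟩, hS⟩, hs⟩, hr⟩, hq⟩, hq'⟩, -⟩, -⟩, -⟩, -⟩, -⟩, -⟩, -⟩, -⟩ := h
  unfold Sd.ok2 at h2
  rw [Bool.and_eq_true] at h2
  have hS' : (0 : ℝ) ≤ C.S := by exact_mod_cast hS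
  have hq1 : (0 : ℝ) ≤ C.q := by exact_mod_cast hq
  have e0 := ab_sound hab h2.1 hc
  have e1 := ab_sound hab h2.2 hc
  have h00 := H.h0
  have n0 := (abs_nonneg _).trans e0
  have n1 := (abs_nonneg _).trans e1
  unfold bx2 Sd.bd2
  push_cast
  gcongr

/-- **the size of `xi14` on a latitude cell** -/
theorem size14 {C : Sd} {k : Fin 8 → List ℚ} {n : Fin 4 → List ℚ} {m : Fin 2 → List ℚ} {Q κ₃ κ₅ : ℚ} (hQ : 0 ≤ Q)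
    (h3 : 0 ≤ κ₃) (h5 : 0 ≤ κ₅) (h : C.okZ k n m Q κ₃ κ₅ = true) (H : Re f) (hc : cF f ∈ Icc (C.a : ℝ) C.b)
    (hq : q0 f ≤ (Q : ℝ) * X1 f ^ 2) (hr : ‖r3 f‖ ≤ (κ₃ : ℝ) * X1 f) (hp : ‖r5 f‖ ≤ (κ₅ : ℝ) * X1 f) :
    ‖xi14 (kap fun j c => pe (k j) c) (mup fun j c => pe (n j) c) (fun j c => pe (m j) c) f‖ ≤ C.A * cF f ∧
      (C.A : ℝ) * X1 f + (C.A : ℝ) ^ 2 * cF f ^ 2 / 4 < 1 := by
  unfold Sd.okZ at h
  simp only [Bool.and_eq_true] at h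
  obtain ⟨⟨⟨⟨k8, k4⟩, k2⟩, km⟩, kf⟩ := h
  unfold Sd.okm at km
  obtain ⟨d1, d2, d3, d4⟩ := of_decide_eq_true km
  unfold Sc.fin at kf
  simp only [Bool.and_eq_true, decide_eq_true_eq] at kf
  obtain ⟨⟨hA, hB⟩, hE⟩ := kf
  obtain ⟨h1, es⟩ := bx_le k8 H hc
  have hx4 := bx4_le k8 k4 H hc
  have hx2 := bx2_le k8 k2 H hc
  have hA' : (0 : ℝ) ≤ C.A := by exact_mod_cast hA
  have hB' : ((C.toSc.bd : ℚ) : ℝ) + ((C.toSc.bd4 : ℚ) : ℝ) + ((C.bd2 : ℚ) : ℝ) ≤ C.A := by exact_mod_cast hB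
  have hE' : (C.A : ℝ) * C.S + (C.A : ℝ) ^ 2 * (C.b : ℝ) ^ 2 / 4 < 1 := by exact_mod_cast hE
  have hc0 := H.c0.le
  have h00 := H.h0
  have rQ : (0 : ℝ) ≤ Q := by exact_mod_cast hQ
  have r3' : (0 : ℝ) ≤ κ₃ := by exact_mod_cast h3
  have r5' : (0 : ℝ) ≤ κ₅ := by exact_mod_cast h5
  have e1 : X1 f ^ 2 ≤ (C.S : ℝ) ^ 2 := pow_le_pow_left₀ h00 es 2
  have e2 : (Q : ℝ) * (C.S : ℝ) ^ 2 ≤ C.q := by exact_mod_cast d1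
  have e3 : (κ₃ : ℝ) * (C.S : ℝ) ≤ C.r := by exact_mod_cast d3
  have e5 : (κ₅ : ℝ) * (C.S : ℝ) ≤ C.p := by exact_mod_cast d4
  have e4 : (C.q : ℝ) ≤ C.q' := by exact_mod_cast d2
  have m0 : q0 f ≤ C.q := (hq.trans (mul_le_mul_of_nonneg_left e1 rQ)).trans e2
  have m3 : ‖r3 f‖ ≤ C.r := (hr.trans (mul_le_mul_of_nonneg_left es r3')).trans e3
  have m5 : ‖r5 f‖ ≤ C.p := (hp.trans (mul_le_mul_of_nonneg_left es r5')).trans e5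
  refine ⟨(xi14_size H _ _ _ m3 m5 m0 ((XEN.q2_le H).trans (m0.trans e4)) ((XEN.q4_le H).trans m0)).trans
    (mul_le_mul_of_nonneg_right (by linarith) hc0), lt_of_le_of_lt ?_ hE'⟩
  have := hc.2
  gcongr

/-- **the size condition of the data `DatZ`**: one Boolean per cell -/
theorem szZ_of {D : DatZ} {Q κ₃ κ₅ : ℚ} (hQ : 0 ≤ Q) (h3 : 0 ≤ κ₃) (h5 : 0 ≤ κ₅)
    (hq : ∀ f, Re f → q0 f ≤ (Q : ℝ) * X1 f ^ 2) (hr : ∀ f, Re f → ‖r3 f‖ ≤ (κ₃ : ℝ) * X1 f)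
    (hp : ∀ f, Re f → ‖r5 f‖ ≤ (κ₅ : ℝ) * X1 f) {l : List Sd} (hl : cov 0 (l.map Sd.toSc) = true)
    (h : ∀ C ∈ l, C.okZ D.k D.n D.m Q κ₃ κ₅ = true) : SzZ D := by
  intro f H
  have h1 : cF f ≤ 1 := by
    have h2 := H.c2
    have h3 := H.c0
    nlinarith [sq_nonneg (X1 f)]
  obtain ⟨C', hC', hc⟩ := cov_sound hl (c := cF f) (by simpa using H.c0) h1
  obtain ⟨C, hC, rfl⟩ := List.mem_map.1 hC'
  exact ⟨C.A, size14 hQ h3 h5 (h C hC) H hc (hq f H) (hr f H) (hp f H)⟩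

/-- the bound of `|r₃|`, `|r₅|` from the one of `q₀` -/
theorem r_of_q {Q κ : ℚ} (hκ : 0 ≤ κ) (hQ : Q ≤ 2 * κ ^ 2) (hq : ∀ f, Re f → q0 f ≤ (Q : ℝ) * X1 f ^ 2) :
    (∀ f, Re f → ‖r3 f‖ ≤ (κ : ℝ) * X1 f) ∧ ∀ f, Re f → ‖r5 f‖ ≤ (κ : ℝ) * X1 f := by
  have k0 : (0 : ℝ) ≤ κ := by exact_mod_cast hκ
  have k1 : (Q : ℝ) ≤ 2 * (κ : ℝ) ^ 2 := by exact_mod_cast hQ
  have key : ∀ f, Re f → ∀ z : ℂ, 2 * ‖z‖ ^ 2 ≤ q0 f → ‖z‖ ≤ (κ : ℝ) * X1 f := by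
    intro f H z hz
    have h0 := H.h0
    refine (sq_le_sq₀ (norm_nonneg _) (by positivity)).1 ?_
    have h1 := hq f H
    have h2 : (Q : ℝ) * X1 f ^ 2 ≤ 2 * (κ : ℝ) ^ 2 * X1 f ^ 2 := mul_le_mul_of_nonneg_right k1 (sq_nonneg _)
    nlinarith
  exact ⟨fun f H => key f H _ (XEN.r3_sq H), fun f H => key f H _ (XEN.r5_sq H)⟩

/-- **the size condition with `q₀ ≤ Q s²` only** -/
theorem szZ_of_q {D : DatZ} {Q κ : ℚ} (hQ : 0 ≤ Q) (hκ : 0 ≤ κ) (hκQ : Q ≤ 2 * κ ^ 2)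
    (hq : ∀ f, Re f → q0 f ≤ (Q : ℝ) * X1 f ^ 2) {l : List Sd} (hl : cov 0 (l.map Sd.toSc) = true)
    (h : ∀ C ∈ l, C.okZ D.k D.n D.m Q κ κ = true) : SzZ D :=
  szZ_of hQ hκ hκ hq (r_of_q hκ hκQ hq).1 (r_of_q hκ hκQ hq).2 hl h

end Pool.Agent.FPX.XIN
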