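import Mathlib
import Pool.Agent.FPX.EDAT
import Pool.Agent.FPX.XIJ
import Pool.Agent.FPX.XENH

/-
ESZ (helper22, emitted by emit_esz.py): the size condition of the start map of the data `EDAT.D`.
-/

set_option autoImplicit false
set_option linter.all false
set_option maxRecDepth 100000

noncomputable section

namespace Pool.Agent.FPX.ESZ

open Pool.Agent.FPX.XIN
open Pool.Agent.FPX.XEN (bds_1)

/-- the cells -/
def cs : List Sd := [
  { a := 0, b := 1, S := 1, r := 267 / 1250, p := 1289 / 10000, q := 13 / 100, q' := 13 / 100, n := 3,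
    K := ![1937 / 5000, 1491 / 10000, 0, 0, 0, 0, 0, 0],
    L := ![63 / 400, 2929 / 10000, 0, 0],
    A := 1727 / 5000, M := ![0, 0] }]

theorem cov_ok : cov 0 (cs.map Sd.toSc) = true := by decide +kernel

theorem cells_ok : (cs.all fun C => C.okZ EDAT.D.k EDAT.D.n EDAT.D.m (13 / 100) (21359 / 100000) (12882 / 100000)) = true := by
  decide +kernel

/-- **the size condition of the data** -/
theorem sz : FSW.SzZ EDAT.D :=
  szZ_of (by norm_num) (by norm_num) (by norm_num) (fun f H => (bds_1 f H).q) (fun f H => (bds_1 f H).r3)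
    (fun f H => (bds_1 f H).r5) cov_ok fun C hC => List.all_eq_true.1 cells_ok C hC

end Pool.Agent.FPX.ESZ
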