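import Mathlib
import Pool.Agent.FPX.MCL

/-
MCT (helper93): the top of the modulus closing: from a list of certified cells (data and proof) to
`ASX.ClosesE` by one Boolean.
-/

noncomputable section

namespace Pool.Agent.FPX.MCL

/-- a certified cell -/
structure Cert (Ee : ℝ) where
  D : Cell
  c : CellM D.kap Ee D.sg D.cl D.cu D.Xc D.k

/-- the header of a cell -/
def Cell.hd (D : Cell) : Hd := ⟨D.cl, D.cu, D.Xc, D.k⟩

/-- the check of the table of `c` and of the common constants -/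
def topC (κ X σ c₀ k₀ : ℚ) (L : List (ℚ × ℚ)) (Ds : List Cell) : Bool :=
  topOk κ X σ c₀ k₀ L (Ds.map Cell.hd) && Ds.all fun D => decide (D.kap = κ ∧ D.sg = σ)

/-- **the modulus closing from certified cells** -/
theorem closes_ofC {κ X σ c₀ k₀ : ℚ} {L : List (ℚ × ℚ)} {Ee : ℝ} (hE : 1 ≤ Ee) (Cl : List (Cert Ee))
    (h : topC κ X σ c₀ k₀ L (Cl.map Cert.D) = true) : ASX.ClosesE (fun x => x) Ee c₀ X := by
  rw [topC, Bool.and_eq_true] at h
  refine closes_ofB h.1 hE ?_
  intro s hs
  simp only [List.map_map, List.mem_map, Function.comp_apply] at hs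
  obtain ⟨C, hC, rfl⟩ := hs
  have h2 := of_decide_eq_true (List.all_eq_true.1 h.2 C.D (List.mem_map.2 ⟨C, hC, rfl⟩))
  rw [← h2.1, ← h2.2]
  exact C.c

end Pool.Agent.FPX.MCL
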