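import Mathlib
import Pool.Agent.FPX.ECLB
import Pool.Agent.FPX.EP_B0_0
import Pool.Agent.FPX.EP_B0_1
import Pool.Agent.FPX.EP_B0_2
import Pool.Agent.FPX.EP_B1_1
import Pool.Agent.FPX.EP_B1_2
import Pool.Agent.FPX.EP_B2_1
import Pool.Agent.FPX.EP_B2_2
import Pool.Agent.FPX.EP_B3_1
import Pool.Agent.FPX.EP_B3_2
import Pool.Agent.FPX.EP_B4_1
import Pool.Agent.FPX.EP_B5_1
import Pool.Agent.FPX.EP_B6_1
import Pool.Agent.FPX.EP_B7_1
import Pool.Agent.FPX.EP_B8_1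
import Pool.Agent.FPX.EP_B9_1
import Pool.Agent.FPX.EP_B10_1
import Pool.Agent.FPX.EP_B11_1
import Pool.Agent.FPX.EP_B12_1
import Pool.Agent.FPX.EP_B13_1
import Pool.Agent.FPX.EP_B14_1
import Pool.Agent.FPX.EP_B15_1
import Pool.Agent.FPX.EP_B16_1
import Pool.Agent.FPX.EP_B17_1
import Pool.Agent.FPX.EP_B18_1
import Pool.Agent.FPX.EP_B19_1
import Pool.Agent.FPX.EP_B20_1

/-
EROWB (helper86): the certificate of the row from the control points.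
-/

noncomputable section

set_option linter.all false
set_option maxRecDepth 100000

namespace Pool.Agent.FPX.EROWB

open Pool.Agent.FPX.CEL
open Pool.Agent.FPX.EJN
open Pool.Agent.FPX.EDAT
open Pool.Agent.FPX.WPP

open Pool.Agent.FPX.FSW (BkZ)
open Pool.Agent.FPX.ASL (WL)
open Pool.Agent.FPX.FST

/-- **the row B** -/
theorem certB : CertRZ (BkZ D) (WL L m) D.cofZ ((muB : ℚ) : ℝ) ((TB : ℚ) : ℝ) :=
  ECLB.certB EP_B0_0.ctl
    EP_B0_1.ctl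
    EP_B0_2.ctl
    EP_B1_1.ctl
    EP_B1_2.ctl
    EP_B2_1.ctl
    EP_B2_2.ctl
    EP_B3_1.ctl
    EP_B3_2.ctl
    EP_B4_1.ctl
    EP_B5_1.ctl
    EP_B6_1.ctl
    EP_B7_1.ctl
    EP_B8_1.ctl
    EP_B9_1.ctl
    EP_B10_1.ctl
    EP_B11_1.ctl
    EP_B12_1.ctl
    EP_B13_1.ctl
    EP_B14_1.ctl
    EP_B15_1.ctl
    EP_B16_1.ctl
    EP_B17_1.ctl
    EP_B18_1.ctl
    EP_B19_1.ctl
    EP_B20_1.ctl


end Pool.Agent.FPX.EROWB
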