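import Mathlib
import Pool.Agent.FPX.FIX
import Pool.Agent.FPX.VEC

/-
GLOB (helper11): global operators. `G(T, F)` is a map with values in the unit sphere, defined for all
`T` and unit vectors `F`, continuously differentiable, and odd. For a fixed odd Lipschitz map `F`
into the sphere `T ↦ G(T, F)` is an operator of the class `Op`, and there is a fixed point of
`Θ ↦ G(Θ, F)` with almost maximal flux.
-/

open MeasureTheory Set Filter Topology
open scoped ENNReal NNReal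

noncomputable section

namespace Pool.Agent.FPX

open Pool.Agent.EWD

variable {M : Type} [MetricSpace M] {γ : ℝ → M}

/-- a global map `G(T, F)` into the sphere -/
structure GMap (G : E3 × E3 → E3) : Prop where
  cd : ∀ T F : E3, ‖F‖ = 1 → ContDiffAt ℝ 1 G (T, F)
  unit : ∀ T F : E3, ‖F‖ = 1 → ‖G (T, F)‖ = 1
  odd : ∀ T F : E3, ‖F‖ = 1 → G (-T, -F) = -G (T, F)

/-- the map `x ↦ G(T x, F x)` -/
def sub2 (G : E3 × E3 → E3) (F T : Fin 3 → M → ℝ) (k : Fin 3) (x : M) : ℝ :=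
  G (vv (n := 0) T x, vv (n := 0) F x) k

omit [MetricSpace M] in
theorem vv_sub2 (G : E3 × E3 → E3) (F T : Fin 3 → M → ℝ) (x : M) :
    vv (n := 0) (sub2 G F T) x = G (vv (n := 0) T x, vv (n := 0) F x) := by
  ext k
  fin_cases k <;> rfl

/-! ### the chain rule -/

omit [MetricSpace M] in
theorem vv_hasDeriv {U : Fin 3 → M → ℝ} {c : ℝ → M} {g : Fin 3 → ℝ}
    (h : ∀ i, HasDerivAt (fun t => U i (c t)) (g i) 0) :
    HasDerivAt (fun t => vv (n := 0) U (c t)) (!₂[g 0, g 1, g 2] : E3) 0 := by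
  have h1 : HasDerivAt (fun t => ![U 0 (c t), U 1 (c t), U 2 (c t)]) ![g 0, g 1, g 2] 0 := by
    rw [hasDerivAt_pi]
    intro i
    fin_cases i
    · exact h 0
    · exact h 1
    · exact h 2
  exact (PiLp.hasFDerivAt_toLp 2 ![U 0 (c 0), U 1 (c 0), U 2 (c 0)]).comp_hasDerivAt 0 h1

theorem coord_hasDeriv {u : ℝ → E3} {g : E3} (h : HasDerivAt u g 0) (k : Fin 3) :
    HasDerivAt (fun t => u t k) (g k) 0 :=
  (EuclideanSpace.proj (𝕜 := ℝ) k).hasFDerivAt.comp_hasDerivAt 0 h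

omit [MetricSpace M] in
/-- the chain rule along a curve -/
theorem sub2_hasDeriv {G : E3 × E3 → E3} {F T : Fin 3 → M → ℝ} {c : ℝ → M} {gT gF : Fin 3 → ℝ}
    (hT : ∀ i, HasDerivAt (fun t => T i (c t)) (gT i) 0)
    (hF : ∀ i, HasDerivAt (fun t => F i (c t)) (gF i) 0)
    (hG : DifferentiableAt ℝ G (vv (n := 0) T (c 0), vv (n := 0) F (c 0))) (k : Fin 3) :
    HasDerivAt (fun t => sub2 G F T k (c t))
      (fderiv ℝ G (vv (n := 0) T (c 0), vv (n := 0) F (c 0))
        (!₂[gT 0, gT 1, gT 2], !₂[gF 0, gF 1, gF 2]) k) 0 := by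
  have h1 := (vv_hasDeriv hT).prodMk (vv_hasDeriv hF)
  exact coord_hasDeriv (hG.hasFDerivAt.comp_hasDerivAt 0 h1) k

omit [MetricSpace M] in
/-- the chain rule along a curve, scalar functions -/
theorem sub1_hasDeriv {G : E3 × E3 → ℝ} {F T : Fin 3 → M → ℝ} {c : ℝ → M} {gT gF : Fin 3 → ℝ}
    (hT : ∀ i, HasDerivAt (fun t => T i (c t)) (gT i) 0)
    (hF : ∀ i, HasDerivAt (fun t => F i (c t)) (gF i) 0)
    (hG : DifferentiableAt ℝ G (vv (n := 0) T (c 0), vv (n := 0) F (c 0))) :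
    HasDerivAt (fun t => G (vv (n := 0) T (c t), vv (n := 0) F (c t)))
      (fderiv ℝ G (vv (n := 0) T (c 0), vv (n := 0) F (c 0))
        (!₂[gT 0, gT 1, gT 2], !₂[gF 0, gF 1, gF 2])) 0 :=
  hG.hasFDerivAt.comp_hasDerivAt 0 ((vv_hasDeriv hT).prodMk (vv_hasDeriv hF))

/-- the derivatives of `x ↦ G(T x, F x)`, almost everywhere, for vector and scalar maps -/
theorem sub2_ae (C : Calc M γ) {F T : Fin 3 → M → ℝ} (hF : ∀ k, Lip (F k)) (hT : ∀ k, Lip (T k)) :
    ∀ᵐ o ∂C.μ,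
      (∀ G : E3 × E3 → E3, DifferentiableAt ℝ G (at' C T o, at' C F o) →
        dx C (sub2 G F T) o = fderiv ℝ G (at' C T o, at' C F o) (dx C T o, dx C F o) ∧
        dy C (sub2 G F T) o = fderiv ℝ G (at' C T o, at' C F o) (dy C T o, dy C F o)) ∧
      (∀ G : E3 × E3 → ℝ, DifferentiableAt ℝ G (at' C T o, at' C F o) →
        C.gx (fun x => G (vv (n := 0) T x, vv (n := 0) F x)) o
          = fderiv ℝ G (at' C T o, at' C F o) (dx C T o, dx C F o) ∧
        C.gy (fun x => G (vv (n := 0) T x, vv (n := 0) F x)) o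
          = fderiv ℝ G (at' C T o, at' C F o) (dy C T o, dy C F o)) := by
  have hA : ∀ᵐ o ∂C.μ, ∀ i, HasDerivAt (fun s => T i (C.px o s)) (C.gx (T i) o) 0 ∧
      HasDerivAt (fun s => T i (C.py o s)) (C.gy (T i) o) 0 :=
    ae_all_iff.mpr fun i => C.ae_has (hT i)
  have hB : ∀ᵐ o ∂C.μ, ∀ i, HasDerivAt (fun s => F i (C.px o s)) (C.gx (F i) o) 0 ∧
      HasDerivAt (fun s => F i (C.py o s)) (C.gy (F i) o) 0 :=
    ae_all_iff.mpr fun i => C.ae_has (hF i)
  filter_upwards [hA, hB] with o hoA hoB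
  have hy : C.py o 0 = C.px o 0 := C.same o
  refine ⟨fun G hG => ⟨?_, ?_⟩, fun G hG => ⟨?_, ?_⟩⟩
  · ext k
    have h1 := (sub2_hasDeriv (G := G) (fun i => (hoA i).1) (fun i => (hoB i).1) hG k).deriv
    fin_cases k <;> exact h1
  · ext k
    have hG' : DifferentiableAt ℝ G (vv (n := 0) T (C.py o 0), vv (n := 0) F (C.py o 0)) := by
      rw [hy]
      exact hG
    have h1 := (sub2_hasDeriv (G := G) (fun i => (hoA i).2) (fun i => (hoB i).2) hG' k).deriv
    rw [hy] at h1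
    fin_cases k <;> exact h1
  · exact (sub1_hasDeriv (G := G) (fun i => (hoA i).1) (fun i => (hoB i).1) hG).deriv
  · have hG' : DifferentiableAt ℝ G (vv (n := 0) T (C.py o 0), vv (n := 0) F (C.py o 0)) := by
      rw [hy]
      exact hG
    have h1 := (sub1_hasDeriv (G := G) (fun i => (hoA i).2) (fun i => (hoB i).2) hG').deriv
    rw [hy] at h1
    exact h1

/-! ### Lipschitz constants -/

/-- a `C¹` map is Lipschitz on `{|T| ≤ r} × {|F| = 1}` -/
theorem GMap.lips {E : Type*} [NormedAddCommGroup E] [NormedSpace ℝ E] {G : E3 × E3 → E}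
    (hG : ∀ T F : E3, ‖F‖ = 1 → ContDiffAt ℝ 1 G (T, F)) (r : ℝ) :
    ∃ K : ℝ≥0, LipschitzOnWith K G (Metric.closedBall (0 : E3) r ×ˢ Metric.sphere (0 : E3) 1) := by
  refine LocallyLipschitzOn.exists_lipschitzOnWith_of_compact
    ((isCompact_closedBall _ _).prod (isCompact_sphere _ _)) ?_
  intro x hx
  obtain ⟨K, t, ht, h⟩ := (hG x.1 x.2 (by simpa using hx.2)).exists_lipschitzOnWith
  exact ⟨K, t, mem_nhdsWithin_of_mem_nhds ht, h⟩

omit [MetricSpace M] in
private theorem GLOB_vv_sub (U W : Fin 3 → M → ℝ) (x y : M) {e : ℝ} (he : 0 ≤ e)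
    (h : ∀ k, |U k x - W k y| ≤ e) : ‖vv (n := 0) U x - vv (n := 0) W y‖ ≤ 2 * e := by
  refine le_of_sq_le_sq ?_ (by positivity)
  rw [normsq3]
  have h0 := h 0
  have h1 := h 1
  have h2 := h 2
  change (U 0 x - W 0 y) ^ 2 + (U 1 x - W 1 y) ^ 2 + (U 2 x - W 2 y) ^ 2 ≤ _
  have g : ∀ a : ℝ, |a| ≤ e → a ^ 2 ≤ e ^ 2 := fun a ha => by
    rw [← sq_abs]
    exact pow_le_pow_left₀ (abs_nonneg _) ha 2
  nlinarith [g _ h0, g _ h1, g _ h2, sq_nonneg e]

private theorem GLOB_coord (a : E3) (k : Fin 3) : |a k| ≤ ‖a‖ := by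
  refine abs_le_of_sq_le_sq ?_ (norm_nonneg _)
  rw [EuclideanSpace.real_norm_sq_eq]
  exact Finset.single_le_sum (f := fun i => a i ^ 2) (fun i _ => sq_nonneg _) (Finset.mem_univ k)

theorem pre_norm {T : Fin 3 → M → ℝ} (hT : Pre γ T) (x : M) : ‖vv (n := 0) T x‖ ≤ 8 := by
  refine le_of_sq_le_sq ?_ (by norm_num)
  rw [normsq3]
  have g : ∀ k, T k x ^ 2 ≤ 4 ^ 2 := fun k => by
    rw [← sq_abs]
    exact pow_le_pow_left₀ (abs_nonneg _) (hT.bd k x) 2
  change T 0 x ^ 2 + T 1 x ^ 2 + T 2 x ^ 2 ≤ _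
  linarith [g 0, g 1, g 2]

/-- the Lipschitz constant of `x ↦ G(T x, F x)` -/
theorem sub2_lip {E : Type*} [NormedAddCommGroup E] [NormedSpace ℝ E] {G : E3 × E3 → E} {K LF : ℝ≥0}
    (hK : LipschitzOnWith K G (Metric.closedBall (0 : E3) 8 ×ˢ Metric.sphere (0 : E3) 1))
    {F T : Fin 3 → M → ℝ} (hF : Sph γ F) (hLF : ∀ k, LipschitzWith LF (F k)) (hT : Pre γ T) :
    LipschitzWith (K * (2 * (3 + LF))) fun x => G (vv (n := 0) T x, vv (n := 0) F x) := by
  refine LipschitzWith.of_dist_le_mul fun x y => ?_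
  have hm : ∀ x, (vv (n := 0) T x, vv (n := 0) F x) ∈
      Metric.closedBall (0 : E3) 8 ×ˢ Metric.sphere (0 : E3) 1 := fun x =>
    ⟨by simpa using pre_norm hT x, by simpa using norm_vv hF x⟩
  have h1 := hK.dist_le_mul _ (hm x) _ (hm y)
  have hL : ∀ (L : ℝ≥0) (U : Fin 3 → M → ℝ), (∀ k, LipschitzWith L (U k)) →
      ‖vv (n := 0) U x - vv (n := 0) U y‖ ≤ 2 * (L * dist x y) := by
    intro L U hU
    refine GLOB_vv_sub U U x y (by positivity) fun k => ?_
    have := (hU k).dist_le_mul x y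
    rwa [Real.dist_eq] at this
  have h2 : dist (vv (n := 0) T x, vv (n := 0) F x) (vv (n := 0) T y, vv (n := 0) F y)
      ≤ 2 * (3 + LF) * dist x y := by
    rw [Prod.dist_eq]
    have hd := dist_nonneg (x := x) (y := y)
    have hp : (0 : ℝ) ≤ LF * dist x y := by positivity
    refine max_le ?_ ?_
    · rw [dist_eq_norm]
      have := hL 3 T hT.lip
      push_cast at this
      refine this.trans ?_
      linarith
    · rw [dist_eq_norm]
      refine (hL LF F hLF).trans ?_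
      linarith
  refine h1.trans ?_
  push_cast
  calc (K : ℝ) * dist (vv (n := 0) T x, vv (n := 0) F x) (vv (n := 0) T y, vv (n := 0) F y)
      ≤ K * (2 * (3 + LF) * dist x y) := by gcongr
    _ = _ := by ring

/-! ### the operator -/

section
variable [CompactSpace M]

/-- the operator `Θ ↦ G(Θ, F)` -/
def gOp (C : Calc M γ) {G : E3 × E3 → E3} (hG : GMap G) {K LF : ℝ≥0}
    (hK : LipschitzOnWith K G (Metric.closedBall (0 : E3) 8 ×ˢ Metric.sphere (0 : E3) 1))
    {F : Fin 3 → M → ℝ} (hF : Sph γ F) (hLF : ∀ k, LipschitzWith LF (F k)) : Op C where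
  V := fun T => sub2 G F T
  L := K * (2 * (3 + LF))
  lip := by
    intro T hT k
    refine LipschitzWith.of_dist_le_mul fun x y => ?_
    refine le_trans ?_ ((sub2_lip hK hF hLF hT).dist_le_mul x y)
    rw [Real.dist_eq, dist_eq_norm]
    exact GLOB_coord (G (vv (n := 0) T x, vv (n := 0) F x) - G (vv (n := 0) T y, vv (n := 0) F y)) k
  sph := by
    intro T hT
    refine ⟨fun k => ⟨K * (2 * (3 + LF)), ?_⟩, fun x => ?_, fun k t => ?_⟩
    · refine LipschitzWith.of_dist_le_mul fun x y => ?_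
      refine le_trans ?_ ((sub2_lip hK hF hLF hT).dist_le_mul x y)
      rw [Real.dist_eq, dist_eq_norm]
      exact GLOB_coord (G (vv (n := 0) T x, vv (n := 0) F x) - G (vv (n := 0) T y, vv (n := 0) F y)) k
    · have h := hG.unit (vv (n := 0) T x) (vv (n := 0) F x) (norm_vv hF x)
      have h1 := EuclideanSpace.real_norm_sq_eq (G (vv (n := 0) T x, vv (n := 0) F x))
      rw [h, one_pow] at h1
      exact h1.symm
    · have e1 : vv (n := 0) T (γ (t + Real.pi)) = -vv (n := 0) T (γ t) := by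
        ext k
        rw [PiLp.neg_apply]
        fin_cases k
        · exact hT.odd 0 t
        · exact hT.odd 1 t
        · exact hT.odd 2 t
      have e2 : vv (n := 0) F (γ (t + Real.pi)) = -vv (n := 0) F (γ t) := by
        ext k
        rw [PiLp.neg_apply]
        fin_cases k
        · exact hF.odd 0 t
        · exact hF.odd 1 t
        · exact hF.odd 2 t
      unfold sub2
      rw [e1, e2, hG.odd _ _ (norm_vv hF _), PiLp.neg_apply]
  cont := by
    intro n th hth a a₀ ha hp hp₀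
    have hak : ∀ i k, Tendsto (fun j => a j i k) atTop (𝓝 (a₀ i k)) := fun i k =>
      (tendsto_pi_nhds.1 ((tendsto_pi_nhds.1 ha) i)) k
    have hA : ∀ᵐ o ∂C.μ, ∀ i, HasDerivAt (fun s => th i (C.px o s)) (C.gx (th i) o) 0 ∧
        HasDerivAt (fun s => th i (C.py o s)) (C.gy (th i) o) 0 :=
      ae_all_iff.mpr fun i => C.ae_has (lip_of_adm (hth i))
    have hB : ∀ᵐ o ∂C.μ, ∀ k, HasDerivAt (fun s => F k (C.px o s)) (C.gx (F k) o) 0 ∧
        HasDerivAt (fun s => F k (C.py o s)) (C.gy (F k) o) 0 :=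
      ae_all_iff.mpr fun k => C.ae_has (hF.lip k)
    filter_upwards [hA, hB] with o hoA hoB k
    have hE : ∀ (u : ℕ → Fin 3 → ℝ) (u₀ : Fin 3 → ℝ), (∀ i, Tendsto (fun j => u j i) atTop (𝓝 (u₀ i))) →
        Tendsto (fun j => (!₂[u j 0, u j 1, u j 2] : E3)) atTop (𝓝 !₂[u₀ 0, u₀ 1, u₀ 2]) := by
      intro u u₀ hu
      refine ((PiLp.continuous_toLp 2 _).tendsto _).comp (tendsto_pi_nhds.2 fun i => ?_)
      fin_cases i
      · exact hu 0
      · exact hu 1
      · exact hu 2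
    have hval : ∀ x k, Tendsto (fun j => comb (a j) th k x) atTop (𝓝 (comb a₀ th k x)) := by
      intro x k
      exact tendsto_finsetSum _ fun l _ => (hak l k).mul_const _
    have hvv : ∀ x, Tendsto (fun j => ((vv (n := 0) (comb (a j) th) x, vv (n := 0) F x) : E3 × E3)) atTop
        (𝓝 (vv (n := 0) (comb a₀ th) x, vv (n := 0) F x)) := fun x =>
      (hE (fun j k => comb (a j) th k x) (fun k => comb a₀ th k x) (hval x)).prodMk_nhds
        tendsto_const_nhds
    have hcd : ∀ x, ContDiffAt ℝ 1 G (vv (n := 0) (comb a₀ th) x, vv (n := 0) F x) := fun x =>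
      hG.cd _ _ (norm_vv hF x)
    have hdf : ∀ (b : Fin n → Fin 3 → ℝ) (x : M),
        DifferentiableAt ℝ G (vv (n := 0) (comb b th) x, vv (n := 0) F x) := fun b x =>
      (hG.cd _ _ (norm_vv hF x)).differentiableAt one_ne_zero
    have hcoord : ∀ {u : ℕ → E3} {u₀ : E3}, Tendsto u atTop (𝓝 u₀) → ∀ k,
        Tendsto (fun j => u j k) atTop (𝓝 (u₀ k)) := by
      intro u u₀ hu k
      exact ((EuclideanSpace.proj (𝕜 := ℝ) k).continuous.tendsto _).comp hu
    have hder : ∀ (cu : ℝ → M) (gt : Fin n → ℝ) (gF : Fin 3 → ℝ),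
        (∀ i, HasDerivAt (fun t => th i (cu t)) (gt i) 0) →
        (∀ k, HasDerivAt (fun t => F k (cu t)) (gF k) 0) → ∀ k,
        Tendsto (fun j => deriv (fun t => sub2 G F (comb (a j) th) k (cu t)) 0) atTop
          (𝓝 (deriv (fun t => sub2 G F (comb a₀ th) k (cu t)) 0)) := by
      intro cu gt gF h1 h2 k
      have hU : ∀ (b : Fin n → Fin 3 → ℝ) (i : Fin 3),
          HasDerivAt (fun t => comb b th i (cu t)) (∑ l, b l i * gt l) 0 := by
        intro b i
        exact HasDerivAt.fun_sum fun l _ => (h1 l).const_mul (b l i)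
      have e : ∀ b : Fin n → Fin 3 → ℝ, deriv (fun t => sub2 G F (comb b th) k (cu t)) 0
          = fderiv ℝ G (vv (n := 0) (comb b th) (cu 0), vv (n := 0) F (cu 0))
            (!₂[∑ l, b l 0 * gt l, ∑ l, b l 1 * gt l, ∑ l, b l 2 * gt l], !₂[gF 0, gF 1, gF 2]) k :=
        fun b => (sub2_hasDeriv (G := G) (fun i => hU b i) h2 (hdf b _) k).deriv
      simp only [e]
      refine hcoord ?_ k
      have h3 : Tendsto (fun j => fderiv ℝ G (vv (n := 0) (comb (a j) th) (cu 0), vv (n := 0) F (cu 0)))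
          atTop (𝓝 (fderiv ℝ G (vv (n := 0) (comb a₀ th) (cu 0), vv (n := 0) F (cu 0)))) :=
        (((hcd (cu 0)).continuousAt_fderiv one_ne_zero).tendsto).comp (hvv (cu 0))
      have h4 : Tendsto (fun j => ((!₂[∑ l, a j l 0 * gt l, ∑ l, a j l 1 * gt l, ∑ l, a j l 2 * gt l],
          !₂[gF 0, gF 1, gF 2]) : E3 × E3)) atTop
          (𝓝 (!₂[∑ l, a₀ l 0 * gt l, ∑ l, a₀ l 1 * gt l, ∑ l, a₀ l 2 * gt l], !₂[gF 0, gF 1, gF 2])) :=
        (hE (fun j k => ∑ l, a j l k * gt l) (fun k => ∑ l, a₀ l k * gt l) fun i =>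
          tendsto_finsetSum _ fun l _ => (hak l i).mul_const _).prodMk_nhds tendsto_const_nhds
      exact ((isBoundedBilinearMap_apply (𝕜 := ℝ) (E := E3 × E3) (F := E3)).continuous.tendsto _).comp
        (h3.prodMk_nhds h4)
    refine ⟨?_, ?_, ?_⟩
    · have h := ((hcd (C.pt o)).continuousAt.tendsto).comp (hvv (C.pt o))
      exact hcoord h k
    · exact hder (C.px o) (fun i => C.gx (th i) o) (fun k => C.gx (F k) o) (fun i => (hoA i).1)
        (fun k => (hoB k).1) k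
    · exact hder (C.py o) (fun i => C.gy (th i) o) (fun k => C.gy (F k) o) (fun i => (hoA i).2)
        (fun k => (hoB k).2) k

/-- FIXED POINTS OF GLOBAL OPERATORS: for every pin `F` there are potentials with almost maximal flux
for `v = G(Θ, F)` -/
theorem gfix (C : Calc M γ) (hγ : Bd γ) (hR : RegAE C) {G : E3 × E3 → E3} (hG : GMap G)
    {F : Fin 3 → M → ℝ} (hF : Sph γ F) {ε : ℝ} (hε : 0 < ε) :
    ∃ P : Fam γ, Pre γ P.Th ∧ Sph γ (sub2 G F P.Th) ∧
      Real.pi ^ 2 - ε ≤ ∫ p, Flux C (P.f p) (sub2 G F P.Th) p ∂PP := by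
  obtain ⟨K, hK⟩ := GMap.lips hG.cd 8
  choose K' hK' using hF.lip
  have hLF : ∀ k, LipschitzWith (K' 0 + K' 1 + K' 2) (F k) := by
    intro k
    refine (hK' k).weaken ?_
    fin_cases k
    · exact (le_add_of_nonneg_right zero_le).trans (le_add_of_nonneg_right zero_le)
    · exact (le_add_of_nonneg_left zero_le).trans (le_add_of_nonneg_right zero_le)
    · exact le_add_of_nonneg_left zero_le
  obtain ⟨P, h1, h2⟩ := fixpt C hγ hR (gOp C hG hK hF hLF) hε
  exact ⟨P, h1, (gOp C hG hK hF hLF).sph _ h1, h2⟩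

end

end Pool.Agent.FPX
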