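import Mathlib
import Pool.Agent.FPX.GLOB

/-
GVK (helper11): the global pins of helpers 75/99/24/68/20. For a unit vector `F` and every `T ∈ ℝ³`
there is exactly one unit vector `v = G(T, F)` with `T = (1+r) v - g F`, `r, g > 0` and
`r + g = κ(|T - v|²)`. It is a `C¹` function of `(T, F)`, and odd. The function `κ` satisfies
`κ(h²) > h` and `κ'(n)(n - x²) < r(1+r)`, `r = (κ(n) - x)/2`, for `x² ≤ n`.
-/

open MeasureTheory Set Filter Topology
open scoped ENNReal NNReal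

noncomputable section

namespace Pool.Agent.FPX

open Pool.Agent.EWD

/-- the admissible functions `κ` -/
structure Kap (κ : ℝ → ℝ) : Prop where
  cd : ∀ n : ℝ, 0 ≤ n → ContDiffAt ℝ 1 κ n
  gt : ∀ h : ℝ, 0 ≤ h → h < κ (h ^ 2)
  mono : ∀ n : ℝ, 0 ≤ n → 0 ≤ deriv κ n
  key : ∀ n x : ℝ, 0 ≤ n → x ^ 2 ≤ n →
    deriv κ n * (n - x ^ 2) < ((κ n - x) / 2) * (1 + (κ n - x) / 2)

/-- `⟨T, F⟩ + 1 + k` -/
def gz (T F : E3) (k : ℝ) : ℝ := inner ℝ T F + (1 + k)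

/-- `|T + (1+k)F|²` -/
def gp (T F : E3) (k : ℝ) : ℝ := ‖T + (1 + k) • F‖ ^ 2

/-- the reflection of `F` in the direction `T + (1+k)F` -/
def gv (T F : E3) (k : ℝ) : E3 := (2 * gz T F k / gp T F k) • (T + (1 + k) • F) - F

/-- `|T - v|²` -/
def gnn (T F : E3) (k : ℝ) : ℝ := ‖T - gv T F k‖ ^ 2

/-! ### scalar functions -/

def sP (m z k : ℝ) : ℝ := m + 2 * (1 + k) * z + (1 + k) ^ 2

def sN (m z k : ℝ) : ℝ := m + 1 + 2 * z - 4 * (z + (1 + k)) * (m + (1 + k) * z) / sP m z k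

theorem gp_eq {T F : E3} (hF : ‖F‖ = 1) (k : ℝ) : gp T F k = sP (‖T‖ ^ 2) (inner ℝ T F) k := by
  unfold gp sP
  rw [norm_add_sq_real, inner_smul_right, norm_smul, hF, mul_one, Real.norm_eq_abs, sq_abs]
  ring

theorem gn_eq {T F : E3} (hF : ‖F‖ = 1) {k : ℝ} (hP : gp T F k ≠ 0) :
    gnn T F k = sN (‖T‖ ^ 2) (inner ℝ T F) k ∧ ‖gv T F k‖ = 1 := by
  have hFF : inner ℝ F F = (1 : ℝ) := by
    rw [real_inner_self_eq_norm_sq, hF, one_pow]
  have hTT : inner ℝ T T = ‖T‖ ^ 2 := real_inner_self_eq_norm_sq T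
  have hSS : inner ℝ (T + (1 + k) • F) (T + (1 + k) • F) = gp T F k := real_inner_self_eq_norm_sq _
  have hSF : inner ℝ (T + (1 + k) • F) F = gz T F k := by
    unfold gz
    rw [inner_add_left, real_inner_smul_left, hFF, mul_one]
  have hTS : inner ℝ T (T + (1 + k) • F) = ‖T‖ ^ 2 + (1 + k) * inner ℝ T F := by
    rw [inner_add_right, real_inner_smul_right, hTT]
  have h1 : ‖gv T F k‖ ^ 2 = 1 := by
    rw [← real_inner_self_eq_norm_sq]
    unfold gv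
    rw [inner_sub_left, inner_sub_right, inner_sub_right, real_inner_smul_left, real_inner_smul_right,
      real_inner_smul_left, real_inner_smul_right, hSS, hSF, hFF, real_inner_comm (T + (1 + k) • F) F, hSF]
    field_simp
    ring
  refine ⟨?_, ?_⟩
  · unfold gnn
    rw [← real_inner_self_eq_norm_sq, inner_sub_left, inner_sub_right, inner_sub_right,
      real_inner_self_eq_norm_sq (gv T F k), h1, real_inner_comm T (gv T F k), hTT]
    unfold gv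
    rw [inner_sub_right, real_inner_smul_right, hTS]
    unfold sN
    rw [← gp_eq hF]
    unfold gz
    ring
  · nlinarith [norm_nonneg (gv T F k)]

private theorem sN_deriv {m z k : ℝ} (hP : sP m z k ≠ 0) :
    HasDerivAt (sN m z) (4 * ((1 + k) ^ 2 - m) * (m - z ^ 2) / sP m z k ^ 2) k := by
  have hc : HasDerivAt (fun k : ℝ => 1 + k) 1 k := (hasDerivAt_id k).const_add 1
  have hPd : HasDerivAt (sP m z) (2 * 1 * z + 2 * (1 + k) * 1) k := by
    have h1 : HasDerivAt (fun k : ℝ => m + 2 * (1 + k) * z) (2 * 1 * z) k :=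
      ((hc.const_mul 2).mul_const z).const_add m
    have h2 : HasDerivAt (fun k : ℝ => (1 + k) ^ 2) (2 * (1 + k) * 1) k := by
      simpa using hc.fun_pow 2
    exact h1.add h2
  have hZ : HasDerivAt (fun k : ℝ => 4 * (z + (1 + k))) (4 * 1) k := (hc.const_add z).const_mul 4
  have hY : HasDerivAt (fun k : ℝ => m + (1 + k) * z) (1 * z) k := (hc.mul_const z).const_add m
  have h := ((hZ.mul hY).div hPd hP).const_sub (m + 1 + 2 * z)
  refine h.congr_deriv ?_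
  have hP2 : sP m z k ^ 2 ≠ 0 := pow_ne_zero 2 hP
  rw [neg_div', div_left_inj' hP2]
  unfold sP
  simp only [Pi.mul_apply]
  ring

/-- the algebra of a state -/
theorem gstate {κ : ℝ → ℝ} (hκ : Kap κ) {m z k : ℝ} (hzm : z ^ 2 ≤ m) (hk : 0 < k)
    (hkm : m < (1 + k) ^ 2) (hN : 0 ≤ sN m z k) (hD : κ (sN m z k) ≤ k) :
    0 < z + (1 + k) ∧ 0 < sP m z k ∧ 0 < m + 2 * k * z + k ^ 2 - 1 ∧
      deriv κ (sN m z k) * (4 * ((1 + k) ^ 2 - m) * (m - z ^ 2) / sP m z k ^ 2) < 1 := by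
  have hc : 0 < 1 + k := by linarith
  have hZ : 0 < z + (1 + k) := by
    have := abs_lt_of_sq_lt_sq (hzm.trans_lt hkm) hc.le
    rw [abs_lt] at this
    linarith [this.1]
  have hP : 0 < sP m z k := by
    unfold sP
    nlinarith [mul_pos hZ hZ]
  have hf2 : 0 < (1 + k) ^ 2 - m := by linarith
  set N := sN m z k with hNdef
  -- `N P = k² P - f₁ f₂`
  have e1 : N * sP m z k = k ^ 2 * sP m z k - (m + 2 * k * z + k ^ 2 - 1) * ((1 + k) ^ 2 - m) := by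
    rw [hNdef]
    unfold sN
    rw [sub_mul, div_mul_cancel₀ _ hP.ne']
    unfold sP
    ring
  have hsq : √N < k := by
    have := hκ.gt (√N) (Real.sqrt_nonneg _)
    rw [Real.sq_sqrt hN] at this
    exact this.trans_le hD
  have hNk : N < k ^ 2 := by
    have := Real.sq_sqrt hN
    nlinarith [Real.sqrt_nonneg N]
  have hf1 : 0 < m + 2 * k * z + k ^ 2 - 1 := by
    by_contra h
    rw [not_lt] at h
    have h1 : (m + 2 * k * z + k ^ 2 - 1) * ((1 + k) ^ 2 - m) ≤ 0 :=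
      mul_nonpos_of_nonpos_of_nonneg h hf2.le
    have h2 : N * sP m z k < k ^ 2 * sP m z k := mul_lt_mul_of_pos_right hNk hP
    linarith
  refine ⟨hZ, hP, hf1, ?_⟩
  set f1 := m + 2 * k * z + k ^ 2 - 1 with hf1d
  set f2 := (1 + k) ^ 2 - m with hf2d
  set Z := z + (1 + k) with hZd
  set P := sP m z k with hPd
  have e2 : f1 + f2 = 2 * k * Z := by
    rw [hf1d, hf2d, hZd]
    ring
  have e3 : P = 2 * Z + f1 := by
    rw [hPd, hZd, hf1d]
    unfold sP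
    ring
  have e4 : P = Z ^ 2 + (m - z ^ 2) := by
    rw [hPd, hZd]
    unfold sP
    ring
  set r := f1 / (2 * Z) with hr
  set g := f2 / (2 * Z) with hg
  have hr0 : 0 < r := by positivity
  have hg0 : 0 < g := by positivity
  have er : f1 = 2 * Z * r := by
    rw [hr]
    field_simp
  have eg : f2 = 2 * Z * g := by
    rw [hg]
    field_simp
  have ek : r + g = k := by
    have h1 : 2 * Z * (r + g) = 2 * Z * k := by
      rw [mul_add, ← er, ← eg, e2]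
      ring
    exact mul_left_cancel₀ (by positivity) h1
  have eP : P = 2 * Z * (1 + r) := by
    rw [e3, er]
    ring
  -- `N - x² = 4 r g ρ²/P`
  have e5 : (N - (g - r) ^ 2) * P = 4 * r * g * (m - z ^ 2) := by
    rw [sub_mul, e1, er, eg, ← ek]
    have h1 : m - z ^ 2 = P - Z ^ 2 := by rw [e4]; ring
    rw [h1]
    ring
  have hxN : (g - r) ^ 2 ≤ N := by
    have h1 : 0 ≤ 4 * r * g * (m - z ^ 2) := by
      have : 0 ≤ m - z ^ 2 := by linarith
      positivity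
    rw [← e5] at h1
    have := nonneg_of_mul_nonneg_left h1 hP
    linarith
  have hkey := hκ.key N (g - r) hN hxN
  have hxs : g - r ≤ √N := Real.le_sqrt_of_sq_le hxN
  have hκN : √N < κ N := by
    have := hκ.gt (√N) (Real.sqrt_nonneg _)
    rwa [Real.sq_sqrt hN] at this
  have h6 : (κ N - (g - r)) / 2 ≤ r := by linarith
  have h7 : 0 < (κ N - (g - r)) / 2 := by linarith
  have h8 : ((κ N - (g - r)) / 2) * (1 + (κ N - (g - r)) / 2) ≤ r * (1 + r) := by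
    nlinarith
  have h9 : deriv κ N * (N - (g - r) ^ 2) < r * (1 + r) := hkey.trans_le h8
  have e6 : 4 * f2 * (m - z ^ 2) / P ^ 2 = (N - (g - r) ^ 2) / (r * (1 + r)) := by
    have h1 : N - (g - r) ^ 2 = 4 * r * g * (m - z ^ 2) / P := by
      rw [eq_div_iff hP.ne', e5]
    have hr1 : 0 < 1 + r := by linarith
    rw [h1, eg, div_div, div_eq_div_iff (by positivity) (by positivity)]
    rw [eP]
    ring
  rw [e6, ← mul_div_assoc, div_lt_one (by positivity)]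
  exact h9

/-! ### a function with positive derivative where it is nonnegative has one zero -/

private theorem up_unique {f f' : ℝ → ℝ} {a b : ℝ} (hab : a < b)
    (hd : ∀ x ∈ Icc a b, HasDerivAt f (f' x) x) (hp : ∀ x ∈ Icc a b, 0 ≤ f x → 0 < f' x)
    (ha : 0 ≤ f a) : 0 < f b := by
  by_contra hb
  rw [not_lt] at hb
  -- slightly right of `a` the function is positive
  have hsl : ∀ x ∈ Icc a b, 0 ≤ f x → ∀ᶠ y in 𝓝[≠] x, 0 < slope f x y := fun x hx h0 =>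
    ((hasDerivAt_iff_tendsto_slope.1 (hd x hx)).eventually_const_lt (hp x hx h0))
  have h1 : ∀ᶠ y in 𝓝[>] a, 0 < slope f a y :=
    (hsl a ⟨le_rfl, hab.le⟩ ha).filter_mono (nhdsWithin_mono _ fun y hy => ne_of_gt hy)
  have h2 : ∀ᶠ y in 𝓝[>] a, y ∈ Ioo a b := Ioo_mem_nhdsGT hab
  obtain ⟨a', ha', hs⟩ := (h2.and h1).exists
  have hfa' : 0 < f a' := by
    rw [slope_def_field] at hs
    have h3 : 0 < a' - a := sub_pos.2 ha'.1
    have h4 := (div_pos_iff_of_pos_right h3).1 hs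
    linarith
  -- the first zero
  set S : Set ℝ := Icc a' b ∩ {x | f x ≤ 0} with hS
  have hcont : ContinuousOn f (Icc a' b) := fun x hx =>
    (hd x ⟨ha'.1.le.trans hx.1, hx.2⟩).continuousAt.continuousWithinAt
  have hSc : IsClosed S := hcont.preimage_isClosed_of_isClosed isClosed_Icc isClosed_Iic
  have hSn : S.Nonempty := ⟨b, ⟨ha'.2.le, le_rfl⟩, hb⟩
  have hSb : BddBelow S := ⟨a', fun x hx => hx.1.1⟩
  obtain ⟨hc1, hc2⟩ := hSc.csInf_mem hSn hSb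
  set c := sInf S with hcd
  have hac : a' < c := by
    refine lt_of_le_of_ne hc1.1 fun h => ?_
    rw [← h] at hc2
    exact absurd hfa' (not_lt.2 hc2)
  have hpos : ∀ x ∈ Ico a' c, 0 < f x := by
    intro x hx
    by_contra h
    rw [not_lt] at h
    exact absurd (csInf_le hSb ⟨⟨hx.1, hx.2.le.trans hc1.2⟩, h⟩) (not_le.2 hx.2)
  have hcI : c ∈ Icc a b := ⟨ha'.1.le.trans hc1.1, hc1.2⟩
  have h0 : 0 ≤ f c := by
    have ht : Tendsto f (𝓝[<] c) (𝓝 (f c)) := (hd c hcI).continuousAt.continuousWithinAt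
    refine ge_of_tendsto ht ?_
    filter_upwards [Ioo_mem_nhdsLT hac] with x hx
    exact (hpos x ⟨hx.1.le, hx.2⟩).le
  have h5 : ∀ᶠ y in 𝓝[<] c, 0 < slope f c y :=
    (hsl c hcI h0).filter_mono (nhdsWithin_mono _ fun y hy => ne_of_lt hy)
  have h6' : ∀ᶠ y in 𝓝[<] c, y ∈ Ioo a' c := Ioo_mem_nhdsLT hac
  obtain ⟨y, hy, hys⟩ := (h6'.and h5).exists
  rw [slope_def_field] at hys
  have h6 : y - c < 0 := sub_neg.2 hy.2
  have h7 : f y - f c < 0 := by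
    by_contra h
    rw [not_lt] at h
    exact absurd (div_nonpos_of_nonneg_of_nonpos h h6.le) (not_le.2 hys)
  have h8 := hpos y ⟨hy.1.le, hy.2⟩
  linarith [show f c ≤ 0 from hc2]

/-! ### the root -/

/-- `k` is the root -/
def IsRt (κ : ℝ → ℝ) (T F : E3) (k : ℝ) : Prop := 0 < k ∧ ‖T‖ < 1 + k ∧ k = κ (gnn T F k)

theorem gbasic {T F : E3} (hF : ‖F‖ = 1) {k : ℝ} (hk : 0 < k) (hT : ‖T‖ < 1 + k) :
    inner ℝ T F ^ 2 ≤ ‖T‖ ^ 2 ∧ ‖T‖ ^ 2 < (1 + k) ^ 2 ∧ 0 < sP (‖T‖ ^ 2) (inner ℝ T F) k ∧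
      0 < gz T F k := by
  have h1 : (inner ℝ T F : ℝ) ^ 2 ≤ ‖T‖ ^ 2 := by
    rw [← sq_abs]
    have := abs_real_inner_le_norm T F
    rw [hF, mul_one] at this
    exact pow_le_pow_left₀ (abs_nonneg _) this 2
  have h2 : ‖T‖ ^ 2 < (1 + k) ^ 2 := pow_lt_pow_left₀ hT (norm_nonneg _) two_ne_zero
  have hZ : 0 < gz T F k := by
    have := abs_lt_of_sq_lt_sq (h1.trans_lt h2) (by linarith)
    rw [abs_lt] at this
    unfold gz
    linarith [this.1]
  refine ⟨h1, h2, ?_, hZ⟩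
  unfold sP
  unfold gz at hZ
  nlinarith [mul_pos hZ hZ]

theorem gp_pos {T F : E3} (hF : ‖F‖ = 1) {k : ℝ} (hk : 0 < k) (hT : ‖T‖ < 1 + k) :
    0 < gp T F k := by
  rw [gp_eq hF]
  exact (gbasic hF hk hT).2.2.1

theorem sN_nonneg {T F : E3} (hF : ‖F‖ = 1) {k : ℝ} (hk : 0 < k) (hT : ‖T‖ < 1 + k) :
    0 ≤ sN (‖T‖ ^ 2) (inner ℝ T F) k := by
  rw [← (gn_eq hF (gp_pos hF hk hT).ne').1]
  unfold gnn
  positivity

/-- the function `k - κ(N(k))` and its derivative -/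
theorem gD_deriv {κ : ℝ → ℝ} (hκ : Kap κ) {T F : E3} (hF : ‖F‖ = 1) {k : ℝ} (hk : 0 < k)
    (hT : ‖T‖ < 1 + k) : HasDerivAt (fun k => k - κ (sN (‖T‖ ^ 2) (inner ℝ T F) k))
      (1 - deriv κ (sN (‖T‖ ^ 2) (inner ℝ T F) k) *
        (4 * ((1 + k) ^ 2 - ‖T‖ ^ 2) * (‖T‖ ^ 2 - inner ℝ T F ^ 2) /
          sP (‖T‖ ^ 2) (inner ℝ T F) k ^ 2)) k := by
  have h1 := sN_deriv (m := ‖T‖ ^ 2) (z := inner ℝ T F) (gbasic hF hk hT).2.2.1.ne'
  have h2 : HasDerivAt κ (deriv κ (sN (‖T‖ ^ 2) (inner ℝ T F) k)) (sN (‖T‖ ^ 2) (inner ℝ T F) k) :=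
    ((hκ.cd _ (sN_nonneg hF hk hT)).differentiableAt one_ne_zero).hasDerivAt
  exact (hasDerivAt_id k).sub (h2.comp k h1)

theorem rt_unique {κ : ℝ → ℝ} (hκ : Kap κ) {T F : E3} (hF : ‖F‖ = 1) {k l : ℝ}
    (hk : IsRt κ T F k) (hl : IsRt κ T F l) : k = l := by
  -- the statement for `k < l`
  have key : ∀ k l : ℝ, IsRt κ T F k → IsRt κ T F l → ¬ k < l := by
    intro k l hk hl hkl
    obtain ⟨hk0, hkT, hke⟩ := hk
    obtain ⟨hl0, hlT, hle⟩ := hl
    have hN : ∀ x, 0 < x → ‖T‖ < 1 + x → gnn T F x = sN (‖T‖ ^ 2) (inner ℝ T F) x := fun x h1 h2 =>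
      (gn_eq hF (gp_pos hF h1 h2).ne').1
    rw [hN k hk0 hkT] at hke
    rw [hN l hl0 hlT] at hle
    have h := up_unique (f := fun k => k - κ (sN (‖T‖ ^ 2) (inner ℝ T F) k))
      (f' := fun k => 1 - deriv κ (sN (‖T‖ ^ 2) (inner ℝ T F) k) *
        (4 * ((1 + k) ^ 2 - ‖T‖ ^ 2) * (‖T‖ ^ 2 - inner ℝ T F ^ 2) /
          sP (‖T‖ ^ 2) (inner ℝ T F) k ^ 2)) hkl (fun x hx => gD_deriv hκ hF (hk0.trans_le hx.1)
          (by linarith [hx.1])) (fun x hx h0 => ?_) ?_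
    · change 0 < l - κ (sN (‖T‖ ^ 2) (inner ℝ T F) l) at h
      linarith
    · have hx0 : 0 < x := hk0.trans_le hx.1
      have hxT : ‖T‖ < 1 + x := by linarith [hx.1]
      have hb := gbasic hF hx0 hxT
      have := (gstate hκ hb.1 hx0 hb.2.1 (sN_nonneg hF hx0 hxT) (by
        change 0 ≤ x - κ (sN (‖T‖ ^ 2) (inner ℝ T F) x) at h0
        linarith)).2.2.2
      change 0 < 1 - deriv κ (sN (‖T‖ ^ 2) (inner ℝ T F) x) * _
      linarith
    · linarith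
  exact le_antisymm (not_lt.1 (key l k hl hk)) (not_lt.1 (key k l hk hl))

theorem rt_exists {κ : ℝ → ℝ} (hκ : Kap κ) (T : E3) {F : E3} (hF : ‖F‖ = 1) :
    ∃ k, IsRt κ T F k := by
  -- a gap between `κ(h²)` and `h`, and an upper bound
  have hcont : ContinuousOn (fun h : ℝ => κ (h ^ 2) - h) (Icc 0 (‖T‖ + 1)) := by
    intro h hh
    have h1 : ContinuousAt κ (h ^ 2) := (hκ.cd _ (sq_nonneg h)).continuousAt
    have h2 : ContinuousAt (fun h : ℝ => κ (h ^ 2)) h :=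
      ContinuousAt.comp (f := fun h : ℝ => h ^ 2) (g := κ) h1 (by fun_prop)
    exact (h2.sub continuousAt_id).continuousWithinAt
  have hne : (Icc (0 : ℝ) (‖T‖ + 1)).Nonempty := ⟨0, le_rfl, by positivity⟩
  obtain ⟨h₀, hh₀, hmin⟩ := isCompact_Icc.exists_isMinOn hne hcont
  obtain ⟨h₁, hh₁, hmax⟩ := isCompact_Icc.exists_isMaxOn hne hcont
  set e := κ (h₀ ^ 2) - h₀ with he
  set B := κ (h₁ ^ 2) - h₁ with hB
  have he0 : 0 < e := sub_pos.2 (hκ.gt h₀ hh₀.1)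
  -- the norm of `T - v`
  have hh : ∀ k, 0 < k → ‖T‖ < 1 + k → ∃ h, 0 ≤ h ∧ h ^ 2 = sN (‖T‖ ^ 2) (inner ℝ T F) k ∧
      h ≤ ‖T‖ + 1 ∧ ‖T‖ - 1 ≤ h := by
    intro k hk hT
    have h1 := gn_eq (T := T) hF (gp_pos hF hk hT).ne'
    refine ⟨‖T - gv T F k‖, norm_nonneg _, h1.1, ?_, ?_⟩
    · have := norm_sub_le T (gv T F k)
      rwa [h1.2] at this
    · have := norm_sub_norm_le T (gv T F k)
      rwa [h1.2] at this
  set k0 := max 0 (‖T‖ - 1) with hk0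
  have hk0n : 0 ≤ k0 := le_max_left _ _
  have hk0T : ‖T‖ - 1 ≤ k0 := le_max_right _ _
  set a := k0 + e / 2 with ha
  set b := max (a + 1) (B + ‖T‖ + 2) with hb
  have hab : a ≤ b := (by linarith : a ≤ a + 1).trans (le_max_left _ _)
  have hdom : ∀ x, a ≤ x → 0 < x ∧ ‖T‖ < 1 + x := fun x hx => ⟨by linarith, by linarith⟩
  set f : ℝ → ℝ := fun k => k - κ (sN (‖T‖ ^ 2) (inner ℝ T F) k) with hf
  have hfc : ContinuousOn f (Icc a b) := fun x hx =>
    (gD_deriv hκ hF (hdom x hx.1).1 (hdom x hx.1).2).continuousAt.continuousWithinAt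
  have hfa : f a ≤ 0 := by
    obtain ⟨h, h1, h2, h3, h4⟩ := hh a (hdom a le_rfl).1 (hdom a le_rfl).2
    have h5 : e ≤ κ (h ^ 2) - h := hmin ⟨h1, h3⟩
    have h6 : k0 ≤ h := max_le h1 h4
    change a - κ (sN (‖T‖ ^ 2) (inner ℝ T F) a) ≤ 0
    rw [← h2]
    linarith
  have hfb : 0 ≤ f b := by
    obtain ⟨h, h1, h2, h3, h4⟩ := hh b (hdom b hab).1 (hdom b hab).2
    have h5 : κ (h ^ 2) - h ≤ B := hmax ⟨h1, h3⟩
    have h6 : B + ‖T‖ + 2 ≤ b := le_max_right _ _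
    change 0 ≤ b - κ (sN (‖T‖ ^ 2) (inner ℝ T F) b)
    rw [← h2]
    linarith
  obtain ⟨k, hk, hk0'⟩ := intermediate_value_Icc hab hfc ⟨hfa, hfb⟩
  have hd := hdom k hk.1
  refine ⟨k, hd.1, hd.2, ?_⟩
  rw [(gn_eq (T := T) hF (gp_pos hF hd.1 hd.2).ne').1]
  change k - κ (sN (‖T‖ ^ 2) (inner ℝ T F) k) = 0 at hk0'
  linarith


end Pool.Agent.FPX
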