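import Mathlib
import Pool.Agent.FPX.GVK

/-
GVL (helper11): the global map `G(T, F)` of GVK is `C¹`.
-/

open MeasureTheory Set Filter Topology
open scoped ENNReal NNReal

noncomputable section

namespace Pool.Agent.FPX

open Pool.Agent.EWD

/-! ### the implicit function -/

/-- the root -/
def gk (κ : ℝ → ℝ) (T F : E3) : ℝ := Classical.epsilon fun k => IsRt κ T F k

theorem gk_spec {κ : ℝ → ℝ} (hκ : Kap κ) (T : E3) {F : E3} (hF : ‖F‖ = 1) : IsRt κ T F (gk κ T F) :=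
  Classical.epsilon_spec (rt_exists hκ T hF)

theorem gk_eq {κ : ℝ → ℝ} (hκ : Kap κ) {T F : E3} (hF : ‖F‖ = 1) {k : ℝ} (h : IsRt κ T F k) :
    gk κ T F = k := rt_unique hκ hF (gk_spec hκ T hF) h

private def gf (κ : ℝ → ℝ) (q : (E3 × E3) × ℝ) : ℝ := q.2 - κ (gnn q.1.1 q.1.2 q.2)

private theorem gp_cd (q : (E3 × E3) × ℝ) : ContDiffAt ℝ 1 (fun q : (E3 × E3) × ℝ => gp q.1.1 q.1.2 q.2) q := by
  unfold gp
  exact ContDiffAt.norm_sq ℝ (by fun_prop)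

private theorem gz_cd (q : (E3 × E3) × ℝ) : ContDiffAt ℝ 1 (fun q : (E3 × E3) × ℝ => gz q.1.1 q.1.2 q.2) q := by
  unfold gz
  have h1 : ContDiffAt ℝ 1 (fun q : (E3 × E3) × ℝ => q.1.1) q := by fun_prop
  have h2 : ContDiffAt ℝ 1 (fun q : (E3 × E3) × ℝ => q.1.2) q := by fun_prop
  exact (h1.inner ℝ h2).add (by fun_prop)

private theorem gv_cd {q : (E3 × E3) × ℝ} (hP : gp q.1.1 q.1.2 q.2 ≠ 0) :
    ContDiffAt ℝ 1 (fun q : (E3 × E3) × ℝ => gv q.1.1 q.1.2 q.2) q := by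
  unfold gv
  have h2 : ContDiffAt ℝ 1 (fun q : (E3 × E3) × ℝ => 2 * gz q.1.1 q.1.2 q.2) q :=
    contDiffAt_const.mul (gz_cd q)
  exact ((h2.div (gp_cd q) hP).smul (by fun_prop)).sub (by fun_prop)

private theorem gn_cd {q : (E3 × E3) × ℝ} (hP : gp q.1.1 q.1.2 q.2 ≠ 0) :
    ContDiffAt ℝ 1 (fun q : (E3 × E3) × ℝ => gnn q.1.1 q.1.2 q.2) q := by
  have h1 : ContDiffAt ℝ 1 (fun q : (E3 × E3) × ℝ => q.1.1) q := by fun_prop
  exact ContDiffAt.norm_sq ℝ (h1.sub (gv_cd hP))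

private theorem gf_cd {κ : ℝ → ℝ} (hκ : Kap κ) {q : (E3 × E3) × ℝ} (hP : gp q.1.1 q.1.2 q.2 ≠ 0) :
    ContDiffAt ℝ 1 (gf κ) q := by
  have h0 : 0 ≤ gnn q.1.1 q.1.2 q.2 := by
    unfold gnn
    positivity
  have h1 : ContDiffAt ℝ 1 (fun q : (E3 × E3) × ℝ => κ (gnn q.1.1 q.1.2 q.2)) q :=
    ContDiffAt.comp (g := κ) (f := fun q : (E3 × E3) × ℝ => gnn q.1.1 q.1.2 q.2) q (hκ.cd _ h0) (gn_cd hP)
  have h2 : ContDiffAt ℝ 1 (fun q : (E3 × E3) × ℝ => q.2) q := by fun_prop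
  exact h2.sub h1

private theorem gf_inv {κ : ℝ → ℝ} (hκ : Kap κ) {T F : E3} (hF : ‖F‖ = 1) {k : ℝ} (hk : IsRt κ T F k) :
    (fderiv ℝ (gf κ) ((T, F), k) ∘L .inr ℝ (E3 × E3) ℝ).IsInvertible := by
  obtain ⟨hk0, hkT, hke⟩ := hk
  have hP := (gp_pos (T := T) hF hk0 hkT).ne'
  have hcd := gf_cd (q := ((T, F), k)) hκ hP
  have hfd : HasFDerivAt (gf κ) (fderiv ℝ (gf κ) ((T, F), k)) ((T, F), k) :=
    (hcd.differentiableAt one_ne_zero).hasFDerivAt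
  set b := fderiv ℝ (gf κ) ((T, F), k) (0, 1) with hb
  have hcurve : HasDerivAt (fun k : ℝ => ((T, F), k)) ((0 : E3 × E3), (1 : ℝ)) k :=
    (hasDerivAt_const k (T, F)).prodMk (hasDerivAt_id k)
  have h1 : HasDerivAt (fun k : ℝ => gf κ ((T, F), k)) b k := hfd.comp_hasDerivAt k hcurve
  have h2 := gD_deriv hκ (T := T) hF hk0 hkT
  have hdom : ∀ᶠ x in 𝓝 k, 0 < x ∧ ‖T‖ < 1 + x := by
    have h3 : ∀ᶠ x in 𝓝 k, 0 < x := lt_mem_nhds hk0
    have h4 : ∀ᶠ x in 𝓝 k, ‖T‖ - 1 < x := lt_mem_nhds (by linarith)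
    filter_upwards [h3, h4] with x hx hy
    exact ⟨hx, by linarith⟩
  have h5 : (fun k : ℝ => gf κ ((T, F), k)) =ᶠ[𝓝 k] fun k => k - κ (sN (‖T‖ ^ 2) (inner ℝ T F) k) := by
    filter_upwards [hdom] with x hx
    unfold gf
    rw [(gn_eq (T := T) hF (gp_pos hF hx.1 hx.2).ne').1]
  have h6 := (h2.congr_of_eventuallyEq h5).unique h1
  have hN : gnn T F k = sN (‖T‖ ^ 2) (inner ℝ T F) k := (gn_eq hF hP).1
  have hbs := gbasic (T := T) hF hk0 hkT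
  have h7 := (gstate hκ hbs.1 hk0 hbs.2.1 (sN_nonneg hF hk0 hkT) (by rw [← hN, ← hke])).2.2.2
  have hb0 : b ≠ 0 := by
    rw [← h6]
    exact (sub_pos.2 h7).ne'
  refine ⟨ContinuousLinearEquiv.unitsEquivAut ℝ (Units.mk0 b hb0), ?_⟩
  ext
  simp [hb]

/-- normalisation of the second argument -/
def gnm (q : E3 × E3) : E3 × E3 := (q.1, ‖q.2‖⁻¹ • q.2)

theorem gnm_unit {q : E3 × E3} (h : ‖q.2‖ = 1) : gnm q = q := by
  unfold gnm
  rw [h, inv_one, one_smul]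

theorem gnm_norm {q : E3 × E3} (h : q.2 ≠ 0) : ‖(gnm q).2‖ = 1 := by
  unfold gnm
  rw [norm_smul, norm_inv, norm_norm, inv_mul_cancel₀ (norm_ne_zero_iff.2 h)]

theorem gnm_cd {q : E3 × E3} (h : q.2 ≠ 0) : ContDiffAt ℝ 1 gnm q := by
  have h1 : ContDiffAt ℝ 1 (fun q : E3 × E3 => q.1) q := by fun_prop
  have h2 : ContDiffAt ℝ 1 (fun q : E3 × E3 => q.2) q := by fun_prop
  exact h1.prodMk (((h2.norm ℝ h).inv (norm_ne_zero_iff.2 h)).smul h2)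

/-- the root as a function of `(T, F)` -/
def gK (κ : ℝ → ℝ) (q : E3 × E3) : ℝ := gk κ (gnm q).1 (gnm q).2

theorem gK_cd {κ : ℝ → ℝ} (hκ : Kap κ) {T F : E3} (hF : ‖F‖ = 1) : ContDiffAt ℝ 1 (gK κ) (T, F) := by
  have hF0 : F ≠ 0 := by
    intro h
    rw [h, norm_zero] at hF
    exact zero_ne_one hF
  have hrt := gk_spec hκ T hF
  have hP := (gp_pos (T := T) hF hrt.1 hrt.2.1).ne'
  have hcd := gf_cd (q := ((T, F), gk κ T F)) hκ hP
  have hinv := gf_inv hκ hF hrt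
  set ψ := hcd.implicitFunction one_ne_zero hinv with hψ
  have hψcd : ContDiffAt ℝ 1 ψ (T, F) := hcd.contDiffAt_implicitFunction one_ne_zero hinv
  have hψ0 : ψ (T, F) = gk κ T F := hcd.implicitFunction_apply_self one_ne_zero hinv
  have hψe : ∀ᶠ x in 𝓝 (T, F), gf κ (x, ψ x) = gf κ ((T, F), gk κ T F) :=
    hcd.eventually_apply_implicitFunction one_ne_zero hinv
  have hf0 : gf κ ((T, F), gk κ T F) = 0 := by
    have := hrt.2.2
    unfold gf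
    change gk κ T F - κ (gnn T F (gk κ T F)) = 0
    linarith
  have hψc : ContinuousAt ψ (T, F) := hψcd.continuousAt
  have h1 : ∀ᶠ x in 𝓝 (T, F), 0 < ψ x := by
    refine hψc.eventually_const_lt ?_
    rw [hψ0]
    exact hrt.1
  have h2 : ∀ᶠ x : E3 × E3 in 𝓝 (T, F), 0 < 1 + ψ x - ‖x.1‖ := by
    have h3 : ContinuousAt (fun x : E3 × E3 => 1 + ψ x - ‖x.1‖) (T, F) :=
      (continuousAt_const.add hψc).sub (by fun_prop)
    refine h3.eventually_const_lt ?_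
    change 0 < 1 + ψ (T, F) - ‖T‖
    rw [hψ0]
    linarith [hrt.2.1]
  have hncd : ContDiffAt ℝ 1 gnm (T, F) := gnm_cd hF0
  have hn0 : gnm (T, F) = (T, F) := gnm_unit hF
  have ht : Tendsto gnm (𝓝 (T, F)) (𝓝 (T, F)) := by
    have := hncd.continuousAt.tendsto
    rwa [hn0] at this
  have h4 : ∀ᶠ x : E3 × E3 in 𝓝 (T, F), x.2 ≠ 0 := by
    have h5 : ContinuousAt (fun x : E3 × E3 => x.2) (T, F) := by fun_prop
    exact h5.eventually_ne hF0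
  have hev : gK κ =ᶠ[𝓝 (T, F)] fun x => ψ (gnm x) := by
    filter_upwards [ht.eventually hψe, ht.eventually h1, ht.eventually h2, h4] with x hx1 hx2 hx3 hx4
    refine gk_eq hκ (gnm_norm hx4) ⟨hx2, by linarith, ?_⟩
    rw [hf0] at hx1
    unfold gf at hx1
    change ψ (gnm x) - κ (gnn (gnm x).1 (gnm x).2 (ψ (gnm x))) = 0 at hx1
    linarith
  have hcomp : ContDiffAt ℝ 1 (fun x => ψ (gnm x)) (T, F) := by
    refine ContDiffAt.comp (g := ψ) (f := gnm) (T, F) ?_ hncd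
    rw [hn0]
    exact hψcd
  exact hcomp.congr_of_eventuallyEq hev

/-- THE GLOBAL MAP `G(T, F)` -/
def gG (κ : ℝ → ℝ) (q : E3 × E3) : E3 := gv (gnm q).1 (gnm q).2 (gK κ q)

/-- the coefficient `R = 1 + r` -/
def gR (κ : ℝ → ℝ) (q : E3 × E3) : ℝ :=
  gp (gnm q).1 (gnm q).2 (gK κ q) / (2 * gz (gnm q).1 (gnm q).2 (gK κ q))

/-- the coefficient `g` -/
def gC (κ : ℝ → ℝ) (q : E3 × E3) : ℝ := 1 + gK κ q - gR κ q

private theorem gz_pos {T F : E3} (hF : ‖F‖ = 1) {k : ℝ} (hk : 0 < k) (hT : ‖T‖ < 1 + k) :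
    0 < gz T F k := (gbasic hF hk hT).2.2.2

section
variable {κ : ℝ → ℝ} (hκ : Kap κ) {T F : E3} (hF : ‖F‖ = 1)
include hκ hF

private theorem cmb_cd : ContDiffAt ℝ 1 (fun q : E3 × E3 => (gnm q, gK κ q)) (T, F) := by
  have hF0 : F ≠ 0 := by
    intro h
    rw [h, norm_zero] at hF
    exact zero_ne_one hF
  exact (gnm_cd (q := (T, F)) hF0).prodMk (gK_cd hκ hF)

private theorem cmb_eq : ((gnm (T, F), gK κ (T, F)) : (E3 × E3) × ℝ) = ((T, F), gk κ T F) := by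
  unfold gK
  rw [gnm_unit (q := (T, F)) hF]

theorem gG_eq : gG κ (T, F) = gv T F (gk κ T F) := by
  unfold gG gK
  rw [gnm_unit (q := (T, F)) hF]

theorem gR_eq : gR κ (T, F) = gp T F (gk κ T F) / (2 * gz T F (gk κ T F)) := by
  unfold gR gK
  rw [gnm_unit (q := (T, F)) hF]

theorem gC_eq : gC κ (T, F) = 1 + gk κ T F - gR κ (T, F) := by
  unfold gC gK
  rw [gnm_unit (q := (T, F)) hF]

theorem gG_cd : ContDiffAt ℝ 1 (gG κ) (T, F) := by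
  have hrt := gk_spec hκ T hF
  have hP := (gp_pos (T := T) hF hrt.1 hrt.2.1).ne'
  refine ContDiffAt.comp (g := fun q : (E3 × E3) × ℝ => gv q.1.1 q.1.2 q.2)
    (f := fun q : E3 × E3 => (gnm q, gK κ q)) (T, F) ?_ (cmb_cd hκ hF)
  rw [cmb_eq hκ hF]
  exact gv_cd hP

theorem gR_cd : ContDiffAt ℝ 1 (gR κ) (T, F) := by
  have hrt := gk_spec hκ T hF
  have hZ := (gz_pos (T := T) hF hrt.1 hrt.2.1).ne'
  refine ContDiffAt.comp (g := fun q : (E3 × E3) × ℝ => gp q.1.1 q.1.2 q.2 / (2 * gz q.1.1 q.1.2 q.2))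
    (f := fun q : E3 × E3 => (gnm q, gK κ q)) (T, F) ?_ (cmb_cd hκ hF)
  rw [cmb_eq hκ hF]
  exact (gp_cd _).div (contDiffAt_const.mul (gz_cd _)) (mul_ne_zero two_ne_zero hZ)

theorem gC_cd : ContDiffAt ℝ 1 (gC κ) (T, F) :=
  (contDiffAt_const.add (gK_cd hκ hF)).sub (gR_cd hκ hF)

/-- the relations which characterise `G` -/
theorem gG_rel : ‖gG κ (T, F)‖ = 1 ∧ 1 < gR κ (T, F) ∧ 0 < gC κ (T, F) ∧
    T = gR κ (T, F) • gG κ (T, F) - gC κ (T, F) • F ∧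
    gR κ (T, F) - 1 + gC κ (T, F) = κ (‖T - gG κ (T, F)‖ ^ 2) := by
  have hrt := gk_spec hκ T hF
  set k := gk κ T F with hkd
  have hP := gp_pos (T := T) hF hrt.1 hrt.2.1
  have hZ := gz_pos (T := T) hF hrt.1 hrt.2.1
  have hn := gn_eq (T := T) hF hP.ne'
  have hbs := gbasic (T := T) hF hrt.1 hrt.2.1
  have hst := gstate hκ hbs.1 hrt.1 hbs.2.1 (sN_nonneg hF hrt.1 hrt.2.1) (by
    rw [← hn.1]
    exact hrt.2.2.symm.le)
  have hPz : gp T F k - 2 * gz T F k = ‖T‖ ^ 2 + 2 * k * inner ℝ T F + k ^ 2 - 1 := by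
    rw [gp_eq hF]
    unfold sP gz
    ring
  have h2Z : 0 < 2 * gz T F k := by linarith
  rw [gG_eq hκ hF, gC_eq hκ hF, gR_eq hκ hF, ← hkd]
  refine ⟨hn.2, ?_, ?_, ?_, ?_⟩
  · rw [one_lt_div h2Z]
    linarith [hst.2.2.1]
  · rw [sub_pos, div_lt_iff₀ h2Z]
    have h3 : (1 + k) * (2 * gz T F k) - gp T F k = (1 + k) ^ 2 - ‖T‖ ^ 2 := by
      rw [gp_eq hF]
      unfold sP gz
      ring
    linarith [hbs.2.1]
  · unfold gv
    rw [smul_sub, smul_smul]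
    have h4 : gp T F k / (2 * gz T F k) * (2 * gz T F k / gp T F k) = 1 := by
      field_simp
    rw [h4, one_smul, sub_smul]
    abel
  · have h5 : gnn T F k = ‖T - gv T F k‖ ^ 2 := rfl
    rw [← h5, ← hrt.2.2]
    ring

end

theorem gG_odd {κ : ℝ → ℝ} (hκ : Kap κ) (T : E3) {F : E3} (hF : ‖F‖ = 1) :
    gG κ (-T, -F) = -gG κ (T, F) := by
  have hF' : ‖-F‖ = 1 := by rw [norm_neg, hF]
  have hz : ∀ k, gz (-T) (-F) k = gz T F k := fun k => by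
    unfold gz
    rw [inner_neg_neg]
  have hs : ∀ k : ℝ, -T + (1 + k) • -F = -(T + (1 + k) • F) := fun k => by
    rw [smul_neg, neg_add]
  have hp : ∀ k, gp (-T) (-F) k = gp T F k := fun k => by
    unfold gp
    rw [hs, norm_neg]
  have hv : ∀ k, gv (-T) (-F) k = -gv T F k := fun k => by
    unfold gv
    rw [hz, hp, hs, smul_neg]
    abel
  have hn : ∀ k, gnn (-T) (-F) k = gnn T F k := fun k => by
    unfold gnn
    rw [hv, ← norm_neg (T - gv T F k)]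
    congr 2
    abel
  have hk : gk κ (-T) (-F) = gk κ T F := by
    refine gk_eq hκ hF' ?_
    have := gk_spec hκ T hF
    refine ⟨this.1, by rw [norm_neg]; exact this.2.1, ?_⟩
    rw [hn]
    exact this.2.2
  rw [gG_eq hκ hF', gG_eq hκ hF, hk, hv]

theorem gG_map {κ : ℝ → ℝ} (hκ : Kap κ) : GMap (gG κ) where
  cd := fun _ _ hF => gG_cd hκ hF
  unit := fun _ _ hF => (gG_rel hκ hF).1
  odd := fun T _ hF => gG_odd hκ T hF

end Pool.Agent.FPX
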