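import Mathlib
import Pool.Agent.FPX.GVL

/-
GVS (helper11): the global pins on the surface. The function `κ(n) = g₀ + √(g₀² + n)` is admissible
for `g₀ ≥ 1/4`; the maps `v = G(Θ, F)` and the almost everywhere relations between the derivatives.
-/

open MeasureTheory Set Filter Topology
open scoped ENNReal NNReal

noncomputable section

namespace Pool.Agent.FPX

open Pool.Agent.EWD

/-! ### an admissible function -/

/-- helper24's function -/
def kap24 (a n : ℝ) : ℝ := a + √(a ^ 2 + n)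

theorem kap24_deriv {a n : ℝ} (ha : 0 < a) (hn : 0 ≤ n) :
    HasDerivAt (kap24 a) (1 / (2 * √(a ^ 2 + n))) n := by
  have h1 : HasDerivAt (fun n : ℝ => a ^ 2 + n) 1 n := (hasDerivAt_id n).const_add _
  have h2 : a ^ 2 + n ≠ 0 := by positivity
  exact (h1.sqrt h2).const_add a

theorem kap24_kap {a : ℝ} (ha : 1 / 4 ≤ a) : Kap (kap24 a) where
  cd := by
    intro n hn
    have ha0 : 0 < a := by linarith
    have h2 : a ^ 2 + n ≠ 0 := by positivity
    have h3 : ContDiffAt ℝ 1 (fun n : ℝ => a ^ 2 + n) n := by fun_prop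
    exact contDiffAt_const.add (h3.sqrt h2)
  gt := by
    intro h hh
    have ha0 : 0 < a := by linarith
    have h1 : h ≤ √(a ^ 2 + h ^ 2) := Real.le_sqrt_of_sq_le (by nlinarith)
    unfold kap24
    linarith
  mono := by
    intro n hn
    rw [(kap24_deriv (by linarith) hn).deriv]
    positivity
  key := by
    intro n x hn hx
    have ha0 : 0 < a := by linarith
    rw [(kap24_deriv ha0 hn).deriv]
    have hS0 : 0 < a ^ 2 + n := by positivity
    set S := √(a ^ 2 + n) with hS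
    have hSp : 0 < S := Real.sqrt_pos.2 hS0
    have hS2 : S ^ 2 = a ^ 2 + n := Real.sq_sqrt hS0.le
    have hk : kap24 a n = a + S := rfl
    rw [hk, one_div, inv_mul_eq_div, div_lt_iff₀ (by positivity)]
    -- with `b = S - x`
    have h1 : 0 ≤ (S - x) ^ 2 + (2 * a - 2) * (S - x) + a * (2 + a) := by
      nlinarith [sq_nonneg (S - x + (a - 1))]
    have h2 := mul_nonneg hSp.le h1
    nlinarith [sq_nonneg (S - x), mul_pos ha0 ha0]

variable {M : Type} [MetricSpace M] {γ : ℝ → M}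

/-! ### the map on the surface -/

/-- the map `v = G(Θ, F)` -/
def pv (κ : ℝ → ℝ) (F T : Fin 3 → M → ℝ) : Fin 3 → M → ℝ := sub2 (gG κ) F T

/-- the coefficient `R` -/
def pR (κ : ℝ → ℝ) (F T : Fin 3 → M → ℝ) (x : M) : ℝ := gR κ (vv (n := 0) T x, vv (n := 0) F x)

/-- the coefficient `g` -/
def pg (κ : ℝ → ℝ) (F T : Fin 3 → M → ℝ) (x : M) : ℝ := gC κ (vv (n := 0) T x, vv (n := 0) F x)

/-- the pointwise relations -/
theorem pv_rel {κ : ℝ → ℝ} (hκ : Kap κ) {F : Fin 3 → M → ℝ} (hF : Sph γ F) (T : Fin 3 → M → ℝ) (x : M) :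
    ‖vv (n := 0) (pv κ F T) x‖ = 1 ∧ 1 < pR κ F T x ∧ 0 < pg κ F T x ∧
    vv (n := 0) T x = pR κ F T x • vv (n := 0) (pv κ F T) x - pg κ F T x • vv (n := 0) F x ∧
    pR κ F T x - 1 + pg κ F T x = κ (‖vv (n := 0) T x - vv (n := 0) (pv κ F T) x‖ ^ 2) := by
  have h := gG_rel hκ (T := vv (n := 0) T x) (norm_vv hF x)
  unfold pv
  rw [vv_sub2]
  exact h

theorem pR_lip {κ : ℝ → ℝ} (hκ : Kap κ) {F : Fin 3 → M → ℝ} (hF : Sph γ F) {LF : ℝ≥0}
    (hLF : ∀ k, LipschitzWith LF (F k)) {T : Fin 3 → M → ℝ} (hT : Pre γ T) :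
    Lip (pR κ F T) ∧ Lip (pg κ F T) := by
  obtain ⟨K, hK⟩ := GMap.lips (G := gR κ) (fun T F hF => gR_cd hκ hF) 8
  obtain ⟨K', hK'⟩ := GMap.lips (G := gC κ) (fun T F hF => gC_cd hκ hF) 8
  exact ⟨⟨_, sub2_lip hK hF hLF hT⟩, ⟨_, sub2_lip hK' hF hLF hT⟩⟩

/-- the relations between the derivatives along a curve -/
theorem pv_curve {κ : ℝ → ℝ} (hκ : Kap κ) {F : Fin 3 → M → ℝ} (hF : Sph γ F) {T : Fin 3 → M → ℝ}
    {c : ℝ → M} {gT gF : Fin 3 → ℝ} (hT' : ∀ i, HasDerivAt (fun t => T i (c t)) (gT i) 0)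
    (hF' : ∀ i, HasDerivAt (fun t => F i (c t)) (gF i) 0) :
    (!₂[gT 0, gT 1, gT 2] : E3) = deriv (fun t => pR κ F T (c t)) 0 • vv (n := 0) (pv κ F T) (c 0)
      + pR κ F T (c 0) • !₂[deriv (fun t => pv κ F T 0 (c t)) 0, deriv (fun t => pv κ F T 1 (c t)) 0,
          deriv (fun t => pv κ F T 2 (c t)) 0]
      - deriv (fun t => pg κ F T (c t)) 0 • vv (n := 0) F (c 0)
      - pg κ F T (c 0) • !₂[gF 0, gF 1, gF 2] ∧
    deriv (fun t => pR κ F T (c t)) 0 + deriv (fun t => pg κ F T (c t)) 0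
      = deriv κ (‖vv (n := 0) T (c 0) - vv (n := 0) (pv κ F T) (c 0)‖ ^ 2) *
        (2 * inner ℝ (vv (n := 0) T (c 0) - vv (n := 0) (pv κ F T) (c 0))
          (!₂[gT 0, gT 1, gT 2] - !₂[deriv (fun t => pv κ F T 0 (c t)) 0,
            deriv (fun t => pv κ F T 1 (c t)) 0, deriv (fun t => pv κ F T 2 (c t)) 0])) := by
  have hn : ‖vv (n := 0) F (c 0)‖ = 1 := norm_vv hF _
  have hv : ∀ k, HasDerivAt (fun t => pv κ F T k (c t)) (deriv (fun t => pv κ F T k (c t)) 0) 0 := by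
    intro k
    have h := sub2_hasDeriv (G := gG κ) hT' hF' ((gG_cd hκ hn).differentiableAt one_ne_zero) k
    exact h.differentiableAt.hasDerivAt
  have hR : HasDerivAt (fun t => pR κ F T (c t)) (deriv (fun t => pR κ F T (c t)) 0) 0 := by
    have h := sub1_hasDeriv (G := gR κ) hT' hF' ((gR_cd hκ hn).differentiableAt one_ne_zero)
    exact h.differentiableAt.hasDerivAt
  have hg : HasDerivAt (fun t => pg κ F T (c t)) (deriv (fun t => pg κ F T (c t)) 0) 0 := by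
    have h := sub1_hasDeriv (G := gC κ) hT' hF' ((gC_cd hκ hn).differentiableAt one_ne_zero)
    exact h.differentiableAt.hasDerivAt
  have hTv := vv_hasDeriv hT'
  have hFv := vv_hasDeriv hF'
  have hvv := vv_hasDeriv hv
  refine ⟨?_, ?_⟩
  · have h1 := ((hR.smul hvv).sub (hg.smul hFv))
    have h2 : (fun t => vv (n := 0) T (c t)) = (fun t => pR κ F T (c t) • vv (n := 0) (pv κ F T) (c t))
        - fun t => pg κ F T (c t) • vv (n := 0) F (c t) := by
      funext t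
      exact (pv_rel hκ hF T (c t)).2.2.2.1
    have h3 := hTv.unique (h2 ▸ h1)
    rw [h3]
    abel
  · have h1 : HasDerivAt (fun t => ‖vv (n := 0) T (c t) - vv (n := 0) (pv κ F T) (c t)‖ ^ 2)
        (2 * inner ℝ (vv (n := 0) T (c 0) - vv (n := 0) (pv κ F T) (c 0))
          (!₂[gT 0, gT 1, gT 2] - !₂[deriv (fun t => pv κ F T 0 (c t)) 0,
            deriv (fun t => pv κ F T 1 (c t)) 0, deriv (fun t => pv κ F T 2 (c t)) 0])) 0 :=
      (hTv.sub hvv).norm_sq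
    have h2 : HasDerivAt κ (deriv κ (‖vv (n := 0) T (c 0) - vv (n := 0) (pv κ F T) (c 0)‖ ^ 2))
        (‖vv (n := 0) T (c 0) - vv (n := 0) (pv κ F T) (c 0)‖ ^ 2) :=
      ((hκ.cd _ (by positivity)).differentiableAt one_ne_zero).hasDerivAt
    have h3 := h2.comp (0 : ℝ) h1
    have h4 : (fun t => pR κ F T (c t) + pg κ F T (c t))
        = fun t => 1 + κ (‖vv (n := 0) T (c t) - vv (n := 0) (pv κ F T) (c t)‖ ^ 2) := by
      funext t
      have := (pv_rel hκ hF T (c t)).2.2.2.2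
      linarith
    have h5 : HasDerivAt (fun t => pR κ F T (c t) + pg κ F T (c t)) _ 0 := hR.add hg
    rw [h4] at h5
    exact h5.unique (h3.const_add 1)

/-- THE RELATIONS BETWEEN THE DERIVATIVES, almost everywhere -/
theorem pv_ae (C : Calc M γ) {κ : ℝ → ℝ} (hκ : Kap κ) {F : Fin 3 → M → ℝ} (hF : Sph γ F)
    {T : Fin 3 → M → ℝ} (hT : ∀ k, Lip (T k)) : ∀ᵐ o ∂C.μ,
    (dx C T o = C.gx (pR κ F T) o • at' C (pv κ F T) o + pR κ F T (C.pt o) • dx C (pv κ F T) o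
        - C.gx (pg κ F T) o • at' C F o - pg κ F T (C.pt o) • dx C F o ∧
      dy C T o = C.gy (pR κ F T) o • at' C (pv κ F T) o + pR κ F T (C.pt o) • dy C (pv κ F T) o
        - C.gy (pg κ F T) o • at' C F o - pg κ F T (C.pt o) • dy C F o) ∧
    (C.gx (pR κ F T) o + C.gx (pg κ F T) o = deriv κ (‖at' C T o - at' C (pv κ F T) o‖ ^ 2) *
        (2 * inner ℝ (at' C T o - at' C (pv κ F T) o) (dx C T o - dx C (pv κ F T) o)) ∧
      C.gy (pR κ F T) o + C.gy (pg κ F T) o = deriv κ (‖at' C T o - at' C (pv κ F T) o‖ ^ 2) *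
        (2 * inner ℝ (at' C T o - at' C (pv κ F T) o) (dy C T o - dy C (pv κ F T) o))) := by
  have hA : ∀ᵐ o ∂C.μ, ∀ i, HasDerivAt (fun s => T i (C.px o s)) (C.gx (T i) o) 0 ∧
      HasDerivAt (fun s => T i (C.py o s)) (C.gy (T i) o) 0 :=
    ae_all_iff.mpr fun i => C.ae_has (hT i)
  have hB : ∀ᵐ o ∂C.μ, ∀ i, HasDerivAt (fun s => F i (C.px o s)) (C.gx (F i) o) 0 ∧
      HasDerivAt (fun s => F i (C.py o s)) (C.gy (F i) o) 0 :=
    ae_all_iff.mpr fun i => C.ae_has (hF.lip i)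
  filter_upwards [hA, hB] with o hoA hoB
  have hx := pv_curve hκ hF (T := T) (c := C.px o) (fun i => (hoA i).1) (fun i => (hoB i).1)
  have hy := pv_curve hκ hF (T := T) (c := C.py o) (fun i => (hoA i).2) (fun i => (hoB i).2)
  rw [C.same o] at hy
  exact ⟨⟨hx.1, hy.1⟩, ⟨hx.2, hy.2⟩⟩

section
variable [CompactSpace M]

/-- THE FIXED POINT with the global pin -/
theorem pv_fix (C : Calc M γ) (hγ : Bd γ) (hR : RegAE C) {κ : ℝ → ℝ} (hκ : Kap κ)
    {F : Fin 3 → M → ℝ} (hF : Sph γ F) {ε : ℝ} (hε : 0 < ε) :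
    ∃ P : Fam γ, Pre γ P.Th ∧ Sph γ (pv κ F P.Th) ∧
      Real.pi ^ 2 - ε ≤ ∫ p, Flux C (P.f p) (pv κ F P.Th) p ∂PP :=
  gfix C hγ hR (gG_map hκ) hF hε

end

end Pool.Agent.FPX
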