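import Mathlib
import Pool.Agent.FPX.KVI

/-
KVJ (helper82): lower bound of the quadratic form with a multiple of `|dη|²`, `η = Θ - v`, for the
families `k = K(|η|)` (`K` constant: `m = 0`), all angles between `v` and `F`.
-/

noncomputable section

namespace Pool.Agent.FPX

open Pool.Agent.EWD

/-- Cauchy-Schwarz for two numbers -/
theorem cs_cross {x y S T X Y : ℝ} (hS : 0 ≤ S) (hT : 0 ≤ T) (hX : 0 ≤ X)
    (hY : 0 ≤ Y) (h1 : x ^ 2 ≤ S * X) (h2 : y ^ 2 ≤ T * Y) : 2 * (x * y) ≤ S * Y + T * X := by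
  have h3 : (x * y) ^ 2 ≤ (S * Y) * (T * X) := by
    calc (x * y) ^ 2 = x ^ 2 * y ^ 2 := by ring
      _ ≤ (S * X) * (T * Y) := mul_le_mul h1 h2 (by positivity) (by positivity)
      _ = (S * Y) * (T * X) := by ring
  have h4 : 0 ≤ S * Y := by positivity
  have h5 : 0 ≤ T * X := by positivity
  refine abs_le_of_sq_le_sq' ?_ (by positivity) |>.2
  nlinarith [sq_nonneg (S * Y - T * X)]

/-- Cauchy-Schwarz for three numbers -/
theorem cs_three {x y z S T U X Y Z : ℝ} (hS : 0 ≤ S) (hT : 0 ≤ T) (hU : 0 ≤ U) (hX : 0 ≤ X)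
    (hY : 0 ≤ Y) (hZ : 0 ≤ Z) (h1 : x ^ 2 ≤ S * X)
    (h2 : y ^ 2 ≤ T * Y) (h3 : z ^ 2 ≤ U * Z) :
    (x + y + z) ^ 2 ≤ (S + T + U) * (X + Y + Z) := by
  have h4 := cs_cross hS hT hX hY h1 h2
  have h5 := cs_cross hS hU hX hZ h1 h3
  have h6 := cs_cross hT hU hY hZ h2 h3
  nlinarith

/-- the final quadratic form in `Z` and `n` -/
theorem form_nonneg {A r a1 kap S X : ℝ} (hS : 0 < S)
    (hSA : S * (4 + A * (kap - 1)) ≤ A * r ^ 2 + 4 * a1 * r + a1 ^ 2 * (1 - kap)) {Z n : E3}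
    (h : ‖a1 • Z - r • n‖ ^ 2 ≤ S * X) (ha : 0 < S * A + a1 ^ 2) :
    0 ≤ A * ‖Z‖ ^ 2 + 4 * inner ℝ Z n + (1 - kap) * ‖n‖ ^ 2 + X := by
  have e1 : ‖a1 • Z - r • n‖ ^ 2 = a1 ^ 2 * ‖Z‖ ^ 2 - 2 * a1 * r * inner ℝ Z n + r ^ 2 * ‖n‖ ^ 2 := by
    rw [norm_sub_sq_real, norm_smul, norm_smul, mul_pow, mul_pow, inner_smul_left, inner_smul_right,
      Real.norm_eq_abs, Real.norm_eq_abs, sq_abs, sq_abs]
    simp only [conj_trivial]
    ring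
  rw [e1] at h
  have e2 : ‖(S * A + a1 ^ 2) • Z + (2 * S - a1 * r) • n‖ ^ 2 =
      (S * A + a1 ^ 2) ^ 2 * ‖Z‖ ^ 2 + 2 * (S * A + a1 ^ 2) * (2 * S - a1 * r) * inner ℝ Z n
        + (2 * S - a1 * r) ^ 2 * ‖n‖ ^ 2 := by
    rw [norm_add_sq_real, norm_smul, norm_smul, mul_pow, mul_pow, inner_smul_left, inner_smul_right,
      Real.norm_eq_abs, Real.norm_eq_abs, sq_abs, sq_abs]
    simp only [conj_trivial]
    ring
  have h1 : 0 ≤ S * (S * A + a1 ^ 2) * (A * ‖Z‖ ^ 2 + 4 * inner ℝ Z n + (1 - kap) * ‖n‖ ^ 2 + X) := by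
    have h2 : S * (S * A + a1 ^ 2) * (A * ‖Z‖ ^ 2 + 4 * inner ℝ Z n + (1 - kap) * ‖n‖ ^ 2 + X) =
        ‖(S * A + a1 ^ 2) • Z + (2 * S - a1 * r) • n‖ ^ 2
          + (S * A + a1 ^ 2) * (S * X - (a1 ^ 2 * ‖Z‖ ^ 2 - 2 * a1 * r * inner ℝ Z n + r ^ 2 * ‖n‖ ^ 2))
          + S * (A * r ^ 2 + 4 * a1 * r + a1 ^ 2 * (1 - kap) - S * (4 + A * (kap - 1))) * ‖n‖ ^ 2 := by
      rw [e2]
      ring
    rw [h2]
    have h3 : 0 ≤ (S * A + a1 ^ 2) * (S * X - (a1 ^ 2 * ‖Z‖ ^ 2 - 2 * a1 * r * inner ℝ Z n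
        + r ^ 2 * ‖n‖ ^ 2)) := mul_nonneg ha.le (by linarith)
    have h4 : 0 ≤ S * (A * r ^ 2 + 4 * a1 * r + a1 ^ 2 * (1 - kap) - S * (4 + A * (kap - 1)))
        * ‖n‖ ^ 2 := mul_nonneg (mul_nonneg hS.le (by linarith)) (sq_nonneg _)
    have h5 : 0 ≤ ‖(S * A + a1 ^ 2) • Z + (2 * S - a1 * r) • n‖ ^ 2 := by positivity
    linarith
  exact nonneg_of_mul_nonneg_right h1 (mul_pos hS ha)

section
variable {v F : E3}

/-- the norm inequality for `a₁ Z - r v₋` -/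
theorem KV_norm2 (hv : ‖v‖ = 1) (hF : ‖F‖ = 1) (hz : 0 < 1 + (inner ℝ v F : ℝ)) {a b fa fb : E3}
    (ha : inner ℝ v a = (0 : ℝ)) (hb : inner ℝ v b = (0 : ℝ)) (hfa : inner ℝ F fa = (0 : ℝ))
    (hfb : inner ℝ F fb = (0 : ℝ)) (r g rx ry gx gy : ℝ) {m a2 a3 : ℝ}
    {s t P Z : E3} {Wx Wy : ℝ} (hs : s = gx • F + g • fa) (ht : t = gy • F + g • fb)
    (hP : P = r • qp v a b - qp v s t) (hZ : Z = r • qm v a b - qm v s t)
    (hWx : Wx = rx - inner ℝ v s) (hWy : Wy = ry - inner ℝ v t)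
    (hkx : rx + gx = m * inner ℝ (r • v - g • F) (rx • v + r • a - s))
    (hky : ry + gy = m * inner ℝ (r • v - g • F) (ry • v + r • b - t))
    (ha2 : 2 * a2 = m * g * (1 - inner ℝ v F)) (ha3 : 0 ≤ a3)
    (ha3' : (1 + inner ℝ v F) * a3 ^ 2 =
      (1 - inner ℝ v F) * (1 - m * (r - g * inner ℝ v F)) ^ 2) :
    ‖(1 - a2) • Z - r • qm v a b‖ ≤
      |a2| * ‖P‖ + (1 / 2) * a3 * √(Wx ^ 2 + Wy ^ 2) + |g| * ‖qm F fa fb‖ := by
  have hid := KV_id hv hF hz ha hb hfa hfb r g rx ry gx gy 0 (M := Z) hs ht hP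
    (by rw [hZ]; module) hWx hWy hkx hky ha2
  set z : ℝ := inner ℝ v F with hzd
  have hz1 : (0 : ℝ) ≤ 1 - z := one_sub_inner_nonneg hv hF
  have hPp : inner ℝ v P = (0 : ℝ) := by
    rw [hP, inner_sub_right, inner_smul_right, qp_perp hv, qp_perp hv]
    ring
  have hc : 0 < 2 * (1 + z) := by positivity
  set n : E3 := qm v a b
  set f : E3 := ptr v F (qm F fa fb) with hf
  set W : E3 := Wx • prj v F - Wy • crs v F with hW
  have hWn : ‖W‖ ^ 2 = (1 - z ^ 2) * (Wx ^ 2 + Wy ^ 2) := by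
    have e : W = Wx • prj v F + (-Wy) • crs v F := by
      rw [hW]
      module
    rw [e, frame_normsq hv hF]
    ring
  have e0 : (2 * (1 + z) : ℝ) • ((1 - a2) • Z - r • n) =
      (m * g : ℝ) • rfl2 v F P + (1 - m * (r - g * z) : ℝ) • W - (2 * (1 + z) * g : ℝ) • f := by
    have e1 : (2 * (1 + z) : ℝ) • ((1 - a2) • Z - r • n) = (2 * (1 + z) * (1 - a2) : ℝ) • Z
        - (m * g : ℝ) • rfl2 v F P - (1 - m * (r - g * z) : ℝ) • W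
        + (m * g : ℝ) • rfl2 v F P + (1 - m * (r - g * z) : ℝ) • W - (2 * (1 + z) * r : ℝ) • n := by
      module
    rw [e1, ← hid]
    module
  have n1 := congrArg norm e0
  rw [norm_smul, Real.norm_eq_abs, abs_of_pos hc] at n1
  have n2 : ‖(m * g : ℝ) • rfl2 v F P + (1 - m * (r - g * z) : ℝ) • W - (2 * (1 + z) * g : ℝ) • f‖ ≤
      |m * g| * ((1 - z ^ 2) * ‖P‖) + |1 - m * (r - g * z)| * ‖W‖
        + 2 * (1 + z) * (|g| * ‖qm F fa fb‖) := by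
    refine (norm_sub_le _ _).trans ?_
    have n3 := norm_add_le ((m * g : ℝ) • rfl2 v F P) ((1 - m * (r - g * z) : ℝ) • W)
    rw [norm_smul, norm_smul, Real.norm_eq_abs, Real.norm_eq_abs, rfl2_norm hv hF hPp] at n3
    rw [norm_smul (2 * (1 + z) * g) f, Real.norm_eq_abs, abs_mul (2 * (1 + z)) g, abs_of_pos hc, hf,
      ptr_norm hv hF hz (qm_perp hF fa fb), mul_assoc (2 * (1 + z)) |g|]
    linarith
  have e1 : |m * g| * ((1 - z ^ 2) * ‖P‖) = 2 * (1 + z) * (|a2| * ‖P‖) := by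
    have k1 : |m * g| * (1 - z) = 2 * |a2| := by
      have k2 := congrArg abs ha2
      rw [abs_mul, abs_mul (m * g), abs_of_pos (by norm_num : (0 : ℝ) < 2), abs_of_nonneg hz1] at k2
      exact k2.symm
    have k3 : |m * g| * ((1 - z ^ 2) * ‖P‖) = (|m * g| * (1 - z)) * ((1 + z) * ‖P‖) := by ring
    rw [k3, k1]
    ring
  have e2 : |1 - m * (r - g * z)| * ‖W‖ = 2 * (1 + z) * ((1 / 2) * a3 * √(Wx ^ 2 + Wy ^ 2)) := by
    have hw0 : 0 ≤ Wx ^ 2 + Wy ^ 2 := by positivity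
    refine (pow_left_inj₀ (by positivity) (by positivity) two_ne_zero).1 ?_
    rw [mul_pow, hWn, sq_abs, mul_pow, mul_pow, mul_pow (1 / 2 * a3), Real.sq_sqrt hw0]
    linear_combination -((1 + z) * (Wx ^ 2 + Wy ^ 2)) * ha3'
  rw [← n1, e1, e2] at n2
  have n5 : 2 * (1 + z) * ‖(1 - a2) • Z - r • n‖ ≤ 2 * (1 + z) *
      (|a2| * ‖P‖ + (1 / 2) * a3 * √(Wx ^ 2 + Wy ^ 2) + |g| * ‖qm F fa fb‖) := by
    linarith
  exact le_of_mul_le_mul_left n5 hc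

/-- **the form with `|dη|²`, `k = K(|η|)`** -/
theorem KV_grad (hv : ‖v‖ = 1) (hF : ‖F‖ = 1) (hz : 0 < 1 + (inner ℝ v F : ℝ)) {a b fa fb : E3}
    (ha : inner ℝ v a = (0 : ℝ)) (hb : inner ℝ v b = (0 : ℝ)) (hfa : inner ℝ F fa = (0 : ℝ))
    (hfb : inner ℝ F fb = (0 : ℝ)) (R g rx ry gx gy : ℝ) {m a2 a3 : ℝ}
    (hkx : rx + gx = m * inner ℝ ((R - 1) • v - g • F) (rx • v + (R - 1) • a - (gx • F + g • fa)))
    (hky : ry + gy = m * inner ℝ ((R - 1) • v - g • F) (ry • v + (R - 1) • b - (gy • F + g • fb)))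
    (ha2 : 2 * a2 = m * g * (1 - inner ℝ v F)) (ha3 : 0 ≤ a3)
    (ha3' : (1 + inner ℝ v F) * a3 ^ 2 =
      (1 - inner ℝ v F) * (1 - m * (R - 1 - g * inner ℝ v F)) ^ 2) {al kap E S2 S3 SF : ℝ}
    (hal : al ≤ 1) (hE : 0 ≤ E) (hS2 : 0 ≤ S2) (hS3 : 0 ≤ S3) (hSF : 0 ≤ SF)
    (hS : 0 < S2 + S3 + SF) (k2 : a2 ^ 2 ≤ (1 - al) * S2) (k3 : a3 ^ 2 ≤ (3 - 2 * al) * S3)
    (kF : g ^ 2 ≤ E * SF) (hpos : 0 < (S2 + S3 + SF) * (1 - al) + (1 - a2) ^ 2)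
    (hD : (S2 + S3 + SF) * (4 + (1 - al) * (kap - 1)) ≤
      (1 - al) * (R - 1) ^ 2 + 4 * (1 - a2) * (R - 1) + (1 - a2) ^ 2 * (1 - kap)) :
    al * (‖rx • v + (R - 1) • a - (gx • F + g • fa)‖ ^ 2
        + ‖ry • v + (R - 1) • b - (gy • F + g • fb)‖ ^ 2)
      + kap * (2 * ‖qm v a b‖ ^ 2) - E * (2 * ‖qm F fa fb‖ ^ 2) ≤
      Qd v a b (rx • v + R • a - (gx • F + g • fa)) (ry • v + R • b - (gy • F + g • fb)) := by
  set s : E3 := gx • F + g • fa with hs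
  set t : E3 := gy • F + g • fb with ht
  set r : ℝ := R - 1 with hr
  set n : E3 := qm v a b with hn
  set P : E3 := r • qp v a b - qp v s t with hP
  set Z : E3 := r • n - qm v s t with hZ
  set Wx : ℝ := rx - inner ℝ v s with hWx
  set Wy : ℝ := ry - inner ℝ v t with hWy
  set f : ℝ := ‖qm F fa fb‖ with hf
  -- the gradient of `η`
  have px : inner ℝ v (r • a - prj v s) = (0 : ℝ) := by
    rw [inner_sub_right, inner_smul_right, ha, prj_perp hv]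
    ring
  have py : inner ℝ v (r • b - prj v t) = (0 : ℝ) := by
    rw [inner_sub_right, inner_smul_right, hb, prj_perp hv]
    ring
  have ex : ‖rx • v + r • a - s‖ ^ 2 = ‖r • a - prj v s‖ ^ 2 + Wx ^ 2 := by
    rw [norm_prj_sq hv (rx • v + r • a - s)]
    have e1 : prj v (rx • v + r • a - s) = r • a - prj v s := by
      rw [prj_sub, prj_add, prj_smul, prj_smul, prj_self hv, smul_zero, zero_add, prj_of_perp ha]
    have e2 : inner ℝ v (rx • v + r • a - s) = Wx := by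
      rw [hWx, inner_sub_right, inner_add_right, inner_smul_right, inner_smul_right,
        inner_self_one hv, ha]
      ring
    rw [e1, e2]
  have ey : ‖ry • v + r • b - t‖ ^ 2 = ‖r • b - prj v t‖ ^ 2 + Wy ^ 2 := by
    rw [norm_prj_sq hv (ry • v + r • b - t)]
    have e1 : prj v (ry • v + r • b - t) = r • b - prj v t := by
      rw [prj_sub, prj_add, prj_smul, prj_smul, prj_self hv, smul_zero, zero_add, prj_of_perp hb]
    have e2 : inner ℝ v (ry • v + r • b - t) = Wy := by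
      rw [hWy, inner_sub_right, inner_add_right, inner_smul_right, inner_smul_right,
        inner_self_one hv, hb]
      ring
    rw [e1, e2]
  have epm : ‖r • a - prj v s‖ ^ 2 + ‖r • b - prj v t‖ ^ 2 = 2 * ‖P‖ ^ 2 + 2 * ‖Z‖ ^ 2 := by
    rw [norm_pm hv px py]
    have e1 : qp v (r • a - prj v s) (r • b - prj v t) = P := by
      rw [hP]
      unfold qp
      rw [prj_of_perp px, crs_sub, crs_smul, crs_prj, prj_of_perp ha]
      module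
    have e2 : qm v (r • a - prj v s) (r • b - prj v t) = Z := by
      rw [hZ, hn]
      unfold qm
      rw [prj_of_perp px, crs_sub, crs_smul, crs_prj, prj_of_perp ha]
      module
    rw [e1, e2]
  -- the value of the form
  have eM : (R + 1) • n - qm v s t = Z + (2 : ℝ) • n := by
    rw [hZ, hr]
    module
  have eN : ‖Z + (2 : ℝ) • n‖ ^ 2 = ‖Z‖ ^ 2 + 4 * inner ℝ Z n + 4 * ‖n‖ ^ 2 := by
    rw [norm_add_sq_real, norm_smul, mul_pow, inner_smul_right]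
    norm_num
    ring
  rw [Qd_eq hv ha hb, ← hr, ← hn, ← hP, ← hWx, ← hWy, eM, eN, ex, ey]
  -- the identity
  have hnm := KV_norm2 hv hF hz ha hb hfa hfb r g rx ry gx gy hs ht hP hZ hWx hWy hkx hky ha2 ha3 ha3'
  rw [← hn, ← hf] at hnm
  have hw0 : 0 ≤ Wx ^ 2 + Wy ^ 2 := by positivity
  set w : ℝ := √(Wx ^ 2 + Wy ^ 2) with hw
  have hw2 : w ^ 2 = Wx ^ 2 + Wy ^ 2 := Real.sq_sqrt hw0
  have hal3 : 0 < 3 - 2 * al := by linarith
  have hcs := cs_three hS2 hS3 hSF (x := |a2| * ‖P‖) (y := 1 / 2 * a3 * w) (z := |g| * f)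
    (X := (1 - al) * ‖P‖ ^ 2) (Y := (3 - 2 * al) / 4 * w ^ 2) (Z := E * f ^ 2)
    (mul_nonneg (by linarith) (sq_nonneg _)) (by positivity) (by positivity) ?_ ?_ ?_
  · have hsq := pow_le_pow_left₀ (norm_nonneg _) hnm 2
    have hfin := form_nonneg (A := 1 - al) (r := r) (a1 := 1 - a2) (kap := kap) hS (by linarith)
      (hsq.trans hcs) hpos
    rw [hw2] at hfin
    have e9 : al * (‖r • a - prj v s‖ ^ 2 + Wx ^ 2 + (‖r • b - prj v t‖ ^ 2 + Wy ^ 2)) =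
        al * (2 * ‖P‖ ^ 2 + 2 * ‖Z‖ ^ 2 + Wx ^ 2 + Wy ^ 2) := by
      linear_combination al * epm
    rw [e9]
    have e10 : 2 * ‖P‖ ^ 2 + 2 * (‖Z‖ ^ 2 + 4 * inner ℝ Z n + 4 * ‖n‖ ^ 2) - 6 * ‖n‖ ^ 2
        + 3 / 2 * (Wx ^ 2 + Wy ^ 2) - (al * (2 * ‖P‖ ^ 2 + 2 * ‖Z‖ ^ 2 + Wx ^ 2 + Wy ^ 2)
          + kap * (2 * ‖n‖ ^ 2) - E * (2 * f ^ 2)) =
        2 * ((1 - al) * ‖Z‖ ^ 2 + 4 * inner ℝ Z n + (1 - kap) * ‖n‖ ^ 2 +
      ((1 - al) * ‖P‖ ^ 2 + (3 - 2 * al) / 4 * (Wx ^ 2 + Wy ^ 2) + E * f ^ 2)) := by ring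
    linarith
  · rw [mul_pow, sq_abs]
    calc a2 ^ 2 * ‖P‖ ^ 2 ≤ ((1 - al) * S2) * ‖P‖ ^ 2 :=
          mul_le_mul_of_nonneg_right k2 (sq_nonneg _)
      _ = S2 * ((1 - al) * ‖P‖ ^ 2) := by ring
  · calc (1 / 2 * a3 * w) ^ 2 = a3 ^ 2 * (w ^ 2 / 4) := by ring
      _ ≤ ((3 - 2 * al) * S3) * (w ^ 2 / 4) := mul_le_mul_of_nonneg_right k3 (by positivity)
      _ = S3 * ((3 - 2 * al) / 4 * w ^ 2) := by ring
  · rw [mul_pow, sq_abs]
    calc g ^ 2 * f ^ 2 ≤ (E * SF) * f ^ 2 := mul_le_mul_of_nonneg_right kF (sq_nonneg _)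
      _ = SF * (E * f ^ 2) := by ring

/-- **the K-family** (`R - 1 + g` constant): the form with `|dη|²` -/
theorem Qd_Kc (hv : ‖v‖ = 1) (hF : ‖F‖ = 1) (hz : 0 < 1 + (inner ℝ v F : ℝ)) {a b fa fb : E3}
    (ha : inner ℝ v a = (0 : ℝ)) (hb : inner ℝ v b = (0 : ℝ)) (hfa : inner ℝ F fa = (0 : ℝ))
    (hfb : inner ℝ F fb = (0 : ℝ)) (R g gx gy : ℝ) {al kap E S3 SF : ℝ}
    (hal : al ≤ 1) (hE : 0 ≤ E) (hS3 : 0 ≤ S3) (hSF : 0 ≤ SF) (hS : 0 < S3 + SF)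
    (k3 : (1 - inner ℝ v F) ≤ (1 + inner ℝ v F) * ((3 - 2 * al) * S3)) (kF : g ^ 2 ≤ E * SF)
    (hD : (S3 + SF) * (4 + (1 - al) * (kap - 1)) ≤
      (1 - al) * (R - 1) ^ 2 + 4 * (R - 1) + (1 - kap)) :
    al * (‖(-gx) • v + (R - 1) • a - (gx • F + g • fa)‖ ^ 2
        + ‖(-gy) • v + (R - 1) • b - (gy • F + g • fb)‖ ^ 2)
      + kap * (2 * ‖qm v a b‖ ^ 2) - E * (2 * ‖qm F fa fb‖ ^ 2) ≤
      Qd v a b ((-gx) • v + R • a - (gx • F + g • fa)) ((-gy) • v + R • b - (gy • F + g • fb)) := by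
  have hz1 : (0 : ℝ) ≤ 1 - inner ℝ v F := one_sub_inner_nonneg hv hF
  set z : ℝ := inner ℝ v F with hzd
  have h0 : 0 ≤ (1 - z) / (1 + z) := div_nonneg hz1 hz.le
  have hsq : √((1 - z) / (1 + z)) ^ 2 = (1 - z) / (1 + z) := Real.sq_sqrt h0
  refine KV_grad hv hF hz ha hb hfa hfb R g (-gx) (-gy) gx gy (m := 0) (a2 := 0)
    (a3 := √((1 - z) / (1 + z))) ?_ ?_ ?_ (Real.sqrt_nonneg _) ?_ hal hE le_rfl hS3 hSF
    (by linarith) ?_ ?_ kF ?_ ?_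
  · ring
  · ring
  · ring
  · rw [hsq, ← hzd]
    field_simp
    ring
  · simp
  · rw [hsq, div_le_iff₀ hz]
    linarith
  · have : 0 ≤ (0 + S3 + SF) * (1 - al) := mul_nonneg (by linarith) (by linarith)
    nlinarith
  · linarith

end

end Pool.Agent.FPX
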