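import Mathlib
import Pool.Agent.FPX.GVS
import Pool.Agent.FPX.EMY
import Pool.Agent.FPX.KVJ
import Pool.Agent.FPX.KENB

/-
VCL (helper5): the class constant of the V stage. Let `F` be in the class `KY C 2 E` with the constant
bound `c₀` and let `P` be a family of tents with `|Θ| ≤ 2`. The map `v = pv κ F Θ` (`Θ = (1+r) v - g F`,
`r + g = κ(h²)`, `h = |Θ - v|`) is in the class `KY C 2 2` with the constant bound `c₁` as soon as
`A + B e^{c₀} ≤ e^{c₁}`, where `A`, `B` bound `S / (1 + r - 2 a₂)` and `g / (1 + r - 2 a₂)`,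
`S² = (1-a₂)² + a₂² + a₃²/2`, over all states with `|Θ| ≤ 2`.
-/

open MeasureTheory Set Filter Topology
open scoped ENNReal NNReal

noncomputable section

namespace Pool.Agent.FPX

open Pool.Agent.EWD

/-! ### real variables of a state -/

/-- `a₂ = m g (1 - z) / 2` in the variables `K = r + g`, `d = r - g`, `h = |η|` -/
def va2 (K m h d : ℝ) : ℝ := m * (h ^ 2 - d ^ 2) / (2 * (K + d))

/-- `a₃²` -/
def va3 (K m h d : ℝ) : ℝ :=
  (h ^ 2 - d ^ 2) * ((K + d) - m * (K * d + h ^ 2)) ^ 2 / ((K ^ 2 - h ^ 2) * (K + d) ^ 2)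

/-- the condition on the constants `A`, `B` -/
structure VCl (κ : ℝ → ℝ) (A B : ℝ) : Prop where
  a2 : ∀ h d : ℝ, 0 ≤ h → |d| ≤ h → h ^ 2 + 1 + 2 * (κ (h ^ 2) * d + h ^ 2) / (κ (h ^ 2) + d) ≤ 4 →
    va2 (κ (h ^ 2)) (2 * deriv κ (h ^ 2)) h d ≤ 1
  pos : ∀ h d : ℝ, 0 ≤ h → |d| ≤ h → h ^ 2 + 1 + 2 * (κ (h ^ 2) * d + h ^ 2) / (κ (h ^ 2) + d) ≤ 4 →
    0 < 1 + (κ (h ^ 2) + d) / 2 - 2 * va2 (κ (h ^ 2)) (2 * deriv κ (h ^ 2)) h d
  S : ∀ h d : ℝ, 0 ≤ h → |d| ≤ h → h ^ 2 + 1 + 2 * (κ (h ^ 2) * d + h ^ 2) / (κ (h ^ 2) + d) ≤ 4 →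
    (1 - va2 (κ (h ^ 2)) (2 * deriv κ (h ^ 2)) h d) ^ 2 + va2 (κ (h ^ 2)) (2 * deriv κ (h ^ 2)) h d ^ 2
      + va3 (κ (h ^ 2)) (2 * deriv κ (h ^ 2)) h d / 2 ≤
    (A * (1 + (κ (h ^ 2) + d) / 2 - 2 * va2 (κ (h ^ 2)) (2 * deriv κ (h ^ 2)) h d)) ^ 2
  G : ∀ h d : ℝ, 0 ≤ h → |d| ≤ h → h ^ 2 + 1 + 2 * (κ (h ^ 2) * d + h ^ 2) / (κ (h ^ 2) + d) ≤ 4 →
    (κ (h ^ 2) - d) / 2 ≤
      B * (1 + (κ (h ^ 2) + d) / 2 - 2 * va2 (κ (h ^ 2)) (2 * deriv κ (h ^ 2)) h d)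

/-! ### the state -/

section
variable {v F : E3}

theorem qm_neg (v a b : E3) : qm v a (-b) = qp v a b := by
  unfold qm qp
  rw [crs_neg, sub_neg_eq_add]

theorem qp_neg (v a b : E3) : qp v a (-b) = qm v a b := by
  unfold qm qp
  rw [crs_neg, ← sub_eq_add_neg]

/-- Cauchy-Schwarz with three terms -/
theorem vcl_cs {a b c x y w A : ℝ} (hA : 0 ≤ A) (h : a ^ 2 + b ^ 2 + c ^ 2 / 2 ≤ A ^ 2)
    (h1 : 2 * x ^ 2 + 2 * y ^ 2 + w ^ 2 ≤ 2) : a * x + b * y + 1 / 2 * c * w ≤ A := by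
  refine abs_le_of_sq_le_sq' ?_ hA |>.2
  have h2 : (a * x + b * y + 1 / 2 * c * w) ^ 2 ≤
      (a ^ 2 + b ^ 2 + c ^ 2 / 2) * (x ^ 2 + y ^ 2 + w ^ 2 / 2) := by
    nlinarith [sq_nonneg (a * y - b * x), sq_nonneg (a * w - c * x), sq_nonneg (b * w - c * y)]
  have h3 : 0 ≤ a ^ 2 + b ^ 2 + c ^ 2 / 2 := by positivity
  have h4 : x ^ 2 + y ^ 2 + w ^ 2 / 2 ≤ 1 := by linarith
  calc (a * x + b * y + 1 / 2 * c * w) ^ 2 ≤
      (a ^ 2 + b ^ 2 + c ^ 2 / 2) * (x ^ 2 + y ^ 2 + w ^ 2 / 2) := h2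
    _ ≤ (a ^ 2 + b ^ 2 + c ^ 2 / 2) * 1 := mul_le_mul_of_nonneg_left h4 h3
    _ ≤ A ^ 2 := by linarith

/-- one of the two norm inequalities -/
theorem vcl_half (hv : ‖v‖ = 1) (hF : ‖F‖ = 1) (hz : 0 < 1 + (inner ℝ v F : ℝ)) {a b fa fb X Y : E3}
    (ha : inner ℝ v a = (0 : ℝ)) (hb : inner ℝ v b = (0 : ℝ)) (hfa : inner ℝ F fa = (0 : ℝ))
    (hfb : inner ℝ F fb = (0 : ℝ)) (r g rx ry gx gy : ℝ) {m a2 a3 A : ℝ}
    (hX : X = rx • v + (1 + r) • a - gx • F - g • fa)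
    (hY : Y = ry • v + (1 + r) • b - gy • F - g • fb)
    (hkx : rx + gx = m * inner ℝ (r • v - g • F) (X - a))
    (hky : ry + gy = m * inner ℝ (r • v - g • F) (Y - b))
    (ha2 : 2 * a2 = m * g * (1 - inner ℝ v F)) (ha20 : 0 ≤ a2) (ha21 : a2 ≤ 1) (ha3 : 0 ≤ a3)
    (ha3' : (1 + inner ℝ v F) * a3 ^ 2 =
      (1 - inner ℝ v F) * (1 - m * (r - g * inner ℝ v F)) ^ 2)
    (hr : 0 ≤ r) (hg : 0 ≤ g) (hA : 0 ≤ A)
    (hS : (1 - a2) ^ 2 + a2 ^ 2 + a3 ^ 2 / 2 ≤ A ^ 2) (hXY : ‖X‖ ^ 2 + ‖Y‖ ^ 2 ≤ 2) :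
    (1 + r - a2) * ‖qm v a b‖ ≤ A + a2 * ‖qp v a b‖ + g * ‖qm F fa fb‖ := by
  set s : E3 := gx • F + g • fa with hs
  set t : E3 := gy • F + g • fb with ht
  have eX : X = rx • v + (1 + r) • a - s := by
    rw [hX, hs]
    abel
  have eY : Y = ry • v + (1 + r) • b - t := by
    rw [hY, ht]
    abel
  have pv0 : prj v v = 0 := by
    unfold prj
    rw [inner_self_one hv, one_smul, sub_self]
  have hpX : prj v X = (1 + r) • a - prj v s := by
    have e1 : prj v X = rx • prj v v + (1 + r) • prj v a - prj v s := by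
      rw [eX]
      unfold prj
      rw [inner_sub_right, inner_add_right, inner_smul_right, inner_smul_right]
      module
    rw [e1, pv0, smul_zero, zero_add, prj_of_perp ha]
  have hcY : crs v Y = (1 + r) • crs v b - crs v t := by
    rw [eY, crs_sub, crs_add, crs_smul, crs_smul, crs_self, smul_zero, zero_add]
  have hqm : qm v X Y = (1 + r) • qm v a b - qm v s t := by
    unfold qm
    rw [hpX, hcY, prj_of_perp ha]
    module
  have hqp : qp v X Y = (1 + r) • qp v a b - qp v s t := by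
    unfold qp
    rw [hpX, hcY, prj_of_perp ha]
    module
  have hP : qp v X Y - qp v a b = r • qp v a b - qp v s t := by
    rw [hqp]
    module
  have hZ : qm v X Y - qm v a b = r • qm v a b - qm v s t := by
    rw [hqm]
    module
  have hWx : inner ℝ v X = rx - inner ℝ v s := by
    rw [eX, inner_sub_right, inner_add_right, inner_smul_right, inner_smul_right, ha,
      inner_self_one hv]
    ring
  have hWy : inner ℝ v Y = ry - inner ℝ v t := by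
    rw [eY, inner_sub_right, inner_add_right, inner_smul_right, inner_smul_right, hb,
      inner_self_one hv]
    ring
  have ekx : X - a = rx • v + r • a - s := by
    rw [eX]
    module
  have eky : Y - b = ry • v + r • b - t := by
    rw [eY]
    module
  rw [ekx] at hkx
  rw [eky] at hky
  have key := KV_norm2 hv hF hz ha hb hfa hfb r g rx ry gx gy hs ht hP hZ hWx hWy hkx hky ha2 ha3 ha3'
  have e2 : (1 - a2) • (qm v X Y - qm v a b) - r • qm v a b =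
      (1 - a2) • qm v X Y - (1 + r - a2) • qm v a b := by
    module
  rw [e2, abs_of_nonneg ha20, abs_of_nonneg hg] at key
  have hn1 : (1 + r - a2) * ‖qm v a b‖ = ‖(1 + r - a2) • qm v a b‖ := by
    rw [norm_smul, Real.norm_of_nonneg (by linarith)]
  have hn2 : (1 - a2) * ‖qm v X Y‖ = ‖(1 - a2) • qm v X Y‖ := by
    rw [norm_smul, Real.norm_of_nonneg (by linarith)]
  have h1 : ‖(1 + r - a2) • qm v a b‖ ≤ ‖(1 - a2) • qm v X Y‖ +
      ‖(1 - a2) • qm v X Y - (1 + r - a2) • qm v a b‖ := by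
    have h := norm_sub_le ((1 - a2) • qm v X Y) ((1 - a2) • qm v X Y - (1 + r - a2) • qm v a b)
    rwa [sub_sub_cancel] at h
  have h2 : ‖qp v X Y - qp v a b‖ ≤ ‖qp v X Y‖ + ‖qp v a b‖ := norm_sub_le _ _
  have h3 := mul_le_mul_of_nonneg_left h2 ha20
  have hpm : ‖prj v X‖ ^ 2 + ‖prj v Y‖ ^ 2 = 2 * ‖qp v X Y‖ ^ 2 + 2 * ‖qm v X Y‖ ^ 2 := by
    have h := norm_pm hv (prj_perp hv X) (prj_perp hv Y)
    have e1 : qp v (prj v X) (prj v Y) = qp v X Y := by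
      unfold qp
      rw [crs_prj, prj_of_perp (prj_perp hv X)]
    have e2 : qm v (prj v X) (prj v Y) = qm v X Y := by
      unfold qm
      rw [crs_prj, prj_of_perp (prj_perp hv X)]
    rwa [e1, e2] at h
  have hW : √(inner ℝ v X ^ 2 + inner ℝ v Y ^ 2) ^ 2 = inner ℝ v X ^ 2 + inner ℝ v Y ^ 2 :=
    Real.sq_sqrt (by positivity)
  have hsum : 2 * ‖qm v X Y‖ ^ 2 + 2 * ‖qp v X Y‖ ^ 2 + √(inner ℝ v X ^ 2 + inner ℝ v Y ^ 2) ^ 2 ≤ 2 := by
    have h4 := norm_prj_sq hv X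
    have h5 := norm_prj_sq hv Y
    rw [hW]
    linarith
  have h6 := vcl_cs (a := 1 - a2) (b := a2) (c := a3) hA hS hsum
  rw [hn1]
  linarith

/-- both norm inequalities -/
theorem vcl_state (hv : ‖v‖ = 1) (hF : ‖F‖ = 1) (hz : 0 < 1 + (inner ℝ v F : ℝ)) {a b fa fb X Y : E3}
    (ha : inner ℝ v a = (0 : ℝ)) (hb : inner ℝ v b = (0 : ℝ)) (hfa : inner ℝ F fa = (0 : ℝ))
    (hfb : inner ℝ F fb = (0 : ℝ)) (r g rx ry gx gy : ℝ) {m a2 a3 A B E₀ : ℝ}
    (hX : X = rx • v + (1 + r) • a - gx • F - g • fa)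
    (hY : Y = ry • v + (1 + r) • b - gy • F - g • fb)
    (hkx : rx + gx = m * inner ℝ (r • v - g • F) (X - a))
    (hky : ry + gy = m * inner ℝ (r • v - g • F) (Y - b))
    (ha2 : 2 * a2 = m * g * (1 - inner ℝ v F)) (ha20 : 0 ≤ a2) (ha21 : a2 ≤ 1) (ha3 : 0 ≤ a3)
    (ha3' : (1 + inner ℝ v F) * a3 ^ 2 =
      (1 - inner ℝ v F) * (1 - m * (r - g * inner ℝ v F)) ^ 2)
    (hr : 0 ≤ r) (hg : 0 ≤ g) (hA : 0 ≤ A) (hE : 0 ≤ E₀)
    (hpos : 0 < 1 + r - 2 * a2)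
    (hS : (1 - a2) ^ 2 + a2 ^ 2 + a3 ^ 2 / 2 ≤ (A * (1 + r - 2 * a2)) ^ 2)
    (hB : g ≤ B * (1 + r - 2 * a2)) (hXY : ‖X‖ ^ 2 + ‖Y‖ ^ 2 ≤ 2)
    (hm : ‖qm F fa fb‖ ≤ E₀) (hp : ‖qp F fa fb‖ ≤ E₀) :
    ‖qm v a b‖ ≤ A + B * E₀ ∧ ‖qp v a b‖ ≤ A + B * E₀ := by
  have hA' : 0 ≤ A * (1 + r - 2 * a2) := mul_nonneg hA hpos.le
  have h1 := vcl_half hv hF hz ha hb hfa hfb r g rx ry gx gy hX hY hkx hky ha2 ha20 ha21 ha3 ha3'
    hr hg hA' hS hXY
  have h2 := vcl_half hv hF hz (b := -b) (fb := -fb) (Y := -Y) ha (by rw [inner_neg_right, hb, neg_zero])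
    hfa (by rw [inner_neg_right, hfb, neg_zero]) r g rx (-ry) gx (-gy) hX
    (by rw [hY]; module) hkx
    (by
      have e : -Y - -b = -(Y - b) := by abel
      rw [e, inner_neg_right, mul_neg, ← hky]
      ring) ha2 ha20 ha21 ha3 ha3' hr hg hA' hS (by rwa [norm_neg])
  rw [qm_neg, qp_neg, qm_neg] at h2
  have g1 : g * ‖qm F fa fb‖ ≤ B * (1 + r - 2 * a2) * E₀ := by
    calc g * ‖qm F fa fb‖ ≤ g * E₀ := mul_le_mul_of_nonneg_left hm hg
      _ ≤ B * (1 + r - 2 * a2) * E₀ := mul_le_mul_of_nonneg_right hB hE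
  have g2 : g * ‖qp F fa fb‖ ≤ B * (1 + r - 2 * a2) * E₀ := by
    calc g * ‖qp F fa fb‖ ≤ g * E₀ := mul_le_mul_of_nonneg_left hp hg
      _ ≤ B * (1 + r - 2 * a2) * E₀ := mul_le_mul_of_nonneg_right hB hE
  set n := ‖qm v a b‖
  set p := ‖qp v a b‖
  have k1 : (1 + r - a2) * n ≤ (1 + r - 2 * a2) * (A + B * E₀) + a2 * p := by linarith
  have k2 : (1 + r - a2) * p ≤ (1 + r - 2 * a2) * (A + B * E₀) + a2 * n := by linarith
  have c1 : (1 + r) * ((1 + r - 2 * a2) * (n - (A + B * E₀))) ≤ 0 := by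
    have e : (1 + r - a2) * ((1 + r - a2) * n) ≤
        (1 + r - a2) * ((1 + r - 2 * a2) * (A + B * E₀) + a2 * p) :=
      mul_le_mul_of_nonneg_left k1 (by linarith)
    have e2 := mul_le_mul_of_nonneg_left k2 ha20
    linarith
  have c2 : (1 + r) * ((1 + r - 2 * a2) * (p - (A + B * E₀))) ≤ 0 := by
    have e : (1 + r - a2) * ((1 + r - a2) * p) ≤
        (1 + r - a2) * ((1 + r - 2 * a2) * (A + B * E₀) + a2 * n) :=
      mul_le_mul_of_nonneg_left k2 (by linarith)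
    have e2 := mul_le_mul_of_nonneg_left k1 ha20
    linarith
  have hr1 : 0 < (1 + r) * (1 + r - 2 * a2) := by positivity
  constructor
  · by_contra hc
    push Not at hc
    have : 0 < (1 + r) * ((1 + r - 2 * a2) * (n - (A + B * E₀))) := by
      have : 0 < n - (A + B * E₀) := by linarith
      positivity
    linarith
  · by_contra hc
    push Not at hc
    have : 0 < (1 + r) * ((1 + r - 2 * a2) * (p - (A + B * E₀))) := by
      have : 0 < p - (A + B * E₀) := by linarith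
      positivity
    linarith

/-- the real variables of the state -/
theorem vcl_vars (hv : ‖v‖ = 1) (hF : ‖F‖ = 1) {r g h K m : ℝ} (hr : 0 < r) (hg : 0 < g)
    (hh : 0 ≤ h) (hη : ‖r • v - g • F‖ = h) (hK : r + g = K) (hhK : h < K) :
    0 < 1 + (inner ℝ v F : ℝ) ∧ |r - g| ≤ h ∧
    2 * va2 K m h (r - g) = m * g * (1 - inner ℝ v F) ∧
    (1 + (inner ℝ v F : ℝ)) * va3 K m h (r - g) =
      (1 - inner ℝ v F) * (1 - m * (r - g * inner ℝ v F)) ^ 2 ∧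
    0 ≤ va3 K m h (r - g) ∧
    ‖(1 + r) • v - g • F‖ ^ 2 = h ^ 2 + 1 + 2 * (K * (r - g) + h ^ 2) / (K + (r - g)) := by
  set z : ℝ := inner ℝ v F with hzd
  have e1 : h ^ 2 = r ^ 2 + g ^ 2 - 2 * r * g * z := by
    rw [← hη, norm_sub_sq_real, norm_smul, norm_smul, hv, hF, real_inner_smul_left,
      real_inner_smul_right, ← hzd, Real.norm_eq_abs, Real.norm_eq_abs, mul_one, mul_one, sq_abs, sq_abs]
    ring
  have hz1 : (0 : ℝ) ≤ 1 - z := one_sub_inner_nonneg hv hF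
  have hrg : 0 < r * g := mul_pos hr hg
  have hN : h ^ 2 - (r - g) ^ 2 = 2 * (r * g) * (1 - z) := by
    rw [e1]
    ring
  have hD : K ^ 2 - h ^ 2 = 2 * (r * g) * (1 + z) := by
    rw [e1, ← hK]
    ring
  have hD0 : 0 < K ^ 2 - h ^ 2 := by nlinarith
  have hz : 0 < 1 + z := by
    rw [hD] at hD0
    exact (mul_pos_iff_of_pos_left (by positivity)).1 hD0
  have hKd : K + (r - g) = 2 * r := by
    rw [← hK]
    ring
  have hKh : K * (r - g) + h ^ 2 = 2 * r * (r - g * z) := by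
    rw [e1, ← hK]
    ring
  have h3 : va3 K m h (r - g) = (1 - z) * (1 - m * (r - g * z)) ^ 2 / (1 + z) := by
    unfold va3
    rw [hN, hD, hKd, hKh]
    field_simp
  refine ⟨hz, ?_, ?_, ?_, ?_, ?_⟩
  · refine abs_le_of_sq_le_sq ?_ hh
    have : 0 ≤ 2 * (r * g) * (1 - z) := by positivity
    linarith
  · unfold va2
    rw [hN, hKd]
    field_simp
  · rw [h3]
    field_simp
  · rw [h3]
    positivity
  · rw [norm_sub_sq_real, norm_smul, norm_smul, hv, hF, real_inner_smul_left,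
      real_inner_smul_right, ← hzd, Real.norm_eq_abs, Real.norm_eq_abs, mul_one, mul_one, sq_abs, sq_abs,
      hKd, hKh, e1]
    field_simp
    ring

end

variable {M : Type} [MetricSpace M] {γ : ℝ → M}

/-! ### the surface -/

/-- `v = G(Θ, F)` is odd, Lipschitz, into the sphere -/
theorem pv_sph {κ : ℝ → ℝ} (hκ : Kap κ) {F : Fin 3 → M → ℝ} (hF : Sph γ F) {T : Fin 3 → M → ℝ}
    (hT : Pre γ T) : Sph γ (pv κ F T) := by
  have hG := gG_map hκ
  obtain ⟨K, hK⟩ := GMap.lips hG.cd 8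
  choose K' hK' using hF.lip
  have hLF : ∀ k, LipschitzWith (K' 0 + K' 1 + K' 2) (F k) := by
    intro k
    refine (hK' k).weaken ?_
    fin_cases k
    · exact (le_add_of_nonneg_right zero_le).trans (le_add_of_nonneg_right zero_le)
    · exact (le_add_of_nonneg_left zero_le).trans (le_add_of_nonneg_right zero_le)
    · exact le_add_of_nonneg_left zero_le
  refine ⟨fun k => ⟨K * (2 * (3 + (K' 0 + K' 1 + K' 2))), ?_⟩, fun x => ?_, fun k t => ?_⟩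
  · refine LipschitzWith.of_dist_le_mul fun x y => ?_
    refine le_trans ?_ ((sub2_lip hK hF hLF hT).dist_le_mul x y)
    rw [Real.dist_eq, dist_eq_norm]
    have hc : ∀ a : E3, |a k| ≤ ‖a‖ := by
      intro a
      refine abs_le_of_sq_le_sq ?_ (norm_nonneg _)
      rw [EuclideanSpace.real_norm_sq_eq]
      exact Finset.single_le_sum (f := fun i => a i ^ 2) (fun i _ => sq_nonneg _) (Finset.mem_univ k)
    exact hc (gG κ (vv (n := 0) T x, vv (n := 0) F x) - gG κ (vv (n := 0) T y, vv (n := 0) F y))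
  · have h := hG.unit (vv (n := 0) T x) (vv (n := 0) F x) (norm_vv hF x)
    have h1 := EuclideanSpace.real_norm_sq_eq (gG κ (vv (n := 0) T x, vv (n := 0) F x))
    rw [h, one_pow] at h1
    exact h1.symm
  · have e1 : vv (n := 0) T (γ (t + Real.pi)) = -vv (n := 0) T (γ t) := by
      ext k
      rw [PiLp.neg_apply]
      fin_cases k
      · exact hT.odd 0 t
      · exact hT.odd 1 t
      · exact hT.odd 2 t
    have e2 : vv (n := 0) F (γ (t + Real.pi)) = -vv (n := 0) F (γ t) := by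
      ext k
      rw [PiLp.neg_apply]
      fin_cases k
      · exact hF.odd 0 t
      · exact hF.odd 1 t
      · exact hF.odd 2 t
    unfold pv sub2
    rw [e1, e2, hG.odd _ _ (norm_vv hF _), PiLp.neg_apply]

/-- the norm of the sum of the squares and the two parts -/
theorem InW.parts {E : ℝ} {l : ℝ} {u x y : E3} (h : InW (l * 2) E x y) (hu : ‖u‖ = 1) :
    ‖qm u x y‖ ≤ l ∧ ‖qp u x y‖ ≤ l := by
  have e1 : (2 : ℝ) * ‖qm u x y‖ = ‖prj u x - crs u y‖ := by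
    unfold qm
    rw [norm_smul]
    norm_num
    ring
  have e2 : (2 : ℝ) * ‖qp u x y‖ = ‖prj u x + crs u y‖ := by
    unfold qp
    rw [norm_smul]
    norm_num
    ring
  have h1 := h.m u hu
  have h2 := h.p u hu
  constructor <;> linarith

/-- **THE CLASS OF THE MAP AFTER THE V STAGE** -/
theorem pv_KY (C : Calc M γ) {κ : ℝ → ℝ} (hκ : Kap κ) {F : Fin 3 → M → ℝ} {E c₀ : ℝ}
    (hF : KY C 2 E F (fun _ => c₀)) {P : Fam γ} (hP : Pre γ P.Th) (hT : ∀ x, ‖vv (n := 0) P.Th x‖ ≤ 2)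
    {A B : ℝ} (hA : 0 ≤ A) (hc : VCl κ A B) {c₁ : ℝ} (hc0 : 0 ≤ c₁)
    (hAB : A + B * Real.exp c₀ ≤ Real.exp c₁) : KY C 2 2 (pv κ F P.Th) (fun _ => c₁) := by
  have hS : Sph γ (pv κ F P.Th) := pv_sph hκ hF.sph hP
  refine ⟨hS, lip_const c₁, fun _ => rfl, fun _ => hc0, ?_⟩
  have hTl : ∀ k, Lip (P.Th k) := fun k => ⟨3, hP.lip k⟩
  filter_upwards [pv_ae C hκ hF.sph hTl, ae_goodPt C P, hF.inW, ae_perp C hS, ae_perp C hF.sph]
    with o hrel hgood hFW hper hperF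
  set v : E3 := at' C (pv κ F P.Th) o with hv
  set f : E3 := at' C F o with hf
  have nv : ‖v‖ = 1 := norm_at hS o
  have nf : ‖f‖ = 1 := norm_at hF.sph o
  obtain ⟨-, hR1, hg0, hTeq, hkap⟩ := pv_rel hκ hF.sph P.Th (C.pt o)
  set R : ℝ := pR κ F P.Th (C.pt o) with hR
  set g : ℝ := pg κ F P.Th (C.pt o) with hg
  have hTeq' : at' C P.Th o = R • v - g • f := hTeq
  have hη : at' C P.Th o - v = (R - 1) • v - g • f := by
    rw [hTeq']
    module
  set h : ℝ := ‖(R - 1) • v - g • f‖ with hh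
  have hh0 : 0 ≤ h := norm_nonneg _
  have hK : (R - 1) + g = κ (h ^ 2) := by
    have e : vv (n := 0) P.Th (C.pt o) - vv (n := 0) (pv κ F P.Th) (C.pt o) = (R - 1) • v - g • f := hη
    rw [e] at hkap
    exact hkap
  have hhK : h < κ (h ^ 2) := hκ.gt h hh0
  have hr0 : 0 < R - 1 := by linarith
  obtain ⟨hz, hd, h2, h3, h3n, hnT⟩ := vcl_vars (m := 2 * deriv κ (h ^ 2)) nv nf hr0 hg0 hh0 rfl hK hhK
  have hst : h ^ 2 + 1 + 2 * (κ (h ^ 2) * ((R - 1) - g) + h ^ 2) / (κ (h ^ 2) + ((R - 1) - g)) ≤ 4 := by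
    rw [← hnT]
    have e : (1 + (R - 1)) • v - g • f = vv (n := 0) P.Th (C.pt o) := by
      rw [add_sub_cancel]
      exact hTeq'.symm
    rw [e]
    have k1 := hT (C.pt o)
    have k2 := norm_nonneg (vv (n := 0) P.Th (C.pt o))
    nlinarith
  have ca2 := hc.a2 h ((R - 1) - g) hh0 hd hst
  have cpos := hc.pos h ((R - 1) - g) hh0 hd hst
  have cS := hc.S h ((R - 1) - g) hh0 hd hst
  have cG := hc.G h ((R - 1) - g) hh0 hd hst
  set a2 : ℝ := va2 (κ (h ^ 2)) (2 * deriv κ (h ^ 2)) h ((R - 1) - g) with ha2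
  set q3 : ℝ := va3 (κ (h ^ 2)) (2 * deriv κ (h ^ 2)) h ((R - 1) - g) with hq3
  have er : 1 + (κ (h ^ 2) + ((R - 1) - g)) / 2 = 1 + (R - 1) := by
    rw [← hK]
    ring
  have eg : (κ (h ^ 2) - ((R - 1) - g)) / 2 = g := by
    rw [← hK]
    ring
  rw [er] at cpos cS cG
  rw [eg] at cG
  have hm0 : 0 ≤ 2 * deriv κ (h ^ 2) := by
    have := hκ.mono (h ^ 2) (by positivity)
    linarith
  have hzz : (0 : ℝ) ≤ 1 - inner ℝ v f := one_sub_inner_nonneg nv nf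
  have ha20 : 0 ≤ a2 := by
    have : 0 ≤ 2 * deriv κ (h ^ 2) * g * (1 - inner ℝ v f) := by positivity
    linarith
  have hsq : √q3 ^ 2 = q3 := Real.sq_sqrt h3n
  have hΘ := Th_InW hgood
  have hΘs : ‖dx C P.Th o‖ ^ 2 + ‖dy C P.Th o‖ ^ 2 ≤ 2 := by
    have := hΘ.s
    linarith
  have hFp := InW.parts hFW nf
  obtain ⟨⟨rx, ry⟩, kx, ky⟩ := hrel
  have key := vcl_state nv nf hz hper.1 hper.2 hperF.1 hperF.2 (R - 1) g (C.gx (pR κ F P.Th) o)
    (C.gy (pR κ F P.Th) o) (C.gx (pg κ F P.Th) o) (C.gy (pg κ F P.Th) o) (m := 2 * deriv κ (h ^ 2))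
    (a2 := a2) (a3 := √q3) (A := A) (B := B) (E₀ := Real.exp c₀)
    (X := dx C P.Th o) (Y := dy C P.Th o)
    (by rw [rx, add_sub_cancel]) (by rw [ry, add_sub_cancel])
    (by
      rw [kx, hη, ← hh]
      ring)
    (by
      rw [ky, hη, ← hh]
      ring)
    h2 ha20 ca2 (Real.sqrt_nonneg _) (by rw [hsq]; exact h3) hr0.le hg0.le hA (Real.exp_pos _).le cpos
    (by rw [hsq]; exact cS) cG hΘs hFp.1 hFp.2
  obtain ⟨k1, k2⟩ := key
  have k1' := k1.trans hAB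
  have k2' := k2.trans hAB
  refine InW.of_perp nv hper.1 hper.2 ?_ ?_ ?_
  · have e : dx C (pv κ F P.Th) o - crs v (dy C (pv κ F P.Th) o) =
        (2 : ℝ) • qm v (dx C (pv κ F P.Th) o) (dy C (pv κ F P.Th) o) := by
      unfold qm
      rw [prj_of_perp hper.1]
      module
    rw [e, norm_smul, Real.norm_of_nonneg (by norm_num)]
    linarith
  · have e : dx C (pv κ F P.Th) o + crs v (dy C (pv κ F P.Th) o) =
        (2 : ℝ) • qp v (dx C (pv κ F P.Th) o) (dy C (pv κ F P.Th) o) := by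
      unfold qp
      rw [prj_of_perp hper.1]
      module
    rw [e, norm_smul, Real.norm_of_nonneg (by norm_num)]
    linarith
  · rw [norm_pm nv hper.1 hper.2]
    have q1 := pow_le_pow_left₀ (norm_nonneg _) k1' 2
    have q2 := pow_le_pow_left₀ (norm_nonneg _) k2' 2
    linarith

end Pool.Agent.FPX
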