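import Mathlib
import Pool.Agent.FPX.KVJ
import Pool.Agent.FPX.GVK

/-
VSA (helper30): the V stage. The pointwise inequality for maps `v = G(Θ, F)` with a global pin `κ`, from an
inequality for two real numbers (`h = |η|`, `d = r - g`), `η = Θ - v = r v - g F`.
-/

noncomputable section

namespace Pool.Agent.FPX.VST

open Pool.Agent.EWD Pool.Agent.FPX

/-- the state polynomial: `K = κ(h²)`, `m = 2 κ'(h²)`, `h = |η|`, `d = r - g`, `E` the coefficient of `ν_F` -/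
def vG (al kap E K m h d : ℝ) : ℝ :=
  (K ^ 2 - h ^ 2) * E * ((1 - al) * (K + d) ^ 4
      + 4 * (K + d) ^ 2 * (2 * (K + d) - m * (h ^ 2 - d ^ 2))
      - (kap - 1) * (2 * (K + d) - m * (h ^ 2 - d ^ 2)) ^ 2
      - (4 + (1 - al) * (kap - 1)) * (m ^ 2 * (h ^ 2 - d ^ 2) ^ 2 / (1 - al)))
    - (4 + (1 - al) * (kap - 1)) * (4 * (h ^ 2 - d ^ 2) * E
      * ((K + d) - m * (K * d + h ^ 2)) ^ 2 / (3 - 2 * al)
      + (K ^ 2 - h ^ 2) * (K - d) ^ 2 * (K + d) ^ 2)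

/-- admissible states: `|d| ≤ h`, `|Θ| ≤ 2` -/
structure VSt (κ : ℝ → ℝ) (h d : ℝ) : Prop where
  h0 : 0 ≤ h
  hd : d ^ 2 ≤ h ^ 2
  pos : 0 < κ (h ^ 2) + d
  pos' : 0 < κ (h ^ 2) - d
  th : 0 ≤ (3 - h ^ 2) * (κ (h ^ 2) + d) - 2 * (κ (h ^ 2) * d + h ^ 2)

/-- the state inequality -/
structure VOk (κ : ℝ → ℝ) (al kap lam q : ℝ) : Prop where
  al0 : 0 < al
  al1 : al < 1
  kap0 : 0 < kap
  lam0 : 0 ≤ lam
  q0 : 0 < q
  ok : ∀ h d, VSt κ h d →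
    0 ≤ vG al kap (kap * q + al * lam * h ^ 2) (κ (h ^ 2)) (2 * deriv κ (h ^ 2)) h d

section
variable {κ : ℝ → ℝ} {v F : E3}

/-- scalar relations of a state -/
theorem state_rel (hv : ‖v‖ = 1) (hF : ‖F‖ = 1) (r g : ℝ) :
    ‖r • v - g • F‖ ^ 2 = r ^ 2 + g ^ 2 - 2 * r * g * inner ℝ v F ∧
      ‖(r + 1) • v - g • F‖ ^ 2 = ‖r • v - g • F‖ ^ 2 + 1 + 2 * (r - g * inner ℝ v F) := by
  have e : ∀ s : ℝ, ‖s • v - g • F‖ ^ 2 = s ^ 2 + g ^ 2 - 2 * s * g * inner ℝ v F := fun s => by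
    rw [norm_sub_sq_real, norm_smul, norm_smul, hv, hF, real_inner_smul_left, real_inner_smul_right,
      mul_one, mul_one, Real.norm_eq_abs, Real.norm_eq_abs, sq_abs, sq_abs]
    ring
  refine ⟨e r, ?_⟩
  rw [e, e]
  ring

/-- the state of a point -/
theorem vst_of (hκ : Kap κ) (hv : ‖v‖ = 1) (hF : ‖F‖ = 1) {R g : ℝ} (hR : 1 < R) (hg : 0 < g)
    (hRg : R - 1 + g = κ (‖(R - 1) • v - g • F‖ ^ 2)) (hT : ‖R • v - g • F‖ ≤ 2) :
    VSt κ ‖(R - 1) • v - g • F‖ (R - 1 - g) ∧ 0 < 1 + (inner ℝ v F : ℝ) := by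
  have hr : 0 < R - 1 := by linarith
  obtain ⟨e1, e2⟩ := state_rel hv hF (R - 1) g
  rw [sub_add_cancel] at e2
  set n := ‖(R - 1) • v - g • F‖ with hn
  set z : ℝ := inner ℝ v F with hz
  have hn0 : 0 ≤ n := norm_nonneg _
  have hK := hκ.gt n hn0
  rw [← hRg] at hK
  have hT2 : ‖R • v - g • F‖ ^ 2 ≤ 4 := by
    have := pow_le_pow_left₀ (norm_nonneg _) hT 2
    linarith
  have hz1 : 0 ≤ 1 - z := one_sub_inner_nonneg hv hF
  have hrg : 0 < (R - 1) * g := mul_pos hr hg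
  refine ⟨⟨hn0, ?_, ?_, ?_, ?_⟩, ?_⟩
  · rw [e1]
    nlinarith
  · rw [← hRg]
    linarith
  · rw [← hRg]
    linarith
  · rw [← hRg]
    have h3 : (R - 1 + g) * (R - 1 - g) + n ^ 2 = (2 * (R - 1)) * (R - 1 - g * z) := by
      rw [e1]
      ring
    rw [h3]
    have h4 : 0 ≤ 3 - n ^ 2 - 2 * (R - 1 - g * z) := by linarith
    have h5 := mul_nonneg h4 (by linarith : 0 ≤ 2 * (R - 1))
    nlinarith
  · have h1 : n ^ 2 < (R - 1 + g) ^ 2 := pow_lt_pow_left₀ hK hn0 two_ne_zero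
    have h2 : 0 < 2 * ((R - 1) * g) * (1 + z) := by
      rw [e1] at h1
      nlinarith
    by_contra hc
    have := mul_nonpos_of_nonneg_of_nonpos (by positivity : 0 ≤ 2 * ((R - 1) * g)) (not_lt.1 hc)
    linarith

/-- the identity for the state polynomial -/
theorem vG_eq {al kap E m r g z a2 a3 h K : ℝ} (hE : E ≠ 0) (hal : 1 - al ≠ 0) (hal3 : 3 - 2 * al ≠ 0)
    (hK : K = r + g) (hh : h ^ 2 = r ^ 2 + g ^ 2 - 2 * r * g * z) (ha2 : 2 * a2 = m * g * (1 - z))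
    (ha3 : (1 + z) * a3 ^ 2 = (1 - z) * (1 - m * (r - g * z)) ^ 2) :
    vG al kap E K m h (r - g) = 16 * r ^ 2 * (2 * r * g * (1 + z)) * E *
      ((1 - al) * r ^ 2 + 4 * (1 - a2) * r + (1 - a2) ^ 2 * (1 - kap)
        - (a2 ^ 2 / (1 - al) + a3 ^ 2 / (3 - 2 * al) + g ^ 2 / E) * (4 + (1 - al) * (kap - 1))) := by
  have e1 : K ^ 2 - h ^ 2 = 2 * r * g * (1 + z) := by
    rw [hK, hh]
    ring
  have e2 : h ^ 2 - (r - g) ^ 2 = 2 * r * g * (1 - z) := by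
    rw [hh]
    ring
  have e3 : K + (r - g) = 2 * r := by
    rw [hK]
    ring
  have e4 : K - (r - g) = 2 * g := by
    rw [hK]
    ring
  have e5 : K * (r - g) + h ^ 2 = 2 * r * (r - g * z) := by
    rw [hK, hh]
    ring
  have e6 : m * (2 * r * g * (1 - z)) = 4 * r * a2 := by linear_combination (-2 * r) * ha2
  have e7 : m ^ 2 * (2 * r * g * (1 - z)) ^ 2 = 16 * r ^ 2 * a2 ^ 2 := by
    rw [← mul_pow, e6]
    ring
  have e8 : 4 * (2 * r * g * (1 - z)) * E * (2 * r - m * (2 * r * (r - g * z))) ^ 2 =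
      16 * r ^ 2 * (2 * r * g * (1 + z)) * E * a3 ^ 2 := by
    linear_combination (-(32 * r ^ 3 * g * E)) * ha3
  unfold vG
  rw [e1, e2, e3, e4, e5, e6, e7, e8]
  field_simp
  ring

/-- **THE POINTWISE INEQUALITY** of the V stage -/
theorem VOk.point {al kap lam q : ℝ} (hok : VOk κ al kap lam q) (hκ : Kap κ) (hv : ‖v‖ = 1)
    (hF : ‖F‖ = 1) {a b fa fb : E3}
    (ha : inner ℝ v a = (0 : ℝ)) (hb : inner ℝ v b = (0 : ℝ)) (hfa : inner ℝ F fa = (0 : ℝ))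
    (hfb : inner ℝ F fb = (0 : ℝ)) {R g rx ry gx gy : ℝ} (hR : 1 < R) (hg : 0 < g)
    (hRg : R - 1 + g = κ (‖(R - 1) • v - g • F‖ ^ 2)) (hT : ‖R • v - g • F‖ ≤ 2)
    (hkx : rx + gx = deriv κ (‖(R - 1) • v - g • F‖ ^ 2) *
      (2 * inner ℝ ((R - 1) • v - g • F) (rx • v + (R - 1) • a - (gx • F + g • fa))))
    (hky : ry + gy = deriv κ (‖(R - 1) • v - g • F‖ ^ 2) *
      (2 * inner ℝ ((R - 1) • v - g • F) (ry • v + (R - 1) • b - (gy • F + g • fb)))) :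
    al * (‖rx • v + (R - 1) • a - (gx • F + g • fa)‖ ^ 2
        + ‖ry • v + (R - 1) • b - (gy • F + g • fb)‖ ^ 2)
      + kap * (2 * ‖qm v a b‖ ^ 2)
      - (kap * q + al * lam * ‖(R - 1) • v - g • F‖ ^ 2) * (2 * ‖qm F fa fb‖ ^ 2) ≤
      Qd v a b (rx • v + R • a - (gx • F + g • fa)) (ry • v + R • b - (gy • F + g • fb)) := by
  obtain ⟨hst, hz⟩ := vst_of hκ hv hF hR hg hRg hT
  have hr : 0 < R - 1 := by linarith
  have hz1 : (0 : ℝ) ≤ 1 - inner ℝ v F := one_sub_inner_nonneg hv hF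
  have e1 := (state_rel hv hF (R - 1) g).1
  have hG := hok.ok _ _ hst
  set n := ‖(R - 1) • v - g • F‖ with hn
  set z : ℝ := inner ℝ v F with hzd
  set m : ℝ := 2 * deriv κ (n ^ 2) with hm
  set E : ℝ := kap * q + al * lam * n ^ 2 with hE
  have hal := hok.al0
  have hal1 := hok.al1
  have hkap := hok.kap0
  have hlam := hok.lam0
  have hq := hok.q0
  have hE0 : 0 < E := by positivity
  have h1al : 0 < 1 - al := by linarith
  have h3al : 0 < 3 - 2 * al := by linarith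
  have h0 : 0 ≤ (1 - z) / (1 + z) := div_nonneg hz1 hz.le
  set a2 : ℝ := m * g * (1 - z) / 2 with ha2d
  set a3 : ℝ := √((1 - z) / (1 + z)) * |1 - m * (R - 1 - g * z)| with ha3d
  have ha2 : 2 * a2 = m * g * (1 - z) := by
    rw [ha2d]
    ring
  have ha3' : (1 + z) * a3 ^ 2 = (1 - z) * (1 - m * (R - 1 - g * z)) ^ 2 := by
    rw [ha3d, mul_pow, Real.sq_sqrt h0, sq_abs]
    field_simp
  have hG2 := vG_eq (al := al) (kap := kap) (E := E) (m := m) (r := R - 1) (g := g) (z := z) (a2 := a2)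
    (a3 := a3) (h := n) (K := κ (n ^ 2)) hE0.ne' h1al.ne' h3al.ne' (by linarith) e1 ha2 ha3'
  rw [hG2] at hG
  have hpos : 0 < 16 * (R - 1) ^ 2 * (2 * (R - 1) * g * (1 + z)) * E := by positivity
  have hD := nonneg_of_mul_nonneg_right hG hpos
  have hgE : 0 < g ^ 2 / E := by positivity
  have hs2 : 0 ≤ a2 ^ 2 / (1 - al) := by positivity
  have hs3 : 0 ≤ a3 ^ 2 / (3 - 2 * al) := by positivity
  refine KV_grad hv hF hz ha hb hfa hfb R g rx ry gx gy (m := m) (a2 := a2) (a3 := a3)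
    (al := al) (kap := kap) (E := E) (S2 := a2 ^ 2 / (1 - al)) (S3 := a3 ^ 2 / (3 - 2 * al))
    (SF := g ^ 2 / E) ?_ ?_ ha2 (by positivity) ha3' hal1.le hE0.le hs2 hs3 hgE.le (by positivity)
    ?_ ?_ ?_ ?_ ?_
  · rw [hkx, hm]
    ring
  · rw [hky, hm]
    ring
  · rw [mul_div_cancel₀ _ h1al.ne']
  · rw [mul_div_cancel₀ _ h3al.ne']
  · rw [mul_div_cancel₀ _ hE0.ne']
  · have h5 : 0 < a2 ^ 2 / (1 - al) + a3 ^ 2 / (3 - 2 * al) + g ^ 2 / E := by positivity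
    have := mul_pos h5 h1al
    positivity
  · linarith

end

end Pool.Agent.FPX.VST
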