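import Mathlib
import Pool.Agent.FPX.VSA

/-
VLA (helper30): the V stage for a convex law. The pointwise inequality for one line `sg ν_v - t` of the law,
with a share `θ` of the charges `D (ν_F - s)₊` and the multiplier `λ = kap (t - D θ s) / 2` for
`2 ‖qm Θ‖² + ⟨v, dΘ⟩² ≤ |dΘ|² ≤ 2`.
-/

noncomputable section

namespace Pool.Agent.FPX.VST

open Pool.Agent.EWD Pool.Agent.FPX

/-- the final quadratic form in `Z` and `n`, general coefficients -/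
theorem form_nonneg2 {A B C r a1 S X : ℝ} (hS : 0 < S)
    (hSA : S * (B ^ 2 - A * C) ≤ A * r ^ 2 + 2 * B * a1 * r + C * a1 ^ 2) {Z n : E3}
    (h : ‖a1 • Z - r • n‖ ^ 2 ≤ S * X) (ha : 0 < S * A + a1 ^ 2) :
    0 ≤ A * ‖Z‖ ^ 2 + 2 * B * inner ℝ Z n + C * ‖n‖ ^ 2 + X := by
  have e1 : ‖a1 • Z - r • n‖ ^ 2 = a1 ^ 2 * ‖Z‖ ^ 2 - 2 * a1 * r * inner ℝ Z n + r ^ 2 * ‖n‖ ^ 2 := by
    rw [norm_sub_sq_real, norm_smul, norm_smul, mul_pow, mul_pow, inner_smul_left, inner_smul_right,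
      Real.norm_eq_abs, Real.norm_eq_abs, sq_abs, sq_abs]
    simp only [conj_trivial]
    ring
  rw [e1] at h
  have e2 : ‖(S * A + a1 ^ 2) • Z + (B * S - a1 * r) • n‖ ^ 2 =
      (S * A + a1 ^ 2) ^ 2 * ‖Z‖ ^ 2 + 2 * (S * A + a1 ^ 2) * (B * S - a1 * r) * inner ℝ Z n
        + (B * S - a1 * r) ^ 2 * ‖n‖ ^ 2 := by
    rw [norm_add_sq_real, norm_smul, norm_smul, mul_pow, mul_pow, inner_smul_left, inner_smul_right,
      Real.norm_eq_abs, Real.norm_eq_abs, sq_abs, sq_abs]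
    simp only [conj_trivial]
    ring
  have h1 : 0 ≤ S * (S * A + a1 ^ 2) * (A * ‖Z‖ ^ 2 + 2 * B * inner ℝ Z n + C * ‖n‖ ^ 2 + X) := by
    have h2 : S * (S * A + a1 ^ 2) * (A * ‖Z‖ ^ 2 + 2 * B * inner ℝ Z n + C * ‖n‖ ^ 2 + X) =
        ‖(S * A + a1 ^ 2) • Z + (B * S - a1 * r) • n‖ ^ 2
          + (S * A + a1 ^ 2) * (S * X - (a1 ^ 2 * ‖Z‖ ^ 2 - 2 * a1 * r * inner ℝ Z n + r ^ 2 * ‖n‖ ^ 2))
          + S * (A * r ^ 2 + 2 * B * a1 * r + C * a1 ^ 2 - S * (B ^ 2 - A * C)) * ‖n‖ ^ 2 := by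
      rw [e2]
      ring
    rw [h2]
    have h3 : 0 ≤ (S * A + a1 ^ 2) * (S * X - (a1 ^ 2 * ‖Z‖ ^ 2 - 2 * a1 * r * inner ℝ Z n
        + r ^ 2 * ‖n‖ ^ 2)) := mul_nonneg ha.le (by linarith)
    have h4 : 0 ≤ S * (A * r ^ 2 + 2 * B * a1 * r + C * a1 ^ 2 - S * (B ^ 2 - A * C))
        * ‖n‖ ^ 2 := mul_nonneg (mul_nonneg hS.le (by linarith)) (sq_nonneg _)
    have h5 : 0 ≤ ‖(S * A + a1 ^ 2) • Z + (B * S - a1 * r) • n‖ ^ 2 := by positivity
    linarith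
  exact nonneg_of_mul_nonneg_right h1 (mul_pos hS ha)

section
variable {v F : E3}

/-- **the form for a line**: `la = λ` is the multiplier of `2 ‖qm Θ‖² + ⟨v, dΘ⟩² ≤ 2` -/
theorem KL_grad (hv : ‖v‖ = 1) (hF : ‖F‖ = 1) (hz : 0 < 1 + (inner ℝ v F : ℝ)) {a b fa fb : E3}
    (ha : inner ℝ v a = (0 : ℝ)) (hb : inner ℝ v b = (0 : ℝ)) (hfa : inner ℝ F fa = (0 : ℝ))
    (hfb : inner ℝ F fb = (0 : ℝ)) (R g rx ry gx gy : ℝ) {m a2 a3 : ℝ}
    (hkx : rx + gx = m * inner ℝ ((R - 1) • v - g • F) (rx • v + (R - 1) • a - (gx • F + g • fa)))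
    (hky : ry + gy = m * inner ℝ ((R - 1) • v - g • F) (ry • v + (R - 1) • b - (gy • F + g • fb)))
    (ha2 : 2 * a2 = m * g * (1 - inner ℝ v F)) (ha3 : 0 ≤ a3)
    (ha3' : (1 + inner ℝ v F) * a3 ^ 2 =
      (1 - inner ℝ v F) * (1 - m * (R - 1 - g * inner ℝ v F)) ^ 2) {al ks E la S2 S3 SF : ℝ}
    (hal : al ≤ 1) (hE : 0 ≤ E) (hS2 : 0 ≤ S2) (hS3 : 0 ≤ S3) (hSF : 0 ≤ SF)
    (hS : 0 < S2 + S3 + SF) (k2 : a2 ^ 2 ≤ (1 - al) * S2) (k3 : a3 ^ 2 ≤ (3 - 2 * al + 2 * la) * S3)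
    (kF : g ^ 2 ≤ E * SF) (hla : 0 ≤ la)
    (hpos : 0 < (S2 + S3 + SF) * (1 - al + la) + (1 - a2) ^ 2)
    (hD : (S2 + S3 + SF) * ((2 + la) ^ 2 - (1 - al + la) * (1 - ks + la)) ≤
      (1 - al + la) * (R - 1) ^ 2 + 2 * (2 + la) * (1 - a2) * (R - 1) + (1 - ks + la) * (1 - a2) ^ 2)
    (hq : ‖rx • v + R • a - (gx • F + g • fa)‖ ^ 2 + ‖ry • v + R • b - (gy • F + g • fb)‖ ^ 2 ≤ 2) :
    al * (‖rx • v + (R - 1) • a - (gx • F + g • fa)‖ ^ 2
        + ‖ry • v + (R - 1) • b - (gy • F + g • fb)‖ ^ 2)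
      + ks * (2 * ‖qm v a b‖ ^ 2) - E * (2 * ‖qm F fa fb‖ ^ 2) - 2 * la ≤
      Qd v a b (rx • v + R • a - (gx • F + g • fa)) (ry • v + R • b - (gy • F + g • fb)) := by
  set s : E3 := gx • F + g • fa with hs
  set t : E3 := gy • F + g • fb with ht
  set r : ℝ := R - 1 with hr
  set n : E3 := qm v a b with hn
  set P : E3 := r • qp v a b - qp v s t with hP
  set Z : E3 := r • n - qm v s t with hZ
  set Wx : ℝ := rx - inner ℝ v s with hWx
  set Wy : ℝ := ry - inner ℝ v t with hWy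
  set f : ℝ := ‖qm F fa fb‖ with hf
  -- the gradient of `η`
  have px : inner ℝ v (r • a - prj v s) = (0 : ℝ) := by
    rw [inner_sub_right, inner_smul_right, ha, prj_perp hv]
    ring
  have py : inner ℝ v (r • b - prj v t) = (0 : ℝ) := by
    rw [inner_sub_right, inner_smul_right, hb, prj_perp hv]
    ring
  have ex : ‖rx • v + r • a - s‖ ^ 2 = ‖r • a - prj v s‖ ^ 2 + Wx ^ 2 := by
    rw [norm_prj_sq hv (rx • v + r • a - s)]
    have e1 : prj v (rx • v + r • a - s) = r • a - prj v s := by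
      rw [prj_sub, prj_add, prj_smul, prj_smul, prj_self hv, smul_zero, zero_add, prj_of_perp ha]
    have e2 : inner ℝ v (rx • v + r • a - s) = Wx := by
      rw [hWx, inner_sub_right, inner_add_right, inner_smul_right, inner_smul_right,
        inner_self_one hv, ha]
      ring
    rw [e1, e2]
  have ey : ‖ry • v + r • b - t‖ ^ 2 = ‖r • b - prj v t‖ ^ 2 + Wy ^ 2 := by
    rw [norm_prj_sq hv (ry • v + r • b - t)]
    have e1 : prj v (ry • v + r • b - t) = r • b - prj v t := by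
      rw [prj_sub, prj_add, prj_smul, prj_smul, prj_self hv, smul_zero, zero_add, prj_of_perp hb]
    have e2 : inner ℝ v (ry • v + r • b - t) = Wy := by
      rw [hWy, inner_sub_right, inner_add_right, inner_smul_right, inner_smul_right,
        inner_self_one hv, hb]
      ring
    rw [e1, e2]
  have epm : ‖r • a - prj v s‖ ^ 2 + ‖r • b - prj v t‖ ^ 2 = 2 * ‖P‖ ^ 2 + 2 * ‖Z‖ ^ 2 := by
    rw [norm_pm hv px py]
    have e1 : qp v (r • a - prj v s) (r • b - prj v t) = P := by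
      rw [hP]
      unfold qp
      rw [prj_of_perp px, crs_sub, crs_smul, crs_prj, prj_of_perp ha]
      module
    have e2 : qm v (r • a - prj v s) (r • b - prj v t) = Z := by
      rw [hZ, hn]
      unfold qm
      rw [prj_of_perp px, crs_sub, crs_smul, crs_prj, prj_of_perp ha]
      module
    rw [e1, e2]
  -- `qm Θ = Z + n`
  have eq1 : qm v (rx • v + R • a - s) (ry • v + R • b - t) = Z + n := by
    have e1 : prj v (rx • v + R • a - s) = R • a - prj v s := by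
      rw [prj_sub, prj_add, prj_smul, prj_smul, prj_self hv, smul_zero, zero_add, prj_of_perp ha]
    have e2 : crs v (ry • v + R • b - t) = R • crs v b - crs v t := by
      rw [crs_sub, crs_add, crs_smul, crs_smul, crs_self, smul_zero, zero_add]
    rw [hZ, hn]
    unfold qm
    rw [e1, e2, prj_of_perp ha, hr]
    module
  have hq2 : 2 * ‖Z + n‖ ^ 2 + (Wx ^ 2 + Wy ^ 2) ≤ 2 := by
    have f1 := norm_prj_sq hv (rx • v + R • a - s)
    have f2 := norm_prj_sq hv (ry • v + R • b - t)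
    have f3 := norm_pm hv (prj_perp hv (rx • v + R • a - s)) (prj_perp hv (ry • v + R • b - t))
    have f4 : qm v (prj v (rx • v + R • a - s)) (prj v (ry • v + R • b - t)) = Z + n := by
      rw [← eq1]
      unfold qm
      rw [crs_prj, prj_of_perp (prj_perp hv _)]
    have f5 : inner ℝ v (rx • v + R • a - s) = Wx := by
      rw [hWx, inner_sub_right, inner_add_right, inner_smul_right, inner_smul_right,
        inner_self_one hv, ha]
      ring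
    have f6 : inner ℝ v (ry • v + R • b - t) = Wy := by
      rw [hWy, inner_sub_right, inner_add_right, inner_smul_right, inner_smul_right,
        inner_self_one hv, hb]
      ring
    rw [f4] at f3
    rw [f5] at f1
    rw [f6] at f2
    have f7 := sq_nonneg ‖qp v (prj v (rx • v + R • a - s)) (prj v (ry • v + R • b - t))‖
    linarith
  have hq3 : ‖Z + n‖ ^ 2 = ‖Z‖ ^ 2 + 2 * inner ℝ Z n + ‖n‖ ^ 2 := norm_add_sq_real _ _
  -- the value of the form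
  have eM : (R + 1) • n - qm v s t = Z + (2 : ℝ) • n := by
    rw [hZ, hr]
    module
  have eN : ‖Z + (2 : ℝ) • n‖ ^ 2 = ‖Z‖ ^ 2 + 4 * inner ℝ Z n + 4 * ‖n‖ ^ 2 := by
    rw [norm_add_sq_real, norm_smul, mul_pow, inner_smul_right]
    norm_num
    ring
  rw [Qd_eq hv ha hb, ← hr, ← hn, ← hP, ← hWx, ← hWy, eM, eN, ex, ey]
  -- the identity
  have hnm := KV_norm2 hv hF hz ha hb hfa hfb r g rx ry gx gy hs ht hP hZ hWx hWy hkx hky ha2 ha3 ha3'
  rw [← hn, ← hf] at hnm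
  have hw0 : 0 ≤ Wx ^ 2 + Wy ^ 2 := by positivity
  set w : ℝ := √(Wx ^ 2 + Wy ^ 2) with hw
  have hw2 : w ^ 2 = Wx ^ 2 + Wy ^ 2 := Real.sq_sqrt hw0
  have hal3 : 0 < 3 - 2 * al := by linarith
  have hcs := cs_three hS2 hS3 hSF (x := |a2| * ‖P‖) (y := 1 / 2 * a3 * w) (z := |g| * f)
    (X := (1 - al) * ‖P‖ ^ 2) (Y := (3 - 2 * al + 2 * la) / 4 * w ^ 2) (Z := E * f ^ 2)
    (mul_nonneg (by linarith) (sq_nonneg _)) (by positivity) (by positivity) ?_ ?_ ?_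
  · have hsq := pow_le_pow_left₀ (norm_nonneg _) hnm 2
    have hfin := form_nonneg2 (A := 1 - al + la) (B := 2 + la) (C := 1 - ks + la) (r := r)
      (a1 := 1 - a2) hS (by linarith) (hsq.trans hcs) hpos
    rw [hw2] at hfin
    have e9 : al * (‖r • a - prj v s‖ ^ 2 + Wx ^ 2 + (‖r • b - prj v t‖ ^ 2 + Wy ^ 2)) =
        al * (2 * ‖P‖ ^ 2 + 2 * ‖Z‖ ^ 2 + Wx ^ 2 + Wy ^ 2) := by
      linear_combination al * epm
    rw [e9]
    have e10 : 2 * ‖P‖ ^ 2 + 2 * (‖Z‖ ^ 2 + 4 * inner ℝ Z n + 4 * ‖n‖ ^ 2) - 6 * ‖n‖ ^ 2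
        + 3 / 2 * (Wx ^ 2 + Wy ^ 2) - (al * (2 * ‖P‖ ^ 2 + 2 * ‖Z‖ ^ 2 + Wx ^ 2 + Wy ^ 2)
          + ks * (2 * ‖n‖ ^ 2) - E * (2 * f ^ 2) - 2 * la) =
        2 * ((1 - al + la) * ‖Z‖ ^ 2 + 2 * (2 + la) * inner ℝ Z n + (1 - ks + la) * ‖n‖ ^ 2 +
      ((1 - al) * ‖P‖ ^ 2 + (3 - 2 * al + 2 * la) / 4 * (Wx ^ 2 + Wy ^ 2) + E * f ^ 2))
        + la * (2 - (2 * (‖Z‖ ^ 2 + 2 * inner ℝ Z n + ‖n‖ ^ 2) + (Wx ^ 2 + Wy ^ 2))) := by ring
    have e11 : 0 ≤ la * (2 - (2 * (‖Z‖ ^ 2 + 2 * inner ℝ Z n + ‖n‖ ^ 2) + (Wx ^ 2 + Wy ^ 2))) :=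
      mul_nonneg hla (by linarith)
    linarith
  · rw [mul_pow, sq_abs]
    calc a2 ^ 2 * ‖P‖ ^ 2 ≤ ((1 - al) * S2) * ‖P‖ ^ 2 :=
          mul_le_mul_of_nonneg_right k2 (sq_nonneg _)
      _ = S2 * ((1 - al) * ‖P‖ ^ 2) := by ring
  · calc (1 / 2 * a3 * w) ^ 2 = a3 ^ 2 * (w ^ 2 / 4) := by ring
      _ ≤ ((3 - 2 * al + 2 * la) * S3) * (w ^ 2 / 4) := mul_le_mul_of_nonneg_right k3 (by positivity)
      _ = S3 * ((3 - 2 * al + 2 * la) / 4 * w ^ 2) := by ring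
  · rw [mul_pow, sq_abs]
    calc g ^ 2 * f ^ 2 ≤ (E * SF) * f ^ 2 := mul_le_mul_of_nonneg_right kF (sq_nonneg _)
      _ = SF * (E * f ^ 2) := by ring

/-- the state polynomial of a line: `A B C` the coefficients of the form in `Z, n`, `G / 4` the one of `W²` -/
def vL (al G E A B C K m h d : ℝ) : ℝ :=
  (K ^ 2 - h ^ 2) * E * (A * (K + d) ^ 4
      + 2 * B * (K + d) ^ 2 * (2 * (K + d) - m * (h ^ 2 - d ^ 2))
      + C * (2 * (K + d) - m * (h ^ 2 - d ^ 2)) ^ 2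
      - (B ^ 2 - A * C) * (m ^ 2 * (h ^ 2 - d ^ 2) ^ 2 / (1 - al)))
    - (B ^ 2 - A * C) * (4 * (h ^ 2 - d ^ 2) * E
      * ((K + d) - m * (K * d + h ^ 2)) ^ 2 / G
      + (K ^ 2 - h ^ 2) * (K - d) ^ 2 * (K + d) ^ 2)

theorem vL_eq {al G E A B C m r g z a2 a3 h K : ℝ} (hE : E ≠ 0) (hal : 1 - al ≠ 0) (hal3 : G ≠ 0)
    (hK : K = r + g) (hh : h ^ 2 = r ^ 2 + g ^ 2 - 2 * r * g * z) (ha2 : 2 * a2 = m * g * (1 - z))
    (ha3 : (1 + z) * a3 ^ 2 = (1 - z) * (1 - m * (r - g * z)) ^ 2) :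
    vL al G E A B C K m h (r - g) = 16 * r ^ 2 * (2 * r * g * (1 + z)) * E *
      (A * r ^ 2 + 2 * B * (1 - a2) * r + C * (1 - a2) ^ 2
        - (a2 ^ 2 / (1 - al) + a3 ^ 2 / G + g ^ 2 / E) * (B ^ 2 - A * C)) := by
  have e1 : K ^ 2 - h ^ 2 = 2 * r * g * (1 + z) := by
    rw [hK, hh]
    ring
  have e2 : h ^ 2 - (r - g) ^ 2 = 2 * r * g * (1 - z) := by
    rw [hh]
    ring
  have e3 : K + (r - g) = 2 * r := by
    rw [hK]
    ring
  have e4 : K - (r - g) = 2 * g := by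
    rw [hK]
    ring
  have e5 : K * (r - g) + h ^ 2 = 2 * r * (r - g * z) := by
    rw [hK, hh]
    ring
  have e6 : m * (2 * r * g * (1 - z)) = 4 * r * a2 := by linear_combination (-2 * r) * ha2
  have e7 : m ^ 2 * (2 * r * g * (1 - z)) ^ 2 = 16 * r ^ 2 * a2 ^ 2 := by
    rw [← mul_pow, e6]
    ring
  have e8 : 4 * (2 * r * g * (1 - z)) * E * (2 * r - m * (2 * r * (r - g * z))) ^ 2 =
      16 * r ^ 2 * (2 * r * g * (1 + z)) * E * a3 ^ 2 := by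
    linear_combination (-(32 * r ^ 3 * g * E)) * ha3
  unfold vL
  rw [e1, e2, e3, e4, e5, e6, e7, e8]
  generalize B ^ 2 - A * C = Δ
  field_simp
  ring

/-- the state inequality of the line `sg ν - t`, with the share `th` of the charges `D (ν - s)₊` -/
structure VLOk (κ : ℝ → ℝ) (al kap lam q D s sg t th : ℝ) : Prop where
  al0 : 0 < al
  al1 : al < 1
  kap0 : 0 < kap
  lam0 : 0 ≤ lam
  q0 : 0 < q
  D0 : 0 ≤ D
  th0 : 0 ≤ th
  th1 : th ≤ 1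
  la0 : 0 ≤ t - D * th * s
  ok : ∀ h d, VSt κ h d →
    0 ≤ vL al (3 - 2 * al + kap * (t - D * th * s)) (kap * (q + D * th) + al * lam * h ^ 2)
      (1 - al + kap * (t - D * th * s) / 2)
      (2 + kap * (t - D * th * s) / 2) (1 - kap * sg + kap * (t - D * th * s) / 2)
      (κ (h ^ 2)) (2 * deriv κ (h ^ 2)) h d

/-- **THE POINTWISE INEQUALITY** for a line -/
theorem VLOk.point {κ : ℝ → ℝ} {al kap lam q D s sg t th : ℝ} (hok : VLOk κ al kap lam q D s sg t th)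
    (hκ : Kap κ) (hv : ‖v‖ = 1)
    (hF : ‖F‖ = 1) {a b fa fb : E3}
    (ha : inner ℝ v a = (0 : ℝ)) (hb : inner ℝ v b = (0 : ℝ)) (hfa : inner ℝ F fa = (0 : ℝ))
    (hfb : inner ℝ F fb = (0 : ℝ)) {R g rx ry gx gy : ℝ} (hR : 1 < R) (hg : 0 < g)
    (hRg : R - 1 + g = κ (‖(R - 1) • v - g • F‖ ^ 2)) (hT : ‖R • v - g • F‖ ≤ 2)
    (hkx : rx + gx = deriv κ (‖(R - 1) • v - g • F‖ ^ 2) *
      (2 * inner ℝ ((R - 1) • v - g • F) (rx • v + (R - 1) • a - (gx • F + g • fa))))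
    (hky : ry + gy = deriv κ (‖(R - 1) • v - g • F‖ ^ 2) *
      (2 * inner ℝ ((R - 1) • v - g • F) (ry • v + (R - 1) • b - (gy • F + g • fb))))
    (hqm : ‖rx • v + R • a - (gx • F + g • fa)‖ ^ 2 + ‖ry • v + R • b - (gy • F + g • fb)‖ ^ 2 ≤ 2) :
    al * (‖rx • v + (R - 1) • a - (gx • F + g • fa)‖ ^ 2
        + ‖ry • v + (R - 1) • b - (gy • F + g • fb)‖ ^ 2)
      + kap * (sg * (2 * ‖qm v a b‖ ^ 2) - t)
      - (kap * q + al * lam * ‖(R - 1) • v - g • F‖ ^ 2) * (2 * ‖qm F fa fb‖ ^ 2)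
      - kap * D * max (2 * ‖qm F fa fb‖ ^ 2 - s) 0 ≤
      Qd v a b (rx • v + R • a - (gx • F + g • fa)) (ry • v + R • b - (gy • F + g • fb)) := by
  obtain ⟨hst, hz⟩ := vst_of hκ hv hF hR hg hRg hT
  have hr : 0 < R - 1 := by linarith
  have hz1 : (0 : ℝ) ≤ 1 - inner ℝ v F := one_sub_inner_nonneg hv hF
  have e1 := (state_rel hv hF (R - 1) g).1
  have hG := hok.ok _ _ hst
  have hal := hok.al0
  have hal1 := hok.al1
  have hkap := hok.kap0
  have hlam := hok.lam0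
  have hq := hok.q0
  have hD0 := hok.D0
  have hth := hok.th0
  have hla : 0 ≤ kap * (t - D * th * s) / 2 := by
    have := mul_nonneg hkap.le hok.la0
    linarith
  have hla2 : kap * (t - D * th * s) = 2 * (kap * (t - D * th * s) / 2) := by ring
  rw [hla2] at hG
  have ecancel : 2 * (kap * (t - D * th * s) / 2) / 2 = kap * (t - D * th * s) / 2 := by ring
  rw [ecancel] at hG
  set la : ℝ := kap * (t - D * th * s) / 2 with hlad
  set n := ‖(R - 1) • v - g • F‖ with hn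
  set z : ℝ := inner ℝ v F with hzd
  set m : ℝ := 2 * deriv κ (n ^ 2) with hm
  set E : ℝ := kap * (q + D * th) + al * lam * n ^ 2 with hE
  have hE0 : 0 < E := by positivity
  have h1al : 0 < 1 - al := by linarith
  have h3al : 0 < 3 - 2 * al + 2 * la := by linarith
  have h0 : 0 ≤ (1 - z) / (1 + z) := div_nonneg hz1 hz.le
  set a2 : ℝ := m * g * (1 - z) / 2 with ha2d
  set a3 : ℝ := √((1 - z) / (1 + z)) * |1 - m * (R - 1 - g * z)| with ha3d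
  have ha2 : 2 * a2 = m * g * (1 - z) := by
    rw [ha2d]
    ring
  have ha3' : (1 + z) * a3 ^ 2 = (1 - z) * (1 - m * (R - 1 - g * z)) ^ 2 := by
    rw [ha3d, mul_pow, Real.sq_sqrt h0, sq_abs]
    field_simp
  have hG2 := vL_eq (al := al) (G := 3 - 2 * al + 2 * la) (E := E) (A := 1 - al + la) (B := 2 + la) (C := 1 - kap * sg + la)
    (m := m) (r := R - 1) (g := g) (z := z) (a2 := a2)
    (a3 := a3) (h := n) (K := κ (n ^ 2)) hE0.ne' h1al.ne' h3al.ne' (by linarith) e1 ha2 ha3'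
  rw [hG2] at hG
  have hpos : 0 < 16 * (R - 1) ^ 2 * (2 * (R - 1) * g * (1 + z)) * E := by positivity
  have hD := nonneg_of_mul_nonneg_right hG hpos
  have hgE : 0 < g ^ 2 / E := by positivity
  have hs2 : 0 ≤ a2 ^ 2 / (1 - al) := by positivity
  have hs3 : 0 ≤ a3 ^ 2 / (3 - 2 * al + 2 * la) := by positivity
  have key := KL_grad hv hF hz ha hb hfa hfb R g rx ry gx gy (m := m) (a2 := a2) (a3 := a3)
    (al := al) (ks := kap * sg) (E := E) (la := la) (S2 := a2 ^ 2 / (1 - al))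
    (S3 := a3 ^ 2 / (3 - 2 * al + 2 * la)) (SF := g ^ 2 / E) (by rw [hkx, hm]; ring) (by rw [hky, hm]; ring)
    ha2 (by positivity) ha3' hal1.le hE0.le hs2 hs3 hgE.le (by positivity)
    (by rw [mul_div_cancel₀ _ h1al.ne']) (by rw [mul_div_cancel₀ _ h3al.ne'])
    (by rw [mul_div_cancel₀ _ hE0.ne']) hla
    (by
      have h5 : 0 < a2 ^ 2 / (1 - al) + a3 ^ 2 / (3 - 2 * al + 2 * la) + g ^ 2 / E := by positivity
      have := mul_pos h5 (by linarith : 0 < 1 - al + la)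
      positivity)
    (by linarith) hqm
  have hmx : th * (2 * ‖qm F fa fb‖ ^ 2 - s) ≤ max (2 * ‖qm F fa fb‖ ^ 2 - s) 0 := by
    rcases le_total 0 (2 * ‖qm F fa fb‖ ^ 2 - s) with h | h
    · exact (mul_le_of_le_one_left h hok.th1).trans (le_max_left _ _)
    · exact (mul_nonpos_of_nonneg_of_nonpos hth h).trans (le_max_right _ _)
  have hmx2 := mul_le_mul_of_nonneg_left hmx (mul_nonneg hkap.le hD0)
  have e5 : E * (2 * ‖qm F fa fb‖ ^ 2) + 2 * la = (kap * q + al * lam * n ^ 2) * (2 * ‖qm F fa fb‖ ^ 2)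
      + kap * D * (th * (2 * ‖qm F fa fb‖ ^ 2 - s)) + kap * t := by
    rw [hE, hlad]
    ring
  linarith

end

end Pool.Agent.FPX.VST
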