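import Mathlib
import Pool.Agent.FPX.VSA
import Pool.Agent.FPX.GVS
import Pool.Agent.FPX.DGH
import Pool.Agent.FPX.EMN
import Pool.Agent.FPX.S7Defs

/-
VSB (helper30): the V stage, integrated. `v = G(Θ, F)` for the fixed point `Θ` of the global pin `κ`; if the weight
`ν_F` satisfies the Hardy inequality with the constant `lam` for odd functions, then `∫ ν_v ≤ q ∫ ν_F + ...`.
-/

open MeasureTheory Set Filter Topology
open scoped ENNReal NNReal

noncomputable section

namespace Pool.Agent.FPX.VST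

open Pool.Agent.EWD Pool.Agent.FPX

variable {M : Type} [MetricSpace M] {γ : ℝ → M}

/-- the pointwise inequality on the surface -/
theorem vst_ae [CompactSpace M] (C : Calc M γ) {κ : ℝ → ℝ} (hκ : Kap κ) {al kap lam q : ℝ}
    (hok : VOk κ al kap lam q) {F T : Fin 3 → M → ℝ} (hF : Sph γ F) (hT : Pre γ T)
    (hv : Sph γ (pv κ F T)) (hT2 : ∀ x, ‖vv (n := 0) T x‖ ≤ 2) : ∀ᵐ o ∂C.μ,
    al * (‖dx C T o - dx C (pv κ F T) o‖ ^ 2 + ‖dy C T o - dy C (pv κ F T) o‖ ^ 2)
      + kap * nuC C (pv κ F T) o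
      - (kap * q + al * lam * ‖at' C T o - at' C (pv κ F T) o‖ ^ 2) * nuC C F o ≤
      QQ C (pv κ F T) T o := by
  have hTl : ∀ k, Lip (T k) := fun k => ⟨3, hT.lip k⟩
  filter_upwards [pv_ae C hκ hF hTl, ae_perp C hv, ae_perp C hF] with o h1 h2 h3
  obtain ⟨⟨h4, h5⟩, h6, h7⟩ := h1
  obtain ⟨r1, r2, r3, r4, r5⟩ := pv_rel hκ hF T (C.pt o)
  set v := pv κ F T with hvd
  set R := pR κ F T (C.pt o) with hR
  set g := pg κ F T (C.pt o) with hg
  have a1 : vv (n := 0) T (C.pt o) = at' C T o := rfl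
  have a2 : vv (n := 0) v (C.pt o) = at' C v o := rfl
  have a3 : vv (n := 0) F (C.pt o) = at' C F o := rfl
  rw [a1, a2] at r5
  rw [a1, a2, a3] at r4
  rw [a2] at r1
  have r6 : ‖at' C F o‖ = 1 := norm_at hF o
  have e1 : (R - 1) • at' C v o - g • at' C F o = at' C T o - at' C v o := by
    rw [r4]
    module
  have e2 : C.gx (pR κ F T) o • at' C v o + (R - 1) • dx C v o
      - (C.gx (pg κ F T) o • at' C F o + g • dx C F o) = dx C T o - dx C v o := by
    rw [h4]
    module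
  have e3 : C.gy (pR κ F T) o • at' C v o + (R - 1) • dy C v o
      - (C.gy (pg κ F T) o • at' C F o + g • dy C F o) = dy C T o - dy C v o := by
    rw [h5]
    module
  have e4 : C.gx (pR κ F T) o • at' C v o + R • dx C v o
      - (C.gx (pg κ F T) o • at' C F o + g • dx C F o) = dx C T o := by
    rw [h4]
    module
  have e5 : C.gy (pR κ F T) o • at' C v o + R • dy C v o
      - (C.gy (pg κ F T) o • at' C F o + g • dy C F o) = dy C T o := by
    rw [h5]
    module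
  have key := hok.point hκ r1 r6 h2.1 h2.2 h3.1 h3.2 (R := R) (g := g)
    (rx := C.gx (pR κ F T) o) (ry := C.gy (pR κ F T) o) (gx := C.gx (pg κ F T) o)
    (gy := C.gy (pg κ F T) o) r2 r3 (by rw [e1]; exact r5) (by rw [← r4]; exact hT2 _)
    (by rw [e1, e2]; exact h6) (by rw [e1, e3]; exact h7)
  rw [e1, e2, e3, e4, e5] at key
  exact key

/-- the gradient of a difference -/
theorem ae_eta (C : Calc M γ) {T v : Fin 3 → M → ℝ} (hT : ∀ k, Lip (T k)) (hv : ∀ k, Lip (v k)) :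
    ∀ᵐ o ∂C.μ, ‖dx C T o - dx C v o‖ ^ 2 + ‖dy C T o - dy C v o‖ ^ 2 =
      ∑ k, gn C (fun x => T k x - v k x) o ^ 2 := by
  have h : ∀ᵐ o ∂C.μ, ∀ k, C.gx (fun x => T k x - v k x) o = C.gx (T k) o - C.gx (v k) o ∧
      C.gy (fun x => T k x - v k x) o = C.gy (T k) o - C.gy (v k) o :=
    ae_all_iff.mpr fun k => C.ae_sub (hT k) (hv k)
  filter_upwards [h] with o ho
  have e : ∀ k, gn C (fun x => T k x - v k x) o ^ 2 =
      (C.gx (T k) o - C.gx (v k) o) ^ 2 + (C.gy (T k) o - C.gy (v k) o) ^ 2 := fun k => by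
    unfold gn
    rw [Real.sq_sqrt (by positivity), (ho k).1, (ho k).2]
  rw [Fin.sum_univ_three, e, e, e, normsq3, normsq3]
  have d : ∀ (u : Fin 3 → M → ℝ) (k : Fin 3), dx C u o k = C.gx (u k) o ∧ dy C u o k = C.gy (u k) o := by
    intro u k
    fin_cases k <;> exact ⟨rfl, rfl⟩
  simp only [PiLp.sub_apply, (d T 0).1, (d T 1).1, (d T 2).1, (d T 0).2, (d T 1).2, (d T 2).2,
    (d v 0).1, (d v 1).1, (d v 2).1, (d v 0).2, (d v 1).2, (d v 2).2]
  ring

theorem eta_norm (C : Calc M γ) (T v : Fin 3 → M → ℝ) (o : Om) :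
    ‖at' C T o - at' C v o‖ ^ 2 = ∑ k, (T k (C.pt o) - v k (C.pt o)) ^ 2 := by
  rw [Fin.sum_univ_three, normsq3]
  have d : ∀ (u : Fin 3 → M → ℝ) (k : Fin 3), at' C u o k = u k (C.pt o) := by
    intro u k
    fin_cases k <;> rfl
  simp only [PiLp.sub_apply, d]

section
variable [CompactSpace M]

theorem gn_sq_int (C : Calc M γ) {g : M → ℝ} (hg : Lip g) : Integrable (fun o => gn C g o ^ 2) C.μ := by
  have h := integrable_cont C (n := 1) (u := fun _ => g) (fun _ => hg)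
    (Φ := fun f => (f 0).2.1 ^ 2 + (f 0).2.2 ^ 2) (by fun_prop)
  refine h.congr (ae_of_all _ fun o => ?_)
  have e : gn C g o ^ 2 = C.gx g o ^ 2 + C.gy g o ^ 2 := by
    unfold gn
    rw [Real.sq_sqrt (by positivity)]
  exact e.symm

theorem nu_sq_int (C : Calc M γ) {F : Fin 3 → M → ℝ} (hF : Sph γ F) {g : M → ℝ} (hg : Lip g) :
    Integrable (fun o => nuC C F o * g (C.pt o) ^ 2) C.μ := by
  have h1 : Integrable (fun o => nuC C F o) C.μ := nuC_cint C hF.lip continuous_id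
  obtain ⟨L, hL⟩ := hg
  obtain ⟨B, hB⟩ := isCompact_univ.exists_bound_of_continuousOn (hL.continuous.continuousOn)
  refine (h1.bdd_mul (c := B ^ 2) ((C.meas_pt ⟨L, hL⟩).pow_const 2).aestronglyMeasurable
    (ae_of_all _ fun o => ?_)).congr (ae_of_all _ fun o => ?_)
  · have := hB (C.pt o) (mem_univ _)
    rw [norm_pow]
    exact pow_le_pow_left₀ (norm_nonneg _) this 2
  · exact mul_comm _ _

/-- **THE V STAGE** -/
theorem vst_step [Nonempty M] (C : Calc M γ) (hγ : Bd γ) (hR : RegAE C) {κ : ℝ → ℝ} (hκ : Kap κ)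
    {al kap lam q : ℝ} (hok : VOk κ al kap lam q)
    (hTh : ∀ (P : Fam γ) (x : M), ‖vv (n := 0) P.Th x‖ ≤ 2)
    {F : Fin 3 → M → ℝ} (hF : Sph γ F) (hJ : ∫ o, jac C F o ∂C.μ ≤ 2 * Real.pi) {δ : ℝ}
    (hH : ∀ g : M → ℝ, Lip g → OddB γ g → (∀ x, |g x| ≤ 8) →
      lam * ∫ o, nuC C F o * g (C.pt o) ^ 2 ∂C.μ ≤ ∫ o, gn C g o ^ 2 ∂C.μ + δ)
    {ε : ℝ} (hε : 0 < ε) :
    ∃ P : Fam γ, Pre γ P.Th ∧ Sph γ (pv κ F P.Th) ∧
      (∫ o, jac C (pv κ F P.Th) o ∂C.μ = ∫ o, jac C F o ∂C.μ) ∧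
      kap * (∫ o, nuC C (pv κ F P.Th) o ∂C.μ - q * ∫ o, nuC C F o ∂C.μ) ≤
        3 * (C.vol - 2 * Real.pi) + 12 / Real.pi * ε + 3 * al * δ := by
  obtain ⟨P, hP, hv, hfl⟩ := pv_fix C hγ hR hκ hF hε
  have hT2 : ∀ x, ‖vv (n := 0) P.Th x‖ ≤ 2 := hTh P
  have hTl : ∀ k, Lip (P.Th k) := fun k => ⟨3, hP.lip k⟩
  have hz : ∀ x, 0 < 1 + (inner ℝ (vv (n := 0) (pv κ F P.Th) x) (vv (n := 0) F x) : ℝ) := by
    intro x
    obtain ⟨r1, r2, r3, r4, r5⟩ := pv_rel hκ hF P.Th x
    have e1 : (pR κ F P.Th x - 1) • vv (n := 0) (pv κ F P.Th) x - pg κ F P.Th x • vv (n := 0) F x =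
        vv (n := 0) P.Th x - vv (n := 0) (pv κ F P.Th) x := by
      conv_rhs => rw [r4]
      module
    exact (vst_of hκ r1 (norm_vv hF x) r2 r3 (by rw [e1]; exact r5)
      (by rw [← r4]; exact hT2 x)).2
  have hjac := jac_eq_jac C hv hF hz
  refine ⟨P, hP, hv, hjac, ?_⟩
  set v := pv κ F P.Th with hvd
  have hal := hok.al0
  have hq := int_QQ_le C hv P hfl (by rw [hjac]; exact hJ)
  -- the functions `η_k`
  have hη : ∀ k, Lip (fun x => P.Th k x - v k x) := fun k => (hTl k).sub (hv.lip k)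
  have hodd : ∀ k, OddB γ (fun x => P.Th k x - v k x) := fun k s => by
    have h1 := hP.odd k s
    have h2 := hv.odd k s
    change P.Th k (γ (s + Real.pi)) - v k (γ (s + Real.pi)) = -(P.Th k (γ s) - v k (γ s))
    rw [h1, h2]
    ring
  have hbd : ∀ k x, |P.Th k x - v k x| ≤ 8 := fun k x => by
    have h1 := hP.bd k x
    have h2 : |v k x| ≤ 1 := by
      have h3 : ‖vv (n := 0) v x‖ = 1 := norm_vv hv x
      have h4 : |v k x| = ‖(vv (n := 0) v x) k‖ := by
        rw [Real.norm_eq_abs]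
        fin_cases k <;> rfl
      rw [h4, ← h3]
      exact PiLp.norm_apply_le _ k
    calc |P.Th k x - v k x| ≤ |P.Th k x| + |v k x| := abs_sub _ _
      _ ≤ 8 := by linarith
  have hk := fun k => hH _ (hη k) (hodd k) (hbd k)
  -- integration
  have i1 : ∀ k, Integrable (fun o => gn C (fun x => P.Th k x - v k x) o ^ 2) C.μ := fun k =>
    gn_sq_int C (hη k)
  have i2 : ∀ k, Integrable (fun o => nuC C F o * (P.Th k (C.pt o) - v k (C.pt o)) ^ 2) C.μ :=
    fun k => nu_sq_int C hF (hη k)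
  have i3 : Integrable (fun o => nuC C v o) C.μ := nuC_cint C hv.lip continuous_id
  have i4 : Integrable (fun o => nuC C F o) C.μ := nuC_cint C hF.lip continuous_id
  have hmain : ∫ o, (al * ∑ k, gn C (fun x => P.Th k x - v k x) o ^ 2 + kap * nuC C v o
      - kap * q * nuC C F o
      - al * lam * ∑ k, nuC C F o * (P.Th k (C.pt o) - v k (C.pt o)) ^ 2) ∂C.μ
      ≤ ∫ o, QQ C v P.Th o ∂C.μ := by
    refine integral_mono_ae ?_ (QQ_int C hv hTl) ?_
    · exact ((((integrable_finsetSum _ fun k _ => i1 k).const_mul al).add (i3.const_mul kap)).sub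
        (i4.const_mul (kap * q))).sub ((integrable_finsetSum _ fun k _ => i2 k).const_mul (al * lam))
    · filter_upwards [vst_ae C hκ hok hF hP hv hT2, ae_eta C hTl hv.lip] with o h1 h2
      rw [← hvd, h2, eta_norm] at h1
      have e : al * lam * ∑ k, nuC C F o * (P.Th k (C.pt o) - v k (C.pt o)) ^ 2 =
          al * lam * (∑ k, (P.Th k (C.pt o) - v k (C.pt o)) ^ 2) * nuC C F o := by
        rw [← Finset.mul_sum]
        ring
      rw [e]
      linarith
  rw [integral_sub, integral_sub, integral_add, integral_const_mul, integral_const_mul,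
    integral_const_mul, integral_const_mul, integral_finsetSum _ (fun k _ => i1 k),
    integral_finsetSum _ (fun k _ => i2 k), Fin.sum_univ_three, Fin.sum_univ_three] at hmain
  rotate_left
  · exact (integrable_finsetSum _ fun k _ => i1 k).const_mul al
  · exact i3.const_mul kap
  · exact ((integrable_finsetSum _ fun k _ => i1 k).const_mul al).add (i3.const_mul kap)
  · exact i4.const_mul (kap * q)
  · exact (((integrable_finsetSum _ fun k _ => i1 k).const_mul al).add (i3.const_mul kap)).sub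
      (i4.const_mul (kap * q))
  · exact (integrable_finsetSum _ fun k _ => i2 k).const_mul (al * lam)
  have k0 := mul_le_mul_of_nonneg_left (hk 0) hal.le
  have k1 := mul_le_mul_of_nonneg_left (hk 1) hal.le
  have k2 := mul_le_mul_of_nonneg_left (hk 2) hal.le
  linarith

end

end Pool.Agent.FPX.VST
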