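import Mathlib
import Pool.Agent.FPX.VLA
import Pool.Agent.FPX.VSB
import Pool.Agent.FPX.VCL

/-
VLB (helper30): the V stage with a law, integrated: `∫ φ(ν_v) ≤ q ∫ ν_F + D ∫ (ν_F - s)₊ + ...`, if `φ` is below the
supremum of the lines on the range of `ν_v`.
-/

open MeasureTheory Set Filter Topology
open scoped ENNReal NNReal

noncomputable section

namespace Pool.Agent.FPX.VST

open Pool.Agent.EWD Pool.Agent.FPX

variable {M : Type} [MetricSpace M] {γ : ℝ → M}

/-- the pointwise inequality on the surface for one line -/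
theorem vln_ae [CompactSpace M] (C : Calc M γ) {κ : ℝ → ℝ} (hκ : Kap κ) {al kap lam q D s sg t th : ℝ}
    (hok : VLOk κ al kap lam q D s sg t th) {F : Fin 3 → M → ℝ} {P : Fam γ} (hF : Sph γ F)
    (hT : Pre γ P.Th) (hv : Sph γ (pv κ F P.Th)) (hT2 : ∀ x, ‖vv (n := 0) P.Th x‖ ≤ 2) : ∀ᵐ o ∂C.μ,
    al * (‖dx C P.Th o - dx C (pv κ F P.Th) o‖ ^ 2 + ‖dy C P.Th o - dy C (pv κ F P.Th) o‖ ^ 2)
      + kap * (sg * nuC C (pv κ F P.Th) o - t)
      - (kap * q + al * lam * ‖at' C P.Th o - at' C (pv κ F P.Th) o‖ ^ 2) * nuC C F o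
      - kap * D * max (nuC C F o - s) 0 ≤
      QQ C (pv κ F P.Th) P.Th o := by
  have hTl : ∀ k, Lip (P.Th k) := fun k => ⟨3, hT.lip k⟩
  filter_upwards [pv_ae C hκ hF hTl, ae_goodPt C P, ae_perp C hv, ae_perp C hF] with o h1 hgood h2 h3
  obtain ⟨⟨h4, h5⟩, h6, h7⟩ := h1
  obtain ⟨r1, r2, r3, r4, r5⟩ := pv_rel hκ hF P.Th (C.pt o)
  have hΘ := Th_InW hgood
  have hΘs : ‖dx C P.Th o‖ ^ 2 + ‖dy C P.Th o‖ ^ 2 ≤ 2 := by
    have := hΘ.s
    linarith
  have r1' : ‖at' C (pv κ F P.Th) o‖ = 1 := r1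
  set T := P.Th with hTd
  set v := pv κ F T with hvd
  set R := pR κ F T (C.pt o) with hR
  set g := pg κ F T (C.pt o) with hg
  have a1 : vv (n := 0) T (C.pt o) = at' C T o := rfl
  have a2 : vv (n := 0) v (C.pt o) = at' C v o := rfl
  have a3 : vv (n := 0) F (C.pt o) = at' C F o := rfl
  rw [a1, a2] at r5
  rw [a1, a2, a3] at r4
  have r6 : ‖at' C F o‖ = 1 := norm_at hF o
  have e1 : (R - 1) • at' C v o - g • at' C F o = at' C T o - at' C v o := by
    rw [r4]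
    module
  have e2 : C.gx (pR κ F T) o • at' C v o + (R - 1) • dx C v o
      - (C.gx (pg κ F T) o • at' C F o + g • dx C F o) = dx C T o - dx C v o := by
    rw [h4]
    module
  have e3 : C.gy (pR κ F T) o • at' C v o + (R - 1) • dy C v o
      - (C.gy (pg κ F T) o • at' C F o + g • dy C F o) = dy C T o - dy C v o := by
    rw [h5]
    module
  have e4 : C.gx (pR κ F T) o • at' C v o + R • dx C v o
      - (C.gx (pg κ F T) o • at' C F o + g • dx C F o) = dx C T o := by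
    rw [h4]
    module
  have e5 : C.gy (pR κ F T) o • at' C v o + R • dy C v o
      - (C.gy (pg κ F T) o • at' C F o + g • dy C F o) = dy C T o := by
    rw [h5]
    module
  have key := hok.point hκ r1' r6 h2.1 h2.2 h3.1 h3.2 (R := R) (g := g)
    (rx := C.gx (pR κ F T) o) (ry := C.gy (pR κ F T) o) (gx := C.gx (pg κ F T) o)
    (gy := C.gy (pg κ F T) o) r2 r3 (by rw [e1]; exact r5) (by rw [← r4]; exact hT2 _)
    (by rw [e1, e2]; exact h6) (by rw [e1, e3]; exact h7) (by rw [e4, e5]; exact hΘs)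
  rw [e1, e2, e3, e4, e5] at key
  exact key

/-- **THE V STAGE WITH A LAW** -/
theorem vlw_step [CompactSpace M] [Nonempty M] (C : Calc M γ) (hγ : Bd γ) (hR : RegAE C) {κ : ℝ → ℝ}
    (hκ : Kap κ) {al kap lam q D s : ℝ} (hal : 0 < al) (L : List (ℝ × ℝ × ℝ))
    (hok : ∀ p ∈ L, VLOk κ al kap lam q D s p.1 p.2.1 p.2.2)
    (hkap : 0 < kap) {φ : ℝ → ℝ} (hφc : Continuous φ) {N : ℝ}
    (hφ : ∀ x, 0 ≤ x → x ≤ N → ∃ p ∈ L, φ x ≤ p.1 * x - p.2.1)
    (hTh : ∀ (P : Fam γ) (x : M), ‖vv (n := 0) P.Th x‖ ≤ 2)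
    {F : Fin 3 → M → ℝ} (hF : Sph γ F)
    (hN : ∀ P : Fam γ, Pre γ P.Th → ∀ᵐ o ∂C.μ, nuC C (pv κ F P.Th) o ≤ N)
    (hJ : ∫ o, jac C F o ∂C.μ ≤ 2 * Real.pi) {δ : ℝ}
    (hH : ∀ g : M → ℝ, Lip g → OddB γ g → (∀ x, |g x| ≤ 8) →
      lam * ∫ o, nuC C F o * g (C.pt o) ^ 2 ∂C.μ ≤ ∫ o, gn C g o ^ 2 ∂C.μ + δ)
    {ε : ℝ} (hε : 0 < ε) :
    ∃ P : Fam γ, Pre γ P.Th ∧ Sph γ (pv κ F P.Th) ∧
      (∫ o, jac C (pv κ F P.Th) o ∂C.μ = ∫ o, jac C F o ∂C.μ) ∧
      kap * (∫ o, φ (nuC C (pv κ F P.Th) o) ∂C.μ - q * ∫ o, nuC C F o ∂C.μ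
        - D * ∫ o, max (nuC C F o - s) 0 ∂C.μ) ≤
        3 * (C.vol - 2 * Real.pi) + 12 / Real.pi * ε + 3 * al * δ := by
  obtain ⟨P, hP, hv, hfl⟩ := pv_fix C hγ hR hκ hF hε
  have hT2 : ∀ x, ‖vv (n := 0) P.Th x‖ ≤ 2 := hTh P
  have hTl : ∀ k, Lip (P.Th k) := fun k => ⟨3, hP.lip k⟩
  have hz : ∀ x, 0 < 1 + (inner ℝ (vv (n := 0) (pv κ F P.Th) x) (vv (n := 0) F x) : ℝ) := by
    intro x
    obtain ⟨r1, r2, r3, r4, r5⟩ := pv_rel hκ hF P.Th x
    have e1 : (pR κ F P.Th x - 1) • vv (n := 0) (pv κ F P.Th) x - pg κ F P.Th x • vv (n := 0) F x =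
        vv (n := 0) P.Th x - vv (n := 0) (pv κ F P.Th) x := by
      conv_rhs => rw [r4]
      module
    exact (vst_of hκ r1 (norm_vv hF x) r2 r3 (by rw [e1]; exact r5)
      (by rw [← r4]; exact hT2 x)).2
  have hjac := jac_eq_jac C hv hF hz
  refine ⟨P, hP, hv, hjac, ?_⟩
  have hNv := hN P hP
  set v := pv κ F P.Th with hvd
  have hq := int_QQ_le C hv P hfl (by rw [hjac]; exact hJ)
  -- the functions `η_k`
  have hη : ∀ k, Lip (fun x => P.Th k x - v k x) := fun k => (hTl k).sub (hv.lip k)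
  have hodd : ∀ k, OddB γ (fun x => P.Th k x - v k x) := fun k s => by
    have h1 := hP.odd k s
    have h2 := hv.odd k s
    change P.Th k (γ (s + Real.pi)) - v k (γ (s + Real.pi)) = -(P.Th k (γ s) - v k (γ s))
    rw [h1, h2]
    ring
  have hbd : ∀ k x, |P.Th k x - v k x| ≤ 8 := fun k x => by
    have h1 := hP.bd k x
    have h2 : |v k x| ≤ 1 := by
      have h3 : ‖vv (n := 0) v x‖ = 1 := norm_vv hv x
      have h4 : |v k x| = ‖(vv (n := 0) v x) k‖ := by
        rw [Real.norm_eq_abs]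
        fin_cases k <;> rfl
      rw [h4, ← h3]
      exact PiLp.norm_apply_le _ k
    calc |P.Th k x - v k x| ≤ |P.Th k x| + |v k x| := abs_sub _ _
      _ ≤ 8 := by linarith
  have hk := fun k => hH _ (hη k) (hodd k) (hbd k)
  -- integration
  have i1 : ∀ k, Integrable (fun o => gn C (fun x => P.Th k x - v k x) o ^ 2) C.μ := fun k =>
    gn_sq_int C (hη k)
  have i2 : ∀ k, Integrable (fun o => nuC C F o * (P.Th k (C.pt o) - v k (C.pt o)) ^ 2) C.μ :=
    fun k => nu_sq_int C hF (hη k)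
  have i3 : Integrable (fun o => φ (nuC C v o)) C.μ := nuC_cint C hv.lip hφc
  have i4 : Integrable (fun o => nuC C F o) C.μ := nuC_cint C hF.lip continuous_id
  have i5 : Integrable (fun o => max (nuC C F o - s) 0) C.μ :=
    nuC_cint C hF.lip (φ := fun x => max (x - s) 0) (by fun_prop)
  have hpt : ∀ᵐ o ∂C.μ, ∀ p ∈ L,
      al * (‖dx C P.Th o - dx C v o‖ ^ 2 + ‖dy C P.Th o - dy C v o‖ ^ 2)
      + kap * (p.1 * nuC C v o - p.2.1)
      - (kap * q + al * lam * ‖at' C P.Th o - at' C v o‖ ^ 2) * nuC C F o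
      - kap * D * max (nuC C F o - s) 0 ≤ QQ C v P.Th o := by
    have h : ∀ p : {p // p ∈ L}, ∀ᵐ o ∂C.μ,
      al * (‖dx C P.Th o - dx C v o‖ ^ 2 + ‖dy C P.Th o - dy C v o‖ ^ 2)
      + kap * (p.1.1 * nuC C v o - p.1.2.1)
      - (kap * q + al * lam * ‖at' C P.Th o - at' C v o‖ ^ 2) * nuC C F o
      - kap * D * max (nuC C F o - s) 0 ≤ QQ C v P.Th o := fun p =>
      vln_ae C hκ (hok p.1 p.2) hF hP hv hT2
    have := ae_all_iff.mpr h
    filter_upwards [this] with o ho p hp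
    exact ho ⟨p, hp⟩
  have hmain : ∫ o, (al * ∑ k, gn C (fun x => P.Th k x - v k x) o ^ 2 + kap * φ (nuC C v o)
      - kap * q * nuC C F o
      - al * lam * ∑ k, nuC C F o * (P.Th k (C.pt o) - v k (C.pt o)) ^ 2
      - kap * D * max (nuC C F o - s) 0) ∂C.μ
      ≤ ∫ o, QQ C v P.Th o ∂C.μ := by
    refine integral_mono_ae ?_ (QQ_int C hv hTl) ?_
    · exact (((((integrable_finsetSum _ fun k _ => i1 k).const_mul al).add (i3.const_mul kap)).sub
        (i4.const_mul (kap * q))).sub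
          ((integrable_finsetSum _ fun k _ => i2 k).const_mul (al * lam))).sub (i5.const_mul (kap * D))
    · filter_upwards [hpt, ae_eta C hTl hv.lip, hNv] with o h1 h2 h3
      have h0 : 0 ≤ nuC C v o := nuv_nonneg _ _ _
      obtain ⟨p, hp, hle⟩ := hφ (nuC C v o) h0 h3
      have h1' := h1 p hp
      rw [h2, eta_norm] at h1'
      have e : al * lam * ∑ k, nuC C F o * (P.Th k (C.pt o) - v k (C.pt o)) ^ 2 =
          al * lam * (∑ k, (P.Th k (C.pt o) - v k (C.pt o)) ^ 2) * nuC C F o := by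
        rw [← Finset.mul_sum]
        ring
      have e2 := mul_le_mul_of_nonneg_left hle hkap.le
      rw [e]
      linarith
  rw [integral_sub, integral_sub, integral_sub, integral_add, integral_const_mul, integral_const_mul,
    integral_const_mul, integral_const_mul, integral_const_mul, integral_finsetSum _ (fun k _ => i1 k),
    integral_finsetSum _ (fun k _ => i2 k), Fin.sum_univ_three, Fin.sum_univ_three] at hmain
  rotate_left
  · exact (integrable_finsetSum _ fun k _ => i1 k).const_mul al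
  · exact i3.const_mul kap
  · exact ((integrable_finsetSum _ fun k _ => i1 k).const_mul al).add (i3.const_mul kap)
  · exact i4.const_mul (kap * q)
  · exact (((integrable_finsetSum _ fun k _ => i1 k).const_mul al).add (i3.const_mul kap)).sub
      (i4.const_mul (kap * q))
  · exact (integrable_finsetSum _ fun k _ => i2 k).const_mul (al * lam)
  · exact ((((integrable_finsetSum _ fun k _ => i1 k).const_mul al).add (i3.const_mul kap)).sub
      (i4.const_mul (kap * q))).sub ((integrable_finsetSum _ fun k _ => i2 k).const_mul (al * lam))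
  · exact i5.const_mul (kap * D)
  have k0 := mul_le_mul_of_nonneg_left (hk 0) hal.le
  have k1 := mul_le_mul_of_nonneg_left (hk 1) hal.le
  have k2 := mul_le_mul_of_nonneg_left (hk 2) hal.le
  linarith

end Pool.Agent.FPX.VST
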