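import Mathlib
import Pool.Agent.FPX.HWX
import Pool.Agent.FPX.FAC3

/-
VKN (helper86): the odd Hardy inequality for the density `ν` from charges: the envelope `min (N a) (c + s a) m` of
`∫_S ν` in the area `a` of `S`, from the two-row start map, and the inequality
`lam ∫ ν g² ≤ ∫ |∇g|² + δ` from a certificate `HwD` of the envelope.
-/

open MeasureTheory Set Filter Topology
open scoped ENNReal NNReal

noncomputable section

namespace Pool.Agent.FPX.VKN

open Pool.Agent.FPX Pool.Agent.EWD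

/-! ### the envelope -/

/-- the envelope of the charge of a set of area `a` -/
def nbar (N c s m a : ℝ) : ℝ := min (N * max a 0) (min (c + s * max a 0) m)

variable {N c s m : ℝ}

theorem nbar_pos (N c s m : ℝ) {a : ℝ} (ha : 0 ≤ a) : nbar N c s m a = min (N * a) (min (c + s * a) m) := by
  unfold nbar
  rw [max_eq_left ha]

theorem nbar_zero (hc : 0 ≤ c) (hm : 0 ≤ m) (a : ℝ) (ha : a ≤ 0) : nbar N c s m a = 0 := by
  unfold nbar
  rw [max_eq_right ha, mul_zero, mul_zero, add_zero]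
  exact min_eq_left (le_min hc hm)

theorem nbar_nonneg (hN : 0 ≤ N) (hc : 0 ≤ c) (hs : 0 ≤ s) (hm : 0 ≤ m) (a : ℝ) : 0 ≤ nbar N c s m a := by
  unfold nbar
  have h := le_max_right a 0
  exact le_min (mul_nonneg hN h) (le_min (add_nonneg hc (mul_nonneg hs h)) hm)

theorem nbar_mono (hN : 0 ≤ N) (hs : 0 ≤ s) : Monotone (nbar N c s m) := fun x y hxy => by
  have h : max x 0 ≤ max y 0 := max_le_max hxy le_rfl
  unfold nbar
  refine min_le_min (mul_le_mul_of_nonneg_left h hN) (min_le_min ?_ le_rfl)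
  have := mul_le_mul_of_nonneg_left h hs
  linarith

theorem nbar_lip (hN : 0 ≤ N) (hs : 0 ≤ s) (hsN : s ≤ N) (x y : ℝ) (hxy : x ≤ y) :
    nbar N c s m y ≤ nbar N c s m x + N * (y - x) := by
  have h1 : max y 0 ≤ max x 0 + (y - x) := by
    rcases le_total y 0 with h | h
    · rw [max_eq_right h]
      have := le_max_right x 0
      linarith
    · rw [max_eq_left h]
      have := le_max_left x 0
      linarith
  have h2 : N * max y 0 ≤ N * max x 0 + N * (y - x) := by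
    have := mul_le_mul_of_nonneg_left h1 hN
    linarith
  have h3 : s * max y 0 ≤ s * max x 0 + N * (y - x) := by
    have k1 := mul_le_mul_of_nonneg_left h1 hs
    have k2 := mul_le_mul_of_nonneg_right hsN (sub_nonneg.2 hxy)
    linarith
  have h4 : 0 ≤ N * (y - x) := mul_nonneg hN (sub_nonneg.2 hxy)
  unfold nbar
  rcases min_choice (N * max x 0) (min (c + s * max x 0) m) with h | h
  · rw [h]
    exact (min_le_left _ _).trans h2
  · rw [h]
    rcases min_choice (c + s * max x 0) m with h' | h'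
    · rw [h']
      refine ((min_le_right _ _).trans (min_le_left _ _)).trans ?_
      linarith
    · rw [h']
      refine ((min_le_right _ _).trans (min_le_right _ _)).trans ?_
      linarith

/-- monotone in the data -/
theorem nbar_le {N' c' s' m' : ℝ} (h1 : N ≤ N') (h2 : c ≤ c') (h3 : s ≤ s') (h4 : m ≤ m') (a : ℝ) :
    nbar N c s m a ≤ nbar N' c' s' m' a := by
  have h := le_max_right a 0
  unfold nbar
  refine min_le_min (mul_le_mul_of_nonneg_right h1 h) (min_le_min ?_ h4)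
  have := mul_le_mul_of_nonneg_right h3 h
  linarith

/-! ### the charge of the start map -/

variable {M : Type} [MetricSpace M] {γ : ℝ → M}

section charge

set_option linter.unusedSectionVars false

variable [CompactSpace M]

/-- **the charge of `ν` from the two-row inequality**: `x ≤ ∫ ν ≤ m`, `ν ≤ N` -/
theorem charge (C : Calc M γ) {F : Fin 3 → M → ℝ} (hF : ∀ k, Lip (F k))
    (hN : ∀ᵐ o ∂C.μ, nuC C F o ≤ N) (hm : ∫ o, nuC C F o ∂C.μ ≤ m) {r τ X x : ℝ} (hr : 0 < r)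
    (hx : x ≤ ∫ o, nuC C F o ∂C.μ)
    (hS : ∀ S : Set Om, NullMeasurableSet S C.μ →
      ∫ o, nuC C F o ∂C.μ + r * ∫ o in S, nuC C F o ∂C.μ ≤ X + τ * C.μ.real S)
    (hc : X - x ≤ r * c) (hs : τ ≤ r * s) (S : Set Om) (mS : NullMeasurableSet S C.μ) :
    ∫ o in S, nuC C F o ∂C.μ ≤ nbar N c s m (C.μ.real S) := by
  have := C.fin
  have i1 : Integrable (fun o => nuC C F o) C.μ := nuC_cint C hF continuous_id
  have a0 : 0 ≤ C.μ.real S := measureReal_nonneg
  rw [nbar_pos _ _ _ _ a0]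
  refine le_min ?_ (le_min ?_ ?_)
  · have h3 : ∫ o in S, nuC C F o ∂C.μ ≤ ∫ _ in S, N ∂C.μ :=
      integral_mono_ae i1.integrableOn (integrable_const N).integrableOn (ae_restrict_of_ae hN)
    rw [setIntegral_const, smul_eq_mul] at h3
    linarith
  · have h := hS S mS
    have h1 : r * ∫ o in S, nuC C F o ∂C.μ ≤ r * (c + s * C.μ.real S) := by
      have := mul_le_mul_of_nonneg_right hs a0
      linarith
    exact le_of_mul_le_mul_left h1 hr
  · exact (setIntegral_le_integral i1 (Eventually.of_forall fun o => nuv_nonneg _ _ _)).trans hm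

/-- the bound of `ν` in the class -/
theorem nu_le (C : Calc M γ) {F : Fin 3 → M → ℝ} {Ee c₀ : ℝ} (h : KY C 2 Ee F (fun _ => c₀))
    (hN : 2 * Real.exp c₀ ^ 2 ≤ N) : ∀ᵐ o ∂C.μ, nuC C F o ≤ N := by
  filter_upwards [h.inW] with o ho
  exact (nu_le_of_InW h.sph ho).trans hN

end charge

/-! ### the Hardy inequality -/

/-- a smaller constant in the isoperimetric inequality -/
theorem levO_mono {C : Calc M γ} {κ κ' ε : ℝ} (h : FPM.IsopO C κ ε) (h0 : 0 ≤ κ') (hκ : κ' ≤ κ) :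
    LevO C (fun a => κ' * a) ε := by
  intro g hg ho
  filter_upwards [h g hg ho] with t ht h0'
  obtain ⟨h1, h2⟩ := ht h0'
  refine ⟨h1, ?_⟩
  rcases le_total ((C.μ {o | t < |g (C.pt o)|}).toReal - ε) 0 with h3 | h3
  · have : κ' * ((C.μ {o | t < |g (C.pt o)|}).toReal - ε) ≤ 0 := mul_nonpos_of_nonneg_of_nonpos h0 h3
    exact this.trans (sq_nonneg _)
  · exact (mul_le_mul_of_nonneg_right hκ h3).trans h2

/-- **Hardy for `ν`** from a certificate for the envelope -/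
theorem hardy [CompactSpace M] (C : Calc M γ) {κ κ₀ V B b f lam ε δ : ℝ}
    (D : HwD (fun a => κ₀ * a) V B (fun a => lam * nbar N c s m a) b f) (h0 : 0 ≤ κ₀) (hκ : κ₀ ≤ κ) (hε : 0 ≤ ε)
    (hI : FPM.IsopO C κ ε) (hV : C.vol ≤ V) (hB : 128 * B * ε ≤ δ) (hlam : 0 ≤ lam) {F : Fin 3 → M → ℝ}
    (hF : ∀ k, Lip (F k))
    (hq : ∀ S, NullMeasurableSet S C.μ → ∫ o in S, nuC C F o ∂C.μ ≤ nbar N c s m (C.μ.real S)) (g : M → ℝ)
    (hg : Lip g) (ho : FPM.OddB γ g) (g8 : ∀ x, |g x| ≤ 8) :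
    lam * ∫ o, nuC C F o * g (C.pt o) ^ 2 ∂C.μ ≤ ∫ o, gn C g o ^ 2 ∂C.μ + δ := by
  have i1 : Integrable (fun o => nuC C F o) C.μ := nuC_cint C hF continuous_id
  have key := hwd_le C D hε (levO_mono hI h0 hκ) hV (R := 8) (by norm_num) (δ := δ) (by linarith)
    (w := fun o => lam / 4 * nuC C F o) (i1.const_mul _) (fun S mS => ?_) hg ho g8
  · refine le_trans (le_of_eq ?_) key
    have e : ∫ o, lam / 4 * nuC C F o * g (C.pt o) ^ 2 ∂C.μ = lam / 4 * ∫ o, nuC C F o * g (C.pt o) ^ 2 ∂C.μ := by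
      rw [← integral_const_mul]
      refine integral_congr_ae (Eventually.of_forall fun o => ?_)
      show lam / 4 * nuC C F o * g (C.pt o) ^ 2 = lam / 4 * (nuC C F o * g (C.pt o) ^ 2)
      ring
    rw [e]
    ring
  · rw [integral_const_mul]
    have h1 := mul_le_mul_of_nonneg_left (hq S mS) hlam
    show 4 * (lam / 4 * ∫ o in S, nuC C F o ∂C.μ) ≤ lam * nbar N c s m (C.μ.real S)
    linarith

/-- **Hardy for `ν` of a map of the class with charges**: `x ≤ ∫ ν ≤ m`, the two-row inequality for all sets -/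
theorem hardy_of_charges [CompactSpace M] (C : Calc M γ) {κ κ₀ V B b f lam ε δ : ℝ}
    (D : HwD (fun a => κ₀ * a) V B (fun a => lam * nbar N c s m a) b f) (h0 : 0 ≤ κ₀) (hκ : κ₀ ≤ κ) (hε : 0 ≤ ε)
    (hI : FPM.IsopO C κ ε) (hV : C.vol ≤ V) (hB : 128 * B * ε ≤ δ) (hlam : 0 ≤ lam) {F : Fin 3 → M → ℝ} {Ee c₀ : ℝ}
    (hF : KY C 2 Ee F (fun _ => c₀)) (hN : 2 * Real.exp c₀ ^ 2 ≤ N) {r τ X x : ℝ} (hr : 0 < r)
    (hm : ∫ o, nuC C F o ∂C.μ ≤ m) (hx : x ≤ ∫ o, nuC C F o ∂C.μ)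
    (hS : ∀ S : Set Om, NullMeasurableSet S C.μ →
      ∫ o, nuC C F o ∂C.μ + r * ∫ o in S, nuC C F o ∂C.μ ≤ X + τ * C.μ.real S)
    (hc : X - x ≤ r * c) (hs : τ ≤ r * s) (g : M → ℝ) (hg : Lip g) (ho : FPM.OddB γ g) (g8 : ∀ x, |g x| ≤ 8) :
    lam * ∫ o, nuC C F o * g (C.pt o) ^ 2 ∂C.μ ≤ ∫ o, gn C g o ^ 2 ∂C.μ + δ :=
  hardy C D h0 hκ hε hI hV hB hlam hF.sph.lip
    (charge C hF.sph.lip (nu_le C hF hN) hm hr hx hS hc hs) g hg ho g8

end Pool.Agent.FPX.VKN
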