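import Mathlib
import Pool.Agent.FPX.SPH

/-
VTH (helper86): the vector `Θ = (8/π) E[θ_p p]` of a family of admissible potentials has norm at most two:
`|θ_p| ≤ π/2` and `E|⟨u, p⟩| = 1/2` for unit vectors `u`.
-/

open MeasureTheory Set Filter Topology
open scoped ENNReal NNReal

noncomputable section

namespace Pool.Agent.FPX.VTH

open Pool.Agent.FPX Pool.Agent.EWD

/-! ### radial integrals -/

theorem rad (k : ℕ) :
    IntegrableOn (fun r : ℝ => r ^ k * Real.exp (-r ^ 2)) (Ioi 0) ∧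
    ∫ r in Ioi (0 : ℝ), r ^ k * Real.exp (-r ^ 2) = Real.Gamma (((k : ℝ) + 1) / 2) / 2 := by
  have hk : (-1 : ℝ) < (k : ℝ) := by
    have : (0 : ℝ) ≤ (k : ℝ) := Nat.cast_nonneg k
    linarith
  constructor
  · have h := integrableOn_rpow_mul_exp_neg_rpow (p := 2) (s := (k : ℝ)) hk two_pos
    refine h.congr_fun (fun x _ => ?_) measurableSet_Ioi
    simp
  · have h := integral_rpow_mul_exp_neg_rpow (p := 2) (q := (k : ℝ)) two_pos hk
    have h2 : ∫ r in Ioi (0 : ℝ), r ^ k * Real.exp (-r ^ 2) =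
        ∫ x in Ioi (0 : ℝ), x ^ (k : ℝ) * Real.exp (-x ^ (2 : ℝ)) :=
      setIntegral_congr_fun measurableSet_Ioi (fun x _ => by simp)
    rw [h2, h]
    ring

theorem rad1 : ∫ r in Ioi (0 : ℝ), r ^ 1 * Real.exp (-r ^ 2) = 1 / 2 := by
  rw [(rad 1).2]
  norm_num [Real.Gamma_one]

theorem rad3 : ∫⁻ r in Ioi (0 : ℝ), ENNReal.ofReal (r ^ 3 * Real.exp (-r ^ 2)) = ENNReal.ofReal (1 / 2) := by
  have h : ∫ r in Ioi (0 : ℝ), r ^ 3 * Real.exp (-r ^ 2) = 1 / 2 := by
    rw [(rad 3).2]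
    have : (((3 : ℕ) : ℝ) + 1) / 2 = 2 := by norm_num
    rw [this, Real.Gamma_two]
  rw [← h, ofReal_integral_eq_lintegral_ofReal (rad 3).1]
  filter_upwards [ae_restrict_mem measurableSet_Ioi] with r hr
  have : (0 : ℝ) < r := hr
  simp only [Pi.zero_apply]
  positivity

theorem gauss : ∫⁻ t : ℝ, ENNReal.ofReal (Real.exp (-t ^ 2)) = ENNReal.ofReal (√Real.pi) := by
  have h1 : ∀ t : ℝ, Real.exp (-t ^ 2) = Real.exp (-1 * t ^ 2) := by
    intro t
    rw [neg_one_mul]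
  simp_rw [h1]
  rw [← ofReal_integral_eq_lintegral_ofReal (integrable_exp_neg_mul_sq one_pos)
    (Eventually.of_forall fun t => (Real.exp_pos _).le), integral_gaussian, div_one]

theorem gauss_abs : ∫⁻ t : ℝ, ENNReal.ofReal (|t| * Real.exp (-t ^ 2)) = ENNReal.ofReal 1 := by
  have h1 : ∫ t : ℝ, |t| * Real.exp (-t ^ 2) = 1 := by
    have h := integral_comp_abs (f := fun t : ℝ => t ^ 1 * Real.exp (-t ^ 2))
    rw [rad1] at h
    have e : ∀ t : ℝ, |t| ^ 1 * Real.exp (-|t| ^ 2) = |t| * Real.exp (-t ^ 2) := fun t => by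
      rw [pow_one, sq_abs]
    simp only [e] at h
    rw [h]
    norm_num
  have h2 : Integrable (fun t : ℝ => |t| * Real.exp (-t ^ 2)) := by
    have h := (integrable_mul_exp_neg_mul_sq (b := 1) one_pos).norm
    refine h.congr (Eventually.of_forall fun t => ?_)
    show ‖t * Real.exp (-1 * t ^ 2)‖ = |t| * Real.exp (-t ^ 2)
    rw [Real.norm_eq_abs, abs_mul, abs_of_pos (Real.exp_pos _), neg_one_mul]
  rw [← h1, ofReal_integral_eq_lintegral_ofReal h2]
  exact Eventually.of_forall fun t => mul_nonneg (abs_nonneg _) (Real.exp_pos _).le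

theorem gauss_plane : ∫⁻ z : ℝ × ℝ, ENNReal.ofReal (Real.exp (-(z.1 ^ 2 + z.2 ^ 2))) = ENNReal.ofReal Real.pi := by
  have e : ∀ z : ℝ × ℝ, ENNReal.ofReal (Real.exp (-(z.1 ^ 2 + z.2 ^ 2))) =
      ENNReal.ofReal (Real.exp (-z.1 ^ 2)) * ENNReal.ofReal (Real.exp (-z.2 ^ 2)) := fun z => by
    rw [← ENNReal.ofReal_mul (Real.exp_pos _).le, ← Real.exp_add]
    congr 2
    ring
  rw [lintegral_congr e, Measure.volume_eq_prod,
    lintegral_prod_mul (f := fun t : ℝ => ENNReal.ofReal (Real.exp (-t ^ 2)))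
      (g := fun t : ℝ => ENNReal.ofReal (Real.exp (-t ^ 2))) (by fun_prop) (by fun_prop), gauss,
    ← ENNReal.ofReal_mul (Real.sqrt_nonneg _), Real.mul_self_sqrt Real.pi_pos.le]

theorem mp3 : MeasurePreserving (fun y : E3 => (y 2, ((y 0 : ℝ), (y 1 : ℝ))))
    (volume : Measure E3) (volume : Measure (ℝ × (ℝ × ℝ))) := by
  have h1 : MeasurePreserving (fun y : E3 => y.ofLp) volume volume :=
    PiLp.volume_preserving_ofLp (Fin 3)
  have h2 := volume_preserving_piFinSuccAbove (fun _ : Fin 3 => ℝ) 2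
  have h3 := (MeasurePreserving.id (volume : Measure ℝ)).prod
    (volume_preserving_finTwoArrow ℝ)
  have h4 := h3.comp (h2.comp h1)
  exact h4

/-! ### the average of `|⟨u, p⟩|` -/

theorem lint_abs : ∫⁻ p : E3, ENNReal.ofReal |p 2| ∂PP = ENNReal.ofReal (1 / 2) := by
  have h := lint_polar (fun p => ENNReal.ofReal |p 2|) (by fun_prop)
    (fun r => ENNReal.ofReal (r * Real.exp (-r ^ 2))) (by fun_prop)
  have h1 : ∀ y : E3, ENNReal.ofReal |((‖y‖⁻¹ : ℝ) • y) 2| * ENNReal.ofReal (‖y‖ * Real.exp (-‖y‖ ^ 2)) =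
      (fun z : ℝ × (ℝ × ℝ) => ENNReal.ofReal (|z.1| * Real.exp (-z.1 ^ 2)) *
        ENNReal.ofReal (Real.exp (-(z.2.1 ^ 2 + z.2.2 ^ 2)))) (y 2, (y 0, y 1)) := by
    intro y
    simp only
    have hn : ‖y‖ ^ 2 = y 2 ^ 2 + (y 0 ^ 2 + y 1 ^ 2) := by
      rw [EuclideanSpace.real_norm_sq_eq, Fin.sum_univ_three]
      ring
    rw [← ENNReal.ofReal_mul (abs_nonneg _),
      ← ENNReal.ofReal_mul (mul_nonneg (abs_nonneg _) (Real.exp_pos _).le)]
    congr 1
    have e0 : ((‖y‖⁻¹ : ℝ) • y) 2 = ‖y‖⁻¹ * y 2 := rfl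
    rw [e0, hn, neg_add, Real.exp_add, abs_mul, abs_inv, abs_norm]
    rcases eq_or_ne y 0 with hy | hy
    · subst hy
      simp
    · have hpos : 0 < ‖y‖ := norm_pos_iff.2 hy
      field_simp
  have h2 := mp3.lintegral_comp (f := fun z : ℝ × (ℝ × ℝ) =>
    ENNReal.ofReal (|z.1| * Real.exp (-z.1 ^ 2)) *
      ENNReal.ofReal (Real.exp (-(z.2.1 ^ 2 + z.2.2 ^ 2)))) (by fun_prop)
  rw [lintegral_congr h1, h2, Measure.volume_eq_prod,
    lintegral_prod_mul (f := fun z : ℝ => ENNReal.ofReal (|z| * Real.exp (-z ^ 2)))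
      (g := fun z : ℝ × ℝ => ENNReal.ofReal (Real.exp (-(z.1 ^ 2 + z.2 ^ 2)))) (by fun_prop) (by fun_prop),
    gauss_abs, gauss_plane] at h
  have h3 : ∫⁻ r in Ioi (0 : ℝ), ENNReal.ofReal (r ^ 2) * ENNReal.ofReal (r * Real.exp (-r ^ 2)) =
      ENNReal.ofReal (1 / 2) := by
    rw [← rad3]
    refine setLIntegral_congr_fun measurableSet_Ioi fun r hr => ?_
    rw [← ENNReal.ofReal_mul (by positivity)]
    congr 1
    ring
  rw [h3, ← ENNReal.ofReal_mul zero_le_one, one_mul] at h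
  have hp := Real.pi_pos
  set J := ∫⁻ p : E3, ENNReal.ofReal |p 2| ∂PP with hJ
  have h4 : ENNReal.ofReal (2 * Real.pi) * J = ENNReal.ofReal (2 * Real.pi) * ENNReal.ofReal (1 / 2) := by
    rw [← ENNReal.ofReal_mul (by positivity)]
    have e1 : 2 * Real.pi * (1 / 2) = Real.pi := by ring
    have e2 : ENNReal.ofReal (4 * Real.pi) * J * ENNReal.ofReal (1 / 2) = ENNReal.ofReal (2 * Real.pi) * J := by
      rw [mul_assoc, mul_comm J, ← mul_assoc, ← ENNReal.ofReal_mul (by positivity)]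
      congr 2
      ring
    rw [e1, h, e2]
  exact (ENNReal.mul_right_inj (by
    rw [Ne, ENNReal.ofReal_eq_zero, not_le]; positivity) ENNReal.ofReal_ne_top).1 h4

theorem int_abs2 : Integrable (fun p : E3 => |p 2|) PP ∧ ∫ p : E3, |p 2| ∂PP = 1 / 2 := by
  have m : Measurable fun p : E3 => |p 2| := by fun_prop
  have h1 : Integrable (fun p : E3 => |p 2|) PP := by
    refine ⟨m.aestronglyMeasurable, ?_⟩
    rw [hasFiniteIntegral_iff_ofReal (Eventually.of_forall fun p => abs_nonneg _), lint_abs]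
    exact ENNReal.ofReal_lt_top
  refine ⟨h1, ?_⟩
  rw [integral_eq_lintegral_of_nonneg_ae (Eventually.of_forall fun p => abs_nonneg _)
    h1.aestronglyMeasurable, lint_abs, ENNReal.toReal_ofReal (by norm_num)]

theorem rot2 {v : E3} (hv : ‖v‖ = 1) : ∃ R : E3 ≃ₗᵢ[ℝ] E3, ∀ p, inner ℝ v p = (R p) 2 := by
  set w : E3 := EuclideanSpace.single 2 1 with hw
  have hnw : ‖v‖ = ‖w‖ := by
    simp [hw, hv]
  have hR : (ℝ ∙ (v - w))ᗮ.reflection v = w := Submodule.reflection_sub hnw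
  refine ⟨(ℝ ∙ (v - w))ᗮ.reflection, fun p => ?_⟩
  rw [← ((ℝ ∙ (v - w))ᗮ.reflection).inner_map_map v p, hR, hw]
  simp [EuclideanSpace.inner_single_left]

/-- **the average of `|⟨u, p⟩|` over the unit sphere is `1/2`** -/
theorem int_inner {v : E3} (hv : ‖v‖ = 1) : Integrable (fun p : E3 => |(inner ℝ v p : ℝ)|) PP ∧
    ∫ p : E3, |(inner ℝ v p : ℝ)| ∂PP = 1 / 2 := by
  obtain ⟨R, hR⟩ := rot2 hv
  have e : (fun p : E3 => |(inner ℝ v p : ℝ)|) = fun p => (fun p : E3 => |p 2|) (R p) := by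
    funext p
    rw [hR p]
  rw [e]
  exact ⟨((mp_rot R).integrable_comp_emb R.toHomeomorph.measurableEmbedding).2 int_abs2.1,
    ((mp_rot R).integral_comp R.toHomeomorph.measurableEmbedding (fun p : E3 => |p 2|)).trans int_abs2.2⟩

theorem int_inner' (u : E3) : Integrable (fun p : E3 => |(inner ℝ u p : ℝ)|) PP ∧
    ∫ p : E3, |(inner ℝ u p : ℝ)| ∂PP = ‖u‖ / 2 := by
  rcases eq_or_ne u 0 with h | h
  · subst h
    simp
  · have hu : 0 < ‖u‖ := norm_pos_iff.2 h
    have hv : ‖(‖u‖⁻¹ : ℝ) • u‖ = 1 := by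
      rw [norm_smul, norm_inv, norm_norm]
      field_simp
    obtain ⟨i1, i2⟩ := int_inner hv
    have e : (fun p : E3 => |(inner ℝ u p : ℝ)|) = fun p => ‖u‖ * |(inner ℝ ((‖u‖⁻¹ : ℝ) • u) p : ℝ)| := by
      funext p
      rw [real_inner_smul_left, abs_mul, abs_inv, abs_norm]
      field_simp
    rw [e]
    refine ⟨i1.const_mul _, ?_⟩
    rw [integral_const_mul, i2]
    ring

/-! ### the bound of `Θ` -/

variable {M : Type} [MetricSpace M] {γ : ℝ → M}

theorem f_bd (F : Fam γ) (p : E3) (x : M) : |F.f p x| ≤ Real.pi / 2 := by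
  unfold Fam.f
  refine (Finset.abs_sum_le_sum_abs _ _).trans ?_
  have h : ∀ i ∈ (Finset.univ : Finset (Fin F.n)), |F.lam p i * F.th i x| ≤ F.lam p i * (Real.pi / 2) := by
    intro i _
    rw [abs_mul, abs_of_nonneg (F.nonneg p i)]
    exact mul_le_mul_of_nonneg_left ((F.adm i).bd x) (F.nonneg p i)
  refine (Finset.sum_le_sum h).trans ?_
  rw [← Finset.sum_mul, F.sum p, one_mul]

theorem f_meas (F : Fam γ) (x : M) : Measurable fun p => F.f p x := by
  unfold Fam.f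
  exact Finset.measurable_sum _ fun i _ => (F.meas i).mul_const _

theorem int_fk (F : Fam γ) (x : M) (k : Fin 3) : Integrable (fun p : E3 => F.f p x * p k) PP := by
  refine Integrable.mono' (integrable_const (Real.pi / 2))
    ((f_meas F x).mul (by fun_prop)).aestronglyMeasurable ?_
  filter_upwards [ae_norm] with p hp
  rw [Real.norm_eq_abs, abs_mul]
  have h1 : |p k| ≤ 1 := by
    have h2 := PiLp.norm_apply_le p k
    rw [hp, Real.norm_eq_abs] at h2
    exact h2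
  have h3 := f_bd F p x
  have h4 := mul_le_mul h3 h1 (abs_nonneg _) (by positivity)
  linarith

/-- **the norm of `Θ` is at most two** -/
theorem th_le_two (F : Fam γ) (x : M) : ‖vv (n := 0) F.Th x‖ ≤ 2 := by
  set T : E3 := vv (n := 0) F.Th x with hT
  have h0 : ‖T‖ ^ 2 = T 0 * T 0 + T 1 * T 1 + T 2 * T 2 := by
    rw [EuclideanSpace.real_norm_sq_eq, Fin.sum_univ_three]
    ring
  have hp := Real.pi_pos
  have e1 : ∀ p : E3, F.f p x * (inner ℝ T p : ℝ) =
      T 0 * (F.f p x * p 0) + T 1 * (F.f p x * p 1) + T 2 * (F.f p x * p 2) := fun p => by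
    have : (inner ℝ T p : ℝ) = T 0 * p 0 + T 1 * p 1 + T 2 * p 2 := by
      simp [PiLp.inner_apply, Fin.sum_univ_three]
      ring
    rw [this]
    ring
  have i0 := (int_fk F x 0).const_mul (T 0)
  have i1 := (int_fk F x 1).const_mul (T 1)
  have i2 := (int_fk F x 2).const_mul (T 2)
  have i01 : Integrable (fun p : E3 => T 0 * (F.f p x * p 0) + T 1 * (F.f p x * p 1)) PP := i0.add i1
  have i012 : Integrable (fun p : E3 => T 0 * (F.f p x * p 0) + T 1 * (F.f p x * p 1)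
      + T 2 * (F.f p x * p 2)) PP := i01.add i2
  have h1 : ‖T‖ ^ 2 = (8 / Real.pi) * ∫ p, F.f p x * (inner ℝ T p : ℝ) ∂PP := by
    simp only [e1]
    rw [integral_add i01 i2, integral_add i0 i1, integral_const_mul, integral_const_mul, integral_const_mul, h0]
    have t0 : T 0 = (8 / Real.pi) * ∫ p, F.f p x * p 0 ∂PP := rfl
    have t1 : T 1 = (8 / Real.pi) * ∫ p, F.f p x * p 1 ∂PP := rfl
    have t2 : T 2 = (8 / Real.pi) * ∫ p, F.f p x * p 2 ∂PP := rfl
    linear_combination T 0 * t0 + T 1 * t1 + T 2 * t2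
  have h2 : ∫ p, F.f p x * (inner ℝ T p : ℝ) ∂PP ≤ ∫ p, Real.pi / 2 * |(inner ℝ T p : ℝ)| ∂PP := by
    refine integral_mono ?_ ((int_inner' T).1.const_mul _) fun p => ?_
    · simp only [e1]
      exact i012
    · refine (le_abs_self _).trans ?_
      rw [abs_mul]
      exact mul_le_mul_of_nonneg_right (f_bd F p x) (abs_nonneg _)
  rw [integral_const_mul, (int_inner' T).2] at h2
  have h3 : ‖T‖ ^ 2 ≤ 2 * ‖T‖ := by
    rw [h1]
    have := mul_le_mul_of_nonneg_left h2 (show 0 ≤ 8 / Real.pi by positivity)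
    refine this.trans (le_of_eq ?_)
    field_simp
    ring
  by_contra hcon
  push Not at hcon
  nlinarith [norm_nonneg T]

end Pool.Agent.FPX.VTH
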