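import Mathlib
import Pool.Agent.FPX.VSB
import Pool.Agent.FPX.VCL
import Pool.Agent.FPX.VKN
import Pool.Agent.FPX.XCH
import Pool.Agent.FPX.CLN
import Pool.Agent.FPX.FAC0
import Pool.Agent.FPX.VTH
import Pool.Agent.FPM.I58LV

/-
VSE (helper30): the assembly of the V stage: a start map with charges (`StartR`) gives a start map with smaller
`∫ ν` in a larger class.
-/

open MeasureTheory Set Filter Topology
open scoped ENNReal NNReal

noncomputable section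

namespace Pool.Agent.FPX.VST

open Pool.Agent.EWD Pool.Agent.FPX Pool.Agent.FPM Pool.Agent.FPX.XCO

/-- the stage for maps with `x ≤ ∫ ν ≤ y` -/
def Stg (r τ Ee X₀ c₀ c₁ XK x y : ℝ) : Prop :=
  ∃ e : ℝ, 0 < e ∧ ∃ ε₀ : ℝ, 0 < ε₀ ∧ ∀ (M : Type) [MetricSpace M] [CompactSpace M] [Nonempty M]
    (γ : ℝ → M) (C : Calc M γ), NearM C ε₀ → C.vol < 2 * Real.pi →
    ∀ F : Fin 3 → M → ℝ, KY C 2 Ee F (fun _ => c₀) → ∫ o, jac C F o ∂C.μ = 2 * Real.pi →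
      x ≤ ∫ o, nuC C F o ∂C.μ → ∫ o, nuC C F o ∂C.μ ≤ y →
      (∀ S : Set Om, NullMeasurableSet S C.μ →
        ∫ o, nuC C F o ∂C.μ + r * ∫ o in S, nuC C F o ∂C.μ ≤ X₀ + e + τ * C.μ.real S) →
      ∃ v : Fin 3 → M → ℝ, KY C 2 2 v (fun _ => c₁) ∧ ∫ o, jac C v o ∂C.μ = 2 * Real.pi ∧
        ∫ o, nuC C v o ∂C.μ ≤ XK

/-- the stage from the data -/
theorem stg_of {κ : ℝ → ℝ} {al kap lam q A B k0 V Bd N c s m b f r τ Ee X₀ c₀ c₁ XK x y : ℝ}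
    (hκ : Kap κ) (hok : VOk κ al kap lam q) (hcl : VCl κ A B) (hA : 0 ≤ A) (hc₁ : 0 ≤ c₁)
    (hAB : A + B * Real.exp c₀ ≤ Real.exp c₁)
    (D : HwD (fun a => k0 * a) V Bd (fun a => lam * VKN.nbar N c s m a) b f) (h0 : 0 ≤ k0)
    (hk0 : k0 ≤ 10000 / 5439 * Real.pi) (hV : 2 * Real.pi ≤ V) (hBd : 0 ≤ Bd)
    (hN : 2 * Real.exp c₀ ^ 2 ≤ N) (hr : 0 < r) (hc : X₀ - x < r * c) (hs : τ ≤ r * s) (hm : y ≤ m)
    (hq : q * y < XK) : Stg r τ Ee X₀ c₀ c₁ XK x y := by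
  have hpi := Real.pi_pos
  have hkap := hok.kap0
  have hal := hok.al0
  have hq0 := hok.q0
  have hlam := hok.lam0
  have hgap : 0 < XK - q * y := by linarith
  -- the constants
  set δ : ℝ := kap * (XK - q * y) / (12 * al) with hδ
  have hδ0 : 0 < δ := by positivity
  set ε₀ : ℝ := δ / (128 * Bd + 1) with hε₀
  have hε₀0 : 0 < ε₀ := by positivity
  refine ⟨r * c - (X₀ - x), by linarith, ε₀, hε₀0, fun M _ _ _ γ C hC hv F hF hJ hx hy hS => ?_⟩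
  have hγ := hC.bd
  have hI : FPM.IsopO C (10000 / 5439 * Real.pi) ε₀ :=
    isopO58 hC.bd hC.regpl hC.colb hε₀0.le hC.nm (by linarith)
  have hB : 128 * Bd * ε₀ ≤ δ := by
    rw [hε₀, mul_div_assoc', div_le_iff₀ (by positivity)]
    nlinarith
  have hH : ∀ g : M → ℝ, Lip g → EWD.OddB γ g → (∀ x, |g x| ≤ 8) →
      lam * ∫ o, nuC C F o * g (C.pt o) ^ 2 ∂C.μ ≤ ∫ o, gn C g o ^ 2 ∂C.μ + δ := fun g hg ho g8 =>
    VKN.hardy_of_charges C D h0 hk0 hε₀0.le hI (by linarith) hB hlam hF hN hr (hy.trans hm) hx hS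
      (by linarith) hs g hg ho g8
  have hε : 0 < Real.pi * kap * (XK - q * y) / 48 := by positivity
  obtain ⟨P, hP, hvS, hvJ, hvi⟩ := vst_step C hγ hC.regae hκ hok (fun P x => VTH.th_le_two P x) hF.sph hJ.le hH hε
  refine ⟨pv κ F P.Th, pv_KY C hκ hF hP (fun x => VTH.th_le_two P x) hA hcl hc₁ hAB, by rw [hvJ, hJ], ?_⟩
  have e1 : 12 / Real.pi * (Real.pi * kap * (XK - q * y) / 48) = kap * (XK - q * y) / 4 := by
    field_simp
    ring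
  have e2 : 3 * al * δ = kap * (XK - q * y) / 4 := by
    rw [hδ]
    field_simp
    ring
  rw [e1, e2] at hvi
  have e3 : kap * (∫ o, nuC C (pv κ F P.Th) o ∂C.μ - q * ∫ o, nuC C F o ∂C.μ) ≤
      kap * (XK - q * y) := by
    have : 0 < kap * (XK - q * y) := by positivity
    linarith
  have e4 := le_of_mul_le_mul_left e3 hkap
  have e5 := mul_le_mul_of_nonneg_left hy hq0.le
  linarith

/-- finitely many stages -/
theorem stg_list {r τ Ee X₀ c₀ c₁ XK : ℝ} (L : List (ℝ × ℝ))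
    (hL : ∀ p ∈ L, Stg r τ Ee X₀ c₀ c₁ XK p.1 p.2) :
    ∃ e : ℝ, 0 < e ∧ ∃ ε₀ : ℝ, 0 < ε₀ ∧ ∀ (M : Type) [MetricSpace M] [CompactSpace M] [Nonempty M]
    (γ : ℝ → M) (C : Calc M γ), NearM C ε₀ → C.vol < 2 * Real.pi →
    ∀ F : Fin 3 → M → ℝ, KY C 2 Ee F (fun _ => c₀) → ∫ o, jac C F o ∂C.μ = 2 * Real.pi →
      (∃ p ∈ L, p.1 ≤ ∫ o, nuC C F o ∂C.μ ∧ ∫ o, nuC C F o ∂C.μ ≤ p.2) →
      (∀ S : Set Om, NullMeasurableSet S C.μ →
        ∫ o, nuC C F o ∂C.μ + r * ∫ o in S, nuC C F o ∂C.μ ≤ X₀ + e + τ * C.μ.real S) →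
      ∃ v : Fin 3 → M → ℝ, KY C 2 2 v (fun _ => c₁) ∧ ∫ o, jac C v o ∂C.μ = 2 * Real.pi ∧
        ∫ o, nuC C v o ∂C.μ ≤ XK := by
  induction L with
  | nil =>
    refine ⟨1, one_pos, 1, one_pos, fun M _ _ _ γ C _ _ F _ _ h _ => ?_⟩
    obtain ⟨p, hp, -⟩ := h
    exact absurd hp List.not_mem_nil
  | cons a L ih =>
    obtain ⟨e, he, ε, hε, h⟩ := ih fun p hp => hL p (List.mem_cons_of_mem _ hp)
    obtain ⟨e', he', ε', hε', h'⟩ := hL a List.mem_cons_self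
    refine ⟨min e e', lt_min he he', min ε ε', lt_min hε hε', fun M _ _ _ γ C hC hv F hF hJ hp hS => ?_⟩
    obtain ⟨p, hp, hp1, hp2⟩ := hp
    rcases List.mem_cons.1 hp with hp | hp
    · subst hp
      refine h' M γ C (FPX.NearM.mono hC (min_le_right _ _)) hv F hF hJ hp1 hp2 fun S hSm => ?_
      have := hS S hSm
      have := min_le_right e e'
      linarith
    · refine h M γ C (FPX.NearM.mono hC (min_le_left _ _)) hv F hF hJ ⟨p, hp, hp1, hp2⟩ fun S hSm => ?_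
      have := hS S hSm
      have := min_le_left e e'
      linarith

/-- **THE START MAP AFTER THE V STAGE** -/
theorem startE_of_stg {r τ Ee X₀ Xt c₀ c₁ XK : ℝ} (hS : StartR r τ Ee X₀ c₀) (hXt : X₀ < Xt)
    (hE : Ee ≤ 2) (hc : c₀ ≤ c₁) (L : List (ℝ × ℝ))
    (hL : ∀ p ∈ L, Stg r τ Ee X₀ c₀ c₁ XK p.1 p.2)
    (hcov : ∀ X, XK ≤ X → X ≤ Xt → ∃ p ∈ L, p.1 ≤ X ∧ X ≤ p.2) : StartE 2 XK c₁ := by
  obtain ⟨e₀, he₀, ε₀, hε₀, hst⟩ := stg_list L hL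
  intro e he
  obtain ⟨ε, hε, h⟩ := hS (min e₀ (Xt - X₀)) (lt_min he₀ (by linarith))
  refine ⟨min ε ε₀, lt_min hε hε₀, fun M _ _ _ γ C hC hv => ?_⟩
  obtain ⟨U, hU, hJ, hSU⟩ := h M γ C (FPX.NearM.mono hC (min_le_left _ _)) hv
  have hU0 := hSU ∅ (nullMeasurableSet_empty)
  have e1 : ∫ o, nuC C U o ∂C.μ ≤ Xt := by
    simp only [Measure.restrict_empty, integral_zero_measure, mul_zero, add_zero, measureReal_empty]
      at hU0
    have := min_le_right e₀ (Xt - X₀)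
    linarith
  rcases lt_or_ge (∫ o, nuC C U o ∂C.μ) XK with hlt | hge
  · refine ⟨U, ?_, hJ, ?_⟩
    · have hexp : Real.exp c₀ ≤ Real.exp c₁ := Real.exp_le_exp.2 hc
      have h0 := Real.exp_pos c₀
      refine ⟨hU.sph, lip_const c₁, fun _ => rfl, fun x => (hU.nonneg x).trans hc, ?_⟩
      filter_upwards [hU.inW] with o ho
      refine ho.mono (mul_le_mul_of_nonneg_right hexp (by norm_num)) ?_
      have h1 : Real.exp c₀ ^ 2 ≤ Real.exp c₁ ^ 2 := pow_le_pow_left₀ h0.le hexp 2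
      calc Real.exp c₀ ^ 2 * Ee ≤ Real.exp c₀ ^ 2 * 2 := mul_le_mul_of_nonneg_left hE (by positivity)
        _ ≤ Real.exp c₁ ^ 2 * 2 := mul_le_mul_of_nonneg_right h1 (by norm_num)
    · change ∫ o, nuC C U o ∂C.μ < XK + e
      linarith
  · obtain ⟨v, h1, h2, h3⟩ := hst M γ C (FPX.NearM.mono hC (min_le_right _ _)) hv U hU hJ (hcov _ hge e1)
      fun S hSm => by
        have := hSU S hSm
        have := min_le_left e₀ (Xt - X₀)
        linarith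
    refine ⟨v, h1, h2, ?_⟩
    change ∫ o, nuC C v o ∂C.μ < XK + e
    linarith

end Pool.Agent.FPX.VST
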