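import Mathlib
import Pool.Agent.FPX.VLB
import Pool.Agent.FPX.VSE

/-
VLE (helper30): the assembly of the V stage with a law `φ`: a start map with charges (`StartR`) gives a start map with
small `∫ φ(ν)` (`StartPh φ`) in a larger class.
-/

open MeasureTheory Set Filter Topology
open scoped ENNReal NNReal

noncomputable section

namespace Pool.Agent.FPX.VST

open Pool.Agent.EWD Pool.Agent.FPX Pool.Agent.FPM Pool.Agent.FPX.XCO

/-- the charges as an integral -/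
theorem charges_max {M : Type} [MetricSpace M] [CompactSpace M] {γ : ℝ → M} (C : Calc M γ)
    {F : Fin 3 → M → ℝ} (hF : Sph γ F) {r τ X : ℝ}
    (h : ∀ S : Set Om, NullMeasurableSet S C.μ →
      ∫ o, nuC C F o ∂C.μ + r * ∫ o in S, nuC C F o ∂C.μ ≤ X + τ * C.μ.real S) :
    ∫ o, nuC C F o ∂C.μ + ∫ o, max (r * nuC C F o - τ) 0 ∂C.μ ≤ X := by
  have := C.fin
  have i4 : Integrable (fun o => nuC C F o) C.μ := nuC_cint C hF.lip continuous_id
  have hm : AEMeasurable (fun o => r * nuC C F o) C.μ := (i4.const_mul r).aestronglyMeasurable.aemeasurable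
  have hS : NullMeasurableSet {o | τ < r * nuC C F o} C.μ := nullMeasurableSet_lt aemeasurable_const hm
  have h1 := h _ hS
  have e1 : ∫ o, max (r * nuC C F o - τ) 0 ∂C.μ =
      ∫ o in {o | τ < r * nuC C F o}, (r * nuC C F o - τ) ∂C.μ := by
    rw [← integral_indicator₀ hS]
    refine integral_congr_ae (ae_of_all _ fun o => ?_)
    by_cases hc : τ < r * nuC C F o
    · have hc' : o ∈ {o | τ < r * nuC C F o} := hc
      simp only [indicator_of_mem hc']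
      exact max_eq_left (by linarith)
    · have hc' : o ∉ {o | τ < r * nuC C F o} := hc
      simp only [indicator_of_notMem hc']
      exact max_eq_right (by linarith [not_lt.1 hc])
  rw [e1, integral_sub (i4.integrableOn.const_mul r) (integrable_const τ), integral_const_mul,
    setIntegral_const, smul_eq_mul, mul_comm (C.μ.real _) τ]
  linarith

/-- the stage with a law for maps with `x ≤ ∫ ν ≤ y` -/
def StgL (φ : ℝ → ℝ) (r τ Ee X₀ c₀ c₁ XK x y : ℝ) : Prop :=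
  ∃ e : ℝ, 0 < e ∧ ∃ ε₀ : ℝ, 0 < ε₀ ∧ ∀ (M : Type) [MetricSpace M] [CompactSpace M] [Nonempty M]
    (γ : ℝ → M) (C : Calc M γ), NearM C ε₀ → C.vol < 2 * Real.pi →
    ∀ F : Fin 3 → M → ℝ, KY C 2 Ee F (fun _ => c₀) → ∫ o, jac C F o ∂C.μ = 2 * Real.pi →
      x ≤ ∫ o, nuC C F o ∂C.μ → ∫ o, nuC C F o ∂C.μ ≤ y →
      (∀ S : Set Om, NullMeasurableSet S C.μ →
        ∫ o, nuC C F o ∂C.μ + r * ∫ o in S, nuC C F o ∂C.μ ≤ X₀ + e + τ * C.μ.real S) →
      ∃ v : Fin 3 → M → ℝ, KY C 2 2 v (fun _ => c₁) ∧ ∫ o, jac C v o ∂C.μ = 2 * Real.pi ∧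
        Ph C φ v ≤ XK

/-- the stage from the data -/
theorem stgL_of {κ : ℝ → ℝ} {al kap lam q D sc A B k0 V Bd N c s m b f r τ Ee X₀ c₀ c₁ XK x y : ℝ}
    (hκ : Kap κ) (L : List (ℝ × ℝ × ℝ)) (hok : ∀ p ∈ L, VLOk κ al kap lam q D sc p.1 p.2.1 p.2.2)
    (hLne : L ≠ []) {φ : ℝ → ℝ} (hφc : Continuous φ)
    (hφ : ∀ x, 0 ≤ x → x ≤ 2 * Real.exp c₁ ^ 2 → ∃ p ∈ L, φ x ≤ p.1 * x - p.2.1)
    (hcl : VCl κ A B) (hA : 0 ≤ A) (hc₁ : 0 ≤ c₁)
    (hAB : A + B * Real.exp c₀ ≤ Real.exp c₁)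
    (Hd : HwD (fun a => k0 * a) V Bd (fun a => lam * VKN.nbar N c s m a) b f) (h0 : 0 ≤ k0)
    (hk0 : k0 ≤ 10000 / 5439 * Real.pi) (hV : 2 * Real.pi ≤ V) (hBd : 0 ≤ Bd)
    (hN : 2 * Real.exp c₀ ^ 2 ≤ N) (hr : 0 < r) (hc : X₀ - x < r * c) (hs : τ ≤ r * s) (hm : y ≤ m)
    (hsc : τ ≤ r * sc) (hDq : D ≤ q * r) (hq : q * y + D / r * (X₀ - y) < XK) :
    StgL φ r τ Ee X₀ c₀ c₁ XK x y := by
  obtain ⟨p0, hp0⟩ := List.exists_mem_of_ne_nil L hLne
  have ok0 := hok p0 hp0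
  have hpi := Real.pi_pos
  have hkap := ok0.kap0
  have hal := ok0.al0
  have hq0 := ok0.q0
  have hlam := ok0.lam0
  have hD0 := ok0.D0
  set gap : ℝ := XK - (q * y + D / r * (X₀ - y)) with hgapd
  have hgap : 0 < gap := by linarith
  -- the constants
  set δ : ℝ := kap * gap / (12 * al) with hδ
  have hδ0 : 0 < δ := by positivity
  set ε₀ : ℝ := δ / (128 * Bd + 1) with hε₀
  have hε₀0 : 0 < ε₀ := by positivity
  set e : ℝ := min (r * c - (X₀ - x)) (r * gap / (4 * (D + 1))) with hed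
  have he0 : 0 < e := lt_min (by linarith) (by positivity)
  refine ⟨e, he0, ε₀, hε₀0, fun M _ _ _ γ C hC hv F hF hJ hx hy hS => ?_⟩
  have he1 : e ≤ r * c - (X₀ - x) := min_le_left _ _
  have he2 : D / r * e ≤ gap / 4 := by
    have h1 : e ≤ r * gap / (4 * (D + 1)) := min_le_right _ _
    calc D / r * e ≤ D / r * (r * gap / (4 * (D + 1))) := mul_le_mul_of_nonneg_left h1 (by positivity)
      _ = D / (D + 1) * (gap / 4) := by
        field_simp
      _ ≤ 1 * (gap / 4) := mul_le_mul_of_nonneg_right (by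
          rw [div_le_one (by linarith)]
          linarith) (by linarith)
      _ = gap / 4 := one_mul _
  have hγ := hC.bd
  have hI : FPM.IsopO C (10000 / 5439 * Real.pi) ε₀ :=
    isopO58 hC.bd hC.regpl hC.colb hε₀0.le hC.nm (by linarith)
  have hB : 128 * Bd * ε₀ ≤ δ := by
    rw [hε₀, mul_div_assoc', div_le_iff₀ (by positivity)]
    nlinarith
  have hH : ∀ g : M → ℝ, Lip g → EWD.OddB γ g → (∀ x, |g x| ≤ 8) →
      lam * ∫ o, nuC C F o * g (C.pt o) ^ 2 ∂C.μ ≤ ∫ o, gn C g o ^ 2 ∂C.μ + δ := fun g hg ho g8 =>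
    VKN.hardy_of_charges C Hd h0 hk0 hε₀0.le hI (by linarith) hB hlam hF hN hr (hy.trans hm) hx hS
      (by linarith) hs g hg ho g8
  have hε : 0 < Real.pi * kap * gap / 48 := by positivity
  obtain ⟨P, hP, hvS, hvJ, hvi⟩ := vlw_step C hγ hC.regae hκ hal L hok hkap hφc
    (N := 2 * Real.exp c₁ ^ 2) hφ (fun P x => VTH.th_le_two P x) hF.sph
    (fun P hP => by
      have h1 := pv_KY C hκ hF hP (fun x => VTH.th_le_two P x) hA hcl hc₁ hAB
      filter_upwards [h1.inW] with o ho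
      exact nu_le_of_InW h1.sph ho) hJ.le hH hε
  refine ⟨pv κ F P.Th, pv_KY C hκ hF hP (fun x => VTH.th_le_two P x) hA hcl hc₁ hAB, by rw [hvJ, hJ], ?_⟩
  have e1 : 12 / Real.pi * (Real.pi * kap * gap / 48) = kap * gap / 4 := by
    field_simp
    ring
  have e2 : 3 * al * δ = kap * gap / 4 := by
    rw [hδ]
    field_simp
    ring
  rw [e1, e2] at hvi
  -- the charges
  have hch := charges_max C hF.sph (X := X₀ + e) hS
  have i5 : Integrable (fun o => max (nuC C F o - sc) 0) C.μ :=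
    nuC_cint C hF.sph.lip (φ := fun x => max (x - sc) 0) (by fun_prop)
  have i6 : Integrable (fun o => max (r * nuC C F o - τ) 0) C.μ :=
    nuC_cint C hF.sph.lip (φ := fun x => max (r * x - τ) 0) (by fun_prop)
  have h7 : r * ∫ o, max (nuC C F o - sc) 0 ∂C.μ ≤ ∫ o, max (r * nuC C F o - τ) 0 ∂C.μ := by
    rw [← integral_const_mul]
    refine integral_mono (i5.const_mul r) i6 fun o => ?_
    change r * max (nuC C F o - sc) 0 ≤ max (r * nuC C F o - τ) 0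
    rw [mul_max_of_nonneg _ _ hr.le, mul_zero]
    exact max_le_max (by linarith) le_rfl
  have h8 : ∫ o, max (nuC C F o - sc) 0 ∂C.μ ≤ (X₀ + e - ∫ o, nuC C F o ∂C.μ) / r := by
    rw [le_div_iff₀ hr]
    linarith
  have h9 := mul_le_mul_of_nonneg_left h8 hD0
  have e5 : D * ((X₀ + e - ∫ o, nuC C F o ∂C.μ) / r) =
      D / r * (X₀ - ∫ o, nuC C F o ∂C.μ) + D / r * e := by ring
  rw [e5] at h9
  have hqD : 0 ≤ q - D / r := by
    rw [sub_nonneg, div_le_iff₀ hr]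
    exact hDq
  have h10 := mul_le_mul_of_nonneg_left hy hqD
  have e3 : kap * (∫ o, φ (nuC C (pv κ F P.Th) o) ∂C.μ - q * ∫ o, nuC C F o ∂C.μ
      - D * ∫ o, max (nuC C F o - sc) 0 ∂C.μ) ≤ kap * (gap / 2) := by
    linarith
  have e4 := le_of_mul_le_mul_left e3 hkap
  change ∫ o, φ (nuC C (pv κ F P.Th) o) ∂C.μ ≤ XK
  linarith

/-- finitely many stages -/
theorem stgL_list {φ : ℝ → ℝ} {r τ Ee X₀ c₀ c₁ XK : ℝ} (L : List (ℝ × ℝ))
    (hL : ∀ p ∈ L, StgL φ r τ Ee X₀ c₀ c₁ XK p.1 p.2) :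
    ∃ e : ℝ, 0 < e ∧ ∃ ε₀ : ℝ, 0 < ε₀ ∧ ∀ (M : Type) [MetricSpace M] [CompactSpace M] [Nonempty M]
    (γ : ℝ → M) (C : Calc M γ), NearM C ε₀ → C.vol < 2 * Real.pi →
    ∀ F : Fin 3 → M → ℝ, KY C 2 Ee F (fun _ => c₀) → ∫ o, jac C F o ∂C.μ = 2 * Real.pi →
      (∃ p ∈ L, p.1 ≤ ∫ o, nuC C F o ∂C.μ ∧ ∫ o, nuC C F o ∂C.μ ≤ p.2) →
      (∀ S : Set Om, NullMeasurableSet S C.μ →
        ∫ o, nuC C F o ∂C.μ + r * ∫ o in S, nuC C F o ∂C.μ ≤ X₀ + e + τ * C.μ.real S) →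
      ∃ v : Fin 3 → M → ℝ, KY C 2 2 v (fun _ => c₁) ∧ ∫ o, jac C v o ∂C.μ = 2 * Real.pi ∧
        Ph C φ v ≤ XK := by
  induction L with
  | nil =>
    refine ⟨1, one_pos, 1, one_pos, fun M _ _ _ γ C _ _ F _ _ h _ => ?_⟩
    obtain ⟨p, hp, -⟩ := h
    exact absurd hp List.not_mem_nil
  | cons a L ih =>
    obtain ⟨e, he, ε, hε, h⟩ := ih fun p hp => hL p (List.mem_cons_of_mem _ hp)
    obtain ⟨e', he', ε', hε', h'⟩ := hL a List.mem_cons_self
    refine ⟨min e e', lt_min he he', min ε ε', lt_min hε hε', fun M _ _ _ γ C hC hv F hF hJ hp hS => ?_⟩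
    obtain ⟨p, hp, hp1, hp2⟩ := hp
    rcases List.mem_cons.1 hp with hp | hp
    · subst hp
      refine h' M γ C (FPX.NearM.mono hC (min_le_right _ _)) hv F hF hJ hp1 hp2 fun S hSm => ?_
      have := hS S hSm
      have := min_le_right e e'
      linarith
    · refine h M γ C (FPX.NearM.mono hC (min_le_left _ _)) hv F hF hJ ⟨p, hp, hp1, hp2⟩ fun S hSm => ?_
      have := hS S hSm
      have := min_le_left e e'
      linarith

/-- **THE START MAP AFTER THE V STAGE WITH A LAW**; for `∫ ν < x₁` the map itself is good -/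
theorem startPh_of_stgL {φ : ℝ → ℝ} (hφc : Continuous φ) {r τ Ee X₀ Xt c₀ c₁ XK θ x₁ : ℝ}
    (hS : StartR r τ Ee X₀ c₀) (hXt : X₀ < Xt)
    (hE : Ee ≤ 2) (hc : c₀ ≤ c₁) (L : List (ℝ × ℝ))
    (hL : ∀ p ∈ L, StgL φ r τ Ee X₀ c₀ c₁ XK p.1 p.2)
    (hcov : ∀ X, x₁ ≤ X → X ≤ Xt → ∃ p ∈ L, p.1 ≤ X ∧ X ≤ p.2)
    (hθ0 : 0 ≤ θ) (hθ1 : θ ≤ 1)
    (hφθ : ∀ x, 0 ≤ x → x ≤ 2 * Real.exp c₀ ^ 2 → φ x ≤ x + θ * max (r * x - τ) 0)
    (hx₁ : x₁ + θ * (X₀ - x₁) < XK) : StartPh φ 2 XK c₁ := by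
  obtain ⟨e₀, he₀, ε₀, hε₀, hst⟩ := stgL_list L hL
  have hgap : 0 < XK - (x₁ + θ * (X₀ - x₁)) := by linarith
  intro e he
  obtain ⟨ε, hε, h⟩ := hS (min (min e₀ (Xt - X₀)) (XK - (x₁ + θ * (X₀ - x₁))))
    (lt_min (lt_min he₀ (by linarith)) hgap)
  refine ⟨min ε ε₀, lt_min hε hε₀, fun M _ _ _ γ C hC hv => ?_⟩
  obtain ⟨U, hU, hJ, hSU⟩ := h M γ C (FPX.NearM.mono hC (min_le_left _ _)) hv
  set e' : ℝ := min (min e₀ (Xt - X₀)) (XK - (x₁ + θ * (X₀ - x₁))) with he'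
  have k1 : e' ≤ e₀ := (min_le_left _ _).trans (min_le_left _ _)
  have k2 : e' ≤ Xt - X₀ := (min_le_left _ _).trans (min_le_right _ _)
  have k3 : e' ≤ XK - (x₁ + θ * (X₀ - x₁)) := min_le_right _ _
  have hch := charges_max C hU.sph (X := X₀ + e') hSU
  have hpos : 0 ≤ ∫ o, max (r * nuC C U o - τ) 0 ∂C.μ := integral_nonneg fun o => le_max_right _ _
  have e1 : ∫ o, nuC C U o ∂C.μ ≤ Xt := by linarith
  rcases lt_or_ge (∫ o, nuC C U o ∂C.μ) x₁ with hlt | hge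
  · refine ⟨U, ?_, hJ, ?_⟩
    · have hexp : Real.exp c₀ ≤ Real.exp c₁ := Real.exp_le_exp.2 hc
      have h0 := Real.exp_pos c₀
      refine ⟨hU.sph, lip_const c₁, fun _ => rfl, fun x => (hU.nonneg x).trans hc, ?_⟩
      filter_upwards [hU.inW] with o ho
      refine ho.mono (mul_le_mul_of_nonneg_right hexp (by norm_num)) ?_
      have h1 : Real.exp c₀ ^ 2 ≤ Real.exp c₁ ^ 2 := pow_le_pow_left₀ h0.le hexp 2
      calc Real.exp c₀ ^ 2 * Ee ≤ Real.exp c₀ ^ 2 * 2 := mul_le_mul_of_nonneg_left hE (by positivity)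
        _ ≤ Real.exp c₁ ^ 2 * 2 := mul_le_mul_of_nonneg_right h1 (by norm_num)
    · change ∫ o, φ (nuC C U o) ∂C.μ < XK + e
      have i3 : Integrable (fun o => φ (nuC C U o)) C.μ := nuC_cint C hU.sph.lip hφc
      have i4 : Integrable (fun o => nuC C U o) C.μ := nuC_cint C hU.sph.lip continuous_id
      have i6 : Integrable (fun o => max (r * nuC C U o - τ) 0) C.μ :=
        nuC_cint C hU.sph.lip (φ := fun x => max (r * x - τ) 0) (by fun_prop)
      have h5 : ∫ o, φ (nuC C U o) ∂C.μ ≤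
          ∫ o, (nuC C U o + θ * max (r * nuC C U o - τ) 0) ∂C.μ := by
        refine integral_mono_ae i3 (i4.add (i6.const_mul θ)) ?_
        filter_upwards [hU.inW] with o ho
        exact hφθ _ (nuv_nonneg _ _ _) (nu_le_of_InW hU.sph ho)
      rw [integral_add i4 (i6.const_mul θ), integral_const_mul] at h5
      have h6 : θ * ∫ o, max (r * nuC C U o - τ) 0 ∂C.μ ≤ θ * (X₀ + e' - ∫ o, nuC C U o ∂C.μ) :=
        mul_le_mul_of_nonneg_left (by linarith) hθ0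
      have h7 : (1 - θ) * ∫ o, nuC C U o ∂C.μ ≤ (1 - θ) * x₁ :=
        mul_le_mul_of_nonneg_left hlt.le (by linarith)
      have h8 : θ * e' ≤ 1 * (XK - (x₁ + θ * (X₀ - x₁))) := mul_le_mul hθ1 k3 (by
        have h9 : 0 < e' := lt_min (lt_min he₀ (by linarith)) hgap
        exact h9.le) (by norm_num)
      linarith
  · obtain ⟨v, h1, h2, h3⟩ := hst M γ C (FPX.NearM.mono hC (min_le_right _ _)) hv U hU hJ (hcov _ hge e1)
      fun S hSm => by
        have := hSU S hSm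
        linarith
    refine ⟨v, h1, h2, ?_⟩
    linarith

end Pool.Agent.FPX.VST
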