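import Mathlib
import Pool.Agent.FPX.HWX

/-
VKC (helper76): kernel checked certificates for the Hardy inequality with the charge
`min (N a) (c + s a) m` and the profile `κ a`: a continuous piecewise linear `k` given by its values at
rational nodes; on every piece the inequality `(lam n(a) + ∫ k)² ≤ κ a k(a)` is a quartic in the Bernstein form.
-/

open MeasureTheory Set Filter Topology

noncomputable section

namespace Pool.Agent.FPX.VKC

open Pool.Agent.FPX

/-- the charge envelope -/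
def nbar (N c s m a : ℝ) : ℝ := min (N * max a 0) (min (c + s * max a 0) m)

section nb
variable {N c s m : ℝ}

theorem nbar_mono' {N' c' s' m' : ℝ} (hN : N ≤ N') (hc : c ≤ c') (hs : s ≤ s') (hm : m ≤ m') (a : ℝ) :
    nbar N c s m a ≤ nbar N' c' s' m' a :=
  min_le_min (mul_le_mul_of_nonneg_right hN (le_max_right _ _))
    (min_le_min (add_le_add hc (mul_le_mul_of_nonneg_right hs (le_max_right _ _))) hm)

theorem nbar_mono (hN : 0 ≤ N) (hs : 0 ≤ s) : Monotone (nbar N c s m) := fun _ _ h =>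
  min_le_min (mul_le_mul_of_nonneg_left (max_le_max h le_rfl) hN)
    (min_le_min (add_le_add le_rfl (mul_le_mul_of_nonneg_left (max_le_max h le_rfl) hs)) le_rfl)

theorem nbar_zero (hc : 0 ≤ c) (hm : 0 ≤ m) {a : ℝ} (ha : a ≤ 0) : nbar N c s m a = 0 := by
  unfold nbar
  rw [max_eq_right ha, mul_zero, mul_zero, add_zero]
  exact min_eq_left (le_min hc hm)

theorem nbar_lip (hN : 0 ≤ N) (hs : 0 ≤ s) (hsN : s ≤ N) {x y : ℝ} (h : x ≤ y) :
    nbar N c s m y ≤ nbar N c s m x + N * (y - x) := by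
  have h0 : max y 0 ≤ max x 0 + (y - x) := by
    refine max_le ?_ ?_
    · have := le_max_left x 0
      linarith
    · have := le_max_right x 0
      linarith
  have h1 : N * max y 0 ≤ N * max x 0 + N * (y - x) := by
    have := mul_le_mul_of_nonneg_left h0 hN
    linarith
  have h2 : s * max y 0 ≤ s * max x 0 + N * (y - x) := by
    have k1 := mul_le_mul_of_nonneg_left h0 hs
    have k2 := mul_le_mul_of_nonneg_right hsN (by linarith : 0 ≤ y - x)
    linarith
  have h3 : 0 ≤ N * (y - x) := mul_nonneg hN (by linarith)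
  unfold nbar
  rcases min_choice (N * max x 0) (min (c + s * max x 0) m) with e | e
  · rw [e]
    exact (min_le_left _ _).trans h1
  · rw [e]
    rcases min_choice (c + s * max x 0) m with e' | e'
    · rw [e']
      exact ((min_le_right _ _).trans (min_le_left _ _)).trans (by linarith)
    · rw [e']
      exact ((min_le_right _ _).trans (min_le_right _ _)).trans (by linarith)

theorem nbar_nonneg (hN : 0 ≤ N) (hc : 0 ≤ c) (hs : 0 ≤ s) (hm : 0 ≤ m) (a : ℝ) : 0 ≤ nbar N c s m a :=
  le_min (mul_nonneg hN (le_max_right _ _)) (le_min (add_nonneg hc (mul_nonneg hs (le_max_right _ _))) hm)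

end nb

/-- the line number `i` -/
def line (N c s m : ℚ) (i : ℕ) : ℚ × ℚ := if i = 0 then (0, N) else if i = 1 then (c, s) else (m, 0)

theorem nbar_le_line (N c s m : ℚ) (i : ℕ) {a : ℝ} (ha : 0 ≤ a) :
    nbar N c s m a ≤ ((line N c s m i).1 : ℝ) + ((line N c s m i).2 : ℝ) * a := by
  unfold nbar line
  rw [max_eq_left ha]
  split_ifs
  · simp only [Rat.cast_zero, zero_add]
    exact min_le_left _ _
  · exact (min_le_right _ _).trans (min_le_left _ _)
  · simp only [Rat.cast_zero, zero_mul, add_zero]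
    exact (min_le_right _ _).trans (min_le_right _ _)

/-- one piece: the five Bernstein coefficients -/
def piece (κ lam p q A k I A' k' : ℚ) : Bool :=
  decide (A < A') && decide (0 ≤ k') &&
  decide ((lam * (p + q * A) + I) * (lam * (p + q * A) + I) ≤ κ * A * k) &&
  decide (4 * ((lam * (p + q * A) + I) *
    (lam * (p + q * A) + I + (lam * q + k) * (A' - A) / 2)) ≤ 2 * κ * A * k + κ * (A * k' + A' * k)) &&
  decide (2 * (2 * ((lam * (p + q * A) + I + (lam * q + k) * (A' - A) / 2) *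
    (lam * (p + q * A) + I + (lam * q + k) * (A' - A) / 2)) +
    (lam * (p + q * A) + I) * (lam * (p + q * A') + (I + (A' - A) * (k + k') / 2))) ≤
    κ * A * k + 2 * κ * (A * k' + A' * k) + κ * A' * k') &&
  decide (4 * ((lam * (p + q * A) + I + (lam * q + k) * (A' - A) / 2) *
    (lam * (p + q * A') + (I + (A' - A) * (k + k') / 2))) ≤ κ * (A * k' + A' * k) + 2 * κ * A' * k') &&
  decide ((lam * (p + q * A') + (I + (A' - A) * (k + k') / 2)) *
    (lam * (p + q * A') + (I + (A' - A) * (k + k') / 2)) ≤ κ * A' * k')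

/-- the pieces to the right of the node `A` -/
def chk (κ V N c s m lam : ℚ) : ℚ → ℚ → ℚ → List (ℚ × ℚ × ℕ) → Bool
  | A, _, _, [] => decide (V ≤ A)
  | A, k, I, (A', k', i) :: t =>
    piece κ lam (line N c s m i).1 (line N c s m i).2 A k I A' k' &&
      chk κ V N c s m lam A' k' (I + (A' - A) * (k + k') / 2) t

/-- the certificate -/
def cert (κ V N c s m lam : ℚ) (L : List (ℚ × ℚ × ℕ)) : Bool :=
  decide (0 ≤ κ) && decide (0 ≤ N) && decide (0 ≤ c) && decide (0 ≤ s) && decide (s ≤ N) && decide (0 ≤ m) &&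
    decide (0 ≤ lam) && chk κ V N c s m lam 0 0 0 L

/-- node lists over a grid -/
def mk (u v : ℚ) (i : ℕ) (L : List (ℕ × ℕ)) : List (ℚ × ℚ × ℕ) :=
  L.map fun x => ((x.1 : ℚ) * u, (x.2 : ℚ) * v, i)

/-- the quartic on one piece -/
theorem piece_pt {κ lam p q A k I A' k' : ℚ} (h : piece κ lam p q A k I A' k' = true) {t : ℝ} (t0 : 0 ≤ t)
    (t1 : t ≤ 1) :
    ((lam : ℝ) * (p + q * (A + (A' - A) * t)) + I + (A' - A) * (k * t + (k' - k) * t ^ 2 / 2)) ^ 2 ≤
      κ * (A + (A' - A) * t) * (k + (k' - k) * t) := by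
  unfold piece at h
  simp only [Bool.and_eq_true, decide_eq_true_eq] at h
  obtain ⟨⟨⟨⟨⟨⟨_, _⟩, h0⟩, h1⟩, h2⟩, h3⟩, h4⟩ := h
  have g0 : ((lam : ℝ) * (p + q * A) + I) * (lam * (p + q * A) + I) ≤ κ * A * k := by exact_mod_cast h0
  have g1 : 4 * (((lam : ℝ) * (p + q * A) + I) *
    (lam * (p + q * A) + I + (lam * q + k) * (A' - A) / 2)) ≤
      2 * κ * A * k + κ * (A * k' + A' * k) := by exact_mod_cast h1
  have g2 : 2 * (2 * (((lam : ℝ) * (p + q * A) + I + (lam * q + k) * (A' - A) / 2) *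
    (lam * (p + q * A) + I + (lam * q + k) * (A' - A) / 2)) +
    (lam * (p + q * A) + I) * (lam * (p + q * A') + (I + (A' - A) * (k + k') / 2))) ≤
    κ * A * k + 2 * κ * (A * k' + A' * k) + κ * A' * k' := by exact_mod_cast h2
  have g3 : 4 * (((lam : ℝ) * (p + q * A) + I + (lam * q + k) * (A' - A) / 2) *
    (lam * (p + q * A') + (I + (A' - A) * (k + k') / 2))) ≤
      κ * (A * k' + A' * k) + 2 * κ * A' * k' := by exact_mod_cast h3
  have g4 : ((lam : ℝ) * (p + q * A') + (I + (A' - A) * (k + k') / 2)) *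
    (lam * (p + q * A') + (I + (A' - A) * (k + k') / 2)) ≤ κ * A' * k' := by exact_mod_cast h4
  have u0 : 0 ≤ 1 - t := by linarith
  obtain ⟨r0, e0⟩ : ∃ r : ℝ, r = (lam : ℝ) * (p + q * A) + I := ⟨_, rfl⟩
  obtain ⟨r1, e1⟩ : ∃ r : ℝ, r = (lam : ℝ) * (p + q * A) + I + (lam * q + k) * (A' - A) / 2 := ⟨_, rfl⟩
  obtain ⟨r2, e2⟩ : ∃ r : ℝ, r = (lam : ℝ) * (p + q * A') + (I + (A' - A) * (k + k') / 2) := ⟨_, rfl⟩
  have eR : (lam : ℝ) * (p + q * (A + (A' - A) * t)) + I + (A' - A) * (k * t + (k' - k) * t ^ 2 / 2) =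
      r0 * (1 - t) ^ 2 + 2 * r1 * t * (1 - t) + r2 * t ^ 2 := by
    rw [e0, e1, e2]
    ring
  have eK : (κ : ℝ) * (A + (A' - A) * t) * (k + (k' - k) * t) =
      (κ * A * k) * (1 - t) ^ 2 + κ * (A * k' + A' * k) * t * (1 - t) + κ * A' * k' * t ^ 2 := by ring
  rw [← e1] at g1 g2 g3
  rw [← e0] at g0 g1 g2
  rw [← e2] at g2 g3 g4
  obtain ⟨b0, f0⟩ : ∃ b : ℝ, b = (κ : ℝ) * A * k := ⟨_, rfl⟩
  obtain ⟨b1, f1⟩ : ∃ b : ℝ, b = (κ : ℝ) * (A * k' + A' * k) := ⟨_, rfl⟩
  obtain ⟨b2, f2⟩ : ∃ b : ℝ, b = (κ : ℝ) * A' * k' := ⟨_, rfl⟩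
  rw [eR, eK, ← f0, ← f1, ← f2]
  have g0' : 0 ≤ b0 - r0 * r0 := by rw [f0]; linarith
  have g1' : 0 ≤ 2 * b0 + b1 - 4 * (r0 * r1) := by rw [f0, f1]; linarith
  have g2' : 0 ≤ b0 + 2 * b1 + b2 - 2 * (2 * (r1 * r1) + r0 * r2) := by rw [f0, f1, f2]; linarith
  have g3' : 0 ≤ b1 + 2 * b2 - 4 * (r1 * r2) := by rw [f1, f2]; linarith
  have g4' : 0 ≤ b2 - r2 * r2 := by rw [f2]; linarith
  have key : b0 * (1 - t) ^ 2 + b1 * t * (1 - t) + b2 * t ^ 2 -
      (r0 * (1 - t) ^ 2 + 2 * r1 * t * (1 - t) + r2 * t ^ 2) ^ 2 =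
      (b0 - r0 * r0) * (1 - t) ^ 4 + (2 * b0 + b1 - 4 * (r0 * r1)) * (t * (1 - t) ^ 3) +
      (b0 + 2 * b1 + b2 - 2 * (2 * (r1 * r1) + r0 * r2)) * (t ^ 2 * (1 - t) ^ 2) / 1 +
      (b1 + 2 * b2 - 4 * (r1 * r2)) * (t ^ 3 * (1 - t)) + (b2 - r2 * r2) * t ^ 4 := by ring
  have : 0 ≤ (b0 - r0 * r0) * (1 - t) ^ 4 + (2 * b0 + b1 - 4 * (r0 * r1)) * (t * (1 - t) ^ 3) +
      (b0 + 2 * b1 + b2 - 2 * (2 * (r1 * r1) + r0 * r2)) * (t ^ 2 * (1 - t) ^ 2) / 1 +
      (b1 + 2 * b2 - 4 * (r1 * r2)) * (t ^ 3 * (1 - t)) + (b2 - r2 * r2) * t ^ 4 := by positivity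
  linarith

section
variable {κ V N c s m lam : ℚ}

/-- integral of the linear piece -/
theorem int_lin (A k sl a : ℝ) :
    ∫ u in A..a, (k + sl * (u - A)) = k * (a - A) + sl * (a - A) ^ 2 / 2 := by
  have h1 : IntervalIntegrable (fun _ : ℝ => k) volume A a := intervalIntegrable_const
  have h2 : IntervalIntegrable (fun u : ℝ => sl * (u - A)) volume A a :=
    (by fun_prop : Continuous fun u : ℝ => sl * (u - A)).intervalIntegrable _ _
  rw [intervalIntegral.integral_add h1 h2, intervalIntegral.integral_const, intervalIntegral.integral_const_mul,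
    intervalIntegral.integral_comp_sub_right (fun u => u) A, integral_id, smul_eq_mul]
  ring

/-- **the function from the pieces** -/
theorem chk_ex (hκ : 0 ≤ κ) (hN : 0 ≤ N) (hc : 0 ≤ c) (hs : 0 ≤ s) (hm : 0 ≤ m) (hl : 0 ≤ lam) :
    ∀ (L : List (ℚ × ℚ × ℕ)) (A k I : ℚ), 0 ≤ A → 0 ≤ k → 0 ≤ I → chk κ V N c s m lam A k I L = true →
      ∃ T : ℝ → ℝ, Continuous T ∧ T A = k ∧ (∀ a, (A : ℝ) ≤ a → 0 ≤ T a) ∧ ∀ a : ℝ, (A : ℝ) < a → a ≤ V →
        (lam * nbar N c s m a + (I + ∫ u in (A : ℝ)..a, T u)) ^ 2 ≤ κ * a * T a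
  | [], A, k, I, _, k0, _, h => by
    have hV : V ≤ A := by simpa [chk] using h
    have hV' : (V : ℝ) ≤ A := by exact_mod_cast hV
    have k0r : (0 : ℝ) ≤ k := by exact_mod_cast k0
    refine ⟨fun _ => k, continuous_const, rfl, fun _ _ => k0r, fun a h1 h2 => ?_⟩
    linarith
  | (A', k', i) :: t, A, k, I, A0, k0, I0, h => by
    unfold chk at h
    rw [Bool.and_eq_true] at h
    obtain ⟨hp, ht⟩ := h
    have hp' := hp
    unfold piece at hp'
    simp only [Bool.and_eq_true, decide_eq_true_eq] at hp'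
    obtain ⟨⟨⟨⟨⟨⟨hA, k0'⟩, _⟩, _⟩, _⟩, _⟩, _⟩ := hp'
    have A0' : 0 ≤ A' := A0.trans hA.le
    have I0' : 0 ≤ I + (A' - A) * (k + k') / 2 := by
      have : 0 ≤ (A' - A) * (k + k') / 2 := by
        have h1 : 0 ≤ A' - A := by linarith
        positivity
      linarith
    obtain ⟨T, cT, TA, T0, hT⟩ := chk_ex hκ hN hc hs hm hl t A' k' _ A0' k0' I0' ht
    have hAr : (A : ℝ) < A' := by exact_mod_cast hA
    have A0r : (0 : ℝ) ≤ A := by exact_mod_cast A0
    have k0r : (0 : ℝ) ≤ k := by exact_mod_cast k0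
    have k0r' : (0 : ℝ) ≤ k' := by exact_mod_cast k0'
    have I0r : (0 : ℝ) ≤ I := by exact_mod_cast I0
    have lr : (0 : ℝ) ≤ lam := by exact_mod_cast hl
    have hh : (0 : ℝ) < A' - A := by linarith
    obtain ⟨sl, hsl⟩ : ∃ sl : ℝ, sl = (k' - k) / (A' - A) := ⟨_, rfl⟩
    have e1 : (k : ℝ) + sl * (A' - A) = k' := by
      rw [hsl]
      field_simp
      ring
    have cl : Continuous fun a : ℝ => (k : ℝ) + sl * (a - A) := by fun_prop
    set U : ℝ → ℝ := fun a => if a ≤ A' then (k : ℝ) + sl * (a - A) else T a with hU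
    have cU : Continuous U := by
      refine Continuous.if_le cl cT continuous_id continuous_const fun x hx => ?_
      have hx' : x = A' := hx
      rw [hx', e1, TA]
    have U1 : ∀ a : ℝ, a ≤ A' → U a = k + sl * (a - A) := fun a ha => if_pos ha
    have U2 : ∀ a : ℝ, (A' : ℝ) ≤ a → U a = T a := fun a ha => by
      rcases ha.eq_or_lt with h | h
      · rw [← h, U1 _ le_rfl, e1, TA]
      · exact if_neg (not_le.2 h)
    have J1 : ∀ a : ℝ, (A : ℝ) ≤ a → a ≤ A' → ∫ u in (A : ℝ)..a, U u = k * (a - A) + sl * (a - A) ^ 2 / 2 :=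
      fun a h1 h2 => by
        rw [← int_lin]
        refine intervalIntegral.integral_congr fun u hu => ?_
        rw [uIcc_of_le h1] at hu
        exact U1 u (hu.2.trans h2)
    refine ⟨U, cU, ?_, fun a ha => ?_, fun a h1 h2 => ?_⟩
    · rw [U1 _ hAr.le]
      ring
    · rcases le_total a A' with h | h
      · rw [U1 a h]
        have h3 : (k : ℝ) + sl * (a - A) = k * ((A' - a) / (A' - A)) + k' * ((a - A) / (A' - A)) := by
          rw [hsl]
          field_simp
          ring
        rw [h3]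
        have h4 : 0 ≤ a - A := by linarith
        have h5 : 0 ≤ A' - a := by linarith
        positivity
      · rw [U2 a h]
        exact T0 a h
    · rcases le_total a A' with h | h
      · have a0 : 0 ≤ a := A0r.trans h1.le
        rw [J1 a h1.le h, U1 a h]
        obtain ⟨τ, hτ⟩ : ∃ τ : ℝ, τ = (a - A) / (A' - A) := ⟨_, rfl⟩
        have t0 : 0 ≤ τ := by rw [hτ]; exact div_nonneg (by linarith) hh.le
        have t1 : τ ≤ 1 := by rw [hτ, div_le_one hh]; linarith
        have ea : (A : ℝ) + (A' - A) * τ = a := by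
          rw [hτ]
          field_simp
          ring
        have ea' : a - A = (A' - A) * τ := by linarith
        have es : sl * (A' - A) = k' - k := by linarith
        have h3 := piece_pt hp t0 t1
        have h4 := nbar_le_line N c s m i a0
        have n0 := nbar_nonneg (N := (N : ℝ)) (c := (c : ℝ)) (s := (s : ℝ)) (m := (m : ℝ))
          (by exact_mod_cast hN) (by exact_mod_cast hc) (by exact_mod_cast hs) (by exact_mod_cast hm) a
        have e3 : (k : ℝ) * (a - A) + sl * (a - A) ^ 2 / 2 =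
            (A' - A) * (k * τ + (k' - k) * τ ^ 2 / 2) := by
          rw [ea', ← es]
          ring
        have e4 : (k : ℝ) + sl * (a - A) = k + (k' - k) * τ := by
          rw [ea', ← es]
          ring
        rw [e3, e4]
        have h5 : 0 ≤ (A' - A) * (k * τ + (k' - k) * τ ^ 2 / 2 : ℝ) := by
          have h6 : (k : ℝ) * τ + (k' - k) * τ ^ 2 / 2 = k * τ * (1 - τ / 2) + k' * τ ^ 2 / 2 := by ring
          rw [h6]
          have h7 : 0 ≤ 1 - τ / 2 := by linarith
          positivity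
        rw [ea] at h3
        refine le_trans (pow_le_pow_left₀ ?_ ?_ 2) h3
        · have := mul_nonneg lr n0
          linarith
        · have := mul_le_mul_of_nonneg_left h4 lr
          linarith
      · rcases h.eq_or_lt with h' | h'
        · have ht1 : chk κ V N c s m lam A' k' (I + (A' - A) * (k + k') / 2) t = true := ht
          have a0 : 0 ≤ a := A0r.trans h1.le
          subst h'
          have h3 := piece_pt hp zero_le_one le_rfl
          rw [J1 _ h1.le le_rfl, U1 _ le_rfl, e1]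
          have h4 := nbar_le_line N c s m i a0
          have n0 := nbar_nonneg (N := (N : ℝ)) (c := (c : ℝ)) (s := (s : ℝ)) (m := (m : ℝ))
            (by exact_mod_cast hN) (by exact_mod_cast hc) (by exact_mod_cast hs) (by exact_mod_cast hm) (A' : ℝ)
          have e3 : (k : ℝ) * (A' - A) + sl * (A' - A) ^ 2 / 2 =
              (A' - A) * (k * 1 + (k' - k) * 1 ^ 2 / 2) := by
            have es : sl * (A' - A) = k' - k := by linarith
            have : sl * (A' - A : ℝ) ^ 2 = (k' - k) * (A' - A) := by rw [← es]; ring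
            rw [this]
            ring
          rw [e3]
          have e5 : (A : ℝ) + (A' - A) * 1 = A' := by ring
          have e6 : (k : ℝ) + (k' - k) * 1 = k' := by ring
          rw [e5, e6] at h3
          refine le_trans (pow_le_pow_left₀ ?_ ?_ 2) h3
          · have h5 := mul_nonneg lr n0
            have h6 : (A' - A : ℝ) * (k * 1 + (k' - k) * 1 ^ 2 / 2) = (A' - A) * (k + k') / 2 := by ring
            have h7 : 0 ≤ (A' - A : ℝ) * (k + k') / 2 := by positivity
            linarith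
          · have := mul_le_mul_of_nonneg_left h4 lr
            linarith
        · rw [U2 a h, ← intervalIntegral.integral_add_adjacent_intervals (cU.intervalIntegrable (A : ℝ) A')
            (cU.intervalIntegrable (A' : ℝ) a), J1 _ hAr.le le_rfl]
          have e2 : ∫ u in (A' : ℝ)..a, U u = ∫ u in (A' : ℝ)..a, T u := by
            refine intervalIntegral.integral_congr fun u hu => ?_
            rw [uIcc_of_le h] at hu
            exact U2 u hu.1
          rw [e2]
          have h3 := hT a h' h2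
          have e3 : ((I + (A' - A) * (k + k') / 2 : ℚ) : ℝ) = I + (k * (A' - A) + sl * (A' - A) ^ 2 / 2) := by
            have es : sl * (A' - A) = k' - k := by linarith
            have : sl * (A' - A : ℝ) ^ 2 = (k' - k) * (A' - A) := by rw [← es]; ring
            rw [this]
            push_cast
            ring
          rw [e3] at h3
          have e4 : (I : ℝ) + (k * (A' - A) + sl * (A' - A) ^ 2 / 2 + ∫ u in (A' : ℝ)..a, T u) =
              I + (k * (A' - A) + sl * (A' - A) ^ 2 / 2) + ∫ u in (A' : ℝ)..a, T u := by ring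
          rw [e4]
          exact h3

/-- **the Hardy data of a certificate** -/
theorem hwd_of {L : List (ℚ × ℚ × ℕ)} (h : cert κ V N c s m lam L = true) {κ' V' : ℝ} (hκ' : κ ≤ κ')
    (hV' : V' ≤ V) : HwD (fun a => κ' * a) V' (lam * N) (fun a => lam * nbar N c s m a) 1 0 := by
  unfold cert at h
  simp only [Bool.and_eq_true, decide_eq_true_eq] at h
  obtain ⟨⟨⟨⟨⟨⟨⟨hκ, hN⟩, hc⟩, hs⟩, hsN⟩, hm⟩, hl⟩, hL⟩ := h
  have Nr : (0 : ℝ) ≤ N := by exact_mod_cast hN
  have cr : (0 : ℝ) ≤ c := by exact_mod_cast hc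
  have sr : (0 : ℝ) ≤ s := by exact_mod_cast hs
  have sNr : (s : ℝ) ≤ N := by exact_mod_cast hsN
  have mr : (0 : ℝ) ≤ m := by exact_mod_cast hm
  have lr : (0 : ℝ) ≤ lam := by exact_mod_cast hl
  obtain ⟨T, cT, TA, T0, hT⟩ := chk_ex hκ hN hc hs hm hl L 0 0 0 le_rfl le_rfl le_rfl hL
  simp only [Rat.cast_zero] at TA T0 hT
  refine ⟨fun x y hxy => mul_le_mul_of_nonneg_left (nbar_mono Nr sr hxy) lr, fun a ha => ?_,
    fun x y hxy => ?_, one_pos, le_rfl, ?_, ?_⟩
  · show (lam : ℝ) * nbar N c s m a = 0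
    rw [nbar_zero cr mr ha, mul_zero]
  · have h1 := mul_le_mul_of_nonneg_left (nbar_lip (c := (c : ℝ)) (m := (m : ℝ)) Nr sr sNr hxy) lr
    show (lam : ℝ) * nbar N c s m y ≤ lam * nbar N c s m x + lam * N * (y - x)
    linarith
  · rw [zero_div]
    positivity
  · refine ⟨fun a => if a ≤ 0 then 0 else T a, ?_, fun a ha => if_pos ha, fun a => ?_, fun a a0 aV => ?_⟩
    · refine Continuous.if_le continuous_const cT continuous_id continuous_const fun x hx => ?_
      have hx' : x = 0 := hx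
      rw [hx', TA]
    · dsimp only
      split_ifs with h
      · exact le_rfl
      · exact T0 a (not_le.1 h).le
    · have h1 := hT a a0 (aV.trans hV')
      have e : ∫ u in (0 : ℝ)..a, (if u ≤ 0 then 0 else T u) = ∫ u in (0 : ℝ)..a, T u := by
        refine intervalIntegral.integral_congr fun u hu => ?_
        rw [uIcc_of_le a0.le] at hu
        split_ifs with h
        · rw [le_antisymm h hu.1, TA]
        · rfl
      have e' : (fun a : ℝ => if a ≤ 0 then 0 else T a) a = T a := if_neg (not_le.2 a0)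
      rw [e, e', zero_div, zero_mul, min_self, add_zero]
      rw [zero_add] at h1
      refine h1.trans ?_
      have h2 : (κ : ℝ) * a ≤ κ' * a := mul_le_mul_of_nonneg_right hκ' a0.le
      exact mul_le_mul_of_nonneg_right h2 (T0 a a0.le)

end

end Pool.Agent.FPX.VKC
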