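import Mathlib
import Pool.Agent.FPX.VSE
import Pool.Agent.FPX.VKC

/-
VSN0 (helper5): the V stage from rational data (`stg_ofQ`) and the numbers `e^{3/5}`, `e^{34/25}`.
-/

open MeasureTheory Set Filter Topology

noncomputable section

namespace Pool.Agent.FPX.VST

open Pool.Agent.EWD Pool.Agent.FPX Pool.Agent.FPX.XCO

/-- the stage from rational data and a checked Hardy certificate -/
theorem stg_ofQ {κ : ℝ → ℝ} {al kap lam' q' A' B' : ℝ} (lam q A B N c s m : ℚ) {r τ X₀ c₀ c₁ XK x y : ℚ}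
    {L : List (ℚ × ℚ × ℕ)} (hκ : Kap κ) (hok : VOk κ al kap lam' q') (hcl : VCl κ A' B')
    (hl : lam' = lam) (hq' : q' = q) (hA' : A' = A) (hB' : B' = B)
    (hL : VKC.cert (5776 / 1000) (62832 / 10000) N c s m lam L = true)
    (hexp : (A : ℝ) + B * Real.exp (c₀ : ℝ) ≤ Real.exp (c₁ : ℝ)) (hN : 2 * Real.exp (c₀ : ℝ) ^ 2 ≤ N)
    (N0 : 0 ≤ N) (A0 : 0 ≤ A) (hc₁ : 0 ≤ c₁) (hr : 0 < r) (hc : X₀ - x < r * c) (hs : τ ≤ r * s) (hm : y ≤ m)
    (hq : q * y < XK) : Stg (r : ℝ) (τ : ℝ) 2 (X₀ : ℝ) (c₀ : ℝ) (c₁ : ℝ) (XK : ℝ) (x : ℝ) (y : ℝ) := by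
  subst hl hq' hA' hB'
  have h0 : (((5776 / 1000 : ℚ) : ℝ)) = 5776 / 1000 := by push_cast; ring
  have h1 : (((62832 / 10000 : ℚ) : ℝ)) = 62832 / 10000 := by push_cast; ring
  have hD := VKC.hwd_of hL (κ' := 5776 / 1000) (V' := 62832 / 10000) h0.le h1.ge
  have hpi := Real.pi_gt_d6
  have hpi2 := Real.pi_lt_d6
  have hlam := hok.lam0
  refine stg_of (V := 62832 / 10000) (N := (N : ℝ)) (c := (c : ℝ)) (s := (s : ℝ)) (m := (m : ℝ)) (b := 1) (f := 0)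
    (Bd := (lam : ℝ) * N) hκ hok hcl (by exact_mod_cast A0) (by exact_mod_cast hc₁) hexp hD
    (by norm_num) (by linarith) (by linarith) ?_ hN (by exact_mod_cast hr) (by exact_mod_cast hc)
    (by exact_mod_cast hs) (by exact_mod_cast hm) (by exact_mod_cast hq)
  exact mul_nonneg hlam (by exact_mod_cast N0)

/-! ### exponentials -/

theorem exp_3_5 : Real.exp ((3 / 5 : ℚ) : ℝ) ≤ 182222 / 100000 := by
  have h1 : Real.exp ((3 / 5 : ℚ) : ℝ) ^ 5 = Real.exp 1 ^ 3 := by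
    rw [← Real.exp_nat_mul, ← Real.exp_nat_mul]
    congr 1
    push_cast
    ring
  have h2 : Real.exp 1 ^ 3 ≤ 2.7182818286 ^ 3 := pow_le_pow_left₀ (Real.exp_pos _).le Real.exp_one_lt_d9.le 3
  refine le_of_pow_le_pow_left₀ (n := 5) (by norm_num) (by norm_num) ?_
  rw [h1]
  refine h2.trans ?_
  norm_num

theorem exp_34_25 : 38961 / 10000 ≤ Real.exp ((34 / 25 : ℚ) : ℝ) := by
  have h1 : Real.exp ((34 / 25 : ℚ) : ℝ) ^ 25 = Real.exp 1 ^ 34 := by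
    rw [← Real.exp_nat_mul, ← Real.exp_nat_mul]
    congr 1
    push_cast
    ring
  have h2 : 2.7182818283 ^ 34 ≤ Real.exp 1 ^ 34 := pow_le_pow_left₀ (by norm_num) Real.exp_one_gt_d9.le 34
  refine le_of_pow_le_pow_left₀ (n := 25) (by norm_num) (Real.exp_pos _).le ?_
  rw [h1]
  refine le_trans ?_ h2
  norm_num

/-- the class constant: `27/50 + 46/25 e^{3/5} ≤ e^{34/25}` -/
theorem cls_3_5 : ((27 / 50 : ℚ) : ℝ) + ((46 / 25 : ℚ) : ℝ) * Real.exp ((3 / 5 : ℚ) : ℝ) ≤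
    Real.exp ((34 / 25 : ℚ) : ℝ) := by
  have h1 := exp_3_5
  have h2 := exp_34_25
  push_cast at h1 h2 ⊢
  linarith

theorem N_3_5 : 2 * Real.exp ((3 / 5 : ℚ) : ℝ) ^ 2 ≤ ((6641 / 1000 : ℚ) : ℝ) := by
  have h1 := exp_3_5
  have h2 := pow_le_pow_left₀ (Real.exp_pos _).le h1 2
  push_cast at h2 ⊢
  linarith

end Pool.Agent.FPX.VST
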