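import Mathlib
import Pool.Agent.FPX.VLE
import Pool.Agent.FPX.VLH
import Pool.Agent.FPX.VSN0

/-
VSL0 (helper5): the V stage with the law LB from rational data (`stgL_ofQ`), the end of the stage
(`startPh_lb`) and the class constant `13/20 + 23/10 e^{3/5} ≤ e^{79/50}`.
-/

open MeasureTheory Set Filter Topology

noncomputable section

namespace Pool.Agent.FPX.VST

open Pool.Agent.EWD Pool.Agent.FPX Pool.Agent.FPX.XCO Pool.Agent.FPX.ASX Pool.Agent.FPX.VTB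

/-- the stage with the law LB from rational data and a checked Hardy certificate -/
theorem stgL_ofQ {κ : ℝ → ℝ} {al kap lam' q' D' sc' A' B' : ℝ} {LL : List (ℝ × ℝ × ℝ)}
    (lam q D sc A B N c s m : ℚ) {r τ X₀ c₀ c₁ XK x y : ℚ}
    {L : List (ℚ × ℚ × ℕ)} (hκ : Kap κ)
    (hok : ∀ p ∈ LL, VLOk κ al kap lam' q' D' sc' p.1 p.2.1 p.2.2) (hne : LL ≠ [])
    (hm' : ∀ s ∈ lbLn, ∃ p ∈ LL, p.1 = (s.2.1 : ℝ) ∧ p.2.1 = (s.2.2 : ℝ)) (hcl : VCl κ A' B')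
    (hl : lam' = lam) (hq' : q' = q) (hD' : D' = D) (hsc' : sc' = sc) (hA' : A' = A) (hB' : B' = B)
    (hL : VKC.cert (5776 / 1000) (62832 / 10000) N c s m lam L = true)
    (hexp : (A : ℝ) + B * Real.exp (c₀ : ℝ) ≤ Real.exp (c₁ : ℝ)) (hN : 2 * Real.exp (c₀ : ℝ) ^ 2 ≤ N)
    (he : 2 * eU c₁ ^ 2 ≤ 50) (hc15 : c₁ ≤ 15)
    (N0 : 0 ≤ N) (A0 : 0 ≤ A) (hc₁ : 0 ≤ c₁) (hr : 0 < r) (hc : X₀ - x < r * c) (hs : τ ≤ r * s) (hm : y ≤ m)
    (hsc : τ ≤ r * sc) (hDq : D ≤ q * r) (hq : q * y + D / r * (X₀ - y) < XK) :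
    StgL (pkG 0 1 (clQ lbL)) (r : ℝ) (τ : ℝ) 2 (X₀ : ℝ) (c₀ : ℝ) (c₁ : ℝ) (XK : ℝ) (x : ℝ) (y : ℝ) := by
  subst hl hq' hD' hsc' hA' hB'
  have h0 : (((5776 / 1000 : ℚ) : ℝ)) = 5776 / 1000 := by push_cast; ring
  have h1 : (((62832 / 10000 : ℚ) : ℝ)) = 62832 / 10000 := by push_cast; ring
  have hD := VKC.hwd_of hL (κ' := 5776 / 1000) (V' := 62832 / 10000) h0.le h1.ge
  have hpi := Real.pi_gt_d6
  have hpi2 := Real.pi_lt_d6
  obtain ⟨p0, hp0⟩ := List.exists_mem_of_ne_nil LL hne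
  have hlam := (hok p0 hp0).lam0
  have hpk : pkOk 1 (clQ lbL) := by simpa using qOk_pkOk lbL 1 lbL_ok
  have hcont : Continuous (pkG 0 1 (clQ lbL)) := (pen_pkG hpk).cont
  refine stgL_of (V := 62832 / 10000) (N := (N : ℝ)) (c := (c : ℝ)) (s := (s : ℝ)) (m := (m : ℝ)) (b := 1) (f := 0)
    (Bd := (lam : ℝ) * N) hκ LL hok hne hcont
    (line_of lbL_ok (by simp [lbLn]) lbLn_ok hm' hc15 he (by decide +kernel))
    hcl (by exact_mod_cast A0) (by exact_mod_cast hc₁) hexp hD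
    (by norm_num) (by linarith) (by linarith) ?_ hN (by exact_mod_cast hr) (by exact_mod_cast hc)
    (by exact_mod_cast hs) (by exact_mod_cast hm) (by exact_mod_cast hsc) (by exact_mod_cast hDq)
    (by exact_mod_cast hq)
  exact mul_nonneg hlam (by exact_mod_cast N0)

/-- the second condition for the law LB, `r = 1`, `τ = 7/15`, `θ = 43/250`, `c₀ = 3/5` -/
theorem theta_lb : ∀ x : ℝ, 0 ≤ x → x ≤ 2 * Real.exp ((3 / 5 : ℚ) : ℝ) ^ 2 →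
    pkG 0 1 (clQ lbL) x ≤ x + ((43 / 250 : ℚ) : ℝ) * max (((1 : ℚ) : ℝ) * x - ((7 / 15 : ℚ) : ℝ)) 0 :=
  theta_of (θ := 43 / 250) (r := 1) (τ := 7 / 15) (c₀ := 3 / 5) (x₁ := 1) (xm := 133 / 20) lbL_ok
    (by norm_num) (by decide +kernel)

theorem exp_79_50 : 48549 / 10000 ≤ Real.exp ((79 / 50 : ℚ) : ℝ) := by
  have h1 : Real.exp ((79 / 50 : ℚ) : ℝ) ^ 50 = Real.exp 1 ^ 79 := by
    rw [← Real.exp_nat_mul, ← Real.exp_nat_mul]
    congr 1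
    push_cast
    ring
  have h2 : 2.7182818283 ^ 79 ≤ Real.exp 1 ^ 79 := pow_le_pow_left₀ (by norm_num) Real.exp_one_gt_d9.le 79
  refine le_of_pow_le_pow_left₀ (n := 50) (by norm_num) (Real.exp_pos _).le ?_
  rw [h1]
  refine le_trans ?_ h2
  norm_num

/-- the class constant: `13/20 + 23/10 e^{3/5} ≤ e^{79/50}` -/
theorem clsL_3_5 : ((13 / 20 : ℚ) : ℝ) + ((23 / 10 : ℚ) : ℝ) * Real.exp ((3 / 5 : ℚ) : ℝ) ≤
    Real.exp ((79 / 50 : ℚ) : ℝ) := by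
  have h1 := exp_3_5
  have h2 := exp_79_50
  push_cast at h1 h2 ⊢
  linarith

end Pool.Agent.FPX.VST
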