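import Mathlib
import Pool.Agent.FPX.VSL0
import Pool.Agent.FPX.VLC525
import Pool.Agent.FPX.VLC550
import Pool.Agent.FPX.VLC575
import Pool.Agent.FPX.VLC600

/-
VSL (helper5, instances of helper30): the numbers of the V stage with the law LB: X_0 = .361, X_K = .3094 per copy, c_0 = 3/5, c_1 = 79/50.
-/

set_option maxRecDepth 1000000

noncomputable section

namespace Pool.Agent.FPX.VST

open Pool.Agent.EWD Pool.Agent.FPX Pool.Agent.FPX.XCO Pool.Agent.FPX.ASX Pool.Agent.FPX.VTB

theorem VLC525a_ne : VLC525_L ≠ [] := by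
  unfold VLC525_L
  exact List.cons_ne_nil _ _

theorem VLC525a_m : ∀ s ∈ lbLn, ∃ p ∈ VLC525_L, p.1 = (s.2.1 : ℝ) ∧ p.2.1 = (s.2.2 : ℝ) := by
  intro s hs
  unfold lbLn at hs
  simp only [List.mem_cons, List.not_mem_nil, or_false] at hs
  unfold VLC525_L
  rcases hs with rfl | rfl | rfl | rfl | rfl | rfl | rfl | rfl | rfl | rfl | rfl
  · exact ⟨_, List.mem_cons_self, by norm_num, by norm_num⟩
  · exact ⟨_, (List.mem_cons_of_mem _ List.mem_cons_self), by norm_num, by norm_num⟩
  · exact ⟨_, (List.mem_cons_of_mem _ (List.mem_cons_of_mem _ List.mem_cons_self)), by norm_num, by norm_num⟩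
  · exact ⟨_, (List.mem_cons_of_mem _ (List.mem_cons_of_mem _ (List.mem_cons_of_mem _ List.mem_cons_self))), by norm_num, by norm_num⟩
  · exact ⟨_, (List.mem_cons_of_mem _ (List.mem_cons_of_mem _ (List.mem_cons_of_mem _ (List.mem_cons_of_mem _ List.mem_cons_self)))), by norm_num, by norm_num⟩
  · exact ⟨_, (List.mem_cons_of_mem _ (List.mem_cons_of_mem _ (List.mem_cons_of_mem _ (List.mem_cons_of_mem _ (List.mem_cons_of_mem _ List.mem_cons_self))))), by norm_num, by norm_num⟩
  · exact ⟨_, (List.mem_cons_of_mem _ (List.mem_cons_of_mem _ (List.mem_cons_of_mem _ (List.mem_cons_of_mem _ (List.mem_cons_of_mem _ (List.mem_cons_of_mem _ List.mem_cons_self)))))), by norm_num, by norm_num⟩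
  · exact ⟨_, (List.mem_cons_of_mem _ (List.mem_cons_of_mem _ (List.mem_cons_of_mem _ (List.mem_cons_of_mem _ (List.mem_cons_of_mem _ (List.mem_cons_of_mem _ (List.mem_cons_of_mem _ List.mem_cons_self))))))), by norm_num, by norm_num⟩
  · exact ⟨_, (List.mem_cons_of_mem _ (List.mem_cons_of_mem _ (List.mem_cons_of_mem _ (List.mem_cons_of_mem _ (List.mem_cons_of_mem _ (List.mem_cons_of_mem _ (List.mem_cons_of_mem _ (List.mem_cons_of_mem _ List.mem_cons_self)))))))), by norm_num, by norm_num⟩
  · exact ⟨_, (List.mem_cons_of_mem _ (List.mem_cons_of_mem _ (List.mem_cons_of_mem _ (List.mem_cons_of_mem _ (List.mem_cons_of_mem _ (List.mem_cons_of_mem _ (List.mem_cons_of_mem _ (List.mem_cons_of_mem _ (List.mem_cons_of_mem _ List.mem_cons_self))))))))), by norm_num, by norm_num⟩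
  · exact ⟨_, (List.mem_cons_of_mem _ (List.mem_cons_of_mem _ (List.mem_cons_of_mem _ (List.mem_cons_of_mem _ (List.mem_cons_of_mem _ (List.mem_cons_of_mem _ (List.mem_cons_of_mem _ (List.mem_cons_of_mem _ (List.mem_cons_of_mem _ (List.mem_cons_of_mem _ List.mem_cons_self)))))))))), by norm_num, by norm_num⟩

theorem VLC550a_ne : VLC550_L ≠ [] := by
  unfold VLC550_L
  exact List.cons_ne_nil _ _

theorem VLC550a_m : ∀ s ∈ lbLn, ∃ p ∈ VLC550_L, p.1 = (s.2.1 : ℝ) ∧ p.2.1 = (s.2.2 : ℝ) := by
  intro s hs
  unfold lbLn at hs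
  simp only [List.mem_cons, List.not_mem_nil, or_false] at hs
  unfold VLC550_L
  rcases hs with rfl | rfl | rfl | rfl | rfl | rfl | rfl | rfl | rfl | rfl | rfl
  · exact ⟨_, List.mem_cons_self, by norm_num, by norm_num⟩
  · exact ⟨_, (List.mem_cons_of_mem _ List.mem_cons_self), by norm_num, by norm_num⟩
  · exact ⟨_, (List.mem_cons_of_mem _ (List.mem_cons_of_mem _ List.mem_cons_self)), by norm_num, by norm_num⟩
  · exact ⟨_, (List.mem_cons_of_mem _ (List.mem_cons_of_mem _ (List.mem_cons_of_mem _ List.mem_cons_self))), by norm_num, by norm_num⟩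
  · exact ⟨_, (List.mem_cons_of_mem _ (List.mem_cons_of_mem _ (List.mem_cons_of_mem _ (List.mem_cons_of_mem _ List.mem_cons_self)))), by norm_num, by norm_num⟩
  · exact ⟨_, (List.mem_cons_of_mem _ (List.mem_cons_of_mem _ (List.mem_cons_of_mem _ (List.mem_cons_of_mem _ (List.mem_cons_of_mem _ List.mem_cons_self))))), by norm_num, by norm_num⟩
  · exact ⟨_, (List.mem_cons_of_mem _ (List.mem_cons_of_mem _ (List.mem_cons_of_mem _ (List.mem_cons_of_mem _ (List.mem_cons_of_mem _ (List.mem_cons_of_mem _ List.mem_cons_self)))))), by norm_num, by norm_num⟩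
  · exact ⟨_, (List.mem_cons_of_mem _ (List.mem_cons_of_mem _ (List.mem_cons_of_mem _ (List.mem_cons_of_mem _ (List.mem_cons_of_mem _ (List.mem_cons_of_mem _ (List.mem_cons_of_mem _ List.mem_cons_self))))))), by norm_num, by norm_num⟩
  · exact ⟨_, (List.mem_cons_of_mem _ (List.mem_cons_of_mem _ (List.mem_cons_of_mem _ (List.mem_cons_of_mem _ (List.mem_cons_of_mem _ (List.mem_cons_of_mem _ (List.mem_cons_of_mem _ (List.mem_cons_of_mem _ List.mem_cons_self)))))))), by norm_num, by norm_num⟩
  · exact ⟨_, (List.mem_cons_of_mem _ (List.mem_cons_of_mem _ (List.mem_cons_of_mem _ (List.mem_cons_of_mem _ (List.mem_cons_of_mem _ (List.mem_cons_of_mem _ (List.mem_cons_of_mem _ (List.mem_cons_of_mem _ (List.mem_cons_of_mem _ List.mem_cons_self))))))))), by norm_num, by norm_num⟩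
  · exact ⟨_, (List.mem_cons_of_mem _ (List.mem_cons_of_mem _ (List.mem_cons_of_mem _ (List.mem_cons_of_mem _ (List.mem_cons_of_mem _ (List.mem_cons_of_mem _ (List.mem_cons_of_mem _ (List.mem_cons_of_mem _ (List.mem_cons_of_mem _ (List.mem_cons_of_mem _ List.mem_cons_self)))))))))), by norm_num, by norm_num⟩

theorem VLC575a_ne : VLC575_L ≠ [] := by
  unfold VLC575_L
  exact List.cons_ne_nil _ _

theorem VLC575a_m : ∀ s ∈ lbLn, ∃ p ∈ VLC575_L, p.1 = (s.2.1 : ℝ) ∧ p.2.1 = (s.2.2 : ℝ) := by
  intro s hs
  unfold lbLn at hs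
  simp only [List.mem_cons, List.not_mem_nil, or_false] at hs
  unfold VLC575_L
  rcases hs with rfl | rfl | rfl | rfl | rfl | rfl | rfl | rfl | rfl | rfl | rfl
  · exact ⟨_, List.mem_cons_self, by norm_num, by norm_num⟩
  · exact ⟨_, (List.mem_cons_of_mem _ List.mem_cons_self), by norm_num, by norm_num⟩
  · exact ⟨_, (List.mem_cons_of_mem _ (List.mem_cons_of_mem _ List.mem_cons_self)), by norm_num, by norm_num⟩
  · exact ⟨_, (List.mem_cons_of_mem _ (List.mem_cons_of_mem _ (List.mem_cons_of_mem _ List.mem_cons_self))), by norm_num, by norm_num⟩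
  · exact ⟨_, (List.mem_cons_of_mem _ (List.mem_cons_of_mem _ (List.mem_cons_of_mem _ (List.mem_cons_of_mem _ List.mem_cons_self)))), by norm_num, by norm_num⟩
  · exact ⟨_, (List.mem_cons_of_mem _ (List.mem_cons_of_mem _ (List.mem_cons_of_mem _ (List.mem_cons_of_mem _ (List.mem_cons_of_mem _ List.mem_cons_self))))), by norm_num, by norm_num⟩
  · exact ⟨_, (List.mem_cons_of_mem _ (List.mem_cons_of_mem _ (List.mem_cons_of_mem _ (List.mem_cons_of_mem _ (List.mem_cons_of_mem _ (List.mem_cons_of_mem _ List.mem_cons_self)))))), by norm_num, by norm_num⟩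
  · exact ⟨_, (List.mem_cons_of_mem _ (List.mem_cons_of_mem _ (List.mem_cons_of_mem _ (List.mem_cons_of_mem _ (List.mem_cons_of_mem _ (List.mem_cons_of_mem _ (List.mem_cons_of_mem _ List.mem_cons_self))))))), by norm_num, by norm_num⟩
  · exact ⟨_, (List.mem_cons_of_mem _ (List.mem_cons_of_mem _ (List.mem_cons_of_mem _ (List.mem_cons_of_mem _ (List.mem_cons_of_mem _ (List.mem_cons_of_mem _ (List.mem_cons_of_mem _ (List.mem_cons_of_mem _ List.mem_cons_self)))))))), by norm_num, by norm_num⟩
  · exact ⟨_, (List.mem_cons_of_mem _ (List.mem_cons_of_mem _ (List.mem_cons_of_mem _ (List.mem_cons_of_mem _ (List.mem_cons_of_mem _ (List.mem_cons_of_mem _ (List.mem_cons_of_mem _ (List.mem_cons_of_mem _ (List.mem_cons_of_mem _ List.mem_cons_self))))))))), by norm_num, by norm_num⟩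
  · exact ⟨_, (List.mem_cons_of_mem _ (List.mem_cons_of_mem _ (List.mem_cons_of_mem _ (List.mem_cons_of_mem _ (List.mem_cons_of_mem _ (List.mem_cons_of_mem _ (List.mem_cons_of_mem _ (List.mem_cons_of_mem _ (List.mem_cons_of_mem _ (List.mem_cons_of_mem _ List.mem_cons_self)))))))))), by norm_num, by norm_num⟩

theorem VLC600a_ne : VLC600_L ≠ [] := by
  unfold VLC600_L
  exact List.cons_ne_nil _ _

theorem VLC600a_m : ∀ s ∈ lbLn, ∃ p ∈ VLC600_L, p.1 = (s.2.1 : ℝ) ∧ p.2.1 = (s.2.2 : ℝ) := by
  intro s hs
  unfold lbLn at hs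
  simp only [List.mem_cons, List.not_mem_nil, or_false] at hs
  unfold VLC600_L
  rcases hs with rfl | rfl | rfl | rfl | rfl | rfl | rfl | rfl | rfl | rfl | rfl
  · exact ⟨_, List.mem_cons_self, by norm_num, by norm_num⟩
  · exact ⟨_, (List.mem_cons_of_mem _ List.mem_cons_self), by norm_num, by norm_num⟩
  · exact ⟨_, (List.mem_cons_of_mem _ (List.mem_cons_of_mem _ List.mem_cons_self)), by norm_num, by norm_num⟩
  · exact ⟨_, (List.mem_cons_of_mem _ (List.mem_cons_of_mem _ (List.mem_cons_of_mem _ List.mem_cons_self))), by norm_num, by norm_num⟩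
  · exact ⟨_, (List.mem_cons_of_mem _ (List.mem_cons_of_mem _ (List.mem_cons_of_mem _ (List.mem_cons_of_mem _ List.mem_cons_self)))), by norm_num, by norm_num⟩
  · exact ⟨_, (List.mem_cons_of_mem _ (List.mem_cons_of_mem _ (List.mem_cons_of_mem _ (List.mem_cons_of_mem _ (List.mem_cons_of_mem _ List.mem_cons_self))))), by norm_num, by norm_num⟩
  · exact ⟨_, (List.mem_cons_of_mem _ (List.mem_cons_of_mem _ (List.mem_cons_of_mem _ (List.mem_cons_of_mem _ (List.mem_cons_of_mem _ (List.mem_cons_of_mem _ List.mem_cons_self)))))), by norm_num, by norm_num⟩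
  · exact ⟨_, (List.mem_cons_of_mem _ (List.mem_cons_of_mem _ (List.mem_cons_of_mem _ (List.mem_cons_of_mem _ (List.mem_cons_of_mem _ (List.mem_cons_of_mem _ (List.mem_cons_of_mem _ List.mem_cons_self))))))), by norm_num, by norm_num⟩
  · exact ⟨_, (List.mem_cons_of_mem _ (List.mem_cons_of_mem _ (List.mem_cons_of_mem _ (List.mem_cons_of_mem _ (List.mem_cons_of_mem _ (List.mem_cons_of_mem _ (List.mem_cons_of_mem _ (List.mem_cons_of_mem _ List.mem_cons_self)))))))), by norm_num, by norm_num⟩
  · exact ⟨_, (List.mem_cons_of_mem _ (List.mem_cons_of_mem _ (List.mem_cons_of_mem _ (List.mem_cons_of_mem _ (List.mem_cons_of_mem _ (List.mem_cons_of_mem _ (List.mem_cons_of_mem _ (List.mem_cons_of_mem _ (List.mem_cons_of_mem _ List.mem_cons_self))))))))), by norm_num, by norm_num⟩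
  · exact ⟨_, (List.mem_cons_of_mem _ (List.mem_cons_of_mem _ (List.mem_cons_of_mem _ (List.mem_cons_of_mem _ (List.mem_cons_of_mem _ (List.mem_cons_of_mem _ (List.mem_cons_of_mem _ (List.mem_cons_of_mem _ (List.mem_cons_of_mem _ (List.mem_cons_of_mem _ List.mem_cons_self)))))))))), by norm_num, by norm_num⟩

def vsl_h0_0 : List (ℕ × ℕ) :=
    [(629, 1737), (746, 2062)]

def vsl_h0_1 : List (ℕ × ℕ) :=
    [(818, 1903), (928, 1714), (1054, 1547), (1193, 1403), (1357, 1272), (1548, 1155), (1768, 1052), (2019,
    963), (2307, 885), (2653, 815), (3055, 755), (3532, 703), (4074, 661), (4719, 625), (5565, 594), (6607,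
    571), (8007, 555), (9941, 550), (12453, 558), (16510, 589), (22711, 655), (34286, 801), (57803, 1128),
    (101243, 1773), (160460, 2709), (231508, 3915), (311939, 5398), (399713, 7176), (493579, 9288), (591598,
    11763), (692524, 14650), (764143, 16941)]

def vsl_h0_2 : List (ℕ × ℕ) :=
    [(969494, 16969), (1222387, 17538), (1508990, 18711), (1807364, 20472), (2101171, 22783), (2381141, 25619),
    (2644307, 28993), (2890271, 32946), (3119618, 37540), (3333329, 42856), (3532353, 48989), (3717739, 56054),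
    (3890369, 64180), (4051275, 73527), (4201193, 84267), (4340930, 96606), (4471186, 110777), (4592636,
    127051), (4705904, 145740), (4811549, 167200), (4910081, 191837), (5002000, 220124), (5087753, 252599),
    (5167763, 289884), (5242420, 332692), (5312070, 381829), (5377062, 438238), (5437712, 502998), (5494310,
    577344), (5547125, 662689), (5596413, 760663), (5642410, 873135), (5685336, 1002248), (5725396, 1150462),
    (5762782, 1320601), (5797675, 1515922), (5830240, 1740143), (5860632, 1997534), (5888997, 2293010),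
    (5915471, 2632216), (5940179, 3021606), (5963239, 3468606), (5984761, 3981738), (6004848, 4570796),
    (6023595, 5246986), (6041092, 6023220), (6057423, 6914337), (6072665, 7937295), (6086891, 9111629),
    (6100168, 10459663), (6112560, 12007171), (6124126, 13783675), (6134920, 15822844), (6144995, 18163852),
    (6154398, 20851125), (6163174, 23935926), (6171365, 27477138), (6179010, 31542296), (6186145, 36208638),
    (6192805, 41565887), (6199021, 47715782), (6204822, 54774787), (6210236, 62877592), (6215290, 72180848),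
    (6220007, 82860450), (6224409, 95118519), (6228518, 109191652), (6232353, 125346628), (6235932, 143889768),
    (6239272, 165173023), (6242390, 189609666), (6245300, 217660018), (6248016, 249859750), (6250551,
    286823671), (6252917, 329255589), (6255125, 377957728), (6257186, 433868583), (6259109, 498027052),
    (6260904, 571679149), (6262580, 656258056), (6264144, 753331335), (6265604, 864784180), (6266966,
    992655631), (6268237, 1139402427), (6269424, 1307948825), (6270532, 1501450270), (6271566, 1723545183),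
    (6272531, 1978468030), (6273431, 2270846784), (6274271, 2606404298), (6275055, 2991510559), (6275787,
    3433653133), (6276470, 3940939159), (6277108, 4523651799), (6277703, 5191909653), (6278259, 5959824534),
    (6278778, 6841422115), (6279262, 7852480384), (6279714, 9013622508), (6280136, 10346873301), (6280529,
    11873549391), (6280896, 13626201236), (6281239, 15640272158), (6281559, 17950799303), (6281858,
    20605659596), (6282137, 23652260936), (6282397, 27143148068), (6282640, 31154676959), (6282867,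
    35763223870), (6283078, 41029308395), (6283200, 44616954658)]

theorem vsl_h0_ok : VKC.cert (5776 / 1000) (62832 / 10000) (6641 / 1000) (23 / 5000) (7 / 15) (903 / 2500) 6
    (VKC.mk (1/1000000) (1/10000) 0 vsl_h0_0 ++ VKC.mk (1/1000000) (1/10000) 1 vsl_h0_1 ++
      VKC.mk (1/1000000) (1/10000) 2 vsl_h0_2) = true := by decide +kernel

def vsl_h1_0 : List (ℕ × ℕ) :=
    [(650, 1795), (1199, 3324)]

def vsl_h1_1 : List (ℕ × ℕ) :=
    [(1352, 3004), (1538, 2704), (1753, 2436), (1999, 2201), (2288, 1990), (2616, 1808), (2990, 1650), (3434,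
    1508), (3956, 1384), (4581, 1274), (5326, 1180), (6212, 1100), (7316, 1032), (8659, 978), (10382, 936),
    (12629, 909), (15685, 899), (19954, 913), (26725, 967), (37651, 1089), (57796, 1356), (94986, 1901),
    (151505, 2794), (221455, 3986), (301029, 5461), (388570, 7245), (482086, 9363), (580076, 11855), (680908,
    14762), (748929, 16951)]

def vsl_h1_2 : List (ℕ × ℕ) :=
    [(950268, 16937), (1199465, 17455), (1484243, 18575), (1783169, 20290), (2078032, 22555), (2359488, 25345),
    (2624436, 28673), (2872120, 32576), (3103061, 37114), (3318180, 42365), (3518421, 48421), (3705021, 55401),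
    (3878759, 63429), (4040685, 72663), (4191585, 83276), (4332207, 95467), (4463293, 109469), (4585522,
    125550), (4699506, 144016), (4805831, 165223), (4904996, 189570), (4997494, 217521), (5083782, 249609),
    (5164291, 286449), (5239405, 328740), (5309492, 377290), (5374890, 433024), (5435915, 497003), (5492870,
    570461), (5546019, 654788), (5595620, 751597), (5641907, 862727), (5685103, 990297), (5725416, 1136744),
    (5763038, 1304854), (5798151, 1497845), (5830922, 1719396), (5861506, 1973721), (5890050, 2265676),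
    (5916690, 2600826), (5941553, 2985558), (5964758, 3427216), (5986416, 3934230), (6006630, 4516269),
    (6025496, 5184424), (6043103, 5951389), (6059537, 6831883), (6074875, 7842636), (6089190, 9002906),
    (6102551, 10334886), (6115021, 11863916), (6126659, 13619070), (6137522, 15634070), (6147660, 17947018),
    (6157122, 20602113), (6165954, 23650313), (6174197, 27149438), (6181890, 31166010), (6189070, 35776702),
    (6195772, 41070062), (6202027, 47146403), (6207865, 54121741), (6213314, 62129404), (6218399, 71320392),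
    (6223145, 81870922), (6227575, 93983289), (6231710, 107888794), (6235569, 123850194), (6239171, 142174367),
    (6242532, 163203618), (6245669, 187343383), (6248597, 215054503), (6251330, 246866503), (6253881,
    283386918), (6256262, 325310872), (6258484, 373430132), (6260558, 428669958), (6262494, 492089879),
    (6264301, 564895057), (6265987, 648442088), (6267561, 744369931), (6269030, 854482159), (6270401,
    980874122), (6271680, 1125882784), (6272874, 1292360472), (6273989, 1483560050), (6275029, 1702888865),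
    (6276000, 1954724847), (6276906, 2243699463), (6277752, 2575548946), (6278541, 2956147146), (6279278,
    3393344822), (6279966, 3895294203), (6280608, 4471349093), (6281207, 5132324123), (6281766, 5890857180),
    (6282288, 6761924185), (6282775, 7761292286), (6283200, 8825884869)]

theorem vsl_h1_ok : VKC.cert (5776 / 1000) (62832 / 10000) (6641 / 1000) (37 / 5000) (7 / 15) (3569 / 10000) 6
    (VKC.mk (1/1000000) (1/10000) 0 vsl_h1_0 ++ VKC.mk (1/1000000) (1/10000) 1 vsl_h1_1 ++
      VKC.mk (1/1000000) (1/10000) 2 vsl_h1_2) = true := by decide +kernel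

def vsl_h2_0 : List (ℕ × ℕ) :=
    [(663, 1831), (1507, 4186)]

def vsl_h2_1 : List (ℕ × ℕ) :=
    [(1699, 3786), (1934, 3407), (2207, 3069), (2518, 2773), (2885, 2507), (3310, 2273), (3811, 2066), (4401,
    1884), (5106, 1724), (5926, 1589), (6909, 1472), (8118, 1372), (9587, 1290), (11443, 1224), (13777, 1177),
    (16784, 1149), (20920, 1144), (27020, 1174), (36299, 1259), (51986, 1448), (80838, 1852), (128385, 2584),
    (193058, 3662), (270088, 5058), (355693, 6761), (447743, 8792), (544280, 11178), (644234, 13972), (738858,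
    16975)]

def vsl_h2_2 : List (ℕ × ℕ) :=
    [(937699, 16936), (1184516, 17424), (1467644, 18512), (1765773, 20195), (2060816, 22431), (2343049, 25195),
    (2608696, 28494), (2856961, 32363), (3088822, 36870), (3304656, 42083), (3505536, 48095), (3692786, 55027),
    (3867196, 63004), (4029620, 72173), (4181006, 82713), (4322043, 94817), (4453529, 108720), (4576137,
    124688), (4690490, 143027), (4797153, 164087), (4896635, 188266), (4989440, 216028), (5076004, 247896),
    (5156763, 284480), (5232117, 326481), (5302435, 374704), (5368046, 430062), (5429270, 493612), (5486405,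
    566571), (5539719, 650321), (5589473, 746465), (5635905, 856837), (5679236, 983536), (5719675, 1128983),
    (5757414, 1295944), (5792636, 1487613), (5825509, 1707648), (5856189, 1960240), (5884822, 2250201),
    (5911545, 2583060), (5936486, 2965173), (5959764, 3403828), (5981489, 3907371), (6001766, 4485437),
    (6020690, 5149000), (6038353, 5910778), (6054838, 6785254), (6070224, 7789127), (6084584, 8941520),
    (6097986, 10264357), (6110495, 11782977), (6122170, 13526288), (6133066, 15527408), (6143236, 17824690),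
    (6152728, 20461871), (6161587, 23489164), (6169855, 26964160), (6177572, 30953355), (6184775, 35533053),
    (6191497, 40789657), (6197771, 46824002), (6203627, 53751364), (6209093, 61704210), (6214194, 70832547),
    (6218955, 81311381), (6223399, 93341543), (6227546, 107148846), (6231417, 123000429), (6235030, 141197324),
    (6238402, 162085228), (6241549, 186061203), (6244486, 213581196), (6247228, 245181140), (6249787,
    281453141), (6252175, 323083072), (6254404, 370874194), (6256484, 425721968), (6258426, 488702988),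
    (6260238, 560977012), (6261929, 643925897), (6263508, 739184973), (6264981, 848474316), (6266356,
    973935991), (6267640, 1118026292), (6268838, 1283371738), (6269956, 1473138694), (6271000, 1691079895),
    (6271974, 1941147791), (6272883, 2228159210), (6273731, 2557417791), (6274523, 2935580670), (6275262,
    3369512366), (6275952, 3867767363), (6276596, 4439675806), (6277197, 5096038665), (6277758, 5849494671),
    (6278281, 6713201311), (6278770, 7706252161), (6279226, 8845068635), (6279652, 10153430916), (6280049,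
    11652773628), (6280420, 13375693027), (6280766, 15351558340), (6281089, 17619558531), (6281390,
    20217861083), (6281671, 23199403221), (6281934, 26630477277), (6282179, 30560529344), (6282408,
    35077052765), (6282621, 40240843964), (6282820, 46169300004), (6283006, 52979938669), (6283180,
    60813611195), (6283200, 61821577967)]

theorem vsl_h2_ok : VKC.cert (5776 / 1000) (62832 / 10000) (6641 / 1000) (93 / 10000) (7 / 15) (3541 / 10000) 6
    (VKC.mk (1/1000000) (1/10000) 0 vsl_h2_0 ++ VKC.mk (1/1000000) (1/10000) 1 vsl_h2_1 ++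
      VKC.mk (1/1000000) (1/10000) 2 vsl_h2_2) = true := by decide +kernel

def vsl_h3_0 : List (ℕ × ℕ) :=
    [(701, 1778), (2496, 6407), (4082, 10591)]

def vsl_h3_1 : List (ℕ × ℕ) :=
    [(4653, 9538), (5328, 8584), (6108, 7741), (7023, 6990), (8087, 6330), (9337, 5748), (10813, 5236), (12562,
    4789), (14650, 4401), (17160, 4067), (20231, 3782), (24025, 3545), (28788, 3356), (34922, 3216), (43104,
    3132), (54273, 3119), (70395, 3206), (95028, 3453), (133173, 3959), (191369, 4870), (267970, 6227), (356448,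
    7983), (452176, 10117), (552787, 12654), (656078, 15624), (700715, 17038)]

def vsl_h3_2 : List (ℕ × ℕ) :=
    [(888745, 16895), (1125187, 17254), (1401891, 18203), (1698842, 19755), (1995839, 21868), (2281617, 24512),
    (2551337, 27687), (2803749, 31423), (3039268, 35776), (3258635, 40817), (3462954, 46638), (3653239, 53346),
    (3830446, 61065), (3995627, 69947), (4149509, 80154), (4292887, 91878), (4426574, 105348), (4551194,
    120815), (4667438, 138582), (4775848, 158983), (4876955, 182405), (4971270, 209297), (5059245, 240167),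
    (5141322, 275607), (5217906, 316295), (5289365, 363007), (5356040, 416629), (5418259, 478188), (5476321,
    548859), (5530504, 629989), (5581067, 723122), (5628253, 830034), (5672289, 952766), (5713385, 1093654),
    (5751741, 1255399), (5787537, 1441074), (5820945, 1654224), (5852124, 1898910), (5881223, 2179798),
    (5908381, 2502244), (5933728, 2872405), (5957384, 3297323), (5979463, 3785123), (6000069, 4345079),
    (6019301, 4987884), (6037251, 5725811), (6054004, 6572914), (6069640, 7545353), (6084233, 8661631),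
    (6097853, 9943057), (6110565, 11414076), (6122430, 13102814), (6133504, 15041426), (6143839, 17266708),
    (6153485, 19821214), (6162488, 22753675), (6170891, 26120073), (6178734, 29984648), (6186054, 34420930),
    (6192886, 39513575), (6199262, 45359150), (6205213, 52069552), (6210767, 59772228), (6215951, 68614774),
    (6220790, 78766785), (6225306, 90419715), (6229521, 103796758), (6233455, 119152764), (6237127, 136781899),
    (6240554, 157017996), (6243752, 180243451), (6246737, 206905776), (6249523, 237511602), (6252123,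
    272640061), (6254550, 312969170), (6256815, 359258399), (6258929, 412392556), (6260902, 473381198),
    (6262744, 543409689), (6264463, 623786245), (6266067, 716023693), (6267564, 821890067), (6268962,
    943480393), (6270266, 1082962184), (6271484, 1243191941), (6272620, 1426983996), (6273681, 1638097881),
    (6274671, 1880370390), (6275595, 2158466545), (6276457, 2477516635), (6277262, 2843937265), (6278013,
    3264330687), (6278714, 3746885825), (6279368, 4300488496), (6279979, 4936517162), (6280549, 5666210175),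
    (6281081, 6503704603), (6281578, 7465919316), (6282041, 8568188690), (6282474, 9835826961), (6282878,
    11290465308), (6283200, 12693073271)]

theorem vsl_h3_ok : VKC.cert (5776 / 1000) (62832 / 10000) (6641 / 1000) (63 / 2500) (7 / 15) (1761 / 5000) (23 / 4)
    (VKC.mk (1/1000000) (1/10000) 0 vsl_h3_0 ++ VKC.mk (1/1000000) (1/10000) 1 vsl_h3_1 ++
      VKC.mk (1/1000000) (1/10000) 2 vsl_h3_2) = true := by decide +kernel

def vsl_h4_0 : List (ℕ × ℕ) :=
    [(709, 1645), (2540, 5963), (5462, 13067), (7661, 18594)]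

def vsl_h4_1 : List (ℕ × ℕ) :=
    [(8800, 16748), (10133, 15103), (11690, 13646), (13519, 12356), (15669, 11221), (18212, 10223), (21255,
    9345), (24916, 8580), (29356, 7920), (34795, 7359), (41553, 6893), (50108, 6521), (61227, 6248), (76043,
    6091), (96251, 6080), (124995, 6272), (166973, 6770), (227455, 7720), (307152, 9223), (400140, 11258),
    (500623, 13789), (604465, 16804), (619286, 17271)]

def vsl_h4_2 : List (ℕ × ℕ) :=
    [(783730, 16907), (994992, 16987), (1252925, 17619), (1542333, 18857), (1841331, 20679), (2134139, 23045),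
    (2412727, 25937), (2674335, 29370), (2918758, 33388), (3146590, 38054), (3358890, 43452), (3556468, 49674),
    (3740601, 56844), (3912063, 65090), (4071797, 74569), (4220673, 85463), (4359449, 97979), (4488821, 112354),
    (4609483, 128867), (4721977, 147824), (4826905, 169592), (4924775, 194584), (5016079, 223279), (5101250,
    256219), (5180717, 294037), (5254863, 337453), (5324047, 387294), (5388609, 444516), (5448854, 510206),
    (5505070, 585613), (5557530, 672177), (5606488, 771552), (5652178, 885634), (5694817, 1016593), (5734610,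
    1166928), (5771749, 1339514), (5806409, 1537630), (5838757, 1765062), (5868947, 2026143), (5897123,
    2325850), (5923420, 2669904), (5947963, 3064860), (5970869, 3518247), (5992248, 4038726), (6012201,
    4636202), (6030824, 5322095), (6048205, 6109461), (6064427, 7013315), (6079567, 8050868), (6093698,
    9241966), (6106887, 10609309), (6119196, 12178866), (6130685, 13980742), (6141408, 16049212), (6151416,
    18423699), (6160757, 21149573), (6169475, 24278666), (6177612, 27870821), (6185206, 31994150), (6192294,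
    36727694), (6198909, 42161143), (6205083, 48398375), (6210846, 55559114), (6216224, 63777958), (6221244,
    73213621), (6225929, 84044345), (6230302, 96478218), (6234383, 110749715), (6238192, 127132388), (6241747,
    145937794), (6245065, 167524507), (6248162, 192305572), (6251053, 220757047), (6253751, 253414172),
    (6256269, 290899673), (6258619, 333926628), (6260813, 383333266), (6262860, 440027272), (6264771,
    505121958), (6266554, 579817405), (6268219, 665604826), (6269773, 764084875), (6271223, 877100721),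
    (6272576, 1006794096), (6273839, 1155684266), (6275018, 1326619330), (6276118, 1522752798), (6277145,
    1747952452), (6278103, 2006287988), (6278998, 2303100022), (6279833, 2643668263), (6280612, 3034395261),
    (6281339, 3482789660), (6282018, 3997790708), (6282652, 4589196683), (6283200, 5212668385)]

theorem vsl_h4_ok : VKC.cert (5776 / 1000) (62832 / 10000) (6641 / 1000) (473 / 10000) (7 / 15) (3363 / 10000) (11 / 2)
    (VKC.mk (1/1000000) (1/10000) 0 vsl_h4_0 ++ VKC.mk (1/1000000) (1/10000) 1 vsl_h4_1 ++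
      VKC.mk (1/1000000) (1/10000) 2 vsl_h4_2) = true := by decide +kernel

def vsl_h5_0 : List (ℕ × ℕ) :=
    [(3586, 7715), (10188, 22849)]

def vsl_h5_1 : List (ℕ × ℕ) :=
    [(13889, 18318), (19150, 14826), (26794, 12171), (38302, 10202), (56565, 8833), (88056, 8078), (149616,
    8202), (281582, 10176), (488783, 14950), (538500, 16335)]

def vsl_h5_2 : List (ℕ × ℕ) :=
    [(894769, 15375), (1482386, 16461), (2178737, 20076), (2821812, 25980), (3378776, 34347), (3856394, 45810),
    (4265873, 61357), (4617246, 82360), (4919150, 110696), (5178725, 148893), (5402053, 200368), (5594264,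
    269719), (5759750, 363148), (5902256, 489007), (6024992, 658546), (6130712, 886920), (6221784, 1194549),
    (6283200, 1500577)]

theorem vsl_h5_ok : VKC.cert (5776 / 1000) (62832 / 10000) (6641 / 1000) (629 / 10000) (7 / 15) (1571 / 5000) (21 / 4)
    (VKC.mk (1/1000000) (1/10000) 0 vsl_h5_0 ++ VKC.mk (1/1000000) (1/10000) 1 vsl_h5_1 ++
      VKC.mk (1/1000000) (1/10000) 2 vsl_h5_2) = true := by decide +kernel

theorem vsl_s0 : StgL (pkG 0 1 (clQ lbL)) ((1 : ℚ) : ℝ) ((7 / 15 : ℚ) : ℝ) 2 ((361 / 1000 : ℚ) : ℝ) ((3 / 5 : ℚ) : ℝ) ((79 / 50 : ℚ) : ℝ)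
    ((1547 / 5000 : ℚ) : ℝ) ((3569 / 10000 : ℚ) : ℝ) ((903 / 2500 : ℚ) : ℝ) :=
  stgL_ofQ 6 (1709 / 2000) (171 / 1000) (47 / 100) (13 / 20) (23 / 10) (6641 / 1000) (23 / 5000) (7 / 15) (903 / 2500)
    VLC600_kf.kap VLC600_ok VLC600a_ne VLC600a_m VLC600_cl (by norm_num) (by norm_num) (by norm_num) (by norm_num)
    (by norm_num) (by norm_num) vsl_h0_ok clsL_3_5 N_3_5 (by decide +kernel) (by norm_num) (by norm_num)
    (by norm_num) (by norm_num) (by norm_num) (by norm_num) (by norm_num) (by norm_num) (by norm_num)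
    (by norm_num) (by norm_num)

theorem vsl_s1 : StgL (pkG 0 1 (clQ lbL)) ((1 : ℚ) : ℝ) ((7 / 15 : ℚ) : ℝ) 2 ((361 / 1000 : ℚ) : ℝ) ((3 / 5 : ℚ) : ℝ) ((79 / 50 : ℚ) : ℝ)
    ((1547 / 5000 : ℚ) : ℝ) ((3541 / 10000 : ℚ) : ℝ) ((3569 / 10000 : ℚ) : ℝ) :=
  stgL_ofQ 6 (1709 / 2000) (171 / 1000) (47 / 100) (13 / 20) (23 / 10) (6641 / 1000) (37 / 5000) (7 / 15) (3569 / 10000)
    VLC600_kf.kap VLC600_ok VLC600a_ne VLC600a_m VLC600_cl (by norm_num) (by norm_num) (by norm_num) (by norm_num)
    (by norm_num) (by norm_num) vsl_h1_ok clsL_3_5 N_3_5 (by decide +kernel) (by norm_num) (by norm_num)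
    (by norm_num) (by norm_num) (by norm_num) (by norm_num) (by norm_num) (by norm_num) (by norm_num)
    (by norm_num) (by norm_num)

theorem vsl_s2 : StgL (pkG 0 1 (clQ lbL)) ((1 : ℚ) : ℝ) ((7 / 15 : ℚ) : ℝ) 2 ((361 / 1000 : ℚ) : ℝ) ((3 / 5 : ℚ) : ℝ) ((79 / 50 : ℚ) : ℝ)
    ((1547 / 5000 : ℚ) : ℝ) ((1761 / 5000 : ℚ) : ℝ) ((3541 / 10000 : ℚ) : ℝ) :=
  stgL_ofQ 6 (1709 / 2000) (171 / 1000) (47 / 100) (13 / 20) (23 / 10) (6641 / 1000) (93 / 10000) (7 / 15) (3541 / 10000)
    VLC600_kf.kap VLC600_ok VLC600a_ne VLC600a_m VLC600_cl (by norm_num) (by norm_num) (by norm_num) (by norm_num)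
    (by norm_num) (by norm_num) vsl_h2_ok clsL_3_5 N_3_5 (by decide +kernel) (by norm_num) (by norm_num)
    (by norm_num) (by norm_num) (by norm_num) (by norm_num) (by norm_num) (by norm_num) (by norm_num)
    (by norm_num) (by norm_num)

theorem vsl_s3 : StgL (pkG 0 1 (clQ lbL)) ((1 : ℚ) : ℝ) ((7 / 15 : ℚ) : ℝ) 2 ((361 / 1000 : ℚ) : ℝ) ((3 / 5 : ℚ) : ℝ) ((79 / 50 : ℚ) : ℝ)
    ((1547 / 5000 : ℚ) : ℝ) ((3363 / 10000 : ℚ) : ℝ) ((1761 / 5000 : ℚ) : ℝ) :=
  stgL_ofQ (23 / 4) (1743 / 2000) (349 / 2000) (47 / 100) (13 / 20) (23 / 10) (6641 / 1000) (63 / 2500) (7 / 15) (1761 / 5000)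
    VLC575_kf.kap VLC575_ok VLC575a_ne VLC575a_m VLC575_cl (by norm_num) (by norm_num) (by norm_num) (by norm_num)
    (by norm_num) (by norm_num) vsl_h3_ok clsL_3_5 N_3_5 (by decide +kernel) (by norm_num) (by norm_num)
    (by norm_num) (by norm_num) (by norm_num) (by norm_num) (by norm_num) (by norm_num) (by norm_num)
    (by norm_num) (by norm_num)

theorem vsl_s4 : StgL (pkG 0 1 (clQ lbL)) ((1 : ℚ) : ℝ) ((7 / 15 : ℚ) : ℝ) 2 ((361 / 1000 : ℚ) : ℝ) ((3 / 5 : ℚ) : ℝ) ((79 / 50 : ℚ) : ℝ)
    ((1547 / 5000 : ℚ) : ℝ) ((1571 / 5000 : ℚ) : ℝ) ((3363 / 10000 : ℚ) : ℝ) :=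
  stgL_ofQ (11 / 2) (889 / 1000) (89 / 500) (47 / 100) (13 / 20) (23 / 10) (6641 / 1000) (473 / 10000) (7 / 15) (3363 / 10000)
    VLC550_kf.kap VLC550_ok VLC550a_ne VLC550a_m VLC550_cl (by norm_num) (by norm_num) (by norm_num) (by norm_num)
    (by norm_num) (by norm_num) vsl_h4_ok clsL_3_5 N_3_5 (by decide +kernel) (by norm_num) (by norm_num)
    (by norm_num) (by norm_num) (by norm_num) (by norm_num) (by norm_num) (by norm_num) (by norm_num)
    (by norm_num) (by norm_num)

theorem vsl_s5 : StgL (pkG 0 1 (clQ lbL)) ((1 : ℚ) : ℝ) ((7 / 15 : ℚ) : ℝ) 2 ((361 / 1000 : ℚ) : ℝ) ((3 / 5 : ℚ) : ℝ) ((79 / 50 : ℚ) : ℝ)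
    ((1547 / 5000 : ℚ) : ℝ) ((1493 / 5000 : ℚ) : ℝ) ((1571 / 5000 : ℚ) : ℝ) :=
  stgL_ofQ (21 / 4) (907 / 1000) (567 / 2500) (47 / 100) (13 / 20) (23 / 10) (6641 / 1000) (629 / 10000) (7 / 15) (1571 / 5000)
    VLC525_kf.kap VLC525_ok VLC525a_ne VLC525a_m VLC525_cl (by norm_num) (by norm_num) (by norm_num) (by norm_num)
    (by norm_num) (by norm_num) vsl_h5_ok clsL_3_5 N_3_5 (by decide +kernel) (by norm_num) (by norm_num)
    (by norm_num) (by norm_num) (by norm_num) (by norm_num) (by norm_num) (by norm_num) (by norm_num)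
    (by norm_num) (by norm_num)

/-- **THE V STAGE WITH THE LAW LB (numbers)**: X_0 = .361 and X_K = .3094 (per copy) -/
theorem vstage_lb (h : StartR ((1 : ℚ) : ℝ) ((7 / 15 : ℚ) : ℝ) 2 ((361 / 1000 : ℚ) : ℝ) ((3 / 5 : ℚ) : ℝ)) :
    StartPh (pkG 0 1 (clQ lbL)) 2 ((1547 / 5000 : ℚ) : ℝ) ((79 / 50 : ℚ) : ℝ) := by
  have hpk : pkOk 1 (clQ lbL) := by simpa using qOk_pkOk lbL 1 lbL_ok
  refine startPh_of_stgL (pen_pkG hpk).cont (Xt := ((903 / 2500 : ℚ) : ℝ)) (x₁ := ((1493 / 5000 : ℚ) : ℝ)) (θ := ((43 / 250 : ℚ) : ℝ)) h (by norm_num) le_rfl (by norm_num)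
    [(((3569 / 10000 : ℚ) : ℝ), ((903 / 2500 : ℚ) : ℝ)), (((3541 / 10000 : ℚ) : ℝ), ((3569 / 10000 : ℚ) : ℝ)), (((1761 / 5000 : ℚ) : ℝ), ((3541 / 10000 : ℚ) : ℝ)), (((3363 / 10000 : ℚ) : ℝ), ((1761 / 5000 : ℚ) : ℝ)), (((1571 / 5000 : ℚ) : ℝ), ((3363 / 10000 : ℚ) : ℝ)), (((1493 / 5000 : ℚ) : ℝ), ((1571 / 5000 : ℚ) : ℝ))] ?_ ?_ (by norm_num) (by norm_num) theta_lb (by norm_num)
  · intro p hp
    simp only [List.mem_cons, List.not_mem_nil, or_false] at hp
    rcases hp with rfl | rfl | rfl | rfl | rfl | rfl
    · exact vsl_s0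
    · exact vsl_s1
    · exact vsl_s2
    · exact vsl_s3
    · exact vsl_s4
    · exact vsl_s5
  · intro X h1 h2
    rcases le_total ((3569 / 10000 : ℚ) : ℝ) X with h3 | h3
    · exact ⟨_, List.mem_cons_self, h3, h2⟩
    rcases le_total ((3541 / 10000 : ℚ) : ℝ) X with h4 | h4
    · exact ⟨_, List.mem_cons_of_mem _ List.mem_cons_self, h4, h3⟩
    rcases le_total ((1761 / 5000 : ℚ) : ℝ) X with h5 | h5
    · exact ⟨_, List.mem_cons_of_mem _ (List.mem_cons_of_mem _ List.mem_cons_self), h5, h4⟩
    rcases le_total ((3363 / 10000 : ℚ) : ℝ) X with h6 | h6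
    · exact ⟨_, List.mem_cons_of_mem _ (List.mem_cons_of_mem _ (List.mem_cons_of_mem _ List.mem_cons_self)), h6, h5⟩
    rcases le_total ((1571 / 5000 : ℚ) : ℝ) X with h7 | h7
    · exact ⟨_, List.mem_cons_of_mem _ (List.mem_cons_of_mem _ (List.mem_cons_of_mem _ (List.mem_cons_of_mem _ List.mem_cons_self))), h7, h6⟩
    exact ⟨_, List.mem_cons_of_mem _ (List.mem_cons_of_mem _ (List.mem_cons_of_mem _ (List.mem_cons_of_mem _ (List.mem_cons_of_mem _ List.mem_cons_self)))), h1, h7⟩

end Pool.Agent.FPX.VST
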