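import Mathlib
import Pool.Agent.FPX.MCT
import Pool.Agent.FPX.MCI_1
import Pool.Agent.FPX.MCI_2
import Pool.Agent.FPX.MCI_3
import Pool.Agent.FPX.MCI_4
import Pool.Agent.FPX.MCI_5

/-
MCJ: the modulus closing, assembled from its certified cells (generated by mcigen93.py, helper93).
-/

noncomputable section

namespace Pool.Agent.FPX.MCJ

/-- the bound of the sum of all charges (per copy) -/
def X : ℚ := 44 / 125

/-- the slopes of the price of `c` -/
def L : List (ℚ × ℚ) := [(6 / 25, 360639 / 8000000), (1 / 1000, 16971247 / 250000000), (319 / 1000, 16971247 / 250000000), (1 / 1000, 50913741 / 500000000), (439 / 1000, 50913741 / 500000000), (1 / 1000, 841491 / 5000000), (519 / 1000, 841491 / 5000000), (1 / 1000, 294399183 / 1000000000), (639 / 1000, 294399183 / 1000000000)]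

/-- the certified cells -/
def Cl : List (MCL.Cert 2) := [⟨MCI_1.D, MCI_1.cell⟩, ⟨MCI_2.D, MCI_2.cell⟩, ⟨MCI_3.D, MCI_3.cell⟩, ⟨MCI_4.D, MCI_4.cell⟩, ⟨MCI_5.D, MCI_5.cell⟩]

theorem top : MCL.topC (722 / 125) X (999 / 1000) (34 / 25) (360639 / 8000000) L (Cl.map MCL.Cert.D) = true := by
  decide +kernel

/-- **the modulus closing** -/
theorem mc_closes : ASX.ClosesE (fun x => x) 2 ((34 / 25 : ℚ) : ℝ) ((X : ℚ) : ℝ) :=
  MCL.closes_ofC (by norm_num) Cl top

end Pool.Agent.FPX.MCJ
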