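import Mathlib
import Pool.Agent.FPX.EEND
import Pool.Agent.FPX.EROW
import Pool.Agent.FPX.EROWB
import Pool.Agent.FPX.ESZ
import Pool.Agent.FPX.ENB
import Pool.Agent.FPX.VSN
import Pool.Agent.FPX.MCJ

/-
EFINV (helper38): the sharp bound for isometric fillings: the certificate(s) of the start map, its bound, the numbers and
the closing theorem put together.
-/

open MeasureTheory Set Filter Topology Complex
open scoped ENNReal NNReal ContDiff ComplexConjugate Manifold

noncomputable section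

namespace Pool.Agent.FPX.EFINV

open Pool.Agent.FPX.CEL
open Pool.Agent.FPX.EJN
open Pool.Agent.FPX.BV (PsiL)
open Pool.Agent.FPX.FSW (BkZ SzZ)
open Pool.Agent.FPX.FST
open Pool.Agent.FPX.ASL (WL)

/-- **the sharp bound for isometric fillings** -/
theorem two_pi (M : Type) [MetricSpace M] [CompactSpace M] [ChartedSpace (EuclideanHalfSpace 2) M]
    [Pool.Agent.H74.Surf.RiemannianSpace (𝓡∂ 2) M]
    (horient : Pool.Agent.H74.Surf.Orientable (𝓡∂ 2) M) (σ : Pool.Agent.H74.Surf.S1 → M)
    (hσ : Pool.Agent.H74.Surf.IsometricFilling (𝓡∂ 2) σ) :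
    ENNReal.ofReal (2 * Real.pi) ≤ Pool.Agent.H74.Surf.area M :=
  EEND.two_pi_v (r := 1) (τ := 7 / 15) (X₀ := 157 / 400) (XK := 7 / 20) ESZ.sz EDAT.okL EROW.certA EROWB.certB (by decide +kernel)
    (by decide +kernel) ENB.nb EDAT.w0_le (by decide +kernel :
    EEND.numOk EDAT.muA EDAT.TA EDAT.w0 ENB.N (3 / 5) (157 / 400) = true) VST.vstage MCJ.mc_closes (by decide +kernel) M horient σ hσ

end Pool.Agent.FPX.EFINV
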