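import Mathlib
import Pool.Agent.FPX.F54J
import Pool.Agent.FPX.F54I
import Pool.Agent.FPX.C54B

/-
ENF (helper23): the joint energy bound of helper54's map. For a pair of variations with
`h² + k² ≤ 1` the two velocities satisfy `(1 - |σ|)² (|v_h|² + |v_k|²) ≤ 2`, from the linear equation
`v - σ conj v = L_1` and Bessel's inequality for the first harmonic.
-/

open MeasureTheory Set Filter Topology Real intervalIntegral
open scoped ComplexConjugate ENNReal NNReal

noncomputable section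

namespace Pool.Agent.FPX.ENF

open Pool.Agent.FPX.UMP (Ef)
open Pool.Agent.FPX.F54 Pool.Agent.FPX.C54 Pool.Agent.FPX.UXA

variable {x y : ℝ}

/-- `∫ Re (conj z ε)² dα = π |z|²` -/
theorem int_re_sq (h : x ^ 2 + y ^ 2 < 1) (z : ℂ) :
    ∫ t in (0 : ℝ)..(2 * π), (conj z * ep x y t).re ^ 2 * al x y t = π * ‖z‖ ^ 2 := by
  have e : ∀ t, (conj z * ep x y t).re ^ 2 * al x y t =
      1 / 2 * ‖z‖ ^ 2 * al x y t + 1 / 2 * (conj z ^ 2 * kz 2 x y t).re := by
    intro t
    have h1 : ‖conj z * ep x y t‖ ^ 2 = ‖z‖ ^ 2 := by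
      rw [norm_mul, norm_ep h t, mul_one, RCLike.norm_conj]
    have h2 : kz 2 x y t = (al x y t : ℂ) * ep x y t ^ 2 := by
      unfold kz
      norm_cast
    have h3 : (conj z ^ 2 * kz 2 x y t).re = al x y t * ((conj z * ep x y t) ^ 2).re := by
      rw [h2]
      have : conj z ^ 2 * ((al x y t : ℂ) * ep x y t ^ 2) =
          (al x y t : ℂ) * (conj z * ep x y t) ^ 2 := by ring
      rw [this, Complex.re_ofReal_mul]
    rw [h3, ← h1, ← Complex.normSq_eq_norm_sq, Complex.normSq_apply]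
    generalize conj z * ep x y t = w
    have h4 : (w ^ 2).re = w.re * w.re - w.im * w.im := by rw [sq, Complex.mul_re]
    rw [h4]
    ring
  have ck := cont_kz h 2
  have ca := cont_al h
  rw [integral_congr fun t _ => e t, intervalIntegral.integral_add, intervalIntegral.integral_const_mul,
    intervalIntegral.integral_const_mul, int_al h]
  · have h4 : ∫ t in (0 : ℝ)..(2 * π), (conj z ^ 2 * kz 2 x y t).re = 0 := by
      have h5 : ∫ t in (0 : ℝ)..(2 * π), (conj z ^ 2 * kz 2 x y t).re =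
          (∫ t in (0 : ℝ)..(2 * π), conj z ^ 2 * kz 2 x y t).re := by
        exact Complex.reCLM.intervalIntegral_comp_comm
          ((continuous_const.mul ck).intervalIntegrable 0 (2 * π))
      rw [h5, intervalIntegral.integral_const_mul, int_kz h (by norm_num), mul_zero]
      rfl
    rw [h4]
    ring
  · exact (continuous_const.mul ca).intervalIntegrable _ _
  · exact (continuous_const.mul (Complex.continuous_re.comp (continuous_const.mul ck))).intervalIntegrable
      _ _

/-- Bessel's inequality for the first harmonic of a real function -/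
theorem Lm_sq_le (h : x ^ 2 + y ^ 2 < 1) {g : ℝ → ℝ} (hm : Measurable g) (hb : ∀ t, |g t| ≤ 1) :
    ‖Lm 1 x y g‖ ^ 2 ≤ 1 / π * ∫ t in (0 : ℝ)..(2 * π), g t ^ 2 * al x y t := by
  have hpi := pi_pos
  have ca := cont_al h
  have ce' := cont_ep h
  set z := Lm 1 x y g with hz
  have i1 : IntervalIntegrable (fun t => g t ^ 2 * al x y t) volume 0 (2 * π) := by
    have := ii_mul (g := fun t => al x y t) (h := fun t => g t ^ 2) ca (hm.pow_const 2) (D := 1)
      (fun t => by
        rw [abs_of_nonneg (sq_nonneg _), ← sq_abs]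
        have := hb t
        have := abs_nonneg (g t)
        nlinarith) 0 (2 * π)
    refine this.congr_ae (Eventually.of_forall fun t => ?_)
    ring
  have i2 : IntervalIntegrable (fun t => (conj z * ep x y t).re ^ 2 * al x y t) volume 0 (2 * π) :=
    (((Complex.continuous_re.comp (continuous_const.mul ce')).pow 2).mul ca).intervalIntegrable _ _
  have i3 : IntervalIntegrable (fun t => (conj z * ep x y t).re * al x y t * g t) volume 0 (2 * π) :=
    ii_mul ((Complex.continuous_re.comp (continuous_const.mul ce')).mul ca) hm hb 0 (2 * π)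
  have key : ‖z‖ ^ 2 = 1 / π * ∫ t in (0 : ℝ)..(2 * π), (conj z * ep x y t).re * al x y t * g t := by
    have h1 : (‖z‖ ^ 2 : ℝ) = (conj z * z).re := by
      rw [← Complex.normSq_eq_norm_sq, Complex.normSq_apply, Complex.mul_re]
      simp
    have h2 : conj z * z = ((1 / π : ℝ) : ℂ) * ∫ t in (0 : ℝ)..(2 * π),
        conj z * (((g t : ℝ) : ℂ) * KK 1 x y t) := by
      rw [intervalIntegral.integral_const_mul]
      nth_rewrite 2 [hz]
      unfold Lm
      ring
    have ik : IntervalIntegrable (fun t => conj z * (((g t : ℝ) : ℂ) * KK 1 x y t)) volume 0 (2 * π) := by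
      have ck := C54.cont_KK h 1
      have h3 := ii_bd (κ := fun t => ((g t : ℝ) : ℂ)) (g := fun t => conj z * KK 1 x y t)
        (Complex.measurable_ofReal.comp hm) (D := 1) (fun t => by
          rw [Complex.norm_real]
          exact hb t) (continuous_const.mul ck) 0 (2 * π)
      refine h3.congr_ae (Eventually.of_forall fun t => ?_)
      ring
    rw [h1, h2, Complex.re_ofReal_mul]
    congr 1
    refine (Complex.reCLM.intervalIntegral_comp_comm ik).symm.trans (integral_congr fun t _ => ?_)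
    change (conj z * (((g t : ℝ) : ℂ) * KK 1 x y t)).re = _
    rw [KK_eq h, pow_one]
    have : conj z * (((g t : ℝ) : ℂ) * (↑(al x y t) * ep x y t)) =
        ((g t * al x y t : ℝ) : ℂ) * (conj z * ep x y t) := by
      push_cast
      ring
    rw [this, Complex.re_ofReal_mul]
    ring
  have h7 : ∫ t in (0 : ℝ)..(2 * π), (conj z * ep x y t).re * al x y t * g t ≤
      ∫ t in (0 : ℝ)..(2 * π), (1 / 2 * (g t ^ 2 * al x y t) +
        1 / 2 * ((conj z * ep x y t).re ^ 2 * al x y t)) := by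
    refine intervalIntegral.integral_mono_on (by positivity) i3
      ((i1.const_mul _).add (i2.const_mul _)) fun t _ => ?_
    have ha := (al_pos h t).le
    have := mul_nonneg ha (sq_nonneg ((conj z * ep x y t).re - g t))
    nlinarith
  rw [intervalIntegral.integral_add (i1.const_mul _) (i2.const_mul _), intervalIntegral.integral_const_mul,
    intervalIntegral.integral_const_mul, int_re_sq h z] at h7
  have h8 : ‖z‖ ^ 2 ≤ 1 / π * (1 / 2 * (∫ t in (0 : ℝ)..(2 * π), g t ^ 2 * al x y t)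
      + 1 / 2 * (π * ‖z‖ ^ 2)) := key.le.trans (mul_le_mul_of_nonneg_left h7 (by positivity))
  have h9 : 1 / π * (1 / 2 * (∫ t in (0 : ℝ)..(2 * π), g t ^ 2 * al x y t)
      + 1 / 2 * (π * ‖z‖ ^ 2)) = 1 / 2 * (1 / π * ∫ t in (0 : ℝ)..(2 * π), g t ^ 2 * al x y t)
        + 1 / 2 * ‖z‖ ^ 2 := by
    field_simp
  rw [h9] at h8
  linarith

/-- Bessel's inequality for a pair of variations -/
theorem Lm_pair (h : x ^ 2 + y ^ 2 < 1) {g k : ℝ → ℝ} (V : Var g k) :
    ‖Lm 1 x y g‖ ^ 2 + ‖Lm 1 x y k‖ ^ 2 ≤ 2 := by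
  have hpi := pi_pos
  have ca := cont_al h
  have j : ∀ {g : ℝ → ℝ}, Measurable g → (∀ t, |g t| ≤ 1) →
      IntervalIntegrable (fun t => g t ^ 2 * al x y t) volume 0 (2 * π) := fun {g} hm hb => by
    have := ii_mul (g := fun t => al x y t) (h := fun t => g t ^ 2) ca (hm.pow_const 2) (D := 1)
      (fun t => by
        rw [abs_of_nonneg (sq_nonneg _), ← sq_abs]
        have := hb t
        have := abs_nonneg (g t)
        nlinarith) 0 (2 * π)
    refine this.congr_ae (Eventually.of_forall fun t => ?_)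
    ring
  have h1 := Lm_sq_le h V.mesh V.bh
  have h2 := Lm_sq_le h V.mesk V.bk
  have h3 : (∫ t in (0 : ℝ)..(2 * π), g t ^ 2 * al x y t) +
      ∫ t in (0 : ℝ)..(2 * π), k t ^ 2 * al x y t ≤ 2 * π := by
    rw [← intervalIntegral.integral_add (j V.mesh V.bh) (j V.mesk V.bk)]
    refine le_trans (intervalIntegral.integral_mono_on (by positivity)
      ((j V.mesh V.bh).add (j V.mesk V.bk)) (ca.intervalIntegrable _ _) fun t _ => ?_) (int_al h).le
    have ha := (al_pos h t).le
    have := mul_le_mul_of_nonneg_right (V.sq t) ha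
    linarith
  have h4 := mul_le_mul_of_nonneg_left h3 (show 0 ≤ 1 / π by positivity)
  have h5 : 1 / π * (2 * π) = 2 := by field_simp
  rw [h5, mul_add] at h4
  linarith

/-- the energy of a pair of velocities -/
theorem pair_le (h : x ^ 2 + y ^ 2 < 1) {σ v₁ v₂ : ℂ} {g k : ℝ → ℝ} (V : Var g k)
    (e1 : v₁ - σ * conj v₁ = Lm 1 x y g) (e2 : v₂ - σ * conj v₂ = Lm 1 x y k) {s : ℝ}
    (hs : ‖σ‖ ≤ s) (hs1 : s < 1) : ‖v₁‖ ^ 2 + ‖v₂‖ ^ 2 ≤ 2 / (1 - s) ^ 2 := by
  have h1 := v_le e1
  have h2 := v_le e2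
  have h3 := Lm_pair h V
  have hs0 : 0 < 1 - s := by linarith
  have k : ∀ {v L : ℂ}, (1 - ‖σ‖) * ‖v‖ ≤ ‖L‖ → (1 - s) ^ 2 * ‖v‖ ^ 2 ≤ ‖L‖ ^ 2 := by
    intro v L hh
    rw [← mul_pow]
    refine pow_le_pow_left₀ (by positivity) ?_ 2
    refine le_trans ?_ hh
    exact mul_le_mul_of_nonneg_right (by linarith) (norm_nonneg _)
  rw [le_div_iff₀ (by positivity)]
  have k1 := k h1
  have k2 := k h2
  linarith

/-- **the energy of helper54's map**, in the smooth frame -/
theorem F54_le {s : ℝ} {f h k : ℝ → ℝ} (hf : Ef f) (V : Var h k)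
    (hs : ‖sg (X1 f) (X2 f) f‖ ≤ s) (hs1 : s < 1) :
    Complex.normSq (vv (X1 f) (X2 f) (dX1 f h) (dX2 f h))
      + Complex.normSq (vv (X1 f) (X2 f) (dX1 f k) (dX2 f k)) ≤ 2 / (1 - s) ^ 2 := by
  have hlt := X_lt hf
  have j : ∀ {g : ℝ → ℝ}, Measurable g → (∀ t, |g t| ≤ 1) → IntervalIntegrable g volume 0 (2 * π) :=
    fun {g} hm hb => by
      have := ii_mul (g := fun _ => 1) continuous_const hm hb 0 (2 * π)
      simpa using this
  have h1 := dX_spec hf h
  have h2 := dX_spec hf k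
  have e1 := veq hlt hf (X_G1 hf) (X_G2 hf) (j V.mesh V.bh) h1.1 h1.2
  have e2 := veq hlt hf (X_G1 hf) (X_G2 hf) (j V.mesk V.bk) h2.1 h2.2
  rw [Complex.normSq_eq_norm_sq, Complex.normSq_eq_norm_sq]
  exact pair_le hlt V e1 e2 hs hs1

/-- the same on the sphere, coordinate by coordinate -/
theorem F54_le' {s : ℝ} {f h k : ℝ → ℝ} (hf : Ef f) (V : Var h k)
    (hs : ‖sg (X1 f) (X2 f) f‖ ≤ s) (hs1 : s < 1) :
    dX1 f h ^ 2 + dX2 f h ^ 2 + ((X1 f * dX1 f h + X2 f * dX2 f h) / ce (X1 f) (X2 f)) ^ 2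
      + (dX1 f k ^ 2 + dX2 f k ^ 2 + ((X1 f * dX1 f k + X2 f * dX2 f k) / ce (X1 f) (X2 f)) ^ 2)
      ≤ 2 / (1 - s) ^ 2 := by
  have h0 := F54_le hf V hs hs1
  rw [vv_sq (X_lt hf), vv_sq (X_lt hf)] at h0
  exact h0

end Pool.Agent.FPX.ENF
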