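import Mathlib
import Pool.Agent.FPX.IMH

/-
EVI (helper94): the isoperimetric inequality for the images of the level lines of an EVEN function
`χ` under an odd Lipschitz map `v` into the two sphere. With `V(t) = ∫_{|χ| < t} |dχ ∧ dv|` and
`α(t) = ∫_{t < |χ|} jac v` one has `2 α (2 π - α) ≤ V'(t)²` for almost every `t > 0`.
The bound for the kernel is `∫_S cot θ cos ψ ≤ √(e (1 - e) / 2)` for a set of probability `e`.
-/

open MeasureTheory Set Filter Topology
open scoped ENNReal NNReal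

noncomputable section

namespace Pool.Agent.FPX

open Pool.Agent.EWD

/-! ### the bathtub bound for the odd kernel -/

private theorem evi_abs (a l : ℝ) :
    ∫ t in (0 : ℝ)..Real.pi, |a * Real.cos t - l * Real.sin t| = 2 * √(a ^ 2 + l ^ 2) := by
  set z : ℂ := ⟨a, l⟩ with hz
  have h1 : ‖z‖ * Real.cos z.arg = a := Complex.norm_mul_cos_arg z
  have h2 : ‖z‖ * Real.sin z.arg = l := Complex.norm_mul_sin_arg z
  have h3 : ‖z‖ = √(a ^ 2 + l ^ 2) := by
    rw [Complex.norm_def, Complex.normSq_mk]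
    congr 1
    ring
  have hper : Function.Periodic (fun s : ℝ => |Real.cos s|) Real.pi := by
    intro s
    simp only [Real.cos_add_pi, abs_neg]
  have e : ∀ t, |a * Real.cos t - l * Real.sin t| = ‖z‖ * |Real.cos (t + z.arg)| := by
    intro t
    have e1 : a * Real.cos t - l * Real.sin t = ‖z‖ * Real.cos (t + z.arg) := by
      rw [Real.cos_add]
      linear_combination (-Real.cos t) * h1 + Real.sin t * h2
    rw [e1, abs_mul, abs_of_nonneg (norm_nonneg z)]
  have h4 : ∫ s in (-(Real.pi / 2))..(Real.pi / 2), |Real.cos s| = 2 := by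
    have hpi := Real.pi_pos
    have h5 : ∫ s in (-(Real.pi / 2))..(Real.pi / 2), |Real.cos s| =
        ∫ s in (-(Real.pi / 2))..(Real.pi / 2), Real.cos s := by
      refine intervalIntegral.integral_congr fun s hs => ?_
      rw [uIcc_of_le (by linarith)] at hs
      exact abs_of_nonneg (Real.cos_nonneg_of_mem_Icc hs)
    rw [h5, integral_cos, Real.sin_neg, Real.sin_pi_div_two]
    norm_num
  have h6 : ∫ s in z.arg..(Real.pi + z.arg), |Real.cos s| = 2 := by
    have h7 := hper.intervalIntegral_add_eq z.arg (-(Real.pi / 2))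
    rw [show -(Real.pi / 2) + Real.pi = Real.pi / 2 by ring, h4, add_comm] at h7
    exact h7
  have h8 : ∫ t in (0 : ℝ)..Real.pi, |Real.cos (t + z.arg)| = 2 := by
    have h9 := intervalIntegral.integral_comp_add_right (a := 0) (b := Real.pi)
      (fun s : ℝ => |Real.cos s|) z.arg
    rw [zero_add, h6] at h9
    exact h9
  simp_rw [e]
  rw [intervalIntegral.integral_const_mul, h8, h3]
  ring

private theorem evi_pos (a l : ℝ) : ∫⁻ t in Ioo 0 Real.pi,
    ENNReal.ofReal (max 0 (a * Real.cos t - l * Real.sin t)) =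
      ENNReal.ofReal (√(a ^ 2 + l ^ 2) - l) := by
  have hpi := Real.pi_pos
  have hc : Continuous fun t : ℝ => max 0 (a * Real.cos t - l * Real.sin t) := by fun_prop
  have h1 : ∫⁻ t in Ioo 0 Real.pi, ENNReal.ofReal (max 0 (a * Real.cos t - l * Real.sin t)) =
      ENNReal.ofReal (∫ t in (0 : ℝ)..Real.pi, max 0 (a * Real.cos t - l * Real.sin t)) := by
    rw [intervalIntegral.integral_of_le hpi.le, ← restrict_Ioo_eq_restrict_Ioc,
      ofReal_integral_eq_lintegral_ofReal]
    · exact (hc.integrableOn_Icc).mono_set Ioo_subset_Icc_self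
    · exact Eventually.of_forall fun t => le_max_left _ _
  have h2 : ∀ x : ℝ, max 0 x = (1 / 2) * (x + |x|) := by
    intro x
    rcases le_total 0 x with h | h
    · rw [max_eq_right h, abs_of_nonneg h]
      ring
    · rw [max_eq_left h, abs_of_nonpos h]
      ring
  rw [h1]
  congr 1
  simp_rw [h2]
  have c1 : Continuous fun t : ℝ => a * Real.cos t - l * Real.sin t := by fun_prop
  have c2 : Continuous fun t : ℝ => |a * Real.cos t - l * Real.sin t| := by fun_prop
  rw [intervalIntegral.integral_const_mul, intervalIntegral.integral_add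
    (c1.intervalIntegrable _ _) (c2.intervalIntegrable _ _), evi_abs,
    intervalIntegral.integral_sub ((by fun_prop : Continuous fun t : ℝ => a * Real.cos t).intervalIntegrable _ _)
      ((by fun_prop : Continuous fun t : ℝ => l * Real.sin t).intervalIntegrable _ _),
    intervalIntegral.integral_const_mul, intervalIntegral.integral_const_mul, integral_cos,
    integral_sin, Real.sin_pi, Real.sin_zero, Real.cos_zero, Real.cos_pi]
  ring

private theorem evi_sph_lint {w l : ℝ} (hw : 0 < w) :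
    ∫⁻ p : E3, ENNReal.ofReal (max 0 (w * p 0 * p 2 / (1 - p 2 ^ 2) - l)) ∂PP ≤
      ENNReal.ofReal ((√(w ^ 2 / 2 + l ^ 2) - l) / 2) := by
  have hpi := Real.pi_pos
  set F : E3 → ℝ≥0∞ := fun p => ENNReal.ofReal (max 0 (w * p 0 * p 2 / (1 - p 2 ^ 2) - l)) with hF
  have hFm : Measurable F := by
    simp only [hF]
    fun_prop
  have h2 := lint_sph3 hFm
  have h3 : ∀ t ∈ Ioo 0 Real.pi, ∫⁻ φ in Ioo (-Real.pi) Real.pi, ENNReal.ofReal (Real.sin t) *
      F (sph3 t φ) = ∫⁻ φ in Ioo (-Real.pi) Real.pi,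
        ENNReal.ofReal (max 0 ((w * Real.cos φ) * Real.cos t - l * Real.sin t)) := by
    intro t ht
    have hs : 0 < Real.sin t := Real.sin_pos_of_pos_of_lt_pi ht.1 ht.2
    refine lintegral_congr fun φ => ?_
    simp only [hF]
    rw [← ENNReal.ofReal_mul hs.le]
    congr 1
    change Real.sin t * max 0 (w * (Real.sin t * Real.cos φ) * Real.cos t / (1 - Real.cos t ^ 2) - l) = _
    rw [mul_max_of_nonneg _ _ hs.le, mul_zero]
    congr 1
    have h4 : 1 - Real.cos t ^ 2 = Real.sin t ^ 2 := by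
      have := Real.sin_sq_add_cos_sq t
      linarith
    rw [h4]
    field_simp
  rw [setLIntegral_congr_fun measurableSet_Ioo h3] at h2
  rw [lintegral_lintegral_swap (by fun_prop)] at h2
  simp_rw [evi_pos] at h2
  set ρ : ℝ := √(w ^ 2 / 2 + l ^ 2) with hρ
  have hρ0 : 0 < ρ := Real.sqrt_pos.2 (by positivity)
  have hρ2 : ρ ^ 2 = w ^ 2 / 2 + l ^ 2 := Real.sq_sqrt (by positivity)
  have hρl : l ≤ ρ := by
    refine (le_abs_self l).trans (abs_le_of_sq_le_sq ?_ hρ0.le)
    rw [hρ2]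
    nlinarith [sq_nonneg w]
  -- Jensen
  have h5 : ∀ φ : ℝ, √((w * Real.cos φ) ^ 2 + l ^ 2) - l ≤
      ((w * Real.cos φ) ^ 2 + l ^ 2 + ρ ^ 2) / (2 * ρ) - l := by
    intro φ
    refine sub_le_sub_right ?_ l
    set y : ℝ := √((w * Real.cos φ) ^ 2 + l ^ 2) with hy
    have hy2 : y ^ 2 = (w * Real.cos φ) ^ 2 + l ^ 2 := Real.sq_sqrt (by positivity)
    rw [← hy2, le_div_iff₀ (by positivity)]
    nlinarith [sq_nonneg (y - ρ)]
  have h6 : ∫⁻ φ in Ioo (-Real.pi) Real.pi, ENNReal.ofReal (√((w * Real.cos φ) ^ 2 + l ^ 2) - l) ≤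
      ENNReal.ofReal (2 * Real.pi * (ρ - l)) := by
    refine (lintegral_mono fun φ => ENNReal.ofReal_le_ofReal (h5 φ)).trans_eq ?_
    have hc : Continuous fun φ : ℝ => ((w * Real.cos φ) ^ 2 + l ^ 2 + ρ ^ 2) / (2 * ρ) - l := by
      fun_prop
    have h7 : ∫⁻ φ in Ioo (-Real.pi) Real.pi, ENNReal.ofReal
        (((w * Real.cos φ) ^ 2 + l ^ 2 + ρ ^ 2) / (2 * ρ) - l) = ENNReal.ofReal
        (∫ φ in (-Real.pi)..Real.pi, (((w * Real.cos φ) ^ 2 + l ^ 2 + ρ ^ 2) / (2 * ρ) - l)) := by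
      rw [intervalIntegral.integral_of_le (by linarith), ← restrict_Ioo_eq_restrict_Ioc,
        ofReal_integral_eq_lintegral_ofReal]
      · exact (hc.integrableOn_Icc).mono_set Ioo_subset_Icc_self
      · refine Eventually.of_forall fun φ => ?_
        have h8 := h5 φ
        have h9 : l ≤ √((w * Real.cos φ) ^ 2 + l ^ 2) := by
          refine (le_abs_self l).trans (Real.abs_le_sqrt ?_)
          nlinarith [sq_nonneg (w * Real.cos φ)]
        simp only [Pi.zero_apply]
        linarith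
    rw [h7]
    congr 1
    have e1 : ∀ φ : ℝ, ((w * Real.cos φ) ^ 2 + l ^ 2 + ρ ^ 2) / (2 * ρ) - l =
        w ^ 2 / (2 * ρ) * Real.cos φ ^ 2 + ((l ^ 2 + ρ ^ 2) / (2 * ρ) - l) := by
      intro φ
      field_simp
      ring
    simp_rw [e1]
    rw [intervalIntegral.integral_add ((by fun_prop : Continuous fun φ : ℝ =>
      w ^ 2 / (2 * ρ) * Real.cos φ ^ 2).intervalIntegrable _ _) intervalIntegrable_const,
      intervalIntegral.integral_const_mul, integral_cos_sq, intervalIntegral.integral_const,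
      Real.sin_neg, Real.sin_pi, smul_eq_mul]
    have e2 : w ^ 2 = 2 * (ρ ^ 2 - l ^ 2) := by linarith
    rw [e2]
    field_simp
    ring
  rw [← h2] at h6
  rw [show 2 * Real.pi * (ρ - l) = (4 * Real.pi) * ((ρ - l) / 2) by ring,
    ENNReal.ofReal_mul (p := 4 * Real.pi) (q := (ρ - l) / 2) (by positivity)] at h6
  exact (ENNReal.mul_le_mul_iff_right (a := ENNReal.ofReal (4 * Real.pi)) (by
    rw [Ne, ENNReal.ofReal_eq_zero, not_le]; positivity) ENNReal.ofReal_ne_top).1 h6

/-- the odd kernel -/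
def oke (v W p : E3) : ℝ := inner ℝ p W * inner ℝ v p / (1 - (inner ℝ v p : ℝ) ^ 2)

theorem oke_half {v W p : E3} (hv : ‖v‖ = 1) (hp : ‖p‖ = 1) (hW : inner ℝ v W = (0 : ℝ))
    (hq : 0 < sq2 v p) : oke v W p = (1 / 2) * (inner ℝ p W / (1 - inner ℝ v p) -
      inner ℝ p W / (1 - inner ℝ (-v) p)) := by
  obtain ⟨h1, h2, -⟩ := bth_abs hv hp hW hq
  unfold oke
  rw [inner_neg_left, sub_neg_eq_add]
  have h3 : 1 - (inner ℝ v p : ℝ) ^ 2 = (1 - inner ℝ v p) * (1 + inner ℝ v p) := by ring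
  rw [h3]
  field_simp
  ring

private theorem evi_sq2_neg (v p : E3) : sq2 (-v) p = sq2 v p := by
  unfold sq2
  rw [inner_neg_left, neg_sq]

theorem oke_abs {v W p : E3} (hv : ‖v‖ = 1) (hp : ‖p‖ = 1) (hW : inner ℝ v W = (0 : ℝ))
    (hq : 0 < sq2 v p) : |oke v W p| ≤ 2 * ‖W‖ * (1 / √(sq2 v p)) := by
  have hv' : ‖-v‖ = 1 := by rw [norm_neg, hv]
  have hW' : inner ℝ (-v) W = (0 : ℝ) := by rw [inner_neg_left, hW, neg_zero]
  have h1 := (bth_abs hv hp hW hq).2.2
  have h2 := (bth_abs hv' hp hW' (by rw [evi_sq2_neg]; exact hq)).2.2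
  rw [evi_sq2_neg] at h2
  rw [oke_half hv hp hW hq, abs_mul, abs_of_pos (by norm_num : (0 : ℝ) < 1 / 2)]
  have h3 := abs_sub (inner ℝ p W / (1 - inner ℝ v p) : ℝ) (inner ℝ p W / (1 - inner ℝ (-v) p))
  linarith

theorem oke_int {v W : E3} (hv : ‖v‖ = 1) (hW : inner ℝ v W = (0 : ℝ)) :
    Integrable (fun p => oke v W p) PP := by
  refine ((int_inv hv).1.const_mul (2 * ‖W‖)).mono' ?_ ?_
  · unfold oke
    exact (by fun_prop : Measurable fun p : E3 => inner ℝ p W * inner ℝ v p /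
      (1 - (inner ℝ v p : ℝ) ^ 2)).aestronglyMeasurable
  · filter_upwards [ae_norm, ae_sq2 v hv] with p hp hq
    rw [Real.norm_eq_abs]
    exact oke_abs hv hp hW hq

theorem oke_lint {v W : E3} (hv : ‖v‖ = 1) (hW : inner ℝ v W = (0 : ℝ)) (h0 : W ≠ 0) (l : ℝ) :
    ∫⁻ p, ENNReal.ofReal (max 0 (oke v W p - l)) ∂PP ≤
      ENNReal.ofReal ((√(‖W‖ ^ 2 / 2 + l ^ 2) - l) / 2) := by
  have hw : 0 < ‖W‖ := norm_pos_iff.2 h0
  set m : E3 := (‖W‖⁻¹ : ℝ) • W with hm
  have hWm : W = ‖W‖ • m := by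
    rw [hm, smul_smul, mul_inv_cancel₀ hw.ne', one_smul]
  have hm1 : ‖m‖ = 1 := by
    rw [hm, norm_smul, norm_inv, norm_norm, inv_mul_cancel₀ hw.ne']
  have hvv : inner ℝ v v = (1 : ℝ) := by rw [real_inner_self_eq_norm_sq, hv, one_pow]
  have hmm : inner ℝ m m = (1 : ℝ) := by rw [real_inner_self_eq_norm_sq, hm1, one_pow]
  have hvm : inner ℝ v m = (0 : ℝ) := by rw [hm, inner_smul_right, hW, mul_zero]
  have hmv : inner ℝ m v = (0 : ℝ) := by rw [real_inner_comm, hvm]
  have hn1 : ‖crs v m‖ = 1 := norm_crs_one hvv hmm hvm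
  obtain ⟨R, hR⟩ := frame_iso hm1 hn1 hv (inner_crs_right v m) hmv (by
    rw [real_inner_comm]; exact inner_crs_left v m)
  set F : E3 → ℝ≥0∞ := fun p => ENNReal.ofReal (max 0 (‖W‖ * p 0 * p 2 / (1 - p 2 ^ 2) - l)) with hF
  have hFm : Measurable F := by
    simp only [hF]
    fun_prop
  have e1 : ∀ p, ENNReal.ofReal (max 0 (oke v W p - l)) = F (R p) := by
    intro p
    simp only [hF]
    rw [(hR p).1, (hR p).2.2]
    have e2 : (inner ℝ p W : ℝ) = ‖W‖ * inner ℝ m p := by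
      conv_lhs => rw [hWm]
      rw [inner_smul_right, real_inner_comm]
    unfold oke
    rw [e2]
  rw [lintegral_congr e1, (mp_rot R).lintegral_comp hFm]
  exact evi_sph_lint hw

theorem oke_lam {v W : E3} (hv : ‖v‖ = 1) (hW : inner ℝ v W = (0 : ℝ)) (h0 : W ≠ 0) {E : Set E3}
    (l : ℝ) : ∫ p in E, oke v W p ∂PP ≤ l * PP.real E + (√(‖W‖ ^ 2 / 2 + l ^ 2) - l) / 2 := by
  have hw : 0 < ‖W‖ := norm_pos_iff.2 h0
  have hK := oke_int hv hW
  set X : E3 → ℝ := fun p => max 0 (oke v W p - l) with hX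
  have hXm : Measurable X := by
    simp only [hX]
    unfold oke
    fun_prop
  have hX0 : ∀ p, 0 ≤ X p := fun p => le_max_left _ _
  have hl := oke_lint hv hW h0 l
  have hρl : 0 ≤ (√(‖W‖ ^ 2 / 2 + l ^ 2) - l) / 2 := by
    have : l ≤ √(‖W‖ ^ 2 / 2 + l ^ 2) := by
      refine (le_abs_self l).trans (Real.abs_le_sqrt ?_)
      nlinarith [sq_nonneg ‖W‖]
    linarith
  have hXi : Integrable X PP := by
    refine ⟨hXm.aestronglyMeasurable, ?_⟩
    rw [hasFiniteIntegral_iff_ofReal (Eventually.of_forall hX0)]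
    exact hl.trans_lt ENNReal.ofReal_lt_top
  have hXv : ∫ p, X p ∂PP ≤ (√(‖W‖ ^ 2 / 2 + l ^ 2) - l) / 2 := by
    rw [integral_eq_lintegral_of_nonneg_ae (Eventually.of_forall hX0) hXm.aestronglyMeasurable]
    exact ENNReal.toReal_le_of_le_ofReal hρl hl
  have h2 : ∫ p in E, (oke v W p - l) ∂PP ≤ ∫ p in E, X p ∂PP :=
    integral_mono (hK.sub (integrable_const l)).integrableOn hXi.integrableOn
      fun p => le_max_right _ _
  have h3 : ∫ p in E, X p ∂PP ≤ ∫ p, X p ∂PP :=
    setIntegral_le_integral hXi (Eventually.of_forall hX0)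
  have h5 : (PP.restrict E).real univ = PP.real E := by
    rw [measureReal_def, Measure.restrict_apply_univ, measureReal_def]
  rw [integral_sub hK.integrableOn (integrable_const l), integral_const, smul_eq_mul, h5] at h2
  linarith

/-- **The bathtub bound for the odd kernel.** -/
theorem oke_bath {v W : E3} (hv : ‖v‖ = 1) (hW : inner ℝ v W = (0 : ℝ)) (E : Set E3) :
    ∫ p in E, oke v W p ∂PP ≤ ‖W‖ / √2 * √(PP.real E * (1 - PP.real E)) := by
  rcases eq_or_ne W 0 with h0 | h0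
  · rw [h0]
    simp [oke]
  have hw0 : 0 < ‖W‖ := norm_pos_iff.2 h0
  set w : ℝ := ‖W‖ / √2 with hwd
  have hw : 0 < w := by positivity
  have hw2 : ‖W‖ ^ 2 / 2 = w ^ 2 := by
    rw [hwd, div_pow, Real.sq_sqrt (by norm_num)]
  clear_value w
  set e : ℝ := PP.real E with he
  have he0 : 0 ≤ e := measureReal_nonneg
  have he1 : e ≤ 1 := measureReal_le_one
  rcases he0.eq_or_lt with h1 | h1
  · have h2 : PP E = 0 := by
      rw [he, measureReal_def] at h1
      rcases (ENNReal.toReal_eq_zero_iff _).1 h1.symm with h3 | h3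
      · exact h3
      · exact absurd h3 (measure_ne_top _ _)
    rw [setIntegral_measure_zero _ h2]
    positivity
  rcases he1.eq_or_lt with h2 | h2
  · rw [h2, sub_self, mul_zero, Real.sqrt_zero, mul_zero]
    by_contra h3
    rw [not_le] at h3
    set I := ∫ p in E, oke v W p ∂PP with hI
    have h4 := oke_lam hv hW h0 (E := E) (-(w ^ 2 / I))
    rw [← he, h2, ← hI, hw2] at h4
    set L : ℝ := w ^ 2 / I with hL
    have hL0 : 0 < L := by positivity
    have h5 : √(w ^ 2 + (-L) ^ 2) ≤ L + w ^ 2 / (2 * L) := by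
      refine Real.sqrt_le_iff.2 ⟨by positivity, ?_⟩
      have h6 : (L + w ^ 2 / (2 * L)) ^ 2 = L ^ 2 + w ^ 2 + (w ^ 2 / (2 * L)) ^ 2 := by
        field_simp
        ring
      rw [h6]
      nlinarith [sq_nonneg (w ^ 2 / (2 * L))]
    have h7 : w ^ 2 / (2 * L) = I / 2 := by
      rw [hL]
      field_simp
    rw [h7] at h5
    linarith
  · have hp : 0 < e * (1 - e) := by nlinarith
    set r : ℝ := √(e * (1 - e)) with hr
    have hr0 : 0 < r := Real.sqrt_pos.2 hp
    have hr2 : r ^ 2 = e * (1 - e) := Real.sq_sqrt hp.le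
    have h3 := oke_lam hv hW h0 (E := E) (w * (1 - 2 * e) / (2 * r))
    have h4 : ‖W‖ ^ 2 / 2 + (w * (1 - 2 * e) / (2 * r)) ^ 2 = (w / (2 * r)) ^ 2 := by
      rw [hw2, div_pow, div_pow, mul_pow, mul_pow, hr2]
      field_simp
      ring
    rw [h4, Real.sqrt_sq (by positivity), ← he] at h3
    have h5 : w * (1 - 2 * e) / (2 * r) * e + (w / (2 * r) - w * (1 - 2 * e) / (2 * r)) / 2 =
        w * r := by
      have : w * (1 - 2 * e) / (2 * r) * e + (w / (2 * r) - w * (1 - 2 * e) / (2 * r)) / 2 =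
          w * (2 * (e * (1 - e))) / (2 * r) := by
        field_simp
        ring
      rw [this, ← hr2]
      field_simp
    rw [h5] at h3
    exact h3

variable {M : Type} [MetricSpace M] {γ : ℝ → M}

/-! ### the test function -/

/-- the test function of the even case -/
def tse (χ : M → ℝ) (v : Fin 3 → M → ℝ) (p : E3) (t h : ℝ) (x : M) : ℝ :=
  inner ℝ p (vv (n := 0) v x) * (rmp t h (χ x) + rmp t h (-χ x))

private theorem evi_ramp {t h : ℝ} (hh : 0 < h) (ht : 0 < t) (x : ℝ) :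
    rmp t h x + rmp t h (-x) = rmp t h |x| := by
  rcases le_total 0 x with h0 | h0
  · rw [abs_of_nonneg h0, rmp_zero (x := -x) hh (by linarith), add_zero]
  · rw [abs_of_nonpos h0, rmp_zero (x := x) hh (by linarith), zero_add]

omit [MetricSpace M] in
theorem tse_eq {χ : M → ℝ} (v : Fin 3 → M → ℝ) (p : E3) {t h : ℝ} (hh : 0 < h) (ht : 0 < t) (x : M) :
    tse χ v p t h x = inner ℝ p (vv (n := 0) v x) * rmp t h |χ x| := by
  unfold tse
  rw [evi_ramp hh ht]

theorem tse_abs {χ : M → ℝ} {v : Fin 3 → M → ℝ} (hv : Sph γ v) {p : E3} (hp : ‖p‖ = 1) {t h : ℝ}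
    (hh : 0 < h) (ht : 0 < t) (x : M) : |tse χ v p t h x| ≤ 1 := by
  have h1 := abs_real_inner_le_norm p (vv (n := 0) v x)
  rw [hp, norm_vv hv, one_mul] at h1
  rw [tse_eq v p hh ht, abs_mul, abs_of_nonneg (rmp_nonneg t h |χ x|)]
  exact mul_le_one₀ h1 (rmp_nonneg _ _ _) (rmp_le _ _ _)

theorem tse_odd {χ : M → ℝ} (eχ : ∀ s, χ (γ (s + Real.pi)) = χ (γ s)) {v : Fin 3 → M → ℝ}
    (hv : Sph γ v) (p : E3) (t h : ℝ) : OddB γ (tse χ v p t h) := by
  intro s
  unfold tse
  have h1 : (inner ℝ p (vv (n := 0) v (γ (s + Real.pi))) : ℝ) = - inner ℝ p (vv (n := 0) v (γ s)) := by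
    rw [inner_vv, inner_vv, hv.odd 0 s, hv.odd 1 s, hv.odd 2 s]
    ring
  rw [h1, eχ s]
  ring

theorem tse_lip [CompactSpace M] {χ : M → ℝ} (hχ : Lip χ) {v : Fin 3 → M → ℝ} (hv : ∀ k, Lip (v k))
    (p : E3) (t : ℝ) {h : ℝ} (hh : 0 < h) : Lip (tse χ v p t h) := by
  have h1 := lip_inner hv p
  have h2 : Lip (fun x => rmp t h (χ x)) := hχ.comp (rmp_lip hh)
  have h3 : Lip (fun x => rmp t h (-χ x)) := hχ.neg.comp (rmp_lip hh)
  exact h1.mul (h2.add h3)

/-- the kernel of the even case -/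
def kre (C : Calc M γ) (χ : M → ℝ) (v : Fin 3 → M → ℝ) (t h : ℝ) (p : E3) (o : Om) : ℝ :=
  (rmd t h (χ (C.pt o)) - rmd t h (-χ (C.pt o))) * oke (at' C v o) (wv C χ v o) p

/-- the density of the flux of the test function -/
theorem ae_flx_tse (C : Calc M γ) {v : Fin 3 → M → ℝ} (hv : Sph γ v) {χ : M → ℝ} (hχ : Lip χ) {t h : ℝ}
    (hh : 0 < h) (ht : 0 < t) (h1 : ∀ᵐ o ∂C.μ, |χ (C.pt o)| ≠ t) (h2 : ∀ᵐ o ∂C.μ, |χ (C.pt o)| ≠ t + h)
    {p : E3} (hp : ‖p‖ = 1) (hq : ∀ᵐ o ∂C.μ, 0 < sq2 (at' C v o) p) : ∀ᵐ o ∂C.μ,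
      flx C (tse χ v p t h) v p o = kre C χ v t h p o + rmp t h |χ (C.pt o)| * jac C v o := by
  have hin : ∀ᵐ o ∂C.μ, HasDerivAt (fun s => (inner ℝ p (vv (n := 0) v (C.px o s)) : ℝ))
      (inner ℝ p (dx C v o)) 0 ∧ HasDerivAt (fun s => (inner ℝ p (vv (n := 0) v (C.py o s)) : ℝ))
      (inner ℝ p (dy C v o)) 0 := by
    filter_upwards [C.ae_has (lip_inner hv.lip p), ae_inner C hv.lip] with o ho ho2
    rw [(ho2 p).1, (ho2 p).2] at ho
    exact ho
  filter_upwards [C.ae_has hχ, hin, h1, h2, hq, ae_perp C hv] with o a1 a2 a3 a4 a5 a6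
  set x : ℝ := χ (C.pt o) with hx
  set u : ℝ := inner ℝ p (at' C v o) with hu
  have n1 : x ≠ t := fun h => a3 (by rw [h, abs_of_pos ht])
  have n2 : x ≠ t + h := fun h' => a4 (by rw [h', abs_of_pos (by linarith)])
  have n3 : -x ≠ t := fun h => a3 (by rw [← abs_neg, h, abs_of_pos ht])
  have n4 : -x ≠ t + h := fun h' => a4 (by rw [← abs_neg, h', abs_of_pos (by linarith)])
  have r1 := rmp_has hh n1 n2
  have r2 := rmp_has hh n3 n4
  have key : ∀ (q : ℝ → M) (c : ℝ) (w : ℝ), q 0 = C.pt o → HasDerivAt (fun s => χ (q s)) c 0 →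
      HasDerivAt (fun s => (inner ℝ p (vv (n := 0) v (q s)) : ℝ)) w 0 →
      HasDerivAt (fun s => tse χ v p t h (q s)) (w * (rmp t h x + rmp t h (-x)) +
        u * (rmd t h x * c - rmd t h (-x) * c)) 0 := by
    intro q c w h0 hc hw
    have e0 : (fun s => χ (q s)) 0 = x := by simp only [h0, hx]
    have e1 : (inner ℝ p (vv (n := 0) v (q 0)) : ℝ) = u := by rw [h0]; rfl
    have f1 : HasDerivAt (rmp t h) (rmd t h x) (χ (q 0)) := by
      rw [show χ (q 0) = x from e0]
      exact r1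
    have f2 : HasDerivAt (rmp t h) (rmd t h (-x)) (-χ (q 0)) := by
      rw [show χ (q 0) = x from e0]
      exact r2
    have hcn : HasDerivAt (fun s => -χ (q s)) (-c) 0 := hc.neg
    have d1 : HasDerivAt (fun s => rmp t h (χ (q s))) (rmd t h x * c) 0 :=
      HasDerivAt.comp (h₂ := rmp t h) (h := fun s => χ (q s)) (0 : ℝ) f1 hc
    have d2 : HasDerivAt (fun s => rmp t h (-χ (q s))) (rmd t h (-x) * -c) 0 :=
      HasDerivAt.comp (h₂ := rmp t h) (h := fun s => -χ (q s)) (0 : ℝ) f2 hcn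
    have d3 := hw.mul (d1.add d2)
    refine d3.congr_deriv ?_
    simp only [Pi.add_apply]
    rw [e1, show χ (q 0) = x from e0]
    ring
  have g1 : C.gx (tse χ v p t h) o = inner ℝ p (dx C v o) * (rmp t h x + rmp t h (-x)) +
      u * (rmd t h x * C.gx χ o - rmd t h (-x) * C.gx χ o) := (key (C.px o) _ _ rfl a1.1 a2.1).deriv
  have g2 : C.gy (tse χ v p t h) o = inner ℝ p (dy C v o) * (rmp t h x + rmp t h (-x)) +
      u * (rmd t h x * C.gy χ o - rmd t h (-x) * C.gy χ o) :=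
    (key (C.py o) _ _ (C.same o) a1.2 a2.2).deriv
  have g3 : rmp t h x + rmp t h (-x) = rmp t h |x| := evi_ramp hh ht x
  have g4 := jac_alg (p := p) (norm_at hv o) a6.1 a6.2
  rw [hp, one_pow, show (1 : ℝ) - inner ℝ (at' C v o) p ^ 2 = sq2 (at' C v o) p from rfl] at g4
  have hW : inner ℝ p (wv C χ v o) = C.gx χ o * inner ℝ p (crs (at' C v o) (dy C v o)) -
      C.gy χ o * inner ℝ p (crs (at' C v o) (dx C v o)) := by
    unfold wv
    simp only [inner3, crs0, crs1, crs2, PiLp.sub_apply, PiLp.smul_apply, smul_eq_mul]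
    ring
  have hu2 : inner ℝ (at' C v o) p = u := by rw [real_inner_comm]
  have hsq : sq2 (at' C v o) p = 1 - u ^ 2 := by
    unfold sq2
    rw [hu2]
  rw [hsq] at a5 g4
  unfold flx kre oke
  rw [hsq, hu2, ← hx, ← g3, g1, g2, hW]
  rw [div_eq_iff a5.ne']
  set P : ℝ := inner ℝ p (crs (at' C v o) (dy C v o)) with hP
  set Q : ℝ := inner ℝ p (crs (at' C v o) (dx C v o)) with hQ
  set J : ℝ := inner ℝ (at' C v o) (crs (dy C v o) (dx C v o)) with hJ
  have hJ2 : jac C v o = J := rfl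
  rw [hJ2]
  have k1 : (C.gx χ o * P - C.gy χ o * Q) * u / (1 - u ^ 2) * (1 - u ^ 2) =
      (C.gx χ o * P - C.gy χ o * Q) * u := div_mul_cancel₀ _ a5.ne'
  linear_combination (rmp t h x + rmp t h (-x)) * g4 - (rmd t h x - rmd t h (-x)) * k1

/-- the kernel at one point -/
theorem kre_one (C : Calc M γ) {v : Fin 3 → M → ℝ} (hv : Sph γ v) (χ : M → ℝ) {t h : ℝ} (hh : 0 < h)
    {o : Om} (ho : inner ℝ (at' C v o) (wv C χ v o) = (0 : ℝ)) :
    Integrable (fun p => kre C χ v t h p o) PP ∧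
    ∫ p, ‖kre C χ v t h p o‖ ∂PP ≤ (4 / h) * ‖wv C χ v o‖ * (Real.pi / 2) := by
  have hn := norm_at (C := C) hv o
  have hi : Integrable (fun p => kre C χ v t h p o) PP := (oke_int hn ho).const_mul _
  refine ⟨hi, ?_⟩
  have hb : ∀ᵐ p ∂PP, ‖kre C χ v t h p o‖ ≤ (4 / h) * ‖wv C χ v o‖ * (1 / √(sq2 (at' C v o) p)) := by
    filter_upwards [ae_norm, ae_sq2 (at' C v o) hn] with p hp hq
    have h1 := oke_abs hn hp ho hq
    have h3 := rmd_nonneg (t := t) hh (χ (C.pt o))
    have h4 := rmd_le (t := t) hh (χ (C.pt o))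
    have h5 := rmd_nonneg (t := t) hh (-χ (C.pt o))
    have h6 := rmd_le (t := t) hh (-χ (C.pt o))
    have h7 : |rmd t h (χ (C.pt o)) - rmd t h (-χ (C.pt o))| ≤ 1 / h + 1 / h := by
      rw [abs_le]
      constructor <;> linarith
    unfold kre
    rw [Real.norm_eq_abs, abs_mul]
    refine (mul_le_mul h7 h1 (abs_nonneg _) (by positivity)).trans_eq ?_
    ring
  refine (integral_mono_ae hi.norm ((int_inv hn).1.const_mul _) hb).trans_eq ?_
  rw [integral_const_mul, (int_inv hn).2]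

theorem kre_int (C : Calc M γ) {v : Fin 3 → M → ℝ} (hv : Sph γ v) {χ : M → ℝ} (hχ : Lip χ) (t : ℝ) {h : ℝ}
    (hh : 0 < h) : Integrable (fun q : Om × E3 => kre C χ v t h q.2 q.1) (C.μ.prod PP) := by
  have := C.fin
  obtain ⟨m1, m2, m0⟩ := meas_dx C hv.lip
  have mχ := C.meas_pt hχ
  have mw := wv_meas C hv.lip hχ
  have hm : AEMeasurable (fun q : Om × E3 => kre C χ v t h q.2 q.1) (C.μ.prod PP) := by
    have e1 : AEMeasurable (fun q : Om × E3 => rmd t h (χ (C.pt q.1))) (C.μ.prod PP) :=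
      (rmd_meas t h).comp_aemeasurable mχ.comp_fst
    have e2 : AEMeasurable (fun q : Om × E3 => rmd t h (-χ (C.pt q.1))) (C.μ.prod PP) :=
      (rmd_meas t h).comp_aemeasurable mχ.comp_fst.neg
    have e3 : AEMeasurable (fun q : Om × E3 => (inner ℝ q.2 (wv C χ v q.1) : ℝ)) (C.μ.prod PP) :=
      measurable_snd.aemeasurable.inner mw.comp_fst
    have e4 : AEMeasurable (fun q : Om × E3 => (inner ℝ (at' C v q.1) q.2 : ℝ)) (C.μ.prod PP) :=
      m0.comp_fst.inner measurable_snd.aemeasurable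
    exact (e1.sub e2).mul ((e3.mul e4).div (aemeasurable_const.sub (e4.pow_const 2)))
  rw [integrable_prod_iff hm.aestronglyMeasurable]
  constructor
  · filter_upwards [ae_wv C hv χ] with o ho
    exact (kre_one C hv χ hh ho.1).1
  · obtain ⟨B, hB⟩ := wn_bd C hv.lip hχ
    refine (integrable_const ((4 / h) * B * (Real.pi / 2))).mono'
      hm.aestronglyMeasurable.norm.integral_prod_right' ?_
    filter_upwards [ae_wv C hv χ, hB] with o ho h1
    rw [Real.norm_eq_abs, abs_of_nonneg (integral_nonneg fun p => norm_nonneg _)]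
    refine (kre_one C hv χ hh ho.1).2.trans ?_
    rw [ho.2]
    gcongr

/-- the averaged kernel on any set -/
theorem kre_set (C : Calc M γ) {v : Fin 3 → M → ℝ} (hv : Sph γ v) {χ : M → ℝ} (hχ : Lip χ) (t : ℝ) {h : ℝ}
    (hh : 0 < h) (S : Set E3) : |∫ p in S, ∫ o, kre C χ v t h p o ∂C.μ ∂PP| ≤
      (√(PP.real S * (1 - PP.real S)) / √2) *
        ∫ o, (rmd t h (χ (C.pt o)) + rmd t h (-χ (C.pt o))) * wn C χ v o ∂C.μ := by
  have := C.fin
  have hK := kre_int C hv hχ t hh
  have hKS : Integrable (fun q : Om × E3 => kre C χ v t h q.2 q.1) (C.μ.prod (PP.restrict S)) := by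
    have e : C.μ.prod (PP.restrict S) = (C.μ.prod PP).restrict (univ ×ˢ S) := by
      rw [← Measure.prod_restrict, Measure.restrict_univ]
    rw [e]
    exact hK.integrableOn
  have hsw : ∫ p in S, ∫ o, kre C χ v t h p o ∂C.μ ∂PP = ∫ o, ∫ p in S, kre C χ v t h p o ∂PP ∂C.μ :=
    (integral_integral_swap (f := fun o p => kre C χ v t h p o) hKS).symm
  rw [hsw, ← integral_const_mul, ← Real.norm_eq_abs]
  obtain ⟨B, hB⟩ := wn_bd C hv.lip hχ
  refine norm_integral_le_of_norm_le ?_ ?_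
  · refine Integrable.const_mul ?_ _
    have hm : AEMeasurable (fun o => (rmd t h (χ (C.pt o)) + rmd t h (-χ (C.pt o))) * wn C χ v o) C.μ :=
      (((rmd_meas t h).comp_aemeasurable (C.meas_pt hχ)).add
        ((rmd_meas t h).comp_aemeasurable (C.meas_pt hχ).neg)).mul (wn_meas C hv.lip hχ)
    refine C.integrable_of_bdd hm (B := (1 / h + 1 / h) * B) ?_
    filter_upwards [hB] with o ho
    have h3 := rmd_nonneg (t := t) hh (χ (C.pt o))
    have h4 := rmd_le (t := t) hh (χ (C.pt o))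
    have h5 := rmd_nonneg (t := t) hh (-χ (C.pt o))
    have h6 := rmd_le (t := t) hh (-χ (C.pt o))
    have h7 := wn_nonneg C χ v o
    rw [abs_of_nonneg (by positivity)]
    exact mul_le_mul (add_le_add h4 h6) ho h7 (by positivity)
  · filter_upwards [ae_wv C hv χ] with o ho
    have hn := norm_at (C := C) hv o
    have hW : inner ℝ (at' C v o) (-wv C χ v o) = (0 : ℝ) := by rw [inner_neg_right, ho.1, neg_zero]
    have b1 := oke_bath hn ho.1 S
    have b3 := oke_bath hn hW S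
    have b4 : ∀ p, oke (at' C v o) (-wv C χ v o) p = - oke (at' C v o) (wv C χ v o) p := by
      intro p
      unfold oke
      rw [inner_neg_right]
      ring
    simp_rw [b4] at b3
    rw [integral_neg, norm_neg] at b3
    have h3 := rmd_nonneg (t := t) hh (χ (C.pt o))
    have h5 := rmd_nonneg (t := t) hh (-χ (C.pt o))
    have e : ∫ p in S, kre C χ v t h p o ∂PP = (rmd t h (χ (C.pt o)) - rmd t h (-χ (C.pt o))) *
        (∫ p in S, oke (at' C v o) (wv C χ v o) p ∂PP) := by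
      unfold kre
      rw [integral_const_mul]
    rw [e, Real.norm_eq_abs]
    rw [ho.2] at b1 b3
    set I1 := ∫ p in S, oke (at' C v o) (wv C χ v o) p ∂PP with hI1
    set r := √(PP.real S * (1 - PP.real S)) with hr
    have a1 : |I1| ≤ wn C χ v o / √2 * r := abs_le.2 ⟨by linarith, b1⟩
    have a2 : |rmd t h (χ (C.pt o)) - rmd t h (-χ (C.pt o))| ≤
        rmd t h (χ (C.pt o)) + rmd t h (-χ (C.pt o)) := by
      rw [abs_le]
      constructor <;> linarith
    rw [abs_mul]
    refine (mul_le_mul a2 a1 (abs_nonneg _) (by linarith)).trans_eq ?_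
    ring

/-- the normalised flux of the test function -/
def gge (C : Calc M γ) (χ : M → ℝ) (v : Fin 3 → M → ℝ) (t h : ℝ) (p : E3) : ℝ :=
  (1 / (2 * Real.pi)) * (∫ o, kre C χ v t h p o ∂C.μ + ∫ o, rmp t h |χ (C.pt o)| * jac C v o ∂C.μ)

theorem gge_int (C : Calc M γ) {v : Fin 3 → M → ℝ} (hv : Sph γ v) {χ : M → ℝ} (hχ : Lip χ) (t : ℝ) {h : ℝ}
    (hh : 0 < h) : Integrable (gge C χ v t h) PP := by
  have := C.fin
  exact ((kre_int C hv hχ t hh).integral_prod_right.add (integrable_const _)).const_mul _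

theorem gge_eq [CompactSpace M] (C : Calc M γ) {v : Fin 3 → M → ℝ} (hv : Sph γ v) {χ : M → ℝ} (hχ : Lip χ)
    {t h : ℝ} (hh : 0 < h) (ht : 0 < t) (h1 : ∀ᵐ o ∂C.μ, |χ (C.pt o)| ≠ t)
    (h2 : ∀ᵐ o ∂C.μ, |χ (C.pt o)| ≠ t + h) : ∀ᵐ p ∂PP,
      gge C χ v t h p = (1 / (2 * Real.pi)) * Flux C (tse χ v p t h) v p := by
  have := C.fin
  filter_upwards [ae_norm, ae_ae_sq2 C hv, (kre_int C hv hχ t hh).prod_left_ae] with p hp hq hk
  unfold gge Flux
  rw [integral_congr_ae (ae_flx_tse C hv hχ hh ht h1 h2 hp hq), integral_add hk (rj_int C hv hχ t h)]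

/-- pointwise limit of the normalised fluxes: an integer -/
theorem gge_lim [CompactSpace M] (C : Calc M γ) (hγ : Bd γ) (hR : RegAE C) {v : Fin 3 → M → ℝ}
    (hv : Sph γ v) {χ : M → ℝ} (hχ : Lip χ) (eχ : ∀ s, χ (γ (s + Real.pi)) = χ (γ s)) {t : ℝ}
    (ht : 0 < t) (h1 : ∀ᵐ o ∂C.μ, |χ (C.pt o)| ≠ t) {h : ℕ → ℝ} (hh : ∀ n, 0 < h n)
    (h0 : Tendsto h atTop (𝓝 0)) (h2 : ∀ n, ∀ᵐ o ∂C.μ, |χ (C.pt o)| ≠ t + h n) :
    ∃ B : E3 → ℝ, Integrable B PP ∧
      ∀ᵐ p ∂PP, (∃ m : ℤ, Tendsto (fun n => gge C χ v t (h n) p) atTop (𝓝 (m : ℝ))) ∧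
        ∀ n, |gge C χ v t (h n) p| ≤ B p := by
  obtain ⟨B, hB, hBp⟩ := card_bd C hv
  refine ⟨B, hB, ?_⟩
  have hgg : ∀ᵐ p ∂PP, ∀ n, gge C χ v t (h n) p =
      (1 / (2 * Real.pi)) * Flux C (tse χ v p t (h n)) v p :=
    ae_all_iff.2 fun n => gge_eq C hv hχ (hh n) ht h1 (h2 n)
  filter_upwards [ae_norm, ae_int_rot C hv, hR v hv, hBp, hgg] with p hp hi hr hb hg
  obtain ⟨Z, s, hs, hz, hf, hl⟩ := flux_eq_z C hγ hv hp hi hr
  have hc := hb Z.card hl
  have hpi := Real.pi_ne_zero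
  have e : ∀ n, gge C χ v t (h n) p = - ∑ z ∈ Z, s z * tse χ v p t (h n) z := by
    intro n
    rw [hg n, hf _ (tse_lip hχ hv.lip p t (hh n)) (tse_odd eχ hv p t (h n))]
    field_simp
  refine ⟨?_, ?_⟩
  · set T : M → ℝ := fun z => inner ℝ p (vv (n := 0) v z) *
      (Ioi t).indicator (fun _ => (1 : ℝ)) |χ z| with hT
    have hlim : Tendsto (fun n => gge C χ v t (h n) p) atTop (𝓝 (- ∑ z ∈ Z, s z * T z)) := by
      simp_rw [e, fun n z => tse_eq (χ := χ) v p (hh n) ht z]
      refine (tendsto_finsetSum Z fun z _ => ?_).neg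
      exact Tendsto.const_mul _ (Tendsto.const_mul _ (rmp_lim hh h0 |χ z|))
    have hint : ∀ z ∈ Z, ∃ k : ℤ, s z * T z = k := by
      intro z hzz
      have i1 : (Ioi t).indicator (fun _ => (1 : ℝ)) |χ z| = 0 ∨
          (Ioi t).indicator (fun _ => (1 : ℝ)) |χ z| = 1 := by
        by_cases hy : |χ z| ∈ Ioi t
        · right; exact indicator_of_mem hy _
        · left; exact indicator_of_notMem hy _
      simp only [hT]
      rcases hs z hzz with a1 | a1 <;> rcases hz z hzz with a2 | a2 <;>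
        rcases i1 with a3 | a3 <;> rw [a1, a2, a3]
      all_goals first
        | (refine ⟨0, ?_⟩; push_cast; norm_num; done)
        | (refine ⟨1, ?_⟩; push_cast; norm_num; done)
        | (refine ⟨-1, ?_⟩; push_cast; norm_num)
    choose! k hk using hint
    refine ⟨-∑ z ∈ Z, k z, ?_⟩
    have e2 : ((-∑ z ∈ Z, k z : ℤ) : ℝ) = - ∑ z ∈ Z, s z * T z := by
      push_cast
      rw [Finset.sum_congr rfl hk]
    rw [e2]
    exact hlim
  · intro n
    rw [e n, abs_neg]
    refine le_trans ?_ hc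
    refine (Finset.abs_sum_le_sum_abs _ _).trans ?_
    refine (Finset.sum_le_card_nsmul Z _ 1 fun z hzz => ?_).trans_eq (by rw [nsmul_eq_mul, mul_one])
    rw [abs_mul]
    have h3 : |s z| = 1 := by
      rcases hs z hzz with h | h <;> rw [h] <;> norm_num
    rw [h3, one_mul]
    exact tse_abs hv hp (hh n) ht z

private theorem evi_alg {a e I V : ℝ} (h1 : e ≤ I) (h2 : a ≤ I)
    (h3 : I ≤ a * e + 1 / (4 * Real.pi) * (√(e * (1 - e)) * V)) (he0 : 0 ≤ e) (he1 : e ≤ 1) :
    (4 * Real.pi * a) * (4 * Real.pi - 4 * Real.pi * a) ≤ V ^ 2 := by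
  have hpi := Real.pi_pos
  set w : ℝ := V / (4 * Real.pi) with hw
  have hV : V = 4 * Real.pi * w := by
    rw [hw]
    field_simp
  have h4 : 1 / (4 * Real.pi) * (√(e * (1 - e)) * V) = √(e * (1 - e)) * w := by
    rw [hw]
    field_simp
  rw [h4] at h3
  have key : a * (1 - a) ≤ w ^ 2 := by
    rcases le_or_gt a 0 with ha | ha
    · nlinarith [sq_nonneg w]
    rcases le_or_gt 1 a with ha1 | ha1
    · nlinarith [sq_nonneg w]
    rcases he0.eq_or_lt with he | he
    · rw [← he] at h3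
      simp at h3
      linarith
    rcases he1.eq_or_lt with he' | he'
    · rw [he'] at h3 h1
      simp at h3
      linarith
    have hr : 0 < e * (1 - e) := by nlinarith
    set r : ℝ := √(e * (1 - e)) with hrd
    have hr2 : r ^ 2 = e * (1 - e) := Real.sq_sqrt hr.le
    have hr0 : 0 < r := Real.sqrt_pos.2 hr
    rcases le_total a e with hae | hae
    · -- `e (1 - a) ≤ r w`
      have k1 : e * (1 - a) ≤ r * w := by nlinarith
      have k0 : 0 ≤ e * (1 - a) := by nlinarith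
      have k2 : (e * (1 - a)) ^ 2 ≤ e * (1 - e) * w ^ 2 := by
        rw [← hr2, ← mul_pow]
        exact pow_le_pow_left₀ k0 k1 2
      have k3 : e * (1 - a) ^ 2 ≤ (1 - e) * w ^ 2 := by
        have : e * (e * (1 - a) ^ 2) ≤ e * ((1 - e) * w ^ 2) := by nlinarith
        exact le_of_mul_le_mul_left this he
      have k4 : a * (1 - a) ^ 2 ≤ (1 - a) * w ^ 2 := by
        have k5 : a * (1 - a) ^ 2 ≤ e * (1 - a) ^ 2 := mul_le_mul_of_nonneg_right hae (sq_nonneg _)
        have k6 : (1 - e) * w ^ 2 ≤ (1 - a) * w ^ 2 :=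
          mul_le_mul_of_nonneg_right (by linarith) (sq_nonneg _)
        linarith
      have k7 : (1 - a) * (a * (1 - a)) ≤ (1 - a) * w ^ 2 := by nlinarith
      exact le_of_mul_le_mul_left k7 (by linarith)
    · have k1 : a * (1 - e) ≤ r * w := by nlinarith
      have k0 : 0 ≤ a * (1 - e) := by nlinarith
      have k2 : (a * (1 - e)) ^ 2 ≤ e * (1 - e) * w ^ 2 := by
        rw [← hr2, ← mul_pow]
        exact pow_le_pow_left₀ k0 k1 2
      have k3 : a ^ 2 * (1 - e) ≤ e * w ^ 2 := by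
        have : (1 - e) * (a ^ 2 * (1 - e)) ≤ (1 - e) * (e * w ^ 2) := by nlinarith
        exact le_of_mul_le_mul_left this (by linarith)
      have k4 : a * (a * (1 - e)) ≤ a * w ^ 2 := by
        have := mul_le_mul_of_nonneg_right hae (sq_nonneg w)
        nlinarith
      have k5 : a * (1 - e) ≤ w ^ 2 := le_of_mul_le_mul_left k4 ha
      nlinarith
  rw [hV]
  have h5 : (4 * Real.pi) ^ 2 * (a * (1 - a)) ≤ (4 * Real.pi) ^ 2 * w ^ 2 :=
    mul_le_mul_of_nonneg_left key (by positivity)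
  nlinarith

/-- the inequality at one level -/
theorem evi_at [CompactSpace M] (C : Calc M γ) (hγ : Bd γ) (hR : RegAE C) {v : Fin 3 → M → ℝ}
    (hv : Sph γ v) {χ : M → ℝ} (hχ : Lip χ) (eχ : ∀ s, χ (γ (s + Real.pi)) = χ (γ s)) {t : ℝ}
    (ht : 0 < t) (h1 : ∀ᵐ o ∂C.μ, |χ (C.pt o)| ≠ t) (hd : DifferentiableAt ℝ (levw C χ v) t) :
    2 * supj C χ v t * (2 * Real.pi - supj C χ v t) ≤ deriv (levw C χ v) t ^ 2 := by
  have := C.fin
  have hpi := Real.pi_pos
  obtain ⟨h, hh, h0, h2⟩ := good_seq C hχ t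
  obtain ⟨B, hB, hlim⟩ := gge_lim C hγ hR hv hχ eχ ht h1 hh h0 h2
  have hgi : ∀ n, Integrable (gge C χ v t (h n)) PP := fun n => gge_int C hv hχ t (hh n)
  obtain ⟨f, hfm, hf⟩ := measurable_limit_of_tendsto_metrizable_ae (μ := PP)
    (f := fun n p => gge C χ v t (h n) p) (L := atTop) (fun n => (hgi n).aemeasurable) (by
      filter_upwards [hlim] with p hp
      obtain ⟨m, hm⟩ := hp.1
      exact ⟨m, hm⟩)
  -- the values of the limit are integers
  have hfz : ∀ᵐ p ∂PP, ∃ m : ℤ, f p = m := by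
    filter_upwards [hlim, hf] with p hp1 hp2
    obtain ⟨m, hm⟩ := hp1.1
    exact ⟨m, tendsto_nhds_unique hp2 hm⟩
  have hfB : ∀ᵐ p ∂PP, |f p| ≤ B p := by
    filter_upwards [hlim, hf] with p hp1 hp2
    exact le_of_tendsto' hp2.abs hp1.2
  have hfi : Integrable f PP := hB.mono' hfm.aestronglyMeasurable (by
    filter_upwards [hfB] with p hp
    rwa [Real.norm_eq_abs])
  -- the averages
  set A : ℕ → ℝ := fun n => (1 / (2 * Real.pi)) * ∫ o, rmp t (h n) |χ (C.pt o)| * jac C v o ∂C.μ with hA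
  set V : ℕ → ℝ := fun n => ∫ o, (rmd t (h n) (χ (C.pt o)) + rmd t (h n) (-χ (C.pt o))) *
    wn C χ v o ∂C.μ with hVd
  have hS : ∀ (S : Set E3) (n : ℕ), |∫ p in S, gge C χ v t (h n) p ∂PP - A n * PP.real S| ≤
      1 / (2 * Real.pi) * ((√(PP.real S * (1 - PP.real S)) / √2) * V n) := by
    intro S n
    have hk := (kre_int C hv hχ t (hh n)).integral_prod_right
    have e : ∫ p in S, gge C χ v t (h n) p ∂PP = 1 / (2 * Real.pi) *
        (∫ p in S, ∫ o, kre C χ v t (h n) p o ∂C.μ ∂PP) + A n * PP.real S := by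
      unfold gge
      rw [integral_const_mul, integral_add hk.integrableOn (integrable_const _).integrableOn,
        setIntegral_const, smul_eq_mul]
      simp only [hA]
      ring
    rw [e, add_sub_cancel_right, abs_mul, abs_of_pos (by positivity : 0 < 1 / (2 * Real.pi))]
    exact mul_le_mul_of_nonneg_left (kre_set C hv hχ t (hh n) S) (by positivity)
  -- limits
  have hmS : ∀ S : Set E3, Tendsto (fun n => ∫ p in S, gge C χ v t (h n) p ∂PP) atTop
      (𝓝 (∫ p in S, f p ∂PP)) := by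
    intro S
    refine tendsto_integral_of_dominated_convergence B (fun n => (hgi n).aestronglyMeasurable.restrict)
      hB.integrableOn (fun n => ae_restrict_of_ae ?_) (ae_restrict_of_ae hf)
    filter_upwards [hlim] with p hp
    rw [Real.norm_eq_abs]
    exact hp.2 n
  set a : ℝ := (1 / (2 * Real.pi)) * supj C χ v t with ha
  have hAa : Tendsto A atTop (𝓝 a) := by
    refine Tendsto.const_mul _ ?_
    have hja := jac_integrable C hv
    have hD : NullMeasurableSet {o | t < |χ (C.pt o)|} C.μ :=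
      nullMeasurableSet_lt aemeasurable_const (C.meas_pt (lip_absf hχ))
    have e : supj C χ v t = ∫ o, (Ioi t).indicator (fun _ => (1 : ℝ)) |χ (C.pt o)| * jac C v o ∂C.μ := by
      unfold supj
      rw [← integral_indicator₀ hD]
      refine integral_congr_ae (Eventually.of_forall fun o => ?_)
      simp only
      by_cases h3 : t < |χ (C.pt o)|
      · rw [indicator_of_mem (show o ∈ {o | t < |χ (C.pt o)|} from h3),
          indicator_of_mem (show |χ (C.pt o)| ∈ Ioi t from h3), one_mul]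
      · rw [indicator_of_notMem (show o ∉ {o | t < |χ (C.pt o)|} from h3),
          indicator_of_notMem (show |χ (C.pt o)| ∉ Ioi t from h3), zero_mul]
    rw [e]
    refine tendsto_integral_of_dominated_convergence (fun o => |jac C v o|)
      (fun n => (rj_int C hv hχ t (h n)).aestronglyMeasurable) hja.abs
      (fun n => Eventually.of_forall fun o => ?_) (Eventually.of_forall fun o => ?_)
    · rw [Real.norm_eq_abs, abs_mul, abs_of_nonneg (rmp_nonneg _ _ _)]
      exact mul_le_of_le_one_left (abs_nonneg _) (rmp_le _ _ _)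
    · exact (rmp_lim hh h0 _).mul_const _
  have hVl : ∀ n, V n ≤ (h n)⁻¹ * (levw C χ v (t + h n) - levw C χ v t) := fun n =>
    mass_le C hv.lip hχ (hh n) ht
  have hslope : Tendsto (fun n => (h n)⁻¹ * (levw C χ v (t + h n) - levw C χ v t)) atTop
      (𝓝 (deriv (levw C χ v) t)) := by
    have h3 := hasDerivAt_iff_tendsto_slope_zero.1 hd.hasDerivAt
    have h4 : Tendsto h atTop (𝓝[≠] 0) := by
      rw [tendsto_nhdsWithin_iff]
      exact ⟨h0, Eventually.of_forall fun n => (hh n).ne'⟩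
    exact h3.comp h4
  have hSl : ∀ S : Set E3, |∫ p in S, f p ∂PP - a * PP.real S| ≤
      1 / (2 * Real.pi) * ((√(PP.real S * (1 - PP.real S)) / √2) * deriv (levw C χ v) t) := by
    intro S
    have l1 : Tendsto (fun n => |∫ p in S, gge C χ v t (h n) p ∂PP - A n * PP.real S|) atTop
        (𝓝 |∫ p in S, f p ∂PP - a * PP.real S|) := ((hmS S).sub (hAa.mul_const _)).abs
    have l2 : Tendsto (fun n => 1 / (2 * Real.pi) * ((√(PP.real S * (1 - PP.real S)) / √2) *
        ((h n)⁻¹ * (levw C χ v (t + h n) - levw C χ v t)))) atTop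
        (𝓝 (1 / (2 * Real.pi) * ((√(PP.real S * (1 - PP.real S)) / √2) *
          deriv (levw C χ v) t))) :=
      (hslope.const_mul _).const_mul _
    refine le_of_tendsto_of_tendsto' l1 l2 fun n => (hS S n).trans ?_
    gcongr
    exact hVl n
  -- the total integral
  have htot : ∫ p, f p ∂PP = a := by
    have h3 := hSl univ
    rw [probReal_univ, sub_self, mul_zero, Real.sqrt_zero, zero_div, zero_mul, mul_zero,
      Measure.restrict_univ, mul_one] at h3
    have h4 := abs_nonpos_iff.1 h3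
    linarith
  -- the superlevel set
  set E : Set E3 := {p | 1 ≤ f p} with hE
  have hEm : MeasurableSet E := measurableSet_le measurable_const hfm
  have hE1 : PP.real E ≤ ∫ p in E, f p ∂PP := by
    have h3 : ∫ p in E, (1 : ℝ) ∂PP ≤ ∫ p in E, f p ∂PP :=
      setIntegral_mono_on (integrable_const _).integrableOn hfi.integrableOn hEm fun p hp => hp
    rwa [setIntegral_const, smul_eq_mul, mul_one] at h3
  have hE2 : a ≤ ∫ p in E, f p ∂PP := by
    have h3 := integral_add_compl hEm hfi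
    have h4 : ∫ p in Eᶜ, f p ∂PP ≤ 0 := by
      refine integral_nonpos_of_ae ?_
      filter_upwards [ae_restrict_mem hEm.compl, ae_restrict_of_ae hfz] with p hp1 hp2
      obtain ⟨m, hm⟩ := hp2
      have h5 : ¬ (1 : ℝ) ≤ m := by
        rw [← hm]
        exact hp1
      have h6 : m < 1 := by
        by_contra h7
        exact h5 (by exact_mod_cast not_lt.1 h7)
      change f p ≤ 0
      rw [hm]
      have h7 : m ≤ 0 := by omega
      exact_mod_cast h7
    rw [htot] at h3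
    linarith
  have hE3 := (abs_le.1 (hSl E)).2
  have h22 : √2 * √2 = (2 : ℝ) := Real.mul_self_sqrt (by norm_num)
  have h2p : (0 : ℝ) < √2 := by positivity
  have hE4 : 1 / (2 * Real.pi) * ((√(PP.real E * (1 - PP.real E)) / √2) * deriv (levw C χ v) t) =
      1 / (4 * Real.pi) * (√(PP.real E * (1 - PP.real E)) * (√2 * deriv (levw C χ v) t)) := by
    have e5 : (1 : ℝ) / √2 = √2 / 2 := by
      rw [div_eq_div_iff h2p.ne' two_ne_zero, one_mul, h22]
    calc _ = 1 / (2 * Real.pi) * (√(PP.real E * (1 - PP.real E)) * (1 / √2) *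
          deriv (levw C χ v) t) := by ring
      _ = _ := by
        rw [e5]
        ring
  have hfin := evi_alg (V := √2 * deriv (levw C χ v) t) hE1 hE2 (by linarith) measureReal_nonneg
    measureReal_le_one
  have e1 : 4 * Real.pi * a = 2 * supj C χ v t := by
    rw [ha]
    field_simp
    ring
  rw [e1, mul_pow, Real.sq_sqrt (by norm_num)] at hfin
  linarith

/-! ### the sign of the area -/

theorem evi_sph_neg {v : Fin 3 → M → ℝ} (hv : Sph γ v) : Sph γ (fun k x => -v k x) where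
  lip k := by
    obtain ⟨K, hK⟩ := hv.lip k
    exact ⟨K, fun x y => by simpa [edist_neg_neg] using hK x y⟩
  odd k t := by
    have := hv.odd k t
    simp only [this]
  unit x := by
    have := hv.unit x
    simpa using this

private theorem evi_dx_neg (C : Calc M γ) (v : Fin 3 → M → ℝ) (o : Om) :
    dx C (fun k x => -v k x) o = -dx C v o := by
  ext k
  fin_cases k <;> simp [dx, Calc.gx]

private theorem evi_dy_neg (C : Calc M γ) (v : Fin 3 → M → ℝ) (o : Om) :
    dy C (fun k x => -v k x) o = -dy C v o := by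
  ext k
  fin_cases k <;> simp [dy, Calc.gy]

private theorem evi_at_neg (C : Calc M γ) (v : Fin 3 → M → ℝ) (o : Om) :
    at' C (fun k x => -v k x) o = -at' C v o := by
  ext k
  fin_cases k <;> simp [at']

private theorem evi_jac_neg (C : Calc M γ) (v : Fin 3 → M → ℝ) (o : Om) :
    jac C (fun k x => -v k x) o = -jac C v o := by
  rw [jac, jac, evi_dx_neg, evi_dy_neg, evi_at_neg]
  simp only [inner3, crs0, crs1, crs2, PiLp.neg_apply]
  ring

private theorem evi_wn_neg (C : Calc M γ) (χ : M → ℝ) (v : Fin 3 → M → ℝ) (o : Om) :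
    wn C χ (fun k x => -v k x) o = wn C χ v o := by
  rw [wn, wn, evi_dx_neg, evi_dy_neg, smul_neg, smul_neg, ← neg_sub_neg, neg_neg, neg_neg, ← neg_sub,
    norm_neg]

theorem evi_levw_neg (C : Calc M γ) (χ : M → ℝ) (v : Fin 3 → M → ℝ) :
    levw C χ (fun k x => -v k x) = levw C χ v := by
  funext t
  simp only [levw, evi_wn_neg]

theorem evi_supj_neg (C : Calc M γ) (χ : M → ℝ) (v : Fin 3 → M → ℝ) (t : ℝ) :
    supj C χ (fun k x => -v k x) t = -supj C χ v t := by
  simp only [supj, evi_jac_neg, integral_neg]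

/-- **Isoperimetry of the images of the level lines of an even function.** -/
theorem img_even [CompactSpace M] (C : Calc M γ) (hγ : Bd γ) (hR : RegAE C) {v : Fin 3 → M → ℝ}
    (hv : Sph γ v) {χ : M → ℝ} (hχ : Lip χ) (eχ : ∀ s, χ (γ (s + Real.pi)) = χ (γ s)) :
    ∀ᵐ t : ℝ, 0 < t → DifferentiableAt ℝ (levw C χ v) t ∧
      2 * |supj C χ v t| * (2 * Real.pi - |supj C χ v t|) ≤ deriv (levw C χ v) t ^ 2 := by
  have := C.fin
  have hc : Set.Countable {x : ℝ | 0 < C.μ {o | |χ (C.pt o)| = x}} :=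
    Measure.countable_meas_level_set_pos₀ (C.meas_pt hχ).abs.nullMeasurable
  filter_upwards [(levw_mono C hv.lip hχ).ae_differentiableAt, hc.ae_notMem volume] with t h1 h2 h3
  have h4 : C.μ {o | |χ (C.pt o)| = t} = 0 := by
    simp only [not_lt, nonpos_iff_eq_zero] at h2
    exact h2
  have h5 := measure_eq_zero_iff_ae_notMem.1 h4
  refine ⟨h1, ?_⟩
  rcases abs_cases (supj C χ v t) with h | h <;> rw [h.1]
  · exact evi_at C hγ hR hv hχ eχ h3 h5 h1
  · have h6 := evi_at C hγ hR (evi_sph_neg hv) hχ eχ h3 h5 (by rw [evi_levw_neg]; exact h1)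
    rw [evi_levw_neg, evi_supj_neg] at h6
    exact h6

end Pool.Agent.FPX
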