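import Mathlib
import Pool.Agent.FPX.EXR

/-
EXB (helper95): rational check for the exterior certificate `ExtR` (one graded band `a 0 > a 1`, ring or
base zones below `a 1`).
-/

open Set Filter Topology

noncomputable section

namespace Pool.Agent.FPX

/-! ### the primitive of a ring zone is convex above the cut -/

theorem ringG_tangent {c₀ k x t : ℝ} (hc : 0 ≤ c₀) (hk : 0 ≤ k) (hx : 0 < x) (ht : 0 < t) :
    ringG c₀ k t + ringβ c₀ k t * (x - t) ≤ ringG c₀ k x := by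
  have h1 : 0 ≤ 1 / x - 1 / t + (x - t) / t ^ 2 := by
    have e : 1 / x - 1 / t + (x - t) / t ^ 2 = (x - t) ^ 2 / (x * t ^ 2) := by
      field_simp
      ring
    rw [e]
    positivity
  have h2 : 0 ≤ 1 / x ^ 3 - 1 / t ^ 3 + 3 * (x - t) / t ^ 4 := by
    have e : 1 / x ^ 3 - 1 / t ^ 3 + 3 * (x - t) / t ^ 4 =
        (x - t) ^ 2 * (3 * x ^ 2 + 2 * x * t + t ^ 2) / (x ^ 3 * t ^ 4) := by
      field_simp
      ring
    rw [e]
    positivity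
  have e : ringG c₀ k x - (ringG c₀ k t + ringβ c₀ k t * (x - t)) =
      c₀ * (k / 2 * (1 / x - 1 / t + (x - t) / t ^ 2) +
        k ^ 2 / 6 * (1 / x ^ 3 - 1 / t ^ 3 + 3 * (x - t) / t ^ 4)) := by
    unfold ringG ringβ
    field_simp
    ring
  have h3 : 0 ≤ c₀ * (k / 2 * (1 / x - 1 / t + (x - t) / t ^ 2) +
        k ^ 2 / 6 * (1 / x ^ 3 - 1 / t ^ 3 + 3 * (x - t) / t ^ 4)) := by positivity
  linarith

/-- a linear function minus a multiple of the primitive is bounded below by its end values -/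
theorem ringG_min {c₀ k l α β p q x m : ℝ} (hc : 0 ≤ c₀) (hk : 0 ≤ k) (hl : 0 ≤ l) (hp : 0 < p)
    (hpx : p ≤ x) (hxq : x ≤ q) (h1 : m ≤ α + β * p - l * ringG c₀ k p)
    (h2 : m ≤ α + β * q - l * ringG c₀ k q) : m ≤ α + β * x - l * ringG c₀ k x := by
  have hx : 0 < x := hp.trans_le hpx
  have hq : 0 < q := hx.trans_le hxq
  rcases (hpx.trans hxq).eq_or_lt with h | h
  · have : x = p := le_antisymm (by rw [h]; exact hxq) hpx
    rw [this]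
    exact h1
  have t1 := ringG_tangent hc hk hp hx
  have t2 := ringG_tangent hc hk hq hx
  have k1 := mul_le_mul_of_nonneg_left t1 (sub_nonneg.2 hxq)
  have k2 := mul_le_mul_of_nonneg_left t2 (sub_nonneg.2 hpx)
  have k3 : (q - p) * ringG c₀ k x ≤ (q - x) * ringG c₀ k p + (x - p) * ringG c₀ k q := by
    nlinarith
  have k4 := mul_le_mul_of_nonneg_left k3 hl
  have k5 := mul_le_mul_of_nonneg_left h1 (sub_nonneg.2 hxq)
  have k6 := mul_le_mul_of_nonneg_left h2 (sub_nonneg.2 hpx)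
  have k7 : 0 ≤ (q - p) * (α + β * x - l * ringG c₀ k x - m) := by nlinarith
  have k8 := nonneg_of_mul_nonneg_right k7 (sub_pos.2 h)
  linarith

/-! ### rational data -/

/-- a zone: member `(y, b)`, `c`, `η`, multiplier `l`, tangent point `xt`, upper bound `LU` of
`log (A i / A (i + 1))`, area `A = A (i + 1)` -/
structure ZQ where
  b : ℚ
  c : ℚ
  y : ℚ
  η : ℚ
  l : ℚ
  xt : ℚ
  LU : ℚ
  A : ℚ
deriving DecidableEq

namespace ZQ

def rz (z : ZQ) : RZ := ⟨z.b, z.c, z.y, z.η⟩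

def g (z : ZQ) (k x : ℚ) : ℚ := z.c * (x + k / (2 * x) + k ^ 2 / (6 * x ^ 3))

def dg (z : ZQ) (k x : ℚ) : ℚ := z.c * (1 - k / (2 * x ^ 2) - k ^ 2 / (2 * x ^ 4))

/-- the primitive -/
def G (z : ZQ) (xc h1 x : ℚ) : ℚ :=
  if x ≤ xc then x else xc + (z.g ((1 - z.b) * h1 ^ 2) x - z.g ((1 - z.b) * h1 ^ 2) xc)

/-- its tangent at `xt` (above the cut) -/
def T (z : ZQ) (xc h1 x : ℚ) : ℚ :=
  xc + (z.g ((1 - z.b) * h1 ^ 2) z.xt - z.g ((1 - z.b) * h1 ^ 2) xc) +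
    z.dg ((1 - z.b) * h1 ^ 2) z.xt * (x - z.xt)

/-- lower bound of `2 l' G' - 2 l G` on `[h0, 1]` -/
def mb (z' z : ZQ) (xc h0 h1 : ℚ) : ℚ :=
  if 1 ≤ xc then min (2 * (z'.l - z.l) * h0) (2 * (z'.l - z.l))
  else min (min (2 * (z'.l - z.l) * h0) (2 * (z'.l - z.l) * xc))
    (min (2 * z'.l * z'.T xc h1 xc - 2 * z.l * z.G xc h1 xc)
      (2 * z'.l * z'.T xc h1 1 - 2 * z.l * z.G xc h1 1))

end ZQ

/-- lower bound of the zone form: `z'` the previous zone -/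
def zfL (xc h0 h1 : ℚ) : ZQ → List ZQ → ℚ
  | z', [] => 2 * z'.l * z'.G xc h1 1
  | z', z :: L => z'.mb z xc h0 h1 + zfL xc h0 h1 z L

/-- admissibility of one zone -/
def zOk (Lm : List (ℚ × ℚ)) (κ S1 : ℚ) (z : ZQ) : Bool :=
  decide (0 < z.b) && decide (z.b ≤ 1) && decide (0 ≤ z.c) && decide (z.b * z.c ^ 2 ≤ 1) &&
  decide (0 ≤ z.η) && decide (z.η * z.c * ((3 - z.b) / 2) ≤ z.y) && decide (0 ≤ z.l) &&
  decide (0 < z.A) && decide ((S1 * z.l) ^ 2 ≤ z.η ^ 2 * (κ * z.A)) &&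
  (decide (z.b = 1) || decide ((z.y, z.b) ∈ Lm)) && decide (0 < z.xt)

/-- Taylor sum of the exponential, Horner form: `eH x N 1 = Σ_{i < N} x^i / i!` -/
def eH (x : ℚ) : ℕ → ℕ → ℚ
  | 0, _ => 0
  | n + 1, j => 1 + x / j * eH x n (j + 1)

theorem eH_sum (x : ℚ) (n j : ℕ) : x ^ j / (j.factorial : ℚ) * eH x n (j + 1) +
    ∑ i ∈ Finset.range j, x ^ i / (i.factorial : ℚ) = ∑ i ∈ Finset.range (j + n), x ^ i / (i.factorial : ℚ) := by
  induction n generalizing j with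
  | zero => simp [eH]
  | succ n ih =>
    have h1 := ih (j + 1)
    rw [Finset.sum_range_succ, show j + 1 + n = j + (n + 1) by ring] at h1
    rw [← h1]
    have h2 : (j.factorial : ℚ) ≠ 0 := by positivity
    have h3 : (((j + 1).factorial : ℕ) : ℚ) = (j + 1 : ℚ) * (j.factorial : ℚ) := by
      rw [Nat.factorial_succ]
      push_cast
      ring
    have h4 : (j : ℚ) + 1 ≠ 0 := by positivity
    have h5 : eH x (n + 1) (j + 1) = 1 + x / ((j + 1 : ℕ) : ℚ) * eH x n (j + 1 + 1) := rfl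
    rw [h3, h5]
    set E := eH x n (j + 1 + 1)
    set S := ∑ i ∈ Finset.range j, x ^ i / (i.factorial : ℚ)
    push_cast
    field_simp
    ring

theorem eH_log {N : ℕ} {x r : ℚ} (hx : 0 ≤ x) (hr : 0 < r) (h : r ≤ eH x N 1) :
    Real.log (r : ℝ) ≤ (x : ℝ) := by
  have h1 : (r : ℝ) ≤ Real.exp x := by
    refine le_trans ?_ (Real.sum_le_exp_of_nonneg (by exact_mod_cast hx) N)
    have h2 := eH_sum x N 0
    simp only [pow_zero, Nat.factorial_zero, Nat.cast_one, div_one, one_mul, Finset.range_zero,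
      Finset.sum_empty, add_zero, zero_add] at h2
    rw [h2] at h
    have : (r : ℝ) ≤ ((∑ i ∈ Finset.range N, x ^ i / (i.factorial : ℚ) : ℚ) : ℝ) := by exact_mod_cast h
    refine this.trans (le_of_eq ?_)
    push_cast
    rfl
  have h2 := Real.log_le_log (by exact_mod_cast hr : (0 : ℝ) < r) h1
  rwa [Real.log_exp] at h2

/-- the areas and logarithms: `A0` the area above the first zone -/
def aOk (N : ℕ) : ℚ → List ZQ → Bool
  | _, [] => true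
  | A0, z :: L => decide (0 < z.A) && decide (z.A < A0) && decide (0 ≤ z.LU) &&
      decide (A0 / z.A ≤ eH z.LU N 1) && aOk N z.A L

/-- cost of the zones -/
def zCost (κ : ℚ) : List ZQ → ℚ
  | [] => 0
  | z :: L => z.l ^ 2 / κ * z.LU + zCost κ L

/-! ### soundness -/

instance : Inhabited ZQ := ⟨⟨1, 1, 0, 0, 0, 1, 0, 1⟩⟩

theorem ZQ.g_cast (z : ZQ) (k x : ℚ) : ((z.g k x : ℚ) : ℝ) = ringG z.c k x := by
  unfold ZQ.g ringG
  push_cast
  ring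

theorem ZQ.dg_cast (z : ZQ) (k x : ℚ) : ((z.dg k x : ℚ) : ℝ) = ringβ z.c k x := by
  unfold ZQ.dg ringβ
  push_cast
  ring

theorem ZQ.G_cast (z : ZQ) (xc h1 x : ℚ) : ((z.G xc h1 x : ℚ) : ℝ) = z.rz.G xc h1 x := by
  unfold ZQ.G RZ.G cutG ZQ.rz
  by_cases h : x ≤ xc
  · have h' : (x : ℝ) ≤ xc := by exact_mod_cast h
    rw [if_pos h, if_pos h']
  · have h' : ¬ (x : ℝ) ≤ xc := by exact_mod_cast h
    rw [if_neg h, if_neg h']
    push_cast [ZQ.g_cast]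
    ring

theorem mb_le {z' z : ZQ} {xc h0 h1 : ℚ} (hb' : z'.b ≤ 1) (hc' : 0 ≤ z'.c) (hl' : 0 ≤ z'.l)
    (ht' : 0 < z'.xt) (hb : z.b ≤ 1) (hc : 0 ≤ z.c) (hl : 0 ≤ z.l) (hxc : 0 < xc) {x : ℝ}
    (hx0 : (h0 : ℝ) ≤ x) (hx1 : x ≤ 1) :
    ((z'.mb z xc h0 h1 : ℚ) : ℝ) ≤ 2 * z'.l * z'.rz.G xc h1 x - 2 * z.l * z.rz.G xc h1 x := by
  have hlin : ∀ p q : ℝ, p ≤ x → x ≤ q → min (2 * ((z'.l : ℝ) - z.l) * p) (2 * ((z'.l : ℝ) - z.l) * q) ≤
      2 * z'.l * x - 2 * z.l * x := by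
    intro p q h2 h3
    rcases le_total 0 ((z'.l : ℝ) - z.l) with h | h
    · refine (min_le_left _ _).trans ?_
      nlinarith
    · refine (min_le_right _ _).trans ?_
      nlinarith
  have hGle : ∀ (y : RZ), x ≤ (xc : ℝ) → y.G xc h1 x = x := fun y h => by
    unfold RZ.G
    exact cutG_le h
  have hGge : ∀ (y : RZ), (xc : ℝ) ≤ x → y.G xc h1 x =
      xc + (ringG y.c ((1 - y.b) * (h1 : ℝ) ^ 2) x - ringG y.c ((1 - y.b) * (h1 : ℝ) ^ 2) xc) := fun y h => by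
    unfold RZ.G
    exact cutG_ge h
  unfold ZQ.mb
  by_cases h : 1 ≤ xc
  · rw [if_pos h]
    have h' : (1 : ℝ) ≤ xc := by exact_mod_cast h
    rw [hGle _ (hx1.trans h'), hGle _ (hx1.trans h')]
    have := hlin h0 1 hx0 hx1
    push_cast
    rw [mul_one] at this
    exact this
  · rw [if_neg h]
    have h' : (xc : ℝ) < 1 := by exact_mod_cast (not_le.1 h)
    have hxc' : (0 : ℝ) < xc := by exact_mod_cast hxc
    rcases le_total x xc with h2 | h2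
    · rw [hGle _ h2, hGle _ h2]
      have := hlin h0 xc hx0 h2
      push_cast
      exact (min_le_left _ _).trans this
    · rw [hGge _ h2, hGge _ h2]
      have hx : 0 < x := hxc'.trans_le h2
      -- casts
      have ck' : (((1 - z'.b) * h1 ^ 2 : ℚ) : ℝ) = (1 - (z'.b : ℝ)) * (h1 : ℝ) ^ 2 := by push_cast; ring
      have ck : (((1 - z.b) * h1 ^ 2 : ℚ) : ℝ) = (1 - (z.b : ℝ)) * (h1 : ℝ) ^ 2 := by push_cast; ring
      have hk' : 0 ≤ (1 - (z'.b : ℝ)) * (h1 : ℝ) ^ 2 := by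
        have : (z'.b : ℝ) ≤ 1 := by exact_mod_cast hb'
        exact mul_nonneg (by linarith) (sq_nonneg _)
      have hk : 0 ≤ (1 - (z.b : ℝ)) * (h1 : ℝ) ^ 2 := by
        have : (z.b : ℝ) ≤ 1 := by exact_mod_cast hb
        exact mul_nonneg (by linarith) (sq_nonneg _)
      have ht'' : (0 : ℝ) < z'.xt := by exact_mod_cast ht'
      have t1 := ringG_tangent (c₀ := (z'.c : ℝ)) (by exact_mod_cast hc') hk' hx ht''
      set k' := (1 - (z'.b : ℝ)) * (h1 : ℝ) ^ 2 with hk'd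
      set k := (1 - (z.b : ℝ)) * (h1 : ℝ) ^ 2 with hkd
      have cT : ∀ u : ℚ, ((z'.T xc h1 u : ℚ) : ℝ) = xc + (ringG z'.c k' z'.xt - ringG z'.c k' xc) +
          ringβ z'.c k' z'.xt * ((u : ℝ) - z'.xt) := by
        intro u
        unfold ZQ.T
        push_cast [ZQ.g_cast, ZQ.dg_cast]
        rw [hk'd]
      have hl1 : (0 : ℝ) ≤ z'.l := by exact_mod_cast hl'
      have hl2 : (0 : ℝ) ≤ z.l := by exact_mod_cast hl
      -- the affine lower bound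
      set β := 2 * (z'.l : ℝ) * ringβ z'.c k' z'.xt with hβ
      set α := 2 * (z'.l : ℝ) * (xc + (ringG z'.c k' z'.xt - ringG z'.c k' xc) -
        ringβ z'.c k' z'.xt * z'.xt) - 2 * z.l * (xc - ringG z.c k xc) with hα
      set m := ((min (2 * z'.l * z'.T xc h1 xc - 2 * z.l * z.G xc h1 xc)
        (2 * z'.l * z'.T xc h1 1 - 2 * z.l * z.G xc h1 1) : ℚ) : ℝ) with hm
      have m1 : m ≤ α + β * xc - 2 * z.l * ringG z.c k xc := by
        have h3 : m ≤ ((2 * z'.l * z'.T xc h1 xc - 2 * z.l * z.G xc h1 xc : ℚ) : ℝ) := by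
          rw [hm]
          exact_mod_cast min_le_left _ _
        refine h3.trans (le_of_eq ?_)
        push_cast
        rw [cT, ZQ.G_cast]
        have h4 : z.rz.G xc h1 (xc : ℝ) = xc := by
          unfold RZ.G
          exact cutG_le le_rfl
        rw [h4, hα, hβ]
        ring
      have m2 : m ≤ α + β * 1 - 2 * z.l * ringG z.c k 1 := by
        have h3 : m ≤ ((2 * z'.l * z'.T xc h1 1 - 2 * z.l * z.G xc h1 1 : ℚ) : ℝ) := by
          rw [hm]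
          exact_mod_cast min_le_right _ _
        refine h3.trans (le_of_eq ?_)
        push_cast
        rw [cT, ZQ.G_cast]
        have h4 : z.rz.G xc h1 ((1 : ℚ) : ℝ) = xc + (ringG z.c k 1 - ringG z.c k xc) := by
          unfold RZ.G
          rw [cutG_ge (by push_cast; exact h'.le)]
          push_cast
          rfl
        rw [h4, hα, hβ]
        push_cast
        ring
      have h5 := ringG_min (c₀ := (z.c : ℝ)) (by exact_mod_cast hc) hk (by positivity : 0 ≤ 2 * (z.l : ℝ))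
        hxc' h2 hx1 m1 m2
      have h6 : ((min (min (2 * (z'.l - z.l) * h0) (2 * (z'.l - z.l) * xc))
          (min (2 * z'.l * z'.T xc h1 xc - 2 * z.l * z.G xc h1 xc)
            (2 * z'.l * z'.T xc h1 1 - 2 * z.l * z.G xc h1 1)) : ℚ) : ℝ) ≤ m := by
        rw [hm]
        exact_mod_cast min_le_right _ _
      refine h6.trans (h5.trans ?_)
      have h7 := mul_le_mul_of_nonneg_left t1 (by positivity : 0 ≤ 2 * (z'.l : ℝ))
      change _ ≤ 2 * (z'.l : ℝ) * (xc + (ringG z'.c k' x - ringG z'.c k' xc)) -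
        2 * z.l * (xc + (ringG z.c k x - ringG z.c k xc))
      rw [hα, hβ]
      linarith

/-- the list of zones as functions -/
def zAt (L : List ZQ) (i : ℕ) : ZQ := L.getD i default

theorem zAt_zero (z : ZQ) (L : List ZQ) : zAt (z :: L) 0 = z := rfl

theorem zAt_succ (z : ZQ) (L : List ZQ) (i : ℕ) : zAt (z :: L) (i + 1) = zAt L i := rfl

theorem zAt_mem {L : List ZQ} {i : ℕ} (h : i < L.length) : zAt L i ∈ L := by
  unfold zAt
  rw [List.getD_eq_getElem _ _ h]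
  exact List.getElem_mem h

/-- **the zone form** -/
theorem zfL_le {xc h0 h1 : ℚ} (hxc : 0 < xc) (L : List ZQ) : ∀ (z' : ZQ), z'.b ≤ 1 → 0 ≤ z'.c → 0 ≤ z'.l →
    0 < z'.xt → (∀ z ∈ L, z.b ≤ 1 ∧ 0 ≤ z.c ∧ 0 ≤ z.l ∧ 0 < z.xt) → ∀ x : ℕ → ℝ, (h0 : ℝ) ≤ x 0 →
    (∀ i, i < L.length → x i ≤ x (i + 1)) → x L.length = 1 →
    ((zfL xc h0 h1 z' L : ℚ) : ℝ) ≤ 2 * z'.l * z'.rz.G xc h1 (x 0) +
      ∑ i ∈ Finset.range L.length, 2 * ((zAt L i).l : ℝ) *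
        ((zAt L i).rz.G xc h1 (x (i + 1)) - (zAt L i).rz.G xc h1 (x i)) := by
  induction L with
  | nil =>
    intro z' _ _ _ _ _ x _ _ hx
    have hx' : x 0 = 1 := hx
    rw [hx']
    simp only [zfL, List.length_nil, Finset.range_zero, Finset.sum_empty, add_zero]
    push_cast
    rw [ZQ.G_cast]
    push_cast
    exact le_rfl
  | cons z L ih =>
    intro z' hb hc hl ht hL x h0x hm hx
    obtain ⟨b1, b2, b3, b4⟩ := hL z (by simp)
    have hmono : ∀ i, i ≤ (z :: L).length → x 0 ≤ x i := by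
      intro i
      induction i with
      | zero => intro _; exact le_rfl
      | succ i ih2 => intro hi; exact (ih2 (by omega)).trans (hm i (by omega))
    have hx1 : x 0 ≤ 1 := by
      rw [← hx]
      exact hmono _ le_rfl
    have h2 := mb_le (h1 := h1) hb hc hl ht b1 b2 b3 hxc h0x hx1
    have h3 := ih z b1 b2 b3 b4 (fun z hz => hL z (by simp [hz])) (fun i => x (i + 1))
      (h0x.trans (hm 0 (by simp))) (fun i hi => hm (i + 1) (by simp; omega)) hx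
    rw [List.length_cons, Finset.sum_range_succ']
    have h4 : ((zfL xc h0 h1 z' (z :: L) : ℚ) : ℝ) = ((z'.mb z xc h0 h1 : ℚ) : ℝ) +
        ((zfL xc h0 h1 z L : ℚ) : ℝ) := by
      simp only [zfL]
      push_cast
      rfl
    rw [h4]
    simp only [zAt_succ, zAt_zero]
    have h5 : x (0 + 1) = x 1 := rfl
    linarith

theorem zOk_sound {Lm : List (ℚ × ℚ)} {κ S1 : ℚ} {z : ZQ} (h : zOk Lm κ S1 z = true) :
    z.rz.Ok ∧ (z.b ≤ 1 ∧ 0 ≤ z.c ∧ 0 ≤ z.l ∧ 0 < z.xt) ∧ 0 < z.A ∧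
      (S1 * z.l) ^ 2 ≤ z.η ^ 2 * (κ * z.A) ∧ 0 ≤ z.η ∧ (z.b = 1 ∨ (z.y, z.b) ∈ Lm) := by
  simp only [zOk, Bool.and_eq_true, Bool.or_eq_true, decide_eq_true_eq] at h
  obtain ⟨⟨⟨⟨⟨⟨⟨⟨⟨⟨h1, h2⟩, h3⟩, h4⟩, h5⟩, h6⟩, h7⟩, h8⟩, h9⟩, h10⟩, h11⟩ := h
  refine ⟨⟨?_, ?_, ?_, ?_, ?_, ?_⟩, ⟨h2, h3, h7, h11⟩, h8, h9, h5, h10⟩
  · change (0 : ℝ) < z.b
    exact_mod_cast h1
  · change (z.b : ℝ) ≤ 1
    exact_mod_cast h2
  · change (0 : ℝ) ≤ z.c
    exact_mod_cast h3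
  · change (z.b : ℝ) * (z.c : ℝ) ^ 2 ≤ 1
    exact_mod_cast h4
  · change (0 : ℝ) ≤ z.η
    exact_mod_cast h5
  · change (z.η : ℝ) * z.c * ((3 - z.b) / 2) ≤ z.y
    have : (((z.η * z.c * ((3 - z.b) / 2)) : ℚ) : ℝ) ≤ z.y := by exact_mod_cast h6
    push_cast at this
    exact this

/-- cost of the graded band (one band), `κ zf = q a₀` -/
def gcU (κ zf W0 W1 a0U a1 LU0 μ ζ : ℚ) : ℚ :=
  (μ - ζ * W0) ^ 2 / (κ * zf) +
    (μ ^ 2 * LU0 - 2 * μ * ((μ - ζ * W0) * W1) * (1 - a1 / a0U) +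
      ((μ - ζ * W0) * W1) ^ 2 * (1 - (a1 / a0U) ^ 2) / 2) / ((1 - W1 ^ 2) * κ)

/-- **the rational check of one exterior piece** -/
def exrOk (N : ℕ) (Lm : List (ℚ × ℚ)) (cm κ zf W0 W1 a0U a1 LU0 μ ζ xc h0 h1 S0 S1 Q : ℚ)
    (L : List ZQ) : Bool :=
  decide (0 < κ) && decide (0 < zf) && decide (0 ≤ W1) && decide (W1 < 1) && decide (0 < a1) &&
  decide (a1 ≤ a0U) && decide (0 ≤ LU0) && decide (a0U / a1 ≤ eH LU0 N 1) &&
  decide (0 ≤ μ - ζ * W0) && decide ((μ - ζ * W0) * W1 ≤ μ) && decide (0 ≤ μ + ζ * W1) &&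
  decide (0 < xc) && decide (h1 ≤ xc) && (decide (1 < xc) || decide (cm ≤ xc * S0)) && decide (0 ≤ S1) &&
  L.all (zOk Lm κ S1) && aOk N a1 L &&
  decide (Q + 2 * ζ * h0 ≤ zfL xc h0 h1 ⟨1, 1, 0, 0, μ + ζ * W1, 1, 0, 1⟩ L -
    gcU κ zf W0 W1 a0U a1 LU0 μ ζ - zCost κ L) &&
  decide (Q + 2 * ζ * h1 ≤ zfL xc h0 h1 ⟨1, 1, 0, 0, μ + ζ * W1, 1, 0, 1⟩ L -
    gcU κ zf W0 W1 a0U a1 LU0 μ ζ - zCost κ L)

theorem zCost_le {N : ℕ} {κ : ℚ} (hκ : 0 < κ) (L : List ZQ) : ∀ (A0 : ℚ) (A : ℕ → ℝ), 0 < A0 → A 0 = A0 →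
    (∀ i, i < L.length → A (i + 1) = (zAt L i).A) → aOk N A0 L = true →
    ∑ i ∈ Finset.range L.length, ((zAt L i).l : ℝ) ^ 2 / κ * Real.log (A i / A (i + 1)) ≤
      ((zCost κ L : ℚ) : ℝ) := by
  induction L with
  | nil =>
    intro A0 A _ _ _ _
    simp [zCost]
  | cons z L ih =>
    intro A0 A h0 hA0 hA h
    simp only [aOk, Bool.and_eq_true, decide_eq_true_eq] at h
    obtain ⟨⟨⟨⟨h1, h2⟩, h3⟩, h4⟩, h5⟩ := h
    have hA1 : A 1 = z.A := hA 0 (by simp)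
    have h6 := ih z.A (fun i => A (i + 1)) h1 hA1 (fun i hi => hA (i + 1) (by simp; omega)) h5
    rw [List.length_cons, Finset.sum_range_succ']
    simp only [zAt_succ, zAt_zero, zCost]
    have h7 := eH_log h3 (div_pos h0 h1) h4
    have h8 : Real.log (A 0 / A (0 + 1)) ≤ z.LU := by
      rw [hA0, zero_add, hA1]
      push_cast at h7
      exact h7
    have hκ' : (0 : ℝ) < κ := by exact_mod_cast hκ
    have h9 : (z.l : ℝ) ^ 2 / κ * Real.log (A 0 / A (0 + 1)) ≤ (z.l : ℝ) ^ 2 / κ * z.LU :=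
      mul_le_mul_of_nonneg_left h8 (by positivity)
    push_cast
    linarith

theorem aOk_dec {N : ℕ} (L : List ZQ) : ∀ (A0 : ℚ) (A : ℕ → ℝ), A 0 = A0 →
    (∀ i, i < L.length → A (i + 1) = (zAt L i).A) → aOk N A0 L = true →
    ∀ i, i < L.length → A (i + 1) < A i := by
  induction L with
  | nil =>
    intro A0 A _ _ _ i hi
    simp at hi
  | cons z L ih =>
    intro A0 A hA0 hA h i hi
    simp only [aOk, Bool.and_eq_true, decide_eq_true_eq] at h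
    obtain ⟨⟨⟨⟨h1, h2⟩, h3⟩, h4⟩, h5⟩ := h
    have hA1 : A 1 = z.A := hA 0 (by simp)
    rcases i with _ | i
    · rw [hA0, zero_add, hA1]
      exact_mod_cast h2
    · exact ih z.A (fun i => A (i + 1)) hA1 (fun i hi => hA (i + 1) (by simp; omega)) h5 i
        (by simp at hi; omega)

/-- the cost of the graded band, `a 0` only bounded from above -/
theorem gcost_le {a w l : ℕ → ℝ} {q κ zf a1 a0U LU : ℝ} (hκ : 0 < κ) (hw : 0 ≤ w 1) (hw1 : w 1 < 1)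
    (ha0 : 0 < a 0) (ha0U : a 0 ≤ a0U) (ha1 : a 1 = a1) (ha1p : 0 < a1) (hq : q * a 0 = κ * zf)
    (hLU : Real.log (a0U / a1) ≤ LU) :
    gcost a w 1 q κ l ≤ l 0 ^ 2 / (κ * zf) + (l 1 ^ 2 * LU - 2 * l 1 * (l 0 * w 1) * (1 - a1 / a0U) +
      (l 0 * w 1) ^ 2 * (1 - (a1 / a0U) ^ 2) / 2) / ((1 - w 1 ^ 2) * κ) := by
  have hg : gkw w 1 0 = w 1 := by
    unfold gkw
    rw [show Finset.Ioc 0 1 = {1} by rfl, Finset.sum_singleton]
  have hK : 0 < 1 - w 1 ^ 2 := by nlinarith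
  have hU : 0 < a0U := ha0.trans_le ha0U
  unfold gcost
  rw [Finset.sum_range_one, hg, hq, ha1, zero_add]
  have h1 : Psb (l 1) (l 0 * w 1 / a 0) (1 - w 1 ^ 2) κ (a 0) - Psb (l 1) (l 0 * w 1 / a 0) (1 - w 1 ^ 2) κ a1 =
      Psb (l 1) (l 0 * w 1) (1 - w 1 ^ 2) κ 1 - Psb (l 1) (l 0 * w 1) (1 - w 1 ^ 2) κ (a1 / a 0) := by
    unfold Psb
    rw [Real.log_div ha1p.ne' ha0.ne', Real.log_one]
    field_simp
    ring
  have h2 : Psb (l 1) (l 0 * w 1) (1 - w 1 ^ 2) κ (a1 / a0U) ≤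
      Psb (l 1) (l 0 * w 1) (1 - w 1 ^ 2) κ (a1 / a 0) :=
    Psb_mono hK hκ (by positivity) (div_le_div_of_nonneg_left ha1p.le ha0 ha0U)
  have h3 : Psb (l 1) (l 0 * w 1) (1 - w 1 ^ 2) κ 1 - Psb (l 1) (l 0 * w 1) (1 - w 1 ^ 2) κ (a1 / a0U) =
      (l 1 ^ 2 * Real.log (a0U / a1) - 2 * l 1 * (l 0 * w 1) * (1 - a1 / a0U) +
      (l 0 * w 1) ^ 2 * (1 - (a1 / a0U) ^ 2) / 2) / ((1 - w 1 ^ 2) * κ) := by
    unfold Psb
    rw [Real.log_one, Real.log_div ha1p.ne' hU.ne', Real.log_div hU.ne' ha1p.ne']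
    ring
  have h4 : (l 1 ^ 2 * Real.log (a0U / a1) - 2 * l 1 * (l 0 * w 1) * (1 - a1 / a0U) +
      (l 0 * w 1) ^ 2 * (1 - (a1 / a0U) ^ 2) / 2) / ((1 - w 1 ^ 2) * κ) ≤
      (l 1 ^ 2 * LU - 2 * l 1 * (l 0 * w 1) * (1 - a1 / a0U) +
      (l 0 * w 1) ^ 2 * (1 - (a1 / a0U) ^ 2) / 2) / ((1 - w 1 ^ 2) * κ) := by
    refine div_le_div_of_nonneg_right ?_ (by positivity)
    have := mul_le_mul_of_nonneg_left hLU (sq_nonneg (l 1))
    linarith
  linarith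

/-- **soundness of the check** -/
theorem exrOk_sound {N : ℕ} {Lm : List (ℚ × ℚ)} {cm κ zf W0 W1 a0U a1 LU0 μ ζ xc h0 h1 S0 S1 Q : ℚ}
    {L : List ZQ} (h : exrOk N Lm cm κ zf W0 W1 a0U a1 LU0 μ ζ xc h0 h1 S0 S1 Q L = true)
    {P : ℝ → ℝ → Prop} (hP : ∀ p ∈ Lm, P (p.1 : ℝ) (p.2 : ℝ)) {a w A : ℕ → ℝ} {q : ℝ} (ha0 : 0 < a 0)
    (ha0U : a 0 ≤ a0U) (ha1 : a 1 = a1) (hw0 : w 0 = W0) (hw1 : w 1 = W1) (hA0 : A 0 = a1)
    (hA : ∀ i, i < L.length → A (i + 1) = (zAt L i).A) (hq : q * a 0 = κ * zf) :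
    ExtR P cm a w 1 A L.length q κ h0 h1 S0 S1 Q := by
  simp only [exrOk, Bool.and_eq_true, Bool.or_eq_true, decide_eq_true_eq, List.all_eq_true] at h
  obtain ⟨⟨⟨⟨⟨⟨⟨⟨⟨⟨⟨⟨⟨⟨⟨⟨⟨⟨e1, e2⟩, e3⟩, e4⟩, e5⟩, e6⟩, e7⟩, e8⟩, e9⟩, e10⟩, e11⟩, e12⟩, e13⟩, e14⟩, e15⟩,
    e16⟩, e17⟩, e18⟩, e19⟩ := h
  have hz := fun z hz => zOk_sound (e16 z hz)
  have m0 : mvec w 1 (μ : ℝ) ζ 0 = μ - ζ * W0 := by
    unfold mvec
    rw [show Finset.Ico 0 1 = {0} by rfl, Finset.sum_singleton, hw0]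
  have m1 : mvec w 1 (μ : ℝ) ζ 1 = μ := mvec_top w 1 μ ζ
  have hg : gkw w 1 0 = w 1 := by
    unfold gkw
    rw [show Finset.Ioc 0 1 = {1} by rfl, Finset.sum_singleton]
  have hκ' : (0 : ℝ) < κ := by exact_mod_cast e1
  have hgc := gcost_le (a := a) (w := w) (l := mvec w 1 (μ : ℝ) ζ) (q := q) (κ := (κ : ℝ)) (zf := (zf : ℝ))
    (a1 := (a1 : ℝ)) (a0U := (a0U : ℝ)) (LU := (LU0 : ℝ)) hκ'
    (by rw [hw1]; exact_mod_cast e3) (by rw [hw1]; exact_mod_cast e4) ha0 ha0U ha1 (by exact_mod_cast e5) hq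
    (by
      have h5 := eH_log e7 (div_pos (e5.trans_le e6) e5) e8
      push_cast at h5
      exact h5)
  rw [m0, m1, hw1] at hgc
  have hgcU : ((gcU κ zf W0 W1 a0U a1 LU0 μ ζ : ℚ) : ℝ) = (μ - ζ * W0 : ℝ) ^ 2 / (κ * zf) +
      ((μ : ℝ) ^ 2 * LU0 - 2 * μ * ((μ - ζ * W0) * W1) * (1 - a1 / a0U) +
      ((μ - ζ * W0) * W1) ^ 2 * (1 - ((a1 : ℝ) / a0U) ^ 2) / 2) / ((1 - (W1 : ℝ) ^ 2) * κ) := by
    unfold gcU
    push_cast
    ring
  rw [← hgcU] at hgc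
  refine ⟨μ, ζ, xc, ((zfL xc h0 h1 ⟨1, 1, 0, 0, μ + ζ * W1, 1, 0, 1⟩ L : ℚ) : ℝ), ((zCost κ L : ℚ) : ℝ),
    fun i => ((zAt L i).l : ℝ), fun i => (zAt L i).rz, ?_, ?_, ?_, ?_, ?_, ?_, ?_, ?_, ?_, ?_⟩
  · rw [m0]
    exact_mod_cast e9
  · intro k hk
    have : k = 0 := by omega
    subst this
    rw [m0, hg, hw1, zero_add, m1]
    have h5 : ((μ : ℝ) - ζ * W0) * W1 ≤ μ := by exact_mod_cast e10
    have := mul_le_mul_of_nonneg_right h5 ha0.le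
    linarith
  · intro i hi
    obtain ⟨z1, z2, z3, z4, z5, z6⟩ := hz _ (zAt_mem hi)
    refine ⟨z1, ?_, ?_, ?_⟩
    · change (0 : ℝ) ≤ (zAt L i).l
      exact_mod_cast z2.2.2.1
    · rw [hA i hi]
      change (S1 : ℝ) * (zAt L i).l ≤ ((zAt L i).η : ℝ) * √(κ * (zAt L i).A)
      have h5 : ((S1 : ℝ) * (zAt L i).l) ^ 2 ≤ ((zAt L i).η : ℝ) ^ 2 * (κ * (zAt L i).A) := by
        exact_mod_cast z4
      have h6 : (0 : ℝ) ≤ (zAt L i).η := by exact_mod_cast z5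
      have h7 : ((zAt L i).η : ℝ) * √(κ * (zAt L i).A) = √(((zAt L i).η : ℝ) ^ 2 * (κ * (zAt L i).A)) := by
        rw [Real.sqrt_mul (sq_nonneg _), Real.sqrt_sq h6]
      rw [h7]
      exact Real.le_sqrt_of_sq_le h5
    · rcases z6 with h | h
      · left
        change ((zAt L i).b : ℝ) = 1
        exact_mod_cast h
      · right
        exact hP _ h
  · exact_mod_cast e12
  · exact_mod_cast e13
  · rcases e14 with h | h
    · left
      exact_mod_cast h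
    · right
      exact_mod_cast h
  · intro x hx0 hxm hx1
    have h5 := zfL_le (h0 := h0) (h1 := h1) e12 L ⟨1, 1, 0, 0, μ + ζ * W1, 1, 0, 1⟩ le_rfl zero_le_one e11
      zero_lt_one (fun z hz' => (hz z hz').2.1) x hx0 hxm hx1
    refine h5.trans (le_of_eq ?_)
    have h6 : (ZQ.rz ⟨1, 1, 0, 0, μ + ζ * W1, 1, 0, 1⟩).G xc h1 (x 0) = x 0 := by
      unfold RZ.G ZQ.rz cutG ringG
      simp
    rw [h6, hw1]
    push_cast
    ring
  · exact zCost_le e1 L a1 A e5 hA0 hA e17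
  · have h5 : ((Q : ℝ) + 2 * ζ * h0) ≤ ((zfL xc h0 h1 ⟨1, 1, 0, 0, μ + ζ * W1, 1, 0, 1⟩ L -
        gcU κ zf W0 W1 a0U a1 LU0 μ ζ - zCost κ L : ℚ) : ℝ) := by exact_mod_cast e18
    push_cast at h5
    linarith
  · have h5 : ((Q : ℝ) + 2 * ζ * h1) ≤ ((zfL xc h0 h1 ⟨1, 1, 0, 0, μ + ζ * W1, 1, 0, 1⟩ L -
        gcU κ zf W0 W1 a0U a1 LU0 μ ζ - zCost κ L : ℚ) : ℝ) := by exact_mod_cast e19
    push_cast at h5
    linarith

end Pool.Agent.FPX
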