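import Mathlib
import Pool.Agent.FPX.EXB
import Pool.Agent.FPX.FINR

/-
EXQ (helper95): rational check for the exterior certificate `ExtS` in unit fractions (one graded band
`1 > a1`, ring or base zones below `a1` with the areas `AL`), for `cellM_ring`.
-/

open Set Filter Topology

noncomputable section

namespace Pool.Agent.FPX

/-- admissibility of one zone, unit fractions -/
def zOkS (Lm : List (ℚ × ℚ)) (κ r0 S1 : ℚ) (z : ZQ) : Bool :=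
  decide (0 < z.b) && decide (z.b ≤ 1) && decide (0 ≤ z.c) && decide (z.b * z.c ^ 2 ≤ 1) &&
  decide (0 ≤ z.η) && decide (z.η * z.c * ((3 - z.b) / 2) ≤ z.y) && decide (0 ≤ z.l) &&
  decide (0 < z.A) && decide (0 < z.xt) &&
  (decide (z.b = 1) ||
    (decide ((z.y, z.b) ∈ Lm) && decide ((S1 * z.l) ^ 2 ≤ z.η ^ 2 * (κ * (r0 * z.A)))))

theorem zOkS_sound {Lm : List (ℚ × ℚ)} {κ r0 S1 : ℚ} {z : ZQ} (h : zOkS Lm κ r0 S1 z = true) :
    z.rz.Ok ∧ (z.b ≤ 1 ∧ 0 ≤ z.c ∧ 0 ≤ z.l ∧ 0 < z.xt) ∧ 0 < z.A ∧ 0 ≤ z.η ∧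
      (z.b = 1 ∨ ((z.y, z.b) ∈ Lm ∧ (S1 * z.l) ^ 2 ≤ z.η ^ 2 * (κ * (r0 * z.A)))) := by
  simp only [zOkS, Bool.and_eq_true, Bool.or_eq_true, decide_eq_true_eq] at h
  obtain ⟨⟨⟨⟨⟨⟨⟨⟨⟨h1, h2⟩, h3⟩, h4⟩, h5⟩, h6⟩, h7⟩, h8⟩, h9⟩, h10⟩ := h
  refine ⟨⟨?_, ?_, ?_, ?_, ?_, ?_⟩, ⟨h2, h3, h7, h9⟩, h8, h5, h10⟩
  · change (0 : ℝ) < z.b
    exact_mod_cast h1
  · change (z.b : ℝ) ≤ 1
    exact_mod_cast h2
  · change (0 : ℝ) ≤ z.c
    exact_mod_cast h3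
  · change (z.b : ℝ) * (z.c : ℝ) ^ 2 ≤ 1
    exact_mod_cast h4
  · change (0 : ℝ) ≤ z.η
    exact_mod_cast h5
  · change (z.η : ℝ) * z.c * ((3 - z.b) / 2) ≤ z.y
    have : (((z.η * z.c * ((3 - z.b) / 2)) : ℚ) : ℝ) ≤ z.y := by exact_mod_cast h6
    push_cast at this
    exact this

/-- **the rational check of one exterior piece, unit fractions** -/
def exsOk (N : ℕ) (Lm : List (ℚ × ℚ)) (cm r0 κ zf W0 W1 a1 LU0 μ ζ xc h0 h1 S0 S1 Q : ℚ)
    (AL : List ℚ) (L : List ZQ) : Bool :=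
  decide (0 < κ) && decide (0 < zf) && decide (0 ≤ W1) && decide (W1 < 1) && decide (0 < a1) &&
  decide (a1 ≤ 1) && decide (0 ≤ LU0) && decide (1 / a1 ≤ eH LU0 N 1) &&
  decide (0 ≤ μ - ζ * W0) && decide ((μ - ζ * W0) * W1 ≤ μ) && decide (0 ≤ μ + ζ * W1) &&
  decide (0 < xc) && decide (h1 ≤ xc) && (decide (1 < xc) || decide (cm ≤ xc * S0)) && decide (0 ≤ S1) &&
  L.all (zOkS Lm κ r0 S1) && aOk N a1 L &&
  decide (Q + 2 * ζ * h0 ≤ zfL xc h0 h1 ⟨1, 1, 0, 0, μ + ζ * W1, 1, 0, 1⟩ L -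
    gcU κ zf W0 W1 1 a1 LU0 μ ζ - zCost κ L) &&
  decide (Q + 2 * ζ * h1 ≤ zfL xc h0 h1 ⟨1, 1, 0, 0, μ + ζ * W1, 1, 0, 1⟩ L -
    gcU κ zf W0 W1 1 a1 LU0 μ ζ - zCost κ L) && decide (L.map (fun z => z.A) = AL)

/-- the areas: graded band -/
def exRho (a1 : ℚ) (i : ℕ) : ℝ := if i = 0 then 1 else a1

/-- the weights -/
def exW (W0 W1 : ℚ) (i : ℕ) : ℝ := if i = 0 then W0 else W1

/-- the areas of the zones -/
def exA (a1 : ℚ) (AL : List ℚ) (i : ℕ) : ℝ := (((a1 :: AL).getD i 1 : ℚ) : ℝ)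

/-- the list of areas is decreasing and positive -/
def exAOk : ℚ → List ℚ → Bool
  | a, [] => decide (0 < a)
  | a, b :: L => decide (0 < b) && decide (b < a) && exAOk b L

theorem exAOk_pos : ∀ (L : List ℚ) (a : ℚ), exAOk a L = true → ∀ i, 0 < exA a L i := by
  intro L
  induction L with
  | nil =>
    intro a h i
    simp only [exAOk, decide_eq_true_eq] at h
    rcases i with _ | i
    · simp only [exA, List.getD_cons_zero]
      exact_mod_cast h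
    · simp [exA]
  | cons b L ih =>
    intro a h i
    simp only [exAOk, Bool.and_eq_true, decide_eq_true_eq] at h
    obtain ⟨⟨h1, h2⟩, h3⟩ := h
    rcases i with _ | i
    · simp only [exA, List.getD_cons_zero]
      exact_mod_cast h1.trans h2
    · have := ih b h3 i
      simp only [exA, List.getD_cons_succ] at this ⊢
      exact this

theorem exAOk_dec : ∀ (L : List ℚ) (a : ℚ), exAOk a L = true → ∀ i, i < L.length →
    exA a L (i + 1) < exA a L i := by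
  intro L
  induction L with
  | nil =>
    intro a _ i hi
    simp at hi
  | cons b L ih =>
    intro a h i hi
    simp only [exAOk, Bool.and_eq_true, decide_eq_true_eq] at h
    obtain ⟨⟨h1, h2⟩, h3⟩ := h
    rcases i with _ | i
    · simp only [exA, List.getD_cons_zero, List.getD_cons_succ]
      exact_mod_cast h2
    · have := ih b h3 i (by simp at hi; omega)
      simp only [exA, List.getD_cons_succ] at this ⊢
      exact this

theorem exA_zero (a1 : ℚ) (AL : List ℚ) : exA a1 AL 0 = a1 := by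
  simp [exA]

theorem exA_zAt (a1 : ℚ) (L : List ZQ) {i : ℕ} (hi : i < L.length) :
    exA a1 (L.map (fun z => z.A)) (i + 1) = (zAt L i).A := by
  unfold exA zAt
  rw [List.getD_cons_succ, List.getD_eq_getElem _ _ (by simpa using hi), List.getD_eq_getElem _ _ hi]
  simp

/-- **soundness of the check in unit fractions** -/
theorem exsOk_sound {N : ℕ} {Lm : List (ℚ × ℚ)} {cm r0 κ zf W0 W1 a1 LU0 μ ζ xc h0 h1 S0 S1 Q : ℚ}
    {AL : List ℚ} {L : List ZQ}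
    (h : exsOk N Lm cm r0 κ zf W0 W1 a1 LU0 μ ζ xc h0 h1 S0 S1 Q AL L = true)
    {P : ℝ → ℝ → Prop} (hP : ∀ p ∈ Lm, P (p.1 : ℝ) (p.2 : ℝ)) :
    ExtS P cm r0 (exRho a1) (exW W0 W1) 1 (exA a1 AL) AL.length ((κ : ℝ) * zf) κ h0 h1 S0 S1 Q := by
  simp only [exsOk, Bool.and_eq_true, Bool.or_eq_true, decide_eq_true_eq, List.all_eq_true] at h
  obtain ⟨⟨⟨⟨⟨⟨⟨⟨⟨⟨⟨⟨⟨⟨⟨⟨⟨⟨⟨e1, e2⟩, e3⟩, e4⟩, e5⟩, e6⟩, e7⟩, e8⟩, e9⟩, e10⟩, e11⟩, e12⟩, e13⟩, e14⟩,
    e15⟩, e16⟩, e17⟩, e18⟩, e19⟩, e20⟩ := h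
  have hz := fun z hz => zOkS_sound (e16 z hz)
  subst e20
  rw [List.length_map]
  set w := exW W0 W1 with hwd
  have hw0 : w 0 = W0 := by simp [hwd, exW]
  have hw1 : w 1 = W1 := by simp [hwd, exW]
  set a := exRho a1 with had
  have ha0' : a 0 = 1 := by simp [had, exRho]
  have ha0 : 0 < a 0 := by rw [ha0']; exact one_pos
  have ha1 : a 1 = a1 := by simp [had, exRho]
  have m0 : mvec w 1 (μ : ℝ) ζ 0 = μ - ζ * W0 := by
    unfold mvec
    rw [show Finset.Ico 0 1 = {0} by rfl, Finset.sum_singleton, hw0]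
  have m1 : mvec w 1 (μ : ℝ) ζ 1 = μ := mvec_top w 1 μ ζ
  have hg : gkw w 1 0 = w 1 := by
    unfold gkw
    rw [show Finset.Ioc 0 1 = {1} by rfl, Finset.sum_singleton]
  have hκ' : (0 : ℝ) < κ := by exact_mod_cast e1
  have hgc := gcost_le (a := a) (w := w) (l := mvec w 1 (μ : ℝ) ζ) (q := (κ : ℝ) * zf) (κ := (κ : ℝ))
    (zf := (zf : ℝ)) (a1 := (a1 : ℝ)) (a0U := ((1 : ℚ) : ℝ)) (LU := (LU0 : ℝ)) hκ'
    (by rw [hw1]; exact_mod_cast e3) (by rw [hw1]; exact_mod_cast e4) ha0 (by rw [ha0']; push_cast; exact le_rfl)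
    ha1 (by exact_mod_cast e5) (by rw [ha0', mul_one])
    (by
      have h5 := eH_log e7 (div_pos one_pos e5) e8
      push_cast at h5 ⊢
      exact h5)
  rw [m0, m1, hw1] at hgc
  have hgcU : ((gcU κ zf W0 W1 1 a1 LU0 μ ζ : ℚ) : ℝ) = (μ - ζ * W0 : ℝ) ^ 2 / (κ * zf) +
      ((μ : ℝ) ^ 2 * LU0 - 2 * μ * ((μ - ζ * W0) * W1) * (1 - a1 / ((1 : ℚ) : ℝ)) +
      ((μ - ζ * W0) * W1) ^ 2 * (1 - ((a1 : ℝ) / ((1 : ℚ) : ℝ)) ^ 2) / 2) / ((1 - (W1 : ℝ) ^ 2) * κ) := by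
    unfold gcU
    push_cast
    ring
  rw [← hgcU] at hgc
  refine ⟨μ, ζ, xc, ((zfL xc h0 h1 ⟨1, 1, 0, 0, μ + ζ * W1, 1, 0, 1⟩ L : ℚ) : ℝ), ((zCost κ L : ℚ) : ℝ),
    fun i => ((zAt L i).l : ℝ), fun i => (zAt L i).rz, ?_, ?_, ?_, ?_, ?_, ?_, ?_, ?_, ?_, ?_⟩
  · rw [m0]
    exact_mod_cast e9
  · intro k hk
    have : k = 0 := by omega
    subst this
    rw [m0, hg, hw1, zero_add, m1]
    have h5 : ((μ : ℝ) - ζ * W0) * W1 ≤ μ := by exact_mod_cast e10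
    have := mul_le_mul_of_nonneg_right h5 ha0.le
    linarith
  · intro i hi
    obtain ⟨z1, z2, z3, z5, z6⟩ := hz _ (zAt_mem hi)
    refine ⟨z1, ?_, ?_⟩
    · change (0 : ℝ) ≤ (zAt L i).l
      exact_mod_cast z2.2.2.1
    · rcases z6 with h | ⟨h, z4⟩
      · left
        change ((zAt L i).b : ℝ) = 1
        exact_mod_cast h
      · right
        refine ⟨hP _ h, ?_⟩
        rw [exA_zAt a1 L hi]
        change (S1 : ℝ) * (zAt L i).l ≤ ((zAt L i).η : ℝ) * √(κ * (r0 * (zAt L i).A))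
        have h5 : ((S1 : ℝ) * (zAt L i).l) ^ 2 ≤ ((zAt L i).η : ℝ) ^ 2 * (κ * (r0 * (zAt L i).A)) := by
          exact_mod_cast z4
        have h6 : (0 : ℝ) ≤ (zAt L i).η := by exact_mod_cast z5
        have h7 : ((zAt L i).η : ℝ) * √(κ * (r0 * (zAt L i).A)) =
            √(((zAt L i).η : ℝ) ^ 2 * (κ * (r0 * (zAt L i).A))) := by
          rw [Real.sqrt_mul (sq_nonneg _), Real.sqrt_sq h6]
        rw [h7]
        exact Real.le_sqrt_of_sq_le h5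
  · exact_mod_cast e12
  · exact_mod_cast e13
  · rcases e14 with h | h
    · left
      exact_mod_cast h
    · right
      exact_mod_cast h
  · intro x hx0 hxm hx1
    have h5 := zfL_le (h0 := h0) (h1 := h1) e12 L ⟨1, 1, 0, 0, μ + ζ * W1, 1, 0, 1⟩ le_rfl zero_le_one e11
      zero_lt_one (fun z hz' => (hz z hz').2.1) x hx0 hxm hx1
    refine h5.trans (le_of_eq ?_)
    have h6 : (ZQ.rz ⟨1, 1, 0, 0, μ + ζ * W1, 1, 0, 1⟩).G xc h1 (x 0) = x 0 := by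
      unfold RZ.G ZQ.rz cutG ringG
      simp
    rw [h6, hw1]
    push_cast
    ring
  · have k1 : exA a1 (L.map fun z => z.A) 0 = (a1 : ℝ) := exA_zero a1 (L.map fun z => z.A)
    have k2 : ∀ i, i < L.length → exA a1 (L.map fun z => z.A) (i + 1) = ((zAt L i).A : ℝ) :=
      fun i hi => exA_zAt a1 L hi
    generalize exA a1 (L.map fun z => z.A) = A at k1 k2 ⊢
    exact zCost_le e1 L a1 A e5 k1 k2 e17
  · have h5 : ((Q : ℝ) + 2 * ζ * h0) ≤ ((zfL xc h0 h1 ⟨1, 1, 0, 0, μ + ζ * W1, 1, 0, 1⟩ L -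
        gcU κ zf W0 W1 1 a1 LU0 μ ζ - zCost κ L : ℚ) : ℝ) := by exact_mod_cast e18
    push_cast at h5 ⊢
    linarith
  · have h5 : ((Q : ℝ) + 2 * ζ * h1) ≤ ((zfL xc h0 h1 ⟨1, 1, 0, 0, μ + ζ * W1, 1, 0, 1⟩ L -
        gcU κ zf W0 W1 1 a1 LU0 μ ζ - zCost κ L : ℚ) : ℝ) := by exact_mod_cast e19
    push_cast at h5 ⊢
    linarith

/-- the side conditions of `cellM_ring` for the shared areas and weights -/
def exShOk (W0 W1 a1 : ℚ) (AL : List ℚ) : Bool :=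
  decide (0 < a1) && decide (a1 < 1) && decide (0 < W0) && decide (0 ≤ W1) && decide (W0 + W1 = 1) &&
  exAOk a1 AL

theorem exShOk_sound {W0 W1 a1 : ℚ} {AL : List ℚ} (h : exShOk W0 W1 a1 AL = true) :
    exRho a1 0 = 1 ∧ (∀ j, 0 < exRho a1 j) ∧ (∀ j, j < 1 → exRho a1 (j + 1) < exRho a1 j) ∧
      exA a1 AL 0 = exRho a1 1 ∧ (∀ j, 0 < exA a1 AL j) ∧
      (∀ j, j < AL.length → exA a1 AL (j + 1) < exA a1 AL j) ∧ (∀ j, 0 ≤ exW W0 W1 j) ∧
      ∑ j ∈ Finset.range (1 + 1), exW W0 W1 j = 1 ∧ 0 < exW W0 W1 0 := by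
  simp only [exShOk, Bool.and_eq_true, decide_eq_true_eq] at h
  obtain ⟨⟨⟨⟨⟨h1, h2⟩, h3⟩, h4⟩, h5⟩, h6⟩ := h
  refine ⟨by simp [exRho], fun j => ?_, fun j hj => ?_, ?_, exAOk_pos _ _ h6, exAOk_dec _ _ h6,
    fun j => ?_, ?_, ?_⟩
  · unfold exRho
    split_ifs
    · exact one_pos
    · exact_mod_cast h1
  · have : j = 0 := by omega
    subst this
    simp only [exRho, zero_add, one_ne_zero, if_false, if_true]
    exact_mod_cast h2
  · rw [exA_zero]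
    simp [exRho]
  · unfold exW
    split_ifs
    · exact_mod_cast h3.le
    · exact_mod_cast h4
  · rw [Finset.sum_range_succ, Finset.sum_range_one]
    simp only [exW, one_ne_zero, if_false, if_true]
    exact_mod_cast h5
  · simp only [exW, if_true]
    exact_mod_cast h3

end Pool.Agent.FPX
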