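import Mathlib
import Pool.Agent.FPX.EXTF

/-
EXTG (helper20): the cut-off flux of `T` is at least the flux of `U/|U|` up to an error which is the
same for all potentials.
-/

open MeasureTheory Set Filter Topology
open scoped ENNReal NNReal

noncomputable section

namespace Pool.Agent.FPX

open Pool.Agent.EWD

variable {M : Type} [MetricSpace M] {γ : ℝ → M}

theorem kU_meas : Measurable (fun q : E3 × E3 × E3 => kU q.1 q.2.1 q.2.2) := by
  have c1 : Continuous (fun q : E3 × E3 × E3 => crs q.1 q.2.1) :=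
    crs_cont.comp (f := fun q : E3 × E3 × E3 => (q.1, q.2.1)) (by fun_prop)
  have c2 : Continuous (fun q : E3 × E3 × E3 => (inner ℝ q.2.2 (crs q.1 q.2.1) : ℝ)) :=
    Continuous.inner (by fun_prop) c1
  have c3 : Continuous (fun q : E3 × E3 × E3 => ‖q.1‖ ^ 2 - (inner ℝ q.1 q.2.2 : ℝ) ^ 2) := by
    fun_prop
  exact c2.measurable.div c3.measurable

theorem kU_aem {Ω : Type} [MeasurableSpace Ω] {μ : Measure Ω} {U a p : Ω → E3} (hU : AEMeasurable U μ)
    (ha : AEMeasurable a μ) (hp : AEMeasurable p μ) : AEMeasurable (fun q => kU (U q) (a q) (p q)) μ :=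
  Measurable.comp_aemeasurable (g := fun q : E3 × E3 × E3 => kU q.1 q.2.1 q.2.2)
    (f := fun q => (U q, a q, p q)) kU_meas (hU.prodMk (ha.prodMk hp))

theorem kU_meas' {Ω : Type} [MeasurableSpace Ω] {U a p : Ω → E3} (hU : Measurable U)
    (ha : Measurable a) (hp : Measurable p) : Measurable (fun q => kU (U q) (a q) (p q)) :=
  Measurable.comp (g := fun q : E3 × E3 × E3 => kU q.1 q.2.1 q.2.2)
    (f := fun q => (U q, a q, p q)) kU_meas (hU.prodMk (ha.prodMk hp))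

/-- the difference of the kernels, with the cut-off -/
def dk (χ : ℝ → ℝ) (T a U b p : E3) : ℝ := χ ‖T‖ * kU T a p - kU U b p

private theorem EXTG_dk_aem {Ω : Type} [MeasurableSpace Ω] {μ : Measure Ω} {χ : ℝ → ℝ}
    (hχ : Continuous χ) {T a U b p : Ω → E3} (hT : AEMeasurable T μ) (ha : AEMeasurable a μ)
    (hU : AEMeasurable U μ) (hb : AEMeasurable b μ) (hp : AEMeasurable p μ) :
    AEMeasurable (fun q => dk χ (T q) (a q) (U q) (b q) (p q)) μ := by
  unfold dk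
  exact ((hχ.measurable.comp_aemeasurable hT.norm).mul (kU_aem hT ha hp)).sub (kU_aem hU hb hp)

private theorem EXTG_dk_meas (χ : ℝ → ℝ) (T a U b : E3) :
    Measurable (fun p => dk χ T a U b p) := by
  unfold dk
  exact ((kU_meas' measurable_const measurable_const measurable_id).const_mul _).sub
    (kU_meas' measurable_const measurable_const measurable_id)

/-- the mean of the difference near the zeros -/
private theorem EXTG_near {χ : ℝ → ℝ} {c : ℝ} (hχ : CutF χ c) {B : ℝ} (hB : 0 ≤ B) {T a U b : E3}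
    (ha : ‖a‖ ≤ B) (hU : U ≠ 0) (hb : ‖b‖ ≤ B) :
    ∫⁻ p, ENNReal.ofReal |dk χ T a U b p| ∂PP ≤
      ENNReal.ofReal (Real.pi / 2 * B / c) + ENNReal.ofReal (Real.pi / 2 * B) * ENNReal.ofReal (1 / ‖U‖) := by
  have hc := hχ.pos
  have hpi := Real.pi_pos
  have h1 : ∀ p, ENNReal.ofReal |dk χ T a U b p| ≤
      ENNReal.ofReal |χ ‖T‖ * kU T a p| + ENNReal.ofReal |kU U b p| := by
    intro p
    rw [← ENNReal.ofReal_add (abs_nonneg _) (abs_nonneg _)]
    exact ENNReal.ofReal_le_ofReal (abs_sub _ _)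
  refine (lintegral_mono h1).trans ?_
  have m1 : Measurable fun p => ENNReal.ofReal |kU U b p| :=
    (kU_meas' measurable_const measurable_const measurable_id).abs.ennreal_ofReal
  rw [lintegral_add_right _ m1]
  refine add_le_add ?_ ?_
  · rcases le_or_gt ‖T‖ c with h | h
    · rw [hχ.zero _ h]
      simp
    · have hT : T ≠ 0 := norm_pos_iff.1 (hc.trans h)
      have h2 : ∀ p, ENNReal.ofReal |χ ‖T‖ * kU T a p| ≤ ENNReal.ofReal |kU T a p| := by
        intro p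
        refine ENNReal.ofReal_le_ofReal ?_
        rw [abs_mul, abs_of_nonneg (hχ.rng _).1]
        exact mul_le_of_le_one_left (abs_nonneg _) (hχ.rng _).2
      refine (lintegral_mono h2).trans ((kU_le hT).trans (ENNReal.ofReal_le_ofReal ?_))
      have h3 : ‖a‖ / ‖T‖ ≤ B / c := by
        rw [div_le_div_iff₀ (hc.trans h) hc]
        nlinarith [norm_nonneg a]
      calc ‖a‖ / ‖T‖ * (Real.pi / 2) ≤ B / c * (Real.pi / 2) := by gcongr
        _ = _ := by ring
  · refine (kU_le hU).trans ?_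
    rw [← ENNReal.ofReal_mul (by positivity)]
    refine ENNReal.ofReal_le_ofReal ?_
    have hU0 : 0 < ‖U‖ := norm_pos_iff.2 hU
    calc ‖b‖ / ‖U‖ * (Real.pi / 2) ≤ B / ‖U‖ * (Real.pi / 2) := by gcongr
      _ = _ := by ring

/-- `a.e.` the difference of the densities -/
private theorem EXTG_diff (C : Calc M γ) {χ : ℝ → ℝ} {T U : Fin 3 → M → ℝ} (hU : ∀ k, Lip (U k)) {δ : ℝ}
    (hδ : 0 ≤ δ) (hr : ∀ x, δ < ‖vv (n := 0) U x‖) : ∀ᵐ o ∂C.μ, ∀ (θ : M → ℝ) (p : E3),
    flc C χ θ T p o - flx C θ (NV δ U) p o =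
      C.gx θ o * dk χ (at' C T o) (dy C T o) (at' C U o) (dy C U o) p
      - C.gy θ o * dk χ (at' C T o) (dx C T o) (at' C U o) (dx C U o) p := by
  filter_upwards [ae_flx_nv C hδ hU hr] with o ho θ p
  rw [ho θ p]
  unfold flc dk kU
  ring

theorem ext_cmp [CompactSpace M] (C : Calc M γ) {χ : ℝ → ℝ} {c : ℝ} (hχ : CutF χ c)
    {T U : Fin 3 → M → ℝ} (hT : ∀ k, Lip (T k)) (hU : ∀ k, Lip (U k)) (oU : ∀ k, OddB γ (U k))
    {δ : ℝ≥0} (hδ : 0 < δ) (hr : ∀ x, (δ : ℝ) < ‖vv (n := 0) U x‖) {B ε₁ κ : ℝ} (hB : 0 ≤ B)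
    (hε₁ : 0 ≤ ε₁) (hκ : 0 ≤ κ)
    (hb : ∀ᵐ o ∂C.μ, ‖dx C T o‖ ≤ B ∧ ‖dy C T o‖ ≤ B ∧ ‖dx C U o‖ ≤ B ∧ ‖dy C U o‖ ≤ B)
    (hn : ∀ᵐ o ∂C.μ, 2 * c ≤ ‖at' C T o‖ →
      ∫⁻ p, ENNReal.ofReal |dk χ (at' C T o) (dx C T o) (at' C U o) (dx C U o) p| ∂PP ≤
        ENNReal.ofReal ε₁ ∧
      ∫⁻ p, ENNReal.ofReal |dk χ (at' C T o) (dy C T o) (at' C U o) (dy C U o) p| ∂PP ≤
        ENNReal.ofReal ε₁)
    (hinv : ∫⁻ o in {o | ‖at' C T o‖ < 2 * c}, ENNReal.ofReal (1 / ‖at' C U o‖) ∂C.μ ≤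
      ENNReal.ofReal κ * C.μ {o | ‖at' C T o‖ < 2 * c}) :
    ∃ D : E3 → ℝ, Integrable D PP ∧
      ∫ p, D p ∂PP ≤ 2 * ε₁ * C.vol + Real.pi * B * (1 / c + κ) * C.μ.real {o | ‖at' C T o‖ < 2 * c} ∧
      ∀ θ : M → ℝ, LipschitzWith 1 θ → Integrable (fun p => FluxC C χ θ T p) PP ∧
        ∀ᵐ p ∂PP, Flux C θ (NV δ U) p - D p ≤ FluxC C χ θ T p := by
  have := C.fin
  have hc := hχ.pos
  have hpi := Real.pi_pos
  have hδ' : (0 : ℝ) < δ := hδ
  obtain ⟨t1, t2, t0⟩ := meas_dx C hT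
  obtain ⟨u1, u2, u0⟩ := meas_dx C hU
  have hSph : Sph γ (NV δ U) := NV_sph hδ hU oU fun x => (hr x).le
  set S : Set Om := {o | ‖at' C T o‖ < 2 * c} with hS
  have hSm : NullMeasurableSet S C.μ := t0.norm.nullMeasurable measurableSet_Iio
  set Dd : Om × E3 → ℝ := fun q =>
    |dk χ (at' C T q.1) (dy C T q.1) (at' C U q.1) (dy C U q.1) q.2| +
    |dk χ (at' C T q.1) (dx C T q.1) (at' C U q.1) (dx C U q.1) q.2| with hDd
  have mx : AEMeasurable (fun q : Om × E3 =>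
      dk χ (at' C T q.1) (dx C T q.1) (at' C U q.1) (dx C U q.1) q.2) (C.μ.prod PP) :=
    EXTG_dk_aem hχ.cont t0.comp_fst t1.comp_fst u0.comp_fst u1.comp_fst measurable_snd.aemeasurable
  have my : AEMeasurable (fun q : Om × E3 =>
      dk χ (at' C T q.1) (dy C T q.1) (at' C U q.1) (dy C U q.1) q.2) (C.μ.prod PP) :=
    EXTG_dk_aem hχ.cont t0.comp_fst t2.comp_fst u0.comp_fst u2.comp_fst measurable_snd.aemeasurable
  have mD : AEMeasurable Dd (C.μ.prod PP) := my.abs.add mx.abs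
  have hD0 : ∀ q, 0 ≤ Dd q := fun q => add_nonneg (abs_nonneg _) (abs_nonneg _)
  -- the total of the difference
  set Tot : ℝ≥0∞ := ENNReal.ofReal (2 * ε₁) * C.μ univ +
    ENNReal.ofReal (Real.pi * B * (1 / c + κ)) * C.μ S with hTot
  have hTotf : Tot ≠ ∞ := ENNReal.add_ne_top.2
    ⟨ENNReal.mul_ne_top ENNReal.ofReal_ne_top (measure_ne_top _ _),
      ENNReal.mul_ne_top ENNReal.ofReal_ne_top (measure_ne_top _ _)⟩
  have hsum : ∀ o, ∫⁻ p, ENNReal.ofReal (Dd (o, p)) ∂PP =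
      ∫⁻ p, ENNReal.ofReal |dk χ (at' C T o) (dy C T o) (at' C U o) (dy C U o) p| ∂PP +
      ∫⁻ p, ENNReal.ofReal |dk χ (at' C T o) (dx C T o) (at' C U o) (dx C U o) p| ∂PP := by
    intro o
    have m1 : Measurable fun p => ENNReal.ofReal |dk χ (at' C T o) (dx C T o) (at' C U o) (dx C U o) p| :=
      (EXTG_dk_meas χ _ _ _ _).abs.ennreal_ofReal
    rw [← lintegral_add_right _ m1]
    refine lintegral_congr fun p => ?_
    rw [← ENNReal.ofReal_add (abs_nonneg _) (abs_nonneg _)]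
  have hbd : ∫⁻ q, ENNReal.ofReal (Dd q) ∂(C.μ.prod PP) ≤ Tot := by
    rw [lintegral_prod _ mD.ennreal_ofReal]
    have h0 : ∫⁻ o, ∫⁻ p, ENNReal.ofReal (Dd (o, p)) ∂PP ∂C.μ ≤
        ∫⁻ o in S, ∫⁻ p, ENNReal.ofReal (Dd (o, p)) ∂PP ∂C.μ +
        ∫⁻ o in Sᶜ, ∫⁻ p, ENNReal.ofReal (Dd (o, p)) ∂PP ∂C.μ := by
      have := lintegral_union_le (μ := C.μ) (fun o => ∫⁻ p, ENNReal.ofReal (Dd (o, p)) ∂PP) S Sᶜ
      rwa [union_compl_self, Measure.restrict_univ] at this
    refine h0.trans ?_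
    have h1 : ∫⁻ o in Sᶜ, ∫⁻ p, ENNReal.ofReal (Dd (o, p)) ∂PP ∂C.μ ≤
        ENNReal.ofReal (2 * ε₁) * C.μ univ := by
      have h2 : ∀ᵐ o ∂(C.μ.restrict Sᶜ), ∫⁻ p, ENNReal.ofReal (Dd (o, p)) ∂PP ≤ ENNReal.ofReal (2 * ε₁) := by
        filter_upwards [ae_restrict_of_ae hn, ae_restrict_mem₀ hSm.compl] with o ho1 ho2
        have h3 : 2 * c ≤ ‖at' C T o‖ := not_lt.1 ho2
        obtain ⟨h4, h5⟩ := ho1 h3
        rw [hsum, two_mul, ENNReal.ofReal_add hε₁ hε₁]
        exact add_le_add h5 h4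
      refine (lintegral_mono_ae h2).trans ?_
      rw [lintegral_const]
      exact mul_le_mul' le_rfl (by rw [Measure.restrict_apply_univ]; exact measure_mono (subset_univ _))
    have h6 : ∫⁻ o in S, ∫⁻ p, ENNReal.ofReal (Dd (o, p)) ∂PP ∂C.μ ≤
        ENNReal.ofReal (Real.pi * B * (1 / c + κ)) * C.μ S := by
      have h7 : ∀ᵐ o ∂(C.μ.restrict S), ∫⁻ p, ENNReal.ofReal (Dd (o, p)) ∂PP ≤
          ENNReal.ofReal (Real.pi * B / c) + ENNReal.ofReal (Real.pi * B) * ENNReal.ofReal (1 / ‖at' C U o‖) := by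
        filter_upwards [ae_restrict_of_ae hb] with o ho
        have hU0 : at' C U o ≠ 0 := norm_pos_iff.1 (hδ'.trans (hr (C.pt o)))
        rw [hsum]
        refine (add_le_add (EXTG_near hχ hB ho.2.1 hU0 ho.2.2.2)
          (EXTG_near hχ hB ho.1 hU0 ho.2.2.1)).trans (le_of_eq ?_)
        have e1 : ENNReal.ofReal (Real.pi * B / c) = ENNReal.ofReal (Real.pi / 2 * B / c)
            + ENNReal.ofReal (Real.pi / 2 * B / c) := by
          rw [← ENNReal.ofReal_add (by positivity) (by positivity)]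
          congr 1
          ring
        have e2 : ENNReal.ofReal (Real.pi * B) = ENNReal.ofReal (Real.pi / 2 * B)
            + ENNReal.ofReal (Real.pi / 2 * B) := by
          rw [← ENNReal.ofReal_add (by positivity) (by positivity)]
          congr 1
          ring
        rw [e1, e2, add_mul]
        abel
      refine (lintegral_mono_ae h7).trans ?_
      rw [lintegral_add_left measurable_const, lintegral_const,
        lintegral_const_mul' _ _ ENNReal.ofReal_ne_top, Measure.restrict_apply_univ]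
      refine (add_le_add le_rfl (mul_le_mul' le_rfl hinv)).trans (le_of_eq ?_)
      rw [← mul_assoc, ← ENNReal.ofReal_mul (by positivity), ← add_mul,
        ← ENNReal.ofReal_add (by positivity) (by positivity)]
      congr 2
      ring
    rw [add_comm]
    exact add_le_add h1 h6
  have hDi : Integrable Dd (C.μ.prod PP) := by
    refine ⟨mD.aestronglyMeasurable, ?_⟩
    rw [hasFiniteIntegral_iff_ofReal (Eventually.of_forall hD0)]
    exact hbd.trans_lt hTotf.lt_top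
  refine ⟨fun p => ∫ o, Dd (o, p) ∂C.μ, hDi.integral_prod_right, ?_, ?_⟩
  · have e : ∫ p, ∫ o, Dd (o, p) ∂C.μ ∂PP = ∫ q, Dd q ∂(C.μ.prod PP) := by
      rw [integral_prod_symm _ hDi]
    rw [e, integral_eq_lintegral_of_nonneg_ae (Eventually.of_forall hD0) mD.aestronglyMeasurable]
    refine (ENNReal.toReal_mono hTotf hbd).trans (le_of_eq ?_)
    rw [hTot, ENNReal.toReal_add (ENNReal.mul_ne_top ENNReal.ofReal_ne_top (measure_ne_top _ _))
      (ENNReal.mul_ne_top ENNReal.ofReal_ne_top (measure_ne_top _ _)), ENNReal.toReal_mul,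
      ENNReal.toReal_mul, ENNReal.toReal_ofReal (by positivity), ENNReal.toReal_ofReal (by positivity)]
    rfl
  · intro θ hθ
    have lθ : Lip θ := ⟨1, hθ⟩
    obtain ⟨-, fi, fF⟩ := flux_meas C hSph lθ
    -- the difference of the densities
    set df : Om × E3 → ℝ := fun q => flc C χ θ T q.2 q.1 - flx C θ (NV δ U) q.2 q.1 with hdf
    set df' : Om × E3 → ℝ := fun q =>
      C.gx θ q.1 * dk χ (at' C T q.1) (dy C T q.1) (at' C U q.1) (dy C U q.1) q.2
      - C.gy θ q.1 * dk χ (at' C T q.1) (dx C T q.1) (at' C U q.1) (dx C U q.1) q.2 with hdf'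
    have hdd : df =ᵐ[C.μ.prod PP] df' := by
      have h1 := (Measure.quasiMeasurePreserving_fst (μ := C.μ) (ν := PP)).ae
        (EXTG_diff C (χ := χ) (T := T) hU hδ'.le hr)
      filter_upwards [h1] with q hq
      exact hq θ q.2
    have mgx : AEMeasurable (fun q : Om × E3 => C.gx θ q.1) (C.μ.prod PP) := (C.meas_gx lθ).comp_fst
    have mgy : AEMeasurable (fun q : Om × E3 => C.gy θ q.1) (C.μ.prod PP) := (C.meas_gy lθ).comp_fst
    have mdf' : AEMeasurable df' (C.μ.prod PP) := (mgx.mul my).sub (mgy.mul mx)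
    have hθ1 : ∀ᵐ o ∂C.μ, |C.gx θ o| ≤ 1 ∧ |C.gy θ o| ≤ 1 := by
      filter_upwards [C.ae_grad_le hθ] with o ho
      rw [NNReal.coe_one, one_pow] at ho
      constructor
      · exact abs_le_of_sq_le_sq (by nlinarith [sq_nonneg (C.gy θ o)]) zero_le_one
      · exact abs_le_of_sq_le_sq (by nlinarith [sq_nonneg (C.gx θ o)]) zero_le_one
    have hle : ∀ᵐ q ∂(C.μ.prod PP), |df q| ≤ Dd q := by
      have h1 := (Measure.quasiMeasurePreserving_fst (μ := C.μ) (ν := PP)).ae hθ1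
      filter_upwards [h1, hdd] with q hq1 hq2
      rw [hq2]
      simp only [hdf', hDd]
      refine (abs_sub _ _).trans ?_
      rw [abs_mul, abs_mul]
      exact add_le_add (mul_le_of_le_one_left (abs_nonneg _) hq1.1)
        (mul_le_of_le_one_left (abs_nonneg _) hq1.2)
    have hdfi : Integrable df (C.μ.prod PP) :=
      hDi.mono' (mdf'.congr hdd.symm).aestronglyMeasurable hle
    have hfli : Integrable (fun q : Om × E3 => flc C χ θ T q.2 q.1) (C.μ.prod PP) := by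
      refine (fi.add hdfi).congr (Eventually.of_forall fun q => ?_)
      simp only [hdf, Pi.add_apply]
      ring
    refine ⟨hfli.integral_prod_right, ?_⟩
    have hle' : ∀ᵐ p ∂PP, ∀ᵐ o ∂C.μ, |df (o, p)| ≤ Dd (o, p) := by
      have h2 : ∀ᵐ q ∂(PP.prod C.μ), |df q.swap| ≤ Dd q.swap :=
        (Measure.measurePreserving_swap (μ := PP) (ν := C.μ)).quasiMeasurePreserving.ae hle
      exact Measure.ae_ae_of_ae_prod h2
    filter_upwards [hle', hfli.prod_left_ae, fi.prod_left_ae, hDi.prod_left_ae, hdfi.prod_left_ae]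
      with p hp1 hp2 hp3 hp4 hp5
    have h1 : Flux C θ (NV δ U) p - ∫ o, Dd (o, p) ∂C.μ = ∫ o, (flx C θ (NV δ U) p o - Dd (o, p)) ∂C.μ := by
      rw [integral_sub hp3 hp4]
      rfl
    rw [h1]
    unfold FluxC
    refine integral_mono_ae (hp3.sub hp4) hp2 ?_
    filter_upwards [hp1] with o ho
    have h2 := (abs_le.1 ho).1
    simp only [hdf] at h2
    linarith

end Pool.Agent.FPX
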