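import Mathlib
import Pool.Agent.FPX.EXTG

/-
EXTC (helper20): the cut-off flux of `T` differs from the flux of any odd map `v` into the sphere
with `v = T/|T|` on `{2c ≤ |T|}` by an error which is the same for all potentials and has the size
of the area of `{|T| < 2c}`.
-/

open MeasureTheory Set Filter Topology
open scoped ENNReal NNReal

noncomputable section

namespace Pool.Agent.FPX

open Pool.Agent.EWD

variable {M : Type} [MetricSpace M] {γ : ℝ → M}

private theorem EXTC_key {u : ℝ → ℝ} {g g' : ℝ} (h1 : HasDerivAt u g 0)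
    (h2 : HasDerivAt (fun t => |u t|) g' 0) (h0 : u 0 = 0) : g = 0 := by
  have hm : IsLocalMin (fun t => |u t|) 0 := by
    refine Eventually.of_forall fun t => ?_
    change |u 0| ≤ |u t|
    rw [h0, abs_zero]
    exact abs_nonneg _
  have h3 : g' = 0 := hm.hasDerivAt_eq_zero h2
  rw [h3, hasDerivAt_iff_isLittleO] at h2
  have h4 : HasDerivAt u 0 0 := by
    rw [hasDerivAt_iff_isLittleO]
    simp only [h0, abs_zero, sub_zero, smul_zero] at h2 ⊢
    exact (Asymptotics.isLittleO_abs_left).1 h2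
  exact h1.unique h4

/-- the derivatives of a Lipschitz function vanish almost everywhere on its zero set -/
theorem zero_grad (C : Calc M γ) {f : M → ℝ} (hf : Lip f) :
    ∀ᵐ o ∂C.μ, f (C.pt o) = 0 → C.gx f o = 0 ∧ C.gy f o = 0 := by
  have ha : Lip fun x => |f x| := by
    obtain ⟨K, hK⟩ := hf
    refine ⟨K, ?_⟩
    have := lipschitzWith_one_norm.comp hK
    rw [one_mul] at this
    exact this
  filter_upwards [C.ae_has hf, C.ae_has ha] with o h1 h2 h0
  exact ⟨EXTC_key h1.1 h2.1 h0, EXTC_key h1.2 h2.2 (by rw [C.same o]; exact h0)⟩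

/-- `v = T/|T|` on `{r ≤ |T|}` gives the derivatives there -/
theorem ae_eq_nv (C : Calc M γ) {δ r : ℝ} (hδ : δ ≤ r) {T v : Fin 3 → M → ℝ} (hv : ∀ k, Lip (v k))
    (hvT : ∀ x, r ≤ ‖vv (n := 0) T x‖ → ∀ k, v k x = T k x / ‖vv (n := 0) T x‖)
    (hN : ∀ k, Lip (NV δ T k)) :
    ∀ᵐ o ∂C.μ, r ≤ ‖at' C T o‖ → at' C v o = at' C (NV δ T) o ∧
      dx C v o = dx C (NV δ T) o ∧ dy C v o = dy C (NV δ T) o := by
  have h1 : ∀ᵐ o ∂C.μ, ∀ k, (v k (C.pt o) - NV δ T k (C.pt o) = 0 →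
      C.gx (fun x => v k x - NV δ T k x) o = 0 ∧ C.gy (fun x => v k x - NV δ T k x) o = 0) ∧
      (C.gx (fun x => v k x - NV δ T k x) o = C.gx (v k) o - C.gx (NV δ T k) o ∧
        C.gy (fun x => v k x - NV δ T k x) o = C.gy (v k) o - C.gy (NV δ T k) o) := by
    rw [ae_all_iff]
    intro k
    filter_upwards [zero_grad C ((hv k).sub (hN k)), C.ae_sub (hv k) (hN k)] with o h2 h3
    exact ⟨h2, h3⟩
  filter_upwards [h1] with o ho hr
  have e : ∀ k, v k (C.pt o) = NV δ T k (C.pt o) := by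
    intro k
    have hr' : r ≤ ‖vv (n := 0) T (C.pt o)‖ := hr
    rw [hvT _ hr' k]
    unfold NV
    rw [max_eq_left (hδ.trans hr')]
  have g : ∀ k, C.gx (v k) o = C.gx (NV δ T k) o ∧ C.gy (v k) o = C.gy (NV δ T k) o := by
    intro k
    obtain ⟨h2, h3, h4⟩ := ho k
    obtain ⟨h5, h6⟩ := h2 (by rw [e k, sub_self])
    constructor <;> linarith
  refine ⟨?_, ?_, ?_⟩
  · unfold at'
    rw [e 0, e 1, e 2]
  · unfold dx
    rw [(g 0).1, (g 1).1, (g 2).1]
  · unfold dy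
    rw [(g 0).2, (g 1).2, (g 2).2]

/-- the norm of the derivative of a map with Lipschitz coordinates -/
theorem ae_dx_le (C : Calc M γ) {L : ℝ≥0} {T : Fin 3 → M → ℝ} (hT : ∀ k, LipschitzWith L (T k)) :
    ∀ᵐ o ∂C.μ, ‖dx C T o‖ ≤ 2 * L ∧ ‖dy C T o‖ ≤ 2 * L := by
  have h : ∀ᵐ o ∂C.μ, ∀ k, C.gx (T k) o ^ 2 + C.gy (T k) o ^ 2 ≤ (L : ℝ) ^ 2 :=
    ae_all_iff.2 fun k => C.ae_grad_le (hT k)
  filter_upwards [h] with o ho
  have h0 := ho 0
  have h1 := ho 1
  have h2 := ho 2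
  have hL : (0 : ℝ) ≤ 2 * L := by positivity
  constructor
  · refine le_of_sq_le_sq ?_ hL
    rw [EuclideanSpace.norm_sq_eq, Fin.sum_univ_three]
    simp only [Real.norm_eq_abs, sq_abs]
    change C.gx (T 0) o ^ 2 + C.gx (T 1) o ^ 2 + C.gx (T 2) o ^ 2 ≤ _
    nlinarith [sq_nonneg (C.gy (T 0) o), sq_nonneg (C.gy (T 1) o), sq_nonneg (C.gy (T 2) o),
      sq_nonneg (L : ℝ)]
  · refine le_of_sq_le_sq ?_ hL
    rw [EuclideanSpace.norm_sq_eq, Fin.sum_univ_three]
    simp only [Real.norm_eq_abs, sq_abs]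
    change C.gy (T 0) o ^ 2 + C.gy (T 1) o ^ 2 + C.gy (T 2) o ^ 2 ≤ _
    nlinarith [sq_nonneg (C.gx (T 0) o), sq_nonneg (C.gx (T 1) o), sq_nonneg (C.gx (T 2) o),
      sq_nonneg (L : ℝ)]

/-- for a unit vector the kernel is the one of `flx` -/
theorem kU_unit {u : E3} (hu : ‖u‖ = 1) (a p : E3) : kU u a p = inner ℝ p (crs u a) / sq2 u p := by
  unfold kU sq2
  rw [hu, one_pow]

private theorem EXTC_cut {χ : ℝ → ℝ} {c : ℝ} (hχ : CutF χ c) {B : ℝ} (hB : 0 ≤ B) {T a : E3}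
    (ha : ‖a‖ ≤ B) : ∫⁻ p, ENNReal.ofReal |χ ‖T‖ * kU T a p| ∂PP ≤ ENNReal.ofReal (Real.pi / 2 * (B / c)) := by
  have hc := hχ.pos
  have hpi := Real.pi_pos
  rcases le_or_gt ‖T‖ c with h | h
  · rw [hχ.zero _ h]
    simp
  · have hT : T ≠ 0 := norm_pos_iff.1 (hc.trans h)
    have h2 : ∀ p, ENNReal.ofReal |χ ‖T‖ * kU T a p| ≤ ENNReal.ofReal |kU T a p| := by
      intro p
      refine ENNReal.ofReal_le_ofReal ?_
      rw [abs_mul, abs_of_nonneg (hχ.rng _).1]
      exact mul_le_of_le_one_left (abs_nonneg _) (hχ.rng _).2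
    refine (lintegral_mono h2).trans ((kU_le hT).trans (ENNReal.ofReal_le_ofReal ?_))
    have h3 : ‖a‖ / ‖T‖ ≤ B / c := by
      rw [div_le_div_iff₀ (hc.trans h) hc]
      nlinarith [norm_nonneg a]
    calc ‖a‖ / ‖T‖ * (Real.pi / 2) ≤ B / c * (Real.pi / 2) := by gcongr
      _ = _ := by ring

/-- the sum of the kernels of `v` and of the cut-off kernels of `T` -/
private def EXTC_S (χ : ℝ → ℝ) (T Tx Ty v vx vy p : E3) : ℝ :=
  |kU v vy p| + |kU v vx p| + |χ ‖T‖ * kU T Ty p| + |χ ‖T‖ * kU T Tx p|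

private theorem EXTC_S_nonneg (χ : ℝ → ℝ) (T Tx Ty v vx vy p : E3) : 0 ≤ EXTC_S χ T Tx Ty v vx vy p := by
  unfold EXTC_S
  positivity

private theorem EXTC_S_aem {Ω : Type} [MeasurableSpace Ω] {μ : Measure Ω} {χ : ℝ → ℝ}
    (hχ : Continuous χ) {T Tx Ty v vx vy p : Ω → E3} (hT : AEMeasurable T μ) (hx : AEMeasurable Tx μ)
    (hy : AEMeasurable Ty μ) (hv : AEMeasurable v μ) (hvx : AEMeasurable vx μ)
    (hvy : AEMeasurable vy μ) (hp : AEMeasurable p μ) :
    AEMeasurable (fun q => EXTC_S χ (T q) (Tx q) (Ty q) (v q) (vx q) (vy q) (p q)) μ := by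
  unfold EXTC_S
  have h1 := (kU_aem hv hvy hp).abs
  have h2 := (kU_aem hv hvx hp).abs
  have hm := hχ.measurable.comp_aemeasurable hT.norm
  have h3 := (hm.mul (kU_aem hT hy hp)).abs
  have h4 := (hm.mul (kU_aem hT hx hp)).abs
  exact ((h1.add h2).add h3).add h4

private theorem EXTC_S_le {χ : ℝ → ℝ} {c : ℝ} (hχ : CutF χ c) {B : ℝ} (hB : 0 ≤ B) {T Tx Ty v vx vy : E3}
    (hx : ‖Tx‖ ≤ B) (hy : ‖Ty‖ ≤ B) (hv : ‖v‖ = 1) :
    ∫⁻ p, ENNReal.ofReal (EXTC_S χ T Tx Ty v vx vy p) ∂PP ≤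
      ENNReal.ofReal (Real.pi / 2 * (‖vx‖ + ‖vy‖ + 2 * B / c)) := by
  have hc := hχ.pos
  have hpi := Real.pi_pos
  have hv0 : v ≠ 0 := norm_pos_iff.1 (by rw [hv]; exact one_pos)
  have e : ∀ p, ENNReal.ofReal (EXTC_S χ T Tx Ty v vx vy p) =
      ENNReal.ofReal |kU v vy p| + ENNReal.ofReal |kU v vx p| + ENNReal.ofReal |χ ‖T‖ * kU T Ty p| +
        ENNReal.ofReal |χ ‖T‖ * kU T Tx p| := by
    intro p
    unfold EXTC_S
    rw [ENNReal.ofReal_add (by positivity) (abs_nonneg _),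
      ENNReal.ofReal_add (by positivity) (abs_nonneg _),
      ENNReal.ofReal_add (abs_nonneg _) (abs_nonneg _)]
  have m0 : ∀ a b : E3, Measurable fun p => kU a b p := fun a b =>
    kU_meas' measurable_const measurable_const measurable_id
  rw [lintegral_congr e, lintegral_add_right _ (((m0 T Tx).const_mul _).abs.ennreal_ofReal),
    lintegral_add_right _ (((m0 T Ty).const_mul _).abs.ennreal_ofReal),
    lintegral_add_right _ ((m0 v vx).abs.ennreal_ofReal)]
  have k1 := kU_le (a := vy) hv0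
  have k2 := kU_le (a := vx) hv0
  rw [hv, div_one] at k1 k2
  refine (add_le_add (add_le_add (add_le_add k1 k2) (EXTC_cut hχ hB hy)) (EXTC_cut hχ hB hx)).trans
    (le_of_eq ?_)
  rw [← ENNReal.ofReal_add (by positivity) (by positivity),
    ← ENNReal.ofReal_add (by positivity) (by positivity),
    ← ENNReal.ofReal_add (by positivity) (by positivity)]
  congr 1
  ring

/-- almost everywhere the difference of the densities -/
private theorem EXTC_diff [CompactSpace M] (C : Calc M γ) {χ : ℝ → ℝ} {c : ℝ} (hχ : CutF χ c)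
    {T v : Fin 3 → M → ℝ} {L : ℝ≥0} (hT : ∀ k, LipschitzWith L (T k)) (hv : Sph γ v)
    (hvT : ∀ x, 2 * c ≤ ‖vv (n := 0) T x‖ → ∀ k, v k x = T k x / ‖vv (n := 0) T x‖) :
    ∀ᵐ o ∂C.μ, ∀ (θ : M → ℝ) (p : E3), |C.gx θ o| ≤ 1 → |C.gy θ o| ≤ 1 →
      |flc C χ θ T p o - flx C θ v p o| ≤ (Iio (2 * c)).indicator (fun _ => (1 : ℝ)) ‖at' C T o‖ *
        EXTC_S χ (at' C T o) (dx C T o) (dy C T o) (at' C v o) (dx C v o) (dy C v o) p := by
  have hc := hχ.pos
  have lT : ∀ k, Lip (T k) := fun k => ⟨L, hT k⟩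
  have lN : ∀ k, Lip (NV c T k) := by
    intro k
    have hc' : (0 : ℝ≥0) < ⟨c, hc.le⟩ := hc
    exact ⟨_, NV_lip hc' hT k⟩
  filter_upwards [ae_eq_nv C (by linarith : c ≤ 2 * c) hv.lip hvT lN, ae_nv_loc C hc.le lT]
    with o h1 h2 θ p hx hy
  by_cases hr : ‖at' C T o‖ < 2 * c
  · rw [indicator_of_mem (show ‖at' C T o‖ ∈ Iio (2 * c) from hr), one_mul]
    have hu : ‖at' C v o‖ = 1 := norm_at hv o
    have e1 : flx C θ v p o = C.gx θ o * kU (at' C v o) (dy C v o) p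
        - C.gy θ o * kU (at' C v o) (dx C v o) p := by
      rw [kU_unit hu, kU_unit hu]
      unfold flx
      ring
    have e2 : flc C χ θ T p o = C.gx θ o * (χ ‖at' C T o‖ * kU (at' C T o) (dy C T o) p)
        - C.gy θ o * (χ ‖at' C T o‖ * kU (at' C T o) (dx C T o) p) := by
      unfold flc kU
      ring
    rw [e1, e2]
    unfold EXTC_S
    have b1 : ∀ g t : ℝ, |g| ≤ 1 → |g * t| ≤ |t| := by
      intro g t hg
      rw [abs_mul]
      exact mul_le_of_le_one_left (abs_nonneg _) hg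
    have i1 := b1 _ (kU (at' C v o) (dy C v o) p) hx
    have i2 := b1 _ (kU (at' C v o) (dx C v o) p) hy
    have i3 := b1 _ (χ ‖at' C T o‖ * kU (at' C T o) (dy C T o) p) hx
    have i4 := b1 _ (χ ‖at' C T o‖ * kU (at' C T o) (dx C T o) p) hy
    rw [abs_le]
    have j1 := abs_le.1 i1
    have j2 := abs_le.1 i2
    have j3 := abs_le.1 i3
    have j4 := abs_le.1 i4
    constructor <;> linarith [j1.1, j1.2, j2.1, j2.2, j3.1, j3.2, j4.1, j4.2]
  · have hr' := not_lt.1 hr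
    rw [indicator_of_notMem (show ‖at' C T o‖ ∉ Iio (2 * c) from hr), zero_mul]
    obtain ⟨e1, e2, e3⟩ := h1 hr'
    obtain ⟨f1, f2, f3⟩ := h2 (by linarith)
    have hne : at' C T o ≠ 0 := norm_pos_iff.1 (by linarith)
    rw [flx_kU hne (e1.trans f1) (e2.trans f2) (e3.trans f3)]
    have e2 : flc C χ θ T p o = C.gx θ o * kU (at' C T o) (dy C T o) p
        - C.gy θ o * kU (at' C T o) (dx C T o) p := by
      unfold flc kU
      rw [hχ.one _ hr']
      ring
    rw [e2, sub_self, abs_zero]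

theorem cmp_v [CompactSpace M] (C : Calc M γ) {χ : ℝ → ℝ} {c : ℝ} (hχ : CutF χ c)
    {T v : Fin 3 → M → ℝ} {L : ℝ≥0} (hT : ∀ k, LipschitzWith L (T k)) (hv : Sph γ v)
    (hvT : ∀ x, 2 * c ≤ ‖vv (n := 0) T x‖ → ∀ k, v k x = T k x / ‖vv (n := 0) T x‖) :
    ∃ D : E3 → ℝ, Integrable D PP ∧
      ∫ p, D p ∂PP ≤ Real.pi / 2 * (∫ o in {o | ‖at' C T o‖ < 2 * c}, (‖dx C v o‖ + ‖dy C v o‖) ∂C.μ
        + 4 * L / c * C.μ.real {o | ‖at' C T o‖ < 2 * c}) ∧
      ∀ θ : M → ℝ, LipschitzWith 1 θ → Integrable (fun p => FluxC C χ θ T p) PP ∧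
        ∀ᵐ p ∂PP, |FluxC C χ θ T p - Flux C θ v p| ≤ D p := by
  have := C.fin
  have hc := hχ.pos
  have hpi := Real.pi_pos
  have lT : ∀ k, Lip (T k) := fun k => ⟨L, hT k⟩
  obtain ⟨t1, t2, t0⟩ := meas_dx C lT
  obtain ⟨v1, v2, v0⟩ := meas_dx C hv.lip
  obtain ⟨⟨B1, b1⟩, ⟨B2, b2⟩⟩ := bdd_dx C hv.lip
  set S : Set Om := {o | ‖at' C T o‖ < 2 * c} with hS
  have hSm : NullMeasurableSet S C.μ := t0.norm.nullMeasurable measurableSet_Iio
  set ψ : ℝ → ℝ := (Iio (2 * c)).indicator (fun _ => (1 : ℝ)) with hψ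
  have mψ : Measurable ψ := measurable_const.indicator measurableSet_Iio
  have hψ0 : ∀ r, 0 ≤ ψ r := fun r => indicator_nonneg (fun _ _ => zero_le_one) r
  set Dd : Om × E3 → ℝ := fun q => ψ ‖at' C T q.1‖ *
    EXTC_S χ (at' C T q.1) (dx C T q.1) (dy C T q.1) (at' C v q.1) (dx C v q.1) (dy C v q.1) q.2 with hDd
  have mD : AEMeasurable Dd (C.μ.prod PP) :=
    (mψ.comp_aemeasurable t0.comp_fst.norm).mul
      (EXTC_S_aem hχ.cont t0.comp_fst t1.comp_fst t2.comp_fst v0.comp_fst v1.comp_fst v2.comp_fst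
        measurable_snd.aemeasurable)
  have hD0 : ∀ q, 0 ≤ Dd q := fun q => mul_nonneg (hψ0 _) (EXTC_S_nonneg _ _ _ _ _ _ _ _)
  -- the total of the difference
  set g : Om → ℝ := fun o => Real.pi / 2 * (‖dx C v o‖ + ‖dy C v o‖ + 4 * L / c) with hg
  have hg0 : ∀ o, 0 ≤ g o := fun o => by positivity
  have hgi : Integrable g C.μ := by
    refine Integrable.of_bound (((v1.norm.add v2.norm).add_const _).const_mul _).aestronglyMeasurable
      (Real.pi / 2 * (B1 + B2 + 4 * L / c)) ?_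
    filter_upwards [b1, b2] with o h1 h2
    rw [Real.norm_eq_abs, abs_of_nonneg (hg0 o)]
    exact mul_le_mul_of_nonneg_left (by linarith) (by positivity)
  have hbd : ∫⁻ q, ENNReal.ofReal (Dd q) ∂(C.μ.prod PP) ≤ ENNReal.ofReal (∫ o in S, g o ∂C.μ) := by
    rw [lintegral_prod _ mD.ennreal_ofReal,
      ofReal_integral_eq_lintegral_ofReal hgi.integrableOn (Eventually.of_forall hg0)]
    have h1 : ∫⁻ o in S, ENNReal.ofReal (g o) ∂C.μ =
        ∫⁻ o, S.indicator (fun o => ENNReal.ofReal (g o)) o ∂C.μ := (lintegral_indicator₀ hSm _).symm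
    rw [h1]
    refine lintegral_mono_ae ?_
    filter_upwards [ae_dx_le C hT] with o ho
    by_cases hr : ‖at' C T o‖ < 2 * c
    · rw [indicator_of_mem (show o ∈ S from hr)]
      have e : ∀ p, Dd (o, p) =
          EXTC_S χ (at' C T o) (dx C T o) (dy C T o) (at' C v o) (dx C v o) (dy C v o) p := by
        intro p
        simp only [hDd, hψ]
        rw [indicator_of_mem (show ‖at' C T o‖ ∈ Iio (2 * c) from hr), one_mul]
      simp only [e]
      refine (EXTC_S_le hχ (by positivity) ho.1 ho.2 (norm_at hv o)).trans (le_of_eq ?_)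
      congr 1
      simp only [hg]
      ring
    · have e : ∀ p, Dd (o, p) = 0 := by
        intro p
        simp only [hDd, hψ]
        rw [indicator_of_notMem (show ‖at' C T o‖ ∉ Iio (2 * c) from hr), zero_mul]
      simp only [e, ENNReal.ofReal_zero, lintegral_zero, zero_le]
  have hDi : Integrable Dd (C.μ.prod PP) := by
    refine ⟨mD.aestronglyMeasurable, ?_⟩
    rw [hasFiniteIntegral_iff_ofReal (Eventually.of_forall hD0)]
    exact hbd.trans_lt ENNReal.ofReal_lt_top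
  refine ⟨fun p => ∫ o, Dd (o, p) ∂C.μ, hDi.integral_prod_right, ?_, ?_⟩
  · have e : ∫ p, ∫ o, Dd (o, p) ∂C.μ ∂PP = ∫ q, Dd q ∂(C.μ.prod PP) := by
      rw [integral_prod_symm _ hDi]
    rw [e, integral_eq_lintegral_of_nonneg_ae (Eventually.of_forall hD0) mD.aestronglyMeasurable]
    refine (ENNReal.toReal_mono ENNReal.ofReal_ne_top hbd).trans (le_of_eq ?_)
    have hvi : Integrable (fun o => ‖dx C v o‖ + ‖dy C v o‖) C.μ := by
      refine Integrable.of_bound (v1.norm.add v2.norm).aestronglyMeasurable (B1 + B2) ?_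
      filter_upwards [b1, b2] with o h1 h2
      rw [Real.norm_eq_abs, abs_of_nonneg (by positivity)]
      linarith
    rw [ENNReal.toReal_ofReal (integral_nonneg hg0), hg, integral_const_mul,
      integral_add hvi.integrableOn (integrable_const _), integral_const, smul_eq_mul,
      measureReal_def, Measure.restrict_apply_univ]
    rw [measureReal_def]
    ring
  · intro θ hθ
    have lθ : Lip θ := ⟨1, hθ⟩
    obtain ⟨-, fi, fF⟩ := flux_meas C hv lθ
    set df : Om × E3 → ℝ := fun q => flc C χ θ T q.2 q.1 - flx C θ v q.2 q.1 with hdf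
    have hθ1 : ∀ᵐ o ∂C.μ, |C.gx θ o| ≤ 1 ∧ |C.gy θ o| ≤ 1 := by
      filter_upwards [C.ae_grad_le hθ] with o ho
      rw [NNReal.coe_one, one_pow] at ho
      constructor
      · exact abs_le_of_sq_le_sq (by nlinarith [sq_nonneg (C.gy θ o)]) zero_le_one
      · exact abs_le_of_sq_le_sq (by nlinarith [sq_nonneg (C.gx θ o)]) zero_le_one
    have hle : ∀ᵐ q ∂(C.μ.prod PP), |df q| ≤ Dd q := by
      have h1 := (Measure.quasiMeasurePreserving_fst (μ := C.μ) (ν := PP)).ae hθ1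
      have h2 := (Measure.quasiMeasurePreserving_fst (μ := C.μ) (ν := PP)).ae
        (EXTC_diff C hχ hT hv hvT)
      filter_upwards [h1, h2] with q hq1 hq2
      exact hq2 θ q.2 hq1.1 hq1.2
    have mfl : AEMeasurable (fun q : Om × E3 => flc C χ θ T q.2 q.1) (C.μ.prod PP) := by
      have mgx : AEMeasurable (fun q : Om × E3 => C.gx θ q.1) (C.μ.prod PP) := (C.meas_gx lθ).comp_fst
      have mgy : AEMeasurable (fun q : Om × E3 => C.gy θ q.1) (C.μ.prod PP) := (C.meas_gy lθ).comp_fst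
      have mχ : AEMeasurable (fun q : Om × E3 => χ ‖at' C T q.1‖) (C.μ.prod PP) :=
        hχ.cont.measurable.comp_aemeasurable t0.comp_fst.norm
      have k1 := kU_aem (μ := C.μ.prod PP) t0.comp_fst t2.comp_fst measurable_snd.aemeasurable
      have k2 := kU_aem (μ := C.μ.prod PP) t0.comp_fst t1.comp_fst measurable_snd.aemeasurable
      refine ((mgx.mul (mχ.mul k1)).sub (mgy.mul (mχ.mul k2))).congr (Eventually.of_forall fun q => ?_)
      unfold flc kU
      simp only [Pi.sub_apply, Pi.mul_apply]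
      ring
    have hdfi : Integrable df (C.μ.prod PP) :=
      hDi.mono' (mfl.aestronglyMeasurable.sub fi.aestronglyMeasurable) hle
    have hfli : Integrable (fun q : Om × E3 => flc C χ θ T q.2 q.1) (C.μ.prod PP) := by
      refine (fi.add hdfi).congr (Eventually.of_forall fun q => ?_)
      simp only [hdf, Pi.add_apply]
      ring
    refine ⟨hfli.integral_prod_right, ?_⟩
    have hle' : ∀ᵐ p ∂PP, ∀ᵐ o ∂C.μ, |df (o, p)| ≤ Dd (o, p) := by
      have h2 : ∀ᵐ q ∂(PP.prod C.μ), |df q.swap| ≤ Dd q.swap :=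
        (Measure.measurePreserving_swap (μ := PP) (ν := C.μ)).quasiMeasurePreserving.ae hle
      exact Measure.ae_ae_of_ae_prod h2
    filter_upwards [hle', hfli.prod_left_ae, fi.prod_left_ae, hDi.prod_left_ae]
      with p hp1 hp2 hp3 hp4
    have h1 : FluxC C χ θ T p - Flux C θ v p = ∫ o, df (o, p) ∂C.μ := by
      simp only [hdf]
      rw [integral_sub hp2 hp3]
      rfl
    rw [h1, ← Real.norm_eq_abs]
    exact norm_integral_le_of_norm_le hp4 hp1

end Pool.Agent.FPX
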