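import Mathlib
import Pool.Agent.FPX.Defs
import Pool.Agent.FPX.SPH

/-
EXTM (helper91): random `3 × 3` matrices `A` (columns uniform in a ball of radius `η`). For a unit
vector `F` the vector `A F` has a density of order `η⁻³`, so that `E |y - A F|⁻² ≤ 16 / η²` for
every `y`.
-/

open MeasureTheory Set Filter Topology
open scoped ENNReal NNReal

noncomputable section

namespace Pool.Agent.FPX

open Pool.Agent.EWD

/-- the uniform probability measure on the closed unit ball of `ℝ³` -/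
def PB1 : Measure E3 :=
  ((volume : Measure E3) (Metric.closedBall 0 1))⁻¹ •
    (volume : Measure E3).restrict (Metric.closedBall 0 1)

/-- the uniform probability measure on the closed ball of radius `η` of `ℝ³` -/
def PB (η : ℝ) : Measure E3 := PB1.map fun a => η • a

/-- the law of three independent vectors, uniform in the ball of radius `η` -/
def PA (η : ℝ) : Measure (Fin 3 → E3) := Measure.pi fun _ => PB η

private theorem EXTM_vol : (volume : Measure E3) (Metric.closedBall 0 1) =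
    ENNReal.ofReal (4 * Real.pi / 3) := by
  rw [EuclideanSpace.volume_closedBall_fin_three]
  rw [ENNReal.ofReal_one, one_pow, one_mul]
  congr 1
  ring

private theorem EXTM_vol_ne : (volume : Measure E3) (Metric.closedBall 0 1) ≠ 0 := by
  rw [EXTM_vol]
  simp only [ne_eq, ENNReal.ofReal_eq_zero, not_le]
  positivity

private theorem EXTM_vol_top : (volume : Measure E3) (Metric.closedBall 0 1) ≠ ⊤ := by
  rw [EXTM_vol]
  exact ENNReal.ofReal_ne_top

instance : IsProbabilityMeasure PB1 := by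
  constructor
  rw [PB1, Measure.smul_apply, Measure.restrict_apply_univ, smul_eq_mul]
  exact ENNReal.inv_mul_cancel EXTM_vol_ne EXTM_vol_top

instance (η : ℝ) : IsProbabilityMeasure (PB η) := by
  unfold PB
  exact Measure.isProbabilityMeasure_map (by fun_prop)

instance (η : ℝ) : IsProbabilityMeasure (PA η) := by
  unfold PA
  infer_instance

theorem ae_PB {η : ℝ} (hη : 0 ≤ η) : ∀ᵐ a ∂(PB η), ‖a‖ ≤ η := by
  have hm : MeasurableSet {a : E3 | ‖a‖ ≤ η} := measurableSet_le (by fun_prop) (by fun_prop)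
  rw [PB, ae_map_iff (by fun_prop) hm]
  have h : ∀ᵐ a ∂PB1, a ∈ Metric.closedBall (0 : E3) 1 := by
    rw [PB1]
    refine Measure.ae_smul_measure ?_ _
    exact ae_restrict_mem Metric.isClosed_closedBall.measurableSet
  filter_upwards [h] with a ha
  rw [mem_closedBall_zero_iff] at ha
  rw [norm_smul, Real.norm_eq_abs, abs_of_nonneg hη]
  nlinarith

/-- almost surely all columns have norm at most `η` -/
theorem ae_PA {η : ℝ} (hη : 0 ≤ η) : ∀ᵐ A ∂(PA η), ∀ j, ‖A j‖ ≤ η := by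
  rw [ae_all_iff]
  intro j
  have h := (Measure.quasiMeasurePreserving_eval (μ := fun _ : Fin 3 => PB η) j).ae (ae_PB hη)
  exact h

private theorem EXTM_polar : ∫⁻ y : E3, (Iic (1 : ℝ)).indicator
    (fun r => ENNReal.ofReal (1 / r ^ 2)) ‖y‖ = ENNReal.ofReal (4 * Real.pi) := by
  have h := lint_polar (fun _ => 1) measurable_const
    ((Iic (1 : ℝ)).indicator (fun r => ENNReal.ofReal (1 / r ^ 2)))
    (Measurable.indicator (by fun_prop) measurableSet_Iic)
  simp only [one_mul, lintegral_const, measure_univ, mul_one] at h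
  rw [h]
  have e : ∫⁻ r in Ioi (0 : ℝ), ENNReal.ofReal (r ^ 2) *
      (Iic (1 : ℝ)).indicator (fun r => ENNReal.ofReal (1 / r ^ 2)) r =
      ∫⁻ r in Ioi (0 : ℝ), (Iic (1 : ℝ)).indicator (fun _ => 1) r := by
    refine setLIntegral_congr_fun measurableSet_Ioi fun r hr => ?_
    by_cases h1 : r ∈ Iic (1 : ℝ)
    · rw [indicator_of_mem h1, indicator_of_mem h1, ← ENNReal.ofReal_mul (by positivity),
        ← ENNReal.ofReal_one]
      congr 1
      have : r ≠ 0 := ne_of_gt hr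
      field_simp
    · rw [indicator_of_notMem h1, indicator_of_notMem h1, mul_zero]
  rw [e, lintegral_indicator measurableSet_Iic, Measure.restrict_restrict measurableSet_Iic,
    setLIntegral_one, Set.inter_comm, Set.Ioi_inter_Iic, Real.volume_Ioc]
  simp

private theorem EXTM_unit (w : E3) : ∫⁻ a, ENNReal.ofReal (1 / ‖w - a‖ ^ 2) ∂PB1 ≤ 4 := by
  rw [PB1, lintegral_smul_measure, smul_eq_mul]
  have hle : ∀ z : E3, ENNReal.ofReal (1 / ‖z‖ ^ 2) ≤
      (Iic (1 : ℝ)).indicator (fun r => ENNReal.ofReal (1 / r ^ 2)) ‖z‖ + 1 := by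
    intro z
    by_cases h1 : ‖z‖ ∈ Iic (1 : ℝ)
    · rw [indicator_of_mem h1]
      exact le_self_add
    · rw [indicator_of_notMem h1, zero_add, ← ENNReal.ofReal_one]
      refine ENNReal.ofReal_le_ofReal ?_
      rw [mem_Iic, not_le] at h1
      rw [div_le_one (by positivity)]
      nlinarith
  have hm : Measurable fun z : E3 => (Iic (1 : ℝ)).indicator
      (fun r => ENNReal.ofReal (1 / r ^ 2)) ‖z‖ :=
    (Measurable.indicator (by fun_prop) measurableSet_Iic).comp measurable_norm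
  have h1 : ∫⁻ a in Metric.closedBall (0 : E3) 1, ENNReal.ofReal (1 / ‖w - a‖ ^ 2) ≤
      ENNReal.ofReal (4 * Real.pi) + ENNReal.ofReal (4 * Real.pi / 3) := by
    calc ∫⁻ a in Metric.closedBall (0 : E3) 1, ENNReal.ofReal (1 / ‖w - a‖ ^ 2)
        ≤ ∫⁻ a in Metric.closedBall (0 : E3) 1, ((Iic (1 : ℝ)).indicator
            (fun r => ENNReal.ofReal (1 / r ^ 2)) ‖w - a‖ + 1) := lintegral_mono fun a => hle _
      _ = (∫⁻ a in Metric.closedBall (0 : E3) 1, (Iic (1 : ℝ)).indicator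
            (fun r => ENNReal.ofReal (1 / r ^ 2)) ‖w - a‖) +
            ∫⁻ a in Metric.closedBall (0 : E3) 1, 1 := lintegral_add_right _ measurable_const
      _ ≤ (∫⁻ a : E3, (Iic (1 : ℝ)).indicator
            (fun r => ENNReal.ofReal (1 / r ^ 2)) ‖w - a‖) +
            ∫⁻ a in Metric.closedBall (0 : E3) 1, 1 := by
          gcongr
          exact Measure.restrict_le_self
      _ = _ := by
          rw [lintegral_sub_left_eq_self (fun z : E3 => (Iic (1 : ℝ)).indicator
            (fun r => ENNReal.ofReal (1 / r ^ 2)) ‖z‖) w, EXTM_polar, setLIntegral_one, EXTM_vol]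
  calc (volume (Metric.closedBall (0 : E3) 1))⁻¹ *
      ∫⁻ a in Metric.closedBall (0 : E3) 1, ENNReal.ofReal (1 / ‖w - a‖ ^ 2)
      ≤ (ENNReal.ofReal (4 * Real.pi / 3))⁻¹ *
        (ENNReal.ofReal (4 * Real.pi) + ENNReal.ofReal (4 * Real.pi / 3)) := by
        rw [EXTM_vol]
        gcongr
    _ = 4 := by
        rw [← ENNReal.ofReal_add (by positivity) (by positivity),
          ← ENNReal.ofReal_inv_of_pos (by positivity), ← ENNReal.ofReal_mul (by positivity)]
        rw [show (4 * Real.pi / 3)⁻¹ * (4 * Real.pi + 4 * Real.pi / 3) = 4 by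
          have := Real.pi_pos
          field_simp
          ring]
        norm_num

/-- one vector -/
theorem lint_PB {η : ℝ} (hη : 0 < η) (w : E3) {c : ℝ} (hc : 1 / 2 ≤ |c|) :
    ∫⁻ a, ENNReal.ofReal (1 / ‖w - c • a‖ ^ 2) ∂(PB η) ≤ ENNReal.ofReal (16 / η ^ 2) := by
  have hc0 : c ≠ 0 := by
    intro h
    rw [h, abs_zero] at hc
    norm_num at hc
  rw [PB, lintegral_map (by fun_prop) (by fun_prop)]
  have h : ∀ a : E3, ENNReal.ofReal (1 / ‖w - c • η • a‖ ^ 2) ≤
      ENNReal.ofReal (4 / η ^ 2) * ENNReal.ofReal (1 / ‖(c * η)⁻¹ • w - a‖ ^ 2) := by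
    intro a
    have e : w - c • η • a = (c * η) • ((c * η)⁻¹ • w - a) := by
      rw [smul_sub, smul_inv_smul₀ (mul_ne_zero hc0 hη.ne'), mul_smul]
    rw [← ENNReal.ofReal_mul (by positivity), e, norm_smul]
    refine ENNReal.ofReal_le_ofReal ?_
    rcases eq_or_ne ((c * η)⁻¹ • w - a) 0 with h0 | h0
    · rw [h0]
      simp
    · have hn : 0 < ‖(c * η)⁻¹ • w - a‖ := norm_pos_iff.2 h0
      rw [Real.norm_eq_abs, abs_mul, abs_of_pos hη, div_mul_div_comm]
      rw [div_le_div_iff₀ (by positivity) (by positivity)]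
      have : 1 ≤ 4 * |c| ^ 2 := by nlinarith
      calc (1 : ℝ) * (η ^ 2 * ‖(c * η)⁻¹ • w - a‖ ^ 2)
          ≤ (4 * |c| ^ 2) * (η ^ 2 * ‖(c * η)⁻¹ • w - a‖ ^ 2) := by
            gcongr
        _ = _ := by ring
  calc ∫⁻ a, ENNReal.ofReal (1 / ‖w - c • η • a‖ ^ 2) ∂PB1
      ≤ ∫⁻ a, ENNReal.ofReal (4 / η ^ 2) * ENNReal.ofReal (1 / ‖(c * η)⁻¹ • w - a‖ ^ 2) ∂PB1 :=
        lintegral_mono h
    _ = ENNReal.ofReal (4 / η ^ 2) * ∫⁻ a, ENNReal.ofReal (1 / ‖(c * η)⁻¹ • w - a‖ ^ 2) ∂PB1 :=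
        lintegral_const_mul _ (by fun_prop)
    _ ≤ ENNReal.ofReal (4 / η ^ 2) * 4 := by
        gcongr
        exact EXTM_unit _
    _ = ENNReal.ofReal (16 / η ^ 2) := by
        rw [show (4 : ℝ≥0∞) = ENNReal.ofReal 4 by norm_num, ← ENNReal.ofReal_mul (by positivity)]
        congr 1
        ring

/-- **second moment of the inverse distance**: `E |y - A F|⁻² ≤ 16 / η²` -/
theorem ext_m {F : E3} (hF : ‖F‖ = 1) {η : ℝ} (hη : 0 < η) (y : E3) :
    ∫⁻ A, ENNReal.ofReal (1 / ‖y - ∑ j, F j • A j‖ ^ 2) ∂(PA η) ≤ ENNReal.ofReal (16 / η ^ 2) := by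
  obtain ⟨i, hi⟩ : ∃ i, 1 / 2 ≤ |F i| := by
    by_contra hcon
    push Not at hcon
    have h := EuclideanSpace.real_norm_sq_eq F
    rw [hF, Fin.sum_univ_three] at h
    have h0 := hcon 0
    have h1 := hcon 1
    have h2 := hcon 2
    have k0 : F 0 ^ 2 < 1 / 4 := by rw [← sq_abs]; nlinarith [abs_nonneg (F 0)]
    have k1 : F 1 ^ 2 < 1 / 4 := by rw [← sq_abs]; nlinarith [abs_nonneg (F 1)]
    have k2 : F 2 ^ 2 < 1 / 4 := by rw [← sq_abs]; nlinarith [abs_nonneg (F 2)]
    nlinarith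
  have hmp := measurePreserving_piFinSuccAbove (fun _ : Fin 3 => PB η) i
  have hm : Measurable fun A : Fin 3 → E3 => ENNReal.ofReal (1 / ‖y - ∑ j, F j • A j‖ ^ 2) := by
    fun_prop
  rw [PA, ← hmp.symm.lintegral_comp hm]
  have hm2 : Measurable fun z : E3 × (Fin 2 → E3) => ENNReal.ofReal (1 / ‖y - ∑ j, F j •
      (MeasurableEquiv.piFinSuccAbove (fun _ => E3) i).symm z j‖ ^ 2) :=
    hm.comp (MeasurableEquiv.measurable _)
  rw [lintegral_prod_symm' _ hm2]
  calc ∫⁻ q, ∫⁻ a, ENNReal.ofReal (1 / ‖y - ∑ j, F j •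
        ((MeasurableEquiv.piFinSuccAbove (fun _ => E3) i).symm (a, q)) j‖ ^ 2) ∂(PB η)
          ∂(Measure.pi fun j => PB η)
      ≤ ∫⁻ _q : Fin 2 → E3, ENNReal.ofReal (16 / η ^ 2) ∂(Measure.pi fun _ => PB η) := by
        refine lintegral_mono fun q => ?_
        have e : ∀ a : E3, y - ∑ j, F j •
            ((MeasurableEquiv.piFinSuccAbove (fun _ => E3) i).symm (a, q)) j =
            (y - ∑ j : Fin 2, F (i.succAbove j) • q j) - F i • a := by
          intro a
          rw [Fin.sum_univ_succAbove _ i]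
          simp only [MeasurableEquiv.piFinSuccAbove_symm_apply, Fin.insertNthEquiv_apply,
            Fin.insertNth_apply_same, Fin.insertNth_apply_succAbove]
          abel
        simp_rw [e]
        exact lint_PB hη _ hi
    _ = ENNReal.ofReal (16 / η ^ 2) := by
        rw [lintegral_const, measure_univ, mul_one]

/-- the same with a plus sign and a factor -/
theorem ext_mp {F : E3} (hF : ‖F‖ = 1) {η : ℝ} (hη : 0 < η) (y : E3) {c : ℝ} (hc : 0 < c) :
    ∫⁻ A, ENNReal.ofReal (1 / ‖y + c • ∑ j, F j • A j‖ ^ 2) ∂(PA η) ≤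
      ENNReal.ofReal (16 / (c * η) ^ 2) := by
  have hF' : ‖-F‖ = 1 := by rw [norm_neg, hF]
  have h := ext_m hF' hη (c⁻¹ • y)
  have e : ∀ A : Fin 3 → E3, ENNReal.ofReal (1 / ‖y + c • ∑ j, F j • A j‖ ^ 2) =
      ENNReal.ofReal (1 / c ^ 2) *
        ENNReal.ofReal (1 / ‖c⁻¹ • y - ∑ j, (-F) j • A j‖ ^ 2) := by
    intro A
    have e1 : y + c • ∑ j, F j • A j = c • (c⁻¹ • y - ∑ j, (-F) j • A j) := by
      rw [smul_sub, smul_smul, mul_inv_cancel₀ hc.ne', one_smul]
      simp only [PiLp.neg_apply, neg_smul, Finset.sum_neg_distrib, smul_neg, sub_neg_eq_add]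
    rw [← ENNReal.ofReal_mul (by positivity), e1, norm_smul, Real.norm_eq_abs, abs_of_pos hc,
      mul_pow, div_mul_div_comm, one_mul]
  simp_rw [e]
  rw [lintegral_const_mul _ (by fun_prop)]
  calc ENNReal.ofReal (1 / c ^ 2) *
        ∫⁻ A, ENNReal.ofReal (1 / ‖c⁻¹ • y - ∑ j, (-F) j • A j‖ ^ 2) ∂(PA η)
      ≤ ENNReal.ofReal (1 / c ^ 2) * ENNReal.ofReal (16 / η ^ 2) := by gcongr
    _ = _ := by
        rw [← ENNReal.ofReal_mul (by positivity)]
        congr 1
        rw [mul_pow]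
        field_simp

/-- the norm of `A F` -/
theorem norm_AF_le {F : E3} (hF : ‖F‖ = 1) {η : ℝ} {A : Fin 3 → E3} (hA : ∀ j, ‖A j‖ ≤ η) :
    ‖∑ j, F j • A j‖ ≤ 2 * η := by
  have hη : 0 ≤ η := (norm_nonneg _).trans (hA 0)
  have h1 : ‖∑ j, F j • A j‖ ≤ ∑ j, |F j| * η := by
    refine (norm_sum_le _ _).trans (Finset.sum_le_sum fun j _ => ?_)
    rw [norm_smul, Real.norm_eq_abs]
    exact mul_le_mul_of_nonneg_left (hA j) (abs_nonneg _)
  have h2 : ∑ j, |F j| ≤ 2 := by
    have h := EuclideanSpace.real_norm_sq_eq F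
    rw [hF, Fin.sum_univ_three] at h
    rw [Fin.sum_univ_three]
    nlinarith [sq_abs (F 0), sq_abs (F 1), sq_abs (F 2), abs_nonneg (F 0), abs_nonneg (F 1),
      abs_nonneg (F 2), sq_nonneg (|F 0| - |F 1|), sq_nonneg (|F 0| - |F 2|),
      sq_nonneg (|F 1| - |F 2|)]
  calc ‖∑ j, F j • A j‖ ≤ ∑ j, |F j| * η := h1
    _ = (∑ j, |F j|) * η := (Finset.sum_mul _ _ _).symm
    _ ≤ 2 * η := by gcongr

end Pool.Agent.FPX
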