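import Mathlib
import Pool.Agent.EWD.LPA
import Pool.Agent.FPX.Defs
import Pool.Agent.FPM.VZD

/-
EXTN (helper97), part M2 of L-EXT: the image of a Lipschitz map of the surface into three space is a
null set; for almost every matrix `A` (three columns `A j`) the map `T - ∑ F j • A j` has no zero,
if `F` has values in the unit sphere.
-/

open MeasureTheory Set Filter Topology
open scoped ENNReal NNReal

noncomputable section

namespace Pool.Agent.FPX

open Pool.Agent.EWD Pool.Agent.FPM

variable {M : Type} [MetricSpace M] [CompactSpace M] {γ : ℝ → M}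

private theorem extn_three : MeasurePreserving (fun y : E3 => ((y 0, y 1), y 2))
    (volume : Measure E3) (volume : Measure ((ℝ × ℝ) × ℝ)) := by
  have h1 := PiLp.volume_preserving_ofLp (Fin 3)
  have h2 := volume_preserving_piFinSuccAbove (fun _ : Fin 3 => ℝ) 2
  have h3 := volume_preserving_finTwoArrow ℝ
  have h4 : MeasurePreserving (Prod.map id (@MeasurableEquiv.finTwoArrow ℝ _))
      (volume : Measure (ℝ × (Fin 2 → ℝ))) (volume : Measure (ℝ × (ℝ × ℝ))) :=
    (MeasurePreserving.id volume).prod h3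
  have h5 : MeasurePreserving (Prod.swap : ℝ × (ℝ × ℝ) → (ℝ × ℝ) × ℝ) volume volume :=
    Measure.measurePreserving_swap
  have h6 := h5.comp (h4.comp (h2.comp h1))
  have e : (fun y : E3 => ((y 0, y 1), y 2)) = (Prod.swap ∘ Prod.map id (@MeasurableEquiv.finTwoArrow ℝ _) ∘
      (MeasurableEquiv.piFinSuccAbove (fun _ : Fin 3 => ℝ) 2) ∘ (WithLp.ofLp : E3 → Fin 3 → ℝ)) := by
    funext y
    rfl
  rw [e]
  exact h6

/-- the image of a Lipschitz map into three space is a null set -/
theorem null_range {C : Calc M γ} (hR : RegPl C) {g : Fin 3 → M → ℝ} (hg : ∀ k, Lip (g k)) :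
    (volume : Measure E3) (range fun x => (!₂[g 0 x, g 1 x, g 2 x] : E3)) = 0 := by
  set S : Set ((ℝ × ℝ) × ℝ) := range fun x => ((g 0 x, g 1 x), g 2 x) with hS
  have hc : IsCompact S :=
    isCompact_range (((hg 0).cont.prodMk (hg 1).cont).prodMk (hg 2).cont)
  have hm : MeasurableSet S := hc.isClosed.measurableSet
  have h0 : (volume : Measure ((ℝ × ℝ) × ℝ)) S = 0 := by
    refine Measure.measure_prod_null_of_ae_null hm ?_
    filter_upwards [hR (g 0) (g 1) (hg 0) (hg 1)] with v hv
    obtain ⟨Z, s, hZ⟩ := hv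
    have hf : (Prod.mk v ⁻¹' S) ⊆ (fun x => g 2 x) '' (Z : Set M) := by
      rintro w ⟨x, hx⟩
      refine ⟨x, ?_, ?_⟩
      · have h1 : (g 0 x, g 1 x) = v := congrArg Prod.fst hx
        have h2 : g 0 x = v.1 := congrArg Prod.fst h1
        have h3 : g 1 x = v.2 := congrArg Prod.snd h1
        refine Finset.mem_coe.2 ((hZ.zero x).2 ⟨?_, ?_⟩)
        · show g 0 x - v.1 = 0
          linarith
        · show g 1 x - v.2 = 0
          linarith
      · exact congrArg Prod.snd hx
    have hfin : ((fun x => g 2 x) '' (Z : Set M)).Finite := Z.finite_toSet.image _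
    exact measure_mono_null hf (hfin.measure_zero _)
  have hp : (range fun x => (!₂[g 0 x, g 1 x, g 2 x] : E3)) ⊆ (fun y : E3 => ((y 0, y 1), y 2)) ⁻¹' S := by
    rintro y ⟨x, rfl⟩
    exact ⟨x, rfl⟩
  refine measure_mono_null hp ?_
  rw [extn_three.measure_preimage hm.nullMeasurableSet]
  exact h0

/-- the matrices `A` for which `T - ∑ F j • A j` vanishes at a point where `s * F j` is at least `1/2` -/
def extnB (T F : Fin 3 → M → ℝ) (j : Fin 3) (s : ℝ) : Set (Fin 3 → E3) :=
  {A | ∃ x, 1 / 2 ≤ s * F j x ∧ (!₂[T 0 x, T 1 x, T 2 x] : E3) - ∑ i, F i x • A i = 0}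

private theorem extn_closed {T F : Fin 3 → M → ℝ} (hT : ∀ k, Lip (T k)) (hF : ∀ k, Lip (F k))
    (j : Fin 3) (s : ℝ) : IsClosed (extnB T F j s) := by
  have hTc : Continuous fun x => (!₂[T 0 x, T 1 x, T 2 x] : E3) := by
    refine (PiLp.continuous_toLp 2 _).comp ?_
    refine continuous_pi fun k => ?_
    fin_cases k
    · exact (hT 0).cont
    · exact (hT 1).cont
    · exact (hT 2).cont
  have h1 : IsClosed {q : M × (Fin 3 → E3) | 1 / 2 ≤ s * F j q.1 ∧
      (!₂[T 0 q.1, T 1 q.1, T 2 q.1] : E3) - ∑ i, F i q.1 • q.2 i = 0} := by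
    refine IsClosed.inter ?_ ?_
    · exact isClosed_le continuous_const (continuous_const.mul ((hF j).cont.comp continuous_fst))
    · refine isClosed_eq ?_ continuous_const
      refine (hTc.comp continuous_fst).sub ?_
      refine continuous_finsetSum _ fun i _ => ?_
      exact ((hF i).cont.comp continuous_fst).smul ((continuous_apply i).comp continuous_snd)
  have h2 := isClosedMap_snd_of_compactSpace (X := M) (Y := Fin 3 → E3) _ h1
  have e : extnB T F j s = Prod.snd '' {q : M × (Fin 3 → E3) | 1 / 2 ≤ s * F j q.1 ∧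
      (!₂[T 0 q.1, T 1 q.1, T 2 q.1] : E3) - ∑ i, F i q.1 • q.2 i = 0} := by
    ext A
    constructor
    · rintro ⟨x, hx⟩
      exact ⟨(x, A), hx, rfl⟩
    · rintro ⟨⟨x, A'⟩, hx, rfl⟩
      exact ⟨x, hx⟩
  rw [e]
  exact h2

private theorem extn_null {C : Calc M γ} (hR : RegPl C) {T F : Fin 3 → M → ℝ} (hT : ∀ k, Lip (T k))
    (hF : ∀ k, Lip (F k)) (j : Fin 3) (s : ℝ) :
    (volume : Measure (Fin 3 → E3)) (extnB T F j s) = 0 := by
  have hm : MeasurableSet (extnB T F j s) := (extn_closed hT hF j s).measurableSet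
  set e := MeasurableEquiv.piFinSuccAbove (fun _ : Fin 3 => E3) j with he
  have h2 : MeasurePreserving e volume volume := volume_preserving_piFinSuccAbove (fun _ : Fin 3 => E3) j
  have h5 : MeasurePreserving (Prod.swap : E3 × (Fin 2 → E3) → (Fin 2 → E3) × E3) volume volume :=
    Measure.measurePreserving_swap
  have h6 := h5.comp h2
  set S : Set ((Fin 2 → E3) × E3) := (fun q : (Fin 2 → E3) × E3 => e.symm (q.2, q.1)) ⁻¹' extnB T F j s
    with hS
  have hSm : MeasurableSet S :=
    (e.symm.measurable.comp (measurable_snd.prodMk measurable_fst)) hm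
  have hpre : extnB T F j s = (Prod.swap ∘ e) ⁻¹' S := by
    ext A
    simp only [hS, mem_preimage, Function.comp_apply, Prod.snd_swap, Prod.fst_swap, Prod.mk.eta,
      MeasurableEquiv.symm_apply_apply]
  rw [hpre, h6.measure_preimage hSm.nullMeasurableSet]
  refine Measure.measure_prod_null_of_ae_null hSm (ae_of_all _ fun r => ?_)
  set g : Fin 3 → M → ℝ := fun k x =>
    s * (T k x - ∑ i : Fin 2, r i k * F (j.succAbove i) x) / max (s * F j x) (1 / 2) with hg
  have hgl : ∀ k, Lip (g k) := by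
    intro k
    refine Lip.div (c := 1 / 2) ?_ (((hF j).const_mul s).max (lip_const (1 / 2))) (by norm_num)
      (fun x => le_max_right _ _)
    refine Lip.const_mul ?_ s
    refine (hT k).sub ?_
    exact lip_sum _ fun i _ => (hF (j.succAbove i)).const_mul (r i k)
  refine measure_mono_null ?_ (null_range hR hgl)
  intro a ha
  obtain ⟨x, hx1, hx2⟩ := ha
  refine ⟨x, ?_⟩
  have hA : ∀ k, T k x = F j x * a k + ∑ i : Fin 2, r i k * F (j.succAbove i) x := by
    intro k
    have h7 := congrArg (fun y : E3 => y k) hx2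
    have h8 : (∑ i, F i x • (e.symm (a, r)) i : E3) k = F j x * a k
        + ∑ i : Fin 2, r i k * F (j.succAbove i) x := by
      rw [Fin.sum_univ_succAbove _ j]
      have h9 : (e.symm (a, r)) j = a := by
        simp [he, MeasurableEquiv.piFinSuccAbove]
      have h10 : ∀ i : Fin 2, (e.symm (a, r)) (j.succAbove i) = r i := by
        intro i
        simp [he, MeasurableEquiv.piFinSuccAbove]
      rw [h9]
      simp only [h10]
      simp [Fin.sum_univ_two, mul_comm]
    have h11 : ((!₂[T 0 x, T 1 x, T 2 x] : E3) - ∑ i, F i x • (e.symm (a, r)) i) k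
        = T k x - (∑ i, F i x • (e.symm (a, r)) i : E3) k := by
      fin_cases k <;> simp
    have h12 : T k x - (∑ i, F i x • (e.symm (a, r)) i : E3) k = 0 := by
      rw [← h11]
      exact h7
    rw [h8] at h12
    linarith
  have hmax : max (s * F j x) (1 / 2) = s * F j x := max_eq_left hx1
  have hpos : (0 : ℝ) < s * F j x := by linarith
  have hg2 : ∀ k, g k x = a k := by
    intro k
    simp only [hg]
    rw [hmax, hA k]
    rw [div_eq_iff hpos.ne']
    ring
  ext k
  fin_cases k
  · exact hg2 0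
  · exact hg2 1
  · exact hg2 2

/-- for almost every matrix `A` the map `T - ∑ F j • A j` has no zero -/
theorem ae_nonzero {C : Calc M γ} (hR : RegPl C) {T F : Fin 3 → M → ℝ} (hT : ∀ k, Lip (T k))
    (hF : ∀ k, Lip (F k)) (hu : ∀ x, ∑ i, F i x ^ 2 = 1) {P : Measure (Fin 3 → E3)}
    (hP : P ≪ volume) :
    ∀ᵐ A ∂P, ∀ x, (!₂[T 0 x, T 1 x, T 2 x] : E3) - ∑ i, F i x • A i ≠ 0 := by
  refine hP.ae_le ?_
  have h : ∀ᵐ A : Fin 3 → E3, ∀ j : Fin 3, A ∉ extnB T F j 1 ∧ A ∉ extnB T F j (-1) := by
    rw [ae_all_iff]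
    intro j
    have h1 := extn_null hR hT hF j 1
    have h2 := extn_null hR hT hF j (-1)
    filter_upwards [compl_mem_ae_iff.2 h1, compl_mem_ae_iff.2 h2] with A a1 a2
    exact ⟨a1, a2⟩
  filter_upwards [h] with A hA x hx
  have h3 : ∃ j : Fin 3, 1 / 4 ≤ F j x ^ 2 := by
    by_contra hc
    push Not at hc
    have h4 := hu x
    rw [Fin.sum_univ_three] at h4
    have a0 := hc 0
    have a1 := hc 1
    have a2 := hc 2
    linarith
  obtain ⟨j, hj⟩ := h3
  rcases le_total 0 (F j x) with h5 | h5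
  · refine (hA j).1 ⟨x, ?_, hx⟩
    nlinarith
  · refine (hA j).2 ⟨x, ?_, hx⟩
    nlinarith

end Pool.Agent.FPX
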