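import Mathlib
import Pool.Agent.FPX.EXTM

/-
EXTP (helper91): the law `PA η` of the random matrix is absolutely continuous.
-/

open MeasureTheory Set Filter Topology
open scoped ENNReal NNReal

noncomputable section

namespace Pool.Agent.FPX

open Pool.Agent.EWD

theorem pi_ac {n : ℕ} (μ ν : Fin n → Measure E3) [∀ i, SigmaFinite (μ i)]
    [∀ i, SigmaFinite (ν i)] (h : ∀ i, μ i ≪ ν i) : Measure.pi μ ≪ Measure.pi ν := by
  induction n with
  | zero =>
    rw [Measure.pi_of_empty, Measure.pi_of_empty]
  | succ n ih =>
    have h1 := measurePreserving_piFinSuccAbove μ 0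
    have h2 := measurePreserving_piFinSuccAbove ν 0
    rw [← h1.symm.map_eq, ← h2.symm.map_eq]
    refine Measure.AbsolutelyContinuous.map ?_ (MeasurableEquiv.measurable _)
    exact Measure.AbsolutelyContinuous.prod (h 0) (ih _ _ fun j => h _)

theorem PB_ac {η : ℝ} (hη : η ≠ 0) : PB η ≪ (volume : Measure E3) := by
  have h1 : PB1 ≪ (volume : Measure E3) := by
    unfold PB1
    exact (Measure.smul_absolutelyContinuous).trans Measure.restrict_le_self.absolutelyContinuous
  unfold PB
  refine (Measure.AbsolutelyContinuous.map h1 (by fun_prop)).trans ?_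
  have h := Measure.map_addHaar_smul (volume : Measure E3) hη
  rw [h]
  exact Measure.smul_absolutelyContinuous

/-- `PA η` is absolutely continuous -/
theorem PA_ac {η : ℝ} (hη : η ≠ 0) : PA η ≪ (volume : Measure (Fin 3 → E3)) := by
  rw [volume_pi]
  exact pi_ac _ _ fun _ => PB_ac hη

end Pool.Agent.FPX
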