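import Mathlib
import Pool.Agent.FPX.EXTM
import Pool.Agent.FPX.EXTN
import Pool.Agent.FPX.EXTP
import Pool.Agent.FPX.PIN
import Pool.Agent.FPX.FME

/-
EXTV (helper91), part of L-EXT: every odd Lipschitz map `T` into `ℝ³` coincides, where `|T| ≥ 2c`, up
to normalisation with an odd Lipschitz map `v` into the sphere whose energy in the region
`{|T| < 2c}` is at most a constant times the area of this region. The constant depends only on the
Lipschitz constant of `T`, on `c` and on a fixed odd map `F` into the sphere. Construction: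
`v = U/|U|`, `U = T + ζ(|T|) A F`, where `A` is a random matrix.
-/

open MeasureTheory Set Filter Topology
open scoped ENNReal NNReal

noncomputable section

namespace Pool.Agent.FPX

open Pool.Agent.EWD Pool.Agent.FPM

/-! ### the weight -/

/-- `c` up to `c`, `0` from `2c` on -/
def zt (c r : ℝ) : ℝ := max 0 (min c (2 * c - r))

theorem zt_c {c r : ℝ} (hc : 0 < c) (h : r ≤ c) : zt c r = c := by
  unfold zt
  rw [min_eq_left (by linarith)]
  exact max_eq_right hc.le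

theorem zt_zero {c r : ℝ} (h : 2 * c ≤ r) : zt c r = 0 := by
  unfold zt
  exact max_eq_left ((min_le_right _ _).trans (by linarith))

theorem zt_nonneg (c r : ℝ) : 0 ≤ zt c r := le_max_left _ _

theorem zt_le {c : ℝ} (hc : 0 < c) (r : ℝ) : zt c r ≤ c := max_le hc.le (min_le_left _ _)

theorem zt_sub (c r s : ℝ) : |zt c r - zt c s| ≤ |r - s| := by
  unfold zt
  have h1 := abs_max_sub_max_le_abs (min c (2 * c - r)) (min c (2 * c - s)) 0
  rw [max_comm 0, max_comm 0]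
  refine h1.trans ?_
  have h2 := abs_min_sub_min_le_max c (2 * c - r) c (2 * c - s)
  refine h2.trans ?_
  rw [sub_self, abs_zero]
  have e : 2 * c - r - (2 * c - s) = -(r - s) := by ring
  rw [e, abs_neg]
  exact max_le (abs_nonneg _) le_rfl

theorem zt_cont (c : ℝ) : Continuous (zt c) := by
  unfold zt
  fun_prop

/-- the perturbed vector -/
def UP (c : ℝ) (A : Fin 3 → E3) (y f : E3) : E3 := y + zt c ‖y‖ • ∑ j, f j • A j

theorem UP_cont (c : ℝ) : Continuous fun q : (Fin 3 → E3) × (E3 × E3) => UP c q.1 q.2.1 q.2.2 := by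
  unfold UP
  have h := zt_cont c
  have h1 : Continuous fun q : (Fin 3 → E3) × (E3 × E3) => zt c ‖q.2.1‖ :=
    h.comp (by fun_prop)
  have h2 : Continuous fun q : (Fin 3 → E3) × (E3 × E3) => (∑ j, q.2.2 j • q.1 j : E3) := by
    refine continuous_finsetSum _ fun j _ => ?_
    have h3 : Continuous fun q : (Fin 3 → E3) × (E3 × E3) => q.1 j :=
      (continuous_apply j).comp continuous_fst
    have h4 : Continuous fun q : (Fin 3 → E3) × (E3 × E3) => q.2.2 j := by fun_prop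
    exact h4.smul h3
  exact (continuous_snd.fst).add (h1.smul h2)

/-- outside the ball of radius `c` the perturbed vector has norm at least `c / 2` -/
theorem UP_ge {c : ℝ} (hc : 0 < c) {A : Fin 3 → E3} (hA : ∀ j, ‖A j‖ ≤ 1 / 4) {y f : E3}
    (hf : ‖f‖ = 1) (hy : c < ‖y‖) : c / 2 ≤ ‖UP c A y f‖ := by
  unfold UP
  have h1 := norm_AF_le hf hA
  have h2 : ‖zt c ‖y‖ • ∑ j, f j • A j‖ ≤ c / 2 := by
    rw [norm_smul, Real.norm_eq_abs, abs_of_nonneg (zt_nonneg _ _)]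
    calc zt c ‖y‖ * ‖∑ j, f j • A j‖ ≤ c * (2 * (1 / 4)) :=
          mul_le_mul (zt_le hc _) h1 (norm_nonneg _) hc.le
      _ = c / 2 := by ring
  have h3 := norm_sub_norm_le y (-(zt c ‖y‖ • ∑ j, f j • A j))
  rw [norm_neg, sub_neg_eq_add] at h3
  linarith

theorem UP_ne {c : ℝ} (hc : 0 < c) {A : Fin 3 → E3} (hA : ∀ j, ‖A j‖ ≤ 1 / 4) {y f : E3}
    (hf : ‖f‖ = 1) (h : (1 / c) • y + ∑ j, f j • A j ≠ 0) : UP c A y f ≠ 0 := by
  rcases le_or_gt ‖y‖ c with h1 | h1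
  · intro h0
    refine h ?_
    unfold UP at h0
    rw [zt_c hc h1] at h0
    have h2 : (1 / c) • (y + c • ∑ j, f j • A j) = (1 / c) • y + ∑ j, f j • A j := by
      rw [smul_add, smul_smul, one_div_mul_cancel hc.ne', one_smul]
    rw [← h2, h0, smul_zero]
  · intro h0
    have h2 := UP_ge hc hA hf h1
    rw [h0, norm_zero] at h2
    linarith

/-- the inverse square moment -/
theorem UP_mom {c : ℝ} (hc : 0 < c) {f : E3} (hf : ‖f‖ = 1) (y : E3) :
    ∫⁻ A, ENNReal.ofReal (1 / ‖UP c A y f‖ ^ 2) ∂(PA (1 / 4)) ≤ ENNReal.ofReal (256 / c ^ 2) := by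
  rcases le_or_gt ‖y‖ c with h1 | h1
  · have h2 := ext_mp (η := 1 / 4) hf (by norm_num) y hc
    have e1 : (16 : ℝ) / (c * (1 / 4)) ^ 2 = 256 / c ^ 2 := by
      rw [div_eq_div_iff (by positivity) (by positivity)]
      ring
    rw [e1] at h2
    have e2 : ∀ A : Fin 3 → E3, UP c A y f = y + c • ∑ j, f j • A j := by
      intro A
      unfold UP
      rw [zt_c hc h1]
    simp only [e2]
    exact h2
  · have h2 : ∫⁻ A, ENNReal.ofReal (1 / ‖UP c A y f‖ ^ 2) ∂(PA (1 / 4)) ≤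
        ∫⁻ _, ENNReal.ofReal (256 / c ^ 2) ∂(PA (1 / 4)) := by
      refine lintegral_mono_ae ?_
      filter_upwards [ae_PA (η := 1 / 4) (by norm_num)] with A hA
      refine ENNReal.ofReal_le_ofReal ?_
      have h3 := UP_ge hc hA hf h1
      have h4 : (c / 2) ^ 2 ≤ ‖UP c A y f‖ ^ 2 := pow_le_pow_left₀ (by positivity) h3 2
      calc 1 / ‖UP c A y f‖ ^ 2 ≤ 1 / (c / 2) ^ 2 := one_div_le_one_div_of_le (by positivity) h4
        _ = 4 / c ^ 2 := by
            rw [div_eq_div_iff (by positivity) (by positivity)]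
            ring
        _ ≤ 256 / c ^ 2 := by gcongr; norm_num
    rw [lintegral_const, measure_univ, mul_one] at h2
    exact h2

/-! ### the perturbed map -/

variable {M : Type} [MetricSpace M] {γ : ℝ → M}

/-- the perturbed map -/
def UA (c : ℝ) (T F : Fin 3 → M → ℝ) (A : Fin 3 → E3) (k : Fin 3) (x : M) : ℝ :=
  T k x + zt c ‖vv (n := 0) T x‖ * ∑ j, F j x * A j k

omit [MetricSpace M] in
private theorem EXTV_vv (T : Fin 3 → M → ℝ) (x : M) (k : Fin 3) : vv (n := 0) T x k = T k x := by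
  fin_cases k <;> rfl

omit [MetricSpace M] in
theorem vv_UA (c : ℝ) (T F : Fin 3 → M → ℝ) (A : Fin 3 → E3) (x : M) :
    vv (n := 0) (UA c T F A) x = UP c A (vv (n := 0) T x) (vv (n := 0) F x) := by
  ext k
  rw [EXTV_vv]
  unfold UA UP
  rw [PiLp.add_apply, PiLp.smul_apply, EXTV_vv, smul_eq_mul]
  have e : (∑ j, vv (n := 0) F x j • A j : E3) k = ∑ j, F j x * A j k := by
    rw [Fin.sum_univ_three, Fin.sum_univ_three, PiLp.add_apply, PiLp.add_apply, PiLp.smul_apply,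
      PiLp.smul_apply, PiLp.smul_apply]
    simp only [EXTV_vv, smul_eq_mul]
  rw [e]

private theorem EXTV_coord (a : E3) (k : Fin 3) : |a k| ≤ ‖a‖ := by
  refine abs_le_of_sq_le_sq ?_ (norm_nonneg _)
  rw [EuclideanSpace.real_norm_sq_eq]
  exact Finset.single_le_sum (f := fun i => a i ^ 2) (fun i _ => sq_nonneg _) (Finset.mem_univ k)

theorem UA_lip {c : ℝ≥0} {L LF : ℝ≥0} {T F : Fin 3 → M → ℝ} (hc : 0 < c)
    (hT : ∀ k, LipschitzWith L (T k)) (hF : Sph γ F) (hLF : ∀ k, LipschitzWith LF (F k))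
    {A : Fin 3 → E3} (hA : ∀ j, ‖A j‖ ≤ 1 / 4) (k : Fin 3) :
    LipschitzWith (2 * L + c * LF) (UA c T F A k) := by
  have hc' : (0 : ℝ) < c := hc
  refine LipschitzWith.of_dist_le_mul fun x y => ?_
  rw [Real.dist_eq]
  unfold UA
  have hd : 0 ≤ dist x y := dist_nonneg
  have h1 : ∀ k, |T k x - T k y| ≤ L * dist x y := fun k => by
    have := (hT k).dist_le_mul x y
    rwa [Real.dist_eq] at this
  have h2 : ∀ k, |F k x - F k y| ≤ LF * dist x y := fun k => by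
    have := (hLF k).dist_le_mul x y
    rwa [Real.dist_eq] at this
  have h3 : ‖vv (n := 0) T x - vv (n := 0) T y‖ ≤ 2 * (L * dist x y) := by
    refine le_of_sq_le_sq ?_ (by positivity)
    rw [normsq3]
    change (T 0 x - T 0 y) ^ 2 + (T 1 x - T 1 y) ^ 2 + (T 2 x - T 2 y) ^ 2 ≤ _
    have g : ∀ a : ℝ, |a| ≤ L * dist x y → a ^ 2 ≤ (L * dist x y) ^ 2 := fun a ha => by
      rw [← sq_abs]
      exact pow_le_pow_left₀ (abs_nonneg _) ha 2
    nlinarith [g _ (h1 0), g _ (h1 1), g _ (h1 2), sq_nonneg ((L : ℝ) * dist x y)]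
  have h4 : |zt c ‖vv (n := 0) T x‖ - zt c ‖vv (n := 0) T y‖| ≤ 2 * (L * dist x y) :=
    (zt_sub _ _ _).trans ((abs_norm_sub_norm_le _ _).trans h3)
  have h5 : |∑ j, F j x * A j k| ≤ 1 / 2 := by
    have h6 := norm_AF_le (norm_vv hF x) hA
    have h7 := EXTV_coord (∑ j, vv (n := 0) F x j • A j) k
    have e : (∑ j, vv (n := 0) F x j • A j : E3) k = ∑ j, F j x * A j k := by
      rw [Fin.sum_univ_three, Fin.sum_univ_three, PiLp.add_apply, PiLp.add_apply, PiLp.smul_apply,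
        PiLp.smul_apply, PiLp.smul_apply]
      simp only [EXTV_vv, smul_eq_mul]
    rw [e] at h7
    linarith
  have h8 : |∑ j, F j x * A j k - ∑ j, F j y * A j k| ≤ LF * dist x y := by
    rw [← Finset.sum_sub_distrib]
    have h9 : ∀ j ∈ (Finset.univ : Finset (Fin 3)), |F j x * A j k - F j y * A j k| ≤
        (LF * dist x y) * (1 / 4) := by
      intro j _
      rw [← sub_mul, abs_mul]
      exact mul_le_mul (h2 j) ((EXTV_coord _ _).trans (hA j)) (abs_nonneg _) (by positivity)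
    have h10 := (Finset.abs_sum_le_sum_abs _ _).trans (Finset.sum_le_sum h9)
    rw [Finset.sum_const, Finset.card_univ, Fintype.card_fin] at h10
    have h11 : (0 : ℝ) ≤ LF * dist x y := by positivity
    rw [nsmul_eq_mul] at h10
    push_cast at h10
    linarith
  have e : T k x + zt c ‖vv (n := 0) T x‖ * ∑ j, F j x * A j k
      - (T k y + zt c ‖vv (n := 0) T y‖ * ∑ j, F j y * A j k)
      = (T k x - T k y) + (zt c ‖vv (n := 0) T x‖ - zt c ‖vv (n := 0) T y‖) * (∑ j, F j x * A j k)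
        + zt c ‖vv (n := 0) T y‖ * (∑ j, F j x * A j k - ∑ j, F j y * A j k) := by ring
  rw [e]
  refine (abs_add_le _ _).trans ?_
  have h12 := abs_add_le (T k x - T k y)
    ((zt c ‖vv (n := 0) T x‖ - zt c ‖vv (n := 0) T y‖) * (∑ j, F j x * A j k))
  rw [abs_mul] at h12
  rw [abs_mul (zt c ‖vv (n := 0) T y‖)]
  have h13 : |zt c ‖vv (n := 0) T x‖ - zt c ‖vv (n := 0) T y‖| * |∑ j, F j x * A j k| ≤
      2 * (L * dist x y) * (1 / 2) := mul_le_mul h4 h5 (abs_nonneg _) (by positivity)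
  have h14 : |zt c ‖vv (n := 0) T y‖| * |∑ j, F j x * A j k - ∑ j, F j y * A j k| ≤
      c * (LF * dist x y) := by
    rw [abs_of_nonneg (zt_nonneg _ _)]
    exact mul_le_mul (zt_le hc' _) h8 (abs_nonneg _) hc'.le
  have h15 := h1 k
  push_cast
  nlinarith

theorem UA_odd {c : ℝ} {T F : Fin 3 → M → ℝ} (hT : ∀ k, OddB γ (T k)) (hF : Sph γ F)
    (A : Fin 3 → E3) (k : Fin 3) : OddB γ (UA c T F A k) := by
  intro t
  unfold UA
  have h1 : ‖vv (n := 0) T (γ (t + Real.pi))‖ = ‖vv (n := 0) T (γ t)‖ := by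
    rw [vv_neg (x := γ (t + Real.pi)) (y := γ t) fun k => hT k t, norm_neg]
  have h2 : ∑ j, F j (γ (t + Real.pi)) * A j k = -∑ j, F j (γ t) * A j k := by
    rw [← Finset.sum_neg_distrib]
    refine Finset.sum_congr rfl fun j _ => ?_
    rw [hF.odd j t]
    ring
  rw [h1, h2, hT k t]
  ring

/-! ### the derivative of the normalised map -/

omit [MetricSpace M] in
private theorem EXTV_norm (U : Fin 3 → M → ℝ) (x : M) : ‖vv (n := 0) U x‖ = √(∑ i, U i x ^ 2) := by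
  rw [EuclideanSpace.norm_eq]
  congr 1
  rw [Fin.sum_univ_three, Fin.sum_univ_three]
  simp only [Real.norm_eq_abs, sq_abs]
  rfl

omit [MetricSpace M] in
private theorem EXTV_deriv {δ : ℝ} (hδ : 0 ≤ δ) {U : Fin 3 → M → ℝ} {c : ℝ → M} {g : Fin 3 → ℝ}
    (h : ∀ i, HasDerivAt (fun t => U i (c t)) (g i) 0) (hr : δ < ‖vv (n := 0) U (c 0)‖) (k : Fin 3) :
    HasDerivAt (fun t => NV δ U k (c t)) (ND (fun i => U i (c 0)) g k) 0 := by
  have hpos : 0 < √(∑ i, U i (c 0) ^ 2) := by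
    rw [← EXTV_norm]
    exact hδ.trans_lt hr
  have hsum : HasDerivAt (fun t => ∑ i, U i (c t) ^ 2) (∑ i, 2 * U i (c 0) * g i) 0 := by
    refine HasDerivAt.fun_sum fun i _ => ?_
    have h5 := (h i).fun_pow 2
    simpa using h5
  have hsq : HasDerivAt (fun t => √(∑ i, U i (c t) ^ 2)) ((∑ i, U i (c 0) * g i) / √(∑ i, U i (c 0) ^ 2)) 0 := by
    have h1 := hsum.sqrt (fun h0 => by rw [h0, Real.sqrt_zero] at hpos; exact lt_irrefl _ hpos)
    convert h1 using 1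
    have e : ∑ i, 2 * U i (c 0) * g i = 2 * ∑ i, U i (c 0) * g i := by
      rw [Finset.mul_sum]
      exact Finset.sum_congr rfl fun i _ => by ring
    rw [e, mul_div_mul_left _ _ two_ne_zero]
  have hq := (h k).div hsq hpos.ne'
  have hev : (fun t => NV δ U k (c t)) =ᶠ[𝓝 0] fun t => U k (c t) / √(∑ i, U i (c t) ^ 2) := by
    have h2 : ∀ᶠ t in 𝓝 (0 : ℝ), δ < √(∑ i, U i (c t) ^ 2) := by
      refine hsq.continuousAt.eventually_const_lt ?_
      change δ < √(∑ i, U i (c 0) ^ 2)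
      rw [← EXTV_norm]
      exact hr
    filter_upwards [h2] with t ht
    unfold NV
    rw [EXTV_norm, max_eq_left ht.le]
  exact hq.congr_of_eventuallyEq hev

/-- the derivative of `u/|u|` is at most `|g|/|u|` -/
theorem ND_sq {u : Fin 3 → ℝ} (g : Fin 3 → ℝ) (hu : 0 < ∑ i, u i ^ 2) :
    ∑ k, ND u g k ^ 2 ≤ (∑ k, g k ^ 2) / ∑ k, u k ^ 2 := by
  set r := √(∑ i, u i ^ 2) with hr
  have hr0 : 0 < r := Real.sqrt_pos.2 hu
  have hr2 : r ^ 2 = ∑ i, u i ^ 2 := Real.sq_sqrt hu.le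
  set s := (∑ i, u i * g i) / r with hs
  have hs1 : ∑ i, u i * g i = s * r := by
    rw [hs]
    field_simp
  have h1 : ∑ k, ND u g k ^ 2 = (∑ k, (g k * r - u k * s) ^ 2) / r ^ 4 := by
    rw [Finset.sum_div]
    refine Finset.sum_congr rfl fun k _ => ?_
    unfold ND
    rw [← hr, ← hs, div_pow]
    congr 1
    ring
  have h2 : ∑ k, (g k * r - u k * s) ^ 2 = r ^ 2 * (∑ k, g k ^ 2) - s ^ 2 * r ^ 2 := by
    have e : ∑ k, (g k * r - u k * s) ^ 2 = r ^ 2 * (∑ k, g k ^ 2) - 2 * r * s * (∑ k, u k * g k)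
        + s ^ 2 * (∑ k, u k ^ 2) := by
      simp only [Fin.sum_univ_three]
      ring
    rw [e, hs1, ← hr2]
    ring
  rw [h1, h2, ← hr2, div_le_div_iff₀ (by positivity) (by positivity)]
  have h3 : 0 ≤ s ^ 2 * r ^ 2 * r ^ 2 := by positivity
  nlinarith

/-- the energy density of the normalised map -/
theorem NV_energy (C : Calc M γ) {δ : ℝ} (hδ : 0 ≤ δ) {U : Fin 3 → M → ℝ} {K : ℝ≥0}
    (hU : ∀ k, LipschitzWith K (U k)) (hr : ∀ x, δ < ‖vv (n := 0) U x‖) :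
    ∀ᵐ o ∂C.μ, ‖dx C (NV δ U) o‖ ^ 2 + ‖dy C (NV δ U) o‖ ^ 2 ≤
      3 * (K : ℝ) ^ 2 * (1 / ‖vv (n := 0) U (C.pt o)‖ ^ 2) := by
  have h1 : ∀ᵐ o ∂C.μ, ∀ k, HasDerivAt (fun s => U k (C.px o s)) (C.gx (U k) o) 0 ∧
      HasDerivAt (fun s => U k (C.py o s)) (C.gy (U k) o) 0 :=
    ae_all_iff.mpr fun k => C.ae_has ⟨K, hU k⟩
  have h2 : ∀ᵐ o ∂C.μ, ∀ k, C.gx (U k) o ^ 2 + C.gy (U k) o ^ 2 ≤ (K : ℝ) ^ 2 :=
    ae_all_iff.mpr fun k => C.ae_grad_le (hU k)
  filter_upwards [h1, h2] with o ho1 ho2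
  have hpos : 0 < ‖vv (n := 0) U (C.pt o)‖ := hδ.trans_lt (hr _)
  have hn : ‖vv (n := 0) U (C.pt o)‖ ^ 2 = ∑ i, U i (C.pt o) ^ 2 := by
    rw [normsq3, Fin.sum_univ_three]
    rfl
  have hs : 0 < ∑ i, U i (C.pt o) ^ 2 := by
    rw [← hn]
    positivity
  have hx : ∀ k, C.gx (NV δ U k) o = ND (fun i => U i (C.pt o)) (fun i => C.gx (U i) o) k := fun k =>
    (EXTV_deriv hδ (c := C.px o) (fun i => (ho1 i).1) (hr _) k).deriv
  have hy : ∀ k, C.gy (NV δ U k) o = ND (fun i => U i (C.pt o)) (fun i => C.gy (U i) o) k := fun k => by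
    have h3 := (EXTV_deriv hδ (c := C.py o) (fun i => (ho1 i).2) (hr _) k).deriv
    rw [C.py_zero o] at h3
    exact h3
  have h4 : ‖dx C (NV δ U) o‖ ^ 2 = ∑ k, ND (fun i => U i (C.pt o)) (fun i => C.gx (U i) o) k ^ 2 := by
    rw [normsq3, Fin.sum_univ_three, ← hx, ← hx, ← hx]
    rfl
  have h5 : ‖dy C (NV δ U) o‖ ^ 2 = ∑ k, ND (fun i => U i (C.pt o)) (fun i => C.gy (U i) o) k ^ 2 := by
    rw [normsq3, Fin.sum_univ_three, ← hy, ← hy, ← hy]
    rfl
  have h6 := ND_sq (u := fun i => U i (C.pt o)) (fun i => C.gx (U i) o) hs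
  have h7 := ND_sq (u := fun i => U i (C.pt o)) (fun i => C.gy (U i) o) hs
  rw [h4, h5, hn]
  refine (add_le_add h6 h7).trans ?_
  rw [← add_div, ← Finset.sum_add_distrib, div_eq_mul_one_div]
  refine mul_le_mul_of_nonneg_right ?_ (by positivity)
  refine (Finset.sum_le_sum fun k _ => ho2 k).trans ?_
  rw [Finset.sum_const, Finset.card_univ, Fintype.card_fin, nsmul_eq_mul]
  push_cast
  exact le_rfl

/-! ### the choice of the matrix -/

private theorem EXTV_meas {c : ℝ} (P : Measure (Fin 3 → E3)) [SFinite P] {μ : Measure Om} [SFinite μ]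
    {t f : Om → E3} (ht : AEMeasurable t μ) (hf : AEMeasurable f μ) :
    AEMeasurable (fun q : (Fin 3 → E3) × Om => ENNReal.ofReal (1 / ‖UP c q.1 (t q.2) (f q.2)‖ ^ 2))
      (P.prod μ) := by
  have h1 : AEMeasurable (fun q : (Fin 3 → E3) × Om => (q.1, (t q.2, f q.2))) (P.prod μ) :=
    measurable_fst.aemeasurable.prodMk (ht.comp_snd.prodMk hf.comp_snd)
  have h2 : AEMeasurable (fun q : (Fin 3 → E3) × Om => UP c q.1 (t q.2) (f q.2)) (P.prod μ) :=
    (UP_cont c).measurable.comp_aemeasurable h1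
  exact ((h2.norm.pow_const 2).const_div 1).ennreal_ofReal

/-- a measurable choice of the matrix with average energy -/
private theorem EXTV_choose [CompactSpace M] {C : Calc M γ} (hR : RegPl C) {F T : Fin 3 → M → ℝ}
    (hF : Sph γ F) (hT : ∀ k, Lip (T k)) {c : ℝ} (hc : 0 < c) (S : Set Om) :
    ∃ A : Fin 3 → E3, (∀ j, ‖A j‖ ≤ 1 / 4) ∧
      (∀ x, UP c A (vv (n := 0) T x) (vv (n := 0) F x) ≠ 0) ∧
      ∫⁻ o in S, ENNReal.ofReal (1 / ‖UP c A (at' C T o) (at' C F o)‖ ^ 2) ∂C.μ ≤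
        ENNReal.ofReal (256 / c ^ 2) * C.μ S := by
  have := C.fin
  have hgood : ∀ᵐ A ∂(PA (1 / 4)), (∀ j, ‖A j‖ ≤ 1 / 4) ∧
      (∀ x, UP c A (vv (n := 0) T x) (vv (n := 0) F x) ≠ 0) := by
    have h1 := ae_nonzero hR (T := fun k x => (1 / c) * T k x) (F := fun k x => -F k x)
      (fun k => (hT k).const_mul (1 / c)) (fun k => (hF.lip k).neg)
      (fun x => by
        have := hF.unit x
        simpa using this)
      (P := PA (1 / 4)) (PA_ac (by norm_num))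
    filter_upwards [ae_PA (η := 1 / 4) (by norm_num), h1] with A hA h2
    refine ⟨hA, fun x => UP_ne hc hA (norm_vv hF x) fun h0 => h2 x ?_⟩
    rw [← h0]
    have e1 : (!₂[(1 / c) * T 0 x, (1 / c) * T 1 x, (1 / c) * T 2 x] : E3)
        = (1 / c) • vv (n := 0) T x := by
      ext k
      rw [PiLp.smul_apply, EXTV_vv]
      fin_cases k <;> rfl
    have e2 : ∑ i, (-F i x) • A i = -∑ j, vv (n := 0) F x j • A j := by
      rw [← Finset.sum_neg_distrib]
      refine Finset.sum_congr rfl fun j _ => ?_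
      rw [EXTV_vv, neg_smul]
    rw [e1, e2, sub_neg_eq_add]
  -- joint measurability
  obtain ⟨-, -, mT⟩ := meas_dx C hT
  obtain ⟨-, -, mF⟩ := meas_dx C hF.lip
  have hm := EXTV_meas (c := c) (PA (1 / 4)) (mT.restrict (s := S)) (mF.restrict (s := S))
  have hswap := lintegral_lintegral_swap (μ := PA (1 / 4)) (ν := C.μ.restrict S)
    (f := fun A o => ENNReal.ofReal (1 / ‖UP c A (at' C T o) (at' C F o)‖ ^ 2)) hm
  have hle : ∫⁻ A, ∫⁻ o in S, ENNReal.ofReal (1 / ‖UP c A (at' C T o) (at' C F o)‖ ^ 2) ∂C.μ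
      ∂(PA (1 / 4)) ≤ ENNReal.ofReal (256 / c ^ 2) * C.μ S := by
    rw [hswap]
    refine (lintegral_mono fun o => UP_mom hc (norm_at hF o) (at' C T o)).trans ?_
    rw [lintegral_const, Measure.restrict_apply_univ]
  obtain ⟨A, hA, hA2⟩ := exists_notMem_null_le_lintegral (μ := PA (1 / 4))
    (f := fun A => ∫⁻ o in S, ENNReal.ofReal (1 / ‖UP c A (at' C T o) (at' C F o)‖ ^ 2) ∂C.μ)
    hm.lintegral_prod_right' (ae_iff.1 hgood)
  have hA3 : (∀ j, ‖A j‖ ≤ 1 / 4) ∧ (∀ x, UP c A (vv (n := 0) T x) (vv (n := 0) F x) ≠ 0) := by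
    by_contra h
    exact hA h
  exact ⟨A, hA3.1, hA3.2, le_trans hA2 hle⟩

/-- the constant -/
def KX (c : ℝ) (L LF : ℝ≥0) : ℝ := 768 * (2 * L + c * LF) ^ 2 / c ^ 2

theorem KX_nonneg (c : ℝ) (L LF : ℝ≥0) : 0 ≤ KX c L LF := by
  unfold KX
  positivity

/-- EXTENSION WITH BOUNDED ENERGY: an odd map `v` into the sphere that coincides with `T/|T|` where
`|T| ≥ 2c`, with energy at most `KX c L LF` times the area in the region where `|T| < 2c` -/
theorem ext_v_lint [CompactSpace M] {C : Calc M γ} (hR : RegPl C) {F : Fin 3 → M → ℝ} (hF : Sph γ F)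
    {LF : ℝ≥0} (hLF : ∀ k, LipschitzWith LF (F k)) {c : ℝ} (hc : 0 < c) {L : ℝ≥0}
    {T : Fin 3 → M → ℝ} (hT : ∀ k, LipschitzWith L (T k)) (hTo : ∀ k, OddB γ (T k)) :
    ∃ v : Fin 3 → M → ℝ, Sph γ v ∧
      (∀ x, 2 * c ≤ ‖vv (n := 0) T x‖ → ∀ k, v k x = T k x / ‖vv (n := 0) T x‖) ∧
      ∫⁻ o in {o | ‖at' C T o‖ < 2 * c}, ENNReal.ofReal (‖dx C v o‖ ^ 2 + ‖dy C v o‖ ^ 2) ∂C.μ ≤
        ENNReal.ofReal (KX c L LF) * C.μ {o | ‖at' C T o‖ < 2 * c} := by
  have := C.fin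
  have : Nonempty M := ⟨γ 0⟩
  set cn : ℝ≥0 := ⟨c, hc.le⟩ with hcn
  have hcn0 : 0 < cn := hc
  set LU : ℝ≥0 := 2 * L + cn * LF with hLU
  set S : Set Om := {o | ‖at' C T o‖ < 2 * c} with hS
  obtain ⟨A, hA, hne, hint⟩ := EXTV_choose (C := C) hR hF (fun k => ⟨L, hT k⟩) hc S
  set U : Fin 3 → M → ℝ := UA c T F A with hU
  have hUl : ∀ k, LipschitzWith LU (U k) := fun k => UA_lip (c := cn) hcn0 hT hF hLF hA k
  have hUo : ∀ k, OddB γ (U k) := UA_odd hTo hF A
  have hUc : Continuous fun x => ‖vv (n := 0) U x‖ := by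
    have h1 : Continuous fun x => vv (n := 0) U x := by
      refine (PiLp.continuous_toLp 2 _).comp (continuous_pi fun k => ?_)
      fin_cases k
      · exact (hUl 0).continuous
      · exact (hUl 1).continuous
      · exact (hUl 2).continuous
    exact h1.norm
  obtain ⟨x0, hx0⟩ := mn_mem hUc
  have hpos : 0 < mn fun x => ‖vv (n := 0) U x‖ := by
    rw [← hx0, norm_pos_iff, vv_UA]
    exact hne x0
  set δ : ℝ≥0 := ⟨(mn fun x => ‖vv (n := 0) U x‖) / 2, (half_pos hpos).le⟩ with hδ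
  have hδ0 : 0 < δ := half_pos hpos
  have hδc : (δ : ℝ) = (mn fun x => ‖vv (n := 0) U x‖) / 2 := rfl
  have hr : ∀ x, (δ : ℝ) < ‖vv (n := 0) U x‖ := fun x => by
    have := mn_le hUc x
    rw [hδc]
    linarith
  refine ⟨NV δ U, NV_sph hδ0 (fun k => ⟨LU, hUl k⟩) hUo fun x => (hr x).le, ?_, ?_⟩
  · intro x hx k
    have h1 : vv (n := 0) U x = vv (n := 0) T x := by
      rw [hU, vv_UA]
      unfold UP
      rw [zt_zero hx, zero_smul, add_zero]
    have h2 : U k x = T k x := by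
      have := congrArg (fun y : E3 => y k) h1
      simp only [EXTV_vv] at this
      exact this
    unfold NV
    rw [h2, max_eq_left (hr x).le, h1]
  · -- the energy
    have hen := NV_energy C (δ := δ) δ.2 hUl hr
    have hle : ∫⁻ o in S, ENNReal.ofReal (‖dx C (NV δ U) o‖ ^ 2 + ‖dy C (NV δ U) o‖ ^ 2) ∂C.μ ≤
        ENNReal.ofReal (3 * (LU : ℝ) ^ 2) * (ENNReal.ofReal (256 / c ^ 2) * C.μ S) := by
      refine le_trans ?_ (mul_le_mul_right hint (ENNReal.ofReal (3 * (LU : ℝ) ^ 2)))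
      rw [← lintegral_const_mul' _ _ ENNReal.ofReal_ne_top]
      refine lintegral_mono_ae (ae_restrict_of_ae ?_)
      filter_upwards [hen] with o ho
      rw [← ENNReal.ofReal_mul (by positivity)]
      refine ENNReal.ofReal_le_ofReal (ho.trans (le_of_eq ?_))
      rw [hU, vv_UA]
      rfl
    refine hle.trans (le_of_eq ?_)
    rw [← mul_assoc, ← ENNReal.ofReal_mul (by positivity)]
    congr 2
    have e1 : (LU : ℝ) = 2 * L + c * LF := by
      rw [hLU, hcn]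
      push_cast
      rfl
    rw [e1]
    unfold KX
    ring

/-- the same with the integral of real functions -/
theorem ext_v [CompactSpace M] {C : Calc M γ} (hR : RegPl C) {F : Fin 3 → M → ℝ} (hF : Sph γ F)
    {LF : ℝ≥0} (hLF : ∀ k, LipschitzWith LF (F k)) {c : ℝ} (hc : 0 < c) {L : ℝ≥0}
    {T : Fin 3 → M → ℝ} (hT : ∀ k, LipschitzWith L (T k)) (hTo : ∀ k, OddB γ (T k)) :
    ∃ v : Fin 3 → M → ℝ, Sph γ v ∧
      (∀ x, 2 * c ≤ ‖vv (n := 0) T x‖ → ∀ k, v k x = T k x / ‖vv (n := 0) T x‖) ∧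
      ∫⁻ o in {o | ‖at' C T o‖ < 2 * c}, ENNReal.ofReal (‖dx C v o‖ ^ 2 + ‖dy C v o‖ ^ 2) ∂C.μ ≤
        ENNReal.ofReal (KX c L LF) * C.μ {o | ‖at' C T o‖ < 2 * c} ∧
      ∫ o in {o | ‖at' C T o‖ < 2 * c}, (‖dx C v o‖ ^ 2 + ‖dy C v o‖ ^ 2) ∂C.μ ≤
        KX c L LF * C.μ.real {o | ‖at' C T o‖ < 2 * c} := by
  have := C.fin
  obtain ⟨v, hv, h1, h2⟩ := ext_v_lint hR hF hLF hc hT hTo
  refine ⟨v, hv, h1, h2, ?_⟩
  obtain ⟨mx, my, -⟩ := meas_dx C hv.lip
  have hms : AEStronglyMeasurable (fun o => ‖dx C v o‖ ^ 2 + ‖dy C v o‖ ^ 2)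
      (C.μ.restrict {o | ‖at' C T o‖ < 2 * c}) :=
    ((mx.norm.pow_const 2).add (my.norm.pow_const 2)).restrict.aestronglyMeasurable
  rw [integral_eq_lintegral_of_nonneg_ae (ae_of_all _ fun o => by positivity) hms]
  refine (ENNReal.toReal_mono (ENNReal.mul_ne_top ENNReal.ofReal_ne_top (measure_ne_top _ _))
    h2).trans (le_of_eq ?_)
  rw [ENNReal.toReal_mul, ENNReal.toReal_ofReal (KX_nonneg _ _ _), Measure.real]

end Pool.Agent.FPX
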