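import Mathlib
import Pool.Agent.FPX.EXTC
import Pool.Agent.FPX.EXTV
import Pool.Agent.FPX.EXTS

/-
EXTE (helper20): finitely many admissible potentials suffice for the cut-off flux of all odd
`L`-Lipschitz maps `T` into `ℝ³`, up to an error of the size of the area of `{|T| < 2c}`.
-/

open MeasureTheory Set Filter Topology
open scoped ENNReal NNReal

noncomputable section

namespace Pool.Agent.FPX

open Pool.Agent.EWD Pool.Agent.FPM

variable {M : Type} [MetricSpace M] {γ : ℝ → M}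

/-- the constant of the error -/
def KE (c : ℝ) (L LF : ℝ≥0) : ℝ := Real.pi / 2 * (1 + KX c L LF / 2 + 4 * L / c)

/-- the energy of the normalised map where `2c ≤ |T|` -/
private theorem EXTE_out [CompactSpace M] (C : Calc M γ) {c : ℝ} (hc : 0 < c) {T v : Fin 3 → M → ℝ} {L : ℝ≥0}
    (hT : ∀ k, LipschitzWith L (T k)) (hv : Sph γ v)
    (hvT : ∀ x, 2 * c ≤ ‖vv (n := 0) T x‖ → ∀ k, v k x = T k x / ‖vv (n := 0) T x‖) :
    ∀ᵐ o ∂C.μ, 2 * c ≤ ‖at' C T o‖ →
      ‖dx C v o‖ ^ 2 + ‖dy C v o‖ ^ 2 ≤ 2 * (L : ℝ) ^ 2 / c ^ 2 := by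
  have lT : ∀ k, Lip (T k) := fun k => ⟨L, hT k⟩
  have lN : ∀ k, Lip (NV c T k) := by
    intro k
    have hc' : (0 : ℝ≥0) < ⟨c, hc.le⟩ := hc
    exact ⟨_, NV_lip hc' hT k⟩
  filter_upwards [ae_eq_nv C (by linarith : c ≤ 2 * c) hv.lip hvT lN, ae_nv_loc C hc.le lT,
    ae_dx_le C hT] with o h1 h2 h3 hr
  obtain ⟨e1, e2, e3⟩ := h1 hr
  obtain ⟨f1, f2, f3⟩ := h2 (by linarith)
  have hn : 0 < ‖at' C T o‖ := by linarith
  have hne : at' C T o ≠ 0 := norm_pos_iff.1 hn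
  have hu := norm_nrm hne
  rw [e2, e3, f2, f3]
  set u : E3 := (‖at' C T o‖⁻¹ : ℝ) • at' C T o with hud
  have key : ∀ a : E3, ‖a‖ ≤ 2 * L → ‖(‖at' C T o‖⁻¹ : ℝ) • (a - (inner ℝ u a : ℝ) • u)‖ ≤ L / c := by
    intro a ha
    rw [norm_smul, norm_inv, norm_norm]
    have h4 : ‖a - (inner ℝ u a : ℝ) • u‖ ≤ ‖a‖ := by
      refine le_of_sq_le_sq ?_ (norm_nonneg _)
      rw [@norm_sub_sq_real, norm_smul, inner_smul_right, hu, mul_one, real_inner_comm u a,
        Real.norm_eq_abs, sq_abs]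
      nlinarith [sq_nonneg (inner ℝ u a : ℝ)]
    rw [inv_mul_eq_div, div_le_div_iff₀ hn hc]
    have h5 : ‖a - (inner ℝ u a : ℝ) • u‖ ≤ 2 * L := h4.trans ha
    have hL : (0 : ℝ) ≤ L := L.2
    nlinarith
  have k1 := key _ h3.1
  have k2 := key _ h3.2
  have e : 2 * (L : ℝ) ^ 2 / c ^ 2 = (L / c) ^ 2 + (L / c) ^ 2 := by
    rw [div_pow]
    ring
  rw [e]
  exact add_le_add (pow_le_pow_left₀ (norm_nonneg _) k1 2) (pow_le_pow_left₀ (norm_nonneg _) k2 2)

/-- the maximum of finitely many integrable functions -/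
theorem int_sup' {n : ℕ} {f : Fin (n + 1) → E3 → ℝ} (hf : ∀ i, Integrable (fun p => f i p) PP) :
    Integrable (fun p => Finset.univ.sup' Finset.univ_nonempty (fun i : Fin (n + 1) => f i p)) PP := by
  have h1 := Finset.sup'_induction (s := (Finset.univ : Finset (Fin (n + 1))))
    Finset.univ_nonempty (fun i p => f i p) (p := fun f : E3 → ℝ => Integrable f PP)
    (fun f hf g hg => hf.sup hg) (fun i _ => hf i)
  refine h1.congr (Eventually.of_forall fun p => ?_)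
  simp only [Finset.sup'_apply]

theorem ext_sel [CompactSpace M] (C : Calc M γ) (hγ : Bd γ) (hR : RegAE C) (hP : RegPl C)
    {F : Fin 3 → M → ℝ} (hF : Sph γ F) {LF : ℝ≥0} (hLF : ∀ k, LipschitzWith LF (F k))
    {χ : ℝ → ℝ} {c : ℝ} (hχ : CutF χ c) (L : ℝ≥0) {ε : ℝ} (hε : 0 < ε) :
    ∃ (n : ℕ) (th : Fin (n + 1) → M → ℝ), (∀ i, Adm γ (th i)) ∧
      ∀ T : Fin 3 → M → ℝ, (∀ k, LipschitzWith L (T k)) → (∀ k, OddB γ (T k)) →
        (∀ i, Integrable (fun p => FluxC C χ (th i) T p) PP) ∧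
        Real.pi ^ 2 - ε - KE c L LF * C.μ.real {o | ‖at' C T o‖ < 2 * c} ≤
          ∫ p, Finset.univ.sup' Finset.univ_nonempty
            (fun i : Fin (n + 1) => FluxC C χ (th i) T p) ∂PP := by
  have := C.fin
  have hc := hχ.pos
  have hpi := Real.pi_pos
  set E : ℝ := (KX c L LF + 2 * (L : ℝ) ^ 2 / c ^ 2) * C.μ.real univ with hE
  have hK0 := KX_nonneg c L LF
  have hE0 : 0 ≤ E := by positivity
  obtain ⟨n, th, hth, hsel⟩ := select_en C hγ hR hE0 hε
  refine ⟨n, th, hth, fun T hT hTo => ?_⟩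
  obtain ⟨v, hv, hvT, hv1, hv2⟩ := ext_v hP hF hLF hc hT hTo
  have lT : ∀ k, Lip (T k) := fun k => ⟨L, hT k⟩
  obtain ⟨t1, t2, t0⟩ := meas_dx C lT
  obtain ⟨v1, v2, v0⟩ := meas_dx C hv.lip
  obtain ⟨⟨B1, b1⟩, ⟨B2, b2⟩⟩ := bdd_dx C hv.lip
  obtain ⟨D, hDi, hDb, hD⟩ := cmp_v C hχ hT hv hvT
  set S : Set Om := {o | ‖at' C T o‖ < 2 * c} with hS
  have hSm : NullMeasurableSet S C.μ := t0.norm.nullMeasurable measurableSet_Iio
  refine ⟨fun i => (hD (th i) (hth i).lip).1, ?_⟩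
  -- the energy of v
  have hen : ∫⁻ o, ENNReal.ofReal (‖dx C v o‖ ^ 2 + ‖dy C v o‖ ^ 2) ∂C.μ ≤ ENNReal.ofReal E := by
    have h0 : ∫⁻ o, ENNReal.ofReal (‖dx C v o‖ ^ 2 + ‖dy C v o‖ ^ 2) ∂C.μ ≤
        ∫⁻ o in S, ENNReal.ofReal (‖dx C v o‖ ^ 2 + ‖dy C v o‖ ^ 2) ∂C.μ +
        ∫⁻ o in Sᶜ, ENNReal.ofReal (‖dx C v o‖ ^ 2 + ‖dy C v o‖ ^ 2) ∂C.μ := by
      have := lintegral_union_le (μ := C.μ) (fun o => ENNReal.ofReal (‖dx C v o‖ ^ 2 + ‖dy C v o‖ ^ 2)) S Sᶜ
      rwa [union_compl_self, Measure.restrict_univ] at this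
    have h1 : ∫⁻ o in Sᶜ, ENNReal.ofReal (‖dx C v o‖ ^ 2 + ‖dy C v o‖ ^ 2) ∂C.μ ≤
        ENNReal.ofReal (2 * (L : ℝ) ^ 2 / c ^ 2) * C.μ univ := by
      have h2 : ∀ᵐ o ∂(C.μ.restrict Sᶜ), ENNReal.ofReal (‖dx C v o‖ ^ 2 + ‖dy C v o‖ ^ 2) ≤
          ENNReal.ofReal (2 * (L : ℝ) ^ 2 / c ^ 2) := by
        filter_upwards [ae_restrict_of_ae (EXTE_out C hc hT hv hvT), ae_restrict_mem₀ hSm.compl]
          with o ho1 ho2
        exact ENNReal.ofReal_le_ofReal (ho1 (not_lt.1 ho2))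
      refine (lintegral_mono_ae h2).trans ?_
      rw [lintegral_const]
      exact mul_le_mul' le_rfl (by rw [Measure.restrict_apply_univ]; exact measure_mono (subset_univ _))
    refine h0.trans ((add_le_add (hv1.trans (mul_le_mul' le_rfl (measure_mono (subset_univ _)))) h1).trans
      (le_of_eq ?_))
    rw [← add_mul, ← ENNReal.ofReal_add hK0 (by positivity), hE, ENNReal.ofReal_mul (by positivity),
      measureReal_def, ENNReal.ofReal_toReal (measure_ne_top _ _)]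
  -- the comparison
  have hmain := hsel v hv hen
  have hD' : ∀ᵐ p ∂PP, ∀ i, |FluxC C χ (th i) T p - Flux C (th i) v p| ≤ D p :=
    ae_all_iff.2 fun i => (hD (th i) (hth i).lip).2
  have iF : ∀ i, Integrable (fun p => Flux C (th i) v p) PP := fun i =>
    (flux_meas C hv ⟨1, (hth i).lip⟩).2.2
  have iC : ∀ i, Integrable (fun p => FluxC C χ (th i) T p) PP := fun i => (hD (th i) (hth i).lip).1
  have iS1 : Integrable (fun p => Finset.univ.sup' Finset.univ_nonempty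
      (fun i : Fin (n + 1) => Flux C (th i) v p)) PP := int_sup' iF
  have iS2 : Integrable (fun p => Finset.univ.sup' Finset.univ_nonempty
      (fun i : Fin (n + 1) => FluxC C χ (th i) T p)) PP := int_sup' iC
  have h3 : ∫ p, Finset.univ.sup' Finset.univ_nonempty (fun i : Fin (n + 1) => Flux C (th i) v p) ∂PP ≤
      ∫ p, (Finset.univ.sup' Finset.univ_nonempty (fun i : Fin (n + 1) => FluxC C χ (th i) T p) + D p) ∂PP := by
    refine integral_mono_ae iS1 (iS2.add hDi) ?_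
    filter_upwards [hD'] with p hp
    refine Finset.sup'_le _ _ fun i _ => ?_
    have h4 := (abs_le.1 (hp i)).1
    have h5 : FluxC C χ (th i) T p ≤ Finset.univ.sup' Finset.univ_nonempty
        (fun i : Fin (n + 1) => FluxC C χ (th i) T p) :=
      Finset.le_sup' (fun i : Fin (n + 1) => FluxC C χ (th i) T p) (Finset.mem_univ i)
    linarith
  rw [integral_add iS2 hDi] at h3
  -- the error
  have h6 : ∫ o in S, (‖dx C v o‖ + ‖dy C v o‖) ∂C.μ ≤ (1 + KX c L LF / 2) * C.μ.real S := by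
    have i1 : Integrable (fun o => ‖dx C v o‖ + ‖dy C v o‖) C.μ := by
      refine Integrable.of_bound (v1.norm.add v2.norm).aestronglyMeasurable (B1 + B2) ?_
      filter_upwards [b1, b2] with o h1 h2
      rw [Real.norm_eq_abs, abs_of_nonneg (by positivity)]
      linarith
    have i2 : Integrable (fun o => ‖dx C v o‖ ^ 2 + ‖dy C v o‖ ^ 2) C.μ := by
      refine Integrable.of_bound ((v1.norm.pow_const 2).add (v2.norm.pow_const 2)).aestronglyMeasurable
        (B1 ^ 2 + B2 ^ 2) ?_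
      filter_upwards [b1, b2] with o h1 h2
      rw [Real.norm_eq_abs, abs_of_nonneg (by positivity)]
      exact add_le_add (pow_le_pow_left₀ (norm_nonneg _) h1 2) (pow_le_pow_left₀ (norm_nonneg _) h2 2)
    have h7 : ∫ o in S, (‖dx C v o‖ + ‖dy C v o‖) ∂C.μ ≤
        ∫ o in S, (1 + (‖dx C v o‖ ^ 2 + ‖dy C v o‖ ^ 2) / 2) ∂C.μ := by
      refine integral_mono i1.integrableOn ((integrable_const _).add (i2.div_const 2).integrableOn) ?_
      intro o
      change ‖dx C v o‖ + ‖dy C v o‖ ≤ 1 + (‖dx C v o‖ ^ 2 + ‖dy C v o‖ ^ 2) / 2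
      nlinarith [sq_nonneg (‖dx C v o‖ - 1), sq_nonneg (‖dy C v o‖ - 1)]
    rw [integral_add (integrable_const _) (i2.div_const 2).integrableOn, integral_div, integral_const,
      smul_eq_mul, measureReal_def, Measure.restrict_apply_univ, ← measureReal_def] at h7
    linarith
  have h8 : ∫ p, D p ∂PP ≤ KE c L LF * C.μ.real S := by
    refine hDb.trans ?_
    unfold KE
    rw [mul_assoc]
    refine mul_le_mul_of_nonneg_left ?_ (by positivity)
    rw [add_mul]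
    linarith
  linarith

end Pool.Agent.FPX
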