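import Mathlib
import Pool.Agent.FPX.UMP1
import Pool.Agent.FPX.F54Defs
import Pool.Agent.FPX.CME

/-
F54A (helper76): calculus of the equation of helper54's universal map: derivative in the point of the
disc, joint continuity.
-/

open MeasureTheory Set Filter Topology

noncomputable section

namespace Pool.Agent.FPX.F54

open Real Pool.Agent.FPX.UMP

theorem pr_sq_le (x y t : ℝ) : pr x y t ^ 2 ≤ x ^ 2 + y ^ 2 := by
  unfold pr
  nlinarith [sq_nonneg (x * sin t - y * cos t), sin_sq_add_cos_sq t]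

theorem one_sub_pr {x y r : ℝ} (h : x ^ 2 + y ^ 2 ≤ r ^ 2) (t : ℝ) : 1 - r ^ 2 ≤ 1 - pr x y t ^ 2 := by
  have := pr_sq_le x y t
  linarith

theorem pr_abs_lt {x y : ℝ} (h : x ^ 2 + y ^ 2 < 1) (t : ℝ) : |pr x y t| < 1 := by
  have := pr_sq_le x y t
  exact (sq_lt_one_iff_abs_lt_one _).1 (by linarith)

theorem pr_cont (x y : ℝ) : Continuous (pr x y) := by
  unfold pr
  fun_prop

theorem hasDerivAt_kk {p : ℝ} (hp : |p| < 1) (a : ℝ) : HasDerivAt (fun p => kk p a) (-kp p a) p := by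
  have hp2 : p ^ 2 < 1 := (sq_lt_one_iff_abs_lt_one _).2 hp
  have hw : 0 < 1 - p ^ 2 := by linarith
  have hs : 0 < √(1 - p ^ 2) := sqrt_pos.2 hw
  have h1 := Real.hasDerivAt_arcsin (x := p) (by
    have := (abs_lt.1 hp).1
    linarith) (by
    have := (abs_lt.1 hp).2
    linarith)
  have h2 : HasDerivAt (fun p => √(1 - p ^ 2)) (-p / √(1 - p ^ 2)) p := by
    have h3 : HasDerivAt (fun p : ℝ => 1 - p ^ 2) (-(2 * p)) p := by
      simpa using (hasDerivAt_pow 2 p).const_sub 1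
    refine (h3.sqrt hw.ne').congr_deriv ?_
    field_simp
  have h4 := (h1.const_sub a).div (h2.pow 3) (pow_ne_zero 3 hs.ne')
  refine h4.congr_deriv ?_
  simp only [Pi.pow_apply]
  unfold kp
  field_simp
  ring

theorem kk_contOn : ContinuousOn (fun q : ℝ × ℝ => kk q.1 q.2) {q | |q.1| < 1} := by
  intro q hq
  have hp2 : q.1 ^ 2 < 1 := (sq_lt_one_iff_abs_lt_one _).2 hq
  have hs : 0 < √(1 - q.1 ^ 2) := sqrt_pos.2 (by linarith)
  refine ContinuousAt.continuousWithinAt ?_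
  unfold kk
  refine ContinuousAt.div ?_ ?_ (pow_ne_zero 3 hs.ne')
  · exact continuousAt_snd.sub (continuous_arcsin.continuousAt.comp continuousAt_fst)
  · fun_prop

theorem kp_contOn : ContinuousOn (fun q : ℝ × ℝ => kp q.1 q.2) {q | |q.1| < 1} := by
  intro q hq
  have hp2 : q.1 ^ 2 < 1 := (sq_lt_one_iff_abs_lt_one _).2 hq
  have hs : 0 < √(1 - q.1 ^ 2) := sqrt_pos.2 (by linarith)
  have hw : ContinuousAt (fun q : ℝ × ℝ => √(1 - q.1 ^ 2)) q := by fun_prop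
  have ha : ContinuousAt (fun q : ℝ × ℝ => q.2 - arcsin q.1) q :=
    continuousAt_snd.sub (continuous_arcsin.continuousAt.comp continuousAt_fst)
  refine ContinuousAt.continuousWithinAt ?_
  unfold kp
  refine ContinuousAt.div ?_ (hw.pow 4) (pow_ne_zero 4 hs.ne')
  exact continuousAt_const.sub (((continuousAt_const.mul ha).mul continuousAt_fst).div hw hs.ne')

/-- a function of `(p, f)` integrated against a weight -/
def IK (K : ℝ → ℝ → ℝ) (w : ℝ → ℝ) (x y : ℝ) (f : ℝ → ℝ) : ℝ :=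
  ∫ t in (0 : ℝ)..(2 * π), w t * K (pr x y t) (f t)

theorem IK_cont_integrand {K : ℝ → ℝ → ℝ} (hK : ContinuousOn (fun q : ℝ × ℝ => K q.1 q.2) {q | |q.1| < 1})
    {w : ℝ → ℝ} (hw : Continuous w) {x y : ℝ} (hxy : x ^ 2 + y ^ 2 < 1) {f : ℝ → ℝ} (hf : Continuous f) :
    Continuous fun t => w t * K (pr x y t) (f t) := by
  refine hw.mul ?_
  exact hK.comp_continuous ((pr_cont x y).prodMk hf) (fun t => pr_abs_lt hxy t)

/-- joint continuity -/
theorem IK_cont {P : Type*} [TopologicalSpace P] {Φ : P → ℝ → ℝ} {m : ℝ}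
    {K : ℝ → ℝ → ℝ} (hK : ContinuousOn (fun q : ℝ × ℝ => K q.1 q.2) {q | |q.1| < 1})
    {w : ℝ → ℝ} (hw : Continuous w) (hw1 : ∀ t, |w t| ≤ 1)
    (hc : ∀ p, Continuous (Φ p)) (hm : ∀ p t, |Φ p t| ≤ m)
    (hu : ∀ p₀, ∀ ε > 0, ∀ᶠ p in 𝓝 p₀, ∀ t, |Φ p t - Φ p₀ t| ≤ ε)
    {p₀ : P} {z₀ : ℝ × ℝ} (hz : z₀.1 ^ 2 + z₀.2 ^ 2 < 1) :
    ContinuousAt (fun q : P × (ℝ × ℝ) => IK K w q.2.1 q.2.2 (Φ q.1)) (p₀, z₀) := by
  -- a compact set of values
  obtain ⟨r, hr0, hr1, hr⟩ : ∃ r : ℝ, 0 < r ∧ r < 1 ∧ z₀.1 ^ 2 + z₀.2 ^ 2 < r ^ 2 := by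
    refine ⟨√((z₀.1 ^ 2 + z₀.2 ^ 2 + 1) / 2), ?_, ?_, ?_⟩
    · exact sqrt_pos.2 (by positivity)
    · rw [sqrt_lt' one_pos]
      linarith
    · rw [sq_sqrt (by positivity)]
      linarith
  have hcp : IsCompact (Icc (-r) r ×ˢ Icc (-m) m) := isCompact_Icc.prod isCompact_Icc
  have hsub : (Icc (-r) r ×ˢ Icc (-m) m : Set (ℝ × ℝ)) ⊆ {q | |q.1| < 1} := by
    rintro ⟨a, b⟩ ⟨ha, -⟩
    exact lt_of_le_of_lt (abs_le.2 ha) hr1
  have huc := hcp.uniformContinuousOn_of_continuous (hK.mono hsub)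
  rw [Metric.continuousAt_iff']
  intro ε hε
  rw [Metric.uniformContinuousOn_iff] at huc
  obtain ⟨δ, hδ, hδ'⟩ := huc (ε / (2 * π + 1)) (by positivity)
  have e1 : ∀ᶠ q : P × (ℝ × ℝ) in 𝓝 (p₀, z₀), q.2.1 ^ 2 + q.2.2 ^ 2 < r ^ 2 := by
    have hcont : ContinuousAt (fun q : P × (ℝ × ℝ) => q.2.1 ^ 2 + q.2.2 ^ 2) (p₀, z₀) := by fun_prop
    exact hcont.eventually (gt_mem_nhds hr)
  have e2 : ∀ᶠ q : P × (ℝ × ℝ) in 𝓝 (p₀, z₀), |q.2.1 - z₀.1| + |q.2.2 - z₀.2| < δ := by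
    have hcont : ContinuousAt (fun q : P × (ℝ × ℝ) => |q.2.1 - z₀.1| + |q.2.2 - z₀.2|) (p₀, z₀) := by
      fun_prop
    refine hcont.eventually (gt_mem_nhds ?_)
    simpa using hδ
  have e3 : ∀ᶠ q : P × (ℝ × ℝ) in 𝓝 (p₀, z₀), ∀ t, |Φ q.1 t - Φ p₀ t| ≤ δ / 2 :=
    (continuous_fst.tendsto (p₀, z₀)).eventually (hu p₀ (δ / 2) (by positivity))
  filter_upwards [e1, e2, e3] with q h1 h2 h3
  have hq1 : q.2.1 ^ 2 + q.2.2 ^ 2 < 1 := h1.trans (by nlinarith)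
  have key : ∀ t, |w t * K (pr q.2.1 q.2.2 t) (Φ q.1 t) - w t * K (pr z₀.1 z₀.2 t) (Φ p₀ t)|
      ≤ ε / (2 * π + 1) := by
    intro t
    rw [← mul_sub, abs_mul]
    have a1 : |pr q.2.1 q.2.2 t - pr z₀.1 z₀.2 t| < δ := by
      have e : pr q.2.1 q.2.2 t - pr z₀.1 z₀.2 t = (q.2.1 - z₀.1) * cos t + (q.2.2 - z₀.2) * sin t := by
        unfold pr
        ring
      rw [e]
      refine lt_of_le_of_lt (abs_add_le _ _) (lt_of_le_of_lt ?_ h2)
      rw [abs_mul, abs_mul]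
      have b1 := abs_cos_le_one t
      have b2 := abs_sin_le_one t
      nlinarith [abs_nonneg (q.2.1 - z₀.1), abs_nonneg (q.2.2 - z₀.2)]
    have m1 : (pr q.2.1 q.2.2 t, Φ q.1 t) ∈ (Icc (-r) r ×ˢ Icc (-m) m : Set (ℝ × ℝ)) := by
      refine ⟨abs_le.1 (abs_le_of_sq_le_sq ?_ hr0.le), abs_le.1 (hm _ _)⟩
      exact (pr_sq_le _ _ _).trans h1.le
    have m2 : (pr z₀.1 z₀.2 t, Φ p₀ t) ∈ (Icc (-r) r ×ˢ Icc (-m) m : Set (ℝ × ℝ)) := by
      refine ⟨abs_le.1 (abs_le_of_sq_le_sq ?_ hr0.le), abs_le.1 (hm _ _)⟩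
      exact (pr_sq_le _ _ _).trans hr.le
    have h4 := hδ' _ m1 _ m2 (by
      rw [Prod.dist_eq]
      refine max_lt ?_ ?_
      · rw [Real.dist_eq]
        exact a1
      · rw [Real.dist_eq]
        exact lt_of_le_of_lt (h3 t) (by linarith))
    rw [Real.dist_eq] at h4
    calc |w t| * _ ≤ 1 * (ε / (2 * π + 1)) :=
          mul_le_mul (hw1 t) h4.le (abs_nonneg _) zero_le_one
      _ = _ := one_mul _
  rw [Real.dist_eq]
  unfold IK
  rw [← intervalIntegral.integral_sub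
    ((IK_cont_integrand hK hw hq1 (hc _)).intervalIntegrable _ _)
    ((IK_cont_integrand hK hw hz (hc _)).intervalIntegrable _ _)]
  have h5 := intervalIntegral.norm_integral_le_of_norm_le_const (a := 0) (b := 2 * π)
    (C := ε / (2 * π + 1)) (f := fun t => w t * K (pr q.2.1 q.2.2 t) (Φ q.1 t)
      - w t * K (pr z₀.1 z₀.2 t) (Φ p₀ t)) (fun t _ => key t)
  rw [Real.norm_eq_abs, sub_zero, abs_of_pos two_pi_pos] at h5
  refine lt_of_le_of_lt h5 ?_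
  rw [div_mul_eq_mul_div, div_lt_iff₀ (by positivity)]
  nlinarith [pi_pos]

/-- the derivative in the point of the disc -/
theorem IK_fderiv {K K' : ℝ → ℝ → ℝ} (hK : ContinuousOn (fun q : ℝ × ℝ => K q.1 q.2) {q | |q.1| < 1})
    (hK' : ContinuousOn (fun q : ℝ × ℝ => K' q.1 q.2) {q | |q.1| < 1})
    (hd : ∀ p a, |p| < 1 → HasDerivAt (fun p => K p a) (K' p a) p)
    {w : ℝ → ℝ} (hw : Continuous w) {f : ℝ → ℝ} (hf : Continuous f) {m : ℝ} (hm : ∀ t, |f t| ≤ m)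
    (hw1 : ∀ t, |w t| ≤ 1) {z₀ : ℝ × ℝ} (hz : z₀.1 ^ 2 + z₀.2 ^ 2 < 1) :
    HasFDerivAt (fun z : ℝ × ℝ => IK K w z.1 z.2 f)
      ((IK K' (fun t => w t * cos t) z₀.1 z₀.2 f) • ContinuousLinearMap.fst ℝ ℝ ℝ
        + (IK K' (fun t => w t * sin t) z₀.1 z₀.2 f) • ContinuousLinearMap.snd ℝ ℝ ℝ) z₀ := by
  obtain ⟨r, hr0, hr1, hr⟩ : ∃ r : ℝ, 0 < r ∧ r < 1 ∧ z₀.1 ^ 2 + z₀.2 ^ 2 < r ^ 2 := by
    refine ⟨√((z₀.1 ^ 2 + z₀.2 ^ 2 + 1) / 2), ?_, ?_, ?_⟩
    · exact sqrt_pos.2 (by positivity)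
    · rw [sqrt_lt' one_pos]
      linarith
    · rw [sq_sqrt (by positivity)]
      linarith
  have hcp : IsCompact (Icc (-r) r ×ˢ Icc (-m) m) := isCompact_Icc.prod isCompact_Icc
  have hsub : (Icc (-r) r ×ˢ Icc (-m) m : Set (ℝ × ℝ)) ⊆ {q | |q.1| < 1} := by
    rintro ⟨a, b⟩ ⟨ha, -⟩
    exact lt_of_le_of_lt (abs_le.2 ha) hr1
  obtain ⟨B, hB⟩ := hcp.exists_bound_of_continuousOn (hK'.mono hsub)
  set s : Set (ℝ × ℝ) := {z | z.1 ^ 2 + z.2 ^ 2 < r ^ 2} with hs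
  have hso : IsOpen s := isOpen_lt (by fun_prop) continuous_const
  have hsn : s ∈ 𝓝 z₀ := hso.mem_nhds hr
  have hs1 : ∀ z ∈ s, z.1 ^ 2 + z.2 ^ 2 < 1 := fun z hz' => lt_trans hz' (by nlinarith)
  set F' : ℝ × ℝ → ℝ → (ℝ × ℝ →L[ℝ] ℝ) := fun z t =>
    (w t * cos t * K' (pr z.1 z.2 t) (f t)) • ContinuousLinearMap.fst ℝ ℝ ℝ
      + (w t * sin t * K' (pr z.1 z.2 t) (f t)) • ContinuousLinearMap.snd ℝ ℝ ℝ with hF'
  have cF' : ∀ z ∈ s, Continuous (F' z) := by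
    intro z hz'
    have c1 := IK_cont_integrand hK' (hw.mul continuous_cos) (hs1 z hz') hf
    have c2 := IK_cont_integrand hK' (hw.mul continuous_sin) (hs1 z hz') hf
    exact (c1.smul continuous_const).add (c2.smul continuous_const)
  have hB0 : 0 ≤ B := (norm_nonneg _).trans (hB (0, 0) ⟨⟨by simp only; linarith, hr0.le⟩,
    ⟨by
      have := (abs_nonneg _).trans (hm 0)
      simp only
      linarith, (abs_nonneg _).trans (hm 0)⟩⟩)
  have key := intervalIntegral.hasFDerivAt_integral_of_dominated_of_fderiv_le (𝕜 := ℝ) (μ := volume)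
    (a := 0) (b := 2 * π) (F := fun (z : ℝ × ℝ) t => w t * K (pr z.1 z.2 t) (f t)) (F' := F')
    (x₀ := z₀) (s := s) (bound := fun _ => 2 * B) hsn ?_ ?_ ?_ ?_ ?_ ?_
  · unfold IK
    refine key.congr_fderiv ?_
    have c1 : Continuous fun t => w t * cos t * K' (pr z₀.1 z₀.2 t) (f t) :=
      IK_cont_integrand hK' (hw.mul continuous_cos) hz hf
    have c2 : Continuous fun t => w t * sin t * K' (pr z₀.1 z₀.2 t) (f t) :=
      IK_cont_integrand hK' (hw.mul continuous_sin) hz hf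
    have i1 : IntervalIntegrable (fun t => (w t * cos t * K' (pr z₀.1 z₀.2 t) (f t)) •
        ContinuousLinearMap.fst ℝ ℝ ℝ) volume 0 (2 * π) :=
      (c1.smul continuous_const).intervalIntegrable _ _
    have i2 : IntervalIntegrable (fun t => (w t * sin t * K' (pr z₀.1 z₀.2 t) (f t)) •
        ContinuousLinearMap.snd ℝ ℝ ℝ) volume 0 (2 * π) :=
      (c2.smul continuous_const).intervalIntegrable _ _
    rw [hF']
    simp only
    rw [intervalIntegral.integral_add i1 i2]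
    rw [intervalIntegral.integral_smul_const, intervalIntegral.integral_smul_const]
  · filter_upwards [hsn] with z hz'
    exact (IK_cont_integrand hK hw (hs1 z hz') hf).aestronglyMeasurable
  · exact (IK_cont_integrand hK hw hz hf).intervalIntegrable _ _
  · exact (cF' z₀ hr).aestronglyMeasurable
  · refine Eventually.of_forall fun t _ z hz' => ?_
    have hmem : (pr z.1 z.2 t, f t) ∈ (Icc (-r) r ×ˢ Icc (-m) m : Set (ℝ × ℝ)) :=
      ⟨abs_le.1 (abs_le_of_sq_le_sq ((pr_sq_le _ _ _).trans (le_of_lt hz')) hr0.le),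
        abs_le.1 (hm _)⟩
    have h1 := hB _ hmem
    simp only [Real.norm_eq_abs] at h1
    rw [hF']
    simp only
    refine (norm_add_le _ _).trans ?_
    rw [norm_smul, norm_smul, Real.norm_eq_abs, Real.norm_eq_abs, abs_mul, abs_mul, abs_mul, abs_mul]
    have n1 : ‖ContinuousLinearMap.fst ℝ ℝ ℝ‖ ≤ 1 := ContinuousLinearMap.norm_fst_le _ _ _
    have n2 : ‖ContinuousLinearMap.snd ℝ ℝ ℝ‖ ≤ 1 := ContinuousLinearMap.norm_snd_le _ _ _
    have h3 : |w t| * |cos t| * |K' (pr z.1 z.2 t) (f t)| * ‖ContinuousLinearMap.fst ℝ ℝ ℝ‖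
        ≤ 1 * 1 * B * 1 := by
      have := hw1 t
      have := abs_cos_le_one t
      gcongr
    have h4 : |w t| * |sin t| * |K' (pr z.1 z.2 t) (f t)| * ‖ContinuousLinearMap.snd ℝ ℝ ℝ‖
        ≤ 1 * 1 * B * 1 := by
      have := hw1 t
      have := abs_sin_le_one t
      gcongr
    linarith
  · exact intervalIntegrable_const
  · refine Eventually.of_forall fun t _ z hz' => ?_
    have h1 := hd (pr z.1 z.2 t) (f t) (pr_abs_lt (hs1 z hz') t)
    have h2 : HasFDerivAt (fun z : ℝ × ℝ => pr z.1 z.2 t)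
        (cos t • ContinuousLinearMap.fst ℝ ℝ ℝ + sin t • ContinuousLinearMap.snd ℝ ℝ ℝ) z := by
      unfold pr
      have a1 : HasFDerivAt (fun z : ℝ × ℝ => z.1 * cos t) (cos t • ContinuousLinearMap.fst ℝ ℝ ℝ) z :=
        hasFDerivAt_fst.mul_const (cos t)
      have a2 : HasFDerivAt (fun z : ℝ × ℝ => z.2 * sin t) (sin t • ContinuousLinearMap.snd ℝ ℝ ℝ) z :=
        hasFDerivAt_snd.mul_const (sin t)
      exact a1.add a2
    have h3 := h1.comp_hasFDerivAt z h2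
    have h4 := h3.const_mul (w t)
    refine h4.congr_fderiv ?_
    rw [hF']
    ext <;> simp <;> ring

end Pool.Agent.FPX.F54
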