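import Mathlib
import Pool.Agent.FPX.F54A

/-
F54E (helper76): existence and uniqueness of the zero of the equation of helper54's universal map, by
the continuity method, from the positivity of `H` at the zeros.
-/

open MeasureTheory Set Filter Topology

noncomputable section

namespace Pool.Agent.FPX.F54

open Real Pool.Agent.FPX.UMP

/-- the open disc -/
def DU : Set (ℝ × ℝ) := {z | z.1 ^ 2 + z.2 ^ 2 < 1}

/-- the closed disc of radius `r` -/
def DK (r : ℝ) : Set (ℝ × ℝ) := {z | z.1 ^ 2 + z.2 ^ 2 ≤ r ^ 2}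

theorem isOpen_DU : IsOpen DU := isOpen_lt (by fun_prop) continuous_const

theorem isCompact_DK (r : ℝ) : IsCompact (DK r) := by
  refine (isCompact_Icc (a := ((-|r|, -|r|) : ℝ × ℝ)) (b := (|r|, |r|))).of_isClosed_subset
    (isClosed_le (by fun_prop) continuous_const) ?_
  rintro ⟨a, b⟩ hab
  have h : a ^ 2 + b ^ 2 ≤ r ^ 2 := hab
  have ha : |a| ≤ |r| := sq_le_sq.1 (by nlinarith [sq_nonneg b])
  have hb : |b| ≤ |r| := sq_le_sq.1 (by nlinarith [sq_nonneg a])
  exact ⟨⟨(abs_le.1 ha).1, (abs_le.1 hb).1⟩, ⟨(abs_le.1 ha).2, (abs_le.1 hb).2⟩⟩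

theorem G1_eq (x y : ℝ) (f : ℝ → ℝ) : G1 x y f = IK kk cos x y f := rfl

theorem G2_eq (x y : ℝ) (f : ℝ → ℝ) : G2 x y f = IK kk sin x y f := rfl

/-- the radial component of the equation -/
theorem radial {x y : ℝ} (h : x ^ 2 + y ^ 2 < 1) {f : ℝ → ℝ} (hf : Continuous f) :
    x * G1 x y f + y * G2 x y f = ∫ t in (0 : ℝ)..(2 * π), pr x y t * kk (pr x y t) (f t) := by
  rw [G1_eq, G2_eq]
  unfold IK
  have c1 := (IK_cont_integrand kk_contOn continuous_cos h hf).intervalIntegrable
    (μ := volume) 0 (2 * π)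
  have c2 := (IK_cont_integrand kk_contOn continuous_sin h hf).intervalIntegrable
    (μ := volume) 0 (2 * π)
  rw [← intervalIntegral.integral_const_mul, ← intervalIntegral.integral_const_mul,
    ← intervalIntegral.integral_add (c1.const_mul _) (c2.const_mul _)]
  refine intervalIntegral.integral_congr fun t _ => ?_
  simp only [pr]
  ring

/-- the bound of the radial integrand -/
def rb (m p : ℝ) : ℝ := |p| * (m - arcsin |p|) / √(1 - p ^ 2) ^ 3

theorem pk_le {m p a : ℝ} (hp : |p| < 1) (ha : |a| ≤ m) : p * kk p a ≤ rb m p := by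
  have hp2 : p ^ 2 < 1 := (sq_lt_one_iff_abs_lt_one _).2 hp
  have hs : 0 < √(1 - p ^ 2) := sqrt_pos.2 (by linarith)
  unfold kk rb
  rw [mul_div_assoc']
  refine div_le_div_of_nonneg_right ?_ (by positivity)
  have h1 := abs_le.1 ha
  rcases le_total 0 p with h | h
  · rw [abs_of_nonneg h]
    exact mul_le_mul_of_nonneg_left (by linarith) h
  · rw [abs_of_nonpos h, arcsin_neg]
    nlinarith

/-- close to the boundary circle the equation points inward -/
theorem inward {m : ℝ} (hm0 : 0 ≤ m) (hm : m < π / 2) : ∃ r : ℝ, 0 < r ∧ r < 1 ∧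
    ∀ f : ℝ → ℝ, Continuous f → (∀ t, |f t| ≤ m) → ∀ x y : ℝ, x ^ 2 + y ^ 2 < 1 →
      r ^ 2 < x ^ 2 + y ^ 2 → x * G1 x y f + y * G2 x y f < 0 := by
  set m1 := (m + π / 2) / 2 with hm1
  have hmm : m < m1 := by rw [hm1]; linarith
  have hm1p : m1 < π / 2 := by rw [hm1]; linarith
  have hm10 : 0 < m1 := by linarith
  have hcm : 0 < cos m := cos_pos_of_mem_Ioo ⟨by linarith, hm⟩
  have hs0 : 0 < sin m1 := sin_pos_of_pos_of_lt_pi hm10 (by linarith [pi_pos])
  have hs1 : sin m1 < 1 := by
    have := sin_lt_sin_of_lt_of_le_pi_div_two (by linarith) le_rfl hm1p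
    rwa [sin_pi_div_two] at this
  set C : ℝ := m / cos m ^ 3 with hC
  have hC0 : 0 ≤ C := by positivity
  set A : ℝ := sin m1 * (m1 - m) / 3 with hA
  have hA0 : 0 < A := by
    have : 0 < m1 - m := by linarith
    positivity
  -- the square of the distance to the circle
  set c2 : ℝ := min (1 / 2) (min ((1 - sin m1) / 2) (A / (2 * π * C + 1))) with hc2
  have hc20 : 0 < c2 := by
    have : 0 < 1 - sin m1 := by linarith
    positivity
  have hc21 : c2 ≤ 1 / 2 := min_le_left _ _
  have hc22 : c2 ≤ (1 - sin m1) / 2 := (min_le_right _ _).trans (min_le_left _ _)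
  have hc23 : c2 ≤ A / (2 * π * C + 1) := (min_le_right _ _).trans (min_le_right _ _)
  refine ⟨√(1 - c2), sqrt_pos.2 (by linarith), ?_, ?_⟩
  · rw [sqrt_lt' one_pos]
    linarith
  intro f hf hfm x y hxy hr
  rw [sq_sqrt (by linarith)] at hr
  -- polar coordinates
  set s : ℝ := √(x ^ 2 + y ^ 2) with hs
  have hs2 : s ^ 2 = x ^ 2 + y ^ 2 := sq_sqrt (by positivity)
  have hspos : 0 < s := sqrt_pos.2 (by linarith)
  have hslt : s < 1 := by
    rw [hs, sqrt_lt' one_pos]
    linarith
  obtain ⟨φ, hx, hy⟩ : ∃ φ : ℝ, x = s * cos φ ∧ y = s * sin φ := by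
    set z : ℂ := ⟨x, y⟩ with hz
    have hn : ‖z‖ = s := by
      rw [Complex.norm_def, Complex.normSq_apply, hs, sq, sq]
    refine ⟨z.arg, ?_, ?_⟩
    · rw [← hn, Complex.norm_mul_cos_arg]
    · rw [← hn, Complex.norm_mul_sin_arg]
  have hpr : ∀ t, pr x y t = s * cos (t - φ) := by
    intro t
    unfold pr
    rw [cos_sub, hx, hy]
    ring
  rw [radial hxy hf]
  have hle : (∫ t in (0 : ℝ)..(2 * π), pr x y t * kk (pr x y t) (f t)) ≤
      ∫ t in (0 : ℝ)..(2 * π), rb m (s * cos (t - φ)) := by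
    refine intervalIntegral.integral_mono_on two_pi_pos.le ?_ ?_ fun t _ => ?_
    · refine Continuous.intervalIntegrable ?_ _ _
      have := IK_cont_integrand kk_contOn (w := pr x y) (pr_cont x y) hxy hf
      exact this
    · refine Continuous.intervalIntegrable ?_ _ _
      unfold rb
      refine Continuous.div (by fun_prop) (by fun_prop) fun t => ?_
      have h1 : (s * cos (t - φ)) ^ 2 < 1 := by
        rw [mul_pow]
        nlinarith [cos_sq_le_one (t - φ), sq_nonneg (cos (t - φ))]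
      exact pow_ne_zero 3 (sqrt_pos.2 (by linarith)).ne'
    · rw [← hpr t]
      exact pk_le (pr_abs_lt hxy t) (hfm t)
  refine lt_of_le_of_lt hle ?_
  -- shift
  have hper : Function.Periodic (fun t => rb m (s * cos t)) (2 * π) := by
    intro t
    simp only
    rw [cos_add_two_pi]
  have e1 : ∫ t in (0 : ℝ)..(2 * π), rb m (s * cos (t - φ)) = ∫ t in (0 : ℝ)..(2 * π), rb m (s * cos t) := by
    rw [intervalIntegral.integral_comp_sub_right (fun t => rb m (s * cos t)) φ]
    have h1 := hper.intervalIntegral_add_eq (0 - φ) 0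
    rw [zero_add] at h1
    rw [← h1]
    congr 1
    ring
  rw [e1]
  have hcont : Continuous fun t => rb m (s * cos t) := by
    unfold rb
    refine Continuous.div (by fun_prop) (by fun_prop) fun t => ?_
    have h1 : (s * cos t) ^ 2 < 1 := by
      rw [mul_pow]
      nlinarith [cos_sq_le_one t, sq_nonneg (cos t)]
    exact pow_ne_zero 3 (sqrt_pos.2 (by linarith)).ne'
  set c : ℝ := √(1 - s ^ 2) with hcdef
  have hcsq : c ^ 2 = 1 - s ^ 2 := sq_sqrt (by nlinarith)
  have hc0 : 0 < c := sqrt_pos.2 (by nlinarith)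
  have hcc2 : c ^ 2 < c2 := by rw [hcsq, hs2]; linarith
  have hc1 : c < 1 := by nlinarith
  have hcpi : c ≤ 2 * π := by linarith [pi_gt_three]
  -- the bound everywhere
  have b1 : ∀ t, rb m (s * cos t) ≤ C := by
    intro t
    set p := s * cos t with hp
    have hp1 : p ^ 2 < 1 := by
      rw [hp, mul_pow]
      nlinarith [cos_sq_le_one t, sq_nonneg (cos t)]
    have hw : 0 < √(1 - p ^ 2) := sqrt_pos.2 (by linarith)
    unfold rb
    rcases le_total (arcsin |p|) m with h | h
    · -- `|p| ≤ sin m`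
      have h2 : |p| ≤ sin m := by
        have h3 := arcsin_le_iff_le_sin (x := |p|) (y := m) ⟨by linarith [abs_nonneg p],
          ((sq_lt_one_iff_abs_lt_one _).1 hp1).le⟩ ⟨by linarith, hm.le⟩
        exact h3.1 h
      have h3 : cos m ≤ √(1 - p ^ 2) := by
        refine le_sqrt_of_sq_le ?_
        have : p ^ 2 ≤ sin m ^ 2 := by
          rw [← sq_abs p]
          exact pow_le_pow_left₀ (abs_nonneg _) h2 2
        nlinarith [sin_sq_add_cos_sq m]
      rw [hC]
      have h4 : 0 ≤ arcsin |p| := arcsin_nonneg.2 (abs_nonneg _)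
      have h5 : |p| ≤ 1 := h2.trans (sin_le_one _)
      have h6 : |p| * (m - arcsin |p|) ≤ m := by nlinarith [abs_nonneg p]
      exact div_le_div₀ hm0 h6 (pow_pos hcm 3) (pow_le_pow_left₀ hcm.le h3 3)
    · refine le_trans ?_ hC0
      refine div_nonpos_of_nonpos_of_nonneg ?_ (by positivity)
      exact mul_nonpos_of_nonneg_of_nonpos (abs_nonneg _) (by linarith)
  -- the bound near the direction of the point
  have b2 : ∀ t ∈ Icc (0 : ℝ) c, rb m (s * cos t) ≤ -(A / c ^ 3) := by
    intro t ht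
    set p := s * cos t with hp
    have hp1 : p ^ 2 < 1 := by
      rw [hp, mul_pow]
      nlinarith [cos_sq_le_one t, sq_nonneg (cos t)]
    have hw : 0 < √(1 - p ^ 2) := sqrt_pos.2 (by linarith)
    have hsm1 : sin m1 ≤ p := by
      have h1 := one_sub_sq_div_two_le_cos (x := t)
      have h2 : 1 - c2 / 2 ≤ cos t := by
        have : t ^ 2 ≤ c ^ 2 := pow_le_pow_left₀ ht.1 ht.2 2
        linarith
      have h3 : 1 - c2 ≤ s := by nlinarith
      rw [hp]
      have h4 : (1 - c2) * (1 - c2 / 2) ≤ s * cos t :=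
        mul_le_mul h3 h2 (by linarith) hspos.le
      nlinarith
    have hp0 : 0 < p := by linarith
    have hm1p' : m1 ≤ arcsin |p| := by
      rw [abs_of_pos hp0]
      rw [le_arcsin_iff_sin_le ⟨by linarith, hm1p.le⟩ ⟨by linarith, by nlinarith⟩]
      exact hsm1
    have hw2 : √(1 - p ^ 2) ≤ √2 * c := by
      rw [sqrt_le_left (by positivity), hp, mul_pow, mul_pow, sq_sqrt two_pos.le]
      have h1 : sin t ^ 2 ≤ c ^ 2 := by
        have h2 : |sin t| ≤ |t| := abs_sin_le_abs
        rw [← sq_abs, ← sq_abs c]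
        refine pow_le_pow_left₀ (abs_nonneg _) (h2.trans ?_) 2
        rw [abs_of_nonneg ht.1, abs_of_pos hc0]
        exact ht.2
      nlinarith [sin_sq_add_cos_sq t]
    have hw3 : √(1 - p ^ 2) ^ 3 ≤ 3 * c ^ 3 := by
      have h1 : √(1 - p ^ 2) ^ 3 ≤ (√2 * c) ^ 3 := pow_le_pow_left₀ hw.le hw2 3
      have h2 : (√2 * c) ^ 3 = 2 * √2 * c ^ 3 := by
        rw [mul_pow]
        have : √2 ^ 3 = 2 * √2 := by
          have : √2 ^ 3 = √2 ^ 2 * √2 := by ring
          rw [this, sq_sqrt two_pos.le]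
        rw [this]
      have h3 : √2 ≤ 3 / 2 := by
        rw [sqrt_le_left (by norm_num)]
        norm_num
      have h4 : 2 * √2 * c ^ 3 ≤ 3 * c ^ 3 := by
        have : 0 < c ^ 3 := by positivity
        nlinarith
      linarith
    unfold rb
    rw [le_neg, ← neg_div, div_le_div_iff₀ (by positivity) (by positivity)]
    have h5 : sin m1 * (m1 - m) ≤ -(|p| * (m - arcsin |p|)) := by
      rw [abs_of_pos hp0] at hm1p' ⊢
      have : sin m1 * (m1 - m) ≤ p * (arcsin p - m) :=
        mul_le_mul hsm1 (by linarith) (by linarith) hp0.le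
      linarith
    calc A * √(1 - p ^ 2) ^ 3 ≤ A * (3 * c ^ 3) := mul_le_mul_of_nonneg_left hw3 hA0.le
      _ = sin m1 * (m1 - m) * c ^ 3 := by rw [hA]; ring
      _ ≤ _ := mul_le_mul_of_nonneg_right h5 (by positivity)
  rw [← intervalIntegral.integral_add_adjacent_intervals (a := 0) (b := c) (c := 2 * π)
    (hcont.intervalIntegrable _ _) (hcont.intervalIntegrable _ _)]
  have i1 : ∫ t in (0 : ℝ)..c, rb m (s * cos t) ≤ ∫ t in (0 : ℝ)..c, -(A / c ^ 3) :=
    intervalIntegral.integral_mono_on hc0.le (hcont.intervalIntegrable _ _)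
      intervalIntegrable_const b2
  have i2 : ∫ t in c..(2 * π), rb m (s * cos t) ≤ ∫ t in c..(2 * π), C :=
    intervalIntegral.integral_mono_on hcpi (hcont.intervalIntegrable _ _)
      intervalIntegrable_const fun t _ => b1 t
  rw [intervalIntegral.integral_const, smul_eq_mul] at i1 i2
  have h7 : (c - 0) * -(A / c ^ 3) = -(A / c ^ 2) := by
    field_simp
    ring
  rw [h7] at i1
  have h8 : (2 * π - c) * C ≤ 2 * π * C := by nlinarith
  have h9 : 2 * π * C < A / c ^ 2 := by
    rw [lt_div_iff₀ (by positivity)]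
    have h10 : c2 * (2 * π * C + 1) ≤ A := by
      rwa [le_div_iff₀ (by positivity)] at hc23
    have h11 : 0 ≤ 2 * π * C := by positivity
    nlinarith
  linarith

/-- the only zero for `f = 0` -/
theorem zero_unique {x y : ℝ} (h : x ^ 2 + y ^ 2 < 1) (h1 : G1 x y (fun _ => 0) = 0)
    (h2 : G2 x y (fun _ => 0) = 0) : x = 0 ∧ y = 0 := by
  have h3 := radial h (f := fun _ => 0) continuous_const
  rw [h1, h2, mul_zero, mul_zero, add_zero] at h3
  have hnn : ∀ t, 0 ≤ -(pr x y t * kk (pr x y t) 0) := by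
    intro t
    have hp := pr_abs_lt h t
    have hp2 : pr x y t ^ 2 < 1 := (sq_lt_one_iff_abs_lt_one _).2 hp
    have hs : 0 < √(1 - pr x y t ^ 2) := sqrt_pos.2 (by linarith)
    unfold kk
    rw [mul_div_assoc', ← neg_div]
    refine div_nonneg ?_ (by positivity)
    rcases le_total 0 (pr x y t) with h0 | h0
    · have := arcsin_nonneg.2 h0
      nlinarith
    · have := arcsin_nonpos.2 h0
      nlinarith
  have hcont : Continuous fun t => -(pr x y t * kk (pr x y t) 0) :=
    (IK_cont_integrand kk_contOn (w := pr x y) (pr_cont x y) h (f := fun _ => 0) continuous_const).neg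
  have key : ∀ c ∈ Icc (0 : ℝ) (2 * π), pr x y c * kk (pr x y c) 0 = 0 := by
    intro c hc
    by_contra hne
    have hpos : 0 < -(pr x y c * kk (pr x y c) 0) := lt_of_le_of_ne (hnn c) (by
      intro h0
      apply hne
      linarith)
    have h4 := intervalIntegral.integral_pos two_pi_pos hcont.continuousOn
      (fun t _ => hnn t) ⟨c, hc, hpos⟩
    rw [intervalIntegral.integral_neg, ← h3] at h4
    simp at h4
  have hz : ∀ p, |p| < 1 → p * kk p 0 = 0 → p = 0 := by
    intro p hp h0
    have hp2 : p ^ 2 < 1 := (sq_lt_one_iff_abs_lt_one _).2 hp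
    have hs : 0 < √(1 - p ^ 2) := sqrt_pos.2 (by linarith)
    rcases mul_eq_zero.1 h0 with h4 | h4
    · exact h4
    · unfold kk at h4
      rw [div_eq_zero_iff] at h4
      rcases h4 with h5 | h5
      · rw [zero_sub, neg_eq_zero, arcsin_eq_zero_iff] at h5
        exact h5
      · exact absurd h5 (pow_ne_zero 3 hs.ne')
  constructor
  · have := hz _ (pr_abs_lt h 0) (key 0 ⟨le_rfl, two_pi_pos.le⟩)
    simpa [pr] using this
  · have := hz _ (pr_abs_lt h (π / 2)) (key (π / 2) ⟨by positivity, by linarith [pi_pos]⟩)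
    simpa [pr] using this

theorem G_zero : G1 0 0 (fun _ => 0) = 0 ∧ G2 0 0 (fun _ => 0) = 0 := by
  constructor <;> simp [G1, G2, pr, kk]

end Pool.Agent.FPX.F54
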