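import Mathlib
import Pool.Agent.FPX.FOI
import Pool.Agent.FPX.FINP

/-
FAI (helper99): the far part of the modulus closing from the isoperimetric inequality alone, in the form
`FarJ` of FINP with one entry. `far_isoG`: any area `a₁` and any odd field. `farJ_iso`: the same as `FarJ`.
`farJ_half`: half of the volume, `q * (vol / 2) ≤ κ * 7817 / 10000`.
-/

open MeasureTheory Set Filter Topology
open scoped ENNReal NNReal

noncomputable section

namespace Pool.Agent.FPX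

open Pool.Agent.EWD Pool.Agent.FPM

variable {M : Type} [MetricSpace M] {γ : ℝ → M}

/-- the condition on the total charge for a smaller one -/
theorem FJ_mono {x z : ℝ} (h0 : 0 ≤ x) (h : x ≤ z) (hz : 0 < phJ z) : 0 < phJ x ∧ FJ x ≤ FJ z := by
  have key : ∀ w, w ≤ z → 0 < phJ w := fun w hw => hz.trans_le (phJ_anti hw)
  refine ⟨key x h, ?_⟩
  have hd : ∀ w ∈ Icc x z, HasDerivAt FJ (1 + gJ w) w := fun w hw => FJ_has (key w hw.2)
  have hc : ContinuousOn FJ (Icc x z) := fun w hw => (hd w hw).continuousAt.continuousWithinAt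
  have hm : MonotoneOn FJ (Icc x z) := by
    refine monotoneOn_of_deriv_nonneg (convex_Icc x z) hc
      (fun w hw => (hd w (interior_subset hw)).differentiableAt.differentiableWithinAt) fun w hw => ?_
    rw [(hd w (interior_subset hw)).deriv]
    have h1 := interior_subset hw
    have h2 := gJ_nonneg (h0.trans h1.1) (key w h1.2)
    linarith
  exact hm (left_mem_Icc.2 h) (right_mem_Icc.2 h) h

/-- **the far part by area alone**: any odd field, any charge of total at most `q a₁ ≤ κ z` -/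
theorem far_isoG [CompactSpace M] (C : Calc M γ) (hγ : Bd γ) (hR : RegAE C) {v : Fin 3 → M → ℝ}
    (hv : Sph γ v) {κ ε V : ℝ} (hκ : 0 < κ) (hε : 0 ≤ ε) (hI : IsopO C κ ε) (hV : C.μ.real univ ≤ V)
    {a₁ z : ℝ} (ha : ε < a₁) (haV : a₁ - ε < V) (hφ : 0 < phJ z)
    (hz : FJ z * (Real.log V - Real.log (a₁ - ε)) ≤ 1) {q : ℝ} (hq : 0 < q) (hqz : q * a₁ ≤ κ * z)
    {ξ : Fin 3 → M → ℝ} (hξ : ∀ i, Lip (ξ i)) (oξ : ∀ i, FPM.OddB γ (ξ i)) {R : ℝ} (hR0 : 0 ≤ R)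
    (hb : ∀ i x, |ξ i x| ≤ R) {θ : Om → ℝ} (iθ : Integrable θ C.μ) (θ0 : ∀ o, 0 ≤ θ o)
    (θ1 : ∀ o, θ o ≤ 1) (hθ : ∫ o, θ o ∂C.μ ≤ a₁) :
    q * ∫ o, umod ξ (C.pt o) ^ 2 * θ o ∂C.μ ≤ ∫ o, Gη C ξ o ∂C.μ + 3 * (q * ε * R ^ 2) := by
  have ha0 : 0 < a₁ := hε.trans_lt ha
  have hx0 : 0 ≤ q * a₁ / κ := by positivity
  have hxz : q * a₁ / κ ≤ z := by
    rw [div_le_iff₀ hκ]
    linarith
  obtain ⟨hφ', hF⟩ := FJ_mono hx0 hxz hφ
  have hlog : 0 < Real.log V - Real.log (a₁ - ε) :=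
    sub_pos.2 (Real.log_lt_log (sub_pos.2 ha) haV)
  set Rm := (Real.log V - Real.log (a₁ - ε)) / κ with hRm
  have hRm0 : 0 < Rm := div_pos hlog hκ
  have hκR : κ * Rm = Real.log V - Real.log (a₁ - ε) := by
    rw [hRm]
    field_simp
  have hO : OutA C a₁ Rm := outA_iso C hγ hR hv hκ hε hI hV ha hRm0 hκR.ge
  have hcond : κ * FJ (q * a₁ / κ) * Rm ≤ 1 := by
    have e : κ * FJ (q * a₁ / κ) * Rm = FJ (q * a₁ / κ) * (κ * Rm) := by ring
    rw [e, hκR]
    exact (mul_le_mul_of_nonneg_right hF hlog.le).trans hz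
  have h := far_genA C hI hε hκ ha0 hO hRm0 hq hφ' le_rfl hcond
    (m₂ := q * a₁) le_rfl (w₂ := fun o => q * θ o) (iθ.const_mul q)
    (ae_of_all _ fun o => mul_nonneg hq.le (θ0 o))
    (ae_of_all _ fun o => by
      have := mul_le_mul_of_nonneg_left (θ1 o) hq.le
      linarith)
    (by
      rw [integral_const_mul]
      exact mul_le_mul_of_nonneg_left hθ hq.le)
    hξ oξ hR0 hb
  have e : ∫ o, umod ξ (C.pt o) ^ 2 * (q * θ o) ∂C.μ = q * ∫ o, umod ξ (C.pt o) ^ 2 * θ o ∂C.μ := by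
    rw [← integral_const_mul]
    refine integral_congr_ae (ae_of_all _ fun o => ?_)
    change umod ξ (C.pt o) ^ 2 * (q * θ o) = q * (umod ξ (C.pt o) ^ 2 * θ o)
    ring
  rw [e] at h
  exact h

/-- the same as the far list of FINP with one entry -/
theorem farJ_iso [CompactSpace M] (C : Calc M γ) (hγ : Bd γ) (hRg : RegAE C) {v : Fin 3 → M → ℝ}
    (hv : Sph γ v) {κ ε V : ℝ} (hκ : 0 < κ) (hε : 0 ≤ ε) (hI : IsopO C κ ε) (hV : C.μ.real univ ≤ V)
    {a₁ z : ℝ} (ha : ε < a₁) (haV : a₁ - ε < V) (hφ : 0 < phJ z)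
    (hz : FJ z * (Real.log V - Real.log (a₁ - ε)) ≤ 1) {q : ℝ} (hq : 0 < q) (hqz : q * a₁ ≤ κ * z)
    {u : M → ℝ} {R an wt e : ℝ} {ν : Om → ℝ} (hR0 : 0 ≤ R) (hwt : 0 ≤ wt)
    (he : 3 * (q * ε * R ^ 2) ≤ e) :
    FarJ C (J := Unit) u R a₁ an wt e ν (fun _ => q) (fun _ => 0) (fun _ _ => True) := by
  intro s _ _ _ ξ hξ oξ hb θ iθ θ0 θ1 _ hθ
  refine ⟨(), hwt, trivial, ?_⟩
  have h := far_isoG C hγ hRg hv hκ hε hI hV ha haV hφ hz hq hqz hξ oξ hR0 hb iθ θ0 θ1 hθ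
  linarith

/-- `z = 7817 / 10000` for `log 2` -/
theorem FJ_z0 : 0 < phJ (7817 / 10000) ∧ FJ (7817 / 10000) * (693375 / 1000000) ≤ 1 := by
  constructor
  · unfold phJ
    norm_num
  · unfold FJ ppJ phJ
    norm_num

/-- **the far entry for half of the volume** -/
theorem farJ_half [CompactSpace M] (C : Calc M γ) (hγ : Bd γ) (hRg : RegAE C) {v : Fin 3 → M → ℝ}
    (hv : Sph γ v) {κ ε : ℝ} (hκ : 0 < κ) (hε : 0 ≤ ε) (hI : IsopO C κ ε)
    (hεV : 10000 * ε ≤ C.μ.real univ) (hV0 : 0 < C.μ.real univ)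
    {q : ℝ} (hq : 0 < q) (hqz : q * (C.μ.real univ / 2) ≤ κ * (7817 / 10000))
    {u : M → ℝ} {R an wt e : ℝ} {ν : Om → ℝ} (hR0 : 0 ≤ R) (hwt : 0 ≤ wt)
    (he : 3 * (q * ε * R ^ 2) ≤ e) :
    FarJ C (J := Unit) u R (C.μ.real univ / 2) an wt e ν (fun _ => q) (fun _ => 0)
      (fun _ _ => True) := by
  set V := C.μ.real univ with hV
  have h1 : 0 < V / 2 - ε := by linarith
  have h2 : Real.log V - Real.log (V / 2 - ε) ≤ 693375 / 1000000 := by
    have h3 : Real.log V - Real.log (V / 2 - ε) = Real.log 2 + Real.log (V / (2 * (V / 2 - ε))) := by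
      rw [Real.log_div hV0.ne' (by positivity), Real.log_mul (by norm_num) h1.ne']
      ring
    have h4 : Real.log (V / (2 * (V / 2 - ε))) ≤ V / (2 * (V / 2 - ε)) - 1 :=
      Real.log_le_sub_one_of_pos (by positivity)
    have h5 : V / (2 * (V / 2 - ε)) ≤ 1 + 201 / 1000000 := by
      rw [div_le_iff₀ (by positivity)]
      nlinarith
    have h6 := Real.log_two_lt_d9
    rw [h3]
    linarith
  exact farJ_iso C hγ hRg hv hκ hε hI le_rfl (by linarith) (by linarith) FJ_z0.1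
    ((mul_le_mul_of_nonneg_left h2 (by
      have := (FJ_mono (x := 0) (z := 7817 / 10000) le_rfl (by norm_num) FJ_z0.1).2
      have e0 : FJ 0 = 0 := by
        unfold FJ
        ring
      linarith)).trans FJ_z0.2) hq hqz hR0 hwt he

end Pool.Agent.FPX
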