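import Mathlib

/-
FINS (helper28): the scalar end of the modulus closing (area split). Pure real algebra.

`s` = level where the area is `a_b`, `m` = charge above, `mo` = charge below, `V` = value of the core,
`Q s²` = the quadratic part (far field and bands), `b` = spare. `fin_plain`: the total is nonnegative.
`fin_side`: with side charge `k`: the total is at least `2 k (h - q)`.
-/

namespace Pool.Agent.FPX

theorem fin_quad {Q a s : ℝ} (hQ : 0 < Q) : -(a ^ 2 / (4 * Q)) ≤ Q * s ^ 2 - a * s := by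
  have h : Q * s ^ 2 - a * s - -(a ^ 2 / (4 * Q)) = (2 * Q * s - a) ^ 2 / (4 * Q) := by
    field_simp
    ring
  have : 0 ≤ (2 * Q * s - a) ^ 2 / (4 * Q) := by positivity
  linarith

/-- the basic inequality: `c` is the side charge (`2 k`), `w₀` the remaining constants -/
theorem fin_core {Q X m mo s V w₀ c : ℝ} (hQ : 0 < Q) (hm : 0 ≤ m) (hmo : m + mo ≤ X) (hmo0 : 0 ≤ mo)
    (hs : 0 ≤ s) (hc : 0 ≤ c)
    (h1 : (4 * X + c) ^ 2 / (4 * Q) - X - w₀ ≤ V - m)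
    (h2 : m ≤ Q / 8 → 4 * m ^ 2 / Q ≤ V + w₀ - c / 4) :
    0 ≤ Q * s ^ 2 + (V - 4 * s * m) - max (4 * s - 1) 0 * mo - c * s + w₀ := by
  rcases le_or_gt (1 / 4) s with h | h
  · rw [max_eq_left (by linarith)]
    have h3 : (4 * s - 1) * mo ≤ (4 * s - 1) * (X - m) :=
      mul_le_mul_of_nonneg_left (by linarith) (by linarith)
    have h4 := fin_quad (Q := Q) (a := 4 * X + c) (s := s) hQ
    nlinarith
  · rw [max_eq_right (by linarith), zero_mul, sub_zero]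
    have hcs : c * s ≤ c * (1 / 4) := mul_le_mul_of_nonneg_left h.le hc
    rcases le_or_gt m (Q / 8) with h5 | h5
    · have h6 := h2 h5
      have h7 := fin_quad (Q := Q) (a := 4 * m) (s := s) hQ
      have e : (4 * m) ^ 2 / (4 * Q) = 4 * m ^ 2 / Q := by
        rw [div_eq_div_iff (by positivity) hQ.ne']
        ring
      rw [e] at h7
      linarith
    · have h7 : Q / 16 - m ≤ Q * s ^ 2 - 4 * s * m := by
        have : Q * s ^ 2 - 4 * s * m - (Q / 16 - m) = (1 / 4 - s) * (4 * m - Q * (s + 1 / 4)) := by ring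
        have h8 : 0 ≤ (1 / 4 - s) * (4 * m - Q * (s + 1 / 4)) := by
          refine mul_nonneg (by linarith) ?_
          have : Q * (s + 1 / 4) ≤ Q * (1 / 2) := mul_le_mul_of_nonneg_left (by linarith) hQ.le
          linarith
        linarith
      have h9 : 0 ≤ (4 * X + c) ^ 2 / (4 * Q) - (4 * X + c) / 4 + Q / 16 := by
        have : (4 * X + c) ^ 2 / (4 * Q) - (4 * X + c) / 4 + Q / 16 =
            (2 * (4 * X + c) - Q) ^ 2 / (16 * Q) := by
          field_simp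
          ring
        rw [this]
        positivity
      linarith

/-- **the plain case** -/
theorem fin_plain {Q X m mo s V b : ℝ} (hQ : 0 < Q) (hm : 0 ≤ m) (hmo : m + mo ≤ X) (hmo0 : 0 ≤ mo)
    (hs : 0 ≤ s) (h1 : 4 * X ^ 2 / Q - X - b ≤ V - m) (h2 : m ≤ Q / 8 → 4 * m ^ 2 / Q ≤ V + b) :
    0 ≤ Q * s ^ 2 + (V - 4 * s * m) - max (4 * s - 1) 0 * mo + b := by
  have e : (4 * X + 0) ^ 2 / (4 * Q) = 4 * X ^ 2 / Q := by
    field_simp
    ring
  have := fin_core (c := 0) (w₀ := b) hQ hm hmo hmo0 hs le_rfl (by rw [e]; exact h1)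
    (fun h => by have := h2 h; linarith)
  linarith

/-- **the case with side charge**: `T` = level of the side condition, `h ≤ T + τ`, `q = 1 - e⁻ᶜ`; `pay` is
the payment in the core (only if `s ≤ T`) -/
theorem fin_side {Q X m mo s V b k q τ T h pay : ℝ} (hQ : 0 < Q) (hm : 0 ≤ m) (hmo : m + mo ≤ X)
    (hmo0 : 0 ≤ mo) (hs : 0 ≤ s) (hk : 0 ≤ k) (hpay : 0 ≤ pay) (hh : h ≤ T + τ)
    (hq : τ + 1 / 4 ≤ q)
    (p1 : 4 * X ^ 2 / Q - X - b ≤ V - m) (p2 : m ≤ Q / 8 → 4 * m ^ 2 / Q ≤ V + b)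
    (h1 : (4 * X + 2 * k) ^ 2 / (4 * Q) - X - (b - pay + 2 * k * (q - τ)) ≤ V - m)
    (h2 : m ≤ Q / 8 → 4 * m ^ 2 / Q ≤ V + (b - pay + 2 * k * (q - τ - 1 / 4))) :
    2 * k * (h - q) ≤ Q * s ^ 2 + (V - 4 * s * m) - max (4 * s - 1) 0 * mo + b +
      (if s ≤ T then 2 * k * (T - s) - pay else 0) := by
  have hk2 : 0 ≤ 2 * k := by linarith
  have ht : 2 * k * (h - q) ≤ 2 * k * (T + τ - q) := mul_le_mul_of_nonneg_left (by linarith) hk2
  have key := fin_core (c := 2 * k) (w₀ := b - pay + 2 * k * (q - τ)) hQ hm hmo hmo0 hs hk2 h1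
    (fun h => by have := h2 h; linarith)
  split_ifs with hsT
  · linarith
  · have hTs : T ≤ s := (not_le.1 hsT).le
    rcases le_or_gt (1 / 4) s with h3 | h3
    · have h4 : 2 * k * (T + τ - q) ≤ 2 * k * (s + τ - q) :=
        mul_le_mul_of_nonneg_left (by linarith) hk2
      linarith
    · have h4 : 2 * k * (T + τ - q) ≤ 0 := mul_nonpos_of_nonneg_of_nonpos hk2 (by linarith)
      have h5 := fin_plain hQ hm hmo hmo0 hs p1 p2
      linarith

/-- the quadratic part in terms of the level `s`: `t = ρ s`, `ρ` in a cell -/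
theorem fin_Q {f g t s ρ₀ ρ₁ Q : ℝ} (hs : 0 ≤ s) (h0 : ρ₀ * s ≤ t)
    (h1 : t ≤ ρ₁ * s) (hQ : ∀ ρ, ρ₀ ≤ ρ → ρ ≤ ρ₁ → Q ≤ f * ρ ^ 2 + g * (1 - ρ) ^ 2) :
    Q * s ^ 2 ≤ f * t ^ 2 + g * (s - t) ^ 2 ∨ s = 0 := by
  rcases hs.eq_or_lt with h | h
  · exact Or.inr h.symm
  · left
    have h2 := hQ (t / s) (by rwa [le_div_iff₀ h]) (by rwa [div_le_iff₀ h])
    have h3 := mul_le_mul_of_nonneg_right h2 (sq_nonneg s)
    have e : (f * (t / s) ^ 2 + g * (1 - t / s) ^ 2) * s ^ 2 = f * t ^ 2 + g * (s - t) ^ 2 := by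
      field_simp
    linarith

/-- the minimum over a cell -/
theorem fin_Qmin {f g ρ₀ ρ₁ ρ Q : ℝ} (hf : 0 < f) (hg : 0 < g) (h0 : ρ₀ ≤ ρ) (h1 : ρ ≤ ρ₁)
    (hQ : Q ≤ f * g / (f + g) ∨ (Q ≤ f * ρ₀ ^ 2 + g * (1 - ρ₀) ^ 2 ∧ g ≤ (f + g) * ρ₀) ∨
      (Q ≤ f * ρ₁ ^ 2 + g * (1 - ρ₁) ^ 2 ∧ (f + g) * ρ₁ ≤ g)) :
    Q ≤ f * ρ ^ 2 + g * (1 - ρ) ^ 2 := by
  rcases hQ with h | ⟨h, h'⟩ | ⟨h, h'⟩
  · have e : f * ρ ^ 2 + g * (1 - ρ) ^ 2 - f * g / (f + g) = ((f + g) * ρ - g) ^ 2 / (f + g) := by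
      field_simp
      ring
    have : 0 ≤ ((f + g) * ρ - g) ^ 2 / (f + g) := by positivity
    linarith
  · nlinarith [mul_nonneg (sub_nonneg.2 h0) (sub_nonneg.2 h'), mul_nonneg (sub_nonneg.2 h0) (sub_nonneg.2 h0)]
  · nlinarith [mul_nonneg (sub_nonneg.2 h1) (sub_nonneg.2 h'), mul_nonneg (sub_nonneg.2 h1) (sub_nonneg.2 h1)]

end Pool.Agent.FPX
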