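import Mathlib
import Pool.Agent.FPX.CUF
import Pool.Agent.FPX.FIX

/-
FIXX (helper11): the fixed point theorem for the cut-off flux of a map `W s Θ` into `ℝ³`, with a
parameter `s ∈ [0,1]` that is a continuous function `σ s Θ` of everything. Softmax selection among
finitely many potentials, and Brouwer's theorem.
-/

open MeasureTheory Set Filter Topology
open scoped ENNReal NNReal

noncomputable section

namespace Pool.Agent.FPX

open Pool.Agent.EWD

/-! ### selection among finitely many potentials -/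

open Classical in
/-- a measurable version -/
def MK (f : E3 → ℝ) : E3 → ℝ := if h : AEStronglyMeasurable f PP then h.mk else fun _ => 0

theorem MK_meas (f : E3 → ℝ) : Measurable (MK f) := by
  unfold MK
  split_ifs with h
  · exact h.stronglyMeasurable_mk.measurable
  · exact measurable_const

theorem MK_ae {f : E3 → ℝ} (h : AEStronglyMeasurable f PP) : MK f =ᵐ[PP] f := by
  unfold MK
  rw [dif_pos h]
  exact h.ae_eq_mk.symm

private theorem FIXX_max_int {m : ℕ} {Φ : Fin (m + 1) → E3 → ℝ} (hΦ : ∀ i, Integrable (Φ i) PP) :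
    Integrable (fun p => Finset.univ.sup' Finset.univ_nonempty (fun i => Φ i p)) PP := by
  have h1 := Finset.sup'_induction (s := (Finset.univ : Finset (Fin (m + 1))))
    Finset.univ_nonempty Φ (p := fun f : E3 → ℝ => Integrable f PP)
    (fun f hf g hg => hf.sup hg) (fun i _ => hΦ i)
  refine h1.congr (Eventually.of_forall fun p => ?_)
  simp only [Finset.sup'_apply]

section fam

variable {M : Type} [MetricSpace M] {γ : ℝ → M}

/-- the family selected by the softmax -/
def famX {m : ℕ} (th : Fin (m + 1) → M → ℝ) (hth : ∀ i, Adm γ (th i)) (β : ℝ)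
    (Φ : Fin (m + 1) → E3 → ℝ) : Fam γ where
  n := m + 1
  th := th
  adm := hth
  lam := fun p i => smx β (fun j => MK (Φ j) p) i
  meas := by
    intro i
    have h : ∀ j, Measurable fun p => Real.exp (β * MK (Φ j) p) := fun j =>
      Real.measurable_exp.comp ((MK_meas (Φ j)).const_mul β)
    exact (h i).div (Finset.measurable_fun_sum _ fun j _ => h j)
  nonneg := fun p i => smx_nonneg _ _ _
  sum := fun p => smx_sum _ _

theorem famX_lam_ae {m : ℕ} (th : Fin (m + 1) → M → ℝ) (hth : ∀ i, Adm γ (th i)) (β : ℝ)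
    {Φ : Fin (m + 1) → E3 → ℝ} (hΦ : ∀ i, Integrable (Φ i) PP) :
    ∀ᵐ p ∂PP, ∀ i, (famX th hth β Φ).lam p i = smx β (fun j => Φ j p) i := by
  have h : ∀ᵐ p ∂PP, ∀ j, MK (Φ j) p = Φ j p :=
    ae_all_iff.2 fun j => MK_ae (hΦ j).aestronglyMeasurable
  filter_upwards [h] with p hp i
  unfold famX
  simp only [hp]

/-- the mean of the selected family is almost maximal -/
theorem famX_flux {m : ℕ} (th : Fin (m + 1) → M → ℝ) (hth : ∀ i, Adm γ (th i)) {β : ℝ}
    (hβ : 0 < β) {Φ : Fin (m + 1) → E3 → ℝ} (hΦ : ∀ i, Integrable (Φ i) PP) :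
    (∫ p, Finset.univ.sup' Finset.univ_nonempty (fun i => Φ i p) ∂PP) - (m + 1) / β
      ≤ ∫ p, ∑ i, (famX th hth β Φ).lam p i * Φ i p ∂PP := by
  have hmax := FIXX_max_int hΦ
  have hint : Integrable (fun p => ∑ i : Fin (m + 1), (famX th hth β Φ).lam p i * Φ i p) PP := by
    refine integrable_finsetSum _ fun i _ => ?_
    refine (hΦ i).bdd_mul (c := 1) ((famX th hth β Φ).meas i).aestronglyMeasurable ?_
    refine Eventually.of_forall fun p => ?_
    rw [Real.norm_eq_abs, abs_of_nonneg ((famX th hth β Φ).nonneg p i)]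
    exact smx_le_one β (fun j => MK (Φ j) p) i
  calc _ = ∫ p, (Finset.univ.sup' Finset.univ_nonempty (fun i => Φ i p) - (m + 1) / β) ∂PP := by
        rw [integral_sub hmax (integrable_const _)]
        simp
    _ ≤ _ := by
        refine integral_mono_ae (hmax.sub (integrable_const _)) hint ?_
        filter_upwards [famX_lam_ae th hth β hΦ] with p hp
        simp only [hp]
        obtain ⟨i, -, hi⟩ := Finset.exists_mem_eq_sup' (s := (Finset.univ : Finset (Fin (m + 1))))
          Finset.univ_nonempty (fun i => Φ i p)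
        change Finset.univ.sup' Finset.univ_nonempty (fun i => Φ i p) - (m + 1) / β ≤ _
        rw [hi]
        exact smx_mean hβ (fun j => Φ j p) i

/-- the coefficients of the selected family depend continuously on the fluxes -/
theorem famX_cont {m : ℕ} (th : Fin (m + 1) → M → ℝ) (hth : ∀ i, Adm γ (th i)) {β : ℝ}
    (hβ : 0 < β) {Φ : ℕ → Fin (m + 1) → E3 → ℝ} {Φ₀ : Fin (m + 1) → E3 → ℝ}
    (hΦ : ∀ j i, Integrable (Φ j i) PP) (hΦ₀ : ∀ i, Integrable (Φ₀ i) PP)
    (h0 : ∀ l, Tendsto (fun j => ∫ p, |Φ j l p - Φ₀ l p| ∂PP) atTop (𝓝 0))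
    (i : Fin (m + 1)) (k : Fin 3) :
    Tendsto (fun j => ∫ p, (famX th hth β (Φ j)).lam p i * p k ∂PP) atTop
      (𝓝 (∫ p, (famX th hth β Φ₀).lam p i * p k ∂PP)) := by
  have hS : Tendsto (fun j => 2 * β * ∑ l,
      ((∫ p, |Φ j l p - Φ₀ l p| ∂PP) + ∫ p, |Φ j i p - Φ₀ i p| ∂PP)) atTop (𝓝 0) := by
    have h1 : Tendsto (fun j => ∑ l,
      ((∫ p, |Φ j l p - Φ₀ l p| ∂PP) + ∫ p, |Φ j i p - Φ₀ i p| ∂PP)) atTop
        (𝓝 (∑ _l : Fin (m + 1), (0 + 0 : ℝ))) :=
      tendsto_finsetSum _ fun l _ => (h0 l).add (h0 i)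
    have h2 := h1.const_mul (2 * β)
    simpa using h2
  rw [tendsto_iff_dist_tendsto_zero]
  refine squeeze_zero (fun _ => dist_nonneg) (fun j => ?_) hS
  have hlm : ∀ Ψ : Fin (m + 1) → E3 → ℝ, Integrable (fun p => (famX th hth β Ψ).lam p i * p k) PP := by
    intro Ψ
    have hmk : Measurable fun p : E3 => p k := by fun_prop
    refine Integrable.of_bound (((famX th hth β Ψ).meas i).mul hmk).aestronglyMeasurable 1 ?_
    filter_upwards [ae_coord] with p hp
    rw [Real.norm_eq_abs, abs_mul, abs_of_nonneg ((famX th hth β Ψ).nonneg p i)]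
    have h1 : (famX th hth β Ψ).lam p i ≤ 1 := smx_le_one β (fun j => MK (Ψ j) p) i
    exact mul_le_one₀ h1 (abs_nonneg _) (hp k)
  have hd : ∀ l, Integrable (fun p => |Φ j l p - Φ₀ l p|) PP := fun l => ((hΦ j l).sub (hΦ₀ l)).abs
  have hdd : ∀ l, Integrable (fun p => |Φ j l p - Φ₀ l p| + |Φ j i p - Φ₀ i p|) PP := fun l =>
    (hd l).add (hd i)
  rw [Real.dist_eq, ← integral_sub (hlm _) (hlm _)]
  calc |∫ p, ((famX th hth β (Φ j)).lam p i * p k - (famX th hth β Φ₀).lam p i * p k) ∂PP|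
      ≤ ∫ p, 2 * β * ∑ l, (|Φ j l p - Φ₀ l p| + |Φ j i p - Φ₀ i p|) ∂PP := by
        rw [← Real.norm_eq_abs]
        refine norm_integral_le_of_norm_le
          ((integrable_finsetSum _ fun l _ => hdd l).const_mul _) ?_
        filter_upwards [ae_coord, famX_lam_ae th hth β (hΦ j), famX_lam_ae th hth β hΦ₀]
          with p hp h1 h2
        rw [Real.norm_eq_abs, ← sub_mul, abs_mul]
        refine (mul_le_of_le_one_right (abs_nonneg _) (hp k)).trans ?_
        rw [h1, h2]
        exact smx_lip hβ.le (fun l => Φ j l p) (fun l => Φ₀ l p) i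
    _ = _ := by
        rw [integral_const_mul, integral_finsetSum _ fun l _ => hdd l]
        congr 1
        refine Finset.sum_congr rfl fun l _ => ?_
        exact integral_add (hd l) (hd i)

/-- the cut-off flux of a finite combination -/
theorem fluxC_comb (C : Calc M γ) {χ : ℝ → ℝ} {m : ℕ} {th : Fin m → M → ℝ} (hth : ∀ i, Adm γ (th i))
    {T : Fin 3 → M → ℝ} {p : E3} (hi : ∀ i, Integrable (fun o => flc C χ (th i) T p o) C.μ)
    (l : Fin m → ℝ) :
    FluxC C χ (fun x => ∑ i, l i * th i x) T p = ∑ i, l i * FluxC C χ (th i) T p := by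
  have h : ∀ᵐ o ∂C.μ, ∀ i, HasDerivAt (fun s => th i (C.px o s)) (C.gx (th i) o) 0 ∧
      HasDerivAt (fun s => th i (C.py o s)) (C.gy (th i) o) 0 :=
    ae_all_iff.mpr fun i => C.ae_has ⟨1, (hth i).lip⟩
  unfold FluxC
  have h1 : ∫ o, flc C χ (fun x => ∑ i, l i * th i x) T p o ∂C.μ
      = ∫ o, ∑ i, l i * flc C χ (th i) T p o ∂C.μ := by
    refine integral_congr_ae ?_
    filter_upwards [h] with o ho
    have e1 : C.gx (fun x => ∑ i, l i * th i x) o = ∑ i, l i * C.gx (th i) o :=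
      (HasDerivAt.fun_sum fun i _ => (ho i).1.const_mul (l i)).deriv
    have e2 : C.gy (fun x => ∑ i, l i * th i x) o = ∑ i, l i * C.gy (th i) o :=
      (HasDerivAt.fun_sum fun i _ => (ho i).2.const_mul (l i)).deriv
    simp only [flc_eq]
    rw [e1, e2, Finset.sum_mul, Finset.sum_mul, ← Finset.sum_sub_distrib]
    refine Finset.sum_congr rfl fun i _ => ?_
    ring
  rw [h1, integral_finsetSum _ fun i _ => (hi i).const_mul _]
  refine Finset.sum_congr rfl fun i _ => ?_
  rw [integral_const_mul]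

/-- the cut-off flux of the selected family -/
theorem famX_fluxC (C : Calc M γ) {χ : ℝ → ℝ} {c : ℝ} (hχ : CutF χ c) {m : ℕ}
    (th : Fin (m + 1) → M → ℝ) (hth : ∀ i, Adm γ (th i)) (β : ℝ) (Φ : Fin (m + 1) → E3 → ℝ)
    {T : Fin 3 → M → ℝ} (hT : ∀ k, Lip (T k)) : ∀ᵐ p ∂PP,
    FluxC C χ ((famX th hth β Φ).f p) T p = ∑ i, (famX th hth β Φ).lam p i * FluxC C χ (th i) T p := by
  have := C.fin
  have hint : ∀ᵐ p ∂PP, ∀ i, Integrable (fun o => flc C χ (th i) T p o) C.μ := by
    rw [ae_all_iff]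
    intro i
    exact (fluxC_meas C hχ hT ⟨1, (hth i).lip⟩).2.1.prod_left_ae
  filter_upwards [hint] with p hp
  exact fluxC_comb C hth hp _

end fam

/-! ### the fixed point -/

variable {M : Type} [MetricSpace M] {γ : ℝ → M}

/-- operators `W` with values in the odd maps into `ℝ³`, with a parameter `s` -/
structure OpX (C : Calc M γ) (c : ℝ) where
  W : ℝ → (Fin 3 → M → ℝ) → (Fin 3 → M → ℝ)
  σ : ℝ → (Fin 3 → M → ℝ) → ℝ
  L : ℝ≥0
  lip : ∀ s ∈ Icc (0 : ℝ) 1, ∀ T, Pre γ T → ∀ k, LipschitzWith L (W s T k)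
  mem : ∀ s ∈ Icc (0 : ℝ) 1, ∀ T, Pre γ T → σ s T ∈ Icc (0 : ℝ) 1
  cont : ∀ (n : ℕ) (th : Fin n → M → ℝ), (∀ i, Adm γ (th i)) →
    ∀ (a : ℕ → Fin n → Fin 3 → ℝ) (a₀ : Fin n → Fin 3 → ℝ), Tendsto a atTop (𝓝 a₀) →
    ∀ (s : ℕ → ℝ) (s₀ : ℝ), (∀ j, s j ∈ Icc (0 : ℝ) 1) → s₀ ∈ Icc (0 : ℝ) 1 →
    Tendsto s atTop (𝓝 s₀) →
    (∀ j, Pre γ (comb (a j) th)) → Pre γ (comb a₀ th) →
    Tendsto (fun j => σ (s j) (comb (a j) th)) atTop (𝓝 (σ s₀ (comb a₀ th))) ∧
    ∀ᵐ o ∂C.μ,
      (∀ k, Tendsto (fun j => W (s j) (comb (a j) th) k (C.pt o)) atTop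
        (𝓝 (W s₀ (comb a₀ th) k (C.pt o)))) ∧
      (c < ‖at' C (W s₀ (comb a₀ th)) o‖ → ∀ k,
        Tendsto (fun j => C.gx (W (s j) (comb (a j) th) k) o) atTop
          (𝓝 (C.gx (W s₀ (comb a₀ th) k) o)) ∧
        Tendsto (fun j => C.gy (W (s j) (comb (a j) th) k) o) atTop
          (𝓝 (C.gy (W s₀ (comb a₀ th) k) o)))

private theorem FIXX_norm_dx_le (C : Calc M γ) {L : ℝ≥0} {v : Fin 3 → M → ℝ}
    (hL : ∀ k, LipschitzWith L (v k)) :
    ∀ᵐ o ∂C.μ, ‖dx C v o‖ ≤ 2 * L ∧ ‖dy C v o‖ ≤ 2 * L := by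
  have h : ∀ᵐ o ∂C.μ, ∀ k, C.gx (v k) o ^ 2 + C.gy (v k) o ^ 2 ≤ (L : ℝ) ^ 2 :=
    ae_all_iff.2 fun k => C.ae_grad_le (hL k)
  filter_upwards [h] with o ho
  have h0 := ho 0
  have h1 := ho 1
  have h2 := ho 2
  have hL0 : (0 : ℝ) ≤ L := L.2
  constructor
  · have e : ‖dx C v o‖ ^ 2 ≤ (2 * L) ^ 2 := by
      rw [normsq3]
      change C.gx (v 0) o ^ 2 + C.gx (v 1) o ^ 2 + C.gx (v 2) o ^ 2 ≤ _
      nlinarith [sq_nonneg (C.gy (v 0) o), sq_nonneg (C.gy (v 1) o), sq_nonneg (C.gy (v 2) o)]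
    exact le_of_sq_le_sq e (by positivity)
  · have e : ‖dy C v o‖ ^ 2 ≤ (2 * L) ^ 2 := by
      rw [normsq3]
      change C.gy (v 0) o ^ 2 + C.gy (v 1) o ^ 2 + C.gy (v 2) o ^ 2 ≤ _
      nlinarith [sq_nonneg (C.gx (v 0) o), sq_nonneg (C.gx (v 1) o), sq_nonneg (C.gx (v 2) o)]
    exact le_of_sq_le_sq e (by positivity)

/-- **The fixed point for the cut-off flux.** -/
theorem fixpt_x [CompactSpace M] (C : Calc M γ) {χ : ℝ → ℝ} {c : ℝ} (hχ : CutF χ c) (V : OpX C c)
    {m : ℕ} (th : Fin (m + 1) → M → ℝ) (hth : ∀ i, Adm γ (th i)) {ε : ℝ} (hε : 0 < ε) :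
    ∃ (F : Fam γ) (s : ℝ), s ∈ Icc (0 : ℝ) 1 ∧ Pre γ F.Th ∧ V.σ s F.Th = s ∧
      (∫ p, Finset.univ.sup' Finset.univ_nonempty
        (fun i : Fin (m + 1) => FluxC C χ (th i) (V.W s F.Th) p) ∂PP) - ε
        ≤ ∫ p, FluxC C χ (F.f p) (V.W s F.Th) p ∂PP := by
  have := C.fin
  set β : ℝ := (m + 1) / ε with hβd
  have hβ : 0 < β := by positivity
  have hmβ : (m + 1 : ℝ) / β = ε := by
    rw [hβd]
    field_simp
  -- the fluxes
  set Φ : ℝ → (Fin 3 → M → ℝ) → Fin (m + 1) → E3 → ℝ := fun s T i p => FluxC C χ (th i) (V.W s T) p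
    with hΦ
  have hWl : ∀ s ∈ Icc (0 : ℝ) 1, ∀ T, Pre γ T → ∀ k, Lip (V.W s T k) := fun s hs T hT k =>
    ⟨V.L, V.lip s hs T hT k⟩
  have hΦi : ∀ s ∈ Icc (0 : ℝ) 1, ∀ T, Pre γ T → ∀ i, Integrable (Φ s T i) PP := fun s hs T hT i =>
    (fluxC_meas C hχ (hWl s hs T hT) ⟨1, (hth i).lip⟩).2.2
  -- the coefficients as a vector, and the retraction
  set N : ℕ := (m + 1) * 3 with hN
  set ix : Fin (m + 1) → Fin 3 → Fin (N + 1) := fun i k => (finProdFinEquiv (i, k)).castSucc with hix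
  set nu : EuclideanSpace ℝ (Fin (N + 1)) → Fin 3 → ℝ :=
    fun x k => Real.pi / 8 * ∑ i, |x (ix i k)| with hnu
  set A : EuclideanSpace ℝ (Fin (N + 1)) → Fin (m + 1) → Fin 3 → ℝ := fun x i k =>
    x (ix i k) / max 1 (nu x k) with hA
  set S : EuclideanSpace ℝ (Fin (N + 1)) → ℝ := fun x => max 0 (min 1 (x (Fin.last N))) with hS
  have hS1 : ∀ x, S x ∈ Icc (0 : ℝ) 1 := fun x => ⟨le_max_left _ _, max_le zero_le_one (min_le_left _ _)⟩
  have hSc : Continuous S := by
    have h2 : Continuous fun x : EuclideanSpace ℝ (Fin (N + 1)) => x (Fin.last N) := by fun_prop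
    exact continuous_const.max (continuous_const.min h2)
  have hA1 : ∀ x k, ∑ i, |A x i k| ≤ 8 / Real.pi := by
    intro x k
    have hpi := Real.pi_pos
    have hm1 : 0 < max 1 (nu x k) := lt_of_lt_of_le one_pos (le_max_left _ _)
    have h1 : ∑ i, |A x i k| = (∑ i, |x (ix i k)|) / max 1 (nu x k) := by
      rw [Finset.sum_div]
      refine Finset.sum_congr rfl fun i _ => ?_
      simp only [hA]
      rw [abs_div, abs_of_pos hm1]
    rw [h1, div_le_iff₀ hm1]
    have h2 : nu x k ≤ max 1 (nu x k) := le_max_right _ _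
    calc ∑ i, |x (ix i k)| = 8 / Real.pi * nu x k := by
          simp only [hnu]
          field_simp
      _ ≤ _ := mul_le_mul_of_nonneg_left h2 (by positivity)
  have hAc : Continuous A := by
    refine continuous_pi fun i => continuous_pi fun k => ?_
    have h1 : Continuous fun x : EuclideanSpace ℝ (Fin (N + 1)) => nu x k := by
      simp only [hnu]
      fun_prop
    have h2 : Continuous fun x : EuclideanSpace ℝ (Fin (N + 1)) => x (ix i k) := by fun_prop
    exact h2.div (continuous_const.max h1) fun x => (lt_of_lt_of_le one_pos (le_max_left _ _)).ne'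
  have hpre : ∀ x, Pre γ (comb (A x) th) := fun x => pre_comb hth (hA1 x)
  -- the map
  set fam : EuclideanSpace ℝ (Fin (N + 1)) → Fam γ := fun x =>
    famX th hth β (Φ (S x) (comb (A x) th)) with hfam
  set cf : EuclideanSpace ℝ (Fin (N + 1)) → Fin (m + 1) → Fin 3 → ℝ := fun x i k =>
    8 / Real.pi * ∫ p, (famX th hth β (Φ (S x) (comb (A x) th))).lam p i * p k ∂PP with hcf
  set f : EuclideanSpace ℝ (Fin (N + 1)) → EuclideanSpace ℝ (Fin (N + 1)) := fun x =>
    WithLp.toLp 2 (Fin.snoc (α := fun _ => ℝ)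
      (fun j : Fin N => cf x (finProdFinEquiv.symm j).1 (finProdFinEquiv.symm j).2)
      (V.σ (S x) (comb (A x) th))) with hf
  have hfix : ∀ x i k, f x (ix i k) = cf x i k := by
    intro x i k
    simp only [hf, hix]
    rw [Fin.snoc_castSucc, Equiv.symm_apply_apply]
  have hflast : ∀ x, f x (Fin.last N) = V.σ (S x) (comb (A x) th) := by
    intro x
    simp only [hf]
    rw [Fin.snoc_last]
  have hcf1 : ∀ x k, ∑ i, |cf x i k| ≤ 8 / Real.pi := by
    intro x k
    exact coef_le (fam x).meas (fam x).nonneg (fam x).sum k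
  have hcont : Continuous f := by
    rw [continuous_iff_seqContinuous]
    intro u x hu
    have hAu : Tendsto (fun j => A (u j)) atTop (𝓝 (A x)) := (hAc.tendsto x).comp hu
    have hSu : Tendsto (fun j => S (u j)) atTop (𝓝 (S x)) := (hSc.tendsto x).comp hu
    obtain ⟨h0, h1⟩ := V.cont (m + 1) th hth (fun j => A (u j)) (A x) hAu (fun j => S (u j)) (S x)
      (fun j => hS1 _) (hS1 x) hSu (fun j => hpre _) (hpre x)
    have key : ∀ l, Tendsto (fun j => ∫ p, |Φ (S (u j)) (comb (A (u j)) th) l p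
        - Φ (S x) (comb (A x) th) l p| ∂PP) atTop (𝓝 0) := by
      intro l
      exact fluxC_cont C hχ (K := 2 * V.L) (fun j => hWl _ (hS1 _) _ (hpre _)) (hWl _ (hS1 _) _ (hpre _))
        (fun j => FIXX_norm_dx_le C (V.lip _ (hS1 _) _ (hpre _)))
        (FIXX_norm_dx_le C (V.lip _ (hS1 _) _ (hpre _))) h1 (hth l).lip
    have h2 := fun i k => famX_cont th hth hβ (fun j => hΦi _ (hS1 (u j)) _ (hpre (u j)))
      (hΦi _ (hS1 x) _ (hpre x)) key i k
    refine ((PiLp.continuous_toLp 2 _).tendsto _).comp (tendsto_pi_nhds.2 fun l => ?_)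
    refine Fin.lastCases ?_ (fun l => ?_) l
    · simp only [Fin.snoc_last]
      exact h0
    · simp only [Fin.snoc_castSucc]
      exact (h2 _ _).const_mul _
  have hmaps : MapsTo f (Metric.closedBall 0 6) (Metric.closedBall 0 6) := by
    intro x _
    rw [mem_closedBall_zero_iff]
    have hpi := Real.pi_gt_three
    have h3 : 8 / Real.pi ≤ 8 / 3 := div_le_div_of_nonneg_left (by norm_num) (by norm_num) hpi.le
    have h0 : 0 < 8 / Real.pi := by positivity
    have h1 : ∀ k, ∑ i, cf x i k ^ 2 ≤ (8 / 3) ^ 2 := by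
      intro k
      calc ∑ i, cf x i k ^ 2 ≤ ∑ i, (8 / Real.pi) * |cf x i k| := by
            refine Finset.sum_le_sum fun i _ => ?_
            have h4 : |cf x i k| ≤ 8 / Real.pi :=
              (Finset.single_le_sum (f := fun i => |cf x i k|) (fun _ _ => abs_nonneg _)
                (Finset.mem_univ i)).trans (hcf1 x k)
            rw [← sq_abs, sq]
            exact mul_le_mul_of_nonneg_right h4 (abs_nonneg _)
        _ = (8 / Real.pi) * ∑ i, |cf x i k| := by rw [Finset.mul_sum]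
        _ ≤ (8 / Real.pi) * (8 / Real.pi) := mul_le_mul_of_nonneg_left (hcf1 x k) h0.le
        _ ≤ (8 / 3) * (8 / 3) := mul_le_mul h3 h3 h0.le (by norm_num)
        _ = _ := by ring
    have hl : f x (Fin.last N) ^ 2 ≤ 1 := by
      rw [hflast]
      have h4 := V.mem _ (hS1 x) _ (hpre x)
      nlinarith [h4.1, h4.2]
    have h2 : ‖f x‖ ^ 2 ≤ 36 := by
      rw [EuclideanSpace.real_norm_sq_eq, Fin.sum_univ_castSucc]
      have h5 : ∑ j : Fin N, (f x j.castSucc) ^ 2 ≤ 25 := by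
        calc ∑ j : Fin N, (f x j.castSucc) ^ 2
            = ∑ q : Fin (m + 1) × Fin 3, (f x (finProdFinEquiv q).castSucc) ^ 2 :=
              (Equiv.sum_comp finProdFinEquiv fun j => (f x j.castSucc) ^ 2).symm
          _ = ∑ i, ∑ k, cf x i k ^ 2 := by
              rw [Fintype.sum_prod_type]
              refine Finset.sum_congr rfl fun i _ => Finset.sum_congr rfl fun k _ => ?_
              rw [← hfix x i k]
          _ = ∑ k, ∑ i, cf x i k ^ 2 := Finset.sum_comm
          _ ≤ ∑ _k : Fin 3, (8 / 3 : ℝ) ^ 2 := Finset.sum_le_sum fun k _ => h1 k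
          _ ≤ 25 := by
              rw [Finset.sum_const, Finset.card_univ, Fintype.card_fin]
              norm_num
      linarith
    nlinarith [norm_nonneg (f x)]
  obtain ⟨x, -, hx⟩ := BRW.brouwer (by norm_num : (0 : ℝ) ≤ 6) hcont.continuousOn hmaps
  -- the retractions are the identity at the fixed point
  have hAx : A x = cf x := by
    funext i k
    have h1 : ∀ i, x (ix i k) = cf x i k := fun i => by rw [← hfix, hx]
    have h2 : nu x k ≤ 1 := by
      simp only [hnu]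
      simp_rw [h1]
      have h3 := mul_le_mul_of_nonneg_left (hcf1 x k) (by positivity : (0 : ℝ) ≤ Real.pi / 8)
      refine h3.trans (le_of_eq ?_)
      field_simp
    simp only [hA]
    rw [max_eq_left h2, div_one, h1]
  have hSx : V.σ (S x) (comb (A x) th) = S x := by
    have h1 : x (Fin.last N) = V.σ (S x) (comb (A x) th) := by rw [← hflast, hx]
    have h2 := V.mem _ (hS1 x) _ (hpre x)
    have h3 : S x = x (Fin.last N) := by
      simp only [hS]
      rw [min_eq_right (by rw [h1]; exact h2.2), max_eq_right (by rw [h1]; exact h2.1)]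
    rw [← h1, h3]
  have hTh : (fam x).Th = comb (A x) th := by
    rw [(fam x).Th_eq]
    change comb (cf x) th = comb (A x) th
    rw [hAx]
  refine ⟨fam x, S x, hS1 x, (fam x).pre, ?_, ?_⟩
  · rw [hTh]
    exact hSx
  · rw [hTh]
    have h1 := famX_flux th hth hβ (hΦi _ (hS1 x) _ (hpre x))
    rw [hmβ] at h1
    refine h1.trans (le_of_eq ?_)
    refine integral_congr_ae ?_
    filter_upwards [famX_fluxC C hχ th hth β (Φ (S x) (comb (A x) th)) (hWl _ (hS1 x) _ (hpre x))]
      with p hp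
    exact hp.symm

end Pool.Agent.FPX
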