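import Mathlib
import Pool.Agent.FPX.FOA

/-
FOC (helper99, idea of helper6): the outer resistance with core accounts. `j ≥ J` is an account of the image
(`j = J` outside the core zone, `j = |dv|²` in the core zone), `f` the charge outside the core zone:
`|dv|² h ≤ g j + K f` whenever `h ≤ g - g² / (2K)`; `∫ (j - J) ≤ Φ`, `∫ f ≤ x`. Then the resistance is
`G (∫_S j - Φ) + K (x - ∫_S f)`.
-/

open MeasureTheory Set Filter Topology
open scoped ENNReal NNReal

noncomputable section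

namespace Pool.Agent.FPX

open Pool.Agent.EWD Pool.Agent.FPM

variable {M : Type} [MetricSpace M] {γ : ℝ → M}

/-- the pointwise inequality between the norm, the account `j` and the charge `f` -/
def PtI (C : Calc M γ) (v : Fin 3 → M → ℝ) (j f : Om → ℝ) : Prop :=
  ∀ᵐ o ∂C.μ, ∀ h g K : ℝ, 0 < h → 0 < K → h ≤ g - g ^ 2 / (2 * K) →
    opn C v o ^ 2 * h ≤ j o * g + K * f o

theorem PtI.half {C : Calc M γ} {v : Fin 3 → M → ℝ} {j f : Om → ℝ} (hP : PtI C v j f)
    (f0 : ∀ᵐ o ∂C.μ, 0 ≤ f o) : ∀ᵐ o ∂C.μ, -(f o) / 2 ≤ j o := by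
  filter_upwards [hP, f0] with o ho hν
  have h1 : ∀ e : ℝ, 0 < e → e ≤ 1 / 2 → 0 ≤ j o * (2 - e) + f o := by
    intro e h0 h1
    have h2 := ho (e * (1 - e / 2)) (2 - e) 1 (by nlinarith) one_pos (by nlinarith)
    have h3 : 0 ≤ opn C v o ^ 2 * (e * (1 - e / 2)) := by
      have : 0 < e * (1 - e / 2) := by nlinarith
      positivity
    linarith
  have h2 : 0 ≤ j o * (2 - 0) + f o := by
    have hlim : Tendsto (fun e : ℝ => j o * (2 - e) + f o) (𝓝[>] 0)
        (𝓝 (j o * (2 - 0) + f o)) := by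
      have hc : Continuous fun e : ℝ => j o * (2 - e) + f o := by fun_prop
      exact (hc.tendsto 0).mono_left nhdsWithin_le_nhds
    refine ge_of_tendsto hlim ?_
    filter_upwards [Ioo_mem_nhdsGT (show (0 : ℝ) < 1 / 2 by norm_num)] with e he
    exact h1 e he.1 he.2.le
  linarith

theorem PtI.neg {C : Calc M γ} {v : Fin 3 → M → ℝ} {j f : Om → ℝ} (hP : PtI C v j f)
    (f0 : ∀ᵐ o ∂C.μ, 0 ≤ f o) : ∀ᵐ o ∂C.μ, -f o ≤ j o := by
  filter_upwards [hP.half f0, f0] with o h1 h2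
  linarith

/-- the resistance -/
def coR (G : ℝ → ℝ) (K X Φ δ : ℝ) (x : Fin 4 → ℝ) : ℝ := G (x 3 - Φ) + K * (X - x 2) + δ

/-- the function of Hamilton and Jacobi -/
def coS (G : ℝ → ℝ) (K X Φ δ : ℝ) (t : ℝ) (x : Fin 4 → ℝ) : ℝ := -t ^ 2 * (coR G K X Φ δ x)⁻¹

/-- its derivative -/
def coS' (G g : ℝ → ℝ) (K X Φ δ : ℝ) (t : ℝ) (x : Fin 4 → ℝ) : (ℝ × (Fin 4 → ℝ)) →L[ℝ] ℝ :=
  (-2 * t * (coR G K X Φ δ x)⁻¹) • ContinuousLinearMap.fst ℝ ℝ (Fin 4 → ℝ) -
    (t ^ 2 * (coR G K X Φ δ x ^ 2)⁻¹) •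
      ((g (x 3 - Φ)) • ((ContinuousLinearMap.proj 3).comp (ContinuousLinearMap.snd ℝ ℝ (Fin 4 → ℝ))) +
        K • ((ContinuousLinearMap.proj 2).comp (ContinuousLinearMap.snd ℝ ℝ (Fin 4 → ℝ))))

theorem coS'_one (G g : ℝ → ℝ) (K X Φ δ t : ℝ) (x : Fin 4 → ℝ) :
    coS' G g K X Φ δ t x (1, 0) = -2 * t * (coR G K X Φ δ x)⁻¹ := by
  simp [coS']

theorem coS'_two (G g : ℝ → ℝ) (K X Φ δ t : ℝ) (x y : Fin 4 → ℝ) :
    coS' G g K X Φ δ t x (0, y) =
      -(t ^ 2 * (coR G K X Φ δ x ^ 2)⁻¹ * (y 3 * g (x 3 - Φ) + K * y 2)) := by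
  simp [coS']
  ring

theorem coS_has {G g : ℝ → ℝ} {K X Φ δ : ℝ} {t : ℝ} {x : Fin 4 → ℝ}
    (hG : HasDerivAt G (-g (x 3 - Φ)) (x 3 - Φ)) (h0 : coR G K X Φ δ x ≠ 0) :
    HasFDerivAt (fun z : ℝ × (Fin 4 → ℝ) => coS G K X Φ δ z.1 z.2) (coS' G g K X Φ δ t x) (t, x) := by
  have e1 : HasFDerivAt (fun z : ℝ × (Fin 4 → ℝ) => z.2 3)
      ((ContinuousLinearMap.proj 3).comp (ContinuousLinearMap.snd ℝ ℝ (Fin 4 → ℝ))) (t, x) :=
    (((ContinuousLinearMap.proj (R := ℝ) (φ := fun _ : Fin 4 => ℝ) 3).comp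
      (ContinuousLinearMap.snd ℝ ℝ (Fin 4 → ℝ))).hasFDerivAt)
  have e1' : HasFDerivAt (fun z : ℝ × (Fin 4 → ℝ) => z.2 3 - Φ)
      ((ContinuousLinearMap.proj 3).comp (ContinuousLinearMap.snd ℝ ℝ (Fin 4 → ℝ))) (t, x) :=
    e1.sub_const Φ
  have e2 : HasFDerivAt (fun z : ℝ × (Fin 4 → ℝ) => z.2 2)
      ((ContinuousLinearMap.proj 2).comp (ContinuousLinearMap.snd ℝ ℝ (Fin 4 → ℝ))) (t, x) :=
    (((ContinuousLinearMap.proj (R := ℝ) (φ := fun _ : Fin 4 => ℝ) 2).comp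
      (ContinuousLinearMap.snd ℝ ℝ (Fin 4 → ℝ))).hasFDerivAt)
  have e0 : HasFDerivAt (fun z : ℝ × (Fin 4 → ℝ) => z.1)
      (ContinuousLinearMap.fst ℝ ℝ (Fin 4 → ℝ)) (t, x) := hasFDerivAt_fst
  have e3 : HasFDerivAt (fun z : ℝ × (Fin 4 → ℝ) => G (z.2 3 - Φ))
      ((-g (x 3 - Φ)) • ((ContinuousLinearMap.proj 3).comp
        (ContinuousLinearMap.snd ℝ ℝ (Fin 4 → ℝ)))) (t, x) :=
    hG.comp_hasFDerivAt (t, x) e1'
  have e4 : HasFDerivAt (fun z : ℝ × (Fin 4 → ℝ) => coR G K X Φ δ z.2)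
      ((-g (x 3 - Φ)) • ((ContinuousLinearMap.proj 3).comp
        (ContinuousLinearMap.snd ℝ ℝ (Fin 4 → ℝ))) +
        K • (-((ContinuousLinearMap.proj 2).comp (ContinuousLinearMap.snd ℝ ℝ (Fin 4 → ℝ))))) (t, x) :=
    (e3.add ((e2.const_sub X).const_mul K)).add_const δ
  have e5 : HasFDerivAt (fun z : ℝ × (Fin 4 → ℝ) => (coR G K X Φ δ z.2)⁻¹) _ (t, x) :=
    (hasDerivAt_inv (x := coR G K X Φ δ x) h0).comp_hasFDerivAt (t, x) e4
  have e6 : HasFDerivAt (fun z : ℝ × (Fin 4 → ℝ) => -z.1 ^ 2) _ (t, x) := (e0.pow 2).neg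
  have e7 := e6.mul e5
  refine (e7.congr_fderiv ?_).congr_of_eventuallyEq (Eventually.of_forall fun z => rfl)
  refine ContinuousLinearMap.ext fun z => ?_
  simp [coS']
  ring

/-- `x (4π - x)` on an interval -/
theorem co_quad {β α Y : ℝ} (h1 : β ≤ α) (h2 : α ≤ 2 * Real.pi + Y) :
    min (β * (4 * Real.pi - β)) (4 * Real.pi ^ 2 - Y ^ 2) ≤ α * (4 * Real.pi - α) := by
  rcases le_or_gt α (2 * Real.pi) with h | h
  · refine (min_le_left _ _).trans ?_
    nlinarith [mul_nonneg (sub_nonneg.2 h1) (sub_nonneg.2 h), sq_nonneg (α - β)]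
  · refine (min_le_right _ _).trans ?_
    have h3 : 0 ≤ Y - (α - 2 * Real.pi) := by linarith
    have h4 : 0 < α - 2 * Real.pi := by linarith
    have h5 : 0 ≤ Y + (α - 2 * Real.pi) := by linarith
    nlinarith [mul_nonneg h3 h5]

/-- **The outer part with core accounts.** -/
theorem core_robin [CompactSpace M] (C : Calc M γ) (hγ : Bd γ) (hR : RegAE C) {v : Fin 3 → M → ℝ}
    (hv : Sph γ v) (hJ : ∫ o, jac C v o ∂C.μ = 2 * Real.pi) {κ ε : ℝ} (hI : IsopO C κ ε)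
    {j f : Om → ℝ} (hj : Integrable j C.μ) (hf : Integrable f C.μ) (f0 : ∀ᵐ o ∂C.μ, 0 ≤ f o)
    (hP : PtI C v j f) (hjJ : ∀ᵐ o ∂C.μ, jac C v o ≤ j o) {X K Φ Y : ℝ}
    (jΦ : ∫ o, j o ∂C.μ ≤ 2 * Real.pi + Φ) (fX : ∫ o, f o ∂C.μ ≤ X)
    (νY : ∫ o, nuC C v o ∂C.μ ≤ 2 * Y) (hY : Y < 2 * Real.pi)
    (hK : 0 < K) {A1 : ℝ} (hA1 : 0 < A1) (hX : X < 2 * Real.pi)
    {G g : ℝ → ℝ}
    (hG : ∀ α, A1 ≤ α → α ≤ 2 * Real.pi + X → HasDerivAt G (-g α) α)
    (hg : ∀ α, A1 ≤ α → α ≤ 2 * Real.pi + X →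
      1 / (α * (4 * Real.pi - α)) ≤ g α - g α ^ 2 / (2 * K))
    (hgY : ∀ α, A1 ≤ α → α ≤ 2 * Real.pi + X →
      1 / (4 * Real.pi ^ 2 - Y ^ 2) ≤ g α - g α ^ 2 / (2 * K))
    (hG0 : ∀ y, 0 ≤ y → y ≤ X → 0 ≤ G (2 * Real.pi + y) + K * y) {δ : ℝ} (hδ : 0 < δ)
    {χ : M → ℝ} (hχ : Lip χ) (oχ : EWD.OddB γ χ) {t : ℝ} (ht : 0 ≤ t)
    (hα : ∀ s, 0 ≤ s → s ≤ t → A1 ≤ supw C χ j s - Φ) :
    0 < G (supw C χ j t - Φ) + K * (X - supw C χ f t) + δ ∧
    t ^ 2 ≤ (G (supw C χ j t - Φ) + K * (X - supw C χ f t) + δ) *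
      ∫ o in {o | |χ (C.pt o)| < t}, gn C χ o ^ 2 ∂C.μ := by
  have := C.fin
  have hpi := Real.pi_pos
  -- basic facts
  have iJ : Integrable (jac C v) C.μ := jac_integrable C hv
  have iN : Integrable (nuC C v) C.μ := nuC_cint C hv.lip continuous_id
  have hmeas : ∀ t, NullMeasurableSet {o | -|χ (C.pt o)| < t} C.μ := fun t =>
    meas_pt_lt C (lip_abs hχ).neg t
  have hlow : ∀ s, -t ≤ s → s ≤ 0 → A1 ≤ nlev C χ j s - Φ := fun s hs hs0 => by
    rw [nlev_supw]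
    exact hα _ (by linarith) (by linarith)
  have hf0 : ∀ s, 0 ≤ nlev C χ f s := fun s => setIntegral_nonneg_of_ae f0
  have hfX : ∀ s, nlev C χ f s ≤ X := fun s => (setIntegral_le_integral hf f0).trans fX
  have hνf : ∀ᵐ o ∂C.μ, -f o ≤ j o := hP.neg f0
  have hsum : ∀ s, nlev C χ j s - Φ + nlev C χ f s ≤ 2 * Real.pi + X := fun s => by
    set E : Set Om := {o | -|χ (C.pt o)| < s} with hE
    have h1 := integral_add_compl₀ (hmeas s) hj
    have h2 := integral_add_compl₀ (hmeas s) hf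
    have h3 : ∫ o in Eᶜ, -j o ∂C.μ ≤ ∫ o in Eᶜ, f o ∂C.μ := by
      refine setIntegral_mono_ae hj.neg.integrableOn hf.integrableOn ?_
      filter_upwards [hνf] with o h4
      linarith
    rw [integral_neg] at h3
    unfold nlev
    linarith
  have hle : ∀ s, nlev C χ j s - Φ ≤ nlev C χ (jac C v) s := fun s => by
    set E : Set Om := {o | -|χ (C.pt o)| < s} with hE
    have h1 := integral_add_compl₀ (hmeas s) hj
    have h2 := integral_add_compl₀ (hmeas s) iJ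
    have h3 : ∫ o in Eᶜ, jac C v o ∂C.μ ≤ ∫ o in Eᶜ, j o ∂C.μ :=
      setIntegral_mono_ae iJ.integrableOn hj.integrableOn hjJ
    unfold nlev
    linarith
  have hup : ∀ s, nlev C χ (jac C v) s ≤ 2 * Real.pi + Y := fun s => by
    set E : Set Om := {o | -|χ (C.pt o)| < s} with hE
    have h1 := integral_add_compl₀ (hmeas s) iJ
    have h3 : ∫ o in Eᶜ, -jac C v o ∂C.μ ≤ ∫ o in Eᶜ, nuC C v o / 2 ∂C.μ := by
      refine setIntegral_mono_ae iJ.neg.integrableOn (iN.div_const 2).integrableOn ?_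
      filter_upwards [fou_neg_half_nu C hv] with o h5
      linarith
    rw [integral_neg, integral_div] at h3
    have h4 : ∫ o in Eᶜ, nuC C v o ∂C.μ ≤ ∫ o, nuC C v o ∂C.μ :=
      setIntegral_le_integral iN (ae_of_all _ fun o => nuv_nonneg _ _ _)
    unfold nlev
    linarith
  have hX0 : 0 ≤ X := (hf0 0).trans (hfX 0)
  have hY0 : 0 ≤ Y := by
    have := (integral_nonneg fun o => nuv_nonneg (at' C v o) (dx C v o) (dy C v o)).trans νY
    linarith
  have hA12 : A1 ≤ 2 * Real.pi + X := by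
    have h1 := hlow 0 (by linarith) le_rfl
    have h2 := hsum 0
    have h3 := hf0 0
    linarith
  have hYp : 0 < 4 * Real.pi ^ 2 - Y ^ 2 := by nlinarith
  -- positivity of g
  have hgpos : ∀ α, A1 ≤ α → α ≤ 2 * Real.pi + X → 0 < g α := by
    intro α h1 h2
    have h3 : 0 < 1 / (α * (4 * Real.pi - α)) := by
      have : 0 < α := by linarith
      have : 0 < 4 * Real.pi - α := by linarith
      positivity
    have h4 := hg α h1 h2
    have h5 : 0 ≤ g α ^ 2 / (2 * K) := by positivity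
    linarith
  have hGanti : ∀ α β, A1 ≤ α → α ≤ β → β ≤ 2 * Real.pi + X → G β ≤ G α := by
    intro α β h1 h2 h3
    have hmono : AntitoneOn G (Icc A1 (2 * Real.pi + X)) := by
      refine antitoneOn_of_deriv_nonpos (convex_Icc _ _) ?_ ?_ ?_
      · intro x hx
        exact (hG x hx.1 hx.2).continuousAt.continuousWithinAt
      · intro x hx
        rw [interior_Icc] at hx
        exact (hG x hx.1.le hx.2.le).differentiableAt.differentiableWithinAt
      · intro x hx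
        rw [interior_Icc] at hx
        rw [(hG x hx.1.le hx.2.le).deriv]
        have := hgpos x hx.1.le hx.2.le
        linarith
    exact hmono ⟨h1, by linarith⟩ ⟨by linarith, h3⟩ h2
  set Ds : Set (Fin 4 → ℝ) := {x | A1 ≤ x 3 - Φ ∧ x 3 - Φ + x 2 ≤ 2 * Real.pi + X ∧ 0 ≤ x 2 ∧ x 2 ≤ X}
    with hDs
  have hconv : Convex ℝ Ds := by
    intro x hx y hy a b ha0 hb0 hab
    obtain ⟨x1, x2, x3, x4⟩ := hx
    obtain ⟨y1, y2, y3, y4⟩ := hy
    have hb : b = 1 - a := by linarith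
    refine ⟨?_, ?_, ?_, ?_⟩
    · simp only [Pi.add_apply, Pi.smul_apply, smul_eq_mul]
      have h1 := mul_le_mul_of_nonneg_left x1 ha0
      have h2 := mul_le_mul_of_nonneg_left y1 hb0
      rw [hb] at h2 ⊢
      linarith
    · simp only [Pi.add_apply, Pi.smul_apply, smul_eq_mul]
      have h1 := mul_le_mul_of_nonneg_left x2 ha0
      have h2 := mul_le_mul_of_nonneg_left y2 hb0
      rw [hb] at h2 ⊢
      linarith
    · simp only [Pi.add_apply, Pi.smul_apply, smul_eq_mul]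
      positivity
    · simp only [Pi.add_apply, Pi.smul_apply, smul_eq_mul]
      have h1 := mul_le_mul_of_nonneg_left x4 ha0
      have h2 := mul_le_mul_of_nonneg_left y4 hb0
      rw [hb] at h2 ⊢
      linarith
  have hx1 : ∀ x ∈ Ds, x 3 - Φ ≤ 2 * Real.pi + X := fun x hx => by
    obtain ⟨x1, x2, x3, x4⟩ := hx
    linarith
  have hRpos : ∀ x ∈ Ds, δ ≤ coR G K X Φ δ x := by
    intro x hx
    obtain ⟨x1, x2, x3, x4⟩ := hx
    have h1 := hGanti (x 3 - Φ) (2 * Real.pi + (X - x 2)) x1 (by linarith) (by linarith)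
    have h2 := hG0 (X - x 2) (by linarith) (by linarith)
    unfold coR
    linarith
  set γs : Fin 4 → Om → ℝ := ![fun _ => 1, jac C v, f, j] with hγs
  have hFD : ∀ s, -t ≤ s → s ≤ 0 → (fun i => nlev C χ (γs i) s) ∈ Ds := fun s hs hs0 =>
    ⟨hlow s hs hs0, hsum s, hf0 s, hfX s⟩
  have hmain := odd_hj C hγ hR hv hχ oχ hI (ι := Fin 4) (γs := γs) (i0 := 0) (i1 := 1)
    (pot := fun _ => 0) (c := 1) (r0 := -t) (r1 := 0) (L := 2 * t * δ⁻¹) (D := Ds)
    (S := coS G K X Φ δ) (S' := coS' G g K X Φ δ)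
    (by
      intro i
      fin_cases i
      · exact integrable_const (1 : ℝ)
      · exact iJ
      · exact hf
      · exact hj)
    rfl rfl (integrable_const (0 : ℝ)) one_pos (by linarith) le_rfl (by positivity) hconv
    (fun s h1 h2 => hFD s h1 h2)
    (fun s x h1 h2 hx => coS_has (hG _ hx.1 (hx1 x hx)) (lt_of_lt_of_le hδ (hRpos x hx)).ne')
    (by
      intro s x h1 h2 hx
      rw [coS'_one]
      have h3 := hRpos x hx
      have h4 : (coR G K X Φ δ x)⁻¹ ≤ δ⁻¹ := inv_anti₀ hδ h3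
      have h5 : 0 ≤ (coR G K X Φ δ x)⁻¹ := inv_nonneg.2 (hδ.le.trans h3)
      have h6 : -2 * s ≤ 2 * t := by linarith
      exact mul_le_mul h6 h4 h5 (by positivity))
    (by
      filter_upwards [hP] with o ho s x h1 hx h2 h3
      rw [coS'_two]
      have hx1' := hg _ hx.1 (hx1 x hx)
      have hpos : 0 < 1 / ((x 3 - Φ) * (4 * Real.pi - (x 3 - Φ))) := by
        have h5 := hx.1
        have h6 := hx1 x hx
        have : 0 < x 3 - Φ := by linarith
        have : 0 < 4 * Real.pi - (x 3 - Φ) := by linarith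
        positivity
      have h4 := ho _ _ K hpos hK hx1'
      have h5 : 0 ≤ opn C v o ^ 2 * (1 / ((x 3 - Φ) * (4 * Real.pi - (x 3 - Φ)))) := by positivity
      have h6 : 0 ≤ s ^ 2 * (coR G K X Φ δ x ^ 2)⁻¹ * (γs 3 o * g (x 3 - Φ) + K * γs 2 o) := by
        have : 0 ≤ γs 3 o * g (x 3 - Φ) + K * γs 2 o := h5.trans h4
        positivity
      have h7 : 0 ≤ 2 * t * δ⁻¹ * (s + |χ (C.pt o)|) := mul_nonneg (by positivity) (by linarith)
      linarith)
    (by
      refine ae_of_all _ fun s h1 h2 l V hl hV _ hVV => ?_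
      set x : Fin 4 → ℝ := fun i => nlev C χ (γs i) s with hx
      have hxD : x ∈ Ds := hFD s h1.le h2.le
      set ρ := coR G K X Φ δ x with hρ
      have hρp : 0 < ρ := lt_of_lt_of_le hδ (hRpos x hxD)
      have e1 : nlev C χ (γs 1) s = x 1 := rfl
      rw [e1] at hVV
      set y := min ((x 3 - Φ) * (4 * Real.pi - (x 3 - Φ))) (4 * Real.pi ^ 2 - Y ^ 2) with hy
      have hyp : 0 < y := by
        refine lt_min ?_ hYp
        have h5 := hxD.1
        have h6 := hx1 x hxD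
        have : 0 < x 3 - Φ := by linarith
        have : 0 < 4 * Real.pi - (x 3 - Φ) := by linarith
        positivity
      have hyV : y ≤ V ^ 2 := (co_quad (hle s) (hup s)).trans hVV
      have hsq : 0 < √y := Real.sqrt_pos.2 hyp
      have hVs : √y ≤ V := by
        rw [← Real.sqrt_sq hV]
        exact Real.sqrt_le_sqrt hyV
      have hyg : 1 / y ≤ g (x 3 - Φ) - g (x 3 - Φ) ^ 2 / (2 * K) := by
        rcases min_choice ((x 3 - Φ) * (4 * Real.pi - (x 3 - Φ))) (4 * Real.pi ^ 2 - Y ^ 2) with h | h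
        · rw [hy, h]
          exact hg _ hxD.1 (hx1 x hxD)
        · rw [hy, h]
          exact hgY _ hxD.1 (hx1 x hxD)
      refine ⟨0, -2 * s * ρ⁻¹ * (√y)⁻¹, le_rfl, ?_, ?_, 1, one_pos, ?_⟩
      · have : 0 ≤ -2 * s := by linarith
        positivity
      · rw [coS'_one, zero_mul, zero_add]
        have h3 : 0 ≤ -2 * s * ρ⁻¹ := by
          have : 0 ≤ -2 * s := by linarith
          positivity
        calc -2 * s * ρ⁻¹ = -2 * s * ρ⁻¹ * ((√y)⁻¹ * √y) := by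
              rw [inv_mul_cancel₀ hsq.ne', mul_one]
          _ ≤ -2 * s * ρ⁻¹ * ((√y)⁻¹ * V) :=
              mul_le_mul_of_nonneg_left (mul_le_mul_of_nonneg_left hVs (by positivity)) h3
          _ = _ := by ring
      · filter_upwards [hP] with o ho h3 h4
        rw [coS'_two]
        have h5 := ho _ _ K (by positivity) hK hyg
        have e2 : (0 + -2 * s * ρ⁻¹ * (√y)⁻¹ * opn C v o) ^ 2 =
            4 * (s ^ 2 * (ρ ^ 2)⁻¹) * (opn C v o ^ 2 * (1 / y)) := by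
          have e3 : ((√y)⁻¹) ^ 2 = 1 / y := by
            rw [inv_pow, Real.sq_sqrt hyp.le, one_div]
          have e4 : (0 + -2 * s * ρ⁻¹ * (√y)⁻¹ * opn C v o) ^ 2 =
            4 * (s ^ 2 * (ρ⁻¹) ^ 2) * (opn C v o ^ 2 * ((√y)⁻¹) ^ 2) := by ring
          rw [e4, e3, inv_pow]
        rw [e2]
        have h6 : 4 * (s ^ 2 * (ρ ^ 2)⁻¹) * (opn C v o ^ 2 * (1 / y)) ≤
            4 * (s ^ 2 * (ρ ^ 2)⁻¹) * (j o * g (x 3 - Φ) + K * f o) :=
          mul_le_mul_of_nonneg_left h5 (by positivity)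
        have h7 : 0 ≤ 2 * t * δ⁻¹ * (-|χ (C.pt o)| - s) := mul_nonneg (by positivity) (by linarith)
        refine h6.trans ?_
        change _ ≤ 4 * 1 * (0 - -(s ^ 2 * (ρ ^ 2)⁻¹ * (j o * g (x 3 - Φ) + K * f o)) + _)
        nlinarith)
  -- conclusion
  set A : Set Om := {o | -t ≤ -|χ (C.pt o)| ∧ -|χ (C.pt o)| < 0} with hA
  set B : Set Om := {o | |χ (C.pt o)| < t} with hB
  have mA : NullMeasurableSet A C.μ := by
    have h1 := (hmeas 0).diff (hmeas (-t))
    have h2 : A = {o | -|χ (C.pt o)| < 0} \ {o | -|χ (C.pt o)| < -t} := by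
      ext o
      simp only [hA, mem_ofPred_eq, Set.mem_sdiff, not_lt]
      exact and_comm
    rw [h2]
    exact h1
  have mB : NullMeasurableSet B C.μ := meas_pt_lt C (lip_abs hχ) t
  have iG : Integrable (fun o => gn C χ o ^ 2) C.μ := int_gn_sq C hχ
  have hAB : ∫ o in A, gn C χ o ^ 2 ∂C.μ ≤ ∫ o in B, gn C χ o ^ 2 ∂C.μ := by
    rw [← integral_indicator₀ mA, ← integral_indicator₀ mB]
    refine integral_mono_ae (iG.indicator₀ mA) (iG.indicator₀ mB) ?_
    filter_upwards [grad_level C (lip_abs hχ) t, gn_abs C hχ] with o ho ha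
    by_cases hB' : o ∈ B
    · rw [indicator_of_mem hB']
      exact indicator_le_self' (fun _ _ => by positivity) o
    · by_cases hA' : o ∈ A
      · have h1 : |χ (C.pt o)| = t := by
          have h2 : ¬ |χ (C.pt o)| < t := hB'
          have h3 := hA'.1
          linarith [not_lt.1 h2]
        have h3 : gn C χ o = 0 := by
          rw [← ha]
          unfold gn
          rw [(ho h1).1, (ho h1).2]
          simp
        rw [indicator_of_mem hA', indicator_of_notMem hB', h3]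
        simp
      · rw [indicator_of_notMem hA', indicator_of_notMem hB']
  have hQ : ∫ o in A, (0 + 1 * gn C χ o ^ 2) ∂C.μ = ∫ o in A, gn C χ o ^ 2 ∂C.μ := by
    refine integral_congr_ae (ae_of_all _ fun o => ?_)
    change 0 + 1 * gn C χ o ^ 2 = _
    ring
  rw [hQ] at hmain
  set r := G (supw C χ j t - Φ) + K * (X - supw C χ f t) + δ with hr
  have hr1 : coR G K X Φ δ (fun i => nlev C χ (γs i) (-t)) = r := by
    have e1 : nlev C χ (γs 3) (-t) = supw C χ j t := by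
      rw [nlev_supw, neg_neg]
      rfl
    have e2 : nlev C χ (γs 2) (-t) = supw C χ f t := by
      rw [nlev_supw, neg_neg]
      rfl
    unfold coR
    change G (nlev C χ (γs 3) (-t) - Φ) + K * (X - nlev C χ (γs 2) (-t)) + δ = r
    rw [e1, e2]
  have hrp : 0 < r := by
    rw [← hr1]
    exact lt_of_lt_of_le hδ (hRpos _ (hFD (-t) le_rfl (by linarith)))
  refine ⟨hrp, ?_⟩
  unfold coS at hmain
  rw [hr1] at hmain
  have h1 : t ^ 2 * r⁻¹ ≤ ∫ o in B, gn C χ o ^ 2 ∂C.μ := by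
    refine le_trans (le_of_eq ?_) (hmain.trans hAB)
    ring
  rw [← div_eq_mul_inv, div_le_iff₀ hrp] at h1
  linarith

/-- data for the outer part with core accounts; `y` is the charge `f` of the set at the crossing level -/
def OutC (X α₀ Y Rm y : ℝ) : Prop :=
  ∃ (K : ℝ) (G gg : ℝ → ℝ), 0 < K ∧
    (∀ α, α₀ - (X + y) / 2 ≤ α → α ≤ 2 * Real.pi + X → HasDerivAt G (-gg α) α) ∧
    (∀ α, α₀ - (X + y) / 2 ≤ α → α ≤ 2 * Real.pi + X →
      1 / (α * (4 * Real.pi - α)) ≤ gg α - gg α ^ 2 / (2 * K)) ∧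
    (∀ α, α₀ - (X + y) / 2 ≤ α → α ≤ 2 * Real.pi + X →
      1 / (4 * Real.pi ^ 2 - Y ^ 2) ≤ gg α - gg α ^ 2 / (2 * K)) ∧
    (∀ z, 0 ≤ z → z ≤ X → 0 ≤ G (2 * Real.pi + z) + K * z) ∧
    G (α₀ - y) + K * (X - y) ≤ Rm

/-- **the outer part at a crossing level, core accounts** -/
theorem comp_outC [CompactSpace M] (C : Calc M γ) (hγ : Bd γ) (hR : RegAE C) {v : Fin 3 → M → ℝ}
    (hv : Sph γ v) (hJ : ∫ o, jac C v o ∂C.μ = 2 * Real.pi) {κ ε : ℝ} (hI : IsopO C κ ε)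
    {j f : Om → ℝ} (hj : Integrable j C.μ) (hf : Integrable f C.μ) (f0 : ∀ᵐ o ∂C.μ, 0 ≤ f o)
    (hP : PtI C v j f) (hjJ : ∀ᵐ o ∂C.μ, jac C v o ≤ j o) {X Φ Y : ℝ}
    (jΦ : ∫ o, j o ∂C.μ ≤ 2 * Real.pi + Φ) (fX : ∫ o, f o ∂C.μ ≤ X)
    (νY : ∫ o, nuC C v o ∂C.μ ≤ 2 * Y) (hY : Y < 2 * Real.pi) (hX : X < 2 * Real.pi)
    {a₁ α₀ Rm : ℝ} (hα₀ : X < α₀) (hRm : 0 < Rm)
    (hN : ∀ y, 0 ≤ y → y ≤ X → OutC X α₀ Y Rm y)
    (hα : ∀ g : M → ℝ, Lip g → ∀ s, 0 ≤ s → a₁ ≤ supa C g s →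
      α₀ - supw C g f s ≤ supw C g j s - Φ) : OutA C a₁ Rm := by
  intro χ hχ oχ t ht hc
  have := C.fin
  have hpi := Real.pi_pos
  have hf0 : ∀ s, 0 ≤ supw C χ f s := fun s => setIntegral_nonneg_of_ae f0
  have hfX : ∀ s, supw C χ f s ≤ X := fun s => (setIntegral_le_integral hf f0).trans fX
  have hX0 : 0 ≤ X := (hf0 0).trans (hfX 0)
  have iG := int_gn_sq C hχ
  set E := ∫ o in {o | |χ (C.pt o)| < t}, gn C χ o ^ 2 ∂C.μ with hE
  have hE0 : 0 ≤ E := integral_nonneg fun o => by positivity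
  -- the account falls at most by half of the charge
  have hdrop : ∀ s' s, s' ≤ s → supw C χ j s - (supw C χ f s' - supw C χ f s) / 2 ≤
      supw C χ j s' := by
    intro s' s hs
    have i1 : Integrable (fun o => j o + f o / 2) C.μ := hj.add (hf.div_const 2)
    have h1 : ∫ o in {o | s < |χ (C.pt o)|}, (j o + f o / 2) ∂C.μ ≤
        ∫ o in {o | s' < |χ (C.pt o)|}, (j o + f o / 2) ∂C.μ := by
      refine setIntegral_mono_set i1.integrableOn (ae_restrict_of_ae ?_) ?_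
      · filter_upwards [hP.half f0] with o h2
        change 0 ≤ j o + f o / 2
        linarith
      · exact LE.le.eventuallyLE fun o ho => hs.trans_lt ho
    rw [integral_add hj.integrableOn (hf.div_const 2).integrableOn,
      integral_add hj.integrableOn (hf.div_const 2).integrableOn, integral_div, integral_div] at h1
    unfold supw
    linarith
  have hsum : ∀ s, supw C χ j s - Φ ≤ 2 * Real.pi + X := by
    intro s
    have q1 := integral_add_compl₀ (meas_abs_lt C hχ s) hj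
    have q2 := integral_add_compl₀ (meas_abs_lt C hχ s) hf
    have q3 : ∫ o in {o | s < |χ (C.pt o)|}ᶜ, -j o ∂C.μ ≤
        ∫ o in {o | s < |χ (C.pt o)|}ᶜ, f o ∂C.μ := by
      refine setIntegral_mono_ae hj.neg.integrableOn hf.integrableOn ?_
      filter_upwards [hP.neg f0] with o h4
      linarith
    rw [integral_neg] at q3
    have q4 := hf0 s
    unfold supw at q4 ⊢
    linarith
  have hlow : ∀ s, 0 ≤ s → s < t → s ^ 2 ≤ Rm * E := by
    intro s hs hst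
    set y := supw C χ f s with hy
    obtain ⟨K, G, gg, hK, hG, hgg, hgY, hG0, hRy⟩ := hN y (hf0 s) (hfX s)
    have hyX : y ≤ X := hfX s
    have hy0 : 0 ≤ y := hf0 s
    have ha := hc s hs hst
    have h1 := hα χ hχ s hs ha
    have hA1 : 0 < α₀ - (X + y) / 2 := by linarith
    have hgpos : ∀ α, α₀ - (X + y) / 2 ≤ α → α ≤ 2 * Real.pi + X → 0 ≤ gg α := by
      intro α h2 h3
      have h4 : 0 < 1 / (α * (4 * Real.pi - α)) := by
        have : 0 < α := by linarith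
        have : 0 < 4 * Real.pi - α := by linarith
        positivity
      have h5 := hgg α h2 h3
      have h6 : 0 ≤ gg α ^ 2 / (2 * K) := by positivity
      linarith
    have hanti := anti_of hG hgpos
    have key : ∀ d : ℝ, 0 < d → s ^ 2 ≤ (Rm + d) * E := by
      intro d hd
      obtain ⟨h2, h3⟩ := core_robin C hγ hR hv hJ hI hj hf f0 hP hjJ jΦ fX νY hY hK hA1 hX hG hgg hgY
        hG0 hd hχ oχ hs (fun s' h4 h5 => by
          have h6 := hdrop s' s h5
          have h7 := hfX s'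
          linarith)
      have h4 := hsum s
      have h5 : G (supw C χ j s - Φ) ≤ G (α₀ - y) :=
        hanti _ _ (by linarith) h1 h4
      set r := G (supw C χ j s - Φ) + K * (X - supw C χ f s) + d with hr
      have h6 : r ≤ Rm + d := by
        rw [hr, ← hy]
        linarith
      have h7 : ∫ o in {o | |χ (C.pt o)| < s}, gn C χ o ^ 2 ∂C.μ ≤ E := by
        refine setIntegral_mono_set iG.integrableOn (ae_of_all _ fun o => by positivity) ?_
        exact LE.le.eventuallyLE fun o ho => (show |χ (C.pt o)| < s from ho).trans hst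
      have h8 : 0 ≤ ∫ o in {o | |χ (C.pt o)| < s}, gn C χ o ^ 2 ∂C.μ :=
        integral_nonneg fun o => by positivity
      calc s ^ 2 ≤ r * ∫ o in {o | |χ (C.pt o)| < s}, gn C χ o ^ 2 ∂C.μ := h3
        _ ≤ (Rm + d) * ∫ o in {o | |χ (C.pt o)| < s}, gn C χ o ^ 2 ∂C.μ :=
            mul_le_mul_of_nonneg_right h6 h8
        _ ≤ (Rm + d) * E := mul_le_mul_of_nonneg_left h7 (by linarith)
    have hlim : Tendsto (fun d : ℝ => (Rm + d) * E) (𝓝[>] 0) (𝓝 ((Rm + 0) * E)) := by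
      have hcn : Continuous fun d : ℝ => (Rm + d) * E := by fun_prop
      exact (hcn.tendsto 0).mono_left nhdsWithin_le_nhds
    have h2 := ge_of_tendsto hlim (b := s ^ 2) (by
      filter_upwards [self_mem_nhdsWithin] with d hd
      exact key d hd)
    rwa [add_zero] at h2
  rcases ht.eq_or_lt with h0 | h0
  · rw [← h0]
    have : 0 ≤ Rm * E := mul_nonneg hRm.le hE0
    simpa using this
  · have hlim : Tendsto (fun s : ℝ => s ^ 2) (𝓝[<] t) (𝓝 (t ^ 2)) :=
      ((continuous_pow 2).tendsto t).mono_left nhdsWithin_le_nhds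
    refine le_of_tendsto hlim ?_
    filter_upwards [Ioo_mem_nhdsLT h0] with s hs
    exact hlow s hs.1.le hs.2

end Pool.Agent.FPX
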