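import Mathlib
import Pool.Agent.FPX.FOC
import Pool.Agent.FPX.VDB

/-
FOE (helper99, idea of helper6): the accounts of a core zone `E`: `j = |dv|²` in `E`, `j = J` outside,
`f = ν` outside `E`.
-/

open MeasureTheory Set Filter Topology
open scoped ENNReal NNReal

noncomputable section

namespace Pool.Agent.FPX

open Pool.Agent.EWD Pool.Agent.FPM

variable {M : Type} [MetricSpace M] {γ : ℝ → M}

private theorem foe_qp_cont {X : Type} [TopologicalSpace X] {f g h : X → E3} (hf : Continuous f)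
    (hg : Continuous g) (hh : Continuous h) : Continuous fun x => qp (f x) (g x) (h x) := by
  have h1 := prj_cont hf hg
  have h2 : Continuous fun x => crs (f x) (h x) :=
    crs_cont.comp (f := fun x => (f x, h x)) (hf.prodMk hh)
  unfold qp
  fun_prop

/-- the excess of the square of the norm over the Jacobian -/
def exo (C : Calc M γ) (v : Fin 3 → M → ℝ) (o : Om) : ℝ := opn C v o ^ 2 - jac C v o

theorem opn_sq_int [CompactSpace M] (C : Calc M γ) {v : Fin 3 → M → ℝ} (hv : ∀ k, Lip (v k)) :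
    Integrable (fun o => opn C v o ^ 2) C.μ := by
  refine integrable_cont6 C hv hv
    (Ψ := fun q => (‖qp q.1 q.2.1 q.2.2.1‖ + ‖qm q.1 q.2.1 q.2.2.1‖) ^ 2) ?_
  have h := qm_cont (f := fun q : E3 × E3 × E3 × E3 × E3 × E3 => q.1) (g := fun q => q.2.1)
    (h := fun q => q.2.2.1) (by fun_prop) (by fun_prop) (by fun_prop)
  have h' := foe_qp_cont (f := fun q : E3 × E3 × E3 × E3 × E3 × E3 => q.1) (g := fun q => q.2.1)
    (h := fun q => q.2.2.1) (by fun_prop) (by fun_prop) (by fun_prop)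
  fun_prop

/-- `opn² - J = ν + 2 |qp| |qm|` -/
theorem exo_eq (C : Calc M γ) {v : Fin 3 → M → ℝ} (hv : Sph γ v) : ∀ᵐ o ∂C.μ,
    exo C v o = nuC C v o + 2 * (‖qp (at' C v o) (dx C v o) (dy C v o)‖ *
      ‖qm (at' C v o) (dx C v o) (dy C v o)‖) := by
  filter_upwards [ae_perp C hv] with o ho
  have h2 := jac_pm (norm_at (C := C) hv o) ho.1 ho.2
  unfold exo opn nuC nuv jac
  rw [h2]
  ring

theorem exo_int [CompactSpace M] (C : Calc M γ) {v : Fin 3 → M → ℝ} (hv : Sph γ v) :
    Integrable (exo C v) C.μ := (opn_sq_int C hv.lip).sub (jac_integrable C hv)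

theorem nu_le_exo (C : Calc M γ) {v : Fin 3 → M → ℝ} (hv : Sph γ v) :
    ∀ᵐ o ∂C.μ, nuC C v o ≤ exo C v o := by
  filter_upwards [exo_eq C hv] with o ho
  rw [ho]
  have : 0 ≤ ‖qp (at' C v o) (dx C v o) (dy C v o)‖ * ‖qm (at' C v o) (dx C v o) (dy C v o)‖ := by
    positivity
  linarith

/-- the image account -/
def coj (C : Calc M γ) (v : Fin 3 → M → ℝ) (E : Set Om) (o : Om) : ℝ :=
  jac C v o + E.indicator (exo C v) o

/-- the charge account -/
def cof (C : Calc M γ) (v : Fin 3 → M → ℝ) (E : Set Om) (o : Om) : ℝ := Eᶜ.indicator (nuC C v) o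

theorem cof_nonneg (C : Calc M γ) (v : Fin 3 → M → ℝ) (E : Set Om) (o : Om) : 0 ≤ cof C v E o :=
  indicator_nonneg (fun _ _ => nuv_nonneg _ _ _) o

theorem cof_int [CompactSpace M] (C : Calc M γ) {v : Fin 3 → M → ℝ} (hv : Sph γ v) {E : Set Om}
    (hE : NullMeasurableSet E C.μ) : Integrable (cof C v E) C.μ :=
  (nuC_cint C hv.lip continuous_id).indicator₀ hE.compl

theorem coj_int [CompactSpace M] (C : Calc M γ) {v : Fin 3 → M → ℝ} (hv : Sph γ v) {E : Set Om}
    (hE : NullMeasurableSet E C.μ) : Integrable (coj C v E) C.μ :=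
  (jac_integrable C hv).add ((exo_int C hv).indicator₀ hE)

theorem jac_le_coj (C : Calc M γ) {v : Fin 3 → M → ℝ} (hv : Sph γ v) (E : Set Om) :
    ∀ᵐ o ∂C.μ, jac C v o ≤ coj C v E o := by
  filter_upwards [nu_le_exo C hv] with o ho
  have h0 : 0 ≤ nuC C v o := nuv_nonneg _ _ _
  unfold coj
  by_cases h : o ∈ E
  · rw [indicator_of_mem h]
    linarith
  · rw [indicator_of_notMem h]
    linarith

/-- the pointwise inequality -/
theorem coj_PtI (C : Calc M γ) {v : Fin 3 → M → ℝ} (hv : Sph γ v) (E : Set Om) :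
    PtI C v (coj C v E) (cof C v E) := by
  filter_upwards [imc_ae C hv] with o ho h g K hh hK hg
  have g0 : h ≤ g := by
    have : 0 ≤ g ^ 2 / (2 * K) := by positivity
    linarith
  unfold coj cof
  by_cases hE : o ∈ E
  · rw [indicator_of_mem hE, indicator_of_notMem (by simpa using hE)]
    unfold exo
    have h1 : opn C v o ^ 2 * h ≤ opn C v o ^ 2 * g := mul_le_mul_of_nonneg_left g0 (sq_nonneg _)
    linarith
  · rw [indicator_of_notMem hE, indicator_of_mem (by simpa using hE), add_zero]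
    exact ho h g K hh hK hg

theorem coj_total [CompactSpace M] (C : Calc M γ) {v : Fin 3 → M → ℝ} (hv : Sph γ v)
    (deg : ∫ o, jac C v o ∂C.μ = 2 * Real.pi) {E : Set Om} (hE : NullMeasurableSet E C.μ) :
    ∫ o, coj C v E o ∂C.μ = 2 * Real.pi + ∫ o in E, exo C v o ∂C.μ := by
  unfold coj
  rw [integral_add (jac_integrable C hv) ((exo_int C hv).indicator₀ hE), deg, integral_indicator₀ hE]

/-- the account of a set in terms of the image -/
theorem coj_ge [CompactSpace M] (C : Calc M γ) {v : Fin 3 → M → ℝ} (hv : Sph γ v) {E : Set Om}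
    (hE : NullMeasurableSet E C.μ) (g : M → ℝ) (s : ℝ) :
    supw C g (jac C v) s + supw C g (fun o => ac1 (nuC C v o)) s ≤
      supw C g (coj C v E) s + supw C g (cof C v E) s := by
  have iJ := jac_integrable C hv
  have iN : Integrable (nuC C v) C.μ := nuC_cint C hv.lip continuous_id
  have iA : Integrable (fun o => ac1 (nuC C v o)) C.μ :=
    ac1_int iN (ae_of_all _ fun o => nuv_nonneg _ _ _)
  unfold supw
  rw [← integral_add iJ.integrableOn iA.integrableOn,
    ← integral_add (coj_int C hv hE).integrableOn (cof_int C hv hE).integrableOn]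
  refine setIntegral_mono_ae (iJ.add iA).integrableOn ((coj_int C hv hE).add (cof_int C hv hE)).integrableOn
    ?_
  filter_upwards [nu_le_exo C hv] with o ho
  have h1 : ac1 (nuC C v o) ≤ nuC C v o := ac1_le _
  change jac C v o + ac1 (nuC C v o) ≤ coj C v E o + cof C v E o
  unfold coj cof
  by_cases h : o ∈ E
  · rw [indicator_of_mem h, indicator_of_notMem (by simpa using h)]
    linarith
  · rw [indicator_of_notMem h, indicator_of_mem (by simpa using h)]
    linarith

/-- **the outer resistance with a core zone** -/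
theorem outA_core [CompactSpace M] (C : Calc M γ) (hγ : Bd γ) (hR : RegAE C) {v : Fin 3 → M → ℝ}
    (hv : Sph γ v) (deg : ∫ o, jac C v o ∂C.μ = 2 * Real.pi) {κ ε : ℝ} (hI : IsopO C κ ε)
    {B a₁ D : ℝ} (hB : ∫ o, PE (enb (dx C v o) (dy C v o)) ∂C.μ ≤ B) (hBa : B ≤ a₁)
    (hD : 2 * √(a₁ * B) ≤ D) {E : Set Om} (hE : NullMeasurableSet E C.μ) {X Y α₀ Rm : ℝ}
    (fX : ∫ o in Eᶜ, nuC C v o ∂C.μ ≤ X) (νY : ∫ o, nuC C v o ∂C.μ ≤ 2 * Y) (hY : Y < 2 * Real.pi)
    (hX : X < 2 * Real.pi) (hα₀ : X < α₀) (hRm : 0 < Rm) (hΦ : α₀ ≤ a₁ - D - ∫ o in E, exo C v o ∂C.μ)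
    (hN : ∀ y, 0 ≤ y → y ≤ X → OutC X α₀ Y Rm y) : OutA C a₁ Rm := by
  have iN : Integrable (nuC C v) C.μ := nuC_cint C hv.lip continuous_id
  refine comp_outC C hγ hR hv deg hI (coj_int C hv hE) (cof_int C hv hE)
    (ae_of_all _ (cof_nonneg C v E)) (coj_PtI C hv E) (jac_le_coj C hv E)
    (Φ := ∫ o in E, exo C v o ∂C.μ) (coj_total C hv deg hE).le ?_ νY hY hX hα₀ hRm hN ?_
  · unfold cof
    rw [integral_indicator₀ hE.compl]
    exact fX
  · intro g _ s _ hs
    have h1 := vdp_ac C hv hB hBa hD iN (ae_of_all _ fun o => le_rfl) g s hs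
    have h2 := coj_ge C hv hE g s
    linarith

end Pool.Agent.FPX
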