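import Mathlib
import Pool.Agent.FPX.FOD

/-
FOG (helper99): computable definitions for the far part with a core zone (leaf module).
-/

namespace Pool.Agent.FPX.FOD

/-- lower bound of `1 / (α (4π - α))` -/
def hlo : ℚ := 1 / (4 * 3.141593 ^ 2)

/-- lower bound of the function `g` of a row -/
def glo (r : Row) : ℚ := hlo + r.c1 * hlo ^ 2 + r.c2 * hlo ^ 3

/-- the condition for the range near `2π` -/
def rowY (Y : ℚ) (r : Row) : Bool :=
  decide (0 ≤ Y ∧ Y ≤ 3 ∧ 1 ≤ (glo r - glo r ^ 2 / (2 * r.K)) * (4 * 3.141592 ^ 2 - Y ^ 2))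

def rowsY (Y : ℚ) (l : List Row) : Bool := l.all (rowY Y)

/-- the conditions of an entry with core zone; `d.D` is the total shift -/
def farOkC (κ X Y a₁ : ℚ) (d : Far) : Bool := farOk κ X a₁ d && rowsY Y d.rows

/-- the linear lower bound `q a₁ ≥ kz - sl s`, `s ≤ S` the shift beyond `m₁`; entries with increasing shift -/
def linOk (κ X Y a₁ m₁ kz sl S : ℚ) : ℚ → List Far → Bool
  | s, [] => decide (S ≤ s)
  | s, d :: l => farOkC κ X Y a₁ d && decide (kz - sl * s ≤ κ * d.z) &&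
      linOk κ X Y a₁ m₁ kz sl S (d.D - m₁) l

/-- one cell: `m ∈ [m₀, m₁]` is the charge of the core zone, `X₀` the bound of the total charge, the bound
`q a₁ ≥ kz - sl (D + Z)` for `D + Z ≤ S` -/
structure LinC where
  m₀ : ℚ
  m₁ : ℚ
  kz : ℚ
  sl : ℚ
  S : ℚ
  ents : List Far

def linCOk (κ X₀ a₁ : ℚ) (c : LinC) : Bool :=
  decide (0 ≤ c.m₀ ∧ c.m₀ ≤ c.m₁ ∧ c.m₁ ≤ X₀ ∧ 0 < a₁ ∧ 0 ≤ c.sl ∧ 0 < κ) &&
    linOk κ (X₀ - c.m₀) (X₀ / 2) a₁ c.m₁ c.kz c.sl c.S 0 c.ents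

end Pool.Agent.FPX.FOD
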