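import Mathlib
import Pool.Agent.FPX.FOE
import Pool.Agent.FPX.FOG
import Pool.Agent.FPX.FON

/-
FOH (helper99): the far part with a core zone in numbers.
-/

open MeasureTheory Set Filter Topology
open scoped ENNReal NNReal

noncomputable section

namespace Pool.Agent.FPX

open Pool.Agent.EWD Pool.Agent.FPM Pool.Agent.FPX.VTB Pool.Agent.FPX.FOD

variable {M : Type} [MetricSpace M] {γ : ℝ → M}

theorem outC_row {X Y a Rm : ℚ} {r : FOD.Row} (h : rowOk X a Rm r = true) (hY : rowY Y r = true) {y : ℝ}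
    (h0 : (r.w0 : ℝ) ≤ y) (h1 : y ≤ r.w1) : OutC X a Y Rm y := by
  obtain ⟨k1, c1, c2, k2, k3, k4, k5, k6⟩ := row_facts h h0 h1
  obtain ⟨y0, y3, y1⟩ := of_decide_eq_true hY
  have hpi := Real.pi_pos
  have p1 : (3.141592 : ℝ) < Real.pi := Real.pi_gt_d6
  have p2 : Real.pi < (3.141593 : ℝ) := Real.pi_lt_d6
  have r0 : (0 : ℝ) ≤ Y := by exact_mod_cast y0
  have r3 : (Y : ℝ) ≤ 3 := by exact_mod_cast y3
  have r1 : (1 : ℝ) ≤ ((glo r : ℝ) - glo r ^ 2 / (2 * r.K)) * (4 * 3.141592 ^ 2 - Y ^ 2) := by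
    have : ((1 : ℚ) : ℝ) ≤ (((glo r - glo r ^ 2 / (2 * r.K)) * (4 * 3.141592 ^ 2 - Y ^ 2) : ℚ) : ℝ) := by
      exact_mod_cast y1
    push_cast at this
    exact this
  refine ⟨r.K, rowG r, rowg r, k1, k2, k3, fun α h2 h3 => ?_, k4, k5⟩
  obtain ⟨a0, a1, hgK⟩ := k6 α h2 h3
  have hlo0 : (0 : ℝ) < hlo := by
    unfold hlo
    push_cast
    norm_num
  have hh : (hlo : ℝ) ≤ imh0 α := by
    unfold hlo imh0
    push_cast
    have e1 : 0 < α * (4 * Real.pi - α) := mul_pos a0 (by linarith)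
    have e2 : α * (4 * Real.pi - α) ≤ 4 * 3.141593 ^ 2 := by
      have e3 : α * (4 * Real.pi - α) ≤ 4 * Real.pi ^ 2 := by nlinarith [sq_nonneg (α - 2 * Real.pi)]
      have e4 : Real.pi ^ 2 ≤ (3.141593 : ℝ) ^ 2 := pow_le_pow_left₀ hpi.le p2.le 2
      linarith
    exact one_div_le_one_div_of_le e1 e2
  have hg : (glo r : ℝ) ≤ rowg r α := by
    unfold glo rowg
    push_cast
    have m2 : (hlo : ℝ) ^ 2 ≤ imh0 α ^ 2 := pow_le_pow_left₀ hlo0.le hh 2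
    have m3 : (hlo : ℝ) ^ 3 ≤ imh0 α ^ 3 := pow_le_pow_left₀ hlo0.le hh 3
    have n2 := mul_le_mul_of_nonneg_left m2 c1
    have n3 := mul_le_mul_of_nonneg_left m3 c2
    linarith
  have hg0 : (0 : ℝ) < glo r := by
    unfold glo
    push_cast
    positivity
  have hmono : (glo r : ℝ) - glo r ^ 2 / (2 * r.K) ≤ rowg r α - rowg r α ^ 2 / (2 * r.K) := by
    have e1 : (rowg r α - rowg r α ^ 2 / (2 * r.K)) - ((glo r : ℝ) - glo r ^ 2 / (2 * r.K)) =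
        (rowg r α - glo r) * (2 * r.K - rowg r α - glo r) / (2 * r.K) := by
      field_simp
      ring
    have e2 : 0 ≤ (rowg r α - glo r) * (2 * r.K - rowg r α - glo r) / (2 * r.K) := by
      have : 0 ≤ rowg r α - glo r := by linarith
      have : 0 ≤ 2 * (r.K : ℝ) - rowg r α - glo r := by linarith
      positivity
    linarith
  refine le_trans ?_ hmono
  have s1 : (3.141592 : ℝ) ^ 2 ≤ Real.pi ^ 2 := pow_le_pow_left₀ (by norm_num) p1.le 2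
  have s2 : (0 : ℝ) < 4 * 3.141592 ^ 2 - Y ^ 2 := by nlinarith
  have s3 : (0 : ℝ) < 4 * Real.pi ^ 2 - Y ^ 2 := by linarith
  rw [div_le_iff₀ s3]
  have s4 : 0 ≤ (glo r : ℝ) - glo r ^ 2 / (2 * r.K) := by
    by_contra hc
    push Not at hc
    have : ((glo r : ℝ) - glo r ^ 2 / (2 * r.K)) * (4 * 3.141592 ^ 2 - Y ^ 2) < 0 :=
      mul_neg_of_neg_of_pos hc s2
    linarith
  calc (1 : ℝ) ≤ ((glo r : ℝ) - glo r ^ 2 / (2 * r.K)) * (4 * 3.141592 ^ 2 - Y ^ 2) := r1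
    _ ≤ ((glo r : ℝ) - glo r ^ 2 / (2 * r.K)) * (4 * Real.pi ^ 2 - Y ^ 2) :=
      mul_le_mul_of_nonneg_left (by linarith) s4

theorem outC_cover {X Y a Rm : ℚ} : ∀ {l : List FOD.Row} {p : ℚ}, cover X a Rm p l = true →
    rowsY Y l = true → ∀ y : ℝ, (p : ℝ) ≤ y → y ≤ X → OutC X a Y Rm y
  | [], p, h, _, y, h0, h1 => by
    have h2 : X < p := of_decide_eq_true h
    have h3 : (X : ℝ) < p := by exact_mod_cast h2
    linarith
  | r :: l, p, h, hY, y, h0, h1 => by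
    simp only [cover, Bool.and_eq_true, Bool.or_eq_true, decide_eq_true_eq] at h
    simp only [rowsY, List.all_cons, Bool.and_eq_true] at hY
    obtain ⟨⟨k1, k2⟩, k3⟩ := h
    have k4 : (r.w0 : ℝ) ≤ p := by exact_mod_cast k1
    rcases le_or_gt y r.w1 with h2 | h2
    · exact outC_row k2 hY.1 (k4.trans h0) h2
    · rcases k3 with k5 | k5
      · have k6 : (X : ℝ) ≤ r.w1 := by exact_mod_cast k5
        linarith
      · exact outC_cover k5 (by simpa only [rowsY] using hY.2) y h2.le h1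

theorem outC_of {X Y a Rm : ℚ} {l : List FOD.Row} (h : ouOk X a Rm l = true) (hY : rowsY Y l = true) :
    (0 : ℝ) < Rm ∧ (X : ℝ) < a ∧ ∀ y : ℝ, 0 ≤ y → y ≤ X → OutC X a Y Rm y := by
  simp only [ouOk, Bool.and_eq_true, decide_eq_true_eq] at h
  obtain ⟨⟨h1, h2⟩, h3⟩ := h
  refine ⟨by exact_mod_cast h1, by exact_mod_cast h2, fun y h0 hX => outC_cover h3 hY y ?_ hX⟩
  push_cast
  exact h0

/-- smaller coefficients -/
theorem HFar.mono {C : Calc M γ} {a₁ q q' ε : ℝ} (h : HFar C a₁ q ε) (h0 : 0 ≤ q') (h1 : q' ≤ q) :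
    HFar C a₁ q' ε := by
  intro η hη oη t ht θ iθ θ0 θ1 hθ
  rcases h0.eq_or_lt with h2 | h2
  · rw [← h2]
    have := HFar.zero C a₁ ε η hη oη t ht θ iθ θ0 θ1 hθ
    exact this
  · have hq : 0 < q := h2.trans_le h1
    have key := h η hη oη t ht θ iθ θ0 θ1 hθ
    have hG : 0 ≤ ∫ o, Gη C (utr t η) o ∂C.μ := integral_nonneg fun o => by
      change 0 ≤ Gη C (utr t η) o
      unfold Gη
      positivity
    set I := ∫ o, min (umod η (C.pt o)) t ^ 2 * θ o ∂C.μ with hI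
    set J := ∫ o, Gη C (utr t η) o ∂C.μ with hJ
    have hr0 : 0 ≤ q' / q := by positivity
    have hr1 : q' / q ≤ 1 := (div_le_one hq).2 h1
    have e1 : q' / q * (q * I) = q' * I := by field_simp
    have e2 : q' / q * (J + 3 * q * ε * t ^ 2) = q' / q * J + 3 * q' * ε * t ^ 2 := by field_simp
    have h3 := mul_le_mul_of_nonneg_left key hr0
    rw [e1, e2] at h3
    have h4 : q' / q * J ≤ 1 * J := mul_le_mul_of_nonneg_right hr1 hG
    linarith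

/-- **the far part with a core zone**, one entry: the shift `D + ∫_E (opn² - J)` is at most `d.D` -/
theorem hfarC_pe [CompactSpace M] (C : Calc M γ) (hγ : Bd γ) (hR : RegAE C)
    {v : Fin 3 → M → ℝ} (hv : Sph γ v) (deg : ∫ o, jac C v o ∂C.μ = 2 * Real.pi) {κ X Y a₁ : ℚ}
    {E : Set Om} (hE : NullMeasurableSet E C.μ) (fX : ∫ o in Eᶜ, nuC C v o ∂C.μ ≤ X)
    (νY : ∫ o, nuC C v o ∂C.μ ≤ 2 * Y) (hY3 : Y ≤ 3)
    {B D : ℝ} (hB : ∫ o, PE (enb (dx C v o) (dy C v o)) ∂C.μ ≤ B) (hBa : B ≤ a₁)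
    (hBD : 2 * √((a₁ : ℝ) * B) ≤ D) {d : Far} (hd : farOkC κ X Y a₁ d = true)
    (hD : D + ∫ o in E, exo C v o ∂C.μ ≤ d.D) {ε : ℝ} (hI : IsopO C κ ε) (hε : 0 ≤ ε) :
    HFar C a₁ (κ * d.z / a₁) ε := by
  simp only [farOkC, farOk, Bool.and_eq_true, decide_eq_true_eq] at hd
  obtain ⟨⟨⟨k1, k2, k3, k4, k4', k5, k6, k7⟩, k8⟩, k9⟩ := hd
  obtain ⟨o1, o2, o3⟩ := outC_of k8 k9
  push_cast at o2 o3
  have p1 : (3.141592 : ℝ) < Real.pi := Real.pi_gt_d6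
  have r1 : (0 : ℝ) < κ := by exact_mod_cast k1
  have r2 : (0 : ℝ) < a₁ := by exact_mod_cast k2
  have r5 : (0 : ℝ) < d.z := by exact_mod_cast k5
  have r3 : (X : ℝ) < 2 * Real.pi := by
    have h1 : (X : ℝ) ≤ 157 / 25 := by
      have : ((157 / 25 : ℚ) : ℝ) = 157 / 25 := by push_cast; ring
      rw [← this]
      exact_mod_cast k3
    linarith
  have rY : (Y : ℝ) < 2 * Real.pi := by
    have : (Y : ℝ) ≤ 3 := by exact_mod_cast hY3
    linarith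
  have r6 : 0 < phJ d.z := by
    rw [← phQ_cast]
    exact_mod_cast k6
  have r7 : (κ : ℝ) * FJ d.z * d.Rm ≤ 1 := by
    rw [← FQ_cast]
    exact_mod_cast k7
  have e : (κ : ℝ) * d.z / a₁ * a₁ / κ = d.z := by
    field_simp
  have hq : (0 : ℝ) < κ * d.z / a₁ := by positivity
  have hO : OutA C a₁ d.Rm := outA_core C hγ hR hv deg hI hB hBa hBD hE fX νY rY r3 o2 o1
    (by linarith) o3
  exact hfar_ofA C hI hε r1 r2 hO o1 hq (by rw [e]; exact r6) (by rw [e]; exact r7)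

/-- **the far part with a core zone, linear form** -/
theorem hfarC_lin [CompactSpace M] (C : Calc M γ) (hγ : Bd γ) (hR : RegAE C)
    {v : Fin 3 → M → ℝ} (hv : Sph γ v) (deg : ∫ o, jac C v o ∂C.μ = 2 * Real.pi) {κ X Y a₁ m₁ : ℚ}
    (ha : 0 < a₁) {E : Set Om} (hE : NullMeasurableSet E C.μ) (fX : ∫ o in Eᶜ, nuC C v o ∂C.μ ≤ X)
    (νY : ∫ o, nuC C v o ∂C.μ ≤ 2 * Y) (hY3 : Y ≤ 3)
    {B D : ℝ} (hB : ∫ o, PE (enb (dx C v o) (dy C v o)) ∂C.μ ≤ B) (hBa : B ≤ a₁)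
    (hBD : 2 * √((a₁ : ℝ) * B) ≤ D) {kz sl S : ℚ} (hsl : 0 ≤ sl) (hκ : 0 < κ) {s₁ : ℝ}
    (hs : D + ∫ o in E, exo C v o ∂C.μ ≤ m₁ + s₁) {ε : ℝ} (hI : IsopO C κ ε) (hε : 0 ≤ ε) :
    ∀ {l : List Far} {s : ℚ}, linOk κ X Y a₁ m₁ kz sl S s l = true → (s : ℝ) ≤ s₁ → s₁ < S →
      ∀ q : ℝ, 0 ≤ q → q * a₁ ≤ kz - sl * s₁ → HFar C a₁ q ε
  | [], s, h, h1, h2 => by
    have h3 : S ≤ s := of_decide_eq_true h
    have h4 : (S : ℝ) ≤ s := by exact_mod_cast h3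
    linarith
  | d :: l, s, h, h1, h2 => by
    simp only [linOk, Bool.and_eq_true, decide_eq_true_eq] at h
    obtain ⟨⟨k1, k2⟩, k3⟩ := h
    have ra : (0 : ℝ) < a₁ := by exact_mod_cast ha
    have rsl : (0 : ℝ) ≤ sl := by exact_mod_cast hsl
    have rk2 : (kz : ℝ) - sl * s ≤ κ * d.z := by exact_mod_cast k2
    intro q hq0 hq
    rcases le_or_gt s₁ ((d.D : ℝ) - m₁) with h3 | h3
    · have h4 := hfarC_pe C hγ hR hv deg hE fX νY hY3 hB hBa hBD k1 (by linarith) hI hε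
      refine h4.mono hq0 ?_
      rw [le_div_iff₀ ra]
      have : (sl : ℝ) * s ≤ sl * s₁ := mul_le_mul_of_nonneg_left h1 rsl
      linarith
    · exact hfarC_lin C hγ hR hv deg ha hE fX νY hY3 hB hBa hBD hsl hκ hs hI hε k3
        (by push_cast; linarith) h2 q hq0 hq

/-- **the far part with a core zone, one cell**: `m = ∫_E ν ∈ [m₀, m₁]`, `D + Z < S`,
`Z = ∫_E (opn² - J - ν)`: the coefficient `q` may be anything with `q a₁ ≤ kz - sl (D + Z)` -/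
theorem hfarC_cell [CompactSpace M] (C : Calc M γ) (hγ : Bd γ) (hR : RegAE C)
    {v : Fin 3 → M → ℝ} (hv : Sph γ v) (deg : ∫ o, jac C v o ∂C.μ = 2 * Real.pi) {κ X₀ a₁ : ℚ}
    (hX6 : X₀ ≤ 6) {E : Set Om} (hE : NullMeasurableSet E C.μ) (νX : ∫ o, nuC C v o ∂C.μ ≤ X₀)
    {B D : ℝ} (hB : ∫ o, PE (enb (dx C v o) (dy C v o)) ∂C.μ ≤ B) (hBa : B ≤ a₁)
    (hBD : 2 * √((a₁ : ℝ) * B) ≤ D) {c : LinC} (hc : linCOk κ X₀ a₁ c = true)
    (hm0 : c.m₀ ≤ ∫ o in E, nuC C v o ∂C.μ) (hm1 : ∫ o in E, nuC C v o ∂C.μ ≤ c.m₁)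
    {ε : ℝ} (hI : IsopO C κ ε) (hε : 0 ≤ ε)
    (hS : D + (∫ o in E, exo C v o ∂C.μ - ∫ o in E, nuC C v o ∂C.μ) < c.S) {q : ℝ} (hq0 : 0 ≤ q)
    (hq : q * a₁ ≤ c.kz - c.sl * (D + (∫ o in E, exo C v o ∂C.μ - ∫ o in E, nuC C v o ∂C.μ))) :
    HFar C a₁ q ε := by
  simp only [linCOk, Bool.and_eq_true, decide_eq_true_eq] at hc
  obtain ⟨⟨k1, k2, k3, k4, k5, k6⟩, k7⟩ := hc
  have iN : Integrable (nuC C v) C.μ := nuC_cint C hv.lip continuous_id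
  have h1 := integral_add_compl₀ hE iN
  have hZ : 0 ≤ ∫ o in E, exo C v o ∂C.μ - ∫ o in E, nuC C v o ∂C.μ := by
    rw [sub_nonneg]
    exact setIntegral_mono_ae iN.integrableOn (exo_int C hv).integrableOn (nu_le_exo C hv)
  have hD0 : 0 ≤ D := le_trans (by positivity) hBD
  refine hfarC_lin C hγ hR hv deg k4 hE (X := X₀ - c.m₀) (Y := X₀ / 2) ?_ ?_ ?_ hB hBa hBD k5 k6
    (s₁ := D + (∫ o in E, exo C v o ∂C.μ - ∫ o in E, nuC C v o ∂C.μ)) (by linarith) hI hε k7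
    (by push_cast; linarith) hS q hq0 hq
  · push_cast
    linarith
  · push_cast
    linarith
  · rw [div_le_iff₀ (by norm_num)]
    linarith

end Pool.Agent.FPX
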