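import Mathlib
import Pool.Agent.FPX.FOG

/-
FOX (helper99): the data of the whole far part (leaf module).
-/

namespace Pool.Agent.FPX.FOD

open Pool.Agent.FPX.VTB

/-- data of the far part: `kI` by area alone; `kz - sl (D + Z) - slx (X₀ - m)` with the core zone -/
structure FarA where
  κ : ℚ
  X₀ : ℚ
  a₁ : ℚ
  kI : ℚ
  zI : ℚ
  RI : ℚ
  ER : ℚ
  lE : ℚ
  kz : ℚ
  sl : ℚ
  slx : ℚ
  S : ℚ
  cells : List LinC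

/-- the part by area alone -/
def isoOk (d : FarA) : Bool :=
  decide (0 < d.κ ∧ 0 < d.a₁ ∧ 0 < d.RI ∧ 0 < d.zI ∧ 0 < phQ d.zI ∧ d.κ * FQ d.zI * d.RI ≤ 1 ∧
    d.kI ≤ d.κ * d.zI ∧ d.lE ≤ d.κ * d.RI ∧ lgOk d.ER d.lE = true ∧
    2 * 3.141593 < d.ER * d.a₁)

/-- the cells cover `[p, X₀]` -/
def cellsOk (d : FarA) : ℚ → List LinC → Bool
  | p, [] => decide (d.X₀ < p)
  | p, c :: l => decide (c.m₀ ≤ p) && linCOk d.κ d.X₀ d.a₁ c &&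
      decide (c.sl ≤ d.sl ∧ d.S ≤ c.S ∧ d.kz - d.slx * (d.X₀ - c.m₁) ≤ c.kz) &&
      (decide (d.X₀ ≤ c.m₁) || cellsOk d c.m₁ l)

def farAOk (d : FarA) : Bool :=
  isoOk d && decide (0 ≤ d.sl ∧ 0 ≤ d.slx ∧ d.X₀ ≤ 6 ∧ d.S ≤ 2 * d.a₁ ∧ d.kz - d.sl * d.S ≤ d.kI) &&
    cellsOk d 0 d.cells

end Pool.Agent.FPX.FOD
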