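import Mathlib
import Pool.Agent.FPX.FOH
import Pool.Agent.FPX.FOI
import Pool.Agent.FPX.FOX

/-
FOY (helper99): the whole far part from one Boolean.
-/

open MeasureTheory Set Filter Topology
open scoped ENNReal NNReal

noncomputable section

namespace Pool.Agent.FPX

open Pool.Agent.EWD Pool.Agent.FPM Pool.Agent.FPX.VTB Pool.Agent.FPX.FOD

variable {M : Type} [MetricSpace M] {γ : ℝ → M}

/-- the far part by area alone: no condition on the configuration -/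
theorem hfar_iso [CompactSpace M] (C : Calc M γ) (hγ : Bd γ) (hR : RegAE C)
    {v : Fin 3 → M → ℝ} (hv : Sph γ v) {d : FarA} (hd : isoOk d = true)
    (hV : C.μ.real univ ≤ 2 * Real.pi) {ε : ℝ} (hI : IsopO C d.κ ε) (hε : 0 ≤ ε)
    (hε' : 2 * Real.pi ≤ d.ER * (d.a₁ - ε)) {q : ℝ} (hq0 : 0 ≤ q) (hq : q * d.a₁ ≤ d.kI) :
    HFar C d.a₁ q ε := by
  obtain ⟨k1, k2, k3, k4, k5, k6, k7, k8, k9, k10⟩ := of_decide_eq_true hd
  have hpi := Real.pi_pos
  have p2 : Real.pi < (3.141593 : ℝ) := Real.pi_lt_d6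
  have r1 : (0 : ℝ) < d.κ := by exact_mod_cast k1
  have r2 : (0 : ℝ) < d.a₁ := by exact_mod_cast k2
  have r3 : (0 : ℝ) < d.RI := by exact_mod_cast k3
  have r4 : (0 : ℝ) < d.zI := by exact_mod_cast k4
  have r7 : (d.kI : ℝ) ≤ d.κ * d.zI := by exact_mod_cast k7
  have r8 : (d.lE : ℝ) ≤ d.κ * d.RI := by exact_mod_cast k8
  have r10 : (2 : ℝ) * 3.141593 < d.ER * d.a₁ := by
    have : ((2 * 3.141593 : ℚ) : ℝ) < ((d.ER * d.a₁ : ℚ) : ℝ) := by exact_mod_cast k10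
    push_cast at this
    exact this
  have r5 : 0 < phJ d.zI := by
    rw [← phQ_cast]
    exact_mod_cast k5
  have r6 : (d.κ : ℝ) * FJ d.zI * d.RI ≤ 1 := by
    rw [← FQ_cast]
    exact_mod_cast k6
  have hER : (0 : ℝ) < d.ER := by
    by_contra hc
    push Not at hc
    have : (d.ER : ℝ) * d.a₁ ≤ 0 := mul_nonpos_of_nonpos_of_nonneg hc r2.le
    linarith
  have hae : 0 < (d.a₁ : ℝ) - ε := by
    by_contra hc
    push Not at hc
    have : (d.ER : ℝ) * (d.a₁ - ε) ≤ 0 := mul_nonpos_of_nonneg_of_nonpos hER.le hc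
    linarith
  have hlog : Real.log (2 * Real.pi) - Real.log (d.a₁ - ε) ≤ d.κ * d.RI := by
    have h1 : Real.log (d.ER : ℝ) ≤ d.lE := lgOk_le k9
    have h2 : Real.log (2 * Real.pi) ≤ Real.log (d.ER * (d.a₁ - ε)) :=
      Real.log_le_log (by positivity) hε'
    rw [Real.log_mul hER.ne' hae.ne'] at h2
    linarith
  have hO : OutA C d.a₁ d.RI := outA_iso C hγ hR hv r1 hε hI hV (by linarith) r3 hlog
  have e : (d.κ : ℝ) * d.zI / d.a₁ * d.a₁ / d.κ = d.zI := by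
    field_simp
  have hqp : (0 : ℝ) < d.κ * d.zI / d.a₁ := by positivity
  have h := hfar_ofA C hI hε r1 r2 hO r3 hqp (by rw [e]; exact r5) (by rw [e]; exact r6)
  refine h.mono hq0 ?_
  rw [le_div_iff₀ r2]
  linarith

/-- the far part with the core zone, all `m` -/
theorem hfar_core [CompactSpace M] (C : Calc M γ) (hγ : Bd γ) (hR : RegAE C)
    {v : Fin 3 → M → ℝ} (hv : Sph γ v) (deg : ∫ o, jac C v o ∂C.μ = 2 * Real.pi) {d : FarA}
    (hX6 : d.X₀ ≤ 6) (hsl : 0 ≤ d.sl) (hslx : 0 ≤ d.slx)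
    {E : Set Om} (hE : NullMeasurableSet E C.μ) (νX : ∫ o, nuC C v o ∂C.μ ≤ d.X₀)
    {B D : ℝ} (hB : ∫ o, PE (enb (dx C v o) (dy C v o)) ∂C.μ ≤ B) (hBa : B ≤ d.a₁)
    (hBD : 2 * √((d.a₁ : ℝ) * B) ≤ D) {ε : ℝ} (hI : IsopO C d.κ ε) (hε : 0 ≤ ε)
    (hS : D + (∫ o in E, exo C v o ∂C.μ - ∫ o in E, nuC C v o ∂C.μ) < d.S) {q : ℝ} (hq0 : 0 ≤ q)
    (hq : q * d.a₁ ≤ d.kz - d.sl * (D + (∫ o in E, exo C v o ∂C.μ - ∫ o in E, nuC C v o ∂C.μ)) -
      d.slx * (d.X₀ - ∫ o in E, nuC C v o ∂C.μ)) :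
    ∀ {l : List LinC} {p : ℚ}, cellsOk d p l = true → (p : ℝ) ≤ ∫ o in E, nuC C v o ∂C.μ →
      HFar C d.a₁ q ε
  | [], p, h, h1 => by
    have iN : Integrable (nuC C v) C.μ := nuC_cint C hv.lip continuous_id
    have h2 : d.X₀ < p := of_decide_eq_true h
    have h3 : (d.X₀ : ℝ) < p := by exact_mod_cast h2
    have h4 : ∫ o in E, nuC C v o ∂C.μ ≤ ∫ o, nuC C v o ∂C.μ :=
      setIntegral_le_integral iN (ae_of_all _ fun o => nuv_nonneg _ _ _)
    linarith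
  | c :: l, p, h, h1 => by
    simp only [cellsOk, Bool.and_eq_true, Bool.or_eq_true, decide_eq_true_eq] at h
    obtain ⟨⟨⟨k1, k2⟩, k3, k4, k5⟩, k6⟩ := h
    have iN : Integrable (nuC C v) C.μ := nuC_cint C hv.lip continuous_id
    set m := ∫ o in E, nuC C v o ∂C.μ with hm
    have hmX : m ≤ d.X₀ := (setIntegral_le_integral iN (ae_of_all _ fun o => nuv_nonneg _ _ _)).trans νX
    have hZ : 0 ≤ ∫ o in E, exo C v o ∂C.μ - m := by
      rw [sub_nonneg]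
      exact setIntegral_mono_ae iN.integrableOn (exo_int C hv).integrableOn (nu_le_exo C hv)
    have hD0 : 0 ≤ D := le_trans (by positivity) hBD
    have r1 : (c.m₀ : ℝ) ≤ p := by exact_mod_cast k1
    have r3 : (c.sl : ℝ) ≤ d.sl := by exact_mod_cast k3
    have r4 : (d.S : ℝ) ≤ c.S := by exact_mod_cast k4
    have r5 : (d.kz : ℝ) - d.slx * (d.X₀ - c.m₁) ≤ c.kz := by exact_mod_cast k5
    have rslx : (0 : ℝ) ≤ d.slx := by exact_mod_cast hslx
    rcases le_or_gt m c.m₁ with h2 | h2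
    · refine hfarC_cell C hγ hR hv deg hX6 hE νX hB hBa hBD k2 (by linarith) h2 hI hε
        (by linarith) hq0 ?_
      have e1 : (c.sl : ℝ) * (D + (∫ o in E, exo C v o ∂C.μ - m)) ≤
          d.sl * (D + (∫ o in E, exo C v o ∂C.μ - m)) :=
        mul_le_mul_of_nonneg_right r3 (by linarith)
      have e2 : (d.slx : ℝ) * (d.X₀ - c.m₁) ≤ d.slx * (d.X₀ - m) :=
        mul_le_mul_of_nonneg_left (by linarith) rslx
      linarith
    · rcases k6 with k7 | k7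
      · have r7 : (d.X₀ : ℝ) ≤ c.m₁ := by exact_mod_cast k7
        linarith
      · exact hfar_core C hγ hR hv deg hX6 hsl hslx hE νX hB hBa hBD hI hε hS hq0 hq k7 h2.le

/-- **the whole far part**: `q a₁` may be anything below the maximum of the bound by area and the linear
bound with the core zone `E`; `m = ∫_E ν`, `Z = ∫_E (opn² - J - ν)`, `D = 2 √(a₁ B)` -/
theorem far_all [CompactSpace M] (C : Calc M γ) (hγ : Bd γ) (hR : RegAE C)
    {v : Fin 3 → M → ℝ} (hv : Sph γ v) (deg : ∫ o, jac C v o ∂C.μ = 2 * Real.pi) {d : FarA}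
    (hd : farAOk d = true) (hV : C.μ.real univ ≤ 2 * Real.pi)
    {E : Set Om} (hE : NullMeasurableSet E C.μ) (νX : ∫ o, nuC C v o ∂C.μ ≤ d.X₀)
    {B : ℝ} (hB : ∫ o, PE (enb (dx C v o) (dy C v o)) ∂C.μ ≤ B) {ε : ℝ} (hI : IsopO C d.κ ε)
    (hε : 0 ≤ ε) (hε' : 2 * Real.pi ≤ d.ER * (d.a₁ - ε)) {q : ℝ} (hq0 : 0 ≤ q)
    (hq : q * d.a₁ ≤ max (d.kI : ℝ) (d.kz - d.sl * (2 * √((d.a₁ : ℝ) * B) +
      (∫ o in E, exo C v o ∂C.μ - ∫ o in E, nuC C v o ∂C.μ)) -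
      d.slx * (d.X₀ - ∫ o in E, nuC C v o ∂C.μ))) : HFar C d.a₁ q ε := by
  simp only [farAOk, Bool.and_eq_true, decide_eq_true_eq] at hd
  obtain ⟨⟨k1, k2, k3, k4, k5, k6⟩, k7⟩ := hd
  have iN : Integrable (nuC C v) C.μ := nuC_cint C hv.lip continuous_id
  set m := ∫ o in E, nuC C v o ∂C.μ with hm
  set Z := ∫ o in E, exo C v o ∂C.μ - m with hZd
  set D := 2 * √((d.a₁ : ℝ) * B) with hD
  have hmX : m ≤ d.X₀ := (setIntegral_le_integral iN (ae_of_all _ fun o => nuv_nonneg _ _ _)).trans νX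
  have hm0 : 0 ≤ m := integral_nonneg fun o => nuv_nonneg _ _ _
  have hZ : 0 ≤ Z := by
    rw [hZd, sub_nonneg]
    exact setIntegral_mono_ae iN.integrableOn (exo_int C hv).integrableOn (nu_le_exo C hv)
  have hD0 : 0 ≤ D := by positivity
  have r2 : (0 : ℝ) ≤ d.sl := by exact_mod_cast k2
  have r3 : (0 : ℝ) ≤ d.slx := by exact_mod_cast k3
  have r5 : (d.S : ℝ) ≤ 2 * d.a₁ := by exact_mod_cast k5
  have r6 : (d.kz : ℝ) - d.sl * d.S ≤ d.kI := by exact_mod_cast k6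
  rcases le_or_gt (q * d.a₁) d.kI with h | h
  · exact hfar_iso C hγ hR hv k1 hV hI hε hε' hq0 h
  · have h1 : q * d.a₁ ≤ d.kz - d.sl * (D + Z) - d.slx * (d.X₀ - m) := by
      rcases le_max_iff.1 hq with h2 | h2
      · linarith
      · exact h2
    have h2 : 0 ≤ (d.slx : ℝ) * (d.X₀ - m) := mul_nonneg r3 (by linarith)
    have hS : D + Z < d.S := by
      by_contra hc
      push Not at hc
      have : (d.sl : ℝ) * d.S ≤ d.sl * (D + Z) := mul_le_mul_of_nonneg_left hc r2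
      linarith
    have ra : (0 : ℝ) < d.a₁ := by
      obtain ⟨-, j2, -⟩ := of_decide_eq_true k1
      exact_mod_cast j2
    have hB0 : 0 ≤ B := (integral_nonneg fun o => PE_nonneg (enb_nonneg _ _)).trans hB
    have hBa : B ≤ d.a₁ := by
      have h3 : D < 2 * d.a₁ := by linarith
      have h4 : √((d.a₁ : ℝ) * B) < d.a₁ := by
        rw [hD] at h3
        linarith
      have h5 := (Real.sqrt_lt' ra).1 h4
      nlinarith
    refine hfar_core C hγ hR hv deg k4 k2 k3 hE νX hB hBa le_rfl hI hε hS hq0 h1 k7 ?_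
    push_cast
    exact hm0

/-- the scalar side: the price `B` of the energy deficit and the reserve `w Z` pay the linear terms -/
theorem far_gain {kz sl slx a₁ B Z w t x : ℝ} (ha : 0 < a₁) (hB : 0 ≤ B) (hZ : 0 ≤ Z)
    (hw : sl * t ^ 2 ≤ w) :
    (kz - slx * x) * t ^ 2 - a₁ * sl ^ 2 * t ^ 4 ≤
      (kz - sl * (2 * √(a₁ * B) + Z) - slx * x) * t ^ 2 + B + w * Z := by
  have h1 : √(a₁ * B) ^ 2 = a₁ * B := Real.sq_sqrt (by positivity)
  set r := √(a₁ * B) with hr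
  have h2 : a₁ * (B - 2 * sl * t ^ 2 * r + a₁ * sl ^ 2 * t ^ 4) = (r - a₁ * sl * t ^ 2) ^ 2 := by
    have : a₁ * B = r ^ 2 := h1.symm
    nlinarith
  have h3 : 0 ≤ B - 2 * sl * t ^ 2 * r + a₁ * sl ^ 2 * t ^ 4 := by
    by_contra hc
    push Not at hc
    have := mul_neg_of_pos_of_neg ha hc
    rw [h2] at this
    linarith [sq_nonneg (r - a₁ * sl * t ^ 2)]
  have h4 := mul_le_mul_of_nonneg_right hw hZ
  nlinarith

end Pool.Agent.FPX
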