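import Mathlib
import Pool.Agent.FPX.FCU

/-
FRC (helper6): the outer resistance with a core zone, and the far part of the modulus closing for an
arbitrary outer resistance. Accounts: `fo` (the charge outside the zone, mass at most `x`) and `φ` (the
excess of `|dv|²` over the Jacobian inside the zone, mass at most `Φ`). The accounts enter through
`β (S) = ∫_S (J + φ + fo) - Φ - x ≤ min (∫_S J, 4π - ∫_S J)`; the resistance is `G (β) + K' (x - ∫_S fo)`,
at a level set of area `a₁` at most `G (a₁ - D - Φ - x) + K' x`.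
-/

open MeasureTheory Set Filter Topology
open scoped ENNReal NNReal

noncomputable section

namespace Pool.Agent.FPX

open Pool.Agent.EWD Pool.Agent.FPM

variable {M : Type} [MetricSpace M] {γ : ℝ → M}

/-- the linear part of the accounts -/
def frL' : (Fin 4 → ℝ) →L[ℝ] (Fin 3 → ℝ) :=
  ContinuousLinearMap.pi (φ := fun _ : Fin 3 => ℝ)
    ![ContinuousLinearMap.proj (R := ℝ) (φ := fun _ : Fin 4 => ℝ) 0,
      ContinuousLinearMap.proj (R := ℝ) (φ := fun _ : Fin 4 => ℝ) 1 +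
        ContinuousLinearMap.proj (R := ℝ) (φ := fun _ : Fin 4 => ℝ) 2 +
        ContinuousLinearMap.proj (R := ℝ) (φ := fun _ : Fin 4 => ℝ) 3,
      ContinuousLinearMap.proj (R := ℝ) (φ := fun _ : Fin 4 => ℝ) 2]

/-- the accounts -/
def frL (c : ℝ) (x : Fin 4 → ℝ) : Fin 3 → ℝ := frL' x + ![0, -c, 0]

theorem frL_one (c : ℝ) (x : Fin 4 → ℝ) : frL c x 1 = x 1 + x 2 + x 3 - c := by
  simp [frL, frL']
  ring

theorem frL_two (c : ℝ) (x : Fin 4 → ℝ) : frL c x 2 = x 2 := by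
  simp [frL, frL']

theorem frL'_one (x : Fin 4 → ℝ) : frL' x 1 = x 1 + x 2 + x 3 := by
  simp [frL']

theorem frL'_two (x : Fin 4 → ℝ) : frL' x 2 = x 2 := by
  simp [frL']

/-- the function of Hamilton and Jacobi -/
def frS (G : ℝ → ℝ) (K X δ c : ℝ) (t : ℝ) (x : Fin 4 → ℝ) : ℝ := imS G K X δ t (frL c x)

/-- its derivative -/
def frS' (G g : ℝ → ℝ) (K X δ c : ℝ) (t : ℝ) (x : Fin 4 → ℝ) : (ℝ × (Fin 4 → ℝ)) →L[ℝ] ℝ :=
  (imS' G g K X δ t (frL c x)).comp
    ((ContinuousLinearMap.fst ℝ ℝ (Fin 4 → ℝ)).prod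
      (frL'.comp (ContinuousLinearMap.snd ℝ ℝ (Fin 4 → ℝ))))

theorem frS'_one (G g : ℝ → ℝ) (K X δ c t : ℝ) (x : Fin 4 → ℝ) :
    frS' G g K X δ c t x (1, 0) = -2 * t * (imR G K X δ (frL c x))⁻¹ := by
  have h := imS'_one G g K X δ t (frL c x)
  rw [← h]
  simp [frS']

theorem frS'_two (G g : ℝ → ℝ) (K X δ c t : ℝ) (x y : Fin 4 → ℝ) :
    frS' G g K X δ c t x (0, y) =
      -(t ^ 2 * (imR G K X δ (frL c x) ^ 2)⁻¹ *
        ((y 1 + y 2 + y 3) * g (frL c x 1) + K * y 2)) := by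
  have h := imS'_two G g K X δ t (frL c x) (frL' y)
  rw [frL'_one, frL'_two] at h
  rw [← h]
  simp [frS']

theorem frS_has {G g : ℝ → ℝ} {K X δ c : ℝ} {t : ℝ} {x : Fin 4 → ℝ}
    (hG : HasDerivAt G (-g (frL c x 1)) (frL c x 1)) (h0 : imR G K X δ (frL c x) ≠ 0) :
    HasFDerivAt (fun z : ℝ × (Fin 4 → ℝ) => frS G K X δ c z.1 z.2) (frS' G g K X δ c t x)
      (t, x) := by
  have e1 : HasFDerivAt (fun z : ℝ × (Fin 4 → ℝ) => frL c z.2)
      (frL'.comp (ContinuousLinearMap.snd ℝ ℝ (Fin 4 → ℝ))) (t, x) :=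
    ((frL'.comp (ContinuousLinearMap.snd ℝ ℝ (Fin 4 → ℝ))).hasFDerivAt).add_const _
  have e0 : HasFDerivAt (fun z : ℝ × (Fin 4 → ℝ) => z.1)
      (ContinuousLinearMap.fst ℝ ℝ (Fin 4 → ℝ)) (t, x) := hasFDerivAt_fst
  have e2 := e0.prodMk e1
  have e3 := imS_has (t := t) hG h0
  exact HasFDerivAt.comp (t, x) (show HasFDerivAt
    (fun z : ℝ × (Fin 3 → ℝ) => imS G K X δ z.1 z.2) (imS' G g K X δ t (frL c x))
    ((fun z : ℝ × (Fin 4 → ℝ) => (z.1, frL c z.2)) (t, x)) from e3) e2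

/-- `J = p² - q²`, `ν = 2 q²`, `|dv| = p + q` -/
theorem frc_pq (C : Calc M γ) {v : Fin 3 → M → ℝ} (hv : Sph γ v) : ∀ᵐ o ∂C.μ, ∃ p q : ℝ,
    0 ≤ p ∧ 0 ≤ q ∧ opn C v o = p + q ∧ jac C v o = p ^ 2 - q ^ 2 ∧ nuC C v o = 2 * q ^ 2 := by
  filter_upwards [ae_perp C hv] with o ho
  refine ⟨_, _, norm_nonneg _, norm_nonneg _, rfl, ?_, rfl⟩
  unfold jac
  exact jac_pm (norm_at (C := C) hv o) ho.1 ho.2

/-- the pointwise inequality -/
theorem frc_ae (C : Calc M γ) {v : Fin 3 → M → ℝ} (hv : Sph γ v) {fo φ : Om → ℝ}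
    (fo0 : ∀ᵐ o ∂C.μ, 0 ≤ fo o) (φ0 : ∀ᵐ o ∂C.μ, 0 ≤ φ o)
    (hpt : ∀ᵐ o ∂C.μ, nuC C v o ≤ fo o ∨ opn C v o ^ 2 ≤ jac C v o + φ o) :
    ∀ᵐ o ∂C.μ, 0 ≤ jac C v o + fo o + φ o ∧ 0 ≤ 2 * jac C v o + fo o + φ o ∧
      ∀ h g K K' : ℝ, 0 < h → 0 < K → 0 ≤ K' → K ≤ K' + g → h ≤ g - g ^ 2 / (2 * K) →
        opn C v o ^ 2 * h ≤ (jac C v o + fo o + φ o) * g + K' * fo o := by
  filter_upwards [imc_ae C hv, frc_pq C hv, fo0, φ0, hpt] with o ho hpq f0 p0 hp
  obtain ⟨p, q, hp0, hq0, e1, e2, e3⟩ := hpq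
  have hpq0 : 0 ≤ p * q := mul_nonneg hp0 hq0
  have e4 : opn C v o ^ 2 = p ^ 2 + 2 * (p * q) + q ^ 2 := by
    rw [e1]
    ring
  refine ⟨?_, ?_, ?_⟩
  · rcases hp with hp | hp
    · rw [e3] at hp
      rw [e2]
      nlinarith [sq_nonneg p]
    · rw [e4, e2] at hp
      rw [e2]
      nlinarith [sq_nonneg p, sq_nonneg q]
  · rcases hp with hp | hp
    · rw [e3] at hp
      rw [e2]
      nlinarith [sq_nonneg p]
    · rw [e4, e2] at hp
      rw [e2]
      nlinarith [sq_nonneg p, sq_nonneg q]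
  · intro h g K K' hh hK hK' hKK hg
    have h1 : 0 ≤ g ^ 2 / (2 * K) := by positivity
    have g0 : 0 < g := by linarith
    rcases hp with hp | hp
    · have h2 := ho h g K hh hK hg
      have h3 : K * nuC C v o ≤ (K' + g) * fo o := by
        have n0 : 0 ≤ nuC C v o := by
          rw [e3]
          positivity
        exact mul_le_mul hKK hp n0 (by linarith)
      have h4 : 0 ≤ φ o * g := mul_nonneg p0 g0.le
      nlinarith
    · have h2 : opn C v o ^ 2 * h ≤ opn C v o ^ 2 * g :=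
        mul_le_mul_of_nonneg_left (by linarith) (sq_nonneg _)
      have h3 : opn C v o ^ 2 * g ≤ (jac C v o + φ o) * g := mul_le_mul_of_nonneg_right hp g0.le
      have h4 : 0 ≤ fo o * g := mul_nonneg f0 g0.le
      have h5 : 0 ≤ K' * fo o := mul_nonneg hK' f0
      nlinarith

/-- **Outer resistance with a core zone.** `h(α) = 1 / (α (4π - α))`, `h ≤ g - g² / (2K)`, `G' = -g`,
`K ≤ K' + g`, `G (2π) ≥ 0`; accounts `fo` (charge outside the zone, mass at most `x`) and `φ` (excess in the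
zone, mass at most `Φ`). -/
theorem outCap_zone [CompactSpace M] (C : Calc M γ) (hγ : Bd γ) (hR : RegAE C) {v : Fin 3 → M → ℝ}
    (hv : Sph γ v) (hJ : ∫ o, jac C v o ∂C.μ = 2 * Real.pi) {κ ε : ℝ} (hI : IsopO C κ ε)
    {fo φ f₁ : Om → ℝ} {x Φ K K' a₁ D : ℝ} (ifo : Integrable fo C.μ) (fo0 : ∀ᵐ o ∂C.μ, 0 ≤ fo o)
    (fox : ∫ o, fo o ∂C.μ ≤ x) (iφ : Integrable φ C.μ) (φ0 : ∀ᵐ o ∂C.μ, 0 ≤ φ o)
    (φΦ : ∫ o, φ o ∂C.μ ≤ Φ)
    (hpt : ∀ᵐ o ∂C.μ, nuC C v o ≤ fo o ∨ opn C v o ^ 2 ≤ jac C v o + φ o)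
    (if₁ : Integrable f₁ C.μ) (f₁f : ∀ᵐ o ∂C.μ, f₁ o ≤ fo o + φ o)
    (hα : ∀ g : M → ℝ, Lip g → ∀ s, 0 ≤ s → a₁ ≤ supa C g s →
      a₁ - D - supw C g f₁ s ≤ supw C g (jac C v) s)
    (hK : 0 < K) (hK' : 0 ≤ K') (hA1 : 0 < a₁ - D - Φ - x)
    {G g : ℝ → ℝ}
    (hG : ∀ α, a₁ - D - Φ - x ≤ α → α ≤ 2 * Real.pi → HasDerivAt G (-g α) α)
    (hg : ∀ α, a₁ - D - Φ - x ≤ α → α ≤ 2 * Real.pi →
      1 / (α * (4 * Real.pi - α)) ≤ g α - g α ^ 2 / (2 * K))
    (hKK : ∀ α, a₁ - D - Φ - x ≤ α → α ≤ 2 * Real.pi → K ≤ K' + g α)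
    (hG0 : 0 ≤ G (2 * Real.pi)) {Ro : ℝ} (hRo : G (a₁ - D - Φ - x) + K' * x < Ro) :
    OutCap C a₁ Ro := by
  have := C.fin
  have hpi := Real.pi_pos
  intro χ hχ oχ τ hτ hm
  have iJ : Integrable (jac C v) C.μ := jac_integrable C hv
  have hptw := frc_ae C hv fo0 φ0 hpt
  have i12 : Integrable (fun o => jac C v o + fo o) C.μ := iJ.add ifo
  have iB : Integrable (fun o => jac C v o + fo o + φ o) C.μ := i12.add iφ
  have hmeas : ∀ t, NullMeasurableSet {o | -|χ (C.pt o)| < t} C.μ := fun t =>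
    meas_pt_lt C (lip_abs hχ).neg t
  set A1 := a₁ - D - Φ - x with hA1'
  have hx0 : 0 ≤ x := (integral_nonneg_of_ae fo0).trans fox
  -- the sum of the accounts
  set bb : ℝ → ℝ := fun t => nlev C χ (jac C v) t + nlev C χ fo t + nlev C χ φ t - (Φ + x) with hbb
  have hbe : ∀ t, nlev C χ (fun o => jac C v o + fo o + φ o) t =
      nlev C χ (jac C v) t + nlev C χ fo t + nlev C χ φ t := fun t => by
    unfold nlev
    rw [integral_add i12.integrableOn iφ.integrableOn,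
      integral_add iJ.integrableOn ifo.integrableOn]
  have hle1 : ∀ (f : Om → ℝ), Integrable f C.μ → (∀ᵐ o ∂C.μ, 0 ≤ f o) → ∀ t,
      nlev C χ f t ≤ ∫ o, f o ∂C.μ := fun f hf h0 t => setIntegral_le_integral hf h0
  have hge0 : ∀ (f : Om → ℝ), (∀ᵐ o ∂C.μ, 0 ≤ f o) → ∀ t, 0 ≤ nlev C χ f t :=
    fun f h0 t => setIntegral_nonneg_of_ae h0
  -- upper bound
  have hupp : ∀ t, bb t ≤ 2 * Real.pi := fun t => by
    have h1 := hle1 _ iB (hptw.mono fun o ho => ho.1) t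
    rw [hbe, integral_add i12 iφ, integral_add iJ ifo, hJ] at h1
    rw [hbb]
    dsimp only
    linarith
  -- comparison with the Jacobian
  have hbα : ∀ t, bb t ≤ nlev C χ (jac C v) t := fun t => by
    have h1 := hle1 _ ifo fo0 t
    have h2 := hle1 _ iφ φ0 t
    rw [hbb]
    dsimp only
    linarith
  have hbα2 : ∀ t, bb t + nlev C χ (jac C v) t ≤ 4 * Real.pi := fun t => by
    have i3 : Integrable (fun o => 2 * jac C v o + fo o) C.μ := (iJ.const_mul 2).add ifo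
    have i2 : Integrable (fun o => 2 * jac C v o + fo o + φ o) C.μ := i3.add iφ
    have h1 := hle1 _ i2 (hptw.mono fun o ho => ho.2.1) t
    have h2 : nlev C χ (fun o => 2 * jac C v o + fo o + φ o) t =
        2 * nlev C χ (jac C v) t + nlev C χ fo t + nlev C χ φ t := by
      unfold nlev
      rw [integral_add i3.integrableOn iφ.integrableOn,
        integral_add (iJ.const_mul 2).integrableOn ifo.integrableOn, integral_const_mul]
    rw [h2, integral_add i3 iφ, integral_add (iJ.const_mul 2) ifo,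
      integral_const_mul, hJ] at h1
    rw [hbb]
    dsimp only
    linarith
  -- lower bound
  have hlow : ∀ t, -τ ≤ t → t ≤ 0 → A1 ≤ bb t := fun t ht ht0 => by
    have h1 : a₁ ≤ supa C χ (-t) := by
      refine hm.trans (measureReal_mono ?_)
      intro o ho
      have h1 : τ < |χ (C.pt o)| := ho
      change -t < |χ (C.pt o)|
      linarith
    have h2 := hα χ hχ (-t) (by linarith) h1
    rw [← nlev_supw, ← nlev_supw] at h2
    have h3 : nlev C χ f₁ t ≤ nlev C χ fo t + nlev C χ φ t := by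
      unfold nlev
      rw [← integral_add ifo.integrableOn iφ.integrableOn]
      exact setIntegral_mono_ae if₁.integrableOn (ifo.add iφ).integrableOn f₁f
    rw [hbb, hA1']
    dsimp only
    linarith
  have hfo0 : ∀ t, 0 ≤ nlev C χ fo t := hge0 _ fo0
  have hfox : ∀ t, nlev C χ fo t ≤ x := fun t => (hle1 _ ifo fo0 t).trans fox
  -- positivity of g
  have hgpos : ∀ α, A1 ≤ α → α ≤ 2 * Real.pi → 0 < g α := by
    intro α h1 h2
    have h3 : 0 < 1 / (α * (4 * Real.pi - α)) := by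
      have : 0 < α := by linarith
      have : 0 < 4 * Real.pi - α := by linarith
      positivity
    have h4 := hg α h1 h2
    have h5 : 0 ≤ g α ^ 2 / (2 * K) := by positivity
    linarith
  have hGanti : ∀ α β, A1 ≤ α → α ≤ β → β ≤ 2 * Real.pi → G β ≤ G α := by
    intro α β h1 h2 h3
    have hmono : AntitoneOn G (Icc A1 (2 * Real.pi)) := by
      refine antitoneOn_of_deriv_nonpos (convex_Icc _ _) ?_ ?_ ?_
      · intro x hx
        exact (hG x hx.1 hx.2).continuousAt.continuousWithinAt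
      · intro x hx
        rw [interior_Icc] at hx
        exact (hG x hx.1.le hx.2.le).differentiableAt.differentiableWithinAt
      · intro x hx
        rw [interior_Icc] at hx
        rw [(hG x hx.1.le hx.2.le).deriv]
        have := hgpos x hx.1.le hx.2.le
        linarith
    exact hmono ⟨h1, by linarith⟩ ⟨by linarith, h3⟩ h2
  -- the constant
  obtain ⟨δ, hδ, hδ2⟩ : ∃ δ, 0 < δ ∧ G A1 + K' * x + δ < Ro :=
    ⟨(Ro - (G A1 + K' * x)) / 2, by linarith, by linarith⟩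
  set Ds : Set (Fin 4 → ℝ) := {y | A1 ≤ y 1 + y 2 + y 3 - (Φ + x) ∧
    y 1 + y 2 + y 3 - (Φ + x) ≤ 2 * Real.pi ∧ 0 ≤ y 2 ∧ y 2 ≤ x} with hDs
  have hconv : Convex ℝ Ds := by
    intro y hy z hz a b ha0 hb0 hab
    obtain ⟨y1, y2, y3, y4⟩ := hy
    obtain ⟨z1, z2, z3, z4⟩ := hz
    have e1 : ∀ c : ℝ, c = a * c + b * c := fun c => by rw [← add_mul, hab, one_mul]
    refine ⟨?_, ?_, ?_, ?_⟩
    · have k1 := e1 (A1 + (Φ + x))
      have k2 := mul_le_mul_of_nonneg_left y1 ha0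
      have k3 := mul_le_mul_of_nonneg_left z1 hb0
      simp only [Pi.add_apply, Pi.smul_apply, smul_eq_mul]
      nlinarith
    · have k1 := e1 (2 * Real.pi + (Φ + x))
      have k2 := mul_le_mul_of_nonneg_left y2 ha0
      have k3 := mul_le_mul_of_nonneg_left z2 hb0
      simp only [Pi.add_apply, Pi.smul_apply, smul_eq_mul]
      nlinarith
    · simp only [Pi.add_apply, Pi.smul_apply, smul_eq_mul]
      positivity
    · have k1 := e1 x
      simp only [Pi.add_apply, Pi.smul_apply, smul_eq_mul]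
      nlinarith
  have hRpos : ∀ y ∈ Ds, δ ≤ imR G K' x δ (frL (Φ + x) y) := by
    intro y hy
    obtain ⟨y1, y2, y3, y4⟩ := hy
    have h1 := hGanti _ _ y1 y2 le_rfl
    have h2 : 0 ≤ K' * (x - y 2) := mul_nonneg hK' (by linarith)
    unfold imR
    rw [frL_one, frL_two]
    linarith
  set γs : Fin 4 → Om → ℝ := ![fun _ => 1, jac C v, fo, φ] with hγs
  have hFD : ∀ t, -τ ≤ t → t ≤ 0 → (fun i => nlev C χ (γs i) t) ∈ Ds := fun t ht ht0 =>
    ⟨hlow t ht ht0, hupp t, hfo0 t, hfox t⟩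
  have hmain := odd_hj C hγ hR hv hχ oχ hI (ι := Fin 4) (γs := γs) (i0 := 0) (i1 := 1)
    (pot := fun _ => 0) (c := 1) (r0 := -τ) (r1 := 0) (L := 2 * τ * δ⁻¹) (D := Ds)
    (S := frS G K' x δ (Φ + x)) (S' := frS' G g K' x δ (Φ + x))
    (by
      intro i
      fin_cases i
      · exact integrable_const (1 : ℝ)
      · exact iJ
      · exact ifo
      · exact iφ)
    rfl rfl (integrable_const (0 : ℝ)) one_pos (by linarith) le_rfl (by positivity) hconv
    (fun t h1 h2 => hFD t h1 h2)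
    (fun t y h1 h2 hy => by
      refine frS_has ?_ (lt_of_lt_of_le hδ (hRpos y hy)).ne'
      rw [frL_one]
      exact hG _ hy.1 hy.2.1)
    (by
      intro t y h1 h2 hy
      rw [frS'_one]
      have h3 := hRpos y hy
      have h4 : (imR G K' x δ (frL (Φ + x) y))⁻¹ ≤ δ⁻¹ := inv_anti₀ hδ h3
      have h5 : 0 ≤ (imR G K' x δ (frL (Φ + x) y))⁻¹ := inv_nonneg.2 (hδ.le.trans h3)
      have h6 : -2 * t ≤ 2 * τ := by linarith
      exact mul_le_mul h6 h4 h5 (by positivity))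
    (by
      filter_upwards [hptw] with o ho t y h1 hy h2 h3
      rw [frS'_two, frL_one]
      obtain ⟨-, -, ho⟩ := ho
      have hy1 := hg _ hy.1 hy.2.1
      have hpos : 0 < 1 / ((y 1 + y 2 + y 3 - (Φ + x)) *
          (4 * Real.pi - (y 1 + y 2 + y 3 - (Φ + x)))) := by
        have h5 := hy.1
        have h6 := hy.2.1
        have k1 : 0 < y 1 + y 2 + y 3 - (Φ + x) := by linarith
        have k2 : 0 < 4 * Real.pi - (y 1 + y 2 + y 3 - (Φ + x)) := by linarith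
        positivity
      have h4 := ho _ _ K K' hpos hK hK' (hKK _ hy.1 hy.2.1) hy1
      have h5 : 0 ≤ opn C v o ^ 2 * (1 / ((y 1 + y 2 + y 3 - (Φ + x)) *
          (4 * Real.pi - (y 1 + y 2 + y 3 - (Φ + x))))) := by positivity
      have h6 : 0 ≤ t ^ 2 * (imR G K' x δ (frL (Φ + x) y) ^ 2)⁻¹ *
          ((γs 1 o + γs 2 o + γs 3 o) * g (y 1 + y 2 + y 3 - (Φ + x)) + K' * γs 2 o) := by
        have : 0 ≤ (γs 1 o + γs 2 o + γs 3 o) * g (y 1 + y 2 + y 3 - (Φ + x)) + K' * γs 2 o :=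
          h5.trans h4
        positivity
      have h7 : 0 ≤ 2 * τ * δ⁻¹ * (t + |χ (C.pt o)|) := mul_nonneg (by positivity) (by linarith)
      linarith)
    (by
      refine ae_of_all _ fun t h1 h2 l V hl hV _ hVV => ?_
      set y : Fin 4 → ℝ := fun i => nlev C χ (γs i) t with hy
      have hyD : y ∈ Ds := hFD t h1.le h2.le
      set ρ := imR G K' x δ (frL (Φ + x) y) with hρ
      have hρp : 0 < ρ := lt_of_lt_of_le hδ (hRpos y hyD)
      have e1 : nlev C χ (γs 1) t = nlev C χ (jac C v) t := rfl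
      rw [e1] at hVV
      have eβ : frL (Φ + x) y 1 = bb t := by
        rw [frL_one]
        rfl
      have hb1 : A1 ≤ bb t := hlow t h1.le h2.le
      have hb2 := hupp t
      have hb3 := hbα t
      have hb4 := hbα2 t
      set β := bb t with hβ
      set α := nlev C χ (jac C v) t with hαd
      set z := β * (4 * Real.pi - β) with hz
      have hβp : 0 < β := by linarith
      have hzp : 0 < z := by
        have : 0 < 4 * Real.pi - β := by linarith
        positivity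
      have hzV : z ≤ V ^ 2 := by
        have k1 : 0 ≤ (α - β) * (4 * Real.pi - (β + α)) :=
          mul_nonneg (by linarith) (by linarith)
        nlinarith
      have hsq : 0 < √z := Real.sqrt_pos.2 hzp
      have hVs : √z ≤ V := by
        rw [← Real.sqrt_sq hV]
        exact Real.sqrt_le_sqrt hzV
      refine ⟨0, -2 * t * ρ⁻¹ * (√z)⁻¹, le_rfl, ?_, ?_, 1, one_pos, ?_⟩
      · have : 0 ≤ -2 * t := by linarith
        positivity
      · rw [frS'_one, zero_mul, zero_add]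
        have h3 : 0 ≤ -2 * t * ρ⁻¹ := by
          have : 0 ≤ -2 * t := by linarith
          positivity
        calc -2 * t * ρ⁻¹ = -2 * t * ρ⁻¹ * ((√z)⁻¹ * √z) := by
              rw [inv_mul_cancel₀ hsq.ne', mul_one]
          _ ≤ -2 * t * ρ⁻¹ * ((√z)⁻¹ * V) :=
              mul_le_mul_of_nonneg_left (mul_le_mul_of_nonneg_left hVs (by positivity)) h3
          _ = _ := by ring
      · filter_upwards [hptw] with o ho h3 h4
        obtain ⟨-, -, ho⟩ := ho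
        rw [frS'_two, eβ]
        have h5 := ho _ _ K K' (by positivity) hK hK' (hKK _ hb1 hb2) (hg _ hb1 hb2)
        have e2 : (0 + -2 * t * ρ⁻¹ * (√z)⁻¹ * opn C v o) ^ 2 =
            4 * (t ^ 2 * (ρ ^ 2)⁻¹) * (opn C v o ^ 2 * (1 / z)) := by
          have e3 : ((√z)⁻¹) ^ 2 = 1 / z := by
            rw [inv_pow, Real.sq_sqrt hzp.le, one_div]
          have e4 : (0 + -2 * t * ρ⁻¹ * (√z)⁻¹ * opn C v o) ^ 2 =
            4 * (t ^ 2 * (ρ⁻¹) ^ 2) * (opn C v o ^ 2 * ((√z)⁻¹) ^ 2) := by ring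
          rw [e4, e3, inv_pow]
        rw [e2]
        have h6 : 4 * (t ^ 2 * (ρ ^ 2)⁻¹) * (opn C v o ^ 2 * (1 / z)) ≤
            4 * (t ^ 2 * (ρ ^ 2)⁻¹) * ((jac C v o + fo o + φ o) * g β + K' * fo o) :=
          mul_le_mul_of_nonneg_left h5 (by positivity)
        have h7 : 0 ≤ 2 * τ * δ⁻¹ * (-|χ (C.pt o)| - t) := mul_nonneg (by positivity) (by linarith)
        refine h6.trans ?_
        change _ ≤ 4 * 1 * (0 - -(t ^ 2 * (ρ ^ 2)⁻¹ *
          ((jac C v o + fo o + φ o) * g β + K' * fo o)) + _)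
        nlinarith)
  -- conclusion
  set A : Set Om := {o | -τ ≤ -|χ (C.pt o)| ∧ -|χ (C.pt o)| < 0} with hA
  set B : Set Om := {o | |χ (C.pt o)| < τ} with hB
  have mA : NullMeasurableSet A C.μ := by
    have h1 := (hmeas 0).diff (hmeas (-τ))
    have h2 : A = {o | -|χ (C.pt o)| < 0} \ {o | -|χ (C.pt o)| < -τ} := by
      ext o
      simp only [hA, mem_ofPred_eq, Set.mem_sdiff, not_lt]
      exact and_comm
    rw [h2]
    exact h1
  have mB : NullMeasurableSet B C.μ := meas_pt_lt C (lip_abs hχ) τ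
  have iG : Integrable (fun o => gn C χ o ^ 2) C.μ := int_gn_sq C hχ
  have hAB : ∫ o in A, gn C χ o ^ 2 ∂C.μ ≤ ∫ o in B, gn C χ o ^ 2 ∂C.μ := by
    rw [← integral_indicator₀ mA, ← integral_indicator₀ mB]
    refine integral_mono_ae (iG.indicator₀ mA) (iG.indicator₀ mB) ?_
    filter_upwards [grad_level C (lip_abs hχ) τ, gn_abs C hχ] with o ho ha
    by_cases hB' : o ∈ B
    · rw [indicator_of_mem hB']
      exact indicator_le_self' (fun _ _ => by positivity) o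
    · by_cases hA' : o ∈ A
      · have h1 : |χ (C.pt o)| = τ := by
          have h2 : ¬ |χ (C.pt o)| < τ := hB'
          have h3 := hA'.1
          linarith [not_lt.1 h2]
        have h3 : gn C χ o = 0 := by
          rw [← ha]
          unfold gn
          rw [(ho h1).1, (ho h1).2]
          simp
        rw [indicator_of_mem hA', indicator_of_notMem hB', h3]
        simp
      · rw [indicator_of_notMem hA', indicator_of_notMem hB']
  have e1 : frS G K' x δ (Φ + x) 0 (fun i => nlev C χ (γs i) 0) = 0 := by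
    unfold frS imS
    simp
  set r := imR G K' x δ (frL (Φ + x) fun i => nlev C χ (γs i) (-τ)) with hr
  have e2 : frS G K' x δ (Φ + x) (-τ) (fun i => nlev C χ (γs i) (-τ)) = -(τ ^ 2 * r⁻¹) := by
    unfold frS imS
    rw [← hr]
    ring
  have e3 : ∫ o in A, ((fun _ => (0 : ℝ)) o + 1 * gn C χ o ^ 2) ∂C.μ =
      ∫ o in A, gn C χ o ^ 2 ∂C.μ := by
    refine integral_congr_ae (ae_of_all _ fun o => ?_)
    change (0 : ℝ) + 1 * gn C χ o ^ 2 = _
    ring
  rw [e1, e2, e3] at hmain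
  have hrp : 0 < r := lt_of_lt_of_le hδ (hRpos _ (hFD (-τ) le_rfl (by linarith)))
  have hrR : r ≤ Ro := by
    have k1 := hGanti A1 (bb (-τ)) le_rfl (hlow (-τ) le_rfl (by linarith)) (hupp (-τ))
    have k2 : K' * (x - nlev C χ fo (-τ)) ≤ K' * x :=
      mul_le_mul_of_nonneg_left (by linarith [hfo0 (-τ)]) hK'
    have k3 : r = G (bb (-τ)) + K' * (x - nlev C χ fo (-τ)) + δ := by
      rw [hr]
      unfold imR
      rw [frL_one, frL_two]
      rfl
    rw [k3]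
    linarith
  set E := ∫ o in B, gn C χ o ^ 2 ∂C.μ with hE
  have h1 : τ ^ 2 * r⁻¹ ≤ E := by linarith
  have h2 : τ ^ 2 ≤ r * E := by
    have k1 := mul_le_mul_of_nonneg_left h1 hrp.le
    have k2 : r * (τ ^ 2 * r⁻¹) = τ ^ 2 := by
      field_simp
    linarith
  have hE0 : 0 ≤ E := integral_nonneg fun o => by positivity
  exact h2.trans (mul_le_mul_of_nonneg_right hrR hE0)

/-- **Explicit form**: `c > 0`, `h₁ = 1 / (A (4π - A))`, `A = a₁ - D - Φ - x`,
`(1 + c h₁)² / (2c) ≤ K' + h + c h²` with `h = 1 / (4π²)`, resistance `imG c A + K' x`. -/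
theorem outCap_zone_exp [CompactSpace M] (C : Calc M γ) (hγ : Bd γ) (hR : RegAE C)
    {v : Fin 3 → M → ℝ} (hv : Sph γ v) (hJ : ∫ o, jac C v o ∂C.μ = 2 * Real.pi) {κ ε : ℝ}
    (hI : IsopO C κ ε) {fo φ f₁ : Om → ℝ} {x Φ K' a₁ D c : ℝ} (ifo : Integrable fo C.μ)
    (fo0 : ∀ᵐ o ∂C.μ, 0 ≤ fo o) (fox : ∫ o, fo o ∂C.μ ≤ x) (iφ : Integrable φ C.μ)
    (φ0 : ∀ᵐ o ∂C.μ, 0 ≤ φ o) (φΦ : ∫ o, φ o ∂C.μ ≤ Φ)
    (hpt : ∀ᵐ o ∂C.μ, nuC C v o ≤ fo o ∨ opn C v o ^ 2 ≤ jac C v o + φ o)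
    (if₁ : Integrable f₁ C.μ) (f₁f : ∀ᵐ o ∂C.μ, f₁ o ≤ fo o + φ o)
    (hα : ∀ g : M → ℝ, Lip g → ∀ s, 0 ≤ s → a₁ ≤ supa C g s →
      a₁ - D - supw C g f₁ s ≤ supw C g (jac C v) s)
    (hc : 0 < c) (hK' : 0 ≤ K') (hA1 : 0 < a₁ - D - Φ - x)
    (hK : (1 + c * (1 / ((a₁ - D - Φ - x) * (4 * Real.pi - (a₁ - D - Φ - x))))) ^ 2 / (2 * c) ≤
      K' + (1 / (4 * Real.pi ^ 2) + c * (1 / (4 * Real.pi ^ 2)) ^ 2)) {Ro : ℝ}
    (hRo : imG c (a₁ - D - Φ - x) + K' * x < Ro) :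
    OutCap C a₁ Ro := by
  have hpi := Real.pi_pos
  set A1 := a₁ - D - Φ - x with hA1'
  set h1 := 1 / (A1 * (4 * Real.pi - A1)) with hh1
  set K := (1 + c * h1) ^ 2 / (2 * c) with hKd
  rcases le_or_gt A1 (2 * Real.pi) with hA2 | hA2
  · have q1 : 0 < A1 * (4 * Real.pi - A1) := mul_pos hA1 (by linarith)
    have hh1p : 0 < h1 := by positivity
    have hKp : 0 < K := by positivity
    have hcomp : ∀ α, A1 ≤ α → α ≤ 2 * Real.pi → 0 < α * (4 * Real.pi - α) ∧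
        A1 * (4 * Real.pi - A1) ≤ α * (4 * Real.pi - α) ∧
        α * (4 * Real.pi - α) ≤ 4 * Real.pi ^ 2 := by
      intro α h2 h3
      refine ⟨mul_pos (by linarith) (by linarith), ?_, ?_⟩
      · have : 0 ≤ (α - A1) * (4 * Real.pi - A1 - α) := mul_nonneg (by linarith) (by linarith)
        nlinarith
      · nlinarith [sq_nonneg (α - 2 * Real.pi)]
    refine outCap_zone C hγ hR hv hJ hI ifo fo0 fox iφ φ0 φΦ hpt if₁ f₁f hα hKp hK' hA1
      (G := imG c)
      (g := fun α => 1 / (α * (4 * Real.pi - α)) + c * (1 / (α * (4 * Real.pi - α))) ^ 2)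
      (fun α h2 h3 => imG_has c (by linarith) (by linarith)) ?_ ?_ ?_ hRo
    · intro α h2 h3
      obtain ⟨q2, q3, -⟩ := hcomp α h2 h3
      set h := 1 / (α * (4 * Real.pi - α)) with hh
      have hp : 0 < h := by positivity
      have hle : h ≤ h1 := one_div_le_one_div_of_le q1 q3
      have h5 : (h + c * h ^ 2) ^ 2 / (2 * K) ≤ c * h ^ 2 := by
        rw [div_le_iff₀ (by positivity)]
        have e : c * h ^ 2 * (2 * K) = h ^ 2 * (1 + c * h1) ^ 2 := by
          rw [hKd]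
          field_simp
        rw [e]
        have e2 : (h + c * h ^ 2) ^ 2 = h ^ 2 * (1 + c * h) ^ 2 := by ring
        rw [e2]
        have h6 : 1 + c * h ≤ 1 + c * h1 := by nlinarith
        have h7 : 0 ≤ 1 + c * h := by positivity
        have h8 : (1 + c * h) ^ 2 ≤ (1 + c * h1) ^ 2 := pow_le_pow_left₀ h7 h6 2
        exact mul_le_mul_of_nonneg_left h8 (by positivity)
      linarith
    · intro α h2 h3
      obtain ⟨q2, -, q4⟩ := hcomp α h2 h3
      have k1 : 1 / (4 * Real.pi ^ 2) ≤ 1 / (α * (4 * Real.pi - α)) := one_div_le_one_div_of_le q2 q4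
      have k0 : 0 < 1 / (4 * Real.pi ^ 2) := by positivity
      have k2 : (1 / (4 * Real.pi ^ 2)) ^ 2 ≤ (1 / (α * (4 * Real.pi - α))) ^ 2 :=
        pow_le_pow_left₀ k0.le k1 2
      have k3 := mul_le_mul_of_nonneg_left k2 hc.le
      linarith
    · have e1 : 4 * Real.pi - 2 * Real.pi = 2 * Real.pi := by ring
      unfold imG imL
      rw [e1]
      simp
  · -- the accounts exclude level sets of area `a₁`
    intro χ hχ oχ τ hτ hm
    exfalso
    have := C.fin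
    have iJ : Integrable (jac C v) C.μ := jac_integrable C hv
    have hptw := frc_ae C hv fo0 φ0 hpt
    have h1 : a₁ ≤ supa C χ τ := hm
    have h2 := hα χ hχ τ hτ.le h1
    have i12 : Integrable (fun o => jac C v o + fo o) C.μ := iJ.add ifo
    have iB : Integrable (fun o => jac C v o + fo o + φ o) C.μ := i12.add iφ
    have h3 : supw C χ f₁ τ ≤ supw C χ fo τ + supw C χ φ τ := by
      unfold supw
      rw [← integral_add ifo.integrableOn iφ.integrableOn]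
      exact setIntegral_mono_ae if₁.integrableOn (ifo.add iφ).integrableOn f₁f
    have h4 : supw C χ (fun o => jac C v o + fo o + φ o) τ ≤
        ∫ o, (jac C v o + fo o + φ o) ∂C.μ :=
      setIntegral_le_integral iB (hptw.mono fun o ho => ho.1)
    have h5 : supw C χ (fun o => jac C v o + fo o + φ o) τ =
        supw C χ (jac C v) τ + supw C χ fo τ + supw C χ φ τ := by
      unfold supw
      rw [integral_add i12.integrableOn iφ.integrableOn,
        integral_add iJ.integrableOn ifo.integrableOn]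
    rw [h5, integral_add i12 iφ, integral_add iJ ifo, hJ] at h4
    linarith

/-- **the far part for one odd function and an arbitrary outer resistance** -/
theorem far_oc_scalar (C : Calc M γ) {κ ε q a₁ Ro : ℝ} (hL : LevO C (fun a => κ * a) ε)
    (hε : 0 ≤ ε) (hκ : 0 < κ) (hq : 0 < q) (ha : 0 < a₁) (hφ : 0 < phJ (q * a₁ / κ))
    (hO : OutCap C a₁ Ro) (hRo : 0 ≤ Ro) (hr : κ * FJ (q * a₁ / κ) * Ro ≤ 1)
    {w : Om → ℝ} (iw : Integrable w C.μ) (w0 : ∀ᵐ o ∂C.μ, 0 ≤ w o) (wq : ∀ᵐ o ∂C.μ, w o ≤ q)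
    (wm : ∫ o, w o ∂C.μ ≤ q * a₁)
    {R : ℝ} (hR0 : 0 ≤ R) {g : M → ℝ} (hg : Lip g) (og : EWD.OddB γ g) (gR : ∀ x, |g x| ≤ R) :
    ∫ o, g (C.pt o) ^ 2 * w o ∂C.μ ≤ ∫ o, gn C g o ^ 2 ∂C.μ + q * ε * R ^ 2 := by
  have := C.fin
  have Dn := coreD_unif (B := q) hκ hq ha le_rfl hφ
  obtain ⟨k, ck, k0, kp, hc, hk⟩ := Dn.cert
  have key := hardy_cap C hg og hR0 (ae_of_all _ fun o => gR (C.pt o)) iw w0
    (n := fun a => q * max a 0) (k := k) (Lam := fun a => κ * a) (ε := ε) (δ := q * ε) (lam := 1)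
    (X := q * a₁) (a₁ := a₁) (Ro := Ro) zero_le_one hε (by positivity) Dn.mono Dn.zero ck k0 kp ha
    (hL g hg og) ?_ wm ?_ hO hRo ?_
  · rw [one_mul, one_mul] at key
    exact key
  · intro s _
    have h5 : ∫ o in {o | s < |g (C.pt o)|}, w o ∂C.μ ≤ ∫ _ in {o | s < |g (C.pt o)|}, q ∂C.μ :=
      setIntegral_mono_ae iw.integrableOn (integrable_const _).integrableOn wq
    rw [setIntegral_const, smul_eq_mul] at h5
    have h6 : supa C g s ≤ max (supa C g s - ε) 0 + ε := by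
      have := le_max_left (supa C g s - ε) 0
      linarith
    have h7 := mul_le_mul_of_nonneg_left h6 hq.le
    have h8 : supw C g w s ≤ supa C g s * q := h5
    change supw C g w s ≤ q * max (supa C g s - ε) 0 + q * ε
    linarith
  · intro a h0 h1
    have h2 := hc a h0 h1
    have h3 : min (0 / 1 * a) (0 : ℝ) = 0 := by simp
    rw [h3, add_zero] at h2
    rw [one_mul]
    exact h2
  · have h3 : min (0 / 1 * a₁) (0 : ℝ) = 0 := by simp
    rw [h3, add_zero] at hk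
    have h4 : q * max a₁ 0 = q * a₁ := by rw [max_eq_left ha.le]
    rw [h4] at hk
    rw [one_mul]
    calc Ro * (q * a₁ + ∫ u in (0 : ℝ)..a₁, k u) ≤ Ro * (κ * FJ (q * a₁ / κ)) :=
          mul_le_mul_of_nonneg_left hk hRo
      _ = κ * FJ (q * a₁ / κ) * Ro := by ring
      _ ≤ 1 := hr

/-- **the far part for an arbitrary odd field and an arbitrary outer resistance** -/
theorem far_oc (C : Calc M γ) {κ ε q a₁ Ro : ℝ} (hL : LevO C (fun a => κ * a) ε)
    (hε : 0 ≤ ε) (hκ : 0 < κ) (hq : 0 < q) (ha : 0 < a₁) (hφ : 0 < phJ (q * a₁ / κ))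
    (hO : OutCap C a₁ Ro) (hRo : 0 ≤ Ro) (hr : κ * FJ (q * a₁ / κ) * Ro ≤ 1)
    {w : Om → ℝ} (iw : Integrable w C.μ) (w0 : ∀ᵐ o ∂C.μ, 0 ≤ w o) (wq : ∀ᵐ o ∂C.μ, w o ≤ q)
    (wm : ∫ o, w o ∂C.μ ≤ q * a₁)
    {ξ : Fin 3 → M → ℝ} (hξ : ∀ i, Lip (ξ i)) (oξ : ∀ i, FPM.OddB γ (ξ i)) {R : ℝ} (hR0 : 0 ≤ R)
    (hb : ∀ i x, |ξ i x| ≤ R) :
    ∫ o, umod ξ (C.pt o) ^ 2 * w o ∂C.μ ≤ ∫ o, Gη C ξ o ∂C.μ + 3 * (q * ε * R ^ 2) := by
  have := C.fin
  have h1 : ∀ i, ∫ o, ξ i (C.pt o) ^ 2 * w o ∂C.μ ≤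
      ∫ o, gn C (ξ i) o ^ 2 ∂C.μ + q * ε * R ^ 2 := fun i =>
    far_oc_scalar C hL hε hκ hq ha hφ hO hRo hr iw w0 wq wm hR0 (hξ i) (oξ i) (hb i)
  have i1 : ∀ i, Integrable (fun o => ξ i (C.pt o) ^ 2 * w o) C.μ := fun i => by
    refine iw.bdd_mul (c := R ^ 2) ((aem_pt C (hξ i)).pow_const 2).aestronglyMeasurable ?_
    refine ae_of_all _ fun o => ?_
    rw [Real.norm_eq_abs, abs_pow]
    exact pow_le_pow_left₀ (abs_nonneg _) (hb i _) 2
  have e1 : ∫ o, umod ξ (C.pt o) ^ 2 * w o ∂C.μ =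
      ∑ i, ∫ o, ξ i (C.pt o) ^ 2 * w o ∂C.μ := by
    rw [← integral_finsetSum _ fun i _ => i1 i]
    refine integral_congr_ae (ae_of_all _ fun o => ?_)
    change _ = ∑ i, ξ i (C.pt o) ^ 2 * w o
    rw [← Finset.sum_mul, ← umod_sq]
  have e2 : ∫ o, Gη C ξ o ∂C.μ = ∑ i, ∫ o, gn C (ξ i) o ^ 2 ∂C.μ := by
    rw [← integral_finsetSum _ fun i _ => int_gn_sq C (hξ i)]
    refine integral_congr_ae (ae_of_all _ fun o => ?_)
    unfold Gη
    refine Finset.sum_congr rfl fun i _ => (gn_sq' C _ o).symm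
  rw [e1, e2]
  have h2 := Finset.sum_le_sum fun i (_ : i ∈ Finset.univ) => h1 i
  rw [Finset.sum_add_distrib] at h2
  simpa using h2

/-- **the hypothesis `hfar` of `mod_split`** for an arbitrary outer resistance, `e₂ = 3 q ε` -/
theorem hfar_oc [CompactSpace M] (C : Calc M γ) {κ ε q a₁ Ro : ℝ} (hL : LevO C (fun a => κ * a) ε)
    (hε : 0 ≤ ε) (hκ : 0 < κ) (hq : 0 < q) (ha : 0 < a₁) (hφ : 0 < phJ (q * a₁ / κ))
    (hO : OutCap C a₁ Ro) (hRo : 0 ≤ Ro) (hr : κ * FJ (q * a₁ / κ) * Ro ≤ 1)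
    {η : Fin 3 → M → ℝ} (hη : ∀ i, Lip (η i)) (oη : ∀ i, FPM.OddB γ (η i)) {t : ℝ} (ht : 0 < t)
    {θ : Om → ℝ} (iθ : Integrable θ C.μ) (θ0 : ∀ o, 0 ≤ θ o) (θ1 : ∀ o, θ o ≤ 1)
    (hθ : ∫ o, θ o ∂C.μ = a₁) :
    q * ∫ o, min (umod η (C.pt o)) t ^ 2 * θ o ∂C.μ ≤
      ∫ o, Gη C (utr t η) o ∂C.μ + 3 * q * ε * t ^ 2 := by
  have hb : ∀ i x, |utr t η i x| ≤ t := fun i x => by
    have h1 := abs_le_umod (utr t η) i x
    rw [utr_umod ht] at h1
    exact h1.trans (min_le_right _ _)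
  have h := far_oc C hL hε hκ hq ha hφ hO hRo hr (w := fun o => q * θ o) (iθ.const_mul q)
    (ae_of_all _ fun o => mul_nonneg hq.le (θ0 o))
    (ae_of_all _ fun o => by
      have := mul_le_mul_of_nonneg_left (θ1 o) hq.le
      linarith)
    (by rw [integral_const_mul, hθ]) (fun i => lip_utr ht hη i) (odd_utr oη) ht.le hb
  simp only [utr_umod ht] at h
  have e1 : ∫ o, min (umod η (C.pt o)) t ^ 2 * (q * θ o) ∂C.μ =
      q * ∫ o, min (umod η (C.pt o)) t ^ 2 * θ o ∂C.μ := by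
    rw [← integral_const_mul]
    refine integral_congr_ae (ae_of_all _ fun o => ?_)
    ring
  rw [e1] at h
  linarith

end Pool.Agent.FPX
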