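import Mathlib
import Pool.Agent.FPX.FRC

/-
FRZ (helper6): the outer resistance of FRC with a set `Z₀` as core zone: `x ≥ ∫_{M ∖ Z₀} ν`,
`Φ ≥ ∫_{Z₀} (|dv|² - J)`, where `|dv|² - J = ν + 2 |p| |q|`.
-/

open MeasureTheory Set Filter Topology
open scoped ENNReal NNReal

noncomputable section

namespace Pool.Agent.FPX

open Pool.Agent.EWD Pool.Agent.FPM

variable {M : Type} [MetricSpace M] {γ : ℝ → M}

/-- twice the product of the conformal and the anticonformal part, `|dv|² - J - ν` -/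
def pqC (C : Calc M γ) (v : Fin 3 → M → ℝ) (o : Om) : ℝ :=
  2 * ‖qp (at' C v o) (dx C v o) (dy C v o)‖ * ‖qm (at' C v o) (dx C v o) (dy C v o)‖

theorem pqC_nonneg (C : Calc M γ) (v : Fin 3 → M → ℝ) (o : Om) : 0 ≤ pqC C v o := by
  unfold pqC
  positivity

theorem pqC_int [CompactSpace M] (C : Calc M γ) {v : Fin 3 → M → ℝ} (hv : ∀ k, Lip (v k)) :
    Integrable (pqC C v) C.μ := by
  refine integrable_cont6 C hv hv
    (Ψ := fun q => 2 * ‖qp q.1 q.2.1 q.2.2.1‖ * ‖qm q.1 q.2.1 q.2.2.1‖) ?_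
  have h := qm_cont (f := fun q : E3 × E3 × E3 × E3 × E3 × E3 => q.1) (g := fun q => q.2.1)
    (h := fun q => q.2.2.1) (by fun_prop) (by fun_prop) (by fun_prop)
  have c1 : Continuous fun q : E3 × E3 × E3 × E3 × E3 × E3 => prj q.1 q.2.1 :=
    prj_cont (by fun_prop) (by fun_prop)
  have c2 : Continuous fun q : E3 × E3 × E3 × E3 × E3 × E3 => crs q.1 q.2.2.1 :=
    crs_cont.comp (g := fun q : E3 × E3 => crs q.1 q.2)
      (show Continuous fun q : E3 × E3 × E3 × E3 × E3 × E3 => (q.1, q.2.2.1) by fun_prop)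
  have h' : Continuous fun q : E3 × E3 × E3 × E3 × E3 × E3 => qp q.1 q.2.1 q.2.2.1 := by
    unfold qp
    fun_prop
  fun_prop

/-- `|dv|² = J + ν + 2 |p| |q|` -/
theorem opn_sq_eq (C : Calc M γ) {v : Fin 3 → M → ℝ} (hv : Sph γ v) :
    ∀ᵐ o ∂C.μ, opn C v o ^ 2 = jac C v o + (nuC C v o + pqC C v o) := by
  filter_upwards [ae_perp C hv] with o ho
  have h2 := jac_pm (norm_at (C := C) hv o) ho.1 ho.2
  unfold opn jac nuC nuv pqC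
  rw [h2]
  ring

theorem nuC_nonneg (C : Calc M γ) (v : Fin 3 → M → ℝ) (o : Om) : 0 ≤ nuC C v o := nuv_nonneg _ _ _

/-- **Outer resistance with the core zone `Z₀`**: `x ≥ ∫_{M ∖ Z₀} ν`, `Φ ≥ ∫_{Z₀} (ν + 2 |p| |q|)`. -/
theorem outCap_set [CompactSpace M] (C : Calc M γ) (hγ : Bd γ) (hR : RegAE C)
    {v : Fin 3 → M → ℝ} (hv : Sph γ v) (hJ : ∫ o, jac C v o ∂C.μ = 2 * Real.pi) {κ ε : ℝ}
    (hI : IsopO C κ ε) {Z₀ : Set Om} (mZ : NullMeasurableSet Z₀ C.μ) {f₁ : Om → ℝ}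
    {x Φ K' a₁ D c : ℝ} (hx : ∫ o in Z₀ᶜ, nuC C v o ∂C.μ ≤ x)
    (hΦ : ∫ o in Z₀, nuC C v o ∂C.μ + ∫ o in Z₀, pqC C v o ∂C.μ ≤ Φ)
    (if₁ : Integrable f₁ C.μ) (f₁n : ∀ᵐ o ∂C.μ, f₁ o ≤ nuC C v o)
    (hα : ∀ g : M → ℝ, Lip g → ∀ s, 0 ≤ s → a₁ ≤ supa C g s →
      a₁ - D - supw C g f₁ s ≤ supw C g (jac C v) s)
    (hc : 0 < c) (hK' : 0 ≤ K') (hA1 : 0 < a₁ - D - Φ - x)
    (hK : (1 + c * (1 / ((a₁ - D - Φ - x) * (4 * Real.pi - (a₁ - D - Φ - x))))) ^ 2 / (2 * c) ≤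
      K' + (1 / (4 * Real.pi ^ 2) + c * (1 / (4 * Real.pi ^ 2)) ^ 2)) {Ro : ℝ}
    (hRo : imG c (a₁ - D - Φ - x) + K' * x < Ro) :
    OutCap C a₁ Ro := by
  have := C.fin
  have iN : Integrable (nuC C v) C.μ := nuC_cint C hv.lip continuous_id
  have iP : Integrable (pqC C v) C.μ := pqC_int C hv.lip
  have iNP : Integrable (fun o => nuC C v o + pqC C v o) C.μ := iN.add iP
  refine outCap_zone_exp C hγ hR hv hJ hI (fo := Z₀ᶜ.indicator (nuC C v))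
    (φ := Z₀.indicator fun o => nuC C v o + pqC C v o) (iN.indicator₀ mZ.compl)
    (ae_of_all _ fun o => indicator_nonneg (fun o _ => nuC_nonneg C v o) o) ?_
    (iNP.indicator₀ mZ)
    (ae_of_all _ fun o => indicator_nonneg
      (fun o _ => add_nonneg (nuC_nonneg C v o) (pqC_nonneg C v o)) o) ?_ ?_ if₁ ?_ hα hc hK' hA1
    hK hRo
  · rw [integral_indicator₀ mZ.compl]
    exact hx
  · rw [integral_indicator₀ mZ, integral_add iN.integrableOn iP.integrableOn]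
    exact hΦ
  · filter_upwards [opn_sq_eq C hv] with o ho
    by_cases h : o ∈ Z₀
    · right
      rw [indicator_of_mem h, ho]
    · left
      rw [indicator_of_mem (show o ∈ Z₀ᶜ from h)]
  · filter_upwards [f₁n] with o ho
    by_cases h : o ∈ Z₀
    · rw [indicator_of_notMem (show o ∉ Z₀ᶜ from fun h' => h' h), indicator_of_mem h, zero_add]
      linarith [pqC_nonneg C v o]
    · rw [indicator_of_mem (show o ∈ Z₀ᶜ from h), indicator_of_notMem h, add_zero]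
      exact ho

/-- **The far part with the core zone `Z₀`** in the form of `hfar` of `mod_split`. -/
theorem hfar_set [CompactSpace M] (C : Calc M γ) (hγ : Bd γ) (hR : RegAE C)
    {v : Fin 3 → M → ℝ} (hv : Sph γ v) (hJ : ∫ o, jac C v o ∂C.μ = 2 * Real.pi) {κ ε : ℝ}
    (hI : IsopO C κ ε) (hε : 0 ≤ ε) (hκ : 0 < κ) {Z₀ : Set Om} (mZ : NullMeasurableSet Z₀ C.μ)
    {f₁ : Om → ℝ} {x Φ K' a₁ D c q : ℝ} (hx : ∫ o in Z₀ᶜ, nuC C v o ∂C.μ ≤ x)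
    (hΦ : ∫ o in Z₀, nuC C v o ∂C.μ + ∫ o in Z₀, pqC C v o ∂C.μ ≤ Φ)
    (if₁ : Integrable f₁ C.μ) (f₁n : ∀ᵐ o ∂C.μ, f₁ o ≤ nuC C v o)
    (hα : ∀ g : M → ℝ, Lip g → ∀ s, 0 ≤ s → a₁ ≤ supa C g s →
      a₁ - D - supw C g f₁ s ≤ supw C g (jac C v) s)
    (hc : 0 < c) (hK' : 0 ≤ K') (hq : 0 < q) (hA1 : 0 < a₁ - D - Φ - x) (ha : 0 < a₁)
    (hK : (1 + c * (1 / ((a₁ - D - Φ - x) * (4 * Real.pi - (a₁ - D - Φ - x))))) ^ 2 / (2 * c) ≤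
      K' + (1 / (4 * Real.pi ^ 2) + c * (1 / (4 * Real.pi ^ 2)) ^ 2))
    (hφ : 0 < phJ (q * a₁ / κ)) {Ro : ℝ} (hRp : 0 ≤ Ro)
    (hRo : imG c (a₁ - D - Φ - x) + K' * x < Ro) (hr : κ * FJ (q * a₁ / κ) * Ro ≤ 1)
    {η : Fin 3 → M → ℝ} (hη : ∀ i, Lip (η i)) (oη : ∀ i, FPM.OddB γ (η i)) :
    ∀ t, 0 < t → ∀ θ : Om → ℝ, Integrable θ C.μ → (∀ o, 0 ≤ θ o) → (∀ o, θ o ≤ 1) →
      ∫ o, θ o ∂C.μ = a₁ → q * ∫ o, min (umod η (C.pt o)) t ^ 2 * θ o ∂C.μ ≤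
        ∫ o, Gη C (utr t η) o ∂C.μ + 3 * q * ε * t ^ 2 :=
  fun _ ht _ iθ θ0 θ1 hθ => hfar_oc C (LevO.of_isop hI) hε hκ hq ha hφ
    (outCap_set C hγ hR hv hJ hI mZ hx hΦ if₁ f₁n hα hc hK' hA1 hK hRo) hRp hr hη oη ht iθ θ0 θ1 hθ

end Pool.Agent.FPX
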