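import Mathlib
import Pool.Agent.FPX.PIN

/-
GOP (helper69): local operators. `v(x) = G(s, Θ(x), F(x))` with a function `G` of class `C¹` on the
set where the exit function `m` is positive. There are potentials and `0 ≤ s < 1` with almost
maximal flux for `v`, where `m ≥ c` everywhere and `m = c` at some point unless `s = 0`.
-/

open MeasureTheory Set Filter Topology
open scoped ENNReal NNReal

noncomputable section

namespace Pool.Agent.FPX

open Pool.Agent.EWD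

variable {M : Type} [MetricSpace M] {γ : ℝ → M}

/-- the space of the values `(s, Θ(x), F(x))` -/
abbrev Q3 : Type := ℝ × (E3 × E3)

/-- a local operator -/
structure LOp where
  G : Q3 → E3
  m : Q3 → ℝ
  cm : Continuous m
  smooth : ∀ q : Q3, ‖q.2.2‖ = 1 → 0 < m q → ContDiffAt ℝ 1 G q
  unit : ∀ q : Q3, ‖q.2.2‖ = 1 → 0 < m q → ‖G q‖ = 1
  oddG : ∀ q : Q3, ‖q.2.2‖ = 1 → 0 < m q → G (q.1, (-q.2.1, -q.2.2)) = -G q
  evm : ∀ q : Q3, m (q.1, (-q.2.1, -q.2.2)) = m q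

/-- the values at the point `x` -/
def pnt (F : Fin 3 → M → ℝ) (s : ℝ) (T : Fin 3 → M → ℝ) (x : M) : Q3 :=
  (s, (vv (n := 0) T x, vv (n := 0) F x))

namespace LOp

variable (Λ : LOp)

/-- the map -/
def v (F : Fin 3 → M → ℝ) (s : ℝ) (T : Fin 3 → M → ℝ) (k : Fin 3) (x : M) : ℝ := Λ.G (pnt F s T x) k

/-- the exit function along the surface -/
def mm (F : Fin 3 → M → ℝ) (s : ℝ) (T : Fin 3 → M → ℝ) (x : M) : ℝ := Λ.m (pnt F s T x)

/-- the compact set of values -/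
def K (c : ℝ) : Set Q3 :=
  {q | q.1 ∈ Icc (0 : ℝ) 1 ∧ ‖q.2.1‖ ≤ 7 ∧ ‖q.2.2‖ = 1 ∧ c ≤ Λ.m q}

/-- the ball of all values -/
def KB : Set Q3 := Icc (0 : ℝ) 1 ×ˢ (Metric.closedBall (0 : E3) 7 ×ˢ Metric.closedBall (0 : E3) 1)

theorem KB_comp : IsCompact KB :=
  isCompact_Icc.prod ((isCompact_closedBall _ _).prod (isCompact_closedBall _ _))

theorem K_comp (c : ℝ) : IsCompact (Λ.K c) := by
  have h1 : Λ.K c = KB ∩ {q : Q3 | ‖q.2.2‖ = 1 ∧ c ≤ Λ.m q} := by
    ext q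
    simp only [K, KB, Set.mem_ofPred_eq, mem_inter_iff, mem_prod, Metric.mem_closedBall, dist_zero_right]
    constructor
    · rintro ⟨h1, h2, h3, h4⟩
      exact ⟨⟨h1, h2, h3.le⟩, h3, h4⟩
    · rintro ⟨⟨h1, h2, -⟩, h3, h4⟩
      exact ⟨h1, h2, h3, h4⟩
  rw [h1]
  refine KB_comp.inter_right ?_
  exact (isClosed_eq (by fun_prop) continuous_const).inter (isClosed_le continuous_const Λ.cm)

/-- the Lipschitz constant of `G` on the compact set -/
theorem exists_lip {c : ℝ} (hc : 0 < c) : ∃ L : ℝ≥0, LipschitzOnWith L Λ.G (Λ.K c) := by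
  refine LocallyLipschitzOn.exists_lipschitzOnWith_of_compact (Λ.K_comp c) ?_
  intro q hq
  obtain ⟨L, t, ht, h⟩ := (Λ.smooth q hq.2.2.1 (hc.trans_le hq.2.2.2)).exists_lipschitzOnWith
  exact ⟨L, t, mem_nhdsWithin_of_mem_nhds ht, h⟩

end LOp

/-! ### values -/

omit [MetricSpace M] in
private theorem GOP_vv (T : Fin 3 → M → ℝ) (x : M) (k : Fin 3) : vv (n := 0) T x k = T k x := by
  fin_cases k <;> rfl

omit [MetricSpace M] in
private theorem GOP_sub (U W : Fin 3 → M → ℝ) (x y : M) {e : ℝ} (he : 0 ≤ e)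
    (h : ∀ k, |U k x - W k y| ≤ e) : ‖vv (n := 0) U x - vv (n := 0) W y‖ ≤ 2 * e := by
  refine le_of_sq_le_sq ?_ (by positivity)
  rw [normsq3]
  have h0 := h 0
  have h1 := h 1
  have h2 := h 2
  change (U 0 x - W 0 y) ^ 2 + (U 1 x - W 1 y) ^ 2 + (U 2 x - W 2 y) ^ 2 ≤ _
  have g : ∀ a : ℝ, |a| ≤ e → a ^ 2 ≤ e ^ 2 := fun a ha => by
    rw [← sq_abs]
    exact pow_le_pow_left₀ (abs_nonneg _) ha 2
  nlinarith [g _ h0, g _ h1, g _ h2, sq_nonneg e]

private theorem GOP_coord (a : E3) (k : Fin 3) : |a k| ≤ ‖a‖ := by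
  refine abs_le_of_sq_le_sq ?_ (norm_nonneg _)
  rw [EuclideanSpace.real_norm_sq_eq]
  exact Finset.single_le_sum (f := fun i => a i ^ 2) (fun i _ => sq_nonneg _) (Finset.mem_univ k)

theorem norm_vv_pre {T : Fin 3 → M → ℝ} (hT : Pre γ T) (x : M) : ‖vv (n := 0) T x‖ ≤ 7 := by
  refine le_of_sq_le_sq ?_ (by norm_num)
  rw [normsq3]
  have g : ∀ a : ℝ, |a| ≤ 4 → a ^ 2 ≤ 16 := fun a ha => by
    have := pow_le_pow_left₀ (abs_nonneg _) ha 2
    rw [sq_abs] at this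
    linarith
  have h0 := g _ (hT.bd 0 x)
  have h1 := g _ (hT.bd 1 x)
  have h2 := g _ (hT.bd 2 x)
  change T 0 x ^ 2 + T 1 x ^ 2 + T 2 x ^ 2 ≤ _
  linarith

theorem pnt_mem {F T : Fin 3 → M → ℝ} (hF : Sph γ F) (hT : Pre γ T) {s : ℝ} (hs : s ∈ Icc (0 : ℝ) 1)
    (x : M) : pnt F s T x ∈ LOp.KB := by
  refine ⟨hs, ?_, ?_⟩
  · simpa [pnt] using norm_vv_pre hT x
  · simp [pnt, norm_vv hF x]

theorem pnt_dist {F T : Fin 3 → M → ℝ} {LF : ℝ≥0} (hF : ∀ k, LipschitzWith LF (F k)) (hT : Pre γ T)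
    (s : ℝ) (x y : M) : dist (pnt F s T x) (pnt F s T y) ≤ 2 * (3 + LF) * dist x y := by
  have h1 : ‖vv (n := 0) T x - vv (n := 0) T y‖ ≤ 2 * (3 * dist x y) :=
    GOP_sub T T x y (by positivity) fun k => by
      have := (hT.lip k).dist_le_mul x y
      rw [Real.dist_eq] at this
      simpa using this
  have h2 : ‖vv (n := 0) F x - vv (n := 0) F y‖ ≤ 2 * (LF * dist x y) :=
    GOP_sub F F x y (by positivity) fun k => by
      have := (hF k).dist_le_mul x y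
      rwa [Real.dist_eq] at this
  have h3 : (0 : ℝ) ≤ LF * dist x y := by positivity
  have h4 : 0 ≤ dist x y := dist_nonneg
  rw [Prod.dist_eq, Prod.dist_eq]
  refine max_le ?_ (max_le ?_ ?_)
  · simp only [pnt, dist_self]
    positivity
  · change dist (vv (n := 0) T x) (vv (n := 0) T y) ≤ _
    rw [dist_eq_norm]
    linarith
  · change dist (vv (n := 0) F x) (vv (n := 0) F y) ≤ _
    rw [dist_eq_norm]
    linarith

theorem pnt_cont {F T : Fin 3 → M → ℝ} {LF : ℝ≥0} (hF : ∀ k, LipschitzWith LF (F k)) (hT : Pre γ T)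
    (s : ℝ) : Continuous (pnt F s T) := by
  refine LipschitzWith.continuous (K := 2 * (3 + LF)) (LipschitzWith.of_dist_le_mul fun x y => ?_)
  have := pnt_dist hF hT s x y
  push_cast
  exact this

omit [MetricSpace M] in
private theorem GOP_neg {U : Fin 3 → M → ℝ} {x y : M} (h : ∀ k, U k x = -U k y) :
    vv (n := 0) U x = -vv (n := 0) U y := by
  ext k
  rw [PiLp.neg_apply]
  fin_cases k
  · exact h 0
  · exact h 1
  · exact h 2

theorem pnt_odd {F T : Fin 3 → M → ℝ} (hF : Sph γ F) (hT : Pre γ T) (s t : ℝ) :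
    pnt F s T (γ (t + Real.pi)) =
      ((pnt F s T (γ t)).1, (-(pnt F s T (γ t)).2.1, -(pnt F s T (γ t)).2.2)) := by
  unfold pnt
  rw [GOP_neg (x := γ (t + Real.pi)) (y := γ t) fun k => hT.odd k t,
    GOP_neg (x := γ (t + Real.pi)) (y := γ t) fun k => hF.odd k t]

namespace LOp

variable (Λ : LOp)

theorem mm_cont {F T : Fin 3 → M → ℝ} {LF : ℝ≥0} (hF : ∀ k, LipschitzWith LF (F k)) (hT : Pre γ T)
    (s : ℝ) : Continuous (Λ.mm F s T) := Λ.cm.comp (pnt_cont hF hT s)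

theorem pnt_K {F T : Fin 3 → M → ℝ} (hF : Sph γ F) (hT : Pre γ T) {s : ℝ} (hs : s ∈ Icc (0 : ℝ) 1)
    {c : ℝ} {x : M} (hm : c ≤ Λ.mm F s T x) : pnt F s T x ∈ Λ.K c :=
  ⟨hs, norm_vv_pre hT x, norm_vv hF x, hm⟩

theorem v_lip {F T : Fin 3 → M → ℝ} (hF : Sph γ F) {LF : ℝ≥0} (hLF : ∀ k, LipschitzWith LF (F k))
    (hT : Pre γ T) {s : ℝ} (hs : s ∈ Icc (0 : ℝ) 1) {c : ℝ} {L : ℝ≥0}
    (hL : LipschitzOnWith L Λ.G (Λ.K c)) (hm : ∀ x, c ≤ Λ.mm F s T x) (k : Fin 3) :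
    LipschitzWith (L * (2 * (3 + LF))) (Λ.v F s T k) := by
  refine LipschitzWith.of_dist_le_mul fun x y => ?_
  have h1 := hL.dist_le_mul _ (Λ.pnt_K hF hT hs (hm x)) _ (Λ.pnt_K hF hT hs (hm y))
  have h2 := pnt_dist hLF hT s x y
  rw [Real.dist_eq]
  unfold v
  have h3 := GOP_coord (Λ.G (pnt F s T x) - Λ.G (pnt F s T y)) k
  rw [PiLp.sub_apply, ← dist_eq_norm] at h3
  refine h3.trans (h1.trans ?_)
  calc (L : ℝ) * dist (pnt F s T x) (pnt F s T y) ≤ L * (2 * (3 + LF) * dist x y) := by gcongr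
    _ = _ := by
        push_cast
        ring

theorem v_sph {F T : Fin 3 → M → ℝ} (hF : Sph γ F) {LF : ℝ≥0} (hLF : ∀ k, LipschitzWith LF (F k))
    (hT : Pre γ T) {s : ℝ} (hs : s ∈ Icc (0 : ℝ) 1) {c : ℝ} (hc : 0 < c)
    (hm : ∀ x, c ≤ Λ.mm F s T x) : Sph γ (Λ.v F s T) := by
  obtain ⟨L, hL⟩ := Λ.exists_lip hc
  refine ⟨fun k => ⟨_, Λ.v_lip hF hLF hT hs hL hm k⟩, fun x => ?_, fun k t => ?_⟩
  · have h1 := Λ.unit (pnt F s T x) (norm_vv hF x) (hc.trans_le (hm x))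
    have h2 := EuclideanSpace.real_norm_sq_eq (Λ.G (pnt F s T x))
    rw [h1, one_pow] at h2
    exact h2.symm
  · have h1 : Λ.G ((pnt F s T (γ t)).1, (-(pnt F s T (γ t)).2.1, -(pnt F s T (γ t)).2.2))
        = -Λ.G (pnt F s T (γ t)) :=
      Λ.oddG (pnt F s T (γ t)) (norm_vv hF (γ t)) (hc.trans_le (hm (γ t)))
    rw [← pnt_odd hF hT s t] at h1
    change Λ.G (pnt F s T (γ (t + Real.pi))) k = -(Λ.G (pnt F s T (γ t)) k)
    rw [h1, PiLp.neg_apply]

end LOp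

/-! ### derivatives along a curve -/

/-- a vector from its components -/
def tE (g : Fin 3 → ℝ) : E3 := !₂[g 0, g 1, g 2]

theorem tE_tendsto {g : ℕ → Fin 3 → ℝ} {g₀ : Fin 3 → ℝ}
    (h : ∀ k, Tendsto (fun j => g j k) atTop (𝓝 (g₀ k))) :
    Tendsto (fun j => tE (g j)) atTop (𝓝 (tE g₀)) := by
  have h1 : Tendsto (fun j => (![g j 0, g j 1, g j 2] : Fin 3 → ℝ)) atTop (𝓝 ![g₀ 0, g₀ 1, g₀ 2]) := by
    rw [tendsto_pi_nhds]
    intro k
    fin_cases k
    · exact h 0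
    · exact h 1
    · exact h 2
  exact ((PiLp.continuous_toLp 2 _).tendsto _).comp h1

omit [MetricSpace M] in
theorem has_vv {U : Fin 3 → M → ℝ} {c : ℝ → M} {g : Fin 3 → ℝ}
    (h : ∀ k, HasDerivAt (fun t => U k (c t)) (g k) 0) :
    HasDerivAt (fun t => vv (n := 0) U (c t)) (tE g) 0 := by
  have h1 : HasDerivAt (fun t => (![U 0 (c t), U 1 (c t), U 2 (c t)] : Fin 3 → ℝ)) ![g 0, g 1, g 2] 0 := by
    rw [hasDerivAt_pi]
    intro k
    fin_cases k
    · exact h 0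
    · exact h 1
    · exact h 2
  exact ((EuclideanSpace.equiv (Fin 3) ℝ).symm.toContinuousLinearMap.hasFDerivAt.comp_hasDerivAt (0 : ℝ) h1)

omit [MetricSpace M] in
theorem has_pnt {F T : Fin 3 → M → ℝ} {s : ℝ} {c : ℝ → M} {gT gF : Fin 3 → ℝ}
    (hT : ∀ k, HasDerivAt (fun t => T k (c t)) (gT k) 0)
    (hF : ∀ k, HasDerivAt (fun t => F k (c t)) (gF k) 0) :
    HasDerivAt (fun t => pnt F s T (c t)) ((0 : ℝ), (tE gT, tE gF)) 0 :=
  (hasDerivAt_const (0 : ℝ) s).prodMk ((has_vv hT).prodMk (has_vv hF))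

/-- the derivative of the map in terms of the derivatives of `Θ` and `F` -/
def LOp.dG (Λ : LOp) (q : Q3) (gT gF : E3) : E3 := fderiv ℝ Λ.G q ((0 : ℝ), (gT, gF))

namespace LOp

variable (Λ : LOp)

omit [MetricSpace M] in
theorem has_v {F T : Fin 3 → M → ℝ} {s : ℝ} {c : ℝ → M} {gT gF : Fin 3 → ℝ}
    (hT : ∀ k, HasDerivAt (fun t => T k (c t)) (gT k) 0)
    (hF : ∀ k, HasDerivAt (fun t => F k (c t)) (gF k) 0)
    (hd : DifferentiableAt ℝ Λ.G (pnt F s T (c 0))) (k : Fin 3) :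
    HasDerivAt (fun t => Λ.v F s T k (c t)) (Λ.dG (pnt F s T (c 0)) (tE gT) (tE gF) k) 0 := by
  have h1 := hd.hasFDerivAt.comp_hasDerivAt (0 : ℝ) (has_pnt (s := s) hT hF)
  have h2 := ((EuclideanSpace.proj k : E3 →L[ℝ] ℝ).hasFDerivAt (x := Λ.G (pnt F s T (c 0)))).comp_hasDerivAt
    (0 : ℝ) h1
  exact h2

theorem dG_tendsto {q : ℕ → Q3} {q₀ : Q3} (hq : Tendsto q atTop (𝓝 q₀)) {a b : ℕ → E3} {a₀ b₀ : E3}
    (ha : Tendsto a atTop (𝓝 a₀)) (hb : Tendsto b atTop (𝓝 b₀)) (hs : ContDiffAt ℝ 1 Λ.G q₀) :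
    Tendsto (fun j => Λ.dG (q j) (a j) (b j)) atTop (𝓝 (Λ.dG q₀ a₀ b₀)) := by
  have h1 : ContinuousAt (fderiv ℝ Λ.G) q₀ := by
    have h2 : ContDiffAt ℝ 0 (fderiv ℝ Λ.G) q₀ := hs.fderiv_right (by norm_num)
    exact h2.continuousAt
  have h2 : Tendsto (fun j => fderiv ℝ Λ.G (q j)) atTop (𝓝 (fderiv ℝ Λ.G q₀)) := h1.tendsto.comp hq
  have h3 : Tendsto (fun j => ((0 : ℝ), (a j, b j))) atTop (𝓝 ((0 : ℝ), (a₀, b₀))) :=
    tendsto_const_nhds.prodMk_nhds (ha.prodMk_nhds hb)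
  exact (isBoundedBilinearMap_apply (𝕜 := ℝ) (E := Q3) (F := E3)).continuous.continuousAt.tendsto.comp
    (h2.prodMk_nhds h3)

end LOp

/-! ### the operator -/

section
variable [CompactSpace M]

omit [CompactSpace M] in
private theorem GOP_pnt_sub {F : Fin 3 → M → ℝ} {n : ℕ} {th : Fin n → M → ℝ}
    (hth : ∀ i, Adm γ (th i)) (a a₀ : Fin n → Fin 3 → ℝ) {s s₀ : ℝ} {e : ℝ} (he : 0 ≤ e)
    (h : ∀ k, (∑ i, |a i k - a₀ i k|) * (Real.pi / 2) + |s - s₀| ≤ e) (x : M) :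
    dist (pnt F s (comb a th) x) (pnt F s₀ (comb a₀ th) x) ≤ 2 * e := by
  have h1 : ∀ k, |comb a th k x - comb a₀ th k x| ≤ (∑ i, |a i k - a₀ i k|) * (Real.pi / 2) := by
    intro k
    unfold comb
    rw [← Finset.sum_sub_distrib, Finset.sum_mul]
    refine (Finset.abs_sum_le_sum_abs _ _).trans (Finset.sum_le_sum fun i _ => ?_)
    rw [← sub_mul, abs_mul]
    exact mul_le_mul_of_nonneg_left ((hth i).bd x) (abs_nonneg _)
  have h2 : ‖vv (n := 0) (comb a th) x - vv (n := 0) (comb a₀ th) x‖ ≤ 2 * e :=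
    GOP_sub _ _ x x he fun k => (h1 k).trans (by linarith [h k, abs_nonneg (s - s₀)])
  rw [Prod.dist_eq, Prod.dist_eq]
  refine max_le ?_ (max_le ?_ ?_)
  · change dist s s₀ ≤ _
    rw [Real.dist_eq]
    have h3 : 0 ≤ (∑ i, |a i 0 - a₀ i 0|) * (Real.pi / 2) := by positivity
    linarith [h 0]
  · change dist (vv (n := 0) (comb a th) x) (vv (n := 0) (comb a₀ th) x) ≤ _
    rw [dist_eq_norm]
    exact h2
  · change dist (vv (n := 0) F x) (vv (n := 0) F x) ≤ _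
    rw [dist_self]
    positivity

variable [Nonempty M]

omit [CompactSpace M] [Nonempty M] in
/-- uniform convergence of the exit functions -/
private theorem GOP_unif (Λ : LOp) {F : Fin 3 → M → ℝ} (hF : Sph γ F) {n : ℕ} {th : Fin n → M → ℝ}
    (hth : ∀ i, Adm γ (th i)) {a : ℕ → Fin n → Fin 3 → ℝ} {a₀ : Fin n → Fin 3 → ℝ}
    {s : ℕ → ℝ} {s₀ : ℝ} (hs : ∀ j, s j ∈ Icc (0 : ℝ) 1) (hs₀ : s₀ ∈ Icc (0 : ℝ) 1)
    (hp : ∀ j, Pre γ (comb (a j) th)) (hp₀ : Pre γ (comb a₀ th)) {e : ℕ → ℝ} (he : ∀ j, 0 ≤ e j)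
    (he0 : Tendsto e atTop (𝓝 0))
    (h : ∀ j k, (∑ i, |a j i k - a₀ i k|) * (Real.pi / 2) + |s j - s₀| ≤ e j) {η : ℝ} (hη : 0 < η) :
    ∀ᶠ j in atTop, ∀ x, |Λ.mm F (s j) (comb (a j) th) x - Λ.mm F s₀ (comb a₀ th) x| ≤ η := by
  have hu := LOp.KB_comp.uniformContinuousOn_of_continuous Λ.cm.continuousOn
  rw [Metric.uniformContinuousOn_iff] at hu
  obtain ⟨δ, hδ, hd⟩ := hu η hη
  have h1 : Tendsto (fun j => 2 * e j) atTop (𝓝 0) := by simpa using he0.const_mul 2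
  filter_upwards [h1.eventually_lt_const hδ] with j hj x
  have h2 := hd _ (pnt_mem hF (hp j) (hs j) x) _ (pnt_mem hF hp₀ hs₀ x)
    ((GOP_pnt_sub hth (a j) a₀ (he j) (h j) x).trans_lt hj)
  rw [Real.dist_eq] at h2
  exact h2.le

/-- the operator -/
def LOp.opC (Λ : LOp) (C : Calc M γ) {F : Fin 3 → M → ℝ} (hF : Sph γ F) {LF : ℝ≥0}
    (hLF : ∀ k, LipschitzWith LF (F k)) {c : ℝ} (hc : 0 < c) {L : ℝ≥0}
    (hL : LipschitzOnWith L Λ.G (Λ.K (c / 2))) : OpC C where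
  V := fun s T => Λ.v F s T
  σ := fun s T => max 0 (min 1 (s + c - mn (Λ.mm F s T)))
  ψ := fun s T => max 0 (min 1 (2 * mn (Λ.mm F s T) / c - 1))
  base := F
  L := L * (2 * (3 + LF)) + LF
  sph0 := hF
  lip0 := fun k => (hLF k).weaken (le_add_of_nonneg_left zero_le)
  sph := by
    intro s hs T hT hψ
    refine Λ.v_sph hF hLF hT hs (half_pos hc) fun x => ?_
    have h1 : 0 < 2 * mn (Λ.mm F s T) / c - 1 := by
      by_contra h
      rw [not_lt] at h
      have h2 : min 1 (2 * mn (Λ.mm F s T) / c - 1) ≤ 0 := (min_le_right _ _).trans h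
      rw [max_eq_left h2] at hψ
      exact lt_irrefl _ hψ
    have h2 : c < 2 * mn (Λ.mm F s T) := by
      rw [sub_pos, one_lt_div hc] at h1
      exact h1
    have h3 := mn_le (Λ.mm_cont hLF hT s) x
    linarith
  lip := by
    intro s hs T hT hψ k
    refine (Λ.v_lip hF hLF hT hs hL (fun x => ?_) k).weaken (le_add_of_nonneg_right zero_le)
    have h1 : 0 < 2 * mn (Λ.mm F s T) / c - 1 := by
      by_contra h
      rw [not_lt] at h
      have h2 : min 1 (2 * mn (Λ.mm F s T) / c - 1) ≤ 0 := (min_le_right _ _).trans h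
      rw [max_eq_left h2] at hψ
      exact lt_irrefl _ hψ
    have h2 : c < 2 * mn (Λ.mm F s T) := by
      rw [sub_pos, one_lt_div hc] at h1
      exact h1
    have h3 := mn_le (Λ.mm_cont hLF hT s) x
    linarith
  mem := fun s _ T _ => ⟨le_max_left _ _, max_le zero_le_one (min_le_left _ _)⟩
  memψ := fun s _ T _ => ⟨le_max_left _ _, max_le zero_le_one (min_le_left _ _)⟩
  cont := by
    intro n th hth a a₀ ha s s₀ hs hs₀ hss hp hp₀
    have hak : ∀ i k, Tendsto (fun j => a j i k) atTop (𝓝 (a₀ i k)) := fun i k =>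
      (tendsto_pi_nhds.1 ((tendsto_pi_nhds.1 ha) i)) k
    -- uniform convergence
    set e : ℕ → ℝ := fun j => ∑ k : Fin 3, ((∑ i, |a j i k - a₀ i k|) * (Real.pi / 2) + |s j - s₀|)
      with he
    have he0 : Tendsto e atTop (𝓝 0) := by
      have h1 : ∀ k : Fin 3, Tendsto (fun j => (∑ i, |a j i k - a₀ i k|) * (Real.pi / 2)
          + |s j - s₀|) atTop (𝓝 0) := by
        intro k
        have h2 : ∀ i, Tendsto (fun j => |a j i k - a₀ i k|) atTop (𝓝 0) := fun i => by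
          simpa using ((hak i k).sub_const (a₀ i k)).abs
        have h3 : Tendsto (fun j => |s j - s₀|) atTop (𝓝 0) := by
          simpa using (hss.sub_const s₀).abs
        have h4 := ((tendsto_finsetSum Finset.univ fun i _ => h2 i).mul_const (Real.pi / 2)).add h3
        simpa using h4
      have h5 := tendsto_finsetSum Finset.univ fun k _ => h1 k
      simpa using h5
    have hen : ∀ j k, (∑ i, |a j i k - a₀ i k|) * (Real.pi / 2) + |s j - s₀| ≤ e j := by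
      intro j k
      have hpi := Real.pi_pos
      exact Finset.single_le_sum (f := fun k : Fin 3 => (∑ i, |a j i k - a₀ i k|) * (Real.pi / 2)
        + |s j - s₀|) (fun k _ => by positivity) (Finset.mem_univ k)
    have he1 : ∀ j, 0 ≤ e j := fun j => by
      have hpi := Real.pi_pos
      exact Finset.sum_nonneg fun k _ => by positivity
    have hmn : Tendsto (fun j => mn (Λ.mm F (s j) (comb (a j) th))) atTop
        (𝓝 (mn (Λ.mm F s₀ (comb a₀ th)))) := by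
      rw [Metric.tendsto_atTop']
      intro η hη
      have h1 := GOP_unif Λ hF hth hs hs₀ hp hp₀ he1 he0 hen (half_pos hη)
      obtain ⟨N, hN⟩ := eventually_atTop.1 h1
      refine ⟨N, fun j hj => ?_⟩
      rw [Real.dist_eq]
      exact (mn_sub (Λ.mm_cont hLF (hp j) (s j)) (Λ.mm_cont hLF hp₀ s₀) (hN j hj.le)).trans_lt
        (half_lt_self hη)
    refine ⟨?_, ?_, fun hψ => ?_⟩
    · exact tendsto_const_nhds.max (tendsto_const_nhds.min ((hss.add_const c).sub hmn))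
    · exact tendsto_const_nhds.max (tendsto_const_nhds.min
        (((hmn.const_mul 2).div_const c).sub_const 1))
    · have h1 : 0 < 2 * mn (Λ.mm F s₀ (comb a₀ th)) / c - 1 := by
        by_contra h
        rw [not_lt] at h
        have h2 : min 1 (2 * mn (Λ.mm F s₀ (comb a₀ th)) / c - 1) ≤ 0 := (min_le_right _ _).trans h
        rw [max_eq_left h2] at hψ
        exact lt_irrefl _ hψ
      have h2 : c < 2 * mn (Λ.mm F s₀ (comb a₀ th)) := by
        rw [sub_pos, one_lt_div hc] at h1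
        exact h1
      have hr0 : ∀ x, 0 < Λ.mm F s₀ (comb a₀ th) x := fun x => by
        have h3 := mn_le (Λ.mm_cont hLF hp₀ s₀) x
        linarith
      have hsm : ∀ x, ContDiffAt ℝ 1 Λ.G (pnt F s₀ (comb a₀ th) x) := fun x =>
        Λ.smooth _ (norm_vv hF x) (hr0 x)
      have hA : ∀ᵐ o ∂C.μ, ∀ i, HasDerivAt (fun s => th i (C.px o s)) (C.gx (th i) o) 0 ∧
          HasDerivAt (fun s => th i (C.py o s)) (C.gy (th i) o) 0 :=
        ae_all_iff.mpr fun i => C.ae_has (lip_of_adm (hth i))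
      have hB : ∀ᵐ o ∂C.μ, ∀ k, HasDerivAt (fun s => F k (C.px o s)) (C.gx (F k) o) 0 ∧
          HasDerivAt (fun s => F k (C.py o s)) (C.gy (F k) o) 0 :=
        ae_all_iff.mpr fun k => C.ae_has (hF.lip k)
      filter_upwards [hA, hB] with o hoA hoB k
      have hval : ∀ x, Tendsto (fun j => pnt F (s j) (comb (a j) th) x) atTop
          (𝓝 (pnt F s₀ (comb a₀ th) x)) := by
        intro x
        rw [tendsto_iff_dist_tendsto_zero]
        have h6 : Tendsto (fun j => 2 * e j) atTop (𝓝 0) := by simpa using he0.const_mul 2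
        exact squeeze_zero (fun _ => dist_nonneg)
          (fun j => GOP_pnt_sub hth (a j) a₀ (he1 j) (hen j) x) h6
      have hder : ∀ (cu : ℝ → M) (gt : Fin n → ℝ) (gF : Fin 3 → ℝ),
          (∀ i, HasDerivAt (fun t => th i (cu t)) (gt i) 0) →
          (∀ k, HasDerivAt (fun t => F k (cu t)) (gF k) 0) → ∀ k,
          Tendsto (fun j => deriv (fun t => Λ.v F (s j) (comb (a j) th) k (cu t)) 0) atTop
            (𝓝 (deriv (fun t => Λ.v F s₀ (comb a₀ th) k (cu t)) 0)) := by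
        intro cu gt gF h1 h2 k
        have hU : ∀ (b : Fin n → Fin 3 → ℝ) (i : Fin 3),
            HasDerivAt (fun t => comb b th i (cu t)) (∑ l, b l i * gt l) 0 := fun b i =>
          HasDerivAt.fun_sum fun l _ => (h1 l).const_mul (b l i)
        have h0 : deriv (fun t => Λ.v F s₀ (comb a₀ th) k (cu t)) 0 =
            Λ.dG (pnt F s₀ (comb a₀ th) (cu 0)) (tE fun i => ∑ l, a₀ l i * gt l) (tE gF) k :=
          (Λ.has_v (hU a₀) h2 ((hsm (cu 0)).differentiableAt one_ne_zero) k).deriv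
        rw [h0]
        have hev : ∀ᶠ j in atTop, ContDiffAt ℝ 1 Λ.G (pnt F (s j) (comb (a j) th) (cu 0)) :=
          (hval (cu 0)).eventually ((hsm (cu 0)).eventually (by simp))
        have hev2 : (fun j => Λ.dG (pnt F (s j) (comb (a j) th) (cu 0))
            (tE fun i => ∑ l, a j l i * gt l) (tE gF) k) =ᶠ[atTop]
            fun j => deriv (fun t => Λ.v F (s j) (comb (a j) th) k (cu t)) 0 := by
          filter_upwards [hev] with j hj
          exact ((Λ.has_v (hU (a j)) h2 (hj.differentiableAt one_ne_zero) k).deriv).symm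
        refine Tendsto.congr' hev2 ?_
        have h5 : Tendsto (fun j => tE fun i => ∑ l, a j l i * gt l) atTop
            (𝓝 (tE fun i => ∑ l, a₀ l i * gt l)) :=
          tE_tendsto fun i => tendsto_finsetSum _ fun l _ => (hak l i).mul_const _
        have h6 := Λ.dG_tendsto (hval (cu 0)) h5 (tendsto_const_nhds (x := tE gF)) (hsm (cu 0))
        exact ((EuclideanSpace.proj k : E3 →L[ℝ] ℝ).continuous.tendsto _).comp h6
      refine ⟨?_, ?_, ?_⟩
      · have h6 : Tendsto (fun j => Λ.G (pnt F (s j) (comb (a j) th) (C.pt o))) atTop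
            (𝓝 (Λ.G (pnt F s₀ (comb a₀ th) (C.pt o)))) :=
          (hsm (C.pt o)).continuousAt.tendsto.comp (hval (C.pt o))
        exact ((EuclideanSpace.proj k : E3 →L[ℝ] ℝ).continuous.tendsto _).comp h6
      · exact hder (C.px o) (fun i => C.gx (th i) o) (fun k => C.gx (F k) o) (fun i => (hoA i).1)
          (fun k => (hoB k).1) k
      · exact hder (C.py o) (fun i => C.gy (th i) o) (fun k => C.gy (F k) o) (fun i => (hoA i).2)
          (fun k => (hoB k).2) k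

/-- PINNED FIXED POINTS FOR LOCAL OPERATORS. The Lipschitz constant depends only on the operator,
on `c` and on the Lipschitz constant of `F`. -/
theorem gop_fix (Λ : LOp) {c : ℝ} (hc : 0 < c)
    (h1 : ∀ t f : E3, ‖t‖ ≤ 7 → ‖f‖ = 1 → c < Λ.m (1, (t, f))) : ∃ L : ℝ≥0,
    ∀ (C : Calc M γ) (_ : Bd γ) (_ : RegAE C) {F : Fin 3 → M → ℝ} (_ : Sph γ F)
    {LF : ℝ≥0} (_ : ∀ k, LipschitzWith LF (F k)) {ε : ℝ} (_ : 0 < ε),
    ∃ (G : Fam γ) (s : ℝ), 0 ≤ s ∧ s < 1 ∧ Pre γ G.Th ∧ (∀ x, c ≤ Λ.mm F s G.Th x) ∧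
      (s = 0 ∨ ∃ x, Λ.mm F s G.Th x = c) ∧ Sph γ (Λ.v F s G.Th) ∧
      (∀ k, LipschitzWith (L * (2 * (3 + LF))) (Λ.v F s G.Th k)) ∧
      Real.pi ^ 2 - ε ≤ ∫ p, Flux C (G.f p) (Λ.v F s G.Th) p ∂PP := by
  obtain ⟨L, hL⟩ := Λ.exists_lip (half_pos hc)
  refine ⟨L, fun C hγ hR F hF LF hLF ε hε => ?_⟩
  obtain ⟨G, s, hs, hpre, hσ, hfl⟩ := fixpt_c C hγ hR (Λ.opC C hF hLF hc hL) hε
  change max 0 (min 1 (s + c - mn (Λ.mm F s G.Th))) = s at hσ
  change max 0 (min 1 (2 * mn (Λ.mm F s G.Th) / c - 1)) = 1 → _ at hfl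
  have hcont := Λ.mm_cont hLF hpre s
  -- `s < 1`
  have hs1 : s < 1 := by
    refine lt_of_le_of_ne hs.2 fun h2 => ?_
    subst h2
    have hm : c < mn (Λ.mm F 1 G.Th) := by
      obtain ⟨x, hx⟩ := mn_mem hcont
      rw [← hx]
      exact h1 _ _ (norm_vv_pre hpre x) (norm_vv hF x)
    have h4 : min 1 (1 + c - mn (Λ.mm F 1 G.Th)) < 1 := by
      refine (min_le_right _ _).trans_lt ?_
      linarith
    have h5 : max 0 (min 1 (1 + c - mn (Λ.mm F 1 G.Th))) < 1 := max_lt one_pos h4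
    linarith
  -- the minimum is at least `c`
  have hmc : c ≤ mn (Λ.mm F s G.Th) ∧ (s = 0 ∨ mn (Λ.mm F s G.Th) = c) := by
    rcases hs.1.eq_or_lt with h0 | h0
    · rw [← h0] at hσ ⊢
      refine ⟨?_, Or.inl rfl⟩
      have h2 : min 1 (0 + c - mn (Λ.mm F 0 G.Th)) ≤ 0 := (le_max_right (0 : ℝ) _).trans hσ.le
      rcases min_le_iff.1 h2 with h3 | h3
      · linarith
      · linarith
    · have h2 : min 1 (s + c - mn (Λ.mm F s G.Th)) = s := by
        rcases max_choice 0 (min 1 (s + c - mn (Λ.mm F s G.Th))) with h3 | h3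
        · rw [h3] at hσ
          linarith
        · rw [h3] at hσ
          exact hσ
      have h3 : s + c - mn (Λ.mm F s G.Th) = s := by
        rcases min_choice 1 (s + c - mn (Λ.mm F s G.Th)) with h4 | h4
        · rw [h4] at h2
          linarith
        · rw [h4] at h2
          exact h2
      exact ⟨by linarith, Or.inr (by linarith)⟩
  have hψ : max 0 (min 1 (2 * mn (Λ.mm F s G.Th) / c - 1)) = 1 := by
    have h2 : 1 ≤ 2 * mn (Λ.mm F s G.Th) / c - 1 := by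
      rw [le_sub_iff_add_le, le_div_iff₀ hc]
      linarith [hmc.1]
    rw [min_eq_left h2]
    exact max_eq_right zero_le_one
  have hmx : ∀ x, c ≤ Λ.mm F s G.Th x := fun x => hmc.1.trans (mn_le hcont x)
  refine ⟨G, s, hs.1, hs1, hpre, hmx, ?_, Λ.v_sph hF hLF hpre hs hc hmx,
    fun k => Λ.v_lip hF hLF hpre hs hL (fun x => ?_) k, hfl hψ⟩
  · rcases hmc.2 with h | h
    · exact Or.inl h
    · obtain ⟨x, hx⟩ := mn_mem hcont
      exact Or.inr ⟨x, hx.trans h⟩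
  · exact (half_le_self hc.le).trans (hmx x)

end

end Pool.Agent.FPX
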