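import Mathlib
import Pool.Agent.FPX.GRO

/-
GRE (helper82): growth of the area of the superlevel sets of an even Lipschitz function, with an
exceptional set on which only the integral of the gradient is controlled.
-/

open MeasureTheory Set Filter Topology
open scoped ENNReal NNReal

noncomputable section

namespace Pool.Agent.FPX

open Pool.Agent.EWD Pool.Agent.FPM

variable {M : Type} [MetricSpace M] {γ : ℝ → M} (C : Calc M γ)

theorem gre_inf (u : M → ℝ) (t : ℝ) :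
    inf' C (fun x => -u x) (-t) = (C.μ {o | t < u (C.pt o)}).toReal := by
  unfold inf'
  congr 2
  ext o
  change -u (C.pt o) < -t ↔ t < u (C.pt o)
  exact neg_lt_neg_iff

/-- growth with an exceptional set, even functions, up to half of the area -/
theorem gro_even {κ ε : ℝ} (hI : Isop C κ ε) (hκ : 0 ≤ κ) {u : M → ℝ} (hu : Lip u)
    (he : EvenB γ u) {O : Set Om} (hO : NullMeasurableSet O C.μ) {L : ℝ} (hL : 0 < L)
    (hLO : ∀ᵐ o ∂C.μ, o ∉ O → gn C u o ≤ L) {q : ℝ} (hq : ∫ o in O, gn C u o ∂C.μ ≤ q)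
    {t h B0 : ℝ} (hth : t ≤ h) (hB : 0 < B0)
    (h0 : B0 ^ 2 + ε ≤ (C.μ {o | h < u (C.pt o)}).toReal)
    (hV : (C.μ {o | t < u (C.pt o)}).toReal ≤ C.vol / 2) :
    B0 + √κ * (h - t) / (2 * L) - q / (2 * L * B0) ≤
      √((C.μ {o | t < u (C.pt o)}).toReal - ε) := by
  have hw : Lip fun x => -u x := hu.neg
  have hew : EvenB γ fun x => -u x := even_neg he
  have h1 := gro_lev C (κ := κ) (ε := ε) hκ hw (r0 := -h) (r1 := -t) (by linarith)
    (by
      filter_upwards [hI (fun x => -u x) hw hew] with r hr _ h2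
      have h3 := hr.2
      have h4 : inf' C (fun x => -u x) r ≤ C.vol / 2 := by
        refine (inf_mono C _ h2.le).trans ?_
        rw [gre_inf C u t]
        exact hV
      rw [sup_inf C hw, min_eq_right (by linarith)] at h3
      have h5 : C.vol - (C.vol - inf' C (fun x => -u x) r) = inf' C (fun x => -u x) r := by ring
      rw [h5] at h3
      exact h3)
    hO hL (by
      filter_upwards [hLO] with o h2 h4
      rw [gn_neg C u]
      exact h2 h4) (q := q) (by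
      refine le_trans (le_of_eq ?_) hq
      exact integral_congr_ae (Eventually.of_forall fun o => gn_neg C u o)) hB
    (by rw [gre_inf C u h]; linarith)
  rw [gre_inf C u t] at h1
  have e : -t - -h = h - t := by ring
  rw [e] at h1
  exact h1

/-- the quadratic form of the growth: either more than half of the area or quadratic growth -/
theorem gro_even_sq {κ ε : ℝ} (hI : Isop C κ ε) (hκ : 0 ≤ κ) {u : M → ℝ} (hu : Lip u)
    (he : EvenB γ u) {O : Set Om} (hO : NullMeasurableSet O C.μ) {L : ℝ} (hL : 0 < L)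
    (hLO : ∀ᵐ o ∂C.μ, o ∉ O → gn C u o ≤ L) {q : ℝ} (hq : ∫ o in O, gn C u o ∂C.μ ≤ q)
    {t h a : ℝ} (hth : t ≤ h) (ha : 0 < a) (h0 : a < (C.μ {o | h < u (C.pt o)}).toReal)
    (hε : 2 * ε ≤ a) (hqa : q ≤ L * a) :
    min (κ / (4 * L ^ 2) * (h - t) ^ 2 + ε) (C.vol / 2) ≤ (C.μ {o | t < u (C.pt o)}).toReal := by
  have := C.fin
  rcases le_total (C.μ {o | t < u (C.pt o)}).toReal (C.vol / 2) with hV | hV
  · have hB : 0 < √(a / 2) := Real.sqrt_pos.2 (by positivity)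
    have hB2 : √(a / 2) ^ 2 = a / 2 := Real.sq_sqrt (by positivity)
    have h1 := gro_even C hI hκ hu he hO hL hLO hq hth hB (by rw [hB2]; linarith) hV
    have h2 : q / (2 * L * √(a / 2)) ≤ √(a / 2) := by
      rw [div_le_iff₀ (by positivity)]
      have h3 : √(a / 2) * (2 * L * √(a / 2)) = 2 * L * √(a / 2) ^ 2 := by ring
      rw [h3, hB2]
      linarith
    have h3 : √κ * (h - t) / (2 * L) ≤ √((C.μ {o | t < u (C.pt o)}).toReal - ε) := by linarith
    have h4 : 0 ≤ √κ * (h - t) / (2 * L) :=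
      div_nonneg (mul_nonneg (Real.sqrt_nonneg _) (by linarith)) (by positivity)
    have h5 := pow_le_pow_left₀ h4 h3 2
    have h6 : (C.μ {o | h < u (C.pt o)}).toReal ≤ (C.μ {o | t < u (C.pt o)}).toReal :=
      ENNReal.toReal_mono (measure_ne_top _ _) (measure_mono fun o h7 => lt_of_le_of_lt hth h7)
    have h7 : 0 ≤ (C.μ {o | t < u (C.pt o)}).toReal - ε := by linarith
    rw [Real.sq_sqrt h7, div_pow, mul_pow, Real.sq_sqrt hκ] at h5
    have h8 : κ * (h - t) ^ 2 / (2 * L) ^ 2 = κ / (4 * L ^ 2) * (h - t) ^ 2 := by ring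
    rw [h8] at h5
    exact (min_le_left _ _).trans (by linarith)
  · exact (min_le_right _ _).trans hV

/-- the norm of a vector field -/
theorem gre_norm {η : Fin 3 → M → ℝ} (hη : ∀ i, Lip (η i)) :
    Lip (fun x => √(η 0 x ^ 2 + η 1 x ^ 2 + η 2 x ^ 2)) := by
  obtain ⟨a, ha⟩ := hη 0
  obtain ⟨b, hb⟩ := hη 1
  obtain ⟨c, hc⟩ := hη 2
  refine ⟨a + b + c, LipschitzWith.of_dist_le_mul fun x y => ?_⟩
  have h1 := ha.dist_le_mul x y
  have h2 := hb.dist_le_mul x y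
  have h3 := hc.dist_le_mul x y
  rw [Real.dist_eq] at h1 h2 h3 ⊢
  have key : ∀ p q r p' q' r' : ℝ, |√(p ^ 2 + q ^ 2 + r ^ 2) - √(p' ^ 2 + q' ^ 2 + r' ^ 2)| ≤
      |p - p'| + |q - q'| + |r - r'| := by
    intro p q r p' q' r'
    have e1 : √(p ^ 2 + q ^ 2 + r ^ 2) = ‖(!₂[p, q, r] : E3)‖ := by
      rw [EuclideanSpace.norm_eq]
      simp [Fin.sum_univ_three]
    have e2 : √(p' ^ 2 + q' ^ 2 + r' ^ 2) = ‖(!₂[p', q', r'] : E3)‖ := by
      rw [EuclideanSpace.norm_eq]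
      simp [Fin.sum_univ_three]
    rw [e1, e2]
    refine (abs_norm_sub_norm_le _ _).trans ?_
    have e3 : ‖(!₂[p, q, r] : E3) - !₂[p', q', r']‖ = √(|p - p'| ^ 2 + |q - q'| ^ 2 + |r - r'| ^ 2) := by
      rw [EuclideanSpace.norm_eq]
      simp [Fin.sum_univ_three]
    rw [e3]
    refine Real.sqrt_le_iff.2 ⟨by positivity, ?_⟩
    nlinarith [mul_nonneg (abs_nonneg (p - p')) (abs_nonneg (q - q')),
      mul_nonneg (abs_nonneg (p - p')) (abs_nonneg (r - r')),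
      mul_nonneg (abs_nonneg (q - q')) (abs_nonneg (r - r'))]
  refine (key _ _ _ _ _ _).trans ?_
  push_cast
  nlinarith

theorem gre_norm_at (η : Fin 3 → M → ℝ) (o : Om) :
    √(η 0 (C.pt o) ^ 2 + η 1 (C.pt o) ^ 2 + η 2 (C.pt o) ^ 2) = ‖at' C η o‖ := by
  rw [EuclideanSpace.norm_eq]
  simp [Fin.sum_univ_three, at']

omit [MetricSpace M] in
theorem gre_norm_even {η : Fin 3 → M → ℝ} (hη : ∀ i, FPM.OddB γ (η i)) :
    EvenB γ (fun x => √(η 0 x ^ 2 + η 1 x ^ 2 + η 2 x ^ 2)) := by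
  intro t
  change √(η 0 (γ (t + Real.pi)) ^ 2 + η 1 (γ (t + Real.pi)) ^ 2 + η 2 (γ (t + Real.pi)) ^ 2) = _
  rw [hη 0 t, hη 1 t, hη 2 t, neg_sq, neg_sq, neg_sq]

/-- Kato: the gradient of the norm is at most the norm of the gradient -/
theorem gre_norm_gn {η : Fin 3 → M → ℝ} (hη : ∀ i, Lip (η i)) :
    ∀ᵐ o ∂C.μ, gn C (fun x => √(η 0 x ^ 2 + η 1 x ^ 2 + η 2 x ^ 2)) o ≤
      √(‖dx C η o‖ ^ 2 + ‖dy C η o‖ ^ 2) := by
  have hn := gre_norm hη
  have hl : ∀ᵐ o ∂C.μ, ‖at' C η o‖ = 0 →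
      gn C (fun x => √(η 0 x ^ 2 + η 1 x ^ 2 + η 2 x ^ 2)) o = 0 := by
    filter_upwards [grad_level C hn 0] with o ho h
    have h2 : √(η 0 (C.pt o) ^ 2 + η 1 (C.pt o) ^ 2 + η 2 (C.pt o) ^ 2) = 0 := by
      rw [gre_norm_at C η o]
      exact h
    unfold gn
    rw [(ho h2).1, (ho h2).2]
    simp
  filter_upwards [hl, C.ae_has hn, C.ae_has (hη 0), C.ae_has (hη 1), C.ae_has (hη 2)] with o h0 hN a b c
  by_cases h : ‖at' C η o‖ = 0
  · rw [h0 h]
    exact Real.sqrt_nonneg _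
  · have hpos : 0 < ‖at' C η o‖ := lt_of_le_of_ne (norm_nonneg _) (Ne.symm h)
    have hsq : ‖at' C η o‖ ^ 2 = η 0 (C.pt o) ^ 2 + η 1 (C.pt o) ^ 2 + η 2 (C.pt o) ^ 2 := by
      rw [← gre_norm_at C η o, Real.sq_sqrt (by positivity)]
    have key : ∀ (p : ℝ → M) (x y z w : ℝ), p 0 = C.pt o →
        HasDerivAt (fun s => √(η 0 (p s) ^ 2 + η 1 (p s) ^ 2 + η 2 (p s) ^ 2)) w 0 →
        HasDerivAt (fun s => η 0 (p s)) x 0 → HasDerivAt (fun s => η 1 (p s)) y 0 →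
        HasDerivAt (fun s => η 2 (p s)) z 0 →
        w = inner ℝ (at' C η o) (!₂[x, y, z] : E3) / ‖at' C η o‖ := by
      intro p x y z w hp hw hx hy hz
      have hne : η 0 (p 0) ^ 2 + η 1 (p 0) ^ 2 + η 2 (p 0) ^ 2 ≠ 0 := by
        rw [hp, ← hsq]
        positivity
      have h1 := (((hx.pow 2).add (hy.pow 2)).add (hz.pow 2)).sqrt hne
      have h2 := hw.unique h1
      rw [h2]
      have e1 : √(η 0 (p 0) ^ 2 + η 1 (p 0) ^ 2 + η 2 (p 0) ^ 2) = ‖at' C η o‖ := by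
        rw [hp]
        exact gre_norm_at C η o
      have e2 : √(((fun s => η 0 (p s)) ^ 2 + (fun s => η 1 (p s)) ^ 2 + (fun s => η 2 (p s)) ^ 2) 0) =
          ‖at' C η o‖ := e1
      have e3 : (inner ℝ (at' C η o) (!₂[x, y, z] : E3) : ℝ) =
          η 0 (C.pt o) * x + η 1 (C.pt o) * y + η 2 (C.pt o) * z := by
        rw [inner3]
        rfl
      rw [e2, e3, hp]
      field_simp
      norm_num
      try ring
    have h1 := key (C.px o) _ _ _ _ rfl hN.1 a.1 b.1 c.1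
    have h2 := key (C.py o) _ _ _ _ (C.same o) hN.2 a.2 b.2 c.2
    have e1 : (!₂[C.gx (η 0) o, C.gx (η 1) o, C.gx (η 2) o] : E3) = dx C η o := rfl
    have e2 : (!₂[C.gy (η 0) o, C.gy (η 1) o, C.gy (η 2) o] : E3) = dy C η o := rfl
    rw [e1] at h1
    rw [e2] at h2
    unfold gn
    rw [h1, h2]
    refine Real.sqrt_le_sqrt ?_
    have h3 : |inner ℝ (at' C η o) (dx C η o) / ‖at' C η o‖| ≤ ‖dx C η o‖ := by
      rw [abs_div, abs_of_pos hpos, div_le_iff₀ hpos]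
      have := abs_real_inner_le_norm (at' C η o) (dx C η o)
      linarith
    have h4 : |inner ℝ (at' C η o) (dy C η o) / ‖at' C η o‖| ≤ ‖dy C η o‖ := by
      rw [abs_div, abs_of_pos hpos, div_le_iff₀ hpos]
      have := abs_real_inner_le_norm (at' C η o) (dy C η o)
      linarith
    have h5 := pow_le_pow_left₀ (abs_nonneg _) h3 2
    have h6 := pow_le_pow_left₀ (abs_nonneg _) h4 2
    rw [sq_abs] at h5 h6
    linarith

/-- **growth of `|η|`**, `η` a vector field that is odd along the curve -/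
theorem gro_vec {κ ε : ℝ} (hI : Isop C κ ε) (hκ : 0 ≤ κ) {η : Fin 3 → M → ℝ}
    (hη : ∀ i, Lip (η i)) (hodd : ∀ i, FPM.OddB γ (η i)) {O : Set Om}
    (hO : NullMeasurableSet O C.μ) {L : ℝ} (hL : 0 < L)
    (hLO : ∀ᵐ o ∂C.μ, o ∉ O → ‖dx C η o‖ ^ 2 + ‖dy C η o‖ ^ 2 ≤ L ^ 2) {q : ℝ}
    (hq : ∫ o in O, √(‖dx C η o‖ ^ 2 + ‖dy C η o‖ ^ 2) ∂C.μ ≤ q)
    {t h a : ℝ} (hth : t ≤ h) (ha : 0 < a) (h0 : a < (C.μ {o | h < ‖at' C η o‖}).toReal)
    (hε : 2 * ε ≤ a) (hqa : q ≤ L * a) :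
    min (κ / (4 * L ^ 2) * (h - t) ^ 2 + ε) (C.vol / 2) ≤ (C.μ {o | t < ‖at' C η o‖}).toReal := by
  have hn := gre_norm hη
  have hgn := gre_norm_gn C hη
  have e : ∀ s : ℝ, {o | s < ‖at' C η o‖} =
      {o | s < √(η 0 (C.pt o) ^ 2 + η 1 (C.pt o) ^ 2 + η 2 (C.pt o) ^ 2)} := fun s => by
    ext o
    change s < ‖at' C η o‖ ↔ s < √(η 0 (C.pt o) ^ 2 + η 1 (C.pt o) ^ 2 + η 2 (C.pt o) ^ 2)
    rw [gre_norm_at C η o]
  rw [e] at h0 ⊢
  refine gro_even_sq C hI hκ hn (gre_norm_even hodd) hO hL ?_ (q := q) ?_ hth ha h0 hε hqa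
  · filter_upwards [hgn, hLO] with o h2 h3 h4
    refine h2.trans ?_
    rw [← Real.sqrt_sq hL.le]
    exact Real.sqrt_le_sqrt (h3 h4)
  · refine le_trans ?_ hq
    exact integral_mono_ae (int_gn C hn).integrableOn (gro_int C hη).integrableOn
      (ae_restrict_of_ae hgn)

end Pool.Agent.FPX
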