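import Pool.Agent.FPX.HAA

/-
HAV (helper22): the pure variance lemma for the hat averages. For a function `G` which is monotone on `[c - 3, c + 3]`
the variance of `G` for the hat average with the centre `c` is at most
`(E0 - E-) (E+ - E0) + (E+ - E0) (E- - Emm) + (E0 - E-) (Epp - E+)`.
-/

set_option autoImplicit false

open MeasureTheory Set Filter Topology

noncomputable section

namespace Pool.Agent.FPX.HAV

open Pool.Agent.FPX.NOD Pool.Agent.FPX.CAV Pool.Agent.FPX.HAA

/-- Chebyshev for the linear weight, monotone integrand -/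
theorem lin_mono {g : ℝ → ℝ} (hg : Continuous g) (hm : MonotoneOn g (Icc 0 1)) :
    ∫ v in (0 : ℝ)..1, (1 - v) * g v ≤ ∫ v in (0 : ℝ)..1, v * g v := by
  have e : ∫ v in (0 : ℝ)..1, (2 * v - 1) * g (1 / 2) = 0 := by
    have e1 : ∀ v : ℝ, (2 * v - 1) * g (1 / 2) = v * g (1 / 2) - (1 - v) * g (1 / 2) := fun v => by ring
    simp only [e1]
    rw [intervalIntegral.integral_sub (ii (by fun_prop) _ _) (ii (by fun_prop) _ _),
      intervalIntegral.integral_mul_const, intervalIntegral.integral_mul_const, int_v, int_1v]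
    ring
  have h : ∫ v in (0 : ℝ)..1, (2 * v - 1) * g (1 / 2) ≤ ∫ v in (0 : ℝ)..1, (2 * v - 1) * g v := by
    refine intervalIntegral.integral_mono_on zero_le_one (ii (by fun_prop) _ _) (ii (by fun_prop) _ _) fun v hv => ?_
    have l2 : (1 / 2 : ℝ) ∈ Icc (0 : ℝ) 1 := ⟨by norm_num, by norm_num⟩
    rcases le_total v (1 / 2) with h1 | h1
    · nlinarith [hm hv l2 h1]
    · nlinarith [hm l2 hv h1]
  have e2 : ∫ v in (0 : ℝ)..1, (2 * v - 1) * g v
      = (∫ v in (0 : ℝ)..1, v * g v) - ∫ v in (0 : ℝ)..1, (1 - v) * g v := by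
    rw [← intervalIntegral.integral_sub (ii (by fun_prop) _ _) (ii (by fun_prop) _ _)]
    refine intervalIntegral.integral_congr fun v _ => ?_
    ring
  rw [e, e2] at h
  linarith

/-- the algebra of the variance lemma -/
theorem alg {p m e1 e2 f1 f2 V : ℝ} (hm0 : 2 * m ≤ f1) (hp0 : 2 * p ≤ e2) (he1 : p ≤ e1) (hf : f1 ≤ f2) (hf1 : 0 ≤ f1)
    (he2 : 0 ≤ e2) (hV : V ≤ m * f2 + p * e2) :
    V - (p - m) ^ 2 ≤ (p - m - -f1) * (e1 - (p - m)) + (e1 - (p - m)) * (-f1 - -f2) + (p - m - -f1) * (e2 - e1) := by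
  have h1 := mul_nonneg (sub_nonneg.2 he1) (sub_nonneg.2 hf)
  have h2 := mul_nonneg (sub_nonneg.2 hm0) he2
  have h3 := mul_nonneg (sub_nonneg.2 hp0) hf1
  nlinarith

/-- the variance lemma for a function with the value `0` at the centre -/
theorem var0 {G : ℝ → ℝ} (hc : Continuous G) (c : ℝ) (hm : MonotoneOn G (Icc (c - 3) (c + 3))) (h0 : G c = 0) :
    ht (fun t => G t ^ 2) c - ht G c ^ 2 ≤ (ht G c - ht G (c - 1)) * (ht G (c + 1) - ht G c)
      + (ht G (c + 1) - ht G c) * (ht G (c - 1) - ht G (c - 2))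
      + (ht G c - ht G (c - 1)) * (ht G (c + 2) - ht G (c + 1)) := by
  have mem : ∀ x : ℝ, -3 ≤ x → x ≤ 3 → c + x ∈ Icc (c - 3) (c + 3) := fun x a b => ⟨by linarith, by linarith⟩
  have mo : ∀ x y : ℝ, -3 ≤ x → x ≤ y → y ≤ 3 → G (c + x) ≤ G (c + y) := fun x y a b d =>
    hm (mem x a (by linarith)) (mem y (by linarith) d) (by linarith)
  have hc0 : G (c + 0) = 0 := by rw [add_zero, h0]
  obtain ⟨p, hp⟩ : ∃ p : ℝ, p = ∫ v in (0 : ℝ)..1, (1 - v) * G (c + v) := ⟨_, rfl⟩
  obtain ⟨m, hmm⟩ : ∃ m : ℝ, m = -∫ v in (0 : ℝ)..1, v * G (c - 1 + v) := ⟨_, rfl⟩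
  have hE : ht G c = p - m := by
    unfold ht
    rw [hp, hmm]
    ring
  -- values at the ends of the cells
  have b1 : G (c + 1) ≤ ht G (c + 2) := by
    have := ht_mono (G := fun _ => G (c + 1)) (F := G) continuous_const hc (c + 2) fun t ht' => by
      have := mo 1 (t - c) (by norm_num) (by linarith [ht'.1]) (by linarith [ht'.2])
      rwa [show c + (t - c) = t by ring] at this
    rwa [ht_const] at this
  have b2 : ht G (c - 2) ≤ G (c - 1) := by
    have := ht_mono (G := G) (F := fun _ => G (c - 1)) hc continuous_const (c - 2) fun t ht' => by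
      have := mo (t - c) (-1) (by linarith [ht'.1]) (by linarith [ht'.2]) (by norm_num)
      rwa [show c + (t - c) = t by ring, show c + -1 = c - 1 by ring] at this
    rwa [ht_const] at this
  have g1 : 0 ≤ G (c + 1) := by
    have := mo 0 1 (by norm_num) (by norm_num) (by norm_num)
    rwa [hc0] at this
  have g2 : G (c - 1) ≤ 0 := by
    have := mo (-1) 0 (by norm_num) (by norm_num) (by norm_num)
    rwa [hc0, show c + -1 = c - 1 by ring] at this
  -- `p` and `m` are at most half of the end values
  have p1 : p ≤ G (c + 1) / 2 := by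
    have : ∫ v in (0 : ℝ)..1, (1 - v) * G (c + v) ≤ ∫ v in (0 : ℝ)..1, (1 - v) * G (c + 1) := by
      refine intervalIntegral.integral_mono_on zero_le_one (ii (by fun_prop) _ _) (ii (by fun_prop) _ _) fun v hv => ?_
      exact mul_le_mul_of_nonneg_left (mo v 1 (by linarith [hv.1]) hv.2 (by norm_num)) (by linarith [hv.2])
    rw [intervalIntegral.integral_mul_const, int_1v, ← hp] at this
    linarith
  have p2 : 0 ≤ p := by
    rw [hp]
    refine intervalIntegral.integral_nonneg zero_le_one fun v hv => ?_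
    have := mo 0 v (by norm_num) hv.1 (by linarith [hv.2])
    rw [hc0] at this
    exact mul_nonneg (by linarith [hv.2]) this
  have m2 : 0 ≤ m := by
    have : 0 ≤ ∫ v in (0 : ℝ)..1, -(v * G (c - 1 + v)) := by
      refine intervalIntegral.integral_nonneg zero_le_one fun v hv => ?_
      have := mo (v - 1) 0 (by linarith [hv.1]) (by linarith [hv.2]) (by norm_num)
      rw [hc0, show c + (v - 1) = c - 1 + v by ring] at this
      nlinarith [hv.1]
    rw [intervalIntegral.integral_neg] at this
    rwa [hmm]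
  -- `2 m` is at most the average on the left
  have m1 : 2 * m ≤ -ht G (c - 1) := by
    have a1 : ∫ v in (0 : ℝ)..1, v * G (c - 1 - 1 + v) ≤ ∫ v in (0 : ℝ)..1, v * G (c - 1) := by
      refine intervalIntegral.integral_mono_on zero_le_one (ii (by fun_prop) _ _) (ii (by fun_prop) _ _) fun v hv => ?_
      have := mo (-2 + v) (-1) (by linarith [hv.1]) (by linarith [hv.2]) (by norm_num)
      rw [show c + (-2 + v) = c - 1 - 1 + v by ring, show c + -1 = c - 1 by ring] at this
      exact mul_le_mul_of_nonneg_left this hv.1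
    rw [intervalIntegral.integral_mul_const, int_v] at a1
    have a2 : ∫ v in (0 : ℝ)..1, v * G (c - 1) ≤ ∫ v in (0 : ℝ)..1, v * G (c - 1 + v) := by
      refine intervalIntegral.integral_mono_on zero_le_one (ii (by fun_prop) _ _) (ii (by fun_prop) _ _) fun v hv => ?_
      have := mo (-1) (-1 + v) (by norm_num) (by linarith [hv.1]) (by linarith [hv.2])
      rw [show c + (-1 + v) = c - 1 + v by ring, show c + -1 = c - 1 by ring] at this
      exact mul_le_mul_of_nonneg_left this hv.1
    rw [intervalIntegral.integral_mul_const, int_v] at a2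
    have a3 := lin_mono (g := fun v => G (c - 1 + v)) (by fun_prop) fun x hx y hy hxy => by
      have := mo (-1 + x) (-1 + y) (by linarith [hx.1]) (by linarith) (by linarith [hy.2])
      rwa [show c + (-1 + x) = c - 1 + x by ring, show c + (-1 + y) = c - 1 + y by ring] at this
    unfold ht
    rw [hmm]
    linarith
  -- the average on the right is at least `p`
  have q1 : p ≤ ht G (c + 1) := by
    have a1 := lin_mono (g := fun v => G (c + v)) (by fun_prop) fun x hx y hy hxy =>
      mo x y (by linarith [hx.1]) hxy (by linarith [hy.2])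
    have a2 : 0 ≤ ∫ v in (0 : ℝ)..1, (1 - v) * G (c + 1 + v) := by
      refine intervalIntegral.integral_nonneg zero_le_one fun v hv => ?_
      have := mo 0 (1 + v) (by norm_num) (by linarith [hv.1]) (by linarith [hv.2])
      rw [hc0, show c + (1 + v) = c + 1 + v by ring] at this
      exact mul_nonneg (by linarith [hv.2]) this
    unfold ht
    rw [hp, show c + 1 - 1 = c by ring]
    linarith
  -- the averages on the left
  have q2 : ht G (c - 2) ≤ ht G (c - 1) := by
    unfold ht
    refine add_le_add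
      (intervalIntegral.integral_mono_on zero_le_one (ii (by fun_prop) _ _) (ii (by fun_prop) _ _) fun v hv => ?_)
      (intervalIntegral.integral_mono_on zero_le_one (ii (by fun_prop) _ _) (ii (by fun_prop) _ _) fun v hv => ?_)
    · have := mo (-3 + v) (-2 + v) (by linarith [hv.1]) (by linarith) (by linarith [hv.2])
      rw [show c + (-3 + v) = c - 2 - 1 + v by ring, show c + (-2 + v) = c - 1 - 1 + v by ring] at this
      exact mul_le_mul_of_nonneg_left this hv.1
    · have := mo (-2 + v) (-1 + v) (by linarith [hv.1]) (by linarith) (by linarith [hv.2])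
      rw [show c + (-2 + v) = c - 2 + v by ring, show c + (-1 + v) = c - 1 + v by ring] at this
      exact mul_le_mul_of_nonneg_left this (by linarith [hv.2])
  -- the second moment
  have s2 : ht (fun t => G t ^ 2) c ≤ m * -ht G (c - 2) + p * ht G (c + 2) := by
    have a1 : ∫ v in (0 : ℝ)..1, v * G (c - 1 + v) ^ 2 ≤ ∫ v in (0 : ℝ)..1, G (c - 1) * (v * G (c - 1 + v)) := by
      refine intervalIntegral.integral_mono_on zero_le_one (ii (by fun_prop) _ _) (ii (by fun_prop) _ _) fun v hv => ?_
      have h1 := mo (-1) (-1 + v) (by norm_num) (by linarith [hv.1]) (by linarith [hv.2])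
      have h2 := mo (-1 + v) 0 (by linarith [hv.1]) (by linarith [hv.2]) (by norm_num)
      rw [show c + (-1 + v) = c - 1 + v by ring, show c + -1 = c - 1 by ring] at h1
      rw [hc0, show c + (-1 + v) = c - 1 + v by ring] at h2
      have : G (c - 1 + v) ^ 2 ≤ G (c - 1) * G (c - 1 + v) := by nlinarith
      nlinarith [mul_le_mul_of_nonneg_left this hv.1]
    have a2 : ∫ v in (0 : ℝ)..1, (1 - v) * G (c + v) ^ 2 ≤ ∫ v in (0 : ℝ)..1, G (c + 1) * ((1 - v) * G (c + v)) := by
      refine intervalIntegral.integral_mono_on zero_le_one (ii (by fun_prop) _ _) (ii (by fun_prop) _ _) fun v hv => ?_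
      have h1 := mo v 1 (by linarith [hv.1]) hv.2 (by norm_num)
      have h2 := mo 0 v (by norm_num) hv.1 (by linarith [hv.2])
      rw [hc0] at h2
      have : G (c + v) ^ 2 ≤ G (c + 1) * G (c + v) := by nlinarith
      nlinarith [mul_le_mul_of_nonneg_left this (sub_nonneg.2 hv.2)]
    rw [intervalIntegral.integral_const_mul] at a1 a2
    rw [← hp] at a2
    have a3 : ∫ v in (0 : ℝ)..1, v * G (c - 1 + v) = -m := by rw [hmm, neg_neg]
    rw [a3] at a1
    have a4 := mul_le_mul_of_nonneg_left b1 p2
    have a5 := mul_le_mul_of_nonneg_left b2 m2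
    unfold ht at a4 a5 ⊢
    nlinarith
  have key := alg (p := p) (m := m) (e1 := ht G (c + 1)) (e2 := ht G (c + 2)) (f1 := -ht G (c - 1))
    (f2 := -ht G (c - 2)) (V := ht (fun t => G t ^ 2) c) m1 (by linarith) q1 (by linarith) (by linarith) (by linarith) s2
  rw [neg_neg, neg_neg] at key
  rw [hE]
  exact key

/-- **the pure variance lemma for the hat averages** (no Lipschitz condition is needed) -/
theorem var_mono0 {G : ℝ → ℝ} (hc : Continuous G) (c : ℝ) (hm : MonotoneOn G (Icc (c - 3) (c + 3))) :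
    ht (fun t => G t ^ 2) c - ht G c ^ 2 ≤ (ht G c - ht G (c - 1)) * (ht G (c + 1) - ht G c)
      + (ht G (c + 1) - ht G c) * (ht G (c - 1) - ht G (c - 2))
      + (ht G c - ht G (c - 1)) * (ht G (c + 2) - ht G (c + 1)) := by
  have key := var0 (G := fun t => G t - G c) (by fun_prop) c
    (fun x hx y hy hxy => by
      have := hm hx hy hxy
      simp only
      linarith) (sub_self _)
  have e1 : ∀ k, ht (fun t => G t - G c) k = ht G k - G c := fun k => by
    rw [ht_sub (F := fun _ => G c) hc continuous_const, ht_const]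
  have e2 : ht (fun t => (G t - G c) ^ 2) c = ht (fun t => G t ^ 2) c + -(2 * G c) * ht G c + G c ^ 2 := by
    have e : (fun t => (G t - G c) ^ 2) = fun t => (G t ^ 2 + (-(2 * G c)) * G t) + G c ^ 2 := by
      funext t
      ring
    rw [e, ht_add (by fun_prop) continuous_const, ht_add (by fun_prop) (by fun_prop), ht_smul, ht_const]
  simp only [e1, e2] at key
  nlinarith

/-- the pure variance lemma in the form of the call -/
theorem var_mono {G : ℝ → ℝ} (hc : Continuous G) (_hl : ∃ K, LipschitzWith K G) (c : ℝ)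
    (hm : MonotoneOn G (Icc (c - 3) (c + 3))) :
    ht (fun t => G t ^ 2) c - ht G c ^ 2 ≤ (ht G c - ht G (c - 1)) * (ht G (c + 1) - ht G c)
      + (ht G (c + 1) - ht G c) * (ht G (c - 1) - ht G (c - 2))
      + (ht G c - ht G (c - 1)) * (ht G (c + 2) - ht G (c + 1)) :=
  var_mono0 hc c hm

end Pool.Agent.FPX.HAV
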