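import Pool.Agent.FPX.HAB
import Pool.Agent.FPX.HAV

/-
HAG (helper81): the hat averages of a state satisfy the record `AvgH`: the geometric half (increments, bounds,
variances); the moments are hypotheses here.
-/

set_option autoImplicit false

open MeasureTheory Set Filter Topology

noncomputable section

namespace Pool.Agent.FPX.HAA

open Pool.Agent.FPX.NOD Pool.Agent.FPX.CAV
open Pool.Agent.FPX.ALX (St)
open Pool.Agent.FPX.NOT (Gq)
open Pool.Agent.FPX.AVS (wm)

/-- the hat averages of the state -/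
def zH (X : ℝ → ℝ) (N i : ℕ) : ℝ := ht (qf X N) i

/-- the hat averages of the square of the state -/
def aH (X : ℝ → ℝ) (N i : ℕ) : ℝ := ht (fun t => qf X N t ^ 2) i

theorem varMono : VarMono := fun _ c h1 h2 h3 => HAV.var_mono h1 h2 c h3

section

variable {D : CD} {X : ℝ → ℝ}

/-- **the geometric half of the record** -/
theorem avgH_geo {R : ℕ} {a : ℕ → ℕ → Gq} {e : ℕ → ℚ} {u Z : ℤ → ℂ} (hG : GeoH D) (hX : St D.s X)
    (hb : ∀ a, |X a| ≤ 0.62 * (D.s : ℝ)) (one : ‖wm D.N a 1 (zH X D.N)‖ ≤ e 1)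
    (lin : ∀ n : ℕ, 1 < n → n ≤ R → n % 2 = 1 → ‖u n - wm D.N a n (zH X D.N)‖ ≤ e n)
    (zero : Z 0 = wm D.N a 0 (aH X D.N))
    (quad : ∀ n : ℕ, 1 ≤ n → n ≤ R → n % 2 = 0 → ‖Z n - wm D.N a n (aH X D.N)‖ ≤ e n) :
    AvgH R D a e u Z (zH X D.N) (aH X D.N) := by
  have hN := GeoH.N0 hG
  have hN3 := hG.N3
  obtain ⟨K, hK⟩ := qf_lip hX hN
  have hxb := GeoH.bx hG hb
  have hqb : ∀ t, |qf X D.N t| ≤ (D.xm : ℝ) := fun t => hxb _
  have hzb : ∀ i, |zH X D.N i| ≤ (D.xm : ℝ) := fun i => ht_abs hK.continuous hqb _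
  refine
    { last := ?_
      hi := fun i hi => ?_
      lo := fun i hi => ?_
      bd := hzb
      one := one
      lin := lin
      A0 := fun i _ => ht_sq hK.continuous _
      A1 := fun i hi => ?_
      zero := zero
      quad := quad }
  · have h := ht_anti (fun t => qf_anti hX hN t) 0
    rw [zero_add] at h
    unfold zH
    rw [h]
    norm_num
  · rcases hG.hup i hi with h | h
    · have k := GeoH.inc_hi hG hX (k := i) (by omega) (by omega) h
      have e1 : (hbE D (i : ℤ)) = D.hb i := by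
        unfold hbE
        rw [ex_mid hi]
      rw [e1] at k
      unfold zH
      push_cast at k ⊢
      exact k
    · have h' : ((2 * D.xm : ℚ) : ℝ) ≤ D.hb i := by exact_mod_cast h
      push_cast at h'
      have a1 := (abs_le.1 (hzb (i + 1))).2
      have a2 := (abs_le.1 (hzb i)).1
      linarith
  · rcases hG.hlo i hi with h | h
    · have k := GeoH.inc_low hG hX (k := i) (by omega) (by omega) h
      have e1 : (lbE D (i : ℤ)) = D.lb i := by
        unfold lbE
        rw [ex_mid hi]
      rw [e1] at k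
      unfold zH
      push_cast at k ⊢
      exact k
    · have h' : ((2 * D.xm : ℚ) : ℝ) ≤ D.lb i := by exact_mod_cast h
      push_cast at h'
      have a1 := (abs_le.1 (hzb (i + 1))).1
      have a2 := (abs_le.1 (hzb i)).2
      linarith
  · have k := GeoH.var_le hG hX varMono hi
    have k' : aH X D.N i - zH X D.N i ^ 2 ≤ VBh D (zH X D.N) i := k
    linarith

end

end Pool.Agent.FPX.HAA
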