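import Pool.Agent.FPX.HAA

/-
HAK (helper81): hat averages of a state of `St s`: monotone majorant, variance, the checks of the data.
The pure variance inequality of a monotone function is a hypothesis `VarMono` here.
-/

set_option autoImplicit false
set_option linter.unusedSectionVars false

open MeasureTheory Set Filter Topology
open scoped ComplexConjugate NNReal

noncomputable section

namespace Pool.Agent.FPX.HAA

open Pool.Agent.FPX.NOD Pool.Agent.FPX.CAV
open Pool.Agent.FPX.ALX (St)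

/-! ### the step function of the cells -/

/-- cut to the unit interval -/
def cp (x : ℝ) : ℝ := max 0 (min x 1)

@[fun_prop] theorem cont_cp : Continuous cp := by
  unfold cp
  fun_prop

theorem cp_of_nonpos {x : ℝ} (h : x ≤ 0) : cp x = 0 := by
  unfold cp
  rw [min_eq_left (h.trans zero_le_one), max_eq_left h]

theorem cp_of_one_le {x : ℝ} (h : 1 ≤ x) : cp x = 1 := by
  unfold cp
  rw [min_eq_right h, max_eq_right zero_le_one]

theorem cp_of_mem {x : ℝ} (h0 : 0 ≤ x) (h1 : x ≤ 1) : cp x = x := by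
  unfold cp
  rw [min_eq_left h1, max_eq_right h0]

/-- the primitive of the majorants of the cells `c - 3, .., c + 2` -/
def PP (c : ℝ) (L L' : Fin 6 → ℝ) (t : ℝ) : ℝ := ∑ j : Fin 6, PH (L j) (L' j) (cp (t - (c - 3 + j)))

@[fun_prop] theorem cont_PP (c : ℝ) (L L' : Fin 6 → ℝ) : Continuous (PP c L L') := by
  unfold PP PH
  fun_prop

/-- the sum of the rises of the cells before `m` -/
def sL (L : Fin 6 → ℝ) (m : ℕ) : ℝ := ∑ j : Fin 6, if (j : ℕ) < m then L j else 0

/-- the primitive on the cell `m` -/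
theorem PP_cell (c : ℝ) (L L' : Fin 6 → ℝ) (m : Fin 6) {v : ℝ} (h0 : 0 ≤ v) (h1 : v ≤ 1) :
    PP c L L' (c - 3 + m + v) = sL L m + PH (L m) (L' m) v := by
  have e : ∀ j : Fin 6, PH (L j) (L' j) (cp (c - 3 + m + v - (c - 3 + j)))
      = (if (j : ℕ) < m then L j else 0) + if j = m then PH (L m) (L' m) v else 0 := by
    intro j
    rw [show c - 3 + m + v - (c - 3 + j) = m - j + v by ring]
    rcases lt_trichotomy (j : ℕ) (m : ℕ) with h | h | h
    · have : ((j : ℕ) : ℝ) + 1 ≤ (m : ℕ) := by exact_mod_cast h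
      rw [cp_of_one_le (by linarith), PH_one, if_pos h, if_neg (by intro e; subst e; exact lt_irrefl _ h), add_zero]
    · have hj : j = m := Fin.ext h
      subst hj
      rw [sub_self, zero_add, cp_of_mem h0 h1, if_neg (lt_irrefl _), if_pos rfl, zero_add]
    · have : ((m : ℕ) : ℝ) + 1 ≤ (j : ℕ) := by exact_mod_cast h
      rw [cp_of_nonpos (by linarith), PH_zero, if_neg (not_lt.2 h.le), if_neg (by intro e; subst e; exact lt_irrefl _ h),
        add_zero]
  unfold PP sL
  rw [Finset.sum_congr rfl fun j _ => e j, Finset.sum_add_distrib, Finset.sum_ite_eq' Finset.univ m]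
  simp

/-- two neighbouring intervals -/
theorem mono_glue {G : ℝ → ℝ} {a b d : ℝ} (hab : a ≤ b) (hbd : b ≤ d) (h1 : MonotoneOn G (Icc a b))
    (h2 : MonotoneOn G (Icc b d)) : MonotoneOn G (Icc a d) := by
  rw [← Icc_union_Icc_eq_Icc hab hbd]
  exact h1.union_right h2 (isGreatest_Icc hab) (isLeast_Icc hbd)

/-- the majorant is monotone on the six cells -/
theorem mono6 {G : ℝ → ℝ} {c : ℝ} (h : ∀ m : Fin 6, ∀ x y, 0 ≤ x → x ≤ y → y ≤ 1 →
    G (c - 3 + m + x) ≤ G (c - 3 + m + y)) : MonotoneOn G (Icc (c - 3) (c + 3)) := by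
  have k : ∀ (m : Fin 6) (a b : ℝ), c - 3 + m = a → a + 1 = b → MonotoneOn G (Icc a b) := by
    rintro m a b rfl rfl x hx y hy hxy
    have := h m (x - (c - 3 + m)) (y - (c - 3 + m)) (by linarith [hx.1]) (by linarith) (by linarith [hy.2])
    rwa [show c - 3 + m + (x - (c - 3 + m)) = x by ring, show c - 3 + m + (y - (c - 3 + m)) = y by ring] at this
  have k0 := k 0 (c - 3) (c - 2) (by norm_num) (by ring)
  have k1 := k 1 (c - 2) (c - 1) (by norm_num; ring) (by ring)
  have k2 := k 2 (c - 1) c (by norm_num; ring) (by ring)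
  have k3 := k 3 c (c + 1) (by norm_num) rfl
  have k4 := k 4 (c + 1) (c + 2) (by norm_num; ring) (by ring)
  have k5 := k 5 (c + 2) (c + 3) (by norm_num; ring) (by ring)
  refine mono_glue (b := c - 2) (by linarith) (by linarith) k0 ?_
  refine mono_glue (b := c - 1) (by linarith) (by linarith) k1 ?_
  refine mono_glue (b := c) (by linarith) (by linarith) k2 ?_
  refine mono_glue (b := c + 1) (by linarith) (by linarith) k3 ?_
  exact mono_glue (b := c + 2) (by linarith) (by linarith) k4 k5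

/-! ### the variance of the majorant -/

/-- variance of the primitive of the majorants `a, a'` on the left and `b, b'` on the right of the centre -/
def vP (a a' b b' : ℝ) : ℝ :=
  a ^ 2 / 4 - a * a' / 20 + a' ^ 2 / 240 + (a ^ 2 / 2 + 2 * a * (b / 6 - b' / 24) + (b ^ 2 / 12 - b * b' / 30 + b' ^ 2 / 240))
    - (a / 3 - a' / 24 + a / 2 + (b / 6 - b' / 24)) ^ 2

theorem int_vPH2 (H H' : ℝ) : ∫ v in (0 : ℝ)..1, v * PH H H' v ^ 2 = H ^ 2 / 4 - H * H' / 20 + H' ^ 2 / 240 := by
  have h : ∀ v ∈ uIcc (0 : ℝ) 1, HasDerivAt (fun v => H ^ 2 * v ^ 4 / 4 - H * H' * (v ^ 4 / 4 - v ^ 5 / 5)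
      + H' ^ 2 / 4 * (v ^ 4 / 4 - 2 * v ^ 5 / 5 + v ^ 6 / 6)) (v * PH H H' v ^ 2) v := by
    intro v _
    have h1 := ((hasDerivAt_pow 4 v).const_mul (H ^ 2)).div_const 4
    have h2 := (((hasDerivAt_pow 4 v).div_const 4).sub ((hasDerivAt_pow 5 v).div_const 5)).const_mul (H * H')
    have h3 := ((((hasDerivAt_pow 4 v).div_const 4).sub (((hasDerivAt_pow 5 v).const_mul 2).div_const 5)).add
      ((hasDerivAt_pow 6 v).div_const 6)).const_mul (H' ^ 2 / 4)
    refine ((h1.sub h2).add h3).congr_deriv ?_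
    unfold PH
    push_cast
    ring
  rw [intervalIntegral.integral_eq_sub_of_hasDerivAt h (ii (by fun_prop) _ _)]
  ring

theorem int_1vPH2 (H H' : ℝ) : ∫ v in (0 : ℝ)..1, (1 - v) * PH H H' v ^ 2 = H ^ 2 / 12 - H * H' / 30 + H' ^ 2 / 240 := by
  have e : ∀ v, (1 - v) * PH H H' v ^ 2 = PH H H' v ^ 2 - v * PH H H' v ^ 2 := fun v => by ring
  simp only [e]
  rw [intervalIntegral.integral_sub (ii (by fun_prop) _ _) (ii (by fun_prop) _ _), int_PH_sq, int_vPH2]
  ring

/-- the variance of the primitive -/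
theorem PP_var {P : ℝ → ℝ} {c s a a' b b' : ℝ} (h1 : ∀ v, 0 ≤ v → v ≤ 1 → P (c - 1 + v) = s + PH a a' v)
    (h2 : ∀ v, 0 ≤ v → v ≤ 1 → P (c + v) = s + a + PH b b' v) : ht (fun t => P t ^ 2) c - ht P c ^ 2 = vP a a' b b' := by
  have c1 : (∫ v in (0 : ℝ)..1, v * P (c - 1 + v)) = ∫ v in (0 : ℝ)..1, v * (s + PH a a' v) :=
    intervalIntegral.integral_congr fun v hv => by
      rw [uIcc_of_le zero_le_one] at hv
      simp only [h1 v hv.1 hv.2]
  have c2 : (∫ v in (0 : ℝ)..1, (1 - v) * P (c + v)) = ∫ v in (0 : ℝ)..1, (1 - v) * (s + a + PH b b' v) :=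
    intervalIntegral.integral_congr fun v hv => by
      rw [uIcc_of_le zero_le_one] at hv
      simp only [h2 v hv.1 hv.2]
  have c3 : (∫ v in (0 : ℝ)..1, v * P (c - 1 + v) ^ 2) = ∫ v in (0 : ℝ)..1, v * (s + PH a a' v) ^ 2 :=
    intervalIntegral.integral_congr fun v hv => by
      rw [uIcc_of_le zero_le_one] at hv
      simp only [h1 v hv.1 hv.2]
  have c4 : (∫ v in (0 : ℝ)..1, (1 - v) * P (c + v) ^ 2) = ∫ v in (0 : ℝ)..1, (1 - v) * (s + a + PH b b' v) ^ 2 :=
    intervalIntegral.integral_congr fun v hv => by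
      rw [uIcc_of_le zero_le_one] at hv
      simp only [h2 v hv.1 hv.2]
  unfold ht
  rw [c1, c2, c3, c4]
  have e1 : ∀ v, v * (s + PH a a' v) = s * v + v * PH a a' v := fun v => by ring
  have e2 : ∀ v, (1 - v) * (s + a + PH b b' v) = (s + a) * (1 - v) + (1 - v) * PH b b' v := fun v => by ring
  have e3 : ∀ v, v * (s + PH a a' v) ^ 2 = (s ^ 2 * v + 2 * s * (v * PH a a' v)) + v * PH a a' v ^ 2 := fun v => by ring
  have e4 : ∀ v, (1 - v) * (s + a + PH b b' v) ^ 2 = ((s + a) ^ 2 * (1 - v) + 2 * (s + a) * ((1 - v) * PH b b' v))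
      + (1 - v) * PH b b' v ^ 2 := fun v => by ring
  simp only [e1, e2, e3, e4]
  rw [intervalIntegral.integral_add (ii (by fun_prop) _ _) (ii (by fun_prop) _ _),
    intervalIntegral.integral_add (ii (by fun_prop) _ _) (ii (by fun_prop) _ _),
    intervalIntegral.integral_add (ii (by fun_prop) _ _) (ii (by fun_prop) _ _),
    intervalIntegral.integral_add (ii (by fun_prop) _ _) (ii (by fun_prop) _ _),
    intervalIntegral.integral_add (ii (by fun_prop) _ _) (ii (by fun_prop) _ _),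
    intervalIntegral.integral_add (ii (by fun_prop) _ _) (ii (by fun_prop) _ _)]
  have q1 : ∀ c : ℝ, ∫ v in (0 : ℝ)..1, c * v = c * (1 / 2) := fun c => by
    rw [intervalIntegral.integral_const_mul, int_v]
  have q2 : ∀ c : ℝ, ∫ v in (0 : ℝ)..1, c * (1 - v) = c * (1 / 2) := fun c => by
    rw [intervalIntegral.integral_const_mul, int_1v]
  have q3 : ∀ c : ℝ, ∫ v in (0 : ℝ)..1, c * (v * PH a a' v) = c * (a / 3 - a' / 24) := fun c => by
    rw [intervalIntegral.integral_const_mul, int_vPH]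
  have q4 : ∀ c : ℝ, ∫ v in (0 : ℝ)..1, c * ((1 - v) * PH b b' v) = c * (b / 6 - b' / 24) := fun c => by
    rw [intervalIntegral.integral_const_mul, int_1vPH]
  rw [q1, q1, q2, q2, q3, q4, int_vPH, int_1vPH, int_vPH2, int_1vPH2]
  unfold vP
  ring

/-! ### variance of a function with one sided bounds of the slopes -/

/-- the variance inequality for monotone functions -/
def VarMono : Prop := ∀ (G : ℝ → ℝ) (c : ℝ), Continuous G → (∃ K : ℝ≥0, LipschitzWith K G) →
  MonotoneOn G (Icc (c - 3) (c + 3)) →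
  ht (fun t => G t ^ 2) c - ht G c ^ 2 ≤ (ht G c - ht G (c - 1)) * (ht G (c + 1) - ht G c)
    + (ht G (c + 1) - ht G c) * (ht G (c - 1) - ht G (c - 2)) + (ht G c - ht G (c - 1)) * (ht G (c + 2) - ht G (c + 1))

/-- monotone functions have monotone hat averages -/
theorem ht_step {G : ℝ → ℝ} (hG : Continuous G) {k : ℝ} (hm : MonotoneOn G (Icc (k - 1) (k + 2))) :
    ht G k ≤ ht G (k + 1) := by
  unfold ht
  have e : ∀ v : ℝ, k + 1 - 1 + v = k + v := fun v => by ring
  have e0 : ∀ v : ℝ, k + 1 + v = k + v + 1 := fun v => by ring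
  refine add_le_add
    (intervalIntegral.integral_mono_on zero_le_one (ii (by fun_prop) _ _) (ii (by fun_prop) _ _) fun v hv => ?_)
    (intervalIntegral.integral_mono_on zero_le_one (ii (by fun_prop) _ _) (ii (by fun_prop) _ _) fun v hv => ?_)
  · refine mul_le_mul_of_nonneg_left (hm ⟨by linarith [hv.1], by linarith [hv.2]⟩ ⟨by linarith [hv.1], by linarith [hv.2]⟩ ?_) hv.1
    linarith
  · refine mul_le_mul_of_nonneg_left (hm ⟨by linarith [hv.1], by linarith [hv.2]⟩ ⟨by linarith [hv.1], by linarith [hv.2]⟩ ?_)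
      (by linarith [hv.2])
    linarith

theorem PH_sub (H H' x y : ℝ) : PH H H' y - PH H H' x = (y - x) * (H + H' * ((x + y) / 2 - 1 / 2)) := by
  unfold PH
  ring

theorem cp_mem (x : ℝ) : 0 ≤ cp x ∧ cp x ≤ 1 := ⟨le_max_left _ _, max_le zero_le_one (min_le_right _ _)⟩

theorem lip_PP (c : ℝ) (L L' : Fin 6 → ℝ) : ∃ K : ℝ≥0, LipschitzWith K (PP c L L') := by
  have hc : LipschitzWith 1 cp := (LipschitzWith.id.min_const 1).const_max 0
  have hK : 0 ≤ ∑ j : Fin 6, (|L j| + |L' j|) := Finset.sum_nonneg fun _ _ => by positivity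
  refine ⟨⟨_, hK⟩, LipschitzWith.of_dist_le_mul fun x y => ?_⟩
  rw [Real.dist_eq, Real.dist_eq]
  unfold PP
  rw [← Finset.sum_sub_distrib]
  refine (Finset.abs_sum_le_sum_abs _ _).trans ?_
  change _ ≤ (∑ j : Fin 6, (|L j| + |L' j|)) * |x - y|
  rw [Finset.sum_mul]
  refine Finset.sum_le_sum fun j _ => ?_
  rw [PH_sub, abs_mul, mul_comm]
  have h1 := hc.dist_le_mul (x - (c - 3 + j)) (y - (c - 3 + j))
  rw [Real.dist_eq, Real.dist_eq, NNReal.coe_one, one_mul, show x - (c - 3 + j) - (y - (c - 3 + j)) = x - y by ring] at h1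
  obtain ⟨a0, a1⟩ := cp_mem (x - (c - 3 + j))
  obtain ⟨b0, b1⟩ := cp_mem (y - (c - 3 + j))
  refine mul_le_mul ?_ h1 (abs_nonneg _) (by positivity)
  refine (abs_add_le _ _).trans (add_le_add le_rfl ?_)
  rw [abs_mul]
  refine mul_le_of_le_one_right (abs_nonneg _) ?_
  rw [abs_le]
  constructor <;> linarith

/-- **variance from lower bounds of the slopes on six cells** -/
theorem var_lo (hV : VarMono) {q : ℝ → ℝ} {K : ℝ≥0} (hq : LipschitzWith K q) {c : ℝ} {L L' : Fin 6 → ℝ}
    (hL : ∀ j, ∀ v, 0 ≤ v → v ≤ 1 → 0 ≤ L j + L' j * (v - 1 / 2)) (h : ∀ j : Fin 6, Lo q (c - 3 + j) (L j) (L' j))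
    {l : Fin 4 → ℝ} (h0 : hs3 (L 0) (L' 0) (L 1) (L 2) (L' 2) ≤ l 0) (h1 : hs3 (L 1) (L' 1) (L 2) (L 3) (L' 3) ≤ l 1)
    (h2 : hs3 (L 2) (L' 2) (L 3) (L 4) (L' 4) ≤ l 2) (h3 : hs3 (L 3) (L' 3) (L 4) (L 5) (L' 5) ≤ l 3) :
    ht (fun t => q t ^ 2) c - ht q c ^ 2
      ≤ (ht q c - ht q (c - 1) + l 1) * (ht q (c + 1) - ht q c + l 2)
        + (ht q (c + 1) - ht q c + l 2) * (ht q (c - 1) - ht q (c - 2) + l 0)
        + (ht q c - ht q (c - 1) + l 1) * (ht q (c + 2) - ht q (c + 1) + l 3) + vP (L 2) (L' 2) (L 3) (L' 3) := by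
  have cq := hq.continuous
  obtain ⟨P, hP⟩ : ∃ P : ℝ → ℝ, P = PP c L L' := ⟨_, rfl⟩
  have cP : Continuous P := by
    rw [hP]
    fun_prop
  have hc : ∀ m : Fin 6, ∀ v, 0 ≤ v → v ≤ 1 → P (c - 3 + m + v) = sL L m + PH (L m) (L' m) v := fun m v a b => by
    rw [hP]
    exact PP_cell c L L' m a b
  obtain ⟨G, hG⟩ : ∃ G : ℝ → ℝ, G = fun t => q t + P t := ⟨_, rfl⟩
  have cG : Continuous G := by
    rw [hG]
    exact cq.add cP
  have mG : MonotoneOn G (Icc (c - 3) (c + 3)) := mono6 fun m x y hx hxy hy => by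
    have := h m x y hx hxy hy
    simp only [hG]
    rw [hc m x hx (hxy.trans hy), hc m y (hx.trans hxy) hy]
    linarith
  have mP : MonotoneOn P (Icc (c - 3) (c + 3)) := mono6 fun m x y hx hxy hy => by
    rw [hc m x hx (hxy.trans hy), hc m y (hx.trans hxy) hy]
    linarith [PH_mono (hL m) x y hx hxy hy]
  have lG : ∃ K : ℝ≥0, LipschitzWith K G := by
    obtain ⟨K', hK'⟩ := lip_PP c L L'
    refine ⟨K + K', ?_⟩
    rw [hG, hP]
    exact hq.add hK'
  have hUp : ∀ m : Fin 6, Up P (c - 3 + m) (L m) (L' m) := fun m x y hx hxy hy => by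
    rw [hc m x hx (hxy.trans hy), hc m y (hx.trans hxy) hy]
    linarith
  have u0 : Up P (c - 3) (L 0) (L' 0) := by simpa using hUp 0
  have u1 : Up P (c - 2) (L 1) (L' 1) := by
    have := hUp 1
    rwa [show c - 3 + (((1 : Fin 6) : ℕ) : ℝ) = c - 2 by norm_num; ring] at this
  have u2 : Up P (c - 1) (L 2) (L' 2) := by
    have := hUp 2
    rwa [show c - 3 + (((2 : Fin 6) : ℕ) : ℝ) = c - 1 by norm_num; ring] at this
  have u3 : Up P c (L 3) (L' 3) := by
    have := hUp 3
    rwa [show c - 3 + (((3 : Fin 6) : ℕ) : ℝ) = c by norm_num] at this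
  have u4 : Up P (c + 1) (L 4) (L' 4) := by
    have := hUp 4
    rwa [show c - 3 + (((4 : Fin 6) : ℕ) : ℝ) = c + 1 by norm_num; ring] at this
  have u5 : Up P (c + 2) (L 5) (L' 5) := by
    have := hUp 5
    rwa [show c - 3 + (((5 : Fin 6) : ℕ) : ℝ) = c + 2 by norm_num; ring] at this
  have d0 : ht P (c - 1) - ht P (c - 2) ≤ l 0 := by
    have := ht_inc cP (k := c - 2) (by rwa [show c - 2 - 1 = c - 3 by ring]) u1 (by rwa [show c - 2 + 1 = c - 1 by ring])
    rw [show c - 2 + 1 = c - 1 by ring] at this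
    exact this.trans h0
  have d1 : ht P c - ht P (c - 1) ≤ l 1 := by
    have := ht_inc cP (k := c - 1) (by rwa [show c - 1 - 1 = c - 2 by ring]) u2 (by rwa [show c - 1 + 1 = c by ring])
    rw [show c - 1 + 1 = c by ring] at this
    exact this.trans h1
  have d2 : ht P (c + 1) - ht P c ≤ l 2 := (ht_inc cP (k := c) u2 u3 u4).trans h2
  have d3 : ht P (c + 2) - ht P (c + 1) ≤ l 3 := by
    have := ht_inc cP (k := c + 1) (by rwa [show c + 1 - 1 = c by ring]) u4 (by rwa [show c + 1 + 1 = c + 2 by ring])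
    rw [show c + 1 + 1 = c + 2 by ring] at this
    exact this.trans h3
  have eG : ∀ k, ht G k = ht q k + ht P k := fun k => by rw [hG, ht_add cq cP]
  -- steps of the majorant
  have s0 : ht G (c - 2) ≤ ht G (c - 1) := by
    have := ht_step cG (k := c - 2) (mG.mono (Icc_subset_Icc (by linarith) (by linarith)))
    rwa [show c - 2 + 1 = c - 1 by ring] at this
  have s1 : ht G (c - 1) ≤ ht G c := by
    have := ht_step cG (k := c - 1) (mG.mono (Icc_subset_Icc (by linarith) (by linarith)))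
    rwa [show c - 1 + 1 = c by ring] at this
  have s2 : ht G c ≤ ht G (c + 1) := ht_step cG (mG.mono (Icc_subset_Icc (by linarith) (by linarith)))
  have s3 : ht G (c + 1) ≤ ht G (c + 2) := by
    have := ht_step cG (k := c + 1) (mG.mono (Icc_subset_Icc (by linarith) (by linarith)))
    rwa [show c + 1 + 1 = c + 2 by ring] at this
  have hv := hV G c cG lG mG
  have hcov := ht_cheb cG cP c (mG.mono (Icc_subset_Icc (by linarith) (by linarith)))
    (mP.mono (Icc_subset_Icc (by linarith) (by linarith)))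
  have hvP : ht (fun t => P t ^ 2) c - ht P c ^ 2 = vP (L 2) (L' 2) (L 3) (L' 3) := by
    refine PP_var (s := sL L 2) (fun v a b => ?_) fun v a b => ?_
    · have := hc 2 v a b
      rwa [show c - 3 + (((2 : Fin 6) : ℕ) : ℝ) = c - 1 by norm_num; ring] at this
    · have := hc 3 v a b
      rw [show c - 3 + (((3 : Fin 6) : ℕ) : ℝ) = c by norm_num] at this
      rw [this]
      simp [sL, Fin.sum_univ_succ]
      ring
  have e2 : ht (fun t => q t ^ 2) c = ht (fun t => G t ^ 2) c + -2 * ht (fun t => G t * P t) c + ht (fun t => P t ^ 2) c := by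
    rw [← ht_smul, ← ht_add (by fun_prop) (by fun_prop), ← ht_add (by fun_prop) (by fun_prop)]
    congr 1
    funext t
    simp only [hG]
    ring
  have e3 := eG (c - 2)
  have e4 := eG (c - 1)
  have e5 := eG c
  have e6 := eG (c + 1)
  have e7 := eG (c + 2)
  -- the products
  have m1 : (ht G c - ht G (c - 1)) * (ht G (c + 1) - ht G c)
      ≤ (ht q c - ht q (c - 1) + l 1) * (ht q (c + 1) - ht q c + l 2) :=
    mul_le_mul (by linarith) (by linarith) (by linarith) (by linarith)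
  have m2 : (ht G (c + 1) - ht G c) * (ht G (c - 1) - ht G (c - 2))
      ≤ (ht q (c + 1) - ht q c + l 2) * (ht q (c - 1) - ht q (c - 2) + l 0) :=
    mul_le_mul (by linarith) (by linarith) (by linarith) (by linarith)
  have m3 : (ht G c - ht G (c - 1)) * (ht G (c + 2) - ht G (c + 1))
      ≤ (ht q c - ht q (c - 1) + l 1) * (ht q (c + 2) - ht q (c + 1) + l 3) :=
    mul_le_mul (by linarith) (by linarith) (by linarith) (by linarith)
  have e8 : ht q c ^ 2 = ht G c ^ 2 - 2 * (ht G c * ht P c) + ht P c ^ 2 := by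
    rw [e5]
    ring
  rw [e2, e8, ← hvP]
  linarith

/-- **variance from upper bounds of the slopes on six cells** -/
theorem var_up (hV : VarMono) {q : ℝ → ℝ} {K : ℝ≥0} (hq : LipschitzWith K q) {c : ℝ} {L L' : Fin 6 → ℝ}
    (hL : ∀ j, ∀ v, 0 ≤ v → v ≤ 1 → 0 ≤ L j + L' j * (v - 1 / 2)) (h : ∀ j : Fin 6, Up q (c - 3 + j) (L j) (L' j))
    {l : Fin 4 → ℝ} (h0 : hs3 (L 0) (L' 0) (L 1) (L 2) (L' 2) ≤ l 0) (h1 : hs3 (L 1) (L' 1) (L 2) (L 3) (L' 3) ≤ l 1)
    (h2 : hs3 (L 2) (L' 2) (L 3) (L 4) (L' 4) ≤ l 2) (h3 : hs3 (L 3) (L' 3) (L 4) (L 5) (L' 5) ≤ l 3) :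
    ht (fun t => q t ^ 2) c - ht q c ^ 2
      ≤ (l 1 - (ht q c - ht q (c - 1))) * (l 2 - (ht q (c + 1) - ht q c))
        + (l 2 - (ht q (c + 1) - ht q c)) * (l 0 - (ht q (c - 1) - ht q (c - 2)))
        + (l 1 - (ht q c - ht q (c - 1))) * (l 3 - (ht q (c + 2) - ht q (c + 1))) + vP (L 2) (L' 2) (L 3) (L' 3) := by
  have k := var_lo hV (q := fun t => -q t) hq.neg (c := c) hL (fun j => (h j).neg) h0 h1 h2 h3
  simp only [ht_neg, neg_sq] at k
  refine k.trans (le_of_eq ?_)
  ring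

/-- **variance of a Lipschitz function** -/
theorem var_lip {q : ℝ → ℝ} (hq : Continuous q) {c M : ℝ}
    (hu : ∀ x ∈ Icc (c - 1) (c + 1), ∀ y ∈ Icc (c - 1) (c + 1), x ≤ y → q y - q x ≤ M * (y - x))
    (hl : ∀ x ∈ Icc (c - 1) (c + 1), ∀ y ∈ Icc (c - 1) (c + 1), x ≤ y → -(M * (y - x)) ≤ q y - q x) :
    ht (fun t => q t ^ 2) c - ht q c ^ 2 ≤ M ^ 2 / 6 := by
  have k := ht_cheb (G := fun t => M * t + q t) (F := fun t => M * t + -q t) (by fun_prop) (by fun_prop) c
    (fun x hx y hy hxy => by have := hl x hx y hy hxy; simp only; linarith)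
    (fun x hx y hy hxy => by have := hu x hx y hy hxy; simp only; linarith)
  have i1 : ht (fun t => t) c = c := by
    unfold ht
    have a1 : ∀ v, v * (c - 1 + v) = (c - 1) * v + v ^ 2 := fun v => by ring
    have a2 : ∀ v, (1 - v) * (c + v) = c * (1 - v) + (v - v ^ 2) := fun v => by ring
    simp only [a1, a2]
    rw [intervalIntegral.integral_add (ii (by fun_prop) _ _) (ii (by fun_prop) _ _),
      intervalIntegral.integral_add (ii (by fun_prop) _ _) (ii (by fun_prop) _ _),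
      intervalIntegral.integral_sub (ii (by fun_prop) _ _) (ii (by fun_prop) _ _),
      intervalIntegral.integral_const_mul, intervalIntegral.integral_const_mul, int_v, int_1v, integral_pow]
    norm_num
    ring
  have j1 : ∫ v in (0 : ℝ)..1, (v - v ^ 2) = 1 / 6 := by
    rw [intervalIntegral.integral_sub (ii (by fun_prop) _ _) (ii (by fun_prop) _ _), int_v, integral_pow]
    norm_num
  have j2 : ∫ v in (0 : ℝ)..1, (v ^ 2 - v ^ 3) = 1 / 12 := by
    rw [intervalIntegral.integral_sub (ii (by fun_prop) _ _) (ii (by fun_prop) _ _), integral_pow, integral_pow]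
    norm_num
  have i2 : ht (fun t => t ^ 2) c = c ^ 2 + 1 / 6 := by
    unfold ht
    have a1 : ∀ v, v * (c - 1 + v) ^ 2 = ((c - 1) ^ 2 * v + 2 * (c - 1) * v ^ 2) + v ^ 3 := fun v => by ring
    have a2 : ∀ v, (1 - v) * (c + v) ^ 2 = (c ^ 2 * (1 - v) + 2 * c * (v - v ^ 2)) + (v ^ 2 - v ^ 3) := fun v => by ring
    simp only [a1, a2]
    rw [intervalIntegral.integral_add (ii (by fun_prop) _ _) (ii (by fun_prop) _ _),
      intervalIntegral.integral_add (ii (by fun_prop) _ _) (ii (by fun_prop) _ _),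
      intervalIntegral.integral_add (ii (by fun_prop) _ _) (ii (by fun_prop) _ _),
      intervalIntegral.integral_add (ii (by fun_prop) _ _) (ii (by fun_prop) _ _),
      intervalIntegral.integral_const_mul, intervalIntegral.integral_const_mul, intervalIntegral.integral_const_mul,
      intervalIntegral.integral_const_mul, j1, j2, int_v, int_1v, integral_pow, integral_pow]
    norm_num
    ring
  have e1 : ht (fun t => M * t + q t) c = M * c + ht q c := by
    rw [ht_add (by fun_prop) hq, ht_smul, i1]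
  have e2 : ht (fun t => M * t + -q t) c = M * c - ht q c := by
    rw [ht_add (G := fun t => M * t) (F := fun t => -q t) (by fun_prop) hq.neg, ht_smul, i1, ht_neg]
    ring
  have e3 : ht (fun t => (M * t + q t) * (M * t + -q t)) c = M ^ 2 * (c ^ 2 + 1 / 6) - ht (fun t => q t ^ 2) c := by
    have e4 : (fun t => (M * t + q t) * (M * t + -q t)) = fun t => M ^ 2 * t ^ 2 - q t ^ 2 := by
      funext t
      ring
    rw [e4, ht_sub (by fun_prop) (by fun_prop), ht_smul, i2]
  rw [e1, e2, e3] at k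
  nlinarith

end Pool.Agent.FPX.HAA
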