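import Mathlib
import Pool.Agent.FPX.S7O

/-
HAR (helper93): the Hardy inequality `Λ ∫ ν g² ≤ ∫ |dg|² + η` for functions that are odd along the
curve, for a density `0 ≤ ν ≤ n` with `∫ ν ≤ X`, from the isoperimetric inequality `IsopO`.

The value function is `Φ (a, m) = k / ψ (a, m)`, `ψ (a, m) = 1/u - 1/2 - c u - log (a n / m)`, `u = Λ m / k`,
`a` = area and `m` = mass of `ν` above the level.
-/

open MeasureTheory Set Filter Topology
open scoped ENNReal NNReal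

noncomputable section

namespace Pool.Agent.FPX

open Pool.Agent.EWD Pool.Agent.FPM

/-- the denominator of the value function -/
def haP (k Λ n c a m : ℝ) : ℝ :=
  k / (Λ * m) - 1 / 2 - c * (Λ * m / k) - (Real.log (a * n) - Real.log m)

/-- the density condition of the value function -/
theorem haP_m {k Λ n c a m U : ℝ} (hk : 0 < k) (hΛ : 0 < Λ) (hc : 0 ≤ c) (hm : 0 < m)
    (hma : m ≤ a * n) (hU : Λ * m / k ≤ U) (hcU : 1 / 4 + c * U + c ^ 2 * U ^ 2 ≤ 3 * c)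
    (hψ : 0 < haP k Λ n c a m) :
    Λ * haP k Λ n c a m ^ 2 ≤ k * (k / (Λ * m ^ 2) + c * Λ / k - 1 / m) := by
  set u := Λ * m / k with hu
  have hu0 : 0 < u := by positivity
  have e1 : k / (Λ * m) = 1 / u := by
    rw [hu]
    field_simp
  have hlog : Real.log m ≤ Real.log (a * n) := Real.log_le_log hm hma
  have h1 : haP k Λ n c a m ≤ 1 / u - 1 / 2 - c * u := by
    unfold haP
    rw [e1, ← hu]
    linarith
  have e2 : k * (k / (Λ * m ^ 2) + c * Λ / k - 1 / m) = Λ * ((1 / u) ^ 2 + c - 1 / u) := by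
    rw [hu]
    field_simp
  rw [e2]
  refine mul_le_mul_of_nonneg_left ?_ hΛ.le
  have h2 : haP k Λ n c a m ^ 2 ≤ (1 / u - 1 / 2 - c * u) ^ 2 := pow_le_pow_left₀ hψ.le h1 2
  refine h2.trans ?_
  have e3 : (1 / u - 1 / 2 - c * u) ^ 2 = (1 / u) ^ 2 - 1 / u + 1 / 4 - 2 * c + c * u + c ^ 2 * u ^ 2 := by
    field_simp
    ring
  rw [e3]
  have h3 : c * u ≤ c * U := mul_le_mul_of_nonneg_left hU hc
  have h4 : c ^ 2 * u ^ 2 ≤ c ^ 2 * U ^ 2 :=
    mul_le_mul_of_nonneg_left (pow_le_pow_left₀ hu0.le hU 2) (sq_nonneg c)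
  linarith

/-- monotonicity of the denominator -/
theorem haP_mono {k Λ n c a m A B : ℝ} (hk : 0 < k) (hΛ : 0 < Λ) (hn : 0 < n) (hc : 0 ≤ c) (hm : 0 < m)
    (hmB : m ≤ B) (hB : Λ * B / k ≤ 1) (ha : 0 < a) (haA : a ≤ A) :
    haP k Λ n c A B ≤ haP k Λ n c a m := by
  have hB0 : 0 < B := hm.trans_le hmB
  unfold haP
  have h1 : Real.log (a * n) ≤ Real.log (A * n) :=
    Real.log_le_log (by positivity) (mul_le_mul_of_nonneg_right haA hn.le)
  have h2 : Real.log B - Real.log m ≤ B / m - 1 := by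
    rw [← Real.log_div hB0.ne' hm.ne']
    exact Real.log_le_sub_one_of_pos (by positivity)
  have h3 : B / m - 1 ≤ k / (Λ * m) - k / (Λ * B) := by
    have e : k / (Λ * m) - k / (Λ * B) = (B / m - 1) * (k / (Λ * B)) := by
      field_simp
    rw [e]
    have h4 : 1 ≤ k / (Λ * B) := by
      rw [div_le_one hk] at hB
      rwa [le_div_iff₀ (by positivity), one_mul]
    have h5 : 0 ≤ B / m - 1 := by
      rw [sub_nonneg, le_div_iff₀ hm, one_mul]
      exact hmB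
    nlinarith
  have h4 : c * (Λ * m / k) ≤ c * (Λ * B / k) :=
    mul_le_mul_of_nonneg_left (div_le_div_of_nonneg_right (mul_le_mul_of_nonneg_left hmB hΛ.le) hk.le) hc
  linarith

/-- the value function is small for small sets -/
theorem haP_small {k Λ n c a m ε q : ℝ} (hk : 0 < k) (hΛ : 0 < Λ) (hn : 0 < n) (hc : 0 ≤ c)
    (hε : 0 < ε) (hq : 1 ≤ q) (hm : n * ε ≤ m) (hma : m ≤ a * n) (ha : a ≤ ε * q)
    (h : Λ * n * (ε * q) / k * (1 + 2 * c * (Λ * n * (ε * q) / k) + 2 * Real.log q) ≤ 1) :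
    0 < haP k Λ n c a m ∧ k / haP k Λ n c a m ≤ 2 * Λ * n * (ε * q) := by
  have hm0 : 0 < m := lt_of_lt_of_le (by positivity) hm
  have ha0 : 0 < a := by
    by_contra h0
    push Not at h0
    nlinarith
  set u0 := Λ * n * (ε * q) / k with hu0
  have hu00 : 0 < u0 := by positivity
  have hmu : m ≤ n * (ε * q) := by nlinarith
  have hlq : 0 ≤ Real.log q := Real.log_nonneg hq
  have h1 : Real.log (a * n) - Real.log m ≤ Real.log q := by
    rw [← Real.log_div (by positivity) hm0.ne']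
    refine Real.log_le_log (by positivity) ?_
    rw [div_le_iff₀ hm0]
    nlinarith
  have h2 : 1 / u0 ≤ k / (Λ * m) := by
    rw [hu0, one_div_div]
    refine div_le_div_of_nonneg_left hk.le (by positivity) ?_
    calc Λ * m ≤ Λ * (n * (ε * q)) := mul_le_mul_of_nonneg_left hmu hΛ.le
      _ = Λ * n * (ε * q) := by ring
  have h3 : c * (Λ * m / k) ≤ c * u0 := by
    refine mul_le_mul_of_nonneg_left ?_ hc
    rw [hu0]
    refine div_le_div_of_nonneg_right ?_ hk.le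
    calc Λ * m ≤ Λ * (n * (ε * q)) := mul_le_mul_of_nonneg_left hmu hΛ.le
      _ = Λ * n * (ε * q) := by ring
  have h4 : 1 / (2 * u0) ≤ haP k Λ n c a m := by
    unfold haP
    have h5 : 1 / 2 + c * u0 + Real.log q ≤ 1 / (2 * u0) := by
      rw [le_div_iff₀ (by positivity)]
      nlinarith
    have h6 : 1 / u0 = 1 / (2 * u0) + 1 / (2 * u0) := by
      field_simp
      norm_num
    linarith
  have h5 : 0 < 1 / (2 * u0) := by positivity
  refine ⟨h5.trans_le h4, ?_⟩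
  have h6 : k / haP k Λ n c a m ≤ k / (1 / (2 * u0)) := div_le_div_of_nonneg_left hk.le h5 h4
  refine h6.trans (le_of_eq ?_)
  rw [hu0]
  field_simp

/-- the value function as a function of the level, the area and the mass -/
def haS (k Λ n c e c0 : ℝ) (t : ℝ) (x : Fin 2 → ℝ) : ℝ :=
  -t ^ 2 * (k / haP k Λ n c (x 0 + e) (x 1 + n * e) - c0)

/-- the derivative in the area -/
def haA (k Λ n c e : ℝ) (x : Fin 2 → ℝ) : ℝ :=
  k * (1 / (x 0 + e)) / haP k Λ n c (x 0 + e) (x 1 + n * e) ^ 2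

/-- the derivative in the mass -/
def haM (k Λ n c e : ℝ) (x : Fin 2 → ℝ) : ℝ :=
  k * (k / (Λ * (x 1 + n * e) ^ 2) + c * Λ / k - 1 / (x 1 + n * e)) /
    haP k Λ n c (x 0 + e) (x 1 + n * e) ^ 2

/-- the derivative -/
def haD (k Λ n c e c0 : ℝ) (t : ℝ) (x : Fin 2 → ℝ) : (ℝ × (Fin 2 → ℝ)) →L[ℝ] ℝ :=
  (-(2 * t) * (k / haP k Λ n c (x 0 + e) (x 1 + n * e) - c0)) • ContinuousLinearMap.fst ℝ ℝ (Fin 2 → ℝ)
    + (-t ^ 2) • (haA k Λ n c e x • (ContinuousLinearMap.proj (R := ℝ) (φ := fun _ : Fin 2 => ℝ) 0).comp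
        (ContinuousLinearMap.snd ℝ ℝ (Fin 2 → ℝ))
      + haM k Λ n c e x • (ContinuousLinearMap.proj (R := ℝ) (φ := fun _ : Fin 2 => ℝ) 1).comp
        (ContinuousLinearMap.snd ℝ ℝ (Fin 2 → ℝ)))

theorem haD_one (k Λ n c e c0 t : ℝ) (x : Fin 2 → ℝ) :
    haD k Λ n c e c0 t x (1, 0) = -(2 * t) * (k / haP k Λ n c (x 0 + e) (x 1 + n * e) - c0) := by
  simp [haD]

theorem haD_two (k Λ n c e c0 t : ℝ) (x y : Fin 2 → ℝ) :
    haD k Λ n c e c0 t x (0, y) = -t ^ 2 * (haA k Λ n c e x * y 0 + haM k Λ n c e x * y 1) := by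
  simp [haD]
  ring

theorem haS_has {k Λ n c e c0 t : ℝ} {x : Fin 2 → ℝ} (hk : 0 < k) (hΛ : 0 < Λ) (hn : 0 < n)
    (ha : 0 < x 0 + e) (hm : 0 < x 1 + n * e) (hψ : haP k Λ n c (x 0 + e) (x 1 + n * e) ≠ 0) :
    HasFDerivAt (fun z : ℝ × (Fin 2 → ℝ) => haS k Λ n c e c0 z.1 z.2) (haD k Λ n c e c0 t x) (t, x) := by
  have h0 : HasFDerivAt (fun z : ℝ × (Fin 2 → ℝ) => z.2 0 + e)
      ((ContinuousLinearMap.proj (R := ℝ) (φ := fun _ : Fin 2 => ℝ) 0).comp
        (ContinuousLinearMap.snd ℝ ℝ (Fin 2 → ℝ))) (t, x) :=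
    (((ContinuousLinearMap.proj (R := ℝ) (φ := fun _ : Fin 2 => ℝ) 0).comp
        (ContinuousLinearMap.snd ℝ ℝ (Fin 2 → ℝ))).hasFDerivAt).add_const e
  have h1 : HasFDerivAt (fun z : ℝ × (Fin 2 → ℝ) => z.2 1 + n * e)
      ((ContinuousLinearMap.proj (R := ℝ) (φ := fun _ : Fin 2 => ℝ) 1).comp
        (ContinuousLinearMap.snd ℝ ℝ (Fin 2 → ℝ))) (t, x) :=
    (((ContinuousLinearMap.proj (R := ℝ) (φ := fun _ : Fin 2 => ℝ) 1).comp
        (ContinuousLinearMap.snd ℝ ℝ (Fin 2 → ℝ))).hasFDerivAt).add_const (n * e)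
  have ht : HasFDerivAt (fun z : ℝ × (Fin 2 → ℝ) => z.1)
      (ContinuousLinearMap.fst ℝ ℝ (Fin 2 → ℝ)) (t, x) :=
    (ContinuousLinearMap.fst ℝ ℝ (Fin 2 → ℝ)).hasFDerivAt
  set pa := (ContinuousLinearMap.proj (R := ℝ) (φ := fun _ : Fin 2 => ℝ) 0).comp
        (ContinuousLinearMap.snd ℝ ℝ (Fin 2 → ℝ))
  set pm := (ContinuousLinearMap.proj (R := ℝ) (φ := fun _ : Fin 2 => ℝ) 1).comp
        (ContinuousLinearMap.snd ℝ ℝ (Fin 2 → ℝ))
  set a := x 0 + e with hae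
  set m := x 1 + n * e with hme
  -- the denominator
  have d1 : HasDerivAt (fun m : ℝ => k / (Λ * m) - 1 / 2 - c * (Λ * m / k) + Real.log m)
      (-(k / (Λ * m ^ 2) + c * Λ / k - 1 / m)) m := by
    have e1 : HasDerivAt (fun m : ℝ => k / (Λ * m)) (-(k / (Λ * m ^ 2))) m := by
      have := (((hasDerivAt_id m).const_mul Λ).inv (by positivity)).const_mul k
      refine (this.congr_of_eventuallyEq (Eventually.of_forall fun y => ?_)).congr_deriv ?_
      · simp [div_eq_mul_inv]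
      · simp only [id_eq, mul_one]
        field_simp
    have e2 : HasDerivAt (fun m : ℝ => c * (Λ * m / k)) (c * Λ / k) m := by
      have := (((hasDerivAt_id m).const_mul Λ).div_const k).const_mul c
      refine this.congr_deriv ?_
      simp only [mul_one]
      ring
    have e3 := (Real.hasDerivAt_log hm.ne')
    refine (((e1.sub_const (1 / 2)).sub e2).add e3).congr_deriv ?_
    rw [one_div]
    ring
  have d2 : HasDerivAt (fun a : ℝ => Real.log (a * n)) (1 / a) a := by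
    have := ((hasDerivAt_id a).mul_const n).log (by simpa using (by positivity : a * n ≠ 0))
    refine this.congr_deriv ?_
    simp only [id_eq, one_mul]
    field_simp
  have hψd : HasFDerivAt (fun z : ℝ × (Fin 2 → ℝ) => haP k Λ n c (z.2 0 + e) (z.2 1 + n * e))
      ((-(k / (Λ * m ^ 2) + c * Λ / k - 1 / m)) • pm - (1 / a) • pa) (t, x) := by
    have g1 := d1.comp_hasFDerivAt (t, x) h1
    have g2 := d2.comp_hasFDerivAt (t, x) h0
    refine (g1.sub g2).congr_of_eventuallyEq (Eventually.of_forall fun z => ?_)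
    change haP k Λ n c (z.2 0 + e) (z.2 1 + n * e) =
      (k / (Λ * (z.2 1 + n * e)) - 1 / 2 - c * (Λ * (z.2 1 + n * e) / k) + Real.log (z.2 1 + n * e))
        - Real.log ((z.2 0 + e) * n)
    unfold haP
    ring
  have hinv : HasFDerivAt (fun z : ℝ × (Fin 2 → ℝ) =>
      k / haP k Λ n c (z.2 0 + e) (z.2 1 + n * e) - c0)
      (haA k Λ n c e x • pa + haM k Λ n c e x • pm) (t, x) := by
    have g1 : HasDerivAt (fun y : ℝ => k / y - c0) (-(k / haP k Λ n c a m ^ 2)) (haP k Λ n c a m) := by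
      have := ((hasDerivAt_inv hψ).const_mul k).sub_const c0
      refine (this.congr_of_eventuallyEq (Eventually.of_forall fun y => ?_)).congr_deriv ?_
      · simp [div_eq_mul_inv]
      · field_simp
    have g2 := g1.comp_hasFDerivAt (t, x) hψd
    refine g2.congr_fderiv ?_
    ext z
    · simp [haA, haM, pa, pm]
    · simp only [haA, haM, ContinuousLinearMap.comp_apply, add_apply,
        smul_apply, sub_apply, smul_eq_mul,
        ContinuousLinearMap.inr_apply]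
      rw [← hae, ← hme]
      ring
  have hsq : HasFDerivAt (fun z : ℝ × (Fin 2 → ℝ) => -z.1 ^ 2)
      ((-(2 * t)) • ContinuousLinearMap.fst ℝ ℝ (Fin 2 → ℝ)) (t, x) := by
    have g1 : HasDerivAt (fun y : ℝ => -y ^ 2) (-(2 * t)) t := by
      have := (hasDerivAt_pow 2 t).fun_neg
      simpa using this
    exact HasDerivAt.comp_hasFDerivAt (h₂ := fun y : ℝ => -y ^ 2) (f := fun z : ℝ × (Fin 2 → ℝ) => z.1)
      (t, x) g1 ht
  have hfin := hsq.mul hinv
  refine (hfin.congr_fderiv ?_).congr_of_eventuallyEq (Eventually.of_forall fun z => ?_)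
  · unfold haD
    rw [← hae, ← hme]
    module
  · rfl

section core

variable {M : Type} [MetricSpace M] {γ : ℝ → M}

/-- the domain of the states -/
def haDom (n V X : ℝ) : Set (Fin 2 → ℝ) := {x | 0 ≤ x 0 ∧ x 0 ≤ V ∧ 0 ≤ x 1 ∧ x 1 ≤ X ∧ x 1 ≤ n * x 0}

theorem haDom_convex (n V X : ℝ) : Convex ℝ (haDom n V X) := by
  intro x hx y hy a b ha hb hab
  obtain ⟨h1, h2, h3, h4, h5⟩ := hx
  obtain ⟨k1, k2, k3, k4, k5⟩ := hy
  have e : ∀ i, (a • x + b • y) i = a * x i + b * y i := fun i => rfl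
  refine ⟨?_, ?_, ?_, ?_, ?_⟩
  · rw [e]
    positivity
  · rw [e]
    calc a * x 0 + b * y 0 ≤ a * V + b * V := by gcongr
      _ = V := by rw [← add_mul, hab, one_mul]
  · rw [e]
    positivity
  · rw [e]
    calc a * x 1 + b * y 1 ≤ a * X + b * X := by gcongr
      _ = X := by rw [← add_mul, hab, one_mul]
  · rw [e, e]
    calc a * x 1 + b * y 1 ≤ a * (n * x 0) + b * (n * y 0) := by gcongr
      _ = n * (a * x 0 + b * y 0) := by ring

/-- **Hardy inequality for odd functions**, explicit form -/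
theorem hardy_core (C : Calc M γ) {κ ε : ℝ} (hκ : 0 < κ) (hε : 0 < ε) (hI : IsopO C κ ε) {g : M → ℝ}
    (hg : Lip g) (ho : ∀ t, g (γ (t + Real.pi)) = -g (γ t)) {R V X n Λ δ c : ℝ} (hR : ∀ x, |g x| ≤ R)
    (hV : C.vol ≤ V) {ν : Om → ℝ} (hν : Integrable ν C.μ) (ν0 : ∀ᵐ o ∂C.μ, 0 ≤ ν o)
    (νn : ∀ᵐ o ∂C.μ, ν o ≤ n) (hX : ∫ o, ν o ∂C.μ ≤ X) (hn : 0 < n) (hΛ : 0 < Λ) (hδ : 0 < δ)
    (hδ1 : δ < 1) (hc : 0 ≤ c) (hU : Λ * (X + n * ε) / (κ * (1 - δ)) ≤ 1)
    (hcU : 1 / 4 + c * (Λ * (X + n * ε) / (κ * (1 - δ))) +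
      c ^ 2 * (Λ * (X + n * ε) / (κ * (1 - δ))) ^ 2 ≤ 3 * c)
    (hψ : 0 < haP (κ * (1 - δ)) Λ n c (V + ε) (X + n * ε))
    (hs : Λ * n * (ε * (1 + 2 / δ)) / (κ * (1 - δ)) *
      (1 + 2 * c * (Λ * n * (ε * (1 + 2 / δ)) / (κ * (1 - δ))) + 2 * Real.log (1 + 2 / δ)) ≤ 1) :
    Λ * ∫ o, ν o * g (C.pt o) ^ 2 ∂C.μ ≤
      ∫ o, gn C g o ^ 2 ∂C.μ + (R + 1) ^ 2 * (2 * Λ * n * (ε * (1 + 2 / δ))) := by
  have := C.fin
  set k := κ * (1 - δ) with hk
  have hk0 : 0 < k := mul_pos hκ (by linarith)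
  set q := 1 + 2 / δ with hq
  have hq1 : 1 ≤ q := by
    have : 0 < 2 / δ := by positivity
    linarith
  set c0 := 2 * Λ * n * (ε * q) with hc0
  have hc00 : 0 ≤ c0 := by positivity
  have hR0 : 0 ≤ R := (abs_nonneg _).trans (hR (γ 0))
  obtain ⟨h, mh, he, hsF⟩ := neg_rep C hg
  set P := haP k Λ n c (V + ε) (X + n * ε) with hP
  -- the states
  have hst0 : ∀ t, s7F C.μ h (fun _ => (1 : ℝ)) t = s7b C.μ h t := fun t => (s7b_eq (μ := C.μ) (g := h) t).symm
  have hvol : C.μ.real univ = C.vol := rfl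
  set γs : Fin 2 → Om → ℝ := ![fun _ => 1, ν] with hγs
  have iγs : ∀ i, Integrable (γs i) C.μ := by
    intro i
    fin_cases i
    · exact integrable_const _
    · exact hν
  have hdom : ∀ t, (fun i => s7F C.μ h (γs i) t) ∈ haDom n V X := by
    intro t
    have hms : MeasurableSet {o | h o < t} := measurableSet_lt mh measurable_const
    refine ⟨?_, ?_, ?_, ?_, ?_⟩
    · change 0 ≤ s7F C.μ h (fun _ => (1 : ℝ)) t
      rw [hst0]
      exact s7b_nonneg C.μ t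
    · change s7F C.μ h (fun _ => (1 : ℝ)) t ≤ V
      rw [hst0]
      exact (s7b_le C.μ t).trans hV
    · change 0 ≤ s7F C.μ h ν t
      exact setIntegral_nonneg_of_ae_restrict (ae_restrict_of_ae ν0)
    · change s7F C.μ h ν t ≤ X
      refine le_trans ?_ hX
      exact setIntegral_le_integral hν ν0
    · change s7F C.μ h ν t ≤ n * s7F C.μ h (fun _ => (1 : ℝ)) t
      unfold s7F
      rw [← integral_const_mul]
      refine setIntegral_mono_ae hν.integrableOn (integrable_const _).integrableOn ?_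
      filter_upwards [νn] with o hn'
      linarith
  -- the denominator on the domain
  have hmB : Λ * (X + n * ε) / k ≤ 1 := hU
  have hdp : ∀ x ∈ haDom n V X, 0 < x 0 + ε ∧ 0 < x 1 + n * ε ∧ x 1 + n * ε ≤ (x 0 + ε) * n ∧
      P ≤ haP k Λ n c (x 0 + ε) (x 1 + n * ε) := by
    rintro x ⟨h1, h2, h3, h4, h5⟩
    have a1 : 0 < x 0 + ε := by linarith
    have a2 : 0 < x 1 + n * ε := by positivity
    refine ⟨a1, a2, by nlinarith, ?_⟩
    exact haP_mono hk0 hΛ hn hc a2 (by linarith) hmB a1 (by linarith)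
  have hM : ∀ x ∈ haDom n V X, Λ ≤ haM k Λ n c ε x := by
    intro x hx
    obtain ⟨a1, a2, a3, a4⟩ := hdp x hx
    have a5 : 0 < haP k Λ n c (x 0 + ε) (x 1 + n * ε) := hψ.trans_le a4
    unfold haM
    rw [le_div_iff₀ (by positivity)]
    refine haP_m hk0 hΛ hc a2 a3 ?_ hcU a5
    refine div_le_div_of_nonneg_right (mul_le_mul_of_nonneg_left ?_ hΛ.le) hk0.le
    have := hx.2.2.2.1
    linarith
  have hA : ∀ x ∈ haDom n V X, 0 < haA k Λ n c ε x := by
    intro x hx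
    obtain ⟨a1, a2, a3, a4⟩ := hdp x hx
    have a5 : 0 < haP k Λ n c (x 0 + ε) (x 1 + n * ε) := hψ.trans_le a4
    unfold haA
    positivity
  set L := 2 * (R + 1) * (k / P + Λ * n) with hL
  have hL0 : 0 ≤ L := by positivity
  have hr : -(R + 1) ≤ (0 : ℝ) := by linarith
  -- integrability
  have hgR : ∀ o, g (C.pt o) ^ 2 ≤ R ^ 2 := fun o => by
    rw [← sq_abs]
    exact pow_le_pow_left₀ (abs_nonneg _) (hR _) 2
  have hgm : AEStronglyMeasurable (fun o => g (C.pt o) ^ 2) C.μ :=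
    ((C.mpt g hg).pow_const 2).aestronglyMeasurable
  have hνg : Integrable (fun o => ν o * g (C.pt o) ^ 2) C.μ := by
    refine hν.mul_bdd (c := R ^ 2) hgm (Eventually.of_forall fun o => ?_)
    rw [Real.norm_eq_abs, abs_of_nonneg (sq_nonneg _)]
    exact hgR o
  have hQ : Integrable (fun o => -Λ * (ν o * g (C.pt o) ^ 2) + gn C g o ^ 2) C.μ :=
    (hνg.const_mul _).add (int_gn_sq C hg)
  -- the levels
  have hlev : ∀ᵐ t : ℝ, t < 0 → κ * (s7b C.μ h t - ε) ≤ deriv (s7F C.μ h (gn C g)) t ^ 2 := by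
    filter_upwards [odd_lev C hI hg ho] with t ht h0
    have e1 : s7b C.μ h t = inf' C (fun x => -|g x|) t := by
      rw [s7b_eq, hsF, nlev_one]
      unfold inf'
      congr 2
      ext o
      change -t < |g (C.pt o)| ↔ -|g (C.pt o)| < t
      exact neg_lt
    have e2 : s7F C.μ h (gn C g) = lev C fun x => -|g x| := by
      funext r
      rw [hsF]
      unfold nlev lev
      refine integral_congr_ae (ae_restrict_of_ae ?_)
      filter_upwards [gn_abs C hg] with o ho'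
      rw [gn_neg, ho']
    rw [e1, e2]
    exact ht h0
  have hmono : Monotone (s7F C.μ h (gn C g)) := s7F_mono C.μ mh (int_gn C hg) (gn_nonneg C g)
  have hh0 : ∀ᵐ o ∂C.μ, h o ≤ 0 ∧ -(R + 1) < h o ∧ h o ^ 2 = g (C.pt o) ^ 2 := by
    filter_upwards [he] with o ho'
    rw [ho']
    refine ⟨neg_nonpos.2 (abs_nonneg _), ?_, ?_⟩
    · have := hR (C.pt o)
      linarith
    · rw [neg_sq, sq_abs]
  have key := s7_hjV C.μ mh iγs (κ := Unit) (q := fun _ => gn C g) (fun _ => int_gn C hg) hQ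
    (r0 := -(R + 1)) (r1 := 0) (L := L) hr hL0 (haDom_convex n V X) (fun t _ _ => hdom t)
    (S := haS k Λ n c ε c0) (S' := haD k Λ n c ε c0)
    (fun t x _ _ hx => by
      obtain ⟨a1, a2, a3, a4⟩ := hdp x hx
      exact haS_has hk0 hΛ hn a1 a2 (hψ.trans_le a4).ne')
    (fun t x h1 h2 hx => by
      obtain ⟨a1, a2, a3, a4⟩ := hdp x hx
      rw [haD_one]
      have a5 : k / haP k Λ n c (x 0 + ε) (x 1 + n * ε) ≤ k / P := div_le_div_of_nonneg_left hk0.le hψ a4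
      have a6 : 0 ≤ -(2 * t) := by linarith
      have a7 : -(2 * t) ≤ 2 * (R + 1) := by linarith
      have a8 : 0 ≤ k / P := by positivity
      have a9 : 0 ≤ Λ * n := by positivity
      calc -(2 * t) * (k / haP k Λ n c (x 0 + ε) (x 1 + n * ε) - c0)
          ≤ -(2 * t) * (k / P) := mul_le_mul_of_nonneg_left (by linarith) a6
        _ ≤ 2 * (R + 1) * (k / P) := mul_le_mul_of_nonneg_right a7 a8
        _ ≤ L := by
          rw [hL, mul_add]
          have : 0 ≤ 2 * (R + 1) * (Λ * n) := by positivity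
          linarith)
    (by
      filter_upwards [hh0, ν0, νn] with o ⟨b1, b2, b3⟩ b4 b5 t x c1 c2 c3 c4
      rw [haD_two]
      change -t ^ 2 * (haA k Λ n c ε x * 1 + haM k Λ n c ε x * ν o) ≤
        -Λ * (ν o * g (C.pt o) ^ 2) + gn C g o ^ 2 + L * (t - h o)
      have d1 := hM x c2
      have d2 := hA x c2
      have d3 : t ^ 2 * (Λ * ν o) ≤ t ^ 2 * (haM k Λ n c ε x * ν o) := by gcongr
      have d4 : 0 ≤ t ^ 2 * haA k Λ n c ε x := by positivity
      have d5 : Λ * ν o * (h o ^ 2 - t ^ 2) ≤ L * (t - h o) := by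
        have f1 : h o ^ 2 - t ^ 2 = (t - h o) * (-h o - t) := by ring
        have f2 : -h o - t ≤ 2 * (R + 1) := by linarith
        have f3 : 0 ≤ t - h o := by linarith
        have f4 : Λ * ν o ≤ Λ * n := mul_le_mul_of_nonneg_left b5 hΛ.le
        have f5 : 0 ≤ Λ * ν o := by positivity
        rw [f1]
        calc Λ * ν o * ((t - h o) * (-h o - t)) ≤ Λ * ν o * ((t - h o) * (2 * (R + 1))) := by gcongr
          _ ≤ Λ * n * ((t - h o) * (2 * (R + 1))) := by gcongr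
          _ ≤ L * (t - h o) := by
            rw [hL]
            have : 0 ≤ 2 * (R + 1) * (k / P) * (t - h o) := by positivity
            nlinarith
      have d6 : 0 ≤ gn C g o ^ 2 := sq_nonneg _
      rw [← b3]
      nlinarith)
    (by
      filter_upwards [hlev] with t ht h1 h2
      set x : Fin 2 → ℝ := fun i => s7F C.μ h (γs i) t with hx
      have hxd : x ∈ haDom n V X := hdom t
      obtain ⟨a1, a2, a3, a4⟩ := hdp x hxd
      have a5 : 0 < haP k Λ n c (x 0 + ε) (x 1 + n * ε) := hψ.trans_le a4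
      have d1 := hM x hxd
      have d2 := hA x hxd
      set Φ := k / haP k Λ n c (x 0 + ε) (x 1 + n * ε) with hΦ
      have hΦ0 : 0 < Φ := by positivity
      by_cases hcase : Φ ≤ c0
      · refine ⟨fun _ => 0, ?_, 1, one_pos, ?_⟩
        · rw [haD_one]
          simp only [zero_mul, Finset.sum_const_zero]
          exact mul_nonpos_of_nonneg_of_nonpos (by linarith) (by linarith)
        · filter_upwards [hh0, ν0] with o ⟨b1, b2, b3⟩ b4 c3 c4
          rw [haD_two]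
          simp only [zero_mul, Finset.sum_const_zero, add_zero]
          change -t ^ 2 * (haA k Λ n c ε x * 1 + haM k Λ n c ε x * ν o) ≤
            -Λ * (ν o * g (C.pt o) ^ 2) + gn C g o ^ 2 + L * (h o - t)
          have d3 : t ^ 2 * (Λ * ν o) ≤ t ^ 2 * (haM k Λ n c ε x * ν o) := by gcongr
          have d4 : 0 ≤ t ^ 2 * haA k Λ n c ε x := by positivity
          have f1 : h o ^ 2 ≤ t ^ 2 := by nlinarith
          have f2 : Λ * ν o * h o ^ 2 ≤ Λ * ν o * t ^ 2 := mul_le_mul_of_nonneg_left f1 (by positivity)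
          have f3 : 0 ≤ L * (h o - t) := mul_nonneg hL0 (by linarith)
          rw [← b3]
          nlinarith [sq_nonneg (gn C g o)]
      · push Not at hcase
        set A := haA k Λ n c ε x with hAd
        set l := deriv (s7F C.μ h (gn C g)) t with hl
        have hl0 : 0 ≤ l := hmono.deriv_nonneg
        have ha0 : ε * q < x 0 + ε := by
          by_contra hcon
          push Not at hcon
          have := (haP_small hk0 hΛ hn hc hε hq1 (by nlinarith [hxd.2.2.1]) a3 hcon hs).2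
          linarith
        have hbx : s7b C.μ h t = x 0 := (hst0 t).symm
        have hlen : k * (x 0 + ε) ≤ l ^ 2 := by
          refine le_trans ?_ (ht h2)
          rw [hbx, hk]
          have e1 : κ * (x 0 - ε) - κ * (1 - δ) * (x 0 + ε) = κ * (δ * (x 0 + ε) - 2 * ε) := by ring
          have e2 : 2 * ε ≤ δ * (x 0 + ε) := by
            have e3 : δ * (ε * q) ≤ δ * (x 0 + ε) := mul_le_mul_of_nonneg_left ha0.le hδ.le
            have e4 : δ * (ε * q) = δ * ε + 2 * ε := by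
              rw [hq]
              field_simp
            have e5 : 0 ≤ δ * ε := by positivity
            linarith
          have e6 : 0 ≤ κ * (δ * (x 0 + ε) - 2 * ε) := mul_nonneg hκ.le (by linarith)
          linarith
        have hΦA : Φ ^ 2 = A * (k * (x 0 + ε)) := by
          rw [hΦ, hAd]
          unfold haA
          field_simp
        have hΦl : Φ ≤ √A * l := by
          have f1 : Φ ^ 2 ≤ (√A * l) ^ 2 := by
            rw [mul_pow, Real.sq_sqrt d2.le, hΦA]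
            exact mul_le_mul_of_nonneg_left hlen d2.le
          exact (pow_le_pow_iff_left₀ hΦ0.le (by positivity) two_ne_zero).1 f1
        refine ⟨fun _ => 2 * (-t) * √A, ?_, 1, one_pos, ?_⟩
        · rw [haD_one]
          simp only [Finset.univ_unique, Finset.sum_const, Finset.card_singleton, one_smul]
          have f2 : 0 ≤ -(2 * t) := by linarith
          calc -(2 * t) * (Φ - c0) ≤ -(2 * t) * (√A * l) :=
                mul_le_mul_of_nonneg_left (by linarith) f2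
            _ = 2 * (-t) * √A * l := by ring
        · filter_upwards [hh0, ν0] with o ⟨b1, b2, b3⟩ b4 c3 c4
          rw [haD_two]
          simp only [Finset.univ_unique, Finset.sum_const, Finset.card_singleton, one_smul]
          change -t ^ 2 * (A * 1 + haM k Λ n c ε x * ν o) + 2 * (-t) * √A * gn C g o ≤
            -Λ * (ν o * g (C.pt o) ^ 2) + gn C g o ^ 2 + L * (h o - t)
          have d3 : t ^ 2 * (Λ * ν o) ≤ t ^ 2 * (haM k Λ n c ε x * ν o) := by gcongr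
          have f1 : h o ^ 2 ≤ t ^ 2 := by nlinarith
          have f2 : Λ * ν o * h o ^ 2 ≤ Λ * ν o * t ^ 2 := mul_le_mul_of_nonneg_left f1 (by positivity)
          have f3 : 0 ≤ L * (h o - t) := mul_nonneg hL0 (by linarith)
          have f4 : 2 * (-t) * √A * gn C g o ≤ t ^ 2 * A + gn C g o ^ 2 := by
            have f5 := sq_nonneg (-t * √A - gn C g o)
            have f6 : √A ^ 2 = A := Real.sq_sqrt d2.le
            nlinarith
          rw [← b3]
          nlinarith)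
  -- the end values
  have hS0 : haS k Λ n c ε c0 0 (fun i => s7F C.μ h (γs i) 0) = 0 := by
    simp [haS]
  have hempty : ∀ i, s7F C.μ h (γs i) (-(R + 1)) = 0 := by
    intro i
    unfold s7F
    refine setIntegral_measure_zero _ (measure_mono_null ?_ (ae_iff.1 hh0))
    intro o h1 h2
    have h3 : h o < -(R + 1) := h1
    linarith [h2.2.1]
  have hS1 : haS k Λ n c ε c0 (-(R + 1)) (fun i => s7F C.μ h (γs i) (-(R + 1))) ≤ (R + 1) ^ 2 * c0 := by
    unfold haS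
    have hd := hdom (-(R + 1))
    obtain ⟨a1, a2, a3, a4⟩ := hdp _ hd
    have a5 : 0 < haP k Λ n c ((fun i => s7F C.μ h (γs i) (-(R + 1))) 0 + ε)
      ((fun i => s7F C.μ h (γs i) (-(R + 1))) 1 + n * ε) := hψ.trans_le a4
    have a6 : 0 ≤ k / haP k Λ n c ((fun i => s7F C.μ h (γs i) (-(R + 1))) 0 + ε)
      ((fun i => s7F C.μ h (γs i) (-(R + 1))) 1 + n * ε) := by positivity
    nlinarith [sq_nonneg (R + 1)]
  have hset : {o | -(R + 1) ≤ h o ∧ h o < 0} =ᵐ[C.μ] {o | h o < 0} := by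
    filter_upwards [hh0] with o ho'
    exact propext ⟨fun h1 => h1.2, fun h1 => ⟨ho'.2.1.le, h1⟩⟩
  rw [setIntegral_congr_set hset, hS0] at key
  have hfull : ∫ o in {o | h o < 0}, (-Λ * (ν o * g (C.pt o) ^ 2) + gn C g o ^ 2) ∂C.μ ≤
      ∫ o, (-Λ * (ν o * g (C.pt o) ^ 2) + gn C g o ^ 2) ∂C.μ := by
    have hms : MeasurableSet {o | h o < 0} := measurableSet_lt mh measurable_const
    rw [← integral_add_compl hms hQ]
    have : 0 ≤ ∫ o in {o | h o < 0}ᶜ, (-Λ * (ν o * g (C.pt o) ^ 2) + gn C g o ^ 2) ∂C.μ := by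
      refine setIntegral_nonneg_ae hms.compl ?_
      filter_upwards [hh0] with o ho' h1
      have h2 : ¬ h o < 0 := h1
      have h3 : h o = 0 := le_antisymm ho'.1 (not_lt.1 h2)
      rw [← ho'.2.2, h3]
      simpa using sq_nonneg (gn C g o)
    linarith
  rw [integral_add (hνg.const_mul _) (int_gn_sq C hg), integral_const_mul] at hfull
  linarith

/-- `IsopO` with a larger error -/
theorem IsopO.mono {C : Calc M γ} {κ ε ε' : ℝ} (hκ : 0 ≤ κ) (h : IsopO C κ ε) (he : ε ≤ ε') :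
    IsopO C κ ε' := by
  intro g hg ho
  filter_upwards [h g hg ho] with t ht h0
  refine ⟨(ht h0).1, le_trans ?_ (ht h0).2⟩
  exact mul_le_mul_of_nonneg_left (by linarith) hκ

end core

/-- the parameters of the explicit form -/
theorem hardy_par {κ V X n Λ c R η : ℝ} (hκ : 0 < κ) (hX0 : 0 < X) (hn : 0 < n) (hΛ : 0 < Λ)
    (hc : 0 ≤ c) (hV0 : 0 < V) (hη : 0 < η) (hU : Λ * X / κ < 1)
    (hcU : 1 / 4 + c * (Λ * X / κ) + c ^ 2 * (Λ * X / κ) ^ 2 < 3 * c) (hψ : 0 < haP κ Λ n c V X) :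
    ∃ δ ε : ℝ, 0 < δ ∧ δ < 1 ∧ 0 < ε ∧ Λ * (X + n * ε) / (κ * (1 - δ)) ≤ 1 ∧
      1 / 4 + c * (Λ * (X + n * ε) / (κ * (1 - δ))) +
        c ^ 2 * (Λ * (X + n * ε) / (κ * (1 - δ))) ^ 2 ≤ 3 * c ∧
      0 < haP (κ * (1 - δ)) Λ n c (V + ε) (X + n * ε) ∧
      Λ * n * (ε * (1 + 2 / δ)) / (κ * (1 - δ)) *
        (1 + 2 * c * (Λ * n * (ε * (1 + 2 / δ)) / (κ * (1 - δ))) + 2 * Real.log (1 + 2 / δ)) ≤ 1 ∧
      (R + 1) ^ 2 * (2 * Λ * n * (ε * (1 + 2 / δ))) ≤ η := by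
  have c1 : ContinuousAt (fun s : ℝ => Λ * (X + n * s ^ 3)) 0 := by fun_prop
  have c2 : ContinuousAt (fun s : ℝ => κ * (1 - s)) 0 := by fun_prop
  have c3 : ContinuousAt (fun s : ℝ => (V + s ^ 3) * n) 0 := by fun_prop
  have c4 : ContinuousAt (fun s : ℝ => X + n * s ^ 3) 0 := by fun_prop
  have cU : ContinuousAt (fun s : ℝ => Λ * (X + n * s ^ 3) / (κ * (1 - s))) 0 := by
    refine ContinuousAt.div c1 c2 ?_
    simpa using hκ.ne'
  have cU2 : ContinuousAt (fun s : ℝ => κ * (1 - s) / (Λ * (X + n * s ^ 3))) 0 := by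
    refine ContinuousAt.div c2 c1 ?_
    simpa using ⟨hΛ.ne', hX0.ne'⟩
  have cL1 : ContinuousAt (fun s : ℝ => Real.log ((V + s ^ 3) * n)) 0 := by
    refine ContinuousAt.log c3 ?_
    simpa using ⟨hV0.ne', hn.ne'⟩
  have cL2 : ContinuousAt (fun s : ℝ => Real.log (X + n * s ^ 3)) 0 := by
    refine ContinuousAt.log c4 ?_
    simpa using hX0.ne'
  have cP : ContinuousAt (fun s : ℝ => haP (κ * (1 - s)) Λ n c (V + s ^ 3) (X + n * s ^ 3)) 0 := by
    unfold haP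
    exact ((cU2.sub continuousAt_const).sub (continuousAt_const.mul cU)).sub (cL1.sub cL2)
  set A := 6 * Λ * n / κ with hA
  have hA0 : 0 < A := by positivity
  have cA : ContinuousAt (fun s : ℝ => A * (s ^ 2 + 2 * c * A * s ^ 4 + 4 * s)) 0 := by fun_prop
  have cE : ContinuousAt (fun s : ℝ => (R + 1) ^ 2 * (2 * Λ * n * (3 * s ^ 2))) 0 := by fun_prop
  have e1 : ∀ᶠ s : ℝ in 𝓝 0, Λ * (X + n * s ^ 3) / (κ * (1 - s)) < 1 :=
    cU.eventually (gt_mem_nhds (by simpa using hU))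
  have e2 : ∀ᶠ s : ℝ in 𝓝 0, 1 / 4 + c * (Λ * (X + n * s ^ 3) / (κ * (1 - s))) +
      c ^ 2 * (Λ * (X + n * s ^ 3) / (κ * (1 - s))) ^ 2 < 3 * c :=
    ((continuousAt_const.add (continuousAt_const.mul cU)).add
      (continuousAt_const.mul (cU.pow 2))).eventually (gt_mem_nhds (by simpa using hcU))
  have e3 : ∀ᶠ s : ℝ in 𝓝 0, 0 < haP (κ * (1 - s)) Λ n c (V + s ^ 3) (X + n * s ^ 3) :=
    cP.eventually (lt_mem_nhds (by simpa using hψ))
  have e4 : ∀ᶠ s : ℝ in 𝓝 0, A * (s ^ 2 + 2 * c * A * s ^ 4 + 4 * s) < 1 :=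
    cA.eventually (gt_mem_nhds (by simp))
  have e5 : ∀ᶠ s : ℝ in 𝓝 0, (R + 1) ^ 2 * (2 * Λ * n * (3 * s ^ 2)) < η :=
    cE.eventually (gt_mem_nhds (by simpa using hη))
  have e6 : ∀ᶠ s : ℝ in 𝓝 0, s < 1 / 2 := gt_mem_nhds (by norm_num)
  obtain ⟨s, hs, h1, h2, h3, h4, h5, h6⟩ : ∃ s : ℝ, 0 < s ∧
      Λ * (X + n * s ^ 3) / (κ * (1 - s)) < 1 ∧
      1 / 4 + c * (Λ * (X + n * s ^ 3) / (κ * (1 - s))) +
      c ^ 2 * (Λ * (X + n * s ^ 3) / (κ * (1 - s))) ^ 2 < 3 * c ∧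
      0 < haP (κ * (1 - s)) Λ n c (V + s ^ 3) (X + n * s ^ 3) ∧
      A * (s ^ 2 + 2 * c * A * s ^ 4 + 4 * s) < 1 ∧
      (R + 1) ^ 2 * (2 * Λ * n * (3 * s ^ 2)) < η ∧ s < 1 / 2 := by
    have hall := (((((e1.and e2).and e3).and e4).and e5).and e6).filter_mono
      (nhdsWithin_le_nhds (s := Ioi (0 : ℝ)))
    obtain ⟨s, hs1, hs2⟩ := (hall.and (self_mem_nhdsWithin)).exists
    exact ⟨s, hs2, hs1.1.1.1.1.1, hs1.1.1.1.1.2, hs1.1.1.1.2, hs1.1.1.2, hs1.1.2, hs1.2⟩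
  have hq : s ^ 3 * (1 + 2 / s) ≤ 3 * s ^ 2 := by
    have : s ^ 3 * (1 + 2 / s) = s ^ 3 + 2 * s ^ 2 := by
      field_simp
    rw [this]
    nlinarith [sq_nonneg s]
  have hq0 : 0 ≤ s ^ 3 * (1 + 2 / s) := by positivity
  refine ⟨s, s ^ 3, hs, by linarith, by positivity, h1.le, h2.le, h3, ?_, ?_⟩
  · have hu : Λ * n * (s ^ 3 * (1 + 2 / s)) / (κ * (1 - s)) ≤ A * s ^ 2 := by
      rw [div_le_iff₀ (by nlinarith)]
      have g1 : Λ * n * (s ^ 3 * (1 + 2 / s)) ≤ Λ * n * (3 * s ^ 2) :=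
        mul_le_mul_of_nonneg_left hq (by positivity)
      have g2 : A * s ^ 2 * (κ * (1 - s)) = 6 * Λ * n * s ^ 2 * (1 - s) := by
        rw [hA]
        field_simp
      rw [g2]
      have g3 : 0 ≤ Λ * n * s ^ 2 * (3 - 6 * s) := by
        refine mul_nonneg (by positivity) (by linarith)
      nlinarith
    have hu0 : 0 ≤ Λ * n * (s ^ 3 * (1 + 2 / s)) / (κ * (1 - s)) := by
      refine div_nonneg (by positivity) (mul_nonneg hκ.le (by linarith))
    have hlog : Real.log (1 + 2 / s) ≤ 2 / s := by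
      have := Real.log_le_sub_one_of_pos (show 0 < 1 + 2 / s by positivity)
      linarith
    have hlog0 : 0 ≤ Real.log (1 + 2 / s) := Real.log_nonneg (by
      have : 0 < 2 / s := by positivity
      linarith)
    set u := Λ * n * (s ^ 3 * (1 + 2 / s)) / (κ * (1 - s))
    calc u * (1 + 2 * c * u + 2 * Real.log (1 + 2 / s))
        ≤ A * s ^ 2 * (1 + 2 * c * (A * s ^ 2) + 2 * (2 / s)) := by gcongr
      _ = A * (s ^ 2 + 2 * c * A * s ^ 4 + 4 * s) := by
        field_simp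
        ring
      _ ≤ 1 := h4.le
  · refine le_trans ?_ h5.le
    gcongr

/-- **Hardy inequality for odd functions**: `Λ ∫ ν g² ≤ ∫ |dg|² + η` on all near minimisers, if
`0 ≤ ν ≤ n`, `∫ ν ≤ X` and `1/u > 1/2 + c u + log (V n / X)`, `u = Λ X / κ` -/
theorem hardy_odd {κ V X n Λ c R η : ℝ} (hκ : 0 < κ) (hX0 : 0 < X) (hn : 0 < n) (hΛ : 0 < Λ)
    (hc : 0 ≤ c) (hV0 : 0 < V) (hη : 0 < η) (hU : Λ * X / κ < 1)
    (hcU : 1 / 4 + c * (Λ * X / κ) + c ^ 2 * (Λ * X / κ) ^ 2 < 3 * c) (hψ : 0 < haP κ Λ n c V X) :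
    ∃ ε0 : ℝ, 0 < ε0 ∧ ∀ {M : Type} [MetricSpace M] {γ : ℝ → M} (C : Calc M γ) {ε : ℝ}, ε ≤ ε0 →
      IsopO C κ ε → C.vol ≤ V → ∀ {g : M → ℝ}, Lip g → (∀ t, g (γ (t + Real.pi)) = -g (γ t)) →
      (∀ x, |g x| ≤ R) → ∀ {ν : Om → ℝ}, Integrable ν C.μ → (∀ᵐ o ∂C.μ, 0 ≤ ν o) →
      (∀ᵐ o ∂C.μ, ν o ≤ n) → ∫ o, ν o ∂C.μ ≤ X →
      Λ * ∫ o, ν o * g (C.pt o) ^ 2 ∂C.μ ≤ ∫ o, gn C g o ^ 2 ∂C.μ + η := by
  obtain ⟨δ, ε0, h1, h2, h3, h4, h5, h6, h7, h8⟩ :=
    hardy_par (R := R) hκ hX0 hn hΛ hc hV0 hη hU hcU hψ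
  refine ⟨ε0, h3, fun {M} _ {γ} C {ε} he hI hV {g} hg ho hR {ν} hν ν0 νn hX => ?_⟩
  have := hardy_core C hκ h3 (IsopO.mono hκ.le hI he) hg ho hR hV hν ν0 νn hX hn hΛ h1 h2 hc h4 h5 h6 h7
  linarith

/-- **Hardy inequality with a point condition**: if moreover `|g| ≥ h` on a set of area at least `s`,
the left side gains `Λ m h²`; `X`, `n` are the bounds for `ν + (m / s) 1_{|g| ≥ h}` -/
theorem hardy_odd_pt {κ V X n Λ c R η m s : ℝ} (hκ : 0 < κ) (hX0 : 0 < X) (hn : 0 < n) (hΛ : 0 < Λ)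
    (hc : 0 ≤ c) (hV0 : 0 < V) (hη : 0 < η) (hU : Λ * X / κ < 1)
    (hcU : 1 / 4 + c * (Λ * X / κ) + c ^ 2 * (Λ * X / κ) ^ 2 < 3 * c) (hψ : 0 < haP κ Λ n c V X)
    (hm : 0 ≤ m) (hs : 0 < s) :
    ∃ ε0 : ℝ, 0 < ε0 ∧ ∀ {M : Type} [MetricSpace M] {γ : ℝ → M} (C : Calc M γ) {ε : ℝ}, ε ≤ ε0 →
      IsopO C κ ε → C.vol ≤ V → ∀ {g : M → ℝ}, Lip g → (∀ t, g (γ (t + Real.pi)) = -g (γ t)) →
      (∀ x, |g x| ≤ R) → ∀ {ν : Om → ℝ}, Integrable ν C.μ → (∀ᵐ o ∂C.μ, 0 ≤ ν o) →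
      (∀ᵐ o ∂C.μ, ν o ≤ n - m / s) → ∫ o, ν o ∂C.μ ≤ X - m →
      ∀ {h : ℝ}, 0 ≤ h → s ≤ (C.μ {o | h ≤ |g (C.pt o)|}).toReal →
      Λ * (∫ o, ν o * g (C.pt o) ^ 2 ∂C.μ + m * h ^ 2) ≤ ∫ o, gn C g o ^ 2 ∂C.μ + η := by
  obtain ⟨ε0, he0, hmain⟩ := hardy_odd (R := R) hκ hX0 hn hΛ hc hV0 hη hU hcU hψ
  refine ⟨ε0, he0, fun {M} _ {γ} C {ε} he hI hV {g} hg ho hR {ν} hν ν0 νn hX {h} hh hμ => ?_⟩
  have := C.fin
  set E : Set Om := {o | h ≤ |g (C.pt o)|} with hE
  have hEm : NullMeasurableSet E C.μ := by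
    have h1 : AEMeasurable (fun o => |g (C.pt o)|) C.μ := C.mpt _ (lip_abs hg)
    exact nullMeasurableSet_le aemeasurable_const h1
  set b := (C.μ E).toReal with hb
  have hb0 : 0 < b := hs.trans_le hμ
  set ν1 : Om → ℝ := E.indicator fun _ => m / b with hν1
  have i1 : Integrable ν1 C.μ := (integrable_const _).indicator₀ hEm
  have hν10 : ∀ o, 0 ≤ ν1 o := fun o => indicator_nonneg (fun _ _ => by positivity) o
  have hν1n : ∀ o, ν1 o ≤ m / s := by
    intro o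
    rw [hν1]
    by_cases ho' : o ∈ E
    · rw [indicator_of_mem ho']
      exact div_le_div_of_nonneg_left hm hs hμ
    · rw [indicator_of_notMem ho']
      positivity
  have hI1 : ∫ o, ν1 o ∂C.μ = m := by
    rw [hν1, integral_indicator₀ hEm, setIntegral_const, smul_eq_mul]
    change b * (m / b) = m
    field_simp
  have hνs : Integrable (fun o => ν o + ν1 o) C.μ := hν.add i1
  have key := hmain C he hI hV hg ho hR hνs (by
      filter_upwards [ν0] with o h1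
      exact add_nonneg h1 (hν10 o)) (by
      filter_upwards [νn] with o h1
      have := hν1n o
      linarith) (by
      rw [integral_add hν i1, hI1]
      linarith)
  have hg2 : AEMeasurable (fun o => g (C.pt o) ^ 2) C.μ := (C.mpt _ hg).pow_const 2
  have hbd : ∀ o, ‖g (C.pt o) ^ 2‖ ≤ R ^ 2 := by
    intro o
    rw [Real.norm_eq_abs, abs_of_nonneg (sq_nonneg _), ← sq_abs (g _)]
    exact pow_le_pow_left₀ (abs_nonneg _) (hR _) 2
  have j1 : Integrable (fun o => ν o * g (C.pt o) ^ 2) C.μ :=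
    hν.mul_bdd (c := R ^ 2) hg2.aestronglyMeasurable (Eventually.of_forall hbd)
  have j2 : Integrable (fun o => ν1 o * g (C.pt o) ^ 2) C.μ :=
    i1.mul_bdd (c := R ^ 2) hg2.aestronglyMeasurable (Eventually.of_forall hbd)
  have k1 : ∫ o, (ν o + ν1 o) * g (C.pt o) ^ 2 ∂C.μ =
      ∫ o, ν o * g (C.pt o) ^ 2 ∂C.μ + ∫ o, ν1 o * g (C.pt o) ^ 2 ∂C.μ := by
    rw [← integral_add j1 j2]
    refine integral_congr_ae (Eventually.of_forall fun o => ?_)
    change (ν o + ν1 o) * g (C.pt o) ^ 2 = ν o * g (C.pt o) ^ 2 + ν1 o * g (C.pt o) ^ 2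
    ring
  have k2 : m * h ^ 2 ≤ ∫ o, ν1 o * g (C.pt o) ^ 2 ∂C.μ := by
    rw [← hI1, ← integral_mul_const]
    refine integral_mono (i1.mul_const _) j2 fun o => ?_
    change ν1 o * h ^ 2 ≤ ν1 o * g (C.pt o) ^ 2
    by_cases ho' : o ∈ E
    · refine mul_le_mul_of_nonneg_left ?_ (hν10 o)
      rw [← sq_abs (g _)]
      exact pow_le_pow_left₀ hh ho' 2
    · rw [hν1, indicator_of_notMem ho']
      simp
  rw [k1] at key
  have k3 : Λ * (m * h ^ 2) ≤ Λ * ∫ o, ν1 o * g (C.pt o) ^ 2 ∂C.μ :=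
    mul_le_mul_of_nonneg_left k2 hΛ.le
  linarith

end Pool.Agent.FPX
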