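import Pool.Agent.FPX.HAK

/-
HAS (helper81): hat averages of a state of `St s`: the checks of the data `CD` in the hat form, increments, variance.
-/

set_option autoImplicit false
set_option linter.unusedSectionVars false

open MeasureTheory Set Filter Topology
open scoped ComplexConjugate NNReal

noncomputable section

namespace Pool.Agent.FPX.HAA

open Pool.Agent.FPX.NOD Pool.Agent.FPX.CAV
open Pool.Agent.FPX.ALX (St)

/-! ### extension by antiperiodicity -/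

/-- data on the indices `-N ≤ k < 2 N`: `f` inside, `g` outside -/
def ex {α : Type} (N : ℕ) (f g : ℕ → α) (k : ℤ) : α :=
  if k < 0 then g (k + N).toNat else if k < N then f k.toNat else g (k - N).toNat

theorem ex_mid {α : Type} {N : ℕ} {f g : ℕ → α} {i : ℕ} (h : i < N) : ex N f g (i : ℤ) = f i := by
  unfold ex
  rw [if_neg (by omega), if_pos (by exact_mod_cast h), Int.toNat_natCast]

theorem ex_low {α : Type} {N : ℕ} {f g : ℕ → α} {i : ℕ} (h : i < N) : ex N f g ((i : ℤ) - N) = g i := by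
  unfold ex
  rw [if_pos (by omega), show (i : ℤ) - N + N = i by ring, Int.toNat_natCast]

theorem ex_high {α : Type} {N : ℕ} {f g : ℕ → α} {i : ℕ} : ex N f g ((i : ℤ) + N) = g i := by
  unfold ex
  rw [if_neg (by omega), if_neg (by omega), show (i : ℤ) + N - N = i by ring, Int.toNat_natCast]

/-- the three parts of the range of the indices -/
theorem ex_cases {N : ℕ} {k : ℤ} (h0 : -(N : ℤ) ≤ k) (h1 : k < 2 * N) :
    (∃ i : ℕ, i < N ∧ k = i) ∨ (∃ i : ℕ, i < N ∧ k = (i : ℤ) - N) ∨ ∃ i : ℕ, i < N ∧ k = (i : ℤ) + N := by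
  rcases lt_or_ge k 0 with h | h
  · right
    left
    exact ⟨(k + N).toNat, by omega, by omega⟩
  · rcases lt_or_ge k N with h2 | h2
    · left
      exact ⟨k.toNat, by omega, by omega⟩
    · right
      right
      exact ⟨(k - N).toNat, by omega, by omega⟩

variable (D : CD)

def uE : ℤ → Bool := ex D.N D.u D.w
def wE : ℤ → Bool := ex D.N D.w D.u
def HE : ℤ → ℚ := ex D.N D.H D.L
def HE' : ℤ → ℚ := ex D.N D.H' D.L'
def LE : ℤ → ℚ := ex D.N D.L D.H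
def LE' : ℤ → ℚ := ex D.N D.L' D.H'
def hbE : ℤ → ℚ := ex D.N D.hb D.lb
def lbE : ℤ → ℚ := ex D.N D.lb D.hb

/-- weight of the majorants of three neighbouring cells -/
def hs3q (A A' B C C' : ℚ) : ℚ := A / 6 + A' / 24 + 2 / 3 * B + (C / 6 - C' / 24)

theorem hs3_cast (A A' B C C' : ℚ) : ((hs3q A A' B C C' : ℚ) : ℝ) = hs3 A A' B C C' := by
  unfold hs3q hs3
  push_cast
  ring

/-- variance of the primitive -/
def vPq (a a' b b' : ℚ) : ℚ :=
  a ^ 2 / 4 - a * a' / 20 + a' ^ 2 / 240 + (a ^ 2 / 2 + 2 * a * (b / 6 - b' / 24) + (b ^ 2 / 12 - b * b' / 30 + b' ^ 2 / 240))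
    - (a / 3 - a' / 24 + a / 2 + (b / 6 - b' / 24)) ^ 2

theorem vP_cast (a a' b b' : ℚ) : ((vPq a a' b b' : ℚ) : ℝ) = vP a a' b b' := by
  unfold vPq vP
  push_cast
  ring

/-- the increment `k` is bounded from above by the majorants -/
def okH (k : ℤ) : Prop := uE D (k - 1) = true ∧ uE D k = true ∧ uE D (k + 1) = true ∧
  hs3q (HE D (k - 1)) (HE' D (k - 1)) (HE D k) (HE D (k + 1)) (HE' D (k + 1)) ≤ hbE D k

/-- the increment `k` is bounded from below by the majorants -/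
def okL (k : ℤ) : Prop := wE D (k - 1) = true ∧ wE D k = true ∧ wE D (k + 1) = true ∧
  hs3q (LE D (k - 1)) (LE' D (k - 1)) (LE D k) (LE D (k + 1)) (LE' D (k + 1)) ≤ lbE D k

/-- the check of the variance at the centre `i` -/
def okVh (i : ℕ) : Prop :=
  match D.ty i with
  | 0 => (uE D ((i : ℤ) - 1) = true ∧ uE D i = true ∧ wE D ((i : ℤ) - 1) = true ∧ wE D i = true) ∧
      ∃ M : ℚ, (HE D ((i : ℤ) - 1) + |HE' D ((i : ℤ) - 1)| / 2 ≤ M ∧ HE D i + |HE' D i| / 2 ≤ M) ∧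
        (LE D ((i : ℤ) - 1) + |LE' D ((i : ℤ) - 1)| / 2 ≤ M ∧ LE D i + |LE' D i| / 2 ≤ M) ∧ M ^ 2 / 6 ≤ D.vc i
  | 1 => okL D ((i : ℤ) - 2) ∧ okL D ((i : ℤ) - 1) ∧ okL D i ∧ okL D ((i : ℤ) + 1) ∧
      vPq (LE D ((i : ℤ) - 1)) (LE' D ((i : ℤ) - 1)) (LE D i) (LE' D i) ≤ D.vc i
  | _ => okH D ((i : ℤ) - 2) ∧ okH D ((i : ℤ) - 1) ∧ okH D i ∧ okH D ((i : ℤ) + 1) ∧
      vPq (HE D ((i : ℤ) - 1)) (HE' D ((i : ℤ) - 1)) (HE D i) (HE' D i) ≤ D.vc i

/-- the geometric checks of a class, hat form -/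
structure GeoH : Prop where
  N3 : 3 ≤ D.N
  s0 : 0 < D.s
  s1 : D.s ≤ 1
  hxm : 31 / 50 * D.s ≤ D.xm
  maj : ∀ i < D.N, D.u i = true → Maj D.s (ru D.N) i (D.H i) (D.H' i)
  mnj : ∀ i < D.N, D.w i = true → Mnj D.s (ru D.N) i (D.L i) (D.L' i)
  hup : ∀ i < D.N, okH D i ∨ 2 * D.xm ≤ D.hb i
  hlo : ∀ i < D.N, okL D i ∨ 2 * D.xm ≤ D.lb i
  var : ∀ i < D.N, okVh D i

/-- the increments of a sequence -/
def dzE (z : ℕ → ℝ) : ℤ → ℝ := ex D.N (fun i => z (i + 1) - z i) fun i => -(z (i + 1) - z i)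

/-- lower forms -/
def QE (z : ℕ → ℝ) (k : ℤ) : ℝ := dzE D z k + lbE D k

/-- upper forms -/
def PE (z : ℕ → ℝ) (k : ℤ) : ℝ := hbE D k - dzE D z k

/-- the bound of the variance at the centre `i` -/
def VBh (z : ℕ → ℝ) (i : ℕ) : ℝ :=
  match D.ty i with
  | 0 => (D.vc i : ℝ)
  | 1 => QE D z ((i : ℤ) - 1) * QE D z i + QE D z i * QE D z ((i : ℤ) - 2) + QE D z ((i : ℤ) - 1) * QE D z ((i : ℤ) + 1)
      + (D.vc i : ℝ)
  | _ => PE D z ((i : ℤ) - 1) * PE D z i + PE D z i * PE D z ((i : ℤ) - 2) + PE D z ((i : ℤ) - 1) * PE D z ((i : ℤ) + 1)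
      + (D.vc i : ℝ)

/-! ### the state -/

section state

variable {D : CD} {X : ℝ → ℝ}

theorem qf_pt (N i : ℕ) (v : ℝ) : qf X N (i + v) = X (pt (ru N) i v) := by
  unfold qf pt ru
  congr 1
  push_cast
  ring

theorem qf_anti {s : ℝ} (hX : St s X) {N : ℕ} (hN : 0 < N) (t : ℝ) : qf X N (t + N) = -qf X N t := by
  have h : (N : ℝ) ≠ 0 := by exact_mod_cast hN.ne'
  unfold qf
  rw [← hX.anti]
  congr 1
  field_simp
  ring

theorem qf_lip {s : ℝ} (hX : St s X) {N : ℕ} (hN : 0 < N) : ∃ K : ℝ≥0, LipschitzWith K (qf X N) := by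
  obtain ⟨K, hK⟩ := hX.lip
  have hN' : (0 : ℝ) < N := by exact_mod_cast hN
  have hp := Real.pi_pos
  refine ⟨K * ⟨Real.pi / N, by positivity⟩, hK.comp (LipschitzWith.of_dist_le_mul fun x y => ?_)⟩
  rw [Real.dist_eq, Real.dist_eq]
  have e : Real.pi * (-(1 / 2) + x / N) - Real.pi * (-(1 / 2) + y / N) = Real.pi / N * (x - y) := by ring
  rw [e, abs_mul, abs_of_pos (by positivity)]
  exact le_rfl

theorem ht_anti {q : ℝ → ℝ} {N : ℝ} (h : ∀ t, q (t + N) = -q t) (k : ℝ) : ht q (k + N) = -ht q k := by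
  rw [← ht_neg]
  unfold ht
  congr 1
  · refine intervalIntegral.integral_congr fun v _ => ?_
    simp only
    rw [← h, show k + N - 1 + v = k - 1 + v + N by ring]
  · refine intervalIntegral.integral_congr fun v _ => ?_
    simp only
    rw [← h, show k + N + v = k + v + N by ring]

variable (hG : GeoH D) (hX : St D.s X)

include hG in
theorem GeoH.N0 : 0 < D.N := lt_of_lt_of_le (by norm_num) hG.N3

include hG in
theorem GeoH.cs0 : (0 : ℝ) < D.s := by exact_mod_cast hG.s0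

include hG in
theorem GeoH.cs1 : (D.s : ℝ) ≤ 1 := by exact_mod_cast hG.s1

include hG in
theorem GeoH.bx (hb : ∀ a, |X a| ≤ 0.62 * (D.s : ℝ)) (a : ℝ) : |X a| ≤ (D.xm : ℝ) := by
  have h : ((31 / 50 * D.s : ℚ) : ℝ) ≤ D.xm := by exact_mod_cast hG.hxm
  refine (hb a).trans (le_trans (le_of_eq ?_) h)
  push_cast
  norm_num

include hG hX

theorem GeoH.up0 {i : ℕ} (hi : i < D.N) (h : D.u i = true) : Up (qf X D.N) i (D.H i) (D.H' i) := by
  intro x y a b c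
  have k := hup_of hX (GeoH.cs0 hG).le le_rfl (GeoH.cs0 hG) (GeoH.cs1 hG) (ru_inc (GeoH.N0 hG) i) (hG.maj i hi h) x y a b c
  rw [qf_pt, qf_pt]
  exact k

theorem GeoH.lo0 {i : ℕ} (hi : i < D.N) (h : D.w i = true) : Lo (qf X D.N) i (D.L i) (D.L' i) := by
  intro x y a b c
  have k := hlo_of hX (GeoH.cs0 hG).le le_rfl (GeoH.cs0 hG) (GeoH.cs1 hG) (ru_inc (GeoH.N0 hG) i) (hG.mnj i hi h) x y a b c
  rw [qf_pt, qf_pt]
  exact k

/-- upper bounds of the slopes, all indices -/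
theorem GeoH.up {k : ℤ} (h0 : -(D.N : ℤ) ≤ k) (h1 : k < 2 * D.N) (h : uE D k = true) :
    Up (qf X D.N) k (HE D k) (HE' D k) := by
  have ha := qf_anti hX (GeoH.N0 hG)
  rcases ex_cases h0 h1 with ⟨i, hi, rfl⟩ | ⟨i, hi, rfl⟩ | ⟨i, hi, rfl⟩
  · simp only [uE, HE, HE', ex_mid hi] at h ⊢
    exact_mod_cast GeoH.up0 hG hX hi h
  · simp only [uE, HE, HE', ex_low hi] at h ⊢
    intro x y a b c
    have k := GeoH.lo0 hG hX hi h x y a b c
    have e : ∀ x : ℝ, qf X D.N ((((i : ℤ) - D.N : ℤ) : ℝ) + x) = -qf X D.N (i + x) := fun x => by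
      rw [← neg_eq_iff_eq_neg, ← ha]
      congr 1
      push_cast
      ring
    rw [e, e]
    linarith
  · simp only [uE, HE, HE', ex_high] at h ⊢
    intro x y a b c
    have k := GeoH.lo0 hG hX hi h x y a b c
    have e : ∀ x : ℝ, qf X D.N ((((i : ℤ) + D.N : ℤ) : ℝ) + x) = -qf X D.N (i + x) := fun x => by
      rw [← ha]
      congr 1
      push_cast
      ring
    rw [e, e]
    linarith

/-- lower bounds of the slopes, all indices -/
theorem GeoH.lo {k : ℤ} (h0 : -(D.N : ℤ) ≤ k) (h1 : k < 2 * D.N) (h : wE D k = true) :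
    Lo (qf X D.N) k (LE D k) (LE' D k) := by
  have ha := qf_anti hX (GeoH.N0 hG)
  rcases ex_cases h0 h1 with ⟨i, hi, rfl⟩ | ⟨i, hi, rfl⟩ | ⟨i, hi, rfl⟩
  · simp only [wE, LE, LE', ex_mid hi] at h ⊢
    exact_mod_cast GeoH.lo0 hG hX hi h
  · simp only [wE, LE, LE', ex_low hi] at h ⊢
    intro x y a b c
    have k := GeoH.up0 hG hX hi h x y a b c
    have e : ∀ x : ℝ, qf X D.N ((((i : ℤ) - D.N : ℤ) : ℝ) + x) = -qf X D.N (i + x) := fun x => by
      rw [← neg_eq_iff_eq_neg, ← ha]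
      congr 1
      push_cast
      ring
    rw [e, e]
    linarith
  · simp only [wE, LE, LE', ex_high] at h ⊢
    intro x y a b c
    have k := GeoH.up0 hG hX hi h x y a b c
    have e : ∀ x : ℝ, qf X D.N ((((i : ℤ) + D.N : ℤ) : ℝ) + x) = -qf X D.N (i + x) := fun x => by
      rw [← ha]
      congr 1
      push_cast
      ring
    rw [e, e]
    linarith

omit hX in
/-- the slopes of the majorants are nonnegative -/
theorem GeoH.nnH {k : ℤ} (h0 : -(D.N : ℤ) ≤ k) (h1 : k < 2 * D.N) (h : uE D k = true) :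
    ∀ v : ℝ, 0 ≤ v → v ≤ 1 → 0 ≤ (HE D k : ℝ) + HE' D k * (v - 1 / 2) := by
  intro v a b
  rcases ex_cases h0 h1 with ⟨i, hi, rfl⟩ | ⟨i, hi, rfl⟩ | ⟨i, hi, rfl⟩
  · simp only [uE, HE, HE', ex_mid hi] at h ⊢
    exact (hG.maj i hi h v a b).1
  · simp only [uE, HE, HE', ex_low hi] at h ⊢
    exact (hG.mnj i hi h v a b).1
  · simp only [uE, HE, HE', ex_high] at h ⊢
    exact (hG.mnj i hi h v a b).1

omit hX in
theorem GeoH.nnL {k : ℤ} (h0 : -(D.N : ℤ) ≤ k) (h1 : k < 2 * D.N) (h : wE D k = true) :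
    ∀ v : ℝ, 0 ≤ v → v ≤ 1 → 0 ≤ (LE D k : ℝ) + LE' D k * (v - 1 / 2) := by
  intro v a b
  rcases ex_cases h0 h1 with ⟨i, hi, rfl⟩ | ⟨i, hi, rfl⟩ | ⟨i, hi, rfl⟩
  · simp only [wE, LE, LE', ex_mid hi] at h ⊢
    exact (hG.mnj i hi h v a b).1
  · simp only [wE, LE, LE', ex_low hi] at h ⊢
    exact (hG.maj i hi h v a b).1
  · simp only [wE, LE, LE', ex_high] at h ⊢
    exact (hG.maj i hi h v a b).1

omit hG hX in
theorem cq {s : ℝ} (hX : St s X) {N : ℕ} : Continuous (qf X N) := by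
  have h := hX.cont
  unfold qf
  fun_prop

/-- the increments from above -/
theorem GeoH.inc_hi {k : ℤ} (h0 : -(D.N : ℤ) + 1 ≤ k) (h1 : k + 1 < 2 * D.N) (h : okH D k) :
    ht (qf X D.N) (k + 1) - ht (qf X D.N) k ≤ hbE D k := by
  obtain ⟨a, b, c, d⟩ := h
  have u1 := GeoH.up hG hX (k := k - 1) (by omega) (by omega) a
  have u2 := GeoH.up hG hX (k := k) (by omega) (by omega) b
  have u3 := GeoH.up hG hX (k := k + 1) (by omega) (by omega) c
  have d' : ((hs3q (HE D (k - 1)) (HE' D (k - 1)) (HE D k) (HE D (k + 1)) (HE' D (k + 1)) : ℚ) : ℝ) ≤ hbE D k := by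
    exact_mod_cast d
  rw [hs3_cast] at d'
  push_cast at u1 u3
  exact (ht_inc (cq hX) u1 u2 u3).trans d'

/-- the increments from below -/
theorem GeoH.inc_low {k : ℤ} (h0 : -(D.N : ℤ) + 1 ≤ k) (h1 : k + 1 < 2 * D.N) (h : okL D k) :
    -(lbE D k : ℝ) ≤ ht (qf X D.N) (k + 1) - ht (qf X D.N) k := by
  obtain ⟨a, b, c, d⟩ := h
  have u1 := GeoH.lo hG hX (k := k - 1) (by omega) (by omega) a
  have u2 := GeoH.lo hG hX (k := k) (by omega) (by omega) b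
  have u3 := GeoH.lo hG hX (k := k + 1) (by omega) (by omega) c
  have d' : ((hs3q (LE D (k - 1)) (LE' D (k - 1)) (LE D k) (LE D (k + 1)) (LE' D (k + 1)) : ℚ) : ℝ) ≤ lbE D k := by
    exact_mod_cast d
  rw [hs3_cast] at d'
  push_cast at u1 u3
  exact (neg_le_neg d').trans (ht_dec (cq hX) u1 u2 u3)

omit hG in
/-- the increments of the extended sequence -/
theorem dzE_eq (hN : 0 < D.N) {k : ℤ} (h0 : -(D.N : ℤ) ≤ k) (h1 : k < 2 * D.N) :
    dzE D (fun i => ht (qf X D.N) i) k = ht (qf X D.N) (k + 1) - ht (qf X D.N) k := by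
  have ha := ht_anti (qf_anti hX hN)
  unfold dzE
  rcases ex_cases h0 h1 with ⟨i, hi, rfl⟩ | ⟨i, hi, rfl⟩ | ⟨i, hi, rfl⟩
  · rw [ex_mid hi]
    push_cast
    rfl
  · rw [ex_low hi]
    push_cast
    have e1 := ha ((i : ℝ) - D.N)
    have e2 := ha ((i : ℝ) - D.N + 1)
    rw [show (i : ℝ) - D.N + D.N = i by ring] at e1
    rw [show (i : ℝ) - D.N + 1 + D.N = i + 1 by ring] at e2
    rw [e1, e2]
    ring
  · rw [ex_high]
    push_cast
    have e1 := ha (i : ℝ)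
    have e2 := ha ((i : ℝ) + 1)
    rw [show (i : ℝ) + D.N + 1 = i + 1 + D.N by ring, e1, e2]
    ring

/-- variance from the lower majorants -/
theorem GeoH.var_L (hV : VarMono) {i : ℕ} (hi : i < D.N) (a0 : okL D ((i : ℤ) - 2)) (a1 : okL D ((i : ℤ) - 1))
    (a2 : okL D i) (a3 : okL D ((i : ℤ) + 1)) :
    ht (fun t => qf X D.N t ^ 2) i - ht (qf X D.N) i ^ 2
      ≤ (ht (qf X D.N) i - ht (qf X D.N) (i - 1) + lbE D ((i : ℤ) - 1)) * (ht (qf X D.N) (i + 1) - ht (qf X D.N) i + lbE D i)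
        + (ht (qf X D.N) (i + 1) - ht (qf X D.N) i + lbE D i)
          * (ht (qf X D.N) (i - 1) - ht (qf X D.N) (i - 2) + lbE D ((i : ℤ) - 2))
        + (ht (qf X D.N) i - ht (qf X D.N) (i - 1) + lbE D ((i : ℤ) - 1))
          * (ht (qf X D.N) (i + 2) - ht (qf X D.N) (i + 1) + lbE D ((i : ℤ) + 1))
        + ((vPq (LE D ((i : ℤ) - 1)) (LE' D ((i : ℤ) - 1)) (LE D i) (LE' D i) : ℚ) : ℝ) := by
  have hN3 := hG.N3
  obtain ⟨K, hK⟩ := qf_lip hX (GeoH.N0 hG)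
  have c0 : (i : ℤ) - 3 + (((0 : Fin 6) : ℕ) : ℤ) = i - 3 := by norm_num
  have c1 : (i : ℤ) - 3 + (((1 : Fin 6) : ℕ) : ℤ) = i - 2 := by norm_num; ring
  have c2 : (i : ℤ) - 3 + (((2 : Fin 6) : ℕ) : ℤ) = i - 1 := by norm_num; ring
  have c3 : (i : ℤ) - 3 + (((3 : Fin 6) : ℕ) : ℤ) = i := by norm_num
  have c4 : (i : ℤ) - 3 + (((4 : Fin 6) : ℕ) : ℤ) = i + 1 := by norm_num; ring
  have c5 : (i : ℤ) - 3 + (((5 : Fin 6) : ℕ) : ℤ) = i + 2 := by norm_num; ring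
  have d0 : (i : ℤ) - 2 + (((0 : Fin 4) : ℕ) : ℤ) = i - 2 := by norm_num
  have d1 : (i : ℤ) - 2 + (((1 : Fin 4) : ℕ) : ℤ) = i - 1 := by norm_num; ring
  have d2 : (i : ℤ) - 2 + (((2 : Fin 4) : ℕ) : ℤ) = i := by norm_num
  have d3 : (i : ℤ) - 2 + (((3 : Fin 4) : ℕ) : ℤ) = i + 1 := by norm_num; ring
  obtain ⟨p0, p1, p2, p3⟩ := a0
  obtain ⟨q0, q1, q2, q3⟩ := a1
  obtain ⟨r0, r1, r2, r3⟩ := a2
  obtain ⟨s0, s1, s2, s3⟩ := a3
  rw [show (i : ℤ) - 2 - 1 = i - 3 by ring] at p0 p3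
  rw [show (i : ℤ) - 2 + 1 = i - 1 by ring] at p2 p3
  rw [show (i : ℤ) - 1 - 1 = i - 2 by ring] at q0 q3
  rw [show (i : ℤ) - 1 + 1 = i by ring] at q2 q3
  rw [show (i : ℤ) + 1 - 1 = i by ring] at s0 s3
  rw [show (i : ℤ) + 1 + 1 = i + 2 by ring] at s2 s3
  have hw : ∀ j : Fin 6, wE D ((i : ℤ) - 3 + (j : ℕ)) = true := by
    intro j
    have e : j = 0 ∨ j = 1 ∨ j = 2 ∨ j = 3 ∨ j = 4 ∨ j = 5 := by
      fin_cases j <;> decide
    rcases e with rfl | rfl | rfl | rfl | rfl | rfl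
    · rw [c0]; exact p0
    · rw [c1]; exact p1
    · rw [c2]; exact p2
    · rw [c3]; exact r1
    · rw [c4]; exact s1
    · rw [c5]; exact s2
  have hL : ∀ j : Fin 6, ∀ v, 0 ≤ v → v ≤ 1 → 0 ≤ (fun j : Fin 6 => (LE D ((i : ℤ) - 3 + (j : ℕ)) : ℝ)) j
      + (fun j : Fin 6 => (LE' D ((i : ℤ) - 3 + (j : ℕ)) : ℝ)) j * (v - 1 / 2) := fun j v a b =>
    GeoH.nnL hG (by have := j.2; omega) (by have := j.2; omega) (hw j) v a b
  have hlo : ∀ j : Fin 6, Lo (qf X D.N) ((i : ℝ) - 3 + (j : ℕ)) ((fun j : Fin 6 => (LE D ((i : ℤ) - 3 + (j : ℕ)) : ℝ)) j)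
      ((fun j : Fin 6 => (LE' D ((i : ℤ) - 3 + (j : ℕ)) : ℝ)) j) := fun j => by
    have := GeoH.lo hG hX (k := (i : ℤ) - 3 + (j : ℕ)) (by have := j.2; omega) (by have := j.2; omega) (hw j)
    push_cast at this
    exact this
  have t0 : hs3 (LE D ((i : ℤ) - 3)) (LE' D ((i : ℤ) - 3)) (LE D ((i : ℤ) - 2)) (LE D ((i : ℤ) - 1)) (LE' D ((i : ℤ) - 1))
      ≤ lbE D ((i : ℤ) - 2) := by
    rw [← hs3_cast]
    exact_mod_cast p3
  have t1 : hs3 (LE D ((i : ℤ) - 2)) (LE' D ((i : ℤ) - 2)) (LE D ((i : ℤ) - 1)) (LE D i) (LE' D i)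
      ≤ lbE D ((i : ℤ) - 1) := by
    rw [← hs3_cast]
    exact_mod_cast q3
  have t2 : hs3 (LE D ((i : ℤ) - 1)) (LE' D ((i : ℤ) - 1)) (LE D i) (LE D ((i : ℤ) + 1)) (LE' D ((i : ℤ) + 1))
      ≤ lbE D i := by
    rw [← hs3_cast]
    exact_mod_cast r3
  have t3 : hs3 (LE D i) (LE' D i) (LE D ((i : ℤ) + 1)) (LE D ((i : ℤ) + 2)) (LE' D ((i : ℤ) + 2))
      ≤ lbE D ((i : ℤ) + 1) := by
    rw [← hs3_cast]
    exact_mod_cast s3
  have k := var_lo hV hK (c := (i : ℝ)) hL hlo (l := fun j : Fin 4 => (lbE D ((i : ℤ) - 2 + (j : ℕ)) : ℝ))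
    (by simp only [c0, c1, c2, d0]; exact t0) (by simp only [c1, c2, c3, d1]; exact t1)
    (by simp only [c2, c3, c4, d2]; exact t2) (by simp only [c3, c4, c5, d3]; exact t3)
  simp only [c2, c3, d0, d1, d2, d3] at k
  rw [vP_cast]
  exact k

/-- variance from the upper majorants -/
theorem GeoH.var_H (hV : VarMono) {i : ℕ} (hi : i < D.N) (a0 : okH D ((i : ℤ) - 2)) (a1 : okH D ((i : ℤ) - 1))
    (a2 : okH D i) (a3 : okH D ((i : ℤ) + 1)) :
    ht (fun t => qf X D.N t ^ 2) i - ht (qf X D.N) i ^ 2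
      ≤ (hbE D ((i : ℤ) - 1) - (ht (qf X D.N) i - ht (qf X D.N) (i - 1))) * (hbE D i - (ht (qf X D.N) (i + 1) - ht (qf X D.N) i))
        + (hbE D i - (ht (qf X D.N) (i + 1) - ht (qf X D.N) i))
          * (hbE D ((i : ℤ) - 2) - (ht (qf X D.N) (i - 1) - ht (qf X D.N) (i - 2)))
        + (hbE D ((i : ℤ) - 1) - (ht (qf X D.N) i - ht (qf X D.N) (i - 1)))
          * (hbE D ((i : ℤ) + 1) - (ht (qf X D.N) (i + 2) - ht (qf X D.N) (i + 1)))
        + ((vPq (HE D ((i : ℤ) - 1)) (HE' D ((i : ℤ) - 1)) (HE D i) (HE' D i) : ℚ) : ℝ) := by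
  have hN3 := hG.N3
  obtain ⟨K, hK⟩ := qf_lip hX (GeoH.N0 hG)
  have c0 : (i : ℤ) - 3 + (((0 : Fin 6) : ℕ) : ℤ) = i - 3 := by norm_num
  have c1 : (i : ℤ) - 3 + (((1 : Fin 6) : ℕ) : ℤ) = i - 2 := by norm_num; ring
  have c2 : (i : ℤ) - 3 + (((2 : Fin 6) : ℕ) : ℤ) = i - 1 := by norm_num; ring
  have c3 : (i : ℤ) - 3 + (((3 : Fin 6) : ℕ) : ℤ) = i := by norm_num
  have c4 : (i : ℤ) - 3 + (((4 : Fin 6) : ℕ) : ℤ) = i + 1 := by norm_num; ring
  have c5 : (i : ℤ) - 3 + (((5 : Fin 6) : ℕ) : ℤ) = i + 2 := by norm_num; ring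
  have d0 : (i : ℤ) - 2 + (((0 : Fin 4) : ℕ) : ℤ) = i - 2 := by norm_num
  have d1 : (i : ℤ) - 2 + (((1 : Fin 4) : ℕ) : ℤ) = i - 1 := by norm_num; ring
  have d2 : (i : ℤ) - 2 + (((2 : Fin 4) : ℕ) : ℤ) = i := by norm_num
  have d3 : (i : ℤ) - 2 + (((3 : Fin 4) : ℕ) : ℤ) = i + 1 := by norm_num; ring
  obtain ⟨p0, p1, p2, p3⟩ := a0
  obtain ⟨q0, q1, q2, q3⟩ := a1
  obtain ⟨r0, r1, r2, r3⟩ := a2
  obtain ⟨s0, s1, s2, s3⟩ := a3
  rw [show (i : ℤ) - 2 - 1 = i - 3 by ring] at p0 p3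
  rw [show (i : ℤ) - 2 + 1 = i - 1 by ring] at p2 p3
  rw [show (i : ℤ) - 1 - 1 = i - 2 by ring] at q0 q3
  rw [show (i : ℤ) - 1 + 1 = i by ring] at q2 q3
  rw [show (i : ℤ) + 1 - 1 = i by ring] at s0 s3
  rw [show (i : ℤ) + 1 + 1 = i + 2 by ring] at s2 s3
  have hw : ∀ j : Fin 6, uE D ((i : ℤ) - 3 + (j : ℕ)) = true := by
    intro j
    have e : j = 0 ∨ j = 1 ∨ j = 2 ∨ j = 3 ∨ j = 4 ∨ j = 5 := by
      fin_cases j <;> decide
    rcases e with rfl | rfl | rfl | rfl | rfl | rfl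
    · rw [c0]; exact p0
    · rw [c1]; exact p1
    · rw [c2]; exact p2
    · rw [c3]; exact r1
    · rw [c4]; exact s1
    · rw [c5]; exact s2
  have hL : ∀ j : Fin 6, ∀ v, 0 ≤ v → v ≤ 1 → 0 ≤ (fun j : Fin 6 => (HE D ((i : ℤ) - 3 + (j : ℕ)) : ℝ)) j
      + (fun j : Fin 6 => (HE' D ((i : ℤ) - 3 + (j : ℕ)) : ℝ)) j * (v - 1 / 2) := fun j v a b =>
    GeoH.nnH hG (by have := j.2; omega) (by have := j.2; omega) (hw j) v a b
  have hlo : ∀ j : Fin 6, Up (qf X D.N) ((i : ℝ) - 3 + (j : ℕ)) ((fun j : Fin 6 => (HE D ((i : ℤ) - 3 + (j : ℕ)) : ℝ)) j)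
      ((fun j : Fin 6 => (HE' D ((i : ℤ) - 3 + (j : ℕ)) : ℝ)) j) := fun j => by
    have := GeoH.up hG hX (k := (i : ℤ) - 3 + (j : ℕ)) (by have := j.2; omega) (by have := j.2; omega) (hw j)
    push_cast at this
    exact this
  have t0 : hs3 (HE D ((i : ℤ) - 3)) (HE' D ((i : ℤ) - 3)) (HE D ((i : ℤ) - 2)) (HE D ((i : ℤ) - 1)) (HE' D ((i : ℤ) - 1))
      ≤ hbE D ((i : ℤ) - 2) := by
    rw [← hs3_cast]
    exact_mod_cast p3
  have t1 : hs3 (HE D ((i : ℤ) - 2)) (HE' D ((i : ℤ) - 2)) (HE D ((i : ℤ) - 1)) (HE D i) (HE' D i)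
      ≤ hbE D ((i : ℤ) - 1) := by
    rw [← hs3_cast]
    exact_mod_cast q3
  have t2 : hs3 (HE D ((i : ℤ) - 1)) (HE' D ((i : ℤ) - 1)) (HE D i) (HE D ((i : ℤ) + 1)) (HE' D ((i : ℤ) + 1))
      ≤ hbE D i := by
    rw [← hs3_cast]
    exact_mod_cast r3
  have t3 : hs3 (HE D i) (HE' D i) (HE D ((i : ℤ) + 1)) (HE D ((i : ℤ) + 2)) (HE' D ((i : ℤ) + 2))
      ≤ hbE D ((i : ℤ) + 1) := by
    rw [← hs3_cast]
    exact_mod_cast s3
  have k := var_up hV hK (c := (i : ℝ)) hL hlo (l := fun j : Fin 4 => (hbE D ((i : ℤ) - 2 + (j : ℕ)) : ℝ))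
    (by simp only [c0, c1, c2, d0]; exact t0) (by simp only [c1, c2, c3, d1]; exact t1)
    (by simp only [c2, c3, c4, d2]; exact t2) (by simp only [c3, c4, c5, d3]; exact t3)
  simp only [c2, c3, d0, d1, d2, d3] at k
  rw [vP_cast]
  exact k

/-- **the variance at a centre** -/
theorem GeoH.var_le (hV : VarMono) {i : ℕ} (hi : i < D.N) :
    ht (fun t => qf X D.N t ^ 2) i - ht (qf X D.N) i ^ 2 ≤ VBh D (fun i => ht (qf X D.N) i) i := by
  have hN := GeoH.N0 hG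
  have hN3 := hG.N3
  have hdz : ∀ k : ℤ, -(D.N : ℤ) ≤ k → k < 2 * D.N → dzE D (fun i => ht (qf X D.N) i) k
      = ht (qf X D.N) (k + 1) - ht (qf X D.N) k := fun k h0 h1 => dzE_eq hX hN h0 h1
  have z0 := hdz ((i : ℤ) - 2) (by omega) (by omega)
  have z1 := hdz ((i : ℤ) - 1) (by omega) (by omega)
  have z2 := hdz (i : ℤ) (by omega) (by omega)
  have z3 := hdz ((i : ℤ) + 1) (by omega) (by omega)
  push_cast at z0 z1 z2 z3
  rw [show (i : ℝ) - 2 + 1 = i - 1 by ring] at z0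
  rw [show (i : ℝ) - 1 + 1 = i by ring] at z1
  rw [show (i : ℝ) + 1 + 1 = i + 2 by ring] at z3
  have h := hG.var i hi
  unfold okVh at h
  unfold VBh
  split at h
  · obtain ⟨⟨a1, a2, a3, a4⟩, M, ⟨b1, b2⟩, ⟨b3, b4⟩, b5⟩ := h
    have u1 := GeoH.up hG hX (k := (i : ℤ) - 1) (by omega) (by omega) a1
    have u2 := GeoH.up hG hX (k := (i : ℤ)) (by omega) (by omega) a2
    have u3 := GeoH.lo hG hX (k := (i : ℤ) - 1) (by omega) (by omega) a3
    have u4 := GeoH.lo hG hX (k := (i : ℤ)) (by omega) (by omega) a4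
    push_cast at u1 u2 u3 u4
    have b1' : (HE D ((i : ℤ) - 1) : ℝ) + |(HE' D ((i : ℤ) - 1) : ℝ)| / 2 ≤ M := by exact_mod_cast b1
    have b2' : (HE D i : ℝ) + |(HE' D i : ℝ)| / 2 ≤ M := by exact_mod_cast b2
    have b3' : (LE D ((i : ℤ) - 1) : ℝ) + |(LE' D ((i : ℤ) - 1) : ℝ)| / 2 ≤ M := by exact_mod_cast b3
    have b4' : (LE D i : ℝ) + |(LE' D i : ℝ)| / 2 ≤ M := by exact_mod_cast b4
    have b5' : (M : ℝ) ^ 2 / 6 ≤ D.vc i := by exact_mod_cast b5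
    have key : ∀ A A' : ℝ, A + |A'| / 2 ≤ M → ∀ x y : ℝ, 0 ≤ x → x ≤ y → y ≤ 1 →
        PH A A' y - PH A A' x ≤ M * (y - x) := by
      intro A A' hA x y a b c
      rw [PH_sub, mul_comm (M : ℝ)]
      refine mul_le_mul_of_nonneg_left ?_ (by linarith)
      have e1 : A' * ((x + y) / 2 - 1 / 2) ≤ |A'| / 2 := by
        have e2 : |(x + y) / 2 - 1 / 2| ≤ 1 / 2 := by
          rw [abs_le]
          constructor <;> linarith
        calc A' * ((x + y) / 2 - 1 / 2) ≤ |A' * ((x + y) / 2 - 1 / 2)| := le_abs_self _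
          _ = |A'| * |(x + y) / 2 - 1 / 2| := abs_mul _ _
          _ ≤ |A'| * (1 / 2) := mul_le_mul_of_nonneg_left e2 (abs_nonneg _)
          _ = |A'| / 2 := by ring
      linarith
    -- the two cells joined
    have m1 : MonotoneOn (fun t => (M : ℝ) * t - qf X D.N t) (Icc ((i : ℝ) - 1) ((i : ℝ) + 1)) := by
      refine mono_glue (b := (i : ℝ)) (by linarith) (by linarith) (fun x hx y hy hxy => ?_) fun x hx y hy hxy => ?_
      · have k1 := u1 (x - (i - 1)) (y - (i - 1)) (by linarith [hx.1]) (by linarith) (by linarith [hy.2])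
        have k2 := key _ _ b1' (x - (i - 1)) (y - (i - 1)) (by linarith [hx.1]) (by linarith) (by linarith [hy.2])
        rw [show (i : ℝ) - 1 + (x - (i - 1)) = x by ring, show (i : ℝ) - 1 + (y - (i - 1)) = y by ring] at k1
        linarith
      · have k1 := u2 (x - i) (y - i) (by linarith [hx.1]) (by linarith) (by linarith [hy.2])
        have k2 := key _ _ b2' (x - i) (y - i) (by linarith [hx.1]) (by linarith) (by linarith [hy.2])
        rw [show (i : ℝ) + (x - i) = x by ring, show (i : ℝ) + (y - i) = y by ring] at k1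
        linarith
    have m2 : MonotoneOn (fun t => (M : ℝ) * t + qf X D.N t) (Icc ((i : ℝ) - 1) ((i : ℝ) + 1)) := by
      refine mono_glue (b := (i : ℝ)) (by linarith) (by linarith) (fun x hx y hy hxy => ?_) fun x hx y hy hxy => ?_
      · have k1 := u3 (x - (i - 1)) (y - (i - 1)) (by linarith [hx.1]) (by linarith) (by linarith [hy.2])
        have k2 := key _ _ b3' (x - (i - 1)) (y - (i - 1)) (by linarith [hx.1]) (by linarith) (by linarith [hy.2])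
        rw [show (i : ℝ) - 1 + (x - (i - 1)) = x by ring, show (i : ℝ) - 1 + (y - (i - 1)) = y by ring] at k1
        linarith
      · have k1 := u4 (x - i) (y - i) (by linarith [hx.1]) (by linarith) (by linarith [hy.2])
        have k2 := key _ _ b4' (x - i) (y - i) (by linarith [hx.1]) (by linarith) (by linarith [hy.2])
        rw [show (i : ℝ) + (x - i) = x by ring, show (i : ℝ) + (y - i) = y by ring] at k1
        linarith
    refine (var_lip (M := (M : ℝ)) (cq hX) (fun x hx y hy hxy => ?_) fun x hx y hy hxy => ?_).trans b5'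
    · have := m1 hx hy hxy
      simp only at this
      linarith
    · have := m2 hx hy hxy
      simp only at this
      linarith
  · obtain ⟨a0, a1, a2, a3, a4⟩ := h
    have k := GeoH.var_L hG hX hV hi a0 a1 a2 a3
    have a4' : ((vPq (LE D ((i : ℤ) - 1)) (LE' D ((i : ℤ) - 1)) (LE D i) (LE' D i) : ℚ) : ℝ) ≤ D.vc i := by
      exact_mod_cast a4
    unfold QE
    rw [z0, z1, z2, z3]
    linarith
  · obtain ⟨a0, a1, a2, a3, a4⟩ := h
    have k := GeoH.var_H hG hX hV hi a0 a1 a2 a3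
    have a4' : ((vPq (HE D ((i : ℤ) - 1)) (HE' D ((i : ℤ) - 1)) (HE D i) (HE' D i) : ℚ) : ℝ) ≤ D.vc i := by
      exact_mod_cast a4
    unfold PE
    rw [z0, z1, z2, z3]
    linarith

end state

end Pool.Agent.FPX.HAA
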