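import Mathlib
import Pool.Agent.FPX.HAR

/-
HAW (helper93): the Hardy inequality for odd functions and ARBITRARY weights,
`∫ ω g² ≤ ∫ |dg|² + η + R² η₁` for `0 ≤ ω ≤ W` off an exceptional set `A`, `∫_A ω ≤ η₁`, `∫ ω ≤ m`,
uniformly for the parameters `(m, W, c)` in a compact set.
-/

open MeasureTheory Set Filter Topology
open scoped ENNReal NNReal

noncomputable section

namespace Pool.Agent.FPX

open Pool.Agent.EWD Pool.Agent.FPM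

/-- the closing condition of the Hardy inequality with total mass `m`, bound `W`:
`1/u > 1/2 + c u + log (V W / m)`, `u = m / κ` -/
def hwOk (κ V m W c : ℝ) : Prop :=
  0 < m ∧ 0 < W ∧ 0 ≤ c ∧ m / κ < 1 ∧ 1 / 4 + c * (m / κ) + c ^ 2 * (m / κ) ^ 2 < 3 * c ∧
    0 < haP κ 1 W c V m

/-- the explicit parameters `δ = s`, `ε = s ^ 3` -/
theorem haw_par_s {κ V X n c R η s : ℝ} (hκ : 0 < κ) (hn : 0 < n) (hc : 0 ≤ c)
    (hs : 0 < s) (hs2 : s < 1 / 2)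
    (h1 : (X + n * s ^ 3) / (κ * (1 - s)) < 1)
    (h2 : 1 / 4 + c * ((X + n * s ^ 3) / (κ * (1 - s))) +
      c ^ 2 * ((X + n * s ^ 3) / (κ * (1 - s))) ^ 2 < 3 * c)
    (h3 : 0 < haP (κ * (1 - s)) 1 n c (V + s ^ 3) (X + n * s ^ 3))
    (h4 : 6 * n / κ * (s ^ 2 + 2 * c * (6 * n / κ) * s ^ 4 + 4 * s) < 1)
    (h5 : (R + 1) ^ 2 * (2 * n * (3 * s ^ 2)) < η) :
    1 * (X + n * s ^ 3) / (κ * (1 - s)) ≤ 1 ∧
      1 / 4 + c * (1 * (X + n * s ^ 3) / (κ * (1 - s))) +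
        c ^ 2 * (1 * (X + n * s ^ 3) / (κ * (1 - s))) ^ 2 ≤ 3 * c ∧
      0 < haP (κ * (1 - s)) 1 n c (V + s ^ 3) (X + n * s ^ 3) ∧
      1 * n * (s ^ 3 * (1 + 2 / s)) / (κ * (1 - s)) *
        (1 + 2 * c * (1 * n * (s ^ 3 * (1 + 2 / s)) / (κ * (1 - s))) + 2 * Real.log (1 + 2 / s)) ≤ 1 ∧
      (R + 1) ^ 2 * (2 * 1 * n * (s ^ 3 * (1 + 2 / s))) ≤ η := by
  set A := 6 * n / κ with hA
  have hA0 : 0 < A := by positivity
  have hq : s ^ 3 * (1 + 2 / s) ≤ 3 * s ^ 2 := by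
    have : s ^ 3 * (1 + 2 / s) = s ^ 3 + 2 * s ^ 2 := by
      field_simp
    rw [this]
    nlinarith [sq_nonneg s]
  have hq0 : 0 ≤ s ^ 3 * (1 + 2 / s) := by positivity
  rw [one_mul, one_mul, mul_one]
  refine ⟨h1.le, h2.le, h3, ?_, ?_⟩
  · have hu : n * (s ^ 3 * (1 + 2 / s)) / (κ * (1 - s)) ≤ A * s ^ 2 := by
      rw [div_le_iff₀ (by nlinarith)]
      have g1 : n * (s ^ 3 * (1 + 2 / s)) ≤ n * (3 * s ^ 2) :=
        mul_le_mul_of_nonneg_left hq (by positivity)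
      have g2 : A * s ^ 2 * (κ * (1 - s)) = 6 * n * s ^ 2 * (1 - s) := by
        rw [hA]
        field_simp
      rw [g2]
      have g3 : 0 ≤ n * s ^ 2 * (3 - 6 * s) := by
        refine mul_nonneg (by positivity) (by linarith)
      nlinarith
    have hu0 : 0 ≤ n * (s ^ 3 * (1 + 2 / s)) / (κ * (1 - s)) := by
      refine div_nonneg (by positivity) (mul_nonneg hκ.le (by linarith))
    have hlog : Real.log (1 + 2 / s) ≤ 2 / s := by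
      have := Real.log_le_sub_one_of_pos (show 0 < 1 + 2 / s by positivity)
      linarith
    have hlog0 : 0 ≤ Real.log (1 + 2 / s) := Real.log_nonneg (by
      have : 0 < 2 / s := by positivity
      linarith)
    set u := n * (s ^ 3 * (1 + 2 / s)) / (κ * (1 - s))
    calc u * (1 + 2 * c * u + 2 * Real.log (1 + 2 / s))
        ≤ A * s ^ 2 * (1 + 2 * c * (A * s ^ 2) + 2 * (2 / s)) := by gcongr
      _ = A * (s ^ 2 + 2 * c * A * s ^ 4 + 4 * s) := by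
        field_simp
        ring
      _ ≤ 1 := h4.le
  · refine le_trans ?_ h5.le
    gcongr

/-- the parameters can be chosen uniformly on compact sets -/
theorem haw_par {κ V R η : ℝ} (hκ : 0 < κ) (hV0 : 0 < V) (hη : 0 < η) {K : Set (ℝ × ℝ × ℝ)}
    (hK : IsCompact K) (hp : ∀ p ∈ K, hwOk κ V p.1 p.2.1 p.2.2) :
    ∃ δ ε : ℝ, 0 < δ ∧ δ < 1 ∧ 0 < ε ∧ ∀ p ∈ K,
      1 * (p.1 + p.2.1 * ε) / (κ * (1 - δ)) ≤ 1 ∧
      1 / 4 + p.2.2 * (1 * (p.1 + p.2.1 * ε) / (κ * (1 - δ))) +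
        p.2.2 ^ 2 * (1 * (p.1 + p.2.1 * ε) / (κ * (1 - δ))) ^ 2 ≤ 3 * p.2.2 ∧
      0 < haP (κ * (1 - δ)) 1 p.2.1 p.2.2 (V + ε) (p.1 + p.2.1 * ε) ∧
      1 * p.2.1 * (ε * (1 + 2 / δ)) / (κ * (1 - δ)) *
        (1 + 2 * p.2.2 * (1 * p.2.1 * (ε * (1 + 2 / δ)) / (κ * (1 - δ))) +
          2 * Real.log (1 + 2 / δ)) ≤ 1 ∧
      (R + 1) ^ 2 * (2 * 1 * p.2.1 * (ε * (1 + 2 / δ))) ≤ η := by
  have key : ∀ᶠ s : ℝ in 𝓝 0, ∀ p ∈ K, (p.1 + p.2.1 * s ^ 3) / (κ * (1 - s)) < 1 ∧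
      1 / 4 + p.2.2 * ((p.1 + p.2.1 * s ^ 3) / (κ * (1 - s))) +
      p.2.2 ^ 2 * ((p.1 + p.2.1 * s ^ 3) / (κ * (1 - s))) ^ 2 < 3 * p.2.2 ∧
      0 < haP (κ * (1 - s)) 1 p.2.1 p.2.2 (V + s ^ 3) (p.1 + p.2.1 * s ^ 3) ∧
      6 * p.2.1 / κ * (s ^ 2 + 2 * p.2.2 * (6 * p.2.1 / κ) * s ^ 4 + 4 * s) < 1 ∧
      (R + 1) ^ 2 * (2 * p.2.1 * (3 * s ^ 2)) < η := by
    refine hK.eventually_forall_of_forall_eventually fun p hpK => ?_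
    obtain ⟨hX0, hn, hc, hU, hcU, hψ⟩ := hp p hpK
    have c1 : ContinuousAt (fun z : ℝ × ℝ × ℝ × ℝ => z.2.1 + z.2.2.1 * z.1 ^ 3) (0, p) := by fun_prop
    have c2 : ContinuousAt (fun z : ℝ × ℝ × ℝ × ℝ => κ * (1 - z.1)) (0, p) := by fun_prop
    have c3 : ContinuousAt (fun z : ℝ × ℝ × ℝ × ℝ => (V + z.1 ^ 3) * z.2.2.1) (0, p) := by fun_prop
    have c5 : ContinuousAt (fun z : ℝ × ℝ × ℝ × ℝ => z.2.2.2) (0, p) := by fun_prop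
    have cU : ContinuousAt (fun z : ℝ × ℝ × ℝ × ℝ => (z.2.1 + z.2.2.1 * z.1 ^ 3) / (κ * (1 - z.1)))
        (0, p) := by
      refine ContinuousAt.div c1 c2 ?_
      simpa using hκ.ne'
    have cU2 : ContinuousAt (fun z : ℝ × ℝ × ℝ × ℝ => 1 * (z.2.1 + z.2.2.1 * z.1 ^ 3) / (κ * (1 - z.1)))
        (0, p) := by
      simpa only [one_mul] using cU
    have cU3 : ContinuousAt (fun z : ℝ × ℝ × ℝ × ℝ => κ * (1 - z.1) / (1 * (z.2.1 + z.2.2.1 * z.1 ^ 3)))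
        (0, p) := by
      refine ContinuousAt.div c2 (by simpa only [one_mul] using c1) ?_
      simpa using hX0.ne'
    have cL1 : ContinuousAt (fun z : ℝ × ℝ × ℝ × ℝ => Real.log ((V + z.1 ^ 3) * z.2.2.1)) (0, p) := by
      refine ContinuousAt.log c3 ?_
      simpa using ⟨hV0.ne', hn.ne'⟩
    have cL2 : ContinuousAt (fun z : ℝ × ℝ × ℝ × ℝ => Real.log (z.2.1 + z.2.2.1 * z.1 ^ 3)) (0, p) := by
      refine ContinuousAt.log c1 ?_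
      simpa using hX0.ne'
    have cP : ContinuousAt (fun z : ℝ × ℝ × ℝ × ℝ =>
        haP (κ * (1 - z.1)) 1 z.2.2.1 z.2.2.2 (V + z.1 ^ 3) (z.2.1 + z.2.2.1 * z.1 ^ 3)) (0, p) := by
      unfold haP
      exact ((cU3.sub continuousAt_const).sub (c5.mul cU2)).sub (cL1.sub cL2)
    have cA : ContinuousAt (fun z : ℝ × ℝ × ℝ × ℝ => 6 * z.2.2.1 / κ *
        (z.1 ^ 2 + 2 * z.2.2.2 * (6 * z.2.2.1 / κ) * z.1 ^ 4 + 4 * z.1)) (0, p) := by fun_prop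
    have cE : ContinuousAt (fun z : ℝ × ℝ × ℝ × ℝ => (R + 1) ^ 2 * (2 * z.2.2.1 * (3 * z.1 ^ 2)))
        (0, p) := by fun_prop
    have cQ : ContinuousAt (fun z : ℝ × ℝ × ℝ × ℝ =>
        1 / 4 + z.2.2.2 * ((z.2.1 + z.2.2.1 * z.1 ^ 3) / (κ * (1 - z.1))) +
      z.2.2.2 ^ 2 * ((z.2.1 + z.2.2.1 * z.1 ^ 3) / (κ * (1 - z.1))) ^ 2 - 3 * z.2.2.2) (0, p) :=
      ((continuousAt_const.add (c5.mul cU)).add ((c5.pow 2).mul (cU.pow 2))).sub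
        (continuousAt_const.mul c5)
    have e1 : ∀ᶠ z : ℝ × ℝ × ℝ × ℝ in 𝓝 (0, p), (z.2.1 + z.2.2.1 * z.1 ^ 3) / (κ * (1 - z.1)) < 1 :=
      cU.eventually (gt_mem_nhds (by simpa using hU))
    have e2 : ∀ᶠ z : ℝ × ℝ × ℝ × ℝ in 𝓝 (0, p),
        1 / 4 + z.2.2.2 * ((z.2.1 + z.2.2.1 * z.1 ^ 3) / (κ * (1 - z.1))) +
      z.2.2.2 ^ 2 * ((z.2.1 + z.2.2.1 * z.1 ^ 3) / (κ * (1 - z.1))) ^ 2 - 3 * z.2.2.2 < 0 :=
      cQ.eventually (gt_mem_nhds (by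
      have : 1 / 4 + p.2.2 * (p.1 / κ) + p.2.2 ^ 2 * (p.1 / κ) ^ 2 - 3 * p.2.2 < 0 := by linarith
      simpa using this))
    have e3 : ∀ᶠ z : ℝ × ℝ × ℝ × ℝ in 𝓝 (0, p),
        0 < haP (κ * (1 - z.1)) 1 z.2.2.1 z.2.2.2 (V + z.1 ^ 3) (z.2.1 + z.2.2.1 * z.1 ^ 3) :=
      cP.eventually (lt_mem_nhds (by simpa using hψ))
    have e4 : ∀ᶠ z : ℝ × ℝ × ℝ × ℝ in 𝓝 (0, p), 6 * z.2.2.1 / κ *
        (z.1 ^ 2 + 2 * z.2.2.2 * (6 * z.2.2.1 / κ) * z.1 ^ 4 + 4 * z.1) < 1 :=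
      cA.eventually (gt_mem_nhds (by simp))
    have e5 : ∀ᶠ z : ℝ × ℝ × ℝ × ℝ in 𝓝 (0, p), (R + 1) ^ 2 * (2 * z.2.2.1 * (3 * z.1 ^ 2)) < η :=
      cE.eventually (gt_mem_nhds (by simpa using hη))
    filter_upwards [e1, e2, e3, e4, e5] with z h1 h2 h3 h4 h5
    exact ⟨h1, by linarith, h3, h4, h5⟩
  have e6 : ∀ᶠ s : ℝ in 𝓝 0, s < 1 / 2 := gt_mem_nhds (by norm_num)
  obtain ⟨s, ⟨h, h6⟩, hs⟩ := (((key.and e6).filter_mono
      (nhdsWithin_le_nhds (s := Ioi (0 : ℝ)))).and self_mem_nhdsWithin).exists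
  have hs : 0 < s := hs
  refine ⟨s, s ^ 3, hs, by linarith, by positivity, fun p hpK => ?_⟩
  obtain ⟨h1, h2, h3, h4, h5⟩ := h p hpK
  obtain ⟨hX0, hn, hc, -, -, -⟩ := hp p hpK
  exact haw_par_s hκ hn hc hs h6 h1 h2 h3 h4 h5

/-- **(HW)** Hardy inequality for odd functions and arbitrary weights, uniformly for the
parameters `(m, W, c)` in a compact set -/
theorem hw_unif {κ V R η : ℝ} (hκ : 0 < κ) (hV0 : 0 < V) (hη : 0 < η) {K : Set (ℝ × ℝ × ℝ)}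
    (hK : IsCompact K) (hp : ∀ p ∈ K, hwOk κ V p.1 p.2.1 p.2.2) :
    ∃ ε0 : ℝ, 0 < ε0 ∧ ∀ {M : Type} [MetricSpace M] {γ : ℝ → M} (C : Calc M γ) {ε : ℝ}, ε ≤ ε0 →
      IsopO C κ ε → C.vol ≤ V → ∀ {g : M → ℝ}, Lip g → (∀ t, g (γ (t + Real.pi)) = -g (γ t)) →
      (∀ x, |g x| ≤ R) → ∀ p ∈ K, ∀ {ω : Om → ℝ} {A : Set Om} {η1 : ℝ}, Integrable ω C.μ →
      (∀ᵐ o ∂C.μ, 0 ≤ ω o) → NullMeasurableSet A C.μ → (∀ᵐ o ∂C.μ, o ∉ A → ω o ≤ p.2.1) →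
      ∫ o in A, ω o ∂C.μ ≤ η1 → ∫ o, ω o ∂C.μ ≤ p.1 →
      ∫ o, ω o * g (C.pt o) ^ 2 ∂C.μ ≤ ∫ o, gn C g o ^ 2 ∂C.μ + (η + R ^ 2 * η1) := by
  obtain ⟨δ, ε0, h1, h2, h3, hpar⟩ := haw_par (R := R) hκ hV0 hη hK hp
  refine ⟨ε0, h3, fun {M} _ {γ} C {ε} he hI hV {g} hg ho hR p hpK {ω} {A} {η1} hω ω0 hA ωW hA1 hm => ?_⟩
  obtain ⟨h4, h5, h6, h7, h8⟩ := hpar p hpK
  obtain ⟨hX0, hn, hc, -, -, -⟩ := hp p hpK
  have := C.fin
  have hAc : NullMeasurableSet Aᶜ C.μ := hA.compl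
  set ν : Om → ℝ := Aᶜ.indicator ω with hνd
  have hν : Integrable ν C.μ := hω.indicator₀ hAc
  have ν0 : ∀ᵐ o ∂C.μ, 0 ≤ ν o := by
    filter_upwards [ω0] with o h
    rw [hνd]
    by_cases ho' : o ∈ Aᶜ
    · rwa [indicator_of_mem ho']
    · rw [indicator_of_notMem ho']
  have νω : ∀ᵐ o ∂C.μ, ν o ≤ ω o := by
    filter_upwards [ω0] with o h
    rw [hνd]
    by_cases ho' : o ∈ Aᶜ
    · rw [indicator_of_mem ho']
    · rwa [indicator_of_notMem ho']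
  have νn : ∀ᵐ o ∂C.μ, ν o ≤ p.2.1 := by
    filter_upwards [ωW] with o h
    rw [hνd]
    by_cases ho' : o ∈ A
    · rw [indicator_of_notMem (by simpa using ho')]
      exact hn.le
    · rw [indicator_of_mem (by simpa using ho')]
      exact h ho'
  have hX : ∫ o, ν o ∂C.μ ≤ p.1 := (integral_mono_ae hν hω νω).trans hm
  have key := hardy_core C hκ h3 (IsopO.mono hκ.le hI he) hg ho hR hV hν ν0 νn hX hn one_pos
    h1 h2 hc h4 h5 h6 h7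
  have hg2 : AEMeasurable (fun o => g (C.pt o) ^ 2) C.μ := (C.mpt _ hg).pow_const 2
  have hbd : ∀ o, ‖g (C.pt o) ^ 2‖ ≤ R ^ 2 := by
    intro o
    rw [Real.norm_eq_abs, abs_of_nonneg (sq_nonneg _), ← sq_abs (g _)]
    exact pow_le_pow_left₀ (abs_nonneg _) (hR _) 2
  have j1 : Integrable (fun o => ω o * g (C.pt o) ^ 2) C.μ :=
    hω.mul_bdd (c := R ^ 2) hg2.aestronglyMeasurable (Eventually.of_forall hbd)
  have k1 : ∫ o, ω o * g (C.pt o) ^ 2 ∂C.μ =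
      ∫ o in A, ω o * g (C.pt o) ^ 2 ∂C.μ + ∫ o, ν o * g (C.pt o) ^ 2 ∂C.μ := by
    rw [← integral_add_compl₀ hA j1, ← integral_indicator₀ hAc]
    congr 1
    refine integral_congr_ae (Eventually.of_forall fun o => ?_)
    rw [hνd]
    by_cases ho' : o ∈ Aᶜ
    · simp only [indicator_of_mem ho']
    · simp only [indicator_of_notMem ho', zero_mul]
  have k2 : ∫ o in A, ω o * g (C.pt o) ^ 2 ∂C.μ ≤ R ^ 2 * η1 := by
    calc ∫ o in A, ω o * g (C.pt o) ^ 2 ∂C.μ ≤ ∫ o in A, R ^ 2 * ω o ∂C.μ := by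
          refine setIntegral_mono_ae j1.integrableOn (hω.const_mul _).integrableOn ?_
          filter_upwards [ω0] with o h
          have h9 : g (C.pt o) ^ 2 ≤ R ^ 2 := by
            have := hbd o
            rwa [Real.norm_eq_abs, abs_of_nonneg (sq_nonneg _)] at this
          nlinarith
      _ = R ^ 2 * ∫ o in A, ω o ∂C.μ := integral_const_mul _ _
      _ ≤ R ^ 2 * η1 := mul_le_mul_of_nonneg_left hA1 (sq_nonneg R)
  rw [k1]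
  linarith

end Pool.Agent.FPX
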