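import Pool.Agent.FPX.TGA
import Pool.Agent.FPX.HAT

/-
HTG (helper87): trigonometric data for hat averages on the uniform grid with `N` cells: one Boolean per harmonic `n`
checks that `a i` is close to `lh y / N` times the value of `E^n` at the grid point `i`, `y = n π / (2 N)`.
-/

set_option autoImplicit false

open MeasureTheory Set Filter Topology Complex
open Pool.Agent.FPX.SQD (ph)
open Pool.Agent.FPX.CAV
open Pool.Agent.FPX.NOT
open Pool.Agent.FPX.HAT (lh TrgH)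
open Pool.Agent.FPX.NCE (ex ex_err)

noncomputable section

namespace Pool.Agent.FPX.HTG

/-! ### the factor -/

/-- rational approximation of `lh y` -/
def fg (N n : ℕ) : ℚ :=
  let E := ex (n / (2 * N))
  ((E.1.im / (pq * n / (2 * N) * E.1.re) * 2 ^ 40).floor : ℚ) / 2 ^ 40

/-- its error -/
def fd (N n : ℕ) (g : ℚ) : ℚ :=
  let E := ex (n / (2 * N))
  let h := pq * n / (2 * N)
  let d := (n / (2 * N) : ℚ) / 10 ^ 11
  (E.2 + |E.1.im - g * (h * E.1.re)| + |g| * (d * |E.1.re| + (h + d) * E.2)) / ((h - d) * (E.1.re - E.2))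

/-- the check of the factor -/
def fok (N n : ℕ) : Bool :=
  let E := ex (n / (2 * N))
  let h := pq * n / (2 * N)
  let d := (n / (2 * N) : ℚ) / 10 ^ 11
  decide (0 < h - d) && decide (0 < E.1.re - E.2)

theorem fac_err {N n : ℕ} (h : fok N n = true) (g : ℚ) :
    |lh (n * Real.pi / (2 * N)) - (g : ℝ)| ≤ ((fd N n g : ℚ) : ℝ) := by
  simp only [fok, Bool.and_eq_true, decide_eq_true_eq] at h
  obtain ⟨h1, h2⟩ := h
  obtain ⟨q, hq⟩ : ∃ q : ℚ, q = n / (2 * N) := ⟨_, rfl⟩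
  have k := ex_err q
  rw [← hq] at h2
  obtain ⟨E, hE⟩ : ∃ E, E = ex q := ⟨_, rfl⟩
  rw [← hE] at k h2
  have hfd : fd N n g = (E.2 + |E.1.im - g * (pq * n / (2 * N) * E.1.re)|
      + |g| * (q / 10 ^ 11 * |E.1.re| + (pq * n / (2 * N) + q / 10 ^ 11) * E.2))
        / ((pq * n / (2 * N) - q / 10 ^ 11) * (E.1.re - E.2)) := by
    rw [hE, hq]
    rfl
  obtain ⟨y, hy⟩ : ∃ y : ℝ, y = n * Real.pi / (2 * N) := ⟨_, rfl⟩
  have hyq : y = Real.pi * (q : ℝ) := by
    rw [hy, hq]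
    push_cast
    ring
  rw [← hyq] at k
  have kr := (Complex.abs_re_le_norm _).trans k
  have ki := (Complex.abs_im_le_norm _).trans k
  rw [Complex.sub_re, Complex.exp_ofReal_mul_I_re] at kr
  rw [Complex.sub_im, Complex.exp_ofReal_mul_I_im] at ki
  have tr : (E.1.toC).re = ((E.1.re : ℚ) : ℝ) := rfl
  have ti : (E.1.toC).im = ((E.1.im : ℚ) : ℝ) := rfl
  rw [tr] at kr
  rw [ti] at ki
  obtain ⟨c, hc⟩ : ∃ c : ℝ, c = ((E.1.re : ℚ) : ℝ) := ⟨_, rfl⟩
  obtain ⟨s, hs⟩ : ∃ s : ℝ, s = ((E.1.im : ℚ) : ℝ) := ⟨_, rfl⟩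
  obtain ⟨ε, hε⟩ : ∃ ε : ℝ, ε = ((E.2 : ℚ) : ℝ) := ⟨_, rfl⟩
  obtain ⟨z, hz⟩ : ∃ z : ℝ, z = ((pq * n / (2 * N) : ℚ) : ℝ) := ⟨_, rfl⟩
  obtain ⟨d, hd⟩ : ∃ d : ℝ, d = ((q / 10 ^ 11 : ℚ) : ℝ) := ⟨_, rfl⟩
  rw [← hc, ← hε] at kr
  rw [← hs, ← hε] at ki
  have h1' : 0 < z - d := by
    rw [hz, hd, hq]
    exact_mod_cast h1
  have h2' : 0 < c - ε := by
    rw [hc, hε]
    exact_mod_cast h2
  have hq0 : (0 : ℝ) ≤ (q : ℝ) := by
    rw [hq]
    push_cast
    positivity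
  have hyz : |y - z| ≤ d := by
    have e : y - z = (Real.pi - ((pq : ℚ) : ℝ)) * q := by
      rw [hyq, hz, hq]
      push_cast
      ring
    rw [e, abs_mul, abs_of_nonneg hq0, hd]
    have := mul_le_mul_of_nonneg_right pq_err hq0
    refine this.trans (le_of_eq ?_)
    push_cast
    ring
  have hd0 : 0 ≤ d := (abs_nonneg _).trans hyz
  have hε0 : 0 ≤ ε := (abs_nonneg _).trans ki
  obtain ⟨y1, y2⟩ := abs_le.1 hyz
  obtain ⟨c1, c2⟩ := abs_le.1 kr
  have y0 : 0 < y := by linarith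
  have cy0 : 0 < Real.cos y := by linarith
  have hfd' : ((fd N n g : ℚ) : ℝ) = (ε + |s - g * (z * c)| + |(g : ℝ)| * (d * |c| + (z + d) * ε)) / ((z - d) * (c - ε)) := by
    rw [hfd, hz, hc, hs, hε, hd]
    push_cast
    ring
  rw [hfd', ← hy]
  have e1 : lh y - g = (Real.sin y - g * (y * Real.cos y)) / (y * Real.cos y) := by
    rw [lh, Real.tan_eq_sin_div_cos]
    field_simp
  rw [e1, abs_div, abs_of_pos (mul_pos y0 cy0)]
  have e2 : Real.sin y - g * (y * Real.cos y) = (Real.sin y - s) + (s - g * (z * c))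
      + g * ((z - y) * c + y * (c - Real.cos y)) := by ring
  have k1 : |Real.sin y - g * (y * Real.cos y)| ≤ ε + |s - g * (z * c)| + |(g : ℝ)| * (d * |c| + (z + d) * ε) := by
    rw [e2]
    refine (abs_add_le _ _).trans (add_le_add ((abs_add_le _ _).trans (add_le_add ki le_rfl)) ?_)
    rw [abs_mul]
    refine mul_le_mul_of_nonneg_left ((abs_add_le _ _).trans (add_le_add ?_ ?_)) (abs_nonneg _)
    · rw [abs_mul, abs_sub_comm]
      exact mul_le_mul_of_nonneg_right hyz (abs_nonneg _)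
    · rw [abs_mul, abs_of_pos y0, abs_sub_comm]
      exact mul_le_mul (by linarith) kr (abs_nonneg _) (by linarith)
  have k2 : (z - d) * (c - ε) ≤ y * Real.cos y := mul_le_mul (by linarith) (by linarith) h2'.le y0.le
  exact div_le_div₀ ((abs_nonneg _).trans k1) k1 (mul_pos h1' h2') k2

/-! ### the check of one grid point -/

/-- the check of the grid point `i`: `g`, `δ` the factor and its error -/
def chk1 (N n : ℕ) (g δ eta : ℚ) (i : ℕ) (a : Gq) : Bool :=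
  let E := ex (n * (2 * (i : ℚ) - N) / (2 * N))
  decide ((δ + |g| * E.2) / N + Gq.nu (Gq.sub (Gq.sm (g / N) E.1) a) ≤ eta)

/-- **the check of a harmonic** -/
def chkA (N n : ℕ) (a : ℕ → Gq) (eta : ℚ) : Bool :=
  decide (0 < N) && fok N n && (List.range N).all fun i => chk1 N n (fg N n) (fd N n (fg N n)) eta i (a i)

/-- **soundness** -/
theorem a_ok {N n : ℕ} {a : ℕ → Gq} {eta : ℚ} (h : chkA N n a eta = true) {i : ℕ} (hi : i < N) :
    ‖((lh (n * Real.pi / (2 * N)) * (1 / N) : ℝ) : ℂ) * ph n (Real.pi * ru N i) - (a i).toC‖ ≤ (eta : ℝ) := by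
  simp only [chkA, Bool.and_eq_true, decide_eq_true_eq, List.all_eq_true, List.mem_range] at h
  obtain ⟨⟨hN, hf⟩, hall⟩ := h
  have h1 := hall i hi
  simp only [chk1, decide_eq_true_eq] at h1
  set g : ℚ := fg N n with hg
  set δ : ℚ := fd N n g with hδ
  set q : ℚ := n * (2 * (i : ℚ) - N) / (2 * N) with hq
  have hN' : (0 : ℝ) < N := by exact_mod_cast hN
  have k1 := fac_err hf g
  rw [← hδ] at k1
  have k2 := ex_err q
  have k3 := Gq.norm_le_nu (Gq.sub (Gq.sm (g / N) (ex q).1) (a i))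
  rw [Gq.toC_sub, Gq.toC_sm] at k3
  have h2 : ((((δ + |g| * (ex q).2) / N + Gq.nu (Gq.sub (Gq.sm (g / N) (ex q).1) (a i))) : ℚ) : ℝ) ≤ (eta : ℝ) := by
    exact_mod_cast h1
  push_cast at h2
  refine le_trans ?_ h2
  have hNc : (N : ℂ) ≠ 0 := by exact_mod_cast hN'.ne'
  have eq1 : ph n (Real.pi * ru N i) = exp (((Real.pi * ((q : ℚ) : ℝ) : ℝ) : ℂ) * I) := by
    unfold SQD.ph ru
    congr 1
    rw [hq]
    push_cast
    field_simp
    ring
  rw [eq1]
  obtain ⟨L, hL⟩ : ∃ L : ℝ, L = lh (n * Real.pi / (2 * N)) := ⟨_, rfl⟩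
  rw [← hL] at k1 ⊢
  set Ex : ℂ := exp (((Real.pi * ((q : ℚ) : ℝ) : ℝ) : ℂ) * I) with hEx
  have nEx : ‖Ex‖ = 1 := by rw [hEx, Complex.norm_exp_ofReal_mul_I]
  have e : ((L * (1 / N) : ℝ) : ℂ) * Ex - (a i).toC
      = ((1 / N : ℝ) : ℂ) * (((L - (g : ℝ) : ℝ) : ℂ) * Ex + ((g : ℝ) : ℂ) * (Ex - (ex q).1.toC))
        + (((g / N : ℚ) : ℂ) * (ex q).1.toC - (a i).toC) := by
    push_cast
    ring
  rw [e]
  refine (norm_add_le _ _).trans (add_le_add ?_ k3)
  rw [norm_mul, Complex.norm_real, Real.norm_eq_abs, abs_of_pos (by positivity), one_div, inv_mul_eq_div]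
  rw [div_le_div_iff_of_pos_right hN']
  refine (norm_add_le _ _).trans (add_le_add ?_ ?_)
  · rw [norm_mul, nEx, mul_one, Complex.norm_real, Real.norm_eq_abs]
    exact k1
  · rw [norm_mul, Complex.norm_real, Real.norm_eq_abs]
    exact mul_le_mul_of_nonneg_left k2 (abs_nonneg _)

end Pool.Agent.FPX.HTG

namespace Pool.Agent.FPX.NCD

open Pool.Agent.FPX.AVS
open Pool.Agent.FPX.NOT (Gq)

/-- the check of the harmonics `1 .. R` for hats -/
def TG.chkH (G : TG) (R : ℕ) (η : ℚ) : Bool := (List.range R).all fun k => HTG.chkA G.N (k + 1) (G.a (k + 1)) η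

theorem TG.chkH_mono {G : TG} {R R' : ℕ} {η : ℚ} (h : G.chkH R' η = true) (hR : R ≤ R') : G.chkH R η = true := by
  unfold TG.chkH at h ⊢
  rw [List.all_eq_true] at h ⊢
  exact fun k hk => h k (List.mem_range.2 ((List.mem_range.1 hk).trans_le hR))

theorem TG.trgH {G : TG} {R : ℕ} {η : ℚ} (h : G.chkH R η = true) : HAT.TrgH R G.N G.a fun _ => η where
  zero := fun i _ => by simp [TG.a]
  pos := fun n h1 h9 i hi => by
    unfold TG.chkH at h
    rw [List.all_eq_true] at h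
    have hn := h (n - 1) (List.mem_range.2 (by omega))
    rw [Nat.sub_add_cancel h1] at hn
    exact HTG.a_ok hn hi

end Pool.Agent.FPX.NCD
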