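import Pool.Agent.FPX.HAB

/-
HVN (helper39): the second variance bound of the hat averages (helper40): `V ≤ vc + (Q₋² + 14 Q₋ Q₊ + Q₊²) / 16`, and the
record `AvgL` of a state which satisfies both bounds.
-/

set_option autoImplicit false

noncomputable section

namespace Pool.Agent.FPX.HAA

open Pool.Agent.FPX.CAV
open Pool.Agent.FPX.NOT (Gq)

/-- the second variance bound -/
def VNh (D : CD) (z : ℕ → ℝ) (i : ℕ) : ℝ :=
  match D.ty i with
  | 0 => (D.vc i : ℝ)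
  | 1 => (QE D z ((i : ℤ) - 1) ^ 2 + 14 * (QE D z ((i : ℤ) - 1) * QE D z i) + QE D z i ^ 2) / 16 + (D.vc i : ℝ)
  | _ => (PE D z ((i : ℤ) - 1) ^ 2 + 14 * (PE D z ((i : ℤ) - 1) * PE D z i) + PE D z i ^ 2) / 16 + (D.vc i : ℝ)

/-- a state and its hat averages with both variance bounds -/
structure AvgL (R : ℕ) (D : CD) (a : ℕ → ℕ → Gq) (e : ℕ → ℚ) (u Z : ℤ → ℂ) (z A : ℕ → ℝ) : Prop
    extends AvgH R D a e u Z z A where
  A2 : ∀ i < D.N, A i ≤ z i ^ 2 + VNh D z i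

end Pool.Agent.FPX.HAA
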