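import Mathlib
import Pool.Agent.FPX.IMX

/-
IMZ (helper91): the closed form of the outer resistance with the cubic weight (`outCapX`).
-/

open MeasureTheory Set Filter Topology
open scoped ENNReal NNReal

noncomputable section

namespace Pool.Agent.FPX

open Pool.Agent.EWD Pool.Agent.FPM

/-- the slope at the worst state -/
def izψ (κ ε K d b D a : ℝ) : ℝ :=
  (1 - iwm b (a - D)) / (κ * (a - ε)) + iwB K d b D (a, a - D)

/-- the bound of `m h` -/
def izp (b x : ℝ) : ℝ := (3 * b ^ 2 - x ^ 2) / (2 * b ^ 3 * (4 * Real.pi - b))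

/-- primitive of `(1 - m) / y` -/
def izT (b D' y : ℝ) : ℝ := (1 + (3 * b ^ 2 * D' - D' ^ 3) / (2 * b ^ 3)) * Real.log y -
  (-(y ^ 3 / 3) + 3 / 2 * D' * y ^ 2 + (3 * b ^ 2 - 3 * D' ^ 2) * y) / (2 * b ^ 3)

/-- primitives of the powers of `izp` -/
def izP (K d b x : ℝ) : ℝ :=
  (3 * b ^ 2 * x - x ^ 3 / 3) / (2 * b ^ 3 * (4 * Real.pi - b)) +
  1 / (2 * K) * ((9 * b ^ 4 * x - 2 * b ^ 2 * x ^ 3 + x ^ 5 / 5) / (2 * b ^ 3 * (4 * Real.pi - b)) ^ 2) +
  d / K ^ 2 * ((27 * b ^ 6 * x - 9 * b ^ 4 * x ^ 3 + 9 / 5 * b ^ 2 * x ^ 5 - x ^ 7 / 7) /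
    (2 * b ^ 3 * (4 * Real.pi - b)) ^ 3)

/-- primitive of `- (h + h² / (2K) + d h³ / K²)` -/
def izQ (K d x : ℝ) : ℝ := imL x + 1 / (2 * K) * imG2 x + d / K ^ 2 * imG3 x

theorem izQ_has {K d x : ℝ} (h0 : 0 < x) (h1 : x < 4 * Real.pi) :
    HasDerivAt (izQ K d) (-(iwP K d 1 (imh x) (imh x ^ 2) (imh x ^ 3))) x := by
  have e := ((imL_has h0 h1).add ((imG2_has h0 h1).const_mul (1 / (2 * K)))).add
    ((imG3_has h0 h1).const_mul (d / K ^ 2))
  refine e.congr_deriv ?_
  unfold iwP imh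
  ring

theorem izT_has {b D' y : ℝ} (hb : 0 < b) (hy : 0 < y) :
    HasDerivAt (izT b D') ((1 - (y - D') * (3 * b ^ 2 - (y - D') ^ 2) / (2 * b ^ 3)) / y) y := by
  have e1 := (Real.hasDerivAt_log hy.ne').const_mul (1 + (3 * b ^ 2 * D' - D' ^ 3) / (2 * b ^ 3))
  have e2 : HasDerivAt (fun y : ℝ => (-(y ^ 3 / 3) + 3 / 2 * D' * y ^ 2 + (3 * b ^ 2 - 3 * D' ^ 2) * y) /
      (2 * b ^ 3)) ((-(y ^ 2) + 3 * D' * y + (3 * b ^ 2 - 3 * D' ^ 2)) / (2 * b ^ 3)) y := by
    have f1 := ((hasDerivAt_pow 3 y).div_const 3).neg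
    have f2 := (hasDerivAt_pow 2 y).const_mul (3 / 2 * D')
    have f3 := (hasDerivAt_id y).const_mul (3 * b ^ 2 - 3 * D' ^ 2)
    refine (((f1.add f2).add f3).div_const (2 * b ^ 3)).congr_deriv ?_
    norm_num
    ring
  refine (e1.sub e2).congr_deriv ?_
  field_simp
  ring

theorem izP_has (K d b x : ℝ) : HasDerivAt (izP K d b)
    (izp b x + 1 / (2 * K) * izp b x ^ 2 + d / K ^ 2 * izp b x ^ 3) x := by
  have p3 : HasDerivAt (fun x : ℝ => x ^ 3) (3 * x ^ 2) x := by simpa using hasDerivAt_pow 3 x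
  have p5 : HasDerivAt (fun x : ℝ => x ^ 5) (5 * x ^ 4) x := by simpa using hasDerivAt_pow 5 x
  have p7 : HasDerivAt (fun x : ℝ => x ^ 7) (7 * x ^ 6) x := by simpa using hasDerivAt_pow 7 x
  have pid : HasDerivAt (fun x : ℝ => x) 1 x := hasDerivAt_id x
  have g1 := ((pid.const_mul (3 * b ^ 2)).sub (p3.div_const 3)).div_const
    (2 * b ^ 3 * (4 * Real.pi - b))
  have g2 := (((pid.const_mul (9 * b ^ 4)).sub (p3.const_mul (2 * b ^ 2))).add
    (p5.div_const 5)).div_const ((2 * b ^ 3 * (4 * Real.pi - b)) ^ 2)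
  have g3 := ((((pid.const_mul (27 * b ^ 6)).sub (p3.const_mul (9 * b ^ 4))).add
    (p5.const_mul (9 / 5 * b ^ 2))).sub (p7.div_const 7)).div_const
      ((2 * b ^ 3 * (4 * Real.pi - b)) ^ 3)
  refine ((g1.add (g2.const_mul (1 / (2 * K)))).add (g3.const_mul (d / K ^ 2))).congr_deriv ?_
  unfold izp
  rw [div_pow, div_pow]
  ring

/-- `m h ≤ izp` -/
theorem iz_mh {b x : ℝ} (hb : 0 < b) (hb4 : b < 4 * Real.pi) (h0 : 0 < x) (h1 : x ≤ b) :
    iwm b x * imh x ≤ izp b x := by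
  rw [iwm_low hb h1]
  unfold imh izp
  have e1 : 0 < 4 * Real.pi - b := by linarith
  have e2 : 4 * Real.pi - b ≤ 4 * Real.pi - x := by linarith
  have e3 : 0 ≤ 3 * b ^ 2 - x ^ 2 := by nlinarith
  have e4 : x * (3 * b ^ 2 - x ^ 2) / (2 * b ^ 3) * (1 / (x * (4 * Real.pi - x))) =
      (3 * b ^ 2 - x ^ 2) / (2 * b ^ 3 * (4 * Real.pi - x)) := by
    have : 0 < 4 * Real.pi - x := by linarith
    field_simp
  rw [e4]
  exact div_le_div_of_nonneg_left e3 (by positivity) (by gcongr)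

/-- `h` is at most its larger boundary value -/
theorem imh_le {x y α : ℝ} (hx : 0 < x) (h1 : x ≤ α) (h2 : α ≤ y) (hy : y < 4 * Real.pi) {u : ℝ}
    (hux : imh x ≤ u) (huy : imh y ≤ u) : imh α ≤ u := by
  unfold imh at *
  have q1 : 0 < x * (4 * Real.pi - x) := mul_pos hx (by linarith)
  have q2 : 0 < y * (4 * Real.pi - y) := mul_pos (by linarith) (by linarith)
  have q3 : 0 < α * (4 * Real.pi - α) := mul_pos (by linarith) (by linarith)
  rcases le_total (α + x) (4 * Real.pi) with h | h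
  · refine le_trans (one_div_le_one_div_of_le q1 ?_) hux
    have : 0 ≤ (α - x) * (4 * Real.pi - x - α) := mul_nonneg (by linarith) (by linarith)
    nlinarith
  · refine le_trans (one_div_le_one_div_of_le q2 ?_) huy
    have : 0 ≤ (y - α) * (y + α - 4 * Real.pi) := mul_nonneg (by linarith) (by linarith)
    nlinarith

theorem izψ_cont {κ ε K d b D : ℝ} (hκ : 0 < κ) :
    ContinuousOn (izψ κ ε K d b D) {a | ε < a ∧ D < a ∧ a < 4 * Real.pi + D} := by
  have hm : Continuous fun a : ℝ => iwm b (a - D) := (iwm_cont b).comp (continuous_id.sub continuous_const)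
  have hh : ContinuousOn (fun a : ℝ => imh (a - D)) {a | ε < a ∧ D < a ∧ a < 4 * Real.pi + D} := by
    unfold imh
    refine continuousOn_const.div (by fun_prop) fun a ha => ?_
    have h1 : 0 < a - D := by linarith [ha.2.1]
    have h2 : 0 < 4 * Real.pi - (a - D) := by linarith [ha.2.2]
    positivity
  unfold izψ iwB iwP
  refine ContinuousOn.add ?_ ?_
  · refine (continuousOn_const.sub hm.continuousOn).div (by fun_prop) fun a ha => ?_
    have h1 : 0 < a - ε := by linarith [ha.1]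
    positivity
  · refine ((hm.continuousOn.mul hh).add (((hm.continuousOn.pow 2).div_const _).mul (hh.pow 2))).add
      (((continuousOn_const.mul (hm.continuousOn.pow 3)).div_const _).mul (hh.pow 3))

variable {M : Type} [MetricSpace M] {γ : ℝ → M}

/-- the closed form of the integral over the first piece -/
def izI (κ ε K d b D a₁ : ℝ) : ℝ :=
  (1 / κ) * (izT b (D - ε) (b + D - ε) - izT b (D - ε) (a₁ - ε)) + (izP K d b b - izP K d b (a₁ - D))

theorem izI_ge {κ ε K d b D a₁ : ℝ} (hκ : 0 < κ) (hK : 0 < K) (hd : 0 ≤ d) (hb : 0 < b)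
    (hb4 : b < 4 * Real.pi) (hD : D < a₁) (hε : ε < a₁) (hab : a₁ ≤ b + D) :
    ∫ a in a₁..(b + D), izψ κ ε K d b D a ≤ izI κ ε K d b D a₁ := by
  have hpi := Real.pi_pos
  -- the majorant
  have hmaj : ∀ a ∈ Icc a₁ (b + D), izψ κ ε K d b D a ≤
      (1 / κ) * ((1 - ((a - ε) - (D - ε)) * (3 * b ^ 2 - ((a - ε) - (D - ε)) ^ 2) / (2 * b ^ 3)) / (a - ε)) +
      (izp b (a - D) + 1 / (2 * K) * izp b (a - D) ^ 2 + d / K ^ 2 * izp b (a - D) ^ 3) := by
    intro a ha
    have h1 : 0 < a - D := by linarith [ha.1]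
    have h2 : a - D ≤ b := by linarith [ha.2]
    have h3 : 0 < a - ε := by linarith [ha.1]
    have h4 := iz_mh hb hb4 h1 h2
    have h5 : 0 ≤ iwm b (a - D) := iwm_nonneg hb h1.le
    have h6 : 0 < imh (a - D) := imh_pos h1 (by linarith)
    have h7 : 0 ≤ iwm b (a - D) * imh (a - D) := by positivity
    unfold izψ iwB iwP
    simp only
    have e1 : (1 - iwm b (a - D)) / (κ * (a - ε)) =
        (1 / κ) * ((1 - ((a - ε) - (D - ε)) * (3 * b ^ 2 - ((a - ε) - (D - ε)) ^ 2) / (2 * b ^ 3)) / (a - ε)) := by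
      rw [iwm_low hb h2]
      have : (a - ε) - (D - ε) = a - D := by ring
      rw [this]
      field_simp
    rw [e1]
    have e2 : iwm b (a - D) ^ 2 / (2 * K) * imh (a - D) ^ 2 ≤ 1 / (2 * K) * izp b (a - D) ^ 2 := by
      have : iwm b (a - D) ^ 2 / (2 * K) * imh (a - D) ^ 2 =
          1 / (2 * K) * (iwm b (a - D) * imh (a - D)) ^ 2 := by ring
      rw [this]
      exact mul_le_mul_of_nonneg_left (pow_le_pow_left₀ h7 h4 2) (by positivity)
    have e3 : d * iwm b (a - D) ^ 3 / K ^ 2 * imh (a - D) ^ 3 ≤ d / K ^ 2 * izp b (a - D) ^ 3 := by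
      have : d * iwm b (a - D) ^ 3 / K ^ 2 * imh (a - D) ^ 3 =
          d / K ^ 2 * (iwm b (a - D) * imh (a - D)) ^ 3 := by ring
      rw [this]
      exact mul_le_mul_of_nonneg_left (pow_le_pow_left₀ h7 h4 3) (by positivity)
    linarith
  have hder : ∀ a ∈ uIcc a₁ (b + D), HasDerivAt
      (fun a => (1 / κ) * izT b (D - ε) (a - ε) + izP K d b (a - D))
      ((1 / κ) * ((1 - ((a - ε) - (D - ε)) * (3 * b ^ 2 - ((a - ε) - (D - ε)) ^ 2) / (2 * b ^ 3)) / (a - ε)) +
      (izp b (a - D) + 1 / (2 * K) * izp b (a - D) ^ 2 + d / K ^ 2 * izp b (a - D) ^ 3)) a := by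
    intro a ha
    rw [uIcc_of_le hab] at ha
    have h3 : 0 < a - ε := by linarith [ha.1]
    have f1 : HasDerivAt (fun a : ℝ => a - ε) 1 a := (hasDerivAt_id a).sub_const ε
    have f2 : HasDerivAt (fun a : ℝ => a - D) 1 a := (hasDerivAt_id a).sub_const D
    have g1 : HasDerivAt (fun a : ℝ => izT b (D - ε) (a - ε)) _ a :=
      HasDerivAt.comp (h₂ := izT b (D - ε)) (h := fun a : ℝ => a - ε) a (izT_has hb h3) f1
    have g2 : HasDerivAt (fun a : ℝ => izP K d b (a - D)) _ a :=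
      HasDerivAt.comp (h₂ := izP K d b) (h := fun a : ℝ => a - D) a (izP_has K d b (a - D)) f2
    refine ((g1.const_mul (1 / κ)).add g2).congr_deriv ?_
    ring
  have hcont : ContinuousOn (fun a =>
      (1 / κ) * ((1 - ((a - ε) - (D - ε)) * (3 * b ^ 2 - ((a - ε) - (D - ε)) ^ 2) / (2 * b ^ 3)) / (a - ε)) +
      (izp b (a - D) + 1 / (2 * K) * izp b (a - D) ^ 2 + d / K ^ 2 * izp b (a - D) ^ 3))
      (uIcc a₁ (b + D)) := by
    rw [uIcc_of_le hab]
    unfold izp
    refine ContinuousOn.add (continuousOn_const.mul (ContinuousOn.div (by fun_prop) (by fun_prop)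
      fun a ha => ?_)) (by fun_prop)
    have : 0 < a - ε := by linarith [ha.1]
    exact this.ne'
  have h1 : ∫ a in a₁..(b + D), izψ κ ε K d b D a ≤ ∫ a in a₁..(b + D),
      ((1 / κ) * ((1 - ((a - ε) - (D - ε)) * (3 * b ^ 2 - ((a - ε) - (D - ε)) ^ 2) / (2 * b ^ 3)) / (a - ε)) +
      (izp b (a - D) + 1 / (2 * K) * izp b (a - D) ^ 2 + d / K ^ 2 * izp b (a - D) ^ 3)) := by
    refine intervalIntegral.integral_mono_on hab ?_ hcont.intervalIntegrable hmaj
    refine ContinuousOn.intervalIntegrable ?_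
    rw [uIcc_of_le hab]
    exact (izψ_cont hκ).mono fun a ha => ⟨by linarith [ha.1], by linarith [ha.1], by linarith [ha.2]⟩
  rw [intervalIntegral.integral_eq_sub_of_hasDerivAt hder hcont.intervalIntegrable] at h1
  refine h1.trans (le_of_eq ?_)
  unfold izI
  have : b + D - D = b := by ring
  rw [this]
  ring

theorem izψ_outer {κ ε K d b D a₂ : ℝ} (hb : 0 < b) (ha : b + D ≤ a₂) (ha2 : a₂ < 4 * Real.pi + D) :
    ∫ a in (b + D)..a₂, izψ κ ε K d b D a = izQ K d b - izQ K d (a₂ - D) := by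
  have hder : ∀ a ∈ uIcc (b + D) a₂, HasDerivAt (fun a => -izQ K d (a - D))
      (iwP K d 1 (imh (a - D)) (imh (a - D) ^ 2) (imh (a - D) ^ 3)) a := by
    intro a h
    rw [uIcc_of_le ha] at h
    have f2 : HasDerivAt (fun a : ℝ => a - D) 1 a := (hasDerivAt_id a).sub_const D
    have g2 : HasDerivAt (fun a : ℝ => izQ K d (a - D)) _ a :=
      HasDerivAt.comp (h₂ := izQ K d) (h := fun a : ℝ => a - D) a
        (izQ_has (by linarith [h.1]) (by linarith [h.2])) f2
    refine g2.neg.congr_deriv ?_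
    ring
  have e : ∀ a ∈ uIcc (b + D) a₂, izψ κ ε K d b D a =
      iwP K d 1 (imh (a - D)) (imh (a - D) ^ 2) (imh (a - D) ^ 3) := by
    intro a h
    rw [uIcc_of_le ha] at h
    unfold izψ iwB
    rw [iwm_one (by linarith [h.1])]
    simp
  rw [intervalIntegral.integral_congr e]
  have hc : ContinuousOn (fun a => iwP K d 1 (imh (a - D)) (imh (a - D) ^ 2) (imh (a - D) ^ 3))
      (uIcc (b + D) a₂) := by
    rw [uIcc_of_le ha]
    have hh : ContinuousOn (fun a : ℝ => imh (a - D)) (Icc (b + D) a₂) := by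
      unfold imh
      refine continuousOn_const.div (by fun_prop) fun a h => ?_
      have h1 : 0 < a - D := by linarith [h.1]
      have h2 : 0 < 4 * Real.pi - (a - D) := by linarith [h.2]
      positivity
    unfold iwP
    exact ((continuousOn_const.mul hh).add (continuousOn_const.mul (hh.pow 2))).add
      (continuousOn_const.mul (hh.pow 3))
  rw [intervalIntegral.integral_eq_sub_of_hasDerivAt hder hc.intervalIntegrable]
  have : b + D - D = b := by ring
  rw [this]
  ring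

/-- **Closed form of the outer resistance.** Here `D ≥ ∫ (1 - J_F)₊`, `X ≥ ∫ ν_F`, the area is at
most `2π`, the parameters are `K` (price of `ν_F`), `b` (end of the mixed region), `d`, `um`. -/
theorem outCapZ [CompactSpace M] (C : Calc M γ) (hγ : Bd γ) (hR : RegAE C) {F : Fin 3 → M → ℝ}
    (hF : Sph γ F) (hJ : ∫ o, jac C F o ∂C.μ = 2 * Real.pi) {κ ε : ℝ} (hκ : 0 < κ)
    (hI : IsopO C κ ε) {D X K d b um : ℝ} (hD : ∫ o, max 0 (1 - jac C F o) ∂C.μ ≤ D)
    (hX : ∫ o, nuC C F o ∂C.μ ≤ X) (hK : 0 < K) (hd : 0 ≤ d) (hb : 0 < b) {a₁ : ℝ} (ha : D < a₁)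
    (hε : ε < a₁) (hab : a₁ ≤ b + D) (hbD : b + D ≤ 2 * Real.pi) (hDp : D < 2 * Real.pi)
    (hvol : C.μ.real univ ≤ 2 * Real.pi) (hu1 : izp b (a₁ - D) ≤ um * K)
    (hu2 : imh (2 * Real.pi + D) ≤ um * K)
    (hq : um / 4 + 2 * d * um + d * um ^ 2 + d ^ 2 * um ^ 3 ≤ 2 * d - 1)
    {R : ℝ} (hRR : izI κ ε K d b D a₁ + izQ K d b - izQ K d (2 * Real.pi + D) + K * X < R) :
    OutCap C a₁ R := by
  have hpi := Real.pi_pos
  have hD0 : 0 ≤ D := le_trans (integral_nonneg fun o => le_max_left _ _) hD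
  set a₂ := 2 * Real.pi with ha₂
  have hb4 : b < 4 * Real.pi := by linarith
  have hU : IsOpen {a | ε < a ∧ D < a ∧ a < 4 * Real.pi + D} :=
    (isOpen_lt continuous_const continuous_id).inter
      ((isOpen_lt continuous_const continuous_id).inter (isOpen_lt continuous_id continuous_const))
  have hψc := izψ_cont (κ := κ) (ε := ε) (K := K) (d := d) (b := b) (D := D) hκ
  have hsub : ∀ a, a₁ ≤ a → a ≤ a₂ → a ∈ {a | ε < a ∧ D < a ∧ a < 4 * Real.pi + D} :=
    fun a h1 h2 => ⟨by linarith, by linarith, by linarith⟩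
  have hint : ∀ a, a₁ ≤ a → a ≤ a₂ → IntervalIntegrable (izψ κ ε K d b D) volume a a₂ :=
    fun a h1 h2 => by
      refine ContinuousOn.intervalIntegrable ?_
      rw [uIcc_of_le h2]
      exact hψc.mono fun x hx => hsub x (h1.trans hx.1) hx.2
  set Ψ : ℝ → ℝ := fun a => ∫ s in a..a₂, izψ κ ε K d b D s with hΨ
  have hΨd : ∀ a, a₁ ≤ a → a ≤ a₂ → HasDerivAt Ψ (-izψ κ ε K d b D a) a := fun a h1 h2 =>
    intervalIntegral.integral_hasDerivAt_left (hint a h1 h2)
      (hψc.stronglyMeasurableAtFilter hU a (hsub a h1 h2))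
      (hψc.continuousAt (hU.mem_nhds (hsub a h1 h2)))
  have hΨ2 : Ψ a₂ = 0 := intervalIntegral.integral_same
  have hx1 : 0 < a₁ - D := by linarith
  refine outCapX C hγ hR hF hJ hκ hI hD hX hK hd hb (a₂ := a₂) (um := um) ha hε hDp hvol
    (by linarith) ?_ hq (Ψ := Ψ) (ψ := izψ κ ε K d b D) hΨd (fun a _ _ => le_rfl) ?_
  · intro x α h1 h2 h3
    have hx0 : 0 < x := by linarith
    have m0 := iwm_nonneg (b := b) hb hx0.le
    have m1 := iwm_le (b := b) hb hx0.le
    -- the bound at `x` itself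
    have k1 : iwm b x * imh x ≤ um * K := by
      rcases le_total x b with h | h
      · refine (iz_mh hb hb4 hx0 h).trans (le_trans ?_ hu1)
        unfold izp
        have : 0 < 4 * Real.pi - b := by linarith
        refine div_le_div_of_nonneg_right ?_ (by positivity)
        nlinarith
      · rw [iwm_one h, one_mul]
        refine imh_le hb h (h2.trans h3) (by linarith) ?_ hu2
        refine le_trans ?_ hu1
        unfold imh izp
        have hb5 : 0 < 4 * Real.pi - b := by linarith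
        rw [div_le_div_iff₀ (by positivity) (by positivity)]
        have : a₁ - D ≤ b := by linarith
        have h5 : 0 ≤ b ^ 2 - (a₁ - D) ^ 2 := by nlinarith
        have h6 : 0 ≤ (b * (4 * Real.pi - b)) * (b ^ 2 - (a₁ - D) ^ 2) := by positivity
        nlinarith
    have k2 : iwm b x * imh (2 * Real.pi + D) ≤ um * K := by
      have : 0 ≤ imh (2 * Real.pi + D) := (imh_pos (by linarith) (by linarith)).le
      calc iwm b x * imh (2 * Real.pi + D) ≤ 1 * imh (2 * Real.pi + D) :=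
            mul_le_mul_of_nonneg_right m1 this
        _ = imh (2 * Real.pi + D) := one_mul _
        _ ≤ um * K := hu2
    rcases m0.lt_or_eq with hm | hm
    · have k3 : imh α ≤ um * K / iwm b x := by
        refine imh_le hx0 h2 h3 (by linarith) ?_ ?_
        · rw [le_div_iff₀ hm]
          linarith
        · rw [le_div_iff₀ hm]
          linarith
      rw [le_div_iff₀ hm] at k3
      linarith
    · rw [← hm, zero_mul]
      have : 0 ≤ imh (2 * Real.pi + D) := (imh_pos (by linarith) (by linarith)).le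
      linarith
  · have e1 : iwW Ψ K d b D (a₂, 2 * Real.pi + D) = izQ K d (2 * Real.pi + D) - izQ K d (a₂ - D) := by
      unfold iwW iwP izQ
      simp only
      rw [hΨ2, iwm_one (by linarith : b ≤ a₂ - D)]
      ring
    have e2 : Ψ a₁ = (∫ a in a₁..(b + D), izψ κ ε K d b D a) + (izQ K d b - izQ K d (a₂ - D)) := by
      rw [← izψ_outer (κ := κ) (ε := ε) hb hbD (by linarith)]
      refine (intervalIntegral.integral_add_adjacent_intervals ?_ (hint (b + D) hab hbD)).symm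
      refine ContinuousOn.intervalIntegrable ?_
      rw [uIcc_of_le hab]
      exact hψc.mono fun x hx => hsub x hx.1 (hx.2.trans hbD)
    have e3 := izI_ge (κ := κ) (ε := ε) (K := K) (d := d) (b := b) (D := D) (a₁ := a₁) hκ hK hd hb hb4
      ha hε hab
    rw [e1, e2]
    linarith

end Pool.Agent.FPX
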