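import Mathlib

/-
FPX, IND (helper37): the stage induction of the iteration schemes, pure real analysis.
`prof C h X L = X (log (C L^2 / X) + h)` is the capacity profile of junk of mass `X` on a surface
where the map has Lipschitz constant `L`. If one stage sends `(X, L)` to `(X', L')` with
`X' ≤ q X - δ` and `L' ≤ a + b L`, as soon as the profile is at most `c`, then `δ ≤ 0`.
-/

open Filter Topology

noncomputable section

namespace Pool.Agent.FPX

/-- the capacity profile -/
def prof (C h X L : ℝ) : ℝ := X * (Real.log (C * L ^ 2 / X) + h)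

/-- the profile increases with the mass, as long as the logarithm is at least one -/
theorem prof_mono_X {C h X Y L : ℝ} (hC : 0 < C) (hL : 0 < L) (hX : 0 < X) (hXY : X ≤ Y)
    (h1 : 1 ≤ Real.log (C * L ^ 2 / Y) + h) : prof C h X L ≤ prof C h Y L := by
  have hY : 0 < Y := hX.trans_le hXY
  have hA : 0 < C * L ^ 2 := by positivity
  unfold prof
  have e1 : Real.log (C * L ^ 2 / X) = Real.log (C * L ^ 2 / Y) + Real.log (Y / X) := by
    rw [← Real.log_mul (by positivity) (by positivity)]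
    congr 1
    field_simp
  have h2 : Real.log (Y / X) ≤ Y / X - 1 := Real.log_le_sub_one_of_pos (by positivity)
  rw [e1]
  have h3 : X * Real.log (Y / X) ≤ Y - X := by
    have := mul_le_mul_of_nonneg_left h2 hX.le
    have e2 : X * (Y / X - 1) = Y - X := by field_simp
    rw [e2] at this
    exact this
  nlinarith [mul_le_mul_of_nonneg_left h1 (sub_nonneg.2 hXY)]

/-- the profile increases with the Lipschitz constant -/
theorem prof_mono_L {C h X L L' : ℝ} (hC : 0 < C) (hX : 0 ≤ X) (hL : 0 < L) (hLL : L ≤ L') :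
    prof C h X L ≤ prof C h X L' := by
  unfold prof
  rcases hX.eq_or_lt with h0 | h0
  · rw [← h0]
    simp
  · refine mul_le_mul_of_nonneg_left ?_ hX
    have : C * L ^ 2 / X ≤ C * L' ^ 2 / X := by
      refine div_le_div_of_nonneg_right ?_ hX
      refine mul_le_mul_of_nonneg_left ?_ hC.le
      exact pow_le_pow_left₀ hL.le hLL 2
    have := Real.log_le_log (by positivity) this
    linarith

/-- the bounds of stage `k` satisfy the capacity condition -/
theorem prof_le {C h c q B X0 L0 : ℝ} (hC : 0 < C) (hX0 : 0 < X0) (hL0 : 0 < L0) (hq : 0 < q)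
    (hq1 : q ≤ 1) (hB : 1 ≤ B) (h1 : 1 ≤ Real.log (C * L0 ^ 2 / X0) + h)
    (hc : prof C h X0 L0 ≤ c)
    (hqB : q * Real.log (B ^ 2 / q) ≤ (1 - q) * (Real.log (C * L0 ^ 2 / X0) + h))
    (k : ℕ) {X L : ℝ} (hX : 0 ≤ X) (hXk : X ≤ q ^ k * X0) (hL : 0 < L) (hLk : L ≤ B ^ k * L0) :
    prof C h X L ≤ c := by
  set l0 := Real.log (C * L0 ^ 2 / X0) + h with hl0
  set β := Real.log (B ^ 2 / q) with hβ
  have hβ0 : 0 ≤ β := by
    refine Real.log_nonneg ?_
    rw [le_div_iff₀ hq]
    nlinarith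
  have key : ∀ k : ℕ, q ^ k * (l0 + k * β) ≤ l0 := by
    intro k
    induction k with
    | zero => simp
    | succ n ih =>
      have hn : (0 : ℝ) ≤ n := Nat.cast_nonneg n
      have h2 : q * (l0 + (n + 1 : ℝ) * β) ≤ l0 + n * β := by
        nlinarith [mul_nonneg (sub_nonneg.2 hq1) (mul_nonneg hn hβ0)]
      have h3 : q ^ n * (q * (l0 + (n + 1 : ℝ) * β)) ≤ q ^ n * (l0 + n * β) :=
        mul_le_mul_of_nonneg_left h2 (by positivity)
      calc q ^ (n + 1) * (l0 + ((n + 1 : ℕ) : ℝ) * β) = q ^ n * (q * (l0 + (n + 1 : ℝ) * β)) := by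
            push_cast
            ring
        _ ≤ q ^ n * (l0 + n * β) := h3
        _ ≤ l0 := ih
  have hlog : Real.log (C * (B ^ k * L0) ^ 2 / (q ^ k * X0)) + h = l0 + k * β := by
    have hB0 : 0 < B := by linarith
    have e1 : C * (B ^ k * L0) ^ 2 / (q ^ k * X0) = (C * L0 ^ 2 / X0) * (B ^ 2 / q) ^ k := by
      rw [div_pow]
      field_simp
      ring
    rw [e1, Real.log_mul (by positivity) (by positivity), Real.log_pow]
    ring
  have hcap : prof C h (q ^ k * X0) (B ^ k * L0) ≤ c := by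
    unfold prof
    rw [hlog]
    have : q ^ k * X0 * (l0 + k * β) = X0 * (q ^ k * (l0 + k * β)) := by ring
    rw [this]
    refine (mul_le_mul_of_nonneg_left (key k) hX0.le).trans ?_
    have := hc
    unfold prof at this
    exact this
  have hBL : 0 < B ^ k * L0 := by positivity
  rcases hX.eq_or_lt with h0 | h0
  · have hc0 : 0 ≤ c := by
      refine le_trans ?_ hc
      unfold prof
      exact mul_nonneg hX0.le (by linarith)
    rw [← h0]
    unfold prof
    simpa using hc0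
  · refine (prof_mono_L hC hX hL hLk).trans ((prof_mono_X hC hBL h0 hXk ?_).trans hcap)
    rw [hlog]
    have : (0 : ℝ) ≤ k * β := mul_nonneg (Nat.cast_nonneg k) hβ0
    linarith

/-- the induction with an abstract capacity condition -/
theorem stage_le {S : Type*} (X L : S → ℝ) (Cap : S → Prop) {q δ B X0 L0 : ℝ} (hq : 0 < q)
    (hq1 : q < 1) (hX : ∀ s, 0 ≤ X s)
    (cap : ∀ (k : ℕ) (s : S), X s ≤ q ^ k * X0 → L s ≤ B ^ k * L0 → Cap s)
    (s0 : S) (h0X : X s0 ≤ X0) (h0L : L s0 ≤ L0)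
    (step : ∀ (k : ℕ) (s : S), L s ≤ B ^ k * L0 → Cap s →
      ∃ s', X s' ≤ q * X s - δ ∧ L s' ≤ B ^ (k + 1) * L0) : δ ≤ 0 := by
  by_contra hδ
  push Not at hδ
  have hX0 : 0 ≤ X0 := (hX s0).trans h0X
  have main : ∀ k : ℕ, ∃ s, X s ≤ q ^ k * X0 ∧ L s ≤ B ^ k * L0 := by
    intro k
    induction k with
    | zero => exact ⟨s0, by simpa using h0X, by simpa using h0L⟩
    | succ n ih =>
      obtain ⟨s, h1, h2⟩ := ih
      obtain ⟨s', h3, h4⟩ := step n s h2 (cap n s h1 h2)
      refine ⟨s', ?_, h4⟩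
      have h5 := mul_le_mul_of_nonneg_left h1 hq.le
      rw [pow_succ]
      nlinarith
  have hlim : Tendsto (fun k : ℕ => q ^ k * X0) atTop (𝓝 0) := by
    have := (tendsto_pow_atTop_nhds_zero_of_lt_one hq.le hq1).mul_const X0
    simpa using this
  obtain ⟨k, hk⟩ := (hlim.eventually (gt_mem_nhds hδ)).exists
  obtain ⟨s, h1, h2⟩ := main k
  obtain ⟨s', h3, h4⟩ := step k s h2 (cap k s h1 h2)
  have h5 := hX s'
  have h6 : q * X s ≤ X s := by nlinarith [hX s]
  linarith

/-- the stage induction: if every stage whose profile is at most `c` sends `(X, L)` to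
`X' ≤ q X - δ`, `L' ≤ a + b L`, and the first stage satisfies the numerical conditions, then
`δ ≤ 0` -/
theorem stage_closing {S : Type*} (X L : S → ℝ) {C h c q δ a b X0 L0 : ℝ} (hC : 0 < C)
    (hX0 : 0 < X0) (hL0 : 1 ≤ L0) (hq : 0 < q) (hq1 : q < 1) (ha : 0 ≤ a) (hb : 0 ≤ b)
    (hab : 1 ≤ a + b) (h1 : 1 ≤ Real.log (C * L0 ^ 2 / X0) + h) (hc : prof C h X0 L0 ≤ c)
    (hqB : q * Real.log ((a + b) ^ 2 / q) ≤ (1 - q) * (Real.log (C * L0 ^ 2 / X0) + h))
    (hX : ∀ s, 0 ≤ X s) (hL : ∀ s, 0 < L s) (s0 : S) (h0X : X s0 ≤ X0) (h0L : L s0 ≤ L0)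
    (step : ∀ s, prof C h (X s) (L s) ≤ c → ∃ s', X s' ≤ q * X s - δ ∧ L s' ≤ a + b * L s) :
    δ ≤ 0 := by
  refine stage_le X L (fun s => prof C h (X s) (L s) ≤ c) (B := a + b) (X0 := X0) (L0 := L0)
    hq hq1 hX ?_ s0 h0X h0L ?_
  · intro k s h2 h3
    exact prof_le hC hX0 (by linarith) hq hq1.le hab h1 hc hqB k (hX s) h2 (hL s) h3
  · intro k s h2 h3
    obtain ⟨s', h4, h5⟩ := step s h3
    refine ⟨s', h4, h5.trans ?_⟩
    have hk : 1 ≤ (a + b) ^ k * L0 := by
      have := one_le_pow₀ hab (n := k)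
      nlinarith
    have h6 : b * L s ≤ b * ((a + b) ^ k * L0) := mul_le_mul_of_nonneg_left h2 hb
    have h7 : a ≤ a * ((a + b) ^ k * L0) := by nlinarith
    rw [pow_succ]
    nlinarith

end Pool.Agent.FPX
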