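import Mathlib

/-
FPX, INDB (helper95): stage induction of the iteration.

`stage_ind`: if `Good v X L` (monotone in `X`, `L`) can be improved to `Good v' (q X + ε) (a + b L)`
whenever `clos X L` holds, and `clos (q'^k X₀) (L_k)` holds for all `k` for one `q < q' < 1`, then
`Good v δ L` is reached for every `δ > 0`.

`closF A B X L = X (A + log (B L² / X))`, the usual form of the closing functional (capacity of a
set of area at least `X / (N L²)`), and the condition under which it decreases along the stages.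
-/

open Real

noncomputable section

namespace Pool.Agent.FPX

/-- the Lipschitz constants of the stages -/
def Lsq (a b L₀ : ℝ) : ℕ → ℝ
  | 0 => L₀
  | (k + 1) => a + b * Lsq a b L₀ k

/-- **abstract stage induction**, from stage `0` -/
theorem stage_ind {α : Type*} {Good : α → ℝ → ℝ → Prop} {clos : ℝ → ℝ → Prop} {q q' a b X₀ L₀ : ℝ}
    (hmono : ∀ v X X' L L', Good v X L → X ≤ X' → L ≤ L' → Good v X' L')
    (hq : 0 ≤ q) (hqq : q < q') (hq1 : q' < 1) (hX₀ : 0 < X₀)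
    (hclos : ∀ k : ℕ, clos (q' ^ k * X₀) (Lsq a b L₀ k))
    (hstep : ∀ v X L, 0 < X → clos X L → Good v X L → ∀ ε > 0, ∃ v', Good v' (q * X + ε) (a + b * L))
    {v₀ : α} (h₀ : Good v₀ X₀ L₀) {δ : ℝ} (hδ : 0 < δ) : ∃ v L, Good v δ L := by
  have hq0 : 0 < q' := lt_of_le_of_lt hq hqq
  have key : ∀ k : ℕ, ∃ v, Good v (q' ^ k * X₀) (Lsq a b L₀ k) := by
    intro k
    induction k with
    | zero => exact ⟨v₀, by simpa [Lsq] using h₀⟩
    | succ k ih =>
      obtain ⟨v, hv⟩ := ih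
      have hXk : 0 < q' ^ k * X₀ := by positivity
      obtain ⟨v', hv'⟩ := hstep v _ _ hXk (hclos k) hv ((q' - q) * (q' ^ k * X₀))
        (mul_pos (by linarith) hXk)
      refine ⟨v', hmono v' _ _ _ _ hv' (le_of_eq ?_) le_rfl⟩
      rw [pow_succ]
      ring
  have hlim : Filter.Tendsto (fun k : ℕ => q' ^ k * X₀) Filter.atTop (nhds (0 * X₀)) :=
    (tendsto_pow_atTop_nhds_zero_of_lt_one hq0.le hq1).mul_const X₀
  rw [zero_mul] at hlim
  obtain ⟨k, hk⟩ := (hlim.eventually (gt_mem_nhds hδ)).exists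
  obtain ⟨v, hv⟩ := key k
  exact ⟨v, _, hmono v _ _ _ _ hv hk.le le_rfl⟩

/-- the closing functional -/
def closF (A B X L : ℝ) : ℝ := X * (A + log (B * L ^ 2 / X))

theorem Lsq_pos {a b L₀ : ℝ} (ha : 0 ≤ a) (hb : 0 < b) (hL : 0 < L₀) (k : ℕ) : 0 < Lsq a b L₀ k := by
  induction k with
  | zero => exact hL
  | succ k ih => unfold Lsq; positivity

/-- if the sequence grows at the first step, it always grows -/
theorem Lsq_mono {a b L₀ : ℝ} (hb : 0 ≤ b) (h : L₀ ≤ a + b * L₀) (k : ℕ) :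
    Lsq a b L₀ k ≤ Lsq a b L₀ (k + 1) := by
  induction k with
  | zero => simpa [Lsq] using h
  | succ k ih =>
    change a + b * Lsq a b L₀ k ≤ a + b * Lsq a b L₀ (k + 1)
    nlinarith

theorem Lsq_ge {a b L₀ : ℝ} (hb : 0 ≤ b) (h : L₀ ≤ a + b * L₀) (k : ℕ) : L₀ ≤ Lsq a b L₀ k := by
  induction k with
  | zero => exact le_rfl
  | succ k ih => exact ih.trans (Lsq_mono hb h k)

theorem Lsq_succ_le {a b L₀ : ℝ} (ha : 0 ≤ a) (hb : 0 ≤ b) (hL : 0 < L₀) (h : L₀ ≤ a + b * L₀) (k : ℕ) :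
    Lsq a b L₀ (k + 1) ≤ (b + a / L₀) * Lsq a b L₀ k := by
  have h1 := Lsq_ge hb h k
  have h2 : a ≤ a / L₀ * Lsq a b L₀ k := by
    rw [div_mul_eq_mul_div, le_div_iff₀ hL]
    exact mul_le_mul_of_nonneg_left h1 ha
  change a + b * Lsq a b L₀ k ≤ _
  nlinarith

/-- **the closing functional decreases along the stages** -/
theorem closF_succ {A B X L X' L' q b' D : ℝ} (hB : 0 < B) (hX : 0 < X) (hL : 0 < L) (hq : 0 < q)
    (hb' : 0 < b') (hD : 0 < D) (hX' : X' = q * X) (hL' : 0 < L') (hLL : L' ≤ b' * L)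
    (hDX : D ≤ A + log (B * L ^ 2 / X)) (hg : 0 ≤ log (1 / q) + 2 * log b')
    (hc : q * (1 + (log (1 / q) + 2 * log b') / D) ≤ 1) :
    closF A B X' L' ≤ closF A B X L := by
  unfold closF
  set T := A + log (B * L ^ 2 / X) with hT
  have hT0 : 0 < T := lt_of_lt_of_le hD hDX
  have e1 : log (B * L' ^ 2 / X') ≤ log (B * L ^ 2 / X) + (log (1 / q) + 2 * log b') := by
    have h1 : B * L' ^ 2 / X' ≤ B * L ^ 2 / X * (1 / q * b' ^ 2) := by
      rw [hX']
      have h2 : L' ^ 2 ≤ (b' * L) ^ 2 := by gcongr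
      have h3 : B * L ^ 2 / X * (1 / q * b' ^ 2) = B * (b' * L) ^ 2 / (q * X) := by
        field_simp
      rw [h3]
      gcongr
    have h4 := Real.log_le_log (by rw [hX']; positivity) h1
    rw [Real.log_mul (by positivity) (by positivity), Real.log_mul (by positivity) (by positivity),
      Real.log_pow] at h4
    push_cast at h4
    linarith
  have h5 : (log (1 / q) + 2 * log b') ≤ (log (1 / q) + 2 * log b') / D * T := by
    rw [div_mul_eq_mul_div, le_div_iff₀ hD]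
    exact mul_le_mul_of_nonneg_left hDX hg
  have h6 : A + log (B * L' ^ 2 / X') ≤ T * (1 + (log (1 / q) + 2 * log b') / D) := by
    have : T * (1 + (log (1 / q) + 2 * log b') / D) = T + (log (1 / q) + 2 * log b') / D * T := by ring
    rw [this]
    linarith
  have hX'0 : 0 < X' := by rw [hX']; positivity
  calc X' * (A + log (B * L' ^ 2 / X')) ≤ X' * (T * (1 + (log (1 / q) + 2 * log b') / D)) :=
        mul_le_mul_of_nonneg_left h6 hX'0.le
    _ = X * T * (q * (1 + (log (1 / q) + 2 * log b') / D)) := by rw [hX']; ring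
    _ ≤ X * T * 1 := mul_le_mul_of_nonneg_left hc (by positivity)
    _ = X * T := mul_one _

/-- the closing functional is at most its initial value at all stages -/
theorem closF_all {A B X₀ L₀ q a b : ℝ} (hB : 0 < B) (hX₀ : 0 < X₀) (hL₀ : 0 < L₀) (hq : 0 < q)
    (hq1 : q ≤ 1) (ha : 0 ≤ a) (hb : 0 < b) (hab : L₀ ≤ a + b * L₀)
    (hD : 0 < A + log (B * L₀ ^ 2 / X₀))
    (hc : q * (1 + (log (1 / q) + 2 * log (b + a / L₀)) / (A + log (B * L₀ ^ 2 / X₀))) ≤ 1) (k : ℕ) :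
    closF A B (q ^ k * X₀) (Lsq a b L₀ k) ≤ closF A B X₀ L₀ := by
  have hb' : 1 ≤ b + a / L₀ := by
    rw [← sub_nonneg]
    have : b + a / L₀ - 1 = (a + b * L₀ - L₀) / L₀ := by field_simp; ring
    rw [this]
    exact div_nonneg (by linarith) hL₀.le
  have hg : 0 ≤ log (1 / q) + 2 * log (b + a / L₀) := by
    have h1 : 0 ≤ log (1 / q) := Real.log_nonneg (by rw [le_div_iff₀ hq]; linarith)
    have h2 : 0 ≤ log (b + a / L₀) := Real.log_nonneg hb'
    linarith
  induction k with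
  | zero => simp [Lsq]
  | succ k ih =>
    refine le_trans (closF_succ (D := A + log (B * L₀ ^ 2 / X₀)) hB (X := q ^ k * X₀)
      (L := Lsq a b L₀ k) (by positivity) (Lsq_pos ha hb hL₀ k) hq (lt_of_lt_of_le one_pos hb') hD
      (by rw [pow_succ]; ring) (Lsq_pos ha hb hL₀ (k + 1)) (Lsq_succ_le ha hb.le hL₀ hab k) ?_ hg hc) ih
    have h3 := Lsq_ge hb.le hab k
    have h4 : q ^ k * X₀ ≤ X₀ := by
      have := pow_le_one₀ hq.le hq1 (n := k)
      nlinarith
    have h5 : B * L₀ ^ 2 / X₀ ≤ B * Lsq a b L₀ k ^ 2 / (q ^ k * X₀) := by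
      gcongr
    have := Real.log_le_log (by positivity) h5
    linarith

/-- **stage induction with the logarithmic closing condition** -/
theorem stage_log {α : Type*} {Good : α → ℝ → ℝ → Prop} {A B c q q' a b X₀ L₀ : ℝ}
    (hmono : ∀ v X X' L L', Good v X L → X ≤ X' → L ≤ L' → Good v X' L')
    (hq : 0 ≤ q) (hqq : q < q') (hq1 : q' < 1) (hX₀ : 0 < X₀) (hL₀ : 0 < L₀) (hB : 0 < B)
    (ha : 0 ≤ a) (hb : 0 < b) (hab : L₀ ≤ a + b * L₀)
    (hD : 0 < A + log (B * L₀ ^ 2 / X₀))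
    (hc : q' * (1 + (log (1 / q') + 2 * log (b + a / L₀)) / (A + log (B * L₀ ^ 2 / X₀))) ≤ 1)
    (h0 : closF A B X₀ L₀ ≤ c)
    (hstep : ∀ v X L, 0 < X → closF A B X L ≤ c → Good v X L →
      ∀ ε > 0, ∃ v', Good v' (q * X + ε) (a + b * L))
    {v₀ : α} (h₀ : Good v₀ X₀ L₀) {δ : ℝ} (hδ : 0 < δ) : ∃ v L, Good v δ L :=
  stage_ind (clos := fun X L => closF A B X L ≤ c) hmono hq hqq hq1 hX₀
    (fun k => (closF_all hB hX₀ hL₀ (lt_of_le_of_lt hq hqq) hq1.le ha hb hab hD hc k).trans h0)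
    hstep h₀ hδ

end Pool.Agent.FPX
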