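import Mathlib
import Pool.Agent.FPX.GOP
import Pool.Agent.FPX.KGM
import Pool.Agent.FPX.DGH

/-
KFM (helper69): `Θ = R v - g F` with functions `R`, `g` on the surface, and the K-family of helper75:
`v = -F + 2 ⟨w,F⟩ w`, `w` the direction of `(1-s) Θ + (1+s) F`.
-/

open MeasureTheory Set Filter Topology
open scoped ENNReal NNReal

noncomputable section

namespace Pool.Agent.FPX

open Pool.Agent.EWD

variable {M : Type} [MetricSpace M] {γ : ℝ → M}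

/-- derivative of `g F` -/
theorem ae_gF (C : Calc M γ) {F : Fin 3 → M → ℝ} {g : M → ℝ} (hF : ∀ k, Lip (F k)) (hg : Lip g) :
    ∀ᵐ o ∂C.μ,
      dx C (fun k x => g x * F k x) o = C.gx g o • at' C F o + g (C.pt o) • dx C F o ∧
      dy C (fun k x => g x * F k x) o = C.gy g o • at' C F o + g (C.pt o) • dy C F o := by
  have h1 : ∀ᵐ o ∂C.μ, ∀ k,
      C.gx (fun x => g x * F k x) o = g (C.pt o) * C.gx (F k) o + F k (C.pt o) * C.gx g o ∧
      C.gy (fun x => g x * F k x) o = g (C.pt o) * C.gy (F k) o + F k (C.pt o) * C.gy g o :=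
    ae_all_iff.mpr fun k => C.ae_mul hg (hF k)
  filter_upwards [h1] with o k1
  refine ⟨?_, ?_⟩
  · ext i
    fin_cases i
    · change C.gx (fun x => g x * F 0 x) o = C.gx g o * F 0 (C.pt o) + g (C.pt o) * C.gx (F 0) o
      rw [(k1 0).1]
      ring
    · change C.gx (fun x => g x * F 1 x) o = C.gx g o * F 1 (C.pt o) + g (C.pt o) * C.gx (F 1) o
      rw [(k1 1).1]
      ring
    · change C.gx (fun x => g x * F 2 x) o = C.gx g o * F 2 (C.pt o) + g (C.pt o) * C.gx (F 2) o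
      rw [(k1 2).1]
      ring
  · ext i
    fin_cases i
    · change C.gy (fun x => g x * F 0 x) o = C.gy g o * F 0 (C.pt o) + g (C.pt o) * C.gy (F 0) o
      rw [(k1 0).2]
      ring
    · change C.gy (fun x => g x * F 1 x) o = C.gy g o * F 1 (C.pt o) + g (C.pt o) * C.gy (F 1) o
      rw [(k1 1).2]
      ring
    · change C.gy (fun x => g x * F 2 x) o = C.gy g o * F 2 (C.pt o) + g (C.pt o) * C.gy (F 2) o
      rw [(k1 2).2]
      ring

/-- the integrand for `Θ = R v - g F` -/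
theorem ae_QQ_RF (C : Calc M γ) {v F T : Fin 3 → M → ℝ} {R g : M → ℝ} (hv : Sph γ v) (hF : Sph γ F)
    (hR : Lip R) (hRv : ∀ k, Lip fun x => R x * v k x) (hg : Lip g) (hgF : ∀ k, Lip fun x => g x * F k x)
    (hT : ∀ k x, T k x = R x * v k x - g x * F k x) :
    ∀ᵐ o ∂C.μ,
      dx C T o = C.gx R o • at' C v o + R (C.pt o) • dx C v o
        - (C.gx g o • at' C F o + g (C.pt o) • dx C F o) ∧
      dy C T o = C.gy R o • at' C v o + R (C.pt o) • dy C v o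
        - (C.gy g o • at' C F o + g (C.pt o) • dy C F o) ∧
      inner ℝ (at' C v o) (dx C v o) = (0 : ℝ) ∧ inner ℝ (at' C v o) (dy C v o) = (0 : ℝ) ∧
      inner ℝ (at' C F o) (dx C F o) = (0 : ℝ) ∧ inner ℝ (at' C F o) (dy C F o) = (0 : ℝ) := by
  filter_upwards [ae_QQ C (S := fun k x => g x * F k x) hv hR hRv hgF hT, ae_gF C hF.lip hg,
    ae_perp C hv, ae_perp C hF] with o h1 h2 h3 h4
  refine ⟨?_, ?_, h3.1, h3.2, h4.1, h4.2⟩
  · rw [h1.1, h2.1]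
  · rw [h1.2.1, h2.2]

/-! ### the K-family -/

/-- the vector `(1-s) Θ + (1+s) F` -/
def KW (q : Q3) : E3 := (1 - q.1) • q.2.1 + (1 + q.1) • q.2.2

/-- the reflection of `F` in the direction of `KW` -/
def KG (q : Q3) : E3 := -q.2.2 + (2 * inner ℝ (KW q) q.2.2 / ‖KW q‖ ^ 2 : ℝ) • KW q

/-- exit functions for the K-family -/
structure KPin where
  m : Q3 → ℝ
  cm : Continuous m
  evm : ∀ q : Q3, m (q.1, (-q.2.1, -q.2.2)) = m q
  pos : ∀ q : Q3, ‖q.2.2‖ = 1 → 0 < m q → 0 < (inner ℝ (KW q) q.2.2 : ℝ)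

theorem KW_neg (q : Q3) : KW (q.1, (-q.2.1, -q.2.2)) = -KW q := by
  unfold KW
  simp only [smul_neg]
  abel

theorem KW_ne {q : Q3} (h : 0 < (inner ℝ (KW q) q.2.2 : ℝ)) : KW q ≠ 0 := by
  intro h0
  rw [h0, inner_zero_left] at h
  exact lt_irrefl _ h

theorem KG_smooth {q : Q3} (h : KW q ≠ 0) : ContDiffAt ℝ 1 KG q := by
  have hW : ContDiff ℝ 1 KW := by
    unfold KW
    fun_prop
  have hn : ‖KW q‖ ^ 2 ≠ 0 := by
    have := norm_ne_zero_iff.2 h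
    positivity
  have h1 : ContDiffAt ℝ 1 (fun q : Q3 => (inner ℝ (KW q) q.2.2 : ℝ)) q :=
    (hW.contDiffAt).inner ℝ (by fun_prop)
  have h2 : ContDiffAt ℝ 1 (fun q : Q3 => ‖KW q‖ ^ 2) q := (hW.contDiffAt).norm_sq ℝ
  have h3 : ContDiffAt ℝ 1 (fun q : Q3 => (2 * inner ℝ (KW q) q.2.2 / ‖KW q‖ ^ 2 : ℝ)) q :=
    (contDiffAt_const.mul h1).div h2 hn
  have h4 : ContDiffAt ℝ 1 (fun q : Q3 => -q.2.2) q := by fun_prop
  exact h4.add (h3.smul hW.contDiffAt)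

theorem KG_unit {q : Q3} (hf : ‖q.2.2‖ = 1) (h : KW q ≠ 0) : ‖KG q‖ = 1 := by
  have hn : ‖KW q‖ ≠ 0 := norm_ne_zero_iff.2 h
  have h1 : ‖KG q‖ ^ 2 = 1 ^ 2 := by
    unfold KG
    rw [norm_add_sq_real, norm_neg, hf, norm_smul, mul_pow, inner_smul_right, inner_neg_left,
      real_inner_comm (KW q) q.2.2, Real.norm_eq_abs, sq_abs]
    field_simp
    ring
  exact (pow_left_inj₀ (norm_nonneg _) zero_le_one two_ne_zero).1 h1

/-- the K-family as a local operator -/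
def KPin.op (P : KPin) : LOp where
  G := KG
  m := P.m
  cm := P.cm
  smooth := fun q hq hm => KG_smooth (KW_ne (P.pos q hq hm))
  unit := fun q hq hm => KG_unit hq (KW_ne (P.pos q hq hm))
  oddG := fun q _ _ => by
    change -(-q.2.2) + (2 * inner ℝ (KW (q.1, (-q.2.1, -q.2.2))) (-q.2.2)
      / ‖KW (q.1, (-q.2.1, -q.2.2))‖ ^ 2 : ℝ) • KW (q.1, (-q.2.1, -q.2.2)) = -KG q
    rw [KW_neg, inner_neg_neg, norm_neg]
    unfold KG
    module
  evm := P.evm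

/-- the radius `R` -/
def kRq (q : Q3) : ℝ := ‖KW q‖ ^ 2 / (2 * (1 - q.1) * inner ℝ (KW q) q.2.2)

/-- the coefficient `g = (1+s)/(1-s) - R` -/
def kgq (q : Q3) : ℝ := (1 + q.1) / (1 - q.1) - kRq q

theorem KG_eq {q : Q3} (hs : q.1 < 1) (h : 0 < (inner ℝ (KW q) q.2.2 : ℝ)) :
    q.2.1 = kRq q • KG q - kgq q • q.2.2 := by
  have h1 : 0 < 1 - q.1 := by linarith
  have hn : ‖KW q‖ ≠ 0 := norm_ne_zero_iff.2 (KW_ne h)
  have e1 : kRq q * (2 * inner ℝ (KW q) q.2.2 / ‖KW q‖ ^ 2) = 1 / (1 - q.1) := by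
    unfold kRq
    field_simp
  have e2 : kRq q • KG q - kgq q • q.2.2
      = (kRq q * (2 * inner ℝ (KW q) q.2.2 / ‖KW q‖ ^ 2) : ℝ) • KW q - ((1 + q.1) / (1 - q.1)) • q.2.2 := by
    unfold KG kgq
    module
  rw [e2, e1]
  unfold KW
  rw [smul_add, smul_smul, smul_smul]
  have e3 : 1 / (1 - q.1) * (1 - q.1) = 1 := by field_simp
  have e4 : 1 / (1 - q.1) * (1 + q.1) = (1 + q.1) / (1 - q.1) := by ring
  rw [e3, e4, one_smul, add_sub_cancel_right]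

/-- `1 + ⟨v,F⟩ > 0` -/
theorem KG_inner {q : Q3} (hf : ‖q.2.2‖ = 1) (h : 0 < (inner ℝ (KW q) q.2.2 : ℝ)) :
    0 < 1 + (inner ℝ (KG q) q.2.2 : ℝ) := by
  have hn : 0 < ‖KW q‖ := norm_pos_iff.2 (KW_ne h)
  have e : (inner ℝ (KG q) q.2.2 : ℝ) = -1 + 2 * inner ℝ (KW q) q.2.2 ^ 2 / ‖KW q‖ ^ 2 := by
    unfold KG
    rw [inner_add_left, inner_neg_left, real_inner_self_eq_norm_sq, hf, inner_smul_left]
    simp only [conj_trivial]
    ring
  rw [e]
  have : 0 < 2 * (inner ℝ (KW q) q.2.2 : ℝ) ^ 2 / ‖KW q‖ ^ 2 := by positivity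
  linarith

/-! ### the surface -/

/-- the radius along the surface -/
def kR (F : Fin 3 → M → ℝ) (s : ℝ) (T : Fin 3 → M → ℝ) (x : M) : ℝ := kRq (pnt F s T x)

/-- the coefficient along the surface -/
def kg (F : Fin 3 → M → ℝ) (s : ℝ) (T : Fin 3 → M → ℝ) (x : M) : ℝ := kgq (pnt F s T x)

/-- the map -/
def kv (F : Fin 3 → M → ℝ) (s : ℝ) (T : Fin 3 → M → ℝ) (k : Fin 3) (x : M) : ℝ := KG (pnt F s T x) k

/-- the components of `KW` -/
def kW (F : Fin 3 → M → ℝ) (s : ℝ) (T : Fin 3 → M → ℝ) (k : Fin 3) (x : M) : ℝ :=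
  (1 - s) * T k x + (1 + s) * F k x

omit [MetricSpace M] in
theorem KW_pnt (F : Fin 3 → M → ℝ) (s : ℝ) (T : Fin 3 → M → ℝ) (x : M) :
    KW (pnt F s T x) = vv (n := 0) (kW F s T) x := by
  ext k
  fin_cases k <;> rfl

theorem kW_lip {F T : Fin 3 → M → ℝ} (hF : ∀ k, Lip (F k)) (hT : ∀ k, Lip (T k)) (s : ℝ) (k : Fin 3) :
    Lip (kW F s T k) := (Lip.const_mul (hT k) (1 - s)).add (Lip.const_mul (hF k) (1 + s))

omit [MetricSpace M] in
theorem kR_eq (F : Fin 3 → M → ℝ) (s : ℝ) (T : Fin 3 → M → ℝ) (x : M) : kR F s T x =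
    (kW F s T 0 x ^ 2 + kW F s T 1 x ^ 2 + kW F s T 2 x ^ 2)
      / (2 * (1 - s) * (kW F s T 0 x * F 0 x + kW F s T 1 x * F 1 x + kW F s T 2 x * F 2 x)) := by
  unfold kR kRq
  rw [KW_pnt, normsq3, inner3]
  rfl

omit [MetricSpace M] in
theorem kv_eq {F T : Fin 3 → M → ℝ} {s : ℝ} (hs : s < 1) {x : M}
    (h : 0 < (inner ℝ (KW (pnt F s T x)) (vv (n := 0) F x) : ℝ)) (k : Fin 3) :
    T k x = kR F s T x * kv F s T k x - kg F s T x * F k x := by
  have h1 := congrArg (fun y : E3 => y k) (KG_eq (q := pnt F s T x) hs h)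
  have e1 : (pnt F s T x).2.1 k = T k x := by fin_cases k <;> rfl
  have e2 : (kRq (pnt F s T x) • KG (pnt F s T x) - kgq (pnt F s T x) • (pnt F s T x).2.2) k
      = kR F s T x * kv F s T k x - kg F s T x * F k x := by
    have e3 : (pnt F s T x).2.2 k = F k x := by fin_cases k <;> rfl
    rw [PiLp.sub_apply, PiLp.smul_apply, PiLp.smul_apply, smul_eq_mul, smul_eq_mul, e3]
    rfl
  exact e1.symm.trans (h1.trans e2)

omit [MetricSpace M] in
theorem kg_eq (F : Fin 3 → M → ℝ) (s : ℝ) (T : Fin 3 → M → ℝ) (x : M) :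
    kg F s T x = (1 + s) / (1 - s) - kR F s T x := rfl

section
variable [CompactSpace M]

/-- `R` is Lipschitz -/
theorem kR_lip {F T : Fin 3 → M → ℝ} (hF : ∀ k, Lip (F k)) (hT : ∀ k, Lip (T k)) {s : ℝ} (hs : s < 1)
    {c : ℝ} (hc : 0 < c) (h : ∀ x, c ≤ (inner ℝ (KW (pnt F s T x)) (vv (n := 0) F x) : ℝ)) :
    Lip (kR F s T) := by
  have hW := kW_lip hF hT s
  have h1 : Lip fun x => kW F s T 0 x * kW F s T 0 x + kW F s T 1 x * kW F s T 1 x
      + kW F s T 2 x * kW F s T 2 x :=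
    (((hW 0).mul (hW 0)).add ((hW 1).mul (hW 1))).add ((hW 2).mul (hW 2))
  have h2 : Lip fun x => 2 * (1 - s) * (kW F s T 0 x * F 0 x + kW F s T 1 x * F 1 x
      + kW F s T 2 x * F 2 x) :=
    Lip.const_mul ((((hW 0).mul (hF 0)).add ((hW 1).mul (hF 1))).add ((hW 2).mul (hF 2))) _
  have hc2 : 0 < 2 * (1 - s) * c := mul_pos (mul_pos two_pos (by linarith)) hc
  have h3 := h1.div h2 hc2 fun x => by
    have h4 := h x
    rw [KW_pnt, inner3] at h4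
    exact mul_le_mul_of_nonneg_left h4 (mul_nonneg zero_le_two (by linarith))
  have e : kR F s T = fun x => (kW F s T 0 x * kW F s T 0 x + kW F s T 1 x * kW F s T 1 x
      + kW F s T 2 x * kW F s T 2 x) / (2 * (1 - s) * (kW F s T 0 x * F 0 x + kW F s T 1 x * F 1 x
      + kW F s T 2 x * F 2 x)) := funext fun x => by
    rw [kR_eq]
    congr 1
    ring
  rw [e]
  exact h3

theorem kg_lip {F T : Fin 3 → M → ℝ} (hF : ∀ k, Lip (F k)) (hT : ∀ k, Lip (T k)) {s : ℝ} (hs : s < 1)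
    {c : ℝ} (hc : 0 < c) (h : ∀ x, c ≤ (inner ℝ (KW (pnt F s T x)) (vv (n := 0) F x) : ℝ)) :
    Lip (kg F s T) :=
  (lip_const (M := M) ((1 + s) / (1 - s))).sub (kR_lip hF hT hs hc h)

/-- derivatives for the K-family: `dg = -dR` -/
theorem ae_K (C : Calc M γ) {F T : Fin 3 → M → ℝ} (hF : Sph γ F) (hT : ∀ k, Lip (T k)) {s : ℝ}
    (hs : s < 1) (hv : Sph γ (kv F s T)) {c : ℝ} (hc : 0 < c)
    (h : ∀ x, c ≤ (inner ℝ (KW (pnt F s T x)) (vv (n := 0) F x) : ℝ)) :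
    ∀ᵐ o ∂C.μ,
      C.gx (kR F s T) o = -C.gx (kg F s T) o ∧ C.gy (kR F s T) o = -C.gy (kg F s T) o ∧
      dx C T o = (-C.gx (kg F s T) o) • at' C (kv F s T) o
        + kR F s T (C.pt o) • dx C (kv F s T) o
        - (C.gx (kg F s T) o • at' C F o + kg F s T (C.pt o) • dx C F o) ∧
      dy C T o = (-C.gy (kg F s T) o) • at' C (kv F s T) o
        + kR F s T (C.pt o) • dy C (kv F s T) o
        - (C.gy (kg F s T) o • at' C F o + kg F s T (C.pt o) • dy C F o) ∧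
      inner ℝ (at' C (kv F s T) o) (dx C (kv F s T) o) = (0 : ℝ) ∧
      inner ℝ (at' C (kv F s T) o) (dy C (kv F s T) o) = (0 : ℝ) ∧
      inner ℝ (at' C F o) (dx C F o) = (0 : ℝ) ∧ inner ℝ (at' C F o) (dy C F o) = (0 : ℝ) := by
  have hR := kR_lip hF.lip hT hs hc h
  have hg := kg_lip hF.lip hT hs hc h
  have h1 : ∀ᵐ o ∂C.μ, C.gx (kg F s T) o = -C.gx (kR F s T) o ∧
      C.gy (kg F s T) o = -C.gy (kR F s T) o := by
    have e : kg F s T = fun x => (1 + s) / (1 - s) - kR F s T x := rfl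
    filter_upwards [C.ae_sub (lip_const (M := M) ((1 + s) / (1 - s))) hR] with o ho
    have hc0 := C.ae_const ((1 + s) / (1 - s)) o
    rw [hc0.1, hc0.2] at ho
    rw [e, ho.1, ho.2]
    constructor <;> ring
  filter_upwards [h1, ae_QQ_RF C hv hF hR (fun k => hR.mul (hv.lip k)) hg
    (fun k => hg.mul (hF.lip k)) (fun k x => kv_eq hs (hc.trans_le (h x)) k)] with o k1 k2
  obtain ⟨k3, k4, k5, k6, k7, k8⟩ := k2
  have e1 : C.gx (kR F s T) o = -C.gx (kg F s T) o := by linarith [k1.1]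
  have e2 : C.gy (kR F s T) o = -C.gy (kg F s T) o := by linarith [k1.2]
  rw [e1] at k3
  rw [e2] at k4
  exact ⟨e1, e2, k3, k4, k5, k6, k7, k8⟩

/-- `τ² = (1-z)/(1+z)`, the square of the tangent of half the angle between `v` and `F` -/
def tau2 (v F : E3) : ℝ := (1 - inner ℝ v F) / (1 + inner ℝ v F)

/-- the bound of the integrand for the K-family -/
theorem ae_QQ_K (C : Calc M γ) {F T : Fin 3 → M → ℝ} (hF : Sph γ F) (hT : ∀ k, Lip (T k)) {s : ℝ}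
    (hs : s < 1) (hv : Sph γ (kv F s T)) {c : ℝ} (hc : 0 < c)
    (h : ∀ x, c ≤ (inner ℝ (KW (pnt F s T x)) (vv (n := 0) F x) : ℝ))
    (hD : ∀ x, tau2 (vv (n := 0) (kv F s T) x) (vv (n := 0) F x) < (kR F s T x + 1) ^ 2 - 3) :
    ∀ᵐ o ∂C.μ, -(6 * kg F s T (C.pt o) ^ 2 / ((kR F s T (C.pt o) + 1) ^ 2 - 3
        - tau2 (at' C (kv F s T) o) (at' C F o))) * ‖qm (at' C F o) (dx C F o) (dy C F o)‖ ^ 2
      ≤ QQ C (kv F s T) T o := by
  filter_upwards [ae_K C hF hT hs hv hc h] with o ho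
  obtain ⟨-, -, h3, h4, h5, h6, h7, h8⟩ := ho
  have hz : 0 < 1 + (inner ℝ (at' C (kv F s T) o) (at' C F o) : ℝ) := by
    have := KG_inner (q := pnt F s T (C.pt o)) (norm_vv hF _) (hc.trans_le (h _))
    have e : at' C (kv F s T) o = KG (pnt F s T (C.pt o)) := by
      ext k
      fin_cases k <;> rfl
    rw [e]
    exact this
  unfold QQ
  rw [h3, h4]
  exact Qd_K (norm_at hv o) (norm_at hF o) hz h5 h6 h7 h8 _ _ _ _ (hD (C.pt o))

variable [Nonempty M]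

/-- **PINNED FIXED POINTS IN THE K-FAMILY.** -/
theorem kfix (P : KPin) {c : ℝ} (hc : 0 < c)
    (h1 : ∀ t f : E3, ‖t‖ ≤ 7 → ‖f‖ = 1 → c < P.m (1, (t, f))) : ∃ L : ℝ≥0,
    ∀ (C : Calc M γ) (_ : Bd γ) (_ : RegAE C) {F : Fin 3 → M → ℝ} (_ : Sph γ F)
    {LF : ℝ≥0} (_ : ∀ k, LipschitzWith LF (F k)) {ε : ℝ} (_ : 0 < ε),
    ∃ (G : Fam γ) (s : ℝ), 0 ≤ s ∧ s < 1 ∧ Pre γ G.Th ∧ (∀ x, c ≤ P.m (pnt F s G.Th x)) ∧
      (s = 0 ∨ ∃ x, P.m (pnt F s G.Th x) = c) ∧ Sph γ (kv F s G.Th) ∧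
      (∀ k, LipschitzWith (L * (2 * (3 + LF))) (kv F s G.Th k)) ∧
      (∃ c' > 0, ∀ x, c' ≤ (inner ℝ (KW (pnt F s G.Th x)) (vv (n := 0) F x) : ℝ)) ∧
      ∫ o, jac C (kv F s G.Th) o ∂C.μ = ∫ o, jac C F o ∂C.μ ∧
      Real.pi ^ 2 - ε ≤ ∫ p, Flux C (G.f p) (kv F s G.Th) p ∂PP := by
  obtain ⟨L, hL⟩ := gop_fix (M := M) (γ := γ) P.op hc h1
  refine ⟨L, fun C hγ hR F hF LF hLF ε hε => ?_⟩
  obtain ⟨G, s, hs0, hs1, hpre, hm, hx, hsph, hlip, hfl⟩ := hL C hγ hR hF hLF hε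
  have hv : Sph γ (kv F s G.Th) := hsph
  have hpos : ∀ x, 0 < (inner ℝ (KW (pnt F s G.Th x)) (vv (n := 0) F x) : ℝ) := fun x =>
    P.pos _ (norm_vv hF x) (hc.trans_le (hm x))
  refine ⟨G, s, hs0, hs1, hpre, hm, hx, hv, hlip, ?_, ?_, hfl⟩
  · have hcont : Continuous fun x => (inner ℝ (KW (pnt F s G.Th x)) (vv (n := 0) F x) : ℝ) := by
      have hp := pnt_cont hLF hpre s
      have hW : Continuous KW := by
        unfold KW
        fun_prop
      have h2 : Continuous fun x => (pnt F s G.Th x).2.2 :=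
        (continuous_snd.comp continuous_snd).comp hp
      exact (hW.comp hp).inner h2
    obtain ⟨x, hx⟩ := mn_mem hcont
    exact ⟨_, hpos x, fun y => by rw [hx]; exact mn_le hcont y⟩
  · refine jac_eq_jac C hv hF fun x => ?_
    have e : vv (n := 0) (kv F s G.Th) x = KG (pnt F s G.Th x) := by
      ext k
      fin_cases k <;> rfl
    rw [e]
    exact KG_inner (norm_vv hF x) (hpos x)

end

end Pool.Agent.FPX
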