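import Mathlib
import Pool.Agent.FPX.VHW

/-
KHJ (helper95): core certificates (`CoreD`, helper91) from a solution `r (a, ω)` of a Hamilton-Jacobi
inequality. `lcN μ u B a = ∫₀^B min (μ {u > s}) a ds` is the largest charge of a set of measure `a`.
-/

open MeasureTheory Set Filter Topology
open scoped ENNReal NNReal

noncomputable section

namespace Pool.Agent.FPX

section lc

variable {Ω : Type*} [MeasurableSpace Ω] {μ : Measure Ω} [IsFiniteMeasure μ]

/-- the largest charge of the sets of measure `a` -/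
def lcN (μ : Measure Ω) (u : Ω → ℝ) (B a : ℝ) : ℝ :=
  ∫ s in (0 : ℝ)..B, min (μ.real {o | s < u o}) (max a 0)

theorem lc_anti (u : Ω → ℝ) : Antitone fun s : ℝ => μ.real {o | s < u o} := fun s t hst =>
  measureReal_mono (fun o (ho : t < u o) => lt_of_le_of_lt hst ho)

theorem lc_le (u : Ω → ℝ) (s : ℝ) : μ.real {o | s < u o} ≤ μ.real univ :=
  measureReal_mono (subset_univ _)

theorem lc_anti2 (u : Ω → ℝ) (a : ℝ) : Antitone fun s : ℝ => min (μ.real {o | s < u o}) (max a 0) :=
  fun _ _ hst => min_le_min (lc_anti u hst) le_rfl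

theorem lc_int (u : Ω → ℝ) (a x y : ℝ) :
    IntervalIntegrable (fun s : ℝ => min (μ.real {o | s < u o}) (max a 0)) volume x y :=
  (lc_anti2 u a).intervalIntegrable

theorem lc_zero {u : Ω → ℝ} {B s : ℝ} (hu : ∀ᵐ o ∂μ, u o ≤ B) (hs : B ≤ s) : μ.real {o | s < u o} = 0 := by
  have : μ {o | s < u o} = 0 := by
    refine measure_mono_null (fun o (ho : s < u o) => ?_) (ae_iff.1 hu)
    exact not_le.2 (lt_of_le_of_lt hs ho)
  rw [Measure.real, this]
  simp

theorem lcN_ext {u : Ω → ℝ} {B B' : ℝ} (hu : ∀ᵐ o ∂μ, u o ≤ B) (hB : B ≤ B') (a : ℝ) :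
    lcN μ u B' a = lcN μ u B a := by
  unfold lcN
  rw [← intervalIntegral.integral_add_adjacent_intervals (lc_int u a 0 B) (lc_int u a B B')]
  have h : ∫ s in B..B', min (μ.real {o | s < u o}) (max a 0) = ∫ s in B..B', (0 : ℝ) := by
    refine intervalIntegral.integral_congr fun s hs => ?_
    rw [uIcc_of_le hB] at hs
    change min (μ.real {o | s < u o}) (max a 0) = 0
    rw [lc_zero hu hs.1, min_eq_left (le_max_right _ _)]
  rw [h]
  simp

theorem lcN_mono {u : Ω → ℝ} {B : ℝ} (hB : 0 ≤ B) : Monotone (lcN μ u B) := fun a b hab =>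
  intervalIntegral.integral_mono_on hB (lc_int u a 0 B) (lc_int u b 0 B) fun _ _ =>
    min_le_min le_rfl (max_le_max hab le_rfl)

theorem lcN_zero {u : Ω → ℝ} {B a : ℝ} (ha : a ≤ 0) : lcN μ u B a = 0 := by
  unfold lcN
  rw [max_eq_right ha]
  have : ∀ s : ℝ, min (μ.real {o | s < u o}) (0 : ℝ) = 0 := fun s => min_eq_right measureReal_nonneg
  simp [this]

theorem lcN_nonneg {u : Ω → ℝ} {B a : ℝ} (hB : 0 ≤ B) : 0 ≤ lcN μ u B a :=
  intervalIntegral.integral_nonneg hB fun _ _ => le_min measureReal_nonneg (le_max_right _ _)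

theorem lcN_lip {u : Ω → ℝ} {B : ℝ} (hB : 0 ≤ B) (x y : ℝ) (hxy : x ≤ y) :
    lcN μ u B y ≤ lcN μ u B x + B * (y - x) := by
  have h : lcN μ u B y ≤ ∫ s in (0 : ℝ)..B, (min (μ.real {o | s < u o}) (max x 0) + (y - x)) := by
    refine intervalIntegral.integral_mono_on hB (lc_int u y 0 B)
      ((lc_int u x 0 B).add (by simp)) fun s _ => ?_
    have h1 : max y 0 ≤ max x 0 + (y - x) := by
      rcases le_total y 0 with h | h
      · rw [max_eq_right h]
        have := le_max_right x 0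
        linarith
      · rw [max_eq_left h]
        have := le_max_left x 0
        linarith
    rcases le_total (μ.real {o | s < u o}) (max x 0) with h2 | h2
    · rw [min_eq_left h2]
      exact (min_le_left _ _).trans (by linarith)
    · rw [min_eq_right h2]
      exact (min_le_right _ _).trans h1
  refine h.trans (le_of_eq ?_)
  rw [intervalIntegral.integral_add (lc_int u x 0 B) (by simp)]
  simp only [intervalIntegral.integral_const, smul_eq_mul, sub_zero]
  rfl

theorem lcN_le {u : Ω → ℝ} {B a : ℝ} (hB : 0 ≤ B) (ha : 0 ≤ a) : lcN μ u B a ≤ B * a := by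
  have h := lcN_lip (μ := μ) (u := u) hB 0 a ha
  rw [lcN_zero le_rfl] at h
  linarith

theorem lcN_cont {u : Ω → ℝ} {B : ℝ} (hB : 0 ≤ B) : Continuous (lcN μ u B) := by
  refine (LipschitzWith.of_dist_le_mul (K := B.toNNReal) fun x y => ?_).continuous
  rw [Real.dist_eq, Real.dist_eq, Real.coe_toNNReal B hB]
  have hm := lcN_mono (μ := μ) (u := u) hB
  rcases le_total x y with h1 | h1
  · rw [abs_sub_comm, abs_of_nonneg (sub_nonneg.2 (hm h1)), abs_sub_comm,
      abs_of_nonneg (sub_nonneg.2 h1)]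
    linarith [lcN_lip (μ := μ) (u := u) hB x y h1]
  · rw [abs_of_nonneg (sub_nonneg.2 (hm h1)), abs_of_nonneg (sub_nonneg.2 h1)]
    linarith [lcN_lip (μ := μ) (u := u) hB y x h1]

/-- layer cake -/
theorem lc_cake {u : Ω → ℝ} {B : ℝ} (hu0 : ∀ᵐ o ∂μ, 0 ≤ u o) (hu : ∀ᵐ o ∂μ, u o ≤ B) (hB : 0 ≤ B)
    (iu : Integrable u μ) : ∫ o, u o ∂μ = ∫ s in (0 : ℝ)..B, μ.real {o | s < u o} := by
  rw [iu.integral_eq_integral_meas_lt hu0, intervalIntegral.integral_of_le hB]
  have h1 : ∫ t in Ioi (0 : ℝ), μ.real {a | t < u a} =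
      (∫ t in Ioc (0 : ℝ) B, μ.real {a | t < u a}) + ∫ t in Ioi B, μ.real {a | t < u a} := by
    rw [← Ioc_union_Ioi_eq_Ioi hB]
    refine setIntegral_union (Ioc_disjoint_Ioi le_rfl) measurableSet_Ioi ?_ ?_
    · exact ((lc_anti (μ := μ) u).intervalIntegrable (a := 0) (b := B)).1
    · refine IntegrableOn.congr_fun (f := fun _ => (0 : ℝ)) (integrable_zero _ _ _) (fun s hs => ?_)
        measurableSet_Ioi
      exact (lc_zero hu (le_of_lt hs)).symm
  rw [h1]
  have h2 : ∫ t in Ioi B, μ.real {a | t < u a} = 0 := by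
    rw [setIntegral_congr_fun (g := fun _ => (0 : ℝ)) measurableSet_Ioi fun s hs => ?_]
    · simp
    · exact lc_zero hu (le_of_lt hs)
  rw [h2, add_zero]

theorem lcN_le_int {u : Ω → ℝ} {B : ℝ} (hu0 : ∀ᵐ o ∂μ, 0 ≤ u o) (hu : ∀ᵐ o ∂μ, u o ≤ B) (hB : 0 ≤ B)
    (iu : Integrable u μ) (a : ℝ) : lcN μ u B a ≤ ∫ o, u o ∂μ := by
  rw [lc_cake hu0 hu hB iu]
  exact intervalIntegral.integral_mono_on hB (lc_int u a 0 B) (lc_anti u).intervalIntegrable
    fun _ _ => min_le_left _ _

/-- the charge of a set -/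
theorem lcN_charge {u : Ω → ℝ} {B : ℝ} (hu0 : ∀ᵐ o ∂μ, 0 ≤ u o) (hu : ∀ᵐ o ∂μ, u o ≤ B) (hB : 0 ≤ B)
    (iu : Integrable u μ) (S : Set Ω) :
    ∫ o in S, u o ∂μ ≤ lcN μ u B (μ.real S) := by
  rw [lc_cake (ae_restrict_of_ae hu0) (ae_restrict_of_ae hu) hB iu.integrableOn]
  refine intervalIntegral.integral_mono_on hB (lc_anti u).intervalIntegrable
    (lc_int u _ 0 B) fun s _ => le_min ?_ ?_
  · exact ENNReal.toReal_mono (measure_ne_top _ _) (Measure.restrict_apply_le _ _)
  · refine le_max_of_le_left ?_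
    have h1 := lc_le (μ := μ.restrict S) u s
    refine h1.trans (le_of_eq ?_)
    rw [Measure.real, Measure.restrict_apply_univ, Measure.real]

/-- the increment over `[a, b]` as an integral -/
theorem lcN_sub {u : Ω → ℝ} {B : ℝ} (a b : ℝ) : lcN μ u B b - lcN μ u B a =
    ∫ s in (0 : ℝ)..B, (min (μ.real {o | s < u o}) (max b 0) - min (μ.real {o | s < u o}) (max a 0)) := by
  unfold lcN
  rw [intervalIntegral.integral_sub (lc_int u b 0 B) (lc_int u a 0 B)]

/-- the monotone function of the increment -/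
def clp (a b m : ℝ) : ℝ := min m (max b 0) - min m (max a 0)

theorem clp_mono {a b : ℝ} (hab : a ≤ b) : Monotone (clp a b) := by
  intro m m' h
  unfold clp
  have hab' : max a 0 ≤ max b 0 := max_le_max hab le_rfl
  generalize max a 0 = x at *
  generalize max b 0 = y at *
  rcases le_total m x with h1 | h1 <;> rcases le_total m' x with h2 | h2 <;>
    rcases le_total m y with h3 | h3 <;> rcases le_total m' y with h4 | h4 <;>
    simp only [min_eq_left, min_eq_right, h1, h2, h3, h4] <;> linarith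

theorem clp_le {a b : ℝ} (ha : 0 ≤ a) (hab : a ≤ b) (m : ℝ) : clp a b m ≤ b - a := by
  unfold clp
  rw [max_eq_left ha, max_eq_left (ha.trans hab)]
  rcases le_total m a with h1 | h1
  · rw [min_eq_left h1, min_eq_left (h1.trans hab)]
    linarith
  · rw [min_eq_right h1]
    have := min_le_right m b
    linarith

theorem clp_zero {a b : ℝ} : clp a b 0 = 0 := by
  unfold clp
  rw [min_eq_left (le_max_right _ _), min_eq_left (le_max_right _ _), sub_zero]

theorem clp_nonneg {a b m : ℝ} (hab : a ≤ b) (hm : 0 ≤ m) : 0 ≤ clp a b m := by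
  have := clp_mono hab hm
  rwa [clp_zero] at this

/-- **comparison of the increments** -/
theorem lcN_incr {u v : Ω → ℝ} {Bu Bv p c : ℝ} (hBu : 0 ≤ Bu) (hBv : 0 ≤ Bv) (hp : 0 ≤ p) (hc : 0 ≤ c)
    (hv : ∀ᵐ o ∂μ, v o ≤ Bv)
    (h : ∀ᵐ o ∂μ, u o ≤ p * v o + c) {a b : ℝ} (ha : 0 ≤ a) (hab : a ≤ b) :
    lcN μ u Bu b - lcN μ u Bu a ≤ p * (lcN μ v Bv b - lcN μ v Bv a) + c * (b - a) := by
  rw [lcN_sub, lcN_sub]
  change ∫ s in (0 : ℝ)..Bu, clp a b (μ.real {o | s < u o}) ≤
    p * (∫ s in (0 : ℝ)..Bv, clp a b (μ.real {o | s < v o})) + c * (b - a)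
  have anti : ∀ w : Ω → ℝ, Antitone fun s : ℝ => clp a b (μ.real {o | s < w o}) := fun w =>
    (clp_mono hab).comp_antitone (lc_anti w)
  have nonneg : ∀ (w : Ω → ℝ) (s : ℝ), 0 ≤ clp a b (μ.real {o | s < w o}) := fun w s =>
    clp_nonneg hab measureReal_nonneg
  have ii : ∀ (w : Ω → ℝ) (x y : ℝ), IntervalIntegrable (fun s : ℝ => clp a b (μ.real {o | s < w o}))
      volume x y := fun w x y => (anti w).intervalIntegrable
  -- a common upper limit
  set U : ℝ := max (max Bu c) (c + p * Bv) with hU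
  have hU1 : Bu ≤ U := (le_max_left _ _).trans (le_max_left _ _)
  have hU2 : c ≤ U := (le_max_right _ _).trans (le_max_left _ _)
  have hU3 : c + p * Bv ≤ U := le_max_right _ _
  have e1 : ∫ s in (0 : ℝ)..Bu, clp a b (μ.real {o | s < u o}) ≤
      ∫ s in (0 : ℝ)..U, clp a b (μ.real {o | s < u o}) := by
    rw [← intervalIntegral.integral_add_adjacent_intervals (ii u 0 Bu) (ii u Bu U)]
    have : 0 ≤ ∫ s in Bu..U, clp a b (μ.real {o | s < u o}) :=
      intervalIntegral.integral_nonneg hU1 fun s _ => nonneg u s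
    linarith
  have e2 : ∫ s in (0 : ℝ)..c, clp a b (μ.real {o | s < u o}) ≤ c * (b - a) := by
    have h1 : ∫ s in (0 : ℝ)..c, clp a b (μ.real {o | s < u o}) ≤ ∫ s in (0 : ℝ)..c, (b - a) :=
      intervalIntegral.integral_mono_on hc (ii u 0 c) (by simp) fun s _ => clp_le ha hab _
    rw [intervalIntegral.integral_const, smul_eq_mul, sub_zero] at h1
    exact h1
  have e3 : ∫ s in c..U, clp a b (μ.real {o | s < u o}) ≤
      p * ∫ s in (0 : ℝ)..Bv, clp a b (μ.real {o | s < v o}) := by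
    rcases hp.eq_or_lt with hp0 | hp0
    · rw [← hp0, zero_mul]
      have h1 : ∫ s in c..U, clp a b (μ.real {o | s < u o}) = ∫ s in c..U, (0 : ℝ) := by
        refine intervalIntegral.integral_congr fun s hs => ?_
        rw [uIcc_of_le hU2] at hs
        have h2 : μ.real {o | s < u o} = 0 := lc_zero (B := c) (by
          filter_upwards [h] with o ho
          rw [← hp0, zero_mul, zero_add] at ho
          exact ho) hs.1
        change clp a b (μ.real {o | s < u o}) = 0
        rw [h2, clp_zero]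
      rw [h1]
      simp
    · have h1 : ∫ s in c..U, clp a b (μ.real {o | s < u o}) ≤
          ∫ s in c..U, clp a b (μ.real {o | (s - c) / p < v o}) := by
        refine intervalIntegral.integral_mono_on hU2 (ii u c U) ?_ fun s _ => clp_mono hab ?_
        · have : Antitone fun s : ℝ => clp a b (μ.real {o | (s - c) / p < v o}) := fun s t hst =>
            anti v (div_le_div_of_nonneg_right (by linarith) hp0.le)
          exact this.intervalIntegrable
        · refine ENNReal.toReal_mono (measure_ne_top _ _) (measure_mono_ae ?_)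
          filter_upwards [h] with o ho hs
          have hs' : s < u o := hs
          change (s - c) / p < v o
          rw [div_lt_iff₀ hp0]
          linarith
      have h2 : ∫ s in c..U, clp a b (μ.real {o | (s - c) / p < v o}) =
          p * ∫ s in (0 : ℝ)..(U - c) / p, clp a b (μ.real {o | s < v o}) := by
        have h3 := intervalIntegral.integral_comp_div (a := c - c) (b := U - c)
          (fun s => clp a b (μ.real {o | s < v o})) hp0.ne'
        have h4 := intervalIntegral.integral_comp_sub_right (a := c) (b := U)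
          (fun s => clp a b (μ.real {o | s / p < v o})) c
        rw [sub_self, smul_eq_mul] at h3
        rw [sub_self] at h4
        rw [h4, h3, zero_div]
      have h5 : Bv ≤ (U - c) / p := by
        rw [le_div_iff₀ hp0]
        linarith
      have h6 : ∫ s in (0 : ℝ)..(U - c) / p, clp a b (μ.real {o | s < v o}) =
          ∫ s in (0 : ℝ)..Bv, clp a b (μ.real {o | s < v o}) := by
        rw [← intervalIntegral.integral_add_adjacent_intervals (ii v 0 Bv) (ii v Bv _)]
        have h7 : ∫ s in Bv..(U - c) / p, clp a b (μ.real {o | s < v o}) =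
            ∫ s in Bv..(U - c) / p, (0 : ℝ) := by
          refine intervalIntegral.integral_congr fun s hs => ?_
          rw [uIcc_of_le h5] at hs
          change clp a b (μ.real {o | s < v o}) = 0
          rw [lc_zero hv hs.1, clp_zero]
        rw [h7]
        simp
      rw [h2, h6] at h1
      exact h1
  have e4 : ∫ s in (0 : ℝ)..U, clp a b (μ.real {o | s < u o}) =
      (∫ s in (0 : ℝ)..c, clp a b (μ.real {o | s < u o})) +
        ∫ s in c..U, clp a b (μ.real {o | s < u o}) :=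
    (intervalIntegral.integral_add_adjacent_intervals (ii u 0 c) (ii u c U)).symm
  linarith

/-- positivity of the charge -/
theorem lcN_pos {u : Ω → ℝ} {B a : ℝ} (hu0 : ∀ᵐ o ∂μ, 0 ≤ u o) (hB : 0 < B) (ha : 0 < a)
    (hne : ¬ ∀ᵐ o ∂μ, u o = 0) : 0 < lcN μ u B a := by
  -- some level set has positive measure
  have h1 : ∃ s > 0, 0 < μ.real {o | s < u o} := by
    by_contra hcon
    push Not at hcon
    refine hne ?_
    have h2 : ∀ n : ℕ, ∀ᵐ o ∂μ, u o ≤ 1 / ((n : ℝ) + 1) := by
      intro n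
      have hn : (0 : ℝ) < 1 / ((n : ℝ) + 1) := by positivity
      have h3 := hcon _ hn
      have h4 : μ {o | 1 / ((n : ℝ) + 1) < u o} = 0 := by
        have h5 : μ.real {o | 1 / ((n : ℝ) + 1) < u o} = 0 := le_antisymm h3 measureReal_nonneg
        rcases (ENNReal.toReal_eq_zero_iff _).1 h5 with h | h
        · exact h
        · exact absurd h (measure_ne_top _ _)
      rw [ae_iff]
      refine measure_mono_null (fun o ho => ?_) h4
      exact not_le.1 ho
    filter_upwards [ae_all_iff.2 h2, hu0] with o ho h0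
    refine le_antisymm ?_ h0
    refine le_of_forall_pos_le_add fun ε hε => ?_
    obtain ⟨n, hn⟩ := exists_nat_one_div_lt hε
    linarith [ho n]
  obtain ⟨s, hs, hm⟩ := h1
  set t := min s B with ht
  have ht0 : 0 < t := lt_min hs hB
  have htB : t ≤ B := min_le_right _ _
  set δ := min (μ.real {o | s < u o}) a with hδ
  have hδ0 : 0 < δ := lt_min hm ha
  have h2 : ∫ x in (0 : ℝ)..t, δ ≤ ∫ x in (0 : ℝ)..t, min (μ.real {o | x < u o}) (max a 0) := by
    refine intervalIntegral.integral_mono_on ht0.le (by simp) (lc_int u a 0 t) fun x hx => ?_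
    refine le_min ((min_le_left _ _).trans (lc_anti u (hx.2.trans (min_le_left _ _)))) ?_
    exact (min_le_right _ _).trans (le_max_left _ _)
  have h3 : 0 ≤ ∫ x in t..B, min (μ.real {o | x < u o}) (max a 0) :=
    intervalIntegral.integral_nonneg htB fun x _ => le_min measureReal_nonneg (le_max_right _ _)
  have h4 := intervalIntegral.integral_add_adjacent_intervals (lc_int (μ := μ) u a 0 t) (lc_int u a t B)
  rw [intervalIntegral.integral_const, smul_eq_mul, sub_zero] at h2
  have h5 : 0 < t * δ := mul_pos ht0 hδ0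
  unfold lcN
  linarith

end lc

section path

variable {Ω : Type*} [MeasurableSpace Ω] {μ : Measure Ω} [IsFiniteMeasure μ]

/-- **the certificate along a path**: `r` solves the Hamilton-Jacobi inequality for the charge `u` and
the account `v` -/
theorem khj_path {u v : Ω → ℝ} {Bu Bv κ a₁ Y Cr R : ℝ} (hκ : 0 < κ) (ha₁ : 0 < a₁) (hBu : 0 ≤ Bu)
    (hBv : 0 < Bv) (hu0 : ∀ᵐ o ∂μ, 0 ≤ u o) (hv0 : ∀ᵐ o ∂μ, 0 ≤ v o)
    (hv : ∀ᵐ o ∂μ, v o ≤ Bv) (iv : Integrable v μ) (hY : ∫ o, v o ∂μ ≤ Y)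
    (huv : ∀ᵐ o ∂μ, v o = 0 → u o = 0) {r ra rw : ℝ → ℝ → ℝ}
    (hd : ∀ a w, 0 < a → a ≤ a₁ → 0 < w → w ≤ Bv * a → w ≤ Y →
      HasFDerivAt (fun z : ℝ × ℝ => r z.1 z.2)
        (ra a w • ContinuousLinearMap.fst ℝ ℝ ℝ + rw a w • ContinuousLinearMap.snd ℝ ℝ ℝ) (a, w))
    (hrw : ∀ a w, 0 < a → a ≤ a₁ → 0 < w → w ≤ Bv * a → w ≤ Y → 0 ≤ rw a w)
    (hc : ∀ a w, 0 < a → a ≤ a₁ → 0 < w → w ≤ Bv * a → w ≤ Y → 0 ≤ ra a w - r a w ^ 2 / (κ * a))
    (hu : ∀ a w, 0 < a → a ≤ a₁ → 0 < w → w ≤ Bv * a → w ≤ Y →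
      ∀ᵐ o ∂μ, u o ≤ rw a w * v o + (ra a w - r a w ^ 2 / (κ * a)))
    (hr0 : ∀ a w, 0 < a → a ≤ a₁ → 0 < w → w ≤ Bv * a → w ≤ Y → 0 ≤ r a w)
    (hrC : ∀ a w, 0 < a → a ≤ a₁ → 0 < w → w ≤ Bv * a → w ≤ Y → r a w ≤ Cr * a)
    (hR0 : 0 ≤ R) (hR : ∀ w, 0 < w → w ≤ Bv * a₁ → w ≤ ∫ o, v o ∂μ → r a₁ w ≤ R) :
    ∃ k : ℝ → ℝ, Continuous k ∧ (∀ a ≤ 0, k a = 0) ∧ (∀ a, 0 ≤ k a) ∧
      (∀ a, 0 < a → a ≤ a₁ → (lcN μ u Bu a + ∫ x in (0 : ℝ)..a, k x) ^ 2 ≤ κ * a * k a) ∧
      lcN μ u Bu a₁ + ∫ x in (0 : ℝ)..a₁, k x ≤ R := by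
  by_cases hz : ∀ᵐ o ∂μ, v o = 0
  · -- no charge
    have hu1 : ∀ᵐ o ∂μ, u o ≤ 0 := by
      filter_upwards [hz, huv] with o h1 h2
      exact (h2 h1).le
    have hn : ∀ a, lcN μ u Bu a = 0 := fun a => by
      rw [lcN_ext hu1 hBu]
      unfold lcN
      simp
    refine ⟨fun _ => 0, continuous_const, fun _ _ => rfl, fun _ => le_rfl, fun a _ _ => ?_, ?_⟩
    · rw [hn]
      simp
    · rw [hn]
      simpa using hR0
  -- the path
  set Φ : ℝ → ℝ := lcN μ v Bv with hΦ
  set n : ℝ → ℝ := lcN μ u Bu with hn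
  have Φpos : ∀ a, 0 < a → 0 < Φ a := fun a ha => lcN_pos hv0 hBv ha hz
  have Φle : ∀ a, 0 ≤ a → Φ a ≤ Bv * a := fun a ha => lcN_le hBv.le ha
  have Φint : ∀ a, Φ a ≤ ∫ o, v o ∂μ := fun a => lcN_le_int hv0 hv hBv.le iv a
  have ΦY : ∀ a, Φ a ≤ Y := fun a => (Φint a).trans hY
  have Φc : Continuous Φ := lcN_cont hBv.le
  have nc : Continuous n := lcN_cont hBu
  set ρ : ℝ → ℝ := fun a => r a (Φ a) with hρ
  have ρ0 : ∀ a, 0 < a → a ≤ a₁ → 0 ≤ ρ a := fun a h1 h2 =>
    hr0 a (Φ a) h1 h2 (Φpos a h1) (Φle a h1.le) (ΦY a)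
  have ρC : ∀ a, 0 < a → a ≤ a₁ → ρ a ≤ Cr * a := fun a h1 h2 =>
    hrC a (Φ a) h1 h2 (Φpos a h1) (Φle a h1.le) (ΦY a)
  have hfd := fun a (h1 : 0 < a) (h2 : a ≤ a₁) => hd a (Φ a) h1 h2 (Φpos a h1) (Φle a h1.le) (ΦY a)
  have ρc : ∀ a, 0 < a → a ≤ a₁ → ContinuousAt ρ a := by
    intro a h1 h2
    have h3 := (hfd a h1 h2).continuousAt
    have h4 : ContinuousAt (fun a : ℝ => (a, Φ a)) a := (continuous_id.prodMk Φc).continuousAt
    exact ContinuousAt.comp (f := fun a : ℝ => (a, Φ a)) (g := fun z : ℝ × ℝ => r z.1 z.2) h3 h4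
  -- the density
  set K : ℝ → ℝ := fun a => ρ a ^ 2 / (κ * a) with hK
  set k : ℝ → ℝ := fun a => if a ≤ 0 then 0 else K (min a a₁) with hk
  have kle : ∀ a, a ≤ 0 → k a = 0 := fun a ha => if_pos ha
  have kgt : ∀ a, 0 < a → k a = K (min a a₁) := fun a ha => if_neg (not_le.2 ha)
  have k0 : ∀ a, 0 ≤ k a := by
    intro a
    rcases le_or_gt a 0 with h | h
    · rw [kle a h]
    · rw [kgt a h]
      have : 0 < min a a₁ := lt_min h ha₁
      change 0 ≤ ρ (min a a₁) ^ 2 / (κ * min a a₁)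
      positivity
  have kC : ∀ a, k a ≤ Cr ^ 2 / κ * max a 0 := by
    intro a
    rcases le_or_gt a 0 with h | h
    · rw [kle a h, max_eq_right h, mul_zero]
    · rw [kgt a h, max_eq_left h.le]
      have h1 : 0 < min a a₁ := lt_min h ha₁
      have h2 := ρ0 _ h1 (min_le_right _ _)
      have h3 := ρC _ h1 (min_le_right _ _)
      have h4 : ρ (min a a₁) ^ 2 ≤ (Cr * min a a₁) ^ 2 := pow_le_pow_left₀ h2 h3 2
      change ρ (min a a₁) ^ 2 / (κ * min a a₁) ≤ _
      have h5 : ρ (min a a₁) ^ 2 / (κ * min a a₁) ≤ (Cr * min a a₁) ^ 2 / (κ * min a a₁) :=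
        div_le_div_of_nonneg_right h4 (by positivity)
      have h6 : (Cr * min a a₁) ^ 2 / (κ * min a a₁) = Cr ^ 2 / κ * min a a₁ := by
        field_simp
      rw [h6] at h5
      refine h5.trans (mul_le_mul_of_nonneg_left (min_le_left _ _) (by positivity))
  have ck : Continuous k := by
    rw [continuous_iff_continuousAt]
    intro a
    rcases le_or_gt a 0 with h | h
    · -- squeeze
      have h1 : Tendsto (fun x : ℝ => Cr ^ 2 / κ * max x 0) (𝓝 a) (𝓝 0) := by
        have h2 : Continuous fun x : ℝ => Cr ^ 2 / κ * max x 0 := by fun_prop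
        have h3 := h2.tendsto a
        rwa [max_eq_right h, mul_zero] at h3
      have h4 : Tendsto k (𝓝 a) (𝓝 0) :=
        squeeze_zero (fun x => k0 x) (fun x => kC x) h1
      change Tendsto k (𝓝 a) (𝓝 (k a))
      rw [kle a h]
      exact h4
    · have h1 : ContinuousAt (fun x => K (min x a₁)) a := by
        have hm0 : 0 < min a a₁ := lt_min h ha₁
        have h2 : ContinuousAt K (min a a₁) := by
          have h3 := ρc (min a a₁) hm0 (min_le_right _ _)
          exact (h3.pow 2).div (continuousAt_const.mul continuousAt_id) (by positivity)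
        have h4 : ContinuousAt (fun x : ℝ => min x a₁) a := by fun_prop
        exact ContinuousAt.comp (f := fun x : ℝ => min x a₁) (g := K) h2 h4
      refine h1.congr ?_
      filter_upwards [lt_mem_nhds h] with x hx
      exact (kgt x hx).symm
  set I : ℝ → ℝ := fun a => ∫ x in (0 : ℝ)..a, k x with hI
  have hId : ∀ x, HasDerivAt I (k x) x := fun x =>
    intervalIntegral.integral_hasDerivAt_right (ck.intervalIntegrable _ _)
      (ck.stronglyMeasurableAtFilter _ _) ck.continuousAt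
  have hIc : Continuous I := by
    rw [continuous_iff_continuousAt]
    exact fun x => (hId x).continuousAt
  set f : ℝ → ℝ := fun a => n a + I a - ρ a with hf
  -- the slopes
  have hslope : ∀ x, 0 < x → x < a₁ → ∀ q, (0 : ℝ) < q → ∃ᶠ z in 𝓝[>] x, slope f x z < q := by
    intro x hx hxa q hq
    have hB1 : 0 < 2 + Bv := by linarith
    set ε := q / (2 * (2 + Bv)) with hε
    have hε0 : 0 < ε := by positivity
    have h1 := (hfd x hx hxa.le).isLittleO
    have hpt : Tendsto (fun z : ℝ => (z, Φ z)) (𝓝[>] x) (𝓝 (x, Φ x)) :=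
      ((continuous_id.prodMk Φc).tendsto x).mono_left nhdsWithin_le_nhds
    have h2 := (h1.comp_tendsto hpt).def hε0
    have h3 := ((hId x).hasFDerivAt.isLittleO.mono (nhdsWithin_le_nhds (s := Ioi x))).def hε0
    have h4 : ∀ᶠ z in 𝓝[>] x, z ∈ Ioo x a₁ := Ioo_mem_nhdsGT hxa
    refine Filter.Eventually.frequently ?_
    filter_upwards [h2, h3, h4] with z g2 g3 g4
    have hzx : 0 < z - x := by linarith [g4.1]
    have hΦm : Φ x ≤ Φ z := lcN_mono hBv.le g4.1.le
    have hΦl : Φ z - Φ x ≤ Bv * (z - x) := by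
      have := lcN_lip (μ := μ) (u := v) hBv.le x z g4.1.le
      change Φ z ≤ Φ x + Bv * (z - x) at this
      linarith
    set p := rw x (Φ x) with hp
    set c := ra x (Φ x) - r x (Φ x) ^ 2 / (κ * x) with hcc
    have p0 : 0 ≤ p := hrw x (Φ x) hx hxa.le (Φpos x hx) (Φle x hx.le) (ΦY x)
    have c0 : 0 ≤ c := hc x (Φ x) hx hxa.le (Φpos x hx) (Φle x hx.le) (ΦY x)
    have g5 : n z - n x ≤ p * (Φ z - Φ x) + c * (z - x) :=
      lcN_incr hBu hBv.le p0 c0 hv (hu x (Φ x) hx hxa.le (Φpos x hx) (Φle x hx.le) (ΦY x)) hx.le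
        g4.1.le
    -- the derivative of `r`
    have g6 : ra x (Φ x) * (z - x) + p * (Φ z - Φ x) - ε * ((1 + Bv) * (z - x)) ≤ ρ z - ρ x := by
      have e1 : ((fun z' : ℝ × ℝ => r z'.1 z'.2 - r (x, Φ x).1 (x, Φ x).2 -
          (ra x (Φ x) • ContinuousLinearMap.fst ℝ ℝ ℝ + rw x (Φ x) • ContinuousLinearMap.snd ℝ ℝ ℝ)
            (z' - (x, Φ x))) ∘ fun z : ℝ => (z, Φ z)) z =
          ρ z - ρ x - (ra x (Φ x) * (z - x) + p * (Φ z - Φ x)) := by
        simp [hρ, hp]
      rw [e1] at g2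
      have e2 : ‖((fun z' : ℝ × ℝ => z' - (x, Φ x)) ∘ fun z : ℝ => (z, Φ z)) z‖ ≤
          (1 + Bv) * (z - x) := by
        change ‖((z, Φ z) : ℝ × ℝ) - (x, Φ x)‖ ≤ _
        rw [Prod.mk_sub_mk, Prod.norm_mk, Real.norm_eq_abs, Real.norm_eq_abs, abs_of_pos hzx,
          abs_of_nonneg (by linarith)]
        refine max_le (by nlinarith) (by nlinarith)
      have e3 := mul_le_mul_of_nonneg_left e2 hε0.le
      have e4 := neg_abs_le (ρ z - ρ x - (ra x (Φ x) * (z - x) + p * (Φ z - Φ x)))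
      rw [Real.norm_eq_abs] at g2
      linarith
    -- the integral
    have g7 : I z - I x ≤ (k x + ε) * (z - x) := by
      have e1 : I z - I x - (ContinuousLinearMap.toSpanSingleton ℝ (k x)) (z - x) =
          I z - I x - (z - x) * k x := by simp
      have g3' : |I z - I x - (z - x) * k x| ≤ ε * |z - x| := by
        have := g3
        rw [e1, Real.norm_eq_abs, Real.norm_eq_abs] at this
        exact this
      rw [abs_of_pos hzx] at g3'
      have := (le_abs_self _).trans g3'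
      linarith
    have g8 : k x = r x (Φ x) ^ 2 / (κ * x) := by
      rw [kgt x hx, min_eq_left hxa.le]
    have g9 : f z - f x ≤ q / 2 * (z - x) := by
      have e1 : f z - f x = (n z - n x) + (I z - I x) - (ρ z - ρ x) := by
        simp only [hf]
        ring
      have e2 : q / 2 * (z - x) = ε * (2 + Bv) * (z - x) := by
        rw [hε]
        field_simp
      rw [e1, e2]
      have e3 : c = ra x (Φ x) - k x := by rw [g8]
      rw [e3] at g5
      nlinarith
    rw [slope_def_field, div_lt_iff₀ hzx]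
    nlinarith
  -- monotonicity
  have hmono : ∀ a₀ a, 0 < a₀ → a₀ ≤ a → a ≤ a₁ → f a ≤ f a₀ := by
    intro a₀ a h0 h1 h2
    refine le_of_forall_pos_le_add fun ε hε => ?_
    set ε' := ε / (a₁ + 1) with hε'
    have hε'0 : 0 < ε' := by positivity
    have key := image_le_of_liminf_slope_right_lt_deriv_boundary (f := f) (f' := fun _ => 0)
      (a := a₀) (b := a₁) (by
        refine fun x hx => ?_
        have hx0 : 0 < x := h0.trans_le hx.1
        exact ((nc.continuousAt.add hIc.continuousAt).sub (ρc x hx0 hx.2)).continuousWithinAt)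
      (fun x hx q hq => hslope x (h0.trans_le hx.1) hx.2 q hq)
      (B := fun x => f a₀ + ε' * (x - a₀)) (B' := fun _ => ε') (by simp)
      (fun x => by
        have := ((hasDerivAt_id x).sub_const a₀).const_mul ε'
        rw [mul_one] at this
        exact this.const_add (f a₀))
      (fun x _ _ => hε'0) ⟨h1, h2⟩
    have h3 : ε' * (a - a₀) ≤ ε := by
      have h4 : ε' * (a - a₀) ≤ ε' * (a₁ + 1) := mul_le_mul_of_nonneg_left (by linarith) hε'0.le
      have h5 : ε' * (a₁ + 1) = ε := by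
        rw [hε']
        field_simp
      linarith
    have key' : f a ≤ f a₀ + ε' * (a - a₀) := key
    linarith
  have hmain : ∀ a, 0 < a → a ≤ a₁ → n a + I a ≤ ρ a := by
    intro a h1 h2
    have h3 : Tendsto (fun x => n x + I x) (𝓝[>] 0) (𝓝 0) := by
      have h4 : n 0 + I 0 = 0 := by
        have e1 : n 0 = 0 := lcN_zero le_rfl
        have e2 : I 0 = 0 := by simp [hI]
        rw [e1, e2, add_zero]
      have h5 : Tendsto (fun x => n x + I x) (𝓝 0) (𝓝 (n 0 + I 0)) := (nc.add hIc).tendsto 0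
      rw [h4] at h5
      exact h5.mono_left nhdsWithin_le_nhds
    have h5 : f a ≤ 0 := by
      refine ge_of_tendsto h3 ?_
      filter_upwards [Ioo_mem_nhdsGT h1] with x hx
      have h6 := hmono x a hx.1 hx.2.le h2
      have h7 := ρ0 x hx.1 (by linarith [hx.2])
      have h8 : f x = n x + I x - ρ x := rfl
      linarith
    have h6 : f a = n a + I a - ρ a := rfl
    linarith
  refine ⟨k, ck, kle, k0, fun a h1 h2 => ?_, ?_⟩
  · have h3 := hmain a h1 h2
    have h4 : 0 ≤ n a + I a := by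
      have e1 : 0 ≤ n a := lcN_nonneg hBu
      have e2 : 0 ≤ I a := intervalIntegral.integral_nonneg h1.le fun x _ => k0 x
      linarith
    have h5 : κ * a * k a = ρ a ^ 2 := by
      rw [kgt a h1, min_eq_left h2]
      change κ * a * (ρ a ^ 2 / (κ * a)) = _
      field_simp
    rw [h5]
    exact pow_le_pow_left₀ h4 h3 2
  · exact (hmain a₁ ha₁ le_rfl).trans (hR _ (Φpos a₁ ha₁) (Φle a₁ ha₁.le) (Φint a₁))

end path

end Pool.Agent.FPX
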