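import Mathlib
import Pool.Agent.FPX.KHJ
import Pool.Agent.FPX.HCT

/-
KHK (helper95): the core certificate `CoreD` of a set `T` from a solution of the Hamilton-Jacobi
inequality (KHJ), side charge with a part `κ₂` of `κ`.
-/

open MeasureTheory Set Filter Topology
open scoped ENNReal NNReal

noncomputable section

namespace Pool.Agent.FPX

open Pool.Agent.EWD Pool.Agent.FPM

/-- the certificate of the side charge -/
theorem side_core {κ b F a₁ Eb : ℝ} (hκ : 0 < κ) (hb : 0 < b) (hba : b ≤ a₁) (hF : 0 ≤ F)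
    (hE : 1 - Real.exp (-(F / κ)) ≤ Eb) (hT : F / κ + Eb * Real.log (a₁ / b) < 1) :
    ∃ k : ℝ → ℝ, Continuous k ∧ (∀ a ≤ 0, k a = 0) ∧ (∀ a, 0 ≤ k a) ∧
      (∀ a, 0 < a → a ≤ a₁ → (min (F / b * a) F + ∫ u in (0 : ℝ)..a, k u) ^ 2 ≤ κ * a * k a) ∧
      min (F / b * a₁) F + ∫ u in (0 : ℝ)..a₁, k u ≤
        κ * Eb / (1 - (F / κ + Eb * Real.log (a₁ / b))) := by
  have ha₁ : 0 < a₁ := hb.trans_le hba
  set n : ℝ → ℝ := fun a => min (F / b * max a 0) F with hn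
  have hc : ChF (F / b) n := chF_side hb hF
  have hEb0 : 0 ≤ Eb := by
    have h1 : Real.exp (-(F / κ)) ≤ 1 := Real.exp_le_one_iff.2 (by
      have : 0 ≤ F / κ := by positivity
      linarith)
    linarith
  have hEle : ∀ a, hcE κ n a ≤ Eb := by
    intro a
    refine le_trans ?_ hE
    unfold hcE
    have h1 : n a / κ ≤ F / κ := div_le_div_of_nonneg_right (min_le_right _ _) hκ.le
    have h2 : Real.exp (-(F / κ)) ≤ Real.exp (-(n a / κ)) := Real.exp_le_exp.2 (by linarith)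
    linarith
  have hTle : hcT κ n a₁ ≤ F / κ + Eb * Real.log (a₁ / b) := by
    unfold hcT
    rw [← intervalIntegral.integral_add_adjacent_intervals (hcq_int hκ hc 0 b) (hcq_int hκ hc b a₁)]
    have h1 : ∫ u in (0 : ℝ)..b, hcE κ n u / u ≤ ∫ _ in (0 : ℝ)..b, F / b / κ :=
      intervalIntegral.integral_mono_on hb.le (hcq_int hκ hc 0 b) (by simp) fun u _ => hcq_le hκ hc u
    rw [intervalIntegral.integral_const, smul_eq_mul, sub_zero] at h1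
    have e1 : b * (F / b / κ) = F / κ := by field_simp
    rw [e1] at h1
    have h2 : ∫ u in b..a₁, hcE κ n u / u ≤ ∫ u in b..a₁, Eb * u⁻¹ := by
      refine intervalIntegral.integral_mono_on hba (hcq_int hκ hc b a₁) ?_ fun u hu => ?_
      · refine ContinuousOn.intervalIntegrable ?_
        rw [uIcc_of_le hba]
        exact continuousOn_const.mul (continuousOn_id.inv₀ fun x hx => (hb.trans_le hx.1).ne')
      · have hu0 : 0 < u := hb.trans_le hu.1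
        rw [div_eq_mul_inv]
        exact mul_le_mul_of_nonneg_right (hEle u) (by positivity)
    rw [intervalIntegral.integral_const_mul, integral_inv_of_pos hb ha₁] at h2
    linarith
  obtain ⟨k, ck, k0, kp, h1, h2⟩ := hct_cert hκ hc ha₁ (hTle.trans_lt hT)
  have en : ∀ a, 0 ≤ a → n a = min (F / b * a) F := fun a ha => by
    change min (F / b * max a 0) F = _
    rw [max_eq_left ha]
  refine ⟨k, ck, k0, kp, fun a g1 g2 => ?_, ?_⟩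
  · have := h2 a g1 g2
    rwa [en a g1.le] at this
  · have g1 := h1 a₁ ha₁.le le_rfl
    rw [en a₁ ha₁.le] at g1
    refine g1.trans ?_
    have g2 : 0 < 1 - (F / κ + Eb * Real.log (a₁ / b)) := by linarith
    have g3 : 1 - (F / κ + Eb * Real.log (a₁ / b)) ≤ 1 - hcT κ n a₁ := by linarith
    have g4 : κ * hcE κ n a₁ ≤ κ * Eb := mul_le_mul_of_nonneg_left (hEle a₁) hκ.le
    exact div_le_div₀ (mul_nonneg hκ.le hEb0) g4 g2 g3

/-- charge and side charge with parts of `κ` -/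
theorem CoreD.of_parts {κ κ₁ κ₂ a₁ B b F R₁ R₂ : ℝ} {n k₁ k₂ : ℝ → ℝ} (h1 : 0 ≤ κ₁) (h2 : 0 ≤ κ₂)
    (h12 : κ₁ + κ₂ ≤ κ) (mono : Monotone n) (zero : ∀ a ≤ 0, n a = 0)
    (lip : ∀ x y, x ≤ y → n y ≤ n x + B * (y - x)) (b0 : 0 < b) (f0 : 0 ≤ F) (fb : F / b ≤ B)
    (c1 : Continuous k₁) (z1 : ∀ a ≤ 0, k₁ a = 0) (p1 : ∀ a, 0 ≤ k₁ a)
    (q1 : ∀ a, 0 < a → a ≤ a₁ → (n a + ∫ x in (0 : ℝ)..a, k₁ x) ^ 2 ≤ κ₁ * a * k₁ a)
    (v1 : n a₁ + ∫ x in (0 : ℝ)..a₁, k₁ x ≤ R₁)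
    (c2 : Continuous k₂) (z2 : ∀ a ≤ 0, k₂ a = 0) (p2 : ∀ a, 0 ≤ k₂ a)
    (q2 : ∀ a, 0 < a → a ≤ a₁ → (min (F / b * a) F + ∫ x in (0 : ℝ)..a, k₂ x) ^ 2 ≤ κ₂ * a * k₂ a)
    (v2 : min (F / b * a₁) F + ∫ x in (0 : ℝ)..a₁, k₂ x ≤ R₂) :
    CoreD (fun a => κ * a) a₁ B n b F (R₁ + R₂) := by
  have hint : ∀ a, ∫ x in (0 : ℝ)..a, (k₁ x + k₂ x) =
      (∫ x in (0 : ℝ)..a, k₁ x) + ∫ x in (0 : ℝ)..a, k₂ x := fun a =>
    intervalIntegral.integral_add (c1.intervalIntegrable _ _) (c2.intervalIntegrable _ _)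
  refine ⟨mono, zero, lip, b0, f0, fb, fun a => k₁ a + k₂ a, c1.add c2, fun a ha => by
    change k₁ a + k₂ a = 0
    rw [z1 a ha, z2 a ha, add_zero], fun a => add_nonneg (p1 a) (p2 a), fun a g1 g2 => ?_, ?_⟩
  · rw [hint]
    set x := n a + ∫ x in (0 : ℝ)..a, k₁ x with hx
    set y := min (F / b * a) F + ∫ x in (0 : ℝ)..a, k₂ x with hy
    have e : n a + min (F / b * a) F + ((∫ x in (0 : ℝ)..a, k₁ x) + ∫ x in (0 : ℝ)..a, k₂ x) = x + y := by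
      rw [hx, hy]
      ring
    rw [e]
    have hx2 := q1 a g1 g2
    have hy2 := q2 a g1 g2
    rw [← hx] at hx2
    rw [← hy] at hy2
    have hk1 := p1 a
    have hk2 := p2 a
    -- Cauchy-Schwarz
    have h3 : (x + y) ^ 2 ≤ (κ₁ + κ₂) * a * (k₁ a + k₂ a) := by
      have hxy : 2 * (x * y) ≤ κ₁ * a * k₂ a + κ₂ * a * k₁ a := by
        have h4 : (x * y) ^ 2 ≤ (κ₁ * a * k₁ a) * (κ₂ * a * k₂ a) := by
          rw [mul_pow]
          exact mul_le_mul hx2 hy2 (sq_nonneg _) (by positivity)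
        have h5 : (κ₁ * a * k₁ a) * (κ₂ * a * k₂ a) ≤ ((κ₁ * a * k₂ a + κ₂ * a * k₁ a) / 2) ^ 2 := by
          nlinarith [sq_nonneg (κ₁ * a * k₂ a - κ₂ * a * k₁ a)]
        have h6 : 0 ≤ (κ₁ * a * k₂ a + κ₂ * a * k₁ a) / 2 := by positivity
        have h7 := abs_le_of_sq_le_sq (h4.trans h5) h6
        have := (le_abs_self (x * y)).trans h7
        linarith
      nlinarith
    refine h3.trans ?_
    exact mul_le_mul_of_nonneg_right (mul_le_mul_of_nonneg_right h12 g1.le) (by positivity)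
  · rw [hint]
    linarith

variable {M : Type} [MetricSpace M] {γ : ℝ → M}

/-- **the core certificate of a set `T`** from a solution of the Hamilton-Jacobi inequality for the part
`κ₁` of `κ` -/
theorem khj_core (C : Calc M γ) {f w : Om → ℝ} {κ κ₁ κ₂ a₁ B Bv b F Y Cr R₁ R₂ : ℝ} (hκ₁ : 0 < κ₁)
    (hκ₂ : 0 ≤ κ₂) (h12 : κ₁ + κ₂ ≤ κ) (ha₁ : 0 < a₁) (hBv : 0 < Bv) (b0 : 0 < b) (f0 : 0 ≤ F)
    (fb : F / b ≤ B) {T : Set Om} (mT : NullMeasurableSet T C.μ) (iw : Integrable w C.μ)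
    (hw0 : ∀ᵐ o ∂C.μ, 0 ≤ w o) (hwB : ∀ᵐ o ∂C.μ, 4 * w o ≤ B) (if' : Integrable f C.μ)
    (hf0 : ∀ᵐ o ∂C.μ, 0 ≤ f o) (hfB : ∀ᵐ o ∂C.μ, f o ≤ Bv) (hfY : ∫ o in T, f o ∂C.μ ≤ Y)
    (hfw : ∀ᵐ o ∂C.μ, f o = 0 → w o = 0) {r ra rw : ℝ → ℝ → ℝ}
    (hd : ∀ a w, 0 < a → a ≤ a₁ → 0 < w → w ≤ Bv * a → w ≤ Y →
      HasFDerivAt (fun z : ℝ × ℝ => r z.1 z.2)
        (ra a w • ContinuousLinearMap.fst ℝ ℝ ℝ + rw a w • ContinuousLinearMap.snd ℝ ℝ ℝ) (a, w))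
    (hrw : ∀ a w, 0 < a → a ≤ a₁ → 0 < w → w ≤ Bv * a → w ≤ Y → 0 ≤ rw a w)
    (hc : ∀ a w, 0 < a → a ≤ a₁ → 0 < w → w ≤ Bv * a → w ≤ Y → 0 ≤ ra a w - r a w ^ 2 / (κ₁ * a))
    (hu : ∀ a y, 0 < a → a ≤ a₁ → 0 < y → y ≤ Bv * a → y ≤ Y →
      ∀ᵐ o ∂C.μ, 4 * w o ≤ rw a y * f o + (ra a y - r a y ^ 2 / (κ₁ * a)))
    (hr0 : ∀ a w, 0 < a → a ≤ a₁ → 0 < w → w ≤ Bv * a → w ≤ Y → 0 ≤ r a w)
    (hrC : ∀ a w, 0 < a → a ≤ a₁ → 0 < w → w ≤ Bv * a → w ≤ Y → r a w ≤ Cr * a)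
    (hR0 : 0 ≤ R₁) (hR : ∀ w, 0 < w → w ≤ Bv * a₁ → w ≤ ∫ o in T, f o ∂C.μ → r a₁ w ≤ R₁)
    {k₂ : ℝ → ℝ} (c2 : Continuous k₂) (z2 : ∀ a ≤ 0, k₂ a = 0) (p2 : ∀ a, 0 ≤ k₂ a)
    (q2 : ∀ a, 0 < a → a ≤ a₁ → (min (F / b * a) F + ∫ x in (0 : ℝ)..a, k₂ x) ^ 2 ≤ κ₂ * a * k₂ a)
    (v2 : min (F / b * a₁) F + ∫ x in (0 : ℝ)..a₁, k₂ x ≤ R₂) :
    ∃ n : ℝ → ℝ, CoreD (fun a => κ * a) a₁ B n b F (R₁ + R₂) ∧
      ∀ S, NullMeasurableSet S C.μ → S ⊆ T → 4 * ∫ o in S, w o ∂C.μ ≤ n (C.μ.real S) := by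
  have := C.fin
  have hB : 0 ≤ B := (div_nonneg f0 b0.le).trans fb
  set μ := C.μ.restrict T with hμ
  have iu : Integrable (fun o => 4 * w o) μ := (iw.const_mul 4).integrableOn
  have hu0 : ∀ᵐ o ∂μ, 0 ≤ 4 * w o := by
    filter_upwards [ae_restrict_of_ae (s := T) hw0] with o ho
    linarith
  obtain ⟨k₁, c1, z1, p1, q1, v1⟩ := khj_path (μ := μ) (u := fun o => 4 * w o) (v := f) (Bu := B)
    (Bv := Bv) (κ := κ₁) (a₁ := a₁) (Y := Y) (Cr := Cr) (R := R₁) hκ₁ ha₁ hB hBv hu0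
    (ae_restrict_of_ae hf0) (ae_restrict_of_ae hfB) if'.integrableOn hfY
    (by
      filter_upwards [ae_restrict_of_ae (s := T) hfw] with o ho h
      rw [ho h, mul_zero]) hd hrw hc
    (fun a w h1 h2 h3 h4 h5 => ae_restrict_of_ae (hu a w h1 h2 h3 h4 h5)) hr0 hrC hR0 hR
  refine ⟨lcN μ (fun o => 4 * w o) B, CoreD.of_parts hκ₁.le hκ₂ h12 (lcN_mono hB) (fun a ha => lcN_zero ha)
    (fun x y hxy => lcN_lip hB x y hxy) b0 f0 fb c1 z1 p1 q1 v1 c2 z2 p2 q2 v2, fun S mS hST => ?_⟩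
  have h1 := lcN_charge (μ := μ) hu0 (ae_restrict_of_ae hwB) hB iu S
  have e1 : μ.real S = C.μ.real S := by
    rw [Measure.real, hμ, Measure.restrict_apply₀' mT, inter_eq_left.2 hST, Measure.real]
  have e2 : μ.restrict S = C.μ.restrict S := by
    rw [hμ]
    exact Measure.restrict_restrict_of_subset hST
  rw [e1, e2, integral_const_mul] at h1
  exact h1

end Pool.Agent.FPX
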