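import Mathlib
import Pool.Agent.FPX.KHK

/-
KHC (helper95): the solutions `r (a, ω) = ω / (g (f) - k Ψ (f))`, `f = ω / a`, `k = ω / κ`, of the
Hamilton-Jacobi inequality of KHJ. The conditions are inequalities in `f` and `k`, linear-concave in `k`.
-/

open MeasureTheory Set Filter Topology
open scoped ENNReal NNReal

noncomputable section

namespace Pool.Agent.FPX

open Pool.Agent.EWD Pool.Agent.FPM

/-- the derivative of the closed form -/
theorem hjr_deriv {g gs P Ps : ℝ → ℝ} {κ a w : ℝ} (hκ : κ ≠ 0) (ha : 0 < a) (hw : 0 < w)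
    (hg : HasDerivAt g (gs (w / a) / (w / a)) (w / a))
    (hP : HasDerivAt P (Ps (w / a) / (w / a)) (w / a))
    (hY : g (w / a) - w / κ * P (w / a) ≠ 0) :
    HasFDerivAt (fun z : ℝ × ℝ => z.2 / (g (z.2 / z.1) - z.2 / κ * P (z.2 / z.1)))
      ((w / a * (gs (w / a) - w / κ * Ps (w / a)) / (g (w / a) - w / κ * P (w / a)) ^ 2) •
          ContinuousLinearMap.fst ℝ ℝ ℝ +
        ((g (w / a) - gs (w / a) + w / κ * Ps (w / a)) / (g (w / a) - w / κ * P (w / a)) ^ 2) •
          ContinuousLinearMap.snd ℝ ℝ ℝ) (a, w) := by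
  set f := w / a with hf
  have hf0 : 0 < f := by positivity
  have d1 : HasFDerivAt (fun z : ℝ × ℝ => z.1) (ContinuousLinearMap.fst ℝ ℝ ℝ) (a, w) := hasFDerivAt_fst
  have d2 : HasFDerivAt (fun z : ℝ × ℝ => z.2) (ContinuousLinearMap.snd ℝ ℝ ℝ) (a, w) := hasFDerivAt_snd
  have d3 : HasFDerivAt (fun z : ℝ × ℝ => z.2 / z.1)
      ((-(w / a ^ 2)) • ContinuousLinearMap.fst ℝ ℝ ℝ + (1 / a) • ContinuousLinearMap.snd ℝ ℝ ℝ) (a, w) := by
    have h1 : HasFDerivAt (fun z : ℝ × ℝ => z.1⁻¹) ((-(a ^ 2)⁻¹) • ContinuousLinearMap.fst ℝ ℝ ℝ) (a, w) :=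
      (hasDerivAt_inv ha.ne').comp_hasFDerivAt (a, w) d1
    have h2 := d2.mul h1
    refine (h2.congr_of_eventuallyEq (Filter.Eventually.of_forall fun z => ?_)).congr_fderiv ?_
    · change z.2 / z.1 = z.2 * z.1⁻¹
      rw [div_eq_mul_inv]
    · ext
      · simp
        field_simp
      · simp
  have d4 : HasFDerivAt (fun z : ℝ × ℝ => g (z.2 / z.1)) ((gs f / f) •
      ((-(w / a ^ 2)) • ContinuousLinearMap.fst ℝ ℝ ℝ + (1 / a) • ContinuousLinearMap.snd ℝ ℝ ℝ)) (a, w) :=
    hg.comp_hasFDerivAt (a, w) d3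
  have d5 : HasFDerivAt (fun z : ℝ × ℝ => P (z.2 / z.1)) ((Ps f / f) •
      ((-(w / a ^ 2)) • ContinuousLinearMap.fst ℝ ℝ ℝ + (1 / a) • ContinuousLinearMap.snd ℝ ℝ ℝ)) (a, w) :=
    hP.comp_hasFDerivAt (a, w) d3
  have d6 : HasFDerivAt (fun z : ℝ × ℝ => z.2 / κ) ((1 / κ) • ContinuousLinearMap.snd ℝ ℝ ℝ) (a, w) := by
    have h1 := d2.const_mul (1 / κ)
    refine h1.congr_of_eventuallyEq (Filter.Eventually.of_forall fun z => ?_)
    change z.2 / κ = 1 / κ * z.2
    ring
  have d7 := d4.sub (d6.mul d5)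
  have d8 := (hasDerivAt_inv (show g (w / a) - w / κ * P (w / a) ≠ 0 from hY)).comp_hasFDerivAt (a, w)
    (f := fun z : ℝ × ℝ => g (z.2 / z.1) - z.2 / κ * P (z.2 / z.1)) d7
  have d9 := d2.mul d8
  refine (d9.congr_of_eventuallyEq (Filter.Eventually.of_forall fun z => ?_)).congr_fderiv ?_
  · change z.2 / _ = z.2 * (_)⁻¹
    rw [div_eq_mul_inv]
  · set Y := g (w / a) - w / κ * P (w / a) with hYd
    have hY' : Y ≠ 0 := hY
    have e1 : g f = Y + w / κ * P f := by
      rw [hYd]
      ring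
    have e2 : w / a ^ 2 = f / a := by
      rw [hf]
      field_simp
    have e3 : w = f * a := by
      rw [hf]
      field_simp
    ext
    · simp only [ContinuousLinearMap.coe_comp', Function.comp_apply, ContinuousLinearMap.inl_apply,
        ContinuousLinearMap.add_apply, ContinuousLinearMap.smul_apply, ContinuousLinearMap.coe_fst',
        ContinuousLinearMap.coe_snd', ContinuousLinearMap.coe_sub', Pi.sub_apply, smul_eq_mul, mul_one,
        mul_zero, add_zero, zero_add]
      rw [e2]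
      generalize gs f = x1
      generalize Ps f = x2
      clear_value Y
      rw [e3]
      field_simp
      ring
    · simp only [ContinuousLinearMap.coe_comp', Function.comp_apply, ContinuousLinearMap.inr_apply,
        ContinuousLinearMap.add_apply, ContinuousLinearMap.smul_apply, ContinuousLinearMap.coe_fst',
        ContinuousLinearMap.coe_snd', ContinuousLinearMap.coe_sub', Pi.sub_apply, smul_eq_mul, mul_one,
        mul_zero, add_zero, zero_add]
      change w * (-(Y ^ 2)⁻¹ * (gs f / f * (1 / a) - (w / κ * (Ps f / f * (1 / a)) + P f * (1 / κ)))) +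
        Y⁻¹ = (g f - gs f + w / κ * Ps f) / Y ^ 2
      rw [e1]
      generalize gs f = x1
      generalize Ps f = x2
      generalize P f = x3
      clear_value Y
      rw [e3]
      field_simp
      ring

end Pool.Agent.FPX
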