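import Mathlib

/-
KHN (helper87): Boolean check (kernel, integers) of the row condition of helper95's core certificate
`r (a, ω) = ω / (g f - (ω/κ) Ψ f)`, `f = ω/a`, with `g`, `Ψ` piecewise linear in `f`. On a cell `[x₀, x₁]`, for
`0 ≤ k ≤ min (kX, al f)` and every vertex `(φ, L)`: `φ A + f (f (g' - k Ψ') - k) - L Y² ≥ 0`,
`A = g - f g' + k f Ψ'`, `Y = g - k Ψ > 0`.
-/

noncomputable section

namespace Pool.Agent.FPX.KHN

/-- the inequalities on one cell -/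
def RowCell (x0 g0 p0 x1 g1 p1 kX al : ℝ) (V : List (ℝ × ℝ)) : Prop :=
  x0 < x1 ∧ ∀ f, x0 ≤ f → f ≤ x1 → ∀ k, 0 ≤ k → k ≤ kX → k ≤ al * f →
    0 < (g0 + (g1 - g0) / (x1 - x0) * (f - x0)) - k * (p0 + (p1 - p0) / (x1 - x0) * (f - x0)) ∧
    0 ≤ (g0 - (g1 - g0) / (x1 - x0) * x0) + k * f * ((p1 - p0) / (x1 - x0)) ∧
    0 ≤ (g1 - g0) / (x1 - x0) - k * ((p1 - p0) / (x1 - x0)) ∧
    k ≤ f * ((g1 - g0) / (x1 - x0) - k * ((p1 - p0) / (x1 - x0))) ∧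
    ∀ v ∈ V, 0 ≤ v.1 * ((g0 - (g1 - g0) / (x1 - x0) * x0) + k * f * ((p1 - p0) / (x1 - x0)))
      + f * (f * ((g1 - g0) / (x1 - x0) - k * ((p1 - p0) / (x1 - x0))) - k)
      - v.2 * ((g0 + (g1 - g0) / (x1 - x0) * (f - x0)) - k * (p0 + (p1 - p0) / (x1 - x0) * (f - x0))) ^ 2

/-! ### the real statement from the corners -/

section real

variable {x0 g0 p0 x1 g1 p1 kX al kb : ℝ} {V : List (ℝ × ℝ)}

/-- convexity in `f` at a fixed `k` -/
theorem conv_f {x0 x1 c gm pm k φ L g0 p0 f : ℝ} (hx : x0 < x1) (hL : 0 ≤ L) (hf0 : x0 ≤ f) (hf1 : f ≤ x1)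
    (h0 : (gm - k * pm) * (x1 - x0) ^ 2 / 4 ≤ φ * (c + k * x0 * pm) + x0 * (x0 * (gm - k * pm) - k)
      - L * ((g0 + gm * (x0 - x0)) - k * (p0 + pm * (x0 - x0))) ^ 2)
    (h1 : (gm - k * pm) * (x1 - x0) ^ 2 / 4 ≤ φ * (c + k * x1 * pm) + x1 * (x1 * (gm - k * pm) - k)
      - L * ((g0 + gm * (x1 - x0)) - k * (p0 + pm * (x1 - x0))) ^ 2) (hD : 0 ≤ gm - k * pm) :
    0 ≤ φ * (c + k * f * pm) + f * (f * (gm - k * pm) - k)
      - L * ((g0 + gm * (f - x0)) - k * (p0 + pm * (f - x0))) ^ 2 := by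
  set w := x1 - x0 with hw
  have hw0 : 0 < w := sub_pos.2 hx
  set u := (f - x0) / w with hu
  have hfu : f = x0 + w * u := by
    rw [hu]
    field_simp
    ring
  have hu0 : 0 ≤ u := div_nonneg (sub_nonneg.2 hf0) hw0.le
  have hu1 : u ≤ 1 := by
    rw [hu, div_le_one hw0, hw]
    linarith
  set D := gm - k * pm with hDd
  have hx1 : x1 = x0 + w := by rw [hw]; ring
  have b0 := mul_le_mul_of_nonneg_left h0 (sub_nonneg.2 hu1)
  have b1 := mul_le_mul_of_nonneg_left h1 hu0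
  have e : φ * (c + k * f * pm) + f * (f * D - k) - L * ((g0 + gm * (f - x0)) - k * (p0 + pm * (f - x0))) ^ 2
      = (1 - u) * (φ * (c + k * x0 * pm) + x0 * (x0 * D - k)
          - L * ((g0 + gm * (x0 - x0)) - k * (p0 + pm * (x0 - x0))) ^ 2)
        + u * (φ * (c + k * x1 * pm) + x1 * (x1 * D - k)
          - L * ((g0 + gm * w) - k * (p0 + pm * w)) ^ 2)
        - (D - L * D ^ 2) * w ^ 2 * (u * (1 - u)) := by
    rw [hfu, hx1, hDd]
    ring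
  rw [e]
  have c1 : u * (1 - u) ≤ 1 / 4 := by nlinarith [sq_nonneg (u - 1 / 2)]
  have c0 : 0 ≤ u * (1 - u) := mul_nonneg hu0 (sub_nonneg.2 hu1)
  have c2 : D * w ^ 2 * (u * (1 - u)) ≤ D * w ^ 2 * (1 / 4) :=
    mul_le_mul_of_nonneg_left c1 (by positivity)
  have c3 : 0 ≤ L * D ^ 2 * w ^ 2 * (u * (1 - u)) := by positivity
  nlinarith

/-- concavity in `k` -/
theorem conc_k {c gm pm φ L G P f k kb : ℝ} (hL : 0 ≤ L) (h0 : 0 ≤ k) (h1 : k ≤ kb)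
    (a0 : 0 ≤ φ * (c + 0 * f * pm) + f * (f * (gm - 0 * pm) - 0) - L * (G - 0 * P) ^ 2)
    (a1 : 0 ≤ φ * (c + kb * f * pm) + f * (f * (gm - kb * pm) - kb) - L * (G - kb * P) ^ 2) :
    0 ≤ φ * (c + k * f * pm) + f * (f * (gm - k * pm) - k) - L * (G - k * P) ^ 2 := by
  rcases eq_or_lt_of_le (h0.trans h1) with e | e
  · have : k = 0 := le_antisymm (by rw [e]; exact h1) h0
    rw [this]
    exact a0
  have b0 := mul_nonneg (sub_nonneg.2 h1) a0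
  have b1 := mul_nonneg h0 a1
  have b2 : 0 ≤ L * (k * (kb - k) * kb * P ^ 2) := by
    have := sub_nonneg.2 h1
    positivity
  have : 0 ≤ kb * (φ * (c + k * f * pm) + f * (f * (gm - k * pm) - k) - L * (G - k * P) ^ 2) := by
    nlinarith
  exact nonneg_of_mul_nonneg_right this e

/-- linear functions of `k` -/
theorem lin_k {a b k kb : ℝ} (h0 : 0 ≤ k) (h1 : k ≤ kb) (a0 : 0 ≤ a) (a1 : 0 ≤ a - kb * b) :
    0 ≤ a - k * b := by
  rcases le_total 0 b with hb | hb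
  · have := mul_le_mul_of_nonneg_right h1 hb
    linarith
  · have := mul_nonpos_of_nonneg_of_nonpos h0 hb
    linarith

theorem lin_kpos {a b k kb : ℝ} (h0 : 0 ≤ k) (h1 : k ≤ kb) (a0 : 0 < a) (a1 : 0 < a - kb * b) :
    0 < a - k * b := by
  rcases le_total 0 b with hb | hb
  · have := mul_le_mul_of_nonneg_right h1 hb
    linarith
  · have := mul_nonpos_of_nonneg_of_nonpos h0 hb
    linarith

/-- the corner conditions at one `k` -/
structure Cor (x0 g0 p0 x1 g1 p1 k : ℝ) (V : List (ℝ × ℝ)) : Prop where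
  y0 : 0 < g0 - k * p0
  y1 : 0 < g1 - k * p1
  a0 : 0 ≤ (g0 - (g1 - g0) / (x1 - x0) * x0) + k * x0 * ((p1 - p0) / (x1 - x0))
  a1 : 0 ≤ (g0 - (g1 - g0) / (x1 - x0) * x0) + k * x1 * ((p1 - p0) / (x1 - x0))
  D : 0 ≤ (g1 - g0) / (x1 - x0) - k * ((p1 - p0) / (x1 - x0))
  v0 : ∀ v ∈ V, ((g1 - g0) / (x1 - x0) - k * ((p1 - p0) / (x1 - x0))) * (x1 - x0) ^ 2 / 4 ≤
    v.1 * ((g0 - (g1 - g0) / (x1 - x0) * x0) + k * x0 * ((p1 - p0) / (x1 - x0)))
      + x0 * (x0 * ((g1 - g0) / (x1 - x0) - k * ((p1 - p0) / (x1 - x0))) - k) - v.2 * (g0 - k * p0) ^ 2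
  v1 : ∀ v ∈ V, ((g1 - g0) / (x1 - x0) - k * ((p1 - p0) / (x1 - x0))) * (x1 - x0) ^ 2 / 4 ≤
    v.1 * ((g0 - (g1 - g0) / (x1 - x0) * x0) + k * x1 * ((p1 - p0) / (x1 - x0)))
      + x1 * (x1 * ((g1 - g0) / (x1 - x0) - k * ((p1 - p0) / (x1 - x0))) - k) - v.2 * (g1 - k * p1) ^ 2

theorem rowCell_of (hx : x0 < x1) (hx0 : 0 ≤ x0) (hV : ∀ v ∈ V, 0 ≤ v.2) (hk : kb = min kX (al * x1))
    (hal : 0 ≤ al) (C0 : Cor x0 g0 p0 x1 g1 p1 0 V) (C1 : Cor x0 g0 p0 x1 g1 p1 kb V)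
    (hB : kb ≤ x0 * ((g1 - g0) / (x1 - x0) - kb * ((p1 - p0) / (x1 - x0))) ∨
      (al ≤ (g1 - g0) / (x1 - x0) ∧ al ≤ (g1 - g0) / (x1 - x0) - kb * ((p1 - p0) / (x1 - x0)))) :
    RowCell x0 g0 p0 x1 g1 p1 kX al V := by
  refine ⟨hx, fun f hf0 hf1 k k0 kX' kf => ?_⟩
  have hw0 : 0 < x1 - x0 := sub_pos.2 hx
  have hkb : k ≤ kb := by
    rw [hk]
    exact le_min kX' (kf.trans (mul_le_mul_of_nonneg_left hf1 hal))
  set gm := (g1 - g0) / (x1 - x0) with hgm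
  set pm := (p1 - p0) / (x1 - x0) with hpm
  set u := (f - x0) / (x1 - x0) with hu
  have hu0 : 0 ≤ u := div_nonneg (sub_nonneg.2 hf0) hw0.le
  have hu1 : u ≤ 1 := by
    rw [hu, div_le_one hw0]
    linarith
  have eg1 : g0 + gm * (x1 - x0) = g1 := by
    rw [hgm]
    field_simp
    ring
  have ep1 : p0 + pm * (x1 - x0) = p1 := by
    rw [hpm]
    field_simp
    ring
  have eg : g0 + gm * (f - x0) = (1 - u) * g0 + u * g1 := by
    rw [hgm, hu]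
    field_simp
    ring
  have ep : p0 + pm * (f - x0) = (1 - u) * p0 + u * p1 := by
    rw [hpm, hu]
    field_simp
    ring
  have Yk : ∀ k', 0 < g0 - k' * p0 → 0 < g1 - k' * p1 →
      0 < (g0 + gm * (f - x0)) - k' * (p0 + pm * (f - x0)) := by
    intro k' h0 h1
    rw [eg, ep]
    have e : (1 - u) * g0 + u * g1 - k' * ((1 - u) * p0 + u * p1)
        = (1 - u) * (g0 - k' * p0) + u * (g1 - k' * p1) := by ring
    rw [e]
    rcases eq_or_lt_of_le hu0 with hu' | hu'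
    · rw [← hu']
      linarith
    · have := mul_pos hu' h1
      have := mul_nonneg (sub_nonneg.2 hu1) h0.le
      linarith
  have hfu : f = (1 - u) * x0 + u * x1 := by
    rw [hu]
    field_simp
    ring
  have Ak : ∀ k', 0 ≤ (g0 - gm * x0) + k' * x0 * pm → 0 ≤ (g0 - gm * x0) + k' * x1 * pm →
      0 ≤ (g0 - gm * x0) + k' * f * pm := by
    intro k' h0 h1
    have e : (g0 - gm * x0) + k' * f * pm = (1 - u) * ((g0 - gm * x0) + k' * x0 * pm)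
        + u * ((g0 - gm * x0) + k' * x1 * pm) := by
      rw [hfu]
      ring
    rw [e]
    exact add_nonneg (mul_nonneg (sub_nonneg.2 hu1) h0) (mul_nonneg hu0 h1)
  have hD : 0 ≤ gm - k * pm := lin_k k0 hkb (by simpa using C0.D) C1.D
  refine ⟨?_, ?_, hD, ?_, fun v hv => ?_⟩
  · refine lin_kpos k0 hkb ?_ (Yk kb C1.y0 C1.y1)
    have := Yk 0 C0.y0 C0.y1
    simpa using this
  · have h0 := Ak 0 C0.a0 C0.a1
    have h1 := Ak kb C1.a0 C1.a1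
    have := lin_k (a := g0 - gm * x0) (b := -(f * pm)) k0 hkb (by simpa using h0)
      (by rw [show g0 - gm * x0 - kb * -(f * pm) = (g0 - gm * x0) + kb * f * pm by ring]; exact h1)
    rw [show g0 - gm * x0 - k * -(f * pm) = (g0 - gm * x0) + k * f * pm by ring] at this
    exact this
  · rcases hB with hB | ⟨hB0, hB1⟩
    · have h1 : 0 ≤ x0 * gm - k * (x0 * pm + 1) := by
        refine lin_k k0 hkb (mul_nonneg hx0 (by simpa using C0.D)) ?_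
        linarith
      have h2 := mul_le_mul_of_nonneg_right hf0 hD
      linarith
    · have h1 : 0 ≤ (gm - al) - k * pm := lin_k k0 hkb (by linarith) (by linarith)
      have hf : 0 ≤ f := hx0.trans hf0
      have h2 := mul_nonneg hf h1
      linarith
  · have hL := hV v hv
    have q0 := conv_f (c := g0 - gm * x0) (φ := v.1) (L := v.2) (g0 := g0) (p0 := p0) (pm := pm) (k := 0) hx hL hf0 hf1
      (by have := C0.v0 v hv; simpa using this)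
      (by
        have := C0.v1 v hv
        rw [eg1, ep1]
        exact this) C0.D
    have q1 := conv_f (c := g0 - gm * x0) (φ := v.1) (L := v.2) (g0 := g0) (p0 := p0) (pm := pm) (k := kb) hx hL hf0 hf1
      (by have := C1.v0 v hv; simpa using this)
      (by
        have := C1.v1 v hv
        rw [eg1, ep1]
        exact this) C1.D
    exact conc_k hL k0 hkb q0 q1

end real

/-! ### integers -/

/-- conditions at one `k = kn / S²`; all data over `S` -/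
def corz (S x0 g0 p0 x1 g1 p1 kn : ℤ) (V : List (ℤ × ℤ)) : Bool :=
  decide (0 < g0 * S ^ 2 - kn * p0) && decide (0 < g1 * S ^ 2 - kn * p1) &&
  decide (0 ≤ (g0 * (x1 - x0) - (g1 - g0) * x0) * S ^ 2 + kn * x0 * (p1 - p0)) &&
  decide (0 ≤ (g0 * (x1 - x0) - (g1 - g0) * x0) * S ^ 2 + kn * x1 * (p1 - p0)) &&
  decide (0 ≤ (g1 - g0) * S ^ 2 - kn * (p1 - p0)) &&
  V.all fun v =>
    decide (((g1 - g0) * S ^ 2 - kn * (p1 - p0)) * (x1 - x0) ^ 2 * S ^ 3 ≤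
      4 * ((v.1 * ((g0 * (x1 - x0) - (g1 - g0) * x0) * S ^ 2 + kn * x0 * (p1 - p0)) +
        x0 * (x0 * ((g1 - g0) * S ^ 2 - kn * (p1 - p0)) - kn * S * (x1 - x0))) * S ^ 3 -
        v.2 * ((x1 - x0) * (g0 * S ^ 2 - kn * p0) ^ 2))) &&
    decide (((g1 - g0) * S ^ 2 - kn * (p1 - p0)) * (x1 - x0) ^ 2 * S ^ 3 ≤
      4 * ((v.1 * ((g0 * (x1 - x0) - (g1 - g0) * x0) * S ^ 2 + kn * x1 * (p1 - p0)) +
        x1 * (x1 * ((g1 - g0) * S ^ 2 - kn * (p1 - p0)) - kn * S * (x1 - x0))) * S ^ 3 -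
        v.2 * ((x1 - x0) * (g1 * S ^ 2 - kn * p1) ^ 2)))

/-- the real vertices -/
def rV (S : ℤ) (V : List (ℤ × ℤ)) : List (ℝ × ℝ) := V.map fun v => ((v.1 : ℝ) / S, (v.2 : ℝ) / S)

theorem vtx {s w x0 g0 dg dp kn x φ L Y Yn : ℝ} (hs : 0 < s) (hw : 0 < w)
    (h : (dg * s ^ 2 - kn * dp) * w ^ 2 * s ^ 3 ≤
      4 * ((φ * ((g0 * w - dg * x0) * s ^ 2 + kn * x * dp) +
        x * (x * (dg * s ^ 2 - kn * dp) - kn * s * w)) * s ^ 3 - L * (w * Yn ^ 2)))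
    (hY : Y = Yn / s ^ 3) :
    (dg / w - kn / s ^ 2 * (dp / w)) * (w / s) ^ 2 / 4 ≤
      φ / s * ((g0 / s - dg / w * (x0 / s)) + kn / s ^ 2 * (x / s) * (dp / w))
      + x / s * (x / s * (dg / w - kn / s ^ 2 * (dp / w)) - kn / s ^ 2) - L / s * Y ^ 2 := by
  rw [← sub_nonneg]
  have e : φ / s * ((g0 / s - dg / w * (x0 / s)) + kn / s ^ 2 * (x / s) * (dp / w))
      + x / s * (x / s * (dg / w - kn / s ^ 2 * (dp / w)) - kn / s ^ 2) - L / s * Y ^ 2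
      - (dg / w - kn / s ^ 2 * (dp / w)) * (w / s) ^ 2 / 4
      = (4 * ((φ * ((g0 * w - dg * x0) * s ^ 2 + kn * x * dp) +
        x * (x * (dg * s ^ 2 - kn * dp) - kn * s * w)) * s ^ 3 - L * (w * Yn ^ 2))
        - (dg * s ^ 2 - kn * dp) * w ^ 2 * s ^ 3) / (4 * s ^ 7 * w) := by
    rw [hY]
    field_simp
  rw [e]
  exact div_nonneg (sub_nonneg.2 h) (by positivity)

theorem cor_of {S x0 g0 p0 x1 g1 p1 kn : ℤ} {V : List (ℤ × ℤ)} (hS : 0 < S) (hx : x0 < x1)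
    (h : corz S x0 g0 p0 x1 g1 p1 kn V = true) :
    Cor ((x0 : ℝ) / S) (g0 / S) (p0 / S) (x1 / S) (g1 / S) (p1 / S) ((kn : ℝ) / S ^ 2) (rV S V) := by
  simp only [corz, Bool.and_eq_true, decide_eq_true_eq, List.all_eq_true] at h
  obtain ⟨⟨⟨⟨⟨c1, c2⟩, c3⟩, c4⟩, c5⟩, c6⟩ := h
  have hs : (0 : ℝ) < S := by exact_mod_cast hS
  have hw : (0 : ℝ) < (x1 : ℝ) - x0 := by
    have : (x0 : ℝ) < x1 := by exact_mod_cast hx
    linarith
  have d1 : (0 : ℝ) < g0 * S ^ 2 - kn * p0 := by exact_mod_cast c1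
  have d2 : (0 : ℝ) < g1 * S ^ 2 - kn * p1 := by exact_mod_cast c2
  have d3 : (0 : ℝ) ≤ (g0 * ((x1 : ℝ) - x0) - (g1 - g0) * x0) * S ^ 2 + kn * x0 * (p1 - p0) := by
    exact_mod_cast c3
  have d4 : (0 : ℝ) ≤ (g0 * ((x1 : ℝ) - x0) - (g1 - g0) * x0) * S ^ 2 + kn * x1 * (p1 - p0) := by
    exact_mod_cast c4
  have d5 : (0 : ℝ) ≤ ((g1 : ℝ) - g0) * S ^ 2 - kn * (p1 - p0) := by exact_mod_cast c5
  have eg : ((g1 : ℝ) / S - g0 / S) / (x1 / S - x0 / S) = (g1 - g0) / ((x1 : ℝ) - x0) := by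
    have : (x1 : ℝ) / S - x0 / S ≠ 0 := by
      rw [← sub_div]
      exact (div_pos hw hs).ne'
    field_simp
  have ep : ((p1 : ℝ) / S - p0 / S) / (x1 / S - x0 / S) = (p1 - p0) / ((x1 : ℝ) - x0) := by
    have : (x1 : ℝ) / S - x0 / S ≠ 0 := by
      rw [← sub_div]
      exact (div_pos hw hs).ne'
    field_simp
  have ew : (x1 : ℝ) / S - x0 / S = ((x1 : ℝ) - x0) / S := by rw [sub_div]
  refine ⟨?_, ?_, ?_, ?_, ?_, fun v hv => ?_, fun v hv => ?_⟩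
  · have e : (g0 : ℝ) / S - kn / S ^ 2 * (p0 / S) = (g0 * S ^ 2 - kn * p0) / S ^ 3 := by
      field_simp
    rw [e]
    positivity
  · have e : (g1 : ℝ) / S - kn / S ^ 2 * (p1 / S) = (g1 * S ^ 2 - kn * p1) / S ^ 3 := by
      field_simp
    rw [e]
    positivity
  · rw [eg, ep]
    have e : ((g0 : ℝ) / S - (g1 - g0) / ((x1 : ℝ) - x0) * (x0 / S)) + kn / S ^ 2 * (x0 / S) * ((p1 - p0) / ((x1 : ℝ) - x0))
        = ((g0 * ((x1 : ℝ) - x0) - (g1 - g0) * x0) * S ^ 2 + kn * x0 * (p1 - p0)) / (S ^ 3 * ((x1 : ℝ) - x0)) := by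
      field_simp
    rw [e]
    positivity
  · rw [eg, ep]
    have e : ((g0 : ℝ) / S - (g1 - g0) / ((x1 : ℝ) - x0) * (x0 / S)) + kn / S ^ 2 * (x1 / S) * ((p1 - p0) / ((x1 : ℝ) - x0))
        = ((g0 * ((x1 : ℝ) - x0) - (g1 - g0) * x0) * S ^ 2 + kn * x1 * (p1 - p0)) / (S ^ 3 * ((x1 : ℝ) - x0)) := by
      field_simp
    rw [e]
    positivity
  · rw [eg, ep]
    have e : ((g1 : ℝ) - g0) / ((x1 : ℝ) - x0) - kn / S ^ 2 * ((p1 - p0) / ((x1 : ℝ) - x0))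
        = ((g1 - g0) * S ^ 2 - kn * (p1 - p0)) / (S ^ 2 * ((x1 : ℝ) - x0)) := by
      field_simp
    rw [e]
    positivity
  · obtain ⟨v', hv', rfl⟩ := List.mem_map.1 hv
    have h1 := (c6 v' hv').1
    have h2 : (((g1 : ℝ) - g0) * S ^ 2 - kn * (p1 - p0)) * ((x1 : ℝ) - x0) ^ 2 * S ^ 3 ≤
      4 * ((v'.1 * ((g0 * ((x1 : ℝ) - x0) - (g1 - g0) * x0) * S ^ 2 + kn * x0 * (p1 - p0)) +
        x0 * (x0 * (((g1 : ℝ) - g0) * S ^ 2 - kn * (p1 - p0)) - kn * S * ((x1 : ℝ) - x0))) * S ^ 3 -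
        v'.2 * (((x1 : ℝ) - x0) * (g0 * S ^ 2 - kn * p0) ^ 2)) := by exact_mod_cast h1
    rw [eg, ep, ew]
    exact vtx hs hw h2 (by field_simp)
  · obtain ⟨v', hv', rfl⟩ := List.mem_map.1 hv
    have h1 := (c6 v' hv').2
    have h2 : (((g1 : ℝ) - g0) * S ^ 2 - kn * (p1 - p0)) * ((x1 : ℝ) - x0) ^ 2 * S ^ 3 ≤
      4 * ((v'.1 * ((g0 * ((x1 : ℝ) - x0) - (g1 - g0) * x0) * S ^ 2 + kn * x1 * (p1 - p0)) +
        x1 * (x1 * (((g1 : ℝ) - g0) * S ^ 2 - kn * (p1 - p0)) - kn * S * ((x1 : ℝ) - x0))) * S ^ 3 -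
        v'.2 * (((x1 : ℝ) - x0) * (g1 * S ^ 2 - kn * p1) ^ 2)) := by exact_mod_cast h1
    rw [eg, ep, ew]
    exact vtx hs hw h2 (by field_simp)

/-- the check of one cell -/
def cellz (S kX al : ℤ) (V : List (ℤ × ℤ)) (a b : ℤ × ℤ × ℤ) : Bool :=
  decide (a.1 < b.1) && decide (0 ≤ a.1) &&
  corz S a.1 a.2.1 a.2.2 b.1 b.2.1 b.2.2 0 V &&
  corz S a.1 a.2.1 a.2.2 b.1 b.2.1 b.2.2 (min (kX * S) (al * b.1)) V &&
  (decide (min (kX * S) (al * b.1) * S * (b.1 - a.1) ≤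
      a.1 * ((b.2.1 - a.2.1) * S ^ 2 - min (kX * S) (al * b.1) * (b.2.2 - a.2.2))) ||
    (decide (al * (b.1 - a.1) ≤ (b.2.1 - a.2.1) * S) &&
      decide (al * S * (b.1 - a.1) ≤ (b.2.1 - a.2.1) * S ^ 2 - min (kX * S) (al * b.1) * (b.2.2 - a.2.2))))

/-- consecutive nodes -/
def chkN (S kX al : ℤ) (V : List (ℤ × ℤ)) : List (ℤ × ℤ × ℤ) → Bool
  | a :: b :: l => cellz S kX al V a b && chkN S kX al V (b :: l)
  | _ => true

/-- **the check**: scale `S`, nodes `(x, g, p)`, vertices `(φ, L)`, bounds `kX`, `al`, all over `S` -/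
def chk (S kX al : ℤ) (V : List (ℤ × ℤ)) (N : List (ℤ × ℤ × ℤ)) : Bool :=
  decide (0 < S) && decide (0 ≤ al) && (V.all fun v => decide (0 ≤ v.2)) && chkN S kX al V N

theorem cell_of {S kX al : ℤ} {V : List (ℤ × ℤ)} {a b : ℤ × ℤ × ℤ} (hS : 0 < S) (hal : 0 ≤ al)
    (hV : ∀ v ∈ V, 0 ≤ v.2) (h : cellz S kX al V a b = true) :
    RowCell ((a.1 : ℝ) / S) (a.2.1 / S) (a.2.2 / S) (b.1 / S) (b.2.1 / S) (b.2.2 / S) (kX / S) (al / S)
      (rV S V) := by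
  simp only [cellz, Bool.and_eq_true, Bool.or_eq_true, decide_eq_true_eq] at h
  obtain ⟨⟨⟨⟨hx, hx0⟩, k0⟩, k1⟩, hB⟩ := h
  have hs : (0 : ℝ) < S := by exact_mod_cast hS
  have hw : (0 : ℝ) < (b.1 : ℝ) - a.1 := by
    have : (a.1 : ℝ) < b.1 := by exact_mod_cast hx
    linarith
  have C0 := cor_of hS hx k0
  have C1 := cor_of hS hx k1
  rw [Int.cast_zero, zero_div] at C0
  set kn : ℤ := min (kX * S) (al * b.1) with hkn
  have eg : ((b.2.1 : ℝ) / S - a.2.1 / S) / (b.1 / S - a.1 / S) = (b.2.1 - a.2.1) / ((b.1 : ℝ) - a.1) := by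
    have : (b.1 : ℝ) / S - a.1 / S ≠ 0 := by
      rw [← sub_div]
      exact (div_pos hw hs).ne'
    field_simp
  have ep : ((b.2.2 : ℝ) / S - a.2.2 / S) / (b.1 / S - a.1 / S) = (b.2.2 - a.2.2) / ((b.1 : ℝ) - a.1) := by
    have : (b.1 : ℝ) / S - a.1 / S ≠ 0 := by
      rw [← sub_div]
      exact (div_pos hw hs).ne'
    field_simp
  refine rowCell_of (kb := (kn : ℝ) / S ^ 2) (div_lt_div_of_pos_right (by linarith) hs)
    (div_nonneg (by exact_mod_cast hx0) hs.le) ?_ ?_ (div_nonneg (by exact_mod_cast hal) hs.le) C0 C1 ?_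
  · intro v hv
    obtain ⟨v', hv', rfl⟩ := List.mem_map.1 hv
    exact div_nonneg (by exact_mod_cast hV v' hv') hs.le
  · rw [hkn]
    push_cast
    rw [← min_div_div_right (by positivity : (0 : ℝ) ≤ (S : ℝ) ^ 2)]
    congr 1 <;> field_simp
  · rw [eg, ep]
    rcases hB with hB | ⟨hB0, hB1⟩
    · left
      have h1 : (kn : ℝ) * S * ((b.1 : ℝ) - a.1) ≤ a.1 * ((b.2.1 - a.2.1) * S ^ 2 - kn * (b.2.2 - a.2.2)) := by
        exact_mod_cast hB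
      rw [← sub_nonneg]
      have e : (a.1 : ℝ) / S * ((b.2.1 - a.2.1) / ((b.1 : ℝ) - a.1) - kn / S ^ 2 * ((b.2.2 - a.2.2) / ((b.1 : ℝ) - a.1)))
          - kn / S ^ 2 = (a.1 * ((b.2.1 - a.2.1) * S ^ 2 - kn * (b.2.2 - a.2.2)) - kn * S * ((b.1 : ℝ) - a.1))
            / (S ^ 3 * ((b.1 : ℝ) - a.1)) := by
        field_simp
      rw [e]
      exact div_nonneg (sub_nonneg.2 h1) (by positivity)
    · right
      have h0 : (al : ℝ) * ((b.1 : ℝ) - a.1) ≤ (b.2.1 - a.2.1) * S := by exact_mod_cast hB0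
      have h1 : (al : ℝ) * S * ((b.1 : ℝ) - a.1) ≤ (b.2.1 - a.2.1) * S ^ 2 - kn * (b.2.2 - a.2.2) := by
        exact_mod_cast hB1
      constructor
      · rw [div_le_div_iff₀ hs hw]
        exact h0
      · rw [← sub_nonneg]
        have e : ((b.2.1 : ℝ) - a.2.1) / ((b.1 : ℝ) - a.1) - kn / S ^ 2 * ((b.2.2 - a.2.2) / ((b.1 : ℝ) - a.1))
            - al / S = ((b.2.1 - a.2.1) * S ^ 2 - kn * (b.2.2 - a.2.2) - al * S * ((b.1 : ℝ) - a.1))
              / (S ^ 2 * ((b.1 : ℝ) - a.1)) := by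
          field_simp
        rw [e]
        exact div_nonneg (sub_nonneg.2 h1) (by positivity)

theorem chkN_get {S kX al : ℤ} {V : List (ℤ × ℤ)} : ∀ (N : List (ℤ × ℤ × ℤ)), chkN S kX al V N = true →
    ∀ (i : ℕ) (hi : i + 1 < N.length), cellz S kX al V (N[i]) (N[i + 1]) = true
  | [], _, i, hi => by simp at hi
  | [a], _, i, hi => by simp at hi
  | a :: b :: l, h, i, hi => by
    simp only [chkN, Bool.and_eq_true] at h
    cases i with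
    | zero => exact h.1
    | succ i =>
      have := chkN_get (b :: l) h.2 i (by simpa using hi)
      simpa using this

/-- **soundness** -/
theorem chk_sound {S kX al : ℤ} {V : List (ℤ × ℤ)} {N : List (ℤ × ℤ × ℤ)} (h : chk S kX al V N = true)
    {i : ℕ} (hi : i + 1 < N.length) :
    RowCell ((N[i].1 : ℝ) / S) (N[i].2.1 / S) (N[i].2.2 / S) (N[i + 1].1 / S) (N[i + 1].2.1 / S)
      (N[i + 1].2.2 / S) (kX / S) (al / S) (rV S V) := by
  simp only [chk, Bool.and_eq_true, decide_eq_true_eq, List.all_eq_true] at h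
  exact cell_of h.1.1.1 h.1.1.2 h.1.2 (chkN_get N h.2 i hi)

end Pool.Agent.FPX.KHN
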