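import Mathlib

/-
KHS (helper87): Boolean check (kernel, integers) of the row condition of helper95's core certificate
`r (a, ω) = ω / (g - (ω/κ) Ψ)`, with `g`, `Ψ` piecewise linear in `s = log f`, `f = ω/a`. On a cell with lower node
`(g₀, p₀)`, upper node `(g₁, p₁)`, length `d`, `f ≥ e₀` at the lower node, for `0 ≤ t ≤ d`, `0 ≤ k ≤ kb`, `f ≥ e₀ (1 + t)`:
`φ A + f B - L Y² ≥ 0`, `Y = g - k Ψ > 0`, `A = g - g' + k Ψ' ≥ 0`, `B = g' - k Ψ' - k ≥ 0`.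
-/

noncomputable section

namespace Pool.Agent.FPX.KHS

/-- the inequalities on one cell -/
def CellL (g0 p0 g1 p1 d e0 kb : ℝ) (V : List (ℝ × ℝ)) : Prop :=
  ∀ t, 0 ≤ t → t ≤ d → ∀ k, 0 ≤ k → k ≤ kb →
    0 < (g0 + (g1 - g0) / d * t) - k * (p0 + (p1 - p0) / d * t) ∧
    0 ≤ (g0 + (g1 - g0) / d * t) - (g1 - g0) / d + k * ((p1 - p0) / d) ∧
    0 ≤ (g1 - g0) / d - k * ((p1 - p0) / d) - k ∧
    ∀ v ∈ V, ∀ f, e0 * (1 + t) ≤ f →
      0 ≤ v.1 * ((g0 + (g1 - g0) / d * t) - (g1 - g0) / d + k * ((p1 - p0) / d))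
        + f * ((g1 - g0) / d - k * ((p1 - p0) / d) - k)
        - v.2 * ((g0 + (g1 - g0) / d * t) - k * (p0 + (p1 - p0) / d * t)) ^ 2

/-- below the last node: `g = gM`, `Ψ = pM - t`, `t ≤ 0` -/
def BotL (gM pM kb : ℝ) (V : List (ℝ × ℝ)) : Prop :=
  0 < gM - kb * (pM + 2 / 5) ∧ 0 < gM - kb * (2 / 5) ∧
  ∀ k, 0 ≤ k → k ≤ kb → 0 ≤ gM - k ∧ 0 ≤ gM - k * pM ∧
    ∀ v ∈ V, ∀ Y, 0 ≤ Y → Y ≤ gM - k * pM → 0 ≤ v.1 * (gM - k) - v.2 * Y ^ 2

/-- a node: `d` is the distance to the next (lower) node, `lo ≤ f ≤ up` -/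
structure Nd where
  d : ℝ
  g : ℝ
  p : ℝ
  lo : ℝ
  up : ℝ

/-- the conclusion, from the top node `f = F` downwards -/
def Rows (kX al : ℝ) (V : List (ℝ × ℝ)) : ℝ → List Nd → Prop
  | _, [] => True
  | F, [a] => a.lo ≤ F ∧ F ≤ a.up ∧ 0 < a.lo ∧ BotL a.g a.p (al * a.up) V
  | F, a :: b :: l => a.lo ≤ F ∧ F ≤ a.up ∧ 0 < a.lo ∧ 0 < a.d ∧
      CellL b.g b.p a.g a.p a.d b.lo (min kX (al * a.up)) V ∧ Rows kX al V (F * Real.exp (-a.d)) (b :: l)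

/-! ### corners -/

/-- concave quadratic functions of `k` -/
theorem conc {a b L G P k kb : ℝ} (hL : 0 ≤ L) (h0 : 0 ≤ k) (h1 : k ≤ kb)
    (a0 : 0 ≤ a - L * G ^ 2) (a1 : 0 ≤ a + kb * b - L * (G - kb * P) ^ 2) :
    0 ≤ a + k * b - L * (G - k * P) ^ 2 := by
  rcases eq_or_lt_of_le (h0.trans h1) with e | e
  · have : k = 0 := le_antisymm (by rw [e]; exact h1) h0
    rw [this]
    simpa using a0
  have b0 := mul_nonneg (sub_nonneg.2 h1) a0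
  have b1 := mul_nonneg h0 a1
  have b2 : 0 ≤ L * (k * (kb - k) * kb * P ^ 2) := by
    have := sub_nonneg.2 h1
    positivity
  have e2 : kb * (a + k * b - L * (G - k * P) ^ 2) = (kb - k) * (a - L * G ^ 2)
      + k * (a + kb * b - L * (G - kb * P) ^ 2) + L * (k * (kb - k) * kb * P ^ 2) := by ring
  have : 0 ≤ kb * (a + k * b - L * (G - k * P) ^ 2) := by
    rw [e2]
    linarith
  exact nonneg_of_mul_nonneg_right this e

/-- linear functions of `k` -/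
theorem lin {a b k kb : ℝ} (h0 : 0 ≤ k) (h1 : k ≤ kb) (a0 : 0 ≤ a) (a1 : 0 ≤ a + kb * b) :
    0 ≤ a + k * b := by
  rcases le_total 0 b with hb | hb
  · have := mul_nonneg h0 hb
    linarith
  · have := mul_le_mul_of_nonpos_right h1 hb
    linarith

theorem linp {a b k kb : ℝ} (h0 : 0 ≤ k) (h1 : k ≤ kb) (a0 : 0 < a) (a1 : 0 < a + kb * b) :
    0 < a + k * b := by
  rcases le_total 0 b with hb | hb
  · have := mul_nonneg h0 hb
    linarith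
  · have := mul_le_mul_of_nonpos_right h1 hb
    linarith

/-- the corner conditions at one `k` -/
structure Cor (g0 p0 g1 p1 d e0 k : ℝ) (V : List (ℝ × ℝ)) : Prop where
  y0 : 0 < g0 - k * p0
  y1 : 0 < g1 - k * p1
  a0 : 0 ≤ g0 - (g1 - g0) / d + k * ((p1 - p0) / d)
  a1 : 0 ≤ g1 - (g1 - g0) / d + k * ((p1 - p0) / d)
  B : 0 ≤ (g1 - g0) / d - k * ((p1 - p0) / d) - k
  v0 : ∀ v ∈ V, 0 ≤ v.1 * (g0 - (g1 - g0) / d + k * ((p1 - p0) / d))
    + e0 * ((g1 - g0) / d - k * ((p1 - p0) / d) - k) - v.2 * (g0 - k * p0) ^ 2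
  v1 : ∀ v ∈ V, 0 ≤ v.1 * (g1 - (g1 - g0) / d + k * ((p1 - p0) / d))
    + e0 * (1 + d) * ((g1 - g0) / d - k * ((p1 - p0) / d) - k) - v.2 * (g1 - k * p1) ^ 2

section real

variable {g0 p0 g1 p1 d e0 k kb t : ℝ} {V : List (ℝ × ℝ)}

theorem Cor.y (C : Cor g0 p0 g1 p1 d e0 k V) (hd : 0 < d) (h0 : 0 ≤ t) (h1 : t ≤ d) :
    0 < (g0 + (g1 - g0) / d * t) - k * (p0 + (p1 - p0) / d * t) := by
  have e : (g0 + (g1 - g0) / d * t) - k * (p0 + (p1 - p0) / d * t)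
      = (g0 - k * p0) + t * (((g1 - k * p1) - (g0 - k * p0)) / d) := by
    field_simp
    ring
  rw [e]
  refine linp h0 h1 C.y0 ?_
  have e2 : (g0 - k * p0) + d * (((g1 - k * p1) - (g0 - k * p0)) / d) = g1 - k * p1 := by
    field_simp
    ring
  rw [e2]
  exact C.y1

theorem Cor.A (C : Cor g0 p0 g1 p1 d e0 k V) (hd : 0 < d) (h0 : 0 ≤ t) (h1 : t ≤ d) :
    0 ≤ (g0 + (g1 - g0) / d * t) - (g1 - g0) / d + k * ((p1 - p0) / d) := by
  have e : (g0 + (g1 - g0) / d * t) - (g1 - g0) / d + k * ((p1 - p0) / d)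
      = (g0 - (g1 - g0) / d + k * ((p1 - p0) / d)) + t * ((g1 - g0) / d) := by ring
  rw [e]
  refine lin h0 h1 C.a0 ?_
  have e2 : (g0 - (g1 - g0) / d + k * ((p1 - p0) / d)) + d * ((g1 - g0) / d)
      = g1 - (g1 - g0) / d + k * ((p1 - p0) / d) := by
    field_simp
    ring
  rw [e2]
  exact C.a1

theorem Cor.v (C : Cor g0 p0 g1 p1 d e0 k V) (hd : 0 < d) (h0 : 0 ≤ t) (h1 : t ≤ d) {v : ℝ × ℝ}
    (hv : v ∈ V) (hL : 0 ≤ v.2) :
    0 ≤ v.1 * ((g0 + (g1 - g0) / d * t) - (g1 - g0) / d + k * ((p1 - p0) / d))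
        + e0 * (1 + t) * ((g1 - g0) / d - k * ((p1 - p0) / d) - k)
        - v.2 * ((g0 + (g1 - g0) / d * t) - k * (p0 + (p1 - p0) / d * t)) ^ 2 := by
  have q := conc (a := v.1 * (g0 - (g1 - g0) / d + k * ((p1 - p0) / d))
      + e0 * ((g1 - g0) / d - k * ((p1 - p0) / d) - k))
    (b := v.1 * ((g1 - g0) / d) + e0 * ((g1 - g0) / d - k * ((p1 - p0) / d) - k))
    (L := v.2) (G := g0 - k * p0) (P := -(((g1 - k * p1) - (g0 - k * p0)) / d)) hL h0 h1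
    (C.v0 v hv) (by
      have := C.v1 v hv
      have e : v.1 * (g0 - (g1 - g0) / d + k * ((p1 - p0) / d))
          + e0 * ((g1 - g0) / d - k * ((p1 - p0) / d) - k)
          + d * (v.1 * ((g1 - g0) / d) + e0 * ((g1 - g0) / d - k * ((p1 - p0) / d) - k))
          - v.2 * ((g0 - k * p0) - d * -(((g1 - k * p1) - (g0 - k * p0)) / d)) ^ 2
          = v.1 * (g1 - (g1 - g0) / d + k * ((p1 - p0) / d))
            + e0 * (1 + d) * ((g1 - g0) / d - k * ((p1 - p0) / d) - k) - v.2 * (g1 - k * p1) ^ 2 := by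
        field_simp
        ring
      rw [e]
      exact this)
  refine q.trans_eq ?_
  field_simp
  ring

theorem cellL_of (hd : 0 < d) (hV : ∀ v ∈ V, 0 ≤ v.2) (C0 : Cor g0 p0 g1 p1 d e0 0 V)
    (C1 : Cor g0 p0 g1 p1 d e0 kb V) : CellL g0 p0 g1 p1 d e0 kb V := by
  intro t h0 h1 k k0 k1
  have hB : 0 ≤ (g1 - g0) / d - k * ((p1 - p0) / d) - k := by
    have := lin (a := (g1 - g0) / d) (b := -((p1 - p0) / d) - 1) k0 k1 (by simpa using C0.B)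
      (by
        have := C1.B
        linarith)
    linarith
  refine ⟨?_, ?_, hB, fun v hv f hf => ?_⟩
  · have := linp (a := g0 + (g1 - g0) / d * t) (b := -(p0 + (p1 - p0) / d * t)) k0 k1
      (by simpa using C0.y hd h0 h1) (by
        have := C1.y hd h0 h1
        linarith)
    linarith
  · refine lin k0 k1 (by simpa using C0.A hd h0 h1) (C1.A hd h0 h1)
  · have q0 := C0.v hd h0 h1 hv (hV v hv)
    have q1 := C1.v hd h0 h1 hv (hV v hv)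
    have q := conc (a := v.1 * ((g0 + (g1 - g0) / d * t) - (g1 - g0) / d) + e0 * (1 + t) * ((g1 - g0) / d))
      (b := v.1 * ((p1 - p0) / d) - e0 * (1 + t) * ((p1 - p0) / d + 1)) (L := v.2)
      (G := g0 + (g1 - g0) / d * t) (P := p0 + (p1 - p0) / d * t) (hV v hv) k0 k1
      (by
        simp only [zero_mul, add_zero, sub_zero] at q0
        exact q0)
      (by
        refine q1.trans_eq ?_
        ring)
    have q2 := mul_le_mul_of_nonneg_right hf hB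
    refine q.trans ?_
    have e : v.1 * ((g0 + (g1 - g0) / d * t) - (g1 - g0) / d) + e0 * (1 + t) * ((g1 - g0) / d)
        + k * (v.1 * ((p1 - p0) / d) - e0 * (1 + t) * ((p1 - p0) / d + 1))
        - v.2 * ((g0 + (g1 - g0) / d * t) - k * (p0 + (p1 - p0) / d * t)) ^ 2
        = v.1 * ((g0 + (g1 - g0) / d * t) - (g1 - g0) / d + k * ((p1 - p0) / d))
        + e0 * (1 + t) * ((g1 - g0) / d - k * ((p1 - p0) / d) - k)
        - v.2 * ((g0 + (g1 - g0) / d * t) - k * (p0 + (p1 - p0) / d * t)) ^ 2 := by ring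
    rw [e]
    linarith

theorem botL_of {gM pM : ℝ} (hV : ∀ v ∈ V, 0 ≤ v.2) (h1 : 0 < gM - kb * (pM + 2 / 5))
    (h2 : 0 < gM - kb * (2 / 5)) (h3 : 0 ≤ gM) (h4 : 0 ≤ gM - kb) (_h5 : 0 ≤ gM - kb * pM)
    (v0 : ∀ v ∈ V, 0 ≤ v.1 * gM - v.2 * gM ^ 2)
    (v1 : ∀ v ∈ V, 0 ≤ v.1 * (gM - kb) - v.2 * (gM - kb * pM) ^ 2) : BotL gM pM kb V := by
  refine ⟨h1, h2, fun k k0 k1 => ?_⟩
  have a1 : 0 ≤ gM - k * pM := by
    have := lin (a := gM) (b := -pM) k0 k1 h3 (by linarith)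
    linarith
  refine ⟨by linarith, a1, fun v hv Y Y0 Y1 => ?_⟩
  have q := conc (a := v.1 * gM) (b := -v.1) (L := v.2) (G := gM) (P := pM) (hV v hv) k0 k1 (v0 v hv)
    (by
      have := v1 v hv
      linarith)
  have q2 : Y ^ 2 ≤ (gM - k * pM) ^ 2 := pow_le_pow_left₀ Y0 Y1 2
  have q3 := mul_le_mul_of_nonneg_left q2 (hV v hv)
  linarith

end real

/-- bounds of `exp (-x)` -/
theorem exp_lo {x : ℝ} (h0 : 0 ≤ x) (h1 : x ≤ 1) : 1 - x + x ^ 2 / 2 - x ^ 3 / 6 ≤ Real.exp (-x) := by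
  have h := Real.exp_bound (x := -x) (by rw [abs_neg, abs_of_nonneg h0]; exact h1) (n := 5) (by norm_num)
  rw [abs_neg, abs_of_nonneg h0] at h
  have h2 := (abs_le.1 h).1
  norm_num [Finset.sum_range_succ, Nat.factorial] at h2
  have h3 : x ^ 5 ≤ x ^ 4 := pow_le_pow_of_le_one h0 h1 (by norm_num)
  have h4 : 0 ≤ x ^ 4 := by positivity
  nlinarith

theorem exp_up {x : ℝ} (h0 : 0 ≤ x) (h1 : x ≤ 1) :
    Real.exp (-x) ≤ 1 - x + x ^ 2 / 2 - x ^ 3 / 6 + x ^ 4 / 24 := by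
  have h := Real.exp_bound (x := -x) (by rw [abs_neg, abs_of_nonneg h0]; exact h1) (n := 6) (by norm_num)
  rw [abs_neg, abs_of_nonneg h0] at h
  have h2 := (abs_le.1 h).2
  norm_num [Finset.sum_range_succ, Nat.factorial] at h2
  have h3 : x ^ 6 ≤ x ^ 5 := pow_le_pow_of_le_one h0 h1 (by norm_num)
  have h4 : 0 ≤ x ^ 5 := by positivity
  nlinarith

/-! ### integers -/

/-- conditions at one `k = kn / S²`; all data over `S` -/
def corz (S g0 p0 g1 p1 d e0 kn : ℤ) (V : List (ℤ × ℤ)) : Bool :=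
  decide (0 < g0 * S ^ 2 - kn * p0) && decide (0 < g1 * S ^ 2 - kn * p1) &&
  decide (0 ≤ g0 * d * S - (g1 - g0) * S ^ 2 + kn * (p1 - p0)) &&
  decide (0 ≤ g1 * d * S - (g1 - g0) * S ^ 2 + kn * (p1 - p0)) &&
  decide (0 ≤ (g1 - g0) * S ^ 2 - kn * (p1 - p0) - kn * d) &&
  V.all fun v =>
    decide (v.2 * (d * (g0 * S ^ 2 - kn * p0) ^ 2) ≤
      (v.1 * (g0 * d * S - (g1 - g0) * S ^ 2 + kn * (p1 - p0)) +
        e0 * ((g1 - g0) * S ^ 2 - kn * (p1 - p0) - kn * d)) * S ^ 4) &&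
    decide (v.2 * (d * (g1 * S ^ 2 - kn * p1) ^ 2) ≤
      (v.1 * (g1 * d * S - (g1 - g0) * S ^ 2 + kn * (p1 - p0)) * S +
        e0 * (S + d) * ((g1 - g0) * S ^ 2 - kn * (p1 - p0) - kn * d)) * S ^ 3)

/-- the real vertices -/
def rV (S : ℤ) (V : List (ℤ × ℤ)) : List (ℝ × ℝ) := V.map fun v => ((v.1 : ℝ) / S, (v.2 : ℝ) / S)

theorem cor_of {S g0 p0 g1 p1 d e0 kn : ℤ} {V : List (ℤ × ℤ)} (hS : 0 < S) (hd : 0 < d)
    (h : corz S g0 p0 g1 p1 d e0 kn V = true) :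
    Cor ((g0 : ℝ) / S) (p0 / S) (g1 / S) (p1 / S) (d / S) (e0 / S) ((kn : ℝ) / S ^ 2) (rV S V) := by
  simp only [corz, Bool.and_eq_true, decide_eq_true_eq, List.all_eq_true] at h
  obtain ⟨⟨⟨⟨⟨c1, c2⟩, c3⟩, c4⟩, c5⟩, c6⟩ := h
  have hs : (0 : ℝ) < S := by exact_mod_cast hS
  have hw : (0 : ℝ) < d := by exact_mod_cast hd
  have d1 : (0 : ℝ) < g0 * S ^ 2 - kn * p0 := by exact_mod_cast c1
  have d2 : (0 : ℝ) < g1 * S ^ 2 - kn * p1 := by exact_mod_cast c2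
  have d3 : (0 : ℝ) ≤ (g0 : ℝ) * d * S - (g1 - g0) * S ^ 2 + kn * (p1 - p0) := by exact_mod_cast c3
  have d4 : (0 : ℝ) ≤ (g1 : ℝ) * d * S - (g1 - g0) * S ^ 2 + kn * (p1 - p0) := by exact_mod_cast c4
  have d5 : (0 : ℝ) ≤ ((g1 : ℝ) - g0) * S ^ 2 - kn * (p1 - p0) - kn * d := by exact_mod_cast c5
  have eg : ((g1 : ℝ) / S - g0 / S) / (d / S) = (g1 - g0) / (d : ℝ) := by
    field_simp
  have ep : ((p1 : ℝ) / S - p0 / S) / (d / S) = (p1 - p0) / (d : ℝ) := by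
    field_simp
  refine ⟨?_, ?_, ?_, ?_, ?_, fun v hv => ?_, fun v hv => ?_⟩
  · have e : (g0 : ℝ) / S - kn / S ^ 2 * (p0 / S) = (g0 * S ^ 2 - kn * p0) / S ^ 3 := by
      field_simp
    rw [e]
    positivity
  · have e : (g1 : ℝ) / S - kn / S ^ 2 * (p1 / S) = (g1 * S ^ 2 - kn * p1) / S ^ 3 := by
      field_simp
    rw [e]
    positivity
  · rw [eg, ep]
    have e : (g0 : ℝ) / S - (g1 - g0) / (d : ℝ) + kn / S ^ 2 * ((p1 - p0) / (d : ℝ))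
        = ((g0 : ℝ) * d * S - (g1 - g0) * S ^ 2 + kn * (p1 - p0)) / (S ^ 2 * d) := by
      field_simp
    rw [e]
    positivity
  · rw [eg, ep]
    have e : (g1 : ℝ) / S - (g1 - g0) / (d : ℝ) + kn / S ^ 2 * ((p1 - p0) / (d : ℝ))
        = ((g1 : ℝ) * d * S - (g1 - g0) * S ^ 2 + kn * (p1 - p0)) / (S ^ 2 * d) := by
      field_simp
    rw [e]
    positivity
  · rw [eg, ep]
    have e : ((g1 : ℝ) - g0) / (d : ℝ) - kn / S ^ 2 * ((p1 - p0) / (d : ℝ)) - kn / S ^ 2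
        = (((g1 : ℝ) - g0) * S ^ 2 - kn * (p1 - p0) - kn * d) / (S ^ 2 * d) := by
      field_simp
    rw [e]
    positivity
  · obtain ⟨v', hv', rfl⟩ := List.mem_map.1 hv
    have h1 := (c6 v' hv').1
    have h2 : (v'.2 : ℝ) * (d * (g0 * S ^ 2 - kn * p0) ^ 2) ≤
      (v'.1 * (g0 * d * S - (g1 - g0) * S ^ 2 + kn * (p1 - p0)) +
        e0 * ((g1 - g0) * S ^ 2 - kn * (p1 - p0) - kn * d)) * S ^ 4 := by exact_mod_cast h1
    rw [eg, ep]
    have e : (v'.1 : ℝ) / S * (g0 / S - (g1 - g0) / (d : ℝ) + kn / S ^ 2 * ((p1 - p0) / (d : ℝ)))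
        + e0 / S * ((g1 - g0) / (d : ℝ) - kn / S ^ 2 * ((p1 - p0) / (d : ℝ)) - kn / S ^ 2)
        - v'.2 / S * (g0 / S - kn / S ^ 2 * (p0 / S)) ^ 2
        = ((v'.1 * (g0 * d * S - (g1 - g0) * S ^ 2 + kn * (p1 - p0)) +
        e0 * ((g1 - g0) * S ^ 2 - kn * (p1 - p0) - kn * d)) * S ^ 4
        - (v'.2 : ℝ) * (d * (g0 * S ^ 2 - kn * p0) ^ 2)) / (S ^ 7 * d) := by
      field_simp
    rw [e]
    exact div_nonneg (sub_nonneg.2 h2) (by positivity)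
  · obtain ⟨v', hv', rfl⟩ := List.mem_map.1 hv
    have h1 := (c6 v' hv').2
    have h2 : (v'.2 : ℝ) * (d * (g1 * S ^ 2 - kn * p1) ^ 2) ≤
      (v'.1 * (g1 * d * S - (g1 - g0) * S ^ 2 + kn * (p1 - p0)) * S +
        e0 * (S + d) * ((g1 - g0) * S ^ 2 - kn * (p1 - p0) - kn * d)) * S ^ 3 := by exact_mod_cast h1
    rw [eg, ep]
    have e : (v'.1 : ℝ) / S * (g1 / S - (g1 - g0) / (d : ℝ) + kn / S ^ 2 * ((p1 - p0) / (d : ℝ)))
        + e0 / S * (1 + d / S) * ((g1 - g0) / (d : ℝ) - kn / S ^ 2 * ((p1 - p0) / (d : ℝ)) - kn / S ^ 2)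
        - v'.2 / S * (g1 / S - kn / S ^ 2 * (p1 / S)) ^ 2
        = ((v'.1 * (g1 * d * S - (g1 - g0) * S ^ 2 + kn * (p1 - p0)) * S +
        e0 * (S + d) * ((g1 - g0) * S ^ 2 - kn * (p1 - p0) - kn * d)) * S ^ 3
        - (v'.2 : ℝ) * (d * (g1 * S ^ 2 - kn * p1) ^ 2)) / (S ^ 7 * d) := by
      field_simp
    rw [e]
    exact div_nonneg (sub_nonneg.2 h2) (by positivity)

/-- the bottom conditions -/
def botz (S g p kn : ℤ) (V : List (ℤ × ℤ)) : Bool :=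
  decide (0 < 5 * g * S ^ 2 - kn * (5 * p + 2 * S)) && decide (0 < 5 * g * S - 2 * kn) &&
  decide (0 ≤ g) && decide (0 ≤ g * S - kn) && decide (0 ≤ g * S ^ 2 - kn * p) &&
  V.all fun v =>
    decide (v.2 * g ^ 2 ≤ v.1 * g * S) &&
    decide (v.2 * (g * S ^ 2 - kn * p) ^ 2 ≤ v.1 * (g * S - kn) * S ^ 4)

theorem bot_of {S g p kn : ℤ} {V : List (ℤ × ℤ)} (hS : 0 < S) (hV : ∀ v ∈ V, 0 ≤ v.2)
    (h : botz S g p kn V = true) : BotL ((g : ℝ) / S) (p / S) ((kn : ℝ) / S ^ 2) (rV S V) := by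
  simp only [botz, Bool.and_eq_true, decide_eq_true_eq, List.all_eq_true] at h
  obtain ⟨⟨⟨⟨⟨c1, c2⟩, c3⟩, c4⟩, c5⟩, c6⟩ := h
  have hs : (0 : ℝ) < S := by exact_mod_cast hS
  have d1 : (0 : ℝ) < 5 * g * S ^ 2 - kn * (5 * p + 2 * S) := by exact_mod_cast c1
  have d2 : (0 : ℝ) < 5 * g * S - 2 * kn := by exact_mod_cast c2
  have d3 : (0 : ℝ) ≤ g := by exact_mod_cast c3
  have d4 : (0 : ℝ) ≤ (g : ℝ) * S - kn := by exact_mod_cast c4
  have d5 : (0 : ℝ) ≤ (g : ℝ) * S ^ 2 - kn * p := by exact_mod_cast c5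
  refine botL_of ?_ ?_ ?_ (div_nonneg d3 hs.le) ?_ ?_ (fun v hv => ?_) (fun v hv => ?_)
  · intro v hv
    obtain ⟨v', hv', rfl⟩ := List.mem_map.1 hv
    exact div_nonneg (by exact_mod_cast hV v' hv') hs.le
  · have e : (g : ℝ) / S - kn / S ^ 2 * (p / S + 2 / 5) = (5 * g * S ^ 2 - kn * (5 * p + 2 * S)) / (5 * S ^ 3) := by
      field_simp
    rw [e]
    positivity
  · have e : (g : ℝ) / S - kn / S ^ 2 * (2 / 5) = (5 * g * S - 2 * kn) / (5 * S ^ 2) := by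
      field_simp
    rw [e]
    positivity
  · have e : (g : ℝ) / S - kn / S ^ 2 = ((g : ℝ) * S - kn) / S ^ 2 := by
      field_simp
    rw [e]
    positivity
  · have e : (g : ℝ) / S - kn / S ^ 2 * (p / S) = ((g : ℝ) * S ^ 2 - kn * p) / S ^ 3 := by
      field_simp
    rw [e]
    positivity
  · obtain ⟨v', hv', rfl⟩ := List.mem_map.1 hv
    have h1 := (c6 v' hv').1
    have h2 : (v'.2 : ℝ) * g ^ 2 ≤ v'.1 * g * S := by exact_mod_cast h1
    have e : (v'.1 : ℝ) / S * (g / S) - v'.2 / S * (g / S) ^ 2 = (v'.1 * g * S - v'.2 * g ^ 2) / S ^ 3 := by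
      field_simp
    rw [e]
    exact div_nonneg (sub_nonneg.2 h2) (by positivity)
  · obtain ⟨v', hv', rfl⟩ := List.mem_map.1 hv
    have h1 := (c6 v' hv').2
    have h2 : (v'.2 : ℝ) * (g * S ^ 2 - kn * p) ^ 2 ≤ v'.1 * (g * S - kn) * S ^ 4 := by exact_mod_cast h1
    have e : (v'.1 : ℝ) / S * (g / S - kn / S ^ 2) - v'.2 / S * (g / S - kn / S ^ 2 * (p / S)) ^ 2
        = (v'.1 * (g * S - kn) * S ^ 4 - v'.2 * (g * S ^ 2 - kn * p) ^ 2) / S ^ 7 := by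
      field_simp
    rw [e]
    exact div_nonneg (sub_nonneg.2 h2) (by positivity)

/-- integer nodes `(d, g, p, lo, up)` -/
abbrev Zn := ℤ × ℤ × ℤ × ℤ × ℤ

def rn (S : ℤ) (a : Zn) : Nd :=
  ⟨(a.1 : ℝ) / S, (a.2.1 : ℝ) / S, (a.2.2.1 : ℝ) / S, (a.2.2.2.1 : ℝ) / S, (a.2.2.2.2 : ℝ) / S⟩

def rN (S : ℤ) (N : List Zn) : List Nd := N.map (rn S)

/-- the cell between the upper node `a` and the lower node `b` -/
def cellz (S kX al : ℤ) (V : List (ℤ × ℤ)) (a b : Zn) : Bool :=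
  decide (0 < a.1) && decide (a.1 ≤ S) &&
  corz S b.2.1 b.2.2.1 a.2.1 a.2.2.1 a.1 b.2.2.2.1 0 V &&
  corz S b.2.1 b.2.2.1 a.2.1 a.2.2.1 a.1 b.2.2.2.1 (min (kX * S) (al * a.2.2.2.2)) V &&
  decide (b.2.2.2.1 * (6 * S ^ 3) ≤
    a.2.2.2.1 * (6 * S ^ 3 - 6 * S ^ 2 * a.1 + 3 * S * a.1 ^ 2 - a.1 ^ 3)) &&
  decide (a.2.2.2.2 * (24 * S ^ 4 - 24 * S ^ 3 * a.1 + 12 * S ^ 2 * a.1 ^ 2 - 4 * S * a.1 ^ 3 + a.1 ^ 4) ≤
    b.2.2.2.2 * (24 * S ^ 4))

/-- consecutive nodes, from the top -/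
def chkN (S kX al : ℤ) (V : List (ℤ × ℤ)) : List Zn → Bool
  | [] => true
  | [a] => decide (0 < a.2.2.2.1) && botz S a.2.1 a.2.2.1 (al * a.2.2.2.2) V
  | a :: b :: l => decide (0 < a.2.2.2.1) && cellz S kX al V a b && chkN S kX al V (b :: l)

/-- **the check**: scale `S`, top `f = phN`, bounds `kX`, `al`, vertices `(φ, L)`, nodes `(d, g, p, lo, up)`, all
over `S`, from the top node downwards -/
def chk (S phN kX al : ℤ) (V : List (ℤ × ℤ)) (N : List Zn) : Bool :=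
  decide (0 < S) && (V.all fun v => decide (0 ≤ v.2)) &&
  (match N with
    | [] => true
    | a :: _ => decide (a.2.2.2.1 ≤ phN) && decide (phN ≤ a.2.2.2.2)) && chkN S kX al V N

theorem cell_of {S kX al : ℤ} {V : List (ℤ × ℤ)} {a b : Zn} (hS : 0 < S) (hV : ∀ v ∈ V, 0 ≤ v.2)
    (h : cellz S kX al V a b = true) :
    0 < (rn S a).d ∧
    CellL (rn S b).g (rn S b).p (rn S a).g (rn S a).p (rn S a).d (rn S b).lo
      (min ((kX : ℝ) / S) ((al : ℝ) / S * (rn S a).up)) (rV S V) ∧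
    ∀ F : ℝ, 0 < (rn S a).lo → (rn S a).lo ≤ F → F ≤ (rn S a).up →
      (rn S b).lo ≤ F * Real.exp (-(rn S a).d) ∧ F * Real.exp (-(rn S a).d) ≤ (rn S b).up := by
  simp only [cellz, Bool.and_eq_true, decide_eq_true_eq] at h
  obtain ⟨⟨⟨⟨⟨hd, hd1⟩, k0⟩, k1⟩, he⟩, hu⟩ := h
  have hs : (0 : ℝ) < S := by exact_mod_cast hS
  have hw : (0 : ℝ) < a.1 := by exact_mod_cast hd
  have C0 := cor_of hS hd k0
  have C1 := cor_of hS hd k1
  rw [Int.cast_zero, zero_div] at C0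
  have hdS : 0 < (a.1 : ℝ) / S := div_pos hw hs
  refine ⟨hdS, ?_, fun F hl hF0 hF1 => ?_⟩
  · have ek : min ((kX : ℝ) / S) ((al : ℝ) / S * (rn S a).up)
        = ((min (kX * S) (al * a.2.2.2.2) : ℤ) : ℝ) / S ^ 2 := by
      push_cast
      rw [← min_div_div_right (by positivity : (0 : ℝ) ≤ (S : ℝ) ^ 2)]
      simp only [rn]
      congr 1 <;> field_simp
    rw [ek]
    refine cellL_of hdS ?_ C0 C1
    intro v hv
    obtain ⟨v', hv', rfl⟩ := List.mem_map.1 hv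
    exact div_nonneg (by exact_mod_cast hV v' hv') hs.le
  · have hx1 : (a.1 : ℝ) / S ≤ 1 := by
      rw [div_le_one hs]
      exact_mod_cast hd1
    have e1 := exp_lo hdS.le hx1
    have e2 := exp_up hdS.le hx1
    have he' : (b.2.2.2.1 : ℝ) * (6 * S ^ 3) ≤
      a.2.2.2.1 * (6 * S ^ 3 - 6 * S ^ 2 * a.1 + 3 * S * a.1 ^ 2 - a.1 ^ 3) := by exact_mod_cast he
    have hu' : (a.2.2.2.2 : ℝ) * (24 * S ^ 4 - 24 * S ^ 3 * a.1 + 12 * S ^ 2 * a.1 ^ 2 - 4 * S * a.1 ^ 3 + a.1 ^ 4) ≤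
      b.2.2.2.2 * (24 * S ^ 4) := by exact_mod_cast hu
    have hF : 0 < F := hl.trans_le hF0
    have hup : 0 < (rn S a).up := hF.trans_le hF1
    constructor
    · calc (rn S b).lo ≤ (rn S a).lo * (1 - (a.1 : ℝ) / S + ((a.1 : ℝ) / S) ^ 2 / 2 - ((a.1 : ℝ) / S) ^ 3 / 6) := by
            rw [← sub_nonneg]
            have e : (rn S a).lo * (1 - (a.1 : ℝ) / S + ((a.1 : ℝ) / S) ^ 2 / 2 - ((a.1 : ℝ) / S) ^ 3 / 6)
                - (rn S b).lo = (a.2.2.2.1 * (6 * S ^ 3 - 6 * S ^ 2 * a.1 + 3 * S * a.1 ^ 2 - a.1 ^ 3)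
                - (b.2.2.2.1 : ℝ) * (6 * S ^ 3)) / (6 * S ^ 4) := by
              simp only [rn]
              field_simp
              ring
            rw [e]
            exact div_nonneg (sub_nonneg.2 he') (by positivity)
        _ ≤ (rn S a).lo * Real.exp (-(rn S a).d) := mul_le_mul_of_nonneg_left e1 hl.le
        _ ≤ F * Real.exp (-(rn S a).d) := mul_le_mul_of_nonneg_right hF0 (Real.exp_pos _).le
    · calc F * Real.exp (-(rn S a).d) ≤ (rn S a).up * Real.exp (-(rn S a).d) :=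
            mul_le_mul_of_nonneg_right hF1 (Real.exp_pos _).le
        _ ≤ (rn S a).up * (1 - (a.1 : ℝ) / S + ((a.1 : ℝ) / S) ^ 2 / 2 - ((a.1 : ℝ) / S) ^ 3 / 6
              + ((a.1 : ℝ) / S) ^ 4 / 24) := mul_le_mul_of_nonneg_left e2 hup.le
        _ ≤ (rn S b).up := by
            rw [← sub_nonneg]
            have e : (rn S b).up - (rn S a).up * (1 - (a.1 : ℝ) / S + ((a.1 : ℝ) / S) ^ 2 / 2 - ((a.1 : ℝ) / S) ^ 3 / 6
                + ((a.1 : ℝ) / S) ^ 4 / 24) = (b.2.2.2.2 * (24 * S ^ 4)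
                - (a.2.2.2.2 : ℝ) * (24 * S ^ 4 - 24 * S ^ 3 * a.1 + 12 * S ^ 2 * a.1 ^ 2 - 4 * S * a.1 ^ 3 + a.1 ^ 4))
                / (24 * S ^ 5) := by
              simp only [rn]
              field_simp
              ring
            rw [e]
            exact div_nonneg (sub_nonneg.2 hu') (by positivity)

theorem rows_of {S kX al : ℤ} {V : List (ℤ × ℤ)} (hS : 0 < S) (hV : ∀ v ∈ V, 0 ≤ v.2) :
    ∀ (N : List Zn) (a : Zn) (F : ℝ), chkN S kX al V (a :: N) = true → (rn S a).lo ≤ F → F ≤ (rn S a).up →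
      Rows ((kX : ℝ) / S) ((al : ℝ) / S) (rV S V) F (rN S (a :: N))
  | [], a, F, h, h0, h1 => by
    simp only [chkN, Bool.and_eq_true, decide_eq_true_eq] at h
    have hs : (0 : ℝ) < S := by exact_mod_cast hS
    refine ⟨h0, h1, div_pos (by exact_mod_cast h.1) hs, ?_⟩
    have e : (al : ℝ) / S * (rn S a).up = ((al * a.2.2.2.2 : ℤ) : ℝ) / S ^ 2 := by
      push_cast
      simp only [rn]
      field_simp
    rw [e]
    exact bot_of hS hV h.2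
  | b :: l, a, F, h, h0, h1 => by
    simp only [chkN, Bool.and_eq_true, decide_eq_true_eq] at h
    have hs : (0 : ℝ) < S := by exact_mod_cast hS
    have hl : 0 < (rn S a).lo := div_pos (by exact_mod_cast h.1.1) hs
    obtain ⟨c1, c2, c3⟩ := cell_of hS hV h.1.2
    obtain ⟨c4, c5⟩ := c3 F hl h0 h1
    exact ⟨h0, h1, hl, c1, c2, rows_of hS hV l b _ h.2 c4 c5⟩

/-- **soundness** -/
theorem rows {S phN kX al : ℤ} {V : List (ℤ × ℤ)} {N : List Zn} (h : chk S phN kX al V N = true) :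
    Rows ((kX : ℝ) / S) ((al : ℝ) / S) (rV S V) ((phN : ℝ) / S) (rN S N) := by
  simp only [chk, Bool.and_eq_true, decide_eq_true_eq, List.all_eq_true] at h
  obtain ⟨⟨⟨hS, hV⟩, h0⟩, h1⟩ := h
  have hs : (0 : ℝ) < S := by exact_mod_cast hS
  rcases N with _ | ⟨a, N⟩
  · trivial
  · simp only [Bool.and_eq_true, decide_eq_true_eq] at h0
    refine rows_of hS hV N a _ h1 ?_ ?_
    · exact div_le_div_of_nonneg_right (by exact_mod_cast h0.1) hs.le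
    · exact div_le_div_of_nonneg_right (by exact_mod_cast h0.2) hs.le

theorem lo_pos {kX al : ℝ} {V : List (ℝ × ℝ)} : ∀ {l : List Nd} {a : Nd} {F : ℝ},
    Rows kX al V F (a :: l) → 0 < a.lo
  | [], _, _, h => h.2.2.1
  | _ :: _, _, _, h => h.2.2.1

end Pool.Agent.FPX.KHS
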