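import Mathlib
import Pool.Agent.FPX.STC
import Pool.Agent.FPX.S7W

/-
MCU (helper95): the level lemmas of S7W (helper53 / 91) and STC (helper91) for functions `S` with kinks
(tables): `S` is continuous and has at every point an upper first order expansion by a FINITE set of
linear functionals (the gradients of the cells containing the point). Static form `mcu_band`, `mcu_top`
with the pointwise inequality in linear form.
-/

open MeasureTheory Set Filter Topology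
open scoped ENNReal NNReal

noncomputable section

namespace Pool.Agent.FPX

/-- upper first order expansion of `f` at `z₀` inside `dom` by the functionals of a finite set -/
structure UpEx {E : Type*} [NormedAddCommGroup E] [NormedSpace ℝ E] (f : E → ℝ) (dom : Set E)
    (G : Set (E →L[ℝ] ℝ)) (z₀ : E) : Prop where
  fin : G.Finite
  ex : ∀ ε : ℝ, 0 < ε → ∀ᶠ z in 𝓝[dom] z₀, ∃ A ∈ G, f z - f z₀ ≤ A (z - z₀) + ε * ‖z - z₀‖

theorem UpEx.of_hasFDerivAt {E : Type*} [NormedAddCommGroup E] [NormedSpace ℝ E] {f : E → ℝ}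
    {dom : Set E} {A : E →L[ℝ] ℝ} {z₀ : E} (h : HasFDerivAt f A z₀) : UpEx f dom {A} z₀ := by
  refine ⟨finite_singleton _, fun ε hε => ?_⟩
  have h1 := (h.isLittleO.def hε).filter_mono (nhdsWithin_le_nhds (s := dom))
  filter_upwards [h1] with z hz
  refine ⟨A, rfl, ?_⟩
  have := (le_abs_self _).trans hz
  linarith

/-- mean value inequality with right slopes -/
theorem up_mean {f : ℝ → ℝ} {a b C : ℝ} (hab : a ≤ b) (hf : ContinuousOn f (Icc a b))
    (h : ∀ x ∈ Ico a b, ∀ r, C < r → ∃ᶠ z in 𝓝[>] x, slope f x z < r) : f b - f a ≤ C * (b - a) := by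
  have h1 := image_le_of_liminf_slope_right_le_deriv_boundary hf
    (B := fun x => f a + C * (x - a)) (B' := fun _ => C) (by simp)
    (by fun_prop) (fun x _ => by
      have h2 : HasDerivAt (fun x : ℝ => f a + C * (x - a)) (C * 1) x :=
        (((hasDerivAt_id x).sub_const a).const_mul C).const_add (f a)
      rw [mul_one] at h2
      exact h2.hasDerivWithinAt) h (right_mem_Icc.2 hab)
  have h3 : f b ≤ f a + C * (b - a) := h1
  linarith

/-- mean value inequality along a segment from upper expansions -/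
theorem upEx_seg {E : Type*} [NormedAddCommGroup E] [NormedSpace ℝ E] {f : E → ℝ} {dom : Set E}
    (hc : ContinuousOn f dom) {G : E → Set (E →L[ℝ] ℝ)} (z₀ d : E) {a b C : ℝ} (hab : a ≤ b)
    (hm : ∀ r, a ≤ r → r ≤ b → z₀ + r • d ∈ dom)
    (hG : ∀ r, a ≤ r → r ≤ b → UpEx f dom (G (z₀ + r • d)) (z₀ + r • d))
    (hC : ∀ r, a ≤ r → r ≤ b → ∀ A ∈ G (z₀ + r • d), A d ≤ C) :
    f (z₀ + b • d) - f (z₀ + a • d) ≤ C * (b - a) := by
  have hcont : Continuous fun r : ℝ => z₀ + r • d := by fun_prop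
  refine up_mean (f := fun r => f (z₀ + r • d)) hab
    (hc.comp hcont.continuousOn fun r hr => hm r hr.1 hr.2) fun x hx r hr => ?_
  have hd0 : 0 < ‖d‖ + 1 := by positivity
  set ε := (r - C) / (2 * (‖d‖ + 1)) with hε
  have hε0 : 0 < ε := by
    have : 0 < r - C := by linarith
    positivity
  have h1 := (hG x hx.1 hx.2.le).ex ε hε0
  have h2 : Tendsto (fun r : ℝ => z₀ + r • d) (𝓝[>] x) (𝓝[dom] (z₀ + x • d)) := by
    refine tendsto_nhdsWithin_iff.2 ⟨(hcont.tendsto x).mono_left nhdsWithin_le_nhds, ?_⟩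
    filter_upwards [Ioo_mem_nhdsGT hx.2] with z hz
    exact hm z (hx.1.trans hz.1.le) hz.2.le
  refine Filter.Eventually.frequently ?_
  filter_upwards [h2.eventually h1, self_mem_nhdsWithin] with z hz hzx
  obtain ⟨A, hA, hle⟩ := hz
  have hzx' : 0 < z - x := sub_pos.2 hzx
  have e1 : z₀ + z • d - (z₀ + x • d) = (z - x) • d := by
    rw [sub_smul]
    abel
  rw [e1, map_smul, smul_eq_mul, norm_smul, Real.norm_of_nonneg hzx'.le] at hle
  have h3 := hC x hx.1 hx.2.le A hA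
  have h4 : (z - x) * A d ≤ (z - x) * C := mul_le_mul_of_nonneg_left h3 hzx'.le
  have h5 : ε * ‖d‖ ≤ (r - C) / 2 := by
    have h6 : ε * (‖d‖ + 1) = (r - C) / 2 := by
      rw [hε]
      field_simp
    have h7 : ε * ‖d‖ ≤ ε * (‖d‖ + 1) := mul_le_mul_of_nonneg_left (by linarith) hε0.le
    linarith
  rw [slope_def_field, div_lt_iff₀ hzx']
  have h8 : ε * ((z - x) * ‖d‖) ≤ (r - C) / 2 * (z - x) := by
    have := mul_le_mul_of_nonneg_right h5 hzx'.le
    linarith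
  have h9 : 0 < (r - C) / 2 * (z - x) := mul_pos (by linarith) hzx'
  change f (z₀ + z • d) - f (z₀ + x • d) < r * (z - x)
  nlinarith

variable {Ω : Type*} [MeasurableSpace Ω]

section main

variable (μ : Measure Ω) [IsFiniteMeasure μ] {g : Ω → ℝ}

variable {ι κ : Type*} [Fintype ι] [Fintype κ]

/-- **The multi-state Hamilton-Jacobi level set lemma, with kinks.** -/
theorem s7_hjK (hg : Measurable g) {γ : ι → Ω → ℝ} (hγ : ∀ i, Integrable (γ i) μ)
    {q : κ → Ω → ℝ} (hq : ∀ j, Integrable (q j) μ) {Q : Ω → ℝ} (hQ : Integrable Q μ)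
    {r0 r1 L : ℝ} (hr : r0 ≤ r1) (hL : 0 ≤ L) {D : Set (ι → ℝ)} (hD : Convex ℝ D)
    (hF : ∀ t, r0 ≤ t → t ≤ r1 → (fun i => s7F μ g (γ i) t) ∈ D)
    {S : ℝ → (ι → ℝ) → ℝ} {G : ℝ → (ι → ℝ) → Set ((ℝ × (ι → ℝ)) →L[ℝ] ℝ)}
    (hSc : ContinuousOn (fun z : ℝ × (ι → ℝ) => S z.1 z.2) {z | r0 ≤ z.1 ∧ z.1 ≤ r1 ∧ z.2 ∈ D})
    (hS : ∀ t x, r0 ≤ t → t ≤ r1 → x ∈ D → UpEx (fun z : ℝ × (ι → ℝ) => S z.1 z.2)
      {z | r0 ≤ z.1 ∧ z.1 ≤ r1 ∧ z.2 ∈ D} (G t x) (t, x))
    (hSt : ∀ t x, r0 ≤ t → t ≤ r1 → x ∈ D → ∀ A ∈ G t x, A (1, 0) ≤ L)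
    (hSx : ∀ᵐ o ∂μ, ∀ t x, t ≤ r1 → x ∈ D → ∀ A ∈ G t x, r0 ≤ g o → g o < t →
      A (0, fun i => γ i o) ≤ Q o + L * (t - g o))
    (hj : ∀ᵐ t : ℝ, r0 < t → t < r1 → ∀ A ∈ G t (fun i => s7F μ g (γ i) t), ∃ θ : κ → ℝ,
      A (1, 0) ≤ ∑ j, θ j * deriv (s7F μ g (q j)) t ∧
      ∃ δ > 0, ∀ᵐ o ∂μ, t ≤ g o → g o < t + δ →
        A (0, fun i => γ i o) + ∑ j, θ j * q j o ≤ Q o + L * (g o - t)) :
    S r1 (fun i => s7F μ g (γ i) r1) - S r0 (fun i => s7F μ g (γ i) r0) ≤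
      ∫ o in {o | r0 ≤ g o ∧ g o < r1}, Q o ∂μ := by
  classical
  set dom : Set (ℝ × (ι → ℝ)) := {z | r0 ≤ z.1 ∧ z.1 ≤ r1 ∧ z.2 ∈ D} with hdom
  set F : ℝ → ι → ℝ := fun t i => s7F μ g (γ i) t with hFd
  set V := μ.real univ with hV
  set b := s7b μ g with hb
  have V0 : 0 ≤ V := measureReal_nonneg
  have bmono : Monotone b := s7b_mono μ
  have bV : ∀ t, b t ≤ V := fun t => s7b_le μ t
  have b0 : ∀ t, 0 ≤ b t := fun t => s7b_nonneg μ t
  have beq : b = s7F μ g (fun _ => 1) := funext fun t => s7b_eq μ t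
  set FQ := s7F μ g Q with hFQ
  have hms : ∀ s t, MeasurableSet {o | s ≤ g o ∧ g o < t} := fun s t =>
    (measurableSet_le measurable_const hg).inter (measurableSet_lt hg measurable_const)
  -- linear error term
  have herr : ∀ s t, s ≤ t → ∀ f : Ω → ℝ, Integrable f μ →
      (∀ᵐ o ∂μ, s ≤ g o → g o < t → f o ≤ Q o + L * (t - s)) →
      ∫ o in {o | s ≤ g o ∧ g o < t}, f o ∂μ ≤ FQ t - FQ s + L * (t - s) * (b t - b s) := by
    intro s t hst f hf h
    have h1 : L * (t - s) * (b t - b s) = ∫ _o in {o | s ≤ g o ∧ g o < t}, L * (t - s) ∂μ := by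
      rw [beq, s7F_sub μ hg (integrable_const _) hst, ← integral_const_mul]
      simp
    rw [h1, hFQ, s7F_sub μ hg hQ hst, ← integral_add hQ.integrableOn
      (integrable_const _).integrableOn]
    refine setIntegral_mono_on_ae hf.integrableOn
      (hQ.integrableOn.add (integrable_const _).integrableOn) (hms s t) ?_
    filter_upwards [h] with o ho ho2
    exact ho ho2.1 ho2.2
  -- the functional of the increment
  have hlin : ∀ (A : (ℝ × (ι → ℝ)) →L[ℝ] ℝ), (Integrable (fun o => A (0, fun i => γ i o)) μ) ∧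
      ∀ s t, s ≤ t → A (0, F t - F s) = ∫ o in {o | s ≤ g o ∧ g o < t}, A (0, fun i => γ i o) ∂μ := by
    intro A
    have h2 := s7V_lin μ hg hγ (A.comp (ContinuousLinearMap.inr ℝ ℝ (ι → ℝ)))
    exact ⟨h2.1, fun s t hst => h2.2 s t hst⟩
  -- increments of S in x
  have incX : ∀ s t, r0 ≤ s → s ≤ t → t ≤ r1 →
      S t (F t) - S t (F s) ≤ FQ t - FQ s + L * (t - s) * (b t - b s) := by
    intro s t h0 hst h1
    set C := FQ t - FQ s + L * (t - s) * (b t - b s) with hC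
    have hpath : ∀ r, (0 : ℝ) ≤ r → r ≤ 1 → F s + r • (F t - F s) ∈ D := by
      intro r hr0 hr1
      have h2 := hD (hF s h0 (hst.trans h1)) (hF t (h0.trans hst) h1)
        (sub_nonneg.2 hr1) hr0 (by ring)
      have h3 : F s + r • (F t - F s) = (1 - r) • F s + r • F t := by
        rw [smul_sub, sub_smul, one_smul]
        abel
      rw [h3]
      exact h2
    have eseg : ∀ r : ℝ, ((t, F s) : ℝ × (ι → ℝ)) + r • ((0, F t - F s) : ℝ × (ι → ℝ)) =
        (t, F s + r • (F t - F s)) := fun r => by simp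
    have h9 := upEx_seg hSc (G := fun z => G z.1 z.2) (t, F s) (0, F t - F s) (C := C) zero_le_one
      (fun r h2 h3 => by
        rw [eseg]
        exact ⟨h0.trans hst, h1, hpath r h2 h3⟩)
      (fun r h2 h3 => by
        rw [eseg]
        exact hS t _ (h0.trans hst) h1 (hpath r h2 h3))
      (fun r h2 h3 A hA => by
        rw [eseg] at hA
        rw [(hlin A).2 s t hst]
        refine herr s t hst _ (hlin A).1 ?_
        filter_upwards [hSx] with o ho hs ht
        have h6 := ho t _ h1 (hpath r h2 h3) A hA (h0.trans hs) ht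
        have h8 : L * (t - g o) ≤ L * (t - s) := mul_le_mul_of_nonneg_left (by linarith) hL
        linarith)
    rw [eseg, eseg] at h9
    simpa using h9
  have incT : ∀ s t, r0 ≤ s → s ≤ t → t ≤ r1 → S t (F s) - S s (F s) ≤ L * (t - s) := by
    intro s t h0 hst h1
    have hx : F s ∈ D := hF s h0 (hst.trans h1)
    have eseg : ∀ r : ℝ, ((0, F s) : ℝ × (ι → ℝ)) + r • ((1, 0) : ℝ × (ι → ℝ)) = (r, F s) :=
      fun r => by simp
    have h9 := upEx_seg hSc (G := fun z => G z.1 z.2) (0, F s) (1, 0) (C := L) hst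
      (fun r h2 h3 => by
        rw [eseg]
        exact ⟨h0.trans h2, h3.trans h1, hx⟩)
      (fun r h2 h3 => by
        rw [eseg]
        exact hS r _ (h0.trans h2) (h3.trans h1) hx)
      (fun r h2 h3 A hA => by
        rw [eseg] at hA
        exact hSt r _ (h0.trans h2) (h3.trans h1) hx A hA)
    rw [eseg, eseg] at h9
    exact h9
  -- the function H
  set H : ℝ → ℝ := fun t => FQ t - S t (F t) with hH
  set K : ℝ := L * (1 + V) with hK
  have K0 : 0 ≤ K := mul_nonneg hL (by linarith)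
  have Hinc : ∀ s t, r0 ≤ s → s ≤ t → t ≤ r1 → -(K * (t - s)) ≤ H t - H s := by
    intro s t h0 hst h1
    have e1 := incX s t h0 hst h1
    have e2 := incT s t h0 hst h1
    have e3 : L * (t - s) * (b t - b s) ≤ L * (t - s) * V := by
      refine mul_le_mul_of_nonneg_left ?_ (mul_nonneg hL (by linarith))
      linarith [bV t, b0 s]
    simp only [hH, hK]
    nlinarith
  set Φ : ℝ → ℝ := fun t => H t + K * t with hΦ
  have Φmono : MonotoneOn Φ (uIcc r0 r1) := by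
    rw [uIcc_of_le hr]
    intro s hs t ht hst
    have := Hinc s t hs.1 hst ht.2
    simp only [hΦ]
    linarith
  have hint := Φmono.intervalIntegral_deriv_mem_uIcc
  have hΦle : Φ r0 ≤ Φ r1 := Φmono (by simp) (by simp) hr
  rw [uIcc_of_le (sub_nonneg.2 hΦle)] at hint
  have hdint : IntervalIntegrable (deriv Φ) volume r0 r1 := Φmono.intervalIntegrable_deriv
  have key : ∀ᵐ t : ℝ, t ∈ Ioo r0 r1 → K ≤ deriv Φ t := by
    have a1 : ∀ᵐ t : ℝ, ∀ i, DifferentiableAt ℝ (s7F μ g (γ i)) t :=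
      ae_all_iff.2 fun i => s7F_ae_diff μ hg (hγ i)
    have a2 : ∀ᵐ t : ℝ, ∀ j, DifferentiableAt ℝ (s7F μ g (q j)) t :=
      ae_all_iff.2 fun j => s7F_ae_diff μ hg (hq j)
    have a3 := Φmono.ae_differentiableWithinAt_of_mem
    rw [uIcc_of_le hr] at a3
    filter_upwards [hj, a1, a2, a3, bmono.ae_differentiableAt] with t hjt dF dq dΦ db ht
    have dΦ' : DifferentiableAt ℝ Φ t :=
      (dΦ ⟨ht.1.le, ht.2.le⟩).differentiableAt (Icc_mem_nhds ht.1 ht.2)
    set F' : ι → ℝ := fun i => deriv (s7F μ g (γ i)) t with hF'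
    have hFd' : HasDerivAt F F' t := by
      rw [hasDerivAt_pi]
      exact fun i => (dF i).hasDerivAt
    have hx : F t ∈ D := hF t ht.1.le ht.2.le
    have hup := hS t (F t) ht.1.le ht.2.le hx
    have hslope := (hasDerivAt_iff_tendsto_slope.1 dΦ'.hasDerivAt).mono_left
      (nhdsWithin_mono t (fun x (hx : x ∈ Ioi t) => (ne_of_gt hx : x ≠ t)))
    set c : ℝ := ‖F'‖ + 2 with hc
    have c0 : 0 < c := by positivity
    have hnear : ∀ᶠ x in 𝓝[>] t, x ∈ Ioo t r1 := Ioo_mem_nhdsGT ht.2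
    -- the bound with `ε`
    have hε : ∀ ε : ℝ, 0 < ε → K - (2 + c) * ε ≤ deriv Φ t := by
      intro ε hε
      -- every functional
      have hA : ∀ᶠ x in 𝓝[>] t, ∀ A ∈ G t (F t), A (x - t, F x - F t) ≤
          FQ x - FQ t + L * (x - t) * (b x - b t) + ε * (x - t) := by
        refine (eventually_all_finite hup.fin).2 fun A hA => ?_
        obtain ⟨θ, hθ, δ, δ0, hδ⟩ := hjt ht.1 ht.2 A hA
        set W : ℝ → ℝ := fun x => ∑ j, θ j * s7F μ g (q j) x with hW
        have hWd : HasDerivAt W (∑ j, θ j * deriv (s7F μ g (q j)) t) t := by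
          have := HasDerivAt.fun_sum (u := (Finset.univ : Finset κ))
            (A := fun j x => θ j * s7F μ g (q j) x)
            (A' := fun j => θ j * deriv (s7F μ g (q j)) t) (x := t)
            (fun j _ => (dq j).hasDerivAt.const_mul (θ j))
          exact this
        have h1 := ((hWd.hasFDerivAt.isLittleO.def hε).filter_mono
          (nhdsWithin_le_nhds (s := Ioi t)))
        have h2 : ∀ᶠ x in 𝓝[>] t, x ∈ Ioo t (t + δ) := Ioo_mem_nhdsGT (by linarith)
        filter_upwards [h1, h2] with x g1 g2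
        have hxt : 0 < x - t := sub_pos.2 g2.1
        have e3 : W x - W t = ∫ o in {o | t ≤ g o ∧ g o < x}, ∑ j, θ j * q j o ∂μ := by
          rw [integral_finsetSum _ fun j _ => ((hq j).const_mul (θ j)).integrableOn, hW,
            ← Finset.sum_sub_distrib]
          refine Finset.sum_congr rfl fun j _ => ?_
          rw [integral_const_mul, ← s7F_sub μ hg (hq j) g2.1.le]
          ring
        have hqi : Integrable (fun o => ∑ j, θ j * q j o) μ :=
          integrable_finsetSum _ fun j _ => (hq j).const_mul (θ j)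
        have e4 : A (0, F x - F t) + (W x - W t) ≤ FQ x - FQ t + L * (x - t) * (b x - b t) := by
          rw [(hlin A).2 t x g2.1.le, e3, ← integral_add (hlin A).1.integrableOn hqi.integrableOn]
          refine herr t x g2.1.le _ ((hlin A).1.add hqi) ?_
          filter_upwards [hδ] with o ho ho1 ho2
          have h4 := ho ho1 (ho2.trans g2.2)
          have h5 : L * (g o - t) ≤ L * (x - t) := mul_le_mul_of_nonneg_left (by linarith) hL
          linarith
        have e5 : A (x - t, F x - F t) = (x - t) * A (1, 0) + A (0, F x - F t) := by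
          rw [← smul_eq_mul, ← map_smul, ← map_add]
          congr 1
          simp
        have e6 := mul_le_mul_of_nonneg_left hθ hxt.le
        have e7 : (x - t) * (∑ j, θ j * deriv (s7F μ g (q j)) t) ≤ W x - W t + ε * (x - t) := by
          have e8 : ‖x - t‖ = x - t := Real.norm_of_nonneg hxt.le
          rw [e8] at g1
          have e9 := (neg_abs_le _).trans (le_refl (W x - W t -
            (ContinuousLinearMap.toSpanSingleton ℝ (∑ j, θ j * deriv (s7F μ g (q j)) t)) (x - t)))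
          rw [← Real.norm_eq_abs] at e9
          simp only [ContinuousLinearMap.toSpanSingleton_apply, smul_eq_mul] at e9 g1
          linarith
        rw [e5]
        linarith
      have hdomt : Tendsto (fun x : ℝ => (x, F x)) (𝓝[>] t) (𝓝[dom] (t, F t)) := by
        refine tendsto_nhdsWithin_iff.2 ⟨?_, ?_⟩
        · have : ContinuousAt (fun x : ℝ => (x, F x)) t := continuousAt_id.prodMk hFd'.continuousAt
          exact this.mono_left nhdsWithin_le_nhds
        · filter_upwards [hnear] with x hx'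
          exact ⟨ht.1.le.trans hx'.1.le, hx'.2.le, hF x (ht.1.le.trans hx'.1.le) hx'.2.le⟩
      have hexp := hdomt.eventually (hup.ex ε hε)
      have hFb := ((hFd'.hasFDerivAt.isLittleO.def one_pos).filter_mono
        (nhdsWithin_le_nhds (s := Ioi t)))
      have hbc : ∀ᶠ x in 𝓝[>] t, L * (b x - b t) < ε := by
        have h1 : Tendsto b (𝓝[>] t) (𝓝 (b t)) := db.continuousAt.mono_left nhdsWithin_le_nhds
        have h2 : Tendsto (fun x => L * (b x - b t)) (𝓝[>] t) (𝓝 (L * (b t - b t))) :=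
          (h1.sub_const _).const_mul L
        rw [sub_self, mul_zero] at h2
        exact h2.eventually (gt_mem_nhds hε)
      refine ge_of_tendsto hslope ?_
      filter_upwards [hA, hexp, hFb, hbc, hnear] with x g1 g2 g3 g4 g5
      have hxt : 0 < x - t := sub_pos.2 g5.1
      obtain ⟨A, hAG, hAle⟩ := g2
      have e1 := g1 A hAG
      have e2 : ‖((x, F x) : ℝ × (ι → ℝ)) - (t, F t)‖ ≤ c * (x - t) := by
        have k1 : ((x, F x) : ℝ × (ι → ℝ)) - (t, F t) = (x - t, F x - F t) := rfl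
        rw [k1, Prod.norm_def]
        refine max_le ?_ ?_
        · change ‖x - t‖ ≤ _
          rw [Real.norm_of_nonneg hxt.le, hc]
          have : 0 ≤ ‖F'‖ := norm_nonneg _
          nlinarith
        · change ‖F x - F t‖ ≤ _
          have k2 : ‖F x - F t‖ ≤ ‖F x - F t - (ContinuousLinearMap.toSpanSingleton ℝ F') (x - t)‖ +
              ‖(ContinuousLinearMap.toSpanSingleton ℝ F') (x - t)‖ := by
            have := norm_add_le (F x - F t - (ContinuousLinearMap.toSpanSingleton ℝ F') (x - t))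
              ((ContinuousLinearMap.toSpanSingleton ℝ F') (x - t))
            rwa [sub_add_cancel] at this
          have k3 : ‖(ContinuousLinearMap.toSpanSingleton ℝ F') (x - t)‖ = (x - t) * ‖F'‖ := by
            rw [ContinuousLinearMap.toSpanSingleton_apply, norm_smul, Real.norm_of_nonneg hxt.le]
          rw [k3] at k2
          have k4 : ‖F x - F t - (ContinuousLinearMap.toSpanSingleton ℝ F') (x - t)‖ ≤
              1 * ‖x - t‖ := g3
          rw [Real.norm_of_nonneg hxt.le] at k4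
          rw [hc]
          nlinarith
      have e3 : ((x, F x) : ℝ × (ι → ℝ)) - (t, F t) = (x - t, F x - F t) := rfl
      rw [e3] at hAle e2
      have e4 : S x (F x) - S t (F t) ≤ A (x - t, F x - F t) + ε * ‖(x - t, F x - F t)‖ := hAle
      have e5 := mul_le_mul_of_nonneg_left e2 hε.le
      have e6 : L * (x - t) * (b x - b t) ≤ ε * (x - t) := by
        have := mul_le_mul_of_nonneg_right g4.le hxt.le
        linarith
      rw [slope_def_field, le_div_iff₀ hxt]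
      have e7 : Φ x - Φ t = FQ x - FQ t - (S x (F x) - S t (F t)) + K * (x - t) := by
        simp only [hΦ, hH]
        ring
      rw [e7]
      nlinarith
    refine le_of_forall_pos_le_add fun η hη => ?_
    have h2c : 0 < 2 + c := by linarith
    have h1 := hε (η / (2 + c)) (by positivity)
    have h2 : (2 + c) * (η / (2 + c)) = η := by field_simp
    rw [h2] at h1
    linarith
  have hlow : K * (r1 - r0) ≤ ∫ t in r0..r1, deriv Φ t := by
    have h1 : ∫ _t in r0..r1, K = K * (r1 - r0) := by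
      rw [intervalIntegral.integral_const, smul_eq_mul, mul_comm]
    rw [← h1, intervalIntegral.integral_of_le hr, intervalIntegral.integral_of_le hr,
      ← integral_Ioc_eq_integral_Ioo.symm, ← integral_Ioc_eq_integral_Ioo.symm]
    refine setIntegral_mono_on_ae (by simp) ?_ measurableSet_Ioo key
    exact ((intervalIntegrable_iff_integrableOn_Ioc_of_le hr).1 hdint).mono_set
      Ioo_subset_Ioc_self
  have hfin : H r0 ≤ H r1 := by
    have := hint.2
    simp only [hΦ] at this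
    linarith
  rw [← s7F_sub μ hg hQ hr, ← hFQ]
  simp only [hH] at hfin
  linarith

end main

/-! ### operations -/

theorem UpEx.comp_clm {E E' : Type*} [NormedAddCommGroup E] [NormedSpace ℝ E] [NormedAddCommGroup E']
    [NormedSpace ℝ E'] {f : E → ℝ} {dom : Set E} {dom' : Set E'} {G : Set (E →L[ℝ] ℝ)} {z₀ : E'}
    (N : E' →L[ℝ] E) (h : UpEx f dom G (N z₀)) (hd : ∀ z ∈ dom', N z ∈ dom) :
    UpEx (fun z => f (N z)) dom' ((fun A : E →L[ℝ] ℝ => A.comp N) '' G) z₀ := by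
  refine ⟨h.fin.image _, fun ε hε => ?_⟩
  have hN : 0 < ‖N‖ + 1 := by positivity
  have h1 := h.ex (ε / (‖N‖ + 1)) (by positivity)
  have h2 : Tendsto N (𝓝[dom'] z₀) (𝓝[dom] (N z₀)) :=
    tendsto_nhdsWithin_iff.2 ⟨(N.continuous.tendsto z₀).mono_left nhdsWithin_le_nhds, by
      filter_upwards [self_mem_nhdsWithin] with z hz
      exact hd z hz⟩
  filter_upwards [h2.eventually h1] with z hz
  obtain ⟨A, hA, hle⟩ := hz
  refine ⟨A.comp N, ⟨A, hA, rfl⟩, hle.trans ?_⟩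
  have h3 : ‖N z - N z₀‖ ≤ ‖N‖ * ‖z - z₀‖ := by
    rw [← map_sub]
    exact N.le_opNorm _
  have h4 : ε / (‖N‖ + 1) * ‖N z - N z₀‖ ≤ ε * ‖z - z₀‖ := by
    have h5 : ε / (‖N‖ + 1) * ‖N z - N z₀‖ ≤ ε / (‖N‖ + 1) * ((‖N‖ + 1) * ‖z - z₀‖) := by
      refine mul_le_mul_of_nonneg_left (h3.trans ?_) (by positivity)
      exact mul_le_mul_of_nonneg_right (by linarith) (norm_nonneg _)
    have h6 : ε / (‖N‖ + 1) * ((‖N‖ + 1) * ‖z - z₀‖) = ε * ‖z - z₀‖ := by
      field_simp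
    linarith
  rw [ContinuousLinearMap.comp_apply, map_sub N]
  linarith

theorem UpEx.add_hasFDerivAt {E : Type*} [NormedAddCommGroup E] [NormedSpace ℝ E] {f h : E → ℝ}
    {dom : Set E} {G : Set (E →L[ℝ] ℝ)} {B : E →L[ℝ] ℝ} {z₀ : E} (hf : UpEx f dom G z₀)
    (hh : HasFDerivAt h B z₀) :
    UpEx (fun z => f z + h z) dom ((fun A : E →L[ℝ] ℝ => A + B) '' G) z₀ := by
  refine ⟨hf.fin.image _, fun ε hε => ?_⟩
  have h1 := hf.ex (ε / 2) (by positivity)
  have h2 := (hh.isLittleO.def (half_pos hε)).filter_mono (nhdsWithin_le_nhds (s := dom))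
  filter_upwards [h1, h2] with z hz hz2
  obtain ⟨A, hA, hle⟩ := hz
  refine ⟨A + B, ⟨A, hA, rfl⟩, ?_⟩
  have h3 := (le_abs_self _).trans hz2
  rw [add_apply]
  linarith

theorem UpEx.mono_dom {E : Type*} [NormedAddCommGroup E] [NormedSpace ℝ E] {f : E → ℝ}
    {dom dom' : Set E} {G : Set (E →L[ℝ] ℝ)} {z₀ : E} (h : UpEx f dom G z₀) (hd : dom' ⊆ dom) :
    UpEx f dom' G z₀ :=
  ⟨h.fin, fun ε hε => (h.ex ε hε).filter_mono (nhdsWithin_mono _ hd)⟩

/-- minimum of two functions: the functionals of the smaller one are enough -/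
theorem UpEx.min_left {E : Type*} [NormedAddCommGroup E] [NormedSpace ℝ E] {f h : E → ℝ}
    {dom : Set E} {G : Set (E →L[ℝ] ℝ)} {z₀ : E} (hf : UpEx f dom G z₀) (hle : f z₀ ≤ h z₀) :
    UpEx (fun z => min (f z) (h z)) dom G z₀ := by
  refine ⟨hf.fin, fun ε hε => ?_⟩
  filter_upwards [hf.ex ε hε] with z hz
  obtain ⟨A, hA, h1⟩ := hz
  refine ⟨A, hA, ?_⟩
  have h2 := min_le_left (f z) (h z)
  rw [min_eq_left hle]
  linarith

/-- gluing of closed pieces: `f` agrees near `z₀` with one of finitely many functions, each with an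
expansion at `z₀` -/
theorem UpEx.of_cover {E : Type*} [NormedAddCommGroup E] [NormedSpace ℝ E] {f : E → ℝ}
    {dom : Set E} {z₀ : E} {J : Type*} {T : Set J} (hT : T.Finite) {fj : J → E → ℝ}
    {A : J → E →L[ℝ] ℝ} (hA : ∀ j ∈ T, HasFDerivAt (fj j) (A j) z₀) (h0 : ∀ j ∈ T, fj j z₀ = f z₀)
    (hc : ∀ᶠ z in 𝓝[dom] z₀, ∃ j ∈ T, f z ≤ fj j z) : UpEx f dom (A '' T) z₀ := by
  refine ⟨hT.image _, fun ε hε => ?_⟩
  have h1 : ∀ᶠ z in 𝓝[dom] z₀, ∀ j ∈ T, ‖fj j z - fj j z₀ - A j (z - z₀)‖ ≤ ε * ‖z - z₀‖ :=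
    (eventually_all_finite hT).2 fun j hj =>
      ((hA j hj).isLittleO.def hε).filter_mono (nhdsWithin_le_nhds (s := dom))
  filter_upwards [h1, hc] with z g1 g2
  obtain ⟨j, hj, hle⟩ := g2
  refine ⟨A j, ⟨j, hj, rfl⟩, ?_⟩
  have h2 := (le_abs_self _).trans (g1 j hj)
  rw [h0 j hj] at h2
  linarith

section levels

open Pool.Agent.EWD Pool.Agent.FPM

variable {M : Type} [MetricSpace M] {γ : ℝ → M} {ι : Type*} [Fintype ι]

/-- **the multi-state level lemma for even functions**, with kinks -/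
theorem even_hjK (C : Calc M γ) {v : Fin 3 → M → ℝ} (hv : Sph γ v) {χ : M → ℝ} (hχ : Lip χ)
    (eχ : EvenB γ χ) {κ a₁ ε : ℝ} (hI : IsopE C κ a₁ ε) {Wim : ℝ → ℝ}
    (himg : ∀ᵐ t : ℝ, 0 < t → Wim (supj C χ v t) ≤ deriv (levw C χ v) t ^ 2)
    {γs : ι → Om → ℝ} (hγs : ∀ i, Integrable (γs i) C.μ) {F : Om → ℝ} (hF : Integrable F C.μ)
    {s0 s1 L : ℝ} (hs0 : 0 ≤ s0) (hs : s0 ≤ s1) (hL : 0 ≤ L) {D : Set (ι → ℝ)} (hD : Convex ℝ D)
    (hmem : ∀ s, s0 ≤ s → s ≤ s1 → (fun i => supw C χ (γs i) s) ∈ D)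
    (ha : ∀ s, s0 < s → s < s1 → supa C χ s ≤ a₁)
    {S : ℝ → (ι → ℝ) → ℝ} {G : ℝ → (ι → ℝ) → Set ((ℝ × (ι → ℝ)) →L[ℝ] ℝ)}
    (hSc : ContinuousOn (fun z : ℝ × (ι → ℝ) => S z.1 z.2) {z | s0 ≤ z.1 ∧ z.1 ≤ s1 ∧ z.2 ∈ D})
    (hS : ∀ s x, s0 ≤ s → s ≤ s1 → x ∈ D → UpEx (fun z : ℝ × (ι → ℝ) => S z.1 z.2)
      {z | s0 ≤ z.1 ∧ z.1 ≤ s1 ∧ z.2 ∈ D} (G s x) (s, x))
    (hSt : ∀ s x, s0 ≤ s → s ≤ s1 → x ∈ D → ∀ A ∈ G s x, -L ≤ A (1, 0))
    (hSx : ∀ᵐ o ∂C.μ, ∀ s x, s0 ≤ s → x ∈ D → s < |χ (C.pt o)| → |χ (C.pt o)| ≤ s1 →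
      ∀ A ∈ G s x, A (0, fun i => γs i o) ≤ F o + L * (|χ (C.pt o)| - s))
    (hj : ∀ᵐ s : ℝ, s0 < s → s < s1 → ∀ l V : ℝ, 0 ≤ l → 0 ≤ V →
      κ * (supa C χ s - ε) ≤ l ^ 2 → Wim (supj C χ v s) ≤ V ^ 2 →
      ∀ A ∈ G s (fun i => supw C χ (γs i) s),
      ∃ θ1 θ2 : ℝ, 0 ≤ θ1 ∧ 0 ≤ θ2 ∧
        -(A (1, 0)) ≤ θ1 * l + θ2 * V ∧
        ∃ δ > 0, ∀ᵐ o ∂C.μ, s - δ < |χ (C.pt o)| → |χ (C.pt o)| ≤ s →
          A (0, fun i => γs i o) + θ1 * gn C χ o
            + θ2 * (opn C v o * gn C χ o) ≤ F o + L * (s - |χ (C.pt o)|)) :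
    S s0 (fun i => supw C χ (γs i) s0) - S s1 (fun i => supw C χ (γs i) s1) ≤
      ∫ o in {o | s0 < |χ (C.pt o)| ∧ |χ (C.pt o)| ≤ s1}, F o ∂C.μ := by
  have := C.fin
  obtain ⟨g, hg, hge, hsF⟩ := neg_rep C hχ
  have hFe : ∀ t, (fun i => s7F C.μ g (γs i) t) = fun i => supw C χ (γs i) (-t) :=
    fun t => funext fun i => by rw [hsF, nlev_supw]
  have hq : ∀ j : Fin 2, Integrable ((![gn C χ, wn C χ v] : Fin 2 → Om → ℝ) j) C.μ := by
    intro j
    fin_cases j
    · exact int_gn C hχ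
    · exact wn_int C hv.lip hχ
  set N : (ℝ × (ι → ℝ)) →L[ℝ] (ℝ × (ι → ℝ)) :=
    (-(ContinuousLinearMap.fst ℝ ℝ (ι → ℝ))).prod (ContinuousLinearMap.snd ℝ ℝ (ι → ℝ)) with hN
  have hNz : ∀ z : ℝ × (ι → ℝ), N z = (-z.1, z.2) := fun z => by simp [hN]
  have hN1 : N (1, 0) = (-1, 0) := by simp [hN]
  have hN2 : ∀ y : ι → ℝ, N (0, y) = (0, y) := fun y => by simp [hN]
  have hm1 : ∀ (A : (ℝ × (ι → ℝ)) →L[ℝ] ℝ), A (-1, 0) = -(A (1, 0)) := fun A => by
    rw [← map_neg]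
    simp
  have hdN : ∀ z ∈ {z : ℝ × (ι → ℝ) | -s1 ≤ z.1 ∧ z.1 ≤ -s0 ∧ z.2 ∈ D},
      N z ∈ {z : ℝ × (ι → ℝ) | s0 ≤ z.1 ∧ z.1 ≤ s1 ∧ z.2 ∈ D} := by
    intro z hz
    obtain ⟨h1, h2, h3⟩ := hz
    rw [hNz]
    exact ⟨by linarith, by linarith, h3⟩
  have hfin := s7_hjK C.μ hg hγs hq hF (r0 := -s1) (r1 := -s0) (by linarith) hL hD
    (S := fun t x => S (-t) x)
    (G := fun t x => (fun A : (ℝ × (ι → ℝ)) →L[ℝ] ℝ => A.comp N) '' G (-t) x)
    (fun t a b => by
      rw [hFe]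
      exact hmem (-t) (by linarith) (by linarith))
    (by
      have h1 : ContinuousOn (fun z : ℝ × (ι → ℝ) => S (N z).1 (N z).2)
          {z | -s1 ≤ z.1 ∧ z.1 ≤ -s0 ∧ z.2 ∈ D} :=
        hSc.comp N.continuous.continuousOn hdN
      simpa only [hNz] using h1)
    (fun t x a b hx => by
      have h1 := (hS (-t) x (by linarith) (by linarith) hx)
      have h2 : N (t, x) = (-t, x) := hNz _
      rw [← h2] at h1
      have h3 := UpEx.comp_clm N h1 hdN
      simpa only [hNz] using h3)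
    (fun t x a b hx A hA => by
      obtain ⟨A, hA, rfl⟩ := hA
      change A (N (1, 0)) ≤ L
      rw [hN1, hm1]
      have := hSt (-t) x (by linarith) (by linarith) hx A hA
      linarith) ?_ ?_
  · rw [hFe, hFe, neg_neg, neg_neg] at hfin
    refine hfin.trans (le_of_eq ?_)
    refine setIntegral_congr_set ?_
    filter_upwards [hge] with o ho
    refine propext ⟨fun h => ?_, fun h => ?_⟩
    · have h2 : -s1 ≤ g o ∧ g o < -s0 := h
      rw [ho] at h2
      exact ⟨by linarith [h2.2], by linarith [h2.1]⟩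
    · have h2 : s0 < |χ (C.pt o)| ∧ |χ (C.pt o)| ≤ s1 := h
      change -s1 ≤ g o ∧ g o < -s0
      rw [ho]
      exact ⟨by linarith [h2.2], by linarith [h2.1]⟩
  · filter_upwards [hSx, hge] with o ho he t x a b A hA d e
    obtain ⟨A, hA, rfl⟩ := hA
    change A (N (0, fun i => γs i o)) ≤ _
    rw [he] at d e ⊢
    rw [hN2]
    have h2 := ho (-t) x (by linarith) b (by linarith) (by linarith) A hA
    have h4 : L * (|χ (C.pt o)| - -t) = L * (t - -|χ (C.pt o)|) := by ring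
    rw [← h4]
    exact h2
  · have hneg := (Measure.measurePreserving_neg (volume : Measure ℝ)).quasiMeasurePreserving
    filter_upwards [hneg.ae hj, even_len C hχ eχ hI, img_len C hv hχ himg] with t ht hl hw a b
    obtain ⟨l1, l3⟩ := hl (by linarith)
    obtain ⟨l2, l4⟩ := hw (by linarith)
    have ea : nlev C χ (fun _ => 1) t = supa C χ (-t) := by
      rw [nlev_supw]
      unfold supw supa
      simp [Measure.real]
    have ej : nlev C χ (jac C v) t = supj C χ v (-t) := nlev_jac C χ v t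
    rw [ea] at l1
    rw [ej] at l2
    have hat := ha (-t) (by linarith) (by linarith)
    intro A hA
    obtain ⟨A, hA, rfl⟩ := hA
    rw [hFe] at hA
    obtain ⟨θ1, θ2, hθ1, hθ2, hle, δ, hδ, hae⟩ :=
      ht (by linarith) (by linarith) _ _ l3 l4 (l1 hat) l2 A hA
    refine ⟨![θ1, θ2], ?_, δ, hδ, ?_⟩
    · change A (N (1, 0)) ≤ _
      rw [Fin.sum_univ_two, hN1, hm1]
      have e1 : s7F C.μ g ((![gn C χ, wn C χ v] : Fin 2 → Om → ℝ) 0) = nlev C χ (gn C χ) :=
        funext fun r => hsF _ r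
      have e2 : s7F C.μ g ((![gn C χ, wn C χ v] : Fin 2 → Om → ℝ) 1) = nlev C χ (wn C χ v) :=
        funext fun r => hsF _ r
      rw [e1, e2]
      exact hle
    · filter_upwards [hae, hge, wn_opn C hv χ] with o ho he hw' c1 c2
      rw [he] at c1 c2
      have h2 := ho (by linarith) (by linarith)
      change A (N (0, fun i => γs i o)) + _ ≤ _
      rw [Fin.sum_univ_two, hN2]
      change _ + (θ1 * gn C χ o + θ2 * wn C χ v o) ≤ _
      rw [he]
      have h3 : θ2 * wn C χ v o ≤ θ2 * (opn C v o * gn C χ o) := mul_le_mul_of_nonneg_left hw' hθ2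
      have h4 : L * (-|χ (C.pt o)| - t) = L * (-t - |χ (C.pt o)|) := by ring
      rw [h4]
      linarith

/-- the functional of `U x - 2 s (p m + k)` from a functional of `U` -/
def mcuG (i2 : ι) (p k : ℝ) (s : ℝ) (x : ι → ℝ) (A : (ι → ℝ) →L[ℝ] ℝ) : (ℝ × (ι → ℝ)) →L[ℝ] ℝ :=
  A.comp (ContinuousLinearMap.snd ℝ ℝ (ι → ℝ)) +
    -((2 * (p * x i2 + k)) • ContinuousLinearMap.fst ℝ ℝ (ι → ℝ) +
      ((2 * s * p) • (ContinuousLinearMap.proj i2 : (ι → ℝ) →L[ℝ] ℝ)).comp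
        (ContinuousLinearMap.snd ℝ ℝ (ι → ℝ)))

omit [Fintype ι] in
theorem mcuG_t (i2 : ι) (p k s : ℝ) (x : ι → ℝ) (A : (ι → ℝ) →L[ℝ] ℝ) :
    mcuG i2 p k s x A (1, 0) = -(2 * (p * x i2 + k)) := by
  simp [mcuG]

omit [Fintype ι] in
theorem mcuG_x (i2 : ι) (p k s : ℝ) (x : ι → ℝ) (A : (ι → ℝ) →L[ℝ] ℝ) (y : ι → ℝ) :
    mcuG i2 p k s x A (0, y) = A y - 2 * s * p * y i2 := by
  simp [mcuG]
  ring

/-- **the static inequality on a band of levels**, for a value function `U` with kinks; the pointwise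
inequality in linear form -/
theorem mcu_band (C : Calc M γ) {v : Fin 3 → M → ℝ} (hv : Sph γ v) {χ : M → ℝ} (hχ : Lip χ)
    (eχ : EvenB γ χ) {κ κ' a₀ a₁ ε : ℝ} (hI : IsopE C κ a₁ ε)
    (hκ : ∀ a, a₀ ≤ a → κ' * a ≤ κ * (a - ε)) {Wim : ℝ → ℝ}
    (himg : ∀ᵐ t : ℝ, 0 < t → Wim (supj C χ v t) ≤ deriv (levw C χ v) t ^ 2)
    {γs : ι → Om → ℝ} (hγs : ∀ i, Integrable (γs i) C.μ) {i0 i1 i2 : ι}
    (h0 : γs i0 = fun _ => 1) (h1 : γs i1 = jac C v) {F : Om → ℝ} (hF : Integrable F C.μ)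
    {p k : ℝ} {D : Set (ι → ℝ)} (hD : Convex ℝ D) {U : (ι → ℝ) → ℝ}
    {G : (ι → ℝ) → Set ((ι → ℝ) →L[ℝ] ℝ)} (hUc : ContinuousOn U D)
    (hU : ∀ x ∈ D, UpEx U D (G x) x) {P Q : (ι → ℝ) → ℝ}
    (hPQ : ∀ x ∈ D, a₀ ≤ x i0 → 0 ≤ P x ∧ 0 ≤ Q x ∧
      p * x i2 + k ≤ P x * √(κ' * x i0) + Q x * √(Wim (x i1)))
    (hp : 0 ≤ p) {N B : ℝ} (h2 : ∀ᵐ o ∂C.μ, 0 ≤ γs i2 o) (hN : ∀ᵐ o ∂C.μ, γs i2 o ≤ N)
    (hB : ∀ x ∈ D, p * x i2 + k ≤ B)
    {s0 s1 : ℝ} (hs0 : 0 ≤ s0) (hs : s0 ≤ s1)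
    (hmem : ∀ s, s0 ≤ s → s ≤ s1 → (fun i => supw C χ (γs i) s) ∈ D)
    (ha : ∀ s, s0 < s → s < s1 → supa C χ s ≤ a₁) (ha0 : ∀ s, s0 < s → s < s1 → a₀ ≤ supa C χ s)
    (hFx : ∀ᵐ o ∂C.μ, s0 < |χ (C.pt o)| → |χ (C.pt o)| ≤ s1 → ∀ x ∈ D, ∀ A ∈ G x,
      A (fun i => γs i o) - 2 * p * |χ (C.pt o)| * γs i2 o ≤ F o)
    (hFp : ∀ᵐ o ∂C.μ, s0 < |χ (C.pt o)| → |χ (C.pt o)| ≤ s1 → ∀ x ∈ D, a₀ ≤ x i0 → ∀ A ∈ G x,
      A (fun i => γs i o) + 2 * (P x + Q x * opn C v o) * gn C χ o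
        - 2 * p * |χ (C.pt o)| * γs i2 o ≤ F o) :
    (U (fun i => supw C χ (γs i) s0) - 2 * s0 * (p * supw C χ (γs i2) s0 + k))
      - (U (fun i => supw C χ (γs i) s1) - 2 * s1 * (p * supw C χ (γs i2) s1 + k)) ≤
      ∫ o in {o | s0 < |χ (C.pt o)| ∧ |χ (C.pt o)| ≤ s1}, F o ∂C.μ := by
  set dom : Set (ℝ × (ι → ℝ)) := {z | s0 ≤ z.1 ∧ z.1 ≤ s1 ∧ z.2 ∈ D} with hdom
  set pr : (ι → ℝ) →L[ℝ] ℝ := ContinuousLinearMap.proj i2 with hpr
  set S : ℝ → (ι → ℝ) → ℝ := fun s x => U x + -(2 * s * (p * x i2 + k)) with hSd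
  have hsnd : ∀ z ∈ dom, (ContinuousLinearMap.snd ℝ ℝ (ι → ℝ)) z ∈ D := fun z hz => hz.2.2
  have hder : ∀ s x, HasFDerivAt (fun z : ℝ × (ι → ℝ) => -(2 * z.1 * (p * z.2 i2 + k)))
      (-((2 * (p * x i2 + k)) • ContinuousLinearMap.fst ℝ ℝ (ι → ℝ) +
        ((2 * s * p) • pr).comp (ContinuousLinearMap.snd ℝ ℝ (ι → ℝ)))) (s, x) := by
    intro s x
    have e0 : HasFDerivAt (fun z : ℝ × (ι → ℝ) => z.1)
        (ContinuousLinearMap.fst ℝ ℝ (ι → ℝ)) (s, x) := hasFDerivAt_fst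
    have e3 : HasFDerivAt (fun z : ℝ × (ι → ℝ) => p * z.2 i2 + k)
        (p • (pr.comp (ContinuousLinearMap.snd ℝ ℝ (ι → ℝ)))) (s, x) := by
      have e4 : HasFDerivAt (fun z : ℝ × (ι → ℝ) => z.2 i2)
          (pr.comp (ContinuousLinearMap.snd ℝ ℝ (ι → ℝ))) (s, x) :=
        (pr.comp (ContinuousLinearMap.snd ℝ ℝ (ι → ℝ))).hasFDerivAt
      exact (e4.const_mul p).add_const k
    have e2 := ((e0.const_mul 2).mul e3).neg
    refine e2.congr_fderiv ?_
    refine ContinuousLinearMap.ext fun z => ?_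
    simp [hpr]
    ring
  set L : ℝ := 2 * max B 0 + 2 * p * max N 0 with hL
  have hN0 : 0 ≤ max N 0 := le_max_right _ _
  have hB0 : 0 ≤ max B 0 := le_max_right _ _
  have hpN : 0 ≤ 2 * p * max N 0 := by positivity
  have hmain := even_hjK C hv hχ eχ hI himg hγs hF hs0 hs (L := L) (by positivity) hD hmem ha
    (S := S) (G := fun s x => mcuG i2 p k s x '' G x)
    (by
      have c1 : ContinuousOn (fun z : ℝ × (ι → ℝ) => U z.2) dom :=
        hUc.comp continuousOn_snd hsnd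
      have c2 : Continuous fun z : ℝ × (ι → ℝ) => -(2 * z.1 * (p * z.2 i2 + k)) := by fun_prop
      exact c1.add c2.continuousOn)
    (fun s x _ _ hxD => by
      have k1 : UpEx (fun z : ℝ × (ι → ℝ) => U z.2) dom
          ((fun A : (ι → ℝ) →L[ℝ] ℝ => A.comp (ContinuousLinearMap.snd ℝ ℝ (ι → ℝ))) '' G x)
          (s, x) := UpEx.comp_clm (z₀ := (s, x)) (ContinuousLinearMap.snd ℝ ℝ (ι → ℝ)) (hU x hxD) hsnd
      have k2 := k1.add_hasFDerivAt (hder s x)
      rw [image_image] at k2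
      exact k2)
    (fun s x _ _ hxD A hA => by
      obtain ⟨A, hA, rfl⟩ := hA
      rw [mcuG_t]
      have h2 := hB x hxD
      have h3 : B ≤ max B 0 := le_max_left _ _
      linarith)
    (by
      filter_upwards [hN, hFx] with o hNo hFo s x a hxD b c A hA
      obtain ⟨A, hA, rfl⟩ := hA
      rw [mcuG_x]
      have h6 := hFo (by linarith) c x hxD A hA
      have h8 : 2 * p * (|χ (C.pt o)| - s) * γs i2 o ≤ 2 * p * (|χ (C.pt o)| - s) * max N 0 :=
        mul_le_mul_of_nonneg_left (hNo.trans (le_max_left _ _))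
          (mul_nonneg (by positivity) (by linarith))
      have h9 : 2 * p * max N 0 * (|χ (C.pt o)| - s) ≤ L * (|χ (C.pt o)| - s) :=
        mul_le_mul_of_nonneg_right (by rw [hL]; linarith) (by linarith)
      nlinarith)
    (by
      refine ae_of_all _ fun s a b l V hl hV hl2 hV2 A hA => ?_
      obtain ⟨A, hA, rfl⟩ := hA
      set x : ι → ℝ := fun i => supw C χ (γs i) s with hxd
      have hxD : x ∈ D := hmem s a.le b.le
      have hx0 : x i0 = supa C χ s := by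
        change supw C χ (γs i0) s = _
        rw [h0]
        unfold supw supa
        simp [Measure.real]
      have hx1 : x i1 = supj C χ v s := by
        change supw C χ (γs i1) s = _
        rw [h1]
        rfl
      have hxa : a₀ ≤ x i0 := by
        rw [hx0]
        exact ha0 s a b
      obtain ⟨hP, hQ, hlen⟩ := hPQ x hxD hxa
      have h4 : √(κ' * x i0) ≤ l := by
        rw [← Real.sqrt_sq hl]
        refine Real.sqrt_le_sqrt (le_trans ?_ hl2)
        rw [hx0]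
        exact hκ _ (ha0 s a b)
      have h5 : √(Wim (x i1)) ≤ V := by
        rw [← Real.sqrt_sq hV, hx1]
        exact Real.sqrt_le_sqrt hV2
      refine ⟨2 * P x, 2 * Q x, by positivity, by positivity, ?_, ?_⟩
      · rw [mcuG_t]
        have h7 := mul_le_mul_of_nonneg_left h4 hP
        have h8 := mul_le_mul_of_nonneg_left h5 hQ
        linarith
      · refine ⟨s - s0, by linarith, ?_⟩
        filter_upwards [h2, hFp] with o hn0 hFo c d
        rw [mcuG_x]
        have h6 := hFo (by linarith) (by linarith) x hxD hxa A hA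
        have h10 : 0 ≤ L * (s - |χ (C.pt o)|) := mul_nonneg (by positivity) (by linarith)
        have h11 : 2 * p * |χ (C.pt o)| * γs i2 o ≤ 2 * p * s * γs i2 o := by
          refine mul_le_mul_of_nonneg_right ?_ hn0
          exact mul_le_mul_of_nonneg_left d (by positivity)
        have e1 : 2 * (P x + Q x * opn C v o) * gn C χ o =
            2 * P x * gn C χ o + 2 * Q x * (opn C v o * gn C χ o) := by ring
        rw [e1] at h6
        have e2 : 2 * s * p * γs i2 o = 2 * p * s * γs i2 o := by ring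
        rw [e2]
        linarith)
  have e1 : S s0 (fun i => supw C χ (γs i) s0) =
      U (fun i => supw C χ (γs i) s0) + -(2 * s0 * (p * supw C χ (γs i2) s0 + k)) := rfl
  have e2 : S s1 (fun i => supw C χ (γs i) s1) =
      U (fun i => supw C χ (γs i) s1) + -(2 * s1 * (p * supw C χ (γs i2) s1 + k)) := rfl
  rw [e1, e2] at hmain
  linarith

/-- **the static inequality on a superlevel set**, for a value function `U` with kinks; `U ≤ e` where the
area is at most `a₀` -/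
theorem mcu_top (C : Calc M γ) {v : Fin 3 → M → ℝ} (hv : Sph γ v) {χ : M → ℝ} (hχ : Lip χ)
    (eχ : EvenB γ χ) {κ κ' a₀ a₁ ε : ℝ} (hI : IsopE C κ a₁ ε)
    (hκ : ∀ a, a₀ ≤ a → κ' * a ≤ κ * (a - ε)) (ha0 : 0 < a₀) {Wim : ℝ → ℝ}
    (himg : ∀ᵐ t : ℝ, 0 < t → Wim (supj C χ v t) ≤ deriv (levw C χ v) t ^ 2)
    {γs : ι → Om → ℝ} (hγs : ∀ i, Integrable (γs i) C.μ) {i0 i1 i2 : ι}
    (h0 : γs i0 = fun _ => 1) (h1 : γs i1 = jac C v) {F : Om → ℝ} (hF : Integrable F C.μ)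
    {p : ℝ} {D : Set (ι → ℝ)} (hD : Convex ℝ D) {U : (ι → ℝ) → ℝ}
    {G : (ι → ℝ) → Set ((ι → ℝ) →L[ℝ] ℝ)} (hUc : ContinuousOn U D)
    (hU : ∀ x ∈ D, UpEx U D (G x) x) {P Q : (ι → ℝ) → ℝ}
    (hPQ : ∀ x ∈ D, a₀ ≤ x i0 → 0 ≤ P x ∧ 0 ≤ Q x ∧
      p * x i2 ≤ P x * √(κ' * x i0) + Q x * √(Wim (x i1)))
    (hp : 0 ≤ p) {N R e : ℝ} (hU0 : ∀ x ∈ D, x i0 ≤ a₀ → U x ≤ e)
    (h2 : ∀ᵐ o ∂C.μ, 0 ≤ γs i2 o) (hN0 : 0 ≤ N) (hN : ∀ᵐ o ∂C.μ, γs i2 o ≤ N)
    (hR : 0 ≤ R) (gR : ∀ᵐ o ∂C.μ, |χ (C.pt o)| ≤ R) {s0 : ℝ} (hs0 : 0 ≤ s0)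
    (hmem : ∀ s, s0 ≤ s → (fun i => supw C χ (γs i) s) ∈ D)
    (ha : ∀ s, s0 < s → supa C χ s ≤ a₁)
    (hF0 : ∀ᵐ o ∂C.μ, s0 < |χ (C.pt o)| → -(2 * p * |χ (C.pt o)| * γs i2 o) ≤ F o)
    (hFx : ∀ᵐ o ∂C.μ, s0 < |χ (C.pt o)| → ∀ x ∈ D, ∀ A ∈ G x,
      A (fun i => γs i o) - 2 * p * |χ (C.pt o)| * γs i2 o ≤ F o)
    (hFp : ∀ᵐ o ∂C.μ, s0 < |χ (C.pt o)| → ∀ x ∈ D, a₀ ≤ x i0 → ∀ A ∈ G x,
      A (fun i => γs i o) + 2 * (P x + Q x * opn C v o) * gn C χ o
        - 2 * p * |χ (C.pt o)| * γs i2 o ≤ F o) :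
    U (fun i => supw C χ (γs i) s0) - 2 * p * s0 * supw C χ (γs i2) s0 - e - 2 * p * R * N * a₀ ≤
      ∫ o in {o | s0 < |χ (C.pt o)|}, F o ∂C.μ := by
  have := C.fin
  have n0 : ∀ s, 0 ≤ supw C χ (γs i2) s := fun s =>
    setIntegral_nonneg_of_ae_restrict (ae_restrict_of_ae h2)
  have hi0 : ∀ s, supw C χ (γs i0) s = supa C χ s := fun s => by
    rw [h0]
    unfold supw supa
    simp [Measure.real]
  have htop : ∀ s, s0 ≤ s → supa C χ s ≤ a₀ → -(2 * p * R * N * a₀) ≤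
      ∫ o in {o | s < |χ (C.pt o)|}, F o ∂C.μ := by
    intro s hs hsa
    have m1 := meas_abs_lt C hχ s
    have h3 : ∫ _ in {o | s < |χ (C.pt o)|}, -(2 * p * R * N) ∂C.μ ≤
        ∫ o in {o | s < |χ (C.pt o)|}, F o ∂C.μ := by
      refine setIntegral_mono_on_ae₀ (integrable_const _).integrableOn hF.integrableOn m1 ?_
      filter_upwards [hF0, h2, hN, gR] with o c1 c4 c5 c6 c7
      have h8 := c1 (hs.trans_lt c7)
      have h9 : |χ (C.pt o)| * γs i2 o ≤ R * N :=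
        mul_le_mul c6 c5 c4 ((abs_nonneg _).trans c6)
      have h10 : 2 * p * (|χ (C.pt o)| * γs i2 o) ≤ 2 * p * (R * N) :=
        mul_le_mul_of_nonneg_left h9 (by positivity)
      linarith
    rw [setIntegral_const, smul_eq_mul] at h3
    have h4 : C.μ.real {o | s < |χ (C.pt o)|} = supa C χ s := rfl
    rw [h4] at h3
    have h5 : supa C χ s * (2 * p * R * N) ≤ a₀ * (2 * p * R * N) :=
      mul_le_mul_of_nonneg_right hsa (by positivity)
    linarith
  have hn0 := n0 s0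
  have h2p : 0 ≤ 2 * p * s0 * supw C χ (γs i2) s0 := by positivity
  rcases le_or_gt (supa C χ s0) a₀ with h3 | h3
  · have h4 := htop s0 le_rfl h3
    have h5 := hU0 _ (hmem s0 le_rfl) (by rw [hi0]; exact h3)
    linarith
  · obtain ⟨T, T0, TR, hT1, hT2⟩ := crossing C gR ha0 (h3.le.trans (supa_anti C χ hs0))
    have hsT : s0 ≤ T := by
      by_contra hc
      have := supa_anti C χ (not_le.1 hc).le
      linarith
    set D' := D ∩ {x : ι → ℝ | p * x i2 + 0 ≤ p * supw C χ (γs i2) s0} with hD'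
    have hBd : ∀ x ∈ D', p * x i2 + 0 ≤ p * supw C χ (γs i2) s0 := fun x hx => hx.2
    have hDc : Convex ℝ D' := by
      refine hD.inter ?_
      intro x hx y hy a b ha' hb hab
      have hx' : p * x i2 + 0 ≤ p * supw C χ (γs i2) s0 := hx
      have hy' : p * y i2 + 0 ≤ p * supw C χ (γs i2) s0 := hy
      change p * (a • x + b • y) i2 + 0 ≤ _
      simp only [Pi.add_apply, Pi.smul_apply, smul_eq_mul]
      have k1 := mul_le_mul_of_nonneg_left hx' ha'
      have k2 := mul_le_mul_of_nonneg_left hy' hb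
      have k3 : a * (p * supw C χ (γs i2) s0) + b * (p * supw C χ (γs i2) s0) =
          p * supw C χ (γs i2) s0 := by
        rw [← add_mul, hab, one_mul]
      linarith
    have hmono : ∀ s, s0 ≤ s → supw C χ (γs i2) s ≤ supw C χ (γs i2) s0 := by
      intro s hs
      refine setIntegral_mono_set (hγs i2).integrableOn (ae_restrict_of_ae h2)
        (LE.le.eventuallyLE fun o ho => ?_)
      have ho' : s < |χ (C.pt o)| := ho
      exact (hs.trans_lt ho' : s0 < |χ (C.pt o)|)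
    have hsub : D' ⊆ D := inter_subset_left
    have h4 := mcu_band C hv hχ eχ hI hκ himg hγs h0 h1 hF hDc (hUc.mono hsub)
      (fun x hx => (hU x (hsub hx)).mono_dom hsub) (P := P) (Q := Q)
      (fun x hx hxa => by
        have := hPQ x (hsub hx) hxa
        rwa [add_zero]) hp h2
      hN hBd hs0 hsT
      (fun s a _ => ⟨hmem s a, by
        change p * supw C χ (γs i2) s + 0 ≤ _
        have := mul_le_mul_of_nonneg_left (hmono s a) hp
        linarith⟩)
      (fun s a _ => ha s a) (fun s a b => hT2 s (hs0.trans a.le) b)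
      (by
        filter_upwards [hFx] with o ho a _ x hx A hA
        exact ho a x (hsub hx) A hA)
      (by
        filter_upwards [hFp] with o ho a _ x hx hxa A hA
        exact ho a x (hsub hx) hxa A hA)
    have h5 := htop T hsT hT1
    have h6 := hU0 _ (hmem T hsT) (by rw [hi0]; exact hT1)
    have h7 : 0 ≤ 2 * T * (p * supw C χ (γs i2) T) := by
      have := n0 T
      positivity
    rw [level_split C hχ hF hsT]
    linarith

end levels

end Pool.Agent.FPX
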