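import Mathlib
import Pool.Agent.FPX.KMC
import Pool.Agent.FPX.MCU

/-
KMD (helper28): the static inequality on a superlevel set for a value function with kinks (MCU) with a
constant charge `k` below a level `T` (KMC).
-/

open MeasureTheory Set Filter Topology
open scoped ENNReal NNReal

noncomputable section

namespace Pool.Agent.FPX

open Pool.Agent.EWD Pool.Agent.FPM

variable {M : Type} [MetricSpace M] {γ : ℝ → M} {ι : Type*} [Fintype ι]

/-- the payment for the charge `k` -/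
def kPay (p k κ N δ a n : ℝ) : ℝ := 2 * p * k / κ * kD N δ a n + k ^ 2 / κ * Real.log a

/-- its derivative -/
def kPay' (p k κ N δ : ℝ) (i0 i2 : ι) (x : ι → ℝ) : (ι → ℝ) →L[ℝ] ℝ :=
  (2 * p * k / κ) • (((x i2 + δ) * (N / (N * x i0 + δ))) • ContinuousLinearMap.proj i0 +
      (Real.log (N * x i0 + δ) - Real.log (x i2 + δ)) • ContinuousLinearMap.proj i2) +
    (k ^ 2 / κ * (x i0)⁻¹) • ContinuousLinearMap.proj i0

theorem kPay_deriv {p k κ N δ : ℝ} {i0 i2 : ι} {x : ι → ℝ} (h1 : 0 < N * x i0 + δ) (h2 : 0 < x i2 + δ)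
    (h0 : 0 < x i0) :
    HasFDerivAt (fun z : ι → ℝ => kPay p k κ N δ (z i0) (z i2)) (kPay' p k κ N δ i0 i2 x) x := by
  have p0 : HasFDerivAt (fun z : ι → ℝ => z i0) (ContinuousLinearMap.proj i0) x :=
    (ContinuousLinearMap.proj (R := ℝ) (φ := fun _ : ι => ℝ) i0).hasFDerivAt
  have p2 : HasFDerivAt (fun z : ι → ℝ => z i2) (ContinuousLinearMap.proj i2) x :=
    (ContinuousLinearMap.proj (R := ℝ) (φ := fun _ : ι => ℝ) i2).hasFDerivAt
  have h3 : HasFDerivAt (fun z : ι → ℝ => (z i0, z i2))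
      ((ContinuousLinearMap.proj i0 : (ι → ℝ) →L[ℝ] ℝ).prod (ContinuousLinearMap.proj i2)) x :=
    p0.prodMk p2
  have h4 := (kD_deriv (N := N) (δ := δ) h1 h2).comp x h3
  have h5 := (h4.const_mul (2 * p * k / κ)).add ((p0.log h0.ne').const_mul (k ^ 2 / κ))
  refine h5.congr_fderiv ?_
  refine ContinuousLinearMap.ext fun z => ?_
  simp [kPay']
  ring

/-- the value of the derivative on the rates is at least the extra cost of the flux -/
theorem kPay_rate {p k κ N δ a n ν : ℝ} (hκ : 0 < κ) (hp : 0 ≤ p) (hk : 0 ≤ k) (hN : 0 ≤ N) (hδ : 0 < δ)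
    (ha : 0 < a) (hn : 0 ≤ n) (hna : n ≤ N * a) (hν : 0 ≤ ν) :
    2 * p * k / κ * (n / a) + k ^ 2 / κ * a⁻¹ ≤
      2 * p * k / κ * ((n + δ) * (N / (N * a + δ)) +
        (Real.log (N * a + δ) - Real.log (n + δ)) * ν) + k ^ 2 / κ * a⁻¹ := by
  have hNa : 0 < N * a + δ := by
    have := mul_nonneg hN ha.le
    linarith
  have c1 : 0 ≤ 2 * p * k / κ := by positivity
  have d1 : n / a ≤ (n + δ) * (N / (N * a + δ)) := by
    rw [← mul_div_assoc, div_le_div_iff₀ ha hNa]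
    nlinarith [mul_le_mul_of_nonneg_left hna hδ.le]
  have d2 : 0 ≤ (Real.log (N * a + δ) - Real.log (n + δ)) * ν := by
    refine mul_nonneg ?_ hν
    have := Real.log_le_log (show 0 < n + δ by linarith) (show n + δ ≤ N * a + δ by linarith)
    linarith
  have := mul_le_mul_of_nonneg_left (show n / a ≤ (n + δ) * (N / (N * a + δ)) +
    (Real.log (N * a + δ) - Real.log (n + δ)) * ν by linarith) c1
  linarith

/-- **the static inequality on a superlevel set with a constant charge `k` below the level `T`**, for a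
value function with kinks. The pointwise inequality `hFk` is asked for the flux `P + z`, `z ≥ 0`, with the
cost `2 P z + z²` of the additional flux (members with `b ≤ 1`). -/
theorem mcu_topk (C : Calc M γ) {v : Fin 3 → M → ℝ} (hv : Sph γ v) {χ : M → ℝ} (hχ : Lip χ)
    (eχ : EvenB γ χ) {κ κ' a₀ a₁ ε : ℝ} (hI : IsopE C κ a₁ ε) (hκ0 : 0 < κ')
    (hκ : ∀ a, a₀ ≤ a → κ' * a ≤ κ * (a - ε)) (ha0 : 0 < a₀)
    {γs : ι → Om → ℝ} (hγs : ∀ i, Integrable (γs i) C.μ) {i0 i1 i2 : ι}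
    (h0 : γs i0 = fun _ => 1) (h1 : γs i1 = jac C v) {F : Om → ℝ} (hF : Integrable F C.μ)
    {p : ℝ} {D : Set (ι → ℝ)} (hD : Convex ℝ D) {U : (ι → ℝ) → ℝ}
    {G : (ι → ℝ) → Set ((ι → ℝ) →L[ℝ] ℝ)} (hUc : ContinuousOn U D)
    (hU : ∀ x ∈ D, UpEx U D (G x) x) (hp : 0 ≤ p) {N R e : ℝ} (hU0 : ∀ x ∈ D, x i0 ≤ a₀ → U x ≤ e)
    (h2 : ∀ᵐ o ∂C.μ, 0 ≤ γs i2 o) (hN0 : 0 ≤ N) (hN : ∀ᵐ o ∂C.μ, γs i2 o ≤ N)
    (hDn : ∀ x ∈ D, 0 ≤ x i0 ∧ 0 ≤ x i2 ∧ x i2 ≤ N * x i0)
    (hR : 0 ≤ R) (gR : ∀ᵐ o ∂C.μ, |χ (C.pt o)| ≤ R) {s0 T : ℝ} (hs0 : 0 ≤ s0) (hT : s0 ≤ T)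
    {k : ℝ} (hk : 0 ≤ k) {b : ℝ} (hb : a₀ ≤ b) (hbT : b ≤ supa C χ T) {δ : ℝ} (hδ : 0 < δ)
    (hmem : ∀ s, s0 ≤ s → (fun i => supw C χ (γs i) s) ∈ D)
    (ha : ∀ s, s0 < s → supa C χ s ≤ a₁)
    (hF0 : ∀ᵐ o ∂C.μ, s0 < |χ (C.pt o)| → -(2 * p * |χ (C.pt o)| * γs i2 o) ≤ F o)
    (hFx : ∀ᵐ o ∂C.μ, s0 < |χ (C.pt o)| → ∀ x ∈ D, ∀ A ∈ G x,
      A (fun i => γs i o) - 2 * p * |χ (C.pt o)| * γs i2 o ≤ F o)
    (hFk : ∀ᵐ o ∂C.μ, s0 < |χ (C.pt o)| → ∀ x ∈ D, a₀ ≤ x i0 → ∀ A ∈ G x, ∀ z : ℝ, 0 ≤ z →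
      A (fun i => γs i o) + 2 * (p * x i2 / √(κ' * x i0) + z) * gn C χ o
        - (2 * (p * x i2 / √(κ' * x i0)) * z + z ^ 2)
        - 2 * p * |χ (C.pt o)| * γs i2 o ≤ F o) :
    U (fun i => supw C χ (γs i) s0) - 2 * p * s0 * supw C χ (γs i2) s0 + 2 * k * (T - s0)
      - (2 * p * k / κ' * kD N δ (supa C χ s0) (supw C χ (γs i2) s0) +
        k ^ 2 / κ' * Real.log (supa C χ s0 / b)) - e - 2 * p * R * N * a₀ ≤
      ∫ o in {o | s0 < |χ (C.pt o)|}, F o ∂C.μ := by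
  have := C.fin
  have hb0 : 0 < b := ha0.trans_le hb
  have himg : ∀ᵐ t : ℝ, 0 < t → (fun _ : ℝ => (0 : ℝ)) (supj C χ v t) ≤ deriv (levw C χ v) t ^ 2 :=
    ae_of_all _ fun t _ => sq_nonneg _
  have hsa : ∀ s, supw C χ (γs i0) s = supa C χ s := by
    intro s
    rw [h0]
    unfold supw supa
    simp [Measure.real]
  have hmono : ∀ s, s0 ≤ s → supw C χ (γs i2) s ≤ supw C χ (γs i2) s0 := by
    intro s hs
    refine setIntegral_mono_set (hγs i2).integrableOn (ae_restrict_of_ae h2)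
      (LE.le.eventuallyLE fun o ho => ?_)
    have ho' : s < |χ (C.pt o)| := ho
    exact (hs.trans_lt ho' : s0 < |χ (C.pt o)|)
  have haT : ∀ s, s ≤ T → b ≤ supa C χ s := fun s hs => hbT.trans (supa_anti C χ hs)
  set n0 := supw C χ (γs i2) s0 with hn0
  set Dk : Set (ι → ℝ) := (D ∩ {x | b ≤ x i0}) ∩ {x | p * x i2 + k ≤ p * n0 + k} with hDk
  have hDkc : Convex ℝ Dk := by
    refine (hD.inter ?_).inter ?_
    · intro x hx y hy α β hα hβ hab
      have hx' : b ≤ x i0 := hx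
      have hy' : b ≤ y i0 := hy
      change b ≤ (α • x + β • y) i0
      simp only [Pi.add_apply, Pi.smul_apply, smul_eq_mul]
      have k1 := mul_le_mul_of_nonneg_left hx' hα
      have k2 := mul_le_mul_of_nonneg_left hy' hβ
      have k3 : α * b + β * b = b := by
        rw [← add_mul, hab, one_mul]
      linarith
    · intro x hx y hy α β hα hβ hab
      have hx' : p * x i2 + k ≤ p * n0 + k := hx
      have hy' : p * y i2 + k ≤ p * n0 + k := hy
      change p * (α • x + β • y) i2 + k ≤ _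
      simp only [Pi.add_apply, Pi.smul_apply, smul_eq_mul]
      have k1 := mul_le_mul_of_nonneg_left hx' hα
      have k2 := mul_le_mul_of_nonneg_left hy' hβ
      have k3 : α * (p * n0 + k) + β * (p * n0 + k) = p * n0 + k := by
        rw [← add_mul, hab, one_mul]
      have k4 : α * k + β * k = k := by
        rw [← add_mul, hab, one_mul]
      nlinarith
  have hDkD : Dk ⊆ D := fun x hx => hx.1.1
  have hDkb : ∀ x ∈ Dk, b ≤ x i0 := fun x hx => hx.1.2
  have hmemk : ∀ s, s0 ≤ s → s ≤ T → (fun i => supw C χ (γs i) s) ∈ Dk := by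
    intro s hs hs'
    refine ⟨⟨hmem s hs, ?_⟩, ?_⟩
    · change b ≤ supw C χ (γs i0) s
      rw [hsa]
      exact haT s hs'
    · change p * supw C χ (γs i2) s + k ≤ p * n0 + k
      have := mul_le_mul_of_nonneg_left (hmono s hs) hp
      linarith
  have hpos : ∀ x ∈ Dk, 0 < x i0 ∧ 0 ≤ x i2 ∧ x i2 ≤ N * x i0 ∧ 0 < N * x i0 + δ ∧ 0 < x i2 + δ := by
    intro x hx
    obtain ⟨a1, a2, a3⟩ := hDn x (hDkD hx)
    have a4 : 0 < x i0 := hb0.trans_le (hDkb x hx)
    have a5 := mul_nonneg hN0 a4.le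
    exact ⟨a4, a2, a3, by linarith, by linarith⟩
  -- the value function of the band
  set Uk : (ι → ℝ) → ℝ := fun x => U x + -(kPay p k κ' N δ (x i0) (x i2)) with hUk
  set Gk : (ι → ℝ) → Set ((ι → ℝ) →L[ℝ] ℝ) :=
    fun x => (fun A : (ι → ℝ) →L[ℝ] ℝ => A + -(kPay' p k κ' N δ i0 i2 x)) '' G x with hGk
  have hder : ∀ x ∈ Dk, HasFDerivAt (fun z : ι → ℝ => -(kPay p k κ' N δ (z i0) (z i2)))
      (-(kPay' p k κ' N δ i0 i2 x)) x := fun x hx => by
    obtain ⟨a1, a2, a3, a4, a5⟩ := hpos x hx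
    exact (kPay_deriv (i0 := i0) (i2 := i2) a4 a5 a1).neg
  have hUkc : ContinuousOn Uk Dk := by
    refine (hUc.mono hDkD).add fun x hx => ?_
    exact (hder x hx).continuousAt.continuousWithinAt
  have hUkU : ∀ x ∈ Dk, UpEx Uk Dk (Gk x) x := fun x hx =>
    ((hU x (hDkD hx)).mono_dom hDkD).add_hasFDerivAt (hder x hx)
  have hval : ∀ x : ι → ℝ, ∀ o, kPay' p k κ' N δ i0 i2 x (fun i => γs i o) =
      2 * p * k / κ' * ((x i2 + δ) * (N / (N * x i0 + δ)) +
        (Real.log (N * x i0 + δ) - Real.log (x i2 + δ)) * γs i2 o) + k ^ 2 / κ' * (x i0)⁻¹ := by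
    intro x o
    have h5 : γs i0 o = 1 := by rw [h0]
    simp [kPay', h5]
    ring
  have hband := mcu_band C hv hχ eχ hI hκ (Wim := fun _ => 0) himg hγs h0 h1 hF (p := p) (k := k) (D := Dk) hDkc (U := Uk)
    (G := Gk) hUkc hUkU (P := fun x => p * x i2 / √(κ' * x i0) + k / √(κ' * x i0)) (Q := fun _ => 0)
    (fun x hx hxa => by
      obtain ⟨a1, a2, a3, a4, a5⟩ := hpos x hx
      have a6 : 0 < √(κ' * x i0) := Real.sqrt_pos.2 (by positivity)
      refine ⟨by positivity, le_rfl, ?_⟩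
      rw [zero_mul, add_zero, ← add_div, div_mul_cancel₀ _ a6.ne'])
    hp h2 hN (B := p * n0 + k) (fun x hx => hx.2) hs0 hT hmemk (fun s a _ => ha s a)
    (fun s _ hs' => hb.trans (haT s hs'.le))
    (by
      filter_upwards [hFx, h2] with o ho hν a _ x hx A' hA'
      obtain ⟨A, hA, rfl⟩ := hA'
      obtain ⟨a1, a2, a3, a4, a5⟩ := hpos x hx
      have h3 := ho a x (hDkD hx) A hA
      have h4 := kPay_rate (p := p) (k := k) (κ := κ') (N := N) (δ := δ) (ν := γs i2 o) hκ0 hp hk hN0 hδ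
        a1 a2 a3 hν
      have h5 : 0 ≤ 2 * p * k / κ' * (x i2 / x i0) + k ^ 2 / κ' * (x i0)⁻¹ := by positivity
      have h6 := hval x o
      change (A + -(kPay' p k κ' N δ i0 i2 x)) (fun i => γs i o) - _ ≤ _
      rw [add_apply, neg_apply, h6]
      linarith)
    (by
      filter_upwards [hFk, h2] with o ho hν a _ x hx hxa A' hA'
      obtain ⟨A, hA, rfl⟩ := hA'
      obtain ⟨a1, a2, a3, a4, a5⟩ := hpos x hx
      have a6 : 0 < κ' * x i0 := by positivity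
      have a7 : 0 < √(κ' * x i0) := Real.sqrt_pos.2 a6
      have h3 := ho a x (hDkD hx) hxa A hA (k / √(κ' * x i0)) (by positivity)
      have h4 := kPay_rate (p := p) (k := k) (κ := κ') (N := N) (δ := δ) (ν := γs i2 o) hκ0 hp hk hN0 hδ
        a1 a2 a3 hν
      have h6 := hval x o
      have e1 : 2 * (p * x i2 / √(κ' * x i0)) * (k / √(κ' * x i0)) + (k / √(κ' * x i0)) ^ 2 =
          2 * p * k / κ' * (x i2 / x i0) + k ^ 2 / κ' * (x i0)⁻¹ := by
        have e2 : √(κ' * x i0) ^ 2 = κ' * x i0 := Real.sq_sqrt a6.le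
        rw [div_pow, e2]
        have e3 : 2 * (p * x i2 / √(κ' * x i0)) * (k / √(κ' * x i0)) =
            2 * p * k * x i2 / √(κ' * x i0) ^ 2 := by
          field_simp
        rw [e3, e2]
        field_simp
      rw [e1] at h3
      change (A + -(kPay' p k κ' N δ i0 i2 x)) (fun i => γs i o) +
        2 * (p * x i2 / √(κ' * x i0) + k / √(κ' * x i0) + 0 * opn C v o) * gn C χ o - _ ≤ _
      rw [add_apply, neg_apply, h6, zero_mul, add_zero]
      linarith)
  -- the top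
  have htop := mcu_top C hv hχ eχ hI hκ ha0 (Wim := fun _ => 0) himg hγs h0 h1 hF (p := p) hD hUc hU
    (P := fun x => p * x i2 / √(κ' * x i0)) (Q := fun _ => 0)
    (fun x hx hxa => by
      obtain ⟨a1, a2, a3⟩ := hDn x hx
      have a4 : 0 < x i0 := ha0.trans_le hxa
      have a6 : 0 < √(κ' * x i0) := Real.sqrt_pos.2 (by positivity)
      refine ⟨by positivity, le_rfl, ?_⟩
      rw [zero_mul, add_zero, div_mul_cancel₀ _ a6.ne'])
    hp hU0 h2 hN0 hN hR gR (hs0.trans hT) (fun s hs => hmem s (hT.trans hs))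
    (fun s hs => ha s (hT.trans_lt hs))
    (by
      filter_upwards [hF0] with o ho a
      exact ho (hT.trans_lt a))
    (by
      filter_upwards [hFx] with o ho a
      exact ho (hT.trans_lt a))
    (by
      filter_upwards [hFk] with o ho a x hx hxa A hA
      have h3 := ho (hT.trans_lt a) x hx hxa A hA 0 le_rfl
      have e1 : 2 * (p * x i2 / √(κ' * x i0)) * 0 + (0 : ℝ) ^ 2 = 0 := by ring
      rw [e1, add_zero, sub_zero] at h3
      change A (fun i => γs i o) + 2 * (p * x i2 / √(κ' * x i0) + 0 * opn C v o) * gn C χ o - _ ≤ _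
      rw [zero_mul, add_zero]
      exact h3)
  -- the charge at the crossing level
  obtain ⟨a1, a2, a3⟩ := hDn _ (hmem T hT)
  rw [hsa] at a1 a3
  have hkd : 0 ≤ 2 * p * k / κ' * kD N δ (supa C χ T) (supw C χ (γs i2) T) :=
    mul_nonneg (by positivity) (kD_nonneg hδ a2 a3)
  have hlog : k ^ 2 / κ' * Real.log b ≤ k ^ 2 / κ' * Real.log (supa C χ T) :=
    mul_le_mul_of_nonneg_left (Real.log_le_log hb0 hbT) (by positivity)
  have hlog2 : Real.log (supa C χ s0 / b) = Real.log (supa C χ s0) - Real.log b :=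
    Real.log_div (hb0.trans_le (haT s0 hT)).ne' hb0.ne'
  rw [level_split C hχ hF hT, hlog2]
  simp only [hUk, kPay, hsa] at hband
  linarith

end Pool.Agent.FPX
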