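import Mathlib
import Pool.Agent.FPX.MCU

/-
KME (helper57): the side condition of scheme K in the modulus closing, for value functions with kinks
(form MCU). `mcu_topU` adds a constant charge `k` on all levels below `T` where the area is at least `b`.
The value function may depend on `k` (second table); KMD has the form for a value function of the case
`k = 0`.
-/

open MeasureTheory Set Filter Topology
open scoped ENNReal NNReal

noncomputable section

namespace Pool.Agent.FPX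

open Pool.Agent.EWD Pool.Agent.FPM

variable {M : Type} [MetricSpace M] {γ : ℝ → M}

/-- a member of the pointwise list at the multiplier `y + e`, in the form needed by `mcu_topU` -/
theorem mem_k {g F c b y e A : ℝ} (hb : b ≤ 1)
    (h : 2 * (y + e) * g + c - b * (y + e) ^ 2 ≤ F) (hA : A + b * y ^ 2 + 2 * b * y * e ≤ c) :
    A - e ^ 2 + 2 * (y + e) * g ≤ F := by
  have h1 : b * e ^ 2 ≤ 1 * e ^ 2 := mul_le_mul_of_nonneg_right hb (sq_nonneg e)
  nlinarith

variable {ι : Type*} [Fintype ι]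

/-- **the static inequality with a constant charge `k` below the level `T`** (form MCU) -/
theorem mcu_topU (C : Calc M γ) {v : Fin 3 → M → ℝ} (hv : Sph γ v) {χ : M → ℝ} (hχ : Lip χ)
    (eχ : EvenB γ χ) {κ κ' a₀ a₁ ε : ℝ} (hI : IsopE C κ a₁ ε) (hκ0 : 0 < κ')
    (hκ : ∀ a, a₀ ≤ a → κ' * a ≤ κ * (a - ε)) (ha0 : 0 < a₀) {Wim : ℝ → ℝ}
    (himg : ∀ᵐ t : ℝ, 0 < t → Wim (supj C χ v t) ≤ deriv (levw C χ v) t ^ 2)
    {γs : ι → Om → ℝ} (hγs : ∀ i, Integrable (γs i) C.μ) {i0 i1 i2 : ι}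
    (h0 : γs i0 = fun _ => 1) (h1 : γs i1 = jac C v) {F : Om → ℝ} (hF : Integrable F C.μ)
    {p : ℝ} {D : Set (ι → ℝ)} (hD : Convex ℝ D) {U : (ι → ℝ) → ℝ}
    {G : (ι → ℝ) → Set ((ι → ℝ) →L[ℝ] ℝ)} (hUc : ContinuousOn U D)
    (hU : ∀ x ∈ D, UpEx U D (G x) x) {P Q : (ι → ℝ) → ℝ}
    (hPQ : ∀ x ∈ D, a₀ ≤ x i0 → 0 ≤ P x ∧ 0 ≤ Q x ∧
      p * x i2 ≤ P x * √(κ' * x i0) + Q x * √(Wim (x i1)))
    (hp : 0 ≤ p) {N R e : ℝ} (hU0 : ∀ x ∈ D, x i0 ≤ a₀ → U x ≤ e)
    (h2 : ∀ᵐ o ∂C.μ, 0 ≤ γs i2 o) (hN0 : 0 ≤ N) (hN : ∀ᵐ o ∂C.μ, γs i2 o ≤ N)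
    (hR : 0 ≤ R) (gR : ∀ᵐ o ∂C.μ, |χ (C.pt o)| ≤ R) {s0 T : ℝ} (hs0 : 0 ≤ s0) (hT : s0 ≤ T)
    {k : ℝ} (hk : 0 ≤ k) {b : ℝ} (hb : a₀ ≤ b) (hbT : b ≤ supa C χ T)
    (hmem : ∀ s, s0 ≤ s → (fun i => supw C χ (γs i) s) ∈ D)
    (ha : ∀ s, s0 < s → supa C χ s ≤ a₁)
    (hF0 : ∀ᵐ o ∂C.μ, s0 < |χ (C.pt o)| → -(2 * p * |χ (C.pt o)| * γs i2 o) ≤ F o)
    (hFx : ∀ᵐ o ∂C.μ, s0 < |χ (C.pt o)| → ∀ x ∈ D, ∀ A ∈ G x,
      A (fun i => γs i o) - 2 * p * |χ (C.pt o)| * γs i2 o ≤ F o)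
    (hFp : ∀ᵐ o ∂C.μ, s0 < |χ (C.pt o)| → ∀ x ∈ D, a₀ ≤ x i0 → ∀ A ∈ G x,
      A (fun i => γs i o) + 2 * (P x + Q x * opn C v o) * gn C χ o
        - 2 * p * |χ (C.pt o)| * γs i2 o ≤ F o)
    (hFk : ∀ᵐ o ∂C.μ, s0 < |χ (C.pt o)| → ∀ x ∈ D, b ≤ x i0 → ∀ A ∈ G x,
      A (fun i => γs i o) - k ^ 2 / κ' / x i0 +
        2 * (P x + k / √(κ' * x i0) + Q x * opn C v o) * gn C χ o
        - 2 * p * |χ (C.pt o)| * γs i2 o ≤ F o) :
    U (fun i => supw C χ (γs i) s0) - 2 * p * s0 * supw C χ (γs i2) s0 + 2 * k * (T - s0)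
        - k ^ 2 / κ' * Real.log (supa C χ s0 / b) - e - 2 * p * R * N * a₀ ≤
      ∫ o in {o | s0 < |χ (C.pt o)|}, F o ∂C.μ := by
  have := C.fin
  have hb0 : 0 < b := ha0.trans_le hb
  have hsa : ∀ s, supw C χ (γs i0) s = supa C χ s := by
    intro s
    rw [h0]
    unfold supw supa
    simp [Measure.real]
  have hmono : ∀ s, s0 ≤ s → supw C χ (γs i2) s ≤ supw C χ (γs i2) s0 := by
    intro s hs
    refine setIntegral_mono_set (hγs i2).integrableOn (ae_restrict_of_ae h2)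
      (LE.le.eventuallyLE fun o ho => ?_)
    have ho' : s < |χ (C.pt o)| := ho
    exact (hs.trans_lt ho' : s0 < |χ (C.pt o)|)
  have haT : ∀ s, s ≤ T → b ≤ supa C χ s := fun s hs => hbT.trans (supa_anti C χ hs)
  -- the band
  set n0 := p * supw C χ (γs i2) s0 + k with hn0
  set Dk : Set (ι → ℝ) := (D ∩ {x | b ≤ x i0}) ∩ {x | p * x i2 + k ≤ n0} with hDk
  have hDkc : Convex ℝ Dk := by
    refine (hD.inter ?_).inter ?_
    · intro x hx y hy α β hα hβ hab
      have hx' : b ≤ x i0 := hx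
      have hy' : b ≤ y i0 := hy
      change b ≤ (α • x + β • y) i0
      simp only [Pi.add_apply, Pi.smul_apply, smul_eq_mul]
      have k1 := mul_le_mul_of_nonneg_left hx' hα
      have k2 := mul_le_mul_of_nonneg_left hy' hβ
      have k3 : α * b + β * b = b := by
        rw [← add_mul, hab, one_mul]
      linarith
    · intro x hx y hy α β hα hβ hab
      have hx' : p * x i2 + k ≤ n0 := hx
      have hy' : p * y i2 + k ≤ n0 := hy
      change p * (α • x + β • y) i2 + k ≤ _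
      simp only [Pi.add_apply, Pi.smul_apply, smul_eq_mul]
      have k1 := mul_le_mul_of_nonneg_left hx' hα
      have k2 := mul_le_mul_of_nonneg_left hy' hβ
      have k3 : α * n0 + β * n0 = n0 := by
        rw [← add_mul, hab, one_mul]
      have k4 : α * k + β * k = k := by
        rw [← add_mul, hab, one_mul]
      linarith
  have hDkD : Dk ⊆ D := fun x hx => hx.1.1
  have hmemk : ∀ s, s0 ≤ s → s ≤ T → (fun i => supw C χ (γs i) s) ∈ Dk := by
    intro s hs hs'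
    refine ⟨⟨hmem s hs, ?_⟩, ?_⟩
    · change b ≤ supw C χ (γs i0) s
      rw [hsa]
      exact haT s hs'
    · change p * supw C χ (γs i2) s + k ≤ n0
      have := mul_le_mul_of_nonneg_left (hmono s hs) hp
      linarith
  set p0 : (ι → ℝ) →L[ℝ] ℝ := ContinuousLinearMap.proj i0 with hp0
  set B : (ι → ℝ) → (ι → ℝ) →L[ℝ] ℝ := fun x => (-(k ^ 2 / κ')) • ((x i0)⁻¹ • p0) with hBd
  have hder : ∀ x ∈ Dk, HasFDerivAt (fun z : ι → ℝ => -(k ^ 2 / κ') * Real.log (z i0)) (B x) x := by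
    intro x hx
    have hx1 : b ≤ x i0 := hx.1.2
    have e0 : HasFDerivAt (fun z : ι → ℝ => z i0) p0 x := p0.hasFDerivAt
    exact (e0.log (hb0.trans_le hx1).ne').const_mul _
  have hband := mcu_band C hv hχ eχ hI hκ himg hγs h0 h1 hF hDkc (p := p) (k := k)
    (U := fun x => U x + -(k ^ 2 / κ') * Real.log (x i0))
    (G := fun x => (fun A : (ι → ℝ) →L[ℝ] ℝ => A + B x) '' G x)
    ((hUc.mono hDkD).add fun x hx => (hder x hx).continuousAt.continuousWithinAt)
    (fun x hx => ((hU x (hDkD hx)).mono_dom hDkD).add_hasFDerivAt (hder x hx))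
    (P := fun x => P x + k / √(κ' * x i0)) (Q := Q)
    (fun x hx hxa => by
      obtain ⟨q1, q2, q3⟩ := hPQ x (hDkD hx) hxa
      have hx1 : b ≤ x i0 := hx.1.2
      have hx2 : 0 < √(κ' * x i0) := Real.sqrt_pos.2 (mul_pos hκ0 (hb0.trans_le hx1))
      refine ⟨by positivity, q2, ?_⟩
      rw [add_mul, div_mul_cancel₀ _ hx2.ne']
      linarith)
    hp h2 hN (B := n0) (fun x hx => hx.2) hs0 hT hmemk (fun s a _ => ha s a)
    (fun s _ hs' => hb.trans (haT s hs'.le))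
    (by
      filter_upwards [hFx] with o ho a _ x hx A hA
      obtain ⟨A', hA', rfl⟩ := hA
      have hx1 : b ≤ x i0 := hx.1.2
      have hx0 : 0 < x i0 := hb0.trans_le hx1
      have h5 : γs i0 o = 1 := by rw [h0]
      have e1 : (A' + B x) (fun i => γs i o) = A' (fun i => γs i o) - k ^ 2 / κ' / x i0 := by
        simp [hBd, hp0, h5]
        field_simp
        ring
      have e2 : 0 ≤ k ^ 2 / κ' / x i0 := by positivity
      have := ho a x (hDkD hx) A' hA'
      change (A' + B x) (fun i => γs i o) - _ ≤ _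
      rw [e1]
      linarith)
    (by
      filter_upwards [hFk] with o ho a _ x hx hxa A hA
      obtain ⟨A', hA', rfl⟩ := hA
      have hx1 : b ≤ x i0 := hx.1.2
      have hx0 : 0 < x i0 := hb0.trans_le hx1
      have h5 : γs i0 o = 1 := by rw [h0]
      have e1 : (A' + B x) (fun i => γs i o) = A' (fun i => γs i o) - k ^ 2 / κ' / x i0 := by
        simp [hBd, hp0, h5]
        field_simp
        ring
      have := ho a x (hDkD hx) hx1 A' hA'
      change (A' + B x) (fun i => γs i o) + _ - _ ≤ _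
      rw [e1]
      exact this)
  -- the top
  have htop := mcu_top C hv hχ eχ hI hκ ha0 himg hγs h0 h1 hF hD hUc hU hPQ hp hU0 h2 hN0 hN hR gR
    (hs0.trans hT) (fun s hs => hmem s (hT.trans hs)) (fun s hs => ha s (hT.trans_lt hs))
    (by
      filter_upwards [hF0] with o ho a
      exact ho (hT.trans_lt a))
    (by
      filter_upwards [hFx] with o ho a
      exact ho (hT.trans_lt a))
    (by
      filter_upwards [hFp] with o ho a
      exact ho (hT.trans_lt a))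
  have hlog : k ^ 2 / κ' * Real.log b ≤ k ^ 2 / κ' * Real.log (supa C χ T) :=
    mul_le_mul_of_nonneg_left (Real.log_le_log hb0 hbT) (by positivity)
  have hlog2 : Real.log (supa C χ s0 / b) = Real.log (supa C χ s0) - Real.log b :=
    Real.log_div (hb0.trans_le (haT s0 hT)).ne' hb0.ne'
  rw [level_split C hχ hF hT, hlog2]
  simp only [hsa] at hband
  linarith

end Pool.Agent.FPX
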