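import Mathlib
import Pool.Agent.FPX.STC

/-
STG (helper91): the static inequality for even functions with a general pointwise bound
`2 y |dχ| + Γ (o, y) - 2 |χ| m(o) ≤ F`, `y ≥ 0` (`m` the charge, account `i2`).
-/

open MeasureTheory Set Filter Topology
open scoped ENNReal NNReal

noncomputable section

namespace Pool.Agent.FPX

open Pool.Agent.EWD Pool.Agent.FPM

variable {M : Type} [MetricSpace M] {γ : ℝ → M}

variable {ι : Type*} [Fintype ι]

/-- a static certificate: `Φ` pays for the flux `m + k` (`m` the charge, account `i2`) through the levels,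
`Γ o y` the pointwise gain when the radial multiplier is `y` -/
structure SG (C : Calc M γ) (v : Fin 3 → M → ℝ) (γs : ι → Om → ℝ) (i0 i1 i2 : ι) (Γ : Om → ℝ → ℝ)
    (κ : ℝ) (Wim : ℝ → ℝ) (k : ℝ) (D : Set (ι → ℝ)) (Φ : (ι → ℝ) → ℝ) : Prop where
  cert : ∃ (Φ' : (ι → ℝ) → (ι → ℝ) →L[ℝ] ℝ) (P Q : (ι → ℝ) → ℝ),
    (∀ x ∈ D, HasFDerivAt Φ (Φ' x) x ∧ 0 ≤ P x ∧ 0 ≤ Q x ∧
      x i2 + k ≤ P x * √(κ * x i0) + Q x * √(Wim (x i1))) ∧
    ∀ᵐ o ∂C.μ, ∀ x ∈ D, 0 ≤ Φ' x (fun i => γs i o) + Γ o (P x + Q x * opn C v o) ∧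
      0 ≤ Φ' x (fun i => γs i o) + Γ o 0

omit [Fintype ι] in
theorem SG.mono {C : Calc M γ} {v : Fin 3 → M → ℝ} {γs : ι → Om → ℝ} {i0 i1 i2 : ι} {Γ : Om → ℝ → ℝ}
    {κ : ℝ} {Wim : ℝ → ℝ} {k : ℝ} {D D' : Set (ι → ℝ)} {Φ : (ι → ℝ) → ℝ}
    (h : SG C v γs i0 i1 i2 Γ κ Wim k D Φ) (hD : D' ⊆ D) :
    SG C v γs i0 i1 i2 Γ κ Wim k D' Φ := by
  obtain ⟨Φ', P, Q, h1, h2⟩ := h.cert
  refine ⟨Φ', P, Q, fun x hx => h1 x (hD hx), ?_⟩
  filter_upwards [h2] with o ho x hx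
  exact ho x (hD hx)

/-- **the static inequality on a band of levels** -/
theorem stg_band (C : Calc M γ) {v : Fin 3 → M → ℝ} (hv : Sph γ v) {χ : M → ℝ} (hχ : Lip χ)
    (eχ : EvenB γ χ) {κ κ' a₀ a₁ ε : ℝ} (hI : IsopE C κ a₁ ε)
    (hκ : ∀ a, a₀ ≤ a → κ' * a ≤ κ * (a - ε)) {Wim : ℝ → ℝ}
    (himg : ∀ᵐ t : ℝ, 0 < t → Wim (supj C χ v t) ≤ deriv (levw C χ v) t ^ 2)
    {γs : ι → Om → ℝ} (hγs : ∀ i, Integrable (γs i) C.μ) {i0 i1 i2 : ι}
    (h0 : γs i0 = fun _ => 1) (h1 : γs i1 = jac C v) {Γ : Om → ℝ → ℝ} {F : Om → ℝ} (hF : Integrable F C.μ)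
    {k : ℝ} {D : Set (ι → ℝ)} (hD : Convex ℝ D) {Φ : (ι → ℝ) → ℝ}
    (hS : SG C v γs i0 i1 i2 Γ κ' Wim k D Φ) {N B : ℝ}
    (h2 : ∀ᵐ o ∂C.μ, 0 ≤ γs i2 o) (hN : ∀ᵐ o ∂C.μ, γs i2 o ≤ N) (hB : ∀ x ∈ D, x i2 + k ≤ B)
    {s0 s1 : ℝ} (hs0 : 0 ≤ s0) (hs : s0 ≤ s1)
    (hmem : ∀ s, s0 ≤ s → s ≤ s1 → (fun i => supw C χ (γs i) s) ∈ D)
    (ha : ∀ s, s0 < s → s < s1 → supa C χ s ≤ a₁) (ha0 : ∀ s, s0 < s → s < s1 → a₀ ≤ supa C χ s)
    (hFp : ∀ᵐ o ∂C.μ, s0 < |χ (C.pt o)| → |χ (C.pt o)| ≤ s1 → ∀ y, 0 ≤ y →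
      2 * y * gn C χ o + Γ o y - 2 * |χ (C.pt o)| * γs i2 o ≤ F o) :
    2 * k * (s1 - s0) + (2 * s1 * supw C χ (γs i2) s1 + Φ (fun i => supw C χ (γs i) s1))
      - (2 * s0 * supw C χ (γs i2) s0 + Φ (fun i => supw C χ (γs i) s0)) ≤
      ∫ o in {o | s0 < |χ (C.pt o)| ∧ |χ (C.pt o)| ≤ s1}, F o ∂C.μ := by
  obtain ⟨Φ', P, Q, hx, hpt⟩ := hS.cert
  set pr : (ι → ℝ) →L[ℝ] ℝ := ContinuousLinearMap.proj i2 with hpr
  set S : ℝ → (ι → ℝ) → ℝ := fun s x => -(2 * s * (x i2 + k)) - Φ x with hSd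
  set S' : ℝ → (ι → ℝ) → (ℝ × (ι → ℝ)) →L[ℝ] ℝ := fun s x =>
    -((2 * (x i2 + k)) • ContinuousLinearMap.fst ℝ ℝ (ι → ℝ) +
      ((2 * s) • pr + Φ' x).comp (ContinuousLinearMap.snd ℝ ℝ (ι → ℝ))) with hS'
  have S1 : ∀ s x, S' s x (1, 0) = -(2 * (x i2 + k)) := fun s x => by
    simp only [hS', neg_apply, add_apply, smul_apply, ContinuousLinearMap.coe_fst',
      ContinuousLinearMap.comp_apply, ContinuousLinearMap.coe_snd', map_zero, smul_eq_mul]
    ring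
  have S2 : ∀ s x y, S' s x (0, y) = -(2 * s * y i2) - Φ' x y := fun s x y => by
    simp only [hS', neg_apply, add_apply, smul_apply, ContinuousLinearMap.coe_fst',
      ContinuousLinearMap.comp_apply, ContinuousLinearMap.coe_snd', smul_eq_mul, hpr,
      ContinuousLinearMap.proj_apply]
    ring
  have hSx : ∀ s x, x ∈ D → HasFDerivAt (fun z : ℝ × (ι → ℝ) => S z.1 z.2) (S' s x) (s, x) := by
    intro s x hxD
    have e0 : HasFDerivAt (fun z : ℝ × (ι → ℝ) => z.1)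
        (ContinuousLinearMap.fst ℝ ℝ (ι → ℝ)) (s, x) := hasFDerivAt_fst
    have e1 : HasFDerivAt (fun z : ℝ × (ι → ℝ) => Φ z.2)
        ((Φ' x).comp (ContinuousLinearMap.snd ℝ ℝ (ι → ℝ))) (s, x) :=
      HasFDerivAt.comp (s, x) (hx x hxD).1 hasFDerivAt_snd
    have e3 : HasFDerivAt (fun z : ℝ × (ι → ℝ) => z.2 i2 + k)
        (pr.comp (ContinuousLinearMap.snd ℝ ℝ (ι → ℝ))) (s, x) := by
      have e4 : HasFDerivAt (fun z : ℝ × (ι → ℝ) => z.2 i2)
          (pr.comp (ContinuousLinearMap.snd ℝ ℝ (ι → ℝ))) (s, x) :=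
        (pr.comp (ContinuousLinearMap.snd ℝ ℝ (ι → ℝ))).hasFDerivAt
      exact e4.add_const k
    have e2 := (((e0.const_mul 2).mul e3).neg).sub e1
    refine e2.congr_fderiv ?_
    refine ContinuousLinearMap.ext fun z => ?_
    simp [hS', hpr]
    ring
  set L : ℝ := 2 * max B 0 + 2 * max N 0 with hL
  have hN0 : 0 ≤ max N 0 := le_max_right _ _
  have hB0 : 0 ≤ max B 0 := le_max_right _ _
  have hpN : 0 ≤ 2 * max N 0 := by positivity
  have hmain := even_hj C hv hχ eχ hI himg hγs hF hs0 hs (L := L) (by positivity) hD hmem ha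
    (S := S) (S' := S') (fun s x _ _ hxD => hSx s x hxD)
    (fun s x _ _ hxD => by
      rw [S1]
      have h2 := hB x hxD
      have h3 : B ≤ max B 0 := le_max_left _ _
      linarith)
    (by
      filter_upwards [hpt, hN, hFp] with o ho hNo hFo s x a hxD b c
      rw [S2]
      have h4 := (ho x hxD).2
      have h6 := hFo (by linarith) c 0 le_rfl
      have h8 : 2 * (|χ (C.pt o)| - s) * γs i2 o ≤ 2 * (|χ (C.pt o)| - s) * max N 0 :=
        mul_le_mul_of_nonneg_left (hNo.trans (le_max_left _ _))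
          (mul_nonneg (by positivity) (by linarith))
      have h9 : 2 * max N 0 * (|χ (C.pt o)| - s) ≤ L * (|χ (C.pt o)| - s) :=
        mul_le_mul_of_nonneg_right (by rw [hL]; linarith) (by linarith)
      linarith)
    (by
      refine ae_of_all _ fun s a b l V hl hV hl2 hV2 => ?_
      set x : ι → ℝ := fun i => supw C χ (γs i) s with hxd
      have hxD : x ∈ D := hmem s a.le b.le
      obtain ⟨-, hP, hQ, hlen⟩ := hx x hxD
      have hx0 : x i0 = supa C χ s := by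
        change supw C χ (γs i0) s = _
        rw [h0]
        unfold supw supa
        simp [Measure.real]
      have hx1 : x i1 = supj C χ v s := by
        change supw C χ (γs i1) s = _
        rw [h1]
        rfl
      have h4 : √(κ' * x i0) ≤ l := by
        rw [← Real.sqrt_sq hl]
        refine Real.sqrt_le_sqrt (le_trans ?_ hl2)
        rw [hx0]
        exact hκ _ (ha0 s a b)
      have h5 : √(Wim (x i1)) ≤ V := by
        rw [← Real.sqrt_sq hV, hx1]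
        exact Real.sqrt_le_sqrt hV2
      refine ⟨2 * P x, 2 * Q x, by positivity, by positivity, ?_, ?_⟩
      · rw [S1]
        have h7 := mul_le_mul_of_nonneg_left h4 hP
        have h8 := mul_le_mul_of_nonneg_left h5 hQ
        linarith
      · refine ⟨s - s0, by linarith, ?_⟩
        filter_upwards [hpt, h2, hFp, wn_opn C hv χ] with o ho hn0 hFo hop c d
        rw [S2]
        have hg0 := gn_nonneg C χ o
        have hc0 : 0 ≤ |χ (C.pt o)| := abs_nonneg _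
        have hy : 0 ≤ P x + Q x * opn C v o := add_nonneg hP (mul_nonneg hQ (add_nonneg (norm_nonneg _) (norm_nonneg _)))
        have h6 := hFo (by linarith) (by linarith) _ hy
        have h7 := (ho x hxD).1
        have h10 : 0 ≤ L * (s - |χ (C.pt o)|) := mul_nonneg (by positivity) (by linarith)
        have h12 : 2 * |χ (C.pt o)| * γs i2 o ≤ 2 * s * γs i2 o :=
          mul_le_mul_of_nonneg_right (mul_le_mul_of_nonneg_left d (by positivity)) hn0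
        nlinarith)
  have e1 : S s0 (fun i => supw C χ (γs i) s0) =
      -(2 * s0 * (supw C χ (γs i2) s0 + k)) - Φ (fun i => supw C χ (γs i) s0) := rfl
  have e2 : S s1 (fun i => supw C χ (γs i) s1) =
      -(2 * s1 * (supw C χ (γs i2) s1 + k)) - Φ (fun i => supw C χ (γs i) s1) := rfl
  rw [e1, e2] at hmain
  linarith

/-- **the static inequality on a superlevel set** -/
theorem stg_top (C : Calc M γ) {v : Fin 3 → M → ℝ} (hv : Sph γ v) {χ : M → ℝ} (hχ : Lip χ)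
    (eχ : EvenB γ χ) {κ κ' a₀ a₁ ε : ℝ} (hI : IsopE C κ a₁ ε)
    (hκ : ∀ a, a₀ ≤ a → κ' * a ≤ κ * (a - ε)) (ha0 : 0 < a₀) {Wim : ℝ → ℝ}
    (himg : ∀ᵐ t : ℝ, 0 < t → Wim (supj C χ v t) ≤ deriv (levw C χ v) t ^ 2)
    {γs : ι → Om → ℝ} (hγs : ∀ i, Integrable (γs i) C.μ) {i0 i1 i2 : ι}
    (h0 : γs i0 = fun _ => 1) (h1 : γs i1 = jac C v) {Γ : Om → ℝ → ℝ} {F : Om → ℝ}
    (hF : Integrable F C.μ) {D : Set (ι → ℝ)} (hD : Convex ℝ D) {Φ : (ι → ℝ) → ℝ}
    (hS : SG C v γs i0 i1 i2 Γ κ' Wim 0 D Φ) {b₀ : ℝ}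
    (hΦ : ∀ x ∈ D, x i0 ≤ a₀ → -b₀ ≤ Φ x) {N R : ℝ}
    (h2 : ∀ᵐ o ∂C.μ, 0 ≤ γs i2 o) (hN0 : 0 ≤ N) (hN : ∀ᵐ o ∂C.μ, γs i2 o ≤ N)
    (hR : 0 ≤ R) (gR : ∀ᵐ o ∂C.μ, |χ (C.pt o)| ≤ R) {s0 : ℝ} (hs0 : 0 ≤ s0)
    (hmem : ∀ s, s0 ≤ s → (fun i => supw C χ (γs i) s) ∈ D)
    (ha : ∀ s, s0 < s → supa C χ s ≤ a₁)
    (hFp : ∀ᵐ o ∂C.μ, s0 < |χ (C.pt o)| → 0 ≤ Γ o 0 ∧ ∀ y, 0 ≤ y →
      2 * y * gn C χ o + Γ o y - 2 * |χ (C.pt o)| * γs i2 o ≤ F o) :
    -(2 * s0 * supw C χ (γs i2) s0 + Φ (fun i => supw C χ (γs i) s0)) - (2 * R * N * a₀ + b₀) ≤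
      ∫ o in {o | s0 < |χ (C.pt o)|}, F o ∂C.μ := by
  have := C.fin
  have n0 : ∀ s, 0 ≤ supw C χ (γs i2) s := fun s =>
    setIntegral_nonneg_of_ae_restrict (ae_restrict_of_ae h2)
  have ea : ∀ s, supw C χ (γs i0) s = supa C χ s := fun s => by
    rw [h0]
    unfold supw supa
    simp [Measure.real]
  have htop : ∀ s, s0 ≤ s → supa C χ s ≤ a₀ → -(2 * R * N * a₀) ≤
      ∫ o in {o | s < |χ (C.pt o)|}, F o ∂C.μ := by
    intro s hs hsa
    have m1 := meas_abs_lt C hχ s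
    have h3 : ∫ _ in {o | s < |χ (C.pt o)|}, -(2 * R * N) ∂C.μ ≤
        ∫ o in {o | s < |χ (C.pt o)|}, F o ∂C.μ := by
      refine setIntegral_mono_on_ae₀ (integrable_const _).integrableOn hF.integrableOn m1 ?_
      filter_upwards [hFp, h2, hN, gR] with o c1 c4 c5 c6 c7
      have h8 := c1 (hs.trans_lt c7)
      have h8' := h8.2 0 le_rfl
      have h9 : |χ (C.pt o)| * γs i2 o ≤ R * N := mul_le_mul c6 c5 c4 hR
      linarith [h8.1]
    rw [setIntegral_const, smul_eq_mul] at h3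
    have h4 : C.μ.real {o | s < |χ (C.pt o)|} = supa C χ s := rfl
    rw [h4] at h3
    have h5 : supa C χ s * (2 * R * N) ≤ a₀ * (2 * R * N) :=
      mul_le_mul_of_nonneg_right hsa (by positivity)
    linarith
  have hn0 := n0 s0
  have h2p : 0 ≤ 2 * s0 * supw C χ (γs i2) s0 := by positivity
  rcases le_or_gt (supa C χ s0) a₀ with h3 | h3
  · have h4 := htop s0 le_rfl h3
    have h5 := hΦ _ (hmem s0 le_rfl) (by
      rw [ea]
      exact h3)
    linarith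
  · obtain ⟨T, T0, TR, hT1, hT2⟩ := crossing C gR ha0 (h3.le.trans (supa_anti C χ hs0))
    have hsT : s0 ≤ T := by
      by_contra hc
      have := supa_anti C χ (not_le.1 hc).le
      linarith
    have hBd : ∀ x ∈ D ∩ {x | x i2 + 0 ≤ supw C χ (γs i2) s0}, x i2 + 0 ≤
        supw C χ (γs i2) s0 := fun x hx => hx.2
    have hDc : Convex ℝ (D ∩ {x : ι → ℝ | x i2 + 0 ≤ supw C χ (γs i2) s0}) := by
      refine hD.inter ?_
      intro x hx y hy a b ha' hb hab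
      have hx' : x i2 + 0 ≤ supw C χ (γs i2) s0 := hx
      have hy' : y i2 + 0 ≤ supw C χ (γs i2) s0 := hy
      change (a • x + b • y) i2 + 0 ≤ _
      simp only [Pi.add_apply, Pi.smul_apply, smul_eq_mul]
      have k1 := mul_le_mul_of_nonneg_left hx' ha'
      have k2 := mul_le_mul_of_nonneg_left hy' hb
      have k3 : a * (supw C χ (γs i2) s0) + b * (supw C χ (γs i2) s0) =
          supw C χ (γs i2) s0 := by
        rw [← add_mul, hab, one_mul]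
      linarith
    have hmono : ∀ s, s0 ≤ s → supw C χ (γs i2) s ≤ supw C χ (γs i2) s0 := by
      intro s hs
      refine setIntegral_mono_set (hγs i2).integrableOn (ae_restrict_of_ae h2)
        (LE.le.eventuallyLE fun o ho => ?_)
      have ho' : s < |χ (C.pt o)| := ho
      exact (hs.trans_lt ho' : s0 < |χ (C.pt o)|)
    have h4 := stg_band C hv hχ eχ hI hκ himg hγs h0 h1 hF hDc (hS.mono inter_subset_left) h2
      hN hBd hs0 hsT
      (fun s a _ => ⟨hmem s a, by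
        change supw C χ (γs i2) s + 0 ≤ _
        have := hmono s a
        linarith⟩)
      (fun s a _ => ha s a) (fun s a b => hT2 s (hs0.trans a.le) b)
      (by
        filter_upwards [hFp] with o ho a _
        exact (ho a).2)
    have h5 := htop T hsT hT1
    have h6 := hΦ _ (hmem T hsT) (by
      rw [ea]
      exact hT1)
    have h7 : 0 ≤ 2 * T * supw C χ (γs i2) T := by
      have := n0 T
      positivity
    rw [level_split C hχ hF hsT]
    linarith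

end Pool.Agent.FPX
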