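import Mathlib
import Pool.Agent.FPX.STG
import Pool.Agent.FPX.KMC

/-
KMG (helper57): the side condition of scheme K in the static modulus closing, for the general pointwise
bound `2 y |dχ| + Γ (o, y) - 2 |χ| m(o) ≤ F` of STG. `SGA` is a certificate which uses the area inequality
only; `stg_topk` adds a constant charge `k` on all levels below `T`.
-/

open MeasureTheory Set Filter Topology
open scoped ENNReal NNReal

noncomputable section

namespace Pool.Agent.FPX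

open Pool.Agent.EWD Pool.Agent.FPM

variable {M : Type} [MetricSpace M] {γ : ℝ → M}

variable {ι : Type*} [Fintype ι]

/-- a certificate (form STG) which uses the area inequality only -/
structure SGA (C : Calc M γ) (γs : ι → Om → ℝ) (i0 i2 : ι) (Γ : Om → ℝ → ℝ) (κ : ℝ)
    (D : Set (ι → ℝ)) (Φ : (ι → ℝ) → ℝ) : Prop where
  cert : ∃ Φ' : (ι → ℝ) → (ι → ℝ) →L[ℝ] ℝ, (∀ x ∈ D, HasFDerivAt Φ (Φ' x) x) ∧
    ∀ᵐ o ∂C.μ, ∀ x ∈ D, 0 ≤ Φ' x (fun i => γs i o) + Γ o (x i2 / √(κ * x i0)) ∧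
      0 ≤ Φ' x (fun i => γs i o) + Γ o 0

omit [Fintype ι] in
theorem SGA.mono {C : Calc M γ} {γs : ι → Om → ℝ} {i0 i2 : ι} {Γ : Om → ℝ → ℝ} {κ : ℝ}
    {D D' : Set (ι → ℝ)} {Φ : (ι → ℝ) → ℝ} (h : SGA C γs i0 i2 Γ κ D Φ) (hD : D' ⊆ D) :
    SGA C γs i0 i2 Γ κ D' Φ := by
  obtain ⟨Φ', h1, h2⟩ := h.cert
  refine ⟨Φ', fun x hx => h1 x (hD hx), ?_⟩
  filter_upwards [h2] with o ho x hx
  exact ho x (hD hx)

omit [Fintype ι] in
/-- the certificate in the form of STG -/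
theorem SGA.toSG {C : Calc M γ} (v : Fin 3 → M → ℝ) {γs : ι → Om → ℝ} {i0 : ι} (i1 : ι) {i2 : ι}
    {Γ : Om → ℝ → ℝ} {κ : ℝ} (Wim : ℝ → ℝ) {D : Set (ι → ℝ)} {Φ : (ι → ℝ) → ℝ}
    (h : SGA C γs i0 i2 Γ κ D Φ) (hκ : 0 < κ) {N : ℝ}
    (hD : ∀ x ∈ D, 0 ≤ x i0 ∧ 0 ≤ x i2 ∧ x i2 ≤ N * x i0) :
    SG C v γs i0 i1 i2 Γ κ Wim 0 D Φ := by
  obtain ⟨Φ', h1, h2⟩ := h.cert
  refine ⟨Φ', fun x => x i2 / √(κ * x i0), fun _ => 0, fun x hx => ⟨h1 x hx, ?_, le_rfl, ?_⟩, ?_⟩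
  · exact div_nonneg (hD x hx).2.1 (Real.sqrt_nonneg _)
  · obtain ⟨a1, a2, a3⟩ := hD x hx
    rcases a1.eq_or_lt with a4 | a4
    · have a5 : x i2 = 0 := by
        rw [← a4, mul_zero] at a3
        linarith
      simp only [a5, zero_mul, add_zero, zero_div, le_refl]
    · have a5 : 0 < √(κ * x i0) := Real.sqrt_pos.2 (by positivity)
      rw [div_mul_cancel₀ _ a5.ne']
      linarith
  · filter_upwards [h2] with o ho x hx
    have h3 := ho x hx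
    have e : x i2 / √(κ * x i0) + 0 * opn C v o = x i2 / √(κ * x i0) := by ring
    rw [e]
    exact h3

/-- the certificate with the charge `k` -/
theorem SGA.toSGk {C : Calc M γ} (v : Fin 3 → M → ℝ) {γs : ι → Om → ℝ} {i0 : ι} (i1 : ι) {i2 : ι}
    {Γ : Om → ℝ → ℝ} {κ : ℝ} (Wim : ℝ → ℝ) {D : Set (ι → ℝ)} {Φ : (ι → ℝ) → ℝ}
    (h : SGA C γs i0 i2 Γ κ D Φ) (hκ : 0 < κ) {k : ℝ} (hk : 0 ≤ k) {N δ : ℝ} (hN : 0 ≤ N) (hδ : 0 < δ)
    (hΓ : ∀ᵐ o ∂C.μ, ∀ y e, 0 ≤ y → 0 ≤ e → Γ o y - (2 * y * e + e ^ 2) ≤ Γ o (y + e))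
    (h0 : γs i0 = fun _ => 1) (h2 : ∀ᵐ o ∂C.μ, 0 ≤ γs i2 o)
    (hD : ∀ x ∈ D, 0 < x i0 ∧ 0 ≤ x i2 ∧ x i2 ≤ N * x i0) :
    SG C v γs i0 i1 i2 Γ κ Wim k D
      (fun x => Φ x + 2 * k / κ * kD N δ (x i0) (x i2) + k ^ 2 / κ * Real.log (x i0)) := by
  obtain ⟨Φ', h1, h3⟩ := h.cert
  set p0 : (ι → ℝ) →L[ℝ] ℝ := ContinuousLinearMap.proj i0 with hp0
  set p2 : (ι → ℝ) →L[ℝ] ℝ := ContinuousLinearMap.proj i2 with hp2
  refine ⟨fun x => Φ' x + (2 * k / κ) • (((x i2 + δ) * (N / (N * x i0 + δ))) • p0 +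
      (Real.log (N * x i0 + δ) - Real.log (x i2 + δ)) • p2) + (k ^ 2 / κ) • ((x i0)⁻¹ • p0),
    fun x => (x i2 + k) / √(κ * x i0), fun _ => 0, fun x hx => ⟨?_, ?_, le_rfl, ?_⟩, ?_⟩
  · obtain ⟨a1, a2, a3⟩ := hD x hx
    have a4 : 0 < N * x i0 + δ := by
      have := mul_nonneg hN a1.le
      linarith
    have e0 : HasFDerivAt (fun z : ι → ℝ => z i0) p0 x := p0.hasFDerivAt
    have e2 : HasFDerivAt (fun z : ι → ℝ => z i2) p2 x := p2.hasFDerivAt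
    have e3 : HasFDerivAt (fun z : ι → ℝ => (z i0, z i2)) (p0.prod p2) x := e0.prodMk e2
    have e4 := (kD_deriv (N := N) (δ := δ) (a := x i0) (n := x i2) a4 (by linarith)).comp x e3
    have e5 : HasFDerivAt (fun z : ι → ℝ => Real.log (z i0)) ((x i0)⁻¹ • p0) x := e0.log a1.ne'
    have e6 := ((h1 x hx).add (e4.const_mul (2 * k / κ))).add (e5.const_mul (k ^ 2 / κ))
    refine e6.congr_fderiv ?_
    refine ContinuousLinearMap.ext fun z => ?_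
    simp [hp0, hp2]
  · obtain ⟨a1, a2, a3⟩ := hD x hx
    exact div_nonneg (add_nonneg a2 hk) (Real.sqrt_nonneg _)
  · obtain ⟨a1, a2, a3⟩ := hD x hx
    have a5 : 0 < √(κ * x i0) := Real.sqrt_pos.2 (by positivity)
    rw [div_mul_cancel₀ _ a5.ne', zero_mul, add_zero]
  · filter_upwards [h3, hΓ, h2] with o ho hΓo hν x hx
    obtain ⟨a1, a2, a3⟩ := hD x hx
    have h4 := ho x hx
    have hka : 0 < κ * x i0 := mul_pos hκ a1
    have hsq : 0 < √(κ * x i0) := Real.sqrt_pos.2 hka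
    have hNa : 0 < N * x i0 + δ := by
      have := mul_nonneg hN a1.le
      linarith
    have c1 : 0 ≤ 2 * k / κ := by positivity
    have c2 : 0 ≤ k ^ 2 / κ := by positivity
    -- the derivative in the area
    have d1 : x i2 / x i0 ≤ (x i2 + δ) * (N / (N * x i0 + δ)) := by
      rw [← mul_div_assoc, div_le_div_iff₀ a1 hNa]
      nlinarith [mul_le_mul_of_nonneg_left a3 hδ.le]
    have d2 : 0 ≤ (Real.log (N * x i0 + δ) - Real.log (x i2 + δ)) * γs i2 o := by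
      refine mul_nonneg ?_ hν
      have := Real.log_le_log (show 0 < x i2 + δ by linarith) (show x i2 + δ ≤ N * x i0 + δ by linarith)
      linarith
    have hval : (Φ' x + (2 * k / κ) • (((x i2 + δ) * (N / (N * x i0 + δ))) • p0 +
        (Real.log (N * x i0 + δ) - Real.log (x i2 + δ)) • p2) + (k ^ 2 / κ) • ((x i0)⁻¹ • p0))
          (fun i => γs i o) = Φ' x (fun i => γs i o) + 2 * k / κ * ((x i2 + δ) * (N / (N * x i0 + δ)) +
        (Real.log (N * x i0 + δ) - Real.log (x i2 + δ)) * γs i2 o) + k ^ 2 / κ * (x i0)⁻¹ := by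
      have h5 : γs i0 o = 1 := by rw [h0]
      simp [hp0, hp2, h5]
      ring
    have h7 : 2 * k / κ * (x i2 / x i0) ≤ 2 * k / κ * ((x i2 + δ) * (N / (N * x i0 + δ)) +
        (Real.log (N * x i0 + δ) - Real.log (x i2 + δ)) * γs i2 o) :=
      mul_le_mul_of_nonneg_left (by linarith) c1
    have hr1 : 0 ≤ 2 * k / κ * (x i2 / x i0) := by positivity
    have hr2 : 0 ≤ k ^ 2 / κ * (x i0)⁻¹ := by positivity
    have hG := hΓo (x i2 / √(κ * x i0)) (k / √(κ * x i0)) (by positivity) (by positivity)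
    have e : (x i2 + k) / √(κ * x i0) + 0 * opn C v o = x i2 / √(κ * x i0) + k / √(κ * x i0) := by
      ring
    have e' : 2 * (x i2 / √(κ * x i0)) * (k / √(κ * x i0)) + (k / √(κ * x i0)) ^ 2 =
        2 * k / κ * (x i2 / x i0) + k ^ 2 / κ * (x i0)⁻¹ := by
      have e1 : √(κ * x i0) * √(κ * x i0) = κ * x i0 := Real.mul_self_sqrt hka.le
      have e2 : 2 * (x i2 / √(κ * x i0)) * (k / √(κ * x i0)) =
          2 * x i2 * k / (√(κ * x i0) * √(κ * x i0)) := by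
        field_simp
      rw [div_pow, Real.sq_sqrt hka.le, e2, e1]
      field_simp
    rw [e, hval]
    rw [e'] at hG
    exact ⟨by linarith [h4.1], by linarith [h4.2]⟩

/-- **the static inequality (form STG) with a constant charge `k` below the level `T`** -/
theorem stg_topk (C : Calc M γ) {v : Fin 3 → M → ℝ} (hv : Sph γ v) {χ : M → ℝ} (hχ : Lip χ)
    (eχ : EvenB γ χ) {κ κ' a₀ a₁ ε : ℝ} (hI : IsopE C κ a₁ ε) (hκ0 : 0 < κ')
    (hκ : ∀ a, a₀ ≤ a → κ' * a ≤ κ * (a - ε)) (ha0 : 0 < a₀)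
    {γs : ι → Om → ℝ} (hγs : ∀ i, Integrable (γs i) C.μ) {i0 i1 i2 : ι}
    (h0 : γs i0 = fun _ => 1) (h1 : γs i1 = jac C v) {Γ : Om → ℝ → ℝ} {F : Om → ℝ}
    (hF : Integrable F C.μ) {D : Set (ι → ℝ)} (hD : Convex ℝ D) {Φ : (ι → ℝ) → ℝ}
    (hS : SGA C γs i0 i2 Γ κ' D Φ) {b₀ : ℝ} (hΦ : ∀ x ∈ D, x i0 ≤ a₀ → -b₀ ≤ Φ x) {N R : ℝ}
    (hΓ : ∀ᵐ o ∂C.μ, ∀ y e, 0 ≤ y → 0 ≤ e → Γ o y - (2 * y * e + e ^ 2) ≤ Γ o (y + e))
    (h2 : ∀ᵐ o ∂C.μ, 0 ≤ γs i2 o) (hN0 : 0 ≤ N) (hN : ∀ᵐ o ∂C.μ, γs i2 o ≤ N)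
    (hDn : ∀ x ∈ D, 0 ≤ x i0 ∧ 0 ≤ x i2 ∧ x i2 ≤ N * x i0)
    (hR : 0 ≤ R) (gR : ∀ᵐ o ∂C.μ, |χ (C.pt o)| ≤ R) {s0 T : ℝ} (hs0 : 0 ≤ s0) (hT : s0 ≤ T)
    {k : ℝ} (hk : 0 ≤ k) {b : ℝ} (hb : a₀ ≤ b) (hbT : b ≤ supa C χ T) {δ : ℝ} (hδ : 0 < δ)
    (hmem : ∀ s, s0 ≤ s → (fun i => supw C χ (γs i) s) ∈ D)
    (ha : ∀ s, s0 < s → supa C χ s ≤ a₁)
    (hFp : ∀ᵐ o ∂C.μ, s0 < |χ (C.pt o)| → 0 ≤ Γ o 0 ∧ ∀ y, 0 ≤ y →
      2 * y * gn C χ o + Γ o y - 2 * |χ (C.pt o)| * γs i2 o ≤ F o) :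
    2 * k * (T - s0) - (2 * s0 * supw C χ (γs i2) s0 + (Φ (fun i => supw C χ (γs i) s0) +
        2 * k / κ' * kD N δ (supa C χ s0) (supw C χ (γs i2) s0) +
        k ^ 2 / κ' * Real.log (supa C χ s0 / b))) - (2 * R * N * a₀ + b₀) ≤
      ∫ o in {o | s0 < |χ (C.pt o)|}, F o ∂C.μ := by
  have := C.fin
  have hb0 : 0 < b := ha0.trans_le hb
  have himg : ∀ᵐ t : ℝ, 0 < t → (fun _ : ℝ => (0 : ℝ)) (supj C χ v t) ≤ deriv (levw C χ v) t ^ 2 :=
    ae_of_all _ fun t _ => sq_nonneg _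
  have hsa : ∀ s, supw C χ (γs i0) s = supa C χ s := by
    intro s
    rw [h0]
    unfold supw supa
    simp [Measure.real]
  have hmono : ∀ s, s0 ≤ s → supw C χ (γs i2) s ≤ supw C χ (γs i2) s0 := by
    intro s hs
    refine setIntegral_mono_set (hγs i2).integrableOn (ae_restrict_of_ae h2)
      (LE.le.eventuallyLE fun o ho => ?_)
    have ho' : s < |χ (C.pt o)| := ho
    exact (hs.trans_lt ho' : s0 < |χ (C.pt o)|)
  have haT : ∀ s, s ≤ T → b ≤ supa C χ s := fun s hs => hbT.trans (supa_anti C χ hs)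
  -- the band
  set n0 := supw C χ (γs i2) s0 with hn0
  set Dk : Set (ι → ℝ) := (D ∩ {x | b ≤ x i0}) ∩ {x | x i2 + k ≤ n0 + k} with hDk
  have hDkc : Convex ℝ Dk := by
    refine (hD.inter ?_).inter ?_
    · intro x hx y hy α β hα hβ hab
      have hx' : b ≤ x i0 := hx
      have hy' : b ≤ y i0 := hy
      change b ≤ (α • x + β • y) i0
      simp only [Pi.add_apply, Pi.smul_apply, smul_eq_mul]
      have k1 := mul_le_mul_of_nonneg_left hx' hα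
      have k2 := mul_le_mul_of_nonneg_left hy' hβ
      have k3 : α * b + β * b = b := by
        rw [← add_mul, hab, one_mul]
      linarith
    · intro x hx y hy α β hα hβ hab
      have hx' : x i2 + k ≤ n0 + k := hx
      have hy' : y i2 + k ≤ n0 + k := hy
      change (α • x + β • y) i2 + k ≤ _
      simp only [Pi.add_apply, Pi.smul_apply, smul_eq_mul]
      have k1 := mul_le_mul_of_nonneg_left hx' hα
      have k2 := mul_le_mul_of_nonneg_left hy' hβ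
      have k3 : α * (n0 + k) + β * (n0 + k) = n0 + k := by
        rw [← add_mul, hab, one_mul]
      have k4 : α * k + β * k = k := by
        rw [← add_mul, hab, one_mul]
      nlinarith
  have hDkD : Dk ⊆ D := fun x hx => hx.1.1
  have hmemk : ∀ s, s0 ≤ s → s ≤ T → (fun i => supw C χ (γs i) s) ∈ Dk := by
    intro s hs hs'
    refine ⟨⟨hmem s hs, ?_⟩, ?_⟩
    · change b ≤ supw C χ (γs i0) s
      rw [hsa]
      exact haT s hs'
    · change supw C χ (γs i2) s + k ≤ n0 + k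
      have := hmono s hs
      linarith
  have hSk := (hS.mono hDkD).toSGk v i1 (fun _ => (0 : ℝ)) hκ0 hk hN0 hδ hΓ h0 h2
    (fun x hx => ⟨hb0.trans_le hx.1.2, (hDn x hx.1.1).2.1, (hDn x hx.1.1).2.2⟩)
  have hband := stg_band C hv hχ eχ hI hκ himg hγs h0 h1 hF hDkc hSk h2 hN
    (B := n0 + k) (fun x hx => hx.2) hs0 hT hmemk (fun s a _ => ha s a)
    (fun s _ hs' => hb.trans (haT s hs'.le))
    (by
      filter_upwards [hFp] with o ho a _
      exact (ho a).2)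
  -- the top
  have hS0 := hS.toSG v i1 (fun _ => (0 : ℝ)) hκ0 hDn
  have htop := stg_top C hv hχ eχ hI hκ ha0 himg hγs h0 h1 hF hD hS0 hΦ h2 hN0 hN hR gR
    (hs0.trans hT) (fun s hs => hmem s (hT.trans hs)) (fun s hs => ha s (hT.trans_lt hs))
    (by
      filter_upwards [hFp] with o ho a
      exact ho (hT.trans_lt a))
  -- the charge at the crossing level
  obtain ⟨a1, a2, a3⟩ := hDn _ (hmem T hT)
  rw [hsa] at a1 a3
  have hkd : 0 ≤ 2 * k / κ' * kD N δ (supa C χ T) (supw C χ (γs i2) T) :=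
    mul_nonneg (by positivity) (kD_nonneg hδ a2 a3)
  have hlog : k ^ 2 / κ' * Real.log b ≤ k ^ 2 / κ' * Real.log (supa C χ T) :=
    mul_le_mul_of_nonneg_left (Real.log_le_log hb0 hbT) (by positivity)
  have hlog2 : Real.log (supa C χ s0 / b) = Real.log (supa C χ s0) - Real.log b :=
    Real.log_div (hb0.trans_le (haT s0 hT)).ne' hb0.ne'
  rw [level_split C hχ hF hT, hlog2]
  simp only [hsa] at hband
  linarith

end Pool.Agent.FPX
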