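import Pool.Agent.FPX.PLY
/-!
KPL (helper19). Integer lists of nine numbers as Hermitian forms in three variables (order and convention of PLY): positivity,
the errors of complex moments against a diagonal form, bound of a form by its entries.
-/
set_option autoImplicit false

noncomputable section

namespace Pool.Agent.FPX.KPL

open Pool.Agent.FPX.PLK
open Complex (normSq normSq_apply normSq_nonneg I)

/-- nonnegative integers -/
def nn : ℤ → Bool
  | Int.ofNat _ => true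
  | Int.negSucc _ => false

theorem nn_le {a : ℤ} (h : nn a = true) : 0 ≤ a := by
  cases a with
  | ofNat n => exact Int.natCast_nonneg n
  | negSucc n => simp [nn] at h

/-- positive integers -/
def np : ℤ → Bool
  | Int.ofNat n => Nat.ble 1 n
  | Int.negSucc _ => false

theorem np_lt {a : ℤ} (h : np a = true) : 0 < a := by
  cases a with
  | ofNat n =>
    have := Nat.le_of_ble_eq_true h
    simp only [Int.ofNat_eq_natCast]
    omega
  | negSucc n => simp [np] at h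

/-- zero -/
def nz : ℤ → Bool
  | Int.ofNat n => Nat.beq n 0
  | Int.negSucc _ => false

theorem nz_eq {a : ℤ} (h : nz a = true) : a = 0 := by
  cases a with
  | ofNat n =>
    have := Nat.eq_of_beq_eq_true h
    simp [this]
  | negSucc n => simp [nz] at h

/-- positivity of the `2 x 2` block -/
def psdB (d f g h : ℤ) : Bool := nn d && (nn f && nn (d * f - (g * g + h * h)))

/-- positivity of the form with the entries `11, 22, 33, Re 12, Im 12, Re 13, Im 13, Re 23, Im 23` -/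
def psdZ : List ℤ → Bool
  | [a, d, f, b, b', c, c', e, e'] =>
    (np a && psdB (a * d - (b * b + b' * b')) (a * f - (c * c + c' * c')) (a * e - (b * c + b' * c'))
      (a * e' - (b * c' - b' * c))) ||
    (nz a && (nz b && (nz b' && (nz c && (nz c' && psdB d f e e')))))
  | _ => false

theorem psdZ_ok {K : List ℤ} (h : psdZ K = true) (z0 z1 z2 : ℂ) : 0 ≤ iz (w3 z0 z1 z2) K := by
  match K, h with
  | [a, d, f, b, b', c, c', e, e'], h =>
    simp only [psdZ, psdB, Bool.or_eq_true, Bool.and_eq_true] at h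
    rcases h with ⟨h1, h2, h3, h4⟩ | ⟨h1, h2, h3, h4, h5, h6, h7, h8⟩
    · have k1 : (0 : ℝ) < a := by exact_mod_cast np_lt h1
      have k2 : (b : ℝ) ^ 2 + (b' : ℝ) ^ 2 ≤ a * d := by
        have := nn_le h2
        have q : (b : ℤ) ^ 2 + b' ^ 2 ≤ a * d := by linarith
        exact_mod_cast q
      have k3 : (c : ℝ) ^ 2 + (c' : ℝ) ^ 2 ≤ a * f := by
        have := nn_le h3
        have q : (c : ℤ) ^ 2 + c' ^ 2 ≤ a * f := by linarith
        exact_mod_cast q
      have k4 : ((a : ℝ) * e - (b * c + b' * c')) ^ 2 + ((a : ℝ) * e' - (b * c' - b' * c)) ^ 2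
          ≤ (a * d - ((b : ℝ) ^ 2 + (b' : ℝ) ^ 2)) * (a * f - ((c : ℝ) ^ 2 + (c' : ℝ) ^ 2)) := by
        have := nn_le h4
        have q : (a * e - (b * c + b' * c')) ^ 2 + (a * e' - (b * c' - b' * c)) ^ 2
            ≤ (a * d - (b ^ 2 + b' ^ 2)) * (a * f - (c ^ 2 + c' ^ 2)) := by
          simp only [sq]
          linarith
        exact_mod_cast q
      have := quad3 k1 k2 k3 k4 z0 z1 z2
      simp only [iz, w3]
      linarith
    · have e1 := nz_eq h1
      have e2 := nz_eq h2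
      have e3 := nz_eq h3
      have e4 := nz_eq h4
      have e5 := nz_eq h5
      subst e1 e2 e3 e4 e5
      have k6 : (0 : ℝ) ≤ d := by exact_mod_cast nn_le h6
      have k7 : (0 : ℝ) ≤ f := by exact_mod_cast nn_le h7
      have k8 : (e : ℝ) ^ 2 + (e' : ℝ) ^ 2 ≤ d * f := by
        have := nn_le h8
        have q : e ^ 2 + e' ^ 2 ≤ d * f := by
          simp only [sq]
          linarith
        exact_mod_cast q
      have hw : (2 * ((starRingEnd ℂ) z1 * z2).re) ^ 2 + (-(2 * ((starRingEnd ℂ) z1 * z2).im)) ^ 2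
          = 4 * (normSq z1 * normSq z2) := by
        rw [normSq_apply, normSq_apply]
        simp only [Complex.mul_re, Complex.mul_im, Complex.conj_re, Complex.conj_im]
        ring
      have := quad2 k6 k7 k8 (normSq_nonneg z1) (normSq_nonneg z2) hw
      simp only [iz, w3, Int.cast_zero, mul_zero, zero_add]
      linarith

/-- the real form -/
theorem psdZ_real {x y v p q r : ℤ} (h : psdZ [x, y, v, -p, 0, -q, 0, -r, 0] = true) (a b c : ℝ) :
    0 ≤ x * a ^ 2 + y * b ^ 2 + v * c ^ 2 - 2 * p * (a * b) - 2 * q * (a * c) - 2 * r * (b * c) := by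
  have := psdZ_ok h (a : ℂ) (b : ℂ) (c : ℂ)
  simp only [iz, w3, Complex.normSq_ofReal, Complex.conj_ofReal, Complex.mul_re, Complex.mul_im, Complex.ofReal_re,
    Complex.ofReal_im] at this
  push_cast at this
  linarith

/-! ### errors of complex moments -/

/-- the bound of the mixed entry -/
def mx (r i r' i' : ℤ) : ℕ := (r + i').natAbs + ((i - r').natAbs + ((r - i').natAbs + (i + r').natAbs))

theorem mx_le (r i r' i' : ℤ) (w : ℂ) :
    ‖(((r * (2 * w.re) + i * -(2 * w.im) : ℝ) : ℂ) - ((r' * (2 * w.re) + i' * -(2 * w.im) : ℝ) : ℂ) * I)‖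
      ≤ (mx r i r' i' : ℝ) * ‖w‖ := by
  have e : (((r * (2 * w.re) + i * -(2 * w.im) : ℝ) : ℂ) - ((r' * (2 * w.re) + i' * -(2 * w.im) : ℝ) : ℂ) * I)
      = (⟨(r : ℝ) + i', (i : ℝ) - r'⟩ : ℂ) * w + (⟨(r : ℝ) - i', -((i : ℝ) + r')⟩ : ℂ) * (starRingEnd ℂ) w := by
    apply Complex.ext
    · simp only [Complex.sub_re, Complex.mul_re, Complex.ofReal_re, Complex.ofReal_im, Complex.I_re, Complex.I_im,
        Complex.add_re, Complex.conj_re, Complex.conj_im]
      ring
    · simp only [Complex.sub_im, Complex.mul_im, Complex.ofReal_re, Complex.ofReal_im, Complex.I_re, Complex.I_im,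
        Complex.add_im, Complex.conj_re, Complex.conj_im]
      ring
  have hc (a b : ℝ) (v : ℂ) : ‖(⟨a, b⟩ : ℂ) * v‖ ≤ (|a| + |b|) * ‖v‖ := by
    rw [norm_mul]
    exact mul_le_mul_of_nonneg_right (Complex.norm_le_abs_re_add_abs_im _) (norm_nonneg _)
  rw [e]
  refine (norm_add_le _ _).trans ?_
  have h1 := hc ((r : ℝ) + i') ((i : ℝ) - r') w
  have h2 := hc ((r : ℝ) - i') (-((i : ℝ) + r')) ((starRingEnd ℂ) w)
  rw [Complex.norm_conj, abs_neg] at h2
  have h3 : (mx r i r' i' : ℝ) = (|(r : ℝ) + i'| + |(i : ℝ) - r'|) + (|(r : ℝ) - i'| + |(i : ℝ) + r'|) := by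
    simp only [mx]
    push_cast [Nat.cast_natAbs]
    ring
  rw [h3]
  linarith

theorem dgn_le (a a' : ℤ) {n : ℝ} (hn : 0 ≤ n) :
    ‖(((a * n : ℝ) : ℂ) - ((a' * n : ℝ) : ℂ) * I)‖ ≤ ((a.natAbs + a'.natAbs : ℕ) : ℝ) * n := by
  refine (norm_sub_le _ _).trans ?_
  rw [norm_mul, Complex.norm_I, mul_one, Complex.norm_real, Complex.norm_real, Real.norm_eq_abs, Real.norm_eq_abs,
    abs_mul, abs_mul, abs_of_nonneg hn]
  push_cast [Nat.cast_natAbs]
  linarith

/-- subtraction of the errors of the pairs of moments from the diagonal form `x, y, v`; `p, q, r` are the coefficients of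
`|z0||z1|, |z0||z2|, |z1||z2|` -/
def domG : List ℕ → List (List ℤ) → ℤ → ℤ → ℤ → ℕ → ℕ → ℕ → Bool
  | e :: er, [a, b, c, r1, i1, r2, i2, r3, i3] :: [a', b', c', r1', i1', r2', i2', r3', i3'] :: L, x, y, v, p, q, r =>
    domG er L (x - (e * (a.natAbs + a'.natAbs) : ℕ)) (y - (e * (b.natAbs + b'.natAbs) : ℕ))
      (v - (e * (c.natAbs + c'.natAbs) : ℕ)) (p + e * mx r1 i1 r1' i1') (q + e * mx r2 i2 r2' i2')
      (r + e * mx r3 i3 r3' i3')
  | [], [], x, y, v, p, q, r => psdZ [2 * x, 2 * y, 2 * v, -p, 0, -q, 0, -r, 0]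
  | _, _, _, _, _, _, _, _ => false

/-- the sum of the errors -/
def errS (w : List ℝ) : List ℕ → List (List ℤ) → ℝ
  | e :: er, Q :: Q' :: L => e * ‖((iz w Q : ℝ) : ℂ) - ((iz w Q' : ℝ) : ℂ) * I‖ + errS w er L
  | _, _ => 0

theorem norm6 (a b c d e f : ℂ) : ‖a + b + c + d + e + f‖ ≤ ‖a‖ + ‖b‖ + ‖c‖ + ‖d‖ + ‖e‖ + ‖f‖ := by
  have h1 := norm_add_le (a + b + c + d + e) f
  have h2 := norm_add_le (a + b + c + d) e
  have h3 := norm_add_le (a + b + c) d
  have h4 := norm_add_le (a + b) c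
  have h5 := norm_add_le a b
  linarith

theorem pair_le (a b c r1 i1 r2 i2 r3 i3 a' b' c' r1' i1' r2' i2' r3' i3' : ℤ) (z0 z1 z2 : ℂ) :
    ‖((iz (w3 z0 z1 z2) [a, b, c, r1, i1, r2, i2, r3, i3] : ℝ) : ℂ)
        - ((iz (w3 z0 z1 z2) [a', b', c', r1', i1', r2', i2', r3', i3'] : ℝ) : ℂ) * I‖
      ≤ ((a.natAbs + a'.natAbs : ℕ) : ℝ) * ‖z0‖ ^ 2 + ((b.natAbs + b'.natAbs : ℕ) : ℝ) * ‖z1‖ ^ 2
        + ((c.natAbs + c'.natAbs : ℕ) : ℝ) * ‖z2‖ ^ 2 + (mx r1 i1 r1' i1' : ℝ) * (‖z0‖ * ‖z1‖)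
        + (mx r2 i2 r2' i2' : ℝ) * (‖z0‖ * ‖z2‖) + (mx r3 i3 r3' i3' : ℝ) * (‖z1‖ * ‖z2‖) := by
  have h1 := dgn_le a a' (normSq_nonneg z0)
  have h2 := dgn_le b b' (normSq_nonneg z1)
  have h3 := dgn_le c c' (normSq_nonneg z2)
  have h4 := mx_le r1 i1 r1' i1' ((starRingEnd ℂ) z0 * z1)
  have h5 := mx_le r2 i2 r2' i2' ((starRingEnd ℂ) z0 * z2)
  have h6 := mx_le r3 i3 r3' i3' ((starRingEnd ℂ) z1 * z2)
  rw [norm_mul, Complex.norm_conj] at h4 h5 h6
  rw [Complex.sq_norm, Complex.sq_norm, Complex.sq_norm]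
  have e : ((iz (w3 z0 z1 z2) [a, b, c, r1, i1, r2, i2, r3, i3] : ℝ) : ℂ)
        - ((iz (w3 z0 z1 z2) [a', b', c', r1', i1', r2', i2', r3', i3'] : ℝ) : ℂ) * I
      = (((a * normSq z0 : ℝ) : ℂ) - ((a' * normSq z0 : ℝ) : ℂ) * I)
        + (((b * normSq z1 : ℝ) : ℂ) - ((b' * normSq z1 : ℝ) : ℂ) * I)
        + (((c * normSq z2 : ℝ) : ℂ) - ((c' * normSq z2 : ℝ) : ℂ) * I)
        + (((r1 * (2 * ((starRingEnd ℂ) z0 * z1).re) + i1 * -(2 * ((starRingEnd ℂ) z0 * z1).im) : ℝ) : ℂ)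
          - ((r1' * (2 * ((starRingEnd ℂ) z0 * z1).re) + i1' * -(2 * ((starRingEnd ℂ) z0 * z1).im) : ℝ) : ℂ) * I)
        + (((r2 * (2 * ((starRingEnd ℂ) z0 * z2).re) + i2 * -(2 * ((starRingEnd ℂ) z0 * z2).im) : ℝ) : ℂ)
          - ((r2' * (2 * ((starRingEnd ℂ) z0 * z2).re) + i2' * -(2 * ((starRingEnd ℂ) z0 * z2).im) : ℝ) : ℂ) * I)
        + (((r3 * (2 * ((starRingEnd ℂ) z1 * z2).re) + i3 * -(2 * ((starRingEnd ℂ) z1 * z2).im) : ℝ) : ℂ)
          - ((r3' * (2 * ((starRingEnd ℂ) z1 * z2).re) + i3' * -(2 * ((starRingEnd ℂ) z1 * z2).im) : ℝ) : ℂ) * I) := by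
    simp only [iz, w3]
    push_cast
    ring
  rw [e]
  exact (norm6 _ _ _ _ _ _).trans (by linarith)

theorem domG_ok (z0 z1 z2 : ℂ) {er : List ℕ} {L : List (List ℤ)} {x y v : ℤ} {p q r : ℕ}
    (h : domG er L x y v p q r = true) :
    errS (w3 z0 z1 z2) er L + ((p : ℝ) * (‖z0‖ * ‖z1‖) + q * (‖z0‖ * ‖z2‖) + r * (‖z1‖ * ‖z2‖))
      ≤ x * ‖z0‖ ^ 2 + y * ‖z1‖ ^ 2 + v * ‖z2‖ ^ 2 := by
  induction er, L, x, y, v, p, q, r using domG.induct with
  | case1 e er a b c r1 i1 r2 i2 r3 i3 a' b' c' r1' i1' r2' i2' r3' i3' L x y v p q r ih =>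
    rw [domG] at h
    have ih := ih h
    have h1 := mul_le_mul_of_nonneg_left (pair_le a b c r1 i1 r2 i2 r3 i3 a' b' c' r1' i1' r2' i2' r3' i3' z0 z1 z2)
      (Nat.cast_nonneg (α := ℝ) e)
    simp only [errS]
    push_cast [Nat.cast_natAbs, Int.cast_abs] at ih h1 ⊢
    linarith
  | case2 x y v p q r =>
    rw [domG] at h
    have := psdZ_real h ‖z0‖ ‖z1‖ ‖z2‖
    simp only [errS]
    push_cast at this
    linarith
  | case3 er L x y v p q r h1 h2 =>
    rw [domG] at h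
    · exact absurd h (by simp)
    · exact h1
    · exact h2

/-- the errors of the moments `Z_2, Z_4, Z_6, Z_8` and a rounding error `t` are bounded by the diagonal form -/
def dom : List (List ℤ) → List ℕ → ℕ → List ℤ → Bool
  | [_, Q1, Q2, Q3, Q4, Q5, Q6, Q7, Q8], [e1, e2, e3, e4], t, [x, y, v] =>
    domG [e1, e2, e3, e4] [Q1, Q2, Q3, Q4, Q5, Q6, Q7, Q8] (x - (t : ℕ)) (y - (t : ℕ)) (v - (t : ℕ)) 0 0 0
  | _, _, _, _ => false

theorem dom_ok {Q : List (List ℤ)} {er : List ℕ} {t : ℕ} {K : List ℤ} (h : dom Q er t K = true) :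
    ∃ x y v : ℤ, K = [x, y, v] ∧ Q.length = 9 ∧ er.length = 4 ∧ ∀ z0 z1 z2 : ℂ,
      ∑ m ∈ Finset.range 4, (er.getD m 0 : ℝ) * ‖((iz (w3 z0 z1 z2) (Q.getD (2 * m + 1) []) : ℝ) : ℂ)
          - ((iz (w3 z0 z1 z2) (Q.getD (2 * m + 2) []) : ℝ) : ℂ) * I‖
        + t * (normSq z0 + normSq z1 + normSq z2) ≤ x * normSq z0 + y * normSq z1 + v * normSq z2 := by
  match Q, er, K, h with
  | [Q0, Q1, Q2, Q3, Q4, Q5, Q6, Q7, Q8], [e1, e2, e3, e4], [x, y, v], h =>
    refine ⟨x, y, v, rfl, rfl, rfl, fun z0 z1 z2 => ?_⟩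
    simp only [dom] at h
    have := domG_ok z0 z1 z2 h
    simp only [errS, Int.cast_sub, Int.cast_natCast, Nat.cast_zero, zero_mul, add_zero, Complex.sq_norm] at this
    simp only [Finset.sum_range_succ, Finset.sum_range_zero, zero_add, List.getD_cons_zero, List.getD_cons_succ,
      mul_zero, mul_one]
    linarith

/-! ### entries -/

theorem w3_abs (z0 z1 z2 : ℂ) {t : ℝ} {c0 c1 c2 c3 c4 c5 c6 c7 c8 : ℝ} (h0 : |c0| ≤ t) (h1 : |c1| ≤ t)
    (h2 : |c2| ≤ t) (h3 : |c3| ≤ t) (h4 : |c4| ≤ t) (h5 : |c5| ≤ t) (h6 : |c6| ≤ t) (h7 : |c7| ≤ t) (h8 : |c8| ≤ t) :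
    |normSq z0 * c0 + (normSq z1 * c1 + (normSq z2 * c2 + (2 * ((starRingEnd ℂ) z0 * z1).re * c3
      + (-(2 * ((starRingEnd ℂ) z0 * z1).im) * c4 + (2 * ((starRingEnd ℂ) z0 * z2).re * c5
      + (-(2 * ((starRingEnd ℂ) z0 * z2).im) * c6 + (2 * ((starRingEnd ℂ) z1 * z2).re * c7
      + (-(2 * ((starRingEnd ℂ) z1 * z2).im) * c8))))))))|
      ≤ 5 * t * (normSq z0 + normSq z1 + normSq z2) := by
  have key (a c m : ℝ) (ha : |a| ≤ m) (hc : |c| ≤ t) : |a * c| ≤ t * m := by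
    rw [abs_mul, mul_comm t]
    exact mul_le_mul ha hc (abs_nonneg _) ((abs_nonneg _).trans ha)
  have n0 := normSq_nonneg z0
  have n1 := normSq_nonneg z1
  have n2 := normSq_nonneg z2
  have cr (u v : ℂ) : |2 * ((starRingEnd ℂ) u * v).re| ≤ normSq u + normSq v := by
    rw [abs_le, normSq_apply, normSq_apply]
    simp only [Complex.mul_re, Complex.conj_re, Complex.conj_im]
    constructor <;> nlinarith [sq_nonneg (u.re + v.re), sq_nonneg (u.re - v.re), sq_nonneg (u.im + v.im),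
      sq_nonneg (u.im - v.im)]
  have ci (u v : ℂ) : |-(2 * ((starRingEnd ℂ) u * v).im)| ≤ normSq u + normSq v := by
    rw [abs_le, normSq_apply, normSq_apply]
    simp only [Complex.mul_im, Complex.conj_re, Complex.conj_im]
    constructor <;> nlinarith [sq_nonneg (u.re + v.im), sq_nonneg (u.re - v.im), sq_nonneg (u.im + v.re),
      sq_nonneg (u.im - v.re)]
  have k0 := key _ _ _ (abs_of_nonneg n0).le h0
  have k1 := key _ _ _ (abs_of_nonneg n1).le h1
  have k2 := key _ _ _ (abs_of_nonneg n2).le h2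
  have k3 := key _ _ _ (cr z0 z1) h3
  have k4 := key _ _ _ (ci z0 z1) h4
  have k5 := key _ _ _ (cr z0 z2) h5
  have k6 := key _ _ _ (ci z0 z2) h6
  have k7 := key _ _ _ (cr z1 z2) h7
  have k8 := key _ _ _ (ci z1 z2) h8
  rw [abs_le] at k0 k1 k2 k3 k4 k5 k6 k7 k8 ⊢
  constructor <;>
    linarith [k0.1, k0.2, k1.1, k1.2, k2.1, k2.2, k3.1, k3.2, k4.1, k4.2, k5.1, k5.2, k6.1, k6.2, k7.1, k7.2, k8.1, k8.2]

/-- value of a list of reals -/
def ir : List ℝ → List ℝ → ℝ
  | w :: ws, d :: l => w * d + ir ws l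
  | _, _ => 0

theorem ir_int (w : List ℝ) (l : List ℤ) : ir w (l.map (Int.cast : ℤ → ℝ)) = iz w l := by
  induction w generalizing l with
  | nil => cases l <;> rfl
  | cons a w ih =>
    cases l with
    | nil => rfl
    | cons d l => simp only [List.map_cons, ir, iz, ih]

theorem ir_pad (w l : List ℝ) (n : ℕ) : ir w (l ++ List.replicate n 0) = ir w l := by
  induction l generalizing w with
  | nil =>
    simp only [List.nil_append]
    induction n generalizing w with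
    | zero => cases w <;> rfl
    | succ n ih =>
      cases w with
      | nil => rfl
      | cons a w =>
        rw [List.replicate_succ]
        have := ih w
        simp only [ir, this, mul_zero, zero_add]
  | cons d l ih =>
    cases w with
    | nil => rfl
    | cons a w => simp only [List.cons_append, ir, ih]

theorem ir_cut (w l : List ℝ) : ir w l = ir w (l.take w.length) := by
  induction w generalizing l with
  | nil => cases l <;> rfl
  | cons a w ih =>
    cases l with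
    | nil => rfl
    | cons d l => simp only [List.length_cons, List.take_succ_cons, ir, ← ih]

/-- bound of the value of a form by its entries -/
theorem ir_abs (z0 z1 z2 : ℂ) {t : ℝ} (ht : 0 ≤ t) {c : List ℝ} (h : ∀ d ∈ c, |d| ≤ t) :
    |ir (w3 z0 z1 z2) c| ≤ 5 * t * (normSq z0 + normSq z1 + normSq z2) := by
  rw [ir_cut, ← ir_pad _ _ (9 - (c.take (w3 z0 z1 z2).length).length)]
  set m := c.take (w3 z0 z1 z2).length with hm
  have hl : (m ++ List.replicate (9 - m.length) 0).length = 9 := by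
    have : m.length ≤ 9 := by
      rw [hm, List.length_take]
      exact min_le_left _ _
    simp only [List.length_append, List.length_replicate]
    omega
  have hb : ∀ d ∈ m ++ List.replicate (9 - m.length) 0, |d| ≤ t := by
    intro d hd
    rcases List.mem_append.1 hd with hd | hd
    · exact h d (List.mem_of_mem_take hd)
    · rw [List.eq_of_mem_replicate hd]
      simpa using ht
  match m ++ List.replicate (9 - m.length) 0, hl, hb with
  | [c0, c1, c2, c3, c4, c5, c6, c7, c8], _, hb =>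
    simp only [ir, w3, add_zero]
    exact w3_abs z0 z1 z2 (hb _ (by simp)) (hb _ (by simp)) (hb _ (by simp)) (hb _ (by simp)) (hb _ (by simp))
      (hb _ (by simp)) (hb _ (by simp)) (hb _ (by simp)) (hb _ (by simp))

theorem iz_abs (z0 z1 z2 : ℂ) {t : ℝ} (ht : 0 ≤ t) {c : List ℤ} (h : ∀ d ∈ c, |(d : ℝ)| ≤ t) :
    |iz (w3 z0 z1 z2) c| ≤ 5 * t * (normSq z0 + normSq z1 + normSq z2) := by
  rw [← ir_int]
  refine ir_abs z0 z1 z2 ht fun d hd => ?_
  obtain ⟨e, he, rfl⟩ := List.mem_map.1 hd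
  exact h e he

/-- the Boolean form -/
def small (t : ℕ) (c : List ℤ) : Bool := c.all fun d => Nat.ble d.natAbs t

theorem iz_small (z0 z1 z2 : ℂ) {t : ℕ} {c : List ℤ} (h : small t c = true) :
    |iz (w3 z0 z1 z2) c| ≤ 5 * t * (normSq z0 + normSq z1 + normSq z2) := by
  refine iz_abs z0 z1 z2 (Nat.cast_nonneg t) fun d hd => ?_
  have h1 := Nat.le_of_ble_eq_true (List.all_eq_true.1 h d hd)
  have h2 : ((d.natAbs : ℕ) : ℝ) ≤ t := by exact_mod_cast h1
  rwa [Nat.cast_natAbs, Int.cast_abs] at h2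

end Pool.Agent.FPX.KPL
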