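import Mathlib
import Pool.Agent.FPX.ALY

/-
LFB (helper69): linear functionals of the state class `St s` by duality on cells: a potential
`K = A cos a + B sin a - sin (n a - ψ) / n`, bounds of the slopes on cells of `[0, π]`, exact primitive of `K`.
-/

open MeasureTheory Set Filter Topology Real
open scoped NNReal

noncomputable section

namespace Pool.Agent.FPX.LF

open Pool.Agent.FPX.ALX (St)

/-! ### the potential -/

/-- the potential -/
def Kf (n : ℕ) (A B ψ a : ℝ) : ℝ := A * cos a + B * sin a - sin (n * a - ψ) / n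

/-- its derivative -/
def Kd (n : ℕ) (A B ψ a : ℝ) : ℝ := -(A * sin a) + B * cos a - cos (n * a - ψ)

/-- its primitive -/
def Gf (n : ℕ) (A B ψ a : ℝ) : ℝ := A * sin a - B * cos a + cos (n * a - ψ) / n ^ 2

variable {n : ℕ} {A B ψ : ℝ}

theorem lin_der (a : ℝ) : HasDerivAt (fun a : ℝ => (n : ℝ) * a - ψ) (n : ℝ) a := by
  simpa using ((hasDerivAt_id a).const_mul (n : ℝ)).sub_const ψ

theorem Kf_der (hn : n ≠ 0) (a : ℝ) : HasDerivAt (Kf n A B ψ) (Kd n A B ψ a) a := by
  have hn' : (n : ℝ) ≠ 0 := by exact_mod_cast hn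
  have h1 := ((hasDerivAt_cos a).const_mul A).add ((hasDerivAt_sin a).const_mul B)
  have h2 := ((lin_der (n := n) (ψ := ψ) a).sin).div_const (n : ℝ)
  refine (h1.sub h2).congr_deriv ?_
  unfold Kd
  field_simp

theorem Gf_der (hn : n ≠ 0) (a : ℝ) : HasDerivAt (Gf n A B ψ) (Kf n A B ψ a) a := by
  have hn' : (n : ℝ) ≠ 0 := by exact_mod_cast hn
  have h1 := ((hasDerivAt_sin a).const_mul A).sub ((hasDerivAt_cos a).const_mul B)
  have h2 := ((lin_der (n := n) (ψ := ψ) a).cos).div_const ((n : ℝ) ^ 2)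
  refine (h1.add h2).congr_deriv ?_
  unfold Kf
  field_simp
  ring

theorem cont_Kf : Continuous (Kf n A B ψ) := by
  unfold Kf
  fun_prop

theorem cont_Kd : Continuous (Kd n A B ψ) := by
  unfold Kd
  fun_prop

theorem Kd_le (a : ℝ) : |Kd n A B ψ a| ≤ |A| + |B| + 1 := by
  unfold Kd
  have h1 : |A * sin a| ≤ |A| := by
    rw [abs_mul]
    exact mul_le_of_le_one_right (abs_nonneg _) (abs_sin_le_one a)
  have h2 : |B * cos a| ≤ |B| := by
    rw [abs_mul]
    exact mul_le_of_le_one_right (abs_nonneg _) (abs_cos_le_one a)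
  have h3 := abs_cos_le_one ((n : ℝ) * a - ψ)
  calc |-(A * sin a) + B * cos a - cos (n * a - ψ)| ≤ |-(A * sin a) + B * cos a| + |cos (n * a - ψ)| := abs_sub _ _
    _ ≤ |-(A * sin a)| + |B * cos a| + |cos (n * a - ψ)| := by
      have := abs_add_le (-(A * sin a)) (B * cos a)
      linarith
    _ ≤ _ := by
      rw [abs_neg]
      linarith

/-- the potential is Lipschitz -/
theorem Kf_lip (hn : n ≠ 0) (a b : ℝ) : |Kf n A B ψ b - Kf n A B ψ a| ≤ (|A| + |B| + 1) * |b - a| := by
  have h := Convex.norm_image_sub_le_of_norm_hasDerivWithin_le (f := Kf n A B ψ) (f' := Kd n A B ψ) (s := univ)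
    (C := |A| + |B| + 1) (x := a) (y := b) (fun x _ => (Kf_der hn x).hasDerivWithinAt)
    (fun x _ => by simpa using Kd_le x) convex_univ (mem_univ _) (mem_univ _)
  simpa using h

theorem Kf_pi (hn : Odd n) (a : ℝ) : Kf n A B ψ (a + π) = -Kf n A B ψ a := by
  obtain ⟨k, hk⟩ := hn
  unfold Kf
  have e : (n : ℝ) * (a + π) - ψ = (n * a - ψ + π) + k * (2 * π) := by
    rw [hk]
    push_cast
    ring
  rw [e, sin_add_nat_mul_two_pi, sin_add_pi, cos_add_pi, sin_add_pi]
  ring

theorem int_Kf (hn : n ≠ 0) (a b : ℝ) : ∫ t in a..b, Kf n A B ψ t = Gf n A B ψ b - Gf n A B ψ a :=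
  intervalIntegral.integral_eq_sub_of_hasDerivAt (fun t _ => Gf_der hn t) (cont_Kf.intervalIntegrable _ _)

/-! ### the functional -/

variable {s : ℝ} {X : ℝ → ℝ}

theorem fun_eq (h : St s X) (hn : n ≠ 0) :
    (QST.mn fun a => Kf n A B ψ a * deriv X a) = QST.mn fun a => X a * cos (n * a - ψ) := by
  have hn' : (n : ℝ) ≠ 0 := by exact_mod_cast hn
  rw [h.ibp (φ := Kf n A B ψ) (φ' := Kd n A B ψ) (Kf_der hn) cont_Kd (by
    unfold Kf
    have e : (n : ℝ) * (2 * π) - ψ = (n * 0 - ψ) + n * (2 * π) := by ring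
    rw [e, sin_add_nat_mul_two_pi, cos_two_pi, sin_two_pi, cos_zero, sin_zero])]
  have hX := h.cont
  have e : ∀ a, X a * Kd n A B ψ a = -A * (X a * sin a) + B * (X a * cos a) + -1 * (X a * cos (n * a - ψ)) := fun a => by
    unfold Kd
    ring
  unfold QST.mn
  simp only [e]
  have i1 : IntervalIntegrable (fun a => -A * (X a * sin a)) volume 0 (2 * π) := by
    exact (Continuous.intervalIntegrable (by fun_prop) _ _)
  have i2 : IntervalIntegrable (fun a => B * (X a * cos a)) volume 0 (2 * π) := by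
    exact (Continuous.intervalIntegrable (by fun_prop) _ _)
  have i3 : IntervalIntegrable (fun a => -1 * (X a * cos (n * a - ψ))) volume 0 (2 * π) := by
    exact (Continuous.intervalIntegrable (by fun_prop) _ _)
  rw [intervalIntegral.integral_add (i1.add i2) i3, intervalIntegral.integral_add i1 i2,
    intervalIntegral.integral_const_mul, intervalIntegral.integral_const_mul, intervalIntegral.integral_const_mul,
    h.mc, h.ms]
  ring

theorem der_pi (h : St s X) (a : ℝ) : deriv X (a + π) = -deriv X a := by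
  have e : (fun a => X (a + π)) = fun a => -X a := funext h.anti
  rw [← deriv_comp_add_const, e]
  exact deriv.fun_neg

/-- mean over a half period -/
theorem half (h : St s X) (hn : Odd n) :
    (QST.mn fun a => Kf n A B ψ a * deriv X a) = (1 / π) * ∫ a in (0 : ℝ)..π, Kf n A B ψ a * deriv X a := by
  unfold QST.mn
  have i1 := h.int1 (cont_Kf (n := n) (A := A) (B := B) (ψ := ψ)) 0 π
  have i2 := h.int1 (cont_Kf (n := n) (A := A) (B := B) (ψ := ψ)) π (2 * π)
  rw [← intervalIntegral.integral_add_adjacent_intervals i1 i2]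
  have e : ∫ a in π..(2 * π), Kf n A B ψ a * deriv X a = ∫ a in (0 : ℝ)..π, Kf n A B ψ a * deriv X a := by
    have e1 := intervalIntegral.integral_comp_add_right (a := 0) (b := π) (fun a => Kf n A B ψ a * deriv X a) π
    rw [zero_add, show π + π = 2 * π by ring] at e1
    rw [← e1]
    refine intervalIntegral.integral_congr fun a _ => ?_
    simp only [Kf_pi hn, der_pi h]
    ring
  rw [e]
  have := pi_ne_zero
  field_simp
  ring

/-! ### cells -/

/-- bounds of the slopes -/
def Up (s : ℝ) (X : ℝ → ℝ) (a b U : ℝ) : Prop := ∀ᵐ t, t ∈ Icc a b → deriv X t ≤ s * U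

def Lo (s : ℝ) (X : ℝ → ℝ) (a b L : ℝ) : Prop := ∀ᵐ t, t ∈ Icc a b → -(s * L) ≤ deriv X t

theorem cell_pos (h : St s X) (hn : n ≠ 0) {a b U : ℝ} (hab : a ≤ b) (hK : ∀ t ∈ Icc a b, 0 ≤ Kf n A B ψ t)
    (hU : Up s X a b U) :
    ∫ t in a..b, Kf n A B ψ t * deriv X t ≤ s * (U * (Gf n A B ψ b - Gf n A B ψ a)) := by
  have e : s * (U * (Gf n A B ψ b - Gf n A B ψ a)) = ∫ t in a..b, s * U * Kf n A B ψ t := by
    rw [intervalIntegral.integral_const_mul, int_Kf hn]
    ring
  rw [e]
  refine intervalIntegral.integral_mono_ae_restrict hab (h.int1 cont_Kf a b)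
    ((cont_Kf.const_mul _).intervalIntegrable _ _) ?_
  rw [Filter.EventuallyLE, ae_restrict_iff' measurableSet_Icc]
  filter_upwards [hU] with t ht hI
  have := mul_le_mul_of_nonneg_left (ht hI) (hK t hI)
  linarith

theorem cell_neg (h : St s X) (hn : n ≠ 0) {a b L : ℝ} (hab : a ≤ b) (hK : ∀ t ∈ Icc a b, Kf n A B ψ t ≤ 0)
    (hL : Lo s X a b L) :
    ∫ t in a..b, Kf n A B ψ t * deriv X t ≤ s * (L * (Gf n A B ψ a - Gf n A B ψ b)) := by
  have e : s * (L * (Gf n A B ψ a - Gf n A B ψ b)) = ∫ t in a..b, -(s * L) * Kf n A B ψ t := by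
    rw [intervalIntegral.integral_const_mul, int_Kf hn]
    ring
  rw [e]
  refine intervalIntegral.integral_mono_ae_restrict hab (h.int1 cont_Kf a b)
    ((cont_Kf.const_mul _).intervalIntegrable _ _) ?_
  rw [Filter.EventuallyLE, ae_restrict_iff' measurableSet_Icc]
  filter_upwards [hL] with t ht hI
  have := mul_le_mul_of_nonneg_left (ht hI) (neg_nonneg.2 (hK t hI))
  linarith

theorem cell_mix (h : St s X) (hn : n ≠ 0) {a b U L w : ℝ} (hab : a ≤ b)
    (hw : ∫ t in a..b, |Kf n A B ψ t| ≤ w) (hU : Up s X a b U) (hL : Lo s X a b L) (hUL : 0 ≤ s * (U + L)) :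
    ∫ t in a..b, Kf n A B ψ t * deriv X t ≤
      s * ((U * (w + (Gf n A B ψ b - Gf n A B ψ a)) + L * (w - (Gf n A B ψ b - Gf n A B ψ a))) / 2) := by
  have i1 : IntervalIntegrable (fun t => s * (U + L) / 2 * |Kf n A B ψ t|) volume a b :=
    (cont_Kf.abs.const_mul _).intervalIntegrable _ _
  have i2 : IntervalIntegrable (fun t => s * (U - L) / 2 * Kf n A B ψ t) volume a b :=
    (cont_Kf.const_mul _).intervalIntegrable _ _
  have e : ∫ t in a..b, (s * (U + L) / 2 * |Kf n A B ψ t| + s * (U - L) / 2 * Kf n A B ψ t)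
      = s * (U + L) / 2 * (∫ t in a..b, |Kf n A B ψ t|) + s * (U - L) / 2 * (Gf n A B ψ b - Gf n A B ψ a) := by
    rw [intervalIntegral.integral_add i1 i2, intervalIntegral.integral_const_mul,
      intervalIntegral.integral_const_mul, int_Kf hn]
  have h1 : ∫ t in a..b, Kf n A B ψ t * deriv X t ≤
      ∫ t in a..b, (s * (U + L) / 2 * |Kf n A B ψ t| + s * (U - L) / 2 * Kf n A B ψ t) := by
    refine intervalIntegral.integral_mono_ae_restrict hab (h.int1 cont_Kf a b) (i1.add i2) ?_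
    rw [Filter.EventuallyLE, ae_restrict_iff' measurableSet_Icc]
    filter_upwards [hU, hL] with t ht hl hI
    rcases le_total 0 (Kf n A B ψ t) with hk | hk
    · rw [abs_of_nonneg hk]
      have := mul_le_mul_of_nonneg_left (ht hI) hk
      linarith
    · rw [abs_of_nonpos hk]
      have := mul_le_mul_of_nonneg_left (hl hI) (neg_nonneg.2 hk)
      linarith
  rw [e] at h1
  have h2 := mul_le_mul_of_nonneg_left hw (by linarith : 0 ≤ s * (U + L) / 2)
  linarith

/-- the sign of the potential from the values at the ends -/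
theorem sign_pos (hn : n ≠ 0) {a b : ℝ} (hK : (|A| + |B| + 1) * (b - a) ≤ Kf n A B ψ a + Kf n A B ψ b) :
    ∀ t ∈ Icc a b, 0 ≤ Kf n A B ψ t := by
  intro t ht
  have h1 := (abs_le.1 (Kf_lip (A := A) (B := B) (ψ := ψ) hn a t)).1
  have h2 := (abs_le.1 (Kf_lip (A := A) (B := B) (ψ := ψ) hn b t)).1
  rw [abs_of_nonneg (sub_nonneg.2 ht.1)] at h1
  rw [abs_of_nonpos (sub_nonpos.2 ht.2)] at h2
  have : 0 ≤ |A| + |B| + 1 := by positivity
  nlinarith

theorem sign_neg (hn : n ≠ 0) {a b : ℝ} (hK : Kf n A B ψ a + Kf n A B ψ b ≤ -((|A| + |B| + 1) * (b - a))) :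
    ∀ t ∈ Icc a b, Kf n A B ψ t ≤ 0 := by
  intro t ht
  have h1 := (abs_le.1 (Kf_lip (A := A) (B := B) (ψ := ψ) hn a t)).2
  have h2 := (abs_le.1 (Kf_lip (A := A) (B := B) (ψ := ψ) hn b t)).2
  rw [abs_of_nonneg (sub_nonneg.2 ht.1)] at h1
  rw [abs_of_nonpos (sub_nonpos.2 ht.2)] at h2
  have : 0 ≤ |A| + |B| + 1 := by positivity
  nlinarith

theorem abs_left (hn : n ≠ 0) {a b : ℝ} (hab : a ≤ b) :
    ∫ t in a..b, |Kf n A B ψ t| ≤ |Kf n A B ψ a| * (b - a) + (|A| + |B| + 1) * (b - a) ^ 2 / 2 := by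
  have h1 : ∫ t in a..b, |Kf n A B ψ t| ≤ ∫ t in a..b, (|Kf n A B ψ a| + (|A| + |B| + 1) * (t - a)) := by
    refine intervalIntegral.integral_mono_on hab (cont_Kf.abs.intervalIntegrable _ _)
      (Continuous.intervalIntegrable (by fun_prop) _ _) fun t ht => ?_
    have h2 := Kf_lip (A := A) (B := B) (ψ := ψ) hn a t
    rw [abs_of_nonneg (by linarith [ht.1] : (0 : ℝ) ≤ t - a)] at h2
    have h3 := abs_sub_abs_le_abs_sub (Kf n A B ψ t) (Kf n A B ψ a)
    linarith
  have h2 : ∫ t in a..b, (|Kf n A B ψ a| + (|A| + |B| + 1) * (t - a))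
      = |Kf n A B ψ a| * (b - a) + (|A| + |B| + 1) * (b - a) ^ 2 / 2 := by
    have hd : ∀ t ∈ uIcc a b, HasDerivAt (fun t => |Kf n A B ψ a| * t + (|A| + |B| + 1) * (t - a) ^ 2 / 2)
        (|Kf n A B ψ a| + (|A| + |B| + 1) * (t - a)) t := fun t _ => by
      have h3 := ((hasDerivAt_id t).sub_const a).pow 2
      have h4 := ((hasDerivAt_id t).const_mul (|Kf n A B ψ a|)).add ((h3.const_mul (|A| + |B| + 1)).div_const 2)
      refine h4.congr_deriv ?_
      simp
      ring
    rw [intervalIntegral.integral_eq_sub_of_hasDerivAt hd (Continuous.intervalIntegrable (by fun_prop) _ _)]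
    ring
  linarith

theorem abs_right (hn : n ≠ 0) {a b : ℝ} (hab : a ≤ b) :
    ∫ t in a..b, |Kf n A B ψ t| ≤ |Kf n A B ψ b| * (b - a) + (|A| + |B| + 1) * (b - a) ^ 2 / 2 := by
  have h1 : ∫ t in a..b, |Kf n A B ψ t| ≤ ∫ t in a..b, (|Kf n A B ψ b| + (|A| + |B| + 1) * (b - t)) := by
    refine intervalIntegral.integral_mono_on hab (cont_Kf.abs.intervalIntegrable _ _)
      (Continuous.intervalIntegrable (by fun_prop) _ _) fun t ht => ?_
    have h2 := Kf_lip (A := A) (B := B) (ψ := ψ) hn b t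
    rw [abs_of_nonpos (by linarith [ht.2] : t - b ≤ 0)] at h2
    have h3 := abs_sub_abs_le_abs_sub (Kf n A B ψ t) (Kf n A B ψ b)
    linarith
  have h2 : ∫ t in a..b, (|Kf n A B ψ b| + (|A| + |B| + 1) * (b - t))
      = |Kf n A B ψ b| * (b - a) + (|A| + |B| + 1) * (b - a) ^ 2 / 2 := by
    have hd : ∀ t ∈ uIcc a b, HasDerivAt (fun t => |Kf n A B ψ b| * t - (|A| + |B| + 1) * (b - t) ^ 2 / 2)
        (|Kf n A B ψ b| + (|A| + |B| + 1) * (b - t)) t := fun t _ => by
      have h3 := ((hasDerivAt_id t).const_sub b).pow 2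
      have h4 := ((hasDerivAt_id t).const_mul (|Kf n A B ψ b|)).sub ((h3.const_mul (|A| + |B| + 1)).div_const 2)
      refine h4.congr_deriv ?_
      simp
      ring
    rw [intervalIntegral.integral_eq_sub_of_hasDerivAt hd (Continuous.intervalIntegrable (by fun_prop) _ _)]
    ring
  linarith

/-! ### slopes -/

theorem up_of (h : St s X) (h0 : 0 ≤ s) {a b M U : ℝ} (hM : ∀ t ∈ Icc a b, sin t ≤ M) (hU : 1 ≤ (1 - s * M) * U)
    (hU0 : 0 ≤ U) : Up s X a b U := by
  unfold Up
  filter_upwards [h.up] with t ht hI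
  have h1 := hM t hI
  rcases le_or_gt (deriv X t) 0 with hd | hd
  · exact hd.trans (by positivity)
  have h2 : (1 - s * M) * deriv X t ≤ s := by
    refine le_trans ?_ ht
    exact mul_le_mul_of_nonneg_right (by nlinarith) hd.le
  have hp : 0 < 1 - s * M := by
    by_contra hc
    have := mul_nonneg (neg_nonneg.2 (not_lt.1 hc)) hU0
    linarith
  have h3 : (1 - s * M) * deriv X t ≤ (1 - s * M) * (s * U) := by
    calc (1 - s * M) * deriv X t ≤ s := h2
      _ ≤ s * ((1 - s * M) * U) := le_mul_of_one_le_right h0 hU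
      _ = _ := by ring
  exact le_of_mul_le_mul_left h3 hp

theorem lo_of (h : St s X) (h0 : 0 ≤ s) {a b m L : ℝ} (hm : ∀ t ∈ Icc a b, m ≤ sin t) (hL : 1 ≤ (1 + s * m) * L)
    (hL0 : 0 ≤ L) : Lo s X a b L := by
  unfold Lo
  filter_upwards [h.lo] with t ht hI
  have h1 := hm t hI
  rcases le_or_gt 0 (deriv X t) with hd | hd
  · exact le_trans (by
      have : 0 ≤ s * L := mul_nonneg h0 hL0
      linarith) hd
  have h2 : (1 + s * m) * -deriv X t ≤ s := by
    have : (1 + s * sin t) * -deriv X t ≤ s := by linarith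
    refine le_trans ?_ this
    exact mul_le_mul_of_nonneg_right (by nlinarith) (by linarith)
  have hp : 0 < 1 + s * m := by
    by_contra hc
    have := mul_nonneg (neg_nonneg.2 (not_lt.1 hc)) hL0
    linarith
  have h3 : (1 + s * m) * -deriv X t ≤ (1 + s * m) * (s * L) := by
    calc (1 + s * m) * -deriv X t ≤ s := h2
      _ ≤ s * ((1 + s * m) * L) := le_mul_of_one_le_right h0 hL
      _ = _ := by ring
  have := le_of_mul_le_mul_left h3 hp
  linarith

/-- convexity of `1 / x` -/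
theorem conv {x0 x1 u0 u1 l : ℝ} (h0 : 1 ≤ x0 * u0) (h1 : 1 ≤ x1 * u1) (p0 : 0 ≤ u0) (p1 : 0 ≤ u1)
    (l0 : 0 ≤ l) (l1 : l ≤ 1) :
    1 ≤ (l * x0 + (1 - l) * x1) * (l * u0 + (1 - l) * u1) := by
  have q0 : 0 < x0 := by
    by_contra hc
    have := mul_nonneg (neg_nonneg.2 (not_lt.1 hc)) p0
    linarith
  have q1 : 0 < x1 := by
    by_contra hc
    have := mul_nonneg (neg_nonneg.2 (not_lt.1 hc)) p1
    linarith
  have k : 2 ≤ x0 * u1 + x1 * u0 := by
    have e : (x0 * u1) * (x1 * u0) = (x0 * u0) * (x1 * u1) := by ring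
    have h2 : 1 ≤ (x0 * u1) * (x1 * u0) := by
      rw [e]
      nlinarith
    have a1 : 0 ≤ x0 * u1 := by positivity
    have a2 : 0 ≤ x1 * u0 := by positivity
    nlinarith [sq_nonneg (x0 * u1 - x1 * u0)]
  have e : (l * x0 + (1 - l) * x1) * (l * u0 + (1 - l) * u1)
      = l ^ 2 * (x0 * u0) + (1 - l) ^ 2 * (x1 * u1) + l * (1 - l) * (x0 * u1 + x1 * u0) := by ring
  rw [e]
  have a1 := mul_le_mul_of_nonneg_left h0 (sq_nonneg l)
  have a2 := mul_le_mul_of_nonneg_left h1 (sq_nonneg (1 - l))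
  have a3 := mul_le_mul_of_nonneg_left k (mul_nonneg l0 (sub_nonneg.2 l1))
  nlinarith

/-! ### reflection -/

theorem neg_st (h : St s X) : St s (fun a => X (-a)) := by
  obtain ⟨K, hK⟩ := h.lip
  have hd : ∀ a, deriv (fun a => X (-a)) a = -deriv X (-a) := fun a => deriv_comp_neg X a
  have q : Measure.QuasiMeasurePreserving (fun a : ℝ => -a) volume volume :=
    (Measure.measurePreserving_neg (volume : Measure ℝ)).quasiMeasurePreserving
  have per : ∀ a, X (a + 2 * π) = X a := h.per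
  have ci : ∀ (g : ℝ → ℝ), (∀ a, g (a + 2 * π) = g a) →
      ∫ a in (0 : ℝ)..(2 * π), g (-a) = ∫ a in (0 : ℝ)..(2 * π), g a := by
    intro g hg
    rw [intervalIntegral.integral_comp_neg]
    have hp : Function.Periodic g (2 * π) := hg
    have := hp.intervalIntegral_add_eq (-(2 * π)) 0
    rw [neg_add_cancel, zero_add] at this
    rw [neg_zero]
    exact this
  refine ⟨⟨K, ?_⟩, fun a => ?_, ?_, ?_, ?_, ?_⟩
  · refine LipschitzWith.of_dist_le_mul fun x y => ?_
    have := hK.dist_le_mul (-x) (-y)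
    rwa [dist_neg_neg] at this
  · have := h.anti (-(a + π))
    rw [show -(a + π) + π = -a by ring] at this
    show X (-(a + π)) = -X (-a)
    linarith
  · have := q.ae h.lo
    filter_upwards [this] with a ha
    rw [hd]
    rw [sin_neg] at ha
    linarith
  · have := q.ae h.up
    filter_upwards [this] with a ha
    rw [hd]
    rw [sin_neg] at ha
    linarith
  · have := ci (fun a => X a * cos a) fun a => by rw [per, cos_add_two_pi]
    simp only [cos_neg] at this
    rw [this]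
    exact h.mc
  · have := ci (fun a => X a * sin a) fun a => by rw [per, sin_add_two_pi]
    simp only [sin_neg, mul_neg] at this
    have e : ∫ a in (0 : ℝ)..(2 * π), -(X (-a) * sin a) = -∫ a in (0 : ℝ)..(2 * π), X (-a) * sin a :=
      intervalIntegral.integral_neg
    rw [e, h.ms] at this
    linarith

theorem neg_mn (h : St s X) (hn : Odd n) (ψ : ℝ) :
    (QST.mn fun a => X (-a) * cos (n * a - ψ)) = QST.mn fun a => X a * cos (n * a + ψ) := by
  unfold QST.mn
  congr 1
  have e : ∀ a : ℝ, X (-a) * cos (n * a - ψ) = (fun a => X a * cos (n * a + ψ)) (-a) := fun a => by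
    show _ = X (-a) * cos (n * -a + ψ)
    rw [← cos_neg ((n : ℝ) * -a + ψ)]
    congr 2
    ring
  simp only [e]
  rw [intervalIntegral.integral_comp_neg (fun a => X a * cos (n * a + ψ))]
  have hp : Function.Periodic (fun a => X a * cos (n * a + ψ)) (2 * π) := fun a => by
    show X (a + 2 * π) * cos (n * (a + 2 * π) + ψ) = X a * cos (n * a + ψ)
    rw [h.per, show (n : ℝ) * (a + 2 * π) + ψ = (n * a + ψ) + n * (2 * π) by ring, cos_add_nat_mul_two_pi]
  have := hp.intervalIntegral_add_eq (-(2 * π)) 0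
  rw [neg_add_cancel, zero_add] at this
  rw [neg_zero]
  exact this

/-! ### the moment and its directions -/

/-- the moment of frequency `n` -/
def mC (n : ℕ) (X : ℝ → ℝ) : ℂ := ⟨QST.mn fun a => X a * cos (n * a), QST.mn fun a => X a * sin (n * a)⟩

theorem dir_eq (hX : Continuous X) (n : ℕ) (ψ : ℝ) : (QST.mn fun a => X a * cos (n * a - ψ))
    = cos ψ * (mC n X).re + sin ψ * (mC n X).im := by
  have i1 : IntervalIntegrable (fun a => cos ψ * (X a * cos (n * a))) volume 0 (2 * π) :=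
    (Continuous.intervalIntegrable (by fun_prop) _ _)
  have i2 : IntervalIntegrable (fun a => sin ψ * (X a * sin (n * a))) volume 0 (2 * π) :=
    (Continuous.intervalIntegrable (by fun_prop) _ _)
  have e : ∀ a : ℝ, X a * cos (n * a - ψ) = cos ψ * (X a * cos (n * a)) + sin ψ * (X a * sin (n * a)) := fun a => by
    rw [cos_sub]
    ring
  unfold mC QST.mn
  simp only [e]
  rw [intervalIntegral.integral_add i1 i2, intervalIntegral.integral_const_mul, intervalIntegral.integral_const_mul]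
  ring

/-- a polygon around a disc -/
theorem poly_le {z : ℂ} {b : ℝ} {D : ℕ} (hD : 0 < D) (hz : 0 ≤ z.im)
    (H : ∀ j : ℕ, j ≤ D → cos (j * (π / D)) * z.re + sin (j * (π / D)) * z.im ≤ b) :
    ‖z‖ * cos (π / (2 * D)) ≤ b := by
  have hDr : (0 : ℝ) < D := by exact_mod_cast hD
  set φ := z.arg with hφ
  have h0 : 0 ≤ φ := Complex.arg_nonneg_iff.2 hz
  have h1 : φ ≤ π := Complex.arg_le_pi z
  set y : ℝ := φ * D / π + 1 / 2 with hy
  have hy0 : 0 ≤ y := by positivity
  set j := ⌊y⌋₊ with hj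
  have j1 : (j : ℝ) ≤ y := Nat.floor_le hy0
  have j2 : y < j + 1 := Nat.lt_floor_add_one y
  have hjD : j ≤ D := by
    have : y < D + 1 := by
      have : φ * D / π ≤ D := by
        rw [div_le_iff₀ pi_pos]
        nlinarith
      linarith
    have h3 : (j : ℝ) < D + 1 := lt_of_le_of_lt j1 this
    have : j < D + 1 := by exact_mod_cast h3
    omega
  have hd : |φ - j * (π / D)| ≤ π / (2 * D) := by
    have e1 : φ = (y - 1 / 2) * (π / D) := by
      rw [hy]
      field_simp
      ring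
    have e2 : φ - j * (π / D) = (y - 1 / 2 - j) * (π / D) := by
      rw [e1]
      ring
    have hp : 0 < π / D := by positivity
    rw [e2, abs_mul, abs_of_pos hp]
    have : |y - 1 / 2 - j| ≤ 1 / 2 := abs_le.2 ⟨by linarith, by linarith⟩
    calc |y - 1 / 2 - j| * (π / D) ≤ 1 / 2 * (π / D) := mul_le_mul_of_nonneg_right this hp.le
      _ = π / (2 * D) := by
        field_simp
  have hc : cos (π / (2 * D)) ≤ cos (φ - j * (π / D)) := by
    rw [← cos_abs (φ - j * (π / D))]
    refine cos_le_cos_of_nonneg_of_le_pi (abs_nonneg _) ?_ hd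
    have : (1 : ℝ) ≤ D := by exact_mod_cast hD
    rw [div_le_iff₀ (by positivity)]
    nlinarith [pi_pos]
  have hre : z.re = ‖z‖ * cos φ := (Complex.norm_mul_cos_arg z).symm
  have him : z.im = ‖z‖ * sin φ := (Complex.norm_mul_sin_arg z).symm
  have h4 := H j hjD
  rw [hre, him] at h4
  have e : cos (j * (π / D)) * (‖z‖ * cos φ) + sin (j * (π / D)) * (‖z‖ * sin φ) = ‖z‖ * cos (φ - j * (π / D)) := by
    rw [cos_sub]
    ring
  rw [e] at h4
  exact (mul_le_mul_of_nonneg_left hc (norm_nonneg z)).trans h4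

theorem mC_neg (h : St s X) (hn : Odd n) : mC n (fun a => X (-a)) = ⟨(mC n X).re, -(mC n X).im⟩ := by
  have h1 := neg_mn h hn 0
  have h2 := neg_mn h hn (π / 2)
  simp only [sub_zero, add_zero, cos_sub_pi_div_two, cos_add_pi_div_two] at h1 h2
  apply Complex.ext
  · exact h1
  · show (QST.mn fun a => X (-a) * sin (n * a)) = -(QST.mn fun a => X a * sin (n * a))
    rw [h2]
    unfold QST.mn
    rw [← mul_neg, ← intervalIntegral.integral_neg]
    congr 1
    refine intervalIntegral.integral_congr fun a _ => ?_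
    ring

end Pool.Agent.FPX.LF
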