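import Mathlib

/-
LFT (helper69): table of `2^40 sin (k π / 96)`, `k < 192`, error at most 404 units.
-/

open Real

noncomputable section

namespace Pool.Agent.FPX.LF

/-- the table, 44 bits per entry, shifted by `2^43` -/
def big : ℕ := 0x7f79fb8e1537ef41bd92e77e6e85943d67de95d5e1257d64c7b751b7ce0e8f872d7c5de547c927bdbe08f9b47b5afe744aa7adb624a8e17a5d2f0dc2a79e0875654579658d5042978ec62b1c1e787528b1fe478000000000778d08b9b63771c626328d76ae2bddd4e7642836035775d9866d7b7757351cd76475100184b0474afb0ccc0674527a0cd3d73f876d270c73a1bfca757734e6cba54772fe947990472b24ceb78b7269aaf92a77224c28bd3e71e3a6873fa71a668c4a71716d1a0dcdb7137ca1866c71068781c7270d95fcae3970b05f549cf708b915c5ba706afff8fad704eb4180457036b57b3e170230ab689d7013b92e1777008c514eab7002316bb47700000000007002316bb477008c514eab7013b92e17770230ab689d7036b57b3e1704eb418045706afff8fad708b915c5ba70b05f549cf70d95fcae3971068781c727137ca1866c716d1a0dcdb71a668c4a7171e3a6873fa7224c28bd3e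7269aaf92a772b24ceb78b72fe9479904734e6cba54773a1bfca75773f876d270c74527a0cd3d74afb0ccc0675100184b04757351cd76475d9866d7b77642836035776ae2bddd4e771c626328d778d08b9b6378000000000787528b1fe478ec62b1c1e79658d5042979e087565457a5d2f0dc2a7adb624a8e17b5afe744aa7bdbe08f9b47c5de547c927ce0e8f872d7d64c7b751b7de95d5e1257e6e85943d67ef41bd92e77f79fb8e1538000000000080860471ead810be426d1981917a6bc2a8216a2a1edb829b3848ae5831f17078d383a21ab836e84241f7064c84a5018bb5685249db571f85a2d0f23d6861f78a9abb869a72afbd787139d4e3e2878ad74e01c880000000008872f74649d88e39d9cd738951d4222b289bd7c9fca98a2679928498a8cae3289c8aeffe7b4fc8b504f333fa8bad85f32c38c07892d8f48c5e40358a98cb19345ab98d016b866fc8d4db3148758d965506d598ddb3d742c28e1c5978c068e59973b58f8e92e5f23258ec835e79948ef9787e38e8f26a0351c78f4fa0ab6318f746ea3a468f9500070538fb14be7fbb8fc94a84c1f8fdcf5497638fec46d1e898ff73aeb1558ffdce944b9900000000008ffdce944b98ff73aeb1558fec46d1e898fdcf5497638fc94a84c1f8fb14be7fbb8f9500070538f746ea3a468f4fa0ab6318f26a0351c78ef9787e38e8ec835e79948e92e5f23258e59973b58f8e1c5978c068ddb3d742c28d965506d598d4db3148758d016b866fc8cb19345ab98c5e40358a98c07892d8f48bad85f32c38b504f333fa8aeffe7b4fc8a8cae3289c8a26799284989bd7c9fca98951d4222b288e39d9cd738872f74649d88000000000878ad74e01c87139d4e3e2869a72afbd7861f78a9abb85a2d0f23d685249db571f84a5018bb5684241f7064c83a21ab836e831f17078d3829b3848ae58216a2a1edb81917a6bc2a810be426d1980860471ead80000000000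

/-- `2^40 sin (k π / 96)` -/
def sn (k : ℕ) : ℤ := Int.subNatNat (Nat.mod (Nat.shiftRight big (Nat.mul 44 (Nat.mod k 192))) 17592186044416)
  8796093022208

/-- `2^40 cos (k π / 96)` -/
def cn (k : ℕ) : ℤ := sn (Nat.add k 48)

def wc : ℤ := 1152304215994513106

def ws : ℤ := 37722534196238190

/-- the recurrence -/
def okT (k : ℕ) : Bool :=
  decide (|cn (k + 1) * 1152921504606846976 - (cn k * wc - sn k * ws)| ≤ 1152921504606846976) &&
  decide (|sn (k + 1) * 1152921504606846976 - (sn k * wc + cn k * ws)| ≤ 1152921504606846976) &&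
  decide (|cn k| ≤ 1099511627776) && decide (|sn k| ≤ 1099511627776)

theorem okT_all : (List.range 192).all okT = true := by decide +kernel

theorem cn0 : cn 0 = 1099511627776 := by decide +kernel

theorem sn0 : sn 0 = 0 := by decide +kernel

theorem sn_mod (k : ℕ) : sn (k % 192) = sn k := by
  have e : Nat.mod (k % 192) 192 = Nat.mod k 192 := Nat.mod_mod k 192
  unfold sn
  rw [e]

theorem cn_mod (k : ℕ) : cn (k % 192) = cn k := by
  show sn (k % 192 + 48) = sn (k + 48)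
  rw [← sn_mod (k % 192 + 48), ← sn_mod (k + 48), Nat.mod_add_mod]

/-! ### the first angle -/

/-- rational approximation of `π / 96` -/
def pq : ℚ := 32724923474893679567 / 1000000000000000000000

theorem pq_le : |π / 96 - (pq : ℝ)| ≤ 1 / 10 ^ 18 := by
  have h1 := Real.pi_gt_d20
  have h2 := Real.pi_lt_d20
  unfold pq
  push_cast
  rw [abs_le]
  constructor <;> linarith

theorem ser : ∑ m ∈ Finset.range 8, ((pq : ℝ) * Complex.I : ℂ) ^ m / (m.factorial : ℂ)
    = ((1 - (pq : ℝ) ^ 2 / 2 + (pq : ℝ) ^ 4 / 24 - (pq : ℝ) ^ 6 / 720 : ℝ) : ℂ)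
      + ((((pq : ℝ) - (pq : ℝ) ^ 3 / 6 + (pq : ℝ) ^ 5 / 120 - (pq : ℝ) ^ 7 / 5040 : ℝ)) : ℂ) * Complex.I := by
  have i2 : Complex.I ^ 2 = -1 := Complex.I_sq
  have i3 : Complex.I ^ 3 = -Complex.I := by rw [pow_succ, i2]; ring
  have i4 : Complex.I ^ 4 = 1 := by rw [show (4 : ℕ) = 2 * 2 by norm_num, pow_mul, i2]; norm_num
  have i5 : Complex.I ^ 5 = Complex.I := by rw [pow_succ, i4]; ring
  have i6 : Complex.I ^ 6 = -1 := by rw [show (6 : ℕ) = 2 * 3 by norm_num, pow_mul, i2]; norm_num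
  have i7 : Complex.I ^ 7 = -Complex.I := by rw [pow_succ, i6]; ring
  simp only [Finset.sum_range_succ, Finset.sum_range_zero, mul_pow, i2, i3, i4, i5, i6, i7, pow_zero, pow_one,
    Nat.factorial]
  push_cast
  ring

theorem base : ‖(((wc : ℝ) / 1152921504606846976 : ℝ) : ℂ) + (((ws : ℝ) / 1152921504606846976 : ℝ) : ℂ) * Complex.I
    - Complex.exp (((π / 96 : ℝ) : ℂ) * Complex.I)‖ ≤ 1 / 10 ^ 14 := by
  have hp : ‖((pq : ℝ) : ℂ) * Complex.I‖ = (pq : ℝ) := by
    rw [norm_mul, Complex.norm_I, mul_one, Complex.norm_real, Real.norm_eq_abs, abs_of_nonneg]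
    unfold pq
    push_cast
    norm_num
  have h1 := Complex.exp_bound (x := ((pq : ℝ) : ℂ) * Complex.I) (by
    rw [hp]
    unfold pq
    push_cast
    norm_num) (n := 8) (by norm_num)
  rw [ser, hp] at h1
  have h2 : (pq : ℝ) ^ 8 * ((Nat.succ 8 : ℝ) * ((Nat.factorial 8 : ℝ) * (8 : ℕ))⁻¹) ≤ 1 / 10 ^ 16 := by
    unfold pq
    simp only [Nat.factorial]
    push_cast
    norm_num
  have h3 : ‖Complex.exp (((π / 96 : ℝ) : ℂ) * Complex.I) - Complex.exp (((pq : ℝ) : ℂ) * Complex.I)‖ ≤ 2 / 10 ^ 18 := by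
    have e : ∀ x : ℝ, Complex.exp ((x : ℂ) * Complex.I) = ((cos x : ℝ) : ℂ) + ((sin x : ℝ) : ℂ) * Complex.I := fun x => by
      rw [Complex.exp_mul_I, ← Complex.ofReal_cos, ← Complex.ofReal_sin]
    rw [e, e]
    have e2 : ((cos (π / 96) : ℝ) : ℂ) + ((sin (π / 96) : ℝ) : ℂ) * Complex.I
        - (((cos (pq : ℝ) : ℝ) : ℂ) + ((sin (pq : ℝ) : ℝ) : ℂ) * Complex.I)
        = ((cos (π / 96) - cos (pq : ℝ) : ℝ) : ℂ) + ((sin (π / 96) - sin (pq : ℝ) : ℝ) : ℂ) * Complex.I := by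
      push_cast
      ring
    rw [e2]
    refine (norm_add_le _ _).trans ?_
    rw [norm_mul, Complex.norm_I, mul_one, Complex.norm_real, Complex.norm_real]
    have c1 : ‖cos (π / 96) - cos (pq : ℝ)‖ ≤ |π / 96 - (pq : ℝ)| := by
      have := Real.lipschitzWith_cos.dist_le_mul (π / 96) (pq : ℝ)
      rw [Real.dist_eq, Real.dist_eq] at this
      simpa using this
    have c2 : ‖sin (π / 96) - sin (pq : ℝ)‖ ≤ |π / 96 - (pq : ℝ)| := by
      have := Real.lipschitzWith_sin.dist_le_mul (π / 96) (pq : ℝ)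
      rw [Real.dist_eq, Real.dist_eq] at this
      simpa using this
    have := pq_le
    linarith
  set c : ℝ := 1 - (pq : ℝ) ^ 2 / 2 + (pq : ℝ) ^ 4 / 24 - (pq : ℝ) ^ 6 / 720 with hc
  set d : ℝ := (pq : ℝ) - (pq : ℝ) ^ 3 / 6 + (pq : ℝ) ^ 5 / 120 - (pq : ℝ) ^ 7 / 5040 with hd
  have h4 : ‖(((wc : ℝ) / 1152921504606846976 : ℝ) : ℂ) + (((ws : ℝ) / 1152921504606846976 : ℝ) : ℂ) * Complex.I
      - ((c : ℂ) + (d : ℂ) * Complex.I)‖ ≤ 1 / 10 ^ 15 := by
    have e2 : (((wc : ℝ) / 1152921504606846976 : ℝ) : ℂ) + (((ws : ℝ) / 1152921504606846976 : ℝ) : ℂ) * Complex.I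
        - ((c : ℂ) + (d : ℂ) * Complex.I)
        = (((wc : ℝ) / 1152921504606846976 - c : ℝ) : ℂ) + (((ws : ℝ) / 1152921504606846976 - d : ℝ) : ℂ) * Complex.I := by
      push_cast
      ring
    rw [e2]
    refine (norm_add_le _ _).trans ?_
    rw [norm_mul, Complex.norm_I, mul_one, Complex.norm_real, Complex.norm_real]
    have c1 : ‖(wc : ℝ) / 1152921504606846976 - c‖ ≤ 1 / (2 * 10 ^ 15) := by
      rw [Real.norm_eq_abs, hc, abs_le]
      unfold wc pq
      push_cast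
      constructor <;> norm_num
    have c2 : ‖(ws : ℝ) / 1152921504606846976 - d‖ ≤ 1 / (2 * 10 ^ 15) := by
      rw [Real.norm_eq_abs, hd, abs_le]
      unfold ws pq
      push_cast
      constructor <;> norm_num
    linarith
  set W : ℂ := (((wc : ℝ) / 1152921504606846976 : ℝ) : ℂ) + (((ws : ℝ) / 1152921504606846976 : ℝ) : ℂ) * Complex.I
  set P : ℂ := (c : ℂ) + (d : ℂ) * Complex.I
  have h5 : ‖Complex.exp (((pq : ℝ) : ℂ) * Complex.I) - P‖ ≤ 1 / 10 ^ 16 := h1.trans h2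
  have e : W - Complex.exp (((π / 96 : ℝ) : ℂ) * Complex.I)
      = (W - P) - (Complex.exp (((pq : ℝ) : ℂ) * Complex.I) - P)
        - (Complex.exp (((π / 96 : ℝ) : ℂ) * Complex.I) - Complex.exp (((pq : ℝ) : ℂ) * Complex.I)) := by ring
  rw [e]
  refine (norm_sub_le _ _).trans ?_
  have := norm_sub_le (W - P) (Complex.exp (((pq : ℝ) : ℂ) * Complex.I) - P)
  have n1 : (1 : ℝ) / 10 ^ 15 + 1 / 10 ^ 16 + 2 / 10 ^ 18 ≤ 1 / 10 ^ 14 := by norm_num
  linarith

/-! ### all angles -/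

/-- the table as complex numbers -/
def Zt (k : ℕ) : ℂ := ((cn k : ℤ) : ℂ) + ((sn k : ℤ) : ℂ) * Complex.I

theorem nrm_le (x y : ℝ) : ‖(x : ℂ) + (y : ℂ) * Complex.I‖ ≤ |x| + |y| := by
  refine (norm_add_le _ _).trans ?_
  rw [norm_mul, Complex.norm_I, mul_one, Complex.norm_real, Complex.norm_real]
  rfl

theorem Zt_le : ∀ k : ℕ, k ≤ 192 →
    ‖Zt k - 1099511627776 * Complex.exp (((k * (π / 96) : ℝ) : ℂ) * Complex.I)‖ ≤ 21 / 10 * k
  | 0, _ => by
    unfold Zt
    rw [cn0, sn0]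
    simp
  | k + 1, hk => by
    have ih := Zt_le k (by omega)
    have hb := List.all_eq_true.1 okT_all k (List.mem_range.2 (by omega))
    unfold okT at hb
    simp only [Bool.and_eq_true, decide_eq_true_eq] at hb
    obtain ⟨⟨⟨r1, r2⟩, b1⟩, b2⟩ := hb
    have r1' : |(cn (k + 1) : ℝ) * 1152921504606846976 - ((cn k : ℝ) * wc - sn k * ws)| ≤ 1152921504606846976 := by
      exact_mod_cast r1
    have r2' : |(sn (k + 1) : ℝ) * 1152921504606846976 - ((sn k : ℝ) * wc + cn k * ws)| ≤ 1152921504606846976 := by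
      exact_mod_cast r2
    have b1' : |(cn k : ℝ)| ≤ 1099511627776 := by exact_mod_cast b1
    have b2' : |(sn k : ℝ)| ≤ 1099511627776 := by exact_mod_cast b2
    set W : ℂ := (((wc : ℝ) / 1152921504606846976 : ℝ) : ℂ) + (((ws : ℝ) / 1152921504606846976 : ℝ) : ℂ) * Complex.I with hW
    set z : ℂ := Complex.exp (((π / 96 : ℝ) : ℂ) * Complex.I) with hz
    have hz1 : ‖z‖ = 1 := Complex.norm_exp_ofReal_mul_I _
    have e1 : Complex.exp ((((k + 1 : ℕ) * (π / 96) : ℝ) : ℂ) * Complex.I)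
        = Complex.exp (((k * (π / 96) : ℝ) : ℂ) * Complex.I) * z := by
      rw [hz, ← Complex.exp_add]
      congr 1
      push_cast
      ring
    set E : ℂ := Complex.exp (((k * (π / 96) : ℝ) : ℂ) * Complex.I) with hE
    have e2 : Zt (k + 1) - Zt k * W
        = (((cn (k + 1) : ℝ) - ((cn k : ℝ) * wc - sn k * ws) / 1152921504606846976 : ℝ) : ℂ)
          + (((sn (k + 1) : ℝ) - ((sn k : ℝ) * wc + cn k * ws) / 1152921504606846976 : ℝ) : ℂ) * Complex.I := by
      unfold Zt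
      rw [hW]
      push_cast
      linear_combination (-((sn k : ℂ) * (ws : ℂ) / 1152921504606846976)) * Complex.I_sq
    have n1 : ‖Zt (k + 1) - Zt k * W‖ ≤ 2 := by
      rw [e2]
      refine (nrm_le _ _).trans ?_
      have a1 : |(cn (k + 1) : ℝ) - ((cn k : ℝ) * wc - sn k * ws) / 1152921504606846976| ≤ 1 := by
        rw [abs_le] at r1' ⊢
        constructor <;> linarith
      have a2 : |(sn (k + 1) : ℝ) - ((sn k : ℝ) * wc + cn k * ws) / 1152921504606846976| ≤ 1 := by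
        rw [abs_le] at r2' ⊢
        constructor <;> linarith
      linarith
    have n2 : ‖Zt k‖ ≤ 2199023255552 := by
      have h := nrm_le (cn k : ℝ) (sn k : ℝ)
      have e3 : Zt k = ((cn k : ℝ) : ℂ) + ((sn k : ℝ) : ℂ) * Complex.I := by
        unfold Zt
        push_cast
        ring
      rw [e3]
      linarith
    have n3 : ‖Zt k * (W - z)‖ ≤ 3 / 100 := by
      rw [norm_mul]
      have hb := base
      rw [← hW, ← hz] at hb
      calc ‖Zt k‖ * ‖W - z‖ ≤ 2199023255552 * (1 / 10 ^ 14) :=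
            mul_le_mul n2 hb (norm_nonneg _) (by norm_num)
        _ ≤ 3 / 100 := by norm_num
    have n4 : ‖(Zt k - 1099511627776 * E) * z‖ ≤ 21 / 10 * k := by
      rw [norm_mul, hz1, mul_one]
      exact ih
    have e4 : Zt (k + 1) - 1099511627776 * (E * z)
        = (Zt (k + 1) - Zt k * W) + Zt k * (W - z) + (Zt k - 1099511627776 * E) * z := by ring
    rw [e1, e4]
    refine (norm_add_le _ _).trans ?_
    have := norm_add_le (Zt (k + 1) - Zt k * W) (Zt k * (W - z))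
    push_cast
    linarith

theorem Zt_all (k : ℕ) : ‖Zt k - 1099511627776 * Complex.exp (((k * (π / 96) : ℝ) : ℂ) * Complex.I)‖ ≤ 404 := by
  have h1 := Zt_le (k % 192) (Nat.mod_lt _ (by norm_num)).le
  have e1 : Zt (k % 192) = Zt k := by
    unfold Zt
    rw [cn_mod, sn_mod]
  have e2 : Complex.exp ((((k % 192 : ℕ) * (π / 96) : ℝ) : ℂ) * Complex.I)
      = Complex.exp (((k * (π / 96) : ℝ) : ℂ) * Complex.I) := by
    have h2 : (k : ℝ) = 192 * ((k / 192 : ℕ) : ℝ) + ((k % 192 : ℕ) : ℝ) := by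
      exact_mod_cast (Nat.div_add_mod k 192).symm
    have e3 : (((k * (π / 96) : ℝ) : ℂ) * Complex.I)
        = ((((k % 192 : ℕ) * (π / 96) : ℝ) : ℂ) * Complex.I) + ((k / 192 : ℕ) : ℂ) * (2 * π * Complex.I) := by
      rw [h2]
      push_cast
      ring
    rw [e3, Complex.exp_add, Complex.exp_nat_mul_two_pi_mul_I, mul_one]
  rw [e1, e2] at h1
  have h3 : ((k % 192 : ℕ) : ℝ) ≤ 192 := by
    have := (Nat.mod_lt k (by norm_num : 192 > 0)).le
    exact_mod_cast this
  linarith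

theorem cn_le (k : ℕ) : |(cn k : ℝ) - 1099511627776 * cos (k * (π / 96))| ≤ 404 := by
  have h := (Complex.abs_re_le_norm _).trans (Zt_all k)
  have e : (Zt k - 1099511627776 * Complex.exp (((k * (π / 96) : ℝ) : ℂ) * Complex.I)).re
      = (cn k : ℝ) - 1099511627776 * cos (k * (π / 96)) := by
    have e1 : (1099511627776 : ℂ) = ((1099511627776 : ℝ) : ℂ) := by norm_num
    rw [e1, Complex.sub_re, Complex.re_ofReal_mul, Complex.exp_ofReal_mul_I_re]
    unfold Zt
    simp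
  rwa [e] at h

theorem sn_le (k : ℕ) : |(sn k : ℝ) - 1099511627776 * sin (k * (π / 96))| ≤ 404 := by
  have h := (Complex.abs_im_le_norm _).trans (Zt_all k)
  have e : (Zt k - 1099511627776 * Complex.exp (((k * (π / 96) : ℝ) : ℂ) * Complex.I)).im
      = (sn k : ℝ) - 1099511627776 * sin (k * (π / 96)) := by
    have e1 : (1099511627776 : ℂ) = ((1099511627776 : ℝ) : ℂ) := by norm_num
    rw [e1, Complex.sub_im, Complex.im_ofReal_mul, Complex.exp_ofReal_mul_I_im]
    unfold Zt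
    simp
  rwa [e] at h

end Pool.Agent.FPX.LF
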