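import Mathlib
import Pool.Agent.FPX.LFB
import Pool.Agent.FPX.LFT

/-
LFC (helper69): integer checker for the bounds of linear functionals of the class `St s`: 96 cells of `[0, π]`,
`s` in an interval, potential with rational coefficients, direction `J π / 96`.
-/

open MeasureTheory Set Filter Topology Real
open scoped NNReal

namespace Pool.Agent.FPX.LF

open Pool.Agent.FPX.ALX (St)

/-- bounds of the slopes of a cell over `2^20` at the two ends of the class (`0` = none) -/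
structure Row where
  u0 : ℕ
  u1 : ℕ
  l0 : ℕ
  l1 : ℕ

/-- upper slope -/
def okU (p : ℕ) (M : ℤ) (u : ℕ) : Bool :=
  decide (u = 0) || decide (1048576 * (1000 * 1099511627776) ≤ (u : ℤ) * (1000 * 1099511627776 - p * (M + 404)))

/-- lower slope -/
def okL (p : ℕ) (m : ℤ) (l : ℕ) : Bool :=
  decide (1048576 * (1000 * 1099511627776) ≤ (l : ℤ) * (1000 * 1099511627776 + p * (m - 404)))

/-- all slopes from the cell `i` on -/
def okR (p0 p1 : ℕ) : List Row → ℕ → Bool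
  | [], _ => true
  | r :: rs, i => okU p0 (max (sn i) (sn (i + 1))) r.u0 && okU p1 (max (sn i) (sn (i + 1))) r.u1 &&
      okL p0 (min (sn i) (sn (i + 1))) r.l0 && okL p1 (min (sn i) (sn (i + 1))) r.l1 && okR p0 p1 rs (i + 1)

/-- a direction: coefficients over `n^2 m`, index of the angle -/
structure Dr where
  n : ℕ
  m : ℕ
  a : ℤ
  b : ℤ
  J : ℕ

namespace Dr

variable (d : Dr)

/-- values of the potential -/
def kv (i : ℕ) : ℤ := Int.sub (Int.add (Int.mul d.a (cn i)) (Int.mul d.b (sn i)))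
  (Int.mul (Int.ofNat (Nat.mul d.n d.m)) (sn (Nat.add (Nat.mul d.n i) (Nat.sub 192 d.J))))

theorem kv_eq (i : ℕ) : d.kv i = d.a * cn i + d.b * sn i - ((d.n * d.m : ℕ) : ℤ) * sn (d.n * i + (192 - d.J)) := rfl

/-- values of the primitive -/
def gv (i : ℕ) : ℤ := Int.add (Int.sub (Int.mul d.a (sn i)) (Int.mul d.b (cn i)))
  (Int.mul (Int.ofNat d.m) (cn (Nat.add (Nat.mul d.n i) (Nat.sub 192 d.J))))

theorem gv_eq (i : ℕ) : d.gv i = d.a * sn i - d.b * cn i + (d.m : ℤ) * cn (d.n * i + (192 - d.J)) := rfl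

/-- the scale -/
def P : ℤ := ((d.n * d.n * d.m * 1099511627776 : ℕ) : ℤ)

/-- the error -/
def er : ℤ := 404 * (|d.a| + |d.b| + ((d.n * d.m : ℕ) : ℤ))

/-- the Lipschitz constant times the step -/
def hh : ℤ := (|d.a| + |d.b| + ((d.n * d.n * d.m : ℕ) : ℤ)) * 1099511627776 * 355 / 10848 + 1

/-- one direction, cells from `i` on; `E = 2 er`, `H = hh + 2 er` -/
def run (E H : ℤ) : List Row → ℕ → ℤ → ℤ → ℤ → ℤ → ℤ → Bool
  | [], _, _, _, t0, t1, R => decide (t0 ≤ R) && decide (t1 ≤ R)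
  | r :: rs, i, kp, gp, t0, t1, R =>
    if H ≤ kp + d.kv (i + 1) then
      decide (0 < r.u0) && decide (0 < r.u1) &&
      run E H rs (i + 1) (d.kv (i + 1)) (d.gv (i + 1)) (t0 + 2 * r.u0 * (d.gv (i + 1) - gp + E))
        (t1 + 2 * r.u1 * (d.gv (i + 1) - gp + E)) R
    else if kp + d.kv (i + 1) ≤ -H then
      run E H rs (i + 1) (d.kv (i + 1)) (d.gv (i + 1)) (t0 + 2 * r.l0 * (gp - d.gv (i + 1) + E))
        (t1 + 2 * r.l1 * (gp - d.gv (i + 1) + E)) R
    else
      decide (0 < r.u0) && decide (0 < r.u1) &&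
      run E H rs (i + 1) (d.kv (i + 1)) (d.gv (i + 1))
        (t0 + (r.u0 * ((2 * min |kp| |d.kv (i + 1)| + H) * 355 / 21696 + 1 + (d.gv (i + 1) - gp) + E)
          + r.l0 * ((2 * min |kp| |d.kv (i + 1)| + H) * 355 / 21696 + 1 - (d.gv (i + 1) - gp) + E)))
        (t1 + (r.u1 * ((2 * min |kp| |d.kv (i + 1)| + H) * 355 / 21696 + 1 + (d.gv (i + 1) - gp) + E)
          + r.l1 * ((2 * min |kp| |d.kv (i + 1)| + H) * 355 / 21696 + 1 - (d.gv (i + 1) - gp) + E))) R

/-- **the check of a direction**: value at most `kn / kd` -/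
def chk (l : List Row) (kn kd : ℕ) : Bool :=
  decide (l.length = 96) && decide (0 < d.n) && decide (d.n % 2 = 1) && decide (0 < d.m) && decide (d.J ≤ 192) &&
  decide (0 < kd) &&
  d.run (2 * d.er) (d.hh + 2 * d.er) l 0 (d.kv 0) (d.gv 0) 0 0
    (kn * 2097152 * d.P * 314159265 / (100000000 * kd))

end Dr

/-! ### soundness: slopes -/

/-- the nodes -/
noncomputable def th (i : ℕ) : ℝ := i * (π / 96)

theorem th_le (i : ℕ) : th i ≤ th (i + 1) := by
  unfold th
  push_cast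
  nlinarith [pi_pos]

theorem th_sub (i : ℕ) : th (i + 1) - th i = π / 96 := by
  unfold th
  push_cast
  ring

theorem sin_bd {i : ℕ} (hi : i < 96) {t : ℝ} (ht : t ∈ Icc (th i) (th (i + 1))) :
    min (sin (th i)) (sin (th (i + 1))) ≤ sin t ∧ sin t ≤ max (sin (th i)) (sin (th (i + 1))) := by
  have hp := pi_pos
  have t0 : 0 ≤ th i := by
    unfold th
    positivity
  rcases le_or_gt (i + 1) 48 with h | h
  · have h2 : th (i + 1) ≤ π / 2 := by
      unfold th
      have : ((i + 1 : ℕ) : ℝ) ≤ 48 := by exact_mod_cast h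
      nlinarith
    have a1 := sin_le_sin_of_le_of_le_pi_div_two (by linarith) (ht.2.trans h2) ht.1
    have a2 := sin_le_sin_of_le_of_le_pi_div_two (by linarith [ht.1]) h2 ht.2
    exact ⟨(min_le_left _ _).trans a1, a2.trans (le_max_right _ _)⟩
  · have h2 : π / 2 ≤ th i := by
      unfold th
      have : (48 : ℝ) ≤ i := by exact_mod_cast (by omega : 48 ≤ i)
      nlinarith
    have h3 : th (i + 1) ≤ π := by
      unfold th
      have : ((i + 1 : ℕ) : ℝ) ≤ 96 := by exact_mod_cast (by omega : i + 1 ≤ 96)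
      nlinarith
    have a1 := sin_le_sin_of_le_of_le_pi_div_two (x := π - t) (y := π - th i) (by linarith [ht.2]) (by linarith)
      (by linarith [ht.1])
    have a2 := sin_le_sin_of_le_of_le_pi_div_two (x := π - th (i + 1)) (y := π - t) (by linarith)
      (by linarith [ht.1]) (by linarith [ht.2])
    rw [sin_pi_sub, sin_pi_sub] at a1 a2
    exact ⟨(min_le_right _ _).trans a2, a1.trans (le_max_left _ _)⟩

theorem sin_hi {i : ℕ} (hi : i < 96) {t : ℝ} (ht : t ∈ Icc (th i) (th (i + 1))) :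
    sin t ≤ (((max (sn i) (sn (i + 1)) : ℤ) : ℝ) + 404) / 1099511627776 := by
  refine (sin_bd hi ht).2.trans (max_le ?_ ?_)
  · rw [le_div_iff₀ (by norm_num)]
    have h := (abs_le.1 (sn_le i)).1
    have h2 : ((sn i : ℤ) : ℝ) ≤ ((max (sn i) (sn (i + 1)) : ℤ) : ℝ) := by exact_mod_cast le_max_left _ _
    unfold th
    linarith
  · rw [le_div_iff₀ (by norm_num)]
    have h := (abs_le.1 (sn_le (i + 1))).1
    have h2 : ((sn (i + 1) : ℤ) : ℝ) ≤ ((max (sn i) (sn (i + 1)) : ℤ) : ℝ) := by exact_mod_cast le_max_right _ _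
    unfold th
    linarith

theorem sin_lw {i : ℕ} (hi : i < 96) {t : ℝ} (ht : t ∈ Icc (th i) (th (i + 1))) :
    (((min (sn i) (sn (i + 1)) : ℤ) : ℝ) - 404) / 1099511627776 ≤ sin t := by
  refine le_trans (le_min ?_ ?_) (sin_bd hi ht).1
  · rw [div_le_iff₀ (by norm_num)]
    have h := (abs_le.1 (sn_le i)).2
    have h2 : ((min (sn i) (sn (i + 1)) : ℤ) : ℝ) ≤ ((sn i : ℤ) : ℝ) := by exact_mod_cast min_le_left _ _
    unfold th
    linarith
  · rw [div_le_iff₀ (by norm_num)]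
    have h := (abs_le.1 (sn_le (i + 1))).2
    have h2 : ((min (sn i) (sn (i + 1)) : ℤ) : ℝ) ≤ ((sn (i + 1) : ℤ) : ℝ) := by exact_mod_cast min_le_right _ _
    unfold th
    linarith

theorem okU_of {p : ℕ} {M : ℤ} {u : ℕ} (h : okU p M u = true) (hu : 0 < u) :
    1 ≤ (1 - (p : ℝ) / 1000 * (((M : ℝ) + 404) / 1099511627776)) * ((u : ℝ) / 1048576) := by
  unfold okU at h
  simp only [Bool.or_eq_true, decide_eq_true_eq] at h
  rcases h with h | h
  · omega
  have h2 : (1048576 * (1000 * 1099511627776) : ℝ) ≤ (u : ℝ) * (1000 * 1099511627776 - p * ((M : ℝ) + 404)) := by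
    exact_mod_cast h
  have e : (1 - (p : ℝ) / 1000 * (((M : ℝ) + 404) / 1099511627776)) * ((u : ℝ) / 1048576)
      = (u : ℝ) * (1000 * 1099511627776 - p * ((M : ℝ) + 404)) / (1048576 * (1000 * 1099511627776)) := by
    field_simp
  rw [e, le_div_iff₀ (by norm_num)]
  linarith

theorem okL_of {p : ℕ} {m : ℤ} {l : ℕ} (h : okL p m l = true) :
    1 ≤ (1 + (p : ℝ) / 1000 * (((m : ℝ) - 404) / 1099511627776)) * ((l : ℝ) / 1048576) := by
  unfold okL at h
  simp only [decide_eq_true_eq] at h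
  have h2 : (1048576 * (1000 * 1099511627776) : ℝ) ≤ (l : ℝ) * (1000 * 1099511627776 + p * ((m : ℝ) - 404)) := by
    exact_mod_cast h
  have e : (1 + (p : ℝ) / 1000 * (((m : ℝ) - 404) / 1099511627776)) * ((l : ℝ) / 1048576)
      = (l : ℝ) * (1000 * 1099511627776 + p * ((m : ℝ) - 404)) / (1048576 * (1000 * 1099511627776)) := by
    field_simp
  rw [e, le_div_iff₀ (by norm_num)]
  linarith

section slope

variable {s : ℝ} {X : ℝ → ℝ} (hX : St s X) (h0 : 0 ≤ s) {p0 p1 : ℕ} {l : ℝ} (l0 : 0 ≤ l) (l1 : l ≤ 1)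
  (hs : s = l * ((p0 : ℝ) / 1000) + (1 - l) * ((p1 : ℝ) / 1000))

include hX h0 l0 l1 hs

theorem up_cell {i : ℕ} (hi : i < 96) {u0 u1 : ℕ} (k0 : okU p0 (max (sn i) (sn (i + 1))) u0 = true)
    (k1 : okU p1 (max (sn i) (sn (i + 1))) u1 = true) (q0 : 0 < u0) (q1 : 0 < u1) :
    Up s X (th i) (th (i + 1)) (l * ((u0 : ℝ) / 1048576) + (1 - l) * ((u1 : ℝ) / 1048576)) := by
  have a0 := okU_of k0 q0
  have a1 := okU_of k1 q1
  set M : ℝ := (((max (sn i) (sn (i + 1)) : ℤ) : ℝ) + 404) / 1099511627776 with hM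
  have c := conv a0 a1 (by positivity) (by positivity) l0 l1
  refine up_of hX h0 (M := M) (fun t ht => sin_hi hi ht) (c.trans (le_of_eq ?_)) ?_
  · rw [hs]
    ring
  · have : 0 ≤ 1 - l := by linarith
    positivity

theorem lo_cell {i : ℕ} (hi : i < 96) {v0 v1 : ℕ} (k0 : okL p0 (min (sn i) (sn (i + 1))) v0 = true)
    (k1 : okL p1 (min (sn i) (sn (i + 1))) v1 = true) :
    Lo s X (th i) (th (i + 1)) (l * ((v0 : ℝ) / 1048576) + (1 - l) * ((v1 : ℝ) / 1048576)) := by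
  have a0 := okL_of k0
  have a1 := okL_of k1
  set m : ℝ := (((min (sn i) (sn (i + 1)) : ℤ) : ℝ) - 404) / 1099511627776 with hm
  have c := conv a0 a1 (by positivity) (by positivity) l0 l1
  refine lo_of hX h0 (m := m) (fun t ht => sin_lw hi ht) (c.trans (le_of_eq ?_)) ?_
  · rw [hs]
    ring
  · have : 0 ≤ 1 - l := by linarith
    positivity

end slope

/-! ### soundness: values of the potential -/

namespace Dr

variable {d : Dr}

/-- the denominator -/
noncomputable def q (d : Dr) : ℝ := (d.n : ℝ) ^ 2 * d.m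

/-- the potential of the direction -/
noncomputable def K (d : Dr) : ℝ → ℝ := Kf d.n ((d.a : ℝ) / d.q) ((d.b : ℝ) / d.q) (d.J * (π / 96))

/-- the primitive of the direction -/
noncomputable def G (d : Dr) : ℝ → ℝ := Gf d.n ((d.a : ℝ) / d.q) ((d.b : ℝ) / d.q) (d.J * (π / 96))

theorem ang (hJ : d.J ≤ 192) (i : ℕ) :
    ((d.n * i + (192 - d.J) : ℕ) : ℝ) * (π / 96) = ((d.n : ℝ) * th i - d.J * (π / 96)) + 2 * π := by
  have : ((192 - d.J : ℕ) : ℝ) = 192 - d.J := by
    rw [Nat.cast_sub hJ]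
    norm_num
  unfold th
  push_cast
  rw [this]
  ring

theorem P_eq : (d.P : ℝ) = d.q * 1099511627776 := by
  unfold P q
  push_cast
  ring

variable (hn : 0 < d.n) (hq : 0 < d.m) (hJ : d.J ≤ 192)

include hn hq

theorem q_pos : 0 < d.q := by
  unfold q
  have : (0 : ℝ) < d.m := by exact_mod_cast hq
  have : (0 : ℝ) < d.n := by exact_mod_cast hn
  positivity

include hJ

theorem kv_le (i : ℕ) : |(d.kv i : ℝ) - d.P * d.K (th i)| ≤ d.er := by
  have hn' : (d.n : ℝ) ≠ 0 := by exact_mod_cast hn.ne'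
  have hq' : (d.m : ℝ) ≠ 0 := by exact_mod_cast hq.ne'
  have c := cn_le i
  have s := sn_le i
  have w := sn_le (d.n * i + (192 - d.J))
  rw [ang hJ, sin_add_two_pi] at w
  have e : (d.kv i : ℝ) - d.P * d.K (th i)
      = (d.a * ((cn i : ℝ) - 1099511627776 * cos (i * (π / 96)))
          + d.b * ((sn i : ℝ) - 1099511627776 * sin (i * (π / 96))))
        - d.n * d.m * ((sn (d.n * i + (192 - d.J)) : ℝ)
          - 1099511627776 * sin ((d.n : ℝ) * th i - d.J * (π / 96))) := by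
    rw [kv_eq, P_eq]
    unfold K Kf th q
    push_cast
    field_simp
    ring
  rw [e]
  unfold er
  push_cast
  set x := (cn i : ℝ) - 1099511627776 * cos (i * (π / 96))
  set y := (sn i : ℝ) - 1099511627776 * sin (i * (π / 96))
  set z := (sn (d.n * i + (192 - d.J)) : ℝ) - 1099511627776 * sin ((d.n : ℝ) * th i - d.J * (π / 96))
  have b1 : |(d.a : ℝ) * x + d.b * y| ≤ 404 * (|(d.a : ℝ)| + |(d.b : ℝ)|) := by
    refine (abs_add_le _ _).trans ?_
    rw [abs_mul, abs_mul]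
    have := mul_le_mul_of_nonneg_left c (abs_nonneg (d.a : ℝ))
    have := mul_le_mul_of_nonneg_left s (abs_nonneg (d.b : ℝ))
    linarith
  have b3 : |(d.n : ℝ) * d.m * z| ≤ (d.n : ℝ) * d.m * 404 := by
    rw [abs_mul, abs_of_nonneg (by positivity)]
    exact mul_le_mul_of_nonneg_left w (by positivity)
  refine (abs_sub _ _).trans ?_
  linarith

theorem gv_le (i : ℕ) : |(d.gv i : ℝ) - d.P * d.G (th i)| ≤ d.er := by
  have hn' : (d.n : ℝ) ≠ 0 := by exact_mod_cast hn.ne'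
  have hq' : (d.m : ℝ) ≠ 0 := by exact_mod_cast hq.ne'
  have hn1 : (1 : ℝ) ≤ d.n := by exact_mod_cast hn
  have c := cn_le i
  have s := sn_le i
  have w := cn_le (d.n * i + (192 - d.J))
  rw [ang hJ, cos_add_two_pi] at w
  have e : (d.gv i : ℝ) - d.P * d.G (th i)
      = (d.a * ((sn i : ℝ) - 1099511627776 * sin (i * (π / 96)))
          - d.b * ((cn i : ℝ) - 1099511627776 * cos (i * (π / 96))))
        + d.m * ((cn (d.n * i + (192 - d.J)) : ℝ)
          - 1099511627776 * cos ((d.n : ℝ) * th i - d.J * (π / 96))) := by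
    rw [gv_eq, P_eq]
    unfold G Gf th q
    push_cast
    field_simp
    ring
  rw [e]
  unfold er
  push_cast
  set x := (cn i : ℝ) - 1099511627776 * cos (i * (π / 96))
  set y := (sn i : ℝ) - 1099511627776 * sin (i * (π / 96))
  set z := (cn (d.n * i + (192 - d.J)) : ℝ) - 1099511627776 * cos ((d.n : ℝ) * th i - d.J * (π / 96))
  have b1 : |(d.a : ℝ) * y - d.b * x| ≤ 404 * (|(d.a : ℝ)| + |(d.b : ℝ)|) := by
    refine (abs_sub _ _).trans ?_
    rw [abs_mul, abs_mul]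
    have := mul_le_mul_of_nonneg_left s (abs_nonneg (d.a : ℝ))
    have := mul_le_mul_of_nonneg_left c (abs_nonneg (d.b : ℝ))
    linarith
  have b3 : |(d.m : ℝ) * z| ≤ (d.m : ℝ) * 404 := by
    rw [abs_mul, abs_of_nonneg (by positivity)]
    exact mul_le_mul_of_nonneg_left w (by positivity)
  have b4 : (d.m : ℝ) * 404 ≤ (d.n : ℝ) * d.m * 404 := by
    have : (d.m : ℝ) ≤ d.n * d.m := le_mul_of_one_le_left (by positivity) hn1
    linarith
  refine (abs_add_le _ _).trans ?_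
  linarith

omit hn hq hJ in
theorem div_le (x : ℤ) (c : ℤ) (hc : 0 < c) : (x : ℝ) / c ≤ ((x / c + 1 : ℤ) : ℝ) := by
  have hc' : (0 : ℝ) < c := by exact_mod_cast hc
  rw [div_le_iff₀ hc']
  have h := Int.lt_ediv_add_one_mul_self x hc
  have h2 : (x : ℝ) < ((x / c + 1 : ℤ) : ℝ) * c := by exact_mod_cast h
  exact h2.le

omit hJ in
theorem P_pos : (0 : ℝ) < d.P := by
  rw [P_eq]
  have := q_pos hn hq
  positivity

/-- the Lipschitz constant -/
noncomputable def B1 (d : Dr) : ℝ := |(d.a : ℝ) / d.q| + |(d.b : ℝ) / d.q| + 1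

omit hJ in
theorem hh_le : d.P * (d.B1 * (π / 96)) ≤ d.hh := by
  have hq' := q_pos hn hq
  have e : d.P * (d.B1 * (π / 96)) = ((|(d.a : ℝ)| + |(d.b : ℝ)| + d.q) * 1099511627776) * (π / 96) := by
    rw [P_eq]
    unfold B1
    rw [abs_div, abs_div, abs_of_pos hq']
    field_simp
  have hp : π / 96 ≤ 355 / 10848 := by
    have := Real.pi_lt_d20
    linarith
  have h1 : d.P * (d.B1 * (π / 96)) ≤ ((|(d.a : ℝ)| + |(d.b : ℝ)| + d.q) * 1099511627776) * (355 / 10848) := by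
    rw [e]
    exact mul_le_mul_of_nonneg_left hp (by positivity)
  refine h1.trans ?_
  have h2 := div_le ((|d.a| + |d.b| + ((d.n * d.n * d.m : ℕ) : ℤ)) * 1099511627776 * 355) 10848 (by norm_num)
  unfold hh
  refine le_trans (le_of_eq ?_) h2
  unfold q
  push_cast
  ring

/-! ### soundness: one cell -/

/-- twice the integral of the absolute value -/
theorem ub_le {i : ℕ} : d.P * ∫ t in (th i)..(th (i + 1)), |d.K t| ≤
    (((2 * min |d.kv i| |d.kv (i + 1)| + (d.hh + 2 * d.er)) * 355 / 21696 + 1 : ℤ) : ℝ) := by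
  have hP := P_pos hn hq
  have hh := hh_le hn hq (d := d)
  have hp : π / 96 ≤ 355 / 10848 := by
    have := Real.pi_lt_d20
    linarith
  have hp0 : 0 ≤ π / 96 := by positivity
  have hB : 0 ≤ d.B1 := by
    unfold B1
    positivity
  have hK : ∀ j : ℕ, d.P * |d.K (th j)| ≤ |(d.kv j : ℝ)| + d.er := fun j => by
    have h := kv_le hn hq hJ j
    have h2 := abs_sub_abs_le_abs_sub (d.P * d.K (th j)) (d.kv j : ℝ)
    rw [abs_sub_comm, abs_mul, abs_of_pos hP] at h2
    linarith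
  have key : ∀ j : ℕ, (∫ t in (th i)..(th (i + 1)), |d.K t|) ≤ |d.K (th j)| * (π / 96) + d.B1 * (π / 96) ^ 2 / 2 →
      d.P * ∫ t in (th i)..(th (i + 1)), |d.K t| ≤ (2 * |(d.kv j : ℝ)| + (d.hh + 2 * d.er)) * 355 / 21696 := by
    intro j hj
    have h1 := mul_le_mul_of_nonneg_left hj hP.le
    have h2 : d.P * (|d.K (th j)| * (π / 96) + d.B1 * (π / 96) ^ 2 / 2)
        = (d.P * |d.K (th j)| + d.P * (d.B1 * (π / 96)) / 2) * (π / 96) := by ring
    have h3 : (d.P * |d.K (th j)| + d.P * (d.B1 * (π / 96)) / 2) ≤ |(d.kv j : ℝ)| + d.er + d.hh / 2 := by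
      have := hK j
      linarith
    have h4 : 0 ≤ d.P * |d.K (th j)| + d.P * (d.B1 * (π / 96)) / 2 := by positivity
    have h5 : (d.P * |d.K (th j)| + d.P * (d.B1 * (π / 96)) / 2) * (π / 96)
        ≤ (|(d.kv j : ℝ)| + d.er + d.hh / 2) * (355 / 10848) := mul_le_mul h3 hp hp0 (h4.trans h3)
    rw [h2] at h1
    linarith
  have e1 := key i (by
    have := abs_left (A := (d.a : ℝ) / d.q) (B := (d.b : ℝ) / d.q) (ψ := d.J * (π / 96)) hn.ne' (th_le i)
    rw [th_sub] at this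
    exact this)
  have e2 := key (i + 1) (by
    have := abs_right (A := (d.a : ℝ) / d.q) (B := (d.b : ℝ) / d.q) (ψ := d.J * (π / 96)) hn.ne' (th_le i)
    rw [th_sub] at this
    exact this)
  have h3 := div_le ((2 * min |d.kv i| |d.kv (i + 1)| + (d.hh + 2 * d.er)) * 355) 21696 (by norm_num)
  refine le_trans ?_ h3
  push_cast
  rcases le_total |d.kv i| |d.kv (i + 1)| with hm | hm
  · have hm' : |(d.kv i : ℝ)| ≤ |(d.kv (i + 1) : ℝ)| := by exact_mod_cast hm
    rw [min_eq_left hm']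
    exact e1
  · have hm' : |(d.kv (i + 1) : ℝ)| ≤ |(d.kv i : ℝ)| := by exact_mod_cast hm
    rw [min_eq_right hm']
    exact e2

section cell

variable {s : ℝ} {X : ℝ → ℝ} (hX : St s X) (h0 : 0 ≤ s) {l : ℝ} (l0 : 0 ≤ l) (l1 : l ≤ 1)

include hX h0 l0 l1

theorem c_pos {i u0 u1 : ℕ} (hk : d.hh + 2 * d.er ≤ d.kv i + d.kv (i + 1))
    (hU : Up s X (th i) (th (i + 1)) (l * ((u0 : ℝ) / 1048576) + (1 - l) * ((u1 : ℝ) / 1048576))) :
    2097152 * d.P * ∫ t in (th i)..(th (i + 1)), d.K t * deriv X t ≤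
      s * (l * (2 * u0 * ((d.gv (i + 1) : ℝ) - d.gv i + 2 * d.er))
        + (1 - l) * (2 * u1 * ((d.gv (i + 1) : ℝ) - d.gv i + 2 * d.er))) := by
  have hP := P_pos hn hq
  have hh := hh_le hn hq (d := d)
  have k1 := abs_le.1 (kv_le hn hq hJ i)
  have k2 := abs_le.1 (kv_le hn hq hJ (i + 1))
  have g1 := abs_le.1 (gv_le hn hq hJ i)
  have g2 := abs_le.1 (gv_le hn hq hJ (i + 1))
  have hk' : (d.hh : ℝ) + 2 * d.er ≤ d.kv i + d.kv (i + 1) := by exact_mod_cast hk
  have hs : d.B1 * (th (i + 1) - th i) ≤ d.K (th i) + d.K (th (i + 1)) := by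
    rw [th_sub]
    have : d.P * (d.B1 * (π / 96)) ≤ d.P * (d.K (th i) + d.K (th (i + 1))) := by linarith
    exact le_of_mul_le_mul_left this hP
  have h1 := cell_pos hX hn.ne' (th_le i) (sign_pos hn.ne' hs) hU
  set U := l * ((u0 : ℝ) / 1048576) + (1 - l) * ((u1 : ℝ) / 1048576) with hUd
  have hU0 : 0 ≤ U := by
    have : 0 ≤ 1 - l := by linarith
    positivity
  have h2 : d.P * (Gf d.n ((d.a : ℝ) / d.q) ((d.b : ℝ) / d.q) (d.J * (π / 96)) (th (i + 1))
      - Gf d.n ((d.a : ℝ) / d.q) ((d.b : ℝ) / d.q) (d.J * (π / 96)) (th i)) ≤ (d.gv (i + 1) : ℝ) - d.gv i + 2 * d.er := by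
    have e1 : d.G (th i) = Gf d.n ((d.a : ℝ) / d.q) ((d.b : ℝ) / d.q) (d.J * (π / 96)) (th i) := rfl
    have e2 : d.G (th (i + 1)) = Gf d.n ((d.a : ℝ) / d.q) ((d.b : ℝ) / d.q) (d.J * (π / 96)) (th (i + 1)) := rfl
    rw [← e1, ← e2]
    linarith [g1.1, g1.2, g2.1, g2.2]
  have h3 := mul_le_mul_of_nonneg_left h1 (by positivity : (0 : ℝ) ≤ 2097152 * d.P)
  refine h3.trans ?_
  have h4 := mul_le_mul_of_nonneg_left h2 (by positivity : (0 : ℝ) ≤ 2097152 * (s * U))
  have e : s * (l * (2 * u0 * ((d.gv (i + 1) : ℝ) - d.gv i + 2 * d.er))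
        + (1 - l) * (2 * u1 * ((d.gv (i + 1) : ℝ) - d.gv i + 2 * d.er)))
      = 2097152 * (s * U) * ((d.gv (i + 1) : ℝ) - d.gv i + 2 * d.er) := by
    rw [hUd]
    ring
  rw [e]
  refine le_trans (le_of_eq ?_) h4
  ring

theorem c_neg {i v0 v1 : ℕ} (hk : d.kv i + d.kv (i + 1) ≤ -(d.hh + 2 * d.er))
    (hL : Lo s X (th i) (th (i + 1)) (l * ((v0 : ℝ) / 1048576) + (1 - l) * ((v1 : ℝ) / 1048576))) :
    2097152 * d.P * ∫ t in (th i)..(th (i + 1)), d.K t * deriv X t ≤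
      s * (l * (2 * v0 * ((d.gv i : ℝ) - d.gv (i + 1) + 2 * d.er))
        + (1 - l) * (2 * v1 * ((d.gv i : ℝ) - d.gv (i + 1) + 2 * d.er))) := by
  have hP := P_pos hn hq
  have hh := hh_le hn hq (d := d)
  have k1 := abs_le.1 (kv_le hn hq hJ i)
  have k2 := abs_le.1 (kv_le hn hq hJ (i + 1))
  have g1 := abs_le.1 (gv_le hn hq hJ i)
  have g2 := abs_le.1 (gv_le hn hq hJ (i + 1))
  have hk' : (d.kv i : ℝ) + d.kv (i + 1) ≤ -((d.hh : ℝ) + 2 * d.er) := by exact_mod_cast hk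
  have hs : d.K (th i) + d.K (th (i + 1)) ≤ -(d.B1 * (th (i + 1) - th i)) := by
    rw [th_sub]
    have : d.P * (d.K (th i) + d.K (th (i + 1))) ≤ d.P * (-(d.B1 * (π / 96))) := by linarith
    exact le_of_mul_le_mul_left this hP
  have h1 := cell_neg hX hn.ne' (th_le i) (sign_neg hn.ne' hs) hL
  set U := l * ((v0 : ℝ) / 1048576) + (1 - l) * ((v1 : ℝ) / 1048576) with hUd
  have hU0 : 0 ≤ U := by
    have : 0 ≤ 1 - l := by linarith
    positivity
  have h2 : d.P * (Gf d.n ((d.a : ℝ) / d.q) ((d.b : ℝ) / d.q) (d.J * (π / 96)) (th i)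
      - Gf d.n ((d.a : ℝ) / d.q) ((d.b : ℝ) / d.q) (d.J * (π / 96)) (th (i + 1)))
      ≤ (d.gv i : ℝ) - d.gv (i + 1) + 2 * d.er := by
    have e1 : d.G (th i) = Gf d.n ((d.a : ℝ) / d.q) ((d.b : ℝ) / d.q) (d.J * (π / 96)) (th i) := rfl
    have e2 : d.G (th (i + 1)) = Gf d.n ((d.a : ℝ) / d.q) ((d.b : ℝ) / d.q) (d.J * (π / 96)) (th (i + 1)) := rfl
    rw [← e1, ← e2]
    linarith [g1.1, g1.2, g2.1, g2.2]
  have h3 := mul_le_mul_of_nonneg_left h1 (by positivity : (0 : ℝ) ≤ 2097152 * d.P)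
  refine h3.trans ?_
  have h4 := mul_le_mul_of_nonneg_left h2 (by positivity : (0 : ℝ) ≤ 2097152 * (s * U))
  have e : s * (l * (2 * v0 * ((d.gv i : ℝ) - d.gv (i + 1) + 2 * d.er))
        + (1 - l) * (2 * v1 * ((d.gv i : ℝ) - d.gv (i + 1) + 2 * d.er)))
      = 2097152 * (s * U) * ((d.gv i : ℝ) - d.gv (i + 1) + 2 * d.er) := by
    rw [hUd]
    ring
  rw [e]
  refine le_trans (le_of_eq ?_) h4
  ring

theorem c_mix {i u0 u1 v0 v1 : ℕ} {w : ℝ} (hw : d.P * ∫ t in (th i)..(th (i + 1)), |d.K t| ≤ w)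
    (hU : Up s X (th i) (th (i + 1)) (l * ((u0 : ℝ) / 1048576) + (1 - l) * ((u1 : ℝ) / 1048576)))
    (hL : Lo s X (th i) (th (i + 1)) (l * ((v0 : ℝ) / 1048576) + (1 - l) * ((v1 : ℝ) / 1048576))) :
    2097152 * d.P * ∫ t in (th i)..(th (i + 1)), d.K t * deriv X t ≤
      s * (l * (u0 * (w + ((d.gv (i + 1) : ℝ) - d.gv i) + 2 * d.er) + v0 * (w - ((d.gv (i + 1) : ℝ) - d.gv i) + 2 * d.er))
        + (1 - l) * (u1 * (w + ((d.gv (i + 1) : ℝ) - d.gv i) + 2 * d.er)
          + v1 * (w - ((d.gv (i + 1) : ℝ) - d.gv i) + 2 * d.er))) := by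
  have hP := P_pos hn hq
  have g1 := abs_le.1 (gv_le hn hq hJ i)
  have g2 := abs_le.1 (gv_le hn hq hJ (i + 1))
  have l2 : 0 ≤ 1 - l := by linarith
  set U := l * ((u0 : ℝ) / 1048576) + (1 - l) * ((u1 : ℝ) / 1048576) with hUd
  set L := l * ((v0 : ℝ) / 1048576) + (1 - l) * ((v1 : ℝ) / 1048576) with hLd
  have hU0 : 0 ≤ U := by positivity
  have hL0 : 0 ≤ L := by positivity
  have h1 := cell_mix hX hn.ne' (th_le i) (le_refl (∫ t in (th i)..(th (i + 1)), |d.K t|)) hU hL (by positivity)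
  have e1 : d.G (th i) = Gf d.n ((d.a : ℝ) / d.q) ((d.b : ℝ) / d.q) (d.J * (π / 96)) (th i) := rfl
  have e2 : d.G (th (i + 1)) = Gf d.n ((d.a : ℝ) / d.q) ((d.b : ℝ) / d.q) (d.J * (π / 96)) (th (i + 1)) := rfl
  rw [← e1, ← e2] at h1
  set Iw := ∫ t in (th i)..(th (i + 1)), |d.K t|
  set D := d.G (th (i + 1)) - d.G (th i) with hD
  have h2 : d.P * (Iw + D) ≤ w + ((d.gv (i + 1) : ℝ) - d.gv i) + 2 * d.er := by
    rw [hD]
    linarith [g1.1, g1.2, g2.1, g2.2]
  have h3 : d.P * (Iw - D) ≤ w - ((d.gv (i + 1) : ℝ) - d.gv i) + 2 * d.er := by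
    rw [hD]
    linarith [g1.1, g1.2, g2.1, g2.2]
  have h4 := mul_le_mul_of_nonneg_left h1 (by positivity : (0 : ℝ) ≤ 2097152 * d.P)
  refine h4.trans ?_
  have h5 := mul_le_mul_of_nonneg_left h2 (by positivity : (0 : ℝ) ≤ 1048576 * (s * U))
  have h6 := mul_le_mul_of_nonneg_left h3 (by positivity : (0 : ℝ) ≤ 1048576 * (s * L))
  have e : s * (l * (u0 * (w + ((d.gv (i + 1) : ℝ) - d.gv i) + 2 * d.er) + v0 * (w - ((d.gv (i + 1) : ℝ) - d.gv i) + 2 * d.er))
        + (1 - l) * (u1 * (w + ((d.gv (i + 1) : ℝ) - d.gv i) + 2 * d.er)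
          + v1 * (w - ((d.gv (i + 1) : ℝ) - d.gv i) + 2 * d.er)))
      = 1048576 * (s * U) * (w + ((d.gv (i + 1) : ℝ) - d.gv i) + 2 * d.er)
        + 1048576 * (s * L) * (w - ((d.gv (i + 1) : ℝ) - d.gv i) + 2 * d.er) := by
    rw [hUd, hLd]
    ring
  rw [e]
  refine le_trans (le_of_eq ?_) (add_le_add h5 h6)
  ring

end cell

/-! ### soundness: the sum -/

section sum

variable {s : ℝ} {X : ℝ → ℝ} (hX : St s X) (h0 : 0 ≤ s) {p0 p1 : ℕ} {l : ℝ} (l0 : 0 ≤ l) (l1 : l ≤ 1)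
  (hs : s = l * ((p0 : ℝ) / 1000) + (1 - l) * ((p1 : ℝ) / 1000))

include hX h0 l0 l1 hs

theorem run_of : ∀ (rs : List Row) (i : ℕ) (t0 t1 R : ℤ), i + rs.length ≤ 96 → okR p0 p1 rs i = true →
    d.run (2 * d.er) (d.hh + 2 * d.er) rs i (d.kv i) (d.gv i) t0 t1 R = true →
    2097152 * d.P * ∫ t in (th i)..(th (i + rs.length)), d.K t * deriv X t ≤
      s * (l * ((R : ℝ) - t0) + (1 - l) * ((R : ℝ) - t1))
  | [], i, t0, t1, R, _, _, h => by
    unfold run at h
    simp only [Bool.and_eq_true, decide_eq_true_eq] at h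
    have a0 : (t0 : ℝ) ≤ R := by exact_mod_cast h.1
    have a1 : (t1 : ℝ) ≤ R := by exact_mod_cast h.2
    have l2 : 0 ≤ 1 - l := by linarith
    simp only [List.length_nil, add_zero, intervalIntegral.integral_same, mul_zero]
    have := mul_nonneg l0 (sub_nonneg.2 a0)
    have := mul_nonneg l2 (sub_nonneg.2 a1)
    positivity
  | r :: rs, i, t0, t1, R, hi, hr, h => by
    simp only [List.length_cons] at hi
    unfold okR at hr
    simp only [Bool.and_eq_true] at hr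
    obtain ⟨⟨⟨⟨ru0, ru1⟩, rl0⟩, rl1⟩, hr'⟩ := hr
    have hi' : i < 96 := by omega
    have hL := lo_cell hX h0 l0 l1 hs hi' rl0 rl1
    have cK : Continuous d.K := cont_Kf
    have sp : ∫ t in (th i)..(th (i + (r :: rs).length)), d.K t * deriv X t
        = (∫ t in (th i)..(th (i + 1)), d.K t * deriv X t)
          + ∫ t in (th (i + 1))..(th (i + 1 + rs.length)), d.K t * deriv X t := by
      rw [List.length_cons, show i + (rs.length + 1) = i + 1 + rs.length by omega]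
      exact (intervalIntegral.integral_add_adjacent_intervals (hX.int1 cK _ _) (hX.int1 cK _ _)).symm
    rw [sp, mul_add]
    unfold run at h
    split_ifs at h with c1 c2
    · simp only [Bool.and_eq_true, decide_eq_true_eq] at h
      obtain ⟨⟨q0, q1⟩, h⟩ := h
      have ih := run_of rs (i + 1) _ _ R (by omega) hr' h
      have a := c_pos hn hq hJ hX h0 l0 l1 c1 (up_cell hX h0 l0 l1 hs hi' ru0 ru1 q0 q1)
      refine (add_le_add a ih).trans (le_of_eq ?_)
      push_cast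
      ring
    · have ih := run_of rs (i + 1) _ _ R (by omega) hr' h
      have a := c_neg hn hq hJ hX h0 l0 l1 c2 hL
      refine (add_le_add a ih).trans (le_of_eq ?_)
      push_cast
      ring
    · simp only [Bool.and_eq_true, decide_eq_true_eq] at h
      obtain ⟨⟨q0, q1⟩, h⟩ := h
      have ih := run_of rs (i + 1) _ _ R (by omega) hr' h
      have a := c_mix hn hq hJ hX h0 l0 l1 (ub_le hn hq hJ (i := i)) (up_cell hX h0 l0 l1 hs hi' ru0 ru1 q0 q1) hL
      refine (add_le_add a ih).trans (le_of_eq ?_)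
      push_cast
      ring

end sum

end Dr

/-- **the bound of a direction** -/
theorem chk_of {d : Dr} {rs : List Row} {kn kd p0 p1 : ℕ} (h : d.chk rs kn kd = true) (hr : okR p0 p1 rs 0 = true)
    {s : ℝ} {X : ℝ → ℝ} (hX : St s X) (h0 : (p0 : ℝ) / 1000 ≤ s) (h1 : s ≤ (p1 : ℝ) / 1000) :
    (QST.mn fun a => X a * cos (d.n * a - d.J * (π / 96))) ≤ s * ((kn : ℝ) / kd) := by
  unfold Dr.chk at h
  simp only [Bool.and_eq_true, decide_eq_true_eq] at h
  obtain ⟨⟨⟨⟨⟨⟨hl, hn⟩, hodd⟩, hq⟩, hJ⟩, hkd⟩, hrun⟩ := h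
  have hs0 : 0 ≤ s := le_trans (by positivity) h0
  obtain ⟨l, l0, l1, hs⟩ : ∃ l : ℝ, 0 ≤ l ∧ l ≤ 1 ∧ s = l * ((p0 : ℝ) / 1000) + (1 - l) * ((p1 : ℝ) / 1000) := by
    rcases eq_or_lt_of_le (h0.trans h1) with e | e
    · exact ⟨1, zero_le_one, le_rfl, by rw [one_mul, sub_self, zero_mul, add_zero]; exact le_antisymm (e ▸ h1) h0⟩
    · have hd : 0 < (p1 : ℝ) / 1000 - (p0 : ℝ) / 1000 := by linarith
      refine ⟨((p1 : ℝ) / 1000 - s) / ((p1 : ℝ) / 1000 - (p0 : ℝ) / 1000), div_nonneg (by linarith) hd.le, ?_, ?_⟩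
      · rw [div_le_one hd]
        linarith
      · generalize (p1 : ℝ) / 1000 = x1 at *
        generalize (p0 : ℝ) / 1000 = x0 at *
        have hd' : x1 - x0 ≠ 0 := hd.ne'
        field_simp
        ring
  have k := Dr.run_of hn hq hJ hX hs0 l0 l1 hs rs 0 0 0 _ (by omega) hr hrun
  have e0 : th 0 = 0 := by simp [th]
  have e1 : th (0 + rs.length) = π := by
    rw [hl]
    unfold th
    push_cast
    ring
  rw [e0, e1] at k
  have hP := Dr.P_pos (d := d) hn hq
  have hodd' : Odd d.n := Nat.odd_iff.2 hodd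
  rw [← fun_eq (A := (d.a : ℝ) / d.q) (B := (d.b : ℝ) / d.q) hX hn.ne', half hX hodd']
  set I := ∫ a in (0 : ℝ)..π, Kf d.n ((d.a : ℝ) / d.q) ((d.b : ℝ) / d.q) (d.J * (π / 96)) a * deriv X a with hI
  have k' : 2097152 * d.P * I ≤ s * (((kn * 2097152 * d.P * 314159265 / (100000000 * kd) : ℤ) : ℝ)) := by
    refine le_trans k (le_of_eq ?_)
    push_cast
    ring
  have hkd' : (0 : ℝ) < kd := by exact_mod_cast hkd
  have hR : (((kn * 2097152 * d.P * 314159265 / (100000000 * kd) : ℤ) : ℝ)) ≤ (kn : ℝ) / kd * (2097152 * d.P * π) := by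
    have hc : (0 : ℤ) < 100000000 * kd := mul_pos (by norm_num) (by exact_mod_cast hkd)
    have h2 : ((kn * 2097152 * d.P * 314159265 / (100000000 * kd) : ℤ)) * (100000000 * (kd : ℤ))
        ≤ kn * 2097152 * d.P * 314159265 := Int.ediv_mul_le _ hc.ne'
    have h3 : (((kn * 2097152 * d.P * 314159265 / (100000000 * kd) : ℤ) : ℝ)) * (100000000 * kd)
        ≤ kn * 2097152 * d.P * 314159265 := by exact_mod_cast h2
    have h4 : (kn : ℝ) * 2097152 * d.P * 314159265 ≤ (kn : ℝ) / kd * (2097152 * d.P * π) * (100000000 * kd) := by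
      have e : (kn : ℝ) / kd * (2097152 * d.P * π) * (100000000 * kd) = kn * 2097152 * d.P * (100000000 * π) := by
        field_simp
      rw [e]
      refine mul_le_mul_of_nonneg_left ?_ (mul_nonneg (mul_nonneg (Nat.cast_nonneg kn) (by norm_num)) hP.le)
      have := Real.pi_gt_d20
      linarith
    exact le_of_mul_le_mul_right (h3.trans h4) (mul_pos (by norm_num) hkd')
  have h5 := k'.trans (mul_le_mul_of_nonneg_left hR hs0)
  have hp := pi_pos
  rw [one_div, inv_mul_le_iff₀ hp]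
  have h6 : 2097152 * d.P * I ≤ 2097152 * d.P * (π * (s * ((kn : ℝ) / kd))) := by
    refine h5.trans (le_of_eq ?_)
    ring
  exact le_of_mul_le_mul_left h6 (by positivity)

/-- the directions `3 j`, `j ≤ 32`, with the coefficients of the list -/
def chd (n q : ℕ) (l : List Row) (kn kd : ℕ) : List (ℤ × ℤ) → ℕ → Bool
  | [], _ => true
  | c :: cs, J => (Dr.mk n q c.1 c.2 J).chk l kn kd && chd n q l kn kd cs (Nat.add J 3)

theorem chd_of {n q : ℕ} {l : List Row} {kn kd : ℕ} : ∀ {cs : List (ℤ × ℤ)} {J : ℕ}, chd n q l kn kd cs J = true →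
    ∀ j < cs.length, ∃ a b : ℤ, (Dr.mk n q a b (J + 3 * j)).chk l kn kd = true
  | [], _, _, j, hj => by simp at hj
  | c :: cs, J, h, 0, _ => by
    unfold chd at h
    rw [Bool.and_eq_true] at h
    exact ⟨c.1, c.2, h.1⟩
  | c :: cs, J, h, j + 1, hj => by
    unfold chd at h
    rw [Bool.and_eq_true] at h
    obtain ⟨a, b, hab⟩ := chd_of h.2 j (by simpa using hj)
    refine ⟨a, b, ?_⟩
    rw [show J + 3 * (j + 1) = J + 3 + 3 * j by ring]
    exact hab

/-- **the bound of the moment of frequency `n` on a class** -/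
theorem mC_of {n q : ℕ} {l : List Row} {kn kd p0 p1 : ℕ} {cs : List (ℤ × ℤ)} (hc : cs.length = 33)
    (h : chd n q l kn kd cs 0 = true) (hr : okR p0 p1 l 0 = true)
    {s : ℝ} {X : ℝ → ℝ} (hX : St s X) (h0 : (p0 : ℝ) / 1000 ≤ s) (h1 : s ≤ (p1 : ℝ) / 1000) :
    ‖mC n X‖ ≤ s * ((kn : ℝ) / kd) / (9987 / 10000 + 9 / 100000) := by
  have hodd : Odd n := by
    obtain ⟨a, b, hab⟩ := chd_of h 0 (by omega)
    unfold Dr.chk at hab
    simp only [Bool.and_eq_true, decide_eq_true_eq] at hab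
    exact Nat.odd_iff.2 hab.1.1.1.1.2
  have key : ∀ Y : ℝ → ℝ, St s Y → 0 ≤ (mC n Y).im → ‖mC n Y‖ ≤ s * ((kn : ℝ) / kd) / (9987 / 10000 + 9 / 100000) := by
    intro Y hY him
    have hp := poly_le (b := s * ((kn : ℝ) / kd)) (D := 32) (by norm_num) him fun j hj => by
      obtain ⟨a, b, hab⟩ := chd_of h j (by omega)
      have := chk_of hab hr hY h0 h1
      simp only [zero_add] at this
      rw [dir_eq hY.cont] at this
      have e : (((3 * j : ℕ) : ℝ)) * (π / 96) = j * (π / (32 : ℕ)) := by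
        push_cast
        ring
      rw [e] at this
      exact this
    have hc : 9987 / 10000 + 9 / 100000 ≤ cos (π / (2 * (32 : ℕ))) := by
      have h2 := Real.one_sub_sq_div_two_le_cos (x := π / (2 * (32 : ℕ)))
      have h3 := Real.pi_lt_d20
      have h4 := Real.pi_pos
      have h5 : (π / (2 * ((32 : ℕ) : ℝ))) ^ 2 ≤ (3.1416 / 64) ^ 2 := by
        refine pow_le_pow_left₀ (by positivity) ?_ 2
        push_cast
        linarith
      norm_num at h5 h2 ⊢
      linarith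
    rw [le_div_iff₀ (by norm_num)]
    exact (mul_le_mul_of_nonneg_left hc (norm_nonneg _)).trans hp
  rcases le_total 0 (mC n X).im with him | him
  · exact key X hX him
  · have h2 := key _ (neg_st hX) (by rw [mC_neg hX hodd]; simpa using him)
    rw [mC_neg hX hodd] at h2
    have e : ‖(⟨(mC n X).re, -(mC n X).im⟩ : ℂ)‖ = ‖mC n X‖ := by
      have : (⟨(mC n X).re, -(mC n X).im⟩ : ℂ) = (starRingEnd ℂ) (mC n X) := by
        apply Complex.ext <;> simp
      rw [this, RCLike.norm_conj]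
    rwa [e] at h2

end Pool.Agent.FPX.LF
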