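import Mathlib
import Pool.Agent.FPX.UMPDefs

/-
MBE (helper58): boundary estimate for the implicitly defined universal map of helper69.
If `f` is within `d` of the tent of `s` and `X` is a zero of `G (·, f)`, then `1 - 2500 d ≤ ⟨X, u_s⟩`.
-/

open MeasureTheory Set Filter Topology
open scoped ENNReal NNReal

noncomputable section

namespace Pool.Agent.FPX.MBE

open Pool.Agent.FPX.UMP Real

/-- `⟨X, u_t⟩` -/
def pp (x y t : ℝ) : ℝ := x * cos t + y * sin t

/-- `(1 - |X|²) cos² a + (sin a - ⟨X, u_t⟩)²` -/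
def DD (x y t a : ℝ) : ℝ := (1 - x ^ 2 - y ^ 2) * cos a ^ 2 + (sin a - pp x y t) ^ 2

/-- the denominator of the kernel -/
def WW (x y t a : ℝ) : ℝ := √(DD x y t a) * (1 - pp x y t * sin a)

/-- first coordinate of the kernel -/
def k1 (x y t a : ℝ) : ℝ := (cos t - x * sin a) / WW x y t a

/-- second coordinate of the kernel -/
def k2 (x y t a : ℝ) : ℝ := (sin t - y * sin a) / WW x y t a

/-- first coordinate of `G (X, f)` -/
def G1 (x y : ℝ) (f : ℝ → ℝ) : ℝ :=
  ∫ t in (0 : ℝ)..(2 * π), ∫ a in (arcsin (pp x y t))..(f t), k1 x y t a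

/-- second coordinate of `G (X, f)` -/
def G2 (x y : ℝ) (f : ℝ → ℝ) : ℝ :=
  ∫ t in (0 : ℝ)..(2 * π), ∫ a in (arcsin (pp x y t))..(f t), k2 x y t a

section basic
variable {x y : ℝ}

theorem pp_sq (x y t : ℝ) : pp x y t ^ 2 ≤ x ^ 2 + y ^ 2 := by
  unfold pp
  nlinarith [sq_nonneg (x * sin t - y * cos t), sin_sq_add_cos_sq t]

theorem pp_abs (h : x ^ 2 + y ^ 2 < 1) (t : ℝ) : |pp x y t| < 1 := by
  have := pp_sq x y t
  exact (sq_lt_one_iff_abs_lt_one _).1 (by linarith)

theorem one_sub_pos (h : x ^ 2 + y ^ 2 < 1) (t a : ℝ) : 0 < 1 - pp x y t * sin a := by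
  have h1 := pp_abs h t
  have h2 := abs_sin_le_one a
  have h3 : |pp x y t * sin a| < 1 := by
    rw [abs_mul]
    nlinarith [abs_nonneg (pp x y t), abs_nonneg (sin a)]
  linarith [(abs_lt.1 h3).2]

theorem DD_pos (h : x ^ 2 + y ^ 2 < 1) (t a : ℝ) : 0 < DD x y t a := by
  unfold DD
  rcases eq_or_ne (cos a) 0 with h0 | h0
  · have h1 := sin_sq_add_cos_sq a
    have h2 := pp_sq x y t
    rw [h0] at h1 ⊢
    have h3 : sin a - pp x y t ≠ 0 := by
      intro h4
      have h5 : sin a = pp x y t := by linarith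
      rw [h5] at h1
      nlinarith
    have := pow_pos (abs_pos.2 h3) 2
    rw [sq_abs] at this
    nlinarith
  · have : 0 < cos a ^ 2 := by positivity
    nlinarith [sq_nonneg (sin a - pp x y t), mul_pos (by linarith : 0 < 1 - x ^ 2 - y ^ 2) this]

theorem WW_pos (h : x ^ 2 + y ^ 2 < 1) (t a : ℝ) : 0 < WW x y t a :=
  mul_pos (sqrt_pos.2 (DD_pos h t a)) (one_sub_pos h t a)

theorem cont_pp (x y : ℝ) : Continuous (pp x y) := by
  unfold pp
  fun_prop

theorem cont_WW (x y : ℝ) : Continuous fun z : ℝ × ℝ => WW x y z.1 z.2 := by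
  unfold WW DD pp
  fun_prop

theorem cont_k1 (h : x ^ 2 + y ^ 2 < 1) : Continuous fun z : ℝ × ℝ => k1 x y z.1 z.2 := by
  unfold k1
  exact (by fun_prop : Continuous fun z : ℝ × ℝ => cos z.1 - x * sin z.2).div (cont_WW x y)
    fun z => (WW_pos h z.1 z.2).ne'

theorem cont_k2 (h : x ^ 2 + y ^ 2 < 1) : Continuous fun z : ℝ × ℝ => k2 x y z.1 z.2 := by
  unfold k2
  exact (by fun_prop : Continuous fun z : ℝ × ℝ => sin z.1 - y * sin z.2).div (cont_WW x y)
    fun z => (WW_pos h z.1 z.2).ne'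

/-- continuity of the inner integrals -/
theorem cont_inner {K : ℝ → ℝ → ℝ} (hK : Continuous fun z : ℝ × ℝ => K z.1 z.2) {α β : ℝ → ℝ}
    (hα : Continuous α) (hβ : Continuous β) : Continuous fun t => ∫ a in (α t)..(β t), K t a := by
  have h1 : Continuous fun t => ∫ a in (0 : ℝ)..(β t), K t a :=
    intervalIntegral.continuous_parametric_intervalIntegral_of_continuous hK hβ
  have h2 : Continuous fun t => ∫ a in (0 : ℝ)..(α t), K t a :=
    intervalIntegral.continuous_parametric_intervalIntegral_of_continuous hK hα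
  refine (h1.sub h2).congr fun t => ?_
  have hi : ∀ u v, IntervalIntegrable (K t) volume u v := fun u v =>
    (hK.comp (by fun_prop : Continuous fun a : ℝ => (t, a))).intervalIntegrable _ _
  have := intervalIntegral.integral_interval_sub_left (hi 0 (β t)) (hi 0 (α t))
  exact this

end basic

section test
variable {x y s : ℝ}

/-- the test function -/
def NN (x y s t a : ℝ) : ℝ :=
  (1 - x ^ 2 - y ^ 2) / (1 - pp x y s) * (cos (t - s) - sin a) + (sin a - pp x y t)

/-- the test kernel -/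
def KK (x y s t a : ℝ) : ℝ := NN x y s t a / WW x y t a

theorem cont_KK (h : x ^ 2 + y ^ 2 < 1) : Continuous fun z : ℝ × ℝ => KK x y s z.1 z.2 := by
  unfold KK
  refine Continuous.div ?_ (cont_WW x y) fun z => (WW_pos h z.1 z.2).ne'
  unfold NN pp
  fun_prop

theorem cont_KKa (h : x ^ 2 + y ^ 2 < 1) (t : ℝ) : Continuous fun a => KK x y s t a := by
  have h1 : Continuous fun a : ℝ => (t, a) := by fun_prop
  exact Continuous.comp (g := fun z : ℝ × ℝ => KK x y s z.1 z.2) (f := fun a : ℝ => (t, a)) (cont_KK h) h1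

theorem KK_eq (h : x ^ 2 + y ^ 2 < 1) (t a : ℝ) : KK x y s t a =
    ((1 - x ^ 2 - y ^ 2) / (1 - pp x y s) * cos s - x) * k1 x y t a
      + ((1 - x ^ 2 - y ^ 2) / (1 - pp x y s) * sin s - y) * k2 x y t a := by
  have h1 : (0 : ℝ) < 1 - pp x y s := by linarith [(abs_lt.1 (pp_abs h s)).2]
  have h2 := WW_pos h t a
  unfold KK k1 k2
  rw [mul_div_assoc', mul_div_assoc', ← add_div]
  congr 1
  unfold NN
  rw [cos_sub]
  have h3 : (1 - x ^ 2 - y ^ 2) / (1 - pp x y s) * (1 - pp x y s) = 1 - x ^ 2 - y ^ 2 :=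
    div_mul_cancel₀ _ h1.ne'
  set κ := (1 - x ^ 2 - y ^ 2) / (1 - pp x y s) with hκ
  unfold pp at h3 ⊢
  linear_combination (-sin a) * h3

/-- the integral against the test vector -/
theorem test_int (h : x ^ 2 + y ^ 2 < 1) {f : ℝ → ℝ} (hf : Continuous f) (h1 : G1 x y f = 0)
    (h2 : G2 x y f = 0) :
    ∫ t in (0 : ℝ)..(2 * π), ∫ a in (arcsin (pp x y t))..(f t), KK x y s t a = 0 := by
  have ca : Continuous fun t => arcsin (pp x y t) := continuous_arcsin.comp (cont_pp x y)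
  have e : ∀ t, ∫ a in (arcsin (pp x y t))..(f t), KK x y s t a =
      ((1 - x ^ 2 - y ^ 2) / (1 - pp x y s) * cos s - x) * (∫ a in (arcsin (pp x y t))..(f t), k1 x y t a)
      + ((1 - x ^ 2 - y ^ 2) / (1 - pp x y s) * sin s - y) *
        (∫ a in (arcsin (pp x y t))..(f t), k2 x y t a) := by
    intro t
    rw [← intervalIntegral.integral_const_mul, ← intervalIntegral.integral_const_mul,
      ← intervalIntegral.integral_add]
    · refine intervalIntegral.integral_congr fun a _ => ?_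
      exact KK_eq h t a
    · exact ((continuous_const.mul ((cont_k1 h).comp (by fun_prop : Continuous fun a : ℝ => (t, a))))).intervalIntegrable _ _
    · exact ((continuous_const.mul ((cont_k2 h).comp (by fun_prop : Continuous fun a : ℝ => (t, a))))).intervalIntegrable _ _
  simp only [e]
  rw [intervalIntegral.integral_add, intervalIntegral.integral_const_mul,
    intervalIntegral.integral_const_mul]
  · unfold G1 at h1
    unfold G2 at h2
    rw [h1, h2]
    ring
  · exact (continuous_const.mul (cont_inner (cont_k1 h) ca hf)).intervalIntegrable _ _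
  · exact (continuous_const.mul (cont_inner (cont_k2 h) ca hf)).intervalIntegrable _ _

theorem KK_odd (t a : ℝ) : KK x y s (t + π) (-a) = -KK x y s t a := by
  have e1 : pp x y (t + π) = -pp x y t := by
    unfold pp
    rw [cos_add_pi, sin_add_pi]
    ring
  have e2 : cos (t + π - s) = -cos (t - s) := by
    rw [← cos_add_pi]
    congr 1
    ring
  unfold KK
  have e3 : WW x y (t + π) (-a) = WW x y t a := by
    unfold WW DD
    rw [e1, sin_neg, cos_neg]
    congr 2 <;> ring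
  rw [e3]
  unfold NN
  rw [e1, e2, sin_neg]
  rw [← neg_div]
  congr 1
  ring

theorem H_per {f : ℝ → ℝ} (hodd : ∀ t, f (t + π) = -f t) :
    Function.Periodic (fun t => ∫ a in (arcsin (pp x y t))..(f t), KK x y s t a) π := by
  intro t
  have e1 : pp x y (t + π) = -pp x y t := by
    unfold pp
    rw [cos_add_pi, sin_add_pi]
    ring
  simp only
  rw [e1, arcsin_neg, hodd]
  have h := intervalIntegral.integral_comp_neg (a := arcsin (pp x y t)) (b := f t)
    (fun a => KK x y s (t + π) a)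
  have h2 : ∫ a in (arcsin (pp x y t))..(f t), KK x y s (t + π) (-a) =
      -∫ a in (arcsin (pp x y t))..(f t), KK x y s t a := by
    rw [← intervalIntegral.integral_neg]
    exact intervalIntegral.integral_congr fun a _ => KK_odd t a
  rw [intervalIntegral.integral_symm]
  linarith

/-- square of the test function -/
theorem NN_sq (h : x ^ 2 + y ^ 2 < 1) (t a : ℝ) : NN x y s t a ^ 2 ≤ DD x y t a := by
  have h1 : (0 : ℝ) < 1 - pp x y s := by linarith [(abs_lt.1 (pp_abs h s)).2]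
  set P := pp x y s with hP
  set m := -x * sin s + y * cos s with hm
  set C := cos (t - s) with hC
  set σ := sin (t - s) with hσ
  set S := sin a with hS
  have hsc : σ ^ 2 + C ^ 2 = 1 := sin_sq_add_cos_sq _
  have hSc : S ^ 2 + cos a ^ 2 = 1 := sin_sq_add_cos_sq _
  have hp : pp x y t = P * C + m * σ := by
    have e : t = s + (t - s) := by ring
    rw [hP, hm, hC, hσ]
    conv_lhs => rw [e]
    unfold pp
    rw [cos_add, sin_add]
    ring
  have hr : x ^ 2 + y ^ 2 = P ^ 2 + m ^ 2 := by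
    rw [hP, hm]
    unfold pp
    linear_combination (-(x ^ 2 + y ^ 2)) * sin_sq_add_cos_sq s
  have hc : 1 - x ^ 2 - y ^ 2 = 1 - P ^ 2 - m ^ 2 := by linarith
  have key : DD x y t a - NN x y s t a ^ 2 =
      (1 - x ^ 2 - y ^ 2) / (1 - P) ^ 2 * ((1 - P) * σ + m * (C - S)) ^ 2 := by
    unfold DD NN
    rw [hp, hc, ← hP, ← hC, ← hS]
    have hca : cos a ^ 2 = C ^ 2 + σ ^ 2 - S ^ 2 := by linarith
    rw [hca]
    field_simp
    ring
  have h2 : 0 ≤ (1 - x ^ 2 - y ^ 2) / (1 - P) ^ 2 * ((1 - P) * σ + m * (C - S)) ^ 2 := by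
    have : 0 ≤ 1 - x ^ 2 - y ^ 2 := by linarith
    positivity
  linarith

theorem KK_abs (h : x ^ 2 + y ^ 2 < 1) (t a : ℝ) : |KK x y s t a| ≤ 1 / (1 - pp x y t * sin a) := by
  have h1 := one_sub_pos h t a
  have h2 := DD_pos h t a
  have h3 : |NN x y s t a| ≤ √(DD x y t a) := abs_le_sqrt (NN_sq h t a)
  unfold KK WW
  rw [abs_div, abs_of_pos (mul_pos (sqrt_pos.2 h2) h1), div_le_div_iff₀ (mul_pos (sqrt_pos.2 h2) h1) h1]
  nlinarith [sqrt_pos.2 h2]

end test


section window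
variable {x y s : ℝ}

/-- the shift -/
theorem pp_add (x y s τ : ℝ) : pp x y (s + τ) = pp x y s * cos τ + (-x * sin s + y * cos s) * sin τ := by
  unfold pp
  rw [cos_add, sin_add]
  ring

theorem rr_eq (x y s : ℝ) : x ^ 2 + y ^ 2 = pp x y s ^ 2 + (-x * sin s + y * cos s) ^ 2 := by
  unfold pp
  linear_combination (-(x ^ 2 + y ^ 2)) * sin_sq_add_cos_sq s

/-- near the tent the second factor of the denominator is large -/
theorem den_ge (h : x ^ 2 + y ^ 2 < 1) {d τ ε : ℝ} (hε0 : 0 ≤ ε) (hε : ε ≤ d)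
    (hd : 4 * d ≤ 1 - pp x y s) :
    (1 - pp x y s) / 8 ≤ 1 - pp x y (s + τ) * sin (π / 2 - |τ| - ε) := by
  have hP := abs_lt.1 (pp_abs h s)
  have e1 : sin (π / 2 - |τ| - ε) = cos (|τ| + ε) := by
    rw [← cos_pi_div_two_sub]
    congr 1
    ring
  have e2 : ∀ u : ℝ, pp x y (s + τ) * cos u = (pp x y (s + τ + u) + pp x y (s + τ - u)) / 2 := by
    intro u
    unfold pp
    rw [cos_add (s + τ), sin_add (s + τ), cos_sub (s + τ), sin_sub (s + τ)]
    ring
  have hm : |-x * sin s + y * cos s| ≤ 1 := by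
    refine (sq_le_one_iff_abs_le_one _).1 ?_
    have := rr_eq x y s
    nlinarith [sq_nonneg (pp x y s)]
  have hs : |sin ε| ≤ ε := by
    have := abs_sin_le_abs (x := ε)
    rwa [abs_of_nonneg hε0] at this
  have hms : |(-x * sin s + y * cos s) * sin ε| ≤ ε := by
    rw [abs_mul]
    nlinarith [abs_nonneg (sin ε), abs_nonneg (-x * sin s + y * cos s)]
  have hPc : pp x y s * cos ε ≤ 1 - (1 - pp x y s) / 2 := by
    rcases le_total 0 (pp x y s) with h0 | h0
    · nlinarith [cos_le_one ε]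
    · have h1 : 0 ≤ cos ε :=
        cos_nonneg_of_neg_pi_div_two_le_of_le (by linarith [pi_pos]) (by linarith [pi_gt_three])
      nlinarith
  have hb := abs_le.1 hms
  rw [e1, e2]
  rcases le_total 0 τ with h0 | h0
  · rw [abs_of_nonneg h0]
    have e3 : s + τ - (τ + ε) = s + -ε := by ring
    rw [e3, pp_add x y s (-ε), cos_neg, sin_neg]
    have h1 := (abs_lt.1 (pp_abs h (s + τ + (τ + ε)))).2
    linarith
  · rw [abs_of_nonpos h0]
    have e3 : s + τ + (-τ + ε) = s + ε := by ring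
    rw [e3, pp_add x y s ε]
    have h1 := (abs_lt.1 (pp_abs h (s + τ - (-τ + ε)))).2
    linarith

/-- the part between `f` and the tent -/
theorem part_small (h : x ^ 2 + y ^ 2 < 1) {d τ v : ℝ} (hd : 4 * d ≤ 1 - pp x y s)
    (hv1 : v ≤ π / 2 - |τ|) (hv2 : π / 2 - |τ| - d ≤ v) :
    |∫ a in v..(π / 2 - |τ|), KK x y s (s + τ) a| ≤ 8 / (1 - pp x y s) * d := by
  have hη : (0 : ℝ) < 1 - pp x y s := by linarith [(abs_lt.1 (pp_abs h s)).2]
  have h1 : ∀ a ∈ Set.uIoc v (π / 2 - |τ|), ‖KK x y s (s + τ) a‖ ≤ 8 / (1 - pp x y s) := by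
    intro a ha
    rw [Set.uIoc_of_le hv1] at ha
    rw [Real.norm_eq_abs]
    refine (KK_abs h _ _).trans ?_
    have h2 := den_ge (s := s) h (d := d) (τ := τ) (ε := π / 2 - |τ| - a) (by linarith [ha.2])
      (by linarith [ha.1]) hd
    have e : π / 2 - |τ| - (π / 2 - |τ| - a) = a := by ring
    rw [e] at h2
    rw [div_le_div_iff₀ (one_sub_pos h _ _) hη]
    linarith
  have h2 := intervalIntegral.norm_integral_le_of_norm_le_const h1
  rw [Real.norm_eq_abs] at h2
  refine h2.trans ?_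
  rw [abs_of_nonneg (by linarith)]
  exact mul_le_mul_of_nonneg_left (by linarith) (by positivity)

/-- sign of the test function between the horizon and the tent -/
theorem NN_nonneg (h : x ^ 2 + y ^ 2 < 1) {τ a : ℝ} (h1 : pp x y (s + τ) ≤ sin a) (h2 : sin a ≤ cos τ) :
    0 ≤ NN x y s (s + τ) a := by
  have hη : (0 : ℝ) < 1 - pp x y s := by linarith [(abs_lt.1 (pp_abs h s)).2]
  unfold NN
  have e : s + τ - s = τ := by ring
  rw [e]
  have : 0 ≤ (1 - x ^ 2 - y ^ 2) / (1 - pp x y s) := div_nonneg (by linarith) hη.le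
  have := mul_nonneg this (sub_nonneg.2 h2)
  linarith

theorem NN_nonpos (h : x ^ 2 + y ^ 2 < 1) {τ a : ℝ} (h1 : sin a ≤ pp x y (s + τ)) (h2 : cos τ ≤ sin a) :
    NN x y s (s + τ) a ≤ 0 := by
  have hη : (0 : ℝ) < 1 - pp x y s := by linarith [(abs_lt.1 (pp_abs h s)).2]
  unfold NN
  have e : s + τ - s = τ := by ring
  rw [e]
  have : 0 ≤ (1 - x ^ 2 - y ^ 2) / (1 - pp x y s) := div_nonneg (by linarith) hη.le
  have := mul_nonneg this (sub_nonneg.2 h2)
  nlinarith

theorem sin_tent (τ : ℝ) : sin (π / 2 - |τ|) = cos τ := by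
  rw [sin_pi_div_two_sub, cos_abs]

/-- the part between the horizon and the tent is nonnegative -/
theorem part_nonneg (h : x ^ 2 + y ^ 2 < 1) {τ : ℝ} (hτ : |τ| ≤ π / 2) :
    0 ≤ ∫ a in (arcsin (pp x y (s + τ)))..(π / 2 - |τ|), KK x y s (s + τ) a := by
  have hp := abs_lt.1 (pp_abs h (s + τ))
  have hpi := pi_pos
  have ha0 := abs_nonneg τ
  rcases le_total (arcsin (pp x y (s + τ))) (π / 2 - |τ|) with h1 | h1
  · refine intervalIntegral.integral_nonneg h1 fun a ha => ?_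
    refine div_nonneg (NN_nonneg h ?_ ?_) (WW_pos h _ _).le
    · rw [← sin_arcsin hp.1.le hp.2.le]
      exact sin_le_sin_of_le_of_le_pi_div_two (neg_pi_div_two_le_arcsin _) (by linarith [ha.2]) ha.1
    · rw [← sin_tent]
      exact sin_le_sin_of_le_of_le_pi_div_two (by linarith [ha.1, neg_pi_div_two_le_arcsin (pp x y (s + τ))])
        (by linarith) ha.2
  · rw [intervalIntegral.integral_symm, ← intervalIntegral.integral_neg]
    refine intervalIntegral.integral_nonneg h1 fun a ha => ?_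
    rw [neg_nonneg]
    refine div_nonpos_of_nonpos_of_nonneg (NN_nonpos h ?_ ?_) (WW_pos h _ _).le
    · conv_rhs => rw [← sin_arcsin hp.1.le hp.2.le]
      exact sin_le_sin_of_le_of_le_pi_div_two (by linarith [ha.1]) (arcsin_le_pi_div_two _) ha.2
    · rw [← sin_tent]
      exact sin_le_sin_of_le_of_le_pi_div_two (by linarith)
        (by linarith [ha.2, arcsin_le_pi_div_two (pp x y (s + τ))]) ha.1

/-- elementary bounds near the tip of the tent -/
theorem alg {P m τ u b : ℝ} (hP : P ^ 2 + m ^ 2 < 1) (hb : 0 < b) (hb2 : b ^ 2 = 1 - P)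
    (hs : m * sin τ ≤ 0) (hτ : |τ| ≤ b / 4) (hu : 0 ≤ u) (hu1 : u ≤ b / 2) :
    P * cos τ + m * sin τ + 3 / 8 * b ^ 2 ≤ cos u ∧
    (1 - P ^ 2 - m ^ 2) * sin u ^ 2 + (cos u - (P * cos τ + m * sin τ)) ^ 2 ≤
      (3 * (cos u - (P * cos τ + m * sin τ))) ^ 2 ∧
    1 - (P * cos τ + m * sin τ) * cos u ≤ 2 * b ^ 2 := by
  have hP1 : P ^ 2 < 1 := by nlinarith [sq_nonneg m]
  have hP2 := abs_lt.1 ((sq_lt_one_iff_abs_lt_one P).1 hP1)
  obtain ⟨η, hη⟩ : ∃ η, η = b ^ 2 := ⟨_, rfl⟩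
  have hPη : P = 1 - η := by linarith
  have hη0 : 0 < η := by rw [hη]; positivity
  have hη2 : η < 2 := by linarith [hP2.1]
  have hb32 : b ≤ 3 / 2 := by nlinarith
  have ha0 := abs_nonneg τ
  have hpi := pi_gt_three
  have hct1 := cos_le_one τ
  have hct0 : 0 ≤ cos τ := by
    rw [← cos_abs]
    exact cos_nonneg_of_neg_pi_div_two_le_of_le (by linarith) (by linarith)
  have hctl : 1 - τ ^ 2 / 2 ≤ cos τ := one_sub_sq_div_two_le_cos
  have hτ2 : τ ^ 2 ≤ η / 16 := by
    rw [← sq_abs, hη]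
    have := pow_le_pow_left₀ ha0 hτ 2
    nlinarith
  have hu2 : u ^ 2 ≤ η / 4 := by
    rw [hη]
    have := pow_le_pow_left₀ hu hu1 2
    nlinarith
  have hst2 : sin τ ^ 2 ≤ τ ^ 2 := by
    have := abs_sin_le_abs (x := τ)
    rw [← sq_abs, ← sq_abs τ]
    exact pow_le_pow_left₀ (abs_nonneg _) this 2
  have hsu : sin u ^ 2 ≤ u ^ 2 := by
    have := abs_sin_le_abs (x := u)
    rw [← sq_abs, ← sq_abs u]
    exact pow_le_pow_left₀ (abs_nonneg _) this 2
  have hc2 : 1 - P ^ 2 - m ^ 2 ≤ 2 * η := by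
    rw [hPη]
    nlinarith [sq_nonneg m, sq_nonneg η]
  have hm2 : m ^ 2 ≤ 2 * η := by
    have : m ^ 2 < 1 - P ^ 2 := by linarith
    rw [hPη] at this
    nlinarith [sq_nonneg η]
  have hmτ : |m * sin τ| ≤ 3 / 8 * η := by
    refine abs_le_of_sq_le_sq ?_ (by positivity)
    calc (m * sin τ) ^ 2 = m ^ 2 * sin τ ^ 2 := by ring
      _ ≤ (2 * η) * (η / 16) := mul_le_mul hm2 (by linarith) (sq_nonneg _) (by positivity)
      _ ≤ (3 / 8 * η) ^ 2 := by nlinarith [sq_nonneg η]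
  have hcu1 := cos_le_one u
  have hcul : 1 - u ^ 2 / 2 ≤ cos u := one_sub_sq_div_two_le_cos
  have hcu0 : 0 ≤ cos u := cos_nonneg_of_neg_pi_div_two_le_of_le (by linarith) (by linarith)
  have hPc : P * cos τ = cos τ - η * cos τ := by rw [hPη]; ring
  have hv : P * cos τ + m * sin τ + 3 / 8 * η ≤ cos u := by
    rcases le_total 0 P with h0 | h0
    · have : P * cos τ ≤ P := by nlinarith
      linarith
    · have : P * cos τ ≤ 0 := mul_nonpos_of_nonpos_of_nonneg h0 hct0
      linarith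
  have hp1 : P * cos τ + m * sin τ ≤ 1 := by linarith
  have hpge : 1 - 3 / 2 * η ≤ P * cos τ + m * sin τ := by
    have h1 := (abs_le.1 hmτ).1
    have h2 : η * cos τ ≤ η := by nlinarith
    rw [hPc]
    linarith
  rw [← hη]
  obtain ⟨p, hp⟩ : ∃ p, p = P * cos τ + m * sin τ := ⟨_, rfl⟩
  rw [← hp] at hv hp1 hpge ⊢
  refine ⟨hv, ?_, ?_⟩
  · have h5 : (1 - P ^ 2 - m ^ 2) * sin u ^ 2 ≤ (2 * η) * (η / 4) :=
      mul_le_mul hc2 (by linarith) (sq_nonneg _) (by positivity)
    have h6 : (3 / 8 * η) ^ 2 ≤ (cos u - p) ^ 2 :=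
      pow_le_pow_left₀ (by positivity) (by linarith) 2
    nlinarith [sq_nonneg η]
  · have h8 : cos u * (1 - p) ≤ 1 * (1 - p) := mul_le_mul_of_nonneg_right hcu1 (by linarith)
    linarith

/-- pointwise lower bound of the kernel near the tip of the tent -/
theorem KK_big (h : x ^ 2 + y ^ 2 < 1) {τ a b : ℝ} (hb : 0 < b) (hb2 : b ^ 2 = 1 - pp x y s)
    (hs : (-x * sin s + y * cos s) * sin τ ≤ 0) (hτ : |τ| ≤ b / 4) (h1 : π / 2 - b / 2 ≤ a)
    (h2 : a ≤ π / 2 - |τ|) :
    pp x y (s + τ) + 3 / 8 * b ^ 2 ≤ sin a ∧ 1 / (6 * b ^ 2) ≤ KK x y s (s + τ) a := by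
  have hrr := rr_eq x y s
  have hη : (0 : ℝ) < 1 - pp x y s := by linarith [(abs_lt.1 (pp_abs h s)).2]
  have ha0 := abs_nonneg τ
  have hb32 : b ≤ 3 / 2 := by nlinarith [(abs_lt.1 (pp_abs h s)).1]
  have hpi := pi_gt_three
  obtain ⟨hA, hB, hC⟩ := alg (P := pp x y s) (m := -x * sin s + y * cos s) (τ := τ) (u := π / 2 - a)
    (b := b) (by rw [← hrr]; exact h) hb hb2 hs hτ (by linarith) (by linarith)
  rw [← pp_add, cos_pi_div_two_sub] at hA
  rw [← pp_add, cos_pi_div_two_sub, sin_pi_div_two_sub] at hB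
  rw [← pp_add, cos_pi_div_two_sub] at hC
  refine ⟨hA, ?_⟩
  have hsle : sin a ≤ cos τ := by
    rw [← sin_tent]
    exact sin_le_sin_of_le_of_le_pi_div_two (by linarith) (by linarith) h2
  have hNge : sin a - pp x y (s + τ) ≤ NN x y s (s + τ) a := by
    unfold NN
    have e : s + τ - s = τ := by ring
    rw [e]
    have h3 : 0 ≤ (1 - x ^ 2 - y ^ 2) / (1 - pp x y s) := div_nonneg (by linarith) hη.le
    have := mul_nonneg h3 (sub_nonneg.2 hsle)
    linarith
  have hv0 : 0 < sin a - pp x y (s + τ) := by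
    have : 0 < b ^ 2 := by positivity
    linarith
  have hD : √(DD x y (s + τ) a) ≤ 3 * (sin a - pp x y (s + τ)) := by
    rw [sqrt_le_left (by positivity)]
    unfold DD
    have e : 1 - x ^ 2 - y ^ 2 = 1 - pp x y s ^ 2 - (-x * sin s + y * cos s) ^ 2 := by linarith
    rw [e]
    exact hB
  have hd0 := one_sub_pos h (s + τ) a
  have hD0 := DD_pos h (s + τ) a
  unfold KK WW
  rw [div_le_div_iff₀ (by positivity) (mul_pos (sqrt_pos.2 hD0) hd0)]
  have h9 : √(DD x y (s + τ) a) * (1 - pp x y (s + τ) * sin a) ≤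
      (3 * (sin a - pp x y (s + τ))) * (2 * b ^ 2) :=
    mul_le_mul hD hC hd0.le (by positivity)
  have h10 : (sin a - pp x y (s + τ)) * (6 * b ^ 2) ≤ NN x y s (s + τ) a * (6 * b ^ 2) :=
    mul_le_mul_of_nonneg_right hNge (by positivity)
  linarith

/-- lower bound near the tip of the tent -/
theorem part_big (h : x ^ 2 + y ^ 2 < 1) {τ b : ℝ} (hb : 0 < b) (hb2 : b ^ 2 = 1 - pp x y s)
    (hs : (-x * sin s + y * cos s) * sin τ ≤ 0) (hτ : |τ| ≤ b / 4) :
    1 / (24 * b) ≤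
      ∫ a in (arcsin (pp x y (s + τ)))..(π / 2 - |τ|), KK x y s (s + τ) a := by
  have ha0 := abs_nonneg τ
  have hb32 : b ≤ 3 / 2 := by nlinarith [(abs_lt.1 (pp_abs h s)).1]
  have hpi := pi_gt_three
  have hp := abs_lt.1 (pp_abs h (s + τ))
  have cK : Continuous fun a => KK x y s (s + τ) a := cont_KKa h (s + τ)
  have hi : ∀ u v, IntervalIntegrable (fun a => KK x y s (s + τ) a) volume u v := fun u v =>
    cK.intervalIntegrable _ _
  have haT : π / 2 - b / 2 ≤ π / 2 - |τ| := by linarith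
  have hb0 : 0 < b ^ 2 := by positivity
  have harc : arcsin (pp x y (s + τ)) ≤ π / 2 - b / 2 := by
    rw [arcsin_le_iff_le_sin ⟨hp.1.le, hp.2.le⟩ ⟨by linarith, by linarith⟩]
    linarith [(KK_big h hb hb2 hs hτ le_rfl haT).1]
  rw [← intervalIntegral.integral_add_adjacent_intervals (hi _ (π / 2 - b / 2)) (hi (π / 2 - b / 2) _)]
  have i1 : 0 ≤ ∫ a in (arcsin (pp x y (s + τ)))..(π / 2 - b / 2), KK x y s (s + τ) a := by
    refine intervalIntegral.integral_nonneg harc fun a ha => ?_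
    refine div_nonneg (NN_nonneg h ?_ ?_) (WW_pos h _ _).le
    · rw [← sin_arcsin hp.1.le hp.2.le]
      exact sin_le_sin_of_le_of_le_pi_div_two (neg_pi_div_two_le_arcsin _) (by linarith [ha.2]) ha.1
    · rw [← sin_tent]
      exact sin_le_sin_of_le_of_le_pi_div_two (by linarith [ha.1, neg_pi_div_two_le_arcsin (pp x y (s + τ))])
        (by linarith) (by linarith [ha.2])
  have i2 : ∫ a in (π / 2 - b / 2)..(π / 2 - |τ|), (1 / (6 * b ^ 2)) ≤
      ∫ a in (π / 2 - b / 2)..(π / 2 - |τ|), KK x y s (s + τ) a :=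
    intervalIntegral.integral_mono_on haT intervalIntegrable_const (hi _ _)
      fun a ha => (KK_big h hb hb2 hs hτ ha.1 ha.2).2
  rw [intervalIntegral.integral_const, smul_eq_mul] at i2
  have i3 : b / 4 * (1 / (6 * b ^ 2)) ≤ (π / 2 - |τ| - (π / 2 - b / 2)) * (1 / (6 * b ^ 2)) :=
    mul_le_mul_of_nonneg_right (by linarith) (by positivity)
  have i4 : 1 / (24 * b) = b / 4 * (1 / (6 * b ^ 2)) := by
    field_simp
    norm_num
  linarith

end window

/-- an abstract averaging step -/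
theorem core {H : ℝ → ℝ} (cH : Continuous H) {E c α β : ℝ} (h0 : ∫ τ in (-(π / 2))..(π / 2), H τ = 0)
    (hα : -(π / 2) ≤ α) (hαβ : α ≤ β) (hβ : β ≤ π / 2) (hpt : ∀ τ, |τ| ≤ π / 2 → 0 ≤ H τ + E)
    (hbig : ∀ τ ∈ Icc α β, c ≤ H τ + E) : (β - α) * c ≤ π * E := by
  have ci : Continuous fun τ => H τ + E := cH.add continuous_const
  have hii : ∀ u v, IntervalIntegrable (fun τ => H τ + E) volume u v := fun u v =>
    ci.intervalIntegrable _ _
  have e : ∫ τ in (-(π / 2))..(π / 2), (H τ + E) =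
      (∫ τ in (-(π / 2))..α, (H τ + E)) + (∫ τ in α..β, (H τ + E)) + ∫ τ in β..(π / 2), (H τ + E) := by
    rw [intervalIntegral.integral_add_adjacent_intervals (hii _ _) (hii _ _),
      intervalIntegral.integral_add_adjacent_intervals (hii _ _) (hii _ _)]
  have j1 : 0 ≤ ∫ τ in (-(π / 2))..α, (H τ + E) :=
    intervalIntegral.integral_nonneg hα fun τ hτ => hpt τ (abs_le.2 ⟨hτ.1, by linarith [hτ.2]⟩)
  have j2 : 0 ≤ ∫ τ in β..(π / 2), (H τ + E) :=
    intervalIntegral.integral_nonneg hβ fun τ hτ => hpt τ (abs_le.2 ⟨by linarith [hτ.1], hτ.2⟩)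
  have h2 : ∫ τ in α..β, c ≤ ∫ τ in α..β, (H τ + E) :=
    intervalIntegral.integral_mono_on hαβ intervalIntegrable_const (hii _ _) fun τ hτ => hbig τ hτ
  rw [intervalIntegral.integral_const, smul_eq_mul] at h2
  have h3 : ∫ τ in (-(π / 2))..(π / 2), (H τ + E) = π * E := by
    rw [intervalIntegral.integral_add (cH.intervalIntegrable _ _) intervalIntegrable_const,
      h0, intervalIntegral.integral_const, smul_eq_mul]
    ring
  linarith

/-- shift of the integral to the window -/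
theorem to_window {H : ℝ → ℝ} (cH : Continuous H) (hper : Function.Periodic H π)
    (hzero : ∫ t in (0 : ℝ)..(2 * π), H t = 0) (s : ℝ) :
    ∫ τ in (-(π / 2))..(π / 2), H (s + τ) = 0 := by
  have hi : ∀ u v, IntervalIntegrable H volume u v := fun u v => cH.intervalIntegrable _ _
  have e1 : ∫ t in (0 : ℝ)..(2 * π), H t = (∫ t in (0 : ℝ)..π, H t) + ∫ t in π..(2 * π), H t :=
    (intervalIntegral.integral_add_adjacent_intervals (hi _ _) (hi _ _)).symm
  have e2 : ∫ t in π..(2 * π), H t = ∫ t in (0 : ℝ)..π, H t := by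
    have := hper.intervalIntegral_add_eq π 0
    rw [zero_add] at this
    rw [← this]
    congr 1
    ring
  have e3 : ∫ t in (s - π / 2)..(s - π / 2 + π), H t = ∫ t in (0 : ℝ)..π, H t := by
    have := hper.intervalIntegral_add_eq (s - π / 2) 0
    rwa [zero_add] at this
  rw [intervalIntegral.integral_comp_add_left]
  have e4 : s + -(π / 2) = s - π / 2 := by ring
  have e5 : s + π / 2 = s - π / 2 + π := by ring
  rw [e4, e5, e3]
  linarith

/-- the bounds in the window -/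
theorem win {f : ℝ → ℝ} {s d : ℝ}
    (hup : ∀ t, |t - s| ≤ π / 2 → f t ≤ π / 2 - |t - s|)
    (hlo : ∀ t, |t - s| ≤ π / 2 → π / 2 - |t - s| - d ≤ f t) {x y : ℝ} (h : x ^ 2 + y ^ 2 < 1)
    {b : ℝ} (hb : 0 < b) (hb2 : b ^ 2 = 1 - pp x y s) (hd : 4 * d ≤ 1 - pp x y s) {τ : ℝ}
    (hτ : |τ| ≤ π / 2) :
    (0 ≤ (∫ a in (arcsin (pp x y (s + τ)))..(f (s + τ)), KK x y s (s + τ) a) + 8 / b ^ 2 * d) ∧
      ((-x * sin s + y * cos s) * sin τ ≤ 0 → |τ| ≤ b / 4 → 1 / (24 * b) ≤
        (∫ a in (arcsin (pp x y (s + τ)))..(f (s + τ)), KK x y s (s + τ) a) + 8 / b ^ 2 * d) := by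
  have e : s + τ - s = τ := by ring
  have hu := hup (s + τ) (by rw [e]; exact hτ)
  have hl := hlo (s + τ) (by rw [e]; exact hτ)
  rw [e] at hu hl
  have cK : Continuous fun a => KK x y s (s + τ) a := cont_KKa h (s + τ)
  have hj : ∀ u v, IntervalIntegrable (fun a => KK x y s (s + τ) a) volume u v := fun u v =>
    cK.intervalIntegrable _ _
  have h1 := intervalIntegral.integral_add_adjacent_intervals
    (hj (arcsin (pp x y (s + τ))) (f (s + τ))) (hj (f (s + τ)) (π / 2 - |τ|))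
  have h2 := (abs_le.1 (part_small (s := s) h (d := d) (τ := τ) (v := f (s + τ)) hd hu hl)).2
  rw [← hb2] at h2
  refine ⟨by linarith [part_nonneg (s := s) h hτ], fun h3 h4 => ?_⟩
  linarith [part_big (s := s) h hb hb2 h3 h4]

/-- BOUNDARY ESTIMATE: if `f` is within `d` of the tent of `s` and `X` is a zero then `X` is close to `u_s` -/
theorem bdry {f : ℝ → ℝ} (hf : Ef f) {s d : ℝ} (h0 : 0 < d)
    (hup : ∀ t, |t - s| ≤ π / 2 → f t ≤ π / 2 - |t - s|)
    (hlo : ∀ t, |t - s| ≤ π / 2 → π / 2 - |t - s| - d ≤ f t) {x y : ℝ} (h : x ^ 2 + y ^ 2 < 1)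
    (hG1 : G1 x y f = 0) (hG2 : G2 x y f = 0) : 1 - 2500 * d ≤ x * cos s + y * sin s := by
  change 1 - 2500 * d ≤ pp x y s
  by_contra hcon
  push Not at hcon
  have hη0 : 2500 * d < 1 - pp x y s := by linarith
  have hPs := abs_lt.1 (pp_abs h s)
  have hηp : 0 < 1 - pp x y s := by linarith
  obtain ⟨b, hb0, hb2⟩ : ∃ b : ℝ, 0 < b ∧ b ^ 2 = 1 - pp x y s := ⟨_, sqrt_pos.2 hηp, sq_sqrt hηp.le⟩
  have hb32 : b ≤ 3 / 2 := by nlinarith
  have hpi := pi_gt_three
  have hpi2 := pi_lt_d2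
  have cf : Continuous f := hf.lip.continuous
  have cH : Continuous fun t => ∫ a in (arcsin (pp x y t))..(f t), KK x y s t a :=
    cont_inner (cont_KK h) (continuous_arcsin.comp (cont_pp x y)) cf
  have hsh := to_window cH (H_per hf.odd) (test_int h cf hG1 hG2) s
  have cH' : Continuous fun τ => ∫ a in (arcsin (pp x y (s + τ)))..(f (s + τ)), KK x y s (s + τ) a :=
    cH.comp (by fun_prop : Continuous fun τ : ℝ => s + τ)
  obtain ⟨α, β, hα, hαβ, hβ, hlen, hab⟩ : ∃ α β : ℝ, -(π / 2) ≤ α ∧ α ≤ β ∧ β ≤ π / 2 ∧ β - α = b / 4 ∧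
      ∀ τ ∈ Icc α β, (-x * sin s + y * cos s) * sin τ ≤ 0 ∧ |τ| ≤ b / 4 := by
    rcases le_total 0 (-x * sin s + y * cos s) with hm | hm
    · refine ⟨-(b / 4), 0, by linarith, by linarith, by linarith, by ring, fun τ hτ => ⟨?_, ?_⟩⟩
      · have : sin τ ≤ 0 := sin_nonpos_of_nonpos_of_neg_pi_le hτ.2 (by linarith [hτ.1])
        exact mul_nonpos_of_nonneg_of_nonpos hm this
      · exact abs_le.2 ⟨hτ.1, by linarith [hτ.2]⟩
    · refine ⟨0, b / 4, by linarith, by linarith, by linarith, by ring, fun τ hτ => ⟨?_, ?_⟩⟩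
      · have : 0 ≤ sin τ := sin_nonneg_of_nonneg_of_le_pi hτ.1 (by linarith [hτ.2])
        exact mul_nonpos_of_nonpos_of_nonneg hm this
      · exact abs_le.2 ⟨by linarith [hτ.1], hτ.2⟩
  have hd4 : 4 * d ≤ 1 - pp x y s := by linarith
  have key := core (c := 1 / (24 * b)) (E := 8 / b ^ 2 * d) cH' hsh hα hαβ hβ
    (fun τ hτ => (win hup hlo h hb0 hb2 hd4 hτ).1)
    (fun τ hτ => (win hup hlo h hb0 hb2 hd4 (abs_le.2 ⟨by linarith [hτ.1], by linarith [hτ.2]⟩)).2
      (hab τ hτ).1 (hab τ hτ).2)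
  rw [hlen] at key
  have h4 : b / 4 * (1 / (24 * b)) = 1 / 96 := by
    field_simp
    norm_num
  have h5 : π * (8 / b ^ 2 * d) ≤ 3.15 * (8 / 2500) := by
    have hb20 : 0 < b ^ 2 := by positivity
    have h6 : 8 / b ^ 2 * d ≤ 8 / 2500 := by
      rw [div_mul_eq_mul_div, div_le_div_iff₀ hb20 (by norm_num)]
      linarith
    have h7 : 0 ≤ 8 / b ^ 2 * d := by positivity
    calc π * (8 / b ^ 2 * d) ≤ 3.15 * (8 / b ^ 2 * d) := mul_le_mul_of_nonneg_right hpi2.le h7
      _ ≤ 3.15 * (8 / 2500) := mul_le_mul_of_nonneg_left h6 (by norm_num)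
  rw [h4] at key
  norm_num at h5
  linarith

end Pool.Agent.FPX.MBE
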