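import Pool.Agent.FPX.MCW

/-
MCF (helper52): a fast kernel test of the tables of `MCW` (natural numbers, forced evaluation, pointers into
the list of chords): `Tab.fast T = true → T.Good` and the monotonicity of the table.
-/

noncomputable section

namespace Pool.Agent.FPX.MCW

/-- forced evaluation of `x` -/
def frc {α : Type} (x : ℕ) (k : ℕ → α) : α :=
  @Nat.rec (fun _ => α) (k 0) (fun n _ => k (Nat.succ n)) x

theorem frc_eq {α : Type} (x : ℕ) (k : ℕ → α) : frc x k = k x := by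
  cases x <;> rfl

/-- an integer as a natural number, with forced evaluation -/
def iN (z : ℤ) (k : ℕ → Bool) : Bool :=
  @Int.rec (fun _ => Bool) (fun n => k n) (fun _ => false) z

theorem iN_eq {z : ℤ} {k : ℕ → Bool} (h : iN z k = true) : ∃ n : ℕ, z = n ∧ k n = true := by
  cases z with
  | ofNat n => exact ⟨n, rfl, h⟩
  | negSucc n => exact absurd h (by simp [iN])

/-- conditional -/
def bif' (b : Bool) (x y : Bool) : Bool := @Bool.rec (fun _ => Bool) y x b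

theorem bif'_eq (b x y : Bool) : bif' b x y = if b = true then x else y := by
  cases b <;> rfl

theorem bif'_false {b x : Bool} (h : bif' b x false = true) : b = true ∧ x = true := by
  rw [bif'_eq] at h
  split_ifs at h with c
  exact ⟨c, h⟩

/-- chords of the hull: `(B0, a, b)` to `(B1, a1, b1)`, `dB = B1 - B0` -/
inductive Chs where
  | nil : Chs
  | cons (B1 B0 dB a a1 b b1 : ℕ) (t : Chs) : Chs

/-- the ends of all chords are supported -/
def Chs.Fits (L : List (ℤ × ℤ × ℤ)) (S : ℝ) : Chs → Prop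
  | .nil => True
  | .cons B1 B0 dB a a1 b b1 t =>
    Sup L S (b / S) (a / S) (B0 / S) ∧ Sup L S (b1 / S) (a1 / S) (B1 / S) ∧ B0 + dB = B1 ∧ 0 < dB ∧ t.Fits L S

/-- the test of one corner -/
def cor (M bb X β : ℕ) (c : Chs) : Bool :=
  @Chs.rec (fun _ => Bool) false (fun B1 B0 dB a a1 b b1 _ ih =>
    bif' (Nat.ble β B1)
      (bif' (Nat.ble (Nat.mul M (Nat.add (Nat.mul a (Nat.sub B1 β)) (Nat.mul a1 (Nat.sub β B0)))) (Nat.mul X dB))
        (Nat.ble (Nat.add (Nat.mul b (Nat.sub B1 β)) (Nat.mul b1 (Nat.sub β B0))) (Nat.mul bb dB)) false)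
      ih) c

theorem sup_chord {L : List (ℤ × ℤ × ℤ)} {S : ℝ} (hS : 0 < S) {M bb X β B1 B0 dB a a1 b b1 : ℕ} (hM : 0 < M)
    (h0 : Sup L S (b / S) (a / S) (B0 / S)) (h1 : Sup L S (b1 / S) (a1 / S) (B1 / S)) (hB : B0 + dB = B1)
    (hd : 0 < dB) (c1 : β ≤ B1) (c2 : M * (a * (B1 - β) + a1 * (β - B0)) ≤ X * dB)
    (c3 : b * (B1 - β) + b1 * (β - B0) ≤ bb * dB) : Sup L S (bb / S) ((X : ℝ) / (M * S)) (β / S) := by
  have hMr : (0 : ℝ) < M := by exact_mod_cast hM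
  have hdr : (0 : ℝ) < dB := by exact_mod_cast hd
  intro ν y G hν hy hG
  have k0 := h0 ν y G hν hy hG
  have k1 := h1 ν y G hν hy hG
  have e1 : ((B1 : ℕ) : ℝ) = B0 + dB := by exact_mod_cast hB.symm
  by_cases hβ : B0 ≤ β
  · have c2' : (M : ℝ) * (a * (B1 - β) + a1 * (β - B0)) ≤ X * dB := by
      have := (Nat.cast_le (α := ℝ)).2 c2
      push_cast [Nat.cast_sub c1, Nat.cast_sub hβ] at this
      exact this
    have c3' : (b : ℝ) * (B1 - β) + b1 * (β - B0) ≤ bb * dB := by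
      have := (Nat.cast_le (α := ℝ)).2 c3
      push_cast [Nat.cast_sub c1, Nat.cast_sub hβ] at this
      exact this
    have u0 : (0 : ℝ) ≤ B1 - β := by
      have := (Nat.cast_le (α := ℝ)).2 c1
      linarith
    have v0 : (0 : ℝ) ≤ β - B0 := by
      have := (Nat.cast_le (α := ℝ)).2 hβ
      linarith
    have m0 := mul_le_mul_of_nonneg_left k0 u0
    have m1 := mul_le_mul_of_nonneg_left k1 v0
    have e2 : (B1 : ℝ) - β + (β - B0) = dB := by
      rw [e1]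
      ring
    have m2 : ((B1 : ℝ) - β) * (-(a / S) + B0 / S * ν - b / S * y) +
        (β - B0) * (-(a1 / S) + B1 / S * ν - b1 / S * y) ≤ dB * G := by
      rw [← e2, add_mul]
      exact add_le_add m0 m1
    have e3 : ((B1 : ℝ) - β) * (-(a / S) + B0 / S * ν - b / S * y) +
        (β - B0) * (-(a1 / S) + B1 / S * ν - b1 / S * y) =
        -((a * (B1 - β) + a1 * (β - B0)) / S) + dB * (β / S * ν) -
          (b * (B1 - β) + b1 * (β - B0)) / S * y := by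
      rw [e1]
      field_simp
      ring
    rw [e3] at m2
    have n1 : ((a : ℝ) * (B1 - β) + a1 * (β - B0)) / S ≤ dB * (X / (M * S)) := by
      rw [show (dB : ℝ) * (X / (M * S)) = (X * dB) / M / S by field_simp]
      refine div_le_div_of_nonneg_right ?_ hS.le
      rw [le_div_iff₀ hMr]
      linarith
    have n2 : ((b : ℝ) * (B1 - β) + b1 * (β - B0)) / S * y ≤ dB * (bb / S) * y := by
      refine mul_le_mul_of_nonneg_right ?_ hy
      rw [show (dB : ℝ) * (bb / S) = (bb * dB) / S by ring]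
      exact div_le_div_of_nonneg_right c3' hS.le
    have n3 : (dB : ℝ) * (-(X / (M * S)) + β / S * ν - bb / S * y) ≤ dB * G := by linarith
    exact le_of_mul_le_mul_left n3 hdr
  · have hβ' : β - B0 = 0 := by omega
    rw [hβ', mul_zero, add_zero] at c2 c3
    have hu : dB ≤ B1 - β := by omega
    have c2' : M * a ≤ X := by
      have : M * a * dB ≤ X * dB := by
        calc M * a * dB ≤ M * a * (B1 - β) := Nat.mul_le_mul_left _ hu
          _ = M * (a * (B1 - β)) := by ring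
          _ ≤ X * dB := c2
      exact Nat.le_of_mul_le_mul_right this hd
    have c3' : b ≤ bb := by
      have : b * dB ≤ bb * dB := (Nat.mul_le_mul_left _ hu).trans c3
      exact Nat.le_of_mul_le_mul_right this hd
    have n1 : (a : ℝ) / S ≤ X / (M * S) := by
      rw [div_le_div_iff₀ hS (by positivity)]
      have : (M : ℝ) * a ≤ X := by exact_mod_cast c2'
      nlinarith
    have n2 : (b : ℝ) / S * y ≤ bb / S * y :=
      mul_le_mul_of_nonneg_right (div_le_div_of_nonneg_right (by exact_mod_cast c3') hS.le) hy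
    have n3 : (β : ℝ) / S * ν ≤ B0 / S * ν := by
      refine mul_le_mul_of_nonneg_right (div_le_div_of_nonneg_right ?_ hS.le) hν
      exact_mod_cast (by omega : β ≤ B0)
    linarith

theorem cor_sound {L : List (ℤ × ℤ × ℤ)} {S : ℝ} (hS : 0 < S) {M bb X β : ℕ} (hM : 0 < M) :
    ∀ {c : Chs}, c.Fits L S → cor M bb X β c = true → Sup L S (bb / S) ((X : ℝ) / (M * S)) (β / S)
  | .nil, _, h => absurd h (by simp [cor])
  | .cons B1 B0 dB a a1 b b1 t, ⟨h0, h1, hB, hd, ht⟩, h => by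
    have h' : bif' (Nat.ble β B1)
      (bif' (Nat.ble (Nat.mul M (Nat.add (Nat.mul a (Nat.sub B1 β)) (Nat.mul a1 (Nat.sub β B0)))) (Nat.mul X dB))
        (Nat.ble (Nat.add (Nat.mul b (Nat.sub B1 β)) (Nat.mul b1 (Nat.sub β B0))) (Nat.mul bb dB)) false)
      (cor M bb X β t) = true := h
    rw [bif'_eq] at h'
    split_ifs at h' with c
    · obtain ⟨k1, k2⟩ := bif'_false h'
      exact sup_chord hS hM h0 h1 hB hd (Nat.le_of_ble_eq_true c) (Nat.le_of_ble_eq_true k1)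
        (Nat.le_of_ble_eq_true k2)
    · exact cor_sound hS hM ht h'

/-- the rounded up coefficient at `β` (no proof needed) -/
def bof (β : ℕ) (c : Chs) : ℕ :=
  @Chs.rec (fun _ => ℕ) 0 (fun B1 B0 dB _ _ b b1 _ ih =>
    @Bool.rec (fun _ => ℕ) ih
      (Nat.div (Nat.add (Nat.add (Nat.mul b (Nat.sub B1 β)) (Nat.mul b1 (Nat.sub β B0))) (Nat.sub dB 1)) dB)
      (Nat.ble β B1)) c

/-- maximum, minimum -/
def mx (a b : ℕ) : ℕ := @Bool.rec (fun _ => ℕ) a b (Nat.ble a b)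

@[inherit_doc mx] def mnN (a b : ℕ) : ℕ := @Bool.rec (fun _ => ℕ) b a (Nat.ble a b)

/-- the first chord with `β ≤ B1` -/
def fnd (β : ℕ) (c : Chs) (k : Chs → Bool) : Bool :=
  @Chs.rec (fun _ => Bool) false (fun B1 B0 dB a a1 b b1 t ih =>
    bif' (Nat.ble β B1) (k (.cons B1 B0 dB a a1 b b1 t)) ih) c

theorem fnd_sound {L : List (ℤ × ℤ × ℤ)} {S : ℝ} {β : ℕ} {k : Chs → Bool} :
    ∀ {c : Chs}, c.Fits L S → fnd β c k = true → ∃ c' : Chs, c'.Fits L S ∧ k c' = true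
  | .nil, _, h => absurd h (by simp [fnd])
  | .cons B1 B0 dB a a1 b b1 t, hc, h => by
    have h' : bif' (Nat.ble β B1) (k (.cons B1 B0 dB a a1 b b1 t)) (fnd β t k) = true := h
    rw [bif'_eq] at h'
    split_ifs at h' with c
    · exact ⟨_, hc, h'⟩
    · exact fnd_sound hc.2.2.2.2 h'

/-- the start value of the first chord -/
def hdB (c : Chs) : ℕ := @Chs.rec (fun _ => ℕ) 0 (fun _ B0 _ _ _ _ _ _ _ => B0) c

/-- the test of one cell; `c` is the pointer, `C` the full list, `o` the offset of the entries -/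
def cellF (o H H1 H2 Kd M Wm j j1 jn jn1 : ℕ) (C c : Chs) (fm w0 w1 v0 v1 : ℕ) (k : Chs → Bool) : Bool :=
  bif' (Nat.ble w0 w1) (bif' (Nat.ble v0 v1) (bif' (Nat.ble v0 w0) (bif' (Nat.ble v1 w1)
  (bif' (Nat.ble w1 Wm)
  (frc (Nat.mul H (Nat.sub w1 w0)) fun D0 => frc (Nat.mul H (Nat.sub v1 v0)) fun D1 =>
  frc (Nat.sub (Nat.add w0 D0) (Nat.add o (Nat.mul j (Nat.sub w0 v0)))) fun b0 =>
  frc (Nat.sub (Nat.add w1 D0) (Nat.add o (Nat.mul j (Nat.sub w1 v1)))) fun b1 =>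
  frc (Nat.sub (Nat.add v0 D1) (Nat.add o (Nat.mul j1 (Nat.sub w0 v0)))) fun b2 =>
  frc (Nat.sub (Nat.add v1 D1) (Nat.add o (Nat.mul j1 (Nat.sub w1 v1)))) fun b3 =>
  frc (mnN (mnN b0 b1) (mnN b2 b3)) fun be =>
  fnd be (@Bool.rec (fun _ => Chs) C c (Nat.ble (hdB c) be)) fun C' =>
  frc (mx (mx (bof b0 C') (bof b1 C')) (mx (bof b2 C') (bof b3 C'))) fun bb =>
  frc (Nat.mul Kd D0) fun KD0 => frc (Nat.mul Kd D1) fun KD1 =>
  bif' (Nat.ble (Nat.mul bb jn) KD0) (bif' (Nat.ble (Nat.mul bb jn1) KD1)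
  (frc (Nat.sub KD0 (Nat.mul bb jn)) fun g0 => frc (Nat.sub KD1 (Nat.mul bb jn1)) fun g1 =>
  frc (Nat.mul fm H1) fun f1 => frc (Nat.mul fm H2) fun f2 =>
  bif' (cor M bb (Nat.mul f1 g0) b0 C') (bif' (cor M bb (Nat.mul f2 g0) b1 C')
  (bif' (cor M bb (Nat.mul f1 g1) b2 C') (bif' (cor M bb (Nat.mul f2 g1) b3 C') (k C')
    false) false) false) false) false) false) false) false) false) false) false

/-- what the test of a cell gives -/
def CG (L : List (ℤ × ℤ × ℤ)) (S H Kd n0 Wm j fm w0 w1 v0 v1 : ℤ) : Prop :=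
  CellP L S H Kd n0 j fm w0 w1 v0 v1 ∧ w0 ≤ w1 ∧ v0 ≤ v1 ∧ v0 ≤ w0 ∧ v1 ≤ w1 ∧ w1 ≤ Wm

theorem Sup.le_b {L : List (ℤ × ℤ × ℤ)} {S b α β β' : ℝ} (h : Sup L S b α β) (hβ : β' ≤ β) :
    Sup L S b α β' := by
  intro ν y G hν hy hG
  have h1 := h ν y G hν hy hG
  have h2 := mul_le_mul_of_nonneg_right hβ hν
  linarith

/-- a corner -/
theorem sup_corner {L : List (ℤ × ℤ × ℤ)} {S : ℕ} (hS : 0 < S) {M bb X β : ℕ} {X' β' : ℤ} (hX : (X : ℤ) = X')
    (hβ : β' ≤ (β : ℤ)) {M' : ℤ} (hM : (M : ℤ) = M')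
    (h : Sup L S (bb / S) ((X : ℝ) / (M * S)) (β / S)) :
    Sup L (S : ℤ) (((bb : ℤ) : ℝ) / (S : ℤ)) ((X' : ℝ) / ((M' : ℝ) * (S : ℤ))) ((β' : ℝ) / (S : ℤ)) := by
  have hSr : (0 : ℝ) < S := by exact_mod_cast hS
  subst hX hM
  have h1 : ((β' : ℤ) : ℝ) / S ≤ (β : ℝ) / S :=
    div_le_div_of_nonneg_right (by exact_mod_cast hβ) hSr.le
  have := h.le_b h1
  push_cast
  exact this

theorem bsel_fits {L : List (ℤ × ℤ × ℤ)} {S : ℝ} {C c : Chs} (hC : C.Fits L S) (hc : c.Fits L S) (b : Bool) :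
    (@Bool.rec (fun _ => Chs) C c b).Fits L S := by
  cases b
  · exact hC
  · exact hc

theorem cellF_sound {L : List (ℤ × ℤ × ℤ)} {S o H H1 H2 Kd n0 Wm j j1 jn jn1 : ℕ} (hS : 0 < S) (hH : 0 < H)
    (hK : 0 < Kd) (hH1 : H1 + 1 = 2 * H) (hH2 : H2 = 2 * H + 1) (hj1 : j1 = j + 1) (hjn : jn = j + n0)
    (hjn1 : jn1 = j + 1 + n0) {C c : Chs} (hC : C.Fits L S) (hc : c.Fits L S) {fm w0 w1 v0 v1 : ℕ}
    {k : Chs → Bool} (h : cellF o H H1 H2 Kd (2 * H * Kd * S) (Wm + o) j j1 jn jn1 C c fm w0 w1 v0 v1 k = true) :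
    CG L S H Kd n0 Wm j fm ((w0 : ℤ) - o) ((w1 : ℤ) - o) ((v0 : ℤ) - o) ((v1 : ℤ) - o) ∧
      ∃ c' : Chs, c'.Fits L S ∧ k c' = true := by
  have hSr : (0 : ℝ) < S := by exact_mod_cast hS
  unfold cellF at h
  obtain ⟨m1, h⟩ := bif'_false h
  obtain ⟨m2, h⟩ := bif'_false h
  obtain ⟨m3, h⟩ := bif'_false h
  obtain ⟨m4, h⟩ := bif'_false h
  obtain ⟨m5, h⟩ := bif'_false h
  replace m1 := Nat.le_of_ble_eq_true m1
  replace m2 := Nat.le_of_ble_eq_true m2
  replace m3 := Nat.le_of_ble_eq_true m3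
  replace m4 := Nat.le_of_ble_eq_true m4
  replace m5 := Nat.le_of_ble_eq_true m5
  rw [frc_eq, frc_eq, frc_eq, frc_eq, frc_eq, frc_eq, frc_eq] at h
  obtain ⟨C', hC', h⟩ := fnd_sound (bsel_fits hC hc _) h
  rw [frc_eq] at h
  revert h
  generalize (mx (mx (bof _ C') (bof _ C')) (mx (bof _ C') (bof _ C'))) = bb
  intro h
  rw [frc_eq, frc_eq] at h
  obtain ⟨g0, h⟩ := bif'_false h
  obtain ⟨g1, h⟩ := bif'_false h
  replace g0 := Nat.le_of_ble_eq_true g0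
  replace g1 := Nat.le_of_ble_eq_true g1
  rw [frc_eq, frc_eq, frc_eq, frc_eq] at h
  obtain ⟨c0, h⟩ := bif'_false h
  obtain ⟨c1, h⟩ := bif'_false h
  obtain ⟨c2, h⟩ := bif'_false h
  obtain ⟨c3, h⟩ := bif'_false h
  have hM : 0 < 2 * H * Kd * S := by positivity
  have s0 : Sup L S (bb / S) (((fm * H1 * (Kd * (H * (w1 - w0)) - bb * jn) : ℕ) : ℝ) /
      ((2 * H * Kd * S : ℕ) * S)) (((w0 + H * (w1 - w0) - (o + j * (w0 - v0)) : ℕ) : ℝ) / S) :=
    cor_sound hSr hM hC' c0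
  have s1 : Sup L S (bb / S) (((fm * H2 * (Kd * (H * (w1 - w0)) - bb * jn) : ℕ) : ℝ) /
      ((2 * H * Kd * S : ℕ) * S)) (((w1 + H * (w1 - w0) - (o + j * (w1 - v1)) : ℕ) : ℝ) / S) :=
    cor_sound hSr hM hC' c1
  have s2 : Sup L S (bb / S) (((fm * H1 * (Kd * (H * (v1 - v0)) - bb * jn1) : ℕ) : ℝ) /
      ((2 * H * Kd * S : ℕ) * S)) (((v0 + H * (v1 - v0) - (o + j1 * (w0 - v0)) : ℕ) : ℝ) / S) :=
    cor_sound hSr hM hC' c2
  have s3 : Sup L S (bb / S) (((fm * H2 * (Kd * (H * (v1 - v0)) - bb * jn1) : ℕ) : ℝ) /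
      ((2 * H * Kd * S : ℕ) * S)) (((v1 + H * (v1 - v0) - (o + j1 * (w1 - v1)) : ℕ) : ℝ) / S) :=
    cor_sound hSr hM hC' c3
  have g0' : bb * jn ≤ Kd * (H * (w1 - w0)) := g0
  have g1' : bb * jn1 ≤ Kd * (H * (v1 - v0)) := g1
  have eH1 : ((H1 : ℕ) : ℤ) = 2 * H - 1 := by omega
  have eH2 : ((H2 : ℕ) : ℤ) = 2 * H + 1 := by omega
  have e1 : ((w1 - w0 : ℕ) : ℤ) = ((w1 : ℤ) - o) - (w0 - o) := by omega
  have e2 : ((v1 - v0 : ℕ) : ℤ) = ((v1 : ℤ) - o) - (v0 - o) := by omega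
  have e3 : ((w0 - v0 : ℕ) : ℤ) = ((w0 : ℤ) - o) - (v0 - o) := by omega
  have e4 : ((w1 - v1 : ℕ) : ℤ) = ((w1 : ℤ) - o) - (v1 - o) := by omega
  have G0 : ((Kd * (H * (w1 - w0)) - bb * jn : ℕ) : ℤ) =
      Kd * (H * (((w1 : ℤ) - o) - (w0 - o))) - bb * (j + n0) := by
    rw [Int.ofNat_sub g0', hjn, Nat.cast_mul, Nat.cast_mul, Nat.cast_mul, e1, Nat.cast_add]
  have G1 : ((Kd * (H * (v1 - v0)) - bb * jn1 : ℕ) : ℤ) =
      Kd * (H * (((v1 : ℤ) - o) - (v0 - o))) - bb * (j + 1 + n0) := by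
    rw [Int.ofNat_sub g1', hjn1, Nat.cast_mul, Nat.cast_mul, Nat.cast_mul, e2, Nat.cast_add, Nat.cast_add,
      Nat.cast_one]
  have eM : ((2 * H * Kd * S : ℕ) : ℤ) = 2 * H * Kd * S := by push_cast; ring
  have key : ∀ a b : ℕ, (a : ℤ) - b ≤ ((a - b : ℕ) : ℤ) := fun a b => by omega
  have B : ∀ x y d : ℕ, ∀ D J K : ℤ, ((d : ℕ) : ℤ) = D → ((y : ℕ) : ℤ) = -(J * K) →
      ((x : ℤ) - o) + D + J * K ≤ ((x + d - (o + y) : ℕ) : ℤ) := by
    intro x y d D J K h1 h2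
    have := key (x + d) (o + y)
    push_cast at this
    rw [h1, h2] at this
    linarith
  refine ⟨⟨⟨(bb : ℤ), ?_, ?_, ?_, ?_, ?_, ?_⟩, by omega, by omega, by omega, by omega, by omega⟩, C', hC', h⟩
  · rw [← G0]
    exact Int.natCast_nonneg _
  · rw [← G1]
    exact Int.natCast_nonneg _
  · refine sup_corner hS ?_ (B _ _ _ _ _ _ ?_ ?_) eM s0
    · rw [← G0, ← eH1, Nat.cast_mul, Nat.cast_mul]
    · rw [Nat.cast_mul, e1]
    · rw [Nat.cast_mul, e3]
      ring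
  · refine sup_corner hS ?_ (B _ _ _ _ _ _ ?_ ?_) eM s1
    · rw [← G0, ← eH2, Nat.cast_mul, Nat.cast_mul]
    · rw [Nat.cast_mul, e1]
    · rw [Nat.cast_mul, e4]
      ring
  · refine sup_corner hS ?_ (B _ _ _ _ _ _ ?_ ?_) eM s2
    · rw [← G1, ← eH1, Nat.cast_mul, Nat.cast_mul]
    · rw [Nat.cast_mul, e2]
    · rw [Nat.cast_mul, e3, hj1]
      push_cast
      ring
  · refine sup_corner hS ?_ (B _ _ _ _ _ _ ?_ ?_) eM s3
    · rw [← G1, ← eH2, Nat.cast_mul, Nat.cast_mul]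
    · rw [Nat.cast_mul, e2]
    · rw [Nat.cast_mul, e4, hj1]
      push_cast
      ring

/-! ### zones -/

/-- zones: threshold and chords -/
inductive Zs where
  | nil : Zs
  | cons (thr : ℕ) (c : Chs) (t : Zs) : Zs

/-- all chords are supported -/
def Zs.Fits (L : List (ℤ × ℤ × ℤ)) (S : ℝ) : Zs → Prop
  | .nil => True
  | .cons _ c t => c.Fits L S ∧ t.Fits L S

/-- the chords of the first zone -/
def hdC (Z : Zs) : Chs := @Zs.rec (fun _ => Chs) .nil (fun _ c _ _ => c) Z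

/-- the first zone with `y ≤ thr`; the pointer restarts in a new zone -/
def zf (y : ℕ) (k : Zs → Chs → Bool) (Z : Zs) : Chs → Bool :=
  @Zs.rec (fun _ => Chs → Bool) (fun _ => false)
    (fun thr C t ih c => bif' (Nat.ble y thr) (k (.cons thr C t) c) (ih (hdC t))) Z

theorem hdC_fits {L : List (ℤ × ℤ × ℤ)} {S : ℝ} {Z : Zs} (h : Z.Fits L S) : (hdC Z).Fits L S := by
  cases Z with
  | nil => exact trivial
  | cons _ c t => exact h.1

theorem zf_sound {L : List (ℤ × ℤ × ℤ)} {S : ℝ} {y : ℕ} {k : Zs → Chs → Bool} :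
    ∀ {Z : Zs} {c : Chs}, Z.Fits L S → c.Fits L S → zf y k Z c = true →
      ∃ (Z' : Zs) (c' : Chs), Z'.Fits L S ∧ c'.Fits L S ∧ k Z' c' = true
  | .nil, _, _, _, h => absurd h (by simp [zf])
  | .cons thr C t, c, hZ, hc, h => by
    have h' : bif' (Nat.ble y thr) (k (.cons thr C t) c) (zf y k t (hdC t)) = true := h
    rw [bif'_eq] at h'
    split_ifs at h' with c0
    · exact ⟨_, _, hZ, hc, h'⟩
    · exact zf_sound hZ.2 (hdC_fits hZ.2) h'

/-! ### building the lists -/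

/-- the chords of a list of members -/
def mkC (l : List (ℤ × ℤ × ℤ)) : ℕ → ℕ → ℕ → (Chs → Bool) → Bool :=
  @List.rec (ℤ × ℤ × ℤ) (fun _ => ℕ → ℕ → ℕ → (Chs → Bool) → Bool)
    (fun _ _ _ k => k .nil)
    (fun e _ ih a0 B0 b0 k =>
      iN e.1 fun a1 => iN e.2.1 fun B1 => iN e.2.2 fun b1 =>
        bif' (Nat.ble (Nat.succ B0) B1)
          (frc (Nat.sub B1 B0) fun dB => ih a1 B1 b1 fun t => k (.cons B1 B0 dB a0 a1 b0 b1 t)) false) l

theorem sup_mem {L : List (ℤ × ℤ × ℤ)} {S : ℝ} {a B b : ℕ} (h : ((a : ℤ), (B : ℤ), (b : ℤ)) ∈ L) :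
    Sup L S (b / S) (a / S) (B / S) := by
  intro ν y G _ _ hG
  simpa using hG _ h

theorem mkC_sound {L : List (ℤ × ℤ × ℤ)} {S : ℝ} : ∀ {l : List (ℤ × ℤ × ℤ)} {a0 B0 b0 : ℕ} {k : Chs → Bool},
    (∀ e ∈ l, e ∈ L) → Sup L S (b0 / S) (a0 / S) (B0 / S) → mkC l a0 B0 b0 k = true →
      (∀ e ∈ l, 0 ≤ e.2.2) ∧ ∃ C : Chs, C.Fits L S ∧ k C = true
  | [], a0, B0, b0, k, _, _, h => ⟨fun e he => by simp at he, .nil, trivial, h⟩
  | e :: l, a0, B0, b0, k, hl, h0, h => by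
    have h' : (iN e.1 fun a1 => iN e.2.1 fun B1 => iN e.2.2 fun b1 =>
        bif' (Nat.ble (Nat.succ B0) B1)
          (frc (Nat.sub B1 B0) fun dB => mkC l a1 B1 b1 fun t => k (.cons B1 B0 dB a0 a1 b0 b1 t)) false) =
          true := h
    obtain ⟨a1, ea, h'⟩ := iN_eq h'
    obtain ⟨B1, eB, h'⟩ := iN_eq h'
    obtain ⟨b1, eb, h'⟩ := iN_eq h'
    obtain ⟨hb, h'⟩ := bif'_false h'
    rw [frc_eq] at h'
    have he : ((a1 : ℤ), (B1 : ℤ), (b1 : ℤ)) ∈ L := by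
      rw [← ea, ← eB, ← eb]
      exact hl e (by simp)
    have hB := Nat.le_of_ble_eq_true hb
    obtain ⟨k1, C, hC, hk⟩ := mkC_sound (fun x hx => hl x (List.mem_cons_of_mem _ hx)) (sup_mem he) h'
    refine ⟨fun x hx => ?_, .cons B1 B0 (B1 - B0) a0 a1 b0 b1 C, ⟨h0, sup_mem he, ?_, ?_, hC⟩, hk⟩
    · rcases List.mem_cons.1 hx with hx | hx
      · rw [hx, eb]
        exact Int.natCast_nonneg _
      · exact k1 x hx
    · omega
    · omega

/-- the chords of a zone: a flat chord to the first member, then the chords of the list -/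
def mkL (l : List (ℤ × ℤ × ℤ)) (k : Chs → Bool) : Bool :=
  @List.rec (ℤ × ℤ × ℤ) (fun _ => Bool) false (fun e t _ =>
    iN e.1 fun a => iN e.2.1 fun B => iN e.2.2 fun b =>
      bif' (Nat.ble 1 B) (mkC t a B b fun C => k (.cons B 0 B a a b b C)) false) l

theorem mkL_sound {L : List (ℤ × ℤ × ℤ)} {S : ℝ} (hS : 0 < S) {l : List (ℤ × ℤ × ℤ)} {k : Chs → Bool}
    (hl : ∀ e ∈ l, e ∈ L) (h : mkL l k = true) :
    (∀ e ∈ l, 0 ≤ e.2.2) ∧ ∃ C : Chs, C.Fits L S ∧ k C = true := by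
  cases l with
  | nil => exact absurd h (by simp [mkL])
  | cons e t =>
    have h' : (iN e.1 fun a => iN e.2.1 fun B => iN e.2.2 fun b =>
      bif' (Nat.ble 1 B) (mkC t a B b fun C => k (.cons B 0 B a a b b C)) false) = true := h
    obtain ⟨a, ea, h'⟩ := iN_eq h'
    obtain ⟨B, eB, h'⟩ := iN_eq h'
    obtain ⟨b, eb, h'⟩ := iN_eq h'
    obtain ⟨hb, h'⟩ := bif'_false h'
    have hB : 0 < B := Nat.le_of_ble_eq_true hb
    have he : ((a : ℤ), (B : ℤ), (b : ℤ)) ∈ L := by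
      rw [← ea, ← eB, ← eb]
      exact hl e (by simp)
    have hs : Sup L S (b / S) (a / S) (B / S) := sup_mem he
    obtain ⟨k1, C, hC, hk⟩ := mkC_sound (fun x hx => hl x (List.mem_cons_of_mem _ hx)) hs h'
    refine ⟨fun x hx => ?_, .cons B 0 B a a b b C, ⟨hs.le_b ?_, hs, by omega, hB, hC⟩, hk⟩
    · rcases List.mem_cons.1 hx with hx | hx
      · rw [hx, eb]
        exact Int.natCast_nonneg _
      · exact k1 x hx
    · simp only [Nat.cast_zero, zero_div]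
      positivity

/-- the zones of a table -/
def mkZ (l : List (ℤ × List (ℤ × ℤ × ℤ))) : (Zs → Bool) → Bool :=
  @List.rec (ℤ × List (ℤ × ℤ × ℤ)) (fun _ => (Zs → Bool) → Bool) (fun k => k .nil)
    (fun z _ ih k => iN z.1 fun thr => mkL z.2 fun C => ih fun Z => k (.cons thr C Z)) l

theorem mkZ_sound {L : List (ℤ × ℤ × ℤ)} {S : ℝ} (hS : 0 < S) :
    ∀ {l : List (ℤ × List (ℤ × ℤ × ℤ))} {k : Zs → Bool}, (∀ z ∈ l, ∀ e ∈ z.2, e ∈ L) →
      mkZ l k = true → (∀ z ∈ l, ∀ e ∈ z.2, 0 ≤ e.2.2) ∧ ∃ Z : Zs, Z.Fits L S ∧ k Z = true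
  | [], k, _, h => ⟨fun z hz => by simp at hz, .nil, trivial, h⟩
  | z :: l, k, hl, h => by
    have h' : (iN z.1 fun thr => mkL z.2 fun C => mkZ l fun Z => k (.cons thr C Z)) = true := h
    obtain ⟨thr, -, h'⟩ := iN_eq h'
    obtain ⟨k1, C, hC, hk⟩ := mkL_sound hS (fun e he => hl z (by simp) e he) h'
    obtain ⟨k2, Z, hZ, hk2⟩ := mkZ_sound hS (fun x hx => hl x (List.mem_cons_of_mem _ hx)) hk
    refine ⟨fun x hx => ?_, .cons thr C Z, ⟨hC, hZ⟩, hk2⟩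
    rcases List.mem_cons.1 hx with hx | hx
    · rw [hx]
      exact k1
    · exact k2 x hx

/-- the midpoint values, one per entry of a list -/
def mkF (E S : ℕ) (w : List ℤ) : ℕ → (List ℕ → Bool) → Bool :=
  @List.rec ℤ (fun _ => ℕ → (List ℕ → Bool) → Bool) (fun _ k => k [])
    (fun _ _ ih fm k => frc (Nat.div (Nat.mul fm E) S) fun fm' => ih fm' fun l => k (fm :: l)) w

theorem mkF_sound {T : Tab} {E S : ℕ} (hE : T.E = E) (hS : T.S = S) : ∀ {w : List ℤ} {fm : ℕ}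
    {k : List ℕ → Bool} {i₀ : ℕ}, T.fm i₀ = fm → mkF E S w fm k = true →
      ∃ F : List ℕ, F.length = w.length ∧ (∀ i < F.length, ((F.getD i 0 : ℕ) : ℤ) = T.fm (i₀ + i)) ∧ k F = true
  | [], fm, k, i₀, _, h => ⟨[], rfl, fun i hi => by simp at hi, h⟩
  | x :: w, fm, k, i₀, hf, h => by
    have h' : (frc (Nat.div (Nat.mul fm E) S) fun fm' => mkF E S w fm' fun l => k (fm :: l)) = true := h
    rw [frc_eq] at h'
    have e1 : T.fm (i₀ + 1) = ((Nat.div (Nat.mul fm E) S : ℕ) : ℤ) := by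
      change T.fm i₀ * T.E / T.S = ((fm * E / S : ℕ) : ℤ)
      rw [hf, hE, hS]
      push_cast
      rfl
    obtain ⟨F, f1, f2, f3⟩ := mkF_sound hE hS e1 h'
    refine ⟨fm :: F, by simp [f1], fun i hi => ?_, f3⟩
    cases i with
    | zero => simpa using hf.symm
    | succ i =>
      have := f2 i (by simpa using hi)
      have e : i₀ + 1 + i = i₀ + (i + 1) := by ring
      rw [e] at this
      simpa using this

/-! ### rows -/

/-- an integer with the offset `o` as a natural number -/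
def iM (o : ℕ) (z : ℤ) (k : ℕ → Bool) : Bool :=
  @Int.rec (fun _ => Bool) (fun n => frc (Nat.add n o) k)
    (fun n => bif' (Nat.ble (Nat.succ n) o) (frc (Nat.sub o (Nat.succ n)) k) false) z

theorem iM_eq {o : ℕ} {z : ℤ} {k : ℕ → Bool} (h : iM o z k = true) : ∃ n : ℕ, z = (n : ℤ) - o ∧ k n = true := by
  cases z with
  | ofNat n =>
    have h' : frc (Nat.add n o) k = true := h
    rw [frc_eq] at h'
    refine ⟨n + o, ?_, h'⟩
    push_cast
    simp
  | negSucc n =>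
    have h' : bif' (Nat.ble (Nat.succ n) o) (frc (Nat.sub o (Nat.succ n)) k) false = true := h
    obtain ⟨h1, h2⟩ := bif'_false h'
    rw [frc_eq] at h2
    have h3 : n + 1 ≤ o := Nat.le_of_ble_eq_true h1
    refine ⟨o - (n + 1), ?_, h2⟩
    omega

/-- head and tail of a list of integers -/
def lc (o : ℕ) (l : List ℤ) (k : ℕ → List ℤ → Bool) : Bool :=
  @List.rec ℤ (fun _ => Bool) false (fun z t _ => iM o z fun n => k n t) l

theorem lc_eq {o : ℕ} {l : List ℤ} {k : ℕ → List ℤ → Bool} (h : lc o l k = true) :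
    ∃ (n : ℕ) (t : List ℤ), l = ((n : ℤ) - o) :: t ∧ k n t = true := by
  cases l with
  | nil => exact absurd h (by simp [lc])
  | cons z t =>
    obtain ⟨n, e, h'⟩ := iM_eq (h : (iM o z fun n => k n t) = true)
    exact ⟨n, t, by rw [e], h'⟩

/-- empty list -/
def isN (l : List ℤ) : Bool := @List.rec ℤ (fun _ => Bool) true (fun _ _ _ => false) l

theorem isN_eq {l : List ℤ} (h : isN l = true) : l = [] := by
  cases l with
  | nil => rfl
  | cons z t => exact absurd h (by simp [isN])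

/-- a pair of rows -/
def rowF (o H H1 H2 Kd M Wm jn2 j j1 jn jn1 : ℕ) (F : List ℕ) : Zs → Chs → ℕ → ℕ → List ℤ → List ℤ → Bool :=
  @List.rec ℕ (fun _ => Zs → Chs → ℕ → ℕ → List ℤ → List ℤ → Bool)
    (fun _ _ _ _ w v => bif' (isN w) (isN v) false)
    (fun fm _ ih Z c w0 v0 w v => lc o w fun w1 w' => lc o v fun v1 v' =>
      zf (Nat.mul fm jn2) (fun Z' c' =>
        cellF o H H1 H2 Kd M Wm j j1 jn jn1 (hdC Z') c' fm w0 w1 v0 v1 fun c'' => ih Z' c'' w1 v1 w' v') Z c) F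

theorem rowF_sound {L : List (ℤ × ℤ × ℤ)} {S o H H1 H2 Kd n0 Wm jn2 j j1 jn jn1 : ℕ} (hS : 0 < S) (hH : 0 < H)
    (hK : 0 < Kd) (hH1 : H1 + 1 = 2 * H) (hH2 : H2 = 2 * H + 1) (hj1 : j1 = j + 1) (hjn : jn = j + n0)
    (hjn1 : jn1 = j + 1 + n0) : ∀ {F : List ℕ} {Z : Zs} {c : Chs} {w0 v0 : ℕ} {w v : List ℤ},
    Z.Fits L S → c.Fits L S → rowF o H H1 H2 Kd (2 * H * Kd * S) (Wm + o) jn2 j j1 jn jn1 F Z c w0 v0 w v = true →
    w.length = F.length ∧ v.length = F.length ∧ ∀ i < F.length,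
      CG L S H Kd n0 Wm j (F.getD i 0 : ℕ) ((((w0 : ℤ) - o) :: w).getD i 0) ((((w0 : ℤ) - o) :: w).getD (i + 1) 0)
        ((((v0 : ℤ) - o) :: v).getD i 0) ((((v0 : ℤ) - o) :: v).getD (i + 1) 0)
  | [], Z, c, w0, v0, w, v, _, _, h => by
    obtain ⟨h1, h2⟩ := bif'_false (h : bif' (isN w) (isN v) false = true)
    rw [isN_eq h1, isN_eq h2]
    exact ⟨rfl, rfl, fun i hi => by simp at hi⟩
  | fm :: F, Z, c, w0, v0, w, v, hZ, hc, h => by
    have h' : (lc o w fun w1 w' => lc o v fun v1 v' =>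
      zf (Nat.mul fm jn2) (fun Z' c' =>
        cellF o H H1 H2 Kd (2 * H * Kd * S) (Wm + o) j j1 jn jn1 (hdC Z') c' fm w0 w1 v0 v1 fun c'' =>
          rowF o H H1 H2 Kd (2 * H * Kd * S) (Wm + o) jn2 j j1 jn jn1 F Z' c'' w1 v1 w' v') Z c) = true := h
    obtain ⟨w1, w', ew, h'⟩ := lc_eq h'
    obtain ⟨v1, v', ev, h'⟩ := lc_eq h'
    obtain ⟨Z', c', hZ', hc', h'⟩ := zf_sound hZ hc h'
    obtain ⟨g, c'', hc'', h'⟩ := cellF_sound hS hH hK hH1 hH2 hj1 hjn hjn1 (hdC_fits hZ') hc' h'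
    obtain ⟨l1, l2, l3⟩ := rowF_sound hS hH hK hH1 hH2 hj1 hjn hjn1 hZ' hc'' h'
    rw [ew, ev]
    refine ⟨by simp [l1], by simp [l2], fun i hi => ?_⟩
    cases i with
    | zero => simpa using g
    | succ i => simpa using l3 i (by simpa using hi)

/-- all rows -/
def rowsF (T : Tab) (o H H1 H2 Kd M Wm n0 : ℕ) (F : List ℕ) (Z : Zs) (R : List (List ℤ)) : ℕ → Bool :=
  @List.rec (List ℤ) (fun _ => ℕ → Bool) (fun _ => false)
    (fun w R' ih j => @List.rec (List ℤ) (fun _ => Bool) true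
      (fun v _ _ => bif' (leftOk T j w v) (lc o w fun w0 w' => lc o v fun v0 v' =>
        frc (Nat.succ j) fun j1 => frc (Nat.add j n0) fun jn => frc (Nat.succ jn) fun jn1 =>
        frc (Nat.add (Nat.mul 2 jn) 1) fun jn2 =>
          bif' (rowF o H H1 H2 Kd M Wm jn2 j j1 jn jn1 F Z (hdC Z) w0 v0 w' v') (ih j1) false) false) R') R

theorem rowsF_sound {T : Tab} {L : List (ℤ × ℤ × ℤ)} {S o H H1 H2 Kd n0 Wm : ℕ} (hS : 0 < S) (hH : 0 < H)
    (hK : 0 < Kd) (hH1 : H1 + 1 = 2 * H) (hH2 : H2 = 2 * H + 1) {F : List ℕ} {Z : Zs} (hZ : Z.Fits L S) :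
    ∀ {R : List (List ℤ)} {j₀ : ℕ}, rowsF T o H H1 H2 Kd (2 * H * Kd * S) (Wm + o) n0 F Z R j₀ = true →
      1 ≤ R.length ∧ ∀ j : ℕ, j + 1 < R.length →
        leftOk T ((j₀ + j : ℕ) : ℤ) (R.getD j []) (R.getD (j + 1) []) = true ∧
        (R.getD j []).length = F.length + 1 ∧ (R.getD (j + 1) []).length = F.length + 1 ∧
        ∀ i < F.length, CG L S H Kd n0 Wm ((j₀ + j : ℕ) : ℤ) (F.getD i 0 : ℕ) ((R.getD j []).getD i 0)
          ((R.getD j []).getD (i + 1) 0) ((R.getD (j + 1) []).getD i 0) ((R.getD (j + 1) []).getD (i + 1) 0)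
  | [], _, h => absurd h (by simp [rowsF])
  | [w], j₀, h => ⟨by simp, fun j hj => by simp at hj⟩
  | w :: v :: R, j₀, h => by
    have h' : bif' (leftOk T j₀ w v) (lc o w fun w0 w' => lc o v fun v0 v' =>
        frc (Nat.succ j₀) fun j1 => frc (Nat.add j₀ n0) fun jn => frc (Nat.succ jn) fun jn1 =>
        frc (Nat.add (Nat.mul 2 jn) 1) fun jn2 =>
          bif' (rowF o H H1 H2 Kd (2 * H * Kd * S) (Wm + o) jn2 j₀ j1 jn jn1 F Z (hdC Z) w0 v0 w' v')
            (rowsF T o H H1 H2 Kd (2 * H * Kd * S) (Wm + o) n0 F Z (v :: R) j1) false) false = true := h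
    obtain ⟨k1, h'⟩ := bif'_false h'
    obtain ⟨w0, w', ew, h'⟩ := lc_eq h'
    obtain ⟨v0, v', ev, h'⟩ := lc_eq h'
    rw [frc_eq, frc_eq, frc_eq, frc_eq] at h'
    obtain ⟨k2, h'⟩ := bif'_false h'
    obtain ⟨l1, l2, l3⟩ := rowF_sound (j1 := Nat.succ j₀) (jn := Nat.add j₀ n0) (n0 := n0)
      (jn1 := Nat.succ (Nat.add j₀ n0)) hS hH hK hH1 hH2 rfl rfl
      (by
        change j₀ + n0 + 1 = j₀ + 1 + n0
        omega) hZ (hdC_fits hZ) k2
    obtain ⟨-, m2⟩ := rowsF_sound hS hH hK hH1 hH2 hZ h'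
    refine ⟨by simp, fun j hj => ?_⟩
    cases j with
    | zero =>
      refine ⟨by simpa using k1, by simp [ew, l1], by simp [ev, l2], fun i hi => ?_⟩
      have := l3 i hi
      simpa [ew, ev] using this
    | succ j =>
      have := m2 j (by simpa using hj)
      have e : Nat.succ j₀ + j = j₀ + (j + 1) := by omega
      rw [e] at this
      simpa using this

/-- **the fast test** (entries at least `-100`) -/
def Tab.fast (T : Tab) : Bool :=
  iN T.S fun S => iN T.H fun H => iN T.Kd fun Kd => iN T.n0 fun n0 => iN T.Wm fun Wm => iN T.f0 fun f0 =>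
  iN T.E fun E => iN T.B0 fun B0 => iN T.b0 fun b0 =>
  bif' (Nat.ble 1 S) (bif' (Nat.ble 1 H) (bif' (Nat.ble 1 Kd) (bif' (Nat.ble 1 f0) (bif' (Nat.ble 1 E)
  (bif' (Nat.ble 1 B0) (bif' (Nat.ble (Nat.mul E (Nat.mul 6 (Nat.mul H (Nat.mul H H))))
    (Nat.mul S (Nat.add (Nat.mul 6 (Nat.mul H (Nat.mul H H))) (Nat.add (Nat.mul 6 (Nat.mul H H))
      (Nat.add (Nat.mul 3 H) 1)))))
  (frc (Nat.sub (Nat.mul 2 H) 1) fun H1 => frc (Nat.add (Nat.mul 2 H) 1) fun H2 =>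
  frc (Nat.mul (Nat.mul (Nat.mul 2 H) Kd) S) fun M =>
  frc (Nat.div (Nat.mul f0 H2) (Nat.mul 2 H)) fun fm0 =>
  frc (Nat.mul 100 S) fun o => frc (Nat.add Wm o) fun Wo =>
  mkZ T.mem fun Z => mkF E S (T.W.getD 0 []).tail fm0 fun F =>
    rowsF T o H H1 H2 Kd M Wo n0 F Z T.W 0) false) false) false) false) false) false) false

theorem iN_cast {z : ℤ} {n : ℕ} (h : z = n) : (0 : ℤ) ≤ z := by
  rw [h]
  exact Int.natCast_nonneg _

/-- what the fast test gives -/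
theorem Tab.fast_good {T : Tab} (h : T.fast = true) (hJ : 0 < T.J) (hI : 0 < T.I) :
    T.Good ∧ ∀ j < T.J, ∀ i < T.I, T.w j i ≤ T.w j (i + 1) ∧ T.w (j + 1) i ≤ T.w (j + 1) (i + 1) ∧
      T.w (j + 1) i ≤ T.w j i ∧ T.w (j + 1) (i + 1) ≤ T.w j (i + 1) := by
  unfold Tab.fast at h
  obtain ⟨S, eS, h⟩ := iN_eq h
  obtain ⟨H, eH, h⟩ := iN_eq h
  obtain ⟨Kd, eK, h⟩ := iN_eq h
  obtain ⟨n0, en, h⟩ := iN_eq h
  obtain ⟨Wm, eW, h⟩ := iN_eq h
  obtain ⟨f0, ef, h⟩ := iN_eq h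
  obtain ⟨E, eE, h⟩ := iN_eq h
  obtain ⟨B0, eB, h⟩ := iN_eq h
  obtain ⟨b0, eb, h⟩ := iN_eq h
  obtain ⟨a1, h⟩ := bif'_false h
  obtain ⟨a2, h⟩ := bif'_false h
  obtain ⟨a3, h⟩ := bif'_false h
  obtain ⟨a4, h⟩ := bif'_false h
  obtain ⟨a5, h⟩ := bif'_false h
  obtain ⟨a6, h⟩ := bif'_false h
  obtain ⟨a7, h⟩ := bif'_false h
  replace a1 : 0 < S := Nat.le_of_ble_eq_true a1
  replace a2 : 0 < H := Nat.le_of_ble_eq_true a2
  replace a3 : 0 < Kd := Nat.le_of_ble_eq_true a3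
  replace a4 : 0 < f0 := Nat.le_of_ble_eq_true a4
  replace a5 : 0 < E := Nat.le_of_ble_eq_true a5
  replace a6 : 0 < B0 := Nat.le_of_ble_eq_true a6
  replace a7 : E * (6 * (H * (H * H))) ≤ S * (6 * (H * (H * H)) + (6 * (H * H) + (3 * H + 1))) :=
    Nat.le_of_ble_eq_true a7
  rw [frc_eq, frc_eq, frc_eq, frc_eq, frc_eq, frc_eq] at h
  have hSr : (0 : ℝ) < S := by exact_mod_cast a1
  obtain ⟨b1, Z, hZ, h⟩ := mkZ_sound hSr (fun z hz e he => List.mem_cons_of_mem _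
    (List.mem_flatMap.2 ⟨z, hz, he⟩)) h
  have hf0 : T.fm 0 = ((Nat.div (Nat.mul f0 (Nat.add (Nat.mul 2 H) 1)) (Nat.mul 2 H) : ℕ) : ℤ) := by
    change T.f0 * (2 * T.H + 1) / (2 * T.H) = ((f0 * (2 * H + 1) / (2 * H) : ℕ) : ℤ)
    rw [ef, eH]
    push_cast
    rfl
  obtain ⟨F, f1, f2, h⟩ := mkF_sound eE eS hf0 h
  have hH1 : Nat.sub (Nat.mul 2 H) 1 + 1 = 2 * H := by
    change 2 * H - 1 + 1 = 2 * H
    omega
  obtain ⟨r1, r2⟩ := rowsF_sound (T := T) (n0 := n0) a1 a2 a3 hH1 rfl hZ h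
  have hW0 : (T.W.getD 0 []).length = F.length + 1 := by
    have hJ' : 0 + 1 < T.W.length := by
      unfold Tab.J at hJ
      omega
    exact (r2 0 hJ').2.1
  have hFI : T.I = F.length := by
    unfold Tab.I
    omega
  have key : ∀ i j : ℕ, i < T.I → j < T.J → CG T.L S H Kd n0 Wm j (T.fm i) (T.w j i) (T.w j (i + 1))
      (T.w (j + 1) i) (T.w (j + 1) (i + 1)) := fun i j hi hj => by
    have hj' : j + 1 < T.W.length := by
      unfold Tab.J at hj
      omega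
    have := (r2 j hj').2.2.2 i (by omega)
    rw [f2 i (by omega), zero_add, zero_add] at this
    exact this
  have hlen : ∀ j, j < T.W.length → (T.W.getD j []).length = F.length + 1 := fun j hj => by
    cases j with
    | zero => exact hW0
    | succ j => exact (r2 j hj).2.2.1
  refine ⟨⟨by rw [eS]; exact_mod_cast a1, by rw [eH]; exact_mod_cast a2, by rw [eK]; exact_mod_cast a3,
    by rw [ef]; exact_mod_cast a4, by rw [eE]; exact_mod_cast a5, iN_cast eb, iN_cast en, iN_cast eB, ?_, ?_, ?_,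
    fun j hj => by rw [hlen j hj, hW0], fun i j hi hj => ?_, fun j hj => ?_⟩, fun j hj i hi => ?_⟩
  · intro e he
    rcases List.mem_cons.1 he with he | he
    · rw [he]
      exact iN_cast eb
    · obtain ⟨z, hz, he⟩ := List.mem_flatMap.1 he
      exact b1 z hz e he
  · intro r hr x hx
    obtain ⟨j, hj, rfl⟩ := List.mem_iff_getElem.1 hr
    obtain ⟨i, hi, rfl⟩ := List.mem_iff_getElem.1 hx
    have e1 : T.w j i = T.W[j][i] := by
      unfold Tab.w
      rw [List.getD_eq_getElem _ _ hj, List.getD_eq_getElem _ _ hi]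
    rw [← e1, eW]
    have hi' : i < F.length + 1 := by
      have := hlen j hj
      rw [List.getD_eq_getElem _ _ hj] at this
      omega
    have hJ2 : T.J + 1 = T.W.length := by
      unfold Tab.J at hJ ⊢
      omega
    have top : ∀ j' < T.J, ∀ i' ≤ T.I, 0 < T.I → T.w j' i' ≤ Wm := fun j' hj' i' hi' h0 => by
      cases i' with
      | zero =>
        obtain ⟨-, k1, -, -, -, k5⟩ := key 0 j' h0 hj'
        exact k1.trans k5
      | succ i' =>
        obtain ⟨-, -, -, -, -, k5⟩ := key i' j' (by omega) hj'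
        exact k5
    have hI0 : 0 < T.I := hI
    by_cases hjJ : j < T.J
    · exact top j hjJ i (by omega) hI0
    · obtain ⟨j', rfl⟩ : ∃ j', j = j' + 1 := ⟨T.J - 1, by omega⟩
      cases i with
      | zero =>
        obtain ⟨-, -, -, k3, -, -⟩ := key 0 j' hI0 (by omega)
        exact k3.trans (top j' (by omega) 0 (by omega) hI0)
      | succ i' =>
        obtain ⟨-, -, -, -, k4, -⟩ := key i' j' (by omega) (by omega)
        exact k4.trans (top j' (by omega) (i' + 1) (by omega) hI0)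
  · rw [eE, eS, eH]
    have : ((E * (6 * (H * (H * H))) : ℕ) : ℤ) ≤
      ((S * (6 * (H * (H * H)) + (6 * (H * H) + (3 * H + 1))) : ℕ) : ℤ) := by exact_mod_cast a7
    push_cast at this
    nlinarith
  · have := (key i j hi hj).1
    rw [eS, eH, eK, en]
    exact this
  · have hj' : j + 1 < T.W.length := by
      unfold Tab.J at hj
      omega
    have k1 := (r2 j hj').1
    rw [zero_add] at k1
    unfold Tab.w
    cases e1 : T.W.getD j [] with
    | nil =>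
      rw [e1] at k1
      simp [leftOk] at k1
    | cons w0 w =>
      cases e2 : T.W.getD (j + 1) [] with
      | nil =>
        rw [e1, e2] at k1
        simp [leftOk] at k1
      | cons v0 v =>
        rw [e1, e2] at k1
        simp only [leftOk, Bool.and_eq_true, decide_eq_true_eq] at k1
        simpa using k1
  · obtain ⟨-, k1, k2, k3, k4, -⟩ := key i j hi hj
    exact ⟨k1, k2, k3, k4⟩

/-! ### the upper bound of the density -/

/-- the last midpoint value -/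
def lastF (E S : ℕ) (w : List ℤ) : ℕ → (ℕ → Bool) → Bool :=
  @List.rec ℤ (fun _ => ℕ → (ℕ → Bool) → Bool) (fun fm k => k fm)
    (fun _ _ ih fm k => frc (Nat.div (Nat.mul fm E) S) fun fm' => ih fm' k) w

theorem lastF_sound {T : Tab} {E S : ℕ} (hE : T.E = E) (hS : T.S = S) : ∀ {w : List ℤ} {fm : ℕ}
    {k : ℕ → Bool} {i₀ : ℕ}, T.fm i₀ = fm → lastF E S w fm k = true →
      ∃ g : ℕ, T.fm (i₀ + w.length) = g ∧ k g = true
  | [], fm, k, i₀, hf, h => ⟨fm, by simpa using hf, h⟩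
  | x :: w, fm, k, i₀, hf, h => by
    have h' : (frc (Nat.div (Nat.mul fm E) S) fun fm' => lastF E S w fm' k) = true := h
    rw [frc_eq] at h'
    have e1 : T.fm (i₀ + 1) = ((Nat.div (Nat.mul fm E) S : ℕ) : ℤ) := by
      change T.fm i₀ * T.E / T.S = ((fm * E / S : ℕ) : ℤ)
      rw [hf, hE, hS]
      push_cast
      rfl
    obtain ⟨g, g1, g2⟩ := lastF_sound hE hS e1 h'
    refine ⟨g, ?_, g2⟩
    rw [← g1]
    congr 1
    simp only [List.length_cons]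
    ring

/-- `p / q ≤ f0 exp (I / H)` -/
def Tab.nOk (T : Tab) (p q : ℕ) : Bool :=
  iN T.S fun S => iN T.H fun H => iN T.f0 fun f0 => iN T.E fun E =>
  bif' (Nat.ble 1 q) (frc (Nat.div (Nat.mul f0 (Nat.add (Nat.mul 2 H) 1)) (Nat.mul 2 H)) fun fm0 =>
    lastF E S (T.W.getD 0 []).tail.tail fm0 fun g => Nat.ble (Nat.mul p S) (Nat.mul g q)) false

theorem Tab.nOk_sound {T : Tab} (hT : T.Good) (hI : 0 < T.I) {p q : ℕ} (h : T.nOk p q = true) :
    ((p : ℝ) / q) ≤ (T.f0 : ℝ) / T.S * Real.exp ((T.I : ℝ) / T.H) := by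
  unfold Tab.nOk at h
  obtain ⟨S, eS, h⟩ := iN_eq h
  obtain ⟨H, eH, h⟩ := iN_eq h
  obtain ⟨f0, ef, h⟩ := iN_eq h
  obtain ⟨E, eE, h⟩ := iN_eq h
  obtain ⟨a1, h⟩ := bif'_false h
  rw [frc_eq] at h
  have hq : 0 < q := Nat.le_of_ble_eq_true a1
  have hf0 : T.fm 0 = ((Nat.div (Nat.mul f0 (Nat.add (Nat.mul 2 H) 1)) (Nat.mul 2 H) : ℕ) : ℤ) := by
    change T.f0 * (2 * T.H + 1) / (2 * T.H) = ((f0 * (2 * H + 1) / (2 * H) : ℕ) : ℤ)
    rw [ef, eH]
    push_cast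
    rfl
  obtain ⟨g, g1, g2⟩ := lastF_sound eE eS hf0 h
  have hg : p * S ≤ g * q := Nat.le_of_ble_eq_true g2
  have el : 0 + (T.W.getD 0 []).tail.tail.length = T.I - 1 := by
    unfold Tab.I
    rw [List.length_tail, List.length_tail]
    omega
  rw [el] at g1
  have hSr : (0 : ℝ) < T.S := by exact_mod_cast hT.S
  have hHr : (0 : ℝ) < T.H := by exact_mod_cast hT.H
  have hfr : (0 : ℝ) < T.f0 := by exact_mod_cast hT.f
  have hqr : (0 : ℝ) < q := by exact_mod_cast hq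
  obtain ⟨-, f1⟩ := T.fm_le hT.S hT.H hT.f hT.E hT.e (T.I - 1)
  rw [g1] at f1
  have h1 : (p : ℝ) / q ≤ ((g : ℤ) : ℝ) / T.S := by
    rw [div_le_div_iff₀ hqr hSr, eS]
    exact_mod_cast hg
  refine h1.trans (f1.trans (mul_le_mul_of_nonneg_left (Real.exp_le_exp.2 ?_) (by positivity)))
  refine div_le_div_of_nonneg_right ?_ hHr.le
  have : (((T.I - 1 : ℕ) : ℝ)) = T.I - 1 := by
    rw [Nat.cast_sub (by omega), Nat.cast_one]
  rw [this]
  linarith

end Pool.Agent.FPX.MCW
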