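import Mathlib
import Pool.Agent.FPX.MCL
import Pool.Agent.FPX.EXB

/-
MCGE (helper28): the exterior of one piece of a cell of the modulus closing by one Boolean: from helper95's
`exrOk` (scaled by a rational lower bound `r` of half of the volume) to `Pce.Ext` of helper21's MCL.
-/

open MeasureTheory Set Filter Topology
open scoped ENNReal NNReal

noncomputable section

namespace Pool.Agent.FPX

/-- **back to unit fractions**, base zones only: no lower bound of the volume is needed -/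
theorem ExtS.of_R0 {P : ℝ → ℝ → Prop} {cm r0 r : ℝ} {a w A : ℕ → ℝ} {n m : ℕ}
    {q κ h0 h1 S0 S1 Q : ℝ} (hr : 0 < r) (a0 : ∀ k, 0 < a k)
    (h : ExtR (fun _ _ => False) cm (fun k => r * a k) w n (fun k => r * A k) m (q / r) κ h0 h1 S0 S1 Q) :
    ExtS P cm r0 a w n A m q κ h0 h1 S0 S1 Q := by
  obtain ⟨μ, ζ, xc, RF, Lz, lz, z, c1, c2, c3, c4, c5, c6, c7, c8, c9, c10⟩ := h
  rw [gcost_scale hr a0] at c9 c10
  refine ⟨μ, ζ, xc, RF, Lz, lz, z, c1, fun k hk => ?_, fun i hi => ?_, c4, c5, c6, c7, ?_, c9, c10⟩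
  · have h1 := c2 k hk
    have h2 : r * (mvec w n μ ζ 0 * gkw w n k * a k) ≤ r * (a 0 * mvec w n μ ζ (k + 1)) := by
      calc r * (mvec w n μ ζ 0 * gkw w n k * a k) = mvec w n μ ζ 0 * gkw w n k * (r * a k) := by ring
        _ ≤ r * a 0 * mvec w n μ ζ (k + 1) := h1
        _ = r * (a 0 * mvec w n μ ζ (k + 1)) := by ring
    exact le_of_mul_le_mul_left h2 hr
  · obtain ⟨d1, d2, d3, d4⟩ := c3 i hi
    rcases d4 with d4 | d4
    · exact ⟨d1, d2, Or.inl d4⟩
    · exact d4.elim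
  · refine le_trans (le_of_eq ?_) c8
    refine Finset.sum_congr rfl fun i _ => ?_
    rw [mul_div_mul_left _ _ hr.ne']

/-- **back to unit fractions** -/
theorem ExtS.of_R {P : ℝ → ℝ → Prop} {cm r0 r : ℝ} {a w A : ℕ → ℝ} {n m : ℕ}
    {q κ h0 h1 S0 S1 Q : ℝ} (hκ : 0 ≤ κ) (hr : 0 < r) (hr0 : r ≤ r0) (a0 : ∀ k, 0 < a k)
    (A0 : ∀ k, 0 < A k)
    (h : ExtR P cm (fun k => r * a k) w n (fun k => r * A k) m (q / r) κ h0 h1 S0 S1 Q) :
    ExtS P cm r0 a w n A m q κ h0 h1 S0 S1 Q := by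
  obtain ⟨μ, ζ, xc, RF, Lz, lz, z, c1, c2, c3, c4, c5, c6, c7, c8, c9, c10⟩ := h
  rw [gcost_scale hr a0] at c9 c10
  refine ⟨μ, ζ, xc, RF, Lz, lz, z, c1, fun k hk => ?_, fun i hi => ?_, c4, c5, c6, c7, ?_, c9, c10⟩
  · have h1 := c2 k hk
    have h2 : r * (mvec w n μ ζ 0 * gkw w n k * a k) ≤ r * (a 0 * mvec w n μ ζ (k + 1)) := by
      calc r * (mvec w n μ ζ 0 * gkw w n k * a k) = mvec w n μ ζ 0 * gkw w n k * (r * a k) := by ring
        _ ≤ r * a 0 * mvec w n μ ζ (k + 1) := h1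
        _ = r * (a 0 * mvec w n μ ζ (k + 1)) := by ring
    exact le_of_mul_le_mul_left h2 hr
  · obtain ⟨d1, d2, d3, d4⟩ := c3 i hi
    rcases d4 with d4 | d4
    · exact ⟨d1, d2, Or.inl d4⟩
    · refine ⟨d1, d2, Or.inr ⟨d4, d3.trans (mul_le_mul_of_nonneg_left (Real.sqrt_le_sqrt ?_) d1.η0)⟩⟩
      exact mul_le_mul_of_nonneg_left (mul_le_mul_of_nonneg_right hr0 (A0 _).le) hκ
  · refine le_trans (le_of_eq ?_) c8
    refine Finset.sum_congr rfl fun i _ => ?_
    rw [mul_div_mul_left _ _ hr.ne']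

namespace MCL

/-- data of the exterior of one piece: order of the series, `log` of the band, `μ`, `ζ`, cut `xc`, value `Q`,
zones (areas scaled by `r`) -/
structure XD where
  N : ℕ
  LU : ℚ
  mu : ℚ
  ze : ℚ
  xc : ℚ
  Q : ℚ
  Z : List ZQ

/-- the areas of the zones -/
def zArea (r : ℚ) (D : Cell) (Z : List ZQ) : Bool := decide (Z.map ZQ.A = D.A.tail.map fun x => r * x)

/-- the exterior check: `r` = scale, `S0`, `S1` = range of levels -/
def XD.ok (D : Cell) (Lm : List (ℚ × ℚ)) (cm r h0 h1 S0 S1 : ℚ) (e : XD) : Bool :=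
  decide (0 < r) && decide (D.rho.length = 2) && zArea r D e.Z &&
  exrOk e.N Lm cm D.kp D.z (D.w.getD 0 0) (D.w.getD 1 0) r (r * D.rho.getD 1 1) e.LU e.mu e.ze e.xc
    h0 h1 S0 S1 e.Q e.Z

theorem zArea_sound {r : ℚ} {D : Cell} {Z : List ZQ} (h : zArea r D Z = true) :
    Z.length = D.m ∧ ∀ i, i < Z.length → (r : ℝ) * fr D.A (i + 1) = ((zAt Z i).A : ℝ) := by
  have h := of_decide_eq_true h
  have hl : Z.length = D.A.tail.length := by
    have := congrArg List.length h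
    simpa using this
  refine ⟨by rw [hl, List.length_tail]; rfl, fun i hi => ?_⟩
  have h1 : i < D.A.tail.length := by omega
  have h2 : i + 1 < D.A.length := by
    rw [List.length_tail] at h1
    omega
  have h3 : (Z.map ZQ.A)[i]? = (D.A.tail.map fun x => r * x)[i]? := by rw [h]
  rw [List.getElem?_eq_getElem (by simpa using hi), List.getElem?_eq_getElem (by simpa using h1)] at h3
  simp only [List.getElem_map, List.getElem_tail, Option.some.injEq] at h3
  unfold fr zAt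
  rw [List.getD_eq_getElem _ _ h2, List.getD_eq_getElem _ _ hi, h3]
  push_cast
  rfl

/-- **the exterior of one piece** -/
theorem XD.sound {D : Cell} (hD : D.ok = true) {Lm : List (ℚ × ℚ)} {cm r h0 h1 S0 S1 : ℚ} {e : XD}
    (h : e.ok D Lm cm r h0 h1 S0 S1 = true) {PR : ℝ → ℝ → Prop} {Vlo : ℝ}
    (hv : Lm = [] ∨ ((r : ℝ) ≤ Vlo / 2 ∧ ∀ p ∈ Lm, PR (p.1 : ℝ) (p.2 : ℝ))) :
    ExtS PR cm (Vlo / 2) (fr D.rho) (wt D.w) D.n (fr D.A) D.m ((D.kp : ℝ) * D.z) D.kp
      h0 h1 S0 S1 e.Q := by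
  simp only [Cell.ok, Bool.and_eq_true] at hD
  obtain ⟨⟨⟨⟨⟨g1, g2⟩, g3⟩, g4⟩, g6⟩, g5⟩ := hD
  obtain ⟨a1, a2, a3, a4, a5, a6, a7, a8, a9, a10, a11⟩ := of_decide_eq_true g1
  obtain ⟨e1, e2, e3, e4, e5, e6⟩ := of_decide_eq_true g3
  simp only [XD.ok, Bool.and_eq_true, decide_eq_true_eq] at h
  obtain ⟨⟨⟨hr, hl⟩, hz⟩, hx⟩ := h
  obtain ⟨z1, z2⟩ := zArea_sound hz
  have hrr : (0 : ℝ) < r := by exact_mod_cast hr
  have hn : D.n = 1 := by unfold Cell.n; omega
  have ρp := fr_pos g4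
  have Ap := fr_pos g6
  have ρ0 : fr D.rho 0 = 1 := by
    unfold fr
    rw [List.getD_eq_getElem _ _ (by omega)]
    rw [List.getD_eq_getElem _ _ (by omega)] at e1
    rw [e1]
    norm_num
  have ρ1 : ((D.rho.getD 1 1 : ℚ) : ℝ) = fr D.rho 1 := rfl
  have A0 : fr D.A 0 = fr D.rho 1 := by
    have hlA : 0 < D.A.length := by
      rcases Nat.eq_zero_or_pos D.A.length with h0 | h0
      · exfalso
        rw [List.length_eq_zero_iff.1 h0] at e6
        simp only [List.getD_nil] at e6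
        have h1 := decOk_pos g4 _ (getD_mem (x := 1) (show D.n < D.rho.length by omega))
        exact absurd e6.symm (ne_of_gt h1)
      · exact h0
    unfold fr
    rw [List.getD_eq_getElem _ _ hlA]
    rw [List.getD_eq_getElem _ _ hlA, hn] at e6
    rw [e6]
  have ha0 : (0 : ℝ) < (fun k => (r : ℝ) * fr D.rho k) 0 := mul_pos hrr (ρp 0)
  have hq : ((D.kp : ℝ) * D.z) / r * ((fun k => (r : ℝ) * fr D.rho k) 0) = D.kp * D.z := by
    change (D.kp : ℝ) * D.z / r * (r * fr D.rho 0) = _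
    rw [ρ0]
    field_simp
  rw [hn, ← z1]
  rcases hv with hv | ⟨hv, hP⟩
  · subst hv
    refine ExtS.of_R0 hrr ρp ?_
    exact exrOk_sound hx (P := fun _ _ => False) (by simp) ha0 (by
        rw [ρ0, mul_one])
      (by
        push_cast
        rw [ρ1]) rfl rfl
      (by
        push_cast
        rw [ρ1, A0]) (fun i hi => z2 i hi) hq
  · refine ExtS.of_R (by exact_mod_cast a6.le) hrr hv ρp Ap ?_
    exact exrOk_sound hx hP ha0 (by
        rw [ρ0, mul_one])
      (by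
        push_cast
        rw [ρ1]) rfl rfl
      (by
        push_cast
        rw [ρ1, A0]) (fun i hi => z2 i hi) hq

/-- the exterior of a piece for its levels and, if needed, for the levels below `1/4` -/
def extOk (D : Cell) (Lm : List (ℚ × ℚ)) (cm r : ℚ) (p : Rect) (e el : XD) : Bool :=
  e.ok D Lm cm r p.h0 p.h1 p.s0 p.s1 && (decide (1 / 4 < p.s0) || el.ok D Lm cm r p.h0 p.h1 0 (1 / 4))

/-- **exterior of a piece** -/
theorem ext_of {D : Cell} (hD : D.ok = true) {Lm : List (ℚ × ℚ)} {cm r : ℚ} {p : Pce} {e el : XD}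
    (h : extOk D Lm cm r p.r e el = true) (hQ : p.Q = e.Q) (hQl : p.Ql = el.Q) {PR : ℝ → ℝ → Prop}
    {Vlo : ℝ} (hv : Lm = [] ∨ ((r : ℝ) ≤ Vlo / 2 ∧ ∀ p ∈ Lm, PR (p.1 : ℝ) (p.2 : ℝ))) :
    p.Ext D PR cm Vlo := by
  simp only [extOk, Bool.and_eq_true, Bool.or_eq_true] at h
  refine ⟨?_, fun h0 => ?_⟩
  · rw [hQ]
    exact XD.sound hD h.1 hv
  · rw [hQl]
    rcases h.2 with h1 | h1
    · exact absurd (of_decide_eq_true h1) (not_lt.2 h0)
    · have := XD.sound hD h1 hv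
      push_cast at this
      exact this

end MCL

end Pool.Agent.FPX
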