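import Mathlib
import Pool.Agent.FPX.MCW

/-
RWC (helper91): the row checker of one cell of the modulus closing: a lower bound
`q0 + q1 m + q2 m² ≤ m W (σ, k)`, `σ = log (m / (a f0))`, `k = 4 m / κ`, for all `0 ≤ m ≤ X` at a fixed
area `a`, from the table of `W` (format MCW). `W` is monotone in both variables (`monoOk`), so that on a
step `[σ_l, σ_(l+1)]` the value `W (σ_l, k_(l+1))` is a lower bound: `elTest` checks a list of entries
`(d, M, w)` (step, upper bound of the charge, lower bound of `W`), `rowL` a requirement on the list.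
All data are natural numbers and integers.
-/

noncomputable section

namespace Pool.Agent.FPX.MCW

/-! ### interpolation: monotonicity -/

theorem rw_cl0 (x : ℝ) : 0 ≤ cl x := le_max_left _ _

theorem rw_cl1 (x : ℝ) : cl x ≤ 1 := max_le zero_le_one (min_le_left _ _)

theorem rw_clm {x y : ℝ} (h : x ≤ y) : cl x ≤ cl y := max_le_max le_rfl (min_le_min le_rfl h)

theorem rw_ips (a : ℕ → ℝ) (n : ℕ) (x : ℝ) :
    ip a (n + 1) x = ip a n x + (a (n + 1) - a n) * cl (x - n) := by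
  unfold ip
  rw [Finset.sum_range_succ, add_assoc]

theorem rw_ipge (a : ℕ → ℝ) (n : ℕ) {x : ℝ} (hx : (n : ℝ) ≤ x) : ip a n x = a n := by
  induction n with
  | zero => simp [ip]
  | succ n ih =>
    push_cast at hx
    rw [rw_ips, ih (by linarith), cl_of_ge (by linarith), mul_one]
    ring

/-- monotone in the values -/
theorem rw_iple {a a' : ℕ → ℝ} {n : ℕ} (h : ∀ j ≤ n, a j ≤ a' j) (x : ℝ) : ip a n x ≤ ip a' n x := by
  induction n with
  | zero => simpa [ip] using h 0 le_rfl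
  | succ n ih =>
    rw [rw_ips, rw_ips]
    rcases le_total x n with hx | hx
    · rw [cl_of_le (by linarith), mul_zero, mul_zero, add_zero, add_zero]
      exact ih fun j hj => h j (by omega)
    · rw [rw_ipge _ _ hx, rw_ipge _ _ hx]
      have c0 := rw_cl0 (x - n)
      have c1 : 0 ≤ 1 - cl (x - n) := by
        have := rw_cl1 (x - n)
        linarith
      have h1 := mul_le_mul_of_nonneg_left (h n (by omega)) c1
      have h2 := mul_le_mul_of_nonneg_left (h (n + 1) le_rfl) c0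
      nlinarith

/-- monotone in the variable -/
theorem rw_ipm {a : ℕ → ℝ} {n : ℕ} (h : ∀ j < n, a j ≤ a (j + 1)) {x y : ℝ} (hxy : x ≤ y) :
    ip a n x ≤ ip a n y := by
  unfold ip
  refine add_le_add le_rfl (Finset.sum_le_sum fun l hl => ?_)
  have h1 := h l (Finset.mem_range.1 hl)
  exact mul_le_mul_of_nonneg_left (rw_clm (by linarith)) (by linarith)

/-- antitone in the variable -/
theorem rw_ipa {a : ℕ → ℝ} {n : ℕ} (h : ∀ j < n, a (j + 1) ≤ a j) {x y : ℝ} (hxy : x ≤ y) :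
    ip a n y ≤ ip a n x := by
  unfold ip
  refine add_le_add le_rfl (Finset.sum_le_sum fun l hl => ?_)
  have h1 := h l (Finset.mem_range.1 hl)
  exact mul_le_mul_of_nonpos_left (rw_clm (by linarith)) (by linarith)

/-! ### the monotonicity test of the table -/

/-- a nondecreasing list -/
def incOk : List ℤ → Bool
  | a :: b :: l => decide (a ≤ b) && incOk (b :: l)
  | _ => true

/-- entrywise comparison -/
def leOk : List ℤ → List ℤ → Bool
  | a :: l, b :: l' => decide (a ≤ b) && leOk l l'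
  | _, _ => true

/-- rows nondecreasing, columns nonincreasing -/
def monoOk : List (List ℤ) → Bool
  | w :: v :: r => incOk w && leOk v w && monoOk (v :: r)
  | [w] => incOk w
  | [] => true

theorem incOk_sound : ∀ {l : List ℤ}, incOk l = true → ∀ i, i + 1 < l.length →
    l.getD i 0 ≤ l.getD (i + 1) 0
  | a :: b :: l, h, i, hi => by
    rw [incOk, Bool.and_eq_true, decide_eq_true_eq] at h
    cases i with
    | zero => simpa using h.1
    | succ i => simpa using incOk_sound h.2 i (by simpa using hi)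
  | [_], _, i, hi => by simp at hi
  | [], _, i, hi => by simp at hi

theorem leOk_sound : ∀ {l l' : List ℤ}, leOk l l' = true → ∀ i, i < l.length → i < l'.length →
    l.getD i 0 ≤ l'.getD i 0
  | a :: l, b :: l', h, i, hi, hi' => by
    rw [leOk, Bool.and_eq_true, decide_eq_true_eq] at h
    cases i with
    | zero => simpa using h.1
    | succ i => simpa using leOk_sound h.2 i (by simpa using hi) (by simpa using hi')
  | [], _, _, i, hi, _ => by simp at hi
  | _ :: _, [], _, i, _, hi => by simp at hi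

theorem monoOk_sound : ∀ {R : List (List ℤ)}, monoOk R = true →
    (∀ j, j < R.length → incOk (R.getD j []) = true) ∧
      ∀ j, j + 1 < R.length → leOk (R.getD (j + 1) []) (R.getD j []) = true
  | w :: v :: r, h => by
    rw [monoOk, Bool.and_eq_true, Bool.and_eq_true] at h
    obtain ⟨⟨h1, h2⟩, h3⟩ := h
    obtain ⟨k1, k2⟩ := monoOk_sound h3
    refine ⟨fun j hj => ?_, fun j hj => ?_⟩
    · cases j with
      | zero => simpa using h1
      | succ j => simpa using k1 j (by simpa using hj)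
    · cases j with
      | zero => simpa using h2
      | succ j => simpa using k2 j (by simpa using hj)
  | [w], h => by
    refine ⟨fun j hj => ?_, fun j hj => ?_⟩
    · have : j = 0 := by simpa using hj
      subst this
      simpa [monoOk] using h
    · simp at hj
  | [], _ => ⟨fun j hj => by simp at hj, fun j hj => by simp at hj⟩

/-- the table is monotone -/
structure Tab.Mon (T : Tab) : Prop where
  good : T.Good
  inc : ∀ j ≤ T.J, ∀ i < T.I, T.wr j i ≤ T.wr j (i + 1)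
  dec : ∀ j < T.J, ∀ i ≤ T.I, T.wr (j + 1) i ≤ T.wr j i

theorem Tab.Good.mon {T : Tab} (h : T.Good) (hJ : 0 < T.J) (hI : 0 < T.I) (hm : monoOk T.W = true) :
    T.Mon := by
  obtain ⟨h1, h2⟩ := monoOk_sound hm
  have hSr : (0 : ℝ) < T.S := by exact_mod_cast h.S
  have hJ' : T.J + 1 = T.W.length := by
    unfold Tab.J at hJ ⊢
    omega
  have hI' : T.I + 1 = (T.W.getD 0 []).length := by
    unfold Tab.I at hI ⊢
    omega
  refine ⟨h, fun j hj i hi => ?_, fun j hj i hi => ?_⟩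
  · have l1 := h.len j (by omega)
    have k1 := incOk_sound (h1 j (by omega)) i (by omega)
    unfold Tab.wr Tab.w
    exact div_le_div_of_nonneg_right (by exact_mod_cast k1) hSr.le
  · have l1 := h.len j (by omega)
    have l2 := h.len (j + 1) (by omega)
    have k1 := leOk_sound (h2 j (by omega)) i (by omega) (by omega)
    unfold Tab.wr Tab.w
    exact div_le_div_of_nonneg_right (by exact_mod_cast k1) hSr.le

/-! ### monotonicity of `W` -/

theorem Tab.Mon.row_mono {T : Tab} (h : T.Mon) {j : ℕ} (hj : j ≤ T.J) {x y : ℝ} (hxy : x ≤ y) :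
    T.row j x ≤ T.row j y := by
  have hSr : (0 : ℝ) < T.S := by exact_mod_cast h.good.S
  have hHr : (0 : ℝ) < T.H := by exact_mod_cast h.good.H
  have hKr : (0 : ℝ) < T.Kd := by exact_mod_cast h.good.K
  have hbr : (0 : ℝ) ≤ T.b0 := by exact_mod_cast h.good.b
  have hnr : (0 : ℝ) ≤ T.n0 := by exact_mod_cast h.good.n
  unfold Tab.row
  refine add_le_add (rw_ipm (h.inc j hj) (mul_le_mul_of_nonneg_right hxy hHr.le))
    (mul_le_mul_of_nonneg_left (min_le_min hxy le_rfl) (by positivity))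

/-- `W` is nondecreasing in `σ` -/
theorem Tab.Mon.mono {T : Tab} (h : T.Mon) {x y : ℝ} (hxy : x ≤ y) (k : ℝ) : T.Wf x k ≤ T.Wf y k :=
  rw_iple (fun _ hj => h.row_mono hj hxy) _

theorem Tab.Mon.row_anti {T : Tab} (h : T.Mon) {j : ℕ} (hj : j < T.J) (x : ℝ) :
    T.row (j + 1) x ≤ T.row j x := by
  have hSr : (0 : ℝ) < T.S := by exact_mod_cast h.good.S
  have hKr : (0 : ℝ) < T.Kd := by exact_mod_cast h.good.K
  have hbr : (0 : ℝ) ≤ T.b0 := by exact_mod_cast h.good.b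
  unfold Tab.row
  refine add_le_add (rw_iple (h.dec j hj) _)
    (mul_le_mul_of_nonpos_right (mul_le_mul_of_nonneg_left
      (div_le_div_of_nonneg_right (by push_cast; linarith) hKr.le) (by positivity)) (min_le_right _ _))

/-- `W` is nonincreasing in `k` -/
theorem Tab.Mon.anti {T : Tab} (h : T.Mon) (x : ℝ) {k k' : ℝ} (hk : k ≤ k') : T.Wf x k' ≤ T.Wf x k := by
  have hKr : (0 : ℝ) < T.Kd := by exact_mod_cast h.good.K
  exact rw_ipa (fun _ hj => h.row_anti hj x) (mul_le_mul_of_nonneg_right hk hKr.le)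

/-! ### evaluation of `W` at a rational point -/

/-- `R² S` times the value of `W` at `σ = (i + p/R) / H`, `k = (j + u/R) / Kd` -/
def Tab.val (T : Tab) (R i p j u : ℕ) : ℤ :=
  ((R : ℤ) - u) * (((R : ℤ) - p) * T.w j i + p * T.w j (i + 1)) +
    u * (((R : ℤ) - p) * T.w (j + 1) i + p * T.w (j + 1) (i + 1))

theorem Tab.Good.eval {T : Tab} (h : T.Good) {R i p j u : ℕ} (hR : 0 < R) (hi : i < T.I) (hj : j < T.J)
    (hp : p ≤ R) (hu : u ≤ R) :
    T.Wf (((i : ℝ) + p / R) / T.H) (((j : ℝ) + u / R) / T.Kd) = (T.val R i p j u : ℝ) / (R ^ 2 * T.S) := by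
  have hSr : (0 : ℝ) < T.S := by exact_mod_cast h.S
  have hHr : (0 : ℝ) < T.H := by exact_mod_cast h.H
  have hKr : (0 : ℝ) < T.Kd := by exact_mod_cast h.K
  have hRr : (0 : ℝ) < R := by exact_mod_cast hR
  have hpr : (p : ℝ) ≤ R := by exact_mod_cast hp
  have hur : (u : ℝ) ≤ R := by exact_mod_cast hu
  have p0 : (0 : ℝ) ≤ p / R := by positivity
  have u0 : (0 : ℝ) ≤ u / R := by positivity
  have p1 : (p : ℝ) / R ≤ 1 := (div_le_one hRr).2 hpr
  have u1 : (u : ℝ) / R ≤ 1 := (div_le_one hRr).2 hur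
  have e1 : ((i : ℝ) + p / R) / T.H * T.H = i + p / R := by field_simp
  have e2 : ((j : ℝ) + u / R) / T.Kd * T.Kd = j + u / R := by field_simp
  have hσ : 0 ≤ ((i : ℝ) + p / R) / T.H := by positivity
  unfold Tab.Wf
  rw [e2, ip_cell _ hj u0 u1]
  have e3 : ∀ j' : ℕ, T.row j' (((i : ℝ) + p / R) / T.H) =
      (1 - p / R) * T.wr j' i + p / R * T.wr j' (i + 1) := fun j' => by
    unfold Tab.row
    rw [e1, ip_cell _ hi p0 p1, min_eq_right hσ, mul_zero, add_zero]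
  rw [e3, e3]
  unfold Tab.val Tab.wr
  push_cast
  field_simp

/-! ### the list of an area -/

/-- quick access in the kernel -/
def nth (l : List ℤ) : ℕ → ℤ :=
  @List.rec ℤ (fun _ => ℕ → ℤ) (fun _ => 0) (fun a _ ih n => @Nat.rec (fun _ => ℤ) a (fun m _ => ih m) n) l

theorem rw_nth (l : List ℤ) (n : ℕ) : nth l n = l.getD n 0 := by
  induction l generalizing n with
  | nil => simp [nth]
  | cons a l ih =>
    cases n with
    | zero => rfl
    | succ n =>
      have h : nth (a :: l) (n + 1) = nth l n := rfl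
      rw [h, ih]
      simp

/-- quick access to the rows -/
def nthL (l : List (List ℤ)) : ℕ → List ℤ :=
  @List.rec (List ℤ) (fun _ => ℕ → List ℤ) (fun _ => [])
    (fun a _ ih n => @Nat.rec (fun _ => List ℤ) a (fun m _ => ih m) n) l

theorem rw_nthL (l : List (List ℤ)) (n : ℕ) : nthL l n = l.getD n [] := by
  induction l generalizing n with
  | nil => simp [nthL]
  | cons a l ih =>
    cases n with
    | zero => rfl
    | succ n =>
      have h : nthL (a :: l) (n + 1) = nthL l n := rfl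
      rw [h, ih]
      simp

theorem Tab.w_eq (T : Tab) (j i : ℕ) : T.w j i = nth (nthL T.W j) i := by
  rw [rw_nth, rw_nthL]
  rfl

/-- `600 N⁵` times an upper bound of `exp (d / N)` -/
def expU (N d : ℕ) : ℕ :=
  600 * N ^ 5 + 600 * N ^ 4 * d + 300 * N ^ 3 * d ^ 2 + 100 * N ^ 2 * d ^ 3 + 25 * N * d ^ 4 + 6 * d ^ 5

/-- `24 N⁴` times a lower bound of `exp (d / N)` -/
def expL (N d : ℕ) : ℕ := 24 * N ^ 4 + 24 * N ^ 3 * d + 12 * N ^ 2 * d ^ 2 + 4 * N * d ^ 3 + d ^ 4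

/-- the data of a list: subdivision `R`, scale `Z` of `m`, lower bound `kn / kd` of `κ`, area `an / ad`,
largest charge `X / Z`, sizes `I`, `J` -/
structure ELP where
  R : ℕ
  Z : ℕ
  kn : ℕ
  kd : ℕ
  an : ℕ
  ad : ℕ
  X : ℕ
  I : ℕ
  J : ℕ

/-- an entry: step `d` (in units `1 / (H R)` of `σ`), upper bound `M / Z` of the charge, lower bound
`m w / S - c / S` of `m W` -/
structure EN where
  d : ℕ
  M : ℕ
  w : ℤ
  c : ℕ

/-- `w R² ≤ val` -/
def valOk (W : List (List ℤ)) (R i p j u : ℕ) (w : ℤ) : Bool :=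
  let a := nthL W j
  let b := nthL W (j + 1)
  decide (w * (R * R : ℕ) ≤ ((R - u : ℕ) : ℤ) * (((R - p : ℕ) : ℤ) * nth a i + (p : ℤ) * nth a (i + 1)) +
    (u : ℤ) * (((R - p : ℕ) : ℤ) * nth b i + (p : ℤ) * nth b (i + 1)))

/-- the test at the place `k` -/
def valOk' (W : List (List ℤ)) (p : ELP) (pos k : ℕ) (w : ℤ) : Bool :=
  decide (pos / p.R < p.I) && decide (k / p.R < p.J) &&
    valOk W p.R (pos / p.R) (pos % p.R) (k / p.R) (k % p.R) w

/-- all steps: `K` = `4 Kd kd R`, `Q` = `kn Z` -/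
def elWalk (W : List (List ℤ)) (p : ELP) (N K Q : ℕ) : ℕ → ℕ → ℕ → List EN → Bool
  | _, _, L, [] => decide (p.X ≤ L)
  | pos, M, L, e :: l =>
    decide (e.d ≤ N) && decide (M * expU N e.d ≤ e.M * (600 * N ^ 5)) &&
      valOk' W p pos (K * e.M / Q + 1) e.w && elWalk W p N K Q (pos + e.d) e.M (L * expL N e.d / (24 * N ^ 4)) l

/-- the area below the first node; `M` upper bound of `a f0` -/
def elLeft (T : Tab) (p : ELP) (k M : ℕ) (w : ℤ) (c : ℕ) : Bool :=
  let j := k / p.R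
  let u := k % p.R
  decide (j < p.J) && decide (T.b0 * T.n0 * (368 * M : ℕ) ≤ T.Kd * (1000 * p.Z * c : ℕ)) &&
    decide ((1000 * p.R * p.kn * p.Z : ℕ) * w + T.b0 * (4 * p.kd * 368 * M * p.R : ℕ) ≤
      (1000 * p.kn * p.Z : ℕ) * (((p.R - u : ℕ) : ℤ) * nth (nthL T.W j) 0 + (u : ℤ) * nth (nthL T.W (j + 1)) 0))

/-- **the test of a list** -/
def elTest (T : Tab) (p : ELP) : List EN → Bool
  | [] => false
  | e :: l =>
    decide (0 < p.R) && decide (0 < p.Z) && decide (0 < p.kn) && decide (0 < p.kd) && decide (0 < p.an) &&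
    decide (0 < p.ad) && decide (p.I ≤ T.I) && decide (p.J ≤ T.J) &&
    decide (p.an * T.f0.toNat * p.Z ≤ e.M * (p.ad * T.S.toNat)) && decide (e.d = 0) &&
    elLeft T p (4 * T.Kd.toNat * p.kd * p.R * e.M / (p.kn * p.Z) + 1) e.M e.w e.c &&
    elWalk T.W p (T.H.toNat * p.R) (4 * T.Kd.toNat * p.kd * p.R) (p.kn * p.Z) 0 e.M
      (p.an * T.f0.toNat * p.Z / (p.ad * T.S.toNat)) l

/-- the parameters are sound -/
structure ELP.Ok (p : ELP) (T : Tab) : Prop where
  R : 0 < p.R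
  Z : 0 < p.Z
  kn : 0 < p.kn
  kd : 0 < p.kd
  an : 0 < p.an
  ad : 0 < p.ad
  I : p.I ≤ T.I
  J : p.J ≤ T.J

theorem rw_kpos {T : Tab} {p : ELP} (hT : T.Good) (hp : p.Ok T) {κ : ℝ} (hκ : (p.kn : ℝ) / p.kd ≤ κ)
    {M : ℕ} {m : ℝ} (hmM : m ≤ (M : ℝ) / p.Z) :
    4 * m / κ ≤ ((4 * T.Kd.toNat * p.kd * p.R * M / (p.kn * p.Z) + 1 : ℕ) : ℝ) / p.R / T.Kd := by
  have hKr : (0 : ℝ) < T.Kd := by exact_mod_cast hT.K
  have hKn : ((T.Kd.toNat : ℕ) : ℝ) = T.Kd := by
    exact_mod_cast congrArg (fun z : ℤ => (z : ℝ)) (Int.toNat_of_nonneg hT.K.le)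
  have hRr : (0 : ℝ) < p.R := by exact_mod_cast hp.R
  have hZr : (0 : ℝ) < p.Z := by exact_mod_cast hp.Z
  have hnr : (0 : ℝ) < p.kn := by exact_mod_cast hp.kn
  have hdr : (0 : ℝ) < p.kd := by exact_mod_cast hp.kd
  have hκ0 : 0 < κ := lt_of_lt_of_le (by positivity) hκ
  have h1 : ((4 * T.Kd.toNat * p.kd * p.R * M : ℕ) : ℝ) / ((p.kn * p.Z : ℕ) : ℝ) ≤
      ((4 * T.Kd.toNat * p.kd * p.R * M / (p.kn * p.Z) + 1 : ℕ) : ℝ) := by
    have := Nat.lt_floor_add_one (((4 * T.Kd.toNat * p.kd * p.R * M : ℕ) : ℝ) / ((p.kn * p.Z : ℕ) : ℝ))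
    rw [Nat.floor_div_eq_div] at this
    push_cast at this ⊢
    linarith
  have h2 : 4 * m / κ ≤ 4 * ((M : ℝ) / p.Z) / ((p.kn : ℝ) / p.kd) :=
    div_le_div₀ (by positivity) (by linarith) (by positivity) hκ
  refine h2.trans ?_
  rw [div_div, le_div_iff₀ (by positivity)]
  refine le_trans (le_of_eq ?_) h1
  push_cast
  rw [hKn]
  field_simp

/-- one step -/
theorem valOk_sound {T : Tab} (hT : T.Mon) {p : ELP} (hp : p.Ok T) {pos k : ℕ} {w : ℤ}
    (h : valOk' T.W p pos k w = true) {σ κ' : ℝ} (hσ : (pos : ℝ) / (T.H * p.R) ≤ σ)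
    (hk : κ' ≤ (k : ℝ) / p.R / T.Kd) : (w : ℝ) / T.S ≤ T.Wf σ κ' := by
  simp only [valOk', valOk, Bool.and_eq_true, decide_eq_true_eq] at h
  obtain ⟨⟨h1, h2⟩, h3⟩ := h
  rw [← T.w_eq, ← T.w_eq, ← T.w_eq, ← T.w_eq] at h3
  have hSr : (0 : ℝ) < T.S := by exact_mod_cast hT.good.S
  have hRr : (0 : ℝ) < p.R := by exact_mod_cast hp.R
  have ep : (pos : ℝ) = ((pos / p.R : ℕ) : ℝ) * p.R + ((pos % p.R : ℕ) : ℝ) := by
    exact_mod_cast (Nat.div_add_mod' pos p.R).symm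
  have ek : (k : ℝ) = ((k / p.R : ℕ) : ℝ) * p.R + ((k % p.R : ℕ) : ℝ) := by
    exact_mod_cast (Nat.div_add_mod' k p.R).symm
  have e1 : (pos : ℝ) / (T.H * p.R) = (((pos / p.R : ℕ) : ℝ) + ((pos % p.R : ℕ) : ℝ) / p.R) / T.H := by
    conv_lhs => rw [ep]
    field_simp
  have e2 : (k : ℝ) / p.R / T.Kd = (((k / p.R : ℕ) : ℝ) + ((k % p.R : ℕ) : ℝ) / p.R) / T.Kd := by
    conv_lhs => rw [ek]
    field_simp
  have l1 := (Nat.mod_lt pos hp.R).le
  have l2 := (Nat.mod_lt k hp.R).le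
  have hval := hT.good.eval hp.R (h1.trans_le hp.I) (h2.trans_le hp.J) l1 l2
  have hW : (T.val p.R (pos / p.R) (pos % p.R) (k / p.R) (k % p.R) : ℝ) / (p.R ^ 2 * T.S) ≤ T.Wf σ κ' := by
    rw [← hval, ← e1, ← e2]
    exact (hT.anti _ hk).trans (hT.mono hσ _)
  refine le_trans ?_ hW
  have h4 : w * (p.R * p.R : ℕ) ≤ T.val p.R (pos / p.R) (pos % p.R) (k / p.R) (k % p.R) := by
    refine h3.trans (le_of_eq ?_)
    unfold Tab.val
    rw [Nat.cast_sub l1, Nat.cast_sub l2]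
  have h5 : (w : ℝ) * (p.R * p.R) ≤ T.val p.R (pos / p.R) (pos % p.R) (k / p.R) (k % p.R) := by
    exact_mod_cast h4
  rw [div_le_div_iff₀ hSr (by positivity)]
  nlinarith [mul_le_mul_of_nonneg_right h5 hSr.le]

/-! ### the exponential -/

theorem exp_le_expU {N d : ℕ} (hN : 0 < N) (hd : d ≤ N) :
    Real.exp ((d : ℝ) / N) ≤ (expU N d : ℝ) / (600 * N ^ 5) := by
  have hNr : (0 : ℝ) < N := by exact_mod_cast hN
  have hdr : (d : ℝ) ≤ N := by exact_mod_cast hd
  have h := Real.exp_bound' (x := (d : ℝ) / N) (by positivity) ((div_le_one hNr).2 hdr) (n := 5)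
    (by norm_num)
  refine h.trans (le_of_eq ?_)
  simp only [Finset.sum_range_succ, Finset.sum_range_zero, Nat.factorial]
  unfold expU
  push_cast
  field_simp
  ring

theorem expL_le_exp {N d : ℕ} (hN : 0 < N) : (expL N d : ℝ) / (24 * N ^ 4) ≤ Real.exp ((d : ℝ) / N) := by
  have hNr : (0 : ℝ) < N := by exact_mod_cast hN
  have h := Real.sum_le_exp_of_nonneg (x := (d : ℝ) / N) (by positivity) 5
  refine (le_of_eq ?_).trans h
  simp only [Finset.sum_range_succ, Finset.sum_range_zero, Nat.factorial]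
  unfold expL
  push_cast
  field_simp
  ring

theorem rw_xlogx {y : ℝ} (hy : 0 < y) : -(368 / 1000) ≤ y * Real.log y := by
  have he := Real.exp_one_gt_d9
  have he0 := Real.exp_pos 1
  have h1 : Real.log (1 / (y * Real.exp 1)) ≤ 1 / (y * Real.exp 1) - 1 :=
    Real.log_le_sub_one_of_pos (by positivity)
  rw [Real.log_div one_ne_zero (by positivity), Real.log_one, Real.log_mul hy.ne' he0.ne', Real.log_exp]
    at h1
  have h2 : -Real.log y ≤ 1 / (y * Real.exp 1) := by linarith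
  have h3 := mul_le_mul_of_nonneg_left h2 hy.le
  have h4 : y * (1 / (y * Real.exp 1)) = 1 / Real.exp 1 := by
    field_simp
  have h5 : 1 / Real.exp 1 ≤ 368 / 1000 := by
    rw [div_le_div_iff₀ he0 (by norm_num)]
    linarith
  rw [h4] at h3
  linarith

/-! ### below the first node -/

theorem elLeft_sound {T : Tab} (hT : T.Mon) {p : ELP} (hp : p.Ok T) {κ : ℝ}
    (hκ : (p.kn : ℝ) / p.kd ≤ κ) {M : ℕ} {w : ℤ} {c : ℕ}
    (h : elLeft T p (4 * T.Kd.toNat * p.kd * p.R * M / (p.kn * p.Z) + 1) M w c = true) {x₀ m : ℝ}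
    (hx : 0 < x₀) (hxM : x₀ ≤ (M : ℝ) / p.Z) (hm : 0 < m) (hmx : m ≤ x₀) :
    m * ((w : ℝ) / T.S) - (c : ℝ) / T.S ≤ m * T.Wf (Real.log (m / x₀)) (4 * m / κ) := by
  have hk := rw_kpos hT.good hp hκ (hmx.trans hxM)
  set k := 4 * T.Kd.toNat * p.kd * p.R * M / (p.kn * p.Z) + 1 with hkd
  simp only [elLeft, Bool.and_eq_true, decide_eq_true_eq] at h
  obtain ⟨⟨h1, h2⟩, h3⟩ := h
  rw [← T.w_eq, ← T.w_eq, Nat.cast_sub (Nat.mod_lt k hp.R).le] at h3
  have hSr : (0 : ℝ) < T.S := by exact_mod_cast hT.good.S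
  have hHr : (0 : ℝ) < T.H := by exact_mod_cast hT.good.H
  have hKr : (0 : ℝ) < T.Kd := by exact_mod_cast hT.good.K
  have hbr : (0 : ℝ) ≤ T.b0 := by exact_mod_cast hT.good.b
  have hn0 : (0 : ℝ) ≤ T.n0 := by exact_mod_cast hT.good.n
  have hRr : (0 : ℝ) < p.R := by exact_mod_cast hp.R
  have hZr : (0 : ℝ) < p.Z := by exact_mod_cast hp.Z
  have hnr : (0 : ℝ) < p.kn := by exact_mod_cast hp.kn
  have hdr : (0 : ℝ) < p.kd := by exact_mod_cast hp.kd
  have hκ0 : 0 < κ := lt_of_lt_of_le (by positivity) hκ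
  set σ := Real.log (m / x₀) with hσ
  have hσ0 : σ ≤ 0 := Real.log_nonpos (div_nonneg hm.le hx.le) ((div_le_one hx).2 hmx)
  set j := k / p.R with hj
  set u := k % p.R with hu
  have hur : (u : ℝ) ≤ p.R := by exact_mod_cast (Nat.mod_lt k hp.R).le
  have u0 : (0 : ℝ) ≤ u / p.R := by positivity
  have u1 : (u : ℝ) / p.R ≤ 1 := (div_le_one hRr).2 hur
  have ek : (k : ℝ) = (j : ℝ) * p.R + u := by
    exact_mod_cast (Nat.div_add_mod' k p.R).symm
  have e2 : (k : ℝ) / p.R / T.Kd = ((j : ℝ) + u / p.R) / T.Kd := by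
    rw [ek]
    field_simp
  have e3 : ((j : ℝ) + u / p.R) / T.Kd * T.Kd = j + u / p.R := by field_simp
  set v : ℤ := ((p.R : ℤ) - u) * T.w j 0 + u * T.w (j + 1) 0 with hv
  have hval0 : ip (fun j' => T.wr j' 0) T.J ((k : ℝ) / p.R / T.Kd * T.Kd) = (v : ℝ) / (p.R * T.S) := by
    rw [e2, e3, ip_cell _ (h1.trans_le hp.J) u0 u1, hv]
    unfold Tab.wr
    push_cast
    field_simp
  -- the value at `(σ, 4 m / κ)`
  have hW : ip (fun j' => T.wr j' 0) T.J (4 * m / κ * T.Kd) +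
      (T.b0 : ℝ) / T.S * (4 * m / κ + T.n0 / T.Kd) * σ ≤ T.Wf σ (4 * m / κ) := by
    have k0 : 0 ≤ 4 * m / κ := by positivity
    have hkJ : 4 * m / κ * T.Kd ≤ T.J := by
      have h5 : (k : ℝ) / p.R ≤ (j : ℝ) + 1 := by
        rw [ek, add_div, mul_div_assoc, div_self hRr.ne', mul_one]
        linarith
      have h6 : ((j : ℝ) + 1) ≤ T.J := by exact_mod_cast (Nat.succ_le_of_lt h1).trans hp.J
      have h7 := mul_le_mul_of_nonneg_right hk hKr.le
      have h8 : (k : ℝ) / p.R / T.Kd * T.Kd = (k : ℝ) / p.R := by field_simp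
      rw [h8] at h7
      linarith
    have hJ0 : 0 < T.J := lt_of_le_of_lt (Nat.zero_le _) (h1.trans_le hp.J)
    unfold Tab.Wf
    have e4 : ∀ j' : ℕ, T.row j' σ = T.wr j' 0 + (T.b0 : ℝ) / T.S * ((j' + T.n0) / T.Kd) * σ := fun j' => by
      unfold Tab.row
      rw [ip_of_le _ _ (mul_nonpos_of_nonpos_of_nonneg hσ0 hHr.le), min_eq_left hσ0]
    simp only [e4]
    -- locate the cell
    obtain ⟨i, hi, hi1, hi2⟩ : ∃ i < T.J, (i : ℝ) ≤ 4 * m / κ * T.Kd ∧ 4 * m / κ * T.Kd ≤ i + 1 := by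
      have hx0 : 0 ≤ 4 * m / κ * T.Kd := by positivity
      rcases hkJ.eq_or_lt with h | h
      · refine ⟨T.J - 1, by omega, ?_, ?_⟩
        · rw [h]
          exact_mod_cast Nat.sub_le T.J 1
        · rw [h]
          have : ((T.J - 1 : ℕ) : ℝ) + 1 = T.J := by
            exact_mod_cast Nat.sub_add_cancel hJ0
          rw [this]
      · refine ⟨⌊4 * m / κ * T.Kd⌋₊, ?_, Nat.floor_le hx0, (Nat.lt_floor_add_one _).le⟩
        rw [Nat.floor_lt hx0]
        exact h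
    set t : ℝ := 4 * m / κ * T.Kd - i with ht
    have et : 4 * m / κ * T.Kd = i + t := by rw [ht]; ring
    have ek2 : 4 * m / κ = (i + t) / T.Kd := by
      rw [← et]
      field_simp
    rw [et, ip_cell _ hi (by linarith) (by linarith), ip_cell _ hi (by linarith) (by linarith), ek2]
    refine le_of_eq ?_
    push_cast
    field_simp
    ring
  have hWk : (v : ℝ) / (p.R * T.S) ≤ ip (fun j' => T.wr j' 0) T.J (4 * m / κ * T.Kd) := by
    rw [← hval0]
    exact rw_ipa (fun j' hj' => hT.dec j' hj' 0 (Nat.zero_le _)) (mul_le_mul_of_nonneg_right hk hKr.le)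
  -- `m σ`
  have hmσ : -(368 / 1000) * ((M : ℝ) / p.Z) ≤ m * σ := by
    have k1 := rw_xlogx (y := m / x₀) (by positivity)
    have k2 := mul_le_mul_of_nonneg_left k1 hx.le
    have e5 : x₀ * (m / x₀ * Real.log (m / x₀)) = m * σ := by
      rw [hσ]
      field_simp
    rw [e5] at k2
    linarith
  have hkσ : (T.b0 : ℝ) / T.S * (4 * ((p.kd : ℝ) / p.kn) * (-(368 / 1000) * ((M : ℝ) / p.Z))) ≤
      (T.b0 : ℝ) / T.S * (4 * m / κ) * σ := by
    have h6 : 4 / κ ≤ 4 * ((p.kd : ℝ) / p.kn) := by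
      rw [div_le_iff₀ hκ0]
      have h7 : (p.kd : ℝ) / p.kn * ((p.kn : ℝ) / p.kd) = 1 := by field_simp
      have h8 := mul_le_mul_of_nonneg_left hκ (show (0 : ℝ) ≤ 4 * ((p.kd : ℝ) / p.kn) by positivity)
      nlinarith
    have h9 : m * σ ≤ 0 := mul_nonpos_of_nonneg_of_nonpos hm.le hσ0
    have h10 : 4 * ((p.kd : ℝ) / p.kn) * (m * σ) ≤ 4 / κ * (m * σ) := mul_le_mul_of_nonpos_right h6 h9
    have h11 : 4 * ((p.kd : ℝ) / p.kn) * (-(368 / 1000) * ((M : ℝ) / p.Z)) ≤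
        4 * ((p.kd : ℝ) / p.kn) * (m * σ) := mul_le_mul_of_nonneg_left hmσ (by positivity)
    have e7 : (T.b0 : ℝ) / T.S * (4 * m / κ) * σ = (T.b0 : ℝ) / T.S * (4 / κ * (m * σ)) := by ring
    rw [e7]
    exact mul_le_mul_of_nonneg_left (h11.trans h10) (by positivity)
  have hw : (w : ℝ) / T.S ≤ (v : ℝ) / (p.R * T.S) +
      (T.b0 : ℝ) / T.S * (4 * ((p.kd : ℝ) / p.kn) * (-(368 / 1000) * ((M : ℝ) / p.Z))) := by
    have h3' : ((1000 : ℝ) * p.R * p.kn * p.Z) * w + T.b0 * (4 * p.kd * 368 * M * p.R) ≤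
        (1000 * p.kn * p.Z) * v := by
      have : (1000 * p.R * p.kn * p.Z : ℕ) * w + T.b0 * (4 * p.kd * 368 * M * p.R : ℕ) ≤
          (1000 * p.kn * p.Z : ℕ) * v := h3
      exact_mod_cast this
    have e6 : (v : ℝ) / (p.R * T.S) + (T.b0 : ℝ) / T.S * (4 * ((p.kd : ℝ) / p.kn) *
        (-(368 / 1000) * ((M : ℝ) / p.Z))) = ((1000 * p.kn * p.Z) * v - T.b0 * (4 * p.kd * 368 * M * p.R)) /
          (1000 * p.R * p.kn * p.Z * T.S) := by
      field_simp
      ring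
    rw [e6, div_le_div_iff₀ hSr (by positivity)]
    have := mul_le_mul_of_nonneg_right h3' hSr.le
    linarith
  have hc : -((c : ℝ) / T.S) ≤ m * ((T.b0 : ℝ) / T.S * (T.n0 / T.Kd) * σ) := by
    have h2r : (T.b0 : ℝ) * T.n0 * (368 * M) ≤ T.Kd * (1000 * p.Z * c) := by exact_mod_cast h2
    have k1 := mul_le_mul_of_nonneg_left hmσ (show (0 : ℝ) ≤ (T.b0 : ℝ) / T.S * (T.n0 / T.Kd) by positivity)
    have e8 : (T.b0 : ℝ) / T.S * (T.n0 / T.Kd) * (-(368 / 1000) * ((M : ℝ) / p.Z)) =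
        -(((T.b0 : ℝ) * T.n0 * (368 * M)) / (T.S * (T.Kd * (1000 * p.Z)))) := by
      field_simp
    have e9 : (c : ℝ) / T.S = (T.Kd * (1000 * p.Z * c)) / (T.S * (T.Kd * (1000 * p.Z))) := by
      field_simp
    have k2 : ((T.b0 : ℝ) * T.n0 * (368 * M)) / (T.S * (T.Kd * (1000 * p.Z))) ≤ (c : ℝ) / T.S := by
      rw [e9]
      exact div_le_div_of_nonneg_right h2r (by positivity)
    rw [e8] at k1
    have e10 : m * ((T.b0 : ℝ) / T.S * (T.n0 / T.Kd) * σ) = (T.b0 : ℝ) / T.S * (T.n0 / T.Kd) * (m * σ) := by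
      ring
    rw [e10]
    linarith
  have key := mul_le_mul_of_nonneg_left ((add_le_add (hw.trans (add_le_add hWk hkσ))
    (le_refl ((T.b0 : ℝ) / T.S * (T.n0 / T.Kd) * σ))).trans (le_trans (le_of_eq (by ring)) hW)) hm.le
  rw [mul_add] at key
  linarith

/-! ### the property of a list -/

/-- the list bounds `f` from below, entry by entry: the thresholds are `x₀ exp (pos / N)` -/
def ELR (x₀ N : ℝ) (Z : ℕ) (S : ℤ) (f : ℝ → ℝ) : ℕ → ℝ → List EN → Prop
  | _, _, [] => True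
  | pos, lo, e :: l =>
    (∀ m : ℝ, lo < m → m ≤ x₀ * Real.exp (((pos + e.d : ℕ) : ℝ) / N) →
      m ≤ (e.M : ℝ) / Z ∧ m * ((e.w : ℝ) / S) - (e.c : ℝ) / S ≤ f m) ∧
    ELR x₀ N Z S f (pos + e.d) (x₀ * Real.exp (((pos + e.d : ℕ) : ℝ) / N)) l

/-- the sum of the steps -/
def totD : List EN → ℕ
  | [] => 0
  | e :: l => e.d + totD l

/-- the entry of a charge -/
theorem ELR.entry {x₀ N : ℝ} {Z : ℕ} {S : ℤ} {f : ℝ → ℝ} : ∀ {l : List EN} {pos : ℕ} {lo : ℝ},
    ELR x₀ N Z S f pos lo l → ∀ m : ℝ, lo < m → l ≠ [] →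
    m ≤ x₀ * Real.exp (((pos + totD l : ℕ) : ℝ) / N) →
    ∃ e ∈ l, m ≤ (e.M : ℝ) / Z ∧ m * ((e.w : ℝ) / S) - (e.c : ℝ) / S ≤ f m
  | [], _, _, _, _, _, h, _ => absurd rfl h
  | e :: l, pos, lo, h, m, h1, _, h3 => by
    rcases le_or_gt m (x₀ * Real.exp (((pos + e.d : ℕ) : ℝ) / N)) with hc | hc
    · exact ⟨e, by simp, h.1 m h1 hc⟩
    · cases l with
      | nil =>
        simp only [totD, add_zero] at h3
        linarith
      | cons e' l =>
        have e1 : pos + totD (e :: e' :: l) = pos + e.d + totD (e' :: l) := by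
          simp only [totD]
          ring
        rw [e1] at h3
        obtain ⟨x, hx, h4⟩ := h.2.entry m hc (by simp) h3
        exact ⟨x, List.mem_cons_of_mem _ hx, h4⟩

/-- smaller functions -/
theorem ELR.mono {x₀ N : ℝ} {Z : ℕ} {S : ℤ} {f g : ℝ → ℝ} : ∀ {l : List EN} {pos : ℕ} {lo : ℝ},
    ELR x₀ N Z S f pos lo l → 0 ≤ lo → 0 ≤ x₀ → (∀ m, 0 < m → f m ≤ g m) → ELR x₀ N Z S g pos lo l
  | [], _, _, _, _, _, _ => trivial
  | e :: l, pos, lo, h, h0, hx, hfg => by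
    refine ⟨fun m h1 h2 => ?_, h.2.mono (by positivity) hx hfg⟩
    obtain ⟨h3, h4⟩ := h.1 m h1 h2
    exact ⟨h3, h4.trans (hfg m (h0.trans_lt h1))⟩

/-- the mixture of two lists with the same steps -/
def mixE (n d : ℕ) : List EN → List EN → List EN
  | e :: l, e' :: l' => ⟨e.d, e.M, (((d : ℤ) - n) * e.w + n * e'.w) / d, max e.c e'.c⟩ :: mixE n d l l'
  | _, _ => []

/-- the same steps -/
def sameD : List EN → List EN → Bool
  | e :: l, e' :: l' => decide (e.d = e'.d) && sameD l l'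
  | [], [] => true
  | _, _ => false

theorem ELR.mix {x₀ N : ℝ} {Z : ℕ} {S : ℤ} (hS : 0 < S) {f g : ℝ → ℝ} {n d : ℕ} (hd : 0 < d)
    (hnd : n ≤ d) : ∀ {l l' : List EN} {pos : ℕ} {lo : ℝ}, sameD l l' = true → 0 ≤ lo → 0 ≤ x₀ →
    ELR x₀ N Z S f pos lo l → ELR x₀ N Z S g pos lo l' →
    ELR x₀ N Z S (fun m => (1 - (n : ℝ) / d) * f m + (n : ℝ) / d * g m) pos lo (mixE n d l l')
  | [], [], _, _, _, _, _, _, _ => trivial
  | [], _ :: _, _, _, h, _, _, _, _ => by simp [sameD] at h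
  | _ :: _, [], _, _, h, _, _, _, _ => by simp [sameD] at h
  | e :: l, e' :: l', pos, lo, h, h0, hx, hf, hg => by
    rw [sameD, Bool.and_eq_true, decide_eq_true_eq] at h
    have hg2 := hg.2
    rw [← h.1] at hg2
    refine ⟨fun m h1 h2 => ?_, ELR.mix hS hd hnd h.2 (by positivity) hx hf.2 hg2⟩
    have h2' : m ≤ x₀ * Real.exp (((pos + e.d : ℕ) : ℝ) / N) := h2
    obtain ⟨h3, h4⟩ := hf.1 m h1 h2'
    obtain ⟨h5, h6⟩ := hg.1 m h1 (by rw [← h.1]; exact h2')
    refine ⟨h3, ?_⟩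
    have hdr : (0 : ℝ) < d := by exact_mod_cast hd
    have hSr : (0 : ℝ) < S := by exact_mod_cast hS
    have hndr : (n : ℝ) ≤ d := by exact_mod_cast hnd
    have t1 : (0 : ℝ) ≤ (n : ℝ) / d := by positivity
    have t2 : (0 : ℝ) ≤ 1 - (n : ℝ) / d := by
      have := (div_le_one hdr).2 hndr
      linarith
    have m0 : 0 ≤ m := h0.trans h1.le
    have k1 : (((((d : ℤ) - n) * e.w + n * e'.w) / d : ℤ) : ℝ) ≤
        ((((d : ℤ) - n) * e.w + n * e'.w : ℤ) : ℝ) / ((d : ℤ) : ℝ) := cast_ediv_le (by exact_mod_cast hd)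
    push_cast at k1
    have k2 : m * ((((((d : ℤ) - n) * e.w + n * e'.w) / d : ℤ) : ℝ) / S) ≤
        m * (((((d : ℝ) - n) * e.w + n * e'.w) / d) / S) :=
      mul_le_mul_of_nonneg_left (div_le_div_of_nonneg_right k1 hSr.le) m0
    have e1 : m * (((((d : ℝ) - n) * e.w + n * e'.w) / d) / S) =
        (1 - (n : ℝ) / d) * (m * ((e.w : ℝ) / S)) + (n : ℝ) / d * (m * ((e'.w : ℝ) / S)) := by
      field_simp
    have c1 : (e.c : ℝ) / S ≤ ((max e.c e'.c : ℕ) : ℝ) / S :=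
      div_le_div_of_nonneg_right (by exact_mod_cast le_max_left _ _) hSr.le
    have c2 : (e'.c : ℝ) / S ≤ ((max e.c e'.c : ℕ) : ℝ) / S :=
      div_le_div_of_nonneg_right (by exact_mod_cast le_max_right _ _) hSr.le
    have h4' := mul_le_mul_of_nonneg_left h4 t2
    have h6' := mul_le_mul_of_nonneg_left h6 t1
    have c1' := mul_le_mul_of_nonneg_left c1 t2
    have c2' := mul_le_mul_of_nonneg_left c2 t1
    rw [e1] at k2
    change m * ((((((d : ℤ) - n) * e.w + n * e'.w) / d : ℤ) : ℝ) / S) -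
      ((max e.c e'.c : ℕ) : ℝ) / S ≤ _
    linarith

/-! ### all steps -/

theorem elWalk_sound {T : Tab} (hT : T.Mon) {p : ELP} (hp : p.Ok T) {κ : ℝ}
    (hκ : (p.kn : ℝ) / p.kd ≤ κ) {x₀ : ℝ} (hx : 0 < x₀) : ∀ (l : List EN) (pos M L : ℕ),
    elWalk T.W p (T.H.toNat * p.R) (4 * T.Kd.toNat * p.kd * p.R) (p.kn * p.Z) pos M L l = true →
    (L : ℝ) / p.Z ≤ x₀ * Real.exp ((pos : ℝ) / (T.H * p.R)) →
    x₀ * Real.exp ((pos : ℝ) / (T.H * p.R)) ≤ (M : ℝ) / p.Z →
    ELR x₀ (T.H * p.R) p.Z T.S (fun m => m * T.Wf (Real.log (m / x₀)) (4 * m / κ)) pos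
      (x₀ * Real.exp ((pos : ℝ) / (T.H * p.R))) l ∧
      (p.X : ℝ) / p.Z ≤ x₀ * Real.exp (((pos + totD l : ℕ) : ℝ) / (T.H * p.R))
  | [], pos, M, L, h, hL, hM => by
    rw [elWalk, decide_eq_true_eq] at h
    have hZr : (0 : ℝ) < p.Z := by exact_mod_cast hp.Z
    have h3 : (p.X : ℝ) / p.Z ≤ (L : ℝ) / p.Z := div_le_div_of_nonneg_right (by exact_mod_cast h) hZr.le
    refine ⟨trivial, ?_⟩
    simp only [totD, add_zero]
    linarith
  | e :: l, pos, M, L, h, hL, hM => by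
    rw [elWalk] at h
    simp only [Bool.and_eq_true, decide_eq_true_eq] at h
    obtain ⟨⟨⟨a1, a4⟩, a2⟩, a3⟩ := h
    have hZr : (0 : ℝ) < p.Z := by exact_mod_cast hp.Z
    have hRr : (0 : ℝ) < p.R := by exact_mod_cast hp.R
    have hHr : (0 : ℝ) < T.H := by exact_mod_cast hT.good.H
    have hN : ((T.H.toNat * p.R : ℕ) : ℝ) = T.H * p.R := by
      have h5 : ((T.H.toNat : ℕ) : ℝ) = T.H := by
        exact_mod_cast congrArg (fun z : ℤ => (z : ℝ)) (Int.toNat_of_nonneg hT.good.H.le)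
      push_cast
      rw [h5]
    have ih := elWalk_sound hT hp hκ hx l (pos + e.d) _ _ a3
    set N := T.H.toNat * p.R with hNd
    have hN0 : (0 : ℝ) < N := by
      rw [hN]
      positivity
    have hN0' : 0 < N := by exact_mod_cast hN0
    rw [← hN] at hL hM ih ⊢
    have ee : Real.exp (((pos + e.d : ℕ) : ℝ) / N) = Real.exp ((pos : ℝ) / N) * Real.exp ((e.d : ℝ) / N) := by
      rw [← Real.exp_add]
      congr 1
      push_cast
      ring
    have hxe : 0 < x₀ * Real.exp ((pos : ℝ) / N) := by positivity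
    -- upper bound
    have up : x₀ * Real.exp (((pos + e.d : ℕ) : ℝ) / N) ≤ (e.M : ℝ) / p.Z := by
      have k1 := exp_le_expU hN0' a1
      have k4 : (M : ℝ) * ((expU N e.d : ℝ) / (600 * N ^ 5)) ≤ (e.M : ℝ) := by
        have k5 : (M : ℝ) * expU N e.d ≤ e.M * (600 * N ^ 5) := by exact_mod_cast a4
        rw [← mul_div_assoc, div_le_iff₀ (by positivity)]
        exact k5
      rw [ee, ← mul_assoc]
      calc x₀ * Real.exp ((pos : ℝ) / N) * Real.exp ((e.d : ℝ) / N)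
          ≤ (M : ℝ) / p.Z * ((expU N e.d : ℝ) / (600 * N ^ 5)) :=
            mul_le_mul hM k1 (Real.exp_pos _).le (by positivity)
        _ = (M : ℝ) * ((expU N e.d : ℝ) / (600 * N ^ 5)) / p.Z := by ring
        _ ≤ _ := div_le_div_of_nonneg_right k4 hZr.le
    -- lower bound
    have lo : ((L * expL N e.d / (24 * N ^ 4) : ℕ) : ℝ) / p.Z ≤
        x₀ * Real.exp (((pos + e.d : ℕ) : ℝ) / N) := by
      have k1 := expL_le_exp (d := e.d) hN0'
      have k4 : ((L * expL N e.d / (24 * N ^ 4) : ℕ) : ℝ) ≤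
          (L : ℝ) * ((expL N e.d : ℝ) / (24 * N ^ 4)) := by
        refine (Nat.cast_div_le (m := L * expL N e.d) (n := 24 * N ^ 4)).trans (le_of_eq ?_)
        push_cast
        rw [mul_div_assoc]
      rw [ee, ← mul_assoc]
      calc ((L * expL N e.d / (24 * N ^ 4) : ℕ) : ℝ) / p.Z
          ≤ (L : ℝ) * ((expL N e.d : ℝ) / (24 * N ^ 4)) / p.Z := div_le_div_of_nonneg_right k4 hZr.le
        _ = (L : ℝ) / p.Z * ((expL N e.d : ℝ) / (24 * N ^ 4)) := by ring
        _ ≤ _ := mul_le_mul hL k1 (by positivity) hxe.le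
    obtain ⟨ih1, ih2⟩ := ih lo up
    refine ⟨⟨fun m h1 hc => ?_, ih1⟩, ?_⟩
    · refine ⟨hc.trans up, ?_⟩
      have hm0 : 0 < m := hxe.trans h1
      have := valOk_sound hT hp a2 (σ := Real.log (m / x₀)) (κ' := 4 * m / κ) ?_
        (rw_kpos hT.good hp hκ (hc.trans up))
      · have h6 := mul_le_mul_of_nonneg_left this hm0.le
        have h7 : 0 ≤ (e.c : ℝ) / T.S := by
          have : (0 : ℝ) < T.S := by exact_mod_cast hT.good.S
          positivity
        linarith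
      rw [← hN]
      have k5 : Real.log (x₀ * Real.exp ((pos : ℝ) / N)) ≤ Real.log m := Real.log_le_log hxe h1.le
      rw [Real.log_mul hx.ne' (Real.exp_pos _).ne', Real.log_exp] at k5
      rw [Real.log_div hm0.ne' hx.ne']
      linarith
    · have e1 : pos + totD (e :: l) = pos + e.d + totD l := by
        simp only [totD]
        ring
      rw [e1]
      exact ih2

/-- **soundness of a list** -/
theorem elTest_sound {T : Tab} (hT : T.Mon) {p : ELP} {l : List EN} (h : elTest T p l = true) {κ : ℝ}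
    (hκ : (p.kn : ℝ) / p.kd ≤ κ) {x₀ : ℝ} (hx₀ : x₀ = (p.an : ℝ) / p.ad * ((T.f0 : ℝ) / T.S)) :
    p.Ok T ∧ 0 < x₀ ∧ l ≠ [] ∧
    ELR x₀ (T.H * p.R) p.Z T.S (fun m => m * T.Wf (Real.log (m / x₀)) (4 * m / κ)) 0 0 l ∧
      (p.X : ℝ) / p.Z ≤ x₀ * Real.exp (((0 + totD l : ℕ) : ℝ) / (T.H * p.R)) := by
  cases l with
  | nil => simp [elTest] at h
  | cons e l =>
    simp only [elTest, Bool.and_eq_true, decide_eq_true_eq] at h
    obtain ⟨⟨⟨⟨⟨⟨⟨⟨⟨⟨⟨h1, h2⟩, h3⟩, h4⟩, h5⟩, h6⟩, h7⟩, h8⟩, h9⟩, h9'⟩, h10⟩, h11⟩ := h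
    have hp : p.Ok T := ⟨h1, h2, h3, h4, h5, h6, h7, h8⟩
    have hZr : (0 : ℝ) < p.Z := by exact_mod_cast hp.Z
    have hSr : (0 : ℝ) < T.S := by exact_mod_cast hT.good.S
    have hfr : (0 : ℝ) < T.f0 := by exact_mod_cast hT.good.f
    have hnr : (0 : ℝ) < p.an := by exact_mod_cast h5
    have hdr : (0 : ℝ) < p.ad := by exact_mod_cast h6
    have eS : ((T.S.toNat : ℕ) : ℝ) = T.S := by
      exact_mod_cast congrArg (fun z : ℤ => (z : ℝ)) (Int.toNat_of_nonneg hT.good.S.le)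
    have ef : ((T.f0.toNat : ℕ) : ℝ) = T.f0 := by
      exact_mod_cast congrArg (fun z : ℤ => (z : ℝ)) (Int.toNat_of_nonneg hT.good.f.le)
    have hx : 0 < x₀ := by
      rw [hx₀]
      positivity
    have ex : ((p.an * T.f0.toNat * p.Z : ℕ) : ℝ) / ((p.ad * T.S.toNat : ℕ) : ℝ) = x₀ * p.Z := by
      push_cast
      rw [eS, ef, hx₀]
      field_simp
    have up : x₀ ≤ (e.M : ℝ) / p.Z := by
      rw [le_div_iff₀ hZr, ← ex, div_le_iff₀ (by rw [Nat.cast_mul, eS]; positivity)]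
      exact_mod_cast h9
    have lo : ((p.an * T.f0.toNat * p.Z / (p.ad * T.S.toNat) : ℕ) : ℝ) / p.Z ≤ x₀ := by
      rw [div_le_iff₀ hZr, ← ex]
      exact Nat.cast_div_le
    have e0 : x₀ * Real.exp (((0 : ℕ) : ℝ) / (T.H * p.R)) = x₀ := by
      rw [Nat.cast_zero, zero_div, Real.exp_zero, mul_one]
    obtain ⟨k1, k2⟩ := elWalk_sound hT hp hκ hx l 0 _ _ h11 (by rw [e0]; exact lo) (by rw [e0]; exact up)
    have e2 : 0 + e.d = 0 := by rw [h9']
    refine ⟨hp, hx, by simp, ⟨fun m m0 hc => ?_, ?_⟩, ?_⟩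
    · rw [e2, e0] at hc
      exact ⟨hc.trans up, elLeft_sound hT hp hκ h10 hx up m0 hc⟩
    · rw [e2]
      exact k1
    · have e3 : 0 + totD (e :: l) = 0 + totD l := by
        simp only [totD, h9', zero_add]
      rw [e3]
      exact k2

/-! ### rows -/

/-- the requirement `(q0 + q1 m + q2 m²) / P ≤ (m w - c) / S` for all entries -/
def rowL (S Z P q0 q1 q2 : ℤ) : List EN → Bool
  | [] => true
  | e :: l => decide (S * (q0 * Z ^ 2 + q1 * Z * e.M + q2 * (e.M * e.M)) + P * Z ^ 2 * e.c ≤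
      P * Z * e.M * e.w) && decide (S * q0 + P * e.c ≤ 0) && rowL S Z P q0 q1 q2 l

theorem rowL_mem {S Z P q0 q1 q2 : ℤ} : ∀ {l : List EN}, rowL S Z P q0 q1 q2 l = true → ∀ e ∈ l,
    S * (q0 * Z ^ 2 + q1 * Z * e.M + q2 * (e.M * e.M)) + P * Z ^ 2 * e.c ≤ P * Z * e.M * e.w ∧
      S * q0 + P * e.c ≤ 0
  | e :: l, h, e', he' => by
    rw [rowL, Bool.and_eq_true, Bool.and_eq_true, decide_eq_true_eq, decide_eq_true_eq] at h
    rcases List.mem_cons.1 he' with h1 | h1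
    · rw [h1]
      exact h.1
    · exact rowL_mem h.2 e' h1
  | [], _, e', he' => by simp at he'

end Pool.Agent.FPX.MCW
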