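import Mathlib
import Pool.Agent.FPX.MCGE
import Pool.Agent.FPX.CRZ
import Pool.Agent.FPX.RWC

/-
MCGC (helper28): a cell of the modulus closing from nodes (tables with certificates) and pieces (rectangles with
a chord of two nodes). `Nod`, `PD`, `PD.pce`; `corB`: the chord check; `core_gen`, `ext_gen`.
-/

open MeasureTheory Set Filter Topology
open scoped ENNReal NNReal

noncomputable section

namespace Pool.Agent.FPX

open Pool.Agent.EWD Pool.Agent.FPM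

/-- smaller budgets -/
theorem TabQ.le {Q : E3 → E3 → E3 → E3 → E3 → ℝ} {ρ₀ θ : ℝ} {T : MCW.Tab} {κ' N X N' X' : ℝ}
    (h : TabQ Q ρ₀ θ T κ' N X) (h0 : 0 < N') (hN : N' ≤ N) (hX : X' ≤ X) : TabQ Q ρ₀ θ T κ' N' X' where
  ρ := h.ρ
  ex := h.ex
  b := h.b
  P := { h.P.mono hX with hN := h0, hN1 := hN.trans h.P.hN1 }

/-- a larger certificate -/
theorem TabQ.up {Q Q' : E3 → E3 → E3 → E3 → E3 → ℝ} {ρ₀ θ : ℝ} {T : MCW.Tab} {κ' N X : ℝ}
    (h : TabQ Q ρ₀ θ T κ' N X) (hQ : ∀ v a b A B, Q v a b A B ≤ Q' v a b A B) :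
    TabQ Q' ρ₀ θ T κ' N X where
  ρ := h.ρ
  ex := by
    obtain ⟨Ψ, h1, h2⟩ := h.ex
    exact ⟨Ψ, h1.of_le hQ, h2⟩
  b := h.b
  P := h.P

namespace MCL

/-- a node: table of `V`, table of `U^(k)`, lowest level, share, lists of lower bounds -/
structure Nod where
  T : MCW.Tab
  K : MCW.Tab
  rho : ℚ
  th : ℚ
  lV : List MCW.EN
  lK : List MCW.EN

/-- the empty table -/
def tab0 : MCW.Tab := ⟨1, 1, 1, 0, 0, 1, 1, 0, 0, [], []⟩

/-- the default node: never admissible -/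
def nod0 : Nod := ⟨tab0, tab0, 1000000, 0, [], []⟩

/-- a piece: rectangle, nodes `i`, `j`, weight `l = ln / ld` of the chord, exterior data -/
structure PD where
  r : Rect
  i : ℕ
  j : ℕ
  ln : ℕ
  ld : ℕ
  e : XD
  el : XD

/-- the node of a list -/
def nd (L : List Nod) (i : ℕ) : Nod := L.getD i nod0

/-- weight of the chord -/
def PD.l (p : PD) : ℚ := (p.ln : ℚ) / p.ld

/-- the piece of `cellM_ofL` -/
def PD.pce (D : Cell) (L : List Nod) (p : PD) : Pce where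
  r := p.r
  V := vmix p.l ((nd L p.i).T.V D.kp) ((nd L p.j).T.V D.kp)
  VK := vmix p.l (kV (nd L p.i).K D.kp D.ks D.bb) (kV (nd L p.j).K D.kp D.ks D.bb)
  Q := p.e.Q
  Ql := p.el.Q

/-- the chord check -/
def corB (D : Cell) (L : List Nod) (p : PD) : Bool :=
  decide (p.i < L.length ∧ p.j < L.length ∧ p.ln ≤ p.ld ∧ 0 < p.ld) &&
  decide ((nd L p.i).rho ≤ p.r.s0 ∧ (nd L p.j).rho ≤ p.r.s0) &&
  decide (0 ≤ (nd L p.i).th ∧ (nd L p.i).th ≤ 1 ∧ 0 ≤ (nd L p.j).th ∧ (nd L p.j).th ≤ 1) &&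
  decide (p.r.h1 ^ 2 * p.ld ≤ ((p.ld : ℚ) - p.ln) * (nd L p.i).th + p.ln * (nd L p.j).th) &&
  decide (4 * D.ks * (nd L p.i).K.Kd ≤ (nd L p.i).K.n0 * D.kp ∧
    4 * D.ks * (nd L p.j).K.Kd ≤ (nd L p.j).K.n0 * D.kp)

/-- the tables of a node carry their certificates, for budgets at least those of the cell -/
structure NodQ (Q : E3 → E3 → E3 → E3 → E3 → ℝ) (D : Cell) (x : Nod) : Prop where
  V : TabQ Q x.rho x.th x.T D.kp D.N D.Xc
  K : TabQ Q x.rho x.th x.K D.kp D.N D.Xc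

theorem nd_mem {L : List Nod} {i : ℕ} (h : i < L.length) : nd L i ∈ L := getD_mem' h
  where
  getD_mem' {α : Type} {l : List α} {j : ℕ} {x : α} (h : j < l.length) : l.getD j x ∈ l := by
    rw [List.getD_eq_getElem _ _ h]
    exact List.getElem_mem h

/-- the side constants of the cell -/
theorem cell_N {D : Cell} (hD : D.ok = true) : (0 : ℝ) < D.N := by
  have F := cellF_of hD
  exact lt_of_lt_of_le (by positivity) F.N

/-- **a node from the certificates of its tables for larger budgets** -/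
theorem nodQ_of {Q : E3 → E3 → E3 → E3 → E3 → ℝ} {D : Cell} (hD : D.ok = true) {x : Nod}
    {kp N X N' X' : ℚ} (hV : TabQ Q x.rho x.th x.T kp N X) (hK : TabQ Q x.rho x.th x.K kp N' X')
    (hb : D.kp = kp ∧ D.N ≤ N ∧ D.Xc ≤ X ∧ D.N ≤ N' ∧ D.Xc ≤ X') : NodQ Q D x := by
  obtain ⟨h1, h2, h3, h4, h5⟩ := hb
  subst h1
  exact ⟨hV.le (cell_N hD) (Rat.cast_le.2 h2) (Rat.cast_le.2 h3),
    hK.le (cell_N hD) (Rat.cast_le.2 h4) (Rat.cast_le.2 h5)⟩

/-- **the core of the pieces** -/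
theorem core_gen {Q : E3 → E3 → E3 → E3 → E3 → ℝ} {ψ : ℝ → ℝ} (HQ : MCQ Q ψ) {D : Cell}
    (hD : D.ok = true) {L : List Nod} (hL : ∀ x ∈ L, NodQ Q D x) {P : List PD}
    (hP : (P.all fun p => corB D L p) = true) {Ee cr : ℝ} {PR : ℝ → ℝ → Prop}
    (hPR : ∀ y₀ b₀, PR y₀ b₀ → RingQ Q cr y₀ b₀) :
    CoreCellR Ee D.cl D.cu D.Xc D.ks (fr D.A D.m) D.bb PR cr
      (fun p : {p : Pce // p ∈ P.map (PD.pce D L)} => p.1.pc) := by
  have F := cellF_of hD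
  have hkp : (0 : ℝ) < D.kp := by
    simp only [Cell.ok, Bool.and_eq_true] at hD
    obtain ⟨a1, a2, a3, a4, a5, a6, a7, a8, a9, a10, a11⟩ := of_decide_eq_true hD.1.1.1.1.1
    exact_mod_cast a6
  have key : ∀ p ∈ P, PieceV Q Ee D.cl D.cu D.Xc (fr D.A D.m) (p.pce D L).pc ∧
      PieceK Q Ee D.cl D.cu D.Xc D.ks (fr D.A D.m) D.bb (p.pce D L).pc := by
    intro p hp
    have h := List.all_eq_true.1 hP p hp
    simp only [corB, Bool.and_eq_true] at h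
    obtain ⟨⟨⟨⟨h1, h2⟩, h3⟩, h4⟩, h5⟩ := h
    obtain ⟨i1, i2, i3, i4⟩ := of_decide_eq_true h1
    obtain ⟨r1, r2⟩ := of_decide_eq_true h2
    obtain ⟨t1, t2, t3, t4⟩ := of_decide_eq_true h3
    have h4 := of_decide_eq_true h4
    obtain ⟨k1, k2⟩ := of_decide_eq_true h5
    have q1 := hL _ (nd_mem i1)
    have q2 := hL _ (nd_mem i2)
    have hld : (0 : ℚ) < p.ld := by exact_mod_cast i4
    have l0 : (0 : ℝ) ≤ (p.l : ℝ) := by
      have : (0 : ℚ) ≤ p.l := div_nonneg (by exact_mod_cast Nat.zero_le _) hld.le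
      exact_mod_cast this
    have l1 : (p.l : ℝ) ≤ 1 := by
      have : p.l ≤ 1 := (div_le_one hld).2 (by exact_mod_cast i3)
      exact_mod_cast this
    have hh : ((p.r.h1 : ℚ) : ℝ) ^ 2 ≤ (1 - (p.l : ℝ)) * ((nd L p.i).th : ℝ) +
        (p.l : ℝ) * ((nd L p.j).th : ℝ) := by
      have : p.r.h1 ^ 2 ≤ (1 - p.l) * (nd L p.i).th + p.l * (nd L p.j).th := by
        unfold PD.l
        rw [show (1 - (p.ln : ℚ) / p.ld) * (nd L p.i).th + (p.ln : ℚ) / p.ld * (nd L p.j).th =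
          (((p.ld : ℚ) - p.ln) * (nd L p.i).th + p.ln * (nd L p.j).th) / p.ld by field_simp,
          le_div_iff₀ hld]
        exact h4
      exact_mod_cast this
    have kk : ∀ x : Nod, 4 * D.ks * x.K.Kd ≤ x.K.n0 * D.kp → 0 < x.K.Kd →
        4 / (D.kp : ℝ) * D.ks ≤ (x.K.n0 : ℝ) / x.K.Kd := by
      intro x hx hK
      have hKr : (0 : ℝ) < x.K.Kd := by exact_mod_cast hK
      have hx' : 4 * (D.ks : ℝ) * x.K.Kd ≤ x.K.n0 * D.kp := by exact_mod_cast hx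
      rw [div_mul_eq_mul_div, div_le_div_iff₀ hkp hKr]
      exact hx'
    refine ⟨?_, ?_⟩
    · exact TabQ.pieceV2 HQ q1.V q2.V le_rfl F.N F.ρ (by exact_mod_cast t1) (by exact_mod_cast t2)
        (by exact_mod_cast t3) (by exact_mod_cast t4) (by
          change ((nd L p.i).rho : ℝ) ≤ (p.r.s0 : ℝ)
          exact_mod_cast r1) (by
          change ((nd L p.j).rho : ℝ) ≤ (p.r.s0 : ℝ)
          exact_mod_cast r2) l0 l1 hh rfl
    · exact TabQ.pieceK2 HQ q1.K q2.K le_rfl F.N F.ρ F.k (kk _ k1 q1.K.P.g.K) (kk _ k2 q2.K.P.g.K)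
        F.bb (by exact_mod_cast t1) (by exact_mod_cast t2)
        (by exact_mod_cast t3) (by exact_mod_cast t4) (by
          change ((nd L p.i).rho : ℝ) ≤ (p.r.s0 : ℝ)
          exact_mod_cast r1) (by
          change ((nd L p.j).rho : ℝ) ≤ (p.r.s0 : ℝ)
          exact_mod_cast r2) l0 l1 hh rfl
  refine core_ofL HQ hPR (fun p hp => ?_) fun p hp => ?_
  · obtain ⟨p', h1, h2⟩ := List.mem_map.1 hp
    rw [← h2]
    exact (key p' h1).1
  · obtain ⟨p', h1, h2⟩ := List.mem_map.1 hp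
    rw [← h2]
    exact (key p' h1).2

/-- **the exterior of the pieces** -/
theorem ext_gen {D : Cell} (hD : D.ok = true) {Lm : List (ℚ × ℚ)} {cr r : ℚ} {L : List Nod}
    {P : List PD} (hP : (P.all fun p => extOk D Lm cr r p.r p.e p.el) = true) {PR : ℝ → ℝ → Prop}
    {Vlo : ℝ} (hv : Lm = [] ∨ ((r : ℝ) ≤ Vlo / 2 ∧ ∀ p ∈ Lm, PR (p.1 : ℝ) (p.2 : ℝ))) :
    ∀ p ∈ P.map (PD.pce D L), p.Ext D PR cr Vlo := by
  intro p hp
  obtain ⟨p', h1, h2⟩ := List.mem_map.1 hp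
  rw [← h2]
  exact ext_of hD (p := p'.pce D L) (List.all_eq_true.1 hP p' h1) rfl rfl hv

/-- **a cell from nodes and pieces** -/
theorem cell_gen {Q : E3 → E3 → E3 → E3 → E3 → ℝ} {ψ : ℝ → ℝ} (HQ : MCQ Q ψ) {D : Cell}
    (hD : D.ok = true) {Ee : ℝ} (hE : 0 ≤ Ee) (hse : √Ee ≤ D.se) {Vlo : ℝ}
    (hVlo : Vlo ≤ 0 ∨ Close Vlo) {Lm : List (ℚ × ℚ)} {cr r : ℚ} {PR : ℝ → ℝ → Prop}
    (hPR : ∀ y₀ b₀, PR y₀ b₀ → RingQ Q cr y₀ b₀)
    (hv : Lm = [] ∨ ((r : ℝ) ≤ Vlo / 2 ∧ ∀ p ∈ Lm, PR (p.1 : ℝ) (p.2 : ℝ)))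
    {L : List Nod} (hL : ∀ x ∈ L, NodQ Q D x) {P : List PD} {hs ss : List ℚ}
    (hc : covOk hs ss (P.map PD.r) = true) (h1 : (P.all fun p => corB D L p) = true)
    (h2 : (P.all fun p => extOk D Lm cr r p.r p.e p.el) = true)
    (h3 : ∀ p ∈ P, (p.pce D L).Sc D) : CellM D.kap Ee D.sg D.cl D.cu D.Xc D.k :=
  cellM_ofL (L := P.map (PD.pce D L)) (hs := hs) (ss := ss) (PR := PR) (cr := cr) hD hE hse hVlo
    (by
      rw [List.map_map]
      exact hc)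
    (ext_gen hD h2 hv) (fun p hp => by
      obtain ⟨p', h4, h5⟩ := List.mem_map.1 hp
      rw [← h5]
      exact h3 p' h4) (core_gen HQ hD hL h1 hPR)

end MCL

end Pool.Agent.FPX
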