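import Mathlib
import Pool.Agent.FPX.RWC

/-
RWB (helper91): the scalar conditions of the modulus closing (`ScalI` of FINP) from lists of lower bounds.
`ELow l S Z X f`: for `0 < m ≤ X` some entry `(d, M, w, c)` of the list has `m ≤ M / Z`,
`m w / S - c / S ≤ f m`.
`hiB`, `loB`: Booleans; `hiB_sound`, `loB_sound`: the conditions for all charges.
-/

noncomputable section

namespace Pool.Agent.FPX.MCW

/-- lower bounds of a function by a list -/
def ELow (l : List EN) (S : ℤ) (Z : ℕ) (X : ℝ) (f : ℝ → ℝ) : Prop :=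
  ∀ m : ℝ, 0 < m → m ≤ X → ∃ e ∈ l, m ≤ (e.M : ℝ) / Z ∧ m * ((e.w : ℝ) / S) - (e.c : ℝ) / S ≤ f m

/-- the least integer `≥ x P` -/
def upq (x : ℚ) (P : ℕ) : ℤ := -((-(x.num * P)) / (x.den : ℤ))

theorem le_upq (x : ℚ) {P : ℕ} (hP : 0 < P) : (x : ℝ) ≤ (upq x P : ℝ) / P := by
  have hPr : (0 : ℝ) < P := by exact_mod_cast hP
  have hd : (0 : ℤ) < (x.den : ℤ) := by exact_mod_cast x.den_pos
  have hdr : (0 : ℝ) < (x.den : ℝ) := by exact_mod_cast x.den_pos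
  have h1 : (((-(x.num * P)) / (x.den : ℤ) : ℤ) : ℝ) ≤ ((-(x.num * P) : ℤ) : ℝ) / ((x.den : ℤ) : ℝ) :=
    cast_ediv_le hd
  have h2 : (x : ℝ) = (x.num : ℝ) / x.den := by
    exact_mod_cast (Rat.num_div_den x).symm
  rw [le_div_iff₀ hPr, h2]
  unfold upq
  push_cast at h1 ⊢
  have e : (x.num : ℝ) / x.den * P = -(-((x.num : ℝ) * P) / x.den) := by ring
  rw [e]
  linarith

/-! ### the parabola in the level -/

/-- the maximum of `B s - Q s²` on `[s0, s1]` -/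
def mn (Q B s0 s1 : ℚ) : ℚ :=
  if B ≤ 2 * Q * s0 then B * s0 - Q * s0 * s0
  else if 2 * Q * s1 ≤ B then B * s1 - Q * s1 * s1
  else B * B / (4 * Q)

theorem mn_spec {Q B s0 s1 : ℚ} (hQ : 0 < Q) {s : ℝ} (h0 : (s0 : ℝ) ≤ s) (h1 : s ≤ s1) :
    -((mn Q B s0 s1 : ℚ) : ℝ) ≤ (Q : ℝ) * s ^ 2 - B * s := by
  have hQr : (0 : ℝ) < Q := by exact_mod_cast hQ
  unfold mn
  split_ifs with c1 c2
  · have c1r : (B : ℝ) ≤ 2 * Q * s0 := by exact_mod_cast c1
    push_cast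
    have : 0 ≤ (s - s0) * ((Q : ℝ) * (s + s0) - B) := by
      refine mul_nonneg (by linarith) ?_
      nlinarith
    nlinarith
  · have c2r : 2 * (Q : ℝ) * s1 ≤ B := by exact_mod_cast c2
    push_cast
    have : 0 ≤ ((s1 : ℝ) - s) * (B - (Q : ℝ) * (s + s1)) := by
      refine mul_nonneg (by linarith) ?_
      nlinarith
    nlinarith
  · push_cast
    have e : (Q : ℝ) * s ^ 2 - B * s - -((B : ℝ) * B / (4 * Q)) = (2 * Q * s - B) ^ 2 / (4 * Q) := by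
      field_simp
      ring
    have : 0 ≤ (2 * (Q : ℝ) * s - B) ^ 2 / (4 * Q) := by positivity
    linarith

/-! ### levels above `1/4` -/

/-- `mn(Q, B) - X - g ≤ V - m` for all `m` -/
def hiB (S : ℤ) (Z P : ℕ) (X B g Q s0 s1 : ℚ) (l : List EN) : Bool :=
  let q0 := upq (mn Q B s0 s1 - X - g) P
  decide (q0 ≤ 0) && rowL S Z P q0 P 0 l

/-- a convex requirement from the two ends -/
theorem conv_at {q0 q1 q2 c μ w m : ℝ} (h0 : q0 + c ≤ 0) (h2 : 0 ≤ q2) (hm : 0 < m) (hmμ : m ≤ μ)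
    (h : q0 + q1 * μ + q2 * μ ^ 2 + c ≤ μ * w) : q0 + q1 * m + q2 * m ^ 2 + c ≤ m * w := by
  have hμ0 : 0 < μ := hm.trans_le hmμ
  have k1 := mul_le_mul_of_nonneg_left h hm.le
  have k2 := mul_nonneg (mul_nonneg h2 (mul_nonneg hm.le hμ0.le)) (sub_nonneg.2 hmμ)
  have k3 := mul_le_mul_of_nonneg_right h0 (sub_nonneg.2 hmμ)
  refine le_of_mul_le_mul_left ?_ hμ0
  nlinarith

/-- the requirement at the end of the entry -/
theorem row_end {S : ℤ} {Z P : ℕ} (hS : 0 < S) (hZ : 0 < Z) (hP : 0 < P) {q0 q1 q2 : ℤ} {e : EN}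
    (h : S * (q0 * Z ^ 2 + q1 * Z * e.M + q2 * (e.M * e.M)) + P * Z ^ 2 * e.c ≤ P * Z * e.M * e.w) :
    (q0 : ℝ) / P + (q1 : ℝ) / P * ((e.M : ℝ) / Z) + (q2 : ℝ) / P * ((e.M : ℝ) / Z) ^ 2 + (e.c : ℝ) / S ≤
      (e.M : ℝ) / Z * ((e.w : ℝ) / S) := by
  have hPr : (0 : ℝ) < P := by exact_mod_cast hP
  have hZr : (0 : ℝ) < Z := by exact_mod_cast hZ
  have hSr : (0 : ℝ) < S := by exact_mod_cast hS
  have h5r : (S : ℝ) * (q0 * Z ^ 2 + q1 * Z * e.M + q2 * (e.M * e.M)) + P * Z ^ 2 * e.c ≤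
      P * Z * e.M * e.w := by exact_mod_cast h
  have e1 : (q0 : ℝ) / P + (q1 : ℝ) / P * ((e.M : ℝ) / Z) + (q2 : ℝ) / P * ((e.M : ℝ) / Z) ^ 2 +
      (e.c : ℝ) / S = ((S : ℝ) * (q0 * Z ^ 2 + q1 * Z * e.M + q2 * (e.M * e.M)) + P * Z ^ 2 * e.c) /
        (S * Z ^ 2 * P) := by
    field_simp
  have e2 : (e.M : ℝ) / Z * ((e.w : ℝ) / S) = (P * Z * e.M * e.w) / (S * Z ^ 2 * P) := by
    field_simp
  rw [e1, e2]
  exact div_le_div_of_nonneg_right h5r (by positivity)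

/-- the requirement at `0` -/
theorem row_zero {S : ℤ} {P : ℕ} (hS : 0 < S) (hP : 0 < P) {q0 : ℤ} {c : ℕ}
    (h : S * q0 + P * c ≤ 0) : (q0 : ℝ) / P + (c : ℝ) / S ≤ 0 := by
  have hPr : (0 : ℝ) < P := by exact_mod_cast hP
  have hSr : (0 : ℝ) < S := by exact_mod_cast hS
  have h5r : (S : ℝ) * q0 + P * c ≤ 0 := by exact_mod_cast h
  have e1 : (q0 : ℝ) / P + (c : ℝ) / S = ((S : ℝ) * q0 + P * c) / (S * P) := by
    field_simp
  rw [e1]
  exact div_nonpos_of_nonpos_of_nonneg h5r (by positivity)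

theorem hiB_sound {S : ℤ} {Z P : ℕ} (hS : 0 < S) (hZ : 0 < Z) (hP : 0 < P) {X B g Q s0 s1 : ℚ}
    {l : List EN} (h : hiB S Z P X B g Q s0 s1 l = true) {X' : ℝ} {f : ℝ → ℝ} (hf : ELow l S Z X' f)
    (hf0 : 0 ≤ f 0) {m m' : ℝ} (hm : 0 ≤ m) (hmm : m ≤ m') (hmX : m' ≤ X') :
    ((mn Q B s0 s1 : ℚ) : ℝ) - X - g ≤ f m' - m := by
  simp only [hiB, Bool.and_eq_true, decide_eq_true_eq] at h
  obtain ⟨h1, h2⟩ := h
  have hPr : (0 : ℝ) < P := by exact_mod_cast hP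
  have h3 := le_upq (mn Q B s0 s1 - X - g) hP
  set q0 := upq (mn Q B s0 s1 - X - g) P
  push_cast at h3
  have h0r : (q0 : ℝ) / P ≤ 0 := div_nonpos_of_nonpos_of_nonneg (by exact_mod_cast h1) hPr.le
  rcases (hm.trans hmm).eq_or_lt with h0 | h0
  · have hm0 : m = 0 := le_antisymm (by rw [h0]; exact hmm) hm
    rw [← h0, hm0]
    linarith
  · obtain ⟨e, he, h4, h5⟩ := hf m' h0 hmX
    obtain ⟨h6, h6'⟩ := rowL_mem h2 e he
    have h7 := row_end (P := P) hS hZ hP (e := e) (q0 := q0) (q1 := P) (q2 := 0) (by exact_mod_cast h6)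
    have h8 := row_zero (P := P) (c := e.c) (q0 := q0) hS hP (by exact_mod_cast h6')
    have h9 := conv_at h8 (by simp) h0 h4 h7
    have e1 : ((P : ℤ) : ℝ) / P = 1 := by
      push_cast
      exact div_self hPr.ne'
    rw [e1] at h9
    simp only [Int.cast_zero, zero_div, zero_mul, add_zero] at h9
    linarith

/-! ### levels below `1/4` -/

/-- the test of the entries: either `l = 2 β m` or `l = Q m / (4 μ)` -/
def loL (S : ℤ) (Z P : ℕ) (q0 q1 q2 r0 : ℤ) (M0 : ℕ) : List EN → Bool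
  | [] => true
  | e :: l => (decide (S * (q0 * Z ^ 2 + q1 * Z * e.M + q2 * (e.M * e.M)) + P * Z ^ 2 * e.c ≤
      P * Z * e.M * e.w) ||
      (decide (M0 ≤ e.M) && decide (S * (r0 * Z ^ 2 + P * Z * e.M) + P * Z ^ 2 * e.c ≤
      P * Z * e.M * e.w))) && decide (S * q0 + P * e.c ≤ 0) && loL S Z P q0 q1 q2 r0 M0 l

theorem loL_mem {S : ℤ} {Z P : ℕ} {q0 q1 q2 r0 : ℤ} {M0 : ℕ} : ∀ {l : List EN},
    loL S Z P q0 q1 q2 r0 M0 l = true → ∀ e ∈ l,
    (S * (q0 * Z ^ 2 + q1 * Z * e.M + q2 * (e.M * e.M)) + P * Z ^ 2 * e.c ≤ P * Z * e.M * e.w ∨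
      (M0 ≤ e.M ∧ S * (r0 * Z ^ 2 + P * Z * e.M) + P * Z ^ 2 * e.c ≤ P * Z * e.M * e.w)) ∧
      S * q0 + P * e.c ≤ 0
  | e :: l, h, e', he' => by
    rw [loL, Bool.and_eq_true, Bool.and_eq_true, Bool.or_eq_true, Bool.and_eq_true, decide_eq_true_eq,
      decide_eq_true_eq, decide_eq_true_eq, decide_eq_true_eq] at h
    rcases List.mem_cons.1 he' with h1 | h1
    · rw [h1]
      exact h.1
    · exact loL_mem h.2 e' h1
  | [], _, e', he' => by simp at he'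

/-- for all `m` some `l ≤ 2 β m` has `m + l² / Q - l / 2 ≤ V + g` -/
def loB (S : ℤ) (Z P : ℕ) (β Q g : ℚ) (l : List EN) : Bool :=
  decide (0 ≤ g) && decide (0 < β) && decide (β ≤ 1) &&
    loL S Z P (upq (-g) P) (upq (1 - β) P) (upq (4 * β * β / Q) P) (upq (-(Q / 16) - g) P)
      (upq (Q / (8 * β)) Z).toNat l

theorem loB_sound {S : ℤ} {Z P : ℕ} (hS : 0 < S) (hZ : 0 < Z) (hP : 0 < P) {β Q g : ℚ} (hQ : 0 < Q)
    {l : List EN} (h : loB S Z P β Q g l = true) {X' : ℝ} {f : ℝ → ℝ} (hf : ELow l S Z X' f)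
    (hf0 : 0 ≤ f 0) {m m' : ℝ} (hm : 0 ≤ m) (hmm : m ≤ m') (hmX : m' ≤ X') :
    ∃ l' : ℝ, 0 ≤ l' ∧ l' ≤ 2 * β * m ∧ m + l' ^ 2 / Q - l' / 2 ≤ f m' + g := by
  simp only [loB, Bool.and_eq_true, decide_eq_true_eq] at h
  obtain ⟨⟨⟨h1, h2⟩, h3⟩, h4⟩ := h
  have hPr : (0 : ℝ) < P := by exact_mod_cast hP
  have hZr : (0 : ℝ) < Z := by exact_mod_cast hZ
  have hSr : (0 : ℝ) < S := by exact_mod_cast hS
  have hQr : (0 : ℝ) < Q := by exact_mod_cast hQ
  have hgr : (0 : ℝ) ≤ g := by exact_mod_cast h1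
  have hβr : (0 : ℝ) < β := by exact_mod_cast h2
  have hβ1 : (β : ℝ) ≤ 1 := by exact_mod_cast h3
  rcases (hm.trans hmm).eq_or_lt with h0 | h0
  · have hm0 : m = 0 := le_antisymm (by rw [h0]; exact hmm) hm
    refine ⟨0, le_rfl, by rw [hm0]; simp, ?_⟩
    rw [← h0, hm0]
    simp only [ne_eq, OfNat.ofNat_ne_zero, not_false_eq_true, zero_pow, zero_div, add_zero, sub_zero]
    linarith
  obtain ⟨e, he, h5, h6⟩ := hf m' h0 hmX
  -- it is enough to have the inequality at `m'` with slope `θ ≤ 2 β`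
  suffices hh : ∃ θ : ℝ, 0 ≤ θ ∧ θ ≤ 2 * β ∧ m' + (θ * m') ^ 2 / Q - θ * m' / 2 ≤ f m' + g by
    obtain ⟨θ, t0, t1, t2⟩ := hh
    refine ⟨θ * m, by positivity, mul_le_mul_of_nonneg_right t1 hm, ?_⟩
    have k1 : (θ * m) ^ 2 / Q ≤ (θ * m') ^ 2 / Q :=
      div_le_div_of_nonneg_right (pow_le_pow_left₀ (by positivity)
        (mul_le_mul_of_nonneg_left hmm t0) 2) hQr.le
    have k2 : m * (1 - θ / 2) ≤ m' * (1 - θ / 2) := mul_le_mul_of_nonneg_right hmm (by linarith)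
    linarith
  set μ : ℝ := (e.M : ℝ) / Z with hμ
  set w : ℝ := (e.w : ℝ) / S with hw
  set c : ℝ := (e.c : ℝ) / S with hc
  have hμ0 : 0 < μ := h0.trans_le h5
  have a0 := le_upq (-g) hP
  set q0 := upq (-g) P
  obtain ⟨h7, h12⟩ := loL_mem h4 e he
  have h13 := row_zero (P := P) (c := e.c) (q0 := q0) hS hP h12
  rw [← hc] at h13
  push_cast at a0
  have hgc : -(g : ℝ) + c ≤ 0 := by linarith
  rcases h7 with h7 | ⟨h7, h8⟩
  · refine ⟨2 * β, by positivity, le_rfl, ?_⟩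
    have a1 := le_upq (1 - β) hP
    have a2 := le_upq (4 * β * β / Q) hP
    set q1 := upq (1 - β) P
    set q2 := upq (4 * β * β / Q) P
    have h9 := row_end (P := P) hS hZ hP (e := e) (q0 := q0) (q1 := q1) (q2 := q2) h7
    rw [← hμ, ← hw, ← hc] at h9
    push_cast at a1 a2
    have h10 : -(g : ℝ) + (1 - β) * μ + 4 * β * β / Q * μ ^ 2 + c ≤ μ * w := by
      have b1 := mul_le_mul_of_nonneg_right a1 hμ0.le
      have b2 := mul_le_mul_of_nonneg_right a2 (sq_nonneg μ)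
      linarith
    have h11 := conv_at hgc (by positivity) h0 h5 h10
    have e3 : m' + (2 * β * m') ^ 2 / Q - 2 * β * m' / 2 =
        (1 - β) * m' + 4 * β * β / Q * m' ^ 2 := by
      field_simp
      ring
    rw [e3]
    linarith
  · have b0 := le_upq (Q / (8 * β)) hZ
    set M1 := upq (Q / (8 * β)) Z
    have b1 : (Q : ℝ) / (8 * β) ≤ μ := by
      push_cast at b0
      refine b0.trans ?_
      rw [hμ]
      refine div_le_div_of_nonneg_right ?_ hZr.le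
      have b2 : M1 ≤ (e.M : ℤ) := by
        have b3 : M1 ≤ (M1.toNat : ℤ) := Int.self_le_toNat M1
        exact b3.trans (by exact_mod_cast h7)
      exact_mod_cast b2
    have a3 := le_upq (-(Q / 16) - g) hP
    set r0 := upq (-(Q / 16) - g) P
    push_cast at a3
    have h9 := row_end (P := P) hS hZ hP (e := e) (q0 := r0) (q1 := P) (q2 := 0) (by
      rw [zero_mul, add_zero]
      exact_mod_cast h8)
    rw [← hμ, ← hw, ← hc] at h9
    have e1 : ((P : ℤ) : ℝ) / P = 1 := by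
      push_cast
      exact div_self hPr.ne'
    rw [e1] at h9
    simp only [Int.cast_zero, zero_div, zero_mul, add_zero] at h9
    have h10 : -(g : ℝ) + (1 - Q / (8 * μ)) * μ + Q / (16 * μ ^ 2) * μ ^ 2 + c ≤ μ * w := by
      have e2 : -(g : ℝ) + (1 - Q / (8 * μ)) * μ + Q / (16 * μ ^ 2) * μ ^ 2 + c =
          -((Q : ℝ) / 16) - g + μ + c := by
        field_simp
        ring
      rw [e2]
      linarith
    have h11 := conv_at hgc (by positivity) h0 h5 h10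
    refine ⟨(Q : ℝ) / (4 * μ), by positivity, ?_, ?_⟩
    · rw [div_le_iff₀ (by positivity)] at b1 ⊢
      nlinarith
    · have e3 : m' + ((Q : ℝ) / (4 * μ) * m') ^ 2 / Q - Q / (4 * μ) * m' / 2 =
          (1 - Q / (8 * μ)) * m' + Q / (16 * μ ^ 2) * m' ^ 2 := by
        field_simp
        ring
      rw [e3]
      linarith

end Pool.Agent.FPX.MCW
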