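import Mathlib
import Pool.Agent.FPX.MCX
import Pool.Agent.FPX.RWC

/-
RWV (helper91): the value function `Tab.V` (MCX) of a monotone table: the slope in the area
(`slopeOk`, `V_slope`), comparison of two tables (`leTab`), and the shift `(a + a', m + N a')` which tends to
nothing with `a'` (`V_shift`).
-/

noncomputable section

namespace Pool.Agent.FPX.MCW

/-! ### the value function -/

theorem Tab.V_zero (T : Tab) (κ a : ℝ) : T.V κ a 0 = 0 := by
  unfold Tab.V
  rw [zero_mul]

theorem Tab.V_eq (T : Tab) (hf : 0 < (T.f0 : ℝ) / T.S) {κ a m : ℝ} (ha : 0 < a) (hm : 0 < m) :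
    T.V κ a m = m * T.Wf (Real.log (m / (a * ((T.f0 : ℝ) / T.S)))) (4 * m / κ) := by
  unfold Tab.V Tab.sg
  rw [Real.log_div hm.ne' (by positivity), Real.log_mul ha.ne' hf.ne']
  congr 2
  · ring
  · ring

/-! ### more on interpolation -/

theorem ip_add_mul (a b : ℕ → ℝ) (c : ℝ) (n : ℕ) (x : ℝ) :
    ip (fun l => a l + c * b l) n x = ip a n x + c * ip b n x := by
  unfold ip
  rw [mul_add, Finset.mul_sum]
  have e : ∑ l ∈ Finset.range n, (a (l + 1) + c * b (l + 1) - (a l + c * b l)) * cl (x - l) =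
      ∑ l ∈ Finset.range n, (a (l + 1) - a l) * cl (x - l) +
        ∑ l ∈ Finset.range n, c * ((b (l + 1) - b l) * cl (x - l)) := by
    rw [← Finset.sum_add_distrib]
    exact Finset.sum_congr rfl fun l _ => by ring
  rw [e]
  ring

theorem ip_const (c : ℝ) (n : ℕ) (x : ℝ) : ip (fun _ => c) n x = c := by
  unfold ip
  simp

theorem ip_id_nonneg (n : ℕ) (x : ℝ) : 0 ≤ ip (fun l => (l : ℝ)) n x := by
  have h := rw_iple (a := fun _ => (0 : ℝ)) (a' := fun l => (l : ℝ)) (n := n)
    (fun j _ => Nat.cast_nonneg j) x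
  rwa [ip_const] at h

theorem ip_id_le (n : ℕ) (x : ℝ) : ip (fun l => (l : ℝ)) n x ≤ n := by
  have h := rw_iple (a := fun l => (l : ℝ)) (a' := fun _ => (n : ℝ)) (n := n)
    (fun j hj => by exact_mod_cast hj) x
  rwa [ip_const] at h

theorem ip_id {n : ℕ} {x : ℝ} (h0 : 0 ≤ x) (hn : x ≤ n) : ip (fun l => (l : ℝ)) n x = x := by
  induction n with
  | zero =>
    have : x = 0 := le_antisymm (by simpa using hn) h0
    rw [this]
    simp [ip]
  | succ n ih =>
    rw [rw_ips]
    rcases le_total x n with h | h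
    · rw [ih h, cl_of_le (by linarith), mul_zero, add_zero]
    · push_cast at hn
      rw [rw_ipge _ _ h, cl_of_mem (by linarith) (by linarith)]
      push_cast
      ring

theorem ip_id_of_le (n : ℕ) {x : ℝ} (h : x ≤ 0) : ip (fun l => (l : ℝ)) n x = 0 := by
  rw [ip_of_le _ _ h]
  simp

/-- increments at least `c` -/
theorem ip_slope {a : ℕ → ℝ} {n : ℕ} {c : ℝ} (h : ∀ j < n, a j + c ≤ a (j + 1)) {x y : ℝ} (hxy : x ≤ y) :
    ip a n x + c * (ip (fun l => (l : ℝ)) n y - ip (fun l => (l : ℝ)) n x) ≤ ip a n y := by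
  have h1 := rw_ipm (a := fun l => a l + (-c) * (l : ℝ)) (n := n) (fun j hj => by
    have := h j hj
    push_cast
    linarith) hxy
  rw [ip_add_mul, ip_add_mul] at h1
  linarith

/-- Lipschitz in the variable -/
theorem ip_lip {a : ℕ → ℝ} {n : ℕ} {B : ℝ} (h : ∀ j ≤ n, |a j| ≤ B) {x y : ℝ} (hxy : x ≤ y) :
    ip a n x - 2 * B * n * (y - x) ≤ ip a n y := by
  have hB : 0 ≤ B := (abs_nonneg _).trans (h 0 (Nat.zero_le _))
  have key : ∀ l ∈ Finset.range n, (a (l + 1) - a l) * cl (x - l) - 2 * B * (y - x) ≤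
      (a (l + 1) - a l) * cl (y - l) := by
    intro l hl
    have hl' := Finset.mem_range.1 hl
    have h1 := abs_le.1 (h (l + 1) (by omega))
    have h2 := abs_le.1 (h l (by omega))
    have h3 : -(2 * B) ≤ a (l + 1) - a l := by linarith [h1.1, h2.2]
    have h4 : 0 ≤ cl (y - l) - cl (x - l) := by
      have := rw_clm (show x - l ≤ y - (l : ℝ) by linarith)
      linarith
    have h5 : cl (y - l) - cl (x - l) ≤ y - x := by
      unfold cl
      rcases le_total (x - (l : ℝ)) 0 with c1 | c1 <;> rcases le_total (y - (l : ℝ)) 0 with c2 | c2 <;>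
      rcases le_total (x - (l : ℝ)) 1 with c3 | c3 <;> rcases le_total (y - (l : ℝ)) 1 with c4 | c4 <;>
      simp only [min_eq_left, min_eq_right, max_eq_left, max_eq_right, c1, c2, c3, c4, zero_le_one] <;>
      linarith
    have h6 : -(2 * B) * (y - x) ≤ -(2 * B) * (cl (y - l) - cl (x - l)) :=
      mul_le_mul_of_nonpos_left h5 (by linarith)
    have h7 : -(2 * B) * (cl (y - l) - cl (x - l)) ≤ (a (l + 1) - a l) * (cl (y - l) - cl (x - l)) :=
      mul_le_mul_of_nonneg_right h3 h4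
    linarith
  have h8 := Finset.sum_le_sum key
  rw [Finset.sum_sub_distrib, Finset.sum_const, Finset.card_range, nsmul_eq_mul] at h8
  unfold ip
  linarith

/-! ### the slope in the area -/

/-- increments at least `c` -/
def incBy (c : ℤ) : List ℤ → Bool
  | a :: b :: l => decide (a + c ≤ b) && incBy c (b :: l)
  | _ => true

/-- all rows -/
def slRows (D E : ℤ) : ℤ → List (List ℤ) → Bool
  | j, w :: r => incBy (-((-(D * j)) / E)) w && slRows D E (j + 1) r
  | _, [] => true

/-- **the slope test**: `W_σ ≥ (bn / bd)² k` -/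
def slopeOk (T : Tab) (bn bd : ℕ) : Bool :=
  decide (0 < bd) && decide ((bn ^ 2 : ℕ) * T.S ≤ T.b0 * (bd ^ 2 : ℕ)) &&
    slRows ((bn ^ 2 : ℕ) * T.S) (T.H * T.Kd * (bd ^ 2 : ℕ)) 0 T.W

theorem incBy_sound {c : ℤ} : ∀ {l : List ℤ}, incBy c l = true → ∀ i, i + 1 < l.length →
    l.getD i 0 + c ≤ l.getD (i + 1) 0
  | a :: b :: l, h, i, hi => by
    rw [incBy, Bool.and_eq_true, decide_eq_true_eq] at h
    cases i with
    | zero => simpa using h.1
    | succ i => simpa using incBy_sound h.2 i (by simpa using hi)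
  | [_], _, i, hi => by simp at hi
  | [], _, i, hi => by simp at hi

theorem slRows_sound {D E : ℤ} : ∀ {R : List (List ℤ)} {j₀ : ℤ}, slRows D E j₀ R = true →
    ∀ j : ℕ, j < R.length → incBy (-((-(D * (j₀ + j))) / E)) (R.getD j []) = true
  | w :: r, j₀, h, j, hj => by
    rw [slRows, Bool.and_eq_true] at h
    cases j with
    | zero => simpa using h.1
    | succ j =>
      have := slRows_sound h.2 j (by simpa using hj)
      have e : j₀ + 1 + (j : ℤ) = j₀ + ((j + 1 : ℕ) : ℤ) := by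
        push_cast
        ring
      rw [e] at this
      simpa using this
  | [], _, _, j, hj => by simp at hj

/-- increments of the real entries -/
theorem slopeOk_inc {T : Tab} (hT : T.Mon) {bn bd : ℕ} (h : slopeOk T bn bd = true) {j : ℕ} (hj : j ≤ T.J)
    (hJ : 0 < T.J) {i : ℕ} (hi : i < T.I) :
    T.wr j i + ((bn : ℝ) / bd) ^ 2 * (j / (T.H * T.Kd)) ≤ T.wr j (i + 1) := by
  simp only [slopeOk, Bool.and_eq_true, decide_eq_true_eq] at h
  obtain ⟨⟨h1, h2⟩, h3⟩ := h
  have hSr : (0 : ℝ) < T.S := by exact_mod_cast hT.good.S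
  have hHr : (0 : ℝ) < T.H := by exact_mod_cast hT.good.H
  have hKr : (0 : ℝ) < T.Kd := by exact_mod_cast hT.good.K
  have hdr : (0 : ℝ) < bd := by exact_mod_cast h1
  have hJ' : T.J + 1 = T.W.length := by
    unfold Tab.J at hJ ⊢
    omega
  have hI' : T.I + 1 = (T.W.getD 0 []).length := by
    unfold Tab.I at hi ⊢
    omega
  have l1 := hT.good.len j (by omega)
  have h4 := incBy_sound (slRows_sound h3 j (by omega)) i (by omega)
  have hE : (0 : ℤ) < T.H * T.Kd * (bd ^ 2 : ℕ) := by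
    have := hT.good.H
    have := hT.good.K
    positivity
  have h5 : (((-(((bn ^ 2 : ℕ) * T.S) * (0 + (j : ℤ)))) / (T.H * T.Kd * (bd ^ 2 : ℕ)) : ℤ) : ℝ) ≤
      ((-(((bn ^ 2 : ℕ) * T.S) * (0 + (j : ℤ))) : ℤ) : ℝ) / ((T.H * T.Kd * (bd ^ 2 : ℕ) : ℤ) : ℝ) :=
    cast_ediv_le hE
  set z : ℤ := (-(((bn ^ 2 : ℕ) * T.S) * (0 + (j : ℤ)))) / (T.H * T.Kd * (bd ^ 2 : ℕ)) with hz
  have h4' : T.w j i + -z ≤ T.w j (i + 1) := h4
  have h4r : (T.w j i : ℝ) + -z ≤ T.w j (i + 1) := by exact_mod_cast h4'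
  push_cast at h5
  unfold Tab.wr
  have e1 : ((bn : ℝ) / bd) ^ 2 * (j / (T.H * T.Kd)) =
      -(-((bn : ℝ) ^ 2 * T.S * (0 + (j : ℝ))) / (T.H * T.Kd * bd ^ 2)) / T.S := by
    field_simp
    ring
  rw [e1, ← add_div]
  exact div_le_div_of_nonneg_right (by linarith) hSr.le

/-- the slope of a row -/
theorem row_slope {T : Tab} (hT : T.Mon) {bn bd : ℕ} (h : slopeOk T bn bd = true) {j : ℕ} (hj : j ≤ T.J)
    (hJ : 0 < T.J) {x y : ℝ} (hxy : x ≤ y) (hy : y * T.H ≤ T.I) :
    T.row j x + ((bn : ℝ) / bd) ^ 2 * (j / T.Kd) * (y - x) ≤ T.row j y := by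
  have hb := h
  simp only [slopeOk, Bool.and_eq_true, decide_eq_true_eq] at hb
  obtain ⟨⟨h1, h2⟩, -⟩ := hb
  have hSr : (0 : ℝ) < T.S := by exact_mod_cast hT.good.S
  have hHr : (0 : ℝ) < T.H := by exact_mod_cast hT.good.H
  have hKr : (0 : ℝ) < T.Kd := by exact_mod_cast hT.good.K
  have hbr : (0 : ℝ) ≤ T.b0 := by exact_mod_cast hT.good.b
  have hnr : (0 : ℝ) ≤ T.n0 := by exact_mod_cast hT.good.n
  have hdr : (0 : ℝ) < bd := by exact_mod_cast h1
  have h2r : (bn : ℝ) ^ 2 * T.S ≤ T.b0 * bd ^ 2 := by exact_mod_cast h2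
  have hβ : ((bn : ℝ) / bd) ^ 2 ≤ (T.b0 : ℝ) / T.S := by
    rw [div_pow, div_le_div_iff₀ (by positivity) hSr]
    exact h2r
  have k1 := ip_slope (a := T.wr j) (n := T.I) (c := ((bn : ℝ) / bd) ^ 2 * (j / (T.H * T.Kd)))
    (fun i hi => slopeOk_inc hT h hj hJ hi) (mul_le_mul_of_nonneg_right hxy hHr.le)
  have hid : ∀ z : ℝ, z * T.H ≤ T.I → ip (fun l => (l : ℝ)) T.I (z * T.H) = max z 0 * T.H := by
    intro z hz
    rcases le_total z 0 with c | c
    · rw [ip_id_of_le _ (mul_nonpos_of_nonpos_of_nonneg c hHr.le), max_eq_right c, zero_mul]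
    · rw [ip_id (by positivity) hz, max_eq_left c]
  rw [hid y hy, hid x ((mul_le_mul_of_nonneg_right hxy hHr.le).trans hy)] at k1
  have e1 : ((bn : ℝ) / bd) ^ 2 * (j / (T.H * T.Kd)) * (max y 0 * T.H - max x 0 * T.H) =
      ((bn : ℝ) / bd) ^ 2 * (j / T.Kd) * (max y 0 - max x 0) := by
    field_simp
  rw [e1] at k1
  have hmin : 0 ≤ min y 0 - min x 0 := by
    have := min_le_min hxy (le_refl (0 : ℝ))
    linarith
  have k2 : ((bn : ℝ) / bd) ^ 2 * (j / T.Kd) * (min y 0 - min x 0) ≤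
      (T.b0 : ℝ) / T.S * ((j + T.n0) / T.Kd) * (min y 0 - min x 0) := by
    refine mul_le_mul_of_nonneg_right ?_ hmin
    refine mul_le_mul hβ (div_le_div_of_nonneg_right (by linarith) hKr.le) (by positivity) (by positivity)
  have e2 : max y 0 + min y 0 = y := by
    rw [max_add_min, add_zero]
  have e3 : max x 0 + min x 0 = x := by
    rw [max_add_min, add_zero]
  have e4 : ((bn : ℝ) / bd) ^ 2 * (j / T.Kd) * (y - x) =
      ((bn : ℝ) / bd) ^ 2 * (j / T.Kd) * (max y 0 - max x 0) +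
        ((bn : ℝ) / bd) ^ 2 * (j / T.Kd) * (min y 0 - min x 0) := by
    rw [← mul_add]
    congr 1
    linarith
  unfold Tab.row
  rw [e4]
  have e5 : (T.b0 : ℝ) / T.S * ((j + T.n0) / T.Kd) * (min y 0 - min x 0) =
      (T.b0 : ℝ) / T.S * ((j + T.n0) / T.Kd) * min y 0 -
        (T.b0 : ℝ) / T.S * ((j + T.n0) / T.Kd) * min x 0 := by ring
  rw [e5] at k2
  linarith

/-- **the slope of `W`** -/
theorem Wf_slope {T : Tab} (hT : T.Mon) {bn bd : ℕ} (h : slopeOk T bn bd = true) (hJ : 0 < T.J)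
    {x y k : ℝ} (hxy : x ≤ y) (hy : y * T.H ≤ T.I) (hk : 0 ≤ k) (hk' : k * T.Kd ≤ T.J) :
    T.Wf x k + ((bn : ℝ) / bd) ^ 2 * k * (y - x) ≤ T.Wf y k := by
  have hKr : (0 : ℝ) < T.Kd := by exact_mod_cast hT.good.K
  have k1 := rw_iple (a := fun j => T.row j x + ((bn : ℝ) / bd) ^ 2 * (y - x) / T.Kd * (j : ℝ))
    (a' := fun j => T.row j y) (n := T.J) (fun j hj => by
      have := row_slope hT h hj hJ hxy hy
      have e : ((bn : ℝ) / bd) ^ 2 * (j / T.Kd) * (y - x) =
          ((bn : ℝ) / bd) ^ 2 * (y - x) / T.Kd * (j : ℝ) := by ring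
      rw [e] at this
      exact this) (k * T.Kd)
  rw [ip_add_mul, ip_id (by positivity) hk'] at k1
  have e : ((bn : ℝ) / bd) ^ 2 * (y - x) / T.Kd * (k * T.Kd) = ((bn : ℝ) / bd) ^ 2 * k * (y - x) := by
    field_simp
  rw [e] at k1
  exact k1

/-- **the slope of `V` in the area** -/
theorem V_slope {T : Tab} (hT : T.Mon) {bn bd : ℕ} (h : slopeOk T bn bd = true) (hJ : 0 < T.J)
    {κ N X a ab m : ℝ} (hκ : 0 < κ) (hN : N ≤ (T.f0 : ℝ) / T.S * Real.exp (T.I / T.H))
    (hX : 4 / κ * X * T.Kd ≤ T.J) (ha0 : 0 ≤ a) (ha : a ≤ ab) (hm : 0 ≤ m) (hmN : m ≤ N * a) (hmX : m ≤ X) :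
    T.V κ ab m + 4 * ((bn : ℝ) / bd) ^ 2 * m ^ 2 / κ * Real.log (ab / a) ≤ T.V κ a m := by
  rcases hm.eq_or_lt with h0 | h0
  · rw [← h0, T.V_zero, T.V_zero]
    simp
  have hSr : (0 : ℝ) < T.S := by exact_mod_cast hT.good.S
  have hHr : (0 : ℝ) < T.H := by exact_mod_cast hT.good.H
  have hKr : (0 : ℝ) < T.Kd := by exact_mod_cast hT.good.K
  have hfr : (0 : ℝ) < T.f0 := by exact_mod_cast hT.good.f
  have hf : (0 : ℝ) < (T.f0 : ℝ) / T.S := by positivity
  have ha1 : 0 < a := by
    rcases ha0.eq_or_lt with c | c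
    · rw [← c, mul_zero] at hmN
      linarith
    · exact c
  have hab : 0 < ab := ha1.trans_le ha
  rw [T.V_eq hf ha1 h0, T.V_eq hf hab h0]
  set x := Real.log (m / (ab * ((T.f0 : ℝ) / T.S))) with hx
  set y := Real.log (m / (a * ((T.f0 : ℝ) / T.S))) with hy
  have hyx : y - x = Real.log (ab / a) := by
    rw [hx, hy, Real.log_div h0.ne' (by positivity), Real.log_div h0.ne' (by positivity),
      Real.log_mul ha1.ne' hf.ne', Real.log_mul hab.ne' hf.ne', Real.log_div hab.ne' ha1.ne']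
    ring
  have hxy : x ≤ y := by
    have : 0 ≤ Real.log (ab / a) := Real.log_nonneg ((one_le_div ha1).2 ha)
    linarith
  have hyI : y * T.H ≤ T.I := by
    have h1 : m ≤ a * ((T.f0 : ℝ) / T.S) * Real.exp (T.I / T.H) := by
      have := mul_le_mul_of_nonneg_right hN ha0
      nlinarith
    have h2 : y ≤ T.I / T.H := by
      rw [hy, Real.log_le_iff_le_exp (by positivity), div_le_iff₀ (by positivity)]
      linarith
    rwa [le_div_iff₀ hHr] at h2
  have hk0 : 0 ≤ 4 * m / κ := by positivity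
  have hkJ : 4 * m / κ * T.Kd ≤ T.J := by
    refine le_trans ?_ hX
    have h1 : 4 * m / κ = 4 / κ * m := by ring
    rw [h1]
    exact mul_le_mul_of_nonneg_right (mul_le_mul_of_nonneg_left hmX (by positivity)) hKr.le
  have key := Wf_slope hT h hJ hxy hyI hk0 hkJ
  rw [hyx] at key
  have k1 := mul_le_mul_of_nonneg_left key h0.le
  have e : m * (T.Wf x (4 * m / κ) + ((bn : ℝ) / bd) ^ 2 * (4 * m / κ) * Real.log (ab / a)) =
      m * T.Wf x (4 * m / κ) + 4 * ((bn : ℝ) / bd) ^ 2 * m ^ 2 / κ * Real.log (ab / a) := by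
    ring
  rw [e] at k1
  exact k1

/-! ### comparison of two tables -/

/-- entrywise comparison of tables (`K ≤ T`), at least as many rows in `K` -/
def leRows : List (List ℤ) → List (List ℤ) → Bool
  | w :: r, v :: q => leOk w v && leRows r q
  | [], [] => true
  | _, _ => false

/-- **the test `V_K ≤ V`** -/
def leTab (K T : Tab) : Bool :=
  decide (K.S = T.S) && decide (K.H = T.H) && decide (K.Kd = T.Kd) && decide (K.f0 = T.f0) &&
    decide (K.b0 = T.b0) && decide (T.n0 ≤ K.n0) && decide (K.I = T.I) && decide (K.J = T.J) &&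
    leRows K.W T.W

theorem leRows_sound : ∀ {R Q : List (List ℤ)}, leRows R Q = true → ∀ j, j < R.length →
    leOk (R.getD j []) (Q.getD j []) = true
  | w :: r, v :: q, h, j, hj => by
    rw [leRows, Bool.and_eq_true] at h
    cases j with
    | zero => simpa using h.1
    | succ j => simpa using leRows_sound h.2 j (by simpa using hj)
  | [], [], _, j, hj => by simp at hj
  | [], _ :: _, h, _, _ => by simp [leRows] at h
  | _ :: _, [], h, _, _ => by simp [leRows] at h

theorem V_le_of_leTab {K T : Tab} (hK : K.Mon) (hT : T.Mon) (h : leTab K T = true) (hJ : 0 < T.J)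
    (hI : 0 < T.I) {κ a m : ℝ} (hm : 0 ≤ m) : K.V κ a m ≤ T.V κ a m := by
  simp only [leTab, Bool.and_eq_true, decide_eq_true_eq] at h
  obtain ⟨⟨⟨⟨⟨⟨⟨⟨h1, h2⟩, h3⟩, h4⟩, h5⟩, h6⟩, h7⟩, h8⟩, h9⟩ := h
  have hSr : (0 : ℝ) < T.S := by exact_mod_cast hT.good.S
  have hKr : (0 : ℝ) < T.Kd := by exact_mod_cast hT.good.K
  have hbr : (0 : ℝ) ≤ T.b0 := by exact_mod_cast hT.good.b
  have h6r : (T.n0 : ℝ) ≤ K.n0 := by exact_mod_cast h6
  have hJ' : T.J + 1 = T.W.length := by
    unfold Tab.J at hJ ⊢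
    omega
  have hJK : K.J + 1 = K.W.length := by
    have : 0 < K.J := by omega
    unfold Tab.J at this ⊢
    omega
  have hI' : T.I + 1 = (T.W.getD 0 []).length := by
    unfold Tab.I at hI ⊢
    omega
  have hIK : K.I + 1 = (K.W.getD 0 []).length := by
    have : 0 < K.I := by omega
    unfold Tab.I at this ⊢
    omega
  unfold Tab.V Tab.sg
  rw [h4, h1]
  refine mul_le_mul_of_nonneg_left ?_ hm
  set σ := Real.log m - Real.log a - Real.log ((T.f0 : ℝ) / T.S)
  unfold Tab.Wf
  rw [h3, h8]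
  refine rw_iple (fun j hj => ?_) _
  unfold Tab.row
  rw [h2, h7]
  refine add_le_add (rw_iple (fun i hi => ?_) _) ?_
  · have l1 := hT.good.len j (by omega)
    have l2 := hK.good.len j (by omega)
    have k1 := leOk_sound (leRows_sound h9 j (by omega)) i (by omega) (by omega)
    unfold Tab.wr Tab.w
    rw [h1]
    exact div_le_div_of_nonneg_right (by exact_mod_cast k1) hSr.le
  · rw [h1, h3, h5]
    refine mul_le_mul_of_nonpos_right ?_ (min_le_right _ _)
    exact mul_le_mul_of_nonneg_left (div_le_div_of_nonneg_right (by linarith) hKr.le) (by positivity)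

/-! ### the shift -/

/-- the interpolated entries -/
def Tab.Af (T : Tab) (σ k : ℝ) : ℝ := ip (fun j => ip (T.wr j) T.I (σ * T.H)) T.J (k * T.Kd)

theorem Tab.Wf_split (T : Tab) (σ k : ℝ) : T.Wf σ k = T.Af σ k +
    (T.b0 : ℝ) / T.S / T.Kd * (ip (fun l => (l : ℝ)) T.J (k * T.Kd) + T.n0) * min σ 0 := by
  unfold Tab.Wf Tab.Af
  have e1 : (fun j => T.row j σ) = fun j => (fun j => ip (T.wr j) T.I (σ * T.H)) j +
      1 * ((fun j : ℕ => (T.b0 : ℝ) / T.S / T.Kd * T.n0 * min σ 0 +
        (T.b0 : ℝ) / T.S / T.Kd * min σ 0 * (j : ℝ)) j) := by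
    funext j
    unfold Tab.row
    ring
  rw [e1, ip_add_mul, ip_add_mul (fun _ => (T.b0 : ℝ) / T.S / T.Kd * T.n0 * min σ 0), ip_const]
  ring

/-- a bound of all entries -/
def Tab.bd (T : Tab) : ℝ := ∑ j ∈ Finset.range (T.J + 1), ∑ i ∈ Finset.range (T.I + 1), |T.wr j i|

theorem Tab.bd_nonneg (T : Tab) : 0 ≤ T.bd :=
  Finset.sum_nonneg fun _ _ => Finset.sum_nonneg fun _ _ => abs_nonneg _

theorem Tab.wr_bd (T : Tab) {j i : ℕ} (hj : j ≤ T.J) (hi : i ≤ T.I) : |T.wr j i| ≤ T.bd := by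
  have h1 : |T.wr j i| ≤ ∑ i ∈ Finset.range (T.I + 1), |T.wr j i| :=
    Finset.single_le_sum (f := fun i => |T.wr j i|) (fun _ _ => abs_nonneg _)
      (Finset.mem_range.2 (by omega))
  have h2 : (fun j => ∑ i ∈ Finset.range (T.I + 1), |T.wr j i|) j ≤ T.bd :=
    Finset.single_le_sum (f := fun j => ∑ i ∈ Finset.range (T.I + 1), |T.wr j i|)
      (fun _ _ => Finset.sum_nonneg fun _ _ => abs_nonneg _) (Finset.mem_range.2 (by omega))
  exact h1.trans h2

theorem ip_abs {a : ℕ → ℝ} {n : ℕ} {B : ℝ} (h : ∀ j ≤ n, |a j| ≤ B) (x : ℝ) : |ip a n x| ≤ B := by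
  rw [abs_le]
  have h1 := rw_iple (a := fun _ => -B) (a' := a) (n := n) (fun j hj => (abs_le.1 (h j hj)).1) x
  have h2 := rw_iple (a := a) (a' := fun _ => B) (n := n) (fun j hj => (abs_le.1 (h j hj)).2) x
  rw [ip_const] at h1 h2
  exact ⟨h1, h2⟩

theorem Tab.rowA_bd (T : Tab) {j : ℕ} (hj : j ≤ T.J) (x : ℝ) : |ip (T.wr j) T.I x| ≤ T.bd :=
  ip_abs (fun _ hi => T.wr_bd hj hi) x

theorem Tab.Af_bd (T : Tab) (σ k : ℝ) : |T.Af σ k| ≤ T.bd := ip_abs (fun _ hj => T.rowA_bd hj _) _

theorem Tab.Mon.Af_mono {T : Tab} (h : T.Mon) {x y : ℝ} (hxy : x ≤ y) (k : ℝ) : T.Af x k ≤ T.Af y k := by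
  have hHr : (0 : ℝ) < T.H := by exact_mod_cast h.good.H
  exact rw_iple (fun j hj => rw_ipm (h.inc j hj) (mul_le_mul_of_nonneg_right hxy hHr.le)) _

/-- `t log (B / t)` is small -/
theorem tlog_le {B t : ℝ} (hB : 0 < B) (ht : 0 < t) : t * (-min (Real.log (t / B)) 0) ≤ 2 * √(B * t) := by
  rcases le_total (Real.log (t / B)) 0 with h | h
  · rw [min_eq_left h]
    have h1 : -Real.log (t / B) = 2 * Real.log √(B / t) := by
      rw [Real.log_sqrt (by positivity), Real.log_div ht.ne' hB.ne', Real.log_div hB.ne' ht.ne']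
      ring
    have h2 : Real.log √(B / t) ≤ √(B / t) - 1 := Real.log_le_sub_one_of_pos (by positivity)
    have h3 : t * √(B / t) = √(B * t) := by
      have e : B * t = t ^ 2 * (B / t) := by field_simp
      rw [e, Real.sqrt_mul (sq_nonneg t), Real.sqrt_sq ht.le]
    rw [h1]
    nlinarith
  · rw [min_eq_right h, neg_zero, mul_zero]
    positivity

/-- **the shift tends to nothing** -/
theorem Tab.Mon.V_shift {T : Tab} (hT : T.Mon) {κ N X a₁ : ℝ} (hκ : 0 < κ) (hN : 0 < N) (hX : 0 ≤ X)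
    (ha₁ : 0 ≤ a₁) : ∃ C : ℝ, 0 ≤ C ∧ ∀ a m a' : ℝ, 0 ≤ a → a ≤ a₁ → 0 ≤ m → m ≤ N * a → m ≤ X →
      0 < a' → a' ≤ 1 → T.V κ a m - C * √a' ≤ T.V κ (a + a') (m + N * a') := by
  have hSr : (0 : ℝ) < T.S := by exact_mod_cast hT.good.S
  have hHr : (0 : ℝ) < T.H := by exact_mod_cast hT.good.H
  have hKr : (0 : ℝ) < T.Kd := by exact_mod_cast hT.good.K
  have hfr : (0 : ℝ) < T.f0 := by exact_mod_cast hT.good.f
  have hbr : (0 : ℝ) ≤ T.b0 := by exact_mod_cast hT.good.b
  have hnr : (0 : ℝ) ≤ T.n0 := by exact_mod_cast hT.good.n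
  set f : ℝ := (T.f0 : ℝ) / T.S with hf
  have hf0 : 0 < f := by positivity
  set b : ℝ := (T.b0 : ℝ) / T.S / T.Kd with hb
  have hb0 : 0 ≤ b := by positivity
  set A := T.bd with hA
  have hA0 : 0 ≤ A := T.bd_nonneg
  set B : ℝ := (a₁ + 1) * f with hB
  have hB0 : 0 < B := by positivity
  set Λ : ℝ := 2 * A * T.J * (4 * N / κ * T.Kd) with hΛ
  have hΛ0 : 0 ≤ Λ := by positivity
  -- the constant
  set C : ℝ := N * A + (X + N) * Λ + b * ((T.J + T.n0) * (2 * √(B * N)) + 4 * N / κ * T.Kd * (368 / 1000 * B))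
    with hC
  have hC0 : 0 ≤ C := by positivity
  refine ⟨C, hC0, fun a m a' ha0 ha1 hm hmN hmX ha' ha'1 => ?_⟩
  have hs : 0 ≤ √a' := Real.sqrt_nonneg _
  have hsa : a' ≤ √a' := by
    have : √a' * √a' = a' := Real.mul_self_sqrt ha'.le
    have h1 : √a' ≤ 1 := by
      rw [← Real.sqrt_one]
      exact Real.sqrt_le_sqrt ha'1
    nlinarith
  set m' := m + N * a' with hm'
  set a'' := a + a' with ha''
  have m'0 : 0 < m' := by positivity
  have a''0 : 0 < a'' := by positivity
  have hNm : N * a' ≤ m' := by linarith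
  have hm'X : m' ≤ X + N := by
    have : N * a' ≤ N * 1 := mul_le_mul_of_nonneg_left ha'1 hN.le
    linarith
  set σ' := Real.log (m' / (a'' * f)) with hσ'
  set k' := 4 * m' / κ with hk'
  set c' := ip (fun l => (l : ℝ)) T.J (k' * T.Kd) with hc'
  have c'0 : 0 ≤ c' := ip_id_nonneg _ _
  have c'J : c' ≤ T.J := ip_id_le _ _
  set u := -min σ' 0 with hu
  have hu0 : 0 ≤ u := by
    have := min_le_right σ' 0
    linarith
  -- `N a' u` and `m' u`
  have huB : u ≤ -min (Real.log (N * a' / B)) 0 := by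
    have h1 : Real.log (N * a' / B) ≤ σ' := by
      refine Real.log_le_log (by positivity) ?_
      refine div_le_div₀ m'0.le hNm (by positivity) ?_
      exact mul_le_mul_of_nonneg_right (by linarith) hf0.le
    have := min_le_min h1 (le_refl (0 : ℝ))
    linarith
  have hNu : N * a' * u ≤ 2 * √(B * N) * √a' := by
    have h1 := tlog_le hB0 (show 0 < N * a' by positivity)
    have h2 := mul_le_mul_of_nonneg_left huB (show 0 ≤ N * a' by positivity)
    have h3 : √(B * (N * a')) = √(B * N) * √a' := by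
      rw [← mul_assoc, Real.sqrt_mul (by positivity)]
    rw [h3] at h1
    linarith
  have hmu : m' * u ≤ 368 / 1000 * B := by
    have h1 := rw_xlogx (y := m' / (a'' * f)) (by positivity)
    have h2 := mul_le_mul_of_nonneg_left h1 (show 0 ≤ a'' * f by positivity)
    have e1 : a'' * f * (m' / (a'' * f) * Real.log (m' / (a'' * f))) = m' * σ' := by
      rw [hσ']
      field_simp
    rw [e1] at h2
    have h3 : a'' * f ≤ B := mul_le_mul_of_nonneg_right (by linarith) hf0.le
    rcases le_total σ' 0 with c | c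
    · rw [hu, min_eq_left c]
      nlinarith
    · rw [hu, min_eq_right c, neg_zero, mul_zero]
      positivity
  have eV' : T.V κ a'' m' = m' * T.Af σ' k' - b * (m' * (c' + T.n0) * u) := by
    rw [T.V_eq hf0 a''0 m'0, T.Wf_split]
    rw [← hf, ← hσ', ← hk', ← hc', ← hb, hu]
    ring
  rw [eV']
  rcases hm.eq_or_lt with h0 | h0
  · -- no charge
    rw [← h0, T.V_zero, zero_sub]
    have em : m' = N * a' := by rw [hm', ← h0, zero_add]
    have h1 : -A ≤ T.Af σ' k' := (abs_le.1 (T.Af_bd σ' k')).1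
    have h2 := mul_le_mul_of_nonneg_left h1 m'0.le
    have h3 : m' * (c' + T.n0) * u ≤ (T.J + T.n0) * (2 * √(B * N) * √a') := by
      rw [em]
      calc N * a' * (c' + T.n0) * u = (c' + T.n0) * (N * a' * u) := by ring
        _ ≤ (T.J + T.n0) * (2 * √(B * N) * √a') :=
          mul_le_mul (by linarith) hNu (by positivity) (by positivity)
    have h4 := mul_le_mul_of_nonneg_left h3 hb0
    have h5 : N * A * a' ≤ N * A * √a' := mul_le_mul_of_nonneg_left hsa (by positivity)
    have h6 : 0 ≤ ((X + N) * Λ + b * (4 * N / κ * T.Kd * (368 / 1000 * B))) * √a' := by positivity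
    have e2 : C * √a' = N * A * √a' + b * ((T.J + T.n0) * (2 * √(B * N) * √a')) +
        ((X + N) * Λ + b * (4 * N / κ * T.Kd * (368 / 1000 * B))) * √a' := by
      rw [hC]
      ring
    rw [e2, em] at *
    linarith
  · have ha : 0 < a := by
      rcases ha0.eq_or_lt with c | c
      · rw [← c, mul_zero] at hmN
        linarith
      · exact c
    set σ := Real.log (m / (a * f)) with hσ
    set k := 4 * m / κ with hk
    set c := ip (fun l => (l : ℝ)) T.J (k * T.Kd) with hc
    have c0 : 0 ≤ c := ip_id_nonneg _ _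
    have hσσ : σ ≤ σ' := by
      refine Real.log_le_log (by positivity) ?_
      rw [div_le_div_iff₀ (by positivity) (by positivity)]
      have h1 : m * a' ≤ N * a * a' := mul_le_mul_of_nonneg_right hmN ha'.le
      have h2 : m * a'' ≤ m' * a := by
        rw [ha'', hm']
        nlinarith
      have := mul_le_mul_of_nonneg_right h2 hf0.le
      linarith
    have hkk : k' - k = 4 * N / κ * a' := by
      rw [hk', hk, hm']
      ring
    have hkk0 : k ≤ k' := by
      have : 0 ≤ 4 * N / κ * a' := by positivity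
      linarith
    have eV : T.V κ a m = m * T.Af σ k - b * (m * (c + T.n0) * (-min σ 0)) := by
      rw [T.V_eq hf0 ha h0, T.Wf_split, ← hf, ← hσ, ← hk, ← hc, ← hb]
      ring
    -- the first part
    have g1 : T.Af σ k - Λ * a' ≤ T.Af σ' k' := by
      have h1 := ip_lip (a := fun j => ip (T.wr j) T.I (σ * T.H)) (n := T.J) (B := A)
        (fun j hj => T.rowA_bd hj _) (mul_le_mul_of_nonneg_right hkk0 hKr.le)
      have h2 := hT.Af_mono hσσ k'
      have e3 : 2 * A * T.J * (k' * T.Kd - k * T.Kd) = Λ * a' := by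
        rw [← sub_mul, hkk, hΛ]
        ring
      rw [e3] at h1
      exact h1.trans h2
    have g2 : |T.Af σ k| ≤ A := T.Af_bd σ k
    have g3 : m * T.Af σ k - N * a' * A - (X + N) * (Λ * a') ≤ m' * T.Af σ' k' := by
      have h1 := mul_le_mul_of_nonneg_left g1 m'0.le
      have h2 : N * a' * (-A) ≤ N * a' * T.Af σ k :=
        mul_le_mul_of_nonneg_left (abs_le.1 g2).1 (by positivity)
      have h3 : m' * (Λ * a') ≤ (X + N) * (Λ * a') :=
        mul_le_mul_of_nonneg_right hm'X (by positivity)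
      have e4 : m' * (T.Af σ k - Λ * a') = m * T.Af σ k + N * a' * T.Af σ k - m' * (Λ * a') := by
        rw [hm']
        ring
      rw [e4] at h1
      linarith
    -- the second part
    have hcc : c' - c ≤ 4 * N / κ * T.Kd * a' := by
      have h1 : c' ≤ c + (k' * T.Kd - k * T.Kd) := by
        have h2 := ip_slope (a := fun l => -(l : ℝ)) (n := T.J) (c := -1) (fun j _ => by
          push_cast
          linarith) (mul_le_mul_of_nonneg_right hkk0 hKr.le)
        -- `ip id` is 1-Lipschitz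
        have h3 : ∀ {x y : ℝ}, x ≤ y → ip (fun l => (l : ℝ)) T.J y - ip (fun l => (l : ℝ)) T.J x ≤ y - x := by
          intro x y hxy
          have hid : ∀ z : ℝ, ip (fun l => (l : ℝ)) T.J z = max 0 (min z T.J) := by
            intro z
            rcases le_total z 0 with c1 | c1
            · rw [ip_id_of_le _ c1, max_eq_left ((min_le_left _ _).trans c1)]
            · rcases le_total z T.J with c2 | c2
              · rw [ip_id c1 c2, min_eq_left c2, max_eq_right c1]
              · rw [rw_ipge _ _ c2, min_eq_right c2, max_eq_right (Nat.cast_nonneg _)]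
          rw [hid, hid]
          have h4 : max 0 (min y (T.J : ℝ)) ≤ max 0 (min x T.J) + (y - x) := by
            refine max_le ?_ ?_
            · have := le_max_left 0 (min x (T.J : ℝ))
              linarith
            · rcases le_total x T.J with c1 | c1
              · have h5 := le_max_right 0 (min x (T.J : ℝ))
                rw [min_eq_left c1] at h5
                have h6 := min_le_left y (T.J : ℝ)
                rw [min_eq_left c1]
                linarith
              · have h5 := le_max_right 0 (min x (T.J : ℝ))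
                rw [min_eq_right c1] at h5
                have h6 := min_le_right y (T.J : ℝ)
                rw [min_eq_right c1]
                linarith
          linarith
        have h5 := h3 (mul_le_mul_of_nonneg_right hkk0 hKr.le)
        linarith
      have e5 : k' * T.Kd - k * T.Kd = 4 * N / κ * T.Kd * a' := by
        rw [← sub_mul, hkk]
        ring
      linarith
    have hus : u ≤ -min σ 0 := by
      have := min_le_min hσσ (le_refl (0 : ℝ))
      linarith
    have g4 : m' * (c' + T.n0) * u ≤ m * (c + T.n0) * (-min σ 0) +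
        ((T.J + T.n0) * (2 * √(B * N) * √a') + 4 * N / κ * T.Kd * (368 / 1000 * B) * a') := by
      have h1 : m * (c + T.n0) * u ≤ m * (c + T.n0) * (-min σ 0) :=
        mul_le_mul_of_nonneg_left hus (by positivity)
      have h2 : N * a' * (c' + T.n0) * u ≤ (T.J + T.n0) * (2 * √(B * N) * √a') := by
        calc N * a' * (c' + T.n0) * u = (c' + T.n0) * (N * a' * u) := by ring
          _ ≤ _ := mul_le_mul (by linarith) hNu (by positivity) (by positivity)
      have h3 : m * (c' - c) * u ≤ 4 * N / κ * T.Kd * (368 / 1000 * B) * a' := by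
        have h4 : m * u ≤ 368 / 1000 * B := by
          have : m * u ≤ m' * u := mul_le_mul_of_nonneg_right (by rw [hm']; linarith [mul_pos hN ha']) hu0
          linarith
        have h5 : (c' - c) * (m * u) ≤ 4 * N / κ * T.Kd * a' * (m * u) :=
          mul_le_mul_of_nonneg_right hcc (by positivity)
        have h6 : 4 * N / κ * T.Kd * a' * (m * u) ≤ 4 * N / κ * T.Kd * a' * (368 / 1000 * B) :=
          mul_le_mul_of_nonneg_left h4 (by positivity)
        calc m * (c' - c) * u = (c' - c) * (m * u) := by ring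
          _ ≤ 4 * N / κ * T.Kd * a' * (368 / 1000 * B) := h5.trans h6
          _ = _ := by ring
      have e6 : m' * (c' + T.n0) * u = m * (c + T.n0) * u + N * a' * (c' + T.n0) * u +
          m * (c' - c) * u := by
        rw [hm']
        ring
      rw [e6]
      linarith
    have g5 := mul_le_mul_of_nonneg_left g4 hb0
    have g6 : (N * A + (X + N) * Λ + b * (4 * N / κ * T.Kd * (368 / 1000 * B))) * a' ≤
        (N * A + (X + N) * Λ + b * (4 * N / κ * T.Kd * (368 / 1000 * B))) * √a' :=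
      mul_le_mul_of_nonneg_left hsa (by positivity)
    have e7 : C * √a' = (N * A + (X + N) * Λ + b * (4 * N / κ * T.Kd * (368 / 1000 * B))) * √a' +
        b * ((T.J + T.n0) * (2 * √(B * N) * √a')) := by
      rw [hC]
      ring
    rw [eV, e7]
    linarith

end Pool.Agent.FPX.MCW
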