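import Mathlib
import Pool.Agent.FPX.CRZ
import Pool.Agent.FPX.RWB
import Pool.Agent.FPX.RWV

/-
RWS (helper91): the scalar conditions `Pce.Sc` of a piece of the modulus closing (MCL) from the tables of `W`.
`SP`, `spOk`: parameters of a cell; `tabB`, `tabS_of`: one table with its list of lower bounds at the area
`ab` gives `TabS` (slope and list of the value function); `leV_of`: comparison of the table with the side
charge; `mkP`: the piece with the chords of two tables; `scB`, `sc_of`: all scalar conditions of the piece.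
-/

noncomputable section

namespace Pool.Agent.FPX.MCW

open Pool.Agent.FPX.VTB Pool.Agent.FPX.MCL

/-- the parameters of a cell: lists `p`, lower bound `bn / bd` for the slope, scale `P` of the rows,
`lg` upper bound of `log (ab / bb)` -/
structure SP where
  p : ELP
  bn : ℕ
  bd : ℕ
  P : ℕ
  lg : ℚ

/-- the parameters fit the cell -/
def spOk (D : Cell) (s : SP) : Bool :=
  decide (0 < s.p.kd ∧ 0 < s.p.ad ∧ (s.p.kn : ℚ) ≤ D.kp * s.p.kd ∧ D.ab * s.p.ad ≤ s.p.an ∧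
    D.Xc * s.p.Z ≤ s.p.X ∧ 0 < s.P) &&
  decide (0 < s.bd ∧ 0 ≤ D.be ∧ D.be * s.bd ≤ s.bn ∧ 0 < D.bb ∧ D.bb ≤ D.ab ∧ 0 ≤ D.ks ∧
    D.ab ≤ D.bb * eL s.lg)

/-- the facts about the parameters -/
structure SPF (D : Cell) (s : SP) : Prop where
  kap : (s.p.kn : ℝ) / s.p.kd ≤ D.kp
  ab : (D.ab : ℝ) ≤ (s.p.an : ℝ) / s.p.ad
  X : (D.Xc : ℝ) ≤ (s.p.X : ℝ) / s.p.Z ∨ s.p.Z = 0
  P : 0 < s.P
  be : ((D.be : ℚ) : ℝ) ^ 2 ≤ ((s.bn : ℝ) / s.bd) ^ 2
  bb : (0 : ℝ) < D.bb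
  bab : (D.bb : ℝ) ≤ D.ab
  ks : (0 : ℝ) ≤ D.ks
  lg : Real.log ((D.ab : ℝ) / D.bb) ≤ s.lg

theorem spF_of {D : Cell} {s : SP} (h : spOk D s = true) : SPF D s := by
  simp only [spOk, Bool.and_eq_true] at h
  obtain ⟨h1, h2⟩ := h
  obtain ⟨a1, a2, a3, a4, a5, a6⟩ := of_decide_eq_true h1
  obtain ⟨b1, b2, b3, b4, b5, b6, b7⟩ := of_decide_eq_true h2
  have a1' : (0 : ℝ) < s.p.kd := by exact_mod_cast a1
  have a2' : (0 : ℝ) < s.p.ad := by exact_mod_cast a2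
  have a3' : (s.p.kn : ℝ) ≤ D.kp * s.p.kd := by exact_mod_cast a3
  have a4' : (D.ab : ℝ) * s.p.ad ≤ s.p.an := by exact_mod_cast a4
  have a5' : (D.Xc : ℝ) * s.p.Z ≤ s.p.X := by exact_mod_cast a5
  have b1' : (0 : ℝ) < s.bd := by exact_mod_cast b1
  have b2' : (0 : ℝ) ≤ D.be := by exact_mod_cast b2
  have b3' : (D.be : ℝ) * s.bd ≤ s.bn := by exact_mod_cast b3
  have b4' : (0 : ℝ) < D.bb := by exact_mod_cast b4
  have b5' : (D.bb : ℝ) ≤ D.ab := by exact_mod_cast b5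
  have b7' : (D.ab : ℝ) ≤ D.bb * (eL s.lg : ℝ) := by exact_mod_cast b7
  refine ⟨(div_le_iff₀ a1').2 a3', (le_div_iff₀ a2').2 a4', ?_, a6, ?_, b4', b5', by exact_mod_cast b6, ?_⟩
  · rcases Nat.eq_zero_or_pos s.p.Z with h0 | h0
    · exact Or.inr h0
    · exact Or.inl ((le_div_iff₀ (by exact_mod_cast h0)).2 a5')
  · exact pow_le_pow_left₀ b2' ((le_div_iff₀ b1').2 b3') 2
  · have h3 : 0 < D.ab := b4.trans_le b5
    have h3' : (0 : ℝ) < D.ab := by exact_mod_cast h3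
    rw [Real.log_le_iff_le_exp (by positivity), div_le_iff₀ b4']
    have h4 := mul_le_mul_of_nonneg_left (eL_le s.lg) b4'.le
    linarith

/-! ### one table -/

/-- the facts about a table from `T.Good` (helper89's `tabP_of`) -/
theorem tabP_good {κ N X : ℚ} {T : Tab} (g : T.Good) (h : tpOk κ N X T = true) : TabP T κ N X := by
  simp only [tpOk, Bool.and_eq_true] at h
  obtain ⟨⟨h1, h2⟩, h3⟩ := h
  obtain ⟨a1, a2, a3⟩ := of_decide_eq_true h1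
  obtain ⟨b1, b2, b3, b4, b5⟩ := of_decide_eq_true h2
  have h3 := of_decide_eq_true h3
  have hSr : (0 : ℝ) < T.S := by exact_mod_cast g.S
  have hHr : (0 : ℝ) < T.H := by exact_mod_cast g.H
  have hKr : (0 : ℝ) < T.Kd := by exact_mod_cast g.K
  have hfr : (0 : ℝ) < T.f0 := by exact_mod_cast g.f
  have hEr : (0 : ℝ) < T.E := by exact_mod_cast g.E
  have b1' : (0 : ℝ) < κ := by exact_mod_cast b1
  have b3' : (0 : ℝ) < N := by exact_mod_cast b3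
  refine ⟨g, a1, a2, a3, b1', ?_, b3', ?_, ?_⟩
  · have := (Rat.cast_le (K := ℝ)).2 b2
    push_cast at this
    have hp := Real.pi_gt_d6
    have hp' : (314159 / 100000 : ℝ) < Real.pi := by
      refine lt_trans ?_ hp
      norm_num
    linarith
  · have e1 : Real.exp (T.I / T.H) = Real.exp (1 / T.H) ^ T.I := by
      rw [← Real.exp_nat_mul]
      congr 1
      ring
    have e2 : ((T.E : ℝ) / T.S) ^ T.I ≤ Real.exp (1 / T.H) ^ T.I :=
      pow_le_pow_left₀ (by positivity) (exp_step g) _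
    rw [e1]
    refine le_trans ?_ (mul_le_mul_of_nonneg_left e2 (by positivity))
    have hd : (0 : ℝ) < N.den := by exact_mod_cast N.den_pos
    have h4 : (N.num : ℝ) * (T.S : ℝ) ^ (T.I + 1) ≤ T.f0 * T.E ^ T.I * N.den := by exact_mod_cast h3
    have e3 : (N : ℝ) = N.num / N.den := by
      rw [Rat.cast_def]
    rw [e3, div_pow, ← mul_div_mul_comm, div_le_div_iff₀ hd (by positivity)]
    have e4 : (T.S : ℝ) * (T.S : ℝ) ^ T.I = T.S ^ (T.I + 1) := by rw [pow_succ]; ring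
    rw [e4]
    exact h4
  · have h5 : (4 * (X : ℝ) * T.Kd) < T.J * κ := by exact_mod_cast b5
    have e : 4 / (κ : ℝ) * X * T.Kd = 4 * X * T.Kd / κ := by ring
    rw [e, div_lt_iff₀ b1']
    exact h5

/-- the checks of one table with its list -/
def tabB (s : SP) (T : Tab) (l : List EN) : Bool :=
  monoOk T.W && slopeOk T s.bn s.bd && elTest T s.p l

/-- the largest charge of the first entry -/
def xz (s : SP) (T : Tab) : ℝ := (s.p.an : ℝ) / s.p.ad * ((T.f0 : ℝ) / T.S)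

/-- a table with its list -/
structure TabS (D : Cell) (s : SP) (T : Tab) (l : List EN) : Prop where
  P : TabP T D.kp D.N D.Xc
  M : T.Mon
  sl : VSlope (T.V D.kp) 0 D.ab D.be D.kp D.N D.Xc
  Z : 0 < s.p.Z
  x : 0 < xz s T
  ne : l ≠ []
  r : ELR (xz s T) (T.H * s.p.R) s.p.Z T.S (fun m => T.V D.kp D.ab m) 0 0 l
  c : (D.Xc : ℝ) ≤ xz s T * Real.exp (((0 + totD l : ℕ) : ℝ) / (T.H * s.p.R))

/-- **one table with its list** -/
theorem tabS_of {D : Cell} {s : SP} (hs : SPF D s) {T : Tab} {l : List EN}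
    (hP : TabP T D.kp D.N D.Xc) (h : tabB s T l = true) : TabS D s T l := by
  simp only [tabB, Bool.and_eq_true] at h
  obtain ⟨⟨h1, h2⟩, h3⟩ := h
  have hM : T.Mon := hP.g.mon hP.hJ hP.hI h1
  obtain ⟨g1, g2, g3, g4, g5⟩ := elTest_sound hM h3 hs.kap (x₀ := xz s T) rfl
  have hSr : (0 : ℝ) < T.S := by exact_mod_cast hP.g.S
  have hfr : (0 : ℝ) < T.f0 := by exact_mod_cast hP.g.f
  have hf : (0 : ℝ) < (T.f0 : ℝ) / T.S := by positivity
  have hab : (0 : ℝ) < D.ab := hs.bb.trans_le hs.bab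
  have hκ := hP.hκ
  refine ⟨hP, hM, fun a m k1 k2 k3 k4 k5 => ?_, g1.Z, g2, g3, ?_, ?_⟩
  · have key := V_slope hM h2 hP.hJ hκ hP.hN1 hP.hX.le k1 k2 k3 k4 k5
    have h5 : 4 * (D.be : ℝ) ^ 2 * m ^ 2 / D.kp * Real.log (D.ab / a) ≤
        4 * ((s.bn : ℝ) / s.bd) ^ 2 * m ^ 2 / D.kp * Real.log (D.ab / a) := by
      have h6 := log_quot_nonneg k1 k2
      refine mul_le_mul_of_nonneg_right ?_ h6
      refine div_le_div_of_nonneg_right ?_ hκ.le
      refine mul_le_mul_of_nonneg_right ?_ (sq_nonneg m)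
      linarith [hs.be]
    linarith
  · refine g4.mono le_rfl g2.le fun m hm => ?_
    have e := T.V_eq hf (κ := (D.kp : ℝ)) hab hm
    rw [e]
    refine mul_le_mul_of_nonneg_left (hM.mono ?_ _) hm.le
    refine Real.log_le_log (by positivity) ?_
    refine div_le_div_of_nonneg_left hm.le (by positivity) ?_
    exact mul_le_mul_of_nonneg_right hs.ab hf.le
  · rcases hs.X with h6 | h6
    · exact h6.trans g5
    · exact absurd h6 g1.Z.ne'

/-- comparison of two tables -/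
def LeV (K T : Tab) : Prop := ∀ κ a m : ℝ, 0 ≤ m → K.V κ a m ≤ T.V κ a m

theorem leV_of {D : Cell} {s s' : SP} {K T : Tab} {k l : List EN} (hK : TabS D s K k)
    (hT : TabS D s' T l) (h : leTab K T = true) : LeV K T := fun _ _ _ hm =>
  V_le_of_leTab hK.M hT.M h hT.P.hJ hT.P.hI hm

theorem leV_rfl (T : Tab) : LeV T T := fun _ _ _ _ => le_rfl

/-! ### chords -/

/-- the mixed list -/
theorem low_mix {D : Cell} {s : SP} {T₁ T₂ : Tab} {l₁ l₂ : List EN} (h₁ : TabS D s T₁ l₁)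
    (h₂ : TabS D s T₂ l₂) {n d : ℕ} (hd : 0 < d) (hnd : n ≤ d) (hl : sameD l₁ l₂ = true)
    (e1 : T₁.S = T₂.S) (e2 : T₁.H = T₂.H) (e3 : T₁.f0 = T₂.f0) :
    ELow (mixE n d l₁ l₂) T₁.S s.p.Z D.Xc
      (fun m => vmix ((n : ℝ) / d) (T₁.V D.kp) (T₂.V D.kp) D.ab m) := by
  have hS : (0 : ℤ) < T₁.S := h₁.P.g.S
  have ex : xz s T₂ = xz s T₁ := by
    unfold xz
    rw [e1, e3]
  have r2 := h₂.r
  rw [ex, ← e1, ← e2] at r2
  have key := ELR.mix hS hd hnd hl le_rfl h₁.x.le h₁.r r2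
  have hlen : ∀ {l l' : List EN}, sameD l l' = true → totD (mixE n d l l') = totD l := by
    intro l
    induction l with
    | nil =>
      intro l' h
      cases l' <;> simp [mixE, totD]
    | cons e l ih =>
      intro l' h
      cases l' with
      | nil => simp [sameD] at h
      | cons e' l' =>
        rw [sameD, Bool.and_eq_true] at h
        simp only [mixE, totD]
        rw [ih h.2]
  have hne : mixE n d l₁ l₂ ≠ [] := by
    intro h0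
    have hh := h₁.ne
    cases l₁ with
    | nil => exact hh rfl
    | cons e l =>
      cases l₂ with
      | nil => simp [sameD] at hl
      | cons e' l' => simp [mixE] at h0
  intro m m0 mX
  refine key.entry m m0 hne ?_
  rw [hlen hl]
  exact mX.trans h₁.c

/-! ### the piece -/

/-- the piece of the chords with the weight `t` of the second tables -/
def mkP (D : Cell) (r : Rect) (T₁ T₂ K₁ K₂ : Tab) (t : ℝ) (Q Ql : ℚ) : Pce where
  r := r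
  V := vmix t (T₁.V D.kp) (T₂.V D.kp)
  VK := vmix t (kV K₁ D.kp D.ks D.bb) (kV K₂ D.kp D.ks D.bb)
  Q := Q
  Ql := Ql

/-- the price of the logarithm of the side charge -/
def pkQ (D : Cell) (s : SP) : ℚ := D.ks * D.ks / D.kp * s.lg

/-- the constants of two tables agree -/
def sameT (T₁ T₂ : Tab) : Bool := decide (T₁.S = T₂.S ∧ T₁.H = T₂.H ∧ T₁.f0 = T₂.f0)

/-- the test of a piece, weight `n / d` -/
def scN (D : Cell) (s : SP) (r : Rect) (T₁ T₂ K₁ K₂ : Tab) (n d : ℕ) (Q Ql : ℚ)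
    (l₁ l₂ k₁ k₂ : List EN) : Bool :=
  decide (0 < d ∧ n ≤ d ∧ 0 < Q ∧ 0 < Ql) && sameT T₁ T₂ && sameT K₁ K₂ && sameD l₁ l₂ &&
  sameD k₁ k₂ &&
  hiB T₁.S s.p.Z s.P D.Xc (4 * D.Xc) 0 Q r.s0 r.s1 (mixE n d l₁ l₂) &&
  hiB K₁.S s.p.Z s.P D.Xc (4 * D.Xc + 2 * D.ks) (2 * D.ks * (D.qs - D.tau) - pkQ D s) Q r.s0 r.s1
    (mixE n d k₁ k₂) &&
  (decide (1 / 4 < r.s0) || (loB T₁.S s.p.Z s.P D.be Ql 0 (mixE n d l₁ l₂) &&
    loB K₁.S s.p.Z s.P D.be Ql (2 * D.ks * (D.qs - D.tau - 1 / 4) - pkQ D s) (mixE n d k₁ k₂)))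

/-- **the test of a piece** -/
def scB (D : Cell) (s : SP) (r : Rect) (T₁ T₂ K₁ K₂ : Tab) (l Q Ql : ℚ)
    (l₁ l₂ k₁ k₂ : List EN) : Bool :=
  decide (0 ≤ l ∧ l ≤ 1) && scN D s r T₁ T₂ K₁ K₂ l.num.toNat l.den Q Ql l₁ l₂ k₁ k₂

theorem kV_mix (D : Cell) (K₁ K₂ : Tab) (t a m : ℝ) :
    vmix t (kV K₁ D.kp D.ks D.bb) (kV K₂ D.kp D.ks D.bb) a m =
      vmix t (K₁.V D.kp) (K₂.V D.kp) a m - (D.ks : ℝ) ^ 2 / D.kp * Real.log (a / D.bb) := by
  unfold vmix kV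
  ring

/-- the slope of the value function with the side charge -/
theorem slope_kV {D : Cell} {s : SP} (hs : SPF D s) {K : Tab} {k : List EN} (h : TabS D s K k) :
    VSlope (kV K D.kp D.ks D.bb) D.bb D.ab D.be D.kp D.N D.Xc := by
  intro a m k1 k2 k3 k4 k5
  have h1 := h.sl a m (hs.bb.le.trans k1) k2 k3 k4 k5
  have ha : 0 < a := hs.bb.trans_le k1
  have h2 : Real.log (a / D.bb) ≤ Real.log ((D.ab : ℝ) / D.bb) :=
    Real.log_le_log (div_pos ha hs.bb) (div_le_div_of_nonneg_right k2 hs.bb.le)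
  have h3 : (D.ks : ℝ) ^ 2 / D.kp * Real.log (a / D.bb) ≤
      (D.ks : ℝ) ^ 2 / D.kp * Real.log ((D.ab : ℝ) / D.bb) :=
    mul_le_mul_of_nonneg_left h2 (div_nonneg (sq_nonneg _) h.P.hκ.le)
  unfold kV
  linarith

/-- the scalar conditions of a piece, weight `n / d` -/
theorem scN_of {D : Cell} {s : SP} (hs : SPF D s) {T₁ T₂ K₁ K₂ : Tab} {l₁ l₂ k₁ k₂ : List EN}
    (h₁ : TabS D s T₁ l₁) (h₂ : TabS D s T₂ l₂) (g₁ : TabS D s K₁ k₁) (g₂ : TabS D s K₂ k₂)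
    (e₁ : LeV K₁ T₁) (e₂ : LeV K₂ T₂) {r : Rect} {n d : ℕ} {Q Ql : ℚ}
    (h : scN D s r T₁ T₂ K₁ K₂ n d Q Ql l₁ l₂ k₁ k₂ = true) :
    (mkP D r T₁ T₂ K₁ K₂ ((n : ℝ) / d) Q Ql).Sc D := by
  simp only [scN, sameT, Bool.and_eq_true, Bool.or_eq_true] at h
  obtain ⟨⟨⟨⟨⟨⟨⟨b1, b2⟩, b3⟩, b4⟩, b5⟩, b6⟩, b7⟩, b8⟩ := h
  obtain ⟨c1, c2, c3, c4⟩ := of_decide_eq_true b1
  obtain ⟨c5, c6, c7⟩ := of_decide_eq_true b2
  obtain ⟨c8, c9, c10⟩ := of_decide_eq_true b3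
  have hκ := h₁.P.hκ
  have hdr : (0 : ℝ) < d := by exact_mod_cast c1
  have t0 : (0 : ℝ) ≤ (n : ℝ) / d := by positivity
  have t1 : (n : ℝ) / d ≤ 1 := (div_le_one hdr).2 (by exact_mod_cast c2)
  have hS : (0 : ℤ) < T₁.S := h₁.P.g.S
  have hSK : (0 : ℤ) < K₁.S := g₁.P.g.S
  have lT := low_mix h₁ h₂ c1 c2 b4 c5 c6 c7
  have lK := low_mix g₁ g₂ c1 c2 b5 c8 c9 c10
  have zT : (0 : ℝ) ≤ vmix ((n : ℝ) / d) (T₁.V D.kp) (T₂.V D.kp) D.ab 0 := by
    unfold vmix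
    rw [Tab.V_zero, Tab.V_zero]
    simp
  have zK : (0 : ℝ) ≤ vmix ((n : ℝ) / d) (K₁.V D.kp) (K₂.V D.kp) D.ab 0 := by
    unfold vmix
    rw [Tab.V_zero, Tab.V_zero]
    simp
  have hab : (0 : ℝ) < D.ab := hs.bb.trans_le hs.bab
  have hlog0 : 0 ≤ Real.log ((D.ab : ℝ) / D.bb) := Real.log_nonneg ((one_le_div hs.bb).2 hs.bab)
  have pk0 : 0 ≤ (D.ks : ℝ) ^ 2 / D.kp * Real.log ((D.ab : ℝ) / D.bb) :=
    mul_nonneg (div_nonneg (sq_nonneg _) hκ.le) hlog0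
  have pk1 : (D.ks : ℝ) ^ 2 / D.kp * Real.log ((D.ab : ℝ) / D.bb) ≤ (pkQ D s : ℝ) := by
    unfold pkQ
    push_cast
    rw [← pow_two]
    exact mul_le_mul_of_nonneg_left hs.lg (div_nonneg (sq_nonneg _) hκ.le)
  refine ⟨?_, ?_, ?_, fun m m0 mX => ?_⟩
  · exact VSlope.mix t0 t1 h₁.sl h₂.sl
  · exact VSlope.mix t0 t1 (slope_kV hs g₁) (slope_kV hs g₂)
  · refine ⟨?_, ?_, ?_, ?_, fun q0 m m0 mX => ?_, fun q0 m m0 mX => ?_⟩
    · change (0 : ℝ) < (Q : ℝ)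
      exact_mod_cast c3
    · change (0 : ℝ) < (Ql : ℝ)
      exact_mod_cast c4
    · refine ⟨((mn Q (4 * D.Xc) r.s0 r.s1 : ℚ) : ℝ), fun x x0 x1 => ?_, fun m m0 mX _ => ?_⟩
      · have := mn_spec (B := 4 * D.Xc) c3 (show ((r.s0 : ℚ) : ℝ) ≤ x from x0) x1
        push_cast at this
        exact this
      · have := hiB_sound hS h₁.Z hs.P b6 lT zT m0 le_rfl mX
        push_cast at this
        change _ ≤ vmix ((n : ℝ) / d) (T₁.V D.kp) (T₂.V D.kp) D.ab m - m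
        linarith
    · refine ⟨((mn Q (4 * D.Xc + 2 * D.ks) r.s0 r.s1 : ℚ) : ℝ), fun x x0 x1 => ?_, fun m m0 mX _ => ?_⟩
      · have := mn_spec (B := 4 * D.Xc + 2 * D.ks) c3 (show ((r.s0 : ℚ) : ℝ) ≤ x from x0) x1
        push_cast at this
        exact this
      · have := hiB_sound hSK h₁.Z hs.P b7 lK zK m0 le_rfl mX
        push_cast at this
        change _ ≤ vmix ((n : ℝ) / d) (kV K₁ D.kp D.ks D.bb) (kV K₂ D.kp D.ks D.bb) D.ab m - m
        rw [kV_mix]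
        linarith
    · have q0' : r.s0 ≤ 1 / 4 := by
        have h1 : ((r.s0 : ℚ) : ℝ) ≤ 1 / 4 := q0
        have h2 : ((r.s0 : ℚ) : ℝ) ≤ ((1 / 4 : ℚ) : ℝ) := by
          push_cast
          exact h1
        exact (Rat.cast_le (K := ℝ)).1 h2
      rcases b8 with b8 | ⟨b8, b9⟩
      · exact absurd q0' (not_le.2 (of_decide_eq_true b8))
      · obtain ⟨l', u1, u2, u3⟩ := loB_sound hS h₁.Z hs.P c4 b8 lT zT m0 le_rfl mX
        refine ⟨l', u1, u2, ?_⟩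
        change _ ≤ vmix ((n : ℝ) / d) (T₁.V D.kp) (T₂.V D.kp) D.ab m + 0
        push_cast at u3
        exact u3
    · have q0' : r.s0 ≤ 1 / 4 := by
        have h1 : ((r.s0 : ℚ) : ℝ) ≤ 1 / 4 := q0
        have h2 : ((r.s0 : ℚ) : ℝ) ≤ ((1 / 4 : ℚ) : ℝ) := by
          push_cast
          exact h1
        exact (Rat.cast_le (K := ℝ)).1 h2
      rcases b8 with b8 | ⟨b8, b9⟩
      · exact absurd q0' (not_le.2 (of_decide_eq_true b8))
      · obtain ⟨l', u1, u2, u3⟩ := loB_sound hSK h₁.Z hs.P c4 b9 lK zK m0 le_rfl mX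
        refine ⟨l', u1, u2, ?_⟩
        change m + l' ^ 2 / (Ql : ℝ) - l' / 2 ≤ vmix ((n : ℝ) / d) (kV K₁ D.kp D.ks D.bb)
          (kV K₂ D.kp D.ks D.bb) D.ab m + 0 + 2 * (D.ks : ℝ) * (D.qs - D.tau - 1 / 4)
        rw [kV_mix]
        push_cast at u3
        linarith
  · change vmix ((n : ℝ) / d) (kV K₁ D.kp D.ks D.bb) (kV K₂ D.kp D.ks D.bb) D.ab m ≤
      vmix ((n : ℝ) / d) (T₁.V D.kp) (T₂.V D.kp) D.ab m
    rw [kV_mix]
    have v1 := mul_le_mul_of_nonneg_left (e₁ D.kp D.ab m m0) (sub_nonneg.2 t1)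
    have v2 := mul_le_mul_of_nonneg_left (e₂ D.kp D.ab m m0) t0
    unfold vmix
    linarith

/-- **the scalar conditions of a piece** -/
theorem sc_of {D : Cell} {s : SP} (hs : SPF D s) {T₁ T₂ K₁ K₂ : Tab} {l₁ l₂ k₁ k₂ : List EN}
    (h₁ : TabS D s T₁ l₁) (h₂ : TabS D s T₂ l₂) (g₁ : TabS D s K₁ k₁) (g₂ : TabS D s K₂ k₂)
    (e₁ : LeV K₁ T₁) (e₂ : LeV K₂ T₂) {r : Rect} {l Q Ql : ℚ}
    (h : scB D s r T₁ T₂ K₁ K₂ l Q Ql l₁ l₂ k₁ k₂ = true) :
    (mkP D r T₁ T₂ K₁ K₂ l Q Ql).Sc D := by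
  rw [scB, Bool.and_eq_true] at h
  obtain ⟨h1, h2⟩ := h
  obtain ⟨l0, -⟩ := of_decide_eq_true h1
  have key := scN_of hs h₁ h₂ g₁ g₂ e₁ e₂ h2
  have e : ((l.num.toNat : ℕ) : ℝ) / (l.den : ℕ) = (l : ℝ) := by
    have h3 : ((l.num.toNat : ℕ) : ℤ) = l.num := Int.toNat_of_nonneg (Rat.num_nonneg.2 l0)
    have h4 : ((l.num.toNat : ℕ) : ℝ) = (l.num : ℝ) := by
      exact_mod_cast congrArg (fun z : ℤ => (z : ℝ)) h3
    rw [h4]
    exact_mod_cast Rat.num_div_den l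
  rw [e] at key
  exact key

end Pool.Agent.FPX.MCW
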