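import Mathlib
import Pool.Agent.FPX.MCGC
import Pool.Agent.FPX.RWS

/-
MCGS (helper91): the scalar conditions of all pieces of a cell from Booleans, in the form of MCGC.
`NodS`, `nodB`, `nodS_of`: a node (tables with lists); `rowB`, `sc_gen`: the pieces;
`cell_mc`: the cell from the certificates of the tables and Booleans only.
-/

noncomputable section

namespace Pool.Agent.FPX.MCL

open Pool.Agent.EWD Pool.Agent.FPM

/-- the facts about a node used for the scalar conditions -/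
structure NodS (D : Cell) (s : MCW.SP) (x : Nod) : Prop where
  V : MCW.TabS D s x.T x.lV
  K : MCW.TabS D s x.K x.lK
  le : MCW.LeV x.K x.T

/-- the test of a node -/
def nodB (s : MCW.SP) (x : Nod) : Bool :=
  MCW.tabB s x.T x.lV && MCW.tabB s x.K x.lK && MCW.leTab x.K x.T

theorem nodS_of {D : Cell} {s : MCW.SP} (hs : MCW.SPF D s) {x : Nod} (hV : TabP x.T D.kp D.N D.Xc)
    (hK : TabP x.K D.kp D.N D.Xc) (h : nodB s x = true) : NodS D s x := by
  simp only [nodB, Bool.and_eq_true] at h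
  have h1 := MCW.tabS_of hs hV h.1.1
  have h2 := MCW.tabS_of hs hK h.1.2
  exact ⟨h1, h2, MCW.leV_of h2 h1 h.2⟩

/-- the test of a piece -/
def rowB (D : Cell) (s : MCW.SP) (L : List Nod) (p : PD) : Bool :=
  MCW.scN D s p.r (nd L p.i).T (nd L p.j).T (nd L p.i).K (nd L p.j).K p.ln p.ld p.e.Q p.el.Q
    (nd L p.i).lV (nd L p.j).lV (nd L p.i).lK (nd L p.j).lK

/-- **the scalar conditions of all pieces** -/
theorem sc_gen {D : Cell} {s : MCW.SP} (hs : MCW.SPF D s) {L : List Nod} (hL : ∀ x ∈ L, NodS D s x)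
    {P : List PD} (hc : (P.all fun p => corB D L p) = true) (h : (P.all fun p => rowB D s L p) = true) :
    ∀ p ∈ P, (p.pce D L).Sc D := by
  intro p hp
  have h1 := List.all_eq_true.1 hc p hp
  have h2 := List.all_eq_true.1 h p hp
  simp only [corB, Bool.and_eq_true] at h1
  obtain ⟨i1, i2, i3, i4⟩ := of_decide_eq_true h1.1.1.1.1
  have q1 := hL _ (nd_mem i1)
  have q2 := hL _ (nd_mem i2)
  have key := MCW.scN_of hs q1.V q2.V q1.K q2.K q1.le q2.le h2
  have e : ((p.ln : ℕ) : ℝ) / (p.ld : ℕ) = ((p.l : ℚ) : ℝ) := by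
    unfold PD.l
    push_cast
    rfl
  rw [e] at key
  exact key

/-- **a cell of the modulus closing from its tables and Booleans** -/
theorem cell_mc {Q : E3 → E3 → E3 → E3 → E3 → ℝ} {ψ : ℝ → ℝ} (HQ : MCQ Q ψ) {D : Cell}
    (hD : D.ok = true) {Ee : ℝ} (hE : 0 ≤ Ee) (hse : √Ee ≤ D.se) {Vlo : ℝ}
    (hVlo : Vlo ≤ 0 ∨ Close Vlo) {Lm : List (ℚ × ℚ)} {cr r : ℚ} {PR : ℝ → ℝ → Prop}
    (hPR : ∀ y₀ b₀, PR y₀ b₀ → RingQ Q cr y₀ b₀)
    (hv : Lm = [] ∨ ((r : ℝ) ≤ Vlo / 2 ∧ ∀ p ∈ Lm, PR (p.1 : ℝ) (p.2 : ℝ)))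
    {s : MCW.SP} (hs : MCW.spOk D s = true)
    {L : List Nod} (hL : ∀ x ∈ L, NodQ Q D x) (hN : (L.all fun x => nodB s x) = true)
    {P : List PD} {hl sl : List ℚ}
    (hc : covOk hl sl (P.map PD.r) = true) (h1 : (P.all fun p => corB D L p) = true)
    (h2 : (P.all fun p => extOk D Lm cr r p.r p.e p.el) = true)
    (h3 : (P.all fun p => rowB D s L p) = true) : CellM D.kap Ee D.sg D.cl D.cu D.Xc D.k :=
  cell_gen HQ hD hE hse hVlo hPR hv hL hc h1 h2
    (sc_gen (MCW.spF_of hs) (fun x hx => nodS_of (MCW.spF_of hs) (hL x hx).V.P (hL x hx).K.P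
      (List.all_eq_true.1 hN x hx)) h1 h3)

end Pool.Agent.FPX.MCL
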