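import Pool.Agent.FPX.MCF
import Pool.Agent.FPX.RWC

/-
MCH (helper52): the monotonicity record of `RWC` from the fast test of `MCF`.
-/

noncomputable section

namespace Pool.Agent.FPX.MCW

theorem Tab.mon_of_fast {T : Tab} (h : T.fast = true) (hJ : 0 < T.J) (hI : 0 < T.I) : T.Mon := by
  obtain ⟨g, k⟩ := Tab.fast_good h hJ hI
  have hSr : (0 : ℝ) < T.S := by exact_mod_cast g.S
  refine ⟨g, fun j hj i hi => ?_, fun j hj i hi => ?_⟩
  · unfold Tab.wr
    refine div_le_div_of_nonneg_right ?_ hSr.le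
    rcases Nat.lt_or_ge j T.J with h1 | h1
    · exact_mod_cast (k j h1 i hi).1
    · obtain ⟨j', rfl⟩ : ∃ j', j = j' + 1 := ⟨T.J - 1, by omega⟩
      exact_mod_cast (k j' (by omega) i hi).2.1
  · unfold Tab.wr
    refine div_le_div_of_nonneg_right ?_ hSr.le
    cases i with
    | zero => exact_mod_cast (k j hj 0 hI).2.2.1
    | succ i => exact_mod_cast (k j hj i (by omega)).2.2.2

end Pool.Agent.FPX.MCW
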