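import Mathlib
import Pool.Agent.FPX.SWP

/-
FPX, SWXA (helper29): check of an integer weight together with its five averages (light file).
-/

namespace Pool.Agent.FPX

open Pool.Agent.FPX.SWL

/-- the weight is admissible and its averages are `a` -/
noncomputable def waOk (n S : ℕ) (w : List ℤ × List ℤ) (a : WA) : Bool :=
  zOm n S w && (decide (aH (wq S w) = a.h) && (decide (aI (wq S w) = a.i) &&
    (decide (aJ (wq S w) = a.j) && (decide (aK (wq S w) = a.k) && decide (aL (wq S w) = a.l)))))

end Pool.Agent.FPX
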