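import Mathlib
import Pool.Agent.FPX.SWXA

/-
FPX, SWX18 (helper29): integer weights 204 to 213 of the modulus closing with their exact averages.
-/

namespace Pool.Agent.FPX.SWX

open Pool.Agent.FPX

def z204 : List ℤ × List ℤ := ([99701, 603, 341, 485, 1018, 411, 1157, 24, 32, -2, -6, 10, 14],
  [100301, -607, -339, -484, -1017, -398, -1150, 3, -9, 21, 31])

def a204 : WA := ⟨412161 / 409600, 5089071 / 5120000, 12799911 / 25600000, 30719709 / 81920000, 51200031 / 409600000⟩

theorem a204_ok : waOk 100 100000 z204 a204 = true := by decide +kernel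

def z205 : List ℤ × List ℤ := ([96056, 11308, 15909, 1162, 5139, -3427, -2625, -625, -235, -558, -227, 239, 112],
  [104108, -12256, -15800, 2634, -3114, 4459, 3207, -1331, -404, 243, 69])

def a205 : WA := ⟨26885749 / 25600000, 24562931 / 25600000, 3199997 / 6400000, 153599791 / 409600000, 51200017 / 409600000⟩

theorem a205_ok : waOk 100 100000 z205 a205 = true := by decide +kernel

def z206 : List ℤ × List ℤ := ([87780, 52131, 75346, -20506, -8369, 28, 18087, -14190, -32935, 29877, 19928, -10940, -6489],
  [113925, -67619, -57635, 117712, -25135, -95888, 74066, 35846, -49709, -6454, 13594])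

def a206 : WA := ⟨125339113 / 102400000, 2834579 / 3200000, 12799967 / 25600000, 15359953 / 40960000, 25599971 / 204800000⟩

theorem a206_ok : waOk 100 100000 z206 a206 = true := by decide +kernel

def z207 : List ℤ × List ℤ := ([87281, 109031, 135189, -88076, -124930, 166252, 334926, -483920, -553070, 559931, 485347, -206510, -176023],
  [114652, -142272, -1134, 307127, -320642, -239888, 535503, 48263, -373808, 9273, 103683])

def a207 : WA := ⟨144582243 / 102400000, 21629837 / 25600000, 6396223 / 12800000, 153512713 / 409600000, 51166423 / 409600000⟩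

theorem a207_ok : waOk 100 100000 z207 a207 = true := by decide +kernel

def z208 : List ℤ × List ℤ := ([98910, 183261, 197298, -335359, -421363, 1239333, 1517554, -2989960, -2842983, 3152675, 2663993, -1168563, -980814],
  [101407, -184653, 129977, 362633, -802529, -98562, 1223286, -234031, -821304, 137476, 218161])

def a208 : WA := ⟨87418633 / 51200000, 19670207 / 25600000, 4819833 / 10240000, 145081427 / 409600000, 47711893 / 409600000⟩

theorem a208_ok : waOk 100 100000 z208 a208 = true := by decide +kernel

def z209 : List ℤ × List ℤ := ([101000],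
  [99010])

def a209 : WA := ⟨101 / 100, 9901 / 10000, 9901 / 20000, 29703 / 80000, 9901 / 80000⟩

theorem a209_ok : waOk 100 100000 z209 a209 = true := by decide +kernel

def z210 : List ℤ × List ℤ := ([102000],
  [98040])

def a210 : WA := ⟨51 / 50, 2451 / 2500, 2451 / 5000, 7353 / 20000, 2451 / 20000⟩

theorem a210_ok : waOk 100 100000 z210 a210 = true := by decide +kernel

def z211 : List ℤ × List ℤ := ([105000],
  [95239])

def a211 : WA := ⟨21 / 20, 95239 / 100000, 95239 / 200000, 285717 / 800000, 95239 / 800000⟩

theorem a211_ok : waOk 100 100000 z211 a211 = true := by decide +kernel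

def z212 : List ℤ × List ℤ := ([110000],
  [90910])

def a212 : WA := ⟨11 / 10, 9091 / 10000, 9091 / 20000, 27273 / 80000, 9091 / 80000⟩

theorem a212_ok : waOk 100 100000 z212 a212 = true := by decide +kernel

def z213 : List ℤ × List ℤ := ([120000],
  [83334])

def a213 : WA := ⟨6 / 5, 41667 / 50000, 41667 / 100000, 125001 / 400000, 41667 / 400000⟩

theorem a213_ok : waOk 100 100000 z213 a213 = true := by decide +kernel

def av18 : List WA := [a204, a205, a206, a207, a208, a209, a210, a211, a212, a213]

theorem av18_ok : ∀ a ∈ av18, ∃ w, waOk 100 100000 w a = true := by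
  unfold av18
  simp only [List.forall_mem_cons]
  exact ⟨⟨_, a204_ok⟩, ⟨_, a205_ok⟩, ⟨_, a206_ok⟩, ⟨_, a207_ok⟩, ⟨_, a208_ok⟩, ⟨_, a209_ok⟩, ⟨_, a210_ok⟩, ⟨_, a211_ok⟩, ⟨_, a212_ok⟩, ⟨_, a213_ok⟩, List.forall_mem_nil _⟩

end Pool.Agent.FPX.SWX
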