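import Mathlib
import Pool.Agent.FPX.SWXA

/-
FPX, SWX29 (helper29): integer weights 334 to 334 of the modulus closing with their exact averages.
-/

namespace Pool.Agent.FPX.SWX

open Pool.Agent.FPX

def z334 : List ℤ × List ℤ := ([314419, 987380, -2904, -4711091, 2158631, 21156027, -5715512, -47659833, 5296773, 48905187, 1052006, -18396840, -2451296],
  [33018, -110353, 298225, -139595, -930194, 1216245, 772664, -1650973, -1810, 676568, -153076])

def a334 : WA := ⟨7849707 / 1600000, 1171177 / 3200000, 6270223 / 25600000, 19284171 / 102400000, 5796721 / 102400000⟩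

theorem a334_ok : waOk 100 100000 z334 a334 = true := by decide +kernel

def av29 : List WA := [a334]

theorem av29_ok : ∀ a ∈ av29, ∃ w, waOk 100 100000 w a = true := by
  unfold av29
  simp only [List.forall_mem_cons]
  exact ⟨⟨_, a334_ok⟩, List.forall_mem_nil _⟩

end Pool.Agent.FPX.SWX
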