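import Mathlib
import Pool.Agent.FPX.SWD
import Pool.Agent.FPX.SWS
import Pool.Agent.FPX.SWX1
import Pool.Agent.FPX.SWX2
import Pool.Agent.FPX.SWX3
import Pool.Agent.FPX.SWX4
import Pool.Agent.FPX.SWX5
import Pool.Agent.FPX.SWX6
import Pool.Agent.FPX.SWX7
import Pool.Agent.FPX.SWX8
import Pool.Agent.FPX.SWX9
import Pool.Agent.FPX.SWX10
import Pool.Agent.FPX.SWX11
import Pool.Agent.FPX.SWX12
import Pool.Agent.FPX.SWX13
import Pool.Agent.FPX.SWX14
import Pool.Agent.FPX.SWX15
import Pool.Agent.FPX.SWX16
import Pool.Agent.FPX.SWX17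
import Pool.Agent.FPX.SWX18
import Pool.Agent.FPX.SWX19
import Pool.Agent.FPX.SWX20
import Pool.Agent.FPX.SWX21
import Pool.Agent.FPX.SWX22
import Pool.Agent.FPX.SWX23
import Pool.Agent.FPX.SWX24
import Pool.Agent.FPX.SWX25
import Pool.Agent.FPX.SWX26
import Pool.Agent.FPX.SWX27
import Pool.Agent.FPX.SWX28
import Pool.Agent.FPX.SWX29

/-
FPX, SWXF (helper29): the list of the polar weights of the modulus closing, all admissible, with exact
averages.
-/

noncomputable section

namespace Pool.Agent.FPX

open Pool.Agent.FPX.SWL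

theorem waOk_sw {n S : ℕ} {w : List ℤ × List ℤ} {a : WA} (h : waOk n S w a = true) : a.mw.Sw := by
  unfold waOk at h
  simp only [Bool.and_eq_true, decide_eq_true_eq] at h
  obtain ⟨h0, h1, h2, h3, h4, h5⟩ := h
  have e : wa S w = a := by
    unfold wa
    rw [h1, h2, h3, h4, h5]
  rw [← e]
  exact wa_sw h0

namespace SWX

/-- **the averages of all weights** -/
def av : List WA := av1 ++ av2 ++ av3 ++ av4 ++ av5 ++ av6 ++ av7 ++ av8 ++ av9 ++
  av10 ++ av11 ++ av12 ++ av13 ++ av14 ++ av15 ++ av16 ++ av17 ++ av18 ++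
  av19 ++ av20 ++ av21 ++ av22 ++ av23 ++ av24 ++ av25 ++ av26 ++ av27 ++
  av28 ++ av29

/-- **all weights are admissible** -/
theorem av_sw : ∀ a ∈ av, a.mw.Sw := by
  intro a ha
  have key : ∃ w, waOk 100 100000 w a = true := by
    unfold av at ha
    simp only [List.mem_append] at ha
    rcases ha with (((((((((((((((((((((((((((h | h) | h) | h) | h) | h) | h) | h) | h) | h) | h) | h) | h) | h) | h) | h) | h) | h) | h) | h) | h) | h) | h) | h) | h) | h) | h) | h) | h
    · exact av1_ok a h
    · exact av2_ok a h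
    · exact av3_ok a h
    · exact av4_ok a h
    · exact av5_ok a h
    · exact av6_ok a h
    · exact av7_ok a h
    · exact av8_ok a h
    · exact av9_ok a h
    · exact av10_ok a h
    · exact av11_ok a h
    · exact av12_ok a h
    · exact av13_ok a h
    · exact av14_ok a h
    · exact av15_ok a h
    · exact av16_ok a h
    · exact av17_ok a h
    · exact av18_ok a h
    · exact av19_ok a h
    · exact av20_ok a h
    · exact av21_ok a h
    · exact av22_ok a h
    · exact av23_ok a h
    · exact av24_ok a h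
    · exact av25_ok a h
    · exact av26_ok a h
    · exact av27_ok a h
    · exact av28_ok a h
    · exact av29_ok a h
  obtain ⟨w, hw⟩ := key
  exact waOk_sw hw

end SWX

end Pool.Agent.FPX
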