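import Mathlib
import Pool.Agent.FPX.C2Z
import Pool.Agent.FPX.LFR
import Pool.Agent.FPM.CLS

/-
VLO (helper21): a lower bound of the volume in the form `Close`, from the zero form (helper11) and the bound of
`r₃` (helper69): `2π (1 - 3/2 · 0.21359²) > 5.853`.
-/

open MeasureTheory Set Filter Topology
open scoped ENNReal NNReal

noncomputable section

namespace Pool.Agent.FPX

open Pool.Agent.EWD Pool.Agent.FPM

/-- **every filling has area at least `5.853`** -/
theorem vol_vlo (M : Type) [MetricSpace M] [CompactSpace M] (γ : ℝ → M) (C : Calc M γ) (hγ : Bd γ) :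
    (5853 / 1000 : ℝ) ≤ C.vol := by
  have h := C2Z.area_zero (κ := 21359 / 100000) (by norm_num) (fun f hf => LF.r3_le hf) M γ C hγ
  have hpi := Real.pi_gt_d6
  refine le_trans ?_ h
  nlinarith

theorem close_vlo : Close (5853 / 1000) :=
  ⟨1, one_pos, fun M _ _ _ γ C h => vol_vlo M γ C h.bd⟩

end Pool.Agent.FPX
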