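import Mathlib
import Pool.Agent.FPX.MCGS
import Pool.Agent.FPX.MCH
import Pool.Agent.FPX.AZO
import Pool.Agent.FPX.AZR
import Pool.Agent.FPX.VLO
import Pool.Agent.FPX.SWXF

/-
MCG (helper28): the fixed data of the cell modules: the certificate `Qm` (helper29's weights with the ring members
of helper56 and helper95), the ring list `Lr` on the levels `≥ 1/4`, the volume bound; `cell_fin`.
-/

open MeasureTheory Set Filter Topology

noncomputable section

namespace Pool.Agent.FPX.MCL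

open Pool.Agent.EWD Pool.Agent.FPM

/-- the certificate -/
def Qm : E3 → E3 → E3 → E3 → E3 → ℝ := AZV.QR (QW (SWX.av.map WA.mw))

/-- tables certified for the weights serve `Qm` -/
theorem tabM {ρ₀ θ κ' N X : ℝ} {T : MCW.Tab} (h : TabQ (QW (SWX.av.map WA.mw)) ρ₀ θ T κ' N X) :
    TabQ Qm ρ₀ θ T κ' N X := h.up (AZV.QR_ge _)

theorem sw_all : ∀ m ∈ SWX.av.map WA.mw, m.Sw := by
  intro m hm
  obtain ⟨a, h1, h2⟩ := List.mem_map.1 hm
  rw [← h2]
  exact SWX.av_sw a h1

/-- ring members on the levels `≥ 1/4` -/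
def Lr : List (ℚ × ℚ) := [(17 / 20, 17 / 20), (7 / 8, 43 / 50), (9 / 10, 7 / 8), (19 / 20, 91 / 100)]

/-- admissible ring members -/
def PRm (y b : ℝ) : Prop := AZS.GoodL (1 / 4) y b ∧ y ≤ 2

theorem lr_ok : ∀ p ∈ Lr, PRm (p.1 : ℝ) (p.2 : ℝ) := by
  intro p hp
  simp only [Lr, List.mem_cons, List.not_mem_nil, or_false] at hp
  rcases hp with rfl | rfl | rfl | rfl
  · exact ⟨by push_cast; exact AZS.good4_a, by norm_num⟩
  · exact ⟨by push_cast; exact AZS.good4_b, by norm_num⟩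
  · exact ⟨by push_cast; exact AZS.good4_c, by norm_num⟩
  · exact ⟨by push_cast; exact AZS.good4_d, by norm_num⟩

/-- **a cell of the modulus closing** -/
theorem cell_fin {D : Cell} (hD : D.ok = true) (hse : 2 ≤ D.se ^ 2) {s : MCW.SP}
    (hs : MCW.spOk D s = true) {r : ℚ} (hr : r ≤ 5853 / 2000)
    {L : List Nod} (hL : ∀ x ∈ L, NodQ Qm D x) (hN : (L.all fun x => nodB s x) = true)
    {P : List PD} {hl sl : List ℚ}
    (hc : covOk hl sl (P.map PD.r) = true) (h1 : (P.all fun p => corB D L p) = true)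
    (h2 : (P.all fun p => extOk D Lr (1 / 4) r p.r p.e p.el) = true)
    (h3 : (P.all fun p => rowB D s L p) = true) :
    CellM D.kap 2 D.sg D.cl D.cu D.Xc D.k := by
  have h0 : 0 ≤ D.se := by
    simp only [Cell.ok, Bool.and_eq_true] at hD
    obtain ⟨b1, b2, b3, b4, b5, b6, b7, b8, b9, b10, -⟩ := of_decide_eq_true hD.1.1.1.1.2
    exact b10
  refine cell_mc (Q := Qm) (AZV.mcq_lz sw_all) hD (by norm_num) ?_ (Vlo := 5853 / 1000)
    (Or.inr close_vlo) (PR := PRm) (cr := 1 / 4) (r := r) (Lm := Lr)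
    (fun y₀ b₀ h => ⟨by norm_num, ?_⟩) (Or.inr ⟨?_, lr_ok⟩) hs hL hN hc h1 h2 h3
  · have h1 : (2 : ℝ) ≤ (D.se : ℝ) ^ 2 := by exact_mod_cast hse
    have h2 : (0 : ℝ) ≤ D.se := by exact_mod_cast h0
    rw [← Real.sqrt_sq h2]
    exact Real.sqrt_le_sqrt h1
  · have := AZV.mcr_rings sw_all (show (0 : ℝ) ≤ 1 / 4 by norm_num) y₀ b₀ h
    push_cast
    exact this
  · have : (r : ℝ) ≤ ((5853 / 2000 : ℚ) : ℝ) := by exact_mod_cast hr
    push_cast at this
    linarith

end Pool.Agent.FPX.MCL
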