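import Pool.Agent.FPX.MCH
import Pool.Agent.FPX.MCGS

/-
RWF (helper91): fast kernel versions of `slopeOk` and `leTab` (natural numbers, forced evaluation, helper52's
`iM`), and the node test `nodF` for tables with `T.fast`.
-/

noncomputable section

namespace Pool.Agent.FPX.MCW

/-! ### slope -/

/-- increments at least `c`, previous entry `w0`, offset `o` -/
def incF (o c : ℕ) (l : List ℤ) : ℕ → Bool :=
  @List.rec ℤ (fun _ => ℕ → Bool) (fun _ => true)
    (fun z _ ih w0 => iM o z fun w1 => bif' (Nat.ble (Nat.add w0 c) w1) (ih w1) false) l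

theorem incF_sound {o c : ℕ} {c' : ℤ} (hc : c' ≤ c) : ∀ {l : List ℤ} {w0 : ℕ}, incF o c l w0 = true →
    incBy c' (((w0 : ℤ) - o) :: l) = true
  | [], _, _ => by rw [incBy]; simp
  | z :: l, w0, h => by
    have h' : (iM o z fun w1 => bif' (Nat.ble (Nat.add w0 c) w1) (incF o c l w1) false) = true := h
    obtain ⟨n, e, h1⟩ := iM_eq h'
    obtain ⟨h2, h3⟩ := bif'_false h1
    have h4 : w0 + c ≤ n := Nat.le_of_ble_eq_true h2
    rw [e, incBy, Bool.and_eq_true, decide_eq_true_eq]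
    refine ⟨?_, incF_sound hc h3⟩
    have h5 : ((w0 : ℤ)) + c ≤ n := by exact_mod_cast h4
    linarith

/-- all rows; `D = β² S`, `E = H Kd` times the square of the denominator -/
def slF (o D E : ℕ) (R : List (List ℤ)) : ℕ → Bool :=
  @List.rec (List ℤ) (fun _ => ℕ → Bool) (fun _ => true)
    (fun w _ ih j => frc (Nat.div (Nat.add (Nat.mul D j) (Nat.sub E 1)) E) fun c =>
      bif' (lc o w fun w0 w' => incF o c w' w0) (frc (Nat.succ j) ih) false) R

theorem ceil_le {x E : ℕ} (hE : 0 < E) : -((-(x : ℤ)) / (E : ℤ)) ≤ (((x + (E - 1)) / E : ℕ) : ℤ) := by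
  have hE' : (0 : ℤ) < E := by exact_mod_cast hE
  have h1 : x ≤ E * ((x + (E - 1)) / E) := by
    have h2 := Nat.div_add_mod (x + (E - 1)) E
    have h3 := Nat.mod_lt (x + (E - 1)) hE
    omega
  have h4 : -(((x + (E - 1)) / E : ℕ) : ℤ) ≤ (-(x : ℤ)) / (E : ℤ) := by
    rw [Int.le_ediv_iff_mul_le hE']
    have h5 : (x : ℤ) ≤ E * (((x + (E - 1)) / E : ℕ) : ℤ) := by exact_mod_cast h1
    linarith
  linarith

theorem slF_sound {o D E : ℕ} (hE : 0 < E) : ∀ {R : List (List ℤ)} {j : ℕ}, slF o D E R j = true →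
    slRows (D : ℤ) (E : ℤ) (j : ℤ) R = true
  | [], _, _ => by rw [slRows]
  | w :: R, j, h => by
    have h' : (frc (Nat.div (Nat.add (Nat.mul D j) (Nat.sub E 1)) E) fun c =>
      bif' (lc o w fun w0 w' => incF o c w' w0) (frc (Nat.succ j) (slF o D E R)) false) = true := h
    rw [frc_eq] at h'
    obtain ⟨h1, h2⟩ := bif'_false h'
    rw [frc_eq] at h2
    obtain ⟨n, t, e, h3⟩ := lc_eq h1
    rw [slRows, Bool.and_eq_true]
    refine ⟨?_, ?_⟩
    · rw [e]
      refine incF_sound ?_ h3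
      have := ceil_le (x := D * j) hE
      push_cast at this
      exact_mod_cast this
    · have := slF_sound hE h2
      push_cast at this
      exact this

/-- **the fast slope test** -/
def slopeF (T : Tab) (bn bd : ℕ) : Bool :=
  iN T.S fun S => iN T.H fun H => iN T.Kd fun Kd => iN T.b0 fun b0 =>
  frc (Nat.mul 100 S) fun o => frc (Nat.mul (Nat.mul bn bn) S) fun D =>
  frc (Nat.mul (Nat.mul H Kd) (Nat.mul bd bd)) fun E =>
    bif' (Nat.ble 1 bd) (bif' (Nat.ble 1 E) (bif' (Nat.ble D (Nat.mul b0 (Nat.mul bd bd)))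
      (slF o D E T.W 0) false) false) false

theorem slopeF_sound {T : Tab} {bn bd : ℕ} (h : slopeF T bn bd = true) : slopeOk T bn bd = true := by
  unfold slopeF at h
  obtain ⟨S, eS, h⟩ := iN_eq h
  obtain ⟨H, eH, h⟩ := iN_eq h
  obtain ⟨Kd, eK, h⟩ := iN_eq h
  obtain ⟨b0, eb, h⟩ := iN_eq h
  rw [frc_eq, frc_eq, frc_eq] at h
  obtain ⟨h1, h⟩ := bif'_false h
  obtain ⟨h2, h⟩ := bif'_false h
  obtain ⟨h3, h4⟩ := bif'_false h
  have h1' : 1 ≤ bd := Nat.le_of_ble_eq_true h1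
  have h2' : 1 ≤ H * Kd * (bd * bd) := Nat.le_of_ble_eq_true h2
  have h3' : bn * bn * S ≤ b0 * (bd * bd) := Nat.le_of_ble_eq_true h3
  have h5 := slF_sound h2' h4
  rw [slopeOk, Bool.and_eq_true, Bool.and_eq_true, decide_eq_true_eq, decide_eq_true_eq]
  refine ⟨⟨h1', ?_⟩, ?_⟩
  · rw [eS, eb, pow_two, pow_two]
    exact_mod_cast h3'
  · rw [eS, eH, eK, pow_two, pow_two]
    have e1 : (((bn * bn * S : ℕ)) : ℤ) = ((bn * bn : ℕ) : ℤ) * (S : ℤ) := by
      push_cast
      ring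
    have e2 : (((H * Kd * (bd * bd) : ℕ)) : ℤ) = (H : ℤ) * Kd * ((bd * bd : ℕ) : ℤ) := by
      push_cast
      ring
    have h6 : slRows (((bn * bn * S : ℕ)) : ℤ) (((H * Kd * (bd * bd) : ℕ)) : ℤ) ((0 : ℕ) : ℤ) T.W = true := h5
    rw [e1, e2] at h6
    exact h6

/-! ### comparison -/

/-- entrywise comparison of two rows -/
def leF (o : ℕ) (l : List ℤ) : List ℤ → Bool :=
  @List.rec ℤ (fun _ => List ℤ → Bool) (fun _ => true)
    (fun z _ ih m => lc o m fun b m' => iM o z fun a => bif' (Nat.ble a b) (ih m') false) l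

theorem leF_sound {o : ℕ} : ∀ {l m : List ℤ}, leF o l m = true → leOk l m = true
  | [], m, _ => by cases m <;> simp [leOk]
  | z :: l, m, h => by
    have h' : (lc o m fun b m' => iM o z fun a => bif' (Nat.ble a b) (leF o l m') false) = true := h
    obtain ⟨b, m', em, h1⟩ := lc_eq h'
    obtain ⟨a, ez, h2⟩ := iM_eq h1
    obtain ⟨h3, h4⟩ := bif'_false h2
    have h5 : a ≤ b := Nat.le_of_ble_eq_true h3
    rw [em, ez, leOk, Bool.and_eq_true, decide_eq_true_eq]
    refine ⟨?_, leF_sound h4⟩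
    have h6 : (a : ℤ) ≤ b := by exact_mod_cast h5
    linarith

/-- entrywise comparison of the rows -/
def leRF (o : ℕ) (R : List (List ℤ)) : List (List ℤ) → Bool :=
  @List.rec (List ℤ) (fun _ => List (List ℤ) → Bool)
    (fun Q => @List.rec (List ℤ) (fun _ => Bool) true (fun _ _ _ => false) Q)
    (fun w _ ih Q => @List.rec (List ℤ) (fun _ => Bool) false (fun v Q' _ => bif' (leF o w v) (ih Q') false) Q) R

theorem leRF_sound {o : ℕ} : ∀ {R Q : List (List ℤ)}, leRF o R Q = true → leRows R Q = true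
  | [], [], _ => by rw [leRows]
  | [], _ :: _, h => by simp [leRF] at h
  | _ :: _, [], h => by simp [leRF] at h
  | w :: R, v :: Q, h => by
    have h' : bif' (leF o w v) (leRF o R Q) false = true := h
    obtain ⟨h1, h2⟩ := bif'_false h'
    rw [leRows, Bool.and_eq_true]
    exact ⟨leF_sound h1, leRF_sound h2⟩

/-- **the fast comparison of two tables** -/
def leTabF (K T : Tab) : Bool :=
  decide (K.S = T.S) && decide (K.H = T.H) && decide (K.Kd = T.Kd) && decide (K.f0 = T.f0) &&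
    decide (K.b0 = T.b0) && decide (T.n0 ≤ K.n0) && decide (K.I = T.I) && decide (K.J = T.J) &&
    iN T.S fun S => frc (Nat.mul 100 S) fun o => leRF o K.W T.W

theorem leTabF_sound {K T : Tab} (h : leTabF K T = true) : leTab K T = true := by
  simp only [leTabF, leTab, Bool.and_eq_true] at h ⊢
  obtain ⟨h1, h2⟩ := h
  refine ⟨h1, ?_⟩
  obtain ⟨S, eS, h3⟩ := iN_eq h2
  rw [frc_eq] at h3
  exact leRF_sound h3

/-! ### tables with `T.fast` -/

/-- **one table with its list**, monotonicity given -/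
theorem tabS_mon {D : MCL.Cell} {s : SP} (hs : SPF D s) {T : Tab} {l : List EN}
    (hP : TabP T D.kp D.N D.Xc) (hM : T.Mon) (h2 : slopeOk T s.bn s.bd = true)
    (h3 : elTest T s.p l = true) : TabS D s T l := by
  obtain ⟨g1, g2, g3, g4, g5⟩ := elTest_sound hM h3 hs.kap (x₀ := xz s T) rfl
  have hSr : (0 : ℝ) < T.S := by exact_mod_cast hP.g.S
  have hfr : (0 : ℝ) < T.f0 := by exact_mod_cast hP.g.f
  have hf : (0 : ℝ) < (T.f0 : ℝ) / T.S := by positivity
  have hab : (0 : ℝ) < D.ab := hs.bb.trans_le hs.bab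
  have hκ := hP.hκ
  refine ⟨hP, hM, fun a m k1 k2 k3 k4 k5 => ?_, g1.Z, g2, g3, ?_, ?_⟩
  · have key := V_slope hM h2 hP.hJ hκ hP.hN1 hP.hX.le k1 k2 k3 k4 k5
    have h5 : 4 * (D.be : ℝ) ^ 2 * m ^ 2 / D.kp * Real.log (D.ab / a) ≤
        4 * ((s.bn : ℝ) / s.bd) ^ 2 * m ^ 2 / D.kp * Real.log (D.ab / a) := by
      have h6 := log_quot_nonneg k1 k2
      refine mul_le_mul_of_nonneg_right ?_ h6
      refine div_le_div_of_nonneg_right ?_ hκ.le
      refine mul_le_mul_of_nonneg_right ?_ (sq_nonneg m)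
      linarith [hs.be]
    linarith
  · refine g4.mono le_rfl g2.le fun m hm => ?_
    have e := T.V_eq hf (κ := (D.kp : ℝ)) hab hm
    rw [e]
    refine mul_le_mul_of_nonneg_left (hM.mono ?_ _) hm.le
    refine Real.log_le_log (by positivity) ?_
    refine div_le_div_of_nonneg_left hm.le (by positivity) ?_
    exact mul_le_mul_of_nonneg_right hs.ab hf.le
  · rcases hs.X with h6 | h6
    · exact h6.trans g5
    · exact absurd h6 g1.Z.ne'

end Pool.Agent.FPX.MCW

namespace Pool.Agent.FPX.MCL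

open Pool.Agent.EWD Pool.Agent.FPM

/-- the fast test of a node -/
def nodF (s : MCW.SP) (x : Nod) : Bool :=
  MCW.slopeF x.T s.bn s.bd && MCW.slopeF x.K s.bn s.bd && MCW.leTabF x.K x.T &&
    MCW.elTest x.T s.p x.lV && MCW.elTest x.K s.p x.lK

/-- **a node** with tables which pass `T.fast` -/
theorem nodS_fast {Q : E3 → E3 → E3 → E3 → E3 → ℝ} {D : Cell} {s : MCW.SP} (hs : MCW.spOk D s = true)
    {x : Nod} (hq : NodQ Q D x) (hV : x.T.fast = true) (hK : x.K.fast = true) (h : nodF s x = true) :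
    NodS D s x := by
  simp only [nodF, Bool.and_eq_true] at h
  obtain ⟨⟨⟨⟨h1, h2⟩, h3⟩, h4⟩, h5⟩ := h
  have hs' := MCW.spF_of hs
  have k1 := MCW.tabS_mon hs' hq.V.P (MCW.Tab.mon_of_fast hV hq.V.P.hJ hq.V.P.hI)
    (MCW.slopeF_sound h1) h4
  have k2 := MCW.tabS_mon hs' hq.K.P (MCW.Tab.mon_of_fast hK hq.K.P.hJ hq.K.P.hI)
    (MCW.slopeF_sound h2) h5
  exact ⟨k1, k2, MCW.leV_of k2 k1 (MCW.leTabF_sound h3)⟩

end Pool.Agent.FPX.MCL
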