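import Pool.Agent.FPX.MCG
import Pool.Agent.FPX.RWF

/-
MCGF (helper91): `cell_fin` of MCG (helper28) with the scalar facts of the nodes as a hypothesis (`nodS_fast`).
-/

noncomputable section

namespace Pool.Agent.FPX.MCL

open Pool.Agent.EWD Pool.Agent.FPM

/-- **a cell of the modulus closing** -/
theorem cell_fast {D : Cell} (hD : D.ok = true) (hse : 2 ≤ D.se ^ 2) {s : MCW.SP}
    (hs : MCW.spOk D s = true) {r : ℚ} (hr : r ≤ 5853 / 2000)
    {L : List Nod} (hL : ∀ x ∈ L, NodQ Qm D x) (hN : ∀ x ∈ L, NodS D s x)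
    {P : List PD} {hl sl : List ℚ}
    (hc : covOk hl sl (P.map PD.r) = true) (h1 : (P.all fun p => corB D L p) = true)
    (h2 : (P.all fun p => extOk D Lr (1 / 4) r p.r p.e p.el) = true)
    (h3 : (P.all fun p => rowB D s L p) = true) :
    CellM D.kap 2 D.sg D.cl D.cu D.Xc D.k := by
  have h0 : 0 ≤ D.se := by
    simp only [Cell.ok, Bool.and_eq_true] at hD
    obtain ⟨b1, b2, b3, b4, b5, b6, b7, b8, b9, b10, -⟩ := of_decide_eq_true hD.1.1.1.1.2
    exact b10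
  refine cell_gen (Q := Qm) (AZV.mcq_lz sw_all) hD (by norm_num) ?_ (Vlo := 5853 / 1000)
    (Or.inr close_vlo) (PR := PRm) (cr := 1 / 4) (r := r) (Lm := Lr)
    (fun y₀ b₀ h => ⟨by norm_num, ?_⟩) (Or.inr ⟨?_, lr_ok⟩) hL hc h1 h2
    (sc_gen (MCW.spF_of hs) hN h1 h3)
  · have h1 : (2 : ℝ) ≤ (D.se : ℝ) ^ 2 := by exact_mod_cast hse
    have h2 : (0 : ℝ) ≤ D.se := by exact_mod_cast h0
    rw [← Real.sqrt_sq h2]
    exact Real.sqrt_le_sqrt h1
  · have := AZV.mcr_rings sw_all (show (0 : ℝ) ≤ 1 / 4 by norm_num) y₀ b₀ h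
    push_cast
    exact this
  · have : (r : ℝ) ≤ ((5853 / 2000 : ℚ) : ℝ) := by exact_mod_cast hr
    push_cast at this
    linarith

end Pool.Agent.FPX.MCL
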