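import Mathlib
import Pool.Agent.FPX.AZO
import Pool.Agent.FPX.AZR
import Pool.Agent.FPX.MCGS
import Pool.Agent.FPX.VLO

/-
MCR2 (helper56): the ring member in the cells of the modulus closing. With the certificate `AZV.QR Q`
(`max` of `Q` and the ring certificate): `TabQ.sup`, `NodQ.sup` (the tables keep their certificates),
`PRL cr` = the ring members on the levels `≥ cr`, `hPR_of`; `Lm4` = the four members on the levels `≥ 1/4`
(AZR), `Lm5` = the three members on the levels `≥ 1/5`; `hv4`, `hv5`: the hypotheses `hv` of `cell_mc` for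
any list of these members (the empty list included); `cell_q` = `cell_mc` for the certificate
`AZV.QR (QW L)`, `L` a list of admissible weights, `Ee = 2`.
-/

open MeasureTheory Set Filter Topology
open scoped ENNReal NNReal

noncomputable section

namespace Pool.Agent.FPX

open Pool.Agent.EWD Pool.Agent.FPM

/-- a table keeps its certificate -/
theorem TabQ.sup {Q : E3 → E3 → E3 → E3 → E3 → ℝ} {ρ₀ θ : ℝ} {T : MCW.Tab} {κ' N X : ℝ}
    (h : TabQ Q ρ₀ θ T κ' N X) : TabQ (AZV.QR Q) ρ₀ θ T κ' N X where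
  ρ := h.ρ
  ex := by
    obtain ⟨Ψ, h1, h2⟩ := h.ex
    exact ⟨Ψ, AZV.mcr_sup h1, h2⟩
  b := h.b
  P := h.P

/-- **the ring member** in the form of the core -/
theorem ringQ_of {Q : E3 → E3 → E3 → E3 → E3 → ℝ} {ψ : ℝ → ℝ} (H : MCQ Q ψ) {cr y b : ℝ} (hc : 0 < cr)
    (hg : AZS.GoodL cr y b) (hy : y ≤ 2) : RingQ (AZV.QR Q) cr y b :=
  ⟨hc, AZV.mcr_ring1 H hc.le hg hy⟩

namespace MCL

/-- the ring members on the levels at least `cr` -/
def PRL (cr : ℚ) (y b : ℝ) : Prop := AZS.GoodL (cr : ℝ) y b ∧ y ≤ 2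

theorem hPR_of {Q : E3 → E3 → E3 → E3 → E3 → ℝ} {ψ : ℝ → ℝ} (H : MCQ Q ψ) {cr : ℚ} (hc : 0 < cr) :
    ∀ y₀ b₀, PRL cr y₀ b₀ → RingQ (AZV.QR Q) cr y₀ b₀ := fun y₀ b₀ h =>
  ringQ_of H (by exact_mod_cast hc) h.1 h.2

/-- the members on the levels at least `1/4` -/
def Lm4 : List (ℚ × ℚ) := [(17 / 20, 17 / 20), (7 / 8, 43 / 50), (9 / 10, 7 / 8), (19 / 20, 91 / 100)]

/-- the members on the levels at least `1/5` -/
def Lm5 : List (ℚ × ℚ) := [(4 / 5, 43 / 50), (9 / 10, 9 / 10), (1, 19 / 20)]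

theorem prl4 : ∀ p ∈ Lm4, PRL (1 / 4) (p.1 : ℝ) (p.2 : ℝ) := by
  intro p hp
  have e : ((1 / 4 : ℚ) : ℝ) = 1 / 4 := by norm_num
  simp only [Lm4, List.mem_cons, List.not_mem_nil, or_false] at hp
  unfold PRL
  rw [e]
  rcases hp with rfl | rfl | rfl | rfl
  · have h := AZS.good4_a
    norm_num at h ⊢
    exact h
  · have h := AZS.good4_b
    norm_num at h ⊢
    exact h
  · have h := AZS.good4_c
    norm_num at h ⊢
    exact h
  · have h := AZS.good4_d
    norm_num at h ⊢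
    exact h

theorem prl5 : ∀ p ∈ Lm5, PRL (1 / 5) (p.1 : ℝ) (p.2 : ℝ) := by
  intro p hp
  have e : ((1 / 5 : ℚ) : ℝ) = 1 / 5 := by norm_num
  simp only [Lm5, List.mem_cons, List.not_mem_nil, or_false] at hp
  unfold PRL
  rw [e]
  rcases hp with rfl | rfl | rfl
  · have h := AZS.goodL_of AZS.good1
    norm_num at h ⊢
    exact h
  · have h := AZS.goodL_of AZS.good2
    norm_num at h ⊢
    exact h
  · have h := AZS.goodL_of AZS.good3
    norm_num at h ⊢
    exact h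

/-- the members on the levels at least `1/5` are members on the levels at least `1/4` -/
theorem prl45 : ∀ p ∈ Lm4 ++ Lm5, PRL (1 / 4) (p.1 : ℝ) (p.2 : ℝ) := by
  intro p hp
  rcases List.mem_append.1 hp with h | h
  · exact prl4 p h
  · have h1 := prl5 p h
    exact ⟨h1.1.mono (by norm_num), h1.2⟩

theorem vlo_half : ((5853 / 2000 : ℚ) : ℝ) ≤ (5853 / 1000 : ℝ) / 2 := by norm_num

/-- **`hv` of `cell_mc`**, levels at least `1/4` (the empty list included) -/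
theorem hv4 (Lm : List (ℚ × ℚ)) (h : (Lm.all fun p => decide (p ∈ Lm4 ++ Lm5)) = true) :
    Lm = [] ∨ (((5853 / 2000 : ℚ) : ℝ) ≤ (5853 / 1000 : ℝ) / 2 ∧
      ∀ p ∈ Lm, PRL (1 / 4) (p.1 : ℝ) (p.2 : ℝ)) :=
  Or.inr ⟨vlo_half, fun p hp => prl45 p (of_decide_eq_true (List.all_eq_true.1 h p hp))⟩

/-- **`hv` of `cell_mc`**, levels at least `1/5` -/
theorem hv5 (Lm : List (ℚ × ℚ)) (h : (Lm.all fun p => decide (p ∈ Lm5)) = true) :
    Lm = [] ∨ (((5853 / 2000 : ℚ) : ℝ) ≤ (5853 / 1000 : ℝ) / 2 ∧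
      ∀ p ∈ Lm, PRL (1 / 5) (p.1 : ℝ) (p.2 : ℝ)) :=
  Or.inr ⟨vlo_half, fun p hp => prl5 p (of_decide_eq_true (List.all_eq_true.1 h p hp))⟩

theorem NodQ.sup {Q : E3 → E3 → E3 → E3 → E3 → ℝ} {D : Cell} {x : Nod} (h : NodQ Q D x) :
    NodQ (AZV.QR Q) D x where
  V := h.V.sup
  K := h.K.sup

/-- **a cell with the ring members** (levels at least `1/4`): the certificate is `AZV.QR (QW L)`, the nodes
have their certificates for `QW L` -/
theorem cell_q {Λ : List MW} (hΛ : ∀ m ∈ Λ, m.Sw) {D : Cell} (hD : D.ok = true) {Ee : ℝ} (hE : 0 ≤ Ee)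
    (hse : √Ee ≤ D.se) {Lm : List (ℚ × ℚ)} (hLm : (Lm.all fun p => decide (p ∈ Lm4 ++ Lm5)) = true)
    {s : MCW.SP} (hs : MCW.spOk D s = true) {L : List Nod} (hL : ∀ x ∈ L, NodQ (QW Λ) D x)
    (hN : (L.all fun x => nodB s x) = true) {P : List PD} {hl sl : List ℚ}
    (hc : covOk hl sl (P.map PD.r) = true) (h1 : (P.all fun p => corB D L p) = true)
    (h2 : (P.all fun p => extOk D Lm (1 / 4) (5853 / 2000) p.r p.e p.el) = true)
    (h3 : (P.all fun p => rowB D s L p) = true) : CellM D.kap Ee D.sg D.cl D.cu D.Xc D.k :=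
  cell_mc (AZV.mcq_lz hΛ) hD hE hse (Or.inr close_vlo) (PR := PRL (1 / 4)) (cr := 1 / 4)
    (r := 5853 / 2000) (hPR_of (mcq_w' hΛ) (by norm_num)) (hv4 Lm hLm) hs
    (fun x hx => (hL x hx).sup) hN hc h1 h2 h3

end MCL

end Pool.Agent.FPX
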