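import Mathlib
import Pool.Agent.FPX.MCR2
import Pool.Agent.FPX.SWXF

/-
MCR3 (helper56): `MCR2` for the list `SWX.av` of all weights: `wav_sw`, `cell_x` (a cell from its tables and
Booleans, ring members included; the nodes have their certificates for `QW (SWX.av.map WA.mw)`, that is the
form of `tabQ_of`).
-/

noncomputable section

namespace Pool.Agent.FPX

open Pool.Agent.EWD Pool.Agent.FPM

theorem wav_sw : ∀ m ∈ SWX.av.map WA.mw, m.Sw := fun m hm => by
  obtain ⟨a, ha, rfl⟩ := List.mem_map.1 hm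
  exact SWX.av_sw a ha

namespace MCL

/-- **a cell of the modulus closing**, weights `SWX.av`, ring members on the levels at least `1/4` -/
theorem cell_x {D : Cell} (hD : D.ok = true) {Ee : ℝ} (hE : 0 ≤ Ee)
    (hse : √Ee ≤ D.se) {Lm : List (ℚ × ℚ)} (hLm : (Lm.all fun p => decide (p ∈ Lm4 ++ Lm5)) = true)
    {s : MCW.SP} (hs : MCW.spOk D s = true) {L : List Nod}
    (hL : ∀ x ∈ L, NodQ (QW (SWX.av.map WA.mw)) D x)
    (hN : (L.all fun x => nodB s x) = true) {P : List PD} {hl sl : List ℚ}
    (hc : covOk hl sl (P.map PD.r) = true) (h1 : (P.all fun p => corB D L p) = true)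
    (h2 : (P.all fun p => extOk D Lm (1 / 4) (5853 / 2000) p.r p.e p.el) = true)
    (h3 : (P.all fun p => rowB D s L p) = true) : CellM D.kap Ee D.sg D.cl D.cu D.Xc D.k :=
  cell_q wav_sw hD hE hse hLm hs hL hN hc h1 h2 h3

end MCL

end Pool.Agent.FPX
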