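import Mathlib
import Pool.Agent.FPX.MOT
import Pool.Agent.FPX.MOBC

/-
MOF (helper50): the modal certificate (`MOB.Cd`, `PSD3`, tables of `MOT`) gives the form of the lists of `BRX`.
-/

set_option autoImplicit false

noncomputable section

namespace Pool.Agent.FPX.MOF

open Pool.Agent.FPX.ALX (St)
open Pool.Agent.FPX.MOB (Cd Sq dz tr)

/-- table of the certificate: digits of a literal, symmetric -/
def tT (w c NT : ℕ) (a p b q : ℕ) : ℤ := dz w c (tr (Nat.add (Nat.mul a NT) p) (Nat.add (Nat.mul b NT) q))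

/-- symbol of the certificate: digits of a literal -/
def tQ (w c m J : ℕ) (a b i : ℕ) : ℤ :=
  dz w c (Nat.add (Nat.mul (Nat.add (Nat.mul a m) b) (Nat.add (Nat.mul 2 J) 1)) i)

variable {D : Cd} {n1 nF bL lam bK kap tau Xb b h K ε nε : ℕ}
  {Fl K00 K11 K22 R01 I01 R02 I02 R12 I12 G0 G1 G2 : List ℕ} {w D1 D2 wq D3 : ℕ} {T : BRG.Tf} {q : BRG.Qf} {s : ℝ} {X : ℝ → ℝ}

theorem hT (D : Cd) : ∀ a b : Fin D.m, ∀ p < 2 * D.N - 1, ∀ q < 2 * D.N - 1,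
    MOT.Tr D a (MOB.sl p) b (MOB.sl q) = D.Tc a p b q / D.L := by
  intro a b p _ q _
  unfold MOT.Tr
  rw [MOB.ps_sl, MOB.ps_sl]

theorem hq (D : Cd) : ∀ a b : Fin D.m, ∀ i < 2 * D.J + 1, MOT.qr D a b ((i : ℤ) - D.J) = D.q a b i / D.L := by
  intro a b i _
  unfold MOT.qr
  rw [sub_add_cancel, Int.toNat_natCast]

/-- **without products** -/
theorem of0 (ht : D.hdr = true) (hm : D.m = 3) (hn : n1 + 1 = D.N)
    (hc : PSD3.chk n1 0 bL lam bK kap tau Xb b h K ε nε Fl K00 K11 K22 R01 I01 R02 I02 R12 I12 G0 G1 G2 D.S = true)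
    (hk : MOT.chk D w D1 D2 wq D3 T q = true) (hX : St s X) (h0 : 0 ≤ s) (hs : s ≤ D.sn / D.h) (hb : ∀ a, |X a| ≤ 1)
    (z : ℕ → ℂ) : 0 ≤ (BRG.e2 z (BRG.vl BTN.va X BTN.e1) T + BRG.eq2 z (BRG.Zr 2 BTN.va X BTN.e1) q).re :=
  MOT.main hk hX hb (Cd.main0 ht hm hn hc (hT D) (hq D) hX h0 hs) z

/-- **with the products of a family of squares** -/
theorem ofS (Q : Sq) (ht : D.hdr = true) (hm : D.m = 3) (hn : n1 + 1 = D.N) (hQ : Q.DP + 1 ≤ 2 * D.N)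
    (hA : Q.okA nF = true) (hF : Q.okF D.sn D.h bL lam nF 0 Fl = true)
    (hc : PSD3.chk n1 nF bL lam bK kap tau Xb b h K ε nε Fl K00 K11 K22 R01 I01 R02 I02 R12 I12 G0 G1 G2 D.S = true)
    (hk : MOT.chk D w D1 D2 wq D3 T q = true) (hX : St s X) (h0 : 0 ≤ s) (hs : s ≤ D.sn / D.h) (hb : ∀ a, |X a| ≤ 1)
    (z : ℕ → ℂ) : 0 ≤ (BRG.e2 z (BRG.vl BTN.va X BTN.e1) T + BRG.eq2 z (BRG.Zr 2 BTN.va X BTN.e1) q).re :=
  MOT.main hk hX hb (Cd.mainS Q ht hm hn hQ hA hF hc (hT D) (hq D) hX h0 hs) z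

end Pool.Agent.FPX.MOF
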