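import Pool.Agent.FPX.MOBC

/-
MOK (helper50): the autocorrelations of the squares of `MOB.Sq` by one multiplication of packed numbers:
`okP nF = true → okA nF = true`.
-/

set_option autoImplicit false

open Finset

noncomputable section

namespace Pool.Agent.FPX.MOB

theorem al_of {f : ℕ → Bool} : ∀ {n : ℕ}, (∀ i < n, f i = true) → al n f = true
  | 0, _ => rfl
  | n + 1, h => by
    rw [al, Bool.and_eq_true]
    exact ⟨al_of fun i hi => h i (by omega), h n (by omega)⟩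

/-- `∑ k < n, f k β ^ (n - 1 - k)` -/
def rvz (β : ℤ) (f : ℕ → ℤ) : ℕ → ℤ
  | 0 => 0
  | n + 1 => Int.add (Int.mul (rvz β f n) β) (f n)

theorem rvz_eq (β : ℤ) (f : ℕ → ℤ) : ∀ n : ℕ, rvz β f n = ∑ k ∈ range n, f k * β ^ (n - 1 - k)
  | 0 => rfl
  | n + 1 => by
    change rvz β f n * β + f n = _
    rw [rvz_eq β f n, sum_range_succ, sum_mul]
    congr 1
    · refine sum_congr rfl fun k hk => ?_
      have := mem_range.1 hk
      rw [mul_assoc, ← pow_succ]
      congr 2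
      omega
    · simp

theorem rvz_rev (β : ℤ) (f : ℕ → ℤ) (n : ℕ) : rvz β f (n + 1) = ∑ k ∈ range (n + 1), f (n - k) * β ^ k := by
  rw [rvz_eq, ← sum_range_reflect]
  refine sum_congr rfl fun k hk => ?_
  have := mem_range.1 hk
  rw [show n + 1 - 1 - (n + 1 - 1 - k) = k by omega, show n + 1 - 1 - k = n - k by omega]

/-- uniqueness of the digits -/
theorem digs_zero {β : ℤ} (hβ : 0 < β) : ∀ (n : ℕ) (f : ℕ → ℤ), (∀ e < n, |f e| < β) → ∑ e ∈ range n, f e * β ^ e = 0 →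
    ∀ e < n, f e = 0
  | 0, _, _, _ => fun e he => by omega
  | n + 1, f, hf, h => by
    rw [sum_range_succ'] at h
    have e1 : ∑ e ∈ range n, f (e + 1) * β ^ (e + 1) = (∑ e ∈ range n, f (e + 1) * β ^ e) * β := by
      rw [sum_mul]
      exact sum_congr rfl fun e _ => by rw [pow_succ]; ring
    rw [e1, pow_zero, mul_one] at h
    have h0 : f 0 = 0 := by
      have hd : β ∣ f 0 := ⟨-(∑ e ∈ range n, f (e + 1) * β ^ e), by linarith⟩
      exact Int.eq_zero_of_abs_lt_dvd hd (hf 0 (by omega))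
    rw [h0, add_zero] at h
    have h1 : ∑ e ∈ range n, f (e + 1) * β ^ e = 0 := by
      rcases mul_eq_zero.1 h with h | h
      · exact h
      · omega
    have ih := digs_zero hβ n (fun e => f (e + 1)) (fun e he => hf (e + 1) (by omega)) h1
    intro e he
    cases e with
    | zero => exact h0
    | succ e => exact ih e (by omega)

/-- the product of two packed numbers -/
theorem pack_mul (β : ℤ) (n : ℕ) (x y : ℕ → ℤ) :
    (∑ k ∈ range (n + 1), x k * β ^ k) * (∑ k ∈ range (n + 1), y (n - k) * β ^ k) =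
      ∑ e ∈ range (2 * n + 1), (∑ l ∈ range (n + 1), if n ≤ e + l ∧ e + l ≤ 2 * n then x (e + l - n) * y l else 0) * β ^ e := by
  have e1 : (∑ k ∈ range (n + 1), y (n - k) * β ^ k) = ∑ l ∈ range (n + 1), y l * β ^ (n - l) := by
    rw [← sum_range_reflect]
    refine sum_congr rfl fun k hk => ?_
    have := mem_range.1 hk
    congr 2
    omega
  rw [e1, sum_mul_sum]
  have e2 : ∀ e ∈ range (2 * n + 1), (∑ l ∈ range (n + 1), if n ≤ e + l ∧ e + l ≤ 2 * n then x (e + l - n) * y l else 0) * β ^ e =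
      ∑ l ∈ range (n + 1), ∑ k ∈ range (n + 1), if k + (n - l) = e then x k * β ^ k * (y l * β ^ (n - l)) else 0 := by
    intro e he
    rw [sum_mul]
    refine sum_congr rfl fun l hl => ?_
    have hl' := mem_range.1 hl
    by_cases hc : n ≤ e + l ∧ e + l ≤ 2 * n
    · rw [if_pos hc, sum_eq_single (e + l - n)]
      · rw [if_pos (by omega)]
        have hp : β ^ e = β ^ (e + l - n) * β ^ (n - l) := by
          rw [← pow_add]
          congr 1
          omega
        rw [hp]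
        ring
      · intro k _ hk
        rw [if_neg (by omega)]
      · intro hk
        exact absurd (mem_range.2 (by omega)) hk
    · rw [if_neg hc, zero_mul]
      symm
      refine sum_eq_zero fun k hk => ?_
      have := mem_range.1 hk
      rw [if_neg (by omega)]
  rw [sum_congr rfl e2]
  have e4 : ∑ e ∈ range (2 * n + 1), ∑ l ∈ range (n + 1), ∑ k ∈ range (n + 1),
      (if k + (n - l) = e then x k * β ^ k * (y l * β ^ (n - l)) else 0) =
      ∑ l ∈ range (n + 1), ∑ e ∈ range (2 * n + 1), ∑ k ∈ range (n + 1),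
      (if k + (n - l) = e then x k * β ^ k * (y l * β ^ (n - l)) else 0) := sum_comm
  have e3 : ∀ l ∈ range (n + 1), ∑ e ∈ range (2 * n + 1), ∑ k ∈ range (n + 1),
      (if k + (n - l) = e then x k * β ^ k * (y l * β ^ (n - l)) else 0) =
      ∑ k ∈ range (n + 1), x k * β ^ k * (y l * β ^ (n - l)) := by
    intro l hl
    rw [sum_comm]
    refine sum_congr rfl fun k hk => ?_
    have h1 := mem_range.1 hl
    have h2 := mem_range.1 hk
    rw [sum_ite_eq, if_pos (mem_range.2 (by omega))]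
  rw [e4, sum_congr rfl e3]
  exact sum_comm

theorem dz_abs (w c i : ℕ) : |dz w c i| ≤ 2 ^ w := by
  unfold dz
  change |((Nat.mod (Nat.shiftRight c (Nat.add 64 (Nat.mul w i))) (2 ^ w) : ℕ) : ℤ) - ((2 ^ (w - 1) : ℕ) : ℤ)| ≤ 2 ^ w
  have h1 : Nat.mod (Nat.shiftRight c (Nat.add 64 (Nat.mul w i))) (2 ^ w) < 2 ^ w := Nat.mod_lt _ (by positivity)
  have h2 : (2 : ℕ) ^ (w - 1) ≤ 2 ^ w := Nat.pow_le_pow_right (by norm_num) (by omega)
  have h1' : ((Nat.mod (Nat.shiftRight c (Nat.add 64 (Nat.mul w i))) (2 ^ w) : ℕ) : ℤ) < ((2 ^ w : ℕ) : ℤ) := by exact_mod_cast h1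
  have h2' : (((2 : ℕ) ^ (w - 1) : ℕ) : ℤ) ≤ ((2 ^ w : ℕ) : ℤ) := by exact_mod_cast h2
  push_cast at h1' h2' ⊢
  have h3 := Int.natCast_nonneg (Nat.mod (Nat.shiftRight c (Nat.add 64 (Nat.mul w i))) (2 ^ w))
  have h4 : (0 : ℤ) ≤ 2 ^ (w - 1) := by positivity
  rw [abs_le]
  constructor <;> linarith

namespace Sq

variable (Q : Sq)

def bt : ℤ := Int.ofNat (Nat.pow 2 (Nat.add (Nat.add Q.wA (Nat.mul 2 Q.w)) (Nat.add Q.DP 4)))

def cS (i k : ℕ) : ℤ := Q.A i (Nat.add (Nat.sub Q.DP k) (Nat.sub k Q.DP))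
def cT (i k : ℕ) : ℤ := if Nat.ble k Q.DP then Q.B i (Nat.sub Q.DP k) else Int.neg (Q.B i (Nat.sub k Q.DP))

/-- the test of one square -/
def okP1 (β : ℤ) (i : ℕ) (X X' Y Y' : ℤ) : Bool :=
  and (decide (Int.add (Int.mul X X') (Int.mul Y Y') = rvz β (Q.cS i) (Nat.add (Nat.mul 2 Q.DP) 1)))
    (decide (Int.sub (Int.mul Y X') (Int.mul X Y') = rvz β (Q.cT i) (Nat.add (Nat.mul 2 Q.DP) 1)))

/-- **the autocorrelations by packed multiplications** -/
def okP (nF : ℕ) : Bool := al nF fun i => Q.okP1 Q.bt i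
  (rvz Q.bt (fun k => Q.x i (Nat.sub Q.DP k)) (Nat.add Q.DP 1)) (rvz Q.bt (Q.x i) (Nat.add Q.DP 1))
  (rvz Q.bt (fun k => Q.y i (Nat.sub Q.DP k)) (Nat.add Q.DP 1)) (rvz Q.bt (Q.y i) (Nat.add Q.DP 1))

variable {Q}

theorem bt_eq : Q.bt = 2 ^ (Q.wA + 2 * Q.w + (Q.DP + 4)) := by
  unfold bt
  change (((2 ^ (Q.wA + 2 * Q.w + (Q.DP + 4)) : ℕ)) : ℤ) = _
  push_cast
  rfl

theorem conv_abs {a b : ℕ → ℤ} {w n : ℕ} (ha : ∀ k, |a k| ≤ 2 ^ w) (hb : ∀ k, |b k| ≤ 2 ^ w) (e : ℕ) :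
    |∑ l ∈ range (n + 1), if n ≤ e + l ∧ e + l ≤ 2 * n then a (e + l - n) * b l else 0| ≤ (n + 1) * 2 ^ (2 * w) := by
  refine (abs_sum_le_sum_abs _ _).trans ?_
  have : ∀ l ∈ range (n + 1), |if n ≤ e + l ∧ e + l ≤ 2 * n then a (e + l - n) * b l else 0| ≤ (2 : ℤ) ^ (2 * w) := by
    intro l _
    split_ifs
    · rw [abs_mul, two_mul, pow_add]
      exact mul_le_mul (ha _) (hb _) (abs_nonneg _) (by positivity)
    · simp
  refine (sum_le_sum this).trans ?_
  rw [sum_const, card_range, nsmul_eq_mul]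
  push_cast
  rfl

theorem sum_conv (a b : ℕ → ℤ) (n d : ℕ) (hd : d ≤ n) :
    (∑ l ∈ range (n + 1), if n ≤ (n + d) + l ∧ (n + d) + l ≤ 2 * n then a ((n + d) + l - n) * b l else 0) =
      ∑ l ∈ range (n + 1 - d), a (l + d) * b l := by
  rw [← sum_filter]
  refine sum_congr ?_ fun l hl => ?_
  · ext l
    simp only [mem_filter, mem_range]
    omega
  · congr 2
    omega

theorem okA_of {nF : ℕ} (h : Q.okP nF = true) : Q.okA nF = true := by
  have key : ∀ i < nF, ∀ d < Q.DP + 1, Q.A i d = Q.sA i d (Q.DP + 1 - d) ∧ Q.B i d = Q.sB i d (Q.DP + 1 - d) := by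
    intro i hi d hd
    have h1 := al_ok h i hi
    unfold okP1 at h1
    simp only [Bool.and_eq_true, decide_eq_true_eq] at h1
    obtain ⟨h1, h2⟩ := h1
    set n := Q.DP with hn
    set β := Q.bt with hβ
    have hx : ∀ k, |Q.x i k| ≤ 2 ^ Q.w := fun k => dz_abs _ _ _
    have hy : ∀ k, |Q.y i k| ≤ 2 ^ Q.w := fun k => dz_abs _ _ _
    have hA : ∀ k, |Q.A i k| ≤ 2 ^ Q.wA := fun k => dz_abs _ _ _
    have hB : ∀ k, |Q.B i k| ≤ 2 ^ Q.wA := fun k => dz_abs _ _ _
    have hβ0 : 0 < β := by rw [hβ, bt_eq]; positivity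
    have hbig : (2 : ℤ) * ((n + 1) * 2 ^ (2 * Q.w)) + 2 ^ Q.wA < β := by
      rw [hβ, bt_eq]
      have h3 : ((n : ℤ) + 1) ≤ 2 ^ n := by
        have : n + 1 ≤ 2 ^ n := Nat.lt_two_pow_self
        exact_mod_cast this
      have h4 : (1 : ℤ) ≤ 2 ^ Q.wA := one_le_pow₀ (by norm_num)
      have h5 : (1 : ℤ) ≤ 2 ^ (2 * Q.w) := one_le_pow₀ (by norm_num)
      have h6 : (1 : ℤ) ≤ 2 ^ n := one_le_pow₀ (by norm_num)
      have e7 : (2 : ℤ) ^ (Q.wA + 2 * Q.w + (n + 4)) = 16 * (2 ^ Q.wA * (2 ^ (2 * Q.w) * 2 ^ n)) := by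
        rw [pow_add, pow_add, pow_add]
        ring
      rw [e7]
      have h8 : ((n : ℤ) + 1) * 2 ^ (2 * Q.w) ≤ 2 ^ (2 * Q.w) * 2 ^ n := by
        rw [mul_comm]
        exact mul_le_mul_of_nonneg_left h3 (by positivity)
      have h9 : (1 : ℤ) ≤ 2 ^ (2 * Q.w) * 2 ^ n := one_le_mul_of_one_le_of_one_le h5 h6
      have h10 : (2 : ℤ) ^ (2 * Q.w) * 2 ^ n ≤ 2 ^ Q.wA * (2 ^ (2 * Q.w) * 2 ^ n) := le_mul_of_one_le_left (by positivity) h4
      have h11 : (2 : ℤ) ^ Q.wA ≤ 2 ^ Q.wA * (2 ^ (2 * Q.w) * 2 ^ n) := le_mul_of_one_le_right (by positivity) h9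
      have h12 : (0 : ℤ) < 2 ^ Q.wA * (2 ^ (2 * Q.w) * 2 ^ n) := by positivity
      linarith
    have rX : rvz β (fun k => Q.x i (Nat.sub n k)) (Nat.add n 1) = ∑ k ∈ range (n + 1), Q.x i k * β ^ k := by
      change rvz β (fun k => Q.x i (n - k)) (n + 1) = _
      rw [rvz_rev]
      refine sum_congr rfl fun k hk => ?_
      have := mem_range.1 hk
      congr 2
      omega
    have rY : rvz β (fun k => Q.y i (Nat.sub n k)) (Nat.add n 1) = ∑ k ∈ range (n + 1), Q.y i k * β ^ k := by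
      change rvz β (fun k => Q.y i (n - k)) (n + 1) = _
      rw [rvz_rev]
      refine sum_congr rfl fun k hk => ?_
      have := mem_range.1 hk
      congr 2
      omega
    have rX' : rvz β (Q.x i) (Nat.add n 1) = ∑ k ∈ range (n + 1), Q.x i (n - k) * β ^ k := rvz_rev _ _ _
    have rY' : rvz β (Q.y i) (Nat.add n 1) = ∑ k ∈ range (n + 1), Q.y i (n - k) * β ^ k := rvz_rev _ _ _
    have rS : rvz β (Q.cS i) (Nat.add (Nat.mul 2 n) 1) = ∑ k ∈ range (2 * n + 1), Q.cS i (2 * n - k) * β ^ k := rvz_rev _ _ _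
    have rT : rvz β (Q.cT i) (Nat.add (Nat.mul 2 n) 1) = ∑ k ∈ range (2 * n + 1), Q.cT i (2 * n - k) * β ^ k := rvz_rev _ _ _
    rw [rX, rX', rY, rY', rS] at h1
    rw [rX, rX', rY, rY', rT] at h2
    change (_ * _ + _ * _ : ℤ) = _ at h1
    change (_ * _ - _ * _ : ℤ) = _ at h2
    rw [pack_mul, pack_mul] at h1 h2
    have z1 : ∑ e ∈ range (2 * n + 1), (((∑ l ∈ range (n + 1), if n ≤ e + l ∧ e + l ≤ 2 * n then Q.x i (e + l - n) * Q.x i l else 0) +
        (∑ l ∈ range (n + 1), if n ≤ e + l ∧ e + l ≤ 2 * n then Q.y i (e + l - n) * Q.y i l else 0)) - Q.cS i (2 * n - e)) * β ^ e = 0 := by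
      simp only [sub_mul, add_mul, sum_sub_distrib, sum_add_distrib]
      linarith
    have z2 : ∑ e ∈ range (2 * n + 1), (((∑ l ∈ range (n + 1), if n ≤ e + l ∧ e + l ≤ 2 * n then Q.y i (e + l - n) * Q.x i l else 0) -
        (∑ l ∈ range (n + 1), if n ≤ e + l ∧ e + l ≤ 2 * n then Q.x i (e + l - n) * Q.y i l else 0)) - Q.cT i (2 * n - e)) * β ^ e = 0 := by
      simp only [sub_mul, sum_sub_distrib]
      linarith
    have hcS : ∀ k, |Q.cS i k| ≤ 2 ^ Q.wA := fun k => hA _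
    have hcT : ∀ k, |Q.cT i k| ≤ 2 ^ Q.wA := by
      intro k
      unfold cT
      split_ifs
      · exact hB _
      · change |-(Q.B i _)| ≤ _
        rw [abs_neg]
        exact hB _
    have t1 := digs_zero hβ0 (2 * n + 1) _ (fun e _ => by
      have a1 := conv_abs (n := n) hx hx e
      have a2 := conv_abs (n := n) hy hy e
      have a3 := hcS (2 * n - e)
      rw [abs_le] at a1 a2 a3
      rw [abs_lt]
      constructor <;> linarith [a1.1, a1.2, a2.1, a2.2, a3.1, a3.2]) z1 (n + d) (by omega)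
    have t2 := digs_zero hβ0 (2 * n + 1) _ (fun e _ => by
      have a1 := conv_abs (n := n) hy hx e
      have a2 := conv_abs (n := n) hx hy e
      have a3 := hcT (2 * n - e)
      rw [abs_le] at a1 a2 a3
      rw [abs_lt]
      constructor <;> linarith [a1.1, a1.2, a2.1, a2.2, a3.1, a3.2]) z2 (n + d) (by omega)
    rw [sum_conv _ _ _ _ (by omega), sum_conv _ _ _ _ (by omega)] at t1 t2
    have c1 : Q.cS i (2 * n - (n + d)) = Q.A i d := by
      unfold cS
      change Q.A i ((n - (2 * n - (n + d))) + ((2 * n - (n + d)) - n)) = _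
      congr 1
      omega
    have c2 : Q.cT i (2 * n - (n + d)) = Q.B i d := by
      unfold cT
      rw [if_pos (by rw [Nat.ble_eq]; omega)]
      change Q.B i (n - (2 * n - (n + d))) = _
      congr 1
      omega
    rw [c1] at t1
    rw [c2] at t2
    constructor
    · rw [sA_eq, sum_add_distrib]
      linarith
    · rw [sB_eq, sum_sub_distrib]
      linarith
  unfold okA
  refine al_of fun i hi => al_of fun d hd => ?_
  obtain ⟨k1, k2⟩ := key i hi d hd
  simp only [Bool.and_eq_true, decide_eq_true_eq]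
  exact ⟨k1, k2⟩

end Sq

end Pool.Agent.FPX.MOB
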