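import Pool.Agent.FPX.PLY
/-!
PLQ (helper1). Statement record `ST` of the certificates of `N` chain variables and `M` free box variables; rows of
coefficients packed in one natural number.
-/
set_option autoImplicit false

noncomputable section

namespace Pool.Agent.FPX.PLK

open List (Forall₂)

/-- statement: `N` cells, `M` free variables `τ ∈ [0, 1]`, bounds `Ls`, `Hs` of the increments (scale `κ`), base forms
`F`, linear forms `L` (chain part, row over `(1, τ)`), their products `C`, table `T` over `(1, θ, τ)`, forms `P`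
nonnegative by hypothesis -/
structure ST where
  N : ℕ
  M : ℕ
  κ : ℤ
  Ls : List ℤ
  Hs : List ℤ
  F : List (List ℤ × List (P6 ℤ))
  L : List (List A3 × List ℤ)
  C : List (List (List ℤ))
  T : List (List (List ℤ))
  P : List (List A3 × List ℤ)

/-- value of a linear form -/
def ST.lf (D : ST) (x : ℕ → ℝ) (τ : List ℝ) (q : List A3 × List ℤ) : ℝ :=
  ∑ i ∈ Finset.range D.N, ev3 (q.1.getD i A3.zero) (x i) (x (i + 1)) + lz q.2 (1 :: τ)

/-- hypotheses -/
structure ST.Box (D : ST) (x : ℕ → ℝ) (τ : List ℝ) : Prop where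
  anti : x D.N = -x 0
  lo : ∀ i < D.N, -((D.Ls.getD i 0 : ℤ) : ℝ) ≤ D.κ * (x (i + 1) - x i)
  hi : ∀ i < D.N, D.κ * (x (i + 1) - x i) ≤ ((D.Hs.getD i 0 : ℤ) : ℝ)
  len : τ.length = D.M
  box : ∀ t ∈ τ, 0 ≤ t ∧ t ≤ 1
  pos : ∀ q ∈ D.P, 0 ≤ D.lf x τ q

/-- the chain variables in the box `[0, 1]` -/
structure ST.Par (D : ST) (x : ℕ → ℝ) (θ : List ℝ) : Prop where
  len : θ.length = D.N
  box : ∀ t ∈ θ, 0 ≤ t ∧ t ≤ 1
  eq : ∀ i < D.N, ((D.Ls.getD i 0 : ℝ) + (D.Hs.getD i 0 : ℝ)) * θ.getD i 0 = D.Ls.getD i 0 + D.κ * (x (i + 1) - x i)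

/-- value of the form with the weights `w` -/
def ST.val (D : ST) (w : List ℝ) (x : ℕ → ℝ) (θ τ : List ℝ) : ℝ :=
  (2 * D.κ : ℝ) ^ 2 * ((D.F.map fun q => iz w q.1 * ∑ i ∈ Finset.range D.N,
      (q.2.getD i P6.zero).ev (x i) (x (i + 1))).sum
    + qv id (D.C.map fun r => r.map (iz w)) (D.L.map (D.lf x τ)))
    + qv id (D.T.map fun r => r.map (iz w)) (1 :: (θ ++ τ))

/-- the conclusion of a certificate with the weights `w` -/
def ST.Good (D : ST) (w : List ℝ) : Prop :=
  ∀ (x : ℕ → ℝ) (τ : List ℝ), D.Box x τ → ∃ θ, D.Par x θ ∧ 0 ≤ D.val w x θ τ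

/-! ### lists of digits -/

theorem od_append (B : ℕ) : ∀ P Q : List ℕ, od B (P ++ Q) = od B P + B ^ P.length * od B Q
  | [], Q => by simp [od]
  | d :: P, Q => by
    have ih := od_append B P Q
    simp only [List.cons_append, od, Nat.add_eq, Nat.mul_eq, List.length_cons, ih, pow_succ]
    ring

theorem od_lt {B : ℕ} : ∀ P : List ℕ, (∀ d ∈ P, d < B) → od B P < B ^ P.length
  | [], _ => by simp [od]
  | d :: P, h => by
    have ih := od_lt P fun x hx => h x (by simp [hx])
    have hd := h d (by simp)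
    simp only [od, Nat.add_eq, Nat.mul_eq, List.length_cons, pow_succ]
    nlinarith

theorem ip_append : ∀ (u v : List ℝ) (P Q : List ℕ), u.length = P.length →
    ip (u ++ v) (P ++ Q) = ip u P + ip v Q
  | [], v, [], Q, _ => by simp
  | a :: u, v, d :: P, Q, h => by
    have ih := ip_append u v P Q (by simpa using h)
    simp only [List.cons_append, ip, ih]
    ring
  | [], _, _ :: _, _, h => by simp at h
  | _ :: _, _, [], _, h => by simp at h

theorem ip_smul (d : ℝ) : ∀ (w : List ℝ) (P : List ℕ), ip (w.map fun v => d * v) P = d * ip w P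
  | [], _ => by simp
  | _ :: _, [] => by simp
  | v :: w, x :: P => by
    have ih := ip_smul d w P
    simp only [List.map_cons, ip, ih]
    ring

theorem RV.mono {B K : ℕ} {w : List ℝ} {p n b b' : ℕ} {t : ℝ} (h : RV B K w ⟨p, n, b⟩ t) (hb : b ≤ b') :
    RV B K w ⟨p, n, b'⟩ t := by
  obtain ⟨P, N, a1, a2, a3, a4, a5, a6, a7⟩ := h
  exact ⟨P, N, a1, a2, a3, a4, fun d hd => (a5 d hd).trans hb, fun d hd => (a6 d hd).trans hb, a7⟩

/-! ### packed rows -/

/-- maximum -/
def mx (a b : ℕ) : ℕ := Nat.add a (Nat.sub b a)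

theorem mx_left (a b : ℕ) : a ≤ mx a b := Nat.le_add_right _ _

theorem mx_right (a b : ℕ) : b ≤ mx a b := by
  change b ≤ a + (b - a)
  omega

/-- chunk in front of a row -/
def PV.cons (C : ℕ) : PV → PV → PV
  | ⟨p, n, b⟩, ⟨p', n', b'⟩ => ⟨Nat.add p (Nat.mul C p'), Nat.add n (Nat.mul C n'), mx b b'⟩

/-- first chunk -/
def PV.hd (C : ℕ) : PV → PV
  | ⟨p, n, b⟩ => ⟨Nat.mod p C, Nat.mod n C, b⟩

/-- the other chunks -/
def PV.tl (C : ℕ) : PV → PV
  | ⟨p, n, b⟩ => ⟨Nat.div p C, Nat.div n C, b⟩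

/-- shift by one chunk -/
def PV.sh (C : ℕ) : PV → PV
  | ⟨p, n, b⟩ => ⟨Nat.mul C p, Nat.mul C n, b⟩

/-- product of a chunk and a row of integers -/
def PV.out : PV → PV → PV
  | ⟨p, n, b⟩, ⟨p', n', b'⟩ => ⟨Nat.add (Nat.mul p p') (Nat.mul n n'), Nat.add (Nat.mul p n') (Nat.mul n p'),
      Nat.mul 2 (Nat.mul b b')⟩

/-- weights of a row -/
def wf (w : List ℝ) : List ℝ → List ℝ
  | [] => []
  | d :: D => (w.map fun v => d * v) ++ wf w D

/-- the packed row `x` has the value `t` at `D` -/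
def RR (B K : ℕ) (w D : List ℝ) (x : PV) (t : ℝ) : Prop := RV B (K * D.length) (wf w D) x t

section RR

variable {B K : ℕ} {w : List ℝ}

theorem RR.cons (hw : w.length = K) {c x : PV} {s t d : ℝ} {D : List ℝ} (h1 : RV B K w c s)
    (h2 : RR B K w D x t) : RR B K w (d :: D) (PV.cons (B ^ K) c x) (d * s + t) := by
  obtain ⟨P, N, a1, a2, a3, a4, a5, a6, a7⟩ := h1
  obtain ⟨Q, M, b1, b2, b3, b4, b5, b6, b7⟩ := h2
  refine ⟨P ++ Q, N ++ M, ?_, ?_, ?_, ?_, ?_, ?_, ?_⟩
  · rw [List.length_append, a1, b1, List.length_cons]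
    ring
  · rw [List.length_append, a2, b2, List.length_cons]
    ring
  · rw [od_append, a1, a3, b3]
    rfl
  · rw [od_append, a2, a4, b4]
    rfl
  · intro e he
    rcases List.mem_append.1 he with he | he
    · exact (a5 e he).trans (mx_left _ _)
    · exact (b5 e he).trans (mx_right _ _)
  · intro e he
    rcases List.mem_append.1 he with he | he
    · exact (a6 e he).trans (mx_left _ _)
    · exact (b6 e he).trans (mx_right _ _)
  · have l1 : (w.map fun v => d * v).length = P.length := by rw [List.length_map, hw, a1]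
    have l2 : (w.map fun v => d * v).length = N.length := by rw [List.length_map, hw, a2]
    simp only [wf]
    rw [ip_append _ _ _ _ l1, ip_append _ _ _ _ l2, ip_smul, ip_smul, a7, b7]
    ring

theorem RR.uncons (hw : w.length = K) {x : PV} {t d : ℝ} {D : List ℝ} (h : RR B K w (d :: D) x t)
    (hb : x.b < B) : ∃ s t', RV B K w (PV.hd (B ^ K) x) s ∧ RR B K w D (PV.tl (B ^ K) x) t' ∧ t = d * s + t' := by
  obtain ⟨P, N, a1, a2, a3, a4, a5, a6, a7⟩ := h
  have hl : K * (d :: D).length = K + K * D.length := by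
    rw [List.length_cons]
    ring
  rw [hl] at a1 a2
  have t1 : (P.take K).length = K := by rw [List.length_take, a1]; omega
  have t2 : (N.take K).length = K := by rw [List.length_take, a2]; omega
  have d1 : (P.drop K).length = K * D.length := by rw [List.length_drop, a1]; omega
  have d2 : (N.drop K).length = K * D.length := by rw [List.length_drop, a2]; omega
  have key : ∀ Q : List ℕ, (Q.take K).length = K → (∀ e ∈ Q, e ≤ x.b) →
      od B (Q.take K) = od B Q % B ^ K ∧ od B (Q.drop K) = od B Q / B ^ K := by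
    intro Q hQ hQb
    have e1 : od B Q = od B (Q.take K) + B ^ K * od B (Q.drop K) := by
      conv_lhs => rw [← List.take_append_drop K Q]
      rw [od_append, hQ]
    have e2 : od B (Q.take K) < B ^ K := by
      have := od_lt (Q.take K) fun e he => (hQb e (List.mem_of_mem_take he)).trans_lt hb
      rwa [hQ] at this
    have hB : 0 < B ^ K := by omega
    constructor
    · rw [e1, Nat.add_mul_mod_self_left, Nat.mod_eq_of_lt e2]
    · rw [e1, Nat.add_mul_div_left _ _ hB, Nat.div_eq_of_lt e2, Nat.zero_add]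
  obtain ⟨k1, k2⟩ := key P t1 a5
  obtain ⟨k3, k4⟩ := key N t2 a6
  refine ⟨ip w (P.take K) - ip w (N.take K), ip (wf w D) (P.drop K) - ip (wf w D) (N.drop K), ?_, ?_, ?_⟩
  · refine ⟨P.take K, N.take K, t1, t2, ?_, ?_, fun e he => a5 e (List.mem_of_mem_take he),
      fun e he => a6 e (List.mem_of_mem_take he), rfl⟩
    · rw [k1, a3]
      rfl
    · rw [k3, a4]
      rfl
  · refine ⟨P.drop K, N.drop K, d1, d2, ?_, ?_, fun e he => a5 e (List.mem_of_mem_drop he),
      fun e he => a6 e (List.mem_of_mem_drop he), rfl⟩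
    · rw [k2, a3]
      rfl
    · rw [k4, a4]
      rfl
  · have l1 : (w.map fun v => d * v).length = (P.take K).length := by rw [List.length_map, hw, t1]
    have l2 : (w.map fun v => d * v).length = (N.take K).length := by rw [List.length_map, hw, t2]
    rw [a7]
    conv_lhs => rw [← List.take_append_drop K P, ← List.take_append_drop K N]
    simp only [wf]
    rw [ip_append _ _ _ _ l1, ip_append _ _ _ _ l2, ip_smul, ip_smul]
    ring

theorem RR.zero {D : List ℝ} : RR B K w D ⟨0, 0, 0⟩ 0 := RV.zero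

theorem RR.sh (hw : w.length = K) {x : PV} {t d : ℝ} {D : List ℝ} (h : RR B K w D x t) :
    RR B K w (d :: D) (PV.sh (B ^ K) x) t := by
  have h1 := RR.cons hw (d := d) (RV.zero (B := B) (K := K) (w := w)) h
  obtain ⟨p, n, b⟩ := x
  have e : PV.cons (B ^ K) ⟨0, 0, 0⟩ ⟨p, n, b⟩ = PV.sh (B ^ K) ⟨p, n, b⟩ := by
    have : mx 0 b = b := by
      change 0 + (b - 0) = b
      omega
    simp only [PV.cons, PV.sh, this, PV.mk.injEq]
    exact ⟨Nat.zero_add _, Nat.zero_add _, trivial⟩
  rw [e] at h1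
  simpa using h1

/-- packed integer -/
def pkZ : ℤ → PV
  | Int.ofNat a => ⟨a, 0, a⟩
  | Int.negSucc a => ⟨0, Nat.succ a, Nat.succ a⟩

/-- packed row of integers -/
def pkI (C : ℕ) : List ℤ → PV
  | [] => ⟨0, 0, 0⟩
  | a :: l => PV.cons C (pkZ a) (pkI C l)

theorem out_pkZ {c : PV} {s : ℝ} (h : RV B K w c s) (a : ℤ) : RV B K w (PV.out c (pkZ a)) (a * s) := by
  have h1 := h.sm a
  obtain ⟨p, n, b⟩ := c
  cases a with
  | ofNat a =>
    simp only [PV.sm, Nat.mul_eq] at h1
    have h2 := h1.mono (show a * b ≤ 2 * (b * a) by nlinarith [Nat.zero_le (a * b)])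
    have e : PV.out ⟨p, n, b⟩ (pkZ (Int.ofNat a)) = ⟨a * p, a * n, 2 * (b * a)⟩ := by
      simp only [PV.out, pkZ, PV.mk.injEq, Nat.add_eq, Nat.mul_eq]
      exact ⟨by ring, by ring, trivial⟩
    rw [e]
    exact h2
  | negSucc a =>
    simp only [PV.sm, Nat.mul_eq] at h1
    have h2 := h1.mono (show a.succ * b ≤ 2 * (b * a.succ) by nlinarith [Nat.zero_le (a.succ * b)])
    have e : PV.out ⟨p, n, b⟩ (pkZ (Int.negSucc a)) = ⟨a.succ * n, a.succ * p, 2 * (b * a.succ)⟩ := by
      simp only [PV.out, pkZ, PV.mk.injEq, Nat.add_eq, Nat.mul_eq]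
      exact ⟨by ring, by ring, trivial⟩
    rw [e]
    exact h2

theorem out_pkI (hw : w.length = K) {c : PV} {s : ℝ} (h : RV B K w c s) : ∀ (l : List ℤ) (D : List ℝ),
    l.length ≤ D.length → RR B K w D (PV.out c (pkI (B ^ K) l)) (s * lz l D)
  | [], D, _ => by
    obtain ⟨p, n, b⟩ := c
    have e : PV.out ⟨p, n, b⟩ (pkI (B ^ K) []) = ⟨0, 0, 0⟩ := by
      simp only [PV.out, pkI, PV.mk.injEq, Nat.add_eq, Nat.mul_eq]
      exact ⟨by ring, by ring, by ring⟩
    rw [e]
    simpa using RR.zero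
  | a :: l, [], h => by simp at h
  | a :: l, d :: D, hl => by
    have ih := out_pkI hw h l D (by simpa using hl)
    have h1 := RR.cons hw (d := d) (out_pkZ h a) ih
    obtain ⟨p, n, b⟩ := c
    simp only [pkI]
    generalize pkZ a = y at h1 ⊢
    generalize pkI (B ^ K) l = z at h1 ⊢
    obtain ⟨p1, n1, b1⟩ := y
    obtain ⟨p2, n2, b2⟩ := z
    have e1 : PV.out ⟨p, n, b⟩ (PV.cons (B ^ K) ⟨p1, n1, b1⟩ ⟨p2, n2, b2⟩)
        = ⟨p * p1 + n * n1 + B ^ K * (p * p2 + n * n2), p * n1 + n * p1 + B ^ K * (p * n2 + n * p2),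
          2 * (b * mx b1 b2)⟩ := by
      simp only [PV.out, PV.cons, PV.mk.injEq, Nat.add_eq, Nat.mul_eq]
      exact ⟨by ring, by ring, trivial⟩
    rw [e1]
    simp only [PV.out, PV.cons, Nat.add_eq, Nat.mul_eq] at h1
    have h2 := h1.mono (b' := 2 * (b * mx b1 b2)) (by
      have m1 := Nat.mul_le_mul_left b (mx_left b1 b2)
      have m2 := Nat.mul_le_mul_left b (mx_right b1 b2)
      change 2 * (b * b1) + (2 * (b * b2) - 2 * (b * b1)) ≤ 2 * (b * mx b1 b2)
      omega)
    have e2 : d * (a * s) + s * lz l D = s * lz (a :: l) (d :: D) := by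
      rw [lz_cons]
      ring
    rw [← e2]
    exact h2

/-! ### packed tables -/

/-- the table with packed rows has the value `t` at `D` -/
def TV (B K : ℕ) (w : List ℝ) : List PV → List ℝ → ℝ → Prop
  | [], _, t => t = 0
  | x :: xs, d :: D, t => ∃ r t', RR B K w (d :: D) x r ∧ TV B K w xs D t' ∧ t = d * r + t'
  | _ :: _, [], _ => False

/-- sum of tables -/
def addT : List PV → List PV → List PV
  | x :: xs, y :: ys => PV.add x y :: addT xs ys
  | [], ys => ys
  | xs, [] => xs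

theorem TV.add : ∀ {xs ys : List PV} {D : List ℝ} {s t : ℝ}, TV B K w xs D s → TV B K w ys D t →
    TV B K w (addT xs ys) D (s + t)
  | [], ys, D, s, t, h1, h2 => by
    simp only [TV] at h1
    simpa [addT, h1] using h2
  | x :: xs, [], D, s, t, h1, h2 => by
    simp only [TV] at h2
    simpa [addT, h2] using h1
  | x :: xs, y :: ys, [], s, t, h1, _ => by simp [TV] at h1
  | x :: xs, y :: ys, d :: D, s, t, ⟨r, s', h1, h2, h3⟩, ⟨r', t', h4, h5, h6⟩ => by
    refine ⟨r + r', s' + t', RV.add h1 h4, TV.add h2 h5, ?_⟩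
    rw [h3, h6]
    ring

/-- first row -/
def hdE : List PV → PV
  | [] => ⟨0, 0, 0⟩
  | x :: _ => x

/-- other rows -/
def tlE : List PV → List PV
  | [] => []
  | _ :: xs => xs

theorem TV.split {xs : List PV} {d : ℝ} {D : List ℝ} {t : ℝ} (h : TV B K w xs (d :: D) t) :
    ∃ r t', RR B K w (d :: D) (hdE xs) r ∧ TV B K w (tlE xs) D t' ∧ t = d * r + t' := by
  cases xs with
  | nil =>
    simp only [TV] at h
    exact ⟨0, 0, RR.zero, by simp [tlE, TV], by simp [h]⟩
  | cons x xs => exact h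

/-- product of a linear form with integer coefficients and a packed row -/
def prS (C : ℕ) : List ℤ → PV → List PV
  | [], _ => []
  | a :: l, M => PV.add (PV.sm a M) (PV.sh C (PV.out (PV.hd C M) (pkI C l))) :: prS C l (PV.tl C M)

theorem tl_b (C : ℕ) (x : PV) : (PV.tl C x).b = x.b := by
  obtain ⟨p, n, b⟩ := x
  rfl

theorem prS_ok (hw : w.length = K) : ∀ (l : List ℤ) (M : PV) (D : List ℝ) (t : ℝ), l.length ≤ D.length →
    M.b < B → RR B K w D M t → TV B K w (prS (B ^ K) l M) D (lz l D * t)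
  | [], M, D, t, _, _, _ => by simp [prS, TV]
  | a :: l, M, [], t, h, _, _ => by simp at h
  | a :: l, M, d :: D, t, hl, hb, h => by
    have hl' : l.length ≤ D.length := by simpa using hl
    obtain ⟨s, t', h1, h2, h3⟩ := RR.uncons hw h hb
    have ih := prS_ok hw l (PV.tl (B ^ K) M) D t' hl' (by rw [tl_b]; exact hb) h2
    refine ⟨a * t + s * lz l D, lz l D * t', RV.add (RV.sm h a) (RR.sh hw (out_pkI hw h1 l D hl')), ih, ?_⟩
    rw [lz_cons, h3]
    ring

/-- linear combination of integer rows -/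
def cmbS (C : ℕ) : List PV → List (List ℤ) → PV
  | g :: G, l :: L => PV.add (PV.out g (pkI C l)) (cmbS C G L)
  | _, _ => ⟨0, 0, 0⟩

theorem cmbS_ok (hw : w.length = K) {D : List ℝ} : ∀ {G : List PV} {G' : List ℝ} {L : List (List ℤ)},
    Forall₂ (RV B K w) G G' → (∀ l ∈ L, l.length ≤ D.length) →
    RR B K w D (cmbS (B ^ K) G L) (lv id G' (vals L D))
  | _, _, _, .nil, _ => by simpa [cmbS] using RR.zero
  | _, _, [], .cons hg hG, _ => by simpa [cmbS, vals] using RR.zero
  | _, _, l :: L, .cons hg hG, h => by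
    have ih := cmbS_ok hw hG (L := L) fun m hm => h m (by simp [hm])
    exact RV.add (out_pkI hw hg l D (h l (by simp))) ih

/-- substitution of integer rows in a form -/
def sbS (C : ℕ) : List (List PV) → List (List ℤ) → List PV
  | g :: G, l :: L => addT (prS C l (cmbS C g (l :: L))) (sbS C G L)
  | _, _ => []

/-- bounds -/
def sbOk (B C : ℕ) : List (List PV) → List (List ℤ) → Bool
  | g :: G, l :: L => Nat.ble (Nat.succ (cmbS C g (l :: L)).b) B && sbOk B C G L
  | _, _ => true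

theorem sbS_ok (hw : w.length = K) {D : List ℝ} : ∀ {G : List (List PV)} {G' : List (List ℝ)}
    {L : List (List ℤ)}, Forall₂ (Forall₂ (RV B K w)) G G' → (∀ l ∈ L, l.length ≤ D.length) →
    sbOk B (B ^ K) G L = true → TV B K w (sbS (B ^ K) G L) D (qv id G' (vals L D))
  | _, _, _, .nil, _, _ => by simp [sbS, TV]
  | _, _, [], .cons hg hG, _, _ => by simp [sbS, vals, TV]
  | _, _, l :: L, .cons hg hG, h, hb => by
    simp only [sbOk, Bool.and_eq_true, Nat.ble_eq] at hb
    have ih := sbS_ok hw hG (L := L) (fun m hm => h m (by simp [hm])) hb.2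
    have h1 := cmbS_ok hw (D := D) hg (L := l :: L) h
    have h2 := prS_ok hw l _ D _ (h l (by simp)) hb.1 h1
    exact TV.add h2 ih

end RR

end Pool.Agent.FPX.PLK
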