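import Pool.Agent.FPX.AVL
import Pool.Agent.FPX.NOT
import Pool.Agent.FPX.CAX
import Pool.Agent.FPX.AVI

/-
NCE (helper90): rational data for the scheme of cell averages on the uniform grid of `N` cells. One Boolean per
harmonic `n` checks that `a i` is close to `lam y / N` times the mean of `E^n` over the cell `i`, `y = n π / (2 N)`
(no cubics: the mean is `exp (i n π ρ_i) sin y / y` with the midpoint `ρ_i`), and the error constants of AVL are
bounded by rationals.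
-/

set_option autoImplicit false

open MeasureTheory Set Filter Topology Complex
open Pool.Agent.FPX.NOD (pt)
open Pool.Agent.FPX.SQD (ph)
open Pool.Agent.FPX.CAV
open Pool.Agent.FPX.NOT
open Pool.Agent.FPX.AVL (lam)

noncomputable section

namespace Pool.Agent.FPX.NCE

/-! ### the mean of a harmonic over a cell -/

/-- mean of an exponential -/
theorem int_exp {y : ℝ} (hy : 0 < y) (α : ℝ) :
    ∫ v in (0 : ℝ)..1, exp (((α + 2 * y * v : ℝ) : ℂ) * I)
      = exp (((α + y : ℝ) : ℂ) * I) * ((Real.sin y / y : ℝ) : ℂ) := by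
  have hyc : (y : ℂ) ≠ 0 := by exact_mod_cast hy.ne'
  set f : ℝ → ℂ := fun v => exp (((α + 2 * y * v : ℝ) : ℂ) * I) with hf
  have cf : Continuous f := by
    rw [hf]
    fun_prop
  have df : ∀ v, HasDerivAt f (2 * I * y * f v) v := by
    intro v
    have k1 : HasDerivAt (fun v : ℝ => ((α + 2 * y * v : ℝ) : ℂ) * I) (((2 * y * 1 : ℝ) : ℂ) * I) v := by
      have k0 : HasDerivAt (fun v : ℝ => α + 2 * y * v) (2 * y * 1) v :=
        ((hasDerivAt_id v).const_mul (2 * y)).const_add α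
      exact k0.ofReal_comp.mul_const _
    refine k1.cexp.congr_deriv ?_
    rw [hf]
    push_cast
    ring
  have hc : ∫ v in (0 : ℝ)..1, f v = f 1 / (2 * I * y) - f 0 / (2 * I * y) := by
    refine intervalIntegral.integral_eq_sub_of_hasDerivAt (f := fun v => f v / (2 * I * y))
      (f' := f) (a := 0) (b := 1) (fun v _ => ?_) (cf.intervalIntegrable _ _)
    refine ((df v).div_const (2 * I * y)).congr_deriv ?_
    have hI : (I : ℂ) ≠ 0 := I_ne_zero
    field_simp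
  rw [hc, hf]
  simp only
  have e1 : exp (((α + 2 * y * 1 : ℝ) : ℂ) * I) = exp (((α + y : ℝ) : ℂ) * I) * exp ((y : ℂ) * I) := by
    rw [← Complex.exp_add]
    congr 1
    push_cast
    ring
  have e0 : exp (((α + 2 * y * 0 : ℝ) : ℂ) * I) = exp (((α + y : ℝ) : ℂ) * I) * exp (-(y : ℂ) * I) := by
    rw [← Complex.exp_add]
    congr 1
    push_cast
    ring
  rw [e1, e0]
  have hs : Complex.sin (y : ℂ) = (exp (-(y : ℂ) * I) - exp ((y : ℂ) * I)) * I / 2 := rfl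
  push_cast
  rw [hs]
  have hI : (I : ℂ) ≠ 0 := I_ne_zero
  have hI2 : I ^ 2 = -1 := I_sq
  field_simp
  linear_combination (exp ((y : ℂ) * I) - exp (-((y : ℂ) * I))) * hI2

/-- the mean of the harmonic `n` over the cell `i` of the uniform grid -/
theorem pm_eq {N n : ℕ} (hN : 0 < N) (hn : 0 < n) {y : ℝ} (hy : y = n * Real.pi / (2 * N)) (i : ℕ) :
    pm n (ru N) i = exp (((Real.pi * (n * ((2 * i + 1 : ℝ) - N) / (2 * N)) : ℝ) : ℂ) * I)
      * ((Real.sin y / y : ℝ) : ℂ) := by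
  have hN' : (0 : ℝ) < N := by exact_mod_cast hN
  have hn' : (0 : ℝ) < n := by exact_mod_cast hn
  have hp := Real.pi_pos
  have hy0 : 0 < y := by
    rw [hy]
    positivity
  have key := int_exp hy0 (n * (Real.pi * ru N i))
  have e1 : ∀ v : ℝ, ph n (pt (ru N) i v) = exp (((n * (Real.pi * ru N i) + 2 * y * v : ℝ) : ℂ) * I) := by
    intro v
    unfold SQD.ph NOD.pt
    congr 1
    have : (N : ℂ) ≠ 0 := by exact_mod_cast hN'.ne'
    rw [hy]
    unfold ru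
    push_cast
    field_simp
    ring
  have e2 : (n * (Real.pi * ru N i) + y : ℝ) = Real.pi * (n * ((2 * i + 1 : ℝ) - N) / (2 * N)) := by
    rw [hy]
    unfold ru
    field_simp
    ring
  unfold pm
  simp only [e1]
  rw [key, e2]

/-! ### the factor -/

/-- `sin y / y` -/
theorem sinc_err {y : ℝ} (h0 : 0 < y) (h1 : y ≤ 1) :
    |Real.sin y / y - (1 - y ^ 2 / 6 + y ^ 4 / 120 - y ^ 6 / 5040 + y ^ 8 / 362880)| ≤ 2 * y ^ 10 / 39916800 := by
  have nx : ‖((y : ℂ) * I)‖ = y := by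
    rw [norm_mul, Complex.norm_I, mul_one, Complex.norm_real, Real.norm_eq_abs, abs_of_pos h0]
  have h := Complex.exp_bound' (x := (y : ℂ) * I) (n := 11) (by
    rw [nx, div_le_iff₀ (by positivity)]
    push_cast
    linarith)
  rw [nx] at h
  have h2 := (Complex.abs_im_le_norm _).trans h
  have e : (exp ((y : ℂ) * I) - ∑ j ∈ Finset.range 11, ((y : ℂ) * I) ^ j / (j.factorial : ℂ)).im
      = Real.sin y - (y - y ^ 3 / 6 + y ^ 5 / 120 - y ^ 7 / 5040 + y ^ 9 / 362880) := by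
    have i2 : I ^ 2 = -1 := I_sq
    have i3 : I ^ 3 = -I := by rw [pow_succ, i2]; ring
    have i4 : I ^ 4 = 1 := by rw [show (4 : ℕ) = 2 + 2 from rfl, pow_add, i2]; ring
    have i5 : I ^ 5 = I := by rw [show (5 : ℕ) = 4 + 1 from rfl, pow_add, i4]; ring
    have i6 : I ^ 6 = -1 := by rw [show (6 : ℕ) = 4 + 2 from rfl, pow_add, i4, i2]; ring
    have i7 : I ^ 7 = -I := by rw [show (7 : ℕ) = 4 + 3 from rfl, pow_add, i4, i3]; ring
    have i8 : I ^ 8 = 1 := by rw [show (8 : ℕ) = 4 + 4 from rfl, pow_add, i4]; ring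
    have i9 : I ^ 9 = I := by rw [show (9 : ℕ) = 8 + 1 from rfl, pow_add, i8]; ring
    have i10 : I ^ 10 = -1 := by rw [show (10 : ℕ) = 8 + 2 from rfl, pow_add, i8, i2]; ring
    have s : ∑ j ∈ Finset.range 11, ((y : ℂ) * I) ^ j / (j.factorial : ℂ)
        = ((1 - y ^ 2 / 2 + y ^ 4 / 24 - y ^ 6 / 720 + y ^ 8 / 40320 - y ^ 10 / 3628800 : ℝ) : ℂ)
          + ((y - y ^ 3 / 6 + y ^ 5 / 120 - y ^ 7 / 5040 + y ^ 9 / 362880 : ℝ) : ℂ) * I := by
      simp only [Finset.sum_range_succ, Finset.range_zero, Finset.sum_empty, Nat.factorial, mul_pow, i2, i3, i4,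
        i5, i6, i7, i8, i9, i10]
      push_cast
      ring
    rw [s, Complex.exp_mul_I, ← Complex.ofReal_cos, ← Complex.ofReal_sin]
    simp only [Complex.sub_im, Complex.add_im, Complex.mul_im, Complex.ofReal_re, Complex.ofReal_im, Complex.I_re,
      Complex.I_im]
    ring
  rw [e] at h2
  have e2 : Real.sin y / y - (1 - y ^ 2 / 6 + y ^ 4 / 120 - y ^ 6 / 5040 + y ^ 8 / 362880)
      = (Real.sin y - (y - y ^ 3 / 6 + y ^ 5 / 120 - y ^ 7 / 5040 + y ^ 9 / 362880)) / y := by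
    field_simp
  rw [e2, abs_div, abs_of_pos h0, div_le_iff₀ h0]
  refine h2.trans (le_of_eq ?_)
  have e3 : (Nat.factorial 11 : ℝ) = 39916800 := by norm_num [Nat.factorial]
  rw [e3]
  ring

/-- the rational approximation of `π ^ 2` -/
def pi2 : ℚ := 98696044010893586 / 10000000000000000

theorem pi2_err : |Real.pi ^ 2 - ((pi2 : ℚ) : ℝ)| ≤ 1 / 10 ^ 15 := by
  have h1 := Real.pi_gt_d20
  have h2 := Real.pi_lt_d20
  have h3 : (3.14159265358979323846 : ℝ) ^ 2 < Real.pi ^ 2 := pow_lt_pow_left₀ h1 (by norm_num) two_ne_zero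
  have h4 : Real.pi ^ 2 < (3.14159265358979323847 : ℝ) ^ 2 :=
    pow_lt_pow_left₀ h2 Real.pi_pos.le two_ne_zero
  rw [pi2, abs_le]
  push_cast
  norm_num at h3 h4 ⊢
  constructor <;> linarith

/-- `y ^ 2` with the rational `π ^ 2` -/
def Yq (N n : ℕ) : ℚ := (n : ℚ) ^ 2 * pi2 / (4 * (N : ℚ) ^ 2)

/-- the polynomial -/
def gP (Y : ℚ) : ℚ := (1 + Y / 4) * (1 - Y / 6 + Y ^ 2 / 120 - Y ^ 3 / 5040 + Y ^ 4 / 362880)

/-- its error -/
def gD (Y : ℚ) : ℚ := (Y + 1 / 10 ^ 15) ^ 5 / 18000000 + 1 / 10 ^ 15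

theorem G_err {N n : ℕ} (hN : 0 < N) (hn : 0 < n) {y : ℝ} (hy : y = n * Real.pi / (2 * N)) (hy2 : y ≤ 3 / 5) :
    |lam y * (Real.sin y / y) - ((gP (Yq N n) : ℚ) : ℝ)| ≤ ((gD (Yq N n) : ℚ) : ℝ) := by
  have hN' : (0 : ℝ) < N := by exact_mod_cast hN
  have hn' : (0 : ℝ) < n := by exact_mod_cast hn
  have hp := Real.pi_pos
  have hy0 : 0 < y := by
    rw [hy]
    positivity
  have hs := sinc_err hy0 (by linarith)
  obtain ⟨Z, hZ⟩ : ∃ Z : ℝ, Z = y ^ 2 := ⟨_, rfl⟩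
  obtain ⟨Y, hY⟩ : ∃ Y : ℝ, Y = ((Yq N n : ℚ) : ℝ) := ⟨_, rfl⟩
  have hZ0 : 0 ≤ Z := by
    rw [hZ]
    positivity
  have hZ1 : Z ≤ 9 / 25 := by
    rw [hZ]
    nlinarith
  have h3 := Real.pi_gt_three
  -- `n / (2 N) ≤ 1 / 5`
  obtain ⟨t, ht⟩ : ∃ t : ℝ, t = (n : ℝ) ^ 2 / (4 * (N : ℝ) ^ 2) := ⟨_, rfl⟩
  have hZt : Z = t * Real.pi ^ 2 := by
    rw [hZ, hy, ht]
    field_simp
    ring
  have hYt : Y = t * ((pi2 : ℚ) : ℝ) := by
    rw [hY, ht]
    unfold Yq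
    push_cast
    ring
  have ht0 : 0 ≤ t := by
    rw [ht]
    positivity
  have ht1 : t ≤ 1 := by
    have : t * 9 ≤ Z := by
      rw [hZt]
      exact mul_le_mul_of_nonneg_left (by nlinarith) ht0
    linarith
  have hZY : |Z - Y| ≤ 1 / 10 ^ 15 := by
    rw [hZt, hYt, ← mul_sub, abs_mul, abs_of_nonneg ht0]
    have := pi2_err
    calc t * |Real.pi ^ 2 - ((pi2 : ℚ) : ℝ)| ≤ 1 * (1 / 10 ^ 15) := mul_le_mul ht1 this (abs_nonneg _) zero_le_one
      _ = 1 / 10 ^ 15 := one_mul _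
  have hY0 : 0 ≤ Y := by
    rw [hYt]
    have : (0 : ℝ) ≤ ((pi2 : ℚ) : ℝ) := by
      unfold pi2
      positivity
    positivity
  obtain ⟨hYa, hYb⟩ := abs_le.1 hZY
  have hY1 : Y ≤ 37 / 100 := by
    have : (1 : ℝ) / 10 ^ 15 ≤ 1 / 100 := by norm_num
    linarith
  -- the polynomial as a function
  set q : ℝ → ℝ := fun Z => (1 + Z / 4) * (1 - Z / 6 + Z ^ 2 / 120 - Z ^ 3 / 5040 + Z ^ 4 / 362880) with hq
  have hqY : ((gP (Yq N n) : ℚ) : ℝ) = q Y := by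
    rw [hq, hY]
    unfold gP
    push_cast
    ring
  have hqZ : lam y * (1 - y ^ 2 / 6 + y ^ 4 / 120 - y ^ 6 / 5040 + y ^ 8 / 362880) = q Z := by
    rw [hq, hZ]
    unfold AVL.lam
    ring
  have hlip : |q Z - q Y| ≤ |Z - Y| := by
    have e : q Z - q Y = (Z - Y) * (1 / 4 - 1 / 6 + (1 / 120 - 1 / 24) * (Z + Y)
        + (1 / 480 - 1 / 5040) * (Z ^ 2 + Z * Y + Y ^ 2)
        + (1 / 362880 - 1 / 20160) * (Z ^ 3 + Z ^ 2 * Y + Z * Y ^ 2 + Y ^ 3)
        + 1 / 1451520 * (Z ^ 4 + Z ^ 3 * Y + Z ^ 2 * Y ^ 2 + Z * Y ^ 3 + Y ^ 4)) := by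
      rw [hq]
      ring
    rw [e, abs_mul]
    refine mul_le_of_le_one_right (abs_nonneg _) ?_
    have z1 : Z ≤ 1 := by linarith
    have y1 : Y ≤ 1 := by linarith
    have p : ∀ a b : ℕ, 0 ≤ Z ^ a * Y ^ b ∧ Z ^ a * Y ^ b ≤ 1 := fun a b =>
      ⟨by positivity, mul_le_one₀ (pow_le_one₀ hZ0 z1) (by positivity) (pow_le_one₀ hY0 y1)⟩
    have a1 := p 1 0
    have a2 := p 0 1
    have b1 := p 2 0
    have b2 := p 1 1
    have b3 := p 0 2
    have c1 := p 3 0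
    have c2 := p 2 1
    have c3 := p 1 2
    have c4 := p 0 3
    have d1 := p 4 0
    have d2 := p 3 1
    have d3 := p 2 2
    have d4 := p 1 3
    have d5 := p 0 4
    simp only [pow_one, pow_zero, mul_one, one_mul] at a1 a2 b1 b2 b3 c1 c2 c3 c4 d1 d2 d3 d4 d5
    rw [abs_le]
    constructor <;> linarith
  have hl : 0 ≤ lam y := by
    unfold AVL.lam
    positivity
  have hl1 : lam y ≤ 109 / 100 := by
    unfold AVL.lam
    rw [← hZ]
    linarith
  have h5 : y ^ 10 ≤ (Y + 1 / 10 ^ 15) ^ 5 := by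
    have : y ^ 10 = Z ^ 5 := by
      rw [hZ]
      ring
    rw [this]
    exact pow_le_pow_left₀ hZ0 (by linarith) 5
  have e : lam y * (Real.sin y / y) - q Y
      = lam y * (Real.sin y / y - (1 - y ^ 2 / 6 + y ^ 4 / 120 - y ^ 6 / 5040 + y ^ 8 / 362880)) + (q Z - q Y) := by
    rw [← hqZ]
    ring
  rw [hqY, e]
  refine (abs_add_le _ _).trans ?_
  rw [abs_mul, abs_of_nonneg hl]
  have k1 := mul_le_mul hl1 hs (abs_nonneg _) (by norm_num : (0 : ℝ) ≤ 109 / 100)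
  have hD : ((gD (Yq N n) : ℚ) : ℝ) = (Y + 1 / 10 ^ 15) ^ 5 / 18000000 + 1 / 10 ^ 15 := by
    rw [hY]
    unfold gD
    push_cast
    ring
  rw [hD]
  have h50 : 0 ≤ (Y + 1 / 10 ^ 15) ^ 5 := by positivity
  have k2 := hlip.trans hZY
  nlinarith

/-! ### the check of one cell -/

/-- rational approximation of `exp (i π q)` and its error -/
def ex (q : ℚ) : Gq × ℚ :=
  let k : ℤ := (2 * q + 1 / 2).floor
  let q' : ℚ := q - k / 2
  let x : ℚ := pq * q'
  (Gq.rot k (E13 x), |q'| / 10 ^ 11 + |x| ^ 14 / 43589145600)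

theorem ex_err (q : ℚ) : ‖exp (((Real.pi * (q : ℝ) : ℝ) : ℂ) * I) - (ex q).1.toC‖ ≤ (((ex q).2 : ℚ) : ℝ) := by
  set k : ℤ := (2 * q + 1 / 2).floor with hk
  set q' : ℚ := q - k / 2 with hq'
  set x : ℚ := pq * q' with hx
  have e1 : (ex q).1 = Gq.rot k (E13 x) := rfl
  have e2 : (ex q).2 = |q'| / 10 ^ 11 + |x| ^ 14 / 43589145600 := rfl
  have hfl1 : (k : ℚ) ≤ 2 * q + 1 / 2 := Int.floor_le _
  have hfl2 : 2 * q + 1 / 2 < k + 1 := Int.lt_floor_add_one _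
  have hq1 : |q'| ≤ 1 / 4 := by
    rw [hq', abs_le]
    constructor <;> linarith
  have hpq : |pq| ≤ 4 := by
    unfold pq
    rw [abs_of_pos (by norm_num)]
    norm_num
  have hx7 : |x| ≤ 7 := by
    rw [hx, abs_mul]
    have := mul_le_mul hpq hq1 (abs_nonneg _) (by norm_num : (0 : ℚ) ≤ 4)
    linarith
  have harg : ((Real.pi * (q : ℝ) : ℝ) : ℂ) * I
      = (k : ℂ) * (Real.pi / 2) * I + ((Real.pi * (q' : ℝ) : ℝ) : ℂ) * I := by
    rw [hq']
    push_cast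
    ring
  set Ek : ℂ := exp ((k : ℂ) * (Real.pi / 2) * I) with hEk
  have nEk : ‖Ek‖ = 1 := by
    have e : (k : ℂ) * (Real.pi / 2) * I = (((k : ℝ) * (Real.pi / 2) : ℝ) : ℂ) * I := by
      push_cast
      ring
    rw [hEk, e, Complex.norm_exp_ofReal_mul_I]
  have s1 : ‖exp (((Real.pi * (q' : ℝ) : ℝ) : ℂ) * I) - exp ((x : ℂ) * I)‖ ≤ |(q' : ℝ)| / 10 ^ 11 := by
    have e : exp (((Real.pi * (q' : ℝ) : ℝ) : ℂ) * I) - exp ((x : ℂ) * I) =
        exp ((((x : ℚ) : ℝ) : ℂ) * I) * (exp (I * (((Real.pi - (pq : ℝ)) * q' : ℝ) : ℂ)) - 1) := by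
      rw [mul_sub, mul_one, ← Complex.exp_add, hx]
      congr 2
      push_cast
      ring
    rw [e, norm_mul, Complex.norm_exp_ofReal_mul_I, one_mul]
    refine Real.norm_exp_I_mul_ofReal_sub_one_le.trans ?_
    rw [Real.norm_eq_abs, abs_mul]
    have h1 := pq_err
    calc |Real.pi - (pq : ℝ)| * |(q' : ℝ)| ≤ ((1 / 10 ^ 11 : ℚ) : ℝ) * |(q' : ℝ)| :=
          mul_le_mul_of_nonneg_right h1 (abs_nonneg _)
      _ = |(q' : ℝ)| / 10 ^ 11 := by
          push_cast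
          ring
  have s2 := E13_err hx7
  rw [e1, e2, Gq.toC_rot, harg, Complex.exp_add, ← hEk, ← mul_sub, norm_mul, nEk, one_mul]
  have e3 : exp (((Real.pi * (q' : ℝ) : ℝ) : ℂ) * I) - (E13 x).toC
      = (exp (((Real.pi * (q' : ℝ) : ℝ) : ℂ) * I) - exp ((x : ℂ) * I)) + (exp ((x : ℂ) * I) - (E13 x).toC) := by
    ring
  rw [e3]
  refine (norm_add_le _ _).trans ?_
  refine (add_le_add s1 s2).trans (le_of_eq ?_)
  push_cast
  ring

/-- the check of the cell `i`: `g`, `δ` the factor and its error -/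
def chk1 (N n : ℕ) (g δ eta : ℚ) (i : ℕ) (a : Gq) : Bool :=
  let E := ex (n * ((2 * (i : ℚ) + 1) - N) / (2 * N))
  decide ((δ + |g| * E.2) / N + Gq.nu (Gq.sub (Gq.sm (g / N) E.1) a) ≤ eta)

/-- **the check of a harmonic** -/
def chkA (N n : ℕ) (a : ℕ → Gq) (eta : ℚ) : Bool :=
  decide (0 < N) && decide (0 < n) && decide (5 * 3927 * n ≤ 6 * 1250 * N) &&
    (List.range N).all fun i => chk1 N n (gP (Yq N n)) (gD (Yq N n)) eta i (a i)

/-- the condition `y ≤ 3/5` -/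
theorem y_le {N n : ℕ} (hN : 0 < N) (h : 5 * 3927 * n ≤ 6 * 1250 * N) {y : ℝ} (hy : y = n * Real.pi / (2 * N)) :
    y ≤ 3 / 5 := by
  have hN' : (0 : ℝ) < N := by exact_mod_cast hN
  have h' : (5 * 3927 * n : ℝ) ≤ 6 * 1250 * N := by exact_mod_cast h
  have hp := Real.pi_lt_d4
  have hp0 := Real.pi_pos
  have hn0 : (0 : ℝ) ≤ n := Nat.cast_nonneg n
  rw [hy, div_le_iff₀ (by positivity)]
  nlinarith

/-- **soundness** -/
theorem a_ok {N n : ℕ} {a : ℕ → Gq} {eta : ℚ} (h : chkA N n a eta = true) {i : ℕ} (hi : i < N) {y : ℝ}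
    (hy : y = n * Real.pi / (2 * N)) :
    ‖((lam y * (1 / N) : ℝ) : ℂ) * pm n (ru N) i - (a i).toC‖ ≤ (eta : ℝ) := by
  simp only [chkA, Bool.and_eq_true, decide_eq_true_eq, List.all_eq_true, List.mem_range] at h
  obtain ⟨⟨⟨hN, hn⟩, hc⟩, hall⟩ := h
  have hy2 := y_le hN hc hy
  have h1 := hall i hi
  simp only [chk1, decide_eq_true_eq] at h1
  set g : ℚ := gP (Yq N n) with hg
  set δ : ℚ := gD (Yq N n) with hδ
  set q : ℚ := n * ((2 * (i : ℚ) + 1) - N) / (2 * N) with hq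
  have hN' : (0 : ℝ) < N := by exact_mod_cast hN
  have k1 := G_err hN hn hy hy2
  rw [← hg, ← hδ] at k1
  have k2 := ex_err q
  have k3 := Gq.norm_le_nu (Gq.sub (Gq.sm (g / N) (ex q).1) (a i))
  rw [Gq.toC_sub, Gq.toC_sm] at k3
  have h2 : ((((δ + |g| * (ex q).2) / N + Gq.nu (Gq.sub (Gq.sm (g / N) (ex q).1) (a i))) : ℚ) : ℝ) ≤ (eta : ℝ) := by
    exact_mod_cast h1
  push_cast at h2
  refine le_trans ?_ h2
  rw [pm_eq hN hn hy i]
  have eq1 : (Real.pi * (n * ((2 * i + 1 : ℝ) - N) / (2 * N)) : ℝ) = Real.pi * ((q : ℚ) : ℝ) := by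
    rw [hq]
    push_cast
    ring
  rw [eq1]
  set Ex : ℂ := exp (((Real.pi * ((q : ℚ) : ℝ) : ℝ) : ℂ) * I) with hEx
  have nEx : ‖Ex‖ = 1 := by rw [hEx, Complex.norm_exp_ofReal_mul_I]
  set S : ℝ := Real.sin y / y with hS
  have hNc : (N : ℂ) ≠ 0 := by exact_mod_cast hN'.ne'
  have e : ((lam y * (1 / N) : ℝ) : ℂ) * (Ex * (S : ℂ)) - (a i).toC
      = ((1 / N : ℝ) : ℂ) * (((lam y * S - (g : ℝ) : ℝ) : ℂ) * Ex + ((g : ℝ) : ℂ) * (Ex - (ex q).1.toC))
        + (((g / N : ℚ) : ℂ) * (ex q).1.toC - (a i).toC) := by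
    push_cast
    ring
  rw [e]
  refine (norm_add_le _ _).trans (add_le_add ?_ k3)
  rw [norm_mul, Complex.norm_real, Real.norm_eq_abs, abs_of_pos (by positivity), one_div, inv_mul_eq_div]
  rw [div_le_div_iff_of_pos_right hN']
  refine (norm_add_le _ _).trans (add_le_add ?_ ?_)
  · rw [norm_mul, nEx, mul_one, Complex.norm_real, Real.norm_eq_abs]
    exact k1
  · rw [norm_mul, Complex.norm_real, Real.norm_eq_abs]
    exact mul_le_mul_of_nonneg_left k2 (abs_nonneg _)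

/-- the harmonic `0` -/
theorem a_ok0 {N : ℕ} {i : ℕ} : pm 0 (ru N) i = 1 := by
  unfold pm SQD.ph
  simp

/-! ### the constants -/

/-- the check of an error constant: `e` bounds the error of AVL with total variation `T` and bound `M` -/
def chkE (N n : ℕ) (T M eta e : ℚ) : Bool :=
  let Y : ℚ := n * (3927 / 1250) / (2 * N)
  decide (0 < N) && decide (0 ≤ T) && decide (Y / (8 * N) * (1 + 2 * Y ^ 2) * T + N * eta * M ≤ e)

theorem err_ok {N n : ℕ} {T M eta e : ℚ} (h : chkE N n T M eta e = true) {y : ℝ} (hy : y = n * Real.pi / (2 * N)) :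
    y / (8 * N) * (1 + 2 * y ^ 2) * (T : ℝ) + N * (eta : ℝ) * M ≤ (e : ℝ) := by
  simp only [chkE, Bool.and_eq_true, decide_eq_true_eq] at h
  obtain ⟨⟨hN, hT⟩, h1⟩ := h
  have hN' : (0 : ℝ) < N := by exact_mod_cast hN
  have hT' : (0 : ℝ) ≤ T := by exact_mod_cast hT
  set Y : ℚ := n * (3927 / 1250) / (2 * N) with hY
  have h2 : (((Y / (8 * N) * (1 + 2 * Y ^ 2) * T + N * eta * M) : ℚ) : ℝ) ≤ (e : ℝ) := by exact_mod_cast h1
  push_cast at h2
  refine le_trans ?_ h2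
  have hp := Real.pi_lt_d4
  have hp0 := Real.pi_pos
  have hn0 : (0 : ℝ) ≤ n := Nat.cast_nonneg n
  have hy0 : 0 ≤ y := by
    rw [hy]
    positivity
  have hyY : y ≤ (Y : ℝ) := by
    rw [hy, hY]
    push_cast
    refine div_le_div_of_nonneg_right ?_ (by positivity)
    exact mul_le_mul_of_nonneg_left (by linarith) hn0
  have k1 : y / (8 * N) * (1 + 2 * y ^ 2) ≤ (Y : ℝ) / (8 * N) * (1 + 2 * (Y : ℝ) ^ 2) := by
    refine mul_le_mul (div_le_div_of_nonneg_right hyY (by positivity)) ?_ (by positivity) ?_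
    · have := pow_le_pow_left₀ hy0 hyY 2
      linarith
    · exact div_nonneg (hy0.trans hyY) (by positivity)
  have := mul_le_mul_of_nonneg_right k1 hT'
  linarith

/-- **a moment against the rational form** -/
theorem mom_ok {N n : ℕ} {a : ℕ → Gq} {eta T M e : ℚ} (hA : chkA N n a eta = true)
    (hE : chkE N n T M eta e = true) {y : ℝ} (hy : y = n * Real.pi / (2 * N)) {U : ℂ} {z : ℕ → ℝ}
    (hz : ∀ i < N, |z i| ≤ (M : ℝ))
    (hU : ‖U - ((lam y * (1 / N) : ℝ) : ℂ) * ∑ i ∈ Finset.range N, pm n (ru N) i * (z i : ℂ)‖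
      ≤ y / (8 * N) * (1 + 2 * y ^ 2) * (T : ℝ)) :
    ‖U - ∑ i ∈ Finset.range N, (a i).toC * (z i : ℂ)‖ ≤ (e : ℝ) := by
  have h1 := err_ok hE hy
  have e1 : U - ∑ i ∈ Finset.range N, (a i).toC * (z i : ℂ)
      = (U - ((lam y * (1 / N) : ℝ) : ℂ) * ∑ i ∈ Finset.range N, pm n (ru N) i * (z i : ℂ))
        + ∑ i ∈ Finset.range N, (((lam y * (1 / N) : ℝ) : ℂ) * pm n (ru N) i - (a i).toC) * (z i : ℂ) := by
    simp only [sub_mul]
    rw [Finset.sum_sub_distrib, Finset.mul_sum]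
    simp only [mul_assoc]
    ring
  rw [e1]
  refine (norm_add_le _ _).trans (le_trans (add_le_add hU ?_) h1)
  refine (norm_sum_le _ _).trans ?_
  have key : ∀ i ∈ Finset.range N, ‖(((lam y * (1 / N) : ℝ) : ℂ) * pm n (ru N) i - (a i).toC) * (z i : ℂ)‖
      ≤ (eta : ℝ) * M := by
    intro i hi
    have hi' := Finset.mem_range.1 hi
    have k := a_ok hA hi' hy
    rw [norm_mul, Complex.norm_real, Real.norm_eq_abs]
    exact mul_le_mul k (hz i hi') (abs_nonneg _) ((norm_nonneg _).trans k)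
  refine (Finset.sum_le_sum key).trans (le_of_eq ?_)
  rw [Finset.sum_const, Finset.card_range, nsmul_eq_mul]
  ring

/-- data from a list of integers over `S` -/
def aL (S : ℕ) (l : List (ℤ × ℤ)) (i : ℕ) : Gq :=
  ⟨((l.getD i (0, 0)).1 : ℚ) / S, ((l.getD i (0, 0)).2 : ℚ) / S⟩

end Pool.Agent.FPX.NCE
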