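import Pool.Agent.FPX.AVT
import Pool.Agent.FPX.NCE

/-
TGA (helper39): trigonometric data of the uniform grid with `N` cells, harmonics 1 .. R, one Boolean; used by
all classes.
-/

set_option autoImplicit false

noncomputable section

namespace Pool.Agent.FPX.NCD

open Pool.Agent.FPX.AVS
open Pool.Agent.FPX.NOT (Gq)

/-- trigonometric data: `a n i = t[n][i] / S` -/
structure TG where
  N : ℕ
  S : ℕ
  t : List (List (ℤ × ℤ))

/-- the coefficients -/
def TG.a (G : TG) (n i : ℕ) : Gq := if n = 0 then ⟨1 / G.N, 0⟩ else NCE.aL G.S (G.t.getD n []) i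

/-- the check of the trigonometric data (once per `N`) -/
def TG.chk (G : TG) (η : ℚ) : Bool := [1, 2, 3, 4, 5, 6, 7, 8, 9].all fun n => NCE.chkA G.N n (G.a n) η

theorem TG.trg {G : TG} {η : ℚ} (h : G.chk η = true) : Trg G.N G.a fun _ => η where
  zero := fun i _ => by simp [TG.a]
  pos := fun n h1 h9 i hi => by
    have hn : NCE.chkA G.N n (G.a n) η = true := by
      unfold TG.chk at h
      rw [List.all_eq_true] at h
      exact h n (by simp; omega)
    exact NCE.a_ok hn hi rfl

/-- the check of the harmonics `1 .. R` -/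
def TG.chkR (G : TG) (R : ℕ) (η : ℚ) : Bool := (List.range R).all fun k => NCE.chkA G.N (k + 1) (G.a (k + 1)) η

theorem TG.chkR_mono {G : TG} {R R' : ℕ} {η : ℚ} (h : G.chkR R' η = true) (hR : R ≤ R') : G.chkR R η = true := by
  unfold TG.chkR at h ⊢
  rw [List.all_eq_true] at h ⊢
  exact fun k hk => h k (List.mem_range.2 ((List.mem_range.1 hk).trans_le hR))

theorem TG.trgR {G : TG} {R : ℕ} {η : ℚ} (h : G.chkR R η = true) : AVT.Trg R G.N G.a fun _ => η where
  zero := fun i _ => by simp [TG.a]
  pos := fun n h1 h9 i hi => by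
    unfold TG.chkR at h
    rw [List.all_eq_true] at h
    have hn := h (n - 1) (List.mem_range.2 (by omega))
    rw [Nat.sub_add_cancel h1] at hn
    exact NCE.a_ok hn hi rfl

end Pool.Agent.FPX.NCD
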