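import Pool.Agent.FPX.NCG
import Pool.Agent.FPX.NCN
import Pool.Agent.FPX.TGA
import Pool.Agent.FPX.CAT
import Pool.Agent.FPX.CAR
import Pool.Agent.FPX.KPL
import Pool.Agent.FPX.PLQ

/-
NCD (helper39): the integer record of a certificate with three components on the cell averages, its
statement record for the engine, and the condition of the certificate bridge (`RW`) from it. The tables have size
`R = 2 h + 1`: linear moments to the harmonic `R`, quadratic moments to the harmonic `2 h`.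
-/

set_option autoImplicit false

open Set Filter
open scoped ComplexConjugate

noncomputable section

namespace Pool.Agent.FPX.NCD

open Pool.Agent.FPX.CAV Pool.Agent.FPX.CAT
open Pool.Agent.FPX.AVS (Geo geo_of wm)
open Pool.Agent.FPX.AVT (Trg Err Avg avg_of errB err_of)
open Pool.Agent.FPX.NCB (gl gr el wm_re wm_im)
open Pool.Agent.FPX.NCG (ex_tau quad_ge)
open Pool.Agent.FPX.NOT (Gq)
open Pool.Agent.FPX.NCA (yv Zv)
open Pool.Agent.FPX.PLK (ST P6 A3 iz w3 qv lv lz addZ qv_cons qv_nil lv_cons lv_nil lz_cons lz_nil ev3)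

/-- `2^20` -/
def V20 : ℤ := 1048576

/-- list of the values of a function -/
def ls {α : Type} (n : ℕ) (f : ℕ → α) : List α := (List.range n).map f

theorem getD_ls {α : Type} (n : ℕ) (f : ℕ → α) (d : α) {i : ℕ} (h : i < n) : (ls n f).getD i d = f i := by
  unfold ls
  simp [List.getD_eq_getElem?_getD, h]

theorem sum_ite {N : ℕ} (hN : 0 < N) (c : ℝ) : ∑ i ∈ Finset.range N, (if i = 0 then c else 0) = c := by
  rw [Finset.sum_ite_eq' (Finset.range N) 0 fun _ => c]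
  simp [hN]

theorem nq_cast (l : List ℕ) (i : ℕ) : ((nq l i : ℚ) : ℝ) = ((((l.getD i 0 : ℕ) : ℤ) : ℝ)) / 1048576 := by
  unfold nq
  push_cast
  rfl

theorem sum_map_range (f : ℕ → ℝ) : ∀ n, ((List.range n).map f).sum = ∑ k ∈ Finset.range n, f k
  | 0 => by simp
  | n + 1 => by
    rw [List.range_succ, List.map_append, List.sum_append, sum_map_range f n, Finset.sum_range_succ]
    simp

/-! ### sums of lists -/

/-- sum of lists of integers -/
def sumL (f : ℕ → List ℤ) : ℕ → List ℤ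
  | 0 => []
  | n + 1 => addZ (f n) (sumL f n)

theorem iz_sumL (w : List ℝ) (f : ℕ → List ℤ) : ∀ n, iz w (sumL f n) = ∑ k ∈ Finset.range n, iz w (f k)
  | 0 => by simp [sumL, iz_nil]
  | n + 1 => by
    rw [sumL, iz_addZ, iz_sumL w f n, Finset.sum_range_succ]
    ring

/-! ### the records -/

/-- the integer record: `e n = en[n] / S`; `C`, `Q` the tables of the linear and quadratic moments, `Kp`, `kap` the
majorant of the weights of `x²`, `Ks` the constant, `E` further linear forms of the averages for the sums of squares -/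
structure ND where
  Z : CZ
  G : TG
  h : ℕ
  en : List ℕ
  C : List (List (List ℤ))
  Q : List (List ℤ)
  Kp : List ℤ
  kap : List ℕ
  Ks : List ℤ
  E : List (List ℤ)

namespace ND

variable (D : ND)

def N : ℕ := D.Z.G.N

/-- the size of the tables -/
def R : ℕ := 2 * D.h + 1

def zl (i : ℕ) : ℤ := ((D.Z.lb.getD i 0 : ℕ) : ℤ)

def zh (i : ℕ) : ℤ := ((D.Z.hb.getD i 0 : ℕ) : ℤ)

def zv (i : ℕ) : ℤ := ((D.Z.vc.getD i 0 : ℕ) : ℤ)

def zN : ℤ := (D.Z.G.N : ℤ)

def zS : ℤ := (D.G.S : ℤ)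

def zt (n i : ℕ) : ℤ × ℤ := (D.G.t.getD n []).getD i (0, 0)

def ze (n : ℕ) : ℤ := ((D.en.getD n 0 : ℕ) : ℤ)

def e (n : ℕ) : ℚ := ((D.en.getD n 0 : ℕ) : ℚ) / D.G.S

/-- numerators of the coefficients of the linear moments -/
def gli (k i : ℕ) : ℤ := if k % 2 = 1 then (D.zt (k + 2) i).1 else (D.zt (k + 1) i).2

/-- numerators (over `N S`) of the coefficients of the quadratic moments -/
def gri (k i : ℕ) : ℤ :=
  if k = 0 then D.zS else if k % 2 = 1 then D.zN * (D.zt (k + 1) i).1 else D.zN * (D.zt k i).2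

/-- numerators of the errors of the linear moments -/
def eli (k : ℕ) : ℤ := if k % 2 = 1 then D.ze (k + 2) else D.ze (k + 1)

def zk (i : ℕ) : ℤ := ((D.kap.getD i 0 : ℕ) : ℤ)

/-- the weight of `x²` in the cell `i` -/
def Kx (i : ℕ) : List ℤ := sumL (fun k => (D.Q.getD k []).map fun x => D.gri k i * x) D.R

/-- the coefficient of the variance in the cell `i` -/
def Kc (i : ℕ) : List ℤ := addZ (D.Kx i) (D.Kp.map fun x => -D.zk i * x)

/-- the coefficient of a variance product of the cell `i`, times `c` -/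
def wv (c : ℤ) (i : ℕ) : List ℤ := (D.Kc i).map fun x => c * V20 * D.zS * x

def z9 : List ℤ := [0, 0, 0, 0, 0, 0, 0, 0, 0]

def hh (i : ℕ) : ℤ := D.zl i + D.zh i

/-- the table of the cell `i` -/
def tc (i : ℕ) : List (List (List ℤ)) :=
  match D.Z.ty.getD i 0 with
  | 0 => []
  | 1 => tE z9 (D.wv (4 * (D.hh (i - 1) * D.hh i)) i) (i - 1)
  | 2 => tP z9 (D.wv (4 * (D.hh (i - 1) * D.hh i)) i) (D.wv (-(4 * (D.hh (i - 1) * D.hh i))) i) (i - 1)
  | _ => tW z9 (D.wv (4 * (D.hh (D.N - 1) * D.hh 0)) i) (D.wv (-(4 * (D.hh (D.N - 1) * D.hh 0))) i) (D.N - 1)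

/-- **the statement record** -/
def st : ST where
  N := D.N
  M := 2 * D.h
  κ := V20
  Ls := ls D.N D.zl
  Hs := ls D.N D.zh
  F := (D.Ks.map fun x => -(D.zN * D.zS ^ 2 * V20) * x, ls D.N fun i => ⟨if i = 0 then 1 else 0, 0, 0, 0, 0, 0⟩)
    :: (D.Kp.map fun x => -D.zS * x, ls D.N fun i => ⟨D.zk i * D.zv i, 0, 0, 0, 0, 0⟩)
    :: (List.range D.R).map fun k => ((D.Q.getD k []).map fun x => D.zS * x,
        ls D.N fun i => ⟨D.gri k i * D.zv i, 0, 0, D.gri k i * V20, 0, 0⟩)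
  L := ((ls D.N fun _ => A3.zero, [D.zS]) :: (List.range (2 * D.h)).map fun k =>
    (ls D.N fun i => ⟨0, D.gli (k + 1) i, 0⟩, -D.eli (k + 1) :: (List.replicate k 0 ++ [2 * D.eli (k + 1)])))
    ++ D.E.map fun l => (l.map fun a => (⟨0, a, 0⟩ : A3), [])
  C := D.C.map fun r => r.map fun c => c.map fun x => D.zN * V20 * x
  T := sumT OZ D.tc D.N
  P := [(ls D.N fun i => ⟨0, (D.zt 1 i).1, 0⟩, [D.ze 1]), (ls D.N fun i => ⟨0, -(D.zt 1 i).1, 0⟩, [D.ze 1]),
    (ls D.N fun i => ⟨0, (D.zt 1 i).2, 0⟩, [D.ze 1]), (ls D.N fun i => ⟨0, -(D.zt 1 i).2, 0⟩, [D.ze 1])]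

end ND

/-! ### evaluation -/

theorem iz_z9 (w : List ℝ) : iz w ND.z9 = 0 := by
  have : ∀ (n : ℕ) (w : List ℝ), iz w (List.replicate n 0) = 0 := by
    intro n
    induction n with
    | zero => intro w; exact iz_nil w
    | succ n ih =>
      intro w
      cases w with
      | nil => rfl
      | cons v w => simp [List.replicate_succ, iz, ih]
  exact this 9 w

section ev

variable {D : ND} {x : ℕ → ℝ}

theorem gl_eq (k i : ℕ) : (gl D.G.a k i : ℝ) = (D.gli k i : ℝ) / D.G.S := by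
  unfold gl ND.gli ND.zt TG.a NCE.aL
  by_cases h : k % 2 = 1
  · simp only [h, if_true, Nat.add_eq_zero_iff, OfNat.ofNat_ne_zero, and_false, if_false]
    push_cast
    rfl
  · simp only [h, if_false, Nat.add_eq_zero_iff, one_ne_zero, and_false]
    push_cast
    rfl

theorem gr_eq (hN : D.G.N = D.Z.G.N) (hN0 : 0 < D.Z.G.N) (hS : 0 < D.G.S) (k i : ℕ) :
    (gr D.G.a k i : ℝ) = (D.gri k i : ℝ) / (D.Z.G.N * D.G.S) := by
  have hN0' : (D.Z.G.N : ℝ) ≠ 0 := by exact_mod_cast hN0.ne'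
  have hS' : (D.G.S : ℝ) ≠ 0 := by exact_mod_cast hS.ne'
  unfold gr ND.gri ND.zt TG.a NCE.aL ND.zN ND.zS
  by_cases h0 : k = 0
  · simp only [h0, if_true]
    rw [hN]
    push_cast
    field_simp
  · simp only [h0, if_false]
    by_cases h : k % 2 = 1
    · simp only [h, if_true, Nat.add_eq_zero_iff, one_ne_zero, and_false, if_false]
      push_cast
      field_simp
    · simp only [h, if_false]
      push_cast
      field_simp

theorem el_eq (k : ℕ) : (el D.e k : ℝ) = (D.eli k : ℝ) / D.G.S := by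
  unfold el ND.eli ND.e ND.ze
  by_cases h : k % 2 = 1
  · simp only [h, if_true]
    push_cast
    rfl
  · simp only [h, if_false]
    push_cast
    rfl

theorem iz_Kx (w : List ℝ) (i : ℕ) :
    iz w (D.Kx i) = ∑ k ∈ Finset.range D.R, iz w (D.Q.getD k []) * D.gri k i := by
  unfold ND.Kx
  rw [iz_sumL]
  exact Finset.sum_congr rfl fun k _ => by rw [iz_map, mul_comm]

theorem iz_Kc (w : List ℝ) (i : ℕ) : iz w (D.Kc i) = iz w (D.Kx i) - D.zk i * iz w D.Kp := by
  unfold ND.Kc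
  rw [iz_addZ, iz_map]
  push_cast
  ring

theorem iz_wv (w : List ℝ) (c : ℤ) (i : ℕ) : iz w (D.wv c i) = c * V20 * D.zS * iz w (D.Kc i) := by
  unfold ND.wv
  rw [iz_map]
  push_cast
  ring

/-- the part of the base forms -/
theorem valF (hN : 0 < D.N) (w : List ℝ) : (D.st.F.map fun q => iz w q.1 * ∑ i ∈ Finset.range D.N,
      (q.2.getD i PLK.P6.zero).ev (x i) (x (i + 1))).sum
    = 1048576 * (-(D.N * (D.G.S : ℝ) ^ 2 * iz w D.Ks) + D.G.S * ∑ i ∈ Finset.range D.N,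
      (iz w (D.Kx i) * (x i ^ 2 + (D.zv i : ℝ) / 1048576) - D.zk i * iz w D.Kp * ((D.zv i : ℝ) / 1048576))) := by
  have k0 : ∑ i ∈ Finset.range D.N, ((ls D.N fun i => (⟨if i = 0 then 1 else 0, 0, 0, 0, 0, 0⟩ : P6 ℤ)).getD i
      PLK.P6.zero).ev (x i) (x (i + 1)) = 1 := by
    rw [← sum_ite hN 1]
    refine Finset.sum_congr rfl fun i hi => ?_
    rw [getD_ls _ _ _ (Finset.mem_range.1 hi)]
    unfold PLK.P6.ev
    simp only
    split_ifs <;> push_cast <;> ring
  have k1 : ∑ i ∈ Finset.range D.N, ((ls D.N fun i => (⟨D.zk i * D.zv i, 0, 0, 0, 0, 0⟩ : P6 ℤ)).getD i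
      PLK.P6.zero).ev (x i) (x (i + 1)) = ∑ i ∈ Finset.range D.N, (D.zk i : ℝ) * D.zv i := by
    refine Finset.sum_congr rfl fun i hi => ?_
    rw [getD_ls _ _ _ (Finset.mem_range.1 hi)]
    unfold PLK.P6.ev
    push_cast
    ring
  have k2 : ∀ k : ℕ, ∑ i ∈ Finset.range D.N, ((ls D.N fun i => (⟨D.gri k i * D.zv i, 0, 0, D.gri k i * V20, 0, 0⟩ : P6 ℤ)).getD i
      PLK.P6.zero).ev (x i) (x (i + 1)) = ∑ i ∈ Finset.range D.N, (D.gri k i : ℝ) * (D.zv i + 1048576 * x i ^ 2) := by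
    intro k
    refine Finset.sum_congr rfl fun i hi => ?_
    rw [getD_ls _ _ _ (Finset.mem_range.1 hi)]
    unfold PLK.P6.ev V20
    push_cast
    ring
  have e1 : (D.st.F.map fun q => iz w q.1 * ∑ i ∈ Finset.range D.N,
      (q.2.getD i PLK.P6.zero).ev (x i) (x (i + 1))).sum
      = iz w (D.Ks.map fun x => -(D.zN * D.zS ^ 2 * V20) * x) * 1
        + (iz w (D.Kp.map fun x => -D.zS * x) * ∑ i ∈ Finset.range D.N, (D.zk i : ℝ) * D.zv i)
        + ∑ k ∈ Finset.range D.R, iz w ((D.Q.getD k []).map fun x => D.zS * x)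
          * ∑ i ∈ Finset.range D.N, (D.gri k i : ℝ) * (D.zv i + 1048576 * x i ^ 2) := by
    unfold ND.st
    simp only [List.map_cons, List.sum_cons, List.map_map, Function.comp_def, k0, k1, k2, sum_map_range]
    ring
  rw [e1]
  simp only [iz_map]
  have e2 : ∑ k ∈ Finset.range D.R, ((D.zS : ℤ) : ℝ) * iz w (D.Q.getD k [])
      * ∑ i ∈ Finset.range D.N, (D.gri k i : ℝ) * (D.zv i + 1048576 * x i ^ 2)
      = D.zS * ∑ i ∈ Finset.range D.N, iz w (D.Kx i) * (D.zv i + 1048576 * x i ^ 2) := by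
    simp only [iz_Kx, Finset.sum_mul, Finset.mul_sum]
    rw [Finset.sum_comm]
    refine Finset.sum_congr rfl fun i _ => Finset.sum_congr rfl fun k _ => ?_
    ring
  have e3 : ∑ i ∈ Finset.range D.N, (iz w (D.Kx i) * (x i ^ 2 + (D.zv i : ℝ) / 1048576)
      - D.zk i * iz w D.Kp * ((D.zv i : ℝ) / 1048576))
      = 1 / 1048576 * (∑ i ∈ Finset.range D.N, iz w (D.Kx i) * (D.zv i + 1048576 * x i ^ 2))
        - 1 / 1048576 * iz w D.Kp * ∑ i ∈ Finset.range D.N, (D.zk i : ℝ) * D.zv i := by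
    rw [Finset.mul_sum, Finset.mul_sum, ← Finset.sum_sub_distrib]
    exact Finset.sum_congr rfl fun i _ => by ring
  rw [e2, e3]
  unfold ND.zN ND.zS ND.N V20
  push_cast
  ring

/-- the extra forms -/
def xt (D : ND) (x : ℕ → ℝ) : List ℝ :=
  D.E.map fun l => ∑ i ∈ Finset.range D.N, ev3 ((l.map fun a => (⟨0, a, 0⟩ : A3)).getD i PLK.A3.zero) (x i) (x (i + 1)) + 0

/-- the linear forms -/
theorem valL (τ : List ℝ) {y : ℕ → ℝ} (h0 : y 0 = 1) (hS : (D.G.S : ℝ) ≠ 0)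
    (hy : ∀ k, 1 ≤ k → k < D.R → y k = ∑ i ∈ Finset.range D.N, (gl D.G.a k i : ℝ) * x i
      + el D.e k * (2 * τ.getD (k - 1) 0 - 1)) :
    D.st.L.map (D.st.lf x τ) = ((List.range D.R).map fun k => D.G.S * y k) ++ xt D x := by
  have hlf : D.st.lf x τ = fun f => ∑ i ∈ Finset.range D.N, ev3 (f.1.getD i PLK.A3.zero) (x i) (x (i + 1))
      + lz f.2 (1 :: τ) := rfl
  rw [hlf]
  have k0 : ∑ i ∈ Finset.range D.N, ev3 ((ls D.N fun _ => PLK.A3.zero).getD i PLK.A3.zero) (x i) (x (i + 1)) = 0 := by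
    refine Finset.sum_eq_zero fun i hi => ?_
    rw [getD_ls _ _ _ (Finset.mem_range.1 hi)]
    simp [ev3, PLK.A3.zero]
  have k1 : ∀ k : ℕ, ∑ i ∈ Finset.range D.N, ev3 ((ls D.N fun i => (⟨0, D.gli (k + 1) i, 0⟩ : A3)).getD i PLK.A3.zero)
      (x i) (x (i + 1)) = D.G.S * ∑ i ∈ Finset.range D.N, (gl D.G.a (k + 1) i : ℝ) * x i := by
    intro k
    rw [Finset.mul_sum]
    refine Finset.sum_congr rfl fun i hi => ?_
    rw [getD_ls _ _ _ (Finset.mem_range.1 hi), gl_eq]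
    unfold ev3
    push_cast
    field_simp
    ring
  have k2 : ∀ k : ℕ, lz (-D.eli (k + 1) :: (List.replicate k 0 ++ [2 * D.eli (k + 1)])) (1 :: τ)
      = D.G.S * (el D.e (k + 1) * (2 * τ.getD k 0 - 1)) := by
    intro k
    have k3 : ∀ (k : ℕ) (c : ℤ) (τ : List ℝ), lz (List.replicate k 0 ++ [c]) τ = c * τ.getD k 0 := by
      intro k c
      induction k with
      | zero =>
        intro τ
        cases τ <;> simp
      | succ k ih =>
        intro τ
        cases τ with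
        | nil => simp
        | cons t τ => simp [List.replicate_succ, ih]
    rw [lz_cons, k3, el_eq]
    push_cast
    field_simp
    ring
  have e9 : (List.range D.R).map (fun k => D.G.S * y k)
      = (D.G.S * y 0) :: (List.range (2 * D.h)).map fun k => D.G.S * y (k + 1) := by
    unfold ND.R
    rw [List.range_succ_eq_map, List.map_cons, List.map_map]
    rfl
  rw [e9]
  unfold ND.st xt
  simp only [List.map_append, List.map_cons, List.map_map, Function.comp_def, k0, k1, k2]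
  congr 1
  congr 1
  · rw [h0, lz_cons, lz_nil]
    unfold ND.zS
    push_cast
    ring
  · refine List.map_congr_left fun k hk => ?_
    have hk' : k < 2 * D.h := List.mem_range.1 hk
    rw [hy (k + 1) (by omega) (by unfold ND.R; omega)]
    simp only [Nat.add_sub_cancel]
    ring

theorem ls_succ {α : Type} (n : ℕ) (y : ℕ → α) : ls (n + 1) y = y 0 :: ls n fun i => y (i + 1) := by
  unfold ls
  rw [List.range_succ_eq_map, List.map_cons, List.map_map]
  rfl

theorem lv_ls {V : Type} {φ : V → ℝ} {d : V} (hd : φ d = 0) : ∀ (n : ℕ) (r : List V) (y : ℕ → ℝ),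
    lv φ r (ls n y) = ∑ j ∈ Finset.range n, φ (r.getD j d) * y j
  | 0, r, y => by simp [ls]
  | n + 1, [], y => by
    rw [lv_nil]
    exact (Finset.sum_eq_zero fun j _ => by simp [hd]).symm
  | n + 1, v :: r, y => by
    rw [ls_succ, lv_cons, lv_ls hd n r, Finset.sum_range_succ']
    simp only [List.getD_cons_succ, List.getD_cons_zero]
    ring

theorem qv_ls {V : Type} {φ : V → ℝ} {d : V} (hd : φ d = 0) : ∀ (n : ℕ) (T : List (List V)) (y : ℕ → ℝ),
    qv φ T (ls n y) = ∑ k ∈ Finset.range n, ∑ j ∈ Finset.range (n - k), φ ((T.getD k []).getD j d) * (y k * y (k + j))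
  | 0, T, y => by simp [ls]
  | n + 1, [], y => by
    rw [qv_nil]
    exact (Finset.sum_eq_zero fun k _ => Finset.sum_eq_zero fun j _ => by simp [hd]).symm
  | n + 1, r :: T, y => by
    rw [ls_succ, qv_cons, ← ls_succ, lv_ls hd, qv_ls hd n T, add_comm]
    conv_rhs => rw [Finset.sum_range_succ']
    refine congrArg₂ (fun a b : ℝ => a + b) (Finset.sum_congr rfl fun k _ => ?_) ?_
    · rw [Nat.add_sub_add_right]
      refine Finset.sum_congr rfl fun j _ => ?_
      rw [List.getD_cons_succ, show k + 1 + j = k + j + 1 by ring]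
    · rw [Nat.sub_zero, Finset.mul_sum]
      refine Finset.sum_congr rfl fun j _ => ?_
      rw [List.getD_cons_zero, Nat.zero_add]
      ring

/-- triangular shape -/
def shp {V : Type} : List (List V) → ℕ → Bool
  | [], _ => true
  | r :: T, n + 1 => Nat.ble r.length (n + 1) && shp T n
  | _ :: _, 0 => false

theorem lv_app {V : Type} (φ : V → ℝ) : ∀ (r : List V) (Y E : List ℝ), r.length ≤ Y.length →
    lv φ r (Y ++ E) = lv φ r Y
  | [], Y, E, _ => by rw [lv_nil, lv_nil]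
  | v :: r, [], E, h => by simp at h
  | v :: r, y :: Y, E, h => by
    rw [List.cons_append, lv_cons, lv_cons, lv_app φ r Y E (by simpa using h)]

theorem qv_app {V : Type} (φ : V → ℝ) : ∀ (T : List (List V)) (Y E : List ℝ), shp T Y.length = true →
    qv φ T (Y ++ E) = qv φ T Y
  | [], Y, E, _ => by rw [qv_nil, qv_nil]
  | r :: T, [], E, h => by simp [shp] at h
  | r :: T, y :: Y, E, h => by
    simp only [shp, List.length_cons, Bool.and_eq_true, Nat.ble_eq] at h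
    have h1 := lv_app φ r (y :: Y) E (by simpa using h.1)
    rw [List.cons_append] at h1 ⊢
    rw [qv_cons, qv_cons, h1, qv_app φ T Y E h.2]

theorem shp_map {V W : Type} (f : V → W) : ∀ (T : List (List V)) (n : ℕ),
    shp (T.map fun r => r.map f) n = shp T n
  | [], n => by simp [shp]
  | r :: T, 0 => by simp [shp]
  | r :: T, n + 1 => by simp [shp, shp_map f T n]

/-- the part of the products of linear forms -/
theorem valC (hC : shp D.C D.R = true) (w : List ℝ) (y : ℕ → ℝ) (E : List ℝ) :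
    qv id (D.st.C.map fun r => r.map (iz w)) (((List.range D.R).map fun k => D.G.S * y k) ++ E)
      = 1048576 * (D.N * (D.G.S : ℝ) ^ 2 * qC D.R w D.C y) := by
  have hC' : shp D.st.C ((List.range D.R).map fun k => D.G.S * y k).length = true := by
    show shp (D.C.map fun r => r.map fun c => c.map fun x => D.zN * V20 * x) _ = true
    rw [shp_map]
    simpa using hC
  rw [qv_map, qv_app _ _ _ _ hC']
  have h1 : qv (iz w) D.st.C ((List.range D.R).map fun k => D.G.S * y k)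
      = qv (fun c => (D.zN * V20 : ℤ) * iz w c) D.C (ls D.R fun k => D.G.S * y k) := by
    show qv (iz w) (D.C.map fun r => r.map fun c => c.map fun x => D.zN * V20 * x) _ = _
    have lvm : ∀ (r : List (List ℤ)) (Y : List ℝ), lv (iz w) (r.map fun c => c.map fun x => D.zN * V20 * x) Y
        = lv (fun c => (D.zN * V20 : ℤ) * iz w c) r Y := by
      intro r
      induction r with
      | nil => intro Y; simp
      | cons c r ih =>
        intro Y
        cases Y with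
        | nil => simp
        | cons t Y => rw [List.map_cons, lv_cons, lv_cons, ih, iz_map]
    have qvm : ∀ (T : List (List (List ℤ))) (Y : List ℝ), qv (iz w) (T.map fun r => r.map fun c => c.map fun x => D.zN * V20 * x) Y
        = qv (fun c => (D.zN * V20 : ℤ) * iz w c) T Y := by
      intro T
      induction T with
      | nil => intro Y; simp
      | cons r T ih =>
        intro Y
        cases Y with
        | nil => simp
        | cons t Y => rw [List.map_cons, qv_cons, qv_cons, ih, lvm]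
    rw [qvm]
    rfl
  rw [h1, qv_ls (d := []) (by simp [iz_nil])]
  unfold qC
  simp only [Finset.mul_sum]
  refine Finset.sum_congr rfl fun k _ => Finset.sum_congr rfl fun j _ => ?_
  unfold ND.zN ND.N V20
  push_cast
  ring

theorem par_q {θ : List ℝ} (h : D.st.Par x θ) {i : ℕ} (hi : i < D.N) :
    ((D.zl i : ℝ) + D.zh i) * θ.getD i 0 = 1048576 * (x (i + 1) - x i + (D.Z.cd.lb i : ℝ)) := by
  have h1 := h.eq i hi
  have e1 : D.st.Ls.getD i 0 = D.zl i := getD_ls _ _ _ hi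
  have e2 : D.st.Hs.getD i 0 = D.zh i := getD_ls _ _ _ hi
  rw [e1, e2] at h1
  have e : (D.Z.cd.lb i : ℝ) = (D.zl i : ℝ) / 1048576 := nq_cast _ _
  have e3 : ((D.st.κ : ℤ) : ℝ) = 1048576 := by
    show ((V20 : ℤ) : ℝ) = _
    unfold V20
    norm_num
  rw [h1, e, e3]
  ring

theorem par_p {θ : List ℝ} (h : D.st.Par x θ) {i : ℕ} (hi : i < D.N) :
    ((D.zl i : ℝ) + D.zh i) * (1 - θ.getD i 0) = 1048576 * ((D.Z.cd.hb i : ℝ) - (x (i + 1) - x i)) := by
  have h1 := par_q h hi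
  have e : (D.Z.cd.lb i : ℝ) = (D.zl i : ℝ) / 1048576 := nq_cast _ _
  have e' : (D.Z.cd.hb i : ℝ) = (D.zh i : ℝ) / 1048576 := nq_cast _ _
  rw [e] at h1
  rw [e', mul_sub, h1]
  ring

/-- the table of one cell -/
theorem tc_eq (hG : Geo D.Z.cd) {θ τ : List ℝ} (h : D.st.Par x θ) (w : List ℝ) {i : ℕ} (hi : i < D.N) :
    qv (iz w) (D.tc i) (1 :: (θ ++ τ)) = (2 * 1048576) ^ 2 * (1048576 * D.G.S)
      * (iz w (D.Kc i) * (D.Z.cd.VB x i - (D.zv i : ℝ) / 1048576)) := by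
  have hz : iz w ND.z9 = 0 := iz_z9 w
  have hvc : (D.Z.cd.vc i : ℝ) = (D.zv i : ℝ) / 1048576 := nq_cast _ _
  have hok := hG.var i hi
  have hNN : D.Z.cd.N = D.N := rfl
  have hN0 : 0 < D.N := lt_of_le_of_lt (Nat.zero_le _) hi
  have happ : ∀ j < D.N, (θ ++ τ).getD j 0 = θ.getD j 0 := fun j hj => by
    have hl : θ.length = D.N := h.len
    rw [List.getD_append _ _ _ _ (by rw [hl]; exact hj)]
  unfold CD.okV at hok
  unfold CD.VB
  unfold ND.tc
  have hty : D.Z.cd.ty i = D.Z.ty.getD i 0 := rfl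
  rw [hty] at hok ⊢
  rw [← hvc]
  have hneg : ∀ c : ℤ, iz w (D.wv (-c) i) = -iz w (D.wv c i) := fun c => by
    rw [iz_wv, iz_wv]
    push_cast
    ring
  rcases hT : D.Z.ty.getD i 0 with _ | _ | _ | t
  · simp only [hT] at hok ⊢
    simp
  · simp only [hT, zero_add] at hok ⊢
    obtain ⟨j, hj, -⟩ := hok
    subst hj
    simp only [Nat.add_sub_cancel]
    rw [qv_tE hz, iz_wv, happ _ hi, happ j (by omega)]
    have a1 := par_q h (i := j) (by omega)
    have a2 := par_q h hi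
    unfold ND.hh ND.zS V20
    push_cast
    linear_combination (4 * (1048576 * (D.G.S : ℝ)) * iz w (D.Kc (j + 1))
      * (((D.zl (j + 1) : ℝ) + D.zh (j + 1)) * θ.getD (j + 1) 0)) * a1
      + (4 * (1048576 * (D.G.S : ℝ)) * iz w (D.Kc (j + 1))
        * (1048576 * (x (j + 1) - x j + (D.Z.cd.lb j : ℝ)))) * a2
  · simp only [hT, zero_add] at hok ⊢
    obtain ⟨j, hj, -⟩ := hok
    subst hj
    simp only [Nat.add_sub_cancel]
    rw [qv_tP hz _ _ (hneg _), iz_wv, happ _ hi, happ j (by omega)]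
    have a1 := par_p h (i := j) (by omega)
    have a2 := par_p h hi
    unfold ND.hh ND.zS V20
    push_cast
    linear_combination (4 * (1048576 * (D.G.S : ℝ)) * iz w (D.Kc (j + 1))
      * (((D.zl (j + 1) : ℝ) + D.zh (j + 1)) * (1 - θ.getD (j + 1) 0))) * a1
      + (4 * (1048576 * (D.G.S : ℝ)) * iz w (D.Kc (j + 1))
        * (1048576 * ((D.Z.cd.hb j : ℝ) - (x (j + 1) - x j)))) * a2
  · simp only [hT] at hok ⊢
    obtain ⟨hi0, j, hj, -⟩ := hok
    subst hi0
    have hj' : D.N - 1 = j := by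
      have : D.N = j + 1 := hj
      omega
    have hθ : θ ++ τ ≠ [] := by
      intro hh
      have := h.len
      have h3 : θ = [] := by
        rcases List.append_eq_nil_iff.1 hh with ⟨h4, _⟩
        exact h4
      rw [h3] at this
      have h2 : D.N = 0 := this.symm
      omega
    rw [qv_tW hz _ _ (hneg _) _ hθ, iz_wv, hNN, hj', happ _ hi, happ j (by have : D.N = j + 1 := hj; omega)]
    have a1 := par_q h (i := j) (by have : D.N = j + 1 := hj; omega)
    have a2 := par_p h hN0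
    have hjN : x (j + 1) = x D.N := by
      have : D.N = j + 1 := hj
      rw [this]
    rw [hjN] at a1
    unfold ND.hh ND.zS V20
    push_cast
    rw [zero_add] at a2
    linear_combination (4 * (1048576 * (D.G.S : ℝ)) * iz w (D.Kc 0)
      * (((D.zl 0 : ℝ) + D.zh 0) * (1 - θ.getD 0 0))) * a1
      + (4 * (1048576 * (D.G.S : ℝ)) * iz w (D.Kc 0)
        * (1048576 * (x D.N - x j + (D.Z.cd.lb j : ℝ)))) * a2

end ev

/-! ### the certificate -/

section cert

variable {D : ND} {x A : ℕ → ℝ} {u Z : ℤ → ℂ}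

theorem sum_t1 (hS : 0 < D.G.S) (h : Avg D.R D.Z.cd D.G.a D.e u Z x A) :
    |∑ i ∈ Finset.range D.N, ((D.zt 1 i).1 : ℝ) * x i| ≤ D.ze 1 ∧
      |∑ i ∈ Finset.range D.N, ((D.zt 1 i).2 : ℝ) * x i| ≤ D.ze 1 := by
  have hS' : (0 : ℝ) < D.G.S := by exact_mod_cast hS
  have h1 := h.one
  have e1 : (D.e 1 : ℝ) = (D.ze 1 : ℝ) / D.G.S := by
    unfold ND.e ND.ze
    push_cast
    rfl
  have hr : (wm D.N D.G.a 1 x).re = (∑ i ∈ Finset.range D.N, ((D.zt 1 i).1 : ℝ) * x i) / D.G.S := by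
    rw [wm_re, Finset.sum_div]
    refine Finset.sum_congr rfl fun i _ => ?_
    unfold TG.a NCE.aL ND.zt
    simp only [one_ne_zero, if_false]
    push_cast
    ring
  have hi : (wm D.N D.G.a 1 x).im = (∑ i ∈ Finset.range D.N, ((D.zt 1 i).2 : ℝ) * x i) / D.G.S := by
    rw [wm_im, Finset.sum_div]
    refine Finset.sum_congr rfl fun i _ => ?_
    unfold TG.a NCE.aL ND.zt
    simp only [one_ne_zero, if_false]
    push_cast
    ring
  have a1 := (Complex.abs_re_le_norm (wm D.N D.G.a 1 x)).trans h1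
  have a2 := (Complex.abs_im_le_norm (wm D.N D.G.a 1 x)).trans h1
  rw [hr, e1, abs_div, abs_of_pos hS', div_le_div_iff_of_pos_right hS'] at a1
  rw [hi, e1, abs_div, abs_of_pos hS', div_le_div_iff_of_pos_right hS'] at a2
  exact ⟨a1, a2⟩

theorem box (hS : 0 < D.G.S) (h : Avg D.R D.Z.cd D.G.a D.e u Z x A) {τ : List ℝ}
    (hl : τ.length = 2 * D.h) (ht : ∀ t ∈ τ, 0 ≤ t ∧ t ≤ 1) : D.st.Box x τ := by
  obtain ⟨b1, b2⟩ := sum_t1 hS h
  refine ⟨h.last, fun i hi => ?_, fun i hi => ?_, hl, ht, ?_⟩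
  · have hi' : i < D.N := hi
    show -(((ls D.N D.zl).getD i 0 : ℤ) : ℝ) ≤ ((V20 : ℤ) : ℝ) * _
    rw [getD_ls _ _ _ hi']
    have h1 := h.lo i hi'
    have e : (D.Z.cd.lb i : ℝ) = (D.zl i : ℝ) / 1048576 := nq_cast _ _
    rw [e] at h1
    unfold V20
    push_cast
    linarith
  · have hi' : i < D.N := hi
    show ((V20 : ℤ) : ℝ) * _ ≤ (((ls D.N D.zh).getD i 0 : ℤ) : ℝ)
    rw [getD_ls _ _ _ hi']
    have h1 := h.hi i hi'
    have e : (D.Z.cd.hb i : ℝ) = (D.zh i : ℝ) / 1048576 := nq_cast _ _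
    rw [e] at h1
    unfold V20
    push_cast
    linarith
  · have key : ∀ f : ℕ → ℤ, (∑ i ∈ Finset.range D.N, ev3 ((ls D.N fun i => (⟨0, f i, 0⟩ : A3)).getD i PLK.A3.zero)
          (x i) (x (i + 1))) = ∑ i ∈ Finset.range D.N, (f i : ℝ) * x i := by
      intro f
      refine Finset.sum_congr rfl fun i hi => ?_
      rw [getD_ls _ _ _ (Finset.mem_range.1 hi)]
      unfold ev3
      push_cast
      ring
    have kz : ∀ c : ℤ, lz [c] (1 :: τ) = c := fun c => by simp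
    intro f hf
    have hf' : f ∈ [((ls D.N fun i => (⟨0, (D.zt 1 i).1, 0⟩ : A3)), [D.ze 1]),
      (ls D.N fun i => ⟨0, -(D.zt 1 i).1, 0⟩, [D.ze 1]), (ls D.N fun i => ⟨0, (D.zt 1 i).2, 0⟩, [D.ze 1]),
      (ls D.N fun i => ⟨0, -(D.zt 1 i).2, 0⟩, [D.ze 1])] := hf
    simp only [List.mem_cons, List.not_mem_nil, or_false] at hf'
    have c1 := abs_le.1 b1
    have c2 := abs_le.1 b2
    show 0 ≤ ∑ i ∈ Finset.range D.N, _ + _
    rcases hf' with rfl | rfl | rfl | rfl <;> simp only [key, kz] <;> push_cast <;>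
      (try simp only [neg_mul, Finset.sum_neg_distrib]) <;> linarith [c1.1, c1.2, c2.1, c2.2]

/-- **the integer form is nonnegative** -/
theorem int_form (hN : D.G.N = D.Z.G.N) (hS : 0 < D.G.S) (hG : Geo D.Z.cd)
    (hC : shp D.C D.R = true) (h : Avg D.R D.Z.cd D.G.a D.e u Z x A) {w : List ℝ}
    (hEng : ∀ τ : List ℝ, D.st.Box x τ → ∃ θ, D.st.Par x θ ∧ 0 ≤ D.st.val w x θ τ)
    (hKp : 0 ≤ iz w D.Kp) (hK : ∀ i < D.N, iz w (D.Kc i) ≤ 0) :
    iz w D.Ks - ∑ m ∈ Finset.range D.h, ‖((iz w (D.Q.getD (2 * m + 1) []) : ℝ) : ℂ)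
        - ((iz w (D.Q.getD (2 * m + 2) []) : ℝ) : ℂ) * Complex.I‖ * D.e (2 * m + 2)
      ≤ qC D.R w D.C (yv u) + ∑ k ∈ Finset.range D.R, iz w (D.Q.getD k []) * Zv Z k := by
  have hN0 : 0 < D.N := lt_trans one_pos hG.N1
  have hN0' : (0 : ℝ) < D.N := by exact_mod_cast hN0
  have hS' : (0 : ℝ) < D.G.S := by exact_mod_cast hS
  obtain ⟨t, ht, hy⟩ := ex_tau h
  obtain ⟨τ, hτ⟩ : ∃ τ : List ℝ, τ = (List.range (2 * D.h)).map fun k => t (k + 1) := ⟨_, rfl⟩
  have hl : τ.length = 2 * D.h := by simp [hτ]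
  have hb : ∀ a ∈ τ, 0 ≤ a ∧ a ≤ 1 := by
    intro a ha
    rw [hτ] at ha
    obtain ⟨k, -, rfl⟩ := List.mem_map.1 ha
    exact ht _
  have hg : ∀ k, k < 2 * D.h → τ.getD k 0 = t (k + 1) := by
    intro k hk
    rw [hτ]
    simp [List.getD_eq_getElem?_getD, hk]
  obtain ⟨θ, hp, hv⟩ := hEng τ (box hS h hl hb)
  have hL := valL (D := D) (x := x) τ (y := yv u) (by simp [yv]) hS'.ne' (fun k h1 h9 => by
    have hy' := hy k h1 h9
    have hNN : D.Z.cd.N = D.N := rfl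
    rw [hNN] at hy'
    rw [hy', hg (k - 1) (by unfold ND.R at h9; omega), show k - 1 + 1 = k by omega])
  have hT : qv id (D.st.T.map fun r => r.map (iz w)) (1 :: (θ ++ τ))
      = ∑ i ∈ Finset.range D.N, (2 * 1048576) ^ 2 * (1048576 * (D.G.S : ℝ))
        * (iz w (D.Kc i) * (D.Z.cd.VB x i - (D.zv i : ℝ) / 1048576)) := by
    rw [qv_map]
    show qv _ (sumT OZ D.tc D.N) _ = _
    rw [qv_sumT]
    exact Finset.sum_congr rfl fun i hi => tc_eq hG hp w (Finset.mem_range.1 hi)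
  unfold ST.val at hv
  have hκ : ((D.st.κ : ℤ) : ℝ) = 1048576 := by
    show ((V20 : ℤ) : ℝ) = _
    unfold V20
    norm_num
  have hcN : D.st.N = D.N := rfl
  rw [hcN, hκ, hL, valC hC, hT, valF hN0] at hv
  -- the quadratic part
  have hgr : ∀ i, ∑ k ∈ Finset.range (2 * D.h + 1), iz w (D.Q.getD k []) * (gr D.G.a k i : ℝ)
      = iz w (D.Kx i) / (D.N * D.G.S) := by
    intro i
    rw [iz_Kx, Finset.sum_div]
    refine Finset.sum_congr rfl fun k _ => ?_
    rw [gr_eq hN hN0 hS]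
    unfold ND.N
    ring
  have hq := quad_ge h (q := fun k => iz w (D.Q.getD k [])) (κ := fun i => (D.zk i : ℝ) / (D.N * D.G.S))
    (p := iz w D.Kp) hKp (fun i _ => by
      unfold ND.zk
      push_cast
      positivity) (fun i hi => by
      rw [hgr]
      have h1 := hK i hi
      rw [iz_Kc] at h1
      rw [div_mul_eq_mul_div, div_le_div_iff_of_pos_right (by positivity)]
      linarith)
  simp only [hgr] at hq
  rw [show 2 * D.h + 1 = D.R from rfl] at hq
  have hNN : D.Z.cd.N = D.N := rfl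
  rw [hNN] at hq
  obtain ⟨E, hE⟩ : ∃ E : ℝ, E = ∑ m ∈ Finset.range D.h, ‖((iz w (D.Q.getD (2 * m + 1) []) : ℝ) : ℂ)
        - ((iz w (D.Q.getD (2 * m + 2) []) : ℝ) : ℂ) * Complex.I‖ * D.e (2 * m + 2) := ⟨_, rfl⟩
  rw [← hE] at hq ⊢
  have hsum : ∑ i ∈ Finset.range D.N, (iz w (D.Kx i) / (D.N * D.G.S) * (x i ^ 2 + D.Z.cd.VB x i)
        - (D.zk i : ℝ) / (D.N * D.G.S) * iz w D.Kp * D.Z.cd.VB x i)
      = 1 / (D.N * D.G.S) * (∑ i ∈ Finset.range D.N, (iz w (D.Kx i) * (x i ^ 2 + (D.zv i : ℝ) / 1048576)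
          - D.zk i * iz w D.Kp * ((D.zv i : ℝ) / 1048576))
        + ∑ i ∈ Finset.range D.N, iz w (D.Kc i) * (D.Z.cd.VB x i - (D.zv i : ℝ) / 1048576)) := by
    rw [← Finset.sum_add_distrib, Finset.mul_sum]
    refine Finset.sum_congr rfl fun i _ => ?_
    rw [iz_Kc]
    ring
  rw [hsum] at hq
  rw [← Finset.mul_sum] at hv
  obtain ⟨a1, ha1⟩ : ∃ a1 : ℝ, a1 = ∑ i ∈ Finset.range D.N, (iz w (D.Kx i) * (x i ^ 2 + (D.zv i : ℝ) / 1048576)
      - D.zk i * iz w D.Kp * ((D.zv i : ℝ) / 1048576)) := ⟨_, rfl⟩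
  obtain ⟨a2, ha2⟩ : ∃ a2 : ℝ, a2 = ∑ i ∈ Finset.range D.N, iz w (D.Kc i) * (D.Z.cd.VB x i - (D.zv i : ℝ) / 1048576) :=
    ⟨_, rfl⟩
  rw [← ha1, ← ha2] at hv hq
  obtain ⟨c, hc⟩ : ∃ c : ℝ, c = qC D.R w D.C (yv u) := ⟨_, rfl⟩
  obtain ⟨ks, hks⟩ : ∃ ks : ℝ, ks = iz w D.Ks := ⟨_, rfl⟩
  rw [← hc, ← hks] at hv ⊢
  have key : 0 ≤ (D.N * (D.G.S : ℝ) ^ 2) * (c - ks + 1 / (D.N * D.G.S) * (a1 + a2)) := by
    have e1 : (D.N * (D.G.S : ℝ) ^ 2) * (c - ks + 1 / (D.N * D.G.S) * (a1 + a2))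
        = D.N * (D.G.S : ℝ) ^ 2 * (c - ks) + D.G.S * (a1 + a2) := by
      field_simp
    rw [e1]
    have : 0 ≤ ((2 * 1048576 : ℝ) ^ 2 * 1048576) * (D.N * (D.G.S : ℝ) ^ 2 * (c - ks) + D.G.S * (a1 + a2)) := by
      refine hv.trans (le_of_eq ?_)
      ring
    exact nonneg_of_mul_nonneg_right this (by norm_num)
  have key2 := nonneg_of_mul_nonneg_right key (by positivity)
  linarith

end cert

open Pool.Agent.FPX.BTN (va e1)
open Pool.Agent.FPX.BRG (vl Zr fr_va)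
open Pool.Agent.FPX.ALX (St)
open MeasureTheory

theorem norm_Zr {X : ℝ → ℝ} (hb : ∀ a, |X a| ≤ 1) (r : ℕ) (n : ℤ) : ‖Zr r va X e1 n‖ ≤ 1 := by
  unfold Zr
  have h : ∀ᵐ a ∂va, ‖((X a : ℂ)) ^ r * e1 a ^ n‖ ≤ 1 := Filter.Eventually.of_forall fun a => by
    rw [norm_mul, norm_pow, Complex.norm_real, norm_zpow, BTN.norm_e1, one_zpow, mul_one]
    exact pow_le_one₀ (abs_nonneg _) (hb a)
  have := norm_integral_le_of_norm_le_const h
  simpa using this

theorem norm_vl {X : ℝ → ℝ} (hb : ∀ a, |X a| ≤ 1) (n : ℤ) : ‖vl va X e1 n‖ ≤ 1 := by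
  unfold vl
  split_ifs
  · simp
  · exact norm_Zr hb 1 n

/-- **the condition of the certificate bridge** -/
theorem cert {D : ND} (hN : D.G.N = D.Z.G.N) (hS : 0 < D.G.S) (hG : Geo D.Z.cd) {η : ℚ}
    (hT : D.G.chkR D.R η = true) {M : ℕ} (hE : Err D.R D.Z.cd M (fun _ => η) D.e) (hC : shp D.C D.R = true)
    {T : BRG.Tf} {Q : BRG.Qf} {Sc : ℚ} (hSc : 0 < Sc) {B : ℕ} (hNear : Near D.R D.C D.Q Sc B T Q)
    (hKp : ∀ z0 z1 z2, 0 ≤ iz (w3 z0 z1 z2) D.Kp)
    (hK : ∀ i < D.N, ∀ z0 z1 z2, iz (w3 z0 z1 z2) (D.Kc i) ≤ 0)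
    (hKs : ∀ z : ℕ → ℂ, ∑ m ∈ Finset.range D.h, ‖((iz (w3 (z 0) (z 1) (z 2)) (D.Q.getD (2 * m + 1) []) : ℝ) : ℂ)
        - ((iz (w3 (z 0) (z 1) (z 2)) (D.Q.getD (2 * m + 2) []) : ℝ) : ℂ) * Complex.I‖ * D.e (2 * m + 2)
        + B * nz z ≤ iz (w3 (z 0) (z 1) (z 2)) D.Ks)
    (hEng : ∀ z0 z1 z2 : ℂ, D.st.Good (w3 z0 z1 z2))
    {X : ℝ → ℝ} (hX : St D.Z.cd.s X) (hb : ∀ a, |X a| ≤ 0.62 * (D.Z.cd.s : ℝ)) (z : ℕ → ℂ) :
    0 ≤ (BRG.e2 z (vl va X e1) T + BRG.eq2 z (Zr 2 va X e1) Q).re := by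
  have hb1 : ∀ a, |X a| ≤ 1 := fun a => by
    have h1 : (D.Z.cd.s : ℝ) ≤ 1 := by exact_mod_cast hG.s1
    have h2 := hb a
    linarith
  have hTrg : Trg D.R D.Z.cd.N D.G.a fun _ => η := by
    have := TG.trgR hT
    rw [hN] at this
    exact this
  obtain ⟨x, A, hA⟩ := avg_of (R := D.R) (by unfold ND.R; omega) hG hTrg hE hX hb
  have key := int_form hN hS hG hC hA (w := w3 (z 0) (z 1) (z 2)) (fun τ hτ => hEng _ _ _ x τ hτ) (hKp _ _ _)
    fun i hi => hK i hi _ _ _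
  have H := fr_va hX hb1
  have u0 : vl va X e1 0 = 1 := by simp [vl]
  have c1 := hNear z (vl va X e1) (Zr 2 va X e1) u0 (fun n => H.vl_neg n) (fun n => H.zc 2 n) (norm_vl hb1)
    (norm_Zr hb1 2)
  have hSc' : (0 : ℝ) < Sc := by exact_mod_cast hSc
  have c3 := hKs z
  refine nonneg_of_mul_nonneg_right ?_ hSc'
  linarith

/-! ### Booleans -/

namespace ND

/-- positivity of `Kp` and of `kap i Kp - K_i` -/
def chkK (D : ND) : Bool :=
  KPL.psdZ D.Kp && (List.range D.N).all fun i => KPL.psdZ ((D.Kc i).map fun x => -x)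

/-- the check of the constant, tolerance `B` of the tables -/
def chkS (D : ND) (B : ℕ) : Bool :=
  match D.Ks with
  | [x, y, v, 0, 0, 0, 0, 0, 0] =>
    KPL.domG ((List.range D.h).map fun m => D.en.getD (2 * m + 2) 0) (D.Q.drop 1)
      (D.zS * x - (B * D.G.S : ℕ)) (D.zS * y - (B * D.G.S : ℕ)) (D.zS * v - (B * D.G.S : ℕ)) 0 0 0
  | _ => false

/-- the small checks -/
def chkM (D : ND) (M : ℕ) (η : ℚ) : Bool :=
  Nat.blt 1 D.N && (Nat.beq D.G.N D.N && (Nat.blt 0 D.G.S && (shp D.C D.R && errB D.R D.Z.cd M (fun _ => η) D.e)))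

end ND

theorem chkK_ok {D : ND} (h : D.chkK = true) : (∀ z0 z1 z2, 0 ≤ iz (w3 z0 z1 z2) D.Kp) ∧
    ∀ i < D.N, ∀ z0 z1 z2, iz (w3 z0 z1 z2) (D.Kc i) ≤ 0 := by
  simp only [ND.chkK, Bool.and_eq_true, List.all_eq_true, List.mem_range] at h
  refine ⟨fun z0 z1 z2 => KPL.psdZ_ok h.1 z0 z1 z2, fun i hi z0 z1 z2 => ?_⟩
  have := KPL.psdZ_ok (h.2 i hi) z0 z1 z2
  rw [iz_neg] at this
  linarith

theorem domG_len {er : List ℕ} {L : List (List ℤ)} {x y v : ℤ} {p q r : ℕ} (h : KPL.domG er L x y v p q r = true) :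
    L.length = 2 * er.length := by
  induction er, L, x, y, v, p, q, r using KPL.domG.induct with
  | case1 e er a b c r1 i1 r2 i2 r3 i3 a' b' c' r1' i1' r2' i2' r3' i3' L x y v p q r ih =>
    rw [KPL.domG] at h
    have := ih h
    simp only [List.length_cons, this]
    ring
  | case2 x y v p q r => rfl
  | case3 er L x y v p q r h1 h2 =>
    rw [KPL.domG] at h
    · exact absurd h (by simp)
    · exact h1
    · exact h2

theorem errS_eq (w : List ℝ) : ∀ (er : List ℕ) (L : List (List ℤ)), L.length = 2 * er.length → KPL.errS w er L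
    = ∑ m ∈ Finset.range er.length, (er.getD m 0 : ℝ) * ‖((iz w (L.getD (2 * m) []) : ℝ) : ℂ)
        - ((iz w (L.getD (2 * m + 1) []) : ℝ) : ℂ) * Complex.I‖
  | [], L, _ => by simp [KPL.errS]
  | e :: er, [], h => by simp at h
  | e :: er, [a], h => by
    simp only [List.length_cons, List.length_nil] at h
    omega
  | e :: er, a :: b :: L, h => by
    have h' : L.length = 2 * er.length := by
      simp only [List.length_cons] at h
      omega
    rw [KPL.errS, errS_eq w er L h', List.length_cons, Finset.sum_range_succ']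
    simp only [List.getD_cons_succ, List.getD_cons_zero, mul_zero, zero_add]
    rw [add_comm]
    congr 1

theorem chkS_ok {D : ND} (hS : 0 < D.G.S) {B : ℕ} (h : D.chkS B = true) (z : ℕ → ℂ) :
    ∑ m ∈ Finset.range D.h, ‖((iz (w3 (z 0) (z 1) (z 2)) (D.Q.getD (2 * m + 1) []) : ℝ) : ℂ)
        - ((iz (w3 (z 0) (z 1) (z 2)) (D.Q.getD (2 * m + 2) []) : ℝ) : ℂ) * Complex.I‖ * D.e (2 * m + 2)
        + B * nz z ≤ iz (w3 (z 0) (z 1) (z 2)) D.Ks := by
  unfold ND.chkS at h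
  split at h
  case h_2 => exact absurd h (by simp)
  case h_1 x y v hks =>
    have h1 := KPL.domG_ok (z 0) (z 1) (z 2) h
    have hl := domG_len h
    rw [errS_eq _ _ _ hl] at h1
    have hS' : (0 : ℝ) < D.G.S := by exact_mod_cast hS
    have hlen : ((List.range D.h).map fun m => D.en.getD (2 * m + 2) 0).length = D.h := by simp
    rw [hlen] at h1
    have hd : ∀ j, (D.Q.drop 1).getD j [] = D.Q.getD (j + 1) [] := fun j => by
      cases D.Q <;> simp
    have hg : ∀ m ∈ Finset.range D.h, (((List.range D.h).map fun m => D.en.getD (2 * m + 2) 0).getD m 0 : ℝ)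
        * ‖((iz (w3 (z 0) (z 1) (z 2)) ((D.Q.drop 1).getD (2 * m) []) : ℝ) : ℂ)
          - ((iz (w3 (z 0) (z 1) (z 2)) ((D.Q.drop 1).getD (2 * m + 1) []) : ℝ) : ℂ) * Complex.I‖
        = D.G.S * (‖((iz (w3 (z 0) (z 1) (z 2)) (D.Q.getD (2 * m + 1) []) : ℝ) : ℂ)
          - ((iz (w3 (z 0) (z 1) (z 2)) (D.Q.getD (2 * m + 2) []) : ℝ) : ℂ) * Complex.I‖ * D.e (2 * m + 2)) := by
      intro m hm
      have e1 : ((List.range D.h).map fun m => D.en.getD (2 * m + 2) 0).getD m 0 = D.en.getD (2 * m + 2) 0 :=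
        getD_ls _ _ _ (Finset.mem_range.1 hm)
      rw [e1, hd, hd]
      unfold ND.e
      push_cast
      field_simp
    rw [Finset.sum_congr rfl hg, ← Finset.mul_sum] at h1
    rw [hks]
    have e1 : iz (w3 (z 0) (z 1) (z 2)) [x, y, v, 0, 0, 0, 0, 0, 0]
        = x * ‖z 0‖ ^ 2 + y * ‖z 1‖ ^ 2 + v * ‖z 2‖ ^ 2 := by
      unfold w3
      rw [Complex.sq_norm, Complex.sq_norm, Complex.sq_norm]
      simp only [iz]
      push_cast
      ring
    rw [e1]
    refine le_of_mul_le_mul_left ?_ hS'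
    unfold nz ND.zS at *
    push_cast at h1
    linarith

/-- **the condition of the certificate bridge from Booleans** -/
theorem cert_of {D : ND} (c0 : D.Z.G.chk0 = true) (cs : D.Z.G.chkSl = true) (cG : D.Z.chkG = true)
    (cC : D.Z.chkC = true) {η : ℚ} (cT : D.G.chkR D.R η = true) {M : ℕ} (cM : D.chkM M η = true)
    {T : BRG.Tf} {Q : BRG.Qf} {Sc : ℚ} (hSc : 0 < Sc) {B : ℕ} (hNear : Near D.R D.C D.Q Sc B T Q)
    (cK : D.chkK = true) (cS : D.chkS B = true)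
    (hEng : ∀ z0 z1 z2 : ℂ, D.st.Good (w3 z0 z1 z2))
    {X : ℝ → ℝ} (hX : St D.Z.cd.s X) (hb : ∀ a, |X a| ≤ 0.62 * (D.Z.cd.s : ℝ)) (z : ℕ → ℂ) :
    0 ≤ (BRG.e2 z (vl va X e1) T + BRG.eq2 z (Zr 2 va X e1) Q).re := by
  simp only [ND.chkM, Bool.and_eq_true] at cM
  obtain ⟨m1, m2, m3, m4, m5⟩ := cM
  have hN1 : 1 < D.N := Nat.le_of_ble_eq_true m1
  have hS : 0 < D.G.S := Nat.le_of_ble_eq_true m3
  obtain ⟨k1, k2⟩ := chkK_ok cK
  exact cert (Nat.eq_of_beq_eq_true m2) hS (geo_of c0 cs cG cC hN1) cT (err_of m5) m4 hSc hNear k1 k2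
    (chkS_ok hS cS) hEng hX hb z

/-- the version for `R = 9` with helper87's expansion -/
theorem cert_of9 {D : ND} (h4 : D.h = 4) (c0 : D.Z.G.chk0 = true) (cs : D.Z.G.chkSl = true) (cG : D.Z.chkG = true)
    (cC : D.Z.chkC = true) {η : ℚ} (cT : D.G.chkR 9 η = true) {M : ℕ} (cM : D.chkM M η = true)
    {T : BRG.Tf} {Q : BRG.Qf} {Sc : ℚ} (hSc : 0 < Sc) (okt : NCA.okT T = true) (okq : NCA.okQ Q = true)
    (nT : nearT Sc (NCA.tT T) D.C = true) (nQ : nearR Sc (NCA.tQ Q) D.Q = true) (cK : D.chkK = true)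
    (cS : D.chkS 270 = true)
    (hEng : ∀ z0 z1 z2 : ℂ, D.st.Good (w3 z0 z1 z2))
    {X : ℝ → ℝ} (hX : St D.Z.cd.s X) (hb : ∀ a, |X a| ≤ 0.62 * (D.Z.cd.s : ℝ)) (z : ℕ → ℂ) :
    0 ≤ (BRG.e2 z (vl va X e1) T + BRG.eq2 z (Zr 2 va X e1) Q).re := by
  have hR : D.R = 9 := by
    unfold ND.R
    rw [h4]
  have hn : Near D.R D.C D.Q Sc 270 T Q := by
    rw [hR]
    exact near9 okt okq nT nQ
  rw [← hR] at cT
  exact cert_of c0 cs cG cC cT cM hSc hn cK cS hEng hX hb z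

end Pool.Agent.FPX.NCD
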