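import Mathlib
import Pool.Agent.FPX.MOF
import Pool.Agent.FPX.NCD

/-
MON (helper50): the modal certificate for the integer tables of the record of NCD: lists with integer coefficients read
off the tables, and the conclusion for every list compared with the tables by `NCD.Near`.
-/

set_option autoImplicit false

open Complex Finset
open scoped ComplexConjugate

noncomputable section

namespace Pool.Agent.FPX.MON

open Pool.Agent.FPX.ALX (St)
open Pool.Agent.FPX.BTN (va e1)
open BRG (Tf Qf Lf e2 eq2 ev vl Zr e2_nil e2_cons e2_append eq2_nil eq2_cons eq2_append ev_nil ev_cons)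
open Pool.Agent.FPX.PLK (iz w3)
open Pool.Agent.FPX.NCA (yv Zv)
open Pool.Agent.FPX.NCD (nz qC Near)
open Pool.Agent.FPX.MOB (Cd Sq)

/-! ### the linear forms `σ_k ε_k y_k z_a` -/

/-- `z_a`, `2 y_k z_a` (real part) or `2 i y_k z_a` (imaginary part) -/
def L (a : ℕ) : ℕ → Lf
  | 0 => [(1, a, 0)]
  | k + 1 => bif Nat.beq (Nat.mod k 2) 0 then [(1, a, Int.ofNat (Nat.add k 3)), (1, a, Int.negSucc (Nat.add k 2))]
    else [(1, a, Int.ofNat (Nat.add k 2)), (-1, a, Int.negSucc (Nat.add k 1))]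

/-- `1` for `y₀` and real parts, `I` for imaginary parts -/
def ep (k : ℕ) : ℂ := if k = 0 ∨ k % 2 = 1 then 1 else I

/-- `σ_k` -/
def sg : ℕ → ℤ
  | 0 => 1
  | _ + 1 => 2

variable {z : ℕ → ℂ} {u Z : ℤ → ℂ}

theorem ev_L (h0 : u 0 = 1) (hu : ∀ n, u (-n) = conj (u n)) (a k : ℕ) :
    ev z u (L a k) = (sg k : ℂ) * (ep k * (yv u k : ℂ)) * z a := by
  rcases k with _ | k
  · simp [L, sg, ep, yv, h0]
  · have hk : k % 2 = 0 ∨ k % 2 = 1 := by omega
    rcases hk with hk | hk
    · have e1 : L a (k + 1) = [(1, a, ((k : ℤ) + 3)), (1, a, -((k : ℤ) + 3))] := by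
        change (bif Nat.beq (k % 2) 0 then _ else _) = _
        rw [hk]
        change [((1 : ℚ), a, ((k + 3 : ℕ) : ℤ)), (1, a, Int.negSucc (k + 2))] = _
        rw [Int.negSucc_eq]
        push_cast
        rfl
      have e2 : yv u (k + 1) = (u ((k : ℤ) + 3)).re := by
        unfold yv
        rw [if_neg (by omega), if_pos (by omega)]
        congr 2
      have e3 : ep (k + 1) = 1 := if_pos (Or.inr (by omega))
      rw [e1, e2, e3]
      simp only [ev_cons, ev_nil, hu, sg]
      apply Complex.ext <;> simp <;> ring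
    · have e1 : L a (k + 1) = [(1, a, ((k : ℤ) + 2)), (-1, a, -((k : ℤ) + 2))] := by
        change (bif Nat.beq (k % 2) 0 then _ else _) = _
        rw [hk]
        change [((1 : ℚ), a, ((k + 2 : ℕ) : ℤ)), (-1, a, Int.negSucc (k + 1))] = _
        rw [Int.negSucc_eq]
        push_cast
        rfl
      have e2 : yv u (k + 1) = (u ((k : ℤ) + 2)).im := by
        unfold yv
        rw [if_neg (by omega), if_neg (by omega)]
        congr 2
      have e3 : ep (k + 1) = I := if_neg (by omega)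
      rw [e1, e2, e3]
      simp only [ev_cons, ev_nil, hu, sg]
      apply Complex.ext <;> simp <;> ring

/-! ### one entry of the table -/

/-- same parity type -/
def entS (s : ℤ) (k l : ℕ) : List ℤ → Tf
  | [a, b, c, d, _, f, _, g, _] =>
    [(Int.mul s a, L 0 k, L 0 l), (Int.mul s b, L 1 k, L 1 l), (Int.mul s c, L 2 k, L 2 l),
     (Int.mul (Int.mul 2 s) d, L 0 k, L 1 l), (Int.mul (Int.mul 2 s) f, L 0 k, L 2 l),
     (Int.mul (Int.mul 2 s) g, L 1 k, L 2 l)]
  | _ => []

/-- different parity types -/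
def entM (s : ℤ) (k l : ℕ) : List ℤ → Tf
  | [_, _, _, _, d, _, f, _, g] =>
    [(Int.mul (Int.mul 2 s) d, L 0 k, L 1 l), (Int.mul (Int.mul 2 s) f, L 0 k, L 2 l),
     (Int.mul (Int.mul 2 s) g, L 1 k, L 2 l)]
  | _ => []

/-- the zero entries -/
def okS : List ℤ → Bool
  | [_, _, _, _, d, _, f, _, g] => (decide (d = 0)) && ((decide (f = 0)) && (decide (g = 0)))
  | _ => false

def okM : List ℤ → Bool
  | [a, b, c, d, _, f, _, g, _] => (decide (a = 0)) && ((decide (b = 0)) && ((decide (c = 0)) && ((decide (d = 0))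
    && ((decide (f = 0)) && (decide (g = 0))))))
  | _ => false

theorem e2_single (s : ℤ) (l l' : Lf) (T : Tf) :
    (e2 z u ((((s : ℤ) : ℚ), l, l') :: T)).re = s * (ev z u l * conj (ev z u l')).re + (e2 z u T).re := by
  rw [e2_cons, Complex.add_re]
  congr 1
  have : (((s : ℤ) : ℚ) : ℂ) = (((s : ℤ) : ℝ) : ℂ) := by push_cast; rfl
  rw [this, Complex.re_ofReal_mul]

theorem sg_pos (k : ℕ) : (0 : ℝ) < sg k := by
  cases k <;> norm_num [sg]

/-- the product of two basic forms -/
theorem prod_re (h0 : u 0 = 1) (hu : ∀ n, u (-n) = conj (u n)) (a b k l : ℕ) :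
    (ev z u (L a k) * conj (ev z u (L b l))).re
      = sg k * sg l * (yv u k * yv u l) * (ep k * conj (ep l) * (z a * conj (z b))).re := by
  rw [ev_L h0 hu, ev_L h0 hu]
  have : (sg k : ℂ) * (ep k * (yv u k : ℂ)) * z a * conj ((sg l : ℂ) * (ep l * (yv u l : ℂ)) * z b)
      = ((sg k * sg l * (yv u k * yv u l) : ℝ) : ℂ) * (ep k * conj (ep l) * (z a * conj (z b))) := by
    simp only [map_mul, Complex.conj_ofReal, map_intCast]
    push_cast
    ring
  rw [this, Complex.re_ofReal_mul]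

/-- same type: `k`, `l` both real parts or both imaginary parts -/
def ty (k : ℕ) : Bool := Nat.beq k 0 || Nat.beq (Nat.mod k 2) 1

theorem ep_ty (k : ℕ) : ep k = if ty k = true then 1 else I := by
  unfold ep ty
  simp only [Bool.or_eq_true, Nat.beq_eq]
  rfl

theorem entS_ev (h0 : u 0 = 1) (hu : ∀ n, u (-n) = conj (u n)) {k l : ℕ} (he : ty k = ty l) (s : ℤ) {h : List ℤ}
    (hh : okS h = true) : (e2 z u (entS s k l h)).re
      = s * sg k * sg l * (iz (w3 (z 0) (z 1) (z 2)) h * (yv u k * yv u l)) := by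
  have hp : ∀ a b, (ev z u (L a k) * conj (ev z u (L b l))).re
      = sg k * sg l * (yv u k * yv u l) * ((z a).re * (z b).re + (z a).im * (z b).im) := by
    intro a b
    rw [prod_re h0 hu]
    congr 1
    have : ep k * conj (ep l) = 1 := by
      rw [ep_ty, ep_ty, he]
      split_ifs <;> simp
    rw [this]
    simp
  unfold okS at hh
  split at hh
  · rename_i a b c d x f x' g x''
    simp only [Bool.and_eq_true, decide_eq_true_eq] at hh
    obtain ⟨rfl, rfl, rfl⟩ := hh
    simp only [entS, e2_single, e2_nil, hp, iz, w3, Complex.normSq_apply, Complex.zero_re, Complex.mul_re, Complex.mul_im,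
      Complex.conj_re, Complex.conj_im]
    simp only [Int.mul_def]
    push_cast
    ring
  · exact absurd hh (by simp)

/-- the sign of the mixed case -/
def sm (k : ℕ) (s : ℤ) : ℤ := bif ty k then s else Int.neg s

theorem entM_ev (h0 : u 0 = 1) (hu : ∀ n, u (-n) = conj (u n)) {k l : ℕ} (he : ty k = !(ty l)) (s : ℤ) {h : List ℤ}
    (hh : okM h = true) : (e2 z u (entM (sm k s) k l h)).re
      = s * sg k * sg l * (iz (w3 (z 0) (z 1) (z 2)) h * (yv u k * yv u l)) := by
  have hp : ∀ a b, (sm k s : ℝ) * (ev z u (L a k) * conj (ev z u (L b l))).re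
      = s * (sg k * sg l * (yv u k * yv u l) * ((z a).im * (z b).re - (z a).re * (z b).im)) := by
    intro a b
    rw [prod_re h0 hu]
    cases hk : ty k
    · have hl : ty l = true := by
        rw [hk] at he
        cases h : ty l
        · rw [h] at he
          exact absurd he (by simp)
        · rfl
      have e1 : ep k = I := by rw [ep_ty, hk, if_neg (by simp)]
      have e2 : ep l = 1 := by rw [ep_ty, hl, if_pos rfl]
      have e3 : sm k s = -s := by unfold sm; rw [hk]; rfl
      have e4 : (I * conj (1 : ℂ) * (z a * conj (z b))).re = -((z a).im * (z b).re - (z a).re * (z b).im) := by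
        simp only [map_one, mul_one, Complex.mul_re, Complex.mul_im, Complex.I_re, Complex.I_im, Complex.conj_re,
          Complex.conj_im]
        ring
      rw [e1, e2, e3, e4]
      push_cast
      ring
    · have hl : ty l = false := by
        rw [hk] at he
        cases h : ty l
        · rfl
        · rw [h] at he
          exact absurd he (by simp)
      have e1 : ep k = 1 := by rw [ep_ty, hk, if_pos rfl]
      have e2 : ep l = I := by rw [ep_ty, hl, if_neg (by simp)]
      have e3 : sm k s = s := by unfold sm; rw [hk]; rfl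
      have e4 : (1 * conj I * (z a * conj (z b))).re = (z a).im * (z b).re - (z a).re * (z b).im := by
        simp only [one_mul, Complex.mul_re, Complex.mul_im, Complex.I_re, Complex.I_im, Complex.conj_re,
          Complex.conj_im]
        ring
      rw [e1, e2, e3, e4]
  unfold okM at hh
  split at hh
  · rename_i a b c d x f x' g x''
    simp only [Bool.and_eq_true, decide_eq_true_eq] at hh
    obtain ⟨rfl, rfl, rfl, rfl, rfl, rfl⟩ := hh
    have hp' : ∀ (t : ℤ) (a b : ℕ), ((Int.mul (Int.mul 2 (sm k s)) t : ℤ) : ℝ) * (ev z u (L a k) * conj (ev z u (L b l))).re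
        = 2 * t * (s * (sg k * sg l * (yv u k * yv u l) * ((z a).im * (z b).re - (z a).re * (z b).im))) := by
      intro t a b
      rw [← hp a b]
      simp only [Int.mul_def]
      push_cast
      ring
    simp only [entM, e2_single, e2_nil, hp', Complex.zero_re]
    simp only [iz, w3, Complex.normSq_apply, Complex.mul_re, Complex.mul_im, Complex.conj_re, Complex.conj_im]
    push_cast
    ring
  · exact absurd hh (by simp)

/-! ### the table -/

/-- `4 / (σ_k σ_l)` -/
def sf : ℕ → ℕ → ℤ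
  | 0, 0 => 4
  | 0, _ + 1 => 2
  | _ + 1, 0 => 2
  | _ + 1, _ + 1 => 1

theorem sf_eq (k l : ℕ) : ((sf k l : ℤ) : ℝ) * sg k * sg l = 4 := by
  cases k <;> cases l <;> norm_num [sf, sg]

def ent (k l : ℕ) (h : List ℤ) : Tf :=
  bif ty k == ty l then entS (sf k l) k l h else entM (sm k (sf k l)) k l h

def okE (k l : ℕ) (h : List ℤ) : Bool := bif ty k == ty l then okS h else okM h

theorem ent_ev (h0 : u 0 = 1) (hu : ∀ n, u (-n) = conj (u n)) {k l : ℕ} {h : List ℤ} (hh : okE k l h = true) :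
    (e2 z u (ent k l h)).re = 4 * (iz (w3 (z 0) (z 1) (z 2)) h * (yv u k * yv u l)) := by
  unfold ent
  unfold okE at hh
  cases hb : (ty k == ty l)
  · rw [hb, cond_false] at hh
    rw [cond_false, entM_ev h0 hu (by cases h1 : ty k <;> cases h2 : ty l <;> simp_all) _ hh, sf_eq]
  · rw [hb, cond_true] at hh
    rw [cond_true, entS_ev h0 hu (eq_of_beq hb) _ hh, sf_eq]

/-- row `k`, from the column `l` on -/
def rowT (k : ℕ) : ℕ → List (List ℤ) → Tf
  | _, [] => []
  | l, h :: r => ent k l h ++ rowT k (Nat.succ l) r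

def okR (k : ℕ) : ℕ → List (List ℤ) → Bool
  | _, [] => true
  | l, h :: r => okE k l h && okR k (Nat.succ l) r

theorem rowT_ev (h0 : u 0 = 1) (hu : ∀ n, u (-n) = conj (u n)) (k : ℕ) : ∀ (l : ℕ) (r : List (List ℤ)),
    okR k l r = true → (e2 z u (rowT k l r)).re
      = 4 * ∑ j ∈ range r.length, iz (w3 (z 0) (z 1) (z 2)) (r.getD j []) * (yv u k * yv u (l + j))
  | l, [], _ => by simp [rowT]
  | l, h :: r, hh => by
    simp only [okR, Bool.and_eq_true] at hh
    have ih := rowT_ev h0 hu k (l + 1) r hh.2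
    rw [rowT, e2_append, Complex.add_re, ent_ev h0 hu hh.1, ih, List.length_cons, Finset.sum_range_succ']
    simp only [List.getD_cons_zero, List.getD_cons_succ, add_zero, mul_add]
    rw [add_comm]
    congr 1
    congr 1
    refine Finset.sum_congr rfl fun j _ => ?_
    rw [show l + 1 + j = l + (j + 1) by ring]

/-- the rows from `k` on -/
def tabT : ℕ → List (List (List ℤ)) → Tf
  | _, [] => []
  | k, r :: C => rowT k k r ++ tabT (Nat.succ k) C

/-- the shape and the zero entries, `n` rows to come -/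
def okC : ℕ → ℕ → List (List (List ℤ)) → Bool
  | 0, _, [] => true
  | n + 1, k, r :: C => Nat.beq r.length (Nat.succ n) && (okR k k r && okC n (Nat.succ k) C)
  | _, _, _ => false

theorem tabT_ev (h0 : u 0 = 1) (hu : ∀ n, u (-n) = conj (u n)) : ∀ (n k : ℕ) (C : List (List (List ℤ))),
    okC n k C = true → (e2 z u (tabT k C)).re
      = 4 * ∑ i ∈ range n, ∑ j ∈ range (n - i), iz (w3 (z 0) (z 1) (z 2)) ((C.getD i []).getD j [])
        * (yv u (k + i) * yv u (k + i + j))
  | 0, k, [], _ => by simp [tabT]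
  | n + 1, k, r :: C, hh => by
    simp only [okC, Bool.and_eq_true] at hh
    obtain ⟨h1, h2, h3⟩ := hh
    have ih := tabT_ev h0 hu n (k + 1) C h3
    have h1' : r.length = n + 1 := Nat.eq_of_beq_eq_true h1
    rw [tabT, e2_append, Complex.add_re, rowT_ev h0 hu k k r h2, ih, Finset.sum_range_succ', h1']
    simp only [List.getD_cons_zero, List.getD_cons_succ, add_zero, mul_add, Nat.sub_zero]
    rw [add_comm]
    congr 1
    congr 1
    refine Finset.sum_congr rfl fun i _ => ?_
    rw [show n + 1 - (i + 1) = n - i by omega]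
    refine Finset.sum_congr rfl fun j _ => ?_
    rw [show k + 1 + i = k + (i + 1) by ring]
  | 0, k, r :: C, hh => by simp [okC] at hh
  | n + 1, k, [], hh => by simp [okC] at hh

/-- the term of the tolerance -/
def bT (B : ℕ) : Tf :=
  [(Int.neg (Int.ofNat (Nat.mul 4 B)), L 0 0, L 0 0), (Int.neg (Int.ofNat (Nat.mul 4 B)), L 1 0, L 1 0),
   (Int.neg (Int.ofNat (Nat.mul 4 B)), L 2 0, L 2 0)]

theorem bT_ev (h0 : u 0 = 1) (B : ℕ) : (e2 z u (bT B)).re = 4 * (-(B * nz z)) := by
  have e : ∀ a, (ev z u (L a 0) * conj (ev z u (L a 0))).re = ‖z a‖ ^ 2 := by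
    intro a
    have : ev z u (L a 0) = z a := by simp [L, h0]
    rw [this, Complex.mul_conj, Complex.normSq_eq_norm_sq, Complex.ofReal_re]
  have e' : ((Int.neg (Int.ofNat (Nat.mul 4 B)) : ℤ) : ℝ) = -(4 * B) := by
    change (((-((4 * B : ℕ) : ℤ)) : ℤ) : ℝ) = _
    push_cast
    ring
  unfold bT nz
  simp only [e2_single, e2_nil, e, e', Complex.zero_re]
  ring

/-- **the list of the table** -/
def tf (C : List (List (List ℤ))) (B : ℕ) : Tf := bT B ++ tabT 0 C

theorem tf_ev {R : ℕ} {C : List (List (List ℤ))} {B : ℕ} (h0 : u 0 = 1) (hu : ∀ n, u (-n) = conj (u n))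
    (hC : okC R 0 C = true) :
    (e2 z u (tf C B)).re = 4 * (qC R (w3 (z 0) (z 1) (z 2)) C (yv u) - B * nz z) := by
  unfold tf qC
  rw [e2_append, Complex.add_re, tabT_ev h0 hu R 0 C hC, bT_ev h0]
  simp only [zero_add]
  ring

/-! ### the symbol -/

def qS : ℕ → List ℤ → Qf
  | 0, [a, b, c, d, _, f, _, g, _] =>
    [(Int.mul 4 a, 0, 0, 0), (Int.mul 4 b, 1, 1, 0), (Int.mul 4 c, 2, 2, 0), (Int.mul 8 d, 0, 1, 0), (Int.mul 8 f, 0, 2, 0),
     (Int.mul 8 g, 1, 2, 0)]
  | k + 1, [a, b, c, d, _, f, _, g, _] =>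
    [(Int.mul 2 a, 0, 0, Int.ofNat (Nat.add k 2)), (Int.mul 2 a, 0, 0, Int.negSucc (Nat.add k 1)),
     (Int.mul 2 b, 1, 1, Int.ofNat (Nat.add k 2)), (Int.mul 2 b, 1, 1, Int.negSucc (Nat.add k 1)),
     (Int.mul 2 c, 2, 2, Int.ofNat (Nat.add k 2)), (Int.mul 2 c, 2, 2, Int.negSucc (Nat.add k 1)),
     (Int.mul 4 d, 0, 1, Int.ofNat (Nat.add k 2)), (Int.mul 4 d, 0, 1, Int.negSucc (Nat.add k 1)),
     (Int.mul 4 f, 0, 2, Int.ofNat (Nat.add k 2)), (Int.mul 4 f, 0, 2, Int.negSucc (Nat.add k 1)),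
     (Int.mul 4 g, 1, 2, Int.ofNat (Nat.add k 2)), (Int.mul 4 g, 1, 2, Int.negSucc (Nat.add k 1))]
  | _, _ => []

/-- index `k = k' + 1` even, mode `k` -/
def qM : ℕ → List ℤ → Qf
  | k + 1, [_, _, _, _, d, _, f, _, g] =>
    [(Int.mul (-4) d, 0, 1, Int.ofNat (Nat.add k 1)), (Int.mul 4 d, 0, 1, Int.negSucc k),
     (Int.mul (-4) f, 0, 2, Int.ofNat (Nat.add k 1)), (Int.mul 4 f, 0, 2, Int.negSucc k),
     (Int.mul (-4) g, 1, 2, Int.ofNat (Nat.add k 1)), (Int.mul 4 g, 1, 2, Int.negSucc k)]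
  | _, _ => []

theorem eq2_single (s : ℤ) (a b : ℕ) (n : ℤ) (T : Qf) :
    (eq2 z Z ((((s : ℤ) : ℚ), a, b, n) :: T)).re = s * (z a * conj (z b) * Z n).re + (eq2 z Z T).re := by
  rw [eq2_cons, Complex.add_re]
  congr 1
  have : (((s : ℤ) : ℚ) : ℂ) = (((s : ℤ) : ℝ) : ℂ) := by push_cast; rfl
  rw [this, Complex.re_ofReal_mul]

theorem qS_ev (hZ : ∀ n, Z (-n) = conj (Z n)) {k : ℕ} (hk : ty k = true) {h : List ℤ} (hh : okS h = true) :
    (eq2 z Z (qS k h)).re = 4 * (iz (w3 (z 0) (z 1) (z 2)) h * Zv Z k) := by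
  have hi : (Z 0).im = 0 := by
    have := congrArg Complex.im (hZ 0)
    rw [neg_zero, Complex.conj_im] at this
    linarith
  unfold okS at hh
  split at hh
  · rename_i a b c d x f x' g x''
    simp only [Bool.and_eq_true, decide_eq_true_eq] at hh
    obtain ⟨rfl, rfl, rfl⟩ := hh
    rcases k with _ | k
    · simp only [qS, eq2_single, eq2_nil, iz, w3, Complex.normSq_apply, Complex.zero_re, Complex.mul_re, Complex.mul_im,
        Complex.conj_re, Complex.conj_im, hi, Zv, if_true]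
      simp only [Int.mul_def]
      push_cast
      ring
    · have hk' : (k + 1) % 2 = 1 := by
        unfold ty at hk
        simp only [Bool.or_eq_true, Nat.beq_eq] at hk
        rcases hk with hk | hk
        · omega
        · exact hk
      have e1 : Zv Z (k + 1) = (Z ((k : ℤ) + 2)).re := by
        unfold Zv
        rw [if_neg (by omega), if_pos hk']
        congr 2
      have e2 : (Int.ofNat (Nat.add k 2) : ℤ) = (k : ℤ) + 2 := rfl
      have e3 : (Int.negSucc (Nat.add k 1) : ℤ) = -((k : ℤ) + 2) := by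
        change Int.negSucc (k + 1) = _
        rw [Int.negSucc_eq]
        push_cast
        ring
      simp only [qS, eq2_single, eq2_nil, iz, w3, Complex.normSq_apply, Complex.zero_re, e1, e2, e3, hZ]
      simp only [Complex.mul_re, Complex.mul_im, Complex.conj_re, Complex.conj_im, Int.mul_def]
      push_cast
      ring
  · exact absurd hh (by simp)

theorem qM_ev (hZ : ∀ n, Z (-n) = conj (Z n)) {k : ℕ} (hk : ty k = false) {h : List ℤ} (hh : okM h = true) :
    (eq2 z Z (qM k h)).re = 4 * (iz (w3 (z 0) (z 1) (z 2)) h * Zv Z k) := by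
  unfold okM at hh
  split at hh
  · rename_i a b c d x f x' g x''
    simp only [Bool.and_eq_true, decide_eq_true_eq] at hh
    obtain ⟨rfl, rfl, rfl, rfl, rfl, rfl⟩ := hh
    rcases k with _ | k
    · exact absurd hk (by decide)
    · have hk' : ¬ (k + 1) % 2 = 1 := by
        unfold ty at hk
        simp only [Bool.or_eq_false_iff] at hk
        intro h
        have := hk.2
        change Nat.beq ((k + 1) % 2) 1 = false at this
        rw [h] at this
        exact absurd this (by decide)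
      have e1 : Zv Z (k + 1) = (Z ((k : ℤ) + 1)).im := by
        unfold Zv
        rw [if_neg (by omega), if_neg hk']
        congr 2
      have e2 : (Int.ofNat (Nat.add k 1) : ℤ) = (k : ℤ) + 1 := rfl
      have e3 : (Int.negSucc k : ℤ) = -((k : ℤ) + 1) := by
        rw [Int.negSucc_eq]
      simp only [qM, eq2_single, eq2_nil, iz, w3, Complex.normSq_apply, Complex.zero_re, e1, e2, e3, hZ]
      simp only [Complex.mul_re, Complex.mul_im, Complex.conj_re, Complex.conj_im, Int.mul_def]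
      push_cast
      ring
  · exact absurd hh (by simp)

def qent (k : ℕ) (h : List ℤ) : Qf := bif ty k then qS k h else qM k h

def okQe (k : ℕ) (h : List ℤ) : Bool := bif ty k then okS h else okM h

theorem qent_ev (hZ : ∀ n, Z (-n) = conj (Z n)) {k : ℕ} {h : List ℤ} (hh : okQe k h = true) :
    (eq2 z Z (qent k h)).re = 4 * (iz (w3 (z 0) (z 1) (z 2)) h * Zv Z k) := by
  unfold qent
  unfold okQe at hh
  cases hb : ty k
  · rw [hb, cond_false] at hh
    rw [cond_false, qM_ev hZ hb hh]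
  · rw [hb, cond_true] at hh
    rw [cond_true, qS_ev hZ hb hh]

/-- **the list of the symbol** -/
def qfR : ℕ → List (List ℤ) → Qf
  | _, [] => []
  | k, h :: r => qent k h ++ qfR (Nat.succ k) r

def okQR : ℕ → List (List ℤ) → Bool
  | _, [] => true
  | k, h :: r => okQe k h && okQR (Nat.succ k) r

theorem qfR_ev (hZ : ∀ n, Z (-n) = conj (Z n)) : ∀ (k : ℕ) (r : List (List ℤ)), okQR k r = true →
    (eq2 z Z (qfR k r)).re = 4 * ∑ j ∈ range r.length, iz (w3 (z 0) (z 1) (z 2)) (r.getD j []) * Zv Z (k + j)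
  | k, [], _ => by simp [qfR]
  | k, h :: r, hh => by
    simp only [okQR, Bool.and_eq_true] at hh
    have ih := qfR_ev hZ (k + 1) r hh.2
    rw [qfR, eq2_append, Complex.add_re, qent_ev hZ hh.1, ih, List.length_cons, Finset.sum_range_succ']
    simp only [List.getD_cons_zero, List.getD_cons_succ, add_zero, mul_add]
    rw [add_comm]
    congr 1
    congr 1
    refine Finset.sum_congr rfl fun j _ => ?_
    rw [show k + 1 + j = k + (j + 1) by ring]

/-- the check of the tables -/
def ok (R : ℕ) (C : List (List (List ℤ))) (Qm : List (List ℤ)) : Bool :=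
  okC R 0 C && (Nat.beq Qm.length R && okQR 0 Qm)

/-- **positivity of the lists of the tables gives positivity of every list near the tables** -/
theorem of_near {R : ℕ} {C : List (List (List ℤ))} {Qm : List (List ℤ)} (hC : ok R C Qm = true) {Sc : ℚ} (hSc : 0 < Sc)
    {B : ℕ} {T : Tf} {Q : Qf} (hN : Near R C Qm Sc B T Q) (h0 : u 0 = 1) (hu : ∀ n, u (-n) = conj (u n))
    (hZ : ∀ n, Z (-n) = conj (Z n)) (bu : ∀ n, ‖u n‖ ≤ 1) (bZ : ∀ n, ‖Z n‖ ≤ 1) {z : ℕ → ℂ}
    (hp : 0 ≤ (e2 z u (tf C B) + eq2 z Z (qfR 0 Qm)).re) : 0 ≤ (e2 z u T + eq2 z Z Q).re := by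
  simp only [ok, Bool.and_eq_true] at hC
  obtain ⟨h1, h2, h3⟩ := hC
  have h2' : Qm.length = R := Nat.eq_of_beq_eq_true h2
  rw [Complex.add_re, tf_ev h0 hu h1, qfR_ev hZ 0 Qm h3, h2'] at hp
  simp only [zero_add] at hp
  have hn := hN z u Z h0 hu hZ bu bZ
  have hSc' : (0 : ℝ) < Sc := by exact_mod_cast hSc
  refine nonneg_of_mul_nonneg_right ?_ hSc'
  linarith

/-! ### the modal certificate -/

variable {D : Cd} {n1 nF bL lam bK kap tau Xb b h K ε nε : ℕ}
  {Fl K00 K11 K22 R01 I01 R02 I02 R12 I12 G0 G1 G2 : List ℕ} {w D1 D2 wq D3 : ℕ} {s : ℝ} {X : ℝ → ℝ}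

/-- **without products** -/
theorem of0 (ht : D.hdr = true) (hm : D.m = 3) (hn : n1 + 1 = D.N)
    (hc : PSD3.chk n1 0 bL lam bK kap tau Xb b h K ε nε Fl K00 K11 K22 R01 I01 R02 I02 R12 I12 G0 G1 G2 D.S = true)
    {R : ℕ} {C : List (List (List ℤ))} {Qm : List (List ℤ)} {B : ℕ} (hC : ok R C Qm = true)
    (hk : MOT.chk D w D1 D2 wq D3 (tf C B) (qfR 0 Qm) = true)
    {Sc : ℚ} (hSc : 0 < Sc) {T : Tf} {Q : Qf} (hN : Near R C Qm Sc B T Q)
    (hX : St s X) (h0 : 0 ≤ s) (hs : s ≤ D.sn / D.h) (hb : ∀ a, |X a| ≤ 1) (z : ℕ → ℂ) :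
    0 ≤ (e2 z (vl va X e1) T + eq2 z (Zr 2 va X e1) Q).re := by
  have H := BRG.fr_va hX hb
  exact of_near hC hSc hN (by simp [vl]) (fun n => H.vl_neg n) (fun n => H.zc 2 n) (NCD.norm_vl hb) (NCD.norm_Zr hb 2)
    (MOF.of0 ht hm hn hc hk hX h0 hs hb z)

/-- **with the products of a family of squares** -/
theorem ofS (S : Sq) (ht : D.hdr = true) (hm : D.m = 3) (hn : n1 + 1 = D.N) (hQ : S.DP + 1 ≤ 2 * D.N)
    (hA : S.okA nF = true) (hF : S.okF D.sn D.h bL lam nF 0 Fl = true)
    (hc : PSD3.chk n1 nF bL lam bK kap tau Xb b h K ε nε Fl K00 K11 K22 R01 I01 R02 I02 R12 I12 G0 G1 G2 D.S = true)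
    {R : ℕ} {C : List (List (List ℤ))} {Qm : List (List ℤ)} {B : ℕ} (hC : ok R C Qm = true)
    (hk : MOT.chk D w D1 D2 wq D3 (tf C B) (qfR 0 Qm) = true)
    {Sc : ℚ} (hSc : 0 < Sc) {T : Tf} {Q : Qf} (hN : Near R C Qm Sc B T Q)
    (hX : St s X) (h0 : 0 ≤ s) (hs : s ≤ D.sn / D.h) (hb : ∀ a, |X a| ≤ 1) (z : ℕ → ℂ) :
    0 ≤ (e2 z (vl va X e1) T + eq2 z (Zr 2 va X e1) Q).re := by
  have H := BRG.fr_va hX hb
  exact of_near hC hSc hN (by simp [vl]) (fun n => H.vl_neg n) (fun n => H.zc 2 n) (NCD.norm_vl hb) (NCD.norm_Zr hb 2)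
    (MOF.ofS S ht hm hn hQ hA hF hc hk hX h0 hs hb z)

end Pool.Agent.FPX.MON
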