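import Mathlib
import Pool.Agent.FPX.NCN

/-
NCK (helper19): the table of a list of rank one terms (`BRG.Tf`, any number of components, the components `z₃, z₄, …` only
in the mode `0`) in integers: all monomials are packed in one natural number, the free components are removed by
explicit squares, the nine numbers of every product `y_k y_l` are compared with integers.
-/

set_option autoImplicit false

open Complex Finset
open scoped ComplexConjugate

noncomputable section

namespace Pool.Agent.FPX.NCK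

open BRG (Lf Tf)
open NCA (Sg yv H9)

/-! ### forced numbers -/

def frN {α : Type} (n : ℕ) (k : ℕ → α) : α :=
  match n with
  | 0 => k 0
  | m + 1 => k (m + 1)

theorem frN_eq {α : Type} (n : ℕ) (k : ℕ → α) : frN n k = k n := by cases n <;> rfl

def frZ {α : Type} (z : ℤ) (k : ℤ → α) : α :=
  match z with
  | .ofNat n => frN n fun n => k (.ofNat n)
  | .negSucc n => frN n fun n => k (.negSucc n)

theorem frZ_eq {α : Type} (z : ℤ) (k : ℤ → α) : frZ z k = k z := by
  cases z <;> simp only [frZ, frN_eq]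

/-- the integer `D q` -/
def entK (D : ℕ) (q : ℚ) (k : ℤ → Bool) : Bool :=
  match q with
  | ⟨num, den, _, _⟩ =>
    match Nat.beq (D % den) 0 with
    | true => frZ (Int.mul num (Int.ofNat (D / den))) k
    | false => false

theorem entK_ok {D : ℕ} {q : ℚ} {k : ℤ → Bool} (h : entK D q k = true) : ∃ m : ℤ, k m = true ∧ (m : ℝ) = D * (q : ℝ) := by
  obtain ⟨num, den, hd, hc⟩ := q
  unfold entK at h
  simp only at h
  split at h
  · rename_i hb
    rw [frZ_eq] at h
    refine ⟨_, h, ?_⟩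
    have h1 : D % den = 0 := Nat.eq_of_beq_eq_true hb
    have h2 : den * (D / den) = D := Nat.mul_div_cancel' (Nat.dvd_of_mod_eq_zero h1)
    have h3 : ((den : ℕ) : ℝ) ≠ 0 := by exact_mod_cast hd
    have e : (((Rat.mk' num den hd hc : ℚ)) : ℝ) = (num : ℝ) / den := by
      rw [Rat.cast_def]
    rw [e, show Int.mul num (Int.ofNat (D / den)) = num * ((D / den : ℕ) : ℤ) from rfl]
    have h4 : (D : ℝ) = den * ((D / den : ℕ) : ℝ) := by exact_mod_cast h2.symm
    rw [h4]
    generalize D / den = t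
    push_cast
    field_simp
  · exact absurd h (by simp)

/-! ### the basis -/

/-- `1` for `y₀` and real parts, `I` for imaginary parts -/
def ep (k : ℕ) : ℂ := if k = 0 ∨ k % 2 = 1 then 1 else I

/-- the basis: `z_a ε_k y_k` at `3 k + a`, then the free components -/
def bas (R : ℕ) (z : ℕ → ℂ) (u : ℤ → ℂ) (i : ℕ) : ℂ :=
  if i < 3 * R then z (i % 3) * (ep (i / 3) * (yv u (i / 3) : ℂ)) else z (i - 3 * R + 3)

theorem bas_lt {R a j : ℕ} (ha : a < 3) (hj : j < R) (z : ℕ → ℂ) (u : ℤ → ℂ) :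
    bas R z u (3 * j + a) = z a * (ep j * (yv u j : ℂ)) := by
  unfold bas
  rw [if_pos (by omega)]
  have h1 : (3 * j + a) % 3 = a := by omega
  have h2 : (3 * j + a) / 3 = j := by omega
  rw [h1, h2]

theorem bas_ge {R a : ℕ} (ha : 3 ≤ a) (z : ℕ → ℂ) (u : ℤ → ℂ) : bas R z u (3 * R + (a - 3)) = z a := by
  unfold bas
  rw [if_neg (by omega)]
  congr 1
  omega

/-- the index of `z_a u_n` and the sign of the imaginary part -/
def ixK (R E a : ℕ) (n : ℤ) (k : ℕ → Sg → Bool) : Bool :=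
  match n with
  | .ofNat 0 =>
    match Nat.ble a 2 with
    | true => k a .z
    | false =>
      match Nat.ble (a + 1) (E + 3) with
      | true => frN (3 * R + (a - 3)) fun i => k i .z
      | false => false
  | .ofNat (m + 1) =>
    match Nat.ble a 2 && (Nat.beq (m % 2) 0 && (Nat.ble 2 m && Nat.ble (m + 1) R)) with
    | true => frN (3 * (m - 1) + a) fun i => k i .p
    | false => false
  | .negSucc m =>
    match Nat.ble a 2 && (Nat.beq (m % 2) 0 && (Nat.ble 2 m && Nat.ble (m + 1) R)) with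
    | true => frN (3 * (m - 1) + a) fun i => k i .n
    | false => false

theorem ixK_ok {R E a : ℕ} {n : ℤ} {k : ℕ → Sg → Bool} (hR : 1 ≤ R) (h : ixK R E a n k = true) :
    ∃ (i : ℕ) (s : Sg), k i s = true ∧ i < 3 * R + E ∧ (s = .z ∨ i + 3 < 3 * R + E) ∧
      ∀ (z : ℕ → ℂ) (u : ℤ → ℂ), u 0 = 1 → (∀ n, u (-n) = conj (u n)) →
        z a * u n = bas R z u i + (s.r : ℂ) * bas R z u (i + 3) := by
  have key : ∀ m : ℕ, (Nat.ble a 2 && (Nat.beq (m % 2) 0 && (Nat.ble 2 m && Nat.ble (m + 1) R))) = true →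
      3 * (m - 1) + a + 3 < 3 * R + E ∧ ∀ (z : ℕ → ℂ) (u : ℤ → ℂ), z a * u ((m : ℤ) + 1) =
        bas R z u (3 * (m - 1) + a) + bas R z u (3 * (m - 1) + a + 3) := by
    intro m hm
    simp only [Bool.and_eq_true, Nat.ble_eq] at hm
    obtain ⟨h1, h2, h3, h4⟩ := hm
    have h2 : m % 2 = 0 := Nat.eq_of_beq_eq_true h2
    refine ⟨by omega, fun z u => ?_⟩
    have e1 : 3 * (m - 1) + a + 3 = 3 * m + a := by omega
    rw [e1, bas_lt (a := a) (j := m - 1) (by omega) (by omega), bas_lt (a := a) (j := m) (by omega) (by omega), ← mul_add]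
    congr 1
    unfold ep yv
    have o1 : (m - 1) % 2 = 1 := by omega
    have o2 : m - 1 ≠ 0 := by omega
    have o3 : m ≠ 0 := by omega
    have o4 : ¬ (m % 2 = 1) := by omega
    have c1 : ((m - 1 : ℕ) : ℤ) + 2 = (m : ℤ) + 1 := by omega
    rw [if_pos (Or.inr o1), if_neg o2, if_pos o1, if_neg (by simp [o3, o4]), if_neg o3, if_neg o4, one_mul, c1, mul_comm I]
    exact (Complex.re_add_im _).symm
  unfold ixK at h
  split at h
  · split at h
    · rename_i hb
      have ha : a ≤ 2 := Nat.le_of_ble_eq_true hb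
      refine ⟨a, .z, h, by omega, Or.inl rfl, fun z u h0 _ => ?_⟩
      have e : bas R z u a = z a := by
        have := bas_lt (R := R) (a := a) (j := 0) (by omega) (by omega) z u
        simpa [ep, yv] using this
      have h0' : u (Int.ofNat 0) = 1 := h0
      rw [h0', mul_one, e]
      simp [Sg.r]
    · rename_i hb
      split at h
      · rename_i hb2
        rw [frN_eq] at h
        have ha : a + 1 ≤ E + 3 := Nat.le_of_ble_eq_true hb2
        have ha' : ¬ a ≤ 2 := fun hh => by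
          have h9 : Nat.ble a 2 = true := Nat.ble_eq_true_of_le hh
          rw [h9] at hb
          exact absurd hb (by simp)
        refine ⟨_, _, h, by omega, Or.inl rfl, fun z u h0 _ => ?_⟩
        have h0' : u (Int.ofNat 0) = 1 := h0
        rw [h0', mul_one, bas_ge (by omega)]
        simp [Sg.r]
      · exact absurd h (by simp)
  · rename_i m
    split at h
    · rename_i hb
      rw [frN_eq] at h
      obtain ⟨k1, k2⟩ := key m hb
      refine ⟨_, _, h, by omega, Or.inr k1, fun z u _ _ => ?_⟩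
      have : u (Int.ofNat (m + 1)) = u ((m : ℤ) + 1) := by
        congr 1
      rw [this, k2]
      simp [Sg.r]
    · exact absurd h (by simp)
  · rename_i m
    split at h
    · rename_i hb
      rw [frN_eq] at h
      obtain ⟨k1, k2⟩ := key m hb
      refine ⟨_, _, h, by omega, Or.inr k1, fun z u h0 hu => ?_⟩
      simp only [Bool.and_eq_true, Nat.ble_eq] at hb
      obtain ⟨h1, h2, h3, h4⟩ := hb
      have h2 : m % 2 = 0 := Nat.eq_of_beq_eq_true h2
      have e1 : 3 * (m - 1) + a + 3 = 3 * m + a := by omega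
      have e2 : u (Int.negSucc m) = conj (u ((m : ℤ) + 1)) := by
        rw [← hu]
        congr 1
      rw [e2, e1, bas_lt (a := a) (j := m - 1) (by omega) (by omega), bas_lt (a := a) (j := m) (by omega) (by omega)]
      have o1 : (m - 1) % 2 = 1 := by omega
      have o2 : m - 1 ≠ 0 := by omega
      have o3 : m ≠ 0 := by omega
      have o4 : ¬ (m % 2 = 1) := by omega
      have c1 : ((m - 1 : ℕ) : ℤ) + 2 = (m : ℤ) + 1 := by omega
      unfold ep yv
      rw [if_pos (Or.inr o1), if_neg o2, if_pos o1, if_neg (by simp [o3, o4]), if_neg o3, if_neg o4, c1]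
      have e3 : conj (u ((m : ℤ) + 1)) = ((u ((m : ℤ) + 1)).re : ℂ) - I * ((u ((m : ℤ) + 1)).im : ℂ) := by
        apply Complex.ext <;> simp
      rw [e3]
      simp only [Sg.r]
      push_cast
      ring
    · exact absurd h (by simp)

/-! ### linear forms -/

def sgn : Sg → ℤ
  | .z => 0
  | .p => 1
  | .n => -1

theorem sgn_r (s : Sg) : ((sgn s : ℤ) : ℝ) = s.r := by cases s <;> simp [sgn, Sg.r]

/-- `m X^i (1 + s X^3)` with `X = 2^σ` -/
def addE (σ i : ℕ) (s : Sg) (m x : ℤ) : ℤ :=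
  frZ (Int.mul m (Int.ofNat (Nat.pow 2 (Nat.mul σ i)))) fun y =>
    match s with
    | .z => Int.add x y
    | .p => Int.add x (Int.add y (Int.mul y (Int.ofNat (Nat.pow 2 (Nat.mul σ 3)))))
    | .n => Int.add x (Int.sub y (Int.mul y (Int.ofNat (Nat.pow 2 (Nat.mul σ 3)))))

/-- the packed form -/
def goP (R E D σ : ℕ) : Lf → ℤ → ℕ → (ℤ → ℕ → Bool) → Bool
  | [], x, b, k => k x b
  | t :: l, x, b, k =>
    match t with
    | (q, a, n) => entK D q fun m => ixK R E a n fun i s => frZ (addE σ i s m x) fun x' =>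
      frN (Nat.add b m.natAbs) fun b' => goP R E D σ l x' b' k

theorem goP_ok {R E D σ : ℕ} (hR : 1 ≤ R) : ∀ {l : Lf} {x : ℤ} {b : ℕ} {k : ℤ → ℕ → Bool},
    goP R E D σ l x b k = true → ∃ (p : ℕ → ℤ) (c : ℕ),
      k (x + ∑ i ∈ range (3 * R + E), p i * 2 ^ (σ * i)) (b + c) = true ∧ (∀ i, |p i| ≤ c) ∧
      ∀ (z : ℕ → ℂ) (u : ℤ → ℂ), u 0 = 1 → (∀ n, u (-n) = conj (u n)) →
        (D : ℂ) * BRG.ev z u l = ∑ i ∈ range (3 * R + E), (p i : ℂ) * bas R z u i
  | [], x, b, k, h => ⟨fun _ => 0, 0, by simpa [goP] using h, by simp, fun z u _ _ => by simp⟩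
  | (q, a, n) :: l, x, b, k, h => by
    unfold goP at h
    obtain ⟨m, h1, hm⟩ := entK_ok h
    obtain ⟨i, s, h2, hi, hs, hv⟩ := ixK_ok hR h1
    rw [frZ_eq, frN_eq] at h2
    obtain ⟨p, c, h3, hp, he⟩ := goP_ok hR h2
    set N := 3 * R + E with hN
    have hadd : addE σ i s m x = x + (m * 2 ^ (σ * i) + sgn s * m * 2 ^ (σ * (i + 3))) := by
      unfold addE
      rw [frZ_eq]
      have e1 : Int.mul m (Int.ofNat (Nat.pow 2 (Nat.mul σ i))) = m * 2 ^ (σ * i) := by
        show m * ((2 ^ (σ * i) : ℕ) : ℤ) = _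
        push_cast
        ring
      have e2 : ∀ y : ℤ, Int.mul y (Int.ofNat (Nat.pow 2 (Nat.mul σ 3))) = y * 2 ^ (σ * 3) := by
        intro y
        show y * ((2 ^ (σ * 3) : ℕ) : ℤ) = _
        push_cast
        ring
      rw [e1]
      cases s
      · show x + m * 2 ^ (σ * i) = _
        simp [sgn]
      · show x + (m * 2 ^ (σ * i) + Int.mul _ _) = _
        rw [e2]
        simp only [sgn]
        ring
      · show x + (m * 2 ^ (σ * i) - Int.mul _ _) = _
        rw [e2]
        simp only [sgn]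
        ring
    have hsum : ∀ f : ℕ → ℤ, sgn s ≠ 0 → ∑ t ∈ range N, (if t = i + 3 then sgn s * m else 0) * f t = sgn s * m * f (i + 3) := by
      intro f hne
      have : i + 3 < N := by
        rcases hs with hs | hs
        · exact absurd (by simp [sgn, hs]) hne
        · exact hs
      simp only [ite_mul, zero_mul]
      rw [Finset.sum_ite_eq' (range N) (i + 3)]
      rw [if_pos (Finset.mem_range.2 this)]
    have hsum' : ∀ f : ℕ → ℤ, ∑ t ∈ range N, (if t = i + 3 then sgn s * m else 0) * f t = sgn s * m * f (i + 3) := by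
      intro f
      by_cases h0 : sgn s = 0
      · rw [h0]
        simp
      · exact hsum f h0
    refine ⟨fun t => (if t = i then m else 0) + (if t = i + 3 then sgn s * m else 0) + p t, m.natAbs + c, ?_, ?_, ?_⟩
    · rw [hadd] at h3
      convert h3 using 2
      · simp only [add_mul, Finset.sum_add_distrib]
        rw [hsum' fun t => 2 ^ (σ * t)]
        simp only [ite_mul, zero_mul]
        rw [Finset.sum_ite_eq' (range N) i, if_pos (Finset.mem_range.2 hi)]
        ring
      · show b + (m.natAbs + c) = b + m.natAbs + c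
        ring
    · intro t
      have h4 : |(if t = i then m else 0) + (if t = i + 3 then sgn s * m else 0)| ≤ (m.natAbs : ℤ) := by
        rw [← Int.abs_eq_natAbs]
        by_cases t1 : t = i
        · rw [if_pos t1, if_neg (by omega), add_zero]
        · rw [if_neg t1, zero_add]
          by_cases t2 : t = i + 3
          · rw [if_pos t2]
            cases s <;> simp [sgn]
          · rw [if_neg t2]
            simp
      refine (abs_add_le _ _).trans ?_
      push_cast
      have := hp t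
      rw [Int.natCast_natAbs] at h4
      linarith
    · intro z u h0 hu
      have e := he z u h0 hu
      rw [BRG.ev_cons, mul_add, e, hv z u h0 hu]
      simp only [Int.cast_add, add_mul, Finset.sum_add_distrib]
      have f1 : ∑ t ∈ range N, ((if t = i then m else 0 : ℤ) : ℂ) * bas R z u t = (m : ℂ) * bas R z u i := by
        simp only [Int.cast_ite, Int.cast_zero, ite_mul, zero_mul]
        rw [Finset.sum_ite_eq' (range N) i, if_pos (Finset.mem_range.2 hi)]
      have f2 : ∑ t ∈ range N, ((if t = i + 3 then sgn s * m else 0 : ℤ) : ℂ) * bas R z u t =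
          ((sgn s : ℤ) : ℂ) * m * bas R z u (i + 3) := by
        by_cases h0 : sgn s = 0
        · rw [h0]
          simp
        · have : i + 3 < N := by
            rcases hs with hs | hs
            · exact absurd (by simp [sgn, hs]) h0
            · exact hs
          simp only [Int.cast_ite, Int.cast_zero, ite_mul, zero_mul]
          rw [Finset.sum_ite_eq' (range N) (i + 3), if_pos (Finset.mem_range.2 this)]
          push_cast
          ring
      rw [f1, f2]
      have g1 : ((m : ℤ) : ℂ) = (D : ℂ) * ((q : ℚ) : ℂ) := by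
        have := congrArg (fun x : ℝ => (x : ℂ)) hm
        simpa using this
      have g2 : ((sgn s : ℤ) : ℂ) = (s.r : ℂ) := by
        have := congrArg (fun x : ℝ => (x : ℂ)) (sgn_r s)
        simpa using this
      rw [g2, g1]
      ring

/-! ### forms with integer matrices -/

/-- `Σ G_ij Re (b_i conj b_j)` -/
def fm (N : ℕ) (G : ℕ → ℕ → ℤ) (b : ℕ → ℂ) : ℝ :=
  ∑ i ∈ range N, ∑ j ∈ range N, (G i j : ℝ) * (b i * conj (b j)).re

theorem fm_add (N : ℕ) (G H : ℕ → ℕ → ℤ) (b : ℕ → ℂ) :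
    fm N (fun i j => G i j + H i j) b = fm N G b + fm N H b := by
  unfold fm
  rw [← Finset.sum_add_distrib]
  refine Finset.sum_congr rfl fun i _ => ?_
  rw [← Finset.sum_add_distrib]
  refine Finset.sum_congr rfl fun j _ => ?_
  push_cast
  ring

theorem fm_mul (N : ℕ) (c : ℤ) (G : ℕ → ℕ → ℤ) (b : ℕ → ℂ) : fm N (fun i j => c * G i j) b = c * fm N G b := by
  unfold fm
  rw [Finset.mul_sum]
  refine Finset.sum_congr rfl fun i _ => ?_
  rw [Finset.mul_sum]
  refine Finset.sum_congr rfl fun j _ => ?_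
  push_cast
  ring

theorem fm_rank (N : ℕ) (p q : ℕ → ℤ) (b : ℕ → ℂ) : fm N (fun i j => p i * q j) b =
    ((∑ i ∈ range N, (p i : ℂ) * b i) * conj (∑ i ∈ range N, (q i : ℂ) * b i)).re := by
  unfold fm
  rw [map_sum, Finset.sum_mul_sum, Complex.re_sum]
  refine Finset.sum_congr rfl fun i _ => ?_
  rw [Complex.re_sum]
  refine Finset.sum_congr rfl fun j _ => ?_
  have h1 : ∀ n : ℤ, ((n : ℤ) : ℂ).re = (n : ℝ) := fun n => Complex.intCast_re n
  have h2 : ∀ n : ℤ, ((n : ℤ) : ℂ).im = 0 := fun n => Complex.intCast_im n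
  simp only [map_mul, Complex.mul_re, Complex.mul_im, Complex.conj_re, Complex.conj_im, h1, h2]
  push_cast
  ring

theorem fm_symm (N : ℕ) (G : ℕ → ℕ → ℤ) (b : ℕ → ℂ) : fm N (fun i j => G j i) b = fm N G b := by
  unfold fm
  rw [Finset.sum_comm]
  refine Finset.sum_congr rfl fun i _ => Finset.sum_congr rfl fun j _ => ?_
  have : (b j * conj (b i)).re = (b i * conj (b j)).re := by
    simp only [Complex.mul_re, Complex.conj_re, Complex.conj_im]
    ring
  rw [this]

theorem fm_two (N : ℕ) (G : ℕ → ℕ → ℤ) (b : ℕ → ℂ) : fm N (fun i j => G i j + G j i) b = 2 * fm N G b := by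
  rw [fm_add N G (fun i j => G j i), fm_symm]
  ring

theorem fm_sq (N : ℕ) (L : ℤ) (H : ℕ → ℕ → ℤ) (x : ℕ → ℤ) (b : ℕ → ℂ) :
    fm N (fun i j => L * H i j - x i * x j) b ≤ L * fm N H b := by
  have e : fm N (fun i j => L * H i j - x i * x j) b = L * fm N H b - fm N (fun i j => x i * x j) b := by
    rw [← fm_mul]
    unfold fm
    rw [← Finset.sum_sub_distrib]
    refine Finset.sum_congr rfl fun i _ => ?_
    rw [← Finset.sum_sub_distrib]
    refine Finset.sum_congr rfl fun j _ => ?_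
    push_cast
    ring
  have h : 0 ≤ fm N (fun i j => x i * x j) b := by
    rw [fm_rank, Complex.mul_conj, Complex.ofReal_re]
    exact Complex.normSq_nonneg _
  rw [e]
  linarith

/-- removal of squares -/
def fold : List ℕ → List ℤ → List ℤ → ℤ → ℤ
  | [], _, _, s => s
  | L :: Ls, xs, ys, s =>
    fold Ls xs.tail ys.tail (Int.sub (Int.mul (Int.ofNat L) s) (Int.mul (xs.headD 0) (ys.headD 0)))

theorem fold_comm : ∀ (Ls : List ℕ) (xs ys : List ℤ) (s : ℤ), fold Ls xs ys s = fold Ls ys xs s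
  | [], _, _, _ => rfl
  | L :: Ls, xs, ys, s => by
    unfold fold
    rw [fold_comm Ls]
    congr 2
    exact Int.mul_comm _ _

theorem fold_le (N : ℕ) (b : ℕ → ℂ) : ∀ (Ls : List ℕ) (v : ℕ → List ℤ) (H : ℕ → ℕ → ℤ),
    fm N (fun i j => fold Ls (v i) (v j) (H i j)) b ≤ (Ls.prod : ℕ) * fm N H b
  | [], v, H => by simp [fold]
  | L :: Ls, v, H => by
    have h1 := fold_le N b Ls (fun i => (v i).tail) (fun i j => (L : ℤ) * H i j - (v i).headD 0 * (v j).headD 0)
    have h2 := fm_sq N (L : ℤ) H (fun i => (v i).headD 0) b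
    have h3 : (0 : ℝ) ≤ (Ls.prod : ℕ) := Nat.cast_nonneg _
    have h4 := mul_le_mul_of_nonneg_left h2 h3
    have e : fm N (fun i j => fold (L :: Ls) (v i) (v j) (H i j)) b =
        fm N (fun i j => fold Ls (v i).tail (v j).tail ((L : ℤ) * H i j - (v i).headD 0 * (v j).headD 0)) b := rfl
    rw [e, List.prod_cons, Nat.cast_mul]
    have h5 : ((L : ℤ) : ℝ) = (L : ℝ) := by norm_cast
    rw [h5] at h4
    calc _ ≤ _ := h1
      _ ≤ _ := h4
      _ = _ := by ring

/-! ### the list -/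

def shorter : Lf → Lf → Bool
  | [], _ => true
  | _ :: _, [] => false
  | _ :: l, _ :: l' => shorter l l'

/-- the packed matrix -/
def goT (R E D Dc w wN : ℕ) : Tf → ℤ → ℕ → (ℤ → ℕ → Bool) → Bool
  | [], g, b, k => k g b
  | t :: T, g, b, k =>
    match t with
    | (c, l, l') => entK Dc c fun c =>
      match shorter l l' with
      | true => goP R E D wN l 0 0 fun x bx => goP R E D w l' 0 0 fun y ty =>
          frZ (Int.add g (Int.mul (Int.mul c y) x)) fun g' =>
          frN (Nat.add b (Nat.mul c.natAbs (Nat.mul bx ty))) fun b' => goT R E D Dc w wN T g' b' k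
      | false => goP R E D wN l' 0 0 fun x bx => goP R E D w l 0 0 fun y ty =>
          frZ (Int.add g (Int.mul (Int.mul c y) x)) fun g' =>
          frN (Nat.add b (Nat.mul c.natAbs (Nat.mul bx ty))) fun b' => goT R E D Dc w wN T g' b' k

def pk (w wN N : ℕ) (G : ℕ → ℕ → ℤ) : ℤ := ∑ i ∈ range N, ∑ j ∈ range N, G i j * (2 ^ (wN * i) * 2 ^ (w * j))

theorem goT_ok {R E D Dc w wN : ℕ} (hR : 1 ≤ R) : ∀ {T : Tf} {g : ℤ} {b : ℕ} {k : ℤ → ℕ → Bool},
    goT R E D Dc w wN T g b k = true → ∃ (G : ℕ → ℕ → ℤ) (c : ℕ),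
      k (g + pk w wN (3 * R + E) G) (b + c) = true ∧ (∀ i j, |G i j| ≤ c) ∧
      ∀ (z : ℕ → ℂ) (u : ℤ → ℂ), u 0 = 1 → (∀ n, u (-n) = conj (u n)) →
        ((Dc * D * D : ℕ) : ℝ) * (BRG.e2 z u T).re = fm (3 * R + E) G (bas R z u)
  | [], g, b, k, h => ⟨fun _ _ => 0, 0, by simpa [goT, pk] using h, by simp, fun z u _ _ => by simp [fm]⟩
  | (c, l, l') :: T, g, b, k, h => by
    unfold goT at h
    obtain ⟨m, h1, hm⟩ := entK_ok h
    set N := 3 * R + E with hN
    -- one of the two orders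
    have key : ∀ l l' : Lf, (goP R E D wN l 0 0 fun x bx => goP R E D w l' 0 0 fun y ty =>
          frZ (Int.add g (Int.mul (Int.mul m y) x)) fun g' =>
          frN (Nat.add b (Nat.mul m.natAbs (Nat.mul bx ty))) fun b' => goT R E D Dc w wN T g' b' k) = true →
        ∃ (G : ℕ → ℕ → ℤ) (c' : ℕ), k (g + pk w wN N G) (b + c') = true ∧ (∀ i j, |G i j| ≤ c') ∧
        ∀ (z : ℕ → ℂ) (u : ℤ → ℂ), u 0 = 1 → (∀ n, u (-n) = conj (u n)) →
        ((Dc * D * D : ℕ) : ℝ) * ((c : ℝ) * (BRG.ev z u l * conj (BRG.ev z u l')).re + (BRG.e2 z u T).re) =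
          fm N G (bas R z u) := by
      intro l l' hh
      obtain ⟨p, cp, k1, hp, ep⟩ := goP_ok hR hh
      obtain ⟨q, cq, k2, hq, eq⟩ := goP_ok hR k1
      rw [frZ_eq, frN_eq] at k2
      obtain ⟨G, cG, k3, hG, eG⟩ := goT_ok hR k2
      simp only [zero_add, ← hN] at k3 ep eq eG
      refine ⟨fun i j => m * (p i * q j) + G i j, m.natAbs * (cp * cq) + cG, ?_, ?_, ?_⟩
      · convert k3 using 2
        · show _ = g + (m * (∑ i ∈ range N, q i * 2 ^ (w * i))) * (∑ i ∈ range N, p i * 2 ^ (wN * i)) + _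
          rw [add_assoc]
          congr 1
          unfold pk
          have e1 : (m * (∑ i ∈ range N, q i * 2 ^ (w * i))) * (∑ i ∈ range N, p i * 2 ^ (wN * i)) =
              ∑ i ∈ range N, ∑ j ∈ range N, m * (p i * q j) * (2 ^ (wN * i) * 2 ^ (w * j)) := by
            rw [mul_assoc, mul_comm (∑ i ∈ range N, q i * 2 ^ (w * i)), Finset.sum_mul_sum, Finset.mul_sum]
            refine Finset.sum_congr rfl fun i _ => ?_
            rw [Finset.mul_sum]
            refine Finset.sum_congr rfl fun j _ => ?_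
            ring
          rw [e1, ← Finset.sum_add_distrib]
          refine Finset.sum_congr rfl fun i _ => ?_
          rw [← Finset.sum_add_distrib]
          refine Finset.sum_congr rfl fun j _ => ?_
          ring
        · show b + (m.natAbs * (cp * cq) + cG) = b + m.natAbs * (cp * cq) + cG
          ring
      · intro i j
        refine (abs_add_le _ _).trans ?_
        have a1 := hp i
        have a2 := hq j
        have a3 := hG i j
        have a4 : |m * (p i * q j)| ≤ (m.natAbs : ℤ) * (cp * cq) := by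
          rw [abs_mul, abs_mul, ← Int.abs_eq_natAbs]
          exact mul_le_mul_of_nonneg_left (mul_le_mul a1 a2 (abs_nonneg _) ((abs_nonneg _).trans a1)) (abs_nonneg _)
        push_cast
        rw [Int.natCast_natAbs] at a4
        linarith
      · intro z u h0 hu
        have e1 : fm N (fun i j => m * (p i * q j) + G i j) (bas R z u) =
            m * fm N (fun i j => p i * q j) (bas R z u) + fm N G (bas R z u) := by
          rw [fm_add N (fun i j => m * (p i * q j)) G, fm_mul]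
        rw [e1, fm_rank, ← ep z u h0 hu, ← eq z u h0 hu, ← eG z u h0 hu, hm]
        have n2 : ∀ n : ℕ, ((n : ℂ)).re = (n : ℝ) := fun n => Complex.natCast_re n
        have n3 : ∀ n : ℕ, ((n : ℂ)).im = 0 := fun n => Complex.natCast_im n
        simp only [map_mul, Complex.mul_re, Complex.mul_im, Complex.conj_re, Complex.conj_im, n2, n3]
        push_cast
        ring
    have cr : ∀ (x : ℂ), ((c : ℂ) * x).re = (c : ℝ) * x.re := by
      intro x
      rw [Complex.mul_re, Complex.ratCast_re, Complex.ratCast_im]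
      ring
    have sw : ∀ x y : ℂ, (x * conj y).re = (y * conj x).re := fun x y => by
      simp only [Complex.mul_re, Complex.conj_re, Complex.conj_im]
      ring
    split at h1
    · obtain ⟨G, c', g1, g2, g3⟩ := key l l' h1
      refine ⟨G, c', g1, g2, fun z u h0 hu => ?_⟩
      rw [BRG.e2_cons, Complex.add_re, cr]
      exact g3 z u h0 hu
    · obtain ⟨G, c', g1, g2, g3⟩ := key l' l h1
      refine ⟨G, c', g1, g2, fun z u h0 hu => ?_⟩
      rw [BRG.e2_cons, Complex.add_re, cr, sw]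
      exact g3 z u h0 hu

/-! ### digits -/

theorem sum_digit_lt (B : ℕ) (hB : 0 < B) : ∀ (n : ℕ) (a : ℕ → ℕ), (∀ i < n, a i < B) →
    ∑ i ∈ range n, a i * B ^ i < B ^ n
  | 0, a, _ => by simp
  | n + 1, a, h => by
    rw [Finset.sum_range_succ, pow_succ]
    have h1 := sum_digit_lt B hB n a fun i hi => h i (by omega)
    have h2 := h n (by omega)
    have h3 : a n * B ^ n ≤ (B - 1) * B ^ n := Nat.mul_le_mul_right _ (by omega)
    have h4 : (B - 1) * B ^ n + B ^ n = B ^ n * B := by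
      have : B ^ n * B = B * B ^ n := mul_comm _ _
      rw [this]
      obtain ⟨c, rfl⟩ : ∃ c, B = c + 1 := ⟨B - 1, by omega⟩
      simp only [Nat.add_sub_cancel]
      ring
    omega

theorem digit_eq (B : ℕ) (hB : 0 < B) (n : ℕ) (a : ℕ → ℕ) (h : ∀ i < n, a i < B) {s : ℕ} (hs : s < n) :
    (∑ i ∈ range n, a i * B ^ i) / B ^ s % B = a s := by
  obtain ⟨m, rfl⟩ : ∃ m, n = s + 1 + m := ⟨n - (s + 1), by omega⟩
  rw [Finset.sum_range_add, Finset.sum_range_succ]
  have e : ∑ x ∈ range m, a (s + 1 + x) * B ^ (s + 1 + x) = B ^ s * (B * ∑ x ∈ range m, a (s + 1 + x) * B ^ x) := by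
    rw [Finset.mul_sum, Finset.mul_sum]
    refine Finset.sum_congr rfl fun x _ => ?_
    rw [pow_add, pow_add, pow_one]
    ring
  have h1 := sum_digit_lt B hB s a fun i hi => h i (by omega)
  have hp : 0 < B ^ s := Nat.pow_pos hB
  rw [e, show ∑ i ∈ range s, a i * B ^ i + a s * B ^ s + B ^ s * (B * ∑ x ∈ range m, a (s + 1 + x) * B ^ x) =
    ∑ i ∈ range s, a i * B ^ i + B ^ s * (a s + B * ∑ x ∈ range m, a (s + 1 + x) * B ^ x) by ring,
    Nat.add_mul_div_left _ _ hp, Nat.div_eq_of_lt h1, zero_add, Nat.add_mul_mod_self_left]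
  exact Nat.mod_eq_of_lt (h s hs)

/-- digit at `(i, j)` -/
def dg (X w N B i j : ℕ) : ℕ := Nat.mod (Nat.shiftRight X (Nat.mul w (Nat.add (Nat.mul N i) j))) B

theorem dg_eq {w N i j : ℕ} {a : ℕ → ℕ → ℕ} (h : ∀ i < N, ∀ j < N, a i j < 2 ^ w) (hi : i < N) (hj : j < N) :
    dg (∑ i ∈ range N, (∑ j ∈ range N, a i j * (2 ^ w) ^ j) * ((2 ^ w) ^ N) ^ i) w N (2 ^ w) i j = a i j := by
  set B := 2 ^ w with hB
  have hB0 : 0 < B := by positivity
  have hr : ∀ i < N, ∑ j ∈ range N, a i j * B ^ j < B ^ N := fun i hi => sum_digit_lt B hB0 N (a i) (h i hi)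
  set r : ℕ → ℕ := fun i => ∑ j ∈ range N, a i j * B ^ j with hrd
  have e1 := digit_eq (B ^ N) (by positivity) N r hr hi
  have e2 := digit_eq B hB0 N (a i) (h i hi) hj
  unfold dg
  show (∑ i ∈ range N, r i * (B ^ N) ^ i) >>> (w * (N * i + j)) % B = a i j
  set X := ∑ i ∈ range N, r i * (B ^ N) ^ i with hX
  rw [Nat.shiftRight_eq_div_pow]
  have e3 : 2 ^ (w * (N * i + j)) = (B ^ N) ^ i * B ^ j := by
    rw [hB, ← pow_mul, ← pow_mul, ← pow_mul, ← pow_add]
    congr 1
    ring
  rw [e3, ← Nat.div_div_eq_div_mul]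
  set Y := X / (B ^ N) ^ i with hY
  have e4 : Y / B ^ j % B = Y % (B ^ j * B) / B ^ j := (Nat.mod_mul_right_div_self _ _ _).symm
  have e5 : (Y % B ^ N) / B ^ j % B = (Y % B ^ N) % (B ^ j * B) / B ^ j := (Nat.mod_mul_right_div_self _ _ _).symm
  have e6 : (Y % B ^ N) % (B ^ j * B) = Y % (B ^ j * B) := by
    refine Nat.mod_mod_of_dvd _ ?_
    rw [← pow_succ]
    exact pow_dvd_pow _ (by omega)
  rw [e4, ← e6, ← e5, e1]
  exact e2

theorem pk_off {w N hf : ℕ} (hw : 1 ≤ w) (hN : 1 ≤ N) (G : ℕ → ℕ → ℤ) (hG : ∀ i j, -(hf : ℤ) ≤ G i j) :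
    pk w (w * N) N G + ((hf * (((2 ^ (w * N * N) - 1) / (2 ^ (w * N) - 1)) * ((2 ^ (w * N) - 1) / (2 ^ w - 1))) : ℕ) : ℤ) =
      ((∑ i ∈ range N, (∑ j ∈ range N, (G i j + hf).toNat * (2 ^ w) ^ j) * ((2 ^ w) ^ N) ^ i : ℕ) : ℤ) := by
  have g1 : (2 ^ (w * N * N) - 1) / (2 ^ (w * N) - 1) = ∑ i ∈ range N, ((2 ^ w) ^ N) ^ i := by
    have h2 : 2 ≤ 2 ^ (w * N) := by
      calc 2 = 2 ^ 1 := rfl
        _ ≤ 2 ^ (w * N) := Nat.pow_le_pow_right (by norm_num) (by nlinarith)
    rw [← pow_mul, Nat.geomSum_eq h2, ← pow_mul]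
  have g2 : (2 ^ (w * N) - 1) / (2 ^ w - 1) = ∑ j ∈ range N, (2 ^ w) ^ j := by
    have h2 : 2 ≤ 2 ^ w := by
      calc 2 = 2 ^ 1 := rfl
        _ ≤ 2 ^ w := Nat.pow_le_pow_right (by norm_num) hw
    rw [Nat.geomSum_eq h2, ← pow_mul]
  rw [g1, g2]
  unfold pk
  rw [Finset.sum_mul_sum]
  push_cast
  rw [Finset.mul_sum, ← Finset.sum_add_distrib]
  refine Finset.sum_congr rfl fun i _ => ?_
  rw [Finset.mul_sum, ← Finset.sum_add_distrib, Finset.sum_mul]
  refine Finset.sum_congr rfl fun j _ => ?_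
  have e : (((G i j + hf).toNat : ℕ) : ℤ) = G i j + hf := Int.toNat_of_nonneg (by linarith [hG i j])
  rw [e, pow_mul, pow_mul, pow_mul]
  ring

/-! ### the comparison -/

def allN (n : ℕ) (f : ℕ → Bool) : Bool :=
  match n with
  | 0 => true
  | m + 1 => f m && allN m f

theorem allN_ok : ∀ {n : ℕ} {f : ℕ → Bool}, allN n f = true → ∀ i < n, f i = true
  | 0, _, _, i, hi => by omega
  | n + 1, f, h, i, hi => by
    unfold allN at h
    rw [Bool.and_eq_true] at h
    rcases Nat.lt_succ_iff_lt_or_eq.1 hi with h1 | h1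
    · exact allN_ok h.2 i h1
    · rw [h1]
      exact h.1

def nth {α : Type} (d : α) : List α → ℕ → α
  | [], _ => d
  | a :: _, 0 => a
  | _ :: l, i + 1 => nth d l i

theorem nth_eq {α : Type} (d : α) : ∀ (l : List α) (i : ℕ), nth d l i = l.getD i d
  | [], i => by simp [nth]
  | a :: l, 0 => by simp [nth]
  | a :: l, i + 1 => by simp [nth, nth_eq d l i]

/-- the number at `(i, j)` after the removal of the squares -/
def FF (X w N B : ℕ) (Ls : List ℕ) (V : List (List ℤ)) (i j : ℕ) : ℤ :=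
  fold Ls (nth [] V i) (nth [] V j) (Int.sub (Int.ofNat (Nat.add (dg X w N B i j) (dg X w N B j i))) (Int.ofNat B))

/-- `|x - Z c| ≤ Z` -/
def near1 (x : ℤ) (Z : ℕ) (c : ℤ) : Bool := Nat.ble (Int.natAbs (Int.sub x (Int.mul (Int.ofNat Z) c))) Z

def isz (c : ℤ) : Bool :=
  match c with
  | .ofNat 0 => true
  | _ => false

theorem near1_ok {x : ℤ} {Z : ℕ} {c : ℤ} (h : near1 x Z c = true) : |x - Z * c| ≤ Z := by
  have h1 := Nat.le_of_ble_eq_true h
  rw [Int.abs_eq_natAbs]
  exact_mod_cast h1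

theorem isz_ok {c : ℤ} (h : isz c = true) : c = 0 := by
  unfold isz at h
  split at h
  · rfl
  · exact absurd h (by simp)

/-- two variables of the same type -/
def prS (Sc : ℤ) (Z Z2 : ℕ) (f : ℕ → ℕ → ℤ) (c : List ℤ) : Bool :=
  match c with
  | [c0, c1, c2, c3, c4, c5, c6, c7, c8] =>
    near1 (Int.mul Sc (f 0 0)) Z c0 && (near1 (Int.mul Sc (f 1 1)) Z c1 && (near1 (Int.mul Sc (f 2 2)) Z c2 &&
    (near1 (Int.mul Sc (Int.add (f 0 1) (f 1 0))) Z2 c3 && (isz c4 &&
    (near1 (Int.mul Sc (Int.add (f 0 2) (f 2 0))) Z2 c5 && (isz c6 &&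
    (near1 (Int.mul Sc (Int.add (f 1 2) (f 2 1))) Z2 c7 && isz c8)))))))
  | _ => false

/-- a real part with an imaginary part -/
def prD (Sc : ℤ) (Z2 : ℕ) (f : ℕ → ℕ → ℤ) (c : List ℤ) : Bool :=
  match c with
  | [c0, c1, c2, c3, c4, c5, c6, c7, c8] =>
    isz c0 && (isz c1 && (isz c2 && (isz c3 && (isz c5 && (isz c7 &&
    (near1 (Int.mul Sc (Int.sub (f 0 1) (f 1 0))) Z2 c4 &&
    (near1 (Int.mul Sc (Int.sub (f 0 2) (f 2 0))) Z2 c6 &&
    near1 (Int.mul Sc (Int.sub (f 1 2) (f 2 1))) Z2 c8)))))))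
  | _ => false

/-- type: `1` or a real part -/
def rt (k : ℕ) : Bool :=
  match k with
  | 0 => true
  | m + 1 => Nat.beq (m % 2) 0

/-- all numbers of the product `y_k y_l` -/
def pr (Sc : ℤ) (Z : ℕ) (F : ℕ → ℕ → ℤ) (k l : ℕ) (c : List ℤ) : Bool :=
  frN (Nat.mul 2 Z) fun Z2 =>
  match rt k, rt l with
  | true, true => prS Sc Z Z2 (fun a b => F (3 * k + a) (3 * l + b)) c
  | false, false => prS Sc Z Z2 (fun a b => F (3 * k + a) (3 * l + b)) c
  | true, false => prD Sc Z2 (fun a b => F (3 * k + a) (3 * l + b)) c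
  | false, true => prD Sc Z2 (fun a b => F (3 * k + b) (3 * l + a)) c

/-- **the Boolean** -/
def chk (R E D Dc w : ℕ) (Ls : List ℕ) (V : List (List ℤ)) (T : Tf) (C : List (List (List ℤ))) (Sc : ℕ) : Bool :=
  match Nat.ble 1 R with
  | false => false
  | true =>
    frN (3 * R + E) fun N => frN (w * N) fun wN => goT R E D Dc w wN T 0 0 fun g b =>
      frN (2 ^ w) fun B => frN (2 ^ (w - 1)) fun hf =>
        match Nat.beq (2 * hf) B && (Nat.ble (b + 1) hf && Nat.ble 1 w) with
        | false => false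
        | true =>
          frN (hf * (((2 ^ (wN * N) - 1) / (2 ^ wN - 1)) * ((2 ^ wN - 1) / (2 ^ w - 1)))) fun off =>
          match Int.add g (Int.ofNat off) with
          | .negSucc _ => false
          | .ofNat X => frN X fun X => frN (Dc * D * D * Ls.prod) fun Z => frN (2 * Z) fun Z2 => Nat.ble 1 Z &&
            (allN E (fun e => allN (3 * R + e + 1) fun j => isz (FF X w N B Ls V (3 * R + e) j)) &&
            allN R (fun k => allN (R - k) fun j =>
              match j with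
              | 0 => pr (Int.ofNat Sc) Z2 (FF X w N B Ls V) k k (nth [] (nth [] C k) 0)
              | i + 1 => pr (Int.ofNat Sc) Z (FF X w N B Ls V) k (k + (i + 1)) (nth [] (nth [] C k) (i + 1))))

/-! ### meaning of the comparison -/

theorem near1_q {x : ℤ} {Z : ℕ} {c : ℤ} (hZ : 0 < Z) (h : near1 x Z c = true) : |(x : ℚ) / Z - c| ≤ 1 := by
  have h1 := near1_ok h
  have h2 : |(x : ℚ) - Z * c| ≤ Z := by exact_mod_cast h1
  have hz : (0 : ℚ) < Z := by exact_mod_cast hZ
  have e : (x : ℚ) / Z - c = ((x : ℚ) - Z * c) / Z := by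
    field_simp
  rw [e, abs_div, abs_of_pos hz, div_le_one hz]
  exact h2

/-- `Σ f_ab Re (z_a conj z_b t)` -/
def bl (f : ℕ → ℕ → ℤ) (z : ℕ → ℂ) (t : ℂ) : ℝ :=
  ∑ a ∈ range 3, ∑ b ∈ range 3, (f a b : ℝ) * (z a * conj (z b) * t).re

theorem prS_ok {Sc : ℤ} {Z Z2 : ℕ} {f : ℕ → ℕ → ℤ} {c : List ℤ} (hZ : 0 < Z) (hZ2 : Z2 = 2 * Z)
    (h : prS Sc Z Z2 f c = true) (z : ℕ → ℂ) :
    |(Sc : ℝ) * bl f z 1 - Z * PLK.iz (PLK.w3 (z 0) (z 1) (z 2)) c| ≤ Z * (5 * NCD.nz z) := by
  unfold prS at h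
  split at h
  · rename_i c0 c1 c2 c3 c4 c5 c6 c7 c8
    simp only [Bool.and_eq_true] at h
    obtain ⟨k0, k1, k2, k3, k4, k5, k6, k7, k8⟩ := h
    have hZ2' : 0 < Z2 := by omega
    have q0 := near1_q hZ k0
    have q1 := near1_q hZ k1
    have q2 := near1_q hZ k2
    have q3 := near1_q hZ2' k3
    have q5 := near1_q hZ2' k5
    have q7 := near1_q hZ2' k7
    have z4 := isz_ok k4
    have z6 := isz_ok k6
    have z8 := isz_ok k8
    have d := NCA.diff_ev (h := ⟨_, _, _, _, ((c4 : ℤ) : ℚ), _, ((c6 : ℤ) : ℚ), _, ((c8 : ℤ) : ℚ)⟩)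
      (k := ⟨c0, c1, c2, c3, c4, c5, c6, c7, c8⟩) (t := 1) q0 q1 q2 q3 (by simp) q5 (by simp) q7 (by simp) z
    rw [NCA.iz_w3]
    have hz : (0 : ℝ) < Z := by exact_mod_cast hZ
    have e : (Sc : ℝ) * bl f z 1 = Z * (⟨((Int.mul Sc (f 0 0) : ℤ) : ℚ) / Z, ((Int.mul Sc (f 1 1) : ℤ) : ℚ) / Z,
        ((Int.mul Sc (f 2 2) : ℤ) : ℚ) / Z, ((Int.mul Sc (Int.add (f 0 1) (f 1 0)) : ℤ) : ℚ) / Z2, ((c4 : ℤ) : ℚ),
        ((Int.mul Sc (Int.add (f 0 2) (f 2 0)) : ℤ) : ℚ) / Z2, ((c6 : ℤ) : ℚ),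
        ((Int.mul Sc (Int.add (f 1 2) (f 2 1)) : ℤ) : ℚ) / Z2, ((c8 : ℤ) : ℚ)⟩ : H9).ev z := by
      rw [H9.ev_eq, z4, z6, z8, hZ2]
      simp only [show ∀ a b : ℤ, Int.mul a b = a * b from fun _ _ => rfl, show ∀ a b : ℤ, Int.add a b = a + b from fun _ _ => rfl]
      unfold bl
      simp only [Finset.sum_range_succ, Finset.sum_range_zero, Complex.mul_re, Complex.mul_im, Complex.conj_re,
        Complex.conj_im, Complex.one_re, Complex.one_im]
      push_cast
      field_simp
      ring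
    rw [e, ← mul_sub, abs_mul, abs_of_pos hz]
    refine mul_le_mul_of_nonneg_left ?_ hz.le
    refine d.trans (le_of_eq ?_)
    unfold NCD.nz
    norm_num
  · exact absurd h (by simp)

theorem prD_ok {Sc : ℤ} {Z Z2 : ℕ} {f : ℕ → ℕ → ℤ} {c : List ℤ} (hZ : 0 < Z) (hZ2 : Z2 = 2 * Z)
    (h : prD Sc Z2 f c = true) (z : ℕ → ℂ) :
    |(Sc : ℝ) * bl f z (-I) - Z * PLK.iz (PLK.w3 (z 0) (z 1) (z 2)) c| ≤ Z * (5 * NCD.nz z) := by
  unfold prD at h
  split at h
  · rename_i c0 c1 c2 c3 c4 c5 c6 c7 c8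
    simp only [Bool.and_eq_true] at h
    obtain ⟨k0, k1, k2, k3, k5, k7, k4, k6, k8⟩ := h
    have hZ2' : 0 < Z2 := by omega
    have q4 := near1_q hZ2' k4
    have q6 := near1_q hZ2' k6
    have q8 := near1_q hZ2' k8
    have z0 := isz_ok k0
    have z1 := isz_ok k1
    have z2 := isz_ok k2
    have z3 := isz_ok k3
    have z5 := isz_ok k5
    have z7 := isz_ok k7
    have d := NCA.diff_ev (h := ⟨((c0 : ℤ) : ℚ), ((c1 : ℤ) : ℚ), ((c2 : ℤ) : ℚ), ((c3 : ℤ) : ℚ), _, ((c5 : ℤ) : ℚ), _,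
      ((c7 : ℤ) : ℚ), _⟩)
      (k := ⟨c0, c1, c2, c3, c4, c5, c6, c7, c8⟩) (t := 1) (by simp) (by simp) (by simp) (by simp) q4 (by simp) q6
      (by simp) q8 z
    rw [NCA.iz_w3]
    have hz : (0 : ℝ) < Z := by exact_mod_cast hZ
    have e : (Sc : ℝ) * bl f z (-I) = Z * (⟨((c0 : ℤ) : ℚ), ((c1 : ℤ) : ℚ), ((c2 : ℤ) : ℚ), ((c3 : ℤ) : ℚ),
        ((Int.mul Sc (Int.sub (f 0 1) (f 1 0)) : ℤ) : ℚ) / Z2, ((c5 : ℤ) : ℚ),
        ((Int.mul Sc (Int.sub (f 0 2) (f 2 0)) : ℤ) : ℚ) / Z2, ((c7 : ℤ) : ℚ),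
        ((Int.mul Sc (Int.sub (f 1 2) (f 2 1)) : ℤ) : ℚ) / Z2⟩ : H9).ev z := by
      rw [H9.ev_eq, z0, z1, z2, z3, z5, z7, hZ2]
      simp only [show ∀ a b : ℤ, Int.mul a b = a * b from fun _ _ => rfl, show ∀ a b : ℤ, Int.sub a b = a - b from fun _ _ => rfl]
      unfold bl
      simp only [Finset.sum_range_succ, Finset.sum_range_zero, Complex.mul_re, Complex.mul_im, Complex.conj_re,
        Complex.conj_im, Complex.neg_re, Complex.neg_im, Complex.I_re, Complex.I_im]
      push_cast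
      field_simp
      ring
    rw [e, ← mul_sub, abs_mul, abs_of_pos hz]
    refine mul_le_mul_of_nonneg_left ?_ hz.le
    refine d.trans (le_of_eq ?_)
    unfold NCD.nz
    norm_num
  · exact absurd h (by simp)

theorem rt_ep (k : ℕ) : ep k = if rt k then 1 else I := by
  unfold ep rt
  rcases k with _ | m
  · simp
  · have e : Nat.beq (m % 2) 0 = decide ((m + 1) % 2 = 1) := by
      rw [Bool.eq_iff_iff]
      simp only [decide_eq_true_eq]
      constructor
      · intro h
        have := Nat.eq_of_beq_eq_true h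
        omega
      · intro h
        have : m % 2 = 0 := by omega
        rw [this]
        rfl
    simp only [e]
    by_cases h : (m + 1) % 2 = 1
    · rw [if_pos (Or.inr h)]
      simp [h]
    · rw [if_neg (by simp [h])]
      simp [h]

theorem pr_ok {Sc : ℤ} {Z : ℕ} {F : ℕ → ℕ → ℤ} {k l : ℕ} {c : List ℤ} (hZ : 0 < Z) (h : pr Sc Z F k l c = true)
    (z : ℕ → ℂ) :
    |(Sc : ℝ) * bl (fun a b => F (3 * k + a) (3 * l + b)) z (ep k * conj (ep l))
      - Z * PLK.iz (PLK.w3 (z 0) (z 1) (z 2)) c| ≤ Z * (5 * NCD.nz z) := by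
  unfold pr at h
  rw [frN_eq] at h
  rw [rt_ep k, rt_ep l]
  split at h
  · rename_i h1 h2
    rw [h1, h2]
    simpa using prS_ok hZ rfl h z
  · rename_i h1 h2
    rw [h1, h2]
    have e : (if false = true then (1 : ℂ) else I) * conj (if false = true then (1 : ℂ) else I) = 1 := by
      simp
    rw [e]
    exact prS_ok hZ rfl h z
  · rename_i h1 h2
    rw [h1, h2]
    have e : (if true = true then (1 : ℂ) else I) * conj (if false = true then (1 : ℂ) else I) = -I := by
      simp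
    rw [e]
    exact prD_ok hZ rfl h z
  · rename_i h1 h2
    rw [h1, h2]
    have e : (if false = true then (1 : ℂ) else I) * conj (if true = true then (1 : ℂ) else I) = I := by
      simp
    rw [e]
    have h3 := prD_ok hZ rfl h z
    have e2 : bl (fun a b => F (3 * k + b) (3 * l + a)) z (-I) = bl (fun a b => F (3 * k + a) (3 * l + b)) z I := by
      unfold bl
      rw [Finset.sum_comm]
      refine Finset.sum_congr rfl fun a _ => Finset.sum_congr rfl fun b _ => ?_
      have : (z b * conj (z a) * (-I)).re = (z a * conj (z b) * I).re := by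
        simp only [Complex.mul_re, Complex.mul_im, Complex.conj_re, Complex.conj_im, Complex.neg_re, Complex.neg_im,
          Complex.I_re, Complex.I_im]
        ring
      rw [this]
    rw [e2] at h3
    exact h3

/-! ### sums -/

theorem sum3 (f : ℕ → ℝ) : ∀ R : ℕ, ∑ i ∈ range (3 * R), f i = ∑ k ∈ range R, ∑ a ∈ range 3, f (3 * k + a)
  | 0 => by simp
  | R + 1 => by
    rw [Finset.sum_range_succ _ R, ← sum3 f R, show 3 * (R + 1) = 3 * R + 3 by ring, Finset.sum_range_add]

theorem fm_cut {n : ℕ} {F : ℕ → ℕ → ℤ} (hs : ∀ i j, F i j = F j i) (b : ℕ → ℂ) : ∀ {E : ℕ},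
    (∀ e < E, ∀ j < n + e + 1, F (n + e) j = 0) → fm (n + E) F b = fm n F b
  | 0, _ => rfl
  | E + 1, h => by
    rw [← fm_cut hs b (E := E) fun e he => h e (by omega)]
    unfold fm
    rw [show n + (E + 1) = n + E + 1 by ring, Finset.sum_range_succ]
    have h1 : ∀ j ∈ range (n + E + 1), F (n + E) j = 0 := fun j hj => h E (by omega) j (Finset.mem_range.1 hj)
    have e1 : ∑ j ∈ range (n + E + 1), (F (n + E) j : ℝ) * (b (n + E) * conj (b j)).re = 0 :=
      Finset.sum_eq_zero fun j hj => by rw [h1 j hj]; simp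
    rw [e1, add_zero]
    refine Finset.sum_congr rfl fun i hi => ?_
    have := Finset.mem_range.1 hi
    rw [Finset.sum_range_succ, hs i (n + E), h1 i (Finset.mem_range.2 (by omega))]
    simp

theorem sum_tri (A : ℕ → ℕ → ℝ) : ∀ R : ℕ, ∑ k ∈ range R, ∑ l ∈ range R, A k l =
    ∑ k ∈ range R, ∑ j ∈ range (R - k), (if j = 0 then A k k else A k (k + j) + A (k + j) k)
  | 0 => by simp
  | R + 1 => by
    have e1 : ∀ k ∈ range R, ∑ j ∈ range (R + 1 - k), (if j = 0 then A k k else A k (k + j) + A (k + j) k) =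
        ∑ j ∈ range (R - k), (if j = 0 then A k k else A k (k + j) + A (k + j) k) + (A k R + A R k) := by
      intro k hk
      have := Finset.mem_range.1 hk
      rw [show R + 1 - k = R - k + 1 by omega, Finset.sum_range_succ, if_neg (by omega : R - k ≠ 0)]
      rw [show k + (R - k) = R by omega]
    rw [Finset.sum_range_succ (fun k => ∑ j ∈ range (R + 1 - k), _) R, Finset.sum_congr rfl e1,
      Finset.sum_add_distrib, ← sum_tri A R, Finset.sum_range_succ (fun k => ∑ l ∈ range (R + 1), A k l) R]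
    simp only [Finset.sum_range_succ (fun l => A _ l) R, Finset.sum_add_distrib, Nat.add_sub_cancel_left,
      Finset.sum_range_one, if_true]
    ring

/-- the form of a matrix on the first `3 R` components -/
theorem fm_blocks (R : ℕ) (F : ℕ → ℕ → ℤ) (hs : ∀ i j, F i j = F j i) (z : ℕ → ℂ) (u : ℤ → ℂ) :
    fm (3 * R) F (bas R z u) = ∑ k ∈ range R, ∑ j ∈ range (R - k),
      (if j = 0 then 1 else 2) * (bl (fun a b => F (3 * k + a) (3 * (k + j) + b)) z (ep k * conj (ep (k + j)))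
        * (yv u k * yv u (k + j))) := by
  have e0 : fm (3 * R) F (bas R z u) = ∑ k ∈ range R, ∑ l ∈ range R,
      bl (fun a b => F (3 * k + a) (3 * l + b)) z (ep k * conj (ep l)) * (yv u k * yv u l) := by
    unfold fm
    rw [sum3]
    have : ∀ k ∈ range R, ∀ a ∈ range 3, ∑ j ∈ range (3 * R), (F (3 * k + a) j : ℝ) *
        (bas R z u (3 * k + a) * conj (bas R z u j)).re = ∑ l ∈ range R, ∑ b ∈ range 3,
          (F (3 * k + a) (3 * l + b) : ℝ) * (z a * conj (z b) * (ep k * conj (ep l))).re * (yv u k * yv u l) := by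
      intro k hk a ha
      rw [sum3]
      refine Finset.sum_congr rfl fun l hl => Finset.sum_congr rfl fun b hb => ?_
      rw [bas_lt (Finset.mem_range.1 ha) (Finset.mem_range.1 hk), bas_lt (Finset.mem_range.1 hb) (Finset.mem_range.1 hl)]
      simp only [map_mul, Complex.mul_re, Complex.mul_im, Complex.conj_re, Complex.conj_im, Complex.ofReal_re,
        Complex.ofReal_im]
      ring
    rw [Finset.sum_congr rfl fun k hk => Finset.sum_congr rfl fun a ha => this k hk a ha]
    refine Finset.sum_congr rfl fun k _ => ?_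
    rw [Finset.sum_comm]
    refine Finset.sum_congr rfl fun l _ => ?_
    unfold bl
    rw [Finset.sum_mul]
    refine Finset.sum_congr rfl fun a _ => ?_
    rw [Finset.sum_mul]
  rw [e0, sum_tri]
  refine Finset.sum_congr rfl fun k _ => Finset.sum_congr rfl fun j _ => ?_
  by_cases h : j = 0
  · rw [if_pos h, if_pos h, h, add_zero, one_mul]
  · rw [if_neg h, if_neg h]
    have e : bl (fun a b => F (3 * (k + j) + a) (3 * k + b)) z (ep (k + j) * conj (ep k)) =
        bl (fun a b => F (3 * k + a) (3 * (k + j) + b)) z (ep k * conj (ep (k + j))) := by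
      unfold bl
      rw [Finset.sum_comm]
      refine Finset.sum_congr rfl fun a _ => Finset.sum_congr rfl fun b _ => ?_
      beta_reduce
      rw [hs (3 * (k + j) + b) (3 * k + a)]
      have : (z b * conj (z a) * (ep (k + j) * conj (ep k))).re = (z a * conj (z b) * (ep k * conj (ep (k + j)))).re := by
        simp only [Complex.mul_re, Complex.mul_im, Complex.conj_re, Complex.conj_im]
        ring
      rw [this]
    rw [e]
    ring

/-- **the table**: `Sc` times the form of the list is at least the form of the table minus `5 |z|² Σ |y_k y_l|` -/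
theorem chk_ok {R E D Dc w : ℕ} {Ls : List ℕ} {V : List (List ℤ)} {T : Tf} {C : List (List (List ℤ))} {Sc : ℕ}
    (h : chk R E D Dc w Ls V T C Sc = true) (z : ℕ → ℂ) (u : ℤ → ℂ) (h0 : u 0 = 1) (hu : ∀ n, u (-n) = conj (u n)) :
    ∑ k ∈ range R, ∑ j ∈ range (R - k), (PLK.iz (PLK.w3 (z 0) (z 1) (z 2)) ((C.getD k []).getD j []) *
      (yv u k * yv u (k + j)) - 5 * NCD.nz z * |yv u k * yv u (k + j)|) ≤ Sc * (BRG.e2 z u T).re := by
  unfold chk at h
  split at h
  · exact absurd h (by simp)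
  rename_i hR
  have hR : 1 ≤ R := Nat.le_of_ble_eq_true hR
  rw [frN_eq, frN_eq] at h
  obtain ⟨G, c, h1, hG, hv⟩ := goT_ok hR h
  rw [frN_eq, frN_eq, zero_add, zero_add] at h1
  split at h1
  · exact absurd h1 (by simp)
  rename_i hb
  simp only [Bool.and_eq_true] at hb
  obtain ⟨hb1, hb2, hw⟩ := hb
  have hb1 : 2 * 2 ^ (w - 1) = 2 ^ w := Nat.eq_of_beq_eq_true hb1
  have hb2 : c + 1 ≤ 2 ^ (w - 1) := Nat.le_of_ble_eq_true hb2
  have hw : 1 ≤ w := Nat.le_of_ble_eq_true hw
  rw [frN_eq] at h1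
  set N := 3 * R + E with hN
  set hf := 2 ^ (w - 1) with hhf
  have hGl : ∀ i j, -(hf : ℤ) ≤ G i j := fun i j => by
    have a := (abs_le.1 (hG i j)).1
    have : ((c + 1 : ℕ) : ℤ) ≤ (hf : ℤ) := by exact_mod_cast hb2
    push_cast at this
    linarith
  have hGu : ∀ i j, G i j < hf := fun i j => by
    have a := (abs_le.1 (hG i j)).2
    have : ((c + 1 : ℕ) : ℤ) ≤ (hf : ℤ) := by exact_mod_cast hb2
    push_cast at this
    linarith
  have hpk := pk_off (w := w) (N := N) (hf := hf) hw (by omega) G hGl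
  have e0 : Int.add (pk w (w * N) N G) (Int.ofNat (hf * (((2 ^ (w * N * N) - 1) / (2 ^ (w * N) - 1)) *
      ((2 ^ (w * N) - 1) / (2 ^ w - 1))))) =
      ((∑ i ∈ range N, (∑ j ∈ range N, (G i j + hf).toNat * (2 ^ w) ^ j) * ((2 ^ w) ^ N) ^ i : ℕ) : ℤ) := hpk
  split at h1
  · exact absurd h1 (by simp)
  rename_i X hX
  rw [e0] at hX
  have hX : X = ∑ i ∈ range N, (∑ j ∈ range N, (G i j + hf).toNat * (2 ^ w) ^ j) * ((2 ^ w) ^ N) ^ i := by
    have h5 : ((∑ i ∈ range N, (∑ j ∈ range N, (G i j + hf).toNat * (2 ^ w) ^ j) * ((2 ^ w) ^ N) ^ i : ℕ) : ℤ) =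
      (X : ℤ) := hX
    exact_mod_cast h5.symm
  rw [frN_eq, frN_eq, frN_eq, Bool.and_eq_true, Bool.and_eq_true] at h1
  obtain ⟨hZ, hE, hC⟩ := h1
  set Z := Dc * D * D * Ls.prod with hZd
  have hZ : 0 < Z := Nat.le_of_ble_eq_true hZ
  set v : ℕ → List ℤ := fun i => nth [] V i with hvd
  have hdig : ∀ i < N, ∀ j < N, dg X w N (2 ^ w) i j = (G i j + hf).toNat := by
    intro i hi j hj
    rw [hX]
    refine dg_eq (a := fun i j => (G i j + hf).toNat) (fun i _ j _ => ?_) hi hj
    have a1 := hGl i j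
    have a2 := hGu i j
    have : ((2 ^ w : ℕ) : ℤ) = 2 * hf := by rw [← hb1]; push_cast; ring
    zify
    rw [Int.toNat_of_nonneg (by linarith)]
    push_cast at this
    linarith
  set F : ℕ → ℕ → ℤ := fun i j => fold Ls (v i) (v j) (G i j + G j i) with hF
  have hFF : ∀ i < N, ∀ j < N, FF X w N (2 ^ w) Ls V i j = F i j := by
    intro i hi j hj
    unfold FF
    rw [hdig i hi j hj, hdig j hj i hi, hF]
    congr 1
    show (((G i j + hf).toNat + (G j i + hf).toNat : ℕ) : ℤ) - ((2 ^ w : ℕ) : ℤ) = _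
    have : ((2 ^ w : ℕ) : ℤ) = 2 * hf := by rw [← hb1]; push_cast; ring
    rw [this]
    push_cast
    rw [Int.toNat_of_nonneg (by linarith [hGl i j]), Int.toNat_of_nonneg (by linarith [hGl j i])]
    ring
  have hFs : ∀ i j, F i j = F j i := fun i j => by
    simp only [hF]
    rw [fold_comm, add_comm]
  -- the free components
  have hE' : ∀ e < E, ∀ j < 3 * R + e + 1, F (3 * R + e) j = 0 := by
    intro e he j hj
    have a := allN_ok (allN_ok hE e he) j hj
    rw [hFF _ (by omega) _ (by omega)] at a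
    exact isz_ok a
  have f1 := fold_le N (bas R z u) Ls v fun i j => G i j + G j i
  have f2 : fm N F (bas R z u) = fm (3 * R) F (bas R z u) := fm_cut hFs _ hE'
  have f3 : fm N F (bas R z u) ≤ (Ls.prod : ℕ) * fm N (fun i j => G i j + G j i) (bas R z u) := f1
  rw [fm_two, ← hv z u h0 hu, f2, fm_blocks R F hFs] at f3
  have f4 : ((Ls.prod : ℕ) : ℝ) * (2 * (((Dc * D * D : ℕ) : ℝ) * (BRG.e2 z u T).re)) = 2 * (Z * (BRG.e2 z u T).re) := by
    rw [hZd]
    push_cast
    ring
  rw [f4] at f3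
  -- the comparison
  have hz : (0 : ℝ) < Z := by exact_mod_cast hZ
  have hSc : (0 : ℝ) ≤ Sc := Nat.cast_nonneg _
  have key : ∀ k ∈ range R, ∀ j ∈ range (R - k), 2 * Z * (PLK.iz (PLK.w3 (z 0) (z 1) (z 2)) ((C.getD k []).getD j []) *
      (yv u k * yv u (k + j)) - 5 * NCD.nz z * |yv u k * yv u (k + j)|) ≤
      Sc * ((if j = 0 then 1 else 2) * (bl (fun a b => F (3 * k + a) (3 * (k + j) + b)) z (ep k * conj (ep (k + j)))
        * (yv u k * yv u (k + j)))) := by
    intro k hk j hj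
    have hk := Finset.mem_range.1 hk
    have hj := Finset.mem_range.1 hj
    have a := allN_ok (allN_ok hC k hk) j hj
    have cong : bl (fun a b => FF X w N (2 ^ w) Ls V (3 * k + a) (3 * (k + j) + b)) z (ep k * conj (ep (k + j))) =
        bl (fun a b => F (3 * k + a) (3 * (k + j) + b)) z (ep k * conj (ep (k + j))) := by
      unfold bl
      refine Finset.sum_congr rfl fun a ha => Finset.sum_congr rfl fun b hb => ?_
      have := Finset.mem_range.1 ha
      have := Finset.mem_range.1 hb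
      simp only
      rw [hFF _ (by omega) _ (by omega)]
    have fin : ∀ (m : ℝ) (Z' : ℝ) (W cc y : ℝ), 0 < m → m * Z' = 2 * Z → |(Sc : ℝ) * W - Z' * cc| ≤ Z' * (5 * NCD.nz z) →
        2 * Z * (cc * y - 5 * NCD.nz z * |y|) ≤ Sc * (m * (W * y)) := by
      intro m Z' W cc y hm hmz hh
      have h6 := mul_le_mul_of_nonneg_right hh (abs_nonneg y)
      rw [← abs_mul] at h6
      have h7 := (abs_le.1 h6).1
      have h8 := mul_le_mul_of_nonneg_left h7 hm.le
      rw [← hmz]
      linarith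
    rcases j with _ | j
    · simp only [if_true]
      have b := pr_ok (by omega : 0 < 2 * Z) a z
      rw [nth_eq, nth_eq] at b
      rw [add_zero] at cong
      rw [cong] at b
      rw [add_zero]
      refine fin 1 ((2 * Z : ℕ) : ℝ) _ _ _ one_pos (by push_cast; ring) ?_
      exact_mod_cast b
    · rw [if_neg (by omega)]
      have b := pr_ok hZ a z
      rw [nth_eq, nth_eq, cong] at b
      refine fin 2 (Z : ℝ) _ _ _ two_pos rfl ?_
      exact_mod_cast b
  have f5 := Finset.sum_le_sum fun k hk => Finset.sum_le_sum fun j hj => key k hk j hj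
  simp only [← Finset.mul_sum] at f5
  have f6 := mul_le_mul_of_nonneg_left f3 hSc
  have f7 : 2 * (Z : ℝ) * (∑ k ∈ range R, ∑ j ∈ range (R - k), (PLK.iz (PLK.w3 (z 0) (z 1) (z 2)) ((C.getD k []).getD j []) *
      (yv u k * yv u (k + j)) - 5 * NCD.nz z * |yv u k * yv u (k + j)|)) ≤ 2 * Z * (Sc * (BRG.e2 z u T).re) := by
    calc _ ≤ _ := f5
      _ ≤ _ := f6
      _ = _ := by ring
  exact le_of_mul_le_mul_left f7 (by positivity)

end Pool.Agent.FPX.NCK
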