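import Mathlib
import Pool.Agent.FPX.NCK
import Pool.Agent.FPX.MOT
import Pool.Agent.FPX.MCP

/-
MOU (helper66): the table of a modal certificate against RAW lists: the free components `z₃, z₄, …` (only in the mode `0`)
are removed by explicit squares (helper19's `NCK`), the packed matrix is compared with the table of the certificate.
-/

set_option autoImplicit false

open Complex Finset
open scoped ComplexConjugate

noncomputable section

namespace Pool.Agent.FPX.MOU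

open BRG (Lf Tf Qf)
open NCA (yv)
open NCK (frN frN_eq bas bas_lt ep fm fold fold_le fold_comm FF goT goT_ok allN allN_ok isz isz_ok nth dg pk_off dg_eq
  fm_two fm_cut sum3)
open Pool.Agent.FPX.ALX (St)
open Pool.Agent.FPX.BTN (va e1)
open Pool.Agent.FPX.QST (Wn)
open Pool.Agent.FPX.MOE (U Y)
open Pool.Agent.FPX.MOB (Cd sl al al_ok)

/-! ### the packed matrix -/

/-- the packed matrix of a list and the removal of the free components -/
def withF (R E D Dc w : ℕ) (Ls : List ℕ) (V : List (List ℤ)) (T : Tf) (k : ℕ → (ℕ → ℕ → ℤ) → Bool) : Bool :=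
  match Nat.ble 1 R with
  | false => false
  | true =>
    frN (3 * R + E) fun N => frN (w * N) fun wN => goT R E D Dc w wN T 0 0 fun g b =>
      frN (2 ^ w) fun B => frN (2 ^ (w - 1)) fun hf =>
        match Nat.beq (2 * hf) B && (Nat.ble (b + 1) hf && Nat.ble 1 w) with
        | false => false
        | true =>
          frN (hf * (((2 ^ (wN * N) - 1) / (2 ^ wN - 1)) * ((2 ^ wN - 1) / (2 ^ w - 1)))) fun off =>
          match Int.add g (Int.ofNat off) with
          | .negSucc _ => false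
          | .ofNat X => frN X fun X => frN (Dc * D * D * Ls.prod) fun Z => Nat.ble 1 Z &&
            (allN E (fun e => allN (3 * R + e + 1) fun j => isz (FF X w N B Ls V (3 * R + e) j)) &&
            k Z (FF X w N B Ls V))

theorem withF_ok {R E D Dc w : ℕ} {Ls : List ℕ} {V : List (List ℤ)} {T : Tf} {k : ℕ → (ℕ → ℕ → ℤ) → Bool}
    (h : withF R E D Dc w Ls V T k = true) : ∃ (Z : ℕ) (F F' : ℕ → ℕ → ℤ), 0 < Z ∧ k Z F' = true ∧
      (∀ i < 3 * R, ∀ j < 3 * R, F' i j = F i j) ∧ (∀ i j, F i j = F j i) ∧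
      ∀ (z : ℕ → ℂ) (u : ℤ → ℂ), u 0 = 1 → (∀ n, u (-n) = conj (u n)) →
        fm (3 * R) F (bas R z u) ≤ 2 * (Z * (BRG.e2 z u T).re) := by
  unfold withF at h
  split at h
  · exact absurd h (by simp)
  rename_i hR
  have hR : 1 ≤ R := Nat.le_of_ble_eq_true hR
  rw [frN_eq, frN_eq] at h
  obtain ⟨G, c, h1, hG, hv⟩ := goT_ok hR h
  rw [frN_eq, frN_eq, zero_add, zero_add] at h1
  split at h1
  · exact absurd h1 (by simp)
  rename_i hb
  simp only [Bool.and_eq_true] at hb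
  obtain ⟨hb1, hb2, hw⟩ := hb
  have hb1 : 2 * 2 ^ (w - 1) = 2 ^ w := Nat.eq_of_beq_eq_true hb1
  have hb2 : c + 1 ≤ 2 ^ (w - 1) := Nat.le_of_ble_eq_true hb2
  have hw : 1 ≤ w := Nat.le_of_ble_eq_true hw
  rw [frN_eq] at h1
  set N := 3 * R + E with hN
  set hf := 2 ^ (w - 1) with hhf
  have hGl : ∀ i j, -(hf : ℤ) ≤ G i j := fun i j => by
    have a := (abs_le.1 (hG i j)).1
    have : ((c + 1 : ℕ) : ℤ) ≤ (hf : ℤ) := by exact_mod_cast hb2
    push_cast at this
    linarith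
  have hGu : ∀ i j, G i j < hf := fun i j => by
    have a := (abs_le.1 (hG i j)).2
    have : ((c + 1 : ℕ) : ℤ) ≤ (hf : ℤ) := by exact_mod_cast hb2
    push_cast at this
    linarith
  have hpk := pk_off (w := w) (N := N) (hf := hf) hw (by omega) G hGl
  have e0 : Int.add (NCK.pk w (w * N) N G) (Int.ofNat (hf * (((2 ^ (w * N * N) - 1) / (2 ^ (w * N) - 1)) *
      ((2 ^ (w * N) - 1) / (2 ^ w - 1))))) =
      ((∑ i ∈ range N, (∑ j ∈ range N, (G i j + hf).toNat * (2 ^ w) ^ j) * ((2 ^ w) ^ N) ^ i : ℕ) : ℤ) := hpk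
  split at h1
  · exact absurd h1 (by simp)
  rename_i X hX
  rw [e0] at hX
  have hX : X = ∑ i ∈ range N, (∑ j ∈ range N, (G i j + hf).toNat * (2 ^ w) ^ j) * ((2 ^ w) ^ N) ^ i := by
    have h5 : ((∑ i ∈ range N, (∑ j ∈ range N, (G i j + hf).toNat * (2 ^ w) ^ j) * ((2 ^ w) ^ N) ^ i : ℕ) : ℤ) =
      (X : ℤ) := hX
    exact_mod_cast h5.symm
  rw [frN_eq, frN_eq, Bool.and_eq_true, Bool.and_eq_true] at h1
  obtain ⟨hZ, hE, hC⟩ := h1
  set Z := Dc * D * D * Ls.prod with hZd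
  have hZ : 0 < Z := Nat.le_of_ble_eq_true hZ
  set v : ℕ → List ℤ := fun i => nth [] V i with hvd
  have hdig : ∀ i < N, ∀ j < N, dg X w N (2 ^ w) i j = (G i j + hf).toNat := by
    intro i hi j hj
    rw [hX]
    refine dg_eq (a := fun i j => (G i j + hf).toNat) (fun i _ j _ => ?_) hi hj
    have a1 := hGl i j
    have a2 := hGu i j
    have : ((2 ^ w : ℕ) : ℤ) = 2 * hf := by rw [← hb1]; push_cast; ring
    zify
    rw [Int.toNat_of_nonneg (by linarith)]
    push_cast at this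
    linarith
  set F : ℕ → ℕ → ℤ := fun i j => fold Ls (v i) (v j) (G i j + G j i) with hF
  have hFF : ∀ i < N, ∀ j < N, FF X w N (2 ^ w) Ls V i j = F i j := by
    intro i hi j hj
    unfold FF
    rw [hdig i hi j hj, hdig j hj i hi, hF]
    congr 1
    show (((G i j + hf).toNat + (G j i + hf).toNat : ℕ) : ℤ) - ((2 ^ w : ℕ) : ℤ) = _
    have : ((2 ^ w : ℕ) : ℤ) = 2 * hf := by rw [← hb1]; push_cast; ring
    rw [this]
    push_cast
    rw [Int.toNat_of_nonneg (by linarith [hGl i j]), Int.toNat_of_nonneg (by linarith [hGl j i])]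
    ring
  have hFs : ∀ i j, F i j = F j i := fun i j => by
    simp only [hF]
    rw [fold_comm, add_comm]
  have hE' : ∀ e < E, ∀ j < 3 * R + e + 1, F (3 * R + e) j = 0 := by
    intro e he j hj
    have a := allN_ok (allN_ok hE e he) j hj
    rw [hFF _ (by omega) _ (by omega)] at a
    exact isz_ok a
  refine ⟨Z, F, _, hZ, hC, fun i hi j hj => hFF i (by omega) j (by omega), hFs, fun z u h0 hu => ?_⟩
  have f1 := fold_le N (bas R z u) Ls v fun i j => G i j + G j i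
  have f2 : fm N F (bas R z u) = fm (3 * R) F (bas R z u) := fm_cut hFs _ hE'
  have f3 : fm N F (bas R z u) ≤ (Ls.prod : ℕ) * fm N (fun i j => G i j + G j i) (bas R z u) := f1
  rw [fm_two, ← hv z u h0 hu, f2] at f3
  refine f3.trans (le_of_eq ?_)
  rw [hZd]
  push_cast
  ring

/-! ### from real and imaginary parts to modes -/

section sG

variable {M : Type*} [AddCommGroup M]

/-- the coefficients of the modes from those of real and imaginary parts (twice) -/
def sG (f : ℕ → M) (p : ℕ) : M := if p = 0 then f 0 + f 0 else if p % 2 = 1 then f p - f (p + 1) else f (p - 1) + f p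

theorem sG0 (f : ℕ → M) : sG f 0 = f 0 + f 0 := by
  unfold sG
  rw [if_pos rfl]

theorem sG1 (f : ℕ → M) (h : ℕ) : sG f (2 * h + 1) = f (2 * h + 1) - f (2 * h + 2) := by
  unfold sG
  rw [if_neg (by omega), if_pos (by omega)]

theorem sG2 (f : ℕ → M) (h : ℕ) : sG f (2 * h + 2) = f (2 * h + 1) + f (2 * h + 2) := by
  unfold sG
  rw [if_neg (by omega), if_neg (by omega)]
  rfl

theorem sG_congr {f g : ℕ → M} {R p : ℕ} (hR : R % 2 = 1) (hp : p < R) (h : ∀ k < R, f k = g k) : sG f p = sG g p := by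
  unfold sG
  split_ifs with h1 h2
  · rw [h 0 (by omega)]
  · rw [h p hp, h (p + 1) (by omega)]
  · rw [h p hp, h (p - 1) (by omega)]

end sG

theorem sG_cast (f : ℕ → ℤ) (p : ℕ) : ((sG f p : ℤ) : ℂ) = sG (fun k => ((f k : ℤ) : ℂ)) p := by
  unfold sG
  split_ifs <;> push_cast <;> rfl

theorem sG_sum (n : ℕ) (g : ℕ → ℕ → ℂ) (t : ℕ → ℂ) (p : ℕ) :
    sG (fun k => ∑ q ∈ range n, g k q * t q) p = ∑ q ∈ range n, sG (fun k => g k q) p * t q := by
  unfold sG
  split_ifs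
  · rw [← Finset.sum_add_distrib]
    exact Finset.sum_congr rfl fun q _ => by ring
  · rw [← Finset.sum_sub_distrib]
    exact Finset.sum_congr rfl fun q _ => by ring
  · rw [← Finset.sum_add_distrib]
    exact Finset.sum_congr rfl fun q _ => by ring

/-- the relation between the two bases -/
def Rel (H : ℕ) (β y : ℕ → ℂ) : Prop :=
  β 0 = y 0 ∧ ∀ h < H, β (2 * h + 1) = (y (2 * h + 2) + y (2 * h + 1)) / 2 ∧
    β (2 * h + 2) = (y (2 * h + 2) - y (2 * h + 1)) / 2

theorem lin {β y : ℕ → ℂ} (c : ℕ → ℂ) : ∀ {H : ℕ}, Rel H β y →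
    ∑ k ∈ range (2 * H + 1), c k * β k = (1 / 2) * ∑ p ∈ range (2 * H + 1), sG c p * y p
  | 0, h => by
    simp only [mul_zero, zero_add, Finset.sum_range_one, sG0]
    rw [h.1]
    ring
  | H + 1, h => by
    have ih := lin c (H := H) ⟨h.1, fun i hi => h.2 i (by omega)⟩
    have e := h.2 H (by omega)
    rw [show 2 * (H + 1) + 1 = 2 * H + 1 + 1 + 1 by ring, Finset.sum_range_succ _ (2 * H + 1 + 1),
      Finset.sum_range_succ _ (2 * H + 1), ih, Finset.sum_range_succ (fun p => sG c p * y p) (2 * H + 1 + 1),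
      Finset.sum_range_succ (fun p => sG c p * y p) (2 * H + 1), show 2 * H + 1 + 1 = 2 * H + 2 by ring, sG1, sG2,
      e.1, e.2]
    ring

theorem bil {H : ℕ} {β y β' y' : ℕ → ℂ} (h : Rel H β y) (h' : Rel H β' y') (F : ℕ → ℕ → ℤ) :
    4 * ∑ k ∈ range (2 * H + 1), ∑ l ∈ range (2 * H + 1), ((F k l : ℤ) : ℂ) * (β k * conj (β' l)) =
      ∑ p ∈ range (2 * H + 1), ∑ q ∈ range (2 * H + 1),
        ((sG (fun k => sG (fun l => F k l) q) p : ℤ) : ℂ) * (y p * conj (y' q)) := by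
  have hc : Rel H (fun l => conj (β' l)) (fun q => conj (y' q)) := by
    refine ⟨by simp only [h'.1], fun i hi => ?_⟩
    have := h'.2 i hi
    constructor
    · simp only [this.1, map_div₀, map_add, Complex.conj_ofNat]
    · simp only [this.2, map_div₀, map_sub, Complex.conj_ofNat]
  have e1 : ∀ k, ∑ l ∈ range (2 * H + 1), ((F k l : ℤ) : ℂ) * (β k * conj (β' l)) =
      (1 / 2 * ∑ q ∈ range (2 * H + 1), sG (fun l => ((F k l : ℤ) : ℂ)) q * conj (y' q)) * β k := by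
    intro k
    rw [← lin _ hc, Finset.sum_mul]
    exact Finset.sum_congr rfl fun l _ => by ring
  simp only [e1]
  rw [lin _ h, ← mul_assoc, Finset.mul_sum]
  refine Finset.sum_congr rfl fun p _ => ?_
  have e2 : sG (fun k => (1 / 2 : ℂ) * ∑ q ∈ range (2 * H + 1), sG (fun l => ((F k l : ℤ) : ℂ)) q * conj (y' q)) p =
      1 / 2 * ∑ q ∈ range (2 * H + 1), sG (fun k => sG (fun l => ((F k l : ℤ) : ℂ)) q) p * conj (y' q) := by
    rw [← sG_sum]
    unfold sG
    split_ifs <;> ring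
  rw [e2, Finset.mul_sum, Finset.sum_mul, Finset.mul_sum]
  refine Finset.sum_congr rfl fun q _ => ?_
  rw [sG_cast]
  simp only [sG_cast]
  ring

/-- the table in the modes (four times) -/
def AA (F : ℕ → ℕ → ℤ) (a p b q : ℕ) : ℤ := sG (fun k => sG (fun l => F (3 * k + a) (3 * l + b)) q) p

theorem AA_symm {F : ℕ → ℕ → ℤ} (hF : ∀ i j, F i j = F j i) (a p b q : ℕ) : AA F b q a p = AA F a p b q := by
  unfold AA sG
  simp only [hF (3 * _ + b) (3 * _ + a)]
  split_ifs <;> ring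

theorem AA_congr {R : ℕ} (hR : R % 2 = 1) {F F' : ℕ → ℕ → ℤ} (h : ∀ i < 3 * R, ∀ j < 3 * R, F' i j = F i j)
    {a b p q : ℕ} (ha : a < 3) (hb : b < 3) (hp : p < R) (hq : q < R) : AA F' a p b q = AA F a p b q := by
  unfold AA
  refine sG_congr hR hp fun k hk => sG_congr hR hq fun l hl => ?_
  exact h _ (by omega) _ (by omega)

theorem rel_bas {s : ℝ} {X : ℝ → ℝ} (hX : St s X) (hb : ∀ a, |X a| ≤ 1) {R H : ℕ} (hR : R = 2 * H + 1) (z : ℕ → ℂ) {a : ℕ}
    (ha : a < 3) : Rel H (fun k => bas R z (BRG.vl va X e1) (3 * k + a)) (fun p => z a * U X (sl p)) := by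
  have hn := (BRG.fr_va hX hb).vl_neg
  constructor
  · simp only
    rw [bas_lt ha (by omega), MOB.sl0]
    unfold U ep yv
    rw [if_pos (Or.inl rfl), if_pos rfl, if_pos rfl]
    push_cast
    ring
  · intro h hh
    have u1 : U X (sl (2 * h + 2)) = BRG.vl va X e1 (2 * h + 3) := by
      have e : MOC.sl (2 * h + 3) = sl (2 * h + 2) := by
        rw [MOB.sl2]
        unfold MOC.sl
        rw [if_neg (by omega)]
        omega
      rw [← e]
      refine (MOC.vl_sl hX ?_).symm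
      unfold MOC.okM
      simp only [Bool.or_eq_true, Bool.and_eq_true, decide_eq_true_eq, ne_eq]
      right
      constructor <;> omega
    have u2 : U X (sl (2 * h + 1)) = conj (BRG.vl va X e1 (2 * h + 3)) := by
      have e : MOC.sl (-(2 * h + 3)) = sl (2 * h + 1) := by
        rw [MOB.sl1]
        unfold MOC.sl
        rw [if_neg (by omega)]
        omega
      rw [← e, ← hn]
      refine (MOC.vl_sl hX ?_).symm
      unfold MOC.okM
      simp only [Bool.or_eq_true, Bool.and_eq_true, decide_eq_true_eq, ne_eq]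
      right
      constructor <;> omega
    simp only
    rw [u1, u2, bas_lt ha (by omega), bas_lt ha (by omega)]
    set c := BRG.vl va X e1 (2 * h + 3) with hc
    unfold ep yv
    have c1 : (((2 * h + 1 : ℕ) : ℤ) + 2) = 2 * h + 3 := by push_cast; ring
    have c2 : (((2 * h + 2 : ℕ) : ℤ) + 1) = 2 * h + 3 := by push_cast; ring
    rw [if_pos (Or.inr (by omega)), if_neg (by omega), if_pos (by omega), if_neg (by omega), if_neg (by omega),
      if_neg (by omega), c1, c2, ← hc]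
    have e3 : conj c = ((c.re : ℝ) : ℂ) - I * ((c.im : ℝ) : ℂ) := by
      apply Complex.ext <;> simp
    have e4 : c = ((c.re : ℝ) : ℂ) + I * ((c.im : ℝ) : ℂ) := by
      apply Complex.ext <;> simp
    constructor
    · rw [e3]
      nth_rewrite 2 [e4]
      ring
    · rw [e3]
      nth_rewrite 2 [e4]
      ring

/-- **the form in the modes** -/
theorem fm_slots {s : ℝ} {X : ℝ → ℝ} (hX : St s X) (hb : ∀ a, |X a| ≤ 1) {R : ℕ} (hR : R % 2 = 1) (F : ℕ → ℕ → ℤ)
    (z : ℕ → ℂ) : 4 * fm (3 * R) F (bas R z (BRG.vl va X e1)) = ∑ a ∈ range 3, ∑ b ∈ range 3, ∑ p ∈ range R,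
      ∑ q ∈ range R, (AA F a p b q : ℝ) * ((z a * U X (sl p)) * conj (z b * U X (sl q))).re := by
  obtain ⟨H, rfl⟩ : ∃ H, R = 2 * H + 1 := ⟨R / 2, by omega⟩
  set R := 2 * H + 1 with hRd
  set B := bas R z (BRG.vl va X e1) with hB
  have e1 : fm (3 * R) F B = ∑ a ∈ range 3, ∑ b ∈ range 3, (∑ k ∈ range R, ∑ l ∈ range R,
      ((F (3 * k + a) (3 * l + b) : ℤ) : ℂ) * (B (3 * k + a) * conj (B (3 * l + b)))).re := by
    unfold fm
    rw [sum3, Finset.sum_comm]
    refine Finset.sum_congr rfl fun a _ => ?_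
    have : ∀ k ∈ range R, ∑ j ∈ range (3 * R), (F (3 * k + a) j : ℝ) * (B (3 * k + a) * conj (B j)).re =
        ∑ b ∈ range 3, ∑ l ∈ range R, (F (3 * k + a) (3 * l + b) : ℝ) * (B (3 * k + a) * conj (B (3 * l + b))).re := by
      intro k _
      rw [sum3, Finset.sum_comm]
    rw [Finset.sum_congr rfl this, Finset.sum_comm]
    refine Finset.sum_congr rfl fun b _ => ?_
    rw [Complex.re_sum]
    refine Finset.sum_congr rfl fun k _ => ?_
    rw [Complex.re_sum]
    refine Finset.sum_congr rfl fun l _ => ?_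
    have h1 : ∀ (n : ℤ) (w : ℂ), (((n : ℤ) : ℂ) * w).re = (n : ℝ) * w.re := by
      intro n w
      rw [Complex.mul_re, Complex.intCast_re, Complex.intCast_im]
      ring
    rw [h1]
  rw [e1, Finset.mul_sum]
  refine Finset.sum_congr rfl fun a ha => ?_
  rw [Finset.mul_sum]
  refine Finset.sum_congr rfl fun b hb' => ?_
  have k1 := bil (rel_bas hX hb hRd z (Finset.mem_range.1 ha)) (rel_bas hX hb hRd z (Finset.mem_range.1 hb'))
    (fun k l => F (3 * k + a) (3 * l + b))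
  have k2 := congrArg Complex.re k1
  rw [show (4 : ℂ) = ((4 : ℝ) : ℂ) by norm_num, Complex.re_ofReal_mul] at k2
  refine k2.trans ?_
  rw [Complex.re_sum]
  refine Finset.sum_congr rfl fun p _ => ?_
  rw [Complex.re_sum]
  refine Finset.sum_congr rfl fun q _ => ?_
  rw [Complex.mul_re, Complex.intCast_re, Complex.intCast_im]
  unfold AA
  ring

variable {m : ℕ}

theorem Frm_sum {s : ℝ} {X : ℝ → ℝ} (h : St s X) {N NT : ℕ} (hN : NT ≤ 2 * N - 1) {M : Fin m → ℤ → Fin m → ℤ → ℝ}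
    (hz : ∀ a b, ∀ p < 2 * N - 1, ∀ q < 2 * N - 1, NT ≤ p ∨ NT ≤ q → M a (sl p) b (sl q) = 0) (z : Fin m → ℂ) :
    MOE.Frm N M z X = ∑ a, ∑ b, ∑ p ∈ range NT, ∑ q ∈ range NT, M a (sl p) b (sl q)
      * (Y z X a (sl p) * (starRingEnd ℂ) (Y z X b (sl q))).re := by
  have e0 : MOE.Frm N M z X = ∑ a, ∑ b, ∑ s ∈ Wn N, ∑ t ∈ Wn N, M a s b t * (Y z X a s * (starRingEnd ℂ) (Y z X b t)).re := by
    unfold MOE.Frm
    simp only [Complex.re_sum, Complex.re_ofReal_mul]
  rw [e0]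
  refine Finset.sum_congr rfl fun a _ => Finset.sum_congr rfl fun b _ => ?_
  rw [MOB.sum_sl N (fun s => ∑ t ∈ Wn N, M a s b t * (Y z X a s * (starRingEnd ℂ) (Y z X b t)).re)
    (by simp only [MOT.Y1 h, zero_mul, Complex.zero_re, mul_zero, Finset.sum_const_zero])]
  have e2 : ∀ p, ∑ t ∈ Wn N, M a (sl p) b t * (Y z X a (sl p) * (starRingEnd ℂ) (Y z X b t)).re
      = ∑ q ∈ range (2 * N - 1), M a (sl p) b (sl q) * (Y z X a (sl p) * (starRingEnd ℂ) (Y z X b (sl q))).re :=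
    fun p => MOB.sum_sl N (fun t => M a (sl p) b t * (Y z X a (sl p) * (starRingEnd ℂ) (Y z X b t)).re)
      (by simp only [MOT.Y1 h, map_zero, mul_zero, Complex.zero_re])
  simp only [e2]
  have hs : range NT ⊆ range (2 * N - 1) := Finset.range_subset_range.2 hN
  symm
  refine (Finset.sum_congr rfl fun p hp => ?_).trans (Finset.sum_subset hs ?_)
  · refine Finset.sum_subset hs fun q hq hq' => ?_
    rw [hz a b p (Finset.mem_range.1 (hs hp)) q (Finset.mem_range.1 hq)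
      (Or.inr (not_lt.1 fun h => hq' (Finset.mem_range.2 h))), zero_mul]
  · intro p hp hp'
    refine Finset.sum_eq_zero fun q hq => ?_
    rw [hz a b p (Finset.mem_range.1 hp) q (Finset.mem_range.1 hq)
      (Or.inl (not_lt.1 fun h => hp' (Finset.mem_range.2 h))), zero_mul]

/-! ### the test -/

def sE (f : ℕ → ℤ) (p : ℕ) : ℤ :=
  match p with
  | 0 => Int.add (f 0) (f 0)
  | k + 1 =>
    match Nat.mod k 2 with
    | 0 => Int.sub (f (k + 1)) (f (k + 2))
    | _ + 1 => Int.add (f k) (f (k + 1))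

theorem sE_eq (f : ℕ → ℤ) (p : ℕ) : sE f p = sG f p := by
  unfold sE sG
  rcases p with _ | k
  · rw [if_pos rfl]
    rfl
  · have hk : Nat.mod k 2 = k % 2 := rfl
    rw [if_neg (by omega)]
    simp only [hk]
    rcases Nat.mod_two_eq_zero_or_one k with h | h
    · rw [h, if_pos (by omega)]
      rfl
    · rw [h, if_neg (by omega)]
      rfl

def aE (F : ℕ → ℕ → ℤ) (a p b q : ℕ) : ℤ :=
  sE (fun k => frN (3 * k + a) fun i => sE (fun l => frN (3 * l + b) fun j => F i j) q) p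

theorem aE_eq (F : ℕ → ℕ → ℤ) (a p b q : ℕ) : aE F a p b q = AA F a p b q := by
  unfold aE AA
  rw [sE_eq]
  congr 1
  funext k
  rw [frN_eq, sE_eq]
  congr 1
  funext l
  rw [frN_eq]

/-- the test of one entry -/
def t2 (D : Cd) (Z4 : ℕ) (F : ℕ → ℕ → ℤ) (i j : ℕ) : Bool :=
  frN (Nat.div i D.NT) fun a => frN (Nat.mod i D.NT) fun p => frN (Nat.div j D.NT) fun b => frN (Nat.mod j D.NT) fun q =>
  match Nat.beq i j with
  | true => MOT.nn (Int.sub (Int.sub (Int.mul (Int.ofNat D.L) (aE F a p b q)) (Int.mul (Int.ofNat (Nat.mul 2 Z4)) (D.T a p b q)))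
      (Int.ofNat (Nat.mul Z4 (Nat.add (Nat.mul D.m D.NT) (Nat.mul (Nat.add (Nat.mul 2 D.J) 1) D.m)))))
  | false => Nat.ble (Int.natAbs (Int.sub (Int.mul (Int.ofNat D.L) (aE F a p b q))
      (Int.mul (Int.ofNat Z4) (Int.add (D.T a p b q) (D.T b q a p))))) Z4

/-- **the test of the tables against raw lists** -/
def chk (D : Cd) (E Dd Dc w : ℕ) (Ls : List ℕ) (V : List (List ℤ)) (wq D3 : ℕ) (T : Tf) (q : Qf) : Bool :=
  and (Nat.beq D.m 3) (and (Nat.blt 0 D.L) (and (Nat.beq (Nat.mod D.NT 2) 1) (and (Nat.ble D.NT (2 * D.N - 1))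
    (and (Nat.blt 0 wq) (and (Nat.blt 0 D3) (and (MOC.chQ D.m D.J q) (and (MOT.okq D3 q)
      (and (Nat.blt (MOT.l1 (MOT.cQ D.m D.J D3 q)) (Nat.pow 2 (Nat.sub wq 1)))
        (and (MOT.tQ D wq (MOT.pF wq (D.m * D.m * (2 * D.J + 1)) (MOT.pk wq (MOT.cQ D.m D.J D3 q))) D3)
          (withF D.NT E Dd Dc w Ls V T fun Z F => frN (Nat.mul 4 Z) fun Z4 =>
            al (D.m * D.NT) fun j => al (j + 1) fun i => t2 D Z4 F i j))))))))))

theorem t2_ok {D : Cd} {Z : ℕ} {F F' : ℕ → ℕ → ℤ} (hm : D.m = 3) (hL : 0 < D.L) (hR : D.NT % 2 = 1) (hZ : 0 < Z)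
    (hF : ∀ i < 3 * D.NT, ∀ j < 3 * D.NT, F' i j = F i j) {a b : Fin D.m} {p q : ℕ} (hp : p < D.NT) (hq : q < D.NT)
    (h : t2 D (4 * Z) F' (a * D.NT + p) (b * D.NT + q) = true) :
    (¬ (a = b ∧ p = q) → |((AA F a p b q : ℝ) / (8 * Z) - D.T a p b q / D.L)
        + ((AA F a p b q : ℝ) / (8 * Z) - D.T b q a p / D.L)| ≤ 2 * (1 / (2 * D.L)))
      ∧ (a = b ∧ p = q → 1 / (2 * (D.L : ℝ)) * (D.m * D.NT : ℕ) + 1 / (2 * D.L) * ((2 * D.J + 1) * D.m)
        ≤ (AA F a p b q : ℝ) / (8 * Z) - D.T a p b q / D.L) := by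
  have hL' : (0 : ℝ) < D.L := by exact_mod_cast hL
  have hZ' : (0 : ℝ) < Z := by exact_mod_cast hZ
  have h0 : 0 < D.NT := by omega
  set i := (a : ℕ) * D.NT + p with hi'
  set j := (b : ℕ) * D.NT + q with hj'
  have d1 : Nat.div i D.NT = a ∧ Nat.mod i D.NT = p := by
    change i / D.NT = a ∧ i % D.NT = p
    rw [hi', Nat.mul_comm, Nat.mul_add_mod, Nat.mod_eq_of_lt hp, Nat.mul_add_div h0, Nat.div_eq_of_lt hp, add_zero]
    exact ⟨rfl, rfl⟩
  have d2 : Nat.div j D.NT = b ∧ Nat.mod j D.NT = q := by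
    change j / D.NT = b ∧ j % D.NT = q
    rw [hj', Nat.mul_comm, Nat.mul_add_mod, Nat.mod_eq_of_lt hq, Nat.mul_add_div h0, Nat.div_eq_of_lt hq, add_zero]
    exact ⟨rfl, rfl⟩
  have ha3 : (a : ℕ) < 3 := by have := a.2; omega
  have hb3 : (b : ℕ) < 3 := by have := b.2; omega
  unfold t2 at h
  rw [frN_eq, frN_eq, frN_eq, frN_eq, d1.1, d1.2, d2.1, d2.2, aE_eq, AA_congr hR hF ha3 hb3 hp hq] at h
  set A := AA F a p b q with hA
  constructor
  · intro hne
    have hij : i ≠ j := fun hh => hne (by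
      have := (MOT.idx_inj hp hq).1 hh
      exact ⟨Fin.ext this.1, this.2⟩)
    have hbq : Nat.beq i j = false := by
      rcases hx : Nat.beq i j with _ | _
      · rfl
      · exact absurd (Nat.eq_of_beq_eq_true hx) hij
    rw [hbq] at h
    have h2 := MOT.nabs_le (Nat.le_of_ble_eq_true h)
    have e : ((Int.sub (Int.mul (Int.ofNat D.L) A) (Int.mul (Int.ofNat (4 * Z)) (Int.add (D.T a p b q) (D.T b q a p))) : ℤ) : ℝ)
        = (4 * Z) * (D.L * (((A : ℝ) / (8 * Z) - D.T a p b q / D.L) + ((A : ℝ) / (8 * Z) - D.T b q a p / D.L))) := by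
      have e1 : Int.sub (Int.mul (Int.ofNat D.L) A) (Int.mul (Int.ofNat (4 * Z)) (Int.add (D.T a p b q) (D.T b q a p)))
        = (D.L : ℤ) * A - ((4 * Z : ℕ) : ℤ) * (D.T a p b q + D.T b q a p) := rfl
      rw [e1]
      push_cast
      field_simp
      ring
    rw [e, abs_mul, abs_of_pos (by positivity : (0 : ℝ) < 4 * Z), abs_mul, abs_of_pos hL'] at h2
    have h3 : (4 * (Z : ℝ)) * (D.L * |((A : ℝ) / (8 * Z) - D.T a p b q / D.L) + ((A : ℝ) / (8 * Z) - D.T b q a p / D.L)|)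
        ≤ (4 * Z) * 1 := by
      rw [mul_one]
      refine h2.trans (le_of_eq ?_)
      push_cast
      ring
    have h4 := le_of_mul_le_mul_left h3 (by positivity)
    rw [show 2 * (1 / (2 * (D.L : ℝ))) = 1 / D.L by field_simp, le_div_iff₀ hL']
    linarith
  · rintro ⟨hab, rfl⟩
    have hij : i = j := by rw [hi', hj', hab]
    have hbq : Nat.beq i j = true := by rw [hij]; exact Nat.beq_refl j
    rw [hbq] at h
    have h2 := MOT.nn_ok h
    have e1 : Int.sub (Int.sub (Int.mul (Int.ofNat D.L) A) (Int.mul (Int.ofNat (Nat.mul 2 (4 * Z))) (D.T a p b p)))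
      (Int.ofNat (Nat.mul (4 * Z) (Nat.add (Nat.mul D.m D.NT) (Nat.mul (Nat.add (Nat.mul 2 D.J) 1) D.m))))
        = (D.L : ℤ) * A - ((2 * (4 * Z) : ℕ) : ℤ) * D.T a p b p - (((4 * Z) * (D.m * D.NT + (2 * D.J + 1) * D.m) : ℕ) : ℤ) := rfl
    rw [e1] at h2
    have h3 : (0 : ℝ) ≤ (((D.L : ℤ) * A - ((2 * (4 * Z) : ℕ) : ℤ) * D.T a p b p
      - (((4 * Z) * (D.m * D.NT + (2 * D.J + 1) * D.m) : ℕ) : ℤ) : ℤ) : ℝ) := by exact_mod_cast h2
    have h5 : (((D.L : ℤ) * A - ((2 * (4 * Z) : ℕ) : ℤ) * D.T a p b p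
      - (((4 * Z) * (D.m * D.NT + (2 * D.J + 1) * D.m) : ℕ) : ℤ) : ℤ) : ℝ) = (8 * Z * D.L) * (((A : ℝ) / (8 * Z)
        - D.T a p b p / D.L) - (1 / (2 * (D.L : ℝ)) * (D.m * D.NT : ℕ) + 1 / (2 * D.L) * ((2 * D.J + 1) * D.m))) := by
      push_cast
      field_simp
      ring
    rw [h5] at h3
    have h6 := nonneg_of_mul_nonneg_right h3 (by positivity)
    linarith

/-- **from the certificate with the tables to the form with raw lists** -/
theorem main {D : Cd} {E Dd Dc w : ℕ} {Ls : List ℕ} {V : List (List ℤ)} {wq D3 : ℕ} {T : Tf} {q : Qf}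
    (hc : chk D E Dd Dc w Ls V wq D3 T q = true) {s : ℝ} {X : ℝ → ℝ} (hX : St s X) (hb : ∀ a, |X a| ≤ 1)
    (h : ∀ z : Fin D.m → ℂ, 0 ≤ MOE.Frm D.N (MOT.Tr D) z X + MOE.Qf D.J (MOT.qr D) z X) (z : ℕ → ℂ) :
    0 ≤ (BRG.e2 z (BRG.vl va X e1) T + BRG.eq2 z (BRG.Zr 2 va X e1) q).re := by
  unfold chk at hc
  simp only [Bool.and_eq_true, Nat.blt_eq, Nat.ble_eq, Nat.beq_eq] at hc
  obtain ⟨hm, c2, c3, c4, c6, c9, c11, c12, c14, c16, c15⟩ := hc
  have : NeZero D.m := ⟨by omega⟩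
  have c3' : D.NT % 2 = 1 := c3
  have hL : (0 : ℝ) < D.L := by exact_mod_cast c2
  obtain ⟨Z, F, F', hZ, hk, hFF, hFs, hv⟩ := withF_ok c15
  rw [frN_eq] at hk
  have hZ' : (0 : ℝ) < Z := by exact_mod_cast hZ
  have h0 : 0 < D.NT := by omega
  have fr := BRG.fr_va hX hb
  -- the table
  set Af : Fin D.m → ℤ → Fin D.m → ℤ → ℝ := fun a s b t => if MOB.ps s < D.NT ∧ MOB.ps t < D.NT then
    (AA F a (MOB.ps s) b (MOB.ps t) : ℝ) / (8 * Z) else 0 with hAf
  have hAs : ∀ (a b : Fin D.m) {p q : ℕ}, p < D.NT → q < D.NT → Af a (sl p) b (sl q) = (AA F a p b q : ℝ) / (8 * Z) := by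
    intro a b p q hp hq
    rw [hAf]
    simp only
    rw [MOB.ps_sl, MOB.ps_sl, if_pos ⟨hp, hq⟩]
  have hA0 : ∀ (a b : Fin D.m) {p q : ℕ}, (D.NT ≤ p ∨ D.NT ≤ q) → Af a (sl p) b (sl q) = 0 := by
    intro a b p q hpq
    rw [hAf]
    simp only
    rw [MOB.ps_sl, MOB.ps_sl, if_neg (by omega)]
  have eT : MOE.Frm D.N Af (MOC.zf D.m z) X ≤ (BRG.e2 z (BRG.vl va X e1) T).re := by
    have v1 := hv z (BRG.vl va X e1) (by unfold BRG.vl; rw [if_pos rfl]) fr.vl_neg
    have v2 := fm_slots hX hb c3' F z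
    rw [Frm_sum hX c4 (fun a b p _ q _ hpq => hA0 a b hpq)]
    have v3 : ∑ a, ∑ b, ∑ p ∈ range D.NT, ∑ q ∈ range D.NT, Af a (sl p) b (sl q)
        * (Y (MOC.zf D.m z) X a (sl p) * (starRingEnd ℂ) (Y (MOC.zf D.m z) X b (sl q))).re
        = 1 / (8 * Z) * ∑ a ∈ range 3, ∑ b ∈ range 3, ∑ p ∈ range D.NT, ∑ q ∈ range D.NT, (AA F a p b q : ℝ) *
          ((z a * U X (sl p)) * conj (z b * U X (sl q))).re := by
      rw [← hm, ← Fin.sum_univ_eq_sum_range (fun a => ∑ b ∈ range D.m, ∑ p ∈ range D.NT, ∑ q ∈ range D.NT,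
        (AA F a p b q : ℝ) * ((z a * U X (sl p)) * conj (z b * U X (sl q))).re), Finset.mul_sum]
      refine Finset.sum_congr rfl fun a _ => ?_
      rw [← Fin.sum_univ_eq_sum_range (fun b => ∑ p ∈ range D.NT, ∑ q ∈ range D.NT,
        (AA F a p b q : ℝ) * ((z a * U X (sl p)) * conj (z b * U X (sl q))).re), Finset.mul_sum]
      refine Finset.sum_congr rfl fun b _ => ?_
      rw [Finset.mul_sum]
      refine Finset.sum_congr rfl fun p hp => ?_
      rw [Finset.mul_sum]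
      refine Finset.sum_congr rfl fun q hq => ?_
      rw [hAs a b (Finset.mem_range.1 hp) (Finset.mem_range.1 hq)]
      unfold Y MOC.zf
      ring
    rw [v3, ← v2]
    have e5 : 1 / (8 * (Z : ℝ)) * (4 * fm (3 * D.NT) F (bas D.NT z (BRG.vl va X e1))) =
        1 / (2 * (Z : ℝ)) * fm (3 * D.NT) F (bas D.NT z (BRG.vl va X e1)) := by
      field_simp
      ring
    rw [e5]
    have e6 := mul_le_mul_of_nonneg_left v1 (by positivity : (0 : ℝ) ≤ 1 / (2 * (Z : ℝ)))
    refine e6.trans (le_of_eq ?_)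
    field_simp
  -- the symbol
  have eQ : (BRG.eq2 z (BRG.Zr 2 va X e1) q).re = MOE.Qf D.J
      (fun a b j => ((MOL.qO (MOC.cvQ D.m q) a b j : ℚ) : ℝ)) (MOC.zf D.m z) X := by
    have a2 : (fun (a b : Fin D.m) (j : ℤ) => ((MOL.qO (MOC.cvQ D.m q) a b j : ℚ) : ℝ))
        = MOL.qO (MOL.mapQ (Rat.castHom ℝ) (MOC.cvQ D.m q)) := by
      funext a b j
      rw [MOL.qO_map]
      rfl
    rw [a2, MOL.Qf_qO _ _ (MOC.okQ_cv c11), MOC.QV_cv hX z c11]
  set δ : Fin D.m → ℤ → Fin D.m → ℤ → ℝ := fun a s b t => Af a s b t - MOT.Tr D a s b t with hδ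
  set δq : Fin D.m → Fin D.m → ℤ → ℝ := fun a b j => ((MOL.qO (MOC.cvQ D.m q) a b j : ℚ) : ℝ) - MOT.qr D a b j with hδq
  have e1 : MOE.Frm D.N Af (MOC.zf D.m z) X = MOE.Frm D.N (MOT.Tr D) (MOC.zf D.m z) X + MOE.Frm D.N δ (MOC.zf D.m z) X := by
    rw [← MOE.Frm_add]
    congr 1
    funext a s b t
    rw [hδ]
    ring
  have e2 : MOE.Qf D.J (fun a b j => ((MOL.qO (MOC.cvQ D.m q) a b j : ℚ) : ℝ)) (MOC.zf D.m z) X =
      MOE.Qf D.J (MOT.qr D) (MOC.zf D.m z) X + MOE.Qf D.J δq (MOC.zf D.m z) X := by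
    rw [← MOT.Qf_add]
    congr 1
    funext a b j
    rw [hδq]
    ring
  have ia : ∀ (a : Fin D.m) {p : ℕ}, p < D.NT → a * D.NT + p < D.m * D.NT := by
    intro a p hp
    have : (a + 1) * D.NT ≤ D.m * D.NT := Nat.mul_le_mul_right _ a.2
    rw [Nat.add_mul, one_mul] at this
    omega
  have key : ∀ {a b : Fin D.m} {p q : ℕ}, p < D.NT → q < D.NT → a * D.NT + p ≤ b * D.NT + q → _ :=
    fun {a b p q} hp hq hij => t2_ok hm c2 c3' hZ hFF hp hq
      (al_ok (al_ok hk (b * D.NT + q) (ia b hq)) (a * D.NT + p) (by omega))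
  have hTr : ∀ (a b : Fin D.m) {p q : ℕ}, p < D.NT → q < D.NT → MOT.Tr D a (sl p) b (sl q) = D.T a p b q / D.L := by
    intro a b p q hp hq
    unfold MOT.Tr Cd.Tc
    rw [MOB.ps_sl, MOB.ps_sl, if_pos ⟨hp, hq⟩]
  have k1 := MOT.Frm_bd hX h0 c4 (δ := δ) (e := 1 / (2 * (D.L : ℝ))) (f := 1 / (2 * (D.L : ℝ)) * ((2 * D.J + 1) * D.m))
    (by positivity) (by positivity) (by
      intro a b p _ q _ hpq
      rw [hδ]
      simp only
      rw [hA0 a b hpq]
      unfold MOT.Tr Cd.Tc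
      rw [MOB.ps_sl, MOB.ps_sl, if_neg (by omega)]
      simp) (by
      intro a b p hp q hq hne
      rw [hδ]
      simp only
      rw [hTr a b hp hq, hTr b a hq hp, hAs a b hp hq, hAs b a hq hp]
      rcases Nat.le_total (a * D.NT + p) (b * D.NT + q) with hij | hij
      · have := (key hp hq hij).1 hne
        rw [AA_symm hFs a p b q]
        exact this
      · have := (key hq hp hij).1 fun hh => hne ⟨hh.1.symm, hh.2.symm⟩
        rw [add_comm, ← AA_symm hFs a p b q]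
        exact this) (by
      intro a p hp
      rw [hδ]
      simp only
      rw [hTr a a hp hp, hAs a a hp hp]
      exact (key hp hp le_rfl).2 ⟨rfl, rfl⟩) (MOC.zf D.m z)
  have k2 := MOT.Qf_bd hX.cont hb (J := D.J) (q := δq) (e := 1 / (2 * (D.L : ℝ))) (by
      have key2 : ∀ (a b : Fin D.m), a ≤ b → ∀ j ∈ Finset.Ico (-(D.J : ℤ)) (D.J + 1),
          |δq a b j + δq b a (-j)| ≤ 2 * (1 / (2 * (D.L : ℝ))) := by
        intro a b hab j hj
        rw [Finset.mem_Ico] at hj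
        obtain ⟨i, hi⟩ : ∃ i : ℕ, (i : ℤ) = j + D.J := ⟨(j + D.J).toNat, by omega⟩
        have hi1 : i < 2 * D.J + 1 := by omega
        have hab' : (a : ℕ) < b + 1 := by
          have : (a : ℕ) ≤ b := hab
          omega
        have k := MOT.q1_ok (a := a) (b := b) c2 c6 c9 c11 c12 c14 hi1 (al_ok (al_ok (al_ok c16 b b.2) a hab') i hi1)
        have j1 : (i : ℤ) - D.J = j := by omega
        have j2 : ((2 * D.J - i : ℕ) : ℤ) - D.J = -j := by omega
        have j3 : (j + D.J).toNat = i := by omega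
        have j4 : (-j + D.J).toNat = 2 * D.J - i := by omega
        rw [j1, j2] at k
        rw [hδq]
        simp only
        unfold MOT.qr
        rw [j3, j4]
        exact k
      intro a b j hj
      rcases le_total a b with hab | hab
      · exact key2 a b hab j hj
      · have := key2 b a hab (-j) (by
          rw [Finset.mem_Ico] at hj ⊢
          omega)
        rw [neg_neg, add_comm] at this
        exact this) (MOC.zf D.m z)
  have k0 := h (MOC.zf D.m z)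
  rw [Complex.add_re, eQ, e2]
  rw [e1] at eT
  linarith

section

open Pool.Agent.FPX.MCP (NN hTr hqr)
open Pool.Agent.FPX.MOB (Sq)

variable {D : Cd} {n1 nF bL lam bK kap tau Xb b h K ε nε E Dd Dc w wq D3 : ℕ} {Ls : List ℕ} {V : List (List ℤ)}
  {Fl K00 K11 K22 R01 I01 R02 I02 R12 I12 G0 G1 G2 : List ℕ} {T : Tf} {q : Qf}

/-- **raw lists from a modal certificate without products** -/
theorem nn0 (ht : D.hdr = true) (hm : D.m = 3) (hn : n1 + 1 = D.N)
    (hc : PSD3.chk n1 0 bL lam bK kap tau Xb b h K ε nε Fl K00 K11 K22 R01 I01 R02 I02 R12 I12 G0 G1 G2 D.S = true)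
    (hT : chk D E Dd Dc w Ls V wq D3 T q = true) {s' : ℝ} (h0 : 0 ≤ s') (hs : s' ≤ D.sn / D.h) (h1 : s' ≤ 1) :
    NN s' T q := by
  intro X hX hb z
  refine main hT hX (fun a => (hb a).trans (by linarith)) (fun z => ?_) z
  exact Cd.main0 ht hm hn hc (hTr D) (hqr D) hX h0 hs z

/-- **raw lists from a modal certificate with products of squares** -/
theorem nnS (Q : Sq) (ht : D.hdr = true) (hm : D.m = 3) (hn : n1 + 1 = D.N) (hQ : Q.DP + 1 ≤ 2 * D.N)
    (hA : Q.okA nF = true) (hF : Q.okF D.sn D.h bL lam nF 0 Fl = true)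
    (hc : PSD3.chk n1 nF bL lam bK kap tau Xb b h K ε nε Fl K00 K11 K22 R01 I01 R02 I02 R12 I12 G0 G1 G2 D.S = true)
    (hT : chk D E Dd Dc w Ls V wq D3 T q = true) {s' : ℝ} (h0 : 0 ≤ s') (hs : s' ≤ D.sn / D.h) (h1 : s' ≤ 1) :
    NN s' T q := by
  intro X hX hb z
  refine main hT hX (fun a => (hb a).trans (by linarith)) (fun z => ?_) z
  exact Cd.mainS Q ht hm hn hQ hA hF hc (hTr D) (hqr D) hX h0 hs z

end

end Pool.Agent.FPX.MOU
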