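import Pool.Agent.FPX.MOU
import Pool.Agent.FPX.ECT

/-
MOV (helper66): a control point of the production class from a modal certificate.
-/

set_option autoImplicit false

open Complex

noncomputable section

namespace Pool.Agent.FPX.MOV

open BRG (Lf Tf Qf)
open Pool.Agent.FPX.BV (PsiL)
open Pool.Agent.FPX.ECT (CTD ctl_of)
open Pool.Agent.FPX.MOB (Cd Sq)
open Pool.Agent.FPX.MCP (NN)

/-- the class of the control point lies in the class of the certificate -/
def sOk (d : CTD) (D : Cd) : Bool := decide (0 ≤ d.s) && (decide (0 < D.h) && decide (d.s * D.h ≤ D.sn))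

theorem sOk_ok {d : CTD} {D : Cd} (h : sOk d D = true) : (0 : ℝ) ≤ d.s ∧ (d.s : ℝ) ≤ D.sn / D.h := by
  unfold sOk at h
  simp only [Bool.and_eq_true, decide_eq_true_eq] at h
  obtain ⟨h0, h1, h2⟩ := h
  refine ⟨by exact_mod_cast h0, ?_⟩
  rw [le_div_iff₀ (by exact_mod_cast h1)]
  exact_mod_cast h2

theorem s_le {d : CTD} (h : d.ok = true) : (d.s : ℝ) ≤ 1 := by
  unfold CTD.ok at h
  rw [Bool.and_eq_true, decide_eq_true_eq] at h
  exact_mod_cast h.1

variable {d : CTD} {D : Cd} {n1 nF bL lam bK kap tau Xb b h K ε nε E Dd Dc w wq D3 : ℕ} {Ls : List ℕ} {V : List (List ℤ)}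
  {Fl K00 K11 K22 R01 I01 R02 I02 R12 I12 G0 G1 G2 : List ℕ}

/-- **a control point** from a modal certificate without products -/
theorem ctl0 (hd : d.ok = true) (hs : sOk d D = true) (ht : D.hdr = true) (hm : D.m = 3) (hn : n1 + 1 = D.N)
    (hc : PSD3.chk n1 0 bL lam bK kap tau Xb b h K ε nε Fl K00 K11 K22 R01 I01 R02 I02 R12 I12 G0 G1 G2 D.S = true)
    (hT : MOU.chk D E Dd Dc w Ls V wq D3 d.T d.Q = true) : CEL.CtlZ PsiL 23 23 CEL.T0 d.s d.mu d.v d.U :=
  ctl_of hd (MOU.nn0 ht hm hn hc hT (sOk_ok hs).1 (sOk_ok hs).2 (s_le hd))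

/-- **a control point** from a modal certificate with products of squares -/
theorem ctlS (Q : Sq) (hd : d.ok = true) (hs : sOk d D = true) (ht : D.hdr = true) (hm : D.m = 3) (hn : n1 + 1 = D.N)
    (hQ : Q.DP + 1 ≤ 2 * D.N) (hA : Q.okA nF = true) (hF : Q.okF D.sn D.h bL lam nF 0 Fl = true)
    (hc : PSD3.chk n1 nF bL lam bK kap tau Xb b h K ε nε Fl K00 K11 K22 R01 I01 R02 I02 R12 I12 G0 G1 G2 D.S = true)
    (hT : MOU.chk D E Dd Dc w Ls V wq D3 d.T d.Q = true) : CEL.CtlZ PsiL 23 23 CEL.T0 d.s d.mu d.v d.U :=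
  ctl_of hd (MOU.nnS Q ht hm hn hQ hA hF hc hT (sOk_ok hs).1 (sOk_ok hs).2 (s_le hd))

end Pool.Agent.FPX.MOV
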