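import Mathlib
import Pool.Agent.FPX.MON
import Pool.Agent.FPX.ECU

/-
MOW (helper50): `NN` of the raw lists of a control point from the modal certificate: the comparison of the lists with the
record (`NCL.chkN`) and the modal certificate of the integer tables of the record (`MON`).
-/

set_option autoImplicit false

open MeasureTheory Set Filter Topology Complex
open scoped ComplexConjugate

noncomputable section

namespace Pool.Agent.FPX.MOW

open Pool.Agent.FPX.MOB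
open Pool.Agent.FPX.BRG (Tf Qf)
open Pool.Agent.FPX.MCP (NN)
open Pool.Agent.FPX.MON (tf qfR)
open Pool.Agent.FPX.ECT (rB)

section

variable {D : Cd} {n1 nF bL lam bK kap tau Xb b h K ε nε : ℕ}
  {Fl K00 K11 K22 R01 I01 R02 I02 R12 I12 G0 G1 G2 : List ℕ} {w D1 D2 wq D3 : ℕ}

/-- **without products** -/
theorem nn0 (ht : D.hdr = true) (hm : D.m = 3) (hn : n1 + 1 = D.N)
    (hc : PSD3.chk n1 0 bL lam bK kap tau Xb b h K ε nε Fl K00 K11 K22 R01 I01 R02 I02 R12 I12 G0 G1 G2 D.S = true)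
    {R : ℕ} {C : List (List (List ℤ))} {Qm : List (List ℤ)} (hC : MON.ok R C Qm = true)
    (hk : MOT.chk D w D1 D2 wq D3 (tf C (rB R)) (qfR 0 Qm) = true)
    {S E Dd Dc w' : ℕ} {Ls : List ℕ} {V : List (List ℤ)} {T : Tf} {Q : Qf}
    (hS : Nat.blt 0 S = true) (hL : NCL.chkN R E Dd Dc w' Ls V T Q C Qm S = true)
    (hs1 : D.sn ≤ D.h) : NN (((D.sn : ℚ) / (D.h : ℚ) : ℚ) : ℝ) T Q := by
  intro X hX hb z
  have hS' : 0 < S := by
    have := Nat.le_of_ble_eq_true (show Nat.ble (0 + 1) S = true from hS)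
    omega
  have e : (((D.sn : ℚ) / (D.h : ℚ) : ℚ) : ℝ) = (D.sn : ℝ) / (D.h : ℝ) := by push_cast; rfl
  rw [e] at hX hb
  have h0 : (0 : ℝ) ≤ (D.sn : ℝ) / (D.h : ℝ) := by positivity
  have h1 : (D.sn : ℝ) / (D.h : ℝ) ≤ 1 := by
    refine div_le_one_of_le₀ (by exact_mod_cast hs1) (by positivity)
  exact MON.of0 ht hm hn hc hC hk (Sc := (S : ℚ)) (by exact_mod_cast hS') (NCL.near_of_chkN hL) hX h0 le_rfl
    (fun a => (hb a).trans (by linarith)) z

/-- **with the products of a family of squares** -/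
theorem nnS (Sq' : Sq) (ht : D.hdr = true) (hm : D.m = 3) (hn : n1 + 1 = D.N) (hQ : Sq'.DP + 1 ≤ 2 * D.N)
    (hA : Sq'.okA nF = true) (hF : Sq'.okF D.sn D.h bL lam nF 0 Fl = true)
    (hc : PSD3.chk n1 nF bL lam bK kap tau Xb b h K ε nε Fl K00 K11 K22 R01 I01 R02 I02 R12 I12 G0 G1 G2 D.S = true)
    {R : ℕ} {C : List (List (List ℤ))} {Qm : List (List ℤ)} (hC : MON.ok R C Qm = true)
    (hk : MOT.chk D w D1 D2 wq D3 (tf C (rB R)) (qfR 0 Qm) = true)
    {S E Dd Dc w' : ℕ} {Ls : List ℕ} {V : List (List ℤ)} {T : Tf} {Q : Qf}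
    (hS : Nat.blt 0 S = true) (hL : NCL.chkN R E Dd Dc w' Ls V T Q C Qm S = true)
    (hs1 : D.sn ≤ D.h) : NN (((D.sn : ℚ) / (D.h : ℚ) : ℚ) : ℝ) T Q := by
  intro X hX hb z
  have hS' : 0 < S := by
    have := Nat.le_of_ble_eq_true (show Nat.ble (0 + 1) S = true from hS)
    omega
  have e : (((D.sn : ℚ) / (D.h : ℚ) : ℚ) : ℝ) = (D.sn : ℝ) / (D.h : ℝ) := by push_cast; rfl
  rw [e] at hX hb
  have h0 : (0 : ℝ) ≤ (D.sn : ℝ) / (D.h : ℝ) := by positivity
  have h1 : (D.sn : ℝ) / (D.h : ℝ) ≤ 1 := by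
    refine div_le_one_of_le₀ (by exact_mod_cast hs1) (by positivity)
  exact MON.ofS Sq' ht hm hn hQ hA hF hc hC hk (Sc := (S : ℚ)) (by exact_mod_cast hS') (NCL.near_of_chkN hL) hX h0 le_rfl
    (fun a => (hb a).trans (by linarith)) z

end

end Pool.Agent.FPX.MOW
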