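import Pool.Agent.FPX.MT00
import Pool.Agent.FPX.CRZ
import Pool.Agent.FPX.SWIr25_3_16

/-
FPX, MTQ00 (helper14): the table MT00 with its certificate.
-/

namespace Pool.Agent.FPX.MTQ00

open Pool.Agent.FPX

set_option maxRecDepth 100000

theorem tc : tcOk MT00.T SWIr25_3_16.L = true := by decide +kernel

theorem tb : tbOk MT00.T = true := by decide +kernel

theorem tp : tpOk (722 / 125) (37951 / 1250) (77 / 200) MT00.T = true := by decide +kernel

theorem tq : TabQ (QW (SWX.av.map WA.mw)) ((1 / 4 : ℚ) : ℝ) ((3 / 16 : ℚ) : ℝ) MT00.T ((722 / 125 : ℚ) : ℝ) ((37951 / 1250 : ℚ) : ℝ)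
    ((77 / 200 : ℚ) : ℝ) :=
  tabQ_of SWX.av_sw (by norm_num) SWIr25_3_16.ok tc tb MT00.good tp

end Pool.Agent.FPX.MTQ00
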