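import Mathlib
import Pool.Agent.FPX.SWXF

/-
FPX, SWIr25_1_1 (helper89, members of helper29): member list of the modulus closing for the levels `≥ 1/4`
and the share `1`.
-/

namespace Pool.Agent.FPX.SWIr25_1_1

open Pool.Agent.FPX

def L : List MQ :=
  [⟨327, -21/6250, 2001/2000, 24833/25000, 0, 1, 52139/1000000, 23/100000, 13/2000⟩,
   ⟨298, -51/5000, 20009/20000, 19741/20000, 0, 1, 105419/1000000, 343/500000, 133/10000⟩,
   ⟨235, -1101/100000, 20009/20000, 1973/2000, 0, 1, 13727/125000, 633/1000000, 69/5000⟩,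
   ⟨179, -449/25000, 2001/2000, 98263/100000, 0, 1, 35503/250000, 217/500000, 23/1250⟩,
   ⟨180, -3313/100000, 10029/10000, 97703/100000, 0, 1, 112587/625000, 10237/5000000, 2257/100000⟩,
   ⟨178, -34/3125, 100051/100000, 98661/100000, 0, 1, 54019/500000, 201/500000, 69/5000⟩,
   ⟨181, -1841/25000, 253/250, 6043/6250, 0, 1, 2301769/10000000, 59607/10000000, 173/6250⟩,
   ⟨182, -11267/100000, 102301/100000, 24013/25000, 0, 1, 244379/1000000, 1663/200000, 293/10000⟩,
   ⟨204, -469/25000, 20181/20000, 1, 0, 1, 31/1000000, 1/1000000, 1⟩,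
   ⟨205, -3767/25000, 26519/25000, 1, 0, 1, 3/625000, 1/10000000, 1⟩,
   ⟨183, -18413/50000, 107617/100000, 92681/100000, 0, 1, 888243/2500000, 242063/10000000, 4459/100000⟩,
   ⟨195, -13763/50000, 109549/100000, 1, 0, 1, 11/1000000, 1/1000000, 1⟩,
   ⟨196, -1499/3125, 14107/12500, 96287/100000, 0, 1, 4727/40000, 4141/1000000, 3/200⟩,
   ⟨184, -34847/50000, 5663/5000, 44983/50000, 0, 1, 832043/2000000, 101903/2500000, 1083/20000⟩,
   ⟨329, -43159/100000, 56567/50000, 1, 0, 1, 1/10000000, 1/10000000, 1⟩,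
   ⟨185, -20183/20000, 11727/10000, 87881/100000, 0, 1, 93913/200000, 57597/1000000, 311/5000⟩,
   ⟨197, -82713/100000, 58469/50000, 45909/50000, 0, 1, 8327/31250, 21861/1000000, 173/5000⟩,
   ⟨206, -13441/20000, 14641/12500, 1, 0, 1, 9/1000000, 1/1000000, 1⟩,
   ⟨198, -52157/50000, 23917/20000, 22751/25000, 0, 1, 137761/500000, 6403/250000, 9/250⟩,
   ⟨186, -26671/20000, 4831/4000, 43179/50000, 0, 1, 124547/250000, 70841/1000000, 133/2000⟩,
   ⟨207, -123581/100000, 123201/100000, 12493/12500, 0, 1, 1051/1000000, 1/1000000, 4/625⟩,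
   ⟨199, -78847/50000, 123759/100000, 2722/3125, 0, 1, 205239/500000, 2807/50000, 547/10000⟩,
   ⟨187, -11059/6250, 124369/100000, 8461/10000, 0, 1, 53943/100000, 8941/100000, 29/400⟩,
   ⟨200, -53943/25000, 127573/100000, 85351/100000, 0, 1, 2245241/5000000, 717271/10000000, 6027/100000⟩,
   ⟨330, -6187/4000, 125499/100000, 1, 0, 1, 11/1000000, 1/1000000, 1⟩,
   ⟨188, -229719/100000, 127571/100000, 82707/100000, 0, 1, 597967/1000000, 14407/125000, 403/5000⟩,
   ⟨189, -281351/100000, 130107/100000, 40757/50000, 0, 1, 312887/500000, 8257/62500, 169/2000⟩,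
   ⟨331, -127829/50000, 130467/100000, 95517/100000, 0, 1, 8730231/100000000, 107909/25000000, 11489/1000000⟩,
   ⟨201, -12537/4000, 131819/100000, 41429/50000, 0, 1, 522067/1000000, 100497/1000000, 707/10000⟩,
   ⟨190, -370649/100000, 133279/100000, 9971/12500, 0, 1, 6779/10000, 162239/1000000, 459/5000⟩,
   ⟨332, -456999/100000, 135891/100000, 86797/100000, 0, 1, 32299/100000, 8797/200000, 28/625⟩,
   ⟨202, -62113/12500, 27287/20000, 15851/20000, 0, 1, 658221/1000000, 161323/1000000, 901/10000⟩,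
   ⟨191, -51723/10000, 68327/50000, 77473/100000, 0, 1, 765091/1000000, 107341/500000, 13/125⟩,
   ⟨192, -686053/100000, 139151/100000, 75911/100000, 0, 1, 8249077/10000000, 1283387/5000000, 11283/100000⟩,
   ⟨333, -750803/100000, 139907/100000, 9883/12500, 0, 1, 157651/250000, 74557/500000, 223/2500⟩,
   ⟨203, -385857/50000, 140099/100000, 76147/100000, 0, 1, 794801/1000000, 238869/1000000, 11/100⟩,
   ⟨193, -54649/6250, 70487/50000, 74423/100000, 0, 1, 223949/250000, 309451/1000000, 1231/10000⟩,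
   ⟨194, -1192193/100000, 142929/100000, 17957/25000, 0, 1, 526187/500000, 454579/1000000, 1439/10000⟩]

theorem ok : mlOk (1/4) (1) SWX.av L = true := by decide +kernel

end Pool.Agent.FPX.SWIr25_1_1
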