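import Mathlib
import Pool.Agent.FPX.SWXF

/-
FPX, SWIr40_1_1 (helper89, members of helper29): member list of the modulus closing for the levels `≥ 2/5`
and the share `1`.
-/

namespace Pool.Agent.FPX.SWIr40_1_1

open Pool.Agent.FPX

def L : List MQ :=
  [⟨327, -21/6250, 2001/2000, 99329/100000, 0, 1, 52139/1000000, 23/100000, 21/5000⟩,
   ⟨298, -51/5000, 20009/20000, 98693/100000, 0, 1, 105419/1000000, 343/500000, 21/2500⟩,
   ⟨235, -1101/100000, 20009/20000, 98637/100000, 0, 1, 13727/125000, 633/1000000, 87/10000⟩,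
   ⟨179, -449/25000, 2001/2000, 98241/100000, 0, 1, 35503/250000, 217/500000, 117/10000⟩,
   ⟨180, -3313/100000, 10029/10000, 24417/25000, 0, 1, 9007/50000, 32/15625, 141/10000⟩,
   ⟨178, -34/3125, 100051/100000, 12331/12500, 0, 1, 54019/500000, 201/500000, 43/5000⟩,
   ⟨181, -1841/25000, 253/250, 24157/25000, 0, 1, 2301769/10000000, 59607/10000000, 1729/100000⟩,
   ⟨182, -11267/100000, 102301/100000, 47989/50000, 0, 1, 244379/1000000, 1663/200000, 183/10000⟩,
   ⟨204, -469/25000, 20181/20000, 1, 0, 1, 31/1000000, 1/1000000, 1⟩,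
   ⟨205, -3767/25000, 26519/25000, 1, 0, 1, 3/625000, 1/10000000, 1⟩,
   ⟨183, -18413/50000, 107617/100000, 46249/50000, 0, 1, 177649/500000, 24207/1000000, 139/5000⟩,
   ⟨195, -13763/50000, 109549/100000, 1, 0, 1, 11/1000000, 1/1000000, 1⟩,
   ⟨196, -1499/3125, 14107/12500, 77/80, 0, 1, 4727/40000, 4141/1000000, 47/5000⟩,
   ⟨184, -34847/50000, 5663/5000, 44841/50000, 0, 1, 41602139/100000000, 2038057/50000000, 33837/1000000⟩,
   ⟨329, -43159/100000, 56567/50000, 1, 0, 1, 1/10000000, 1/10000000, 1⟩,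
   ⟨185, -20183/20000, 11727/10000, 5469/6250, 0, 1, 4695641/10000000, 575969/10000000, 1943/50000⟩,
   ⟨197, -82713/100000, 58469/50000, 11457/12500, 0, 1, 8327/31250, 21861/1000000, 27/1250⟩,
   ⟨206, -13441/20000, 14641/12500, 1, 0, 1, 9/1000000, 1/1000000, 1⟩,
   ⟨198, -52157/50000, 23917/20000, 90821/100000, 0, 1, 137761/500000, 6403/250000, 9/400⟩,
   ⟨186, -26671/20000, 4831/4000, 42957/50000, 0, 1, 249093/500000, 70841/1000000, 26/625⟩,
   ⟨207, -123581/100000, 123201/100000, 12493/12500, 0, 1, 1051/1000000, 1/1000000, 4/625⟩,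
   ⟨199, -78847/50000, 123759/100000, 86743/100000, 0, 1, 205239/500000, 2807/50000, 171/5000⟩,
   ⟨187, -11059/6250, 124369/100000, 21019/25000, 0, 1, 53943/100000, 8941/100000, 453/10000⟩,
   ⟨200, -53943/25000, 127573/100000, 8491/10000, 0, 1, 2245241/5000000, 717271/10000000, 3767/100000⟩,
   ⟨330, -6187/4000, 125499/100000, 1, 0, 1, 11/1000000, 1/1000000, 1⟩,
   ⟨188, -229719/100000, 127571/100000, 10257/12500, 0, 1, 298981/500000, 14407/125000, 63/1250⟩,
   ⟨189, -281351/100000, 130107/100000, 10099/12500, 0, 1, 312887/500000, 8257/62500, 33/625⟩,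
   ⟨331, -127829/50000, 130467/100000, 95483/100000, 0, 1, 8730231/100000000, 107909/25000000, 1789/250000⟩,
   ⟨201, -12537/4000, 131819/100000, 41137/50000, 0, 1, 522067/1000000, 100497/1000000, 221/5000⟩,
   ⟨190, -370649/100000, 133279/100000, 78923/100000, 0, 1, 6778997/10000000, 811191/5000000, 5739/100000⟩,
   ⟨332, -456999/100000, 135891/100000, 21621/25000, 0, 1, 1614949/5000000, 219921/5000000, 2803/100000⟩,
   ⟨202, -62113/12500, 27287/20000, 78401/100000, 0, 1, 658221/1000000, 161323/1000000, 563/10000⟩,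
   ⟨191, -51723/10000, 68327/50000, 76433/100000, 0, 1, 76509/100000, 1073407/5000000, 6499/100000⟩,
   ⟨192, -686053/100000, 139151/100000, 2989/4000, 0, 1, 206227/250000, 128339/500000, 141/2000⟩,
   ⟨333, -750803/100000, 139907/100000, 19553/25000, 0, 1, 394127/625000, 23299/156250, 5577/100000⟩,
   ⟨203, -385857/50000, 140099/100000, 74997/100000, 0, 1, 3974003/5000000, 2388683/10000000, 1719/25000⟩,
   ⟨193, -54649/6250, 70487/50000, 4567/6250, 0, 1, 139967/156250, 1547253/5000000, 3849/50000⟩,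
   ⟨194, -1192193/100000, 142929/100000, 70139/100000, 0, 1, 526187/500000, 454579/1000000, 899/10000⟩]

theorem ok : mlOk (2/5) (1) SWX.av L = true := by decide +kernel

end Pool.Agent.FPX.SWIr40_1_1
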