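import Pool.Agent.FPX.MT22
import Pool.Agent.FPX.CRZ
import Pool.Agent.FPX.SWIr40_0_1

/-
FPX, MTQ22 (helper14): the table MT22 with its certificate.
-/

namespace Pool.Agent.FPX.MTQ22

open Pool.Agent.FPX

set_option maxRecDepth 100000

theorem tc : tcOk MT22.T SWIr40_0_1.L = true := by decide +kernel

theorem tb : tbOk MT22.T = true := by decide +kernel

theorem tp : tpOk (722 / 125) (930521 / 10000) (3737 / 10000) MT22.T = true := by decide +kernel

theorem tq : TabQ (QW (SWX.av.map WA.mw)) ((2 / 5 : ℚ) : ℝ) ((0 : ℚ) : ℝ) MT22.T ((722 / 125 : ℚ) : ℝ) ((930521 / 10000 : ℚ) : ℝ)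
    ((3737 / 10000 : ℚ) : ℝ) :=
  tabQ_of SWX.av_sw (by norm_num) SWIr40_0_1.ok tc tb MT22.good tp

end Pool.Agent.FPX.MTQ22
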