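import Pool.Agent.FPX.AVS
import Pool.Agent.FPX.NCA

/-
NCB (helper39): from the record `Avg` of the averages to the real form of the certificates: the quadratic
moments against the averages of the squares, the linear moments with free box variables.
-/

set_option autoImplicit false

open Set Filter
open scoped ComplexConjugate

noncomputable section

namespace Pool.Agent.FPX.NCB

open Pool.Agent.FPX.CAV Pool.Agent.FPX.AVS
open Pool.Agent.FPX.NOT (Gq)
open Pool.Agent.FPX.NCA (yv Zv)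

/-- the squares against their lower and upper bounds -/
theorem kplus {N : ℕ} {K κ V A x : ℕ → ℝ} {p : ℝ} (hp : 0 ≤ p) (hκ : ∀ i < N, 0 ≤ κ i)
    (hK : ∀ i < N, K i ≤ κ i * p) (h0 : ∀ i < N, x i ^ 2 ≤ A i) (h1 : ∀ i < N, A i ≤ x i ^ 2 + V i) :
    ∑ i ∈ Finset.range N, (K i * (x i ^ 2 + V i) - κ i * p * V i) ≤ ∑ i ∈ Finset.range N, K i * A i := by
  refine Finset.sum_le_sum fun i hi => ?_
  have hiN := Finset.mem_range.1 hi
  have a0 := h0 i hiN
  have a1 := h1 i hiN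
  have b1 := hK i hiN
  have b2 : 0 ≤ κ i * p := mul_nonneg (hκ i hiN) hp
  have w0 : 0 ≤ x i ^ 2 + V i - A i := by linarith
  have w1 : x i ^ 2 + V i - A i ≤ V i := by linarith
  -- `K (x² + V - A) ≤ κ p (x² + V - A) ≤ κ p V`
  have c1 : K i * (x i ^ 2 + V i - A i) ≤ κ i * p * (x i ^ 2 + V i - A i) := mul_le_mul_of_nonneg_right b1 w0
  have c2 : κ i * p * (x i ^ 2 + V i - A i) ≤ κ i * p * V i := mul_le_mul_of_nonneg_left w1 b2
  nlinarith

/-! ### real coordinates -/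

/-- coefficients of the linear moments -/
def gl (a : ℕ → ℕ → Gq) (k i : ℕ) : ℚ := if k % 2 = 1 then (a (k + 2) i).re else (a (k + 1) i).im

/-- coefficients of the quadratic moments -/
def gr (a : ℕ → ℕ → Gq) (k i : ℕ) : ℚ :=
  if k = 0 then (a 0 i).re else if k % 2 = 1 then (a (k + 1) i).re else (a k i).im

/-- the errors of the linear moments -/
def el (e : ℕ → ℚ) (k : ℕ) : ℚ := if k % 2 = 1 then e (k + 2) else e (k + 1)

section avg

variable {D : CD} {a : ℕ → ℕ → Gq} {e : ℕ → ℚ} {u Z : ℤ → ℂ} {z A : ℕ → ℝ} (h : Avg D a e u Z z A)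

theorem wm_re (N : ℕ) (a : ℕ → ℕ → Gq) (n : ℕ) (x : ℕ → ℝ) :
    (wm N a n x).re = ∑ i ∈ Finset.range N, ((a n i).re : ℝ) * x i := by
  unfold wm
  rw [Complex.re_sum]
  exact Finset.sum_congr rfl fun i _ => by simp [Gq.toC]

theorem wm_im (N : ℕ) (a : ℕ → ℕ → Gq) (n : ℕ) (x : ℕ → ℝ) :
    (wm N a n x).im = ∑ i ∈ Finset.range N, ((a n i).im : ℝ) * x i := by
  unfold wm
  rw [Complex.im_sum]
  exact Finset.sum_congr rfl fun i _ => by simp [Gq.toC]

include h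

theorem lin_re {n : ℕ} (hn : n = 3 ∨ n = 5 ∨ n = 7 ∨ n = 9) :
    |(u n).re - ∑ i ∈ Finset.range D.N, ((a n i).re : ℝ) * z i| ≤ e n := by
  rw [← wm_re, ← Complex.sub_re]
  exact (Complex.abs_re_le_norm _).trans (h.lin n hn)

theorem lin_im {n : ℕ} (hn : n = 3 ∨ n = 5 ∨ n = 7 ∨ n = 9) :
    |(u n).im - ∑ i ∈ Finset.range D.N, ((a n i).im : ℝ) * z i| ≤ e n := by
  rw [← wm_im, ← Complex.sub_im]
  exact (Complex.abs_im_le_norm _).trans (h.lin n hn)

/-- all linear moments -/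
theorem yv_le {k : ℕ} (h1 : 1 ≤ k) (h8 : k < 9) :
    |yv u k - ∑ i ∈ Finset.range D.N, (gl a k i : ℝ) * z i| ≤ el e k := by
  unfold yv gl el
  rw [if_neg (by omega)]
  by_cases h2 : k % 2 = 1
  · simp only [h2, if_true]
    have hn : k + 2 = 3 ∨ k + 2 = 5 ∨ k + 2 = 7 ∨ k + 2 = 9 := by omega
    exact_mod_cast lin_re h hn
  · simp only [h2, if_false]
    have hn : k + 1 = 3 ∨ k + 1 = 5 ∨ k + 1 = 7 ∨ k + 1 = 9 := by omega
    exact_mod_cast lin_im h hn

/-- the box variables of the linear moments -/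
theorem ex_tau : ∃ τ : ℕ → ℝ, (∀ k, 0 ≤ τ k ∧ τ k ≤ 1) ∧ ∀ k, 1 ≤ k → k < 9 →
    yv u k = ∑ i ∈ Finset.range D.N, (gl a k i : ℝ) * z i + el e k * (2 * τ k - 1) := by
  have key : ∀ k, ∃ t : ℝ, (0 ≤ t ∧ t ≤ 1) ∧ (1 ≤ k → k < 9 →
      yv u k = ∑ i ∈ Finset.range D.N, (gl a k i : ℝ) * z i + el e k * (2 * t - 1)) := by
    intro k
    by_cases hk : 1 ≤ k ∧ k < 9
    · have h1 := yv_le h hk.1 hk.2
      set r := yv u k - ∑ i ∈ Finset.range D.N, (gl a k i : ℝ) * z i with hr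
      have he : (0 : ℝ) ≤ el e k := (abs_nonneg _).trans h1
      rcases eq_or_lt_of_le he with h0 | h0
      · refine ⟨1 / 2, by norm_num, fun _ _ => ?_⟩
        rw [← h0] at h1 ⊢
        have : r = 0 := abs_eq_zero.1 (le_antisymm h1 (abs_nonneg _))
        rw [hr] at this
        linarith
      · obtain ⟨a1, a2⟩ := abs_le.1 h1
        refine ⟨(r / el e k + 1) / 2, ⟨?_, ?_⟩, fun _ _ => ?_⟩
        · have : -1 ≤ r / el e k := by
            rw [le_div_iff₀ h0]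
            linarith
          linarith
        · have : r / el e k ≤ 1 := by
            rw [div_le_one h0]
            exact a2
          linarith
        · have e1 : (el e k : ℝ) * (2 * ((r / el e k + 1) / 2) - 1) = r := by
            field_simp
            ring
          rw [e1, hr]
          ring
    · exact ⟨0, by norm_num, fun h1 h2 => absurd ⟨h1, h2⟩ hk⟩
  choose t ht using key
  exact ⟨t, fun k => (ht k).1, fun k => (ht k).2⟩

/-- a harmonic of the quadratic part -/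
theorem quad_n {n : ℕ} (hn : n = 2 ∨ n = 4 ∨ n = 6 ∨ n = 8) (q q' : ℝ) :
    q * (∑ i ∈ Finset.range D.N, ((a n i).re : ℝ) * A i) + q' * (∑ i ∈ Finset.range D.N, ((a n i).im : ℝ) * A i)
      - ‖(q : ℂ) - q' * Complex.I‖ * e n ≤ q * (Z n).re + q' * (Z n).im := by
  have h1 := h.quad n hn
  rw [← wm_re, ← wm_im]
  set w := wm D.N a n A with hw
  have h2 : -(‖(q : ℂ) - q' * Complex.I‖ * e n) ≤ (((q : ℂ) - q' * Complex.I) * (Z n - w)).re := by
    have h3 := (abs_le.1 (Complex.abs_re_le_norm (((q : ℂ) - q' * Complex.I) * (Z n - w)))).1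
    rw [norm_mul] at h3
    have h4 : ‖(q : ℂ) - q' * Complex.I‖ * ‖Z n - w‖ ≤ ‖(q : ℂ) - q' * Complex.I‖ * e n :=
      mul_le_mul_of_nonneg_left h1 (norm_nonneg _)
    linarith
  have h5 : (((q : ℂ) - q' * Complex.I) * (Z n - w)).re = q * ((Z n).re - w.re) + q' * ((Z n).im - w.im) := by
    simp only [Complex.mul_re, Complex.sub_re, Complex.sub_im, Complex.mul_im, Complex.ofReal_re, Complex.ofReal_im,
      Complex.I_re, Complex.I_im]
    ring
  rw [h5] at h2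
  linarith

/-- the quadratic part -/
theorem quad_ge {q κ : ℕ → ℝ} {p : ℝ} (hp : 0 ≤ p) (hκ : ∀ i < D.N, 0 ≤ κ i)
    (hK : ∀ i < D.N, ∑ k ∈ Finset.range 9, q k * gr a k i ≤ κ i * p) :
    ∑ i ∈ Finset.range D.N, ((∑ k ∈ Finset.range 9, q k * gr a k i) * (z i ^ 2 + D.VB z i) - κ i * p * D.VB z i)
      - ∑ m ∈ Finset.range 4, ‖(q (2 * m + 1) : ℂ) - q (2 * m + 2) * Complex.I‖ * e (2 * m + 2)
      ≤ ∑ k ∈ Finset.range 9, q k * Zv Z k := by
  have k1 := kplus hp hκ hK h.A0 h.A1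
  have e1 : ∑ i ∈ Finset.range D.N, (∑ k ∈ Finset.range 9, q k * gr a k i) * A i
      = ∑ k ∈ Finset.range 9, q k * ∑ i ∈ Finset.range D.N, (gr a k i : ℝ) * A i := by
    simp only [Finset.sum_mul, Finset.mul_sum]
    rw [Finset.sum_comm]
    exact Finset.sum_congr rfl fun k _ => Finset.sum_congr rfl fun i _ => by ring
  rw [e1] at k1
  have z0 : (Z 0).re = ∑ i ∈ Finset.range D.N, ((a 0 i).re : ℝ) * A i := by rw [h.zero, wm_re]
  have b2 := quad_n h (n := 2) (by norm_num) (q 1) (q 2)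
  have b4 := quad_n h (n := 4) (by norm_num) (q 3) (q 4)
  have b6 := quad_n h (n := 6) (by norm_num) (q 5) (q 6)
  have b8 := quad_n h (n := 8) (by norm_num) (q 7) (q 8)
  have c0 : Zv Z 0 = (Z 0).re := rfl
  have c1 : Zv Z 1 = (Z ((2 : ℕ) : ℤ)).re := rfl
  have c2 : Zv Z 2 = (Z ((2 : ℕ) : ℤ)).im := rfl
  have c3 : Zv Z 3 = (Z ((4 : ℕ) : ℤ)).re := rfl
  have c4 : Zv Z 4 = (Z ((4 : ℕ) : ℤ)).im := rfl
  have c5 : Zv Z 5 = (Z ((6 : ℕ) : ℤ)).re := rfl
  have c6 : Zv Z 6 = (Z ((6 : ℕ) : ℤ)).im := rfl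
  have c7 : Zv Z 7 = (Z ((8 : ℕ) : ℤ)).re := rfl
  have c8 : Zv Z 8 = (Z ((8 : ℕ) : ℤ)).im := rfl
  have g0 : ∀ i, gr a 0 i = (a 0 i).re := fun i => rfl
  have g1 : ∀ i, gr a 1 i = (a 2 i).re := fun i => rfl
  have g2 : ∀ i, gr a 2 i = (a 2 i).im := fun i => rfl
  have g3 : ∀ i, gr a 3 i = (a 4 i).re := fun i => rfl
  have g4 : ∀ i, gr a 4 i = (a 4 i).im := fun i => rfl
  have g5 : ∀ i, gr a 5 i = (a 6 i).re := fun i => rfl
  have g6 : ∀ i, gr a 6 i = (a 6 i).im := fun i => rfl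
  have g7 : ∀ i, gr a 7 i = (a 8 i).re := fun i => rfl
  have g8 : ∀ i, gr a 8 i = (a 8 i).im := fun i => rfl
  simp only [Finset.sum_range_succ _ 8, Finset.sum_range_succ _ 7, Finset.sum_range_succ _ 6, Finset.sum_range_succ _ 5,
    Finset.sum_range_succ _ 4, Finset.sum_range_succ _ 3, Finset.sum_range_succ _ 2, Finset.sum_range_succ _ 1,
    Finset.sum_range_succ _ 0, Finset.sum_range_zero, zero_add, c0, c1, c2, c3, c4, c5, c6, c7, c8, g0, g1, g2, g3, g4,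
    g5, g6, g7, g8, mul_zero, mul_one] at k1 ⊢
  norm_num at b2 b4 b6 b8 k1 ⊢
  rw [z0]
  linarith

end avg

end Pool.Agent.FPX.NCB
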