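import Pool.Agent.FPX.AVT
import Pool.Agent.FPX.NCB

/-
NCG (helper39): NCB with the parameter `h`: tables of size `2 h + 1`, linear moments to the harmonic `2 h + 1`,
quadratic moments to the harmonic `2 h`.
-/

set_option autoImplicit false

open Set Filter
open scoped ComplexConjugate

noncomputable section

namespace Pool.Agent.FPX.NCG

open Pool.Agent.FPX.CAV
open Pool.Agent.FPX.AVS (wm)
open Pool.Agent.FPX.AVT (Avg)
open Pool.Agent.FPX.NOT (Gq)
open Pool.Agent.FPX.NCA (yv Zv)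
open Pool.Agent.FPX.NCB (gl gr el kplus wm_re wm_im)

section avg

variable {h : ℕ} {D : CD} {a : ℕ → ℕ → Gq} {e : ℕ → ℚ} {u Z : ℤ → ℂ} {z A : ℕ → ℝ}
  (H : Avg (2 * h + 1) D a e u Z z A)

include H

theorem lin_re {n : ℕ} (h1 : 1 < n) (h2 : n ≤ 2 * h + 1) (h3 : n % 2 = 1) :
    |(u n).re - ∑ i ∈ Finset.range D.N, ((a n i).re : ℝ) * z i| ≤ e n := by
  rw [← wm_re, ← Complex.sub_re]
  exact (Complex.abs_re_le_norm _).trans (H.lin n h1 h2 h3)

theorem lin_im {n : ℕ} (h1 : 1 < n) (h2 : n ≤ 2 * h + 1) (h3 : n % 2 = 1) :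
    |(u n).im - ∑ i ∈ Finset.range D.N, ((a n i).im : ℝ) * z i| ≤ e n := by
  rw [← wm_im, ← Complex.sub_im]
  exact (Complex.abs_im_le_norm _).trans (H.lin n h1 h2 h3)

/-- all linear moments -/
theorem yv_le {k : ℕ} (h1 : 1 ≤ k) (h8 : k < 2 * h + 1) :
    |yv u k - ∑ i ∈ Finset.range D.N, (gl a k i : ℝ) * z i| ≤ el e k := by
  unfold yv gl el
  rw [if_neg (by omega)]
  by_cases h2 : k % 2 = 1
  · simp only [h2, if_true]
    exact_mod_cast lin_re H (n := k + 2) (by omega) (by omega) (by omega)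
  · simp only [h2, if_false]
    exact_mod_cast lin_im H (n := k + 1) (by omega) (by omega) (by omega)

/-- the box variables of the linear moments -/
theorem ex_tau : ∃ τ : ℕ → ℝ, (∀ k, 0 ≤ τ k ∧ τ k ≤ 1) ∧ ∀ k, 1 ≤ k → k < 2 * h + 1 →
    yv u k = ∑ i ∈ Finset.range D.N, (gl a k i : ℝ) * z i + el e k * (2 * τ k - 1) := by
  have key : ∀ k, ∃ t : ℝ, (0 ≤ t ∧ t ≤ 1) ∧ (1 ≤ k → k < 2 * h + 1 →
      yv u k = ∑ i ∈ Finset.range D.N, (gl a k i : ℝ) * z i + el e k * (2 * t - 1)) := by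
    intro k
    by_cases hk : 1 ≤ k ∧ k < 2 * h + 1
    · have h1 := yv_le H hk.1 hk.2
      set r := yv u k - ∑ i ∈ Finset.range D.N, (gl a k i : ℝ) * z i with hr
      have he : (0 : ℝ) ≤ el e k := (abs_nonneg _).trans h1
      rcases eq_or_lt_of_le he with h0 | h0
      · refine ⟨1 / 2, by norm_num, fun _ _ => ?_⟩
        rw [← h0] at h1 ⊢
        have : r = 0 := abs_eq_zero.1 (le_antisymm h1 (abs_nonneg _))
        rw [hr] at this
        linarith
      · obtain ⟨a1, a2⟩ := abs_le.1 h1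
        refine ⟨(r / el e k + 1) / 2, ⟨?_, ?_⟩, fun _ _ => ?_⟩
        · have : -1 ≤ r / el e k := by
            rw [le_div_iff₀ h0]
            linarith
          linarith
        · have : r / el e k ≤ 1 := by
            rw [div_le_one h0]
            exact a2
          linarith
        · have e1 : (el e k : ℝ) * (2 * ((r / el e k + 1) / 2) - 1) = r := by
            field_simp
            ring
          rw [e1, hr]
          ring
    · exact ⟨0, by norm_num, fun h1 h2 => absurd ⟨h1, h2⟩ hk⟩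
  choose t ht using key
  exact ⟨t, fun k => (ht k).1, fun k => (ht k).2⟩

/-- a harmonic of the quadratic part -/
theorem quad_n {n : ℕ} (h1 : 1 ≤ n) (h2 : n ≤ 2 * h + 1) (h3 : n % 2 = 0) (q q' : ℝ) :
    q * (∑ i ∈ Finset.range D.N, ((a n i).re : ℝ) * A i) + q' * (∑ i ∈ Finset.range D.N, ((a n i).im : ℝ) * A i)
      - ‖(q : ℂ) - q' * Complex.I‖ * e n ≤ q * (Z n).re + q' * (Z n).im := by
  have h1 := H.quad n h1 h2 h3
  rw [← wm_re, ← wm_im]
  set w := wm D.N a n A with hw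
  have h2 : -(‖(q : ℂ) - q' * Complex.I‖ * e n) ≤ (((q : ℂ) - q' * Complex.I) * (Z n - w)).re := by
    have h3 := (abs_le.1 (Complex.abs_re_le_norm (((q : ℂ) - q' * Complex.I) * (Z n - w)))).1
    rw [norm_mul] at h3
    have h4 : ‖(q : ℂ) - q' * Complex.I‖ * ‖Z n - w‖ ≤ ‖(q : ℂ) - q' * Complex.I‖ * e n :=
      mul_le_mul_of_nonneg_left h1 (norm_nonneg _)
    linarith
  have h5 : (((q : ℂ) - q' * Complex.I) * (Z n - w)).re = q * ((Z n).re - w.re) + q' * ((Z n).im - w.im) := by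
    simp only [Complex.mul_re, Complex.sub_re, Complex.sub_im, Complex.mul_im, Complex.ofReal_re, Complex.ofReal_im,
      Complex.I_re, Complex.I_im]
    ring
  rw [h5] at h2
  linarith

omit H in
theorem sum_pairs (f : ℕ → ℝ) : ∀ h : ℕ, ∑ k ∈ Finset.range (2 * h + 1), f k
    = f 0 + ∑ m ∈ Finset.range h, (f (2 * m + 1) + f (2 * m + 2))
  | 0 => by simp
  | h + 1 => by
    rw [show 2 * (h + 1) + 1 = 2 * h + 1 + 1 + 1 by ring, Finset.sum_range_succ, Finset.sum_range_succ,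
      sum_pairs f h, Finset.sum_range_succ _ h]
    ring

/-- the quadratic part -/
theorem quad_ge {q κ : ℕ → ℝ} {p : ℝ} (hp : 0 ≤ p) (hκ : ∀ i < D.N, 0 ≤ κ i)
    (hK : ∀ i < D.N, ∑ k ∈ Finset.range (2 * h + 1), q k * gr a k i ≤ κ i * p) :
    ∑ i ∈ Finset.range D.N, ((∑ k ∈ Finset.range (2 * h + 1), q k * gr a k i) * (z i ^ 2 + D.VB z i)
        - κ i * p * D.VB z i)
      - ∑ m ∈ Finset.range h, ‖(q (2 * m + 1) : ℂ) - q (2 * m + 2) * Complex.I‖ * e (2 * m + 2)
      ≤ ∑ k ∈ Finset.range (2 * h + 1), q k * Zv Z k := by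
  have k1 := kplus hp hκ hK H.A0 H.A1
  have e1 : ∑ i ∈ Finset.range D.N, (∑ k ∈ Finset.range (2 * h + 1), q k * gr a k i) * A i
      = ∑ k ∈ Finset.range (2 * h + 1), q k * ∑ i ∈ Finset.range D.N, (gr a k i : ℝ) * A i := by
    simp only [Finset.sum_mul, Finset.mul_sum]
    rw [Finset.sum_comm]
    exact Finset.sum_congr rfl fun k _ => Finset.sum_congr rfl fun i _ => by ring
  rw [e1] at k1
  have z0 : (Z 0).re = ∑ i ∈ Finset.range D.N, ((a 0 i).re : ℝ) * A i := by rw [H.zero, wm_re]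
  have key : ∑ m ∈ Finset.range h, (q (2 * m + 1) * (∑ i ∈ Finset.range D.N, (gr a (2 * m + 1) i : ℝ) * A i)
      + q (2 * m + 2) * ∑ i ∈ Finset.range D.N, (gr a (2 * m + 2) i : ℝ) * A i)
      - ∑ m ∈ Finset.range h, ‖(q (2 * m + 1) : ℂ) - q (2 * m + 2) * Complex.I‖ * e (2 * m + 2)
      ≤ ∑ m ∈ Finset.range h, (q (2 * m + 1) * Zv Z (2 * m + 1) + q (2 * m + 2) * Zv Z (2 * m + 2)) := by
    rw [← Finset.sum_sub_distrib]
    refine Finset.sum_le_sum fun m hm => ?_
    have hm' := Finset.mem_range.1 hm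
    have b := quad_n H (n := 2 * m + 2) (by omega) (by omega) (by omega) (q (2 * m + 1)) (q (2 * m + 2))
    have g1 : ∀ i, gr a (2 * m + 1) i = (a (2 * m + 2) i).re := fun i => by
      unfold gr
      rw [if_neg (by omega), if_pos (by omega)]
    have g2 : ∀ i, gr a (2 * m + 2) i = (a (2 * m + 2) i).im := fun i => by
      unfold gr
      rw [if_neg (by omega), if_neg (by omega)]
    have c1 : Zv Z (2 * m + 1) = (Z ((2 * m + 2 : ℕ) : ℤ)).re := by
      unfold Zv
      rw [if_neg (by omega), if_pos (by omega)]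
      norm_num [add_assoc]
    have c2 : Zv Z (2 * m + 2) = (Z ((2 * m + 2 : ℕ) : ℤ)).im := by
      unfold Zv
      rw [if_neg (by omega), if_neg (by omega)]
    simp only [g1, g2, c1, c2]
    exact b
  rw [sum_pairs (fun k => q k * ∑ i ∈ Finset.range D.N, (gr a k i : ℝ) * A i)] at k1
  rw [sum_pairs fun k => q k * Zv Z k]
  have c0 : Zv Z 0 = (Z 0).re := rfl
  have g0 : ∀ i, gr a 0 i = (a 0 i).re := fun i => rfl
  simp only [g0] at k1
  rw [c0, z0]
  linarith

end avg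

end Pool.Agent.FPX.NCG
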