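import Pool.Agent.FPX.NCM
import Pool.Agent.FPX.HVN

/-
NCW (helper39): the record of the hat averages with the convex combination of the two variance bounds
`V = (1 - k / 256) VBh + (k / 256) VNh` (an integer `k` per centre).
-/

set_option autoImplicit false

open Set Filter
open scoped ComplexConjugate

noncomputable section

namespace Pool.Agent.FPX.NCD

open Pool.Agent.FPX.CAV Pool.Agent.FPX.CAT
open Pool.Agent.FPX.HAA (AvgH AvgL VBh VNh Qn Pn QE PE GeoH)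
open Pool.Agent.FPX.HAT (TrgH)
open Pool.Agent.FPX.AVS (wm)
open Pool.Agent.FPX.NCB (gl gr el wm_re wm_im)
open Pool.Agent.FPX.NOT (Gq)
open Pool.Agent.FPX.NCA (yv Zv)
open Pool.Agent.FPX.PLK (ST P6 A3 iz w3 qv lv lz addZ qv_cons qv_nil lv_cons lv_nil lz_cons lz_nil ev3 addR qv_addR)

/-- the quadratic part with any variance bounds -/
theorem quad_geV {h : ℕ} {D : CD} {a : ℕ → ℕ → Gq} {e : ℕ → ℚ} {u Z : ℤ → ℂ} {z A : ℕ → ℝ}
    (H : AvgH (2 * h + 1) D a e u Z z A) {V : ℕ → ℝ} (hV : ∀ i < D.N, A i ≤ z i ^ 2 + V i) {q p : ℕ → ℝ}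
    (hp : ∀ i < D.N, 0 ≤ p i) (hK : ∀ i < D.N, ∑ k ∈ Finset.range (2 * h + 1), q k * gr a k i ≤ p i) :
    ∑ i ∈ Finset.range D.N, ((∑ k ∈ Finset.range (2 * h + 1), q k * gr a k i) * (z i ^ 2 + V i) - p i * V i)
      - ∑ m ∈ Finset.range h, ‖(q (2 * m + 1) : ℂ) - q (2 * m + 2) * Complex.I‖ * e (2 * m + 2)
      ≤ ∑ k ∈ Finset.range (2 * h + 1), q k * Zv Z k := by
  have k1 : ∑ i ∈ Finset.range D.N, ((∑ k ∈ Finset.range (2 * h + 1), q k * gr a k i) * (z i ^ 2 + V i)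
        - p i * V i)
      ≤ ∑ i ∈ Finset.range D.N, (∑ k ∈ Finset.range (2 * h + 1), q k * gr a k i) * A i := by
    refine Finset.sum_le_sum fun i hi => ?_
    have hi' := Finset.mem_range.1 hi
    have a0 := H.A0 i hi'
    have a1 := hV i hi'
    have p0 := hp i hi'
    have p1 := hK i hi'
    nlinarith [mul_nonneg p0 (sub_nonneg.2 a0), mul_nonneg (sub_nonneg.2 p1) (sub_nonneg.2 a1)]
  have e1 : ∑ i ∈ Finset.range D.N, (∑ k ∈ Finset.range (2 * h + 1), q k * gr a k i) * A i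
      = ∑ k ∈ Finset.range (2 * h + 1), q k * ∑ i ∈ Finset.range D.N, (gr a k i : ℝ) * A i := by
    simp only [Finset.sum_mul, Finset.mul_sum]
    rw [Finset.sum_comm]
    exact Finset.sum_congr rfl fun k _ => Finset.sum_congr rfl fun i _ => by ring
  rw [e1] at k1
  have z0 : (Z 0).re = ∑ i ∈ Finset.range D.N, ((a 0 i).re : ℝ) * A i := by rw [H.zero, wm_re]
  have key : ∑ m ∈ Finset.range h, (q (2 * m + 1) * (∑ i ∈ Finset.range D.N, (gr a (2 * m + 1) i : ℝ) * A i)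
      + q (2 * m + 2) * ∑ i ∈ Finset.range D.N, (gr a (2 * m + 2) i : ℝ) * A i)
      - ∑ m ∈ Finset.range h, ‖(q (2 * m + 1) : ℂ) - q (2 * m + 2) * Complex.I‖ * e (2 * m + 2)
      ≤ ∑ m ∈ Finset.range h, (q (2 * m + 1) * Zv Z (2 * m + 1) + q (2 * m + 2) * Zv Z (2 * m + 2)) := by
    rw [← Finset.sum_sub_distrib]
    refine Finset.sum_le_sum fun m hm => ?_
    have hm' := Finset.mem_range.1 hm
    have b := quad_nH H (n := 2 * m + 2) (by omega) (by omega) (by omega) (q (2 * m + 1)) (q (2 * m + 2))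
    have g1 : ∀ i, gr a (2 * m + 1) i = (a (2 * m + 2) i).re := fun i => by
      unfold gr
      rw [if_neg (by omega), if_pos (by omega)]
    have g2 : ∀ i, gr a (2 * m + 2) i = (a (2 * m + 2) i).im := fun i => by
      unfold gr
      rw [if_neg (by omega), if_neg (by omega)]
    have c1 : Zv Z (2 * m + 1) = (Z ((2 * m + 2 : ℕ) : ℤ)).re := by
      unfold Zv
      rw [if_neg (by omega), if_pos (by omega)]
      norm_num [add_assoc]
    have c2 : Zv Z (2 * m + 2) = (Z ((2 * m + 2 : ℕ) : ℤ)).im := by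
      unfold Zv
      rw [if_neg (by omega), if_neg (by omega)]
    simp only [g1, g2, c1, c2]
    exact b
  rw [NCG.sum_pairs (fun k => q k * ∑ i ∈ Finset.range D.N, (gr a k i : ℝ) * A i)] at k1
  rw [NCG.sum_pairs fun k => q k * Zv Z k]
  have c0 : Zv Z 0 = (Z 0).re := rfl
  have g0 : ∀ i, gr a 0 i = (a 0 i).re := fun i => rfl
  simp only [g0] at k1
  rw [c0, z0]
  linarith

/-! ### the bound -/

/-- the combination of the bounds -/
def VLh (D : CD) (x : ℕ → ℝ) (k i : ℕ) : ℝ := (1 - k / 256) * VBh D x i + k / 256 * VNh D x i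

theorem A_le {R : ℕ} {D : CD} {a : ℕ → ℕ → Gq} {e : ℕ → ℚ} {u Z : ℤ → ℂ} {z A : ℕ → ℝ} (H : AvgL R D a e u Z z A)
    {k i : ℕ} (hk : k ≤ 256) (hi : i < D.N) : A i ≤ z i ^ 2 + VLh D z k i := by
  have h1 := H.A1 i hi
  have h2 := H.A2 i hi
  have hk' : (k : ℝ) ≤ 256 := by exact_mod_cast hk
  have hk0 : (0 : ℝ) ≤ k := Nat.cast_nonneg k
  unfold VLh
  have l0 : (0 : ℝ) ≤ k / 256 := by positivity
  have l1 : (k : ℝ) / 256 ≤ 1 := by
    rw [div_le_one (by norm_num)]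
    exact hk'
  obtain ⟨l, hl⟩ : ∃ l : ℝ, l = (k : ℝ) / 256 := ⟨_, rfl⟩
  rw [← hl] at l0 l1 ⊢
  have e1 := mul_le_mul_of_nonneg_left h1 (show 0 ≤ 1 - l by linarith)
  have e2 := mul_le_mul_of_nonneg_left h2 l0
  linarith

/-- the second bound in terms of the factors -/
theorem VNh_eq {D : CD} (h3 : 3 ≤ D.N) (x : ℕ → ℝ) {i : ℕ} (hi : i < D.N) {f : Bool}
    (hf : (f = false ∧ D.ty i = 1) ∨ (f = true ∧ D.ty i ≠ 0 ∧ D.ty i ≠ 1)) :
    VNh D x i = (Wv D x (fx D.N f (i + D.N - 1)) ^ 2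
      + 14 * (Wv D x (fx D.N f (i + D.N - 1)) * Wv D x (fx D.N f (i + D.N)))
      + Wv D x (fx D.N f (i + D.N)) ^ 2) / 16 + D.vc i := by
  have e1 : ((i + D.N - 1 : ℕ) : ℤ) - D.N = (i : ℤ) - 1 := by omega
  have e2 : ((i + D.N : ℕ) : ℤ) - D.N = (i : ℤ) := by omega
  rw [fx_val x (by omega), fx_val x (by omega), e1, e2]
  rcases hf with ⟨rfl, ht⟩ | ⟨rfl, h0, h1⟩
  · simp only [Bool.false_eq_true, if_false]
    unfold VNh
    rw [ht]
    rfl
  · simp only [if_true]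
    unfold VNh
    split
    · exact absurd ‹_› h0
    · exact absurd ‹_› h1
    · rfl

/-! ### the record -/

/-- the record with the integers `k` of the variance bounds (missing entries: `0`) -/
structure NW extends NH where
  lam : List ℕ

namespace NW

variable (D : NW)

/-- the integer of the centre `i` -/
def kk (i : ℕ) : ℕ := D.lam.getD i 0

/-- the coefficient of a variance product of the cell `i`, times `c / 4096` -/
def wl (c : ℤ) (i : ℕ) : List ℤ := (D.toNH.Kd i).map fun x => c * 256 * D.toND.zS * x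

/-- the products -/
def vl (f : Bool) (i : ℕ) : List (List (List ℤ)) :=
  let a := fx D.toND.N f (i + D.toND.N - 1)
  let b := fx D.toND.N f (i + D.toND.N)
  let c := fx D.toND.N f (i + D.toND.N - 2)
  let d := fx D.toND.N f (i + D.toND.N + 1)
  let k : ℤ := D.kk i
  addR OZ (addR OZ (tX a b (D.wl ((4096 - 2 * k) * D.toNH.hp a b) i)) (addR OZ
      (tX b c (D.wl ((4096 - 16 * k) * D.toNH.hp b c) i)) (tX a d (D.wl ((4096 - 16 * k) * D.toNH.hp a d) i))))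
    (if D.kk i = 0 then [] else addR OZ (tX a a (D.wl (k * D.toNH.hp a a) i)) (tX b b (D.wl (k * D.toNH.hp b b) i)))

/-- the table of the cell `i` -/
def th (i : ℕ) : List (List (List ℤ)) :=
  match D.Z.ty.getD i 0 with
  | 0 => []
  | 1 => D.vl false i
  | _ => D.vl true i

/-- **the statement record** -/
def st : ST where
  N := D.toND.N
  M := 2 * D.h
  κ := V20
  Ls := ls D.toND.N D.toND.zl
  Hs := ls D.toND.N D.toND.zh
  F := D.toNH.st.F
  L := D.toND.st.L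
  C := D.toND.st.C
  T := (sumT OZ D.th D.toND.N).map fun r => r.map fun c => addZ c ND.z9
  P := D.toND.st.P

end NW

theorem par_nh {D : NW} {x : ℕ → ℝ} {θ : List ℝ} (h : D.st.Par x θ) : D.toNH.st.Par x θ :=
  ⟨h.len, h.box, h.eq⟩

theorem box_nh {D : NW} {x : ℕ → ℝ} {τ : List ℝ} (h : D.toNH.st.Box x τ) : D.st.Box x τ :=
  ⟨h.anti, h.lo, h.hi, h.len, h.box, h.pos⟩

section ev

variable {D : NW} {x : ℕ → ℝ}

theorem iz_wl (w : List ℝ) (c : ℤ) (i : ℕ) : iz w (D.wl c i) = c * 256 * D.toND.zS * iz w (D.toNH.Kd i) := by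
  unfold NW.wl
  rw [iz_map]
  push_cast
  ring

/-- the table of one cell -/
theorem thW_eq (h3 : 3 ≤ D.toND.N) {θ τ : List ℝ} (h : D.st.Par x θ) (w : List ℝ) {i : ℕ} (hi : i < D.toND.N) :
    qv (iz w) (D.th i) (1 :: (θ ++ τ)) = (2 * 1048576) ^ 2 * (1048576 * D.G.S)
      * (iz w (D.toNH.Kd i) * (VLh D.Z.cd x (D.kk i) i - (D.toND.zv i : ℝ) / 1048576)) := by
  have hvc : (D.Z.cd.vc i : ℝ) = (D.toND.zv i : ℝ) / 1048576 := nq_cast _ _
  have hty : D.Z.cd.ty i = D.Z.ty.getD i 0 := rfl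
  have hNN : D.Z.cd.N = D.toND.N := rfl
  have key : ∀ f : Bool, ((f = false ∧ D.Z.cd.ty i = 1) ∨ (f = true ∧ D.Z.cd.ty i ≠ 0 ∧ D.Z.cd.ty i ≠ 1)) →
      qv (iz w) (D.vl f i) (1 :: (θ ++ τ)) = (2 * 1048576) ^ 2 * (1048576 * D.G.S)
      * (iz w (D.toNH.Kd i) * (VLh D.Z.cd x (D.kk i) i - (D.toND.zv i : ℝ) / 1048576)) := by
    intro f hf
    have hv := VBh_eq (D := D.Z.cd) (by rw [hNN]; exact h3) x (i := i) (by rw [hNN]; exact hi) hf
    have hn := VNh_eq (D := D.Z.cd) (by rw [hNN]; exact h3) x (i := i) (by rw [hNN]; exact hi) hf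
    rw [hNN] at hv hn
    have a1 := Wv_par (par_nh h) (f := fx D.toND.N f (i + D.toND.N - 1)) (fx_lt (by omega)) τ
    have a2 := Wv_par (par_nh h) (f := fx D.toND.N f (i + D.toND.N)) (fx_lt (by omega)) τ
    have a3 := Wv_par (par_nh h) (f := fx D.toND.N f (i + D.toND.N - 2)) (fx_lt (by omega)) τ
    have a4 := Wv_par (par_nh h) (f := fx D.toND.N f (i + D.toND.N + 1)) (fx_lt (by omega)) τ
    unfold VLh
    rw [hv, hn, hvc]
    have hif : qv (iz w) (if D.kk i = 0 then [] else addR OZ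
          (tX (fx D.toND.N f (i + D.toND.N - 1)) (fx D.toND.N f (i + D.toND.N - 1))
            (D.wl ((D.kk i : ℤ) * D.toNH.hp (fx D.toND.N f (i + D.toND.N - 1)) (fx D.toND.N f (i + D.toND.N - 1))) i))
          (tX (fx D.toND.N f (i + D.toND.N)) (fx D.toND.N f (i + D.toND.N))
            (D.wl ((D.kk i : ℤ) * D.toNH.hp (fx D.toND.N f (i + D.toND.N)) (fx D.toND.N f (i + D.toND.N))) i)))
          (1 :: (θ ++ τ))
        = (D.kk i : ℝ) * 256 * D.toND.zS * iz w (D.toNH.Kd i)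
          * (4 * (D.toND.hh (fx D.toND.N f (i + D.toND.N - 1)).2 * fv (θ ++ τ) (fx D.toND.N f (i + D.toND.N - 1))) ^ 2
            + 4 * (D.toND.hh (fx D.toND.N f (i + D.toND.N)).2 * fv (θ ++ τ) (fx D.toND.N f (i + D.toND.N))) ^ 2) := by
      split
      · next h0 => simp [h0]
      · next h0 =>
        simp only [qv_addR (evOZ w), qv_tX, iz_wl]
        unfold NH.hp
        push_cast
        ring
    unfold NW.vl
    simp only [qv_addR (evOZ w), hif, qv_tX, iz_wl]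
    unfold NH.hp ND.zS
    push_cast
    generalize fx D.toND.N f (i + D.toND.N - 1) = fa at *
    generalize fx D.toND.N f (i + D.toND.N) = fb at *
    generalize fx D.toND.N f (i + D.toND.N - 2) = fc at *
    generalize fx D.toND.N f (i + D.toND.N + 1) = fd at *
    generalize iz w (D.toNH.Kd i) = K
    generalize (D.kk i : ℝ) = k
    obtain ⟨A, hA⟩ : ∃ A : ℝ, A = D.toND.hh fa.2 * fv (θ ++ τ) fa := ⟨_, rfl⟩
    obtain ⟨B, hB⟩ : ∃ B : ℝ, B = D.toND.hh fb.2 * fv (θ ++ τ) fb := ⟨_, rfl⟩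
    obtain ⟨C, hC⟩ : ∃ C : ℝ, C = D.toND.hh fc.2 * fv (θ ++ τ) fc := ⟨_, rfl⟩
    obtain ⟨E, hE⟩ : ∃ E : ℝ, E = D.toND.hh fd.2 * fv (θ ++ τ) fd := ⟨_, rfl⟩
    rw [← hA] at a1
    rw [← hB] at a2
    rw [← hC] at a3
    rw [← hE] at a4
    have w1 : Wv D.Z.cd x fa = A / 1048576 := by rw [a1]; ring
    have w2 : Wv D.Z.cd x fb = B / 1048576 := by rw [a2]; ring
    have w3 : Wv D.Z.cd x fc = C / 1048576 := by rw [a3]; ring
    have w4 : Wv D.Z.cd x fd = E / 1048576 := by rw [a4]; ring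
    rw [w1, w2, w3, w4]
    have p1 : (D.toND.hh fa.2 : ℝ) * fv (θ ++ τ) fa = A := hA.symm
    have e1 : ∀ g g' : Bool × ℕ, ∀ c : ℝ, c * (4 * ((D.toND.hh g.2 : ℝ) * D.toND.hh g'.2)) * 256 * (D.G.S : ℝ) * K
        * (fv (θ ++ τ) g * fv (θ ++ τ) g') = c * 1024 * D.G.S * K
          * ((D.toND.hh g.2 * fv (θ ++ τ) g) * (D.toND.hh g'.2 * fv (θ ++ τ) g')) := fun g g' c => by ring
    rw [e1, e1, e1, ← hA, ← hB, ← hC, ← hE]
    ring
  unfold NW.th
  rcases hT : D.Z.ty.getD i 0 with _ | _ | t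
  · have h1 : VBh D.Z.cd x i = (D.toND.zv i : ℝ) / 1048576 := by
      rw [← hvc]
      unfold VBh
      rw [hty, hT]
      rfl
    have h2 : VNh D.Z.cd x i = (D.toND.zv i : ℝ) / 1048576 := by
      rw [← hvc]
      unfold VNh
      rw [hty, hT]
      rfl
    have h3 : VLh D.Z.cd x (D.kk i) i - (D.toND.zv i : ℝ) / 1048576 = 0 := by
      unfold VLh
      rw [h1, h2]
      ring
    simp [h3]
  · exact key false (Or.inl ⟨rfl, by rw [hty, hT]⟩)
  · exact key true (Or.inr ⟨rfl, by rw [hty, hT]; omega, by rw [hty, hT]; omega⟩)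

end ev

/-- **the integer form is nonnegative** -/
theorem int_formW {D : NW} {x A : ℕ → ℝ} {u Z : ℤ → ℂ} (hN : D.G.N = D.Z.G.N) (hS : 0 < D.G.S) (h3 : 3 ≤ D.toND.N)
    (hC : shp D.C D.toND.R = true) (hL : AvgL D.toND.R D.Z.cd D.G.a D.toND.e u Z x A) (hk : ∀ i, D.kk i ≤ 256)
    {w : List ℝ}
    (hEng : ∀ τ : List ℝ, D.st.Box x τ → ∃ θ, D.st.Par x θ ∧ 0 ≤ D.st.val w x θ τ)
    (hP : ∀ i < D.toND.N, 0 ≤ iz w (D.toNH.pp i)) (hK : ∀ i < D.toND.N, iz w (D.toNH.Kd i) ≤ 0) :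
    iz w D.Ks - ∑ m ∈ Finset.range D.h, ‖((iz w (D.Q.getD (2 * m + 1) []) : ℝ) : ℂ)
        - ((iz w (D.Q.getD (2 * m + 2) []) : ℝ) : ℂ) * Complex.I‖ * D.toND.e (2 * m + 2)
      ≤ qC D.toND.R w D.C (yv u) + ∑ k ∈ Finset.range D.toND.R, iz w (D.Q.getD k []) * Zv Z k := by
  have h := hL.toAvgH
  have hN0 : 0 < D.toND.N := by omega
  have hN0' : (0 : ℝ) < D.toND.N := by exact_mod_cast hN0
  have hS' : (0 : ℝ) < D.G.S := by exact_mod_cast hS
  obtain ⟨t, ht, hy⟩ := ex_tauH h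
  obtain ⟨τ, hτ⟩ : ∃ τ : List ℝ, τ = (List.range (2 * D.h)).map fun k => t (k + 1) := ⟨_, rfl⟩
  have hl : τ.length = 2 * D.h := by simp [hτ]
  have hb : ∀ a ∈ τ, 0 ≤ a ∧ a ≤ 1 := by
    intro a ha
    rw [hτ] at ha
    obtain ⟨k, -, rfl⟩ := List.mem_map.1 ha
    exact ht _
  have hg : ∀ k, k < 2 * D.h → τ.getD k 0 = t (k + 1) := by
    intro k hk
    rw [hτ]
    simp [List.getD_eq_getElem?_getD, hk]
  obtain ⟨θ, hp, hv⟩ := hEng τ (box_nh (boxH (D := D.toNH) hS h hl hb))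
  have hLL := valL (D := D.toND) (x := x) τ (y := yv u) (by simp [yv]) hS'.ne' (fun k h1 h9 => by
    have hy' := hy k h1 h9
    have hNN : D.Z.cd.N = D.toND.N := rfl
    rw [hNN] at hy'
    rw [hy', hg (k - 1) (by unfold ND.R at h9; omega), show k - 1 + 1 = k by omega])
  have hL' : D.st.L.map (D.st.lf x τ) = ((List.range D.toND.R).map fun k => D.G.S * yv u k) ++ xt D.toND x := hLL
  have hC' : qv id (D.st.C.map fun r => r.map (iz w)) (((List.range D.toND.R).map fun k => D.G.S * yv u k)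
      ++ xt D.toND x) = 1048576 * (D.toND.N * (D.G.S : ℝ) ^ 2 * qC D.toND.R w D.C (yv u)) :=
    valC (D := D.toND) hC w (yv u) (xt D.toND x)
  have hT : qv id (D.st.T.map fun r => r.map (iz w)) (1 :: (θ ++ τ))
      = ∑ i ∈ Finset.range D.toND.N, (2 * 1048576) ^ 2 * (1048576 * (D.G.S : ℝ))
        * (iz w (D.toNH.Kd i) * (VLh D.Z.cd x (D.kk i) i - (D.toND.zv i : ℝ) / 1048576)) := by
    show qv id (((sumT OZ D.th D.toND.N).map fun r => r.map fun c => addZ c ND.z9).map fun r => r.map (iz w)) _ = _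
    rw [qv_pad, qv_sumT]
    exact Finset.sum_congr rfl fun i hi => thW_eq h3 hp w (Finset.mem_range.1 hi)
  unfold ST.val at hv
  have hκ : ((D.st.κ : ℤ) : ℝ) = 1048576 := by
    show ((V20 : ℤ) : ℝ) = _
    unfold V20
    norm_num
  have hcN : D.st.N = D.toND.N := rfl
  have hF := valFH (D := D.toNH) (x := x) hN0 w
  have hF' : D.st.F = D.toNH.st.F := rfl
  rw [hcN, hκ, hL', hC', hT, hF', hF] at hv
  -- the quadratic part
  have hgr : ∀ i, ∑ k ∈ Finset.range (2 * D.h + 1), iz w (D.Q.getD k []) * (gr D.G.a k i : ℝ)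
      = iz w (D.toND.Kx i) / (D.toND.N * D.G.S) := by
    intro i
    rw [iz_Kx, Finset.sum_div]
    refine Finset.sum_congr rfl fun k _ => ?_
    rw [gr_eq hN hN0 hS]
    unfold ND.N
    ring
  have hq := quad_geV h (V := fun i => VLh D.Z.cd x (D.kk i) i) (fun i hi => A_le hL (hk i) hi) (q := fun k => iz w (D.Q.getD k [])) (p := fun i => D.U * iz w (D.toNH.pp i) / (D.toND.N * D.G.S))
    (fun i hi => by
      have := hP i hi
      positivity) (fun i hi => by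
      rw [hgr]
      have h1 := hK i hi
      rw [iz_Kd] at h1
      rw [div_le_div_iff_of_pos_right (by positivity)]
      linarith)
  simp only [hgr] at hq
  rw [show 2 * D.h + 1 = D.toND.R from rfl] at hq
  have hNN : D.Z.cd.N = D.toND.N := rfl
  rw [hNN] at hq
  obtain ⟨E, hE⟩ : ∃ E : ℝ, E = ∑ m ∈ Finset.range D.h, ‖((iz w (D.Q.getD (2 * m + 1) []) : ℝ) : ℂ)
        - ((iz w (D.Q.getD (2 * m + 2) []) : ℝ) : ℂ) * Complex.I‖ * D.toND.e (2 * m + 2) := ⟨_, rfl⟩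
  rw [← hE] at hq ⊢
  have hsum : ∑ i ∈ Finset.range D.toND.N, (iz w (D.toND.Kx i) / (D.toND.N * D.G.S) * (x i ^ 2 + VLh D.Z.cd x (D.kk i) i)
        - D.U * iz w (D.toNH.pp i) / (D.toND.N * D.G.S) * VLh D.Z.cd x (D.kk i) i)
      = 1 / (D.toND.N * D.G.S) * (∑ i ∈ Finset.range D.toND.N, (iz w (D.toND.Kx i) * (x i ^ 2 + (D.toND.zv i : ℝ) / 1048576)
          - D.U * iz w (D.toNH.pp i) * ((D.toND.zv i : ℝ) / 1048576))
        + ∑ i ∈ Finset.range D.toND.N, iz w (D.toNH.Kd i) * (VLh D.Z.cd x (D.kk i) i - (D.toND.zv i : ℝ) / 1048576)) := by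
    rw [← Finset.sum_add_distrib, Finset.mul_sum]
    refine Finset.sum_congr rfl fun i _ => ?_
    rw [iz_Kd]
    ring
  rw [hsum] at hq
  rw [← Finset.mul_sum] at hv
  obtain ⟨a1, ha1⟩ : ∃ a1 : ℝ, a1 = ∑ i ∈ Finset.range D.toND.N, (iz w (D.toND.Kx i) * (x i ^ 2 + (D.toND.zv i : ℝ) / 1048576)
      - D.U * iz w (D.toNH.pp i) * ((D.toND.zv i : ℝ) / 1048576)) := ⟨_, rfl⟩
  obtain ⟨a2, ha2⟩ : ∃ a2 : ℝ, a2 = ∑ i ∈ Finset.range D.toND.N, iz w (D.toNH.Kd i)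
      * (VLh D.Z.cd x (D.kk i) i - (D.toND.zv i : ℝ) / 1048576) := ⟨_, rfl⟩
  rw [← ha1, ← ha2] at hv hq
  obtain ⟨c, hc⟩ : ∃ c : ℝ, c = qC D.toND.R w D.C (yv u) := ⟨_, rfl⟩
  obtain ⟨ks, hks⟩ : ∃ ks : ℝ, ks = iz w D.Ks := ⟨_, rfl⟩
  rw [← hc, ← hks] at hv ⊢
  have key : 0 ≤ (D.toND.N * (D.G.S : ℝ) ^ 2) * (c - ks + 1 / (D.toND.N * D.G.S) * (a1 + a2)) := by
    have e1 : (D.toND.N * (D.G.S : ℝ) ^ 2) * (c - ks + 1 / (D.toND.N * D.G.S) * (a1 + a2))
        = D.toND.N * (D.G.S : ℝ) ^ 2 * (c - ks) + D.G.S * (a1 + a2) := by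
      field_simp
    rw [e1]
    have : 0 ≤ ((2 * 1048576 : ℝ) ^ 2 * 1048576) * (D.toND.N * (D.G.S : ℝ) ^ 2 * (c - ks) + D.G.S * (a1 + a2)) := by
      refine hv.trans (le_of_eq ?_)
      ring
    exact nonneg_of_mul_nonneg_right this (by norm_num)
  have key2 := nonneg_of_mul_nonneg_right key (by positivity)
  linarith


open Pool.Agent.FPX.BTN (va e1)
open Pool.Agent.FPX.BRG (vl Zr fr_va)
open Pool.Agent.FPX.ALX (St)

/-- the small checks -/
def NW.chkL (D : NW) : Bool := D.lam.all fun k => Nat.ble k 256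

theorem chkL_ok {D : NW} (h : D.chkL = true) (i : ℕ) : D.kk i ≤ 256 := by
  unfold NW.kk
  by_cases hi : i < D.lam.length
  · rw [List.getD_eq_getElem _ _ hi]
    unfold NW.chkL at h
    rw [List.all_eq_true] at h
    exact Nat.le_of_ble_eq_true (h _ (List.getElem_mem hi))
  · rw [List.getD_eq_default _ _ (by omega)]
    norm_num

/-- **the condition of the certificate bridge from Booleans and the record of the hat averages** -/
theorem certW_of {D : NW} (cN : D.toNH.chkN = true) (cL : D.chkL = true)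
    {T : BRG.Tf} {Q : BRG.Qf} {Sc : ℚ} (hSc : 0 < Sc) {B : ℕ} (hNear : Near D.toND.R D.C D.Q Sc B T Q)
    (cK : D.toNH.chkK = true) (cS : D.toND.chkS B = true)
    (hEng : ∀ z0 z1 z2 : ℂ, D.st.Good (w3 z0 z1 z2)) {s : ℝ} (hs : s ≤ 1)
    {X : ℝ → ℝ} (hX : St s X) (hb : ∀ a, |X a| ≤ 0.62 * s) {x A : ℕ → ℝ}
    (hA : AvgL D.toND.R D.Z.cd D.G.a D.toND.e (vl va X e1) (Zr 2 va X e1) x A) (z : ℕ → ℂ) :
    0 ≤ (BRG.e2 z (vl va X e1) T + BRG.eq2 z (Zr 2 va X e1) Q).re := by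
  simp only [NH.chkN, Bool.and_eq_true] at cN
  obtain ⟨m1, m2, m3, m4⟩ := cN
  have h3 : 3 ≤ D.toND.N := Nat.le_of_ble_eq_true m1
  have hS : 0 < D.G.S := Nat.le_of_ble_eq_true m3
  obtain ⟨k1, k2⟩ := chkK_okH cK
  have hb1 : ∀ a, |X a| ≤ 1 := fun a => by
    have h2 := hb a
    linarith
  have key := int_formW (Nat.eq_of_beq_eq_true m2) hS h3 m4 hA (chkL_ok cL) (w := w3 (z 0) (z 1) (z 2))
    (fun τ hτ => hEng _ _ _ x τ hτ) (fun i hi => k1 i hi _ _ _) fun i hi => k2 i hi _ _ _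
  have H := fr_va hX hb1
  have u0 : vl va X e1 0 = 1 := by simp [vl]
  have c1 := hNear z (vl va X e1) (Zr 2 va X e1) u0 (fun n => H.vl_neg n) (fun n => H.zc 2 n) (norm_vl hb1)
    (norm_Zr hb1 2)
  have hSc' : (0 : ℝ) < Sc := by exact_mod_cast hSc
  have c3 := chkS_ok hS cS z
  refine nonneg_of_mul_nonneg_right ?_ hSc'
  linarith

end Pool.Agent.FPX.NCD
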