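import Pool.Agent.FPX.NOE

/-
NOP (helper39): the nodal functionals of NOE as quadratic polynomials with rational coefficients in the two
node values of a cell, computable in the kernel.
-/

open MeasureTheory Set Filter Topology
open scoped ComplexConjugate

noncomputable section

namespace Pool.Agent.FPX.NOD

/-- affine polynomials in two variables -/
structure A3 where
  k : ℚ
  a : ℚ
  b : ℚ

/-- quadratic polynomials in two variables -/
structure P6 where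
  k : ℚ
  a : ℚ
  b : ℚ
  aa : ℚ
  ab : ℚ
  bb : ℚ

def A3.ev (p : A3) (x y : ℝ) : ℝ := p.k + p.a * x + p.b * y

def P6.ev (p : P6) (x y : ℝ) : ℝ := p.k + p.a * x + p.b * y + p.aa * x ^ 2 + p.ab * (x * y) + p.bb * y ^ 2

@[reducible] def A3.add (p q : A3) : A3 := ⟨p.k + q.k, p.a + q.a, p.b + q.b⟩

@[reducible] def A3.smul (t : ℚ) (p : A3) : A3 := ⟨t * p.k, t * p.a, t * p.b⟩

@[reducible] def A3.mul (p q : A3) : P6 :=
  ⟨p.k * q.k, p.k * q.a + p.a * q.k, p.k * q.b + p.b * q.k, p.a * q.a, p.a * q.b + p.b * q.a, p.b * q.b⟩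

@[reducible] def P6.add (p q : P6) : P6 := ⟨p.k + q.k, p.a + q.a, p.b + q.b, p.aa + q.aa, p.ab + q.ab, p.bb + q.bb⟩

@[reducible] def P6.smul (t : ℚ) (p : P6) : P6 := ⟨t * p.k, t * p.a, t * p.b, t * p.aa, t * p.ab, t * p.bb⟩

@[reducible] def A3.to6 (p : A3) : P6 := ⟨p.k, p.a, p.b, 0, 0, 0⟩

variable (x y : ℝ)

theorem A3.ev_add (p q : A3) : (p.add q).ev x y = p.ev x y + q.ev x y := by
  unfold A3.ev
  push_cast
  ring

theorem A3.ev_smul (t : ℚ) (p : A3) : (p.smul t).ev x y = t * p.ev x y := by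
  unfold A3.ev
  push_cast
  ring

theorem A3.ev_mul (p q : A3) : (p.mul q).ev x y = p.ev x y * q.ev x y := by
  unfold A3.ev P6.ev
  push_cast
  ring

theorem P6.ev_add (p q : P6) : (p.add q).ev x y = p.ev x y + q.ev x y := by
  unfold P6.ev
  push_cast
  ring

theorem P6.ev_smul (t : ℚ) (p : P6) : (p.smul t).ev x y = t * p.ev x y := by
  unfold P6.ev
  push_cast
  ring

theorem A3.ev_to6 (p : A3) : p.to6.ev x y = p.ev x y := by
  unfold A3.ev P6.ev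
  push_cast
  ring

/-- rational cell data -/
structure CQ where
  H : ℚ
  H' : ℚ
  L : ℚ
  L' : ℚ

/-- the cell data over `ℝ` -/
def CQ.toCd (C : CQ) : Cd := ⟨C.H, C.H', C.L, C.L'⟩

@[reducible] def xbA : A3 := ⟨0, 1 / 2, 1 / 2⟩

@[reducible] def cdA (k : Kd) (C : CQ) : A3 :=
  match k with
  | .reg => ⟨0, -1, 1⟩
  | .fst => ⟨C.H, 0, 0⟩
  | .lst => ⟨-C.L, 0, 0⟩

@[reducible] def cgA (k : Kd) (C : CQ) : A3 :=
  match k with
  | .reg => ⟨C.L' / 2 - (C.H' + C.L') / (2 * (C.H + C.L)) * C.L, (C.H' + C.L') / (2 * (C.H + C.L)),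
      -((C.H' + C.L') / (2 * (C.H + C.L)))⟩
  | .fst => ⟨-(C.H' / 2), 0, 0⟩
  | .lst => ⟨C.L' / 2, 0, 0⟩

@[reducible] def ceP (k : Kd) (C : CQ) : P6 :=
  match k with
  | .reg => ⟨C.H * C.L / (C.H + C.L), -((C.H - C.L) / (C.H + C.L)), (C.H - C.L) / (C.H + C.L),
      -(1 / (C.H + C.L)), 2 / (C.H + C.L), -(1 / (C.H + C.L))⟩
  | .fst => ⟨C.H / 2, 1 / 2, -(1 / 2), 0, 0, 0⟩
  | .lst => ⟨C.L / 2, -(1 / 2), 1 / 2, 0, 0, 0⟩

theorem ev_xb : xbA.ev x y = (x + y) / 2 := by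
  unfold A3.ev
  push_cast
  ring

theorem ev_cd (k : Kd) (C : CQ) : (cdA k C).ev x y = cd k C.toCd (y - x) := by
  cases k <;> simp only [cdA, cd, A3.ev, CQ.toCd] <;> push_cast <;> ring

theorem ev_cg (k : Kd) (C : CQ) : (cgA k C).ev x y = cg k C.toCd (y - x) := by
  cases k <;> simp only [cgA, cg, A3.ev, CQ.toCd] <;> push_cast <;> ring

theorem ev_ce (k : Kd) (C : CQ) : (ceP k C).ev x y = ce k C.toCd (y - x) := by
  cases k <;> simp only [ceP, ce, P6.ev, CQ.toCd] <;> push_cast <;> ring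

/-- real coefficients -/
def LFr (c : Fin 4 → ℝ) (xb δ g : ℝ) : ℝ :=
  c 0 * (xb + g / 6) + c 1 * (δ / 12) + c 2 * (xb / 12 + g / 120) + c 3 * (δ / 80)

def QFr (c : Fin 4 → ℝ) (xb δ g : ℝ) : ℝ :=
  c 0 * (xb ^ 2 + δ ^ 2 / 12 + g ^ 2 / 30 + xb * g / 3) + c 1 * (xb * δ / 6 + δ * g / 60)
    + c 2 * (xb ^ 2 / 12 + δ ^ 2 / 80 + g ^ 2 / 840 + xb * g / 60) + c 3 * (xb * δ / 40 + δ * g / 560)

/-- complex coefficients from rational ones -/
def toC (a b : Fin 4 → ℚ) (j : Fin 4) : ℂ := ((a j : ℝ) : ℂ) + ((b j : ℝ) : ℂ) * Complex.I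

theorem LF_toC (a b : Fin 4 → ℚ) (xb δ g : ℝ) : LF (toC a b) xb δ g
    = (LFr (fun j => a j) xb δ g : ℝ) + (LFr (fun j => b j) xb δ g : ℝ) * Complex.I := by
  unfold LF LFr toC
  push_cast
  ring

theorem QF_toC (a b : Fin 4 → ℚ) (xb δ g : ℝ) : QF (toC a b) xb δ g
    = (QFr (fun j => a j) xb δ g : ℝ) + (QFr (fun j => b j) xb δ g : ℝ) * Complex.I := by
  unfold QF QFr toC
  push_cast
  ring

/-- the linear functional of a cell -/
@[reducible] def LFA (c : Fin 4 → ℚ) (k : Kd) (C : CQ) : A3 :=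
  (((xbA.add ((cgA k C).smul (1 / 6))).smul (c 0)).add (((cdA k C).smul (1 / 12)).smul (c 1))).add
    ((((xbA.smul (1 / 12)).add ((cgA k C).smul (1 / 120))).smul (c 2)).add (((cdA k C).smul (1 / 80)).smul (c 3)))

/-- the quadratic functional of a cell -/
@[reducible] def QFP (c : Fin 4 → ℚ) (k : Kd) (C : CQ) : P6 :=
  (((((xbA.mul xbA).add (((cdA k C).mul (cdA k C)).smul (1 / 12))).add
      ((((cgA k C).mul (cgA k C)).smul (1 / 30)).add ((xbA.mul (cgA k C)).smul (1 / 3)))).smul (c 0)).add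
    ((((xbA.mul (cdA k C)).smul (1 / 6)).add (((cdA k C).mul (cgA k C)).smul (1 / 60))).smul (c 1))).add
  ((((((xbA.mul xbA).smul (1 / 12)).add (((cdA k C).mul (cdA k C)).smul (1 / 80))).add
      ((((cgA k C).mul (cgA k C)).smul (1 / 840)).add ((xbA.mul (cgA k C)).smul (1 / 60)))).smul (c 2)).add
    ((((xbA.mul (cdA k C)).smul (1 / 40)).add (((cdA k C).mul (cgA k C)).smul (1 / 560))).smul (c 3)))

theorem ev_LFA (c : Fin 4 → ℚ) (k : Kd) (C : CQ) : (LFA c k C).ev x y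
    = LFr (fun j => c j) ((x + y) / 2) (cd k C.toCd (y - x)) (cg k C.toCd (y - x)) := by
  unfold LFA LFr
  simp only [A3.ev_add, A3.ev_smul, ev_xb, ev_cd, ev_cg]
  push_cast
  ring

theorem ev_QFP (c : Fin 4 → ℚ) (k : Kd) (C : CQ) : (QFP c k C).ev x y
    = QFr (fun j => c j) ((x + y) / 2) (cd k C.toCd (y - x)) (cg k C.toCd (y - x)) := by
  unfold QFP QFr
  simp only [P6.ev_add, P6.ev_smul, A3.ev_mul, ev_xb, ev_cd, ev_cg]
  push_cast
  ring

/-! ### coefficientwise comparison -/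

/-- the coefficients differ by at most `t` -/
def P6.near (p q : P6) (t : ℚ) : Bool :=
  decide (|p.k - q.k| ≤ t) && decide (|p.a - q.a| ≤ t) && decide (|p.b - q.b| ≤ t) &&
    decide (|p.aa - q.aa| ≤ t) && decide (|p.ab - q.ab| ≤ t) && decide (|p.bb - q.bb| ≤ t)

theorem P6.near_ev {p q : P6} {t : ℚ} (h : p.near q t = true) {x y xm : ℝ} (hx : |x| ≤ xm) (hy : |y| ≤ xm) :
    |p.ev x y - q.ev x y| ≤ t * (1 + 2 * xm + 3 * xm ^ 2) := by
  unfold P6.near at h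
  simp only [Bool.and_eq_true, decide_eq_true_eq] at h
  obtain ⟨⟨⟨⟨⟨h1, h2⟩, h3⟩, h4⟩, h5⟩, h6⟩ := h
  have c : ∀ {a b : ℚ}, |a - b| ≤ t → |(a : ℝ) - b| ≤ t := fun {a b} h => by exact_mod_cast h
  have e : p.ev x y - q.ev x y = ((p.k : ℝ) - q.k) + ((p.a : ℝ) - q.a) * x + ((p.b : ℝ) - q.b) * y
      + ((p.aa : ℝ) - q.aa) * x ^ 2 + ((p.ab : ℝ) - q.ab) * (x * y) + ((p.bb : ℝ) - q.bb) * y ^ 2 := by
    unfold P6.ev
    ring
  have ht : (0 : ℝ) ≤ t := (abs_nonneg _).trans (c h1)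
  have hm : 0 ≤ xm := (abs_nonneg _).trans hx
  have m : ∀ {a b z m : ℝ}, |a - b| ≤ t → |z| ≤ m → |(a - b) * z| ≤ t * m := fun {a b z m} h1 h2 => by
    rw [abs_mul]
    exact mul_le_mul h1 h2 (abs_nonneg _) ht
  have q1 : |x ^ 2| ≤ xm ^ 2 := by
    rw [abs_pow]
    exact pow_le_pow_left₀ (abs_nonneg _) hx 2
  have q2 : |y ^ 2| ≤ xm ^ 2 := by
    rw [abs_pow]
    exact pow_le_pow_left₀ (abs_nonneg _) hy 2
  have q3 : |x * y| ≤ xm ^ 2 := by
    rw [abs_mul, pow_two]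
    exact mul_le_mul hx hy (abs_nonneg _) hm
  rw [e]
  have t1 := c h1
  have t2 := m (c h2) hx
  have t3 := m (c h3) hy
  have t4 := m (c h4) q1
  have t5 := m (c h5) q3
  have t6 := m (c h6) q2
  refine (abs_add_le _ _).trans ?_
  refine (add_le_add ((abs_add_le _ _).trans (add_le_add ((abs_add_le _ _).trans (add_le_add
    ((abs_add_le _ _).trans (add_le_add ((abs_add_le _ _).trans (add_le_add t1 t2)) t3)) t4)) t5)) t6).trans ?_
  refine le_of_eq ?_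
  ring

end Pool.Agent.FPX.NOD
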