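import Pool.Agent.FPX.NOP

/-
NOQ (helper39): the moments of a state against explicit rational quadratic forms in the node values
(sums over the cells of polynomials `P6` in two neighbouring node values), with explicit error forms.
-/

open MeasureTheory Set Filter Topology
open scoped ComplexConjugate

noncomputable section

namespace Pool.Agent.FPX.NOD

open Pool.Agent.FPX.ALX (St)

/-- the form of a list of cell polynomials -/
def fz (N : ℕ) (z : ℕ → P6) (x : ℕ → ℝ) : ℝ := ∑ i ∈ Finset.range N, (z i).ev (x i) (x (i + 1))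

/-- the grid over `ℝ` -/
def rR (r : ℕ → ℚ) (i : ℕ) : ℝ := (r i : ℝ)

/-- the cells over `ℝ` -/
def cR (C : ℕ → CQ) (i : ℕ) : Cd := (C i).toCd

section forms

variable (N : ℕ) (r : ℕ → ℚ) (k : ℕ → Kd) (C : ℕ → CQ) (a b : ℕ → Fin 4 → ℚ) (x : ℕ → ℝ)

theorem Ln_form : Ln N (rR r) k (cR C) (fun i => toC (a i) (b i)) x =
    (fz N (fun i => ((LFA (a i) (k i) (C i)).smul (r (i + 1) - r i)).to6) x : ℝ)
      + (fz N (fun i => ((LFA (b i) (k i) (C i)).smul (r (i + 1) - r i)).to6) x : ℝ) * Complex.I := by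
  unfold Ln fz
  push_cast
  rw [Finset.sum_mul, ← Finset.sum_add_distrib]
  refine Finset.sum_congr rfl fun i _ => ?_
  rw [LF_toC, A3.ev_to6, A3.ev_to6, A3.ev_smul, A3.ev_smul, ev_LFA, ev_LFA]
  simp only [rR, cR]
  push_cast
  ring

theorem Qn_form : Qn N (rR r) k (cR C) (fun i => toC (a i) (b i)) x =
    (fz N (fun i => (QFP (a i) (k i) (C i)).smul (r (i + 1) - r i)) x : ℝ)
      + (fz N (fun i => (QFP (b i) (k i) (C i)).smul (r (i + 1) - r i)) x : ℝ) * Complex.I := by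
  unfold Qn fz
  push_cast
  rw [Finset.sum_mul, ← Finset.sum_add_distrib]
  refine Finset.sum_congr rfl fun i _ => ?_
  rw [QF_toC, P6.ev_smul, P6.ev_smul, ev_QFP, ev_QFP]
  simp only [rR, cR]
  push_cast
  ring

end forms

theorem near_sum {N : ℕ} {p z : ℕ → P6} {t : ℚ} (h : ∀ i < N, (p i).near (z i) t = true) {x : ℕ → ℝ} {xm : ℝ}
    (hx : ∀ i, |x i| ≤ xm) : |fz N p x - fz N z x| ≤ N * (t * (1 + 2 * xm + 3 * xm ^ 2)) := by
  unfold fz
  rw [← Finset.sum_sub_distrib]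
  refine (Finset.abs_sum_le_sum_abs _ _).trans ?_
  refine (Finset.sum_le_sum fun i hi => P6.near_ev (h i (Finset.mem_range.1 hi)) (hx i) (hx (i + 1))).trans ?_
  rw [Finset.sum_const, Finset.card_range, nsmul_eq_mul]

/-- a bound for the error of a cell -/
def ebOk (k : Kd) (C : CQ) (xm eb : ℚ) : Bool :=
  match k with
  | .reg => decide ((C.H + C.L) / 4 ≤ eb)
  | .fst => decide ((C.H + 2 * xm) / 2 ≤ eb)
  | .lst => decide ((C.L + 2 * xm) / 2 ≤ eb)

theorem ce_le_eb {k : Kd} {C : CQ} {xm eb : ℚ} (h : ebOk k C xm eb = true) (hHL : k = .reg → 0 < C.H + C.L)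
    {d : ℝ} (hd : |d| ≤ 2 * xm) : ce k C.toCd d ≤ eb := by
  have hd' := abs_le.1 hd
  cases k with
  | reg =>
    have h1 := of_decide_eq_true h
    have h2 : ((C.H : ℝ) + C.L) / 4 ≤ eb := by exact_mod_cast h1
    have h3 : (0 : ℝ) < (C.H : ℝ) + C.L := by exact_mod_cast hHL rfl
    refine le_trans ?_ h2
    show ((C.H : ℝ) - d) * ((C.L : ℝ) + d) / ((C.H : ℝ) + C.L) ≤ ((C.H : ℝ) + C.L) / 4
    rw [div_le_iff₀ h3]
    nlinarith [sq_nonneg ((C.H : ℝ) - d - (C.L + d))]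
  | fst =>
    have h1 := of_decide_eq_true h
    have h2 : ((C.H : ℝ) + 2 * xm) / 2 ≤ eb := by exact_mod_cast h1
    refine le_trans ?_ h2
    show ((C.H : ℝ) - d) / 2 ≤ _
    linarith
  | lst =>
    have h1 := of_decide_eq_true h
    have h2 : ((C.L : ℝ) + 2 * xm) / 2 ≤ eb := by exact_mod_cast h1
    refine le_trans ?_ h2
    show ((C.L : ℝ) + d) / 2 ≤ _
    linarith

section state

variable {s s' : ℝ} {X : ℝ → ℝ} (hX : St s X) (h0 : 0 ≤ s) (hs : s ≤ s') (hs0 : 0 < s') (h1 : s' ≤ 1)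
  {N : ℕ} {r : ℕ → ℚ} (G : Grid N (rR r)) {k : ℕ → Kd} {C : ℕ → CQ}
  (hC : ∀ i < N, CellOk s' (rR r) i (k i) (cR C i)) {xm : ℚ} (hb : ∀ a, |X a| ≤ xm)

include G in
theorem sum_len : ∑ i ∈ Finset.range N, (rR r (i + 1) - rR r i) = 1 := by
  rw [Finset.sum_range_sub, G.last, G.zero]
  norm_num

include hX h0 hs hs0 h1 G hC hb

/-- **linear moments and rational forms** -/
theorem lin_form {φ : ℝ → ℂ} (hφ : Continuous φ) (hB : ∀ a, ‖φ a‖ ≤ 1) (hφa : ∀ a, φ (a + Real.pi) = -φ a)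
    {a b : ℕ → Fin 4 → ℚ} {η : ℚ}
    (hη : ∀ i < N, ∀ v, 0 ≤ v → v ≤ 1 → ‖φ (pt (rR r) i v) - Fp (toC (a i) (b i)) v‖ ≤ η)
    {zR zI zE : ℕ → P6} {t ηm ε : ℚ} (hηm : η ≤ ηm)
    (hR : ∀ i < N, (((LFA (a i) (k i) (C i)).smul (r (i + 1) - r i)).to6).near (zR i) t = true)
    (hI : ∀ i < N, (((LFA (b i) (k i) (C i)).smul (r (i + 1) - r i)).to6).near (zI i) t = true)
    (hE : ∀ i < N, ((ceP (k i) (C i)).smul ((r (i + 1) - r i) * (1 + ηm))).near (zE i) t = true)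
    (hε : η * xm + 3 * (N * (t * (1 + 2 * xm + 3 * xm ^ 2))) ≤ ε) :
    ‖(1 / (2 * Real.pi) : ℝ) * (∫ a in (0 : ℝ)..(2 * Real.pi), φ a * X a)
      - ((fz N zR (xn (rR r) X) : ℝ) + (fz N zI (xn (rR r) X) : ℝ) * Complex.I)‖
      ≤ fz N zE (xn (rR r) X) + ε := by
  have hxb : ∀ i, |xn (rR r) X i| ≤ (xm : ℝ) := fun i => hb _
  have k1 := st_lin hX h0 hs hs0 h1 G hC (xm := xm) hb hφ hB (c := fun i => toC (a i) (b i))
    (η := fun _ => (η : ℝ)) hη hφa
  rw [Ln_form] at k1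
  have k2 := near_sum hR hxb
  have k3 := near_sum hI hxb
  have k4 := near_sum hE hxb
  have k5 : ∑ i ∈ Finset.range N, (rR r (i + 1) - rR r i)
        * ((η : ℝ) * xm + (1 + η) * ce (k i) (cR C i) (xn (rR r) X (i + 1) - xn (rR r) X i))
      ≤ η * xm + fz N (fun i => (ceP (k i) (C i)).smul ((r (i + 1) - r i) * (1 + ηm))) (xn (rR r) X) := by
    have e1 : ∑ i ∈ Finset.range N, (rR r (i + 1) - rR r i)
        * ((η : ℝ) * xm + (1 + η) * ce (k i) (cR C i) (xn (rR r) X (i + 1) - xn (rR r) X i))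
        = η * xm + ∑ i ∈ Finset.range N, (rR r (i + 1) - rR r i)
          * ((1 + η) * ce (k i) (cR C i) (xn (rR r) X (i + 1) - xn (rR r) X i)) := by
      simp only [mul_add]
      rw [Finset.sum_add_distrib, ← Finset.sum_mul, sum_len G, one_mul]
    rw [e1]
    refine add_le_add_right (Finset.sum_le_sum fun i hi => ?_) _
    have hiN := Finset.mem_range.1 hi
    rw [P6.ev_smul, ev_ce]
    have hd : 0 < rR r (i + 1) - rR r i := sub_pos.2 (G.inc i hiN)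
    have hc0 : 0 ≤ ce (k i) (cR C i) (xn (rR r) X (i + 1) - xn (rR r) X i) :=
      (abs_nonneg _).trans ((cell_le hX h0 hs hs0 h1 (G.inc i hiN) (hC i hiN)).2.2 0 le_rfl zero_le_one)
    have h3 : (η : ℝ) ≤ ηm := by exact_mod_cast hηm
    push_cast
    show (rR r (i + 1) - rR r i) * ((1 + η) * ce (k i) (cR C i) _) ≤
      (rR r (i + 1) - rR r i) * (1 + ηm) * ce (k i) (cR C i) _
    rw [mul_assoc]
    refine mul_le_mul_of_nonneg_left (mul_le_mul_of_nonneg_right (by linarith) hc0) hd.le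
  have hε' : (η : ℝ) * xm + 3 * (N * (t * (1 + 2 * xm + 3 * xm ^ 2))) ≤ ε := by exact_mod_cast hε
  set A := (1 / (2 * Real.pi) : ℝ) * (∫ a in (0 : ℝ)..(2 * Real.pi), φ a * X a) with hA
  set PR := fz N (fun i => ((LFA (a i) (k i) (C i)).smul (r (i + 1) - r i)).to6) (xn (rR r) X)
  set PI := fz N (fun i => ((LFA (b i) (k i) (C i)).smul (r (i + 1) - r i)).to6) (xn (rR r) X)
  set QR := fz N zR (xn (rR r) X)
  set QI := fz N zI (xn (rR r) X)
  have e2 : A - ((QR : ℂ) + (QI : ℂ) * Complex.I) = (A - ((PR : ℂ) + (PI : ℂ) * Complex.I))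
      + (((PR - QR : ℝ) : ℂ) + ((PI - QI : ℝ) : ℂ) * Complex.I) := by
    push_cast
    ring
  rw [e2]
  refine (norm_add_le _ _).trans ?_
  have e3 : ‖((PR - QR : ℝ) : ℂ) + ((PI - QI : ℝ) : ℂ) * Complex.I‖ ≤ |PR - QR| + |PI - QI| := by
    refine (norm_add_le _ _).trans ?_
    rw [norm_mul, Complex.norm_I, mul_one, Complex.norm_real, Complex.norm_real]
    rfl
  have e4 := (abs_le.1 k4).2
  linarith

/-- **quadratic moments and rational forms** -/
theorem quad_form {φ : ℝ → ℂ} (hφ : Continuous φ) (hB : ∀ a, ‖φ a‖ ≤ 1) (hφa : ∀ a, φ (a + Real.pi) = φ a)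
    {a b : ℕ → Fin 4 → ℚ} {η : ℚ}
    (hη : ∀ i < N, ∀ v, 0 ≤ v → v ≤ 1 → ‖φ (pt (rR r) i v) - Fp (toC (a i) (b i)) v‖ ≤ η)
    {zR zI zE : ℕ → P6} {t ηm ε : ℚ} (hηm : η ≤ ηm) {eb : ℕ → ℚ}
    (heb : ∀ i < N, ebOk (k i) (C i) xm (eb i) = true)
    (hR : ∀ i < N, ((QFP (a i) (k i) (C i)).smul (r (i + 1) - r i)).near (zR i) t = true)
    (hI : ∀ i < N, ((QFP (b i) (k i) (C i)).smul (r (i + 1) - r i)).near (zI i) t = true)
    (hE : ∀ i < N, ((ceP (k i) (C i)).smul ((r (i + 1) - r i) * ((1 + ηm) * (2 * xm + eb i)))).near (zE i) t = true)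
    (hε : η * xm ^ 2 + 3 * (N * (t * (1 + 2 * xm + 3 * xm ^ 2))) ≤ ε) :
    ‖(1 / (2 * Real.pi) : ℝ) * (∫ a in (0 : ℝ)..(2 * Real.pi), φ a * (X a ^ 2 : ℝ))
      - ((fz N zR (xn (rR r) X) : ℝ) + (fz N zI (xn (rR r) X) : ℝ) * Complex.I)‖
      ≤ fz N zE (xn (rR r) X) + ε := by
  have hxb : ∀ i, |xn (rR r) X i| ≤ (xm : ℝ) := fun i => hb _
  have hxm : (0 : ℝ) ≤ xm := (abs_nonneg _).trans (hb 0)
  have hce : ∀ i < N, ce (k i) (cR C i) (xn (rR r) X (i + 1) - xn (rR r) X i) ≤ (eb i : ℝ) := fun i hi => by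
    refine ce_le_eb (heb i hi) (fun hk => ?_) ?_
    · have := hC i hi
      rw [hk] at this
      have h3 : (0 : ℝ) < ((C i).H : ℝ) + ((C i).L : ℝ) := this.1
      exact_mod_cast h3
    · have e1 := abs_le.1 (hxb i)
      have e2 := abs_le.1 (hxb (i + 1))
      rw [abs_le]
      constructor <;> linarith
  have k1 := st_quad hX h0 hs hs0 h1 G hC (xm := xm) hb hφ hB (c := fun i => toC (a i) (b i))
    (η := fun _ => (η : ℝ)) hη hφa (eb := fun i => (eb i : ℝ)) hce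
  rw [Qn_form] at k1
  have k2 := near_sum hR hxb
  have k3 := near_sum hI hxb
  have k4 := near_sum hE hxb
  have k5 : ∑ i ∈ Finset.range N, (rR r (i + 1) - rR r i)
        * ((η : ℝ) * xm ^ 2 + (1 + η) * ((2 * xm + eb i) * ce (k i) (cR C i) (xn (rR r) X (i + 1) - xn (rR r) X i)))
      ≤ η * xm ^ 2 + fz N (fun i => (ceP (k i) (C i)).smul ((r (i + 1) - r i) * ((1 + ηm) * (2 * xm + eb i))))
        (xn (rR r) X) := by
    have e1 : ∑ i ∈ Finset.range N, (rR r (i + 1) - rR r i)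
        * ((η : ℝ) * xm ^ 2 + (1 + η) * ((2 * xm + eb i) * ce (k i) (cR C i) (xn (rR r) X (i + 1) - xn (rR r) X i)))
        = η * xm ^ 2 + ∑ i ∈ Finset.range N, (rR r (i + 1) - rR r i)
          * ((1 + η) * ((2 * xm + eb i) * ce (k i) (cR C i) (xn (rR r) X (i + 1) - xn (rR r) X i))) := by
      simp only [mul_add (rR r _ - rR r _)]
      rw [Finset.sum_add_distrib, ← Finset.sum_mul, sum_len G, one_mul]
    rw [e1]
    refine add_le_add_right (Finset.sum_le_sum fun i hi => ?_) _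
    have hiN := Finset.mem_range.1 hi
    rw [P6.ev_smul, ev_ce]
    have hd : 0 < rR r (i + 1) - rR r i := sub_pos.2 (G.inc i hiN)
    have hc0 : 0 ≤ ce (k i) (cR C i) (xn (rR r) X (i + 1) - xn (rR r) X i) :=
      (abs_nonneg _).trans ((cell_le hX h0 hs hs0 h1 (G.inc i hiN) (hC i hiN)).2.2 0 le_rfl zero_le_one)
    have h3 : (η : ℝ) ≤ ηm := by exact_mod_cast hηm
    have h4 : (0 : ℝ) ≤ 2 * xm + eb i := by
      have := hc0.trans (hce i hiN)
      linarith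
    push_cast
    show (rR r (i + 1) - rR r i) * ((1 + η) * ((2 * xm + eb i) * ce (k i) (cR C i) _)) ≤
      (rR r (i + 1) - rR r i) * ((1 + ηm) * (2 * xm + eb i)) * ce (k i) (cR C i) _
    rw [mul_assoc, mul_assoc (1 + (ηm : ℝ))]
    exact mul_le_mul_of_nonneg_left (mul_le_mul_of_nonneg_right (by linarith) (mul_nonneg h4 hc0)) hd.le
  have hε' : (η : ℝ) * xm ^ 2 + 3 * (N * (t * (1 + 2 * xm + 3 * xm ^ 2))) ≤ ε := by exact_mod_cast hε
  set A := (1 / (2 * Real.pi) : ℝ) * (∫ a in (0 : ℝ)..(2 * Real.pi), φ a * (X a ^ 2 : ℝ)) with hA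
  set PR := fz N (fun i => (QFP (a i) (k i) (C i)).smul (r (i + 1) - r i)) (xn (rR r) X)
  set PI := fz N (fun i => (QFP (b i) (k i) (C i)).smul (r (i + 1) - r i)) (xn (rR r) X)
  set QR := fz N zR (xn (rR r) X)
  set QI := fz N zI (xn (rR r) X)
  have e2 : A - ((QR : ℂ) + (QI : ℂ) * Complex.I) = (A - ((PR : ℂ) + (PI : ℂ) * Complex.I))
      + (((PR - QR : ℝ) : ℂ) + ((PI - QI : ℝ) : ℂ) * Complex.I) := by
    push_cast
    ring
  rw [e2]
  refine (norm_add_le _ _).trans ?_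
  have e3 : ‖((PR - QR : ℝ) : ℂ) + ((PI - QI : ℝ) : ℂ) * Complex.I‖ ≤ |PR - QR| + |PI - QI| := by
    refine (norm_add_le _ _).trans ?_
    rw [norm_mul, Complex.norm_I, mul_one, Complex.norm_real, Complex.norm_real]
    rfl
  have e4 := (abs_le.1 k4).2
  linarith

end state

end Pool.Agent.FPX.NOD
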