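import Pool.Agent.FPX.NOR
import Pool.Agent.FPX.SQX

/-
NOU (helper39): the weighted pilot (class `St s`) as a finite dimensional statement with rational forms.
-/

open MeasureTheory Set Filter Topology Manifold
open scoped ComplexConjugate ENNReal NNReal ContDiff

noncomputable section

namespace Pool.Agent.FPX.NOD

open Pool.Agent.FPX.ALX (St)
open Pool.Agent.FPX.NOT (Gq chkF)
open Pool.Agent.FPX.SQD (ph cont_ph norm_ph ph_odd ph_even mean_lin mean_sq)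
open Pool.Agent.FPX.SQM Pool.Agent.FPX.SQN Pool.Agent.FPX.SQC

/-- the data of a class of the weighted pilot -/
structure PW where
  s : ℚ
  xm : ℚ
  N : ℕ
  r : ℕ → ℚ
  k : ℕ → Kd
  C : ℕ → CQ
  Hp : ℕ → ℚ
  Lq : ℕ → ℚ
  eb : ℕ → ℚ
  g1 : ℕ → Fin 4 → Gq
  g3 : ℕ → Fin 4 → Gq
  g4 : ℕ → Fin 4 → Gq
  zS : ℕ → P6
  z1R : ℕ → P6
  z1I : ℕ → P6
  z3R : ℕ → P6
  z3I : ℕ → P6
  z4R : ℕ → P6
  z4I : ℕ → P6
  zE : ℕ → P6
  zL : ℕ → P6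
  η : ℚ
  t : ℚ
  ε0 : ℚ
  EB : ℚ
  ε : ℚ

/-- the checks -/
structure PW.Ok (D : PW) : Prop where
  s0 : 0 < D.s
  s1 : D.s ≤ 1
  hxm : 31 / 50 * D.s ≤ D.xm
  geo : Geo D.s D.N D.r D.k D.C D.Hp D.Lq D.xm
  f1 : FnOk 1 D.N D.r D.g1 D.η
  f3 : FnOk 3 D.N D.r D.g3 D.η
  f4 : FnOk 4 D.N D.r D.g4 D.η
  η0 : 0 ≤ D.η
  heb : ∀ i < D.N, ebOk (D.k i) (D.C i) D.xm (D.eb i) = true
  hEB : ∀ i < D.N, D.eb i ≤ D.EB
  nS : ∀ i < D.N, ((QFP (gre g0 i) (D.k i) (D.C i)).smul (D.r (i + 1) - D.r i)).near (D.zS i) D.t = true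
  n1R : ∀ i < D.N, (((LFA (gre D.g1 i) (D.k i) (D.C i)).smul (D.r (i + 1) - D.r i)).to6).near (D.z1R i) D.t = true
  n1I : ∀ i < D.N, (((LFA (gim D.g1 i) (D.k i) (D.C i)).smul (D.r (i + 1) - D.r i)).to6).near (D.z1I i) D.t = true
  n3R : ∀ i < D.N, (((LFA (gre D.g3 i) (D.k i) (D.C i)).smul (D.r (i + 1) - D.r i)).to6).near (D.z3R i) D.t = true
  n3I : ∀ i < D.N, (((LFA (gim D.g3 i) (D.k i) (D.C i)).smul (D.r (i + 1) - D.r i)).to6).near (D.z3I i) D.t = true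
  n4R : ∀ i < D.N, ((QFP (gre D.g4 i) (D.k i) (D.C i)).smul (D.r (i + 1) - D.r i)).near (D.z4R i) D.t = true
  n4I : ∀ i < D.N, ((QFP (gim D.g4 i) (D.k i) (D.C i)).smul (D.r (i + 1) - D.r i)).near (D.z4I i) D.t = true
  nE : ∀ i < D.N, ((ceP (D.k i) (D.C i)).smul ((D.r (i + 1) - D.r i) * ((1 + D.η) * (2 * D.xm + D.eb i)))).near
    (D.zE i) D.t = true
  nL : ∀ i < D.N, ((ceP (D.k i) (D.C i)).smul ((D.r (i + 1) - D.r i) * ((1 + D.η) ^ 2 * D.eb i))).near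
    (D.zL i) D.t = true
  hε1 : D.η * D.xm ^ 2 + 3 * (D.N * (D.t * (1 + 2 * D.xm + 3 * D.xm ^ 2))) ≤ D.ε
  hε0 : D.η * D.xm + 2 * (D.N * (D.t * (1 + 2 * D.xm + 3 * D.xm ^ 2))) ≤ D.ε0
  hε : 2 * D.ε0 * ((1 + D.η) * D.EB) + D.ε0 ^ 2 + D.N * (D.t * (1 + 2 * D.xm + 3 * D.xm ^ 2)) ≤ D.ε

/-- admissible node values -/
structure PW.Adm (D : PW) (x : ℕ → ℝ) : Prop where
  last : x D.N = -x 0
  p : ∀ i < D.N, x (i + 1) - x i ≤ D.Hp i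
  q : ∀ i < D.N, -(D.Lq i : ℝ) ≤ x (i + 1) - x i
  bd : ∀ i, |x i| ≤ D.xm
  one : fz D.N D.z1R x ^ 2 + fz D.N D.z1I x ^ 2 ≤ fz D.N D.zL x + D.ε

/-- the form: `S = mean X²`, `3R + i 3I = mean (X e^{3ia})`, `4R + i 4I = mean (X² e^{4ia})`, `E`, `L` the errors;
`k1 = be (1 - b1) + (1 + 3 b1) / 2`, `k2 = be (3 - be)` -/
def PW.form (D : PW) (b1 be th tt ω₁ ω₂ : ℝ) (x : ℕ → ℝ) (u v : ℂ) : ℝ :=
  (ω₁ - 9 / 16 * fz D.N D.zS x - 9 / 16 * (1 + 1 / tt) * (fz D.N D.zE x + D.ε)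
      - be * (3 - be) * (1 / th - 1) * (9 / 4) * (fz D.N D.zL x + D.ε)
      + be * (3 - be) * (1 - th) * (9 / 4) * (fz D.N D.z3R x ^ 2 + fz D.N D.z3I x ^ 2)) * ‖u‖ ^ 2
    + (1 - ω₂ + 2 * b1 - b1 ^ 2 - th * (be * (1 - b1) + (1 + 3 * b1) / 2) ^ 2 / (be * (3 - be))
      - 9 / 16 * fz D.N D.zS x - 9 / 16 * (1 + tt) * (fz D.N D.zE x + D.ε)) * ‖v‖ ^ 2
    + 2 * (u * conj v * (((-(3 / 2) * (1 - th) * (be * (1 - b1) + (1 + 3 * b1) / 2) * fz D.N D.z3R x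
        + 9 / 16 * fz D.N D.z4R x : ℝ) : ℂ)
      + ((-(3 / 2) * (1 - th) * (be * (1 - b1) + (1 + 3 * b1) / 2) * fz D.N D.z3I x
        + 9 / 16 * fz D.N D.z4I x : ℝ) : ℂ) * Complex.I)).re

/-- **the finite dimensional statement** -/
def PW.Cert (D : PW) (b1 be th tt ω₁ ω₂ : ℝ) : Prop :=
  ∀ x : ℕ → ℝ, D.Adm x → ∀ u v : ℂ, 0 ≤ D.form b1 be th tt ω₁ ω₂ x u v

theorem fc_sq (N : ℕ) (zR zI : ℕ → P6) (x : ℕ → ℝ) : ‖fc N zR zI x‖ ^ 2 = fz N zR x ^ 2 + fz N zI x ^ 2 := by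
  rw [← Complex.normSq_eq_norm_sq, Complex.normSq_apply]
  unfold fc
  simp
  ring

theorem form_eq (D : PW) (b1 be th tt ω₁ ω₂ : ℝ) (x : ℕ → ℝ) (u v : ℂ) :
    D.form b1 be th tt ω₁ ω₂ x u v = AF 1 b1 be th (fz D.N D.zS x)
    (9 / (16 * 1) * (fz D.N D.zE x + D.ε) + 9 / (16 * 1) / tt * (fz D.N D.zE x + D.ε)
      + k2 1 be * (1 / th - 1) * (9 / 4 * (fz D.N D.zL x + D.ε)))
    (9 / (16 * 1) * (fz D.N D.zE x + D.ε) + 9 / (16 * 1) * tt * (fz D.N D.zE x + D.ε))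
    (-(3 / 2) * fc D.N D.z3R D.z3I x) (fc D.N D.z4R D.z4I x) u v + (ω₁ * ‖u‖ ^ 2 - ω₂ * ‖v‖ ^ 2) := by
  have e1 : ‖-(3 / 2) * fc D.N D.z3R D.z3I x‖ ^ 2
      = 9 / 4 * (fz D.N D.z3R x ^ 2 + fz D.N D.z3I x ^ 2) := by
    rw [norm_mul, mul_pow, fc_sq, norm_neg]
    congr 1
    norm_num
  have hk2 : k2 1 be = be * (3 - be) := by
    unfold k2
    ring
  have hk1 : k1 1 b1 be = be * (1 - b1) + (1 + 3 * b1) / 2 := by
    unfold k1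
    ring
  unfold AF PW.form
  rw [e1, hk2, hk1]
  have e2 : ((((1 - th) * (be * (1 - b1) + (1 + 3 * b1) / 2) : ℝ) : ℂ) * (-(3 / 2) * fc D.N D.z3R D.z3I x)
      + ((9 / (16 * 1) : ℝ) : ℂ) * fc D.N D.z4R D.z4I x)
      = (((-(3 / 2) * (1 - th) * (be * (1 - b1) + (1 + 3 * b1) / 2) * fz D.N D.z3R x
        + 9 / 16 * fz D.N D.z4R x : ℝ) : ℂ)
      + ((-(3 / 2) * (1 - th) * (be * (1 - b1) + (1 + 3 * b1) / 2) * fz D.N D.z3I x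
        + 9 / 16 * fz D.N D.z4I x : ℝ) : ℂ) * Complex.I) := by
    unfold fc
    push_cast
    ring
  rw [e2]
  ring

section pilot

variable {D : PW} (hD : D.Ok) {X : ℝ → ℝ} (hX : St D.s X) (hb : ∀ a, |X a| ≤ 0.62 * (D.s : ℝ))

include hD in
theorem PW.cs0 : (0 : ℝ) < D.s := by exact_mod_cast hD.s0

include hD in
theorem PW.cs1 : (D.s : ℝ) ≤ 1 := by exact_mod_cast hD.s1

include hD hb in
theorem PW.bx (a : ℝ) : |X a| ≤ (D.xm : ℝ) := by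
  have h : ((31 / 50 * D.s : ℚ) : ℝ) ≤ D.xm := by exact_mod_cast hD.hxm
  refine (hb a).trans (le_trans (le_of_eq ?_) h)
  push_cast
  norm_num

include hD hX hb

theorem PW.side_S : |mS X - fz D.N D.zS (xn (rR D.r) X)| ≤ fz D.N D.zE (xn (rR D.r) X) + D.ε := by
  have hF : ∀ i < D.N, ∀ v, 0 ≤ v → v ≤ 1 → ‖ph 0 (pt (rR D.r) i v) - Fp (toC (gre g0 i) (gim g0 i)) v‖
      ≤ ((0 : ℚ) : ℝ) := by
    intro i _ v _ _
    unfold Fp ph toC gre gim g0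
    simp
  have hI : ∀ i < D.N, ((QFP (gim g0 i) (D.k i) (D.C i)).smul (D.r (i + 1) - D.r i)).near
      ((QFP (gim g0 i) (D.k i) (D.C i)).smul (D.r (i + 1) - D.r i)) D.t = true := by
    intro i hi
    have h := hD.nS i hi
    unfold P6.near at h ⊢
    simp only [Bool.and_eq_true, decide_eq_true_eq, sub_self, abs_zero] at h ⊢
    have : 0 ≤ D.t := (abs_nonneg _).trans h.2
    exact ⟨⟨⟨⟨⟨this, this⟩, this⟩, this⟩, this⟩, this⟩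
  have hε : (0 : ℚ) * D.xm ^ 2 + 3 * (D.N * (D.t * (1 + 2 * D.xm + 3 * D.xm ^ 2))) ≤ D.ε := by
    have h1 := hD.hε1
    have h2 : 0 ≤ D.η * D.xm ^ 2 := mul_nonneg hD.η0 (sq_nonneg _)
    linarith
  have k1 := quad_form hX (PW.cs0 hD).le le_rfl (PW.cs0 hD) (PW.cs1 hD) hD.geo.grid hD.geo.cell
    (PW.bx hD hb) (cont_ph 0) (norm_ph 0)
    (fun a => ph_even (by decide) a) hF hD.η0 hD.heb hD.nS hI hD.nE hε
  rw [mean_sq hX.cont] at k1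
  have e2 : (⟨QST.mn fun a => X a ^ 2 * Real.cos ((0 : ℕ) * a), QST.mn fun a => X a ^ 2 * Real.sin ((0 : ℕ) * a)⟩ : ℂ)
      = ((mS X : ℝ) : ℂ) := by
    unfold mS
    apply Complex.ext
    · simp
    · simp [QST.mn]
  have e3 := (Complex.abs_re_le_norm _).trans k1
  rw [e2] at e3
  simpa using e3

theorem PW.side_Y : ‖mY X - fc D.N D.z4R D.z4I (xn (rR D.r) X)‖ ≤ fz D.N D.zE (xn (rR D.r) X) + D.ε :=
  q_form hX (PW.cs0 hD).le le_rfl (PW.cs0 hD) (PW.cs1 hD) hD.geo (PW.bx hD hb) (by decide) hD.f4 le_rfl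
    hD.heb hD.n4R hD.n4I hD.nE hD.hε1

theorem PW.side_G : ‖mG X - -(3 / 2) * fc D.N D.z3R D.z3I (xn (rR D.r) X)‖ ^ 2
    ≤ 9 / 4 * (fz D.N D.zL (xn (rR D.r) X) + D.ε) := by
  have k1 := l_sq hX (PW.cs0 hD).le le_rfl (PW.cs0 hD) (PW.cs1 hD) hD.geo (PW.bx hD hb) (m := 3) (by decide)
    hD.f3 hD.η0 le_rfl hD.heb hD.hEB hD.n3R hD.n3I hD.nL hD.hε0 hD.hε
  have e1 : mG X - -(3 / 2) * fc D.N D.z3R D.z3I (xn (rR D.r) X)
      = -(3 / 2 : ℂ) * (⟨QST.mn fun a => X a * Real.cos ((3 : ℕ) * a),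
      QST.mn fun a => X a * Real.sin ((3 : ℕ) * a)⟩ - fc D.N D.z3R D.z3I (xn (rR D.r) X)) := by
    have : mG X = -(3 / 2 : ℂ) * ⟨QST.mn fun a => X a * Real.cos ((3 : ℕ) * a),
      QST.mn fun a => X a * Real.sin ((3 : ℕ) * a)⟩ := by
      unfold mG
      apply Complex.ext <;> simp
    rw [this]
    ring
  rw [e1, norm_mul, mul_pow]
  have e2 : ‖(-(3 / 2) : ℂ)‖ ^ 2 = 9 / 4 := by
    rw [norm_neg]
    norm_num
  rw [e2]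
  exact mul_le_mul_of_nonneg_left k1 (by norm_num)

theorem PW.side_C : fz D.N D.z1R (xn (rR D.r) X) ^ 2 + fz D.N D.z1I (xn (rR D.r) X) ^ 2
    ≤ fz D.N D.zL (xn (rR D.r) X) + D.ε := by
  have k1 := l_sq hX (PW.cs0 hD).le le_rfl (PW.cs0 hD) (PW.cs1 hD) hD.geo (PW.bx hD hb) (m := 1) (by decide)
    hD.f1 hD.η0 le_rfl hD.heb hD.hEB hD.n1R hD.n1I hD.nL hD.hε0 hD.hε
  have e1 : (⟨QST.mn fun a => X a * Real.cos ((1 : ℕ) * a),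
      QST.mn fun a => X a * Real.sin ((1 : ℕ) * a)⟩ : ℂ) = 0 := by
    have h1 := hX.mc
    have h2 := hX.ms
    unfold QST.mn
    apply Complex.ext
    · simp [h1]
    · simp [h2]
  rw [e1, zero_sub, norm_neg] at k1
  rw [← fc_sq]
  exact k1

theorem PW.adm : D.Adm (xn (rR D.r) X) :=
  ⟨x_last hX hD.geo, fun _ hi => dn_le hX (PW.cs0 hD).le le_rfl (PW.cs0 hD) (PW.cs1 hD) hD.geo (PW.bx hD hb) hi,
    fun _ hi => le_dn hX (PW.cs0 hD).le le_rfl (PW.cs0 hD) (PW.cs1 hD) hD.geo (PW.bx hD hb) hi,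
    fun _ => PW.bx hD hb _, PW.side_C hD hX hb⟩

omit hX hb in
/-- **the certificate of the class** -/
theorem PW.certW {b1 be th tt ω₁ ω₂ : ℝ} (hbe : 0 < be) (hbe3 : be < 3) (hth : 0 < th) (hth1 : th ≤ 1)
    (htt : 0 < tt) (hc : D.Cert b1 be th tt ω₁ ω₂) : SQX.CertW D.s ω₁ ω₂ := by
  intro X hX hb
  have hk : 0 < k2 1 be := by
    unfold k2
    nlinarith
  refine ⟨b1, be * conj (mG X), fun u v => ?_⟩
  have key := hc _ (PW.adm hD hX hb) u v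
  rw [form_eq] at key
  exact key.trans (add_le_add_left (AF_le_HF (b1 := b1) one_pos hk hth hth1 htt (PW.side_S hD hX hb)
    (PW.side_Y hD hX hb) (PW.side_G hD hX hb) u v) _)

end pilot

end Pool.Agent.FPX.NOD
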