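import Mathlib
import Pool.Agent.FPX.NOX
import Pool.Agent.FPX.NOU

/-
NOY (helper42): the record `PW` of NOU from the integer record of NOX and nine lists of cell polynomials with
integer coefficients; `PW.Ok` from Booleans.
-/

set_option autoImplicit false

noncomputable section

namespace Pool.Agent.FPX.NOX

open Pool.Agent.FPX.NOD Pool.Agent.FPX.NOT Pool.Agent.FPX.SQE

/-- a cell polynomial with integer coefficients (over `S`) -/
structure Z6 where
  k : ℤ
  a : ℤ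
  b : ℤ
  aa : ℤ
  ab : ℤ
  bb : ℤ
deriving Inhabited

/-- the rational polynomial -/
@[reducible] def Z6.p (S : ℕ) (z : Z6) : P6 :=
  ⟨(z.k : ℚ) / S, (z.a : ℚ) / S, (z.b : ℚ) / S, (z.aa : ℚ) / S, (z.ab : ℚ) / S, (z.bb : ℚ) / S⟩

/-- the polynomials of a list -/
def zF (S : ℕ) (l : List Z6) (i : ℕ) : P6 := (l.getD i default).p S

/-- the forms: tolerance `t / S`, `ε₀ = e0 / S`, `EB = EB / M`, `ε = ep / S` -/
structure FD where
  t : ℕ
  e0 : ℕ
  EB : ℕ
  ep : ℕ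
  zS : List Z6
  z1R : List Z6
  z1I : List Z6
  z3R : List Z6
  z3I : List Z6
  z4R : List Z6
  z4I : List Z6
  zE : List Z6
  zL : List Z6

/-- **the record of NOU** -/
def GD.pw (G : GD) (F : FD) : PW where
  s := G.s
  xm := G.x
  N := G.N
  r := G.r
  k := G.k
  C := G.C
  Hp := G.Hp
  Lq := G.Lq
  eb := G.eb
  g1 := gF G.S G.c1
  g3 := gF G.S G.c3
  g4 := gF G.S G.c4
  zS := zF G.S F.zS
  z1R := zF G.S F.z1R
  z1I := zF G.S F.z1I
  z3R := zF G.S F.z3R
  z3I := zF G.S F.z3I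
  z4R := zF G.S F.z4R
  z4I := zF G.S F.z4I
  zE := zF G.S F.zE
  zL := zF G.S F.zL
  η := G.η
  t := (F.t : ℚ) / G.S
  ε0 := (F.e0 : ℚ) / G.S
  EB := (F.EB : ℚ) / G.M
  ε := (F.ep : ℚ) / G.S

/-- the length of a cell -/
@[reducible] def IC.len (d : ℕ) (c : IC) : ℚ := (c.b : ℚ) / d - (c.a : ℚ) / d

/-- the quadratic functional without cubic -/
def cQ0 (d M S : ℕ) (t : ℚ) (p : IC × Z6) : Bool :=
  ((QFP (gre g0 0) p.1.kd (p.1.cq M)).smul (p.1.len d)).near (p.2.p S) t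

/-- the quadratic functional, real part -/
def cQr (d M S : ℕ) (t : ℚ) (p : (IC × T8) × Z6) : Bool :=
  ((QFP (fun j => (p.1.2.g S j).re) p.1.1.kd (p.1.1.cq M)).smul (p.1.1.len d)).near (p.2.p S) t

/-- the quadratic functional, imaginary part -/
def cQi (d M S : ℕ) (t : ℚ) (p : (IC × T8) × Z6) : Bool :=
  ((QFP (fun j => (p.1.2.g S j).im) p.1.1.kd (p.1.1.cq M)).smul (p.1.1.len d)).near (p.2.p S) t

/-- the linear functional, real part -/
def cLr (d M S : ℕ) (t : ℚ) (p : (IC × T8) × Z6) : Bool :=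
  (((LFA (fun j => (p.1.2.g S j).re) p.1.1.kd (p.1.1.cq M)).smul (p.1.1.len d)).to6).near (p.2.p S) t

/-- the linear functional, imaginary part -/
def cLi (d M S : ℕ) (t : ℚ) (p : (IC × T8) × Z6) : Bool :=
  (((LFA (fun j => (p.1.2.g S j).im) p.1.1.kd (p.1.1.cq M)).smul (p.1.1.len d)).to6).near (p.2.p S) t

/-- the error form -/
def cE (d M S : ℕ) (t η xm : ℚ) (p : IC × Z6) : Bool :=
  ((ceP p.1.kd (p.1.cq M)).smul (p.1.len d * ((1 + η) * (2 * xm + ebF p.1.kd (p.1.cq M) xm)))).near (p.2.p S) t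

/-- the error form of the linear moments, with the bound of `eb` -/
def cL (d M S : ℕ) (t η xm EB : ℚ) (p : IC × Z6) : Bool :=
  decide (ebF p.1.kd (p.1.cq M) xm ≤ EB) &&
    ((ceP p.1.kd (p.1.cq M)).smul (p.1.len d * ((1 + η) ^ 2 * ebF p.1.kd (p.1.cq M) xm))).near (p.2.p S) t

/-- check over two lists -/
def chk2 {α β : Type} (f : α × β → Bool) (l : List α) (q : List β) : Bool :=
  decide (l.length ≤ q.length) && (l.zip q).all f

section spec

variable {G : GD} (h : G.Bas)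

include h in
theorem len_eq {i : ℕ} (hi : i < G.cells.length) : G.r (i + 1) - G.r i = (G.cells[i]).len G.d := by
  obtain ⟨j1, j2⟩ := GD.nodes h hi
  rw [j1, j2]

include h in
theorem near0 {z : List Z6} {t : ℚ} (hc : chk2 (cQ0 G.d G.M G.S t) G.cells z = true) :
    ∀ i < G.N, ((QFP (gre g0 i) (G.k i) (G.C i)).smul (G.r (i + 1) - G.r i)).near (zF G.S z i) t = true := by
  intro i hi
  obtain ⟨hq, h1⟩ := all_zip hc hi
  rw [len_eq h hi, GD.k, GD.C, getD_eq hi, zF, getD_eq hq]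
  exact h1

theorem zip_len {l : List IC} {q : List T8} {z : List Z6} {f : (IC × T8) × Z6 → Bool}
    (hl : l.length ≤ q.length) (hc : chk2 f (l.zip q) z = true) {i : ℕ} (hi : i < l.length) :
    ∃ (hq : i < q.length) (hz : i < z.length), f ((l[i], q[i]'hq), z[i]'hz) = true := by
  have hi' : i < (l.zip q).length := by
    rw [List.length_zip]
    exact lt_min hi (lt_of_lt_of_le hi hl)
  obtain ⟨hz, h1⟩ := all_zip hc hi'
  refine ⟨lt_of_lt_of_le hi hl, hz, ?_⟩
  simpa using h1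

include h in
theorem nearQr {q : List T8} {z : List Z6} {t : ℚ} (hl : G.cells.length ≤ q.length)
    (hc : chk2 (cQr G.d G.M G.S t) (G.cells.zip q) z = true) :
    ∀ i < G.N, ((QFP (gre (gF G.S q) i) (G.k i) (G.C i)).smul (G.r (i + 1) - G.r i)).near (zF G.S z i) t = true := by
  intro i hi
  obtain ⟨hq, hz, h1⟩ := zip_len hl hc hi
  have e : gre (gF G.S q) i = fun j => ((q[i]'hq).g G.S j).re := by
    funext j
    rw [gre, gF, getD_eq hq]
  rw [len_eq h hi, GD.k, GD.C, getD_eq hi, zF, getD_eq hz, e]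
  exact h1

include h in
theorem nearQi {q : List T8} {z : List Z6} {t : ℚ} (hl : G.cells.length ≤ q.length)
    (hc : chk2 (cQi G.d G.M G.S t) (G.cells.zip q) z = true) :
    ∀ i < G.N, ((QFP (gim (gF G.S q) i) (G.k i) (G.C i)).smul (G.r (i + 1) - G.r i)).near (zF G.S z i) t = true := by
  intro i hi
  obtain ⟨hq, hz, h1⟩ := zip_len hl hc hi
  have e : gim (gF G.S q) i = fun j => ((q[i]'hq).g G.S j).im := by
    funext j
    rw [gim, gF, getD_eq hq]
  rw [len_eq h hi, GD.k, GD.C, getD_eq hi, zF, getD_eq hz, e]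
  exact h1

include h in
theorem nearLr {q : List T8} {z : List Z6} {t : ℚ} (hl : G.cells.length ≤ q.length)
    (hc : chk2 (cLr G.d G.M G.S t) (G.cells.zip q) z = true) :
    ∀ i < G.N, (((LFA (gre (gF G.S q) i) (G.k i) (G.C i)).smul (G.r (i + 1) - G.r i)).to6).near (zF G.S z i) t
      = true := by
  intro i hi
  obtain ⟨hq, hz, h1⟩ := zip_len hl hc hi
  have e : gre (gF G.S q) i = fun j => ((q[i]'hq).g G.S j).re := by
    funext j
    rw [gre, gF, getD_eq hq]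
  rw [len_eq h hi, GD.k, GD.C, getD_eq hi, zF, getD_eq hz, e]
  exact h1

include h in
theorem nearLi {q : List T8} {z : List Z6} {t : ℚ} (hl : G.cells.length ≤ q.length)
    (hc : chk2 (cLi G.d G.M G.S t) (G.cells.zip q) z = true) :
    ∀ i < G.N, (((LFA (gim (gF G.S q) i) (G.k i) (G.C i)).smul (G.r (i + 1) - G.r i)).to6).near (zF G.S z i) t
      = true := by
  intro i hi
  obtain ⟨hq, hz, h1⟩ := zip_len hl hc hi
  have e : gim (gF G.S q) i = fun j => ((q[i]'hq).g G.S j).im := by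
    funext j
    rw [gim, gF, getD_eq hq]
  rw [len_eq h hi, GD.k, GD.C, getD_eq hi, zF, getD_eq hz, e]
  exact h1

include h in
theorem nearE {z : List Z6} {t : ℚ} (hc : chk2 (cE G.d G.M G.S t G.η G.x) G.cells z = true) :
    ∀ i < G.N, ((ceP (G.k i) (G.C i)).smul ((G.r (i + 1) - G.r i) * ((1 + G.η) * (2 * G.x + G.eb i)))).near
      (zF G.S z i) t = true := by
  intro i hi
  obtain ⟨hq, h1⟩ := all_zip hc hi
  rw [len_eq h hi, GD.eb, GD.k, GD.C, getD_eq hi, zF, getD_eq hq]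
  exact h1

include h in
theorem nearL {z : List Z6} {t EB : ℚ} (hc : chk2 (cL G.d G.M G.S t G.η G.x EB) G.cells z = true) :
    ∀ i < G.N, G.eb i ≤ EB ∧ ((ceP (G.k i) (G.C i)).smul ((G.r (i + 1) - G.r i) * ((1 + G.η) ^ 2 * G.eb i))).near
      (zF G.S z i) t = true := by
  intro i hi
  obtain ⟨hq, h1⟩ := all_zip hc hi
  rw [len_eq h hi, GD.eb, GD.k, GD.C, getD_eq hi, zF, getD_eq hq]
  simp only [cL, Bool.and_eq_true, decide_eq_true_eq] at h1
  exact h1

end spec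

/-- the numerical conditions -/
def GD.chkN (G : GD) (F : FD) : Bool :=
  let D := G.pw F
  decide (D.η * D.xm ^ 2 + 3 * (D.N * (D.t * (1 + 2 * D.xm + 3 * D.xm ^ 2))) ≤ D.ε) &&
  decide (D.η * D.xm + 2 * (D.N * (D.t * (1 + 2 * D.xm + 3 * D.xm ^ 2))) ≤ D.ε0) &&
  decide (2 * D.ε0 * ((1 + D.η) * D.EB) + D.ε0 ^ 2 + D.N * (D.t * (1 + 2 * D.xm + 3 * D.xm ^ 2)) ≤ D.ε) &&
  decide (G.cells.length ≤ G.c1.length) && decide (G.cells.length ≤ G.c3.length) &&
  decide (G.cells.length ≤ G.c4.length)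

/-- the checks of the forms -/
structure GD.Frm (G : GD) (F : FD) : Prop where
  n : G.chkN F = true
  S : chk2 (cQ0 G.d G.M G.S ((F.t : ℚ) / G.S)) G.cells F.zS = true
  r1 : chk2 (cLr G.d G.M G.S ((F.t : ℚ) / G.S)) (G.cells.zip G.c1) F.z1R = true
  i1 : chk2 (cLi G.d G.M G.S ((F.t : ℚ) / G.S)) (G.cells.zip G.c1) F.z1I = true
  r3 : chk2 (cLr G.d G.M G.S ((F.t : ℚ) / G.S)) (G.cells.zip G.c3) F.z3R = true
  i3 : chk2 (cLi G.d G.M G.S ((F.t : ℚ) / G.S)) (G.cells.zip G.c3) F.z3I = true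
  r4 : chk2 (cQr G.d G.M G.S ((F.t : ℚ) / G.S)) (G.cells.zip G.c4) F.z4R = true
  i4 : chk2 (cQi G.d G.M G.S ((F.t : ℚ) / G.S)) (G.cells.zip G.c4) F.z4I = true
  E : chk2 (cE G.d G.M G.S ((F.t : ℚ) / G.S) G.η G.x) G.cells F.zE = true
  L : chk2 (cL G.d G.M G.S ((F.t : ℚ) / G.S) G.η G.x ((F.EB : ℚ) / G.M)) G.cells F.zL = true

/-- **`PW.Ok` from Booleans** -/
theorem GD.pwOk {G : GD} {F : FD} (h0 : G.chk0 = true) (hs : G.chkSl = true)
    (h1 : chkT 1 G.e G.d G.S G.cells G.c1 = true) (h3 : chkT 3 G.e G.d G.S G.cells G.c3 = true)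
    (h4 : chkT 4 G.e G.d G.S G.cells G.c4 = true) (hF : G.Frm F) : (G.pw F).Ok := by
  have h := GD.bas h0
  have hn := hF.n
  simp only [GD.chkN, Bool.and_eq_true, decide_eq_true_eq] at hn
  obtain ⟨⟨⟨⟨⟨n1, n2⟩, n3⟩, l1⟩, l3⟩, l4⟩ := hn
  exact
    { s0 := h.s0
      s1 := h.s1
      hxm := h.xm
      geo := GD.geo h hs
      f1 := GD.fnOk h h1
      f3 := GD.fnOk h h3
      f4 := GD.fnOk h h4
      η0 := G.eta0
      heb := fun i _ => G.ebOk i
      hEB := fun i hi => (nearL h hF.L i hi).1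
      nS := near0 h hF.S
      n1R := nearLr h l1 hF.r1
      n1I := nearLi h l1 hF.i1
      n3R := nearLr h l3 hF.r3
      n3I := nearLi h l3 hF.i3
      n4R := nearQr h l4 hF.r4
      n4I := nearQi h l4 hF.i4
      nE := nearE h hF.E
      nL := fun i hi => (nearL h hF.L i hi).2
      hε1 := n1
      hε0 := n2
      hε := n3 }

end Pool.Agent.FPX.NOX
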