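import Pool.Agent.FPX.NWT
import Pool.Agent.FPX.ECX
/-!
NWK (helper59). The test `chkK` of a record NW (`P_i ≥ 0`, `K_i ≤ U P_i` in all cells) with packed coefficients:
`NW.chkKf`; `nn_hatLf` is `nn_hatL` with this test.
-/
set_option autoImplicit false

noncomputable section

namespace Pool.Agent.FPX.NCD

open Pool.Agent.FPX.PLK

/-- `P_i ≥ 0` and `K_i ≤ U P_i` -/
def ckR (B U : ℕ) : List PV → List (List ℤ) → Bool
  | x :: xs, p :: ps => (fun y => psd3 B y && psd3 B (PV.sub (PV.sm (Int.ofNat U) y) x)) (ofZ B p) && ckR B U xs ps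
  | [], _ => true
  | _ :: _, [] => false

/-- the fast test, `B` is the base of the packing -/
def NW.chkKg (D : NW) (B : ℕ) : Bool :=
  (D.Q.all fun l => Nat.beq l.length 9) && ((D.PP.all fun l => Nat.beq l.length 9) && ckR B D.U (D.kx B) D.PP)

/-- the fast test, base `2 ^ 128` -/
def NW.chkKf (D : NW) : Bool := D.chkKg 0x100000000000000000000000000000000

theorem ckR_ok {D : NW} {B : ℕ} (z0 z1 z2 : ℂ) : ∀ (xs : List PV) (ps : List (List ℤ)) (i : ℕ),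
    (∀ j x, xs[j]? = some x → RV B 9 (w3 z0 z1 z2) x (iz (w3 z0 z1 z2) (D.toND.Kx (i + j)))) →
    (∀ j, ps.getD j [] = D.toNH.pp (i + j)) → (∀ p ∈ ps, p.length = 9) → ckR B D.U xs ps = true →
    ∀ j, j < xs.length → 0 ≤ iz (w3 z0 z1 z2) (D.toNH.pp (i + j)) ∧ iz (w3 z0 z1 z2) (D.toNH.Kd (i + j)) ≤ 0
  | [], _, _, _, _, _, _ => fun j hj => by simp at hj
  | _ :: _, [], _, _, _, _, h => by simp [ckR] at h
  | x :: xs, p :: ps, i, hx, hp, hl, h => by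
    simp only [ckR, Bool.and_eq_true] at h
    obtain ⟨⟨h1, h2⟩, h3⟩ := h
    have e : ∀ j, i + 1 + j = i + (j + 1) := fun j => by ring
    have ih := ckR_ok z0 z1 z2 xs ps (i + 1) (fun j y hy => by
      rw [e]
      exact hx (j + 1) y (by simpa using hy)) (fun j => by
        have := hp (j + 1)
        rw [e]
        simpa using this) (fun q hq => hl q (by simp [hq])) h3
    intro j hj
    cases j with
    | zero =>
      have hp0 : p = D.toNH.pp i := by simpa using hp 0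
      have v1 : RV B 9 (w3 z0 z1 z2) (ofZ B p) (iz (w3 z0 z1 z2) p) := ofZ_ok (hl p (by simp))
      have k1 := (rl3 B z0 z1 z2).psd v1 h1
      have v2 := RV.sub (v1.sm (Int.ofNat D.U)) (hx 0 x (by simp))
      have k2 := (rl3 B z0 z1 z2).psd v2 h2
      rw [Nat.add_zero]
      rw [Nat.add_zero] at k2
      refine ⟨by rw [← hp0]; exact k1, ?_⟩
      rw [iz_Kd, ← hp0]
      have e3 : ((Int.ofNat D.U : ℤ) : ℝ) = (D.U : ℝ) := by simp
      rw [e3] at k2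
      linarith
    | succ j =>
      have := ih j (by simpa using hj)
      rw [e] at this
      exact this

theorem chkKg_ok {D : NW} {B : ℕ} (h : D.chkKg B = true) :
    (∀ i < D.toND.N, ∀ z0 z1 z2, 0 ≤ iz (w3 z0 z1 z2) (D.toNH.pp i)) ∧
      ∀ i < D.toND.N, ∀ z0 z1 z2, iz (w3 z0 z1 z2) (D.toNH.Kd i) ≤ 0 := by
  simp only [NW.chkKg, Bool.and_eq_true, List.all_eq_true] at h
  obtain ⟨h1, h2, h3⟩ := h
  have key : ∀ i < D.toND.N, ∀ z0 z1 z2, 0 ≤ iz (w3 z0 z1 z2) (D.toNH.pp i) ∧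
      iz (w3 z0 z1 z2) (D.toNH.Kd i) ≤ 0 := by
    intro i hi z0 z1 z2
    obtain ⟨k1, k2⟩ := kx_ok (D := D) (fun q hq => Nat.eq_of_beq_eq_true (h1 q hq)) (w3 z0 z1 z2) B
    have := ckR_ok (D := D) z0 z1 z2 (D.kx B) D.PP 0 (fun j x hx => by
      rw [Nat.zero_add]
      exact k2 j x hx) (fun j => by rw [Nat.zero_add]; rfl) (fun p hp => Nat.eq_of_beq_eq_true (h2 p hp)) h3 i
        (by rw [k1]; exact hi)
    rw [Nat.zero_add] at this
    exact this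
  exact ⟨fun i hi z0 z1 z2 => (key i hi z0 z1 z2).1, fun i hi z0 z1 z2 => (key i hi z0 z1 z2).2⟩

open Pool.Agent.FPX.CAV
open Pool.Agent.FPX.HAA (AvgH AvgL GeoH)
open Pool.Agent.FPX.HAT (TrgH)
open Pool.Agent.FPX.NCA (yv Zv)
open Pool.Agent.FPX.BTN (va e1)
open Pool.Agent.FPX.BRG (vl Zr fr_va)
open Pool.Agent.FPX.ALX (St)

/-- `certW_of` with the two facts in place of the test `chkK` -/
theorem certW_ofK {D : NW} (cN : D.toNH.chkN = true) (cL : D.chkL = true)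
    {T : BRG.Tf} {Q : BRG.Qf} {Sc : ℚ} (hSc : 0 < Sc) {B : ℕ} (hNear : Near D.toND.R D.C D.Q Sc B T Q)
    (k1 : ∀ i < D.toND.N, ∀ z0 z1 z2, 0 ≤ iz (w3 z0 z1 z2) (D.toNH.pp i))
    (k2 : ∀ i < D.toND.N, ∀ z0 z1 z2, iz (w3 z0 z1 z2) (D.toNH.Kd i) ≤ 0) (cS : D.toND.chkS B = true)
    (hEng : ∀ z0 z1 z2 : ℂ, D.st.Good (w3 z0 z1 z2)) {s : ℝ} (hs : s ≤ 1)
    {X : ℝ → ℝ} (hX : St s X) (hb : ∀ a, |X a| ≤ 0.62 * s) {x A : ℕ → ℝ}
    (hA : AvgL D.toND.R D.Z.cd D.G.a D.toND.e (vl va X e1) (Zr 2 va X e1) x A) (z : ℕ → ℂ) :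
    0 ≤ (BRG.e2 z (vl va X e1) T + BRG.eq2 z (Zr 2 va X e1) Q).re := by
  simp only [NH.chkN, Bool.and_eq_true] at cN
  obtain ⟨m1, m2, m3, m4⟩ := cN
  have h3 : 3 ≤ D.toND.N := Nat.le_of_ble_eq_true m1
  have hS : 0 < D.G.S := Nat.le_of_ble_eq_true m3
  have hb1 : ∀ a, |X a| ≤ 1 := fun a => by
    have h2 := hb a
    linarith
  have key := int_formW (Nat.eq_of_beq_eq_true m2) hS h3 m4 hA (chkL_ok cL) (w := w3 (z 0) (z 1) (z 2))
    (fun τ hτ => hEng _ _ _ x τ hτ) (fun i hi => k1 i hi _ _ _) fun i hi => k2 i hi _ _ _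
  have H := fr_va hX hb1
  have u0 : vl va X e1 0 = 1 := by simp [vl]
  have c1 := hNear z (vl va X e1) (Zr 2 va X e1) u0 (fun n => H.vl_neg n) (fun n => H.zc 2 n) (norm_vl hb1)
    (norm_Zr hb1 2)
  have hSc' : (0 : ℝ) < Sc := by exact_mod_cast hSc
  have c3 := chkS_ok hS cS z
  refine nonneg_of_mul_nonneg_right ?_ hSc'
  linarith

/-- `cert_hatL` with the two facts in place of the test `chkK` -/
theorem cert_hatLK {D : NW} (hG : GeoH D.Z.cd) {η : ℚ} (hT : TrgH D.toND.R D.G.N D.G.a fun _ => η)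
    (cE : D.toNH.chkE η = true) (cN : D.toNH.chkN = true) (cL : D.chkL = true)
    {T : BRG.Tf} {Q : BRG.Qf} {Sc : ℚ} (hSc : 0 < Sc) {B : ℕ} (hNear : Near D.toND.R D.C D.Q Sc B T Q)
    (k1 : ∀ i < D.toND.N, ∀ z0 z1 z2, 0 ≤ iz (w3 z0 z1 z2) (D.toNH.pp i))
    (k2 : ∀ i < D.toND.N, ∀ z0 z1 z2, iz (w3 z0 z1 z2) (D.toNH.Kd i) ≤ 0) (cS : D.toND.chkS B = true)
    (hEng : ∀ z0 z1 z2 : ℂ, D.st.Good (w3 z0 z1 z2))
    {X : ℝ → ℝ} (hX : St D.Z.cd.s X) (hb : ∀ a, |X a| ≤ 0.62 * (D.Z.cd.s : ℝ)) (z : ℕ → ℂ) :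
    0 ≤ (BRG.e2 z (vl va X e1) T + BRG.eq2 z (Zr 2 va X e1) Q).re := by
  have hN : D.G.N = D.Z.cd.N := by
    simp only [NH.chkN, Bool.and_eq_true] at cN
    exact Nat.eq_of_beq_eq_true cN.2.1
  rw [hN] at hT
  exact certW_ofK cN cL hSc hNear k1 k2 cS hEng (GeoH.cs1 hG) hX hb
    (HVO.avgL_of (by unfold ND.R; omega) hG hT (HAE.errH_of cE) hX hb) z

end Pool.Agent.FPX.NCD

namespace Pool.Agent.FPX.ECT

open Pool.Agent.FPX.BRG
open Pool.Agent.FPX.MCP (NN)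
open Pool.Agent.FPX.PLK (w3)

variable {T : Tf} {Q : Qf} {S E Dd Dc w : ℕ} {Ls : List ℕ} {V : List (List ℤ)}

/-- **hats, record `NW`**, fast test of the cells -/
theorem nn_hatLf {D : NCD.NW} (c0 : D.Z.G.chk0 = true) (cs : D.Z.G.chkSl = true) (cG : D.Z.chkG = true)
    (cH : HAA.chkHat D.Z.cd = true) {R' : ℕ} {η : ℚ} (cT : HAT.TrgH R' D.G.N D.G.a fun _ => η)
    (hR : Nat.ble D.toND.R R' = true) (cE : D.toNH.chkE η = true) (cN : D.toNH.chkN = true) (cL : D.chkL = true)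
    (hS : Nat.blt 0 S = true) (hL : NCL.chkN D.toND.R E Dd Dc w Ls V T Q D.C D.Q S = true)
    (cK : D.chkKf = true) (cS : D.toND.chkS (rB D.toND.R) = true)
    (hEng : ∀ z0 z1 z2 : ℂ, D.st.Good (w3 z0 z1 z2)) : NN (D.Z.cd.s : ℝ) T Q := by
  intro X hX hb z
  have hS' : 0 < S := by
    have := Nat.le_of_ble_eq_true (show Nat.ble (0 + 1) S = true from hS)
    omega
  obtain ⟨k1, k2⟩ := NCD.chkKg_ok cK
  exact NCD.cert_hatLK (HAA.geoH_of c0 cs cG cH) (cT.mono (Nat.le_of_ble_eq_true hR)) cE cN cL (Sc := (S : ℚ))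
    (by exact_mod_cast hS') (NCL.near_of_chkN hL) k1 k2 cS hEng hX (fun a => (hb a).trans (le_of_eq (by norm_num))) z

end Pool.Agent.FPX.ECT
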