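import Pool.Agent.FPX.NWK
/-!
NWS (helper59). Fast test of the slopes of the uniform grid: the sines of the midpoints come from a table of integers
(`SLT`, one per number of cells, checked once: `tabOk`), the polynomials of a cell are packed in natural numbers.
`chkSlF` replaces `GD.chkSl`; `geoH_ofF`, `nn_hatLs`.
-/
set_option autoImplicit false

noncomputable section

namespace Pool.Agent.FPX.NWS

open Pool.Agent.FPX.PLK (PV od pkZ)
open Pool.Agent.FPX.NOS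
open Pool.Agent.FPX.NOX (IC GD)

/-! ### packed polynomials -/

/-- value of a polynomial with natural coefficients -/
def ipt (t : ℝ) : List ℕ → ℝ
  | [] => 0
  | d :: l => d + t * ipt t l

def addU : List ℕ → List ℕ → List ℕ
  | a :: l, b :: m => (a + b) :: addU l m
  | [], m => m
  | l, [] => l

theorem ipt_addU (t : ℝ) : ∀ l m : List ℕ, ipt t (addU l m) = ipt t l + ipt t m
  | a :: l, b :: m => by
    simp only [addU, ipt, ipt_addU t l m]
    push_cast
    ring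
  | [], m => by simp [addU, ipt]
  | a :: l, [] => by simp [addU, ipt]

theorem od_addU (B : ℕ) : ∀ l m : List ℕ, od B (addU l m) = od B l + od B m
  | a :: l, b :: m => by
    simp only [addU, od, Nat.add_eq, Nat.mul_eq, od_addU B l m]
    ring
  | [], m => by simp [addU, od]
  | a :: l, [] => by simp [addU, od]

theorem addU_le {b c : ℕ} : ∀ l m : List ℕ, (∀ d ∈ l, d ≤ b) → (∀ d ∈ m, d ≤ c) → ∀ d ∈ addU l m, d ≤ b + c
  | a :: l, a' :: m, h1, h2 => by
    have ih := addU_le l m (fun d hd => h1 d (by simp [hd])) fun d hd => h2 d (by simp [hd])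
    intro d hd
    rcases List.mem_cons.1 hd with rfl | hd
    · exact Nat.add_le_add (h1 _ (by simp)) (h2 _ (by simp))
    · exact ih d hd
  | [], m, _, h2 => fun d hd => (h2 d hd).trans (Nat.le_add_left _ _)
  | a :: l, [], h1, _ => fun d hd => (h1 d hd).trans (Nat.le_add_right _ _)

/-- `x` represents the polynomial function `f` -/
def RU (B : ℕ) (x : PV) (f : ℝ → ℝ) : Prop :=
  ∃ P N : List ℕ, od B P = x.p ∧ od B N = x.n ∧ (∀ d ∈ P, d ≤ x.b) ∧ (∀ d ∈ N, d ≤ x.b) ∧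
    ∀ t, f t = ipt t P - ipt t N

section RU

variable {B : ℕ}

theorem RU.congr {x : PV} {f g : ℝ → ℝ} (h : RU B x f) (e : ∀ t, g t = f t) : RU B x g := by
  obtain ⟨P, N, a1, a2, a3, a4, a5⟩ := h
  exact ⟨P, N, a1, a2, a3, a4, fun t => (e t).trans (a5 t)⟩

theorem RU.add {x y : PV} {f g : ℝ → ℝ} (h1 : RU B x f) (h2 : RU B y g) : RU B (x.add y) fun t => f t + g t := by
  obtain ⟨P, N, a1, a2, a3, a4, a5⟩ := h1
  obtain ⟨Q, M, b1, b2, b3, b4, b5⟩ := h2
  refine ⟨addU P Q, addU N M, ?_, ?_, addU_le P Q a3 b3, addU_le N M a4 b4, fun t => ?_⟩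
  · rw [od_addU, a1, b1]
    rfl
  · rw [od_addU, a2, b2]
    rfl
  · show f t + g t = _
    rw [ipt_addU, ipt_addU, a5, b5]
    ring

theorem ipt_map (t : ℝ) (c : ℕ) : ∀ P : List ℕ, ipt t (P.map fun x => c * x) = c * ipt t P
  | [] => by simp [ipt]
  | d :: P => by
    simp only [List.map_cons, ipt, ipt_map t c P]
    push_cast
    ring

theorem RU.mulN {x : PV} {f : ℝ → ℝ} (h : RU B x f) (c : ℕ) :
    RU B ⟨Nat.mul c x.p, Nat.mul c x.n, Nat.mul c x.b⟩ fun t => c * f t := by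
  obtain ⟨P, N, a1, a2, a3, a4, a5⟩ := h
  refine ⟨P.map fun x => c * x, N.map fun x => c * x, ?_, ?_, ?_, ?_, fun t => ?_⟩
  · rw [PLK.od_map, a1]
    rfl
  · rw [PLK.od_map, a2]
    rfl
  · intro d hd
    obtain ⟨e, he, rfl⟩ := List.mem_map.1 hd
    exact Nat.mul_le_mul_left c (a3 e he)
  · intro d hd
    obtain ⟨e, he, rfl⟩ := List.mem_map.1 hd
    exact Nat.mul_le_mul_left c (a4 e he)
  · show c * f t = _
    rw [ipt_map, ipt_map, a5]
    ring

theorem RU.swap {x : PV} {f : ℝ → ℝ} (h : RU B x f) : RU B ⟨x.n, x.p, x.b⟩ fun t => -f t := by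
  obtain ⟨P, N, a1, a2, a3, a4, a5⟩ := h
  refine ⟨N, P, a2, a1, a4, a3, fun t => ?_⟩
  show -f t = _
  rw [a5]
  ring

theorem RU.sm {x : PV} {f : ℝ → ℝ} (h : RU B x f) (c : ℤ) : RU B (x.sm c) fun t => c * f t := by
  cases c with
  | ofNat a =>
    have := h.mulN a
    simpa [PV.sm] using this
  | negSucc a =>
    have := h.swap.mulN (a + 1)
    refine (this.congr (g := fun t => ((Int.negSucc a : ℤ) : ℝ) * f t) fun t => ?_)
    push_cast [Int.negSucc_eq]
    ring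

theorem RU.int (a : ℤ) : RU B (pkZ a) fun _ => (a : ℝ) := by
  cases a with
  | ofNat a => exact ⟨[a], [], by simp [od, pkZ], rfl, by simp [pkZ], by simp, fun t => by simp [ipt]⟩
  | negSucc a => exact ⟨[], [a + 1], rfl, by simp [od, pkZ], by simp, by simp [pkZ], fun t => by
      simp [ipt, Int.negSucc_eq]⟩

/-- multiplication by `1 + t`, `B1 = 1 + B` -/
def m1 (B1 : ℕ) : PV → PV
  | ⟨p, n, b⟩ => ⟨Nat.mul B1 p, Nat.mul B1 n, Nat.mul 2 b⟩

theorem RU.m1 {x : PV} {f : ℝ → ℝ} (h : RU B x f) : RU B (m1 (B + 1) x) fun t => (1 + t) * f t := by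
  obtain ⟨P, N, a1, a2, a3, a4, a5⟩ := h
  obtain ⟨p, n, b⟩ := x
  simp only at a1 a2 a3 a4
  have hb : ∀ Q : List ℕ, (∀ d ∈ Q, d ≤ b) → ∀ d ∈ addU Q (0 :: Q), d ≤ 2 * b := fun Q hQ d hd => by
    have := addU_le (b := b) (c := b) Q (0 :: Q) hQ (fun e he => by
      rcases List.mem_cons.1 he with rfl | he
      · exact Nat.zero_le _
      · exact hQ e he) d hd
    omega
  refine ⟨addU P (0 :: P), addU N (0 :: N), ?_, ?_, hb P a3, hb N a4, fun t => ?_⟩
  · rw [od_addU]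
    simp only [od, NWS.m1, Nat.add_eq, Nat.mul_eq, a1]
    ring
  · rw [od_addU]
    simp only [od, NWS.m1, Nat.add_eq, Nat.mul_eq, a2]
    ring
  · show (1 + t) * f t = _
    rw [ipt_addU, ipt_addU, a5]
    simp only [ipt]
    push_cast
    ring

/-- `(1 + t) ^ k` -/
def pw (B1 k : ℕ) : PV := ⟨Nat.pow B1 k, 0, Nat.pow 2 k⟩

theorem RU.pw : ∀ k : ℕ, RU B (pw (B + 1) k) fun t => (1 + t) ^ k
  | 0 => ⟨[1], [], by simp [od, NWS.pw], rfl, by simp [NWS.pw], by simp, fun t => by simp [ipt]⟩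
  | k + 1 => by
    have h := (RU.pw k).m1
    have e : NWS.m1 (B + 1) (NWS.pw (B + 1) k) = NWS.pw (B + 1) (k + 1) := by
      simp only [NWS.m1, NWS.pw, PV.mk.injEq, Nat.mul_eq, Nat.pow_eq, Nat.mul_zero]
      exact ⟨by ring, trivial, by ring⟩
    rw [e] at h
    exact h.congr fun t => by ring

/-- `y ≤ x` for all digits -/
def dok (B : ℕ) : ℕ → ℕ → ℕ → Bool
  | 0, _, y => Nat.beq y 0
  | n + 1, x, y => Nat.ble (Nat.mod y B) (Nat.mod x B) && dok B n (Nat.div x B) (Nat.div y B)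

theorem ipt_nonneg {t : ℝ} (ht : 0 ≤ t) : ∀ P : List ℕ, 0 ≤ ipt t P
  | [] => le_rfl
  | d :: P => by
    have := ipt_nonneg ht P
    simp only [ipt]
    positivity

theorem ipt_zero {t : ℝ} (hB : 0 < B) : ∀ P : List ℕ, od B P = 0 → ipt t P = 0
  | [], _ => rfl
  | d :: P, h => by
    simp only [od, Nat.add_eq, Nat.mul_eq, Nat.add_eq_zero_iff, Nat.mul_eq_zero] at h
    obtain ⟨h1, h2⟩ := h
    have h3 : od B P = 0 := by
      rcases h2 with h2 | h2
      · omega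
      · exact h2
    simp only [ipt, h1, ipt_zero hB P h3]
    simp

theorem od_step {d : ℕ} {P : List ℕ} (h : d < B) : od B (d :: P) % B = d ∧ od B (d :: P) / B = od B P := by
  have hB : 0 < B := by omega
  simp only [od, Nat.add_eq, Nat.mul_eq]
  exact ⟨by rw [Nat.add_mul_mod_self_left, Nat.mod_eq_of_lt h], by
    rw [Nat.add_mul_div_left _ _ hB, Nat.div_eq_of_lt h, Nat.zero_add]⟩

theorem dok_ok (hB : 0 < B) {t : ℝ} (ht : 0 ≤ t) : ∀ (n : ℕ) (P Q : List ℕ), (∀ d ∈ P, d < B) → (∀ d ∈ Q, d < B) →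
    dok B n (od B P) (od B Q) = true → ipt t Q ≤ ipt t P
  | 0, P, Q, _, _, h => by
    have h1 := Nat.eq_of_beq_eq_true h
    rw [ipt_zero hB Q h1]
    exact ipt_nonneg ht P
  | n + 1, P, [], _, _, _ => ipt_nonneg ht P
  | n + 1, [], q :: Q, _, hQ, h => by
    simp only [dok, Bool.and_eq_true, Nat.ble_eq] at h
    obtain ⟨h1, h2⟩ := h
    obtain ⟨k1, k2⟩ := od_step (B := B) (d := q) (P := Q) (hQ q (by simp))
    change od B (q :: Q) % B ≤ od B [] % B at h1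
    change dok B n (od B [] / B) (od B (q :: Q) / B) = true at h2
    have e : od B [] = 0 := rfl
    rw [k1, e, Nat.zero_mod] at h1
    rw [k2, e, Nat.zero_div] at h2
    have ih := dok_ok hB ht n [] Q (by simp) (fun d hd => hQ d (by simp [hd])) (by rw [e]; exact h2)
    have hq : q = 0 := by omega
    simp only [ipt, hq] at ih ⊢
    have := mul_le_mul_of_nonneg_left ih ht
    simpa using this
  | n + 1, p :: P, q :: Q, hP, hQ, h => by
    simp only [dok, Bool.and_eq_true, Nat.ble_eq] at h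
    obtain ⟨h1, h2⟩ := h
    obtain ⟨k1, k2⟩ := od_step (B := B) (d := q) (P := Q) (hQ q (by simp))
    obtain ⟨l1, l2⟩ := od_step (B := B) (d := p) (P := P) (hP p (by simp))
    change od B (q :: Q) % B ≤ od B (p :: P) % B at h1
    change dok B n (od B (p :: P) / B) (od B (q :: Q) / B) = true at h2
    rw [k1, l1] at h1
    rw [k2, l2] at h2
    have ih := dok_ok hB ht n P Q (fun d hd => hP d (by simp [hd])) (fun d hd => hQ d (by simp [hd])) h2
    have h3 : (q : ℝ) ≤ p := by exact_mod_cast h1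
    have := mul_le_mul_of_nonneg_left ih ht
    simp only [ipt]
    linarith

/-- all coefficients are nonnegative -/
def nnU (B n : ℕ) : PV → Bool
  | ⟨x, y, b⟩ => Nat.ble (Nat.succ b) B && dok B n x y

theorem RU.nn {x : PV} {f : ℝ → ℝ} (h : RU B x f) {n : ℕ} (hn : nnU B n x = true) {t : ℝ} (ht : 0 ≤ t) : 0 ≤ f t := by
  obtain ⟨P, N, a1, a2, a3, a4, a5⟩ := h
  obtain ⟨p, m, b⟩ := x
  simp only at a1 a2 a3 a4
  simp only [nnU, Bool.and_eq_true, Nat.ble_eq] at hn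
  have hb : b < B := hn.1
  have := dok_ok (by omega) ht n P N (fun d hd => (a3 d hd).trans_lt hb) (fun d hd => (a4 d hd).trans_lt hb)
    (by rw [a1, a2]; exact hn.2)
  rw [a5]
  linarith

end RU

/-! ### the polynomials of a cell -/

/-- `∑ a_k (1 + t) ^ (n - 1 - k)` -/
def horU (B1 : ℕ) : List ℤ → PV → PV
  | a :: l, x => horU B1 l (PV.add (m1 B1 x) (pkZ a))
  | [], x => x

/-- the same, real numbers -/
def horR (u : ℝ) : List ℤ → ℝ → ℝ
  | a :: l, x => horR u l (u * x + a)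
  | [], x => x

theorem horU_ok {B : ℕ} : ∀ (l : List ℤ) (x : PV) (f : ℝ → ℝ), RU B x f →
    RU B (horU (B + 1) l x) fun t => horR (1 + t) l (f t)
  | [], _, _, h => h
  | a :: l, _, _, h => horU_ok l _ _ (RU.add h.m1 (RU.int a))

theorem horR_ev {x u : ℝ} (h : x * u = 1) : ∀ (l : List ℤ) (y : ℝ), horR u l y * x ^ l.length = y + x * ev x l
  | [], y => by simp [horR, ev]
  | a :: l, y => by
    simp only [horR, List.length_cons, pow_succ, ← mul_assoc, horR_ev h l, ev]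
    linear_combination y * h

/-- alternating signs -/
def alt : List ℤ → List ℤ
  | a :: b :: l => a :: Int.neg b :: alt l
  | l => l

theorem ev_alt (x : ℝ) : ∀ l : List ℤ, ev x (alt l) = ev (-x) l
  | [] => rfl
  | [a] => by simp [alt, ev]
  | a :: b :: l => by
    simp only [alt, ev, ev_alt x l]
    have : ((Int.neg b : ℤ) : ℝ) = -(b : ℝ) := by
      change ((-b : ℤ) : ℝ) = _
      push_cast
      ring
    rw [this]
    ring

theorem alt_length : ∀ l : List ℤ, (alt l).length = l.length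
  | [] => rfl
  | [_] => rfl
  | a :: b :: l => by simp [alt, alt_length l]

/-- the packed polynomial `(h + h1 x) (ke + s' a(x)) + m` of a cell, `U` packs `a` -/
def RR (B1 : ℕ) (ke s' m h h1 : ℤ) (U : PV) : PV :=
  (fun V => PV.add (PV.add (m1 B1 (PV.sm h V)) (PV.sm h1 V)) (PV.sm m (pw B1 6)))
    (PV.add (PV.sm ke (pw B1 5)) (PV.sm s' U))

theorem fast_ok {B : ℕ} {ke s' m h h1 : ℤ} {A : List ℤ} (hA : A.length = 6)
    (hn : nnU B 7 (RR (B + 1) ke s' m h h1 (horU (B + 1) A ⟨0, 0, 0⟩)) = true) {x : ℝ} (h0 : 0 ≤ x) (hx : x ≤ 1) :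
    0 ≤ (h + h1 * x) * (ke + s' * ev x A) + m := by
  have hz : RU B (⟨0, 0, 0⟩ : PV) fun _ => (0 : ℝ) := ⟨[], [], rfl, rfl, by simp, by simp, fun t => by simp [ipt]⟩
  have hU := horU_ok A _ _ hz
  have hV := RU.add ((RU.pw (B := B) 5).sm ke) (hU.sm s')
  have hR := RU.add (RU.add ((hV.sm h).m1) (hV.sm h1)) ((RU.pw (B := B) 6).sm m)
  have key : ∀ y : ℝ, 0 < y → y ≤ 1 → 0 ≤ (h + h1 * y) * (ke + s' * ev y A) + m := by
    intro y y0 y1
    have ht : 0 ≤ 1 / y - 1 := by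
      rw [sub_nonneg, one_le_div y0]
      exact y1
    have h2 := hR.nn hn ht
    have hu : y * (1 + (1 / y - 1)) = 1 := by
      field_simp
      ring
    have h3 := horR_ev hu A 0
    rw [hA, zero_add] at h3
    have e5 : (1 + (1 / y - 1)) ^ 5 * y ^ 6 = y := by
      have : (1 + (1 / y - 1)) = 1 / y := by ring
      rw [this]
      field_simp
    have e6 : (1 + (1 / y - 1)) ^ 6 * y ^ 6 = 1 := by
      rw [← mul_pow, mul_comm, hu, one_pow]
    have e1 : y ^ 6 * (1 + (1 / y - 1)) = y ^ 5 := by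
      have : (1 + (1 / y - 1)) = 1 / y := by ring
      rw [this]
      field_simp
    have e7 : (h + h1 * y) * (ke + s' * ev y A) + m = ((1 + (1 / y - 1)) * (h * (ke * (1 + (1 / y - 1)) ^ 5
        + s' * horR (1 + (1 / y - 1)) A 0)) + h1 * (ke * (1 + (1 / y - 1)) ^ 5 + s' * horR (1 + (1 / y - 1)) A 0)
        + m * (1 + (1 / y - 1)) ^ 6) * y ^ 6 := by
      obtain ⟨u, hu'⟩ : ∃ u : ℝ, u = 1 + (1 / y - 1) := ⟨_, rfl⟩
      obtain ⟨W, hW⟩ : ∃ W : ℝ, W = horR (1 + (1 / y - 1)) A 0 := ⟨_, rfl⟩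
      rw [← hW] at h3 ⊢
      rw [← hu'] at hu e5 e6 ⊢
      have h4 : W * y ^ 5 = ev y A := by
        have : y * (W * y ^ 5) = y * ev y A := by
          rw [← h3]
          ring
        exact mul_left_cancel₀ y0.ne' this
      rw [← h4]
      linear_combination (-(h : ℝ) * ke) * e6 - h1 * ke * e5 - (m : ℝ) * e6 - (h : ℝ) * s' * W * y ^ 5 * hu
    rw [e7]
    positivity
  rcases eq_or_lt_of_le h0 with e | e
  · subst e
    have hc : Continuous fun y : ℝ => (h + h1 * y) * (ke + s' * ev y A) + m := by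
      have : ∀ l : List ℤ, Continuous fun y : ℝ => ev y l := by
        intro l
        induction l with
        | nil => exact continuous_const
        | cons a l ih => exact continuous_const.add (continuous_id.mul ih)
      have := this A
      fun_prop
    have hcl : IsClosed {y : ℝ | 0 ≤ (h + h1 * y) * (ke + s' * ev y A) + m} :=
      isClosed_le continuous_const hc
    have hsub : Set.Ioc (0 : ℝ) 1 ⊆ {y : ℝ | 0 ≤ (h + h1 * y) * (ke + s' * ev y A) + m} := fun y hy =>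
      key y hy.1 hy.2
    have := (hcl.closure_subset_iff.2 hsub) (show (0 : ℝ) ∈ closure (Set.Ioc (0 : ℝ) 1) by
      rw [closure_Ioc (by norm_num : (0 : ℝ) ≠ 1)]
      exact ⟨le_refl _, by norm_num⟩)
    exact this
  · exact key x e hx

/-- `ke + s' a` -/
def vL (ke s' : ℤ) : List ℤ → List ℤ
  | a :: l => Int.add ke (Int.mul s' a) :: l.map fun x => s' * x
  | [] => [ke]

theorem ev_map (x : ℝ) (c : ℤ) : ∀ l : List ℤ, ev x (l.map fun y => c * y) = c * ev x l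
  | [] => by simp [ev]
  | a :: l => by
    simp only [List.map_cons, ev, ev_map x c l]
    push_cast
    ring

theorem ev_vL (x : ℝ) (ke s' : ℤ) (l : List ℤ) : ev x (vL ke s' l) = ke + s' * ev x l := by
  cases l with
  | nil => simp [vL, ev]
  | cons a l =>
    simp only [vL, ev, ev_map]
    change (((ke + s' * a : ℤ) : ℝ)) + _ = _
    push_cast
    ring

/-- `p + (h + h1 x) b` -/
def slF (h h1 : ℤ) : ℤ → List ℤ → List ℤ
  | p, b :: l => Int.add (Int.mul h b) p :: slF h h1 (Int.mul h1 b) l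
  | p, [] => [p]

theorem ev_slF (x : ℝ) (h h1 : ℤ) : ∀ (l : List ℤ) (p : ℤ), ev x (slF h h1 p l) = p + (h + h1 * x) * ev x l
  | [], p => by simp [slF, ev]
  | b :: l, p => by
    simp only [slF, ev, ev_slF x h h1 l]
    change (((h * b + p : ℤ) : ℝ)) + x * (((h1 * b : ℤ) : ℝ) + _) = _
    push_cast
    ring

/-- the test of one polynomial -/
def one (B B1 : ℕ) (ke s' m h h1 : ℤ) (U : PV) (A : List ℤ) : Bool :=
  nnU B 7 (RR B1 ke s' m h h1 U) || pos 8 (slF h h1 m (vL ke s' A))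

theorem one_ok {B : ℕ} {ke s' m h h1 : ℤ} {A : List ℤ} (hA : A.length = 6)
    (ho : one B (B + 1) ke s' m h h1 (horU (B + 1) A ⟨0, 0, 0⟩) A = true) {x : ℝ} (h0 : 0 ≤ x) (hx : x ≤ 1) :
    0 ≤ (h + h1 * x) * (ke + s' * ev x A) + m := by
  unfold one at ho
  rw [Bool.or_eq_true] at ho
  rcases ho with ho | ho
  · exact fast_ok hA ho h0 hx
  · have := pos_sound 8 _ ho x h0 hx
    rw [ev_slF, ev_vL] at this
    linarith

/-- the test of one majorant: `h, h1` over `M`, `ke = sd KE`, `s' = ∓ sn`, `m = -2 M sn KC` -/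
def sdT (B B1 : ℕ) (ke m s' : ℤ) (U U' : PV) (A A' : List ℤ) : ℤ → ℤ → Bool
  | .ofNat h, h1 => Nat.ble (Int.natAbs h1) (Nat.mul 2 h) &&
      (one B B1 ke s' m (.ofNat (Nat.mul 2 h)) h1 U A && one B B1 ke s' m (.ofNat (Nat.mul 2 h)) (Int.neg h1) U' A')
  | .negSucc _, _ => false

/-- the test of a cell -/
def cellT (B B1 : ℕ) (ke m sn sn' : ℤ) (c : IC) (U U' : PV) (A A' : List ℤ) : Bool :=
  match c.k with
  | 0 => sdT B B1 ke m sn' U U' A A' c.H c.H1 && sdT B B1 ke m sn U U' A A' c.L c.L1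
  | 1 => sdT B B1 ke m sn' U U' A A' c.H c.H1
  | _ => sdT B B1 ke m sn U U' A A' c.L c.L1

/-- all cells -/
def all2 (B B1 : ℕ) (ke m sn sn' : ℤ) : List IC → List (List ℤ) → Bool
  | c :: l, A :: T => cellT B B1 ke m sn sn' c (horU B1 A ⟨0, 0, 0⟩) (horU B1 (alt A) ⟨0, 0, 0⟩) A (alt A) &&
      all2 B B1 ke m sn sn' l T
  | [], _ => true
  | _ :: _, [] => false

/-- twice the test -/
theorem sdT_ok {B : ℕ} {ke m s' : ℤ} {A : List ℤ} (hA : A.length = 6) {h h1 : ℤ}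
    (ht : sdT B (B + 1) ke m s' (horU (B + 1) A ⟨0, 0, 0⟩) (horU (B + 1) (alt A) ⟨0, 0, 0⟩) A (alt A) h h1 = true) :
    |(h1 : ℝ)| ≤ 2 * h ∧ ∀ x : ℝ, 0 ≤ x → x ≤ 1 → 0 ≤ (2 * h + h1 * x) * (ke + s' * ev x A) + m ∧
      0 ≤ (2 * h - h1 * x) * (ke + s' * ev (-x) A) + m := by
  cases h with
  | negSucc h => exact absurd ht (by simp [sdT])
  | ofNat h =>
    simp only [sdT, Bool.and_eq_true] at ht
    obtain ⟨t1, t2, t3⟩ := ht
    have t1' := Nat.le_of_ble_eq_true t1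
    refine ⟨?_, fun x h0 hx => ⟨?_, ?_⟩⟩
    · have : ((h1.natAbs : ℕ) : ℝ) ≤ ((2 * h : ℕ) : ℝ) := by exact_mod_cast t1'
      rw [Nat.cast_natAbs] at this
      push_cast at this
      simpa using this
    · have := one_ok hA t2 h0 hx
      have e : ((Int.ofNat (Nat.mul 2 h) : ℤ) : ℝ) = 2 * ((Int.ofNat h : ℤ) : ℝ) := by
        simp
      rw [e] at this
      exact this
    · have := one_ok (A := alt A) (by rw [alt_length, hA]) t3 h0 hx
      have e : ((Int.ofNat (Nat.mul 2 h) : ℤ) : ℝ) = 2 * ((Int.ofNat h : ℤ) : ℝ) := by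
        simp
      have e' : ((Int.neg h1 : ℤ) : ℝ) = -(h1 : ℝ) := by
        change ((-h1 : ℤ) : ℝ) = _
        push_cast
        ring
      rw [e, e', ev_alt] at this
      refine this.trans_eq ?_
      ring

/-! ### the table -/

/-- the table for one number of cells: `KE = K1 (1 - E)`, `KC = K1 C`, rows `K1` times the coefficients -/
structure SLT where
  K1 : ℕ
  KE : ℤ
  KC : ℤ
  A : List (List ℤ)

/-- the midpoint -/
def rh (N i : ℕ) : ℚ := (2 * i + 1 - N) / (2 * N)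

/-- the width -/
def hw (N : ℕ) : ℚ := p0 / N

/-- one row -/
def rowOk (K : ℚ) (h : ℚ) (s c : ℚ) : List ℤ → Bool
  | [a0, a1, a2, a3, a4, a5] => decide ((a0 : ℚ) = K * s) && (decide ((a1 : ℚ) = K * (c * h / 2)) &&
      (decide ((a2 : ℚ) = -(K * (s * h ^ 2 / 8))) && (decide ((a3 : ℚ) = -(K * (c * h ^ 3 / 48))) &&
      (decide ((a4 : ℚ) = K * (s * h ^ 4 / 384)) && decide ((a5 : ℚ) = K * (c * h ^ 5 / 3840))))))
  | _ => false

/-- the table is correct -/
def tabOk (N : ℕ) (T : SLT) : Bool :=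
  Nat.ble 4 N && (Nat.ble 1 T.K1 && (decide ((T.KE : ℚ) = T.K1 * (1 - ((hw N / 2) ^ 6 / 360 + 1 / 10 ^ 18))) &&
    (decide ((T.KC : ℚ) = T.K1 * ((p0 + 1 / 10 ^ 20) / N)) && (List.range N).all fun i =>
      rowOk T.K1 (hw N) (s0 (rh N i)) (c0 (rh N i)) (T.A.getD i []))))

theorem rowOk_ok {K h s c : ℚ} {A : List ℤ} (hr : rowOk K h s c A = true) : A.length = 6 ∧ ∀ x : ℝ,
    ev x A = K * (s * (1 - (h * x / 2) ^ 2 / 2 + (h * x / 2) ^ 4 / 24)
      + c * (h * x / 2 - (h * x / 2) ^ 3 / 6 + (h * x / 2) ^ 5 / 120)) := by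
  match A, hr with
  | [a0, a1, a2, a3, a4, a5], hr =>
    simp only [rowOk, Bool.and_eq_true, decide_eq_true_eq] at hr
    obtain ⟨h0, h1, h2, h3, h4, h5⟩ := hr
    refine ⟨rfl, fun x => ?_⟩
    have k0 : (a0 : ℝ) = K * s := by exact_mod_cast h0
    have k1 : (a1 : ℝ) = K * (c * h / 2) := by exact_mod_cast h1
    have k2 : (a2 : ℝ) = -(K * (s * h ^ 2 / 8)) := by exact_mod_cast h2
    have k3 : (a3 : ℝ) = -(K * (c * h ^ 3 / 48)) := by exact_mod_cast h3
    have k4 : (a4 : ℝ) = K * (s * h ^ 4 / 384) := by exact_mod_cast h4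
    have k5 : (a5 : ℝ) = K * (c * h ^ 5 / 3840) := by exact_mod_cast h5
    simp only [ev, k0, k1, k2, k3, k4, k5]
    ring

/-- the inequality of a majorant from that of the Taylor polynomial (as in `NOS.chkM_sound`) -/
theorem maj_core {t s r r' H H' ρ hh : ℚ} (a1 : r ≤ r') (a2 : r' - r ≤ 1 / 4) (a3 : -(1 / 2) ≤ r) (a4 : r' ≤ 1 / 2)
    (a5 : |t| ≤ 1) (a6 : 0 ≤ s) (b7 : (0 : ℝ) ≤ (H : ℝ) - H' / 2) (b8 : (0 : ℝ) ≤ (H : ℝ) + H' / 2)
    (hρd : ρ = (r + r') / 2) (hhd : hh = p0 * (r' - r))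
    (hfin : ∀ w : ℝ, |w| ≤ 1 / 2 → ((p0 : ℝ) + 1 / 10 ^ 20) * ((r' : ℝ) - r) * s ≤
      ((H : ℝ) + H' * w) * (1 - (((hh : ℝ) / 2) ^ 6 / 360 + 1 / 10 ^ 18) - t * ((s0 ρ : ℝ) * (1 - (hh * w) ^ 2 / 2 +
        (hh * w) ^ 4 / 24) + (c0 ρ : ℝ) * (hh * w - (hh * w) ^ 3 / 6 + (hh * w) ^ 5 / 120))))
    {v : ℝ} (h0 : 0 ≤ v) (h1 : v ≤ 1) : 0 ≤ (H : ℝ) + H' * (v - 1 / 2) ∧
      Real.pi * ((r' : ℝ) - r) * s ≤ ((H : ℝ) + H' * (v - 1 / 2)) *
        (1 - t * Real.sin (Real.pi * r + Real.pi * ((r' : ℝ) - r) * v)) := by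
  have b1 : (r : ℝ) ≤ r' := by exact_mod_cast a1
  have b2 : (r' : ℝ) - r ≤ 1 / 4 := by
    have : ((r' - r : ℚ) : ℝ) ≤ ((1 / 4 : ℚ) : ℝ) := by exact_mod_cast a2
    push_cast at this
    exact this
  have b5 : |(t : ℝ)| ≤ 1 := by
    have : ((|t| : ℚ) : ℝ) ≤ ((1 : ℚ) : ℝ) := by exact_mod_cast a5
    push_cast at this
    exact this
  have b6 : (0 : ℝ) ≤ s := by exact_mod_cast a6
  have hρ : |ρ| ≤ 1 / 2 := by
    rw [hρd, abs_le]
    constructor <;> linarith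
  obtain ⟨d1, d2⟩ := sc_bound hρ
  have ρc : (ρ : ℝ) = ((r : ℝ) + r') / 2 := by
    rw [hρd]
    push_cast
    ring
  have hmaj : 0 ≤ (H : ℝ) + H' * (v - 1 / 2) := by
    have e : (H : ℝ) + H' * (v - 1 / 2) = (1 - v) * (H - H' / 2) + v * (H + H' / 2) := by ring
    rw [e]
    have := mul_nonneg (sub_nonneg.2 h1) b7
    have := mul_nonneg h0 b8
    linarith
  refine ⟨hmaj, ?_⟩
  set w : ℝ := v - 1 / 2 with hw
  have hw1 : |w| ≤ 1 / 2 := by
    rw [hw, abs_le]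
    constructor <;> linarith
  have hD0 : 0 ≤ (r' : ℝ) - r := sub_nonneg.2 b1
  have hc : (hh : ℝ) = (p0 : ℝ) * ((r' : ℝ) - r) := by
    rw [hhd]
    push_cast
    ring
  have hp3 : (p0 : ℝ) ≤ 32 / 10 ∧ 0 ≤ (p0 : ℝ) := by
    unfold p0
    constructor <;> norm_num
  have hh0 : 0 ≤ (hh : ℝ) := by
    rw [hc]
    exact mul_nonneg hp3.2 hD0
  have hh1 : (hh : ℝ) ≤ 1 := by
    rw [hc]
    nlinarith [hp3.1, hp3.2]
  have hy1 : |(hh : ℝ) * w| ≤ 1 := by
    rw [abs_mul, abs_of_nonneg hh0]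
    nlinarith [abs_nonneg w]
  have hxy : |Real.pi * ((r' : ℝ) - r) * w - hh * w| ≤ 1 / 10 ^ 20 := by
    rw [hc, ← sub_mul, ← sub_mul, abs_mul, abs_mul, abs_of_nonneg hD0]
    have e1 := pi_p0
    have e2 : |Real.pi - (p0 : ℝ)| * ((r' : ℝ) - r) ≤ 1 / 10 ^ 20 * 1 :=
      mul_le_mul e1 (by linarith) hD0 (by positivity)
    calc |Real.pi - (p0 : ℝ)| * ((r' : ℝ) - r) * |w| ≤ 1 / 10 ^ 20 * 1 * 1 :=
          mul_le_mul e2 (by linarith) (abs_nonneg _) (by positivity)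
      _ = 1 / 10 ^ 20 := by ring
  have key := sin_cell d1 d2 hy1 hxy
  have hang : Real.pi * r + Real.pi * ((r' : ℝ) - r) * v
      = Real.pi * ρ + Real.pi * ((r' : ℝ) - r) * w := by
    rw [ρc, hw]
    ring
  rw [← hang] at key
  have hy6 : ((hh : ℝ) * w) ^ 6 ≤ ((hh : ℝ) / 2) ^ 6 := by
    have e1 : ((hh : ℝ) * w) ^ 2 ≤ ((hh : ℝ) / 2) ^ 2 := by
      rw [sq_le_sq, abs_mul, abs_of_nonneg hh0, abs_of_nonneg (by positivity : (0 : ℝ) ≤ hh / 2)]
      nlinarith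
    calc ((hh : ℝ) * w) ^ 6 = (((hh : ℝ) * w) ^ 2) ^ 3 := by ring
      _ ≤ (((hh : ℝ) / 2) ^ 2) ^ 3 := pow_le_pow_left₀ (sq_nonneg _) e1 3
      _ = ((hh : ℝ) / 2) ^ 6 := by ring
  have hfw := hfin w hw1
  set y : ℝ := (hh : ℝ) * w with hyd
  set P : ℝ := (s0 ρ : ℝ) * (1 - y ^ 2 / 2 + y ^ 4 / 24) + (c0 ρ : ℝ) * (y - y ^ 3 / 6 + y ^ 5 / 120) with hP
  set sn : ℝ := Real.sin (Real.pi * r + Real.pi * ((r' : ℝ) - r) * v) with hsn
  have hE : |sn - P| ≤ ((hh : ℝ) / 2) ^ 6 / 360 + 1 / 10 ^ 18 := by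
    refine key.trans ?_
    norm_num at hy6 ⊢
    linarith
  have hE2 : 1 - (((hh : ℝ) / 2) ^ 6 / 360 + 1 / 10 ^ 18) - t * P ≤ 1 - t * sn := by
    have e1 : |(t : ℝ) * (sn - P)| ≤ ((hh : ℝ) / 2) ^ 6 / 360 + 1 / 10 ^ 18 := by
      rw [abs_mul]
      calc |(t : ℝ)| * |sn - P| ≤ 1 * (((hh : ℝ) / 2) ^ 6 / 360 + 1 / 10 ^ 18) :=
            mul_le_mul b5 hE (abs_nonneg _) zero_le_one
        _ = _ := one_mul _
    have e2 := (abs_le.1 e1).2
    nlinarith
  have hC : Real.pi * ((r' : ℝ) - r) * s ≤ ((p0 : ℝ) + 1 / 10 ^ 20) * ((r' : ℝ) - r) * s := by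
    have e1 : Real.pi ≤ (p0 : ℝ) + 1 / 10 ^ 20 := by
      have := (abs_le.1 pi_p0).2
      linarith
    exact mul_le_mul_of_nonneg_right (mul_le_mul_of_nonneg_right e1 hD0) b6
  calc Real.pi * ((r' : ℝ) - r) * s ≤ _ := hC
    _ ≤ _ := hfw
    _ ≤ _ := mul_le_mul_of_nonneg_left hE2 hmaj

/-- the table gives the inequality of the Taylor polynomial -/
theorem poly_ok {K1 M sd sn KE KC E C S0 C0 hh e h h1 y a : ℝ} (K0 : 0 < K1) (M0 : 0 < M) (sd0 : 0 < sd)
    (hKE : KE = K1 * (1 - E)) (hKC : KC = K1 * C)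
    (ha : a = K1 * (S0 * (1 - (hh * y / 2) ^ 2 / 2 + (hh * y / 2) ^ 4 / 24)
      + C0 * (hh * y / 2 - (hh * y / 2) ^ 3 / 6 + (hh * y / 2) ^ 5 / 120)))
    (hp : 0 ≤ (2 * h + h1 * y) * (sd * KE + -(e * sn) * a) + -(2 * M * sn * KC)) :
    C * (sn / sd) ≤ (h / M + h1 / M * (y / 2)) * (1 - E - e * (sn / sd) *
      (S0 * (1 - (hh * (y / 2)) ^ 2 / 2 + (hh * (y / 2)) ^ 4 / 24)
      + C0 * (hh * (y / 2) - (hh * (y / 2)) ^ 3 / 6 + (hh * (y / 2)) ^ 5 / 120))) := by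
  have e1 : hh * (y / 2) = hh * y / 2 := by ring
  rw [e1]
  obtain ⟨P, hP⟩ : ∃ P : ℝ, P = S0 * (1 - (hh * y / 2) ^ 2 / 2 + (hh * y / 2) ^ 4 / 24)
      + C0 * (hh * y / 2 - (hh * y / 2) ^ 3 / 6 + (hh * y / 2) ^ 5 / 120) := ⟨_, rfl⟩
  rw [← hP] at ha ⊢
  subst hKE hKC ha
  rw [← sub_nonneg]
  have e2 : (h / M + h1 / M * (y / 2)) * (1 - E - e * (sn / sd) * P) - C * (sn / sd)
      = ((2 * h + h1 * y) * (sd * (K1 * (1 - E)) + -(e * sn) * (K1 * P)) + -(2 * M * sn * (K1 * C)))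
        / (2 * M * sd * K1) := by
    field_simp
    ring
  rw [e2]
  positivity

open Pool.Agent.FPX.NOD (Maj Mnj pt)
open Pool.Agent.FPX.CAV (ru)

section cell

variable {N : ℕ} {T : SLT}

/-- what the table gives at a cell -/
theorem tabOk_ok (hT : tabOk N T = true) : 4 ≤ N ∧ 0 < T.K1 ∧
    ((T.KE : ℚ) = T.K1 * (1 - ((hw N / 2) ^ 6 / 360 + 1 / 10 ^ 18))) ∧ ((T.KC : ℚ) = T.K1 * ((p0 + 1 / 10 ^ 20) / N)) ∧
    ∀ i < N, rowOk T.K1 (hw N) (s0 (rh N i)) (c0 (rh N i)) (T.A.getD i []) = true := by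
  simp only [tabOk, Bool.and_eq_true, decide_eq_true_eq, Nat.ble_eq, List.all_eq_true, List.mem_range] at hT
  exact ⟨hT.1, hT.2.1, hT.2.2.1, hT.2.2.2.1, hT.2.2.2.2⟩

theorem side {B : ℕ} (hT : tabOk N T = true) {i : ℕ} (hi : i < N) {M sd sn : ℕ} (M0 : 0 < M) (sd0 : 0 < sd)
    (hs : sn ≤ sd) {e : ℤ} (he : |(e : ℚ)| = 1) {ke m s' h h1 : ℤ} (hke : ke = sd * T.KE) (hm : m = -(2 * M * sn * T.KC))
    (hs' : s' = -(e * sn))
    (ht : sdT B (B + 1) ke m s' (horU (B + 1) (T.A.getD i []) ⟨0, 0, 0⟩) (horU (B + 1) (alt (T.A.getD i [])) ⟨0, 0, 0⟩)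
      (T.A.getD i []) (alt (T.A.getD i [])) h h1 = true) {v : ℝ} (h0 : 0 ≤ v) (hv : v ≤ 1) :
    0 ≤ (((h : ℚ) / M : ℚ) : ℝ) + (((h1 : ℚ) / M : ℚ) : ℝ) * (v - 1 / 2) ∧
      Real.pi * (ru N (i + 1) - ru N i) * (((sn : ℚ) / sd : ℚ) : ℝ) ≤
        ((((h : ℚ) / M : ℚ) : ℝ) + (((h1 : ℚ) / M : ℚ) : ℝ) * (v - 1 / 2)) *
          (1 - (((e : ℚ) * ((sn : ℚ) / sd) : ℚ) : ℝ) * Real.sin (pt (ru N) i v)) := by
  obtain ⟨N4, K0, hKE, hKC, hrow⟩ := tabOk_ok hT
  obtain ⟨hA, hev⟩ := rowOk_ok (hrow i hi)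
  obtain ⟨hh1, hpoly⟩ := sdT_ok hA ht
  have M0' : (0 : ℝ) < M := by exact_mod_cast M0
  have sd0' : (0 : ℝ) < sd := by exact_mod_cast sd0
  have K0' : (0 : ℝ) < T.K1 := by exact_mod_cast K0
  have N4' : (4 : ℚ) ≤ N := by exact_mod_cast N4
  have N0' : (0 : ℚ) < N := by linarith
  have Nr : (0 : ℝ) < N := by exact_mod_cast N0'
  have sd0q : (0 : ℚ) < sd := by exact_mod_cast sd0
  have M0q : (0 : ℚ) < M := by exact_mod_cast M0
  have hi' : (i : ℚ) + 1 ≤ N := by exact_mod_cast hi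
  have hi0 : (0 : ℚ) ≤ i := Nat.cast_nonneg i
  have hsq : (sn : ℚ) / sd ≤ 1 := by
    rw [div_le_one sd0q]
    exact_mod_cast hs
  have hsq0 : (0 : ℚ) ≤ (sn : ℚ) / sd := by positivity
  have e0 : ru N i = ((-(1 / 2) + (i : ℚ) / N : ℚ) : ℝ) := by
    unfold ru
    push_cast
    ring
  have e1 : ru N (i + 1) = ((-(1 / 2) + ((i : ℚ) + 1) / N : ℚ) : ℝ) := by
    unfold ru
    push_cast
    ring
  have hKE' : (T.KE : ℝ) = T.K1 * (1 - (((hw N : ℝ) / 2) ^ 6 / 360 + 1 / 10 ^ 18)) := by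
    have := congrArg (fun q : ℚ => (q : ℝ)) hKE
    push_cast at this
    exact this
  have hKC' : (T.KC : ℝ) = T.K1 * (((p0 : ℝ) + 1 / 10 ^ 20) / N) := by
    have := congrArg (fun q : ℚ => (q : ℝ)) hKC
    push_cast at this
    exact this
  have hd : -(1 / 2) + ((i : ℚ) + 1) / N - (-(1 / 2) + (i : ℚ) / N) = 1 / N := by
    field_simp
    ring
  have key := maj_core (t := (e : ℚ) * ((sn : ℚ) / sd)) (s := (sn : ℚ) / sd) (r := -(1 / 2) + (i : ℚ) / N)
    (r' := -(1 / 2) + ((i : ℚ) + 1) / N) (H := (h : ℚ) / M) (H' := (h1 : ℚ) / M) (ρ := rh N i) (hh := hw N)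
    (by
      rw [← sub_nonneg, hd]
      positivity)
    (by
      rw [hd]
      exact one_div_le_one_div_of_le (by norm_num) N4')
    (by
      have : (0 : ℚ) ≤ (i : ℚ) / N := by positivity
      linarith)
    (by
      have : ((i : ℚ) + 1) / N ≤ 1 := by
        rw [div_le_one N0']
        exact hi'
      linarith)
    (by
      rw [abs_mul, he, one_mul, abs_of_nonneg hsq0]
      exact hsq)
    hsq0
    (by
      have := (abs_le.1 hh1).2
      push_cast
      have e : (h : ℝ) / M - (h1 : ℝ) / M / 2 = (2 * h - h1) / (2 * M) := by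
        field_simp
      rw [e]
      apply div_nonneg _ (by positivity)
      linarith)
    (by
      have := (abs_le.1 hh1).1
      push_cast
      have e : (h : ℝ) / M + (h1 : ℝ) / M / 2 = (2 * h + h1) / (2 * M) := by
        field_simp
      rw [e]
      apply div_nonneg _ (by positivity)
      linarith)
    (by
      unfold rh
      field_simp
      ring)
    (by
      rw [hd]
      unfold hw
      ring)
    (fun w hw1 => by
      have hww := abs_le.1 hw1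
      have hcast : ((-(1 / 2) + ((i : ℚ) + 1) / N : ℚ) : ℝ) - ((-(1 / 2) + (i : ℚ) / N : ℚ) : ℝ) = 1 / N := by
        have := congrArg (fun q : ℚ => (q : ℝ)) hd
        push_cast at this ⊢
        exact this
      rw [hcast]
      have main : ∀ y : ℝ, y = 2 * w → 0 ≤ (2 * (h : ℝ) + h1 * y) * (ke + s' * ev y (T.A.getD i [])) + m →
          ((p0 : ℝ) + 1 / 10 ^ 20) * (1 / N) * (((sn : ℚ) / sd : ℚ) : ℝ) ≤ ((((h : ℚ) / M : ℚ) : ℝ)
          + (((h1 : ℚ) / M : ℚ) : ℝ) * w) * (1 - (((hw N : ℝ) / 2) ^ 6 / 360 + 1 / 10 ^ 18)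
          - (((e : ℚ) * ((sn : ℚ) / sd) : ℚ) : ℝ) * ((s0 (rh N i) : ℝ) * (1 - (hw N * w) ^ 2 / 2 +
        (hw N * w) ^ 4 / 24) + (c0 (rh N i) : ℝ) * (hw N * w - (hw N * w) ^ 3 / 6 + (hw N * w) ^ 5 / 120))) := by
        intro y hy hpp
        rw [hke, hm, hs'] at hpp
        push_cast at hpp
        have := poly_ok (e := (e : ℝ)) K0' M0' sd0' hKE' hKC' (hev y) hpp
        have hy2 : y / 2 = w := by
          rw [hy]
          ring
        rw [hy2] at this
        push_cast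
        refine le_trans (le_of_eq ?_) this
        ring
      rcases le_total 0 w with w0 | w0
      · exact main (2 * w) rfl (hpoly (2 * w) (by linarith) (by linarith)).1
      · have := (hpoly (-(2 * w)) (by linarith) (by linarith)).2
        rw [neg_neg] at this
        refine main (2 * w) rfl (this.trans_eq ?_)
        ring) h0 hv
  unfold pt
  rw [e0, e1]
  exact key

end cell

/-! ### the record -/

open Pool.Agent.FPX.NOX (getD_eq)
open Pool.Agent.FPX.CAV (CZ)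
open Pool.Agent.FPX.HAA (GeoH chkHat)

/-- what the test of a cell gives -/
def CellT (B : ℕ) (ke m sn sn' : ℤ) (c : IC) (A : List ℤ) : Prop :=
  cellT B (B + 1) ke m sn sn' c (horU (B + 1) A ⟨0, 0, 0⟩) (horU (B + 1) (alt A) ⟨0, 0, 0⟩) A (alt A) = true

theorem all2_get {B : ℕ} {ke m sn sn' : ℤ} : ∀ (l : List IC) (T : List (List ℤ)),
    all2 B (B + 1) ke m sn sn' l T = true → ∀ (i : ℕ) (hi : i < l.length), CellT B ke m sn sn' l[i] (T.getD i [])
  | [], _, _, i, hi => absurd hi (Nat.not_lt_zero i)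
  | _ :: _, [], h, _, _ => by simp [all2] at h
  | c :: l, A :: T, h, i, hi => by
    simp only [all2, Bool.and_eq_true] at h
    cases i with
    | zero => exact h.1
    | succ i =>
      have := all2_get l T h.2 i (by simpa using hi)
      simpa using this

/-- **the slopes of the uniform grid with `N` cells**, table `T` -/
def chkSlF (N : ℕ) (T : SLT) (G : GD) : Bool :=
  Nat.beq (List.length G.cells) N &&
    all2 (nat_lit 4562440617622195218641171605700291324893228507248559930579192517899275167208677386505912811317371399778642309573594407310688704721375437998252661319722214188251994674360264950082874192246603776) (nat_lit 4562440617622195218641171605700291324893228507248559930579192517899275167208677386505912811317371399778642309573594407310688704721375437998252661319722214188251994674360264950082874192246603777)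
      (Int.mul (.ofNat G.sd) T.KE) (Int.neg (Int.mul (.ofNat (Nat.mul 2 (Nat.mul G.M G.sn))) T.KC)) (.ofNat G.sn)
      (Int.neg (.ofNat G.sn)) G.cells T.A

theorem kd_U {c : IC} (h : CAV.kU c.kd = true) : c.k = 0 ∨ c.k = 1 := by
  unfold IC.kd at h
  rcases hk : c.k with _ | _ | n
  · exact Or.inl rfl
  · exact Or.inr rfl
  · rw [hk] at h
    exact absurd h (by simp [CAV.kU])

theorem kd_W {c : IC} (h : CAV.kW c.kd = true) : c.k ≠ 1 := by
  unfold IC.kd at h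
  intro hk
  rw [hk] at h
  exact absurd h (by simp [CAV.kW])

theorem cellU {B : ℕ} {ke m sn sn' : ℤ} {c : IC} {A : List ℤ} (hc : CellT B ke m sn sn' c A)
    (hu : CAV.kU c.kd = true) : sdT B (B + 1) ke m sn' (horU (B + 1) A ⟨0, 0, 0⟩) (horU (B + 1) (alt A) ⟨0, 0, 0⟩)
      A (alt A) c.H c.H1 = true := by
  unfold CellT cellT at hc
  rcases kd_U hu with hk | hk
  · rw [hk] at hc
    simp only [Bool.and_eq_true] at hc
    exact hc.1
  · rw [hk] at hc
    exact hc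

theorem cellW {B : ℕ} {ke m sn sn' : ℤ} {c : IC} {A : List ℤ} (hc : CellT B ke m sn sn' c A)
    (hw : CAV.kW c.kd = true) : sdT B (B + 1) ke m sn (horU (B + 1) A ⟨0, 0, 0⟩) (horU (B + 1) (alt A) ⟨0, 0, 0⟩)
      A (alt A) c.L c.L1 = true := by
  unfold CellT cellT at hc
  have hk1 := kd_W hw
  rcases hk : c.k with _ | _ | n
  · rw [hk] at hc
    simp only [Bool.and_eq_true] at hc
    exact hc.2
  · exact absurd hk hk1
  · rw [hk] at hc
    exact hc

theorem majF {N : ℕ} {T : SLT} (hT : tabOk N T = true) {Z : CZ} (hB : Z.G.Bas) (h0 : 0 < Z.G.sd) (h1 : Z.G.sn ≤ Z.G.sd)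
    (hs : chkSlF N T Z.G = true) {i : ℕ} (hi : i < Z.G.N) :
    (CAV.kU (Z.G.k i) = true → Maj Z.G.s (ru Z.G.N) i ((Z.G.C i).H : ℚ) ((Z.G.C i).H' : ℚ)) ∧
    (CAV.kW (Z.G.k i) = true → Mnj Z.G.s (ru Z.G.N) i ((Z.G.C i).L : ℚ) ((Z.G.C i).L' : ℚ)) := by
  simp only [chkSlF, Bool.and_eq_true] at hs
  obtain ⟨hN, hs⟩ := hs
  have hN' : Z.G.N = N := Nat.eq_of_beq_eq_true hN
  have hc := all2_get (B := 4562440617622195218641171605700291324893228507248559930579192517899275167208677386505912811317371399778642309573594407310688704721375437998252661319722214188251994674360264950082874192246603776) _ _ hs i hi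
  have e1 : Z.G.k i = Z.G.cells[i].kd := by rw [GD.k, getD_eq hi]
  have e2 : Z.G.C i = Z.G.cells[i].cq Z.G.M := by rw [GD.C, getD_eq hi]
  rw [hN'] at hi ⊢
  obtain ⟨c, hcc⟩ : ∃ c : IC, c = Z.G.cells[i] := ⟨_, rfl⟩
  rw [← hcc] at hc e1 e2
  rw [e1, e2]
  have hm : Int.neg (Int.mul (.ofNat (Nat.mul 2 (Nat.mul Z.G.M Z.G.sn))) T.KC) = -(2 * Z.G.M * Z.G.sn * T.KC) := by
    change -((((2 * (Z.G.M * Z.G.sn) : ℕ)) : ℤ) * T.KC) = _
    push_cast
    ring
  constructor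
  · intro hu v v0 v1
    have hside := cellU hc hu
    have hs' : Int.neg (.ofNat Z.G.sn) = -((1 : ℤ) * Z.G.sn) := by
      rw [one_mul]
      rfl
    have := side hT hi hB.M0 h0 h1 (e := 1) (by norm_num) rfl hm hs' hside v0 v1
    unfold GD.s IC.cq
    refine ⟨this.1, this.2.trans_eq ?_⟩
    push_cast
    ring
  · intro hw v v0 v1
    have hside := cellW hc hw
    have := side hT hi hB.M0 h0 h1 (e := -1) (by norm_num) rfl hm (by simp) hside v0 v1
    unfold GD.s IC.cq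
    refine ⟨this.1, this.2.trans_eq ?_⟩
    push_cast
    ring

/-- **the geometric checks of an integer record**, fast test of the slopes -/
theorem geoH_ofF {N : ℕ} {T : SLT} (hT : tabOk N T = true) {Z : CZ} (h0 : Z.G.chk0 = true)
    (hs : chkSlF N T Z.G = true) (hC : chkHat Z.cd = true) : GeoH Z.cd := by
  have hB := NOX.GD.bas h0
  have h0' := h0
  simp only [NOX.GD.chk0, Bool.and_eq_true, decide_eq_true_eq] at h0'
  obtain ⟨⟨⟨⟨⟨⟨hd, hS⟩, hM⟩, h1⟩, h2⟩, h3⟩, hg⟩ := h0'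
  have hsd : 0 < Z.G.sd := lt_of_lt_of_le h1 h2
  simp only [chkHat, Bool.and_eq_true, Nat.ble_eq, List.all_eq_true, List.mem_range, Bool.or_eq_true,
    decide_eq_true_eq] at hC
  obtain ⟨hN, hC⟩ := hC
  exact
    { N3 := hN
      s0 := hB.s0
      s1 := hB.s1
      hxm := hB.xm
      maj := fun i hi hu => (majF hT hB hsd h2 hs hi).1 hu
      mnj := fun i hi hw => (majF hT hB hsd h2 hs hi).2 hw
      hup := fun i hi => (hC i hi).1.imp HAA.okH_of id
      hlo := fun i hi => (hC i hi).2.1.imp HAA.okL_of id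
      var := fun i hi => HAA.okVh_of (hC i hi).2.2 }

end Pool.Agent.FPX.NWS

namespace Pool.Agent.FPX.ECT

open Pool.Agent.FPX.BRG
open Pool.Agent.FPX.MCP (NN)

variable {T : Tf} {Q : Qf} {S E Dd Dc w : ℕ} {Ls : List ℕ} {V : List (List ℤ)}

/-- **hats, record `NW`**, fast tests of the cells and of the slopes -/
theorem nn_hatLs {D : NCD.NW} {Nt : ℕ} {Tt : NWS.SLT} (hT : NWS.tabOk Nt Tt = true) (c0 : D.Z.G.chk0 = true)
    (cs : NWS.chkSlF Nt Tt D.Z.G = true) (cH : HAA.chkHat D.Z.cd = true) {R' : ℕ} {η : ℚ}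
    (cT : HAT.TrgH R' D.G.N D.G.a fun _ => η)
    (hR : Nat.ble D.toND.R R' = true) (cE : D.toNH.chkE η = true) (cN : D.toNH.chkN = true) (cL : D.chkL = true)
    (hS : Nat.blt 0 S = true) (hL : NCL.chkN D.toND.R E Dd Dc w Ls V T Q D.C D.Q S = true)
    (cK : D.chkKf = true) (cS : D.toND.chkS (rB D.toND.R) = true)
    (hEng : ∀ z0 z1 z2 : ℂ, D.st.Good (PLK.w3 z0 z1 z2)) : NN (D.Z.cd.s : ℝ) T Q := by
  intro X hX hb z
  have hS' : 0 < S := by
    have := Nat.le_of_ble_eq_true (show Nat.ble (0 + 1) S = true from hS)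
    omega
  obtain ⟨k1, k2⟩ := NCD.chkKg_ok cK
  exact NCD.cert_hatLK (NWS.geoH_ofF hT c0 cs cH) (cT.mono (Nat.le_of_ble_eq_true hR)) cE cN cL (Sc := (S : ℚ))
    (by exact_mod_cast hS') (NCL.near_of_chkN hL) k1 k2 cS hEng hX (fun a => (hb a).trans (le_of_eq (by norm_num))) z

end Pool.Agent.FPX.ECT
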