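import Pool.Agent.FPX.PLU
/-!
PLS (helper1). Certificates with packed rows: record `CY`, theorems `certY2`, `certY3`.
-/
set_option autoImplicit false

noncomputable section

namespace Pool.Agent.FPX.PLK

open List (Forall₂)

/-! ### rounding of the linear coefficients -/

/-- digits with offset -/
def offL (h : ℕ) : List ℕ → List ℕ → List ℕ
  | p :: P, n :: N => Nat.sub (Nat.add p h) n :: offL h P N
  | _, _ => []

/-- test of the digits with offset -/
def offT (S h be : ℕ) : List ℕ → List ℕ → Bool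
  | p :: P, n :: N => Nat.ble n (Nat.add p h) && (Nat.ble (Nat.div (Nat.sub (Nat.add p h) n) S) be && offT S h be P N)
  | _, _ => true

theorem offL_length (h : ℕ) : ∀ {P N : List ℕ} {k : ℕ}, P.length = k → N.length = k → (offL h P N).length = k
  | [], [], k, h1, _ => by simpa [offL] using h1
  | p :: P, n :: N, 0, h1, _ => by simp at h1
  | p :: P, n :: N, k + 1, h1, h2 => by
    simp only [offL, List.length_cons]
    rw [offL_length h (k := k) (by simpa using h1) (by simpa using h2)]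
  | [], _ :: _, k, h1, h2 => by simp at h1; subst h1; simp at h2
  | _ :: _, [], k, h1, h2 => by simp at h2; subst h2; simp at h1

theorem offT_ok {S h be : ℕ} : ∀ (w : List ℝ) (P N : List ℕ) (k : ℕ), P.length = k → N.length = k →
    offT S h be P N = true → ip w (offL h P N) = ip w P - ip w N + ip w (List.replicate k h) ∧
      ∀ d ∈ offL h P N, d / S ≤ be
  | w, [], [], k, h1, _, _ => by
    simp at h1
    subst h1
    simp [offL]
  | w, p :: P, n :: N, 0, h1, _, _ => by simp at h1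
  | w, p :: P, n :: N, k + 1, h1, h2, h3 => by
    simp only [offT, Bool.and_eq_true, Nat.ble_eq] at h3
    obtain ⟨g1, g2, g3⟩ := h3
    cases w with
    | nil =>
      obtain ⟨_, i2⟩ := offT_ok [] P N k (by simpa using h1) (by simpa using h2) g3
      refine ⟨by simp, fun d hd => ?_⟩
      simp only [offL, List.mem_cons] at hd
      rcases hd with rfl | hd
      · exact g2
      · exact i2 d hd
    | cons v w =>
      obtain ⟨i1, i2⟩ := offT_ok w P N k (by simpa using h1) (by simpa using h2) g3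
      refine ⟨?_, fun d hd => ?_⟩
      · simp only [offL, List.replicate_succ, ip, i1]
        rw [show ((Nat.sub (Nat.add p h) n : ℕ) : ℝ) = (p : ℝ) + h - n by
          have g1' : n ≤ p + h := g1
          change ((p + h - n : ℕ) : ℝ) = _
          rw [Nat.cast_sub g1']
          push_cast
          ring]
        ring
      · simp only [offL, List.mem_cons] at hd
        rcases hd with rfl | hd
        · exact g2
        · exact i2 d hd
  | w, [], _ :: _, k, h1, h2, _ => by simp at h1; subst h1; simp at h2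
  | w, _ :: _, [], k, h1, h2, _ => by simp at h2; subst h2; simp at h1

/-- rounded row -/
def nar (S W B K CB CN h : ℕ) : ℕ → ℕ → ℕ → ℕ
  | 0, _, _ => 0
  | k + 1, x, y => Nat.add (od W ((offL h (dgs B K (Nat.mod x CB)) (dgs B K (Nat.mod y CB))).map fun y => Nat.div y S))
      (Nat.mul CN (nar S W B K CB CN h k (Nat.div x CB) (Nat.div y CB)))

/-- bound of the rounded digits -/
def narT (S B K CB h be : ℕ) : ℕ → ℕ → ℕ → Bool
  | 0, _, _ => true
  | k + 1, x, y => offT S h be (dgs B K (Nat.mod x CB)) (dgs B K (Nat.mod y CB)) &&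
      narT S B K CB h be k (Nat.div x CB) (Nat.div y CB)

section kit

variable {K : ℕ} {w : List ℝ} {T : List ℕ → List ℕ → Bool} {sv : List ℕ}

theorem nar_ok (kit : Kit K w T sv) {S W B be oe : ℕ} (hS : 0 < S) : ∀ (k x y : ℕ) (D : List ℝ), D.length = k → Box D →
    narT S B K (B ^ K) (S * oe) be k x y = true →
    ∃ l, RR W K w D ⟨nar S W B K (B ^ K) (W ^ K) (S * oe) k x y, 0, be⟩ l ∧
      S * (l - (oe * ip w (List.replicate K 1) + ip w sv) * D.sum) ≤ rv w B K D x - rv w B K D y
  | 0, x, y, D, hl, _, _ => by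
    rw [List.length_eq_zero_iff] at hl
    subst hl
    exact ⟨0, RV.mono RR.zero (Nat.zero_le _), by simp [rv, wf]⟩
  | k + 1, x, y, [], hl, _, _ => by simp at hl
  | k + 1, x, y, d :: D, hl, hD, h => by
    simp only [narT, Bool.and_eq_true] at h
    obtain ⟨⟨d0, d1⟩, hD'⟩ := hD.cons
    obtain ⟨l, h1, h2⟩ := nar_ok kit (W := W) hS k (x / B ^ K) (y / B ^ K) D (by simpa using hl) hD' h.2
    obtain ⟨g1, g2⟩ := offT_ok w _ _ K (dgs_length _ _) (dgs_length _ _) h.1
    have hlen : (offL (S * oe) (dgs B K (x % B ^ K)) (dgs B K (y % B ^ K))).length = K :=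
      offL_length _ (dgs_length _ _) (dgs_length _ _)
    have h3 : RV W K w ⟨od W ((offL (S * oe) (dgs B K (x % B ^ K)) (dgs B K (y % B ^ K))).map fun y => y / S), 0, be⟩
        (ip w ((offL (S * oe) (dgs B K (x % B ^ K)) (dgs B K (y % B ^ K))).map fun y => y / S)) := by
      refine ⟨_, List.replicate K 0, by simpa using hlen, by simp, rfl, od_zero _ _, ?_, ?_, ?_⟩
      · intro e he
        obtain ⟨y, hy, rfl⟩ := List.mem_map.1 he
        exact g2 y hy
      · intro e he
        rw [List.eq_of_mem_replicate he]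
        exact Nat.zero_le _
      · rw [ip_zero, sub_zero]
    have h4 := RR.cons kit.len (d := d) h3 h1
    refine ⟨_, RV.mono h4 (by
      change be + (be - be) ≤ be
      omega), ?_⟩
    have h5 := kit.floor hS hlen
    rw [rv_cons kit.len, rv_cons kit.len, List.sum_cons]
    change ip w (offL (S * oe) (dgs B K (x % B ^ K)) (dgs B K (y % B ^ K)))
      = ip w (dgs B K (x % B ^ K)) - ip w (dgs B K (y % B ^ K)) + _ at g1
    rw [g1, ip_rep (S * oe)] at h5
    push_cast at h5
    have h6 := mul_le_mul_of_nonneg_left h5 d0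
    linarith

/-- the complete test of a table -/
def finS (T : List ℕ → List ℕ → Bool) (t tg : ℕ → ℕ → ℕ → ℕ → ℕ → Bool) (sp : ℕ → ℕ) (K ws v B S o oe be W1 n : ℕ)
    (R : List PV) (dg : ℕ) (dt : List (ℕ × ℕ × ℕ)) : Bool :=
  let W := Nat.pow 2 ws
  let CN := Nat.pow W K
  let CB := Nat.pow B K
  let h := Nat.mul S oe
  let mk := msk ws v (Nat.mul K n)
  Nat.ble v ws && (Nat.ble 1 S && (Nat.ble (Nat.succ (hdE R).b) B && (rowT mk (Nat.pow CN n) dg &&
    (Nat.ble (Nat.add (Nat.add be (Nat.mul 2 (Nat.mul (Nat.succ n) (Nat.pow 2 v)))) 2) W &&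
      (narT S B K CB h be n (Nat.div (hdE R).p CB) (Nat.div (hdE R).n CB) &&
        goS t tg (tfL T K W1 S o v (dgs B K (Nat.mod (hdE R).p CB)) (dgs B K (Nat.mod (hdE R).n CB))) sp CN CB mk B n
          (tlE R) dt (nar S W B K CB CN h n (Nat.div (hdE R).p CB) (Nat.div (hdE R).n CB)) 0 dg 0 0)))))

theorem finS_ok (kit : Kit K w T sv) {ws v B S o oe be W1 n : ℕ} {t tg : ℕ → ℕ → ℕ → ℕ → ℕ → Bool} {sp : ℕ → ℕ}
    (ht : ∀ a b d e e', t a b d e e' = true → pairL T K (2 ^ ws) B S o (ofs K o sv) a b d e e' = true)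
    (htg : ∀ a b d e e', tg a b d e e' = true → tgL T K (2 ^ ws) B S o oe sv a b d e e' = true)
    (hsp : ∀ x, sp x = od W1 (dgs (2 ^ ws) K x)) {R : List PV} {dg : ℕ} {dt : List (ℕ × ℕ × ℕ)}
    (h : finS T t tg sp K ws v B S o oe be W1 n R dg dt = true) {D : List ℝ} (hl : D.length = n) (hD : Box D)
    {z : ℝ} (hz : TV B K w R (1 :: D) z) : 0 ≤ z := by
  simp only [finS, Bool.and_eq_true, Nat.ble_eq] at h
  obtain ⟨hv, hS, g1, g2, g3, g4, g5⟩ := h
  change (be + 2 * ((n + 1) * 2 ^ v)) + 2 ≤ 2 ^ ws at g3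
  obtain ⟨r, z', hr, hz', hzz⟩ := TV.split hz
  generalize hE0 : hdE R = E at g1 g4 g5 hr
  obtain ⟨ep, en, eb⟩ := E
  have hoff : r = rv w B K (1 :: D) ep - rv w B K (1 :: D) en := RV.digits hr g1
  rw [rv_cons kit.len, rv_cons kit.len] at hoff
  obtain ⟨l, hl1, hl2⟩ := nar_ok kit (W := 2 ^ ws) (B := B) (be := be) (oe := oe) hS n _ _ D hl hD g4
  obtain ⟨a1, a2⟩ := rowT_ok (K := K) hv (le_refl (K * n)) (x := dg) g2
  have key := goS_ok kit hS hv (W1 := W1) (cp := dgs B K (ep % B ^ K))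
    (cm := dgs B K (en % B ^ K)) (dgs_length _ _) (dgs_length _ _) ht htg (fun _ _ h => h) hsp n (tlE R) dt _ 0 dg 0 0 be
    D l 0 z' g5 (le_refl _) hl hD hl1 g3 hz' a1 a2 (RV.mono RV.zero (Nat.zero_le _))
  rw [hzz, hoff]
  have hl2' : S * (l - (oe * ip w (List.replicate K 1) + ip w sv) * D.sum)
      ≤ rv w B K D (ep / B ^ K) - rv w B K D (en / B ^ K) := hl2
  push_cast at key ⊢
  linarith

end kit

/-! ### the record -/

/-- certificate: statement `st`; `B` base of the table, digits of the data in slots of `ws` bits, `v` bits each, unit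
`S`, offset `o`; offset `oe` and bound `be` of the rounded table, `W1` base of the sums; diagonal `dg`, corners `dt`;
squares `gs` (weight `g`, base `W2`, offset `o2`), multipliers `ps` (unit `S1`); every literal carries a tag below
`tag`, long numbers are cut in pieces of `pb` bits -/
structure CY where
  st : ST
  B : ℕ
  ws : ℕ
  v : ℕ
  S : ℕ
  o : ℕ
  oe : ℕ
  be : ℕ
  W1 : ℕ
  tag : ℕ
  pb : ℕ
  dg : List ℕ
  dt : List (List ℕ × List ℕ × List ℕ)
  g : ℕ
  W2 : ℕ
  o2 : ℕ
  gs : List ℕ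
  S1 : ℕ
  ps : List (List ℕ × List ℕ)

/-- a number from its pieces -/
def jn (tag P : ℕ) : List ℕ → ℕ
  | [] => 0
  | x :: l => Nat.add (Nat.div x tag) (Nat.mul P (jn tag P l))

/-- minus the sum of the products -/
def prodS (row : List A3 × List ℤ → List ℤ) (f : ℕ → PV) (C CN n : ℕ) :
    List (List A3 × List ℤ) → List (ℕ × ℕ) → List PV
  | q :: P, (x, y) :: ps => addT (prS C ((row q).map fun x => -x) (lamS f C CN n x y)) (prodS row f C CN n P ps)
  | _, _ => []

/-- tests of the products -/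
def prodT (t : ℕ → Bool) (f : ℕ → PV) (B C CN n : ℕ) : List (List A3 × List ℤ) → List (ℕ × ℕ) → Bool
  | _ :: P, (x, y) :: ps => lamT t CN n x && (lamT t CN n y && (Nat.ble (Nat.succ (lamS f C CN n x y).b) B &&
      prodT t f B C CN n P ps))
  | _, _ => true

theorem prodS_ok {B K : ℕ} {w : List ℝ} (hw : w.length = K) {f : ℕ → PV} {g : ℕ → ℝ}
    (hf : ∀ c, RV B K w (f c) (g c)) {t : ℕ → Bool} (ht : ∀ c, t c = true → 0 ≤ g c) (CN n : ℕ) {D : List ℝ}
    (hl : D.length = n) (hD : Box D) {row : List A3 × List ℤ → List ℤ} : ∀ (P : List (List A3 × List ℤ))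
    (ps : List (ℕ × ℕ)), (∀ q ∈ P, (row q).length ≤ n + 1) → (∀ q ∈ P, 0 ≤ lz (row q) (1 :: D)) →
    prodT t f B (B ^ K) CN n P ps = true → ∃ z, TV B K w (prodS row f (B ^ K) CN n P ps) (1 :: D) z ∧ z ≤ 0
  | [], ps, _, _, _ => ⟨0, by simp [prodS, TV], le_refl _⟩
  | _ :: _, [], _, _, _ => ⟨0, by simp [prodS, TV], le_refl _⟩
  | q :: P, (x, y) :: ps, h1, h2, h => by
    simp only [prodT, Bool.and_eq_true, Nat.ble_eq] at h
    obtain ⟨g1, g2, g3, g4⟩ := h
    obtain ⟨z, k1, k2⟩ := prodS_ok hw hf ht CN n hl hD P ps (fun q hq => h1 q (by simp [hq]))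
      (fun q hq => h2 q (by simp [hq])) g4
    obtain ⟨s, r, a1, a2, a3⟩ := lam_ok hw hf ht CN n x y D hl hD g1 g2
    have a4 := RR.cons hw (d := 1) a1 a2
    have a5 := prS_ok hw ((row q).map fun x => -x) (lamS f (B ^ K) CN n x y) (1 :: D) _ (by
      rw [List.length_map, List.length_cons, hl]
      exact h1 q (by simp)) g3 a4
    refine ⟨_, TV.add a5 k1, ?_⟩
    rw [lz_neg]
    have a6 := h2 q (by simp)
    have a7 : 0 ≤ lz (row q) (1 :: D) * (1 * s + r) := mul_nonneg a6 (by linarith)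
    linarith

/-- scaled chunk -/
theorem dec_val {B K W S o : ℕ} {w : List ℝ} (hW : 0 < W) (ho : o ≤ W) (c : ℕ) :
    RV B K w ⟨Nat.mul S (od B (dgs W K c)), Nat.mul S (od B (List.replicate K o)), Nat.mul S W⟩
      (S * (ip w (dgs W K c) - o * ip w (List.replicate K 1))) := by
  refine ⟨(dgs W K c).map fun x => S * x, (List.replicate K o).map fun x => S * x, by simp [dgs_length], by simp,
    od_map _ _ _, od_map _ _ _, ?_, ?_, ?_⟩
  · intro d hd
    obtain ⟨e, he, rfl⟩ := List.mem_map.1 hd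
    exact Nat.mul_le_mul_left S (dgs_lt hW K c e he).le
  · intro d hd
    obtain ⟨e, he, rfl⟩ := List.mem_map.1 hd
    rw [List.eq_of_mem_replicate he]
    exact Nat.mul_le_mul_left S ho
  · rw [ip_map, ip_map, ip_rep o w K]
    ring

theorem qv_scale (c : ℝ) : ∀ (T : List (List ℝ)) (X : List ℝ), qv id T (X.map fun x => c * x) = c ^ 2 * qv id T X := by
  have e4 : ∀ (T : List ℝ) (X : List ℝ), lv id T (X.map fun x => c * x) = c * lv id T X := by
    intro T
    induction T with
    | nil => intro X; simp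
    | cons a T ih =>
      intro X
      cases X with
      | nil => simp
      | cons x X =>
        simp only [List.map_cons, lv_cons, ih X]
        ring
  intro T
  induction T with
  | nil => intro X; simp
  | cons a T ih =>
    intro X
    cases X with
    | nil => simp
    | cons x X =>
      have e5 := e4 a (x :: X)
      simp only [List.map_cons] at e5
      simp only [List.map_cons, qv_cons, ih X, e5]
      ring

/-- the data of the test -/
structure Eng (K : ℕ) (W : Type) where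
  O : Op PV
  S : Sq W PV
  T : List ℕ → List ℕ → Bool
  t : ℕ → ℕ → ℕ → ℕ → ℕ → Bool
  tg : ℕ → ℕ → ℕ → ℕ → ℕ → Bool
  tc : ℕ → Bool
  sp : ℕ → ℕ
  f : ℕ → PV
  G : List (ℕ × List W)
  sv : List ℕ

/-- the complete test -/
def CY.chk {K : ℕ} {W : Type} (D : CY) (E : Eng K W) : Bool :=
  let st := D.st
  let C := Nat.pow D.B K
  let CN := Nat.pow (Nat.pow 2 D.ws) K
  let n := Nat.add st.N st.M
  let hh := addZ st.Ls st.Hs
  let hn := hh.map fun x => -x
  let es := hh.map fun x => 2 * x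
  let ρ := st.Ls.sum
  let κ := 2 * st.κ
  let F := st.F.map fun q => (ofZ D.B q.1, q.2)
  let s := runS C es (srs E.O κ ρ st.Ls (locP E.O F))
  let G := addR E.O (st.C.map fun r => r.map (ofZ D.B)) (grams E.O E.S E.G)
  let L := st.L.map (rowE κ ρ st.Ls es hn)
  let j := jn D.tag (Nat.pow 2 D.pb)
  let ps := D.ps.map fun q => (j q.1, j q.2)
  Nat.beq st.Ls.length st.N && (Nat.beq st.Hs.length st.N && ((st.F.all fun q => Nat.beq q.1.length K) &&
    ((st.C.all fun r => r.all fun c => Nat.beq c.length K) && ((st.T.all fun r => r.all fun c => Nat.beq c.length K) &&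
    (fitT (Nat.succ n) st.T && ((st.L.all fun q => Nat.ble q.2.length (Nat.succ st.M)) &&
    ((st.P.all fun q => Nat.ble q.2.length (Nat.succ st.M)) && (lenOk st.N F && (decide (0 < st.κ) &&
    (Nat.ble (Nat.succ (tabM C hn s).b) D.B && (sbOk D.B C G L &&
    (prodT E.tc E.f D.B C CN n st.P ps &&
    finS E.T E.t E.tg E.sp K D.ws D.v D.B D.S D.o D.oe D.be D.W1 n
      (addT (addT (tabS C hn s) (sbS C G L))
        (addT (st.T.map (pkR D.B C)) (prodS (rowE κ ρ st.Ls es hn) E.f C CN n st.P ps)))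
      (j D.dg) (D.dt.map fun q => (j q.1, j q.2.1, j q.2.2))))))))))))))

theorem certY {K : ℕ} {W : Type} {D : CY} {E : Eng K W} {w : List ℝ} {ψ : W → ℂ} (H : Rl E.O (RV D.B K w))
    (hS : Rs E.S (RV D.B K w) ψ) (kit : Kit K w E.T E.sv)
    (ht : ∀ a b d e e', E.t a b d e e' = true → pairL E.T K (2 ^ D.ws) D.B D.S D.o (ofs K D.o E.sv) a b d e e' = true)
    (htg : ∀ a b d e e', E.tg a b d e e' = true → tgL E.T K (2 ^ D.ws) D.B D.S D.o D.oe E.sv a b d e e' = true)
    (hsp : ∀ x, E.sp x = od D.W1 (dgs (2 ^ D.ws) K x))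
    {g : ℕ → ℝ} (hf : ∀ c, RV D.B K w (E.f c) (g c)) (htc : ∀ c, E.tc c = true → 0 ≤ g c)
    (h : D.chk E = true) : D.st.Good w := by
  intro x τ hx
  simp only [CY.chk, Bool.and_eq_true, List.all_eq_true, Nat.ble_eq, decide_eq_true_eq] at h
  obtain ⟨p1, p2, p3, p4, p5, p6, p7, p8, p9, p10, p11, p12, p13, p14⟩ := h
  have q1 := Nat.eq_of_beq_eq_true p1
  have q2 := Nat.eq_of_beq_eq_true p2
  obtain ⟨θ, hb, hI⟩ := ex_inc (bd_nds D.st.N D.st.Ls D.st.Hs x q1 q2 hx.lo hx.hi)
  obtain ⟨l1, l2⟩ := inc_par D.st.N D.st.Ls D.st.Hs θ x q1 q2 hI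
  refine ⟨θ, ⟨l1, hb, l2⟩, ?_⟩
  obtain ⟨i1, i2⟩ := inc_len hI
  generalize hhd : addZ D.st.Ls D.st.Hs = hh at hI p11 p12 p13 p14 i1
  have hs := inc_sum hI 0
  rw [nds_last, nds_headI, hx.anti] at hs
  have h0 : 2 * (D.st.κ : ℝ) * (nds x D.st.N).headI = (D.st.Ls.sum : ℤ) + -lz hh θ := by
    rw [hs, nds_headI]
    ring
  have hDl : (θ ++ τ).length = D.st.N + D.st.M := by
    rw [List.length_append, l1, hx.len]
  have hD : Box (θ ++ τ) := by
    intro d hd
    rcases List.mem_append.1 hd with hd | hd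
    · exact hb d hd
    · exact hx.box d hd
  -- chain part
  have hF : Forall₂ (fun (q : PV × List (P6 ℤ)) (q' : ℝ × List (P6 ℤ)) => RV D.B K w q.1 q'.1 ∧ q.2 = q'.2)
      (D.st.F.map fun q => (ofZ D.B q.1, q.2)) (D.st.F.map fun q => (iz w q.1, q.2)) := by
    rw [List.forall₂_map_left_iff, List.forall₂_map_right_iff]
    refine List.forall₂_same.2 fun q hq => ⟨ofZ_ok (Nat.eq_of_beq_eq_true (p3 q hq)), rfl⟩
  have hps := srs_par H (2 * D.st.κ) D.st.Ls.sum D.st.Ls (locP_par H hF)
  have hlF : (locP OR (D.st.F.map fun q => (iz w q.1, q.2))).length = D.st.N := by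
    have hne : (D.st.F.map fun q => (ofZ D.B q.1, q.2)) ≠ [] := by
      intro h
      rw [h] at p9
      simp [lenOk] at p9
    have hall : ∀ q ∈ (D.st.F.map fun q => (ofZ D.B q.1, q.2)), q.2.length = D.st.N := by
      intro q hq
      generalize (D.st.F.map fun q => (ofZ D.B q.1, q.2)) = F at p9 hq
      cases F with
      | nil => simp at hq
      | cons a F =>
        simp only [lenOk, List.all_eq_true] at p9
        exact Nat.eq_of_beq_eq_true (p9 q hq)
    rw [← locP_length E.O D.st.N hall hne]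
    exact (locP_par H hF).length_eq.symm
  have hsl : (srs OR (2 * D.st.κ) D.st.Ls.sum D.st.Ls (locP OR (D.st.F.map fun q => (iz w q.1, q.2)))).length
      = θ.length := by
    rw [srs_length _ _ _ _ _ (by rw [hlF, q1]), i2]
  have t1 := tabS_ok kit.len (τ := τ) (e := hh.map fun x => 2 * x) (hn := hh.map fun x => -x) hps
    (by rw [List.length_map, i1]) hsl (by rw [List.length_map, i1]) p11
  rw [lz_neg, sum6_srs hI h0, sum6_locP] at t1
  -- linear forms
  have hrow : ∀ q, lz (rowE (2 * D.st.κ) D.st.Ls.sum D.st.Ls (hh.map fun x => 2 * x) (hh.map fun x => -x) q)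
      (1 :: (θ ++ τ)) = (2 * D.st.κ : ℝ) * D.st.lf x τ q := by
    intro q
    rw [rowE_ok hI h0 q, sum3_nds]
    rfl
  have hlen : ∀ q : List A3 × List ℤ, q.2.length ≤ D.st.M + 1 →
      (rowE (2 * D.st.κ) D.st.Ls.sum D.st.Ls (hh.map fun x => 2 * x) (hh.map fun x => -x) q).length
        ≤ D.st.N + D.st.M + 1 := by
    intro q hq
    have := rowE_length hI (M := D.st.M) hq
    rw [l1] at this
    exact this
  have hC : ∀ C : List (List (List ℤ)), (∀ r ∈ C, ∀ c ∈ r, Nat.beq c.length K = true) →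
      Forall₂ (Forall₂ (RV D.B K w)) (C.map fun r => r.map (ofZ D.B)) (C.map fun r => r.map (iz w)) := by
    intro C hC
    rw [List.forall₂_map_left_iff, List.forall₂_map_right_iff]
    refine List.forall₂_same.2 fun r hr => ?_
    rw [List.forall₂_map_left_iff, List.forall₂_map_right_iff]
    exact List.forall₂_same.2 fun c hc => ofZ_ok (Nat.eq_of_beq_eq_true (hC r hr c hc))
  have hG := addR_par H (hC D.st.C p4) (grams_par H hS E.G)
  have t2 := sbS_ok kit.len (D := 1 :: (θ ++ τ)) hG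
    (L := D.st.L.map (rowE (2 * D.st.κ) D.st.Ls.sum D.st.Ls (hh.map fun x => 2 * x) (hh.map fun x => -x))) (by
      intro l hl
      obtain ⟨q, hq, rfl⟩ := List.mem_map.1 hl
      rw [List.length_cons, hDl]
      exact hlen q (p7 q hq)) p12
  have e2 : vals (D.st.L.map (rowE (2 * D.st.κ) D.st.Ls.sum D.st.Ls (hh.map fun x => 2 * x) (hh.map fun x => -x)))
      (1 :: (θ ++ τ)) = (D.st.L.map (D.st.lf x τ)).map fun y => (2 * D.st.κ : ℝ) * y := by
    unfold vals
    rw [List.map_map, List.map_map]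
    exact List.map_congr_left fun q _ => hrow q
  rw [e2, qv_addR evOR] at t2
  have hg := grams_nonpos evOR (esSR ψ) ((D.st.L.map (D.st.lf x τ)).map fun y => (2 * D.st.κ : ℝ) * y) E.G
  rw [qv_scale] at t2
  -- table
  have t3 := pkT_ok (B := D.B) kit.len D.st.T (1 :: (θ ++ τ)) (fun r hr c hc => Nat.eq_of_beq_eq_true (p5 r hr c hc))
    (by rw [List.length_cons, hDl]; exact p6)
  -- products
  obtain ⟨z, t4, hz⟩ := prodS_ok kit.len hf htc ((2 ^ D.ws) ^ K) (D.st.N + D.st.M) hDl hD D.st.P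
    (D.ps.map fun q => (jn D.tag (Nat.pow 2 D.pb) q.1, jn D.tag (Nat.pow 2 D.pb) q.2))
    (row := rowE (2 * D.st.κ) D.st.Ls.sum D.st.Ls (hh.map fun x => 2 * x) (hh.map fun x => -x))
    (fun q hq => hlen q (p8 q hq)) (fun q hq => by
      rw [hrow]
      have h1 := hx.pos q hq
      have h2 : (0 : ℝ) < D.st.κ := by exact_mod_cast p10
      positivity) p13
  have key := finS_ok kit ht htg hsp p14 hDl hD (TV.add (TV.add t1 t2) (TV.add t3 t4))
  unfold ST.val
  simp only [List.map_map, Function.comp_def, sum6_nds] at key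
  simp only [List.map_map, Function.comp_def] at hg
  linarith

end Pool.Agent.FPX.PLK
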