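import Pool.Agent.FPX.PLJ
import Pool.Agent.FPX.PLS
/-!
PLB (helper1). The test of a packed table with vectorised rows.
-/
set_option autoImplicit false

noncomputable section

namespace Pool.Agent.FPX.PLK

open List (Forall₂)

/-- all rows. `rw` test of the pairs of a row, `tg` diagonal, `tf` final, `sp` change of base -/
def goV (rw : ℕ → ℕ → ℕ → ℕ → ℕ → ℕ → Bool) (tg : ℕ → ℕ → ℕ → ℕ → ℕ → Bool) (tf : ℕ → ℕ → Bool) (sp : ℕ → ℕ)
    (CN CB mk Bc : ℕ) : ℕ → List PV → List (ℕ × ℕ × ℕ) → ℕ → ℕ → ℕ → ℕ → ℕ → Bool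
  | 0, _, _, _, _, _, cn, oc => tf cn oc
  | k + 1, Es, (xa, xb, xd) :: ds, lp, ln, al, cn, oc =>
    rowT mk (Nat.pow CN k) xa && (rowT mk (Nat.pow CN k) xb && (rowT mk (Nat.pow CN k) xd &&
      (Nat.ble (Nat.succ (hdE Es).b) Bc &&
      (rw k xa xb xd (Nat.div (hdE Es).p CB) (Nat.div (hdE Es).n CB) &&
      (tg (Nat.mod al CN) (Nat.add (Nat.mod lp CN) (Nat.mod xa (Nat.pred CN)))
        (Nat.add (Nat.mod ln CN) (Nat.mod xb (Nat.pred CN))) (Nat.mod (hdE Es).p CB) (Nat.mod (hdE Es).n CB) &&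
      goV rw tg tf sp CN CB mk Bc k (tlE Es) ds (Nat.add (Nat.div lp CN) xa) (Nat.add (Nat.div ln CN) xd)
        (Nat.div al CN) (Nat.add cn (sp (Nat.add (Nat.mod xa (Nat.pred CN)) (Nat.mod al CN))))
        (Nat.add oc (Nat.succ k)))))))
  | _ + 1, _, [], _, _, _, _, _ => false

section kit

variable {K : ℕ} {w : List ℝ} {T : List ℕ → List ℕ → Bool} {sv : List ℕ}

theorem goV_ok (kit : Kit K w T sv) {ws v B Bc S o oe W1 m : ℕ} (hS : 0 < S) (hv : v ≤ ws) (hBc : Bc ≤ B)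
    {rw : ℕ → ℕ → ℕ → ℕ → ℕ → ℕ → Bool}
    {tg : ℕ → ℕ → ℕ → ℕ → ℕ → Bool} {tf : ℕ → ℕ → Bool} {sp : ℕ → ℕ} {cp cm : List ℕ} (hcp : cp.length = K)
    (hcm : cm.length = K)
    (ht : ∀ (k xa xb xd xe xf eb : ℕ), K * k ≤ m → rw k xa xb xd xe xf = true →
      (∀ x ∈ dgs (2 ^ ws) (K * k) xb, x < 2 ^ v) → (∀ x ∈ dgs (2 ^ ws) (K * k) xd, x < 2 ^ v) →
      ∀ (D : List ℝ) (r : ℝ), D.length = k → Box D → RR B K w D ⟨xe, xf, eb⟩ r → eb < Bc → ∀ x : ℝ, 0 ≤ x → x ≤ 1 →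
      0 ≤ S * ((rv w (2 ^ ws) K (List.replicate k 1) xa - k * (o * ip w (List.replicate K 1)))
          + x * (rv w (2 ^ ws) K (List.replicate k 1) xb - rv w (2 ^ ws) K (List.replicate k 1) xa)
          + (rv w (2 ^ ws) K D xd - rv w (2 ^ ws) K D xa)) + x * r)
    (htg : ∀ a b d e e', tg a b d e e' = true → tgL T K (2 ^ ws) B S o oe sv a b d e e' = true)
    (htf : ∀ cn oc, tf cn oc = true → tfL T K W1 S o v cp cm cn oc = true)
    (hsp : ∀ x, sp x = od W1 (dgs (2 ^ ws) K x)) :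
    ∀ (k : ℕ) (Es : List PV) (ds : List (ℕ × ℕ × ℕ)) (lp ln al cn oc β : ℕ) (D : List ℝ) (l γ z : ℝ),
      goV rw tg tf sp ((2 ^ ws) ^ K) (B ^ K) (msk ws v m) Bc k Es ds lp ln al cn oc = true → K * k ≤ m →
      D.length = k → Box D → RR (2 ^ ws) K w D ⟨lp, ln, β⟩ l → β + 2 * ((k + 1) * 2 ^ v) + 2 ≤ 2 ^ ws →
      TV B K w Es D z → al < (2 ^ ws) ^ (K * k) →
      (∀ d ∈ dgs (2 ^ ws) (K * k) al, d ≤ 2 ^ v) → RV W1 K w ⟨cn, 0, oc * 2 ^ v⟩ γ →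
      0 ≤ (ip w cp - ip w cm) + S * (oc * (o * ip w (List.replicate K 1))) - S * γ
        + S * (l - (oe * ip w (List.replicate K 1) + ip w sv) * D.sum) + z
  | 0, Es, ds, lp, ln, al, cn, oc, β, D, l, γ, z, h, _, hl, _, hlr, _, hE, _, _, hc => by
    rw [List.length_eq_zero_iff] at hl
    subst hl
    simp only [goV] at h
    have h1 := tfL_ok kit hcp hcm (htf _ _ h) hc
    have h2 : z = 0 := by
      cases Es with
      | nil => simpa [TV] using hE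
      | cons x xs => simp [TV] at hE
    have h3 : l = 0 := by
      obtain ⟨P, N, a1, a2, a3, a4, a5, a6, a7⟩ := hlr
      rw [a7]
      simp [wf]
    rw [h2, h3]
    simpa using h1
  | k + 1, Es, [], lp, ln, al, cn, oc, β, D, l, γ, z, h, _, _, _, _, _, _, _, _, _ => by simp [goV] at h
  | k + 1, Es, (xa, xb, xd) :: ds, lp, ln, al, cn, oc, β, [], l, γ, z, _, _, hl, _, _, _, _, _, _, _ => by
    simp at hl
  | k + 1, Es, (xa, xb, xd) :: ds, lp, ln, al, cn, oc, β, d :: D, l, γ, z, h, hm, hl, hD, hlr, hβ, hE, hal,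
      hald, hc => by
    simp only [goV, Bool.and_eq_true] at h
    obtain ⟨g1, g2, g3, g4, g5, g6, g7⟩ := h
    have hl' : D.length = k := by simpa using hl
    obtain ⟨⟨d0, d1⟩, hD'⟩ := hD.cons
    have hkm : K * k ≤ m := by
      have : K * (k + 1) = K * k + K := by ring
      omega
    obtain ⟨a1, a2⟩ := rowT_ok (K := K) hv hkm (x := xa) g1
    obtain ⟨b1, b2⟩ := rowT_ok (K := K) hv hkm (x := xb) g2
    obtain ⟨c1, c2⟩ := rowT_ok (K := K) hv hkm (x := xd) g3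
    have lt3 : ∀ x, rowT (msk ws v m) (((2 ^ ws) ^ K) ^ k) x = true → ∀ d ∈ dgs (2 ^ ws) (K * k) x, d < 2 ^ v := by
      intro x hx d hd
      simp only [rowT, Bool.and_eq_true, Nat.ble_eq] at hx
      exact msk_ok hv m (K * k) x hkm (Nat.eq_of_beq_eq_true hx.2) d hd
    obtain ⟨r, z', hr, hz', hzz⟩ := TV.split hE
    generalize hE0 : hdE Es = E at g4 g5 g6 hr
    obtain ⟨ep, en, eb⟩ := E
    simp only [Nat.ble_eq] at g4
    have g4' : eb < Bc := g4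
    obtain ⟨r0, r', hr0, hr1, hoff⟩ := RR.uncons kit.len hr (show eb < B by omega)
    have hr0' : r0 = ip w (dgs B K (ep % B ^ K)) - ip w (dgs B K (en % B ^ K)) :=
      RV.digits hr0 (show eb < B by omega)
    rw [hr0'] at hoff
    have w2 : 0 < 2 ^ v := by positivity
    have e1 : (k + 1 + 1) * 2 ^ v = k * 2 ^ v + 2 ^ v + 2 ^ v := by ring
    have e2 : (k + 1) * 2 ^ v = k * 2 ^ v + 2 ^ v := by ring
    rw [e1] at hβ
    have hA := hsum kit.len kit.pos k xa (by omega) a1 a2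
    have hB := hsum kit.len kit.pos k xb (by omega) b1 b2
    obtain ⟨l0, l', hl0, hlt, hll⟩ := RR.uncons kit.len hlr (show β < 2 ^ ws by omega)
    have hl0' := RV.sub (RV.add hl0 hA) hB
    have hdig : l0 + rv w (2 ^ ws) K (List.replicate k 1) xa - rv w (2 ^ ws) K (List.replicate k 1) xb
        = ip w (dgs (2 ^ ws) K (Nat.add (Nat.mod lp ((2 ^ ws) ^ K)) (Nat.mod xa (Nat.pred ((2 ^ ws) ^ K)))))
          - ip w (dgs (2 ^ ws) K (Nat.add (Nat.mod ln ((2 ^ ws) ^ K)) (Nat.mod xb (Nat.pred ((2 ^ ws) ^ K))))) :=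
      hl0'.digits (show (β + k * 2 ^ v) + k * 2 ^ v < 2 ^ ws by omega)
    have hpair := ht k xa xb xd (ep / B ^ K) (en / B ^ K) eb hkm g5 (lt3 xb g2) (lt3 xd g3) D r' hl' hD' hr1 g4' d d0 d1
    obtain ⟨t1, t2, t3⟩ := tgL_ok kit (htg _ _ _ _ _ g6)
    have hra : RR (2 ^ ws) K w D ⟨xa, 0, 2 ^ v⟩ (rv w (2 ^ ws) K D xa) := row_ok (by rw [hl']; exact a1) (by rw [hl']; exact a2)
    have hrd : RR (2 ^ ws) K w D ⟨xd, 0, 2 ^ v⟩ (rv w (2 ^ ws) K D xd) := row_ok (by rw [hl']; exact c1) (by rw [hl']; exact c2)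
    have hnew := RV.sub (RV.add hlt hra) hrd
    rw [show K * (k + 1) = K + K * k by ring] at hal hald
    rw [dgs_add] at hald
    have hal1 : al % (2 ^ ws) ^ K < (2 ^ ws) ^ K := Nat.mod_lt _ (by positivity)
    have hal2 : al / (2 ^ ws) ^ K < (2 ^ ws) ^ (K * k) := by
      refine Nat.div_lt_of_lt_mul ?_
      rwa [← pow_add]
    have hα : RV (2 ^ ws) K w ⟨al % (2 ^ ws) ^ K, 0, 2 ^ v⟩ (ip w (dgs (2 ^ ws) K (al % (2 ^ ws) ^ K))) :=
      chunk_ok hal1 fun d h => hald d (by rw [dgs_mod] at h; simp [h])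
    have hAα := RV.add hA hα
    have hspr := spr (V := W1) hAα (show k * 2 ^ v + 2 ^ v < 2 ^ ws by omega)
    have hcn := RV.add hc hspr
    have hcn' : RV W1 K w ⟨Nat.add cn (sp (Nat.add (Nat.mod xa (Nat.pred ((2 ^ ws) ^ K))) (Nat.mod al ((2 ^ ws) ^ K)))), 0,
        (oc + (k + 1)) * 2 ^ v⟩ (γ + (rv w (2 ^ ws) K (List.replicate k 1) xa
          + ip w (dgs (2 ^ ws) K (al % (2 ^ ws) ^ K)))) := by
      rw [hsp]
      refine RV.mono hcn ?_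
      change oc * 2 ^ v + (k * 2 ^ v + 2 ^ v) ≤ (oc + (k + 1)) * 2 ^ v
      ring_nf
      exact le_refl _
    have ih := goV_ok kit hS hv hBc hcp hcm ht htg htf hsp k (tlE Es) ds _ _ _ _ _ (β + 2 ^ v + 2 ^ v) D _ _ z' g7 hkm
      hl' hD' hnew (by omega) hz' hal2 (fun y hy => hald y (List.mem_append_right _ hy)) hcn'
    rw [hzz, hll, hoff, List.sum_cons]
    rw [← hdig] at t2 t3
    have hd2 : 0 ≤ 1 - d := by linarith
    have hS' : (0 : ℝ) ≤ S := Nat.cast_nonneg _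
    have q1 := mul_nonneg (mul_nonneg hS' t1) (mul_nonneg hd2 hd2)
    have q2 := mul_nonneg (mul_nonneg hS' t2) (mul_nonneg d0 hd2)
    have q3 := mul_nonneg t3 (mul_nonneg d0 d0)
    change 0 ≤ S * (ip w (dgs (2 ^ ws) K (al % (2 ^ ws) ^ K)) - _) * _ at q1
    change 0 ≤ S * (2 * (ip w (dgs (2 ^ ws) K (al % (2 ^ ws) ^ K)) - _) + _) * _ at q2
    change 0 ≤ (S * ((ip w (dgs (2 ^ ws) K (al % (2 ^ ws) ^ K)) - _) + _)
      + (ip w (dgs B K (ep % B ^ K)) - ip w (dgs B K (en % B ^ K)))) * _ at q3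
    generalize ip w (dgs (2 ^ ws) K (al % (2 ^ ws) ^ K)) = va at q1 q2 q3 ih
    generalize ip w (dgs B K (ep % B ^ K)) = ve at q3 ⊢
    generalize ip w (dgs B K (en % B ^ K)) = vf at q3 ⊢
    generalize rv w (2 ^ ws) K (List.replicate k 1) xa = ra at q1 q2 q3 ih hpair
    generalize rv w (2 ^ ws) K (List.replicate k 1) xb = rb at q1 q2 q3 ih hpair
    generalize rv w (2 ^ ws) K D xa = ra' at ih hpair
    generalize rv w (2 ^ ws) K D xd = rd at ih hpair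
    have eo : ((Nat.add oc (Nat.succ k) : ℕ) : ℝ) = oc + k + 1 := by
      change ((oc + (k + 1) : ℕ) : ℝ) = _
      push_cast
      ring
    rw [eo] at ih
    linarith

end kit

/-- the constants -/
def vcc (ws v B oe : ℕ) : VC :=
  let W := Nat.pow 2 ws
  let V := Nat.pow 2 v
  let o := Nat.pow 2 (Nat.pred v)
  let Q := Nat.pow 2 (Nat.mul 9 ws)
  let P := EF Q (fun _ => 1)
  let P2 := EF (Nat.pow Q 2) (fun _ => 1)
  let P4 := EF (Nat.pow Q 4) (fun _ => 1)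
  let X1 := Nat.pow 2 (Nat.mul 3 v)
  let X2 := Nat.pow 2 (Nat.mul 5 v)
  let Om := Nat.pow 2 (Nat.add (Nat.mul 2 (Nat.pred v)) 4)
  { Q := Q, Q4 := Nat.pow Q 4, Q6 := Nat.pow Q 6, w1 := ws
    MU := Nat.mul P (msk ws v 9)
    MO := Nat.mul P (od W [o, o, o])
    MA := Nat.mul P (Nat.sub o 1)
    MV := Nat.mul P (Nat.sub V 1)
    PV := Nat.mul P V
    PO := Nat.mul P o
    K1 := Nat.mul P2 (Nat.sub X1 (Nat.mul 2 (Nat.mul o o)))
    T1 := Nat.mul P2 X1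
    L1 := Nat.mul P2 (Nat.sub X1 1)
    KR := Nat.mul P2 (Nat.add Om (Nat.mul 2 (Nat.mul o o)))
    W2 := Nat.mul P2 (Nat.mul 2 Om)
    K2 := Nat.mul P4 (Nat.sub X2 (Nat.mul 2 (Nat.mul Om Om)))
    T2 := Nat.mul P4 X2
    B5 := Nat.pow B 4
    BW := Nat.sub B W
    W5 := Nat.pow W 4
    C := od W (ofs 9 oe sv3) }

theorem vcc_ok {ws u : ℕ} (B oe : ℕ) (h5 : 5 ≤ u) (h4 : u + 4 ≤ ws) : (vcc ws (u + 1) B oe).Ok ws u := by
  refine ⟨h5, h4, rfl, rfl, rfl, rfl, ?_, ?_, ?_, ?_, ?_, ?_, ?_, ?_, ?_, ?_, ?_, ?_, ?_⟩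
  · rw [EF_const]
    rfl
  · rw [EF_const]
    rfl
  · rw [EF_const]
    rfl
  · rw [EF_const]
    rfl
  · rw [EF_const]
    rfl
  · rw [EF_const]
    rfl
  · rw [EF_const]
    rfl
  · rw [EF_const]
    rfl
  · rw [EF_const]
    rfl
  · rw [EF_const]
    rfl
  · rw [EF_const]
    rfl
  · rw [EF_const]
    rfl
  · rw [EF_const]
    rfl

theorem vcc_okg {ws v q oe : ℕ} (hq : 4 * ws ≤ q) (w2 : 2 ≤ ws) (hoe : 2 * (oe + 5) ≤ 2 ^ ws) :
    (vcc ws v (2 ^ q) oe).Okg ws q oe := by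
  have h1 : (vcc ws v (2 ^ q) oe).B5 = Nat.pow (2 ^ q) 4 := rfl
  have h2 : (vcc ws v (2 ^ q) oe).BW = Nat.sub (2 ^ q) (Nat.pow 2 ws) := rfl
  have h3 : (vcc ws v (2 ^ q) oe).W5 = Nat.pow (Nat.pow 2 ws) 4 := rfl
  have h4 : (vcc ws v (2 ^ q) oe).C = od (Nat.pow 2 ws) (ofs 9 oe sv3) := by
    simp only [vcc]
  exact ⟨hq, w2, hoe, h1, h2, h3, h4⟩

/-- consistency of the parameters; `q`, `s` the logarithms of the base and of the unit -/
def parV (ws v B S o oe q s : ℕ) : Bool :=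
  Nat.beq B (Nat.pow 2 q) && (Nat.beq S (Nat.pow 2 s) && (Nat.beq o (Nat.pow 2 (Nat.pred v)) && (Nat.ble 6 v &&
    (Nat.ble (Nat.add v 3) ws && (Nat.ble (Nat.mul 4 ws) q && (Nat.ble (Nat.mul 2 (Nat.add oe 5)) (Nat.pow 2 ws) &&
    (Nat.ble (Nat.succ s) q && Nat.ble oe (Nat.pow 2 (Nat.sub (Nat.pred q) s)))))))))

/-- the complete test of a table -/
def finV (tg : ℕ → ℕ → ℕ → ℕ → ℕ → Bool) (sp : ℕ → ℕ) (ws v B S o oe be W1 n : ℕ)
    (R : List PV) (dg : ℕ) (dt : List (ℕ × ℕ × ℕ)) : Bool :=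
  let W := Nat.pow 2 ws
  let CN := Nat.pow W 9
  let CB := Nat.pow B 9
  let h := Nat.mul S oe
  let n9 := Nat.mul 9 n
  let mk := msk ws v n9
  let q := Nat.log2 B
  let s := Nat.log2 S
  let Bc := Nat.pow 2 (Nat.pred q)
  parV ws v B S o oe q s &&
  (Nat.ble (Nat.succ (hdE R).b) B && (rowT mk (Nat.pow CN n) dg &&
    (Nat.ble (Nat.add (Nat.add be (Nat.mul 2 (Nat.mul (Nat.succ n) (Nat.pow 2 v)))) 2) W &&
      (narT S B 9 CB h be n (Nat.div (hdE R).p CB) (Nat.div (hdE R).n CB) &&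
        goV (rowV (vcc ws v B oe).t CN CB s (od B (List.replicate n9 Bc))
            (od B (List.replicate n9 (Nat.sub (Nat.pow 2 (Nat.sub (Nat.pred q) s)) oe)))
            (od B (List.replicate n9 (Nat.pred (Nat.pow 2 (Nat.sub q s))))) (msk q (Nat.sub ws 2) n9)) tg
          (tfL T3 9 W1 S o v (dgs B 9 (Nat.mod (hdE R).p CB)) (dgs B 9 (Nat.mod (hdE R).n CB))) sp CN CB mk Bc n
          (tlE R) dt (nar S W B 9 CB CN h n (Nat.div (hdE R).p CB) (Nat.div (hdE R).n CB)) 0 dg 0 0))))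

theorem finV_ok (z1 z2 z3 : ℂ) {ws v B S o oe be W1 n : ℕ} {tg : ℕ → ℕ → ℕ → ℕ → ℕ → Bool} {sp : ℕ → ℕ}
    (htg : ∀ a b d e e', tg a b d e e' = true → tgL T3 9 (2 ^ ws) B S o oe sv3 a b d e e' = true)
    (hsp : ∀ x, sp x = od W1 (dgs (2 ^ ws) 9 x)) {R : List PV} {dg : ℕ} {dt : List (ℕ × ℕ × ℕ)}
    (h : finV tg sp ws v B S o oe be W1 n R dg dt = true) {D : List ℝ} (hl : D.length = n) (hD : Box D)
    {z : ℝ} (hz : TV B 9 (w3 z1 z2 z3) R (1 :: D) z) : 0 ≤ z := by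
  have kit := kit3 z1 z2 z3
  simp only [finV, Bool.and_eq_true, Nat.ble_eq] at h
  obtain ⟨hpar, g1, g2, g3, g4, g5⟩ := h
  generalize hq : Nat.log2 B = q at hpar g5
  generalize hs : Nat.log2 S = s at hpar g5
  simp only [parV, Bool.and_eq_true, Nat.ble_eq] at hpar
  obtain ⟨r1, r2, r3, r4, r5, r6, r7, r8, r9⟩ := hpar
  have r1 : B = 2 ^ q := Nat.eq_of_beq_eq_true r1
  have r2 : S = 2 ^ s := Nat.eq_of_beq_eq_true r2
  have r3 : o = 2 ^ (v - 1) := Nat.eq_of_beq_eq_true r3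
  obtain ⟨u, rfl⟩ : ∃ u, v = u + 1 := ⟨v - 1, by omega⟩
  rw [Nat.add_sub_cancel] at r3
  have r5' : u + 4 ≤ ws := by
    have : u + 1 + 3 ≤ ws := r5
    omega
  have r6' : 4 * ws ≤ q := r6
  have r7' : 2 * (oe + 5) ≤ 2 ^ ws := r7
  have r8' : s + 1 ≤ q := r8
  have r9' : oe ≤ 2 ^ (q - 1 - s) := r9
  have hv : u + 1 ≤ ws := by omega
  have hS : 0 < S := by rw [r2]; positivity
  change (be + 2 * ((n + 1) * 2 ^ (u + 1))) + 2 ≤ 2 ^ ws at g3
  obtain ⟨r, z', hr, hz', hzz⟩ := TV.split hz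
  generalize hE0 : hdE R = E at g1 g4 g5 hr
  obtain ⟨ep, en, eb⟩ := E
  have hoff : r = rv (w3 z1 z2 z3) B 9 (1 :: D) ep - rv (w3 z1 z2 z3) B 9 (1 :: D) en := RV.digits hr g1
  rw [rv_cons kit.len, rv_cons kit.len] at hoff
  obtain ⟨l, hl1, hl2⟩ := nar_ok kit (W := 2 ^ ws) (B := B) (be := be) (oe := oe) hS n _ _ D hl hD g4
  obtain ⟨a1, a2⟩ := rowT_ok (K := 9) hv (le_refl (9 * n)) (x := dg) g2
  have hq1 : 2 ^ (q - 1) ≤ 2 ^ q := Nat.pow_le_pow_right (by norm_num) (by omega)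
  have key := goV_ok kit (Bc := 2 ^ (q - 1)) hS hv (by rw [r1]; exact hq1) (W1 := W1) (cp := dgs B 9 (ep % B ^ 9))
    (cm := dgs B 9 (en % B ^ 9)) (dgs_length _ _) (dgs_length _ _) (o := o) (fun k xa xb xd xe xf eb hk hrow db dd D' r'
      hl' hD' hr' heb x hx hx' => by
      rw [r2, r3]
      rw [r1] at hr'
      refine rowV_ok (vcc_ok B oe (by omega) r5') (by rw [r1]; exact vcc_okg r6' (by omega) r7') r8' r9' z1 z2 z3
        (n := n) (by omega) ?_ db dd hl' hD' hr' heb hx hx'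
      rw [← r1]
      exact hrow) htg (fun _ _ h => h) hsp n (tlE R) dt _ 0 dg 0 0 be
    D l 0 z' g5 (le_refl _) hl hD hl1 g3 hz' a1 a2 (RV.mono RV.zero (Nat.zero_le _))
  rw [hzz, hoff]
  have hl2' : S * (l - (oe * ip (w3 z1 z2 z3) (List.replicate 9 1) + ip (w3 z1 z2 z3) sv3) * D.sum)
      ≤ rv (w3 z1 z2 z3) B 9 D (ep / B ^ 9) - rv (w3 z1 z2 z3) B 9 D (en / B ^ 9) := hl2
  generalize ip (w3 z1 z2 z3) (List.replicate 9 1) = i1 at key hl2'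
  push_cast at key ⊢
  linarith

end Pool.Agent.FPX.PLK
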