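import Pool.Agent.FPX.PLD
import Pool.Agent.FPX.PLB
/-!
PLA (helper1). Certificates with the vectorised test: `CY.fast4`, theorem `certF4`; with free squares `CQ.chk4`,
theorem `certQ4`.
-/
set_option autoImplicit false

noncomputable section

namespace Pool.Agent.FPX.PLK

open List (Forall₂)

/-- the complete test with a further table, three components -/
def CY.fstG (D : CY) (E : Eng 9 (Cx × Cx × Cx)) (X : List PV)
    (fin : List PV → ℕ → List (ℕ × ℕ × ℕ) → Bool) : Bool :=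
  let st := D.st
  let C := Nat.pow D.B 9
  let CN := Nat.pow (Nat.pow 2 D.ws) 9
  let n := Nat.add st.N st.M
  let hh := addZ st.Ls st.Hs
  let hn := hh.map fun x => -x
  let es := hh.map fun x => 2 * x
  let hs := hh.map Int.toNat
  let x0 := PN.nrm (PN.ad st.Ls.sum ⟨0, 0⟩)
  let rs := rhos x0 st.Ls
  let κN := Nat.mul 2 (Int.toNat st.κ)
  let F := st.F.map fun q => (ofZ D.B q.1, q.2)
  let s := runS C es (srs E.O (2 * st.κ) st.Ls.sum st.Ls (locP E.O F))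
  let G := sumG D.B C D.W2 (Nat.pow D.W2 6) D.o2 st.L.length (D.gs.map fun x => Nat.div x D.tag)
  let g2 := Nat.div D.g 2
  let L := st.L.map (rowL κN x0 rs hs)
  let P := st.P.map (rowL κN x0 rs hs)
  let Cc := st.C.map fun r => r.map (ofZ D.B)
  let j := jn D.tag (Nat.pow 2 D.pb)
  let ps := D.ps.map fun q => (j q.1, j q.2)
  Nat.beq st.Ls.length st.N && (Nat.beq st.Hs.length st.N && ((st.F.all fun q => Nat.beq q.1.length 9) &&
    ((st.C.all fun r => r.all fun c => Nat.beq c.length 9) && ((st.T.all fun r => r.all fun c => Nat.beq c.length 9) &&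
    (fitT (Nat.succ n) st.T && ((st.L.all fun q => Nat.ble q.2.length (Nat.succ st.M)) &&
    ((st.P.all fun q => Nat.ble q.2.length (Nat.succ st.M)) && (lenOk st.N F && (decide (0 < st.κ) &&
    (Nat.ble (Nat.succ (tabM C hn s).b) D.B && (sbT D.B C g2 L Cc G L && (Nat.ble 1 D.W2 &&
    (prodU E.tc E.f D.B C CN n P ps &&
    fin
      (addT X (addT (addT (tabS C hn s) (sbF C g2 L Cc G L))
        (addT (st.T.map (pkR D.B C)) (prodL E.f C CN n P ps))))
      (j D.dg) (D.dt.map fun q => (j q.1, j q.2.1, j q.2.2)))))))))))))))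

theorem certFG {D : CY} {X : List PV} {E : Eng 9 (Cx × Cx × Cx)} {z1 z2 z3 : ℂ} (H : Rl E.O (RV D.B 9 (w3 z1 z2 z3)))
    {fin : List PV → ℕ → List (ℕ × ℕ × ℕ) → Bool}
    (hfin : ∀ R dg dt, fin R dg dt = true → ∀ (θ : List ℝ) (z : ℝ), θ.length = D.st.N + D.st.M → Box θ →
      TV D.B 9 (w3 z1 z2 z3) R (1 :: θ) z → 0 ≤ z)
    {g : ℕ → ℝ} (hf : ∀ c, RV D.B 9 (w3 z1 z2 z3) (E.f c) (g c)) (htc : ∀ c, E.tc c = true → 0 ≤ g c)
    (hX : ∀ θ : List ℝ, θ.length = D.st.N + D.st.M → ∃ t, TV D.B 9 (w3 z1 z2 z3) X (1 :: θ) t ∧ t ≤ 0)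
    (h : D.fstG E X fin = true) : D.st.Good (w3 z1 z2 z3) := by
  have kit := kit3 z1 z2 z3
  intro x τ hx
  simp only [CY.fstG, Bool.and_eq_true, List.all_eq_true, Nat.ble_eq, decide_eq_true_eq] at h
  obtain ⟨p1, p2, p3, p4, p5, p6, p7, p8, p9, p10, p11, p12, pW, p13, p14⟩ := h
  have q1 := Nat.eq_of_beq_eq_true p1
  have q2 := Nat.eq_of_beq_eq_true p2
  have hbd := bd_nds D.st.N D.st.Ls D.st.Hs x q1 q2 hx.lo hx.hi
  obtain ⟨θ, hb, hI⟩ := ex_inc hbd
  have hnn := bd_nonneg hbd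
  obtain ⟨l1, l2⟩ := inc_par D.st.N D.st.Ls D.st.Hs θ x q1 q2 hI
  refine ⟨θ, ⟨l1, hb, l2⟩, ?_⟩
  obtain ⟨i1, i2⟩ := inc_len hI
  generalize hhd : addZ D.st.Ls D.st.Hs = hh at hI p11 p12 p13 p14 i1 hnn
  have hs := inc_sum hI 0
  rw [nds_last, nds_headI, hx.anti] at hs
  have h0 : 2 * (D.st.κ : ℝ) * (nds x D.st.N).headI = (D.st.Ls.sum : ℤ) + -lz hh θ := by
    rw [hs, nds_headI]
    ring
  have hDl : (θ ++ τ).length = D.st.N + D.st.M := by
    rw [List.length_append, l1, hx.len]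
  have hD : Box (θ ++ τ) := by
    intro d hd
    rcases List.mem_append.1 hd with hd | hd
    · exact hb d hd
    · exact hx.box d hd
  obtain ⟨tX, hX1, hX2⟩ := hX (θ ++ τ) hDl
  -- the rows of the linear forms
  have hxz : (PN.nrm (PN.ad D.st.Ls.sum ⟨0, 0⟩)).z = D.st.Ls.sum := by
    rw [PN.nrm_z, PN.ad_z]
    simp [PN.z]
  have hκ : ((Nat.mul 2 (Int.toNat D.st.κ) : ℕ) : ℤ) = 2 * D.st.κ := by
    change ((2 * D.st.κ.toNat : ℕ) : ℤ) = _
    rw [Nat.cast_mul, Int.toNat_of_nonneg p10.le]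
    rfl
  have hR : ∀ q, rowL (Nat.mul 2 (Int.toNat D.st.κ)) (PN.nrm (PN.ad D.st.Ls.sum ⟨0, 0⟩))
      (rhos (PN.nrm (PN.ad D.st.Ls.sum ⟨0, 0⟩)) D.st.Ls) (hh.map Int.toNat) q
      = (rowE (2 * D.st.κ) D.st.Ls.sum D.st.Ls (hh.map fun x => 2 * x) (hh.map fun x => -x) q).map pkZ := by
    intro q
    rw [rowL_eq _ _ _ _ _ (by rw [List.length_map, i1, ← i2]), toNat_map hh hnn, hxz, hκ]
  have hRm : ∀ l : List (List A3 × List ℤ), l.map (rowL (Nat.mul 2 (Int.toNat D.st.κ))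
      (PN.nrm (PN.ad D.st.Ls.sum ⟨0, 0⟩)) (rhos (PN.nrm (PN.ad D.st.Ls.sum ⟨0, 0⟩)) D.st.Ls) (hh.map Int.toNat))
      = (l.map (rowE (2 * D.st.κ) D.st.Ls.sum D.st.Ls (hh.map fun x => 2 * x) (hh.map fun x => -x))).map
        fun l => l.map pkZ := by
    intro l
    rw [List.map_map]
    exact List.map_congr_left fun q _ => hR q
  rw [hRm] at p12 p13 p14
  rw [hRm] at p14
  -- chain part
  have hF : Forall₂ (fun (q : PV × List (P6 ℤ)) (q' : ℝ × List (P6 ℤ)) => RV D.B 9 (w3 z1 z2 z3) q.1 q'.1 ∧ q.2 = q'.2)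
      (D.st.F.map fun q => (ofZ D.B q.1, q.2)) (D.st.F.map fun q => (iz (w3 z1 z2 z3) q.1, q.2)) := by
    rw [List.forall₂_map_left_iff, List.forall₂_map_right_iff]
    refine List.forall₂_same.2 fun q hq => ⟨ofZ_ok (Nat.eq_of_beq_eq_true (p3 q hq)), rfl⟩
  have hps := srs_par H (2 * D.st.κ) D.st.Ls.sum D.st.Ls (locP_par H hF)
  have hlF : (locP OR (D.st.F.map fun q => (iz (w3 z1 z2 z3) q.1, q.2))).length = D.st.N := by
    have hne : (D.st.F.map fun q => (ofZ D.B q.1, q.2)) ≠ [] := by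
      intro h
      rw [h] at p9
      simp [lenOk] at p9
    have hall : ∀ q ∈ (D.st.F.map fun q => (ofZ D.B q.1, q.2)), q.2.length = D.st.N := by
      intro q hq
      generalize (D.st.F.map fun q => (ofZ D.B q.1, q.2)) = F at p9 hq
      cases F with
      | nil => simp at hq
      | cons a F =>
        simp only [lenOk, List.all_eq_true] at p9
        exact Nat.eq_of_beq_eq_true (p9 q hq)
    rw [← locP_length E.O D.st.N hall hne]
    exact (locP_par H hF).length_eq.symm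
  have hsl : (srs OR (2 * D.st.κ) D.st.Ls.sum D.st.Ls (locP OR (D.st.F.map fun q => (iz (w3 z1 z2 z3) q.1, q.2)))).length
      = θ.length := by
    rw [srs_length _ _ _ _ _ (by rw [hlF, q1]), i2]
  have t1 := tabS_ok kit.len (τ := τ) (e := hh.map fun x => 2 * x) (hn := hh.map fun x => -x) hps
    (by rw [List.length_map, i1]) hsl (by rw [List.length_map, i1]) p11
  rw [lz_neg, sum6_srs hI h0, sum6_locP] at t1
  -- linear forms
  have hrow : ∀ q, lz (rowE (2 * D.st.κ) D.st.Ls.sum D.st.Ls (hh.map fun x => 2 * x) (hh.map fun x => -x) q)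
      (1 :: (θ ++ τ)) = (2 * D.st.κ : ℝ) * D.st.lf x τ q := by
    intro q
    rw [rowE_ok hI h0 q, sum3_nds]
    rfl
  have hlen : ∀ q : List A3 × List ℤ, q.2.length ≤ D.st.M + 1 →
      (rowE (2 * D.st.κ) D.st.Ls.sum D.st.Ls (hh.map fun x => 2 * x) (hh.map fun x => -x) q).length
        ≤ D.st.N + D.st.M + 1 := by
    intro q hq
    have := rowE_length hI (M := D.st.M) hq
    rw [l1] at this
    exact this
  have hC : Forall₂ (Forall₂ (RV D.B 9 (w3 z1 z2 z3))) (D.st.C.map fun r => r.map (ofZ D.B))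
      (D.st.C.map fun r => r.map (iz (w3 z1 z2 z3))) := by
    rw [List.forall₂_map_left_iff, List.forall₂_map_right_iff]
    refine List.forall₂_same.2 fun r hr => ?_
    rw [List.forall₂_map_left_iff, List.forall₂_map_right_iff]
    exact List.forall₂_same.2 fun c hc => ofZ_ok (Nat.eq_of_beq_eq_true (p4 r hr c hc))
  have hLl : ∀ l ∈ D.st.L.map (rowE (2 * D.st.κ) D.st.Ls.sum D.st.Ls (hh.map fun x => 2 * x) (hh.map fun x => -x)),
      l.length ≤ (1 :: (θ ++ τ)).length := by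
    intro l hl
    obtain ⟨q, hq, rfl⟩ := List.mem_map.1 hl
    rw [List.length_cons, hDl]
    exact hlen q (p7 q hq)
  obtain ⟨q, q0, hq⟩ := sumG_ok (B := D.B) (Y := vals (D.st.L.map (rowE (2 * D.st.κ) D.st.Ls.sum D.st.Ls
    (hh.map fun x => 2 * x) (hh.map fun x => -x))) (1 :: (θ ++ τ))) (z1 := z1) (z2 := z2) (z3 := z3) (W := D.W2)
    pW (Nat.pow D.W2 6) D.o2 (D.gs.map fun x => Nat.div x D.tag)
  have hvl : (vals (D.st.L.map (rowE (2 * D.st.κ) D.st.Ls.sum D.st.Ls (hh.map fun x => 2 * x)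
      (hh.map fun x => -x))) (1 :: (θ ++ τ))).length = D.st.L.length := by
    simp [vals]
  rw [hvl] at hq
  have t2 := sbF_ok kit.len hLl (Nat.div D.g 2) _ _ _ _ q hC hq hLl p12
  have e2 : vals (D.st.L.map (rowE (2 * D.st.κ) D.st.Ls.sum D.st.Ls (hh.map fun x => 2 * x) (hh.map fun x => -x)))
      (1 :: (θ ++ τ)) = (D.st.L.map (D.st.lf x τ)).map fun y => (2 * D.st.κ : ℝ) * y := by
    unfold vals
    rw [List.map_map, List.map_map]
    exact List.map_congr_left fun q _ => hrow q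
  rw [e2, qv_scale] at t2
  -- table
  have t3 := pkT_ok (B := D.B) kit.len D.st.T (1 :: (θ ++ τ)) (fun r hr c hc => Nat.eq_of_beq_eq_true (p5 r hr c hc))
    (by rw [List.length_cons, hDl]; exact p6)
  -- products
  obtain ⟨z, t4, hz⟩ := prodL_ok kit.len hf htc ((2 ^ D.ws) ^ 9) (D.st.N + D.st.M) hDl hD
    (D.st.P.map (rowE (2 * D.st.κ) D.st.Ls.sum D.st.Ls (hh.map fun x => 2 * x) (hh.map fun x => -x)))
    (D.ps.map fun q => (jn D.tag (Nat.pow 2 D.pb) q.1, jn D.tag (Nat.pow 2 D.pb) q.2))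
    (fun q hq => by
      obtain ⟨r, hr, rfl⟩ := List.mem_map.1 hq
      exact hlen r (p8 r hr)) (fun q hq => by
      obtain ⟨r, hr, rfl⟩ := List.mem_map.1 hq
      rw [hrow]
      have h1 := hx.pos r hr
      have h2 : (0 : ℝ) < D.st.κ := by exact_mod_cast p10
      positivity) p13
  have key := hfin _ _ _ p14 _ _ hDl hD (TV.add hX1 (TV.add (TV.add t1 t2) (TV.add t3 t4)))
  have hg : (0 : ℝ) ≤ (Nat.div D.g 2 : ℕ) * q := mul_nonneg (Nat.cast_nonneg _) q0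
  unfold ST.val
  simp only [List.map_map, Function.comp_def, sum6_nds] at key
  linarith

/-- the test of the table -/
def CY.finV (D : CY) : List PV → ℕ → List (ℕ × ℕ × ℕ) → Bool :=
  PLK.finV D.E3.tg D.E3.sp D.ws D.v D.B D.S D.o D.oe D.be D.W1 (Nat.add D.st.N D.st.M)

theorem CY.finV_ok (D : CY) (z1 z2 z3 : ℂ) : ∀ R dg dt, D.finV R dg dt = true → ∀ (θ : List ℝ) (z : ℝ),
    θ.length = D.st.N + D.st.M → Box θ → TV D.B 9 (w3 z1 z2 z3) R (1 :: θ) z → 0 ≤ z :=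
  fun _ _ _ h _ _ hl hD hz => PLK.finV_ok z1 z2 z3 (fun _ _ _ _ _ h => h) (fun x => sp9_eq _ _ x) h hl hD hz

theorem CY.f_ok (D : CY) (z1 z2 z3 : ℂ) (h : D.o ≤ 2 ^ D.ws) (c : ℕ) : RV D.B 9 (w3 z1 z2 z3) (D.E3.f c)
    (D.S1 * (ip (w3 z1 z2 z3) (dgs (2 ^ D.ws) 9 c) - D.o * ip (w3 z1 z2 z3) (List.replicate 9 1))) := by
  have := dec_val (B := D.B) (K := 9) (S := D.S1) (w := w3 z1 z2 z3) (show 0 < 2 ^ D.ws by positivity) h c
  rw [← sp9_eq] at this
  exact this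

theorem CY.tc_ok (D : CY) (z1 z2 z3 : ℂ) (c : ℕ) (hc : D.E3.tc c = true) :
    0 ≤ (D.S1 : ℝ) * (ip (w3 z1 z2 z3) (dgs (2 ^ D.ws) 9 c) - D.o * ip (w3 z1 z2 z3) (List.replicate 9 1)) := by
  have h1 := (kit3 z1 z2 z3).sound (dgs (2 ^ D.ws) 9 c) (List.replicate 9 D.o) (dgs_length _ _) (by simp) hc
  rw [ip_rep D.o] at h1
  exact mul_nonneg (Nat.cast_nonneg _) (by linarith)

/-- the complete test, three components -/
def CY.fast4 (D : CY) : Bool := Nat.ble D.o (Nat.pow 2 D.ws) && D.fstG D.E3 [] D.finV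

/-- **certificate with three components** -/
theorem certF4 {D : CY} (h : D.fast4 = true) (z1 z2 z3 : ℂ) : D.st.Good (w3 z1 z2 z3) := by
  simp only [CY.fast4, Bool.and_eq_true, Nat.ble_eq] at h
  exact certFG (rl3 D.B z1 z2 z3) (D.finV_ok z1 z2 z3) (D.f_ok z1 z2 z3 h.1) (D.tc_ok z1 z2 z3)
    (fun θ _ => ⟨0, by simp [TV], le_refl _⟩) h.2

/-- the complete test with free squares -/
def CQ.chk4 (D : CQ) : Bool :=
  Nat.ble 1 D.o3 && (Nat.ble 1 D.qs.length &&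
    (Nat.ble (Nat.succ (Nat.mul 432 (Nat.mul D.qs.length (Nat.mul D.o3 D.o3)))) D.c.B &&
    (Nat.ble D.c.o (Nat.pow 2 D.c.ws) && D.c.fstG D.c.E3 D.tab D.c.finV)))

/-- **certificate with free squares, three components** -/
theorem certQ4 {D : CQ} (h : D.chk4 = true) (z1 z2 z3 : ℂ) : D.c.st.Good (w3 z1 z2 z3) := by
  simp only [CQ.chk4, Bool.and_eq_true, Nat.ble_eq] at h
  obtain ⟨h1, h2, h3, h4, h5⟩ := h
  refine certFG (rl3 D.c.B z1 z2 z3) (D.c.finV_ok z1 z2 z3) (D.c.f_ok z1 z2 z3 h4) (D.c.tc_ok z1 z2 z3)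
    (fun θ hθ => ?_) h5
  unfold CQ.tab
  refine frG_ok (Nat.div D.g3 2) D.o3 _ (fun x => qdg_ok h1 _ _ x) _ h1 (by rw [List.length_map]; exact h2) ?_ ?_
  · rw [List.length_map]
    exact h3
  · rw [List.length_cons, hθ]
    rfl

end Pool.Agent.FPX.PLK
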