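import Pool.Agent.FPX.NCW
import Pool.Agent.FPX.PLA
/-!
NWT (helper59). The table and the base forms of the record NW, packed directly: `NW.fT`, `NW.fP` and the two facts
`fT_ok`, `fP_ok` which the engine needs. The weights `K_i` of the cells are computed as one packed coefficient each, the
rows of the table by a window of four variables; the three cells at the ends are added one by one.
-/
set_option autoImplicit false
noncomputable section
namespace Pool.Agent.FPX.NCD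
open Pool.Agent.FPX.PLK
open Pool.Agent.FPX.CAT
open List (Forall₂)

/-- two harmonics added to the list of the cells -/
def addK (q r : PV) : List (ℤ × ℤ) → List PV → List PV
  | (c, s) :: t, x :: xs => PV.add x (PV.add (PV.sm c q) (PV.sm s r)) :: addK q r t xs
  | [], xs => xs
  | _, [] => []

/-- all harmonics -/
def kxL (B : ℕ) (zN : ℤ) : ℕ → List (List (ℤ × ℤ)) → List (List ℤ) → List PV → List PV
  | 0, _, _, acc => acc
  | h + 1, ts, qs, acc => kxL B zN h ts.tail.tail qs.tail.tail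
      (addK (PV.sm zN (ofZ B (qs.headD []))) (PV.sm zN (ofZ B (qs.tail.headD []))) (ts.headD []) acc)

/-- the weights of the cells -/
def NW.kx (D : NW) (B : ℕ) : List PV :=
  kxL B D.toND.zN D.h D.G.t.tail.tail D.Q.tail (List.replicate D.toND.N (PV.sm D.toND.zS (ofZ B (D.Q.headD []))))

/-- entry added at row `a` -/
def adA (v : PV) (a : ℕ) : List PV → List PV :=
  Nat.rec (motive := fun _ => List PV → List PV) (fun xs => PV.add (hdE xs) v :: tlE xs)
    (fun _ ih xs => hdE xs :: ih (tlE xs)) a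

/-- shift by `k` chunks -/
def PV.shn (C k : ℕ) : PV → PV
  | ⟨p, n, b⟩ => ⟨Nat.mul (Nat.pow C k) p, Nat.mul (Nat.pow C k) n, b⟩

/-- the opposite -/
def PV.neg : PV → PV
  | ⟨p, n, b⟩ => ⟨n, p, b⟩

/-- `v` added at the product of the variables `a`, `b` -/
def adS (C a b : ℕ) (v : PV) (xs : List PV) : List PV :=
  if a ≤ b then adA (PV.shn C (b - a) v) a xs else adA (PV.shn C (a - b) v) b xs

/-- `v` times the product of two factors added -/
def exA (C : ℕ) (f g : Bool × ℕ) (v : PV) (xs : List PV) : List PV :=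
  match f.1, g.1 with
  | false, false => adS C (f.2 + 1) (g.2 + 1) v xs
  | true, false => adS C 0 (g.2 + 1) v (adS C (f.2 + 1) (g.2 + 1) (PV.neg v) xs)
  | false, true => adS C 0 (f.2 + 1) v (adS C (f.2 + 1) (g.2 + 1) (PV.neg v) xs)
  | true, true => adS C 0 0 v (adS C 0 (f.2 + 1) (PV.neg v) (adS C 0 (g.2 + 1) (PV.neg v)
      (adS C (f.2 + 1) (g.2 + 1) v xs)))

/-- the products of the cell `i` added -/
def NW.ce (D : NW) (C : ℕ) (f : Bool) (i : ℕ) (v : PV) (xs : List PV) : List PV :=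
  (fun a b c d (k : ℤ) => exA C a b (PV.sm ((4096 - 2 * k) * D.toNH.hp a b) v)
    (exA C b c (PV.sm ((4096 - 16 * k) * D.toNH.hp b c) v)
      (exA C a d (PV.sm ((4096 - 16 * k) * D.toNH.hp a d) v)
        (if D.kk i = 0 then xs else exA C a a (PV.sm (k * D.toNH.hp a a) v) (exA C b b (PV.sm (k * D.toNH.hp b b) v) xs)))))
   (fx D.toND.N f (i + D.toND.N - 1)) (fx D.toND.N f (i + D.toND.N)) (fx D.toND.N f (i + D.toND.N - 2))
   (fx D.toND.N f (i + D.toND.N + 1)) (D.kk i)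

/-- the table of the cell `i` added -/
def NW.cf (D : NW) (C i : ℕ) (v : PV) (xs : List PV) : List PV :=
  match D.Z.ty.getD i 0 with
  | 0 => xs
  | 1 => D.ce C false i v xs
  | _ => D.ce C true i v xs

/-- coefficient of the variance -/
def NW.vk (D : NW) (B : ℕ) (x : PV) (p : List ℤ) : PV :=
  PV.sm (256 * D.toND.zS) (PV.add x (PV.sm (-(D.U : ℤ)) (ofZ B p)))

/-- state: constant, linear form, rows of the variables from the window on -/
structure MS where
  c : PV
  l : PV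
  r : List PV

/-- the five products of a cell with both variance bounds added -/
def MS.st (C : ℕ) (f : Bool) (vab vbc vad vaa vbb : PV) (s : MS) : MS :=
  ⟨match f with
    | false => s.c
    | true => PV.add (PV.add (PV.add vab vbc) (PV.add vad (PV.add vaa vbb))) s.c,
   match f with
    | false => PV.sh C s.l
    | true => PV.add (PV.cons C (PV.neg vbc) (PV.cons C (PV.neg (PV.add (PV.add vab vad) (PV.add vaa vaa)))
        (PV.cons C (PV.neg (PV.add (PV.add vab vbc) (PV.add vbb vbb))) (PV.neg vad)))) (PV.sh C s.l),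
   PV.shn C 2 vbc :: PV.add (PV.cons C vaa (PV.cons C vab vad)) (hdE s.r) ::
    PV.add vbb (hdE (tlE s.r)) :: tlE (tlE s.r)⟩

/-- a cell in the middle -/
def MS.go (C t k : ℕ) (h2 h1 h0 h3 : ℤ) (v : PV) (s : MS) : MS :=
  match t with
  | 0 => ⟨s.c, PV.sh C s.l, ⟨0, 0, 0⟩ :: s.r⟩
  | t + 1 => MS.st C (match t with | 0 => false | _ + 1 => true) (PV.sm ((16384 - 8 * (k : ℤ)) * (h1 * h0)) v)
      (PV.sm ((16384 - 64 * (k : ℤ)) * (h0 * h2)) v) (PV.sm ((16384 - 64 * (k : ℤ)) * (h1 * h3)) v)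
      (PV.sm ((4 * (k : ℤ)) * (h1 * h1)) v) (PV.sm ((4 * (k : ℤ)) * (h0 * h0)) v) s

/-- the cells in the middle -/
def NW.mid (D : NW) (B C : ℕ) : ℤ → ℤ → ℤ → List ℤ → List PV → List ℕ → List ℕ → List (List ℤ) → MS
  | h2, h1, h0, h3 :: hs, xs, ty, lam, ps => MS.go C (ty.headD 0) (lam.headD 0) h2 h1 h0 h3
      (D.vk B (hdE xs) (ps.headD [])) (D.mid B C h1 h0 h3 hs (tlE xs) ty.tail lam.tail ps.tail)
  | _, _, _, [], _, _, _, _ => ⟨⟨0, 0, 0⟩, ⟨0, 0, 0⟩, []⟩

/-- sums of the bounds -/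
def hsL : ℕ → List ℕ → List ℕ → List ℤ
  | 0, _, _ => []
  | n + 1, a, b => (((a.headD 0 : ℕ) : ℤ) + ((b.headD 0 : ℕ) : ℤ)) :: hsL n a.tail b.tail

/-- the table of the cells in the middle -/
def NW.midT (D : NW) (B C : ℕ) (xs : List PV) : List ℤ → List PV
  | h2 :: h1 :: h0 :: hs => (fun s : MS => PV.cons C s.c s.l :: s.r)
      (D.mid B C h2 h1 h0 hs (tlE (tlE xs)) D.Z.ty.tail.tail D.lam.tail.tail D.PP.tail.tail)
  | _ => []

/-- **the fast table** -/
def NW.fT (D : NW) (B : ℕ) : List PV :=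
  (fun (C : ℕ) (xs : List PV) (n : ℕ) => D.cf C n (D.vk B (xs.getD n ⟨0, 0, 0⟩) (D.toNH.pp n))
      (D.cf C 1 (D.vk B (hdE (tlE xs)) (D.toNH.pp 1)) (D.cf C 0 (D.vk B (hdE xs) (D.toNH.pp 0))
        (D.midT B C xs (hsL D.toND.N D.Z.lb D.Z.hb))))) (Nat.pow B 9) (D.kx B) (D.toND.N - 1)

/-- lengths of the coefficients -/
def NW.shT (D : NW) : Bool :=
  Nat.ble 3 D.toND.N && ((D.Q.all fun l => Nat.beq l.length 9) && D.PP.all fun l => Nat.beq l.length 9)

/-! ### soundness -/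

section sound

variable {B K : ℕ} {w : List ℝ}

theorem ofZ_ok' {l : List ℤ} (h : l = [] ∨ l.length = K) : RV B K w (ofZ B l) (iz w l) := by
  rcases h with rfl | h
  · have e : ofZ B [] = ⟨0, 0, 0⟩ := rfl
    rw [e, iz_nil]
    exact RV.zero
  · exact ofZ_ok h

theorem RV.neg {v : PV} {s : ℝ} (h : RV B K w v s) : RV B K w (PV.neg v) (-s) := h.swap

theorem addK_ok {q r : PV} {Q R : ℝ} (hq : RV B K w q Q) (hr : RV B K w r R) :
    ∀ (t : List (ℤ × ℤ)) (xs : List PV) (X : ℕ → ℝ), (∀ j x, xs[j]? = some x → RV B K w x (X j)) →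
      (addK q r t xs).length = xs.length ∧ ∀ j x, (addK q r t xs)[j]? = some x →
        RV B K w x (X j + ((t.getD j (0, 0)).1 * Q + (t.getD j (0, 0)).2 * R))
  | (c, s) :: t, x :: xs, X, h => by
    obtain ⟨i1, i2⟩ := addK_ok hq hr t xs (fun j => X (j + 1)) fun j y hy => h (j + 1) y (by simpa using hy)
    refine ⟨by simp [addK, i1], fun j y hy => ?_⟩
    cases j with
    | zero =>
      have : y = PV.add x (PV.add (PV.sm c q) (PV.sm s r)) := by simpa [addK] using hy.symm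
      rw [this]
      exact RV.add (h 0 x (by simp)) (RV.add (hq.sm c) (hr.sm s))
    | succ j =>
      have := i2 j y (by simpa [addK] using hy)
      simpa using this
  | [], xs, X, h => ⟨rfl, fun j y hy => by
      have := h j y hy
      simpa using this⟩
  | _ :: _, [], X, h => ⟨rfl, fun j y hy => by simp [addK] at hy⟩

theorem headD_mem {α : Type} : ∀ (l : List (List α)), l.headD [] = [] ∨ l.headD [] ∈ l
  | [] => Or.inl rfl
  | _ :: _ => Or.inr (by simp)

theorem headD_getD {α : Type} (d : α) : ∀ l : List α, l.headD d = l.getD 0 d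
  | [] => rfl
  | _ :: _ => rfl

theorem tail_getD {α : Type} (d : α) : ∀ (l : List α) (n : ℕ), l.tail.getD n d = l.getD (n + 1) d
  | [], _ => rfl
  | _ :: _, _ => by simp

theorem kxL_ok {zN : ℤ} : ∀ (h : ℕ) (ts : List (List (ℤ × ℤ))) (qs : List (List ℤ)) (acc : List PV) (X : ℕ → ℝ),
    (∀ q ∈ qs, q.length = K) → (∀ j x, acc[j]? = some x → RV B K w x (X j)) →
      (kxL B zN h ts qs acc).length = acc.length ∧ ∀ j x, (kxL B zN h ts qs acc)[j]? = some x →
        RV B K w x (X j + ∑ m ∈ Finset.range h, (((ts.getD (2 * m) []).getD j (0, 0)).1 * (zN * iz w (qs.getD (2 * m) []))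
          + ((ts.getD (2 * m) []).getD j (0, 0)).2 * (zN * iz w (qs.getD (2 * m + 1) []))))
  | 0, ts, qs, acc, X, hq, ha => ⟨rfl, fun j x hx => by
      have := ha j x hx
      simpa [kxL] using this⟩
  | h + 1, ts, qs, acc, X, hq, ha => by
    have q1 : qs.headD [] = [] ∨ (qs.headD []).length = K := (headD_mem qs).imp_right fun h => hq _ h
    have q2 : qs.tail.headD [] = [] ∨ (qs.tail.headD []).length = K :=
      (headD_mem qs.tail).imp_right fun h => hq _ (List.mem_of_mem_tail h)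
    obtain ⟨i1, i2⟩ := addK_ok (RV.sm (ofZ_ok' (B := B) (w := w) q1) zN) (RV.sm (ofZ_ok' (B := B) (w := w) q2) zN)
      (ts.headD []) acc X ha
    obtain ⟨j1, j2⟩ := kxL_ok h ts.tail.tail qs.tail.tail _ _
      (fun q hq' => hq q (List.mem_of_mem_tail (List.mem_of_mem_tail hq'))) i2
    refine ⟨by rw [kxL, j1, i1], fun j x hx => ?_⟩
    rw [kxL] at hx
    have h1 := j2 j x hx
    rw [Finset.sum_range_succ']
    simp only [tail_getD, headD_getD] at h1
    have e : ∀ m, 2 * m + 1 + 1 = 2 * (m + 1) := fun m => by ring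
    simp only [e, Nat.mul_zero, Nat.zero_add] at h1 ⊢
    rw [add_comm (∑ m ∈ Finset.range h, _) _, ← add_assoc]
    exact h1

/-- the packed weights -/
theorem kx_ok {D : NW} (hQ : ∀ q ∈ D.Q, q.length = 9) (w : List ℝ) (B : ℕ) :
    (D.kx B).length = D.toND.N ∧ ∀ j x, (D.kx B)[j]? = some x → RV B 9 w x (iz w (D.toND.Kx j)) := by
  have q0 : D.Q.headD [] = [] ∨ (D.Q.headD []).length = 9 := (headD_mem D.Q).imp_right fun h => hQ _ h
  obtain ⟨i1, i2⟩ := kxL_ok (B := B) (w := w) (zN := D.toND.zN) D.h D.G.t.tail.tail D.Q.tail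
    (List.replicate D.toND.N (PV.sm D.toND.zS (ofZ B (D.Q.headD []))))
    (fun _ => D.toND.zS * iz w (D.Q.headD [])) (fun q hq => hQ q (List.mem_of_mem_tail hq)) (fun j x hx => by
      have hx' : x ∈ List.replicate D.toND.N (PV.sm D.toND.zS (ofZ B (D.Q.headD []))) := List.mem_of_getElem? hx
      rw [List.eq_of_mem_replicate hx']
      exact RV.sm (ofZ_ok' q0) _)
  refine ⟨by rw [NW.kx, i1, List.length_replicate], fun j x hx => ?_⟩
  have h1 := i2 j x hx
  have e : iz w (D.toND.Kx j) = (D.toND.zS : ℝ) * iz w (D.Q.headD []) + ∑ m ∈ Finset.range D.h,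
      (((D.G.t.tail.tail.getD (2 * m) []).getD j (0, 0)).1 * (D.toND.zN * iz w (D.Q.tail.getD (2 * m) []))
        + ((D.G.t.tail.tail.getD (2 * m) []).getD j (0, 0)).2 * (D.toND.zN * iz w (D.Q.tail.getD (2 * m + 1) []))) := by
    rw [iz_Kx]
    unfold ND.R
    rw [NCG.sum_pairs fun k => iz w (D.Q.getD k []) * (D.toND.gri k j : ℝ)]
    congr 1
    · unfold ND.gri
      rw [headD_getD]
      simp only [if_true]
      ring
    · refine Finset.sum_congr rfl fun m _ => ?_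
      unfold ND.gri ND.zt
      rw [if_neg (by omega), if_pos (by omega), if_neg (by omega), if_neg (by omega)]
      simp only [tail_getD]
      have e1 : 2 * m + 1 + 1 = 2 * m + 2 := by ring
      rw [e1]
      push_cast
      ring
  rw [e]
  exact h1

/-! #### rows -/

theorem adA_ok (hw : w.length = K) {v : PV} {r : ℝ} : ∀ (a : ℕ) (xs : List PV) (D : List ℝ) (t : ℝ), a < D.length →
    TV B K w xs D t → RR B K w (D.drop a) v r → TV B K w (adA v a xs) D (t + D.getD a 0 * r)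
  | _, _, [], _, h, _, _ => by simp at h
  | 0, xs, d :: D, t, _, ht, hr => by
    obtain ⟨r0, t', h1, h2, h3⟩ := ht.split
    refine ⟨r0 + r, t', RV.add h1 hr, h2, ?_⟩
    rw [h3, List.getD_cons_zero]
    ring
  | a + 1, xs, d :: D, t, hl, ht, hr => by
    obtain ⟨r0, t', h1, h2, h3⟩ := ht.split
    have ih := adA_ok hw a (tlE xs) D t' (by simpa using hl) h2 (by simpa using hr)
    refine ⟨r0, _, h1, ih, ?_⟩
    rw [h3, List.getD_cons_succ]
    ring

theorem shn_ok (hw : w.length = K) {x : PV} {t : ℝ} : ∀ (k : ℕ) (D : List ℝ), k ≤ D.length →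
    RR B K w (D.drop k) x t → RR B K w D (PV.shn (B ^ K) k x) t
  | 0, D, _, h => by
    obtain ⟨p, n, b⟩ := x
    have e : PV.shn (B ^ K) 0 ⟨p, n, b⟩ = ⟨p, n, b⟩ := by simp [PV.shn]
    rw [e]
    simpa using h
  | k + 1, [], h, _ => by simp at h
  | k + 1, d :: D, hl, h => by
    have ih := RR.sh hw (d := d) (shn_ok hw k D (by simpa using hl) (by simpa using h))
    obtain ⟨p, n, b⟩ := x
    have e : PV.sh (B ^ K) (PV.shn (B ^ K) k ⟨p, n, b⟩) = PV.shn (B ^ K) (k + 1) ⟨p, n, b⟩ := by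
      simp only [PV.shn, PV.sh, PV.mk.injEq, Nat.mul_eq, Nat.pow_eq]
      exact ⟨by ring, by ring, trivial⟩
    rw [e] at ih
    exact ih

theorem rr_one (hw : w.length = K) {c : PV} {s d : ℝ} {D : List ℝ} (h : RV B K w c s) :
    RR B K w (d :: D) c (d * s) := by
  have h1 := RR.cons hw (d := d) h (RR.zero (B := B) (K := K) (w := w) (D := D))
  obtain ⟨p, n, b⟩ := c
  have e : PV.cons (B ^ K) ⟨p, n, b⟩ ⟨0, 0, 0⟩ = ⟨p, n, b⟩ := by
    simp only [PV.cons, PV.mk.injEq, Nat.add_eq, Nat.mul_eq, Nat.mul_zero, Nat.add_zero, true_and]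
    change b + (0 - b) = b
    omega
  rw [e] at h1
  simpa using h1

theorem rr_at (hw : w.length = K) {c : PV} {s : ℝ} (h : RV B K w c s) {b : ℕ} {D : List ℝ} (hb : b < D.length) :
    RR B K w (D.drop b) c (D.getD b 0 * s) := by
  rw [List.drop_eq_getElem_cons hb, List.getD_eq_getElem _ _ hb]
  exact rr_one hw h

theorem adS_ok (hw : w.length = K) {v : PV} {s : ℝ} (hv : RV B K w v s) {a b : ℕ} {xs : List PV} {D : List ℝ}
    {t : ℝ} (ha : a < D.length) (hb : b < D.length) (ht : TV B K w xs D t) :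
    TV B K w (adS (B ^ K) a b v xs) D (t + D.getD a 0 * D.getD b 0 * s) := by
  unfold adS
  split
  · next h =>
    have h1 : RR B K w (D.drop a) (PV.shn (B ^ K) (b - a) v) (D.getD b 0 * s) := by
      refine shn_ok hw _ _ (by rw [List.length_drop]; omega) ?_
      rw [List.drop_drop, show a + (b - a) = b by omega]
      exact rr_at hw hv hb
    have h2 := adA_ok hw a xs D t ha ht h1
    rw [← mul_assoc] at h2
    exact h2
  · next h =>
    have h1 : RR B K w (D.drop b) (PV.shn (B ^ K) (a - b) v) (D.getD a 0 * s) := by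
      refine shn_ok hw _ _ (by rw [List.length_drop]; omega) ?_
      rw [List.drop_drop, show b + (a - b) = a by omega]
      exact rr_at hw hv ha
    have h2 := adA_ok hw b xs D t hb ht h1
    rw [show D.getD a 0 * D.getD b 0 * s = D.getD b 0 * (D.getD a 0 * s) by ring]
    exact h2

theorem exA_ok (hw : w.length = K) {v : PV} {s : ℝ} (hv : RV B K w v s) {f g : Bool × ℕ} {Θ : List ℝ}
    (hf : f.2 < Θ.length) (hg : g.2 < Θ.length) {xs : List PV} {t : ℝ} (ht : TV B K w xs (1 :: Θ) t) :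
    TV B K w (exA (B ^ K) f g v xs) (1 :: Θ) (t + s * (fv Θ f * fv Θ g)) := by
  obtain ⟨f1, f2⟩ := f
  obtain ⟨g1, g2⟩ := g
  have l0 : 0 < (1 :: Θ : List ℝ).length := by simp
  have lf : f2 + 1 < (1 :: Θ : List ℝ).length := by simpa using hf
  have lg : g2 + 1 < (1 :: Θ : List ℝ).length := by simpa using hg
  cases f1 <;> cases g1
  · have h1 := adS_ok hw hv lf lg ht
    simp only [exA, fv, Bool.false_eq_true, if_false]
    simp only [List.getD_cons_succ] at h1
    rw [mul_comm s]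
    exact h1
  · have h1 := adS_ok hw hv l0 lf (adS_ok hw (RV.neg hv) lf lg ht)
    simp only [exA, fv, Bool.false_eq_true, if_false, if_true]
    simp only [List.getD_cons_succ, List.getD_cons_zero] at h1
    refine (congrArg (TV B K w _ (1 :: Θ)) ?_).mp h1
    ring
  · have h1 := adS_ok hw hv l0 lg (adS_ok hw (RV.neg hv) lf lg ht)
    simp only [exA, fv, Bool.false_eq_true, if_false, if_true]
    simp only [List.getD_cons_succ, List.getD_cons_zero] at h1
    refine (congrArg (TV B K w _ (1 :: Θ)) ?_).mp h1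
    ring
  · have h1 := adS_ok hw hv l0 l0 (adS_ok hw (RV.neg hv) l0 lf (adS_ok hw (RV.neg hv) l0 lg (adS_ok hw hv lf lg ht)))
    simp only [exA, fv, if_true]
    simp only [List.getD_cons_succ, List.getD_cons_zero] at h1
    refine (congrArg (TV B K w _ (1 :: Θ)) ?_).mp h1
    ring

/-- the products of one cell -/
theorem ce_ok {D : NW} (hw : w.length = 9) {Θ : List ℝ} (hΘ : D.toND.N ≤ Θ.length) {f : Bool} {i : ℕ}
    (hi : i < D.toND.N) {v : PV} (hv : RV B 9 w v (256 * D.toND.zS * iz w (D.toNH.Kd i))) {xs : List PV} {t : ℝ}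
    (ht : TV B 9 w xs (1 :: Θ) t) :
    TV B 9 w (D.ce (B ^ 9) f i v xs) (1 :: Θ) (t + qv (iz w) (D.vl f i) (1 :: Θ)) := by
  have la : (fx D.toND.N f (i + D.toND.N - 1)).2 < Θ.length := (fx_lt (by omega)).trans_le hΘ
  have lb : (fx D.toND.N f (i + D.toND.N)).2 < Θ.length := (fx_lt (by omega)).trans_le hΘ
  have lc : (fx D.toND.N f (i + D.toND.N - 2)).2 < Θ.length := (fx_lt (by omega)).trans_le hΘ
  have ld : (fx D.toND.N f (i + D.toND.N + 1)).2 < Θ.length := (fx_lt (by omega)).trans_le hΘ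
  unfold NW.ce NW.vl
  simp only []
  generalize fx D.toND.N f (i + D.toND.N - 1) = fa at *
  generalize fx D.toND.N f (i + D.toND.N) = fb at *
  generalize fx D.toND.N f (i + D.toND.N - 2) = fc at *
  generalize fx D.toND.N f (i + D.toND.N + 1) = fd at *
  have h0 : TV B 9 w (if D.kk i = 0 then xs else exA (B ^ 9) fa fa (PV.sm ((D.kk i : ℤ) * D.toNH.hp fa fa) v)
      (exA (B ^ 9) fb fb (PV.sm ((D.kk i : ℤ) * D.toNH.hp fb fb) v) xs)) (1 :: Θ)
      (t + qv (iz w) (if D.kk i = 0 then [] else addR OZ (tX fa fa (D.wl ((D.kk i : ℤ) * D.toNH.hp fa fa) i))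
        (tX fb fb (D.wl ((D.kk i : ℤ) * D.toNH.hp fb fb) i))) (1 :: Θ)) := by
    split
    · simpa using ht
    · have h1 := exA_ok hw (hv.sm ((D.kk i : ℤ) * D.toNH.hp fa fa)) la la
        (exA_ok hw (hv.sm ((D.kk i : ℤ) * D.toNH.hp fb fb)) lb lb ht)
      refine (congrArg (TV B 9 w _ (1 :: Θ)) ?_).mp h1
      simp only [qv_addR (evOZ w), qv_tX, iz_wl]
      ring
  have h1 := exA_ok hw (hv.sm ((4096 - 2 * (D.kk i : ℤ)) * D.toNH.hp fa fb)) la lb
    (exA_ok hw (hv.sm ((4096 - 16 * (D.kk i : ℤ)) * D.toNH.hp fb fc)) lb lc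
      (exA_ok hw (hv.sm ((4096 - 16 * (D.kk i : ℤ)) * D.toNH.hp fa fd)) la ld h0))
  refine (congrArg (TV B 9 w _ (1 :: Θ)) ?_).mp h1
  rw [qv_addR (evOZ w), qv_addR (evOZ w), qv_addR (evOZ w)]
  simp only [qv_tX, iz_wl]
  ring

/-- the table of one cell -/
theorem cf_ok {D : NW} (hw : w.length = 9) {Θ : List ℝ} (hΘ : D.toND.N ≤ Θ.length) {i : ℕ}
    (hi : i < D.toND.N) {v : PV} (hv : RV B 9 w v (256 * D.toND.zS * iz w (D.toNH.Kd i))) {xs : List PV} {t : ℝ}
    (ht : TV B 9 w xs (1 :: Θ) t) :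
    TV B 9 w (D.cf (B ^ 9) i v xs) (1 :: Θ) (t + qv (iz w) (D.th i) (1 :: Θ)) := by
  unfold NW.cf NW.th
  rcases D.Z.ty.getD i 0 with _ | _ | k
  · simpa using ht
  · exact ce_ok hw hΘ hi hv ht
  · exact ce_ok hw hΘ hi hv ht

theorem vk_ok {D : NW} {x : PV} {i : ℕ} (hx : RV B 9 w x (iz w (D.toND.Kx i))) {p : List ℤ} (h2 : p = D.toNH.pp i)
    (p0 : p = [] ∨ p.length = 9) : RV B 9 w (D.vk B x p) (256 * D.toND.zS * iz w (D.toNH.Kd i)) := by
  have h1 := RV.sm (RV.add hx (RV.sm (ofZ_ok' (B := B) (w := w) p0) (-(D.U : ℤ)))) (256 * D.toND.zS)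
  unfold NW.vk
  refine (congrArg (RV B 9 w _) ?_).mp h1
  rw [h2, iz_Kd]
  push_cast
  ring

theorem hdE_getD (xs : List PV) : hdE xs = xs.getD 0 ⟨0, 0, 0⟩ := by cases xs <;> rfl

theorem tlE_getD (xs : List PV) (n : ℕ) : (tlE xs).getD n ⟨0, 0, 0⟩ = xs.getD (n + 1) ⟨0, 0, 0⟩ := by
  cases xs <;> simp [tlE]

/-- the value of a cell in the middle -/
theorem st_ok (hw : w.length = K) {C : ℕ} (hC : C = B ^ K) (f : Bool) {vab vbc vad vaa vbb : PV} {ab bc ad aa bb : ℝ}
    (hab : RV B K w vab ab) (hbc : RV B K w vbc bc) (had : RV B K w vad ad) (haa : RV B K w vaa aa)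
    (hbb : RV B K w vbb bb) {t2 t1 t0 t3 : ℝ} {E : List ℝ} {s : MS} {c l a : ℝ} (hc : RV B K w s.c c)
    (hl : RR B K w (t1 :: t0 :: t3 :: E) s.l l) (ha : TV B K w s.r (t1 :: t0 :: t3 :: E) a) :
    ∃ c' l' a', RV B K w (s.st C f vab vbc vad vaa vbb).c c' ∧
      RR B K w (t2 :: t1 :: t0 :: t3 :: E) (s.st C f vab vbc vad vaa vbb).l l' ∧
      TV B K w (s.st C f vab vbc vad vaa vbb).r (t2 :: t1 :: t0 :: t3 :: E) a' ∧
      c' + l' + a' = c + l + a + (ab * ((if f then 1 - t1 else t1) * (if f then 1 - t0 else t0))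
        + bc * ((if f then 1 - t0 else t0) * (if f then 1 - t2 else t2))
        + ad * ((if f then 1 - t1 else t1) * (if f then 1 - t3 else t3))
        + aa * ((if f then 1 - t1 else t1) * (if f then 1 - t1 else t1))
        + bb * ((if f then 1 - t0 else t0) * (if f then 1 - t0 else t0))) := by
  subst hC
  obtain ⟨r1, a1, x1, x2, x3⟩ := ha.split
  obtain ⟨r0, a0, y1, y2, y3⟩ := x2.split
  have g2 : RR B K w (t2 :: t1 :: t0 :: t3 :: E) (PV.shn (B ^ K) 2 vbc) (t0 * bc) :=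
    shn_ok hw 2 _ (by simp) (rr_one hw hbc)
  have g1 : RR B K w (t1 :: t0 :: t3 :: E) (PV.add (PV.cons (B ^ K) vaa (PV.cons (B ^ K) vab vad)) (hdE s.r))
      ((t1 * aa + (t0 * ab + t3 * ad)) + r1) :=
    RV.add (RR.cons hw haa (RR.cons hw hab (rr_one hw had))) x1
  have g0 : RR B K w (t0 :: t3 :: E) (PV.add vbb (hdE (tlE s.r))) (t0 * bb + r0) := RV.add (rr_one hw hbb) y1
  have gT : TV B K w (s.st (B ^ K) f vab vbc vad vaa vbb).r (t2 :: t1 :: t0 :: t3 :: E)
      (t2 * (t0 * bc) + (t1 * ((t1 * aa + (t0 * ab + t3 * ad)) + r1) + (t0 * (t0 * bb + r0) + a0))) :=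
    ⟨_, _, g2, ⟨_, _, g1, ⟨_, _, g0, y2, rfl⟩, rfl⟩, rfl⟩
  cases f
  · refine ⟨c, l, _, hc, RR.sh hw hl, gT, ?_⟩
    simp only [Bool.false_eq_true, if_false]
    rw [x3, y3]
    ring
  · refine ⟨_, _, _, RV.add (RV.add (RV.add hab hbc) (RV.add had (RV.add haa hbb))) hc,
      RV.add (RR.cons hw (RV.neg hbc) (RR.cons hw (RV.neg (RV.add (RV.add hab had) (RV.add haa haa)))
        (RR.cons hw (RV.neg (RV.add (RV.add hab hbc) (RV.add hbb hbb))) (rr_one hw (RV.neg had))))) (RR.sh hw hl),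
      gT, ?_⟩
    simp only [if_true]
    rw [x3, y3]
    ring

theorem fx_mid {N i : ℕ} {f : Bool} (h : i < N) : fx N f (i + N) = (f, i) := by
  unfold fx
  rw [if_neg (by omega), if_pos (by omega)]
  simp

theorem drop4 {Θ : List ℝ} {i : ℕ} (h2 : 2 ≤ i) (h : i + 1 < Θ.length) : ∃ E, Θ.drop (i - 2)
    = Θ.getD (i - 2) 0 :: Θ.getD (i - 1) 0 :: Θ.getD i 0 :: Θ.getD (i + 1) 0 :: E ∧
      Θ.drop (i + 1 - 2) = Θ.getD (i - 1) 0 :: Θ.getD i 0 :: Θ.getD (i + 1) 0 :: E := by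
  obtain ⟨m, rfl⟩ : ∃ m, i = m + 2 := ⟨i - 2, by omega⟩
  have e1 : m + 2 - 2 = m := by omega
  have e2 : m + 2 - 1 = m + 1 := by omega
  have e3 : m + 2 + 1 - 2 = m + 1 := by omega
  rw [e1, e2, e3]
  have k : Θ.drop (m + 1) = Θ.getD (m + 1) 0 :: Θ.getD (m + 2) 0 :: Θ.getD (m + 2 + 1) 0 :: Θ.drop (m + 2 + 2) := by
    rw [List.drop_eq_getElem_cons (by omega : m + 1 < Θ.length), List.drop_eq_getElem_cons (by omega : m + 1 + 1 < Θ.length),
      List.drop_eq_getElem_cons (by omega : m + 1 + 1 + 1 < Θ.length),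
      List.getD_eq_getElem _ _ (by omega : m + 1 < Θ.length), List.getD_eq_getElem _ _ (by omega : m + 2 < Θ.length),
      List.getD_eq_getElem _ _ (by omega : m + 2 + 1 < Θ.length)]
  refine ⟨Θ.drop (m + 2 + 2), ?_, k⟩
  rw [List.drop_eq_getElem_cons (by omega : m < Θ.length), k, List.getD_eq_getElem _ _ (by omega : m < Θ.length)]

/-- the table of a cell in the middle -/
theorem vl_mid {D : NW} {f : Bool} {i : ℕ} (h2 : 2 ≤ i) (h : i + 1 < D.toND.N) (Θ : List ℝ) :
    qv (iz w) (D.vl f i) (1 :: Θ)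
      = ((16384 - 8 * (D.kk i : ℤ)) * (D.toND.hh (i - 1) * D.toND.hh i) : ℤ) * (256 * D.toND.zS * iz w (D.toNH.Kd i))
          * ((if f then 1 - Θ.getD (i - 1) 0 else Θ.getD (i - 1) 0) * (if f then 1 - Θ.getD i 0 else Θ.getD i 0))
        + ((16384 - 64 * (D.kk i : ℤ)) * (D.toND.hh i * D.toND.hh (i - 2)) : ℤ) * (256 * D.toND.zS * iz w (D.toNH.Kd i))
          * ((if f then 1 - Θ.getD i 0 else Θ.getD i 0) * (if f then 1 - Θ.getD (i - 2) 0 else Θ.getD (i - 2) 0))
        + ((16384 - 64 * (D.kk i : ℤ)) * (D.toND.hh (i - 1) * D.toND.hh (i + 1)) : ℤ)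
          * (256 * D.toND.zS * iz w (D.toNH.Kd i))
          * ((if f then 1 - Θ.getD (i - 1) 0 else Θ.getD (i - 1) 0)
            * (if f then 1 - Θ.getD (i + 1) 0 else Θ.getD (i + 1) 0))
        + ((4 * (D.kk i : ℤ)) * (D.toND.hh (i - 1) * D.toND.hh (i - 1)) : ℤ) * (256 * D.toND.zS * iz w (D.toNH.Kd i))
          * ((if f then 1 - Θ.getD (i - 1) 0 else Θ.getD (i - 1) 0)
            * (if f then 1 - Θ.getD (i - 1) 0 else Θ.getD (i - 1) 0))
        + ((4 * (D.kk i : ℤ)) * (D.toND.hh i * D.toND.hh i) : ℤ) * (256 * D.toND.zS * iz w (D.toNH.Kd i))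
          * ((if f then 1 - Θ.getD i 0 else Θ.getD i 0) * (if f then 1 - Θ.getD i 0 else Θ.getD i 0)) := by
  have f1 : fx D.toND.N f (i + D.toND.N - 1) = (f, i - 1) := by
    rw [show i + D.toND.N - 1 = (i - 1) + D.toND.N by omega]
    exact fx_mid (by omega)
  have f2 : fx D.toND.N f (i + D.toND.N) = (f, i) := fx_mid (by omega)
  have f3 : fx D.toND.N f (i + D.toND.N - 2) = (f, i - 2) := by
    rw [show i + D.toND.N - 2 = (i - 2) + D.toND.N by omega]
    exact fx_mid (by omega)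
  have f4 : fx D.toND.N f (i + D.toND.N + 1) = (f, i + 1) := by
    rw [show i + D.toND.N + 1 = (i + 1) + D.toND.N by omega]
    exact fx_mid (by omega)
  have hif : qv (iz w) (if D.kk i = 0 then [] else addR OZ
        (tX (f, i - 1) (f, i - 1) (D.wl ((D.kk i : ℤ) * D.toNH.hp (f, i - 1) (f, i - 1)) i))
        (tX (f, i) (f, i) (D.wl ((D.kk i : ℤ) * D.toNH.hp (f, i) (f, i)) i))) (1 :: Θ)
      = ((4 * (D.kk i : ℤ)) * (D.toND.hh (i - 1) * D.toND.hh (i - 1)) : ℤ) * (256 * D.toND.zS * iz w (D.toNH.Kd i))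
          * (fv Θ (f, i - 1) * fv Θ (f, i - 1))
        + ((4 * (D.kk i : ℤ)) * (D.toND.hh i * D.toND.hh i) : ℤ) * (256 * D.toND.zS * iz w (D.toNH.Kd i))
          * (fv Θ (f, i) * fv Θ (f, i)) := by
    split
    · next h0 =>
      rw [h0]
      simp
    · next h0 =>
      simp only [qv_addR (evOZ w), qv_tX, iz_wl]
      unfold NH.hp
      push_cast
      ring
  unfold NW.vl
  rw [f1, f2, f3, f4]
  simp only []
  rw [qv_addR (evOZ w), qv_addR (evOZ w), qv_addR (evOZ w), hif]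
  simp only [qv_tX, iz_wl]
  unfold NH.hp fv
  simp only []
  push_cast
  ring

theorem mid_ok {D : NW} (hw : w.length = 9) {Θ : List ℝ} (hΘ : D.toND.N ≤ Θ.length) :
    ∀ (hs : List ℤ) (i : ℕ) (h2 h1 h0 : ℤ) (xs : List PV) (ty lam : List ℕ) (ps : List (List ℤ)),
      2 ≤ i → i + 1 + hs.length = D.toND.N → h2 = D.toND.hh (i - 2) → h1 = D.toND.hh (i - 1) → h0 = D.toND.hh i →
      (∀ j, j < hs.length → hs.getD j 0 = D.toND.hh (i + 1 + j)) →
      (∀ j, i + j < D.toND.N → RV B 9 w (xs.getD j ⟨0, 0, 0⟩) (iz w (D.toND.Kx (i + j)))) →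
      (∀ j, ty.getD j 0 = D.Z.ty.getD (i + j) 0) → (∀ j, lam.getD j 0 = D.kk (i + j)) →
      (∀ j, ps.getD j [] = D.toNH.pp (i + j)) → (∀ p ∈ ps, p.length = 9) →
      ∃ c l a, RV B 9 w (D.mid B (B ^ 9) h2 h1 h0 hs xs ty lam ps).c c ∧
        RR B 9 w (Θ.drop (i - 2)) (D.mid B (B ^ 9) h2 h1 h0 hs xs ty lam ps).l l ∧
        TV B 9 w (D.mid B (B ^ 9) h2 h1 h0 hs xs ty lam ps).r (Θ.drop (i - 2)) a ∧
        c + l + a = ∑ j ∈ Finset.range hs.length, qv (iz w) (D.th (i + j)) (1 :: Θ)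
  | [], i, h2, h1, h0, xs, ty, lam, ps, _, _, _, _, _, _, _, _, _, _, _ =>
    ⟨0, 0, 0, RV.zero, RR.zero, by simp [NW.mid, TV], by simp⟩
  | h3 :: hs, i, h2, h1, h0, xs, ty, lam, ps, hi, hN, e2, e1, e0, eh, ex, et, el, ep, lp => by
    have e : ∀ j, i + 1 + j = i + (j + 1) := fun j => by ring
    have e3 : h3 = D.toND.hh (i + 1) := by simpa using eh 0 (by simp)
    have hN' : i + 1 < D.toND.N := by
      rw [List.length_cons] at hN
      omega
    obtain ⟨c, l, a, k1, k2, k3, k4⟩ := mid_ok hw hΘ hs (i + 1) h1 h0 h3 (tlE xs) ty.tail lam.tail ps.tail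
      (by omega) (by rw [← hN, List.length_cons]; ring) (by rw [e1]; congr 1) (by rw [e0]; congr 1) e3
      (fun j hj => by
        have := eh (j + 1) (by simpa using hj)
        rw [List.getD_cons_succ] at this
        rw [this]
        congr 1
        ring)
      (fun j hj => by
        rw [tlE_getD, e]
        exact ex (j + 1) (by omega))
      (fun j => by rw [tail_getD, et, e]) (fun j => by rw [tail_getD, el, e]) (fun j => by rw [tail_getD, ep, e])
      fun p hp => lp p (List.mem_of_mem_tail hp)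
    obtain ⟨E, d1, d2⟩ := drop4 (Θ := Θ) hi (by omega)
    rw [d2] at k2 k3
    rw [d1]
    have p0 : ps.headD [] = [] ∨ (ps.headD []).length = 9 := (headD_mem ps).imp_right fun h => lp _ h
    have hv : RV B 9 w (D.vk B (hdE xs) (ps.headD [])) (256 * D.toND.zS * iz w (D.toNH.Kd i)) := by
      refine vk_ok ?_ ?_ p0
      · rw [hdE_getD]
        exact ex 0 (by omega)
      · rw [headD_getD]
        exact ep 0
    have ht : ty.headD 0 = D.Z.ty.getD i 0 := by
      rw [headD_getD]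
      exact et 0
    have hk : lam.headD 0 = D.kk i := by
      rw [headD_getD]
      exact el 0
    have hs' : ∑ j ∈ Finset.range (h3 :: hs).length, qv (iz w) (D.th (i + j)) (1 :: Θ) = c + l + a
        + qv (iz w) (D.th i) (1 :: Θ) := by
      rw [List.length_cons, Finset.sum_range_succ', k4]
      simp only [e, Nat.add_zero]
    rw [hs', NW.mid, hk]
    have key : ∀ f : Bool, D.th i = D.vl f i →
        ∃ c' l' a', RV B 9 w (MS.st (B ^ 9) f (PV.sm ((16384 - 8 * (D.kk i : ℤ)) * (h1 * h0)) (D.vk B (hdE xs) (ps.headD [])))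
      (PV.sm ((16384 - 64 * (D.kk i : ℤ)) * (h0 * h2)) (D.vk B (hdE xs) (ps.headD []))) (PV.sm ((16384 - 64 * (D.kk i : ℤ)) * (h1 * h3)) (D.vk B (hdE xs) (ps.headD [])))
      (PV.sm ((4 * (D.kk i : ℤ)) * (h1 * h1)) (D.vk B (hdE xs) (ps.headD []))) (PV.sm ((4 * (D.kk i : ℤ)) * (h0 * h0)) (D.vk B (hdE xs) (ps.headD []))) (D.mid B (B ^ 9) h1 h0 h3 hs (tlE xs) ty.tail lam.tail ps.tail)).c c' ∧
          RR B 9 w (Θ.getD (i - 2) 0 :: Θ.getD (i - 1) 0 :: Θ.getD i 0 :: Θ.getD (i + 1) 0 :: E) (MS.st (B ^ 9) f (PV.sm ((16384 - 8 * (D.kk i : ℤ)) * (h1 * h0)) (D.vk B (hdE xs) (ps.headD [])))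
      (PV.sm ((16384 - 64 * (D.kk i : ℤ)) * (h0 * h2)) (D.vk B (hdE xs) (ps.headD []))) (PV.sm ((16384 - 64 * (D.kk i : ℤ)) * (h1 * h3)) (D.vk B (hdE xs) (ps.headD [])))
      (PV.sm ((4 * (D.kk i : ℤ)) * (h1 * h1)) (D.vk B (hdE xs) (ps.headD []))) (PV.sm ((4 * (D.kk i : ℤ)) * (h0 * h0)) (D.vk B (hdE xs) (ps.headD []))) (D.mid B (B ^ 9) h1 h0 h3 hs (tlE xs) ty.tail lam.tail ps.tail)).l l' ∧
          TV B 9 w (MS.st (B ^ 9) f (PV.sm ((16384 - 8 * (D.kk i : ℤ)) * (h1 * h0)) (D.vk B (hdE xs) (ps.headD [])))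
      (PV.sm ((16384 - 64 * (D.kk i : ℤ)) * (h0 * h2)) (D.vk B (hdE xs) (ps.headD []))) (PV.sm ((16384 - 64 * (D.kk i : ℤ)) * (h1 * h3)) (D.vk B (hdE xs) (ps.headD [])))
      (PV.sm ((4 * (D.kk i : ℤ)) * (h1 * h1)) (D.vk B (hdE xs) (ps.headD []))) (PV.sm ((4 * (D.kk i : ℤ)) * (h0 * h0)) (D.vk B (hdE xs) (ps.headD []))) (D.mid B (B ^ 9) h1 h0 h3 hs (tlE xs) ty.tail lam.tail ps.tail)).r (Θ.getD (i - 2) 0 :: Θ.getD (i - 1) 0 :: Θ.getD i 0 :: Θ.getD (i + 1) 0 :: E) a' ∧
          c' + l' + a' = c + l + a + qv (iz w) (D.th i) (1 :: Θ) := by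
      intro f hf
      rw [hf, vl_mid hi hN']
      rw [e0, e1, e2, e3] at *
      exact st_ok hw rfl f (hv.sm _) (hv.sm _) (hv.sm _) (hv.sm _) (hv.sm _) k1 k2 k3
    rw [ht]
    rcases hT : D.Z.ty.getD i 0 with _ | _ | t
    · refine ⟨c, l, Θ.getD (i - 2) 0 * 0 + a, k1, RR.sh hw k2,
        ⟨0, a, RR.zero, k3, rfl⟩, ?_⟩
      have : D.th i = [] := by
        unfold NW.th
        rw [hT]
        rfl
      rw [this]
      simp
    · exact key false (by unfold NW.th; rw [hT]; rfl)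
    · exact key true (by unfold NW.th; rw [hT]; rfl)

theorem hsL_ok : ∀ (n : ℕ) (a b : List ℕ), (hsL n a b).length = n ∧ ∀ j, j < n →
    (hsL n a b).getD j 0 = ((a.getD j 0 : ℕ) : ℤ) + ((b.getD j 0 : ℕ) : ℤ)
  | 0, a, b => ⟨rfl, fun j h => by omega⟩
  | n + 1, a, b => by
    obtain ⟨i1, i2⟩ := hsL_ok n a.tail b.tail
    refine ⟨by simp [hsL, i1], fun j hj => ?_⟩
    cases j with
    | zero =>
      rw [hsL, List.getD_cons_zero, headD_getD, headD_getD]
    | succ j =>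
      rw [hsL, List.getD_cons_succ, i2 j (by omega), tail_getD, tail_getD]

/-- **the fast table has the value of the table** -/
theorem fT_ok {D : NW} (h : D.shT = true) (hw : w.length = 9) {Θ : List ℝ} (hΘ : D.toND.N ≤ Θ.length) (B : ℕ) :
    TV B 9 w (D.fT B) (1 :: Θ) (qv id (D.st.T.map fun r => r.map (iz w)) (1 :: Θ)) := by
  simp only [NW.shT, Bool.and_eq_true, List.all_eq_true, Nat.ble_eq] at h
  obtain ⟨h3, h2, h4⟩ := h
  obtain ⟨k1, k2⟩ := kx_ok (D := D) (fun q hq => Nat.eq_of_beq_eq_true (h2 q hq)) w B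
  have lP : ∀ p ∈ D.PP, p.length = 9 := fun p hp => Nat.eq_of_beq_eq_true (h4 p hp)
  have kx : ∀ j, j < D.toND.N → RV B 9 w ((D.kx B).getD j ⟨0, 0, 0⟩) (iz w (D.toND.Kx j)) := fun j hj => by
    refine k2 j _ ?_
    rw [List.getD_eq_getElem _ _ (by rw [k1]; exact hj), List.getElem?_eq_getElem]
  have pl : ∀ n, D.toNH.pp n = [] ∨ (D.toNH.pp n).length = 9 := fun n => by
    unfold NH.pp
    by_cases hn : n < D.PP.length
    · rw [List.getD_eq_getElem _ _ hn]
      exact Or.inr (lP _ (List.getElem_mem hn))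
    · exact Or.inl (List.getD_eq_default _ _ (by omega))
  obtain ⟨n, hn⟩ : ∃ n, D.toND.N = n + 3 := ⟨D.toND.N - 3, by omega⟩
  obtain ⟨s1, s2⟩ := hsL_ok D.toND.N D.Z.lb D.Z.hb
  have sh : ∀ j, j < D.toND.N → (hsL D.toND.N D.Z.lb D.Z.hb).getD j 0 = D.toND.hh j := fun j hj => s2 j hj
  have tm : TV B 9 w (D.midT B (B ^ 9) (D.kx B) (hsL D.toND.N D.Z.lb D.Z.hb)) (1 :: Θ)
      (∑ j ∈ Finset.range n, qv (iz w) (D.th (2 + j)) (1 :: Θ)) := by
    generalize hsL D.toND.N D.Z.lb D.Z.hb = H at s1 sh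
    match H, s1, sh with
    | [], s1, _ => simp at s1; omega
    | [_], s1, _ => simp at s1; omega
    | [_, _], s1, _ => simp at s1; omega
    | g2 :: g1 :: g0 :: hs, s1, sh =>
      have ls : hs.length = n := by
        simp only [List.length_cons] at s1
        omega
      obtain ⟨c, l, a, m1, m2, m3, m4⟩ := mid_ok (B := B) hw hΘ hs 2 g2 g1 g0 (tlE (tlE (D.kx B)))
        D.Z.ty.tail.tail D.lam.tail.tail D.PP.tail.tail (le_refl 2) (by omega) (by simpa using sh 0 (by omega))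
        (by simpa using sh 1 (by omega)) (by simpa using sh 2 (by omega))
        (fun j hj => by
          have := sh (j + 3) (by omega)
          rw [List.getD_cons_succ, List.getD_cons_succ, List.getD_cons_succ] at this
          rw [this]
          congr 1
          ring)
        (fun j hj => by
          rw [tlE_getD, tlE_getD, show 2 + j = j + 1 + 1 by ring]
          exact kx _ (by omega))
        (fun j => by rw [tail_getD, tail_getD, show 2 + j = j + 1 + 1 by ring])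
        (fun j => by
          rw [tail_getD, tail_getD, show 2 + j = j + 1 + 1 by ring]
          rfl)
        (fun j => by
          rw [tail_getD, tail_getD, show 2 + j = j + 1 + 1 by ring]
          rfl)
        fun p hp => lP p (List.mem_of_mem_tail (List.mem_of_mem_tail hp))
      rw [ls] at m4
      rw [← m4]
      refine ⟨1 * c + l, a, RR.cons hw m1 (by simpa using m2), by simpa using m3, by ring⟩
  have t0 := cf_ok hw hΘ (i := 0) (by omega) (vk_ok (D := D) (i := 0) (by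
    have := kx 0 (by omega)
    rwa [← hdE_getD] at this) rfl (pl 0)) tm
  have t1 := cf_ok hw hΘ (i := 1) (by omega) (vk_ok (D := D) (i := 1) (by
    have := kx 1 (by omega)
    rwa [← tlE_getD, ← hdE_getD] at this) rfl (pl 1)) t0
  have t2 := cf_ok hw hΘ (i := D.toND.N - 1) (by omega) (vk_ok (D := D) (i := D.toND.N - 1) (kx _ (by omega))
    rfl (pl _)) t1
  show TV B 9 w (D.fT B) (1 :: Θ) (qv id (((sumT OZ D.th D.toND.N).map fun r => r.map fun c => addZ c ND.z9).map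
    fun r => r.map (iz w)) (1 :: Θ))
  rw [qv_pad, qv_sumT]
  refine (congrArg (TV B 9 w _ (1 :: Θ)) ?_).mp t2
  rw [hn, Finset.sum_range_succ (fun i => qv (iz w) (D.th i) (1 :: Θ)) (n + 2), Finset.sum_range_succ' _ (n + 1),
    Finset.sum_range_succ' _ n]
  have e : ∀ j, 2 + j = j + 1 + 1 := fun j => by ring
  simp only [e, Nat.zero_add]
  rw [show n + 3 - 1 = n + 2 by omega]
  ring

end sound

/-! ### the base forms -/

/-- the part of the majorants in the constant -/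
def NW.m0P (D : NW) (B : ℕ) : List ℕ → List (List ℤ) → PV
  | vs, p :: ps => PV.add (PV.sm (-(D.toND.zS * D.U * ((vs.headD 0 : ℕ) : ℤ))) (ofZ B p)) (D.m0P B vs.tail ps)
  | _, [] => ⟨0, 0, 0⟩

/-- the base forms without the constant -/
def NW.fL (D : NW) : List ℕ → List PV → List (P6 PV)
  | vs, x :: xs => ⟨PV.sm (D.toND.zS * ((vs.headD 0 : ℕ) : ℤ)) x, ⟨0, 0, 0⟩, ⟨0, 0, 0⟩, PV.sm (D.toND.zS * V20) x,
      ⟨0, 0, 0⟩, ⟨0, 0, 0⟩⟩ :: D.fL vs.tail xs
  | _, [] => []

/-- constant added in the first cell -/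
def addH (m : PV) : List (P6 PV) → List (P6 PV)
  | p :: ps => ⟨PV.add m p.k, p.a, p.b, p.aa, p.ab, p.bb⟩ :: ps
  | [] => []

/-- **the fast base forms** -/
def NW.fP (D : NW) (B : ℕ) : List (P6 PV) :=
  addH (PV.add (PV.sm (-(D.toND.zN * D.toND.zS ^ 2 * V20)) (ofZ B D.Ks)) (D.m0P B D.Z.vc D.PP)) (D.fL D.Z.vc (D.kx B))

/-- shapes -/
def NW.shF (D : NW) : Bool := Nat.ble 1 D.toND.N && (Nat.beq D.PP.length D.toND.N &&
  (Nat.beq D.Ks.length 9 && ((D.Q.all fun l => Nat.beq l.length 9) && D.PP.all fun l => Nat.beq l.length 9)))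

section soundF

variable {B : ℕ} {w : List ℝ}

theorem addF_ls {V : Type} (O : PLK.Op V) : ∀ (n : ℕ) (f g : ℕ → P6 V),
    addF O (ls n f) (ls n g) = ls n fun i => add6 O (f i) (g i)
  | 0, f, g => rfl
  | n + 1, f, g => by
    rw [ls_succ, ls_succ, ls_succ, addF, addF_ls O n]

theorem map_ls {α β : Type} (F : α → β) (n : ℕ) (f : ℕ → α) : (ls n f).map F = ls n fun i => F (f i) := by
  unfold ls
  rw [List.map_map]
  rfl

theorem p6_ext {p q : P6 ℝ} (h1 : p.k = q.k) (h2 : p.a = q.a) (h3 : p.b = q.b) (h4 : p.aa = q.aa)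
    (h5 : p.ab = q.ab) (h6 : p.bb = q.bb) : p = q := by
  cases p
  cases q
  simp only at h1 h2 h3 h4 h5 h6
  rw [h1, h2, h3, h4, h5, h6]

/-- sum of the base forms -/
theorem locP_ls (N : ℕ) (c : ℕ → ℝ) (g : ℕ → ℕ → P6 ℤ) : ∀ (k : ℕ) (ks : List ℕ),
    locP OR ((k :: ks).map fun k => (c k, ls N (g k))) = ls N fun i =>
      ⟨((k :: ks).map fun k => ((g k i).k : ℝ) * c k).sum, ((k :: ks).map fun k => ((g k i).a : ℝ) * c k).sum,
        ((k :: ks).map fun k => ((g k i).b : ℝ) * c k).sum, ((k :: ks).map fun k => ((g k i).aa : ℝ) * c k).sum,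
        ((k :: ks).map fun k => ((g k i).ab : ℝ) * c k).sum, ((k :: ks).map fun k => ((g k i).bb : ℝ) * c k).sum⟩
  | k, [] => by
    simp only [List.map_cons, List.map_nil, locP, map_ls]
    have e : ∀ l : List (P6 ℝ), addF OR l [] = l := fun l => by cases l <;> rfl
    rw [e]
    congr 1
    funext i
    exact p6_ext (by simp [cc, OR]) (by simp [cc, OR]) (by simp [cc, OR]) (by simp [cc, OR]) (by simp [cc, OR])
      (by simp [cc, OR])
  | k, k' :: ks => by
    have ih := locP_ls N c g k' ks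
    rw [List.map_cons, locP, ih, map_ls, addF_ls]
    rfl

theorem fL_ok {D : NW} {X : ℕ → ℝ} : ∀ (xs : List PV) (vs : List ℕ) (i : ℕ),
    (∀ j, vs.getD j 0 = D.Z.vc.getD (i + j) 0) → (∀ j x, xs[j]? = some x → RV B 9 w x (X (i + j))) →
    Forall₂ (R6 (RV B 9 w)) (D.fL vs xs) (ls xs.length fun j => (⟨(D.toND.zS : ℝ) * D.toND.zv (i + j) * X (i + j), 0, 0,
      (D.toND.zS : ℝ) * 1048576 * X (i + j), 0, 0⟩ : P6 ℝ))
  | [], vs, i, _, _ => .nil
  | x :: xs, vs, i, hv, h => by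
    have e : ∀ j, i + 1 + j = i + (j + 1) := fun j => by ring
    have ih := fL_ok (D := D) (X := X) xs vs.tail (i + 1) (fun j => by rw [tail_getD, hv, e]) fun j y hy => by
      rw [e]
      exact h (j + 1) y (by simpa using hy)
    have hz : ((vs.headD 0 : ℕ) : ℤ) = D.toND.zv i := by
      have := hv 0
      rw [headD_getD, this]
      rfl
    simp only [e] at ih
    rw [List.length_cons, ls_succ, NW.fL, hz]
    have h0 : RV B 9 w x (X (i + 0)) := h 0 x (by simp)
    refine .cons ⟨?_, RV.zero, RV.zero, ?_, RV.zero, RV.zero⟩ ih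
    · have := h0.sm (D.toND.zS * D.toND.zv i)
      push_cast at this
      exact this
    · have := h0.sm (D.toND.zS * V20)
      unfold V20 at this ⊢
      push_cast at this
      exact this

theorem addH_ok {m : PV} {M : ℝ} (hm : RV B 9 w m M) {ps : List (P6 PV)} {n : ℕ} {f : ℕ → P6 ℝ}
    (h : Forall₂ (R6 (RV B 9 w)) ps (ls n f)) : Forall₂ (R6 (RV B 9 w)) (addH m ps)
      (ls n fun i => ⟨(if i = 0 then M else 0) + (f i).k, (f i).a, (f i).b, (f i).aa, (f i).ab, (f i).bb⟩) := by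
  cases n with
  | zero =>
    have e : ls 0 f = [] := rfl
    rw [e] at h
    cases h
    exact .nil
  | succ n =>
    rw [ls_succ] at h ⊢
    cases h with
    | cons h1 h2 =>
      refine .cons ⟨?_, h1.a, h1.b, h1.aa, h1.ab, h1.bb⟩ ?_
      · simp only [if_true]
        exact RV.add hm h1.k
      · simpa using h2

theorem m0P_ok {D : NW} : ∀ (ps : List (List ℤ)) (vs : List ℕ) (i : ℕ),
    (∀ j, vs.getD j 0 = D.Z.vc.getD (i + j) 0) → (∀ p ∈ ps, p.length = 9) →
    (∀ j, ps.getD j [] = D.toNH.pp (i + j)) → RV B 9 w (D.m0P B vs ps)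
      (∑ j ∈ Finset.range ps.length, -((D.toND.zS : ℝ) * D.U * D.toND.zv (i + j)) * iz w (D.toNH.pp (i + j)))
  | [], vs, i, _, _, _ => by simpa [NW.m0P] using RV.zero
  | p :: ps, vs, i, hv, hl, hp => by
    have e : ∀ j, i + 1 + j = i + (j + 1) := fun j => by ring
    have hz : ((vs.headD 0 : ℕ) : ℤ) = D.toND.zv i := by
      have := hv 0
      rw [headD_getD, this]
      rfl
    have ih := m0P_ok (D := D) ps vs.tail (i + 1) (fun j => by rw [tail_getD, hv, e])
      (fun q hq => hl q (by simp [hq])) fun j => by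
      have := hp (j + 1)
      rw [e]
      simpa using this
    simp only [e] at ih
    have h0 : p = D.toNH.pp i := by simpa using hp 0
    have h1 := RV.sm (ofZ_ok (B := B) (w := w) (hl p (by simp))) (-(D.toND.zS * D.U * D.toND.zv i))
    have h2 := RV.add h1 ih
    rw [List.length_cons, Finset.sum_range_succ', NW.m0P, hz]
    refine (congrArg (RV B 9 w _) ?_).mp h2
    rw [h0]
    push_cast
    simp only [Nat.add_zero]
    ring

/-- **the fast base forms are right** -/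
theorem fP_ok {D : NW} (h : D.shF = true) (B : ℕ) (w : List ℝ) : Forall₂ (R6 (RV B 9 w)) (D.fP B)
    (locP OR (D.st.F.map fun q => (iz w q.1, q.2))) := by
  simp only [NW.shF, Bool.and_eq_true, List.all_eq_true, Nat.ble_eq] at h
  obtain ⟨_, h2, h3, h4, h5⟩ := h
  have l1 : D.PP.length = D.toND.N := Nat.eq_of_beq_eq_true h2
  have hPP : ∀ p ∈ D.PP, p.length = 9 := fun p hp => Nat.eq_of_beq_eq_true (h5 p hp)
  obtain ⟨k1, k2⟩ := kx_ok (D := D) (fun q hq => Nat.eq_of_beq_eq_true (h4 q hq)) w B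
  have a1 := fL_ok (D := D) (X := fun i => iz w (D.toND.Kx i)) (D.kx B) D.Z.vc 0 (fun j => by rw [Nat.zero_add]) fun j x hx => by
    rw [Nat.zero_add]
    exact k2 j x hx
  have a2 := m0P_ok (B := B) (w := w) (D := D) D.PP D.Z.vc 0 (fun j => by rw [Nat.zero_add]) hPP fun j => by rw [Nat.zero_add]; rfl
  have a3 := RV.add (RV.sm (ofZ_ok (B := B) (w := w) (Nat.eq_of_beq_eq_true h3)) (-(D.toND.zN * D.toND.zS ^ 2 * V20))) a2
  have a4 := addH_ok a3 a1
  rw [k1] at a4
  have e0 : iz w D.toNH.M0 = ((-(D.toND.zN * D.toND.zS ^ 2 * V20) : ℤ) : ℝ) * iz w D.Ks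
      + ∑ j ∈ Finset.range D.PP.length, -((D.toND.zS : ℝ) * D.U * D.toND.zv (0 + j)) * iz w (D.toNH.pp (0 + j)) := by
    unfold NH.M0
    rw [iz_addZ, iz_map, iz_sumL, l1]
    congr 1
    refine Finset.sum_congr rfl fun i _ => ?_
    rw [iz_map, Nat.zero_add]
    push_cast
    ring
  have e1 : (D.st.F.map fun q => (iz w q.1, q.2)) = (iz w D.toNH.M0, ls D.toND.N fun i =>
      (⟨if i = 0 then 1 else 0, 0, 0, 0, 0, 0⟩ : P6 ℤ)) :: (0 :: (List.range (2 * D.h)).map Nat.succ).map fun k =>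
        (iz w ((D.Q.getD k []).map fun x => D.toND.zS * x),
          ls D.toND.N fun i => (⟨D.toND.gri k i * D.toND.zv i, 0, 0, D.toND.gri k i * V20, 0, 0⟩ : P6 ℤ)) := by
    rw [← List.range_succ_eq_map]
    show ((_ :: (List.range D.toND.R).map _).map _) = _
    rw [List.map_cons, List.map_map]
    rfl
  rw [e1, locP, locP_ls D.toND.N (fun k => iz w ((D.Q.getD k []).map fun x => D.toND.zS * x))
    (fun k i => (⟨D.toND.gri k i * D.toND.zv i, 0, 0, D.toND.gri k i * V20, 0, 0⟩ : P6 ℤ)), map_ls, addF_ls,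
    ← List.range_succ_eq_map]
  unfold NW.fP
  refine (congrArg (Forall₂ (R6 (RV B 9 w)) _) ?_).mp a4
  congr 1
  funext i
  have s0 : ∀ l : List ℕ, (l.map fun _ => (0 : ℝ)).sum = 0 := fun l => by simp
  have e2 : iz w (D.toND.Kx i) = ∑ k ∈ Finset.range (2 * D.h + 1), iz w (D.Q.getD k []) * (D.toND.gri k i : ℝ) :=
    iz_Kx w i
  refine p6_ext ?_ ?_ ?_ ?_ ?_ ?_
  · simp only [cc, add6, OR, sum_map_range]
    rw [← e0, Nat.zero_add, e2, Finset.mul_sum]
    simp only [iz_map]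
    congr 1
    · split <;> push_cast <;> ring
    · refine Finset.sum_congr rfl fun k _ => ?_
      push_cast
      ring
  · simp only [cc, add6, OR, Int.cast_zero, zero_mul, s0, add_zero]
  · simp only [cc, add6, OR, Int.cast_zero, zero_mul, s0, add_zero]
  · simp only [cc, add6, OR, sum_map_range, Int.cast_zero, zero_mul, zero_add]
    rw [e2, Finset.mul_sum]
    simp only [iz_map]
    refine Finset.sum_congr rfl fun k _ => ?_
    unfold V20
    push_cast
    ring
  · simp only [cc, add6, OR, Int.cast_zero, zero_mul, s0, add_zero]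
  · simp only [cc, add6, OR, Int.cast_zero, zero_mul, s0, add_zero]

end soundF

end Pool.Agent.FPX.NCD
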