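import Pool.Agent.FPX.PLP
/-!
PLTa (helper59). The tests of a diagonal entry (three components) with the digits extracted once.
-/
set_option autoImplicit false

noncomputable section

namespace Pool.Agent.FPX.PLK

/-- the three tests of a diagonal entry; `f1`, `f0`, `g1`, `g0` the offsets -/
def tg3 (W B S o f1 f0 g1 g0 : ℕ) (α lp ln x y : ℕ) : Bool :=
  dig9 W α fun a1 a2 a3 a4 a5 a6 a7 a8 a9 => dig9 W lp fun p1 p2 p3 p4 p5 p6 p7 p8 p9 =>
  dig9 W ln fun n1 n2 n3 n4 n5 n6 n7 n8 n9 =>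
    t3 a1 o a2 o a3 o a4 o a5 o a6 o a7 o a8 o a9 o && (
      t3 (Nat.add a1 (Nat.add a1 p1)) (Nat.add n1 f1)
        (Nat.add a2 (Nat.add a2 p2)) (Nat.add n2 f1)
        (Nat.add a3 (Nat.add a3 p3)) (Nat.add n3 f1)
        (Nat.add a4 (Nat.add a4 p4)) (Nat.add n4 f0)
        (Nat.add a5 (Nat.add a5 p5)) (Nat.add n5 f0)
        (Nat.add a6 (Nat.add a6 p6)) (Nat.add n6 f0)
        (Nat.add a7 (Nat.add a7 p7)) (Nat.add n7 f0)
        (Nat.add a8 (Nat.add a8 p8)) (Nat.add n8 f0)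
        (Nat.add a9 (Nat.add a9 p9)) (Nat.add n9 f0) &&
      dig9 B x fun x1 x2 x3 x4 x5 x6 x7 x8 x9 => dig9 B y fun y1 y2 y3 y4 y5 y6 y7 y8 y9 =>
        t3 (Nat.add (Nat.mul S (Nat.add a1 p1)) x1) (Nat.add (Nat.mul S (Nat.add n1 g1)) y1)
          (Nat.add (Nat.mul S (Nat.add a2 p2)) x2) (Nat.add (Nat.mul S (Nat.add n2 g1)) y2)
          (Nat.add (Nat.mul S (Nat.add a3 p3)) x3) (Nat.add (Nat.mul S (Nat.add n3 g1)) y3)
          (Nat.add (Nat.mul S (Nat.add a4 p4)) x4) (Nat.add (Nat.mul S (Nat.add n4 g0)) y4)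
          (Nat.add (Nat.mul S (Nat.add a5 p5)) x5) (Nat.add (Nat.mul S (Nat.add n5 g0)) y5)
          (Nat.add (Nat.mul S (Nat.add a6 p6)) x6) (Nat.add (Nat.mul S (Nat.add n6 g0)) y6)
          (Nat.add (Nat.mul S (Nat.add a7 p7)) x7) (Nat.add (Nat.mul S (Nat.add n7 g0)) y7)
          (Nat.add (Nat.mul S (Nat.add a8 p8)) x8) (Nat.add (Nat.mul S (Nat.add n8 g0)) y8)
          (Nat.add (Nat.mul S (Nat.add a9 p9)) x9) (Nat.add (Nat.mul S (Nat.add n9 g0)) y9))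

theorem tg3_eq (W B S o oe α lp ln x y : ℕ) : tg3 W B S o (Nat.add (Nat.add (Nat.mul 2 o) oe) 5)
    (Nat.add (Nat.add (Nat.mul 2 o) oe) 0) (Nat.add (Nat.add o oe) 5) (Nat.add (Nat.add o oe) 0) α lp ln x y
    = tgL T3 9 W B S o oe sv3 α lp ln x y := rfl

end Pool.Agent.FPX.PLK
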