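import Pool.Agent.FPX.PKE
import Pool.Agent.FPX.PLTa
/-!
PKH (helper1). Certificates `CY.fast5` (theorem `certF5`) and with free squares `CQ.chk5` (theorem `certQ5`, digits of the
squares interleaved); general forms `certF5g`, `certQ5g` with packed tables given by the user.
-/
set_option autoImplicit false

noncomputable section

namespace Pool.Agent.FPX.PLK

open List (Forall₂)

/-- the test of the table, digits of the diagonal extracted once -/
def CY.finW (D : CY) : List PV → ℕ → List (ℕ × ℕ × ℕ) → Bool :=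
  PLK.finV (tg3 (Nat.pow 2 D.ws) D.B D.S D.o (Nat.add (Nat.add (Nat.mul 2 D.o) D.oe) 5)
    (Nat.add (Nat.add (Nat.mul 2 D.o) D.oe) 0) (Nat.add (Nat.add D.o D.oe) 5) (Nat.add (Nat.add D.o D.oe) 0))
    D.E3.sp D.ws D.v D.B D.S D.o D.oe D.be D.W1 (Nat.add D.st.N D.st.M)

theorem CY.finW_ok (D : CY) (z1 z2 z3 : ℂ) : ∀ R dg dt, D.finW R dg dt = true → ∀ (θ : List ℝ) (z : ℝ),
    θ.length = D.st.N + D.st.M → Box θ → TV D.B 9 (w3 z1 z2 z3) R (1 :: θ) z → 0 ≤ z :=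
  fun _ _ _ h _ _ hl hD hz => PLK.finV_ok z1 z2 z3 (fun a b d e e' h => (tg3_eq (2 ^ D.ws) D.B D.S D.o D.oe a b d e e').symm.trans h)
    (fun x => sp9_eq _ _ x) h hl hD hz

/-- the test of the multipliers -/
def CY.puW (D : CY) : List (List PV) → List (ℕ × ℕ) → Bool :=
  prodV (laW (vcc D.ws D.v D.B D.oe) D.ws (Nat.pred D.v) (Nat.add D.st.N D.st.M)) D.E3.f D.B (Nat.pow D.B 9)
    (Nat.pow (Nat.pow 2 D.ws) 9) (Nat.add D.st.N D.st.M)

/-- sizes -/
def CY.pre5 (D : CY) : Bool :=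
  Nat.beq D.o (Nat.pow 2 (Nat.pred D.v)) && (Nat.ble 6 D.v && Nat.ble (Nat.add D.v 3) D.ws)

theorem CY.puW_ok {D : CY} (h : D.pre5 = true) (z1 z2 z3 : ℂ) : ∀ P ps, D.puW P ps = true →
    prodU (fun e => decide (0 ≤ ip (w3 z1 z2 z3) (dgs (2 ^ D.ws) 9 e)
      - D.o * ip (w3 z1 z2 z3) (List.replicate 9 1))) D.E3.f D.B (D.B ^ 9) ((2 ^ D.ws) ^ 9) (D.st.N + D.st.M) P ps = true := by
  simp only [CY.pre5, Bool.and_eq_true, Nat.ble_eq] at h
  obtain ⟨h1, h2, h3⟩ := h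
  have h1 := Nat.eq_of_beq_eq_true h1
  intro P ps hp
  refine prodV_ok (fun x hx => ?_) P ps hp
  obtain ⟨u, hu⟩ : ∃ u, D.v = u + 1 := ⟨D.v - 1, by omega⟩
  have h1' : D.o = 2 ^ u := by
    rw [h1, hu]
    rfl
  have h3' : u + 4 ≤ D.ws := by
    have : D.v + 3 ≤ D.ws := h3
    omega
  have hc := vcc_ok D.B D.oe (ws := D.ws) (u := u) (by omega) h3'
  have key := laW_ok hc z1 z2 z3 (n := D.st.N + D.st.M) (x := x) (by
    rw [← hu]
    have e : Nat.pred D.v = u := by rw [hu]; rfl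
    rw [← e]
    exact hx)
  rw [h1']
  exact key

theorem CY.le5 {D : CY} (h : D.pre5 = true) : D.o ≤ 2 ^ D.ws := by
  simp only [CY.pre5, Bool.and_eq_true, Nat.ble_eq] at h
  obtain ⟨h1, h2, h3⟩ := h
  have h1 := Nat.eq_of_beq_eq_true h1
  have h3 : D.v + 3 ≤ D.ws := h3
  rw [h1]
  exact Nat.pow_le_pow_right (by norm_num) ((Nat.pred_le _).trans (by omega))

/-- the complete test, general tables -/
def CY.fast5g (D : CY) (X TT : List PV) (PP : List (P6 PV)) : Bool :=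
  D.pre5 && D.fstH D.E3 X TT PP D.puW D.finW

/-- **certificate with three components, general tables** -/
theorem certF5g {D : CY} {X TT : List PV} {PP : List (P6 PV)} (h : D.fast5g X TT PP = true) (z1 z2 z3 : ℂ)
    (hX : ∀ θ : List ℝ, θ.length = D.st.N + D.st.M → ∃ t, TV D.B 9 (w3 z1 z2 z3) X (1 :: θ) t ∧ t ≤ 0)
    (hT : ∀ θ : List ℝ, θ.length = D.st.N + D.st.M → TV D.B 9 (w3 z1 z2 z3) TT (1 :: θ)
      (qv id (D.st.T.map fun r => r.map (iz (w3 z1 z2 z3))) (1 :: θ)))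
    (hP : Forall₂ (R6 (RV D.B 9 (w3 z1 z2 z3))) PP (locP OR (D.st.F.map fun q => (iz (w3 z1 z2 z3) q.1, q.2)))) :
    D.st.Good (w3 z1 z2 z3) := by
  simp only [CY.fast5g, Bool.and_eq_true] at h
  obtain ⟨h0, h⟩ := h
  refine certFH (rl3 D.B z1 z2 z3) (D.finW_ok z1 z2 z3) (D.f_ok z1 z2 z3 (CY.le5 h0)) (t := fun e => decide (0 ≤
    ip (w3 z1 z2 z3) (dgs (2 ^ D.ws) 9 e) - D.o * ip (w3 z1 z2 z3) (List.replicate 9 1))) (fun c hc => ?_)
    (CY.puW_ok h0 z1 z2 z3) hX hT hP h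
  exact mul_nonneg (Nat.cast_nonneg _) (of_decide_eq_true hc)

/-- shapes of the lists -/
def CY.shp (D : CY) : Bool :=
  (D.st.F.all fun q => Nat.beq q.1.length 9) && ((D.st.T.all fun r => r.all fun c => Nat.beq c.length 9) &&
    (fitT (Nat.succ (Nat.add D.st.N D.st.M)) D.st.T && lenOk D.st.N (D.st.F.map fun q => (ofZ D.B q.1, q.2))))

/-- the packed local forms -/
def CY.PP (D : CY) : List (P6 PV) := locP D.E3.O (D.st.F.map fun q => (ofZ D.B q.1, q.2))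

/-- the packed table -/
def CY.TT (D : CY) : List PV := D.st.T.map (pkR D.B (Nat.pow D.B 9))

theorem CY.PP_ok {D : CY} (h : D.shp = true) (z1 z2 z3 : ℂ) :
    Forall₂ (R6 (RV D.B 9 (w3 z1 z2 z3))) D.PP (locP OR (D.st.F.map fun q => (iz (w3 z1 z2 z3) q.1, q.2))) := by
  simp only [CY.shp, Bool.and_eq_true, List.all_eq_true] at h
  obtain ⟨p3, p5, p6, p9⟩ := h
  have hF : Forall₂ (fun (q : PV × List (P6 ℤ)) (q' : ℝ × List (P6 ℤ)) => RV D.B 9 (w3 z1 z2 z3) q.1 q'.1 ∧ q.2 = q'.2)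
      (D.st.F.map fun q => (ofZ D.B q.1, q.2)) (D.st.F.map fun q => (iz (w3 z1 z2 z3) q.1, q.2)) := by
    rw [List.forall₂_map_left_iff, List.forall₂_map_right_iff]
    refine List.forall₂_same.2 fun q hq => ⟨ofZ_ok (Nat.eq_of_beq_eq_true (p3 q hq)), rfl⟩
  exact locP_par (rl3 D.B z1 z2 z3) hF

theorem CY.TT_ok {D : CY} (h : D.shp = true) (z1 z2 z3 : ℂ) (θ : List ℝ) (hθ : θ.length = D.st.N + D.st.M) :
    TV D.B 9 (w3 z1 z2 z3) D.TT (1 :: θ) (qv id (D.st.T.map fun r => r.map (iz (w3 z1 z2 z3))) (1 :: θ)) := by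
  simp only [CY.shp, Bool.and_eq_true, List.all_eq_true] at h
  obtain ⟨p3, p5, p6, p9⟩ := h
  exact pkT_ok (B := D.B) (K := 9) (w := w3 z1 z2 z3) rfl D.st.T (1 :: θ) (fun r hr c hc => Nat.eq_of_beq_eq_true (p5 r hr c hc))
    (by rw [List.length_cons, hθ]; exact p6)

/-- the complete test, three components -/
def CY.fast5 (D : CY) : Bool := D.shp && D.fast5g [] D.TT D.PP

/-- **certificate with three components** -/
theorem certF5 {D : CY} (h : D.fast5 = true) (z1 z2 z3 : ℂ) : D.st.Good (w3 z1 z2 z3) := by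
  simp only [CY.fast5, Bool.and_eq_true] at h
  exact certF5g h.2 z1 z2 z3 (fun θ _ => ⟨0, by simp [TV], le_refl _⟩) (CY.TT_ok h.1 z1 z2 z3) (CY.PP_ok h.1 z1 z2 z3)

/-- minus the free squares, digits interleaved -/
def CQ.X5 (D : CQ) : List PV :=
  sqT D.c.B D.o3 (Nat.div D.g3 2) (Nat.succ (Nat.add D.c.st.N D.c.st.M)) (D.qs.map (jn D.c.tag (Nat.pow 2 D.c.pb)))

/-- the complete test with free squares, general tables -/
def CQ.chk5g (D : CQ) (TT : List PV) (PP : List (P6 PV)) : Bool :=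
  sqC D.c.B D.o3 (Nat.succ (Nat.add D.c.st.N D.c.st.M)) D.qs.length && D.c.fast5g D.X5 TT PP

/-- **certificate with free squares, three components, general tables** -/
theorem certQ5g {D : CQ} {TT : List PV} {PP : List (P6 PV)} (h : D.chk5g TT PP = true) (z1 z2 z3 : ℂ)
    (hT : ∀ θ : List ℝ, θ.length = D.c.st.N + D.c.st.M → TV D.c.B 9 (w3 z1 z2 z3) TT (1 :: θ)
      (qv id (D.c.st.T.map fun r => r.map (iz (w3 z1 z2 z3))) (1 :: θ)))
    (hP : Forall₂ (R6 (RV D.c.B 9 (w3 z1 z2 z3))) PP (locP OR (D.c.st.F.map fun q => (iz (w3 z1 z2 z3) q.1, q.2)))) :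
    D.c.st.Good (w3 z1 z2 z3) := by
  simp only [CQ.chk5g, Bool.and_eq_true] at h
  refine certF5g h.2 z1 z2 z3 (fun θ hθ => ?_) hT hP
  refine sqT_ok (Nat.div D.g3 2) ?_ z1 z2 z3 (D := 1 :: θ) ?_
  · rw [List.length_map]
    exact h.1
  · rw [List.length_cons, hθ]
    rfl

/-- the complete test with free squares -/
def CQ.chk5 (D : CQ) : Bool := D.c.shp && D.chk5g D.c.TT D.c.PP

/-- **certificate with free squares, three components** -/
theorem certQ5 {D : CQ} (h : D.chk5 = true) (z1 z2 z3 : ℂ) : D.c.st.Good (w3 z1 z2 z3) := by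
  simp only [CQ.chk5, Bool.and_eq_true] at h
  exact certQ5g h.2 z1 z2 z3 (CY.TT_ok h.1 z1 z2 z3) (CY.PP_ok h.1 z1 z2 z3)

end Pool.Agent.FPX.PLK
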