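import Pool.Agent.FPX.NWT
import Pool.Agent.FPX.PKH
/-!
NWU (helper59). Certificates of the record NW with its packed table and base forms (NWT): `NW.fast5`, theorem `certW5`;
with free squares `NW.chk5`, theorem `certWQ5`.
-/
set_option autoImplicit false

noncomputable section

namespace Pool.Agent.FPX.NCD

open Pool.Agent.FPX.PLK

/-- the complete test -/
def NW.fast5 (D : NW) (E : CY) : Bool := D.shT && (D.shF && E.fast5g [] (D.fT E.B) (D.fP E.B))

/-- **certificate of a record NW** -/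
theorem certW5 {D : NW} {E : CY} (hst : E.st = D.st) (h : D.fast5 E = true) (z1 z2 z3 : ℂ) :
    E.st.Good (w3 z1 z2 z3) := by
  simp only [NW.fast5, Bool.and_eq_true] at h
  obtain ⟨h1, h2, h3⟩ := h
  have hN : D.toND.N ≤ E.st.N + E.st.M := by
    rw [hst]
    exact Nat.le_add_right _ _
  refine certF5g h3 z1 z2 z3 (fun θ _ => ⟨0, by simp [TV], le_refl _⟩) (fun θ hθ => ?_) ?_
  · rw [hst]
    exact fT_ok h1 rfl (by rw [hθ]; exact hN) E.B
  · rw [hst]
    exact fP_ok h2 E.B _

/-- the complete test with free squares -/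
def NW.chk5 (D : NW) (E : CQ) : Bool := D.shT && (D.shF && E.chk5g (D.fT E.c.B) (D.fP E.c.B))

/-- **certificate of a record NW with free squares** -/
theorem certWQ5 {D : NW} {E : CQ} (hst : E.c.st = D.st) (h : D.chk5 E = true) (z1 z2 z3 : ℂ) :
    E.c.st.Good (w3 z1 z2 z3) := by
  simp only [NW.chk5, Bool.and_eq_true] at h
  obtain ⟨h1, h2, h3⟩ := h
  have hN : D.toND.N ≤ E.c.st.N + E.c.st.M := by
    rw [hst]
    exact Nat.le_add_right _ _
  refine certQ5g h3 z1 z2 z3 (fun θ hθ => ?_) ?_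
  · rw [hst]
    exact fT_ok h1 rfl (by rw [hθ]; exact hN) E.c.B
  · rw [hst]
    exact fP_ok h2 E.c.B _

end Pool.Agent.FPX.NCD
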