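import Pool.Agent.FPX.NWU
/-!
NWV (helper59). The rows of the linear forms of the record NW, computed from the lists of the record: `NW.fLL`, `NW.fPL`;
complete tests `NW.fast6`, `NW.chk6` with the theorems `certW6`, `certWQ6`; general form `certNI`.
-/
set_option autoImplicit false

noncomputable section

namespace Pool.Agent.FPX.PLK

/-- the complete test with packed table, base forms and rows of the linear forms -/
def CY.fstI (D : CY) (E : Eng 9 (Cx × Cx × Cx)) (X TT : List PV) (PP : List (P6 PV))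
    (LL PL : ℕ → PN → List PN → List ℕ → List (List PV))
    (pu : List (List PV) → List (ℕ × ℕ) → Bool) (fin : List PV → ℕ → List (ℕ × ℕ × ℕ) → Bool) : Bool :=
  let st := D.st
  let C := Nat.pow D.B 9
  let CN := Nat.pow (Nat.pow 2 D.ws) 9
  let n := Nat.add st.N st.M
  let hh := addZ st.Ls st.Hs
  let hn := hh.map fun x => -x
  let es := hh.map fun x => 2 * x
  let hs := hh.map Int.toNat
  let x0 := PN.nrm (PN.ad st.Ls.sum ⟨0, 0⟩)
  let rs := rhos x0 st.Ls
  let κN := Nat.mul 2 (Int.toNat st.κ)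
  let s := runS C es (srs E.O (2 * st.κ) st.Ls.sum st.Ls PP)
  let G := sumG D.B C D.W2 (Nat.pow D.W2 6) D.o2 st.L.length (D.gs.map fun x => Nat.div x D.tag)
  let g2 := Nat.div D.g 2
  let L := LL κN x0 rs hs
  let P := PL κN x0 rs hs
  let Cc := st.C.map fun r => r.map (ofZ D.B)
  let j := jn D.tag (Nat.pow 2 D.pb)
  let ps := D.ps.map fun q => (j q.1, j q.2)
  Nat.beq st.Ls.length st.N && (Nat.beq st.Hs.length st.N &&
    ((st.C.all fun r => r.all fun c => Nat.beq c.length 9) && ((st.L.all fun q => Nat.ble q.2.length (Nat.succ st.M)) &&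
    ((st.P.all fun q => Nat.ble q.2.length (Nat.succ st.M)) && (Nat.beq PP.length st.N && (decide (0 < st.κ) &&
    (Nat.ble (Nat.succ (tabM C hn s).b) D.B && (sbT D.B C g2 L Cc G L && (Nat.ble 1 D.W2 && (pu P ps &&
    fin (addT X (addT (addT (tabS C hn s) (sbF C g2 L Cc G L)) (addT TT (prodL E.f C CN n P ps))))
      (j D.dg) (D.dt.map fun q => (j q.1, j q.2.1, j q.2.2))))))))))))

theorem fstI_eq {D : CY} {E : Eng 9 (Cx × Cx × Cx)} {X TT : List PV} {PP : List (P6 PV)}
    {LL PL : ℕ → PN → List PN → List ℕ → List (List PV)}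
    {pu : List (List PV) → List (ℕ × ℕ) → Bool} {fin : List PV → ℕ → List (ℕ × ℕ × ℕ) → Bool}
    (hL : D.st.Ls.length = D.st.N → D.st.Hs.length = D.st.N → ∀ κ x rs hs, rs.length = D.st.N → hs.length = D.st.N →
      LL κ x rs hs = D.st.L.map (rowL κ x rs hs))
    (hP : D.st.Ls.length = D.st.N → D.st.Hs.length = D.st.N → ∀ κ x rs hs, rs.length = D.st.N → hs.length = D.st.N →
      PL κ x rs hs = D.st.P.map (rowL κ x rs hs))
    (h : D.fstI E X TT PP LL PL pu fin = true) : D.fstH E X TT PP pu fin = true := by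
  have h1 : D.st.Ls.length = D.st.N := by
    simp only [CY.fstI, Bool.and_eq_true] at h
    exact Nat.eq_of_beq_eq_true h.1
  have h2 : D.st.Hs.length = D.st.N := by
    simp only [CY.fstI, Bool.and_eq_true] at h
    exact Nat.eq_of_beq_eq_true h.2.1
  have l1 : ∀ x, (rhos x D.st.Ls).length = D.st.N := fun x => by rw [rhos_length, h1]
  have l2 : ((addZ D.st.Ls D.st.Hs).map Int.toNat).length = D.st.N := by
    rw [List.length_map, addZ_length, h1, h2, max_self]
  have e1 := hL h1 h2 (Nat.mul 2 (Int.toNat D.st.κ)) (PN.nrm (PN.ad D.st.Ls.sum ⟨0, 0⟩))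
    (rhos (PN.nrm (PN.ad D.st.Ls.sum ⟨0, 0⟩)) D.st.Ls) ((addZ D.st.Ls D.st.Hs).map Int.toNat) (l1 _) l2
  have e2 := hP h1 h2 (Nat.mul 2 (Int.toNat D.st.κ)) (PN.nrm (PN.ad D.st.Ls.sum ⟨0, 0⟩))
    (rhos (PN.nrm (PN.ad D.st.Ls.sum ⟨0, 0⟩)) D.st.Ls) ((addZ D.st.Ls D.st.Hs).map Int.toNat) (l1 _) l2
  unfold CY.fstI at h
  unfold CY.fstH
  simp only [] at h ⊢
  rw [e1, e2] at h
  exact h

end Pool.Agent.FPX.PLK

namespace Pool.Agent.FPX.NCD

open Pool.Agent.FPX.PLK
open List (Forall₂)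

/-- constant, coefficient of the first node value, suffix sums: forms in the first node of the cells -/
def runA : PN → List PN → List ℤ → PN × PN × List PN
  | x, y :: rs, as =>
    match runA y rs as.tail with
    | (c, r, li) => (PN.add (PN.sm (as.headD 0) x) c, PN.ad (as.headD 0) r, r :: li)
  | _, [], _ => (⟨0, 0⟩, ⟨0, 0⟩, [])

/-- the entries of the variables, then `t` -/
def entA (r : PN) : List ℕ → List PN → List PV → List PV
  | h :: hs, s :: li, t => PN.en h (PN.add s s) r :: entA r hs li t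
  | _, _, t => t

/-- a row -/
def rowA (κ : ℕ) (x : PN) (rs : List PN) (hs : List ℕ) (e0 : ℤ) (as : List ℤ) (t : List PV) : List PV :=
  match runA x rs as with
  | (c, r, li) => PN.pv (PN.add c (PN.sm e0 ⟨κ, 0⟩)) :: entA r hs li t

theorem runA_eq (κ : ℕ) : ∀ (rs : List PN) (x : PN) (hs : List ℕ) (n : ℕ) (as : List ℤ) (f : ℕ → A3),
    rs.length = n → hs.length = n → (∀ j, j < n → f j = ⟨0, as.getD j 0, 0⟩) →
      runL κ x rs hs (ls n f) = runA x rs as ∧ (runA x rs as).2.2.length = n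
  | [], x, hs, n, as, f, h1, h2, h3 => by
    subst h1
    exact ⟨rfl, rfl⟩
  | y :: rs, x, [], n, as, f, h1, h2, h3 => by
    subst h2
    simp at h1
  | y :: rs, x, h :: hs, 0, as, f, h1, h2, h3 => by simp at h1
  | y :: rs, x, h :: hs, n + 1, as, f, h1, h2, h3 => by
    obtain ⟨i1, i2⟩ := runA_eq κ rs y hs n as.tail (fun j => f (j + 1)) (by simpa using h1) (by simpa using h2)
      fun j hj => by
        rw [h3 (j + 1) (by omega), tail_getD]
    rw [ls_succ]
    simp only [runL, runA]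
    rw [i1, h3 0 (by omega)]
    refine ⟨?_, by simp [i2]⟩
    have e0 : ∀ (z w : PN), PN.add (PN.sm 0 z) w = w := fun z w => by
      obtain ⟨p, n⟩ := z
      obtain ⟨p', n'⟩ := w
      have : (0 : ℤ) = Int.ofNat 0 := rfl
      rw [this]
      simp [PN.sm, PN.add]
    have e1 : ∀ w : PN, PN.ad 0 w = w := fun w => by
      obtain ⟨p', n'⟩ := w
      have : (0 : ℤ) = Int.ofNat 0 := rfl
      rw [this]
      simp [PN.ad]
    simp only [e0, e1, headD_getD]

theorem entA_eq (r : PN) : ∀ (hs : List ℕ) (li : List PN) (t : List PV), hs.length = li.length →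
    entA r hs li t = entL r hs li ++ t
  | [], [], t, _ => rfl
  | h :: hs, s :: li, t, hl => by
    simp only [entA, entL, List.cons_append]
    rw [entA_eq r hs li t (by simpa using hl)]
  | [], _ :: _, t, h => by simp at h
  | _ :: _, [], t, h => by simp at h

theorem rowA_eq {κ : ℕ} {x : PN} {rs : List PN} {hs : List ℕ} {n : ℕ} (h1 : rs.length = n) (h2 : hs.length = n)
    {e0 : ℤ} {e : List ℤ} {as : List ℤ} {f : ℕ → A3} (h3 : ∀ j, j < n → f j = ⟨0, as.getD j 0, 0⟩) {t : List PV}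
    (ht : e.map (smK κ) = t) : rowA κ x rs hs e0 as t = rowL κ x rs hs (ls n f, e0 :: e) := by
  obtain ⟨i1, i2⟩ := runA_eq κ rs x hs n as f h1 h2 h3
  unfold rowA rowL
  simp only []
  rw [i1]
  generalize runA x rs as = R at i2 ⊢
  obtain ⟨c, r, li⟩ := R
  simp only at i2 ⊢
  rw [entA_eq _ _ _ _ (by rw [h2, i2]), ht]

/-- the rows of the moments -/
def momR (κ : ℕ) (x : PN) (rs : List PN) (hs : List ℕ) : ℕ → ℕ → List (List (ℤ × ℤ)) → List ℕ → List (List PV)
  | 0, _, _, _ => []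
  | h + 1, k, ts, es =>
    rowA κ x rs hs (-((es.headD 0 : ℕ) : ℤ)) ((ts.headD []).map Prod.fst)
        (List.replicate k ⟨0, 0, 0⟩ ++ [smK κ (2 * ((es.headD 0 : ℕ) : ℤ))]) ::
      rowA κ x rs hs (-((es.headD 0 : ℕ) : ℤ)) ((ts.headD []).map Prod.snd)
        (⟨0, 0, 0⟩ :: (List.replicate k ⟨0, 0, 0⟩ ++ [smK κ (2 * ((es.headD 0 : ℕ) : ℤ))])) ::
      momR κ x rs hs h (k + 2) ts.tail.tail es.tail.tail

/-- the rows of the linear forms -/
def NW.fLL (D : NW) (κ : ℕ) (x : PN) (rs : List PN) (hs : List ℕ) : List (List PV) :=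
  (rowA κ x rs hs D.toND.zS [] [] :: momR κ x rs hs D.h 0 D.G.t.tail.tail.tail D.en.tail.tail.tail) ++
    (D.E.map fun l => (l.map fun a => (⟨0, a, 0⟩ : A3), [])).map (rowL κ x rs hs)

/-- the rows of the products -/
def NW.fPL (D : NW) (κ : ℕ) (x : PN) (rs : List PN) (hs : List ℕ) : List (List PV) :=
  [rowA κ x rs hs (D.toND.ze 1) ((D.G.t.getD 1 []).map Prod.fst) [],
    rowA κ x rs hs (D.toND.ze 1) ((D.G.t.getD 1 []).map fun p => -p.1) [],
    rowA κ x rs hs (D.toND.ze 1) ((D.G.t.getD 1 []).map Prod.snd) [],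
    rowA κ x rs hs (D.toND.ze 1) ((D.G.t.getD 1 []).map fun p => -p.2) []]

theorem getD_map_z {α : Type} (F : α → ℤ) (d : α) (h : F d = 0) (l : List α) (j : ℕ) :
    (l.map F).getD j 0 = F (l.getD j d) := by
  by_cases hj : j < l.length
  · rw [List.getD_eq_getElem _ _ (by rw [List.length_map]; exact hj), List.getD_eq_getElem _ _ hj, List.getElem_map]
  · rw [List.getD_eq_default _ _ (by rw [List.length_map]; omega), List.getD_eq_default _ _ (by omega), h]

theorem map_rep (κ k : ℕ) (c : ℤ) : (List.replicate k (0 : ℤ) ++ [c]).map (smK κ)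
    = List.replicate k ⟨0, 0, 0⟩ ++ [smK κ c] := by
  have e : smK κ 0 = ⟨0, 0, 0⟩ := rfl
  rw [List.map_append, List.map_replicate, e]
  rfl

theorem momR_eq {D : ND} {κ : ℕ} {x : PN} {rs : List PN} {hs : List ℕ} (h1 : rs.length = D.N) (h2 : hs.length = D.N) :
    ∀ (h k : ℕ) (ts : List (List (ℤ × ℤ))) (es : List ℕ), k % 2 = 0 → (∀ j, ts.getD j [] = D.G.t.getD (k + 3 + j) []) →
      (∀ j, es.getD j 0 = D.en.getD (k + 3 + j) 0) →
      momR κ x rs hs h k ts es = ((List.range (2 * h)).map fun j => ((ls D.N fun i => (⟨0, D.gli (k + j + 1) i, 0⟩ : A3)),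
        -D.eli (k + j + 1) :: (List.replicate (k + j) 0 ++ [2 * D.eli (k + j + 1)]))).map (rowL κ x rs hs)
  | 0, k, ts, es, _, _, _ => rfl
  | h + 1, k, ts, es, hk, ht, he => by
    have ih := momR_eq (D := D) (κ := κ) (x := x) h1 h2 h (k + 2) ts.tail.tail es.tail.tail (by omega)
      (fun j => by
        rw [tail_getD, tail_getD, ht]
        congr 1
        ring)
      (fun j => by
        rw [tail_getD, tail_getD, he]
        congr 1
        ring)
    have e2 : 2 * (h + 1) = 2 * h + 1 + 1 := by ring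
    rw [e2, List.range_succ_eq_map, List.range_succ_eq_map, List.map_cons, List.map_cons, List.map_map, List.map_cons,
      List.map_cons, List.map_map, List.map_map, momR, ih, List.map_map]
    have t0 : ts.headD [] = D.G.t.getD (k + 3) [] := by rw [headD_getD, ht]
    have s0 : ((es.headD 0 : ℕ) : ℤ) = D.ze (k + 3) := by
      rw [headD_getD, he]
      rfl
    have g1 : ∀ i, D.gli (k + 0 + 1) i = (D.zt (k + 3) i).1 := fun i => by
      unfold ND.gli
      rw [if_pos (by omega)]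
    have g2 : ∀ i, D.gli (k + Nat.succ 0 + 1) i = (D.zt (k + 3) i).2 := fun i => by
      unfold ND.gli
      rw [if_neg (by omega)]
    have v1 : D.eli (k + 0 + 1) = D.ze (k + 3) := by
      unfold ND.eli
      rw [if_pos (by omega)]
    have v2 : D.eli (k + Nat.succ 0 + 1) = D.ze (k + 3) := by
      unfold ND.eli
      rw [if_neg (by omega)]
    rw [t0, s0]
    simp only [Function.comp_def]
    rw [v1, v2]
    congr 1
    · refine rowA_eq h1 h2 (fun j _ => ?_) ?_
      · rw [g1, getD_map_z Prod.fst (0, 0) rfl]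
        rfl
      · rw [map_rep]
        rfl
    · congr 1
      · refine rowA_eq h1 h2 (fun j _ => ?_) ?_
        · rw [g2, getD_map_z Prod.snd (0, 0) rfl]
          rfl
        · rw [map_rep]
          rfl
      · refine List.map_congr_left fun j _ => ?_
        rw [show k + 2 + j = k + Nat.succ (Nat.succ j) by
          simp only [Nat.succ_eq_add_one]
          ring]

theorem fLL_eq {D : NW} (κ : ℕ) (x : PN) (rs : List PN) (hs : List ℕ) (h1 : rs.length = D.toND.N)
    (h2 : hs.length = D.toND.N) : D.fLL κ x rs hs = D.st.L.map (rowL κ x rs hs) := by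
  show _ = D.toND.st.L.map (rowL κ x rs hs)
  unfold NW.fLL ND.st
  rw [List.map_append, List.map_cons]
  congr 1
  congr 1
  · refine rowA_eq h1 h2 (fun j _ => ?_) rfl
    rfl
  · rw [momR_eq h1 h2 D.h 0 D.G.t.tail.tail.tail D.en.tail.tail.tail rfl (fun j => by
      rw [tail_getD, tail_getD, tail_getD]
      congr 1
      ring) fun j => by
      rw [tail_getD, tail_getD, tail_getD]
      congr 1
      ring]
    simp only [Nat.zero_add]

theorem fPL_eq {D : NW} (κ : ℕ) (x : PN) (rs : List PN) (hs : List ℕ) (h1 : rs.length = D.toND.N)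
    (h2 : hs.length = D.toND.N) : D.fPL κ x rs hs = D.st.P.map (rowL κ x rs hs) := by
  show _ = D.toND.st.P.map (rowL κ x rs hs)
  unfold NW.fPL ND.st
  simp only [List.map_cons, List.map_nil]
  have e : ∀ (F : ℤ × ℤ → ℤ), F (0, 0) = 0 → rowA κ x rs hs (D.toND.ze 1) ((D.G.t.getD 1 []).map F) []
      = rowL κ x rs hs ((ls D.toND.N fun i => (⟨0, F (D.toND.zt 1 i), 0⟩ : A3)), [D.toND.ze 1]) := by
    intro F hF
    refine rowA_eq h1 h2 (fun j _ => ?_) rfl
    rw [getD_map_z F (0, 0) hF]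
    rfl
  rw [e Prod.fst rfl, e (fun p => -p.1) rfl, e Prod.snd rfl, e (fun p => -p.2) rfl]

/-- **certificate of a record NW, general tests of the multipliers and of the table** -/
theorem certNI {D : NW} {E : CY} {X : List PV} {pu : List (List PV) → List (ℕ × ℕ) → Bool}
    {Eg : Eng 9 (Cx × Cx × Cx)} {z1 z2 z3 : ℂ} (hst : E.st = D.st) (H : Rl Eg.O (RV E.B 9 (w3 z1 z2 z3)))
    {fin : List PV → ℕ → List (ℕ × ℕ × ℕ) → Bool}
    (hfin : ∀ R dg dt, fin R dg dt = true → ∀ (θ : List ℝ) (z : ℝ), θ.length = E.st.N + E.st.M → Box θ →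
      TV E.B 9 (w3 z1 z2 z3) R (1 :: θ) z → 0 ≤ z)
    {g : ℕ → ℝ} (hf : ∀ c, RV E.B 9 (w3 z1 z2 z3) (Eg.f c) (g c)) {t : ℕ → Bool} (htc : ∀ c, t c = true → 0 ≤ g c)
    (hpu : ∀ P ps, pu P ps = true → prodU t Eg.f E.B (E.B ^ 9) ((2 ^ E.ws) ^ 9) (E.st.N + E.st.M) P ps = true)
    (hX : ∀ θ : List ℝ, θ.length = E.st.N + E.st.M → ∃ t, TV E.B 9 (w3 z1 z2 z3) X (1 :: θ) t ∧ t ≤ 0)
    (sT : D.shT = true) (sF : D.shF = true)
    (h : E.fstI Eg X (D.fT E.B) (D.fP E.B) D.fLL D.fPL pu fin = true) : E.st.Good (w3 z1 z2 z3) := by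
  have hN : D.toND.N ≤ E.st.N + E.st.M := by
    rw [hst]
    exact Nat.le_add_right _ _
  refine certFH H hfin hf htc hpu hX (fun θ hθ => ?_) ?_ (fstI_eq ?_ ?_ h)
  · rw [hst]
    exact fT_ok sT rfl (by rw [hθ]; exact hN) E.B
  · rw [hst]
    exact fP_ok sF E.B _
  · rw [hst]
    exact fun _ _ κ x rs hs h1 h2 => fLL_eq κ x rs hs h1 h2
  · rw [hst]
    exact fun _ _ κ x rs hs h1 h2 => fPL_eq κ x rs hs h1 h2

/-- the test with a table of free squares -/
def NW.tst6 (D : NW) (E : CY) (X : List PV) : Bool :=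
  D.shT && (D.shF && (E.pre5 && E.fstI E.E3 X (D.fT E.B) (D.fP E.B) D.fLL D.fPL E.puW E.finW))

theorem tst6_ok {D : NW} {E : CY} {X : List PV} (hst : E.st = D.st) (h : D.tst6 E X = true) (z1 z2 z3 : ℂ)
    (hX : ∀ θ : List ℝ, θ.length = E.st.N + E.st.M → ∃ t, TV E.B 9 (w3 z1 z2 z3) X (1 :: θ) t ∧ t ≤ 0) :
    E.st.Good (w3 z1 z2 z3) := by
  simp only [NW.tst6, Bool.and_eq_true] at h
  obtain ⟨h1, h2, h0, h⟩ := h
  refine certNI hst (rl3 E.B z1 z2 z3) (E.finW_ok z1 z2 z3) (E.f_ok z1 z2 z3 (CY.le5 h0)) (t := fun e => decide (0 ≤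
    ip (w3 z1 z2 z3) (dgs (2 ^ E.ws) 9 e) - E.o * ip (w3 z1 z2 z3) (List.replicate 9 1))) (fun c hc => ?_)
    (CY.puW_ok h0 z1 z2 z3) hX h1 h2 h
  exact mul_nonneg (Nat.cast_nonneg _) (of_decide_eq_true hc)

/-- the complete test -/
def NW.fast6 (D : NW) (E : CY) : Bool := D.tst6 E []

/-- **certificate of a record NW** -/
theorem certW6 {D : NW} {E : CY} (hst : E.st = D.st) (h : D.fast6 E = true) (z1 z2 z3 : ℂ) :
    E.st.Good (w3 z1 z2 z3) :=
  tst6_ok hst h z1 z2 z3 fun θ _ => ⟨0, by simp [TV], le_refl _⟩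

/-- the complete test with free squares -/
def NW.chk6 (D : NW) (E : CQ) : Bool :=
  sqC E.c.B E.o3 (Nat.succ (Nat.add E.c.st.N E.c.st.M)) E.qs.length && D.tst6 E.c E.X5

/-- **certificate of a record NW with free squares** -/
theorem certWQ6 {D : NW} {E : CQ} (hst : E.c.st = D.st) (h : D.chk6 E = true) (z1 z2 z3 : ℂ) :
    E.c.st.Good (w3 z1 z2 z3) := by
  simp only [NW.chk6, Bool.and_eq_true] at h
  refine tst6_ok hst h.2 z1 z2 z3 fun θ hθ => ?_
  refine sqT_ok (Nat.div E.g3 2) ?_ z1 z2 z3 (D := 1 :: θ) ?_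
  · rw [List.length_map]
    exact h.1
  · rw [List.length_cons, hθ]
    rfl

end Pool.Agent.FPX.NCD
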