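import Mathlib
import Pool.Agent.FPX.CST

/-
OMA (helper11): the 1-form `λ = b(c) Im (conj C ∇C) + (1/2) S(c) |C|² Im (conj ζ dζ)` of one third
harmonic `C` (spin 3) on the hemisphere `(ζ, c)`, `c = √(1 - |ζ|²)`, in the smooth frame, and the exact
value of `dλ`.
-/

open MeasureTheory Set Filter Topology
open scoped ENNReal NNReal ContDiff

noncomputable section

namespace Pool.Agent.FPX.OMA

open Pool.Agent.FPX.CST

/-- the height -/
def cc (u : Fin 4 → ℝ) : ℝ := √(1 - (u 0 ^ 2 + u 1 ^ 2))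

/-- the coefficient of `|C|² Im (conj ζ dζ)` -/
def th (b S : ℝ → ℝ) (c : ℝ) : ℝ := S c / 2 - 3 * b c / (1 + c)

/-- `|C|²` -/
def mm (u : Fin 4 → ℝ) : ℝ := u 2 ^ 2 + u 3 ^ 2

/-- the coefficients of `λ` in the coordinates `(Re ζ, Im ζ, Re C, Im C)` -/
def la (b S : ℝ → ℝ) : Fin 4 → (Fin 4 → ℝ) → ℝ :=
  ![fun u => -(th b S (cc u) * mm u * u 1), fun u => th b S (cc u) * mm u * u 0,
    fun u => -(b (cc u) * u 3), fun u => b (cc u) * u 2]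

/-- the domain -/
def OO : Set (Fin 4 → ℝ) := {u | u 0 ^ 2 + u 1 ^ 2 < 1}

theorem isOpen_OO : IsOpen OO := isOpen_lt (by fun_prop) continuous_const

theorem cc_pos {u : Fin 4 → ℝ} (hu : u ∈ OO) : 0 < cc u :=
  Real.sqrt_pos.2 (by have : u 0 ^ 2 + u 1 ^ 2 < 1 := hu; linarith)

theorem cc_sq {u : Fin 4 → ℝ} (hu : u ∈ OO) : cc u ^ 2 = 1 - (u 0 ^ 2 + u 1 ^ 2) :=
  Real.sq_sqrt (by have : u 0 ^ 2 + u 1 ^ 2 < 1 := hu; linarith)

theorem cc_cd {u : Fin 4 → ℝ} (hu : u ∈ OO) : ContDiffAt ℝ 1 cc u := by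
  have h : ContDiffAt ℝ 1 (fun u : Fin 4 → ℝ => 1 - (u 0 ^ 2 + u 1 ^ 2)) u := by fun_prop
  refine h.sqrt ?_
  have : u 0 ^ 2 + u 1 ^ 2 < 1 := hu
  linarith

theorem la_cd {b S : ℝ → ℝ} (hb : ContDiff ℝ 1 b) (hS : ContDiff ℝ 1 S) {u : Fin 4 → ℝ} (hu : u ∈ OO)
    (i : Fin 4) : ContDiffAt ℝ 1 (la b S i) u := by
  have hc := cc_cd hu
  have h1 : ContDiffAt ℝ 1 (fun u => b (cc u)) u := hb.contDiffAt.comp u hc
  have h2 : ContDiffAt ℝ 1 (fun u => S (cc u)) u := hS.contDiffAt.comp u hc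
  have h3 : ContDiffAt ℝ 1 (fun u => th b S (cc u)) u := by
    refine (h2.div_const 2).sub ((contDiffAt_const.mul h1).div (contDiffAt_const.add hc) ?_)
    have := cc_pos hu
    positivity
  have h4 : ContDiffAt ℝ 1 mm u := by unfold mm; fun_prop
  have e : ∀ j : Fin 4, ContDiffAt ℝ 1 (fun u : Fin 4 → ℝ => u j) u := fun j => by fun_prop
  fin_cases i
  · exact ((h3.mul h4).mul (e 1)).neg
  · exact (h3.mul h4).mul (e 0)
  · exact (h1.mul (e 3)).neg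
  · exact h1.mul (e 2)

theorem fd {f : (Fin 4 → ℝ) → ℝ} {u p : Fin 4 → ℝ} {d : ℝ} (hf : DifferentiableAt ℝ f u)
    (h : HasDerivAt (fun s : ℝ => f (u + s • p)) d 0) : fderiv ℝ f u p = d := by
  have h1 : HasDerivAt (fun s : ℝ => u + s • p) p 0 := by
    have := ((hasDerivAt_id (0 : ℝ)).smul_const p).const_add u
    simpa using this
  have h2 : HasFDerivAt f (fderiv ℝ f u) (u + (0 : ℝ) • p) := by
    rw [zero_smul, add_zero]
    exact hf.hasFDerivAt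
  exact (h2.comp_hasDerivAt (0 : ℝ) h1).unique h

/-- the derivative of the height -/
def dc (u p : Fin 4 → ℝ) : ℝ := -(u 0 * p 0 + u 1 * p 1) / cc u

theorem line (u p : Fin 4 → ℝ) (j : Fin 4) : HasDerivAt (fun s : ℝ => (u + s • p) j) (p j) 0 := by
  have h := ((hasDerivAt_id (0 : ℝ)).mul_const (p j)).const_add (u j)
  simpa using h

theorem cc_line {u : Fin 4 → ℝ} (hu : u ∈ OO) (p : Fin 4 → ℝ) :
    HasDerivAt (fun s : ℝ => cc (u + s • p)) (dc u p) 0 := by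
  have h0 := line u p 0
  have h1 := line u p 1
  have h := ((h0.pow 2).add (h1.pow 2)).const_sub 1
  have hp := cc_pos hu
  have hne : (1 : ℝ) - (((u + (0 : ℝ) • p) 0) ^ 2 + ((u + (0 : ℝ) • p) 1) ^ 2) ≠ 0 := by
    have : u 0 ^ 2 + u 1 ^ 2 < 1 := hu
    rw [zero_smul, add_zero]
    linarith
  have h2 := h.sqrt hne
  have e : √(1 - (((u + (0 : ℝ) • p) 0) ^ 2 + ((u + (0 : ℝ) • p) 1) ^ 2)) = cc u := by
    rw [zero_smul, add_zero]; rfl
  refine h2.congr_deriv ?_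
  change -(((2 : ℕ) : ℝ) * ((u + (0 : ℝ) • p) 0) ^ (2 - 1) * p 0
    + ((2 : ℕ) : ℝ) * ((u + (0 : ℝ) • p) 1) ^ (2 - 1) * p 1)
    / (2 * √(1 - (((u + (0 : ℝ) • p) 0) ^ 2 + ((u + (0 : ℝ) • p) 1) ^ 2))) = dc u p
  rw [e, zero_smul, add_zero, dc]
  push_cast
  field_simp

/-- the derivative of `th` -/
def th' (b b' S' : ℝ → ℝ) (c : ℝ) : ℝ := S' c / 2 - (3 * b' c / (1 + c) - 3 * b c * (1 / (1 + c)) ^ 2)

theorem th_der {b S b' S' : ℝ → ℝ} {c : ℝ} (hc : 0 < c) (hb : HasDerivAt b (b' c) c)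
    (hS : HasDerivAt S (S' c) c) : HasDerivAt (th b S) (th' b b' S' c) c := by
  have h1 : HasDerivAt (fun x : ℝ => 1 + x) 1 c := (hasDerivAt_id c).const_add 1
  have hne : (1 : ℝ) + c ≠ 0 := by positivity
  have h := (hS.div_const 2).sub ((hb.const_mul 3).div h1 hne)
  refine h.congr_deriv ?_
  unfold th'
  field_simp

/-- the derivative of the coefficients -/
theorem la_fd {b S b' S' : ℝ → ℝ} (hb : ContDiff ℝ 1 b) (hS : ContDiff ℝ 1 S)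
    (hb' : ∀ c, HasDerivAt b (b' c) c) (hS' : ∀ c, HasDerivAt S (S' c) c) {u : Fin 4 → ℝ} (hu : u ∈ OO)
    (p : Fin 4 → ℝ) :
    fderiv ℝ (la b S 0) u p = -((th' b b' S' (cc u) * dc u p * mm u
      + th b S (cc u) * (2 * (u 2 * p 2 + u 3 * p 3))) * u 1 + th b S (cc u) * mm u * p 1) ∧
    fderiv ℝ (la b S 1) u p = (th' b b' S' (cc u) * dc u p * mm u
      + th b S (cc u) * (2 * (u 2 * p 2 + u 3 * p 3))) * u 0 + th b S (cc u) * mm u * p 0 ∧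
    fderiv ℝ (la b S 2) u p = -(b' (cc u) * dc u p * u 3 + b (cc u) * p 3) ∧
    fderiv ℝ (la b S 3) u p = b' (cc u) * dc u p * u 2 + b (cc u) * p 2 := by
  have hc := cc_line hu p
  have hp := cc_pos hu
  have e0 : cc (u + (0 : ℝ) • p) = cc u := by rw [zero_smul, add_zero]
  have h1 : HasDerivAt (fun s : ℝ => th b S (cc (u + s • p))) (th' b b' S' (cc u) * dc u p) 0 := by
    have h := th_der hp (hb' (cc u)) (hS' (cc u))
    rw [← e0] at h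
    have := h.comp (0 : ℝ) hc
    rw [e0] at this
    exact this
  have h2 : HasDerivAt (fun s : ℝ => b (cc (u + s • p))) (b' (cc u) * dc u p) 0 := by
    have h := hb' (cc u)
    rw [← e0] at h
    have := h.comp (0 : ℝ) hc
    rw [e0] at this
    exact this
  have h3 : HasDerivAt (fun s : ℝ => mm (u + s • p)) (2 * (u 2 * p 2 + u 3 * p 3)) 0 := by
    have h := ((line u p 2).pow 2).add ((line u p 3).pow 2)
    refine h.congr_deriv ?_
    simp only [zero_smul, add_zero]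
    ring
  have dd : ∀ i, DifferentiableAt ℝ (la b S i) u := fun i =>
    (la_cd hb hS hu i).differentiableAt (by norm_num)
  refine ⟨fd (dd 0) ?_, fd (dd 1) ?_, fd (dd 2) ?_, fd (dd 3) ?_⟩
  · refine (((h1.mul h3).mul (line u p 1)).neg).congr_deriv ?_
    simp only [zero_smul, add_zero, Pi.mul_apply]
  · refine ((h1.mul h3).mul (line u p 0)).congr_deriv ?_
    simp only [zero_smul, add_zero, Pi.mul_apply]
  · refine ((h2.mul (line u p 3)).neg).congr_deriv ?_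
    simp only [zero_smul, add_zero]
  · refine (h2.mul (line u p 2)).congr_deriv ?_
    simp only [zero_smul, add_zero]

/-- the value of `dλ` in the smooth frame; `v`, `w` velocities, `n`, `m` covariant derivatives of `C` -/
def omq (b b' S S' c x y r s v1 v2 w1 w2 n1 n2 m1 m2 : ℝ) : ℝ :=
  2 * b * (n1 * m2 - n2 * m1) - 3 * b * (r ^ 2 + s ^ 2) * (v1 * w2 - v2 * w1)
    - b' * ((x * v1 + y * v2) * (r * m2 - s * m1) - (x * w1 + y * w2) * (r * n2 - s * n1))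
    + (c * S - (1 - c ^ 2) * S' / 2) * (r ^ 2 + s ^ 2) * (v1 * w2 - v2 * w1)
    + S * ((r * n1 + s * n2) * (x * w2 - y * w1) - (r * m1 + s * m2) * (x * v2 - y * v1))

theorem alg {b b' S S' c k x y r s v1 v2 w1 w2 n1 n2 m1 m2 p0 p1 p2 p3 q0 q1 q2 q3 : ℝ}
    (hk : k * (1 + c) = 1) (hc : c ^ 2 = 1 - (x ^ 2 + y ^ 2))
    (hp0 : p0 = v1 - x * (x * v1 + y * v2) * k) (hp1 : p1 = v2 - y * (x * v1 + y * v2) * k)
    (hp2 : p2 = n1 - 3 * ((x * v2 - y * v1) * k) * s) (hp3 : p3 = n2 + 3 * ((x * v2 - y * v1) * k) * r)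
    (hq0 : q0 = w1 - x * (x * w1 + y * w2) * k) (hq1 : q1 = w2 - y * (x * w1 + y * w2) * k)
    (hq2 : q2 = m1 - 3 * ((x * w2 - y * w1) * k) * s) (hq3 : q3 = m2 + 3 * ((x * w2 - y * w1) * k) * r) :
    (-(((S' / 2 - (3 * b' * k - 3 * b * k ^ 2)) * -(x * v1 + y * v2) * (r ^ 2 + s ^ 2)
        + (S / 2 - 3 * b * k) * (2 * (r * p2 + s * p3))) * y + (S / 2 - 3 * b * k) * (r ^ 2 + s ^ 2) * p1) * q0
      - -(((S' / 2 - (3 * b' * k - 3 * b * k ^ 2)) * -(x * w1 + y * w2) * (r ^ 2 + s ^ 2)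
        + (S / 2 - 3 * b * k) * (2 * (r * q2 + s * q3))) * y + (S / 2 - 3 * b * k) * (r ^ 2 + s ^ 2) * q1) * p0)
    + ((((S' / 2 - (3 * b' * k - 3 * b * k ^ 2)) * -(x * v1 + y * v2) * (r ^ 2 + s ^ 2)
        + (S / 2 - 3 * b * k) * (2 * (r * p2 + s * p3))) * x + (S / 2 - 3 * b * k) * (r ^ 2 + s ^ 2) * p0) * q1
      - (((S' / 2 - (3 * b' * k - 3 * b * k ^ 2)) * -(x * w1 + y * w2) * (r ^ 2 + s ^ 2)
        + (S / 2 - 3 * b * k) * (2 * (r * q2 + s * q3))) * x + (S / 2 - 3 * b * k) * (r ^ 2 + s ^ 2) * q0) * p1)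
    + (-(b' * -(x * v1 + y * v2) * s + b * p3) * q2 - -(b' * -(x * w1 + y * w2) * s + b * q3) * p2)
    + ((b' * -(x * v1 + y * v2) * r + b * p2) * q3 - (b' * -(x * w1 + y * w2) * r + b * q2) * p3)
    = omq b b' S S' c x y r s v1 v2 w1 w2 n1 n2 m1 m2 := by
  have key : k ^ 2 * (x ^ 2 + y ^ 2) + 2 * k * c = 1 := by
    linear_combination (k * (1 - c) + 1) * hk + k ^ 2 * hc
  have e2 : k * (x ^ 2 + y ^ 2) = 1 - c := by
    linear_combination (1 - c) * hk + k * hc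
  have e3 : x ^ 2 + y ^ 2 = 1 - c ^ 2 := by linarith
  unfold omq
  rw [hp0, hp1, hp2, hp3, hq0, hq1, hq2, hq3]
  linear_combination (-3 * b * (r ^ 2 + s ^ 2) * (v1 * w2 - v2 * w1)) * key
    - (2 * (S / 2 - 3 * b * k) * (r ^ 2 + s ^ 2) * (v1 * w2 - v2 * w1)) * e2
    - (S' / 2 * (r ^ 2 + s ^ 2) * (v1 * w2 - v2 * w1)) * e3

/-- **the value of `dλ`** -/
theorem dl_eq {b S b' S' : ℝ → ℝ} (hb : ContDiff ℝ 1 b) (hS : ContDiff ℝ 1 S)
    (hb' : ∀ c, HasDerivAt b (b' c) c) (hS' : ∀ c, HasDerivAt S (S' c) c) {u : Fin 4 → ℝ} (hu : u ∈ OO)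
    {p q : Fin 4 → ℝ} {v1 v2 w1 w2 n1 n2 m1 m2 : ℝ}
    (hp0 : p 0 = v1 - u 0 * (u 0 * v1 + u 1 * v2) / (1 + cc u))
    (hp1 : p 1 = v2 - u 1 * (u 0 * v1 + u 1 * v2) / (1 + cc u))
    (hp2 : p 2 = n1 - 3 * ((u 0 * v2 - u 1 * v1) / (1 + cc u)) * u 3)
    (hp3 : p 3 = n2 + 3 * ((u 0 * v2 - u 1 * v1) / (1 + cc u)) * u 2)
    (hq0 : q 0 = w1 - u 0 * (u 0 * w1 + u 1 * w2) / (1 + cc u))
    (hq1 : q 1 = w2 - u 1 * (u 0 * w1 + u 1 * w2) / (1 + cc u))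
    (hq2 : q 2 = m1 - 3 * ((u 0 * w2 - u 1 * w1) / (1 + cc u)) * u 3)
    (hq3 : q 3 = m2 + 3 * ((u 0 * w2 - u 1 * w1) / (1 + cc u)) * u 2) :
    dl (fun i u => fderiv ℝ (la b S i) u) u p q =
      omq (b (cc u)) (b' (cc u)) (S (cc u)) (S' (cc u)) (cc u) (u 0) (u 1) (u 2) (u 3)
        v1 v2 w1 w2 n1 n2 m1 m2 := by
  have hc := cc_pos hu
  have hc2 := cc_sq hu
  obtain ⟨a0, a1, a2, a3⟩ := la_fd hb hS hb' hS' hu p
  obtain ⟨c0, c1, c2, c3⟩ := la_fd hb hS hb' hS' hu q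
  have hk : 1 / (1 + cc u) * (1 + cc u) = 1 := by field_simp
  have dcv : ∀ {p : Fin 4 → ℝ} {v1 v2 : ℝ}, p 0 = v1 - u 0 * (u 0 * v1 + u 1 * v2) / (1 + cc u) →
      p 1 = v2 - u 1 * (u 0 * v1 + u 1 * v2) / (1 + cc u) → dc u p = -(u 0 * v1 + u 1 * v2) := by
    intro p v1 v2 h0 h1
    rw [dc, h0, h1]
    field_simp
    linear_combination (u 0 * v1 + u 1 * v2) * hc2
  have d1 := dcv hp0 hp1
  have d2 := dcv hq0 hq1
  have h := alg (b := b (cc u)) (b' := b' (cc u)) (S := S (cc u)) (S' := S' (cc u)) (c := cc u)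
    (k := 1 / (1 + cc u)) (x := u 0) (y := u 1) (r := u 2) (s := u 3) (v1 := v1) (v2 := v2) (w1 := w1)
    (w2 := w2) (n1 := n1) (n2 := n2) (m1 := m1) (m2 := m2) (p0 := p 0) (p1 := p 1) (p2 := p 2) (p3 := p 3)
    (q0 := q 0) (q1 := q 1) (q2 := q 2) (q3 := q 3) hk hc2 (by rw [hp0]; ring) (by rw [hp1]; ring)
    (by rw [hp2]; ring) (by rw [hp3]; ring) (by rw [hq0]; ring) (by rw [hq1]; ring)
    (by rw [hq2]; ring) (by rw [hq3]; ring)
  rw [← h, dl, Fin.sum_univ_four, a0, a1, a2, a3, c0, c1, c2, c3, d1, d2]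
  unfold th th' mm
  ring

end Pool.Agent.FPX.OMA
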