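import Mathlib
import Pool.Agent.FPX.OMT

/-
OMU (helper8): the boundary conditions for the forms of OMT and the inequality and the area bound on every surface from
the certificate.
-/

open MeasureTheory Set Filter Topology Complex
open scoped ENNReal NNReal ContDiff ComplexConjugate

noncomputable section

namespace Pool.Agent.FPX.OMT

open Pool.Agent.FPX Pool.Agent.FPX.UMP Pool.Agent.FPX.UMQ Pool.Agent.FPX.UXA Pool.Agent.EWD
open Pool.Agent.FPX.F54 (X1 X2 dX1 dX2 X_lt X_G1 X_G2 vF sF)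
open Pool.Agent.FPX.S54 (dS2 dS0 mS Fv ME YY de)
open Pool.Agent.FPX.OMB (vm vm_int vm_prob bm_ep bm_real)
open Pool.Agent.FPX.CRD (Bm)
open Pool.Agent.FPX.CST (cu du dl gv gt nu ja zt ss hh OO cj lab tt Sys)
open Pool.Agent.FPX.OMS (rF cF cF_eq Aa Ba Kc ME_vm Kc_meas Kc_le AB_eq)
open Pool.Agent.FPX.SYS (P7 dP7 sys7 CE dCE K2 K0 P11 dP11 sys11 R1 dR1 K3 mR nR pj7 pj7_cu pj7_du)
open Pool.Agent.FPX.OM7 (Cof cd NC NS D5 L3 M7 W1 G7 val_G7 mk7 bv Cp Cm cF_pos cF_le small nz C3_le dC3_le)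

/-- the growth conditions at the boundary -/
structure Cof11.Bo (F : Cof11) : Prop where
  C : F.C.Bo
  g1 : Tendsto (fun c => F.g1 (1 - c ^ 2) * c ^ 2) (𝓝[>] 0) (𝓝 0)
  g2 : Tendsto (fun c => F.g2 (1 - c ^ 2) * c ^ 2) (𝓝[>] 0) (𝓝 0)
  x5 : Tendsto (fun c => F.x5 (1 - c ^ 2) * c) (𝓝[>] 0) (𝓝 0)
  y5 : Tendsto (fun c => F.y5 (1 - c ^ 2) * c) (𝓝[>] 0) (𝓝 0)
  u : Tendsto (fun c => F.u (1 - c ^ 2) * c ^ 3) (𝓝[>] 0) (𝓝 0)
  w : Tendsto (fun c => F.w (1 - c ^ 2) * c ^ 3) (𝓝[>] 0) (𝓝 0)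

variable {F : Cof11}

theorem C5_le {f : ℝ → ℝ} (hf : Ef f) : ‖CE 5 f‖ ≤ 22 * cF f := by
  have h1 := S54Z.MM_map_le 5 1 hf
  rw [cF_eq] at h1
  have e : CE 5 f = S54.MM 5 (fun u : ℝ => u ^ 1) (X1 f) (X2 f) f := by
    rw [SYS.CE_eq hf 5]
    unfold F54.SM
    simp only [pow_one]
    rfl
  rw [e]
  linarith

theorem R1_le {f : ℝ → ℝ} (hf : Ef f) : ‖R1 f‖ ≤ 1331 * cF f ^ 3 := by
  have h1 := S54Z.MM_map_le 1 3 hf
  rw [cF_eq] at h1
  have e : R1 f = ((1 / 2 : ℝ) : ℂ) * S54.MM 1 (fun u : ℝ => u ^ 3) (X1 f) (X2 f) f := SYS.TE_eq 3 1 f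
  rw [e, norm_mul, Complex.norm_real, Real.norm_eq_abs, abs_of_pos (by norm_num : (0 : ℝ) < 1 / 2)]
  calc 1 / 2 * ‖S54.MM 1 (fun u : ℝ => u ^ 3) (X1 f) (X2 f) f‖ ≤ 1 / 2 * (2 * (11 * cF f) ^ 3) := by
        linarith
    _ = _ := by ring

theorem G11_small (H : F.Bo) {ε : ℝ} (hε : 0 < ε) :
    ∃ η : ℝ, 0 < η ∧ ∀ f, Ef f → CST.cc (cu P11 f) < η → ‖G11 F (cu P11 f)‖ ≤ ε := by
  obtain ⟨a0, p0, q0⟩ := OM7.G7_small H.C (ε := ε / 7) (by positivity)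
  obtain ⟨a1, p1, q1⟩ := small (k := 2) H.g1 (ε := ε / (7 * 484)) (by positivity)
  obtain ⟨a2, p2, q2⟩ := small (k := 2) H.g2 (ε := ε / (7 * 484)) (by positivity)
  obtain ⟨a3, p3, q3⟩ := small (k := 1) (by simpa using H.x5) (ε := ε / (7 * 22)) (by positivity)
  obtain ⟨a4, p4, q4⟩ := small (k := 1) (by simpa using H.y5) (ε := ε / (7 * 22)) (by positivity)
  obtain ⟨a5, p5, q5⟩ := small (k := 3) H.u (ε := ε / (7 * 1331)) (by positivity)
  obtain ⟨a6, p6, q6⟩ := small (k := 3) H.w (ε := ε / (7 * 1331)) (by positivity)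
  refine ⟨min a0 (min (min a1 (min a2 a3)) (min a4 (min a5 a6))),
    by simp only [lt_min_iff]; exact ⟨p0, ⟨p1, p2, p3⟩, p4, p5, p6⟩, fun f hf hc => ?_⟩
  rw [ccu] at hc
  simp only [lt_min_iff] at hc
  obtain ⟨c0, ⟨c1, c2, c3⟩, c4, c5, c6⟩ := hc
  have hz := nz hf
  have hc0 := cF_pos hf
  have s3 := C3_le hf
  have s5 := C5_le hf
  have sR := R1_le hf
  have hzn : ∀ k : ℕ, ‖YY (X1 f) (X2 f)‖ ^ k ≤ 1 := fun k => pow_le_one₀ (norm_nonneg _) hz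
  have s35 : ‖CE 3 f‖ * ‖CE 5 f‖ ≤ 484 * cF f ^ 2 := by
    calc ‖CE 3 f‖ * ‖CE 5 f‖ ≤ (22 * cF f) * (22 * cF f) := mul_le_mul s3 s5 (norm_nonneg _) (by positivity)
      _ = _ := by ring
  have b0 : ‖hG7 F (cu P11 f)‖ ≤ ε / 7 := by
    have := q0 f hf (by rw [OM7.ccu]; exact c0)
    unfold hG7
    rwa [pj7_cu]
  have b1 : ‖hA F (cu P11 f)‖ ≤ ε / 7 := by
    unfold hA
    rw [rru, ztu, SYS.cj_C3_11, SYS.cj_C5_11, norm_mul, norm_mul, norm_pow, norm_mul, Complex.norm_conj,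
      Complex.norm_real, Real.norm_eq_abs]
    calc |F.g1 (rF f)| * ‖YY (X1 f) (X2 f)‖ ^ 1 * (‖CE 3 f‖ * ‖CE 5 f‖)
        ≤ |F.g1 (rF f)| * 1 * (484 * cF f ^ 2) := by
          gcongr
          exact hzn 1
      _ = 484 * (|F.g1 (rF f)| * cF f ^ 2) := by ring
      _ ≤ 484 * (ε / (7 * 484)) := by
          gcongr
          exact q1 f hf c1
      _ = ε / 7 := by ring
  have b2 : ‖hB F (cu P11 f)‖ ≤ ε / 7 := by
    unfold hB
    rw [rru, ztu, SYS.cj_C3_11, SYS.cj_C5_11, norm_mul, norm_mul, norm_pow, norm_mul, Complex.norm_conj,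
      Complex.norm_conj, Complex.norm_real, Real.norm_eq_abs]
    calc |F.g2 (rF f)| * ‖YY (X1 f) (X2 f)‖ ^ (2 + 1) * (‖CE 3 f‖ * ‖CE 5 f‖)
        ≤ |F.g2 (rF f)| * 1 * (484 * cF f ^ 2) := by
          gcongr
          exact hzn _
      _ = 484 * (|F.g2 (rF f)| * cF f ^ 2) := by ring
      _ ≤ 484 * (ε / (7 * 484)) := by
          gcongr
          exact q2 f hf c2
      _ = ε / 7 := by ring
  have b3 : ‖hX F (cu P11 f)‖ ≤ ε / 7 := by
    unfold hX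
    rw [rru, ztu, SYS.cj_C5_11, norm_mul, norm_mul, norm_pow, Complex.norm_conj, Complex.norm_real,
      Real.norm_eq_abs]
    calc |F.x5 (rF f)| * ‖YY (X1 f) (X2 f)‖ ^ 4 * ‖CE 5 f‖ ≤ |F.x5 (rF f)| * 1 * (22 * cF f) := by
          gcongr
          exact hzn _
      _ = 22 * (|F.x5 (rF f)| * cF f ^ 1) := by ring
      _ ≤ 22 * (ε / (7 * 22)) := by
          gcongr
          exact q3 f hf c3
      _ = ε / 7 := by ring
  have b4 : ‖hY F (cu P11 f)‖ ≤ ε / 7 := by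
    unfold hY
    rw [rru, ztu, SYS.cj_C5_11, norm_mul, norm_mul, norm_pow, Complex.norm_conj, Complex.norm_real,
      Real.norm_eq_abs]
    calc |F.y5 (rF f)| * ‖YY (X1 f) (X2 f)‖ ^ (5 + 1) * ‖CE 5 f‖ ≤ |F.y5 (rF f)| * 1 * (22 * cF f) := by
          gcongr
          exact hzn _
      _ = 22 * (|F.y5 (rF f)| * cF f ^ 1) := by ring
      _ ≤ 22 * (ε / (7 * 22)) := by
          gcongr
          exact q4 f hf c4
      _ = ε / 7 := by ring
  have b5 : ‖hU F (cu P11 f)‖ ≤ ε / 7 := by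
    unfold hU
    rw [rru, ztu, SYS.cj_R_11, norm_mul, norm_mul, norm_pow, Complex.norm_conj, Complex.norm_real,
      Real.norm_eq_abs]
    calc |F.u (rF f)| * ‖YY (X1 f) (X2 f)‖ ^ 0 * ‖R1 f‖ ≤ |F.u (rF f)| * 1 * (1331 * cF f ^ 3) := by
          gcongr
          exact hzn _
      _ = 1331 * (|F.u (rF f)| * cF f ^ 3) := by ring
      _ ≤ 1331 * (ε / (7 * 1331)) := by
          gcongr
          exact q5 f hf c5
      _ = ε / 7 := by ring
  have b6 : ‖hV F (cu P11 f)‖ ≤ ε / 7 := by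
    unfold hV
    rw [rru, ztu, SYS.cj_R_11, norm_mul, norm_mul, norm_pow, Complex.norm_conj, Complex.norm_real,
      Real.norm_eq_abs]
    calc |F.w (rF f)| * ‖YY (X1 f) (X2 f)‖ ^ (1 + 1) * ‖R1 f‖ ≤ |F.w (rF f)| * 1 * (1331 * cF f ^ 3) := by
          gcongr
          exact hzn _
      _ = 1331 * (|F.w (rF f)| * cF f ^ 3) := by ring
      _ ≤ 1331 * (ε / (7 * 1331)) := by
          gcongr
          exact q6 f hf c6
      _ = ε / 7 := by ring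
  have n1 := norm_add_le (hU F (cu P11 f)) (hV F (cu P11 f))
  have n2 := norm_add_le (hY F (cu P11 f)) (hU F (cu P11 f) + hV F (cu P11 f))
  have n3 := norm_add_le (hX F (cu P11 f)) (hY F (cu P11 f) + (hU F (cu P11 f) + hV F (cu P11 f)))
  have n4 := norm_add_le (hB F (cu P11 f)) (hX F (cu P11 f) + (hY F (cu P11 f) + (hU F (cu P11 f)
    + hV F (cu P11 f))))
  have n5 := norm_add_le (hA F (cu P11 f)) (hB F (cu P11 f) + (hX F (cu P11 f) + (hY F (cu P11 f)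
    + (hU F (cu P11 f) + hV F (cu P11 f)))))
  have n6 := norm_add_le (hG7 F (cu P11 f)) (hA F (cu P11 f) + (hB F (cu P11 f) + (hX F (cu P11 f)
    + (hY F (cu P11 f) + (hU F (cu P11 f) + hV F (cu P11 f))))))
  unfold G11
  linarith

theorem lab_small (H : F.C.Bo) {ε : ℝ} (hε : 0 < ε) :
    ∃ η : ℝ, 0 < η ∧ ∀ f h, Ef f → Measurable h → (∀ t, |h t| ≤ 1) → CST.cc (cu P11 f) < η →
      |∑ i, lab 3 F.C.b 5 6 i (cu P11 f) * du dP11 f h i| ≤ ε := by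
  obtain ⟨η, h0, h1⟩ := OM7.lab_small H hε
  refine ⟨η, h0, fun f h hf hm hb hc => ?_⟩
  have key := h1 f h hf hm hb (by rw [OM7.ccu]; rwa [ccu] at hc)
  have v11 : ∀ {n : ℕ} (j k : Fin (n + 2)) (hjk : j ≠ k) (u p : Fin (n + 2) → ℝ),
      ∑ i, lab 3 F.C.b j k i u * p i = F.C.b (CST.rr u) * (conj (cj j k u) * cj j k p).im
        + ((CST.phb 3 F.C.b (CST.rr u) : ℂ) * conj (zt u) * ((normSq (cj j k u) : ℝ) : ℂ) * CST.vv u p).im := by
    intro n j k hjk u p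
    have e1 : ∀ i, lab 3 F.C.b j k i u * p i = CST.lab0 F.C.b j k i u * p i
        + gv (fun u => (CST.phb 3 F.C.b (CST.rr u) : ℂ) * conj (zt u) ^ (0 + 1)
            * ((normSq (cj j k u) : ℝ) : ℂ)) i u * p i := fun i => by
      unfold lab
      ring
    simp only [e1]
    rw [Finset.sum_add_distrib, CST.sum_gv]
    congr 1
    · have e2 : ∀ i, CST.lab0 F.C.b j k i u * p i =
          (if i = j then -(F.C.b (CST.rr u) * u k) * p i else 0)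
            + (if i = k then F.C.b (CST.rr u) * u j * p i else 0) := fun i => by
        unfold CST.lab0
        by_cases h1 : i = j
        · simp [h1, hjk]
        · simp [h1]
      simp only [e2]
      rw [Finset.sum_add_distrib, Finset.sum_ite_eq', Finset.sum_ite_eq']
      simp only [Finset.mem_univ, if_true]
      simp only [cj, mul_im, conj_re, conj_im]
      ring
    · simp
  rw [v11 5 6 (by decide)] at key ⊢
  rw [OM7.rru, OM7.ztu, OM7.vvu, SYS.cj_C3_7, SYS.cj_dC3_7] at key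
  rw [rru, ztu, vvu, SYS.cj_C3_11, SYS.cj_dC3_11]
  exact key

variable {n' : ℕ} {Φ' : Fin (n' + 2) → (ℝ → ℝ) → ℝ} {dΦ' : Fin (n' + 2) → (ℝ → ℝ) → (ℝ → ℝ) → ℝ} {K' L' : ℝ}

/-- **the inequality on every surface with the deviation of the start map `Φ'`** -/
theorem raw11 (S' : Sys Φ' dΦ' K' L') {Bx : OM7.Dev} (HD : OM7.IsDev Φ' dΦ' Bx) {W : ℝ → ℝ}
    (hW : ContDiffOn ℝ 1 W (Ioi 0)) (hW0 : ContinuousOn W (Ici 0)) (HF : F.Sm) (HB : F.Bo) {μ T : ℝ}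
    (H : Cert11 Bx W F μ T) {e : ℝ} (he : 0 < e) :
    ∃ d : ℝ, 0 < d ∧ ∀ (M : Type) [MetricSpace M] [CompactSpace M] (γ : ℝ → M) (C : Calc M γ), Bd γ →
      ∀ (ρ : ℝ) (m : ℕ), 0 ≤ ρ → ρ < 1 → 2 ≤ m → (1 - ρ) * (Real.pi / 2) + 2 * (Real.pi / m) ≤ d →
        Integrable (CST.nur C fun i => pull γ ρ m (Φ' i)) C.μ ∧
        2 * Real.pi * W 0 - e + μ * ∫ o, CST.nur C (fun i => pull γ ρ m (Φ' i)) o ∂C.μ ≤ T * C.vol :=
  CST.raw_le_two sys11 S' hW hW0 HF.cG11 (fun _ hε => G11_small HB hε)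
    (fun i => CST.contDiffOn_lab HF.C.b 5 6 i) (fun _ hε => lab_small HB.C hε)
    (fun _ _ _ hf V => hst_of HD hW HF H hf V) he

/-- `B` is the deviation of F54 -/
theorem isDev_F54 : OM7.IsDev P7 dP7 (fun _ _ B _ _ _ _ _ => B) := fun f h k _ _ => OM7.nub f h k

/-- **the area bound on every surface, from the certificate** -/
theorem area11 {W : ℝ → ℝ} (hW : ContDiffOn ℝ 1 W (Ioi 0)) (hW0 : ContinuousOn W (Ici 0)) (HF : F.Sm)
    (HB : F.Bo) {T : ℝ} (H : Cert11 (fun _ _ B _ _ _ _ _ => B) W F 0 T) (M : Type) [MetricSpace M]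
    [CompactSpace M] (γ : ℝ → M) (C : Calc M γ) (hγ : Bd γ) : 2 * Real.pi * W 0 ≤ T * C.vol :=
  CST.area_le_add sys11 hW hW0 HF.cG11 (fun _ hε => G11_small HB hε)
    (fun i => CST.contDiffOn_lab HF.C.b 5 6 i) (fun _ hε => lab_small HB.C hε)
    (fun f h k hf V => by
      have := hst_of isDev_F54 hW HF H hf V
      rwa [zero_mul, add_zero] at this) M γ C hγ

end Pool.Agent.FPX.OMT
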