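import Mathlib
import Pool.Agent.FPX.OMU

/-
OMV (helper8): the certificate of OMT with a deviation which is an arbitrary function of the state and of `K, A, B`.
-/

open MeasureTheory Set Filter Topology Complex
open scoped ENNReal NNReal ContDiff ComplexConjugate

noncomputable section

namespace Pool.Agent.FPX.OMT

open Pool.Agent.FPX Pool.Agent.FPX.UMP Pool.Agent.FPX.UMQ Pool.Agent.FPX.UXA Pool.Agent.EWD
open Pool.Agent.FPX.F54 (X1 X2 dX1 dX2 X_lt X_G1 X_G2 vF sF)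
open Pool.Agent.FPX.S54 (YY de)
open Pool.Agent.FPX.OMB (vm vm_int vm_prob bm_ep bm_real)
open Pool.Agent.FPX.CRD (Bm)
open Pool.Agent.FPX.CST (cu du dl gv gt nu ja OO cj lab Sys)
open Pool.Agent.FPX.OMS (rF cF cF_eq Aa Ba Kc ME_vm Kc_meas Kc_le AB_eq)
open Pool.Agent.FPX.SYS (P7 dP7 sys7 P11 dP11 sys11)
open Pool.Agent.FPX.OM7 (bv Cp Cm)

variable {F : Cof11}
variable {n' : ℕ} {Φ' : Fin (n' + 2) → (ℝ → ℝ) → ℝ} {dΦ' : Fin (n' + 2) → (ℝ → ℝ) → (ℝ → ℝ) → ℝ} {K' L' : ℝ}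

/-- deviations which are functions of the state and of `K, A, B` -/
abbrev DevK := (ℝ → ℝ) → (ℝ → ℂ) → ℂ → ℂ → ℂ

/-- `Bk` is the deviation of the start map `Φ'` -/
def IsDevK (Φ' : Fin (n' + 2) → (ℝ → ℝ) → ℝ) (dΦ' : Fin (n' + 2) → (ℝ → ℝ) → (ℝ → ℝ) → ℝ) (Bk : DevK) : Prop :=
  ∀ f h k, Ef f → Var h k → nu (cu Φ' f) (du dΦ' f h) (du dΦ' f k) =
    2 * ‖Bk f (Kc h k) (Aa f h k) (Ba f h k)‖ ^ 2

theorem isDevK_of {Bx : OM7.Dev} (H : OM7.IsDev Φ' dΦ' Bx) : IsDevK Φ' dΦ' (OM7.devK Bx) := by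
  intro f h k hf V
  rw [H f h k hf V]
  unfold OM7.devK
  rw [(OM7.NC_pm hf V).1, (OM7.NC_pm hf V).2, (OM7.NS_pm hf V).1, (OM7.NS_pm hf V).2, OM7.K0_pm hf V]

/-- the certificate at one state, with the deviation `Bk` -/
def CertAt11K (Bk : DevK) (W : ℝ → ℝ) (F : Cof11) (μ T : ℝ) (f : ℝ → ℝ) : Prop :=
  ∀ K : ℝ → ℂ, Measurable K → (∀ t, ‖K t‖ ≤ 1) → ∀ A B : ℂ,
    A - sF f * conj B = ∫ t, C54.ep (X1 f) (X2 f) t * conj (K t) ∂(vm (X1 f) (X2 f)) →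
    B - sF f * conj A = ∫ t, C54.ep (X1 f) (X2 f) t * K t ∂(vm (X1 f) (X2 f)) →
    W11 W F f * (‖A‖ ^ 2 - ‖B‖ ^ 2)
      + 2 * (A * ∫ t, mk11 F f t * K t ∂(vm (X1 f) (X2 f))).re
      - 2 * (B * ∫ t, mk11 F f t * conj (K t) ∂(vm (X1 f) (X2 f))).re
      + bv F.C f A B (Cp f A B (∫ t, C54.ep (X1 f) (X2 f) t ^ 3 * conj (K t) ∂(vm (X1 f) (X2 f))))
          (Cm f A B (∫ t, C54.ep (X1 f) (X2 f) t ^ 3 * K t ∂(vm (X1 f) (X2 f))))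
      + 2 * μ * ‖Bk f K A B‖ ^ 2 ≤ T

/-- **the certificate with the deviation `Bk`** -/
def Cert11K (Bk : DevK) (W : ℝ → ℝ) (F : Cof11) (μ T : ℝ) : Prop := ∀ f, Ef f → CertAt11K Bk W F μ T f

theorem certAt11_iff {Bx : OM7.Dev} {W : ℝ → ℝ} {μ T : ℝ} {f : ℝ → ℝ} :
    CertAt11 Bx W F μ T f ↔ CertAt11K (OM7.devK Bx) W F μ T f := Iff.rfl

theorem hst_ofK {Bk : DevK} (HD : IsDevK Φ' dΦ' Bk) {W : ℝ → ℝ} (hW : ContDiffOn ℝ 1 W (Ioi 0))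
    (HF : F.Sm) {μ T : ℝ} (H : Cert11K Bk W F μ T) {f h k : ℝ → ℝ} (hf : Ef f) (V : Var h k) :
    dl (fun i u => fderiv ℝ (gv (gt W (G11 F)) i) u) (cu P11 f) (du dP11 f h) (du dP11 f k)
      + dl (fun i u => fderiv ℝ (lab 3 F.C.b 5 6 i) u) (cu P11 f) (du dP11 f h) (du dP11 f k)
      + μ * nu (cu Φ' f) (du dΦ' f h) (du dΦ' f k) ≤ T := by
  have hu : cu P11 f ∈ OO 9 := sys11.mem hf
  have hc : 0 < cF f := OM7.cF_pos hf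
  have hW' : HasDerivAt W (deriv W (cF f)) (CST.cc (cu P11 f)) := by
    rw [ccu]
    exact ((hW.contDiffAt (Ioi_mem_nhds hc)).differentiableAt one_ne_zero).hasDerivAt
  rw [CST.dl_gt hW HF.cG11 hu hW', val_G11 HF hf, val_b HF hf V, HD f h k hf V, mix hf V, jau, OM7.jab, rru,
    ccu]
  obtain ⟨e1, e2⟩ := AB_eq hf V
  have := H f hf (Kc h k) (Kc_meas V) (Kc_le V) _ _ e1 e2
  unfold W11 OM7.W7 at this
  linarith

/-- **the inequality on every surface with the deviation of the start map `Φ'`** -/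
theorem raw11K (S' : Sys Φ' dΦ' K' L') {Bk : DevK} (HD : IsDevK Φ' dΦ' Bk) {W : ℝ → ℝ}
    (hW : ContDiffOn ℝ 1 W (Ioi 0)) (hW0 : ContinuousOn W (Ici 0)) (HF : F.Sm) (HB : F.Bo) {μ T : ℝ}
    (H : Cert11K Bk W F μ T) {e : ℝ} (he : 0 < e) :
    ∃ d : ℝ, 0 < d ∧ ∀ (M : Type) [MetricSpace M] [CompactSpace M] (γ : ℝ → M) (C : Calc M γ), Bd γ →
      ∀ (ρ : ℝ) (m : ℕ), 0 ≤ ρ → ρ < 1 → 2 ≤ m → (1 - ρ) * (Real.pi / 2) + 2 * (Real.pi / m) ≤ d →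
        Integrable (CST.nur C fun i => pull γ ρ m (Φ' i)) C.μ ∧
        2 * Real.pi * W 0 - e + μ * ∫ o, CST.nur C (fun i => pull γ ρ m (Φ' i)) o ∂C.μ ≤ T * C.vol :=
  CST.raw_le_two sys11 S' hW hW0 HF.cG11 (fun _ hε => G11_small HB hε)
    (fun i => CST.contDiffOn_lab HF.C.b 5 6 i) (fun _ hε => lab_small HB.C hε)
    (fun _ _ _ hf V => hst_ofK HD hW HF H hf V) he

end Pool.Agent.FPX.OMT
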