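import Mathlib
import Pool.Agent.FPX.PHM

/-
PHL (helper30): the interface of the method of near-minimisers with the stretched test field `λ Θ`
(class `e^Y W(2λ, λ²)`): the first variation holds for every even Lipschitz
`D ≥ e^{-Y} - λ⟨v, Θ⟩`, `D ≥ -Y` (`phi_lam`). `ae_sup`: the gradient of a maximum.
-/

open MeasureTheory Set Filter Topology
open scoped ENNReal NNReal

noncomputable section

namespace Pool.Agent.FPX

open Pool.Agent.EWD

variable {M : Type} [MetricSpace M] {γ : ℝ → M}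

/-! ### the gradient of a maximum -/

private theorem PHL_der {f h : ℝ → ℝ} {a b c : ℝ} (hf : HasDerivAt f a 0) (hh : HasDerivAt h b 0)
    (hm : HasDerivAt (fun s => max (f s) (h s)) c 0) :
    (h 0 ≤ f 0 → c = a) ∧ (f 0 ≤ h 0 → c = b) := by
  have key : ∀ {f h : ℝ → ℝ} {a b c : ℝ}, HasDerivAt f a 0 → HasDerivAt h b 0 →
      HasDerivAt (fun s => max (f s) (h s)) c 0 → h 0 ≤ f 0 → c = a := by
    intro f h a b c hf hh hm hle
    rcases hle.lt_or_eq with hlt | heq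
    · have h1 : (fun s => max (f s) (h s)) =ᶠ[𝓝 0] f := by
        have h2 : ∀ᶠ s in 𝓝 (0 : ℝ), h s < f s :=
          (hh.continuousAt.eventually_lt hf.continuousAt hlt)
        filter_upwards [h2] with s hs
        exact max_eq_left hs.le
      exact hm.unique (hf.congr_of_eventuallyEq h1)
    · -- `max f h - f ≥ 0` with a minimum at `0`
      have h1 : HasDerivAt (fun s => max (f s) (h s) - f s) (c - a) 0 := hm.sub hf
      have h2 : IsLocalMin (fun s => max (f s) (h s) - f s) 0 := by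
        refine Eventually.of_forall fun s => ?_
        simp only
        rw [heq, max_self, sub_self]
        exact sub_nonneg.mpr (le_max_left _ _)
      have h3 := h2.hasDerivAt_eq_zero h1
      linarith
  refine ⟨key hf hh hm, fun h => ?_⟩
  refine key hh hf ?_ h
  simpa only [max_comm] using hm

theorem lip_sup {u w : M → ℝ} (hu : Lip u) (hw : Lip w) : Lip fun x => max (u x) (w x) := by
  obtain ⟨K, hK⟩ := hu
  obtain ⟨L, hL⟩ := hw
  exact ⟨max K L, hK.max hL⟩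

/-- the gradient of a maximum -/
theorem ae_sup (C : Calc M γ) {u w : M → ℝ} (hu : Lip u) (hw : Lip w) : ∀ᵐ o ∂C.μ,
    (w (C.pt o) ≤ u (C.pt o) → C.gx (fun x => max (u x) (w x)) o = C.gx u o ∧
      C.gy (fun x => max (u x) (w x)) o = C.gy u o) ∧
    (u (C.pt o) ≤ w (C.pt o) → C.gx (fun x => max (u x) (w x)) o = C.gx w o ∧
      C.gy (fun x => max (u x) (w x)) o = C.gy w o) := by
  filter_upwards [C.ae_has hu, C.ae_has hw, C.ae_has (lip_sup hu hw)] with o h1 h2 h3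
  have e1 : C.px o 0 = C.pt o := rfl
  have e2 : C.py o 0 = C.pt o := C.same o
  have k1 := PHL_der h1.1 h2.1 h3.1
  have k2 := PHL_der h1.2 h2.2 h3.2
  simp only [e1] at k1
  simp only [e2] at k2
  exact ⟨fun h => ⟨k1.1 h, k2.1 h⟩, fun h => ⟨k1.2 h, k2.2 h⟩⟩

/-! ### the stretched test field -/

theorem InW.smul {Λ E : ℝ} {x y : E3} (h : InW Λ E x y) {c : ℝ} (hc : 0 ≤ c) :
    InW (c * Λ) (c ^ 2 * E) (c • x) (c • y) := by
  refine ⟨fun w hw => ?_, fun w hw => ?_, ?_⟩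
  · rw [prj_smul, crs_smul, ← smul_sub, norm_smul, Real.norm_eq_abs, abs_of_nonneg hc]
    exact mul_le_mul_of_nonneg_left (h.m w hw) hc
  · rw [prj_smul, crs_smul, ← smul_add, norm_smul, Real.norm_eq_abs, abs_of_nonneg hc]
    exact mul_le_mul_of_nonneg_left (h.p w hw) hc
  · rw [norm_smul, norm_smul, Real.norm_eq_abs, abs_of_nonneg hc]
    nlinarith [h.s, sq_nonneg c]

omit [MetricSpace M] in
/-- `λ Z` -/
theorem vv_lam (lam : ℝ) (Z : Fin 3 → M → ℝ) (x : M) :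
    vv (n := 0) (fun k x => lam * Z k x) x = lam • vv (n := 0) Z x := by
  ext k
  fin_cases k <;> rfl

/-- `λ Θ` is a test field of the class `W(2λ, λ²)` -/
theorem Th_TZ_lam (C : Calc M γ) (F : Fam γ) {lam : ℝ} (hl : 0 ≤ lam) :
    TZ C (2 * lam) (lam ^ 2) (7 * lam) (fun k x => lam * F.Th k x) := by
  have h := Th_TZ C F (Λ := 2) (E := 1) le_rfl le_rfl
  refine ⟨fun k => (h.lip k).const_mul lam, fun k t => ?_, fun x => ?_, ?_⟩
  · have h1 := h.odd k t
    show lam * F.Th k (γ (t + Real.pi)) = -(lam * F.Th k (γ t))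
    rw [h1]
    ring
  · rw [vv_lam, norm_smul, Real.norm_eq_abs, abs_of_nonneg hl]
    have := mul_le_mul_of_nonneg_left (h.bd x) hl
    linarith
  · filter_upwards [h.inW] with o ho
    rw [(dx_smul C lam F.Th o).1, (dx_smul C lam F.Th o).2]
    have := ho.smul hl
    rwa [mul_one, mul_comm lam 2] at this

theorem dnuC_lam (C : Calc M γ) (v Z : Fin 3 → M → ℝ) (lam : ℝ) (o : Om) :
    dnuC C v (fun k x => lam * Z k x) o = lam * dnuC C v Z o := by
  unfold dnuC dnu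
  rw [(dx_smul C lam Z o).1, (dx_smul C lam Z o).2, qm_smul, inner_smul_right]
  have e : at' C (fun k x => lam * Z k x) o = lam • at' C Z o := by
    ext k
    fin_cases k <;> rfl
  rw [e, inner_smul_right]
  ring

variable [CompactSpace M]

/-- **interface with the stretched test field** -/
theorem phi_lam (C : Calc M γ) (hγ : Bd γ) (hR : RegAE C) {φ φ' : ℝ → ℝ} {s L : ℝ} (P : Pen φ φ' s L)
    {lam : ℝ} (hl : 1 ≤ lam) {a b : ℝ} (ha : 0 ≤ a) (hb : 0 ≤ b)
    {U : Fin 3 → M → ℝ} {Y₀ : M → ℝ} (hU : KY C (2 * lam) (lam ^ 2) U Y₀)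
    (hUJ : ∫ o, jac C U o ∂C.μ = 2 * Real.pi)
    {X : ℝ} (hUX : PhY C φ a b U Y₀ < X) (hX : X < 2 * Real.pi) {K₂ G₀ : ℝ}
    (hG₀ : 0 ≤ G₀) (hK₂ : 0 ≤ K₂) {ε : ℝ} (hε : 0 < ε) :
    ∃ (v : Fin 3 → M → ℝ) (Y : M → ℝ) (F : Fam γ), KY C (2 * lam) (lam ^ 2) v Y ∧
      ∫ o, jac C v o ∂C.μ = 2 * Real.pi ∧ PhY C φ a b v Y < X ∧ Pre γ F.Th ∧
      (∀ q : Om → ℝ, Integrable q C.μ →
        (∀ᵐ o ∂C.μ, QLow (at' C v o) (dx C v o) (dy C v o) (dx C F.Th o) (dy C F.Th o) (q o)) →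
        ∫ o, q o ∂C.μ ≤ 3 * (C.vol - 2 * Real.pi) + ε) ∧
      ∀ D : M → ℝ, Lip D → EvenB γ D →
        (∀ x, Real.exp (-Y x) - lam * inner ℝ (vv (n := 0) v x) (vv (n := 0) F.Th x) ≤ D x) →
        (∀ x, -Y x ≤ D x) → (∀ x, |D x| ≤ G₀) → a * ∫ o, G2 C D D o ∂C.μ ≤ K₂ →
        -ε ≤ lam * ∫ o, φ' (nuC C v o) * dnuC C v F.Th o ∂C.μ + a * ∫ o, G2 C Y D o ∂C.μ
          + b * ∫ o, Y (C.pt o) * D (C.pt o) ∂C.μ := by
  obtain ⟨v, Y, hv, hvJ, hvX, hvar⟩ := emy C hγ hR P (Λ := 2 * lam) (E := lam ^ 2) (by linarith)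
    (by positivity) ha hb hU hUJ hUX hX (K := 7 * lam) (by linarith) hG₀ hK₂ hε
  have hpi := Real.pi_pos
  obtain ⟨F, hF, hfl⟩ := fam_of C hγ hR hv.sph (ε := Real.pi / 12 * ε) (by positivity)
  refine ⟨v, Y, F, hv, hvJ, hvX, hF, fun q hq h => ?_, fun D hD eD d1 d2 d3 d4 => ?_⟩
  · have h1 := int_QLow_le C hv.sph F hfl hvJ.le hq h
    have e : 12 / Real.pi * (Real.pi / 12 * ε) = ε := by
      field_simp
    linarith
  · have h1 := hvar (fun k x => lam * F.Th k x) D (Th_TZ_lam C F (by linarith)) hD eD (fun x => ?_) d2 d3 d4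
    · refine h1.trans (le_of_eq ?_)
      have e : ∫ o, φ' (nuC C v o) * dnuC C v (fun k x => lam * F.Th k x) o ∂C.μ =
          lam * ∫ o, φ' (nuC C v o) * dnuC C v F.Th o ∂C.μ := by
        rw [← integral_const_mul]
        refine integral_congr_ae (Eventually.of_forall fun o => ?_)
        simp only
        rw [dnuC_lam]
        ring
      rw [e]
    · rw [vv_lam, inner_smul_right]
      exact d1 x

end Pool.Agent.FPX
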