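import Pool.Agent.FPX.PLA
/-!
PKA (helper1). Packed functions: spreading of digits, six components, products of packed rows.
-/
set_option autoImplicit false

noncomputable section

namespace Pool.Agent.FPX.PLK

open List (Forall₂)

/-- packing of a function -/
def oF (C : ℕ) : (ℕ → ℕ) → ℕ → ℕ
  | _, 0 => 0
  | f, m + 1 => f 0 + C * oF C (fun i => f (i + 1)) m

theorem oF_congr {C : ℕ} : ∀ (m : ℕ) {f g : ℕ → ℕ}, (∀ i < m, f i = g i) → oF C f m = oF C g m
  | 0, _, _, _ => rfl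
  | m + 1, f, g, h => by
    simp only [oF]
    rw [h 0 (by omega), oF_congr m (f := fun i => f (i + 1)) (g := fun i => g (i + 1)) fun i hi => h (i + 1) (by omega)]

theorem oF_add (C : ℕ) : ∀ (m : ℕ) (f g : ℕ → ℕ), oF C f m + oF C g m = oF C (fun i => f i + g i) m
  | 0, _, _ => rfl
  | m + 1, f, g => by
    simp only [oF]
    rw [← oF_add C m (fun i => f (i + 1)) (fun i => g (i + 1))]
    ring

theorem oF_mul (C c : ℕ) : ∀ (m : ℕ) (f : ℕ → ℕ), c * oF C f m = oF C (fun i => c * f i) m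
  | 0, _ => rfl
  | m + 1, f => by
    simp only [oF]
    rw [← oF_mul C c m (fun i => f (i + 1))]
    ring

theorem oF_zero (C : ℕ) : ∀ m : ℕ, oF C (fun _ => 0) m = 0
  | 0 => rfl
  | m + 1 => by
    simp only [oF]
    rw [oF_zero C m]
    ring

theorem oF_append (C : ℕ) : ∀ (a b : ℕ) (f : ℕ → ℕ), oF C f (a + b) = oF C f a + C ^ a * oF C (fun i => f (a + i)) b
  | 0, b, f => by simp [oF]
  | a + 1, b, f => by
    rw [show a + 1 + b = (a + b) + 1 by ring]
    simp only [oF]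
    rw [oF_append C a b fun i => f (i + 1)]
    have e : (fun i => f (a + i + 1)) = fun i => f (a + 1 + i) := by
      funext i
      rw [show a + i + 1 = a + 1 + i by ring]
    rw [e]
    ring

theorem oF_trunc (C : ℕ) {f : ℕ → ℕ} {m M : ℕ} (h : m ≤ M) (hf : ∀ i, m ≤ i → f i = 0) : oF C f M = oF C f m := by
  obtain ⟨k, rfl⟩ := Nat.exists_eq_add_of_le h
  rw [oF_append, oF_congr (C := C) k (f := fun i => f (m + i)) (g := fun _ => 0) fun i _ => hf _ (by omega), oF_zero]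
  ring

theorem oF_land {q m : ℕ} {f : ℕ → ℕ} (h : f 0 < 2 ^ q) : oF (2 ^ q) f (m + 1) &&& (2 ^ q - 1) = f 0 := by
  rw [Nat.and_two_pow_sub_one_eq_mod]
  simp only [oF]
  rw [Nat.add_mul_mod_self_left, Nat.mod_eq_of_lt h]

theorem oF_shr {q m : ℕ} {f : ℕ → ℕ} (h : f 0 < 2 ^ q) :
    oF (2 ^ q) f (m + 1) >>> q = oF (2 ^ q) (fun i => f (i + 1)) m := by
  rw [Nat.shiftRight_eq_div_pow]
  simp only [oF]
  rw [Nat.add_mul_div_left _ _ (by positivity), Nat.div_eq_of_lt h, Nat.zero_add]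

/-- the lane `[s, s + t)` of every chunk -/
theorem oF_ext {q s t : ℕ} (hst : s + t ≤ q) : ∀ (m M : ℕ) (f : ℕ → ℕ), m ≤ M → (∀ i < m, f i < 2 ^ q) →
    (oF (2 ^ q) f m >>> s) &&& oF (2 ^ q) (fun _ => 2 ^ t - 1) M = oF (2 ^ q) (fun i => (f i >>> s) % 2 ^ t) m
  | 0, _, _, _, _ => by simp [oF]
  | m + 1, 0, _, h, _ => by omega
  | m + 1, M + 1, f, h, hf => by
    simp only [oF]
    rw [shr_step hst (hf 0 (by omega)), oF_ext hst m M (fun i => f (i + 1)) (by omega) fun i hi => hf (i + 1) (by omega)]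

/-! ### spreading -/

/-- levels of the spreading -/
def lvls (w cb : ℕ) : ℕ → List (ℕ × ℕ)
  | 0 => []
  | d + 1 => (Nat.pow 2 (Nat.mul w (Nat.pow 2 d)), Nat.mul cb (Nat.pow 2 d)) :: lvls w cb d

/-- the digits move to distance `cb` -/
def spH : List (ℕ × ℕ) → ℕ → ℕ
  | [], x => x
  | (W, s) :: l, x => cond (Nat.beq x 0) 0 (Nat.add (spH l (Nat.mod x W)) (Nat.shiftLeft (spH l (Nat.div x W)) s))

theorem dig_mod {w M x i : ℕ} (h : i + 1 ≤ M) : x % 2 ^ (w * M) / 2 ^ (w * i) % 2 ^ w = x / 2 ^ (w * i) % 2 ^ w := by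
  have h1 : w * i + w ≤ w * M := by
    have := Nat.mul_le_mul_left w h
    rw [Nat.mul_add, Nat.mul_one] at this
    exact this
  obtain ⟨k, hk⟩ := Nat.exists_eq_add_of_le h1
  rw [hk, pow_add, pow_add, mul_assoc, Nat.mod_mul_right_div_self, Nat.mod_mul_right_mod]

theorem spH_ok (w cb : ℕ) : ∀ (d x : ℕ), x < 2 ^ (w * 2 ^ d) →
    spH (lvls w cb d) x = oF (2 ^ cb) (fun i => x / 2 ^ (w * i) % 2 ^ w) (2 ^ d)
  | 0, x, h => by
    simp only [lvls, spH, pow_zero, oF, Nat.mul_zero, Nat.div_one, Nat.add_zero]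
    rw [pow_zero, Nat.mul_one] at h
    exact (Nat.mod_eq_of_lt h).symm
  | d + 1, x, h => by
    have hd : 2 ^ (d + 1) = 2 ^ d + 2 ^ d := by ring
    simp only [lvls, spH]
    by_cases hx : x = 0
    · subst hx
      have e : (fun i => 0 / 2 ^ (w * i) % 2 ^ w) = fun _ => 0 := by
        funext i
        rw [Nat.zero_div, Nat.zero_mod]
      rw [e, oF_zero]
      rfl
    · have hb : Nat.beq x 0 = false := by
        cases x with
        | zero => exact absurd rfl hx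
        | succ n => rfl
      rw [hb]
      change spH (lvls w cb d) (x % 2 ^ (w * 2 ^ d)) + (spH (lvls w cb d) (x / 2 ^ (w * 2 ^ d))) <<< (cb * 2 ^ d) = _
      have h2 : x / 2 ^ (w * 2 ^ d) < 2 ^ (w * 2 ^ d) := by
        refine Nat.div_lt_of_lt_mul ?_
        rw [← pow_add, ← Nat.mul_add, ← hd]
        exact h
      rw [spH_ok w cb d _ (Nat.mod_lt _ (by positivity)), spH_ok w cb d _ h2, Nat.shiftLeft_eq, hd, oF_append, ← pow_mul,
        Nat.mul_comm (oF _ _ _) (2 ^ (cb * 2 ^ d))]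
      congr 1
      · exact oF_congr _ fun i hi => dig_mod (by omega)
      · congr 1
        refine oF_congr _ fun i _ => ?_
        rw [Nat.div_div_eq_div_mul, ← pow_add, Nat.mul_add]

theorem spH_mod {w cb d m x : ℕ} (hm : m ≤ 2 ^ d) :
    spH (lvls w cb d) (x % 2 ^ (w * m)) = oF (2 ^ cb) (fun i => x / 2 ^ (w * i) % 2 ^ w) m := by
  have h0 : x % 2 ^ (w * m) < 2 ^ (w * m) := Nat.mod_lt _ (by positivity)
  have h1 : 2 ^ (w * m) ≤ 2 ^ (w * 2 ^ d) := Nat.pow_le_pow_right (by norm_num) (Nat.mul_le_mul_left w hm)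
  rw [spH_ok w cb d _ (h0.trans_le h1), oF_trunc _ hm]
  · exact oF_congr _ fun i hi => dig_mod (by omega)
  · intro i hi
    rw [Nat.div_eq_of_lt (h0.trans_le (Nat.pow_le_pow_right (by norm_num) (Nat.mul_le_mul_left w hi))), Nat.zero_mod]

/-! ### six components -/

/-- chunk with six components, positions 0 10 1 9 3 7 -/
def LX (X : ℕ) (v : ℕ → ℕ) : ℕ :=
  v 0 + X ^ 10 * v 1 + (X * v 2 + X ^ 9 * v 3) + (X ^ 3 * v 4 + X ^ 7 * v 5)

/-- component `t` of a chunk -/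
def cpH (b t v : ℕ) : ℕ := (v >>> (b * t)) % 2 ^ b

/-- row with separated components -/
def rwH (b β M y : ℕ) : ℕ :=
  Nat.add (Nat.add (Nat.land y M) (Nat.shiftLeft (Nat.land (Nat.shiftRight y b) M) (Nat.mul 10 β)))
    (Nat.add (Nat.add (Nat.shiftLeft (Nat.land (Nat.shiftRight y (Nat.mul 2 b)) M) β)
      (Nat.shiftLeft (Nat.land (Nat.shiftRight y (Nat.mul 3 b)) M) (Nat.mul 9 β)))
      (Nat.add (Nat.shiftLeft (Nat.land (Nat.shiftRight y (Nat.mul 4 b)) M) (Nat.mul 3 β))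
        (Nat.shiftLeft (Nat.land (Nat.shiftRight y (Nat.mul 5 b)) M) (Nat.mul 7 β))))

theorem rwH_ok {q b β m M : ℕ} {f : ℕ → ℕ} (hb : 6 * b ≤ q) (hm : m ≤ M) (hf : ∀ i < m, f i < 2 ^ q) :
    rwH b β (oF (2 ^ q) (fun _ => 2 ^ b - 1) M) (oF (2 ^ q) f m)
      = oF (2 ^ q) (fun i => LX (2 ^ β) fun t => cpH b t (f i)) m := by
  have key : ∀ t, t < 6 → Nat.land (Nat.shiftRight (oF (2 ^ q) f m) (Nat.mul t b)) (oF (2 ^ q) (fun _ => 2 ^ b - 1) M)
      = oF (2 ^ q) (fun i => cpH b t (f i)) m := by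
    intro t ht
    have h1 : t * b + b ≤ q := by
      have : (t + 1) * b ≤ 6 * b := Nat.mul_le_mul_right b (by omega)
      rw [Nat.add_mul, Nat.one_mul] at this
      omega
    change (oF (2 ^ q) f m >>> (t * b)) &&& _ = _
    rw [oF_ext h1 m M f hm hf]
    refine oF_congr _ fun i _ => ?_
    unfold cpH
    rw [Nat.mul_comm t b]
  have k0 := key 0 (by norm_num)
  have k1 := key 1 (by norm_num)
  have k2 := key 2 (by norm_num)
  have k3 := key 3 (by norm_num)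
  have k4 := key 4 (by norm_num)
  have k5 := key 5 (by norm_num)
  have z0 : Nat.shiftRight (oF (2 ^ q) f m) (Nat.mul 0 b) = oF (2 ^ q) f m := by
    change (oF (2 ^ q) f m) >>> (0 * b) = _
    rw [Nat.zero_mul, Nat.shiftRight_zero]
  have z1 : Nat.mul 1 b = b := Nat.one_mul b
  rw [z0] at k0
  rw [z1] at k1
  unfold rwH
  rw [k0, k1, k2, k3, k4, k5]
  change _ + _ <<< (10 * β) + (_ <<< β + _ <<< (9 * β) + (_ <<< (3 * β) + _ <<< (7 * β))) = _
  simp only [Nat.shiftLeft_eq]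
  have e : ∀ a c : ℕ, a * 2 ^ (c * β) = (2 ^ β) ^ c * a := by
    intro a c
    rw [← pow_mul, Nat.mul_comm β c, Nat.mul_comm]
  rw [e, e, e, e, Nat.mul_comm _ (2 ^ β), oF_mul, oF_mul, oF_mul, oF_mul, oF_mul, oF_add, oF_add, oF_add, oF_add, oF_add]
  refine oF_congr _ fun i _ => ?_
  simp only [LX]
  ring

end Pool.Agent.FPX.PLK
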