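import Pool.Agent.FPX.PKA
/-!
PKB (helper1). Sums of products of packed rows with six components: all nine real forms of all chunks at once.
-/
set_option autoImplicit false

noncomputable section

namespace Pool.Agent.FPX.PLK

open List (Forall₂)

theorem oF_lt {C : ℕ} : ∀ (m : ℕ) {f : ℕ → ℕ}, (∀ i < m, f i < C) → oF C f m < C ^ m
  | 0, _, _ => by simp [oF]
  | m + 1, f, h => by
    have h0 := h 0 (by omega)
    have ih := oF_lt m (f := fun i => f (i + 1)) fun i hi => h (i + 1) (by omega)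
    simp only [oF]
    have : C * (oF C (fun i => f (i + 1)) m + 1) ≤ C * C ^ m := Nat.mul_le_mul_left _ ih
    rw [pow_succ, Nat.mul_comm (C ^ m)]
    rw [Nat.mul_add, Nat.mul_one] at this
    omega

theorem oF_dig {β : ℕ} : ∀ (s m : ℕ) (z : ℕ → ℕ), s < m → (∀ i < m, z i < 2 ^ β) →
    (oF (2 ^ β) z m >>> (β * s)) % 2 ^ β = z s
  | 0, 0, _, h, _ => by omega
  | 0, m + 1, z, _, hz => by
    have := oF_land (q := β) (m := m) (hz 0 (by omega))
    rw [Nat.and_two_pow_sub_one_eq_mod] at this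
    rw [Nat.mul_zero, Nat.shiftRight_zero]
    exact this
  | s + 1, 0, _, h, _ => by omega
  | s + 1, m + 1, z, h, hz => by
    rw [show β * (s + 1) = β + β * s by ring, Nat.shiftRight_add, oF_shr (hz 0 (by omega))]
    exact oF_dig s m (fun i => z (i + 1)) (by omega) fun i hi => hz (i + 1) (by omega)

theorem oF_sum (X : ℕ) : ∀ (m : ℕ) (z : ℕ → ℕ), oF X z m = ∑ s ∈ Finset.range m, X ^ s * z s
  | 0, _ => by simp [oF]
  | m + 1, z => by
    simp only [oF]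
    rw [oF_sum X m, Finset.sum_range_succ', Finset.mul_sum, pow_zero, Nat.one_mul, Nat.add_comm]
    congr 1
    refine Finset.sum_congr rfl fun s _ => ?_
    ring

/-! ### coefficients of a product -/

/-- coefficient `s` of the product of two chunks -/
def cS (s : ℕ) (u v : ℕ → ℤ) : ℤ :=
  match s with
  | 0 => u 0 * v 0
  | 1 => u 0 * v 2 + u 2 * v 0
  | 2 => u 2 * v 2
  | 3 => u 0 * v 4 + u 4 * v 0
  | 4 => u 2 * v 4 + u 4 * v 2
  | 6 => u 4 * v 4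
  | 7 => u 0 * v 5 + u 5 * v 0
  | 8 => u 2 * v 5 + u 5 * v 2
  | 9 => u 0 * v 3 + u 3 * v 0
  | 10 => (u 0 * v 1 + u 1 * v 0) + (u 2 * v 3 + u 3 * v 2) + (u 4 * v 5 + u 5 * v 4)
  | 11 => u 1 * v 2 + u 2 * v 1
  | 12 => u 3 * v 4 + u 4 * v 3
  | 13 => u 1 * v 4 + u 4 * v 1
  | 14 => u 5 * v 5
  | 16 => u 3 * v 5 + u 5 * v 3
  | 17 => u 1 * v 5 + u 5 * v 1
  | 18 => u 3 * v 3
  | 19 => u 1 * v 3 + u 3 * v 1
  | 20 => u 1 * v 1
  | _ => 0

/-- chunk of integers -/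
def LZ (X : ℤ) (v : ℕ → ℤ) : ℤ :=
  v 0 + X ^ 10 * v 1 + (X * v 2 + X ^ 9 * v 3) + (X ^ 3 * v 4 + X ^ 7 * v 5)

theorem LZ_mul (X : ℤ) (u v : ℕ → ℤ) : LZ X u * LZ X v = ∑ s ∈ Finset.range 21, X ^ s * cS s u v := by
  simp only [Finset.sum_range_succ, Finset.sum_range_zero, cS, LZ]
  ring

theorem LX_cast (X o : ℕ) (a : ℕ → ℕ) :
    ((LX X a : ℕ) : ℤ) = LZ X (fun t => (a t : ℤ) - o) + o * (LX X (fun _ => 1) : ℕ) := by
  simp only [LX, LZ]
  push_cast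
  ring

theorem cS_bound {u v : ℕ → ℤ} {o : ℤ} (hu : ∀ t, |u t| ≤ o) (hv : ∀ t, |v t| ≤ o) (s : ℕ) :
    |cS s u v| ≤ 6 * o ^ 2 := by
  have ho : 0 ≤ o := (abs_nonneg _).trans (hu 0)
  have k : ∀ a b, |u a * v b| ≤ o ^ 2 := by
    intro a b
    rw [abs_mul, sq]
    exact mul_le_mul (hu a) (hv b) (abs_nonneg _) ho
  have k1 : ∀ a b, u a * v b ≤ o ^ 2 := fun a b => (abs_le.1 (k a b)).2
  have k2 : ∀ a b, -o ^ 2 ≤ u a * v b := fun a b => (abs_le.1 (k a b)).1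
  have h0 : 0 ≤ o ^ 2 := sq_nonneg o
  rw [abs_le]
  unfold cS
  split <;> constructor <;>
    linarith [k1 0 0, k1 0 2, k1 2 0, k1 2 2, k1 0 4, k1 4 0, k1 2 4, k1 4 2, k1 4 4, k1 0 5, k1 5 0, k1 2 5, k1 5 2,
      k1 0 3, k1 3 0, k1 0 1, k1 1 0, k1 2 3, k1 3 2, k1 4 5, k1 5 4, k1 1 2, k1 2 1, k1 3 4, k1 4 3, k1 1 4, k1 4 1,
      k1 5 5, k1 3 5, k1 5 3, k1 1 5, k1 5 1, k1 3 3, k1 1 3, k1 3 1, k1 1 1,
      k2 0 0, k2 0 2, k2 2 0, k2 2 2, k2 0 4, k2 4 0, k2 2 4, k2 4 2, k2 4 4, k2 0 5, k2 5 0, k2 2 5, k2 5 2,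
      k2 0 3, k2 3 0, k2 0 1, k2 1 0, k2 2 3, k2 3 2, k2 4 5, k2 5 4, k2 1 2, k2 2 1, k2 3 4, k2 4 3, k2 1 4, k2 4 1,
      k2 5 5, k2 3 5, k2 5 3, k2 1 5, k2 5 1, k2 3 3, k2 1 3, k2 3 1, k2 1 1]

/-- sum of integers -/
def sI (g : ℕ → ℤ) : List ℕ → ℤ
  | [] => 0
  | x :: qs => g x + sI g qs

theorem sI_bound {g : ℕ → ℤ} {c : ℤ} (hg : ∀ x, |g x| ≤ c) : ∀ qs : List ℕ, |sI g qs| ≤ qs.length * c
  | [] => by simp [sI]
  | x :: qs => by
    have ih := sI_bound hg qs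
    simp only [sI, List.length_cons]
    push_cast
    have := abs_add_le (g x) (sI g qs)
    have := hg x
    linarith

theorem sN_oF (C : ℕ) (f : ℕ → ℕ → ℕ) (m : ℕ) : ∀ qs : List ℕ,
    sN (fun x => oF C (f x) m) qs = oF C (fun i => sN (fun x => f x i) qs) m
  | [] => by simp [sN, oF_zero]
  | x :: qs => by
    simp only [sN]
    rw [sN_oF C f m qs]
    exact oF_add C m _ _

theorem chunk_id (X o : ℕ) (a b : ℕ → ℕ → ℕ) : ∀ qs : List ℕ,
    ((sN (fun x => LX X (a x) * LX X (b x)) qs : ℕ) : ℤ) + qs.length * (o : ℤ) ^ 2 * (LX X (fun _ => 1) : ℕ) ^ 2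
      - o * (LX X (fun _ => 1) : ℕ) * ((sN (fun x => LX X (a x)) qs : ℕ) + (sN (fun x => LX X (b x)) qs : ℕ))
      = ∑ s ∈ Finset.range 21, (X : ℤ) ^ s * sI (fun x => cS s (fun t => (a x t : ℤ) - o) (fun t => (b x t : ℤ) - o)) qs
  | [] => by simp [sN, sI]
  | x :: qs => by
    have ih := chunk_id X o a b qs
    have h1 := LZ_mul X (fun t => (a x t : ℤ) - o) (fun t => (b x t : ℤ) - o)
    have h2 := LX_cast X o (a x)
    have h3 := LX_cast X o (b x)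
    simp only [sI, mul_add, Finset.sum_add_distrib]
    rw [← ih, ← h1]
    have e2 : LZ X (fun t => (a x t : ℤ) - o) = ((LX X (a x) : ℕ) : ℤ) - o * (LX X (fun _ => 1) : ℕ) := by linarith
    have e3 : LZ X (fun t => (b x t : ℤ) - o) = ((LX X (b x) : ℕ) : ℤ) - o * (LX X (fun _ => 1) : ℕ) := by linarith
    rw [e2, e3]
    simp only [sN, List.length_cons, Nat.add_eq]
    push_cast
    ring

/-- digit `s` of the sum of the products -/
def zS (o ω s : ℕ) (a b : ℕ → ℕ → ℕ) (qs : List ℕ) : ℕ :=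
  ((ω : ℤ) + sI (fun x => cS s (fun t => (a x t : ℤ) - o) (fun t => (b x t : ℤ) - o)) qs).toNat

theorem zS_ok {o ω : ℕ} {a b : ℕ → ℕ → ℕ} (ha : ∀ x t, a x t ≤ 2 * o) (hb : ∀ x t, b x t ≤ 2 * o) {qs : List ℕ}
    (h : 6 * (qs.length * (o * o)) < ω) (s : ℕ) : ((zS o ω s a b qs : ℕ) : ℤ)
      = ω + sI (fun x => cS s (fun t => (a x t : ℤ) - o) (fun t => (b x t : ℤ) - o)) qs ∧ zS o ω s a b qs < 2 * ω := by
  have k := sI_bound (g := fun x => cS s (fun t => (a x t : ℤ) - o) (fun t => (b x t : ℤ) - o)) (c := 6 * (o : ℤ) ^ 2)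
    (fun x => by
      refine cS_bound (fun t => ?_) (fun t => ?_) s
      · have := ha x t
        rw [abs_le]
        constructor <;> omega
      · have := hb x t
        rw [abs_le]
        constructor <;> omega) qs
  rw [abs_le] at k
  obtain ⟨k1, k2⟩ := k
  have h' : (6 * (qs.length * (o * o)) : ℤ) < ω := by exact_mod_cast h
  unfold zS
  constructor
  · rw [Int.toNat_of_nonneg]
    nlinarith
  · have : ((ω : ℤ) + sI (fun x => cS s (fun t => (a x t : ℤ) - o) (fun t => (b x t : ℤ) - o)) qs) < 2 * ω := by nlinarith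
    omega

/-- constant of a chunk -/
def cU (X o ω K : ℕ) : ℕ :=
  Nat.add (Nat.mul K (Nat.mul (Nat.mul o o) (Nat.mul (LX X fun _ => 1) (LX X fun _ => 1)))) (Nat.mul ω (oF X (fun _ => 1) 21))

theorem chunk_nat {X o ω : ℕ} {a b : ℕ → ℕ → ℕ} (ha : ∀ x t, a x t ≤ 2 * o) (hb : ∀ x t, b x t ≤ 2 * o) {qs : List ℕ}
    (h : 6 * (qs.length * (o * o)) < ω) :
    sN (fun x => LX X (a x) * LX X (b x)) qs + cU X o ω qs.length
      = oF X (fun s => zS o ω s a b qs) 21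
        + o * LX X (fun _ => 1) * (sN (fun x => LX X (a x)) qs + sN (fun x => LX X (b x)) qs) := by
  have k := chunk_id X o a b qs
  have e : ∀ s, sI (fun x => cS s (fun t => (a x t : ℤ) - o) (fun t => (b x t : ℤ) - o)) qs
      = ((zS o ω s a b qs : ℕ) : ℤ) - ω := fun s => by
    rw [(zS_ok ha hb h s).1]
    ring
  simp only [e] at k
  zify
  have e1 : ((oF X (fun s => zS o ω s a b qs) 21 : ℕ) : ℤ) = ∑ s ∈ Finset.range 21, (X : ℤ) ^ s * (zS o ω s a b qs : ℕ) := by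
    rw [oF_sum]
    push_cast
    rfl
  have e2 : ((cU X o ω qs.length : ℕ) : ℤ) = qs.length * (o : ℤ) ^ 2 * (LX X (fun _ => 1) : ℕ) ^ 2
      + ω * ∑ s ∈ Finset.range 21, (X : ℤ) ^ s := by
    unfold cU
    rw [oF_sum]
    simp only [Nat.add_eq, Nat.mul_eq]
    push_cast
    simp only [mul_one]
    ring
  rw [e1, e2]
  simp only [mul_sub, Finset.sum_sub_distrib] at k
  rw [← Finset.sum_mul] at k
  linarith

end Pool.Agent.FPX.PLK
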