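import Pool.Agent.FPX.PKB
/-!
PKC (helper1). Table of a sum of free squares from packed rows.
-/
set_option autoImplicit false

noncomputable section

namespace Pool.Agent.FPX.PLK

open List (Forall₂)

/-- sum of the products first chunk times row -/
def sqH (Cm : ℕ) : List ℕ → ℕ
  | [] => 0
  | r :: l => Nat.add (Nat.mul (Nat.land r Cm) r) (sqH Cm l)

/-- the sums of products with positive digits -/
def zrH (Cm U oJ : ℕ) (rs : List ℕ) (S J : ℕ) : ℕ :=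
  Nat.sub (Nat.add (sqH Cm rs) (Nat.mul U J)) (Nat.mul oJ (Nat.add (Nat.mul (Nat.land S Cm) J) S))

/-- digit `s` of all chunks -/
def exH (β M Z s : ℕ) : ℕ := Nat.land (Nat.shiftRight Z (Nat.mul β s)) M

/-- positive part of the nine forms -/
def pH (B β M Z : ℕ) : ℕ :=
  Nat.add (Nat.mul 2 (Nat.add (exH β M Z 0) (exH β M Z 20))) (Nat.mul B
  (Nat.add (Nat.mul 2 (Nat.add (exH β M Z 2) (exH β M Z 18))) (Nat.mul B
  (Nat.add (Nat.mul 2 (Nat.add (exH β M Z 6) (exH β M Z 14))) (Nat.mul B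
  (Nat.add (Nat.add (exH β M Z 1) (exH β M Z 19)) (Nat.mul B
  (Nat.add (exH β M Z 9) (Nat.mul B
  (Nat.add (Nat.add (exH β M Z 3) (exH β M Z 17)) (Nat.mul B
  (Nat.add (exH β M Z 7) (Nat.mul B
  (Nat.add (Nat.add (exH β M Z 4) (exH β M Z 16)) (Nat.mul B (exH β M Z 8))))))))))))))))

/-- constant digits of the negative part -/
def kH (B ω : ℕ) : ℕ := od B [4 * ω, 4 * ω, 4 * ω, 2 * ω, 0, 2 * ω, 0, 2 * ω, 0]

/-- negative part of the nine forms -/
def nH (B β M κ Z J : ℕ) : ℕ :=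
  Nat.add (Nat.mul κ J) (Nat.mul (Nat.pow B 4) (Nat.add (exH β M Z 11) (Nat.mul (Nat.pow B 2)
    (Nat.add (exH β M Z 13) (Nat.mul (Nat.pow B 2) (exH β M Z 12))))))

/-- all rows -/
def goH (cb Cm U oJ B β M κ h h2 bb : ℕ) : ℕ → List ℕ → ℕ → ℕ → List PV
  | 0, _, _, _ => []
  | m + 1, rs, S, J =>
    let Z := zrH Cm U oJ rs S J
    let p := pH B β M Z
    let n := nH B β M κ Z J
    ⟨Nat.add (Nat.mul h2 n) (Nat.mul h (Nat.land p Cm)), Nat.add (Nat.mul h2 p) (Nat.mul h (Nat.land n Cm)), bb⟩ ::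
      goH cb Cm U oJ B β M κ h h2 bb m (rs.map fun r => Nat.shiftRight r cb) (Nat.shiftRight S cb) (Nat.shiftRight J cb)

/-- the rows before doubling -/
def tbH (cb Cm U oJ B β M κ : ℕ) : ℕ → List ℕ → ℕ → ℕ → List (ℕ × ℕ)
  | 0, _, _, _ => []
  | m + 1, rs, S, J =>
    (pH B β M (zrH Cm U oJ rs S J), nH B β M κ (zrH Cm U oJ rs S J) J) ::
      tbH cb Cm U oJ B β M κ m (rs.map fun r => Nat.shiftRight r cb) (Nat.shiftRight S cb) (Nat.shiftRight J cb)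

theorem goH_eq (cb U oJ B β M κ h b : ℕ) : ∀ (m : ℕ) (rs : List ℕ) (S J : ℕ),
    goH cb (2 ^ cb - 1) U oJ B β M κ h (2 * h) (Nat.mul h (Nat.mul 3 b)) m rs S J
      = dbL (2 ^ cb) h b ((tbH cb (2 ^ cb - 1) U oJ B β M κ m rs S J).map Prod.fst)
        ((tbH cb (2 ^ cb - 1) U oJ B β M κ m rs S J).map Prod.snd)
  | 0, _, _, _ => rfl
  | m + 1, rs, S, J => by
    simp only [goH, tbH, List.map_cons, dbL]
    rw [goH_eq cb U oJ B β M κ h b m]
    congr 1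
    have e : ∀ x, Nat.land x (2 ^ cb - 1) = Nat.mod x (2 ^ cb) := fun x => Nat.and_two_pow_sub_one_eq_mod x cb
    simp only [e, PV.mk.injEq, Nat.add_eq, Nat.mul_eq]
    exact ⟨by ring, by ring, trivial⟩

section row

variable {q X : ℕ}

theorem sqH_ok {m : ℕ} {L : ℕ → ℕ → ℕ} (hL : ∀ x, L x 0 < 2 ^ q) : ∀ qs : List ℕ,
    sqH (2 ^ q - 1) (qs.map fun x => oF (2 ^ q) (L x) (m + 1))
      = oF (2 ^ q) (fun i => sN (fun x => L x 0 * L x i) qs) (m + 1)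
  | [] => by simp [sqH, sN, oF_zero]
  | x :: qs => by
    simp only [List.map_cons, sqH, sN]
    rw [sqH_ok hL qs]
    have e : Nat.land (oF (2 ^ q) (L x) (m + 1)) (2 ^ q - 1) = L x 0 := oF_land (hL x)
    rw [e]
    change L x 0 * oF (2 ^ q) (L x) (m + 1) + _ = _
    rw [oF_mul, oF_add]
    rfl

theorem zrH_ok {m β o ω : ℕ} {d : ℕ → ℕ → ℕ → ℕ} (hd : ∀ x t i, d x t i ≤ 2 * o) {qs : List ℕ}
    (hω : 6 * (qs.length * (o * o)) < ω)
    (hL : ∀ x i, LX (2 ^ β) (fun t => d x t i) < 2 ^ q)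
    (hS : ∀ i, sN (fun x => LX (2 ^ β) (fun t => d x t i)) qs < 2 ^ q) :
    zrH (2 ^ q - 1) (cU (2 ^ β) o ω qs.length) (o * LX (2 ^ β) fun _ => 1)
      (qs.map fun x => oF (2 ^ q) (fun i => LX (2 ^ β) (fun t => d x t i)) (m + 1))
      (oF (2 ^ q) (fun i => sN (fun x => LX (2 ^ β) (fun t => d x t i)) qs) (m + 1)) (oF (2 ^ q) (fun _ => 1) (m + 1))
      = oF (2 ^ q) (fun i => oF (2 ^ β) (fun s => zS o ω s (fun x t => d x t 0) (fun x t => d x t i) qs) 21) (m + 1) := by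
  unfold zrH
  rw [sqH_ok (fun x => hL x 0)]
  have e : Nat.land (oF (2 ^ q) (fun i => sN (fun x => LX (2 ^ β) (fun t => d x t i)) qs) (m + 1)) (2 ^ q - 1)
      = sN (fun x => LX (2 ^ β) (fun t => d x t 0)) qs := oF_land (hS 0)
  rw [e]
  change (_ + cU (2 ^ β) o ω qs.length * oF (2 ^ q) (fun _ => 1) (m + 1)) - (o * LX (2 ^ β) (fun _ => 1))
    * (sN (fun x => LX (2 ^ β) (fun t => d x t 0)) qs * oF (2 ^ q) (fun _ => 1) (m + 1)
      + oF (2 ^ q) (fun i => sN (fun x => LX (2 ^ β) (fun t => d x t i)) qs) (m + 1)) = _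
  rw [oF_mul, oF_mul, oF_add, oF_add, oF_mul]
  have key : oF (2 ^ q) (fun i => sN (fun x => LX (2 ^ β) (fun t => d x t 0) * LX (2 ^ β) (fun t => d x t i)) qs
      + cU (2 ^ β) o ω qs.length * 1) (m + 1)
      = oF (2 ^ q) (fun i => oF (2 ^ β) (fun s => zS o ω s (fun x t => d x t 0) (fun x t => d x t i) qs) 21) (m + 1)
        + oF (2 ^ q) (fun i => (o * LX (2 ^ β) (fun _ => 1)) * (sN (fun x => LX (2 ^ β) (fun t => d x t 0)) qs * 1
          + sN (fun x => LX (2 ^ β) (fun t => d x t i)) qs)) (m + 1) := by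
    rw [oF_add]
    refine oF_congr _ fun i _ => ?_
    rw [Nat.mul_one, Nat.mul_one]
    exact chunk_nat (fun x t => hd x t 0) (fun x t => hd x t i) hω
  rw [key, Nat.add_sub_cancel]

theorem exH_ok {m M β s : ℕ} (hs : s < 21) (hβ : 21 * β ≤ q) (hm : m ≤ M) {z : ℕ → ℕ → ℕ}
    (hz : ∀ i s, z i s < 2 ^ β) :
    exH β (oF (2 ^ q) (fun _ => 2 ^ β - 1) M) (oF (2 ^ q) (fun i => oF (2 ^ β) (z i) 21) m) s
      = oF (2 ^ q) (fun i => z i s) m := by
  have h1 : β * s + β ≤ q := by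
    have : β * (s + 1) ≤ β * 21 := Nat.mul_le_mul_left β hs
    rw [Nat.mul_add, Nat.mul_one] at this
    omega
  have h2 : ∀ i < m, oF (2 ^ β) (z i) 21 < 2 ^ q := fun i _ =>
    (oF_lt 21 (f := z i) fun s _ => hz i s).trans_le (by
      rw [← pow_mul]
      exact Nat.pow_le_pow_right (by norm_num) (by omega))
  unfold exH
  change (oF (2 ^ q) (fun i => oF (2 ^ β) (z i) 21) m >>> (β * s)) &&& _ = _
  rw [oF_ext h1 m M _ hm h2]
  exact oF_congr _ fun i _ => oF_dig s 21 (z i) hs fun s _ => hz i s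

end row

/-- digits of the positive part -/
def lP (z : ℕ → ℕ) : List ℕ :=
  [2 * (z 0 + z 20), 2 * (z 2 + z 18), 2 * (z 6 + z 14), z 1 + z 19, z 9, z 3 + z 17, z 7, z 4 + z 16, z 8]

/-- digits of the negative part -/
def lN (ω : ℕ) (z : ℕ → ℕ) : List ℕ := [4 * ω, 4 * ω, 4 * ω, 2 * ω, z 11, 2 * ω, z 13, 2 * ω, z 12]

theorem pH_ok {B C m β M Z : ℕ} {z : ℕ → ℕ → ℕ} (hE : ∀ s < 21, exH β M Z s = oF C (fun i => z i s) m) :
    pH B β M Z = oF C (fun i => od B (lP (z i))) m := by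
  unfold pH
  rw [hE 0 (by norm_num), hE 20 (by norm_num), hE 2 (by norm_num), hE 18 (by norm_num), hE 6 (by norm_num),
    hE 14 (by norm_num), hE 1 (by norm_num), hE 19 (by norm_num), hE 9 (by norm_num), hE 3 (by norm_num),
    hE 17 (by norm_num), hE 7 (by norm_num), hE 4 (by norm_num), hE 16 (by norm_num), hE 8 (by norm_num)]
  simp only [Nat.add_eq, Nat.mul_eq, oF_add, oF_mul]
  refine oF_congr _ fun i _ => ?_
  simp only [lP, od, Nat.add_eq, Nat.mul_eq]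
  ring

theorem nH_ok {B C m β M Z ω : ℕ} {z : ℕ → ℕ → ℕ} (hE : ∀ s < 21, exH β M Z s = oF C (fun i => z i s) m) :
    nH B β M (kH B ω) Z (oF C (fun _ => 1) m) = oF C (fun i => od B (lN ω (z i))) m := by
  unfold nH
  rw [hE 11 (by norm_num), hE 13 (by norm_num), hE 12 (by norm_num)]
  simp only [Nat.add_eq, Nat.mul_eq, oF_add, oF_mul]
  refine oF_congr _ fun i _ => ?_
  simp only [lN, kH, od, Nat.add_eq, Nat.mul_eq, Nat.pow_eq]
  ring

theorem RC_oF {B K : ℕ} {w : List ℝ} (hw : w.length = K) {b : ℕ} : ∀ (m : ℕ) (P N : ℕ → List ℕ),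
    (∀ i, (P i).length = K ∧ (N i).length = K ∧ (∀ d ∈ P i, d ≤ b) ∧ ∀ d ∈ N i, d ≤ b) →
    RC B K w ⟨oF (B ^ K) (fun i => od B (P i)) m, oF (B ^ K) (fun i => od B (N i)) m, b⟩
      (fun i => ip w (P i) - ip w (N i)) m
  | 0, P, N, h => fun D hD => by
    have : D = [] := List.length_eq_zero_iff.1 hD
    subst this
    exact RV.mono RR.zero (Nat.zero_le b)
  | m + 1, P, N, h => fun D hD => by
    cases D with
    | nil => simp at hD
    | cons d D =>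
      have ih := RC_oF (B := B) hw m (fun i => P (i + 1)) (fun i => N (i + 1)) (fun i => h (i + 1)) D (by simpa using hD)
      obtain ⟨h1, h2, h3, h4⟩ := h 0
      have h5 : RV B K w ⟨od B (P 0), od B (N 0), b⟩ (ip w (P 0) - ip w (N 0)) :=
        ⟨P 0, N 0, h1, h2, rfl, rfl, h3, h4, rfl⟩
      have h6 := RR.cons hw (d := d) h5 ih
      have e : mx b b = b := by
        change b + (b - b) = b
        omega
      simp only [PV.cons, e] at h6
      simp only [df, oF]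
      rw [mul_comm (ip w (P 0) - ip w (N 0)) d]
      exact h6

/-- vectors of a square -/
def uD (o : ℕ) (d : ℕ → ℕ → ℕ → ℕ) (x i : ℕ) : V6 :=
  ⟨(d x 0 i : ℝ) - o, (d x 1 i : ℝ) - o, (d x 2 i : ℝ) - o, (d x 3 i : ℝ) - o, (d x 4 i : ℝ) - o, (d x 5 i : ℝ) - o⟩

theorem val_sq (z1 z2 z3 : ℂ) (o : ℕ) (d : ℕ → ℕ → ℕ → ℕ) (i : ℕ) : ∀ qs : List ℕ,
    (sF2 (fun x a i => Bl z1 z2 z3 (uD o d x a) (uD o d x i)) qs 0 i : ℝ)
      = Complex.normSq z1 * (2 * (((sI (fun x => cS 0 (fun t => (d x t 0 : ℤ) - o) (fun t => (d x t i : ℤ) - o)) qs : ℤ) : ℝ)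
          + ((sI (fun x => cS 20 (fun t => (d x t 0 : ℤ) - o) (fun t => (d x t i : ℤ) - o)) qs : ℤ) : ℝ)))
      + Complex.normSq z2 * (2 * (((sI (fun x => cS 2 (fun t => (d x t 0 : ℤ) - o) (fun t => (d x t i : ℤ) - o)) qs : ℤ) : ℝ)
          + ((sI (fun x => cS 18 (fun t => (d x t 0 : ℤ) - o) (fun t => (d x t i : ℤ) - o)) qs : ℤ) : ℝ)))
      + Complex.normSq z3 * (2 * (((sI (fun x => cS 6 (fun t => (d x t 0 : ℤ) - o) (fun t => (d x t i : ℤ) - o)) qs : ℤ) : ℝ)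
          + ((sI (fun x => cS 14 (fun t => (d x t 0 : ℤ) - o) (fun t => (d x t i : ℤ) - o)) qs : ℤ) : ℝ)))
      + (2 * ((starRingEnd ℂ) z1 * z2).re)
        * (((sI (fun x => cS 1 (fun t => (d x t 0 : ℤ) - o) (fun t => (d x t i : ℤ) - o)) qs : ℤ) : ℝ)
          + ((sI (fun x => cS 19 (fun t => (d x t 0 : ℤ) - o) (fun t => (d x t i : ℤ) - o)) qs : ℤ) : ℝ))
      + -(2 * ((starRingEnd ℂ) z1 * z2).im)
        * (((sI (fun x => cS 9 (fun t => (d x t 0 : ℤ) - o) (fun t => (d x t i : ℤ) - o)) qs : ℤ) : ℝ)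
          - ((sI (fun x => cS 11 (fun t => (d x t 0 : ℤ) - o) (fun t => (d x t i : ℤ) - o)) qs : ℤ) : ℝ))
      + (2 * ((starRingEnd ℂ) z1 * z3).re)
        * (((sI (fun x => cS 3 (fun t => (d x t 0 : ℤ) - o) (fun t => (d x t i : ℤ) - o)) qs : ℤ) : ℝ)
          + ((sI (fun x => cS 17 (fun t => (d x t 0 : ℤ) - o) (fun t => (d x t i : ℤ) - o)) qs : ℤ) : ℝ))
      + -(2 * ((starRingEnd ℂ) z1 * z3).im)
        * (((sI (fun x => cS 7 (fun t => (d x t 0 : ℤ) - o) (fun t => (d x t i : ℤ) - o)) qs : ℤ) : ℝ)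
          - ((sI (fun x => cS 13 (fun t => (d x t 0 : ℤ) - o) (fun t => (d x t i : ℤ) - o)) qs : ℤ) : ℝ))
      + (2 * ((starRingEnd ℂ) z2 * z3).re)
        * (((sI (fun x => cS 4 (fun t => (d x t 0 : ℤ) - o) (fun t => (d x t i : ℤ) - o)) qs : ℤ) : ℝ)
          + ((sI (fun x => cS 16 (fun t => (d x t 0 : ℤ) - o) (fun t => (d x t i : ℤ) - o)) qs : ℤ) : ℝ))
      + -(2 * ((starRingEnd ℂ) z2 * z3).im)
        * (((sI (fun x => cS 8 (fun t => (d x t 0 : ℤ) - o) (fun t => (d x t i : ℤ) - o)) qs : ℤ) : ℝ)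
          - ((sI (fun x => cS 12 (fun t => (d x t 0 : ℤ) - o) (fun t => (d x t i : ℤ) - o)) qs : ℤ) : ℝ))
  | [] => by
    simp [sF2, sI]
  | x :: qs => by
    simp only [sF2]
    rw [val_sq z1 z2 z3 o d i qs]
    simp only [sI, cS, Bl, Ph, uD]
    push_cast
    ring

theorem sF2_shift (y : ℕ → ℕ → ℕ → ℝ) (a i : ℕ) : ∀ qs : List ℕ,
    sF2 y qs (a + 1) (i + 1) = sF2 (fun x a i => y x (a + 1) (i + 1)) qs a i
  | [] => rfl
  | x :: qs => by
    simp only [sF2]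
    rw [sF2_shift y a i qs]

end Pool.Agent.FPX.PLK
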