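import Pool.Agent.FPX.PKC
/-!
PKD (helper1). Free squares from interleaved digits: the table `sqT` and its value.
-/
set_option autoImplicit false

noncomputable section

namespace Pool.Agent.FPX.PLK

open List (Forall₂)

theorem od_rep_oF (C c : ℕ) : ∀ m : ℕ, od C (List.replicate m c) = oF C (fun _ => c) m
  | 0 => rfl
  | m + 1 => by
    simp only [List.replicate_succ, od, oF, Nat.add_eq, Nat.mul_eq]
    rw [od_rep_oF C c m]

theorem sN_id (f : ℕ → ℕ) : ∀ qs : List ℕ, sN (fun r => r) (qs.map f) = sN f qs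
  | [] => rfl
  | x :: qs => by
    simp only [List.map_cons, sN]
    rw [sN_id f qs]

theorem sN_le {f : ℕ → ℕ} {c : ℕ} (h : ∀ x, f x ≤ c) : ∀ qs : List ℕ, sN f qs ≤ qs.length * c
  | [] => by simp [sN]
  | x :: qs => by
    have := sN_le h qs
    have := h x
    simp only [sN, List.length_cons, Nat.add_eq]
    rw [Nat.add_mul, Nat.one_mul]
    omega

theorem LX_lt {X : ℕ} {v : ℕ → ℕ} (h : ∀ t, v t < X) : LX X v < X ^ 11 := by
  have h0 : 0 < X := (Nat.zero_le _).trans_lt (h 0)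
  have e : LX X v = oF X (fun i => if i = 0 then v 0 else if i = 1 then v 2 else if i = 3 then v 4 else
      if i = 7 then v 5 else if i = 9 then v 3 else if i = 10 then v 1 else 0) 11 := by
    simp only [oF, LX]
    norm_num
    ring
  rw [e]
  refine oF_lt 11 fun i _ => ?_
  split_ifs
  · exact h 0
  · exact h 2
  · exact h 4
  · exact h 5
  · exact h 3
  · exact h 1
  · exact h0

theorem lPN_ok {β ω : ℕ} {z : ℕ → ℕ} (hω2 : 2 * ω = 2 ^ β) (hz : ∀ s, z s < 2 ^ β) :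
    (lP z).length = 9 ∧ (lN ω z).length = 9 ∧ (∀ d ∈ lP z, d ≤ 4 * 2 ^ β) ∧ ∀ d ∈ lN ω z, d ≤ 4 * 2 ^ β := by
  refine ⟨rfl, rfl, fun e he => ?_, fun e he => ?_⟩
  · simp only [lP, List.mem_cons, List.not_mem_nil, or_false] at he
    have := hz 0
    have := hz 1
    have := hz 2
    have := hz 3
    have := hz 4
    have := hz 6
    have := hz 7
    have := hz 8
    have := hz 9
    have := hz 14
    have := hz 16
    have := hz 17
    have := hz 18
    have := hz 19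
    have := hz 20
    omega
  · simp only [lN, List.mem_cons, List.not_mem_nil, or_false] at he
    have := hz 11
    have := hz 12
    have := hz 13
    omega

theorem tbH_ok {q β o ω M : ℕ} (z1 z2 z3 : ℂ) (hω2 : 2 * ω = 2 ^ β) (hβ : 21 * β ≤ q * 9) {qs : List ℕ}
    (hω : 6 * (qs.length * (o * o)) < ω) : ∀ (m : ℕ) (d : ℕ → ℕ → ℕ → ℕ), m ≤ M → (∀ x t i, d x t i ≤ 2 * o) →
    (∀ x i, LX (2 ^ β) (fun t => d x t i) < 2 ^ (q * 9)) →
    (∀ i, sN (fun x => LX (2 ^ β) (fun t => d x t i)) qs < 2 ^ (q * 9)) →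
    RT (2 ^ q) 9 (w3 z1 z2 z3) (4 * 2 ^ β)
      ((tbH (q * 9) (2 ^ (q * 9) - 1) (cU (2 ^ β) o ω qs.length) (o * LX (2 ^ β) fun _ => 1) (2 ^ q) β
        (oF (2 ^ (q * 9)) (fun _ => 2 ^ β - 1) M) (kH (2 ^ q) ω) m
        (qs.map fun x => oF (2 ^ (q * 9)) (fun i => LX (2 ^ β) (fun t => d x t i)) m)
        (oF (2 ^ (q * 9)) (fun i => sN (fun x => LX (2 ^ β) (fun t => d x t i)) qs) m)
        (oF (2 ^ (q * 9)) (fun _ => 1) m)).map Prod.fst)
      ((tbH (q * 9) (2 ^ (q * 9) - 1) (cU (2 ^ β) o ω qs.length) (o * LX (2 ^ β) fun _ => 1) (2 ^ q) β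
        (oF (2 ^ (q * 9)) (fun _ => 2 ^ β - 1) M) (kH (2 ^ q) ω) m
        (qs.map fun x => oF (2 ^ (q * 9)) (fun i => LX (2 ^ β) (fun t => d x t i)) m)
        (oF (2 ^ (q * 9)) (fun i => sN (fun x => LX (2 ^ β) (fun t => d x t i)) qs) m)
        (oF (2 ^ (q * 9)) (fun _ => 1) m)).map Prod.snd)
      (sF2 (fun x a i => Bl z1 z2 z3 (uD o d x a) (uD o d x i)) qs) m
  | 0, _, _, _, _, _ => trivial
  | m + 1, d, hm, hd, hL, hS => by
    simp only [tbH, List.map_cons]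
    rw [zrH_ok (q := q * 9) hd hω hL hS]
    have hz : ∀ i s, zS o ω s (fun x t => d x t 0) (fun x t => d x t i) qs < 2 ^ β := fun i s => by
      have := (zS_ok (fun x t => hd x t 0) (fun x t => hd x t i) hω s).2
      rwa [hω2] at this
    have hE : ∀ s < 21, exH β (oF (2 ^ (q * 9)) (fun _ => 2 ^ β - 1) M)
        (oF (2 ^ (q * 9)) (fun i => oF (2 ^ β) (fun s => zS o ω s (fun x t => d x t 0) (fun x t => d x t i) qs) 21) (m + 1)) s
        = oF (2 ^ (q * 9)) (fun i => zS o ω s (fun x t => d x t 0) (fun x t => d x t i) qs) (m + 1) := fun s hs =>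
      exH_ok (z := fun i s => zS o ω s (fun x t => d x t 0) (fun x t => d x t i) qs) hs (by omega) hm hz
    constructor
    · rw [pH_ok (z := fun i s => zS o ω s (fun x t => d x t 0) (fun x t => d x t i) qs) hE,
        nH_ok (z := fun i s => zS o ω s (fun x t => d x t 0) (fun x t => d x t i) qs) hE]
      have key := RC_oF (B := 2 ^ q) (K := 9) (w := w3 z1 z2 z3) rfl (b := 4 * 2 ^ β) (m + 1)
        (fun i => lP fun s => zS o ω s (fun x t => d x t 0) (fun x t => d x t i) qs)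
        (fun i => lN ω fun s => zS o ω s (fun x t => d x t 0) (fun x t => d x t i) qs) (fun i => lPN_ok hω2 (hz i))
      rw [← pow_mul] at key
      have e : (fun i => ip (w3 z1 z2 z3) (lP fun s => zS o ω s (fun x t => d x t 0) (fun x t => d x t i) qs)
          - ip (w3 z1 z2 z3) (lN ω fun s => zS o ω s (fun x t => d x t 0) (fun x t => d x t i) qs))
          = sF2 (fun x a i => Bl z1 z2 z3 (uD o d x a) (uD o d x i)) qs 0 := by
        funext i
        rw [val_sq]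
        have hc : ∀ s, ((zS o ω s (fun x t => d x t 0) (fun x t => d x t i) qs : ℕ) : ℝ)
            = ω + ((sI (fun x => cS s (fun t => (d x t 0 : ℤ) - o) (fun t => (d x t i : ℤ) - o)) qs : ℤ) : ℝ) := fun s => by
          have := (zS_ok (fun x t => hd x t 0) (fun x t => hd x t i) hω s).1
          exact_mod_cast this
        simp only [lP, lN, w3, ip]
        push_cast
        simp only [hc]
        ring
      rw [e] at key
      exact key
    · have r1 : ∀ x, Nat.shiftRight (oF (2 ^ (q * 9)) (fun i => LX (2 ^ β) (fun t => d x t i)) (m + 1)) (q * 9)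
          = oF (2 ^ (q * 9)) (fun i => LX (2 ^ β) (fun t => d x t (i + 1))) m := fun x => oF_shr (hL x 0)
      have r2 : Nat.shiftRight (oF (2 ^ (q * 9)) (fun i => sN (fun x => LX (2 ^ β) (fun t => d x t i)) qs) (m + 1)) (q * 9)
          = oF (2 ^ (q * 9)) (fun i => sN (fun x => LX (2 ^ β) (fun t => d x t (i + 1))) qs) m := oF_shr (hS 0)
      have r3 : Nat.shiftRight (oF (2 ^ (q * 9)) (fun _ => 1) (m + 1)) (q * 9) = oF (2 ^ (q * 9)) (fun _ => 1) m := by
        by_cases hq : q = 0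
        · subst hq
          simp only [Nat.zero_mul, pow_zero] at hS hL
          have hβ0 : β = 0 := by omega
          subst hβ0
          omega
        · exact oF_shr (f := fun _ => 1) (Nat.one_lt_two_pow (by omega))
      rw [r2, r3, List.map_map]
      have r4 : ((fun r => Nat.shiftRight r (q * 9)) ∘ fun x => oF (2 ^ (q * 9)) (fun i => LX (2 ^ β) (fun t => d x t i)) (m + 1))
          = fun x => oF (2 ^ (q * 9)) (fun i => LX (2 ^ β) (fun t => d x t (i + 1))) m := by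
        funext x
        exact r1 x
      rw [r4]
      have ih := tbH_ok (M := M) z1 z2 z3 hω2 hβ hω m (fun x t i => d x t (i + 1)) (by omega) (fun x t i => hd x t (i + 1))
        (fun x i => hL x (i + 1)) (fun i => hS (i + 1))
      have e : (fun a i => sF2 (fun x a i => Bl z1 z2 z3 (uD o d x a) (uD o d x i)) qs (a + 1) (i + 1))
          = sF2 (fun x a i => Bl z1 z2 z3 (uD o (fun x t i => d x t (i + 1)) x a) (uD o (fun x t i => d x t (i + 1)) x i)) qs := by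
        funext a i
        rw [sF2_shift]
        rfl
      rw [e]
      exact ih

/-- minus `h` times the sum of the squares, digits of the `m` chunks interleaved -/
def sqT (B o h m : ℕ) (xs : List ℕ) : List PV :=
  let q := Nat.log2 B
  let cb := Nat.mul q 9
  let b := Nat.log2 (Nat.mul 2 o)
  let K := xs.length
  let l := Nat.log2 (Nat.mul 12 (Nat.mul K (Nat.mul o o)))
  let β := Nat.succ l
  let ω := Nat.pow 2 l
  let C := Nat.pow 2 cb
  let J := od C (List.replicate m 1)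
  let w := Nat.mul 6 b
  let lv := lvls w cb (Nat.succ (Nat.log2 m))
  let V := Nat.pow 2 (Nat.mul w m)
  let Mb := Nat.mul (Nat.sub (Nat.pow 2 b) 1) J
  let rs := xs.map fun x => rwH b β Mb (spH lv (Nat.mod x V))
  goH cb (Nat.sub C 1) (cU (Nat.pow 2 β) o ω K) (Nat.mul o (LX (Nat.pow 2 β) fun _ => 1)) B β
    (Nat.mul (Nat.sub (Nat.pow 2 β) 1) J) (kH B ω) h (Nat.mul 2 h) (Nat.mul h (Nat.mul 3 (Nat.mul 4 (Nat.pow 2 β)))) m
    rs (sN (fun r => r) rs) J

/-- conditions of the sizes -/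
def sqC (B o m K : ℕ) : Bool :=
  let q := Nat.log2 B
  let b := Nat.log2 (Nat.mul 2 o)
  let l := Nat.log2 (Nat.mul 12 (Nat.mul K (Nat.mul o o)))
  Nat.ble 1 K && (Nat.beq (Nat.pow 2 q) B && (Nat.beq (Nat.pow 2 b) (Nat.mul 2 o) &&
    (Nat.ble m (Nat.pow 2 (Nat.succ (Nat.log2 m))) && (Nat.ble (Nat.mul 6 b) (Nat.mul q 9) &&
    (Nat.ble (Nat.mul 21 (Nat.succ l)) (Nat.mul q 9) &&
    (Nat.ble (Nat.succ (Nat.mul 12 (Nat.mul K (Nat.mul o o)))) (Nat.pow 2 (Nat.succ l)) &&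
    Nat.ble (Nat.succ (Nat.mul 4 (Nat.pow 2 (Nat.succ l)))) B))))))

theorem sqT_ok {B o m : ℕ} (h : ℕ) {xs : List ℕ} (hc : sqC B o m xs.length = true) (z1 z2 z3 : ℂ) {D : List ℝ}
    (hD : D.length = m) : ∃ t, TV B 9 (w3 z1 z2 z3) (sqT B o h m xs) D t ∧ t ≤ 0 := by
  simp only [sqC, Bool.and_eq_true, Nat.ble_eq, Nat.mul_eq, Nat.pow_eq, Nat.succ_eq_add_one] at hc
  obtain ⟨c1, c2, c3, c4, c5, c6, c7, c8⟩ := hc
  have c2 := Nat.eq_of_beq_eq_true c2
  have c3 := Nat.eq_of_beq_eq_true c3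
  simp only [sqT, Nat.mul_eq, Nat.pow_eq, Nat.succ_eq_add_one]
  generalize Nat.log2 B = q at c2 c5 c6 ⊢
  subst c2
  generalize Nat.log2 (12 * (xs.length * (o * o))) = l at c6 c7 c8 ⊢
  generalize Nat.log2 (2 * o) = b at c3 c5 ⊢
  generalize Nat.log2 m + 1 = dp at c4 ⊢
  have hX : 2 * 2 ^ l = 2 ^ (l + 1) := by ring
  have hω : 6 * (xs.length * (o * o)) < 2 ^ l := by omega
  have ho : 1 ≤ o := by
    rcases Nat.eq_zero_or_pos o with h0 | h0
    · subst h0
      have := Nat.two_pow_pos b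
      omega
    · exact h0
  have hoo : o ≤ xs.length * (o * o) := by
    calc o = 1 * (o * 1) := by ring
      _ ≤ xs.length * (o * o) := Nat.mul_le_mul c1 (Nat.mul_le_mul_left o ho)
  have hK : xs.length ≤ xs.length * (o * o) := Nat.le_mul_of_pos_right _ (Nat.mul_pos ho ho)
  -- digits
  obtain ⟨d, hdd⟩ : ∃ d : ℕ → ℕ → ℕ → ℕ, d = fun x t i => cpH b t (x / 2 ^ (6 * b * i) % 2 ^ (6 * b)) := ⟨_, rfl⟩
  have hdb : ∀ x t i, d x t i < 2 ^ b := fun x t i => by
    rw [hdd]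
    exact Nat.mod_lt _ (by positivity)
  have hd : ∀ x t i, d x t i ≤ 2 * o := fun x t i => by
    rw [← c3]
    exact (hdb x t i).le
  have hbX : 2 ^ b < 2 ^ (l + 1) := by
    rw [c3]
    omega
  have hL0 : ∀ x i, LX (2 ^ (l + 1)) (fun t => d x t i) < (2 ^ (l + 1)) ^ 11 := fun x i =>
    LX_lt fun t => (hdb x t i).trans hbX
  have hp : (2 ^ (l + 1)) ^ 11 ≤ 2 ^ (q * 9) := by
    rw [← pow_mul]
    exact Nat.pow_le_pow_right (by norm_num) (by omega)
  have hL : ∀ x i, LX (2 ^ (l + 1)) (fun t => d x t i) < 2 ^ (q * 9) := fun x i => (hL0 x i).trans_le hp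
  have hS : ∀ i, sN (fun x => LX (2 ^ (l + 1)) (fun t => d x t i)) xs < 2 ^ (q * 9) := fun i => by
    have h1 := sN_le (f := fun x => LX (2 ^ (l + 1)) (fun t => d x t i)) (c := (2 ^ (l + 1)) ^ 11)
      (fun x => (hL0 x i).le) xs
    have h2 : xs.length * (2 ^ (l + 1)) ^ 11 < 2 ^ (l + 1) * (2 ^ (l + 1)) ^ 11 :=
      Nat.mul_lt_mul_of_pos_right (by omega) (by positivity)
    have h3 : 2 ^ (l + 1) * (2 ^ (l + 1)) ^ 11 ≤ 2 ^ (q * 9) := by
      rw [← pow_succ', ← pow_mul]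
      exact Nat.pow_le_pow_right (by norm_num) (by omega)
    omega
  -- rows
  have hJ : ∀ c, c * od (2 ^ (q * 9)) (List.replicate m 1) = oF (2 ^ (q * 9)) (fun _ => c) m := fun c => by
    rw [od_rep_oF, oF_mul]
    refine oF_congr _ fun i _ => ?_
    rw [Nat.mul_one]
  have hR : ∀ x, rwH b (l + 1) ((Nat.sub (2 ^ b) 1) * od (2 ^ (q * 9)) (List.replicate m 1))
      (spH (lvls (6 * b) (q * 9) dp) (Nat.mod x (2 ^ (6 * b * m))))
      = oF (2 ^ (q * 9)) (fun i => LX (2 ^ (l + 1)) (fun t => d x t i)) m := fun x => by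
    rw [hJ]
    change rwH b (l + 1) (oF (2 ^ (q * 9)) (fun _ => 2 ^ b - 1) m)
      (spH (lvls (6 * b) (q * 9) dp) (x % 2 ^ (6 * b * m))) = _
    rw [spH_mod c4, rwH_ok (by omega) le_rfl]
    · rw [hdd]
    · intro i _
      exact (Nat.mod_lt _ (by positivity)).trans_le (Nat.pow_le_pow_right (by norm_num) (by omega))
  have hRf : (fun x => rwH b (l + 1) ((Nat.sub (2 ^ b) 1) * od (2 ^ (q * 9)) (List.replicate m 1))
      (spH (lvls (6 * b) (q * 9) dp) (Nat.mod x (2 ^ (6 * b * m)))))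
      = fun x => oF (2 ^ (q * 9)) (fun i => LX (2 ^ (l + 1)) (fun t => d x t i)) m := funext hR
  have hJ1 : od (2 ^ (q * 9)) (List.replicate m 1) = oF (2 ^ (q * 9)) (fun _ => 1) m := od_rep_oF _ _ _
  rw [hRf, sN_id, sN_oF, hJ (Nat.sub (2 ^ (l + 1)) 1), hJ1]
  have key := goH_eq (q * 9) (cU (2 ^ (l + 1)) o (2 ^ l) xs.length) (o * LX (2 ^ (l + 1)) fun _ => 1) (2 ^ q) (l + 1)
    (oF (2 ^ (q * 9)) (fun _ => 2 ^ (l + 1) - 1) m) (kH (2 ^ q) (2 ^ l)) h (4 * 2 ^ (l + 1)) m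
    (xs.map fun x => oF (2 ^ (q * 9)) (fun i => LX (2 ^ (l + 1)) (fun t => d x t i)) m)
    (oF (2 ^ (q * 9)) (fun i => sN (fun x => LX (2 ^ (l + 1)) (fun t => d x t i)) xs) m)
    (oF (2 ^ (q * 9)) (fun _ => 1) m)
  have hT := tbH_ok (M := m) z1 z2 z3 hX (by omega) hω m d le_rfl hd hL hS
  have h9 : (2 : ℕ) ^ (q * 9) = (2 ^ q) ^ 9 := pow_mul _ _ _
  have fin := dbL_ok (w := w3 z1 z2 z3) (K := 9) rfl h _ _ _ m _ D hT (by omega) hD
  rw [← h9] at fin
  change ∃ t, TV (2 ^ q) 9 (w3 z1 z2 z3) (goH (q * 9) (2 ^ (q * 9) - 1) (cU (2 ^ (l + 1)) o (2 ^ l) xs.length)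
    (o * LX (2 ^ (l + 1)) fun _ => 1) (2 ^ q) (l + 1) (oF (2 ^ (q * 9)) (fun _ => 2 ^ (l + 1) - 1) m)
    (kH (2 ^ q) (2 ^ l)) h (2 * h) (Nat.mul h (Nat.mul 3 (4 * 2 ^ (l + 1)))) m
    (xs.map fun x => oF (2 ^ (q * 9)) (fun i => LX (2 ^ (l + 1)) (fun t => d x t i)) m)
    (oF (2 ^ (q * 9)) (fun i => sN (fun x => LX (2 ^ (l + 1)) (fun t => d x t i)) xs) m)
    (oF (2 ^ (q * 9)) (fun _ => 1) m)) D t ∧ t ≤ 0
  rw [key]
  refine ⟨_, fin, ?_⟩
  have e5 := e2_sF2 (fun x a i => Bl z1 z2 z3 (uD o d x a) (uD o d x i)) (fun x D => e2_Bl_nonneg z1 z2 z3 _ D) xs D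
  have e6 := mul_nonneg (Nat.cast_nonneg (α := ℝ) h) e5
  linarith

end Pool.Agent.FPX.PLK
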