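import Pool.Agent.FPX.PKD
/-!
PKE (helper1). The complete test with all tables as parameters; multipliers tested four chunks at once.
-/
set_option autoImplicit false

noncomputable section

namespace Pool.Agent.FPX.PLK

open List (Forall₂)

/-- the complete test: further table `X`, table `TT` of `T`, local forms `PP` of `F`, test `pu` of the multipliers -/
def CY.fstH (D : CY) (E : Eng 9 (Cx × Cx × Cx)) (X TT : List PV) (PP : List (P6 PV))
    (pu : List (List PV) → List (ℕ × ℕ) → Bool) (fin : List PV → ℕ → List (ℕ × ℕ × ℕ) → Bool) : Bool :=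
  let st := D.st
  let C := Nat.pow D.B 9
  let CN := Nat.pow (Nat.pow 2 D.ws) 9
  let n := Nat.add st.N st.M
  let hh := addZ st.Ls st.Hs
  let hn := hh.map fun x => -x
  let es := hh.map fun x => 2 * x
  let hs := hh.map Int.toNat
  let x0 := PN.nrm (PN.ad st.Ls.sum ⟨0, 0⟩)
  let rs := rhos x0 st.Ls
  let κN := Nat.mul 2 (Int.toNat st.κ)
  let s := runS C es (srs E.O (2 * st.κ) st.Ls.sum st.Ls PP)
  let G := sumG D.B C D.W2 (Nat.pow D.W2 6) D.o2 st.L.length (D.gs.map fun x => Nat.div x D.tag)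
  let g2 := Nat.div D.g 2
  let L := st.L.map (rowL κN x0 rs hs)
  let P := st.P.map (rowL κN x0 rs hs)
  let Cc := st.C.map fun r => r.map (ofZ D.B)
  let j := jn D.tag (Nat.pow 2 D.pb)
  let ps := D.ps.map fun q => (j q.1, j q.2)
  Nat.beq st.Ls.length st.N && (Nat.beq st.Hs.length st.N &&
    ((st.C.all fun r => r.all fun c => Nat.beq c.length 9) && ((st.L.all fun q => Nat.ble q.2.length (Nat.succ st.M)) &&
    ((st.P.all fun q => Nat.ble q.2.length (Nat.succ st.M)) && (Nat.beq PP.length st.N && (decide (0 < st.κ) &&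
    (Nat.ble (Nat.succ (tabM C hn s).b) D.B && (sbT D.B C g2 L Cc G L && (Nat.ble 1 D.W2 && (pu P ps &&
    fin (addT X (addT (addT (tabS C hn s) (sbF C g2 L Cc G L)) (addT TT (prodL E.f C CN n P ps))))
      (j D.dg) (D.dt.map fun q => (j q.1, j q.2.1, j q.2.2))))))))))))

theorem certFH {D : CY} {X TT : List PV} {PP : List (P6 PV)} {pu : List (List PV) → List (ℕ × ℕ) → Bool}
    {E : Eng 9 (Cx × Cx × Cx)} {z1 z2 z3 : ℂ} (H : Rl E.O (RV D.B 9 (w3 z1 z2 z3)))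
    {fin : List PV → ℕ → List (ℕ × ℕ × ℕ) → Bool}
    (hfin : ∀ R dg dt, fin R dg dt = true → ∀ (θ : List ℝ) (z : ℝ), θ.length = D.st.N + D.st.M → Box θ →
      TV D.B 9 (w3 z1 z2 z3) R (1 :: θ) z → 0 ≤ z)
    {g : ℕ → ℝ} (hf : ∀ c, RV D.B 9 (w3 z1 z2 z3) (E.f c) (g c)) {t : ℕ → Bool} (htc : ∀ c, t c = true → 0 ≤ g c)
    (hpu : ∀ P ps, pu P ps = true → prodU t E.f D.B (D.B ^ 9) ((2 ^ D.ws) ^ 9) (D.st.N + D.st.M) P ps = true)
    (hX : ∀ θ : List ℝ, θ.length = D.st.N + D.st.M → ∃ t, TV D.B 9 (w3 z1 z2 z3) X (1 :: θ) t ∧ t ≤ 0)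
    (hT : ∀ θ : List ℝ, θ.length = D.st.N + D.st.M → TV D.B 9 (w3 z1 z2 z3) TT (1 :: θ)
      (qv id (D.st.T.map fun r => r.map (iz (w3 z1 z2 z3))) (1 :: θ)))
    (hP : Forall₂ (R6 (RV D.B 9 (w3 z1 z2 z3))) PP (locP OR (D.st.F.map fun q => (iz (w3 z1 z2 z3) q.1, q.2))))
    (h : D.fstH E X TT PP pu fin = true) : D.st.Good (w3 z1 z2 z3) := by
  have kit := kit3 z1 z2 z3
  intro x τ hx
  simp only [CY.fstH, Bool.and_eq_true, List.all_eq_true, Nat.ble_eq, decide_eq_true_eq] at h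
  obtain ⟨p1, p2, p4, p7, p8, p9, p10, p11, p12, pW, p13, p14⟩ := h
  have q1 := Nat.eq_of_beq_eq_true p1
  have q2 := Nat.eq_of_beq_eq_true p2
  have hbd := bd_nds D.st.N D.st.Ls D.st.Hs x q1 q2 hx.lo hx.hi
  obtain ⟨θ, hb, hI⟩ := ex_inc hbd
  have hnn := bd_nonneg hbd
  obtain ⟨l1, l2⟩ := inc_par D.st.N D.st.Ls D.st.Hs θ x q1 q2 hI
  refine ⟨θ, ⟨l1, hb, l2⟩, ?_⟩
  obtain ⟨i1, i2⟩ := inc_len hI
  generalize hhd : addZ D.st.Ls D.st.Hs = hh at hI p11 p12 p13 p14 i1 hnn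
  have hs := inc_sum hI 0
  rw [nds_last, nds_headI, hx.anti] at hs
  have h0 : 2 * (D.st.κ : ℝ) * (nds x D.st.N).headI = (D.st.Ls.sum : ℤ) + -lz hh θ := by
    rw [hs, nds_headI]
    ring
  have hDl : (θ ++ τ).length = D.st.N + D.st.M := by
    rw [List.length_append, l1, hx.len]
  have hD : Box (θ ++ τ) := by
    intro d hd
    rcases List.mem_append.1 hd with hd | hd
    · exact hb d hd
    · exact hx.box d hd
  obtain ⟨tX, hX1, hX2⟩ := hX (θ ++ τ) hDl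
  -- the rows of the linear forms
  have hxz : (PN.nrm (PN.ad D.st.Ls.sum ⟨0, 0⟩)).z = D.st.Ls.sum := by
    rw [PN.nrm_z, PN.ad_z]
    simp [PN.z]
  have hκ : ((Nat.mul 2 (Int.toNat D.st.κ) : ℕ) : ℤ) = 2 * D.st.κ := by
    change ((2 * D.st.κ.toNat : ℕ) : ℤ) = _
    rw [Nat.cast_mul, Int.toNat_of_nonneg p10.le]
    rfl
  have hR : ∀ q, rowL (Nat.mul 2 (Int.toNat D.st.κ)) (PN.nrm (PN.ad D.st.Ls.sum ⟨0, 0⟩))
      (rhos (PN.nrm (PN.ad D.st.Ls.sum ⟨0, 0⟩)) D.st.Ls) (hh.map Int.toNat) q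
      = (rowE (2 * D.st.κ) D.st.Ls.sum D.st.Ls (hh.map fun x => 2 * x) (hh.map fun x => -x) q).map pkZ := by
    intro q
    rw [rowL_eq _ _ _ _ _ (by rw [List.length_map, i1, ← i2]), toNat_map hh hnn, hxz, hκ]
  have hRm : ∀ l : List (List A3 × List ℤ), l.map (rowL (Nat.mul 2 (Int.toNat D.st.κ))
      (PN.nrm (PN.ad D.st.Ls.sum ⟨0, 0⟩)) (rhos (PN.nrm (PN.ad D.st.Ls.sum ⟨0, 0⟩)) D.st.Ls) (hh.map Int.toNat))
      = (l.map (rowE (2 * D.st.κ) D.st.Ls.sum D.st.Ls (hh.map fun x => 2 * x) (hh.map fun x => -x))).map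
        fun l => l.map pkZ := by
    intro l
    rw [List.map_map]
    exact List.map_congr_left fun q _ => hR q
  rw [hRm] at p12 p13 p14
  rw [hRm] at p14
  -- chain part
  have hps := srs_par H (2 * D.st.κ) D.st.Ls.sum D.st.Ls hP
  have hlF : (locP OR (D.st.F.map fun q => (iz (w3 z1 z2 z3) q.1, q.2))).length = D.st.N := by
    rw [← hP.length_eq]
    exact Nat.eq_of_beq_eq_true p9
  have hsl : (srs OR (2 * D.st.κ) D.st.Ls.sum D.st.Ls (locP OR (D.st.F.map fun q => (iz (w3 z1 z2 z3) q.1, q.2)))).length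
      = θ.length := by
    rw [srs_length _ _ _ _ _ (by rw [hlF, q1]), i2]
  have t1 := tabS_ok kit.len (τ := τ) (e := hh.map fun x => 2 * x) (hn := hh.map fun x => -x) hps
    (by rw [List.length_map, i1]) hsl (by rw [List.length_map, i1]) p11
  rw [lz_neg, sum6_srs hI h0, sum6_locP] at t1
  -- linear forms
  have hrow : ∀ q, lz (rowE (2 * D.st.κ) D.st.Ls.sum D.st.Ls (hh.map fun x => 2 * x) (hh.map fun x => -x) q)
      (1 :: (θ ++ τ)) = (2 * D.st.κ : ℝ) * D.st.lf x τ q := by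
    intro q
    rw [rowE_ok hI h0 q, sum3_nds]
    rfl
  have hlen : ∀ q : List A3 × List ℤ, q.2.length ≤ D.st.M + 1 →
      (rowE (2 * D.st.κ) D.st.Ls.sum D.st.Ls (hh.map fun x => 2 * x) (hh.map fun x => -x) q).length
        ≤ D.st.N + D.st.M + 1 := by
    intro q hq
    have := rowE_length hI (M := D.st.M) hq
    rw [l1] at this
    exact this
  have hC : Forall₂ (Forall₂ (RV D.B 9 (w3 z1 z2 z3))) (D.st.C.map fun r => r.map (ofZ D.B))
      (D.st.C.map fun r => r.map (iz (w3 z1 z2 z3))) := by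
    rw [List.forall₂_map_left_iff, List.forall₂_map_right_iff]
    refine List.forall₂_same.2 fun r hr => ?_
    rw [List.forall₂_map_left_iff, List.forall₂_map_right_iff]
    exact List.forall₂_same.2 fun c hc => ofZ_ok (Nat.eq_of_beq_eq_true (p4 r hr c hc))
  have hLl : ∀ l ∈ D.st.L.map (rowE (2 * D.st.κ) D.st.Ls.sum D.st.Ls (hh.map fun x => 2 * x) (hh.map fun x => -x)),
      l.length ≤ (1 :: (θ ++ τ)).length := by
    intro l hl
    obtain ⟨q, hq, rfl⟩ := List.mem_map.1 hl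
    rw [List.length_cons, hDl]
    exact hlen q (p7 q hq)
  obtain ⟨q, q0, hq⟩ := sumG_ok (B := D.B) (Y := vals (D.st.L.map (rowE (2 * D.st.κ) D.st.Ls.sum D.st.Ls
    (hh.map fun x => 2 * x) (hh.map fun x => -x))) (1 :: (θ ++ τ))) (z1 := z1) (z2 := z2) (z3 := z3) (W := D.W2)
    pW (Nat.pow D.W2 6) D.o2 (D.gs.map fun x => Nat.div x D.tag)
  have hvl : (vals (D.st.L.map (rowE (2 * D.st.κ) D.st.Ls.sum D.st.Ls (hh.map fun x => 2 * x)
      (hh.map fun x => -x))) (1 :: (θ ++ τ))).length = D.st.L.length := by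
    simp [vals]
  rw [hvl] at hq
  have t2 := sbF_ok kit.len hLl (Nat.div D.g 2) _ _ _ _ q hC hq hLl p12
  have e2 : vals (D.st.L.map (rowE (2 * D.st.κ) D.st.Ls.sum D.st.Ls (hh.map fun x => 2 * x) (hh.map fun x => -x)))
      (1 :: (θ ++ τ)) = (D.st.L.map (D.st.lf x τ)).map fun y => (2 * D.st.κ : ℝ) * y := by
    unfold vals
    rw [List.map_map, List.map_map]
    exact List.map_congr_left fun q _ => hrow q
  rw [e2, qv_scale] at t2
  -- table
  have t3 := hT (θ ++ τ) hDl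
  -- products
  obtain ⟨z, t4, hz⟩ := prodL_ok kit.len hf htc ((2 ^ D.ws) ^ 9) (D.st.N + D.st.M) hDl hD
    (D.st.P.map (rowE (2 * D.st.κ) D.st.Ls.sum D.st.Ls (hh.map fun x => 2 * x) (hh.map fun x => -x)))
    (D.ps.map fun q => (jn D.tag (Nat.pow 2 D.pb) q.1, jn D.tag (Nat.pow 2 D.pb) q.2))
    (fun q hq => by
      obtain ⟨r, hr, rfl⟩ := List.mem_map.1 hq
      exact hlen r (p8 r hr)) (fun q hq => by
      obtain ⟨r, hr, rfl⟩ := List.mem_map.1 hq
      rw [hrow]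
      have h1 := hx.pos r hr
      have h2 : (0 : ℝ) < D.st.κ := by exact_mod_cast p10
      positivity) (hpu _ _ p13)
  have key := hfin _ _ _ p14 _ _ hDl hD (TV.add hX1 (TV.add (TV.add t1 t2) (TV.add t3 t4)))
  have hg : (0 : ℝ) ≤ (Nat.div D.g 2 : ℕ) * q := mul_nonneg (Nat.cast_nonneg _) q0
  unfold ST.val
  simp only [List.map_map, Function.comp_def, sum6_nds] at key
  linarith

/-! ### multipliers -/

/-- all chunks pass the test, four at once -/
def laV (z : ℕ → Bool) (Q Q2 Q3 Q4 Q6 : ℕ) : ℕ → ℕ → Bool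
  | 0, _ => true
  | k + 1, x => z (Nat.add (Nat.mod x Q2) (Nat.add (Nat.mul Q4 (Nat.mod (Nat.div x Q2) Q))
      (Nat.mul Q6 (Nat.mod (Nat.div x Q3) Q)))) && laV z Q Q2 Q3 Q4 Q6 k (Nat.div x Q4)

theorem lamT_of {t : ℕ → Bool} {Q : ℕ} (hQ : 0 < Q) : ∀ (k x y : ℕ),
    (∀ i < k, t ((x + Q ^ k * y) / Q ^ i % Q) = true) → lamT t Q k x = true
  | 0, _, _, _ => rfl
  | k + 1, x, y, h => by
    simp only [lamT, Bool.and_eq_true]
    constructor
    · have h0 := h 0 (by omega)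
      rw [pow_zero, Nat.div_one, pow_succ', mul_assoc, Nat.add_mul_mod_self_left] at h0
      exact h0
    · refine lamT_of hQ k (x / Q) y fun i hi => ?_
      have h1 := h (i + 1) (by omega)
      have e : (x + Q ^ (k + 1) * y) / Q ^ (i + 1) = (x / Q + Q ^ k * y) / Q ^ i := by
        rw [pow_succ' Q i, ← Nat.div_div_eq_div_mul, pow_succ' Q k, mul_assoc, Nat.add_mul_div_left _ _ hQ]
      rw [e] at h1
      exact h1

theorem laV_ok {z t : ℕ → Bool} {Q : ℕ} (hQ : 0 < Q) (hz : ∀ a b c d, a < Q → b < Q → c < Q → d < Q →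
    z (a + Q * b + Q ^ 4 * c + Q ^ 6 * d) = true → t a = true ∧ t b = true ∧ t c = true ∧ t d = true) :
    ∀ (k x : ℕ), laV z Q (Q ^ 2) (Q ^ 3) (Q ^ 4) (Q ^ 6) k x = true → ∀ i < 4 * k, t (x / Q ^ i % Q) = true
  | 0, _, _, i, hi => by omega
  | k + 1, x, h, i, hi => by
    simp only [laV, Bool.and_eq_true] at h
    obtain ⟨h1, h2⟩ := h
    by_cases hi4 : i < 4
    · have e : Nat.add (Nat.mod x (Q ^ 2)) (Nat.add (Nat.mul (Q ^ 4) (Nat.mod (Nat.div x (Q ^ 2)) Q))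
          (Nat.mul (Q ^ 6) (Nat.mod (Nat.div x (Q ^ 3)) Q)))
          = x % Q + Q * (x / Q % Q) + Q ^ 4 * (x / Q ^ 2 % Q) + Q ^ 6 * (x / Q ^ 3 % Q) := by
        change x % Q ^ 2 + (Q ^ 4 * (x / Q ^ 2 % Q) + Q ^ 6 * (x / Q ^ 3 % Q)) = _
        rw [sq, Nat.mod_mul]
        ring
      rw [e] at h1
      obtain ⟨a, b, c, d⟩ := hz _ _ _ _ (Nat.mod_lt _ hQ) (Nat.mod_lt _ hQ) (Nat.mod_lt _ hQ) (Nat.mod_lt _ hQ) h1
      interval_cases i
      · simpa using a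
      · simpa using b
      · exact c
      · exact d
    · obtain ⟨j, rfl⟩ := Nat.exists_eq_add_of_le (Nat.le_of_not_lt hi4)
      have := laV_ok hQ hz k _ h2 j (by omega)
      rw [pow_add, ← Nat.div_div_eq_div_mul]
      exact this

/-- tests of the products: `la` test of a multiplier -/
def prodV (la : ℕ → Bool) (f : ℕ → PV) (B C CN n : ℕ) : List (List PV) → List (ℕ × ℕ) → Bool
  | _ :: P, (x, y) :: ps => la x && (la y && (Nat.ble (Nat.succ (PV.ngs 1 (lamS f C CN n x y)).b) B &&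
      prodV la f B C CN n P ps))
  | _, _ => true

theorem prodV_ok {la t : ℕ → Bool} {f : ℕ → PV} {B C CN n : ℕ} (h : ∀ x, la x = true → lamT t CN n x = true) :
    ∀ (P : List (List PV)) (ps : List (ℕ × ℕ)), prodV la f B C CN n P ps = true → prodU t f B C CN n P ps = true
  | [], _, _ => by simp [prodU]
  | _ :: _, [], _ => by simp [prodU]
  | _ :: P, (x, y) :: ps, hp => by
    simp only [prodV, Bool.and_eq_true] at hp
    obtain ⟨h1, h2, h3, h4⟩ := hp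
    simp only [prodU, Bool.and_eq_true]
    exact ⟨h x h1, h y h2, h3, prodV_ok h P ps h4⟩

/-- the test of a multiplier with `n` chunks: the number is completed to full groups of four chunks -/
def laW (c : VC) (ws u n : ℕ) : ℕ → Bool :=
  let W := Nat.pow 2 ws
  let Q := Nat.pow 2 (Nat.mul 9 ws)
  let k := Nat.div (Nat.add n 3) 4
  let V := Nat.pow 2 (Nat.succ u)
  let o := Nat.pow 2 u
  let pad := Nat.mul (Nat.pow Q n) (od Q (List.replicate (Nat.sub (Nat.mul 4 k) n)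
    (od W [Nat.pred V, Nat.pred V, Nat.pred V, o, o, o, o, o, o])))
  fun x => laV c.z Q (Nat.pow Q 2) (Nat.pow Q 3) (Nat.pow Q 4) (Nat.pow Q 6) k (Nat.add x pad)

theorem laW_ok {c : VC} {ws u : ℕ} (hc : c.Ok ws u) (z1 z2 z3 : ℂ) {n x : ℕ} (h : laW c ws u n x = true) :
    lamT (fun e => decide (0 ≤ ip (w3 z1 z2 z3) (dgs (2 ^ ws) 9 e)
      - (2 ^ u : ℕ) * ip (w3 z1 z2 z3) (List.replicate 9 1))) ((2 ^ ws) ^ 9) n x = true := by
  have eQ : (2 ^ ws) ^ 9 = 2 ^ (9 * ws) := by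
    rw [← pow_mul, Nat.mul_comm]
  rw [eQ]
  have hQ : 0 < 2 ^ (9 * ws) := by positivity
  refine lamT_of hQ n x (od (2 ^ (9 * ws)) (List.replicate (Nat.sub (Nat.mul 4 (Nat.div (Nat.add n 3) 4)) n)
    (od (2 ^ ws) [Nat.pred (2 ^ (u + 1)), Nat.pred (2 ^ (u + 1)), Nat.pred (2 ^ (u + 1)), 2 ^ u, 2 ^ u, 2 ^ u, 2 ^ u, 2 ^ u, 2 ^ u])))
    fun i hi => ?_
  refine laV_ok (z := c.z) (t := fun e => decide (0 ≤ ip (w3 z1 z2 z3) (dgs (2 ^ ws) 9 e)
    - (2 ^ u : ℕ) * ip (w3 z1 z2 z3) (List.replicate 9 1))) hQ ?_ (Nat.div (Nat.add n 3) 4) _ h i ?_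
  · intro a b d e ha hb hd he hz
    have key := VC.z_ok hc (ch := fun i => if i = 0 then a else if i = 1 then b else if i = 2 then d else e)
      (by
        intro i _
        split_ifs <;> assumption) (by
        have : EF (2 ^ (9 * ws)) (fun i => if i = 0 then a else if i = 1 then b else if i = 2 then d else e)
            = a + 2 ^ (9 * ws) * b + (2 ^ (9 * ws)) ^ 4 * d + (2 ^ (9 * ws)) ^ 6 * e := by
          simp [EF]
        rw [this]
        exact hz)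
    have fin : ∀ x, ((∀ d ∈ dgs (2 ^ ws) 9 x, d < 2 ^ (u + 1)) ∧
        ∃ a d f b1 b3 c1 c3 e1 e3, dgs (2 ^ ws) 9 x = [a + 2 ^ u, d + 2 ^ u, f + 2 ^ u, b1, b3, c1, c3, e1, e3] ∧
          Lok (2 ^ u) a d f b1 b3 c1 c3 e1 e3) → (decide (0 ≤ ip (w3 z1 z2 z3) (dgs (2 ^ ws) 9 x)
            - (2 ^ u : ℕ) * ip (w3 z1 z2 z3) (List.replicate 9 1))) = true := by
      rintro x ⟨h1, a, d, f, b1, b3, c1, c3, e1, e3, h2, h3⟩
      rw [h2] at h1 ⊢
      have e : ∀ y ∈ [a + 2 ^ u, d + 2 ^ u, f + 2 ^ u, b1, b3, c1, c3, e1, e3], y ≤ 2 * 2 ^ u := fun y hy => by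
        have := h1 y hy
        rw [pow_succ] at this
        omega
      exact decide_eq_true (h3.sound (e b1 (by simp)) (e b3 (by simp)) (e c1 (by simp)) (e c3 (by simp)) z1 z2 z3)
    exact ⟨fin _ (key 0 (by norm_num)), fin _ (key 1 (by norm_num)), fin _ (key 2 (by norm_num)), fin _ (key 3 (by norm_num))⟩
  · change i < 4 * ((n + 3) / 4)
    omega

end Pool.Agent.FPX.PLK
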