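import Pool.Agent.FPX.PLE
import Pool.Agent.FPX.PLP
/-!
PKF (helper1). The test of the four corners of a pair, all lanes at once.
-/
set_option autoImplicit false

noncomputable section

namespace Pool.Agent.FPX.PLK

/-- constants of the test: `Q` distance of the lanes, `w1` bits of a slot, masks and offsets; `B5`, `BW`, `W5`, `C` for
the fourth corner -/
structure VC where
  Q : ℕ
  Q4 : ℕ
  Q6 : ℕ
  w1 : ℕ
  MU : ℕ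
  MO : ℕ
  MA : ℕ
  MV : ℕ
  PV : ℕ
  PO : ℕ
  K1 : ℕ
  T1 : ℕ
  L1 : ℕ
  KR : ℕ
  W2 : ℕ
  K2 : ℕ
  T2 : ℕ
  B5 : ℕ
  BW : ℕ
  W5 : ℕ
  C : ℕ

/-- the determinants -/
def VC.d (c : VC) (nb nc R I : ℕ) : Bool :=
  Nat.beq (Nat.land (Nat.add (Nat.add (Nat.mul nb nc) (Nat.add (Nat.mul (Nat.sub c.W2 R) R) (Nat.mul (Nat.sub c.W2 I) I))) c.K2)
    c.T2) c.T2

/-- the minors of order two -/
def VC.c (c : VC) (X Y PR LR PI LI : ℕ) : Bool :=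
  Nat.beq (Nat.land X c.T1) c.T1 && (Nat.beq (Nat.land Y c.T1) c.T1 &&
    c.d (Nat.land X c.L1) (Nat.land Y c.L1) (Nat.sub (Nat.add (Nat.land PR c.L1) c.KR) (Nat.land LR c.L1))
      (Nat.sub (Nat.add (Nat.land PI c.L1) c.KR) (Nat.land LI c.L1)))

def VC.b (c : VC) (A D F b1 b3 c1 c3 e1 e3 n1 n3 m1 m3 : ℕ) : Bool :=
  c.c (Nat.add (Nat.add (Nat.mul D A) (Nat.add (Nat.mul n1 b1) (Nat.mul n3 b3))) c.K1)
    (Nat.add (Nat.add (Nat.mul F A) (Nat.add (Nat.mul m1 c1) (Nat.mul m3 c3))) c.K1)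
    (Nat.add (Nat.mul e1 A) (Nat.add (Nat.mul m1 b1) (Nat.mul m3 b3)))
    (Nat.mul c.PO (Nat.add (Nat.add (Nat.add A b1) (Nat.add b3 m3)) m1))
    (Nat.add (Nat.mul e3 A) (Nat.add (Nat.mul m3 b1) (Nat.mul c1 b3)))
    (Nat.mul c.PO (Nat.add (Nat.add (Nat.add A b1) (Nat.add b3 m3)) c1))

def VC.a (c : VC) (A D F b1 b3 c1 c3 e1 e3 : ℕ) : Bool :=
  Nat.beq (Nat.land (Nat.add A c.MA) c.PO) c.PO &&
    c.b A D F b1 b3 c1 c3 e1 e3 (Nat.sub c.PV b1) (Nat.sub c.PV b3) (Nat.sub c.PV c1) (Nat.sub c.PV c3)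

/-- the test of four matrices -/
def VC.z (c : VC) (z : ℕ) : Bool :=
  Nat.beq (Nat.land z c.MU) 0 && (Nat.beq (Nat.land z c.MO) c.MO &&
    c.a (Nat.land z c.MA) (Nat.land (Nat.shiftRight z c.w1) c.MA) (Nat.land (Nat.shiftRight z (Nat.mul 2 c.w1)) c.MA)
      (Nat.land (Nat.shiftRight z (Nat.mul 3 c.w1)) c.MV) (Nat.land (Nat.shiftRight z (Nat.mul 4 c.w1)) c.MV)
      (Nat.land (Nat.shiftRight z (Nat.mul 5 c.w1)) c.MV) (Nat.land (Nat.shiftRight z (Nat.mul 6 c.w1)) c.MV)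
      (Nat.land (Nat.shiftRight z (Nat.mul 7 c.w1)) c.MV) (Nat.land (Nat.shiftRight z (Nat.mul 8 c.w1)) c.MV))

theorem VC.d_ok {c : VC} {n t Om M : ℕ} {nb nc R I : ℕ → ℕ} (ht : t < n) (hOm : 2 * (Om * Om) ≤ 2 ^ t)
    (hM : 6 * (M * M) + 2 ^ t < 2 ^ n) (h2 : 2 * Om ≤ M) (hnb : ∀ i < 4, nb i ≤ M) (hnc : ∀ i < 4, nc i ≤ M)
    (hR : ∀ i < 4, R i ≤ 2 * Om) (hI : ∀ i < 4, I i ≤ 2 * Om) (eW : c.W2 = EF (2 ^ n) (fun _ => 2 * Om))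
    (eK : c.K2 = EF ((2 ^ n) ^ 2) (fun _ => 2 ^ t - 2 * (Om * Om))) (eT : c.T2 = EF ((2 ^ n) ^ 2) (fun _ => 2 ^ t))
    (h : c.d (EF (2 ^ n) nb) (EF (2 ^ n) nc) (EF (2 ^ n) R) (EF (2 ^ n) I) = true) :
    ∀ i < 4, 2 * (Om * Om) ≤ nb i * nc i + ((2 * Om - R i) * R i + (2 * Om - I i) * I i) := by
  have h := Nat.eq_of_beq_eq_true h
  rw [eW, eK, eT] at h
  change ((EF (2 ^ n) nb * EF (2 ^ n) nc + ((EF (2 ^ n) (fun _ => 2 * Om) - EF (2 ^ n) R) * EF (2 ^ n) R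
    + (EF (2 ^ n) (fun _ => 2 * Om) - EF (2 ^ n) I) * EF (2 ^ n) I))
    + EF ((2 ^ n) ^ 2) (fun _ => 2 ^ t - 2 * (Om * Om))) &&& EF ((2 ^ n) ^ 2) (fun _ => 2 ^ t) = _ at h
  rw [EF_sub hR, EF_sub hI] at h
  obtain ⟨g, g1, g2⟩ := EF_mul3 (2 ^ n) (k := fun _ => 2 ^ t - 2 * (Om * Om)) (a := M) (b := M) hnb hnc
    (fun i _ => (Nat.sub_le _ _).trans h2 : ∀ i < 4, (fun i => 2 * Om - R i) i ≤ M) (fun i hi => (hR i hi).trans h2)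
    (fun i _ => (Nat.sub_le _ _).trans h2 : ∀ i < 4, (fun i => 2 * Om - I i) i ≤ M) (fun i hi => (hI i hi).trans h2)
  rw [g2] at h
  have key := tst ht (fun i hi => ?_) (fun i => (g1 i).trans_lt (by omega)) h
  · intro i hi
    have := key i hi
    omega
  · have k1 : nb i * nc i ≤ M * M := Nat.mul_le_mul (hnb i hi) (hnc i hi)
    have k2 : (2 * Om - R i) * R i ≤ M * M := Nat.mul_le_mul ((Nat.sub_le _ _).trans h2) ((hR i hi).trans h2)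
    have k3 : (2 * Om - I i) * I i ≤ M * M := Nat.mul_le_mul ((Nat.sub_le _ _).trans h2) ((hI i hi).trans h2)
    omega

/-- a minor of order two in all lanes -/
theorem minor {m t V o : ℕ} {A D b1 b3 : ℕ → ℕ} (ht : t + 1 < m) (hV : 6 * (V * V) ≤ 2 ^ t) (ho : 2 * (o * o) ≤ 2 ^ t)
    (hA : ∀ i < 4, A i ≤ V) (hD : ∀ i < 4, D i ≤ V) (h1 : ∀ i < 4, b1 i ≤ V) (h3 : ∀ i < 4, b3 i ≤ V)
    (h : (EF (2 ^ m) D * EF (2 ^ m) A + (EF (2 ^ m) (fun i => V - b1 i) * EF (2 ^ m) b1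
      + EF (2 ^ m) (fun i => V - b3 i) * EF (2 ^ m) b3) + EF ((2 ^ m) ^ 2) (fun _ => 2 ^ t - 2 * (o * o)))
      &&& EF ((2 ^ m) ^ 2) (fun _ => 2 ^ t) = EF ((2 ^ m) ^ 2) (fun _ => 2 ^ t)) :
    (∀ i < 4, 2 * (o * o) ≤ D i * A i + ((V - b1 i) * b1 i + (V - b3 i) * b3 i)) ∧
    (EF (2 ^ m) D * EF (2 ^ m) A + (EF (2 ^ m) (fun i => V - b1 i) * EF (2 ^ m) b1
      + EF (2 ^ m) (fun i => V - b3 i) * EF (2 ^ m) b3) + EF ((2 ^ m) ^ 2) (fun _ => 2 ^ t - 2 * (o * o)))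
      &&& EF ((2 ^ m) ^ 2) (fun _ => 2 ^ t - 1)
      = EF ((2 ^ m) ^ 2) (fun i => D i * A i + ((V - b1 i) * b1 i + (V - b3 i) * b3 i) - 2 * (o * o)) := by
  have p1 : 2 ^ (t + 1) < 2 ^ m := Nat.pow_lt_pow_right (by norm_num) ht
  rw [pow_succ] at p1
  obtain ⟨g, g1, g2⟩ := EF_mul3 (2 ^ m) (k := fun _ => 2 ^ t - 2 * (o * o)) (a := V) (b := V) hD hA
    (fun i _ => Nat.sub_le _ _ : ∀ i < 4, (fun i => V - b1 i) i ≤ V) h1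
    (fun i _ => Nat.sub_le _ _ : ∀ i < 4, (fun i => V - b3 i) i ≤ V) h3
  rw [g2] at h ⊢
  have hb : ∀ i < 4, D i * A i + ((V - b1 i) * b1 i + (V - b3 i) * b3 i) ≤ 3 * (V * V) := by
    intro i hi
    have k1 : D i * A i ≤ V * V := Nat.mul_le_mul (hD i hi) (hA i hi)
    have k2 : (V - b1 i) * b1 i ≤ V * V := Nat.mul_le_mul (Nat.sub_le _ _) (h1 i hi)
    have k3 : (V - b3 i) * b3 i ≤ V * V := Nat.mul_le_mul (Nat.sub_le _ _) (h3 i hi)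
    omega
  have hw : ∀ i < 4, (fun i => D i * A i + ((V - b1 i) * b1 i + (V - b3 i) * b3 i) + (2 ^ t - 2 * (o * o))) i < 2 ^ m := by
    intro i hi
    have := hb i hi
    dsimp only
    omega
  have hg : ∀ i, g i < 2 ^ m := fun i => (g1 i).trans_lt (by omega)
  have key := tst (by omega) hw hg h
  have key' : ∀ i < 4, 2 * (o * o) ≤ D i * A i + ((V - b1 i) * b1 i + (V - b3 i) * b3 i) := by
    intro i hi
    have := key i hi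
    omega
  refine ⟨key', ?_⟩
  rw [sel (by omega) hw hg]
  refine EF_congr fun i hi => ?_
  have k1 := key' i hi
  have k2 := hb i hi
  have k3 := Nat.two_pow_pos t
  rw [show D i * A i + ((V - b1 i) * b1 i + (V - b3 i) * b3 i) + (2 ^ t - 2 * (o * o))
    = (D i * A i + ((V - b1 i) * b1 i + (V - b3 i) * b3 i) - 2 * (o * o)) + 2 ^ t by omega, Nat.add_mod_right,
    Nat.mod_eq_of_lt (by omega)]

/-- a sum of three products, masked -/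
theorem prod3 {m t V : ℕ} {u v u' v' u'' v'' : ℕ → ℕ} (ht : t ≤ m) (hV : 6 * (V * V) < 2 ^ t)
    (hu : ∀ i < 4, u i ≤ V) (hv : ∀ i < 4, v i ≤ V) (hu' : ∀ i < 4, u' i ≤ V) (hv' : ∀ i < 4, v' i ≤ V)
    (hu'' : ∀ i < 4, u'' i ≤ V) (hv'' : ∀ i < 4, v'' i ≤ V) :
    (EF (2 ^ m) u * EF (2 ^ m) v + (EF (2 ^ m) u' * EF (2 ^ m) v' + EF (2 ^ m) u'' * EF (2 ^ m) v''))
      &&& EF ((2 ^ m) ^ 2) (fun _ => 2 ^ t - 1)
      = EF ((2 ^ m) ^ 2) (fun i => u i * v i + (u' i * v' i + u'' i * v'' i)) := by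
  have p1 : 2 ^ t ≤ 2 ^ m := Nat.pow_le_pow_right (by norm_num) ht
  obtain ⟨g, g1, g2⟩ := EF_mul3 (2 ^ m) (k := fun _ => 0) (a := V) (b := V) hu hv hu' hv' hu'' hv''
  rw [show EF ((2 ^ m) ^ 2) (fun _ => 0) = 0 by simp [EF], Nat.add_zero] at g2
  rw [g2]
  have hb : ∀ i < 4, u i * v i + (u' i * v' i + u'' i * v'' i) ≤ 3 * (V * V) := by
    intro i hi
    have k1 : u i * v i ≤ V * V := Nat.mul_le_mul (hu i hi) (hv i hi)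
    have k2 : u' i * v' i ≤ V * V := Nat.mul_le_mul (hu' i hi) (hv' i hi)
    have k3 : u'' i * v'' i ≤ V * V := Nat.mul_le_mul (hu'' i hi) (hv'' i hi)
    omega
  rw [sel ht (fun i hi => ?_) (fun i => (g1 i).trans_lt (by omega))]
  · refine EF_congr fun i hi => ?_
    have := hb i hi
    rw [Nat.add_zero, Nat.mod_eq_of_lt (by omega)]
  · have := hb i hi
    omega

/-- a product with a constant, masked -/
theorem prod1 {m t o : ℕ} {s : ℕ → ℕ} {S : ℕ} (ht : t ≤ m) (hV : 2 * (o * S) < 2 ^ t) (hs : ∀ i < 4, s i ≤ S) :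
    (EF (2 ^ m) (fun _ => o) * EF (2 ^ m) s) &&& EF ((2 ^ m) ^ 2) (fun _ => 2 ^ t - 1)
      = EF ((2 ^ m) ^ 2) (fun i => o * s i) := by
  have p1 : 2 ^ t ≤ 2 ^ m := Nat.pow_le_pow_right (by norm_num) ht
  obtain ⟨g, g1, g2⟩ := EF_mul (2 ^ m) (u := fun _ => o) (a := o) (b := S) (fun _ _ => le_refl _) hs
  rw [g2, sel ht (fun i hi => ?_) (fun i => (g1 i).trans_lt (by omega))]
  · refine EF_congr fun i hi => ?_
    have := Nat.mul_le_mul_left o (hs i hi)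
    rw [Nat.mod_eq_of_lt (by omega)]
  · have := Nat.mul_le_mul_left o (hs i hi)
    omega

/-- values of the constants, `ws` bits of a slot, digits of `u + 1` bits -/
structure VC.Ok (c : VC) (ws u : ℕ) : Prop where
  u5 : 5 ≤ u
  uw : u + 4 ≤ ws
  Q : c.Q = 2 ^ (9 * ws)
  Q4 : c.Q4 = (2 ^ (9 * ws)) ^ 4
  Q6 : c.Q6 = (2 ^ (9 * ws)) ^ 6
  w1 : c.w1 = ws
  MU : c.MU = EF (2 ^ (9 * ws)) (fun _ => msk ws (u + 1) 9)
  MO : c.MO = EF (2 ^ (9 * ws)) (fun _ => od (2 ^ ws) [2 ^ u, 2 ^ u, 2 ^ u])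
  MA : c.MA = EF (2 ^ (9 * ws)) (fun _ => 2 ^ u - 1)
  MV : c.MV = EF (2 ^ (9 * ws)) (fun _ => 2 ^ (u + 1) - 1)
  PV : c.PV = EF (2 ^ (9 * ws)) (fun _ => 2 ^ (u + 1))
  PO : c.PO = EF (2 ^ (9 * ws)) (fun _ => 2 ^ u)
  K1 : c.K1 = EF ((2 ^ (9 * ws)) ^ 2) (fun _ => 2 ^ (3 * (u + 1)) - 2 * (2 ^ u * 2 ^ u))
  T1 : c.T1 = EF ((2 ^ (9 * ws)) ^ 2) (fun _ => 2 ^ (3 * (u + 1)))
  L1 : c.L1 = EF ((2 ^ (9 * ws)) ^ 2) (fun _ => 2 ^ (3 * (u + 1)) - 1)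
  KR : c.KR = EF ((2 ^ (9 * ws)) ^ 2) (fun _ => 2 ^ (2 * u + 4) + 2 * (2 ^ u * 2 ^ u))
  W2 : c.W2 = EF ((2 ^ (9 * ws)) ^ 2) (fun _ => 2 * 2 ^ (2 * u + 4))
  K2 : c.K2 = EF ((2 ^ (9 * ws)) ^ 4) (fun _ => 2 ^ (5 * (u + 1)) - 2 * (2 ^ (2 * u + 4) * 2 ^ (2 * u + 4)))
  T2 : c.T2 = EF ((2 ^ (9 * ws)) ^ 4) (fun _ => 2 ^ (5 * (u + 1)))

/-- the conclusion for one matrix with entries offset by `o` -/
def Lok (o a d f b1 b3 c1 c3 e1 e3 : ℕ) : Prop :=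
  1 ≤ a ∧ 2 * (o * o) ≤ d * a + ((2 * o - b1) * b1 + (2 * o - b3) * b3) ∧
  2 * (o * o) ≤ f * a + ((2 * o - c1) * c1 + (2 * o - c3) * c3) ∧
  ∃ R I : ℕ, R + o * (((a + b1) + (b3 + (2 * o - c3))) + (2 * o - c1))
      = e1 * a + ((2 * o - c1) * b1 + (2 * o - c3) * b3) + (16 * (o * o) + 2 * (o * o)) ∧
    I + o * (((a + b1) + (b3 + (2 * o - c3))) + c1)
      = e3 * a + ((2 * o - c3) * b1 + c1 * b3) + (16 * (o * o) + 2 * (o * o)) ∧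
    R ≤ 32 * (o * o) ∧ I ≤ 32 * (o * o) ∧
    2 * ((16 * (o * o)) * (16 * (o * o))) ≤ (d * a + ((2 * o - b1) * b1 + (2 * o - b3) * b3) - 2 * (o * o))
      * (f * a + ((2 * o - c1) * c1 + (2 * o - c3) * c3) - 2 * (o * o))
      + ((32 * (o * o) - R) * R + (32 * (o * o) - I) * I)

end Pool.Agent.FPX.PLK
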